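import Pool.Agent.Lib.MP_6947cd_al.ZB.Pre

/-!
Problem MP_6947cd_al (Chollet).  Case B, second entry in [2/5, 17/20]: certificates of the tree, part P097 (generated).
-/

set_option autoImplicit false
set_option linter.all false

namespace Pool.Agent.Lib.MP_6947cd_al
namespace B2

open Ent Fr B1 PkA

noncomputable def p097_k0 : C1.Kn := ⟨[nat_lit 40, nat_lit 100, nat_lit 140], [nat_lit 0, nat_lit 0, nat_lit 3243], [(nat_lit 0, nat_lit 0, nat_lit 0), (nat_lit 0, nat_lit 0, nat_lit 0), (nat_lit 1000, nat_lit 870, nat_lit 941)], (nat_lit 87, nat_lit 100, nat_lit 94)⟩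
noncomputable def p097_k1 : C1.Kn := ⟨[nat_lit 60, nat_lit 120, nat_lit 160], [nat_lit 0, nat_lit 0, nat_lit 3243], [(nat_lit 0, nat_lit 0, nat_lit 0), (nat_lit 0, nat_lit 0, nat_lit 0), (nat_lit 878, nat_lit 1000, nat_lit 945)], (nat_lit 100, nat_lit 88, nat_lit 94)⟩
noncomputable def p097_k2 : C1.Kn := ⟨[nat_lit 40, nat_lit 100, nat_lit 140], [nat_lit 0, nat_lit 1192, nat_lit 4003], [(nat_lit 0, nat_lit 0, nat_lit 0), (nat_lit 1000, nat_lit 814, nat_lit 310), (nat_lit 992, nat_lit 771, nat_lit 1000)], (nat_lit 74, nat_lit 100, nat_lit 90)⟩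
noncomputable def p097_k3 : C1.Kn := ⟨[nat_lit 40, nat_lit 100, nat_lit 160], [nat_lit 0, nat_lit 0, nat_lit 4607], [(nat_lit 0, nat_lit 0, nat_lit 0), (nat_lit 0, nat_lit 0, nat_lit 0), (nat_lit 846, nat_lit 837, nat_lit 1000)], (nat_lit 89, nat_lit 100, nat_lit 99)⟩
noncomputable def p097_k4 : C1.Kn := ⟨[nat_lit 60, nat_lit 120, nat_lit 180], [nat_lit 0, nat_lit 0, nat_lit 4796], [(nat_lit 0, nat_lit 0, nat_lit 0), (nat_lit 0, nat_lit 0, nat_lit 0), (nat_lit 802, nat_lit 1000, nat_lit 999)], (nat_lit 100, nat_lit 85, nat_lit 97)⟩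
noncomputable def p097_k5 : C1.Kn := ⟨[nat_lit 60, nat_lit 120, nat_lit 160], [nat_lit 0, nat_lit 913, nat_lit 3885], [(nat_lit 0, nat_lit 0, nat_lit 0), (nat_lit 1000, nat_lit 905, nat_lit 238), (nat_lit 886, nat_lit 948, nat_lit 1000)], (nat_lit 98, nat_lit 95, nat_lit 100)⟩
noncomputable def p097_k6 : C1.Kn := ⟨[nat_lit 40, nat_lit 100, nat_lit 140], [nat_lit 0, nat_lit 1192, nat_lit 4003], [(nat_lit 0, nat_lit 0, nat_lit 0), (nat_lit 1000, nat_lit 814, nat_lit 310), (nat_lit 992, nat_lit 771, nat_lit 1000)], (nat_lit 77, nat_lit 100, nat_lit 99)⟩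
noncomputable def p097_k7 : C1.Kn := ⟨[nat_lit 60, nat_lit 120, nat_lit 180], [nat_lit 0, nat_lit 0, nat_lit 4796], [(nat_lit 0, nat_lit 0, nat_lit 0), (nat_lit 0, nat_lit 0, nat_lit 0), (nat_lit 802, nat_lit 1000, nat_lit 999)], (nat_lit 100, nat_lit 80, nat_lit 100)⟩
noncomputable def p097_k8 : C1.Kn := ⟨[nat_lit 40, nat_lit 100, nat_lit 140], [nat_lit 0, nat_lit 1790, nat_lit 4440], [(nat_lit 0, nat_lit 0, nat_lit 0), (nat_lit 1000, nat_lit 720, nat_lit 465), (nat_lit 969, nat_lit 697, nat_lit 1000)], (nat_lit 69, nat_lit 100, nat_lit 96)⟩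
noncomputable def p097_k9 : C1.Kn := ⟨[nat_lit 40, nat_lit 100, nat_lit 160], [nat_lit 0, nat_lit 0, nat_lit 4607], [(nat_lit 0, nat_lit 0, nat_lit 0), (nat_lit 0, nat_lit 0, nat_lit 0), (nat_lit 846, nat_lit 837, nat_lit 1000)], (nat_lit 87, nat_lit 95, nat_lit 100)⟩
noncomputable def p097_k10 : C1.Kn := ⟨[nat_lit 40, nat_lit 100, nat_lit 140], [nat_lit 0, nat_lit 0, nat_lit 3243], [(nat_lit 0, nat_lit 0, nat_lit 0), (nat_lit 0, nat_lit 0, nat_lit 0), (nat_lit 1000, nat_lit 870, nat_lit 941)], (nat_lit 85, nat_lit 100, nat_lit 88)⟩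
noncomputable def p097_k11 : C1.Kn := ⟨[nat_lit 60, nat_lit 120, nat_lit 160], [nat_lit 0, nat_lit 0, nat_lit 3243], [(nat_lit 0, nat_lit 0, nat_lit 0), (nat_lit 0, nat_lit 0, nat_lit 0), (nat_lit 878, nat_lit 1000, nat_lit 945)], (nat_lit 100, nat_lit 92, nat_lit 90)⟩
noncomputable def p097_k12 : C1.Kn := ⟨[nat_lit 60, nat_lit 120, nat_lit 160], [nat_lit 0, nat_lit 913, nat_lit 3885], [(nat_lit 0, nat_lit 0, nat_lit 0), (nat_lit 1000, nat_lit 905, nat_lit 238), (nat_lit 886, nat_lit 948, nat_lit 1000)], (nat_lit 94, nat_lit 88, nat_lit 100)⟩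
noncomputable def p097_k13 : C1.Kn := ⟨[nat_lit 40, nat_lit 80, nat_lit 160], [nat_lit 0, nat_lit 0, nat_lit 4265], [(nat_lit 0, nat_lit 0, nat_lit 0), (nat_lit 0, nat_lit 0, nat_lit 0), (nat_lit 1000, nat_lit 833, nat_lit 833)], (nat_lit 87, nat_lit 95, nat_lit 100)⟩
noncomputable def p097_k14 : C1.Kn := ⟨[nat_lit 60, nat_lit 100, nat_lit 180], [nat_lit 0, nat_lit 0, nat_lit 4090], [(nat_lit 0, nat_lit 0, nat_lit 0), (nat_lit 0, nat_lit 0, nat_lit 0), (nat_lit 1000, nat_lit 999, nat_lit 798)], (nat_lit 100, nat_lit 80, nat_lit 100)⟩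
noncomputable def p097_k15 : C1.Kn := ⟨[nat_lit 40, nat_lit 80, nat_lit 140], [nat_lit 0, nat_lit 795, nat_lit 3803], [(nat_lit 0, nat_lit 0, nat_lit 0), (nat_lit 1000, nat_lit 814, nat_lit 310), (nat_lit 1000, nat_lit 719, nat_lit 783)], (nat_lit 77, nat_lit 100, nat_lit 99)⟩
noncomputable def p097_k16 : C1.Kn := ⟨[nat_lit 40, nat_lit 80, nat_lit 160], [nat_lit 0, nat_lit 0, nat_lit 4265], [(nat_lit 0, nat_lit 0, nat_lit 0), (nat_lit 0, nat_lit 0, nat_lit 0), (nat_lit 1000, nat_lit 833, nat_lit 833)], (nat_lit 89, nat_lit 100, nat_lit 99)⟩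
noncomputable def p097_k17 : C1.Kn := ⟨[nat_lit 60, nat_lit 100, nat_lit 180], [nat_lit 0, nat_lit 0, nat_lit 4090], [(nat_lit 0, nat_lit 0, nat_lit 0), (nat_lit 0, nat_lit 0, nat_lit 0), (nat_lit 1000, nat_lit 999, nat_lit 798)], (nat_lit 100, nat_lit 85, nat_lit 97)⟩
noncomputable def p097_k18 : C1.Kn := ⟨[nat_lit 40, nat_lit 80, nat_lit 140], [nat_lit 0, nat_lit 0, nat_lit 3199], [(nat_lit 0, nat_lit 0, nat_lit 0), (nat_lit 0, nat_lit 0, nat_lit 0), (nat_lit 1000, nat_lit 833, nat_lit 833)], (nat_lit 87, nat_lit 100, nat_lit 94)⟩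
noncomputable def p097_k19 : C1.Kn := ⟨[nat_lit 60, nat_lit 100, nat_lit 160], [nat_lit 0, nat_lit 0, nat_lit 3069], [(nat_lit 0, nat_lit 0, nat_lit 0), (nat_lit 0, nat_lit 0, nat_lit 0), (nat_lit 1000, nat_lit 999, nat_lit 798)], (nat_lit 100, nat_lit 88, nat_lit 94)⟩
noncomputable def p097_k20 : C1.Kn := ⟨[nat_lit 40, nat_lit 80, nat_lit 140], [nat_lit 0, nat_lit 395, nat_lit 3500], [(nat_lit 0, nat_lit 0, nat_lit 0), (nat_lit 1000, nat_lit 908, nat_lit 154), (nat_lit 1000, nat_lit 776, nat_lit 808)], (nat_lit 79, nat_lit 100, nat_lit 86)⟩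
noncomputable def p097_k21 : C1.Kn := ⟨[nat_lit 60, nat_lit 100, nat_lit 160], [nat_lit 0, nat_lit 0, nat_lit 3069], [(nat_lit 0, nat_lit 0, nat_lit 0), (nat_lit 0, nat_lit 0, nat_lit 0), (nat_lit 1000, nat_lit 999, nat_lit 798)], (nat_lit 100, nat_lit 92, nat_lit 90)⟩
noncomputable def p097_k22 : C1.Kn := ⟨[nat_lit 40, nat_lit 100, nat_lit 120], [nat_lit 0, nat_lit 1192, nat_lit 2817], [(nat_lit 0, nat_lit 0, nat_lit 0), (nat_lit 1000, nat_lit 814, nat_lit 310), (nat_lit 1000, nat_lit 727, nat_lit 834)], (nat_lit 73, nat_lit 100, nat_lit 85)⟩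
noncomputable def p097_k23 : C1.Kn := ⟨[nat_lit 40, nat_lit 80, nat_lit 140], [nat_lit 0, nat_lit 795, nat_lit 3803], [(nat_lit 0, nat_lit 0, nat_lit 0), (nat_lit 1000, nat_lit 814, nat_lit 310), (nat_lit 1000, nat_lit 719, nat_lit 783)], (nat_lit 74, nat_lit 100, nat_lit 90)⟩
noncomputable def p097_k24 : C1.Kn := ⟨[nat_lit 40, nat_lit 80, nat_lit 120], [nat_lit 0, nat_lit 1195, nat_lit 3135], [(nat_lit 0, nat_lit 0, nat_lit 0), (nat_lit 1000, nat_lit 720, nat_lit 465), (nat_lit 1000, nat_lit 661, nat_lit 757)], (nat_lit 67, nat_lit 100, nat_lit 88)⟩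
noncomputable def p097_k25 : C1.Kn := ⟨[nat_lit 60, nat_lit 100, nat_lit 160], [nat_lit 0, nat_lit 609, nat_lit 3531], [(nat_lit 0, nat_lit 0, nat_lit 0), (nat_lit 1000, nat_lit 905, nat_lit 238), (nat_lit 1000, nat_lit 904, nat_lit 760)], (nat_lit 94, nat_lit 88, nat_lit 100)⟩
noncomputable def p097_k26 : C1.Kn := ⟨[nat_lit 60, nat_lit 100, nat_lit 160], [nat_lit 0, nat_lit 609, nat_lit 3531], [(nat_lit 0, nat_lit 0, nat_lit 0), (nat_lit 1000, nat_lit 905, nat_lit 238), (nat_lit 1000, nat_lit 904, nat_lit 760)], (nat_lit 100, nat_lit 100, nat_lit 100)⟩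
noncomputable def p097_k27 : C1.Kn := ⟨[nat_lit 40, nat_lit 80, nat_lit 140], [nat_lit 0, nat_lit 1195, nat_lit 4104], [(nat_lit 0, nat_lit 0, nat_lit 0), (nat_lit 1000, nat_lit 720, nat_lit 465), (nat_lit 1000, nat_lit 661, nat_lit 757)], (nat_lit 69, nat_lit 100, nat_lit 96)⟩
noncomputable def p097_k28 : C1.Kn := ⟨[nat_lit 40, nat_lit 100, nat_lit 140], [nat_lit 0, nat_lit 592, nat_lit 3606], [(nat_lit 0, nat_lit 0, nat_lit 0), (nat_lit 1000, nat_lit 908, nat_lit 154), (nat_lit 1000, nat_lit 825, nat_lit 971)], (nat_lit 81, nat_lit 100, nat_lit 92)⟩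
noncomputable def p097_k29 : C1.Kn := ⟨[nat_lit 40, nat_lit 100, nat_lit 160], [nat_lit 0, nat_lit 592, nat_lit 4992], [(nat_lit 0, nat_lit 0, nat_lit 0), (nat_lit 1000, nat_lit 908, nat_lit 154), (nat_lit 873, nat_lit 792, nat_lit 1000)], (nat_lit 83, nat_lit 98, nat_lit 100)⟩
noncomputable def p097_k30 : C1.Kn := ⟨[nat_lit 60, nat_lit 100, nat_lit 180], [nat_lit 0, nat_lit 302, nat_lit 4303], [(nat_lit 0, nat_lit 0, nat_lit 0), (nat_lit 1000, nat_lit 953, nat_lit 118), (nat_lit 1000, nat_lit 952, nat_lit 781)], (nat_lit 97, nat_lit 84, nat_lit 100)⟩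
noncomputable def p097_l0 : Lf2 := ⟨nat_lit 0, nat_lit 25, [nat_lit 44, nat_lit 5, nat_lit 5, nat_lit 20], false, nat_lit 0, nat_lit 160, nat_lit 0, nat_lit 320, ⟨nat_lit 1000, nat_lit 0, nat_lit 0, nat_lit 0, nat_lit 0, nat_lit 0, nat_lit 0, nat_lit 0, nat_lit 0, nat_lit 0, nat_lit 0, nat_lit 0, nat_lit 0, nat_lit 0, nat_lit 0, nat_lit 0, false, false⟩,
 nat_lit 0, nat_lit 11490, nat_lit 0, nat_lit 3617, nat_lit 8617, nat_lit 17392, nat_lit 739, nat_lit 0, nat_lit 0, nat_lit 0, nat_lit 0, nat_lit 0, nat_lit 0, nat_lit 0, nat_lit 0, nat_lit 0, nat_lit 0, nat_lit 0, [],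
 ⟨p097_k0, nat_lit 0, nat_lit 0, nat_lit 353, nat_lit 0, nat_lit 293514, [nat_lit 2032000001, nat_lit 6250000000, nat_lit 9842000000], [], [nat_lit 26943984539, nat_lit 28436153142, nat_lit 26330979975, nat_lit 27652669848, nat_lit 21513487123, nat_lit 22711901059, nat_lit 20867765031, nat_lit 21994458402], nat_lit 1271250, nat_lit 1271250, nat_lit 631250, nat_lit 1100001, nat_lit 0, nat_lit 1100001, [nat_lit 490000, nat_lit 1427500, nat_lit 1271250], [nat_lit 61, nat_lit 40, nat_lit 40, nat_lit 80, nat_lit 1, nat_lit 317, nat_lit 100, nat_lit 9]⟩, ⟨p097_k1, nat_lit 0, nat_lit 0, nat_lit 246, nat_lit 0, nat_lit 0, [nat_lit 3282000000, nat_lit 7968000000, nat_lit 11872000000], [], [nat_lit 40742151360, nat_lit 47082469040, nat_lit 38190015392, nat_lit 43903727936, nat_lit 32637801200, nat_lit 35772106208, nat_lit 29224299680, nat_lit 32031727936], nat_lit 0, nat_lit 0, nat_lit 0, nat_lit 0, nat_lit 0, nat_lit 0,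 [], [nat_lit 79, nat_lit 40, nat_lit 40, nat_lit 80, nat_lit 14, nat_lit 428, nat_lit 200, nat_lit 11]⟩,
 zbF0, [⟨nat_lit 0, nat_lit 92, nat_lit 81, nat_lit 100, nat_lit 1186025258⟩, ⟨nat_lit 3, nat_lit 100, nat_lit 91, nat_lit 15, nat_lit 25517609⟩]⟩
noncomputable def p097_l1 : Lf2 := ⟨nat_lit 0, nat_lit 25, [nat_lit 44, nat_lit 5, nat_lit 5, nat_lit 20], false, nat_lit 0, nat_lit 160, nat_lit 0, nat_lit 320, ⟨nat_lit 1000, nat_lit 0, nat_lit 0, nat_lit 0, nat_lit 0, nat_lit 0, nat_lit 0, nat_lit 0, nat_lit 0, nat_lit 0, nat_lit 0, nat_lit 0, nat_lit 0, nat_lit 0, nat_lit 0, nat_lit 0, false, false⟩,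
 nat_lit 0, nat_lit 8463, nat_lit 0, nat_lit 398, nat_lit 6851, nat_lit 18325, nat_lit 660, nat_lit 0, nat_lit 0, nat_lit 0, nat_lit 0, nat_lit 0, nat_lit 0, nat_lit 0, nat_lit 0, nat_lit 0, nat_lit 0, nat_lit 0, [],
 ⟨p097_k2, nat_lit 0, nat_lit 0, nat_lit 429, nat_lit 0, nat_lit 419866, [nat_lit 2032000001, nat_lit 6250000000, nat_lit 9842000000], [], [nat_lit 25877649711, nat_lit 27893103409, nat_lit 25919488858, nat_lit 27823471740, nat_lit 21175422414, nat_lit 22415142111, nat_lit 21231809526, nat_lit 22400757076], nat_lit 1271250, nat_lit 1271250, nat_lit 810650, nat_lit 1100001, nat_lit 0, nat_lit 1100001, [nat_lit 490000, nat_lit 1427500, nat_lit 1271250], [nat_lit 61, nat_lit 40, nat_lit 40, nat_lit 80, nat_lit 1, nat_lit 317, nat_lit 100, nat_lit 9]⟩, ⟨p097_k1, nat_lit 0, nat_lit 0, nat_lit 233, nat_lit 0, nat_lit 0, [nat_lit 3282000000, nat_lit 7968000000, nat_lit 11872000000], [], [nat_lit 39547731230,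 nat_lit 45920255120, nat_lit 38534176700, nat_lit 44484901100, nat_lit 30462965751, nat_lit 34048255120, nat_lit 28711653500, nat_lit 32612901100], nat_lit 0, nat_lit 0, nat_lit 0, nat_lit 0, nat_lit 0, nat_lit 0, [], [nat_lit 79, nat_lit 40, nat_lit 40, nat_lit 80, nat_lit 14, nat_lit 428, nat_lit 200, nat_lit 11]⟩,
 zbF0, [⟨nat_lit 0, nat_lit 88, nat_lit 67, nat_lit 100, nat_lit 1293188314⟩]⟩
noncomputable def p097_l2 : Lf2 := ⟨nat_lit 0, nat_lit 27, [nat_lit 147, nat_lit 5, nat_lit 5, nat_lit 20], false, nat_lit 0, nat_lit 160, nat_lit 0, nat_lit 336, ⟨nat_lit 1000, nat_lit 0, nat_lit 0, nat_lit 0, nat_lit 0, nat_lit 0, nat_lit 0, nat_lit 0, nat_lit 0, nat_lit 0, nat_lit 0, nat_lit 0, nat_lit 0, nat_lit 0, nat_lit 0, nat_lit 0, false, false⟩,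
 nat_lit 0, nat_lit 10345, nat_lit 0, nat_lit 28552, nat_lit 7758, nat_lit 10335, nat_lit 796, nat_lit 0, nat_lit 0, nat_lit 820, nat_lit 0, nat_lit 0, nat_lit 0, nat_lit 0, nat_lit 0, nat_lit 0, nat_lit 0, nat_lit 0, [],
 ⟨p097_k3, nat_lit 0, nat_lit 0, nat_lit 326, nat_lit 0, nat_lit 38340, [nat_lit 2032000001, nat_lit 6250000000, nat_lit 11872000000], [], [nat_lit 27440262456, nat_lit 29131349740, nat_lit 26841527460, nat_lit 28277695632, nat_lit 21926642248, nat_lit 23689021954, nat_lit 21950137584, nat_lit 23556888348], nat_lit 1271250, nat_lit 1271250, nat_lit 631250, nat_lit 1100001, nat_lit 0, nat_lit 1100001, [nat_lit 490000, nat_lit 1427500, nat_lit 1271250], [nat_lit 72, nat_lit 40, nat_lit 40, nat_lit 80, nat_lit 12, nat_lit 317, nat_lit 100, nat_lit 8]⟩, ⟨p097_k4, nat_lit 0, nat_lit 0, nat_lit 368, nat_lit 0, nat_lit 0, [nat_lit 3282000000, nat_lit 7968000000, nat_lit 14058000000], [], [nat_lit 31978623620,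 nat_lit 33800491010, nat_lit 30518709400, nat_lit 32177758570, nat_lit 28777628235, nat_lit 29681454137, nat_lit 26840333656, nat_lit 27652983103], nat_lit 0, nat_lit 0, nat_lit 0, nat_lit 0, nat_lit 0, nat_lit 0, [], [nat_lit 84, nat_lit 40, nat_lit 40, nat_lit 80, nat_lit 28, nat_lit 428, nat_lit 200, nat_lit 10]⟩,
 zbF0, [⟨nat_lit 0, nat_lit 90, nat_lit 74, nat_lit 100, nat_lit 1141787054⟩, ⟨nat_lit 3, nat_lit 100, nat_lit 85, nat_lit 27, nat_lit 1230817⟩, ⟨nat_lit 19, nat_lit 100, nat_lit 90, nat_lit 100, nat_lit 122064042⟩]⟩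
noncomputable def p097_l3 : Lf2 := ⟨nat_lit 0, nat_lit 27, [nat_lit 147, nat_lit 5, nat_lit 5, nat_lit 20], false, nat_lit 0, nat_lit 160, nat_lit 0, nat_lit 320, ⟨nat_lit 1000, nat_lit 0, nat_lit 0, nat_lit 0, nat_lit 0, nat_lit 0, nat_lit 0, nat_lit 0, nat_lit 0, nat_lit 0, nat_lit 0, nat_lit 0, nat_lit 0, nat_lit 0, nat_lit 0, nat_lit 0, false, false⟩,
 nat_lit 0, nat_lit 10345, nat_lit 0, nat_lit 7660, nat_lit 7758, nat_lit 17367, nat_lit 796, nat_lit 0, nat_lit 0, nat_lit 0, nat_lit 0, nat_lit 0, nat_lit 0, nat_lit 0, nat_lit 0, nat_lit 0, nat_lit 0, nat_lit 0, [],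
 ⟨p097_k3, nat_lit 0, nat_lit 0, nat_lit 357, nat_lit 0, nat_lit 167688, [nat_lit 2032000001, nat_lit 6250000000, nat_lit 11872000000], [], [nat_lit 27002628492, nat_lit 28543771676, nat_lit 26841527460, nat_lit 28277695632, nat_lit 21714423960, nat_lit 23428741560, nat_lit 21950137584, nat_lit 23556888348], nat_lit 1271250, nat_lit 1271250, nat_lit 780000, nat_lit 1100001, nat_lit 0, nat_lit 1100001, [nat_lit 490000, nat_lit 1427500, nat_lit 1271250], [nat_lit 72, nat_lit 40, nat_lit 40, nat_lit 80, nat_lit 12, nat_lit 317, nat_lit 100, nat_lit 8]⟩, ⟨p097_k5, nat_lit 0, nat_lit 0, nat_lit 235, nat_lit 0, nat_lit 0, [nat_lit 3282000000, nat_lit 7968000000, nat_lit 11872000000], [], [nat_lit 42275506934, nat_lit 45352298844, nat_lit 41034474364, nat_lit 43888155236, nat_lit 32555501472, nat_lit 34070246944, nat_lit 30627202354, nat_lit 32016368528], nat_lit 0, nat_lit 0, nat_lit 0, nat_lit 0, nat_lit 0, nat_lit 0,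 [], [nat_lit 79, nat_lit 40, nat_lit 40, nat_lit 80, nat_lit 14, nat_lit 428, nat_lit 200, nat_lit 11]⟩,
 zbF0, [⟨nat_lit 0, nat_lit 87, nat_lit 79, nat_lit 100, nat_lit 1150660750⟩, ⟨nat_lit 3, nat_lit 100, nat_lit 85, nat_lit 27, nat_lit 1230817⟩]⟩
noncomputable def p097_l4 : Lf2 := ⟨nat_lit 1, nat_lit 30, [nat_lit 15, nat_lit 5, nat_lit 5, nat_lit 20], false, nat_lit 0, nat_lit 160, nat_lit 0, nat_lit 336, zbN0,
 nat_lit 0, nat_lit 0, nat_lit 0, nat_lit 0, nat_lit 0, nat_lit 0, nat_lit 0, nat_lit 0, nat_lit 0, nat_lit 0, nat_lit 0, nat_lit 0, nat_lit 0, nat_lit 0, nat_lit 0, nat_lit 0, nat_lit 0, nat_lit 0, [],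
 C1.Rw.none, C1.Rw.none,
 zbF0, []⟩
noncomputable def p097_l5 : Lf2 := ⟨nat_lit 0, nat_lit 30, [nat_lit 15, nat_lit 5, nat_lit 5, nat_lit 20], false, nat_lit 4, nat_lit 160, nat_lit 0, nat_lit 336, ⟨nat_lit 1000, nat_lit 0, nat_lit 0, nat_lit 0, nat_lit 0, nat_lit 0, nat_lit 0, nat_lit 0, nat_lit 0, nat_lit 0, nat_lit 0, nat_lit 0, nat_lit 0, nat_lit 0, nat_lit 0, nat_lit 0, false, false⟩,
 nat_lit 0, nat_lit 8127, nat_lit 0, nat_lit 18419, nat_lit 6579, nat_lit 9887, nat_lit 732, nat_lit 0, nat_lit 0, nat_lit 782, nat_lit 0, nat_lit 0, nat_lit 0, nat_lit 0, nat_lit 0, nat_lit 0, nat_lit 0, nat_lit 0, [],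
 ⟨p097_k6, nat_lit 0, nat_lit 0, nat_lit 322, nat_lit 0, nat_lit 230451, [nat_lit 2032000001, nat_lit 6250000000, nat_lit 9842000000], [], [nat_lit 24574090111, nat_lit 25553271308, nat_lit 24651255378, nat_lit 25576660060, nat_lit 20114853633, nat_lit 20802415799, nat_lit 20247964374, nat_lit 20974906365], nat_lit 1271250, nat_lit 1271250, nat_lit 810650, nat_lit 1100001, nat_lit 21650, nat_lit 1100001, [nat_lit 490000, nat_lit 1427500, nat_lit 1271250], [nat_lit 61, nat_lit 40, nat_lit 40, nat_lit 80, nat_lit 1, nat_lit 317, nat_lit 100, nat_lit 9]⟩, ⟨p097_k7, nat_lit 0, nat_lit 0, nat_lit 276, nat_lit 0, nat_lit 0, [nat_lit 3282000000, nat_lit 7968000000, nat_lit 14058000000], [], [nat_lit 31224172197, nat_lit 34654176823, nat_lit 30765118880, nat_lit 33992629828, nat_lit 28401830221, nat_lit 30112213670, nat_lit 27555318164, nat_lit 29153698938], nat_lit 0, nat_lit 0, nat_lit 0, nat_lit 0, nat_lit 0, nat_lit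 0, [], [nat_lit 84, nat_lit 40, nat_lit 40, nat_lit 80, nat_lit 28, nat_lit 456, nat_lit 225, nat_lit 11]⟩,
 zbF0, [⟨nat_lit 0, nat_lit 89, nat_lit 71, nat_lit 100, nat_lit 1001047610⟩, ⟨nat_lit 19, nat_lit 97, nat_lit 94, nat_lit 100, nat_lit 120994861⟩]⟩
noncomputable def p097_l6 : Lf2 := ⟨nat_lit 0, nat_lit 30, [nat_lit 15, nat_lit 5, nat_lit 5, nat_lit 20], false, nat_lit 8, nat_lit 160, nat_lit 0, nat_lit 336, ⟨nat_lit 1000, nat_lit 0, nat_lit 0, nat_lit 0, nat_lit 0, nat_lit 0, nat_lit 0, nat_lit 0, nat_lit 0, nat_lit 0, nat_lit 0, nat_lit 0, nat_lit 0, nat_lit 0, nat_lit 0, nat_lit 0, false, false⟩,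
 nat_lit 0, nat_lit 6356, nat_lit 0, nat_lit 25230, nat_lit 5339, nat_lit 9887, nat_lit 777, nat_lit 0, nat_lit 0, nat_lit 841, nat_lit 0, nat_lit 0, nat_lit 0, nat_lit 0, nat_lit 0, nat_lit 0, nat_lit 0, nat_lit 0, [],
 ⟨p097_k8, nat_lit 0, nat_lit 0, nat_lit 340, nat_lit 0, nat_lit 293802, [nat_lit 2032000001, nat_lit 6250000000, nat_lit 9842000000], [], [nat_lit 23055535453, nat_lit 24356136483, nat_lit 23260453519, nat_lit 24512081100, nat_lit 19778250720, nat_lit 20497597449, nat_lit 19910659465, nat_lit 20606736568], nat_lit 1271250, nat_lit 1271250, nat_lit 904401, nat_lit 1100001, nat_lit 43600, nat_lit 1100001, [nat_lit 490000, nat_lit 1427500, nat_lit 1271250], [nat_lit 61, nat_lit 40, nat_lit 40, nat_lit 80, nat_lit 1, nat_lit 317, nat_lit 100, nat_lit 9]⟩, ⟨p097_k7, nat_lit 0, nat_lit 0, nat_lit 272, nat_lit 0, nat_lit 0, [nat_lit 3282000000, nat_lit 7968000000, nat_lit 14058000000], [], [nat_lit 30186891924,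 nat_lit 33549398658, nat_lit 29880856380, nat_lit 33108367328, nat_lit 27235397035, nat_lit 29534065916, nat_lit 26676156720, nat_lit 29153698938], nat_lit 0, nat_lit 0, nat_lit 0, nat_lit 0, nat_lit 0, nat_lit 0, [], [nat_lit 84, nat_lit 40, nat_lit 40, nat_lit 80, nat_lit 28, nat_lit 456, nat_lit 225, nat_lit 10]⟩,
 zbF0, [⟨nat_lit 0, nat_lit 88, nat_lit 64, nat_lit 100, nat_lit 1649600228⟩, ⟨nat_lit 7, nat_lit 94, nat_lit 97, nat_lit 100, nat_lit 134501861⟩]⟩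
noncomputable def p097_l7 : Lf2 := ⟨nat_lit 0, nat_lit 30, [nat_lit 15, nat_lit 5, nat_lit 5, nat_lit 20], false, nat_lit 0, nat_lit 160, nat_lit 0, nat_lit 160, ⟨nat_lit 1000, nat_lit 0, nat_lit 0, nat_lit 0, nat_lit 0, nat_lit 0, nat_lit 0, nat_lit 0, nat_lit 0, nat_lit 0, nat_lit 0, nat_lit 0, nat_lit 0, nat_lit 0, nat_lit 0, nat_lit 0, false, false⟩,
 nat_lit 0, nat_lit 10001, nat_lit 0, nat_lit 0, nat_lit 7500, nat_lit 5949, nat_lit 616, nat_lit 0, nat_lit 0, nat_lit 819, nat_lit 0, nat_lit 0, nat_lit 0, nat_lit 0, nat_lit 0, nat_lit 0, nat_lit 0, nat_lit 0, [],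
 ⟨p097_k9, nat_lit 0, nat_lit 0, nat_lit 500, nat_lit 0, nat_lit 483604, [nat_lit 2032000001, nat_lit 6250000000, nat_lit 11872000000], [], [nat_lit 30967093000, nat_lit 33153501000, nat_lit 31869679000, nat_lit 33741342000, nat_lit 26218297000, nat_lit 28041839000, nat_lit 26982768000, nat_lit 29054018000], nat_lit 1271250, nat_lit 1271250, nat_lit 1100001, nat_lit 1785000, nat_lit 0, nat_lit 1100001, [nat_lit 490000, nat_lit 1427500, nat_lit 1271250], [nat_lit 72, nat_lit 40, nat_lit 40, nat_lit 80, nat_lit 12, nat_lit 317, nat_lit 100, nat_lit 8]⟩, ⟨p097_k7, nat_lit 0, nat_lit 0, nat_lit 263, nat_lit 0, nat_lit 0, [nat_lit 3282000000, nat_lit 7968000000, nat_lit 14058000000], [], [nat_lit 27370338260, nat_lit 29801569856, nat_lit 29127537560, nat_lit 31194616908, nat_lit 23032065724, nat_lit 25114150504, nat_lit 24583969284, nat_lit 26513528244], nat_lit 0, nat_lit 0, nat_lit 0, nat_lit 0, nat_lit 0, nat_lit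 0, [], [nat_lit 84, nat_lit 40, nat_lit 40, nat_lit 80, nat_lit 28, nat_lit 428, nat_lit 200, nat_lit 10]⟩,
 zbF0, [⟨nat_lit 0, nat_lit 80, nat_lit 60, nat_lit 100, nat_lit 690549898⟩]⟩
noncomputable def p097_l8 : Lf2 := ⟨nat_lit 0, nat_lit 30, [nat_lit 15, nat_lit 5, nat_lit 5, nat_lit 20], false, nat_lit 0, nat_lit 160, nat_lit 160, nat_lit 336, ⟨nat_lit 1000, nat_lit 0, nat_lit 0, nat_lit 0, nat_lit 0, nat_lit 0, nat_lit 0, nat_lit 0, nat_lit 0, nat_lit 0, nat_lit 0, nat_lit 0, nat_lit 0, nat_lit 0, nat_lit 0, nat_lit 0, false, false⟩,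
 nat_lit 0, nat_lit 10372, nat_lit 0, nat_lit 0, nat_lit 7779, nat_lit 5047, nat_lit 665, nat_lit 0, nat_lit 0, nat_lit 0, nat_lit 0, nat_lit 0, nat_lit 0, nat_lit 0, nat_lit 0, nat_lit 0, nat_lit 0, nat_lit 0, [],
 ⟨p097_k9, nat_lit 0, nat_lit 0, nat_lit 500, nat_lit 0, nat_lit 483604, [nat_lit 2032000001, nat_lit 6250000000, nat_lit 11872000000], [], [nat_lit 29777585589, nat_lit 32006414981, nat_lit 30697371852, nat_lit 33241781340, nat_lit 24807321288, nat_lit 27279960420, nat_lit 26174438040, nat_lit 28285414292], nat_lit 1271250, nat_lit 1271250, nat_lit 1100001, nat_lit 1785000, nat_lit 0, nat_lit 1100001, [nat_lit 490000, nat_lit 1427500, nat_lit 1271250], [nat_lit 72, nat_lit 40, nat_lit 40, nat_lit 80, nat_lit 12, nat_lit 317, nat_lit 100, nat_lit 8]⟩, ⟨p097_k7, nat_lit 0, nat_lit 0, nat_lit 71, nat_lit 0, nat_lit 0, [nat_lit 3282000000, nat_lit 7968000000, nat_lit 14058000000], [], [nat_lit 13482175236,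 nat_lit 16894232096, nat_lit 16955787088, nat_lit 19850764720, nat_lit 23075119352, nat_lit 25520776335, nat_lit 25134078840, nat_lit 27226986708], nat_lit 0, nat_lit 0, nat_lit 0, nat_lit 0, nat_lit 0, nat_lit 0, [], [nat_lit 84, nat_lit 40, nat_lit 40, nat_lit 80, nat_lit 28, nat_lit 456, nat_lit 225, nat_lit 10]⟩,
 zbF0, [⟨nat_lit 0, nat_lit 80, nat_lit 60, nat_lit 100, nat_lit 458258693⟩, ⟨nat_lit 7, nat_lit 100, nat_lit 100, nat_lit 100, nat_lit 461110737⟩, ⟨nat_lit 22, nat_lit 100, nat_lit 97, nat_lit 24, nat_lit 1375015⟩]⟩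
noncomputable def p097_l9 : Lf2 := ⟨nat_lit 0, nat_lit 25, [nat_lit 44, nat_lit 5, nat_lit 5, nat_lit 20], false, nat_lit 160, nat_lit 280, nat_lit 0, nat_lit 160, ⟨nat_lit 1000, nat_lit 0, nat_lit 0, nat_lit 0, nat_lit 0, nat_lit 0, nat_lit 0, nat_lit 0, nat_lit 0, nat_lit 0, nat_lit 0, nat_lit 0, nat_lit 0, nat_lit 0, nat_lit 0, nat_lit 0, false, false⟩,
 nat_lit 0, nat_lit 11061, nat_lit 0, nat_lit 10270, nat_lit 8295, nat_lit 6535, nat_lit 621, nat_lit 0, nat_lit 0, nat_lit 876, nat_lit 0, nat_lit 0, nat_lit 0, nat_lit 0, nat_lit 0, nat_lit 0, nat_lit 0, nat_lit 0, [],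
 ⟨p097_k0, nat_lit 0, nat_lit 0, nat_lit 166, nat_lit 0, nat_lit 150498, [nat_lit 2032000001, nat_lit 6250000000, nat_lit 9842000000], [], [nat_lit 20403334555, nat_lit 22383415520, nat_lit 20057643145, nat_lit 21863271095, nat_lit 24787092150, nat_lit 26299918470, nat_lit 23966316185, nat_lit 25379108910], nat_lit 1271250, nat_lit 1271250, nat_lit 631250, nat_lit 1100001, nat_lit 1100001, nat_lit 2127500, [nat_lit 490000, nat_lit 1427500, nat_lit 1271250], [nat_lit 61, nat_lit 40, nat_lit 40, nat_lit 80, nat_lit 1, nat_lit 345, nat_lit 125, nat_lit 9]⟩, ⟨p097_k1, nat_lit 0, nat_lit 0, nat_lit 235, nat_lit 0, nat_lit 0, [nat_lit 3282000000, nat_lit 7968000000, nat_lit 11872000000], [], [nat_lit 25411798050, nat_lit 27025117375, nat_lit 25307416160, nat_lit 26785259720, nat_lit 20843549890, nat_lit 22211231320, nat_lit 20847742960, nat_lit 22102055290], nat_lit 0, nat_lit 0, nat_lit 0, nat_lit 0, nat_lit 0, nat_lit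 0, [], [nat_lit 79, nat_lit 40, nat_lit 40, nat_lit 80, nat_lit 14, nat_lit 401, nat_lit 175, nat_lit 10]⟩,
 zbF0, [⟨nat_lit 0, nat_lit 97, nat_lit 82, nat_lit 100, nat_lit 774874087⟩, ⟨nat_lit 16, nat_lit 79, nat_lit 100, nat_lit 87, nat_lit 525723184⟩]⟩
noncomputable def p097_l10 : Lf2 := ⟨nat_lit 0, nat_lit 25, [nat_lit 44, nat_lit 5, nat_lit 5, nat_lit 20], false, nat_lit 160, nat_lit 280, nat_lit 160, nat_lit 320, ⟨nat_lit 1000, nat_lit 0, nat_lit 0, nat_lit 0, nat_lit 0, nat_lit 0, nat_lit 0, nat_lit 0, nat_lit 0, nat_lit 0, nat_lit 0, nat_lit 0, nat_lit 0, nat_lit 0, nat_lit 0, nat_lit 0, false, false⟩,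
 nat_lit 0, nat_lit 13009, nat_lit 0, nat_lit 13574, nat_lit 9756, nat_lit 5121, nat_lit 455, nat_lit 0, nat_lit 0, nat_lit 0, nat_lit 0, nat_lit 0, nat_lit 0, nat_lit 0, nat_lit 0, nat_lit 0, nat_lit 0, nat_lit 0, [],
 ⟨p097_k0, nat_lit 0, nat_lit 0, nat_lit 166, nat_lit 0, nat_lit 150498, [nat_lit 2032000001, nat_lit 6250000000, nat_lit 9842000000], [], [nat_lit 21260108599, nat_lit 23472528011, nat_lit 20623973311, nat_lit 22636201271, nat_lit 25867312995, nat_lit 27542304471, nat_lit 24691182383, nat_lit 26217281688], nat_lit 1271250, nat_lit 1271250, nat_lit 631250, nat_lit 1100001, nat_lit 1100001, nat_lit 2127500, [nat_lit 490000, nat_lit 1427500, nat_lit 1271250], [nat_lit 61, nat_lit 40, nat_lit 40, nat_lit 80, nat_lit 1, nat_lit 345, nat_lit 125, nat_lit 9]⟩, ⟨p097_k1, nat_lit 0, nat_lit 0, nat_lit 75, nat_lit 0, nat_lit 0, [nat_lit 3282000000, nat_lit 7968000000, nat_lit 11872000000], [], [nat_lit 12254162334,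 nat_lit 14139713169, nat_lit 13380897948, nat_lit 15101333438, nat_lit 21577127930, nat_lit 22987686725, nat_lit 21846630700, nat_lit 23089780932], nat_lit 0, nat_lit 0, nat_lit 0, nat_lit 0, nat_lit 0, nat_lit 0, [], [nat_lit 79, nat_lit 40, nat_lit 40, nat_lit 80, nat_lit 14, nat_lit 428, nat_lit 200, nat_lit 11]⟩,
 zbF0, [⟨nat_lit 0, nat_lit 97, nat_lit 82, nat_lit 100, nat_lit 781751810⟩, ⟨nat_lit 4, nat_lit 100, nat_lit 79, nat_lit 87, nat_lit 529468174⟩, ⟨nat_lit 7, nat_lit 97, nat_lit 100, nat_lit 94, nat_lit 504453292⟩]⟩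
noncomputable def p097_l11 : Lf2 := ⟨nat_lit 0, nat_lit 22, [nat_lit 146, nat_lit 5, nat_lit 5, nat_lit 20], false, nat_lit 160, nat_lit 300, nat_lit 0, nat_lit 336, ⟨nat_lit 1000, nat_lit 0, nat_lit 0, nat_lit 0, nat_lit 0, nat_lit 0, nat_lit 0, nat_lit 0, nat_lit 0, nat_lit 0, nat_lit 0, nat_lit 0, nat_lit 0, nat_lit 0, nat_lit 0, nat_lit 0, false, false⟩,
 nat_lit 0, nat_lit 10678, nat_lit 0, nat_lit 29930, nat_lit 8008, nat_lit 17474, nat_lit 0, nat_lit 0, nat_lit 0, nat_lit 0, nat_lit 0, nat_lit 0, nat_lit 0, nat_lit 0, nat_lit 0, nat_lit 0, nat_lit 0, nat_lit 0, [],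
 ⟨p097_k10, nat_lit 0, nat_lit 0, nat_lit 102, nat_lit 0, nat_lit 32831, [nat_lit 2032000001, nat_lit 6250000000, nat_lit 9842000000], [], [nat_lit 18569598704, nat_lit 20919059184, nat_lit 18737782272, nat_lit 20875884128, nat_lit 25624173356, nat_lit 27426749662, nat_lit 25087989232, nat_lit 26634315284], nat_lit 1271250, nat_lit 1271250, nat_lit 631250, nat_lit 1100001, nat_lit 1100001, nat_lit 2298750, [nat_lit 490000, nat_lit 1427500, nat_lit 1271250], [nat_lit 61, nat_lit 40, nat_lit 40, nat_lit 80, nat_lit 1, nat_lit 345, nat_lit 125, nat_lit 9]⟩, ⟨p097_k11, nat_lit 0, nat_lit 0, nat_lit 235, nat_lit 0, nat_lit 0, [nat_lit 3282000000, nat_lit 7968000000, nat_lit 11872000000], [], [nat_lit 40790886420, nat_lit 43972803650, nat_lit 38220263224, nat_lit 41087534808, nat_lit 34501050697, nat_lit 35956982223, nat_lit 30884324644, nat_lit 32173075968], nat_lit 0, nat_lit 0, nat_lit 0, nat_lit 0, nat_lit 0, nat_lit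 0, [], [nat_lit 79, nat_lit 40, nat_lit 40, nat_lit 80, nat_lit 14, nat_lit 428, nat_lit 200, nat_lit 11]⟩,
 zbF0, [⟨nat_lit 0, nat_lit 90, nat_lit 74, nat_lit 100, nat_lit 1353101905⟩, ⟨nat_lit 4, nat_lit 100, nat_lit 82, nat_lit 97, nat_lit 534683744⟩, ⟨nat_lit 7, nat_lit 90, nat_lit 100, nat_lit 100, nat_lit 56742611⟩]⟩
noncomputable def p097_l12 : Lf2 := ⟨nat_lit 1, nat_lit 27, [nat_lit 147, nat_lit 5, nat_lit 5, nat_lit 20], false, nat_lit 160, nat_lit 300, nat_lit 0, nat_lit 336, zbN0,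
 nat_lit 0, nat_lit 0, nat_lit 0, nat_lit 0, nat_lit 0, nat_lit 0, nat_lit 0, nat_lit 0, nat_lit 0, nat_lit 0, nat_lit 0, nat_lit 0, nat_lit 0, nat_lit 0, nat_lit 0, nat_lit 0, nat_lit 0, nat_lit 0, [],
 C1.Rw.none, C1.Rw.none,
 zbF0, []⟩
noncomputable def p097_l13 : Lf2 := ⟨nat_lit 0, nat_lit 25, [nat_lit 44, nat_lit 5, nat_lit 5, nat_lit 20], false, nat_lit 160, nat_lit 280, nat_lit 0, nat_lit 320, ⟨nat_lit 1000, nat_lit 0, nat_lit 0, nat_lit 0, nat_lit 0, nat_lit 0, nat_lit 0, nat_lit 0, nat_lit 0, nat_lit 0, nat_lit 0, nat_lit 0, nat_lit 0, nat_lit 0, nat_lit 0, nat_lit 0, false, false⟩,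
 nat_lit 0, nat_lit 10391, nat_lit 0, nat_lit 0, nat_lit 7793, nat_lit 18839, nat_lit 617, nat_lit 0, nat_lit 0, nat_lit 0, nat_lit 0, nat_lit 0, nat_lit 0, nat_lit 0, nat_lit 0, nat_lit 0, nat_lit 0, nat_lit 0, [],
 ⟨p097_k0, nat_lit 0, nat_lit 0, nat_lit 144, nat_lit 0, nat_lit 150498, [nat_lit 2032000001, nat_lit 6250000000, nat_lit 9842000000], [], [nat_lit 20481630333, nat_lit 22216270463, nat_lit 22456003853, nat_lit 23930026683, nat_lit 24335830349, nat_lit 25672462983, nat_lit 25783323310, nat_lit 27149130200], nat_lit 1271250, nat_lit 1271250, nat_lit 1100001, nat_lit 1785000, nat_lit 1100001, nat_lit 2127500, [nat_lit 490000, nat_lit 1427500, nat_lit 1271250], [nat_lit 61, nat_lit 40, nat_lit 40, nat_lit 80, nat_lit 1, nat_lit 373, nat_lit 150, nat_lit 10]⟩, ⟨p097_k1, nat_lit 0, nat_lit 0, nat_lit 211, nat_lit 0, nat_lit 0, [nat_lit 3282000000, nat_lit 7968000000, nat_lit 11872000000], [], [nat_lit 38723778964,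 nat_lit 41764427388, nat_lit 41355910192, nat_lit 43815218912, nat_lit 28429231060, nat_lit 29892471218, nat_lit 29483910192, nat_lit 31943218912], nat_lit 0, nat_lit 0, nat_lit 0, nat_lit 0, nat_lit 0, nat_lit 0, [], [nat_lit 79, nat_lit 40, nat_lit 40, nat_lit 80, nat_lit 14, nat_lit 456, nat_lit 225, nat_lit 12]⟩,
 zbF0, [⟨nat_lit 16, nat_lit 79, nat_lit 100, nat_lit 87, nat_lit 521726459⟩]⟩
noncomputable def p097_l14 : Lf2 := ⟨nat_lit 0, nat_lit 27, [nat_lit 147, nat_lit 5, nat_lit 5, nat_lit 20], false, nat_lit 160, nat_lit 300, nat_lit 0, nat_lit 336, ⟨nat_lit 1000, nat_lit 0, nat_lit 0, nat_lit 0, nat_lit 0, nat_lit 0, nat_lit 0, nat_lit 0, nat_lit 0, nat_lit 0, nat_lit 0, nat_lit 0, nat_lit 0, nat_lit 0, nat_lit 0, nat_lit 0, false, false⟩,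
 nat_lit 0, nat_lit 4994, nat_lit 0, nat_lit 28595, nat_lit 3745, nat_lit 10335, nat_lit 0, nat_lit 0, nat_lit 0, nat_lit 820, nat_lit 0, nat_lit 0, nat_lit 0, nat_lit 0, nat_lit 0, nat_lit 0, nat_lit 0, nat_lit 0, [],
 ⟨p097_k3, nat_lit 0, nat_lit 0, nat_lit 72, nat_lit 0, nat_lit 38340, [nat_lit 2032000001, nat_lit 6250000000, nat_lit 11872000000], [], [nat_lit 16622643341, nat_lit 18249298421, nat_lit 19504030941, nat_lit 20907535641, nat_lit 22538368581, nat_lit 23763390681, nat_lit 24559149411, nat_lit 25642326443], nat_lit 1271250, nat_lit 1271250, nat_lit 1100001, nat_lit 1785000, nat_lit 1100001, nat_lit 2298750, [nat_lit 490000, nat_lit 1427500, nat_lit 1271250], [nat_lit 72, nat_lit 40, nat_lit 40, nat_lit 80, nat_lit 12, nat_lit 373, nat_lit 150, nat_lit 9]⟩, ⟨p097_k4, nat_lit 0, nat_lit 0, nat_lit 257, nat_lit 0, nat_lit 0, [nat_lit 3282000000, nat_lit 7968000000, nat_lit 14058000000], [], [nat_lit 30518709400,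 nat_lit 32177758570, nat_lit 32099152900, nat_lit 33470528610, nat_lit 26840333656, nat_lit 27652983103, nat_lit 27872277157, nat_lit 29394238626], nat_lit 0, nat_lit 0, nat_lit 0, nat_lit 0, nat_lit 0, nat_lit 0, [], [nat_lit 84, nat_lit 40, nat_lit 40, nat_lit 80, nat_lit 28, nat_lit 456, nat_lit 225, nat_lit 10]⟩,
 zbF0, [⟨nat_lit 16, nat_lit 82, nat_lit 100, nat_lit 97, nat_lit 523718131⟩, ⟨nat_lit 7, nat_lit 90, nat_lit 100, nat_lit 100, nat_lit 122064042⟩]⟩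
noncomputable def p097_l15 : Lf2 := ⟨nat_lit 1, nat_lit 30, [nat_lit 15, nat_lit 5, nat_lit 5, nat_lit 20], false, nat_lit 160, nat_lit 300, nat_lit 0, nat_lit 336, zbN0,
 nat_lit 0, nat_lit 0, nat_lit 0, nat_lit 0, nat_lit 0, nat_lit 0, nat_lit 0, nat_lit 0, nat_lit 0, nat_lit 0, nat_lit 0, nat_lit 0, nat_lit 0, nat_lit 0, nat_lit 0, nat_lit 0, nat_lit 0, nat_lit 0, [],
 C1.Rw.none, C1.Rw.none,
 zbF0, []⟩
noncomputable def p097_l16 : Lf2 := ⟨nat_lit 0, nat_lit 30, [nat_lit 15, nat_lit 5, nat_lit 5, nat_lit 20], false, nat_lit 160, nat_lit 276, nat_lit 0, nat_lit 160, ⟨nat_lit 1000, nat_lit 0, nat_lit 0, nat_lit 0, nat_lit 0, nat_lit 0, nat_lit 0, nat_lit 0, nat_lit 0, nat_lit 0, nat_lit 0, nat_lit 0, nat_lit 0, nat_lit 0, nat_lit 0, nat_lit 0, false, false⟩,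
 nat_lit 0, nat_lit 7998, nat_lit 0, nat_lit 11136, nat_lit 6474, nat_lit 6049, nat_lit 581, nat_lit 0, nat_lit 0, nat_lit 927, nat_lit 0, nat_lit 0, nat_lit 0, nat_lit 0, nat_lit 0, nat_lit 0, nat_lit 0, nat_lit 0, [],
 ⟨p097_k6, nat_lit 0, nat_lit 0, nat_lit 220, nat_lit 0, nat_lit 314108, [nat_lit 2032000001, nat_lit 6250000000, nat_lit 9842000000], [], [nat_lit 22734000721, nat_lit 24011582000, nat_lit 24056208433, nat_lit 25094895117, nat_lit 25336886372, nat_lit 26618972208, nat_lit 26313306787, nat_lit 27694096805], nat_lit 1271250, nat_lit 1271250, nat_lit 810650, nat_lit 1764750, nat_lit 1100001, nat_lit 2093250, [nat_lit 490000, nat_lit 1427500, nat_lit 1271250], [nat_lit 61, nat_lit 40, nat_lit 40, nat_lit 80, nat_lit 1, nat_lit 373, nat_lit 150, nat_lit 10]⟩, ⟨p097_k7, nat_lit 0, nat_lit 0, nat_lit 269, nat_lit 0, nat_lit 0, [nat_lit 3282000000, nat_lit 7968000000, nat_lit 14058000000], [], [nat_lit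 25790572992, nat_lit 27084302609, nat_lit 27576981560, nat_lit 28820668858, nat_lit 21287905610, nat_lit 22398376815, nat_lit 24008699404, nat_lit 25154963446], nat_lit 0, nat_lit 0, nat_lit 0, nat_lit 0, nat_lit 0, nat_lit 0, [], [nat_lit 84, nat_lit 40, nat_lit 40, nat_lit 80, nat_lit 28, nat_lit 401, nat_lit 175, nat_lit 9]⟩,
 zbF0, [⟨nat_lit 0, nat_lit 92, nat_lit 68, nat_lit 100, nat_lit 496370388⟩, ⟨nat_lit 4, nat_lit 100, nat_lit 67, nat_lit 88, nat_lit 552863248⟩]⟩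
noncomputable def p097_l17 : Lf2 := ⟨nat_lit 0, nat_lit 30, [nat_lit 15, nat_lit 5, nat_lit 5, nat_lit 20], false, nat_lit 160, nat_lit 276, nat_lit 160, nat_lit 336, ⟨nat_lit 1000, nat_lit 0, nat_lit 0, nat_lit 0, nat_lit 0, nat_lit 0, nat_lit 0, nat_lit 0, nat_lit 0, nat_lit 0, nat_lit 0, nat_lit 0, nat_lit 0, nat_lit 0, nat_lit 0, nat_lit 0, false, false⟩,
 nat_lit 0, nat_lit 7764, nat_lit 0, nat_lit 13744, nat_lit 6285, nat_lit 5004, nat_lit 653, nat_lit 0, nat_lit 0, nat_lit 0, nat_lit 0, nat_lit 0, nat_lit 0, nat_lit 0, nat_lit 0, nat_lit 0, nat_lit 0, nat_lit 0, [],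
 ⟨p097_k6, nat_lit 0, nat_lit 0, nat_lit 220, nat_lit 0, nat_lit 314108, [nat_lit 2032000001, nat_lit 6250000000, nat_lit 9842000000], [], [nat_lit 21867087355, nat_lit 23124102371, nat_lit 23222687095, nat_lit 24368887200, nat_lit 24517298145, nat_lit 25791979043, nat_lit 26009657856, nat_lit 27562871233], nat_lit 1271250, nat_lit 1271250, nat_lit 810650, nat_lit 1764750, nat_lit 1100001, nat_lit 2093250, [nat_lit 490000, nat_lit 1427500, nat_lit 1271250], [nat_lit 61, nat_lit 40, nat_lit 40, nat_lit 80, nat_lit 1, nat_lit 373, nat_lit 150, nat_lit 10]⟩, ⟨p097_k7, nat_lit 0, nat_lit 0, nat_lit 74, nat_lit 0, nat_lit 0, [nat_lit 3282000000, nat_lit 7968000000, nat_lit 14058000000], [], [nat_lit 12661016367, nat_lit 14460518862, nat_lit 17004862816, nat_lit 18445706928, nat_lit 22780946536, nat_lit 24065196533, nat_lit 25111812855, nat_lit 26154400143], nat_lit 0, nat_lit 0, nat_lit 0, nat_lit 0, nat_lit 0, nat_lit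 0, [], [nat_lit 84, nat_lit 40, nat_lit 40, nat_lit 80, nat_lit 28, nat_lit 456, nat_lit 225, nat_lit 10]⟩,
 zbF0, [⟨nat_lit 0, nat_lit 92, nat_lit 68, nat_lit 100, nat_lit 494614874⟩, ⟨nat_lit 4, nat_lit 100, nat_lit 67, nat_lit 88, nat_lit 556440261⟩, ⟨nat_lit 19, nat_lit 100, nat_lit 94, nat_lit 97, nat_lit 461243468⟩]⟩
noncomputable def p097_l18 : Lf2 := ⟨nat_lit 0, nat_lit 30, [nat_lit 15, nat_lit 5, nat_lit 5, nat_lit 20], false, nat_lit 160, nat_lit 300, nat_lit 0, nat_lit 160, ⟨nat_lit 1000, nat_lit 0, nat_lit 0, nat_lit 0, nat_lit 0, nat_lit 0, nat_lit 0, nat_lit 0, nat_lit 0, nat_lit 0, nat_lit 0, nat_lit 0, nat_lit 0, nat_lit 0, nat_lit 0, nat_lit 0, false, false⟩,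
 nat_lit 0, nat_lit 10599, nat_lit 0, nat_lit 3869, nat_lit 7949, nat_lit 6395, nat_lit 611, nat_lit 0, nat_lit 0, nat_lit 869, nat_lit 0, nat_lit 0, nat_lit 0, nat_lit 0, nat_lit 0, nat_lit 0, nat_lit 0, nat_lit 0, [],
 ⟨p097_k9, nat_lit 0, nat_lit 0, nat_lit 375, nat_lit 0, nat_lit 483604, [nat_lit 2032000001, nat_lit 6250000000, nat_lit 11872000000], [], [nat_lit 23895524231, nat_lit 26485314167, nat_lit 24737260199, nat_lit 26819391803, nat_lit 27087885182, nat_lit 29510803051, nat_lit 27297947965, nat_lit 30007203552], nat_lit 1271250, nat_lit 1271250, nat_lit 780000, nat_lit 1762500, nat_lit 1100001, nat_lit 2298750, [nat_lit 490000, nat_lit 1427500, nat_lit 1271250], [nat_lit 72, nat_lit 40, nat_lit 40, nat_lit 80, nat_lit 12, nat_lit 373, nat_lit 150, nat_lit 9]⟩, ⟨p097_k12, nat_lit 0, nat_lit 0, nat_lit 235, nat_lit 0, nat_lit 0, [nat_lit 3282000000, nat_lit 7968000000, nat_lit 11872000000], [], [nat_lit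 24916058665, nat_lit 26470705015, nat_lit 27095181035, nat_lit 28329004635, nat_lit 20361184045, nat_lit 21678436715, nat_lit 22336259705, nat_lit 23646122995], nat_lit 0, nat_lit 0, nat_lit 0, nat_lit 0, nat_lit 0, nat_lit 0, [], [nat_lit 79, nat_lit 40, nat_lit 40, nat_lit 80, nat_lit 14, nat_lit 428, nat_lit 200, nat_lit 11]⟩,
 zbF0, [⟨nat_lit 0, nat_lit 85, nat_lit 73, nat_lit 100, nat_lit 603591065⟩, ⟨nat_lit 4, nat_lit 100, nat_lit 74, nat_lit 90, nat_lit 500957808⟩]⟩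
noncomputable def p097_l19 : Lf2 := ⟨nat_lit 0, nat_lit 30, [nat_lit 15, nat_lit 5, nat_lit 5, nat_lit 20], false, nat_lit 160, nat_lit 300, nat_lit 160, nat_lit 320, ⟨nat_lit 1000, nat_lit 0, nat_lit 0, nat_lit 0, nat_lit 0, nat_lit 0, nat_lit 0, nat_lit 0, nat_lit 0, nat_lit 0, nat_lit 0, nat_lit 0, nat_lit 0, nat_lit 0, nat_lit 0, nat_lit 0, false, false⟩,
 nat_lit 0, nat_lit 10599, nat_lit 0, nat_lit 5780, nat_lit 7949, nat_lit 5009, nat_lit 611, nat_lit 0, nat_lit 0, nat_lit 0, nat_lit 0, nat_lit 0, nat_lit 0, nat_lit 0, nat_lit 0, nat_lit 0, nat_lit 0, nat_lit 0, [],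
 ⟨p097_k9, nat_lit 0, nat_lit 0, nat_lit 375, nat_lit 0, nat_lit 483604, [nat_lit 2032000001, nat_lit 6250000000, nat_lit 11872000000], [], [nat_lit 23895524231, nat_lit 26485314167, nat_lit 24737260199, nat_lit 26819391803, nat_lit 27087885182, nat_lit 29510803051, nat_lit 27297947965, nat_lit 30007203552], nat_lit 1271250, nat_lit 1271250, nat_lit 780000, nat_lit 1762500, nat_lit 1100001, nat_lit 2298750, [nat_lit 490000, nat_lit 1427500, nat_lit 1271250], [nat_lit 72, nat_lit 40, nat_lit 40, nat_lit 80, nat_lit 12, nat_lit 373, nat_lit 150, nat_lit 9]⟩, ⟨p097_k12, nat_lit 0, nat_lit 0, nat_lit 75, nat_lit 0, nat_lit 0, [nat_lit 3282000000, nat_lit 7968000000, nat_lit 11872000000], [], [nat_lit 14368354076, nat_lit 16180233624, nat_lit 18440773088, nat_lit 19882389840, nat_lit 22734191926, nat_lit 24096473988, nat_lit 25086194272, nat_lit 26183524592], nat_lit 0, nat_lit 0, nat_lit 0, nat_lit 0, nat_lit 0, nat_lit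 0, [], [nat_lit 79, nat_lit 40, nat_lit 40, nat_lit 80, nat_lit 14, nat_lit 456, nat_lit 225, nat_lit 11]⟩,
 zbF0, [⟨nat_lit 0, nat_lit 85, nat_lit 73, nat_lit 100, nat_lit 588220643⟩, ⟨nat_lit 4, nat_lit 100, nat_lit 74, nat_lit 90, nat_lit 500957808⟩, ⟨nat_lit 7, nat_lit 100, nat_lit 93, nat_lit 97, nat_lit 467147774⟩]⟩
noncomputable def p097_l20 : Lf2 := ⟨nat_lit 0, nat_lit 30, [nat_lit 15, nat_lit 5, nat_lit 5, nat_lit 20], false, nat_lit 0, nat_lit 300, nat_lit 0, nat_lit 160, ⟨nat_lit 1000, nat_lit 0, nat_lit 0, nat_lit 0, nat_lit 0, nat_lit 0, nat_lit 0, nat_lit 0, nat_lit 0, nat_lit 0, nat_lit 0, nat_lit 0, nat_lit 0, nat_lit 0, nat_lit 0, nat_lit 0, false, false⟩,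
 nat_lit 0, nat_lit 8630, nat_lit 0, nat_lit 3878, nat_lit 6472, nat_lit 7211, nat_lit 611, nat_lit 0, nat_lit 0, nat_lit 837, nat_lit 0, nat_lit 0, nat_lit 0, nat_lit 0, nat_lit 0, nat_lit 0, nat_lit 0, nat_lit 0, [],
 ⟨p097_k13, nat_lit 0, nat_lit 0, nat_lit 375, nat_lit 0, nat_lit 305762, [nat_lit 2032000001, nat_lit 4688000000, nat_lit 11872000000], [], [nat_lit 30788968393, nat_lit 32179039705, nat_lit 39381004832, nat_lit 40793441328, nat_lit 29063977705, nat_lit 29693450993, nat_lit 34778401896, nat_lit 35690325456], nat_lit 1271250, nat_lit 1271250, nat_lit 1271250, nat_lit 1271250, nat_lit 0, nat_lit 2118750, [nat_lit 490000, nat_lit 1100000, nat_lit 2470000], [nat_lit 75, nat_lit 40, nat_lit 40, nat_lit 80, nat_lit 65, nat_lit 401, nat_lit 175, nat_lit 10]⟩, ⟨p097_k14, nat_lit 0, nat_lit 0, nat_lit 267, nat_lit 0, nat_lit 0, [nat_lit 3282000000, nat_lit 6250000000, nat_lit 14058000000], [], [nat_lit 32048447542,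 nat_lit 33825462522, nat_lit 40194085010, nat_lit 41448546516, nat_lit 26795804238, nat_lit 28286405834, nat_lit 32864551310, nat_lit 33948422474], nat_lit 0, nat_lit 0, nat_lit 0, nat_lit 0, nat_lit 0, nat_lit 0, [], [nat_lit 71, nat_lit 40, nat_lit 40, nat_lit 80, nat_lit 68, nat_lit 456, nat_lit 225, nat_lit 10]⟩,
 zbF0, [⟨nat_lit 4, nat_lit 100, nat_lit 81, nat_lit 92, nat_lit 109780910⟩, ⟨nat_lit 21, nat_lit 83, nat_lit 100, nat_lit 83, nat_lit 9261899⟩, ⟨nat_lit 9, nat_lit 100, nat_lit 83, nat_lit 39, nat_lit 22788057⟩]⟩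
noncomputable def p097_l21 : Lf2 := ⟨nat_lit 0, nat_lit 30, [nat_lit 15, nat_lit 5, nat_lit 5, nat_lit 20], false, nat_lit 0, nat_lit 276, nat_lit 0, nat_lit 160, ⟨nat_lit 1000, nat_lit 0, nat_lit 0, nat_lit 0, nat_lit 0, nat_lit 0, nat_lit 0, nat_lit 0, nat_lit 0, nat_lit 0, nat_lit 0, nat_lit 0, nat_lit 0, nat_lit 0, nat_lit 0, nat_lit 0, false, false⟩,
 nat_lit 0, nat_lit 7004, nat_lit 0, nat_lit 0, nat_lit 5669, nat_lit 7211, nat_lit 418, nat_lit 0, nat_lit 0, nat_lit 837, nat_lit 0, nat_lit 0, nat_lit 0, nat_lit 0, nat_lit 0, nat_lit 0, nat_lit 0, nat_lit 0, [],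
 ⟨p097_k15, nat_lit 0, nat_lit 0, nat_lit 394, nat_lit 0, nat_lit 434551, [nat_lit 2032000001, nat_lit 4688000000, nat_lit 9842000000], [], [nat_lit 30576699896, nat_lit 32027968110, nat_lit 38858512820, nat_lit 39770552790, nat_lit 29428580697, nat_lit 30134394957, nat_lit 34761031129, nat_lit 35391604880], nat_lit 1271250, nat_lit 1271250, nat_lit 1271250, nat_lit 1271250, nat_lit 0, nat_lit 1949250, [nat_lit 490000, nat_lit 1100000, nat_lit 2127500], [nat_lit 27, nat_lit 40, nat_lit 40, nat_lit 80, nat_lit 13, nat_lit 401, nat_lit 175, nat_lit 11]⟩, ⟨p097_k14, nat_lit 0, nat_lit 0, nat_lit 267, nat_lit 0, nat_lit 0, [nat_lit 3282000000, nat_lit 6250000000, nat_lit 14058000000], [], [nat_lit 32048447542, nat_lit 33825462522, nat_lit 40194085010, nat_lit 41448546516, nat_lit 26795804238, nat_lit 28286405834, nat_lit 32864551310, nat_lit 33948422474], nat_lit 0, nat_lit 0, nat_lit 0, nat_lit 0, nat_lit 0, nat_lit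 0, [], [nat_lit 71, nat_lit 40, nat_lit 40, nat_lit 80, nat_lit 68, nat_lit 456, nat_lit 225, nat_lit 10]⟩,
 zbF0, [⟨nat_lit 4, nat_lit 100, nat_lit 67, nat_lit 88, nat_lit 155436768⟩, ⟨nat_lit 9, nat_lit 100, nat_lit 84, nat_lit 34, nat_lit 31668408⟩]⟩
noncomputable def p097_l22 : Lf2 := ⟨nat_lit 0, nat_lit 30, [nat_lit 15, nat_lit 5, nat_lit 5, nat_lit 20], false, nat_lit 0, nat_lit 300, nat_lit 160, nat_lit 336, ⟨nat_lit 1000, nat_lit 0, nat_lit 0, nat_lit 0, nat_lit 0, nat_lit 0, nat_lit 0, nat_lit 0, nat_lit 0, nat_lit 0, nat_lit 0, nat_lit 0, nat_lit 0, nat_lit 0, nat_lit 0, nat_lit 0, false, false⟩,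
 nat_lit 0, nat_lit 8495, nat_lit 0, nat_lit 0, nat_lit 6371, nat_lit 6882, nat_lit 523, nat_lit 0, nat_lit 0, nat_lit 0, nat_lit 0, nat_lit 0, nat_lit 0, nat_lit 0, nat_lit 0, nat_lit 0, nat_lit 0, nat_lit 0, [],
 ⟨p097_k13, nat_lit 0, nat_lit 0, nat_lit 481, nat_lit 0, nat_lit 483604, [nat_lit 2032000001, nat_lit 4688000000, nat_lit 11872000000], [], [nat_lit 33107979785, nat_lit 34785796825, nat_lit 40187787977, nat_lit 41900882253, nat_lit 31342815683, nat_lit 32392023394, nat_lit 35216843491, nat_lit 36472231413], nat_lit 1271250, nat_lit 1271250, nat_lit 1271250, nat_lit 1271250, nat_lit 0, nat_lit 2118750, [nat_lit 490000, nat_lit 1100000, nat_lit 2470000], [nat_lit 75, nat_lit 40, nat_lit 40, nat_lit 80, nat_lit 65, nat_lit 401, nat_lit 175, nat_lit 10]⟩, ⟨p097_k14, nat_lit 0, nat_lit 0, nat_lit 90, nat_lit 0, nat_lit 0, [nat_lit 3282000000, nat_lit 6250000000, nat_lit 14058000000], [], [nat_lit 19574929760,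 nat_lit 22566246792, nat_lit 30795560448, nat_lit 32550953456, nat_lit 27406342343, nat_lit 29307730426, nat_lit 35284441327, nat_lit 36653356933], nat_lit 0, nat_lit 0, nat_lit 0, nat_lit 0, nat_lit 0, nat_lit 0, [], [nat_lit 71, nat_lit 40, nat_lit 40, nat_lit 80, nat_lit 68, nat_lit 538, nat_lit 300, nat_lit 12]⟩,
 zbF0, [⟨nat_lit 4, nat_lit 100, nat_lit 74, nat_lit 90, nat_lit 135384217⟩, ⟨nat_lit 7, nat_lit 100, nat_lit 100, nat_lit 100, nat_lit 384690007⟩]⟩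
noncomputable def b_V_800_700_20_48 : St := ⟨true, nat_lit 1, nat_lit 0, nat_lit 1, nat_lit 120, nat_lit 320, nat_lit 360, nat_lit 280, nat_lit 320, nat_lit 100, nat_lit 400, nat_lit 80, nat_lit 120, nat_lit 0, nat_lit 300, nat_lit 0, nat_lit 336, nat_lit 80, nat_lit 120, nat_lit 0, nat_lit 0, nat_lit 0, nat_lit 0⟩
theorem d_V_800_700_20_48 (h : EB TB.env) : Dead b_V_800_700_20_48 := chkB_sound0 h (T :=
(.spl (nat_lit 2) (nat_lit 240)
(.spl (nat_lit 4) (nat_lit 160)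
(.spl (nat_lit 2) (nat_lit 160)
(.spl (nat_lit 3) (nat_lit 100)
(.trX (nat_lit 19) (nat_lit 100) (nat_lit 88) (nat_lit 94) (nat_lit 320) (.spl (nat_lit 0) (nat_lit 340)
(.leaf p097_l0)
(.trZ (nat_lit 0) (nat_lit 99) (nat_lit 77) (nat_lit 100) (nat_lit 124) (.leaf p097_l1))))
(.spl (nat_lit 0) (nat_lit 340)
(.spl (nat_lit 6) (nat_lit 108)
(.spl (nat_lit 1) (nat_lit 300)
(.leaf p097_l2)
(.trZ (nat_lit 0) (nat_lit 94) (nat_lit 87) (nat_lit 100) (nat_lit 120) (.trX (nat_lit 19) (nat_lit 94) (nat_lit 88) (nat_lit 100) (nat_lit 320) (.leaf p097_l3))))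
(.leaf p097_l4))
(.trZ (nat_lit 0) (nat_lit 99) (nat_lit 77) (nat_lit 100) (nat_lit 124) (.trZ (nat_lit 3) (nat_lit 100) (nat_lit 82) (nat_lit 29) (nat_lit 4) (.spl (nat_lit 0) (nat_lit 350)
(.leaf p097_l5)
(.trZ (nat_lit 0) (nat_lit 96) (nat_lit 69) (nat_lit 100) (nat_lit 136) (.trZ (nat_lit 3) (nat_lit 100) (nat_lit 76) (nat_lit 37) (nat_lit 8) (.leaf p097_l6))))))))
(.spl (nat_lit 5) (nat_lit 160)
(.leaf p097_l7)
(.leaf p097_l8)))
(.spl (nat_lit 1) (nat_lit 300)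
(.spl (nat_lit 0) (nat_lit 340)
(.spl (nat_lit 6) (nat_lit 108)
(.spl (nat_lit 2) (nat_lit 160)
(.spl (nat_lit 3) (nat_lit 100)
(.trX (nat_lit 16) (nat_lit 87) (nat_lit 100) (nat_lit 94) (nat_lit 280) (.trX (nat_lit 19) (nat_lit 100) (nat_lit 88) (nat_lit 94) (nat_lit 320) (.spl (nat_lit 5) (nat_lit 160)
(.leaf p097_l9)
(.leaf p097_l10))))
(.spl (nat_lit 6) (nat_lit 88)
(.leaf p097_l11)
(.leaf p097_l12)))
(.spl (nat_lit 3) (nat_lit 100)
(.trX (nat_lit 16) (nat_lit 87) (nat_lit 100) (nat_lit 94) (nat_lit 280) (.trX (nat_lit 19) (nat_lit 100) (nat_lit 88) (nat_lit 94) (nat_lit 320) (.leaf p097_l13)))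
(.leaf p097_l14)))
(.leaf p097_l15))
(.trZ (nat_lit 0) (nat_lit 99) (nat_lit 77) (nat_lit 100) (nat_lit 124) (.trX (nat_lit 16) (nat_lit 77) (nat_lit 100) (nat_lit 99) (nat_lit 276) (.spl (nat_lit 5) (nat_lit 160)
(.leaf p097_l16)
(.leaf p097_l17)))))
(.trZ (nat_lit 0) (nat_lit 94) (nat_lit 87) (nat_lit 100) (nat_lit 120) (.trX (nat_lit 19) (nat_lit 94) (nat_lit 88) (nat_lit 100) (nat_lit 320) (.spl (nat_lit 5) (nat_lit 160)
(.leaf p097_l18)
(.leaf p097_l19))))))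
(.spl (nat_lit 5) (nat_lit 160)
(.spl (nat_lit 0) (nat_lit 340)
(.leaf p097_l20)
(.trX (nat_lit 16) (nat_lit 77) (nat_lit 100) (nat_lit 99) (nat_lit 276) (.leaf p097_l21)))
(.leaf p097_l22)))) (by decide +kernel)
noncomputable def p097_l23 : Lf2 := ⟨nat_lit 0, nat_lit 30, [nat_lit 15, nat_lit 5, nat_lit 5, nat_lit 20], false, nat_lit 0, nat_lit 160, nat_lit 0, nat_lit 160, ⟨nat_lit 1000, nat_lit 0, nat_lit 0, nat_lit 0, nat_lit 0, nat_lit 0, nat_lit 0, nat_lit 0, nat_lit 0, nat_lit 0, nat_lit 0, nat_lit 0, nat_lit 0, nat_lit 0, nat_lit 0, nat_lit 0, false, false⟩,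
 nat_lit 16105, nat_lit 0, nat_lit 0, nat_lit 14372, nat_lit 8614, nat_lit 10248, nat_lit 798, nat_lit 0, nat_lit 0, nat_lit 390, nat_lit 0, nat_lit 0, nat_lit 0, nat_lit 0, nat_lit 0, nat_lit 0, nat_lit 0, nat_lit 0, [],
 ⟨p097_k9, nat_lit 0, nat_lit 0, nat_lit 411, nat_lit 0, nat_lit 293955, [nat_lit 2032000001, nat_lit 6250000000, nat_lit 11872000000], [], [nat_lit 27859291430, nat_lit 32280005368, nat_lit 27225038824, nat_lit 31397964992, nat_lit 22759313132, nat_lit 25641643300, nat_lit 22451634504, nat_lit 25253782768], nat_lit 1271250, nat_lit 1271250, nat_lit 631250, nat_lit 780000, nat_lit 0, nat_lit 1100001, [nat_lit 490000, nat_lit 1427500, nat_lit 1271250], [nat_lit 72, nat_lit 40, nat_lit 40, nat_lit 80, nat_lit 12, nat_lit 289, nat_lit 75, nat_lit 7]⟩, ⟨p097_k7, nat_lit 0, nat_lit 0, nat_lit 554, nat_lit 0, nat_lit 364590, [nat_lit 3282000000, nat_lit 7968000000, nat_lit 14058000000], [], [nat_lit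 38337242856, nat_lit 41961066120, nat_lit 37463250328, nat_lit 40994543576, nat_lit 30781677056, nat_lit 31645597224, nat_lit 32772741600, nat_lit 30918698680], nat_lit 1271250, nat_lit 1271250, nat_lit 631250, nat_lit 780000, nat_lit 0, nat_lit 1100001, [nat_lit 780000, nat_lit 1762500, nat_lit 1271250], [nat_lit 84, nat_lit 40, nat_lit 40, nat_lit 80, nat_lit 28, nat_lit 373, nat_lit 150, nat_lit 9]⟩,
 zbF0, [⟨nat_lit 0, nat_lit 90, nat_lit 74, nat_lit 100, nat_lit 2227514807⟩]⟩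
noncomputable def p097_l24 : Lf2 := ⟨nat_lit 0, nat_lit 30, [nat_lit 15, nat_lit 5, nat_lit 5, nat_lit 20], false, nat_lit 0, nat_lit 160, nat_lit 0, nat_lit 160, ⟨nat_lit 1000, nat_lit 0, nat_lit 0, nat_lit 0, nat_lit 0, nat_lit 0, nat_lit 0, nat_lit 0, nat_lit 0, nat_lit 0, nat_lit 0, nat_lit 0, nat_lit 0, nat_lit 0, nat_lit 0, nat_lit 0, false, false⟩,
 nat_lit 12711, nat_lit 0, nat_lit 0, nat_lit 4764, nat_lit 7745, nat_lit 8088, nat_lit 807, nat_lit 0, nat_lit 0, nat_lit 600, nat_lit 0, nat_lit 0, nat_lit 0, nat_lit 0, nat_lit 0, nat_lit 0, nat_lit 0, nat_lit 0, [],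
 ⟨p097_k9, nat_lit 0, nat_lit 0, nat_lit 363, nat_lit 0, nat_lit 185856, [nat_lit 2032000001, nat_lit 6250000000, nat_lit 11872000000], [], [nat_lit 26850572755, nat_lit 28373504445, nat_lit 28815440860, nat_lit 30457654350, nat_lit 21738686900, nat_lit 23451168900, nat_lit 25364746581, nat_lit 25347111760], nat_lit 1271250, nat_lit 1271250, nat_lit 780000, nat_lit 1762500, nat_lit 0, nat_lit 1100001, [nat_lit 490000, nat_lit 1427500, nat_lit 1271250], [nat_lit 72, nat_lit 40, nat_lit 40, nat_lit 80, nat_lit 12, nat_lit 317, nat_lit 100, nat_lit 8]⟩, ⟨p097_k7, nat_lit 0, nat_lit 0, nat_lit 438, nat_lit 0, nat_lit 230515, [nat_lit 3282000000, nat_lit 7968000000, nat_lit 14058000000], [], [nat_lit 35025694848, nat_lit 37196390912, nat_lit 35667441088, nat_lit 37357974016, nat_lit 28888903168, nat_lit 30703682688, nat_lit 31111389600, nat_lit 30719810368], nat_lit 1271250, nat_lit 1271250, nat_lit 780000, nat_lit 1762500,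 nat_lit 0, nat_lit 1100001, [nat_lit 780000, nat_lit 1762500, nat_lit 1271250], [nat_lit 84, nat_lit 40, nat_lit 40, nat_lit 80, nat_lit 28, nat_lit 428, nat_lit 200, nat_lit 10]⟩,
 zbF0, [⟨nat_lit 0, nat_lit 92, nat_lit 81, nat_lit 100, nat_lit 511943195⟩]⟩
noncomputable def p097_l25 : Lf2 := ⟨nat_lit 0, nat_lit 30, [nat_lit 15, nat_lit 5, nat_lit 5, nat_lit 20], false, nat_lit 0, nat_lit 160, nat_lit 0, nat_lit 160, ⟨nat_lit 1000, nat_lit 0, nat_lit 0, nat_lit 0, nat_lit 0, nat_lit 0, nat_lit 0, nat_lit 0, nat_lit 0, nat_lit 0, nat_lit 0, nat_lit 0, nat_lit 0, nat_lit 0, nat_lit 0, nat_lit 0, false, false⟩,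
 nat_lit 11472, nat_lit 0, nat_lit 0, nat_lit 0, nat_lit 6201, nat_lit 7300, nat_lit 670, nat_lit 0, nat_lit 0, nat_lit 255, nat_lit 0, nat_lit 0, nat_lit 0, nat_lit 0, nat_lit 0, nat_lit 0, nat_lit 0, nat_lit 0, [],
 ⟨p097_k15, nat_lit 0, nat_lit 0, nat_lit 333, nat_lit 0, nat_lit 266558, [nat_lit 2032000001, nat_lit 4688000000, nat_lit 9842000000], [], [nat_lit 26108977835, nat_lit 27634579459, nat_lit 27868656684, nat_lit 29395365690, nat_lit 21351389529, nat_lit 22947068341, nat_lit 23702876839, nat_lit 24545485366], nat_lit 1271250, nat_lit 1271250, nat_lit 810650, nat_lit 1764750, nat_lit 0, nat_lit 1100001, [nat_lit 490000, nat_lit 1100000, nat_lit 2127500], [nat_lit 27, nat_lit 40, nat_lit 40, nat_lit 80, nat_lit 13, nat_lit 317, nat_lit 100, nat_lit 9]⟩, ⟨p097_k14, nat_lit 0, nat_lit 0, nat_lit 541, nat_lit 0, nat_lit 364590, [nat_lit 3282000000, nat_lit 6250000000, nat_lit 14058000000], [], [nat_lit 39884086520,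 nat_lit 41543954210, nat_lit 40495141250, nat_lit 41874353650, nat_lit 35191666050, nat_lit 36643896970, nat_lit 35633778850, nat_lit 36773629250], nat_lit 1271250, nat_lit 1271250, nat_lit 810650, nat_lit 1764750, nat_lit 0, nat_lit 1100001, [nat_lit 780000, nat_lit 1435000, nat_lit 1271250], [nat_lit 71, nat_lit 40, nat_lit 40, nat_lit 80, nat_lit 68, nat_lit 428, nat_lit 200, nat_lit 10]⟩,
 zbF0, [⟨nat_lit 0, nat_lit 88, nat_lit 67, nat_lit 100, nat_lit 635362604⟩]⟩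
noncomputable def p097_l26 : Lf2 := ⟨nat_lit 0, nat_lit 25, [nat_lit 44, nat_lit 5, nat_lit 5, nat_lit 20], false, nat_lit 0, nat_lit 160, nat_lit 160, nat_lit 320, ⟨nat_lit 1000, nat_lit 0, nat_lit 0, nat_lit 0, nat_lit 0, nat_lit 0, nat_lit 0, nat_lit 0, nat_lit 0, nat_lit 0, nat_lit 0, nat_lit 0, nat_lit 0, nat_lit 0, nat_lit 0, nat_lit 0, false, false⟩,
 nat_lit 18382, nat_lit 0, nat_lit 0, nat_lit 0, nat_lit 8048, nat_lit 11697, nat_lit 650, nat_lit 0, nat_lit 0, nat_lit 424, nat_lit 0, nat_lit 0, nat_lit 0, nat_lit 0, nat_lit 0, nat_lit 0, nat_lit 0, nat_lit 0, [],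
 ⟨p097_k0, nat_lit 0, nat_lit 0, nat_lit 313, nat_lit 0, nat_lit 175518, [nat_lit 2032000001, nat_lit 6250000000, nat_lit 9842000000], [], [nat_lit 27645001940, nat_lit 29132298260, nat_lit 28644535994, nat_lit 30239624682, nat_lit 21963334186, nat_lit 23461521082, nat_lit 24286164033, nat_lit 24792757504], nat_lit 1271250, nat_lit 1271250, nat_lit 631250, nat_lit 1751250, nat_lit 0, nat_lit 1100001, [nat_lit 490000, nat_lit 1427500, nat_lit 1271250], [nat_lit 61, nat_lit 40, nat_lit 40, nat_lit 80, nat_lit 1, nat_lit 317, nat_lit 100, nat_lit 9]⟩, ⟨p097_k1, nat_lit 0, nat_lit 0, nat_lit 226, nat_lit 0, nat_lit 217208, [nat_lit 3282000000, nat_lit 7968000000, nat_lit 11872000000], [], [nat_lit 25927531442, nat_lit 26429089750, nat_lit 23918918832, nat_lit 26382079936, nat_lit 29973297950, nat_lit 32430900278, nat_lit 28377972708, nat_lit 30158259644], nat_lit 1271250, nat_lit 1271250, nat_lit 631250, nat_lit 1751250,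 nat_lit 1271250, nat_lit 1271250, [nat_lit 780000, nat_lit 1762500, nat_lit 1271250], [nat_lit 79, nat_lit 40, nat_lit 40, nat_lit 80, nat_lit 14, nat_lit 456, nat_lit 225, nat_lit 11]⟩,
 zbF0, [⟨nat_lit 0, nat_lit 92, nat_lit 81, nat_lit 100, nat_lit 703834688⟩, ⟨nat_lit 3, nat_lit 100, nat_lit 82, nat_lit 29, nat_lit 25213508⟩, ⟨nat_lit 7, nat_lit 100, nat_lit 97, nat_lit 93, nat_lit 379676061⟩]⟩
noncomputable def p097_l27 : Lf2 := ⟨nat_lit 0, nat_lit 27, [nat_lit 147, nat_lit 5, nat_lit 5, nat_lit 20], false, nat_lit 0, nat_lit 160, nat_lit 160, nat_lit 336, ⟨nat_lit 1000, nat_lit 0, nat_lit 0, nat_lit 0, nat_lit 0, nat_lit 0, nat_lit 0, nat_lit 0, nat_lit 0, nat_lit 0, nat_lit 0, nat_lit 0, nat_lit 0, nat_lit 0, nat_lit 0, nat_lit 0, false, false⟩,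
 nat_lit 14776, nat_lit 0, nat_lit 0, nat_lit 24170, nat_lit 6922, nat_lit 9402, nat_lit 1060, nat_lit 0, nat_lit 0, nat_lit 955, nat_lit 0, nat_lit 0, nat_lit 0, nat_lit 0, nat_lit 0, nat_lit 0, nat_lit 0, nat_lit 0, [],
 ⟨p097_k16, nat_lit 0, nat_lit 0, nat_lit 342, nat_lit 0, nat_lit 100947, [nat_lit 2032000001, nat_lit 4688000000, nat_lit 11872000000], [], [nat_lit 23729330140, nat_lit 25586251660, nat_lit 23254068676, nat_lit 24957549772, nat_lit 18352343288, nat_lit 20018283690, nat_lit 18784284637, nat_lit 20268003852], nat_lit 1271250, nat_lit 1271250, nat_lit 631250, nat_lit 1100001, nat_lit 0, nat_lit 1100001, [nat_lit 490000, nat_lit 1100000, nat_lit 2470000], [nat_lit 75, nat_lit 40, nat_lit 40, nat_lit 80, nat_lit 65, nat_lit 317, nat_lit 100, nat_lit 8]⟩, ⟨p097_k17, nat_lit 0, nat_lit 0, nat_lit 222, nat_lit 0, nat_lit 125039, [nat_lit 3282000000, nat_lit 6250000000, nat_lit 14058000000], [], [nat_lit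 22393429466, nat_lit 25295469990, nat_lit 21439758602, nat_lit 24075083042, nat_lit 28890039171, nat_lit 30625549176, nat_lit 27226922318, nat_lit 28793577308], nat_lit 1271250, nat_lit 1271250, nat_lit 631250, nat_lit 1100001, nat_lit 1100001, nat_lit 2607000, [nat_lit 780000, nat_lit 1435000, nat_lit 1271250], [nat_lit 71, nat_lit 40, nat_lit 40, nat_lit 80, nat_lit 68, nat_lit 456, nat_lit 225, nat_lit 10]⟩,
 zbF0, [⟨nat_lit 0, nat_lit 81, nat_lit 72, nat_lit 100, nat_lit 1242491102⟩, ⟨nat_lit 7, nat_lit 94, nat_lit 97, nat_lit 100, nat_lit 373658974⟩]⟩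
noncomputable def p097_l28 : Lf2 := ⟨nat_lit 0, nat_lit 27, [nat_lit 147, nat_lit 5, nat_lit 5, nat_lit 20], false, nat_lit 0, nat_lit 160, nat_lit 160, nat_lit 336, ⟨nat_lit 1000, nat_lit 0, nat_lit 0, nat_lit 0, nat_lit 0, nat_lit 0, nat_lit 0, nat_lit 0, nat_lit 0, nat_lit 0, nat_lit 0, nat_lit 0, nat_lit 0, nat_lit 0, nat_lit 0, nat_lit 0, false, false⟩,
 nat_lit 12660, nat_lit 0, nat_lit 0, nat_lit 18138, nat_lit 6922, nat_lit 8056, nat_lit 1060, nat_lit 0, nat_lit 0, nat_lit 1062, nat_lit 0, nat_lit 0, nat_lit 0, nat_lit 0, nat_lit 0, nat_lit 0, nat_lit 0, nat_lit 0, [],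
 ⟨p097_k16, nat_lit 0, nat_lit 0, nat_lit 322, nat_lit 0, nat_lit 100947, [nat_lit 2032000001, nat_lit 4688000000, nat_lit 11872000000], [], [nat_lit 23254068676, nat_lit 24957549772, nat_lit 25773814560, nat_lit 28292949268, nat_lit 18784284637, nat_lit 20268003852, nat_lit 28192270925, nat_lit 25175372601], nat_lit 1271250, nat_lit 1271250, nat_lit 1100001, nat_lit 1785000, nat_lit 0, nat_lit 1100001, [nat_lit 490000, nat_lit 1100000, nat_lit 2470000], [nat_lit 75, nat_lit 40, nat_lit 40, nat_lit 80, nat_lit 65, nat_lit 317, nat_lit 100, nat_lit 8]⟩, ⟨p097_k17, nat_lit 0, nat_lit 0, nat_lit 199, nat_lit 0, nat_lit 125039, [nat_lit 3282000000, nat_lit 6250000000, nat_lit 14058000000], [], [nat_lit 20719623156, nat_lit 23139291476, nat_lit 23227298592, nat_lit 24183786932, nat_lit 26296356462, nat_lit 27778956212, nat_lit 26692179962, nat_lit 29326238426], nat_lit 1271250, nat_lit 1271250, nat_lit 1100001, nat_lit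 1785000, nat_lit 1271250, nat_lit 1271250, [nat_lit 780000, nat_lit 1435000, nat_lit 1271250], [nat_lit 71, nat_lit 40, nat_lit 40, nat_lit 80, nat_lit 68, nat_lit 456, nat_lit 225, nat_lit 10]⟩,
 zbF0, [⟨nat_lit 0, nat_lit 81, nat_lit 72, nat_lit 100, nat_lit 106562708⟩, ⟨nat_lit 19, nat_lit 97, nat_lit 94, nat_lit 100, nat_lit 371333544⟩]⟩
noncomputable def p097_l29 : Lf2 := ⟨nat_lit 1, nat_lit 30, [nat_lit 15, nat_lit 5, nat_lit 5, nat_lit 20], false, nat_lit 0, nat_lit 160, nat_lit 160, nat_lit 336, zbN0,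
 nat_lit 0, nat_lit 0, nat_lit 0, nat_lit 0, nat_lit 0, nat_lit 0, nat_lit 0, nat_lit 0, nat_lit 0, nat_lit 0, nat_lit 0, nat_lit 0, nat_lit 0, nat_lit 0, nat_lit 0, nat_lit 0, nat_lit 0, nat_lit 0, [],
 C1.Rw.none, C1.Rw.none,
 zbF0, []⟩
noncomputable def p097_l30 : Lf2 := ⟨nat_lit 0, nat_lit 25, [nat_lit 44, nat_lit 5, nat_lit 5, nat_lit 20], false, nat_lit 0, nat_lit 160, nat_lit 160, nat_lit 320, ⟨nat_lit 1000, nat_lit 0, nat_lit 0, nat_lit 0, nat_lit 0, nat_lit 0, nat_lit 0, nat_lit 0, nat_lit 0, nat_lit 0, nat_lit 0, nat_lit 0, nat_lit 0, nat_lit 0, nat_lit 0, nat_lit 0, false, false⟩,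
 nat_lit 15571, nat_lit 0, nat_lit 0, nat_lit 0, nat_lit 6327, nat_lit 9908, nat_lit 710, nat_lit 0, nat_lit 0, nat_lit 431, nat_lit 0, nat_lit 0, nat_lit 0, nat_lit 0, nat_lit 0, nat_lit 0, nat_lit 0, nat_lit 0, [],
 ⟨p097_k2, nat_lit 0, nat_lit 0, nat_lit 337, nat_lit 0, nat_lit 253531, [nat_lit 2032000001, nat_lit 6250000000, nat_lit 9842000000], [], [nat_lit 24906319896, nat_lit 26822492466, nat_lit 27267529838, nat_lit 29639750716, nat_lit 20874625394, nat_lit 22137354669, nat_lit 22651916496, nat_lit 23871758640], nat_lit 1271250, nat_lit 1271250, nat_lit 810650, nat_lit 1764750, nat_lit 0, nat_lit 1100001, [nat_lit 490000, nat_lit 1427500, nat_lit 1271250], [nat_lit 61, nat_lit 40, nat_lit 40, nat_lit 80, nat_lit 1, nat_lit 317, nat_lit 100, nat_lit 9]⟩, ⟨p097_k1, nat_lit 0, nat_lit 0, nat_lit 262, nat_lit 0, nat_lit 345662, [nat_lit 3282000000, nat_lit 7968000000, nat_lit 11872000000], [], [nat_lit 25560888577,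 nat_lit 27878778155, nat_lit 26458934048, nat_lit 27999661847, nat_lit 29693801171, nat_lit 31754132353, nat_lit 29505010887, nat_lit 31162057191], nat_lit 1271250, nat_lit 1271250, nat_lit 810650, nat_lit 1764750, nat_lit 1271250, nat_lit 1271250, [nat_lit 780000, nat_lit 1762500, nat_lit 1271250], [nat_lit 79, nat_lit 40, nat_lit 40, nat_lit 80, nat_lit 14, nat_lit 456, nat_lit 225, nat_lit 11]⟩,
 zbF0, [⟨nat_lit 0, nat_lit 88, nat_lit 67, nat_lit 100, nat_lit 625609912⟩, ⟨nat_lit 7, nat_lit 100, nat_lit 97, nat_lit 93, nat_lit 358457546⟩]⟩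
noncomputable def p097_l31 : Lf2 := ⟨nat_lit 0, nat_lit 30, [nat_lit 15, nat_lit 5, nat_lit 5, nat_lit 20], false, nat_lit 4, nat_lit 160, nat_lit 160, nat_lit 336, ⟨nat_lit 1000, nat_lit 0, nat_lit 0, nat_lit 0, nat_lit 0, nat_lit 0, nat_lit 0, nat_lit 0, nat_lit 0, nat_lit 0, nat_lit 0, nat_lit 0, nat_lit 0, nat_lit 0, nat_lit 0, nat_lit 0, false, false⟩,
 nat_lit 15461, nat_lit 0, nat_lit 0, nat_lit 8758, nat_lit 6503, nat_lit 9838, nat_lit 726, nat_lit 0, nat_lit 0, nat_lit 807, nat_lit 0, nat_lit 0, nat_lit 0, nat_lit 0, nat_lit 0, nat_lit 0, nat_lit 0, nat_lit 0, [],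
 ⟨p097_k6, nat_lit 0, nat_lit 0, nat_lit 292, nat_lit 0, nat_lit 141361, [nat_lit 2032000001, nat_lit 6250000000, nat_lit 9842000000], [], [nat_lit 24602266044, nat_lit 25574271404, nat_lit 27300539387, nat_lit 28505269441, nat_lit 20333683609, nat_lit 20974052083, nat_lit 22210715344, nat_lit 22833504120], nat_lit 1271250, nat_lit 1271250, nat_lit 810650, nat_lit 1764750, nat_lit 21650, nat_lit 1100001, [nat_lit 490000, nat_lit 1427500, nat_lit 1271250], [nat_lit 61, nat_lit 40, nat_lit 40, nat_lit 80, nat_lit 1, nat_lit 317, nat_lit 100, nat_lit 9]⟩, ⟨p097_k7, nat_lit 0, nat_lit 0, nat_lit 240, nat_lit 0, nat_lit 193349, [nat_lit 3282000000, nat_lit 7968000000, nat_lit 14058000000], [], [nat_lit 21697474911, nat_lit 24579115132, nat_lit 26531492128, nat_lit 24922982036, nat_lit 28035495626, nat_lit 29743506060, nat_lit 27833192520, nat_lit 30569464269], nat_lit 1271250, nat_lit 1271250, nat_lit 810650, nat_lit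 1764750, nat_lit 1271250, nat_lit 1271250, [nat_lit 780000, nat_lit 1762500, nat_lit 1271250], [nat_lit 84, nat_lit 40, nat_lit 40, nat_lit 80, nat_lit 28, nat_lit 456, nat_lit 225, nat_lit 10]⟩,
 zbF0, [⟨nat_lit 0, nat_lit 89, nat_lit 71, nat_lit 100, nat_lit 487724084⟩, ⟨nat_lit 19, nat_lit 97, nat_lit 94, nat_lit 100, nat_lit 319564322⟩]⟩
noncomputable def p097_l32 : Lf2 := ⟨nat_lit 0, nat_lit 30, [nat_lit 15, nat_lit 5, nat_lit 5, nat_lit 20], false, nat_lit 8, nat_lit 160, nat_lit 160, nat_lit 336, ⟨nat_lit 1000, nat_lit 0, nat_lit 0, nat_lit 0, nat_lit 0, nat_lit 0, nat_lit 0, nat_lit 0, nat_lit 0, nat_lit 0, nat_lit 0, nat_lit 0, nat_lit 0, nat_lit 0, nat_lit 0, nat_lit 0, false, false⟩,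
 nat_lit 14995, nat_lit 0, nat_lit 0, nat_lit 7465, nat_lit 5677, nat_lit 9542, nat_lit 678, nat_lit 0, nat_lit 0, nat_lit 688, nat_lit 0, nat_lit 0, nat_lit 0, nat_lit 0, nat_lit 0, nat_lit 0, nat_lit 0, nat_lit 0, [],
 ⟨p097_k8, nat_lit 0, nat_lit 0, nat_lit 302, nat_lit 0, nat_lit 180996, [nat_lit 2032000001, nat_lit 6250000000, nat_lit 9842000000], [], [nat_lit 24519758852, nat_lit 25395391494, nat_lit 26790860312, nat_lit 27891093189, nat_lit 20989933161, nat_lit 21734426819, nat_lit 22763759197, nat_lit 23380888632], nat_lit 1271250, nat_lit 1271250, nat_lit 904401, nat_lit 1771500, nat_lit 43600, nat_lit 1100001, [nat_lit 490000, nat_lit 1427500, nat_lit 1271250], [nat_lit 61, nat_lit 40, nat_lit 40, nat_lit 80, nat_lit 1, nat_lit 317, nat_lit 100, nat_lit 9]⟩, ⟨p097_k7, nat_lit 0, nat_lit 0, nat_lit 261, nat_lit 0, nat_lit 259431, [nat_lit 3282000000, nat_lit 7968000000, nat_lit 14058000000], [], [nat_lit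 23482030927, nat_lit 26254438132, nat_lit 27122943152, nat_lit 26829342824, nat_lit 29605030983, nat_lit 31253819750, nat_lit 29081230012, nat_lit 30362957620], nat_lit 1271250, nat_lit 1271250, nat_lit 904401, nat_lit 1771500, nat_lit 1271250, nat_lit 1271250, [nat_lit 780000, nat_lit 1762500, nat_lit 1271250], [nat_lit 84, nat_lit 40, nat_lit 40, nat_lit 80, nat_lit 28, nat_lit 456, nat_lit 225, nat_lit 10]⟩,
 zbF0, [⟨nat_lit 0, nat_lit 88, nat_lit 64, nat_lit 100, nat_lit 755314033⟩, ⟨nat_lit 19, nat_lit 97, nat_lit 94, nat_lit 100, nat_lit 295690075⟩]⟩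
noncomputable def b_V_800_700_20_49 : St := ⟨true, nat_lit 1, nat_lit 1, nat_lit 1, nat_lit 120, nat_lit 320, nat_lit 360, nat_lit 280, nat_lit 320, nat_lit 100, nat_lit 240, nat_lit 80, nat_lit 120, nat_lit 0, nat_lit 160, nat_lit 0, nat_lit 336, nat_lit 80, nat_lit 120, nat_lit 0, nat_lit 0, nat_lit 0, nat_lit 0⟩
theorem d_V_800_700_20_49 (h : EB TB.env) : Dead b_V_800_700_20_49 := chkB_sound0 h (T :=
(.spl (nat_lit 5) (nat_lit 160)
(.spl (nat_lit 2) (nat_lit 120)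
(.leaf p097_l23)
(.spl (nat_lit 0) (nat_lit 340)
(.leaf p097_l24)
(.trZ (nat_lit 0) (nat_lit 99) (nat_lit 77) (nat_lit 100) (nat_lit 124) (.leaf p097_l25))))
(.spl (nat_lit 0) (nat_lit 340)
(.spl (nat_lit 3) (nat_lit 100)
(.trX (nat_lit 19) (nat_lit 100) (nat_lit 88) (nat_lit 94) (nat_lit 320) (.leaf p097_l26))
(.spl (nat_lit 6) (nat_lit 108)
(.spl (nat_lit 2) (nat_lit 160)
(.leaf p097_l27)
(.leaf p097_l28))
(.leaf p097_l29)))
(.trZ (nat_lit 0) (nat_lit 99) (nat_lit 77) (nat_lit 100) (nat_lit 124) (.spl (nat_lit 3) (nat_lit 100)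
(.trX (nat_lit 19) (nat_lit 100) (nat_lit 88) (nat_lit 94) (nat_lit 320) (.leaf p097_l30))
(.trZ (nat_lit 3) (nat_lit 100) (nat_lit 82) (nat_lit 29) (nat_lit 4) (.spl (nat_lit 0) (nat_lit 350)
(.leaf p097_l31)
(.trZ (nat_lit 0) (nat_lit 96) (nat_lit 69) (nat_lit 100) (nat_lit 136) (.trZ (nat_lit 3) (nat_lit 100) (nat_lit 76) (nat_lit 37) (nat_lit 8) (.leaf p097_l32)))))))))) (by decide +kernel)
noncomputable def p097_l33 : Lf2 := ⟨nat_lit 0, nat_lit 25, [nat_lit 44, nat_lit 5, nat_lit 5, nat_lit 20], true, nat_lit 160, nat_lit 280, nat_lit 0, nat_lit 320, ⟨nat_lit 0, nat_lit 0, nat_lit 1000, nat_lit 7, nat_lit 179, nat_lit 1000, nat_lit 166, nat_lit 1000, nat_lit 13067, nat_lit 243, nat_lit 72244, nat_lit 280, nat_lit 46563827, nat_lit 0, nat_lit 0, nat_lit 4434932, false, false⟩,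
 nat_lit 0, nat_lit 4890, nat_lit 0, nat_lit 100000, nat_lit 3667, nat_lit 0, nat_lit 0, nat_lit 0, nat_lit 0, nat_lit 0, nat_lit 0, nat_lit 0, nat_lit 0, nat_lit 0, nat_lit 78, nat_lit 250000, nat_lit 0, nat_lit 0, [(nat_lit 20, [(nat_lit 4, nat_lit 1000)])],
 ⟨p097_k0, nat_lit 0, nat_lit 0, nat_lit 166, nat_lit 0, nat_lit 150498, [nat_lit 2113600001, nat_lit 648400001, nat_lit 356800000], [], [nat_lit 17665318509, nat_lit 18886718327, nat_lit 17747897989, nat_lit 18914676808, nat_lit 21318560965, nat_lit 22317697797, nat_lit 21299992704, nat_lit 22277638406], nat_lit 1271250, nat_lit 1271250, nat_lit 631250, nat_lit 780000, nat_lit 1100001, nat_lit 2127500, [nat_lit 490000, nat_lit 1427500, nat_lit 1271250], [nat_lit 61, nat_lit 40, nat_lit 40, nat_lit 80, nat_lit 1, nat_lit 317, nat_lit 100, nat_lit 8]⟩, C1.Rw.none,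
 ⟨nat_lit 3872, nat_lit 4473, ⟨.ofNat (nat_lit 416230), .ofNat (nat_lit 450223), .ofNat (nat_lit 437779), .ofNat (nat_lit 471772), .ofNat (nat_lit 425778), .ofNat (nat_lit 458043), .ofNat (nat_lit 447554), .ofNat (nat_lit 479819)⟩, ⟨.ofNat (nat_lit 302621), .ofNat (nat_lit 506556), .ofNat (nat_lit 324188), .ofNat (nat_lit 528122), .ofNat (nat_lit 304717), .ofNat (nat_lit 498282), .ofNat (nat_lit 326511), .ofNat (nat_lit 520075)⟩⟩, [⟨nat_lit 0, nat_lit 97, nat_lit 82, nat_lit 100, nat_lit 4640227715⟩, ⟨nat_lit 4, nat_lit 100, nat_lit 79, nat_lit 87, nat_lit 225382925⟩]⟩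
noncomputable def p097_l34 : Lf2 := ⟨nat_lit 0, nat_lit 25, [nat_lit 44, nat_lit 5, nat_lit 5, nat_lit 20], false, nat_lit 160, nat_lit 280, nat_lit 0, nat_lit 320, ⟨nat_lit 1000, nat_lit 0, nat_lit 0, nat_lit 0, nat_lit 0, nat_lit 0, nat_lit 0, nat_lit 0, nat_lit 0, nat_lit 0, nat_lit 0, nat_lit 0, nat_lit 0, nat_lit 0, nat_lit 0, nat_lit 0, false, false⟩,
 nat_lit 13828, nat_lit 0, nat_lit 0, nat_lit 2774, nat_lit 6419, nat_lit 8799, nat_lit 0, nat_lit 0, nat_lit 0, nat_lit 642, nat_lit 0, nat_lit 0, nat_lit 0, nat_lit 0, nat_lit 0, nat_lit 0, nat_lit 0, nat_lit 0, [],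
 ⟨p097_k18, nat_lit 0, nat_lit 0, nat_lit 96, nat_lit 0, nat_lit 91402, [nat_lit 2032000001, nat_lit 4688000000, nat_lit 9842000000], [], [nat_lit 16956725792, nat_lit 19084592734, nat_lit 20498471392, nat_lit 22196201960, nat_lit 22574507944, nat_lit 24212014204, nat_lit 24761999818, nat_lit 26295187327], nat_lit 1271250, nat_lit 1271250, nat_lit 780000, nat_lit 1762500, nat_lit 1100001, nat_lit 2127500, [nat_lit 490000, nat_lit 1100000, nat_lit 2127500], [nat_lit 27, nat_lit 40, nat_lit 40, nat_lit 80, nat_lit 13, nat_lit 373, nat_lit 150, nat_lit 10]⟩, ⟨p097_k19, nat_lit 0, nat_lit 0, nat_lit 330, nat_lit 0, nat_lit 112950, [nat_lit 3282000000, nat_lit 6250000000, nat_lit 11872000000], [], [nat_lit 42940280160, nat_lit 38287914498, nat_lit 34173190336, nat_lit 34963515092, nat_lit 29673239312, nat_lit 30205707970, nat_lit 39980085920, nat_lit 36096682466], nat_lit 1271250, nat_lit 1271250, nat_lit 780000, nat_lit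 1762500, nat_lit 0, nat_lit 2260000, [nat_lit 780000, nat_lit 1435000, nat_lit 1271250], [nat_lit 23, nat_lit 40, nat_lit 40, nat_lit 80, nat_lit 12, nat_lit 456, nat_lit 225, nat_lit 12]⟩,
 zbF0, [⟨nat_lit 4, nat_lit 100, nat_lit 79, nat_lit 87, nat_lit 623301363⟩]⟩
noncomputable def p097_l35 : Lf2 := ⟨nat_lit 1, nat_lit 22, [nat_lit 146, nat_lit 5, nat_lit 5, nat_lit 20], false, nat_lit 160, nat_lit 300, nat_lit 0, nat_lit 336, zbN0,
 nat_lit 0, nat_lit 0, nat_lit 0, nat_lit 0, nat_lit 0, nat_lit 0, nat_lit 0, nat_lit 0, nat_lit 0, nat_lit 0, nat_lit 0, nat_lit 0, nat_lit 0, nat_lit 0, nat_lit 0, nat_lit 0, nat_lit 0, nat_lit 0, [],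
 C1.Rw.none, C1.Rw.none,
 zbF0, []⟩
noncomputable def p097_l36 : Lf2 := ⟨nat_lit 0, nat_lit 22, [nat_lit 146, nat_lit 5, nat_lit 5, nat_lit 20], false, nat_lit 160, nat_lit 288, nat_lit 0, nat_lit 336, ⟨nat_lit 1000, nat_lit 0, nat_lit 0, nat_lit 0, nat_lit 0, nat_lit 0, nat_lit 0, nat_lit 0, nat_lit 0, nat_lit 0, nat_lit 0, nat_lit 0, nat_lit 0, nat_lit 0, nat_lit 0, nat_lit 0, false, false⟩,
 nat_lit 12201, nat_lit 0, nat_lit 0, nat_lit 29618, nat_lit 3697, nat_lit 7764, nat_lit 0, nat_lit 0, nat_lit 0, nat_lit 882, nat_lit 0, nat_lit 0, nat_lit 0, nat_lit 0, nat_lit 0, nat_lit 0, nat_lit 0, nat_lit 0, [],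
 ⟨p097_k20, nat_lit 0, nat_lit 0, nat_lit 90, nat_lit 0, nat_lit 16318, [nat_lit 2032000001, nat_lit 4688000000, nat_lit 9842000000], [], [nat_lit 16621493549, nat_lit 17487454707, nat_lit 20232670875, nat_lit 20929919385, nat_lit 22063117992, nat_lit 22731391798, nat_lit 24598894242, nat_lit 25145098119], nat_lit 1271250, nat_lit 1271250, nat_lit 719601, nat_lit 1758000, nat_lit 1100001, nat_lit 2196000, [nat_lit 490000, nat_lit 1100000, nat_lit 2127500], [nat_lit 27, nat_lit 40, nat_lit 40, nat_lit 80, nat_lit 13, nat_lit 373, nat_lit 150, nat_lit 10]⟩, ⟨p097_k21, nat_lit 0, nat_lit 0, nat_lit 223, nat_lit 0, nat_lit 21660, [nat_lit 3282000000, nat_lit 6250000000, nat_lit 11872000000], [], [nat_lit 43030620413, nat_lit 38912765621, nat_lit 29034457342, nat_lit 30097496262, nat_lit 27918268956, nat_lit 28630622140, nat_lit 29414624020, nat_lit 28418720947], nat_lit 1271250, nat_lit 1271250, nat_lit 719601, nat_lit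 1758000, nat_lit 0, nat_lit 2373000, [nat_lit 780000, nat_lit 1435000, nat_lit 1271250], [nat_lit 23, nat_lit 40, nat_lit 40, nat_lit 80, nat_lit 12, nat_lit 456, nat_lit 225, nat_lit 12]⟩,
 zbF0, [⟨nat_lit 0, nat_lit 90, nat_lit 74, nat_lit 100, nat_lit 548052113⟩, ⟨nat_lit 4, nat_lit 100, nat_lit 79, nat_lit 96, nat_lit 555844394⟩]⟩
noncomputable def p097_l37 : Lf2 := ⟨nat_lit 1, nat_lit 27, [nat_lit 147, nat_lit 5, nat_lit 5, nat_lit 20], false, nat_lit 160, nat_lit 300, nat_lit 0, nat_lit 336, zbN0,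
 nat_lit 0, nat_lit 0, nat_lit 0, nat_lit 0, nat_lit 0, nat_lit 0, nat_lit 0, nat_lit 0, nat_lit 0, nat_lit 0, nat_lit 0, nat_lit 0, nat_lit 0, nat_lit 0, nat_lit 0, nat_lit 0, nat_lit 0, nat_lit 0, [],
 C1.Rw.none, C1.Rw.none,
 zbF0, []⟩
noncomputable def p097_l38 : Lf2 := ⟨nat_lit 1, nat_lit 30, [nat_lit 15, nat_lit 5, nat_lit 5, nat_lit 20], false, nat_lit 160, nat_lit 300, nat_lit 0, nat_lit 336, zbN0,
 nat_lit 0, nat_lit 0, nat_lit 0, nat_lit 0, nat_lit 0, nat_lit 0, nat_lit 0, nat_lit 0, nat_lit 0, nat_lit 0, nat_lit 0, nat_lit 0, nat_lit 0, nat_lit 0, nat_lit 0, nat_lit 0, nat_lit 0, nat_lit 0, [],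
 C1.Rw.none, C1.Rw.none,
 zbF0, []⟩
noncomputable def p097_l39 : Lf2 := ⟨nat_lit 0, nat_lit 30, [nat_lit 15, nat_lit 5, nat_lit 5, nat_lit 20], false, nat_lit 160, nat_lit 276, nat_lit 0, nat_lit 160, ⟨nat_lit 1000, nat_lit 0, nat_lit 0, nat_lit 0, nat_lit 0, nat_lit 0, nat_lit 0, nat_lit 0, nat_lit 0, nat_lit 0, nat_lit 0, nat_lit 0, nat_lit 0, nat_lit 0, nat_lit 0, nat_lit 0, false, false⟩,
 nat_lit 10867, nat_lit 3406, nat_lit 0, nat_lit 0, nat_lit 11554, nat_lit 6915, nat_lit 142, nat_lit 0, nat_lit 0, nat_lit 184, nat_lit 0, nat_lit 0, nat_lit 0, nat_lit 0, nat_lit 0, nat_lit 0, nat_lit 0, nat_lit 0, [],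
 ⟨p097_k15, nat_lit 0, nat_lit 0, nat_lit 174, nat_lit 0, nat_lit 197448, [nat_lit 2032000001, nat_lit 4688000000, nat_lit 9842000000], [], [nat_lit 24847801713, nat_lit 27259773414, nat_lit 26058625474, nat_lit 27958807214, nat_lit 28693386426, nat_lit 30524818957, nat_lit 28910886755, nat_lit 31221218021], nat_lit 1271250, nat_lit 1271250, nat_lit 810650, nat_lit 1764750, nat_lit 1100001, nat_lit 2093250, [nat_lit 490000, nat_lit 1100000, nat_lit 2127500], [nat_lit 27, nat_lit 40, nat_lit 40, nat_lit 80, nat_lit 13, nat_lit 373, nat_lit 150, nat_lit 10]⟩, ⟨p097_k14, nat_lit 0, nat_lit 0, nat_lit 439, nat_lit 0, nat_lit 270063, [nat_lit 3282000000, nat_lit 6250000000, nat_lit 14058000000], [], [nat_lit 39339021989, nat_lit 40435737654, nat_lit 40575556880, nat_lit 41448793730, nat_lit 34651414674, nat_lit 35575090420, nat_lit 35643737320, nat_lit 36378080790], nat_lit 1271250, nat_lit 1271250, nat_lit 810650, nat_lit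 1764750, nat_lit 0, nat_lit 1100001, [nat_lit 780000, nat_lit 1435000, nat_lit 1271250], [nat_lit 71, nat_lit 40, nat_lit 40, nat_lit 80, nat_lit 68, nat_lit 401, nat_lit 175, nat_lit 9]⟩,
 zbF0, [⟨nat_lit 0, nat_lit 92, nat_lit 68, nat_lit 100, nat_lit 642619841⟩, ⟨nat_lit 4, nat_lit 100, nat_lit 67, nat_lit 88, nat_lit 601272910⟩]⟩
noncomputable def p097_l40 : Lf2 := ⟨nat_lit 0, nat_lit 30, [nat_lit 15, nat_lit 5, nat_lit 5, nat_lit 20], false, nat_lit 160, nat_lit 276, nat_lit 160, nat_lit 240, ⟨nat_lit 1000, nat_lit 0, nat_lit 0, nat_lit 0, nat_lit 0, nat_lit 0, nat_lit 0, nat_lit 0, nat_lit 0, nat_lit 0, nat_lit 0, nat_lit 0, nat_lit 0, nat_lit 0, nat_lit 0, nat_lit 0, false, false⟩,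
 nat_lit 21195, nat_lit 0, nat_lit 0, nat_lit 0, nat_lit 13477, nat_lit 13487, nat_lit 0, nat_lit 0, nat_lit 0, nat_lit 1088, nat_lit 0, nat_lit 0, nat_lit 0, nat_lit 0, nat_lit 0, nat_lit 0, nat_lit 0, nat_lit 0, [],
 ⟨p097_k6, nat_lit 0, nat_lit 0, nat_lit 179, nat_lit 0, nat_lit 197448, [nat_lit 2032000001, nat_lit 6250000000, nat_lit 9842000000], [], [nat_lit 25537227122, nat_lit 28242442092, nat_lit 24931264982, nat_lit 27469679552, nat_lit 29539740999, nat_lit 31978882228, nat_lit 28527643966, nat_lit 31065213726], nat_lit 1271250, nat_lit 1271250, nat_lit 810650, nat_lit 1100001, nat_lit 1100001, nat_lit 2093250, [nat_lit 490000, nat_lit 1427500, nat_lit 1271250], [nat_lit 61, nat_lit 40, nat_lit 40, nat_lit 80, nat_lit 1, nat_lit 345, nat_lit 125, nat_lit 9]⟩, ⟨p097_k7, nat_lit 0, nat_lit 0, nat_lit 263, nat_lit 0, nat_lit 270063, [nat_lit 3282000000, nat_lit 7968000000, nat_lit 14058000000], [], [nat_lit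 16148376400, nat_lit 17909143750, nat_lit 15374469312, nat_lit 17019380882, nat_lit 17513977027, nat_lit 18949410106, nat_lit 16522637592, nat_lit 17860174698], nat_lit 1271250, nat_lit 1271250, nat_lit 810650, nat_lit 1100001, nat_lit 1100001, nat_lit 1785000, [nat_lit 780000, nat_lit 1762500, nat_lit 1271250], [nat_lit 84, nat_lit 40, nat_lit 40, nat_lit 80, nat_lit 28, nat_lit 401, nat_lit 175, nat_lit 9]⟩,
 zbF0, [⟨nat_lit 0, nat_lit 92, nat_lit 68, nat_lit 100, nat_lit 1465165524⟩, ⟨nat_lit 4, nat_lit 100, nat_lit 67, nat_lit 88, nat_lit 625497112⟩]⟩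
noncomputable def p097_l41 : Lf2 := ⟨nat_lit 0, nat_lit 22, [nat_lit 146, nat_lit 5, nat_lit 5, nat_lit 20], false, nat_lit 160, nat_lit 276, nat_lit 240, nat_lit 336, ⟨nat_lit 1000, nat_lit 0, nat_lit 0, nat_lit 0, nat_lit 0, nat_lit 0, nat_lit 0, nat_lit 0, nat_lit 0, nat_lit 0, nat_lit 0, nat_lit 0, nat_lit 0, nat_lit 0, nat_lit 0, nat_lit 0, false, false⟩,
 nat_lit 28390, nat_lit 0, nat_lit 0, nat_lit 1121, nat_lit 10827, nat_lit 18066, nat_lit 0, nat_lit 0, nat_lit 0, nat_lit 0, nat_lit 0, nat_lit 0, nat_lit 0, nat_lit 0, nat_lit 0, nat_lit 0, nat_lit 0, nat_lit 0, [],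
 ⟨p097_k22, nat_lit 0, nat_lit 0, nat_lit 147, nat_lit 0, nat_lit 177006, [nat_lit 2032000001, nat_lit 6250000000, nat_lit 7968000000], [], [nat_lit 22292455230, nat_lit 24857427099, nat_lit 22147456680, nat_lit 24557837424, nat_lit 26899906906, nat_lit 29699225187, nat_lit 26491622016, nat_lit 29124690806], nat_lit 1271250, nat_lit 1271250, nat_lit 810650, nat_lit 1100001, nat_lit 1100001, nat_lit 2093250, [nat_lit 490000, nat_lit 1427500, nat_lit 1271250], [nat_lit 102, nat_lit 40, nat_lit 40, nat_lit 80, nat_lit 2, nat_lit 345, nat_lit 125, nat_lit 10]⟩, ⟨p097_k11, nat_lit 0, nat_lit 0, nat_lit 224, nat_lit 0, nat_lit 240833, [nat_lit 3282000000, nat_lit 7968000000, nat_lit 11872000000], [], [nat_lit 24130851760, nat_lit 26226954380, nat_lit 22919064536, nat_lit 24865711572, nat_lit 32436457259, nat_lit 33940630721, nat_lit 30601844029, nat_lit 32548124749], nat_lit 1271250, nat_lit 1271250, nat_lit 810650, nat_lit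 1100001, nat_lit 1271250, nat_lit 1271250, [nat_lit 780000, nat_lit 1762500, nat_lit 1271250], [nat_lit 79, nat_lit 40, nat_lit 40, nat_lit 80, nat_lit 14, nat_lit 428, nat_lit 200, nat_lit 10]⟩,
 zbF0, [⟨nat_lit 0, nat_lit 92, nat_lit 68, nat_lit 100, nat_lit 1287716501⟩, ⟨nat_lit 16, nat_lit 67, nat_lit 100, nat_lit 88, nat_lit 696459971⟩, ⟨nat_lit 7, nat_lit 94, nat_lit 100, nat_lit 97, nat_lit 668092790⟩]⟩
noncomputable def p097_l42 : Lf2 := ⟨nat_lit 0, nat_lit 25, [nat_lit 44, nat_lit 5, nat_lit 5, nat_lit 20], false, nat_lit 160, nat_lit 276, nat_lit 240, nat_lit 336, ⟨nat_lit 1000, nat_lit 0, nat_lit 0, nat_lit 0, nat_lit 0, nat_lit 0, nat_lit 0, nat_lit 0, nat_lit 0, nat_lit 0, nat_lit 0, nat_lit 0, nat_lit 0, nat_lit 0, nat_lit 0, nat_lit 0, false, false⟩,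
 nat_lit 28390, nat_lit 0, nat_lit 0, nat_lit 3488, nat_lit 13836, nat_lit 18066, nat_lit 0, nat_lit 0, nat_lit 0, nat_lit 0, nat_lit 0, nat_lit 0, nat_lit 0, nat_lit 0, nat_lit 0, nat_lit 0, nat_lit 0, nat_lit 0, [],
 ⟨p097_k2, nat_lit 0, nat_lit 0, nat_lit 164, nat_lit 0, nat_lit 153666, [nat_lit 2032000001, nat_lit 6250000000, nat_lit 9842000000], [], [nat_lit 25350883936, nat_lit 28110843749, nat_lit 24707811176, nat_lit 27296991936, nat_lit 29382694521, nat_lit 32287711238, nat_lit 28324288955, nat_lit 31328099661], nat_lit 1271250, nat_lit 1271250, nat_lit 810650, nat_lit 1100001, nat_lit 1100001, nat_lit 2093250, [nat_lit 490000, nat_lit 1427500, nat_lit 1271250], [nat_lit 61, nat_lit 40, nat_lit 40, nat_lit 80, nat_lit 1, nat_lit 345, nat_lit 125, nat_lit 9]⟩, ⟨p097_k1, nat_lit 0, nat_lit 0, nat_lit 212, nat_lit 0, nat_lit 209507, [nat_lit 3282000000, nat_lit 7968000000, nat_lit 11872000000], [], [nat_lit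 24130851760, nat_lit 26226954380, nat_lit 22919064536, nat_lit 24865711572, nat_lit 32436457259, nat_lit 33940630721, nat_lit 30601844029, nat_lit 32548124749], nat_lit 1271250, nat_lit 1271250, nat_lit 810650, nat_lit 1100001, nat_lit 1271250, nat_lit 1271250, [nat_lit 780000, nat_lit 1762500, nat_lit 1271250], [nat_lit 79, nat_lit 40, nat_lit 40, nat_lit 80, nat_lit 14, nat_lit 428, nat_lit 200, nat_lit 10]⟩,
 zbF0, [⟨nat_lit 0, nat_lit 92, nat_lit 68, nat_lit 100, nat_lit 1389339733⟩, ⟨nat_lit 16, nat_lit 67, nat_lit 100, nat_lit 88, nat_lit 657330603⟩, ⟨nat_lit 7, nat_lit 94, nat_lit 100, nat_lit 97, nat_lit 668092790⟩]⟩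
noncomputable def p097_l43 : Lf2 := ⟨nat_lit 0, nat_lit 25, [nat_lit 44, nat_lit 5, nat_lit 5, nat_lit 20], false, nat_lit 160, nat_lit 256, nat_lit 240, nat_lit 320, ⟨nat_lit 1000, nat_lit 0, nat_lit 0, nat_lit 0, nat_lit 0, nat_lit 0, nat_lit 0, nat_lit 0, nat_lit 0, nat_lit 0, nat_lit 0, nat_lit 0, nat_lit 0, nat_lit 0, nat_lit 0, nat_lit 0, false, false⟩,
 nat_lit 30485, nat_lit 0, nat_lit 0, nat_lit 653, nat_lit 14358, nat_lit 19399, nat_lit 0, nat_lit 0, nat_lit 0, nat_lit 0, nat_lit 0, nat_lit 0, nat_lit 0, nat_lit 0, nat_lit 0, nat_lit 0, nat_lit 0, nat_lit 0, [],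
 ⟨p097_k2, nat_lit 0, nat_lit 0, nat_lit 145, nat_lit 0, nat_lit 104130, [nat_lit 2032000001, nat_lit 6250000000, nat_lit 9842000000], [], [nat_lit 25079933676, nat_lit 27919494627, nat_lit 24382900628, nat_lit 27045897408, nat_lit 27893102129, nat_lit 30755261782, nat_lit 26862441233, nat_lit 29858879295], nat_lit 1271250, nat_lit 1271250, nat_lit 810650, nat_lit 1100001, nat_lit 1100001, nat_lit 1922000, [nat_lit 490000, nat_lit 1427500, nat_lit 1271250], [nat_lit 61, nat_lit 40, nat_lit 40, nat_lit 80, nat_lit 1, nat_lit 345, nat_lit 125, nat_lit 9]⟩, ⟨p097_k1, nat_lit 0, nat_lit 0, nat_lit 181, nat_lit 0, nat_lit 141970, [nat_lit 3282000000, nat_lit 7968000000, nat_lit 11872000000], [], [nat_lit 23261843999, nat_lit 25470678429, nat_lit 21904379604, nat_lit 23953728958, nat_lit 30017313747, nat_lit 31633631820, nat_lit 28121533460, nat_lit 30170126908], nat_lit 1271250, nat_lit 1271250, nat_lit 810650, nat_lit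 1100001, nat_lit 1271250, nat_lit 1271250, [nat_lit 780000, nat_lit 1762500, nat_lit 1271250], [nat_lit 79, nat_lit 40, nat_lit 40, nat_lit 80, nat_lit 14, nat_lit 428, nat_lit 200, nat_lit 10]⟩,
 zbF0, [⟨nat_lit 0, nat_lit 92, nat_lit 68, nat_lit 100, nat_lit 1414900967⟩, ⟨nat_lit 4, nat_lit 100, nat_lit 67, nat_lit 84, nat_lit 631520009⟩, ⟨nat_lit 7, nat_lit 97, nat_lit 100, nat_lit 94, nat_lit 672960050⟩]⟩
noncomputable def p097_l44 : Lf2 := ⟨nat_lit 0, nat_lit 30, [nat_lit 15, nat_lit 5, nat_lit 5, nat_lit 20], false, nat_lit 160, nat_lit 276, nat_lit 240, nat_lit 336, ⟨nat_lit 1000, nat_lit 0, nat_lit 0, nat_lit 0, nat_lit 0, nat_lit 0, nat_lit 0, nat_lit 0, nat_lit 0, nat_lit 0, nat_lit 0, nat_lit 0, nat_lit 0, nat_lit 0, nat_lit 0, nat_lit 0, false, false⟩,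
 nat_lit 17000, nat_lit 0, nat_lit 0, nat_lit 29780, nat_lit 7933, nat_lit 10818, nat_lit 0, nat_lit 0, nat_lit 0, nat_lit 862, nat_lit 0, nat_lit 0, nat_lit 0, nat_lit 0, nat_lit 0, nat_lit 0, nat_lit 0, nat_lit 0, [],
 ⟨p097_k6, nat_lit 0, nat_lit 0, nat_lit 84, nat_lit 0, nat_lit 48743, [nat_lit 2032000001, nat_lit 6250000000, nat_lit 9842000000], [], [nat_lit 20704045476, nat_lit 22959593294, nat_lit 20938170428, nat_lit 23062679884, nat_lit 25458818280, nat_lit 27209667649, nat_lit 25363600539, nat_lit 27005737079], nat_lit 1271250, nat_lit 1271250, nat_lit 810650, nat_lit 1100001, nat_lit 1100001, nat_lit 2093250, [nat_lit 490000, nat_lit 1427500, nat_lit 1271250], [nat_lit 61, nat_lit 40, nat_lit 40, nat_lit 80, nat_lit 1, nat_lit 345, nat_lit 125, nat_lit 9]⟩, ⟨p097_k7, nat_lit 0, nat_lit 0, nat_lit 192, nat_lit 0, nat_lit 66669, [nat_lit 3282000000, nat_lit 7968000000, nat_lit 14058000000], [], [nat_lit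 21986906565, nat_lit 23245770882, nat_lit 21336617288, nat_lit 22514279692, nat_lit 27044125035, nat_lit 28460830767, nat_lit 26057749280, nat_lit 27954655463], nat_lit 1271250, nat_lit 1271250, nat_lit 810650, nat_lit 1100001, nat_lit 1271250, nat_lit 1271250, [nat_lit 780000, nat_lit 1762500, nat_lit 1271250], [nat_lit 84, nat_lit 40, nat_lit 40, nat_lit 80, nat_lit 28, nat_lit 428, nat_lit 200, nat_lit 9]⟩,
 zbF0, [⟨nat_lit 0, nat_lit 87, nat_lit 60, nat_lit 100, nat_lit 1720174900⟩, ⟨nat_lit 4, nat_lit 100, nat_lit 68, nat_lit 92, nat_lit 613387769⟩, ⟨nat_lit 7, nat_lit 90, nat_lit 100, nat_lit 100, nat_lit 493600762⟩]⟩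
noncomputable def p097_l45 : Lf2 := ⟨nat_lit 0, nat_lit 25, [nat_lit 44, nat_lit 5, nat_lit 5, nat_lit 20], false, nat_lit 160, nat_lit 276, nat_lit 160, nat_lit 336, ⟨nat_lit 1000, nat_lit 0, nat_lit 0, nat_lit 0, nat_lit 0, nat_lit 0, nat_lit 0, nat_lit 0, nat_lit 0, nat_lit 0, nat_lit 0, nat_lit 0, nat_lit 0, nat_lit 0, nat_lit 0, nat_lit 0, false, false⟩,
 nat_lit 20889, nat_lit 0, nat_lit 0, nat_lit 0, nat_lit 13452, nat_lit 13293, nat_lit 0, nat_lit 0, nat_lit 0, nat_lit 465, nat_lit 0, nat_lit 0, nat_lit 0, nat_lit 0, nat_lit 0, nat_lit 0, nat_lit 0, nat_lit 0, [],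
 ⟨p097_k23, nat_lit 0, nat_lit 0, nat_lit 142, nat_lit 0, nat_lit 135431, [nat_lit 2032000001, nat_lit 4688000000, nat_lit 9842000000], [], [nat_lit 24946825832, nat_lit 26214265492, nat_lit 26516503912, nat_lit 27574125972, nat_lit 28541805179, nat_lit 29496547607, nat_lit 29955967880, nat_lit 31247498076], nat_lit 1271250, nat_lit 1271250, nat_lit 1100001, nat_lit 1785000, nat_lit 1100001, nat_lit 2093250, [nat_lit 490000, nat_lit 1100000, nat_lit 2127500], [nat_lit 27, nat_lit 40, nat_lit 40, nat_lit 80, nat_lit 13, nat_lit 373, nat_lit 150, nat_lit 10]⟩, ⟨p097_k19, nat_lit 0, nat_lit 0, nat_lit 186, nat_lit 0, nat_lit 184645, [nat_lit 3282000000, nat_lit 6250000000, nat_lit 11872000000], [], [nat_lit 20103757083, nat_lit 22034741559, nat_lit 22092650603, nat_lit 23671557081, nat_lit 28419703358, nat_lit 29523203543, nat_lit 29403969785, nat_lit 31191920531], nat_lit 1271250, nat_lit 1271250, nat_lit 1100001,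 nat_lit 1785000, nat_lit 1271250, nat_lit 1271250, [nat_lit 780000, nat_lit 1435000, nat_lit 1271250], [nat_lit 23, nat_lit 40, nat_lit 40, nat_lit 80, nat_lit 12, nat_lit 456, nat_lit 225, nat_lit 11]⟩,
 zbF0, [⟨nat_lit 0, nat_lit 88, nat_lit 67, nat_lit 100, nat_lit 89105846⟩, ⟨nat_lit 4, nat_lit 100, nat_lit 71, nat_lit 89, nat_lit 562198623⟩, ⟨nat_lit 7, nat_lit 94, nat_lit 100, nat_lit 97, nat_lit 454734624⟩]⟩
noncomputable def p097_l46 : Lf2 := ⟨nat_lit 0, nat_lit 25, [nat_lit 44, nat_lit 5, nat_lit 5, nat_lit 20], false, nat_lit 160, nat_lit 264, nat_lit 160, nat_lit 336, ⟨nat_lit 1000, nat_lit 0, nat_lit 0, nat_lit 0, nat_lit 0, nat_lit 0, nat_lit 0, nat_lit 0, nat_lit 0, nat_lit 0, nat_lit 0, nat_lit 0, nat_lit 0, nat_lit 0, nat_lit 0, nat_lit 0, false, false⟩,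
 nat_lit 17908, nat_lit 0, nat_lit 0, nat_lit 0, nat_lit 10323, nat_lit 11396, nat_lit 0, nat_lit 0, nat_lit 0, nat_lit 676, nat_lit 0, nat_lit 0, nat_lit 0, nat_lit 0, nat_lit 0, nat_lit 0, nat_lit 0, nat_lit 0, [],
 ⟨p097_k24, nat_lit 0, nat_lit 0, nat_lit 133, nat_lit 0, nat_lit 178608, [nat_lit 2032000001, nat_lit 4688000000, nat_lit 7968000000], [], [nat_lit 23692506348, nat_lit 24856955376, nat_lit 25645738812, nat_lit 26624999820, nat_lit 26936195521, nat_lit 27855481661, nat_lit 28527068299, nat_lit 29630938263], nat_lit 1271250, nat_lit 1271250, nat_lit 1100001, nat_lit 1785000, nat_lit 1100001, nat_lit 1990500, [nat_lit 490000, nat_lit 1100000, nat_lit 1785000], [nat_lit 34, nat_lit 40, nat_lit 40, nat_lit 80, nat_lit 7, nat_lit 373, nat_lit 150, nat_lit 11]⟩, ⟨p097_k19, nat_lit 0, nat_lit 0, nat_lit 209, nat_lit 0, nat_lit 255074, [nat_lit 3282000000, nat_lit 6250000000, nat_lit 11872000000], [], [nat_lit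 19695123968, nat_lit 21269043148, nat_lit 21513032716, nat_lit 22945782932, nat_lit 27301260073, nat_lit 28320966893, nat_lit 28421677386, nat_lit 30039046098], nat_lit 1271250, nat_lit 1271250, nat_lit 1100001, nat_lit 1785000, nat_lit 1271250, nat_lit 1271250, [nat_lit 780000, nat_lit 1435000, nat_lit 1271250], [nat_lit 23, nat_lit 40, nat_lit 40, nat_lit 80, nat_lit 12, nat_lit 456, nat_lit 225, nat_lit 11]⟩,
 zbF0, [⟨nat_lit 0, nat_lit 91, nat_lit 65, nat_lit 100, nat_lit 172322405⟩, ⟨nat_lit 0, nat_lit 87, nat_lit 60, nat_lit 100, nat_lit 278076027⟩, ⟨nat_lit 16, nat_lit 64, nat_lit 100, nat_lit 88, nat_lit 630345371⟩, ⟨nat_lit 19, nat_lit 100, nat_lit 80, nat_lit 100, nat_lit 428660773⟩]⟩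
noncomputable def p097_l47 : Lf2 := ⟨nat_lit 0, nat_lit 30, [nat_lit 15, nat_lit 5, nat_lit 5, nat_lit 20], false, nat_lit 160, nat_lit 276, nat_lit 160, nat_lit 336, ⟨nat_lit 1000, nat_lit 0, nat_lit 0, nat_lit 0, nat_lit 0, nat_lit 0, nat_lit 0, nat_lit 0, nat_lit 0, nat_lit 0, nat_lit 0, nat_lit 0, nat_lit 0, nat_lit 0, nat_lit 0, nat_lit 0, false, false⟩,
 nat_lit 16241, nat_lit 0, nat_lit 0, nat_lit 16492, nat_lit 8125, nat_lit 10335, nat_lit 0, nat_lit 0, nat_lit 0, nat_lit 820, nat_lit 0, nat_lit 0, nat_lit 0, nat_lit 0, nat_lit 0, nat_lit 0, nat_lit 0, nat_lit 0, [],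
 ⟨p097_k6, nat_lit 0, nat_lit 0, nat_lit 75, nat_lit 0, nat_lit 70077, [nat_lit 2032000001, nat_lit 6250000000, nat_lit 9842000000], [], [nat_lit 20778717500, nat_lit 21858370500, nat_lit 23243436500, nat_lit 24157070500, nat_lit 25237680238, nat_lit 26071182457, nat_lit 27022802888, nat_lit 27931607044], nat_lit 1271250, nat_lit 1271250, nat_lit 1100001, nat_lit 1785000, nat_lit 1100001, nat_lit 2093250, [nat_lit 490000, nat_lit 1427500, nat_lit 1271250], [nat_lit 61, nat_lit 40, nat_lit 40, nat_lit 80, nat_lit 1, nat_lit 373, nat_lit 150, nat_lit 10]⟩, ⟨p097_k7, nat_lit 0, nat_lit 0, nat_lit 189, nat_lit 0, nat_lit 95849, [nat_lit 3282000000, nat_lit 7968000000, nat_lit 14058000000], [], [nat_lit 20907306960, nat_lit 22299711810, nat_lit 22224296360, nat_lit 23373085990, nat_lit 26840333656, nat_lit 27652983103, nat_lit 27872277157, nat_lit 29394238626], nat_lit 1271250, nat_lit 1271250, nat_lit 1100001, nat_lit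 1785000, nat_lit 1271250, nat_lit 1271250, [nat_lit 780000, nat_lit 1762500, nat_lit 1271250], [nat_lit 84, nat_lit 40, nat_lit 40, nat_lit 80, nat_lit 28, nat_lit 456, nat_lit 225, nat_lit 10]⟩,
 zbF0, [⟨nat_lit 0, nat_lit 88, nat_lit 67, nat_lit 100, nat_lit 370015890⟩, ⟨nat_lit 4, nat_lit 100, nat_lit 71, nat_lit 89, nat_lit 625674988⟩, ⟨nat_lit 7, nat_lit 94, nat_lit 100, nat_lit 97, nat_lit 392249610⟩]⟩
noncomputable def p097_l48 : Lf2 := ⟨nat_lit 0, nat_lit 30, [nat_lit 15, nat_lit 5, nat_lit 5, nat_lit 20], false, nat_lit 160, nat_lit 264, nat_lit 160, nat_lit 336, ⟨nat_lit 1000, nat_lit 0, nat_lit 0, nat_lit 0, nat_lit 0, nat_lit 0, nat_lit 0, nat_lit 0, nat_lit 0, nat_lit 0, nat_lit 0, nat_lit 0, nat_lit 0, nat_lit 0, nat_lit 0, nat_lit 0, false, false⟩,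
 nat_lit 17213, nat_lit 0, nat_lit 0, nat_lit 6565, nat_lit 8071, nat_lit 10953, nat_lit 0, nat_lit 0, nat_lit 0, nat_lit 782, nat_lit 0, nat_lit 0, nat_lit 0, nat_lit 0, nat_lit 0, nat_lit 0, nat_lit 0, nat_lit 0, [],
 ⟨p097_k8, nat_lit 0, nat_lit 0, nat_lit 93, nat_lit 0, nat_lit 116626, [nat_lit 2032000001, nat_lit 6250000000, nat_lit 9842000000], [], [nat_lit 21898323372, nat_lit 22973083108, nat_lit 24195173980, nat_lit 25104854748, nat_lit 25467124989, nat_lit 26323688692, nat_lit 27218837585, nat_lit 28153741565], nat_lit 1271250, nat_lit 1271250, nat_lit 1100001, nat_lit 1785000, nat_lit 1100001, nat_lit 1990500, [nat_lit 490000, nat_lit 1427500, nat_lit 1271250], [nat_lit 61, nat_lit 40, nat_lit 40, nat_lit 80, nat_lit 1, nat_lit 373, nat_lit 150, nat_lit 10]⟩, ⟨p097_k7, nat_lit 0, nat_lit 0, nat_lit 214, nat_lit 0, nat_lit 167166, [nat_lit 3282000000, nat_lit 7968000000, nat_lit 14058000000], [], [nat_lit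 21179559128, nat_lit 22621471958, nat_lit 26343938568, nat_lit 23649180882, nat_lit 27209202461, nat_lit 28041274164, nat_lit 28192285961, nat_lit 29769819227], nat_lit 1271250, nat_lit 1271250, nat_lit 1100001, nat_lit 1785000, nat_lit 1271250, nat_lit 1271250, [nat_lit 780000, nat_lit 1762500, nat_lit 1271250], [nat_lit 84, nat_lit 40, nat_lit 40, nat_lit 80, nat_lit 28, nat_lit 456, nat_lit 225, nat_lit 10]⟩,
 zbF0, [⟨nat_lit 0, nat_lit 87, nat_lit 60, nat_lit 100, nat_lit 112414284⟩, ⟨nat_lit 4, nat_lit 100, nat_lit 64, nat_lit 88, nat_lit 660400561⟩, ⟨nat_lit 7, nat_lit 94, nat_lit 100, nat_lit 97, nat_lit 394200721⟩]⟩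
noncomputable def p097_l49 : Lf2 := ⟨nat_lit 0, nat_lit 30, [nat_lit 15, nat_lit 5, nat_lit 5, nat_lit 20], false, nat_lit 160, nat_lit 300, nat_lit 0, nat_lit 160, ⟨nat_lit 1000, nat_lit 0, nat_lit 0, nat_lit 0, nat_lit 0, nat_lit 0, nat_lit 0, nat_lit 0, nat_lit 0, nat_lit 0, nat_lit 0, nat_lit 0, nat_lit 0, nat_lit 0, nat_lit 0, nat_lit 0, false, false⟩,
 nat_lit 11152, nat_lit 0, nat_lit 0, nat_lit 6970, nat_lit 8363, nat_lit 7720, nat_lit 669, nat_lit 0, nat_lit 0, nat_lit 238, nat_lit 0, nat_lit 0, nat_lit 0, nat_lit 0, nat_lit 0, nat_lit 0, nat_lit 0, nat_lit 0, [],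
 ⟨p097_k13, nat_lit 0, nat_lit 0, nat_lit 233, nat_lit 0, nat_lit 293955, [nat_lit 2032000001, nat_lit 4688000000, nat_lit 11872000000], [], [nat_lit 22446582071, nat_lit 25891495071, nat_lit 23786650719, nat_lit 26527545211, nat_lit 26830330204, nat_lit 29322105387, nat_lit 26870074375, nat_lit 30326417424], nat_lit 1271250, nat_lit 1271250, nat_lit 780000, nat_lit 1762500, nat_lit 1271250, nat_lit 1271250, [nat_lit 490000, nat_lit 1100000, nat_lit 2470000], [nat_lit 75, nat_lit 40, nat_lit 40, nat_lit 80, nat_lit 65, nat_lit 373, nat_lit 150, nat_lit 9]⟩, ⟨p097_k25, nat_lit 0, nat_lit 0, nat_lit 403, nat_lit 0, nat_lit 326196, [nat_lit 3282000000, nat_lit 6250000000, nat_lit 11872000000], [], [nat_lit 34050637000, nat_lit 35401860280, nat_lit 35676148510, nat_lit 37040458110, nat_lit 28840600680, nat_lit 29966478680, nat_lit 32951816980, nat_lit 30856205720], nat_lit 1271250, nat_lit 1271250, nat_lit 780000, nat_lit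 1762500, nat_lit 0, nat_lit 1100001, [nat_lit 780000, nat_lit 1435000, nat_lit 1271250], [nat_lit 23, nat_lit 40, nat_lit 40, nat_lit 80, nat_lit 12, nat_lit 428, nat_lit 200, nat_lit 11]⟩,
 zbF0, [⟨nat_lit 0, nat_lit 85, nat_lit 73, nat_lit 100, nat_lit 572764627⟩, ⟨nat_lit 4, nat_lit 100, nat_lit 74, nat_lit 90, nat_lit 513734505⟩]⟩
noncomputable def p097_l50 : Lf2 := ⟨nat_lit 0, nat_lit 25, [nat_lit 44, nat_lit 5, nat_lit 5, nat_lit 20], false, nat_lit 160, nat_lit 300, nat_lit 160, nat_lit 320, ⟨nat_lit 1000, nat_lit 0, nat_lit 0, nat_lit 0, nat_lit 0, nat_lit 0, nat_lit 0, nat_lit 0, nat_lit 0, nat_lit 0, nat_lit 0, nat_lit 0, nat_lit 0, nat_lit 0, nat_lit 0, nat_lit 0, false, false⟩,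
 nat_lit 18876, nat_lit 0, nat_lit 0, nat_lit 10251, nat_lit 14157, nat_lit 13068, nat_lit 0, nat_lit 0, nat_lit 0, nat_lit 484, nat_lit 0, nat_lit 0, nat_lit 0, nat_lit 0, nat_lit 0, nat_lit 0, nat_lit 0, nat_lit 0, [],
 ⟨p097_k18, nat_lit 0, nat_lit 0, nat_lit 165, nat_lit 0, nat_lit 175518, [nat_lit 2032000001, nat_lit 4688000000, nat_lit 9842000000], [], [nat_lit 22431123900, nat_lit 25259404568, nat_lit 21873436492, nat_lit 24508009862, nat_lit 28905161792, nat_lit 31842115258, nat_lit 27785457182, nat_lit 30774708609], nat_lit 1271250, nat_lit 1271250, nat_lit 780000, nat_lit 1100001, nat_lit 1100001, nat_lit 2298750, [nat_lit 490000, nat_lit 1100000, nat_lit 2127500], [nat_lit 27, nat_lit 40, nat_lit 40, nat_lit 80, nat_lit 13, nat_lit 345, nat_lit 125, nat_lit 9]⟩, ⟨p097_k26, nat_lit 0, nat_lit 0, nat_lit 201, nat_lit 0, nat_lit 194561, [nat_lit 3282000000, nat_lit 6250000000, nat_lit 11872000000], [], [nat_lit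 21896902828, nat_lit 23953163556, nat_lit 21302944884, nat_lit 23211264660, nat_lit 28690211988, nat_lit 30215930576, nat_lit 27432359116, nat_lit 29338273744], nat_lit 1271250, nat_lit 1271250, nat_lit 780000, nat_lit 1100001, nat_lit 1100001, nat_lit 2470000, [nat_lit 780000, nat_lit 1435000, nat_lit 1271250], [nat_lit 23, nat_lit 40, nat_lit 40, nat_lit 80, nat_lit 12, nat_lit 428, nat_lit 200, nat_lit 10]⟩,
 zbF0, [⟨nat_lit 0, nat_lit 87, nat_lit 79, nat_lit 100, nat_lit 1133833954⟩, ⟨nat_lit 16, nat_lit 81, nat_lit 100, nat_lit 92, nat_lit 595063642⟩, ⟨nat_lit 7, nat_lit 100, nat_lit 93, nat_lit 97, nat_lit 461195857⟩]⟩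
noncomputable def p097_l51 : Lf2 := ⟨nat_lit 0, nat_lit 25, [nat_lit 44, nat_lit 5, nat_lit 5, nat_lit 20], false, nat_lit 160, nat_lit 300, nat_lit 160, nat_lit 320, ⟨nat_lit 1000, nat_lit 0, nat_lit 0, nat_lit 0, nat_lit 0, nat_lit 0, nat_lit 0, nat_lit 0, nat_lit 0, nat_lit 0, nat_lit 0, nat_lit 0, nat_lit 0, nat_lit 0, nat_lit 0, nat_lit 0, false, false⟩,
 nat_lit 20296, nat_lit 0, nat_lit 0, nat_lit 0, nat_lit 13107, nat_lit 14051, nat_lit 0, nat_lit 0, nat_lit 0, nat_lit 322, nat_lit 0, nat_lit 0, nat_lit 0, nat_lit 0, nat_lit 0, nat_lit 0, nat_lit 0, nat_lit 0, [],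
 ⟨p097_k18, nat_lit 0, nat_lit 0, nat_lit 154, nat_lit 0, nat_lit 175518, [nat_lit 2032000001, nat_lit 4688000000, nat_lit 9842000000], [], [nat_lit 22675472692, nat_lit 25161565562, nat_lit 24663875172, nat_lit 26740027342, nat_lit 28327520628, nat_lit 30068698290, nat_lit 29285363375, nat_lit 31634816256], nat_lit 1271250, nat_lit 1271250, nat_lit 1100001, nat_lit 1785000, nat_lit 1100001, nat_lit 2298750, [nat_lit 490000, nat_lit 1100000, nat_lit 2127500], [nat_lit 27, nat_lit 40, nat_lit 40, nat_lit 80, nat_lit 13, nat_lit 373, nat_lit 150, nat_lit 10]⟩, ⟨p097_k26, nat_lit 0, nat_lit 0, nat_lit 187, nat_lit 0, nat_lit 194561, [nat_lit 3282000000, nat_lit 6250000000, nat_lit 11872000000], [], [nat_lit 22438674538, nat_lit 24446013870, nat_lit 24059537192, nat_lit 25696844538, nat_lit 28729275212, nat_lit 29951573634, nat_lit 29569290208, nat_lit 31557076688], nat_lit 1271250, nat_lit 1271250, nat_lit 1100001,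 nat_lit 1785000, nat_lit 1100001, nat_lit 2470000, [nat_lit 780000, nat_lit 1435000, nat_lit 1271250], [nat_lit 23, nat_lit 40, nat_lit 40, nat_lit 80, nat_lit 12, nat_lit 456, nat_lit 225, nat_lit 11]⟩,
 zbF0, [⟨nat_lit 0, nat_lit 81, nat_lit 72, nat_lit 100, nat_lit 340447021⟩, ⟨nat_lit 4, nat_lit 100, nat_lit 81, nat_lit 92, nat_lit 529902563⟩, ⟨nat_lit 19, nat_lit 93, nat_lit 100, nat_lit 97, nat_lit 439584680⟩]⟩
noncomputable def p097_l52 : Lf2 := ⟨nat_lit 0, nat_lit 30, [nat_lit 15, nat_lit 5, nat_lit 5, nat_lit 20], false, nat_lit 160, nat_lit 300, nat_lit 160, nat_lit 320, ⟨nat_lit 1000, nat_lit 0, nat_lit 0, nat_lit 0, nat_lit 0, nat_lit 0, nat_lit 0, nat_lit 0, nat_lit 0, nat_lit 0, nat_lit 0, nat_lit 0, nat_lit 0, nat_lit 0, nat_lit 0, nat_lit 0, false, false⟩,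
 nat_lit 25086, nat_lit 0, nat_lit 0, nat_lit 10884, nat_lit 17931, nat_lit 17367, nat_lit 0, nat_lit 0, nat_lit 0, nat_lit 0, nat_lit 0, nat_lit 0, nat_lit 0, nat_lit 0, nat_lit 0, nat_lit 0, nat_lit 0, nat_lit 0, [],
 ⟨p097_k13, nat_lit 0, nat_lit 0, nat_lit 172, nat_lit 0, nat_lit 103726, [nat_lit 2032000001, nat_lit 4688000000, nat_lit 11872000000], [], [nat_lit 27155014752, nat_lit 30135663252, nat_lit 25817048220, nat_lit 28588043848, nat_lit 32570107173, nat_lit 34908845014, nat_lit 30546006910, nat_lit 33316259847], nat_lit 1271250, nat_lit 1271250, nat_lit 780000, nat_lit 1100001, nat_lit 1100001, nat_lit 2298750, [nat_lit 490000, nat_lit 1100000, nat_lit 2470000], [nat_lit 75, nat_lit 40, nat_lit 40, nat_lit 80, nat_lit 65, nat_lit 345, nat_lit 125, nat_lit 8]⟩, ⟨p097_k25, nat_lit 0, nat_lit 0, nat_lit 175, nat_lit 0, nat_lit 115102, [nat_lit 3282000000, nat_lit 6250000000, nat_lit 11872000000], [], [nat_lit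 24870708682, nat_lit 27403066464, nat_lit 23792863896, nat_lit 26134230540, nat_lit 32555501472, nat_lit 34070246944, nat_lit 30627202354, nat_lit 32016368528], nat_lit 1271250, nat_lit 1271250, nat_lit 780000, nat_lit 1100001, nat_lit 1100001, nat_lit 2470000, [nat_lit 780000, nat_lit 1435000, nat_lit 1271250], [nat_lit 23, nat_lit 40, nat_lit 40, nat_lit 80, nat_lit 12, nat_lit 428, nat_lit 200, nat_lit 10]⟩,
 zbF0, [⟨nat_lit 0, nat_lit 87, nat_lit 79, nat_lit 100, nat_lit 1484802969⟩, ⟨nat_lit 4, nat_lit 100, nat_lit 81, nat_lit 92, nat_lit 521361067⟩, ⟨nat_lit 7, nat_lit 100, nat_lit 93, nat_lit 97, nat_lit 452629995⟩]⟩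
noncomputable def p097_l53 : Lf2 := ⟨nat_lit 0, nat_lit 30, [nat_lit 15, nat_lit 5, nat_lit 5, nat_lit 20], false, nat_lit 160, nat_lit 300, nat_lit 160, nat_lit 320, ⟨nat_lit 1000, nat_lit 0, nat_lit 0, nat_lit 0, nat_lit 0, nat_lit 0, nat_lit 0, nat_lit 0, nat_lit 0, nat_lit 0, nat_lit 0, nat_lit 0, nat_lit 0, nat_lit 0, nat_lit 0, nat_lit 0, false, false⟩,
 nat_lit 25086, nat_lit 0, nat_lit 0, nat_lit 0, nat_lit 17121, nat_lit 17367, nat_lit 0, nat_lit 0, nat_lit 0, nat_lit 0, nat_lit 0, nat_lit 0, nat_lit 0, nat_lit 0, nat_lit 0, nat_lit 0, nat_lit 0, nat_lit 0, [],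
 ⟨p097_k13, nat_lit 0, nat_lit 0, nat_lit 161, nat_lit 0, nat_lit 103726, [nat_lit 2032000001, nat_lit 4688000000, nat_lit 11872000000], [], [nat_lit 26272576020, nat_lit 28945733368, nat_lit 27386079448, nat_lit 29597662530, nat_lit 30941602810, nat_lit 32771283572, nat_lit 31328991125, nat_lit 34204123467], nat_lit 1271250, nat_lit 1271250, nat_lit 1271250, nat_lit 1271250, nat_lit 1100001, nat_lit 2298750, [nat_lit 490000, nat_lit 1100000, nat_lit 2470000], [nat_lit 75, nat_lit 40, nat_lit 40, nat_lit 80, nat_lit 65, nat_lit 373, nat_lit 150, nat_lit 9]⟩, ⟨p097_k25, nat_lit 0, nat_lit 0, nat_lit 161, nat_lit 0, nat_lit 115102, [nat_lit 3282000000, nat_lit 6250000000, nat_lit 11872000000], [], [nat_lit 23792863896, nat_lit 26134230540, nat_lit 25343938014, nat_lit 27236729896, nat_lit 30627202354, nat_lit 32016368528, nat_lit 31213389536, nat_lit 33527735696], nat_lit 1271250, nat_lit 1271250, nat_lit 1100001,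 nat_lit 1785000, nat_lit 1100001, nat_lit 2470000, [nat_lit 780000, nat_lit 1435000, nat_lit 1271250], [nat_lit 23, nat_lit 40, nat_lit 40, nat_lit 80, nat_lit 12, nat_lit 456, nat_lit 225, nat_lit 11]⟩,
 zbF0, [⟨nat_lit 0, nat_lit 81, nat_lit 72, nat_lit 100, nat_lit 466347544⟩, ⟨nat_lit 16, nat_lit 81, nat_lit 100, nat_lit 92, nat_lit 478062630⟩, ⟨nat_lit 7, nat_lit 100, nat_lit 93, nat_lit 97, nat_lit 452629995⟩]⟩
noncomputable def p097_l54 : Lf2 := ⟨nat_lit 0, nat_lit 30, [nat_lit 15, nat_lit 5, nat_lit 5, nat_lit 20], false, nat_lit 160, nat_lit 276, nat_lit 160, nat_lit 320, ⟨nat_lit 1000, nat_lit 0, nat_lit 0, nat_lit 0, nat_lit 0, nat_lit 0, nat_lit 0, nat_lit 0, nat_lit 0, nat_lit 0, nat_lit 0, nat_lit 0, nat_lit 0, nat_lit 0, nat_lit 0, nat_lit 0, false, false⟩,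
 nat_lit 17294, nat_lit 0, nat_lit 0, nat_lit 0, nat_lit 13682, nat_lit 11972, nat_lit 0, nat_lit 0, nat_lit 0, nat_lit 511, nat_lit 0, nat_lit 0, nat_lit 0, nat_lit 0, nat_lit 0, nat_lit 0, nat_lit 0, nat_lit 0, [],
 ⟨p097_k15, nat_lit 0, nat_lit 0, nat_lit 188, nat_lit 0, nat_lit 266558, [nat_lit 2032000001, nat_lit 4688000000, nat_lit 9842000000], [], [nat_lit 25082400875, nat_lit 27724947754, nat_lit 25149212028, nat_lit 27510311360, nat_lit 28873095634, nat_lit 31633064497, nat_lit 28545079109, nat_lit 31433944701], nat_lit 1271250, nat_lit 1271250, nat_lit 968401, nat_lit 1439500, nat_lit 1100001, nat_lit 2093250, [nat_lit 490000, nat_lit 1100000, nat_lit 2127500], [nat_lit 27, nat_lit 40, nat_lit 40, nat_lit 80, nat_lit 13, nat_lit 345, nat_lit 125, nat_lit 9]⟩, ⟨p097_k25, nat_lit 0, nat_lit 0, nat_lit 236, nat_lit 0, nat_lit 326196, [nat_lit 3282000000, nat_lit 6250000000, nat_lit 11872000000], [], [nat_lit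 21920025262, nat_lit 23772729009, nat_lit 22179874103, nat_lit 23823877015, nat_lit 28116257155, nat_lit 29270153806, nat_lit 27384391263, nat_lit 29031992928], nat_lit 1271250, nat_lit 1271250, nat_lit 968401, nat_lit 1439500, nat_lit 1100001, nat_lit 2470000, [nat_lit 780000, nat_lit 1435000, nat_lit 1271250], [nat_lit 23, nat_lit 40, nat_lit 40, nat_lit 80, nat_lit 12, nat_lit 456, nat_lit 225, nat_lit 11]⟩,
 zbF0, [⟨nat_lit 0, nat_lit 84, nat_lit 67, nat_lit 100, nat_lit 981164512⟩, ⟨nat_lit 16, nat_lit 67, nat_lit 100, nat_lit 88, nat_lit 570202867⟩, ⟨nat_lit 16, nat_lit 77, nat_lit 100, nat_lit 99, nat_lit 53753957⟩, ⟨nat_lit 19, nat_lit 94, nat_lit 88, nat_lit 100, nat_lit 411854902⟩]⟩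
noncomputable def p097_l55 : Lf2 := ⟨nat_lit 0, nat_lit 30, [nat_lit 15, nat_lit 5, nat_lit 5, nat_lit 20], false, nat_lit 160, nat_lit 276, nat_lit 160, nat_lit 320, ⟨nat_lit 1000, nat_lit 0, nat_lit 0, nat_lit 0, nat_lit 0, nat_lit 0, nat_lit 0, nat_lit 0, nat_lit 0, nat_lit 0, nat_lit 0, nat_lit 0, nat_lit 0, nat_lit 0, nat_lit 0, nat_lit 0, false, false⟩,
 nat_lit 13713, nat_lit 0, nat_lit 0, nat_lit 0, nat_lit 11101, nat_lit 9493, nat_lit 144, nat_lit 0, nat_lit 0, nat_lit 706, nat_lit 0, nat_lit 0, nat_lit 0, nat_lit 0, nat_lit 0, nat_lit 0, nat_lit 0, nat_lit 0, [],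
 ⟨p097_k15, nat_lit 0, nat_lit 0, nat_lit 180, nat_lit 0, nat_lit 266558, [nat_lit 2032000001, nat_lit 4688000000, nat_lit 9842000000], [], [nat_lit 25155120054, nat_lit 27186300480, nat_lit 26328352706, nat_lit 28177205016, nat_lit 28143872293, nat_lit 29687983408, nat_lit 28768637016, nat_lit 30906693236], nat_lit 1271250, nat_lit 1271250, nat_lit 1271250, nat_lit 1271250, nat_lit 1100001, nat_lit 2093250, [nat_lit 490000, nat_lit 1100000, nat_lit 2127500], [nat_lit 27, nat_lit 40, nat_lit 40, nat_lit 80, nat_lit 13, nat_lit 373, nat_lit 150, nat_lit 10]⟩, ⟨p097_k25, nat_lit 0, nat_lit 0, nat_lit 222, nat_lit 0, nat_lit 326196, [nat_lit 3282000000, nat_lit 6250000000, nat_lit 11872000000], [], [nat_lit 21772831682, nat_lit 23195221910, nat_lit 22940729356, nat_lit 24226861034, nat_lit 26703344972, nat_lit 27611962232, nat_lit 27309397344, nat_lit 28848311984], nat_lit 1271250, nat_lit 1271250, nat_lit 1271250,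 nat_lit 1271250, nat_lit 1100001, nat_lit 2470000, [nat_lit 780000, nat_lit 1435000, nat_lit 1271250], [nat_lit 23, nat_lit 40, nat_lit 40, nat_lit 80, nat_lit 12, nat_lit 456, nat_lit 225, nat_lit 11]⟩,
 zbF0, [⟨nat_lit 4, nat_lit 100, nat_lit 67, nat_lit 88, nat_lit 545464909⟩, ⟨nat_lit 19, nat_lit 93, nat_lit 100, nat_lit 97, nat_lit 401839293⟩]⟩
noncomputable def b_V_800_700_20_50 : St := ⟨true, nat_lit 1, nat_lit 1, nat_lit 1, nat_lit 120, nat_lit 320, nat_lit 360, nat_lit 280, nat_lit 320, nat_lit 100, nat_lit 240, nat_lit 80, nat_lit 120, nat_lit 160, nat_lit 300, nat_lit 0, nat_lit 336, nat_lit 80, nat_lit 120, nat_lit 0, nat_lit 0, nat_lit 0, nat_lit 0⟩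
theorem d_V_800_700_20_50 (h : EB TB.env) : Dead b_V_800_700_20_50 := chkB_sound0 h (T :=
(.spl (nat_lit 1) (nat_lit 300)
(.spl (nat_lit 0) (nat_lit 340)
(.spl (nat_lit 6) (nat_lit 108)
(.spl (nat_lit 3) (nat_lit 100)
(.trX (nat_lit 16) (nat_lit 87) (nat_lit 100) (nat_lit 94) (nat_lit 280) (.trX (nat_lit 19) (nat_lit 100) (nat_lit 88) (nat_lit 94) (nat_lit 320) (.spl (nat_lit 2) (nat_lit 120)
(.leaf p097_l33)
(.leaf p097_l34))))
(.spl (nat_lit 6) (nat_lit 88)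
(.spl (nat_lit 0) (nat_lit 330)
(.leaf p097_l35)
(.trZ (nat_lit 0) (nat_lit 100) (nat_lit 83) (nat_lit 98) (nat_lit 112) (.trX (nat_lit 16) (nat_lit 83) (nat_lit 98) (nat_lit 100) (nat_lit 288) (.leaf p097_l36))))
(.leaf p097_l37)))
(.leaf p097_l38))
(.trZ (nat_lit 0) (nat_lit 99) (nat_lit 77) (nat_lit 100) (nat_lit 124) (.trX (nat_lit 16) (nat_lit 77) (nat_lit 100) (nat_lit 99) (nat_lit 276) (.spl (nat_lit 5) (nat_lit 160)
(.leaf p097_l39)
(.spl (nat_lit 2) (nat_lit 160)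
(.spl (nat_lit 5) (nat_lit 240)
(.leaf p097_l40)
(.spl (nat_lit 6) (nat_lit 100)
(.spl (nat_lit 6) (nat_lit 88)
(.leaf p097_l41)
(.leaf p097_l42))
(.spl (nat_lit 3) (nat_lit 100)
(.trX (nat_lit 16) (nat_lit 74) (nat_lit 100) (nat_lit 90) (nat_lit 256) (.trX (nat_lit 19) (nat_lit 100) (nat_lit 88) (nat_lit 94) (nat_lit 320) (.leaf p097_l43)))
(.leaf p097_l44))))
(.spl (nat_lit 6) (nat_lit 100)
(.spl (nat_lit 0) (nat_lit 350)
(.leaf p097_l45)
(.trX (nat_lit 16) (nat_lit 69) (nat_lit 100) (nat_lit 96) (nat_lit 264) (.leaf p097_l46)))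
(.spl (nat_lit 0) (nat_lit 350)
(.leaf p097_l47)
(.trX (nat_lit 16) (nat_lit 69) (nat_lit 100) (nat_lit 96) (nat_lit 264) (.leaf p097_l48)))))))))
(.trZ (nat_lit 0) (nat_lit 94) (nat_lit 87) (nat_lit 100) (nat_lit 120) (.trX (nat_lit 19) (nat_lit 94) (nat_lit 88) (nat_lit 100) (nat_lit 320) (.spl (nat_lit 5) (nat_lit 160)
(.leaf p097_l49)
(.spl (nat_lit 0) (nat_lit 340)
(.spl (nat_lit 6) (nat_lit 100)
(.spl (nat_lit 2) (nat_lit 160)
(.leaf p097_l50)
(.leaf p097_l51))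
(.spl (nat_lit 2) (nat_lit 160)
(.leaf p097_l52)
(.leaf p097_l53)))
(.trZ (nat_lit 0) (nat_lit 90) (nat_lit 74) (nat_lit 100) (nat_lit 144) (.trX (nat_lit 16) (nat_lit 77) (nat_lit 100) (nat_lit 99) (nat_lit 276) (.spl (nat_lit 2) (nat_lit 200)
(.leaf p097_l54)
(.leaf p097_l55)))))))))) (by decide +kernel)
noncomputable def p097_l56 : Lf2 := ⟨nat_lit 0, nat_lit 30, [nat_lit 15, nat_lit 5, nat_lit 5, nat_lit 20], false, nat_lit 0, nat_lit 160, nat_lit 0, nat_lit 336, ⟨nat_lit 1000, nat_lit 0, nat_lit 0, nat_lit 0, nat_lit 0, nat_lit 0, nat_lit 0, nat_lit 0, nat_lit 0, nat_lit 0, nat_lit 0, nat_lit 0, nat_lit 0, nat_lit 0, nat_lit 0, nat_lit 0, false, false⟩,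
 nat_lit 11208, nat_lit 0, nat_lit 0, nat_lit 2300, nat_lit 6305, nat_lit 7132, nat_lit 572, nat_lit 0, nat_lit 0, nat_lit 796, nat_lit 0, nat_lit 0, nat_lit 0, nat_lit 0, nat_lit 0, nat_lit 0, nat_lit 0, nat_lit 0, [],
 ⟨p097_k13, nat_lit 0, nat_lit 0, nat_lit 343, nat_lit 0, nat_lit 185856, [nat_lit 2032000001, nat_lit 4688000000, nat_lit 11872000000], [], [nat_lit 31202034340, nat_lit 32579491700, nat_lit 39456175660, nat_lit 40309272450, nat_lit 26900733420, nat_lit 27892774080, nat_lit 33412496440, nat_lit 34153069780], nat_lit 1271250, nat_lit 1271250, nat_lit 1271250, nat_lit 1271250, nat_lit 0, nat_lit 1100001, [nat_lit 490000, nat_lit 1100000, nat_lit 2470000], [nat_lit 75, nat_lit 40, nat_lit 40, nat_lit 80, nat_lit 65, nat_lit 373, nat_lit 150, nat_lit 9]⟩, ⟨p097_k14, nat_lit 0, nat_lit 0, nat_lit 402, nat_lit 0, nat_lit 230515, [nat_lit 3282000000, nat_lit 6250000000, nat_lit 14058000000], [], [nat_lit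 32620773704, nat_lit 34389637464, nat_lit 40618840120, nat_lit 41868706776, nat_lit 30691100863, nat_lit 31601857093, nat_lit 35580835127, nat_lit 36963029533], nat_lit 1271250, nat_lit 1271250, nat_lit 1271250, nat_lit 1271250, nat_lit 0, nat_lit 2373000, [nat_lit 780000, nat_lit 1435000, nat_lit 1271250], [nat_lit 71, nat_lit 40, nat_lit 40, nat_lit 80, nat_lit 68, nat_lit 538, nat_lit 300, nat_lit 12]⟩,
 zbF0, [⟨nat_lit 7, nat_lit 100, nat_lit 100, nat_lit 100, nat_lit 116372698⟩]⟩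
noncomputable def p097_l57 : Lf2 := ⟨nat_lit 0, nat_lit 30, [nat_lit 15, nat_lit 5, nat_lit 5, nat_lit 20], false, nat_lit 0, nat_lit 160, nat_lit 0, nat_lit 336, ⟨nat_lit 1000, nat_lit 0, nat_lit 0, nat_lit 0, nat_lit 0, nat_lit 0, nat_lit 0, nat_lit 0, nat_lit 0, nat_lit 0, nat_lit 0, nat_lit 0, nat_lit 0, nat_lit 0, nat_lit 0, nat_lit 0, false, false⟩,
 nat_lit 11208, nat_lit 0, nat_lit 0, nat_lit 0, nat_lit 6275, nat_lit 7132, nat_lit 346, nat_lit 0, nat_lit 0, nat_lit 745, nat_lit 0, nat_lit 0, nat_lit 0, nat_lit 0, nat_lit 0, nat_lit 0, nat_lit 0, nat_lit 0, [],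
 ⟨p097_k15, nat_lit 0, nat_lit 0, nat_lit 314, nat_lit 0, nat_lit 216844, [nat_lit 2032000001, nat_lit 4688000000, nat_lit 9842000000], [], [nat_lit 31759090100, nat_lit 32527691425, nat_lit 40436255000, nat_lit 40913553450, nat_lit 27244583050, nat_lit 27705454525, nat_lit 34491397050, nat_lit 34903197150], nat_lit 1271250, nat_lit 1271250, nat_lit 1271250, nat_lit 1271250, nat_lit 0, nat_lit 1100001, [nat_lit 490000, nat_lit 1100000, nat_lit 2127500], [nat_lit 27, nat_lit 40, nat_lit 40, nat_lit 80, nat_lit 13, nat_lit 373, nat_lit 150, nat_lit 10]⟩, ⟨p097_k14, nat_lit 0, nat_lit 0, nat_lit 421, nat_lit 0, nat_lit 296593, [nat_lit 3282000000, nat_lit 6250000000, nat_lit 14058000000], [], [nat_lit 33272617454, nat_lit 35041481214, nat_lit 41270683870, nat_lit 42520550526, nat_lit 31342944613, nat_lit 32253700843, nat_lit 35714677605, nat_lit 36963029533], nat_lit 1271250, nat_lit 1271250, nat_lit 1271250, nat_lit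 1271250, nat_lit 0, nat_lit 2373000, [nat_lit 780000, nat_lit 1435000, nat_lit 1271250], [nat_lit 71, nat_lit 40, nat_lit 40, nat_lit 80, nat_lit 68, nat_lit 538, nat_lit 300, nat_lit 12]⟩,
 zbF0, [⟨nat_lit 7, nat_lit 100, nat_lit 100, nat_lit 100, nat_lit 103169867⟩, ⟨nat_lit 22, nat_lit 83, nat_lit 100, nat_lit 83, nat_lit 5067293⟩]⟩
noncomputable def p097_l58 : Lf2 := ⟨nat_lit 0, nat_lit 30, [nat_lit 15, nat_lit 5, nat_lit 5, nat_lit 20], false, nat_lit 4, nat_lit 160, nat_lit 0, nat_lit 336, ⟨nat_lit 1000, nat_lit 0, nat_lit 0, nat_lit 0, nat_lit 0, nat_lit 0, nat_lit 0, nat_lit 0, nat_lit 0, nat_lit 0, nat_lit 0, nat_lit 0, nat_lit 0, nat_lit 0, nat_lit 0, nat_lit 0, false, false⟩,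
 nat_lit 11547, nat_lit 0, nat_lit 0, nat_lit 0, nat_lit 5579, nat_lit 7348, nat_lit 412, nat_lit 0, nat_lit 0, nat_lit 820, nat_lit 0, nat_lit 0, nat_lit 0, nat_lit 0, nat_lit 0, nat_lit 0, nat_lit 0, nat_lit 0, [],
 ⟨p097_k27, nat_lit 0, nat_lit 0, nat_lit 321, nat_lit 0, nat_lit 254361, [nat_lit 2032000001, nat_lit 4688000000, nat_lit 9842000000], [], [nat_lit 30751950295, nat_lit 31469294241, nat_lit 38455788278, nat_lit 38916676671, nat_lit 27010937140, nat_lit 27556627864, nat_lit 33604454843, nat_lit 34004015005], nat_lit 1271250, nat_lit 1271250, nat_lit 1271250, nat_lit 1271250, nat_lit 21650, nat_lit 1100001, [nat_lit 490000, nat_lit 1100000, nat_lit 2127500], [nat_lit 27, nat_lit 40, nat_lit 40, nat_lit 80, nat_lit 13, nat_lit 373, nat_lit 150, nat_lit 10]⟩, ⟨p097_k14, nat_lit 0, nat_lit 0, nat_lit 440, nat_lit 0, nat_lit 364590, [nat_lit 3282000000, nat_lit 6250000000, nat_lit 14058000000], [], [nat_lit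 33188195160, nat_lit 34570342664, nat_lit 40317538277, nat_lit 41602038751, nat_lit 30521100626, nat_lit 31199886007, nat_lit 35550704267, nat_lit 36972918753], nat_lit 1271250, nat_lit 1271250, nat_lit 1271250, nat_lit 1271250, nat_lit 0, nat_lit 2373000, [nat_lit 780000, nat_lit 1435000, nat_lit 1271250], [nat_lit 71, nat_lit 40, nat_lit 40, nat_lit 80, nat_lit 68, nat_lit 538, nat_lit 300, nat_lit 12]⟩,
 zbF0, [⟨nat_lit 7, nat_lit 100, nat_lit 100, nat_lit 100, nat_lit 120454062⟩]⟩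
noncomputable def p097_l59 : Lf2 := ⟨nat_lit 0, nat_lit 30, [nat_lit 15, nat_lit 5, nat_lit 5, nat_lit 20], false, nat_lit 160, nat_lit 300, nat_lit 0, nat_lit 160, ⟨nat_lit 1000, nat_lit 0, nat_lit 0, nat_lit 0, nat_lit 0, nat_lit 0, nat_lit 0, nat_lit 0, nat_lit 0, nat_lit 0, nat_lit 0, nat_lit 0, nat_lit 0, nat_lit 0, nat_lit 0, nat_lit 0, false, false⟩,
 nat_lit 12601, nat_lit 0, nat_lit 0, nat_lit 0, nat_lit 7912, nat_lit 8018, nat_lit 539, nat_lit 0, nat_lit 0, nat_lit 633, nat_lit 0, nat_lit 0, nat_lit 0, nat_lit 0, nat_lit 0, nat_lit 0, nat_lit 0, nat_lit 0, [],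
 ⟨p097_k9, nat_lit 0, nat_lit 0, nat_lit 243, nat_lit 0, nat_lit 293955, [nat_lit 2032000001, nat_lit 6250000000, nat_lit 11872000000], [], [nat_lit 25838719287, nat_lit 27901966103, nat_lit 33848198528, nat_lit 36605924320, nat_lit 28296041079, nat_lit 30222331031, nat_lit 36463515816, nat_lit 38455965336], nat_lit 1271250, nat_lit 1271250, nat_lit 1271250, nat_lit 1271250, nat_lit 1100001, nat_lit 2298750, [nat_lit 490000, nat_lit 1427500, nat_lit 1271250], [nat_lit 72, nat_lit 40, nat_lit 40, nat_lit 80, nat_lit 12, nat_lit 401, nat_lit 175, nat_lit 9]⟩, ⟨p097_k7, nat_lit 0, nat_lit 0, nat_lit 449, nat_lit 0, nat_lit 364590, [nat_lit 3282000000, nat_lit 7968000000, nat_lit 14058000000], [], [nat_lit 37317232124, nat_lit 38473618684, nat_lit 42751873000, nat_lit 43711174528, nat_lit 31483409484, nat_lit 32546060872, nat_lit 36588042112, nat_lit 37364707640], nat_lit 1271250, nat_lit 1271250, nat_lit 1271250, nat_lit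 1271250, nat_lit 0, nat_lit 1100001, [nat_lit 780000, nat_lit 1762500, nat_lit 1271250], [nat_lit 84, nat_lit 40, nat_lit 40, nat_lit 80, nat_lit 28, nat_lit 456, nat_lit 225, nat_lit 10]⟩,
 zbF0, [⟨nat_lit 4, nat_lit 100, nat_lit 74, nat_lit 90, nat_lit 412106130⟩, ⟨nat_lit 9, nat_lit 100, nat_lit 81, nat_lit 72, nat_lit 48083007⟩]⟩
noncomputable def p097_l60 : Lf2 := ⟨nat_lit 0, nat_lit 30, [nat_lit 15, nat_lit 5, nat_lit 5, nat_lit 20], false, nat_lit 160, nat_lit 300, nat_lit 160, nat_lit 336, ⟨nat_lit 1000, nat_lit 0, nat_lit 0, nat_lit 0, nat_lit 0, nat_lit 0, nat_lit 0, nat_lit 0, nat_lit 0, nat_lit 0, nat_lit 0, nat_lit 0, nat_lit 0, nat_lit 0, nat_lit 0, nat_lit 0, false, false⟩,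
 nat_lit 12018, nat_lit 0, nat_lit 0, nat_lit 16503, nat_lit 6706, nat_lit 7647, nat_lit 566, nat_lit 0, nat_lit 0, nat_lit 706, nat_lit 0, nat_lit 0, nat_lit 0, nat_lit 0, nat_lit 0, nat_lit 0, nat_lit 0, nat_lit 0, [],
 ⟨p097_k9, nat_lit 0, nat_lit 0, nat_lit 183, nat_lit 0, nat_lit 100732, [nat_lit 2032000001, nat_lit 6250000000, nat_lit 11872000000], [], [nat_lit 25560519678, nat_lit 26771825330, nat_lit 32830092598, nat_lit 33587722596, nat_lit 28661235852, nat_lit 29554932715, nat_lit 35052232908, nat_lit 35977855413], nat_lit 1271250, nat_lit 1271250, nat_lit 1271250, nat_lit 1271250, nat_lit 1100001, nat_lit 2298750, [nat_lit 490000, nat_lit 1427500, nat_lit 1271250], [nat_lit 72, nat_lit 40, nat_lit 40, nat_lit 80, nat_lit 12, nat_lit 401, nat_lit 175, nat_lit 9]⟩, ⟨p097_k7, nat_lit 0, nat_lit 0, nat_lit 216, nat_lit 0, nat_lit 124936, [nat_lit 3282000000, nat_lit 7968000000, nat_lit 14058000000], [], [nat_lit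 25369833152, nat_lit 26357939518, nat_lit 33036075552, nat_lit 33868717168, nat_lit 29751879840, nat_lit 30354656600, nat_lit 36398360252, nat_lit 36896180722], nat_lit 1271250, nat_lit 1271250, nat_lit 1271250, nat_lit 1271250, nat_lit 1100001, nat_lit 2607000, [nat_lit 780000, nat_lit 1762500, nat_lit 1271250], [nat_lit 84, nat_lit 40, nat_lit 40, nat_lit 80, nat_lit 28, nat_lit 538, nat_lit 300, nat_lit 12]⟩,
 zbF0, [⟨nat_lit 4, nat_lit 100, nat_lit 81, nat_lit 92, nat_lit 428101580⟩, ⟨nat_lit 19, nat_lit 100, nat_lit 94, nat_lit 97, nat_lit 324170624⟩]⟩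
noncomputable def p097_l61 : Lf2 := ⟨nat_lit 0, nat_lit 30, [nat_lit 15, nat_lit 5, nat_lit 5, nat_lit 20], false, nat_lit 160, nat_lit 300, nat_lit 160, nat_lit 320, ⟨nat_lit 1000, nat_lit 0, nat_lit 0, nat_lit 0, nat_lit 0, nat_lit 0, nat_lit 0, nat_lit 0, nat_lit 0, nat_lit 0, nat_lit 0, nat_lit 0, nat_lit 0, nat_lit 0, nat_lit 0, nat_lit 0, false, false⟩,
 nat_lit 15911, nat_lit 0, nat_lit 0, nat_lit 0, nat_lit 6706, nat_lit 11015, nat_lit 566, nat_lit 0, nat_lit 0, nat_lit 59, nat_lit 0, nat_lit 0, nat_lit 0, nat_lit 0, nat_lit 0, nat_lit 0, nat_lit 0, nat_lit 0, [],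
 ⟨p097_k9, nat_lit 0, nat_lit 0, nat_lit 208, nat_lit 0, nat_lit 185856, [nat_lit 2032000001, nat_lit 6250000000, nat_lit 11872000000], [], [nat_lit 25560519678, nat_lit 26771825330, nat_lit 32830092598, nat_lit 33587722596, nat_lit 28661235852, nat_lit 29554932715, nat_lit 35052232908, nat_lit 35977855413], nat_lit 1271250, nat_lit 1271250, nat_lit 1271250, nat_lit 1271250, nat_lit 1100001, nat_lit 2298750, [nat_lit 490000, nat_lit 1427500, nat_lit 1271250], [nat_lit 72, nat_lit 40, nat_lit 40, nat_lit 80, nat_lit 12, nat_lit 401, nat_lit 175, nat_lit 9]⟩, ⟨p097_k12, nat_lit 0, nat_lit 0, nat_lit 219, nat_lit 0, nat_lit 206240, [nat_lit 3282000000, nat_lit 7968000000, nat_lit 11872000000], [], [nat_lit 28973412755, nat_lit 30376808445, nat_lit 38923734615, nat_lit 39644981745, nat_lit 33281995245, nat_lit 34148647905, nat_lit 39953112340, nat_lit 40812348680], nat_lit 1271250, nat_lit 1271250, nat_lit 1271250,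 nat_lit 1271250, nat_lit 1100001, nat_lit 2470000, [nat_lit 780000, nat_lit 1762500, nat_lit 1271250], [nat_lit 79, nat_lit 40, nat_lit 40, nat_lit 80, nat_lit 14, nat_lit 538, nat_lit 300, nat_lit 13]⟩,
 zbF0, [⟨nat_lit 4, nat_lit 100, nat_lit 81, nat_lit 92, nat_lit 409280735⟩, ⟨nat_lit 7, nat_lit 100, nat_lit 93, nat_lit 97, nat_lit 289450484⟩]⟩
noncomputable def p097_l62 : Lf2 := ⟨nat_lit 0, nat_lit 30, [nat_lit 15, nat_lit 5, nat_lit 5, nat_lit 20], false, nat_lit 160, nat_lit 276, nat_lit 160, nat_lit 336, ⟨nat_lit 1000, nat_lit 0, nat_lit 0, nat_lit 0, nat_lit 0, nat_lit 0, nat_lit 0, nat_lit 0, nat_lit 0, nat_lit 0, nat_lit 0, nat_lit 0, nat_lit 0, nat_lit 0, nat_lit 0, nat_lit 0, false, false⟩,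
 nat_lit 12090, nat_lit 0, nat_lit 0, nat_lit 4236, nat_lit 9737, nat_lit 7693, nat_lit 0, nat_lit 0, nat_lit 0, nat_lit 660, nat_lit 0, nat_lit 0, nat_lit 0, nat_lit 0, nat_lit 0, nat_lit 0, nat_lit 0, nat_lit 0, [],
 ⟨p097_k6, nat_lit 0, nat_lit 0, nat_lit 192, nat_lit 0, nat_lit 197448, [nat_lit 2032000001, nat_lit 6250000000, nat_lit 9842000000], [], [nat_lit 28923430122, nat_lit 30617727592, nat_lit 37844035243, nat_lit 38861651814, nat_lit 31394213881, nat_lit 32690862166, nat_lit 38616678243, nat_lit 39826101365], nat_lit 1271250, nat_lit 1271250, nat_lit 1271250, nat_lit 1271250, nat_lit 1100001, nat_lit 2093250, [nat_lit 490000, nat_lit 1427500, nat_lit 1271250], [nat_lit 61, nat_lit 40, nat_lit 40, nat_lit 80, nat_lit 1, nat_lit 401, nat_lit 175, nat_lit 10]⟩, ⟨p097_k7, nat_lit 0, nat_lit 0, nat_lit 264, nat_lit 0, nat_lit 270063, [nat_lit 3282000000, nat_lit 7968000000, nat_lit 14058000000], [], [nat_lit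 26034667288, nat_lit 27025523442, nat_lit 33395445335, nat_lit 33954409544, nat_lit 30418476585, nat_lit 31022093913, nat_lit 36166061688, nat_lit 36674153342], nat_lit 1271250, nat_lit 1271250, nat_lit 1271250, nat_lit 1271250, nat_lit 1100001, nat_lit 2607000, [nat_lit 780000, nat_lit 1762500, nat_lit 1271250], [nat_lit 84, nat_lit 40, nat_lit 40, nat_lit 80, nat_lit 28, nat_lit 538, nat_lit 300, nat_lit 12]⟩,
 zbF0, [⟨nat_lit 4, nat_lit 100, nat_lit 67, nat_lit 88, nat_lit 433159888⟩, ⟨nat_lit 19, nat_lit 100, nat_lit 80, nat_lit 100, nat_lit 77045081⟩, ⟨nat_lit 7, nat_lit 94, nat_lit 100, nat_lit 97, nat_lit 235656463⟩]⟩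
noncomputable def p097_l63 : Lf2 := ⟨nat_lit 0, nat_lit 30, [nat_lit 15, nat_lit 5, nat_lit 5, nat_lit 20], false, nat_lit 160, nat_lit 276, nat_lit 160, nat_lit 320, ⟨nat_lit 1000, nat_lit 0, nat_lit 0, nat_lit 0, nat_lit 0, nat_lit 0, nat_lit 0, nat_lit 0, nat_lit 0, nat_lit 0, nat_lit 0, nat_lit 0, nat_lit 0, nat_lit 0, nat_lit 0, nat_lit 0, false, false⟩,
 nat_lit 11645, nat_lit 0, nat_lit 0, nat_lit 0, nat_lit 8176, nat_lit 8061, nat_lit 182, nat_lit 0, nat_lit 0, nat_lit 442, nat_lit 0, nat_lit 0, nat_lit 0, nat_lit 0, nat_lit 0, nat_lit 0, nat_lit 0, nat_lit 0, [],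
 ⟨p097_k6, nat_lit 0, nat_lit 0, nat_lit 214, nat_lit 0, nat_lit 266558, [nat_lit 2032000001, nat_lit 6250000000, nat_lit 9842000000], [], [nat_lit 27658086406, nat_lit 29175506966, nat_lit 36066232342, nat_lit 36990931360, nat_lit 30163774594, nat_lit 31338708118, nat_lit 37062976438, nat_lit 38147581681], nat_lit 1271250, nat_lit 1271250, nat_lit 1271250, nat_lit 1271250, nat_lit 1100001, nat_lit 2093250, [nat_lit 490000, nat_lit 1427500, nat_lit 1271250], [nat_lit 61, nat_lit 40, nat_lit 40, nat_lit 80, nat_lit 1, nat_lit 401, nat_lit 175, nat_lit 10]⟩, ⟨p097_k12, nat_lit 0, nat_lit 0, nat_lit 260, nat_lit 0, nat_lit 326196, [nat_lit 3282000000, nat_lit 7968000000, nat_lit 11872000000], [], [nat_lit 28219671004, nat_lit 29035417524, nat_lit 34763158076, nat_lit 35418406938, nat_lit 30753541650, nat_lit 31273888188, nat_lit 36531919516, nat_lit 37297348632], nat_lit 1271250, nat_lit 1271250, nat_lit 1271250, nat_lit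 1271250, nat_lit 1100001, nat_lit 2470000, [nat_lit 780000, nat_lit 1762500, nat_lit 1271250], [nat_lit 79, nat_lit 40, nat_lit 40, nat_lit 80, nat_lit 14, nat_lit 538, nat_lit 300, nat_lit 13]⟩,
 zbF0, [⟨nat_lit 16, nat_lit 67, nat_lit 100, nat_lit 88, nat_lit 447130461⟩, ⟨nat_lit 19, nat_lit 94, nat_lit 88, nat_lit 100, nat_lit 301237515⟩]⟩
noncomputable def b_V_800_700_20_51 : St := ⟨true, nat_lit 1, nat_lit 1, nat_lit 1, nat_lit 120, nat_lit 320, nat_lit 360, nat_lit 280, nat_lit 320, nat_lit 240, nat_lit 400, nat_lit 80, nat_lit 120, nat_lit 0, nat_lit 300, nat_lit 0, nat_lit 336, nat_lit 80, nat_lit 120, nat_lit 0, nat_lit 0, nat_lit 0, nat_lit 0⟩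
theorem d_V_800_700_20_51 (h : EB TB.env) : Dead b_V_800_700_20_51 := chkB_sound0 h (T :=
(.spl (nat_lit 4) (nat_lit 160)
(.spl (nat_lit 0) (nat_lit 340)
(.leaf p097_l56)
(.spl (nat_lit 0) (nat_lit 350)
(.leaf p097_l57)
(.trX (nat_lit 13) (nat_lit 83) (nat_lit 25) (nat_lit 100) (nat_lit 396) (.trZ (nat_lit 3) (nat_lit 100) (nat_lit 83) (nat_lit 25) (nat_lit 4) (.leaf p097_l58)))))
(.spl (nat_lit 5) (nat_lit 160)
(.leaf p097_l59)
(.spl (nat_lit 0) (nat_lit 340)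
(.spl (nat_lit 1) (nat_lit 300)
(.leaf p097_l60)
(.trX (nat_lit 19) (nat_lit 94) (nat_lit 88) (nat_lit 100) (nat_lit 320) (.leaf p097_l61)))
(.trX (nat_lit 16) (nat_lit 77) (nat_lit 100) (nat_lit 99) (nat_lit 276) (.spl (nat_lit 1) (nat_lit 300)
(.trX (nat_lit 13) (nat_lit 82) (nat_lit 29) (nat_lit 100) (nat_lit 396) (.leaf p097_l62))
(.trX (nat_lit 19) (nat_lit 94) (nat_lit 88) (nat_lit 100) (nat_lit 320) (.leaf p097_l63)))))))) (by decide +kernel)
noncomputable def p097_l64 : Lf2 := ⟨nat_lit 0, nat_lit 30, [nat_lit 15, nat_lit 5, nat_lit 5, nat_lit 20], true, nat_lit 0, nat_lit 160, nat_lit 0, nat_lit 336, ⟨nat_lit 0, nat_lit 1000, nat_lit 0, nat_lit 7, nat_lit 223, nat_lit 1000, nat_lit 65, nat_lit 0, nat_lit 0, nat_lit 0, nat_lit 0, nat_lit 0, nat_lit 0, nat_lit 0, nat_lit 0, nat_lit 5000000, false, false⟩,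
 nat_lit 0, nat_lit 5213, nat_lit 0, nat_lit 457, nat_lit 3909, nat_lit 0, nat_lit 18, nat_lit 0, nat_lit 0, nat_lit 0, nat_lit 0, nat_lit 0, nat_lit 0, nat_lit 0, nat_lit 49, nat_lit 653800, nat_lit 0, nat_lit 0, [(nat_lit 20, [(nat_lit 1, nat_lit 577), (nat_lit 2, nat_lit 423)])],
 ⟨p097_k9, nat_lit 0, nat_lit 0, nat_lit 410, nat_lit 0, nat_lit 305762, [nat_lit 2253659401, nat_lit 2163151000, nat_lit 118974000], [], [nat_lit 24693777476, nat_lit 23327006937, nat_lit 24032818612, nat_lit 24910732010, nat_lit 21464296429, nat_lit 22181137800, nat_lit 23340056757, nat_lit 23618638301], nat_lit 1271250, nat_lit 1271250, nat_lit 631250, nat_lit 1751250, nat_lit 0, nat_lit 1100001, [nat_lit 490000, nat_lit 1427500, nat_lit 1271250], [nat_lit 72, nat_lit 40, nat_lit 40, nat_lit 80, nat_lit 12, nat_lit 317, nat_lit 100, nat_lit 8]⟩, C1.Rw.none,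
 ⟨nat_lit 3872, nat_lit 4473, ⟨.ofNat (nat_lit 416230), .ofNat (nat_lit 654181), .ofNat (nat_lit 459327), .ofNat (nat_lit 697279), .ofNat (nat_lit 425778), .ofNat (nat_lit 651631), .ofNat (nat_lit 469330), .ofNat (nat_lit 695183)⟩, ⟨.ofNat (nat_lit 0), .ofNat (nat_lit 302621), .ofNat (nat_lit 0), .ofNat (nat_lit 345754), .ofNat (nat_lit 0), .ofNat (nat_lit 304717), .ofNat (nat_lit 0), .ofNat (nat_lit 348304)⟩⟩, []⟩
noncomputable def p097_l65 : Lf2 := ⟨nat_lit 0, nat_lit 30, [nat_lit 15, nat_lit 5, nat_lit 5, nat_lit 20], true, nat_lit 0, nat_lit 160, nat_lit 0, nat_lit 336, ⟨nat_lit 0, nat_lit 1000, nat_lit 0, nat_lit 7, nat_lit 233, nat_lit 1000, nat_lit 65, nat_lit 0, nat_lit 0, nat_lit 0, nat_lit 0, nat_lit 0, nat_lit 0, nat_lit 0, nat_lit 0, nat_lit 5000000, false, false⟩,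
 nat_lit 0, nat_lit 4622, nat_lit 0, nat_lit 0, nat_lit 3741, nat_lit 0, nat_lit 57, nat_lit 0, nat_lit 0, nat_lit 0, nat_lit 0, nat_lit 0, nat_lit 0, nat_lit 0, nat_lit 22, nat_lit 549400, nat_lit 0, nat_lit 0, [(nat_lit 23, [(nat_lit 1, nat_lit 751), (nat_lit 2, nat_lit 249)])],
 ⟨p097_k6, nat_lit 0, nat_lit 0, nat_lit 434, nat_lit 0, nat_lit 434551, [nat_lit 1675243201, nat_lit 1210573701, nat_lit 35053567], [], [nat_lit 21275622754, nat_lit 22371340220, nat_lit 23368937486, nat_lit 24546803732, nat_lit 20788477170, nat_lit 21606184433, nat_lit 22476239347, nat_lit 23269783336], nat_lit 1271250, nat_lit 1271250, nat_lit 810650, nat_lit 1764750, nat_lit 0, nat_lit 1100001, [nat_lit 490000, nat_lit 1427500, nat_lit 1271250], [nat_lit 61, nat_lit 40, nat_lit 40, nat_lit 80, nat_lit 1, nat_lit 317, nat_lit 100, nat_lit 9]⟩, C1.Rw.none,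
 ⟨nat_lit 3162, nat_lit 3873, ⟨.ofNat (nat_lit 464406), .ofNat (nat_lit 651611), .ofNat (nat_lit 507934), .ofNat (nat_lit 695141), .ofNat (nat_lit 472632), .ofNat (nat_lit 649490), .ofNat (nat_lit 516884), .ofNat (nat_lit 693742)⟩, ⟨.ofNat (nat_lit 0), .ofNat (nat_lit 304717), .ofNat (nat_lit 0), .ofNat (nat_lit 348304), .ofNat (nat_lit 0), .ofNat (nat_lit 306116), .ofNat (nat_lit 0), .ofNat (nat_lit 350426)⟩⟩, []⟩
noncomputable def p097_l66 : Lf2 := ⟨nat_lit 0, nat_lit 25, [nat_lit 44, nat_lit 5, nat_lit 5, nat_lit 20], false, nat_lit 160, nat_lit 280, nat_lit 0, nat_lit 320, ⟨nat_lit 118, nat_lit 882, nat_lit 0, nat_lit 7, nat_lit 223, nat_lit 882, nat_lit 166, nat_lit 0, nat_lit 0, nat_lit 0, nat_lit 0, nat_lit 0, nat_lit 0, nat_lit 0, nat_lit 0, nat_lit 5000000, false, false⟩,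
 nat_lit 0, nat_lit 6134, nat_lit 0, nat_lit 0, nat_lit 4600, nat_lit 1797, nat_lit 0, nat_lit 0, nat_lit 0, nat_lit 0, nat_lit 0, nat_lit 0, nat_lit 0, nat_lit 0, nat_lit 0, nat_lit 603000, nat_lit 0, nat_lit 0, [(nat_lit 20, [(nat_lit 1, nat_lit 465), (nat_lit 2, nat_lit 417)])],
 ⟨p097_k0, nat_lit 0, nat_lit 0, nat_lit 215, nat_lit 0, nat_lit 293514, [nat_lit 1913720201, nat_lit 1690444600, nat_lit 218499000], [], [nat_lit 19998625401, nat_lit 21038265801, nat_lit 21789971001, nat_lit 22630470800, nat_lit 22979766000, nat_lit 24082462100, nat_lit 25110381802, nat_lit 25338283200], nat_lit 1271250, nat_lit 1271250, nat_lit 631250, nat_lit 1751250, nat_lit 1100001, nat_lit 2127500, [nat_lit 490000, nat_lit 1427500, nat_lit 1271250], [nat_lit 61, nat_lit 40, nat_lit 40, nat_lit 80, nat_lit 1, nat_lit 373, nat_lit 150, nat_lit 10]⟩, ⟨p097_k1, nat_lit 0, nat_lit 0, nat_lit 246, nat_lit 0, nat_lit 0, [nat_lit 387276000,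 nat_lit 940224000, nat_lit 1400896000], [], [nat_lit 4655867562, nat_lit 5330820180, nat_lit 4710734880, nat_lit 5207226384, nat_lit 3924429674, nat_lit 4263947126, nat_lit 3576570348, nat_lit 3815353556], nat_lit 0, nat_lit 0, nat_lit 0, nat_lit 0, nat_lit 0, nat_lit 0, [], [nat_lit 79, nat_lit 40, nat_lit 40, nat_lit 80, nat_lit 14, nat_lit 456, nat_lit 225, nat_lit 12]⟩,
 ⟨nat_lit 3872, nat_lit 4473, ⟨.ofNat (nat_lit 416230), .ofNat (nat_lit 654181), .ofNat (nat_lit 459327), .ofNat (nat_lit 697279), .ofNat (nat_lit 425778), .ofNat (nat_lit 651631), .ofNat (nat_lit 469330), .ofNat (nat_lit 695183)⟩, ⟨.ofNat (nat_lit 302621), .ofNat (nat_lit 506556), .ofNat (nat_lit 324188), .ofNat (nat_lit 528122), .ofNat (nat_lit 304717), .ofNat (nat_lit 498282), .ofNat (nat_lit 326511), .ofNat (nat_lit 520075)⟩⟩, [⟨nat_lit 4, nat_lit 100, nat_lit 79, nat_lit 87, nat_lit 320651527⟩]⟩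
noncomputable def p097_l67 : Lf2 := ⟨nat_lit 0, nat_lit 25, [nat_lit 44, nat_lit 5, nat_lit 5, nat_lit 20], true, nat_lit 160, nat_lit 300, nat_lit 0, nat_lit 336, ⟨nat_lit 0, nat_lit 1000, nat_lit 0, nat_lit 7, nat_lit 223, nat_lit 1000, nat_lit 181, nat_lit 0, nat_lit 0, nat_lit 0, nat_lit 0, nat_lit 0, nat_lit 0, nat_lit 0, nat_lit 0, nat_lit 5000000, false, false⟩,
 nat_lit 0, nat_lit 9350, nat_lit 0, nat_lit 0, nat_lit 7012, nat_lit 0, nat_lit 0, nat_lit 0, nat_lit 0, nat_lit 0, nat_lit 0, nat_lit 0, nat_lit 0, nat_lit 0, nat_lit 0, nat_lit 250000, nat_lit 0, nat_lit 0, [(nat_lit 20, [(nat_lit 0, nat_lit 1000)])],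
 ⟨p097_k0, nat_lit 0, nat_lit 0, nat_lit 143, nat_lit 0, nat_lit 82140, [nat_lit 1534400001, nat_lit 2545600000, nat_lit 3257600000], [], [nat_lit 20837335448, nat_lit 21725360110, nat_lit 22719013552, nat_lit 23411777412, nat_lit 26011848970, nat_lit 26661365360, nat_lit 26449742692, nat_lit 26958689357], nat_lit 1271250, nat_lit 1271250, nat_lit 631250, nat_lit 1751250, nat_lit 1100001, nat_lit 2298750, [nat_lit 490000, nat_lit 1427500, nat_lit 1271250], [nat_lit 61, nat_lit 40, nat_lit 40, nat_lit 80, nat_lit 1, nat_lit 373, nat_lit 150, nat_lit 10]⟩, C1.Rw.none,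
 ⟨nat_lit 4183, nat_lit 4473, ⟨.ofNat (nat_lit 416301), .ofNat (nat_lit 654228), .ofNat (nat_lit 459427), .ofNat (nat_lit 697354), .ofNat (nat_lit 421009), .ofNat (nat_lit 652907), .ofNat (nat_lit 464335), .ofNat (nat_lit 696233)⟩, ⟨.ofNat (nat_lit 324188), .ofNat (nat_lit 562111), .ofNat (nat_lit 345754), .ofNat (nat_lit 583678), .ofNat (nat_lit 325409), .ofNat (nat_lit 557304), .ofNat (nat_lit 347076), .ofNat (nat_lit 578971)⟩⟩, [⟨nat_lit 4, nat_lit 100, nat_lit 86, nat_lit 98, nat_lit 257017034⟩]⟩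
noncomputable def p097_l68 : Lf2 := ⟨nat_lit 0, nat_lit 25, [nat_lit 44, nat_lit 5, nat_lit 5, nat_lit 20], true, nat_lit 160, nat_lit 288, nat_lit 0, nat_lit 336, ⟨nat_lit 0, nat_lit 1000, nat_lit 0, nat_lit 7, nat_lit 228, nat_lit 1000, nat_lit 177, nat_lit 0, nat_lit 0, nat_lit 0, nat_lit 0, nat_lit 0, nat_lit 0, nat_lit 0, nat_lit 0, nat_lit 5000000, false, false⟩,
 nat_lit 0, nat_lit 6511, nat_lit 0, nat_lit 0, nat_lit 5075, nat_lit 0, nat_lit 213, nat_lit 0, nat_lit 0, nat_lit 0, nat_lit 0, nat_lit 0, nat_lit 0, nat_lit 0, nat_lit 0, nat_lit 250000, nat_lit 0, nat_lit 0, [(nat_lit 20, [(nat_lit 0, nat_lit 1000)])],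
 ⟨p097_k28, nat_lit 0, nat_lit 0, nat_lit 163, nat_lit 0, nat_lit 153947, [nat_lit 1534400001, nat_lit 2545600000, nat_lit 3257600000], [], [nat_lit 20207328965, nat_lit 20930579561, nat_lit 22376245075, nat_lit 22959268200, nat_lit 24220820286, nat_lit 24779643191, nat_lit 25462254130, nat_lit 25918523180], nat_lit 1271250, nat_lit 1271250, nat_lit 719601, nat_lit 1758000, nat_lit 1100001, nat_lit 2196000, [nat_lit 490000, nat_lit 1427500, nat_lit 1271250], [nat_lit 61, nat_lit 40, nat_lit 40, nat_lit 80, nat_lit 1, nat_lit 373, nat_lit 150, nat_lit 10]⟩, C1.Rw.none,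
 ⟨nat_lit 3872, nat_lit 4184, ⟨.ofNat (nat_lit 440878), .ofNat (nat_lit 652906), .ofNat (nat_lit 484202), .ofNat (nat_lit 696229), .ofNat (nat_lit 445199), .ofNat (nat_lit 651678), .ofNat (nat_lit 488776), .ofNat (nat_lit 695254)⟩, ⟨.ofNat (nat_lit 325409), .ofNat (nat_lit 537427), .ofNat (nat_lit 347076), .ofNat (nat_lit 559094), .ofNat (nat_lit 326511), .ofNat (nat_lit 532980), .ofNat (nat_lit 348304), .ofNat (nat_lit 554773)⟩⟩, [⟨nat_lit 4, nat_lit 100, nat_lit 79, nat_lit 96, nat_lit 273159447⟩]⟩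
noncomputable def p097_l69 : Lf2 := ⟨nat_lit 0, nat_lit 27, [nat_lit 147, nat_lit 5, nat_lit 5, nat_lit 20], true, nat_lit 160, nat_lit 300, nat_lit 0, nat_lit 336, ⟨nat_lit 0, nat_lit 1000, nat_lit 0, nat_lit 7, nat_lit 223, nat_lit 1000, nat_lit 181, nat_lit 0, nat_lit 0, nat_lit 0, nat_lit 0, nat_lit 0, nat_lit 0, nat_lit 0, nat_lit 0, nat_lit 5000000, false, false⟩,
 nat_lit 0, nat_lit 11015, nat_lit 0, nat_lit 4103, nat_lit 8260, nat_lit 0, nat_lit 0, nat_lit 0, nat_lit 0, nat_lit 0, nat_lit 0, nat_lit 0, nat_lit 0, nat_lit 0, nat_lit 0, nat_lit 250000, nat_lit 0, nat_lit 0, [(nat_lit 20, [(nat_lit 0, nat_lit 1000)])],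
 ⟨p097_k3, nat_lit 0, nat_lit 0, nat_lit 162, nat_lit 0, nat_lit 36708, [nat_lit 1534400001, nat_lit 2718000000, nat_lit 3583920000], [], [nat_lit 23590239000, nat_lit 25344908600, nat_lit 24477618880, nat_lit 25838173800, nat_lit 28094301010, nat_lit 29364094005, nat_lit 27550330420, nat_lit 28533515150], nat_lit 1271250, nat_lit 1271250, nat_lit 631250, nat_lit 1751250, nat_lit 1100001, nat_lit 2298750, [nat_lit 490000, nat_lit 1427500, nat_lit 1271250], [nat_lit 72, nat_lit 40, nat_lit 40, nat_lit 80, nat_lit 12, nat_lit 373, nat_lit 150, nat_lit 9]⟩, C1.Rw.none,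
 ⟨nat_lit 3872, nat_lit 4473, ⟨.ofNat (nat_lit 416230), .ofNat (nat_lit 654181), .ofNat (nat_lit 459327), .ofNat (nat_lit 697279), .ofNat (nat_lit 425778), .ofNat (nat_lit 651631), .ofNat (nat_lit 469330), .ofNat (nat_lit 695183)⟩, ⟨.ofNat (nat_lit 324188), .ofNat (nat_lit 562111), .ofNat (nat_lit 345754), .ofNat (nat_lit 583678), .ofNat (nat_lit 326511), .ofNat (nat_lit 552336), .ofNat (nat_lit 348304), .ofNat (nat_lit 574129)⟩⟩, [⟨nat_lit 4, nat_lit 100, nat_lit 82, nat_lit 97, nat_lit 238361276⟩]⟩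
noncomputable def p097_l70 : Lf2 := ⟨nat_lit 1, nat_lit 30, [nat_lit 15, nat_lit 5, nat_lit 5, nat_lit 20], false, nat_lit 160, nat_lit 300, nat_lit 0, nat_lit 336, zbN0,
 nat_lit 0, nat_lit 0, nat_lit 0, nat_lit 0, nat_lit 0, nat_lit 0, nat_lit 0, nat_lit 0, nat_lit 0, nat_lit 0, nat_lit 0, nat_lit 0, nat_lit 0, nat_lit 0, nat_lit 0, nat_lit 0, nat_lit 0, nat_lit 0, [],
 C1.Rw.none, C1.Rw.none,
 zbF0, []⟩
noncomputable def p097_l71 : Lf2 := ⟨nat_lit 0, nat_lit 30, [nat_lit 15, nat_lit 5, nat_lit 5, nat_lit 20], true, nat_lit 160, nat_lit 276, nat_lit 0, nat_lit 336, ⟨nat_lit 0, nat_lit 1000, nat_lit 0, nat_lit 7, nat_lit 228, nat_lit 1000, nat_lit 167, nat_lit 0, nat_lit 0, nat_lit 0, nat_lit 0, nat_lit 0, nat_lit 0, nat_lit 0, nat_lit 0, nat_lit 5000000, false, false⟩,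
 nat_lit 0, nat_lit 4795, nat_lit 0, nat_lit 2966, nat_lit 3881, nat_lit 0, nat_lit 47, nat_lit 0, nat_lit 0, nat_lit 0, nat_lit 0, nat_lit 0, nat_lit 0, nat_lit 0, nat_lit 0, nat_lit 488800, nat_lit 0, nat_lit 0, [(nat_lit 23, [(nat_lit 1, nat_lit 852), (nat_lit 2, nat_lit 148)])],
 ⟨p097_k6, nat_lit 0, nat_lit 0, nat_lit 220, nat_lit 0, nat_lit 314108, [nat_lit 1443006400, nat_lit 1088592401, nat_lit 165972133], [], [nat_lit 20761864852, nat_lit 21703928173, nat_lit 22489528139, nat_lit 23484283004, nat_lit 23473594238, nat_lit 24477680403, nat_lit 25055254570, nat_lit 25895297066], nat_lit 1271250, nat_lit 1271250, nat_lit 810650, nat_lit 1764750, nat_lit 1100001, nat_lit 2093250, [nat_lit 490000, nat_lit 1427500, nat_lit 1271250], [nat_lit 61, nat_lit 40, nat_lit 40, nat_lit 80, nat_lit 1, nat_lit 373, nat_lit 150, nat_lit 10]⟩, C1.Rw.none,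
 ⟨nat_lit 3162, nat_lit 3873, ⟨.ofNat (nat_lit 464406), .ofNat (nat_lit 651611), .ofNat (nat_lit 486170), .ofNat (nat_lit 673376), .ofNat (nat_lit 472632), .ofNat (nat_lit 649490), .ofNat (nat_lit 494758), .ofNat (nat_lit 671616)⟩, ⟨.ofNat (nat_lit 304717), .ofNat (nat_lit 491830), .ofNat (nat_lit 348304), .ofNat (nat_lit 535416), .ofNat (nat_lit 306116), .ofNat (nat_lit 482881), .ofNat (nat_lit 350426), .ofNat (nat_lit 527190)⟩⟩, [⟨nat_lit 4, nat_lit 100, nat_lit 67, nat_lit 88, nat_lit 343533131⟩]⟩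
noncomputable def p097_l72 : Lf2 := ⟨nat_lit 0, nat_lit 30, [nat_lit 15, nat_lit 5, nat_lit 5, nat_lit 20], false, nat_lit 160, nat_lit 276, nat_lit 0, nat_lit 320, ⟨nat_lit 182, nat_lit 818, nat_lit 0, nat_lit 7, nat_lit 243, nat_lit 818, nat_lit 167, nat_lit 0, nat_lit 0, nat_lit 0, nat_lit 0, nat_lit 0, nat_lit 0, nat_lit 0, nat_lit 0, nat_lit 5000000, false, false⟩,
 nat_lit 0, nat_lit 5521, nat_lit 0, nat_lit 0, nat_lit 4469, nat_lit 2788, nat_lit 172, nat_lit 0, nat_lit 0, nat_lit 0, nat_lit 0, nat_lit 0, nat_lit 0, nat_lit 0, nat_lit 0, nat_lit 355400, nat_lit 0, nat_lit 0, [(nat_lit 23, [(nat_lit 1, nat_lit 771), (nat_lit 2, nat_lit 47)])],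
 ⟨p097_k6, nat_lit 0, nat_lit 0, nat_lit 300, nat_lit 0, nat_lit 434551, [nat_lit 1508964401, nat_lit 2261173901, nat_lit 2469296000], [], [nat_lit 21355430783, nat_lit 22386126440, nat_lit 22892125499, nat_lit 23909599604, nat_lit 24039285295, nat_lit 25078135121, nat_lit 25400797034, nat_lit 26301994829], nat_lit 1271250, nat_lit 1271250, nat_lit 968401, nat_lit 1776000, nat_lit 1100001, nat_lit 2093250, [nat_lit 490000, nat_lit 1427500, nat_lit 1271250], [nat_lit 61, nat_lit 40, nat_lit 40, nat_lit 80, nat_lit 1, nat_lit 373, nat_lit 150, nat_lit 10]⟩, ⟨p097_k12, nat_lit 0, nat_lit 0, nat_lit 227, nat_lit 0, nat_lit 0, [nat_lit 597324000, nat_lit 1450176000, nat_lit 2160704000], [], [nat_lit 7355159488, nat_lit 7841674324, nat_lit 7656706648, nat_lit 8041204896, nat_lit 5877351170, nat_lit 6119593477, nat_lit 5690162328, nat_lit 5880500896], nat_lit 0, nat_lit 0, nat_lit 0, nat_lit 0, nat_lit 0, nat_lit 0, [],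 [nat_lit 79, nat_lit 40, nat_lit 40, nat_lit 80, nat_lit 14, nat_lit 456, nat_lit 225, nat_lit 12]⟩,
 ⟨nat_lit 3162, nat_lit 3873, ⟨.ofNat (nat_lit 518447), .ofNat (nat_lit 673376), .ofNat (nat_lit 540212), .ofNat (nat_lit 695141), .ofNat (nat_lit 525251), .ofNat (nat_lit 671616), .ofNat (nat_lit 547377), .ofNat (nat_lit 693742)⟩, ⟨.ofNat (nat_lit 304717), .ofNat (nat_lit 491830), .ofNat (nat_lit 348304), .ofNat (nat_lit 535416), .ofNat (nat_lit 306116), .ofNat (nat_lit 482881), .ofNat (nat_lit 350426), .ofNat (nat_lit 527190)⟩⟩, [⟨nat_lit 4, nat_lit 100, nat_lit 67, nat_lit 88, nat_lit 376665403⟩]⟩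
noncomputable def p097_l73 : Lf2 := ⟨nat_lit 0, nat_lit 30, [nat_lit 15, nat_lit 5, nat_lit 5, nat_lit 20], false, nat_lit 0, nat_lit 300, nat_lit 0, nat_lit 160, ⟨nat_lit 1000, nat_lit 0, nat_lit 0, nat_lit 0, nat_lit 0, nat_lit 0, nat_lit 0, nat_lit 0, nat_lit 0, nat_lit 0, nat_lit 0, nat_lit 0, nat_lit 0, nat_lit 0, nat_lit 0, nat_lit 0, false, false⟩,
 nat_lit 0, nat_lit 8630, nat_lit 0, nat_lit 3878, nat_lit 6472, nat_lit 7211, nat_lit 611, nat_lit 0, nat_lit 0, nat_lit 837, nat_lit 0, nat_lit 0, nat_lit 0, nat_lit 0, nat_lit 0, nat_lit 0, nat_lit 0, nat_lit 0, [],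
 ⟨p097_k13, nat_lit 0, nat_lit 0, nat_lit 375, nat_lit 0, nat_lit 305762, [nat_lit 2032000001, nat_lit 4688000000, nat_lit 11872000000], [], [nat_lit 30788968393, nat_lit 32179039705, nat_lit 39381004832, nat_lit 40793441328, nat_lit 29063977705, nat_lit 29693450993, nat_lit 34778401896, nat_lit 35690325456], nat_lit 1271250, nat_lit 1271250, nat_lit 1271250, nat_lit 1271250, nat_lit 0, nat_lit 2118750, [nat_lit 490000, nat_lit 1100000, nat_lit 2470000], [nat_lit 75, nat_lit 40, nat_lit 40, nat_lit 80, nat_lit 65, nat_lit 401, nat_lit 175, nat_lit 10]⟩, ⟨p097_k14, nat_lit 0, nat_lit 0, nat_lit 267, nat_lit 0, nat_lit 0, [nat_lit 3282000000, nat_lit 6250000000, nat_lit 14058000000], [], [nat_lit 32048447542, nat_lit 33825462522, nat_lit 40194085010, nat_lit 41448546516, nat_lit 26795804238, nat_lit 28286405834, nat_lit 32864551310, nat_lit 33948422474], nat_lit 0, nat_lit 0, nat_lit 0, nat_lit 0, nat_lit 0, nat_lit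 0, [], [nat_lit 71, nat_lit 40, nat_lit 40, nat_lit 80, nat_lit 68, nat_lit 456, nat_lit 225, nat_lit 10]⟩,
 zbF0, [⟨nat_lit 16, nat_lit 81, nat_lit 100, nat_lit 92, nat_lit 109780910⟩, ⟨nat_lit 21, nat_lit 83, nat_lit 100, nat_lit 83, nat_lit 9261899⟩, ⟨nat_lit 9, nat_lit 100, nat_lit 83, nat_lit 39, nat_lit 22788057⟩]⟩
noncomputable def p097_l74 : Lf2 := ⟨nat_lit 0, nat_lit 30, [nat_lit 15, nat_lit 5, nat_lit 5, nat_lit 20], false, nat_lit 0, nat_lit 276, nat_lit 0, nat_lit 160, ⟨nat_lit 1000, nat_lit 0, nat_lit 0, nat_lit 0, nat_lit 0, nat_lit 0, nat_lit 0, nat_lit 0, nat_lit 0, nat_lit 0, nat_lit 0, nat_lit 0, nat_lit 0, nat_lit 0, nat_lit 0, nat_lit 0, false, false⟩,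
 nat_lit 0, nat_lit 7004, nat_lit 0, nat_lit 0, nat_lit 5669, nat_lit 7211, nat_lit 418, nat_lit 0, nat_lit 0, nat_lit 837, nat_lit 0, nat_lit 0, nat_lit 0, nat_lit 0, nat_lit 0, nat_lit 0, nat_lit 0, nat_lit 0, [],
 ⟨p097_k15, nat_lit 0, nat_lit 0, nat_lit 394, nat_lit 0, nat_lit 434551, [nat_lit 2032000001, nat_lit 4688000000, nat_lit 9842000000], [], [nat_lit 30576699896, nat_lit 32027968110, nat_lit 38858512820, nat_lit 39770552790, nat_lit 29428580697, nat_lit 30134394957, nat_lit 34761031129, nat_lit 35391604880], nat_lit 1271250, nat_lit 1271250, nat_lit 1271250, nat_lit 1271250, nat_lit 0, nat_lit 1949250, [nat_lit 490000, nat_lit 1100000, nat_lit 2127500], [nat_lit 27, nat_lit 40, nat_lit 40, nat_lit 80, nat_lit 13, nat_lit 401, nat_lit 175, nat_lit 11]⟩, ⟨p097_k14, nat_lit 0, nat_lit 0, nat_lit 267, nat_lit 0, nat_lit 0, [nat_lit 3282000000, nat_lit 6250000000, nat_lit 14058000000], [], [nat_lit 32048447542,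 nat_lit 33825462522, nat_lit 40194085010, nat_lit 41448546516, nat_lit 26795804238, nat_lit 28286405834, nat_lit 32864551310, nat_lit 33948422474], nat_lit 0, nat_lit 0, nat_lit 0, nat_lit 0, nat_lit 0, nat_lit 0, [], [nat_lit 71, nat_lit 40, nat_lit 40, nat_lit 80, nat_lit 68, nat_lit 456, nat_lit 225, nat_lit 10]⟩,
 zbF0, [⟨nat_lit 16, nat_lit 67, nat_lit 100, nat_lit 88, nat_lit 155436768⟩, ⟨nat_lit 9, nat_lit 100, nat_lit 84, nat_lit 34, nat_lit 31668408⟩]⟩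
noncomputable def p097_l75 : Lf2 := ⟨nat_lit 0, nat_lit 30, [nat_lit 15, nat_lit 5, nat_lit 5, nat_lit 20], false, nat_lit 0, nat_lit 300, nat_lit 160, nat_lit 336, ⟨nat_lit 1000, nat_lit 0, nat_lit 0, nat_lit 0, nat_lit 0, nat_lit 0, nat_lit 0, nat_lit 0, nat_lit 0, nat_lit 0, nat_lit 0, nat_lit 0, nat_lit 0, nat_lit 0, nat_lit 0, nat_lit 0, false, false⟩,
 nat_lit 0, nat_lit 8495, nat_lit 0, nat_lit 0, nat_lit 6371, nat_lit 6882, nat_lit 523, nat_lit 0, nat_lit 0, nat_lit 0, nat_lit 0, nat_lit 0, nat_lit 0, nat_lit 0, nat_lit 0, nat_lit 0, nat_lit 0, nat_lit 0, [],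
 ⟨p097_k13, nat_lit 0, nat_lit 0, nat_lit 481, nat_lit 0, nat_lit 483604, [nat_lit 2032000001, nat_lit 4688000000, nat_lit 11872000000], [], [nat_lit 33107979785, nat_lit 34785796825, nat_lit 40187787977, nat_lit 41900882253, nat_lit 31342815683, nat_lit 32392023394, nat_lit 35216843491, nat_lit 36472231413], nat_lit 1271250, nat_lit 1271250, nat_lit 1271250, nat_lit 1271250, nat_lit 0, nat_lit 2118750, [nat_lit 490000, nat_lit 1100000, nat_lit 2470000], [nat_lit 75, nat_lit 40, nat_lit 40, nat_lit 80, nat_lit 65, nat_lit 401, nat_lit 175, nat_lit 10]⟩, ⟨p097_k14, nat_lit 0, nat_lit 0, nat_lit 90, nat_lit 0, nat_lit 0, [nat_lit 3282000000, nat_lit 6250000000, nat_lit 14058000000], [], [nat_lit 19574929760, nat_lit 22566246792, nat_lit 30795560448, nat_lit 32550953456, nat_lit 27406342343, nat_lit 29307730426, nat_lit 35284441327, nat_lit 36653356933], nat_lit 0, nat_lit 0, nat_lit 0, nat_lit 0, nat_lit 0, nat_lit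 0, [], [nat_lit 71, nat_lit 40, nat_lit 40, nat_lit 80, nat_lit 68, nat_lit 538, nat_lit 300, nat_lit 12]⟩,
 zbF0, [⟨nat_lit 4, nat_lit 100, nat_lit 74, nat_lit 90, nat_lit 135384217⟩, ⟨nat_lit 7, nat_lit 100, nat_lit 100, nat_lit 100, nat_lit 384690007⟩]⟩
noncomputable def p097_l76 : Lf2 := ⟨nat_lit 0, nat_lit 30, [nat_lit 15, nat_lit 5, nat_lit 5, nat_lit 20], false, nat_lit 0, nat_lit 160, nat_lit 0, nat_lit 336, ⟨nat_lit 0, nat_lit 1000, nat_lit 0, nat_lit 7, nat_lit 224, nat_lit 1000, nat_lit 65, nat_lit 0, nat_lit 0, nat_lit 0, nat_lit 0, nat_lit 0, nat_lit 0, nat_lit 0, nat_lit 0, nat_lit 5000000, false, false⟩,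
 nat_lit 0, nat_lit 5064, nat_lit 0, nat_lit 523, nat_lit 3798, nat_lit 0, nat_lit 21, nat_lit 0, nat_lit 0, nat_lit 0, nat_lit 0, nat_lit 0, nat_lit 0, nat_lit 0, nat_lit 30, nat_lit 608200, nat_lit 0, nat_lit 0, [(nat_lit 20, [(nat_lit 1, nat_lit 653), (nat_lit 2, nat_lit 347)]), (nat_lit 23, [(nat_lit 1, nat_lit 653), (nat_lit 2, nat_lit 347)])],
 ⟨p097_k9, nat_lit 0, nat_lit 0, nat_lit 411, nat_lit 0, nat_lit 293955, [nat_lit 2046346601, nat_lit 1939939000, nat_lit 62886000], [], [nat_lit 24745979830, nat_lit 25152676598, nat_lit 25030038322, nat_lit 26415863241, nat_lit 22574998942, nat_lit 23995379666, nat_lit 23877602106, nat_lit 25140774049], nat_lit 1271250, nat_lit 1271250, nat_lit 631250, nat_lit 1751250, nat_lit 0, nat_lit 1100001, [nat_lit 490000, nat_lit 1427500, nat_lit 1271250], [nat_lit 72, nat_lit 40, nat_lit 40, nat_lit 80, nat_lit 12, nat_lit 317, nat_lit 100, nat_lit 8]⟩, ⟨p097_k7, nat_lit 0,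 nat_lit 0, nat_lit 554, nat_lit 0, nat_lit 364590, [nat_lit 0, nat_lit 0, nat_lit 0], [], [nat_lit 0, nat_lit 0, nat_lit 0, nat_lit 0, nat_lit 0, nat_lit 0, nat_lit 0, nat_lit 0], nat_lit 1271250, nat_lit 1271250, nat_lit 631250, nat_lit 1751250, nat_lit 0, nat_lit 2373000, [nat_lit 780000, nat_lit 1762500, nat_lit 1271250], [nat_lit 84, nat_lit 40, nat_lit 40, nat_lit 80, nat_lit 28, nat_lit 456, nat_lit 225, nat_lit 11]⟩,
 ⟨nat_lit 3162, nat_lit 4473, ⟨.ofNat (nat_lit 415764), .ofNat (nat_lit 653959), .ofNat (nat_lit 458716), .ofNat (nat_lit 696911), .ofNat (nat_lit 435680), .ofNat (nat_lit 649288), .ofNat (nat_lit 479808), .ofNat (nat_lit 693416)⟩, ⟨.ofNat (nat_lit 0), .ofNat (nat_lit 302621), .ofNat (nat_lit 0), .ofNat (nat_lit 345754), .ofNat (nat_lit 0), .ofNat (nat_lit 306116), .ofNat (nat_lit 0), .ofNat (nat_lit 350426)⟩⟩, []⟩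
noncomputable def p097_l77 : Lf2 := ⟨nat_lit 0, nat_lit 25, [nat_lit 44, nat_lit 5, nat_lit 5, nat_lit 20], false, nat_lit 160, nat_lit 300, nat_lit 0, nat_lit 336, ⟨nat_lit 76, nat_lit 924, nat_lit 0, nat_lit 7, nat_lit 223, nat_lit 924, nat_lit 177, nat_lit 0, nat_lit 0, nat_lit 0, nat_lit 0, nat_lit 0, nat_lit 0, nat_lit 0, nat_lit 0, nat_lit 5000000, false, false⟩,
 nat_lit 1738, nat_lit 6527, nat_lit 0, nat_lit 0, nat_lit 6198, nat_lit 1106, nat_lit 129, nat_lit 0, nat_lit 0, nat_lit 0, nat_lit 0, nat_lit 0, nat_lit 0, nat_lit 0, nat_lit 0, nat_lit 231000, nat_lit 0, nat_lit 0, [(nat_lit 20, [(nat_lit 0, nat_lit 924)])],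
 ⟨p097_k0, nat_lit 0, nat_lit 0, nat_lit 178, nat_lit 0, nat_lit 175518, [nat_lit 1572217601, nat_lit 2827134400, nat_lit 3758014400], [], [nat_lit 20490362917, nat_lit 22136964263, nat_lit 22531713633, nat_lit 23825007013, nat_lit 25489322280, nat_lit 26704918025, nat_lit 26216984943, nat_lit 27212458627], nat_lit 1271250, nat_lit 1271250, nat_lit 631250, nat_lit 1751250, nat_lit 1100001, nat_lit 2298750, [nat_lit 490000, nat_lit 1427500, nat_lit 1271250], [nat_lit 61, nat_lit 40, nat_lit 40, nat_lit 80, nat_lit 1, nat_lit 373, nat_lit 150, nat_lit 10]⟩, ⟨p097_k1, nat_lit 0, nat_lit 0, nat_lit 386, nat_lit 0, nat_lit 217208, [nat_lit 249432000, nat_lit 605568000, nat_lit 902272000], [], [nat_lit 3475583724, nat_lit 3388129000, nat_lit 3013614016, nat_lit 3323266464, nat_lit 2667578521, nat_lit 2865228163, nat_lit 3332743239, nat_lit 2573258375], nat_lit 1271250, nat_lit 1271250, nat_lit 631250, nat_lit 1751250,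 nat_lit 0, nat_lit 2373000, [nat_lit 780000, nat_lit 1762500, nat_lit 1271250], [nat_lit 79, nat_lit 40, nat_lit 40, nat_lit 80, nat_lit 14, nat_lit 456, nat_lit 225, nat_lit 12]⟩,
 ⟨nat_lit 3872, nat_lit 4473, ⟨.ofNat (nat_lit 416230), .ofNat (nat_lit 654181), .ofNat (nat_lit 459327), .ofNat (nat_lit 697279), .ofNat (nat_lit 425778), .ofNat (nat_lit 651631), .ofNat (nat_lit 469330), .ofNat (nat_lit 695183)⟩, ⟨.ofNat (nat_lit 302621), .ofNat (nat_lit 540545), .ofNat (nat_lit 345754), .ofNat (nat_lit 583678), .ofNat (nat_lit 304717), .ofNat (nat_lit 530543), .ofNat (nat_lit 348304), .ofNat (nat_lit 574129)⟩⟩, [⟨nat_lit 4, nat_lit 100, nat_lit 81, nat_lit 92, nat_lit 301837478⟩, ⟨nat_lit 7, nat_lit 100, nat_lit 100, nat_lit 100, nat_lit 3236511⟩]⟩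
noncomputable def p097_l78 : Lf2 := ⟨nat_lit 0, nat_lit 30, [nat_lit 15, nat_lit 5, nat_lit 5, nat_lit 20], false, nat_lit 160, nat_lit 300, nat_lit 0, nat_lit 336, ⟨nat_lit 0, nat_lit 1000, nat_lit 0, nat_lit 7, nat_lit 223, nat_lit 1000, nat_lit 177, nat_lit 0, nat_lit 0, nat_lit 0, nat_lit 0, nat_lit 0, nat_lit 0, nat_lit 0, nat_lit 0, nat_lit 5000000, false, false⟩,
 nat_lit 0, nat_lit 9340, nat_lit 0, nat_lit 0, nat_lit 7004, nat_lit 0, nat_lit 105, nat_lit 0, nat_lit 0, nat_lit 0, nat_lit 0, nat_lit 0, nat_lit 0, nat_lit 0, nat_lit 0, nat_lit 250000, nat_lit 0, nat_lit 0, [(nat_lit 20, [(nat_lit 0, nat_lit 1000)])],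
 ⟨p097_k9, nat_lit 0, nat_lit 0, nat_lit 183, nat_lit 0, nat_lit 103726, [nat_lit 1534400001, nat_lit 2718000000, nat_lit 3583920000], [], [nat_lit 22499641125, nat_lit 24083419365, nat_lit 23728479677, nat_lit 24968405845, nat_lit 26853719779, nat_lit 28015206952, nat_lit 26823825593, nat_lit 27734682935], nat_lit 1271250, nat_lit 1271250, nat_lit 631250, nat_lit 1751250, nat_lit 1100001, nat_lit 2298750, [nat_lit 490000, nat_lit 1427500, nat_lit 1271250], [nat_lit 72, nat_lit 40, nat_lit 40, nat_lit 80, nat_lit 12, nat_lit 373, nat_lit 150, nat_lit 9]⟩, ⟨p097_k7, nat_lit 0, nat_lit 0, nat_lit 414, nat_lit 0, nat_lit 128650, [nat_lit 0, nat_lit 0, nat_lit 0], [], [nat_lit 0, nat_lit 0, nat_lit 0, nat_lit 0, nat_lit 0, nat_lit 0, nat_lit 0, nat_lit 0], nat_lit 1271250, nat_lit 1271250, nat_lit 631250, nat_lit 1751250, nat_lit 0, nat_lit 2373000, [nat_lit 780000, nat_lit 1762500, nat_lit 1271250], [nat_lit 84, nat_lit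 40, nat_lit 40, nat_lit 80, nat_lit 28, nat_lit 456, nat_lit 225, nat_lit 11]⟩,
 ⟨nat_lit 3872, nat_lit 4473, ⟨.ofNat (nat_lit 416230), .ofNat (nat_lit 654181), .ofNat (nat_lit 459327), .ofNat (nat_lit 697279), .ofNat (nat_lit 425778), .ofNat (nat_lit 651631), .ofNat (nat_lit 469330), .ofNat (nat_lit 695183)⟩, ⟨.ofNat (nat_lit 302621), .ofNat (nat_lit 540545), .ofNat (nat_lit 345754), .ofNat (nat_lit 583678), .ofNat (nat_lit 304717), .ofNat (nat_lit 530543), .ofNat (nat_lit 348304), .ofNat (nat_lit 574129)⟩⟩, [⟨nat_lit 4, nat_lit 100, nat_lit 81, nat_lit 92, nat_lit 259505759⟩]⟩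
noncomputable def p097_l79 : Lf2 := ⟨nat_lit 0, nat_lit 30, [nat_lit 15, nat_lit 5, nat_lit 5, nat_lit 20], false, nat_lit 160, nat_lit 276, nat_lit 0, nat_lit 336, ⟨nat_lit 0, nat_lit 1000, nat_lit 0, nat_lit 7, nat_lit 233, nat_lit 1000, nat_lit 167, nat_lit 0, nat_lit 0, nat_lit 0, nat_lit 0, nat_lit 0, nat_lit 0, nat_lit 0, nat_lit 0, nat_lit 5000000, false, false⟩,
 nat_lit 0, nat_lit 6763, nat_lit 0, nat_lit 0, nat_lit 5474, nat_lit 0, nat_lit 120, nat_lit 0, nat_lit 0, nat_lit 0, nat_lit 0, nat_lit 0, nat_lit 0, nat_lit 0, nat_lit 0, nat_lit 250000, nat_lit 0, nat_lit 0, [(nat_lit 23, [(nat_lit 0, nat_lit 1000)])],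
 ⟨p097_k6, nat_lit 0, nat_lit 0, nat_lit 203, nat_lit 0, nat_lit 266558, [nat_lit 1576000001, nat_lit 2330800000, nat_lit 3132400000], [], [nat_lit 21480553707, nat_lit 22965370400, nat_lit 23474677244, nat_lit 24685934184, nat_lit 24829971325, nat_lit 26005823783, nat_lit 26040782962, nat_lit 27005035332], nat_lit 1271250, nat_lit 1271250, nat_lit 810650, nat_lit 1764750, nat_lit 1100001, nat_lit 2093250, [nat_lit 490000, nat_lit 1427500, nat_lit 1271250], [nat_lit 61, nat_lit 40, nat_lit 40, nat_lit 80, nat_lit 1, nat_lit 373, nat_lit 150, nat_lit 10]⟩, ⟨p097_k7, nat_lit 0, nat_lit 0, nat_lit 541, nat_lit 0, nat_lit 364590, [nat_lit 0, nat_lit 0, nat_lit 0], [], [nat_lit 0, nat_lit 0, nat_lit 0, nat_lit 0, nat_lit 0, nat_lit 0, nat_lit 0, nat_lit 0], nat_lit 1271250, nat_lit 1271250, nat_lit 810650, nat_lit 1764750, nat_lit 0, nat_lit 2373000, [nat_lit 780000, nat_lit 1762500, nat_lit 1271250], [nat_lit 84, nat_lit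 40, nat_lit 40, nat_lit 80, nat_lit 28, nat_lit 456, nat_lit 225, nat_lit 11]⟩,
 ⟨nat_lit 3162, nat_lit 3873, ⟨.ofNat (nat_lit 464406), .ofNat (nat_lit 651611), .ofNat (nat_lit 507934), .ofNat (nat_lit 695141), .ofNat (nat_lit 472632), .ofNat (nat_lit 649490), .ofNat (nat_lit 516884), .ofNat (nat_lit 693742)⟩, ⟨.ofNat (nat_lit 304717), .ofNat (nat_lit 491830), .ofNat (nat_lit 348304), .ofNat (nat_lit 535416), .ofNat (nat_lit 306116), .ofNat (nat_lit 482881), .ofNat (nat_lit 350426), .ofNat (nat_lit 527190)⟩⟩, [⟨nat_lit 4, nat_lit 100, nat_lit 67, nat_lit 88, nat_lit 336814285⟩]⟩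
noncomputable def p097_l80 : Lf2 := ⟨nat_lit 0, nat_lit 30, [nat_lit 15, nat_lit 5, nat_lit 5, nat_lit 20], false, nat_lit 0, nat_lit 160, nat_lit 0, nat_lit 336, ⟨nat_lit 1000, nat_lit 0, nat_lit 0, nat_lit 0, nat_lit 0, nat_lit 0, nat_lit 0, nat_lit 0, nat_lit 0, nat_lit 0, nat_lit 0, nat_lit 0, nat_lit 0, nat_lit 0, nat_lit 0, nat_lit 0, false, false⟩,
 nat_lit 11208, nat_lit 0, nat_lit 0, nat_lit 2300, nat_lit 6305, nat_lit 7132, nat_lit 572, nat_lit 0, nat_lit 0, nat_lit 796, nat_lit 0, nat_lit 0, nat_lit 0, nat_lit 0, nat_lit 0, nat_lit 0, nat_lit 0, nat_lit 0, [],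
 ⟨p097_k13, nat_lit 0, nat_lit 0, nat_lit 343, nat_lit 0, nat_lit 185856, [nat_lit 2032000001, nat_lit 4688000000, nat_lit 11872000000], [], [nat_lit 31202034340, nat_lit 32579491700, nat_lit 39456175660, nat_lit 40309272450, nat_lit 26900733420, nat_lit 27892774080, nat_lit 33412496440, nat_lit 34153069780], nat_lit 1271250, nat_lit 1271250, nat_lit 1271250, nat_lit 1271250, nat_lit 0, nat_lit 1100001, [nat_lit 490000, nat_lit 1100000, nat_lit 2470000], [nat_lit 75, nat_lit 40, nat_lit 40, nat_lit 80, nat_lit 65, nat_lit 373, nat_lit 150, nat_lit 9]⟩, ⟨p097_k14, nat_lit 0, nat_lit 0, nat_lit 402, nat_lit 0, nat_lit 230515, [nat_lit 3282000000, nat_lit 6250000000, nat_lit 14058000000], [], [nat_lit 32620773704, nat_lit 34389637464, nat_lit 40618840120, nat_lit 41868706776, nat_lit 30691100863, nat_lit 31601857093, nat_lit 35580835127, nat_lit 36963029533], nat_lit 1271250, nat_lit 1271250, nat_lit 1271250, nat_lit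 1271250, nat_lit 0, nat_lit 2373000, [nat_lit 780000, nat_lit 1435000, nat_lit 1271250], [nat_lit 71, nat_lit 40, nat_lit 40, nat_lit 80, nat_lit 68, nat_lit 538, nat_lit 300, nat_lit 12]⟩,
 zbF0, [⟨nat_lit 7, nat_lit 100, nat_lit 100, nat_lit 100, nat_lit 116372698⟩]⟩
noncomputable def p097_l81 : Lf2 := ⟨nat_lit 0, nat_lit 30, [nat_lit 15, nat_lit 5, nat_lit 5, nat_lit 20], false, nat_lit 0, nat_lit 160, nat_lit 0, nat_lit 336, ⟨nat_lit 627, nat_lit 373, nat_lit 0, nat_lit 7, nat_lit 319, nat_lit 373, nat_lit 65, nat_lit 0, nat_lit 0, nat_lit 0, nat_lit 0, nat_lit 0, nat_lit 0, nat_lit 0, nat_lit 0, nat_lit 5000000, true, true⟩,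
 nat_lit 7237, nat_lit 0, nat_lit 0, nat_lit 0, nat_lit 5641, nat_lit 4605, nat_lit 0, nat_lit 0, nat_lit 0, nat_lit 418, nat_lit 0, nat_lit 0, nat_lit 0, nat_lit 0, nat_lit 0, nat_lit 298000, nat_lit 0, nat_lit 0, [(nat_lit 23, [(nat_lit 1, nat_lit 125), (nat_lit 2, nat_lit 248)])],
 ⟨p097_k15, nat_lit 0, nat_lit 0, nat_lit 328, nat_lit 0, nat_lit 266558, [nat_lit 1789937334, nat_lit 3269056801, nat_lit 4783393200], [], [nat_lit 30470666094, nat_lit 31917963740, nat_lit 38734211930, nat_lit 39684381172, nat_lit 26872728214, nat_lit 27751179510, nat_lit 33631647072, nat_lit 34422933560], nat_lit 1271250, nat_lit 1271250, nat_lit 1271250, nat_lit 1271250, nat_lit 0, nat_lit 1100001, [nat_lit 490000, nat_lit 1100000, nat_lit 2127500], [nat_lit 27, nat_lit 40, nat_lit 40, nat_lit 80, nat_lit 13, nat_lit 373, nat_lit 150, nat_lit 10]⟩, ⟨p097_k14, nat_lit 0, nat_lit 0, nat_lit 441, nat_lit 0, nat_lit 364590, [nat_lit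 2057814000, nat_lit 3918750000, nat_lit 8814366000], [], [nat_lit 22041701188, nat_lit 22908173392, nat_lit 26671902232, nat_lit 27460606012, nat_lit 20371976702, nat_lit 20795080788, nat_lit 22973672313, nat_lit 23352290990], nat_lit 1271250, nat_lit 1271250, nat_lit 1271250, nat_lit 1271250, nat_lit 0, nat_lit 2373000, [nat_lit 780000, nat_lit 1435000, nat_lit 1271250], [nat_lit 71, nat_lit 40, nat_lit 40, nat_lit 80, nat_lit 68, nat_lit 538, nat_lit 300, nat_lit 12]⟩,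
 ⟨nat_lit 3162, nat_lit 3873, ⟨.ofNat (nat_lit 651611), .ofNat (nat_lit 909779), .ofNat (nat_lit 695141), .ofNat (nat_lit 953347), .ofNat (nat_lit 649490), .ofNat (nat_lit 893385), .ofNat (nat_lit 693742), .ofNat (nat_lit 937676)⟩, ⟨.ofNat (nat_lit 0), .ofNat (nat_lit 304717), .ofNat (nat_lit 0), .ofNat (nat_lit 348304), .ofNat (nat_lit 0), .ofNat (nat_lit 306116), .ofNat (nat_lit 0), .ofNat (nat_lit 350426)⟩⟩, [⟨nat_lit 7, nat_lit 100, nat_lit 100, nat_lit 100, nat_lit 10690514⟩, ⟨nat_lit 22, nat_lit 83, nat_lit 100, nat_lit 83, nat_lit 67997280⟩]⟩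
noncomputable def p097_l82 : Lf2 := ⟨nat_lit 0, nat_lit 30, [nat_lit 15, nat_lit 5, nat_lit 5, nat_lit 20], false, nat_lit 160, nat_lit 300, nat_lit 0, nat_lit 160, ⟨nat_lit 896, nat_lit 104, nat_lit 0, nat_lit 7, nat_lit 321, nat_lit 104, nat_lit 176, nat_lit 0, nat_lit 0, nat_lit 0, nat_lit 0, nat_lit 0, nat_lit 0, nat_lit 0, nat_lit 0, nat_lit 5000000, true, true⟩,
 nat_lit 11290, nat_lit 0, nat_lit 0, nat_lit 0, nat_lit 7642, nat_lit 7184, nat_lit 437, nat_lit 0, nat_lit 0, nat_lit 567, nat_lit 0, nat_lit 0, nat_lit 0, nat_lit 0, nat_lit 0, nat_lit 26000, nat_lit 0, nat_lit 0, [(nat_lit 20, [(nat_lit 0, nat_lit 104)]), (nat_lit 23, [(nat_lit 0, nat_lit 104)])],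
 ⟨p097_k9, nat_lit 0, nat_lit 0, nat_lit 243, nat_lit 0, nat_lit 293955, [nat_lit 1984576001, nat_lit 5882672001, nat_lit 10995030400], [], [nat_lit 26536381418, nat_lit 28574892049, nat_lit 33676198561, nat_lit 36212167120, nat_lit 29056338639, nat_lit 30951532421, nat_lit 36147556956, nat_lit 38108393526], nat_lit 1271250, nat_lit 1271250, nat_lit 1271250, nat_lit 1271250, nat_lit 1100001, nat_lit 2298750, [nat_lit 490000, nat_lit 1427500, nat_lit 1271250], [nat_lit 72, nat_lit 40, nat_lit 40, nat_lit 80, nat_lit 12, nat_lit 401, nat_lit 175, nat_lit 9]⟩, ⟨p097_k7, nat_lit 0, nat_lit 0, nat_lit 449, nat_lit 0, nat_lit 364590, [nat_lit 2940672000, nat_lit 7139328000, nat_lit 12595968000], [], [nat_lit 33438997900, nat_lit 34475115916, nat_lit 38305901376, nat_lit 39165433856, nat_lit 28212023052, nat_lit 29161650496, nat_lit 32783243264, nat_lit 33479135936], nat_lit 1271250, nat_lit 1271250, nat_lit 1271250, nat_lit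 1271250, nat_lit 0, nat_lit 1100001, [nat_lit 780000, nat_lit 1762500, nat_lit 1271250], [nat_lit 84, nat_lit 40, nat_lit 40, nat_lit 80, nat_lit 28, nat_lit 456, nat_lit 225, nat_lit 10]⟩,
 ⟨nat_lit 3162, nat_lit 4473, ⟨.ofNat (nat_lit 653959), .ofNat (nat_lit 926092), .ofNat (nat_lit 696911), .ofNat (nat_lit 969090), .ofNat (nat_lit 649288), .ofNat (nat_lit 893321), .ofNat (nat_lit 693416), .ofNat (nat_lit 937496)⟩, ⟨.ofNat (nat_lit 302621), .ofNat (nat_lit 540545), .ofNat (nat_lit 345754), .ofNat (nat_lit 583678), .ofNat (nat_lit 306116), .ofNat (nat_lit 519453), .ofNat (nat_lit 350426), .ofNat (nat_lit 563762)⟩⟩, [⟨nat_lit 4, nat_lit 100, nat_lit 74, nat_lit 90, nat_lit 401073805⟩, ⟨nat_lit 9, nat_lit 100, nat_lit 81, nat_lit 72, nat_lit 43078403⟩]⟩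
noncomputable def p097_l83 : Lf2 := ⟨nat_lit 0, nat_lit 30, [nat_lit 15, nat_lit 5, nat_lit 5, nat_lit 20], false, nat_lit 160, nat_lit 300, nat_lit 160, nat_lit 336, ⟨nat_lit 1000, nat_lit 0, nat_lit 0, nat_lit 0, nat_lit 0, nat_lit 0, nat_lit 0, nat_lit 0, nat_lit 0, nat_lit 0, nat_lit 0, nat_lit 0, nat_lit 0, nat_lit 0, nat_lit 0, nat_lit 0, false, false⟩,
 nat_lit 12018, nat_lit 0, nat_lit 0, nat_lit 16503, nat_lit 6706, nat_lit 7647, nat_lit 566, nat_lit 0, nat_lit 0, nat_lit 706, nat_lit 0, nat_lit 0, nat_lit 0, nat_lit 0, nat_lit 0, nat_lit 0, nat_lit 0, nat_lit 0, [],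
 ⟨p097_k9, nat_lit 0, nat_lit 0, nat_lit 183, nat_lit 0, nat_lit 100732, [nat_lit 2032000001, nat_lit 6250000000, nat_lit 11872000000], [], [nat_lit 25560519678, nat_lit 26771825330, nat_lit 32830092598, nat_lit 33587722596, nat_lit 28661235852, nat_lit 29554932715, nat_lit 35052232908, nat_lit 35977855413], nat_lit 1271250, nat_lit 1271250, nat_lit 1271250, nat_lit 1271250, nat_lit 1100001, nat_lit 2298750, [nat_lit 490000, nat_lit 1427500, nat_lit 1271250], [nat_lit 72, nat_lit 40, nat_lit 40, nat_lit 80, nat_lit 12, nat_lit 401, nat_lit 175, nat_lit 9]⟩, ⟨p097_k7, nat_lit 0, nat_lit 0, nat_lit 216, nat_lit 0, nat_lit 124936, [nat_lit 3282000000, nat_lit 7968000000, nat_lit 14058000000], [], [nat_lit 25369833152, nat_lit 26357939518, nat_lit 33036075552, nat_lit 33868717168, nat_lit 29751879840, nat_lit 30354656600, nat_lit 36398360252, nat_lit 36896180722], nat_lit 1271250, nat_lit 1271250, nat_lit 1271250, nat_lit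 1271250, nat_lit 1100001, nat_lit 2607000, [nat_lit 780000, nat_lit 1762500, nat_lit 1271250], [nat_lit 84, nat_lit 40, nat_lit 40, nat_lit 80, nat_lit 28, nat_lit 538, nat_lit 300, nat_lit 12]⟩,
 zbF0, [⟨nat_lit 4, nat_lit 100, nat_lit 81, nat_lit 92, nat_lit 428101580⟩, ⟨nat_lit 19, nat_lit 100, nat_lit 94, nat_lit 97, nat_lit 324170624⟩]⟩
noncomputable def p097_l84 : Lf2 := ⟨nat_lit 0, nat_lit 30, [nat_lit 15, nat_lit 5, nat_lit 5, nat_lit 20], false, nat_lit 160, nat_lit 300, nat_lit 160, nat_lit 320, ⟨nat_lit 1000, nat_lit 0, nat_lit 0, nat_lit 0, nat_lit 0, nat_lit 0, nat_lit 0, nat_lit 0, nat_lit 0, nat_lit 0, nat_lit 0, nat_lit 0, nat_lit 0, nat_lit 0, nat_lit 0, nat_lit 0, false, false⟩,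
 nat_lit 15911, nat_lit 0, nat_lit 0, nat_lit 0, nat_lit 6706, nat_lit 11015, nat_lit 566, nat_lit 0, nat_lit 0, nat_lit 59, nat_lit 0, nat_lit 0, nat_lit 0, nat_lit 0, nat_lit 0, nat_lit 0, nat_lit 0, nat_lit 0, [],
 ⟨p097_k9, nat_lit 0, nat_lit 0, nat_lit 208, nat_lit 0, nat_lit 185856, [nat_lit 2032000001, nat_lit 6250000000, nat_lit 11872000000], [], [nat_lit 25560519678, nat_lit 26771825330, nat_lit 32830092598, nat_lit 33587722596, nat_lit 28661235852, nat_lit 29554932715, nat_lit 35052232908, nat_lit 35977855413], nat_lit 1271250, nat_lit 1271250, nat_lit 1271250, nat_lit 1271250, nat_lit 1100001, nat_lit 2298750, [nat_lit 490000, nat_lit 1427500, nat_lit 1271250], [nat_lit 72, nat_lit 40, nat_lit 40, nat_lit 80, nat_lit 12, nat_lit 401, nat_lit 175, nat_lit 9]⟩, ⟨p097_k12, nat_lit 0, nat_lit 0, nat_lit 219, nat_lit 0, nat_lit 206240, [nat_lit 3282000000, nat_lit 7968000000, nat_lit 11872000000], [], [nat_lit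 28973412755, nat_lit 30376808445, nat_lit 38923734615, nat_lit 39644981745, nat_lit 33281995245, nat_lit 34148647905, nat_lit 39953112340, nat_lit 40812348680], nat_lit 1271250, nat_lit 1271250, nat_lit 1271250, nat_lit 1271250, nat_lit 1100001, nat_lit 2470000, [nat_lit 780000, nat_lit 1762500, nat_lit 1271250], [nat_lit 79, nat_lit 40, nat_lit 40, nat_lit 80, nat_lit 14, nat_lit 538, nat_lit 300, nat_lit 13]⟩,
 zbF0, [⟨nat_lit 4, nat_lit 100, nat_lit 81, nat_lit 92, nat_lit 409280735⟩, ⟨nat_lit 19, nat_lit 93, nat_lit 100, nat_lit 97, nat_lit 289450484⟩]⟩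
noncomputable def p097_l85 : Lf2 := ⟨nat_lit 0, nat_lit 30, [nat_lit 15, nat_lit 5, nat_lit 5, nat_lit 20], false, nat_lit 160, nat_lit 276, nat_lit 160, nat_lit 336, ⟨nat_lit 991, nat_lit 9, nat_lit 0, nat_lit 7, nat_lit 314, nat_lit 9, nat_lit 167, nat_lit 0, nat_lit 0, nat_lit 0, nat_lit 0, nat_lit 0, nat_lit 0, nat_lit 0, nat_lit 0, nat_lit 5000000, true, true⟩,
 nat_lit 11979, nat_lit 0, nat_lit 0, nat_lit 4081, nat_lit 9697, nat_lit 7623, nat_lit 0, nat_lit 0, nat_lit 0, nat_lit 649, nat_lit 0, nat_lit 0, nat_lit 0, nat_lit 0, nat_lit 0, nat_lit 2250, nat_lit 0, nat_lit 0, [(nat_lit 23, [(nat_lit 0, nat_lit 9)])],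
 ⟨p097_k6, nat_lit 0, nat_lit 0, nat_lit 192, nat_lit 0, nat_lit 197448, [nat_lit 2027896001, nat_lit 6214727200, nat_lit 9781613600], [], [nat_lit 28888959482, nat_lit 30578724552, nat_lit 37789851435, nat_lit 38805366070, nat_lit 31360637653, nat_lit 32654167046, nat_lit 38569077273, nat_lit 39775779656], nat_lit 1271250, nat_lit 1271250, nat_lit 1271250, nat_lit 1271250, nat_lit 1100001, nat_lit 2093250, [nat_lit 490000, nat_lit 1427500, nat_lit 1271250], [nat_lit 61, nat_lit 40, nat_lit 40, nat_lit 80, nat_lit 1, nat_lit 401, nat_lit 175, nat_lit 10]⟩, ⟨p097_k7, nat_lit 0, nat_lit 0, nat_lit 264, nat_lit 0, nat_lit 270063, [nat_lit 3252462000, nat_lit 7896288000, nat_lit 13931478000], [], [nat_lit 25876599920, nat_lit 26858492758, nat_lit 33170801297, nat_lit 33724725052, nat_lit 30220925697, nat_lit 30819096526, nat_lit 35840845263, nat_lit 36344358092], nat_lit 1271250, nat_lit 1271250, nat_lit 1271250, nat_lit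 1271250, nat_lit 1100001, nat_lit 2607000, [nat_lit 780000, nat_lit 1762500, nat_lit 1271250], [nat_lit 84, nat_lit 40, nat_lit 40, nat_lit 80, nat_lit 28, nat_lit 538, nat_lit 300, nat_lit 12]⟩,
 ⟨nat_lit 3162, nat_lit 3873, ⟨.ofNat (nat_lit 651611), .ofNat (nat_lit 903327), .ofNat (nat_lit 673376), .ofNat (nat_lit 925121), .ofNat (nat_lit 649490), .ofNat (nat_lit 887290), .ofNat (nat_lit 671616), .ofNat (nat_lit 909444)⟩, ⟨.ofNat (nat_lit 304717), .ofNat (nat_lit 491830), .ofNat (nat_lit 348304), .ofNat (nat_lit 535416), .ofNat (nat_lit 306116), .ofNat (nat_lit 482881), .ofNat (nat_lit 350426), .ofNat (nat_lit 527190)⟩⟩, [⟨nat_lit 4, nat_lit 100, nat_lit 67, nat_lit 88, nat_lit 431869047⟩, ⟨nat_lit 19, nat_lit 100, nat_lit 80, nat_lit 100, nat_lit 104430578⟩, ⟨nat_lit 7, nat_lit 94, nat_lit 100, nat_lit 97, nat_lit 202437648⟩]⟩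
noncomputable def p097_l86 : Lf2 := ⟨nat_lit 0, nat_lit 30, [nat_lit 15, nat_lit 5, nat_lit 5, nat_lit 20], false, nat_lit 160, nat_lit 276, nat_lit 160, nat_lit 320, ⟨nat_lit 1000, nat_lit 0, nat_lit 0, nat_lit 0, nat_lit 0, nat_lit 0, nat_lit 0, nat_lit 0, nat_lit 0, nat_lit 0, nat_lit 0, nat_lit 0, nat_lit 0, nat_lit 0, nat_lit 0, nat_lit 0, false, false⟩,
 nat_lit 11645, nat_lit 0, nat_lit 0, nat_lit 0, nat_lit 8176, nat_lit 8061, nat_lit 182, nat_lit 0, nat_lit 0, nat_lit 442, nat_lit 0, nat_lit 0, nat_lit 0, nat_lit 0, nat_lit 0, nat_lit 0, nat_lit 0, nat_lit 0, [],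
 ⟨p097_k6, nat_lit 0, nat_lit 0, nat_lit 214, nat_lit 0, nat_lit 266558, [nat_lit 2032000001, nat_lit 6250000000, nat_lit 9842000000], [], [nat_lit 27658086406, nat_lit 29175506966, nat_lit 36066232342, nat_lit 36990931360, nat_lit 30163774594, nat_lit 31338708118, nat_lit 37062976438, nat_lit 38147581681], nat_lit 1271250, nat_lit 1271250, nat_lit 1271250, nat_lit 1271250, nat_lit 1100001, nat_lit 2093250, [nat_lit 490000, nat_lit 1427500, nat_lit 1271250], [nat_lit 61, nat_lit 40, nat_lit 40, nat_lit 80, nat_lit 1, nat_lit 401, nat_lit 175, nat_lit 10]⟩, ⟨p097_k12, nat_lit 0, nat_lit 0, nat_lit 260, nat_lit 0, nat_lit 326196, [nat_lit 3282000000, nat_lit 7968000000, nat_lit 11872000000], [], [nat_lit 28219671004, nat_lit 29035417524, nat_lit 34763158076, nat_lit 35418406938, nat_lit 30753541650, nat_lit 31273888188, nat_lit 36531919516, nat_lit 37297348632], nat_lit 1271250, nat_lit 1271250, nat_lit 1271250, nat_lit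 1271250, nat_lit 1100001, nat_lit 2470000, [nat_lit 780000, nat_lit 1762500, nat_lit 1271250], [nat_lit 79, nat_lit 40, nat_lit 40, nat_lit 80, nat_lit 14, nat_lit 538, nat_lit 300, nat_lit 13]⟩,
 zbF0, [⟨nat_lit 4, nat_lit 100, nat_lit 67, nat_lit 88, nat_lit 447130461⟩, ⟨nat_lit 19, nat_lit 94, nat_lit 88, nat_lit 100, nat_lit 301237515⟩]⟩
noncomputable def b_V_800_700_20_52 : St := ⟨true, nat_lit 1, nat_lit 2, nat_lit 2, nat_lit 120, nat_lit 320, nat_lit 360, nat_lit 280, nat_lit 320, nat_lit 100, nat_lit 400, nat_lit 80, nat_lit 120, nat_lit 0, nat_lit 300, nat_lit 0, nat_lit 336, nat_lit 80, nat_lit 120, nat_lit 0, nat_lit 0, nat_lit 0, nat_lit 0⟩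
theorem d_V_800_700_20_52 (h : EB TB.env) : Dead b_V_800_700_20_52 := chkB_sound0 h (T :=
(.st (nat_lit 1)
(.spl (nat_lit 2) (nat_lit 240)
(.spl (nat_lit 4) (nat_lit 160)
(.spl (nat_lit 0) (nat_lit 340)
(.leaf p097_l64)
(.trZ (nat_lit 0) (nat_lit 99) (nat_lit 77) (nat_lit 100) (nat_lit 124) (.leaf p097_l65)))
(.spl (nat_lit 0) (nat_lit 340)
(.spl (nat_lit 3) (nat_lit 100)
(.trX (nat_lit 16) (nat_lit 87) (nat_lit 100) (nat_lit 94) (nat_lit 280) (.trX (nat_lit 19) (nat_lit 100) (nat_lit 88) (nat_lit 94) (nat_lit 320) (.leaf p097_l66)))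
(.spl (nat_lit 6) (nat_lit 108)
(.spl (nat_lit 6) (nat_lit 100)
(.spl (nat_lit 0) (nat_lit 330)
(.leaf p097_l67)
(.trZ (nat_lit 0) (nat_lit 100) (nat_lit 83) (nat_lit 98) (nat_lit 112) (.trX (nat_lit 16) (nat_lit 83) (nat_lit 98) (nat_lit 100) (nat_lit 288) (.leaf p097_l68))))
(.leaf p097_l69))
(.leaf p097_l70)))
(.trZ (nat_lit 0) (nat_lit 99) (nat_lit 77) (nat_lit 100) (nat_lit 124) (.trX (nat_lit 16) (nat_lit 77) (nat_lit 100) (nat_lit 99) (nat_lit 276) (.spl (nat_lit 1) (nat_lit 300)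
(.leaf p097_l71)
(.trZ (nat_lit 0) (nat_lit 90) (nat_lit 74) (nat_lit 100) (nat_lit 144) (.trX (nat_lit 19) (nat_lit 94) (nat_lit 88) (nat_lit 100) (nat_lit 320) (.leaf p097_l72))))))))
(.spl (nat_lit 5) (nat_lit 160)
(.spl (nat_lit 0) (nat_lit 340)
(.leaf p097_l73)
(.trX (nat_lit 16) (nat_lit 77) (nat_lit 100) (nat_lit 99) (nat_lit 276) (.leaf p097_l74)))
(.leaf p097_l75)))
(.spl (nat_lit 2) (nat_lit 240)
(.spl (nat_lit 4) (nat_lit 160)
(.leaf p097_l76)
(.spl (nat_lit 0) (nat_lit 340)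
(.spl (nat_lit 6) (nat_lit 100)
(.leaf p097_l77)
(.leaf p097_l78))
(.trZ (nat_lit 0) (nat_lit 99) (nat_lit 77) (nat_lit 100) (nat_lit 124) (.trX (nat_lit 16) (nat_lit 77) (nat_lit 100) (nat_lit 99) (nat_lit 276) (.leaf p097_l79)))))
(.spl (nat_lit 4) (nat_lit 160)
(.spl (nat_lit 0) (nat_lit 340)
(.leaf p097_l80)
(.leaf p097_l81))
(.spl (nat_lit 5) (nat_lit 160)
(.leaf p097_l82)
(.spl (nat_lit 0) (nat_lit 340)
(.spl (nat_lit 1) (nat_lit 300)
(.leaf p097_l83)
(.trX (nat_lit 19) (nat_lit 94) (nat_lit 88) (nat_lit 100) (nat_lit 320) (.leaf p097_l84)))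
(.trX (nat_lit 16) (nat_lit 77) (nat_lit 100) (nat_lit 99) (nat_lit 276) (.spl (nat_lit 1) (nat_lit 300)
(.trX (nat_lit 13) (nat_lit 82) (nat_lit 29) (nat_lit 100) (nat_lit 396) (.leaf p097_l85))
(.trX (nat_lit 19) (nat_lit 94) (nat_lit 88) (nat_lit 100) (nat_lit 320) (.leaf p097_l86)))))))))) (by decide +kernel)
noncomputable def p097_l87 : Lf2 := ⟨nat_lit 0, nat_lit 25, [nat_lit 44, nat_lit 5, nat_lit 5, nat_lit 20], false, nat_lit 0, nat_lit 160, nat_lit 0, nat_lit 320, ⟨nat_lit 1000, nat_lit 0, nat_lit 0, nat_lit 0, nat_lit 0, nat_lit 0, nat_lit 0, nat_lit 0, nat_lit 0, nat_lit 0, nat_lit 0, nat_lit 0, nat_lit 0, nat_lit 0, nat_lit 0, nat_lit 0, false, false⟩,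
 nat_lit 0, nat_lit 0, nat_lit 0, nat_lit 27358, nat_lit 7586, nat_lit 15468, nat_lit 0, nat_lit 0, nat_lit 0, nat_lit 0, nat_lit 0, nat_lit 0, nat_lit 0, nat_lit 0, nat_lit 0, nat_lit 0, nat_lit 0, nat_lit 0, [],
 ⟨p097_k0, nat_lit 0, nat_lit 0, nat_lit 217, nat_lit 0, nat_lit 0, [nat_lit 2032000001, nat_lit 6250000000, nat_lit 9842000000], [], [nat_lit 34186706940, nat_lit 37649480928, nat_lit 35608489208, nat_lit 38301105792, nat_lit 29292496552, nat_lit 32183671096, nat_lit 30388574936, nat_lit 32642013488], nat_lit 0, nat_lit 0, nat_lit 0, nat_lit 0, nat_lit 0, nat_lit 0, [], [nat_lit 61, nat_lit 40, nat_lit 40, nat_lit 80, nat_lit 1, nat_lit 317, nat_lit 100, nat_lit 9]⟩, ⟨p097_k1, nat_lit 0, nat_lit 0, nat_lit 246, nat_lit 0, nat_lit 0, [nat_lit 3282000000, nat_lit 7968000000, nat_lit 11872000000], [], [nat_lit 39598660440, nat_lit 45387194160, nat_lit 40016517504, nat_lit 44271182784, nat_lit 33189315800,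 nat_lit 36095003432, nat_lit 30149750352, nat_lit 32399182784], nat_lit 0, nat_lit 0, nat_lit 0, nat_lit 0, nat_lit 0, nat_lit 0, [], [nat_lit 79, nat_lit 40, nat_lit 40, nat_lit 80, nat_lit 14, nat_lit 456, nat_lit 225, nat_lit 12]⟩,
 zbF0, [⟨nat_lit 0, nat_lit 80, nat_lit 60, nat_lit 100, nat_lit 1209077719⟩, ⟨nat_lit 3, nat_lit 100, nat_lit 69, nat_lit 45, nat_lit 35230949⟩]⟩
noncomputable def p097_l88 : Lf2 := ⟨nat_lit 1, nat_lit 30, [nat_lit 15, nat_lit 5, nat_lit 5, nat_lit 20], false, nat_lit 0, nat_lit 160, nat_lit 0, nat_lit 336, zbN0,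
 nat_lit 0, nat_lit 0, nat_lit 0, nat_lit 0, nat_lit 0, nat_lit 0, nat_lit 0, nat_lit 0, nat_lit 0, nat_lit 0, nat_lit 0, nat_lit 0, nat_lit 0, nat_lit 0, nat_lit 0, nat_lit 0, nat_lit 0, nat_lit 0, [],
 C1.Rw.none, C1.Rw.none,
 zbF0, []⟩
noncomputable def p097_l89 : Lf2 := ⟨nat_lit 0, nat_lit 30, [nat_lit 15, nat_lit 5, nat_lit 5, nat_lit 20], false, nat_lit 4, nat_lit 160, nat_lit 0, nat_lit 336, ⟨nat_lit 1000, nat_lit 0, nat_lit 0, nat_lit 0, nat_lit 0, nat_lit 0, nat_lit 0, nat_lit 0, nat_lit 0, nat_lit 0, nat_lit 0, nat_lit 0, nat_lit 0, nat_lit 0, nat_lit 0, nat_lit 0, false, false⟩,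
 nat_lit 0, nat_lit 0, nat_lit 0, nat_lit 31973, nat_lit 6166, nat_lit 9311, nat_lit 645, nat_lit 0, nat_lit 0, nat_lit 705, nat_lit 0, nat_lit 0, nat_lit 0, nat_lit 0, nat_lit 0, nat_lit 0, nat_lit 0, nat_lit 0, [],
 ⟨p097_k6, nat_lit 0, nat_lit 0, nat_lit 204, nat_lit 0, nat_lit 0, [nat_lit 2032000001, nat_lit 6250000000, nat_lit 9842000000], [], [nat_lit 25407648226, nat_lit 27288020589, nat_lit 27541715556, nat_lit 29063364368, nat_lit 21263541067, nat_lit 22853882638, nat_lit 23168512721, nat_lit 24458180181], nat_lit 0, nat_lit 0, nat_lit 0, nat_lit 0, nat_lit 0, nat_lit 0, [], [nat_lit 61, nat_lit 40, nat_lit 40, nat_lit 80, nat_lit 1, nat_lit 317, nat_lit 100, nat_lit 9]⟩, ⟨p097_k7, nat_lit 0, nat_lit 0, nat_lit 276, nat_lit 0, nat_lit 0, [nat_lit 3282000000, nat_lit 7968000000, nat_lit 14058000000], [], [nat_lit 31888893089, nat_lit 35192450048, nat_lit 33125432840, nat_lit 35710435012, nat_lit 29654056967,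 nat_lit 31322822066, nat_lit 28941080050, nat_lit 30207446780], nat_lit 0, nat_lit 0, nat_lit 0, nat_lit 0, nat_lit 0, nat_lit 0, [], [nat_lit 84, nat_lit 40, nat_lit 40, nat_lit 80, nat_lit 28, nat_lit 456, nat_lit 225, nat_lit 11]⟩,
 zbF0, [⟨nat_lit 0, nat_lit 80, nat_lit 60, nat_lit 100, nat_lit 924322391⟩, ⟨nat_lit 7, nat_lit 94, nat_lit 97, nat_lit 100, nat_lit 110823291⟩]⟩
noncomputable def p097_l90 : Lf2 := ⟨nat_lit 1, nat_lit 30, [nat_lit 15, nat_lit 5, nat_lit 5, nat_lit 20], false, nat_lit 0, nat_lit 160, nat_lit 0, nat_lit 336, zbN0,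
 nat_lit 0, nat_lit 0, nat_lit 0, nat_lit 0, nat_lit 0, nat_lit 0, nat_lit 0, nat_lit 0, nat_lit 0, nat_lit 0, nat_lit 0, nat_lit 0, nat_lit 0, nat_lit 0, nat_lit 0, nat_lit 0, nat_lit 0, nat_lit 0, [],
 C1.Rw.none, C1.Rw.none,
 zbF0, []⟩
noncomputable def p097_l91 : Lf2 := ⟨nat_lit 0, nat_lit 30, [nat_lit 15, nat_lit 5, nat_lit 5, nat_lit 20], false, nat_lit 160, nat_lit 300, nat_lit 0, nat_lit 336, ⟨nat_lit 1000, nat_lit 0, nat_lit 0, nat_lit 0, nat_lit 0, nat_lit 0, nat_lit 0, nat_lit 0, nat_lit 0, nat_lit 0, nat_lit 0, nat_lit 0, nat_lit 0, nat_lit 0, nat_lit 0, nat_lit 0, false, false⟩,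
 nat_lit 0, nat_lit 0, nat_lit 0, nat_lit 32287, nat_lit 8194, nat_lit 9441, nat_lit 0, nat_lit 0, nat_lit 0, nat_lit 695, nat_lit 0, nat_lit 0, nat_lit 0, nat_lit 0, nat_lit 0, nat_lit 0, nat_lit 0, nat_lit 0, [],
 ⟨p097_k9, nat_lit 0, nat_lit 0, nat_lit 85, nat_lit 0, nat_lit 0, [nat_lit 2032000001, nat_lit 6250000000, nat_lit 11872000000], [], [nat_lit 18409887572, nat_lit 23184486352, nat_lit 21352326664, nat_lit 25027068072, nat_lit 25536877883, nat_lit 29807737900, nat_lit 26784032250, nat_lit 30196110312], nat_lit 0, nat_lit 0, nat_lit 0, nat_lit 0, nat_lit 0, nat_lit 0, [], [nat_lit 72, nat_lit 40, nat_lit 40, nat_lit 80, nat_lit 12, nat_lit 373, nat_lit 150, nat_lit 9]⟩, ⟨p097_k7, nat_lit 0, nat_lit 0, nat_lit 370, nat_lit 0, nat_lit 0, [nat_lit 3282000000, nat_lit 7968000000, nat_lit 14058000000], [], [nat_lit 33745386546, nat_lit 36407404540, nat_lit 33387011816, nat_lit 35968858972, nat_lit 30678618457,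 nat_lit 32417144035, nat_lit 29026440418, nat_lit 30297558180], nat_lit 0, nat_lit 0, nat_lit 0, nat_lit 0, nat_lit 0, nat_lit 0, [], [nat_lit 84, nat_lit 40, nat_lit 40, nat_lit 80, nat_lit 28, nat_lit 456, nat_lit 225, nat_lit 11]⟩,
 zbF0, [⟨nat_lit 0, nat_lit 90, nat_lit 74, nat_lit 100, nat_lit 151823544⟩, ⟨nat_lit 0, nat_lit 80, nat_lit 60, nat_lit 100, nat_lit 796956259⟩, ⟨nat_lit 16, nat_lit 74, nat_lit 100, nat_lit 90, nat_lit 685001312⟩, ⟨nat_lit 7, nat_lit 100, nat_lit 100, nat_lit 100, nat_lit 104986898⟩]⟩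
noncomputable def p097_l92 : Lf2 := ⟨nat_lit 0, nat_lit 30, [nat_lit 15, nat_lit 5, nat_lit 5, nat_lit 20], false, nat_lit 0, nat_lit 300, nat_lit 0, nat_lit 160, ⟨nat_lit 1000, nat_lit 0, nat_lit 0, nat_lit 0, nat_lit 0, nat_lit 0, nat_lit 0, nat_lit 0, nat_lit 0, nat_lit 0, nat_lit 0, nat_lit 0, nat_lit 0, nat_lit 0, nat_lit 0, nat_lit 0, false, false⟩,
 nat_lit 0, nat_lit 0, nat_lit 0, nat_lit 12432, nat_lit 7346, nat_lit 7742, nat_lit 366, nat_lit 0, nat_lit 0, nat_lit 660, nat_lit 0, nat_lit 0, nat_lit 0, nat_lit 0, nat_lit 0, nat_lit 0, nat_lit 0, nat_lit 0, [],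
 ⟨p097_k9, nat_lit 0, nat_lit 0, nat_lit 247, nat_lit 0, nat_lit 0, [nat_lit 2032000001, nat_lit 6250000000, nat_lit 11872000000], [], [nat_lit 34634496998, nat_lit 37180606982, nat_lit 43049305302, nat_lit 44864341678, nat_lit 31546615876, nat_lit 33001804252, nat_lit 36525121466, nat_lit 37727351838], nat_lit 0, nat_lit 0, nat_lit 0, nat_lit 0, nat_lit 0, nat_lit 0, [], [nat_lit 72, nat_lit 40, nat_lit 40, nat_lit 80, nat_lit 12, nat_lit 401, nat_lit 175, nat_lit 10]⟩, ⟨p097_k7, nat_lit 0, nat_lit 0, nat_lit 277, nat_lit 0, nat_lit 0, [nat_lit 3282000000, nat_lit 7968000000, nat_lit 14058000000], [], [nat_lit 34987251992, nat_lit 36648355544, nat_lit 41667527720, nat_lit 42940457256, nat_lit 29012201200, nat_lit 30398229512, nat_lit 35135233640, nat_lit 36300652016], nat_lit 0, nat_lit 0, nat_lit 0, nat_lit 0, nat_lit 0, nat_lit 0, [], [nat_lit 84, nat_lit 40, nat_lit 40, nat_lit 80, nat_lit 28, nat_lit 456, nat_lit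 225, nat_lit 10]⟩,
 zbF0, [⟨nat_lit 4, nat_lit 100, nat_lit 74, nat_lit 90, nat_lit 127657887⟩, ⟨nat_lit 9, nat_lit 100, nat_lit 83, nat_lit 39, nat_lit 58821811⟩]⟩
noncomputable def p097_l93 : Lf2 := ⟨nat_lit 0, nat_lit 30, [nat_lit 15, nat_lit 5, nat_lit 5, nat_lit 20], false, nat_lit 0, nat_lit 300, nat_lit 160, nat_lit 336, ⟨nat_lit 1000, nat_lit 0, nat_lit 0, nat_lit 0, nat_lit 0, nat_lit 0, nat_lit 0, nat_lit 0, nat_lit 0, nat_lit 0, nat_lit 0, nat_lit 0, nat_lit 0, nat_lit 0, nat_lit 0, nat_lit 0, false, false⟩,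
 nat_lit 0, nat_lit 0, nat_lit 0, nat_lit 23181, nat_lit 7346, nat_lit 8581, nat_lit 366, nat_lit 0, nat_lit 0, nat_lit 0, nat_lit 0, nat_lit 0, nat_lit 0, nat_lit 0, nat_lit 0, nat_lit 0, nat_lit 0, nat_lit 0, [],
 ⟨p097_k9, nat_lit 0, nat_lit 0, nat_lit 247, nat_lit 0, nat_lit 0, [nat_lit 2032000001, nat_lit 6250000000, nat_lit 11872000000], [], [nat_lit 34634496998, nat_lit 37180606982, nat_lit 43049305302, nat_lit 44864341678, nat_lit 31546615876, nat_lit 33001804252, nat_lit 36525121466, nat_lit 37727351838], nat_lit 0, nat_lit 0, nat_lit 0, nat_lit 0, nat_lit 0, nat_lit 0, [], [nat_lit 72, nat_lit 40, nat_lit 40, nat_lit 80, nat_lit 12, nat_lit 401, nat_lit 175, nat_lit 10]⟩, ⟨p097_k7, nat_lit 0, nat_lit 0, nat_lit 105, nat_lit 0, nat_lit 0, [nat_lit 3282000000, nat_lit 7968000000, nat_lit 14058000000], [], [nat_lit 21119856712, nat_lit 24223572436, nat_lit 32777932896, nat_lit 34691636264, nat_lit 28756660141,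 nat_lit 30664054616, nat_lit 37298733592, nat_lit 38757891923], nat_lit 0, nat_lit 0, nat_lit 0, nat_lit 0, nat_lit 0, nat_lit 0, [], [nat_lit 84, nat_lit 40, nat_lit 40, nat_lit 80, nat_lit 28, nat_lit 538, nat_lit 300, nat_lit 12]⟩,
 zbF0, [⟨nat_lit 4, nat_lit 100, nat_lit 74, nat_lit 90, nat_lit 92761793⟩, ⟨nat_lit 7, nat_lit 100, nat_lit 100, nat_lit 100, nat_lit 343918174⟩]⟩
noncomputable def p097_l94 : Lf2 := ⟨nat_lit 1, nat_lit 25, [nat_lit 44, nat_lit 5, nat_lit 5, nat_lit 20], false, nat_lit 0, nat_lit 160, nat_lit 0, nat_lit 320, zbN0,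
 nat_lit 0, nat_lit 0, nat_lit 0, nat_lit 0, nat_lit 0, nat_lit 0, nat_lit 0, nat_lit 0, nat_lit 0, nat_lit 0, nat_lit 0, nat_lit 0, nat_lit 0, nat_lit 0, nat_lit 0, nat_lit 0, nat_lit 0, nat_lit 0, [],
 C1.Rw.none, C1.Rw.none,
 zbF0, []⟩
noncomputable def p097_l95 : Lf2 := ⟨nat_lit 1, nat_lit 30, [nat_lit 15, nat_lit 5, nat_lit 5, nat_lit 20], false, nat_lit 0, nat_lit 160, nat_lit 0, nat_lit 336, zbN0,
 nat_lit 0, nat_lit 0, nat_lit 0, nat_lit 0, nat_lit 0, nat_lit 0, nat_lit 0, nat_lit 0, nat_lit 0, nat_lit 0, nat_lit 0, nat_lit 0, nat_lit 0, nat_lit 0, nat_lit 0, nat_lit 0, nat_lit 0, nat_lit 0, [],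
 C1.Rw.none, C1.Rw.none,
 zbF0, []⟩
noncomputable def p097_l96 : Lf2 := ⟨nat_lit 1, nat_lit 30, [nat_lit 15, nat_lit 5, nat_lit 5, nat_lit 20], false, nat_lit 0, nat_lit 160, nat_lit 0, nat_lit 336, zbN0,
 nat_lit 0, nat_lit 0, nat_lit 0, nat_lit 0, nat_lit 0, nat_lit 0, nat_lit 0, nat_lit 0, nat_lit 0, nat_lit 0, nat_lit 0, nat_lit 0, nat_lit 0, nat_lit 0, nat_lit 0, nat_lit 0, nat_lit 0, nat_lit 0, [],
 C1.Rw.none, C1.Rw.none,
 zbF0, []⟩
noncomputable def p097_l97 : Lf2 := ⟨nat_lit 0, nat_lit 30, [nat_lit 15, nat_lit 5, nat_lit 5, nat_lit 20], false, nat_lit 0, nat_lit 160, nat_lit 0, nat_lit 160, ⟨nat_lit 1000, nat_lit 0, nat_lit 0, nat_lit 0, nat_lit 0, nat_lit 0, nat_lit 0, nat_lit 0, nat_lit 0, nat_lit 0, nat_lit 0, nat_lit 0, nat_lit 0, nat_lit 0, nat_lit 0, nat_lit 0, false, false⟩,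
 nat_lit 0, nat_lit 0, nat_lit 10182, nat_lit 0, nat_lit 6201, nat_lit 6479, nat_lit 637, nat_lit 0, nat_lit 0, nat_lit 557, nat_lit 0, nat_lit 0, nat_lit 0, nat_lit 0, nat_lit 0, nat_lit 0, nat_lit 0, nat_lit 0, [],
 ⟨p097_k6, nat_lit 0, nat_lit 0, nat_lit 208, nat_lit 0, nat_lit 0, [nat_lit 2032000001, nat_lit 6250000000, nat_lit 9842000000], [], [nat_lit 25736339206, nat_lit 27628638834, nat_lit 27862716059, nat_lit 29391491908, nat_lit 21345448904, nat_lit 22941127716, nat_lit 23245911431, nat_lit 24539544741], nat_lit 0, nat_lit 0, nat_lit 0, nat_lit 0, nat_lit 0, nat_lit 0, [], [nat_lit 61, nat_lit 40, nat_lit 40, nat_lit 80, nat_lit 1, nat_lit 317, nat_lit 100, nat_lit 9]⟩, ⟨p097_k7, nat_lit 0, nat_lit 0, nat_lit 454, nat_lit 0, nat_lit 282075, [nat_lit 3282000000, nat_lit 7968000000, nat_lit 14058000000], [], [nat_lit 36291207942, nat_lit 38234840016, nat_lit 37330600104, nat_lit 38884277928, nat_lit 31904112155,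 nat_lit 33547671251, nat_lit 33431783300, nat_lit 34050601344], nat_lit 1271250, nat_lit 1271250, nat_lit 810650, nat_lit 1764750, nat_lit 0, nat_lit 1100001, [nat_lit 780000, nat_lit 1762500, nat_lit 1271250], [nat_lit 84, nat_lit 40, nat_lit 40, nat_lit 80, nat_lit 28, nat_lit 428, nat_lit 200, nat_lit 10]⟩,
 zbF0, [⟨nat_lit 0, nat_lit 80, nat_lit 60, nat_lit 100, nat_lit 751795861⟩]⟩
noncomputable def p097_l98 : Lf2 := ⟨nat_lit 0, nat_lit 25, [nat_lit 44, nat_lit 5, nat_lit 5, nat_lit 20], false, nat_lit 0, nat_lit 160, nat_lit 160, nat_lit 320, ⟨nat_lit 1000, nat_lit 0, nat_lit 0, nat_lit 0, nat_lit 0, nat_lit 0, nat_lit 0, nat_lit 0, nat_lit 0, nat_lit 0, nat_lit 0, nat_lit 0, nat_lit 0, nat_lit 0, nat_lit 0, nat_lit 0, false, false⟩,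
 nat_lit 0, nat_lit 0, nat_lit 27129, nat_lit 0, nat_lit 6067, nat_lit 17263, nat_lit 651, nat_lit 0, nat_lit 0, nat_lit 0, nat_lit 0, nat_lit 0, nat_lit 0, nat_lit 0, nat_lit 0, nat_lit 0, nat_lit 0, nat_lit 0, [],
 ⟨p097_k2, nat_lit 0, nat_lit 0, nat_lit 208, nat_lit 0, nat_lit 0, [nat_lit 2032000001, nat_lit 6250000000, nat_lit 9842000000], [], [nat_lit 25472762569, nat_lit 27339673511, nat_lit 27615340853, nat_lit 29127470636, nat_lit 21239871935, nat_lit 22815116739, nat_lit 23157597977, nat_lit 24436047747], nat_lit 0, nat_lit 0, nat_lit 0, nat_lit 0, nat_lit 0, nat_lit 0, [], [nat_lit 61, nat_lit 40, nat_lit 40, nat_lit 80, nat_lit 1, nat_lit 317, nat_lit 100, nat_lit 9]⟩, ⟨p097_k1, nat_lit 0, nat_lit 0, nat_lit 165, nat_lit 0, nat_lit 88714, [nat_lit 3282000000, nat_lit 7968000000, nat_lit 11872000000], [], [nat_lit 22319507193, nat_lit 27323197653, nat_lit 23530311348, nat_lit 27299869544, nat_lit 30903638403,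 nat_lit 33896330834, nat_lit 28947753732, nat_lit 33465929744], nat_lit 1271250, nat_lit 1271250, nat_lit 810650, nat_lit 1764750, nat_lit 1271250, nat_lit 1271250, [nat_lit 780000, nat_lit 1762500, nat_lit 1271250], [nat_lit 79, nat_lit 40, nat_lit 40, nat_lit 80, nat_lit 14, nat_lit 456, nat_lit 225, nat_lit 11]⟩,
 zbF0, [⟨nat_lit 0, nat_lit 80, nat_lit 60, nat_lit 100, nat_lit 861234439⟩, ⟨nat_lit 7, nat_lit 100, nat_lit 97, nat_lit 93, nat_lit 462504284⟩]⟩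
noncomputable def p097_l99 : Lf2 := ⟨nat_lit 1, nat_lit 30, [nat_lit 15, nat_lit 5, nat_lit 5, nat_lit 20], false, nat_lit 4, nat_lit 160, nat_lit 160, nat_lit 336, zbN0,
 nat_lit 0, nat_lit 0, nat_lit 0, nat_lit 0, nat_lit 0, nat_lit 0, nat_lit 0, nat_lit 0, nat_lit 0, nat_lit 0, nat_lit 0, nat_lit 0, nat_lit 0, nat_lit 0, nat_lit 0, nat_lit 0, nat_lit 0, nat_lit 0, [],
 C1.Rw.none, C1.Rw.none,
 zbF0, []⟩
noncomputable def p097_l100 : Lf2 := ⟨nat_lit 0, nat_lit 30, [nat_lit 15, nat_lit 5, nat_lit 5, nat_lit 20], false, nat_lit 8, nat_lit 160, nat_lit 160, nat_lit 336, ⟨nat_lit 1000, nat_lit 0, nat_lit 0, nat_lit 0, nat_lit 0, nat_lit 0, nat_lit 0, nat_lit 0, nat_lit 0, nat_lit 0, nat_lit 0, nat_lit 0, nat_lit 0, nat_lit 0, nat_lit 0, nat_lit 0, false, false⟩,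
 nat_lit 0, nat_lit 0, nat_lit 16368, nat_lit 15477, nat_lit 6270, nat_lit 10415, nat_lit 575, nat_lit 0, nat_lit 0, nat_lit 620, nat_lit 0, nat_lit 0, nat_lit 0, nat_lit 0, nat_lit 0, nat_lit 0, nat_lit 0, nat_lit 0, [],
 ⟨p097_k8, nat_lit 0, nat_lit 0, nat_lit 198, nat_lit 0, nat_lit 0, [nat_lit 2032000001, nat_lit 6250000000, nat_lit 9842000000], [], [nat_lit 26321113309, nat_lit 27251243896, nat_lit 28241497093, nat_lit 29005600453, nat_lit 22134940000, nat_lit 22923552385, nat_lit 23842279470, nat_lit 24493005320], nat_lit 0, nat_lit 0, nat_lit 0, nat_lit 0, nat_lit 0, nat_lit 0, [], [nat_lit 61, nat_lit 40, nat_lit 40, nat_lit 80, nat_lit 1, nat_lit 317, nat_lit 100, nat_lit 9]⟩, ⟨p097_k7, nat_lit 0, nat_lit 0, nat_lit 201, nat_lit 0, nat_lit 97176, [nat_lit 3282000000, nat_lit 7968000000, nat_lit 14058000000], [], [nat_lit 24147859668, nat_lit 27068951345, nat_lit 26241611240, nat_lit 27486173380, nat_lit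 30430485190, nat_lit 32139616695, nat_lit 29667139444, nat_lit 30973853400], nat_lit 1271250, nat_lit 1271250, nat_lit 904401, nat_lit 1771500, nat_lit 1271250, nat_lit 1271250, [nat_lit 780000, nat_lit 1762500, nat_lit 1271250], [nat_lit 84, nat_lit 40, nat_lit 40, nat_lit 80, nat_lit 28, nat_lit 456, nat_lit 225, nat_lit 10]⟩,
 zbF0, [⟨nat_lit 0, nat_lit 88, nat_lit 64, nat_lit 100, nat_lit 784782436⟩, ⟨nat_lit 7, nat_lit 94, nat_lit 97, nat_lit 100, nat_lit 337608875⟩]⟩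
noncomputable def p097_l101 : Lf2 := ⟨nat_lit 1, nat_lit 30, [nat_lit 15, nat_lit 5, nat_lit 5, nat_lit 20], false, nat_lit 4, nat_lit 160, nat_lit 160, nat_lit 336, zbN0,
 nat_lit 0, nat_lit 0, nat_lit 0, nat_lit 0, nat_lit 0, nat_lit 0, nat_lit 0, nat_lit 0, nat_lit 0, nat_lit 0, nat_lit 0, nat_lit 0, nat_lit 0, nat_lit 0, nat_lit 0, nat_lit 0, nat_lit 0, nat_lit 0, [],
 C1.Rw.none, C1.Rw.none,
 zbF0, []⟩
noncomputable def p097_l102 : Lf2 := ⟨nat_lit 0, nat_lit 25, [nat_lit 44, nat_lit 5, nat_lit 5, nat_lit 20], true, nat_lit 160, nat_lit 280, nat_lit 0, nat_lit 320, ⟨nat_lit 0, nat_lit 803, nat_lit 197, nat_lit 7, nat_lit 198, nat_lit 1000, nat_lit 165, nat_lit 197, nat_lit 13067, nat_lit 243, nat_lit 2872, nat_lit 223, nat_lit 45095393, nat_lit 12541208, nat_lit 9363399, nat_lit 4595208, false, false⟩,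
 nat_lit 0, nat_lit 0, nat_lit 0, nat_lit 100000, nat_lit 4188, nat_lit 0, nat_lit 0, nat_lit 0, nat_lit 0, nat_lit 0, nat_lit 0, nat_lit 0, nat_lit 0, nat_lit 0, nat_lit 0, nat_lit 242120, nat_lit 0, nat_lit 0, [(nat_lit 20, [(nat_lit 0, nat_lit 803), (nat_lit 3, nat_lit 197)]), (nat_lit 23, [(nat_lit 0, nat_lit 803), (nat_lit 3, nat_lit 197)])],
 ⟨p097_k18, nat_lit 0, nat_lit 0, nat_lit 66, nat_lit 0, nat_lit 0, [nat_lit 1810508801, nat_lit 1733505600, nat_lit 2341865200], [], [nat_lit 16227934297, nat_lit 19528295424, nat_lit 17120605809, nat_lit 20026043712, nat_lit 21176058068, nat_lit 24284750880, nat_lit 21589183872, nat_lit 24456678576], nat_lit 0, nat_lit 0, nat_lit 0, nat_lit 0, nat_lit 0, nat_lit 0, [], [nat_lit 27, nat_lit 40, nat_lit 40, nat_lit 80, nat_lit 13, nat_lit 345, nat_lit 125, nat_lit 9]⟩, C1.Rw.none,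
 ⟨nat_lit 3162, nat_lit 4473, ⟨.ofNat (nat_lit 415764), .ofNat (nat_lit 517847), .ofNat (nat_lit 458716), .ofNat (nat_lit 560799), .ofNat (nat_lit 435680), .ofNat (nat_lit 527226), .ofNat (nat_lit 479808), .ofNat (nat_lit 571355)⟩, ⟨.ofNat (nat_lit 302621), .ofNat (nat_lit 506556), .ofNat (nat_lit 324188), .ofNat (nat_lit 528122), .ofNat (nat_lit 306116), .ofNat (nat_lit 488976), .ofNat (nat_lit 328271), .ofNat (nat_lit 511131)⟩⟩, [⟨nat_lit 0, nat_lit 90, nat_lit 74, nat_lit 100, nat_lit 3966095603⟩, ⟨nat_lit 16, nat_lit 73, nat_lit 100, nat_lit 85, nat_lit 294409193⟩]⟩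
noncomputable def p097_l103 : Lf2 := ⟨nat_lit 0, nat_lit 30, [nat_lit 15, nat_lit 5, nat_lit 5, nat_lit 20], true, nat_lit 160, nat_lit 300, nat_lit 0, nat_lit 336, ⟨nat_lit 0, nat_lit 747, nat_lit 253, nat_lit 7, nat_lit 198, nat_lit 1000, nat_lit 180, nat_lit 253, nat_lit 1169, nat_lit 218, nat_lit 2872, nat_lit 223, nat_lit 44006726, nat_lit 12378520, nat_lit 10614754, nat_lit 4735405, false, false⟩,
 nat_lit 0, nat_lit 0, nat_lit 0, nat_lit 100000, nat_lit 4255, nat_lit 0, nat_lit 0, nat_lit 0, nat_lit 0, nat_lit 0, nat_lit 0, nat_lit 0, nat_lit 0, nat_lit 0, nat_lit 0, nat_lit 239880, nat_lit 0, nat_lit 0, [(nat_lit 20, [(nat_lit 0, nat_lit 747), (nat_lit 3, nat_lit 253)]), (nat_lit 23, [(nat_lit 0, nat_lit 747), (nat_lit 3, nat_lit 253)])],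
 ⟨p097_k9, nat_lit 0, nat_lit 0, nat_lit 85, nat_lit 0, nat_lit 0, [nat_lit 1877171201, nat_lit 1840191200, nat_lit 2363043200], [], [nat_lit 17522407911, nat_lit 20554286240, nat_lit 18303400261, nat_lit 21040819940, nat_lit 22975761923, nat_lit 25402557250, nat_lit 23275616720, nat_lit 25480635535], nat_lit 0, nat_lit 0, nat_lit 0, nat_lit 0, nat_lit 0, nat_lit 0, [], [nat_lit 72, nat_lit 40, nat_lit 40, nat_lit 80, nat_lit 12, nat_lit 345, nat_lit 125, nat_lit 8]⟩, C1.Rw.none,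
 ⟨nat_lit 3162, nat_lit 4473, ⟨.ofNat (nat_lit 415764), .ofNat (nat_lit 517847), .ofNat (nat_lit 458716), .ofNat (nat_lit 560799), .ofNat (nat_lit 435680), .ofNat (nat_lit 527226), .ofNat (nat_lit 479808), .ofNat (nat_lit 571355)⟩, ⟨.ofNat (nat_lit 324188), .ofNat (nat_lit 562111), .ofNat (nat_lit 345754), .ofNat (nat_lit 583678), .ofNat (nat_lit 328271), .ofNat (nat_lit 541607), .ofNat (nat_lit 350426), .ofNat (nat_lit 563762)⟩⟩, [⟨nat_lit 0, nat_lit 90, nat_lit 74, nat_lit 100, nat_lit 3755438656⟩, ⟨nat_lit 4, nat_lit 100, nat_lit 75, nat_lit 94, nat_lit 223716469⟩]⟩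
noncomputable def p097_l104 : Lf2 := ⟨nat_lit 0, nat_lit 30, [nat_lit 15, nat_lit 5, nat_lit 5, nat_lit 20], false, nat_lit 160, nat_lit 300, nat_lit 0, nat_lit 336, ⟨nat_lit 1000, nat_lit 0, nat_lit 0, nat_lit 0, nat_lit 0, nat_lit 0, nat_lit 0, nat_lit 0, nat_lit 0, nat_lit 0, nat_lit 0, nat_lit 0, nat_lit 0, nat_lit 0, nat_lit 0, nat_lit 0, false, false⟩,
 nat_lit 0, nat_lit 0, nat_lit 12909, nat_lit 12279, nat_lit 3669, nat_lit 8214, nat_lit 0, nat_lit 0, nat_lit 0, nat_lit 865, nat_lit 0, nat_lit 0, nat_lit 0, nat_lit 0, nat_lit 0, nat_lit 0, nat_lit 0, nat_lit 0, [],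
 ⟨p097_k13, nat_lit 0, nat_lit 0, nat_lit 55, nat_lit 0, nat_lit 0, [nat_lit 2032000001, nat_lit 4688000000, nat_lit 11872000000], [], [nat_lit 16684877309, nat_lit 19903017101, nat_lit 19553734029, nat_lit 22332219109, nat_lit 22563943797, nat_lit 24990826237, nat_lit 24584288843, nat_lit 26707118112], nat_lit 0, nat_lit 0, nat_lit 0, nat_lit 0, nat_lit 0, nat_lit 0, [], [nat_lit 75, nat_lit 40, nat_lit 40, nat_lit 80, nat_lit 65, nat_lit 373, nat_lit 150, nat_lit 9]⟩, ⟨p097_k14, nat_lit 0, nat_lit 0, nat_lit 381, nat_lit 0, nat_lit 121754, [nat_lit 3282000000, nat_lit 6250000000, nat_lit 14058000000], [], [nat_lit 33362725896, nat_lit 33673452852, nat_lit 33036597220, nat_lit 33588142660, nat_lit 28762962261, nat_lit 29508953767, nat_lit 29907433780, nat_lit 29609028206], nat_lit 1271250, nat_lit 1271250, nat_lit 1100001, nat_lit 1785000, nat_lit 0, nat_lit 2373000, [nat_lit 780000, nat_lit 1435000, nat_lit 1271250],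 [nat_lit 71, nat_lit 40, nat_lit 40, nat_lit 80, nat_lit 68, nat_lit 456, nat_lit 225, nat_lit 10]⟩,
 zbF0, [⟨nat_lit 0, nat_lit 87, nat_lit 60, nat_lit 100, nat_lit 537089431⟩, ⟨nat_lit 4, nat_lit 100, nat_lit 74, nat_lit 90, nat_lit 602612955⟩, ⟨nat_lit 7, nat_lit 94, nat_lit 100, nat_lit 97, nat_lit 131348408⟩]⟩
noncomputable def p097_l105 : Lf2 := ⟨nat_lit 0, nat_lit 30, [nat_lit 15, nat_lit 5, nat_lit 5, nat_lit 20], false, nat_lit 160, nat_lit 300, nat_lit 0, nat_lit 320, ⟨nat_lit 1000, nat_lit 0, nat_lit 0, nat_lit 0, nat_lit 0, nat_lit 0, nat_lit 0, nat_lit 0, nat_lit 0, nat_lit 0, nat_lit 0, nat_lit 0, nat_lit 0, nat_lit 0, nat_lit 0, nat_lit 0, false, false⟩,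
 nat_lit 0, nat_lit 0, nat_lit 16291, nat_lit 0, nat_lit 3669, nat_lit 11278, nat_lit 0, nat_lit 0, nat_lit 0, nat_lit 320, nat_lit 0, nat_lit 0, nat_lit 0, nat_lit 0, nat_lit 0, nat_lit 0, nat_lit 0, nat_lit 0, [],
 ⟨p097_k13, nat_lit 0, nat_lit 0, nat_lit 55, nat_lit 0, nat_lit 0, [nat_lit 2032000001, nat_lit 4688000000, nat_lit 11872000000], [], [nat_lit 16684877309, nat_lit 19903017101, nat_lit 19553734029, nat_lit 22332219109, nat_lit 22563943797, nat_lit 24990826237, nat_lit 24584288843, nat_lit 26707118112], nat_lit 0, nat_lit 0, nat_lit 0, nat_lit 0, nat_lit 0, nat_lit 0, [], [nat_lit 75, nat_lit 40, nat_lit 40, nat_lit 80, nat_lit 65, nat_lit 373, nat_lit 150, nat_lit 9]⟩, ⟨p097_k25, nat_lit 0, nat_lit 0, nat_lit 365, nat_lit 0, nat_lit 249400, [nat_lit 3282000000, nat_lit 6250000000, nat_lit 11872000000], [], [nat_lit 38476453636, nat_lit 39559209152, nat_lit 38641236624, nat_lit 39516948056, nat_lit 30297841128,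 nat_lit 31218209152, nat_lit 31141647788, nat_lit 31175948056], nat_lit 1271250, nat_lit 1271250, nat_lit 1100001, nat_lit 1785000, nat_lit 0, nat_lit 2260000, [nat_lit 780000, nat_lit 1435000, nat_lit 1271250], [nat_lit 23, nat_lit 40, nat_lit 40, nat_lit 80, nat_lit 12, nat_lit 456, nat_lit 225, nat_lit 11]⟩,
 zbF0, [⟨nat_lit 0, nat_lit 80, nat_lit 60, nat_lit 100, nat_lit 636826691⟩, ⟨nat_lit 4, nat_lit 100, nat_lit 74, nat_lit 90, nat_lit 602612955⟩, ⟨nat_lit 7, nat_lit 100, nat_lit 93, nat_lit 97, nat_lit 61145179⟩]⟩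
noncomputable def p097_l106 : Lf2 := ⟨nat_lit 0, nat_lit 25, [nat_lit 44, nat_lit 5, nat_lit 5, nat_lit 20], false, nat_lit 0, nat_lit 160, nat_lit 0, nat_lit 320, ⟨nat_lit 1000, nat_lit 0, nat_lit 0, nat_lit 0, nat_lit 0, nat_lit 0, nat_lit 0, nat_lit 0, nat_lit 0, nat_lit 0, nat_lit 0, nat_lit 0, nat_lit 0, nat_lit 0, nat_lit 0, nat_lit 0, false, false⟩,
 nat_lit 0, nat_lit 0, nat_lit 17889, nat_lit 0, nat_lit 6392, nat_lit 11383, nat_lit 0, nat_lit 0, nat_lit 0, nat_lit 0, nat_lit 0, nat_lit 0, nat_lit 0, nat_lit 0, nat_lit 0, nat_lit 0, nat_lit 0, nat_lit 0, [],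
 ⟨p097_k18, nat_lit 0, nat_lit 0, nat_lit 215, nat_lit 0, nat_lit 0, [nat_lit 2032000001, nat_lit 4688000000, nat_lit 9842000000], [], [nat_lit 34463360032, nat_lit 37487956480, nat_lit 43728528800, nat_lit 45646786720, nat_lit 30587166624, nat_lit 32802024096, nat_lit 37757797408, nat_lit 39416924320], nat_lit 0, nat_lit 0, nat_lit 0, nat_lit 0, nat_lit 0, nat_lit 0, [], [nat_lit 27, nat_lit 40, nat_lit 40, nat_lit 80, nat_lit 13, nat_lit 373, nat_lit 150, nat_lit 10]⟩, ⟨p097_k19, nat_lit 0, nat_lit 0, nat_lit 294, nat_lit 0, nat_lit 88714, [nat_lit 3282000000, nat_lit 6250000000, nat_lit 11872000000], [], [nat_lit 44757213412, nat_lit 46515869516, nat_lit 51545843140, nat_lit 53122236296, nat_lit 35824746572, nat_lit 36587152940, nat_lit 39673843140, nat_lit 41250236296], nat_lit 1271250, nat_lit 1271250, nat_lit 1271250, nat_lit 1271250, nat_lit 0, nat_lit 2260000, [nat_lit 780000, nat_lit 1435000, nat_lit 1271250],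 [nat_lit 23, nat_lit 40, nat_lit 40, nat_lit 80, nat_lit 12, nat_lit 538, nat_lit 300, nat_lit 13]⟩,
 zbF0, []⟩
noncomputable def p097_l107 : Lf2 := ⟨nat_lit 1, nat_lit 30, [nat_lit 15, nat_lit 5, nat_lit 5, nat_lit 20], false, nat_lit 0, nat_lit 160, nat_lit 0, nat_lit 336, zbN0,
 nat_lit 0, nat_lit 0, nat_lit 0, nat_lit 0, nat_lit 0, nat_lit 0, nat_lit 0, nat_lit 0, nat_lit 0, nat_lit 0, nat_lit 0, nat_lit 0, nat_lit 0, nat_lit 0, nat_lit 0, nat_lit 0, nat_lit 0, nat_lit 0, [],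
 C1.Rw.none, C1.Rw.none,
 zbF0, []⟩
noncomputable def p097_l108 : Lf2 := ⟨nat_lit 0, nat_lit 30, [nat_lit 15, nat_lit 5, nat_lit 5, nat_lit 20], false, nat_lit 4, nat_lit 160, nat_lit 0, nat_lit 336, ⟨nat_lit 1000, nat_lit 0, nat_lit 0, nat_lit 0, nat_lit 0, nat_lit 0, nat_lit 0, nat_lit 0, nat_lit 0, nat_lit 0, nat_lit 0, nat_lit 0, nat_lit 0, nat_lit 0, nat_lit 0, nat_lit 0, false, false⟩,
 nat_lit 0, nat_lit 0, nat_lit 13265, nat_lit 0, nat_lit 7001, nat_lit 8441, nat_lit 213, nat_lit 0, nat_lit 0, nat_lit 477, nat_lit 0, nat_lit 0, nat_lit 0, nat_lit 0, nat_lit 0, nat_lit 0, nat_lit 0, nat_lit 0, [],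
 ⟨p097_k6, nat_lit 0, nat_lit 0, nat_lit 223, nat_lit 0, nat_lit 0, [nat_lit 2032000001, nat_lit 6250000000, nat_lit 9842000000], [], [nat_lit 33714608217, nat_lit 34997480440, nat_lit 42490767925, nat_lit 43487509579, nat_lit 29095371767, nat_lit 30175778933, nat_lit 35839426117, nat_lit 36700029085], nat_lit 0, nat_lit 0, nat_lit 0, nat_lit 0, nat_lit 0, nat_lit 0, [], [nat_lit 61, nat_lit 40, nat_lit 40, nat_lit 80, nat_lit 1, nat_lit 373, nat_lit 150, nat_lit 10]⟩, ⟨p097_k7, nat_lit 0, nat_lit 0, nat_lit 364, nat_lit 0, nat_lit 97176, [nat_lit 3282000000, nat_lit 7968000000, nat_lit 14058000000], [], [nat_lit 37287410816, nat_lit 39007968512, nat_lit 45288645560, nat_lit 46588002888, nat_lit 33209871167, nat_lit 34025415796, nat_lit 37624127228, nat_lit 38584475267], nat_lit 1271250, nat_lit 1271250, nat_lit 1271250, nat_lit 1271250, nat_lit 0, nat_lit 2373000, [nat_lit 780000, nat_lit 1762500, nat_lit 1271250],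 [nat_lit 84, nat_lit 40, nat_lit 40, nat_lit 80, nat_lit 28, nat_lit 538, nat_lit 300, nat_lit 12]⟩,
 zbF0, [⟨nat_lit 19, nat_lit 97, nat_lit 94, nat_lit 100, nat_lit 66359032⟩, ⟨nat_lit 22, nat_lit 84, nat_lit 100, nat_lit 84, nat_lit 8446473⟩]⟩
noncomputable def p097_l109 : Lf2 := ⟨nat_lit 1, nat_lit 30, [nat_lit 15, nat_lit 5, nat_lit 5, nat_lit 20], false, nat_lit 0, nat_lit 160, nat_lit 0, nat_lit 336, zbN0,
 nat_lit 0, nat_lit 0, nat_lit 0, nat_lit 0, nat_lit 0, nat_lit 0, nat_lit 0, nat_lit 0, nat_lit 0, nat_lit 0, nat_lit 0, nat_lit 0, nat_lit 0, nat_lit 0, nat_lit 0, nat_lit 0, nat_lit 0, nat_lit 0, [],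
 C1.Rw.none, C1.Rw.none,
 zbF0, []⟩
noncomputable def p097_l110 : Lf2 := ⟨nat_lit 0, nat_lit 30, [nat_lit 15, nat_lit 5, nat_lit 5, nat_lit 20], false, nat_lit 160, nat_lit 300, nat_lit 0, nat_lit 336, ⟨nat_lit 1000, nat_lit 0, nat_lit 0, nat_lit 0, nat_lit 0, nat_lit 0, nat_lit 0, nat_lit 0, nat_lit 0, nat_lit 0, nat_lit 0, nat_lit 0, nat_lit 0, nat_lit 0, nat_lit 0, nat_lit 0, false, false⟩,
 nat_lit 0, nat_lit 0, nat_lit 13506, nat_lit 5234, nat_lit 6536, nat_lit 8594, nat_lit 0, nat_lit 0, nat_lit 0, nat_lit 467, nat_lit 0, nat_lit 0, nat_lit 0, nat_lit 0, nat_lit 0, nat_lit 0, nat_lit 0, nat_lit 0, [],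
 ⟨p097_k9, nat_lit 0, nat_lit 0, nat_lit 100, nat_lit 0, nat_lit 0, [nat_lit 2032000001, nat_lit 6250000000, nat_lit 11872000000], [], [nat_lit 22886381216, nat_lit 26075607168, nat_lit 32601743488, nat_lit 34599519264, nat_lit 27681591544, nat_lit 30032386176, nat_lit 34853295848, nat_lit 36684636408], nat_lit 0, nat_lit 0, nat_lit 0, nat_lit 0, nat_lit 0, nat_lit 0, [], [nat_lit 72, nat_lit 40, nat_lit 40, nat_lit 80, nat_lit 12, nat_lit 401, nat_lit 175, nat_lit 9]⟩, ⟨p097_k7, nat_lit 0, nat_lit 0, nat_lit 372, nat_lit 0, nat_lit 121754, [nat_lit 3282000000, nat_lit 7968000000, nat_lit 14058000000], [], [nat_lit 37340417844, nat_lit 38207203476, nat_lit 45630789540, nat_lit 46283360516, nat_lit 33077627998, nat_lit 33485311328, nat_lit 37719821745, nat_lit 38044070484], nat_lit 1271250, nat_lit 1271250, nat_lit 1271250, nat_lit 1271250, nat_lit 0, nat_lit 2373000, [nat_lit 780000, nat_lit 1762500, nat_lit 1271250],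 [nat_lit 84, nat_lit 40, nat_lit 40, nat_lit 80, nat_lit 28, nat_lit 538, nat_lit 300, nat_lit 12]⟩,
 zbF0, [⟨nat_lit 4, nat_lit 100, nat_lit 74, nat_lit 90, nat_lit 541950665⟩, ⟨nat_lit 7, nat_lit 94, nat_lit 100, nat_lit 97, nat_lit 68927536⟩]⟩
noncomputable def p097_l111 : Lf2 := ⟨nat_lit 0, nat_lit 30, [nat_lit 15, nat_lit 5, nat_lit 5, nat_lit 20], false, nat_lit 160, nat_lit 300, nat_lit 0, nat_lit 320, ⟨nat_lit 1000, nat_lit 0, nat_lit 0, nat_lit 0, nat_lit 0, nat_lit 0, nat_lit 0, nat_lit 0, nat_lit 0, nat_lit 0, nat_lit 0, nat_lit 0, nat_lit 0, nat_lit 0, nat_lit 0, nat_lit 0, false, false⟩,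
 nat_lit 0, nat_lit 0, nat_lit 10740, nat_lit 0, nat_lit 6536, nat_lit 7435, nat_lit 0, nat_lit 0, nat_lit 0, nat_lit 457, nat_lit 0, nat_lit 0, nat_lit 0, nat_lit 0, nat_lit 0, nat_lit 0, nat_lit 0, nat_lit 0, [],
 ⟨p097_k9, nat_lit 0, nat_lit 0, nat_lit 100, nat_lit 0, nat_lit 0, [nat_lit 2032000001, nat_lit 6250000000, nat_lit 11872000000], [], [nat_lit 22886381216, nat_lit 26075607168, nat_lit 32601743488, nat_lit 34599519264, nat_lit 27681591544, nat_lit 30032386176, nat_lit 34853295848, nat_lit 36684636408], nat_lit 0, nat_lit 0, nat_lit 0, nat_lit 0, nat_lit 0, nat_lit 0, [], [nat_lit 72, nat_lit 40, nat_lit 40, nat_lit 80, nat_lit 12, nat_lit 401, nat_lit 175, nat_lit 9]⟩, ⟨p097_k12, nat_lit 0, nat_lit 0, nat_lit 369, nat_lit 0, nat_lit 249400, [nat_lit 3282000000, nat_lit 7968000000, nat_lit 11872000000], [], [nat_lit 34538859770, nat_lit 35485568970, nat_lit 42130648235, nat_lit 42876198095, nat_lit 31734217500,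 nat_lit 32247641730, nat_lit 36135852225, nat_lit 36552463720], nat_lit 1271250, nat_lit 1271250, nat_lit 1271250, nat_lit 1271250, nat_lit 0, nat_lit 2260000, [nat_lit 780000, nat_lit 1762500, nat_lit 1271250], [nat_lit 79, nat_lit 40, nat_lit 40, nat_lit 80, nat_lit 14, nat_lit 538, nat_lit 300, nat_lit 13]⟩,
 zbF0, [⟨nat_lit 4, nat_lit 100, nat_lit 74, nat_lit 90, nat_lit 541950665⟩, ⟨nat_lit 7, nat_lit 100, nat_lit 93, nat_lit 97, nat_lit 96077675⟩]⟩
noncomputable def b_V_800_700_20_53 : St := ⟨true, nat_lit 0, nat_lit 2, nat_lit 1, nat_lit 120, nat_lit 320, nat_lit 360, nat_lit 280, nat_lit 320, nat_lit 100, nat_lit 400, nat_lit 80, nat_lit 120, nat_lit 0, nat_lit 300, nat_lit 0, nat_lit 336, nat_lit 120, nat_lit 140, nat_lit 0, nat_lit 0, nat_lit 0, nat_lit 0⟩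
theorem d_V_800_700_20_53 (h : EB TB.env) : Dead b_V_800_700_20_53 := chkB_sound0 h (T :=
(.st (nat_lit 1)
(.spl (nat_lit 2) (nat_lit 240)
(.spl (nat_lit 4) (nat_lit 160)
(.spl (nat_lit 3) (nat_lit 100)
(.trX (nat_lit 19) (nat_lit 100) (nat_lit 88) (nat_lit 94) (nat_lit 320) (.leaf p097_l87))
(.spl (nat_lit 6) (nat_lit 128)
(.spl (nat_lit 0) (nat_lit 340)
(.leaf p097_l88)
(.trZ (nat_lit 0) (nat_lit 99) (nat_lit 77) (nat_lit 100) (nat_lit 124) (.trZ (nat_lit 3) (nat_lit 100) (nat_lit 82) (nat_lit 29) (nat_lit 4) (.leaf p097_l89))))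
(.leaf p097_l90)))
(.leaf p097_l91))
(.spl (nat_lit 5) (nat_lit 160)
(.leaf p097_l92)
(.leaf p097_l93)))
(.spl (nat_lit 2) (nat_lit 240)
(.spl (nat_lit 4) (nat_lit 160)
(.spl (nat_lit 0) (nat_lit 340)
(.spl (nat_lit 6) (nat_lit 124)
(.spl (nat_lit 3) (nat_lit 100)
(.trX (nat_lit 19) (nat_lit 100) (nat_lit 88) (nat_lit 94) (nat_lit 320) (.leaf p097_l94))
(.leaf p097_l95))
(.leaf p097_l96))
(.trZ (nat_lit 0) (nat_lit 99) (nat_lit 77) (nat_lit 100) (nat_lit 124) (.spl (nat_lit 5) (nat_lit 160)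
(.leaf p097_l97)
(.spl (nat_lit 3) (nat_lit 100)
(.trX (nat_lit 19) (nat_lit 100) (nat_lit 88) (nat_lit 94) (nat_lit 320) (.leaf p097_l98))
(.trZ (nat_lit 3) (nat_lit 100) (nat_lit 82) (nat_lit 29) (nat_lit 4) (.spl (nat_lit 6) (nat_lit 128)
(.spl (nat_lit 0) (nat_lit 350)
(.leaf p097_l99)
(.trZ (nat_lit 0) (nat_lit 96) (nat_lit 69) (nat_lit 100) (nat_lit 136) (.trZ (nat_lit 3) (nat_lit 100) (nat_lit 76) (nat_lit 37) (nat_lit 8) (.leaf p097_l100))))
(.leaf p097_l101)))))))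
(.spl (nat_lit 2) (nat_lit 160)
(.spl (nat_lit 3) (nat_lit 100)
(.trX (nat_lit 16) (nat_lit 87) (nat_lit 100) (nat_lit 94) (nat_lit 280) (.trX (nat_lit 19) (nat_lit 100) (nat_lit 88) (nat_lit 94) (nat_lit 320) (.leaf p097_l102)))
(.leaf p097_l103))
(.spl (nat_lit 1) (nat_lit 300)
(.leaf p097_l104)
(.trX (nat_lit 19) (nat_lit 94) (nat_lit 88) (nat_lit 100) (nat_lit 320) (.leaf p097_l105)))))
(.spl (nat_lit 4) (nat_lit 160)
(.spl (nat_lit 3) (nat_lit 100)
(.trX (nat_lit 19) (nat_lit 100) (nat_lit 88) (nat_lit 94) (nat_lit 320) (.leaf p097_l106))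
(.spl (nat_lit 6) (nat_lit 128)
(.spl (nat_lit 0) (nat_lit 340)
(.leaf p097_l107)
(.trZ (nat_lit 3) (nat_lit 100) (nat_lit 82) (nat_lit 29) (nat_lit 4) (.leaf p097_l108)))
(.leaf p097_l109)))
(.spl (nat_lit 1) (nat_lit 300)
(.leaf p097_l110)
(.trX (nat_lit 19) (nat_lit 94) (nat_lit 88) (nat_lit 100) (nat_lit 320) (.leaf p097_l111))))))) (by decide +kernel)
noncomputable def p097_l112 : Lf2 := ⟨nat_lit 0, nat_lit 30, [nat_lit 15, nat_lit 5, nat_lit 5, nat_lit 20], true, nat_lit 0, nat_lit 160, nat_lit 0, nat_lit 336, ⟨nat_lit 0, nat_lit 1000, nat_lit 0, nat_lit 7, nat_lit 224, nat_lit 1000, nat_lit 65, nat_lit 0, nat_lit 0, nat_lit 0, nat_lit 0, nat_lit 0, nat_lit 0, nat_lit 0, nat_lit 0, nat_lit 5000000, false, false⟩,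
 nat_lit 0, nat_lit 0, nat_lit 0, nat_lit 8634, nat_lit 4088, nat_lit 0, nat_lit 228, nat_lit 0, nat_lit 0, nat_lit 0, nat_lit 0, nat_lit 0, nat_lit 0, nat_lit 0, nat_lit 0, nat_lit 400000, nat_lit 0, nat_lit 0, [(nat_lit 20, [(nat_lit 1, nat_lit 1000)]), (nat_lit 23, [(nat_lit 1, nat_lit 1000)])],
 ⟨p097_k9, nat_lit 0, nat_lit 0, nat_lit 251, nat_lit 0, nat_lit 0, [nat_lit 1553800001, nat_lit 2055800001, nat_lit 1622800000], [], [nat_lit 22566384517, nat_lit 24793246181, nat_lit 24393670645, nat_lit 26203962018, nat_lit 20954112677, nat_lit 22865011317, nat_lit 22795877731, nat_lit 24654562531], nat_lit 0, nat_lit 0, nat_lit 0, nat_lit 0, nat_lit 0, nat_lit 0, [], [nat_lit 72, nat_lit 40, nat_lit 40, nat_lit 80, nat_lit 12, nat_lit 317, nat_lit 100, nat_lit 8]⟩, C1.Rw.none,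
 ⟨nat_lit 3162, nat_lit 4473, ⟨.ofNat (nat_lit 415764), .ofNat (nat_lit 653959), .ofNat (nat_lit 458716), .ofNat (nat_lit 696911), .ofNat (nat_lit 435680), .ofNat (nat_lit 649288), .ofNat (nat_lit 479808), .ofNat (nat_lit 693416)⟩, ⟨.ofNat (nat_lit 0), .ofNat (nat_lit 302621), .ofNat (nat_lit 0), .ofNat (nat_lit 345754), .ofNat (nat_lit 0), .ofNat (nat_lit 306116), .ofNat (nat_lit 0), .ofNat (nat_lit 350426)⟩⟩, [⟨nat_lit 3, nat_lit 100, nat_lit 65, nat_lit 54, nat_lit 13020715⟩]⟩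
noncomputable def p097_l113 : Lf2 := ⟨nat_lit 0, nat_lit 30, [nat_lit 15, nat_lit 5, nat_lit 5, nat_lit 20], false, nat_lit 0, nat_lit 160, nat_lit 0, nat_lit 336, ⟨nat_lit 1000, nat_lit 0, nat_lit 0, nat_lit 0, nat_lit 0, nat_lit 0, nat_lit 0, nat_lit 0, nat_lit 0, nat_lit 0, nat_lit 0, nat_lit 0, nat_lit 0, nat_lit 0, nat_lit 0, nat_lit 0, false, false⟩,
 nat_lit 0, nat_lit 0, nat_lit 0, nat_lit 11872, nat_lit 7452, nat_lit 8441, nat_lit 396, nat_lit 0, nat_lit 0, nat_lit 552, nat_lit 0, nat_lit 0, nat_lit 0, nat_lit 0, nat_lit 0, nat_lit 0, nat_lit 0, nat_lit 0, [],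
 ⟨p097_k9, nat_lit 0, nat_lit 0, nat_lit 244, nat_lit 0, nat_lit 0, [nat_lit 2032000001, nat_lit 6250000000, nat_lit 11872000000], [], [nat_lit 34130498876, nat_lit 35322120740, nat_lit 42743529724, nat_lit 43656589380, nat_lit 28704139452, nat_lit 29705295220, nat_lit 35170665516, nat_lit 35957334492], nat_lit 0, nat_lit 0, nat_lit 0, nat_lit 0, nat_lit 0, nat_lit 0, [], [nat_lit 72, nat_lit 40, nat_lit 40, nat_lit 80, nat_lit 12, nat_lit 373, nat_lit 150, nat_lit 9]⟩, ⟨p097_k7, nat_lit 0, nat_lit 0, nat_lit 277, nat_lit 0, nat_lit 0, [nat_lit 3282000000, nat_lit 7968000000, nat_lit 14058000000], [], [nat_lit 36163348316, nat_lit 37883906012, nat_lit 44164583060, nat_lit 45463940388, nat_lit 32085808667, nat_lit 32901353296, nat_lit 37132753064, nat_lit 38584475267], nat_lit 0, nat_lit 0, nat_lit 0, nat_lit 0, nat_lit 0, nat_lit 0, [], [nat_lit 84, nat_lit 40, nat_lit 40, nat_lit 80, nat_lit 28, nat_lit 538, nat_lit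 300, nat_lit 12]⟩,
 zbF0, [⟨nat_lit 7, nat_lit 100, nat_lit 100, nat_lit 100, nat_lit 62917742⟩, ⟨nat_lit 22, nat_lit 83, nat_lit 100, nat_lit 83, nat_lit 34983796⟩]⟩
noncomputable def p097_l114 : Lf2 := ⟨nat_lit 0, nat_lit 30, [nat_lit 15, nat_lit 5, nat_lit 5, nat_lit 20], false, nat_lit 0, nat_lit 160, nat_lit 0, nat_lit 336, ⟨nat_lit 1000, nat_lit 0, nat_lit 0, nat_lit 0, nat_lit 0, nat_lit 0, nat_lit 0, nat_lit 0, nat_lit 0, nat_lit 0, nat_lit 0, nat_lit 0, nat_lit 0, nat_lit 0, nat_lit 0, nat_lit 0, false, false⟩,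
 nat_lit 0, nat_lit 0, nat_lit 0, nat_lit 9735, nat_lit 8234, nat_lit 8441, nat_lit 33, nat_lit 0, nat_lit 0, nat_lit 589, nat_lit 0, nat_lit 0, nat_lit 0, nat_lit 0, nat_lit 0, nat_lit 0, nat_lit 0, nat_lit 0, [],
 ⟨p097_k6, nat_lit 0, nat_lit 0, nat_lit 225, nat_lit 0, nat_lit 0, [nat_lit 2032000001, nat_lit 6250000000, nat_lit 9842000000], [], [nat_lit 36514437981, nat_lit 38329438585, nat_lit 46469646645, nat_lit 47552300328, nat_lit 29829775853, nat_lit 31008397969, nat_lit 37922182753, nat_lit 38845629265], nat_lit 0, nat_lit 0, nat_lit 0, nat_lit 0, nat_lit 0, nat_lit 0, [], [nat_lit 61, nat_lit 40, nat_lit 40, nat_lit 80, nat_lit 1, nat_lit 373, nat_lit 150, nat_lit 10]⟩, ⟨p097_k7, nat_lit 0, nat_lit 0, nat_lit 277, nat_lit 0, nat_lit 0, [nat_lit 3282000000, nat_lit 7968000000, nat_lit 14058000000], [], [nat_lit 35608810816, nat_lit 37329368512, nat_lit 43610045560, nat_lit 44909402888, nat_lit 31531271167,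 nat_lit 32346815796, nat_lit 37132753064, nat_lit 38584475267], nat_lit 0, nat_lit 0, nat_lit 0, nat_lit 0, nat_lit 0, nat_lit 0, [], [nat_lit 84, nat_lit 40, nat_lit 40, nat_lit 80, nat_lit 28, nat_lit 538, nat_lit 300, nat_lit 12]⟩,
 zbF0, [⟨nat_lit 19, nat_lit 100, nat_lit 100, nat_lit 100, nat_lit 26991482⟩, ⟨nat_lit 22, nat_lit 83, nat_lit 100, nat_lit 83, nat_lit 99168580⟩]⟩
noncomputable def p097_l115 : Lf2 := ⟨nat_lit 0, nat_lit 30, [nat_lit 15, nat_lit 5, nat_lit 5, nat_lit 20], true, nat_lit 160, nat_lit 300, nat_lit 0, nat_lit 336, ⟨nat_lit 0, nat_lit 1000, nat_lit 0, nat_lit 7, nat_lit 224, nat_lit 1000, nat_lit 176, nat_lit 0, nat_lit 0, nat_lit 0, nat_lit 0, nat_lit 0, nat_lit 0, nat_lit 0, nat_lit 0, nat_lit 5000000, false, false⟩,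
 nat_lit 0, nat_lit 0, nat_lit 0, nat_lit 15015, nat_lit 4704, nat_lit 0, nat_lit 0, nat_lit 0, nat_lit 0, nat_lit 0, nat_lit 0, nat_lit 0, nat_lit 0, nat_lit 0, nat_lit 0, nat_lit 250000, nat_lit 0, nat_lit 0, [(nat_lit 20, [(nat_lit 0, nat_lit 1000)]), (nat_lit 23, [(nat_lit 0, nat_lit 1000)])],
 ⟨p097_k9, nat_lit 0, nat_lit 0, nat_lit 85, nat_lit 0, nat_lit 0, [nat_lit 1576000001, nat_lit 2718000000, nat_lit 3583920000], [], [nat_lit 17874617952, nat_lit 21229240432, nat_lit 21049428224, nat_lit 23702185952, nat_lit 23642841328, nat_lit 26147327436, nat_lit 25499264416, nat_lit 27506170664], nat_lit 0, nat_lit 0, nat_lit 0, nat_lit 0, nat_lit 0, nat_lit 0, [], [nat_lit 72, nat_lit 40, nat_lit 40, nat_lit 80, nat_lit 12, nat_lit 373, nat_lit 150, nat_lit 9]⟩, C1.Rw.none,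
 ⟨nat_lit 3162, nat_lit 4473, ⟨.ofNat (nat_lit 415764), .ofNat (nat_lit 653959), .ofNat (nat_lit 458716), .ofNat (nat_lit 696911), .ofNat (nat_lit 435680), .ofNat (nat_lit 649288), .ofNat (nat_lit 479808), .ofNat (nat_lit 693416)⟩, ⟨.ofNat (nat_lit 302621), .ofNat (nat_lit 540545), .ofNat (nat_lit 345754), .ofNat (nat_lit 583678), .ofNat (nat_lit 306116), .ofNat (nat_lit 519453), .ofNat (nat_lit 350426), .ofNat (nat_lit 563762)⟩⟩, [⟨nat_lit 16, nat_lit 74, nat_lit 100, nat_lit 90, nat_lit 356849052⟩]⟩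
noncomputable def p097_l116 : Lf2 := ⟨nat_lit 0, nat_lit 30, [nat_lit 15, nat_lit 5, nat_lit 5, nat_lit 20], false, nat_lit 160, nat_lit 300, nat_lit 0, nat_lit 336, ⟨nat_lit 1000, nat_lit 0, nat_lit 0, nat_lit 0, nat_lit 0, nat_lit 0, nat_lit 0, nat_lit 0, nat_lit 0, nat_lit 0, nat_lit 0, nat_lit 0, nat_lit 0, nat_lit 0, nat_lit 0, nat_lit 0, false, false⟩,
 nat_lit 0, nat_lit 0, nat_lit 0, nat_lit 25097, nat_lit 6536, nat_lit 8441, nat_lit 0, nat_lit 0, nat_lit 0, nat_lit 460, nat_lit 0, nat_lit 0, nat_lit 0, nat_lit 0, nat_lit 0, nat_lit 0, nat_lit 0, nat_lit 0, [],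
 ⟨p097_k9, nat_lit 0, nat_lit 0, nat_lit 100, nat_lit 0, nat_lit 0, [nat_lit 2032000001, nat_lit 6250000000, nat_lit 11872000000], [], [nat_lit 22886381216, nat_lit 26075607168, nat_lit 32601743488, nat_lit 34599519264, nat_lit 27681591544, nat_lit 30032386176, nat_lit 34853295848, nat_lit 36684636408], nat_lit 0, nat_lit 0, nat_lit 0, nat_lit 0, nat_lit 0, nat_lit 0, [], [nat_lit 72, nat_lit 40, nat_lit 40, nat_lit 80, nat_lit 12, nat_lit 401, nat_lit 175, nat_lit 9]⟩, ⟨p097_k7, nat_lit 0, nat_lit 0, nat_lit 277, nat_lit 0, nat_lit 0, [nat_lit 3282000000, nat_lit 7968000000, nat_lit 14058000000], [], [nat_lit 37542198316, nat_lit 39262756012, nat_lit 45543433060, nat_lit 46842790388, nat_lit 33464658667, nat_lit 34280203296, nat_lit 37878914728, nat_lit 38584475267], nat_lit 0, nat_lit 0, nat_lit 0, nat_lit 0, nat_lit 0, nat_lit 0, [], [nat_lit 84, nat_lit 40, nat_lit 40, nat_lit 80, nat_lit 28, nat_lit 538, nat_lit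 300, nat_lit 12]⟩,
 zbF0, [⟨nat_lit 16, nat_lit 74, nat_lit 100, nat_lit 90, nat_lit 541950665⟩, ⟨nat_lit 7, nat_lit 100, nat_lit 100, nat_lit 100, nat_lit 66465924⟩]⟩
noncomputable def p097_l117 : Lf2 := ⟨nat_lit 0, nat_lit 30, [nat_lit 15, nat_lit 5, nat_lit 5, nat_lit 20], true, nat_lit 0, nat_lit 160, nat_lit 0, nat_lit 336, ⟨nat_lit 0, nat_lit 1000, nat_lit 0, nat_lit 7, nat_lit 224, nat_lit 1000, nat_lit 65, nat_lit 0, nat_lit 0, nat_lit 0, nat_lit 0, nat_lit 0, nat_lit 0, nat_lit 0, nat_lit 0, nat_lit 5000000, false, false⟩,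
 nat_lit 0, nat_lit 0, nat_lit 0, nat_lit 8634, nat_lit 4088, nat_lit 0, nat_lit 228, nat_lit 0, nat_lit 0, nat_lit 0, nat_lit 0, nat_lit 0, nat_lit 0, nat_lit 0, nat_lit 0, nat_lit 400000, nat_lit 0, nat_lit 0, [(nat_lit 20, [(nat_lit 1, nat_lit 1000)]), (nat_lit 23, [(nat_lit 1, nat_lit 1000)])],
 ⟨p097_k9, nat_lit 0, nat_lit 0, nat_lit 251, nat_lit 0, nat_lit 0, [nat_lit 1553800001, nat_lit 2055800001, nat_lit 1622800000], [], [nat_lit 22566384517, nat_lit 24793246181, nat_lit 24393670645, nat_lit 26203962018, nat_lit 20954112677, nat_lit 22865011317, nat_lit 22795877731, nat_lit 24654562531], nat_lit 0, nat_lit 0, nat_lit 0, nat_lit 0, nat_lit 0, nat_lit 0, [], [nat_lit 72, nat_lit 40, nat_lit 40, nat_lit 80, nat_lit 12, nat_lit 317, nat_lit 100, nat_lit 8]⟩, C1.Rw.none,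
 ⟨nat_lit 3162, nat_lit 4473, ⟨.ofNat (nat_lit 415764), .ofNat (nat_lit 653959), .ofNat (nat_lit 458716), .ofNat (nat_lit 696911), .ofNat (nat_lit 435680), .ofNat (nat_lit 649288), .ofNat (nat_lit 479808), .ofNat (nat_lit 693416)⟩, ⟨.ofNat (nat_lit 0), .ofNat (nat_lit 302621), .ofNat (nat_lit 0), .ofNat (nat_lit 345754), .ofNat (nat_lit 0), .ofNat (nat_lit 306116), .ofNat (nat_lit 0), .ofNat (nat_lit 350426)⟩⟩, [⟨nat_lit 3, nat_lit 100, nat_lit 65, nat_lit 54, nat_lit 13020715⟩]⟩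
noncomputable def p097_l118 : Lf2 := ⟨nat_lit 0, nat_lit 30, [nat_lit 15, nat_lit 5, nat_lit 5, nat_lit 20], true, nat_lit 160, nat_lit 300, nat_lit 0, nat_lit 336, ⟨nat_lit 0, nat_lit 1000, nat_lit 0, nat_lit 7, nat_lit 224, nat_lit 1000, nat_lit 176, nat_lit 0, nat_lit 0, nat_lit 0, nat_lit 0, nat_lit 0, nat_lit 0, nat_lit 0, nat_lit 0, nat_lit 5000000, false, false⟩,
 nat_lit 0, nat_lit 0, nat_lit 0, nat_lit 15015, nat_lit 4704, nat_lit 0, nat_lit 0, nat_lit 0, nat_lit 0, nat_lit 0, nat_lit 0, nat_lit 0, nat_lit 0, nat_lit 0, nat_lit 0, nat_lit 250000, nat_lit 0, nat_lit 0, [(nat_lit 20, [(nat_lit 0, nat_lit 1000)]), (nat_lit 23, [(nat_lit 0, nat_lit 1000)])],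
 ⟨p097_k9, nat_lit 0, nat_lit 0, nat_lit 85, nat_lit 0, nat_lit 0, [nat_lit 1576000001, nat_lit 2718000000, nat_lit 3583920000], [], [nat_lit 17874617952, nat_lit 21229240432, nat_lit 21049428224, nat_lit 23702185952, nat_lit 23642841328, nat_lit 26147327436, nat_lit 25499264416, nat_lit 27506170664], nat_lit 0, nat_lit 0, nat_lit 0, nat_lit 0, nat_lit 0, nat_lit 0, [], [nat_lit 72, nat_lit 40, nat_lit 40, nat_lit 80, nat_lit 12, nat_lit 373, nat_lit 150, nat_lit 9]⟩, C1.Rw.none,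
 ⟨nat_lit 3162, nat_lit 4473, ⟨.ofNat (nat_lit 415764), .ofNat (nat_lit 653959), .ofNat (nat_lit 458716), .ofNat (nat_lit 696911), .ofNat (nat_lit 435680), .ofNat (nat_lit 649288), .ofNat (nat_lit 479808), .ofNat (nat_lit 693416)⟩, ⟨.ofNat (nat_lit 302621), .ofNat (nat_lit 540545), .ofNat (nat_lit 345754), .ofNat (nat_lit 583678), .ofNat (nat_lit 306116), .ofNat (nat_lit 519453), .ofNat (nat_lit 350426), .ofNat (nat_lit 563762)⟩⟩, [⟨nat_lit 16, nat_lit 74, nat_lit 100, nat_lit 90, nat_lit 356849052⟩]⟩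
noncomputable def p097_l119 : Lf2 := ⟨nat_lit 1, nat_lit 30, [nat_lit 15, nat_lit 5, nat_lit 5, nat_lit 20], false, nat_lit 0, nat_lit 160, nat_lit 0, nat_lit 336, zbN0,
 nat_lit 0, nat_lit 0, nat_lit 0, nat_lit 0, nat_lit 0, nat_lit 0, nat_lit 0, nat_lit 0, nat_lit 0, nat_lit 0, nat_lit 0, nat_lit 0, nat_lit 0, nat_lit 0, nat_lit 0, nat_lit 0, nat_lit 0, nat_lit 0, [],
 C1.Rw.none, C1.Rw.none,
 zbF0, []⟩
noncomputable def p097_l120 : Lf2 := ⟨nat_lit 0, nat_lit 30, [nat_lit 15, nat_lit 5, nat_lit 5, nat_lit 20], false, nat_lit 0, nat_lit 160, nat_lit 0, nat_lit 336, ⟨nat_lit 1000, nat_lit 0, nat_lit 0, nat_lit 0, nat_lit 0, nat_lit 0, nat_lit 0, nat_lit 0, nat_lit 0, nat_lit 0, nat_lit 0, nat_lit 0, nat_lit 0, nat_lit 0, nat_lit 0, nat_lit 0, false, false⟩,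
 nat_lit 0, nat_lit 0, nat_lit 13265, nat_lit 0, nat_lit 6314, nat_lit 8441, nat_lit 488, nat_lit 0, nat_lit 0, nat_lit 590, nat_lit 0, nat_lit 0, nat_lit 0, nat_lit 0, nat_lit 0, nat_lit 0, nat_lit 0, nat_lit 0, [],
 ⟨p097_k29, nat_lit 0, nat_lit 0, nat_lit 244, nat_lit 0, nat_lit 0, [nat_lit 2032000001, nat_lit 6250000000, nat_lit 11872000000], [], [nat_lit 32636916006, nat_lit 33183803180, nat_lit 39904556014, nat_lit 40332709536, nat_lit 28348216802, nat_lit 28811107540, nat_lit 33792561828, nat_lit 34163029344], nat_lit 0, nat_lit 0, nat_lit 0, nat_lit 0, nat_lit 0, nat_lit 0, [], [nat_lit 72, nat_lit 40, nat_lit 40, nat_lit 80, nat_lit 12, nat_lit 373, nat_lit 150, nat_lit 9]⟩, ⟨p097_k7, nat_lit 0, nat_lit 0, nat_lit 294, nat_lit 0, nat_lit 54394, [nat_lit 3282000000, nat_lit 7968000000, nat_lit 14058000000], [], [nat_lit 35593823316, nat_lit 37314381012, nat_lit 43595058060, nat_lit 44894415388, nat_lit 31516283667,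 nat_lit 32331828296, nat_lit 37132753064, nat_lit 38584475267], nat_lit 1271250, nat_lit 1271250, nat_lit 1271250, nat_lit 1271250, nat_lit 0, nat_lit 2373000, [nat_lit 780000, nat_lit 1762500, nat_lit 1271250], [nat_lit 84, nat_lit 40, nat_lit 40, nat_lit 80, nat_lit 28, nat_lit 538, nat_lit 300, nat_lit 12]⟩,
 zbF0, [⟨nat_lit 19, nat_lit 100, nat_lit 100, nat_lit 100, nat_lit 95556520⟩]⟩
noncomputable def p097_l121 : Lf2 := ⟨nat_lit 1, nat_lit 30, [nat_lit 15, nat_lit 5, nat_lit 5, nat_lit 20], false, nat_lit 0, nat_lit 160, nat_lit 0, nat_lit 336, zbN0,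
 nat_lit 0, nat_lit 0, nat_lit 0, nat_lit 0, nat_lit 0, nat_lit 0, nat_lit 0, nat_lit 0, nat_lit 0, nat_lit 0, nat_lit 0, nat_lit 0, nat_lit 0, nat_lit 0, nat_lit 0, nat_lit 0, nat_lit 0, nat_lit 0, [],
 C1.Rw.none, C1.Rw.none,
 zbF0, []⟩
noncomputable def p097_l122 : Lf2 := ⟨nat_lit 0, nat_lit 30, [nat_lit 15, nat_lit 5, nat_lit 5, nat_lit 20], false, nat_lit 0, nat_lit 160, nat_lit 0, nat_lit 336, ⟨nat_lit 594, nat_lit 406, nat_lit 0, nat_lit 7, nat_lit 314, nat_lit 406, nat_lit 65, nat_lit 0, nat_lit 0, nat_lit 0, nat_lit 0, nat_lit 0, nat_lit 0, nat_lit 0, nat_lit 0, nat_lit 5000000, true, true⟩,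
 nat_lit 0, nat_lit 0, nat_lit 6321, nat_lit 1032, nat_lit 5609, nat_lit 4022, nat_lit 0, nat_lit 0, nat_lit 0, nat_lit 463, nat_lit 0, nat_lit 0, nat_lit 0, nat_lit 0, nat_lit 0, nat_lit 162400, nat_lit 0, nat_lit 0, [(nat_lit 23, [(nat_lit 1, nat_lit 406)])],
 ⟨p097_k15, nat_lit 0, nat_lit 0, nat_lit 214, nat_lit 0, nat_lit 0, [nat_lit 1757544000, nat_lit 3444990400, nat_lit 6357383200], [], [nat_lit 32027403806, nat_lit 33470163660, nat_lit 40026129463, nat_lit 40947722335, nat_lit 28300942570, nat_lit 29339873544, nat_lit 34999525937, nat_lit 35800222713], nat_lit 0, nat_lit 0, nat_lit 0, nat_lit 0, nat_lit 0, nat_lit 0, [], [nat_lit 27, nat_lit 40, nat_lit 40, nat_lit 80, nat_lit 13, nat_lit 373, nat_lit 150, nat_lit 10]⟩, ⟨p097_k14, nat_lit 0, nat_lit 0, nat_lit 370, nat_lit 0, nat_lit 121754, [nat_lit 1949508000, nat_lit 3712500000, nat_lit 8350452000], [], [nat_lit 21301431788, nat_lit 21618798672, nat_lit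 23832715406, nat_lit 24207216746, nat_lit 18851882336, nat_lit 19003962977, nat_lit 20939592453, nat_lit 21131339438], nat_lit 1271250, nat_lit 1271250, nat_lit 1271250, nat_lit 1271250, nat_lit 0, nat_lit 2373000, [nat_lit 780000, nat_lit 1435000, nat_lit 1271250], [nat_lit 71, nat_lit 40, nat_lit 40, nat_lit 80, nat_lit 68, nat_lit 538, nat_lit 300, nat_lit 12]⟩,
 ⟨nat_lit 3162, nat_lit 3873, ⟨.ofNat (nat_lit 651611), .ofNat (nat_lit 903327), .ofNat (nat_lit 673376), .ofNat (nat_lit 925121), .ofNat (nat_lit 649490), .ofNat (nat_lit 887290), .ofNat (nat_lit 671616), .ofNat (nat_lit 909444)⟩, ⟨.ofNat (nat_lit 0), .ofNat (nat_lit 304717), .ofNat (nat_lit 0), .ofNat (nat_lit 348304), .ofNat (nat_lit 0), .ofNat (nat_lit 306116), .ofNat (nat_lit 0), .ofNat (nat_lit 350426)⟩⟩, [⟨nat_lit 7, nat_lit 94, nat_lit 100, nat_lit 97, nat_lit 18985016⟩, ⟨nat_lit 22, nat_lit 84, nat_lit 100, nat_lit 84, nat_lit 68544929⟩]⟩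
noncomputable def p097_l123 : Lf2 := ⟨nat_lit 0, nat_lit 30, [nat_lit 15, nat_lit 5, nat_lit 5, nat_lit 20], false, nat_lit 0, nat_lit 160, nat_lit 0, nat_lit 320, ⟨nat_lit 955, nat_lit 45, nat_lit 0, nat_lit 7, nat_lit 324, nat_lit 45, nat_lit 65, nat_lit 0, nat_lit 0, nat_lit 0, nat_lit 0, nat_lit 0, nat_lit 0, nat_lit 0, nat_lit 0, nat_lit 5000000, true, true⟩,
 nat_lit 0, nat_lit 0, nat_lit 7938, nat_lit 0, nat_lit 5809, nat_lit 5495, nat_lit 336, nat_lit 0, nat_lit 0, nat_lit 768, nat_lit 0, nat_lit 0, nat_lit 0, nat_lit 0, nat_lit 0, nat_lit 45000, nat_lit 0, nat_lit 0, [(nat_lit 23, [(nat_lit 2, nat_lit 45)])],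
 ⟨p097_k15, nat_lit 0, nat_lit 0, nat_lit 215, nat_lit 0, nat_lit 0, [nat_lit 2003410001, nat_lit 4499972000, nat_lit 9118778000], [], [nat_lit 30903475406, nat_lit 32374596460, nat_lit 39276623770, nat_lit 40197781940, nat_lit 26948684970, nat_lit 28004484392, nat_lit 33950864528, nat_lit 34750713640], nat_lit 0, nat_lit 0, nat_lit 0, nat_lit 0, nat_lit 0, nat_lit 0, [], [nat_lit 27, nat_lit 40, nat_lit 40, nat_lit 80, nat_lit 13, nat_lit 373, nat_lit 150, nat_lit 10]⟩, ⟨p097_k25, nat_lit 0, nat_lit 0, nat_lit 364, nat_lit 0, nat_lit 249400, [nat_lit 3134310000, nat_lit 5968750000, nat_lit 11337760000], [], [nat_lit 30048740020, nat_lit 30703335460, nat_lit 35199630140, nat_lit 35860648380, nat_lit 28129266920, nat_lit 28505959760, nat_lit 32336270140, nat_lit 32997288380], nat_lit 1271250, nat_lit 1271250, nat_lit 1271250, nat_lit 1271250, nat_lit 0, nat_lit 2260000, [nat_lit 780000, nat_lit 1435000, nat_lit 1271250],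 [nat_lit 23, nat_lit 40, nat_lit 40, nat_lit 80, nat_lit 12, nat_lit 538, nat_lit 300, nat_lit 13]⟩,
 ⟨nat_lit 3162, nat_lit 3873, ⟨.ofNat (nat_lit 673376), .ofNat (nat_lit 931573), .ofNat (nat_lit 695141), .ofNat (nat_lit 953347), .ofNat (nat_lit 671616), .ofNat (nat_lit 915540), .ofNat (nat_lit 693742), .ofNat (nat_lit 937676)⟩, ⟨.ofNat (nat_lit 0), .ofNat (nat_lit 304717), .ofNat (nat_lit 0), .ofNat (nat_lit 348304), .ofNat (nat_lit 0), .ofNat (nat_lit 306116), .ofNat (nat_lit 0), .ofNat (nat_lit 350426)⟩⟩, [⟨nat_lit 19, nat_lit 93, nat_lit 100, nat_lit 97, nat_lit 146809058⟩]⟩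
noncomputable def p097_l124 : Lf2 := ⟨nat_lit 0, nat_lit 30, [nat_lit 15, nat_lit 5, nat_lit 5, nat_lit 20], false, nat_lit 160, nat_lit 300, nat_lit 0, nat_lit 336, ⟨nat_lit 1000, nat_lit 0, nat_lit 0, nat_lit 0, nat_lit 0, nat_lit 0, nat_lit 0, nat_lit 0, nat_lit 0, nat_lit 0, nat_lit 0, nat_lit 0, nat_lit 0, nat_lit 0, nat_lit 0, nat_lit 0, false, false⟩,
 nat_lit 0, nat_lit 0, nat_lit 13265, nat_lit 12822, nat_lit 6706, nat_lit 8441, nat_lit 0, nat_lit 0, nat_lit 0, nat_lit 451, nat_lit 0, nat_lit 0, nat_lit 0, nat_lit 0, nat_lit 0, nat_lit 0, nat_lit 0, nat_lit 0, [],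
 ⟨p097_k9, nat_lit 0, nat_lit 0, nat_lit 95, nat_lit 0, nat_lit 0, [nat_lit 2032000001, nat_lit 6250000000, nat_lit 11872000000], [], [nat_lit 22729089736, nat_lit 24348593432, nat_lit 32576788848, nat_lit 33587722596, nat_lit 27556348974, nat_lit 28747701810, nat_lit 35052232908, nat_lit 35977855413], nat_lit 0, nat_lit 0, nat_lit 0, nat_lit 0, nat_lit 0, nat_lit 0, [], [nat_lit 72, nat_lit 40, nat_lit 40, nat_lit 80, nat_lit 12, nat_lit 401, nat_lit 175, nat_lit 9]⟩, ⟨p097_k7, nat_lit 0, nat_lit 0, nat_lit 294, nat_lit 0, nat_lit 55482, [nat_lit 3282000000, nat_lit 7968000000, nat_lit 14058000000], [], [nat_lit 37677085816, nat_lit 39397643512, nat_lit 45678320560, nat_lit 46977677888, nat_lit 33599546167, nat_lit 34415090796, nat_lit 38013802228, nat_lit 38585779617], nat_lit 1271250, nat_lit 1271250, nat_lit 1271250, nat_lit 1271250, nat_lit 0, nat_lit 2373000, [nat_lit 780000, nat_lit 1762500, nat_lit 1271250],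 [nat_lit 84, nat_lit 40, nat_lit 40, nat_lit 80, nat_lit 28, nat_lit 538, nat_lit 300, nat_lit 12]⟩,
 zbF0, [⟨nat_lit 4, nat_lit 100, nat_lit 81, nat_lit 92, nat_lit 490190702⟩, ⟨nat_lit 19, nat_lit 100, nat_lit 100, nat_lit 100, nat_lit 64505017⟩]⟩
noncomputable def p097_l125 : Lf2 := ⟨nat_lit 0, nat_lit 30, [nat_lit 15, nat_lit 5, nat_lit 5, nat_lit 20], false, nat_lit 160, nat_lit 276, nat_lit 0, nat_lit 336, ⟨nat_lit 708, nat_lit 292, nat_lit 0, nat_lit 7, nat_lit 319, nat_lit 292, nat_lit 167, nat_lit 0, nat_lit 0, nat_lit 0, nat_lit 0, nat_lit 0, nat_lit 0, nat_lit 0, nat_lit 0, nat_lit 5000000, true, true⟩,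
 nat_lit 0, nat_lit 0, nat_lit 8339, nat_lit 0, nat_lit 5753, nat_lit 5306, nat_lit 0, nat_lit 0, nat_lit 0, nat_lit 353, nat_lit 0, nat_lit 0, nat_lit 0, nat_lit 0, nat_lit 0, nat_lit 73000, nat_lit 0, nat_lit 0, [(nat_lit 23, [(nat_lit 0, nat_lit 292)])],
 ⟨p097_k6, nat_lit 0, nat_lit 0, nat_lit 100, nat_lit 0, nat_lit 0, [nat_lit 1898848001, nat_lit 5105593600, nat_lit 7882796800], [], [nat_lit 23946410116, nat_lit 25426379364, nat_lit 32515681298, nat_lit 33459087372, nat_lit 27255516210, nat_lit 28425067824, nat_lit 34124737361, nat_lit 35049279465], nat_lit 0, nat_lit 0, nat_lit 0, nat_lit 0, nat_lit 0, nat_lit 0, [], [nat_lit 61, nat_lit 40, nat_lit 40, nat_lit 80, nat_lit 1, nat_lit 401, nat_lit 175, nat_lit 10]⟩, ⟨p097_k7, nat_lit 0, nat_lit 0, nat_lit 423, nat_lit 0, nat_lit 282075, [nat_lit 2323656000, nat_lit 5641344000, nat_lit 9953064000], [], [nat_lit 26594755340, nat_lit 27755903276, nat_lit 31075436028,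 nat_lit 31887648396, nat_lit 24519359680, nat_lit 25097544886, nat_lit 26815022912, nat_lit 27074444707], nat_lit 1271250, nat_lit 1271250, nat_lit 1271250, nat_lit 1271250, nat_lit 0, nat_lit 2373000, [nat_lit 780000, nat_lit 1762500, nat_lit 1271250], [nat_lit 84, nat_lit 40, nat_lit 40, nat_lit 80, nat_lit 28, nat_lit 538, nat_lit 300, nat_lit 12]⟩,
 ⟨nat_lit 3162, nat_lit 3873, ⟨.ofNat (nat_lit 651611), .ofNat (nat_lit 909779), .ofNat (nat_lit 695141), .ofNat (nat_lit 953347), .ofNat (nat_lit 649490), .ofNat (nat_lit 893385), .ofNat (nat_lit 693742), .ofNat (nat_lit 937676)⟩, ⟨.ofNat (nat_lit 304717), .ofNat (nat_lit 491830), .ofNat (nat_lit 348304), .ofNat (nat_lit 535416), .ofNat (nat_lit 306116), .ofNat (nat_lit 482881), .ofNat (nat_lit 350426), .ofNat (nat_lit 527190)⟩⟩, [⟨nat_lit 16, nat_lit 67, nat_lit 100, nat_lit 88, nat_lit 421880721⟩, ⟨nat_lit 19, nat_lit 100, nat_lit 100, nat_lit 100, nat_lit 62330705⟩]⟩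
noncomputable def b_V_800_700_20_54 : St := ⟨true, nat_lit 0, nat_lit 2, nat_lit 2, nat_lit 120, nat_lit 320, nat_lit 360, nat_lit 280, nat_lit 320, nat_lit 100, nat_lit 400, nat_lit 80, nat_lit 120, nat_lit 0, nat_lit 300, nat_lit 0, nat_lit 336, nat_lit 120, nat_lit 140, nat_lit 0, nat_lit 0, nat_lit 0, nat_lit 0⟩
theorem d_V_800_700_20_54 (h : EB TB.env) : Dead b_V_800_700_20_54 := chkB_sound0 h (T :=
(.st (nat_lit 1)
(.spl (nat_lit 4) (nat_lit 160)
(.spl (nat_lit 2) (nat_lit 240)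
(.leaf p097_l112)
(.spl (nat_lit 0) (nat_lit 340)
(.leaf p097_l113)
(.leaf p097_l114)))
(.spl (nat_lit 2) (nat_lit 240)
(.leaf p097_l115)
(.leaf p097_l116)))
(.spl (nat_lit 2) (nat_lit 240)
(.spl (nat_lit 4) (nat_lit 160)
(.leaf p097_l117)
(.leaf p097_l118))
(.spl (nat_lit 4) (nat_lit 160)
(.spl (nat_lit 0) (nat_lit 340)
(.spl (nat_lit 6) (nat_lit 124)
(.spl (nat_lit 0) (nat_lit 330)
(.leaf p097_l119)
(.leaf p097_l120))
(.leaf p097_l121))
(.spl (nat_lit 1) (nat_lit 300)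
(.trX (nat_lit 13) (nat_lit 82) (nat_lit 29) (nat_lit 100) (nat_lit 396) (.leaf p097_l122))
(.trX (nat_lit 19) (nat_lit 94) (nat_lit 88) (nat_lit 100) (nat_lit 320) (.leaf p097_l123))))
(.spl (nat_lit 0) (nat_lit 340)
(.leaf p097_l124)
(.trX (nat_lit 16) (nat_lit 77) (nat_lit 100) (nat_lit 99) (nat_lit 276) (.leaf p097_l125))))))) (by decide +kernel)
noncomputable def p097_l126 : Lf2 := ⟨nat_lit 0, nat_lit 25, [nat_lit 44, nat_lit 5, nat_lit 5, nat_lit 20], false, nat_lit 0, nat_lit 160, nat_lit 0, nat_lit 320, ⟨nat_lit 1000, nat_lit 0, nat_lit 0, nat_lit 0, nat_lit 0, nat_lit 0, nat_lit 0, nat_lit 0, nat_lit 0, nat_lit 0, nat_lit 0, nat_lit 0, nat_lit 0, nat_lit 0, nat_lit 0, nat_lit 0, false, false⟩,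
 nat_lit 0, nat_lit 10115, nat_lit 0, nat_lit 15292, nat_lit 7586, nat_lit 15448, nat_lit 601, nat_lit 0, nat_lit 0, nat_lit 0, nat_lit 0, nat_lit 0, nat_lit 0, nat_lit 0, nat_lit 0, nat_lit 0, nat_lit 0, nat_lit 0, [],
 ⟨p097_k0, nat_lit 0, nat_lit 0, nat_lit 285, nat_lit 0, nat_lit 66696, [nat_lit 2032000001, nat_lit 6250000000, nat_lit 9842000000], [], [nat_lit 28839357830, nat_lit 31711187810, nat_lit 29517729833, nat_lit 32210346417, nat_lit 23396408886, nat_lit 26092911721, nat_lit 25330707225, nat_lit 26988627520], nat_lit 1271250, nat_lit 1271250, nat_lit 631250, nat_lit 1751250, nat_lit 0, nat_lit 1100001, [nat_lit 490000, nat_lit 1427500, nat_lit 1271250], [nat_lit 61, nat_lit 40, nat_lit 40, nat_lit 80, nat_lit 1, nat_lit 317, nat_lit 100, nat_lit 9]⟩, ⟨p097_k1, nat_lit 0, nat_lit 0, nat_lit 246, nat_lit 0, nat_lit 0, [nat_lit 3282000000, nat_lit 7968000000, nat_lit 11872000000], [], [nat_lit 39586773840,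 nat_lit 45369571760, nat_lit 40008570944, nat_lit 44259297024, nat_lit 33195048800, nat_lit 36098359952, nat_lit 30163143072, nat_lit 32387297024], nat_lit 0, nat_lit 0, nat_lit 0, nat_lit 0, nat_lit 0, nat_lit 0, [], [nat_lit 79, nat_lit 40, nat_lit 40, nat_lit 80, nat_lit 14, nat_lit 456, nat_lit 225, nat_lit 12]⟩,
 zbF0, [⟨nat_lit 0, nat_lit 80, nat_lit 60, nat_lit 100, nat_lit 1221395147⟩, ⟨nat_lit 3, nat_lit 100, nat_lit 86, nat_lit 23, nat_lit 19320350⟩]⟩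
noncomputable def p097_l127 : Lf2 := ⟨nat_lit 1, nat_lit 30, [nat_lit 15, nat_lit 5, nat_lit 5, nat_lit 20], false, nat_lit 0, nat_lit 160, nat_lit 0, nat_lit 336, zbN0,
 nat_lit 0, nat_lit 0, nat_lit 0, nat_lit 0, nat_lit 0, nat_lit 0, nat_lit 0, nat_lit 0, nat_lit 0, nat_lit 0, nat_lit 0, nat_lit 0, nat_lit 0, nat_lit 0, nat_lit 0, nat_lit 0, nat_lit 0, nat_lit 0, [],
 C1.Rw.none, C1.Rw.none,
 zbF0, []⟩
noncomputable def p097_l128 : Lf2 := ⟨nat_lit 0, nat_lit 30, [nat_lit 15, nat_lit 5, nat_lit 5, nat_lit 20], false, nat_lit 0, nat_lit 160, nat_lit 0, nat_lit 320, ⟨nat_lit 1000, nat_lit 0, nat_lit 0, nat_lit 0, nat_lit 0, nat_lit 0, nat_lit 0, nat_lit 0, nat_lit 0, nat_lit 0, nat_lit 0, nat_lit 0, nat_lit 0, nat_lit 0, nat_lit 0, nat_lit 0, false, false⟩,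
 nat_lit 0, nat_lit 9668, nat_lit 0, nat_lit 11921, nat_lit 7251, nat_lit 15292, nat_lit 614, nat_lit 0, nat_lit 0, nat_lit 0, nat_lit 0, nat_lit 0, nat_lit 0, nat_lit 0, nat_lit 0, nat_lit 0, nat_lit 0, nat_lit 0, [],
 ⟨p097_k9, nat_lit 0, nat_lit 0, nat_lit 333, nat_lit 0, nat_lit 73070, [nat_lit 2032000001, nat_lit 6250000000, nat_lit 11872000000], [], [nat_lit 29868945374, nat_lit 32797471898, nat_lit 31128682638, nat_lit 33530857742, nat_lit 24930084694, nat_lit 27389443558, nat_lit 26459409085, nat_lit 27893784594], nat_lit 1271250, nat_lit 1271250, nat_lit 780000, nat_lit 1762500, nat_lit 0, nat_lit 1100001, [nat_lit 490000, nat_lit 1427500, nat_lit 1271250], [nat_lit 72, nat_lit 40, nat_lit 40, nat_lit 80, nat_lit 12, nat_lit 317, nat_lit 100, nat_lit 8]⟩, ⟨p097_k12, nat_lit 0, nat_lit 0, nat_lit 235, nat_lit 0, nat_lit 0, [nat_lit 3282000000, nat_lit 7968000000, nat_lit 11872000000], [], [nat_lit 40987757784,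 nat_lit 43776684944, nat_lit 42056587936, nat_lit 44166588096, nat_lit 33267608272, nat_lit 34664460544, nat_lit 31281575936, nat_lit 32295545584], nat_lit 0, nat_lit 0, nat_lit 0, nat_lit 0, nat_lit 0, nat_lit 0, [], [nat_lit 79, nat_lit 40, nat_lit 40, nat_lit 80, nat_lit 14, nat_lit 456, nat_lit 225, nat_lit 12]⟩,
 zbF0, [⟨nat_lit 0, nat_lit 80, nat_lit 60, nat_lit 100, nat_lit 1112539307⟩]⟩
noncomputable def p097_l129 : Lf2 := ⟨nat_lit 1, nat_lit 30, [nat_lit 15, nat_lit 5, nat_lit 5, nat_lit 20], false, nat_lit 0, nat_lit 160, nat_lit 0, nat_lit 336, zbN0,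
 nat_lit 0, nat_lit 0, nat_lit 0, nat_lit 0, nat_lit 0, nat_lit 0, nat_lit 0, nat_lit 0, nat_lit 0, nat_lit 0, nat_lit 0, nat_lit 0, nat_lit 0, nat_lit 0, nat_lit 0, nat_lit 0, nat_lit 0, nat_lit 0, [],
 C1.Rw.none, C1.Rw.none,
 zbF0, []⟩
noncomputable def p097_l130 : Lf2 := ⟨nat_lit 1, nat_lit 30, [nat_lit 15, nat_lit 5, nat_lit 5, nat_lit 20], false, nat_lit 160, nat_lit 300, nat_lit 0, nat_lit 336, zbN0,
 nat_lit 0, nat_lit 0, nat_lit 0, nat_lit 0, nat_lit 0, nat_lit 0, nat_lit 0, nat_lit 0, nat_lit 0, nat_lit 0, nat_lit 0, nat_lit 0, nat_lit 0, nat_lit 0, nat_lit 0, nat_lit 0, nat_lit 0, nat_lit 0, [],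
 C1.Rw.none, C1.Rw.none,
 zbF0, []⟩
noncomputable def p097_l131 : Lf2 := ⟨nat_lit 0, nat_lit 30, [nat_lit 15, nat_lit 5, nat_lit 5, nat_lit 20], false, nat_lit 160, nat_lit 276, nat_lit 0, nat_lit 336, ⟨nat_lit 1000, nat_lit 0, nat_lit 0, nat_lit 0, nat_lit 0, nat_lit 0, nat_lit 0, nat_lit 0, nat_lit 0, nat_lit 0, nat_lit 0, nat_lit 0, nat_lit 0, nat_lit 0, nat_lit 0, nat_lit 0, false, false⟩,
 nat_lit 0, nat_lit 9790, nat_lit 0, nat_lit 18057, nat_lit 7924, nat_lit 9651, nat_lit 0, nat_lit 0, nat_lit 0, nat_lit 734, nat_lit 0, nat_lit 0, nat_lit 0, nat_lit 0, nat_lit 0, nat_lit 0, nat_lit 0, nat_lit 0, [],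
 ⟨p097_k6, nat_lit 0, nat_lit 0, nat_lit 93, nat_lit 0, nat_lit 79154, [nat_lit 2032000001, nat_lit 6250000000, nat_lit 9842000000], [], [nat_lit 20710832077, nat_lit 22964623581, nat_lit 23399980928, nat_lit 25197819312, nat_lit 25463738831, nat_lit 27203043021, nat_lit 26912127806, nat_lit 28700853845], nat_lit 1271250, nat_lit 1271250, nat_lit 810650, nat_lit 1764750, nat_lit 1100001, nat_lit 2093250, [nat_lit 490000, nat_lit 1427500, nat_lit 1271250], [nat_lit 61, nat_lit 40, nat_lit 40, nat_lit 80, nat_lit 1, nat_lit 373, nat_lit 150, nat_lit 10]⟩, ⟨p097_k7, nat_lit 0, nat_lit 0, nat_lit 269, nat_lit 0, nat_lit 0, [nat_lit 3282000000, nat_lit 7968000000, nat_lit 14058000000], [], [nat_lit 31743088309, nat_lit 33432186412, nat_lit 32922314940, nat_lit 34241004866, nat_lit 29161460537, nat_lit 30008126280, nat_lit 28337711974, nat_lit 28979129650], nat_lit 0, nat_lit 0, nat_lit 0, nat_lit 0, nat_lit 0, nat_lit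 0, [], [nat_lit 84, nat_lit 40, nat_lit 40, nat_lit 80, nat_lit 28, nat_lit 456, nat_lit 225, nat_lit 11]⟩,
 zbF0, [⟨nat_lit 0, nat_lit 87, nat_lit 60, nat_lit 100, nat_lit 812268920⟩, ⟨nat_lit 4, nat_lit 100, nat_lit 67, nat_lit 88, nat_lit 672441101⟩, ⟨nat_lit 19, nat_lit 100, nat_lit 94, nat_lit 97, nat_lit 114494755⟩]⟩
noncomputable def p097_l132 : Lf2 := ⟨nat_lit 1, nat_lit 30, [nat_lit 15, nat_lit 5, nat_lit 5, nat_lit 20], false, nat_lit 160, nat_lit 300, nat_lit 0, nat_lit 336, zbN0,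
 nat_lit 0, nat_lit 0, nat_lit 0, nat_lit 0, nat_lit 0, nat_lit 0, nat_lit 0, nat_lit 0, nat_lit 0, nat_lit 0, nat_lit 0, nat_lit 0, nat_lit 0, nat_lit 0, nat_lit 0, nat_lit 0, nat_lit 0, nat_lit 0, [],
 C1.Rw.none, C1.Rw.none,
 zbF0, []⟩
noncomputable def p097_l133 : Lf2 := ⟨nat_lit 0, nat_lit 30, [nat_lit 15, nat_lit 5, nat_lit 5, nat_lit 20], false, nat_lit 160, nat_lit 300, nat_lit 0, nat_lit 160, ⟨nat_lit 1000, nat_lit 0, nat_lit 0, nat_lit 0, nat_lit 0, nat_lit 0, nat_lit 0, nat_lit 0, nat_lit 0, nat_lit 0, nat_lit 0, nat_lit 0, nat_lit 0, nat_lit 0, nat_lit 0, nat_lit 0, false, false⟩,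
 nat_lit 0, nat_lit 9317, nat_lit 0, nat_lit 9933, nat_lit 6987, nat_lit 6150, nat_lit 670, nat_lit 0, nat_lit 0, nat_lit 830, nat_lit 0, nat_lit 0, nat_lit 0, nat_lit 0, nat_lit 0, nat_lit 0, nat_lit 0, nat_lit 0, [],
 ⟨p097_k9, nat_lit 0, nat_lit 0, nat_lit 217, nat_lit 0, nat_lit 212157, [nat_lit 2032000001, nat_lit 6250000000, nat_lit 11872000000], [], [nat_lit 22322367254, nat_lit 25405392254, nat_lit 23892646206, nat_lit 26369233114, nat_lit 26557794971, nat_lit 28820960138, nat_lit 28069895210, nat_lit 29784783117], nat_lit 1271250, nat_lit 1271250, nat_lit 780000, nat_lit 1762500, nat_lit 1100001, nat_lit 2298750, [nat_lit 490000, nat_lit 1427500, nat_lit 1271250], [nat_lit 72, nat_lit 40, nat_lit 40, nat_lit 80, nat_lit 12, nat_lit 373, nat_lit 150, nat_lit 9]⟩, ⟨p097_k12, nat_lit 0, nat_lit 0, nat_lit 235, nat_lit 0, nat_lit 0, [nat_lit 3282000000, nat_lit 7968000000, nat_lit 11872000000], [], [nat_lit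 25237495550, nat_lit 26758153050, nat_lit 27447192450, nat_lit 28656888450, nat_lit 20969554150, nat_lit 22259674050, nat_lit 22941419550, nat_lit 23970555650], nat_lit 0, nat_lit 0, nat_lit 0, nat_lit 0, nat_lit 0, nat_lit 0, [], [nat_lit 79, nat_lit 40, nat_lit 40, nat_lit 80, nat_lit 14, nat_lit 428, nat_lit 200, nat_lit 11]⟩,
 zbF0, [⟨nat_lit 0, nat_lit 85, nat_lit 73, nat_lit 100, nat_lit 571260259⟩, ⟨nat_lit 4, nat_lit 100, nat_lit 74, nat_lit 90, nat_lit 512927900⟩]⟩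
noncomputable def p097_l134 : Lf2 := ⟨nat_lit 0, nat_lit 30, [nat_lit 15, nat_lit 5, nat_lit 5, nat_lit 20], false, nat_lit 160, nat_lit 300, nat_lit 160, nat_lit 320, ⟨nat_lit 1000, nat_lit 0, nat_lit 0, nat_lit 0, nat_lit 0, nat_lit 0, nat_lit 0, nat_lit 0, nat_lit 0, nat_lit 0, nat_lit 0, nat_lit 0, nat_lit 0, nat_lit 0, nat_lit 0, nat_lit 0, false, false⟩,
 nat_lit 0, nat_lit 9274, nat_lit 0, nat_lit 17047, nat_lit 6955, nat_lit 5009, nat_lit 670, nat_lit 0, nat_lit 0, nat_lit 0, nat_lit 0, nat_lit 0, nat_lit 0, nat_lit 0, nat_lit 0, nat_lit 0, nat_lit 0, nat_lit 0, [],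
 ⟨p097_k9, nat_lit 0, nat_lit 0, nat_lit 217, nat_lit 0, nat_lit 212157, [nat_lit 2032000001, nat_lit 6250000000, nat_lit 11872000000], [], [nat_lit 22336441110, nat_lit 25411050110, nat_lit 23912073790, nat_lit 26382514010, nat_lit 26568419515, nat_lit 28826268170, nat_lit 28121575722, nat_lit 29802351405], nat_lit 1271250, nat_lit 1271250, nat_lit 780000, nat_lit 1762500, nat_lit 1100001, nat_lit 2298750, [nat_lit 490000, nat_lit 1427500, nat_lit 1271250], [nat_lit 72, nat_lit 40, nat_lit 40, nat_lit 80, nat_lit 12, nat_lit 373, nat_lit 150, nat_lit 9]⟩, ⟨p097_k12, nat_lit 0, nat_lit 0, nat_lit 75, nat_lit 0, nat_lit 0, [nat_lit 3282000000, nat_lit 7968000000, nat_lit 11872000000], [], [nat_lit 14368354076, nat_lit 16180233624, nat_lit 18440773088, nat_lit 19882389840, nat_lit 22734191926, nat_lit 24096473988, nat_lit 25086194272, nat_lit 26183524592], nat_lit 0, nat_lit 0, nat_lit 0, nat_lit 0, nat_lit 0, nat_lit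 0, [], [nat_lit 79, nat_lit 40, nat_lit 40, nat_lit 80, nat_lit 14, nat_lit 456, nat_lit 225, nat_lit 11]⟩,
 zbF0, [⟨nat_lit 0, nat_lit 85, nat_lit 73, nat_lit 100, nat_lit 467240596⟩, ⟨nat_lit 0, nat_lit 80, nat_lit 60, nat_lit 100, nat_lit 101079616⟩, ⟨nat_lit 4, nat_lit 100, nat_lit 74, nat_lit 90, nat_lit 512908839⟩, ⟨nat_lit 7, nat_lit 100, nat_lit 93, nat_lit 97, nat_lit 467147774⟩]⟩
noncomputable def p097_l135 : Lf2 := ⟨nat_lit 0, nat_lit 30, [nat_lit 15, nat_lit 5, nat_lit 5, nat_lit 20], false, nat_lit 0, nat_lit 300, nat_lit 0, nat_lit 160, ⟨nat_lit 1000, nat_lit 0, nat_lit 0, nat_lit 0, nat_lit 0, nat_lit 0, nat_lit 0, nat_lit 0, nat_lit 0, nat_lit 0, nat_lit 0, nat_lit 0, nat_lit 0, nat_lit 0, nat_lit 0, nat_lit 0, false, false⟩,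
 nat_lit 0, nat_lit 8320, nat_lit 0, nat_lit 8549, nat_lit 6239, nat_lit 7211, nat_lit 665, nat_lit 0, nat_lit 0, nat_lit 837, nat_lit 0, nat_lit 0, nat_lit 0, nat_lit 0, nat_lit 0, nat_lit 0, nat_lit 0, nat_lit 0, [],
 ⟨p097_k13, nat_lit 0, nat_lit 0, nat_lit 258, nat_lit 0, nat_lit 42652, [nat_lit 2032000001, nat_lit 4688000000, nat_lit 11872000000], [], [nat_lit 31879710978, nat_lit 32701285794, nat_lit 38729127684, nat_lit 40114007736, nat_lit 28582981193, nat_lit 29106265329, nat_lit 34505741102, nat_lit 35404024260], nat_lit 1271250, nat_lit 1271250, nat_lit 1271250, nat_lit 1271250, nat_lit 0, nat_lit 2118750, [nat_lit 490000, nat_lit 1100000, nat_lit 2470000], [nat_lit 75, nat_lit 40, nat_lit 40, nat_lit 80, nat_lit 65, nat_lit 401, nat_lit 175, nat_lit 10]⟩, ⟨p097_k14, nat_lit 0, nat_lit 0, nat_lit 267, nat_lit 0, nat_lit 0, [nat_lit 3282000000, nat_lit 6250000000, nat_lit 14058000000], [], [nat_lit 32048447542,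 nat_lit 33825462522, nat_lit 40194085010, nat_lit 41448546516, nat_lit 26795804238, nat_lit 28286405834, nat_lit 32864551310, nat_lit 33948422474], nat_lit 0, nat_lit 0, nat_lit 0, nat_lit 0, nat_lit 0, nat_lit 0, [], [nat_lit 71, nat_lit 40, nat_lit 40, nat_lit 80, nat_lit 68, nat_lit 456, nat_lit 225, nat_lit 10]⟩,
 zbF0, [⟨nat_lit 16, nat_lit 81, nat_lit 100, nat_lit 92, nat_lit 108291708⟩, ⟨nat_lit 21, nat_lit 83, nat_lit 100, nat_lit 83, nat_lit 30203646⟩, ⟨nat_lit 9, nat_lit 100, nat_lit 83, nat_lit 39, nat_lit 1846309⟩]⟩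
noncomputable def p097_l136 : Lf2 := ⟨nat_lit 0, nat_lit 30, [nat_lit 15, nat_lit 5, nat_lit 5, nat_lit 20], false, nat_lit 0, nat_lit 276, nat_lit 0, nat_lit 160, ⟨nat_lit 1000, nat_lit 0, nat_lit 0, nat_lit 0, nat_lit 0, nat_lit 0, nat_lit 0, nat_lit 0, nat_lit 0, nat_lit 0, nat_lit 0, nat_lit 0, nat_lit 0, nat_lit 0, nat_lit 0, nat_lit 0, false, false⟩,
 nat_lit 0, nat_lit 7353, nat_lit 0, nat_lit 0, nat_lit 5952, nat_lit 7211, nat_lit 297, nat_lit 0, nat_lit 0, nat_lit 837, nat_lit 0, nat_lit 0, nat_lit 0, nat_lit 0, nat_lit 0, nat_lit 0, nat_lit 0, nat_lit 0, [],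
 ⟨p097_k15, nat_lit 0, nat_lit 0, nat_lit 307, nat_lit 0, nat_lit 190573, [nat_lit 2032000001, nat_lit 4688000000, nat_lit 9842000000], [], [nat_lit 32167284193, nat_lit 33658683505, nat_lit 40633725185, nat_lit 41564196945, nat_lit 30683475907, nat_lit 31402990161, nat_lit 36095322390, nat_lit 36734133621], nat_lit 1271250, nat_lit 1271250, nat_lit 1271250, nat_lit 1271250, nat_lit 0, nat_lit 1949250, [nat_lit 490000, nat_lit 1100000, nat_lit 2127500], [nat_lit 27, nat_lit 40, nat_lit 40, nat_lit 80, nat_lit 13, nat_lit 401, nat_lit 175, nat_lit 11]⟩, ⟨p097_k14, nat_lit 0, nat_lit 0, nat_lit 267, nat_lit 0, nat_lit 0, [nat_lit 3282000000, nat_lit 6250000000, nat_lit 14058000000], [], [nat_lit 32048447542, nat_lit 33825462522, nat_lit 40194085010, nat_lit 41448546516, nat_lit 26795804238, nat_lit 28286405834, nat_lit 32864551310, nat_lit 33948422474], nat_lit 0, nat_lit 0, nat_lit 0, nat_lit 0, nat_lit 0, nat_lit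 0, [], [nat_lit 71, nat_lit 40, nat_lit 40, nat_lit 80, nat_lit 68, nat_lit 456, nat_lit 225, nat_lit 10]⟩,
 zbF0, [⟨nat_lit 16, nat_lit 67, nat_lit 100, nat_lit 88, nat_lit 139400639⟩, ⟨nat_lit 9, nat_lit 100, nat_lit 84, nat_lit 34, nat_lit 31668408⟩]⟩
noncomputable def p097_l137 : Lf2 := ⟨nat_lit 0, nat_lit 30, [nat_lit 15, nat_lit 5, nat_lit 5, nat_lit 20], false, nat_lit 0, nat_lit 300, nat_lit 160, nat_lit 336, ⟨nat_lit 1000, nat_lit 0, nat_lit 0, nat_lit 0, nat_lit 0, nat_lit 0, nat_lit 0, nat_lit 0, nat_lit 0, nat_lit 0, nat_lit 0, nat_lit 0, nat_lit 0, nat_lit 0, nat_lit 0, nat_lit 0, false, false⟩,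
 nat_lit 0, nat_lit 9795, nat_lit 0, nat_lit 2198, nat_lit 7346, nat_lit 8581, nat_lit 366, nat_lit 0, nat_lit 0, nat_lit 0, nat_lit 0, nat_lit 0, nat_lit 0, nat_lit 0, nat_lit 0, nat_lit 0, nat_lit 0, nat_lit 0, [],
 ⟨p097_k9, nat_lit 0, nat_lit 0, nat_lit 354, nat_lit 0, nat_lit 212157, [nat_lit 2032000001, nat_lit 6250000000, nat_lit 11872000000], [], [nat_lit 34634496998, nat_lit 37180606982, nat_lit 43049305302, nat_lit 44864341678, nat_lit 31546615876, nat_lit 33001804252, nat_lit 36525121466, nat_lit 37727351838], nat_lit 1271250, nat_lit 1271250, nat_lit 1271250, nat_lit 1271250, nat_lit 0, nat_lit 2118750, [nat_lit 490000, nat_lit 1427500, nat_lit 1271250], [nat_lit 72, nat_lit 40, nat_lit 40, nat_lit 80, nat_lit 12, nat_lit 401, nat_lit 175, nat_lit 10]⟩, ⟨p097_k7, nat_lit 0, nat_lit 0, nat_lit 105, nat_lit 0, nat_lit 0, [nat_lit 3282000000, nat_lit 7968000000, nat_lit 14058000000], [], [nat_lit 21119856712,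 nat_lit 24223572436, nat_lit 32777932896, nat_lit 34691636264, nat_lit 28756660141, nat_lit 30664054616, nat_lit 37298733592, nat_lit 38757891923], nat_lit 0, nat_lit 0, nat_lit 0, nat_lit 0, nat_lit 0, nat_lit 0, [], [nat_lit 84, nat_lit 40, nat_lit 40, nat_lit 80, nat_lit 28, nat_lit 538, nat_lit 300, nat_lit 12]⟩,
 zbF0, [⟨nat_lit 16, nat_lit 74, nat_lit 100, nat_lit 90, nat_lit 92761793⟩, ⟨nat_lit 7, nat_lit 100, nat_lit 100, nat_lit 100, nat_lit 343918174⟩]⟩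
noncomputable def b_V_800_700_20_55 : St := ⟨true, nat_lit 1, nat_lit 0, nat_lit 1, nat_lit 120, nat_lit 320, nat_lit 360, nat_lit 280, nat_lit 320, nat_lit 100, nat_lit 400, nat_lit 80, nat_lit 120, nat_lit 0, nat_lit 300, nat_lit 0, nat_lit 336, nat_lit 120, nat_lit 140, nat_lit 0, nat_lit 0, nat_lit 0, nat_lit 0⟩
theorem d_V_800_700_20_55 (h : EB TB.env) : Dead b_V_800_700_20_55 := chkB_sound0 h (T :=
(.spl (nat_lit 2) (nat_lit 240)
(.spl (nat_lit 4) (nat_lit 160)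
(.spl (nat_lit 3) (nat_lit 100)
(.trX (nat_lit 19) (nat_lit 100) (nat_lit 88) (nat_lit 94) (nat_lit 320) (.leaf p097_l126))
(.spl (nat_lit 6) (nat_lit 128)
(.spl (nat_lit 1) (nat_lit 300)
(.leaf p097_l127)
(.trZ (nat_lit 0) (nat_lit 94) (nat_lit 87) (nat_lit 100) (nat_lit 120) (.trX (nat_lit 19) (nat_lit 94) (nat_lit 88) (nat_lit 100) (nat_lit 320) (.leaf p097_l128))))
(.leaf p097_l129)))
(.spl (nat_lit 1) (nat_lit 300)
(.spl (nat_lit 6) (nat_lit 128)
(.spl (nat_lit 0) (nat_lit 340)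
(.leaf p097_l130)
(.trZ (nat_lit 0) (nat_lit 99) (nat_lit 77) (nat_lit 100) (nat_lit 124) (.trX (nat_lit 16) (nat_lit 77) (nat_lit 100) (nat_lit 99) (nat_lit 276) (.leaf p097_l131))))
(.leaf p097_l132))
(.trZ (nat_lit 0) (nat_lit 94) (nat_lit 87) (nat_lit 100) (nat_lit 120) (.trX (nat_lit 19) (nat_lit 94) (nat_lit 88) (nat_lit 100) (nat_lit 320) (.spl (nat_lit 5) (nat_lit 160)
(.leaf p097_l133)
(.leaf p097_l134))))))
(.spl (nat_lit 5) (nat_lit 160)
(.spl (nat_lit 0) (nat_lit 340)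
(.leaf p097_l135)
(.trX (nat_lit 16) (nat_lit 77) (nat_lit 100) (nat_lit 99) (nat_lit 276) (.leaf p097_l136)))
(.leaf p097_l137)))) (by decide +kernel)
noncomputable def p097_l138 : Lf2 := ⟨nat_lit 0, nat_lit 30, [nat_lit 15, nat_lit 5, nat_lit 5, nat_lit 20], false, nat_lit 0, nat_lit 160, nat_lit 0, nat_lit 160, ⟨nat_lit 1000, nat_lit 0, nat_lit 0, nat_lit 0, nat_lit 0, nat_lit 0, nat_lit 0, nat_lit 0, nat_lit 0, nat_lit 0, nat_lit 0, nat_lit 0, nat_lit 0, nat_lit 0, nat_lit 0, nat_lit 0, false, false⟩,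
 nat_lit 15832, nat_lit 0, nat_lit 0, nat_lit 24100, nat_lit 7457, nat_lit 10074, nat_lit 755, nat_lit 0, nat_lit 0, nat_lit 665, nat_lit 0, nat_lit 0, nat_lit 0, nat_lit 0, nat_lit 0, nat_lit 0, nat_lit 0, nat_lit 0, [],
 ⟨p097_k9, nat_lit 0, nat_lit 0, nat_lit 360, nat_lit 0, nat_lit 130949, [nat_lit 2032000001, nat_lit 6250000000, nat_lit 11872000000], [], [nat_lit 28144709049, nat_lit 31352675455, nat_lit 27616727715, nat_lit 30417797280, nat_lit 22933738789, nat_lit 25901164890, nat_lit 22536651736, nat_lit 25672099148], nat_lit 1271250, nat_lit 1271250, nat_lit 631250, nat_lit 1100001, nat_lit 0, nat_lit 1100001, [nat_lit 490000, nat_lit 1427500, nat_lit 1271250], [nat_lit 72, nat_lit 40, nat_lit 40, nat_lit 80, nat_lit 12, nat_lit 317, nat_lit 100, nat_lit 8]⟩, ⟨p097_k7, nat_lit 0, nat_lit 0, nat_lit 426, nat_lit 0, nat_lit 162749, [nat_lit 3282000000, nat_lit 7968000000, nat_lit 14058000000], [], [nat_lit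 41274669548, nat_lit 37627669060, nat_lit 32654885284, nat_lit 35918851356, nat_lit 25635386348, nat_lit 27710467232, nat_lit 27968461848, nat_lit 26251677332], nat_lit 1271250, nat_lit 1271250, nat_lit 631250, nat_lit 1100001, nat_lit 0, nat_lit 1100001, [nat_lit 780000, nat_lit 1762500, nat_lit 1271250], [nat_lit 84, nat_lit 40, nat_lit 40, nat_lit 80, nat_lit 28, nat_lit 401, nat_lit 175, nat_lit 9]⟩,
 zbF0, [⟨nat_lit 0, nat_lit 90, nat_lit 74, nat_lit 100, nat_lit 1976627284⟩, ⟨nat_lit 3, nat_lit 100, nat_lit 82, nat_lit 29, nat_lit 2207241⟩]⟩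
noncomputable def p097_l139 : Lf2 := ⟨nat_lit 0, nat_lit 30, [nat_lit 15, nat_lit 5, nat_lit 5, nat_lit 20], false, nat_lit 0, nat_lit 160, nat_lit 0, nat_lit 160, ⟨nat_lit 1000, nat_lit 0, nat_lit 0, nat_lit 0, nat_lit 0, nat_lit 0, nat_lit 0, nat_lit 0, nat_lit 0, nat_lit 0, nat_lit 0, nat_lit 0, nat_lit 0, nat_lit 0, nat_lit 0, nat_lit 0, false, false⟩,
 nat_lit 14139, nat_lit 0, nat_lit 0, nat_lit 0, nat_lit 7457, nat_lit 8997, nat_lit 712, nat_lit 0, nat_lit 0, nat_lit 828, nat_lit 0, nat_lit 0, nat_lit 0, nat_lit 0, nat_lit 0, nat_lit 0, nat_lit 0, nat_lit 0, [],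
 ⟨p097_k9, nat_lit 0, nat_lit 0, nat_lit 337, nat_lit 0, nat_lit 130949, [nat_lit 2032000001, nat_lit 6250000000, nat_lit 11872000000], [], [nat_lit 28235793340, nat_lit 31032596520, nat_lit 29577685816, nat_lit 32296159424, nat_lit 23070634140, nat_lit 25672099148, nat_lit 26764060389, nat_lit 27211240240], nat_lit 1271250, nat_lit 1271250, nat_lit 1100001, nat_lit 1785000, nat_lit 0, nat_lit 1100001, [nat_lit 490000, nat_lit 1427500, nat_lit 1271250], [nat_lit 72, nat_lit 40, nat_lit 40, nat_lit 80, nat_lit 12, nat_lit 317, nat_lit 100, nat_lit 8]⟩, ⟨p097_k7, nat_lit 0, nat_lit 0, nat_lit 399, nat_lit 0, nat_lit 162749, [nat_lit 3282000000, nat_lit 7968000000, nat_lit 14058000000], [], [nat_lit 30787669752, nat_lit 32925283084, nat_lit 31674781372, nat_lit 33610089236, nat_lit 23681007336, nat_lit 25640538652, nat_lit 24837878868, nat_lit 27028349296], nat_lit 1271250, nat_lit 1271250, nat_lit 1100001, nat_lit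 1785000, nat_lit 0, nat_lit 1100001, [nat_lit 780000, nat_lit 1762500, nat_lit 1271250], [nat_lit 84, nat_lit 40, nat_lit 40, nat_lit 80, nat_lit 28, nat_lit 428, nat_lit 200, nat_lit 10]⟩,
 zbF0, [⟨nat_lit 0, nat_lit 80, nat_lit 60, nat_lit 100, nat_lit 695013039⟩]⟩
noncomputable def p097_l140 : Lf2 := ⟨nat_lit 1, nat_lit 30, [nat_lit 15, nat_lit 5, nat_lit 5, nat_lit 20], false, nat_lit 0, nat_lit 160, nat_lit 160, nat_lit 336, zbN0,
 nat_lit 0, nat_lit 0, nat_lit 0, nat_lit 0, nat_lit 0, nat_lit 0, nat_lit 0, nat_lit 0, nat_lit 0, nat_lit 0, nat_lit 0, nat_lit 0, nat_lit 0, nat_lit 0, nat_lit 0, nat_lit 0, nat_lit 0, nat_lit 0, [],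
 C1.Rw.none, C1.Rw.none,
 zbF0, []⟩
noncomputable def p097_l141 : Lf2 := ⟨nat_lit 0, nat_lit 30, [nat_lit 15, nat_lit 5, nat_lit 5, nat_lit 20], false, nat_lit 0, nat_lit 160, nat_lit 160, nat_lit 320, ⟨nat_lit 1000, nat_lit 0, nat_lit 0, nat_lit 0, nat_lit 0, nat_lit 0, nat_lit 0, nat_lit 0, nat_lit 0, nat_lit 0, nat_lit 0, nat_lit 0, nat_lit 0, nat_lit 0, nat_lit 0, nat_lit 0, false, false⟩,
 nat_lit 7235, nat_lit 3091, nat_lit 0, nat_lit 18519, nat_lit 7744, nat_lit 5008, nat_lit 748, nat_lit 0, nat_lit 0, nat_lit 0, nat_lit 0, nat_lit 0, nat_lit 0, nat_lit 0, nat_lit 0, nat_lit 0, nat_lit 0, nat_lit 0, [],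
 ⟨p097_k9, nat_lit 0, nat_lit 0, nat_lit 240, nat_lit 0, nat_lit 25152, [nat_lit 2032000001, nat_lit 6250000000, nat_lit 11872000000], [], [nat_lit 27700473756, nat_lit 29223286684, nat_lit 28912039772, nat_lit 30462683660, nat_lit 22239683836, nat_lit 23515425244, nat_lit 25366962497, nat_lit 25348941312], nat_lit 1271250, nat_lit 1271250, nat_lit 780000, nat_lit 1762500, nat_lit 0, nat_lit 1100001, [nat_lit 490000, nat_lit 1427500, nat_lit 1271250], [nat_lit 72, nat_lit 40, nat_lit 40, nat_lit 80, nat_lit 12, nat_lit 317, nat_lit 100, nat_lit 8]⟩, ⟨p097_k12, nat_lit 0, nat_lit 0, nat_lit 102, nat_lit 0, nat_lit 27940, [nat_lit 3282000000, nat_lit 7968000000, nat_lit 11872000000], [], [nat_lit 14369494512, nat_lit 16181161888, nat_lit 18441759856, nat_lit 19883222080, nat_lit 22734633712, nat_lit 24095714656, nat_lit 25085698464, nat_lit 26182930304], nat_lit 1271250, nat_lit 1271250, nat_lit 780000, nat_lit 1762500,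 nat_lit 1100001, nat_lit 2470000, [nat_lit 780000, nat_lit 1762500, nat_lit 1271250], [nat_lit 79, nat_lit 40, nat_lit 40, nat_lit 80, nat_lit 14, nat_lit 456, nat_lit 225, nat_lit 11]⟩,
 zbF0, [⟨nat_lit 0, nat_lit 81, nat_lit 72, nat_lit 100, nat_lit 582431263⟩, ⟨nat_lit 7, nat_lit 100, nat_lit 93, nat_lit 97, nat_lit 465653910⟩, ⟨nat_lit 22, nat_lit 100, nat_lit 98, nat_lit 10, nat_lit 13476143⟩]⟩
noncomputable def p097_l142 : Lf2 := ⟨nat_lit 1, nat_lit 30, [nat_lit 15, nat_lit 5, nat_lit 5, nat_lit 20], false, nat_lit 0, nat_lit 160, nat_lit 160, nat_lit 336, zbN0,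
 nat_lit 0, nat_lit 0, nat_lit 0, nat_lit 0, nat_lit 0, nat_lit 0, nat_lit 0, nat_lit 0, nat_lit 0, nat_lit 0, nat_lit 0, nat_lit 0, nat_lit 0, nat_lit 0, nat_lit 0, nat_lit 0, nat_lit 0, nat_lit 0, [],
 C1.Rw.none, C1.Rw.none,
 zbF0, []⟩
noncomputable def p097_l143 : Lf2 := ⟨nat_lit 0, nat_lit 25, [nat_lit 44, nat_lit 5, nat_lit 5, nat_lit 20], false, nat_lit 0, nat_lit 160, nat_lit 160, nat_lit 320, ⟨nat_lit 1000, nat_lit 0, nat_lit 0, nat_lit 0, nat_lit 0, nat_lit 0, nat_lit 0, nat_lit 0, nat_lit 0, nat_lit 0, nat_lit 0, nat_lit 0, nat_lit 0, nat_lit 0, nat_lit 0, nat_lit 0, false, false⟩,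
 nat_lit 8069, nat_lit 0, nat_lit 0, nat_lit 22024, nat_lit 6492, nat_lit 5134, nat_lit 607, nat_lit 0, nat_lit 0, nat_lit 0, nat_lit 0, nat_lit 0, nat_lit 0, nat_lit 0, nat_lit 0, nat_lit 0, nat_lit 0, nat_lit 0, [],
 ⟨p097_k2, nat_lit 0, nat_lit 0, nat_lit 219, nat_lit 0, nat_lit 36762, [nat_lit 2032000001, nat_lit 6250000000, nat_lit 9842000000], [], [nat_lit 26303692154, nat_lit 28251126911, nat_lit 28394885303, nat_lit 29964851536, nat_lit 22283148720, nat_lit 23562688691, nat_lit 23602176239, nat_lit 24759262047], nat_lit 1271250, nat_lit 1271250, nat_lit 810650, nat_lit 1764750, nat_lit 0, nat_lit 1100001, [nat_lit 490000, nat_lit 1427500, nat_lit 1271250], [nat_lit 61, nat_lit 40, nat_lit 40, nat_lit 80, nat_lit 1, nat_lit 317, nat_lit 100, nat_lit 9]⟩, ⟨p097_k1, nat_lit 0, nat_lit 0, nat_lit 111, nat_lit 0, nat_lit 50282, [nat_lit 3282000000, nat_lit 7968000000, nat_lit 11872000000], [], [nat_lit 12484969275,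 nat_lit 16138684453, nat_lit 16856494336, nat_lit 19778359840, nat_lit 21469501131, nat_lit 24211863607, nat_lit 24038529952, nat_lit 26257810592], nat_lit 1271250, nat_lit 1271250, nat_lit 810650, nat_lit 1764750, nat_lit 1271250, nat_lit 1271250, [nat_lit 780000, nat_lit 1762500, nat_lit 1271250], [nat_lit 79, nat_lit 40, nat_lit 40, nat_lit 80, nat_lit 14, nat_lit 456, nat_lit 225, nat_lit 11]⟩,
 zbF0, [⟨nat_lit 0, nat_lit 80, nat_lit 60, nat_lit 100, nat_lit 630786969⟩, ⟨nat_lit 7, nat_lit 100, nat_lit 97, nat_lit 93, nat_lit 473372592⟩]⟩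
noncomputable def p097_l144 : Lf2 := ⟨nat_lit 0, nat_lit 30, [nat_lit 15, nat_lit 5, nat_lit 5, nat_lit 20], false, nat_lit 4, nat_lit 160, nat_lit 160, nat_lit 336, ⟨nat_lit 1000, nat_lit 0, nat_lit 0, nat_lit 0, nat_lit 0, nat_lit 0, nat_lit 0, nat_lit 0, nat_lit 0, nat_lit 0, nat_lit 0, nat_lit 0, nat_lit 0, nat_lit 0, nat_lit 0, nat_lit 0, false, false⟩,
 nat_lit 16064, nat_lit 0, nat_lit 0, nat_lit 21987, nat_lit 6555, nat_lit 10222, nat_lit 605, nat_lit 0, nat_lit 0, nat_lit 635, nat_lit 0, nat_lit 0, nat_lit 0, nat_lit 0, nat_lit 0, nat_lit 0, nat_lit 0, nat_lit 0, [],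
 ⟨p097_k6, nat_lit 0, nat_lit 0, nat_lit 218, nat_lit 0, nat_lit 41456, [nat_lit 2032000001, nat_lit 6250000000, nat_lit 9842000000], [], [nat_lit 26147976425, nat_lit 28101806712, nat_lit 28235434876, nat_lit 29809777023, nat_lit 22214963593, nat_lit 23501358983, nat_lit 23522860435, nat_lit 24750602005], nat_lit 1271250, nat_lit 1271250, nat_lit 810650, nat_lit 1764750, nat_lit 21650, nat_lit 1100001, [nat_lit 490000, nat_lit 1427500, nat_lit 1271250], [nat_lit 61, nat_lit 40, nat_lit 40, nat_lit 80, nat_lit 1, nat_lit 317, nat_lit 100, nat_lit 9]⟩, ⟨p097_k7, nat_lit 0, nat_lit 0, nat_lit 192, nat_lit 0, nat_lit 56870, [nat_lit 3282000000, nat_lit 7968000000, nat_lit 14058000000], [], [nat_lit 24134562338, nat_lit 27083541413, nat_lit 26133459232, nat_lit 27341461284, nat_lit 30547886129, nat_lit 32282474695, nat_lit 29538106360, nat_lit 30837766860], nat_lit 1271250, nat_lit 1271250, nat_lit 810650, nat_lit 1764750,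 nat_lit 1271250, nat_lit 1271250, [nat_lit 780000, nat_lit 1762500, nat_lit 1271250], [nat_lit 84, nat_lit 40, nat_lit 40, nat_lit 80, nat_lit 28, nat_lit 456, nat_lit 225, nat_lit 10]⟩,
 zbF0, [⟨nat_lit 0, nat_lit 80, nat_lit 60, nat_lit 100, nat_lit 944741626⟩, ⟨nat_lit 7, nat_lit 94, nat_lit 97, nat_lit 100, nat_lit 337862277⟩]⟩
noncomputable def p097_l145 : Lf2 := ⟨nat_lit 1, nat_lit 30, [nat_lit 15, nat_lit 5, nat_lit 5, nat_lit 20], false, nat_lit 160, nat_lit 300, nat_lit 0, nat_lit 336, zbN0,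
 nat_lit 0, nat_lit 0, nat_lit 0, nat_lit 0, nat_lit 0, nat_lit 0, nat_lit 0, nat_lit 0, nat_lit 0, nat_lit 0, nat_lit 0, nat_lit 0, nat_lit 0, nat_lit 0, nat_lit 0, nat_lit 0, nat_lit 0, nat_lit 0, [],
 C1.Rw.none, C1.Rw.none,
 zbF0, []⟩
noncomputable def p097_l146 : Lf2 := ⟨nat_lit 0, nat_lit 30, [nat_lit 15, nat_lit 5, nat_lit 5, nat_lit 20], false, nat_lit 160, nat_lit 288, nat_lit 0, nat_lit 336, ⟨nat_lit 1000, nat_lit 0, nat_lit 0, nat_lit 0, nat_lit 0, nat_lit 0, nat_lit 0, nat_lit 0, nat_lit 0, nat_lit 0, nat_lit 0, nat_lit 0, nat_lit 0, nat_lit 0, nat_lit 0, nat_lit 0, false, false⟩,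
 nat_lit 13954, nat_lit 0, nat_lit 0, nat_lit 32257, nat_lit 8136, nat_lit 8879, nat_lit 0, nat_lit 0, nat_lit 0, nat_lit 690, nat_lit 0, nat_lit 0, nat_lit 0, nat_lit 0, nat_lit 0, nat_lit 0, nat_lit 0, nat_lit 0, [],
 ⟨p097_k29, nat_lit 0, nat_lit 0, nat_lit 90, nat_lit 0, nat_lit 23922, [nat_lit 2032000001, nat_lit 6250000000, nat_lit 11872000000], [], [nat_lit 19481972984, nat_lit 20650083850, nat_lit 22320430104, nat_lit 23234869392, nat_lit 25390287022, nat_lit 26260961133, nat_lit 26861494949, nat_lit 27740902999], nat_lit 1271250, nat_lit 1271250, nat_lit 719601, nat_lit 1758000, nat_lit 1100001, nat_lit 2196000, [nat_lit 490000, nat_lit 1427500, nat_lit 1271250], [nat_lit 72, nat_lit 40, nat_lit 40, nat_lit 80, nat_lit 12, nat_lit 373, nat_lit 150, nat_lit 9]⟩, ⟨p097_k7, nat_lit 0, nat_lit 0, nat_lit 374, nat_lit 0, nat_lit 31264, [nat_lit 3282000000, nat_lit 7968000000, nat_lit 14058000000], [], [nat_lit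 37268723837, nat_lit 35912853129, nat_lit 33817765004, nat_lit 35575577228, nat_lit 30585320741, nat_lit 31993405024, nat_lit 34829264667, nat_lit 31355354256], nat_lit 1271250, nat_lit 1271250, nat_lit 719601, nat_lit 1758000, nat_lit 0, nat_lit 2373000, [nat_lit 780000, nat_lit 1762500, nat_lit 1271250], [nat_lit 84, nat_lit 40, nat_lit 40, nat_lit 80, nat_lit 28, nat_lit 456, nat_lit 225, nat_lit 11]⟩,
 zbF0, [⟨nat_lit 0, nat_lit 81, nat_lit 72, nat_lit 100, nat_lit 691440258⟩, ⟨nat_lit 4, nat_lit 100, nat_lit 77, nat_lit 91, nat_lit 622061001⟩, ⟨nat_lit 7, nat_lit 100, nat_lit 100, nat_lit 100, nat_lit 126648898⟩]⟩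
noncomputable def p097_l147 : Lf2 := ⟨nat_lit 1, nat_lit 30, [nat_lit 15, nat_lit 5, nat_lit 5, nat_lit 20], false, nat_lit 160, nat_lit 300, nat_lit 0, nat_lit 336, zbN0,
 nat_lit 0, nat_lit 0, nat_lit 0, nat_lit 0, nat_lit 0, nat_lit 0, nat_lit 0, nat_lit 0, nat_lit 0, nat_lit 0, nat_lit 0, nat_lit 0, nat_lit 0, nat_lit 0, nat_lit 0, nat_lit 0, nat_lit 0, nat_lit 0, [],
 C1.Rw.none, C1.Rw.none,
 zbF0, []⟩
noncomputable def p097_l148 : Lf2 := ⟨nat_lit 0, nat_lit 30, [nat_lit 15, nat_lit 5, nat_lit 5, nat_lit 20], false, nat_lit 160, nat_lit 276, nat_lit 0, nat_lit 336, ⟨nat_lit 1000, nat_lit 0, nat_lit 0, nat_lit 0, nat_lit 0, nat_lit 0, nat_lit 0, nat_lit 0, nat_lit 0, nat_lit 0, nat_lit 0, nat_lit 0, nat_lit 0, nat_lit 0, nat_lit 0, nat_lit 0, false, false⟩,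
 nat_lit 21810, nat_lit 0, nat_lit 0, nat_lit 6556, nat_lit 6494, nat_lit 13879, nat_lit 0, nat_lit 0, nat_lit 0, nat_lit 238, nat_lit 0, nat_lit 0, nat_lit 0, nat_lit 0, nat_lit 0, nat_lit 0, nat_lit 0, nat_lit 0, [],
 ⟨p097_k15, nat_lit 0, nat_lit 0, nat_lit 79, nat_lit 0, nat_lit 21710, [nat_lit 2032000001, nat_lit 4688000000, nat_lit 9842000000], [], [nat_lit 19074678702, nat_lit 21205341644, nat_lit 22139564960, nat_lit 23849420928, nat_lit 24004126006, nat_lit 25971770863, nat_lit 26124737917, nat_lit 27707983109], nat_lit 1271250, nat_lit 1271250, nat_lit 810650, nat_lit 1764750, nat_lit 1100001, nat_lit 2093250, [nat_lit 490000, nat_lit 1100000, nat_lit 2127500], [nat_lit 27, nat_lit 40, nat_lit 40, nat_lit 80, nat_lit 13, nat_lit 373, nat_lit 150, nat_lit 10]⟩, ⟨p097_k14, nat_lit 0, nat_lit 0, nat_lit 364, nat_lit 0, nat_lit 29933, [nat_lit 3282000000, nat_lit 6250000000, nat_lit 14058000000], [], [nat_lit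 49213716420, nat_lit 49624031565, nat_lit 46560241420, nat_lit 46869890840, nat_lit 36399611701, nat_lit 36899317135, nat_lit 34198385135, nat_lit 34556712806], nat_lit 1271250, nat_lit 1271250, nat_lit 810650, nat_lit 1764750, nat_lit 0, nat_lit 2373000, [nat_lit 780000, nat_lit 1435000, nat_lit 1271250], [nat_lit 71, nat_lit 40, nat_lit 40, nat_lit 80, nat_lit 68, nat_lit 456, nat_lit 225, nat_lit 11]⟩,
 zbF0, [⟨nat_lit 0, nat_lit 91, nat_lit 61, nat_lit 100, nat_lit 844094036⟩, ⟨nat_lit 4, nat_lit 100, nat_lit 67, nat_lit 88, nat_lit 711056723⟩]⟩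
noncomputable def p097_l149 : Lf2 := ⟨nat_lit 0, nat_lit 30, [nat_lit 15, nat_lit 5, nat_lit 5, nat_lit 20], false, nat_lit 160, nat_lit 276, nat_lit 0, nat_lit 328, ⟨nat_lit 1000, nat_lit 0, nat_lit 0, nat_lit 0, nat_lit 0, nat_lit 0, nat_lit 0, nat_lit 0, nat_lit 0, nat_lit 0, nat_lit 0, nat_lit 0, nat_lit 0, nat_lit 0, nat_lit 0, nat_lit 0, false, false⟩,
 nat_lit 22479, nat_lit 0, nat_lit 0, nat_lit 3093, nat_lit 6462, nat_lit 14928, nat_lit 0, nat_lit 0, nat_lit 0, nat_lit 70, nat_lit 0, nat_lit 0, nat_lit 0, nat_lit 0, nat_lit 0, nat_lit 0, nat_lit 0, nat_lit 0, [],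
 ⟨p097_k15, nat_lit 0, nat_lit 0, nat_lit 77, nat_lit 0, nat_lit 50044, [nat_lit 2032000001, nat_lit 4688000000, nat_lit 9842000000], [], [nat_lit 19194365059, nat_lit 21291357940, nat_lit 22163730080, nat_lit 23868412544, nat_lit 24003425453, nat_lit 25940704508, nat_lit 26107118003, nat_lit 27685765023], nat_lit 1271250, nat_lit 1271250, nat_lit 872850, nat_lit 1769250, nat_lit 1100001, nat_lit 2093250, [nat_lit 490000, nat_lit 1100000, nat_lit 2127500], [nat_lit 27, nat_lit 40, nat_lit 40, nat_lit 80, nat_lit 13, nat_lit 373, nat_lit 150, nat_lit 10]⟩, ⟨p097_k30, nat_lit 0, nat_lit 0, nat_lit 373, nat_lit 0, nat_lit 64746, [nat_lit 3282000000, nat_lit 6250000000, nat_lit 14058000000], [], [nat_lit 47157844466, nat_lit 48275903669, nat_lit 47437757134, nat_lit 48300335198, nat_lit 37800340238, nat_lit 38331339938, nat_lit 35705479572, nat_lit 36004683538], nat_lit 1271250, nat_lit 1271250, nat_lit 872850, nat_lit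 1769250, nat_lit 0, nat_lit 2316500, [nat_lit 780000, nat_lit 1435000, nat_lit 1271250], [nat_lit 71, nat_lit 40, nat_lit 40, nat_lit 80, nat_lit 68, nat_lit 456, nat_lit 225, nat_lit 10]⟩,
 zbF0, [⟨nat_lit 0, nat_lit 87, nat_lit 60, nat_lit 100, nat_lit 884820799⟩, ⟨nat_lit 4, nat_lit 100, nat_lit 67, nat_lit 88, nat_lit 702498168⟩]⟩
noncomputable def p097_l150 : Lf2 := ⟨nat_lit 1, nat_lit 30, [nat_lit 15, nat_lit 5, nat_lit 5, nat_lit 20], false, nat_lit 160, nat_lit 276, nat_lit 0, nat_lit 336, zbN0,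
 nat_lit 0, nat_lit 0, nat_lit 0, nat_lit 0, nat_lit 0, nat_lit 0, nat_lit 0, nat_lit 0, nat_lit 0, nat_lit 0, nat_lit 0, nat_lit 0, nat_lit 0, nat_lit 0, nat_lit 0, nat_lit 0, nat_lit 0, nat_lit 0, [],
 C1.Rw.none, C1.Rw.none,
 zbF0, []⟩
noncomputable def p097_l151 : Lf2 := ⟨nat_lit 0, nat_lit 30, [nat_lit 15, nat_lit 5, nat_lit 5, nat_lit 20], false, nat_lit 160, nat_lit 276, nat_lit 0, nat_lit 320, ⟨nat_lit 1000, nat_lit 0, nat_lit 0, nat_lit 0, nat_lit 0, nat_lit 0, nat_lit 0, nat_lit 0, nat_lit 0, nat_lit 0, nat_lit 0, nat_lit 0, nat_lit 0, nat_lit 0, nat_lit 0, nat_lit 0, false, false⟩,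
 nat_lit 18240, nat_lit 0, nat_lit 0, nat_lit 0, nat_lit 13530, nat_lit 12627, nat_lit 0, nat_lit 0, nat_lit 0, nat_lit 262, nat_lit 0, nat_lit 0, nat_lit 0, nat_lit 0, nat_lit 0, nat_lit 0, nat_lit 0, nat_lit 0, [],
 ⟨p097_k6, nat_lit 0, nat_lit 0, nat_lit 146, nat_lit 0, nat_lit 118638, [nat_lit 2032000001, nat_lit 6250000000, nat_lit 9842000000], [], [nat_lit 25170027476, nat_lit 27790331344, nat_lit 26465968180, nat_lit 28590050480, nat_lit 28950481604, nat_lit 31513113600, nat_lit 29998916420, nat_lit 32593184857], nat_lit 1271250, nat_lit 1271250, nat_lit 968401, nat_lit 1776000, nat_lit 1100001, nat_lit 2093250, [nat_lit 490000, nat_lit 1427500, nat_lit 1271250], [nat_lit 61, nat_lit 40, nat_lit 40, nat_lit 80, nat_lit 1, nat_lit 373, nat_lit 150, nat_lit 10]⟩, ⟨p097_k12, nat_lit 0, nat_lit 0, nat_lit 339, nat_lit 0, nat_lit 145454, [nat_lit 3282000000, nat_lit 7968000000, nat_lit 11872000000], [], [nat_lit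 35763065403, nat_lit 38081725106, nat_lit 37554415866, nat_lit 39401966826, nat_lit 30287903588, nat_lit 31476462577, nat_lit 29793518866, nat_lit 30715695254], nat_lit 1271250, nat_lit 1271250, nat_lit 968401, nat_lit 1776000, nat_lit 0, nat_lit 2260000, [nat_lit 780000, nat_lit 1762500, nat_lit 1271250], [nat_lit 79, nat_lit 40, nat_lit 40, nat_lit 80, nat_lit 14, nat_lit 456, nat_lit 225, nat_lit 12]⟩,
 zbF0, [⟨nat_lit 0, nat_lit 84, nat_lit 67, nat_lit 100, nat_lit 786354971⟩, ⟨nat_lit 4, nat_lit 100, nat_lit 67, nat_lit 88, nat_lit 634748831⟩, ⟨nat_lit 7, nat_lit 100, nat_lit 93, nat_lit 97, nat_lit 55159844⟩]⟩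
noncomputable def p097_l152 : Lf2 := ⟨nat_lit 0, nat_lit 30, [nat_lit 15, nat_lit 5, nat_lit 5, nat_lit 20], false, nat_lit 0, nat_lit 160, nat_lit 0, nat_lit 160, ⟨nat_lit 1000, nat_lit 0, nat_lit 0, nat_lit 0, nat_lit 0, nat_lit 0, nat_lit 0, nat_lit 0, nat_lit 0, nat_lit 0, nat_lit 0, nat_lit 0, nat_lit 0, nat_lit 0, nat_lit 0, nat_lit 0, false, false⟩,
 nat_lit 9977, nat_lit 0, nat_lit 0, nat_lit 0, nat_lit 6446, nat_lit 6349, nat_lit 475, nat_lit 0, nat_lit 0, nat_lit 697, nat_lit 0, nat_lit 0, nat_lit 0, nat_lit 0, nat_lit 0, nat_lit 0, nat_lit 0, nat_lit 0, [],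
 ⟨p097_k9, nat_lit 0, nat_lit 0, nat_lit 330, nat_lit 0, nat_lit 130949, [nat_lit 2032000001, nat_lit 6250000000, nat_lit 11872000000], [], [nat_lit 33677338423, nat_lit 35887586367, nat_lit 40409125127, nat_lit 42130061103, nat_lit 29330932071, nat_lit 31199980799, nat_lit 34960980647, nat_lit 36150259775], nat_lit 1271250, nat_lit 1271250, nat_lit 1271250, nat_lit 1271250, nat_lit 0, nat_lit 1100001, [nat_lit 490000, nat_lit 1427500, nat_lit 1271250], [nat_lit 72, nat_lit 40, nat_lit 40, nat_lit 80, nat_lit 12, nat_lit 373, nat_lit 150, nat_lit 9]⟩, ⟨p097_k7, nat_lit 0, nat_lit 0, nat_lit 385, nat_lit 0, nat_lit 162749, [nat_lit 3282000000, nat_lit 7968000000, nat_lit 14058000000], [], [nat_lit 35314656224, nat_lit 36857276768, nat_lit 42131307388, nat_lit 43446527252, nat_lit 30865324900, nat_lit 32169394664, nat_lit 37311907580, nat_lit 38428810552], nat_lit 1271250, nat_lit 1271250, nat_lit 1271250, nat_lit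 1271250, nat_lit 0, nat_lit 1100001, [nat_lit 780000, nat_lit 1762500, nat_lit 1271250], [nat_lit 84, nat_lit 40, nat_lit 40, nat_lit 80, nat_lit 28, nat_lit 456, nat_lit 225, nat_lit 10]⟩,
 zbF0, []⟩
noncomputable def p097_l153 : Lf2 := ⟨nat_lit 0, nat_lit 30, [nat_lit 15, nat_lit 5, nat_lit 5, nat_lit 20], false, nat_lit 0, nat_lit 160, nat_lit 160, nat_lit 336, ⟨nat_lit 1000, nat_lit 0, nat_lit 0, nat_lit 0, nat_lit 0, nat_lit 0, nat_lit 0, nat_lit 0, nat_lit 0, nat_lit 0, nat_lit 0, nat_lit 0, nat_lit 0, nat_lit 0, nat_lit 0, nat_lit 0, false, false⟩,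
 nat_lit 12775, nat_lit 0, nat_lit 0, nat_lit 6228, nat_lit 8080, nat_lit 8129, nat_lit 323, nat_lit 0, nat_lit 0, nat_lit 666, nat_lit 0, nat_lit 0, nat_lit 0, nat_lit 0, nat_lit 0, nat_lit 0, nat_lit 0, nat_lit 0, [],
 ⟨p097_k9, nat_lit 0, nat_lit 0, nat_lit 251, nat_lit 0, nat_lit 25985, [nat_lit 2032000001, nat_lit 6250000000, nat_lit 11872000000], [], [nat_lit 35230392415, nat_lit 36821474575, nat_lit 44541766335, nat_lit 45487656575, nat_lit 28653835455, nat_lit 29696586175, nat_lit 36131650015, nat_lit 36943557055], nat_lit 1271250, nat_lit 1271250, nat_lit 1271250, nat_lit 1271250, nat_lit 0, nat_lit 1100001, [nat_lit 490000, nat_lit 1427500, nat_lit 1271250], [nat_lit 72, nat_lit 40, nat_lit 40, nat_lit 80, nat_lit 12, nat_lit 373, nat_lit 150, nat_lit 9]⟩, ⟨p097_k7, nat_lit 0, nat_lit 0, nat_lit 186, nat_lit 0, nat_lit 32353, [nat_lit 3282000000, nat_lit 7968000000, nat_lit 14058000000], [], [nat_lit 25711663664,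 nat_lit 27745502388, nat_lit 33501797840, nat_lit 34609138688, nat_lit 30112179435, nat_lit 31335348320, nat_lit 36762853601, nat_lit 38198003862], nat_lit 1271250, nat_lit 1271250, nat_lit 1271250, nat_lit 1271250, nat_lit 1100001, nat_lit 2607000, [nat_lit 780000, nat_lit 1762500, nat_lit 1271250], [nat_lit 84, nat_lit 40, nat_lit 40, nat_lit 80, nat_lit 28, nat_lit 538, nat_lit 300, nat_lit 12]⟩,
 zbF0, [⟨nat_lit 19, nat_lit 100, nat_lit 100, nat_lit 100, nat_lit 267157733⟩, ⟨nat_lit 22, nat_lit 83, nat_lit 100, nat_lit 83, nat_lit 91777735⟩]⟩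
noncomputable def p097_l154 : Lf2 := ⟨nat_lit 0, nat_lit 30, [nat_lit 15, nat_lit 5, nat_lit 5, nat_lit 20], false, nat_lit 0, nat_lit 160, nat_lit 160, nat_lit 336, ⟨nat_lit 1000, nat_lit 0, nat_lit 0, nat_lit 0, nat_lit 0, nat_lit 0, nat_lit 0, nat_lit 0, nat_lit 0, nat_lit 0, nat_lit 0, nat_lit 0, nat_lit 0, nat_lit 0, nat_lit 0, nat_lit 0, false, false⟩,
 nat_lit 12038, nat_lit 0, nat_lit 0, nat_lit 0, nat_lit 8048, nat_lit 7660, nat_lit 59, nat_lit 0, nat_lit 0, nat_lit 662, nat_lit 0, nat_lit 0, nat_lit 0, nat_lit 0, nat_lit 0, nat_lit 0, nat_lit 0, nat_lit 0, [],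
 ⟨p097_k6, nat_lit 0, nat_lit 0, nat_lit 289, nat_lit 0, nat_lit 118638, [nat_lit 2032000001, nat_lit 6250000000, nat_lit 9842000000], [], [nat_lit 36088915307, nat_lit 37877539995, nat_lit 45922778315, nat_lit 46989762555, nat_lit 29737712691, nat_lit 30901006659, nat_lit 37622422491, nat_lit 38536388955], nat_lit 1271250, nat_lit 1271250, nat_lit 1271250, nat_lit 1271250, nat_lit 0, nat_lit 1100001, [nat_lit 490000, nat_lit 1427500, nat_lit 1271250], [nat_lit 61, nat_lit 40, nat_lit 40, nat_lit 80, nat_lit 1, nat_lit 373, nat_lit 150, nat_lit 10]⟩, ⟨p097_k7, nat_lit 0, nat_lit 0, nat_lit 229, nat_lit 0, nat_lit 162749, [nat_lit 3282000000, nat_lit 7968000000, nat_lit 14058000000], [], [nat_lit 26022333560, nat_lit 28000100520, nat_lit 33602100600, nat_lit 34698871520, nat_lit 30404878376, nat_lit 31610907000, nat_lit 36393811760, nat_lit 37617058064], nat_lit 1271250, nat_lit 1271250, nat_lit 1271250, nat_lit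 1271250, nat_lit 1100001, nat_lit 2607000, [nat_lit 780000, nat_lit 1762500, nat_lit 1271250], [nat_lit 84, nat_lit 40, nat_lit 40, nat_lit 80, nat_lit 28, nat_lit 538, nat_lit 300, nat_lit 12]⟩,
 zbF0, [⟨nat_lit 7, nat_lit 100, nat_lit 100, nat_lit 100, nat_lit 251934614⟩, ⟨nat_lit 22, nat_lit 83, nat_lit 100, nat_lit 83, nat_lit 86219032⟩]⟩
noncomputable def p097_l155 : Lf2 := ⟨nat_lit 1, nat_lit 30, [nat_lit 15, nat_lit 5, nat_lit 5, nat_lit 20], false, nat_lit 160, nat_lit 300, nat_lit 0, nat_lit 336, zbN0,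
 nat_lit 0, nat_lit 0, nat_lit 0, nat_lit 0, nat_lit 0, nat_lit 0, nat_lit 0, nat_lit 0, nat_lit 0, nat_lit 0, nat_lit 0, nat_lit 0, nat_lit 0, nat_lit 0, nat_lit 0, nat_lit 0, nat_lit 0, nat_lit 0, [],
 C1.Rw.none, C1.Rw.none,
 zbF0, []⟩
noncomputable def p097_l156 : Lf2 := ⟨nat_lit 0, nat_lit 30, [nat_lit 15, nat_lit 5, nat_lit 5, nat_lit 20], false, nat_lit 160, nat_lit 300, nat_lit 0, nat_lit 320, ⟨nat_lit 1000, nat_lit 0, nat_lit 0, nat_lit 0, nat_lit 0, nat_lit 0, nat_lit 0, nat_lit 0, nat_lit 0, nat_lit 0, nat_lit 0, nat_lit 0, nat_lit 0, nat_lit 0, nat_lit 0, nat_lit 0, false, false⟩,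
 nat_lit 15712, nat_lit 0, nat_lit 0, nat_lit 3669, nat_lit 11779, nat_lit 10877, nat_lit 0, nat_lit 0, nat_lit 0, nat_lit 0, nat_lit 0, nat_lit 0, nat_lit 0, nat_lit 0, nat_lit 0, nat_lit 0, nat_lit 0, nat_lit 0, [],
 ⟨p097_k9, nat_lit 0, nat_lit 0, nat_lit 155, nat_lit 0, nat_lit 25152, [nat_lit 2032000001, nat_lit 6250000000, nat_lit 11872000000], [], [nat_lit 30629271752, nat_lit 32327798470, nat_lit 40251803532, nat_lit 41212365984, nat_lit 33638567393, nat_lit 34824395498, nat_lit 40988748822, nat_lit 42211357430], nat_lit 1271250, nat_lit 1271250, nat_lit 1271250, nat_lit 1271250, nat_lit 1100001, nat_lit 2298750, [nat_lit 490000, nat_lit 1427500, nat_lit 1271250], [nat_lit 72, nat_lit 40, nat_lit 40, nat_lit 80, nat_lit 12, nat_lit 401, nat_lit 175, nat_lit 9]⟩, ⟨p097_k12, nat_lit 0, nat_lit 0, nat_lit 261, nat_lit 0, nat_lit 27940, [nat_lit 3282000000, nat_lit 7968000000, nat_lit 11872000000], [], [nat_lit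 39867595616, nat_lit 41542806576, nat_lit 51665286812, nat_lit 52520140824, nat_lit 34085948616, nat_lit 34947848004, nat_lit 40265015670, nat_lit 40649527680], nat_lit 1271250, nat_lit 1271250, nat_lit 1271250, nat_lit 1271250, nat_lit 0, nat_lit 2260000, [nat_lit 780000, nat_lit 1762500, nat_lit 1271250], [nat_lit 79, nat_lit 40, nat_lit 40, nat_lit 80, nat_lit 14, nat_lit 538, nat_lit 300, nat_lit 13]⟩,
 zbF0, [⟨nat_lit 16, nat_lit 81, nat_lit 100, nat_lit 92, nat_lit 342652157⟩]⟩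
noncomputable def p097_l157 : Lf2 := ⟨nat_lit 1, nat_lit 30, [nat_lit 15, nat_lit 5, nat_lit 5, nat_lit 20], false, nat_lit 160, nat_lit 300, nat_lit 0, nat_lit 336, zbN0,
 nat_lit 0, nat_lit 0, nat_lit 0, nat_lit 0, nat_lit 0, nat_lit 0, nat_lit 0, nat_lit 0, nat_lit 0, nat_lit 0, nat_lit 0, nat_lit 0, nat_lit 0, nat_lit 0, nat_lit 0, nat_lit 0, nat_lit 0, nat_lit 0, [],
 C1.Rw.none, C1.Rw.none,
 zbF0, []⟩
noncomputable def p097_l158 : Lf2 := ⟨nat_lit 0, nat_lit 30, [nat_lit 15, nat_lit 5, nat_lit 5, nat_lit 20], false, nat_lit 160, nat_lit 276, nat_lit 0, nat_lit 336, ⟨nat_lit 1000, nat_lit 0, nat_lit 0, nat_lit 0, nat_lit 0, nat_lit 0, nat_lit 0, nat_lit 0, nat_lit 0, nat_lit 0, nat_lit 0, nat_lit 0, nat_lit 0, nat_lit 0, nat_lit 0, nat_lit 0, false, false⟩,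
 nat_lit 13506, nat_lit 0, nat_lit 0, nat_lit 7512, nat_lit 9737, nat_lit 8594, nat_lit 0, nat_lit 0, nat_lit 0, nat_lit 486, nat_lit 0, nat_lit 0, nat_lit 0, nat_lit 0, nat_lit 0, nat_lit 0, nat_lit 0, nat_lit 0, [],
 ⟨p097_k6, nat_lit 0, nat_lit 0, nat_lit 148, nat_lit 0, nat_lit 51209, [nat_lit 2032000001, nat_lit 6250000000, nat_lit 9842000000], [], [nat_lit 28923430122, nat_lit 30617727592, nat_lit 37844035243, nat_lit 38861651814, nat_lit 31394213881, nat_lit 32690862166, nat_lit 38616678243, nat_lit 39826101365], nat_lit 1271250, nat_lit 1271250, nat_lit 1271250, nat_lit 1271250, nat_lit 1100001, nat_lit 2093250, [nat_lit 490000, nat_lit 1427500, nat_lit 1271250], [nat_lit 61, nat_lit 40, nat_lit 40, nat_lit 80, nat_lit 1, nat_lit 401, nat_lit 175, nat_lit 10]⟩, ⟨p097_k7, nat_lit 0, nat_lit 0, nat_lit 297, nat_lit 0, nat_lit 70249, [nat_lit 3282000000, nat_lit 7968000000, nat_lit 14058000000], [], [nat_lit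 37055655344, nat_lit 37922440976, nat_lit 45054595311, nat_lit 45722278401, nat_lit 32792865498, nat_lit 33200548828, nat_lit 37269721557, nat_lit 37745821533], nat_lit 1271250, nat_lit 1271250, nat_lit 1271250, nat_lit 1271250, nat_lit 0, nat_lit 2373000, [nat_lit 780000, nat_lit 1762500, nat_lit 1271250], [nat_lit 84, nat_lit 40, nat_lit 40, nat_lit 80, nat_lit 28, nat_lit 538, nat_lit 300, nat_lit 12]⟩,
 zbF0, [⟨nat_lit 4, nat_lit 100, nat_lit 67, nat_lit 88, nat_lit 514132195⟩, ⟨nat_lit 7, nat_lit 94, nat_lit 100, nat_lit 97, nat_lit 72819046⟩]⟩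
noncomputable def p097_l159 : Lf2 := ⟨nat_lit 0, nat_lit 30, [nat_lit 15, nat_lit 5, nat_lit 5, nat_lit 20], false, nat_lit 160, nat_lit 276, nat_lit 0, nat_lit 320, ⟨nat_lit 1000, nat_lit 0, nat_lit 0, nat_lit 0, nat_lit 0, nat_lit 0, nat_lit 0, nat_lit 0, nat_lit 0, nat_lit 0, nat_lit 0, nat_lit 0, nat_lit 0, nat_lit 0, nat_lit 0, nat_lit 0, false, false⟩,
 nat_lit 12391, nat_lit 0, nat_lit 0, nat_lit 0, nat_lit 9647, nat_lit 8578, nat_lit 0, nat_lit 0, nat_lit 0, nat_lit 304, nat_lit 0, nat_lit 0, nat_lit 0, nat_lit 0, nat_lit 0, nat_lit 0, nat_lit 0, nat_lit 0, [],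
 ⟨p097_k6, nat_lit 0, nat_lit 0, nat_lit 170, nat_lit 0, nat_lit 118638, [nat_lit 2032000001, nat_lit 6250000000, nat_lit 9842000000], [], [nat_lit 28981740582, nat_lit 30665840152, nat_lit 38141399824, nat_lit 39136864120, nat_lit 31454536768, nat_lit 32744167546, nat_lit 38846777380, nat_lit 40028556735], nat_lit 1271250, nat_lit 1271250, nat_lit 1271250, nat_lit 1271250, nat_lit 1100001, nat_lit 2093250, [nat_lit 490000, nat_lit 1427500, nat_lit 1271250], [nat_lit 61, nat_lit 40, nat_lit 40, nat_lit 80, nat_lit 1, nat_lit 401, nat_lit 175, nat_lit 10]⟩, ⟨p097_k12, nat_lit 0, nat_lit 0, nat_lit 334, nat_lit 0, nat_lit 145454, [nat_lit 3282000000, nat_lit 7968000000, nat_lit 11872000000], [], [nat_lit 35969472176, nat_lit 36981469536, nat_lit 45311936168, nat_lit 46093783136, nat_lit 31855505024, nat_lit 32638217656, nat_lit 37522120380, nat_lit 37915529520], nat_lit 1271250, nat_lit 1271250, nat_lit 1271250, nat_lit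 1271250, nat_lit 0, nat_lit 2260000, [nat_lit 780000, nat_lit 1762500, nat_lit 1271250], [nat_lit 79, nat_lit 40, nat_lit 40, nat_lit 80, nat_lit 14, nat_lit 538, nat_lit 300, nat_lit 13]⟩,
 zbF0, [⟨nat_lit 4, nat_lit 100, nat_lit 67, nat_lit 88, nat_lit 447166678⟩, ⟨nat_lit 19, nat_lit 93, nat_lit 100, nat_lit 97, nat_lit 63964516⟩]⟩
noncomputable def b_V_800_700_20_56 : St := ⟨true, nat_lit 1, nat_lit 1, nat_lit 1, nat_lit 120, nat_lit 320, nat_lit 360, nat_lit 280, nat_lit 320, nat_lit 100, nat_lit 400, nat_lit 80, nat_lit 120, nat_lit 0, nat_lit 300, nat_lit 0, nat_lit 336, nat_lit 120, nat_lit 140, nat_lit 0, nat_lit 0, nat_lit 0, nat_lit 0⟩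
theorem d_V_800_700_20_56 (h : EB TB.env) : Dead b_V_800_700_20_56 := chkB_sound0 h (T :=
(.spl (nat_lit 2) (nat_lit 240)
(.spl (nat_lit 4) (nat_lit 160)
(.spl (nat_lit 5) (nat_lit 160)
(.spl (nat_lit 2) (nat_lit 160)
(.leaf p097_l138)
(.leaf p097_l139))
(.spl (nat_lit 0) (nat_lit 340)
(.spl (nat_lit 6) (nat_lit 124)
(.spl (nat_lit 1) (nat_lit 300)
(.leaf p097_l140)
(.trZ (nat_lit 0) (nat_lit 94) (nat_lit 87) (nat_lit 100) (nat_lit 120) (.trX (nat_lit 19) (nat_lit 94) (nat_lit 88) (nat_lit 100) (nat_lit 320) (.leaf p097_l141))))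
(.leaf p097_l142))
(.trZ (nat_lit 0) (nat_lit 99) (nat_lit 77) (nat_lit 100) (nat_lit 124) (.spl (nat_lit 3) (nat_lit 100)
(.trX (nat_lit 19) (nat_lit 100) (nat_lit 88) (nat_lit 94) (nat_lit 320) (.leaf p097_l143))
(.trZ (nat_lit 3) (nat_lit 100) (nat_lit 82) (nat_lit 29) (nat_lit 4) (.leaf p097_l144))))))
(.spl (nat_lit 0) (nat_lit 340)
(.spl (nat_lit 6) (nat_lit 124)
(.spl (nat_lit 0) (nat_lit 330)
(.leaf p097_l145)
(.trZ (nat_lit 0) (nat_lit 100) (nat_lit 83) (nat_lit 98) (nat_lit 112) (.trX (nat_lit 16) (nat_lit 83) (nat_lit 98) (nat_lit 100) (nat_lit 288) (.leaf p097_l146))))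
(.leaf p097_l147))
(.trZ (nat_lit 0) (nat_lit 99) (nat_lit 77) (nat_lit 100) (nat_lit 124) (.trX (nat_lit 16) (nat_lit 77) (nat_lit 100) (nat_lit 99) (nat_lit 276) (.spl (nat_lit 1) (nat_lit 300)
(.spl (nat_lit 6) (nat_lit 128)
(.spl (nat_lit 1) (nat_lit 290)
(.leaf p097_l148)
(.trZ (nat_lit 0) (nat_lit 94) (nat_lit 75) (nat_lit 100) (nat_lit 132) (.trX (nat_lit 19) (nat_lit 97) (nat_lit 84) (nat_lit 100) (nat_lit 328) (.leaf p097_l149))))
(.leaf p097_l150))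
(.trZ (nat_lit 0) (nat_lit 90) (nat_lit 74) (nat_lit 100) (nat_lit 144) (.trX (nat_lit 19) (nat_lit 94) (nat_lit 88) (nat_lit 100) (nat_lit 320) (.leaf p097_l151))))))))
(.spl (nat_lit 4) (nat_lit 160)
(.spl (nat_lit 5) (nat_lit 160)
(.leaf p097_l152)
(.spl (nat_lit 0) (nat_lit 340)
(.leaf p097_l153)
(.leaf p097_l154)))
(.spl (nat_lit 0) (nat_lit 340)
(.spl (nat_lit 6) (nat_lit 124)
(.spl (nat_lit 1) (nat_lit 300)
(.leaf p097_l155)
(.trX (nat_lit 19) (nat_lit 94) (nat_lit 88) (nat_lit 100) (nat_lit 320) (.leaf p097_l156)))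
(.leaf p097_l157))
(.trX (nat_lit 16) (nat_lit 77) (nat_lit 100) (nat_lit 99) (nat_lit 276) (.spl (nat_lit 1) (nat_lit 300)
(.trX (nat_lit 13) (nat_lit 82) (nat_lit 29) (nat_lit 100) (nat_lit 396) (.leaf p097_l158))
(.trX (nat_lit 19) (nat_lit 94) (nat_lit 88) (nat_lit 100) (nat_lit 320) (.leaf p097_l159)))))))) (by decide +kernel)

end B2
end Pool.Agent.Lib.MP_6947cd_al
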