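import Pool.Agent.Lib.MP_6947cd_al.ZB.Pre

/-!
Problem MP_6947cd_al (Chollet).  Case B, second entry in [2/5, 17/20]: certificates of the tree, part P098 (generated).
-/

set_option autoImplicit false
set_option linter.all false

namespace Pool.Agent.Lib.MP_6947cd_al
namespace B2

open Ent Fr B1 PkA

noncomputable def p098_k0 : C1.Kn := ⟨[nat_lit 40, nat_lit 100, nat_lit 160], [nat_lit 0, nat_lit 0, nat_lit 4607], [(nat_lit 0, nat_lit 0, nat_lit 0), (nat_lit 0, nat_lit 0, nat_lit 0), (nat_lit 846, nat_lit 837, nat_lit 1000)], (nat_lit 87, nat_lit 95, nat_lit 100)⟩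
noncomputable def p098_k1 : C1.Kn := ⟨[nat_lit 40, nat_lit 100, nat_lit 140], [nat_lit 0, nat_lit 1192, nat_lit 4003], [(nat_lit 0, nat_lit 0, nat_lit 0), (nat_lit 1000, nat_lit 814, nat_lit 310), (nat_lit 992, nat_lit 771, nat_lit 1000)], (nat_lit 77, nat_lit 100, nat_lit 99)⟩
noncomputable def p098_k2 : C1.Kn := ⟨[nat_lit 40, nat_lit 80, nat_lit 160], [nat_lit 0, nat_lit 0, nat_lit 4265], [(nat_lit 0, nat_lit 0, nat_lit 0), (nat_lit 0, nat_lit 0, nat_lit 0), (nat_lit 1000, nat_lit 833, nat_lit 833)], (nat_lit 87, nat_lit 95, nat_lit 100)⟩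
noncomputable def p098_k3 : C1.Kn := ⟨[nat_lit 60, nat_lit 100, nat_lit 180], [nat_lit 0, nat_lit 0, nat_lit 4090], [(nat_lit 0, nat_lit 0, nat_lit 0), (nat_lit 0, nat_lit 0, nat_lit 0), (nat_lit 1000, nat_lit 999, nat_lit 798)], (nat_lit 100, nat_lit 80, nat_lit 100)⟩
noncomputable def p098_k4 : C1.Kn := ⟨[nat_lit 40, nat_lit 80, nat_lit 140], [nat_lit 0, nat_lit 795, nat_lit 3803], [(nat_lit 0, nat_lit 0, nat_lit 0), (nat_lit 1000, nat_lit 814, nat_lit 310), (nat_lit 1000, nat_lit 719, nat_lit 783)], (nat_lit 77, nat_lit 100, nat_lit 99)⟩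
noncomputable def p098_k5 : C1.Kn := ⟨[nat_lit 60, nat_lit 120, nat_lit 180], [nat_lit 0, nat_lit 0, nat_lit 4796], [(nat_lit 0, nat_lit 0, nat_lit 0), (nat_lit 0, nat_lit 0, nat_lit 0), (nat_lit 802, nat_lit 1000, nat_lit 999)], (nat_lit 100, nat_lit 80, nat_lit 100)⟩
noncomputable def p098_k6 : C1.Kn := ⟨[nat_lit 60, nat_lit 120, nat_lit 160], [nat_lit 0, nat_lit 913, nat_lit 3885], [(nat_lit 0, nat_lit 0, nat_lit 0), (nat_lit 1000, nat_lit 905, nat_lit 238), (nat_lit 886, nat_lit 948, nat_lit 1000)], (nat_lit 94, nat_lit 88, nat_lit 100)⟩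
noncomputable def p098_k7 : C1.Kn := ⟨[nat_lit 40, nat_lit 80, nat_lit 100], [nat_lit 0, nat_lit 0, nat_lit 1280], [(nat_lit 0, nat_lit 0, nat_lit 0), (nat_lit 0, nat_lit 0, nat_lit 0), (nat_lit 1000, nat_lit 800, nat_lit 600)], (nat_lit 80, nat_lit 100, nat_lit 60)⟩
noncomputable def p098_k8 : C1.Kn := ⟨[nat_lit 40, nat_lit 80, nat_lit 100], [nat_lit 0, nat_lit 395, nat_lit 1536], [(nat_lit 0, nat_lit 0, nat_lit 0), (nat_lit 1000, nat_lit 908, nat_lit 154), (nat_lit 1000, nat_lit 760, nat_lit 642)], (nat_lit 76, nat_lit 100, nat_lit 60)⟩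
noncomputable def p098_k9 : C1.Kn := ⟨[nat_lit 40, nat_lit 80, nat_lit 100], [nat_lit 0, nat_lit 795, nat_lit 1829], [(nat_lit 0, nat_lit 0, nat_lit 0), (nat_lit 1000, nat_lit 814, nat_lit 310), (nat_lit 1000, nat_lit 714, nat_lit 692)], (nat_lit 72, nat_lit 100, nat_lit 61)⟩
noncomputable def p098_k10 : C1.Kn := ⟨[nat_lit 40, nat_lit 100], [nat_lit 0, nat_lit 0], [(nat_lit 0, nat_lit 0, nat_lit 0), (nat_lit 0, nat_lit 0, nat_lit 0)], (nat_lit 80, nat_lit 100, nat_lit 60)⟩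
noncomputable def p098_k11 : C1.Kn := ⟨[nat_lit 40, nat_lit 80, nat_lit 100], [nat_lit 0, nat_lit 593, nat_lit 1677], [(nat_lit 0, nat_lit 0, nat_lit 0), (nat_lit 1000, nat_lit 861, nat_lit 231), (nat_lit 1000, nat_lit 738, nat_lit 662)], (nat_lit 74, nat_lit 100, nat_lit 60)⟩
noncomputable def p098_k12 : C1.Kn := ⟨[nat_lit 40, nat_lit 80], [nat_lit 0, nat_lit 795], [(nat_lit 0, nat_lit 0, nat_lit 0), (nat_lit 1000, nat_lit 814, nat_lit 310)], (nat_lit 75, nat_lit 100, nat_lit 46)⟩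
noncomputable def p098_k13 : C1.Kn := ⟨[nat_lit 40, nat_lit 80, nat_lit 100], [nat_lit 0, nat_lit 0, nat_lit 1280], [(nat_lit 0, nat_lit 0, nat_lit 0), (nat_lit 0, nat_lit 0, nat_lit 0), (nat_lit 1000, nat_lit 800, nat_lit 600)], (nat_lit 82, nat_lit 100, nat_lit 44)⟩
noncomputable def p098_k14 : C1.Kn := ⟨[nat_lit 40, nat_lit 80], [nat_lit 0, nat_lit 192], [(nat_lit 0, nat_lit 0, nat_lit 0), (nat_lit 1000, nat_lit 955, nat_lit 75)], (nat_lit 80, nat_lit 100, nat_lit 45)⟩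
noncomputable def p098_k15 : C1.Kn := ⟨[nat_lit 40, nat_lit 80, nat_lit 100], [nat_lit 0, nat_lit 192, nat_lit 1404], [(nat_lit 0, nat_lit 0, nat_lit 0), (nat_lit 1000, nat_lit 955, nat_lit 75), (nat_lit 1000, nat_lit 781, nat_lit 625)], (nat_lit 78, nat_lit 100, nat_lit 60)⟩
noncomputable def p098_k16 : C1.Kn := ⟨[nat_lit 40, nat_lit 80], [nat_lit 0, nat_lit 1195], [(nat_lit 0, nat_lit 0, nat_lit 0), (nat_lit 1000, nat_lit 720, nat_lit 465)], (nat_lit 68, nat_lit 100, nat_lit 61)⟩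
noncomputable def p098_k17 : C1.Kn := ⟨[nat_lit 40, nat_lit 80], [nat_lit 0, nat_lit 395], [(nat_lit 0, nat_lit 0, nat_lit 0), (nat_lit 1000, nat_lit 908, nat_lit 154)], (nat_lit 79, nat_lit 100, nat_lit 45)⟩
noncomputable def p098_k18 : C1.Kn := ⟨[nat_lit 40, nat_lit 80], [nat_lit 0, nat_lit 994], [(nat_lit 0, nat_lit 0, nat_lit 0), (nat_lit 1000, nat_lit 767, nat_lit 387)], (nat_lit 74, nat_lit 100, nat_lit 47)⟩
noncomputable def p098_k19 : C1.Kn := ⟨[nat_lit 40, nat_lit 80, nat_lit 100], [nat_lit 0, nat_lit 994, nat_lit 1992], [(nat_lit 0, nat_lit 0, nat_lit 0), (nat_lit 1000, nat_lit 767, nat_lit 387), (nat_lit 1000, nat_lit 689, nat_lit 725)], (nat_lit 70, nat_lit 100, nat_lit 61)⟩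
noncomputable def p098_k20 : C1.Kn := ⟨[nat_lit 40, nat_lit 100], [nat_lit 0, nat_lit 592], [(nat_lit 0, nat_lit 0, nat_lit 0), (nat_lit 1000, nat_lit 908, nat_lit 154)], (nat_lit 76, nat_lit 100, nat_lit 60)⟩
noncomputable def p098_k21 : C1.Kn := ⟨[nat_lit 40, nat_lit 80, nat_lit 100], [nat_lit 0, nat_lit 112, nat_lit 1353], [(nat_lit 0, nat_lit 0, nat_lit 0), (nat_lit 1000, nat_lit 974, nat_lit 44), (nat_lit 1000, nat_lit 789, nat_lit 608)], (nat_lit 79, nat_lit 100, nat_lit 60)⟩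
noncomputable def p098_k22 : C1.Kn := ⟨[nat_lit 40, nat_lit 60], [nat_lit 0, nat_lit 0], [(nat_lit 0, nat_lit 0, nat_lit 0), (nat_lit 0, nat_lit 0, nat_lit 0)], (nat_lit 89, nat_lit 100, nat_lit 22)⟩
noncomputable def p098_k23 : C1.Kn := ⟨[nat_lit 40, nat_lit 80], [nat_lit 0, nat_lit 0], [(nat_lit 0, nat_lit 0, nat_lit 0), (nat_lit 0, nat_lit 0, nat_lit 0)], (nat_lit 85, nat_lit 100, nat_lit 30)⟩
noncomputable def p098_l0 : Lf2 := ⟨nat_lit 0, nat_lit 30, [nat_lit 15, nat_lit 5, nat_lit 5, nat_lit 20], true, nat_lit 0, nat_lit 160, nat_lit 0, nat_lit 336, ⟨nat_lit 0, nat_lit 1000, nat_lit 0, nat_lit 7, nat_lit 223, nat_lit 1000, nat_lit 65, nat_lit 0, nat_lit 0, nat_lit 0, nat_lit 0, nat_lit 0, nat_lit 0, nat_lit 0, nat_lit 0, nat_lit 5000000, false, false⟩,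
 nat_lit 0, nat_lit 5664, nat_lit 0, nat_lit 3604, nat_lit 4247, nat_lit 0, nat_lit 210, nat_lit 0, nat_lit 0, nat_lit 0, nat_lit 0, nat_lit 0, nat_lit 0, nat_lit 0, nat_lit 0, nat_lit 400000, nat_lit 0, nat_lit 0, [(nat_lit 20, [(nat_lit 1, nat_lit 1000)])],
 ⟨p098_k0, nat_lit 0, nat_lit 0, nat_lit 327, nat_lit 0, nat_lit 42652, [nat_lit 1553800001, nat_lit 2055800001, nat_lit 1622800000], [], [nat_lit 22765216705, nat_lit 23898198813, nat_lit 24544676587, nat_lit 25460726141, nat_lit 20983104245, nat_lit 21953978950, nat_lit 24013305751, nat_lit 23358484658], nat_lit 1271250, nat_lit 1271250, nat_lit 631250, nat_lit 1751250, nat_lit 0, nat_lit 1100001, [nat_lit 490000, nat_lit 1427500, nat_lit 1271250], [nat_lit 72, nat_lit 40, nat_lit 40, nat_lit 80, nat_lit 12, nat_lit 317, nat_lit 100, nat_lit 8]⟩, C1.Rw.none,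
 ⟨nat_lit 3872, nat_lit 4473, ⟨.ofNat (nat_lit 416230), .ofNat (nat_lit 654181), .ofNat (nat_lit 459327), .ofNat (nat_lit 697279), .ofNat (nat_lit 425778), .ofNat (nat_lit 651631), .ofNat (nat_lit 469330), .ofNat (nat_lit 695183)⟩, ⟨.ofNat (nat_lit 0), .ofNat (nat_lit 302621), .ofNat (nat_lit 0), .ofNat (nat_lit 345754), .ofNat (nat_lit 0), .ofNat (nat_lit 304717), .ofNat (nat_lit 0), .ofNat (nat_lit 348304)⟩⟩, []⟩
noncomputable def p098_l1 : Lf2 := ⟨nat_lit 0, nat_lit 30, [nat_lit 15, nat_lit 5, nat_lit 5, nat_lit 20], true, nat_lit 0, nat_lit 160, nat_lit 0, nat_lit 336, ⟨nat_lit 0, nat_lit 1000, nat_lit 0, nat_lit 7, nat_lit 233, nat_lit 1000, nat_lit 65, nat_lit 0, nat_lit 0, nat_lit 0, nat_lit 0, nat_lit 0, nat_lit 0, nat_lit 0, nat_lit 0, nat_lit 5000000, false, false⟩,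
 nat_lit 0, nat_lit 4319, nat_lit 0, nat_lit 220, nat_lit 3496, nat_lit 0, nat_lit 110, nat_lit 0, nat_lit 0, nat_lit 0, nat_lit 0, nat_lit 0, nat_lit 0, nat_lit 0, nat_lit 0, nat_lit 483400, nat_lit 0, nat_lit 0, [(nat_lit 23, [(nat_lit 1, nat_lit 861), (nat_lit 2, nat_lit 139)])],
 ⟨p098_k1, nat_lit 0, nat_lit 0, nat_lit 315, nat_lit 0, nat_lit 190573, [nat_lit 1437995201, nat_lit 1116930701, nat_lit 232529233], [], [nat_lit 21307051487, nat_lit 22374337216, nat_lit 23387328447, nat_lit 24530452223, nat_lit 20698273773, nat_lit 21598003140, nat_lit 22492801165, nat_lit 23252615933], nat_lit 1271250, nat_lit 1271250, nat_lit 810650, nat_lit 1764750, nat_lit 0, nat_lit 1100001, [nat_lit 490000, nat_lit 1427500, nat_lit 1271250], [nat_lit 61, nat_lit 40, nat_lit 40, nat_lit 80, nat_lit 1, nat_lit 317, nat_lit 100, nat_lit 9]⟩, C1.Rw.none,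
 ⟨nat_lit 3162, nat_lit 3873, ⟨.ofNat (nat_lit 464406), .ofNat (nat_lit 651611), .ofNat (nat_lit 507934), .ofNat (nat_lit 695141), .ofNat (nat_lit 472632), .ofNat (nat_lit 649490), .ofNat (nat_lit 516884), .ofNat (nat_lit 693742)⟩, ⟨.ofNat (nat_lit 0), .ofNat (nat_lit 304717), .ofNat (nat_lit 0), .ofNat (nat_lit 348304), .ofNat (nat_lit 0), .ofNat (nat_lit 306116), .ofNat (nat_lit 0), .ofNat (nat_lit 350426)⟩⟩, []⟩
noncomputable def p098_l2 : Lf2 := ⟨nat_lit 0, nat_lit 30, [nat_lit 15, nat_lit 5, nat_lit 5, nat_lit 20], true, nat_lit 160, nat_lit 300, nat_lit 0, nat_lit 336, ⟨nat_lit 0, nat_lit 1000, nat_lit 0, nat_lit 7, nat_lit 223, nat_lit 1000, nat_lit 177, nat_lit 0, nat_lit 0, nat_lit 0, nat_lit 0, nat_lit 0, nat_lit 0, nat_lit 0, nat_lit 0, nat_lit 5000000, false, false⟩,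
 nat_lit 0, nat_lit 11015, nat_lit 0, nat_lit 2734, nat_lit 8260, nat_lit 0, nat_lit 0, nat_lit 0, nat_lit 0, nat_lit 0, nat_lit 0, nat_lit 0, nat_lit 0, nat_lit 0, nat_lit 0, nat_lit 250000, nat_lit 0, nat_lit 0, [(nat_lit 20, [(nat_lit 0, nat_lit 1000)])],
 ⟨p098_k0, nat_lit 0, nat_lit 0, nat_lit 164, nat_lit 0, nat_lit 42652, [nat_lit 1534400001, nat_lit 2718000000, nat_lit 3583920000], [], [nat_lit 23590239000, nat_lit 25344908600, nat_lit 24477618880, nat_lit 25838173800, nat_lit 28094301010, nat_lit 29364094005, nat_lit 27550330420, nat_lit 28533515150], nat_lit 1271250, nat_lit 1271250, nat_lit 631250, nat_lit 1751250, nat_lit 1100001, nat_lit 2298750, [nat_lit 490000, nat_lit 1427500, nat_lit 1271250], [nat_lit 72, nat_lit 40, nat_lit 40, nat_lit 80, nat_lit 12, nat_lit 373, nat_lit 150, nat_lit 9]⟩, C1.Rw.none,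
 ⟨nat_lit 3872, nat_lit 4473, ⟨.ofNat (nat_lit 416230), .ofNat (nat_lit 654181), .ofNat (nat_lit 459327), .ofNat (nat_lit 697279), .ofNat (nat_lit 425778), .ofNat (nat_lit 651631), .ofNat (nat_lit 469330), .ofNat (nat_lit 695183)⟩, ⟨.ofNat (nat_lit 302621), .ofNat (nat_lit 540545), .ofNat (nat_lit 345754), .ofNat (nat_lit 583678), .ofNat (nat_lit 304717), .ofNat (nat_lit 530543), .ofNat (nat_lit 348304), .ofNat (nat_lit 574129)⟩⟩, [⟨nat_lit 4, nat_lit 100, nat_lit 81, nat_lit 92, nat_lit 256105976⟩]⟩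
noncomputable def p098_l3 : Lf2 := ⟨nat_lit 0, nat_lit 30, [nat_lit 15, nat_lit 5, nat_lit 5, nat_lit 20], true, nat_lit 160, nat_lit 276, nat_lit 0, nat_lit 336, ⟨nat_lit 0, nat_lit 1000, nat_lit 0, nat_lit 7, nat_lit 233, nat_lit 1000, nat_lit 167, nat_lit 0, nat_lit 0, nat_lit 0, nat_lit 0, nat_lit 0, nat_lit 0, nat_lit 0, nat_lit 0, nat_lit 5000000, false, false⟩,
 nat_lit 0, nat_lit 6632, nat_lit 0, nat_lit 0, nat_lit 5368, nat_lit 0, nat_lit 131, nat_lit 0, nat_lit 0, nat_lit 0, nat_lit 0, nat_lit 0, nat_lit 0, nat_lit 0, nat_lit 0, nat_lit 250000, nat_lit 0, nat_lit 0, [(nat_lit 23, [(nat_lit 0, nat_lit 1000)])],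
 ⟨p098_k1, nat_lit 0, nat_lit 0, nat_lit 177, nat_lit 0, nat_lit 190573, [nat_lit 1576000001, nat_lit 2330800000, nat_lit 3132400000], [], [nat_lit 21397971133, nat_lit 22866623610, nat_lit 23405750883, nat_lit 24604996963, nat_lit 24738738469, nat_lit 25903161406, nat_lit 25974226793, nat_lit 26930214099], nat_lit 1271250, nat_lit 1271250, nat_lit 810650, nat_lit 1764750, nat_lit 1100001, nat_lit 2093250, [nat_lit 490000, nat_lit 1427500, nat_lit 1271250], [nat_lit 61, nat_lit 40, nat_lit 40, nat_lit 80, nat_lit 1, nat_lit 373, nat_lit 150, nat_lit 10]⟩, C1.Rw.none,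
 ⟨nat_lit 3162, nat_lit 3873, ⟨.ofNat (nat_lit 464406), .ofNat (nat_lit 651611), .ofNat (nat_lit 507934), .ofNat (nat_lit 695141), .ofNat (nat_lit 472632), .ofNat (nat_lit 649490), .ofNat (nat_lit 516884), .ofNat (nat_lit 693742)⟩, ⟨.ofNat (nat_lit 304717), .ofNat (nat_lit 491830), .ofNat (nat_lit 348304), .ofNat (nat_lit 535416), .ofNat (nat_lit 306116), .ofNat (nat_lit 482881), .ofNat (nat_lit 350426), .ofNat (nat_lit 527190)⟩⟩, [⟨nat_lit 4, nat_lit 100, nat_lit 67, nat_lit 88, nat_lit 337259961⟩]⟩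
noncomputable def p098_l4 : Lf2 := ⟨nat_lit 0, nat_lit 30, [nat_lit 15, nat_lit 5, nat_lit 5, nat_lit 20], false, nat_lit 0, nat_lit 300, nat_lit 0, nat_lit 160, ⟨nat_lit 1000, nat_lit 0, nat_lit 0, nat_lit 0, nat_lit 0, nat_lit 0, nat_lit 0, nat_lit 0, nat_lit 0, nat_lit 0, nat_lit 0, nat_lit 0, nat_lit 0, nat_lit 0, nat_lit 0, nat_lit 0, false, false⟩,
 nat_lit 0, nat_lit 8320, nat_lit 0, nat_lit 8549, nat_lit 6239, nat_lit 7211, nat_lit 665, nat_lit 0, nat_lit 0, nat_lit 837, nat_lit 0, nat_lit 0, nat_lit 0, nat_lit 0, nat_lit 0, nat_lit 0, nat_lit 0, nat_lit 0, [],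
 ⟨p098_k2, nat_lit 0, nat_lit 0, nat_lit 258, nat_lit 0, nat_lit 42652, [nat_lit 2032000001, nat_lit 4688000000, nat_lit 11872000000], [], [nat_lit 31879710978, nat_lit 32701285794, nat_lit 38729127684, nat_lit 40114007736, nat_lit 28582981193, nat_lit 29106265329, nat_lit 34505741102, nat_lit 35404024260], nat_lit 1271250, nat_lit 1271250, nat_lit 1271250, nat_lit 1271250, nat_lit 0, nat_lit 2118750, [nat_lit 490000, nat_lit 1100000, nat_lit 2470000], [nat_lit 75, nat_lit 40, nat_lit 40, nat_lit 80, nat_lit 65, nat_lit 401, nat_lit 175, nat_lit 10]⟩, ⟨p098_k3, nat_lit 0, nat_lit 0, nat_lit 267, nat_lit 0, nat_lit 0, [nat_lit 3282000000, nat_lit 6250000000, nat_lit 14058000000], [], [nat_lit 32048447542, nat_lit 33825462522, nat_lit 40194085010, nat_lit 41448546516, nat_lit 26795804238, nat_lit 28286405834, nat_lit 32864551310, nat_lit 33948422474], nat_lit 0, nat_lit 0, nat_lit 0, nat_lit 0, nat_lit 0, nat_lit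 0, [], [nat_lit 71, nat_lit 40, nat_lit 40, nat_lit 80, nat_lit 68, nat_lit 456, nat_lit 225, nat_lit 10]⟩,
 zbF0, [⟨nat_lit 4, nat_lit 100, nat_lit 81, nat_lit 92, nat_lit 108291708⟩, ⟨nat_lit 21, nat_lit 83, nat_lit 100, nat_lit 83, nat_lit 30203646⟩, ⟨nat_lit 9, nat_lit 100, nat_lit 83, nat_lit 39, nat_lit 1846309⟩]⟩
noncomputable def p098_l5 : Lf2 := ⟨nat_lit 0, nat_lit 30, [nat_lit 15, nat_lit 5, nat_lit 5, nat_lit 20], false, nat_lit 0, nat_lit 276, nat_lit 0, nat_lit 160, ⟨nat_lit 1000, nat_lit 0, nat_lit 0, nat_lit 0, nat_lit 0, nat_lit 0, nat_lit 0, nat_lit 0, nat_lit 0, nat_lit 0, nat_lit 0, nat_lit 0, nat_lit 0, nat_lit 0, nat_lit 0, nat_lit 0, false, false⟩,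
 nat_lit 0, nat_lit 7353, nat_lit 0, nat_lit 0, nat_lit 5952, nat_lit 7211, nat_lit 297, nat_lit 0, nat_lit 0, nat_lit 837, nat_lit 0, nat_lit 0, nat_lit 0, nat_lit 0, nat_lit 0, nat_lit 0, nat_lit 0, nat_lit 0, [],
 ⟨p098_k4, nat_lit 0, nat_lit 0, nat_lit 307, nat_lit 0, nat_lit 190573, [nat_lit 2032000001, nat_lit 4688000000, nat_lit 9842000000], [], [nat_lit 32167284193, nat_lit 33658683505, nat_lit 40633725185, nat_lit 41564196945, nat_lit 30683475907, nat_lit 31402990161, nat_lit 36095322390, nat_lit 36734133621], nat_lit 1271250, nat_lit 1271250, nat_lit 1271250, nat_lit 1271250, nat_lit 0, nat_lit 1949250, [nat_lit 490000, nat_lit 1100000, nat_lit 2127500], [nat_lit 27, nat_lit 40, nat_lit 40, nat_lit 80, nat_lit 13, nat_lit 401, nat_lit 175, nat_lit 11]⟩, ⟨p098_k3, nat_lit 0, nat_lit 0, nat_lit 267, nat_lit 0, nat_lit 0, [nat_lit 3282000000, nat_lit 6250000000, nat_lit 14058000000], [], [nat_lit 32048447542,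 nat_lit 33825462522, nat_lit 40194085010, nat_lit 41448546516, nat_lit 26795804238, nat_lit 28286405834, nat_lit 32864551310, nat_lit 33948422474], nat_lit 0, nat_lit 0, nat_lit 0, nat_lit 0, nat_lit 0, nat_lit 0, [], [nat_lit 71, nat_lit 40, nat_lit 40, nat_lit 80, nat_lit 68, nat_lit 456, nat_lit 225, nat_lit 10]⟩,
 zbF0, [⟨nat_lit 4, nat_lit 100, nat_lit 67, nat_lit 88, nat_lit 139400639⟩, ⟨nat_lit 9, nat_lit 100, nat_lit 84, nat_lit 34, nat_lit 31668408⟩]⟩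
noncomputable def p098_l6 : Lf2 := ⟨nat_lit 0, nat_lit 30, [nat_lit 15, nat_lit 5, nat_lit 5, nat_lit 20], false, nat_lit 0, nat_lit 300, nat_lit 160, nat_lit 336, ⟨nat_lit 1000, nat_lit 0, nat_lit 0, nat_lit 0, nat_lit 0, nat_lit 0, nat_lit 0, nat_lit 0, nat_lit 0, nat_lit 0, nat_lit 0, nat_lit 0, nat_lit 0, nat_lit 0, nat_lit 0, nat_lit 0, false, false⟩,
 nat_lit 0, nat_lit 9795, nat_lit 0, nat_lit 2198, nat_lit 7346, nat_lit 8581, nat_lit 366, nat_lit 0, nat_lit 0, nat_lit 0, nat_lit 0, nat_lit 0, nat_lit 0, nat_lit 0, nat_lit 0, nat_lit 0, nat_lit 0, nat_lit 0, [],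
 ⟨p098_k0, nat_lit 0, nat_lit 0, nat_lit 354, nat_lit 0, nat_lit 212157, [nat_lit 2032000001, nat_lit 6250000000, nat_lit 11872000000], [], [nat_lit 34634496998, nat_lit 37180606982, nat_lit 43049305302, nat_lit 44864341678, nat_lit 31546615876, nat_lit 33001804252, nat_lit 36525121466, nat_lit 37727351838], nat_lit 1271250, nat_lit 1271250, nat_lit 1271250, nat_lit 1271250, nat_lit 0, nat_lit 2118750, [nat_lit 490000, nat_lit 1427500, nat_lit 1271250], [nat_lit 72, nat_lit 40, nat_lit 40, nat_lit 80, nat_lit 12, nat_lit 401, nat_lit 175, nat_lit 10]⟩, ⟨p098_k5, nat_lit 0, nat_lit 0, nat_lit 105, nat_lit 0, nat_lit 0, [nat_lit 3282000000, nat_lit 7968000000, nat_lit 14058000000], [], [nat_lit 21119856712, nat_lit 24223572436, nat_lit 32777932896, nat_lit 34691636264, nat_lit 28756660141, nat_lit 30664054616, nat_lit 37298733592, nat_lit 38757891923], nat_lit 0, nat_lit 0, nat_lit 0, nat_lit 0, nat_lit 0, nat_lit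 0, [], [nat_lit 84, nat_lit 40, nat_lit 40, nat_lit 80, nat_lit 28, nat_lit 538, nat_lit 300, nat_lit 12]⟩,
 zbF0, [⟨nat_lit 16, nat_lit 74, nat_lit 100, nat_lit 90, nat_lit 92761793⟩, ⟨nat_lit 7, nat_lit 100, nat_lit 100, nat_lit 100, nat_lit 343918174⟩]⟩
noncomputable def p098_l7 : Lf2 := ⟨nat_lit 0, nat_lit 30, [nat_lit 15, nat_lit 5, nat_lit 5, nat_lit 20], false, nat_lit 0, nat_lit 160, nat_lit 0, nat_lit 336, ⟨nat_lit 0, nat_lit 1000, nat_lit 0, nat_lit 7, nat_lit 224, nat_lit 1000, nat_lit 65, nat_lit 0, nat_lit 0, nat_lit 0, nat_lit 0, nat_lit 0, nat_lit 0, nat_lit 0, nat_lit 0, nat_lit 5000000, false, false⟩,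
 nat_lit 0, nat_lit 5108, nat_lit 0, nat_lit 935, nat_lit 3830, nat_lit 0, nat_lit 106, nat_lit 0, nat_lit 0, nat_lit 0, nat_lit 0, nat_lit 0, nat_lit 0, nat_lit 0, nat_lit 0, nat_lit 500800, nat_lit 0, nat_lit 0, [(nat_lit 20, [(nat_lit 1, nat_lit 832), (nat_lit 2, nat_lit 168)]), (nat_lit 23, [(nat_lit 1, nat_lit 832), (nat_lit 2, nat_lit 168)])],
 ⟨p098_k0, nat_lit 0, nat_lit 0, nat_lit 360, nat_lit 0, nat_lit 130949, [nat_lit 1676070401, nat_lit 1709216001, nat_lit 402784000], [], [nat_lit 24852963183, nat_lit 25017479551, nat_lit 24937871253, nat_lit 26520700733, nat_lit 22238760913, nat_lit 23896815013, nat_lit 24385210123, nat_lit 25228140053], nat_lit 1271250, nat_lit 1271250, nat_lit 631250, nat_lit 1751250, nat_lit 0, nat_lit 1100001, [nat_lit 490000, nat_lit 1427500, nat_lit 1271250], [nat_lit 72, nat_lit 40, nat_lit 40, nat_lit 80, nat_lit 12, nat_lit 317, nat_lit 100, nat_lit 8]⟩, ⟨p098_k5, nat_lit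 0, nat_lit 0, nat_lit 426, nat_lit 0, nat_lit 162749, [nat_lit 0, nat_lit 0, nat_lit 0], [], [nat_lit 0, nat_lit 0, nat_lit 0, nat_lit 0, nat_lit 0, nat_lit 0, nat_lit 0, nat_lit 0], nat_lit 1271250, nat_lit 1271250, nat_lit 631250, nat_lit 1751250, nat_lit 0, nat_lit 2373000, [nat_lit 780000, nat_lit 1762500, nat_lit 1271250], [nat_lit 84, nat_lit 40, nat_lit 40, nat_lit 80, nat_lit 28, nat_lit 456, nat_lit 225, nat_lit 11]⟩,
 ⟨nat_lit 3162, nat_lit 4473, ⟨.ofNat (nat_lit 415764), .ofNat (nat_lit 653959), .ofNat (nat_lit 458716), .ofNat (nat_lit 696911), .ofNat (nat_lit 435680), .ofNat (nat_lit 649288), .ofNat (nat_lit 479808), .ofNat (nat_lit 693416)⟩, ⟨.ofNat (nat_lit 0), .ofNat (nat_lit 302621), .ofNat (nat_lit 0), .ofNat (nat_lit 345754), .ofNat (nat_lit 0), .ofNat (nat_lit 306116), .ofNat (nat_lit 0), .ofNat (nat_lit 350426)⟩⟩, []⟩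
noncomputable def p098_l8 : Lf2 := ⟨nat_lit 0, nat_lit 30, [nat_lit 15, nat_lit 5, nat_lit 5, nat_lit 20], true, nat_lit 160, nat_lit 300, nat_lit 0, nat_lit 336, ⟨nat_lit 0, nat_lit 1000, nat_lit 0, nat_lit 7, nat_lit 223, nat_lit 1000, nat_lit 177, nat_lit 0, nat_lit 0, nat_lit 0, nat_lit 0, nat_lit 0, nat_lit 0, nat_lit 0, nat_lit 0, nat_lit 5000000, false, false⟩,
 nat_lit 0, nat_lit 11015, nat_lit 0, nat_lit 2734, nat_lit 8260, nat_lit 0, nat_lit 0, nat_lit 0, nat_lit 0, nat_lit 0, nat_lit 0, nat_lit 0, nat_lit 0, nat_lit 0, nat_lit 0, nat_lit 250000, nat_lit 0, nat_lit 0, [(nat_lit 20, [(nat_lit 0, nat_lit 1000)])],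
 ⟨p098_k0, nat_lit 0, nat_lit 0, nat_lit 164, nat_lit 0, nat_lit 42652, [nat_lit 1534400001, nat_lit 2718000000, nat_lit 3583920000], [], [nat_lit 23590239000, nat_lit 25344908600, nat_lit 24477618880, nat_lit 25838173800, nat_lit 28094301010, nat_lit 29364094005, nat_lit 27550330420, nat_lit 28533515150], nat_lit 1271250, nat_lit 1271250, nat_lit 631250, nat_lit 1751250, nat_lit 1100001, nat_lit 2298750, [nat_lit 490000, nat_lit 1427500, nat_lit 1271250], [nat_lit 72, nat_lit 40, nat_lit 40, nat_lit 80, nat_lit 12, nat_lit 373, nat_lit 150, nat_lit 9]⟩, C1.Rw.none,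
 ⟨nat_lit 3872, nat_lit 4473, ⟨.ofNat (nat_lit 416230), .ofNat (nat_lit 654181), .ofNat (nat_lit 459327), .ofNat (nat_lit 697279), .ofNat (nat_lit 425778), .ofNat (nat_lit 651631), .ofNat (nat_lit 469330), .ofNat (nat_lit 695183)⟩, ⟨.ofNat (nat_lit 302621), .ofNat (nat_lit 540545), .ofNat (nat_lit 345754), .ofNat (nat_lit 583678), .ofNat (nat_lit 304717), .ofNat (nat_lit 530543), .ofNat (nat_lit 348304), .ofNat (nat_lit 574129)⟩⟩, [⟨nat_lit 4, nat_lit 100, nat_lit 81, nat_lit 92, nat_lit 256105976⟩]⟩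
noncomputable def p098_l9 : Lf2 := ⟨nat_lit 0, nat_lit 30, [nat_lit 15, nat_lit 5, nat_lit 5, nat_lit 20], true, nat_lit 160, nat_lit 276, nat_lit 0, nat_lit 336, ⟨nat_lit 0, nat_lit 1000, nat_lit 0, nat_lit 7, nat_lit 233, nat_lit 1000, nat_lit 167, nat_lit 0, nat_lit 0, nat_lit 0, nat_lit 0, nat_lit 0, nat_lit 0, nat_lit 0, nat_lit 0, nat_lit 5000000, false, false⟩,
 nat_lit 0, nat_lit 6632, nat_lit 0, nat_lit 0, nat_lit 5368, nat_lit 0, nat_lit 131, nat_lit 0, nat_lit 0, nat_lit 0, nat_lit 0, nat_lit 0, nat_lit 0, nat_lit 0, nat_lit 0, nat_lit 250000, nat_lit 0, nat_lit 0, [(nat_lit 23, [(nat_lit 0, nat_lit 1000)])],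
 ⟨p098_k1, nat_lit 0, nat_lit 0, nat_lit 177, nat_lit 0, nat_lit 190573, [nat_lit 1576000001, nat_lit 2330800000, nat_lit 3132400000], [], [nat_lit 21397971133, nat_lit 22866623610, nat_lit 23405750883, nat_lit 24604996963, nat_lit 24738738469, nat_lit 25903161406, nat_lit 25974226793, nat_lit 26930214099], nat_lit 1271250, nat_lit 1271250, nat_lit 810650, nat_lit 1764750, nat_lit 1100001, nat_lit 2093250, [nat_lit 490000, nat_lit 1427500, nat_lit 1271250], [nat_lit 61, nat_lit 40, nat_lit 40, nat_lit 80, nat_lit 1, nat_lit 373, nat_lit 150, nat_lit 10]⟩, C1.Rw.none,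
 ⟨nat_lit 3162, nat_lit 3873, ⟨.ofNat (nat_lit 464406), .ofNat (nat_lit 651611), .ofNat (nat_lit 507934), .ofNat (nat_lit 695141), .ofNat (nat_lit 472632), .ofNat (nat_lit 649490), .ofNat (nat_lit 516884), .ofNat (nat_lit 693742)⟩, ⟨.ofNat (nat_lit 304717), .ofNat (nat_lit 491830), .ofNat (nat_lit 348304), .ofNat (nat_lit 535416), .ofNat (nat_lit 306116), .ofNat (nat_lit 482881), .ofNat (nat_lit 350426), .ofNat (nat_lit 527190)⟩⟩, [⟨nat_lit 4, nat_lit 100, nat_lit 67, nat_lit 88, nat_lit 337259961⟩]⟩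
noncomputable def p098_l10 : Lf2 := ⟨nat_lit 0, nat_lit 30, [nat_lit 15, nat_lit 5, nat_lit 5, nat_lit 20], false, nat_lit 0, nat_lit 160, nat_lit 0, nat_lit 336, ⟨nat_lit 1000, nat_lit 0, nat_lit 0, nat_lit 0, nat_lit 0, nat_lit 0, nat_lit 0, nat_lit 0, nat_lit 0, nat_lit 0, nat_lit 0, nat_lit 0, nat_lit 0, nat_lit 0, nat_lit 0, nat_lit 0, false, false⟩,
 nat_lit 13265, nat_lit 0, nat_lit 0, nat_lit 0, nat_lit 7452, nat_lit 8441, nat_lit 396, nat_lit 0, nat_lit 0, nat_lit 552, nat_lit 0, nat_lit 0, nat_lit 0, nat_lit 0, nat_lit 0, nat_lit 0, nat_lit 0, nat_lit 0, [],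
 ⟨p098_k0, nat_lit 0, nat_lit 0, nat_lit 251, nat_lit 0, nat_lit 25985, [nat_lit 2032000001, nat_lit 6250000000, nat_lit 11872000000], [], [nat_lit 34130498876, nat_lit 35322120740, nat_lit 42743529724, nat_lit 43656589380, nat_lit 28704139452, nat_lit 29705295220, nat_lit 35170665516, nat_lit 35957334492], nat_lit 1271250, nat_lit 1271250, nat_lit 1271250, nat_lit 1271250, nat_lit 0, nat_lit 1100001, [nat_lit 490000, nat_lit 1427500, nat_lit 1271250], [nat_lit 72, nat_lit 40, nat_lit 40, nat_lit 80, nat_lit 12, nat_lit 373, nat_lit 150, nat_lit 9]⟩, ⟨p098_k5, nat_lit 0, nat_lit 0, nat_lit 287, nat_lit 0, nat_lit 32353, [nat_lit 3282000000, nat_lit 7968000000, nat_lit 14058000000], [], [nat_lit 36163348316, nat_lit 37883906012, nat_lit 44164583060, nat_lit 45463940388, nat_lit 32085808667, nat_lit 32901353296, nat_lit 37132753064, nat_lit 38584475267], nat_lit 1271250, nat_lit 1271250, nat_lit 1271250, nat_lit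 1271250, nat_lit 0, nat_lit 2373000, [nat_lit 780000, nat_lit 1762500, nat_lit 1271250], [nat_lit 84, nat_lit 40, nat_lit 40, nat_lit 80, nat_lit 28, nat_lit 538, nat_lit 300, nat_lit 12]⟩,
 zbF0, [⟨nat_lit 7, nat_lit 100, nat_lit 100, nat_lit 100, nat_lit 62917742⟩, ⟨nat_lit 22, nat_lit 83, nat_lit 100, nat_lit 83, nat_lit 34983796⟩]⟩
noncomputable def p098_l11 : Lf2 := ⟨nat_lit 0, nat_lit 30, [nat_lit 15, nat_lit 5, nat_lit 5, nat_lit 20], false, nat_lit 0, nat_lit 160, nat_lit 0, nat_lit 336, ⟨nat_lit 547, nat_lit 453, nat_lit 0, nat_lit 7, nat_lit 319, nat_lit 453, nat_lit 65, nat_lit 0, nat_lit 0, nat_lit 0, nat_lit 0, nat_lit 0, nat_lit 0, nat_lit 0, nat_lit 0, nat_lit 5000000, true, true⟩,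
 nat_lit 6673, nat_lit 0, nat_lit 0, nat_lit 0, nat_lit 4708, nat_lit 4246, nat_lit 0, nat_lit 0, nat_lit 0, nat_lit 286, nat_lit 0, nat_lit 0, nat_lit 0, nat_lit 0, nat_lit 0, nat_lit 406800, nat_lit 0, nat_lit 0, [(nat_lit 23, [(nat_lit 1, nat_lit 77), (nat_lit 2, nat_lit 376)])],
 ⟨p098_k1, nat_lit 0, nat_lit 0, nat_lit 289, nat_lit 0, nat_lit 118638, [nat_lit 1937212601, nat_lit 2939072600, nat_lit 3138202800], [], [nat_lit 28992806400, nat_lit 30045783176, nat_lit 35977324040, nat_lit 36853386736, nat_lit 26710126882, nat_lit 27506840106, nat_lit 32114285136, nat_lit 32858018480], nat_lit 1271250, nat_lit 1271250, nat_lit 1271250, nat_lit 1271250, nat_lit 0, nat_lit 1100001, [nat_lit 490000, nat_lit 1427500, nat_lit 1271250], [nat_lit 61, nat_lit 40, nat_lit 40, nat_lit 80, nat_lit 1, nat_lit 373, nat_lit 150, nat_lit 10]⟩, ⟨p098_k5, nat_lit 0, nat_lit 0, nat_lit 385, nat_lit 0, nat_lit 162749, [nat_lit 1795254000,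 nat_lit 4358496000, nat_lit 7689726000], [], [nat_lit 20255344952, nat_lit 21164914928, nat_lit 23930481512, nat_lit 24627194620, nat_lit 18474407070, nat_lit 18920941793, nat_lit 20335955308, nat_lit 20659620143], nat_lit 1271250, nat_lit 1271250, nat_lit 1271250, nat_lit 1271250, nat_lit 0, nat_lit 2373000, [nat_lit 780000, nat_lit 1762500, nat_lit 1271250], [nat_lit 84, nat_lit 40, nat_lit 40, nat_lit 80, nat_lit 28, nat_lit 538, nat_lit 300, nat_lit 12]⟩,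
 ⟨nat_lit 3162, nat_lit 3873, ⟨.ofNat (nat_lit 651611), .ofNat (nat_lit 909779), .ofNat (nat_lit 695141), .ofNat (nat_lit 953347), .ofNat (nat_lit 649490), .ofNat (nat_lit 893385), .ofNat (nat_lit 693742), .ofNat (nat_lit 937676)⟩, ⟨.ofNat (nat_lit 0), .ofNat (nat_lit 304717), .ofNat (nat_lit 0), .ofNat (nat_lit 348304), .ofNat (nat_lit 0), .ofNat (nat_lit 306116), .ofNat (nat_lit 0), .ofNat (nat_lit 350426)⟩⟩, [⟨nat_lit 19, nat_lit 100, nat_lit 100, nat_lit 100, nat_lit 22990409⟩, ⟨nat_lit 22, nat_lit 83, nat_lit 100, nat_lit 83, nat_lit 31142603⟩]⟩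
noncomputable def p098_l12 : Lf2 := ⟨nat_lit 1, nat_lit 30, [nat_lit 15, nat_lit 5, nat_lit 5, nat_lit 20], false, nat_lit 160, nat_lit 300, nat_lit 0, nat_lit 336, zbN0,
 nat_lit 0, nat_lit 0, nat_lit 0, nat_lit 0, nat_lit 0, nat_lit 0, nat_lit 0, nat_lit 0, nat_lit 0, nat_lit 0, nat_lit 0, nat_lit 0, nat_lit 0, nat_lit 0, nat_lit 0, nat_lit 0, nat_lit 0, nat_lit 0, [],
 C1.Rw.none, C1.Rw.none,
 zbF0, []⟩
noncomputable def p098_l13 : Lf2 := ⟨nat_lit 0, nat_lit 30, [nat_lit 15, nat_lit 5, nat_lit 5, nat_lit 20], false, nat_lit 160, nat_lit 300, nat_lit 0, nat_lit 320, ⟨nat_lit 1000, nat_lit 0, nat_lit 0, nat_lit 0, nat_lit 0, nat_lit 0, nat_lit 0, nat_lit 0, nat_lit 0, nat_lit 0, nat_lit 0, nat_lit 0, nat_lit 0, nat_lit 0, nat_lit 0, nat_lit 0, false, false⟩,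
 nat_lit 15712, nat_lit 0, nat_lit 0, nat_lit 3669, nat_lit 11779, nat_lit 10877, nat_lit 0, nat_lit 0, nat_lit 0, nat_lit 0, nat_lit 0, nat_lit 0, nat_lit 0, nat_lit 0, nat_lit 0, nat_lit 0, nat_lit 0, nat_lit 0, [],
 ⟨p098_k0, nat_lit 0, nat_lit 0, nat_lit 155, nat_lit 0, nat_lit 25152, [nat_lit 2032000001, nat_lit 6250000000, nat_lit 11872000000], [], [nat_lit 30629271752, nat_lit 32327798470, nat_lit 40251803532, nat_lit 41212365984, nat_lit 33638567393, nat_lit 34824395498, nat_lit 40988748822, nat_lit 42211357430], nat_lit 1271250, nat_lit 1271250, nat_lit 1271250, nat_lit 1271250, nat_lit 1100001, nat_lit 2298750, [nat_lit 490000, nat_lit 1427500, nat_lit 1271250], [nat_lit 72, nat_lit 40, nat_lit 40, nat_lit 80, nat_lit 12, nat_lit 401, nat_lit 175, nat_lit 9]⟩, ⟨p098_k6, nat_lit 0, nat_lit 0, nat_lit 261, nat_lit 0, nat_lit 27940, [nat_lit 3282000000, nat_lit 7968000000, nat_lit 11872000000], [], [nat_lit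 39867595616, nat_lit 41542806576, nat_lit 51665286812, nat_lit 52520140824, nat_lit 34085948616, nat_lit 34947848004, nat_lit 40265015670, nat_lit 40649527680], nat_lit 1271250, nat_lit 1271250, nat_lit 1271250, nat_lit 1271250, nat_lit 0, nat_lit 2260000, [nat_lit 780000, nat_lit 1762500, nat_lit 1271250], [nat_lit 79, nat_lit 40, nat_lit 40, nat_lit 80, nat_lit 14, nat_lit 538, nat_lit 300, nat_lit 13]⟩,
 zbF0, [⟨nat_lit 4, nat_lit 100, nat_lit 81, nat_lit 92, nat_lit 342652157⟩]⟩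
noncomputable def p098_l14 : Lf2 := ⟨nat_lit 1, nat_lit 30, [nat_lit 15, nat_lit 5, nat_lit 5, nat_lit 20], false, nat_lit 160, nat_lit 300, nat_lit 0, nat_lit 336, zbN0,
 nat_lit 0, nat_lit 0, nat_lit 0, nat_lit 0, nat_lit 0, nat_lit 0, nat_lit 0, nat_lit 0, nat_lit 0, nat_lit 0, nat_lit 0, nat_lit 0, nat_lit 0, nat_lit 0, nat_lit 0, nat_lit 0, nat_lit 0, nat_lit 0, [],
 C1.Rw.none, C1.Rw.none,
 zbF0, []⟩
noncomputable def p098_l15 : Lf2 := ⟨nat_lit 0, nat_lit 30, [nat_lit 15, nat_lit 5, nat_lit 5, nat_lit 20], false, nat_lit 160, nat_lit 276, nat_lit 0, nat_lit 336, ⟨nat_lit 979, nat_lit 21, nat_lit 0, nat_lit 7, nat_lit 314, nat_lit 21, nat_lit 167, nat_lit 0, nat_lit 0, nat_lit 0, nat_lit 0, nat_lit 0, nat_lit 0, nat_lit 0, nat_lit 0, nat_lit 5000000, true, true⟩,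
 nat_lit 13221, nat_lit 0, nat_lit 0, nat_lit 7563, nat_lit 9645, nat_lit 8413, nat_lit 0, nat_lit 0, nat_lit 0, nat_lit 464, nat_lit 0, nat_lit 0, nat_lit 0, nat_lit 0, nat_lit 0, nat_lit 5250, nat_lit 0, nat_lit 0, [(nat_lit 23, [(nat_lit 0, nat_lit 21)])],
 ⟨p098_k1, nat_lit 0, nat_lit 0, nat_lit 148, nat_lit 0, nat_lit 51209, [nat_lit 2022424000, nat_lit 6167696800, nat_lit 9701098400], [], [nat_lit 28842134770, nat_lit 30526007720, nat_lit 37717399605, nat_lit 38730181722, nat_lit 31314975677, nat_lit 32604450510, nat_lit 38507196012, nat_lit 39710361435], nat_lit 1271250, nat_lit 1271250, nat_lit 1271250, nat_lit 1271250, nat_lit 1100001, nat_lit 2093250, [nat_lit 490000, nat_lit 1427500, nat_lit 1271250], [nat_lit 61, nat_lit 40, nat_lit 40, nat_lit 80, nat_lit 1, nat_lit 401, nat_lit 175, nat_lit 10]⟩, ⟨p098_k5, nat_lit 0, nat_lit 0, nat_lit 297, nat_lit 0, nat_lit 70249, [nat_lit 3213078000, nat_lit 7800672000,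 nat_lit 13762782000], [], [nat_lit 36454582180, nat_lit 37303142944, nat_lit 44284561121, nat_lit 44938212130, nat_lit 32281947794, nat_lit 32681070080, nat_lit 36664010614, nat_lit 36952532805], nat_lit 1271250, nat_lit 1271250, nat_lit 1271250, nat_lit 1271250, nat_lit 0, nat_lit 2373000, [nat_lit 780000, nat_lit 1762500, nat_lit 1271250], [nat_lit 84, nat_lit 40, nat_lit 40, nat_lit 80, nat_lit 28, nat_lit 538, nat_lit 300, nat_lit 12]⟩,
 ⟨nat_lit 3162, nat_lit 3873, ⟨.ofNat (nat_lit 651611), .ofNat (nat_lit 903327), .ofNat (nat_lit 673376), .ofNat (nat_lit 925121), .ofNat (nat_lit 649490), .ofNat (nat_lit 887290), .ofNat (nat_lit 671616), .ofNat (nat_lit 909444)⟩, ⟨.ofNat (nat_lit 304717), .ofNat (nat_lit 491830), .ofNat (nat_lit 348304), .ofNat (nat_lit 535416), .ofNat (nat_lit 306116), .ofNat (nat_lit 482881), .ofNat (nat_lit 350426), .ofNat (nat_lit 527190)⟩⟩, [⟨nat_lit 4, nat_lit 100, nat_lit 67, nat_lit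 88, nat_lit 510395762⟩, ⟨nat_lit 19, nat_lit 100, nat_lit 94, nat_lit 97, nat_lit 68570552⟩]⟩
noncomputable def p098_l16 : Lf2 := ⟨nat_lit 0, nat_lit 30, [nat_lit 15, nat_lit 5, nat_lit 5, nat_lit 20], false, nat_lit 160, nat_lit 276, nat_lit 0, nat_lit 320, ⟨nat_lit 1000, nat_lit 0, nat_lit 0, nat_lit 0, nat_lit 0, nat_lit 0, nat_lit 0, nat_lit 0, nat_lit 0, nat_lit 0, nat_lit 0, nat_lit 0, nat_lit 0, nat_lit 0, nat_lit 0, nat_lit 0, false, false⟩,
 nat_lit 12391, nat_lit 0, nat_lit 0, nat_lit 0, nat_lit 9647, nat_lit 8578, nat_lit 0, nat_lit 0, nat_lit 0, nat_lit 304, nat_lit 0, nat_lit 0, nat_lit 0, nat_lit 0, nat_lit 0, nat_lit 0, nat_lit 0, nat_lit 0, [],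
 ⟨p098_k1, nat_lit 0, nat_lit 0, nat_lit 170, nat_lit 0, nat_lit 118638, [nat_lit 2032000001, nat_lit 6250000000, nat_lit 9842000000], [], [nat_lit 28981740582, nat_lit 30665840152, nat_lit 38141399824, nat_lit 39136864120, nat_lit 31454536768, nat_lit 32744167546, nat_lit 38846777380, nat_lit 40028556735], nat_lit 1271250, nat_lit 1271250, nat_lit 1271250, nat_lit 1271250, nat_lit 1100001, nat_lit 2093250, [nat_lit 490000, nat_lit 1427500, nat_lit 1271250], [nat_lit 61, nat_lit 40, nat_lit 40, nat_lit 80, nat_lit 1, nat_lit 401, nat_lit 175, nat_lit 10]⟩, ⟨p098_k6, nat_lit 0, nat_lit 0, nat_lit 334, nat_lit 0, nat_lit 145454, [nat_lit 3282000000, nat_lit 7968000000, nat_lit 11872000000], [], [nat_lit 35969472176, nat_lit 36981469536, nat_lit 45311936168, nat_lit 46093783136, nat_lit 31855505024, nat_lit 32638217656, nat_lit 37522120380, nat_lit 37915529520], nat_lit 1271250, nat_lit 1271250, nat_lit 1271250, nat_lit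 1271250, nat_lit 0, nat_lit 2260000, [nat_lit 780000, nat_lit 1762500, nat_lit 1271250], [nat_lit 79, nat_lit 40, nat_lit 40, nat_lit 80, nat_lit 14, nat_lit 538, nat_lit 300, nat_lit 13]⟩,
 zbF0, [⟨nat_lit 16, nat_lit 67, nat_lit 100, nat_lit 88, nat_lit 447166678⟩, ⟨nat_lit 7, nat_lit 100, nat_lit 93, nat_lit 97, nat_lit 63964516⟩]⟩
noncomputable def b_V_800_700_20_57 : St := ⟨true, nat_lit 1, nat_lit 2, nat_lit 2, nat_lit 120, nat_lit 320, nat_lit 360, nat_lit 280, nat_lit 320, nat_lit 100, nat_lit 400, nat_lit 80, nat_lit 120, nat_lit 0, nat_lit 300, nat_lit 0, nat_lit 336, nat_lit 120, nat_lit 140, nat_lit 0, nat_lit 0, nat_lit 0, nat_lit 0⟩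
theorem d_V_800_700_20_57 (h : EB TB.env) : Dead b_V_800_700_20_57 := chkB_sound0 h (T :=
(.st (nat_lit 1)
(.spl (nat_lit 2) (nat_lit 240)
(.spl (nat_lit 4) (nat_lit 160)
(.spl (nat_lit 0) (nat_lit 340)
(.leaf p098_l0)
(.trZ (nat_lit 0) (nat_lit 99) (nat_lit 77) (nat_lit 100) (nat_lit 124) (.leaf p098_l1)))
(.spl (nat_lit 0) (nat_lit 340)
(.leaf p098_l2)
(.trZ (nat_lit 0) (nat_lit 99) (nat_lit 77) (nat_lit 100) (nat_lit 124) (.trX (nat_lit 16) (nat_lit 77) (nat_lit 100) (nat_lit 99) (nat_lit 276) (.leaf p098_l3)))))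
(.spl (nat_lit 5) (nat_lit 160)
(.spl (nat_lit 0) (nat_lit 340)
(.leaf p098_l4)
(.trX (nat_lit 16) (nat_lit 77) (nat_lit 100) (nat_lit 99) (nat_lit 276) (.leaf p098_l5)))
(.leaf p098_l6)))
(.spl (nat_lit 2) (nat_lit 240)
(.spl (nat_lit 4) (nat_lit 160)
(.leaf p098_l7)
(.spl (nat_lit 0) (nat_lit 340)
(.leaf p098_l8)
(.trZ (nat_lit 0) (nat_lit 99) (nat_lit 77) (nat_lit 100) (nat_lit 124) (.trX (nat_lit 16) (nat_lit 77) (nat_lit 100) (nat_lit 99) (nat_lit 276) (.leaf p098_l9)))))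
(.spl (nat_lit 4) (nat_lit 160)
(.spl (nat_lit 0) (nat_lit 340)
(.leaf p098_l10)
(.leaf p098_l11))
(.spl (nat_lit 0) (nat_lit 340)
(.spl (nat_lit 6) (nat_lit 124)
(.spl (nat_lit 1) (nat_lit 300)
(.leaf p098_l12)
(.trX (nat_lit 19) (nat_lit 94) (nat_lit 88) (nat_lit 100) (nat_lit 320) (.leaf p098_l13)))
(.leaf p098_l14))
(.trX (nat_lit 16) (nat_lit 77) (nat_lit 100) (nat_lit 99) (nat_lit 276) (.spl (nat_lit 1) (nat_lit 300)
(.trX (nat_lit 13) (nat_lit 82) (nat_lit 29) (nat_lit 100) (nat_lit 396) (.leaf p098_l15))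
(.trX (nat_lit 19) (nat_lit 94) (nat_lit 88) (nat_lit 100) (nat_lit 320) (.leaf p098_l16))))))))) (by decide +kernel)
noncomputable def p098_l17 : Lf2 := ⟨nat_lit 0, nat_lit 10, [nat_lit 0, nat_lit 5, nat_lit 5, nat_lit 20], false, nat_lit 0, nat_lit 160, nat_lit 0, nat_lit 260, ⟨nat_lit 176, nat_lit 431, nat_lit 393, nat_lit 8, nat_lit 247, nat_lit 824, nat_lit 56, nat_lit 393, nat_lit 29400, nat_lit 257, nat_lit 145020, nat_lit 200, nat_lit 48470164, nat_lit 18529836, nat_lit 0, nat_lit 2948396, false, false⟩,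
 nat_lit 0, nat_lit 0, nat_lit 1892, nat_lit 0, nat_lit 3663, nat_lit 1418, nat_lit 213, nat_lit 0, nat_lit 0, nat_lit 63, nat_lit 0, nat_lit 0, nat_lit 0, nat_lit 0, nat_lit 0, nat_lit 329600, nat_lit 0, nat_lit 0, [(nat_lit 18, [(nat_lit 1, nat_lit 431), (nat_lit 5, nat_lit 393)])],
 ⟨p098_k7, nat_lit 0, nat_lit 0, nat_lit 120, nat_lit 0, nat_lit 0, [nat_lit 1325245867, nat_lit 1510019334, nat_lit 1353561200], [], [nat_lit 17755118632, nat_lit 18574862642, nat_lit 20961966240, nat_lit 21819187231, nat_lit 17076198693, nat_lit 17729606418, nat_lit 19847279718, nat_lit 20473360986], nat_lit 0, nat_lit 0, nat_lit 0, nat_lit 0, nat_lit 0, nat_lit 0, [], [nat_lit 6, nat_lit 40, nat_lit 40, nat_lit 80, nat_lit 3, nat_lit 317, nat_lit 100, nat_lit 12]⟩, ⟨p098_k7, nat_lit 0, nat_lit 0, nat_lit 720, nat_lit 0, nat_lit 1431193, [nat_lit 357632000, nat_lit 825088000, nat_lit 1100000000], [], [nat_lit 4983195060, nat_lit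 4878036185, nat_lit 4841935464, nat_lit 5077427434, nat_lit 4228714959, nat_lit 4269142396, nat_lit 4730838834, nat_lit 4423704643], nat_lit 1271250, nat_lit 1271250, nat_lit 936251, nat_lit 1773750, nat_lit 0, nat_lit 1836250, [nat_lit 490000, nat_lit 1100000, nat_lit 1442500], [nat_lit 6, nat_lit 40, nat_lit 40, nat_lit 80, nat_lit 3, nat_lit 345, nat_lit 125, nat_lit 13]⟩,
 ⟨nat_lit 4183, nat_lit 4473, ⟨.ofNat (nat_lit 527406), .ofNat (nat_lit 697354), .ofNat (nat_lit 538187), .ofNat (nat_lit 708135), .ofNat (nat_lit 530591), .ofNat (nat_lit 696233), .ofNat (nat_lit 541422), .ofNat (nat_lit 707064)⟩, ⟨.negSucc (nat_lit 12423), .ofNat (nat_lit 259489), .ofNat (nat_lit 0), .ofNat (nat_lit 302621), .negSucc (nat_lit 4612), .ofNat (nat_lit 260409), .ofNat (nat_lit 0), .ofNat (nat_lit 303743)⟩⟩, [⟨nat_lit 7, nat_lit 100, nat_lit 79, nat_lit 72, nat_lit 30414387⟩]⟩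
noncomputable def p098_l18 : Lf2 := ⟨nat_lit 0, nat_lit 10, [nat_lit 0, nat_lit 5, nat_lit 5, nat_lit 20], false, nat_lit 0, nat_lit 160, nat_lit 0, nat_lit 260, ⟨nat_lit 153, nat_lit 847, nat_lit 0, nat_lit 8, nat_lit 255, nat_lit 847, nat_lit 56, nat_lit 0, nat_lit 0, nat_lit 0, nat_lit 0, nat_lit 0, nat_lit 47620009, nat_lit 19379991, nat_lit 0, nat_lit 3007409, true, false⟩,
 nat_lit 0, nat_lit 0, nat_lit 1610, nat_lit 0, nat_lit 4375, nat_lit 1207, nat_lit 249, nat_lit 0, nat_lit 0, nat_lit 50, nat_lit 0, nat_lit 0, nat_lit 0, nat_lit 3654974439859, nat_lit 0, nat_lit 211750, nat_lit 0, nat_lit 0, [(nat_lit 18, [(nat_lit 0, nat_lit 847)])],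
 ⟨p098_k8, nat_lit 0, nat_lit 0, nat_lit 126, nat_lit 0, nat_lit 0, [nat_lit 1609177600, nat_lit 2553560001, nat_lit 3126264000], [], [nat_lit 20399499351, nat_lit 21281173301, nat_lit 23153507250, nat_lit 23905418500, nat_lit 18773499775, nat_lit 19517872351, nat_lit 21206001500, nat_lit 21845105500], nat_lit 0, nat_lit 0, nat_lit 0, nat_lit 0, nat_lit 0, nat_lit 0, [], [nat_lit 6, nat_lit 40, nat_lit 40, nat_lit 80, nat_lit 3, nat_lit 317, nat_lit 100, nat_lit 12]⟩, ⟨p098_k7, nat_lit 0, nat_lit 0, nat_lit 790, nat_lit 0, nat_lit 1606313, [nat_lit 310896000, nat_lit 717264000, nat_lit 956250000], [], [nat_lit 4533733268, nat_lit 4609315462, nat_lit 4536263888, nat_lit 4599334602, nat_lit 3983896310, nat_lit 4032526584, nat_lit 4199950438, nat_lit 3980024301], nat_lit 1271250, nat_lit 1271250, nat_lit 1066650, nat_lit 1782750, nat_lit 0, nat_lit 1836250, [nat_lit 490000, nat_lit 1100000, nat_lit 1442500], [nat_lit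 6, nat_lit 40, nat_lit 40, nat_lit 80, nat_lit 3, nat_lit 345, nat_lit 125, nat_lit 13]⟩,
 ⟨nat_lit 3872, nat_lit 4184, ⟨.ofNat (nat_lit 557086), .ofNat (nat_lit 696229), .ofNat (nat_lit 578748), .ofNat (nat_lit 717891), .ofNat (nat_lit 559753), .ofNat (nat_lit 695254), .ofNat (nat_lit 581542), .ofNat (nat_lit 717043)⟩, ⟨.negSucc (nat_lit 4619), .ofNat (nat_lit 260409), .ofNat (nat_lit 0), .ofNat (nat_lit 303743), .ofNat (nat_lit 0), .ofNat (nat_lit 261131), .ofNat (nat_lit 0), .ofNat (nat_lit 304717)⟩⟩, [⟨nat_lit 0, nat_lit 71, nat_lit 71, nat_lit 100, nat_lit 238590685⟩, ⟨nat_lit 7, nat_lit 100, nat_lit 76, nat_lit 72, nat_lit 26138449⟩]⟩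
noncomputable def p098_l19 : Lf2 := ⟨nat_lit 0, nat_lit 10, [nat_lit 0, nat_lit 5, nat_lit 5, nat_lit 20], false, nat_lit 0, nat_lit 160, nat_lit 0, nat_lit 260, ⟨nat_lit 130, nat_lit 870, nat_lit 0, nat_lit 8, nat_lit 260, nat_lit 870, nat_lit 57, nat_lit 0, nat_lit 0, nat_lit 0, nat_lit 0, nat_lit 0, nat_lit 47146606, nat_lit 19853394, nat_lit 0, nat_lit 3038565, true, false⟩,
 nat_lit 0, nat_lit 0, nat_lit 1383, nat_lit 0, nat_lit 3985, nat_lit 1037, nat_lit 181, nat_lit 0, nat_lit 0, nat_lit 39, nat_lit 0, nat_lit 0, nat_lit 0, nat_lit 0, nat_lit 0, nat_lit 217500, nat_lit 0, nat_lit 0, [(nat_lit 21, [(nat_lit 0, nat_lit 870)])],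
 ⟨p098_k9, nat_lit 0, nat_lit 0, nat_lit 137, nat_lit 0, nat_lit 0, [nat_lit 1619968000, nat_lit 2476460001, nat_lit 2679520000], [], [nat_lit 21160944017, nat_lit 22802666755, nat_lit 23480039935, nat_lit 25025289380, nat_lit 19827492157, nat_lit 21196596180, nat_lit 21862776295, nat_lit 23083882055], nat_lit 0, nat_lit 0, nat_lit 0, nat_lit 0, nat_lit 0, nat_lit 0, [], [nat_lit 6, nat_lit 40, nat_lit 40, nat_lit 80, nat_lit 3, nat_lit 317, nat_lit 100, nat_lit 12]⟩, ⟨p098_k7, nat_lit 0, nat_lit 0, nat_lit 877, nat_lit 0, nat_lit 1814950, [nat_lit 264160000, nat_lit 609440000, nat_lit 812500000], [], [nat_lit 3926979547, nat_lit 3977053406, nat_lit 3911194172, nat_lit 3953408818, nat_lit 3412856697, nat_lit 3442601578, nat_lit 3593743542, nat_lit 3384723416], nat_lit 1271250, nat_lit 1271250, nat_lit 1167600, nat_lit 1789500, nat_lit 0, nat_lit 1836250, [nat_lit 490000, nat_lit 1100000, nat_lit 1442500], [nat_lit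 6, nat_lit 40, nat_lit 40, nat_lit 80, nat_lit 3, nat_lit 345, nat_lit 125, nat_lit 13]⟩,
 ⟨nat_lit 3162, nat_lit 3873, ⟨.ofNat (nat_lit 578944), .ofNat (nat_lit 695141), .ofNat (nat_lit 600708), .ofNat (nat_lit 716905), .ofNat (nat_lit 583969), .ofNat (nat_lit 693742), .ofNat (nat_lit 606094), .ofNat (nat_lit 715869)⟩, ⟨.ofNat (nat_lit 0), .ofNat (nat_lit 261131), .ofNat (nat_lit 0), .ofNat (nat_lit 304717), .ofNat (nat_lit 0), .ofNat (nat_lit 261806), .ofNat (nat_lit 0), .ofNat (nat_lit 306116)⟩⟩, [⟨nat_lit 0, nat_lit 76, nat_lit 66, nat_lit 100, nat_lit 204203077⟩, ⟨nat_lit 19, nat_lit 76, nat_lit 100, nat_lit 72, nat_lit 21591042⟩]⟩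
noncomputable def b_V_800_800_10_0 : St := ⟨true, nat_lit 0, nat_lit 1, nat_lit 1, nat_lit 80, nat_lit 320, nat_lit 360, nat_lit 320, nat_lit 340, nat_lit 140, nat_lit 240, nat_lit 40, nat_lit 80, nat_lit 0, nat_lit 160, nat_lit 0, nat_lit 260, nat_lit 0, nat_lit 40, nat_lit 0, nat_lit 0, nat_lit 0, nat_lit 0⟩
theorem d_V_800_800_10_0 (h : EB TB.env) : Dead b_V_800_800_10_0 := chkB_sound0 h (T :=
(.spl (nat_lit 0) (nat_lit 340)
(.spl (nat_lit 0) (nat_lit 330)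
(.ord (.leaf p098_l17))
(.trZ (nat_lit 0) (nat_lit 82) (nat_lit 78) (nat_lit 100) (nat_lit 156) (.leaf p098_l18)))
(.trZ (nat_lit 0) (nat_lit 81) (nat_lit 72) (nat_lit 100) (nat_lit 168) (.leaf p098_l19)))) (by decide +kernel)
noncomputable def p098_l20 : Lf2 := ⟨nat_lit 0, nat_lit 10, [nat_lit 0, nat_lit 5, nat_lit 5, nat_lit 20], false, nat_lit 0, nat_lit 80, nat_lit 0, nat_lit 260, ⟨nat_lit 156, nat_lit 844, nat_lit 0, nat_lit 8, nat_lit 308, nat_lit 652, nat_lit 29, nat_lit 0, nat_lit 0, nat_lit 0, nat_lit 0, nat_lit 0, nat_lit 42089541, nat_lit 24910459, nat_lit 0, nat_lit 3299527, true, false⟩,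
 nat_lit 0, nat_lit 0, nat_lit 1732, nat_lit 0, nat_lit 3754, nat_lit 1298, nat_lit 0, nat_lit 0, nat_lit 0, nat_lit 0, nat_lit 0, nat_lit 0, nat_lit 0, nat_lit 0, nat_lit 0, nat_lit 544600, nat_lit 0, nat_lit 0, [(nat_lit 18, [(nat_lit 1, nat_lit 499), (nat_lit 2, nat_lit 345)])],
 ⟨p098_k10, nat_lit 0, nat_lit 0, nat_lit 131, nat_lit 0, nat_lit 0, [nat_lit 1874338801, nat_lit 1949679000], [], [nat_lit 22731453642, nat_lit 23350981004, nat_lit 26331719194, nat_lit 26850868542, nat_lit 21506371162, nat_lit 22088639368, nat_lit 24915779034, nat_lit 25406258138], nat_lit 0, nat_lit 0, nat_lit 0, nat_lit 0, nat_lit 0, nat_lit 0, [], [nat_lit 69, nat_lit 40, nat_lit 40, nat_lit 80, nat_lit 64, nat_lit 226, nat_lit 20, nat_lit 8]⟩, ⟨p098_k10, nat_lit 0, nat_lit 0, nat_lit 693, nat_lit 0, nat_lit 1431193, [nat_lit 316992000, nat_lit 975000000], [], [nat_lit 5525917120, nat_lit 5559252830, nat_lit 5648183120, nat_lit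 5674197746, nat_lit 4747615006, nat_lit 4767333100, nat_lit 4786996152, nat_lit 4801290934], nat_lit 1271250, nat_lit 1271250, nat_lit 1271250, nat_lit 1271250, nat_lit 0, nat_lit 1836250, [nat_lit 490000, nat_lit 1427500], [nat_lit 69, nat_lit 40, nat_lit 40, nat_lit 80, nat_lit 64, nat_lit 289, nat_lit 75, nat_lit 10]⟩,
 ⟨nat_lit 4183, nat_lit 4473, ⟨.ofNat (nat_lit 697354), .ofNat (nat_lit 833312), .ofNat (nat_lit 708135), .ofNat (nat_lit 844093), .ofNat (nat_lit 696233), .ofNat (nat_lit 828746), .ofNat (nat_lit 707064), .ofNat (nat_lit 839577)⟩, ⟨.negSucc (nat_lit 12423), .ofNat (nat_lit 123532), .ofNat (nat_lit 0), .ofNat (nat_lit 166665), .negSucc (nat_lit 4612), .ofNat (nat_lit 127898), .ofNat (nat_lit 0), .ofNat (nat_lit 171231)⟩⟩, [⟨nat_lit 22, nat_lit 94, nat_lit 100, nat_lit 62, nat_lit 16890274⟩]⟩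
noncomputable def p098_l21 : Lf2 := ⟨nat_lit 0, nat_lit 10, [nat_lit 0, nat_lit 5, nat_lit 5, nat_lit 20], false, nat_lit 0, nat_lit 80, nat_lit 0, nat_lit 260, ⟨nat_lit 286, nat_lit 714, nat_lit 0, nat_lit 8, nat_lit 361, nat_lit 714, nat_lit 29, nat_lit 0, nat_lit 0, nat_lit 0, nat_lit 0, nat_lit 0, nat_lit 36886100, nat_lit 30113900, nat_lit 0, nat_lit 3440149, true, true⟩,
 nat_lit 0, nat_lit 0, nat_lit 2476, nat_lit 0, nat_lit 3474, nat_lit 1856, nat_lit 0, nat_lit 0, nat_lit 0, nat_lit 101, nat_lit 0, nat_lit 0, nat_lit 0, nat_lit 0, nat_lit 0, nat_lit 714000, nat_lit 0, nat_lit 0, [(nat_lit 18, [(nat_lit 2, nat_lit 714)])],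
 ⟨p098_k7, nat_lit 0, nat_lit 0, nat_lit 174, nat_lit 0, nat_lit 0, [nat_lit 1796284800, nat_lit 2087136001, nat_lit 1471055200], [], [nat_lit 26768338441, nat_lit 27225827167, nat_lit 30993332344, nat_lit 31522266860, nat_lit 25587235841, nat_lit 26019998617, nat_lit 29287520098, nat_lit 29663391116], nat_lit 0, nat_lit 0, nat_lit 0, nat_lit 0, nat_lit 0, nat_lit 0, [], [nat_lit 6, nat_lit 40, nat_lit 40, nat_lit 80, nat_lit 3, nat_lit 226, nat_lit 20, nat_lit 7]⟩, ⟨p098_k7, nat_lit 0, nat_lit 0, nat_lit 683, nat_lit 0, nat_lit 1431193, [nat_lit 581152000, nat_lit 1340768000, nat_lit 1787500000], [], [nat_lit 10939402896, nat_lit 10997320206, nat_lit 11443411200, nat_lit 11492239868, nat_lit 10092711096, nat_lit 10137140452, nat_lit 10481813748, nat_lit 10515690299], nat_lit 1271250, nat_lit 1271250, nat_lit 1271250, nat_lit 1271250, nat_lit 0, nat_lit 1836250, [nat_lit 490000, nat_lit 1100000, nat_lit 1442500],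 [nat_lit 6, nat_lit 40, nat_lit 40, nat_lit 80, nat_lit 3, nat_lit 295, nat_lit 75, nat_lit 10]⟩,
 ⟨nat_lit 4183, nat_lit 4473, ⟨.ofNat (nat_lit 833312), .ofNat (nat_lit 969270), .ofNat (nat_lit 844093), .ofNat (nat_lit 980052), .ofNat (nat_lit 828746), .ofNat (nat_lit 961259), .ofNat (nat_lit 839577), .ofNat (nat_lit 972090)⟩, ⟨.negSucc (nat_lit 12423), .ofNat (nat_lit 123532), .ofNat (nat_lit 0), .ofNat (nat_lit 166665), .negSucc (nat_lit 4612), .ofNat (nat_lit 127898), .ofNat (nat_lit 0), .ofNat (nat_lit 171231)⟩⟩, [⟨nat_lit 10, nat_lit 100, nat_lit 58, nat_lit 64, nat_lit 80968473⟩]⟩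
noncomputable def p098_l22 : Lf2 := ⟨nat_lit 0, nat_lit 10, [nat_lit 0, nat_lit 5, nat_lit 5, nat_lit 20], false, nat_lit 80, nat_lit 160, nat_lit 0, nat_lit 260, ⟨nat_lit 255, nat_lit 745, nat_lit 0, nat_lit 8, nat_lit 335, nat_lit 745, nat_lit 86, nat_lit 0, nat_lit 0, nat_lit 0, nat_lit 0, nat_lit 0, nat_lit 37456515, nat_lit 26476612, nat_lit 3066873, nat_lit 4371219, true, true⟩,
 nat_lit 0, nat_lit 0, nat_lit 2220, nat_lit 0, nat_lit 3597, nat_lit 1665, nat_lit 15, nat_lit 0, nat_lit 0, nat_lit 83, nat_lit 0, nat_lit 0, nat_lit 0, nat_lit 0, nat_lit 0, nat_lit 622000, nat_lit 0, nat_lit 0, [(nat_lit 18, [(nat_lit 1, nat_lit 205), (nat_lit 2, nat_lit 540)])],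
 ⟨p098_k7, nat_lit 0, nat_lit 0, nat_lit 121, nat_lit 0, nat_lit 0, [nat_lit 1723785334, nat_lit 2163086667, nat_lit 1756386000], [], [nat_lit 20670437054, nat_lit 21277615895, nat_lit 28553371052, nat_lit 29072411737, nat_lit 21454621022, nat_lit 22003702761, nat_lit 28504613874, nat_lit 28884341356], nat_lit 0, nat_lit 0, nat_lit 0, nat_lit 0, nat_lit 0, nat_lit 0, [], [nat_lit 6, nat_lit 40, nat_lit 40, nat_lit 80, nat_lit 3, nat_lit 249, nat_lit 40, nat_lit 8]⟩, ⟨p098_k7, nat_lit 0, nat_lit 0, nat_lit 691, nat_lit 0, nat_lit 1431193, [nat_lit 518160000, nat_lit 1195440000, nat_lit 1593750000], [], [nat_lit 9448362020, nat_lit 9511034615, nat_lit 10194134960, nat_lit 10264066755, nat_lit 8804226320, nat_lit 8845835150, nat_lit 9275664670, nat_lit 9305716137], nat_lit 1271250, nat_lit 1271250, nat_lit 1271250, nat_lit 1271250, nat_lit 0, nat_lit 1836250, [nat_lit 490000, nat_lit 1100000, nat_lit 1442500], [nat_lit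 6, nat_lit 40, nat_lit 40, nat_lit 80, nat_lit 3, nat_lit 297, nat_lit 75, nat_lit 11]⟩,
 ⟨nat_lit 4183, nat_lit 4473, ⟨.ofNat (nat_lit 697354), .ofNat (nat_lit 969270), .ofNat (nat_lit 708135), .ofNat (nat_lit 980052), .ofNat (nat_lit 696233), .ofNat (nat_lit 961259), .ofNat (nat_lit 707064), .ofNat (nat_lit 972090)⟩, ⟨.ofNat (nat_lit 123532), .ofNat (nat_lit 259489), .ofNat (nat_lit 166665), .ofNat (nat_lit 302621), .ofNat (nat_lit 127898), .ofNat (nat_lit 260409), .ofNat (nat_lit 171231), .ofNat (nat_lit 303743)⟩⟩, [⟨nat_lit 19, nat_lit 79, nat_lit 100, nat_lit 72, nat_lit 42423596⟩, ⟨nat_lit 10, nat_lit 100, nat_lit 6, nat_lit 98, nat_lit 27044901⟩]⟩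
noncomputable def p098_l23 : Lf2 := ⟨nat_lit 0, nat_lit 10, [nat_lit 0, nat_lit 5, nat_lit 5, nat_lit 20], false, nat_lit 0, nat_lit 80, nat_lit 0, nat_lit 160, ⟨nat_lit 432, nat_lit 568, nat_lit 0, nat_lit 8, nat_lit 333, nat_lit 568, nat_lit 30, nat_lit 0, nat_lit 0, nat_lit 0, nat_lit 0, nat_lit 0, nat_lit 39551338, nat_lit 27448662, nat_lit 0, nat_lit 3383711, true, true⟩,
 nat_lit 0, nat_lit 0, nat_lit 3826, nat_lit 0, nat_lit 3303, nat_lit 2869, nat_lit 727, nat_lit 0, nat_lit 0, nat_lit 169, nat_lit 0, nat_lit 0, nat_lit 0, nat_lit 0, nat_lit 0, nat_lit 443800, nat_lit 0, nat_lit 0, [(nat_lit 18, [(nat_lit 1, nat_lit 207), (nat_lit 2, nat_lit 361)])],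
 ⟨p098_k8, nat_lit 0, nat_lit 0, nat_lit 175, nat_lit 0, nat_lit 0, [nat_lit 1781611467, nat_lit 2809681334, nat_lit 2945890400], [], [nat_lit 23749991906, nat_lit 24031434853, nat_lit 31033738670, nat_lit 31293149971, nat_lit 22845372447, nat_lit 23110168730, nat_lit 29798637361, nat_lit 29990279011], nat_lit 0, nat_lit 0, nat_lit 0, nat_lit 0, nat_lit 0, nat_lit 0, [], [nat_lit 6, nat_lit 40, nat_lit 40, nat_lit 80, nat_lit 3, nat_lit 226, nat_lit 20, nat_lit 8]⟩, ⟨p098_k7, nat_lit 0, nat_lit 0, nat_lit 715, nat_lit 0, nat_lit 1480310, [nat_lit 877824000, nat_lit 2025216000, nat_lit 2700000000], [], [nat_lit 15486058996, nat_lit 15592643231, nat_lit 17217098860, nat_lit 17526507602, nat_lit 14249493264, nat_lit 14343380113, nat_lit 15439798028, nat_lit 15504346471], nat_lit 1271250, nat_lit 1271250, nat_lit 1271250, nat_lit 1271250, nat_lit 0, nat_lit 1100001, [nat_lit 490000, nat_lit 1100000, nat_lit 1442500],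 [nat_lit 6, nat_lit 40, nat_lit 40, nat_lit 80, nat_lit 3, nat_lit 290, nat_lit 40, nat_lit 10]⟩,
 ⟨nat_lit 4031, nat_lit 4184, ⟨.ofNat (nat_lit 696249), .ofNat (nat_lit 961274), .ofNat (nat_lit 707082), .ofNat (nat_lit 972107), .ofNat (nat_lit 695742), .ofNat (nat_lit 957308), .ofNat (nat_lit 706604), .ofNat (nat_lit 968171)⟩, ⟨.negSucc (nat_lit 4612), .ofNat (nat_lit 127898), .ofNat (nat_lit 0), .ofNat (nat_lit 171231), .negSucc (nat_lit 765), .ofNat (nat_lit 130015), .ofNat (nat_lit 0), .ofNat (nat_lit 173468)⟩⟩, []⟩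
noncomputable def p098_l24 : Lf2 := ⟨nat_lit 0, nat_lit 10, [nat_lit 0, nat_lit 5, nat_lit 5, nat_lit 20], false, nat_lit 0, nat_lit 80, nat_lit 0, nat_lit 160, ⟨nat_lit 411, nat_lit 589, nat_lit 0, nat_lit 8, nat_lit 332, nat_lit 589, nat_lit 31, nat_lit 0, nat_lit 0, nat_lit 0, nat_lit 0, nat_lit 0, nat_lit 39637211, nat_lit 27362789, nat_lit 0, nat_lit 3381353, true, true⟩,
 nat_lit 0, nat_lit 0, nat_lit 3637, nat_lit 0, nat_lit 3101, nat_lit 2727, nat_lit 889, nat_lit 0, nat_lit 0, nat_lit 156, nat_lit 0, nat_lit 0, nat_lit 0, nat_lit 0, nat_lit 0, nat_lit 235600, nat_lit 0, nat_lit 0, [(nat_lit 18, [(nat_lit 1, nat_lit 589)])],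
 ⟨p098_k11, nat_lit 0, nat_lit 0, nat_lit 176, nat_lit 0, nat_lit 0, [nat_lit 1658652534, nat_lit 3085134667, nat_lit 3723661200], [], [nat_lit 23418198044, nat_lit 23702589364, nat_lit 30710085657, nat_lit 30963524424, nat_lit 22783441292, nat_lit 23050519192, nat_lit 29513592778, nat_lit 29701483994], nat_lit 0, nat_lit 0, nat_lit 0, nat_lit 0, nat_lit 0, nat_lit 0, [], [nat_lit 6, nat_lit 40, nat_lit 40, nat_lit 80, nat_lit 3, nat_lit 226, nat_lit 20, nat_lit 8]⟩, ⟨p098_k7, nat_lit 0, nat_lit 0, nat_lit 735, nat_lit 0, nat_lit 1530748, [nat_lit 835152000, nat_lit 1926768000, nat_lit 2568750000], [], [nat_lit 14786945148, nat_lit 14888326713, nat_lit 16373065020, nat_lit 16667283171, nat_lit 13612533372, nat_lit 13688200290, nat_lit 14706105324, nat_lit 14767523298], nat_lit 1271250, nat_lit 1271250, nat_lit 1271250, nat_lit 1271250, nat_lit 0, nat_lit 1100001, [nat_lit 490000, nat_lit 1100000, nat_lit 1442500],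 [nat_lit 6, nat_lit 40, nat_lit 40, nat_lit 80, nat_lit 3, nat_lit 295, nat_lit 40, nat_lit 10]⟩,
 ⟨nat_lit 3872, nat_lit 4032, ⟨.ofNat (nat_lit 695741), .ofNat (nat_lit 957308), .ofNat (nat_lit 706604), .ofNat (nat_lit 968171), .ofNat (nat_lit 695274), .ofNat (nat_lit 953364), .ofNat (nat_lit 706170), .ofNat (nat_lit 964260)⟩, ⟨.negSucc (nat_lit 782), .ofNat (nat_lit 130015), .ofNat (nat_lit 0), .ofNat (nat_lit 173468), .ofNat (nat_lit 0), .ofNat (nat_lit 132088), .ofNat (nat_lit 0), .ofNat (nat_lit 175674)⟩⟩, []⟩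
noncomputable def p098_l25 : Lf2 := ⟨nat_lit 0, nat_lit 10, [nat_lit 0, nat_lit 5, nat_lit 5, nat_lit 20], false, nat_lit 0, nat_lit 80, nat_lit 160, nat_lit 260, ⟨nat_lit 902, nat_lit 98, nat_lit 0, nat_lit 8, nat_lit 328, nat_lit 98, nat_lit 30, nat_lit 0, nat_lit 0, nat_lit 0, nat_lit 0, nat_lit 0, nat_lit 40066026, nat_lit 26933974, nat_lit 0, nat_lit 3369069, true, false⟩,
 nat_lit 0, nat_lit 0, nat_lit 8286, nat_lit 0, nat_lit 3637, nat_lit 6214, nat_lit 2643, nat_lit 0, nat_lit 0, nat_lit 368, nat_lit 0, nat_lit 0, nat_lit 0, nat_lit 0, nat_lit 0, nat_lit 39200, nat_lit 0, nat_lit 0, [(nat_lit 18, [(nat_lit 1, nat_lit 98)])],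
 ⟨p098_k8, nat_lit 0, nat_lit 0, nat_lit 169, nat_lit 0, nat_lit 0, [nat_lit 1969881067, nat_lit 4421309334, nat_lit 5829658400], [], [nat_lit 21912125044, nat_lit 22237382415, nat_lit 30834901035, nat_lit 31119761721, nat_lit 20788450683, nat_lit 21064656740, nat_lit 28109632575, nat_lit 28348650767], nat_lit 0, nat_lit 0, nat_lit 0, nat_lit 0, nat_lit 0, nat_lit 0, [], [nat_lit 6, nat_lit 40, nat_lit 40, nat_lit 80, nat_lit 3, nat_lit 226, nat_lit 20, nat_lit 8]⟩, ⟨p098_k7, nat_lit 0, nat_lit 0, nat_lit 626, nat_lit 0, nat_lit 1480310, [nat_lit 1832864000, nat_lit 4228576000, nat_lit 5637500000], [], [nat_lit 26648867480, nat_lit 26890837476, nat_lit 29350153789, nat_lit 29526458892, nat_lit 27241675418, nat_lit 27454025189, nat_lit 29572322162, nat_lit 30072417851], nat_lit 1271250, nat_lit 1271250, nat_lit 1271250, nat_lit 1271250, nat_lit 1100001, nat_lit 1956250, [nat_lit 490000, nat_lit 1100000, nat_lit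 1442500], [nat_lit 6, nat_lit 40, nat_lit 40, nat_lit 80, nat_lit 3, nat_lit 289, nat_lit 75, nat_lit 9]⟩,
 ⟨nat_lit 4031, nat_lit 4184, ⟨.ofNat (nat_lit 696249), .ofNat (nat_lit 934772), .ofNat (nat_lit 707082), .ofNat (nat_lit 945604), .ofNat (nat_lit 695742), .ofNat (nat_lit 931151), .ofNat (nat_lit 706604), .ofNat (nat_lit 942014)⟩, ⟨.negSucc (nat_lit 4612), .ofNat (nat_lit 127898), .ofNat (nat_lit 0), .ofNat (nat_lit 171231), .negSucc (nat_lit 765), .ofNat (nat_lit 130015), .ofNat (nat_lit 0), .ofNat (nat_lit 173468)⟩⟩, [⟨nat_lit 7, nat_lit 100, nat_lit 79, nat_lit 72, nat_lit 382186264⟩]⟩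
noncomputable def p098_l26 : Lf2 := ⟨nat_lit 0, nat_lit 10, [nat_lit 0, nat_lit 5, nat_lit 5, nat_lit 20], false, nat_lit 0, nat_lit 80, nat_lit 160, nat_lit 260, ⟨nat_lit 539, nat_lit 461, nat_lit 0, nat_lit 8, nat_lit 327, nat_lit 461, nat_lit 31, nat_lit 0, nat_lit 0, nat_lit 0, nat_lit 0, nat_lit 0, nat_lit 40145926, nat_lit 26854074, nat_lit 0, nat_lit 3366687, true, false⟩,
 nat_lit 0, nat_lit 0, nat_lit 4889, nat_lit 0, nat_lit 3325, nat_lit 3666, nat_lit 1377, nat_lit 0, nat_lit 0, nat_lit 205, nat_lit 0, nat_lit 0, nat_lit 0, nat_lit 0, nat_lit 0, nat_lit 184400, nat_lit 0, nat_lit 0, [(nat_lit 18, [(nat_lit 1, nat_lit 461)])],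
 ⟨p098_k11, nat_lit 0, nat_lit 0, nat_lit 170, nat_lit 0, nat_lit 0, [nat_lit 1739787467, nat_lit 3433465334, nat_lit 4272678800], [], [nat_lit 21895070448, nat_lit 22205546493, nat_lit 30266984600, nat_lit 30541627660, nat_lit 20959307260, nat_lit 21224885643, nat_lit 27930856726, nat_lit 28161762481], nat_lit 0, nat_lit 0, nat_lit 0, nat_lit 0, nat_lit 0, nat_lit 0, [], [nat_lit 6, nat_lit 40, nat_lit 40, nat_lit 80, nat_lit 3, nat_lit 226, nat_lit 20, nat_lit 8]⟩, ⟨p098_k7, nat_lit 0, nat_lit 0, nat_lit 646, nat_lit 0, nat_lit 1530748, [nat_lit 1095248000, nat_lit 2526832000, nat_lit 3368750000], [], [nat_lit 16316785800, nat_lit 16450501882, nat_lit 17815292456, nat_lit 17920546983, nat_lit 16572419886, nat_lit 16691134293, nat_lit 17849364138, nat_lit 17933475856], nat_lit 1271250, nat_lit 1271250, nat_lit 1271250, nat_lit 1271250, nat_lit 1100001, nat_lit 1956250, [nat_lit 490000, nat_lit 1100000, nat_lit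 1442500], [nat_lit 6, nat_lit 40, nat_lit 40, nat_lit 80, nat_lit 3, nat_lit 289, nat_lit 75, nat_lit 9]⟩,
 ⟨nat_lit 3872, nat_lit 4032, ⟨.ofNat (nat_lit 695741), .ofNat (nat_lit 931152), .ofNat (nat_lit 706604), .ofNat (nat_lit 942014), .ofNat (nat_lit 695274), .ofNat (nat_lit 927555), .ofNat (nat_lit 706170), .ofNat (nat_lit 938451)⟩, ⟨.negSucc (nat_lit 782), .ofNat (nat_lit 130015), .ofNat (nat_lit 0), .ofNat (nat_lit 173468), .ofNat (nat_lit 0), .ofNat (nat_lit 132088), .ofNat (nat_lit 0), .ofNat (nat_lit 175674)⟩⟩, [⟨nat_lit 7, nat_lit 100, nat_lit 79, nat_lit 72, nat_lit 137462332⟩, ⟨nat_lit 10, nat_lit 100, nat_lit 83, nat_lit 60, nat_lit 71313333⟩]⟩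
noncomputable def p098_l27 : Lf2 := ⟨nat_lit 0, nat_lit 10, [nat_lit 0, nat_lit 5, nat_lit 5, nat_lit 20], false, nat_lit 80, nat_lit 160, nat_lit 0, nat_lit 160, ⟨nat_lit 226, nat_lit 774, nat_lit 0, nat_lit 8, nat_lit 333, nat_lit 774, nat_lit 87, nat_lit 0, nat_lit 0, nat_lit 0, nat_lit 0, nat_lit 0, nat_lit 37576447, nat_lit 26291766, nat_lit 3131787, nat_lit 4381076, true, true⟩,
 nat_lit 0, nat_lit 0, nat_lit 2003, nat_lit 0, nat_lit 3586, nat_lit 1501, nat_lit 115, nat_lit 0, nat_lit 0, nat_lit 76, nat_lit 0, nat_lit 0, nat_lit 0, nat_lit 0, nat_lit 0, nat_lit 460800, nat_lit 0, nat_lit 0, [(nat_lit 18, [(nat_lit 1, nat_lit 522), (nat_lit 2, nat_lit 252)])],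
 ⟨p098_k8, nat_lit 0, nat_lit 0, nat_lit 124, nat_lit 0, nat_lit 0, [nat_lit 1617928001, nat_lit 2349512000, nat_lit 2324351200], [], [nat_lit 21262074219, nat_lit 21868387877, nat_lit 29052692906, nat_lit 29571105436, nat_lit 22057009921, nat_lit 22605937613, nat_lit 28967483223, nat_lit 29347168625], nat_lit 0, nat_lit 0, nat_lit 0, nat_lit 0, nat_lit 0, nat_lit 0, [], [nat_lit 6, nat_lit 40, nat_lit 40, nat_lit 80, nat_lit 3, nat_lit 249, nat_lit 40, nat_lit 8]⟩, ⟨p098_k7, nat_lit 0, nat_lit 0, nat_lit 735, nat_lit 0, nat_lit 1530748, [nat_lit 459232000, nat_lit 1059488000, nat_lit 1412500000], [], [nat_lit 8200264852, nat_lit 8256024943, nat_lit 9007339484, nat_lit 9169211296, nat_lit 7549028536, nat_lit 7594616798, nat_lit 8080323064, nat_lit 8111355564], nat_lit 1271250, nat_lit 1271250, nat_lit 1271250, nat_lit 1271250, nat_lit 0, nat_lit 1100001, [nat_lit 490000, nat_lit 1100000, nat_lit 1442500], [nat_lit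 6, nat_lit 40, nat_lit 40, nat_lit 80, nat_lit 3, nat_lit 295, nat_lit 40, nat_lit 10]⟩,
 ⟨nat_lit 3872, nat_lit 4184, ⟨.ofNat (nat_lit 696229), .ofNat (nat_lit 961264), .ofNat (nat_lit 707060), .ofNat (nat_lit 972095), .ofNat (nat_lit 695254), .ofNat (nat_lit 953353), .ofNat (nat_lit 706149), .ofNat (nat_lit 964247)⟩, ⟨.ofNat (nat_lit 127898), .ofNat (nat_lit 260409), .ofNat (nat_lit 171231), .ofNat (nat_lit 303743), .ofNat (nat_lit 132088), .ofNat (nat_lit 261131), .ofNat (nat_lit 175674), .ofNat (nat_lit 304717)⟩⟩, [⟨nat_lit 13, nat_lit 95, nat_lit 8, nat_lit 100, nat_lit 43156186⟩]⟩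
noncomputable def p098_l28 : Lf2 := ⟨nat_lit 0, nat_lit 10, [nat_lit 0, nat_lit 5, nat_lit 5, nat_lit 20], false, nat_lit 80, nat_lit 160, nat_lit 160, nat_lit 260, ⟨nat_lit 225, nat_lit 775, nat_lit 0, nat_lit 8, nat_lit 333, nat_lit 775, nat_lit 87, nat_lit 0, nat_lit 0, nat_lit 0, nat_lit 0, nat_lit 0, nat_lit 37576447, nat_lit 26291766, nat_lit 3131787, nat_lit 4381076, true, true⟩,
 nat_lit 0, nat_lit 0, nat_lit 2006, nat_lit 0, nat_lit 3584, nat_lit 1504, nat_lit 115, nat_lit 0, nat_lit 0, nat_lit 78, nat_lit 0, nat_lit 0, nat_lit 0, nat_lit 0, nat_lit 0, nat_lit 460000, nat_lit 0, nat_lit 0, [(nat_lit 18, [(nat_lit 1, nat_lit 525), (nat_lit 2, nat_lit 250)])],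
 ⟨p098_k8, nat_lit 0, nat_lit 0, nat_lit 124, nat_lit 0, nat_lit 0, [nat_lit 1616686667, nat_lit 2348633334, nat_lit 2324870000], [], [nat_lit 21263960859, nat_lit 21870117211, nat_lit 29049107664, nat_lit 29567405984, nat_lit 22058069679, nat_lit 22606860727, nat_lit 28967135567, nat_lit 29347658544], nat_lit 0, nat_lit 0, nat_lit 0, nat_lit 0, nat_lit 0, nat_lit 0, [], [nat_lit 6, nat_lit 40, nat_lit 40, nat_lit 80, nat_lit 3, nat_lit 249, nat_lit 40, nat_lit 8]⟩, ⟨p098_k7, nat_lit 0, nat_lit 0, nat_lit 646, nat_lit 0, nat_lit 1530748, [nat_lit 457200000, nat_lit 1054800000, nat_lit 1406250000], [], [nat_lit 7031900544, nat_lit 7087495660, nat_lit 7692613760, nat_lit 7730994018, nat_lit 7137965306, nat_lit 7183271115, nat_lit 7691898327, nat_lit 7725060300], nat_lit 1271250, nat_lit 1271250, nat_lit 1271250, nat_lit 1271250, nat_lit 1100001, nat_lit 1956250, [nat_lit 490000, nat_lit 1100000, nat_lit 1442500],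 [nat_lit 6, nat_lit 40, nat_lit 40, nat_lit 80, nat_lit 3, nat_lit 289, nat_lit 75, nat_lit 9]⟩,
 ⟨nat_lit 3872, nat_lit 4184, ⟨.ofNat (nat_lit 696229), .ofNat (nat_lit 961264), .ofNat (nat_lit 707060), .ofNat (nat_lit 972095), .ofNat (nat_lit 695254), .ofNat (nat_lit 953353), .ofNat (nat_lit 706149), .ofNat (nat_lit 964247)⟩, ⟨.ofNat (nat_lit 127898), .ofNat (nat_lit 260409), .ofNat (nat_lit 171231), .ofNat (nat_lit 303743), .ofNat (nat_lit 132088), .ofNat (nat_lit 261131), .ofNat (nat_lit 175674), .ofNat (nat_lit 304717)⟩⟩, [⟨nat_lit 13, nat_lit 95, nat_lit 8, nat_lit 100, nat_lit 44358290⟩, ⟨nat_lit 7, nat_lit 100, nat_lit 79, nat_lit 72, nat_lit 82476837⟩]⟩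
noncomputable def p098_l29 : Lf2 := ⟨nat_lit 0, nat_lit 5, [nat_lit 4, nat_lit 5, nat_lit 5, nat_lit 20], false, nat_lit 0, nat_lit 80, nat_lit 0, nat_lit 260, ⟨nat_lit 213, nat_lit 787, nat_lit 0, nat_lit 8, nat_lit 330, nat_lit 787, nat_lit 31, nat_lit 0, nat_lit 0, nat_lit 0, nat_lit 0, nat_lit 0, nat_lit 39870980, nat_lit 27129020, nat_lit 0, nat_lit 3374762, true, true⟩,
 nat_lit 0, nat_lit 0, nat_lit 1857, nat_lit 0, nat_lit 3015, nat_lit 1392, nat_lit 0, nat_lit 0, nat_lit 0, nat_lit 76, nat_lit 0, nat_lit 0, nat_lit 0, nat_lit 0, nat_lit 0, nat_lit 640600, nat_lit 0, nat_lit 0, [(nat_lit 21, [(nat_lit 1, nat_lit 244), (nat_lit 2, nat_lit 543)])],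
 ⟨p098_k12, nat_lit 0, nat_lit 0, nat_lit 164, nat_lit 0, nat_lit 0, [nat_lit 1524336400, nat_lit 1238657200], [], [nat_lit 23263886700, nat_lit 23825820300, nat_lit 30712746360, nat_lit 31214538370, nat_lit 22665564120, nat_lit 23193459120, nat_lit 29254041150, nat_lit 29626630145], nat_lit 0, nat_lit 0, nat_lit 0, nat_lit 0, nat_lit 0, nat_lit 0, [], [nat_lit 24, nat_lit 40, nat_lit 40, nat_lit 80, nat_lit 33, nat_lit 226, nat_lit 20, nat_lit 9]⟩, ⟨p098_k13, nat_lit 0, nat_lit 0, nat_lit 745, nat_lit 0, nat_lit 1555842, [nat_lit 432816000, nat_lit 998544000, nat_lit 1331250000], [], [nat_lit 7789290260, nat_lit 7814677667, nat_lit 8462468976, nat_lit 8501433350, nat_lit 7285163444, nat_lit 7303956549, nat_lit 7739325774, nat_lit 7751908812], nat_lit 1271250, nat_lit 1271250, nat_lit 1271250, nat_lit 1271250, nat_lit 0, nat_lit 1836250, [nat_lit 490000, nat_lit 1100000, nat_lit 1442500], [nat_lit 6, nat_lit 40,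 nat_lit 40, nat_lit 80, nat_lit 3, nat_lit 310, nat_lit 75, nat_lit 11]⟩,
 ⟨nat_lit 3535, nat_lit 3873, ⟨.ofNat (nat_lit 695250), .ofNat (nat_lit 953359), .ofNat (nat_lit 700697), .ofNat (nat_lit 958806), .ofNat (nat_lit 694446), .ofNat (nat_lit 945515), .ofNat (nat_lit 699932), .ofNat (nat_lit 951002)⟩, ⟨.ofNat (nat_lit 0), .ofNat (nat_lit 132088), .ofNat (nat_lit 0), .ofNat (nat_lit 175674), .ofNat (nat_lit 0), .ofNat (nat_lit 136093), .ofNat (nat_lit 0), .ofNat (nat_lit 179999)⟩⟩, [⟨nat_lit 10, nat_lit 100, nat_lit 58, nat_lit 64, nat_lit 60478709⟩]⟩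
noncomputable def p098_l30 : Lf2 := ⟨nat_lit 0, nat_lit 5, [nat_lit 4, nat_lit 5, nat_lit 5, nat_lit 20], false, nat_lit 0, nat_lit 80, nat_lit 0, nat_lit 252, ⟨nat_lit 1000, nat_lit 0, nat_lit 0, nat_lit 0, nat_lit 0, nat_lit 0, nat_lit 0, nat_lit 0, nat_lit 0, nat_lit 0, nat_lit 0, nat_lit 0, nat_lit 0, nat_lit 0, nat_lit 0, nat_lit 0, false, false⟩,
 nat_lit 0, nat_lit 0, nat_lit 6648, nat_lit 0, nat_lit 4495, nat_lit 5083, nat_lit 446, nat_lit 0, nat_lit 0, nat_lit 2292, nat_lit 0, nat_lit 0, nat_lit 0, nat_lit 0, nat_lit 0, nat_lit 0, nat_lit 0, nat_lit 0, [],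
 ⟨p098_k12, nat_lit 0, nat_lit 0, nat_lit 164, nat_lit 0, nat_lit 0, [nat_lit 2032000001, nat_lit 4688000000], [], [nat_lit 24641217650, nat_lit 25459592550, nat_lit 35028461880, nat_lit 35617772210, nat_lit 22794713513, nat_lit 23430352513, nat_lit 31252506370, nat_lit 31822827345], nat_lit 0, nat_lit 0, nat_lit 0, nat_lit 0, nat_lit 0, nat_lit 0, [], [nat_lit 24, nat_lit 40, nat_lit 40, nat_lit 80, nat_lit 33, nat_lit 226, nat_lit 20, nat_lit 9]⟩, ⟨p098_k14, nat_lit 0, nat_lit 0, nat_lit 669, nat_lit 0, nat_lit 1548145, [nat_lit 2032000000, nat_lit 4688000000], [], [nat_lit 32217236527, nat_lit 32367502673, nat_lit 36017654632, nat_lit 36123489884, nat_lit 31973835276, nat_lit 32082383774, nat_lit 34672473225, nat_lit 34748291975], nat_lit 1271250, nat_lit 1271250, nat_lit 1271250, nat_lit 1271250, nat_lit 0, nat_lit 1779750, [nat_lit 490000, nat_lit 1100000], [nat_lit 24, nat_lit 40, nat_lit 40, nat_lit 80,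 nat_lit 33, nat_lit 290, nat_lit 75, nat_lit 12]⟩,
 zbF0, [⟨nat_lit 19, nat_lit 77, nat_lit 100, nat_lit 72, nat_lit 255463579⟩]⟩
noncomputable def p098_l31 : Lf2 := ⟨nat_lit 0, nat_lit 10, [nat_lit 0, nat_lit 5, nat_lit 5, nat_lit 20], false, nat_lit 0, nat_lit 80, nat_lit 0, nat_lit 260, ⟨nat_lit 334, nat_lit 666, nat_lit 0, nat_lit 8, nat_lit 330, nat_lit 666, nat_lit 31, nat_lit 0, nat_lit 0, nat_lit 0, nat_lit 0, nat_lit 0, nat_lit 39870980, nat_lit 27129020, nat_lit 0, nat_lit 3374762, true, true⟩,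
 nat_lit 0, nat_lit 0, nat_lit 2829, nat_lit 0, nat_lit 3116, nat_lit 2121, nat_lit 400, nat_lit 0, nat_lit 0, nat_lit 128, nat_lit 0, nat_lit 0, nat_lit 0, nat_lit 0, nat_lit 0, nat_lit 266400, nat_lit 0, nat_lit 0, [(nat_lit 21, [(nat_lit 1, nat_lit 666)])],
 ⟨p098_k9, nat_lit 0, nat_lit 0, nat_lit 178, nat_lit 0, nat_lit 0, [nat_lit 1581251200, nat_lit 2559996801, nat_lit 3081172000], [], [nat_lit 23797553849, nat_lit 24314174341, nat_lit 31007264784, nat_lit 31515029328, nat_lit 22956323249, nat_lit 23444246969, nat_lit 29570863001, nat_lit 29947202429], nat_lit 0, nat_lit 0, nat_lit 0, nat_lit 0, nat_lit 0, nat_lit 0, [], [nat_lit 6, nat_lit 40, nat_lit 40, nat_lit 80, nat_lit 3, nat_lit 226, nat_lit 20, nat_lit 8]⟩, ⟨p098_k7, nat_lit 0, nat_lit 0, nat_lit 628, nat_lit 0, nat_lit 1281887, [nat_lit 678688000, nat_lit 1565792000, nat_lit 2087500000], [], [nat_lit 11910612276, nat_lit 11959944010, nat_lit 13141890884,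 nat_lit 13179276507, nat_lit 11195738072, nat_lit 11229191157, nat_lit 12095390526, nat_lit 12120196974], nat_lit 1271250, nat_lit 1271250, nat_lit 1271250, nat_lit 1271250, nat_lit 0, nat_lit 1836250, [nat_lit 490000, nat_lit 1100000, nat_lit 1442500], [nat_lit 6, nat_lit 40, nat_lit 40, nat_lit 80, nat_lit 3, nat_lit 289, nat_lit 75, nat_lit 10]⟩,
 ⟨nat_lit 3535, nat_lit 3873, ⟨.ofNat (nat_lit 695250), .ofNat (nat_lit 953359), .ofNat (nat_lit 700697), .ofNat (nat_lit 958806), .ofNat (nat_lit 694446), .ofNat (nat_lit 945515), .ofNat (nat_lit 699932), .ofNat (nat_lit 951002)⟩, ⟨.ofNat (nat_lit 0), .ofNat (nat_lit 132088), .ofNat (nat_lit 0), .ofNat (nat_lit 175674), .ofNat (nat_lit 0), .ofNat (nat_lit 136093), .ofNat (nat_lit 0), .ofNat (nat_lit 179999)⟩⟩, [⟨nat_lit 19, nat_lit 80, nat_lit 100, nat_lit 72, nat_lit 35539594⟩, ⟨nat_lit 22, nat_lit 80, nat_lit 100, nat_lit 60, nat_lit 33625140⟩]⟩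
noncomputable def p098_l32 : Lf2 := ⟨nat_lit 0, nat_lit 10, [nat_lit 0, nat_lit 5, nat_lit 5, nat_lit 20], false, nat_lit 0, nat_lit 80, nat_lit 0, nat_lit 252, ⟨nat_lit 1000, nat_lit 0, nat_lit 0, nat_lit 0, nat_lit 0, nat_lit 0, nat_lit 0, nat_lit 0, nat_lit 0, nat_lit 0, nat_lit 0, nat_lit 0, nat_lit 0, nat_lit 0, nat_lit 0, nat_lit 0, false, false⟩,
 nat_lit 0, nat_lit 0, nat_lit 7257, nat_lit 0, nat_lit 4563, nat_lit 5549, nat_lit 723, nat_lit 0, nat_lit 0, nat_lit 1481, nat_lit 0, nat_lit 0, nat_lit 0, nat_lit 0, nat_lit 0, nat_lit 0, nat_lit 0, nat_lit 0, [],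
 ⟨p098_k9, nat_lit 0, nat_lit 0, nat_lit 178, nat_lit 0, nat_lit 0, [nat_lit 2032000001, nat_lit 4688000000, nat_lit 6250000000], [], [nat_lit 24777021836, nat_lit 25429888940, nat_lit 35226751512, nat_lit 35820082954, nat_lit 22923312265, nat_lit 23500841925, nat_lit 31378287738, nat_lit 31952491853], nat_lit 0, nat_lit 0, nat_lit 0, nat_lit 0, nat_lit 0, nat_lit 0, [], [nat_lit 6, nat_lit 40, nat_lit 40, nat_lit 80, nat_lit 3, nat_lit 226, nat_lit 20, nat_lit 8]⟩, ⟨p098_k15, nat_lit 0, nat_lit 0, nat_lit 628, nat_lit 0, nat_lit 1282352, [nat_lit 2032000000, nat_lit 4688000000, nat_lit 6250000000], [], [nat_lit 33636475354, nat_lit 33787065844, nat_lit 37352815083, nat_lit 37455458450, nat_lit 32460236688, nat_lit 32567215672, nat_lit 35035618401, nat_lit 35107275685], nat_lit 1271250, nat_lit 1271250, nat_lit 1271250, nat_lit 1271250, nat_lit 0, nat_lit 1779750, [nat_lit 490000, nat_lit 1100000, nat_lit 1442500],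 [nat_lit 6, nat_lit 40, nat_lit 40, nat_lit 80, nat_lit 3, nat_lit 289, nat_lit 75, nat_lit 10]⟩,
 zbF0, [⟨nat_lit 19, nat_lit 77, nat_lit 100, nat_lit 72, nat_lit 220646284⟩]⟩
noncomputable def p098_l33 : Lf2 := ⟨nat_lit 0, nat_lit 10, [nat_lit 0, nat_lit 5, nat_lit 5, nat_lit 20], false, nat_lit 0, nat_lit 80, nat_lit 0, nat_lit 260, ⟨nat_lit 130, nat_lit 870, nat_lit 0, nat_lit 8, nat_lit 305, nat_lit 870, nat_lit 32, nat_lit 0, nat_lit 0, nat_lit 0, nat_lit 0, nat_lit 0, nat_lit 42407447, nat_lit 24592553, nat_lit 0, nat_lit 3286842, true, false⟩,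
 nat_lit 0, nat_lit 0, nat_lit 1480, nat_lit 0, nat_lit 2787, nat_lit 1110, nat_lit 296, nat_lit 0, nat_lit 0, nat_lit 0, nat_lit 0, nat_lit 0, nat_lit 0, nat_lit 0, nat_lit 0, nat_lit 348000, nat_lit 0, nat_lit 0, [(nat_lit 21, [(nat_lit 1, nat_lit 870)])],
 ⟨p098_k16, nat_lit 0, nat_lit 0, nat_lit 126, nat_lit 0, nat_lit 0, [nat_lit 1443184001, nat_lit 1900520000], [], [nat_lit 23028350404, nat_lit 23552778301, nat_lit 25960817628, nat_lit 26456634300, nat_lit 22401972127, nat_lit 22896310541, nat_lit 25191975126, nat_lit 25623079286], nat_lit 0, nat_lit 0, nat_lit 0, nat_lit 0, nat_lit 0, nat_lit 0, [], [nat_lit 24, nat_lit 40, nat_lit 40, nat_lit 80, nat_lit 33, nat_lit 226, nat_lit 20, nat_lit 9]⟩, ⟨p098_k10, nat_lit 0, nat_lit 0, nat_lit 825, nat_lit 0, nat_lit 1744724, [nat_lit 264160000, nat_lit 812500000], [], [nat_lit 4585009720, nat_lit 4604720400, nat_lit 4636651960, nat_lit 4781153520, nat_lit 3877732060,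 nat_lit 3888026938, nat_lit 3871932650, nat_lit 3908518190], nat_lit 1271250, nat_lit 1271250, nat_lit 1271250, nat_lit 1271250, nat_lit 0, nat_lit 1836250, [nat_lit 490000, nat_lit 1427500], [nat_lit 69, nat_lit 40, nat_lit 40, nat_lit 80, nat_lit 64, nat_lit 320, nat_lit 75, nat_lit 11]⟩,
 ⟨nat_lit 3162, nat_lit 3536, ⟨.ofNat (nat_lit 694437), .ofNat (nat_lit 819981), .ofNat (nat_lit 705409), .ofNat (nat_lit 830953), .ofNat (nat_lit 693843), .ofNat (nat_lit 815770), .ofNat (nat_lit 704916), .ofNat (nat_lit 826843)⟩, ⟨.ofNat (nat_lit 0), .ofNat (nat_lit 136093), .ofNat (nat_lit 0), .ofNat (nat_lit 179999), .ofNat (nat_lit 0), .ofNat (nat_lit 139899), .ofNat (nat_lit 0), .ofNat (nat_lit 184209)⟩⟩, [⟨nat_lit 22, nat_lit 94, nat_lit 100, nat_lit 62, nat_lit 9517365⟩]⟩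
noncomputable def p098_l34 : Lf2 := ⟨nat_lit 0, nat_lit 10, [nat_lit 0, nat_lit 5, nat_lit 5, nat_lit 20], false, nat_lit 0, nat_lit 80, nat_lit 0, nat_lit 260, ⟨nat_lit 214, nat_lit 786, nat_lit 0, nat_lit 8, nat_lit 342, nat_lit 786, nat_lit 32, nat_lit 0, nat_lit 0, nat_lit 0, nat_lit 0, nat_lit 0, nat_lit 38731365, nat_lit 28268635, nat_lit 0, nat_lit 3404520, true, true⟩,
 nat_lit 0, nat_lit 0, nat_lit 2002, nat_lit 0, nat_lit 2904, nat_lit 1501, nat_lit 304, nat_lit 0, nat_lit 0, nat_lit 65, nat_lit 0, nat_lit 0, nat_lit 0, nat_lit 0, nat_lit 0, nat_lit 314400, nat_lit 0, nat_lit 0, [(nat_lit 21, [(nat_lit 1, nat_lit 786)])],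
 ⟨p098_k16, nat_lit 0, nat_lit 0, nat_lit 149, nat_lit 0, nat_lit 0, [nat_lit 1500035200, nat_lit 2169656000], [], [nat_lit 26361483944, nat_lit 26815133152, nat_lit 28420680216, nat_lit 28982117088, nat_lit 25513633200, nat_lit 25943220224, nat_lit 27121890464, nat_lit 27519870672], nat_lit 0, nat_lit 0, nat_lit 0, nat_lit 0, nat_lit 0, nat_lit 0, [], [nat_lit 24, nat_lit 40, nat_lit 40, nat_lit 80, nat_lit 33, nat_lit 226, nat_lit 20, nat_lit 9]⟩, ⟨p098_k7, nat_lit 0, nat_lit 0, nat_lit 820, nat_lit 0, nat_lit 1744724, [nat_lit 434848000, nat_lit 1003232000, nat_lit 1337500000], [], [nat_lit 7850872752, nat_lit 7886050000, nat_lit 7991581744, nat_lit 8022448950, nat_lit 7070671810, nat_lit 7092020432, nat_lit 7156066297, nat_lit 7174185523], nat_lit 1271250, nat_lit 1271250, nat_lit 1271250, nat_lit 1271250, nat_lit 0, nat_lit 1836250, [nat_lit 490000, nat_lit 1100000, nat_lit 1442500], [nat_lit 6, nat_lit 40,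 nat_lit 40, nat_lit 80, nat_lit 3, nat_lit 324, nat_lit 75, nat_lit 11]⟩,
 ⟨nat_lit 3162, nat_lit 3536, ⟨.ofNat (nat_lit 819981), .ofNat (nat_lit 882753), .ofNat (nat_lit 830953), .ofNat (nat_lit 893725), .ofNat (nat_lit 815770), .ofNat (nat_lit 876734), .ofNat (nat_lit 826843), .ofNat (nat_lit 887808)⟩, ⟨.ofNat (nat_lit 0), .ofNat (nat_lit 136093), .ofNat (nat_lit 0), .ofNat (nat_lit 179999), .ofNat (nat_lit 0), .ofNat (nat_lit 139899), .ofNat (nat_lit 0), .ofNat (nat_lit 184209)⟩⟩, [⟨nat_lit 10, nat_lit 100, nat_lit 58, nat_lit 64, nat_lit 43515562⟩, ⟨nat_lit 22, nat_lit 72, nat_lit 100, nat_lit 61, nat_lit 9267800⟩]⟩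
noncomputable def p098_l35 : Lf2 := ⟨nat_lit 0, nat_lit 10, [nat_lit 0, nat_lit 5, nat_lit 5, nat_lit 20], false, nat_lit 0, nat_lit 80, nat_lit 0, nat_lit 200, ⟨nat_lit 183, nat_lit 817, nat_lit 0, nat_lit 9, nat_lit 365, nat_lit 817, nat_lit 32, nat_lit 0, nat_lit 0, nat_lit 0, nat_lit 0, nat_lit 0, nat_lit 36525045, nat_lit 30474955, nat_lit 0, nat_lit 3445322, true, true⟩,
 nat_lit 0, nat_lit 0, nat_lit 1628, nat_lit 0, nat_lit 2939, nat_lit 1220, nat_lit 144, nat_lit 0, nat_lit 0, nat_lit 61, nat_lit 0, nat_lit 0, nat_lit 0, nat_lit 0, nat_lit 0, nat_lit 326800, nat_lit 0, nat_lit 0, [(nat_lit 21, [(nat_lit 1, nat_lit 817)])],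
 ⟨p098_k16, nat_lit 0, nat_lit 0, nat_lit 166, nat_lit 0, nat_lit 0, [nat_lit 1479054400, nat_lit 2070332000], [], [nat_lit 28998325013, nat_lit 29413518040, nat_lit 30988426362, nat_lit 31485724188, nat_lit 28144996933, nat_lit 28552787944, nat_lit 29918470237, nat_lit 30288237124], nat_lit 0, nat_lit 0, nat_lit 0, nat_lit 0, nat_lit 0, nat_lit 0, [], [nat_lit 24, nat_lit 40, nat_lit 40, nat_lit 80, nat_lit 33, nat_lit 226, nat_lit 20, nat_lit 8]⟩, ⟨p098_k7, nat_lit 0, nat_lit 0, nat_lit 804, nat_lit 0, nat_lit 1710749, [nat_lit 371856000, nat_lit 857904000, nat_lit 1143750000], [], [nat_lit 7228981900, nat_lit 7242281181, nat_lit 7371939060, nat_lit 7384493348, nat_lit 6604540760, nat_lit 6615137833, nat_lit 6729197188, nat_lit 6739064243], nat_lit 1271250, nat_lit 1271250, nat_lit 1271250, nat_lit 1271250, nat_lit 0, nat_lit 1412500, [nat_lit 490000, nat_lit 1100000, nat_lit 1442500], [nat_lit 6, nat_lit 40,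 nat_lit 40, nat_lit 80, nat_lit 3, nat_lit 317, nat_lit 50, nat_lit 11]⟩,
 ⟨nat_lit 3162, nat_lit 3536, ⟨.ofNat (nat_lit 882753), .ofNat (nat_lit 945521), .ofNat (nat_lit 888239), .ofNat (nat_lit 951009), .ofNat (nat_lit 876734), .ofNat (nat_lit 937695), .ofNat (nat_lit 882271), .ofNat (nat_lit 943233)⟩, ⟨.ofNat (nat_lit 0), .ofNat (nat_lit 136093), .ofNat (nat_lit 0), .ofNat (nat_lit 179999), .ofNat (nat_lit 0), .ofNat (nat_lit 139899), .ofNat (nat_lit 0), .ofNat (nat_lit 184209)⟩⟩, [⟨nat_lit 13, nat_lit 75, nat_lit 35, nat_lit 100, nat_lit 145210878⟩, ⟨nat_lit 10, nat_lit 100, nat_lit 45, nat_lit 69, nat_lit 39898299⟩]⟩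
noncomputable def p098_l36 : Lf2 := ⟨nat_lit 0, nat_lit 10, [nat_lit 0, nat_lit 5, nat_lit 5, nat_lit 20], false, nat_lit 0, nat_lit 80, nat_lit 0, nat_lit 200, ⟨nat_lit 1000, nat_lit 0, nat_lit 0, nat_lit 0, nat_lit 0, nat_lit 0, nat_lit 0, nat_lit 0, nat_lit 0, nat_lit 0, nat_lit 0, nat_lit 0, nat_lit 0, nat_lit 0, nat_lit 0, nat_lit 0, false, false⟩,
 nat_lit 0, nat_lit 0, nat_lit 7351, nat_lit 0, nat_lit 4069, nat_lit 5621, nat_lit 617, nat_lit 0, nat_lit 0, nat_lit 2130, nat_lit 0, nat_lit 0, nat_lit 0, nat_lit 0, nat_lit 0, nat_lit 0, nat_lit 0, nat_lit 0, [],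
 ⟨p098_k16, nat_lit 0, nat_lit 0, nat_lit 166, nat_lit 0, nat_lit 0, [nat_lit 2032000001, nat_lit 4688000000], [], [nat_lit 31468354001, nat_lit 32117215968, nat_lit 34350354902, nat_lit 34914474148, nat_lit 28433593030, nat_lit 28876164535, nat_lit 31010517339, nat_lit 31556511584], nat_lit 0, nat_lit 0, nat_lit 0, nat_lit 0, nat_lit 0, nat_lit 0, [], [nat_lit 24, nat_lit 40, nat_lit 40, nat_lit 80, nat_lit 33, nat_lit 226, nat_lit 20, nat_lit 8]⟩, ⟨p098_k15, nat_lit 0, nat_lit 0, nat_lit 797, nat_lit 0, nat_lit 1698312, [nat_lit 2032000000, nat_lit 4688000000, nat_lit 6250000000], [], [nat_lit 34485076629, nat_lit 34570948605, nat_lit 37328062083, nat_lit 37656009690, nat_lit 32373917984, nat_lit 32439525294, nat_lit 33044380278, nat_lit 33102487399], nat_lit 1271250, nat_lit 1271250, nat_lit 1271250, nat_lit 1271250, nat_lit 0, nat_lit 1412500, [nat_lit 490000, nat_lit 1100000, nat_lit 1442500], [nat_lit 6,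 nat_lit 40, nat_lit 40, nat_lit 80, nat_lit 3, nat_lit 316, nat_lit 50, nat_lit 11]⟩,
 zbF0, [⟨nat_lit 22, nat_lit 49, nat_lit 100, nat_lit 68, nat_lit 154821008⟩]⟩
noncomputable def p098_l37 : Lf2 := ⟨nat_lit 0, nat_lit 5, [nat_lit 4, nat_lit 5, nat_lit 5, nat_lit 20], false, nat_lit 80, nat_lit 160, nat_lit 0, nat_lit 260, ⟨nat_lit 104, nat_lit 896, nat_lit 0, nat_lit 8, nat_lit 331, nat_lit 896, nat_lit 88, nat_lit 0, nat_lit 0, nat_lit 0, nat_lit 0, nat_lit 0, nat_lit 37693904, nat_lit 26112667, nat_lit 3193429, nat_lit 4390087, true, true⟩,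
 nat_lit 0, nat_lit 0, nat_lit 960, nat_lit 0, nat_lit 3282, nat_lit 720, nat_lit 0, nat_lit 0, nat_lit 0, nat_lit 31, nat_lit 0, nat_lit 0, nat_lit 0, nat_lit 0, nat_lit 0, nat_lit 358400, nat_lit 0, nat_lit 0, [(nat_lit 21, [(nat_lit 1, nat_lit 896)])],
 ⟨p098_k12, nat_lit 0, nat_lit 0, nat_lit 105, nat_lit 0, nat_lit 0, [nat_lit 1425587200, nat_lit 1817216000], [], [nat_lit 21613636440, nat_lit 22196833920, nat_lit 29008788732, nat_lit 29509841342, nat_lit 22482149232, nat_lit 23010307036, nat_lit 29019869876, nat_lit 29393026592], nat_lit 0, nat_lit 0, nat_lit 0, nat_lit 0, nat_lit 0, nat_lit 0, [], [nat_lit 24, nat_lit 40, nat_lit 40, nat_lit 80, nat_lit 33, nat_lit 249, nat_lit 40, nat_lit 10]⟩, ⟨p098_k13, nat_lit 0, nat_lit 0, nat_lit 759, nat_lit 0, nat_lit 1590181, [nat_lit 211328000, nat_lit 487552000, nat_lit 650000000], [], [nat_lit 3759303456, nat_lit 3782062416, nat_lit 4226872832, nat_lit 4303093624,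 nat_lit 3453894472, nat_lit 3468542026, nat_lit 3610118408, nat_lit 3618355534], nat_lit 1271250, nat_lit 1271250, nat_lit 1271250, nat_lit 1271250, nat_lit 0, nat_lit 1836250, [nat_lit 490000, nat_lit 1100000, nat_lit 1442500], [nat_lit 6, nat_lit 40, nat_lit 40, nat_lit 80, nat_lit 3, nat_lit 314, nat_lit 75, nat_lit 11]⟩,
 ⟨nat_lit 3535, nat_lit 3873, ⟨.ofNat (nat_lit 695250), .ofNat (nat_lit 953359), .ofNat (nat_lit 706143), .ofNat (nat_lit 964253), .ofNat (nat_lit 694446), .ofNat (nat_lit 945515), .ofNat (nat_lit 705418), .ofNat (nat_lit 956488)⟩, ⟨.ofNat (nat_lit 132088), .ofNat (nat_lit 261131), .ofNat (nat_lit 175674), .ofNat (nat_lit 304717), .ofNat (nat_lit 136093), .ofNat (nat_lit 261616), .ofNat (nat_lit 179999), .ofNat (nat_lit 305521)⟩⟩, [⟨nat_lit 19, nat_lit 79, nat_lit 100, nat_lit 72, nat_lit 519837⟩, ⟨nat_lit 10, nat_lit 100, nat_lit 6, nat_lit 98, nat_lit 63493378⟩]⟩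
noncomputable def p098_l38 : Lf2 := ⟨nat_lit 0, nat_lit 10, [nat_lit 0, nat_lit 5, nat_lit 5, nat_lit 20], false, nat_lit 80, nat_lit 160, nat_lit 0, nat_lit 260, ⟨nat_lit 263, nat_lit 737, nat_lit 0, nat_lit 8, nat_lit 330, nat_lit 737, nat_lit 88, nat_lit 0, nat_lit 0, nat_lit 0, nat_lit 0, nat_lit 0, nat_lit 37789161, nat_lit 26011875, nat_lit 3198964, nat_lit 4388469, true, true⟩,
 nat_lit 0, nat_lit 0, nat_lit 2237, nat_lit 0, nat_lit 3348, nat_lit 1677, nat_lit 216, nat_lit 0, nat_lit 0, nat_lit 89, nat_lit 0, nat_lit 0, nat_lit 0, nat_lit 0, nat_lit 0, nat_lit 294800, nat_lit 0, nat_lit 0, [(nat_lit 21, [(nat_lit 1, nat_lit 737)])],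
 ⟨p098_k9, nat_lit 0, nat_lit 0, nat_lit 127, nat_lit 0, nat_lit 0, [nat_lit 1533198400, nat_lit 2333137601, nat_lit 2743354000], [], [nat_lit 21811858368, nat_lit 22399452612, nat_lit 29130870648, nat_lit 29635692188, nat_lit 22548618944, nat_lit 23080896420, nat_lit 29117185265, nat_lit 29488765101], nat_lit 0, nat_lit 0, nat_lit 0, nat_lit 0, nat_lit 0, nat_lit 0, [], [nat_lit 6, nat_lit 40, nat_lit 40, nat_lit 80, nat_lit 3, nat_lit 249, nat_lit 40, nat_lit 8]⟩, ⟨p098_k7, nat_lit 0, nat_lit 0, nat_lit 628, nat_lit 0, nat_lit 1281887, [nat_lit 534416000, nat_lit 1232944000, nat_lit 1643750000], [], [nat_lit 9436572832, nat_lit 9475467278, nat_lit 10379232100, nat_lit 10404618080, nat_lit 8867183474, nat_lit 8893535981, nat_lit 9484065254, nat_lit 9502042542], nat_lit 1271250, nat_lit 1271250, nat_lit 1271250, nat_lit 1271250, nat_lit 0, nat_lit 1836250, [nat_lit 490000, nat_lit 1100000, nat_lit 1442500], [nat_lit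 6, nat_lit 40, nat_lit 40, nat_lit 80, nat_lit 3, nat_lit 289, nat_lit 75, nat_lit 10]⟩,
 ⟨nat_lit 3535, nat_lit 3873, ⟨.ofNat (nat_lit 695250), .ofNat (nat_lit 953359), .ofNat (nat_lit 700697), .ofNat (nat_lit 958806), .ofNat (nat_lit 694446), .ofNat (nat_lit 945515), .ofNat (nat_lit 699932), .ofNat (nat_lit 951002)⟩, ⟨.ofNat (nat_lit 132088), .ofNat (nat_lit 261131), .ofNat (nat_lit 175674), .ofNat (nat_lit 304717), .ofNat (nat_lit 136093), .ofNat (nat_lit 261616), .ofNat (nat_lit 179999), .ofNat (nat_lit 305521)⟩⟩, [⟨nat_lit 13, nat_lit 83, nat_lit 25, nat_lit 100, nat_lit 40325582⟩, ⟨nat_lit 19, nat_lit 80, nat_lit 100, nat_lit 72, nat_lit 47705725⟩]⟩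
noncomputable def p098_l39 : Lf2 := ⟨nat_lit 0, nat_lit 10, [nat_lit 0, nat_lit 5, nat_lit 5, nat_lit 20], false, nat_lit 80, nat_lit 160, nat_lit 0, nat_lit 252, ⟨nat_lit 749, nat_lit 251, nat_lit 0, nat_lit 8, nat_lit 332, nat_lit 251, nat_lit 88, nat_lit 0, nat_lit 0, nat_lit 0, nat_lit 0, nat_lit 0, nat_lit 37598823, nat_lit 26213292, nat_lit 3187885, nat_lit 4391650, true, false⟩,
 nat_lit 0, nat_lit 0, nat_lit 5476, nat_lit 0, nat_lit 4272, nat_lit 4187, nat_lit 521, nat_lit 0, nat_lit 0, nat_lit 1048, nat_lit 0, nat_lit 0, nat_lit 0, nat_lit 0, nat_lit 0, nat_lit 62750, nat_lit 0, nat_lit 0, [(nat_lit 21, [(nat_lit 0, nat_lit 251)])],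
 ⟨p098_k9, nat_lit 0, nat_lit 0, nat_lit 127, nat_lit 0, nat_lit 0, [nat_lit 1913126401, nat_lit 4049958000, nat_lit 5219896000], [], [nat_lit 21832824655, nat_lit 22534369839, nat_lit 30840017472, nat_lit 31397604032, nat_lit 22274808499, nat_lit 22870605083, nat_lit 30278292144, nat_lit 30787893032], nat_lit 0, nat_lit 0, nat_lit 0, nat_lit 0, nat_lit 0, nat_lit 0, [], [nat_lit 6, nat_lit 40, nat_lit 40, nat_lit 80, nat_lit 3, nat_lit 249, nat_lit 40, nat_lit 8]⟩, ⟨p098_k15, nat_lit 0, nat_lit 0, nat_lit 628, nat_lit 0, nat_lit 1282352, [nat_lit 1521968000, nat_lit 3511312000, nat_lit 4681250000], [], [nat_lit 25277603609, nat_lit 25390657985, nat_lit 28064586041, nat_lit 28141520837, nat_lit 24369234213, nat_lit 24449446584, nat_lit 26297142498, nat_lit 26350748825], nat_lit 1271250, nat_lit 1271250, nat_lit 1271250, nat_lit 1271250, nat_lit 0, nat_lit 1779750, [nat_lit 490000, nat_lit 1100000, nat_lit 1442500],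 [nat_lit 6, nat_lit 40, nat_lit 40, nat_lit 80, nat_lit 3, nat_lit 289, nat_lit 75, nat_lit 10]⟩,
 ⟨nat_lit 3535, nat_lit 3873, ⟨.ofNat (nat_lit 700697), .ofNat (nat_lit 958806), .ofNat (nat_lit 706143), .ofNat (nat_lit 964253), .ofNat (nat_lit 699932), .ofNat (nat_lit 951002), .ofNat (nat_lit 705418), .ofNat (nat_lit 956488)⟩, ⟨.ofNat (nat_lit 132088), .ofNat (nat_lit 261131), .ofNat (nat_lit 175674), .ofNat (nat_lit 304717), .ofNat (nat_lit 136093), .ofNat (nat_lit 261616), .ofNat (nat_lit 179999), .ofNat (nat_lit 305521)⟩⟩, [⟨nat_lit 19, nat_lit 77, nat_lit 100, nat_lit 72, nat_lit 164116965⟩]⟩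
noncomputable def p098_l40 : Lf2 := ⟨nat_lit 0, nat_lit 10, [nat_lit 0, nat_lit 5, nat_lit 5, nat_lit 20], true, nat_lit 80, nat_lit 160, nat_lit 0, nat_lit 260, ⟨nat_lit 0, nat_lit 1000, nat_lit 0, nat_lit 8, nat_lit 305, nat_lit 1000, nat_lit 89, nat_lit 0, nat_lit 0, nat_lit 0, nat_lit 0, nat_lit 0, nat_lit 40011132, nat_lit 23613444, nat_lit 3375424, nat_lit 4345144, true, false⟩,
 nat_lit 0, nat_lit 0, nat_lit 0, nat_lit 0, nat_lit 3828, nat_lit 0, nat_lit 0, nat_lit 0, nat_lit 0, nat_lit 0, nat_lit 0, nat_lit 0, nat_lit 0, nat_lit 0, nat_lit 0, nat_lit 250000, nat_lit 0, nat_lit 0, [(nat_lit 21, [(nat_lit 0, nat_lit 1000)])],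
 ⟨p098_k16, nat_lit 0, nat_lit 0, nat_lit 83, nat_lit 0, nat_lit 0, [nat_lit 1558400000, nat_lit 1963600000], [], [nat_lit 21509970656, nat_lit 22219510896, nat_lit 25366936784, nat_lit 26049845104, nat_lit 22067840728, nat_lit 22707259936, nat_lit 25441177056, nat_lit 26059707632], nat_lit 0, nat_lit 0, nat_lit 0, nat_lit 0, nat_lit 0, nat_lit 0, [], [nat_lit 24, nat_lit 40, nat_lit 40, nat_lit 80, nat_lit 33, nat_lit 249, nat_lit 40, nat_lit 10]⟩, C1.Rw.none,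
 ⟨nat_lit 3162, nat_lit 3536, ⟨.ofNat (nat_lit 694437), .ofNat (nat_lit 819981), .ofNat (nat_lit 705409), .ofNat (nat_lit 830953), .ofNat (nat_lit 693843), .ofNat (nat_lit 815770), .ofNat (nat_lit 704916), .ofNat (nat_lit 826843)⟩, ⟨.ofNat (nat_lit 136093), .ofNat (nat_lit 261616), .ofNat (nat_lit 179999), .ofNat (nat_lit 305521), .ofNat (nat_lit 139899), .ofNat (nat_lit 261806), .ofNat (nat_lit 184209), .ofNat (nat_lit 306116)⟩⟩, []⟩
noncomputable def p098_l41 : Lf2 := ⟨nat_lit 0, nat_lit 10, [nat_lit 0, nat_lit 5, nat_lit 5, nat_lit 20], true, nat_lit 80, nat_lit 160, nat_lit 0, nat_lit 260, ⟨nat_lit 0, nat_lit 1000, nat_lit 0, nat_lit 8, nat_lit 342, nat_lit 1000, nat_lit 89, nat_lit 0, nat_lit 0, nat_lit 0, nat_lit 0, nat_lit 0, nat_lit 36742892, nat_lit 27069897, nat_lit 3187211, nat_lit 4413445, true, true⟩,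
 nat_lit 0, nat_lit 0, nat_lit 0, nat_lit 0, nat_lit 3555, nat_lit 0, nat_lit 0, nat_lit 0, nat_lit 0, nat_lit 0, nat_lit 0, nat_lit 0, nat_lit 0, nat_lit 0, nat_lit 0, nat_lit 250000, nat_lit 0, nat_lit 0, [(nat_lit 21, [(nat_lit 0, nat_lit 1000)])],
 ⟨p098_k16, nat_lit 0, nat_lit 0, nat_lit 95, nat_lit 0, nat_lit 0, [nat_lit 1558400000, nat_lit 1963600000], [], [nat_lit 25233461090, nat_lit 25802866140, nat_lit 27443235130, nat_lit 28030518260, nat_lit 25575970480, nat_lit 26065979340, nat_lit 27462996695, nat_lit 27951618580], nat_lit 0, nat_lit 0, nat_lit 0, nat_lit 0, nat_lit 0, nat_lit 0, [], [nat_lit 24, nat_lit 40, nat_lit 40, nat_lit 80, nat_lit 33, nat_lit 249, nat_lit 40, nat_lit 9]⟩, C1.Rw.none,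
 ⟨nat_lit 3162, nat_lit 3536, ⟨.ofNat (nat_lit 819981), .ofNat (nat_lit 882753), .ofNat (nat_lit 830953), .ofNat (nat_lit 893725), .ofNat (nat_lit 815770), .ofNat (nat_lit 876734), .ofNat (nat_lit 826843), .ofNat (nat_lit 887808)⟩, ⟨.ofNat (nat_lit 136093), .ofNat (nat_lit 261616), .ofNat (nat_lit 179999), .ofNat (nat_lit 305521), .ofNat (nat_lit 139899), .ofNat (nat_lit 261806), .ofNat (nat_lit 184209), .ofNat (nat_lit 306116)⟩⟩, []⟩
noncomputable def p098_l42 : Lf2 := ⟨nat_lit 0, nat_lit 10, [nat_lit 0, nat_lit 5, nat_lit 5, nat_lit 20], false, nat_lit 80, nat_lit 160, nat_lit 8, nat_lit 260, ⟨nat_lit 84, nat_lit 916, nat_lit 0, nat_lit 9, nat_lit 366, nat_lit 916, nat_lit 89, nat_lit 0, nat_lit 0, nat_lit 0, nat_lit 0, nat_lit 0, nat_lit 34684126, nat_lit 29258884, nat_lit 3056990, nat_lit 4424156, true, true⟩,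
 nat_lit 0, nat_lit 0, nat_lit 884, nat_lit 0, nat_lit 3500, nat_lit 663, nat_lit 0, nat_lit 0, nat_lit 0, nat_lit 0, nat_lit 0, nat_lit 0, nat_lit 0, nat_lit 0, nat_lit 0, nat_lit 229000, nat_lit 0, nat_lit 0, [(nat_lit 21, [(nat_lit 0, nat_lit 916)])],
 ⟨p098_k16, nat_lit 0, nat_lit 0, nat_lit 107, nat_lit 0, nat_lit 0, [nat_lit 1598182400, nat_lit 2192449600], [], [nat_lit 27667288400, nat_lit 28125792400, nat_lit 29925530500, nat_lit 30439032000, nat_lit 27960001900, nat_lit 28378308400, nat_lit 29795983900, nat_lit 30172740400], nat_lit 0, nat_lit 0, nat_lit 0, nat_lit 0, nat_lit 0, nat_lit 0, [], [nat_lit 24, nat_lit 40, nat_lit 40, nat_lit 80, nat_lit 33, nat_lit 249, nat_lit 40, nat_lit 9]⟩, ⟨p098_k10, nat_lit 0, nat_lit 0, nat_lit 810, nat_lit 0, nat_lit 1744724, [nat_lit 170688000, nat_lit 525000000], [], [nat_lit 3378323913, nat_lit 3386429891, nat_lit 3580204721, nat_lit 3646367393, nat_lit 2946911265,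 nat_lit 2950520368, nat_lit 2976504306, nat_lit 2997569064], nat_lit 1271250, nat_lit 1271250, nat_lit 1271250, nat_lit 1271250, nat_lit 43600, nat_lit 1842250, [nat_lit 490000, nat_lit 1427500], [nat_lit 69, nat_lit 40, nat_lit 40, nat_lit 80, nat_lit 64, nat_lit 327, nat_lit 75, nat_lit 11]⟩,
 ⟨nat_lit 3162, nat_lit 3536, ⟨.ofNat (nat_lit 882753), .ofNat (nat_lit 945521), .ofNat (nat_lit 893725), .ofNat (nat_lit 956496), .ofNat (nat_lit 876734), .ofNat (nat_lit 937695), .ofNat (nat_lit 887808), .ofNat (nat_lit 948770)⟩, ⟨.ofNat (nat_lit 136093), .ofNat (nat_lit 261616), .ofNat (nat_lit 179999), .ofNat (nat_lit 305521), .ofNat (nat_lit 139899), .ofNat (nat_lit 261806), .ofNat (nat_lit 184209), .ofNat (nat_lit 306116)⟩⟩, [⟨nat_lit 13, nat_lit 81, nat_lit 27, nat_lit 100, nat_lit 207782325⟩, ⟨nat_lit 10, nat_lit 96, nat_lit 44, nat_lit 100, nat_lit 3897618⟩]⟩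
noncomputable def b_V_800_800_10_1 : St := ⟨true, nat_lit 0, nat_lit 1, nat_lit 1, nat_lit 80, nat_lit 320, nat_lit 360, nat_lit 320, nat_lit 330, nat_lit 240, nat_lit 400, nat_lit 40, nat_lit 80, nat_lit 0, nat_lit 160, nat_lit 0, nat_lit 260, nat_lit 0, nat_lit 40, nat_lit 0, nat_lit 0, nat_lit 0, nat_lit 0⟩
theorem d_V_800_800_10_1 (h : EB TB.env) : Dead b_V_800_800_10_1 := chkB_sound0 h (T :=
(.spl (nat_lit 0) (nat_lit 340)
(.spl (nat_lit 0) (nat_lit 330)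
(.spl (nat_lit 4) (nat_lit 80)
(.spl (nat_lit 2) (nat_lit 320)
(.leaf p098_l20)
(.leaf p098_l21))
(.leaf p098_l22))
(.spl (nat_lit 4) (nat_lit 80)
(.spl (nat_lit 5) (nat_lit 160)
(.spl (nat_lit 0) (nat_lit 335)
(.leaf p098_l23)
(.leaf p098_l24))
(.trX (nat_lit 10) (nat_lit 100) (nat_lit 44) (nat_lit 82) (nat_lit 384) (.spl (nat_lit 0) (nat_lit 335)
(.leaf p098_l25)
(.leaf p098_l26))))
(.spl (nat_lit 5) (nat_lit 160)
(.leaf p098_l27)
(.leaf p098_l28))))
(.spl (nat_lit 4) (nat_lit 80)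
(.spl (nat_lit 0) (nat_lit 350)
(.spl (nat_lit 6) (nat_lit 20)
(.spl (nat_lit 1) (nat_lit 325)
(.leaf p098_l29)
(.trX (nat_lit 19) (nat_lit 81) (nat_lit 100) (nat_lit 83) (nat_lit 252) (.leaf p098_l30)))
(.spl (nat_lit 1) (nat_lit 325)
(.leaf p098_l31)
(.trX (nat_lit 19) (nat_lit 81) (nat_lit 100) (nat_lit 83) (nat_lit 252) (.leaf p098_l32))))
(.spl (nat_lit 2) (nat_lit 320)
(.leaf p098_l33)
(.spl (nat_lit 2) (nat_lit 360)
(.leaf p098_l34)
(.trX (nat_lit 22) (nat_lit 60) (nat_lit 100) (nat_lit 80) (nat_lit 200) (.spl (nat_lit 1) (nat_lit 325)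
(.leaf p098_l35)
(.leaf p098_l36))))))
(.spl (nat_lit 0) (nat_lit 350)
(.spl (nat_lit 6) (nat_lit 20)
(.leaf p098_l37)
(.spl (nat_lit 1) (nat_lit 325)
(.leaf p098_l38)
(.trX (nat_lit 19) (nat_lit 81) (nat_lit 100) (nat_lit 83) (nat_lit 252) (.leaf p098_l39))))
(.spl (nat_lit 2) (nat_lit 320)
(.leaf p098_l40)
(.spl (nat_lit 2) (nat_lit 360)
(.leaf p098_l41)
(.trZ (nat_lit 9) (nat_lit 100) (nat_lit 75) (nat_lit 35) (nat_lit 8) (.leaf p098_l42)))))))) (by decide +kernel)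
noncomputable def p098_l43 : Lf2 := ⟨nat_lit 0, nat_lit 10, [nat_lit 0, nat_lit 5, nat_lit 5, nat_lit 20], false, nat_lit 0, nat_lit 160, nat_lit 0, nat_lit 244, ⟨nat_lit 1000, nat_lit 0, nat_lit 0, nat_lit 0, nat_lit 0, nat_lit 0, nat_lit 0, nat_lit 0, nat_lit 0, nat_lit 0, nat_lit 0, nat_lit 0, nat_lit 0, nat_lit 0, nat_lit 0, nat_lit 0, false, false⟩,
 nat_lit 0, nat_lit 0, nat_lit 6221, nat_lit 0, nat_lit 5548, nat_lit 4849, nat_lit 637, nat_lit 0, nat_lit 0, nat_lit 1537, nat_lit 0, nat_lit 0, nat_lit 0, nat_lit 0, nat_lit 0, nat_lit 0, nat_lit 0, nat_lit 0, [],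
 ⟨p098_k8, nat_lit 0, nat_lit 0, nat_lit 176, nat_lit 0, nat_lit 0, [nat_lit 2032000001, nat_lit 4688000000, nat_lit 6250000000], [], [nat_lit 25369602397, nat_lit 26094579381, nat_lit 37447456720, nat_lit 38099035152, nat_lit 22721410193, nat_lit 23332163546, nat_lit 31440440104, nat_lit 32013080496], nat_lit 0, nat_lit 0, nat_lit 0, nat_lit 0, nat_lit 0, nat_lit 0, [], [nat_lit 6, nat_lit 40, nat_lit 40, nat_lit 80, nat_lit 3, nat_lit 249, nat_lit 40, nat_lit 9]⟩, ⟨p098_k8, nat_lit 0, nat_lit 0, nat_lit 732, nat_lit 0, nat_lit 1522961, [nat_lit 2032000000, nat_lit 4688000000, nat_lit 6250000000], [], [nat_lit 32002951714, nat_lit 32307701317, nat_lit 35848038958, nat_lit 36065180865, nat_lit 31952309537, nat_lit 32177388255, nat_lit 34756202936, nat_lit 34921704526], nat_lit 1271250, nat_lit 1271250, nat_lit 1271250, nat_lit 1271250, nat_lit 0, nat_lit 1723250, [nat_lit 490000, nat_lit 1100000, nat_lit 1442500],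 [nat_lit 6, nat_lit 40, nat_lit 40, nat_lit 80, nat_lit 3, nat_lit 306, nat_lit 75, nat_lit 11]⟩,
 zbF0, [⟨nat_lit 7, nat_lit 100, nat_lit 74, nat_lit 72, nat_lit 269420451⟩]⟩
noncomputable def p098_l44 : Lf2 := ⟨nat_lit 0, nat_lit 10, [nat_lit 0, nat_lit 5, nat_lit 5, nat_lit 20], false, nat_lit 0, nat_lit 160, nat_lit 0, nat_lit 244, ⟨nat_lit 1000, nat_lit 0, nat_lit 0, nat_lit 0, nat_lit 0, nat_lit 0, nat_lit 0, nat_lit 0, nat_lit 0, nat_lit 0, nat_lit 0, nat_lit 0, nat_lit 0, nat_lit 0, nat_lit 0, nat_lit 0, false, false⟩,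
 nat_lit 0, nat_lit 0, nat_lit 6452, nat_lit 0, nat_lit 4905, nat_lit 5029, nat_lit 869, nat_lit 0, nat_lit 0, nat_lit 1485, nat_lit 0, nat_lit 0, nat_lit 0, nat_lit 0, nat_lit 0, nat_lit 0, nat_lit 0, nat_lit 0, [],
 ⟨p098_k9, nat_lit 0, nat_lit 0, nat_lit 180, nat_lit 0, nat_lit 0, [nat_lit 2032000001, nat_lit 4688000000, nat_lit 6250000000], [], [nat_lit 24816863570, nat_lit 26837972740, nat_lit 36224031720, nat_lit 37451142260, nat_lit 21789524871, nat_lit 22937575711, nat_lit 31138888560, nat_lit 32220635800], nat_lit 0, nat_lit 0, nat_lit 0, nat_lit 0, nat_lit 0, nat_lit 0, [], [nat_lit 6, nat_lit 40, nat_lit 40, nat_lit 80, nat_lit 3, nat_lit 249, nat_lit 40, nat_lit 9]⟩, ⟨p098_k8, nat_lit 0, nat_lit 0, nat_lit 820, nat_lit 0, nat_lit 1720387, [nat_lit 2032000000, nat_lit 4688000000, nat_lit 6250000000], [], [nat_lit 33059337805, nat_lit 33325901423, nat_lit 36404413903, nat_lit 36593981135, nat_lit 32699341768,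 nat_lit 32895103399, nat_lit 35110748324, nat_lit 35256812062], nat_lit 1271250, nat_lit 1271250, nat_lit 1271250, nat_lit 1271250, nat_lit 0, nat_lit 1723250, [nat_lit 490000, nat_lit 1100000, nat_lit 1442500], [nat_lit 6, nat_lit 40, nat_lit 40, nat_lit 80, nat_lit 3, nat_lit 328, nat_lit 75, nat_lit 12]⟩,
 zbF0, [⟨nat_lit 7, nat_lit 100, nat_lit 74, nat_lit 72, nat_lit 276628730⟩]⟩
noncomputable def b_V_800_800_10_2 : St := ⟨true, nat_lit 0, nat_lit 1, nat_lit 1, nat_lit 80, nat_lit 320, nat_lit 360, nat_lit 330, nat_lit 340, nat_lit 240, nat_lit 400, nat_lit 40, nat_lit 80, nat_lit 0, nat_lit 160, nat_lit 0, nat_lit 260, nat_lit 0, nat_lit 40, nat_lit 0, nat_lit 0, nat_lit 0, nat_lit 0⟩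
theorem d_V_800_800_10_2 (h : EB TB.env) : Dead b_V_800_800_10_2 := chkB_sound0 h (T :=
(.ord (.trX (nat_lit 19) (nat_lit 78) (nat_lit 100) (nat_lit 82) (nat_lit 244) (.spl (nat_lit 0) (nat_lit 340)
(.leaf p098_l43)
(.leaf p098_l44))))) (by decide +kernel)
noncomputable def p098_l45 : Lf2 := ⟨nat_lit 0, nat_lit 10, [nat_lit 0, nat_lit 5, nat_lit 5, nat_lit 20], true, nat_lit 160, nat_lit 260, nat_lit 0, nat_lit 260, ⟨nat_lit 0, nat_lit 1000, nat_lit 0, nat_lit 8, nat_lit 250, nat_lit 1000, nat_lit 145, nat_lit 0, nat_lit 0, nat_lit 0, nat_lit 0, nat_lit 0, nat_lit 42068614, nat_lit 17529235, nat_lit 7402151, nat_lit 4749364, false, false⟩,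
 nat_lit 0, nat_lit 0, nat_lit 0, nat_lit 0, nat_lit 3178, nat_lit 0, nat_lit 0, nat_lit 0, nat_lit 0, nat_lit 0, nat_lit 0, nat_lit 0, nat_lit 0, nat_lit 9145847789622, nat_lit 0, nat_lit 250000, nat_lit 0, nat_lit 0, [(nat_lit 18, [(nat_lit 0, nat_lit 1000)]), (nat_lit 21, [(nat_lit 0, nat_lit 1000)])],
 ⟨p098_k7, nat_lit 0, nat_lit 0, nat_lit 49, nat_lit 0, nat_lit 0, [nat_lit 1558400000, nat_lit 2168000000, nat_lit 2562000000], [], [nat_lit 16179558316, nat_lit 19259414692, nat_lit 19401242136, nat_lit 21995445096, nat_lit 20020610787, nat_lit 22578912170, nat_lit 22615031244, nat_lit 24790606324], nat_lit 0, nat_lit 0, nat_lit 0, nat_lit 0, nat_lit 0, nat_lit 0, [], [nat_lit 6, nat_lit 40, nat_lit 40, nat_lit 80, nat_lit 3, nat_lit 345, nat_lit 125, nat_lit 12]⟩, C1.Rw.none,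
 ⟨nat_lit 3162, nat_lit 4473, ⟨.ofNat (nat_lit 526772), .ofNat (nat_lit 696911), .ofNat (nat_lit 548248), .ofNat (nat_lit 718387), .ofNat (nat_lit 540839), .ofNat (nat_lit 693416), .ofNat (nat_lit 562904), .ofNat (nat_lit 715481)⟩, ⟨.ofNat (nat_lit 259488), .ofNat (nat_lit 429433), .ofNat (nat_lit 302621), .ofNat (nat_lit 472567), .ofNat (nat_lit 261805), .ofNat (nat_lit 414188), .ofNat (nat_lit 306116), .ofNat (nat_lit 458499)⟩⟩, [⟨nat_lit 16, nat_lit 83, nat_lit 100, nat_lit 83, nat_lit 219126658⟩]⟩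
noncomputable def p098_l46 : Lf2 := ⟨nat_lit 0, nat_lit 10, [nat_lit 0, nat_lit 5, nat_lit 5, nat_lit 20], false, nat_lit 160, nat_lit 260, nat_lit 0, nat_lit 260, ⟨nat_lit 1000, nat_lit 0, nat_lit 0, nat_lit 0, nat_lit 0, nat_lit 0, nat_lit 0, nat_lit 0, nat_lit 0, nat_lit 0, nat_lit 0, nat_lit 0, nat_lit 0, nat_lit 0, nat_lit 0, nat_lit 0, false, false⟩,
 nat_lit 0, nat_lit 0, nat_lit 1364, nat_lit 0, nat_lit 7692, nat_lit 1023, nat_lit 0, nat_lit 0, nat_lit 0, nat_lit 173, nat_lit 0, nat_lit 369, nat_lit 0, nat_lit 2098463706288, nat_lit 0, nat_lit 0, nat_lit 0, nat_lit 0, [],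
 ⟨p098_k7, nat_lit 0, nat_lit 0, nat_lit 87, nat_lit 0, nat_lit 0, [nat_lit 2032000001, nat_lit 4688000000, nat_lit 6250000000], [], [nat_lit 21816799152, nat_lit 23580669024, nat_lit 33570834848, nat_lit 34927959984, nat_lit 24896957212, nat_lit 26324126680, nat_lit 34901661360, nat_lit 36000484838], nat_lit 0, nat_lit 0, nat_lit 0, nat_lit 0, nat_lit 0, nat_lit 0, [], [nat_lit 6, nat_lit 40, nat_lit 40, nat_lit 80, nat_lit 3, nat_lit 289, nat_lit 75, nat_lit 9]⟩, ⟨p098_k7, nat_lit 0, nat_lit 0, nat_lit 0, nat_lit 0, nat_lit 1493987, [nat_lit 2032000000, nat_lit 4688000000, nat_lit 6250000000], [], [nat_lit 20638851660, nat_lit 20772826786, nat_lit 24472931936, nat_lit 24590720271, nat_lit 23970909859, nat_lit 24084910154, nat_lit 27360156090, nat_lit 27516368002], nat_lit 1271250, nat_lit 1271250, nat_lit 1271250, nat_lit 1271250, nat_lit 0, nat_lit 1836250, [nat_lit 490000, nat_lit 1100000, nat_lit 1442500],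 [nat_lit 6, nat_lit 40, nat_lit 40, nat_lit 80]⟩,
 zbF0, [⟨nat_lit 16, nat_lit 83, nat_lit 100, nat_lit 83, nat_lit 396431233⟩, ⟨nat_lit 19, nat_lit 83, nat_lit 100, nat_lit 83, nat_lit 60316440⟩]⟩
noncomputable def p098_l47 : Lf2 := ⟨nat_lit 0, nat_lit 5, [nat_lit 4, nat_lit 5, nat_lit 5, nat_lit 20], false, nat_lit 160, nat_lit 260, nat_lit 0, nat_lit 260, ⟨nat_lit 271, nat_lit 729, nat_lit 0, nat_lit 8, nat_lit 334, nat_lit 729, nat_lit 146, nat_lit 0, nat_lit 0, nat_lit 0, nat_lit 0, nat_lit 0, nat_lit 35263245, nat_lit 25094504, nat_lit 6642251, nat_lit 4995943, true, true⟩,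
 nat_lit 0, nat_lit 0, nat_lit 2684, nat_lit 0, nat_lit 3505, nat_lit 2013, nat_lit 0, nat_lit 0, nat_lit 0, nat_lit 115, nat_lit 0, nat_lit 0, nat_lit 0, nat_lit 13940046424365, nat_lit 0, nat_lit 729000, nat_lit 0, nat_lit 0, [(nat_lit 18, [(nat_lit 2, nat_lit 729)])],
 ⟨p098_k13, nat_lit 0, nat_lit 0, nat_lit 79, nat_lit 0, nat_lit 0, [nat_lit 1791332800, nat_lit 2032496001, nat_lit 1370657200], [], [nat_lit 21075638681, nat_lit 21364609259, nat_lit 28497498601, nat_lit 28695540859, nat_lit 23931038336, nat_lit 24174439224, nat_lit 30199742421, nat_lit 30369137612], nat_lit 0, nat_lit 0, nat_lit 0, nat_lit 0, nat_lit 0, nat_lit 0, [], [nat_lit 6, nat_lit 40, nat_lit 40, nat_lit 80, nat_lit 3, nat_lit 289, nat_lit 75, nat_lit 9]⟩, ⟨p098_k13, nat_lit 0, nat_lit 0, nat_lit 637, nat_lit 0, nat_lit 1306230, [nat_lit 550672000, nat_lit 1270448000, nat_lit 1693750000], [], [nat_lit 8034970500, nat_lit 8080345760, nat_lit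 9257971516, nat_lit 9323596098, nat_lit 7300457301, nat_lit 7332860376, nat_lit 8041705701, nat_lit 8061328284], nat_lit 1271250, nat_lit 1271250, nat_lit 1271250, nat_lit 1271250, nat_lit 0, nat_lit 1836250, [nat_lit 490000, nat_lit 1100000, nat_lit 1442500], [nat_lit 6, nat_lit 40, nat_lit 40, nat_lit 80, nat_lit 3, nat_lit 289, nat_lit 75, nat_lit 10]⟩,
 ⟨nat_lit 4330, nat_lit 4473, ⟨.ofNat (nat_lit 697371), .ofNat (nat_lit 969284), .ofNat (nat_lit 702762), .ofNat (nat_lit 974675), .ofNat (nat_lit 696794), .ofNat (nat_lit 965264), .ofNat (nat_lit 702196), .ofNat (nat_lit 970667)⟩, ⟨.ofNat (nat_lit 259489), .ofNat (nat_lit 429434), .ofNat (nat_lit 302621), .ofNat (nat_lit 472567), .ofNat (nat_lit 259972), .ofNat (nat_lit 427766), .ofNat (nat_lit 303199), .ofNat (nat_lit 470993)⟩⟩, [⟨nat_lit 4, nat_lit 100, nat_lit 80, nat_lit 72, nat_lit 232893054⟩, ⟨nat_lit 7, nat_lit 100, nat_lit 80, nat_lit 72, nat_lit 38244631⟩]⟩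
noncomputable def p098_l48 : Lf2 := ⟨nat_lit 0, nat_lit 5, [nat_lit 4, nat_lit 5, nat_lit 5, nat_lit 20], false, nat_lit 160, nat_lit 252, nat_lit 0, nat_lit 260, ⟨nat_lit 260, nat_lit 740, nat_lit 0, nat_lit 8, nat_lit 333, nat_lit 740, nat_lit 143, nat_lit 0, nat_lit 0, nat_lit 0, nat_lit 0, nat_lit 0, nat_lit 35448855, nat_lit 25085280, nat_lit 6465865, nat_lit 4968952, true, true⟩,
 nat_lit 0, nat_lit 0, nat_lit 2572, nat_lit 0, nat_lit 3453, nat_lit 1929, nat_lit 104, nat_lit 0, nat_lit 0, nat_lit 104, nat_lit 0, nat_lit 0, nat_lit 0, nat_lit 0, nat_lit 0, nat_lit 740000, nat_lit 0, nat_lit 0, [(nat_lit 18, [(nat_lit 2, nat_lit 740)])],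
 ⟨p098_k14, nat_lit 0, nat_lit 0, nat_lit 80, nat_lit 0, nat_lit 0, [nat_lit 1787701334, nat_lit 1951866666], [], [nat_lit 21300730300, nat_lit 21587763071, nat_lit 28590788860, nat_lit 28787869039, nat_lit 23814710316, nat_lit 24060453585, nat_lit 30083091067, nat_lit 30285597296], nat_lit 0, nat_lit 0, nat_lit 0, nat_lit 0, nat_lit 0, nat_lit 0, [], [nat_lit 24, nat_lit 40, nat_lit 40, nat_lit 80, nat_lit 33, nat_lit 203, nat_lit 0, nat_lit 7]⟩, ⟨p098_k13, nat_lit 0, nat_lit 0, nat_lit 656, nat_lit 0, nat_lit 1353644, [nat_lit 528320000, nat_lit 1218880000, nat_lit 1625000000], [], [nat_lit 7746135468, nat_lit 7789649474, nat_lit 8891695868, nat_lit 8950188782, nat_lit 7018001178, nat_lit 7049081098, nat_lit 7729194072, nat_lit 7748024127], nat_lit 1271250, nat_lit 1271250, nat_lit 1271250, nat_lit 1271250, nat_lit 0, nat_lit 1836250, [nat_lit 490000, nat_lit 1100000, nat_lit 1442500], [nat_lit 6, nat_lit 40,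 nat_lit 40, nat_lit 80, nat_lit 3, nat_lit 289, nat_lit 75, nat_lit 10]⟩,
 ⟨nat_lit 4183, nat_lit 4331, ⟨.ofNat (nat_lit 696793), .ofNat (nat_lit 965265), .ofNat (nat_lit 702196), .ofNat (nat_lit 970668), .ofNat (nat_lit 696250), .ofNat (nat_lit 961273), .ofNat (nat_lit 701665), .ofNat (nat_lit 966690)⟩, ⟨.ofNat (nat_lit 259972), .ofNat (nat_lit 414342), .ofNat (nat_lit 303199), .ofNat (nat_lit 457570), .ofNat (nat_lit 260409), .ofNat (nat_lit 412797), .ofNat (nat_lit 303743), .ofNat (nat_lit 456131)⟩⟩, [⟨nat_lit 13, nat_lit 97, nat_lit 4, nat_lit 100, nat_lit 19684095⟩, ⟨nat_lit 16, nat_lit 77, nat_lit 100, nat_lit 72, nat_lit 232350910⟩, ⟨nat_lit 7, nat_lit 100, nat_lit 80, nat_lit 72, nat_lit 36650580⟩]⟩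
noncomputable def p098_l49 : Lf2 := ⟨nat_lit 0, nat_lit 5, [nat_lit 4, nat_lit 5, nat_lit 5, nat_lit 20], true, nat_lit 160, nat_lit 244, nat_lit 0, nat_lit 260, ⟨nat_lit 0, nat_lit 1000, nat_lit 0, nat_lit 8, nat_lit 306, nat_lit 1000, nat_lit 140, nat_lit 0, nat_lit 0, nat_lit 0, nat_lit 0, nat_lit 0, nat_lit 37736330, nat_lit 22713587, nat_lit 6550083, nat_lit 4901979, true, false⟩,
 nat_lit 0, nat_lit 0, nat_lit 0, nat_lit 0, nat_lit 3122, nat_lit 0, nat_lit 0, nat_lit 0, nat_lit 0, nat_lit 0, nat_lit 0, nat_lit 0, nat_lit 0, nat_lit 0, nat_lit 0, nat_lit 250000, nat_lit 0, nat_lit 0, [(nat_lit 18, [(nat_lit 0, nat_lit 1000)])],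
 ⟨p098_k17, nat_lit 0, nat_lit 0, nat_lit 36, nat_lit 0, nat_lit 0, [nat_lit 1532800000, nat_lit 2168000000], [], [nat_lit 20055561724, nat_lit 20698857984, nat_lit 23733296396, nat_lit 24275293472, nat_lit 22514673501, nat_lit 23072075021, nat_lit 25699150698, nat_lit 26191765292], nat_lit 0, nat_lit 0, nat_lit 0, nat_lit 0, nat_lit 0, nat_lit 0, [], [nat_lit 24, nat_lit 40, nat_lit 40, nat_lit 80, nat_lit 33, nat_lit 203, nat_lit 0, nat_lit 7]⟩, C1.Rw.none,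
 ⟨nat_lit 3872, nat_lit 4184, ⟨.ofNat (nat_lit 696229), .ofNat (nat_lit 828747), .ofNat (nat_lit 701645), .ofNat (nat_lit 834162), .ofNat (nat_lit 695254), .ofNat (nat_lit 824304), .ofNat (nat_lit 700702), .ofNat (nat_lit 829751)⟩, ⟨.ofNat (nat_lit 260409), .ofNat (nat_lit 399546), .ofNat (nat_lit 303743), .ofNat (nat_lit 442879), .ofNat (nat_lit 261131), .ofNat (nat_lit 396626), .ofNat (nat_lit 304717), .ofNat (nat_lit 440213)⟩⟩, [⟨nat_lit 16, nat_lit 78, nat_lit 100, nat_lit 82, nat_lit 185686536⟩]⟩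
noncomputable def p098_l50 : Lf2 := ⟨nat_lit 0, nat_lit 5, [nat_lit 4, nat_lit 5, nat_lit 5, nat_lit 20], false, nat_lit 160, nat_lit 244, nat_lit 16, nat_lit 260, ⟨nat_lit 266, nat_lit 734, nat_lit 0, nat_lit 8, nat_lit 358, nat_lit 734, nat_lit 140, nat_lit 0, nat_lit 0, nat_lit 0, nat_lit 0, nat_lit 0, nat_lit 33690899, nat_lit 27281794, nat_lit 6027307, nat_lit 4949335, true, true⟩,
 nat_lit 0, nat_lit 0, nat_lit 2669, nat_lit 0, nat_lit 3297, nat_lit 2001, nat_lit 675, nat_lit 0, nat_lit 0, nat_lit 92, nat_lit 0, nat_lit 0, nat_lit 0, nat_lit 0, nat_lit 0, nat_lit 293600, nat_lit 0, nat_lit 0, [(nat_lit 18, [(nat_lit 1, nat_lit 734)])],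
 ⟨p098_k17, nat_lit 0, nat_lit 0, nat_lit 82, nat_lit 0, nat_lit 0, [nat_lit 1566741867, nat_lit 2649045333], [], [nat_lit 24778099779, nat_lit 25253698823, nat_lit 28616125286, nat_lit 29004513177, nat_lit 26529058834, nat_lit 26945990451, nat_lit 29907066483, nat_lit 30289774497], nat_lit 0, nat_lit 0, nat_lit 0, nat_lit 0, nat_lit 0, nat_lit 0, [], [nat_lit 24, nat_lit 40, nat_lit 40, nat_lit 80, nat_lit 33, nat_lit 203, nat_lit 0, nat_lit 7]⟩, ⟨p098_k13, nat_lit 0, nat_lit 0, nat_lit 680, nat_lit 0, nat_lit 1452256, [nat_lit 540512000, nat_lit 1247008000, nat_lit 1662500000], [], [nat_lit 8359027281, nat_lit 8388250932, nat_lit 8899024788, nat_lit 8958543596, nat_lit 7493808316, nat_lit 7514189234, nat_lit 7855772163, nat_lit 7870627346], nat_lit 1271250, nat_lit 1271250, nat_lit 1271250, nat_lit 1271250, nat_lit 88400, nat_lit 1848250, [nat_lit 490000, nat_lit 1100000, nat_lit 1442500], [nat_lit 6, nat_lit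 40, nat_lit 40, nat_lit 80, nat_lit 3, nat_lit 294, nat_lit 75, nat_lit 10]⟩,
 ⟨nat_lit 3872, nat_lit 4184, ⟨.ofNat (nat_lit 828747), .ofNat (nat_lit 961264), .ofNat (nat_lit 834162), .ofNat (nat_lit 966679), .ofNat (nat_lit 824304), .ofNat (nat_lit 953353), .ofNat (nat_lit 829751), .ofNat (nat_lit 958800)⟩, ⟨.ofNat (nat_lit 260409), .ofNat (nat_lit 399546), .ofNat (nat_lit 303743), .ofNat (nat_lit 442879), .ofNat (nat_lit 261131), .ofNat (nat_lit 396626), .ofNat (nat_lit 304717), .ofNat (nat_lit 440213)⟩⟩, [⟨nat_lit 13, nat_lit 93, nat_lit 10, nat_lit 100, nat_lit 68395608⟩, ⟨nat_lit 4, nat_lit 100, nat_lit 74, nat_lit 72, nat_lit 246004645⟩, ⟨nat_lit 19, nat_lit 80, nat_lit 100, nat_lit 72, nat_lit 41191360⟩]⟩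
noncomputable def p098_l51 : Lf2 := ⟨nat_lit 0, nat_lit 10, [nat_lit 0, nat_lit 5, nat_lit 5, nat_lit 20], false, nat_lit 160, nat_lit 260, nat_lit 0, nat_lit 260, ⟨nat_lit 522, nat_lit 478, nat_lit 0, nat_lit 8, nat_lit 333, nat_lit 478, nat_lit 146, nat_lit 0, nat_lit 0, nat_lit 0, nat_lit 0, nat_lit 0, nat_lit 35382801, nat_lit 24985004, nat_lit 6632195, nat_lit 4991448, true, true⟩,
 nat_lit 0, nat_lit 0, nat_lit 5167, nat_lit 0, nat_lit 4142, nat_lit 3875, nat_lit 120, nat_lit 0, nat_lit 0, nat_lit 191, nat_lit 0, nat_lit 0, nat_lit 0, nat_lit 0, nat_lit 0, nat_lit 478000, nat_lit 0, nat_lit 0, [(nat_lit 18, [(nat_lit 2, nat_lit 478)])],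
 ⟨p098_k7, nat_lit 0, nat_lit 0, nat_lit 87, nat_lit 0, nat_lit 0, [nat_lit 1874196267, nat_lit 2946805334, nat_lit 3050650400], [], [nat_lit 21587079035, nat_lit 22758803343, nat_lit 29273813936, nat_lit 30103932078, nat_lit 24292462399, nat_lit 25273765171, nat_lit 30887214860, nat_lit 31733734513], nat_lit 0, nat_lit 0, nat_lit 0, nat_lit 0, nat_lit 0, nat_lit 0, [], [nat_lit 6, nat_lit 40, nat_lit 40, nat_lit 80, nat_lit 3, nat_lit 289, nat_lit 75, nat_lit 9]⟩, ⟨p098_k7, nat_lit 0, nat_lit 0, nat_lit 584, nat_lit 0, nat_lit 1180600, [nat_lit 1060704000, nat_lit 2447136000, nat_lit 3262500000], [], [nat_lit 15611756788, nat_lit 15699137873, nat_lit 17974584232, nat_lit 18083706767, nat_lit 14083427189, nat_lit 14141079147, nat_lit 15504727674, nat_lit 15542528894], nat_lit 1271250, nat_lit 1271250, nat_lit 1271250, nat_lit 1271250, nat_lit 0, nat_lit 1836250, [nat_lit 490000, nat_lit 1100000, nat_lit 1442500],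 [nat_lit 6, nat_lit 40, nat_lit 40, nat_lit 80, nat_lit 3, nat_lit 289, nat_lit 75, nat_lit 10]⟩,
 ⟨nat_lit 3872, nat_lit 4473, ⟨.ofNat (nat_lit 697279), .ofNat (nat_lit 969223), .ofNat (nat_lit 702666), .ofNat (nat_lit 974610), .ofNat (nat_lit 695183), .ofNat (nat_lit 953301), .ofNat (nat_lit 700626), .ofNat (nat_lit 958745)⟩, ⟨.ofNat (nat_lit 259489), .ofNat (nat_lit 429434), .ofNat (nat_lit 302621), .ofNat (nat_lit 472567), .ofNat (nat_lit 261131), .ofNat (nat_lit 422435), .ofNat (nat_lit 304717), .ofNat (nat_lit 466021)⟩⟩, [⟨nat_lit 4, nat_lit 100, nat_lit 76, nat_lit 72, nat_lit 406808415⟩, ⟨nat_lit 19, nat_lit 80, nat_lit 100, nat_lit 72, nat_lit 69676453⟩]⟩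
noncomputable def p098_l52 : Lf2 := ⟨nat_lit 0, nat_lit 10, [nat_lit 0, nat_lit 5, nat_lit 5, nat_lit 20], false, nat_lit 160, nat_lit 252, nat_lit 0, nat_lit 252, ⟨nat_lit 1000, nat_lit 0, nat_lit 0, nat_lit 0, nat_lit 0, nat_lit 0, nat_lit 0, nat_lit 0, nat_lit 0, nat_lit 0, nat_lit 0, nat_lit 0, nat_lit 0, nat_lit 0, nat_lit 0, nat_lit 0, false, false⟩,
 nat_lit 0, nat_lit 0, nat_lit 7041, nat_lit 0, nat_lit 7423, nat_lit 5384, nat_lit 0, nat_lit 0, nat_lit 0, nat_lit 2521, nat_lit 0, nat_lit 0, nat_lit 0, nat_lit 0, nat_lit 0, nat_lit 0, nat_lit 0, nat_lit 0, [],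
 ⟨p098_k15, nat_lit 0, nat_lit 0, nat_lit 87, nat_lit 0, nat_lit 0, [nat_lit 2032000001, nat_lit 4688000000, nat_lit 6250000000], [], [nat_lit 22496810780, nat_lit 23790173756, nat_lit 33564331158, nat_lit 34562240496, nat_lit 25101458379, nat_lit 26170578633, nat_lit 34614237565, nat_lit 35440832664], nat_lit 0, nat_lit 0, nat_lit 0, nat_lit 0, nat_lit 0, nat_lit 0, [], [nat_lit 6, nat_lit 40, nat_lit 40, nat_lit 80, nat_lit 3, nat_lit 289, nat_lit 75, nat_lit 9]⟩, ⟨p098_k15, nat_lit 0, nat_lit 0, nat_lit 719, nat_lit 0, nat_lit 1490196, [nat_lit 2032000000, nat_lit 4688000000, nat_lit 6250000000], [], [nat_lit 31340917532, nat_lit 31470229528, nat_lit 36657986532, nat_lit 36978926760, nat_lit 30251758211, nat_lit 30343790854, nat_lit 32466184342, nat_lit 32528186663], nat_lit 1271250, nat_lit 1271250, nat_lit 1271250, nat_lit 1271250, nat_lit 0, nat_lit 1779750, [nat_lit 490000, nat_lit 1100000, nat_lit 1442500],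 [nat_lit 6, nat_lit 40, nat_lit 40, nat_lit 80, nat_lit 3, nat_lit 303, nat_lit 75, nat_lit 11]⟩,
 zbF0, [⟨nat_lit 4, nat_lit 100, nat_lit 75, nat_lit 72, nat_lit 624621042⟩, ⟨nat_lit 7, nat_lit 100, nat_lit 77, nat_lit 72, nat_lit 145285956⟩]⟩
noncomputable def p098_l53 : Lf2 := ⟨nat_lit 0, nat_lit 5, [nat_lit 4, nat_lit 5, nat_lit 5, nat_lit 20], false, nat_lit 160, nat_lit 232, nat_lit 0, nat_lit 160, ⟨nat_lit 252, nat_lit 748, nat_lit 0, nat_lit 8, nat_lit 330, nat_lit 748, nat_lit 136, nat_lit 0, nat_lit 0, nat_lit 0, nat_lit 0, nat_lit 0, nat_lit 35976990, nat_lit 24984882, nat_lit 6038128, nat_lit 4899021, true, true⟩,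
 nat_lit 0, nat_lit 0, nat_lit 2242, nat_lit 0, nat_lit 3016, nat_lit 1681, nat_lit 445, nat_lit 0, nat_lit 0, nat_lit 96, nat_lit 0, nat_lit 0, nat_lit 0, nat_lit 0, nat_lit 0, nat_lit 299200, nat_lit 0, nat_lit 0, [(nat_lit 21, [(nat_lit 1, nat_lit 748)])],
 ⟨p098_k12, nat_lit 0, nat_lit 0, nat_lit 84, nat_lit 0, nat_lit 0, [nat_lit 1525753600, nat_lit 2291408000], [], [nat_lit 21843106133, nat_lit 22384601629, nat_lit 28607609360, nat_lit 29018679432, nat_lit 23611493525, nat_lit 24094636521, nat_lit 29770279170, nat_lit 30140990643], nat_lit 0, nat_lit 0, nat_lit 0, nat_lit 0, nat_lit 0, nat_lit 0, [], [nat_lit 24, nat_lit 40, nat_lit 40, nat_lit 80, nat_lit 33, nat_lit 203, nat_lit 0, nat_lit 7]⟩, ⟨p098_k13, nat_lit 0, nat_lit 0, nat_lit 745, nat_lit 0, nat_lit 1555842, [nat_lit 512064000, nat_lit 1181376000, nat_lit 1575000000], [], [nat_lit 8983536556, nat_lit 9016986731, nat_lit 10064057692, nat_lit 10154521197,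 nat_lit 8276565308, nat_lit 8299993103, nat_lit 8957236412, nat_lit 8976052358], nat_lit 1271250, nat_lit 1271250, nat_lit 1271250, nat_lit 1271250, nat_lit 0, nat_lit 1100001, [nat_lit 490000, nat_lit 1100000, nat_lit 1442500], [nat_lit 6, nat_lit 40, nat_lit 40, nat_lit 80, nat_lit 3, nat_lit 297, nat_lit 40, nat_lit 11]⟩,
 ⟨nat_lit 3535, nat_lit 3873, ⟨.ofNat (nat_lit 695250), .ofNat (nat_lit 953359), .ofNat (nat_lit 700697), .ofNat (nat_lit 958806), .ofNat (nat_lit 694446), .ofNat (nat_lit 945515), .ofNat (nat_lit 699932), .ofNat (nat_lit 951002)⟩, ⟨.ofNat (nat_lit 261131), .ofNat (nat_lit 377270), .ofNat (nat_lit 304717), .ofNat (nat_lit 420856), .ofNat (nat_lit 261616), .ofNat (nat_lit 374587), .ofNat (nat_lit 305521), .ofNat (nat_lit 418492)⟩⟩, [⟨nat_lit 13, nat_lit 87, nat_lit 19, nat_lit 100, nat_lit 35257560⟩, ⟨nat_lit 4, nat_lit 100, nat_lit 69, nat_lit 71, nat_lit 286775420⟩]⟩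
noncomputable def p098_l54 : Lf2 := ⟨nat_lit 0, nat_lit 5, [nat_lit 4, nat_lit 5, nat_lit 5, nat_lit 20], false, nat_lit 160, nat_lit 232, nat_lit 160, nat_lit 260, ⟨nat_lit 318, nat_lit 682, nat_lit 0, nat_lit 8, nat_lit 330, nat_lit 682, nat_lit 136, nat_lit 0, nat_lit 0, nat_lit 0, nat_lit 0, nat_lit 0, nat_lit 35939014, nat_lit 25020663, nat_lit 6040323, nat_lit 4900399, true, true⟩,
 nat_lit 0, nat_lit 0, nat_lit 2851, nat_lit 0, nat_lit 3088, nat_lit 2137, nat_lit 659, nat_lit 0, nat_lit 0, nat_lit 133, nat_lit 0, nat_lit 0, nat_lit 0, nat_lit 0, nat_lit 0, nat_lit 272800, nat_lit 0, nat_lit 0, [(nat_lit 21, [(nat_lit 1, nat_lit 682)])],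
 ⟨p098_k12, nat_lit 0, nat_lit 0, nat_lit 83, nat_lit 0, nat_lit 0, [nat_lit 1570422400, nat_lit 2502872000], [], [nat_lit 21461011019, nat_lit 21734441883, nat_lit 28671297680, nat_lit 28894135852, nat_lit 23230268675, nat_lit 23480895516, nat_lit 29824803733, nat_lit 30011420758], nat_lit 0, nat_lit 0, nat_lit 0, nat_lit 0, nat_lit 0, nat_lit 0, [], [nat_lit 24, nat_lit 40, nat_lit 40, nat_lit 80, nat_lit 33, nat_lit 203, nat_lit 0, nat_lit 7]⟩, ⟨p098_k13, nat_lit 0, nat_lit 0, nat_lit 635, nat_lit 0, nat_lit 1503440, [nat_lit 646176000, nat_lit 1490784000, nat_lit 1987500000], [], [nat_lit 9706232828, nat_lit 9751667751, nat_lit 10799921336, nat_lit 10829293932, nat_lit 9929412164, nat_lit 9966658809, nat_lit 10802366862, nat_lit 10831103715], nat_lit 1271250, nat_lit 1271250, nat_lit 1271250, nat_lit 1271250, nat_lit 1100001, nat_lit 1956250, [nat_lit 490000, nat_lit 1100000, nat_lit 1442500], [nat_lit 6, nat_lit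 40, nat_lit 40, nat_lit 80, nat_lit 3, nat_lit 289, nat_lit 75, nat_lit 9]⟩,
 ⟨nat_lit 3708, nat_lit 3873, ⟨.ofNat (nat_lit 695273), .ofNat (nat_lit 953364), .ofNat (nat_lit 700721), .ofNat (nat_lit 958812), .ofNat (nat_lit 694848), .ofNat (nat_lit 949436), .ofNat (nat_lit 700315), .ofNat (nat_lit 954903)⟩, ⟨.ofNat (nat_lit 261131), .ofNat (nat_lit 377270), .ofNat (nat_lit 304717), .ofNat (nat_lit 420856), .ofNat (nat_lit 261406), .ofNat (nat_lit 375969), .ofNat (nat_lit 305143), .ofNat (nat_lit 419705)⟩⟩, [⟨nat_lit 13, nat_lit 89, nat_lit 17, nat_lit 100, nat_lit 32735038⟩, ⟨nat_lit 16, nat_lit 72, nat_lit 100, nat_lit 81, nat_lit 258441819⟩, ⟨nat_lit 19, nat_lit 83, nat_lit 100, nat_lit 83, nat_lit 96713380⟩]⟩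
noncomputable def p098_l55 : Lf2 := ⟨nat_lit 0, nat_lit 5, [nat_lit 4, nat_lit 5, nat_lit 5, nat_lit 20], false, nat_lit 160, nat_lit 224, nat_lit 160, nat_lit 260, ⟨nat_lit 208, nat_lit 792, nat_lit 0, nat_lit 8, nat_lit 330, nat_lit 792, nat_lit 134, nat_lit 0, nat_lit 0, nat_lit 0, nat_lit 0, nat_lit 0, nat_lit 36115262, nat_lit 25007612, nat_lit 5877126, nat_lit 4873557, true, true⟩,
 nat_lit 0, nat_lit 0, nat_lit 1864, nat_lit 0, nat_lit 2990, nat_lit 1397, nat_lit 293, nat_lit 0, nat_lit 0, nat_lit 73, nat_lit 0, nat_lit 0, nat_lit 0, nat_lit 0, nat_lit 0, nat_lit 316800, nat_lit 0, nat_lit 0, [(nat_lit 21, [(nat_lit 1, nat_lit 792)])],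
 ⟨p098_k18, nat_lit 0, nat_lit 0, nat_lit 84, nat_lit 0, nat_lit 0, [nat_lit 1495974401, nat_lit 2150432000], [], [nat_lit 22176029616, nat_lit 22445808461, nat_lit 28777101476, nat_lit 28981611440, nat_lit 23721866604, nat_lit 23965861878, nat_lit 29780868843, nat_lit 29967998755], nat_lit 0, nat_lit 0, nat_lit 0, nat_lit 0, nat_lit 0, nat_lit 0, [], [nat_lit 24, nat_lit 40, nat_lit 40, nat_lit 80, nat_lit 33, nat_lit 203, nat_lit 0, nat_lit 7]⟩, ⟨p098_k13, nat_lit 0, nat_lit 0, nat_lit 656, nat_lit 0, nat_lit 1555842, [nat_lit 422656000, nat_lit 975104000, nat_lit 1300000000], [], [nat_lit 6407886268, nat_lit 6435546547, nat_lit 7068690616, nat_lit 7087902552, nat_lit 6528639827, nat_lit 6551248315, nat_lit 7070469372, nat_lit 7085786105], nat_lit 1271250, nat_lit 1271250, nat_lit 1271250, nat_lit 1271250, nat_lit 1100001, nat_lit 1956250, [nat_lit 490000, nat_lit 1100000, nat_lit 1442500], [nat_lit 6, nat_lit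 40, nat_lit 40, nat_lit 80, nat_lit 3, nat_lit 289, nat_lit 75, nat_lit 9]⟩,
 ⟨nat_lit 3535, nat_lit 3709, ⟨.ofNat (nat_lit 694847), .ofNat (nat_lit 949437), .ofNat (nat_lit 700314), .ofNat (nat_lit 954904), .ofNat (nat_lit 694469), .ofNat (nat_lit 945520), .ofNat (nat_lit 699956), .ofNat (nat_lit 951008)⟩, ⟨.ofNat (nat_lit 261406), .ofNat (nat_lit 363239), .ofNat (nat_lit 305143), .ofNat (nat_lit 406976), .ofNat (nat_lit 261616), .ofNat (nat_lit 362034), .ofNat (nat_lit 305521), .ofNat (nat_lit 405940)⟩⟩, [⟨nat_lit 13, nat_lit 85, nat_lit 21, nat_lit 100, nat_lit 43889004⟩, ⟨nat_lit 16, nat_lit 69, nat_lit 100, nat_lit 81, nat_lit 233590226⟩, ⟨nat_lit 19, nat_lit 83, nat_lit 100, nat_lit 83, nat_lit 63238856⟩]⟩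
noncomputable def p098_l56 : Lf2 := ⟨nat_lit 0, nat_lit 10, [nat_lit 0, nat_lit 5, nat_lit 5, nat_lit 20], false, nat_lit 160, nat_lit 232, nat_lit 0, nat_lit 260, ⟨nat_lit 342, nat_lit 658, nat_lit 0, nat_lit 8, nat_lit 330, nat_lit 658, nat_lit 136, nat_lit 0, nat_lit 0, nat_lit 0, nat_lit 0, nat_lit 0, nat_lit 35939014, nat_lit 25020663, nat_lit 6040323, nat_lit 4900399, true, true⟩,
 nat_lit 0, nat_lit 0, nat_lit 2912, nat_lit 0, nat_lit 3315, nat_lit 2184, nat_lit 308, nat_lit 0, nat_lit 0, nat_lit 116, nat_lit 0, nat_lit 0, nat_lit 0, nat_lit 0, nat_lit 0, nat_lit 263200, nat_lit 0, nat_lit 0, [(nat_lit 21, [(nat_lit 1, nat_lit 658)])],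
 ⟨p098_k9, nat_lit 0, nat_lit 0, nat_lit 90, nat_lit 0, nat_lit 0, [nat_lit 1586665601, nat_lit 2585558400, nat_lit 3119236000], [], [nat_lit 22501700671, nat_lit 22766725874, nat_lit 29025351761, nat_lit 29209984764, nat_lit 24154381057, nat_lit 24390591513, nat_lit 30081390900, nat_lit 30288571102], nat_lit 0, nat_lit 0, nat_lit 0, nat_lit 0, nat_lit 0, nat_lit 0, [], [nat_lit 6, nat_lit 40, nat_lit 40, nat_lit 80, nat_lit 3, nat_lit 272, nat_lit 60, nat_lit 9]⟩, ⟨p098_k7, nat_lit 0, nat_lit 0, nat_lit 609, nat_lit 0, nat_lit 1230632, [nat_lit 694944000, nat_lit 1603296000, nat_lit 2137500000], [], [nat_lit 12251689928, nat_lit 12302290949, nat_lit 13477769144, nat_lit 13510783028, nat_lit 11508190940, nat_lit 11542464302, nat_lit 12311633632, nat_lit 12336467238], nat_lit 1271250, nat_lit 1271250, nat_lit 1271250, nat_lit 1271250, nat_lit 0, nat_lit 1836250, [nat_lit 490000, nat_lit 1100000, nat_lit 1442500],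 [nat_lit 6, nat_lit 40, nat_lit 40, nat_lit 80, nat_lit 3, nat_lit 289, nat_lit 75, nat_lit 10]⟩,
 ⟨nat_lit 3708, nat_lit 3873, ⟨.ofNat (nat_lit 695273), .ofNat (nat_lit 953364), .ofNat (nat_lit 700721), .ofNat (nat_lit 958812), .ofNat (nat_lit 694848), .ofNat (nat_lit 949436), .ofNat (nat_lit 700315), .ofNat (nat_lit 954903)⟩, ⟨.ofNat (nat_lit 261131), .ofNat (nat_lit 377270), .ofNat (nat_lit 304717), .ofNat (nat_lit 420856), .ofNat (nat_lit 261406), .ofNat (nat_lit 375969), .ofNat (nat_lit 305143), .ofNat (nat_lit 419705)⟩⟩, [⟨nat_lit 4, nat_lit 100, nat_lit 70, nat_lit 71, nat_lit 292478562⟩, ⟨nat_lit 7, nat_lit 100, nat_lit 80, nat_lit 72, nat_lit 62097012⟩]⟩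
noncomputable def p098_l57 : Lf2 := ⟨nat_lit 0, nat_lit 10, [nat_lit 0, nat_lit 5, nat_lit 5, nat_lit 20], false, nat_lit 160, nat_lit 224, nat_lit 0, nat_lit 260, ⟨nat_lit 334, nat_lit 666, nat_lit 0, nat_lit 8, nat_lit 330, nat_lit 666, nat_lit 134, nat_lit 0, nat_lit 0, nat_lit 0, nat_lit 0, nat_lit 0, nat_lit 36115262, nat_lit 25007612, nat_lit 5877126, nat_lit 4873557, true, true⟩,
 nat_lit 0, nat_lit 0, nat_lit 2845, nat_lit 0, nat_lit 3107, nat_lit 2133, nat_lit 367, nat_lit 0, nat_lit 0, nat_lit 113, nat_lit 0, nat_lit 0, nat_lit 0, nat_lit 0, nat_lit 0, nat_lit 266400, nat_lit 0, nat_lit 0, [(nat_lit 21, [(nat_lit 1, nat_lit 666)])],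
 ⟨p098_k19, nat_lit 0, nat_lit 0, nat_lit 93, nat_lit 0, nat_lit 0, [nat_lit 1581251200, nat_lit 2559996801, nat_lit 3081172000], [], [nat_lit 22504507701, nat_lit 22762514255, nat_lit 28956444474, nat_lit 29147123134, nat_lit 23950932868, nat_lit 24184437700, nat_lit 29909983930, nat_lit 30115583843], nat_lit 0, nat_lit 0, nat_lit 0, nat_lit 0, nat_lit 0, nat_lit 0, [], [nat_lit 6, nat_lit 40, nat_lit 40, nat_lit 80, nat_lit 3, nat_lit 272, nat_lit 60, nat_lit 9]⟩, ⟨p098_k7, nat_lit 0, nat_lit 0, nat_lit 628, nat_lit 0, nat_lit 1281887, [nat_lit 678688000, nat_lit 1565792000, nat_lit 2087500000], [], [nat_lit 11966927556, nat_lit 12016345558, nat_lit 13164333648, nat_lit 13196575344, nat_lit 11240737640, nat_lit 11274209422, nat_lit 12024245454, nat_lit 12047362490], nat_lit 1271250, nat_lit 1271250, nat_lit 1271250, nat_lit 1271250, nat_lit 0, nat_lit 1836250, [nat_lit 490000, nat_lit 1100000, nat_lit 1442500],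 [nat_lit 6, nat_lit 40, nat_lit 40, nat_lit 80, nat_lit 3, nat_lit 289, nat_lit 75, nat_lit 10]⟩,
 ⟨nat_lit 3535, nat_lit 3709, ⟨.ofNat (nat_lit 694847), .ofNat (nat_lit 949437), .ofNat (nat_lit 700314), .ofNat (nat_lit 954904), .ofNat (nat_lit 694469), .ofNat (nat_lit 945520), .ofNat (nat_lit 699956), .ofNat (nat_lit 951008)⟩, ⟨.ofNat (nat_lit 261406), .ofNat (nat_lit 363239), .ofNat (nat_lit 305143), .ofNat (nat_lit 406976), .ofNat (nat_lit 261616), .ofNat (nat_lit 362034), .ofNat (nat_lit 305521), .ofNat (nat_lit 405940)⟩⟩, [⟨nat_lit 13, nat_lit 85, nat_lit 21, nat_lit 100, nat_lit 7714405⟩, ⟨nat_lit 4, nat_lit 100, nat_lit 68, nat_lit 71, nat_lit 316254784⟩, ⟨nat_lit 7, nat_lit 100, nat_lit 80, nat_lit 72, nat_lit 60666588⟩]⟩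
noncomputable def p098_l58 : Lf2 := ⟨nat_lit 0, nat_lit 10, [nat_lit 0, nat_lit 5, nat_lit 5, nat_lit 20], false, nat_lit 160, nat_lit 232, nat_lit 0, nat_lit 252, ⟨nat_lit 608, nat_lit 392, nat_lit 0, nat_lit 8, nat_lit 332, nat_lit 392, nat_lit 136, nat_lit 0, nat_lit 0, nat_lit 0, nat_lit 0, nat_lit 0, nat_lit 35805832, nat_lit 25177011, nat_lit 6017157, nat_lit 4901075, true, false⟩,
 nat_lit 0, nat_lit 0, nat_lit 4563, nat_lit 0, nat_lit 3889, nat_lit 3489, nat_lit 411, nat_lit 0, nat_lit 0, nat_lit 1124, nat_lit 0, nat_lit 0, nat_lit 0, nat_lit 0, nat_lit 0, nat_lit 98000, nat_lit 0, nat_lit 0, [(nat_lit 21, [(nat_lit 0, nat_lit 392)])],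
 ⟨p098_k9, nat_lit 0, nat_lit 0, nat_lit 93, nat_lit 0, nat_lit 0, [nat_lit 1846348800, nat_lit 3691536000, nat_lit 4641232000], [], [nat_lit 22832452467, nat_lit 23401240410, nat_lit 29843738799, nat_lit 30249402180, nat_lit 24479303539, nat_lit 24983561246, nat_lit 30774865703, nat_lit 31210565903], nat_lit 0, nat_lit 0, nat_lit 0, nat_lit 0, nat_lit 0, nat_lit 0, [], [nat_lit 6, nat_lit 40, nat_lit 40, nat_lit 80, nat_lit 3, nat_lit 272, nat_lit 60, nat_lit 9]⟩, ⟨p098_k15, nat_lit 0, nat_lit 0, nat_lit 760, nat_lit 0, nat_lit 1591818, [nat_lit 1235456000, nat_lit 2850304000, nat_lit 3800000000], [], [nat_lit 19664583567, nat_lit 19738722914, nat_lit 22897423083, nat_lit 23098927258, nat_lit 18791285219, nat_lit 18843235490, nat_lit 20013838735, nat_lit 20047893110], nat_lit 1271250, nat_lit 1271250, nat_lit 1271250, nat_lit 1271250, nat_lit 0, nat_lit 1779750, [nat_lit 490000, nat_lit 1100000, nat_lit 1442500],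 [nat_lit 6, nat_lit 40, nat_lit 40, nat_lit 80, nat_lit 3, nat_lit 313, nat_lit 75, nat_lit 11]⟩,
 ⟨nat_lit 3535, nat_lit 3873, ⟨.ofNat (nat_lit 700697), .ofNat (nat_lit 958806), .ofNat (nat_lit 706143), .ofNat (nat_lit 964253), .ofNat (nat_lit 699932), .ofNat (nat_lit 951002), .ofNat (nat_lit 705418), .ofNat (nat_lit 956488)⟩, ⟨.ofNat (nat_lit 261131), .ofNat (nat_lit 377270), .ofNat (nat_lit 304717), .ofNat (nat_lit 420856), .ofNat (nat_lit 261616), .ofNat (nat_lit 374587), .ofNat (nat_lit 305521), .ofNat (nat_lit 418492)⟩⟩, [⟨nat_lit 4, nat_lit 100, nat_lit 69, nat_lit 71, nat_lit 479702919⟩, ⟨nat_lit 19, nat_lit 77, nat_lit 100, nat_lit 72, nat_lit 75080770⟩]⟩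
noncomputable def p098_l59 : Lf2 := ⟨nat_lit 0, nat_lit 10, [nat_lit 0, nat_lit 5, nat_lit 5, nat_lit 20], true, nat_lit 160, nat_lit 216, nat_lit 0, nat_lit 260, ⟨nat_lit 0, nat_lit 1000, nat_lit 0, nat_lit 8, nat_lit 304, nat_lit 1000, nat_lit 131, nat_lit 0, nat_lit 0, nat_lit 0, nat_lit 0, nat_lit 0, nat_lit 38336164, nat_lit 22728496, nat_lit 5935340, nat_lit 4803352, true, false⟩,
 nat_lit 0, nat_lit 0, nat_lit 0, nat_lit 0, nat_lit 3743, nat_lit 0, nat_lit 0, nat_lit 0, nat_lit 0, nat_lit 0, nat_lit 0, nat_lit 0, nat_lit 0, nat_lit 0, nat_lit 0, nat_lit 250000, nat_lit 0, nat_lit 0, [(nat_lit 21, [(nat_lit 0, nat_lit 1000)])],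
 ⟨p098_k16, nat_lit 0, nat_lit 0, nat_lit 46, nat_lit 0, nat_lit 0, [nat_lit 1558400000, nat_lit 1963600000], [], [nat_lit 22173093167, nat_lit 22768772700, nat_lit 25473578886, nat_lit 26002206628, nat_lit 23502572220, nat_lit 24069825759, nat_lit 26534880181, nat_lit 27092935407], nat_lit 0, nat_lit 0, nat_lit 0, nat_lit 0, nat_lit 0, nat_lit 0, [], [nat_lit 24, nat_lit 40, nat_lit 40, nat_lit 80, nat_lit 33, nat_lit 203, nat_lit 0, nat_lit 7]⟩, C1.Rw.none,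
 ⟨nat_lit 3162, nat_lit 3536, ⟨.ofNat (nat_lit 694437), .ofNat (nat_lit 819981), .ofNat (nat_lit 699923), .ofNat (nat_lit 825467), .ofNat (nat_lit 693843), .ofNat (nat_lit 815770), .ofNat (nat_lit 699379), .ofNat (nat_lit 821307)⟩, ⟨.ofNat (nat_lit 261616), .ofNat (nat_lit 349482), .ofNat (nat_lit 305521), .ofNat (nat_lit 393387), .ofNat (nat_lit 261806), .ofNat (nat_lit 347141), .ofNat (nat_lit 306116), .ofNat (nat_lit 391450)⟩⟩, [⟨nat_lit 16, nat_lit 66, nat_lit 100, nat_lit 80, nat_lit 201488144⟩]⟩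
noncomputable def p098_l60 : Lf2 := ⟨nat_lit 0, nat_lit 10, [nat_lit 0, nat_lit 5, nat_lit 5, nat_lit 20], false, nat_lit 160, nat_lit 216, nat_lit 16, nat_lit 260, ⟨nat_lit 101, nat_lit 899, nat_lit 0, nat_lit 8, nat_lit 341, nat_lit 899, nat_lit 131, nat_lit 0, nat_lit 0, nat_lit 0, nat_lit 0, nat_lit 0, nat_lit 35350971, nat_lit 26046229, nat_lit 5602800, nat_lit 4855697, true, true⟩,
 nat_lit 0, nat_lit 0, nat_lit 1109, nat_lit 0, nat_lit 3516, nat_lit 831, nat_lit 80, nat_lit 0, nat_lit 0, nat_lit 0, nat_lit 0, nat_lit 0, nat_lit 0, nat_lit 0, nat_lit 0, nat_lit 224750, nat_lit 0, nat_lit 0, [(nat_lit 21, [(nat_lit 0, nat_lit 899)])],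
 ⟨p098_k16, nat_lit 0, nat_lit 0, nat_lit 69, nat_lit 0, nat_lit 0, [nat_lit 1606233600, nat_lit 2238764400], [], [nat_lit 25644470376, nat_lit 26132301008, nat_lit 27458186372, nat_lit 27910940800, nat_lit 26696897008, nat_lit 27144009295, nat_lit 28361942680, nat_lit 28849798373], nat_lit 0, nat_lit 0, nat_lit 0, nat_lit 0, nat_lit 0, nat_lit 0, [], [nat_lit 24, nat_lit 40, nat_lit 40, nat_lit 80, nat_lit 33, nat_lit 203, nat_lit 0, nat_lit 6]⟩, ⟨p098_k10, nat_lit 0, nat_lit 0, nat_lit 795, nat_lit 0, nat_lit 1710749, [nat_lit 205232000, nat_lit 631250000], [], [nat_lit 3753110796, nat_lit 3758777886, nat_lit 3834918362, nat_lit 3883059060, nat_lit 3254589673, nat_lit 3257296502, nat_lit 3276244305, nat_lit 3279691445], nat_lit 1271250, nat_lit 1271250, nat_lit 1271250, nat_lit 1271250, nat_lit 88400, nat_lit 1848250, [nat_lit 490000, nat_lit 1427500], [nat_lit 69, nat_lit 40, nat_lit 40, nat_lit 80, nat_lit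 64, nat_lit 317, nat_lit 75, nat_lit 11]⟩,
 ⟨nat_lit 3162, nat_lit 3536, ⟨.ofNat (nat_lit 819981), .ofNat (nat_lit 882753), .ofNat (nat_lit 825467), .ofNat (nat_lit 888239), .ofNat (nat_lit 815770), .ofNat (nat_lit 876734), .ofNat (nat_lit 821307), .ofNat (nat_lit 882271)⟩, ⟨.ofNat (nat_lit 261616), .ofNat (nat_lit 349482), .ofNat (nat_lit 305521), .ofNat (nat_lit 393387), .ofNat (nat_lit 261806), .ofNat (nat_lit 347141), .ofNat (nat_lit 306116), .ofNat (nat_lit 391450)⟩⟩, [⟨nat_lit 16, nat_lit 66, nat_lit 100, nat_lit 80, nat_lit 218382178⟩, ⟨nat_lit 19, nat_lit 83, nat_lit 100, nat_lit 83, nat_lit 7693231⟩]⟩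
noncomputable def p098_l61 : Lf2 := ⟨nat_lit 0, nat_lit 10, [nat_lit 0, nat_lit 5, nat_lit 5, nat_lit 20], false, nat_lit 160, nat_lit 216, nat_lit 48, nat_lit 260, ⟨nat_lit 205, nat_lit 795, nat_lit 0, nat_lit 9, nat_lit 365, nat_lit 795, nat_lit 131, nat_lit 0, nat_lit 0, nat_lit 0, nat_lit 0, nat_lit 0, nat_lit 33463205, nat_lit 28160769, nat_lit 5376026, nat_lit 4857457, true, true⟩,
 nat_lit 0, nat_lit 0, nat_lit 1902, nat_lit 0, nat_lit 2967, nat_lit 1426, nat_lit 221, nat_lit 0, nat_lit 0, nat_lit 62, nat_lit 0, nat_lit 0, nat_lit 0, nat_lit 0, nat_lit 0, nat_lit 318000, nat_lit 0, nat_lit 0, [(nat_lit 21, [(nat_lit 1, nat_lit 795)])],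
 ⟨p098_k16, nat_lit 0, nat_lit 0, nat_lit 86, nat_lit 0, nat_lit 0, [nat_lit 1493944001, nat_lit 2140820000], [], [nat_lit 27237264015, nat_lit 27653756046, nat_lit 29055216349, nat_lit 29431393250, nat_lit 28186813511, nat_lit 28571181459, nat_lit 29869157188, nat_lit 30226333312], nat_lit 0, nat_lit 0, nat_lit 0, nat_lit 0, nat_lit 0, nat_lit 0, [], [nat_lit 24, nat_lit 40, nat_lit 40, nat_lit 80, nat_lit 33, nat_lit 203, nat_lit 0, nat_lit 6]⟩, ⟨p098_k7, nat_lit 0, nat_lit 0, nat_lit 768, nat_lit 0, nat_lit 1710749, [nat_lit 416560000, nat_lit 961040000, nat_lit 1281250000], [], [nat_lit 7449343176, nat_lit 7463371929, nat_lit 7602592203, nat_lit 7643274818, nat_lit 6951288844, nat_lit 6960023229, nat_lit 7059655009, nat_lit 7067777182], nat_lit 1271250, nat_lit 1271250, nat_lit 1271250, nat_lit 1271250, nat_lit 279600, nat_lit 1872250, [nat_lit 490000, nat_lit 1100000, nat_lit 1442500], [nat_lit 6, nat_lit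 40, nat_lit 40, nat_lit 80, nat_lit 3, nat_lit 316, nat_lit 75, nat_lit 10]⟩,
 ⟨nat_lit 3162, nat_lit 3536, ⟨.ofNat (nat_lit 882753), .ofNat (nat_lit 945521), .ofNat (nat_lit 888239), .ofNat (nat_lit 951009), .ofNat (nat_lit 876734), .ofNat (nat_lit 937695), .ofNat (nat_lit 882271), .ofNat (nat_lit 943233)⟩, ⟨.ofNat (nat_lit 261616), .ofNat (nat_lit 349482), .ofNat (nat_lit 305521), .ofNat (nat_lit 393387), .ofNat (nat_lit 261806), .ofNat (nat_lit 347141), .ofNat (nat_lit 306116), .ofNat (nat_lit 391450)⟩⟩, [⟨nat_lit 13, nat_lit 80, nat_lit 29, nat_lit 100, nat_lit 152926204⟩, ⟨nat_lit 16, nat_lit 66, nat_lit 100, nat_lit 80, nat_lit 243678420⟩, ⟨nat_lit 19, nat_lit 83, nat_lit 100, nat_lit 83, nat_lit 33420397⟩]⟩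
noncomputable def p098_l62 : Lf2 := ⟨nat_lit 0, nat_lit 10, [nat_lit 0, nat_lit 5, nat_lit 5, nat_lit 20], false, nat_lit 160, nat_lit 216, nat_lit 0, nat_lit 252, ⟨nat_lit 675, nat_lit 325, nat_lit 0, nat_lit 8, nat_lit 330, nat_lit 325, nat_lit 131, nat_lit 0, nat_lit 0, nat_lit 0, nat_lit 0, nat_lit 0, nat_lit 36151213, nat_lit 25153578, nat_lit 5695209, nat_lit 4847690, true, false⟩,
 nat_lit 0, nat_lit 0, nat_lit 4932, nat_lit 0, nat_lit 4191, nat_lit 3771, nat_lit 178, nat_lit 0, nat_lit 0, nat_lit 1545, nat_lit 0, nat_lit 0, nat_lit 0, nat_lit 0, nat_lit 0, nat_lit 81250, nat_lit 0, nat_lit 0, [(nat_lit 21, [(nat_lit 0, nat_lit 325)])],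
 ⟨p098_k16, nat_lit 0, nat_lit 0, nat_lit 86, nat_lit 0, nat_lit 0, [nat_lit 1878080000, nat_lit 3802570000], [], [nat_lit 23037301729, nat_lit 23666371150, nat_lit 30738795880, nat_lit 31180990298, nat_lit 24366443035, nat_lit 24973122846, nat_lit 31409903273, nat_lit 31845502558], nat_lit 0, nat_lit 0, nat_lit 0, nat_lit 0, nat_lit 0, nat_lit 0, [], [nat_lit 24, nat_lit 40, nat_lit 40, nat_lit 80, nat_lit 33, nat_lit 203, nat_lit 0, nat_lit 7]⟩, ⟨p098_k15, nat_lit 0, nat_lit 0, nat_lit 811, nat_lit 0, nat_lit 1698312, [nat_lit 1371600000, nat_lit 3164400000, nat_lit 4218750000], [], [nat_lit 21718022639, nat_lit 21793910949, nat_lit 25130918696, nat_lit 25351598115, nat_lit 20806212044, nat_lit 20859502844, nat_lit 22061394286, nat_lit 22113066229], nat_lit 1271250, nat_lit 1271250, nat_lit 1271250, nat_lit 1271250, nat_lit 0, nat_lit 1779750, [nat_lit 490000, nat_lit 1100000, nat_lit 1442500], [nat_lit 6, nat_lit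 40, nat_lit 40, nat_lit 80, nat_lit 3, nat_lit 326, nat_lit 75, nat_lit 12]⟩,
 ⟨nat_lit 3162, nat_lit 3536, ⟨.ofNat (nat_lit 699923), .ofNat (nat_lit 951009), .ofNat (nat_lit 705409), .ofNat (nat_lit 956496), .ofNat (nat_lit 699379), .ofNat (nat_lit 943233), .ofNat (nat_lit 704916), .ofNat (nat_lit 948770)⟩, ⟨.ofNat (nat_lit 261616), .ofNat (nat_lit 349482), .ofNat (nat_lit 305521), .ofNat (nat_lit 393387), .ofNat (nat_lit 261806), .ofNat (nat_lit 347141), .ofNat (nat_lit 306116), .ofNat (nat_lit 391450)⟩⟩, [⟨nat_lit 16, nat_lit 63, nat_lit 100, nat_lit 72, nat_lit 668263027⟩, ⟨nat_lit 19, nat_lit 77, nat_lit 100, nat_lit 72, nat_lit 89893869⟩]⟩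
noncomputable def p098_l63 : Lf2 := ⟨nat_lit 0, nat_lit 10, [nat_lit 0, nat_lit 5, nat_lit 5, nat_lit 20], false, nat_lit 160, nat_lit 244, nat_lit 0, nat_lit 244, ⟨nat_lit 734, nat_lit 266, nat_lit 0, nat_lit 8, nat_lit 335, nat_lit 266, nat_lit 140, nat_lit 0, nat_lit 0, nat_lit 0, nat_lit 0, nat_lit 0, nat_lit 35406329, nat_lit 25373878, nat_lit 6219793, nat_lit 4938568, true, false⟩,
 nat_lit 0, nat_lit 0, nat_lit 5035, nat_lit 0, nat_lit 5052, nat_lit 3924, nat_lit 273, nat_lit 0, nat_lit 0, nat_lit 1283, nat_lit 0, nat_lit 0, nat_lit 0, nat_lit 0, nat_lit 0, nat_lit 266000, nat_lit 0, nat_lit 0, [(nat_lit 18, [(nat_lit 2, nat_lit 266)]), (nat_lit 21, [(nat_lit 2, nat_lit 266)])],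
 ⟨p098_k20, nat_lit 0, nat_lit 0, nat_lit 100, nat_lit 0, nat_lit 0, [nat_lit 2098500001, nat_lit 4469608800], [], [nat_lit 22662667928, nat_lit 24728665376, nat_lit 30981008924, nat_lit 32435014720, nat_lit 24790966671, nat_lit 26558708971, nat_lit 31908178951, nat_lit 33324411933], nat_lit 0, nat_lit 0, nat_lit 0, nat_lit 0, nat_lit 0, nat_lit 0, [], [nat_lit 69, nat_lit 40, nat_lit 40, nat_lit 80, nat_lit 64, nat_lit 289, nat_lit 75, nat_lit 9]⟩, ⟨p098_k20, nat_lit 0, nat_lit 0, nat_lit 817, nat_lit 0, nat_lit 1720387, [nat_lit 1491488000, nat_lit 4587500000], [], [nat_lit 22756833312, nat_lit 22935041752, nat_lit 27062950714, nat_lit 27532443732, nat_lit 22054398989, nat_lit 22196330384, nat_lit 23948296463, nat_lit 24056795096], nat_lit 1271250, nat_lit 1271250, nat_lit 1271250, nat_lit 1271250, nat_lit 0, nat_lit 1723250, [nat_lit 490000, nat_lit 1427500], [nat_lit 69, nat_lit 40, nat_lit 40, nat_lit 80,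 nat_lit 64, nat_lit 328, nat_lit 75, nat_lit 12]⟩,
 ⟨nat_lit 3162, nat_lit 4184, ⟨.ofNat (nat_lit 706775), .ofNat (nat_lit 972009), .ofNat (nat_lit 717580), .ofNat (nat_lit 982822), .ofNat (nat_lit 704646), .ofNat (nat_lit 948671), .ofNat (nat_lit 715695), .ofNat (nat_lit 959728)⟩, ⟨.ofNat (nat_lit 260409), .ofNat (nat_lit 399546), .ofNat (nat_lit 303743), .ofNat (nat_lit 442879), .ofNat (nat_lit 261806), .ofNat (nat_lit 389808), .ofNat (nat_lit 306116), .ofNat (nat_lit 434118)⟩⟩, [⟨nat_lit 4, nat_lit 100, nat_lit 69, nat_lit 71, nat_lit 621737942⟩, ⟨nat_lit 7, nat_lit 100, nat_lit 74, nat_lit 72, nat_lit 94838511⟩]⟩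
noncomputable def b_V_800_800_10_3 : St := ⟨true, nat_lit 0, nat_lit 1, nat_lit 1, nat_lit 80, nat_lit 320, nat_lit 360, nat_lit 320, nat_lit 340, nat_lit 140, nat_lit 400, nat_lit 40, nat_lit 80, nat_lit 160, nat_lit 260, nat_lit 0, nat_lit 260, nat_lit 0, nat_lit 40, nat_lit 0, nat_lit 0, nat_lit 0, nat_lit 0⟩
theorem d_V_800_800_10_3 (h : EB TB.env) : Dead b_V_800_800_10_3 := chkB_sound0 h (T :=
(.spl (nat_lit 2) (nat_lit 240)
(.leaf p098_l45)
(.spl (nat_lit 1) (nat_lit 330)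
(.spl (nat_lit 0) (nat_lit 340)
(.spl (nat_lit 1) (nat_lit 325)
(.spl (nat_lit 8) (nat_lit 800)
(.leaf p098_l46)
(.spl (nat_lit 6) (nat_lit 20)
(.spl (nat_lit 0) (nat_lit 330)
(.spl (nat_lit 0) (nat_lit 325)
(.leaf p098_l47)
(.trX (nat_lit 16) (nat_lit 81) (nat_lit 100) (nat_lit 83) (nat_lit 252) (.leaf p098_l48)))
(.trX (nat_lit 16) (nat_lit 78) (nat_lit 100) (nat_lit 82) (nat_lit 244) (.spl (nat_lit 2) (nat_lit 320)
(.leaf p098_l49)
(.trZ (nat_lit 9) (nat_lit 100) (nat_lit 82) (nat_lit 44) (nat_lit 16) (.leaf p098_l50)))))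
(.leaf p098_l51)))
(.ord (.trX (nat_lit 16) (nat_lit 81) (nat_lit 100) (nat_lit 83) (nat_lit 252) (.trX (nat_lit 19) (nat_lit 81) (nat_lit 100) (nat_lit 83) (nat_lit 252) (.leaf p098_l52)))))
(.trX (nat_lit 16) (nat_lit 72) (nat_lit 100) (nat_lit 81) (nat_lit 232) (.spl (nat_lit 0) (nat_lit 350)
(.spl (nat_lit 1) (nat_lit 325)
(.spl (nat_lit 6) (nat_lit 20)
(.spl (nat_lit 5) (nat_lit 160)
(.leaf p098_l53)
(.spl (nat_lit 0) (nat_lit 345)
(.leaf p098_l54)
(.trX (nat_lit 16) (nat_lit 69) (nat_lit 100) (nat_lit 81) (nat_lit 224) (.leaf p098_l55))))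
(.spl (nat_lit 0) (nat_lit 345)
(.leaf p098_l56)
(.trX (nat_lit 16) (nat_lit 69) (nat_lit 100) (nat_lit 81) (nat_lit 224) (.leaf p098_l57))))
(.trX (nat_lit 19) (nat_lit 81) (nat_lit 100) (nat_lit 83) (nat_lit 252) (.leaf p098_l58)))
(.trX (nat_lit 16) (nat_lit 66) (nat_lit 100) (nat_lit 80) (nat_lit 216) (.spl (nat_lit 1) (nat_lit 325)
(.spl (nat_lit 2) (nat_lit 320)
(.leaf p098_l59)
(.trZ (nat_lit 9) (nat_lit 100) (nat_lit 82) (nat_lit 44) (nat_lit 16) (.spl (nat_lit 2) (nat_lit 360)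
(.leaf p098_l60)
(.trZ (nat_lit 9) (nat_lit 100) (nat_lit 61) (nat_lit 68) (nat_lit 48) (.leaf p098_l61)))))
(.trX (nat_lit 19) (nat_lit 81) (nat_lit 100) (nat_lit 83) (nat_lit 252) (.leaf p098_l62)))))))
(.ord (.trX (nat_lit 16) (nat_lit 78) (nat_lit 100) (nat_lit 82) (nat_lit 244) (.trX (nat_lit 19) (nat_lit 78) (nat_lit 100) (nat_lit 82) (nat_lit 244) (.leaf p098_l63))))))) (by decide +kernel)
noncomputable def p098_l64 : Lf2 := ⟨nat_lit 0, nat_lit 10, [nat_lit 0, nat_lit 5, nat_lit 5, nat_lit 20], false, nat_lit 0, nat_lit 260, nat_lit 0, nat_lit 260, ⟨nat_lit 1000, nat_lit 0, nat_lit 0, nat_lit 0, nat_lit 0, nat_lit 0, nat_lit 0, nat_lit 0, nat_lit 0, nat_lit 0, nat_lit 0, nat_lit 0, nat_lit 0, nat_lit 0, nat_lit 0, nat_lit 0, false, false⟩,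
 nat_lit 0, nat_lit 0, nat_lit 0, nat_lit 0, nat_lit 7735, nat_lit 8309, nat_lit 0, nat_lit 0, nat_lit 0, nat_lit 0, nat_lit 0, nat_lit 0, nat_lit 0, nat_lit 0, nat_lit 0, nat_lit 0, nat_lit 0, nat_lit 0, [],
 ⟨p098_k10, nat_lit 0, nat_lit 0, nat_lit 187, nat_lit 0, nat_lit 0, [nat_lit 2032000001, nat_lit 6250000000], [], [nat_lit 26207342940, nat_lit 30205743110, nat_lit 42914570660, nat_lit 46038188620, nat_lit 24903403125, nat_lit 27594149660, nat_lit 34950287050, nat_lit 37154046155], nat_lit 0, nat_lit 0, nat_lit 0, nat_lit 0, nat_lit 0, nat_lit 0, [], [nat_lit 69, nat_lit 40, nat_lit 40, nat_lit 80, nat_lit 64, nat_lit 401, nat_lit 175, nat_lit 15]⟩, ⟨p098_k10, nat_lit 0, nat_lit 0, nat_lit 180, nat_lit 0, nat_lit 0, [nat_lit 2032000000, nat_lit 6250000000], [], [nat_lit 25655386836, nat_lit 27752976835, nat_lit 44520482604, nat_lit 46150177416, nat_lit 23853427975, nat_lit 25257056790, nat_lit 35599383470,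 nat_lit 36742058064], nat_lit 0, nat_lit 0, nat_lit 0, nat_lit 0, nat_lit 0, nat_lit 0, [], [nat_lit 69, nat_lit 40, nat_lit 40, nat_lit 80, nat_lit 64, nat_lit 401, nat_lit 175, nat_lit 15]⟩,
 zbF0, []⟩
noncomputable def p098_l65 : Lf2 := ⟨nat_lit 0, nat_lit 10, [nat_lit 0, nat_lit 5, nat_lit 5, nat_lit 20], false, nat_lit 0, nat_lit 160, nat_lit 0, nat_lit 260, ⟨nat_lit 145, nat_lit 855, nat_lit 0, nat_lit 8, nat_lit 302, nat_lit 855, nat_lit 57, nat_lit 0, nat_lit 0, nat_lit 0, nat_lit 0, nat_lit 0, nat_lit 0, nat_lit 0, nat_lit 0, nat_lit 5000000, true, false⟩,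
 nat_lit 0, nat_lit 0, nat_lit 1308, nat_lit 0, nat_lit 3716, nat_lit 981, nat_lit 0, nat_lit 0, nat_lit 0, nat_lit 41, nat_lit 0, nat_lit 0, nat_lit 0, nat_lit 762401385227, nat_lit 0, nat_lit 367200, nat_lit 0, nat_lit 0, [(nat_lit 18, [(nat_lit 1, nat_lit 813), (nat_lit 2, nat_lit 42)]), (nat_lit 21, [(nat_lit 1, nat_lit 813), (nat_lit 2, nat_lit 42)])],
 ⟨p098_k7, nat_lit 0, nat_lit 0, nat_lit 180, nat_lit 0, nat_lit 0, [nat_lit 1502800800, nat_lit 2322564000, nat_lit 2481766000], [], [nat_lit 21467169832, nat_lit 24099260632, nat_lit 31670389296, nat_lit 33843369072, nat_lit 21340662608, nat_lit 23567322872, nat_lit 29786088432, nat_lit 31182083360], nat_lit 0, nat_lit 0, nat_lit 0, nat_lit 0, nat_lit 0, nat_lit 0, [], [nat_lit 6, nat_lit 40, nat_lit 40, nat_lit 80, nat_lit 3, nat_lit 373, nat_lit 150, nat_lit 14]⟩, ⟨p098_k7, nat_lit 0, nat_lit 0, nat_lit 891, nat_lit 0, nat_lit 1814950, [nat_lit 294640000,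 nat_lit 679760000, nat_lit 906250000], [], [nat_lit 5896024958, nat_lit 5780711634, nat_lit 5976086284, nat_lit 6039154974, nat_lit 5325873996, nat_lit 5361562290, nat_lit 6134280733, nat_lit 5719581622], nat_lit 1271250, nat_lit 1271250, nat_lit 936251, nat_lit 3113750, nat_lit 0, nat_lit 1836250, [nat_lit 490000, nat_lit 1100000, nat_lit 1442500], [nat_lit 6, nat_lit 40, nat_lit 40, nat_lit 80, nat_lit 3, nat_lit 401, nat_lit 175, nat_lit 15]⟩,
 ⟨nat_lit 3162, nat_lit 4473, ⟨.ofNat (nat_lit 526772), .ofNat (nat_lit 969090), .ofNat (nat_lit 548248), .ofNat (nat_lit 990589), .ofNat (nat_lit 540839), .ofNat (nat_lit 937496), .ofNat (nat_lit 562904), .ofNat (nat_lit 959584)⟩, ⟨.negSucc (nat_lit 12437), .ofNat (nat_lit 259488), .ofNat (nat_lit 0), .ofNat (nat_lit 302621), .ofNat (nat_lit 0), .ofNat (nat_lit 261805), .ofNat (nat_lit 0), .ofNat (nat_lit 306116)⟩⟩, [⟨nat_lit 10, nat_lit 100, nat_lit 30, nat_lit 85, nat_lit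 74182259⟩]⟩
noncomputable def p098_l66 : Lf2 := ⟨nat_lit 0, nat_lit 10, [nat_lit 0, nat_lit 5, nat_lit 5, nat_lit 20], false, nat_lit 160, nat_lit 260, nat_lit 0, nat_lit 160, ⟨nat_lit 279, nat_lit 721, nat_lit 0, nat_lit 8, nat_lit 303, nat_lit 721, nat_lit 146, nat_lit 0, nat_lit 0, nat_lit 0, nat_lit 0, nat_lit 0, nat_lit 0, nat_lit 0, nat_lit 0, nat_lit 5000000, true, false⟩,
 nat_lit 0, nat_lit 0, nat_lit 2635, nat_lit 0, nat_lit 3514, nat_lit 1976, nat_lit 0, nat_lit 0, nat_lit 0, nat_lit 206, nat_lit 0, nat_lit 0, nat_lit 0, nat_lit 3569373793479, nat_lit 0, nat_lit 646000, nat_lit 0, nat_lit 0, [(nat_lit 18, [(nat_lit 1, nat_lit 125), (nat_lit 2, nat_lit 596)])],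
 ⟨p098_k7, nat_lit 0, nat_lit 0, nat_lit 87, nat_lit 0, nat_lit 0, [nat_lit 1756007201, nat_lit 2176804000, nat_lit 1724702800], [], [nat_lit 18981300429, nat_lit 20262167529, nat_lit 28641361481, nat_lit 29391896125, nat_lit 22181371756, nat_lit 23255002763, nat_lit 30300175937, nat_lit 30978940371], nat_lit 0, nat_lit 0, nat_lit 0, nat_lit 0, nat_lit 0, nat_lit 0, [], [nat_lit 6, nat_lit 40, nat_lit 40, nat_lit 80, nat_lit 3, nat_lit 401, nat_lit 175, nat_lit 14]⟩, ⟨p098_k7, nat_lit 0, nat_lit 0, nat_lit 800, nat_lit 0, nat_lit 1606313, [nat_lit 566928000, nat_lit 1307952000, nat_lit 1743750000], [], [nat_lit 9609538602, nat_lit 9769396263, nat_lit 11463791768, nat_lit 11878004010, nat_lit 8825462642, nat_lit 8955703779, nat_lit 10362923472, nat_lit 9513684546], nat_lit 1271250, nat_lit 1271250, nat_lit 936251, nat_lit 3113750, nat_lit 0, nat_lit 1100001, [nat_lit 490000, nat_lit 1100000, nat_lit 1442500], [nat_lit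 6, nat_lit 40, nat_lit 40, nat_lit 80, nat_lit 3, nat_lit 373, nat_lit 150, nat_lit 14]⟩,
 ⟨nat_lit 3872, nat_lit 4473, ⟨.ofNat (nat_lit 527314), .ofNat (nat_lit 969223), .ofNat (nat_lit 548863), .ofNat (nat_lit 990771), .ofNat (nat_lit 533860), .ofNat (nat_lit 953301), .ofNat (nat_lit 555635), .ofNat (nat_lit 975076)⟩, ⟨.ofNat (nat_lit 259489), .ofNat (nat_lit 429434), .ofNat (nat_lit 302621), .ofNat (nat_lit 472567), .ofNat (nat_lit 261131), .ofNat (nat_lit 422435), .ofNat (nat_lit 304717), .ofNat (nat_lit 466021)⟩⟩, [⟨nat_lit 16, nat_lit 83, nat_lit 100, nat_lit 83, nat_lit 260828822⟩, ⟨nat_lit 9, nat_lit 100, nat_lit 64, nat_lit 80, nat_lit 51568475⟩]⟩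
noncomputable def p098_l67 : Lf2 := ⟨nat_lit 0, nat_lit 10, [nat_lit 0, nat_lit 5, nat_lit 5, nat_lit 20], false, nat_lit 160, nat_lit 232, nat_lit 0, nat_lit 160, ⟨nat_lit 266, nat_lit 734, nat_lit 0, nat_lit 8, nat_lit 310, nat_lit 734, nat_lit 136, nat_lit 0, nat_lit 0, nat_lit 0, nat_lit 0, nat_lit 0, nat_lit 0, nat_lit 0, nat_lit 0, nat_lit 5000000, true, false⟩,
 nat_lit 0, nat_lit 0, nat_lit 2544, nat_lit 0, nat_lit 3220, nat_lit 1907, nat_lit 256, nat_lit 0, nat_lit 0, nat_lit 297, nat_lit 0, nat_lit 0, nat_lit 0, nat_lit 0, nat_lit 0, nat_lit 293600, nat_lit 0, nat_lit 0, [(nat_lit 21, [(nat_lit 1, nat_lit 734)])],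
 ⟨p098_k9, nat_lit 0, nat_lit 0, nat_lit 100, nat_lit 0, nat_lit 0, [nat_lit 1535228800, nat_lit 2342723201, nat_lit 2757628000], [], [nat_lit 20578871464, nat_lit 21760231809, nat_lit 28990500880, nat_lit 29763299200, nat_lit 22479186868, nat_lit 23528860660, nat_lit 29969720896, nat_lit 30788030704], nat_lit 0, nat_lit 0, nat_lit 0, nat_lit 0, nat_lit 0, nat_lit 0, [], [nat_lit 6, nat_lit 40, nat_lit 40, nat_lit 80, nat_lit 3, nat_lit 401, nat_lit 175, nat_lit 14]⟩, ⟨p098_k7, nat_lit 0, nat_lit 0, nat_lit 877, nat_lit 0, nat_lit 1814950, [nat_lit 540512000, nat_lit 1247008000, nat_lit 1662500000], [], [nat_lit 9463311430, nat_lit 9581865403, nat_lit 10994185540, nat_lit 11391826212, nat_lit 8673612916, nat_lit 8768897507, nat_lit 9963267412, nat_lit 9157110896], nat_lit 1271250, nat_lit 1271250, nat_lit 1167600, nat_lit 3171500, nat_lit 0, nat_lit 1100001, [nat_lit 490000, nat_lit 1100000, nat_lit 1442500], [nat_lit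 6, nat_lit 40, nat_lit 40, nat_lit 80, nat_lit 3, nat_lit 373, nat_lit 150, nat_lit 14]⟩,
 ⟨nat_lit 3162, nat_lit 3873, ⟨.ofNat (nat_lit 578944), .ofNat (nat_lit 953347), .ofNat (nat_lit 600708), .ofNat (nat_lit 975119), .ofNat (nat_lit 583969), .ofNat (nat_lit 937676), .ofNat (nat_lit 606094), .ofNat (nat_lit 959810)⟩, ⟨.ofNat (nat_lit 261131), .ofNat (nat_lit 377270), .ofNat (nat_lit 304717), .ofNat (nat_lit 420856), .ofNat (nat_lit 261806), .ofNat (nat_lit 371522), .ofNat (nat_lit 306116), .ofNat (nat_lit 415832)⟩⟩, [⟨nat_lit 16, nat_lit 72, nat_lit 100, nat_lit 81, nat_lit 280234663⟩, ⟨nat_lit 9, nat_lit 100, nat_lit 58, nat_lit 80, nat_lit 54475487⟩]⟩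
noncomputable def p098_l68 : Lf2 := ⟨nat_lit 0, nat_lit 10, [nat_lit 0, nat_lit 5, nat_lit 5, nat_lit 20], false, nat_lit 160, nat_lit 260, nat_lit 160, nat_lit 260, ⟨nat_lit 291, nat_lit 709, nat_lit 0, nat_lit 8, nat_lit 301, nat_lit 709, nat_lit 146, nat_lit 0, nat_lit 0, nat_lit 0, nat_lit 0, nat_lit 0, nat_lit 0, nat_lit 0, nat_lit 0, nat_lit 5000000, true, false⟩,
 nat_lit 0, nat_lit 0, nat_lit 2565, nat_lit 0, nat_lit 3558, nat_lit 1923, nat_lit 0, nat_lit 0, nat_lit 0, nat_lit 102, nat_lit 0, nat_lit 0, nat_lit 0, nat_lit 2545504030212, nat_lit 0, nat_lit 709000, nat_lit 0, nat_lit 0, [(nat_lit 18, [(nat_lit 2, nat_lit 709)])],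
 ⟨p098_k7, nat_lit 0, nat_lit 0, nat_lit 87, nat_lit 0, nat_lit 0, [nat_lit 1797935467, nat_lit 2105349334, nat_lit 1504521200], [], [nat_lit 18728867583, nat_lit 20017397283, nat_lit 28533259281, nat_lit 29329350629, nat_lit 21936320152, nat_lit 23015759181, nat_lit 30228854993, nat_lit 31031824037], nat_lit 0, nat_lit 0, nat_lit 0, nat_lit 0, nat_lit 0, nat_lit 0, [], [nat_lit 6, nat_lit 40, nat_lit 40, nat_lit 80, nat_lit 3, nat_lit 401, nat_lit 175, nat_lit 14]⟩, ⟨p098_k7, nat_lit 0, nat_lit 0, nat_lit 670, nat_lit 0, nat_lit 1530748, [nat_lit 591312000, nat_lit 1364208000, nat_lit 1818750000], [], [nat_lit 9120372252, nat_lit 9193983050, nat_lit 10076632980, nat_lit 10126804791, nat_lit 9337563027, nat_lit 9408379161, nat_lit 10529402859, nat_lit 10125698254], nat_lit 1271250, nat_lit 1271250, nat_lit 936251, nat_lit 3113750, nat_lit 1100001, nat_lit 1956250, [nat_lit 490000, nat_lit 1100000, nat_lit 1442500],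 [nat_lit 6, nat_lit 40, nat_lit 40, nat_lit 80, nat_lit 3, nat_lit 401, nat_lit 175, nat_lit 14]⟩,
 ⟨nat_lit 3872, nat_lit 4473, ⟨.ofNat (nat_lit 527314), .ofNat (nat_lit 969223), .ofNat (nat_lit 538088), .ofNat (nat_lit 979997), .ofNat (nat_lit 533860), .ofNat (nat_lit 953301), .ofNat (nat_lit 544747), .ofNat (nat_lit 964188)⟩, ⟨.ofNat (nat_lit 259489), .ofNat (nat_lit 429434), .ofNat (nat_lit 302621), .ofNat (nat_lit 472567), .ofNat (nat_lit 261131), .ofNat (nat_lit 422435), .ofNat (nat_lit 304717), .ofNat (nat_lit 466021)⟩⟩, [⟨nat_lit 16, nat_lit 83, nat_lit 100, nat_lit 83, nat_lit 302669880⟩, ⟨nat_lit 19, nat_lit 83, nat_lit 100, nat_lit 83, nat_lit 88465543⟩]⟩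
noncomputable def p098_l69 : Lf2 := ⟨nat_lit 0, nat_lit 10, [nat_lit 0, nat_lit 5, nat_lit 5, nat_lit 20], false, nat_lit 160, nat_lit 244, nat_lit 160, nat_lit 244, ⟨nat_lit 766, nat_lit 234, nat_lit 0, nat_lit 8, nat_lit 314, nat_lit 234, nat_lit 140, nat_lit 0, nat_lit 0, nat_lit 0, nat_lit 0, nat_lit 0, nat_lit 0, nat_lit 0, nat_lit 0, nat_lit 5000000, true, false⟩,
 nat_lit 0, nat_lit 0, nat_lit 5404, nat_lit 0, nat_lit 4458, nat_lit 4212, nat_lit 595, nat_lit 0, nat_lit 0, nat_lit 1142, nat_lit 0, nat_lit 0, nat_lit 0, nat_lit 0, nat_lit 0, nat_lit 58500, nat_lit 0, nat_lit 0, [(nat_lit 18, [(nat_lit 0, nat_lit 234)])],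
 ⟨p098_k8, nat_lit 0, nat_lit 0, nat_lit 87, nat_lit 0, nat_lit 0, [nat_lit 1915187201, nat_lit 4098320001, nat_lit 5387008000], [], [nat_lit 19582888260, nat_lit 20298444349, nat_lit 30078642848, nat_lit 30531463332, nat_lit 22074867779, nat_lit 22706358850, nat_lit 31223227839, nat_lit 31672708819], nat_lit 0, nat_lit 0, nat_lit 0, nat_lit 0, nat_lit 0, nat_lit 0, [], [nat_lit 6, nat_lit 40, nat_lit 40, nat_lit 80, nat_lit 3, nat_lit 401, nat_lit 175, nat_lit 14]⟩, ⟨p098_k8, nat_lit 0, nat_lit 0, nat_lit 659, nat_lit 0, nat_lit 1522961, [nat_lit 1556512000, nat_lit 3591008000, nat_lit 4787500000], [], [nat_lit 19017911946, nat_lit 19257666928, nat_lit 24033895450, nat_lit 24470672100, nat_lit 19714626583, nat_lit 19922979874, nat_lit 24836224592, nat_lit 25210852681], nat_lit 1271250, nat_lit 1271250, nat_lit 1167600, nat_lit 3171500, nat_lit 1100001, nat_lit 1819250, [nat_lit 490000, nat_lit 1100000, nat_lit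 1442500], [nat_lit 6, nat_lit 40, nat_lit 40, nat_lit 80, nat_lit 3, nat_lit 401, nat_lit 175, nat_lit 14]⟩,
 ⟨nat_lit 3872, nat_lit 4184, ⟨.ofNat (nat_lit 587795), .ofNat (nat_lit 972095), .ofNat (nat_lit 598626), .ofNat (nat_lit 982925), .ofNat (nat_lit 590005), .ofNat (nat_lit 964247), .ofNat (nat_lit 600899), .ofNat (nat_lit 975141)⟩, ⟨.ofNat (nat_lit 260409), .ofNat (nat_lit 399546), .ofNat (nat_lit 303743), .ofNat (nat_lit 442879), .ofNat (nat_lit 261131), .ofNat (nat_lit 396626), .ofNat (nat_lit 304717), .ofNat (nat_lit 440213)⟩⟩, [⟨nat_lit 16, nat_lit 78, nat_lit 100, nat_lit 82, nat_lit 386844740⟩, ⟨nat_lit 19, nat_lit 78, nat_lit 100, nat_lit 82, nat_lit 308777615⟩]⟩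
noncomputable def p098_l70 : Lf2 := ⟨nat_lit 0, nat_lit 10, [nat_lit 0, nat_lit 5, nat_lit 5, nat_lit 20], false, nat_lit 160, nat_lit 232, nat_lit 160, nat_lit 260, ⟨nat_lit 210, nat_lit 790, nat_lit 0, nat_lit 8, nat_lit 310, nat_lit 790, nat_lit 136, nat_lit 0, nat_lit 0, nat_lit 0, nat_lit 0, nat_lit 0, nat_lit 0, nat_lit 0, nat_lit 0, nat_lit 5000000, true, false⟩,
 nat_lit 0, nat_lit 0, nat_lit 1933, nat_lit 0, nat_lit 3146, nat_lit 1449, nat_lit 232, nat_lit 0, nat_lit 0, nat_lit 65, nat_lit 0, nat_lit 0, nat_lit 0, nat_lit 0, nat_lit 0, nat_lit 316000, nat_lit 0, nat_lit 0, [(nat_lit 21, [(nat_lit 1, nat_lit 790)])],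
 ⟨p098_k9, nat_lit 0, nat_lit 0, nat_lit 100, nat_lit 0, nat_lit 0, [nat_lit 1497328000, nat_lit 2163792000, nat_lit 2491180000], [], [nat_lit 20526487856, nat_lit 21695722175, nat_lit 28886407344, nat_lit 29655380560, nat_lit 22423975557, nat_lit 23463620131, nat_lit 29877924167, nat_lit 30692936028], nat_lit 0, nat_lit 0, nat_lit 0, nat_lit 0, nat_lit 0, nat_lit 0, [], [nat_lit 6, nat_lit 40, nat_lit 40, nat_lit 80, nat_lit 3, nat_lit 401, nat_lit 175, nat_lit 14]⟩, ⟨p098_k7, nat_lit 0, nat_lit 0, nat_lit 795, nat_lit 0, nat_lit 1814950, [nat_lit 426720000, nat_lit 984480000, nat_lit 1312500000], [], [nat_lit 7020319153, nat_lit 7100125142, nat_lit 7408867016, nat_lit 7449303566, nat_lit 7055951050, nat_lit 7119969466, nat_lit 7321421625, nat_lit 7360201559], nat_lit 1271250, nat_lit 1271250, nat_lit 1167600, nat_lit 3171500, nat_lit 1100001, nat_lit 1956250, [nat_lit 490000, nat_lit 1100000, nat_lit 1442500],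 [nat_lit 6, nat_lit 40, nat_lit 40, nat_lit 80, nat_lit 3, nat_lit 401, nat_lit 175, nat_lit 14]⟩,
 ⟨nat_lit 3162, nat_lit 3873, ⟨.ofNat (nat_lit 578944), .ofNat (nat_lit 953347), .ofNat (nat_lit 600708), .ofNat (nat_lit 975119), .ofNat (nat_lit 583969), .ofNat (nat_lit 937676), .ofNat (nat_lit 606094), .ofNat (nat_lit 959810)⟩, ⟨.ofNat (nat_lit 261131), .ofNat (nat_lit 377270), .ofNat (nat_lit 304717), .ofNat (nat_lit 420856), .ofNat (nat_lit 261806), .ofNat (nat_lit 371522), .ofNat (nat_lit 306116), .ofNat (nat_lit 415832)⟩⟩, [⟨nat_lit 16, nat_lit 72, nat_lit 100, nat_lit 81, nat_lit 314194478⟩, ⟨nat_lit 19, nat_lit 83, nat_lit 100, nat_lit 83, nat_lit 57588429⟩]⟩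
noncomputable def b_V_800_800_10_4 : St := ⟨true, nat_lit 0, nat_lit 2, nat_lit 2, nat_lit 80, nat_lit 320, nat_lit 360, nat_lit 320, nat_lit 340, nat_lit 140, nat_lit 400, nat_lit 40, nat_lit 80, nat_lit 0, nat_lit 260, nat_lit 0, nat_lit 260, nat_lit 0, nat_lit 40, nat_lit 0, nat_lit 0, nat_lit 0, nat_lit 0⟩
theorem d_V_800_800_10_4 (h : EB TB.env) : Dead b_V_800_800_10_4 := chkB_sound0 h (T :=
(.st (nat_lit 1)
(.leaf p098_l64)
(.spl (nat_lit 4) (nat_lit 160)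
(.leaf p098_l65)
(.spl (nat_lit 5) (nat_lit 160)
(.spl (nat_lit 0) (nat_lit 340)
(.leaf p098_l66)
(.trZ (nat_lit 0) (nat_lit 81) (nat_lit 72) (nat_lit 100) (nat_lit 168) (.trX (nat_lit 16) (nat_lit 72) (nat_lit 100) (nat_lit 81) (nat_lit 232) (.leaf p098_l67))))
(.spl (nat_lit 0) (nat_lit 340)
(.spl (nat_lit 1) (nat_lit 330)
(.leaf p098_l68)
(.ord (.trZ (nat_lit 0) (nat_lit 77) (nat_lit 77) (nat_lit 100) (nat_lit 168) (.trX (nat_lit 16) (nat_lit 78) (nat_lit 100) (nat_lit 82) (nat_lit 244) (.trX (nat_lit 19) (nat_lit 78) (nat_lit 100) (nat_lit 82) (nat_lit 244) (.leaf p098_l69))))))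
(.trZ (nat_lit 0) (nat_lit 81) (nat_lit 72) (nat_lit 100) (nat_lit 168) (.trX (nat_lit 16) (nat_lit 72) (nat_lit 100) (nat_lit 81) (nat_lit 232) (.leaf p098_l70)))))))) (by decide +kernel)
noncomputable def p098_l71 : Lf2 := ⟨nat_lit 0, nat_lit 10, [nat_lit 0, nat_lit 5, nat_lit 5, nat_lit 20], false, nat_lit 0, nat_lit 160, nat_lit 0, nat_lit 160, ⟨nat_lit 1000, nat_lit 0, nat_lit 0, nat_lit 0, nat_lit 0, nat_lit 0, nat_lit 0, nat_lit 0, nat_lit 0, nat_lit 0, nat_lit 0, nat_lit 0, nat_lit 0, nat_lit 0, nat_lit 0, nat_lit 0, false, false⟩,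
 nat_lit 0, nat_lit 10659, nat_lit 0, nat_lit 0, nat_lit 7994, nat_lit 6733, nat_lit 479, nat_lit 0, nat_lit 0, nat_lit 3300, nat_lit 0, nat_lit 0, nat_lit 0, nat_lit 0, nat_lit 0, nat_lit 0, nat_lit 0, nat_lit 0, [],
 ⟨p098_k7, nat_lit 0, nat_lit 0, nat_lit 645, nat_lit 0, nat_lit 1272796, [nat_lit 2032000001, nat_lit 4688000000, nat_lit 6250000000], [], [nat_lit 25947932948, nat_lit 26082863034, nat_lit 27356601120, nat_lit 27774175098, nat_lit 22588033156, nat_lit 22698225021, nat_lit 23010817498, nat_lit 23089467317], nat_lit 1271250, nat_lit 1271250, nat_lit 936251, nat_lit 1773750, nat_lit 0, nat_lit 1100001, [nat_lit 490000, nat_lit 1100000, nat_lit 1442500], [nat_lit 6, nat_lit 40, nat_lit 40, nat_lit 80, nat_lit 3, nat_lit 317, nat_lit 100, nat_lit 12]⟩, ⟨p098_k7, nat_lit 0, nat_lit 0, nat_lit 115, nat_lit 0, nat_lit 0, [nat_lit 2032000000, nat_lit 4688000000, nat_lit 6250000000], [], [nat_lit 21495255502,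 nat_lit 21951405484, nat_lit 25494759840, nat_lit 25865630035, nat_lit 16945984468, nat_lit 17264976201, nat_lit 20210586144, nat_lit 20472860481], nat_lit 0, nat_lit 0, nat_lit 0, nat_lit 0, nat_lit 0, nat_lit 0, [], [nat_lit 6, nat_lit 40, nat_lit 40, nat_lit 80, nat_lit 3, nat_lit 317, nat_lit 100, nat_lit 12]⟩,
 zbF0, [⟨nat_lit 0, nat_lit 81, nat_lit 81, nat_lit 100, nat_lit 402021965⟩]⟩
noncomputable def p098_l72 : Lf2 := ⟨nat_lit 0, nat_lit 10, [nat_lit 0, nat_lit 5, nat_lit 5, nat_lit 20], false, nat_lit 0, nat_lit 160, nat_lit 0, nat_lit 160, ⟨nat_lit 1000, nat_lit 0, nat_lit 0, nat_lit 0, nat_lit 0, nat_lit 0, nat_lit 0, nat_lit 0, nat_lit 0, nat_lit 0, nat_lit 0, nat_lit 0, nat_lit 0, nat_lit 0, nat_lit 0, nat_lit 0, false, false⟩,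
 nat_lit 0, nat_lit 9898, nat_lit 0, nat_lit 0, nat_lit 7510, nat_lit 6702, nat_lit 2787, nat_lit 0, nat_lit 0, nat_lit 697, nat_lit 0, nat_lit 0, nat_lit 0, nat_lit 45632587760080, nat_lit 0, nat_lit 0, nat_lit 0, nat_lit 0, [],
 ⟨p098_k21, nat_lit 0, nat_lit 0, nat_lit 649, nat_lit 0, nat_lit 1285457, [nat_lit 2032000001, nat_lit 4688000000, nat_lit 6250000000], [], [nat_lit 23057898463, nat_lit 23384491167, nat_lit 27041632822, nat_lit 27308064835, nat_lit 18633443106, nat_lit 18704543234, nat_lit 20281531960, nat_lit 20506001400], nat_lit 1271250, nat_lit 1271250, nat_lit 968401, nat_lit 1776000, nat_lit 0, nat_lit 1100001, [nat_lit 490000, nat_lit 1100000, nat_lit 1442500], [nat_lit 6, nat_lit 40, nat_lit 40, nat_lit 80, nat_lit 3, nat_lit 317, nat_lit 100, nat_lit 12]⟩, ⟨p098_k7, nat_lit 0, nat_lit 0, nat_lit 116, nat_lit 0, nat_lit 0, [nat_lit 2032000000, nat_lit 4688000000, nat_lit 6250000000], [], [nat_lit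 21497715802, nat_lit 22250579034, nat_lit 25448988960, nat_lit 26065192367, nat_lit 17074592367, nat_lit 17563355017, nat_lit 20239007936, nat_lit 20674878872], nat_lit 0, nat_lit 0, nat_lit 0, nat_lit 0, nat_lit 0, nat_lit 0, [], [nat_lit 6, nat_lit 40, nat_lit 40, nat_lit 80, nat_lit 3, nat_lit 317, nat_lit 100, nat_lit 12]⟩,
 zbF0, [⟨nat_lit 0, nat_lit 80, nat_lit 80, nat_lit 100, nat_lit 113336416⟩]⟩
noncomputable def p098_l73 : Lf2 := ⟨nat_lit 0, nat_lit 10, [nat_lit 0, nat_lit 5, nat_lit 5, nat_lit 20], false, nat_lit 0, nat_lit 160, nat_lit 0, nat_lit 160, ⟨nat_lit 1000, nat_lit 0, nat_lit 0, nat_lit 0, nat_lit 0, nat_lit 0, nat_lit 0, nat_lit 0, nat_lit 0, nat_lit 0, nat_lit 0, nat_lit 0, nat_lit 0, nat_lit 0, nat_lit 0, nat_lit 0, false, false⟩,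
 nat_lit 0, nat_lit 10429, nat_lit 0, nat_lit 0, nat_lit 7821, nat_lit 6695, nat_lit 480, nat_lit 0, nat_lit 0, nat_lit 709, nat_lit 0, nat_lit 0, nat_lit 0, nat_lit 42211729969221, nat_lit 0, nat_lit 0, nat_lit 0, nat_lit 0, [],
 ⟨p098_k7, nat_lit 0, nat_lit 0, nat_lit 587, nat_lit 0, nat_lit 1147770, [nat_lit 2032000001, nat_lit 4688000000, nat_lit 6250000000], [], [nat_lit 25451351354, nat_lit 25685548797, nat_lit 27101170080, nat_lit 27786447679, nat_lit 22128247282, nat_lit 22350722468, nat_lit 23414217966, nat_lit 23101255178], nat_lit 1271250, nat_lit 1271250, nat_lit 936251, nat_lit 1773750, nat_lit 0, nat_lit 1100001, [nat_lit 490000, nat_lit 1100000, nat_lit 1442500], [nat_lit 6, nat_lit 40, nat_lit 40, nat_lit 80, nat_lit 3, nat_lit 317, nat_lit 100, nat_lit 12]⟩, ⟨p098_k7, nat_lit 0, nat_lit 0, nat_lit 116, nat_lit 0, nat_lit 0, [nat_lit 2032000000, nat_lit 4688000000, nat_lit 6250000000], [], [nat_lit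 21444552330, nat_lit 22201787237, nat_lit 25438653600, nat_lit 26054424908, nat_lit 16984308560, nat_lit 17513971597, nat_lit 20245425760, nat_lit 20681013770], nat_lit 0, nat_lit 0, nat_lit 0, nat_lit 0, nat_lit 0, nat_lit 0, [], [nat_lit 6, nat_lit 40, nat_lit 40, nat_lit 80, nat_lit 3, nat_lit 317, nat_lit 100, nat_lit 12]⟩,
 zbF0, [⟨nat_lit 0, nat_lit 80, nat_lit 80, nat_lit 100, nat_lit 385309347⟩]⟩
noncomputable def p098_l74 : Lf2 := ⟨nat_lit 0, nat_lit 10, [nat_lit 0, nat_lit 5, nat_lit 5, nat_lit 20], false, nat_lit 0, nat_lit 160, nat_lit 0, nat_lit 160, ⟨nat_lit 1000, nat_lit 0, nat_lit 0, nat_lit 0, nat_lit 0, nat_lit 0, nat_lit 0, nat_lit 0, nat_lit 0, nat_lit 0, nat_lit 0, nat_lit 0, nat_lit 0, nat_lit 0, nat_lit 0, nat_lit 0, false, false⟩,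
 nat_lit 0, nat_lit 8716, nat_lit 0, nat_lit 0, nat_lit 6536, nat_lit 5853, nat_lit 406, nat_lit 0, nat_lit 0, nat_lit 621, nat_lit 0, nat_lit 0, nat_lit 0, nat_lit 0, nat_lit 0, nat_lit 0, nat_lit 0, nat_lit 0, [],
 ⟨p098_k7, nat_lit 0, nat_lit 0, nat_lit 639, nat_lit 0, nat_lit 1310286, [nat_lit 2032000001, nat_lit 4688000000, nat_lit 6250000000], [], [nat_lit 34492859840, nat_lit 34582280723, nat_lit 39560061216, nat_lit 39773062064, nat_lit 31680286496, nat_lit 31754035720, nat_lit 35037295168, nat_lit 35092669036], nat_lit 1271250, nat_lit 1271250, nat_lit 1271250, nat_lit 1271250, nat_lit 0, nat_lit 1100001, [nat_lit 490000, nat_lit 1100000, nat_lit 1442500], [nat_lit 6, nat_lit 40, nat_lit 40, nat_lit 80, nat_lit 3, nat_lit 271, nat_lit 40, nat_lit 10]⟩, ⟨p098_k7, nat_lit 0, nat_lit 0, nat_lit 172, nat_lit 0, nat_lit 0, [nat_lit 2032000000, nat_lit 4688000000, nat_lit 6250000000], [], [nat_lit 25722322868,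 nat_lit 25946514496, nat_lit 37649193868, nat_lit 37850078159, nat_lit 23025075912, nat_lit 23226972574, nat_lit 31364126948, nat_lit 31494798830], nat_lit 0, nat_lit 0, nat_lit 0, nat_lit 0, nat_lit 0, nat_lit 0, [], [nat_lit 6, nat_lit 40, nat_lit 40, nat_lit 80, nat_lit 3, nat_lit 249, nat_lit 40, nat_lit 9]⟩,
 zbF0, []⟩
noncomputable def p098_l75 : Lf2 := ⟨nat_lit 0, nat_lit 10, [nat_lit 0, nat_lit 5, nat_lit 5, nat_lit 20], false, nat_lit 0, nat_lit 160, nat_lit 0, nat_lit 160, ⟨nat_lit 1000, nat_lit 0, nat_lit 0, nat_lit 0, nat_lit 0, nat_lit 0, nat_lit 0, nat_lit 0, nat_lit 0, nat_lit 0, nat_lit 0, nat_lit 0, nat_lit 0, nat_lit 0, nat_lit 0, nat_lit 0, false, false⟩,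
 nat_lit 0, nat_lit 7807, nat_lit 0, nat_lit 0, nat_lit 5923, nat_lit 5945, nat_lit 2180, nat_lit 0, nat_lit 0, nat_lit 581, nat_lit 0, nat_lit 0, nat_lit 0, nat_lit 0, nat_lit 0, nat_lit 0, nat_lit 0, nat_lit 0, [],
 ⟨p098_k21, nat_lit 0, nat_lit 0, nat_lit 644, nat_lit 0, nat_lit 1323110, [nat_lit 2032000001, nat_lit 4688000000, nat_lit 6250000000], [], [nat_lit 32637933194, nat_lit 32695073433, nat_lit 38047162893, nat_lit 38181913629, nat_lit 30592320436, nat_lit 30639752474, nat_lit 33469625482, nat_lit 33501294987], nat_lit 1271250, nat_lit 1271250, nat_lit 1271250, nat_lit 1271250, nat_lit 0, nat_lit 1100001, [nat_lit 490000, nat_lit 1100000, nat_lit 1442500], [nat_lit 6, nat_lit 40, nat_lit 40, nat_lit 80, nat_lit 3, nat_lit 272, nat_lit 40, nat_lit 10]⟩, ⟨p098_k7, nat_lit 0, nat_lit 0, nat_lit 173, nat_lit 0, nat_lit 0, [nat_lit 2032000000, nat_lit 4688000000, nat_lit 6250000000], [], [nat_lit 25797200420,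 nat_lit 26174220700, nat_lit 37906587420, nat_lit 38244114735, nat_lit 22877162500, nat_lit 23193546373, nat_lit 31368315080, nat_lit 31664441970], nat_lit 0, nat_lit 0, nat_lit 0, nat_lit 0, nat_lit 0, nat_lit 0, [], [nat_lit 6, nat_lit 40, nat_lit 40, nat_lit 80, nat_lit 3, nat_lit 249, nat_lit 40, nat_lit 9]⟩,
 zbF0, []⟩
noncomputable def p098_l76 : Lf2 := ⟨nat_lit 0, nat_lit 10, [nat_lit 0, nat_lit 5, nat_lit 5, nat_lit 20], false, nat_lit 160, nat_lit 232, nat_lit 0, nat_lit 80, ⟨nat_lit 1000, nat_lit 0, nat_lit 0, nat_lit 0, nat_lit 0, nat_lit 0, nat_lit 0, nat_lit 0, nat_lit 0, nat_lit 0, nat_lit 0, nat_lit 0, nat_lit 0, nat_lit 0, nat_lit 0, nat_lit 0, false, false⟩,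
 nat_lit 0, nat_lit 8719, nat_lit 0, nat_lit 0, nat_lit 6539, nat_lit 4292, nat_lit 480, nat_lit 0, nat_lit 0, nat_lit 717, nat_lit 0, nat_lit 0, nat_lit 0, nat_lit 0, nat_lit 0, nat_lit 0, nat_lit 0, nat_lit 0, [],
 ⟨p098_k7, nat_lit 0, nat_lit 0, nat_lit 567, nat_lit 0, nat_lit 1306230, [nat_lit 2032000001, nat_lit 4688000000, nat_lit 6250000000], [], [nat_lit 28577780193, nat_lit 28767528399, nat_lit 29524559560, nat_lit 29695968302, nat_lit 29446202201, nat_lit 29625788448, nat_lit 30123032499, nat_lit 30273167248], nat_lit 1271250, nat_lit 1271250, nat_lit 936251, nat_lit 1773750, nat_lit 1100001, nat_lit 1716500, [nat_lit 490000, nat_lit 1100000, nat_lit 1442500], [nat_lit 6, nat_lit 40, nat_lit 40, nat_lit 80, nat_lit 3, nat_lit 345, nat_lit 125, nat_lit 12]⟩, ⟨p098_k7, nat_lit 0, nat_lit 0, nat_lit 116, nat_lit 0, nat_lit 0, [nat_lit 2032000000, nat_lit 4688000000, nat_lit 6250000000], [], [nat_lit 20689062688,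 nat_lit 21137818363, nat_lit 24077465360, nat_lit 24476419580, nat_lit 18682280624, nat_lit 19105865717, nat_lit 21970873808, nat_lit 22324845570], nat_lit 0, nat_lit 0, nat_lit 0, nat_lit 0, nat_lit 0, nat_lit 0, [], [nat_lit 6, nat_lit 40, nat_lit 40, nat_lit 80, nat_lit 3, nat_lit 317, nat_lit 100, nat_lit 12]⟩,
 zbF0, [⟨nat_lit 0, nat_lit 80, nat_lit 80, nat_lit 100, nat_lit 411560274⟩, ⟨nat_lit 4, nat_lit 100, nat_lit 79, nat_lit 66, nat_lit 503752908⟩]⟩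
noncomputable def p098_l77 : Lf2 := ⟨nat_lit 0, nat_lit 10, [nat_lit 0, nat_lit 5, nat_lit 5, nat_lit 20], false, nat_lit 160, nat_lit 232, nat_lit 80, nat_lit 160, ⟨nat_lit 1000, nat_lit 0, nat_lit 0, nat_lit 0, nat_lit 0, nat_lit 0, nat_lit 0, nat_lit 0, nat_lit 0, nat_lit 0, nat_lit 0, nat_lit 0, nat_lit 0, nat_lit 0, nat_lit 0, nat_lit 0, false, false⟩,
 nat_lit 0, nat_lit 8719, nat_lit 0, nat_lit 0, nat_lit 6539, nat_lit 4018, nat_lit 480, nat_lit 0, nat_lit 0, nat_lit 0, nat_lit 0, nat_lit 0, nat_lit 0, nat_lit 29468316384603, nat_lit 0, nat_lit 0, nat_lit 0, nat_lit 0, [],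
 ⟨p098_k7, nat_lit 0, nat_lit 0, nat_lit 567, nat_lit 0, nat_lit 1306230, [nat_lit 2032000001, nat_lit 4688000000, nat_lit 6250000000], [], [nat_lit 28577780193, nat_lit 28767528399, nat_lit 29524559560, nat_lit 29695968302, nat_lit 29446202201, nat_lit 29625788448, nat_lit 30123032499, nat_lit 30273167248], nat_lit 1271250, nat_lit 1271250, nat_lit 936251, nat_lit 1773750, nat_lit 1100001, nat_lit 1716500, [nat_lit 490000, nat_lit 1100000, nat_lit 1442500], [nat_lit 6, nat_lit 40, nat_lit 40, nat_lit 80, nat_lit 3, nat_lit 345, nat_lit 125, nat_lit 12]⟩, ⟨p098_k7, nat_lit 0, nat_lit 0, nat_lit 38, nat_lit 0, nat_lit 0, [nat_lit 2032000000, nat_lit 4688000000, nat_lit 6250000000], [], [nat_lit 15010181892, nat_lit 15526906326, nat_lit 18693677032, nat_lit 19121944673, nat_lit 15986048796, nat_lit 16421650503, nat_lit 19342178440, nat_lit 19727320320], nat_lit 0, nat_lit 0, nat_lit 0, nat_lit 0, nat_lit 0, nat_lit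 0, [], [nat_lit 6, nat_lit 40, nat_lit 40, nat_lit 80, nat_lit 3, nat_lit 317, nat_lit 100, nat_lit 11]⟩,
 zbF0, [⟨nat_lit 0, nat_lit 80, nat_lit 80, nat_lit 100, nat_lit 414082818⟩, ⟨nat_lit 4, nat_lit 100, nat_lit 79, nat_lit 66, nat_lit 503752908⟩]⟩
noncomputable def p098_l78 : Lf2 := ⟨nat_lit 0, nat_lit 10, [nat_lit 0, nat_lit 5, nat_lit 5, nat_lit 20], false, nat_lit 160, nat_lit 260, nat_lit 0, nat_lit 160, ⟨nat_lit 1000, nat_lit 0, nat_lit 0, nat_lit 0, nat_lit 0, nat_lit 0, nat_lit 0, nat_lit 0, nat_lit 0, nat_lit 0, nat_lit 0, nat_lit 0, nat_lit 0, nat_lit 0, nat_lit 0, nat_lit 0, false, false⟩,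
 nat_lit 0, nat_lit 8312, nat_lit 0, nat_lit 0, nat_lit 6233, nat_lit 6695, nat_lit 496, nat_lit 0, nat_lit 0, nat_lit 2390, nat_lit 0, nat_lit 0, nat_lit 0, nat_lit 33580665099564, nat_lit 0, nat_lit 0, nat_lit 0, nat_lit 0, [],
 ⟨p098_k7, nat_lit 0, nat_lit 0, nat_lit 503, nat_lit 0, nat_lit 1147770, [nat_lit 2032000001, nat_lit 4688000000, nat_lit 6250000000], [], [nat_lit 27719386116, nat_lit 27913768976, nat_lit 28826637810, nat_lit 29001555283, nat_lit 29319897616, nat_lit 29519841192, nat_lit 30204787964, nat_lit 30372498403], nat_lit 1271250, nat_lit 1271250, nat_lit 936251, nat_lit 1773750, nat_lit 1100001, nat_lit 1956250, [nat_lit 490000, nat_lit 1100000, nat_lit 1442500], [nat_lit 6, nat_lit 40, nat_lit 40, nat_lit 80, nat_lit 3, nat_lit 345, nat_lit 125, nat_lit 12]⟩, ⟨p098_k7, nat_lit 0, nat_lit 0, nat_lit 116, nat_lit 0, nat_lit 0, [nat_lit 2032000000, nat_lit 4688000000, nat_lit 6250000000], [],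 [nat_lit 21444552330, nat_lit 22201787237, nat_lit 25438653600, nat_lit 26054424908, nat_lit 16984296220, nat_lit 17513971597, nat_lit 20245425760, nat_lit 20681013770], nat_lit 0, nat_lit 0, nat_lit 0, nat_lit 0, nat_lit 0, nat_lit 0, [], [nat_lit 6, nat_lit 40, nat_lit 40, nat_lit 80, nat_lit 3, nat_lit 317, nat_lit 100, nat_lit 12]⟩,
 zbF0, [⟨nat_lit 0, nat_lit 80, nat_lit 80, nat_lit 100, nat_lit 358908054⟩, ⟨nat_lit 16, nat_lit 81, nat_lit 100, nat_lit 78, nat_lit 459410093⟩]⟩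
noncomputable def p098_l79 : Lf2 := ⟨nat_lit 0, nat_lit 10, [nat_lit 0, nat_lit 5, nat_lit 5, nat_lit 20], false, nat_lit 160, nat_lit 260, nat_lit 0, nat_lit 160, ⟨nat_lit 1000, nat_lit 0, nat_lit 0, nat_lit 0, nat_lit 0, nat_lit 0, nat_lit 0, nat_lit 0, nat_lit 0, nat_lit 0, nat_lit 0, nat_lit 0, nat_lit 0, nat_lit 0, nat_lit 0, nat_lit 0, false, false⟩,
 nat_lit 0, nat_lit 8584, nat_lit 0, nat_lit 0, nat_lit 6437, nat_lit 5683, nat_lit 446, nat_lit 0, nat_lit 0, nat_lit 585, nat_lit 0, nat_lit 0, nat_lit 0, nat_lit 40610996758086, nat_lit 0, nat_lit 0, nat_lit 0, nat_lit 0, [],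
 ⟨p098_k7, nat_lit 0, nat_lit 0, nat_lit 549, nat_lit 0, nat_lit 1310286, [nat_lit 2032000001, nat_lit 4688000000, nat_lit 6250000000], [], [nat_lit 30065291410, nat_lit 30153228263, nat_lit 34225215252, nat_lit 34292509968, nat_lit 31093367499, nat_lit 31177819528, nat_lit 34475625014, nat_lit 34530227643], nat_lit 1271250, nat_lit 1271250, nat_lit 1271250, nat_lit 1271250, nat_lit 1100001, nat_lit 1956250, [nat_lit 490000, nat_lit 1100000, nat_lit 1442500], [nat_lit 6, nat_lit 40, nat_lit 40, nat_lit 80, nat_lit 3, nat_lit 289, nat_lit 75, nat_lit 9]⟩, ⟨p098_k7, nat_lit 0, nat_lit 0, nat_lit 172, nat_lit 0, nat_lit 0, [nat_lit 2032000000, nat_lit 4688000000, nat_lit 6250000000], [], [nat_lit 26023614348, nat_lit 26244072368, nat_lit 37173575348, nat_lit 37371443805, nat_lit 23358936300, nat_lit 23544236041, nat_lit 31568107228, nat_lit 31697200864], nat_lit 0, nat_lit 0, nat_lit 0, nat_lit 0, nat_lit 0, nat_lit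 0, [], [nat_lit 6, nat_lit 40, nat_lit 40, nat_lit 80, nat_lit 3, nat_lit 249, nat_lit 40, nat_lit 9]⟩,
 zbF0, [⟨nat_lit 16, nat_lit 80, nat_lit 100, nat_lit 72, nat_lit 453361495⟩]⟩
noncomputable def p098_l80 : Lf2 := ⟨nat_lit 0, nat_lit 10, [nat_lit 0, nat_lit 5, nat_lit 5, nat_lit 20], false, nat_lit 160, nat_lit 256, nat_lit 0, nat_lit 160, ⟨nat_lit 1000, nat_lit 0, nat_lit 0, nat_lit 0, nat_lit 0, nat_lit 0, nat_lit 0, nat_lit 0, nat_lit 0, nat_lit 0, nat_lit 0, nat_lit 0, nat_lit 0, nat_lit 0, nat_lit 0, nat_lit 0, false, false⟩,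
 nat_lit 0, nat_lit 7828, nat_lit 0, nat_lit 0, nat_lit 5939, nat_lit 5791, nat_lit 2188, nat_lit 0, nat_lit 0, nat_lit 582, nat_lit 0, nat_lit 0, nat_lit 0, nat_lit 0, nat_lit 0, nat_lit 0, nat_lit 0, nat_lit 0, [],
 ⟨p098_k21, nat_lit 0, nat_lit 0, nat_lit 554, nat_lit 0, nat_lit 1323110, [nat_lit 2032000001, nat_lit 4688000000, nat_lit 6250000000], [], [nat_lit 28598461445, nat_lit 28655647889, nat_lit 32188431022, nat_lit 32232777541, nat_lit 29424371111, nat_lit 29472368757, nat_lit 32943318429, nat_lit 33041677090], nat_lit 1271250, nat_lit 1271250, nat_lit 1271250, nat_lit 1271250, nat_lit 1100001, nat_lit 1922000, [nat_lit 490000, nat_lit 1100000, nat_lit 1442500], [nat_lit 6, nat_lit 40, nat_lit 40, nat_lit 80, nat_lit 3, nat_lit 289, nat_lit 75, nat_lit 9]⟩, ⟨p098_k7, nat_lit 0, nat_lit 0, nat_lit 173, nat_lit 0, nat_lit 0, [nat_lit 2032000000, nat_lit 4688000000, nat_lit 6250000000], [], [nat_lit 25935687996,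 nat_lit 26307071260, nat_lit 37475732996, nat_lit 37808706993, nat_lit 23165747100, nat_lit 23477692616, nat_lit 31438519756, nat_lit 31655346899], nat_lit 0, nat_lit 0, nat_lit 0, nat_lit 0, nat_lit 0, nat_lit 0, [], [nat_lit 6, nat_lit 40, nat_lit 40, nat_lit 80, nat_lit 3, nat_lit 249, nat_lit 40, nat_lit 9]⟩,
 zbF0, [⟨nat_lit 16, nat_lit 79, nat_lit 100, nat_lit 72, nat_lit 442032883⟩]⟩
noncomputable def p098_l81 : Lf2 := ⟨nat_lit 0, nat_lit 10, [nat_lit 0, nat_lit 5, nat_lit 5, nat_lit 20], false, nat_lit 0, nat_lit 252, nat_lit 0, nat_lit 160, ⟨nat_lit 1000, nat_lit 0, nat_lit 0, nat_lit 0, nat_lit 0, nat_lit 0, nat_lit 0, nat_lit 0, nat_lit 0, nat_lit 0, nat_lit 0, nat_lit 0, nat_lit 0, nat_lit 0, nat_lit 0, nat_lit 0, false, false⟩,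
 nat_lit 0, nat_lit 8422, nat_lit 0, nat_lit 0, nat_lit 6440, nat_lit 7204, nat_lit 2693, nat_lit 0, nat_lit 0, nat_lit 336, nat_lit 0, nat_lit 0, nat_lit 0, nat_lit 41255152270698, nat_lit 0, nat_lit 0, nat_lit 0, nat_lit 0, [],
 ⟨p098_k15, nat_lit 0, nat_lit 0, nat_lit 702, nat_lit 0, nat_lit 1393360, [nat_lit 2032000001, nat_lit 4688000000, nat_lit 6250000000], [], [nat_lit 24614509574, nat_lit 23784757434, nat_lit 25662181740, nat_lit 26262212280, nat_lit 21364724000, nat_lit 21484691367, nat_lit 25905797177, nat_lit 25206650008], nat_lit 1271250, nat_lit 1271250, nat_lit 1000851, nat_lit 1778250, nat_lit 0, nat_lit 1779750, [nat_lit 490000, nat_lit 1100000, nat_lit 1442500], [nat_lit 6, nat_lit 40, nat_lit 40, nat_lit 80, nat_lit 3, nat_lit 345, nat_lit 125, nat_lit 13]⟩, ⟨p098_k7, nat_lit 0, nat_lit 0, nat_lit 120, nat_lit 0, nat_lit 0, [nat_lit 2032000000, nat_lit 4688000000, nat_lit 6250000000], [], [nat_lit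 22554015034, nat_lit 23775955574, nat_lit 26190181920, nat_lit 27484564148, nat_lit 18070292554, nat_lit 19086637394, nat_lit 20924318224, nat_lit 21770527656], nat_lit 0, nat_lit 0, nat_lit 0, nat_lit 0, nat_lit 0, nat_lit 0, [], [nat_lit 6, nat_lit 40, nat_lit 40, nat_lit 80, nat_lit 3, nat_lit 317, nat_lit 100, nat_lit 12]⟩,
 zbF0, [⟨nat_lit 0, nat_lit 77, nat_lit 77, nat_lit 100, nat_lit 109465202⟩, ⟨nat_lit 4, nat_lit 100, nat_lit 77, nat_lit 72, nat_lit 222298768⟩]⟩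
noncomputable def p098_l82 : Lf2 := ⟨nat_lit 0, nat_lit 10, [nat_lit 0, nat_lit 5, nat_lit 5, nat_lit 20], false, nat_lit 0, nat_lit 252, nat_lit 0, nat_lit 160, ⟨nat_lit 1000, nat_lit 0, nat_lit 0, nat_lit 0, nat_lit 0, nat_lit 0, nat_lit 0, nat_lit 0, nat_lit 0, nat_lit 0, nat_lit 0, nat_lit 0, nat_lit 0, nat_lit 0, nat_lit 0, nat_lit 0, false, false⟩,
 nat_lit 0, nat_lit 7017, nat_lit 0, nat_lit 0, nat_lit 5365, nat_lit 6512, nat_lit 2465, nat_lit 0, nat_lit 0, nat_lit 0, nat_lit 0, nat_lit 0, nat_lit 0, nat_lit 33435614601566, nat_lit 0, nat_lit 0, nat_lit 0, nat_lit 0, [],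
 ⟨p098_k15, nat_lit 0, nat_lit 0, nat_lit 671, nat_lit 0, nat_lit 1393360, [nat_lit 2032000001, nat_lit 4688000000, nat_lit 6250000000], [], [nat_lit 31087764280, nat_lit 31226586397, nat_lit 36604267395, nat_lit 36924645850, nat_lit 30049901452, nat_lit 30148949750, nat_lit 32444349494, nat_lit 32511296225], nat_lit 1271250, nat_lit 1271250, nat_lit 1271250, nat_lit 1271250, nat_lit 0, nat_lit 1779750, [nat_lit 490000, nat_lit 1100000, nat_lit 1442500], [nat_lit 6, nat_lit 40, nat_lit 40, nat_lit 80, nat_lit 3, nat_lit 291, nat_lit 75, nat_lit 10]⟩, ⟨p098_k7, nat_lit 0, nat_lit 0, nat_lit 174, nat_lit 0, nat_lit 0, [nat_lit 2032000000, nat_lit 4688000000, nat_lit 6250000000], [], [nat_lit 27596587072, nat_lit 28392136568, nat_lit 39492915072, nat_lit 40201498680, nat_lit 24123919200, nat_lit 24789369392, nat_lit 32605266496, nat_lit 33103860144], nat_lit 0, nat_lit 0, nat_lit 0, nat_lit 0, nat_lit 0, nat_lit 0,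 [], [nat_lit 6, nat_lit 40, nat_lit 40, nat_lit 80, nat_lit 3, nat_lit 249, nat_lit 40, nat_lit 9]⟩,
 zbF0, [⟨nat_lit 16, nat_lit 77, nat_lit 100, nat_lit 72, nat_lit 146386673⟩]⟩
noncomputable def b_V_800_800_10_5 : St := ⟨true, nat_lit 1, nat_lit 0, nat_lit 1, nat_lit 80, nat_lit 320, nat_lit 330, nat_lit 320, nat_lit 330, nat_lit 140, nat_lit 400, nat_lit 40, nat_lit 80, nat_lit 0, nat_lit 260, nat_lit 0, nat_lit 160, nat_lit 0, nat_lit 40, nat_lit 0, nat_lit 0, nat_lit 0, nat_lit 0⟩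
theorem d_V_800_800_10_5 (h : EB TB.env) : Dead b_V_800_800_10_5 := chkB_sound0 h (T :=
(.spl (nat_lit 0) (nat_lit 325)
(.ord (.spl (nat_lit 4) (nat_lit 160)
(.spl (nat_lit 2) (nat_lit 240)
(.spl (nat_lit 3) (nat_lit 60)
(.spl (nat_lit 0) (nat_lit 323)
(.ord (.leaf p098_l71))
(.trZ (nat_lit 0) (nat_lit 83) (nat_lit 82) (nat_lit 100) (nat_lit 144) (.leaf p098_l72)))
(.leaf p098_l73))
(.spl (nat_lit 0) (nat_lit 323)
(.ord (.leaf p098_l74))
(.leaf p098_l75)))
(.spl (nat_lit 2) (nat_lit 240)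
(.spl (nat_lit 3) (nat_lit 60)
(.trX (nat_lit 16) (nat_lit 81) (nat_lit 100) (nat_lit 72) (nat_lit 232) (.spl (nat_lit 5) (nat_lit 80)
(.leaf p098_l76)
(.leaf p098_l77)))
(.leaf p098_l78))
(.spl (nat_lit 0) (nat_lit 323)
(.ord (.leaf p098_l79))
(.trX (nat_lit 16) (nat_lit 82) (nat_lit 100) (nat_lit 83) (nat_lit 256) (.leaf p098_l80))))))
(.trZ (nat_lit 0) (nat_lit 83) (nat_lit 81) (nat_lit 100) (nat_lit 148) (.trX (nat_lit 16) (nat_lit 81) (nat_lit 100) (nat_lit 83) (nat_lit 252) (.spl (nat_lit 2) (nat_lit 240)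
(.leaf p098_l81)
(.leaf p098_l82)))))) (by decide +kernel)
noncomputable def p098_l83 : Lf2 := ⟨nat_lit 0, nat_lit 5, [nat_lit 4, nat_lit 5, nat_lit 5, nat_lit 20], false, nat_lit 0, nat_lit 80, nat_lit 160, nat_lit 232, ⟨nat_lit 1000, nat_lit 0, nat_lit 0, nat_lit 0, nat_lit 0, nat_lit 0, nat_lit 0, nat_lit 0, nat_lit 0, nat_lit 0, nat_lit 0, nat_lit 0, nat_lit 0, nat_lit 0, nat_lit 0, nat_lit 0, false, false⟩,
 nat_lit 0, nat_lit 8856, nat_lit 0, nat_lit 0, nat_lit 6642, nat_lit 4018, nat_lit 478, nat_lit 0, nat_lit 0, nat_lit 0, nat_lit 0, nat_lit 0, nat_lit 0, nat_lit 0, nat_lit 0, nat_lit 0, nat_lit 0, nat_lit 0, [],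
 ⟨p098_k13, nat_lit 0, nat_lit 0, nat_lit 643, nat_lit 0, nat_lit 1267868, [nat_lit 2032000001, nat_lit 4688000000, nat_lit 6250000000], [], [nat_lit 32748341980, nat_lit 32940642342, nat_lit 33681701680, nat_lit 33854127856, nat_lit 30731231813, nat_lit 30908079496, nat_lit 31509494912, nat_lit 31669386832], nat_lit 1271250, nat_lit 1271250, nat_lit 936251, nat_lit 1773750, nat_lit 0, nat_lit 490000, [nat_lit 490000, nat_lit 1100000, nat_lit 1442500], [nat_lit 6, nat_lit 40, nat_lit 40, nat_lit 80, nat_lit 3, nat_lit 317, nat_lit 100, nat_lit 12]⟩, ⟨p098_k13, nat_lit 0, nat_lit 0, nat_lit 21, nat_lit 0, nat_lit 0, [nat_lit 2032000000, nat_lit 4688000000, nat_lit 6250000000], [], [nat_lit 15986048796, nat_lit 16421650503, nat_lit 19342178440, nat_lit 19727320320, nat_lit 18729420508, nat_lit 19132755831, nat_lit 21597372348, nat_lit 21935122635], nat_lit 0, nat_lit 0, nat_lit 0, nat_lit 0, nat_lit 0, nat_lit 0,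 [], [nat_lit 6, nat_lit 40, nat_lit 40, nat_lit 80, nat_lit 3, nat_lit 345, nat_lit 125, nat_lit 12]⟩,
 zbF0, [⟨nat_lit 0, nat_lit 80, nat_lit 80, nat_lit 100, nat_lit 415200109⟩, ⟨nat_lit 7, nat_lit 100, nat_lit 79, nat_lit 66, nat_lit 750609087⟩]⟩
noncomputable def p098_l84 : Lf2 := ⟨nat_lit 0, nat_lit 5, [nat_lit 4, nat_lit 5, nat_lit 5, nat_lit 20], false, nat_lit 80, nat_lit 160, nat_lit 160, nat_lit 232, ⟨nat_lit 1000, nat_lit 0, nat_lit 0, nat_lit 0, nat_lit 0, nat_lit 0, nat_lit 0, nat_lit 0, nat_lit 0, nat_lit 0, nat_lit 0, nat_lit 0, nat_lit 0, nat_lit 0, nat_lit 0, nat_lit 0, false, false⟩,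
 nat_lit 0, nat_lit 8856, nat_lit 0, nat_lit 0, nat_lit 6642, nat_lit 4018, nat_lit 478, nat_lit 0, nat_lit 0, nat_lit 0, nat_lit 0, nat_lit 0, nat_lit 0, nat_lit 0, nat_lit 0, nat_lit 0, nat_lit 0, nat_lit 0, [],
 ⟨p098_k13, nat_lit 0, nat_lit 0, nat_lit 580, nat_lit 0, nat_lit 1267868, [nat_lit 2032000001, nat_lit 4688000000, nat_lit 6250000000], [], [nat_lit 28328984796, nat_lit 28544468775, nat_lit 29408464560, nat_lit 29601776352, nat_lit 28075231814, nat_lit 28252642342, nat_lit 28993701680, nat_lit 29166127856], nat_lit 1271250, nat_lit 1271250, nat_lit 936251, nat_lit 1773750, nat_lit 490000, nat_lit 1100001, [nat_lit 490000, nat_lit 1100000, nat_lit 1442500], [nat_lit 6, nat_lit 40, nat_lit 40, nat_lit 80, nat_lit 3, nat_lit 317, nat_lit 100, nat_lit 11]⟩, ⟨p098_k13, nat_lit 0, nat_lit 0, nat_lit 21, nat_lit 0, nat_lit 0, [nat_lit 2032000000, nat_lit 4688000000, nat_lit 6250000000], [], [nat_lit 15986048796,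 nat_lit 16421650503, nat_lit 19342178440, nat_lit 19727320320, nat_lit 18729420508, nat_lit 19132755831, nat_lit 21597372348, nat_lit 21935122635], nat_lit 0, nat_lit 0, nat_lit 0, nat_lit 0, nat_lit 0, nat_lit 0, [], [nat_lit 6, nat_lit 40, nat_lit 40, nat_lit 80, nat_lit 3, nat_lit 345, nat_lit 125, nat_lit 12]⟩,
 zbF0, [⟨nat_lit 0, nat_lit 80, nat_lit 80, nat_lit 100, nat_lit 415200109⟩, ⟨nat_lit 7, nat_lit 100, nat_lit 79, nat_lit 66, nat_lit 750609087⟩]⟩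
noncomputable def p098_l85 : Lf2 := ⟨nat_lit 0, nat_lit 10, [nat_lit 0, nat_lit 5, nat_lit 5, nat_lit 20], false, nat_lit 0, nat_lit 160, nat_lit 160, nat_lit 232, ⟨nat_lit 1000, nat_lit 0, nat_lit 0, nat_lit 0, nat_lit 0, nat_lit 0, nat_lit 0, nat_lit 0, nat_lit 0, nat_lit 0, nat_lit 0, nat_lit 0, nat_lit 0, nat_lit 0, nat_lit 0, nat_lit 0, false, false⟩,
 nat_lit 0, nat_lit 10150, nat_lit 0, nat_lit 0, nat_lit 7612, nat_lit 4018, nat_lit 503, nat_lit 0, nat_lit 0, nat_lit 0, nat_lit 0, nat_lit 0, nat_lit 0, nat_lit 15244590903923, nat_lit 0, nat_lit 0, nat_lit 0, nat_lit 0, [],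
 ⟨p098_k7, nat_lit 0, nat_lit 0, nat_lit 529, nat_lit 0, nat_lit 1008312, [nat_lit 2032000001, nat_lit 4688000000, nat_lit 6250000000], [], [nat_lit 24891742392, nat_lit 25172108359, nat_lit 26792585760, nat_lit 27464962102, nat_lit 21556762480, nat_lit 21805348938, nat_lit 23814395410, nat_lit 22975515836], nat_lit 1271250, nat_lit 1271250, nat_lit 936251, nat_lit 1773750, nat_lit 0, nat_lit 1100001, [nat_lit 490000, nat_lit 1100000, nat_lit 1442500], [nat_lit 6, nat_lit 40, nat_lit 40, nat_lit 80, nat_lit 3, nat_lit 317, nat_lit 100, nat_lit 12]⟩, ⟨p098_k7, nat_lit 0, nat_lit 0, nat_lit 21, nat_lit 0, nat_lit 0, [nat_lit 2032000000, nat_lit 4688000000, nat_lit 6250000000], [], [nat_lit 15986048796, nat_lit 16421650503, nat_lit 19342178440, nat_lit 19727320320, nat_lit 18729420508, nat_lit 19132755831, nat_lit 21597372348, nat_lit 21935122635], nat_lit 0, nat_lit 0, nat_lit 0, nat_lit 0, nat_lit 0, nat_lit 0,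 [], [nat_lit 6, nat_lit 40, nat_lit 40, nat_lit 80, nat_lit 3, nat_lit 345, nat_lit 125, nat_lit 12]⟩,
 zbF0, [⟨nat_lit 0, nat_lit 80, nat_lit 80, nat_lit 100, nat_lit 395206669⟩, ⟨nat_lit 7, nat_lit 100, nat_lit 79, nat_lit 66, nat_lit 750609087⟩]⟩
noncomputable def p098_l86 : Lf2 := ⟨nat_lit 0, nat_lit 10, [nat_lit 0, nat_lit 5, nat_lit 5, nat_lit 20], false, nat_lit 0, nat_lit 160, nat_lit 160, nat_lit 260, ⟨nat_lit 1000, nat_lit 0, nat_lit 0, nat_lit 0, nat_lit 0, nat_lit 0, nat_lit 0, nat_lit 0, nat_lit 0, nat_lit 0, nat_lit 0, nat_lit 0, nat_lit 0, nat_lit 0, nat_lit 0, nat_lit 0, false, false⟩,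
 nat_lit 0, nat_lit 10429, nat_lit 0, nat_lit 0, nat_lit 7821, nat_lit 3889, nat_lit 600, nat_lit 0, nat_lit 0, nat_lit 0, nat_lit 0, nat_lit 0, nat_lit 0, nat_lit 0, nat_lit 0, nat_lit 0, nat_lit 0, nat_lit 0, [],
 ⟨p098_k7, nat_lit 0, nat_lit 0, nat_lit 587, nat_lit 0, nat_lit 1147770, [nat_lit 2032000001, nat_lit 4688000000, nat_lit 6250000000], [], [nat_lit 25330906372, nat_lit 25601968954, nat_lit 27101170080, nat_lit 27786447679, nat_lit 22128247282, nat_lit 22350722468, nat_lit 22934217966, nat_lit 23101255178], nat_lit 1271250, nat_lit 1271250, nat_lit 936251, nat_lit 1773750, nat_lit 0, nat_lit 1100001, [nat_lit 490000, nat_lit 1100000, nat_lit 1442500], [nat_lit 6, nat_lit 40, nat_lit 40, nat_lit 80, nat_lit 3, nat_lit 317, nat_lit 100, nat_lit 12]⟩, ⟨p098_k7, nat_lit 0, nat_lit 0, nat_lit 28, nat_lit 0, nat_lit 0, [nat_lit 2032000000, nat_lit 4688000000, nat_lit 6250000000], [], [nat_lit 16088497758,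 nat_lit 16516325732, nat_lit 19409856668, nat_lit 19767488603, nat_lit 20135931844, nat_lit 20488307624, nat_lit 22740903311, nat_lit 23054247178], nat_lit 0, nat_lit 0, nat_lit 0, nat_lit 0, nat_lit 0, nat_lit 0, [], [nat_lit 6, nat_lit 40, nat_lit 40, nat_lit 80, nat_lit 3, nat_lit 345, nat_lit 125, nat_lit 12]⟩,
 zbF0, [⟨nat_lit 0, nat_lit 80, nat_lit 80, nat_lit 100, nat_lit 432294065⟩, ⟨nat_lit 19, nat_lit 81, nat_lit 100, nat_lit 78, nat_lit 646538153⟩]⟩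
noncomputable def p098_l87 : Lf2 := ⟨nat_lit 0, nat_lit 10, [nat_lit 0, nat_lit 5, nat_lit 5, nat_lit 20], false, nat_lit 0, nat_lit 160, nat_lit 160, nat_lit 232, ⟨nat_lit 1000, nat_lit 0, nat_lit 0, nat_lit 0, nat_lit 0, nat_lit 0, nat_lit 0, nat_lit 0, nat_lit 0, nat_lit 0, nat_lit 0, nat_lit 0, nat_lit 0, nat_lit 0, nat_lit 0, nat_lit 0, false, false⟩,
 nat_lit 0, nat_lit 8700, nat_lit 0, nat_lit 0, nat_lit 6524, nat_lit 5751, nat_lit 3034, nat_lit 0, nat_lit 0, nat_lit 0, nat_lit 0, nat_lit 0, nat_lit 0, nat_lit 0, nat_lit 0, nat_lit 0, nat_lit 0, nat_lit 0, [],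
 ⟨p098_k7, nat_lit 0, nat_lit 0, nat_lit 637, nat_lit 0, nat_lit 1306230, [nat_lit 2032000001, nat_lit 4688000000, nat_lit 6250000000], [], [nat_lit 34289868960, nat_lit 34461129532, nat_lit 39526488144, nat_lit 39881134752, nat_lit 31760414690, nat_lit 31881550238, nat_lit 35107374112, nat_lit 35199658882], nat_lit 1271250, nat_lit 1271250, nat_lit 1271250, nat_lit 1271250, nat_lit 0, nat_lit 1100001, [nat_lit 490000, nat_lit 1100000, nat_lit 1442500], [nat_lit 6, nat_lit 40, nat_lit 40, nat_lit 80, nat_lit 3, nat_lit 270, nat_lit 40, nat_lit 9]⟩, ⟨p098_k7, nat_lit 0, nat_lit 0, nat_lit 79, nat_lit 0, nat_lit 0, [nat_lit 2032000000, nat_lit 4688000000, nat_lit 6250000000], [], [nat_lit 21110915168, nat_lit 21508348586, nat_lit 31123730744, nat_lit 31415065446, nat_lit 23176308778, nat_lit 23522791063, nat_lit 31995841897, nat_lit 32251427368], nat_lit 0, nat_lit 0, nat_lit 0, nat_lit 0, nat_lit 0, nat_lit 0, [],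 [nat_lit 6, nat_lit 40, nat_lit 40, nat_lit 80, nat_lit 3, nat_lit 272, nat_lit 60, nat_lit 9]⟩,
 zbF0, [⟨nat_lit 7, nat_lit 100, nat_lit 79, nat_lit 66, nat_lit 657733482⟩]⟩
noncomputable def p098_l88 : Lf2 := ⟨nat_lit 0, nat_lit 10, [nat_lit 0, nat_lit 5, nat_lit 5, nat_lit 20], false, nat_lit 0, nat_lit 160, nat_lit 160, nat_lit 260, ⟨nat_lit 1000, nat_lit 0, nat_lit 0, nat_lit 0, nat_lit 0, nat_lit 0, nat_lit 0, nat_lit 0, nat_lit 0, nat_lit 0, nat_lit 0, nat_lit 0, nat_lit 0, nat_lit 0, nat_lit 0, nat_lit 0, false, false⟩,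
 nat_lit 0, nat_lit 8479, nat_lit 0, nat_lit 0, nat_lit 6359, nat_lit 6216, nat_lit 432, nat_lit 0, nat_lit 0, nat_lit 0, nat_lit 0, nat_lit 0, nat_lit 0, nat_lit 0, nat_lit 0, nat_lit 0, nat_lit 0, nat_lit 0, [],
 ⟨p098_k7, nat_lit 0, nat_lit 0, nat_lit 571, nat_lit 0, nat_lit 1147770, [nat_lit 2032000001, nat_lit 4688000000, nat_lit 6250000000], [], [nat_lit 33237648204, nat_lit 33415572235, nat_lit 39064858404, nat_lit 39414626457, nat_lit 30545737882, nat_lit 30687777359, nat_lit 34615449564, nat_lit 34727405131], nat_lit 1271250, nat_lit 1271250, nat_lit 1271250, nat_lit 1271250, nat_lit 0, nat_lit 1100001, [nat_lit 490000, nat_lit 1100000, nat_lit 1442500], [nat_lit 6, nat_lit 40, nat_lit 40, nat_lit 80, nat_lit 3, nat_lit 254, nat_lit 40, nat_lit 9]⟩, ⟨p098_k7, nat_lit 0, nat_lit 0, nat_lit 79, nat_lit 0, nat_lit 0, [nat_lit 2032000000, nat_lit 4688000000, nat_lit 6250000000], [], [nat_lit 20684588288, nat_lit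 21100816076, nat_lit 31709976704, nat_lit 32012797836, nat_lit 23956578824, nat_lit 24296311042, nat_lit 33232556280, nat_lit 33481036766], nat_lit 0, nat_lit 0, nat_lit 0, nat_lit 0, nat_lit 0, nat_lit 0, [], [nat_lit 6, nat_lit 40, nat_lit 40, nat_lit 80, nat_lit 3, nat_lit 289, nat_lit 75, nat_lit 9]⟩,
 zbF0, [⟨nat_lit 7, nat_lit 100, nat_lit 81, nat_lit 78, nat_lit 448372533⟩]⟩
noncomputable def p098_l89 : Lf2 := ⟨nat_lit 0, nat_lit 10, [nat_lit 0, nat_lit 5, nat_lit 5, nat_lit 20], false, nat_lit 0, nat_lit 160, nat_lit 160, nat_lit 260, ⟨nat_lit 1000, nat_lit 0, nat_lit 0, nat_lit 0, nat_lit 0, nat_lit 0, nat_lit 0, nat_lit 0, nat_lit 0, nat_lit 0, nat_lit 0, nat_lit 0, nat_lit 0, nat_lit 0, nat_lit 0, nat_lit 0, false, false⟩,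
 nat_lit 0, nat_lit 7405, nat_lit 0, nat_lit 0, nat_lit 5662, nat_lit 6749, nat_lit 2621, nat_lit 0, nat_lit 0, nat_lit 0, nat_lit 0, nat_lit 0, nat_lit 0, nat_lit 0, nat_lit 0, nat_lit 0, nat_lit 0, nat_lit 0, [],
 ⟨p098_k15, nat_lit 0, nat_lit 0, nat_lit 702, nat_lit 0, nat_lit 1393360, [nat_lit 2032000001, nat_lit 4688000000, nat_lit 6250000000], [], [nat_lit 27779963013, nat_lit 27944458016, nat_lit 37443982326, nat_lit 37773142180, nat_lit 26152853188, nat_lit 26290044289, nat_lit 32028097154, nat_lit 31589796976], nat_lit 1271250, nat_lit 1271250, nat_lit 1000851, nat_lit 3130250, nat_lit 0, nat_lit 1100001, [nat_lit 490000, nat_lit 1100000, nat_lit 1442500], [nat_lit 6, nat_lit 40, nat_lit 40, nat_lit 80, nat_lit 3, nat_lit 373, nat_lit 150, nat_lit 14]⟩, ⟨p098_k7, nat_lit 0, nat_lit 0, nat_lit 80, nat_lit 0, nat_lit 0, [nat_lit 2032000000, nat_lit 4688000000, nat_lit 6250000000], [], [nat_lit 17048362793,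 nat_lit 18099452081, nat_lit 32381953256, nat_lit 33013927852, nat_lit 21294869918, nat_lit 22145382239, nat_lit 33835288670, nat_lit 34351190197], nat_lit 0, nat_lit 0, nat_lit 0, nat_lit 0, nat_lit 0, nat_lit 0, [], [nat_lit 6, nat_lit 40, nat_lit 40, nat_lit 80, nat_lit 3, nat_lit 401, nat_lit 175, nat_lit 14]⟩,
 zbF0, [⟨nat_lit 7, nat_lit 100, nat_lit 79, nat_lit 72, nat_lit 724639958⟩]⟩
noncomputable def p098_l90 : Lf2 := ⟨nat_lit 0, nat_lit 1, [nat_lit 19, nat_lit 5, nat_lit 5, nat_lit 20], false, nat_lit 160, nat_lit 232, nat_lit 160, nat_lit 232, ⟨nat_lit 1000, nat_lit 0, nat_lit 0, nat_lit 0, nat_lit 0, nat_lit 0, nat_lit 0, nat_lit 0, nat_lit 0, nat_lit 0, nat_lit 0, nat_lit 0, nat_lit 0, nat_lit 0, nat_lit 0, nat_lit 0, false, false⟩,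
 nat_lit 0, nat_lit 8982, nat_lit 0, nat_lit 0, nat_lit 6736, nat_lit 3954, nat_lit 0, nat_lit 0, nat_lit 0, nat_lit 0, nat_lit 0, nat_lit 0, nat_lit 0, nat_lit 0, nat_lit 0, nat_lit 0, nat_lit 0, nat_lit 0, [],
 ⟨p098_k22, nat_lit 0, nat_lit 0, nat_lit 398, nat_lit 0, nat_lit 1237179, [nat_lit 2032000001, nat_lit 3282000000], [], [nat_lit 18266719490, nat_lit 18522872998, nat_lit 19828907360, nat_lit 20333407140, nat_lit 19602687050, nat_lit 19827714201, nat_lit 22264723975, nat_lit 22715729925], nat_lit 1271250, nat_lit 1271250, nat_lit 936251, nat_lit 1773750, nat_lit 1100001, nat_lit 1716500, [nat_lit 490000, nat_lit 780000], [nat_lit 112, nat_lit 40, nat_lit 40, nat_lit 80, nat_lit 113, nat_lit 203, nat_lit 0, nat_lit 10]⟩, ⟨p098_k22, nat_lit 0, nat_lit 0, nat_lit 14, nat_lit 0, nat_lit 0, [nat_lit 2032000000, nat_lit 3282000000], [], [nat_lit 16036876188, nat_lit 16468621159, nat_lit 19367347448, nat_lit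 19728028858, nat_lit 18739289344, nat_lit 19116762492, nat_lit 21581658402, nat_lit 21916741890], nat_lit 0, nat_lit 0, nat_lit 0, nat_lit 0, nat_lit 0, nat_lit 0, [], [nat_lit 112, nat_lit 40, nat_lit 40, nat_lit 80, nat_lit 113, nat_lit 203, nat_lit 0, nat_lit 10]⟩,
 zbF0, [⟨nat_lit 0, nat_lit 80, nat_lit 80, nat_lit 100, nat_lit 264445749⟩, ⟨nat_lit 4, nat_lit 100, nat_lit 79, nat_lit 66, nat_lit 563220796⟩, ⟨nat_lit 19, nat_lit 81, nat_lit 100, nat_lit 72, nat_lit 318697888⟩, ⟨nat_lit 7, nat_lit 100, nat_lit 79, nat_lit 66, nat_lit 385669241⟩]⟩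
noncomputable def p098_l91 : Lf2 := ⟨nat_lit 0, nat_lit 2, [nat_lit 10, nat_lit 5, nat_lit 5, nat_lit 20], false, nat_lit 160, nat_lit 232, nat_lit 160, nat_lit 232, ⟨nat_lit 1000, nat_lit 0, nat_lit 0, nat_lit 0, nat_lit 0, nat_lit 0, nat_lit 0, nat_lit 0, nat_lit 0, nat_lit 0, nat_lit 0, nat_lit 0, nat_lit 0, nat_lit 0, nat_lit 0, nat_lit 0, false, false⟩,
 nat_lit 0, nat_lit 9038, nat_lit 0, nat_lit 0, nat_lit 6778, nat_lit 3972, nat_lit 0, nat_lit 0, nat_lit 0, nat_lit 0, nat_lit 0, nat_lit 0, nat_lit 0, nat_lit 0, nat_lit 0, nat_lit 0, nat_lit 0, nat_lit 0, [],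
 ⟨p098_k23, nat_lit 0, nat_lit 0, nat_lit 436, nat_lit 0, nat_lit 1176316, [nat_lit 2032000001, nat_lit 4688000000], [], [nat_lit 25110980696, nat_lit 25362338922, nat_lit 26409480176, nat_lit 26619467834, nat_lit 26271951360, nat_lit 26492066831, nat_lit 27223143544, nat_lit 27406849259], nat_lit 1271250, nat_lit 1271250, nat_lit 936251, nat_lit 1773750, nat_lit 1100001, nat_lit 1716500, [nat_lit 490000, nat_lit 1100000], [nat_lit 24, nat_lit 40, nat_lit 40, nat_lit 80, nat_lit 33, nat_lit 272, nat_lit 60, nat_lit 11]⟩, ⟨p098_k23, nat_lit 0, nat_lit 0, nat_lit 14, nat_lit 0, nat_lit 0, [nat_lit 2032000000, nat_lit 4688000000], [], [nat_lit 16022580984, nat_lit 16455410662, nat_lit 19355575664, nat_lit 19717101544, nat_lit 18727896305, nat_lit 19121039745, nat_lit 21586077949, nat_lit 21921911474], nat_lit 0, nat_lit 0, nat_lit 0, nat_lit 0, nat_lit 0, nat_lit 0, [], [nat_lit 24, nat_lit 40, nat_lit 40, nat_lit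 80, nat_lit 33, nat_lit 272, nat_lit 60, nat_lit 11]⟩,
 zbF0, [⟨nat_lit 0, nat_lit 80, nat_lit 80, nat_lit 100, nat_lit 391900773⟩, ⟨nat_lit 4, nat_lit 100, nat_lit 79, nat_lit 66, nat_lit 539894555⟩, ⟨nat_lit 7, nat_lit 100, nat_lit 79, nat_lit 66, nat_lit 744469384⟩]⟩
noncomputable def p098_l92 : Lf2 := ⟨nat_lit 0, nat_lit 5, [nat_lit 4, nat_lit 5, nat_lit 5, nat_lit 20], false, nat_lit 160, nat_lit 232, nat_lit 160, nat_lit 232, ⟨nat_lit 1000, nat_lit 0, nat_lit 0, nat_lit 0, nat_lit 0, nat_lit 0, nat_lit 0, nat_lit 0, nat_lit 0, nat_lit 0, nat_lit 0, nat_lit 0, nat_lit 0, nat_lit 0, nat_lit 0, nat_lit 0, false, false⟩,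
 nat_lit 0, nat_lit 8947, nat_lit 0, nat_lit 0, nat_lit 6710, nat_lit 3972, nat_lit 513, nat_lit 0, nat_lit 0, nat_lit 0, nat_lit 0, nat_lit 0, nat_lit 0, nat_lit 0, nat_lit 0, nat_lit 0, nat_lit 0, nat_lit 0, [],
 ⟨p098_k13, nat_lit 0, nat_lit 0, nat_lit 500, nat_lit 0, nat_lit 1140398, [nat_lit 2032000001, nat_lit 4688000000, nat_lit 6250000000], [], [nat_lit 25419229400, nat_lit 25652477890, nat_lit 26707538320, nat_lit 26916576630, nat_lit 26566172522, nat_lit 26785257394, nat_lit 27526780924, nat_lit 27709749105], nat_lit 1271250, nat_lit 1271250, nat_lit 936251, nat_lit 1773750, nat_lit 1100001, nat_lit 1716500, [nat_lit 490000, nat_lit 1100000, nat_lit 1442500], [nat_lit 6, nat_lit 40, nat_lit 40, nat_lit 80, nat_lit 3, nat_lit 345, nat_lit 125, nat_lit 12]⟩, ⟨p098_k13, nat_lit 0, nat_lit 0, nat_lit 21, nat_lit 0, nat_lit 0, [nat_lit 2032000000, nat_lit 4688000000, nat_lit 6250000000], [], [nat_lit 16022580984,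 nat_lit 16455410662, nat_lit 19355575664, nat_lit 19717101544, nat_lit 18727896305, nat_lit 19121039745, nat_lit 21586077949, nat_lit 21921911474], nat_lit 0, nat_lit 0, nat_lit 0, nat_lit 0, nat_lit 0, nat_lit 0, [], [nat_lit 6, nat_lit 40, nat_lit 40, nat_lit 80, nat_lit 3, nat_lit 345, nat_lit 125, nat_lit 12]⟩,
 zbF0, [⟨nat_lit 0, nat_lit 80, nat_lit 80, nat_lit 100, nat_lit 391344200⟩, ⟨nat_lit 4, nat_lit 100, nat_lit 79, nat_lit 66, nat_lit 540319063⟩, ⟨nat_lit 7, nat_lit 100, nat_lit 79, nat_lit 66, nat_lit 744469384⟩]⟩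
noncomputable def p098_l93 : Lf2 := ⟨nat_lit 0, nat_lit 10, [nat_lit 0, nat_lit 5, nat_lit 5, nat_lit 20], false, nat_lit 160, nat_lit 232, nat_lit 160, nat_lit 232, ⟨nat_lit 1000, nat_lit 0, nat_lit 0, nat_lit 0, nat_lit 0, nat_lit 0, nat_lit 0, nat_lit 0, nat_lit 0, nat_lit 0, nat_lit 0, nat_lit 0, nat_lit 0, nat_lit 0, nat_lit 0, nat_lit 0, false, false⟩,
 nat_lit 0, nat_lit 8946, nat_lit 0, nat_lit 0, nat_lit 6709, nat_lit 3954, nat_lit 513, nat_lit 0, nat_lit 0, nat_lit 0, nat_lit 0, nat_lit 0, nat_lit 0, nat_lit 0, nat_lit 0, nat_lit 0, nat_lit 0, nat_lit 0, [],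
 ⟨p098_k7, nat_lit 0, nat_lit 0, nat_lit 436, nat_lit 0, nat_lit 1008312, [nat_lit 2032000001, nat_lit 4688000000, nat_lit 6250000000], [], [nat_lit 23367710294, nat_lit 23629894582, nat_lit 24812090476, nat_lit 25063894433, nat_lit 24606610123, nat_lit 24852682310, nat_lit 25905032297, nat_lit 26125323393], nat_lit 1271250, nat_lit 1271250, nat_lit 936251, nat_lit 1773750, nat_lit 1100001, nat_lit 1716500, [nat_lit 490000, nat_lit 1100000, nat_lit 1442500], [nat_lit 6, nat_lit 40, nat_lit 40, nat_lit 80, nat_lit 3, nat_lit 345, nat_lit 125, nat_lit 12]⟩, ⟨p098_k7, nat_lit 0, nat_lit 0, nat_lit 21, nat_lit 0, nat_lit 0, [nat_lit 2032000000, nat_lit 4688000000, nat_lit 6250000000], [], [nat_lit 16036876188, nat_lit 16468621159, nat_lit 19367347448, nat_lit 19728028858, nat_lit 18739289344, nat_lit 19116762492, nat_lit 21581658402, nat_lit 21916741890], nat_lit 0, nat_lit 0, nat_lit 0, nat_lit 0, nat_lit 0, nat_lit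 0, [], [nat_lit 6, nat_lit 40, nat_lit 40, nat_lit 80, nat_lit 3, nat_lit 345, nat_lit 125, nat_lit 12]⟩,
 zbF0, [⟨nat_lit 0, nat_lit 80, nat_lit 80, nat_lit 100, nat_lit 378166636⟩, ⟨nat_lit 16, nat_lit 79, nat_lit 100, nat_lit 66, nat_lit 552366593⟩, ⟨nat_lit 7, nat_lit 100, nat_lit 79, nat_lit 66, nat_lit 742141447⟩]⟩
noncomputable def p098_l94 : Lf2 := ⟨nat_lit 0, nat_lit 1, [nat_lit 19, nat_lit 5, nat_lit 5, nat_lit 20], false, nat_lit 160, nat_lit 260, nat_lit 160, nat_lit 260, ⟨nat_lit 1000, nat_lit 0, nat_lit 0, nat_lit 0, nat_lit 0, nat_lit 0, nat_lit 0, nat_lit 0, nat_lit 0, nat_lit 0, nat_lit 0, nat_lit 0, nat_lit 0, nat_lit 0, nat_lit 0, nat_lit 0, false, false⟩,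
 nat_lit 0, nat_lit 8668, nat_lit 0, nat_lit 0, nat_lit 6501, nat_lit 3889, nat_lit 0, nat_lit 0, nat_lit 0, nat_lit 0, nat_lit 0, nat_lit 0, nat_lit 0, nat_lit 0, nat_lit 0, nat_lit 0, nat_lit 0, nat_lit 0, [],
 ⟨p098_k22, nat_lit 0, nat_lit 0, nat_lit 345, nat_lit 0, nat_lit 1088826, [nat_lit 2032000001, nat_lit 3282000000], [], [nat_lit 19229903667, nat_lit 19501684105, nat_lit 20955588609, nat_lit 21183671998, nat_lit 21503216994, nat_lit 21728677719, nat_lit 23625846299, nat_lit 24038564032], nat_lit 1271250, nat_lit 1271250, nat_lit 936251, nat_lit 1773750, nat_lit 1100001, nat_lit 1956250, [nat_lit 490000, nat_lit 780000], [nat_lit 112, nat_lit 40, nat_lit 40, nat_lit 80, nat_lit 113, nat_lit 203, nat_lit 0, nat_lit 10]⟩, ⟨p098_k22, nat_lit 0, nat_lit 0, nat_lit 19, nat_lit 0, nat_lit 0, [nat_lit 2032000000, nat_lit 3282000000], [], [nat_lit 16088497758, nat_lit 16516325732, nat_lit 19409856668, nat_lit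 19767488603, nat_lit 20135931844, nat_lit 20488307624, nat_lit 22740903311, nat_lit 23054247178], nat_lit 0, nat_lit 0, nat_lit 0, nat_lit 0, nat_lit 0, nat_lit 0, [], [nat_lit 112, nat_lit 40, nat_lit 40, nat_lit 80, nat_lit 113, nat_lit 203, nat_lit 0, nat_lit 10]⟩,
 zbF0, [⟨nat_lit 0, nat_lit 80, nat_lit 80, nat_lit 100, nat_lit 363921713⟩, ⟨nat_lit 16, nat_lit 83, nat_lit 100, nat_lit 83, nat_lit 466286528⟩, ⟨nat_lit 19, nat_lit 83, nat_lit 100, nat_lit 83, nat_lit 543248654⟩]⟩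
noncomputable def p098_l95 : Lf2 := ⟨nat_lit 0, nat_lit 2, [nat_lit 10, nat_lit 5, nat_lit 5, nat_lit 20], false, nat_lit 160, nat_lit 260, nat_lit 160, nat_lit 260, ⟨nat_lit 1000, nat_lit 0, nat_lit 0, nat_lit 0, nat_lit 0, nat_lit 0, nat_lit 0, nat_lit 0, nat_lit 0, nat_lit 0, nat_lit 0, nat_lit 0, nat_lit 0, nat_lit 0, nat_lit 0, nat_lit 0, false, false⟩,
 nat_lit 0, nat_lit 10235, nat_lit 0, nat_lit 0, nat_lit 7676, nat_lit 3889, nat_lit 0, nat_lit 0, nat_lit 0, nat_lit 0, nat_lit 0, nat_lit 0, nat_lit 0, nat_lit 0, nat_lit 0, nat_lit 0, nat_lit 0, nat_lit 0, [],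
 ⟨p098_k23, nat_lit 0, nat_lit 0, nat_lit 372, nat_lit 0, nat_lit 1025980, [nat_lit 2032000001, nat_lit 4688000000], [], [nat_lit 21264067232, nat_lit 21532390474, nat_lit 22473359392, nat_lit 22695884028, nat_lit 23099921152, nat_lit 23319521815, nat_lit 24023935124, nat_lit 24481355879], nat_lit 1271250, nat_lit 1271250, nat_lit 936251, nat_lit 1773750, nat_lit 1100001, nat_lit 1956250, [nat_lit 490000, nat_lit 1100000], [nat_lit 24, nat_lit 40, nat_lit 40, nat_lit 80, nat_lit 33, nat_lit 272, nat_lit 60, nat_lit 11]⟩, ⟨p098_k23, nat_lit 0, nat_lit 0, nat_lit 19, nat_lit 0, nat_lit 0, [nat_lit 2032000000, nat_lit 4688000000], [], [nat_lit 16088497758, nat_lit 16516325732, nat_lit 19409856668, nat_lit 19767488603, nat_lit 20135931844, nat_lit 20488307624, nat_lit 22740903311, nat_lit 23054247178], nat_lit 0, nat_lit 0, nat_lit 0, nat_lit 0, nat_lit 0, nat_lit 0, [], [nat_lit 24, nat_lit 40, nat_lit 40, nat_lit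 80, nat_lit 33, nat_lit 272, nat_lit 60, nat_lit 11]⟩,
 zbF0, [⟨nat_lit 0, nat_lit 80, nat_lit 80, nat_lit 100, nat_lit 400029771⟩, ⟨nat_lit 4, nat_lit 100, nat_lit 81, nat_lit 78, nat_lit 473616673⟩, ⟨nat_lit 7, nat_lit 100, nat_lit 81, nat_lit 78, nat_lit 646538153⟩]⟩
noncomputable def p098_l96 : Lf2 := ⟨nat_lit 0, nat_lit 5, [nat_lit 4, nat_lit 5, nat_lit 5, nat_lit 20], false, nat_lit 160, nat_lit 260, nat_lit 160, nat_lit 260, ⟨nat_lit 1000, nat_lit 0, nat_lit 0, nat_lit 0, nat_lit 0, nat_lit 0, nat_lit 0, nat_lit 0, nat_lit 0, nat_lit 0, nat_lit 0, nat_lit 0, nat_lit 0, nat_lit 0, nat_lit 0, nat_lit 0, false, false⟩,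
 nat_lit 0, nat_lit 9974, nat_lit 0, nat_lit 0, nat_lit 7480, nat_lit 3889, nat_lit 484, nat_lit 0, nat_lit 0, nat_lit 0, nat_lit 0, nat_lit 0, nat_lit 0, nat_lit 0, nat_lit 0, nat_lit 0, nat_lit 0, nat_lit 0, [],
 ⟨p098_k13, nat_lit 0, nat_lit 0, nat_lit 427, nat_lit 0, nat_lit 986437, [nat_lit 2032000001, nat_lit 4688000000, nat_lit 6250000000], [], [nat_lit 20644381200, nat_lit 20942976990, nat_lit 22091867680, nat_lit 22339572700, nat_lit 22768894720, nat_lit 23013255228, nat_lit 23957530520, nat_lit 24407494430], nat_lit 1271250, nat_lit 1271250, nat_lit 936251, nat_lit 1773750, nat_lit 1100001, nat_lit 1956250, [nat_lit 490000, nat_lit 1100000, nat_lit 1442500], [nat_lit 6, nat_lit 40, nat_lit 40, nat_lit 80, nat_lit 3, nat_lit 345, nat_lit 125, nat_lit 12]⟩, ⟨p098_k13, nat_lit 0, nat_lit 0, nat_lit 28, nat_lit 0, nat_lit 0, [nat_lit 2032000000, nat_lit 4688000000, nat_lit 6250000000], [], [nat_lit 16088497758,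 nat_lit 16516325732, nat_lit 19409856668, nat_lit 19767488603, nat_lit 20135931844, nat_lit 20488307624, nat_lit 22740903311, nat_lit 23054247178], nat_lit 0, nat_lit 0, nat_lit 0, nat_lit 0, nat_lit 0, nat_lit 0, [], [nat_lit 6, nat_lit 40, nat_lit 40, nat_lit 80, nat_lit 3, nat_lit 345, nat_lit 125, nat_lit 12]⟩,
 zbF0, [⟨nat_lit 0, nat_lit 80, nat_lit 80, nat_lit 100, nat_lit 406358061⟩, ⟨nat_lit 16, nat_lit 81, nat_lit 100, nat_lit 78, nat_lit 496025382⟩, ⟨nat_lit 7, nat_lit 100, nat_lit 81, nat_lit 78, nat_lit 621678694⟩]⟩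
noncomputable def p098_l97 : Lf2 := ⟨nat_lit 0, nat_lit 10, [nat_lit 0, nat_lit 5, nat_lit 5, nat_lit 20], false, nat_lit 160, nat_lit 260, nat_lit 160, nat_lit 260, ⟨nat_lit 1000, nat_lit 0, nat_lit 0, nat_lit 0, nat_lit 0, nat_lit 0, nat_lit 0, nat_lit 0, nat_lit 0, nat_lit 0, nat_lit 0, nat_lit 0, nat_lit 0, nat_lit 0, nat_lit 0, nat_lit 0, false, false⟩,
 nat_lit 0, nat_lit 9919, nat_lit 0, nat_lit 0, nat_lit 7439, nat_lit 3889, nat_lit 485, nat_lit 0, nat_lit 0, nat_lit 0, nat_lit 0, nat_lit 0, nat_lit 0, nat_lit 0, nat_lit 0, nat_lit 0, nat_lit 0, nat_lit 0, [],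
 ⟨p098_k7, nat_lit 0, nat_lit 0, nat_lit 359, nat_lit 0, nat_lit 848325, [nat_lit 2032000001, nat_lit 4688000000, nat_lit 6250000000], [], [nat_lit 20969233474, nat_lit 21246116130, nat_lit 22237057824, nat_lit 22484073060, nat_lit 22910787009, nat_lit 23154560830, nat_lit 23943639761, nat_lit 24392043821], nat_lit 1271250, nat_lit 1271250, nat_lit 936251, nat_lit 1773750, nat_lit 1100001, nat_lit 1956250, [nat_lit 490000, nat_lit 1100000, nat_lit 1442500], [nat_lit 6, nat_lit 40, nat_lit 40, nat_lit 80, nat_lit 3, nat_lit 345, nat_lit 125, nat_lit 12]⟩, ⟨p098_k7, nat_lit 0, nat_lit 0, nat_lit 28, nat_lit 0, nat_lit 0, [nat_lit 2032000000, nat_lit 4688000000, nat_lit 6250000000], [], [nat_lit 16088497758, nat_lit 16516325732, nat_lit 19409856668, nat_lit 19767488603, nat_lit 20135931844, nat_lit 20488307624, nat_lit 22740903311, nat_lit 23054247178], nat_lit 0, nat_lit 0, nat_lit 0, nat_lit 0, nat_lit 0, nat_lit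 0, [], [nat_lit 6, nat_lit 40, nat_lit 40, nat_lit 80, nat_lit 3, nat_lit 345, nat_lit 125, nat_lit 12]⟩,
 zbF0, [⟨nat_lit 0, nat_lit 80, nat_lit 80, nat_lit 100, nat_lit 404186421⟩, ⟨nat_lit 16, nat_lit 81, nat_lit 100, nat_lit 78, nat_lit 483204219⟩, ⟨nat_lit 7, nat_lit 100, nat_lit 81, nat_lit 78, nat_lit 636439421⟩]⟩
noncomputable def p098_l98 : Lf2 := ⟨nat_lit 0, nat_lit 10, [nat_lit 0, nat_lit 5, nat_lit 5, nat_lit 20], false, nat_lit 160, nat_lit 232, nat_lit 160, nat_lit 232, ⟨nat_lit 1000, nat_lit 0, nat_lit 0, nat_lit 0, nat_lit 0, nat_lit 0, nat_lit 0, nat_lit 0, nat_lit 0, nat_lit 0, nat_lit 0, nat_lit 0, nat_lit 0, nat_lit 0, nat_lit 0, nat_lit 0, false, false⟩,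
 nat_lit 0, nat_lit 8388, nat_lit 0, nat_lit 0, nat_lit 6290, nat_lit 5542, nat_lit 424, nat_lit 0, nat_lit 0, nat_lit 0, nat_lit 0, nat_lit 0, nat_lit 0, nat_lit 22026153662506, nat_lit 0, nat_lit 0, nat_lit 0, nat_lit 0, [],
 ⟨p098_k7, nat_lit 0, nat_lit 0, nat_lit 548, nat_lit 0, nat_lit 1306230, [nat_lit 2032000001, nat_lit 4688000000, nat_lit 6250000000], [], [nat_lit 31004618802, nat_lit 31140481857, nat_lit 34960656840, nat_lit 35072433455, nat_lit 31453749743, nat_lit 31581472139, nat_lit 35035388016, nat_lit 35132519751], nat_lit 1271250, nat_lit 1271250, nat_lit 1271250, nat_lit 1271250, nat_lit 1100001, nat_lit 1716500, [nat_lit 490000, nat_lit 1100000, nat_lit 1442500], [nat_lit 6, nat_lit 40, nat_lit 40, nat_lit 80, nat_lit 3, nat_lit 272, nat_lit 60, nat_lit 9]⟩, ⟨p098_k7, nat_lit 0, nat_lit 0, nat_lit 79, nat_lit 0, nat_lit 0, [nat_lit 2032000000, nat_lit 4688000000, nat_lit 6250000000], [], [nat_lit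 21302533056, nat_lit 21691519112, nat_lit 30899588512, nat_lit 31147569270, nat_lit 23359125843, nat_lit 23698641113, nat_lit 31760487666, nat_lit 32011920140], nat_lit 0, nat_lit 0, nat_lit 0, nat_lit 0, nat_lit 0, nat_lit 0, [], [nat_lit 6, nat_lit 40, nat_lit 40, nat_lit 80, nat_lit 3, nat_lit 272, nat_lit 60, nat_lit 9]⟩,
 zbF0, [⟨nat_lit 4, nat_lit 100, nat_lit 79, nat_lit 66, nat_lit 448077666⟩, ⟨nat_lit 7, nat_lit 100, nat_lit 79, nat_lit 66, nat_lit 635046034⟩]⟩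
noncomputable def p098_l99 : Lf2 := ⟨nat_lit 0, nat_lit 10, [nat_lit 0, nat_lit 5, nat_lit 5, nat_lit 20], false, nat_lit 160, nat_lit 260, nat_lit 160, nat_lit 260, ⟨nat_lit 1000, nat_lit 0, nat_lit 0, nat_lit 0, nat_lit 0, nat_lit 0, nat_lit 0, nat_lit 0, nat_lit 0, nat_lit 0, nat_lit 0, nat_lit 0, nat_lit 0, nat_lit 0, nat_lit 0, nat_lit 0, false, false⟩,
 nat_lit 0, nat_lit 8014, nat_lit 0, nat_lit 0, nat_lit 6010, nat_lit 6235, nat_lit 441, nat_lit 0, nat_lit 0, nat_lit 0, nat_lit 0, nat_lit 0, nat_lit 0, nat_lit 0, nat_lit 0, nat_lit 0, nat_lit 0, nat_lit 0, [],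
 ⟨p098_k7, nat_lit 0, nat_lit 0, nat_lit 482, nat_lit 0, nat_lit 1147770, [nat_lit 2032000001, nat_lit 4688000000, nat_lit 6250000000], [], [nat_lit 30173222282, nat_lit 30324178307, nat_lit 34727701080, nat_lit 34860653455, nat_lit 31223142302, nat_lit 31367421480, nat_lit 35260508170, nat_lit 35369950684], nat_lit 1271250, nat_lit 1271250, nat_lit 1271250, nat_lit 1271250, nat_lit 1100001, nat_lit 1956250, [nat_lit 490000, nat_lit 1100000, nat_lit 1442500], [nat_lit 6, nat_lit 40, nat_lit 40, nat_lit 80, nat_lit 3, nat_lit 289, nat_lit 75, nat_lit 9]⟩, ⟨p098_k7, nat_lit 0, nat_lit 0, nat_lit 79, nat_lit 0, nat_lit 0, [nat_lit 2032000000, nat_lit 4688000000, nat_lit 6250000000], [], [nat_lit 20667168480, nat_lit 21084164210, nat_lit 31733930840, nat_lit 32037221310, nat_lit 23941296915, nat_lit 24281606992, nat_lit 33254042050, nat_lit 33502860126], nat_lit 0, nat_lit 0, nat_lit 0, nat_lit 0, nat_lit 0, nat_lit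 0, [], [nat_lit 6, nat_lit 40, nat_lit 40, nat_lit 80, nat_lit 3, nat_lit 289, nat_lit 75, nat_lit 9]⟩,
 zbF0, [⟨nat_lit 4, nat_lit 100, nat_lit 81, nat_lit 78, nat_lit 372484717⟩, ⟨nat_lit 7, nat_lit 100, nat_lit 81, nat_lit 78, nat_lit 448169256⟩]⟩
noncomputable def p098_l100 : Lf2 := ⟨nat_lit 0, nat_lit 10, [nat_lit 0, nat_lit 5, nat_lit 5, nat_lit 20], false, nat_lit 160, nat_lit 252, nat_lit 160, nat_lit 260, ⟨nat_lit 1000, nat_lit 0, nat_lit 0, nat_lit 0, nat_lit 0, nat_lit 0, nat_lit 0, nat_lit 0, nat_lit 0, nat_lit 0, nat_lit 0, nat_lit 0, nat_lit 0, nat_lit 0, nat_lit 0, nat_lit 0, false, false⟩,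
 nat_lit 0, nat_lit 8078, nat_lit 0, nat_lit 0, nat_lit 6177, nat_lit 5513, nat_lit 2891, nat_lit 0, nat_lit 0, nat_lit 0, nat_lit 0, nat_lit 0, nat_lit 0, nat_lit 19705712481969, nat_lit 0, nat_lit 0, nat_lit 0, nat_lit 0, [],
 ⟨p098_k15, nat_lit 0, nat_lit 0, nat_lit 611, nat_lit 0, nat_lit 1393360, [nat_lit 2032000001, nat_lit 4688000000, nat_lit 6250000000], [], [nat_lit 21281099406, nat_lit 21433041424, nat_lit 31962665442, nat_lit 32264523196, nat_lit 22104475589, nat_lit 22232856674, nat_lit 33638552752, nat_lit 33444731916], nat_lit 1271250, nat_lit 1271250, nat_lit 1000851, nat_lit 3130250, nat_lit 1100001, nat_lit 1887750, [nat_lit 490000, nat_lit 1100000, nat_lit 1442500], [nat_lit 6, nat_lit 40, nat_lit 40, nat_lit 80, nat_lit 3, nat_lit 401, nat_lit 175, nat_lit 14]⟩, ⟨p098_k7, nat_lit 0, nat_lit 0, nat_lit 80, nat_lit 0, nat_lit 0, [nat_lit 2032000000, nat_lit 4688000000, nat_lit 6250000000], [],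 [nat_lit 18308826694, nat_lit 19233364784, nat_lit 30900935968, nat_lit 31395743342, nat_lit 22283661143, nat_lit 23038146337, nat_lit 32437582790, nat_lit 32909562130], nat_lit 0, nat_lit 0, nat_lit 0, nat_lit 0, nat_lit 0, nat_lit 0, [], [nat_lit 6, nat_lit 40, nat_lit 40, nat_lit 80, nat_lit 3, nat_lit 401, nat_lit 175, nat_lit 14]⟩,
 zbF0, [⟨nat_lit 16, nat_lit 77, nat_lit 100, nat_lit 72, nat_lit 453449243⟩, ⟨nat_lit 7, nat_lit 100, nat_lit 79, nat_lit 72, nat_lit 557662949⟩]⟩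
noncomputable def b_V_800_800_10_6 : St := ⟨true, nat_lit 1, nat_lit 0, nat_lit 1, nat_lit 80, nat_lit 320, nat_lit 330, nat_lit 320, nat_lit 330, nat_lit 140, nat_lit 400, nat_lit 40, nat_lit 80, nat_lit 0, nat_lit 260, nat_lit 160, nat_lit 260, nat_lit 0, nat_lit 40, nat_lit 0, nat_lit 0, nat_lit 0, nat_lit 0⟩
theorem d_V_800_800_10_6 (h : EB TB.env) : Dead b_V_800_800_10_6 := chkB_sound0 h (T :=
(.spl (nat_lit 4) (nat_lit 160)
(.spl (nat_lit 0) (nat_lit 325)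
(.ord (.spl (nat_lit 2) (nat_lit 240)
(.spl (nat_lit 3) (nat_lit 60)
(.trX (nat_lit 19) (nat_lit 81) (nat_lit 100) (nat_lit 72) (nat_lit 232) (.spl (nat_lit 6) (nat_lit 20)
(.spl (nat_lit 4) (nat_lit 80)
(.leaf p098_l83)
(.leaf p098_l84))
(.leaf p098_l85)))
(.leaf p098_l86))
(.spl (nat_lit 3) (nat_lit 60)
(.trX (nat_lit 19) (nat_lit 81) (nat_lit 100) (nat_lit 72) (nat_lit 232) (.leaf p098_l87))
(.leaf p098_l88))))
(.trZ (nat_lit 0) (nat_lit 83) (nat_lit 81) (nat_lit 100) (nat_lit 148) (.leaf p098_l89)))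
(.spl (nat_lit 0) (nat_lit 325)
(.ord (.spl (nat_lit 2) (nat_lit 240)
(.spl (nat_lit 3) (nat_lit 60)
(.trX (nat_lit 16) (nat_lit 81) (nat_lit 100) (nat_lit 72) (nat_lit 232) (.trX (nat_lit 19) (nat_lit 81) (nat_lit 100) (nat_lit 72) (nat_lit 232) (.spl (nat_lit 6) (nat_lit 20)
(.spl (nat_lit 6) (nat_lit 8)
(.spl (nat_lit 6) (nat_lit 4)
(.leaf p098_l90)
(.leaf p098_l91))
(.leaf p098_l92))
(.leaf p098_l93))))
(.spl (nat_lit 6) (nat_lit 20)
(.spl (nat_lit 6) (nat_lit 8)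
(.spl (nat_lit 6) (nat_lit 4)
(.leaf p098_l94)
(.leaf p098_l95))
(.leaf p098_l96))
(.leaf p098_l97)))
(.spl (nat_lit 3) (nat_lit 60)
(.trX (nat_lit 16) (nat_lit 81) (nat_lit 100) (nat_lit 72) (nat_lit 232) (.trX (nat_lit 19) (nat_lit 81) (nat_lit 100) (nat_lit 72) (nat_lit 232) (.leaf p098_l98)))
(.leaf p098_l99))))
(.trZ (nat_lit 0) (nat_lit 83) (nat_lit 81) (nat_lit 100) (nat_lit 148) (.trX (nat_lit 16) (nat_lit 81) (nat_lit 100) (nat_lit 83) (nat_lit 252) (.leaf p098_l100)))))) (by decide +kernel)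
noncomputable def p098_l101 : Lf2 := ⟨nat_lit 0, nat_lit 10, [nat_lit 0, nat_lit 5, nat_lit 5, nat_lit 20], false, nat_lit 0, nat_lit 244, nat_lit 0, nat_lit 260, ⟨nat_lit 1000, nat_lit 0, nat_lit 0, nat_lit 0, nat_lit 0, nat_lit 0, nat_lit 0, nat_lit 0, nat_lit 0, nat_lit 0, nat_lit 0, nat_lit 0, nat_lit 0, nat_lit 0, nat_lit 0, nat_lit 0, false, false⟩,
 nat_lit 0, nat_lit 7086, nat_lit 0, nat_lit 0, nat_lit 5523, nat_lit 5839, nat_lit 1945, nat_lit 0, nat_lit 0, nat_lit 580, nat_lit 0, nat_lit 0, nat_lit 0, nat_lit 7587744517319, nat_lit 0, nat_lit 0, nat_lit 0, nat_lit 0, [],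
 ⟨p098_k8, nat_lit 0, nat_lit 0, nat_lit 752, nat_lit 0, nat_lit 1522961, [nat_lit 2032000001, nat_lit 4688000000, nat_lit 6250000000], [], [nat_lit 24291986581, nat_lit 24646712124, nat_lit 25532383898, nat_lit 25886213055, nat_lit 24478041811, nat_lit 24772892302, nat_lit 25251523778, nat_lit 25508351202], nat_lit 1271250, nat_lit 1271250, nat_lit 1066650, nat_lit 1782750, nat_lit 0, nat_lit 1723250, [nat_lit 490000, nat_lit 1100000, nat_lit 1442500], [nat_lit 6, nat_lit 40, nat_lit 40, nat_lit 80, nat_lit 3, nat_lit 345, nat_lit 125, nat_lit 13]⟩, ⟨p098_k7, nat_lit 0, nat_lit 0, nat_lit 126, nat_lit 0, nat_lit 0, [nat_lit 2032000000, nat_lit 4688000000, nat_lit 6250000000], [], [nat_lit 21596714540, nat_lit 23693872008, nat_lit 24655713056, nat_lit 26427289444, nat_lit 22201882772, nat_lit 23635800832, nat_lit 24259804071, nat_lit 25572869197], nat_lit 0, nat_lit 0, nat_lit 0, nat_lit 0, nat_lit 0, nat_lit 0,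 [], [nat_lit 6, nat_lit 40, nat_lit 40, nat_lit 80, nat_lit 3, nat_lit 345, nat_lit 125, nat_lit 13]⟩,
 zbF0, [⟨nat_lit 0, nat_lit 71, nat_lit 71, nat_lit 100, nat_lit 588810605⟩, ⟨nat_lit 4, nat_lit 100, nat_lit 74, nat_lit 72, nat_lit 298843159⟩, ⟨nat_lit 7, nat_lit 100, nat_lit 76, nat_lit 72, nat_lit 282258586⟩]⟩
noncomputable def p098_l102 : Lf2 := ⟨nat_lit 0, nat_lit 10, [nat_lit 0, nat_lit 5, nat_lit 5, nat_lit 20], false, nat_lit 0, nat_lit 244, nat_lit 0, nat_lit 260, ⟨nat_lit 1000, nat_lit 0, nat_lit 0, nat_lit 0, nat_lit 0, nat_lit 0, nat_lit 0, nat_lit 0, nat_lit 0, nat_lit 0, nat_lit 0, nat_lit 0, nat_lit 0, nat_lit 0, nat_lit 0, nat_lit 0, false, false⟩,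
 nat_lit 0, nat_lit 6515, nat_lit 0, nat_lit 0, nat_lit 5078, nat_lit 6762, nat_lit 1771, nat_lit 0, nat_lit 0, nat_lit 498, nat_lit 0, nat_lit 0, nat_lit 0, nat_lit 26266345797596, nat_lit 0, nat_lit 0, nat_lit 0, nat_lit 0, [],
 ⟨p098_k8, nat_lit 0, nat_lit 0, nat_lit 698, nat_lit 0, nat_lit 1439738, [nat_lit 2032000001, nat_lit 4688000000, nat_lit 6250000000], [], [nat_lit 28921232443, nat_lit 29092549144, nat_lit 36104718420, nat_lit 36416611146, nat_lit 28966207041, nat_lit 29091935768, nat_lit 32092654589, nat_lit 32181298903], nat_lit 1271250, nat_lit 1271250, nat_lit 1271250, nat_lit 1271250, nat_lit 0, nat_lit 1723250, [nat_lit 490000, nat_lit 1100000, nat_lit 1442500], [nat_lit 6, nat_lit 40, nat_lit 40, nat_lit 80, nat_lit 3, nat_lit 297, nat_lit 75, nat_lit 11]⟩, ⟨p098_k7, nat_lit 0, nat_lit 0, nat_lit 175, nat_lit 0, nat_lit 0, [nat_lit 2032000000, nat_lit 4688000000, nat_lit 6250000000], [], [nat_lit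 25537577760, nat_lit 27397299111, nat_lit 40192354072, nat_lit 41277404734, nat_lit 24147159520, nat_lit 24983273036, nat_lit 33849989460, nat_lit 34624534698], nat_lit 0, nat_lit 0, nat_lit 0, nat_lit 0, nat_lit 0, nat_lit 0, [], [nat_lit 6, nat_lit 40, nat_lit 40, nat_lit 80, nat_lit 3, nat_lit 289, nat_lit 75, nat_lit 10]⟩,
 zbF0, [⟨nat_lit 16, nat_lit 75, nat_lit 100, nat_lit 72, nat_lit 148195987⟩, ⟨nat_lit 7, nat_lit 100, nat_lit 77, nat_lit 72, nat_lit 85237381⟩]⟩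
noncomputable def p098_l103 : Lf2 := ⟨nat_lit 0, nat_lit 10, [nat_lit 0, nat_lit 5, nat_lit 5, nat_lit 20], false, nat_lit 0, nat_lit 240, nat_lit 0, nat_lit 260, ⟨nat_lit 1000, nat_lit 0, nat_lit 0, nat_lit 0, nat_lit 0, nat_lit 0, nat_lit 0, nat_lit 0, nat_lit 0, nat_lit 0, nat_lit 0, nat_lit 0, nat_lit 0, nat_lit 0, nat_lit 0, nat_lit 0, false, false⟩,
 nat_lit 0, nat_lit 5976, nat_lit 0, nat_lit 0, nat_lit 4747, nat_lit 6669, nat_lit 1563, nat_lit 0, nat_lit 0, nat_lit 494, nat_lit 0, nat_lit 0, nat_lit 0, nat_lit 0, nat_lit 0, nat_lit 0, nat_lit 0, nat_lit 0, [],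
 ⟨p098_k11, nat_lit 0, nat_lit 0, nat_lit 717, nat_lit 0, nat_lit 1483820, [nat_lit 2032000001, nat_lit 4688000000, nat_lit 6250000000], [], [nat_lit 31005395215, nat_lit 31177243400, nat_lit 35631851874, nat_lit 35767433578, nat_lit 31488853861, nat_lit 31630201436, nat_lit 35027174495, nat_lit 35128640524], nat_lit 1271250, nat_lit 1271250, nat_lit 1271250, nat_lit 1271250, nat_lit 0, nat_lit 1695000, [nat_lit 490000, nat_lit 1100000, nat_lit 1442500], [nat_lit 6, nat_lit 40, nat_lit 40, nat_lit 80, nat_lit 3, nat_lit 302, nat_lit 60, nat_lit 11]⟩, ⟨p098_k7, nat_lit 0, nat_lit 0, nat_lit 176, nat_lit 0, nat_lit 0, [nat_lit 2032000000, nat_lit 4688000000, nat_lit 6250000000], [], [nat_lit 25475323764, nat_lit 27856930586, nat_lit 39932162764, nat_lit 41367898056, nat_lit 24337538240, nat_lit 25442604356, nat_lit 33744822270, nat_lit 34770939604], nat_lit 0, nat_lit 0, nat_lit 0, nat_lit 0, nat_lit 0, nat_lit 0,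 [], [nat_lit 6, nat_lit 40, nat_lit 40, nat_lit 80, nat_lit 3, nat_lit 289, nat_lit 75, nat_lit 10]⟩,
 zbF0, [⟨nat_lit 16, nat_lit 73, nat_lit 100, nat_lit 71, nat_lit 294585695⟩, ⟨nat_lit 7, nat_lit 100, nat_lit 76, nat_lit 72, nat_lit 80416301⟩]⟩
noncomputable def b_V_800_800_10_7 : St := ⟨true, nat_lit 1, nat_lit 0, nat_lit 1, nat_lit 80, nat_lit 330, nat_lit 340, nat_lit 320, nat_lit 340, nat_lit 140, nat_lit 400, nat_lit 40, nat_lit 80, nat_lit 0, nat_lit 260, nat_lit 0, nat_lit 260, nat_lit 0, nat_lit 40, nat_lit 0, nat_lit 0, nat_lit 0, nat_lit 0⟩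
theorem d_V_800_800_10_7 (h : EB TB.env) : Dead b_V_800_800_10_7 := chkB_sound0 h (T :=
(.trZ (nat_lit 0) (nat_lit 82) (nat_lit 78) (nat_lit 100) (nat_lit 156) (.trX (nat_lit 16) (nat_lit 78) (nat_lit 100) (nat_lit 82) (nat_lit 244) (.spl (nat_lit 2) (nat_lit 240)
(.leaf p098_l101)
(.spl (nat_lit 0) (nat_lit 335)
(.ord (.leaf p098_l102))
(.trX (nat_lit 16) (nat_lit 75) (nat_lit 100) (nat_lit 81) (nat_lit 240) (.leaf p098_l103))))))) (by decide +kernel)
noncomputable def p098_l104 : Lf2 := ⟨nat_lit 0, nat_lit 10, [nat_lit 0, nat_lit 5, nat_lit 5, nat_lit 20], false, nat_lit 0, nat_lit 232, nat_lit 0, nat_lit 260, ⟨nat_lit 1000, nat_lit 0, nat_lit 0, nat_lit 0, nat_lit 0, nat_lit 0, nat_lit 0, nat_lit 0, nat_lit 0, nat_lit 0, nat_lit 0, nat_lit 0, nat_lit 0, nat_lit 0, nat_lit 0, nat_lit 0, false, false⟩,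
 nat_lit 0, nat_lit 5692, nat_lit 0, nat_lit 0, nat_lit 4607, nat_lit 7111, nat_lit 1305, nat_lit 0, nat_lit 0, nat_lit 543, nat_lit 0, nat_lit 0, nat_lit 0, nat_lit 0, nat_lit 0, nat_lit 0, nat_lit 0, nat_lit 0, [],
 ⟨p098_k9, nat_lit 0, nat_lit 0, nat_lit 713, nat_lit 0, nat_lit 1432047, [nat_lit 2032000001, nat_lit 4688000000, nat_lit 6250000000], [], [nat_lit 29206414910, nat_lit 29616049611, nat_lit 35672442063, nat_lit 35960163816, nat_lit 30305755884, nat_lit 30646278584, nat_lit 35121696979, nat_lit 35340818783], nat_lit 1271250, nat_lit 1271250, nat_lit 1167600, nat_lit 3171500, nat_lit 0, nat_lit 1638500, [nat_lit 490000, nat_lit 1100000, nat_lit 1442500], [nat_lit 6, nat_lit 40, nat_lit 40, nat_lit 80, nat_lit 3, nat_lit 401, nat_lit 175, nat_lit 15]⟩, ⟨p098_k7, nat_lit 0, nat_lit 0, nat_lit 174, nat_lit 0, nat_lit 0, [nat_lit 2032000000, nat_lit 4688000000, nat_lit 6250000000], [], [nat_lit 22496658274,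 nat_lit 24001790295, nat_lit 41168770916, nat_lit 41912775790, nat_lit 21862782834, nat_lit 22521306557, nat_lit 34244649130, nat_lit 34773414599], nat_lit 0, nat_lit 0, nat_lit 0, nat_lit 0, nat_lit 0, nat_lit 0, [], [nat_lit 6, nat_lit 40, nat_lit 40, nat_lit 80, nat_lit 3, nat_lit 401, nat_lit 175, nat_lit 15]⟩,
 zbF0, [⟨nat_lit 4, nat_lit 100, nat_lit 69, nat_lit 71, nat_lit 380157645⟩, ⟨nat_lit 19, nat_lit 79, nat_lit 100, nat_lit 72, nat_lit 84268055⟩]⟩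
noncomputable def p098_l105 : Lf2 := ⟨nat_lit 0, nat_lit 10, [nat_lit 0, nat_lit 5, nat_lit 5, nat_lit 20], false, nat_lit 0, nat_lit 232, nat_lit 0, nat_lit 244, ⟨nat_lit 1000, nat_lit 0, nat_lit 0, nat_lit 0, nat_lit 0, nat_lit 0, nat_lit 0, nat_lit 0, nat_lit 0, nat_lit 0, nat_lit 0, nat_lit 0, nat_lit 0, nat_lit 0, nat_lit 0, nat_lit 0, false, false⟩,
 nat_lit 0, nat_lit 5820, nat_lit 0, nat_lit 0, nat_lit 4711, nat_lit 6108, nat_lit 1145, nat_lit 0, nat_lit 0, nat_lit 840, nat_lit 0, nat_lit 0, nat_lit 0, nat_lit 0, nat_lit 0, nat_lit 0, nat_lit 0, nat_lit 0, [],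
 ⟨p098_k9, nat_lit 0, nat_lit 0, nat_lit 743, nat_lit 0, nat_lit 1516830, [nat_lit 2032000001, nat_lit 4688000000, nat_lit 6250000000], [], [nat_lit 30443319773, nat_lit 30820424466, nat_lit 35995176346, nat_lit 36265804650, nat_lit 31011909551, nat_lit 31296622453, nat_lit 35334199813, nat_lit 35539620620], nat_lit 1271250, nat_lit 1271250, nat_lit 1271250, nat_lit 1271250, nat_lit 0, nat_lit 1638500, [nat_lit 490000, nat_lit 1100000, nat_lit 1442500], [nat_lit 6, nat_lit 40, nat_lit 40, nat_lit 80, nat_lit 3, nat_lit 401, nat_lit 175, nat_lit 15]⟩, ⟨p098_k8, nat_lit 0, nat_lit 0, nat_lit 176, nat_lit 0, nat_lit 0, [nat_lit 2032000000, nat_lit 4688000000, nat_lit 6250000000], [], [nat_lit 22957019248, nat_lit 24280693680, nat_lit 39047315120, nat_lit 39732008592, nat_lit 21705825563, nat_lit 22365881697, nat_lit 33125869816, nat_lit 33638119354], nat_lit 0, nat_lit 0, nat_lit 0, nat_lit 0, nat_lit 0, nat_lit 0,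 [], [nat_lit 6, nat_lit 40, nat_lit 40, nat_lit 80, nat_lit 3, nat_lit 401, nat_lit 175, nat_lit 15]⟩,
 zbF0, [⟨nat_lit 4, nat_lit 100, nat_lit 69, nat_lit 71, nat_lit 355784538⟩, ⟨nat_lit 7, nat_lit 100, nat_lit 74, nat_lit 72, nat_lit 129653386⟩]⟩
noncomputable def p098_l106 : Lf2 := ⟨nat_lit 0, nat_lit 10, [nat_lit 0, nat_lit 5, nat_lit 5, nat_lit 20], false, nat_lit 0, nat_lit 216, nat_lit 0, nat_lit 260, ⟨nat_lit 1000, nat_lit 0, nat_lit 0, nat_lit 0, nat_lit 0, nat_lit 0, nat_lit 0, nat_lit 0, nat_lit 0, nat_lit 0, nat_lit 0, nat_lit 0, nat_lit 0, nat_lit 0, nat_lit 0, nat_lit 0, false, false⟩,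
 nat_lit 0, nat_lit 5567, nat_lit 0, nat_lit 0, nat_lit 4676, nat_lit 6929, nat_lit 1327, nat_lit 0, nat_lit 0, nat_lit 524, nat_lit 0, nat_lit 0, nat_lit 0, nat_lit 0, nat_lit 0, nat_lit 0, nat_lit 0, nat_lit 0, [],
 ⟨p098_k16, nat_lit 0, nat_lit 0, nat_lit 664, nat_lit 0, nat_lit 1511868, [nat_lit 2032000001, nat_lit 4688000000], [], [nat_lit 30819341903, nat_lit 31232665896, nat_lit 36486700990, nat_lit 36756809054, nat_lit 31368259190, nat_lit 31687582710, nat_lit 35688220440, nat_lit 35898757363], nat_lit 1271250, nat_lit 1271250, nat_lit 1271250, nat_lit 1271250, nat_lit 0, nat_lit 1525500, [nat_lit 490000, nat_lit 1100000], [nat_lit 24, nat_lit 40, nat_lit 40, nat_lit 80, nat_lit 33, nat_lit 288, nat_lit 60, nat_lit 13]⟩, ⟨p098_k7, nat_lit 0, nat_lit 0, nat_lit 176, nat_lit 0, nat_lit 0, [nat_lit 2032000000, nat_lit 4688000000, nat_lit 6250000000], [], [nat_lit 23076074258, nat_lit 25717039953, nat_lit 40659579324,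 nat_lit 42126064296, nat_lit 22512169005, nat_lit 23773198925, nat_lit 34038838070, nat_lit 35083433994], nat_lit 0, nat_lit 0, nat_lit 0, nat_lit 0, nat_lit 0, nat_lit 0, [], [nat_lit 6, nat_lit 40, nat_lit 40, nat_lit 80, nat_lit 3, nat_lit 401, nat_lit 175, nat_lit 15]⟩,
 zbF0, [⟨nat_lit 4, nat_lit 100, nat_lit 63, nat_lit 72, nat_lit 376277895⟩, ⟨nat_lit 7, nat_lit 100, nat_lit 76, nat_lit 72, nat_lit 87660300⟩]⟩
noncomputable def b_V_800_800_10_8 : St := ⟨true, nat_lit 1, nat_lit 0, nat_lit 1, nat_lit 80, nat_lit 340, nat_lit 360, nat_lit 320, nat_lit 340, nat_lit 140, nat_lit 400, nat_lit 40, nat_lit 80, nat_lit 0, nat_lit 260, nat_lit 0, nat_lit 260, nat_lit 0, nat_lit 40, nat_lit 0, nat_lit 0, nat_lit 0, nat_lit 0⟩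
theorem d_V_800_800_10_8 (h : EB TB.env) : Dead b_V_800_800_10_8 := chkB_sound0 h (T :=
(.trZ (nat_lit 0) (nat_lit 81) (nat_lit 72) (nat_lit 100) (nat_lit 168) (.trX (nat_lit 16) (nat_lit 72) (nat_lit 100) (nat_lit 81) (nat_lit 232) (.spl (nat_lit 0) (nat_lit 350)
(.spl (nat_lit 1) (nat_lit 330)
(.leaf p098_l104)
(.trZ (nat_lit 0) (nat_lit 76) (nat_lit 72) (nat_lit 100) (nat_lit 180) (.trX (nat_lit 19) (nat_lit 78) (nat_lit 100) (nat_lit 82) (nat_lit 244) (.leaf p098_l105))))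
(.trZ (nat_lit 0) (nat_lit 80) (nat_lit 66) (nat_lit 100) (nat_lit 184) (.trX (nat_lit 16) (nat_lit 66) (nat_lit 100) (nat_lit 80) (nat_lit 216) (.leaf p098_l106))))))) (by decide +kernel)
noncomputable def p098_l107 : Lf2 := ⟨nat_lit 0, nat_lit 10, [nat_lit 0, nat_lit 5, nat_lit 5, nat_lit 20], false, nat_lit 0, nat_lit 260, nat_lit 0, nat_lit 260, ⟨nat_lit 1000, nat_lit 0, nat_lit 0, nat_lit 0, nat_lit 0, nat_lit 0, nat_lit 0, nat_lit 0, nat_lit 0, nat_lit 0, nat_lit 0, nat_lit 0, nat_lit 0, nat_lit 0, nat_lit 0, nat_lit 0, false, false⟩,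
 nat_lit 9963, nat_lit 0, nat_lit 0, nat_lit 0, nat_lit 7472, nat_lit 7472, nat_lit 424, nat_lit 0, nat_lit 0, nat_lit 476, nat_lit 0, nat_lit 0, nat_lit 0, nat_lit 0, nat_lit 0, nat_lit 0, nat_lit 0, nat_lit 0, [],
 ⟨p098_k7, nat_lit 0, nat_lit 0, nat_lit 507, nat_lit 0, nat_lit 927203, [nat_lit 2032000001, nat_lit 4688000000, nat_lit 6250000000], [], [nat_lit 28345430594, nat_lit 29032378768, nat_lit 27257158240, nat_lit 31895753376, nat_lit 24158140252, nat_lit 25714068024, nat_lit 28105411090, nat_lit 27552096520], nat_lit 1271250, nat_lit 1271250, nat_lit 936251, nat_lit 1773750, nat_lit 0, nat_lit 1836250, [nat_lit 490000, nat_lit 1100000, nat_lit 1442500], [nat_lit 6, nat_lit 40, nat_lit 40, nat_lit 80, nat_lit 3, nat_lit 345, nat_lit 125, nat_lit 13]⟩, ⟨p098_k7, nat_lit 0, nat_lit 0, nat_lit 502, nat_lit 0, nat_lit 927203, [nat_lit 2032000000, nat_lit 4688000000, nat_lit 6250000000], [], [nat_lit 28345430592,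 nat_lit 26720871560, nat_lit 26841158240, nat_lit 29240815968, nat_lit 23979252544, nat_lit 24846539338, nat_lit 28105411088, nat_lit 25753458324], nat_lit 1271250, nat_lit 1271250, nat_lit 936251, nat_lit 1773750, nat_lit 0, nat_lit 1836250, [nat_lit 490000, nat_lit 1100000, nat_lit 1442500], [nat_lit 6, nat_lit 40, nat_lit 40, nat_lit 80, nat_lit 3, nat_lit 345, nat_lit 125, nat_lit 13]⟩,
 zbF0, [⟨nat_lit 0, nat_lit 72, nat_lit 61, nat_lit 100, nat_lit 352163013⟩, ⟨nat_lit 4, nat_lit 100, nat_lit 71, nat_lit 71, nat_lit 192568985⟩, ⟨nat_lit 7, nat_lit 100, nat_lit 76, nat_lit 72, nat_lit 171448615⟩]⟩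
noncomputable def p098_l108 : Lf2 := ⟨nat_lit 0, nat_lit 10, [nat_lit 0, nat_lit 5, nat_lit 5, nat_lit 20], false, nat_lit 0, nat_lit 260, nat_lit 0, nat_lit 260, ⟨nat_lit 1000, nat_lit 0, nat_lit 0, nat_lit 0, nat_lit 0, nat_lit 0, nat_lit 0, nat_lit 0, nat_lit 0, nat_lit 0, nat_lit 0, nat_lit 0, nat_lit 0, nat_lit 0, nat_lit 0, nat_lit 0, false, false⟩,
 nat_lit 8389, nat_lit 0, nat_lit 0, nat_lit 0, nat_lit 6291, nat_lit 6291, nat_lit 478, nat_lit 0, nat_lit 0, nat_lit 427, nat_lit 0, nat_lit 0, nat_lit 0, nat_lit 0, nat_lit 0, nat_lit 0, nat_lit 0, nat_lit 0, [],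
 ⟨p098_k7, nat_lit 0, nat_lit 0, nat_lit 493, nat_lit 0, nat_lit 927203, [nat_lit 2032000001, nat_lit 4688000000, nat_lit 6250000000], [], [nat_lit 31192000220, nat_lit 32951992128, nat_lit 38874610996, nat_lit 41656670972, nat_lit 29945743028, nat_lit 31291861798, nat_lit 34043839147, nat_lit 35315873143], nat_lit 1271250, nat_lit 1271250, nat_lit 1271250, nat_lit 1271250, nat_lit 0, nat_lit 1836250, [nat_lit 490000, nat_lit 1100000, nat_lit 1442500], [nat_lit 6, nat_lit 40, nat_lit 40, nat_lit 80, nat_lit 3, nat_lit 289, nat_lit 75, nat_lit 10]⟩, ⟨p098_k7, nat_lit 0, nat_lit 0, nat_lit 491, nat_lit 0, nat_lit 927203, [nat_lit 2032000000, nat_lit 4688000000, nat_lit 6250000000], [], [nat_lit 31600000220, nat_lit 32450263354, nat_lit 38874610996, nat_lit 40265640984, nat_lit 29990639303, nat_lit 30618802413, nat_lit 34043839147, nat_lit 34484027348], nat_lit 1271250, nat_lit 1271250, nat_lit 1271250, nat_lit 1271250,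 nat_lit 0, nat_lit 1836250, [nat_lit 490000, nat_lit 1100000, nat_lit 1442500], [nat_lit 6, nat_lit 40, nat_lit 40, nat_lit 80, nat_lit 3, nat_lit 289, nat_lit 75, nat_lit 10]⟩,
 zbF0, [⟨nat_lit 4, nat_lit 100, nat_lit 71, nat_lit 71, nat_lit 275645451⟩, ⟨nat_lit 7, nat_lit 100, nat_lit 76, nat_lit 72, nat_lit 108921957⟩]⟩
noncomputable def b_V_800_800_10_9 : St := ⟨true, nat_lit 1, nat_lit 1, nat_lit 1, nat_lit 80, nat_lit 320, nat_lit 360, nat_lit 320, nat_lit 340, nat_lit 140, nat_lit 400, nat_lit 40, nat_lit 80, nat_lit 0, nat_lit 260, nat_lit 0, nat_lit 260, nat_lit 0, nat_lit 40, nat_lit 0, nat_lit 0, nat_lit 0, nat_lit 0⟩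
theorem d_V_800_800_10_9 (h : EB TB.env) : Dead b_V_800_800_10_9 := chkB_sound0 h (T :=
(.spl (nat_lit 2) (nat_lit 240)
(.leaf p098_l107)
(.leaf p098_l108))) (by decide +kernel)
noncomputable def p098_l109 : Lf2 := ⟨nat_lit 0, nat_lit 10, [nat_lit 0, nat_lit 5, nat_lit 5, nat_lit 20], false, nat_lit 0, nat_lit 160, nat_lit 0, nat_lit 160, ⟨nat_lit 1000, nat_lit 0, nat_lit 0, nat_lit 0, nat_lit 0, nat_lit 0, nat_lit 0, nat_lit 0, nat_lit 0, nat_lit 0, nat_lit 0, nat_lit 0, nat_lit 0, nat_lit 0, nat_lit 0, nat_lit 0, false, false⟩,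
 nat_lit 0, nat_lit 10659, nat_lit 0, nat_lit 0, nat_lit 7994, nat_lit 6733, nat_lit 460, nat_lit 0, nat_lit 0, nat_lit 3319, nat_lit 0, nat_lit 0, nat_lit 0, nat_lit 0, nat_lit 0, nat_lit 0, nat_lit 0, nat_lit 0, [],
 ⟨p098_k7, nat_lit 0, nat_lit 0, nat_lit 645, nat_lit 0, nat_lit 1272796, [nat_lit 2032000001, nat_lit 4688000000, nat_lit 6250000000], [], [nat_lit 25957846860, nat_lit 26083177054, nat_lit 27356601120, nat_lit 27774175098, nat_lit 22588033156, nat_lit 22698225021, nat_lit 23086817498, nat_lit 23089467317], nat_lit 1271250, nat_lit 1271250, nat_lit 936251, nat_lit 1773750, nat_lit 0, nat_lit 1100001, [nat_lit 490000, nat_lit 1100000, nat_lit 1442500], [nat_lit 6, nat_lit 40, nat_lit 40, nat_lit 80, nat_lit 3, nat_lit 317, nat_lit 100, nat_lit 12]⟩, ⟨p098_k7, nat_lit 0, nat_lit 0, nat_lit 115, nat_lit 0, nat_lit 0, [nat_lit 2032000000, nat_lit 4688000000, nat_lit 6250000000], [], [nat_lit 21495255502,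 nat_lit 21951405484, nat_lit 25494759840, nat_lit 25865630035, nat_lit 16945984468, nat_lit 17264976201, nat_lit 20210586144, nat_lit 20472860481], nat_lit 0, nat_lit 0, nat_lit 0, nat_lit 0, nat_lit 0, nat_lit 0, [], [nat_lit 6, nat_lit 40, nat_lit 40, nat_lit 80, nat_lit 3, nat_lit 317, nat_lit 100, nat_lit 12]⟩,
 zbF0, [⟨nat_lit 0, nat_lit 81, nat_lit 81, nat_lit 100, nat_lit 402021965⟩]⟩
noncomputable def p098_l110 : Lf2 := ⟨nat_lit 0, nat_lit 10, [nat_lit 0, nat_lit 5, nat_lit 5, nat_lit 20], false, nat_lit 0, nat_lit 160, nat_lit 0, nat_lit 160, ⟨nat_lit 1000, nat_lit 0, nat_lit 0, nat_lit 0, nat_lit 0, nat_lit 0, nat_lit 0, nat_lit 0, nat_lit 0, nat_lit 0, nat_lit 0, nat_lit 0, nat_lit 0, nat_lit 0, nat_lit 0, nat_lit 0, false, false⟩,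
 nat_lit 0, nat_lit 9898, nat_lit 0, nat_lit 0, nat_lit 7510, nat_lit 6702, nat_lit 2787, nat_lit 0, nat_lit 0, nat_lit 697, nat_lit 0, nat_lit 0, nat_lit 0, nat_lit 0, nat_lit 0, nat_lit 0, nat_lit 0, nat_lit 0, [],
 ⟨p098_k21, nat_lit 0, nat_lit 0, nat_lit 649, nat_lit 0, nat_lit 1285457, [nat_lit 2032000001, nat_lit 4688000000, nat_lit 6250000000], [], [nat_lit 23057898463, nat_lit 23384491167, nat_lit 27041632822, nat_lit 27308064835, nat_lit 18633443106, nat_lit 18704543234, nat_lit 20281531960, nat_lit 20506001400], nat_lit 1271250, nat_lit 1271250, nat_lit 968401, nat_lit 1776000, nat_lit 0, nat_lit 1100001, [nat_lit 490000, nat_lit 1100000, nat_lit 1442500], [nat_lit 6, nat_lit 40, nat_lit 40, nat_lit 80, nat_lit 3, nat_lit 317, nat_lit 100, nat_lit 12]⟩, ⟨p098_k7, nat_lit 0, nat_lit 0, nat_lit 116, nat_lit 0, nat_lit 0, [nat_lit 2032000000, nat_lit 4688000000, nat_lit 6250000000], [], [nat_lit 21497715802,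 nat_lit 22250579034, nat_lit 25448988960, nat_lit 26065192367, nat_lit 17074592367, nat_lit 17563355017, nat_lit 20239007936, nat_lit 20674878872], nat_lit 0, nat_lit 0, nat_lit 0, nat_lit 0, nat_lit 0, nat_lit 0, [], [nat_lit 6, nat_lit 40, nat_lit 40, nat_lit 80, nat_lit 3, nat_lit 317, nat_lit 100, nat_lit 12]⟩,
 zbF0, [⟨nat_lit 0, nat_lit 80, nat_lit 80, nat_lit 100, nat_lit 113336416⟩]⟩
noncomputable def p098_l111 : Lf2 := ⟨nat_lit 0, nat_lit 10, [nat_lit 0, nat_lit 5, nat_lit 5, nat_lit 20], false, nat_lit 0, nat_lit 160, nat_lit 0, nat_lit 160, ⟨nat_lit 1000, nat_lit 0, nat_lit 0, nat_lit 0, nat_lit 0, nat_lit 0, nat_lit 0, nat_lit 0, nat_lit 0, nat_lit 0, nat_lit 0, nat_lit 0, nat_lit 0, nat_lit 0, nat_lit 0, nat_lit 0, false, false⟩,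
 nat_lit 0, nat_lit 10429, nat_lit 0, nat_lit 0, nat_lit 7821, nat_lit 6695, nat_lit 461, nat_lit 0, nat_lit 0, nat_lit 3251, nat_lit 0, nat_lit 0, nat_lit 0, nat_lit 0, nat_lit 0, nat_lit 0, nat_lit 0, nat_lit 0, [],
 ⟨p098_k7, nat_lit 0, nat_lit 0, nat_lit 587, nat_lit 0, nat_lit 1147770, [nat_lit 2032000001, nat_lit 4688000000, nat_lit 6250000000], [], [nat_lit 25603351354, nat_lit 25837548797, nat_lit 27101170080, nat_lit 27786447679, nat_lit 22143961990, nat_lit 22350723671, nat_lit 23490217966, nat_lit 23101255178], nat_lit 1271250, nat_lit 1271250, nat_lit 936251, nat_lit 1773750, nat_lit 0, nat_lit 1100001, [nat_lit 490000, nat_lit 1100000, nat_lit 1442500], [nat_lit 6, nat_lit 40, nat_lit 40, nat_lit 80, nat_lit 3, nat_lit 317, nat_lit 100, nat_lit 12]⟩, ⟨p098_k7, nat_lit 0, nat_lit 0, nat_lit 116, nat_lit 0, nat_lit 0, [nat_lit 2032000000, nat_lit 4688000000, nat_lit 6250000000], [], [nat_lit 21444552330,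 nat_lit 22201787237, nat_lit 25438653600, nat_lit 26054424908, nat_lit 16984296220, nat_lit 17513971597, nat_lit 20245425760, nat_lit 20681013770], nat_lit 0, nat_lit 0, nat_lit 0, nat_lit 0, nat_lit 0, nat_lit 0, [], [nat_lit 6, nat_lit 40, nat_lit 40, nat_lit 80, nat_lit 3, nat_lit 317, nat_lit 100, nat_lit 12]⟩,
 zbF0, [⟨nat_lit 0, nat_lit 80, nat_lit 80, nat_lit 100, nat_lit 385309347⟩]⟩
noncomputable def p098_l112 : Lf2 := ⟨nat_lit 0, nat_lit 10, [nat_lit 0, nat_lit 5, nat_lit 5, nat_lit 20], false, nat_lit 0, nat_lit 160, nat_lit 0, nat_lit 160, ⟨nat_lit 1000, nat_lit 0, nat_lit 0, nat_lit 0, nat_lit 0, nat_lit 0, nat_lit 0, nat_lit 0, nat_lit 0, nat_lit 0, nat_lit 0, nat_lit 0, nat_lit 0, nat_lit 0, nat_lit 0, nat_lit 0, false, false⟩,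
 nat_lit 0, nat_lit 8716, nat_lit 0, nat_lit 0, nat_lit 6536, nat_lit 5853, nat_lit 2538, nat_lit 0, nat_lit 0, nat_lit 584, nat_lit 0, nat_lit 0, nat_lit 0, nat_lit 0, nat_lit 0, nat_lit 0, nat_lit 0, nat_lit 0, [],
 ⟨p098_k7, nat_lit 0, nat_lit 0, nat_lit 639, nat_lit 0, nat_lit 1310286, [nat_lit 2032000001, nat_lit 4688000000, nat_lit 6250000000], [], [nat_lit 34228021440, nat_lit 34330848905, nat_lit 39560061216, nat_lit 39773062064, nat_lit 31678516034, nat_lit 31751227978, nat_lit 35037295168, nat_lit 35092669036], nat_lit 1271250, nat_lit 1271250, nat_lit 1271250, nat_lit 1271250, nat_lit 0, nat_lit 1100001, [nat_lit 490000, nat_lit 1100000, nat_lit 1442500], [nat_lit 6, nat_lit 40, nat_lit 40, nat_lit 80, nat_lit 3, nat_lit 271, nat_lit 40, nat_lit 10]⟩, ⟨p098_k7, nat_lit 0, nat_lit 0, nat_lit 172, nat_lit 0, nat_lit 0, [nat_lit 2032000000, nat_lit 4688000000, nat_lit 6250000000], [], [nat_lit 25870322868,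 nat_lit 26094514496, nat_lit 37649193868, nat_lit 37850078159, nat_lit 23039953300, nat_lit 23228192732, nat_lit 31364126948, nat_lit 31494798830], nat_lit 0, nat_lit 0, nat_lit 0, nat_lit 0, nat_lit 0, nat_lit 0, [], [nat_lit 6, nat_lit 40, nat_lit 40, nat_lit 80, nat_lit 3, nat_lit 249, nat_lit 40, nat_lit 9]⟩,
 zbF0, []⟩
noncomputable def p098_l113 : Lf2 := ⟨nat_lit 0, nat_lit 10, [nat_lit 0, nat_lit 5, nat_lit 5, nat_lit 20], false, nat_lit 0, nat_lit 160, nat_lit 0, nat_lit 160, ⟨nat_lit 1000, nat_lit 0, nat_lit 0, nat_lit 0, nat_lit 0, nat_lit 0, nat_lit 0, nat_lit 0, nat_lit 0, nat_lit 0, nat_lit 0, nat_lit 0, nat_lit 0, nat_lit 0, nat_lit 0, nat_lit 0, false, false⟩,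
 nat_lit 0, nat_lit 7807, nat_lit 0, nat_lit 0, nat_lit 5923, nat_lit 5945, nat_lit 2180, nat_lit 0, nat_lit 0, nat_lit 581, nat_lit 0, nat_lit 0, nat_lit 0, nat_lit 36486904656499, nat_lit 0, nat_lit 0, nat_lit 0, nat_lit 0, [],
 ⟨p098_k21, nat_lit 0, nat_lit 0, nat_lit 644, nat_lit 0, nat_lit 1323110, [nat_lit 2032000001, nat_lit 4688000000, nat_lit 6250000000], [], [nat_lit 32637933194, nat_lit 32695073433, nat_lit 38047162893, nat_lit 38181913629, nat_lit 30592320436, nat_lit 30639752474, nat_lit 33469625482, nat_lit 33501294987], nat_lit 1271250, nat_lit 1271250, nat_lit 1271250, nat_lit 1271250, nat_lit 0, nat_lit 1100001, [nat_lit 490000, nat_lit 1100000, nat_lit 1442500], [nat_lit 6, nat_lit 40, nat_lit 40, nat_lit 80, nat_lit 3, nat_lit 272, nat_lit 40, nat_lit 10]⟩, ⟨p098_k7, nat_lit 0, nat_lit 0, nat_lit 173, nat_lit 0, nat_lit 0, [nat_lit 2032000000, nat_lit 4688000000, nat_lit 6250000000], [], [nat_lit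 25797200420, nat_lit 26174220700, nat_lit 37906587420, nat_lit 38244114735, nat_lit 22877162500, nat_lit 23193546373, nat_lit 31368315080, nat_lit 31664441970], nat_lit 0, nat_lit 0, nat_lit 0, nat_lit 0, nat_lit 0, nat_lit 0, [], [nat_lit 6, nat_lit 40, nat_lit 40, nat_lit 80, nat_lit 3, nat_lit 249, nat_lit 40, nat_lit 9]⟩,
 zbF0, []⟩
noncomputable def p098_l114 : Lf2 := ⟨nat_lit 0, nat_lit 10, [nat_lit 0, nat_lit 5, nat_lit 5, nat_lit 20], false, nat_lit 160, nat_lit 232, nat_lit 0, nat_lit 80, ⟨nat_lit 1000, nat_lit 0, nat_lit 0, nat_lit 0, nat_lit 0, nat_lit 0, nat_lit 0, nat_lit 0, nat_lit 0, nat_lit 0, nat_lit 0, nat_lit 0, nat_lit 0, nat_lit 0, nat_lit 0, nat_lit 0, false, false⟩,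
 nat_lit 0, nat_lit 8719, nat_lit 0, nat_lit 0, nat_lit 6539, nat_lit 4292, nat_lit 480, nat_lit 0, nat_lit 0, nat_lit 2558, nat_lit 0, nat_lit 0, nat_lit 0, nat_lit 0, nat_lit 0, nat_lit 0, nat_lit 0, nat_lit 0, [],
 ⟨p098_k7, nat_lit 0, nat_lit 0, nat_lit 567, nat_lit 0, nat_lit 1306230, [nat_lit 2032000001, nat_lit 4688000000, nat_lit 6250000000], [], [nat_lit 28577780193, nat_lit 28767528399, nat_lit 29524559560, nat_lit 29695968302, nat_lit 29446202201, nat_lit 29625788448, nat_lit 30123032499, nat_lit 30273167248], nat_lit 1271250, nat_lit 1271250, nat_lit 936251, nat_lit 1773750, nat_lit 1100001, nat_lit 1716500, [nat_lit 490000, nat_lit 1100000, nat_lit 1442500], [nat_lit 6, nat_lit 40, nat_lit 40, nat_lit 80, nat_lit 3, nat_lit 345, nat_lit 125, nat_lit 12]⟩, ⟨p098_k7, nat_lit 0, nat_lit 0, nat_lit 116, nat_lit 0, nat_lit 0, [nat_lit 2032000000, nat_lit 4688000000, nat_lit 6250000000], [], [nat_lit 20657267928,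 nat_lit 21137818363, nat_lit 24077465360, nat_lit 24476419580, nat_lit 18682280624, nat_lit 19105865717, nat_lit 21970873808, nat_lit 22324845570], nat_lit 0, nat_lit 0, nat_lit 0, nat_lit 0, nat_lit 0, nat_lit 0, [], [nat_lit 6, nat_lit 40, nat_lit 40, nat_lit 80, nat_lit 3, nat_lit 317, nat_lit 100, nat_lit 12]⟩,
 zbF0, [⟨nat_lit 0, nat_lit 80, nat_lit 80, nat_lit 100, nat_lit 411560274⟩, ⟨nat_lit 4, nat_lit 100, nat_lit 79, nat_lit 66, nat_lit 503752908⟩]⟩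
noncomputable def p098_l115 : Lf2 := ⟨nat_lit 0, nat_lit 10, [nat_lit 0, nat_lit 5, nat_lit 5, nat_lit 20], false, nat_lit 160, nat_lit 232, nat_lit 80, nat_lit 160, ⟨nat_lit 1000, nat_lit 0, nat_lit 0, nat_lit 0, nat_lit 0, nat_lit 0, nat_lit 0, nat_lit 0, nat_lit 0, nat_lit 0, nat_lit 0, nat_lit 0, nat_lit 0, nat_lit 0, nat_lit 0, nat_lit 0, false, false⟩,
 nat_lit 0, nat_lit 8719, nat_lit 0, nat_lit 0, nat_lit 6539, nat_lit 4018, nat_lit 480, nat_lit 0, nat_lit 0, nat_lit 0, nat_lit 0, nat_lit 0, nat_lit 0, nat_lit 0, nat_lit 0, nat_lit 0, nat_lit 0, nat_lit 0, [],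
 ⟨p098_k7, nat_lit 0, nat_lit 0, nat_lit 567, nat_lit 0, nat_lit 1306230, [nat_lit 2032000001, nat_lit 4688000000, nat_lit 6250000000], [], [nat_lit 28577780193, nat_lit 28767528399, nat_lit 29524559560, nat_lit 29695968302, nat_lit 29446202201, nat_lit 29625788448, nat_lit 30123032499, nat_lit 30273167248], nat_lit 1271250, nat_lit 1271250, nat_lit 936251, nat_lit 1773750, nat_lit 1100001, nat_lit 1716500, [nat_lit 490000, nat_lit 1100000, nat_lit 1442500], [nat_lit 6, nat_lit 40, nat_lit 40, nat_lit 80, nat_lit 3, nat_lit 345, nat_lit 125, nat_lit 12]⟩, ⟨p098_k7, nat_lit 0, nat_lit 0, nat_lit 38, nat_lit 0, nat_lit 0, [nat_lit 2032000000, nat_lit 4688000000, nat_lit 6250000000], [], [nat_lit 15010181892, nat_lit 15526906326, nat_lit 18693677032, nat_lit 19121944673, nat_lit 15986048796, nat_lit 16421650503, nat_lit 19342178440, nat_lit 19727320320], nat_lit 0, nat_lit 0, nat_lit 0, nat_lit 0, nat_lit 0, nat_lit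 0, [], [nat_lit 6, nat_lit 40, nat_lit 40, nat_lit 80, nat_lit 3, nat_lit 317, nat_lit 100, nat_lit 11]⟩,
 zbF0, [⟨nat_lit 0, nat_lit 80, nat_lit 80, nat_lit 100, nat_lit 414082818⟩, ⟨nat_lit 4, nat_lit 100, nat_lit 79, nat_lit 66, nat_lit 503752908⟩]⟩
noncomputable def p098_l116 : Lf2 := ⟨nat_lit 0, nat_lit 10, [nat_lit 0, nat_lit 5, nat_lit 5, nat_lit 20], false, nat_lit 160, nat_lit 260, nat_lit 0, nat_lit 160, ⟨nat_lit 1000, nat_lit 0, nat_lit 0, nat_lit 0, nat_lit 0, nat_lit 0, nat_lit 0, nat_lit 0, nat_lit 0, nat_lit 0, nat_lit 0, nat_lit 0, nat_lit 0, nat_lit 0, nat_lit 0, nat_lit 0, false, false⟩,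
 nat_lit 0, nat_lit 8312, nat_lit 0, nat_lit 0, nat_lit 6233, nat_lit 6695, nat_lit 500, nat_lit 0, nat_lit 0, nat_lit 709, nat_lit 0, nat_lit 0, nat_lit 0, nat_lit 0, nat_lit 0, nat_lit 0, nat_lit 0, nat_lit 0, [],
 ⟨p098_k7, nat_lit 0, nat_lit 0, nat_lit 503, nat_lit 0, nat_lit 1147770, [nat_lit 2032000001, nat_lit 4688000000, nat_lit 6250000000], [], [nat_lit 27705160136, nat_lit 27913040642, nat_lit 28826637810, nat_lit 29001555283, nat_lit 29319897616, nat_lit 29519841192, nat_lit 30204787964, nat_lit 30372498403], nat_lit 1271250, nat_lit 1271250, nat_lit 936251, nat_lit 1773750, nat_lit 1100001, nat_lit 1956250, [nat_lit 490000, nat_lit 1100000, nat_lit 1442500], [nat_lit 6, nat_lit 40, nat_lit 40, nat_lit 80, nat_lit 3, nat_lit 345, nat_lit 125, nat_lit 12]⟩, ⟨p098_k7, nat_lit 0, nat_lit 0, nat_lit 116, nat_lit 0, nat_lit 0, [nat_lit 2032000000, nat_lit 4688000000, nat_lit 6250000000], [], [nat_lit 21444552330,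 nat_lit 22201787237, nat_lit 25438653600, nat_lit 26054424908, nat_lit 16984308560, nat_lit 17513971597, nat_lit 20245425760, nat_lit 20681013770], nat_lit 0, nat_lit 0, nat_lit 0, nat_lit 0, nat_lit 0, nat_lit 0, [], [nat_lit 6, nat_lit 40, nat_lit 40, nat_lit 80, nat_lit 3, nat_lit 317, nat_lit 100, nat_lit 12]⟩,
 zbF0, [⟨nat_lit 0, nat_lit 80, nat_lit 80, nat_lit 100, nat_lit 358908054⟩, ⟨nat_lit 16, nat_lit 81, nat_lit 100, nat_lit 78, nat_lit 459410093⟩]⟩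
noncomputable def p098_l117 : Lf2 := ⟨nat_lit 0, nat_lit 10, [nat_lit 0, nat_lit 5, nat_lit 5, nat_lit 20], false, nat_lit 160, nat_lit 260, nat_lit 0, nat_lit 160, ⟨nat_lit 1000, nat_lit 0, nat_lit 0, nat_lit 0, nat_lit 0, nat_lit 0, nat_lit 0, nat_lit 0, nat_lit 0, nat_lit 0, nat_lit 0, nat_lit 0, nat_lit 0, nat_lit 0, nat_lit 0, nat_lit 0, false, false⟩,
 nat_lit 0, nat_lit 8584, nat_lit 0, nat_lit 0, nat_lit 6437, nat_lit 5683, nat_lit 446, nat_lit 0, nat_lit 0, nat_lit 2628, nat_lit 0, nat_lit 0, nat_lit 0, nat_lit 0, nat_lit 0, nat_lit 0, nat_lit 0, nat_lit 0, [],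
 ⟨p098_k7, nat_lit 0, nat_lit 0, nat_lit 549, nat_lit 0, nat_lit 1310286, [nat_lit 2032000001, nat_lit 4688000000, nat_lit 6250000000], [], [nat_lit 30065291410, nat_lit 30153228263, nat_lit 34225215252, nat_lit 34292509968, nat_lit 31093367499, nat_lit 31177819528, nat_lit 34475625014, nat_lit 34530227643], nat_lit 1271250, nat_lit 1271250, nat_lit 1271250, nat_lit 1271250, nat_lit 1100001, nat_lit 1956250, [nat_lit 490000, nat_lit 1100000, nat_lit 1442500], [nat_lit 6, nat_lit 40, nat_lit 40, nat_lit 80, nat_lit 3, nat_lit 289, nat_lit 75, nat_lit 9]⟩, ⟨p098_k7, nat_lit 0, nat_lit 0, nat_lit 172, nat_lit 0, nat_lit 0, [nat_lit 2032000000, nat_lit 4688000000, nat_lit 6250000000], [], [nat_lit 25861259744, nat_lit 26098070741, nat_lit 37173575348, nat_lit 37371443805, nat_lit 23344250232, nat_lit 23542891870, nat_lit 31568107228, nat_lit 31697200864], nat_lit 0, nat_lit 0, nat_lit 0, nat_lit 0, nat_lit 0, nat_lit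 0, [], [nat_lit 6, nat_lit 40, nat_lit 40, nat_lit 80, nat_lit 3, nat_lit 249, nat_lit 40, nat_lit 9]⟩,
 zbF0, [⟨nat_lit 16, nat_lit 80, nat_lit 100, nat_lit 72, nat_lit 453361495⟩]⟩
noncomputable def p098_l118 : Lf2 := ⟨nat_lit 0, nat_lit 10, [nat_lit 0, nat_lit 5, nat_lit 5, nat_lit 20], false, nat_lit 160, nat_lit 256, nat_lit 0, nat_lit 160, ⟨nat_lit 1000, nat_lit 0, nat_lit 0, nat_lit 0, nat_lit 0, nat_lit 0, nat_lit 0, nat_lit 0, nat_lit 0, nat_lit 0, nat_lit 0, nat_lit 0, nat_lit 0, nat_lit 0, nat_lit 0, nat_lit 0, false, false⟩,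
 nat_lit 0, nat_lit 7828, nat_lit 0, nat_lit 0, nat_lit 5939, nat_lit 5791, nat_lit 2188, nat_lit 0, nat_lit 0, nat_lit 582, nat_lit 0, nat_lit 0, nat_lit 0, nat_lit 23942311266355, nat_lit 0, nat_lit 0, nat_lit 0, nat_lit 0, [],
 ⟨p098_k21, nat_lit 0, nat_lit 0, nat_lit 554, nat_lit 0, nat_lit 1323110, [nat_lit 2032000001, nat_lit 4688000000, nat_lit 6250000000], [], [nat_lit 28598461445, nat_lit 28655647889, nat_lit 32188431022, nat_lit 32232777541, nat_lit 29424371111, nat_lit 29472368757, nat_lit 32943318429, nat_lit 33041677090], nat_lit 1271250, nat_lit 1271250, nat_lit 1271250, nat_lit 1271250, nat_lit 1100001, nat_lit 1922000, [nat_lit 490000, nat_lit 1100000, nat_lit 1442500], [nat_lit 6, nat_lit 40, nat_lit 40, nat_lit 80, nat_lit 3, nat_lit 289, nat_lit 75, nat_lit 9]⟩, ⟨p098_k7, nat_lit 0, nat_lit 0, nat_lit 173, nat_lit 0, nat_lit 0, [nat_lit 2032000000, nat_lit 4688000000, nat_lit 6250000000], [],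 [nat_lit 25935687996, nat_lit 26307071260, nat_lit 37475732996, nat_lit 37808706993, nat_lit 23165747100, nat_lit 23477692616, nat_lit 31438519756, nat_lit 31655346899], nat_lit 0, nat_lit 0, nat_lit 0, nat_lit 0, nat_lit 0, nat_lit 0, [], [nat_lit 6, nat_lit 40, nat_lit 40, nat_lit 80, nat_lit 3, nat_lit 249, nat_lit 40, nat_lit 9]⟩,
 zbF0, [⟨nat_lit 16, nat_lit 79, nat_lit 100, nat_lit 72, nat_lit 442032883⟩]⟩
noncomputable def p098_l119 : Lf2 := ⟨nat_lit 0, nat_lit 10, [nat_lit 0, nat_lit 5, nat_lit 5, nat_lit 20], false, nat_lit 0, nat_lit 252, nat_lit 0, nat_lit 160, ⟨nat_lit 1000, nat_lit 0, nat_lit 0, nat_lit 0, nat_lit 0, nat_lit 0, nat_lit 0, nat_lit 0, nat_lit 0, nat_lit 0, nat_lit 0, nat_lit 0, nat_lit 0, nat_lit 0, nat_lit 0, nat_lit 0, false, false⟩,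
 nat_lit 0, nat_lit 8422, nat_lit 0, nat_lit 0, nat_lit 6440, nat_lit 7204, nat_lit 2693, nat_lit 0, nat_lit 0, nat_lit 336, nat_lit 0, nat_lit 0, nat_lit 0, nat_lit 41255152270698, nat_lit 0, nat_lit 0, nat_lit 0, nat_lit 0, [],
 ⟨p098_k15, nat_lit 0, nat_lit 0, nat_lit 702, nat_lit 0, nat_lit 1393360, [nat_lit 2032000001, nat_lit 4688000000, nat_lit 6250000000], [], [nat_lit 24614509574, nat_lit 23784757434, nat_lit 25662181740, nat_lit 26262212280, nat_lit 21364724000, nat_lit 21484691367, nat_lit 25905797177, nat_lit 25206650008], nat_lit 1271250, nat_lit 1271250, nat_lit 1000851, nat_lit 1778250, nat_lit 0, nat_lit 1779750, [nat_lit 490000, nat_lit 1100000, nat_lit 1442500], [nat_lit 6, nat_lit 40, nat_lit 40, nat_lit 80, nat_lit 3, nat_lit 345, nat_lit 125, nat_lit 13]⟩, ⟨p098_k7, nat_lit 0, nat_lit 0, nat_lit 120, nat_lit 0, nat_lit 0, [nat_lit 2032000000, nat_lit 4688000000, nat_lit 6250000000], [], [nat_lit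 22554015034, nat_lit 23775955574, nat_lit 26190181920, nat_lit 27484564148, nat_lit 18070292554, nat_lit 19086637394, nat_lit 20924318224, nat_lit 21770527656], nat_lit 0, nat_lit 0, nat_lit 0, nat_lit 0, nat_lit 0, nat_lit 0, [], [nat_lit 6, nat_lit 40, nat_lit 40, nat_lit 80, nat_lit 3, nat_lit 317, nat_lit 100, nat_lit 12]⟩,
 zbF0, [⟨nat_lit 0, nat_lit 77, nat_lit 77, nat_lit 100, nat_lit 109465202⟩, ⟨nat_lit 4, nat_lit 100, nat_lit 77, nat_lit 72, nat_lit 222298768⟩]⟩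
noncomputable def p098_l120 : Lf2 := ⟨nat_lit 0, nat_lit 10, [nat_lit 0, nat_lit 5, nat_lit 5, nat_lit 20], false, nat_lit 0, nat_lit 252, nat_lit 0, nat_lit 160, ⟨nat_lit 1000, nat_lit 0, nat_lit 0, nat_lit 0, nat_lit 0, nat_lit 0, nat_lit 0, nat_lit 0, nat_lit 0, nat_lit 0, nat_lit 0, nat_lit 0, nat_lit 0, nat_lit 0, nat_lit 0, nat_lit 0, false, false⟩,
 nat_lit 0, nat_lit 7017, nat_lit 0, nat_lit 0, nat_lit 5365, nat_lit 6512, nat_lit 2465, nat_lit 0, nat_lit 0, nat_lit 0, nat_lit 0, nat_lit 0, nat_lit 0, nat_lit 33435614601566, nat_lit 0, nat_lit 0, nat_lit 0, nat_lit 0, [],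
 ⟨p098_k15, nat_lit 0, nat_lit 0, nat_lit 671, nat_lit 0, nat_lit 1393360, [nat_lit 2032000001, nat_lit 4688000000, nat_lit 6250000000], [], [nat_lit 31087764280, nat_lit 31226586397, nat_lit 36604267395, nat_lit 36924645850, nat_lit 30049901452, nat_lit 30148949750, nat_lit 32444349494, nat_lit 32511296225], nat_lit 1271250, nat_lit 1271250, nat_lit 1271250, nat_lit 1271250, nat_lit 0, nat_lit 1779750, [nat_lit 490000, nat_lit 1100000, nat_lit 1442500], [nat_lit 6, nat_lit 40, nat_lit 40, nat_lit 80, nat_lit 3, nat_lit 291, nat_lit 75, nat_lit 10]⟩, ⟨p098_k7, nat_lit 0, nat_lit 0, nat_lit 174, nat_lit 0, nat_lit 0, [nat_lit 2032000000, nat_lit 4688000000, nat_lit 6250000000], [], [nat_lit 27596587072, nat_lit 28392136568, nat_lit 39492915072, nat_lit 40201498680, nat_lit 24123919200, nat_lit 24789369392, nat_lit 32605266496, nat_lit 33103860144], nat_lit 0, nat_lit 0, nat_lit 0, nat_lit 0, nat_lit 0, nat_lit 0,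 [], [nat_lit 6, nat_lit 40, nat_lit 40, nat_lit 80, nat_lit 3, nat_lit 249, nat_lit 40, nat_lit 9]⟩,
 zbF0, [⟨nat_lit 16, nat_lit 77, nat_lit 100, nat_lit 72, nat_lit 146386673⟩]⟩
noncomputable def b_V_800_800_10_10 : St := ⟨true, nat_lit 1, nat_lit 0, nat_lit 2, nat_lit 80, nat_lit 320, nat_lit 330, nat_lit 320, nat_lit 330, nat_lit 140, nat_lit 400, nat_lit 40, nat_lit 80, nat_lit 0, nat_lit 260, nat_lit 0, nat_lit 160, nat_lit 0, nat_lit 40, nat_lit 0, nat_lit 0, nat_lit 0, nat_lit 0⟩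
theorem d_V_800_800_10_10 (h : EB TB.env) : Dead b_V_800_800_10_10 := chkB_sound0 h (T :=
(.spl (nat_lit 0) (nat_lit 325)
(.ord (.spl (nat_lit 4) (nat_lit 160)
(.spl (nat_lit 2) (nat_lit 240)
(.spl (nat_lit 3) (nat_lit 60)
(.spl (nat_lit 0) (nat_lit 323)
(.ord (.leaf p098_l109))
(.trZ (nat_lit 0) (nat_lit 83) (nat_lit 82) (nat_lit 100) (nat_lit 144) (.leaf p098_l110)))
(.leaf p098_l111))
(.spl (nat_lit 0) (nat_lit 323)
(.ord (.leaf p098_l112))
(.leaf p098_l113)))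
(.spl (nat_lit 2) (nat_lit 240)
(.spl (nat_lit 3) (nat_lit 60)
(.trX (nat_lit 16) (nat_lit 81) (nat_lit 100) (nat_lit 72) (nat_lit 232) (.spl (nat_lit 5) (nat_lit 80)
(.leaf p098_l114)
(.leaf p098_l115)))
(.leaf p098_l116))
(.spl (nat_lit 0) (nat_lit 323)
(.ord (.leaf p098_l117))
(.trX (nat_lit 16) (nat_lit 82) (nat_lit 100) (nat_lit 83) (nat_lit 256) (.leaf p098_l118))))))
(.trZ (nat_lit 0) (nat_lit 83) (nat_lit 81) (nat_lit 100) (nat_lit 148) (.trX (nat_lit 16) (nat_lit 81) (nat_lit 100) (nat_lit 83) (nat_lit 252) (.spl (nat_lit 2) (nat_lit 240)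
(.leaf p098_l119)
(.leaf p098_l120)))))) (by decide +kernel)
noncomputable def p098_l121 : Lf2 := ⟨nat_lit 0, nat_lit 5, [nat_lit 4, nat_lit 5, nat_lit 5, nat_lit 20], false, nat_lit 0, nat_lit 80, nat_lit 160, nat_lit 232, ⟨nat_lit 1000, nat_lit 0, nat_lit 0, nat_lit 0, nat_lit 0, nat_lit 0, nat_lit 0, nat_lit 0, nat_lit 0, nat_lit 0, nat_lit 0, nat_lit 0, nat_lit 0, nat_lit 0, nat_lit 0, nat_lit 0, false, false⟩,
 nat_lit 0, nat_lit 8856, nat_lit 0, nat_lit 0, nat_lit 6642, nat_lit 4018, nat_lit 478, nat_lit 0, nat_lit 0, nat_lit 0, nat_lit 0, nat_lit 0, nat_lit 0, nat_lit 0, nat_lit 0, nat_lit 0, nat_lit 0, nat_lit 0, [],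
 ⟨p098_k13, nat_lit 0, nat_lit 0, nat_lit 643, nat_lit 0, nat_lit 1267868, [nat_lit 2032000001, nat_lit 4688000000, nat_lit 6250000000], [], [nat_lit 32748341980, nat_lit 32940642342, nat_lit 33681701680, nat_lit 33854127856, nat_lit 30731231813, nat_lit 30908079496, nat_lit 31509494912, nat_lit 31669386832], nat_lit 1271250, nat_lit 1271250, nat_lit 936251, nat_lit 1773750, nat_lit 0, nat_lit 490000, [nat_lit 490000, nat_lit 1100000, nat_lit 1442500], [nat_lit 6, nat_lit 40, nat_lit 40, nat_lit 80, nat_lit 3, nat_lit 317, nat_lit 100, nat_lit 12]⟩, ⟨p098_k13, nat_lit 0, nat_lit 0, nat_lit 21, nat_lit 0, nat_lit 0, [nat_lit 2032000000, nat_lit 4688000000, nat_lit 6250000000], [], [nat_lit 15986048796, nat_lit 16421650503, nat_lit 19342178440, nat_lit 19727320320, nat_lit 18729420508, nat_lit 19132755831, nat_lit 21597372348, nat_lit 21935122635], nat_lit 0, nat_lit 0, nat_lit 0, nat_lit 0, nat_lit 0, nat_lit 0,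 [], [nat_lit 6, nat_lit 40, nat_lit 40, nat_lit 80, nat_lit 3, nat_lit 345, nat_lit 125, nat_lit 12]⟩,
 zbF0, [⟨nat_lit 0, nat_lit 80, nat_lit 80, nat_lit 100, nat_lit 415200109⟩, ⟨nat_lit 7, nat_lit 100, nat_lit 79, nat_lit 66, nat_lit 750609087⟩]⟩
noncomputable def p098_l122 : Lf2 := ⟨nat_lit 0, nat_lit 5, [nat_lit 4, nat_lit 5, nat_lit 5, nat_lit 20], false, nat_lit 80, nat_lit 160, nat_lit 160, nat_lit 232, ⟨nat_lit 1000, nat_lit 0, nat_lit 0, nat_lit 0, nat_lit 0, nat_lit 0, nat_lit 0, nat_lit 0, nat_lit 0, nat_lit 0, nat_lit 0, nat_lit 0, nat_lit 0, nat_lit 0, nat_lit 0, nat_lit 0, false, false⟩,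
 nat_lit 0, nat_lit 8856, nat_lit 0, nat_lit 0, nat_lit 6642, nat_lit 4018, nat_lit 478, nat_lit 0, nat_lit 0, nat_lit 0, nat_lit 0, nat_lit 0, nat_lit 0, nat_lit 0, nat_lit 0, nat_lit 0, nat_lit 0, nat_lit 0, [],
 ⟨p098_k13, nat_lit 0, nat_lit 0, nat_lit 580, nat_lit 0, nat_lit 1267868, [nat_lit 2032000001, nat_lit 4688000000, nat_lit 6250000000], [], [nat_lit 28328984796, nat_lit 28544468775, nat_lit 29408464560, nat_lit 29601776352, nat_lit 28075231814, nat_lit 28252642342, nat_lit 28993701680, nat_lit 29166127856], nat_lit 1271250, nat_lit 1271250, nat_lit 936251, nat_lit 1773750, nat_lit 490000, nat_lit 1100001, [nat_lit 490000, nat_lit 1100000, nat_lit 1442500], [nat_lit 6, nat_lit 40, nat_lit 40, nat_lit 80, nat_lit 3, nat_lit 317, nat_lit 100, nat_lit 11]⟩, ⟨p098_k13, nat_lit 0, nat_lit 0, nat_lit 21, nat_lit 0, nat_lit 0, [nat_lit 2032000000, nat_lit 4688000000, nat_lit 6250000000], [], [nat_lit 15986048796,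 nat_lit 16421650503, nat_lit 19342178440, nat_lit 19727320320, nat_lit 18729420508, nat_lit 19132755831, nat_lit 21597372348, nat_lit 21935122635], nat_lit 0, nat_lit 0, nat_lit 0, nat_lit 0, nat_lit 0, nat_lit 0, [], [nat_lit 6, nat_lit 40, nat_lit 40, nat_lit 80, nat_lit 3, nat_lit 345, nat_lit 125, nat_lit 12]⟩,
 zbF0, [⟨nat_lit 0, nat_lit 80, nat_lit 80, nat_lit 100, nat_lit 415200109⟩, ⟨nat_lit 7, nat_lit 100, nat_lit 79, nat_lit 66, nat_lit 750609087⟩]⟩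
noncomputable def p098_l123 : Lf2 := ⟨nat_lit 0, nat_lit 10, [nat_lit 0, nat_lit 5, nat_lit 5, nat_lit 20], false, nat_lit 0, nat_lit 160, nat_lit 160, nat_lit 232, ⟨nat_lit 1000, nat_lit 0, nat_lit 0, nat_lit 0, nat_lit 0, nat_lit 0, nat_lit 0, nat_lit 0, nat_lit 0, nat_lit 0, nat_lit 0, nat_lit 0, nat_lit 0, nat_lit 0, nat_lit 0, nat_lit 0, false, false⟩,
 nat_lit 0, nat_lit 10150, nat_lit 0, nat_lit 0, nat_lit 7612, nat_lit 4018, nat_lit 503, nat_lit 0, nat_lit 0, nat_lit 0, nat_lit 0, nat_lit 0, nat_lit 0, nat_lit 12382132445113, nat_lit 0, nat_lit 0, nat_lit 0, nat_lit 0, [],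
 ⟨p098_k7, nat_lit 0, nat_lit 0, nat_lit 529, nat_lit 0, nat_lit 1008312, [nat_lit 2032000001, nat_lit 4688000000, nat_lit 6250000000], [], [nat_lit 24891742392, nat_lit 25172108359, nat_lit 26792585760, nat_lit 27464962102, nat_lit 21556762480, nat_lit 21805348938, nat_lit 23814395410, nat_lit 22975515836], nat_lit 1271250, nat_lit 1271250, nat_lit 936251, nat_lit 1773750, nat_lit 0, nat_lit 1100001, [nat_lit 490000, nat_lit 1100000, nat_lit 1442500], [nat_lit 6, nat_lit 40, nat_lit 40, nat_lit 80, nat_lit 3, nat_lit 317, nat_lit 100, nat_lit 12]⟩, ⟨p098_k7, nat_lit 0, nat_lit 0, nat_lit 21, nat_lit 0, nat_lit 0, [nat_lit 2032000000, nat_lit 4688000000, nat_lit 6250000000], [], [nat_lit 15986048796, nat_lit 16421650503, nat_lit 19342178440, nat_lit 19727320320, nat_lit 18729420508, nat_lit 19132755831, nat_lit 21597372348, nat_lit 21935122635], nat_lit 0, nat_lit 0, nat_lit 0, nat_lit 0, nat_lit 0, nat_lit 0,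 [], [nat_lit 6, nat_lit 40, nat_lit 40, nat_lit 80, nat_lit 3, nat_lit 345, nat_lit 125, nat_lit 12]⟩,
 zbF0, [⟨nat_lit 0, nat_lit 80, nat_lit 80, nat_lit 100, nat_lit 395206669⟩, ⟨nat_lit 7, nat_lit 100, nat_lit 79, nat_lit 66, nat_lit 750609087⟩]⟩
noncomputable def p098_l124 : Lf2 := ⟨nat_lit 0, nat_lit 10, [nat_lit 0, nat_lit 5, nat_lit 5, nat_lit 20], false, nat_lit 0, nat_lit 160, nat_lit 160, nat_lit 260, ⟨nat_lit 1000, nat_lit 0, nat_lit 0, nat_lit 0, nat_lit 0, nat_lit 0, nat_lit 0, nat_lit 0, nat_lit 0, nat_lit 0, nat_lit 0, nat_lit 0, nat_lit 0, nat_lit 0, nat_lit 0, nat_lit 0, false, false⟩,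
 nat_lit 0, nat_lit 10429, nat_lit 0, nat_lit 0, nat_lit 7821, nat_lit 3889, nat_lit 461, nat_lit 0, nat_lit 0, nat_lit 0, nat_lit 0, nat_lit 0, nat_lit 0, nat_lit 0, nat_lit 0, nat_lit 0, nat_lit 0, nat_lit 0, [],
 ⟨p098_k7, nat_lit 0, nat_lit 0, nat_lit 587, nat_lit 0, nat_lit 1147770, [nat_lit 2032000001, nat_lit 4688000000, nat_lit 6250000000], [], [nat_lit 25603351354, nat_lit 25837548797, nat_lit 27101170080, nat_lit 27786447679, nat_lit 22143961990, nat_lit 22350723671, nat_lit 23490217966, nat_lit 23101255178], nat_lit 1271250, nat_lit 1271250, nat_lit 936251, nat_lit 1773750, nat_lit 0, nat_lit 1100001, [nat_lit 490000, nat_lit 1100000, nat_lit 1442500], [nat_lit 6, nat_lit 40, nat_lit 40, nat_lit 80, nat_lit 3, nat_lit 317, nat_lit 100, nat_lit 12]⟩, ⟨p098_k7, nat_lit 0, nat_lit 0, nat_lit 28, nat_lit 0, nat_lit 0, [nat_lit 2032000000, nat_lit 4688000000, nat_lit 6250000000], [], [nat_lit 16088497758,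 nat_lit 16516325732, nat_lit 19409856668, nat_lit 19767488603, nat_lit 20135931844, nat_lit 20488307624, nat_lit 22740903311, nat_lit 23054247178], nat_lit 0, nat_lit 0, nat_lit 0, nat_lit 0, nat_lit 0, nat_lit 0, [], [nat_lit 6, nat_lit 40, nat_lit 40, nat_lit 80, nat_lit 3, nat_lit 345, nat_lit 125, nat_lit 12]⟩,
 zbF0, [⟨nat_lit 0, nat_lit 80, nat_lit 80, nat_lit 100, nat_lit 432294065⟩, ⟨nat_lit 7, nat_lit 100, nat_lit 81, nat_lit 78, nat_lit 646538153⟩]⟩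
noncomputable def p098_l125 : Lf2 := ⟨nat_lit 0, nat_lit 10, [nat_lit 0, nat_lit 5, nat_lit 5, nat_lit 20], false, nat_lit 0, nat_lit 160, nat_lit 160, nat_lit 232, ⟨nat_lit 1000, nat_lit 0, nat_lit 0, nat_lit 0, nat_lit 0, nat_lit 0, nat_lit 0, nat_lit 0, nat_lit 0, nat_lit 0, nat_lit 0, nat_lit 0, nat_lit 0, nat_lit 0, nat_lit 0, nat_lit 0, false, false⟩,
 nat_lit 0, nat_lit 8700, nat_lit 0, nat_lit 0, nat_lit 6524, nat_lit 5751, nat_lit 3034, nat_lit 0, nat_lit 0, nat_lit 0, nat_lit 0, nat_lit 0, nat_lit 0, nat_lit 0, nat_lit 0, nat_lit 0, nat_lit 0, nat_lit 0, [],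
 ⟨p098_k7, nat_lit 0, nat_lit 0, nat_lit 637, nat_lit 0, nat_lit 1306230, [nat_lit 2032000001, nat_lit 4688000000, nat_lit 6250000000], [], [nat_lit 34289868960, nat_lit 34461129532, nat_lit 39526488144, nat_lit 39881134752, nat_lit 31760414690, nat_lit 31881550238, nat_lit 35107374112, nat_lit 35199658882], nat_lit 1271250, nat_lit 1271250, nat_lit 1271250, nat_lit 1271250, nat_lit 0, nat_lit 1100001, [nat_lit 490000, nat_lit 1100000, nat_lit 1442500], [nat_lit 6, nat_lit 40, nat_lit 40, nat_lit 80, nat_lit 3, nat_lit 270, nat_lit 40, nat_lit 9]⟩, ⟨p098_k7, nat_lit 0, nat_lit 0, nat_lit 79, nat_lit 0, nat_lit 0, [nat_lit 2032000000, nat_lit 4688000000, nat_lit 6250000000], [], [nat_lit 21110915168, nat_lit 21508348586, nat_lit 31123730744, nat_lit 31415065446, nat_lit 23176308778, nat_lit 23522791063, nat_lit 31995841897, nat_lit 32251427368], nat_lit 0, nat_lit 0, nat_lit 0, nat_lit 0, nat_lit 0, nat_lit 0, [],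 [nat_lit 6, nat_lit 40, nat_lit 40, nat_lit 80, nat_lit 3, nat_lit 272, nat_lit 60, nat_lit 9]⟩,
 zbF0, [⟨nat_lit 7, nat_lit 100, nat_lit 79, nat_lit 66, nat_lit 657733482⟩]⟩
noncomputable def p098_l126 : Lf2 := ⟨nat_lit 0, nat_lit 10, [nat_lit 0, nat_lit 5, nat_lit 5, nat_lit 20], false, nat_lit 0, nat_lit 160, nat_lit 160, nat_lit 260, ⟨nat_lit 1000, nat_lit 0, nat_lit 0, nat_lit 0, nat_lit 0, nat_lit 0, nat_lit 0, nat_lit 0, nat_lit 0, nat_lit 0, nat_lit 0, nat_lit 0, nat_lit 0, nat_lit 0, nat_lit 0, nat_lit 0, false, false⟩,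
 nat_lit 0, nat_lit 8479, nat_lit 0, nat_lit 0, nat_lit 6359, nat_lit 6216, nat_lit 432, nat_lit 0, nat_lit 0, nat_lit 0, nat_lit 0, nat_lit 0, nat_lit 0, nat_lit 0, nat_lit 0, nat_lit 0, nat_lit 0, nat_lit 0, [],
 ⟨p098_k7, nat_lit 0, nat_lit 0, nat_lit 571, nat_lit 0, nat_lit 1147770, [nat_lit 2032000001, nat_lit 4688000000, nat_lit 6250000000], [], [nat_lit 33237648204, nat_lit 33415572235, nat_lit 39064858404, nat_lit 39414626457, nat_lit 30545737882, nat_lit 30687777359, nat_lit 34615449564, nat_lit 34727405131], nat_lit 1271250, nat_lit 1271250, nat_lit 1271250, nat_lit 1271250, nat_lit 0, nat_lit 1100001, [nat_lit 490000, nat_lit 1100000, nat_lit 1442500], [nat_lit 6, nat_lit 40, nat_lit 40, nat_lit 80, nat_lit 3, nat_lit 254, nat_lit 40, nat_lit 9]⟩, ⟨p098_k7, nat_lit 0, nat_lit 0, nat_lit 79, nat_lit 0, nat_lit 0, [nat_lit 2032000000, nat_lit 4688000000, nat_lit 6250000000], [], [nat_lit 20684588288, nat_lit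 21100816076, nat_lit 31709976704, nat_lit 32012797836, nat_lit 23956578824, nat_lit 24296311042, nat_lit 33232556280, nat_lit 33481036766], nat_lit 0, nat_lit 0, nat_lit 0, nat_lit 0, nat_lit 0, nat_lit 0, [], [nat_lit 6, nat_lit 40, nat_lit 40, nat_lit 80, nat_lit 3, nat_lit 289, nat_lit 75, nat_lit 9]⟩,
 zbF0, [⟨nat_lit 7, nat_lit 100, nat_lit 81, nat_lit 78, nat_lit 448372533⟩]⟩
noncomputable def p098_l127 : Lf2 := ⟨nat_lit 0, nat_lit 10, [nat_lit 0, nat_lit 5, nat_lit 5, nat_lit 20], false, nat_lit 0, nat_lit 160, nat_lit 160, nat_lit 260, ⟨nat_lit 1000, nat_lit 0, nat_lit 0, nat_lit 0, nat_lit 0, nat_lit 0, nat_lit 0, nat_lit 0, nat_lit 0, nat_lit 0, nat_lit 0, nat_lit 0, nat_lit 0, nat_lit 0, nat_lit 0, nat_lit 0, false, false⟩,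
 nat_lit 0, nat_lit 7405, nat_lit 0, nat_lit 0, nat_lit 5662, nat_lit 6749, nat_lit 2621, nat_lit 0, nat_lit 0, nat_lit 0, nat_lit 0, nat_lit 0, nat_lit 0, nat_lit 0, nat_lit 0, nat_lit 0, nat_lit 0, nat_lit 0, [],
 ⟨p098_k15, nat_lit 0, nat_lit 0, nat_lit 702, nat_lit 0, nat_lit 1393360, [nat_lit 2032000001, nat_lit 4688000000, nat_lit 6250000000], [], [nat_lit 27779963013, nat_lit 27944458016, nat_lit 37443982326, nat_lit 37773142180, nat_lit 26152853188, nat_lit 26290044289, nat_lit 32028097154, nat_lit 31589796976], nat_lit 1271250, nat_lit 1271250, nat_lit 1000851, nat_lit 3130250, nat_lit 0, nat_lit 1100001, [nat_lit 490000, nat_lit 1100000, nat_lit 1442500], [nat_lit 6, nat_lit 40, nat_lit 40, nat_lit 80, nat_lit 3, nat_lit 373, nat_lit 150, nat_lit 14]⟩, ⟨p098_k7, nat_lit 0, nat_lit 0, nat_lit 80, nat_lit 0, nat_lit 0, [nat_lit 2032000000, nat_lit 4688000000, nat_lit 6250000000], [], [nat_lit 17048362793,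 nat_lit 18099452081, nat_lit 32381953256, nat_lit 33013927852, nat_lit 21294869918, nat_lit 22145382239, nat_lit 33835288670, nat_lit 34351190197], nat_lit 0, nat_lit 0, nat_lit 0, nat_lit 0, nat_lit 0, nat_lit 0, [], [nat_lit 6, nat_lit 40, nat_lit 40, nat_lit 80, nat_lit 3, nat_lit 401, nat_lit 175, nat_lit 14]⟩,
 zbF0, [⟨nat_lit 7, nat_lit 100, nat_lit 79, nat_lit 72, nat_lit 724639958⟩]⟩
noncomputable def p098_l128 : Lf2 := ⟨nat_lit 0, nat_lit 1, [nat_lit 19, nat_lit 5, nat_lit 5, nat_lit 20], false, nat_lit 160, nat_lit 232, nat_lit 160, nat_lit 232, ⟨nat_lit 1000, nat_lit 0, nat_lit 0, nat_lit 0, nat_lit 0, nat_lit 0, nat_lit 0, nat_lit 0, nat_lit 0, nat_lit 0, nat_lit 0, nat_lit 0, nat_lit 0, nat_lit 0, nat_lit 0, nat_lit 0, false, false⟩,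
 nat_lit 0, nat_lit 8982, nat_lit 0, nat_lit 0, nat_lit 6736, nat_lit 3954, nat_lit 0, nat_lit 0, nat_lit 0, nat_lit 0, nat_lit 0, nat_lit 0, nat_lit 0, nat_lit 0, nat_lit 0, nat_lit 0, nat_lit 0, nat_lit 0, [],
 ⟨p098_k22, nat_lit 0, nat_lit 0, nat_lit 398, nat_lit 0, nat_lit 1237179, [nat_lit 2032000001, nat_lit 3282000000], [], [nat_lit 18266719490, nat_lit 18522872998, nat_lit 19828907360, nat_lit 20333407140, nat_lit 19602687050, nat_lit 19827714201, nat_lit 22264723975, nat_lit 22715729925], nat_lit 1271250, nat_lit 1271250, nat_lit 936251, nat_lit 1773750, nat_lit 1100001, nat_lit 1716500, [nat_lit 490000, nat_lit 780000], [nat_lit 112, nat_lit 40, nat_lit 40, nat_lit 80, nat_lit 113, nat_lit 203, nat_lit 0, nat_lit 10]⟩, ⟨p098_k22, nat_lit 0, nat_lit 0, nat_lit 14, nat_lit 0, nat_lit 0, [nat_lit 2032000000, nat_lit 3282000000], [], [nat_lit 16036876188, nat_lit 16468621159, nat_lit 19367347448, nat_lit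 19728028858, nat_lit 18739289344, nat_lit 19116762492, nat_lit 21581658402, nat_lit 21916741890], nat_lit 0, nat_lit 0, nat_lit 0, nat_lit 0, nat_lit 0, nat_lit 0, [], [nat_lit 112, nat_lit 40, nat_lit 40, nat_lit 80, nat_lit 113, nat_lit 203, nat_lit 0, nat_lit 10]⟩,
 zbF0, [⟨nat_lit 0, nat_lit 80, nat_lit 80, nat_lit 100, nat_lit 264445749⟩, ⟨nat_lit 16, nat_lit 79, nat_lit 100, nat_lit 66, nat_lit 206748589⟩, ⟨nat_lit 16, nat_lit 81, nat_lit 100, nat_lit 72, nat_lit 318697888⟩, ⟨nat_lit 7, nat_lit 100, nat_lit 79, nat_lit 66, nat_lit 742141447⟩]⟩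
noncomputable def p098_l129 : Lf2 := ⟨nat_lit 0, nat_lit 2, [nat_lit 10, nat_lit 5, nat_lit 5, nat_lit 20], false, nat_lit 160, nat_lit 232, nat_lit 160, nat_lit 232, ⟨nat_lit 1000, nat_lit 0, nat_lit 0, nat_lit 0, nat_lit 0, nat_lit 0, nat_lit 0, nat_lit 0, nat_lit 0, nat_lit 0, nat_lit 0, nat_lit 0, nat_lit 0, nat_lit 0, nat_lit 0, nat_lit 0, false, false⟩,
 nat_lit 0, nat_lit 9038, nat_lit 0, nat_lit 0, nat_lit 6778, nat_lit 3972, nat_lit 0, nat_lit 0, nat_lit 0, nat_lit 0, nat_lit 0, nat_lit 0, nat_lit 0, nat_lit 0, nat_lit 0, nat_lit 0, nat_lit 0, nat_lit 0, [],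
 ⟨p098_k23, nat_lit 0, nat_lit 0, nat_lit 436, nat_lit 0, nat_lit 1176316, [nat_lit 2032000001, nat_lit 4688000000], [], [nat_lit 25110980696, nat_lit 25362338922, nat_lit 26409480176, nat_lit 26619467834, nat_lit 26271951360, nat_lit 26492066831, nat_lit 27223143544, nat_lit 27406849259], nat_lit 1271250, nat_lit 1271250, nat_lit 936251, nat_lit 1773750, nat_lit 1100001, nat_lit 1716500, [nat_lit 490000, nat_lit 1100000], [nat_lit 24, nat_lit 40, nat_lit 40, nat_lit 80, nat_lit 33, nat_lit 272, nat_lit 60, nat_lit 11]⟩, ⟨p098_k23, nat_lit 0, nat_lit 0, nat_lit 14, nat_lit 0, nat_lit 0, [nat_lit 2032000000, nat_lit 4688000000], [], [nat_lit 16022580984, nat_lit 16455410662, nat_lit 19355575664, nat_lit 19717101544, nat_lit 18727896305, nat_lit 19121039745, nat_lit 21586077949, nat_lit 21921911474], nat_lit 0, nat_lit 0, nat_lit 0, nat_lit 0, nat_lit 0, nat_lit 0, [], [nat_lit 24, nat_lit 40, nat_lit 40, nat_lit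 80, nat_lit 33, nat_lit 272, nat_lit 60, nat_lit 11]⟩,
 zbF0, [⟨nat_lit 0, nat_lit 80, nat_lit 80, nat_lit 100, nat_lit 391900773⟩, ⟨nat_lit 16, nat_lit 79, nat_lit 100, nat_lit 66, nat_lit 539894555⟩, ⟨nat_lit 7, nat_lit 100, nat_lit 79, nat_lit 66, nat_lit 744469384⟩]⟩
noncomputable def p098_l130 : Lf2 := ⟨nat_lit 0, nat_lit 5, [nat_lit 4, nat_lit 5, nat_lit 5, nat_lit 20], false, nat_lit 160, nat_lit 232, nat_lit 160, nat_lit 232, ⟨nat_lit 1000, nat_lit 0, nat_lit 0, nat_lit 0, nat_lit 0, nat_lit 0, nat_lit 0, nat_lit 0, nat_lit 0, nat_lit 0, nat_lit 0, nat_lit 0, nat_lit 0, nat_lit 0, nat_lit 0, nat_lit 0, false, false⟩,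
 nat_lit 0, nat_lit 8947, nat_lit 0, nat_lit 0, nat_lit 6710, nat_lit 3972, nat_lit 513, nat_lit 0, nat_lit 0, nat_lit 0, nat_lit 0, nat_lit 0, nat_lit 0, nat_lit 0, nat_lit 0, nat_lit 0, nat_lit 0, nat_lit 0, [],
 ⟨p098_k13, nat_lit 0, nat_lit 0, nat_lit 500, nat_lit 0, nat_lit 1140398, [nat_lit 2032000001, nat_lit 4688000000, nat_lit 6250000000], [], [nat_lit 25419229400, nat_lit 25652477890, nat_lit 26707538320, nat_lit 26916576630, nat_lit 26566172522, nat_lit 26785257394, nat_lit 27526780924, nat_lit 27709749105], nat_lit 1271250, nat_lit 1271250, nat_lit 936251, nat_lit 1773750, nat_lit 1100001, nat_lit 1716500, [nat_lit 490000, nat_lit 1100000, nat_lit 1442500], [nat_lit 6, nat_lit 40, nat_lit 40, nat_lit 80, nat_lit 3, nat_lit 345, nat_lit 125, nat_lit 12]⟩, ⟨p098_k13, nat_lit 0, nat_lit 0, nat_lit 21, nat_lit 0, nat_lit 0, [nat_lit 2032000000, nat_lit 4688000000, nat_lit 6250000000], [], [nat_lit 16022580984,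 nat_lit 16455410662, nat_lit 19355575664, nat_lit 19717101544, nat_lit 18727896305, nat_lit 19121039745, nat_lit 21586077949, nat_lit 21921911474], nat_lit 0, nat_lit 0, nat_lit 0, nat_lit 0, nat_lit 0, nat_lit 0, [], [nat_lit 6, nat_lit 40, nat_lit 40, nat_lit 80, nat_lit 3, nat_lit 345, nat_lit 125, nat_lit 12]⟩,
 zbF0, [⟨nat_lit 0, nat_lit 80, nat_lit 80, nat_lit 100, nat_lit 391344200⟩, ⟨nat_lit 16, nat_lit 79, nat_lit 100, nat_lit 66, nat_lit 540319063⟩, ⟨nat_lit 7, nat_lit 100, nat_lit 79, nat_lit 66, nat_lit 744469384⟩]⟩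
noncomputable def p098_l131 : Lf2 := ⟨nat_lit 0, nat_lit 10, [nat_lit 0, nat_lit 5, nat_lit 5, nat_lit 20], false, nat_lit 160, nat_lit 232, nat_lit 160, nat_lit 232, ⟨nat_lit 1000, nat_lit 0, nat_lit 0, nat_lit 0, nat_lit 0, nat_lit 0, nat_lit 0, nat_lit 0, nat_lit 0, nat_lit 0, nat_lit 0, nat_lit 0, nat_lit 0, nat_lit 0, nat_lit 0, nat_lit 0, false, false⟩,
 nat_lit 0, nat_lit 8946, nat_lit 0, nat_lit 0, nat_lit 6709, nat_lit 3954, nat_lit 513, nat_lit 0, nat_lit 0, nat_lit 0, nat_lit 0, nat_lit 0, nat_lit 0, nat_lit 0, nat_lit 0, nat_lit 0, nat_lit 0, nat_lit 0, [],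
 ⟨p098_k7, nat_lit 0, nat_lit 0, nat_lit 436, nat_lit 0, nat_lit 1008312, [nat_lit 2032000001, nat_lit 4688000000, nat_lit 6250000000], [], [nat_lit 23367710294, nat_lit 23629894582, nat_lit 24812090476, nat_lit 25063894433, nat_lit 24606610123, nat_lit 24852682310, nat_lit 25905032297, nat_lit 26125323393], nat_lit 1271250, nat_lit 1271250, nat_lit 936251, nat_lit 1773750, nat_lit 1100001, nat_lit 1716500, [nat_lit 490000, nat_lit 1100000, nat_lit 1442500], [nat_lit 6, nat_lit 40, nat_lit 40, nat_lit 80, nat_lit 3, nat_lit 345, nat_lit 125, nat_lit 12]⟩, ⟨p098_k7, nat_lit 0, nat_lit 0, nat_lit 21, nat_lit 0, nat_lit 0, [nat_lit 2032000000, nat_lit 4688000000, nat_lit 6250000000], [], [nat_lit 16036876188, nat_lit 16468621159, nat_lit 19367347448, nat_lit 19728028858, nat_lit 18739289344, nat_lit 19116762492, nat_lit 21581658402, nat_lit 21916741890], nat_lit 0, nat_lit 0, nat_lit 0, nat_lit 0, nat_lit 0, nat_lit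 0, [], [nat_lit 6, nat_lit 40, nat_lit 40, nat_lit 80, nat_lit 3, nat_lit 345, nat_lit 125, nat_lit 12]⟩,
 zbF0, [⟨nat_lit 0, nat_lit 80, nat_lit 80, nat_lit 100, nat_lit 378166636⟩, ⟨nat_lit 16, nat_lit 79, nat_lit 100, nat_lit 66, nat_lit 552366593⟩, ⟨nat_lit 7, nat_lit 100, nat_lit 79, nat_lit 66, nat_lit 742141447⟩]⟩
noncomputable def p098_l132 : Lf2 := ⟨nat_lit 0, nat_lit 1, [nat_lit 19, nat_lit 5, nat_lit 5, nat_lit 20], false, nat_lit 160, nat_lit 260, nat_lit 160, nat_lit 260, ⟨nat_lit 1000, nat_lit 0, nat_lit 0, nat_lit 0, nat_lit 0, nat_lit 0, nat_lit 0, nat_lit 0, nat_lit 0, nat_lit 0, nat_lit 0, nat_lit 0, nat_lit 0, nat_lit 0, nat_lit 0, nat_lit 0, false, false⟩,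
 nat_lit 0, nat_lit 8668, nat_lit 0, nat_lit 0, nat_lit 6501, nat_lit 3889, nat_lit 0, nat_lit 0, nat_lit 0, nat_lit 0, nat_lit 0, nat_lit 0, nat_lit 0, nat_lit 0, nat_lit 0, nat_lit 0, nat_lit 0, nat_lit 0, [],
 ⟨p098_k22, nat_lit 0, nat_lit 0, nat_lit 345, nat_lit 0, nat_lit 1088826, [nat_lit 2032000001, nat_lit 3282000000], [], [nat_lit 19229903667, nat_lit 19501684105, nat_lit 20955588609, nat_lit 21183671998, nat_lit 21503216994, nat_lit 21728677719, nat_lit 23625846299, nat_lit 24038564032], nat_lit 1271250, nat_lit 1271250, nat_lit 936251, nat_lit 1773750, nat_lit 1100001, nat_lit 1956250, [nat_lit 490000, nat_lit 780000], [nat_lit 112, nat_lit 40, nat_lit 40, nat_lit 80, nat_lit 113, nat_lit 203, nat_lit 0, nat_lit 10]⟩, ⟨p098_k22, nat_lit 0, nat_lit 0, nat_lit 19, nat_lit 0, nat_lit 0, [nat_lit 2032000000, nat_lit 3282000000], [], [nat_lit 16088497758, nat_lit 16516325732, nat_lit 19409856668, nat_lit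 19767488603, nat_lit 20135931844, nat_lit 20488307624, nat_lit 22740903311, nat_lit 23054247178], nat_lit 0, nat_lit 0, nat_lit 0, nat_lit 0, nat_lit 0, nat_lit 0, [], [nat_lit 112, nat_lit 40, nat_lit 40, nat_lit 80, nat_lit 113, nat_lit 203, nat_lit 0, nat_lit 10]⟩,
 zbF0, [⟨nat_lit 0, nat_lit 80, nat_lit 80, nat_lit 100, nat_lit 363921713⟩, ⟨nat_lit 16, nat_lit 83, nat_lit 100, nat_lit 83, nat_lit 466286528⟩, ⟨nat_lit 19, nat_lit 83, nat_lit 100, nat_lit 83, nat_lit 543248654⟩]⟩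
noncomputable def p098_l133 : Lf2 := ⟨nat_lit 0, nat_lit 2, [nat_lit 10, nat_lit 5, nat_lit 5, nat_lit 20], false, nat_lit 160, nat_lit 260, nat_lit 160, nat_lit 260, ⟨nat_lit 1000, nat_lit 0, nat_lit 0, nat_lit 0, nat_lit 0, nat_lit 0, nat_lit 0, nat_lit 0, nat_lit 0, nat_lit 0, nat_lit 0, nat_lit 0, nat_lit 0, nat_lit 0, nat_lit 0, nat_lit 0, false, false⟩,
 nat_lit 0, nat_lit 10235, nat_lit 0, nat_lit 0, nat_lit 7676, nat_lit 3889, nat_lit 0, nat_lit 0, nat_lit 0, nat_lit 0, nat_lit 0, nat_lit 0, nat_lit 0, nat_lit 0, nat_lit 0, nat_lit 0, nat_lit 0, nat_lit 0, [],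
 ⟨p098_k23, nat_lit 0, nat_lit 0, nat_lit 372, nat_lit 0, nat_lit 1025980, [nat_lit 2032000001, nat_lit 4688000000], [], [nat_lit 21264067232, nat_lit 21532390474, nat_lit 22473359392, nat_lit 22695884028, nat_lit 23099921152, nat_lit 23319521815, nat_lit 24023935124, nat_lit 24481355879], nat_lit 1271250, nat_lit 1271250, nat_lit 936251, nat_lit 1773750, nat_lit 1100001, nat_lit 1956250, [nat_lit 490000, nat_lit 1100000], [nat_lit 24, nat_lit 40, nat_lit 40, nat_lit 80, nat_lit 33, nat_lit 272, nat_lit 60, nat_lit 11]⟩, ⟨p098_k23, nat_lit 0, nat_lit 0, nat_lit 19, nat_lit 0, nat_lit 0, [nat_lit 2032000000, nat_lit 4688000000], [], [nat_lit 16088497758, nat_lit 16516325732, nat_lit 19409856668, nat_lit 19767488603, nat_lit 20135931844, nat_lit 20488307624, nat_lit 22740903311, nat_lit 23054247178], nat_lit 0, nat_lit 0, nat_lit 0, nat_lit 0, nat_lit 0, nat_lit 0, [], [nat_lit 24, nat_lit 40, nat_lit 40, nat_lit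 80, nat_lit 33, nat_lit 272, nat_lit 60, nat_lit 11]⟩,
 zbF0, [⟨nat_lit 0, nat_lit 80, nat_lit 80, nat_lit 100, nat_lit 400029771⟩, ⟨nat_lit 16, nat_lit 81, nat_lit 100, nat_lit 78, nat_lit 473616673⟩, ⟨nat_lit 7, nat_lit 100, nat_lit 81, nat_lit 78, nat_lit 646538153⟩]⟩
noncomputable def p098_l134 : Lf2 := ⟨nat_lit 0, nat_lit 5, [nat_lit 4, nat_lit 5, nat_lit 5, nat_lit 20], false, nat_lit 160, nat_lit 260, nat_lit 160, nat_lit 260, ⟨nat_lit 1000, nat_lit 0, nat_lit 0, nat_lit 0, nat_lit 0, nat_lit 0, nat_lit 0, nat_lit 0, nat_lit 0, nat_lit 0, nat_lit 0, nat_lit 0, nat_lit 0, nat_lit 0, nat_lit 0, nat_lit 0, false, false⟩,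
 nat_lit 0, nat_lit 9974, nat_lit 0, nat_lit 0, nat_lit 7480, nat_lit 3889, nat_lit 484, nat_lit 0, nat_lit 0, nat_lit 0, nat_lit 0, nat_lit 0, nat_lit 0, nat_lit 0, nat_lit 0, nat_lit 0, nat_lit 0, nat_lit 0, [],
 ⟨p098_k13, nat_lit 0, nat_lit 0, nat_lit 427, nat_lit 0, nat_lit 986437, [nat_lit 2032000001, nat_lit 4688000000, nat_lit 6250000000], [], [nat_lit 20644381200, nat_lit 20942976990, nat_lit 22091867680, nat_lit 22339572700, nat_lit 22768894720, nat_lit 23013255228, nat_lit 23957530520, nat_lit 24407494430], nat_lit 1271250, nat_lit 1271250, nat_lit 936251, nat_lit 1773750, nat_lit 1100001, nat_lit 1956250, [nat_lit 490000, nat_lit 1100000, nat_lit 1442500], [nat_lit 6, nat_lit 40, nat_lit 40, nat_lit 80, nat_lit 3, nat_lit 345, nat_lit 125, nat_lit 12]⟩, ⟨p098_k13, nat_lit 0, nat_lit 0, nat_lit 28, nat_lit 0, nat_lit 0, [nat_lit 2032000000, nat_lit 4688000000, nat_lit 6250000000], [], [nat_lit 16088497758,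 nat_lit 16516325732, nat_lit 19409856668, nat_lit 19767488603, nat_lit 20135931844, nat_lit 20488307624, nat_lit 22740903311, nat_lit 23054247178], nat_lit 0, nat_lit 0, nat_lit 0, nat_lit 0, nat_lit 0, nat_lit 0, [], [nat_lit 6, nat_lit 40, nat_lit 40, nat_lit 80, nat_lit 3, nat_lit 345, nat_lit 125, nat_lit 12]⟩,
 zbF0, [⟨nat_lit 0, nat_lit 80, nat_lit 80, nat_lit 100, nat_lit 406358061⟩, ⟨nat_lit 16, nat_lit 81, nat_lit 100, nat_lit 78, nat_lit 496025382⟩, ⟨nat_lit 7, nat_lit 100, nat_lit 81, nat_lit 78, nat_lit 621678694⟩]⟩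
noncomputable def p098_l135 : Lf2 := ⟨nat_lit 0, nat_lit 10, [nat_lit 0, nat_lit 5, nat_lit 5, nat_lit 20], false, nat_lit 160, nat_lit 260, nat_lit 160, nat_lit 260, ⟨nat_lit 1000, nat_lit 0, nat_lit 0, nat_lit 0, nat_lit 0, nat_lit 0, nat_lit 0, nat_lit 0, nat_lit 0, nat_lit 0, nat_lit 0, nat_lit 0, nat_lit 0, nat_lit 0, nat_lit 0, nat_lit 0, false, false⟩,
 nat_lit 0, nat_lit 9919, nat_lit 0, nat_lit 0, nat_lit 7439, nat_lit 3889, nat_lit 485, nat_lit 0, nat_lit 0, nat_lit 0, nat_lit 0, nat_lit 0, nat_lit 0, nat_lit 0, nat_lit 0, nat_lit 0, nat_lit 0, nat_lit 0, [],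
 ⟨p098_k7, nat_lit 0, nat_lit 0, nat_lit 359, nat_lit 0, nat_lit 848325, [nat_lit 2032000001, nat_lit 4688000000, nat_lit 6250000000], [], [nat_lit 20969233474, nat_lit 21246116130, nat_lit 22237057824, nat_lit 22484073060, nat_lit 22910787009, nat_lit 23154560830, nat_lit 23943639761, nat_lit 24392043821], nat_lit 1271250, nat_lit 1271250, nat_lit 936251, nat_lit 1773750, nat_lit 1100001, nat_lit 1956250, [nat_lit 490000, nat_lit 1100000, nat_lit 1442500], [nat_lit 6, nat_lit 40, nat_lit 40, nat_lit 80, nat_lit 3, nat_lit 345, nat_lit 125, nat_lit 12]⟩, ⟨p098_k7, nat_lit 0, nat_lit 0, nat_lit 28, nat_lit 0, nat_lit 0, [nat_lit 2032000000, nat_lit 4688000000, nat_lit 6250000000], [], [nat_lit 16088497758, nat_lit 16516325732, nat_lit 19409856668, nat_lit 19767488603, nat_lit 20135931844, nat_lit 20488307624, nat_lit 22740903311, nat_lit 23054247178], nat_lit 0, nat_lit 0, nat_lit 0, nat_lit 0, nat_lit 0, nat_lit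 0, [], [nat_lit 6, nat_lit 40, nat_lit 40, nat_lit 80, nat_lit 3, nat_lit 345, nat_lit 125, nat_lit 12]⟩,
 zbF0, [⟨nat_lit 0, nat_lit 80, nat_lit 80, nat_lit 100, nat_lit 404186421⟩, ⟨nat_lit 16, nat_lit 81, nat_lit 100, nat_lit 78, nat_lit 483204219⟩, ⟨nat_lit 7, nat_lit 100, nat_lit 81, nat_lit 78, nat_lit 636439421⟩]⟩
noncomputable def p098_l136 : Lf2 := ⟨nat_lit 0, nat_lit 10, [nat_lit 0, nat_lit 5, nat_lit 5, nat_lit 20], false, nat_lit 160, nat_lit 232, nat_lit 160, nat_lit 232, ⟨nat_lit 1000, nat_lit 0, nat_lit 0, nat_lit 0, nat_lit 0, nat_lit 0, nat_lit 0, nat_lit 0, nat_lit 0, nat_lit 0, nat_lit 0, nat_lit 0, nat_lit 0, nat_lit 0, nat_lit 0, nat_lit 0, false, false⟩,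
 nat_lit 0, nat_lit 8388, nat_lit 0, nat_lit 0, nat_lit 6290, nat_lit 5542, nat_lit 432, nat_lit 0, nat_lit 0, nat_lit 0, nat_lit 0, nat_lit 0, nat_lit 0, nat_lit 0, nat_lit 0, nat_lit 0, nat_lit 0, nat_lit 0, [],
 ⟨p098_k7, nat_lit 0, nat_lit 0, nat_lit 548, nat_lit 0, nat_lit 1306230, [nat_lit 2032000001, nat_lit 4688000000, nat_lit 6250000000], [], [nat_lit 30972618802, nat_lit 31108787517, nat_lit 34960656840, nat_lit 35072433455, nat_lit 31453749743, nat_lit 31581472139, nat_lit 35035388016, nat_lit 35132519751], nat_lit 1271250, nat_lit 1271250, nat_lit 1271250, nat_lit 1271250, nat_lit 1100001, nat_lit 1716500, [nat_lit 490000, nat_lit 1100000, nat_lit 1442500], [nat_lit 6, nat_lit 40, nat_lit 40, nat_lit 80, nat_lit 3, nat_lit 272, nat_lit 60, nat_lit 9]⟩, ⟨p098_k7, nat_lit 0, nat_lit 0, nat_lit 79, nat_lit 0, nat_lit 0, [nat_lit 2032000000, nat_lit 4688000000, nat_lit 6250000000], [], [nat_lit 21302533056,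 nat_lit 21691519112, nat_lit 30899588512, nat_lit 31147569270, nat_lit 23359125843, nat_lit 23698641113, nat_lit 31760487666, nat_lit 32011920140], nat_lit 0, nat_lit 0, nat_lit 0, nat_lit 0, nat_lit 0, nat_lit 0, [], [nat_lit 6, nat_lit 40, nat_lit 40, nat_lit 80, nat_lit 3, nat_lit 272, nat_lit 60, nat_lit 9]⟩,
 zbF0, [⟨nat_lit 16, nat_lit 79, nat_lit 100, nat_lit 66, nat_lit 452377108⟩, ⟨nat_lit 19, nat_lit 79, nat_lit 100, nat_lit 66, nat_lit 630746591⟩]⟩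
noncomputable def p098_l137 : Lf2 := ⟨nat_lit 0, nat_lit 10, [nat_lit 0, nat_lit 5, nat_lit 5, nat_lit 20], false, nat_lit 160, nat_lit 260, nat_lit 160, nat_lit 260, ⟨nat_lit 1000, nat_lit 0, nat_lit 0, nat_lit 0, nat_lit 0, nat_lit 0, nat_lit 0, nat_lit 0, nat_lit 0, nat_lit 0, nat_lit 0, nat_lit 0, nat_lit 0, nat_lit 0, nat_lit 0, nat_lit 0, false, false⟩,
 nat_lit 0, nat_lit 8014, nat_lit 0, nat_lit 0, nat_lit 6010, nat_lit 6235, nat_lit 441, nat_lit 0, nat_lit 0, nat_lit 0, nat_lit 0, nat_lit 0, nat_lit 0, nat_lit 0, nat_lit 0, nat_lit 0, nat_lit 0, nat_lit 0, [],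
 ⟨p098_k7, nat_lit 0, nat_lit 0, nat_lit 482, nat_lit 0, nat_lit 1147770, [nat_lit 2032000001, nat_lit 4688000000, nat_lit 6250000000], [], [nat_lit 30173222282, nat_lit 30324178307, nat_lit 34727701080, nat_lit 34860653455, nat_lit 31223142302, nat_lit 31367421480, nat_lit 35260508170, nat_lit 35369950684], nat_lit 1271250, nat_lit 1271250, nat_lit 1271250, nat_lit 1271250, nat_lit 1100001, nat_lit 1956250, [nat_lit 490000, nat_lit 1100000, nat_lit 1442500], [nat_lit 6, nat_lit 40, nat_lit 40, nat_lit 80, nat_lit 3, nat_lit 289, nat_lit 75, nat_lit 9]⟩, ⟨p098_k7, nat_lit 0, nat_lit 0, nat_lit 79, nat_lit 0, nat_lit 0, [nat_lit 2032000000, nat_lit 4688000000, nat_lit 6250000000], [], [nat_lit 20667168480, nat_lit 21084164210, nat_lit 31733930840, nat_lit 32037221310, nat_lit 23941296915, nat_lit 24281606992, nat_lit 33254042050, nat_lit 33502860126], nat_lit 0, nat_lit 0, nat_lit 0, nat_lit 0, nat_lit 0, nat_lit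 0, [], [nat_lit 6, nat_lit 40, nat_lit 40, nat_lit 80, nat_lit 3, nat_lit 289, nat_lit 75, nat_lit 9]⟩,
 zbF0, [⟨nat_lit 4, nat_lit 100, nat_lit 81, nat_lit 78, nat_lit 372484717⟩, ⟨nat_lit 7, nat_lit 100, nat_lit 81, nat_lit 78, nat_lit 448169256⟩]⟩
noncomputable def p098_l138 : Lf2 := ⟨nat_lit 0, nat_lit 10, [nat_lit 0, nat_lit 5, nat_lit 5, nat_lit 20], false, nat_lit 160, nat_lit 252, nat_lit 160, nat_lit 260, ⟨nat_lit 1000, nat_lit 0, nat_lit 0, nat_lit 0, nat_lit 0, nat_lit 0, nat_lit 0, nat_lit 0, nat_lit 0, nat_lit 0, nat_lit 0, nat_lit 0, nat_lit 0, nat_lit 0, nat_lit 0, nat_lit 0, false, false⟩,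
 nat_lit 0, nat_lit 8078, nat_lit 0, nat_lit 0, nat_lit 6177, nat_lit 5513, nat_lit 2891, nat_lit 0, nat_lit 0, nat_lit 0, nat_lit 0, nat_lit 0, nat_lit 0, nat_lit 0, nat_lit 0, nat_lit 0, nat_lit 0, nat_lit 0, [],
 ⟨p098_k15, nat_lit 0, nat_lit 0, nat_lit 611, nat_lit 0, nat_lit 1393360, [nat_lit 2032000001, nat_lit 4688000000, nat_lit 6250000000], [], [nat_lit 21281099406, nat_lit 21433041424, nat_lit 31962665442, nat_lit 32264523196, nat_lit 22104475589, nat_lit 22232856674, nat_lit 33638552752, nat_lit 33444731916], nat_lit 1271250, nat_lit 1271250, nat_lit 1000851, nat_lit 3130250, nat_lit 1100001, nat_lit 1887750, [nat_lit 490000, nat_lit 1100000, nat_lit 1442500], [nat_lit 6, nat_lit 40, nat_lit 40, nat_lit 80, nat_lit 3, nat_lit 401, nat_lit 175, nat_lit 14]⟩, ⟨p098_k7, nat_lit 0, nat_lit 0, nat_lit 80, nat_lit 0, nat_lit 0, [nat_lit 2032000000, nat_lit 4688000000, nat_lit 6250000000], [], [nat_lit 18308826694,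 nat_lit 19233364784, nat_lit 30900935968, nat_lit 31395743342, nat_lit 22283661143, nat_lit 23038146337, nat_lit 32437582790, nat_lit 32909562130], nat_lit 0, nat_lit 0, nat_lit 0, nat_lit 0, nat_lit 0, nat_lit 0, [], [nat_lit 6, nat_lit 40, nat_lit 40, nat_lit 80, nat_lit 3, nat_lit 401, nat_lit 175, nat_lit 14]⟩,
 zbF0, [⟨nat_lit 4, nat_lit 100, nat_lit 77, nat_lit 72, nat_lit 453449243⟩, ⟨nat_lit 7, nat_lit 100, nat_lit 79, nat_lit 72, nat_lit 557662949⟩]⟩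
noncomputable def b_V_800_800_10_11 : St := ⟨true, nat_lit 1, nat_lit 0, nat_lit 2, nat_lit 80, nat_lit 320, nat_lit 330, nat_lit 320, nat_lit 330, nat_lit 140, nat_lit 400, nat_lit 40, nat_lit 80, nat_lit 0, nat_lit 260, nat_lit 160, nat_lit 260, nat_lit 0, nat_lit 40, nat_lit 0, nat_lit 0, nat_lit 0, nat_lit 0⟩
theorem d_V_800_800_10_11 (h : EB TB.env) : Dead b_V_800_800_10_11 := chkB_sound0 h (T :=
(.spl (nat_lit 4) (nat_lit 160)
(.spl (nat_lit 0) (nat_lit 325)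
(.ord (.spl (nat_lit 2) (nat_lit 240)
(.spl (nat_lit 3) (nat_lit 60)
(.trX (nat_lit 19) (nat_lit 81) (nat_lit 100) (nat_lit 72) (nat_lit 232) (.spl (nat_lit 6) (nat_lit 20)
(.spl (nat_lit 4) (nat_lit 80)
(.leaf p098_l121)
(.leaf p098_l122))
(.leaf p098_l123)))
(.leaf p098_l124))
(.spl (nat_lit 3) (nat_lit 60)
(.trX (nat_lit 19) (nat_lit 81) (nat_lit 100) (nat_lit 72) (nat_lit 232) (.leaf p098_l125))
(.leaf p098_l126))))
(.trZ (nat_lit 0) (nat_lit 83) (nat_lit 81) (nat_lit 100) (nat_lit 148) (.leaf p098_l127)))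
(.spl (nat_lit 0) (nat_lit 325)
(.ord (.spl (nat_lit 2) (nat_lit 240)
(.spl (nat_lit 3) (nat_lit 60)
(.trX (nat_lit 16) (nat_lit 81) (nat_lit 100) (nat_lit 72) (nat_lit 232) (.trX (nat_lit 19) (nat_lit 81) (nat_lit 100) (nat_lit 72) (nat_lit 232) (.spl (nat_lit 6) (nat_lit 20)
(.spl (nat_lit 6) (nat_lit 8)
(.spl (nat_lit 6) (nat_lit 4)
(.leaf p098_l128)
(.leaf p098_l129))
(.leaf p098_l130))
(.leaf p098_l131))))
(.spl (nat_lit 6) (nat_lit 20)
(.spl (nat_lit 6) (nat_lit 8)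
(.spl (nat_lit 6) (nat_lit 4)
(.leaf p098_l132)
(.leaf p098_l133))
(.leaf p098_l134))
(.leaf p098_l135)))
(.spl (nat_lit 3) (nat_lit 60)
(.trX (nat_lit 16) (nat_lit 81) (nat_lit 100) (nat_lit 72) (nat_lit 232) (.trX (nat_lit 19) (nat_lit 81) (nat_lit 100) (nat_lit 72) (nat_lit 232) (.leaf p098_l136)))
(.leaf p098_l137))))
(.trZ (nat_lit 0) (nat_lit 83) (nat_lit 81) (nat_lit 100) (nat_lit 148) (.trX (nat_lit 16) (nat_lit 81) (nat_lit 100) (nat_lit 83) (nat_lit 252) (.leaf p098_l138)))))) (by decide +kernel)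
noncomputable def p098_l139 : Lf2 := ⟨nat_lit 0, nat_lit 10, [nat_lit 0, nat_lit 5, nat_lit 5, nat_lit 20], false, nat_lit 0, nat_lit 244, nat_lit 0, nat_lit 260, ⟨nat_lit 1000, nat_lit 0, nat_lit 0, nat_lit 0, nat_lit 0, nat_lit 0, nat_lit 0, nat_lit 0, nat_lit 0, nat_lit 0, nat_lit 0, nat_lit 0, nat_lit 0, nat_lit 0, nat_lit 0, nat_lit 0, false, false⟩,
 nat_lit 0, nat_lit 7086, nat_lit 0, nat_lit 0, nat_lit 5523, nat_lit 5839, nat_lit 1945, nat_lit 0, nat_lit 0, nat_lit 580, nat_lit 0, nat_lit 0, nat_lit 0, nat_lit 7629778779575, nat_lit 0, nat_lit 0, nat_lit 0, nat_lit 0, [],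
 ⟨p098_k8, nat_lit 0, nat_lit 0, nat_lit 752, nat_lit 0, nat_lit 1522961, [nat_lit 2032000001, nat_lit 4688000000, nat_lit 6250000000], [], [nat_lit 24291986581, nat_lit 24646712124, nat_lit 25532383898, nat_lit 25886213055, nat_lit 24478041811, nat_lit 24772892302, nat_lit 25251523778, nat_lit 25508351202], nat_lit 1271250, nat_lit 1271250, nat_lit 1066650, nat_lit 1782750, nat_lit 0, nat_lit 1723250, [nat_lit 490000, nat_lit 1100000, nat_lit 1442500], [nat_lit 6, nat_lit 40, nat_lit 40, nat_lit 80, nat_lit 3, nat_lit 345, nat_lit 125, nat_lit 13]⟩, ⟨p098_k7, nat_lit 0, nat_lit 0, nat_lit 126, nat_lit 0, nat_lit 0, [nat_lit 2032000000, nat_lit 4688000000, nat_lit 6250000000], [], [nat_lit 21596714540, nat_lit 23693872008, nat_lit 24655713056, nat_lit 26427289444, nat_lit 22201882772, nat_lit 23635800832, nat_lit 24259804071, nat_lit 25572869197], nat_lit 0, nat_lit 0, nat_lit 0, nat_lit 0, nat_lit 0, nat_lit 0,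 [], [nat_lit 6, nat_lit 40, nat_lit 40, nat_lit 80, nat_lit 3, nat_lit 345, nat_lit 125, nat_lit 13]⟩,
 zbF0, [⟨nat_lit 0, nat_lit 71, nat_lit 71, nat_lit 100, nat_lit 588810605⟩, ⟨nat_lit 4, nat_lit 100, nat_lit 74, nat_lit 72, nat_lit 298843159⟩, ⟨nat_lit 7, nat_lit 100, nat_lit 76, nat_lit 72, nat_lit 282258586⟩]⟩
noncomputable def p098_l140 : Lf2 := ⟨nat_lit 0, nat_lit 10, [nat_lit 0, nat_lit 5, nat_lit 5, nat_lit 20], false, nat_lit 0, nat_lit 244, nat_lit 0, nat_lit 260, ⟨nat_lit 1000, nat_lit 0, nat_lit 0, nat_lit 0, nat_lit 0, nat_lit 0, nat_lit 0, nat_lit 0, nat_lit 0, nat_lit 0, nat_lit 0, nat_lit 0, nat_lit 0, nat_lit 0, nat_lit 0, nat_lit 0, false, false⟩,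
 nat_lit 0, nat_lit 6515, nat_lit 0, nat_lit 0, nat_lit 5078, nat_lit 6762, nat_lit 1771, nat_lit 0, nat_lit 0, nat_lit 498, nat_lit 0, nat_lit 0, nat_lit 0, nat_lit 0, nat_lit 0, nat_lit 0, nat_lit 0, nat_lit 0, [],
 ⟨p098_k8, nat_lit 0, nat_lit 0, nat_lit 698, nat_lit 0, nat_lit 1439738, [nat_lit 2032000001, nat_lit 4688000000, nat_lit 6250000000], [], [nat_lit 28921232443, nat_lit 29092549144, nat_lit 36104718420, nat_lit 36416611146, nat_lit 28966207041, nat_lit 29091935768, nat_lit 32092654589, nat_lit 32181298903], nat_lit 1271250, nat_lit 1271250, nat_lit 1271250, nat_lit 1271250, nat_lit 0, nat_lit 1723250, [nat_lit 490000, nat_lit 1100000, nat_lit 1442500], [nat_lit 6, nat_lit 40, nat_lit 40, nat_lit 80, nat_lit 3, nat_lit 297, nat_lit 75, nat_lit 11]⟩, ⟨p098_k7, nat_lit 0, nat_lit 0, nat_lit 175, nat_lit 0, nat_lit 0, [nat_lit 2032000000, nat_lit 4688000000, nat_lit 6250000000], [], [nat_lit 25537577760,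 nat_lit 27397299111, nat_lit 40192354072, nat_lit 41277404734, nat_lit 24147159520, nat_lit 24983273036, nat_lit 33849989460, nat_lit 34624534698], nat_lit 0, nat_lit 0, nat_lit 0, nat_lit 0, nat_lit 0, nat_lit 0, [], [nat_lit 6, nat_lit 40, nat_lit 40, nat_lit 80, nat_lit 3, nat_lit 289, nat_lit 75, nat_lit 10]⟩,
 zbF0, [⟨nat_lit 16, nat_lit 75, nat_lit 100, nat_lit 72, nat_lit 148195987⟩, ⟨nat_lit 7, nat_lit 100, nat_lit 77, nat_lit 72, nat_lit 85237381⟩]⟩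
noncomputable def p098_l141 : Lf2 := ⟨nat_lit 0, nat_lit 10, [nat_lit 0, nat_lit 5, nat_lit 5, nat_lit 20], false, nat_lit 0, nat_lit 240, nat_lit 0, nat_lit 260, ⟨nat_lit 1000, nat_lit 0, nat_lit 0, nat_lit 0, nat_lit 0, nat_lit 0, nat_lit 0, nat_lit 0, nat_lit 0, nat_lit 0, nat_lit 0, nat_lit 0, nat_lit 0, nat_lit 0, nat_lit 0, nat_lit 0, false, false⟩,
 nat_lit 0, nat_lit 5976, nat_lit 0, nat_lit 0, nat_lit 4747, nat_lit 6669, nat_lit 1534, nat_lit 0, nat_lit 0, nat_lit 513, nat_lit 0, nat_lit 0, nat_lit 0, nat_lit 24819486614487, nat_lit 0, nat_lit 0, nat_lit 0, nat_lit 0, [],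
 ⟨p098_k11, nat_lit 0, nat_lit 0, nat_lit 717, nat_lit 0, nat_lit 1483820, [nat_lit 2032000001, nat_lit 4688000000, nat_lit 6250000000], [], [nat_lit 31059135840, nat_lit 31230984025, nat_lit 35631851874, nat_lit 35767433578, nat_lit 31488853861, nat_lit 31630201436, nat_lit 35027174495, nat_lit 35128640524], nat_lit 1271250, nat_lit 1271250, nat_lit 1271250, nat_lit 1271250, nat_lit 0, nat_lit 1695000, [nat_lit 490000, nat_lit 1100000, nat_lit 1442500], [nat_lit 6, nat_lit 40, nat_lit 40, nat_lit 80, nat_lit 3, nat_lit 302, nat_lit 60, nat_lit 11]⟩, ⟨p098_k7, nat_lit 0, nat_lit 0, nat_lit 176, nat_lit 0, nat_lit 0, [nat_lit 2032000000, nat_lit 4688000000, nat_lit 6250000000], [], [nat_lit 25400265120, nat_lit 27856930586, nat_lit 39932162764, nat_lit 41367898056, nat_lit 24261538240, nat_lit 25442604356, nat_lit 33744822270, nat_lit 34770939604], nat_lit 0, nat_lit 0, nat_lit 0, nat_lit 0, nat_lit 0, nat_lit 0,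 [], [nat_lit 6, nat_lit 40, nat_lit 40, nat_lit 80, nat_lit 3, nat_lit 289, nat_lit 75, nat_lit 10]⟩,
 zbF0, [⟨nat_lit 4, nat_lit 100, nat_lit 73, nat_lit 71, nat_lit 294585695⟩, ⟨nat_lit 7, nat_lit 100, nat_lit 76, nat_lit 72, nat_lit 80416301⟩]⟩
noncomputable def b_V_800_800_10_12 : St := ⟨true, nat_lit 1, nat_lit 0, nat_lit 2, nat_lit 80, nat_lit 330, nat_lit 340, nat_lit 320, nat_lit 340, nat_lit 140, nat_lit 400, nat_lit 40, nat_lit 80, nat_lit 0, nat_lit 260, nat_lit 0, nat_lit 260, nat_lit 0, nat_lit 40, nat_lit 0, nat_lit 0, nat_lit 0, nat_lit 0⟩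
theorem d_V_800_800_10_12 (h : EB TB.env) : Dead b_V_800_800_10_12 := chkB_sound0 h (T :=
(.trZ (nat_lit 0) (nat_lit 82) (nat_lit 78) (nat_lit 100) (nat_lit 156) (.trX (nat_lit 16) (nat_lit 78) (nat_lit 100) (nat_lit 82) (nat_lit 244) (.spl (nat_lit 2) (nat_lit 240)
(.leaf p098_l139)
(.spl (nat_lit 0) (nat_lit 335)
(.ord (.leaf p098_l140))
(.trX (nat_lit 16) (nat_lit 75) (nat_lit 100) (nat_lit 81) (nat_lit 240) (.leaf p098_l141))))))) (by decide +kernel)
noncomputable def p098_l142 : Lf2 := ⟨nat_lit 0, nat_lit 10, [nat_lit 0, nat_lit 5, nat_lit 5, nat_lit 20], false, nat_lit 0, nat_lit 232, nat_lit 0, nat_lit 260, ⟨nat_lit 1000, nat_lit 0, nat_lit 0, nat_lit 0, nat_lit 0, nat_lit 0, nat_lit 0, nat_lit 0, nat_lit 0, nat_lit 0, nat_lit 0, nat_lit 0, nat_lit 0, nat_lit 0, nat_lit 0, nat_lit 0, false, false⟩,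
 nat_lit 0, nat_lit 5692, nat_lit 0, nat_lit 0, nat_lit 4607, nat_lit 7111, nat_lit 1354, nat_lit 0, nat_lit 0, nat_lit 543, nat_lit 0, nat_lit 0, nat_lit 0, nat_lit 0, nat_lit 0, nat_lit 0, nat_lit 0, nat_lit 0, [],
 ⟨p098_k9, nat_lit 0, nat_lit 0, nat_lit 713, nat_lit 0, nat_lit 1432047, [nat_lit 2032000001, nat_lit 4688000000, nat_lit 6250000000], [], [nat_lit 29163102018, nat_lit 29616049611, nat_lit 35672442063, nat_lit 35960163816, nat_lit 30305755884, nat_lit 30646278584, nat_lit 35121696979, nat_lit 35340818783], nat_lit 1271250, nat_lit 1271250, nat_lit 1167600, nat_lit 3171500, nat_lit 0, nat_lit 1638500, [nat_lit 490000, nat_lit 1100000, nat_lit 1442500], [nat_lit 6, nat_lit 40, nat_lit 40, nat_lit 80, nat_lit 3, nat_lit 401, nat_lit 175, nat_lit 15]⟩, ⟨p098_k7, nat_lit 0, nat_lit 0, nat_lit 174, nat_lit 0, nat_lit 0, [nat_lit 2032000000, nat_lit 4688000000, nat_lit 6250000000], [], [nat_lit 22496658274,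 nat_lit 24001790295, nat_lit 41168770916, nat_lit 41912775790, nat_lit 21862782834, nat_lit 22521306557, nat_lit 34244649130, nat_lit 34773414599], nat_lit 0, nat_lit 0, nat_lit 0, nat_lit 0, nat_lit 0, nat_lit 0, [], [nat_lit 6, nat_lit 40, nat_lit 40, nat_lit 80, nat_lit 3, nat_lit 401, nat_lit 175, nat_lit 15]⟩,
 zbF0, [⟨nat_lit 4, nat_lit 100, nat_lit 69, nat_lit 71, nat_lit 380157645⟩, ⟨nat_lit 19, nat_lit 79, nat_lit 100, nat_lit 72, nat_lit 84268055⟩]⟩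
noncomputable def p098_l143 : Lf2 := ⟨nat_lit 0, nat_lit 10, [nat_lit 0, nat_lit 5, nat_lit 5, nat_lit 20], false, nat_lit 0, nat_lit 232, nat_lit 0, nat_lit 244, ⟨nat_lit 1000, nat_lit 0, nat_lit 0, nat_lit 0, nat_lit 0, nat_lit 0, nat_lit 0, nat_lit 0, nat_lit 0, nat_lit 0, nat_lit 0, nat_lit 0, nat_lit 0, nat_lit 0, nat_lit 0, nat_lit 0, false, false⟩,
 nat_lit 0, nat_lit 5820, nat_lit 0, nat_lit 0, nat_lit 4711, nat_lit 6108, nat_lit 1145, nat_lit 0, nat_lit 0, nat_lit 840, nat_lit 0, nat_lit 0, nat_lit 0, nat_lit 0, nat_lit 0, nat_lit 0, nat_lit 0, nat_lit 0, [],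
 ⟨p098_k9, nat_lit 0, nat_lit 0, nat_lit 743, nat_lit 0, nat_lit 1516830, [nat_lit 2032000001, nat_lit 4688000000, nat_lit 6250000000], [], [nat_lit 30443319773, nat_lit 30820424466, nat_lit 35995176346, nat_lit 36265804650, nat_lit 31011909551, nat_lit 31296622453, nat_lit 35334199813, nat_lit 35539620620], nat_lit 1271250, nat_lit 1271250, nat_lit 1271250, nat_lit 1271250, nat_lit 0, nat_lit 1638500, [nat_lit 490000, nat_lit 1100000, nat_lit 1442500], [nat_lit 6, nat_lit 40, nat_lit 40, nat_lit 80, nat_lit 3, nat_lit 401, nat_lit 175, nat_lit 15]⟩, ⟨p098_k8, nat_lit 0, nat_lit 0, nat_lit 176, nat_lit 0, nat_lit 0, [nat_lit 2032000000, nat_lit 4688000000, nat_lit 6250000000], [], [nat_lit 22957019248, nat_lit 24280693680, nat_lit 39047315120, nat_lit 39732008592, nat_lit 21705825563, nat_lit 22365881697, nat_lit 33125869816, nat_lit 33638119354], nat_lit 0, nat_lit 0, nat_lit 0, nat_lit 0, nat_lit 0, nat_lit 0,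 [], [nat_lit 6, nat_lit 40, nat_lit 40, nat_lit 80, nat_lit 3, nat_lit 401, nat_lit 175, nat_lit 15]⟩,
 zbF0, [⟨nat_lit 16, nat_lit 69, nat_lit 100, nat_lit 71, nat_lit 355784538⟩, ⟨nat_lit 7, nat_lit 100, nat_lit 74, nat_lit 72, nat_lit 129653386⟩]⟩
noncomputable def p098_l144 : Lf2 := ⟨nat_lit 0, nat_lit 10, [nat_lit 0, nat_lit 5, nat_lit 5, nat_lit 20], false, nat_lit 0, nat_lit 216, nat_lit 0, nat_lit 260, ⟨nat_lit 1000, nat_lit 0, nat_lit 0, nat_lit 0, nat_lit 0, nat_lit 0, nat_lit 0, nat_lit 0, nat_lit 0, nat_lit 0, nat_lit 0, nat_lit 0, nat_lit 0, nat_lit 0, nat_lit 0, nat_lit 0, false, false⟩,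
 nat_lit 0, nat_lit 5567, nat_lit 0, nat_lit 0, nat_lit 4676, nat_lit 6929, nat_lit 1327, nat_lit 0, nat_lit 0, nat_lit 524, nat_lit 0, nat_lit 0, nat_lit 0, nat_lit 0, nat_lit 0, nat_lit 0, nat_lit 0, nat_lit 0, [],
 ⟨p098_k16, nat_lit 0, nat_lit 0, nat_lit 664, nat_lit 0, nat_lit 1511868, [nat_lit 2032000001, nat_lit 4688000000], [], [nat_lit 30819341903, nat_lit 31232665896, nat_lit 36486700990, nat_lit 36756809054, nat_lit 31368259190, nat_lit 31687582710, nat_lit 35688220440, nat_lit 35898757363], nat_lit 1271250, nat_lit 1271250, nat_lit 1271250, nat_lit 1271250, nat_lit 0, nat_lit 1525500, [nat_lit 490000, nat_lit 1100000], [nat_lit 24, nat_lit 40, nat_lit 40, nat_lit 80, nat_lit 33, nat_lit 288, nat_lit 60, nat_lit 13]⟩, ⟨p098_k7, nat_lit 0, nat_lit 0, nat_lit 176, nat_lit 0, nat_lit 0, [nat_lit 2032000000, nat_lit 4688000000, nat_lit 6250000000], [], [nat_lit 23076074258, nat_lit 25717039953, nat_lit 40659579324,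 nat_lit 42126064296, nat_lit 22512169005, nat_lit 23773198925, nat_lit 34038838070, nat_lit 35083433994], nat_lit 0, nat_lit 0, nat_lit 0, nat_lit 0, nat_lit 0, nat_lit 0, [], [nat_lit 6, nat_lit 40, nat_lit 40, nat_lit 80, nat_lit 3, nat_lit 401, nat_lit 175, nat_lit 15]⟩,
 zbF0, [⟨nat_lit 4, nat_lit 100, nat_lit 63, nat_lit 72, nat_lit 376277895⟩, ⟨nat_lit 7, nat_lit 100, nat_lit 76, nat_lit 72, nat_lit 87660300⟩]⟩
noncomputable def b_V_800_800_10_13 : St := ⟨true, nat_lit 1, nat_lit 0, nat_lit 2, nat_lit 80, nat_lit 340, nat_lit 360, nat_lit 320, nat_lit 340, nat_lit 140, nat_lit 400, nat_lit 40, nat_lit 80, nat_lit 0, nat_lit 260, nat_lit 0, nat_lit 260, nat_lit 0, nat_lit 40, nat_lit 0, nat_lit 0, nat_lit 0, nat_lit 0⟩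
theorem d_V_800_800_10_13 (h : EB TB.env) : Dead b_V_800_800_10_13 := chkB_sound0 h (T :=
(.trZ (nat_lit 0) (nat_lit 81) (nat_lit 72) (nat_lit 100) (nat_lit 168) (.trX (nat_lit 16) (nat_lit 72) (nat_lit 100) (nat_lit 81) (nat_lit 232) (.spl (nat_lit 0) (nat_lit 350)
(.spl (nat_lit 1) (nat_lit 330)
(.leaf p098_l142)
(.trZ (nat_lit 0) (nat_lit 76) (nat_lit 72) (nat_lit 100) (nat_lit 180) (.trX (nat_lit 19) (nat_lit 78) (nat_lit 100) (nat_lit 82) (nat_lit 244) (.leaf p098_l143))))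
(.trZ (nat_lit 0) (nat_lit 80) (nat_lit 66) (nat_lit 100) (nat_lit 184) (.trX (nat_lit 16) (nat_lit 66) (nat_lit 100) (nat_lit 80) (nat_lit 216) (.leaf p098_l144))))))) (by decide +kernel)
noncomputable def p098_l145 : Lf2 := ⟨nat_lit 0, nat_lit 10, [nat_lit 0, nat_lit 5, nat_lit 5, nat_lit 20], false, nat_lit 0, nat_lit 260, nat_lit 0, nat_lit 260, ⟨nat_lit 896, nat_lit 104, nat_lit 0, nat_lit 8, nat_lit 250, nat_lit 104, nat_lit 89, nat_lit 0, nat_lit 0, nat_lit 0, nat_lit 0, nat_lit 0, nat_lit 0, nat_lit 0, nat_lit 0, nat_lit 5000000, false, false⟩,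
 nat_lit 9259, nat_lit 0, nat_lit 0, nat_lit 0, nat_lit 6943, nat_lit 6943, nat_lit 366, nat_lit 0, nat_lit 0, nat_lit 389, nat_lit 0, nat_lit 0, nat_lit 0, nat_lit 0, nat_lit 0, nat_lit 104000, nat_lit 0, nat_lit 0, [(nat_lit 18, [(nat_lit 2, nat_lit 104)]), (nat_lit 21, [(nat_lit 2, nat_lit 104)])],
 ⟨p098_k7, nat_lit 0, nat_lit 0, nat_lit 507, nat_lit 0, nat_lit 927203, [nat_lit 1997666134, nat_lit 4309162667, nat_lit 5553907200], [], [nat_lit 27926710533, nat_lit 27997549693, nat_lit 27148480461, nat_lit 30853460444, nat_lit 24446505539, nat_lit 26042216568, nat_lit 28387731549, nat_lit 27211864880], nat_lit 1271250, nat_lit 1271250, nat_lit 936251, nat_lit 1773750, nat_lit 0, nat_lit 1836250, [nat_lit 490000, nat_lit 1100000, nat_lit 1442500], [nat_lit 6, nat_lit 40, nat_lit 40, nat_lit 80, nat_lit 3, nat_lit 345, nat_lit 125, nat_lit 13]⟩, ⟨p098_k7, nat_lit 0, nat_lit 0, nat_lit 502, nat_lit 0, nat_lit 927203,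 [nat_lit 1820672000, nat_lit 4200448000, nat_lit 5600000000], [], [nat_lit 25384006350, nat_lit 23487886795, nat_lit 24187244160, nat_lit 26627324478, nat_lit 20472849720, nat_lit 21207190360, nat_lit 24662512699, nat_lit 23196904781], nat_lit 1271250, nat_lit 1271250, nat_lit 936251, nat_lit 1773750, nat_lit 0, nat_lit 1836250, [nat_lit 490000, nat_lit 1100000, nat_lit 1442500], [nat_lit 6, nat_lit 40, nat_lit 40, nat_lit 80, nat_lit 3, nat_lit 345, nat_lit 125, nat_lit 13]⟩,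
 ⟨nat_lit 3162, nat_lit 4473, ⟨.ofNat (nat_lit 526772), .ofNat (nat_lit 696911), .ofNat (nat_lit 548248), .ofNat (nat_lit 718387), .ofNat (nat_lit 540839), .ofNat (nat_lit 693416), .ofNat (nat_lit 562904), .ofNat (nat_lit 715481)⟩, ⟨.negSucc (nat_lit 12437), .ofNat (nat_lit 429433), .ofNat (nat_lit 0), .ofNat (nat_lit 472567), .ofNat (nat_lit 0), .ofNat (nat_lit 414188), .ofNat (nat_lit 0), .ofNat (nat_lit 458499)⟩⟩, [⟨nat_lit 0, nat_lit 76, nat_lit 72, nat_lit 100, nat_lit 223352243⟩, ⟨nat_lit 4, nat_lit 100, nat_lit 71, nat_lit 71, nat_lit 219845585⟩, ⟨nat_lit 7, nat_lit 100, nat_lit 76, nat_lit 72, nat_lit 131038314⟩]⟩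
noncomputable def p098_l146 : Lf2 := ⟨nat_lit 0, nat_lit 10, [nat_lit 0, nat_lit 5, nat_lit 5, nat_lit 20], false, nat_lit 0, nat_lit 260, nat_lit 0, nat_lit 260, ⟨nat_lit 1000, nat_lit 0, nat_lit 0, nat_lit 0, nat_lit 0, nat_lit 0, nat_lit 0, nat_lit 0, nat_lit 0, nat_lit 0, nat_lit 0, nat_lit 0, nat_lit 0, nat_lit 0, nat_lit 0, nat_lit 0, false, false⟩,
 nat_lit 8389, nat_lit 0, nat_lit 0, nat_lit 0, nat_lit 6291, nat_lit 6291, nat_lit 478, nat_lit 0, nat_lit 0, nat_lit 427, nat_lit 0, nat_lit 0, nat_lit 0, nat_lit 0, nat_lit 0, nat_lit 0, nat_lit 0, nat_lit 0, [],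
 ⟨p098_k7, nat_lit 0, nat_lit 0, nat_lit 493, nat_lit 0, nat_lit 927203, [nat_lit 2032000001, nat_lit 4688000000, nat_lit 6250000000], [], [nat_lit 31192000220, nat_lit 32951992128, nat_lit 38874610996, nat_lit 41656670972, nat_lit 29945743028, nat_lit 31291861798, nat_lit 34043839147, nat_lit 35315873143], nat_lit 1271250, nat_lit 1271250, nat_lit 1271250, nat_lit 1271250, nat_lit 0, nat_lit 1836250, [nat_lit 490000, nat_lit 1100000, nat_lit 1442500], [nat_lit 6, nat_lit 40, nat_lit 40, nat_lit 80, nat_lit 3, nat_lit 289, nat_lit 75, nat_lit 10]⟩, ⟨p098_k7, nat_lit 0, nat_lit 0, nat_lit 491, nat_lit 0, nat_lit 927203, [nat_lit 2032000000, nat_lit 4688000000, nat_lit 6250000000], [], [nat_lit 31600000220, nat_lit 32450263354, nat_lit 38874610996, nat_lit 40265640984, nat_lit 29990639303, nat_lit 30618802413, nat_lit 34043839147, nat_lit 34484027348], nat_lit 1271250, nat_lit 1271250, nat_lit 1271250, nat_lit 1271250,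 nat_lit 0, nat_lit 1836250, [nat_lit 490000, nat_lit 1100000, nat_lit 1442500], [nat_lit 6, nat_lit 40, nat_lit 40, nat_lit 80, nat_lit 3, nat_lit 289, nat_lit 75, nat_lit 10]⟩,
 zbF0, [⟨nat_lit 4, nat_lit 100, nat_lit 71, nat_lit 71, nat_lit 275645451⟩, ⟨nat_lit 7, nat_lit 100, nat_lit 76, nat_lit 72, nat_lit 108921957⟩]⟩
noncomputable def b_V_800_800_10_14 : St := ⟨true, nat_lit 1, nat_lit 1, nat_lit 2, nat_lit 80, nat_lit 320, nat_lit 360, nat_lit 320, nat_lit 340, nat_lit 140, nat_lit 400, nat_lit 40, nat_lit 80, nat_lit 0, nat_lit 260, nat_lit 0, nat_lit 260, nat_lit 0, nat_lit 40, nat_lit 0, nat_lit 0, nat_lit 0, nat_lit 0⟩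
theorem d_V_800_800_10_14 (h : EB TB.env) : Dead b_V_800_800_10_14 := chkB_sound0 h (T :=
(.spl (nat_lit 2) (nat_lit 240)
(.leaf p098_l145)
(.leaf p098_l146))) (by decide +kernel)

end B2
end Pool.Agent.Lib.MP_6947cd_al
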