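import Pool.Agent.Lib.MP_6947cd_al.ZB.Pre

/-!
Problem MP_6947cd_al (Chollet).  Case B, second entry in [2/5, 17/20]: certificates of the tree, part P099 (generated).
-/

set_option autoImplicit false
set_option linter.all false

namespace Pool.Agent.Lib.MP_6947cd_al
namespace B2

open Ent Fr B1 PkA

noncomputable def p099_k0 : C1.Kn := ⟨[nat_lit 40, nat_lit 80, nat_lit 140], [nat_lit 0, nat_lit 0, nat_lit 3199], [(nat_lit 0, nat_lit 0, nat_lit 0), (nat_lit 0, nat_lit 0, nat_lit 0), (nat_lit 1000, nat_lit 833, nat_lit 833)], (nat_lit 83, nat_lit 100, nat_lit 83)⟩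
noncomputable def p099_k1 : C1.Kn := ⟨[nat_lit 40, nat_lit 80, nat_lit 140], [nat_lit 0, nat_lit 395, nat_lit 3500], [(nat_lit 0, nat_lit 0, nat_lit 0), (nat_lit 1000, nat_lit 908, nat_lit 154), (nat_lit 1000, nat_lit 776, nat_lit 808)], (nat_lit 78, nat_lit 100, nat_lit 82)⟩
noncomputable def p099_k2 : C1.Kn := ⟨[nat_lit 40, nat_lit 80, nat_lit 120], [nat_lit 0, nat_lit 795, nat_lit 2800], [(nat_lit 0, nat_lit 0, nat_lit 0), (nat_lit 1000, nat_lit 814, nat_lit 310), (nat_lit 1000, nat_lit 719, nat_lit 783)], (nat_lit 72, nat_lit 100, nat_lit 81)⟩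
noncomputable def p099_k3 : C1.Kn := ⟨[nat_lit 40, nat_lit 80, nat_lit 120], [nat_lit 0, nat_lit 1195, nat_lit 3135], [(nat_lit 0, nat_lit 0, nat_lit 0), (nat_lit 1000, nat_lit 720, nat_lit 465), (nat_lit 1000, nat_lit 661, nat_lit 757)], (nat_lit 66, nat_lit 100, nat_lit 80)⟩
noncomputable def p099_k4 : C1.Kn := ⟨[nat_lit 40, nat_lit 80, nat_lit 120], [nat_lit 0, nat_lit 795, nat_lit 2800], [(nat_lit 0, nat_lit 0, nat_lit 0), (nat_lit 1000, nat_lit 814, nat_lit 310), (nat_lit 1000, nat_lit 719, nat_lit 783)], (nat_lit 71, nat_lit 100, nat_lit 71)⟩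
noncomputable def p099_k5 : C1.Kn := ⟨[nat_lit 40, nat_lit 80, nat_lit 120], [nat_lit 0, nat_lit 0, nat_lit 2151], [(nat_lit 0, nat_lit 0, nat_lit 0), (nat_lit 0, nat_lit 0, nat_lit 0), (nat_lit 1000, nat_lit 815, nat_lit 753)], (nat_lit 81, nat_lit 100, nat_lit 72)⟩
noncomputable def p099_k6 : C1.Kn := ⟨[nat_lit 40, nat_lit 80, nat_lit 100], [nat_lit 0, nat_lit 1195, nat_lit 2166], [(nat_lit 0, nat_lit 0, nat_lit 0), (nat_lit 1000, nat_lit 720, nat_lit 465), (nat_lit 1000, nat_lit 662, nat_lit 740)], (nat_lit 66, nat_lit 100, nat_lit 72)⟩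
noncomputable def p099_k7 : C1.Kn := ⟨[nat_lit 40, nat_lit 120], [nat_lit 0, nat_lit 1589], [(nat_lit 0, nat_lit 0, nat_lit 0), (nat_lit 1000, nat_lit 814, nat_lit 310)], (nat_lit 72, nat_lit 100, nat_lit 81)⟩
noncomputable def p099_k8 : C1.Kn := ⟨[nat_lit 40, nat_lit 140], [nat_lit 0, nat_lit 0], [(nat_lit 0, nat_lit 0, nat_lit 0), (nat_lit 0, nat_lit 0, nat_lit 0)], (nat_lit 83, nat_lit 100, nat_lit 83)⟩
noncomputable def p099_k9 : C1.Kn := ⟨[nat_lit 40, nat_lit 100, nat_lit 140], [nat_lit 0, nat_lit 0, nat_lit 3243], [(nat_lit 0, nat_lit 0, nat_lit 0), (nat_lit 0, nat_lit 0, nat_lit 0), (nat_lit 1000, nat_lit 870, nat_lit 941)], (nat_lit 83, nat_lit 100, nat_lit 83)⟩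
noncomputable def p099_k10 : C1.Kn := ⟨[nat_lit 40, nat_lit 100, nat_lit 140], [nat_lit 0, nat_lit 592, nat_lit 3606], [(nat_lit 0, nat_lit 0, nat_lit 0), (nat_lit 1000, nat_lit 908, nat_lit 154), (nat_lit 1000, nat_lit 825, nat_lit 971)], (nat_lit 78, nat_lit 100, nat_lit 82)⟩
noncomputable def p099_l0 : Lf2 := ⟨nat_lit 0, nat_lit 20, [nat_lit 5, nat_lit 5, nat_lit 5, nat_lit 20], false, nat_lit 0, nat_lit 160, nat_lit 0, nat_lit 160, ⟨nat_lit 1000, nat_lit 0, nat_lit 0, nat_lit 0, nat_lit 0, nat_lit 0, nat_lit 0, nat_lit 0, nat_lit 0, nat_lit 0, nat_lit 0, nat_lit 0, nat_lit 0, nat_lit 0, nat_lit 0, nat_lit 0, false, false⟩,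
 nat_lit 0, nat_lit 0, nat_lit 8919, nat_lit 0, nat_lit 6594, nat_lit 6689, nat_lit 1022, nat_lit 0, nat_lit 0, nat_lit 737, nat_lit 0, nat_lit 0, nat_lit 0, nat_lit 0, nat_lit 0, nat_lit 0, nat_lit 0, nat_lit 0, [],
 ⟨p099_k0, nat_lit 0, nat_lit 0, nat_lit 176, nat_lit 0, nat_lit 0, [nat_lit 2032000001, nat_lit 4688000000, nat_lit 9842000000], [], [nat_lit 21860393906, nat_lit 22819761617, nat_lit 25289529120, nat_lit 26508602578, nat_lit 17324655982, nat_lit 18134963547, nat_lit 20338025792, nat_lit 21201037376], nat_lit 0, nat_lit 0, nat_lit 0, nat_lit 0, nat_lit 0, nat_lit 0, [], [nat_lit 27, nat_lit 40, nat_lit 40, nat_lit 80, nat_lit 13, nat_lit 317, nat_lit 100, nat_lit 9]⟩, ⟨p099_k0, nat_lit 0, nat_lit 0, nat_lit 628, nat_lit 0, nat_lit 942121, [nat_lit 2032000000, nat_lit 4688000000, nat_lit 9842000000], [], [nat_lit 28570586763, nat_lit 29045053843, nat_lit 29585436741, nat_lit 30074704190, nat_lit 25602052925,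 nat_lit 25996416866, nat_lit 28189706001, nat_lit 27217075946], nat_lit 1271250, nat_lit 1271250, nat_lit 936251, nat_lit 1773750, nat_lit 0, nat_lit 1100001, [nat_lit 490000, nat_lit 1100000, nat_lit 2127500], [nat_lit 27, nat_lit 40, nat_lit 40, nat_lit 80, nat_lit 13, nat_lit 317, nat_lit 100, nat_lit 9]⟩,
 zbF0, [⟨nat_lit 0, nat_lit 77, nat_lit 77, nat_lit 100, nat_lit 380360837⟩]⟩
noncomputable def p099_l1 : Lf2 := ⟨nat_lit 0, nat_lit 20, [nat_lit 5, nat_lit 5, nat_lit 5, nat_lit 20], false, nat_lit 0, nat_lit 160, nat_lit 0, nat_lit 160, ⟨nat_lit 1000, nat_lit 0, nat_lit 0, nat_lit 0, nat_lit 0, nat_lit 0, nat_lit 0, nat_lit 0, nat_lit 0, nat_lit 0, nat_lit 0, nat_lit 0, nat_lit 0, nat_lit 0, nat_lit 0, nat_lit 0, false, false⟩,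
 nat_lit 0, nat_lit 0, nat_lit 9764, nat_lit 0, nat_lit 5709, nat_lit 7323, nat_lit 994, nat_lit 0, nat_lit 0, nat_lit 664, nat_lit 0, nat_lit 0, nat_lit 0, nat_lit 0, nat_lit 0, nat_lit 0, nat_lit 0, nat_lit 0, [],
 ⟨p099_k1, nat_lit 0, nat_lit 0, nat_lit 179, nat_lit 0, nat_lit 0, [nat_lit 2032000001, nat_lit 4688000000, nat_lit 9842000000], [], [nat_lit 21805364933, nat_lit 22989487741, nat_lit 25092658333, nat_lit 26202472346, nat_lit 18148109950, nat_lit 18877508082, nat_lit 20713925086, nat_lit 21515551980], nat_lit 0, nat_lit 0, nat_lit 0, nat_lit 0, nat_lit 0, nat_lit 0, [], [nat_lit 27, nat_lit 40, nat_lit 40, nat_lit 80, nat_lit 13, nat_lit 317, nat_lit 100, nat_lit 9]⟩, ⟨p099_k0, nat_lit 0, nat_lit 0, nat_lit 718, nat_lit 0, nat_lit 1116069, [nat_lit 2032000000, nat_lit 4688000000, nat_lit 9842000000], [], [nat_lit 28242182794, nat_lit 29041901313, nat_lit 28893398308, nat_lit 29798171282, nat_lit 24811695822,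 nat_lit 25469923783, nat_lit 28220609132, nat_lit 26200467296], nat_lit 1271250, nat_lit 1271250, nat_lit 1066650, nat_lit 1782750, nat_lit 0, nat_lit 1100001, [nat_lit 490000, nat_lit 1100000, nat_lit 2127500], [nat_lit 27, nat_lit 40, nat_lit 40, nat_lit 80, nat_lit 13, nat_lit 317, nat_lit 100, nat_lit 9]⟩,
 zbF0, [⟨nat_lit 0, nat_lit 71, nat_lit 71, nat_lit 100, nat_lit 506189606⟩]⟩
noncomputable def p099_l2 : Lf2 := ⟨nat_lit 0, nat_lit 20, [nat_lit 5, nat_lit 5, nat_lit 5, nat_lit 20], false, nat_lit 0, nat_lit 160, nat_lit 0, nat_lit 160, ⟨nat_lit 262, nat_lit 0, nat_lit 738, nat_lit 8, nat_lit 257, nat_lit 738, nat_lit 57, nat_lit 738, nat_lit 30817, nat_lit 258, nat_lit 140796, nat_lit 200, nat_lit 47383011, nat_lit 0, nat_lit 0, nat_lit 3023157, true, false⟩,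
 nat_lit 0, nat_lit 0, nat_lit 2561, nat_lit 0, nat_lit 2998, nat_lit 1920, nat_lit 0, nat_lit 0, nat_lit 0, nat_lit 163, nat_lit 0, nat_lit 0, nat_lit 0, nat_lit 0, nat_lit 37, nat_lit 331800, nat_lit 0, nat_lit 0, [(nat_lit 22, [(nat_lit 5, nat_lit 677), (nat_lit 6, nat_lit 61)])],
 ⟨p099_k2, nat_lit 0, nat_lit 0, nat_lit 159, nat_lit 0, nat_lit 0, [nat_lit 1535300801, nat_lit 1129948400, nat_lit 28924134], [], [nat_lit 19838256504, nat_lit 21156568323, nat_lit 21894057282, nat_lit 23080595384, nat_lit 19713209244, nat_lit 20780918355, nat_lit 21502992399, nat_lit 22456209162], nat_lit 0, nat_lit 0, nat_lit 0, nat_lit 0, nat_lit 0, nat_lit 0, [], [nat_lit 34, nat_lit 40, nat_lit 40, nat_lit 80, nat_lit 7, nat_lit 317, nat_lit 100, nat_lit 10]⟩, ⟨p099_k0, nat_lit 0, nat_lit 0, nat_lit 758, nat_lit 0, nat_lit 1242609, [nat_lit 532384000, nat_lit 1228256000, nat_lit 2578604000], [], [nat_lit 7830787670, nat_lit 7915244267,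 nat_lit 7934495591, nat_lit 8007604557, nat_lit 6936144913, nat_lit 7005185966, nat_lit 7560244847, nat_lit 7136552687], nat_lit 1271250, nat_lit 1271250, nat_lit 1167600, nat_lit 1789500, nat_lit 0, nat_lit 1100001, [nat_lit 490000, nat_lit 1100000, nat_lit 2127500], [nat_lit 27, nat_lit 40, nat_lit 40, nat_lit 80, nat_lit 13, nat_lit 317, nat_lit 100, nat_lit 9]⟩,
 ⟨nat_lit 3162, nat_lit 3873, ⟨.ofNat (nat_lit 578944), .ofNat (nat_lit 695141), .ofNat (nat_lit 589826), .ofNat (nat_lit 706023), .ofNat (nat_lit 583969), .ofNat (nat_lit 693742), .ofNat (nat_lit 595032), .ofNat (nat_lit 704805)⟩, ⟨.ofNat (nat_lit 0), .ofNat (nat_lit 261131), .ofNat (nat_lit 0), .ofNat (nat_lit 304717), .ofNat (nat_lit 0), .ofNat (nat_lit 261806), .ofNat (nat_lit 0), .ofNat (nat_lit 306116)⟩⟩, [⟨nat_lit 0, nat_lit 76, nat_lit 60, nat_lit 100, nat_lit 172036375⟩]⟩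
noncomputable def p099_l3 : Lf2 := ⟨nat_lit 0, nat_lit 20, [nat_lit 5, nat_lit 5, nat_lit 5, nat_lit 20], false, nat_lit 0, nat_lit 160, nat_lit 0, nat_lit 160, ⟨nat_lit 1000, nat_lit 0, nat_lit 0, nat_lit 0, nat_lit 0, nat_lit 0, nat_lit 0, nat_lit 0, nat_lit 0, nat_lit 0, nat_lit 0, nat_lit 0, nat_lit 0, nat_lit 0, nat_lit 0, nat_lit 0, false, false⟩,
 nat_lit 0, nat_lit 0, nat_lit 8232, nat_lit 0, nat_lit 5467, nat_lit 6416, nat_lit 723, nat_lit 0, nat_lit 0, nat_lit 1175, nat_lit 0, nat_lit 0, nat_lit 0, nat_lit 0, nat_lit 0, nat_lit 0, nat_lit 0, nat_lit 0, [],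
 ⟨p099_k2, nat_lit 0, nat_lit 0, nat_lit 159, nat_lit 0, nat_lit 0, [nat_lit 2032000001, nat_lit 4688000000, nat_lit 7968000000], [], [nat_lit 23536451636, nat_lit 25717534556, nat_lit 25785410998, nat_lit 27945285836, nat_lit 20287087802, nat_lit 21778044350, nat_lit 21932949116, nat_lit 23259258780], nat_lit 0, nat_lit 0, nat_lit 0, nat_lit 0, nat_lit 0, nat_lit 0, [], [nat_lit 34, nat_lit 40, nat_lit 40, nat_lit 80, nat_lit 7, nat_lit 317, nat_lit 100, nat_lit 10]⟩, ⟨p099_k1, nat_lit 0, nat_lit 0, nat_lit 755, nat_lit 0, nat_lit 1246790, [nat_lit 2032000000, nat_lit 4688000000, nat_lit 9842000000], [], [nat_lit 24328253649, nat_lit 24772634360, nat_lit 26223813792, nat_lit 27420911904, nat_lit 22014665249, nat_lit 22306760185, nat_lit 22477784769, nat_lit 22738801993], nat_lit 1271250, nat_lit 1271250, nat_lit 1271250, nat_lit 1271250, nat_lit 0, nat_lit 1100001, [nat_lit 490000, nat_lit 1100000, nat_lit 2127500],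 [nat_lit 27, nat_lit 40, nat_lit 40, nat_lit 80, nat_lit 13, nat_lit 317, nat_lit 100, nat_lit 9]⟩,
 zbF0, [⟨nat_lit 0, nat_lit 72, nat_lit 61, nat_lit 100, nat_lit 638181119⟩]⟩
noncomputable def p099_l4 : Lf2 := ⟨nat_lit 0, nat_lit 20, [nat_lit 5, nat_lit 5, nat_lit 5, nat_lit 20], false, nat_lit 0, nat_lit 160, nat_lit 160, nat_lit 260, ⟨nat_lit 1000, nat_lit 0, nat_lit 0, nat_lit 0, nat_lit 0, nat_lit 0, nat_lit 0, nat_lit 0, nat_lit 0, nat_lit 0, nat_lit 0, nat_lit 0, nat_lit 0, nat_lit 0, nat_lit 0, nat_lit 0, false, false⟩,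
 nat_lit 0, nat_lit 0, nat_lit 8050, nat_lit 0, nat_lit 6200, nat_lit 6037, nat_lit 988, nat_lit 0, nat_lit 0, nat_lit 687, nat_lit 0, nat_lit 0, nat_lit 0, nat_lit 0, nat_lit 0, nat_lit 0, nat_lit 0, nat_lit 0, [],
 ⟨p099_k0, nat_lit 0, nat_lit 0, nat_lit 182, nat_lit 0, nat_lit 0, [nat_lit 2032000001, nat_lit 4688000000, nat_lit 9842000000], [], [nat_lit 22032690300, nat_lit 23879101900, nat_lit 24707796000, nat_lit 27048658800, nat_lit 17945303100, nat_lit 19502539500, nat_lit 20699257600, nat_lit 22361582000], nat_lit 0, nat_lit 0, nat_lit 0, nat_lit 0, nat_lit 0, nat_lit 0, [], [nat_lit 27, nat_lit 40, nat_lit 40, nat_lit 80, nat_lit 13, nat_lit 317, nat_lit 100, nat_lit 9]⟩, ⟨p099_k0, nat_lit 0, nat_lit 0, nat_lit 608, nat_lit 0, nat_lit 1116069, [nat_lit 2032000000, nat_lit 4688000000, nat_lit 9842000000], [], [nat_lit 28907974275, nat_lit 29664018048, nat_lit 29726210127, nat_lit 30456341408, nat_lit 30189132612,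 nat_lit 30953839786, nat_lit 31080181196, nat_lit 31743528891], nat_lit 1271250, nat_lit 1271250, nat_lit 936251, nat_lit 1773750, nat_lit 1100001, nat_lit 1956250, [nat_lit 490000, nat_lit 1100000, nat_lit 2127500], [nat_lit 27, nat_lit 40, nat_lit 40, nat_lit 80, nat_lit 13, nat_lit 345, nat_lit 125, nat_lit 9]⟩,
 zbF0, [⟨nat_lit 0, nat_lit 71, nat_lit 71, nat_lit 100, nat_lit 550822235⟩, ⟨nat_lit 7, nat_lit 100, nat_lit 76, nat_lit 72, nat_lit 501183872⟩]⟩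
noncomputable def p099_l5 : Lf2 := ⟨nat_lit 0, nat_lit 20, [nat_lit 5, nat_lit 5, nat_lit 5, nat_lit 20], false, nat_lit 0, nat_lit 160, nat_lit 160, nat_lit 260, ⟨nat_lit 247, nat_lit 0, nat_lit 753, nat_lit 8, nat_lit 257, nat_lit 753, nat_lit 57, nat_lit 753, nat_lit 30817, nat_lit 258, nat_lit 140796, nat_lit 200, nat_lit 47383011, nat_lit 0, nat_lit 0, nat_lit 3023157, true, false⟩,
 nat_lit 0, nat_lit 0, nat_lit 2491, nat_lit 0, nat_lit 2953, nat_lit 1868, nat_lit 0, nat_lit 0, nat_lit 0, nat_lit 154, nat_lit 0, nat_lit 0, nat_lit 0, nat_lit 0, nat_lit 39, nat_lit 324600, nat_lit 0, nat_lit 0, [(nat_lit 22, [(nat_lit 5, nat_lit 714), (nat_lit 6, nat_lit 39)])],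
 ⟨p099_k2, nat_lit 0, nat_lit 0, nat_lit 159, nat_lit 0, nat_lit 0, [nat_lit 1540283201, nat_lit 1113861200, nat_lit 20499200], [], [nat_lit 19765144886, nat_lit 21074551637, nat_lit 21818893178, nat_lit 22991931524, nat_lit 19712571640, nat_lit 20773699753, nat_lit 21501552805, nat_lit 22476337862], nat_lit 0, nat_lit 0, nat_lit 0, nat_lit 0, nat_lit 0, nat_lit 0, [], [nat_lit 34, nat_lit 40, nat_lit 40, nat_lit 80, nat_lit 7, nat_lit 317, nat_lit 100, nat_lit 10]⟩, ⟨p099_k0, nat_lit 0, nat_lit 0, nat_lit 646, nat_lit 0, nat_lit 1242609, [nat_lit 501904000, nat_lit 1157936000, nat_lit 2430974000], [], [nat_lit 5921834951, nat_lit 6002367305, nat_lit 6012812294, nat_lit 6082370881, nat_lit 6105348252, nat_lit 6189759052, nat_lit 6214159494, nat_lit 6289715171], nat_lit 1271250, nat_lit 1271250, nat_lit 1167600, nat_lit 1789500, nat_lit 1100001, nat_lit 1956250, [nat_lit 490000, nat_lit 1100000, nat_lit 2127500],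 [nat_lit 27, nat_lit 40, nat_lit 40, nat_lit 80, nat_lit 13, nat_lit 345, nat_lit 125, nat_lit 9]⟩,
 ⟨nat_lit 3162, nat_lit 3873, ⟨.ofNat (nat_lit 578944), .ofNat (nat_lit 695141), .ofNat (nat_lit 589826), .ofNat (nat_lit 706023), .ofNat (nat_lit 583969), .ofNat (nat_lit 693742), .ofNat (nat_lit 595032), .ofNat (nat_lit 704805)⟩, ⟨.ofNat (nat_lit 0), .ofNat (nat_lit 261131), .ofNat (nat_lit 0), .ofNat (nat_lit 304717), .ofNat (nat_lit 0), .ofNat (nat_lit 261806), .ofNat (nat_lit 0), .ofNat (nat_lit 306116)⟩⟩, [⟨nat_lit 0, nat_lit 76, nat_lit 60, nat_lit 100, nat_lit 166958226⟩, ⟨nat_lit 7, nat_lit 100, nat_lit 79, nat_lit 72, nat_lit 109443975⟩]⟩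
noncomputable def p099_l6 : Lf2 := ⟨nat_lit 0, nat_lit 20, [nat_lit 5, nat_lit 5, nat_lit 5, nat_lit 20], false, nat_lit 0, nat_lit 160, nat_lit 160, nat_lit 244, ⟨nat_lit 1000, nat_lit 0, nat_lit 0, nat_lit 0, nat_lit 0, nat_lit 0, nat_lit 0, nat_lit 0, nat_lit 0, nat_lit 0, nat_lit 0, nat_lit 0, nat_lit 0, nat_lit 0, nat_lit 0, nat_lit 0, false, false⟩,
 nat_lit 0, nat_lit 0, nat_lit 8011, nat_lit 0, nat_lit 5467, nat_lit 6244, nat_lit 723, nat_lit 0, nat_lit 0, nat_lit 1112, nat_lit 0, nat_lit 0, nat_lit 0, nat_lit 0, nat_lit 0, nat_lit 0, nat_lit 0, nat_lit 0, [],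
 ⟨p099_k2, nat_lit 0, nat_lit 0, nat_lit 159, nat_lit 0, nat_lit 0, [nat_lit 2032000001, nat_lit 4688000000, nat_lit 7968000000], [], [nat_lit 23536451636, nat_lit 25717534556, nat_lit 25785410998, nat_lit 27945285836, nat_lit 20287087802, nat_lit 21778044350, nat_lit 21932949116, nat_lit 23259258780], nat_lit 0, nat_lit 0, nat_lit 0, nat_lit 0, nat_lit 0, nat_lit 0, [], [nat_lit 34, nat_lit 40, nat_lit 40, nat_lit 80, nat_lit 7, nat_lit 317, nat_lit 100, nat_lit 10]⟩, ⟨p099_k1, nat_lit 0, nat_lit 0, nat_lit 642, nat_lit 0, nat_lit 1246790, [nat_lit 2032000000, nat_lit 4688000000, nat_lit 9842000000], [], [nat_lit 22512790216, nat_lit 22862216008, nat_lit 23175500264, nat_lit 23488510144, nat_lit 23345607203, nat_lit 23660700498, nat_lit 23870789785, nat_lit 24313988655], nat_lit 1271250, nat_lit 1271250, nat_lit 1271250, nat_lit 1271250, nat_lit 1100001, nat_lit 1819250, [nat_lit 490000, nat_lit 1100000, nat_lit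 2127500], [nat_lit 27, nat_lit 40, nat_lit 40, nat_lit 80, nat_lit 13, nat_lit 345, nat_lit 125, nat_lit 9]⟩,
 zbF0, [⟨nat_lit 0, nat_lit 72, nat_lit 61, nat_lit 100, nat_lit 601322590⟩, ⟨nat_lit 7, nat_lit 100, nat_lit 74, nat_lit 72, nat_lit 479773512⟩]⟩
noncomputable def p099_l7 : Lf2 := ⟨nat_lit 0, nat_lit 20, [nat_lit 5, nat_lit 5, nat_lit 5, nat_lit 20], false, nat_lit 160, nat_lit 260, nat_lit 0, nat_lit 260, ⟨nat_lit 285, nat_lit 715, nat_lit 0, nat_lit 8, nat_lit 250, nat_lit 715, nat_lit 145, nat_lit 0, nat_lit 0, nat_lit 0, nat_lit 0, nat_lit 0, nat_lit 42068614, nat_lit 17529235, nat_lit 7402151, nat_lit 4749364, false, false⟩,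
 nat_lit 0, nat_lit 0, nat_lit 2953, nat_lit 0, nat_lit 3409, nat_lit 2214, nat_lit 0, nat_lit 0, nat_lit 0, nat_lit 349, nat_lit 0, nat_lit 0, nat_lit 0, nat_lit 1646801897790, nat_lit 0, nat_lit 178750, nat_lit 0, nat_lit 0, [(nat_lit 19, [(nat_lit 0, nat_lit 715)]), (nat_lit 22, [(nat_lit 0, nat_lit 715)])],
 ⟨p099_k0, nat_lit 0, nat_lit 0, nat_lit 49, nat_lit 0, nat_lit 0, [nat_lit 1700240001, nat_lit 3029486000, nat_lit 5074554200], [], [nat_lit 16137943199, nat_lit 19329162827, nat_lit 19392010909, nat_lit 22072912789, nat_lit 20046047925, nat_lit 22745616451, nat_lit 22643495983, nat_lit 24938937440], nat_lit 0, nat_lit 0, nat_lit 0, nat_lit 0, nat_lit 0, nat_lit 0, [], [nat_lit 27, nat_lit 40, nat_lit 40, nat_lit 80, nat_lit 13, nat_lit 345, nat_lit 125, nat_lit 9]⟩, ⟨p099_k0, nat_lit 0, nat_lit 0, nat_lit 806, nat_lit 0, nat_lit 1315864, [nat_lit 579120000, nat_lit 1336080000, nat_lit 2804970000], [], [nat_lit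 8251690824, nat_lit 7970629860, nat_lit 7944709200, nat_lit 8479224876, nat_lit 7074989717, nat_lit 7243360286, nat_lit 8688521233, nat_lit 7741162810], nat_lit 1271250, nat_lit 1271250, nat_lit 936251, nat_lit 1773750, nat_lit 0, nat_lit 1836250, [nat_lit 490000, nat_lit 1100000, nat_lit 2127500], [nat_lit 27, nat_lit 40, nat_lit 40, nat_lit 80, nat_lit 13, nat_lit 345, nat_lit 125, nat_lit 10]⟩,
 ⟨nat_lit 3162, nat_lit 4473, ⟨.ofNat (nat_lit 526772), .ofNat (nat_lit 696911), .ofNat (nat_lit 548248), .ofNat (nat_lit 718387), .ofNat (nat_lit 540839), .ofNat (nat_lit 693416), .ofNat (nat_lit 562904), .ofNat (nat_lit 715481)⟩, ⟨.ofNat (nat_lit 259488), .ofNat (nat_lit 429433), .ofNat (nat_lit 302621), .ofNat (nat_lit 472567), .ofNat (nat_lit 261805), .ofNat (nat_lit 414188), .ofNat (nat_lit 306116), .ofNat (nat_lit 458499)⟩⟩, [⟨nat_lit 0, nat_lit 76, nat_lit 72, nat_lit 100, nat_lit 118924904⟩, ⟨nat_lit 16, nat_lit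 71, nat_lit 100, nat_lit 71, nat_lit 270205256⟩, ⟨nat_lit 16, nat_lit 83, nat_lit 100, nat_lit 83, nat_lit 109735395⟩, ⟨nat_lit 19, nat_lit 83, nat_lit 100, nat_lit 83, nat_lit 50551193⟩]⟩
noncomputable def b_V_800_800_10_15 : St := ⟨true, nat_lit 0, nat_lit 1, nat_lit 1, nat_lit 80, nat_lit 320, nat_lit 360, nat_lit 320, nat_lit 340, nat_lit 140, nat_lit 240, nat_lit 40, nat_lit 80, nat_lit 0, nat_lit 260, nat_lit 0, nat_lit 260, nat_lit 40, nat_lit 80, nat_lit 0, nat_lit 0, nat_lit 0, nat_lit 0⟩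
theorem d_V_800_800_10_15 (h : EB TB.env) : Dead b_V_800_800_10_15 := chkB_sound0 h (T :=
(.spl (nat_lit 4) (nat_lit 160)
(.spl (nat_lit 5) (nat_lit 160)
(.spl (nat_lit 0) (nat_lit 340)
(.spl (nat_lit 0) (nat_lit 330)
(.ord (.leaf p099_l0))
(.trZ (nat_lit 0) (nat_lit 82) (nat_lit 78) (nat_lit 100) (nat_lit 156) (.leaf p099_l1)))
(.trZ (nat_lit 0) (nat_lit 81) (nat_lit 72) (nat_lit 100) (nat_lit 168) (.spl (nat_lit 1) (nat_lit 330)
(.leaf p099_l2)
(.trZ (nat_lit 0) (nat_lit 76) (nat_lit 72) (nat_lit 100) (nat_lit 180) (.leaf p099_l3)))))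
(.spl (nat_lit 0) (nat_lit 340)
(.leaf p099_l4)
(.trZ (nat_lit 0) (nat_lit 81) (nat_lit 72) (nat_lit 100) (nat_lit 168) (.spl (nat_lit 1) (nat_lit 330)
(.leaf p099_l5)
(.trZ (nat_lit 0) (nat_lit 76) (nat_lit 72) (nat_lit 100) (nat_lit 180) (.trX (nat_lit 19) (nat_lit 78) (nat_lit 100) (nat_lit 82) (nat_lit 244) (.leaf p099_l6)))))))
(.leaf p099_l7))) (by decide +kernel)
noncomputable def p099_l8 : Lf2 := ⟨nat_lit 0, nat_lit 20, [nat_lit 5, nat_lit 5, nat_lit 5, nat_lit 20], false, nat_lit 0, nat_lit 160, nat_lit 0, nat_lit 260, ⟨nat_lit 1000, nat_lit 0, nat_lit 0, nat_lit 0, nat_lit 0, nat_lit 0, nat_lit 0, nat_lit 0, nat_lit 0, nat_lit 0, nat_lit 0, nat_lit 0, nat_lit 0, nat_lit 0, nat_lit 0, nat_lit 0, false, false⟩,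
 nat_lit 0, nat_lit 0, nat_lit 7902, nat_lit 0, nat_lit 5699, nat_lit 5926, nat_lit 838, nat_lit 0, nat_lit 0, nat_lit 631, nat_lit 0, nat_lit 0, nat_lit 0, nat_lit 0, nat_lit 0, nat_lit 0, nat_lit 0, nat_lit 0, [],
 ⟨p099_k0, nat_lit 0, nat_lit 0, nat_lit 211, nat_lit 0, nat_lit 0, [nat_lit 2032000001, nat_lit 4688000000, nat_lit 9842000000], [], [nat_lit 26613493154, nat_lit 27231868999, nat_lit 37218339444, nat_lit 37878847110, nat_lit 23451799378, nat_lit 23977370272, nat_lit 31548909084, nat_lit 31979716338], nat_lit 0, nat_lit 0, nat_lit 0, nat_lit 0, nat_lit 0, nat_lit 0, [], [nat_lit 27, nat_lit 40, nat_lit 40, nat_lit 80, nat_lit 13, nat_lit 373, nat_lit 150, nat_lit 10]⟩, ⟨p099_k0, nat_lit 0, nat_lit 0, nat_lit 604, nat_lit 0, nat_lit 942121, [nat_lit 2032000000, nat_lit 4688000000, nat_lit 9842000000], [], [nat_lit 33411938819, nat_lit 33788916101, nat_lit 38217196032, nat_lit 38532216010, nat_lit 31710771947,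 nat_lit 31972556059, nat_lit 35624209942, nat_lit 35842733539], nat_lit 1271250, nat_lit 1271250, nat_lit 1271250, nat_lit 1271250, nat_lit 0, nat_lit 1836250, [nat_lit 490000, nat_lit 1100000, nat_lit 2127500], [nat_lit 27, nat_lit 40, nat_lit 40, nat_lit 80, nat_lit 13, nat_lit 401, nat_lit 175, nat_lit 11]⟩,
 zbF0, [⟨nat_lit 7, nat_lit 100, nat_lit 79, nat_lit 72, nat_lit 209452989⟩]⟩
noncomputable def p099_l9 : Lf2 := ⟨nat_lit 0, nat_lit 20, [nat_lit 5, nat_lit 5, nat_lit 5, nat_lit 20], false, nat_lit 0, nat_lit 160, nat_lit 0, nat_lit 160, ⟨nat_lit 1000, nat_lit 0, nat_lit 0, nat_lit 0, nat_lit 0, nat_lit 0, nat_lit 0, nat_lit 0, nat_lit 0, nat_lit 0, nat_lit 0, nat_lit 0, nat_lit 0, nat_lit 0, nat_lit 0, nat_lit 0, false, false⟩,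
 nat_lit 0, nat_lit 0, nat_lit 8359, nat_lit 0, nat_lit 5203, nat_lit 6268, nat_lit 846, nat_lit 0, nat_lit 0, nat_lit 628, nat_lit 0, nat_lit 0, nat_lit 0, nat_lit 33374304123165, nat_lit 0, nat_lit 0, nat_lit 0, nat_lit 0, [],
 ⟨p099_k1, nat_lit 0, nat_lit 0, nat_lit 212, nat_lit 0, nat_lit 0, [nat_lit 2032000001, nat_lit 4688000000, nat_lit 9842000000], [], [nat_lit 25661300303, nat_lit 26251575268, nat_lit 36461829670, nat_lit 37093006872, nat_lit 22921786103, nat_lit 23422852740, nat_lit 30988439044, nat_lit 31544035056], nat_lit 0, nat_lit 0, nat_lit 0, nat_lit 0, nat_lit 0, nat_lit 0, [], [nat_lit 27, nat_lit 40, nat_lit 40, nat_lit 80, nat_lit 13, nat_lit 373, nat_lit 150, nat_lit 10]⟩, ⟨p099_k0, nat_lit 0, nat_lit 0, nat_lit 690, nat_lit 0, nat_lit 1116069, [nat_lit 2032000000, nat_lit 4688000000, nat_lit 9842000000], [], [nat_lit 33971039028, nat_lit 34614453540, nat_lit 38810262608, nat_lit 40198572432,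 nat_lit 31141779268, nat_lit 31679046616, nat_lit 35070722928, nat_lit 35517601160], nat_lit 1271250, nat_lit 1271250, nat_lit 1271250, nat_lit 1271250, nat_lit 0, nat_lit 1100001, [nat_lit 490000, nat_lit 1100000, nat_lit 2127500], [nat_lit 27, nat_lit 40, nat_lit 40, nat_lit 80, nat_lit 13, nat_lit 373, nat_lit 150, nat_lit 10]⟩,
 zbF0, []⟩
noncomputable def p099_l10 : Lf2 := ⟨nat_lit 0, nat_lit 20, [nat_lit 5, nat_lit 5, nat_lit 5, nat_lit 20], false, nat_lit 0, nat_lit 160, nat_lit 160, nat_lit 260, ⟨nat_lit 1000, nat_lit 0, nat_lit 0, nat_lit 0, nat_lit 0, nat_lit 0, nat_lit 0, nat_lit 0, nat_lit 0, nat_lit 0, nat_lit 0, nat_lit 0, nat_lit 0, nat_lit 0, nat_lit 0, nat_lit 0, false, false⟩,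
 nat_lit 0, nat_lit 0, nat_lit 7929, nat_lit 0, nat_lit 5069, nat_lit 5946, nat_lit 846, nat_lit 0, nat_lit 0, nat_lit 658, nat_lit 0, nat_lit 0, nat_lit 0, nat_lit 0, nat_lit 0, nat_lit 0, nat_lit 0, nat_lit 0, [],
 ⟨p099_k1, nat_lit 0, nat_lit 0, nat_lit 212, nat_lit 0, nat_lit 0, [nat_lit 2032000001, nat_lit 4688000000, nat_lit 9842000000], [], [nat_lit 25755709869, nat_lit 26338393064, nat_lit 36079006410, nat_lit 36702259656, nat_lit 23156011269, nat_lit 23654371988, nat_lit 30812879212, nat_lit 31361855088], nat_lit 0, nat_lit 0, nat_lit 0, nat_lit 0, nat_lit 0, nat_lit 0, [], [nat_lit 27, nat_lit 40, nat_lit 40, nat_lit 80, nat_lit 13, nat_lit 373, nat_lit 150, nat_lit 10]⟩, ⟨p099_k0, nat_lit 0, nat_lit 0, nat_lit 582, nat_lit 0, nat_lit 1116069, [nat_lit 2032000000, nat_lit 4688000000, nat_lit 9842000000], [], [nat_lit 30456460666, nat_lit 31058629400, nat_lit 34992142168, nat_lit 35522636468, nat_lit 31574212380,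 nat_lit 32146878683, nat_lit 35537614282, nat_lit 35974833585], nat_lit 1271250, nat_lit 1271250, nat_lit 1271250, nat_lit 1271250, nat_lit 1100001, nat_lit 1956250, [nat_lit 490000, nat_lit 1100000, nat_lit 2127500], [nat_lit 27, nat_lit 40, nat_lit 40, nat_lit 80, nat_lit 13, nat_lit 401, nat_lit 175, nat_lit 10]⟩,
 zbF0, [⟨nat_lit 7, nat_lit 100, nat_lit 76, nat_lit 72, nat_lit 482977313⟩]⟩
noncomputable def p099_l11 : Lf2 := ⟨nat_lit 0, nat_lit 20, [nat_lit 5, nat_lit 5, nat_lit 5, nat_lit 20], false, nat_lit 0, nat_lit 80, nat_lit 0, nat_lit 160, ⟨nat_lit 479, nat_lit 521, nat_lit 0, nat_lit 8, nat_lit 305, nat_lit 521, nat_lit 32, nat_lit 0, nat_lit 0, nat_lit 0, nat_lit 0, nat_lit 0, nat_lit 42359286, nat_lit 24640714, nat_lit 0, nat_lit 3288795, true, false⟩,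
 nat_lit 0, nat_lit 0, nat_lit 4607, nat_lit 0, nat_lit 3537, nat_lit 3455, nat_lit 216, nat_lit 0, nat_lit 0, nat_lit 283, nat_lit 0, nat_lit 0, nat_lit 0, nat_lit 0, nat_lit 0, nat_lit 521000, nat_lit 0, nat_lit 0, [(nat_lit 22, [(nat_lit 2, nat_lit 521)])],
 ⟨p099_k2, nat_lit 0, nat_lit 0, nat_lit 174, nat_lit 0, nat_lit 0, [nat_lit 1699949334, nat_lit 2242634400, nat_lit 1800193600], [], [nat_lit 23648351250, nat_lit 24664215026, nat_lit 26876269616, nat_lit 28249809300, nat_lit 22480711112, nat_lit 23470619674, nat_lit 25438452612, nat_lit 26362548406], nat_lit 0, nat_lit 0, nat_lit 0, nat_lit 0, nat_lit 0, nat_lit 0, [], [nat_lit 34, nat_lit 40, nat_lit 40, nat_lit 80, nat_lit 7, nat_lit 226, nat_lit 20, nat_lit 7]⟩, ⟨p099_k0, nat_lit 0, nat_lit 0, nat_lit 739, nat_lit 0, nat_lit 1242609, [nat_lit 973328000, nat_lit 2245552000, nat_lit 4714318000], [], [nat_lit 14948107187, nat_lit 15081162539, nat_lit 15852111019,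 nat_lit 16272514900, nat_lit 13260856471, nat_lit 13369299473, nat_lit 13900488868, nat_lit 14015318333], nat_lit 1271250, nat_lit 1271250, nat_lit 1271250, nat_lit 1271250, nat_lit 0, nat_lit 1100001, [nat_lit 490000, nat_lit 1100000, nat_lit 2127500], [nat_lit 27, nat_lit 40, nat_lit 40, nat_lit 80, nat_lit 13, nat_lit 345, nat_lit 125, nat_lit 9]⟩,
 ⟨nat_lit 3162, nat_lit 3873, ⟨.ofNat (nat_lit 695141), .ofNat (nat_lit 824248), .ofNat (nat_lit 706023), .ofNat (nat_lit 835131), .ofNat (nat_lit 693742), .ofNat (nat_lit 815713), .ofNat (nat_lit 704805), .ofNat (nat_lit 826777)⟩, ⟨.ofNat (nat_lit 0), .ofNat (nat_lit 132088), .ofNat (nat_lit 0), .ofNat (nat_lit 175674), .ofNat (nat_lit 0), .ofNat (nat_lit 139899), .ofNat (nat_lit 0), .ofNat (nat_lit 184209)⟩⟩, []⟩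
noncomputable def p099_l12 : Lf2 := ⟨nat_lit 0, nat_lit 20, [nat_lit 5, nat_lit 5, nat_lit 5, nat_lit 20], false, nat_lit 0, nat_lit 80, nat_lit 0, nat_lit 160, ⟨nat_lit 1000, nat_lit 0, nat_lit 0, nat_lit 0, nat_lit 0, nat_lit 0, nat_lit 0, nat_lit 0, nat_lit 0, nat_lit 0, nat_lit 0, nat_lit 0, nat_lit 0, nat_lit 0, nat_lit 0, nat_lit 0, false, false⟩,
 nat_lit 0, nat_lit 0, nat_lit 8659, nat_lit 0, nat_lit 3919, nat_lit 6494, nat_lit 742, nat_lit 0, nat_lit 0, nat_lit 566, nat_lit 0, nat_lit 0, nat_lit 0, nat_lit 0, nat_lit 0, nat_lit 0, nat_lit 0, nat_lit 0, [],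
 ⟨p099_k2, nat_lit 0, nat_lit 0, nat_lit 196, nat_lit 0, nat_lit 0, [nat_lit 2032000001, nat_lit 4688000000, nat_lit 7968000000], [], [nat_lit 29017737167, nat_lit 29912804791, nat_lit 33348832056, nat_lit 34459330348, nat_lit 27448424361, nat_lit 28295053759, nat_lit 31134504843, nat_lit 31916557609], nat_lit 0, nat_lit 0, nat_lit 0, nat_lit 0, nat_lit 0, nat_lit 0, [], [nat_lit 34, nat_lit 40, nat_lit 40, nat_lit 80, nat_lit 7, nat_lit 226, nat_lit 20, nat_lit 6]⟩, ⟨p099_k0, nat_lit 0, nat_lit 0, nat_lit 727, nat_lit 0, nat_lit 1242609, [nat_lit 2032000000, nat_lit 4688000000, nat_lit 9842000000], [], [nat_lit 36556342598, nat_lit 36778947542, nat_lit 39442555464, nat_lit 40150074660, nat_lit 33321945246, nat_lit 33506977846, nat_lit 35282571472, nat_lit 35467115962], nat_lit 1271250, nat_lit 1271250, nat_lit 1271250, nat_lit 1271250, nat_lit 0, nat_lit 1100001, [nat_lit 490000, nat_lit 1100000, nat_lit 2127500],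 [nat_lit 27, nat_lit 40, nat_lit 40, nat_lit 80, nat_lit 13, nat_lit 293, nat_lit 40, nat_lit 8]⟩,
 zbF0, []⟩
noncomputable def p099_l13 : Lf2 := ⟨nat_lit 0, nat_lit 20, [nat_lit 5, nat_lit 5, nat_lit 5, nat_lit 20], false, nat_lit 80, nat_lit 160, nat_lit 0, nat_lit 80, ⟨nat_lit 1000, nat_lit 0, nat_lit 0, nat_lit 0, nat_lit 0, nat_lit 0, nat_lit 0, nat_lit 0, nat_lit 0, nat_lit 0, nat_lit 0, nat_lit 0, nat_lit 0, nat_lit 0, nat_lit 0, nat_lit 0, false, false⟩,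
 nat_lit 0, nat_lit 0, nat_lit 8053, nat_lit 0, nat_lit 4470, nat_lit 6039, nat_lit 792, nat_lit 0, nat_lit 0, nat_lit 645, nat_lit 0, nat_lit 0, nat_lit 0, nat_lit 0, nat_lit 0, nat_lit 0, nat_lit 0, nat_lit 0, [],
 ⟨p099_k2, nat_lit 0, nat_lit 0, nat_lit 143, nat_lit 0, nat_lit 0, [nat_lit 2032000001, nat_lit 4688000000, nat_lit 7968000000], [], [nat_lit 21856125720, nat_lit 22520135400, nat_lit 31206263220, nat_lit 31775156570, nat_lit 22066831560, nat_lit 22665085680, nat_lit 30547483440, nat_lit 31066866320], nat_lit 0, nat_lit 0, nat_lit 0, nat_lit 0, nat_lit 0, nat_lit 0, [], [nat_lit 34, nat_lit 40, nat_lit 40, nat_lit 80, nat_lit 7, nat_lit 249, nat_lit 40, nat_lit 7]⟩, ⟨p099_k0, nat_lit 0, nat_lit 0, nat_lit 703, nat_lit 0, nat_lit 1137439, [nat_lit 2032000000, nat_lit 4688000000, nat_lit 9842000000], [], [nat_lit 34825135269, nat_lit 35142882657, nat_lit 39295876212, nat_lit 39562078937, nat_lit 32855324317,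 nat_lit 33111480120, nat_lit 36978767264, nat_lit 37227611864], nat_lit 1271250, nat_lit 1271250, nat_lit 1271250, nat_lit 1271250, nat_lit 0, nat_lit 490000, [nat_lit 490000, nat_lit 1100000, nat_lit 2127500], [nat_lit 27, nat_lit 40, nat_lit 40, nat_lit 80, nat_lit 13, nat_lit 345, nat_lit 125, nat_lit 9]⟩,
 zbF0, []⟩
noncomputable def p099_l14 : Lf2 := ⟨nat_lit 0, nat_lit 20, [nat_lit 5, nat_lit 5, nat_lit 5, nat_lit 20], false, nat_lit 80, nat_lit 160, nat_lit 0, nat_lit 80, ⟨nat_lit 544, nat_lit 456, nat_lit 0, nat_lit 8, nat_lit 329, nat_lit 456, nat_lit 89, nat_lit 0, nat_lit 0, nat_lit 0, nat_lit 0, nat_lit 0, nat_lit 37809395, nat_lit 25939356, nat_lit 3251249, nat_lit 4398164, true, true⟩,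
 nat_lit 0, nat_lit 0, nat_lit 4589, nat_lit 0, nat_lit 3379, nat_lit 3441, nat_lit 475, nat_lit 0, nat_lit 0, nat_lit 338, nat_lit 0, nat_lit 0, nat_lit 0, nat_lit 0, nat_lit 0, nat_lit 182400, nat_lit 0, nat_lit 0, [(nat_lit 22, [(nat_lit 1, nat_lit 456)])],
 ⟨p099_k3, nat_lit 0, nat_lit 0, nat_lit 145, nat_lit 0, nat_lit 0, [nat_lit 1724838401, nat_lit 3259260800, nat_lit 4970620800], [], [nat_lit 22537671543, nat_lit 23086919160, nat_lit 29694803949, nat_lit 30201395744, nat_lit 23104334244, nat_lit 23610642657, nat_lit 29590742545, nat_lit 29997276611], nat_lit 0, nat_lit 0, nat_lit 0, nat_lit 0, nat_lit 0, nat_lit 0, [], [nat_lit 34, nat_lit 40, nat_lit 40, nat_lit 80, nat_lit 7, nat_lit 249, nat_lit 40, nat_lit 7]⟩, ⟨p099_k0, nat_lit 0, nat_lit 0, nat_lit 739, nat_lit 0, nat_lit 1242609, [nat_lit 1105408000, nat_lit 2550272000, nat_lit 5354048000], [], [nat_lit 19362754818, nat_lit 19508570377, nat_lit 21472611524,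 nat_lit 21594324279, nat_lit 18194493574, nat_lit 18329940679, nat_lit 20210495060, nat_lit 20323677122], nat_lit 1271250, nat_lit 1271250, nat_lit 1271250, nat_lit 1271250, nat_lit 0, nat_lit 490000, [nat_lit 490000, nat_lit 1100000, nat_lit 2127500], [nat_lit 27, nat_lit 40, nat_lit 40, nat_lit 80, nat_lit 13, nat_lit 345, nat_lit 125, nat_lit 9]⟩,
 ⟨nat_lit 3162, nat_lit 3536, ⟨.ofNat (nat_lit 694437), .ofNat (nat_lit 945521), .ofNat (nat_lit 705409), .ofNat (nat_lit 956496), .ofNat (nat_lit 693843), .ofNat (nat_lit 937695), .ofNat (nat_lit 704916), .ofNat (nat_lit 948770)⟩, ⟨.ofNat (nat_lit 136093), .ofNat (nat_lit 261616), .ofNat (nat_lit 179999), .ofNat (nat_lit 305521), .ofNat (nat_lit 139899), .ofNat (nat_lit 261806), .ofNat (nat_lit 184209), .ofNat (nat_lit 306116)⟩⟩, [⟨nat_lit 4, nat_lit 100, nat_lit 63, nat_lit 72, nat_lit 164066802⟩, ⟨nat_lit 9, nat_lit 100, nat_lit 82, nat_lit 44, nat_lit 5654266⟩]⟩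
noncomputable def p099_l15 : Lf2 := ⟨nat_lit 0, nat_lit 20, [nat_lit 5, nat_lit 5, nat_lit 5, nat_lit 20], false, nat_lit 80, nat_lit 160, nat_lit 80, nat_lit 160, ⟨nat_lit 1000, nat_lit 0, nat_lit 0, nat_lit 0, nat_lit 0, nat_lit 0, nat_lit 0, nat_lit 0, nat_lit 0, nat_lit 0, nat_lit 0, nat_lit 0, nat_lit 0, nat_lit 0, nat_lit 0, nat_lit 0, false, false⟩,
 nat_lit 0, nat_lit 0, nat_lit 8973, nat_lit 0, nat_lit 4550, nat_lit 6729, nat_lit 810, nat_lit 0, nat_lit 0, nat_lit 637, nat_lit 0, nat_lit 0, nat_lit 0, nat_lit 0, nat_lit 0, nat_lit 0, nat_lit 0, nat_lit 0, [],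
 ⟨p099_k2, nat_lit 0, nat_lit 0, nat_lit 143, nat_lit 0, nat_lit 0, [nat_lit 2032000001, nat_lit 4688000000, nat_lit 7968000000], [], [nat_lit 21665095800, nat_lit 22335173000, nat_lit 31354241300, nat_lit 31927703050, nat_lit 21850143400, nat_lit 22453605200, nat_lit 30656247600, nat_lit 31179582800], nat_lit 0, nat_lit 0, nat_lit 0, nat_lit 0, nat_lit 0, nat_lit 0, [], [nat_lit 34, nat_lit 40, nat_lit 40, nat_lit 80, nat_lit 7, nat_lit 249, nat_lit 40, nat_lit 7]⟩, ⟨p099_k0, nat_lit 0, nat_lit 0, nat_lit 620, nat_lit 0, nat_lit 1137439, [nat_lit 2032000000, nat_lit 4688000000, nat_lit 9842000000], [], [nat_lit 29337973653, nat_lit 29644429555, nat_lit 33989007164, nat_lit 34686900709, nat_lit 28615134729, nat_lit 28891878284, nat_lit 32764338084, nat_lit 32990168407], nat_lit 1271250, nat_lit 1271250, nat_lit 1271250, nat_lit 1271250, nat_lit 490000, nat_lit 1100001, [nat_lit 490000, nat_lit 1100000, nat_lit 2127500],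 [nat_lit 27, nat_lit 40, nat_lit 40, nat_lit 80, nat_lit 13, nat_lit 373, nat_lit 150, nat_lit 10]⟩,
 zbF0, []⟩
noncomputable def p099_l16 : Lf2 := ⟨nat_lit 0, nat_lit 20, [nat_lit 5, nat_lit 5, nat_lit 5, nat_lit 20], false, nat_lit 80, nat_lit 160, nat_lit 80, nat_lit 160, ⟨nat_lit 589, nat_lit 411, nat_lit 0, nat_lit 8, nat_lit 329, nat_lit 411, nat_lit 89, nat_lit 0, nat_lit 0, nat_lit 0, nat_lit 0, nat_lit 0, nat_lit 37809395, nat_lit 25939356, nat_lit 3251249, nat_lit 4398164, true, true⟩,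
 nat_lit 0, nat_lit 0, nat_lit 5281, nat_lit 0, nat_lit 3416, nat_lit 3960, nat_lit 499, nat_lit 0, nat_lit 0, nat_lit 375, nat_lit 0, nat_lit 0, nat_lit 0, nat_lit 0, nat_lit 0, nat_lit 164400, nat_lit 0, nat_lit 0, [(nat_lit 22, [(nat_lit 1, nat_lit 411)])],
 ⟨p099_k3, nat_lit 0, nat_lit 0, nat_lit 145, nat_lit 0, nat_lit 0, [nat_lit 1755150400, nat_lit 3400254800, nat_lit 5266414800], [], [nat_lit 22587907143, nat_lit 23139749311, nat_lit 29765356696, nat_lit 30274061376, nat_lit 23143267047, nat_lit 23648429195, nat_lit 29642306768, nat_lit 30050337632], nat_lit 0, nat_lit 0, nat_lit 0, nat_lit 0, nat_lit 0, nat_lit 0, [], [nat_lit 34, nat_lit 40, nat_lit 40, nat_lit 80, nat_lit 7, nat_lit 249, nat_lit 40, nat_lit 7]⟩, ⟨p099_k0, nat_lit 0, nat_lit 0, nat_lit 678, nat_lit 0, nat_lit 1242609, [nat_lit 1196848000, nat_lit 2761232000, nat_lit 5796938000], [], [nat_lit 17298882851, nat_lit 17479335210, nat_lit 20013657440,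 nat_lit 20424523666, nat_lit 16874114447, nat_lit 17034675053, nat_lit 19315110288, nat_lit 19448106811], nat_lit 1271250, nat_lit 1271250, nat_lit 1271250, nat_lit 1271250, nat_lit 490000, nat_lit 1100001, [nat_lit 490000, nat_lit 1100000, nat_lit 2127500], [nat_lit 27, nat_lit 40, nat_lit 40, nat_lit 80, nat_lit 13, nat_lit 373, nat_lit 150, nat_lit 10]⟩,
 ⟨nat_lit 3162, nat_lit 3536, ⟨.ofNat (nat_lit 694437), .ofNat (nat_lit 945521), .ofNat (nat_lit 705409), .ofNat (nat_lit 956496), .ofNat (nat_lit 693843), .ofNat (nat_lit 937695), .ofNat (nat_lit 704916), .ofNat (nat_lit 948770)⟩, ⟨.ofNat (nat_lit 136093), .ofNat (nat_lit 261616), .ofNat (nat_lit 179999), .ofNat (nat_lit 305521), .ofNat (nat_lit 139899), .ofNat (nat_lit 261806), .ofNat (nat_lit 184209), .ofNat (nat_lit 306116)⟩⟩, [⟨nat_lit 16, nat_lit 63, nat_lit 100, nat_lit 72, nat_lit 182569991⟩]⟩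
noncomputable def p099_l17 : Lf2 := ⟨nat_lit 0, nat_lit 20, [nat_lit 5, nat_lit 5, nat_lit 5, nat_lit 20], false, nat_lit 0, nat_lit 160, nat_lit 0, nat_lit 160, ⟨nat_lit 1000, nat_lit 0, nat_lit 0, nat_lit 0, nat_lit 0, nat_lit 0, nat_lit 0, nat_lit 0, nat_lit 0, nat_lit 0, nat_lit 0, nat_lit 0, nat_lit 0, nat_lit 0, nat_lit 0, nat_lit 0, false, false⟩,
 nat_lit 0, nat_lit 0, nat_lit 7222, nat_lit 0, nat_lit 4955, nat_lit 5629, nat_lit 778, nat_lit 0, nat_lit 0, nat_lit 833, nat_lit 0, nat_lit 0, nat_lit 0, nat_lit 0, nat_lit 0, nat_lit 0, nat_lit 0, nat_lit 0, [],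
 ⟨p099_k2, nat_lit 0, nat_lit 0, nat_lit 196, nat_lit 0, nat_lit 0, [nat_lit 2032000001, nat_lit 4688000000, nat_lit 7968000000], [], [nat_lit 24903033270, nat_lit 26936488140, nat_lit 36369832920, nat_lit 37602856860, nat_lit 22241466020, nat_lit 23308708010, nat_lit 31206866160, nat_lit 32293553800], nat_lit 0, nat_lit 0, nat_lit 0, nat_lit 0, nat_lit 0, nat_lit 0, [], [nat_lit 34, nat_lit 40, nat_lit 40, nat_lit 80, nat_lit 7, nat_lit 249, nat_lit 40, nat_lit 7]⟩, ⟨p099_k1, nat_lit 0, nat_lit 0, nat_lit 740, nat_lit 0, nat_lit 1246790, [nat_lit 2032000000, nat_lit 4688000000, nat_lit 9842000000], [], [nat_lit 32359781699, nat_lit 32662324279, nat_lit 37678864810, nat_lit 38335233096, nat_lit 30439942511, nat_lit 30692567167, nat_lit 33484553178, nat_lit 33655649825], nat_lit 1271250, nat_lit 1271250, nat_lit 1271250, nat_lit 1271250, nat_lit 0, nat_lit 1100001, [nat_lit 490000, nat_lit 1100000, nat_lit 2127500],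 [nat_lit 27, nat_lit 40, nat_lit 40, nat_lit 80, nat_lit 13, nat_lit 373, nat_lit 150, nat_lit 10]⟩,
 zbF0, []⟩
noncomputable def p099_l18 : Lf2 := ⟨nat_lit 0, nat_lit 20, [nat_lit 5, nat_lit 5, nat_lit 5, nat_lit 20], false, nat_lit 0, nat_lit 80, nat_lit 160, nat_lit 260, ⟨nat_lit 485, nat_lit 515, nat_lit 0, nat_lit 8, nat_lit 307, nat_lit 515, nat_lit 32, nat_lit 0, nat_lit 0, nat_lit 0, nat_lit 0, nat_lit 0, nat_lit 42135543, nat_lit 24864457, nat_lit 0, nat_lit 3297721, true, false⟩,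
 nat_lit 0, nat_lit 0, nat_lit 4562, nat_lit 0, nat_lit 3561, nat_lit 3421, nat_lit 223, nat_lit 0, nat_lit 0, nat_lit 280, nat_lit 0, nat_lit 0, nat_lit 0, nat_lit 0, nat_lit 0, nat_lit 515000, nat_lit 0, nat_lit 0, [(nat_lit 22, [(nat_lit 2, nat_lit 515)])],
 ⟨p099_k2, nat_lit 0, nat_lit 0, nat_lit 174, nat_lit 0, nat_lit 0, [nat_lit 1703773334, nat_lit 2270796000, nat_lit 1871224000], [], [nat_lit 23637525057, nat_lit 24656269985, nat_lit 26929270448, nat_lit 28307190900, nat_lit 22453870343, nat_lit 23447851704, nat_lit 25418748818, nat_lit 26345306100], nat_lit 0, nat_lit 0, nat_lit 0, nat_lit 0, nat_lit 0, nat_lit 0, [], [nat_lit 34, nat_lit 40, nat_lit 40, nat_lit 80, nat_lit 7, nat_lit 226, nat_lit 20, nat_lit 7]⟩, ⟨p099_k0, nat_lit 0, nat_lit 0, nat_lit 665, nat_lit 0, nat_lit 1315864, [nat_lit 985520000, nat_lit 2273680000, nat_lit 4773370000], [], [nat_lit 13335557676, nat_lit 13603306700, nat_lit 13959721212,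 nat_lit 14179654922, nat_lit 13570184825, nat_lit 13787273609, nat_lit 14169287714, nat_lit 14413808411], nat_lit 1271250, nat_lit 1271250, nat_lit 1271250, nat_lit 1271250, nat_lit 1100001, nat_lit 1956250, [nat_lit 490000, nat_lit 1100000, nat_lit 2127500], [nat_lit 27, nat_lit 40, nat_lit 40, nat_lit 80, nat_lit 13, nat_lit 373, nat_lit 150, nat_lit 10]⟩,
 ⟨nat_lit 3162, nat_lit 3873, ⟨.ofNat (nat_lit 695141), .ofNat (nat_lit 824248), .ofNat (nat_lit 716905), .ofNat (nat_lit 846013), .ofNat (nat_lit 693742), .ofNat (nat_lit 815713), .ofNat (nat_lit 715869), .ofNat (nat_lit 837840)⟩, ⟨.ofNat (nat_lit 0), .ofNat (nat_lit 132088), .ofNat (nat_lit 0), .ofNat (nat_lit 175674), .ofNat (nat_lit 0), .ofNat (nat_lit 139899), .ofNat (nat_lit 0), .ofNat (nat_lit 184209)⟩⟩, [⟨nat_lit 19, nat_lit 76, nat_lit 100, nat_lit 72, nat_lit 206261017⟩]⟩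
noncomputable def p099_l19 : Lf2 := ⟨nat_lit 0, nat_lit 20, [nat_lit 5, nat_lit 5, nat_lit 5, nat_lit 20], false, nat_lit 80, nat_lit 160, nat_lit 160, nat_lit 260, ⟨nat_lit 350, nat_lit 650, nat_lit 0, nat_lit 8, nat_lit 307, nat_lit 650, nat_lit 88, nat_lit 0, nat_lit 0, nat_lit 0, nat_lit 0, nat_lit 0, nat_lit 39788260, nat_lit 23876030, nat_lit 3335710, nat_lit 4346710, true, false⟩,
 nat_lit 0, nat_lit 0, nat_lit 3293, nat_lit 0, nat_lit 4657, nat_lit 2469, nat_lit 324, nat_lit 0, nat_lit 0, nat_lit 202, nat_lit 0, nat_lit 0, nat_lit 0, nat_lit 0, nat_lit 0, nat_lit 162500, nat_lit 0, nat_lit 0, [(nat_lit 22, [(nat_lit 0, nat_lit 650)])],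
 ⟨p099_k2, nat_lit 0, nat_lit 0, nat_lit 107, nat_lit 0, nat_lit 0, [nat_lit 1730400001, nat_lit 2921820001, nat_lit 4551860000], [], [nat_lit 22456609532, nat_lit 23812994548, nat_lit 26011359788, nat_lit 27168719876, nat_lit 22607339236, nat_lit 23828193380, nat_lit 25812499010, nat_lit 26827014604], nat_lit 0, nat_lit 0, nat_lit 0, nat_lit 0, nat_lit 0, nat_lit 0, [], [nat_lit 34, nat_lit 40, nat_lit 40, nat_lit 80, nat_lit 7, nat_lit 249, nat_lit 40, nat_lit 7]⟩, ⟨p099_k0, nat_lit 0, nat_lit 0, nat_lit 665, nat_lit 0, nat_lit 1315864, [nat_lit 711200000, nat_lit 1640800000, nat_lit 3444700000], [], [nat_lit 9622963394, nat_lit 9816189540, nat_lit 10073384598, nat_lit 10231531608, nat_lit 9792241450, nat_lit 9948905869, nat_lit 10224005331, nat_lit 10401897512], nat_lit 1271250, nat_lit 1271250, nat_lit 1271250, nat_lit 1271250, nat_lit 1100001, nat_lit 1956250, [nat_lit 490000, nat_lit 1100000, nat_lit 2127500],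 [nat_lit 27, nat_lit 40, nat_lit 40, nat_lit 80, nat_lit 13, nat_lit 373, nat_lit 150, nat_lit 10]⟩,
 ⟨nat_lit 3162, nat_lit 3873, ⟨.ofNat (nat_lit 695141), .ofNat (nat_lit 824248), .ofNat (nat_lit 716905), .ofNat (nat_lit 846013), .ofNat (nat_lit 693742), .ofNat (nat_lit 815713), .ofNat (nat_lit 715869), .ofNat (nat_lit 837840)⟩, ⟨.ofNat (nat_lit 132088), .ofNat (nat_lit 261131), .ofNat (nat_lit 175674), .ofNat (nat_lit 304717), .ofNat (nat_lit 139899), .ofNat (nat_lit 261806), .ofNat (nat_lit 184209), .ofNat (nat_lit 306116)⟩⟩, [⟨nat_lit 16, nat_lit 66, nat_lit 100, nat_lit 72, nat_lit 72174469⟩, ⟨nat_lit 7, nat_lit 100, nat_lit 76, nat_lit 72, nat_lit 148875385⟩]⟩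
noncomputable def p099_l20 : Lf2 := ⟨nat_lit 0, nat_lit 15, [nat_lit 30, nat_lit 5, nat_lit 5, nat_lit 20], false, nat_lit 16, nat_lit 160, nat_lit 160, nat_lit 232, ⟨nat_lit 1000, nat_lit 0, nat_lit 0, nat_lit 0, nat_lit 0, nat_lit 0, nat_lit 0, nat_lit 0, nat_lit 0, nat_lit 0, nat_lit 0, nat_lit 0, nat_lit 0, nat_lit 0, nat_lit 0, nat_lit 0, false, false⟩,
 nat_lit 0, nat_lit 0, nat_lit 7645, nat_lit 0, nat_lit 4430, nat_lit 5733, nat_lit 720, nat_lit 0, nat_lit 0, nat_lit 533, nat_lit 0, nat_lit 0, nat_lit 0, nat_lit 0, nat_lit 0, nat_lit 0, nat_lit 0, nat_lit 0, [],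
 ⟨p099_k4, nat_lit 0, nat_lit 0, nat_lit 185, nat_lit 0, nat_lit 0, [nat_lit 2032000001, nat_lit 4688000000, nat_lit 7968000000], [], [nat_lit 28341282224, nat_lit 28918740005, nat_lit 34097591093, nat_lit 34679286219, nat_lit 26693227681, nat_lit 27095692661, nat_lit 30493101360, nat_lit 31010508080], nat_lit 0, nat_lit 0, nat_lit 0, nat_lit 0, nat_lit 0, nat_lit 0, [], [nat_lit 34, nat_lit 40, nat_lit 40, nat_lit 80, nat_lit 7, nat_lit 249, nat_lit 40, nat_lit 7]⟩, ⟨p099_k5, nat_lit 0, nat_lit 0, nat_lit 519, nat_lit 0, nat_lit 1117722, [nat_lit 2032000000, nat_lit 4688000000, nat_lit 7968000000], [], [nat_lit 33650138950, nat_lit 33896642072, nat_lit 35893429721, nat_lit 36135293739, nat_lit 33938802107, nat_lit 34156863997, nat_lit 36163793703, nat_lit 36394876136], nat_lit 1271250, nat_lit 1271250, nat_lit 1271250, nat_lit 1271250, nat_lit 1100001, nat_lit 1716500, [nat_lit 490000, nat_lit 1100000, nat_lit 1785000],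 [nat_lit 34, nat_lit 40, nat_lit 40, nat_lit 80, nat_lit 7, nat_lit 272, nat_lit 60, nat_lit 7]⟩,
 zbF0, [⟨nat_lit 4, nat_lit 100, nat_lit 69, nat_lit 66, nat_lit 50508517⟩, ⟨nat_lit 7, nat_lit 100, nat_lit 78, nat_lit 66, nat_lit 429423797⟩]⟩
noncomputable def p099_l21 : Lf2 := ⟨nat_lit 0, nat_lit 15, [nat_lit 30, nat_lit 5, nat_lit 5, nat_lit 20], false, nat_lit 16, nat_lit 160, nat_lit 160, nat_lit 232, ⟨nat_lit 1000, nat_lit 0, nat_lit 0, nat_lit 0, nat_lit 0, nat_lit 0, nat_lit 0, nat_lit 0, nat_lit 0, nat_lit 0, nat_lit 0, nat_lit 0, nat_lit 0, nat_lit 0, nat_lit 0, nat_lit 0, false, false⟩,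
 nat_lit 0, nat_lit 0, nat_lit 8827, nat_lit 0, nat_lit 4061, nat_lit 6620, nat_lit 679, nat_lit 0, nat_lit 0, nat_lit 488, nat_lit 0, nat_lit 0, nat_lit 0, nat_lit 0, nat_lit 0, nat_lit 0, nat_lit 0, nat_lit 0, [],
 ⟨p099_k6, nat_lit 0, nat_lit 0, nat_lit 171, nat_lit 0, nat_lit 0, [nat_lit 2032000001, nat_lit 4688000000, nat_lit 6250000000], [], [nat_lit 28146680271, nat_lit 28874976270, nat_lit 33660295449, nat_lit 34220319869, nat_lit 26416384289, nat_lit 26833773298, nat_lit 30490603316, nat_lit 30989779960], nat_lit 0, nat_lit 0, nat_lit 0, nat_lit 0, nat_lit 0, nat_lit 0, [], [nat_lit 6, nat_lit 40, nat_lit 40, nat_lit 80, nat_lit 3, nat_lit 249, nat_lit 40, nat_lit 8]⟩, ⟨p099_k5, nat_lit 0, nat_lit 0, nat_lit 554, nat_lit 0, nat_lit 1220582, [nat_lit 2032000000, nat_lit 4688000000, nat_lit 7968000000], [], [nat_lit 31383637920, nat_lit 31592728600, nat_lit 33329268440, nat_lit 33534930460, nat_lit 31372571304,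 nat_lit 31580845095, nat_lit 33327555648, nat_lit 33522360053], nat_lit 1271250, nat_lit 1271250, nat_lit 1271250, nat_lit 1271250, nat_lit 1100001, nat_lit 1716500, [nat_lit 490000, nat_lit 1100000, nat_lit 1785000], [nat_lit 34, nat_lit 40, nat_lit 40, nat_lit 80, nat_lit 7, nat_lit 272, nat_lit 60, nat_lit 7]⟩,
 zbF0, [⟨nat_lit 4, nat_lit 100, nat_lit 64, nat_lit 67, nat_lit 89135978⟩, ⟨nat_lit 7, nat_lit 100, nat_lit 78, nat_lit 66, nat_lit 392720967⟩]⟩
noncomputable def p099_l22 : Lf2 := ⟨nat_lit 0, nat_lit 20, [nat_lit 5, nat_lit 5, nat_lit 5, nat_lit 20], false, nat_lit 16, nat_lit 160, nat_lit 160, nat_lit 260, ⟨nat_lit 1000, nat_lit 0, nat_lit 0, nat_lit 0, nat_lit 0, nat_lit 0, nat_lit 0, nat_lit 0, nat_lit 0, nat_lit 0, nat_lit 0, nat_lit 0, nat_lit 0, nat_lit 0, nat_lit 0, nat_lit 0, false, false⟩,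
 nat_lit 0, nat_lit 0, nat_lit 8497, nat_lit 0, nat_lit 4382, nat_lit 6372, nat_lit 712, nat_lit 0, nat_lit 0, nat_lit 586, nat_lit 0, nat_lit 0, nat_lit 0, nat_lit 0, nat_lit 0, nat_lit 0, nat_lit 0, nat_lit 0, [],
 ⟨p099_k2, nat_lit 0, nat_lit 0, nat_lit 187, nat_lit 0, nat_lit 0, [nat_lit 2032000001, nat_lit 4688000000, nat_lit 7968000000], [], [nat_lit 28462845058, nat_lit 29575608076, nat_lit 33967858401, nat_lit 35125610746, nat_lit 26892092633, nat_lit 27694230137, nat_lit 30427842864, nat_lit 31457913520], nat_lit 0, nat_lit 0, nat_lit 0, nat_lit 0, nat_lit 0, nat_lit 0, [], [nat_lit 34, nat_lit 40, nat_lit 40, nat_lit 80, nat_lit 7, nat_lit 249, nat_lit 40, nat_lit 7]⟩, ⟨p099_k0, nat_lit 0, nat_lit 0, nat_lit 525, nat_lit 0, nat_lit 1033528, [nat_lit 2032000000, nat_lit 4688000000, nat_lit 9842000000], [], [nat_lit 30861718514, nat_lit 31129717994, nat_lit 33231956176, nat_lit 33501580476, nat_lit 31360827858,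 nat_lit 31582068190, nat_lit 33693126724, nat_lit 33913569347], nat_lit 1271250, nat_lit 1271250, nat_lit 1271250, nat_lit 1271250, nat_lit 1100001, nat_lit 1956250, [nat_lit 490000, nat_lit 1100000, nat_lit 2127500], [nat_lit 27, nat_lit 40, nat_lit 40, nat_lit 80, nat_lit 13, nat_lit 289, nat_lit 75, nat_lit 7]⟩,
 zbF0, [⟨nat_lit 19, nat_lit 79, nat_lit 100, nat_lit 77, nat_lit 378876455⟩]⟩
noncomputable def p099_l23 : Lf2 := ⟨nat_lit 0, nat_lit 20, [nat_lit 5, nat_lit 5, nat_lit 5, nat_lit 20], false, nat_lit 16, nat_lit 160, nat_lit 160, nat_lit 244, ⟨nat_lit 1000, nat_lit 0, nat_lit 0, nat_lit 0, nat_lit 0, nat_lit 0, nat_lit 0, nat_lit 0, nat_lit 0, nat_lit 0, nat_lit 0, nat_lit 0, nat_lit 0, nat_lit 0, nat_lit 0, nat_lit 0, false, false⟩,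
 nat_lit 0, nat_lit 0, nat_lit 7026, nat_lit 0, nat_lit 4869, nat_lit 5476, nat_lit 589, nat_lit 0, nat_lit 0, nat_lit 967, nat_lit 0, nat_lit 0, nat_lit 0, nat_lit 0, nat_lit 0, nat_lit 0, nat_lit 0, nat_lit 0, [],
 ⟨p099_k2, nat_lit 0, nat_lit 0, nat_lit 187, nat_lit 0, nat_lit 0, [nat_lit 2032000001, nat_lit 4688000000, nat_lit 7968000000], [], [nat_lit 29523173705, nat_lit 30704071491, nat_lit 35284104664, nat_lit 36499058276, nat_lit 27295662689, nat_lit 28180560517, nat_lit 31089944688, nat_lit 32168134840], nat_lit 0, nat_lit 0, nat_lit 0, nat_lit 0, nat_lit 0, nat_lit 0, [], [nat_lit 34, nat_lit 40, nat_lit 40, nat_lit 80, nat_lit 7, nat_lit 249, nat_lit 40, nat_lit 7]⟩, ⟨p099_k1, nat_lit 0, nat_lit 0, nat_lit 617, nat_lit 0, nat_lit 1246790, [nat_lit 2032000000, nat_lit 4688000000, nat_lit 9842000000], [], [nat_lit 30131825594, nat_lit 30385149130, nat_lit 32228625050, nat_lit 32433651466, nat_lit 30623921473,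 nat_lit 30842604154, nat_lit 32445034352, nat_lit 32885307561], nat_lit 1271250, nat_lit 1271250, nat_lit 1271250, nat_lit 1271250, nat_lit 1100001, nat_lit 1819250, [nat_lit 490000, nat_lit 1100000, nat_lit 2127500], [nat_lit 27, nat_lit 40, nat_lit 40, nat_lit 80, nat_lit 13, nat_lit 289, nat_lit 75, nat_lit 7]⟩,
 zbF0, [⟨nat_lit 7, nat_lit 100, nat_lit 74, nat_lit 72, nat_lit 437673519⟩]⟩
noncomputable def p099_l24 : Lf2 := ⟨nat_lit 0, nat_lit 20, [nat_lit 5, nat_lit 5, nat_lit 5, nat_lit 20], false, nat_lit 160, nat_lit 260, nat_lit 0, nat_lit 260, ⟨nat_lit 1000, nat_lit 0, nat_lit 0, nat_lit 0, nat_lit 0, nat_lit 0, nat_lit 0, nat_lit 0, nat_lit 0, nat_lit 0, nat_lit 0, nat_lit 0, nat_lit 0, nat_lit 0, nat_lit 0, nat_lit 0, false, false⟩,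
 nat_lit 0, nat_lit 0, nat_lit 9461, nat_lit 0, nat_lit 3896, nat_lit 7095, nat_lit 0, nat_lit 0, nat_lit 0, nat_lit 584, nat_lit 0, nat_lit 0, nat_lit 0, nat_lit 0, nat_lit 0, nat_lit 0, nat_lit 0, nat_lit 0, [],
 ⟨p099_k0, nat_lit 0, nat_lit 0, nat_lit 51, nat_lit 0, nat_lit 0, [nat_lit 2032000001, nat_lit 4688000000, nat_lit 9842000000], [], [nat_lit 19405278753, nat_lit 20837120113, nat_lit 23624961568, nat_lit 24873731696, nat_lit 22743274904, nat_lit 23997715632, nat_lit 26277704720, nat_lit 27320804416], nat_lit 0, nat_lit 0, nat_lit 0, nat_lit 0, nat_lit 0, nat_lit 0, [], [nat_lit 27, nat_lit 40, nat_lit 40, nat_lit 80, nat_lit 13, nat_lit 373, nat_lit 150, nat_lit 10]⟩, ⟨p099_k0, nat_lit 0, nat_lit 0, nat_lit 635, nat_lit 0, nat_lit 1037307, [nat_lit 2032000000, nat_lit 4688000000, nat_lit 9842000000], [], [nat_lit 30712719620, nat_lit 31048727360, nat_lit 33082604120, nat_lit 33748758465, nat_lit 27687127250,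 nat_lit 27914191035, nat_lit 28996148655, nat_lit 29233220487], nat_lit 1271250, nat_lit 1271250, nat_lit 1271250, nat_lit 1271250, nat_lit 0, nat_lit 1836250, [nat_lit 490000, nat_lit 1100000, nat_lit 2127500], [nat_lit 27, nat_lit 40, nat_lit 40, nat_lit 80, nat_lit 13, nat_lit 373, nat_lit 150, nat_lit 10]⟩,
 zbF0, [⟨nat_lit 4, nat_lit 100, nat_lit 76, nat_lit 72, nat_lit 672343616⟩, ⟨nat_lit 7, nat_lit 100, nat_lit 79, nat_lit 72, nat_lit 194306377⟩]⟩
noncomputable def p099_l25 : Lf2 := ⟨nat_lit 0, nat_lit 20, [nat_lit 5, nat_lit 5, nat_lit 5, nat_lit 20], false, nat_lit 160, nat_lit 260, nat_lit 16, nat_lit 260, ⟨nat_lit 1000, nat_lit 0, nat_lit 0, nat_lit 0, nat_lit 0, nat_lit 0, nat_lit 0, nat_lit 0, nat_lit 0, nat_lit 0, nat_lit 0, nat_lit 0, nat_lit 0, nat_lit 0, nat_lit 0, nat_lit 0, false, false⟩,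
 nat_lit 0, nat_lit 0, nat_lit 8331, nat_lit 0, nat_lit 5456, nat_lit 6248, nat_lit 714, nat_lit 0, nat_lit 0, nat_lit 563, nat_lit 0, nat_lit 0, nat_lit 0, nat_lit 0, nat_lit 0, nat_lit 0, nat_lit 0, nat_lit 0, [],
 ⟨p099_k0, nat_lit 0, nat_lit 0, nat_lit 92, nat_lit 0, nat_lit 0, [nat_lit 2032000001, nat_lit 4688000000, nat_lit 9842000000], [], [nat_lit 26614885490, nat_lit 27612769026, nat_lit 30903584416, nat_lit 31888662192, nat_lit 28237459666, nat_lit 29063887034, nat_lit 32373878536, nat_lit 33313033084], nat_lit 0, nat_lit 0, nat_lit 0, nat_lit 0, nat_lit 0, nat_lit 0, [], [nat_lit 27, nat_lit 40, nat_lit 40, nat_lit 80, nat_lit 13, nat_lit 289, nat_lit 75, nat_lit 7]⟩, ⟨p099_k0, nat_lit 0, nat_lit 0, nat_lit 617, nat_lit 0, nat_lit 1037307, [nat_lit 2032000000, nat_lit 4688000000, nat_lit 9842000000], [], [nat_lit 35863131439, nat_lit 36126230383, nat_lit 38111259990, nat_lit 38322753778, nat_lit 33521356759,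 nat_lit 33706644422, nat_lit 35461596056, nat_lit 35643579728], nat_lit 1271250, nat_lit 1271250, nat_lit 1271250, nat_lit 1271250, nat_lit 88400, nat_lit 1848250, [nat_lit 490000, nat_lit 1100000, nat_lit 2127500], [nat_lit 27, nat_lit 40, nat_lit 40, nat_lit 80, nat_lit 13, nat_lit 289, nat_lit 75, nat_lit 7]⟩,
 zbF0, [⟨nat_lit 16, nat_lit 76, nat_lit 100, nat_lit 72, nat_lit 516132484⟩, ⟨nat_lit 7, nat_lit 100, nat_lit 79, nat_lit 72, nat_lit 210729669⟩]⟩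
noncomputable def p099_l26 : Lf2 := ⟨nat_lit 0, nat_lit 20, [nat_lit 5, nat_lit 5, nat_lit 5, nat_lit 20], false, nat_lit 160, nat_lit 244, nat_lit 0, nat_lit 244, ⟨nat_lit 1000, nat_lit 0, nat_lit 0, nat_lit 0, nat_lit 0, nat_lit 0, nat_lit 0, nat_lit 0, nat_lit 0, nat_lit 0, nat_lit 0, nat_lit 0, nat_lit 0, nat_lit 0, nat_lit 0, nat_lit 0, false, false⟩,
 nat_lit 0, nat_lit 0, nat_lit 6999, nat_lit 0, nat_lit 5590, nat_lit 5455, nat_lit 832, nat_lit 0, nat_lit 0, nat_lit 626, nat_lit 0, nat_lit 0, nat_lit 0, nat_lit 0, nat_lit 0, nat_lit 0, nat_lit 0, nat_lit 0, [],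
 ⟨p099_k1, nat_lit 0, nat_lit 0, nat_lit 92, nat_lit 0, nat_lit 0, [nat_lit 2032000001, nat_lit 4688000000, nat_lit 9842000000], [], [nat_lit 21898046090, nat_lit 22510246540, nat_lit 31495466320, nat_lit 32070181680, nat_lit 23508281161, nat_lit 24032127990, nat_lit 32528555547, nat_lit 33021099562], nat_lit 0, nat_lit 0, nat_lit 0, nat_lit 0, nat_lit 0, nat_lit 0, [], [nat_lit 27, nat_lit 40, nat_lit 40, nat_lit 80, nat_lit 13, nat_lit 401, nat_lit 175, nat_lit 10]⟩, ⟨p099_k1, nat_lit 0, nat_lit 0, nat_lit 643, nat_lit 0, nat_lit 1057696, [nat_lit 2032000000, nat_lit 4688000000, nat_lit 9842000000], [], [nat_lit 33678273600, nat_lit 33965825890, nat_lit 37351644580, nat_lit 37827844920, nat_lit 32011149080, nat_lit 32219819542, nat_lit 35090654301, nat_lit 35266644965], nat_lit 1271250, nat_lit 1271250, nat_lit 1271250, nat_lit 1271250, nat_lit 0, nat_lit 1723250, [nat_lit 490000, nat_lit 1100000, nat_lit 2127500],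 [nat_lit 27, nat_lit 40, nat_lit 40, nat_lit 80, nat_lit 13, nat_lit 401, nat_lit 175, nat_lit 11]⟩,
 zbF0, [⟨nat_lit 4, nat_lit 100, nat_lit 74, nat_lit 72, nat_lit 556563246⟩, ⟨nat_lit 7, nat_lit 100, nat_lit 74, nat_lit 72, nat_lit 223003899⟩]⟩
noncomputable def p099_l27 : Lf2 := ⟨nat_lit 0, nat_lit 20, [nat_lit 5, nat_lit 5, nat_lit 5, nat_lit 20], false, nat_lit 160, nat_lit 232, nat_lit 0, nat_lit 260, ⟨nat_lit 250, nat_lit 750, nat_lit 0, nat_lit 8, nat_lit 307, nat_lit 750, nat_lit 136, nat_lit 0, nat_lit 0, nat_lit 0, nat_lit 0, nat_lit 0, nat_lit 37798086, nat_lit 22965271, nat_lit 6236643, nat_lit 4862278, true, false⟩,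
 nat_lit 0, nat_lit 0, nat_lit 2378, nat_lit 0, nat_lit 4209, nat_lit 1783, nat_lit 0, nat_lit 0, nat_lit 0, nat_lit 128, nat_lit 0, nat_lit 0, nat_lit 0, nat_lit 0, nat_lit 0, nat_lit 187500, nat_lit 0, nat_lit 0, [(nat_lit 22, [(nat_lit 0, nat_lit 750)])],
 ⟨p099_k2, nat_lit 0, nat_lit 0, nat_lit 60, nat_lit 0, nat_lit 0, [nat_lit 1684000001, nat_lit 2650100000, nat_lit 4026300000], [], [nat_lit 21827205560, nat_lit 23167641008, nat_lit 25425669272, nat_lit 26539211964, nat_lit 23667550195, nat_lit 24847869055, nat_lit 26819795461, nat_lit 27805489630], nat_lit 0, nat_lit 0, nat_lit 0, nat_lit 0, nat_lit 0, nat_lit 0, [], [nat_lit 34, nat_lit 40, nat_lit 40, nat_lit 80, nat_lit 7, nat_lit 272, nat_lit 60, nat_lit 7]⟩, ⟨p099_k0, nat_lit 0, nat_lit 0, nat_lit 765, nat_lit 0, nat_lit 1315864, [nat_lit 508000000, nat_lit 1172000000, nat_lit 2460500000], [], [nat_lit 8105659408, nat_lit 8244104230, nat_lit 8456844968,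 nat_lit 8790883234, nat_lit 7297028985, nat_lit 7387664884, nat_lit 7471829914, nat_lit 7544047747], nat_lit 1271250, nat_lit 1271250, nat_lit 1271250, nat_lit 1271250, nat_lit 0, nat_lit 1836250, [nat_lit 490000, nat_lit 1100000, nat_lit 2127500], [nat_lit 27, nat_lit 40, nat_lit 40, nat_lit 80, nat_lit 13, nat_lit 373, nat_lit 150, nat_lit 10]⟩,
 ⟨nat_lit 3162, nat_lit 3873, ⟨.ofNat (nat_lit 695141), .ofNat (nat_lit 824248), .ofNat (nat_lit 716905), .ofNat (nat_lit 846013), .ofNat (nat_lit 693742), .ofNat (nat_lit 815713), .ofNat (nat_lit 715869), .ofNat (nat_lit 837840)⟩, ⟨.ofNat (nat_lit 261131), .ofNat (nat_lit 377270), .ofNat (nat_lit 304717), .ofNat (nat_lit 420856), .ofNat (nat_lit 261806), .ofNat (nat_lit 371522), .ofNat (nat_lit 306116), .ofNat (nat_lit 415832)⟩⟩, [⟨nat_lit 4, nat_lit 100, nat_lit 66, nat_lit 72, nat_lit 319954910⟩, ⟨nat_lit 7, nat_lit 100, nat_lit 76, nat_lit 72, nat_lit 33196030⟩]⟩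
noncomputable def p099_l28 : Lf2 := ⟨nat_lit 0, nat_lit 20, [nat_lit 5, nat_lit 5, nat_lit 5, nat_lit 20], false, nat_lit 160, nat_lit 232, nat_lit 16, nat_lit 160, ⟨nat_lit 1000, nat_lit 0, nat_lit 0, nat_lit 0, nat_lit 0, nat_lit 0, nat_lit 0, nat_lit 0, nat_lit 0, nat_lit 0, nat_lit 0, nat_lit 0, nat_lit 0, nat_lit 0, nat_lit 0, nat_lit 0, false, false⟩,
 nat_lit 0, nat_lit 0, nat_lit 8707, nat_lit 0, nat_lit 4067, nat_lit 6529, nat_lit 757, nat_lit 0, nat_lit 0, nat_lit 560, nat_lit 0, nat_lit 0, nat_lit 0, nat_lit 0, nat_lit 0, nat_lit 0, nat_lit 0, nat_lit 0, [],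
 ⟨p099_k2, nat_lit 0, nat_lit 0, nat_lit 97, nat_lit 0, nat_lit 0, [nat_lit 2032000001, nat_lit 4688000000, nat_lit 7968000000], [], [nat_lit 25855926089, nat_lit 26312350638, nat_lit 29999583984, nat_lit 30499057052, nat_lit 27166478349, nat_lit 27627026441, nat_lit 30987987061, nat_lit 31432233148], nat_lit 0, nat_lit 0, nat_lit 0, nat_lit 0, nat_lit 0, nat_lit 0, [], [nat_lit 34, nat_lit 40, nat_lit 40, nat_lit 80, nat_lit 7, nat_lit 272, nat_lit 60, nat_lit 7]⟩, ⟨p099_k0, nat_lit 0, nat_lit 0, nat_lit 708, nat_lit 0, nat_lit 1213570, [nat_lit 2032000000, nat_lit 4688000000, nat_lit 9842000000], [], [nat_lit 35959207207, nat_lit 36398295782, nat_lit 38360762332, nat_lit 39770693568, nat_lit 33167396936, nat_lit 33535116234, nat_lit 35078174552, nat_lit 35447321982], nat_lit 1271250, nat_lit 1271250, nat_lit 1271250, nat_lit 1271250, nat_lit 88400, nat_lit 1100001, [nat_lit 490000, nat_lit 1100000, nat_lit 2127500],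 [nat_lit 27, nat_lit 40, nat_lit 40, nat_lit 80, nat_lit 13, nat_lit 290, nat_lit 40, nat_lit 7]⟩,
 zbF0, [⟨nat_lit 4, nat_lit 100, nat_lit 69, nat_lit 71, nat_lit 600830089⟩]⟩
noncomputable def p099_l29 : Lf2 := ⟨nat_lit 0, nat_lit 20, [nat_lit 5, nat_lit 5, nat_lit 5, nat_lit 20], false, nat_lit 160, nat_lit 216, nat_lit 16, nat_lit 160, ⟨nat_lit 1000, nat_lit 0, nat_lit 0, nat_lit 0, nat_lit 0, nat_lit 0, nat_lit 0, nat_lit 0, nat_lit 0, nat_lit 0, nat_lit 0, nat_lit 0, nat_lit 0, nat_lit 0, nat_lit 0, nat_lit 0, false, false⟩,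
 nat_lit 0, nat_lit 0, nat_lit 8707, nat_lit 0, nat_lit 3644, nat_lit 6529, nat_lit 787, nat_lit 0, nat_lit 0, nat_lit 560, nat_lit 0, nat_lit 0, nat_lit 0, nat_lit 0, nat_lit 0, nat_lit 0, nat_lit 0, nat_lit 0, [],
 ⟨p099_k3, nat_lit 0, nat_lit 0, nat_lit 105, nat_lit 0, nat_lit 0, [nat_lit 2032000001, nat_lit 4688000000, nat_lit 7968000000], [], [nat_lit 25736388304, nat_lit 26229011948, nat_lit 29903068664, nat_lit 30381643840, nat_lit 26806373295, nat_lit 27304632140, nat_lit 30682708012, nat_lit 31121507799], nat_lit 0, nat_lit 0, nat_lit 0, nat_lit 0, nat_lit 0, nat_lit 0, [], [nat_lit 34, nat_lit 40, nat_lit 40, nat_lit 80, nat_lit 7, nat_lit 272, nat_lit 60, nat_lit 7]⟩, ⟨p099_k0, nat_lit 0, nat_lit 0, nat_lit 743, nat_lit 0, nat_lit 1315864, [nat_lit 2032000000, nat_lit 4688000000, nat_lit 9842000000], [], [nat_lit 35959207207, nat_lit 36398295782, nat_lit 38360762332, nat_lit 39770693568, nat_lit 33167396936,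 nat_lit 33535116234, nat_lit 35078174552, nat_lit 35447321982], nat_lit 1271250, nat_lit 1271250, nat_lit 1271250, nat_lit 1271250, nat_lit 88400, nat_lit 1100001, [nat_lit 490000, nat_lit 1100000, nat_lit 2127500], [nat_lit 27, nat_lit 40, nat_lit 40, nat_lit 80, nat_lit 13, nat_lit 299, nat_lit 40, nat_lit 8]⟩,
 zbF0, [⟨nat_lit 4, nat_lit 100, nat_lit 63, nat_lit 72, nat_lit 1623118426⟩]⟩
noncomputable def p099_l30 : Lf2 := ⟨nat_lit 0, nat_lit 20, [nat_lit 5, nat_lit 5, nat_lit 5, nat_lit 20], false, nat_lit 160, nat_lit 232, nat_lit 160, nat_lit 260, ⟨nat_lit 1000, nat_lit 0, nat_lit 0, nat_lit 0, nat_lit 0, nat_lit 0, nat_lit 0, nat_lit 0, nat_lit 0, nat_lit 0, nat_lit 0, nat_lit 0, nat_lit 0, nat_lit 0, nat_lit 0, nat_lit 0, false, false⟩,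
 nat_lit 0, nat_lit 0, nat_lit 8696, nat_lit 0, nat_lit 3991, nat_lit 6522, nat_lit 758, nat_lit 0, nat_lit 0, nat_lit 568, nat_lit 0, nat_lit 0, nat_lit 0, nat_lit 0, nat_lit 0, nat_lit 0, nat_lit 0, nat_lit 0, [],
 ⟨p099_k2, nat_lit 0, nat_lit 0, nat_lit 97, nat_lit 0, nat_lit 0, [nat_lit 2032000001, nat_lit 4688000000, nat_lit 7968000000], [], [nat_lit 25942672825, nat_lit 26396100727, nat_lit 29956967562, nat_lit 30391976396, nat_lit 27258988958, nat_lit 27716079172, nat_lit 30897648364, nat_lit 31337588706], nat_lit 0, nat_lit 0, nat_lit 0, nat_lit 0, nat_lit 0, nat_lit 0, [], [nat_lit 34, nat_lit 40, nat_lit 40, nat_lit 80, nat_lit 7, nat_lit 272, nat_lit 60, nat_lit 7]⟩, ⟨p099_k0, nat_lit 0, nat_lit 0, nat_lit 606, nat_lit 0, nat_lit 1213570, [nat_lit 2032000000, nat_lit 4688000000, nat_lit 9842000000], [], [nat_lit 31699632224, nat_lit 32145131968, nat_lit 33799959912, nat_lit 34249473140, nat_lit 32026144578,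 nat_lit 32492886513, nat_lit 34032198884, nat_lit 34594260083], nat_lit 1271250, nat_lit 1271250, nat_lit 1271250, nat_lit 1271250, nat_lit 1100001, nat_lit 1956250, [nat_lit 490000, nat_lit 1100000, nat_lit 2127500], [nat_lit 27, nat_lit 40, nat_lit 40, nat_lit 80, nat_lit 13, nat_lit 289, nat_lit 75, nat_lit 7]⟩,
 zbF0, [⟨nat_lit 16, nat_lit 69, nat_lit 100, nat_lit 71, nat_lit 601580052⟩, ⟨nat_lit 7, nat_lit 100, nat_lit 76, nat_lit 72, nat_lit 415173928⟩]⟩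
noncomputable def p099_l31 : Lf2 := ⟨nat_lit 0, nat_lit 20, [nat_lit 5, nat_lit 5, nat_lit 5, nat_lit 20], false, nat_lit 160, nat_lit 216, nat_lit 160, nat_lit 260, ⟨nat_lit 1000, nat_lit 0, nat_lit 0, nat_lit 0, nat_lit 0, nat_lit 0, nat_lit 0, nat_lit 0, nat_lit 0, nat_lit 0, nat_lit 0, nat_lit 0, nat_lit 0, nat_lit 0, nat_lit 0, nat_lit 0, false, false⟩,
 nat_lit 0, nat_lit 0, nat_lit 8661, nat_lit 0, nat_lit 3641, nat_lit 6495, nat_lit 778, nat_lit 0, nat_lit 0, nat_lit 551, nat_lit 0, nat_lit 0, nat_lit 0, nat_lit 0, nat_lit 0, nat_lit 0, nat_lit 0, nat_lit 0, [],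
 ⟨p099_k3, nat_lit 0, nat_lit 0, nat_lit 105, nat_lit 0, nat_lit 0, [nat_lit 2032000001, nat_lit 4688000000, nat_lit 7968000000], [], [nat_lit 25828196743, nat_lit 26265857759, nat_lit 29898841796, nat_lit 30377268760, nat_lit 26816688909, nat_lit 27306988729, nat_lit 30678862957, nat_lit 31117537078], nat_lit 0, nat_lit 0, nat_lit 0, nat_lit 0, nat_lit 0, nat_lit 0, [], [nat_lit 34, nat_lit 40, nat_lit 40, nat_lit 80, nat_lit 7, nat_lit 272, nat_lit 60, nat_lit 7]⟩, ⟨p099_k0, nat_lit 0, nat_lit 0, nat_lit 641, nat_lit 0, nat_lit 1315864, [nat_lit 2032000000, nat_lit 4688000000, nat_lit 9842000000], [], [nat_lit 32012984415, nat_lit 32458204655, nat_lit 33935041020, nat_lit 34384274150, nat_lit 32278140585, nat_lit 32638877273, nat_lit 34173051890, nat_lit 34561808743], nat_lit 1271250, nat_lit 1271250, nat_lit 1271250, nat_lit 1271250, nat_lit 1100001, nat_lit 1956250, [nat_lit 490000, nat_lit 1100000, nat_lit 2127500],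 [nat_lit 27, nat_lit 40, nat_lit 40, nat_lit 80, nat_lit 13, nat_lit 289, nat_lit 75, nat_lit 7]⟩,
 zbF0, [⟨nat_lit 4, nat_lit 100, nat_lit 63, nat_lit 72, nat_lit 1150248863⟩, ⟨nat_lit 7, nat_lit 100, nat_lit 76, nat_lit 72, nat_lit 400042589⟩]⟩
noncomputable def b_V_800_800_10_16 : St := ⟨true, nat_lit 0, nat_lit 1, nat_lit 1, nat_lit 80, nat_lit 320, nat_lit 360, nat_lit 320, nat_lit 340, nat_lit 240, nat_lit 400, nat_lit 40, nat_lit 80, nat_lit 0, nat_lit 260, nat_lit 0, nat_lit 260, nat_lit 40, nat_lit 80, nat_lit 0, nat_lit 0, nat_lit 0, nat_lit 0⟩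
theorem d_V_800_800_10_16 (h : EB TB.env) : Dead b_V_800_800_10_16 := chkB_sound0 h (T :=
(.spl (nat_lit 4) (nat_lit 160)
(.spl (nat_lit 0) (nat_lit 340)
(.spl (nat_lit 0) (nat_lit 330)
(.ord (.leaf p099_l8))
(.spl (nat_lit 5) (nat_lit 160)
(.leaf p099_l9)
(.leaf p099_l10)))
(.spl (nat_lit 5) (nat_lit 160)
(.spl (nat_lit 1) (nat_lit 330)
(.spl (nat_lit 4) (nat_lit 80)
(.spl (nat_lit 2) (nat_lit 320)
(.leaf p099_l11)
(.leaf p099_l12))
(.spl (nat_lit 5) (nat_lit 80)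
(.spl (nat_lit 0) (nat_lit 350)
(.leaf p099_l13)
(.leaf p099_l14))
(.spl (nat_lit 0) (nat_lit 350)
(.leaf p099_l15)
(.leaf p099_l16))))
(.leaf p099_l17))
(.spl (nat_lit 2) (nat_lit 320)
(.spl (nat_lit 4) (nat_lit 80)
(.leaf p099_l18)
(.leaf p099_l19))
(.trZ (nat_lit 22) (nat_lit 82) (nat_lit 100) (nat_lit 44) (nat_lit 16) (.spl (nat_lit 1) (nat_lit 330)
(.spl (nat_lit 3) (nat_lit 60)
(.trX (nat_lit 19) (nat_lit 81) (nat_lit 100) (nat_lit 72) (nat_lit 232) (.spl (nat_lit 0) (nat_lit 350)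
(.leaf p099_l20)
(.leaf p099_l21)))
(.leaf p099_l22))
(.trX (nat_lit 19) (nat_lit 78) (nat_lit 100) (nat_lit 82) (nat_lit 244) (.leaf p099_l23)))))))
(.spl (nat_lit 0) (nat_lit 340)
(.spl (nat_lit 1) (nat_lit 330)
(.spl (nat_lit 2) (nat_lit 320)
(.leaf p099_l24)
(.trZ (nat_lit 9) (nat_lit 100) (nat_lit 82) (nat_lit 44) (nat_lit 16) (.leaf p099_l25)))
(.ord (.trX (nat_lit 16) (nat_lit 78) (nat_lit 100) (nat_lit 82) (nat_lit 244) (.trX (nat_lit 19) (nat_lit 78) (nat_lit 100) (nat_lit 82) (nat_lit 244) (.leaf p099_l26)))))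
(.trX (nat_lit 16) (nat_lit 72) (nat_lit 100) (nat_lit 81) (nat_lit 232) (.spl (nat_lit 2) (nat_lit 320)
(.leaf p099_l27)
(.trZ (nat_lit 9) (nat_lit 100) (nat_lit 82) (nat_lit 44) (nat_lit 16) (.spl (nat_lit 5) (nat_lit 160)
(.spl (nat_lit 0) (nat_lit 350)
(.leaf p099_l28)
(.trX (nat_lit 16) (nat_lit 66) (nat_lit 100) (nat_lit 80) (nat_lit 216) (.leaf p099_l29)))
(.spl (nat_lit 0) (nat_lit 350)
(.leaf p099_l30)
(.trX (nat_lit 16) (nat_lit 66) (nat_lit 100) (nat_lit 80) (nat_lit 216) (.leaf p099_l31)))))))))) (by decide +kernel)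
noncomputable def p099_l32 : Lf2 := ⟨nat_lit 0, nat_lit 20, [nat_lit 5, nat_lit 5, nat_lit 5, nat_lit 20], false, nat_lit 0, nat_lit 260, nat_lit 0, nat_lit 260, ⟨nat_lit 1000, nat_lit 0, nat_lit 0, nat_lit 0, nat_lit 0, nat_lit 0, nat_lit 0, nat_lit 0, nat_lit 0, nat_lit 0, nat_lit 0, nat_lit 0, nat_lit 0, nat_lit 0, nat_lit 0, nat_lit 0, false, false⟩,
 nat_lit 0, nat_lit 0, nat_lit 0, nat_lit 0, nat_lit 7650, nat_lit 8004, nat_lit 685, nat_lit 0, nat_lit 0, nat_lit 388, nat_lit 0, nat_lit 0, nat_lit 0, nat_lit 0, nat_lit 0, nat_lit 0, nat_lit 0, nat_lit 0, [],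
 ⟨p099_k0, nat_lit 0, nat_lit 0, nat_lit 215, nat_lit 0, nat_lit 0, [nat_lit 2032000001, nat_lit 4688000000, nat_lit 9842000000], [], [nat_lit 25678535725, nat_lit 29903691625, nat_lit 42676761400, nat_lit 45780273800, nat_lit 22976665125, nat_lit 25843595500, nat_lit 34854166500, nat_lit 37045843450], nat_lit 0, nat_lit 0, nat_lit 0, nat_lit 0, nat_lit 0, nat_lit 0, [], [nat_lit 27, nat_lit 40, nat_lit 40, nat_lit 80, nat_lit 13, nat_lit 401, nat_lit 175, nat_lit 11]⟩, ⟨p099_k0, nat_lit 0, nat_lit 0, nat_lit 212, nat_lit 0, nat_lit 0, [nat_lit 2032000000, nat_lit 4688000000, nat_lit 9842000000], [], [nat_lit 28798189996, nat_lit 30975749248, nat_lit 43667167024, nat_lit 45260790096, nat_lit 25717743300, nat_lit 27190319735, nat_lit 35254480320, nat_lit 36375478106], nat_lit 0, nat_lit 0, nat_lit 0, nat_lit 0, nat_lit 0, nat_lit 0, [], [nat_lit 27, nat_lit 40, nat_lit 40, nat_lit 80, nat_lit 13, nat_lit 401, nat_lit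 175, nat_lit 11]⟩,
 zbF0, [⟨nat_lit 0, nat_lit 76, nat_lit 72, nat_lit 100, nat_lit 41586081⟩, ⟨nat_lit 16, nat_lit 83, nat_lit 100, nat_lit 83, nat_lit 4190200⟩]⟩
noncomputable def p099_l33 : Lf2 := ⟨nat_lit 0, nat_lit 20, [nat_lit 5, nat_lit 5, nat_lit 5, nat_lit 20], false, nat_lit 0, nat_lit 160, nat_lit 0, nat_lit 260, ⟨nat_lit 370, nat_lit 630, nat_lit 0, nat_lit 8, nat_lit 301, nat_lit 630, nat_lit 56, nat_lit 0, nat_lit 0, nat_lit 0, nat_lit 0, nat_lit 0, nat_lit 0, nat_lit 0, nat_lit 0, nat_lit 5000000, true, false⟩,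
 nat_lit 0, nat_lit 0, nat_lit 2969, nat_lit 0, nat_lit 4272, nat_lit 2226, nat_lit 290, nat_lit 0, nat_lit 0, nat_lit 202, nat_lit 0, nat_lit 0, nat_lit 0, nat_lit 0, nat_lit 0, nat_lit 252000, nat_lit 0, nat_lit 0, [(nat_lit 19, [(nat_lit 1, nat_lit 630)])],
 ⟨p099_k0, nat_lit 0, nat_lit 0, nat_lit 211, nat_lit 0, nat_lit 0, [nat_lit 1632664001, nat_lit 3018248000, nat_lit 4795700000], [], [nat_lit 24268908666, nat_lit 24905272278, nat_lit 33395167050, nat_lit 33805693730, nat_lit 22939194219, nat_lit 23448271339, nat_lit 30606836074, nat_lit 30921546170], nat_lit 0, nat_lit 0, nat_lit 0, nat_lit 0, nat_lit 0, nat_lit 0, [], [nat_lit 27, nat_lit 40, nat_lit 40, nat_lit 80, nat_lit 13, nat_lit 373, nat_lit 150, nat_lit 11]⟩, ⟨p099_k0, nat_lit 0, nat_lit 0, nat_lit 628, nat_lit 0, nat_lit 942121, [nat_lit 751840000, nat_lit 1734560000, nat_lit 3641540000], [], [nat_lit 12145481042, nat_lit 12312515477, nat_lit 14277912602,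 nat_lit 14370279368, nat_lit 13968666099, nat_lit 13477366196, nat_lit 13057531744, nat_lit 13120478832], nat_lit 1271250, nat_lit 1271250, nat_lit 1271250, nat_lit 1271250, nat_lit 0, nat_lit 1836250, [nat_lit 490000, nat_lit 1100000, nat_lit 2127500], [nat_lit 27, nat_lit 40, nat_lit 40, nat_lit 80, nat_lit 13, nat_lit 401, nat_lit 175, nat_lit 11]⟩,
 ⟨nat_lit 4183, nat_lit 4473, ⟨.ofNat (nat_lit 527406), .ofNat (nat_lit 969270), .ofNat (nat_lit 538187), .ofNat (nat_lit 980052), .ofNat (nat_lit 530591), .ofNat (nat_lit 961259), .ofNat (nat_lit 541422), .ofNat (nat_lit 972090)⟩, ⟨.negSucc (nat_lit 12423), .ofNat (nat_lit 259489), .ofNat (nat_lit 0), .ofNat (nat_lit 302621), .negSucc (nat_lit 4612), .ofNat (nat_lit 260409), .ofNat (nat_lit 0), .ofNat (nat_lit 303743)⟩⟩, [⟨nat_lit 19, nat_lit 79, nat_lit 100, nat_lit 72, nat_lit 68716110⟩]⟩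
noncomputable def p099_l34 : Lf2 := ⟨nat_lit 0, nat_lit 20, [nat_lit 5, nat_lit 5, nat_lit 5, nat_lit 20], false, nat_lit 0, nat_lit 160, nat_lit 0, nat_lit 260, ⟨nat_lit 453, nat_lit 547, nat_lit 0, nat_lit 8, nat_lit 307, nat_lit 547, nat_lit 56, nat_lit 0, nat_lit 0, nat_lit 0, nat_lit 0, nat_lit 0, nat_lit 0, nat_lit 0, nat_lit 0, nat_lit 5000000, true, false⟩,
 nat_lit 0, nat_lit 0, nat_lit 3789, nat_lit 0, nat_lit 4183, nat_lit 2841, nat_lit 419, nat_lit 0, nat_lit 0, nat_lit 196, nat_lit 0, nat_lit 0, nat_lit 0, nat_lit 0, nat_lit 0, nat_lit 136750, nat_lit 0, nat_lit 0, [(nat_lit 19, [(nat_lit 0, nat_lit 547)])],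
 ⟨p099_k1, nat_lit 0, nat_lit 0, nat_lit 212, nat_lit 0, nat_lit 0, [nat_lit 1764188801, nat_lit 3419178800, nat_lit 6167246360], [], [nat_lit 24705536827, nat_lit 25321156215, nat_lit 33547801870, nat_lit 34118662392, nat_lit 23513456503, nat_lit 24006804358, nat_lit 30612418415, nat_lit 30925449259], nat_lit 0, nat_lit 0, nat_lit 0, nat_lit 0, nat_lit 0, nat_lit 0, [], [nat_lit 27, nat_lit 40, nat_lit 40, nat_lit 80, nat_lit 13, nat_lit 373, nat_lit 150, nat_lit 10]⟩, ⟨p099_k0, nat_lit 0, nat_lit 0, nat_lit 718, nat_lit 0, nat_lit 1116069, [nat_lit 920496000, nat_lit 2123664000, nat_lit 4458426000], [], [nat_lit 15912658716, nat_lit 16252137912, nat_lit 18034717600, nat_lit 18224866048, nat_lit 16532191069, nat_lit 15373046480, nat_lit 16427826694, nat_lit 16553506812], nat_lit 1271250, nat_lit 1271250, nat_lit 1271250, nat_lit 1271250, nat_lit 0, nat_lit 1836250, [nat_lit 490000, nat_lit 1100000, nat_lit 2127500],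 [nat_lit 27, nat_lit 40, nat_lit 40, nat_lit 80, nat_lit 13, nat_lit 401, nat_lit 175, nat_lit 11]⟩,
 ⟨nat_lit 3872, nat_lit 4184, ⟨.ofNat (nat_lit 557086), .ofNat (nat_lit 961264), .ofNat (nat_lit 578748), .ofNat (nat_lit 982925), .ofNat (nat_lit 559753), .ofNat (nat_lit 953353), .ofNat (nat_lit 581542), .ofNat (nat_lit 975141)⟩, ⟨.negSucc (nat_lit 4619), .ofNat (nat_lit 260409), .ofNat (nat_lit 0), .ofNat (nat_lit 303743), .ofNat (nat_lit 0), .ofNat (nat_lit 261131), .ofNat (nat_lit 0), .ofNat (nat_lit 304717)⟩⟩, [⟨nat_lit 19, nat_lit 76, nat_lit 100, nat_lit 72, nat_lit 82675914⟩]⟩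
noncomputable def p099_l35 : Lf2 := ⟨nat_lit 0, nat_lit 20, [nat_lit 5, nat_lit 5, nat_lit 5, nat_lit 20], false, nat_lit 0, nat_lit 160, nat_lit 0, nat_lit 260, ⟨nat_lit 179, nat_lit 821, nat_lit 0, nat_lit 8, nat_lit 308, nat_lit 821, nat_lit 57, nat_lit 0, nat_lit 0, nat_lit 0, nat_lit 0, nat_lit 0, nat_lit 0, nat_lit 0, nat_lit 0, nat_lit 5000000, true, false⟩,
 nat_lit 0, nat_lit 0, nat_lit 1620, nat_lit 0, nat_lit 3548, nat_lit 1214, nat_lit 113, nat_lit 0, nat_lit 0, nat_lit 66, nat_lit 0, nat_lit 0, nat_lit 0, nat_lit 0, nat_lit 0, nat_lit 328400, nat_lit 0, nat_lit 0, [(nat_lit 22, [(nat_lit 1, nat_lit 821)])],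
 ⟨p099_k2, nat_lit 0, nat_lit 0, nat_lit 196, nat_lit 0, nat_lit 0, [nat_lit 1478974401, nat_lit 2115642801, nat_lit 2571402800], [], [nat_lit 23413015236, nat_lit 24561158767, nat_lit 32266987152, nat_lit 33333608016, nat_lit 22997261115, nat_lit 23975349819, nat_lit 29956458547, nat_lit 30574939056], nat_lit 0, nat_lit 0, nat_lit 0, nat_lit 0, nat_lit 0, nat_lit 0, [], [nat_lit 34, nat_lit 40, nat_lit 40, nat_lit 80, nat_lit 7, nat_lit 373, nat_lit 150, nat_lit 12]⟩, ⟨p099_k0, nat_lit 0, nat_lit 0, nat_lit 758, nat_lit 0, nat_lit 1242609, [nat_lit 363728000, nat_lit 839152000, nat_lit 1761718000], [], [nat_lit 6308761682, nat_lit 6364925385, nat_lit 7246271670, nat_lit 7334387791, nat_lit 6235727403, nat_lit 5970139712, nat_lit 6234694246, nat_lit 6265489436], nat_lit 1271250, nat_lit 1271250, nat_lit 1271250, nat_lit 1271250, nat_lit 0, nat_lit 1836250, [nat_lit 490000, nat_lit 1100000, nat_lit 2127500], [nat_lit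 27, nat_lit 40, nat_lit 40, nat_lit 80, nat_lit 13, nat_lit 401, nat_lit 175, nat_lit 11]⟩,
 ⟨nat_lit 3162, nat_lit 3873, ⟨.ofNat (nat_lit 578944), .ofNat (nat_lit 953347), .ofNat (nat_lit 589826), .ofNat (nat_lit 964233), .ofNat (nat_lit 583969), .ofNat (nat_lit 937676), .ofNat (nat_lit 595032), .ofNat (nat_lit 948743)⟩, ⟨.ofNat (nat_lit 0), .ofNat (nat_lit 261131), .ofNat (nat_lit 0), .ofNat (nat_lit 304717), .ofNat (nat_lit 0), .ofNat (nat_lit 261806), .ofNat (nat_lit 0), .ofNat (nat_lit 306116)⟩⟩, [⟨nat_lit 13, nat_lit 85, nat_lit 22, nat_lit 100, nat_lit 95329304⟩, ⟨nat_lit 13, nat_lit 75, nat_lit 35, nat_lit 100, nat_lit 16421253⟩, ⟨nat_lit 10, nat_lit 100, nat_lit 30, nat_lit 85, nat_lit 39646477⟩]⟩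
noncomputable def p099_l36 : Lf2 := ⟨nat_lit 0, nat_lit 20, [nat_lit 5, nat_lit 5, nat_lit 5, nat_lit 20], false, nat_lit 0, nat_lit 160, nat_lit 0, nat_lit 244, ⟨nat_lit 530, nat_lit 470, nat_lit 0, nat_lit 8, nat_lit 316, nat_lit 470, nat_lit 57, nat_lit 0, nat_lit 0, nat_lit 0, nat_lit 0, nat_lit 0, nat_lit 0, nat_lit 0, nat_lit 0, nat_lit 5000000, true, false⟩,
 nat_lit 0, nat_lit 0, nat_lit 3989, nat_lit 0, nat_lit 3952, nat_lit 3109, nat_lit 30, nat_lit 0, nat_lit 0, nat_lit 323, nat_lit 0, nat_lit 0, nat_lit 0, nat_lit 0, nat_lit 0, nat_lit 470000, nat_lit 0, nat_lit 0, [(nat_lit 22, [(nat_lit 2, nat_lit 470)])],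
 ⟨p099_k2, nat_lit 0, nat_lit 0, nat_lit 196, nat_lit 0, nat_lit 0, [nat_lit 1732453334, nat_lit 2482008001, nat_lit 2403952000], [], [nat_lit 24454091901, nat_lit 25638388037, nat_lit 33445060848, nat_lit 34559461984, nat_lit 23632480053, nat_lit 24638080709, nat_lit 30534230165, nat_lit 31184325455], nat_lit 0, nat_lit 0, nat_lit 0, nat_lit 0, nat_lit 0, nat_lit 0, [], [nat_lit 34, nat_lit 40, nat_lit 40, nat_lit 80, nat_lit 7, nat_lit 373, nat_lit 150, nat_lit 12]⟩, ⟨p099_k1, nat_lit 0, nat_lit 0, nat_lit 755, nat_lit 0, nat_lit 1246790, [nat_lit 1076960000, nat_lit 2484640000, nat_lit 5216260000], [], [nat_lit 17481275182, nat_lit 17626055201, nat_lit 20328709440, nat_lit 20684013636, nat_lit 16453004378, nat_lit 16556152120, nat_lit 17981426798, nat_lit 18058132494], nat_lit 1271250, nat_lit 1271250, nat_lit 1271250, nat_lit 1271250, nat_lit 0, nat_lit 1723250, [nat_lit 490000, nat_lit 1100000, nat_lit 2127500],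 [nat_lit 27, nat_lit 40, nat_lit 40, nat_lit 80, nat_lit 13, nat_lit 401, nat_lit 175, nat_lit 11]⟩,
 ⟨nat_lit 3162, nat_lit 3873, ⟨.ofNat (nat_lit 609192), .ofNat (nat_lit 964233), .ofNat (nat_lit 620075), .ofNat (nat_lit 975119), .ofNat (nat_lit 613327), .ofNat (nat_lit 948743), .ofNat (nat_lit 624390), .ofNat (nat_lit 959810)⟩, ⟨.ofNat (nat_lit 0), .ofNat (nat_lit 261131), .ofNat (nat_lit 0), .ofNat (nat_lit 304717), .ofNat (nat_lit 0), .ofNat (nat_lit 261806), .ofNat (nat_lit 0), .ofNat (nat_lit 306116)⟩⟩, [⟨nat_lit 19, nat_lit 74, nat_lit 100, nat_lit 72, nat_lit 64004017⟩]⟩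
noncomputable def p099_l37 : Lf2 := ⟨nat_lit 0, nat_lit 20, [nat_lit 5, nat_lit 5, nat_lit 5, nat_lit 20], true, nat_lit 160, nat_lit 260, nat_lit 0, nat_lit 260, ⟨nat_lit 0, nat_lit 1000, nat_lit 0, nat_lit 8, nat_lit 250, nat_lit 1000, nat_lit 145, nat_lit 0, nat_lit 0, nat_lit 0, nat_lit 0, nat_lit 0, nat_lit 0, nat_lit 0, nat_lit 0, nat_lit 5000000, false, false⟩,
 nat_lit 0, nat_lit 0, nat_lit 0, nat_lit 0, nat_lit 3328, nat_lit 0, nat_lit 0, nat_lit 0, nat_lit 0, nat_lit 0, nat_lit 0, nat_lit 0, nat_lit 0, nat_lit 13520193988747, nat_lit 0, nat_lit 250000, nat_lit 0, nat_lit 0, [(nat_lit 19, [(nat_lit 0, nat_lit 1000)]), (nat_lit 22, [(nat_lit 0, nat_lit 1000)])],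
 ⟨p099_k0, nat_lit 0, nat_lit 0, nat_lit 49, nat_lit 0, nat_lit 0, [nat_lit 1568000001, nat_lit 2368400000, nat_lit 3220880000], [], [nat_lit 16070031617, nat_lit 19275061472, nat_lit 19312743937, nat_lit 22025970080, nat_lit 19954624513, nat_lit 22686462596, nat_lit 22551010945, nat_lit 24886841480], nat_lit 0, nat_lit 0, nat_lit 0, nat_lit 0, nat_lit 0, nat_lit 0, [], [nat_lit 27, nat_lit 40, nat_lit 40, nat_lit 80, nat_lit 13, nat_lit 345, nat_lit 125, nat_lit 9]⟩, C1.Rw.none,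
 ⟨nat_lit 3162, nat_lit 4473, ⟨.ofNat (nat_lit 526772), .ofNat (nat_lit 696911), .ofNat (nat_lit 548248), .ofNat (nat_lit 718387), .ofNat (nat_lit 540839), .ofNat (nat_lit 693416), .ofNat (nat_lit 562904), .ofNat (nat_lit 715481)⟩, ⟨.ofNat (nat_lit 259488), .ofNat (nat_lit 429433), .ofNat (nat_lit 302621), .ofNat (nat_lit 472567), .ofNat (nat_lit 261805), .ofNat (nat_lit 414188), .ofNat (nat_lit 306116), .ofNat (nat_lit 458499)⟩⟩, [⟨nat_lit 16, nat_lit 83, nat_lit 100, nat_lit 83, nat_lit 357945078⟩]⟩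
noncomputable def p099_l38 : Lf2 := ⟨nat_lit 0, nat_lit 20, [nat_lit 5, nat_lit 5, nat_lit 5, nat_lit 20], false, nat_lit 160, nat_lit 260, nat_lit 0, nat_lit 260, ⟨nat_lit 815, nat_lit 185, nat_lit 0, nat_lit 8, nat_lit 335, nat_lit 185, nat_lit 146, nat_lit 0, nat_lit 0, nat_lit 0, nat_lit 0, nat_lit 0, nat_lit 0, nat_lit 0, nat_lit 0, nat_lit 5000000, true, true⟩,
 nat_lit 0, nat_lit 0, nat_lit 6443, nat_lit 0, nat_lit 5188, nat_lit 4832, nat_lit 0, nat_lit 0, nat_lit 0, nat_lit 495, nat_lit 0, nat_lit 0, nat_lit 0, nat_lit 0, nat_lit 0, nat_lit 46250, nat_lit 0, nat_lit 0, [(nat_lit 19, [(nat_lit 0, nat_lit 185)])],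
 ⟨p099_k0, nat_lit 0, nat_lit 0, nat_lit 80, nat_lit 0, nat_lit 0, [nat_lit 1941424001, nat_lit 4258874001, nat_lit 8590808000], [], [nat_lit 21197965585, nat_lit 21947321753, nat_lit 30486910769, nat_lit 30968786824, nat_lit 24354284533, nat_lit 24971218556, nat_lit 32070063040, nat_lit 32530493261], nat_lit 0, nat_lit 0, nat_lit 0, nat_lit 0, nat_lit 0, nat_lit 0, [], [nat_lit 27, nat_lit 40, nat_lit 40, nat_lit 80, nat_lit 13, nat_lit 401, nat_lit 175, nat_lit 10]⟩, ⟨p099_k0, nat_lit 0, nat_lit 0, nat_lit 604, nat_lit 0, nat_lit 942121, [nat_lit 1656080000, nat_lit 3820720000, nat_lit 8021230000], [], [nat_lit 27414943283, nat_lit 27722237072, nat_lit 31193374839, nat_lit 31406398745, nat_lit 26026201289, nat_lit 26239579030, nat_lit 29023729304, nat_lit 29201835975], nat_lit 1271250, nat_lit 1271250, nat_lit 1271250, nat_lit 1271250, nat_lit 0, nat_lit 1836250, [nat_lit 490000, nat_lit 1100000, nat_lit 2127500],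 [nat_lit 27, nat_lit 40, nat_lit 40, nat_lit 80, nat_lit 13, nat_lit 401, nat_lit 175, nat_lit 11]⟩,
 ⟨nat_lit 4183, nat_lit 4473, ⟨.ofNat (nat_lit 697354), .ofNat (nat_lit 969270), .ofNat (nat_lit 708135), .ofNat (nat_lit 980052), .ofNat (nat_lit 696233), .ofNat (nat_lit 961259), .ofNat (nat_lit 707064), .ofNat (nat_lit 972090)⟩, ⟨.ofNat (nat_lit 259489), .ofNat (nat_lit 429434), .ofNat (nat_lit 302621), .ofNat (nat_lit 472567), .ofNat (nat_lit 260409), .ofNat (nat_lit 426048), .ofNat (nat_lit 303743), .ofNat (nat_lit 469382)⟩⟩, [⟨nat_lit 4, nat_lit 100, nat_lit 79, nat_lit 72, nat_lit 467809845⟩, ⟨nat_lit 19, nat_lit 79, nat_lit 100, nat_lit 72, nat_lit 170764826⟩]⟩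
noncomputable def p099_l39 : Lf2 := ⟨nat_lit 0, nat_lit 20, [nat_lit 5, nat_lit 5, nat_lit 5, nat_lit 20], false, nat_lit 160, nat_lit 244, nat_lit 0, nat_lit 260, ⟨nat_lit 551, nat_lit 449, nat_lit 0, nat_lit 8, nat_lit 335, nat_lit 449, nat_lit 140, nat_lit 0, nat_lit 0, nat_lit 0, nat_lit 0, nat_lit 0, nat_lit 0, nat_lit 0, nat_lit 0, nat_lit 5000000, true, false⟩,
 nat_lit 0, nat_lit 0, nat_lit 4518, nat_lit 0, nat_lit 4121, nat_lit 3388, nat_lit 528, nat_lit 0, nat_lit 0, nat_lit 286, nat_lit 0, nat_lit 0, nat_lit 0, nat_lit 17101203043509, nat_lit 0, nat_lit 112250, nat_lit 0, nat_lit 0, [(nat_lit 19, [(nat_lit 0, nat_lit 449)])],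
 ⟨p099_k1, nat_lit 0, nat_lit 0, nat_lit 92, nat_lit 0, nat_lit 0, [nat_lit 1812169601, nat_lit 3646499600, nat_lit 6805323200], [], [nat_lit 23221351771, nat_lit 23750326026, nat_lit 29729921668, nat_lit 30151180572, nat_lit 24914783730, nat_lit 25373277252, nat_lit 30889414393, nat_lit 31272640255], nat_lit 0, nat_lit 0, nat_lit 0, nat_lit 0, nat_lit 0, nat_lit 0, [], [nat_lit 27, nat_lit 40, nat_lit 40, nat_lit 80, nat_lit 13, nat_lit 401, nat_lit 175, nat_lit 10]⟩, ⟨p099_k0, nat_lit 0, nat_lit 0, nat_lit 690, nat_lit 0, nat_lit 1116069, [nat_lit 1119632000, nat_lit 2583088000, nat_lit 5422942000], [], [nat_lit 19611789342, nat_lit 19964039676, nat_lit 21755162406, nat_lit 21986034440, nat_lit 18458028215, nat_lit 18699593083, nat_lit 19877711763, nat_lit 20031267935], nat_lit 1271250, nat_lit 1271250, nat_lit 1271250, nat_lit 1271250, nat_lit 0, nat_lit 1836250, [nat_lit 490000, nat_lit 1100000, nat_lit 2127500],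 [nat_lit 27, nat_lit 40, nat_lit 40, nat_lit 80, nat_lit 13, nat_lit 401, nat_lit 175, nat_lit 11]⟩,
 ⟨nat_lit 3872, nat_lit 4184, ⟨.ofNat (nat_lit 696229), .ofNat (nat_lit 961264), .ofNat (nat_lit 717891), .ofNat (nat_lit 982925), .ofNat (nat_lit 695254), .ofNat (nat_lit 953353), .ofNat (nat_lit 717043), .ofNat (nat_lit 975141)⟩, ⟨.ofNat (nat_lit 260409), .ofNat (nat_lit 399546), .ofNat (nat_lit 303743), .ofNat (nat_lit 442879), .ofNat (nat_lit 261131), .ofNat (nat_lit 396626), .ofNat (nat_lit 304717), .ofNat (nat_lit 440213)⟩⟩, [⟨nat_lit 4, nat_lit 100, nat_lit 74, nat_lit 72, nat_lit 416219743⟩, ⟨nat_lit 7, nat_lit 100, nat_lit 76, nat_lit 72, nat_lit 103159577⟩]⟩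
noncomputable def p099_l40 : Lf2 := ⟨nat_lit 0, nat_lit 20, [nat_lit 5, nat_lit 5, nat_lit 5, nat_lit 20], false, nat_lit 160, nat_lit 232, nat_lit 0, nat_lit 260, ⟨nat_lit 415, nat_lit 585, nat_lit 0, nat_lit 8, nat_lit 332, nat_lit 585, nat_lit 136, nat_lit 0, nat_lit 0, nat_lit 0, nat_lit 0, nat_lit 0, nat_lit 0, nat_lit 0, nat_lit 0, nat_lit 5000000, true, false⟩,
 nat_lit 0, nat_lit 0, nat_lit 3676, nat_lit 0, nat_lit 3458, nat_lit 2757, nat_lit 345, nat_lit 0, nat_lit 0, nat_lit 203, nat_lit 0, nat_lit 0, nat_lit 0, nat_lit 0, nat_lit 0, nat_lit 234000, nat_lit 0, nat_lit 0, [(nat_lit 22, [(nat_lit 1, nat_lit 585)])],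
 ⟨p099_k2, nat_lit 0, nat_lit 0, nat_lit 105, nat_lit 0, nat_lit 0, [nat_lit 1637944000, nat_lit 2855078001, nat_lit 4122678000], [], [nat_lit 23189942744, nat_lit 24196322728, nat_lit 29370610104, nat_lit 30110388880, nat_lit 24702383885, nat_lit 25599924345, nat_lit 30253788841, nat_lit 31093875746], nat_lit 0, nat_lit 0, nat_lit 0, nat_lit 0, nat_lit 0, nat_lit 0, [], [nat_lit 34, nat_lit 40, nat_lit 40, nat_lit 80, nat_lit 7, nat_lit 272, nat_lit 60, nat_lit 7]⟩, ⟨p099_k0, nat_lit 0, nat_lit 0, nat_lit 765, nat_lit 0, nat_lit 1315864, [nat_lit 843280000, nat_lit 1945520000, nat_lit 4084430000], [], [nat_lit 14621983827, nat_lit 14847354455, nat_lit 16542093412, nat_lit 17136665778, nat_lit 13478550235, nat_lit 13628726092, nat_lit 14321457391, nat_lit 14417157713], nat_lit 1271250, nat_lit 1271250, nat_lit 1271250, nat_lit 1271250, nat_lit 0, nat_lit 1836250, [nat_lit 490000, nat_lit 1100000, nat_lit 2127500],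 [nat_lit 27, nat_lit 40, nat_lit 40, nat_lit 80, nat_lit 13, nat_lit 401, nat_lit 175, nat_lit 11]⟩,
 ⟨nat_lit 3162, nat_lit 3873, ⟨.ofNat (nat_lit 695141), .ofNat (nat_lit 953347), .ofNat (nat_lit 716905), .ofNat (nat_lit 975119), .ofNat (nat_lit 693742), .ofNat (nat_lit 937676), .ofNat (nat_lit 715869), .ofNat (nat_lit 959810)⟩, ⟨.ofNat (nat_lit 261131), .ofNat (nat_lit 377270), .ofNat (nat_lit 304717), .ofNat (nat_lit 420856), .ofNat (nat_lit 261806), .ofNat (nat_lit 371522), .ofNat (nat_lit 306116), .ofNat (nat_lit 415832)⟩⟩, [⟨nat_lit 13, nat_lit 87, nat_lit 18, nat_lit 100, nat_lit 105022063⟩, ⟨nat_lit 4, nat_lit 100, nat_lit 66, nat_lit 72, nat_lit 440626027⟩, ⟨nat_lit 7, nat_lit 100, nat_lit 76, nat_lit 72, nat_lit 34105953⟩]⟩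
noncomputable def b_V_800_800_10_17 : St := ⟨true, nat_lit 0, nat_lit 2, nat_lit 2, nat_lit 80, nat_lit 320, nat_lit 360, nat_lit 320, nat_lit 340, nat_lit 140, nat_lit 400, nat_lit 40, nat_lit 80, nat_lit 0, nat_lit 260, nat_lit 0, nat_lit 260, nat_lit 40, nat_lit 80, nat_lit 0, nat_lit 0, nat_lit 0, nat_lit 0⟩
theorem d_V_800_800_10_17 (h : EB TB.env) : Dead b_V_800_800_10_17 := chkB_sound0 h (T :=
(.st (nat_lit 1)
(.leaf p099_l32)
(.spl (nat_lit 4) (nat_lit 160)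
(.spl (nat_lit 0) (nat_lit 340)
(.spl (nat_lit 0) (nat_lit 330)
(.ord (.leaf p099_l33))
(.trZ (nat_lit 0) (nat_lit 82) (nat_lit 78) (nat_lit 100) (nat_lit 156) (.leaf p099_l34)))
(.trZ (nat_lit 0) (nat_lit 81) (nat_lit 72) (nat_lit 100) (nat_lit 168) (.spl (nat_lit 1) (nat_lit 330)
(.leaf p099_l35)
(.trZ (nat_lit 0) (nat_lit 76) (nat_lit 72) (nat_lit 100) (nat_lit 180) (.trX (nat_lit 19) (nat_lit 78) (nat_lit 100) (nat_lit 82) (nat_lit 244) (.leaf p099_l36))))))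
(.spl (nat_lit 2) (nat_lit 240)
(.leaf p099_l37)
(.spl (nat_lit 0) (nat_lit 340)
(.spl (nat_lit 0) (nat_lit 330)
(.ord (.leaf p099_l38))
(.trX (nat_lit 16) (nat_lit 78) (nat_lit 100) (nat_lit 82) (nat_lit 244) (.leaf p099_l39)))
(.trX (nat_lit 16) (nat_lit 72) (nat_lit 100) (nat_lit 81) (nat_lit 232) (.leaf p099_l40))))))) (by decide +kernel)
noncomputable def p099_l41 : Lf2 := ⟨nat_lit 0, nat_lit 20, [nat_lit 5, nat_lit 5, nat_lit 5, nat_lit 20], false, nat_lit 0, nat_lit 160, nat_lit 0, nat_lit 160, ⟨nat_lit 1000, nat_lit 0, nat_lit 0, nat_lit 0, nat_lit 0, nat_lit 0, nat_lit 0, nat_lit 0, nat_lit 0, nat_lit 0, nat_lit 0, nat_lit 0, nat_lit 0, nat_lit 0, nat_lit 0, nat_lit 0, false, false⟩,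
 nat_lit 0, nat_lit 9180, nat_lit 0, nat_lit 0, nat_lit 6885, nat_lit 6594, nat_lit 737, nat_lit 0, nat_lit 0, nat_lit 1022, nat_lit 0, nat_lit 0, nat_lit 0, nat_lit 34464876170446, nat_lit 0, nat_lit 0, nat_lit 0, nat_lit 0, [],
 ⟨p099_k0, nat_lit 0, nat_lit 0, nat_lit 628, nat_lit 0, nat_lit 942121, [nat_lit 2032000001, nat_lit 4688000000, nat_lit 9842000000], [], [nat_lit 28377371612, nat_lit 28368571995, nat_lit 28874690565, nat_lit 29378847350, nat_lit 24758508125, nat_lit 25159366160, nat_lit 27881022466, nat_lit 26363439890], nat_lit 1271250, nat_lit 1271250, nat_lit 936251, nat_lit 1773750, nat_lit 0, nat_lit 1100001, [nat_lit 490000, nat_lit 1100000, nat_lit 2127500], [nat_lit 27, nat_lit 40, nat_lit 40, nat_lit 80, nat_lit 13, nat_lit 317, nat_lit 100, nat_lit 9]⟩, ⟨p099_k0, nat_lit 0, nat_lit 0, nat_lit 176, nat_lit 0, nat_lit 0, [nat_lit 2032000000, nat_lit 4688000000, nat_lit 9842000000], [], [nat_lit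 21860393906, nat_lit 22819761617, nat_lit 25289529120, nat_lit 26508602578, nat_lit 17324655982, nat_lit 18134963547, nat_lit 20338025792, nat_lit 21201037376], nat_lit 0, nat_lit 0, nat_lit 0, nat_lit 0, nat_lit 0, nat_lit 0, [], [nat_lit 27, nat_lit 40, nat_lit 40, nat_lit 80, nat_lit 13, nat_lit 317, nat_lit 100, nat_lit 9]⟩,
 zbF0, [⟨nat_lit 0, nat_lit 77, nat_lit 77, nat_lit 100, nat_lit 382161724⟩]⟩
noncomputable def p099_l42 : Lf2 := ⟨nat_lit 0, nat_lit 20, [nat_lit 5, nat_lit 5, nat_lit 5, nat_lit 20], false, nat_lit 0, nat_lit 160, nat_lit 0, nat_lit 160, ⟨nat_lit 1000, nat_lit 0, nat_lit 0, nat_lit 0, nat_lit 0, nat_lit 0, nat_lit 0, nat_lit 0, nat_lit 0, nat_lit 0, nat_lit 0, nat_lit 0, nat_lit 0, nat_lit 0, nat_lit 0, nat_lit 0, false, false⟩,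
 nat_lit 0, nat_lit 8421, nat_lit 0, nat_lit 0, nat_lit 6564, nat_lit 6200, nat_lit 958, nat_lit 0, nat_lit 0, nat_lit 886, nat_lit 0, nat_lit 0, nat_lit 0, nat_lit 0, nat_lit 0, nat_lit 0, nat_lit 0, nat_lit 0, [],
 ⟨p099_k1, nat_lit 0, nat_lit 0, nat_lit 693, nat_lit 0, nat_lit 1057696, [nat_lit 2032000001, nat_lit 4688000000, nat_lit 9842000000], [], [nat_lit 24170992386, nat_lit 24653585622, nat_lit 26460604468, nat_lit 27675974216, nat_lit 21769453127, nat_lit 22169455164, nat_lit 22917417555, nat_lit 22987145828], nat_lit 1271250, nat_lit 1271250, nat_lit 1066650, nat_lit 1782750, nat_lit 0, nat_lit 1100001, [nat_lit 490000, nat_lit 1100000, nat_lit 2127500], [nat_lit 27, nat_lit 40, nat_lit 40, nat_lit 80, nat_lit 13, nat_lit 317, nat_lit 100, nat_lit 9]⟩, ⟨p099_k0, nat_lit 0, nat_lit 0, nat_lit 179, nat_lit 0, nat_lit 0, [nat_lit 2032000000, nat_lit 4688000000, nat_lit 9842000000], [], [nat_lit 23149933471,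 nat_lit 24950646510, nat_lit 25446850350, nat_lit 27048658800, nat_lit 19068286430, nat_lit 20587232910, nat_lit 21064279950, nat_lit 22361582000], nat_lit 0, nat_lit 0, nat_lit 0, nat_lit 0, nat_lit 0, nat_lit 0, [], [nat_lit 27, nat_lit 40, nat_lit 40, nat_lit 80, nat_lit 13, nat_lit 317, nat_lit 100, nat_lit 9]⟩,
 zbF0, [⟨nat_lit 0, nat_lit 71, nat_lit 71, nat_lit 100, nat_lit 598824778⟩]⟩
noncomputable def p099_l43 : Lf2 := ⟨nat_lit 0, nat_lit 20, [nat_lit 5, nat_lit 5, nat_lit 5, nat_lit 20], false, nat_lit 0, nat_lit 160, nat_lit 0, nat_lit 160, ⟨nat_lit 1000, nat_lit 0, nat_lit 0, nat_lit 0, nat_lit 0, nat_lit 0, nat_lit 0, nat_lit 0, nat_lit 0, nat_lit 0, nat_lit 0, nat_lit 0, nat_lit 0, nat_lit 0, nat_lit 0, nat_lit 0, false, false⟩,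
 nat_lit 0, nat_lit 6705, nat_lit 0, nat_lit 0, nat_lit 5427, nat_lit 6260, nat_lit 1390, nat_lit 0, nat_lit 0, nat_lit 0, nat_lit 0, nat_lit 0, nat_lit 0, nat_lit 0, nat_lit 0, nat_lit 0, nat_lit 0, nat_lit 0, [],
 ⟨p099_k7, nat_lit 0, nat_lit 0, nat_lit 645, nat_lit 0, nat_lit 1153218, [nat_lit 2032000001, nat_lit 7968000000], [], [nat_lit 23025627033, nat_lit 25329032167, nat_lit 25716475238, nat_lit 27866473516, nat_lit 21587117538, nat_lit 22253331979, nat_lit 22976055104, nat_lit 23240434419], nat_lit 1271250, nat_lit 1271250, nat_lit 1167600, nat_lit 1789500, nat_lit 0, nat_lit 1100001, [nat_lit 490000, nat_lit 1740000], [nat_lit 110, nat_lit 40, nat_lit 40, nat_lit 80, nat_lit 109, nat_lit 317, nat_lit 100, nat_lit 10]⟩, ⟨p099_k8, nat_lit 0, nat_lit 0, nat_lit 166, nat_lit 0, nat_lit 0, [nat_lit 2032000000, nat_lit 9842000000], [], [nat_lit 32228678465, nat_lit 34002968992, nat_lit 34327921280, nat_lit 35862996840,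 nat_lit 28059417104, nat_lit 29556178937, nat_lit 29875838960, nat_lit 31176157560], nat_lit 0, nat_lit 0, nat_lit 0, nat_lit 0, nat_lit 0, nat_lit 0, [], [nat_lit 94, nat_lit 40, nat_lit 40, nat_lit 80, nat_lit 95, nat_lit 317, nat_lit 100, nat_lit 9]⟩,
 zbF0, [⟨nat_lit 0, nat_lit 72, nat_lit 61, nat_lit 100, nat_lit 595788957⟩, ⟨nat_lit 4, nat_lit 100, nat_lit 66, nat_lit 72, nat_lit 3602496⟩]⟩
noncomputable def p099_l44 : Lf2 := ⟨nat_lit 0, nat_lit 20, [nat_lit 5, nat_lit 5, nat_lit 5, nat_lit 20], false, nat_lit 160, nat_lit 260, nat_lit 0, nat_lit 160, ⟨nat_lit 1000, nat_lit 0, nat_lit 0, nat_lit 0, nat_lit 0, nat_lit 0, nat_lit 0, nat_lit 0, nat_lit 0, nat_lit 0, nat_lit 0, nat_lit 0, nat_lit 0, nat_lit 0, nat_lit 0, nat_lit 0, false, false⟩,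
 nat_lit 0, nat_lit 8050, nat_lit 0, nat_lit 0, nat_lit 6037, nat_lit 6200, nat_lit 687, nat_lit 0, nat_lit 0, nat_lit 988, nat_lit 0, nat_lit 0, nat_lit 0, nat_lit 24354292087274, nat_lit 0, nat_lit 0, nat_lit 0, nat_lit 0, [],
 ⟨p099_k0, nat_lit 0, nat_lit 0, nat_lit 608, nat_lit 0, nat_lit 1116069, [nat_lit 2032000001, nat_lit 4688000000, nat_lit 9842000000], [], [nat_lit 28907974275, nat_lit 29664018048, nat_lit 29726210127, nat_lit 30456341409, nat_lit 30189132613, nat_lit 30953839786, nat_lit 31080181196, nat_lit 31743528891], nat_lit 1271250, nat_lit 1271250, nat_lit 936251, nat_lit 1773750, nat_lit 1100001, nat_lit 1956250, [nat_lit 490000, nat_lit 1100000, nat_lit 2127500], [nat_lit 27, nat_lit 40, nat_lit 40, nat_lit 80, nat_lit 13, nat_lit 345, nat_lit 125, nat_lit 9]⟩, ⟨p099_k0, nat_lit 0, nat_lit 0, nat_lit 182, nat_lit 0, nat_lit 0, [nat_lit 2032000000, nat_lit 4688000000, nat_lit 9842000000], [], [nat_lit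 22032690300, nat_lit 23879101900, nat_lit 24707796000, nat_lit 27048658800, nat_lit 17945303100, nat_lit 19502539500, nat_lit 20699257600, nat_lit 22361582000], nat_lit 0, nat_lit 0, nat_lit 0, nat_lit 0, nat_lit 0, nat_lit 0, [], [nat_lit 27, nat_lit 40, nat_lit 40, nat_lit 80, nat_lit 13, nat_lit 317, nat_lit 100, nat_lit 9]⟩,
 zbF0, [⟨nat_lit 0, nat_lit 71, nat_lit 71, nat_lit 100, nat_lit 550822235⟩, ⟨nat_lit 16, nat_lit 76, nat_lit 100, nat_lit 72, nat_lit 501183872⟩]⟩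
noncomputable def p099_l45 : Lf2 := ⟨nat_lit 0, nat_lit 20, [nat_lit 5, nat_lit 5, nat_lit 5, nat_lit 20], false, nat_lit 160, nat_lit 232, nat_lit 0, nat_lit 160, ⟨nat_lit 1000, nat_lit 0, nat_lit 0, nat_lit 0, nat_lit 0, nat_lit 0, nat_lit 0, nat_lit 0, nat_lit 0, nat_lit 0, nat_lit 0, nat_lit 0, nat_lit 0, nat_lit 0, nat_lit 0, nat_lit 0, false, false⟩,
 nat_lit 0, nat_lit 6741, nat_lit 0, nat_lit 0, nat_lit 5457, nat_lit 6466, nat_lit 1334, nat_lit 0, nat_lit 0, nat_lit 0, nat_lit 0, nat_lit 0, nat_lit 0, nat_lit 0, nat_lit 0, nat_lit 0, nat_lit 0, nat_lit 0, [],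
 ⟨p099_k7, nat_lit 0, nat_lit 0, nat_lit 553, nat_lit 0, nat_lit 1153218, [nat_lit 2032000001, nat_lit 7968000000], [], [nat_lit 20824315506, nat_lit 21692114528, nat_lit 21994439296, nat_lit 23251976020, nat_lit 21951052892, nat_lit 23159990969, nat_lit 23541537068, nat_lit 25132383543], nat_lit 1271250, nat_lit 1271250, nat_lit 1167600, nat_lit 1789500, nat_lit 1100001, nat_lit 1716500, [nat_lit 490000, nat_lit 1740000], [nat_lit 110, nat_lit 40, nat_lit 40, nat_lit 80, nat_lit 109, nat_lit 345, nat_lit 125, nat_lit 10]⟩, ⟨p099_k8, nat_lit 0, nat_lit 0, nat_lit 166, nat_lit 0, nat_lit 0, [nat_lit 2032000000, nat_lit 9842000000], [], [nat_lit 32303721463, nat_lit 34113623788, nat_lit 34409770848, nat_lit 35974058444, nat_lit 27900856927, nat_lit 29426189558, nat_lit 29719030936, nat_lit 31042691396], nat_lit 0, nat_lit 0, nat_lit 0, nat_lit 0, nat_lit 0, nat_lit 0, [], [nat_lit 94, nat_lit 40, nat_lit 40, nat_lit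 80, nat_lit 95, nat_lit 317, nat_lit 100, nat_lit 9]⟩,
 zbF0, [⟨nat_lit 0, nat_lit 76, nat_lit 66, nat_lit 100, nat_lit 482762756⟩, ⟨nat_lit 4, nat_lit 100, nat_lit 66, nat_lit 72, nat_lit 702091597⟩]⟩
noncomputable def p099_l46 : Lf2 := ⟨nat_lit 0, nat_lit 20, [nat_lit 5, nat_lit 5, nat_lit 5, nat_lit 20], false, nat_lit 0, nat_lit 160, nat_lit 160, nat_lit 260, ⟨nat_lit 1000, nat_lit 0, nat_lit 0, nat_lit 0, nat_lit 0, nat_lit 0, nat_lit 0, nat_lit 0, nat_lit 0, nat_lit 0, nat_lit 0, nat_lit 0, nat_lit 0, nat_lit 0, nat_lit 0, nat_lit 0, false, false⟩,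
 nat_lit 0, nat_lit 9842, nat_lit 0, nat_lit 0, nat_lit 7381, nat_lit 3896, nat_lit 568, nat_lit 0, nat_lit 0, nat_lit 0, nat_lit 0, nat_lit 0, nat_lit 0, nat_lit 0, nat_lit 0, nat_lit 0, nat_lit 0, nat_lit 0, [],
 ⟨p099_k0, nat_lit 0, nat_lit 0, nat_lit 781, nat_lit 0, nat_lit 1281950, [nat_lit 2032000001, nat_lit 4688000000, nat_lit 9842000000], [], [nat_lit 30242147018, nat_lit 31597451860, nat_lit 30546692256, nat_lit 32483181140, nat_lit 26839193576, nat_lit 27947957962, nat_lit 28789336005, nat_lit 27801036144], nat_lit 1271250, nat_lit 1271250, nat_lit 936251, nat_lit 1773750, nat_lit 0, nat_lit 1100001, [nat_lit 490000, nat_lit 1100000, nat_lit 2127500], [nat_lit 27, nat_lit 40, nat_lit 40, nat_lit 80, nat_lit 13, nat_lit 317, nat_lit 100, nat_lit 9]⟩, ⟨p099_k0, nat_lit 0, nat_lit 0, nat_lit 37, nat_lit 0, nat_lit 0, [nat_lit 2032000000, nat_lit 4688000000, nat_lit 9842000000], [], [nat_lit 16082938512, nat_lit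 17795937728, nat_lit 19405278752, nat_lit 20837120112, nat_lit 20132404484, nat_lit 21609388256, nat_lit 22743274904, nat_lit 23997715632], nat_lit 0, nat_lit 0, nat_lit 0, nat_lit 0, nat_lit 0, nat_lit 0, [], [nat_lit 27, nat_lit 40, nat_lit 40, nat_lit 80, nat_lit 13, nat_lit 345, nat_lit 125, nat_lit 9]⟩,
 zbF0, [⟨nat_lit 0, nat_lit 72, nat_lit 61, nat_lit 100, nat_lit 769243878⟩, ⟨nat_lit 7, nat_lit 100, nat_lit 76, nat_lit 72, nat_lit 672343616⟩]⟩
noncomputable def p099_l47 : Lf2 := ⟨nat_lit 0, nat_lit 20, [nat_lit 5, nat_lit 5, nat_lit 5, nat_lit 20], false, nat_lit 160, nat_lit 260, nat_lit 160, nat_lit 260, ⟨nat_lit 1000, nat_lit 0, nat_lit 0, nat_lit 0, nat_lit 0, nat_lit 0, nat_lit 0, nat_lit 0, nat_lit 0, nat_lit 0, nat_lit 0, nat_lit 0, nat_lit 0, nat_lit 0, nat_lit 0, nat_lit 0, false, false⟩,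
 nat_lit 0, nat_lit 10062, nat_lit 0, nat_lit 0, nat_lit 7546, nat_lit 3896, nat_lit 601, nat_lit 0, nat_lit 0, nat_lit 0, nat_lit 0, nat_lit 0, nat_lit 0, nat_lit 0, nat_lit 0, nat_lit 0, nat_lit 0, nat_lit 0, [],
 ⟨p099_k0, nat_lit 0, nat_lit 0, nat_lit 701, nat_lit 0, nat_lit 1281950, [nat_lit 2032000001, nat_lit 4688000000, nat_lit 9842000000], [], [nat_lit 24383802513, nat_lit 25750604885, nat_lit 24656667421, nat_lit 25785368944, nat_lit 25149113607, nat_lit 26727333580, nat_lit 25364120558, nat_lit 27599690360], nat_lit 1271250, nat_lit 1271250, nat_lit 936251, nat_lit 1773750, nat_lit 1100001, nat_lit 1956250, [nat_lit 490000, nat_lit 1100000, nat_lit 2127500], [nat_lit 27, nat_lit 40, nat_lit 40, nat_lit 80, nat_lit 13, nat_lit 345, nat_lit 125, nat_lit 9]⟩, ⟨p099_k0, nat_lit 0, nat_lit 0, nat_lit 37, nat_lit 0, nat_lit 0, [nat_lit 2032000000, nat_lit 4688000000, nat_lit 9842000000], [], [nat_lit 16082938512,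 nat_lit 17795937728, nat_lit 19405278752, nat_lit 20837120112, nat_lit 20132404484, nat_lit 21609388256, nat_lit 22743274904, nat_lit 23997715632], nat_lit 0, nat_lit 0, nat_lit 0, nat_lit 0, nat_lit 0, nat_lit 0, [], [nat_lit 27, nat_lit 40, nat_lit 40, nat_lit 80, nat_lit 13, nat_lit 345, nat_lit 125, nat_lit 9]⟩,
 zbF0, [⟨nat_lit 0, nat_lit 72, nat_lit 61, nat_lit 100, nat_lit 674560634⟩, ⟨nat_lit 16, nat_lit 71, nat_lit 100, nat_lit 71, nat_lit 814684416⟩, ⟨nat_lit 7, nat_lit 100, nat_lit 76, nat_lit 72, nat_lit 731998173⟩]⟩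
noncomputable def p099_l48 : Lf2 := ⟨nat_lit 0, nat_lit 20, [nat_lit 5, nat_lit 5, nat_lit 5, nat_lit 20], false, nat_lit 0, nat_lit 260, nat_lit 0, nat_lit 160, ⟨nat_lit 1000, nat_lit 0, nat_lit 0, nat_lit 0, nat_lit 0, nat_lit 0, nat_lit 0, nat_lit 0, nat_lit 0, nat_lit 0, nat_lit 0, nat_lit 0, nat_lit 0, nat_lit 0, nat_lit 0, nat_lit 0, false, false⟩,
 nat_lit 0, nat_lit 7902, nat_lit 0, nat_lit 0, nat_lit 5926, nat_lit 5699, nat_lit 631, nat_lit 0, nat_lit 0, nat_lit 838, nat_lit 0, nat_lit 0, nat_lit 0, nat_lit 0, nat_lit 0, nat_lit 0, nat_lit 0, nat_lit 0, [],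
 ⟨p099_k0, nat_lit 0, nat_lit 0, nat_lit 604, nat_lit 0, nat_lit 942121, [nat_lit 2032000001, nat_lit 4688000000, nat_lit 9842000000], [], [nat_lit 33411938819, nat_lit 33788916101, nat_lit 38217196032, nat_lit 38532216010, nat_lit 31710771947, nat_lit 31972556059, nat_lit 35624209942, nat_lit 35842733539], nat_lit 1271250, nat_lit 1271250, nat_lit 1271250, nat_lit 1271250, nat_lit 0, nat_lit 1836250, [nat_lit 490000, nat_lit 1100000, nat_lit 2127500], [nat_lit 27, nat_lit 40, nat_lit 40, nat_lit 80, nat_lit 13, nat_lit 401, nat_lit 175, nat_lit 11]⟩, ⟨p099_k0, nat_lit 0, nat_lit 0, nat_lit 211, nat_lit 0, nat_lit 0, [nat_lit 2032000000, nat_lit 4688000000, nat_lit 9842000000], [], [nat_lit 26613493154, nat_lit 27231868999, nat_lit 37218339444, nat_lit 37878847110, nat_lit 23451799378, nat_lit 23977370272, nat_lit 31548909084, nat_lit 31979716338], nat_lit 0, nat_lit 0, nat_lit 0, nat_lit 0, nat_lit 0, nat_lit 0,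 [], [nat_lit 27, nat_lit 40, nat_lit 40, nat_lit 80, nat_lit 13, nat_lit 373, nat_lit 150, nat_lit 10]⟩,
 zbF0, [⟨nat_lit 16, nat_lit 79, nat_lit 100, nat_lit 72, nat_lit 209452989⟩]⟩
noncomputable def p099_l49 : Lf2 := ⟨nat_lit 0, nat_lit 20, [nat_lit 5, nat_lit 5, nat_lit 5, nat_lit 20], false, nat_lit 0, nat_lit 244, nat_lit 0, nat_lit 160, ⟨nat_lit 1000, nat_lit 0, nat_lit 0, nat_lit 0, nat_lit 0, nat_lit 0, nat_lit 0, nat_lit 0, nat_lit 0, nat_lit 0, nat_lit 0, nat_lit 0, nat_lit 0, nat_lit 0, nat_lit 0, nat_lit 0, false, false⟩,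
 nat_lit 0, nat_lit 6958, nat_lit 0, nat_lit 0, nat_lit 5423, nat_lit 5830, nat_lit 627, nat_lit 0, nat_lit 0, nat_lit 820, nat_lit 0, nat_lit 0, nat_lit 0, nat_lit 30143211887976, nat_lit 0, nat_lit 0, nat_lit 0, nat_lit 0, [],
 ⟨p099_k1, nat_lit 0, nat_lit 0, nat_lit 643, nat_lit 0, nat_lit 1057696, [nat_lit 2032000001, nat_lit 4688000000, nat_lit 9842000000], [], [nat_lit 33820518786, nat_lit 34107596260, nat_lit 37493736699, nat_lit 37737406899, nat_lit 32184178109, nat_lit 32396101891, nat_lit 35266240354, nat_lit 35442241535], nat_lit 1271250, nat_lit 1271250, nat_lit 1271250, nat_lit 1271250, nat_lit 0, nat_lit 1723250, [nat_lit 490000, nat_lit 1100000, nat_lit 2127500], [nat_lit 27, nat_lit 40, nat_lit 40, nat_lit 80, nat_lit 13, nat_lit 401, nat_lit 175, nat_lit 11]⟩, ⟨p099_k0, nat_lit 0, nat_lit 0, nat_lit 212, nat_lit 0, nat_lit 0, [nat_lit 2032000000, nat_lit 4688000000, nat_lit 9842000000], [], [nat_lit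 26693719180, nat_lit 27945314480, nat_lit 37584845480, nat_lit 38921353920, nat_lit 23396961260, nat_lit 24454620400, nat_lit 31391724280, nat_lit 32396474160], nat_lit 0, nat_lit 0, nat_lit 0, nat_lit 0, nat_lit 0, nat_lit 0, [], [nat_lit 27, nat_lit 40, nat_lit 40, nat_lit 80, nat_lit 13, nat_lit 373, nat_lit 150, nat_lit 10]⟩,
 zbF0, [⟨nat_lit 16, nat_lit 74, nat_lit 100, nat_lit 72, nat_lit 225085753⟩]⟩
noncomputable def p099_l50 : Lf2 := ⟨nat_lit 0, nat_lit 20, [nat_lit 5, nat_lit 5, nat_lit 5, nat_lit 20], false, nat_lit 0, nat_lit 260, nat_lit 160, nat_lit 260, ⟨nat_lit 1000, nat_lit 0, nat_lit 0, nat_lit 0, nat_lit 0, nat_lit 0, nat_lit 0, nat_lit 0, nat_lit 0, nat_lit 0, nat_lit 0, nat_lit 0, nat_lit 0, nat_lit 0, nat_lit 0, nat_lit 0, false, false⟩,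
 nat_lit 0, nat_lit 7902, nat_lit 0, nat_lit 0, nat_lit 5926, nat_lit 5513, nat_lit 624, nat_lit 0, nat_lit 0, nat_lit 0, nat_lit 0, nat_lit 0, nat_lit 0, nat_lit 0, nat_lit 0, nat_lit 0, nat_lit 0, nat_lit 0, [],
 ⟨p099_k0, nat_lit 0, nat_lit 0, nat_lit 604, nat_lit 0, nat_lit 942121, [nat_lit 2032000001, nat_lit 4688000000, nat_lit 9842000000], [], [nat_lit 33481916944, nat_lit 33858894226, nat_lit 38217196032, nat_lit 38532216010, nat_lit 31780750072, nat_lit 32042534184, nat_lit 35624209942, nat_lit 35842733539], nat_lit 1271250, nat_lit 1271250, nat_lit 1271250, nat_lit 1271250, nat_lit 0, nat_lit 1836250, [nat_lit 490000, nat_lit 1100000, nat_lit 2127500], [nat_lit 27, nat_lit 40, nat_lit 40, nat_lit 80, nat_lit 13, nat_lit 401, nat_lit 175, nat_lit 11]⟩, ⟨p099_k0, nat_lit 0, nat_lit 0, nat_lit 80, nat_lit 0, nat_lit 0, [nat_lit 2032000000, nat_lit 4688000000, nat_lit 9842000000], [], [nat_lit 21329121184,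 nat_lit 22104749052, nat_lit 30900935968, nat_lit 31395743342, nat_lit 24522009457, nat_lit 25158712337, nat_lit 32437582790, nat_lit 32909562130], nat_lit 0, nat_lit 0, nat_lit 0, nat_lit 0, nat_lit 0, nat_lit 0, [], [nat_lit 27, nat_lit 40, nat_lit 40, nat_lit 80, nat_lit 13, nat_lit 401, nat_lit 175, nat_lit 10]⟩,
 zbF0, [⟨nat_lit 4, nat_lit 100, nat_lit 79, nat_lit 72, nat_lit 209452989⟩, ⟨nat_lit 7, nat_lit 100, nat_lit 79, nat_lit 72, nat_lit 637442393⟩]⟩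
noncomputable def p099_l51 : Lf2 := ⟨nat_lit 0, nat_lit 20, [nat_lit 5, nat_lit 5, nat_lit 5, nat_lit 20], false, nat_lit 0, nat_lit 244, nat_lit 160, nat_lit 260, ⟨nat_lit 1000, nat_lit 0, nat_lit 0, nat_lit 0, nat_lit 0, nat_lit 0, nat_lit 0, nat_lit 0, nat_lit 0, nat_lit 0, nat_lit 0, nat_lit 0, nat_lit 0, nat_lit 0, nat_lit 0, nat_lit 0, false, false⟩,
 nat_lit 0, nat_lit 6930, nat_lit 0, nat_lit 0, nat_lit 5402, nat_lit 6297, nat_lit 649, nat_lit 0, nat_lit 0, nat_lit 790, nat_lit 0, nat_lit 0, nat_lit 0, nat_lit 0, nat_lit 0, nat_lit 0, nat_lit 0, nat_lit 0, [],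
 ⟨p099_k1, nat_lit 0, nat_lit 0, nat_lit 643, nat_lit 0, nat_lit 1057696, [nat_lit 2032000001, nat_lit 4688000000, nat_lit 9842000000], [], [nat_lit 33548688966, nat_lit 33835454842, nat_lit 37428907503, nat_lit 37673295648, nat_lit 32094926946, nat_lit 32353710034, nat_lit 35223391553, nat_lit 35399399635], nat_lit 1271250, nat_lit 1271250, nat_lit 1271250, nat_lit 1271250, nat_lit 0, nat_lit 1723250, [nat_lit 490000, nat_lit 1100000, nat_lit 2127500], [nat_lit 27, nat_lit 40, nat_lit 40, nat_lit 80, nat_lit 13, nat_lit 401, nat_lit 175, nat_lit 11]⟩, ⟨p099_k0, nat_lit 0, nat_lit 0, nat_lit 92, nat_lit 0, nat_lit 0, [nat_lit 2032000000, nat_lit 4688000000, nat_lit 9842000000], [], [nat_lit 21950143162, nat_lit 23254654232, nat_lit 31812096968, nat_lit 33031384944, nat_lit 24195927665, nat_lit 25264810759, nat_lit 33324153510, nat_lit 34323832246], nat_lit 0, nat_lit 0, nat_lit 0, nat_lit 0, nat_lit 0, nat_lit 0,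 [], [nat_lit 27, nat_lit 40, nat_lit 40, nat_lit 80, nat_lit 13, nat_lit 401, nat_lit 175, nat_lit 10]⟩,
 zbF0, [⟨nat_lit 4, nat_lit 100, nat_lit 74, nat_lit 72, nat_lit 225961070⟩, ⟨nat_lit 19, nat_lit 76, nat_lit 100, nat_lit 72, nat_lit 567219264⟩]⟩
noncomputable def p099_l52 : Lf2 := ⟨nat_lit 0, nat_lit 20, [nat_lit 5, nat_lit 5, nat_lit 5, nat_lit 20], false, nat_lit 0, nat_lit 232, nat_lit 0, nat_lit 260, ⟨nat_lit 1000, nat_lit 0, nat_lit 0, nat_lit 0, nat_lit 0, nat_lit 0, nat_lit 0, nat_lit 0, nat_lit 0, nat_lit 0, nat_lit 0, nat_lit 0, nat_lit 0, nat_lit 0, nat_lit 0, nat_lit 0, false, false⟩,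
 nat_lit 0, nat_lit 6021, nat_lit 0, nat_lit 0, nat_lit 4874, nat_lit 6631, nat_lit 762, nat_lit 0, nat_lit 0, nat_lit 424, nat_lit 0, nat_lit 0, nat_lit 0, nat_lit 0, nat_lit 0, nat_lit 0, nat_lit 0, nat_lit 0, [],
 ⟨p099_k2, nat_lit 0, nat_lit 0, nat_lit 610, nat_lit 0, nat_lit 1077452, [nat_lit 2032000001, nat_lit 4688000000, nat_lit 7968000000], [], [nat_lit 29200548129, nat_lit 29566994867, nat_lit 36133634976, nat_lit 36745357092, nat_lit 28900542990, nat_lit 29176104117, nat_lit 32246724261, nat_lit 32440573074], nat_lit 1271250, nat_lit 1271250, nat_lit 1271250, nat_lit 1271250, nat_lit 0, nat_lit 1638500, [nat_lit 490000, nat_lit 1100000, nat_lit 1785000], [nat_lit 34, nat_lit 40, nat_lit 40, nat_lit 80, nat_lit 7, nat_lit 276, nat_lit 60, nat_lit 8]⟩, ⟨p099_k0, nat_lit 0, nat_lit 0, nat_lit 212, nat_lit 0, nat_lit 0, [nat_lit 2032000000, nat_lit 4688000000, nat_lit 9842000000], [], [nat_lit 30236654968,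 nat_lit 31824340554, nat_lit 39825848036, nat_lit 41257089144, nat_lit 27767171179, nat_lit 28692508675, nat_lit 34163572598, nat_lit 34849800340], nat_lit 0, nat_lit 0, nat_lit 0, nat_lit 0, nat_lit 0, nat_lit 0, [], [nat_lit 27, nat_lit 40, nat_lit 40, nat_lit 80, nat_lit 13, nat_lit 401, nat_lit 175, nat_lit 11]⟩,
 zbF0, [⟨nat_lit 4, nat_lit 100, nat_lit 69, nat_lit 71, nat_lit 145308895⟩, ⟨nat_lit 7, nat_lit 100, nat_lit 76, nat_lit 72, nat_lit 202168313⟩]⟩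
noncomputable def p099_l53 : Lf2 := ⟨nat_lit 0, nat_lit 20, [nat_lit 5, nat_lit 5, nat_lit 5, nat_lit 20], false, nat_lit 0, nat_lit 216, nat_lit 0, nat_lit 260, ⟨nat_lit 1000, nat_lit 0, nat_lit 0, nat_lit 0, nat_lit 0, nat_lit 0, nat_lit 0, nat_lit 0, nat_lit 0, nat_lit 0, nat_lit 0, nat_lit 0, nat_lit 0, nat_lit 0, nat_lit 0, nat_lit 0, false, false⟩,
 nat_lit 0, nat_lit 5243, nat_lit 0, nat_lit 0, nat_lit 4403, nat_lit 6631, nat_lit 600, nat_lit 0, nat_lit 0, nat_lit 373, nat_lit 0, nat_lit 0, nat_lit 0, nat_lit 0, nat_lit 0, nat_lit 0, nat_lit 0, nat_lit 0, [],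
 ⟨p099_k3, nat_lit 0, nat_lit 0, nat_lit 617, nat_lit 0, nat_lit 1096323, [nat_lit 2032000001, nat_lit 4688000000, nat_lit 7968000000], [], [nat_lit 31202548835, nat_lit 31556793460, nat_lit 35639615783, nat_lit 35933993986, nat_lit 31058796808, nat_lit 31339659896, nat_lit 34928222336, nat_lit 35159424658], nat_lit 1271250, nat_lit 1271250, nat_lit 1271250, nat_lit 1271250, nat_lit 0, nat_lit 1525500, [nat_lit 490000, nat_lit 1100000, nat_lit 1785000], [nat_lit 34, nat_lit 40, nat_lit 40, nat_lit 80, nat_lit 7, nat_lit 277, nat_lit 60, nat_lit 8]⟩, ⟨p099_k0, nat_lit 0, nat_lit 0, nat_lit 212, nat_lit 0, nat_lit 0, [nat_lit 2032000000, nat_lit 4688000000, nat_lit 9842000000], [], [nat_lit 30746495593, nat_lit 32334181179, nat_lit 40268904025, nat_lit 41257089144, nat_lit 28277011804, nat_lit 29202349300, nat_lit 34673413223, nat_lit 35359640965], nat_lit 0, nat_lit 0, nat_lit 0, nat_lit 0, nat_lit 0, nat_lit 0, [],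 [nat_lit 27, nat_lit 40, nat_lit 40, nat_lit 80, nat_lit 13, nat_lit 401, nat_lit 175, nat_lit 11]⟩,
 zbF0, [⟨nat_lit 16, nat_lit 63, nat_lit 100, nat_lit 72, nat_lit 341714361⟩, ⟨nat_lit 7, nat_lit 100, nat_lit 76, nat_lit 72, nat_lit 176963213⟩]⟩
noncomputable def p099_l54 : Lf2 := ⟨nat_lit 0, nat_lit 20, [nat_lit 5, nat_lit 5, nat_lit 5, nat_lit 20], false, nat_lit 0, nat_lit 260, nat_lit 0, nat_lit 160, ⟨nat_lit 1000, nat_lit 0, nat_lit 0, nat_lit 0, nat_lit 0, nat_lit 0, nat_lit 0, nat_lit 0, nat_lit 0, nat_lit 0, nat_lit 0, nat_lit 0, nat_lit 0, nat_lit 0, nat_lit 0, nat_lit 0, false, false⟩,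
 nat_lit 10459, nat_lit 0, nat_lit 0, nat_lit 0, nat_lit 7844, nat_lit 7844, nat_lit 714, nat_lit 0, nat_lit 0, nat_lit 685, nat_lit 0, nat_lit 0, nat_lit 0, nat_lit 0, nat_lit 0, nat_lit 0, nat_lit 0, nat_lit 0, [],
 ⟨p099_k0, nat_lit 0, nat_lit 0, nat_lit 535, nat_lit 0, nat_lit 705412, [nat_lit 2032000001, nat_lit 4688000000, nat_lit 9842000000], [], [nat_lit 28949188584, nat_lit 29767527250, nat_lit 27819520082, nat_lit 32628707952, nat_lit 23062841973, nat_lit 25984472558, nat_lit 35528675899, nat_lit 28815866983], nat_lit 1271250, nat_lit 1271250, nat_lit 936251, nat_lit 1773750, nat_lit 0, nat_lit 1836250, [nat_lit 490000, nat_lit 1100000, nat_lit 2127500], [nat_lit 27, nat_lit 40, nat_lit 40, nat_lit 80, nat_lit 13, nat_lit 345, nat_lit 125, nat_lit 10]⟩, ⟨p099_k0, nat_lit 0, nat_lit 0, nat_lit 528, nat_lit 0, nat_lit 705412, [nat_lit 2032000000, nat_lit 4688000000, nat_lit 9842000000], [], [nat_lit 28949188584,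 nat_lit 27909247453, nat_lit 28109429457, nat_lit 29881918536, nat_lit 20376489273, nat_lit 21602724405, nat_lit 26890515521, nat_lit 23428597497], nat_lit 1271250, nat_lit 1271250, nat_lit 936251, nat_lit 1773750, nat_lit 0, nat_lit 1100001, [nat_lit 490000, nat_lit 1100000, nat_lit 2127500], [nat_lit 27, nat_lit 40, nat_lit 40, nat_lit 80, nat_lit 13, nat_lit 317, nat_lit 100, nat_lit 9]⟩,
 zbF0, [⟨nat_lit 4, nat_lit 100, nat_lit 71, nat_lit 71, nat_lit 216773178⟩]⟩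
noncomputable def p099_l55 : Lf2 := ⟨nat_lit 0, nat_lit 20, [nat_lit 5, nat_lit 5, nat_lit 5, nat_lit 20], false, nat_lit 0, nat_lit 260, nat_lit 160, nat_lit 260, ⟨nat_lit 1000, nat_lit 0, nat_lit 0, nat_lit 0, nat_lit 0, nat_lit 0, nat_lit 0, nat_lit 0, nat_lit 0, nat_lit 0, nat_lit 0, nat_lit 0, nat_lit 0, nat_lit 0, nat_lit 0, nat_lit 0, false, false⟩,
 nat_lit 9690, nat_lit 0, nat_lit 0, nat_lit 0, nat_lit 7267, nat_lit 7267, nat_lit 729, nat_lit 0, nat_lit 0, nat_lit 684, nat_lit 0, nat_lit 0, nat_lit 0, nat_lit 5433831879962, nat_lit 0, nat_lit 0, nat_lit 0, nat_lit 0, [],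
 ⟨p099_k0, nat_lit 0, nat_lit 0, nat_lit 535, nat_lit 0, nat_lit 705412, [nat_lit 2032000001, nat_lit 4688000000, nat_lit 9842000000], [], [nat_lit 28980585462, nat_lit 29160301625, nat_lit 27440308701, nat_lit 31491840236, nat_lit 24052059660, nat_lit 25566164632, nat_lit 35847337940, nat_lit 29628319277], nat_lit 1271250, nat_lit 1271250, nat_lit 936251, nat_lit 1773750, nat_lit 0, nat_lit 1836250, [nat_lit 490000, nat_lit 1100000, nat_lit 2127500], [nat_lit 27, nat_lit 40, nat_lit 40, nat_lit 80, nat_lit 13, nat_lit 345, nat_lit 125, nat_lit 10]⟩, ⟨p099_k0, nat_lit 0, nat_lit 0, nat_lit 429, nat_lit 0, nat_lit 705412, [nat_lit 2032000000, nat_lit 4688000000, nat_lit 9842000000], [], [nat_lit 21310194478, nat_lit 22501472802, nat_lit 22600067592, nat_lit 23685865802, nat_lit 23303953755, nat_lit 24624483062, nat_lit 24869237964, nat_lit 25652807527], nat_lit 1271250, nat_lit 1271250, nat_lit 936251, nat_lit 1773750,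 nat_lit 1100001, nat_lit 1956250, [nat_lit 490000, nat_lit 1100000, nat_lit 2127500], [nat_lit 27, nat_lit 40, nat_lit 40, nat_lit 80, nat_lit 13, nat_lit 345, nat_lit 125, nat_lit 9]⟩,
 zbF0, [⟨nat_lit 0, nat_lit 76, nat_lit 72, nat_lit 100, nat_lit 19430083⟩, ⟨nat_lit 16, nat_lit 83, nat_lit 100, nat_lit 83, nat_lit 147672944⟩, ⟨nat_lit 19, nat_lit 83, nat_lit 100, nat_lit 83, nat_lit 447326784⟩]⟩
noncomputable def p099_l56 : Lf2 := ⟨nat_lit 0, nat_lit 20, [nat_lit 5, nat_lit 5, nat_lit 5, nat_lit 20], false, nat_lit 0, nat_lit 260, nat_lit 0, nat_lit 260, ⟨nat_lit 1000, nat_lit 0, nat_lit 0, nat_lit 0, nat_lit 0, nat_lit 0, nat_lit 0, nat_lit 0, nat_lit 0, nat_lit 0, nat_lit 0, nat_lit 0, nat_lit 0, nat_lit 0, nat_lit 0, nat_lit 0, false, false⟩,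
 nat_lit 8731, nat_lit 0, nat_lit 0, nat_lit 0, nat_lit 6548, nat_lit 6548, nat_lit 416, nat_lit 0, nat_lit 0, nat_lit 495, nat_lit 0, nat_lit 0, nat_lit 0, nat_lit 0, nat_lit 0, nat_lit 0, nat_lit 0, nat_lit 0, [],
 ⟨p099_k0, nat_lit 0, nat_lit 0, nat_lit 490, nat_lit 0, nat_lit 705412, [nat_lit 2032000001, nat_lit 4688000000, nat_lit 9842000000], [], [nat_lit 33305735712, nat_lit 34875364656, nat_lit 39745547200, nat_lit 42436484016, nat_lit 30987686656, nat_lit 32060338164, nat_lit 34275995784, nat_lit 35643065148], nat_lit 1271250, nat_lit 1271250, nat_lit 1271250, nat_lit 1271250, nat_lit 0, nat_lit 1836250, [nat_lit 490000, nat_lit 1100000, nat_lit 2127500], [nat_lit 27, nat_lit 40, nat_lit 40, nat_lit 80, nat_lit 13, nat_lit 401, nat_lit 175, nat_lit 11]⟩, ⟨p099_k0, nat_lit 0, nat_lit 0, nat_lit 489, nat_lit 0, nat_lit 705412, [nat_lit 2032000000, nat_lit 4688000000, nat_lit 9842000000], [], [nat_lit 31146475723,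 nat_lit 32086109611, nat_lit 39593634288, nat_lit 41015059152, nat_lit 28968476331, nat_lit 29614016013, nat_lit 33607991840, nat_lit 34625509522], nat_lit 1271250, nat_lit 1271250, nat_lit 1271250, nat_lit 1271250, nat_lit 0, nat_lit 1836250, [nat_lit 490000, nat_lit 1100000, nat_lit 2127500], [nat_lit 27, nat_lit 40, nat_lit 40, nat_lit 80, nat_lit 13, nat_lit 401, nat_lit 175, nat_lit 11]⟩,
 zbF0, [⟨nat_lit 16, nat_lit 71, nat_lit 100, nat_lit 71, nat_lit 231575150⟩, ⟨nat_lit 7, nat_lit 100, nat_lit 76, nat_lit 72, nat_lit 87709076⟩]⟩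
noncomputable def b_V_800_800_10_18 : St := ⟨true, nat_lit 1, nat_lit 2, nat_lit 1, nat_lit 80, nat_lit 320, nat_lit 360, nat_lit 320, nat_lit 340, nat_lit 140, nat_lit 400, nat_lit 40, nat_lit 80, nat_lit 0, nat_lit 260, nat_lit 0, nat_lit 260, nat_lit 40, nat_lit 80, nat_lit 0, nat_lit 0, nat_lit 0, nat_lit 0⟩
theorem d_V_800_800_10_18 (h : EB TB.env) : Dead b_V_800_800_10_18 := chkB_sound0 h (T :=
(.st (nat_lit 1)
(.spl (nat_lit 2) (nat_lit 240)
(.spl (nat_lit 5) (nat_lit 160)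
(.spl (nat_lit 4) (nat_lit 160)
(.spl (nat_lit 0) (nat_lit 340)
(.spl (nat_lit 0) (nat_lit 330)
(.ord (.leaf p099_l41))
(.trZ (nat_lit 0) (nat_lit 82) (nat_lit 78) (nat_lit 100) (nat_lit 156) (.leaf p099_l42)))
(.trZ (nat_lit 0) (nat_lit 81) (nat_lit 72) (nat_lit 100) (nat_lit 168) (.leaf p099_l43)))
(.spl (nat_lit 0) (nat_lit 340)
(.leaf p099_l44)
(.trZ (nat_lit 0) (nat_lit 81) (nat_lit 72) (nat_lit 100) (nat_lit 168) (.trX (nat_lit 16) (nat_lit 72) (nat_lit 100) (nat_lit 81) (nat_lit 232) (.leaf p099_l45)))))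
(.spl (nat_lit 4) (nat_lit 160)
(.leaf p099_l46)
(.leaf p099_l47)))
(.spl (nat_lit 0) (nat_lit 340)
(.spl (nat_lit 5) (nat_lit 160)
(.spl (nat_lit 0) (nat_lit 330)
(.ord (.leaf p099_l48))
(.trX (nat_lit 16) (nat_lit 78) (nat_lit 100) (nat_lit 82) (nat_lit 244) (.leaf p099_l49)))
(.spl (nat_lit 0) (nat_lit 330)
(.ord (.leaf p099_l50))
(.trX (nat_lit 16) (nat_lit 78) (nat_lit 100) (nat_lit 82) (nat_lit 244) (.leaf p099_l51))))
(.trX (nat_lit 16) (nat_lit 72) (nat_lit 100) (nat_lit 81) (nat_lit 232) (.spl (nat_lit 0) (nat_lit 350)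
(.leaf p099_l52)
(.trX (nat_lit 16) (nat_lit 66) (nat_lit 100) (nat_lit 80) (nat_lit 216) (.leaf p099_l53))))))
(.spl (nat_lit 2) (nat_lit 240)
(.spl (nat_lit 5) (nat_lit 160)
(.leaf p099_l54)
(.leaf p099_l55))
(.leaf p099_l56)))) (by decide +kernel)
noncomputable def p099_l57 : Lf2 := ⟨nat_lit 0, nat_lit 20, [nat_lit 5, nat_lit 5, nat_lit 5, nat_lit 20], false, nat_lit 0, nat_lit 160, nat_lit 0, nat_lit 160, ⟨nat_lit 1000, nat_lit 0, nat_lit 0, nat_lit 0, nat_lit 0, nat_lit 0, nat_lit 0, nat_lit 0, nat_lit 0, nat_lit 0, nat_lit 0, nat_lit 0, nat_lit 0, nat_lit 0, nat_lit 0, nat_lit 0, false, false⟩,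
 nat_lit 0, nat_lit 9180, nat_lit 0, nat_lit 0, nat_lit 6885, nat_lit 6594, nat_lit 737, nat_lit 0, nat_lit 0, nat_lit 1022, nat_lit 0, nat_lit 0, nat_lit 0, nat_lit 9827836563030, nat_lit 0, nat_lit 0, nat_lit 0, nat_lit 0, [],
 ⟨p099_k0, nat_lit 0, nat_lit 0, nat_lit 628, nat_lit 0, nat_lit 942121, [nat_lit 2032000001, nat_lit 4688000000, nat_lit 9842000000], [], [nat_lit 28377371612, nat_lit 28368571995, nat_lit 28874690565, nat_lit 29378847350, nat_lit 24758508125, nat_lit 25159366160, nat_lit 27881022466, nat_lit 26363439890], nat_lit 1271250, nat_lit 1271250, nat_lit 936251, nat_lit 1773750, nat_lit 0, nat_lit 1100001, [nat_lit 490000, nat_lit 1100000, nat_lit 2127500], [nat_lit 27, nat_lit 40, nat_lit 40, nat_lit 80, nat_lit 13, nat_lit 317, nat_lit 100, nat_lit 9]⟩, ⟨p099_k0, nat_lit 0, nat_lit 0, nat_lit 176, nat_lit 0, nat_lit 0, [nat_lit 2032000000, nat_lit 4688000000, nat_lit 9842000000], [], [nat_lit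 21860393906, nat_lit 22819761617, nat_lit 25289529120, nat_lit 26508602578, nat_lit 17324655982, nat_lit 18134963547, nat_lit 20338025792, nat_lit 21201037376], nat_lit 0, nat_lit 0, nat_lit 0, nat_lit 0, nat_lit 0, nat_lit 0, [], [nat_lit 27, nat_lit 40, nat_lit 40, nat_lit 80, nat_lit 13, nat_lit 317, nat_lit 100, nat_lit 9]⟩,
 zbF0, [⟨nat_lit 0, nat_lit 77, nat_lit 77, nat_lit 100, nat_lit 382161724⟩]⟩
noncomputable def p099_l58 : Lf2 := ⟨nat_lit 0, nat_lit 20, [nat_lit 5, nat_lit 5, nat_lit 5, nat_lit 20], false, nat_lit 0, nat_lit 160, nat_lit 0, nat_lit 160, ⟨nat_lit 1000, nat_lit 0, nat_lit 0, nat_lit 0, nat_lit 0, nat_lit 0, nat_lit 0, nat_lit 0, nat_lit 0, nat_lit 0, nat_lit 0, nat_lit 0, nat_lit 0, nat_lit 0, nat_lit 0, nat_lit 0, false, false⟩,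
 nat_lit 0, nat_lit 8421, nat_lit 0, nat_lit 0, nat_lit 6564, nat_lit 6200, nat_lit 958, nat_lit 0, nat_lit 0, nat_lit 886, nat_lit 0, nat_lit 0, nat_lit 0, nat_lit 21898379579406, nat_lit 0, nat_lit 0, nat_lit 0, nat_lit 0, [],
 ⟨p099_k1, nat_lit 0, nat_lit 0, nat_lit 693, nat_lit 0, nat_lit 1057696, [nat_lit 2032000001, nat_lit 4688000000, nat_lit 9842000000], [], [nat_lit 24170992386, nat_lit 24653585622, nat_lit 26460604468, nat_lit 27675974216, nat_lit 21769453127, nat_lit 22169455164, nat_lit 22917417555, nat_lit 22987145828], nat_lit 1271250, nat_lit 1271250, nat_lit 1066650, nat_lit 1782750, nat_lit 0, nat_lit 1100001, [nat_lit 490000, nat_lit 1100000, nat_lit 2127500], [nat_lit 27, nat_lit 40, nat_lit 40, nat_lit 80, nat_lit 13, nat_lit 317, nat_lit 100, nat_lit 9]⟩, ⟨p099_k0, nat_lit 0, nat_lit 0, nat_lit 179, nat_lit 0, nat_lit 0, [nat_lit 2032000000, nat_lit 4688000000, nat_lit 9842000000], [], [nat_lit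 23149933471, nat_lit 24950646510, nat_lit 25446850350, nat_lit 27048658800, nat_lit 19068286430, nat_lit 20587232910, nat_lit 21064279950, nat_lit 22361582000], nat_lit 0, nat_lit 0, nat_lit 0, nat_lit 0, nat_lit 0, nat_lit 0, [], [nat_lit 27, nat_lit 40, nat_lit 40, nat_lit 80, nat_lit 13, nat_lit 317, nat_lit 100, nat_lit 9]⟩,
 zbF0, [⟨nat_lit 0, nat_lit 71, nat_lit 71, nat_lit 100, nat_lit 598824778⟩]⟩
noncomputable def p099_l59 : Lf2 := ⟨nat_lit 0, nat_lit 20, [nat_lit 5, nat_lit 5, nat_lit 5, nat_lit 20], false, nat_lit 0, nat_lit 160, nat_lit 0, nat_lit 160, ⟨nat_lit 1000, nat_lit 0, nat_lit 0, nat_lit 0, nat_lit 0, nat_lit 0, nat_lit 0, nat_lit 0, nat_lit 0, nat_lit 0, nat_lit 0, nat_lit 0, nat_lit 0, nat_lit 0, nat_lit 0, nat_lit 0, false, false⟩,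
 nat_lit 0, nat_lit 6705, nat_lit 0, nat_lit 0, nat_lit 5427, nat_lit 6260, nat_lit 1390, nat_lit 0, nat_lit 0, nat_lit 0, nat_lit 0, nat_lit 0, nat_lit 0, nat_lit 0, nat_lit 0, nat_lit 0, nat_lit 0, nat_lit 0, [],
 ⟨p099_k7, nat_lit 0, nat_lit 0, nat_lit 645, nat_lit 0, nat_lit 1153218, [nat_lit 2032000001, nat_lit 7968000000], [], [nat_lit 23025627033, nat_lit 25329032167, nat_lit 25716475238, nat_lit 27866473516, nat_lit 21587117538, nat_lit 22253331979, nat_lit 22976055104, nat_lit 23240434419], nat_lit 1271250, nat_lit 1271250, nat_lit 1167600, nat_lit 1789500, nat_lit 0, nat_lit 1100001, [nat_lit 490000, nat_lit 1740000], [nat_lit 110, nat_lit 40, nat_lit 40, nat_lit 80, nat_lit 109, nat_lit 317, nat_lit 100, nat_lit 10]⟩, ⟨p099_k8, nat_lit 0, nat_lit 0, nat_lit 166, nat_lit 0, nat_lit 0, [nat_lit 2032000000, nat_lit 9842000000], [], [nat_lit 32228678465, nat_lit 34002968992, nat_lit 34327921280, nat_lit 35862996840,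 nat_lit 28059417104, nat_lit 29556178937, nat_lit 29875838960, nat_lit 31176157560], nat_lit 0, nat_lit 0, nat_lit 0, nat_lit 0, nat_lit 0, nat_lit 0, [], [nat_lit 94, nat_lit 40, nat_lit 40, nat_lit 80, nat_lit 95, nat_lit 317, nat_lit 100, nat_lit 9]⟩,
 zbF0, [⟨nat_lit 0, nat_lit 72, nat_lit 61, nat_lit 100, nat_lit 595788957⟩, ⟨nat_lit 4, nat_lit 100, nat_lit 66, nat_lit 72, nat_lit 3602496⟩]⟩
noncomputable def p099_l60 : Lf2 := ⟨nat_lit 0, nat_lit 20, [nat_lit 5, nat_lit 5, nat_lit 5, nat_lit 20], false, nat_lit 160, nat_lit 260, nat_lit 0, nat_lit 160, ⟨nat_lit 1000, nat_lit 0, nat_lit 0, nat_lit 0, nat_lit 0, nat_lit 0, nat_lit 0, nat_lit 0, nat_lit 0, nat_lit 0, nat_lit 0, nat_lit 0, nat_lit 0, nat_lit 0, nat_lit 0, nat_lit 0, false, false⟩,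
 nat_lit 0, nat_lit 8050, nat_lit 0, nat_lit 0, nat_lit 6037, nat_lit 6200, nat_lit 687, nat_lit 0, nat_lit 0, nat_lit 988, nat_lit 0, nat_lit 0, nat_lit 0, nat_lit 0, nat_lit 0, nat_lit 0, nat_lit 0, nat_lit 0, [],
 ⟨p099_k0, nat_lit 0, nat_lit 0, nat_lit 608, nat_lit 0, nat_lit 1116069, [nat_lit 2032000001, nat_lit 4688000000, nat_lit 9842000000], [], [nat_lit 28907974275, nat_lit 29664018048, nat_lit 29726210127, nat_lit 30456341409, nat_lit 30189132613, nat_lit 30953839786, nat_lit 31080181196, nat_lit 31743528891], nat_lit 1271250, nat_lit 1271250, nat_lit 936251, nat_lit 1773750, nat_lit 1100001, nat_lit 1956250, [nat_lit 490000, nat_lit 1100000, nat_lit 2127500], [nat_lit 27, nat_lit 40, nat_lit 40, nat_lit 80, nat_lit 13, nat_lit 345, nat_lit 125, nat_lit 9]⟩, ⟨p099_k0, nat_lit 0, nat_lit 0, nat_lit 182, nat_lit 0, nat_lit 0, [nat_lit 2032000000, nat_lit 4688000000, nat_lit 9842000000], [], [nat_lit 22032690300,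 nat_lit 23879101900, nat_lit 24707796000, nat_lit 27048658800, nat_lit 17945303100, nat_lit 19502539500, nat_lit 20699257600, nat_lit 22361582000], nat_lit 0, nat_lit 0, nat_lit 0, nat_lit 0, nat_lit 0, nat_lit 0, [], [nat_lit 27, nat_lit 40, nat_lit 40, nat_lit 80, nat_lit 13, nat_lit 317, nat_lit 100, nat_lit 9]⟩,
 zbF0, [⟨nat_lit 0, nat_lit 71, nat_lit 71, nat_lit 100, nat_lit 550822235⟩, ⟨nat_lit 4, nat_lit 100, nat_lit 76, nat_lit 72, nat_lit 501183872⟩]⟩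
noncomputable def p099_l61 : Lf2 := ⟨nat_lit 0, nat_lit 20, [nat_lit 5, nat_lit 5, nat_lit 5, nat_lit 20], false, nat_lit 160, nat_lit 232, nat_lit 0, nat_lit 160, ⟨nat_lit 1000, nat_lit 0, nat_lit 0, nat_lit 0, nat_lit 0, nat_lit 0, nat_lit 0, nat_lit 0, nat_lit 0, nat_lit 0, nat_lit 0, nat_lit 0, nat_lit 0, nat_lit 0, nat_lit 0, nat_lit 0, false, false⟩,
 nat_lit 0, nat_lit 6741, nat_lit 0, nat_lit 0, nat_lit 5457, nat_lit 6466, nat_lit 1334, nat_lit 0, nat_lit 0, nat_lit 0, nat_lit 0, nat_lit 0, nat_lit 0, nat_lit 0, nat_lit 0, nat_lit 0, nat_lit 0, nat_lit 0, [],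
 ⟨p099_k7, nat_lit 0, nat_lit 0, nat_lit 553, nat_lit 0, nat_lit 1153218, [nat_lit 2032000001, nat_lit 7968000000], [], [nat_lit 20824315506, nat_lit 21692114528, nat_lit 21994439296, nat_lit 23251976020, nat_lit 21951052892, nat_lit 23159990969, nat_lit 23541537068, nat_lit 25132383543], nat_lit 1271250, nat_lit 1271250, nat_lit 1167600, nat_lit 1789500, nat_lit 1100001, nat_lit 1716500, [nat_lit 490000, nat_lit 1740000], [nat_lit 110, nat_lit 40, nat_lit 40, nat_lit 80, nat_lit 109, nat_lit 345, nat_lit 125, nat_lit 10]⟩, ⟨p099_k8, nat_lit 0, nat_lit 0, nat_lit 166, nat_lit 0, nat_lit 0, [nat_lit 2032000000, nat_lit 9842000000], [], [nat_lit 32303721463, nat_lit 34113623788, nat_lit 34409770848, nat_lit 35974058444, nat_lit 27900856927, nat_lit 29426189558, nat_lit 29719030936, nat_lit 31042691396], nat_lit 0, nat_lit 0, nat_lit 0, nat_lit 0, nat_lit 0, nat_lit 0, [], [nat_lit 94, nat_lit 40, nat_lit 40, nat_lit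 80, nat_lit 95, nat_lit 317, nat_lit 100, nat_lit 9]⟩,
 zbF0, [⟨nat_lit 0, nat_lit 76, nat_lit 66, nat_lit 100, nat_lit 482762756⟩, ⟨nat_lit 16, nat_lit 66, nat_lit 100, nat_lit 72, nat_lit 702091597⟩]⟩
noncomputable def p099_l62 : Lf2 := ⟨nat_lit 0, nat_lit 20, [nat_lit 5, nat_lit 5, nat_lit 5, nat_lit 20], false, nat_lit 0, nat_lit 160, nat_lit 160, nat_lit 260, ⟨nat_lit 1000, nat_lit 0, nat_lit 0, nat_lit 0, nat_lit 0, nat_lit 0, nat_lit 0, nat_lit 0, nat_lit 0, nat_lit 0, nat_lit 0, nat_lit 0, nat_lit 0, nat_lit 0, nat_lit 0, nat_lit 0, false, false⟩,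
 nat_lit 0, nat_lit 9842, nat_lit 0, nat_lit 0, nat_lit 7381, nat_lit 3896, nat_lit 568, nat_lit 0, nat_lit 0, nat_lit 0, nat_lit 0, nat_lit 0, nat_lit 0, nat_lit 0, nat_lit 0, nat_lit 0, nat_lit 0, nat_lit 0, [],
 ⟨p099_k0, nat_lit 0, nat_lit 0, nat_lit 781, nat_lit 0, nat_lit 1281950, [nat_lit 2032000001, nat_lit 4688000000, nat_lit 9842000000], [], [nat_lit 30242147018, nat_lit 31597451860, nat_lit 30546692256, nat_lit 32483181140, nat_lit 26839193576, nat_lit 27947957962, nat_lit 28789336005, nat_lit 27801036144], nat_lit 1271250, nat_lit 1271250, nat_lit 936251, nat_lit 1773750, nat_lit 0, nat_lit 1100001, [nat_lit 490000, nat_lit 1100000, nat_lit 2127500], [nat_lit 27, nat_lit 40, nat_lit 40, nat_lit 80, nat_lit 13, nat_lit 317, nat_lit 100, nat_lit 9]⟩, ⟨p099_k0, nat_lit 0, nat_lit 0, nat_lit 37, nat_lit 0, nat_lit 0, [nat_lit 2032000000, nat_lit 4688000000, nat_lit 9842000000], [], [nat_lit 16082938512, nat_lit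 17795937728, nat_lit 19405278752, nat_lit 20837120112, nat_lit 20132404484, nat_lit 21609388256, nat_lit 22743274904, nat_lit 23997715632], nat_lit 0, nat_lit 0, nat_lit 0, nat_lit 0, nat_lit 0, nat_lit 0, [], [nat_lit 27, nat_lit 40, nat_lit 40, nat_lit 80, nat_lit 13, nat_lit 345, nat_lit 125, nat_lit 9]⟩,
 zbF0, [⟨nat_lit 0, nat_lit 72, nat_lit 61, nat_lit 100, nat_lit 769243878⟩, ⟨nat_lit 7, nat_lit 100, nat_lit 76, nat_lit 72, nat_lit 672343616⟩]⟩
noncomputable def p099_l63 : Lf2 := ⟨nat_lit 0, nat_lit 20, [nat_lit 5, nat_lit 5, nat_lit 5, nat_lit 20], false, nat_lit 160, nat_lit 260, nat_lit 160, nat_lit 260, ⟨nat_lit 1000, nat_lit 0, nat_lit 0, nat_lit 0, nat_lit 0, nat_lit 0, nat_lit 0, nat_lit 0, nat_lit 0, nat_lit 0, nat_lit 0, nat_lit 0, nat_lit 0, nat_lit 0, nat_lit 0, nat_lit 0, false, false⟩,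
 nat_lit 0, nat_lit 10062, nat_lit 0, nat_lit 0, nat_lit 7546, nat_lit 3896, nat_lit 601, nat_lit 0, nat_lit 0, nat_lit 0, nat_lit 0, nat_lit 0, nat_lit 0, nat_lit 0, nat_lit 0, nat_lit 0, nat_lit 0, nat_lit 0, [],
 ⟨p099_k0, nat_lit 0, nat_lit 0, nat_lit 701, nat_lit 0, nat_lit 1281950, [nat_lit 2032000001, nat_lit 4688000000, nat_lit 9842000000], [], [nat_lit 24383802513, nat_lit 25750604885, nat_lit 24656667421, nat_lit 25785368944, nat_lit 25149113607, nat_lit 26727333580, nat_lit 25364120558, nat_lit 27599690360], nat_lit 1271250, nat_lit 1271250, nat_lit 936251, nat_lit 1773750, nat_lit 1100001, nat_lit 1956250, [nat_lit 490000, nat_lit 1100000, nat_lit 2127500], [nat_lit 27, nat_lit 40, nat_lit 40, nat_lit 80, nat_lit 13, nat_lit 345, nat_lit 125, nat_lit 9]⟩, ⟨p099_k0, nat_lit 0, nat_lit 0, nat_lit 37, nat_lit 0, nat_lit 0, [nat_lit 2032000000, nat_lit 4688000000, nat_lit 9842000000], [], [nat_lit 16082938512,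 nat_lit 17795937728, nat_lit 19405278752, nat_lit 20837120112, nat_lit 20132404484, nat_lit 21609388256, nat_lit 22743274904, nat_lit 23997715632], nat_lit 0, nat_lit 0, nat_lit 0, nat_lit 0, nat_lit 0, nat_lit 0, [], [nat_lit 27, nat_lit 40, nat_lit 40, nat_lit 80, nat_lit 13, nat_lit 345, nat_lit 125, nat_lit 9]⟩,
 zbF0, [⟨nat_lit 0, nat_lit 72, nat_lit 61, nat_lit 100, nat_lit 674560634⟩, ⟨nat_lit 16, nat_lit 71, nat_lit 100, nat_lit 71, nat_lit 814684416⟩, ⟨nat_lit 7, nat_lit 100, nat_lit 76, nat_lit 72, nat_lit 731998173⟩]⟩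
noncomputable def p099_l64 : Lf2 := ⟨nat_lit 0, nat_lit 20, [nat_lit 5, nat_lit 5, nat_lit 5, nat_lit 20], false, nat_lit 0, nat_lit 260, nat_lit 0, nat_lit 160, ⟨nat_lit 1000, nat_lit 0, nat_lit 0, nat_lit 0, nat_lit 0, nat_lit 0, nat_lit 0, nat_lit 0, nat_lit 0, nat_lit 0, nat_lit 0, nat_lit 0, nat_lit 0, nat_lit 0, nat_lit 0, nat_lit 0, false, false⟩,
 nat_lit 0, nat_lit 7902, nat_lit 0, nat_lit 0, nat_lit 5926, nat_lit 5699, nat_lit 631, nat_lit 0, nat_lit 0, nat_lit 838, nat_lit 0, nat_lit 0, nat_lit 0, nat_lit 0, nat_lit 0, nat_lit 0, nat_lit 0, nat_lit 0, [],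
 ⟨p099_k0, nat_lit 0, nat_lit 0, nat_lit 604, nat_lit 0, nat_lit 942121, [nat_lit 2032000001, nat_lit 4688000000, nat_lit 9842000000], [], [nat_lit 33411938819, nat_lit 33788916101, nat_lit 38217196032, nat_lit 38532216010, nat_lit 31710771947, nat_lit 31972556059, nat_lit 35624209942, nat_lit 35842733539], nat_lit 1271250, nat_lit 1271250, nat_lit 1271250, nat_lit 1271250, nat_lit 0, nat_lit 1836250, [nat_lit 490000, nat_lit 1100000, nat_lit 2127500], [nat_lit 27, nat_lit 40, nat_lit 40, nat_lit 80, nat_lit 13, nat_lit 401, nat_lit 175, nat_lit 11]⟩, ⟨p099_k0, nat_lit 0, nat_lit 0, nat_lit 211, nat_lit 0, nat_lit 0, [nat_lit 2032000000, nat_lit 4688000000, nat_lit 9842000000], [], [nat_lit 26613493154, nat_lit 27231868999, nat_lit 37218339444, nat_lit 37878847110, nat_lit 23451799378, nat_lit 23977370272, nat_lit 31548909084, nat_lit 31979716338], nat_lit 0, nat_lit 0, nat_lit 0, nat_lit 0, nat_lit 0, nat_lit 0,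 [], [nat_lit 27, nat_lit 40, nat_lit 40, nat_lit 80, nat_lit 13, nat_lit 373, nat_lit 150, nat_lit 10]⟩,
 zbF0, [⟨nat_lit 16, nat_lit 79, nat_lit 100, nat_lit 72, nat_lit 209452989⟩]⟩
noncomputable def p099_l65 : Lf2 := ⟨nat_lit 0, nat_lit 20, [nat_lit 5, nat_lit 5, nat_lit 5, nat_lit 20], false, nat_lit 0, nat_lit 244, nat_lit 0, nat_lit 160, ⟨nat_lit 1000, nat_lit 0, nat_lit 0, nat_lit 0, nat_lit 0, nat_lit 0, nat_lit 0, nat_lit 0, nat_lit 0, nat_lit 0, nat_lit 0, nat_lit 0, nat_lit 0, nat_lit 0, nat_lit 0, nat_lit 0, false, false⟩,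
 nat_lit 0, nat_lit 6958, nat_lit 0, nat_lit 0, nat_lit 5423, nat_lit 5830, nat_lit 627, nat_lit 0, nat_lit 0, nat_lit 820, nat_lit 0, nat_lit 0, nat_lit 0, nat_lit 30143211887976, nat_lit 0, nat_lit 0, nat_lit 0, nat_lit 0, [],
 ⟨p099_k1, nat_lit 0, nat_lit 0, nat_lit 643, nat_lit 0, nat_lit 1057696, [nat_lit 2032000001, nat_lit 4688000000, nat_lit 9842000000], [], [nat_lit 33820518786, nat_lit 34107596260, nat_lit 37493736699, nat_lit 37737406899, nat_lit 32184178109, nat_lit 32396101891, nat_lit 35266240354, nat_lit 35442241535], nat_lit 1271250, nat_lit 1271250, nat_lit 1271250, nat_lit 1271250, nat_lit 0, nat_lit 1723250, [nat_lit 490000, nat_lit 1100000, nat_lit 2127500], [nat_lit 27, nat_lit 40, nat_lit 40, nat_lit 80, nat_lit 13, nat_lit 401, nat_lit 175, nat_lit 11]⟩, ⟨p099_k0, nat_lit 0, nat_lit 0, nat_lit 212, nat_lit 0, nat_lit 0, [nat_lit 2032000000, nat_lit 4688000000, nat_lit 9842000000], [], [nat_lit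 26693719180, nat_lit 27945314480, nat_lit 37584845480, nat_lit 38921353920, nat_lit 23396961260, nat_lit 24454620400, nat_lit 31391724280, nat_lit 32396474160], nat_lit 0, nat_lit 0, nat_lit 0, nat_lit 0, nat_lit 0, nat_lit 0, [], [nat_lit 27, nat_lit 40, nat_lit 40, nat_lit 80, nat_lit 13, nat_lit 373, nat_lit 150, nat_lit 10]⟩,
 zbF0, [⟨nat_lit 4, nat_lit 100, nat_lit 74, nat_lit 72, nat_lit 225085753⟩]⟩
noncomputable def p099_l66 : Lf2 := ⟨nat_lit 0, nat_lit 20, [nat_lit 5, nat_lit 5, nat_lit 5, nat_lit 20], false, nat_lit 0, nat_lit 260, nat_lit 160, nat_lit 260, ⟨nat_lit 1000, nat_lit 0, nat_lit 0, nat_lit 0, nat_lit 0, nat_lit 0, nat_lit 0, nat_lit 0, nat_lit 0, nat_lit 0, nat_lit 0, nat_lit 0, nat_lit 0, nat_lit 0, nat_lit 0, nat_lit 0, false, false⟩,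
 nat_lit 0, nat_lit 7902, nat_lit 0, nat_lit 0, nat_lit 5926, nat_lit 5513, nat_lit 624, nat_lit 0, nat_lit 0, nat_lit 0, nat_lit 0, nat_lit 0, nat_lit 0, nat_lit 0, nat_lit 0, nat_lit 0, nat_lit 0, nat_lit 0, [],
 ⟨p099_k0, nat_lit 0, nat_lit 0, nat_lit 604, nat_lit 0, nat_lit 942121, [nat_lit 2032000001, nat_lit 4688000000, nat_lit 9842000000], [], [nat_lit 33481916944, nat_lit 33858894226, nat_lit 38217196032, nat_lit 38532216010, nat_lit 31780750072, nat_lit 32042534184, nat_lit 35624209942, nat_lit 35842733539], nat_lit 1271250, nat_lit 1271250, nat_lit 1271250, nat_lit 1271250, nat_lit 0, nat_lit 1836250, [nat_lit 490000, nat_lit 1100000, nat_lit 2127500], [nat_lit 27, nat_lit 40, nat_lit 40, nat_lit 80, nat_lit 13, nat_lit 401, nat_lit 175, nat_lit 11]⟩, ⟨p099_k0, nat_lit 0, nat_lit 0, nat_lit 80, nat_lit 0, nat_lit 0, [nat_lit 2032000000, nat_lit 4688000000, nat_lit 9842000000], [], [nat_lit 21329121184,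 nat_lit 22104749052, nat_lit 30900935968, nat_lit 31395743342, nat_lit 24522009457, nat_lit 25158712337, nat_lit 32437582790, nat_lit 32909562130], nat_lit 0, nat_lit 0, nat_lit 0, nat_lit 0, nat_lit 0, nat_lit 0, [], [nat_lit 27, nat_lit 40, nat_lit 40, nat_lit 80, nat_lit 13, nat_lit 401, nat_lit 175, nat_lit 10]⟩,
 zbF0, [⟨nat_lit 16, nat_lit 79, nat_lit 100, nat_lit 72, nat_lit 209452989⟩, ⟨nat_lit 7, nat_lit 100, nat_lit 79, nat_lit 72, nat_lit 637442393⟩]⟩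
noncomputable def p099_l67 : Lf2 := ⟨nat_lit 0, nat_lit 20, [nat_lit 5, nat_lit 5, nat_lit 5, nat_lit 20], false, nat_lit 0, nat_lit 244, nat_lit 160, nat_lit 260, ⟨nat_lit 1000, nat_lit 0, nat_lit 0, nat_lit 0, nat_lit 0, nat_lit 0, nat_lit 0, nat_lit 0, nat_lit 0, nat_lit 0, nat_lit 0, nat_lit 0, nat_lit 0, nat_lit 0, nat_lit 0, nat_lit 0, false, false⟩,
 nat_lit 0, nat_lit 6930, nat_lit 0, nat_lit 0, nat_lit 5402, nat_lit 6297, nat_lit 649, nat_lit 0, nat_lit 0, nat_lit 790, nat_lit 0, nat_lit 0, nat_lit 0, nat_lit 13798189945492, nat_lit 0, nat_lit 0, nat_lit 0, nat_lit 0, [],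
 ⟨p099_k1, nat_lit 0, nat_lit 0, nat_lit 643, nat_lit 0, nat_lit 1057696, [nat_lit 2032000001, nat_lit 4688000000, nat_lit 9842000000], [], [nat_lit 33548688966, nat_lit 33835454842, nat_lit 37428907503, nat_lit 37673295648, nat_lit 32094926946, nat_lit 32353710034, nat_lit 35223391553, nat_lit 35399399635], nat_lit 1271250, nat_lit 1271250, nat_lit 1271250, nat_lit 1271250, nat_lit 0, nat_lit 1723250, [nat_lit 490000, nat_lit 1100000, nat_lit 2127500], [nat_lit 27, nat_lit 40, nat_lit 40, nat_lit 80, nat_lit 13, nat_lit 401, nat_lit 175, nat_lit 11]⟩, ⟨p099_k0, nat_lit 0, nat_lit 0, nat_lit 92, nat_lit 0, nat_lit 0, [nat_lit 2032000000, nat_lit 4688000000, nat_lit 9842000000], [], [nat_lit 21950143162, nat_lit 23254654232, nat_lit 31812096968, nat_lit 33031384944, nat_lit 24195927665, nat_lit 25264810759, nat_lit 33324153510, nat_lit 34323832246], nat_lit 0, nat_lit 0, nat_lit 0, nat_lit 0, nat_lit 0, nat_lit 0,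 [], [nat_lit 27, nat_lit 40, nat_lit 40, nat_lit 80, nat_lit 13, nat_lit 401, nat_lit 175, nat_lit 10]⟩,
 zbF0, [⟨nat_lit 4, nat_lit 100, nat_lit 74, nat_lit 72, nat_lit 225961070⟩, ⟨nat_lit 19, nat_lit 76, nat_lit 100, nat_lit 72, nat_lit 567219264⟩]⟩
noncomputable def p099_l68 : Lf2 := ⟨nat_lit 0, nat_lit 20, [nat_lit 5, nat_lit 5, nat_lit 5, nat_lit 20], false, nat_lit 0, nat_lit 232, nat_lit 0, nat_lit 260, ⟨nat_lit 1000, nat_lit 0, nat_lit 0, nat_lit 0, nat_lit 0, nat_lit 0, nat_lit 0, nat_lit 0, nat_lit 0, nat_lit 0, nat_lit 0, nat_lit 0, nat_lit 0, nat_lit 0, nat_lit 0, nat_lit 0, false, false⟩,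
 nat_lit 0, nat_lit 5662, nat_lit 0, nat_lit 0, nat_lit 4583, nat_lit 6631, nat_lit 681, nat_lit 0, nat_lit 0, nat_lit 425, nat_lit 0, nat_lit 0, nat_lit 0, nat_lit 0, nat_lit 0, nat_lit 0, nat_lit 0, nat_lit 0, [],
 ⟨p099_k2, nat_lit 0, nat_lit 0, nat_lit 637, nat_lit 0, nat_lit 1153218, [nat_lit 2032000001, nat_lit 4688000000, nat_lit 7968000000], [], [nat_lit 31654436418, nat_lit 32285843704, nat_lit 35965472179, nat_lit 36474100236, nat_lit 31487196317, nat_lit 32030346215, nat_lit 34910865030, nat_lit 35310034031], nat_lit 1271250, nat_lit 1271250, nat_lit 1271250, nat_lit 1271250, nat_lit 0, nat_lit 1638500, [nat_lit 490000, nat_lit 1100000, nat_lit 1785000], [nat_lit 34, nat_lit 40, nat_lit 40, nat_lit 80, nat_lit 7, nat_lit 284, nat_lit 60, nat_lit 9]⟩, ⟨p099_k0, nat_lit 0, nat_lit 0, nat_lit 212, nat_lit 0, nat_lit 0, [nat_lit 2032000000, nat_lit 4688000000, nat_lit 9842000000], [], [nat_lit 30226658093,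 nat_lit 31814343679, nat_lit 39825848036, nat_lit 41257089144, nat_lit 27757174304, nat_lit 28682511800, nat_lit 34153575723, nat_lit 34839803465], nat_lit 0, nat_lit 0, nat_lit 0, nat_lit 0, nat_lit 0, nat_lit 0, [], [nat_lit 27, nat_lit 40, nat_lit 40, nat_lit 80, nat_lit 13, nat_lit 401, nat_lit 175, nat_lit 11]⟩,
 zbF0, [⟨nat_lit 4, nat_lit 100, nat_lit 66, nat_lit 72, nat_lit 333490940⟩, ⟨nat_lit 7, nat_lit 100, nat_lit 76, nat_lit 72, nat_lit 165184780⟩]⟩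
noncomputable def p099_l69 : Lf2 := ⟨nat_lit 0, nat_lit 20, [nat_lit 5, nat_lit 5, nat_lit 5, nat_lit 20], false, nat_lit 0, nat_lit 260, nat_lit 0, nat_lit 260, ⟨nat_lit 747, nat_lit 253, nat_lit 0, nat_lit 8, nat_lit 237, nat_lit 253, nat_lit 89, nat_lit 0, nat_lit 0, nat_lit 0, nat_lit 0, nat_lit 0, nat_lit 0, nat_lit 0, nat_lit 0, nat_lit 5000000, false, false⟩,
 nat_lit 9468, nat_lit 0, nat_lit 0, nat_lit 0, nat_lit 7101, nat_lit 7101, nat_lit 209, nat_lit 0, nat_lit 0, nat_lit 405, nat_lit 0, nat_lit 0, nat_lit 0, nat_lit 0, nat_lit 0, nat_lit 253000, nat_lit 0, nat_lit 0, [(nat_lit 19, [(nat_lit 2, nat_lit 253)]), (nat_lit 22, [(nat_lit 2, nat_lit 253)])],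
 ⟨p099_k9, nat_lit 0, nat_lit 0, nat_lit 528, nat_lit 0, nat_lit 705412, [nat_lit 2095958401, nat_lit 4666321200, nat_lit 6554315600], [], [nat_lit 29057635533, nat_lit 30952977065, nat_lit 29237649229, nat_lit 31426336425, nat_lit 26229434683, nat_lit 27517958393, nat_lit 27592264887, nat_lit 27651267061], nat_lit 1271250, nat_lit 1271250, nat_lit 936251, nat_lit 1438750, nat_lit 0, nat_lit 1836250, [nat_lit 490000, nat_lit 1427500, nat_lit 1271250], [nat_lit 61, nat_lit 40, nat_lit 40, nat_lit 80, nat_lit 1, nat_lit 345, nat_lit 125, nat_lit 10]⟩, ⟨p099_k9, nat_lit 0, nat_lit 0, nat_lit 520, nat_lit 0, nat_lit 705412, [nat_lit 1517904000, nat_lit 4668750000, nat_lit 7351974000], [], [nat_lit 20782555047, nat_lit 22615151697, nat_lit 21332072457, nat_lit 22968150111, nat_lit 17281554804, nat_lit 18505533495, nat_lit 19518880050, nat_lit 18856979834], nat_lit 1271250, nat_lit 1271250, nat_lit 936251, nat_lit 1438750,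 nat_lit 0, nat_lit 1836250, [nat_lit 490000, nat_lit 1427500, nat_lit 1271250], [nat_lit 61, nat_lit 40, nat_lit 40, nat_lit 80, nat_lit 1, nat_lit 345, nat_lit 125, nat_lit 10]⟩,
 ⟨nat_lit 3162, nat_lit 4473, ⟨.ofNat (nat_lit 526772), .ofNat (nat_lit 628855), .ofNat (nat_lit 548248), .ofNat (nat_lit 650331), .ofNat (nat_lit 540839), .ofNat (nat_lit 632386), .ofNat (nat_lit 562904), .ofNat (nat_lit 654450)⟩, ⟨.negSucc (nat_lit 12437), .ofNat (nat_lit 429433), .ofNat (nat_lit 0), .ofNat (nat_lit 472567), .ofNat (nat_lit 0), .ofNat (nat_lit 414188), .ofNat (nat_lit 0), .ofNat (nat_lit 458499)⟩⟩, [⟨nat_lit 0, nat_lit 76, nat_lit 72, nat_lit 100, nat_lit 418211759⟩, ⟨nat_lit 4, nat_lit 100, nat_lit 71, nat_lit 71, nat_lit 159605557⟩, ⟨nat_lit 7, nat_lit 100, nat_lit 76, nat_lit 72, nat_lit 88906200⟩]⟩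
noncomputable def p099_l70 : Lf2 := ⟨nat_lit 0, nat_lit 20, [nat_lit 5, nat_lit 5, nat_lit 5, nat_lit 20], false, nat_lit 0, nat_lit 260, nat_lit 0, nat_lit 260, ⟨nat_lit 903, nat_lit 97, nat_lit 0, nat_lit 8, nat_lit 270, nat_lit 97, nat_lit 89, nat_lit 0, nat_lit 0, nat_lit 0, nat_lit 0, nat_lit 0, nat_lit 0, nat_lit 0, nat_lit 0, nat_lit 5000000, true, false⟩,
 nat_lit 8919, nat_lit 0, nat_lit 0, nat_lit 0, nat_lit 6689, nat_lit 6689, nat_lit 569, nat_lit 0, nat_lit 0, nat_lit 714, nat_lit 0, nat_lit 0, nat_lit 0, nat_lit 0, nat_lit 0, nat_lit 97000, nat_lit 0, nat_lit 0, [(nat_lit 19, [(nat_lit 2, nat_lit 97)]), (nat_lit 22, [(nat_lit 2, nat_lit 97)])],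
 ⟨p099_k0, nat_lit 0, nat_lit 0, nat_lit 496, nat_lit 0, nat_lit 705412, [nat_lit 1999666667, nat_lit 4335204534, nat_lit 8581504400], [], [nat_lit 26884662503, nat_lit 29609325325, nat_lit 27701693091, nat_lit 30741478185, nat_lit 26611013507, nat_lit 26347811732, nat_lit 25381896485, nat_lit 27048502240], nat_lit 1271250, nat_lit 1271250, nat_lit 1271250, nat_lit 1271250, nat_lit 0, nat_lit 1836250, [nat_lit 490000, nat_lit 1100000, nat_lit 2127500], [nat_lit 27, nat_lit 40, nat_lit 40, nat_lit 80, nat_lit 13, nat_lit 345, nat_lit 125, nat_lit 9]⟩, ⟨p099_k0, nat_lit 0, nat_lit 0, nat_lit 494, nat_lit 0, nat_lit 705412, [nat_lit 1834896000, nat_lit 4233264000, nat_lit 8887326000], [], [nat_lit 22955251838, nat_lit 24630499724, nat_lit 24272063386, nat_lit 26304127714, nat_lit 22245470867, nat_lit 21951574392, nat_lit 21719602806, nat_lit 23226790004], nat_lit 1271250, nat_lit 1271250, nat_lit 1271250, nat_lit 1271250,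 nat_lit 0, nat_lit 1836250, [nat_lit 490000, nat_lit 1100000, nat_lit 2127500], [nat_lit 27, nat_lit 40, nat_lit 40, nat_lit 80, nat_lit 13, nat_lit 345, nat_lit 125, nat_lit 9]⟩,
 ⟨nat_lit 3162, nat_lit 4473, ⟨.ofNat (nat_lit 628855), .ofNat (nat_lit 696911), .ofNat (nat_lit 650331), .ofNat (nat_lit 718387), .ofNat (nat_lit 632386), .ofNat (nat_lit 693416), .ofNat (nat_lit 654450), .ofNat (nat_lit 715481)⟩, ⟨.negSucc (nat_lit 12437), .ofNat (nat_lit 429433), .ofNat (nat_lit 0), .ofNat (nat_lit 472567), .ofNat (nat_lit 0), .ofNat (nat_lit 414188), .ofNat (nat_lit 0), .ofNat (nat_lit 458499)⟩⟩, [⟨nat_lit 0, nat_lit 72, nat_lit 61, nat_lit 100, nat_lit 93810854⟩, ⟨nat_lit 16, nat_lit 71, nat_lit 100, nat_lit 71, nat_lit 196036840⟩, ⟨nat_lit 7, nat_lit 100, nat_lit 76, nat_lit 72, nat_lit 187831144⟩]⟩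
noncomputable def p099_l71 : Lf2 := ⟨nat_lit 0, nat_lit 20, [nat_lit 5, nat_lit 5, nat_lit 5, nat_lit 20], false, nat_lit 0, nat_lit 260, nat_lit 0, nat_lit 260, ⟨nat_lit 1000, nat_lit 0, nat_lit 0, nat_lit 0, nat_lit 0, nat_lit 0, nat_lit 0, nat_lit 0, nat_lit 0, nat_lit 0, nat_lit 0, nat_lit 0, nat_lit 0, nat_lit 0, nat_lit 0, nat_lit 0, false, false⟩,
 nat_lit 8731, nat_lit 0, nat_lit 0, nat_lit 0, nat_lit 6548, nat_lit 6548, nat_lit 341, nat_lit 0, nat_lit 0, nat_lit 570, nat_lit 0, nat_lit 0, nat_lit 0, nat_lit 0, nat_lit 0, nat_lit 0, nat_lit 0, nat_lit 0, [],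
 ⟨p099_k0, nat_lit 0, nat_lit 0, nat_lit 490, nat_lit 0, nat_lit 705412, [nat_lit 2032000001, nat_lit 4688000000, nat_lit 9842000000], [], [nat_lit 34055501337, nat_lit 35625130281, nat_lit 40495312825, nat_lit 42436484016, nat_lit 31737452281, nat_lit 32810103789, nat_lit 35025761409, nat_lit 36392830773], nat_lit 1271250, nat_lit 1271250, nat_lit 1271250, nat_lit 1271250, nat_lit 0, nat_lit 1836250, [nat_lit 490000, nat_lit 1100000, nat_lit 2127500], [nat_lit 27, nat_lit 40, nat_lit 40, nat_lit 80, nat_lit 13, nat_lit 401, nat_lit 175, nat_lit 11]⟩, ⟨p099_k0, nat_lit 0, nat_lit 0, nat_lit 489, nat_lit 0, nat_lit 705412, [nat_lit 2032000000, nat_lit 4688000000, nat_lit 9842000000], [], [nat_lit 30396710098, nat_lit 31336343986, nat_lit 39593634288, nat_lit 41015059152, nat_lit 28218710706, nat_lit 28864250388, nat_lit 33607991840, nat_lit 34625509522], nat_lit 1271250, nat_lit 1271250, nat_lit 1271250, nat_lit 1271250,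 nat_lit 0, nat_lit 1836250, [nat_lit 490000, nat_lit 1100000, nat_lit 2127500], [nat_lit 27, nat_lit 40, nat_lit 40, nat_lit 80, nat_lit 13, nat_lit 401, nat_lit 175, nat_lit 11]⟩,
 zbF0, [⟨nat_lit 16, nat_lit 71, nat_lit 100, nat_lit 71, nat_lit 231575150⟩, ⟨nat_lit 7, nat_lit 100, nat_lit 76, nat_lit 72, nat_lit 87709076⟩]⟩
noncomputable def b_V_800_800_10_19 : St := ⟨true, nat_lit 1, nat_lit 2, nat_lit 2, nat_lit 80, nat_lit 320, nat_lit 360, nat_lit 320, nat_lit 340, nat_lit 140, nat_lit 400, nat_lit 40, nat_lit 80, nat_lit 0, nat_lit 260, nat_lit 0, nat_lit 260, nat_lit 40, nat_lit 80, nat_lit 0, nat_lit 0, nat_lit 0, nat_lit 0⟩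
theorem d_V_800_800_10_19 (h : EB TB.env) : Dead b_V_800_800_10_19 := chkB_sound0 h (T :=
(.st (nat_lit 1)
(.spl (nat_lit 2) (nat_lit 240)
(.spl (nat_lit 5) (nat_lit 160)
(.spl (nat_lit 4) (nat_lit 160)
(.spl (nat_lit 0) (nat_lit 340)
(.spl (nat_lit 0) (nat_lit 330)
(.ord (.leaf p099_l57))
(.trZ (nat_lit 0) (nat_lit 82) (nat_lit 78) (nat_lit 100) (nat_lit 156) (.leaf p099_l58)))
(.trZ (nat_lit 0) (nat_lit 81) (nat_lit 72) (nat_lit 100) (nat_lit 168) (.leaf p099_l59)))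
(.spl (nat_lit 0) (nat_lit 340)
(.leaf p099_l60)
(.trZ (nat_lit 0) (nat_lit 81) (nat_lit 72) (nat_lit 100) (nat_lit 168) (.trX (nat_lit 16) (nat_lit 72) (nat_lit 100) (nat_lit 81) (nat_lit 232) (.leaf p099_l61)))))
(.spl (nat_lit 4) (nat_lit 160)
(.leaf p099_l62)
(.leaf p099_l63)))
(.spl (nat_lit 0) (nat_lit 340)
(.spl (nat_lit 5) (nat_lit 160)
(.spl (nat_lit 0) (nat_lit 330)
(.ord (.leaf p099_l64))
(.trX (nat_lit 16) (nat_lit 78) (nat_lit 100) (nat_lit 82) (nat_lit 244) (.leaf p099_l65)))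
(.spl (nat_lit 0) (nat_lit 330)
(.ord (.leaf p099_l66))
(.trX (nat_lit 16) (nat_lit 78) (nat_lit 100) (nat_lit 82) (nat_lit 244) (.leaf p099_l67))))
(.trX (nat_lit 16) (nat_lit 72) (nat_lit 100) (nat_lit 81) (nat_lit 232) (.leaf p099_l68))))
(.spl (nat_lit 2) (nat_lit 240)
(.spl (nat_lit 2) (nat_lit 200)
(.leaf p099_l69)
(.leaf p099_l70))
(.leaf p099_l71)))) (by decide +kernel)
noncomputable def p099_l72 : Lf2 := ⟨nat_lit 0, nat_lit 20, [nat_lit 5, nat_lit 5, nat_lit 5, nat_lit 20], false, nat_lit 0, nat_lit 260, nat_lit 0, nat_lit 260, ⟨nat_lit 1000, nat_lit 0, nat_lit 0, nat_lit 0, nat_lit 0, nat_lit 0, nat_lit 0, nat_lit 0, nat_lit 0, nat_lit 0, nat_lit 0, nat_lit 0, nat_lit 0, nat_lit 0, nat_lit 0, nat_lit 0, false, false⟩,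
 nat_lit 0, nat_lit 0, nat_lit 0, nat_lit 2838, nat_lit 8597, nat_lit 8785, nat_lit 0, nat_lit 0, nat_lit 0, nat_lit 0, nat_lit 0, nat_lit 0, nat_lit 0, nat_lit 20464010237, nat_lit 0, nat_lit 0, nat_lit 0, nat_lit 0, [],
 ⟨p099_k0, nat_lit 0, nat_lit 0, nat_lit 215, nat_lit 0, nat_lit 0, [nat_lit 2032000001, nat_lit 4688000000, nat_lit 9842000000], [], [nat_lit 32929224278, nat_lit 37502048500, nat_lit 46212240800, nat_lit 48653748324, nat_lit 29214609150, nat_lit 32290795748, nat_lit 37633655626, nat_lit 39133690747], nat_lit 0, nat_lit 0, nat_lit 0, nat_lit 0, nat_lit 0, nat_lit 0, [], [nat_lit 27, nat_lit 40, nat_lit 40, nat_lit 80, nat_lit 13, nat_lit 401, nat_lit 175, nat_lit 11]⟩, ⟨p099_k0, nat_lit 0, nat_lit 0, nat_lit 212, nat_lit 0, nat_lit 0, [nat_lit 2032000000, nat_lit 4688000000, nat_lit 9842000000], [], [nat_lit 33009194590, nat_lit 35330116545, nat_lit 46424004000, nat_lit 47538989050, nat_lit 29093527750,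 nat_lit 30652391994, nat_lit 37560158530, nat_lit 38316276033], nat_lit 0, nat_lit 0, nat_lit 0, nat_lit 0, nat_lit 0, nat_lit 0, [], [nat_lit 27, nat_lit 40, nat_lit 40, nat_lit 80, nat_lit 13, nat_lit 401, nat_lit 175, nat_lit 11]⟩,
 zbF0, [⟨nat_lit 0, nat_lit 76, nat_lit 72, nat_lit 100, nat_lit 214034272⟩]⟩
noncomputable def p099_l73 : Lf2 := ⟨nat_lit 0, nat_lit 20, [nat_lit 5, nat_lit 5, nat_lit 5, nat_lit 20], false, nat_lit 0, nat_lit 160, nat_lit 0, nat_lit 160, ⟨nat_lit 1000, nat_lit 0, nat_lit 0, nat_lit 0, nat_lit 0, nat_lit 0, nat_lit 0, nat_lit 0, nat_lit 0, nat_lit 0, nat_lit 0, nat_lit 0, nat_lit 0, nat_lit 0, nat_lit 0, nat_lit 0, false, false⟩,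
 nat_lit 0, nat_lit 0, nat_lit 10121, nat_lit 0, nat_lit 6260, nat_lit 7590, nat_lit 871, nat_lit 0, nat_lit 0, nat_lit 723, nat_lit 0, nat_lit 0, nat_lit 0, nat_lit 0, nat_lit 0, nat_lit 0, nat_lit 0, nat_lit 0, [],
 ⟨p099_k0, nat_lit 0, nat_lit 0, nat_lit 182, nat_lit 0, nat_lit 0, [nat_lit 2032000001, nat_lit 4688000000, nat_lit 9842000000], [], [nat_lit 23227847115, nat_lit 25085272495, nat_lit 25620643155, nat_lit 27155718715, nat_lit 19072183155, nat_lit 20638273575, nat_lit 21168560835, nat_lit 22468879435], nat_lit 0, nat_lit 0, nat_lit 0, nat_lit 0, nat_lit 0, nat_lit 0, [], [nat_lit 27, nat_lit 40, nat_lit 40, nat_lit 80, nat_lit 13, nat_lit 317, nat_lit 100, nat_lit 9]⟩, ⟨p099_k0, nat_lit 0, nat_lit 0, nat_lit 578, nat_lit 0, nat_lit 788534, [nat_lit 2032000000, nat_lit 4688000000, nat_lit 9842000000], [], [nat_lit 28963009740, nat_lit 27382903410, nat_lit 27628626895, nat_lit 29444176460, nat_lit 21864285375,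 nat_lit 22699274000, nat_lit 26910662935, nat_lit 23735611240], nat_lit 1271250, nat_lit 1271250, nat_lit 936251, nat_lit 1773750, nat_lit 0, nat_lit 1100001, [nat_lit 490000, nat_lit 1100000, nat_lit 2127500], [nat_lit 27, nat_lit 40, nat_lit 40, nat_lit 80, nat_lit 13, nat_lit 317, nat_lit 100, nat_lit 9]⟩,
 zbF0, [⟨nat_lit 0, nat_lit 71, nat_lit 71, nat_lit 100, nat_lit 526814093⟩]⟩
noncomputable def p099_l74 : Lf2 := ⟨nat_lit 0, nat_lit 20, [nat_lit 5, nat_lit 5, nat_lit 5, nat_lit 20], false, nat_lit 0, nat_lit 160, nat_lit 0, nat_lit 160, ⟨nat_lit 1000, nat_lit 0, nat_lit 0, nat_lit 0, nat_lit 0, nat_lit 0, nat_lit 0, nat_lit 0, nat_lit 0, nat_lit 0, nat_lit 0, nat_lit 0, nat_lit 0, nat_lit 0, nat_lit 0, nat_lit 0, false, false⟩,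
 nat_lit 0, nat_lit 0, nat_lit 8650, nat_lit 0, nat_lit 6273, nat_lit 6487, nat_lit 486, nat_lit 0, nat_lit 0, nat_lit 673, nat_lit 0, nat_lit 0, nat_lit 0, nat_lit 0, nat_lit 0, nat_lit 0, nat_lit 0, nat_lit 0, [],
 ⟨p099_k2, nat_lit 0, nat_lit 0, nat_lit 159, nat_lit 0, nat_lit 0, [nat_lit 2032000001, nat_lit 4688000000, nat_lit 7968000000], [], [nat_lit 25627252150, nat_lit 27593655029, nat_lit 27832428298, nat_lit 29533354084, nat_lit 21497429448, nat_lit 23147951726, nat_lit 23410378404, nat_lit 24841622820], nat_lit 0, nat_lit 0, nat_lit 0, nat_lit 0, nat_lit 0, nat_lit 0, [], [nat_lit 34, nat_lit 40, nat_lit 40, nat_lit 80, nat_lit 7, nat_lit 317, nat_lit 100, nat_lit 10]⟩, ⟨p099_k0, nat_lit 0, nat_lit 0, nat_lit 632, nat_lit 0, nat_lit 979891, [nat_lit 2032000000, nat_lit 4688000000, nat_lit 9842000000], [], [nat_lit 30308147711, nat_lit 31013530574, nat_lit 30957740453, nat_lit 31739528471, nat_lit 27147947901,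 nat_lit 27892810230, nat_lit 29619320033, nat_lit 28508693732], nat_lit 1271250, nat_lit 1271250, nat_lit 1167600, nat_lit 1789500, nat_lit 0, nat_lit 1100001, [nat_lit 490000, nat_lit 1100000, nat_lit 2127500], [nat_lit 27, nat_lit 40, nat_lit 40, nat_lit 80, nat_lit 13, nat_lit 317, nat_lit 100, nat_lit 9]⟩,
 zbF0, [⟨nat_lit 0, nat_lit 72, nat_lit 61, nat_lit 100, nat_lit 643439559⟩]⟩
noncomputable def p099_l75 : Lf2 := ⟨nat_lit 0, nat_lit 20, [nat_lit 5, nat_lit 5, nat_lit 5, nat_lit 20], false, nat_lit 0, nat_lit 160, nat_lit 160, nat_lit 260, ⟨nat_lit 1000, nat_lit 0, nat_lit 0, nat_lit 0, nat_lit 0, nat_lit 0, nat_lit 0, nat_lit 0, nat_lit 0, nat_lit 0, nat_lit 0, nat_lit 0, nat_lit 0, nat_lit 0, nat_lit 0, nat_lit 0, false, false⟩,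
 nat_lit 0, nat_lit 0, nat_lit 9614, nat_lit 0, nat_lit 6260, nat_lit 7210, nat_lit 871, nat_lit 0, nat_lit 0, nat_lit 714, nat_lit 0, nat_lit 0, nat_lit 0, nat_lit 0, nat_lit 0, nat_lit 0, nat_lit 0, nat_lit 0, [],
 ⟨p099_k0, nat_lit 0, nat_lit 0, nat_lit 182, nat_lit 0, nat_lit 0, [nat_lit 2032000001, nat_lit 4688000000, nat_lit 9842000000], [], [nat_lit 23227847115, nat_lit 25085272495, nat_lit 25620643155, nat_lit 27155718715, nat_lit 19072183155, nat_lit 20638273575, nat_lit 21168560835, nat_lit 22468879435], nat_lit 0, nat_lit 0, nat_lit 0, nat_lit 0, nat_lit 0, nat_lit 0, [], [nat_lit 27, nat_lit 40, nat_lit 40, nat_lit 80, nat_lit 13, nat_lit 317, nat_lit 100, nat_lit 9]⟩, ⟨p099_k0, nat_lit 0, nat_lit 0, nat_lit 457, nat_lit 0, nat_lit 788534, [nat_lit 2032000000, nat_lit 4688000000, nat_lit 9842000000], [], [nat_lit 22296487070, nat_lit 23281078470, nat_lit 23238085490, nat_lit 24059521760, nat_lit 23846209775,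 nat_lit 24726285095, nat_lit 24769840130, nat_lit 25626432100], nat_lit 1271250, nat_lit 1271250, nat_lit 936251, nat_lit 1773750, nat_lit 1100001, nat_lit 1956250, [nat_lit 490000, nat_lit 1100000, nat_lit 2127500], [nat_lit 27, nat_lit 40, nat_lit 40, nat_lit 80, nat_lit 13, nat_lit 345, nat_lit 125, nat_lit 9]⟩,
 zbF0, [⟨nat_lit 0, nat_lit 71, nat_lit 71, nat_lit 100, nat_lit 654673550⟩, ⟨nat_lit 7, nat_lit 100, nat_lit 76, nat_lit 72, nat_lit 526716471⟩]⟩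
noncomputable def p099_l76 : Lf2 := ⟨nat_lit 0, nat_lit 20, [nat_lit 5, nat_lit 5, nat_lit 5, nat_lit 20], false, nat_lit 0, nat_lit 160, nat_lit 160, nat_lit 260, ⟨nat_lit 1000, nat_lit 0, nat_lit 0, nat_lit 0, nat_lit 0, nat_lit 0, nat_lit 0, nat_lit 0, nat_lit 0, nat_lit 0, nat_lit 0, nat_lit 0, nat_lit 0, nat_lit 0, nat_lit 0, nat_lit 0, false, false⟩,
 nat_lit 0, nat_lit 0, nat_lit 7756, nat_lit 0, nat_lit 6273, nat_lit 5816, nat_lit 486, nat_lit 0, nat_lit 0, nat_lit 706, nat_lit 0, nat_lit 0, nat_lit 0, nat_lit 0, nat_lit 0, nat_lit 0, nat_lit 0, nat_lit 0, [],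
 ⟨p099_k2, nat_lit 0, nat_lit 0, nat_lit 159, nat_lit 0, nat_lit 0, [nat_lit 2032000001, nat_lit 4688000000, nat_lit 7968000000], [], [nat_lit 25627252150, nat_lit 27593655029, nat_lit 27832428298, nat_lit 29533354084, nat_lit 21497429448, nat_lit 23147951726, nat_lit 23410378404, nat_lit 24841622820], nat_lit 0, nat_lit 0, nat_lit 0, nat_lit 0, nat_lit 0, nat_lit 0, [], [nat_lit 34, nat_lit 40, nat_lit 40, nat_lit 80, nat_lit 7, nat_lit 317, nat_lit 100, nat_lit 10]⟩, ⟨p099_k0, nat_lit 0, nat_lit 0, nat_lit 536, nat_lit 0, nat_lit 979891, [nat_lit 2032000000, nat_lit 4688000000, nat_lit 9842000000], [], [nat_lit 27424510711, nat_lit 28228725834, nat_lit 28373061354, nat_lit 29121558378, nat_lit 28914594292, nat_lit 29644210976, nat_lit 29830683248, nat_lit 30611919760], nat_lit 1271250, nat_lit 1271250, nat_lit 1167600, nat_lit 1789500, nat_lit 1100001, nat_lit 1956250, [nat_lit 490000, nat_lit 1100000, nat_lit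 2127500], [nat_lit 27, nat_lit 40, nat_lit 40, nat_lit 80, nat_lit 13, nat_lit 345, nat_lit 125, nat_lit 9]⟩,
 zbF0, [⟨nat_lit 0, nat_lit 72, nat_lit 61, nat_lit 100, nat_lit 599039347⟩, ⟨nat_lit 7, nat_lit 100, nat_lit 76, nat_lit 72, nat_lit 519762661⟩]⟩
noncomputable def p099_l77 : Lf2 := ⟨nat_lit 0, nat_lit 20, [nat_lit 5, nat_lit 5, nat_lit 5, nat_lit 20], false, nat_lit 160, nat_lit 260, nat_lit 0, nat_lit 260, ⟨nat_lit 1000, nat_lit 0, nat_lit 0, nat_lit 0, nat_lit 0, nat_lit 0, nat_lit 0, nat_lit 0, nat_lit 0, nat_lit 0, nat_lit 0, nat_lit 0, nat_lit 0, nat_lit 0, nat_lit 0, nat_lit 0, false, false⟩,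
 nat_lit 0, nat_lit 0, nat_lit 6874, nat_lit 0, nat_lit 3797, nat_lit 5155, nat_lit 0, nat_lit 0, nat_lit 0, nat_lit 684, nat_lit 0, nat_lit 0, nat_lit 0, nat_lit 0, nat_lit 0, nat_lit 0, nat_lit 0, nat_lit 0, [],
 ⟨p099_k0, nat_lit 0, nat_lit 0, nat_lit 49, nat_lit 0, nat_lit 0, [nat_lit 2032000001, nat_lit 4688000000, nat_lit 9842000000], [], [nat_lit 16161562135, nat_lit 19539833459, nat_lit 19470023565, nat_lit 22296549605, nat_lit 20182291427, nat_lit 23028970717, nat_lit 22784824807, nat_lit 25188483520], nat_lit 0, nat_lit 0, nat_lit 0, nat_lit 0, nat_lit 0, nat_lit 0, [], [nat_lit 27, nat_lit 40, nat_lit 40, nat_lit 80, nat_lit 13, nat_lit 345, nat_lit 125, nat_lit 9]⟩, ⟨p099_k0, nat_lit 0, nat_lit 0, nat_lit 641, nat_lit 0, nat_lit 979891, [nat_lit 2032000000, nat_lit 4688000000, nat_lit 9842000000], [], [nat_lit 35374869300, nat_lit 35971497130, nat_lit 36298851000, nat_lit 36926694740, nat_lit 35019810945,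 nat_lit 35666179879, nat_lit 38012475010, nat_lit 36463654003], nat_lit 1271250, nat_lit 1271250, nat_lit 936251, nat_lit 1773750, nat_lit 0, nat_lit 1836250, [nat_lit 490000, nat_lit 1100000, nat_lit 2127500], [nat_lit 27, nat_lit 40, nat_lit 40, nat_lit 80, nat_lit 13, nat_lit 345, nat_lit 125, nat_lit 10]⟩,
 zbF0, [⟨nat_lit 0, nat_lit 72, nat_lit 61, nat_lit 100, nat_lit 427964792⟩, ⟨nat_lit 16, nat_lit 71, nat_lit 100, nat_lit 71, nat_lit 762472586⟩, ⟨nat_lit 19, nat_lit 76, nat_lit 100, nat_lit 72, nat_lit 295034693⟩, ⟨nat_lit 19, nat_lit 83, nat_lit 100, nat_lit 83, nat_lit 5404402⟩]⟩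
noncomputable def p099_l78 : Lf2 := ⟨nat_lit 0, nat_lit 15, [nat_lit 30, nat_lit 5, nat_lit 5, nat_lit 20], false, nat_lit 0, nat_lit 232, nat_lit 0, nat_lit 232, ⟨nat_lit 1000, nat_lit 0, nat_lit 0, nat_lit 0, nat_lit 0, nat_lit 0, nat_lit 0, nat_lit 0, nat_lit 0, nat_lit 0, nat_lit 0, nat_lit 0, nat_lit 0, nat_lit 0, nat_lit 0, nat_lit 0, false, false⟩,
 nat_lit 0, nat_lit 0, nat_lit 7499, nat_lit 0, nat_lit 7126, nat_lit 5623, nat_lit 0, nat_lit 0, nat_lit 0, nat_lit 586, nat_lit 0, nat_lit 0, nat_lit 0, nat_lit 0, nat_lit 0, nat_lit 0, nat_lit 0, nat_lit 0, [],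
 ⟨p099_k5, nat_lit 0, nat_lit 0, nat_lit 193, nat_lit 0, nat_lit 0, [nat_lit 2032000001, nat_lit 4688000000, nat_lit 7968000000], [], [nat_lit 30604250136, nat_lit 32440139676, nat_lit 41588555136, nat_lit 42701345472, nat_lit 27179580673, nat_lit 28454238551, nat_lit 35153819411, nat_lit 35984454927], nat_lit 0, nat_lit 0, nat_lit 0, nat_lit 0, nat_lit 0, nat_lit 0, [], [nat_lit 34, nat_lit 40, nat_lit 40, nat_lit 80, nat_lit 7, nat_lit 272, nat_lit 60, nat_lit 8]⟩, ⟨p099_k5, nat_lit 0, nat_lit 0, nat_lit 427, nat_lit 0, nat_lit 650862, [nat_lit 2032000000, nat_lit 4688000000, nat_lit 7968000000], [], [nat_lit 32219250944, nat_lit 33047826398, nat_lit 37591491664, nat_lit 38322364622, nat_lit 30346668197, nat_lit 30962323536, nat_lit 34942987378, nat_lit 35489197110], nat_lit 1271250, nat_lit 1271250, nat_lit 1271250, nat_lit 1271250, nat_lit 0, nat_lit 1638500, [nat_lit 490000, nat_lit 1100000, nat_lit 1785000],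 [nat_lit 34, nat_lit 40, nat_lit 40, nat_lit 80, nat_lit 7, nat_lit 272, nat_lit 60, nat_lit 8]⟩,
 zbF0, [⟨nat_lit 4, nat_lit 100, nat_lit 76, nat_lit 66, nat_lit 46227755⟩, ⟨nat_lit 7, nat_lit 100, nat_lit 76, nat_lit 66, nat_lit 230492810⟩]⟩
noncomputable def p099_l79 : Lf2 := ⟨nat_lit 0, nat_lit 15, [nat_lit 30, nat_lit 5, nat_lit 5, nat_lit 20], false, nat_lit 0, nat_lit 208, nat_lit 0, nat_lit 232, ⟨nat_lit 1000, nat_lit 0, nat_lit 0, nat_lit 0, nat_lit 0, nat_lit 0, nat_lit 0, nat_lit 0, nat_lit 0, nat_lit 0, nat_lit 0, nat_lit 0, nat_lit 0, nat_lit 0, nat_lit 0, nat_lit 0, false, false⟩,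
 nat_lit 0, nat_lit 0, nat_lit 7824, nat_lit 0, nat_lit 6796, nat_lit 5867, nat_lit 24, nat_lit 0, nat_lit 0, nat_lit 557, nat_lit 0, nat_lit 0, nat_lit 0, nat_lit 0, nat_lit 0, nat_lit 0, nat_lit 0, nat_lit 0, [],
 ⟨p099_k4, nat_lit 0, nat_lit 0, nat_lit 196, nat_lit 0, nat_lit 0, [nat_lit 2032000001, nat_lit 4688000000, nat_lit 7968000000], [], [nat_lit 32092719096, nat_lit 33874887936, nat_lit 42099149712, nat_lit 43188988432, nat_lit 28242308786, nat_lit 29390731344, nat_lit 35779732114, nat_lit 36635226938], nat_lit 0, nat_lit 0, nat_lit 0, nat_lit 0, nat_lit 0, nat_lit 0, [], [nat_lit 34, nat_lit 40, nat_lit 40, nat_lit 80, nat_lit 7, nat_lit 272, nat_lit 60, nat_lit 8]⟩, ⟨p099_k5, nat_lit 0, nat_lit 0, nat_lit 507, nat_lit 0, nat_lit 837780, [nat_lit 2032000000, nat_lit 4688000000, nat_lit 7968000000], [], [nat_lit 33833063622, nat_lit 34541810204, nat_lit 38407032544, nat_lit 39035160546, nat_lit 31671508770,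 nat_lit 32193804220, nat_lit 35588292058, nat_lit 36052086872], nat_lit 1271250, nat_lit 1271250, nat_lit 1271250, nat_lit 1271250, nat_lit 0, nat_lit 1638500, [nat_lit 490000, nat_lit 1100000, nat_lit 1785000], [nat_lit 34, nat_lit 40, nat_lit 40, nat_lit 80, nat_lit 7, nat_lit 272, nat_lit 60, nat_lit 8]⟩,
 zbF0, [⟨nat_lit 16, nat_lit 67, nat_lit 100, nat_lit 67, nat_lit 80428619⟩, ⟨nat_lit 19, nat_lit 76, nat_lit 100, nat_lit 66, nat_lit 198837109⟩]⟩
noncomputable def p099_l80 : Lf2 := ⟨nat_lit 0, nat_lit 20, [nat_lit 5, nat_lit 5, nat_lit 5, nat_lit 20], false, nat_lit 0, nat_lit 260, nat_lit 0, nat_lit 260, ⟨nat_lit 1000, nat_lit 0, nat_lit 0, nat_lit 0, nat_lit 0, nat_lit 0, nat_lit 0, nat_lit 0, nat_lit 0, nat_lit 0, nat_lit 0, nat_lit 0, nat_lit 0, nat_lit 0, nat_lit 0, nat_lit 0, false, false⟩,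
 nat_lit 0, nat_lit 0, nat_lit 8310, nat_lit 0, nat_lit 8682, nat_lit 6232, nat_lit 46, nat_lit 0, nat_lit 0, nat_lit 640, nat_lit 0, nat_lit 0, nat_lit 0, nat_lit 0, nat_lit 0, nat_lit 0, nat_lit 0, nat_lit 0, [],
 ⟨p099_k0, nat_lit 0, nat_lit 0, nat_lit 211, nat_lit 0, nat_lit 0, [nat_lit 2032000001, nat_lit 4688000000, nat_lit 9842000000], [], [nat_lit 34830393446, nat_lit 35769658292, nat_lit 45848128550, nat_lit 46402266880, nat_lit 29780922740, nat_lit 30414562996, nat_lit 37140569306, nat_lit 37516957063], nat_lit 0, nat_lit 0, nat_lit 0, nat_lit 0, nat_lit 0, nat_lit 0, [], [nat_lit 27, nat_lit 40, nat_lit 40, nat_lit 80, nat_lit 13, nat_lit 401, nat_lit 175, nat_lit 11]⟩, ⟨p099_k0, nat_lit 0, nat_lit 0, nat_lit 381, nat_lit 0, nat_lit 421927, [nat_lit 2032000000, nat_lit 4688000000, nat_lit 9842000000], [], [nat_lit 30269067328, nat_lit 30698893160, nat_lit 38709543392, nat_lit 39401569480, nat_lit 27459999664,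 nat_lit 27760150586, nat_lit 33250649560, nat_lit 33748179104], nat_lit 1271250, nat_lit 1271250, nat_lit 1271250, nat_lit 1271250, nat_lit 0, nat_lit 1836250, [nat_lit 490000, nat_lit 1100000, nat_lit 2127500], [nat_lit 27, nat_lit 40, nat_lit 40, nat_lit 80, nat_lit 13, nat_lit 401, nat_lit 175, nat_lit 11]⟩,
 zbF0, [⟨nat_lit 7, nat_lit 100, nat_lit 79, nat_lit 77, nat_lit 102149667⟩]⟩
noncomputable def p099_l81 : Lf2 := ⟨nat_lit 0, nat_lit 20, [nat_lit 5, nat_lit 5, nat_lit 5, nat_lit 20], false, nat_lit 0, nat_lit 244, nat_lit 0, nat_lit 260, ⟨nat_lit 1000, nat_lit 0, nat_lit 0, nat_lit 0, nat_lit 0, nat_lit 0, nat_lit 0, nat_lit 0, nat_lit 0, nat_lit 0, nat_lit 0, nat_lit 0, nat_lit 0, nat_lit 0, nat_lit 0, nat_lit 0, false, false⟩,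
 nat_lit 0, nat_lit 0, nat_lit 7545, nat_lit 0, nat_lit 5820, nat_lit 5658, nat_lit 778, nat_lit 0, nat_lit 0, nat_lit 614, nat_lit 0, nat_lit 0, nat_lit 0, nat_lit 0, nat_lit 0, nat_lit 0, nat_lit 0, nat_lit 0, [],
 ⟨p099_k1, nat_lit 0, nat_lit 0, nat_lit 212, nat_lit 0, nat_lit 0, [nat_lit 2032000001, nat_lit 4688000000, nat_lit 9842000000], [], [nat_lit 26380062420, nat_lit 27116402880, nat_lit 38224530800, nat_lit 38892193680, nat_lit 24006415926, nat_lit 24458896660, nat_lit 32793772307, nat_lit 33295065879], nat_lit 0, nat_lit 0, nat_lit 0, nat_lit 0, nat_lit 0, nat_lit 0, [], [nat_lit 27, nat_lit 40, nat_lit 40, nat_lit 80, nat_lit 13, nat_lit 401, nat_lit 175, nat_lit 11]⟩, ⟨p099_k0, nat_lit 0, nat_lit 0, nat_lit 454, nat_lit 0, nat_lit 586924, [nat_lit 2032000000, nat_lit 4688000000, nat_lit 9842000000], [], [nat_lit 33363006820, nat_lit 34062882900, nat_lit 37837691918, nat_lit 38419862898, nat_lit 31235850816,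 nat_lit 31727606423, nat_lit 35196601958, nat_lit 35712431748], nat_lit 1271250, nat_lit 1271250, nat_lit 1271250, nat_lit 1271250, nat_lit 0, nat_lit 1836250, [nat_lit 490000, nat_lit 1100000, nat_lit 2127500], [nat_lit 27, nat_lit 40, nat_lit 40, nat_lit 80, nat_lit 13, nat_lit 401, nat_lit 175, nat_lit 11]⟩,
 zbF0, [⟨nat_lit 16, nat_lit 74, nat_lit 100, nat_lit 77, nat_lit 91700380⟩, ⟨nat_lit 7, nat_lit 100, nat_lit 77, nat_lit 77, nat_lit 200308544⟩]⟩
noncomputable def p099_l82 : Lf2 := ⟨nat_lit 0, nat_lit 20, [nat_lit 5, nat_lit 5, nat_lit 5, nat_lit 20], false, nat_lit 0, nat_lit 232, nat_lit 0, nat_lit 260, ⟨nat_lit 1000, nat_lit 0, nat_lit 0, nat_lit 0, nat_lit 0, nat_lit 0, nat_lit 0, nat_lit 0, nat_lit 0, nat_lit 0, nat_lit 0, nat_lit 0, nat_lit 0, nat_lit 0, nat_lit 0, nat_lit 0, false, false⟩,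
 nat_lit 0, nat_lit 0, nat_lit 7624, nat_lit 0, nat_lit 6913, nat_lit 5718, nat_lit 0, nat_lit 0, nat_lit 0, nat_lit 619, nat_lit 0, nat_lit 0, nat_lit 0, nat_lit 0, nat_lit 0, nat_lit 0, nat_lit 0, nat_lit 0, [],
 ⟨p099_k2, nat_lit 0, nat_lit 0, nat_lit 196, nat_lit 0, nat_lit 0, [nat_lit 2032000001, nat_lit 4688000000, nat_lit 7968000000], [], [nat_lit 32351440938, nat_lit 34152656208, nat_lit 42448200936, nat_lit 43544518704, nat_lit 28689695985, nat_lit 29935080588, nat_lit 36048945704, nat_lit 36869556162], nat_lit 0, nat_lit 0, nat_lit 0, nat_lit 0, nat_lit 0, nat_lit 0, [], [nat_lit 34, nat_lit 40, nat_lit 40, nat_lit 80, nat_lit 7, nat_lit 272, nat_lit 60, nat_lit 8]⟩, ⟨p099_k0, nat_lit 0, nat_lit 0, nat_lit 487, nat_lit 0, nat_lit 697316, [nat_lit 2032000000, nat_lit 4688000000, nat_lit 9842000000], [], [nat_lit 33093330470, nat_lit 33444551310, nat_lit 37641973303, nat_lit 37933833093, nat_lit 30899902186,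 nat_lit 31145732365, nat_lit 34992713018, nat_lit 35251175563], nat_lit 1271250, nat_lit 1271250, nat_lit 1271250, nat_lit 1271250, nat_lit 0, nat_lit 1836250, [nat_lit 490000, nat_lit 1100000, nat_lit 2127500], [nat_lit 27, nat_lit 40, nat_lit 40, nat_lit 80, nat_lit 13, nat_lit 401, nat_lit 175, nat_lit 11]⟩,
 zbF0, [⟨nat_lit 4, nat_lit 100, nat_lit 66, nat_lit 76, nat_lit 111572303⟩, ⟨nat_lit 7, nat_lit 100, nat_lit 79, nat_lit 77, nat_lit 196073740⟩]⟩
noncomputable def p099_l83 : Lf2 := ⟨nat_lit 0, nat_lit 20, [nat_lit 5, nat_lit 5, nat_lit 5, nat_lit 20], false, nat_lit 0, nat_lit 232, nat_lit 0, nat_lit 244, ⟨nat_lit 1000, nat_lit 0, nat_lit 0, nat_lit 0, nat_lit 0, nat_lit 0, nat_lit 0, nat_lit 0, nat_lit 0, nat_lit 0, nat_lit 0, nat_lit 0, nat_lit 0, nat_lit 0, nat_lit 0, nat_lit 0, false, false⟩,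
 nat_lit 0, nat_lit 0, nat_lit 7546, nat_lit 0, nat_lit 6913, nat_lit 5882, nat_lit 0, nat_lit 0, nat_lit 0, nat_lit 660, nat_lit 0, nat_lit 0, nat_lit 0, nat_lit 0, nat_lit 0, nat_lit 0, nat_lit 0, nat_lit 0, [],
 ⟨p099_k2, nat_lit 0, nat_lit 0, nat_lit 196, nat_lit 0, nat_lit 0, [nat_lit 2032000001, nat_lit 4688000000, nat_lit 7968000000], [], [nat_lit 32351440938, nat_lit 34152656208, nat_lit 42448200936, nat_lit 43544518704, nat_lit 28689695985, nat_lit 29935080588, nat_lit 36048945704, nat_lit 36869556162], nat_lit 0, nat_lit 0, nat_lit 0, nat_lit 0, nat_lit 0, nat_lit 0, [], [nat_lit 34, nat_lit 40, nat_lit 40, nat_lit 80, nat_lit 7, nat_lit 272, nat_lit 60, nat_lit 8]⟩, ⟨p099_k1, nat_lit 0, nat_lit 0, nat_lit 496, nat_lit 0, nat_lit 729030, [nat_lit 2032000000, nat_lit 4688000000, nat_lit 9842000000], [], [nat_lit 29777907982, nat_lit 30153793756, nat_lit 38401657980, nat_lit 39072987168, nat_lit 27744599101,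 nat_lit 28019195596, nat_lit 32865265521, nat_lit 33368917668], nat_lit 1271250, nat_lit 1271250, nat_lit 1271250, nat_lit 1271250, nat_lit 0, nat_lit 1723250, [nat_lit 490000, nat_lit 1100000, nat_lit 2127500], [nat_lit 27, nat_lit 40, nat_lit 40, nat_lit 80, nat_lit 13, nat_lit 401, nat_lit 175, nat_lit 11]⟩,
 zbF0, [⟨nat_lit 4, nat_lit 100, nat_lit 66, nat_lit 76, nat_lit 52738286⟩, ⟨nat_lit 7, nat_lit 100, nat_lit 74, nat_lit 77, nat_lit 87883845⟩]⟩
noncomputable def p099_l84 : Lf2 := ⟨nat_lit 0, nat_lit 20, [nat_lit 5, nat_lit 5, nat_lit 5, nat_lit 20], false, nat_lit 0, nat_lit 260, nat_lit 0, nat_lit 260, ⟨nat_lit 1000, nat_lit 0, nat_lit 0, nat_lit 0, nat_lit 0, nat_lit 0, nat_lit 0, nat_lit 0, nat_lit 0, nat_lit 0, nat_lit 0, nat_lit 0, nat_lit 0, nat_lit 0, nat_lit 0, nat_lit 0, false, false⟩,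
 nat_lit 0, nat_lit 0, nat_lit 0, nat_lit 2838, nat_lit 8597, nat_lit 8785, nat_lit 0, nat_lit 0, nat_lit 0, nat_lit 0, nat_lit 0, nat_lit 0, nat_lit 0, nat_lit 20464010237, nat_lit 0, nat_lit 0, nat_lit 0, nat_lit 0, [],
 ⟨p099_k0, nat_lit 0, nat_lit 0, nat_lit 215, nat_lit 0, nat_lit 0, [nat_lit 2032000001, nat_lit 4688000000, nat_lit 9842000000], [], [nat_lit 32929224278, nat_lit 37502048500, nat_lit 46212240800, nat_lit 48653748324, nat_lit 29214609150, nat_lit 32290795748, nat_lit 37633655626, nat_lit 39133690747], nat_lit 0, nat_lit 0, nat_lit 0, nat_lit 0, nat_lit 0, nat_lit 0, [], [nat_lit 27, nat_lit 40, nat_lit 40, nat_lit 80, nat_lit 13, nat_lit 401, nat_lit 175, nat_lit 11]⟩, ⟨p099_k0, nat_lit 0, nat_lit 0, nat_lit 212, nat_lit 0, nat_lit 0, [nat_lit 2032000000, nat_lit 4688000000, nat_lit 9842000000], [], [nat_lit 33009194590, nat_lit 35330116545, nat_lit 46424004000, nat_lit 47538989050, nat_lit 29093527750,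 nat_lit 30652391994, nat_lit 37560158530, nat_lit 38316276033], nat_lit 0, nat_lit 0, nat_lit 0, nat_lit 0, nat_lit 0, nat_lit 0, [], [nat_lit 27, nat_lit 40, nat_lit 40, nat_lit 80, nat_lit 13, nat_lit 401, nat_lit 175, nat_lit 11]⟩,
 zbF0, [⟨nat_lit 0, nat_lit 76, nat_lit 72, nat_lit 100, nat_lit 214034272⟩]⟩
noncomputable def p099_l85 : Lf2 := ⟨nat_lit 0, nat_lit 20, [nat_lit 5, nat_lit 5, nat_lit 5, nat_lit 20], false, nat_lit 0, nat_lit 160, nat_lit 0, nat_lit 260, ⟨nat_lit 384, nat_lit 616, nat_lit 0, nat_lit 8, nat_lit 301, nat_lit 616, nat_lit 56, nat_lit 0, nat_lit 0, nat_lit 0, nat_lit 0, nat_lit 0, nat_lit 0, nat_lit 0, nat_lit 0, nat_lit 5000000, true, false⟩,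
 nat_lit 0, nat_lit 0, nat_lit 2985, nat_lit 0, nat_lit 4480, nat_lit 2238, nat_lit 266, nat_lit 0, nat_lit 0, nat_lit 220, nat_lit 0, nat_lit 0, nat_lit 0, nat_lit 189645826744, nat_lit 0, nat_lit 246400, nat_lit 0, nat_lit 0, [(nat_lit 19, [(nat_lit 1, nat_lit 616)])],
 ⟨p099_k0, nat_lit 0, nat_lit 0, nat_lit 211, nat_lit 0, nat_lit 0, [nat_lit 1641538134, nat_lit 3055353601, nat_lit 4907840000], [], [nat_lit 24509864291, nat_lit 25161574871, nat_lit 33981523250, nat_lit 34398823450, nat_lit 22899305331, nat_lit 23452709471, nat_lit 30713229011, nat_lit 31031863651], nat_lit 0, nat_lit 0, nat_lit 0, nat_lit 0, nat_lit 0, nat_lit 0, [], [nat_lit 27, nat_lit 40, nat_lit 40, nat_lit 80, nat_lit 13, nat_lit 373, nat_lit 150, nat_lit 11]⟩, ⟨p099_k0, nat_lit 0, nat_lit 0, nat_lit 479, nat_lit 0, nat_lit 617987, [nat_lit 780288000, nat_lit 1800192000, nat_lit 3779328000], [], [nat_lit 12613326536, nat_lit 12774918707,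 nat_lit 14591345384, nat_lit 14687133324, nat_lit 14439488875, nat_lit 13945540455, nat_lit 13309977166, nat_lit 13393136475], nat_lit 1271250, nat_lit 1271250, nat_lit 1271250, nat_lit 1271250, nat_lit 0, nat_lit 1836250, [nat_lit 490000, nat_lit 1100000, nat_lit 2127500], [nat_lit 27, nat_lit 40, nat_lit 40, nat_lit 80, nat_lit 13, nat_lit 401, nat_lit 175, nat_lit 11]⟩,
 ⟨nat_lit 4183, nat_lit 4473, ⟨.ofNat (nat_lit 527406), .ofNat (nat_lit 969270), .ofNat (nat_lit 538187), .ofNat (nat_lit 980052), .ofNat (nat_lit 530591), .ofNat (nat_lit 961259), .ofNat (nat_lit 541422), .ofNat (nat_lit 972090)⟩, ⟨.negSucc (nat_lit 12423), .ofNat (nat_lit 259489), .ofNat (nat_lit 0), .ofNat (nat_lit 302621), .negSucc (nat_lit 4612), .ofNat (nat_lit 260409), .ofNat (nat_lit 0), .ofNat (nat_lit 303743)⟩⟩, [⟨nat_lit 19, nat_lit 79, nat_lit 100, nat_lit 72, nat_lit 71520292⟩]⟩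
noncomputable def p099_l86 : Lf2 := ⟨nat_lit 0, nat_lit 20, [nat_lit 5, nat_lit 5, nat_lit 5, nat_lit 20], false, nat_lit 0, nat_lit 160, nat_lit 0, nat_lit 260, ⟨nat_lit 468, nat_lit 532, nat_lit 0, nat_lit 8, nat_lit 307, nat_lit 532, nat_lit 56, nat_lit 0, nat_lit 0, nat_lit 0, nat_lit 0, nat_lit 0, nat_lit 0, nat_lit 0, nat_lit 0, nat_lit 5000000, true, false⟩,
 nat_lit 0, nat_lit 0, nat_lit 3708, nat_lit 0, nat_lit 4342, nat_lit 2780, nat_lit 378, nat_lit 0, nat_lit 0, nat_lit 260, nat_lit 0, nat_lit 0, nat_lit 0, nat_lit 0, nat_lit 0, nat_lit 133000, nat_lit 0, nat_lit 0, [(nat_lit 19, [(nat_lit 0, nat_lit 532)])],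
 ⟨p099_k1, nat_lit 0, nat_lit 0, nat_lit 212, nat_lit 0, nat_lit 0, [nat_lit 1771532801, nat_lit 3453972801, nat_lit 6264808160], [], [nat_lit 25228458748, nat_lit 25855418127, nat_lit 34120648190, nat_lit 34582310208, nat_lit 23778634301, nat_lit 24280162101, nat_lit 31030659331, nat_lit 31346690187], nat_lit 0, nat_lit 0, nat_lit 0, nat_lit 0, nat_lit 0, nat_lit 0, [], [nat_lit 27, nat_lit 40, nat_lit 40, nat_lit 80, nat_lit 13, nat_lit 373, nat_lit 150, nat_lit 10]⟩, ⟨p099_k0, nat_lit 0, nat_lit 0, nat_lit 573, nat_lit 0, nat_lit 788534, [nat_lit 950976000, nat_lit 2193984000, nat_lit 4606056000], [], [nat_lit 16197484514, nat_lit 16523541396, nat_lit 18184817576, nat_lit 18369606540, nat_lit 16658166234, nat_lit 15471427084, nat_lit 16643415132, nat_lit 16848010290], nat_lit 1271250, nat_lit 1271250, nat_lit 1271250, nat_lit 1271250, nat_lit 0, nat_lit 1836250, [nat_lit 490000, nat_lit 1100000, nat_lit 2127500],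 [nat_lit 27, nat_lit 40, nat_lit 40, nat_lit 80, nat_lit 13, nat_lit 401, nat_lit 175, nat_lit 11]⟩,
 ⟨nat_lit 3872, nat_lit 4184, ⟨.ofNat (nat_lit 557086), .ofNat (nat_lit 961264), .ofNat (nat_lit 578748), .ofNat (nat_lit 982925), .ofNat (nat_lit 559753), .ofNat (nat_lit 953353), .ofNat (nat_lit 581542), .ofNat (nat_lit 975141)⟩, ⟨.negSucc (nat_lit 4619), .ofNat (nat_lit 260409), .ofNat (nat_lit 0), .ofNat (nat_lit 303743), .ofNat (nat_lit 0), .ofNat (nat_lit 261131), .ofNat (nat_lit 0), .ofNat (nat_lit 304717)⟩⟩, [⟨nat_lit 7, nat_lit 100, nat_lit 76, nat_lit 72, nat_lit 92526201⟩]⟩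
noncomputable def p099_l87 : Lf2 := ⟨nat_lit 0, nat_lit 20, [nat_lit 5, nat_lit 5, nat_lit 5, nat_lit 20], false, nat_lit 0, nat_lit 160, nat_lit 0, nat_lit 260, ⟨nat_lit 401, nat_lit 599, nat_lit 0, nat_lit 8, nat_lit 308, nat_lit 599, nat_lit 57, nat_lit 0, nat_lit 0, nat_lit 0, nat_lit 0, nat_lit 0, nat_lit 0, nat_lit 0, nat_lit 0, nat_lit 5000000, true, false⟩,
 nat_lit 0, nat_lit 0, nat_lit 3227, nat_lit 0, nat_lit 3778, nat_lit 2420, nat_lit 276, nat_lit 0, nat_lit 0, nat_lit 219, nat_lit 0, nat_lit 0, nat_lit 0, nat_lit 0, nat_lit 0, nat_lit 239600, nat_lit 0, nat_lit 0, [(nat_lit 22, [(nat_lit 1, nat_lit 599)])],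
 ⟨p099_k2, nat_lit 0, nat_lit 0, nat_lit 196, nat_lit 0, nat_lit 0, [nat_lit 1628513600, nat_lit 2811213200, nat_lit 4030653200], [], [nat_lit 23544724689, nat_lit 24726504432, nat_lit 32937672672, nat_lit 34031495176, nat_lit 22917763868, nat_lit 23922175612, nat_lit 29970142120, nat_lit 30596056564], nat_lit 0, nat_lit 0, nat_lit 0, nat_lit 0, nat_lit 0, nat_lit 0, [], [nat_lit 34, nat_lit 40, nat_lit 40, nat_lit 80, nat_lit 7, nat_lit 373, nat_lit 150, nat_lit 12]⟩, ⟨p099_k0, nat_lit 0, nat_lit 0, nat_lit 608, nat_lit 0, nat_lit 906018, [nat_lit 814832000, nat_lit 1879888000, nat_lit 3946642000], [], [nat_lit 13829521027, nat_lit 13967309650, nat_lit 15516945762, nat_lit 15595047757, nat_lit 13633919919, nat_lit 13104494704, nat_lit 14116313859, nat_lit 14184521261], nat_lit 1271250, nat_lit 1271250, nat_lit 1271250, nat_lit 1271250, nat_lit 0, nat_lit 1836250, [nat_lit 490000, nat_lit 1100000, nat_lit 2127500],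 [nat_lit 27, nat_lit 40, nat_lit 40, nat_lit 80, nat_lit 13, nat_lit 401, nat_lit 175, nat_lit 11]⟩,
 ⟨nat_lit 3162, nat_lit 3873, ⟨.ofNat (nat_lit 578944), .ofNat (nat_lit 953347), .ofNat (nat_lit 589826), .ofNat (nat_lit 964233), .ofNat (nat_lit 583969), .ofNat (nat_lit 937676), .ofNat (nat_lit 595032), .ofNat (nat_lit 948743)⟩, ⟨.ofNat (nat_lit 0), .ofNat (nat_lit 261131), .ofNat (nat_lit 0), .ofNat (nat_lit 304717), .ofNat (nat_lit 0), .ofNat (nat_lit 261806), .ofNat (nat_lit 0), .ofNat (nat_lit 306116)⟩⟩, [⟨nat_lit 7, nat_lit 100, nat_lit 79, nat_lit 72, nat_lit 51485805⟩, ⟨nat_lit 10, nat_lit 100, nat_lit 30, nat_lit 85, nat_lit 47039170⟩]⟩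
noncomputable def p099_l88 : Lf2 := ⟨nat_lit 0, nat_lit 20, [nat_lit 5, nat_lit 5, nat_lit 5, nat_lit 20], false, nat_lit 0, nat_lit 160, nat_lit 0, nat_lit 244, ⟨nat_lit 581, nat_lit 419, nat_lit 0, nat_lit 8, nat_lit 316, nat_lit 419, nat_lit 57, nat_lit 0, nat_lit 0, nat_lit 0, nat_lit 0, nat_lit 0, nat_lit 0, nat_lit 0, nat_lit 0, nat_lit 5000000, true, false⟩,
 nat_lit 0, nat_lit 0, nat_lit 3907, nat_lit 0, nat_lit 4429, nat_lit 3045, nat_lit 93, nat_lit 0, nat_lit 0, nat_lit 366, nat_lit 0, nat_lit 0, nat_lit 0, nat_lit 0, nat_lit 0, nat_lit 263000, nat_lit 0, nat_lit 0, [(nat_lit 22, [(nat_lit 1, nat_lit 260), (nat_lit 2, nat_lit 159)])],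
 ⟨p099_k2, nat_lit 0, nat_lit 0, nat_lit 196, nat_lit 0, nat_lit 0, [nat_lit 1755528000, nat_lit 3127085600, nat_lit 4376662400], [], [nat_lit 25900428699, nat_lit 27231487575, nat_lit 35090948888, nat_lit 36006819268, nat_lit 24414377661, nat_lit 25472938673, nat_lit 31807290035, nat_lit 32494831333], nat_lit 0, nat_lit 0, nat_lit 0, nat_lit 0, nat_lit 0, nat_lit 0, [], [nat_lit 34, nat_lit 40, nat_lit 40, nat_lit 80, nat_lit 7, nat_lit 373, nat_lit 150, nat_lit 12]⟩, ⟨p099_k1, nat_lit 0, nat_lit 0, nat_lit 612, nat_lit 0, nat_lit 928108, [nat_lit 1180592000, nat_lit 2723728000, nat_lit 5718202000], [], [nat_lit 18763782718, nat_lit 18967097483, nat_lit 21464210255, nat_lit 21615355734, nat_lit 18204541403, nat_lit 18353006899, nat_lit 20345074817, nat_lit 20458969712], nat_lit 1271250, nat_lit 1271250, nat_lit 1271250, nat_lit 1271250, nat_lit 0, nat_lit 1723250, [nat_lit 490000, nat_lit 1100000, nat_lit 2127500],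 [nat_lit 27, nat_lit 40, nat_lit 40, nat_lit 80, nat_lit 13, nat_lit 401, nat_lit 175, nat_lit 11]⟩,
 ⟨nat_lit 3162, nat_lit 3873, ⟨.ofNat (nat_lit 609192), .ofNat (nat_lit 964233), .ofNat (nat_lit 620075), .ofNat (nat_lit 975119), .ofNat (nat_lit 613327), .ofNat (nat_lit 948743), .ofNat (nat_lit 624390), .ofNat (nat_lit 959810)⟩, ⟨.ofNat (nat_lit 0), .ofNat (nat_lit 261131), .ofNat (nat_lit 0), .ofNat (nat_lit 304717), .ofNat (nat_lit 0), .ofNat (nat_lit 261806), .ofNat (nat_lit 0), .ofNat (nat_lit 306116)⟩⟩, [⟨nat_lit 7, nat_lit 100, nat_lit 74, nat_lit 72, nat_lit 137873020⟩]⟩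
noncomputable def p099_l89 : Lf2 := ⟨nat_lit 0, nat_lit 20, [nat_lit 5, nat_lit 5, nat_lit 5, nat_lit 20], false, nat_lit 160, nat_lit 260, nat_lit 0, nat_lit 160, ⟨nat_lit 558, nat_lit 442, nat_lit 0, nat_lit 8, nat_lit 302, nat_lit 442, nat_lit 145, nat_lit 0, nat_lit 0, nat_lit 0, nat_lit 0, nat_lit 0, nat_lit 0, nat_lit 0, nat_lit 0, nat_lit 5000000, true, false⟩,
 nat_lit 0, nat_lit 0, nat_lit 5245, nat_lit 0, nat_lit 5434, nat_lit 3933, nat_lit 0, nat_lit 0, nat_lit 0, nat_lit 204, nat_lit 0, nat_lit 0, nat_lit 0, nat_lit 0, nat_lit 0, nat_lit 110500, nat_lit 0, nat_lit 0, [(nat_lit 19, [(nat_lit 0, nat_lit 442)]), (nat_lit 22, [(nat_lit 0, nat_lit 442)])],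
 ⟨p099_k9, nat_lit 0, nat_lit 0, nat_lit 100, nat_lit 0, nat_lit 0, [nat_lit 1826912001, nat_lit 4638998400, nat_lit 6878918667], [], [nat_lit 19441293872, nat_lit 22891478888, nat_lit 31152506672, nat_lit 32994111416, nat_lit 23118588168, nat_lit 25942030238, nat_lit 32474158384, nat_lit 34224935282], nat_lit 0, nat_lit 0, nat_lit 0, nat_lit 0, nat_lit 0, nat_lit 0, [], [nat_lit 61, nat_lit 40, nat_lit 40, nat_lit 80, nat_lit 1, nat_lit 401, nat_lit 175, nat_lit 11]⟩, ⟨p099_k9, nat_lit 0, nat_lit 0, nat_lit 650, nat_lit 0, nat_lit 979891, [nat_lit 1133856000, nat_lit 3487500000, nat_lit 5491836000], [], [nat_lit 21935513070, nat_lit 22276795212, nat_lit 23521940388, nat_lit 23722710768, nat_lit 19710435330, nat_lit 19991766123, nat_lit 22364786664, nat_lit 21115069632], nat_lit 1271250, nat_lit 1271250, nat_lit 936251, nat_lit 3113750, nat_lit 0, nat_lit 1100001, [nat_lit 490000, nat_lit 1427500, nat_lit 1271250],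 [nat_lit 61, nat_lit 40, nat_lit 40, nat_lit 80, nat_lit 1, nat_lit 373, nat_lit 150, nat_lit 11]⟩,
 ⟨nat_lit 3162, nat_lit 4473, ⟨.ofNat (nat_lit 526772), .ofNat (nat_lit 969090), .ofNat (nat_lit 548248), .ofNat (nat_lit 990589), .ofNat (nat_lit 540839), .ofNat (nat_lit 937496), .ofNat (nat_lit 562904), .ofNat (nat_lit 959584)⟩, ⟨.ofNat (nat_lit 259488), .ofNat (nat_lit 429433), .ofNat (nat_lit 302621), .ofNat (nat_lit 472567), .ofNat (nat_lit 261805), .ofNat (nat_lit 414188), .ofNat (nat_lit 306116), .ofNat (nat_lit 458499)⟩⟩, [⟨nat_lit 16, nat_lit 71, nat_lit 100, nat_lit 71, nat_lit 802997069⟩]⟩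
noncomputable def p099_l90 : Lf2 := ⟨nat_lit 0, nat_lit 20, [nat_lit 5, nat_lit 5, nat_lit 5, nat_lit 20], false, nat_lit 160, nat_lit 260, nat_lit 160, nat_lit 260, ⟨nat_lit 573, nat_lit 427, nat_lit 0, nat_lit 8, nat_lit 302, nat_lit 427, nat_lit 145, nat_lit 0, nat_lit 0, nat_lit 0, nat_lit 0, nat_lit 0, nat_lit 0, nat_lit 0, nat_lit 0, nat_lit 5000000, true, false⟩,
 nat_lit 0, nat_lit 0, nat_lit 5544, nat_lit 0, nat_lit 5472, nat_lit 4158, nat_lit 0, nat_lit 0, nat_lit 0, nat_lit 222, nat_lit 0, nat_lit 0, nat_lit 0, nat_lit 0, nat_lit 0, nat_lit 106750, nat_lit 0, nat_lit 0, [(nat_lit 19, [(nat_lit 0, nat_lit 427)]), (nat_lit 22, [(nat_lit 0, nat_lit 427)])],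
 ⟨p099_k9, nat_lit 0, nat_lit 0, nat_lit 100, nat_lit 0, nat_lit 0, [nat_lit 1833872001, nat_lit 4693670401, nat_lit 6976828667], [], [nat_lit 19458840177, nat_lit 22923386305, nat_lit 31201600577, nat_lit 33048590529, nat_lit 23143006545, nat_lit 25977320605, nat_lit 32517490273, nat_lit 34273308256], nat_lit 0, nat_lit 0, nat_lit 0, nat_lit 0, nat_lit 0, nat_lit 0, [], [nat_lit 61, nat_lit 40, nat_lit 40, nat_lit 80, nat_lit 1, nat_lit 401, nat_lit 175, nat_lit 11]⟩, ⟨p099_k9, nat_lit 0, nat_lit 0, nat_lit 561, nat_lit 0, nat_lit 979891, [nat_lit 1164336000, nat_lit 3581250000, nat_lit 5639466000], [], [nat_lit 18232410396, nat_lit 18613698291, nat_lit 20146223418, nat_lit 20381305308, nat_lit 18569134890, nat_lit 18877747689, nat_lit 20792726664, nat_lit 20338783382], nat_lit 1271250, nat_lit 1271250, nat_lit 936251, nat_lit 3113750, nat_lit 1100001, nat_lit 1956250, [nat_lit 490000, nat_lit 1427500, nat_lit 1271250],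 [nat_lit 61, nat_lit 40, nat_lit 40, nat_lit 80, nat_lit 1, nat_lit 401, nat_lit 175, nat_lit 11]⟩,
 ⟨nat_lit 3162, nat_lit 4473, ⟨.ofNat (nat_lit 526772), .ofNat (nat_lit 969090), .ofNat (nat_lit 548248), .ofNat (nat_lit 990589), .ofNat (nat_lit 540839), .ofNat (nat_lit 937496), .ofNat (nat_lit 562904), .ofNat (nat_lit 959584)⟩, ⟨.ofNat (nat_lit 259488), .ofNat (nat_lit 429433), .ofNat (nat_lit 302621), .ofNat (nat_lit 472567), .ofNat (nat_lit 261805), .ofNat (nat_lit 414188), .ofNat (nat_lit 306116), .ofNat (nat_lit 458499)⟩⟩, [⟨nat_lit 16, nat_lit 71, nat_lit 100, nat_lit 71, nat_lit 631747961⟩, ⟨nat_lit 7, nat_lit 100, nat_lit 76, nat_lit 72, nat_lit 215741423⟩]⟩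
noncomputable def b_V_800_800_10_20 : St := ⟨true, nat_lit 0, nat_lit 2, nat_lit 0, nat_lit 80, nat_lit 320, nat_lit 360, nat_lit 320, nat_lit 340, nat_lit 140, nat_lit 400, nat_lit 40, nat_lit 80, nat_lit 0, nat_lit 260, nat_lit 0, nat_lit 260, nat_lit 80, nat_lit 120, nat_lit 0, nat_lit 0, nat_lit 0, nat_lit 0⟩
theorem d_V_800_800_10_20 (h : EB TB.env) : Dead b_V_800_800_10_20 := chkB_sound0 h (T :=
(.gv
(.st (nat_lit 1)
(.leaf p099_l72)
(.spl (nat_lit 2) (nat_lit 240)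
(.spl (nat_lit 4) (nat_lit 160)
(.spl (nat_lit 5) (nat_lit 160)
(.spl (nat_lit 0) (nat_lit 340)
(.leaf p099_l73)
(.trZ (nat_lit 0) (nat_lit 81) (nat_lit 72) (nat_lit 100) (nat_lit 168) (.leaf p099_l74)))
(.spl (nat_lit 0) (nat_lit 340)
(.leaf p099_l75)
(.trZ (nat_lit 0) (nat_lit 81) (nat_lit 72) (nat_lit 100) (nat_lit 168) (.leaf p099_l76))))
(.leaf p099_l77))
(.spl (nat_lit 3) (nat_lit 60)
(.trX (nat_lit 16) (nat_lit 81) (nat_lit 100) (nat_lit 72) (nat_lit 232) (.trX (nat_lit 19) (nat_lit 81) (nat_lit 100) (nat_lit 72) (nat_lit 232) (.spl (nat_lit 0) (nat_lit 340)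
(.leaf p099_l78)
(.trX (nat_lit 16) (nat_lit 71) (nat_lit 100) (nat_lit 71) (nat_lit 208) (.leaf p099_l79)))))
(.spl (nat_lit 0) (nat_lit 340)
(.spl (nat_lit 0) (nat_lit 330)
(.ord (.leaf p099_l80))
(.trX (nat_lit 16) (nat_lit 78) (nat_lit 100) (nat_lit 82) (nat_lit 244) (.leaf p099_l81)))
(.trX (nat_lit 16) (nat_lit 72) (nat_lit 100) (nat_lit 81) (nat_lit 232) (.spl (nat_lit 1) (nat_lit 330)
(.leaf p099_l82)
(.trX (nat_lit 19) (nat_lit 78) (nat_lit 100) (nat_lit 82) (nat_lit 244) (.leaf p099_l83))))))))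
(.st (nat_lit 1)
(.leaf p099_l84)
(.spl (nat_lit 4) (nat_lit 160)
(.spl (nat_lit 0) (nat_lit 340)
(.spl (nat_lit 0) (nat_lit 330)
(.ord (.leaf p099_l85))
(.trZ (nat_lit 0) (nat_lit 82) (nat_lit 78) (nat_lit 100) (nat_lit 156) (.leaf p099_l86)))
(.trZ (nat_lit 0) (nat_lit 81) (nat_lit 72) (nat_lit 100) (nat_lit 168) (.spl (nat_lit 1) (nat_lit 330)
(.leaf p099_l87)
(.trZ (nat_lit 0) (nat_lit 76) (nat_lit 72) (nat_lit 100) (nat_lit 180) (.trX (nat_lit 19) (nat_lit 78) (nat_lit 100) (nat_lit 82) (nat_lit 244) (.leaf p099_l88))))))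
(.spl (nat_lit 5) (nat_lit 160)
(.leaf p099_l89)
(.leaf p099_l90)))))) (by decide +kernel)
noncomputable def p099_l91 : Lf2 := ⟨nat_lit 0, nat_lit 15, [nat_lit 30, nat_lit 5, nat_lit 5, nat_lit 20], false, nat_lit 0, nat_lit 160, nat_lit 0, nat_lit 232, ⟨nat_lit 1000, nat_lit 0, nat_lit 0, nat_lit 0, nat_lit 0, nat_lit 0, nat_lit 0, nat_lit 0, nat_lit 0, nat_lit 0, nat_lit 0, nat_lit 0, nat_lit 0, nat_lit 0, nat_lit 0, nat_lit 0, false, false⟩,
 nat_lit 0, nat_lit 9573, nat_lit 0, nat_lit 0, nat_lit 7179, nat_lit 10094, nat_lit 542, nat_lit 0, nat_lit 0, nat_lit 0, nat_lit 0, nat_lit 0, nat_lit 0, nat_lit 0, nat_lit 0, nat_lit 0, nat_lit 0, nat_lit 0, [],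
 ⟨p099_k5, nat_lit 0, nat_lit 0, nat_lit 520, nat_lit 0, nat_lit 816730, [nat_lit 2032000001, nat_lit 4688000000, nat_lit 7968000000], [], [nat_lit 28361373896, nat_lit 30155518196, nat_lit 29116708864, nat_lit 31318453132, nat_lit 24864699618, nat_lit 26393017058, nat_lit 25371861332, nat_lit 26638338344], nat_lit 1271250, nat_lit 1271250, nat_lit 936251, nat_lit 1773750, nat_lit 0, nat_lit 1100001, [nat_lit 490000, nat_lit 1100000, nat_lit 1785000], [nat_lit 34, nat_lit 40, nat_lit 40, nat_lit 80, nat_lit 7, nat_lit 317, nat_lit 100, nat_lit 10]⟩, ⟨p099_k5, nat_lit 0, nat_lit 0, nat_lit 151, nat_lit 0, nat_lit 0, [nat_lit 2032000000, nat_lit 4688000000, nat_lit 7968000000], [], [nat_lit 28334934020, nat_lit 31198177660, nat_lit 31357041784, nat_lit 33759555036, nat_lit 22743434436, nat_lit 24777227821, nat_lit 24495419932, nat_lit 26149736138], nat_lit 0, nat_lit 0, nat_lit 0, nat_lit 0, nat_lit 0, nat_lit 0, [],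 [nat_lit 34, nat_lit 40, nat_lit 40, nat_lit 80, nat_lit 7, nat_lit 345, nat_lit 125, nat_lit 11]⟩,
 zbF0, [⟨nat_lit 0, nat_lit 72, nat_lit 61, nat_lit 100, nat_lit 840232008⟩]⟩
noncomputable def p099_l92 : Lf2 := ⟨nat_lit 0, nat_lit 20, [nat_lit 5, nat_lit 5, nat_lit 5, nat_lit 20], false, nat_lit 0, nat_lit 160, nat_lit 0, nat_lit 260, ⟨nat_lit 1000, nat_lit 0, nat_lit 0, nat_lit 0, nat_lit 0, nat_lit 0, nat_lit 0, nat_lit 0, nat_lit 0, nat_lit 0, nat_lit 0, nat_lit 0, nat_lit 0, nat_lit 0, nat_lit 0, nat_lit 0, false, false⟩,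
 nat_lit 0, nat_lit 9187, nat_lit 0, nat_lit 0, nat_lit 6890, nat_lit 11297, nat_lit 694, nat_lit 0, nat_lit 0, nat_lit 206, nat_lit 0, nat_lit 0, nat_lit 0, nat_lit 0, nat_lit 0, nat_lit 0, nat_lit 0, nat_lit 0, [],
 ⟨p099_k0, nat_lit 0, nat_lit 0, nat_lit 567, nat_lit 0, nat_lit 750840, [nat_lit 2032000001, nat_lit 4688000000, nat_lit 9842000000], [], [nat_lit 28377099542, nat_lit 29602837060, nat_lit 28278844100, nat_lit 30889233350, nat_lit 23808765880, nat_lit 25537216330, nat_lit 28303013511, nat_lit 26204415720], nat_lit 1271250, nat_lit 1271250, nat_lit 936251, nat_lit 1773750, nat_lit 0, nat_lit 1100001, [nat_lit 490000, nat_lit 1100000, nat_lit 2127500], [nat_lit 27, nat_lit 40, nat_lit 40, nat_lit 80, nat_lit 13, nat_lit 317, nat_lit 100, nat_lit 9]⟩, ⟨p099_k0, nat_lit 0, nat_lit 0, nat_lit 182, nat_lit 0, nat_lit 0, [nat_lit 2032000000, nat_lit 4688000000, nat_lit 9842000000], [], [nat_lit 32018377828,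 nat_lit 34800410039, nat_lit 34269906166, nat_lit 36519258548, nat_lit 25416317900, nat_lit 27252717324, nat_lit 26150077665, nat_lit 27634888259], nat_lit 0, nat_lit 0, nat_lit 0, nat_lit 0, nat_lit 0, nat_lit 0, [], [nat_lit 27, nat_lit 40, nat_lit 40, nat_lit 80, nat_lit 13, nat_lit 345, nat_lit 125, nat_lit 10]⟩,
 zbF0, [⟨nat_lit 0, nat_lit 76, nat_lit 72, nat_lit 100, nat_lit 662334474⟩, ⟨nat_lit 0, nat_lit 72, nat_lit 61, nat_lit 100, nat_lit 80018724⟩]⟩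
noncomputable def p099_l93 : Lf2 := ⟨nat_lit 0, nat_lit 20, [nat_lit 5, nat_lit 5, nat_lit 5, nat_lit 20], false, nat_lit 160, nat_lit 260, nat_lit 0, nat_lit 260, ⟨nat_lit 1000, nat_lit 0, nat_lit 0, nat_lit 0, nat_lit 0, nat_lit 0, nat_lit 0, nat_lit 0, nat_lit 0, nat_lit 0, nat_lit 0, nat_lit 0, nat_lit 0, nat_lit 0, nat_lit 0, nat_lit 0, false, false⟩,
 nat_lit 0, nat_lit 7765, nat_lit 0, nat_lit 0, nat_lit 5823, nat_lit 12388, nat_lit 769, nat_lit 0, nat_lit 0, nat_lit 219, nat_lit 0, nat_lit 0, nat_lit 0, nat_lit 0, nat_lit 0, nat_lit 0, nat_lit 0, nat_lit 0, [],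
 ⟨p099_k0, nat_lit 0, nat_lit 0, nat_lit 427, nat_lit 0, nat_lit 700176, [nat_lit 2032000001, nat_lit 4688000000, nat_lit 9842000000], [], [nat_lit 24255676207, nat_lit 25316457363, nat_lit 25704761873, nat_lit 26595490161, nat_lit 26284768720, nat_lit 27218926715, nat_lit 27693940788, nat_lit 28624554869], nat_lit 1271250, nat_lit 1271250, nat_lit 936251, nat_lit 1773750, nat_lit 1100001, nat_lit 1956250, [nat_lit 490000, nat_lit 1100000, nat_lit 2127500], [nat_lit 27, nat_lit 40, nat_lit 40, nat_lit 80, nat_lit 13, nat_lit 345, nat_lit 125, nat_lit 9]⟩, ⟨p099_k0, nat_lit 0, nat_lit 0, nat_lit 176, nat_lit 0, nat_lit 0, [nat_lit 2032000000, nat_lit 4688000000, nat_lit 9842000000], [], [nat_lit 32352501487, nat_lit 33843651209, nat_lit 34573431639, nat_lit 35778637556, nat_lit 24583699975, nat_lit 25562168573, nat_lit 25620356012, nat_lit 26893734779], nat_lit 0, nat_lit 0, nat_lit 0, nat_lit 0, nat_lit 0, nat_lit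 0, [], [nat_lit 27, nat_lit 40, nat_lit 40, nat_lit 80, nat_lit 13, nat_lit 345, nat_lit 125, nat_lit 10]⟩,
 zbF0, [⟨nat_lit 0, nat_lit 76, nat_lit 72, nat_lit 100, nat_lit 612716894⟩, ⟨nat_lit 4, nat_lit 100, nat_lit 76, nat_lit 72, nat_lit 568948568⟩]⟩
noncomputable def p099_l94 : Lf2 := ⟨nat_lit 0, nat_lit 20, [nat_lit 5, nat_lit 5, nat_lit 5, nat_lit 20], false, nat_lit 160, nat_lit 232, nat_lit 0, nat_lit 260, ⟨nat_lit 1000, nat_lit 0, nat_lit 0, nat_lit 0, nat_lit 0, nat_lit 0, nat_lit 0, nat_lit 0, nat_lit 0, nat_lit 0, nat_lit 0, nat_lit 0, nat_lit 0, nat_lit 0, nat_lit 0, nat_lit 0, false, false⟩,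
 nat_lit 0, nat_lit 6268, nat_lit 0, nat_lit 0, nat_lit 5073, nat_lit 12704, nat_lit 1405, nat_lit 0, nat_lit 0, nat_lit 0, nat_lit 0, nat_lit 0, nat_lit 0, nat_lit 0, nat_lit 0, nat_lit 0, nat_lit 0, nat_lit 0, [],
 ⟨p099_k7, nat_lit 0, nat_lit 0, nat_lit 386, nat_lit 0, nat_lit 784613, [nat_lit 2032000001, nat_lit 7968000000], [], [nat_lit 20491965326, nat_lit 21369016698, nat_lit 21738593324, nat_lit 23030845780, nat_lit 21688637970, nat_lit 22944082668, nat_lit 23383250195, nat_lit 24910093470], nat_lit 1271250, nat_lit 1271250, nat_lit 1167600, nat_lit 1789500, nat_lit 1100001, nat_lit 1716500, [nat_lit 490000, nat_lit 1740000], [nat_lit 110, nat_lit 40, nat_lit 40, nat_lit 80, nat_lit 109, nat_lit 345, nat_lit 125, nat_lit 10]⟩, ⟨p099_k8, nat_lit 0, nat_lit 0, nat_lit 163, nat_lit 0, nat_lit 0, [nat_lit 2032000000, nat_lit 9842000000], [], [nat_lit 34576140026, nat_lit 36020281452, nat_lit 36888302912, nat_lit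 38112739624, nat_lit 26190057692, nat_lit 27135569906, nat_lit 27116469280, nat_lit 27917395576], nat_lit 0, nat_lit 0, nat_lit 0, nat_lit 0, nat_lit 0, nat_lit 0, [], [nat_lit 94, nat_lit 40, nat_lit 40, nat_lit 80, nat_lit 95, nat_lit 345, nat_lit 125, nat_lit 10]⟩,
 zbF0, [⟨nat_lit 0, nat_lit 78, nat_lit 66, nat_lit 100, nat_lit 438989241⟩, ⟨nat_lit 4, nat_lit 100, nat_lit 66, nat_lit 72, nat_lit 701922364⟩]⟩
noncomputable def p099_l95 : Lf2 := ⟨nat_lit 0, nat_lit 20, [nat_lit 5, nat_lit 5, nat_lit 5, nat_lit 20], false, nat_lit 160, nat_lit 244, nat_lit 0, nat_lit 244, ⟨nat_lit 1000, nat_lit 0, nat_lit 0, nat_lit 0, nat_lit 0, nat_lit 0, nat_lit 0, nat_lit 0, nat_lit 0, nat_lit 0, nat_lit 0, nat_lit 0, nat_lit 0, nat_lit 0, nat_lit 0, nat_lit 0, false, false⟩,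
 nat_lit 0, nat_lit 8286, nat_lit 0, nat_lit 0, nat_lit 6459, nat_lit 10190, nat_lit 781, nat_lit 0, nat_lit 0, nat_lit 349, nat_lit 0, nat_lit 0, nat_lit 0, nat_lit 0, nat_lit 0, nat_lit 0, nat_lit 0, nat_lit 0, [],
 ⟨p099_k1, nat_lit 0, nat_lit 0, nat_lit 490, nat_lit 0, nat_lit 905525, [nat_lit 2032000001, nat_lit 4688000000, nat_lit 9842000000], [], [nat_lit 21162682240, nat_lit 22647846919, nat_lit 22347083390, nat_lit 23829597632, nat_lit 22561367320, nat_lit 24213438270, nat_lit 23616817071, nat_lit 26117468804], nat_lit 1271250, nat_lit 1271250, nat_lit 1167600, nat_lit 1789500, nat_lit 1100001, nat_lit 1819250, [nat_lit 490000, nat_lit 1100000, nat_lit 2127500], [nat_lit 27, nat_lit 40, nat_lit 40, nat_lit 80, nat_lit 13, nat_lit 345, nat_lit 125, nat_lit 9]⟩, ⟨p099_k1, nat_lit 0, nat_lit 0, nat_lit 177, nat_lit 0, nat_lit 0, [nat_lit 2032000000, nat_lit 4688000000, nat_lit 9842000000], [], [nat_lit 31069976832,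 nat_lit 32296817148, nat_lit 33118419390, nat_lit 34164605960, nat_lit 24197500058, nat_lit 25048130395, nat_lit 25289647031, nat_lit 26016386407], nat_lit 0, nat_lit 0, nat_lit 0, nat_lit 0, nat_lit 0, nat_lit 0, [], [nat_lit 27, nat_lit 40, nat_lit 40, nat_lit 80, nat_lit 13, nat_lit 345, nat_lit 125, nat_lit 10]⟩,
 zbF0, [⟨nat_lit 0, nat_lit 74, nat_lit 69, nat_lit 100, nat_lit 574632973⟩, ⟨nat_lit 4, nat_lit 100, nat_lit 69, nat_lit 71, nat_lit 744404506⟩]⟩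
noncomputable def p099_l96 : Lf2 := ⟨nat_lit 0, nat_lit 15, [nat_lit 30, nat_lit 5, nat_lit 5, nat_lit 20], false, nat_lit 0, nat_lit 232, nat_lit 0, nat_lit 232, ⟨nat_lit 1000, nat_lit 0, nat_lit 0, nat_lit 0, nat_lit 0, nat_lit 0, nat_lit 0, nat_lit 0, nat_lit 0, nat_lit 0, nat_lit 0, nat_lit 0, nat_lit 0, nat_lit 0, nat_lit 0, nat_lit 0, false, false⟩,
 nat_lit 0, nat_lit 7670, nat_lit 0, nat_lit 0, nat_lit 5752, nat_lit 7126, nat_lit 548, nat_lit 0, nat_lit 0, nat_lit 0, nat_lit 0, nat_lit 0, nat_lit 0, nat_lit 0, nat_lit 0, nat_lit 0, nat_lit 0, nat_lit 0, [],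
 ⟨p099_k5, nat_lit 0, nat_lit 0, nat_lit 500, nat_lit 0, nat_lit 816730, [nat_lit 2032000001, nat_lit 4688000000, nat_lit 7968000000], [], [nat_lit 34385133032, nat_lit 35792472616, nat_lit 38839174484, nat_lit 40025855488, nat_lit 32342218150, nat_lit 33377266171, nat_lit 36082192724, nat_lit 37006984679], nat_lit 1271250, nat_lit 1271250, nat_lit 1271250, nat_lit 1271250, nat_lit 0, nat_lit 1638500, [nat_lit 490000, nat_lit 1100000, nat_lit 1785000], [nat_lit 34, nat_lit 40, nat_lit 40, nat_lit 80, nat_lit 7, nat_lit 272, nat_lit 60, nat_lit 8]⟩, ⟨p099_k5, nat_lit 0, nat_lit 0, nat_lit 193, nat_lit 0, nat_lit 0, [nat_lit 2032000000, nat_lit 4688000000, nat_lit 7968000000], [], [nat_lit 30604250136, nat_lit 32440139676, nat_lit 41588555136, nat_lit 42701345472, nat_lit 27179580673, nat_lit 28454238551, nat_lit 35153819411, nat_lit 35984454927], nat_lit 0, nat_lit 0, nat_lit 0, nat_lit 0, nat_lit 0, nat_lit 0, [],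 [nat_lit 34, nat_lit 40, nat_lit 40, nat_lit 80, nat_lit 7, nat_lit 272, nat_lit 60, nat_lit 8]⟩,
 zbF0, [⟨nat_lit 16, nat_lit 72, nat_lit 100, nat_lit 66, nat_lit 235573565⟩, ⟨nat_lit 7, nat_lit 100, nat_lit 76, nat_lit 66, nat_lit 73412856⟩]⟩
noncomputable def p099_l97 : Lf2 := ⟨nat_lit 0, nat_lit 20, [nat_lit 5, nat_lit 5, nat_lit 5, nat_lit 20], false, nat_lit 0, nat_lit 260, nat_lit 0, nat_lit 160, ⟨nat_lit 1000, nat_lit 0, nat_lit 0, nat_lit 0, nat_lit 0, nat_lit 0, nat_lit 0, nat_lit 0, nat_lit 0, nat_lit 0, nat_lit 0, nat_lit 0, nat_lit 0, nat_lit 0, nat_lit 0, nat_lit 0, false, false⟩,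
 nat_lit 0, nat_lit 7545, nat_lit 0, nat_lit 0, nat_lit 5658, nat_lit 6578, nat_lit 614, nat_lit 0, nat_lit 0, nat_lit 381, nat_lit 0, nat_lit 0, nat_lit 0, nat_lit 0, nat_lit 0, nat_lit 0, nat_lit 0, nat_lit 0, [],
 ⟨p099_k0, nat_lit 0, nat_lit 0, nat_lit 454, nat_lit 0, nat_lit 586924, [nat_lit 2032000001, nat_lit 4688000000, nat_lit 9842000000], [], [nat_lit 33363006820, nat_lit 34062882900, nat_lit 37837691918, nat_lit 38419862898, nat_lit 31235850816, nat_lit 31727606423, nat_lit 35196601958, nat_lit 35712431748], nat_lit 1271250, nat_lit 1271250, nat_lit 1271250, nat_lit 1271250, nat_lit 0, nat_lit 1836250, [nat_lit 490000, nat_lit 1100000, nat_lit 2127500], [nat_lit 27, nat_lit 40, nat_lit 40, nat_lit 80, nat_lit 13, nat_lit 401, nat_lit 175, nat_lit 11]⟩, ⟨p099_k0, nat_lit 0, nat_lit 0, nat_lit 212, nat_lit 0, nat_lit 0, [nat_lit 2032000000, nat_lit 4688000000, nat_lit 9842000000], [], [nat_lit 30645462209,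 nat_lit 32225632077, nat_lit 40129229825, nat_lit 41102539872, nat_lit 26445002841, nat_lit 27568903365, nat_lit 33914024497, nat_lit 34753068001], nat_lit 0, nat_lit 0, nat_lit 0, nat_lit 0, nat_lit 0, nat_lit 0, [], [nat_lit 27, nat_lit 40, nat_lit 40, nat_lit 80, nat_lit 13, nat_lit 373, nat_lit 150, nat_lit 10]⟩,
 zbF0, [⟨nat_lit 16, nat_lit 77, nat_lit 100, nat_lit 77, nat_lit 200308544⟩]⟩
noncomputable def p099_l98 : Lf2 := ⟨nat_lit 0, nat_lit 20, [nat_lit 5, nat_lit 5, nat_lit 5, nat_lit 20], false, nat_lit 0, nat_lit 232, nat_lit 0, nat_lit 160, ⟨nat_lit 1000, nat_lit 0, nat_lit 0, nat_lit 0, nat_lit 0, nat_lit 0, nat_lit 0, nat_lit 0, nat_lit 0, nat_lit 0, nat_lit 0, nat_lit 0, nat_lit 0, nat_lit 0, nat_lit 0, nat_lit 0, false, false⟩,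
 nat_lit 0, nat_lit 5913, nat_lit 0, nat_lit 0, nat_lit 4786, nat_lit 6529, nat_lit 652, nat_lit 0, nat_lit 0, nat_lit 389, nat_lit 0, nat_lit 0, nat_lit 0, nat_lit 0, nat_lit 0, nat_lit 0, nat_lit 0, nat_lit 0, [],
 ⟨p099_k2, nat_lit 0, nat_lit 0, nat_lit 435, nat_lit 0, nat_lit 674922, [nat_lit 2032000001, nat_lit 4688000000, nat_lit 7968000000], [], [nat_lit 28988451326, nat_lit 29771181190, nat_lit 35877024864, nat_lit 37090061512, nat_lit 28340279973, nat_lit 28931350398, nat_lit 32333300600, nat_lit 32801742926], nat_lit 1271250, nat_lit 1271250, nat_lit 1271250, nat_lit 1271250, nat_lit 0, nat_lit 1638500, [nat_lit 490000, nat_lit 1100000, nat_lit 1785000], [nat_lit 34, nat_lit 40, nat_lit 40, nat_lit 80, nat_lit 7, nat_lit 272, nat_lit 60, nat_lit 8]⟩, ⟨p099_k0, nat_lit 0, nat_lit 0, nat_lit 212, nat_lit 0, nat_lit 0, [nat_lit 2032000000, nat_lit 4688000000, nat_lit 9842000000], [], [nat_lit 30546018137,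 nat_lit 32119239511, nat_lit 39994061225, nat_lit 40962112995, nat_lit 26452847013, nat_lit 27572408195, nat_lit 33843260321, nat_lit 34679806393], nat_lit 0, nat_lit 0, nat_lit 0, nat_lit 0, nat_lit 0, nat_lit 0, [], [nat_lit 27, nat_lit 40, nat_lit 40, nat_lit 80, nat_lit 13, nat_lit 373, nat_lit 150, nat_lit 10]⟩,
 zbF0, [⟨nat_lit 4, nat_lit 100, nat_lit 66, nat_lit 76, nat_lit 142705103⟩]⟩
noncomputable def p099_l99 : Lf2 := ⟨nat_lit 0, nat_lit 20, [nat_lit 5, nat_lit 5, nat_lit 5, nat_lit 20], false, nat_lit 0, nat_lit 260, nat_lit 160, nat_lit 260, ⟨nat_lit 1000, nat_lit 0, nat_lit 0, nat_lit 0, nat_lit 0, nat_lit 0, nat_lit 0, nat_lit 0, nat_lit 0, nat_lit 0, nat_lit 0, nat_lit 0, nat_lit 0, nat_lit 0, nat_lit 0, nat_lit 0, false, false⟩,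
 nat_lit 0, nat_lit 7545, nat_lit 0, nat_lit 0, nat_lit 5658, nat_lit 10018, nat_lit 614, nat_lit 0, nat_lit 0, nat_lit 0, nat_lit 0, nat_lit 0, nat_lit 0, nat_lit 0, nat_lit 0, nat_lit 0, nat_lit 0, nat_lit 0, [],
 ⟨p099_k0, nat_lit 0, nat_lit 0, nat_lit 454, nat_lit 0, nat_lit 586924, [nat_lit 2032000001, nat_lit 4688000000, nat_lit 9842000000], [], [nat_lit 33363006820, nat_lit 34062882900, nat_lit 37837691918, nat_lit 38419862898, nat_lit 31235850816, nat_lit 31727606423, nat_lit 35196601958, nat_lit 35712431748], nat_lit 1271250, nat_lit 1271250, nat_lit 1271250, nat_lit 1271250, nat_lit 0, nat_lit 1836250, [nat_lit 490000, nat_lit 1100000, nat_lit 2127500], [nat_lit 27, nat_lit 40, nat_lit 40, nat_lit 80, nat_lit 13, nat_lit 401, nat_lit 175, nat_lit 11]⟩, ⟨p099_k0, nat_lit 0, nat_lit 0, nat_lit 92, nat_lit 0, nat_lit 0, [nat_lit 2032000000, nat_lit 4688000000, nat_lit 9842000000], [], [nat_lit 27015234328,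 nat_lit 28741371908, nat_lit 37076196432, nat_lit 38090569856, nat_lit 29202967510, nat_lit 30581383849, nat_lit 37531971940, nat_lit 38796107727], nat_lit 0, nat_lit 0, nat_lit 0, nat_lit 0, nat_lit 0, nat_lit 0, [], [nat_lit 27, nat_lit 40, nat_lit 40, nat_lit 80, nat_lit 13, nat_lit 401, nat_lit 175, nat_lit 10]⟩,
 zbF0, [⟨nat_lit 4, nat_lit 100, nat_lit 77, nat_lit 77, nat_lit 200308544⟩, ⟨nat_lit 7, nat_lit 100, nat_lit 77, nat_lit 77, nat_lit 466577569⟩]⟩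
noncomputable def p099_l100 : Lf2 := ⟨nat_lit 0, nat_lit 20, [nat_lit 5, nat_lit 5, nat_lit 5, nat_lit 20], false, nat_lit 0, nat_lit 232, nat_lit 160, nat_lit 260, ⟨nat_lit 1000, nat_lit 0, nat_lit 0, nat_lit 0, nat_lit 0, nat_lit 0, nat_lit 0, nat_lit 0, nat_lit 0, nat_lit 0, nat_lit 0, nat_lit 0, nat_lit 0, nat_lit 0, nat_lit 0, nat_lit 0, false, false⟩,
 nat_lit 0, nat_lit 5724, nat_lit 0, nat_lit 0, nat_lit 4633, nat_lit 10018, nat_lit 655, nat_lit 0, nat_lit 0, nat_lit 0, nat_lit 0, nat_lit 0, nat_lit 0, nat_lit 0, nat_lit 0, nat_lit 0, nat_lit 0, nat_lit 0, [],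
 ⟨p099_k2, nat_lit 0, nat_lit 0, nat_lit 435, nat_lit 0, nat_lit 674922, [nat_lit 2032000001, nat_lit 4688000000, nat_lit 7968000000], [], [nat_lit 29531357699, nat_lit 30304368391, nat_lit 35430873192, nat_lit 36625814836, nat_lit 29023470363, nat_lit 29608143115, nat_lit 32991652785, nat_lit 33457763452], nat_lit 1271250, nat_lit 1271250, nat_lit 1271250, nat_lit 1271250, nat_lit 0, nat_lit 1638500, [nat_lit 490000, nat_lit 1100000, nat_lit 1785000], [nat_lit 34, nat_lit 40, nat_lit 40, nat_lit 80, nat_lit 7, nat_lit 272, nat_lit 60, nat_lit 8]⟩, ⟨p099_k0, nat_lit 0, nat_lit 0, nat_lit 92, nat_lit 0, nat_lit 0, [nat_lit 2032000000, nat_lit 4688000000, nat_lit 9842000000], [], [nat_lit 27015234328, nat_lit 28741371908, nat_lit 37076196432, nat_lit 38090569856, nat_lit 29202967510, nat_lit 30581383849, nat_lit 37531971940, nat_lit 38796107727], nat_lit 0, nat_lit 0, nat_lit 0, nat_lit 0, nat_lit 0, nat_lit 0, [],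 [nat_lit 27, nat_lit 40, nat_lit 40, nat_lit 80, nat_lit 13, nat_lit 401, nat_lit 175, nat_lit 10]⟩,
 zbF0, [⟨nat_lit 4, nat_lit 100, nat_lit 66, nat_lit 76, nat_lit 190638939⟩, ⟨nat_lit 7, nat_lit 100, nat_lit 77, nat_lit 77, nat_lit 456494285⟩]⟩
noncomputable def p099_l101 : Lf2 := ⟨nat_lit 0, nat_lit 20, [nat_lit 5, nat_lit 5, nat_lit 5, nat_lit 20], false, nat_lit 0, nat_lit 260, nat_lit 0, nat_lit 260, ⟨nat_lit 1000, nat_lit 0, nat_lit 0, nat_lit 0, nat_lit 0, nat_lit 0, nat_lit 0, nat_lit 0, nat_lit 0, nat_lit 0, nat_lit 0, nat_lit 0, nat_lit 0, nat_lit 0, nat_lit 0, nat_lit 0, false, false⟩,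
 nat_lit 13080, nat_lit 0, nat_lit 0, nat_lit 0, nat_lit 9810, nat_lit 9810, nat_lit 369, nat_lit 0, nat_lit 0, nat_lit 329, nat_lit 0, nat_lit 0, nat_lit 0, nat_lit 0, nat_lit 0, nat_lit 0, nat_lit 0, nat_lit 0, [],
 ⟨p099_k9, nat_lit 0, nat_lit 0, nat_lit 468, nat_lit 0, nat_lit 547586, [nat_lit 2032000001, nat_lit 6250000000, nat_lit 9842000000], [], [nat_lit 31647993890, nat_lit 34817910490, nat_lit 31589199410, nat_lit 34894547625, nat_lit 25268631760, nat_lit 28038012300, nat_lit 25552589661, nat_lit 27746026160], nat_lit 1271250, nat_lit 1271250, nat_lit 936251, nat_lit 1438750, nat_lit 0, nat_lit 1836250, [nat_lit 490000, nat_lit 1427500, nat_lit 1271250], [nat_lit 61, nat_lit 40, nat_lit 40, nat_lit 80, nat_lit 1, nat_lit 345, nat_lit 125, nat_lit 10]⟩, ⟨p099_k9, nat_lit 0, nat_lit 0, nat_lit 464, nat_lit 0, nat_lit 547586, [nat_lit 2032000000, nat_lit 6250000000, nat_lit 9842000000], [], [nat_lit 32458743890,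 nat_lit 34043702190, nat_lit 32399949410, nat_lit 33815136890, nat_lit 26079381760, nat_lit 27129649383, nat_lit 25558036950, nat_lit 26656516160], nat_lit 1271250, nat_lit 1271250, nat_lit 936251, nat_lit 1438750, nat_lit 0, nat_lit 1836250, [nat_lit 490000, nat_lit 1427500, nat_lit 1271250], [nat_lit 61, nat_lit 40, nat_lit 40, nat_lit 80, nat_lit 1, nat_lit 345, nat_lit 125, nat_lit 10]⟩,
 zbF0, [⟨nat_lit 0, nat_lit 76, nat_lit 72, nat_lit 100, nat_lit 246714132⟩, ⟨nat_lit 0, nat_lit 72, nat_lit 61, nat_lit 100, nat_lit 919220965⟩, ⟨nat_lit 16, nat_lit 71, nat_lit 100, nat_lit 71, nat_lit 66179991⟩, ⟨nat_lit 7, nat_lit 100, nat_lit 76, nat_lit 72, nat_lit 60784832⟩]⟩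
noncomputable def p099_l102 : Lf2 := ⟨nat_lit 0, nat_lit 20, [nat_lit 5, nat_lit 5, nat_lit 5, nat_lit 20], false, nat_lit 0, nat_lit 260, nat_lit 0, nat_lit 260, ⟨nat_lit 1000, nat_lit 0, nat_lit 0, nat_lit 0, nat_lit 0, nat_lit 0, nat_lit 0, nat_lit 0, nat_lit 0, nat_lit 0, nat_lit 0, nat_lit 0, nat_lit 0, nat_lit 0, nat_lit 0, nat_lit 0, false, false⟩,
 nat_lit 9234, nat_lit 0, nat_lit 0, nat_lit 0, nat_lit 6925, nat_lit 6925, nat_lit 719, nat_lit 0, nat_lit 0, nat_lit 836, nat_lit 0, nat_lit 0, nat_lit 0, nat_lit 0, nat_lit 0, nat_lit 0, nat_lit 0, nat_lit 0, [],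
 ⟨p099_k0, nat_lit 0, nat_lit 0, nat_lit 447, nat_lit 0, nat_lit 547586, [nat_lit 2032000001, nat_lit 4688000000, nat_lit 9842000000], [], [nat_lit 26847564550, nat_lit 29527276875, nat_lit 27659888350, nat_lit 30817994900, nat_lit 26295544701, nat_lit 25971497175, nat_lit 24658984300, nat_lit 27200288000], nat_lit 1271250, nat_lit 1271250, nat_lit 1271250, nat_lit 1271250, nat_lit 0, nat_lit 1836250, [nat_lit 490000, nat_lit 1100000, nat_lit 2127500], [nat_lit 27, nat_lit 40, nat_lit 40, nat_lit 80, nat_lit 13, nat_lit 345, nat_lit 125, nat_lit 9]⟩, ⟨p099_k0, nat_lit 0, nat_lit 0, nat_lit 444, nat_lit 0, nat_lit 547586, [nat_lit 2032000000, nat_lit 4688000000, nat_lit 9842000000], [], [nat_lit 24951177300, nat_lit 26579469200, nat_lit 26234756900, nat_lit 28298119450, nat_lit 25125910325, nat_lit 24873954325, nat_lit 24658984300, nat_lit 25669938038], nat_lit 1271250, nat_lit 1271250, nat_lit 1271250, nat_lit 1271250,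 nat_lit 0, nat_lit 1836250, [nat_lit 490000, nat_lit 1100000, nat_lit 2127500], [nat_lit 27, nat_lit 40, nat_lit 40, nat_lit 80, nat_lit 13, nat_lit 345, nat_lit 125, nat_lit 9]⟩,
 zbF0, [⟨nat_lit 0, nat_lit 72, nat_lit 61, nat_lit 100, nat_lit 45748914⟩, ⟨nat_lit 4, nat_lit 100, nat_lit 71, nat_lit 71, nat_lit 203284609⟩, ⟨nat_lit 7, nat_lit 100, nat_lit 76, nat_lit 72, nat_lit 252119755⟩]⟩
noncomputable def p099_l103 : Lf2 := ⟨nat_lit 0, nat_lit 20, [nat_lit 5, nat_lit 5, nat_lit 5, nat_lit 20], false, nat_lit 0, nat_lit 260, nat_lit 0, nat_lit 260, ⟨nat_lit 1000, nat_lit 0, nat_lit 0, nat_lit 0, nat_lit 0, nat_lit 0, nat_lit 0, nat_lit 0, nat_lit 0, nat_lit 0, nat_lit 0, nat_lit 0, nat_lit 0, nat_lit 0, nat_lit 0, nat_lit 0, false, false⟩,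
 nat_lit 8345, nat_lit 0, nat_lit 0, nat_lit 0, nat_lit 6258, nat_lit 6258, nat_lit 588, nat_lit 0, nat_lit 0, nat_lit 601, nat_lit 0, nat_lit 0, nat_lit 0, nat_lit 0, nat_lit 0, nat_lit 0, nat_lit 0, nat_lit 0, [],
 ⟨p099_k0, nat_lit 0, nat_lit 0, nat_lit 443, nat_lit 0, nat_lit 547586, [nat_lit 2032000001, nat_lit 4688000000, nat_lit 9842000000], [], [nat_lit 32185768320, nat_lit 33636832480, nat_lit 38782285048, nat_lit 41556539336, nat_lit 29395889516, nat_lit 30396693970, nat_lit 33280051140, nat_lit 35273865034], nat_lit 1271250, nat_lit 1271250, nat_lit 1271250, nat_lit 1271250, nat_lit 0, nat_lit 1836250, [nat_lit 490000, nat_lit 1100000, nat_lit 2127500], [nat_lit 27, nat_lit 40, nat_lit 40, nat_lit 80, nat_lit 13, nat_lit 401, nat_lit 175, nat_lit 11]⟩, ⟨p099_k0, nat_lit 0, nat_lit 0, nat_lit 443, nat_lit 0, nat_lit 547586, [nat_lit 2032000000, nat_lit 4688000000, nat_lit 9842000000], [], [nat_lit 31925849570,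 nat_lit 32651381650, nat_lit 38782285048, nat_lit 40169412192, nat_lit 29135970766, nat_lit 29635178031, nat_lit 33280051140, nat_lit 34276958087], nat_lit 1271250, nat_lit 1271250, nat_lit 1271250, nat_lit 1271250, nat_lit 0, nat_lit 1836250, [nat_lit 490000, nat_lit 1100000, nat_lit 2127500], [nat_lit 27, nat_lit 40, nat_lit 40, nat_lit 80, nat_lit 13, nat_lit 401, nat_lit 175, nat_lit 11]⟩,
 zbF0, [⟨nat_lit 4, nat_lit 100, nat_lit 71, nat_lit 71, nat_lit 215231901⟩, ⟨nat_lit 7, nat_lit 100, nat_lit 76, nat_lit 72, nat_lit 105132624⟩]⟩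
noncomputable def b_V_800_800_10_21 : St := ⟨true, nat_lit 1, nat_lit 2, nat_lit 1, nat_lit 80, nat_lit 320, nat_lit 360, nat_lit 320, nat_lit 340, nat_lit 140, nat_lit 400, nat_lit 40, nat_lit 80, nat_lit 0, nat_lit 260, nat_lit 0, nat_lit 260, nat_lit 80, nat_lit 120, nat_lit 0, nat_lit 0, nat_lit 0, nat_lit 0⟩
theorem d_V_800_800_10_21 (h : EB TB.env) : Dead b_V_800_800_10_21 := chkB_sound0 h (T :=
(.st (nat_lit 1)
(.spl (nat_lit 2) (nat_lit 240)
(.spl (nat_lit 4) (nat_lit 160)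
(.spl (nat_lit 3) (nat_lit 60)
(.trX (nat_lit 19) (nat_lit 81) (nat_lit 100) (nat_lit 72) (nat_lit 232) (.leaf p099_l91))
(.leaf p099_l92))
(.spl (nat_lit 1) (nat_lit 330)
(.spl (nat_lit 0) (nat_lit 340)
(.leaf p099_l93)
(.trZ (nat_lit 0) (nat_lit 81) (nat_lit 72) (nat_lit 100) (nat_lit 168) (.trX (nat_lit 16) (nat_lit 72) (nat_lit 100) (nat_lit 81) (nat_lit 232) (.leaf p099_l94))))
(.ord (.trZ (nat_lit 0) (nat_lit 77) (nat_lit 77) (nat_lit 100) (nat_lit 168) (.trX (nat_lit 16) (nat_lit 78) (nat_lit 100) (nat_lit 82) (nat_lit 244) (.trX (nat_lit 19) (nat_lit 78) (nat_lit 100) (nat_lit 82) (nat_lit 244) (.leaf p099_l95)))))))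
(.spl (nat_lit 3) (nat_lit 60)
(.trX (nat_lit 16) (nat_lit 81) (nat_lit 100) (nat_lit 72) (nat_lit 232) (.trX (nat_lit 19) (nat_lit 81) (nat_lit 100) (nat_lit 72) (nat_lit 232) (.leaf p099_l96)))
(.spl (nat_lit 5) (nat_lit 160)
(.spl (nat_lit 0) (nat_lit 340)
(.leaf p099_l97)
(.trX (nat_lit 16) (nat_lit 72) (nat_lit 100) (nat_lit 81) (nat_lit 232) (.leaf p099_l98)))
(.spl (nat_lit 0) (nat_lit 340)
(.leaf p099_l99)
(.trX (nat_lit 16) (nat_lit 72) (nat_lit 100) (nat_lit 81) (nat_lit 232) (.leaf p099_l100))))))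
(.spl (nat_lit 2) (nat_lit 240)
(.spl (nat_lit 2) (nat_lit 200)
(.leaf p099_l101)
(.leaf p099_l102))
(.leaf p099_l103)))) (by decide +kernel)
noncomputable def p099_l104 : Lf2 := ⟨nat_lit 0, nat_lit 15, [nat_lit 30, nat_lit 5, nat_lit 5, nat_lit 20], false, nat_lit 0, nat_lit 160, nat_lit 0, nat_lit 232, ⟨nat_lit 1000, nat_lit 0, nat_lit 0, nat_lit 0, nat_lit 0, nat_lit 0, nat_lit 0, nat_lit 0, nat_lit 0, nat_lit 0, nat_lit 0, nat_lit 0, nat_lit 0, nat_lit 0, nat_lit 0, nat_lit 0, false, false⟩,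
 nat_lit 0, nat_lit 9573, nat_lit 0, nat_lit 0, nat_lit 7179, nat_lit 10094, nat_lit 542, nat_lit 0, nat_lit 0, nat_lit 0, nat_lit 0, nat_lit 0, nat_lit 0, nat_lit 0, nat_lit 0, nat_lit 0, nat_lit 0, nat_lit 0, [],
 ⟨p099_k5, nat_lit 0, nat_lit 0, nat_lit 520, nat_lit 0, nat_lit 816730, [nat_lit 2032000001, nat_lit 4688000000, nat_lit 7968000000], [], [nat_lit 28361373896, nat_lit 30155518196, nat_lit 29116708864, nat_lit 31318453132, nat_lit 24864699618, nat_lit 26393017058, nat_lit 25371861332, nat_lit 26638338344], nat_lit 1271250, nat_lit 1271250, nat_lit 936251, nat_lit 1773750, nat_lit 0, nat_lit 1100001, [nat_lit 490000, nat_lit 1100000, nat_lit 1785000], [nat_lit 34, nat_lit 40, nat_lit 40, nat_lit 80, nat_lit 7, nat_lit 317, nat_lit 100, nat_lit 10]⟩, ⟨p099_k5, nat_lit 0, nat_lit 0, nat_lit 151, nat_lit 0, nat_lit 0, [nat_lit 2032000000, nat_lit 4688000000, nat_lit 7968000000], [], [nat_lit 28334934020,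 nat_lit 31198177660, nat_lit 31357041784, nat_lit 33759555036, nat_lit 22743434436, nat_lit 24777227821, nat_lit 24495419932, nat_lit 26149736138], nat_lit 0, nat_lit 0, nat_lit 0, nat_lit 0, nat_lit 0, nat_lit 0, [], [nat_lit 34, nat_lit 40, nat_lit 40, nat_lit 80, nat_lit 7, nat_lit 345, nat_lit 125, nat_lit 11]⟩,
 zbF0, [⟨nat_lit 0, nat_lit 72, nat_lit 61, nat_lit 100, nat_lit 840232008⟩]⟩
noncomputable def p099_l105 : Lf2 := ⟨nat_lit 0, nat_lit 20, [nat_lit 5, nat_lit 5, nat_lit 5, nat_lit 20], false, nat_lit 0, nat_lit 160, nat_lit 0, nat_lit 260, ⟨nat_lit 1000, nat_lit 0, nat_lit 0, nat_lit 0, nat_lit 0, nat_lit 0, nat_lit 0, nat_lit 0, nat_lit 0, nat_lit 0, nat_lit 0, nat_lit 0, nat_lit 0, nat_lit 0, nat_lit 0, nat_lit 0, false, false⟩,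
 nat_lit 0, nat_lit 9187, nat_lit 0, nat_lit 0, nat_lit 6890, nat_lit 11297, nat_lit 694, nat_lit 0, nat_lit 0, nat_lit 206, nat_lit 0, nat_lit 0, nat_lit 0, nat_lit 0, nat_lit 0, nat_lit 0, nat_lit 0, nat_lit 0, [],
 ⟨p099_k0, nat_lit 0, nat_lit 0, nat_lit 567, nat_lit 0, nat_lit 750840, [nat_lit 2032000001, nat_lit 4688000000, nat_lit 9842000000], [], [nat_lit 28377099542, nat_lit 29602837060, nat_lit 28278844100, nat_lit 30889233350, nat_lit 23808765880, nat_lit 25537216330, nat_lit 28303013511, nat_lit 26204415720], nat_lit 1271250, nat_lit 1271250, nat_lit 936251, nat_lit 1773750, nat_lit 0, nat_lit 1100001, [nat_lit 490000, nat_lit 1100000, nat_lit 2127500], [nat_lit 27, nat_lit 40, nat_lit 40, nat_lit 80, nat_lit 13, nat_lit 317, nat_lit 100, nat_lit 9]⟩, ⟨p099_k0, nat_lit 0, nat_lit 0, nat_lit 182, nat_lit 0, nat_lit 0, [nat_lit 2032000000, nat_lit 4688000000, nat_lit 9842000000], [], [nat_lit 32018377828,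 nat_lit 34800410039, nat_lit 34269906166, nat_lit 36519258548, nat_lit 25416317900, nat_lit 27252717324, nat_lit 26150077665, nat_lit 27634888259], nat_lit 0, nat_lit 0, nat_lit 0, nat_lit 0, nat_lit 0, nat_lit 0, [], [nat_lit 27, nat_lit 40, nat_lit 40, nat_lit 80, nat_lit 13, nat_lit 345, nat_lit 125, nat_lit 10]⟩,
 zbF0, [⟨nat_lit 0, nat_lit 76, nat_lit 72, nat_lit 100, nat_lit 662334474⟩, ⟨nat_lit 0, nat_lit 72, nat_lit 61, nat_lit 100, nat_lit 80018724⟩]⟩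
noncomputable def p099_l106 : Lf2 := ⟨nat_lit 0, nat_lit 20, [nat_lit 5, nat_lit 5, nat_lit 5, nat_lit 20], false, nat_lit 160, nat_lit 260, nat_lit 0, nat_lit 260, ⟨nat_lit 1000, nat_lit 0, nat_lit 0, nat_lit 0, nat_lit 0, nat_lit 0, nat_lit 0, nat_lit 0, nat_lit 0, nat_lit 0, nat_lit 0, nat_lit 0, nat_lit 0, nat_lit 0, nat_lit 0, nat_lit 0, false, false⟩,
 nat_lit 0, nat_lit 7765, nat_lit 0, nat_lit 0, nat_lit 5823, nat_lit 12388, nat_lit 769, nat_lit 0, nat_lit 0, nat_lit 219, nat_lit 0, nat_lit 0, nat_lit 0, nat_lit 0, nat_lit 0, nat_lit 0, nat_lit 0, nat_lit 0, [],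
 ⟨p099_k0, nat_lit 0, nat_lit 0, nat_lit 427, nat_lit 0, nat_lit 700176, [nat_lit 2032000001, nat_lit 4688000000, nat_lit 9842000000], [], [nat_lit 24255676207, nat_lit 25316457363, nat_lit 25704761873, nat_lit 26595490161, nat_lit 26284768720, nat_lit 27218926715, nat_lit 27693940788, nat_lit 28624554869], nat_lit 1271250, nat_lit 1271250, nat_lit 936251, nat_lit 1773750, nat_lit 1100001, nat_lit 1956250, [nat_lit 490000, nat_lit 1100000, nat_lit 2127500], [nat_lit 27, nat_lit 40, nat_lit 40, nat_lit 80, nat_lit 13, nat_lit 345, nat_lit 125, nat_lit 9]⟩, ⟨p099_k0, nat_lit 0, nat_lit 0, nat_lit 176, nat_lit 0, nat_lit 0, [nat_lit 2032000000, nat_lit 4688000000, nat_lit 9842000000], [], [nat_lit 32352501487, nat_lit 33843651209, nat_lit 34573431639, nat_lit 35778637556, nat_lit 24583699975, nat_lit 25562168573, nat_lit 25620356012, nat_lit 26893734779], nat_lit 0, nat_lit 0, nat_lit 0, nat_lit 0, nat_lit 0, nat_lit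 0, [], [nat_lit 27, nat_lit 40, nat_lit 40, nat_lit 80, nat_lit 13, nat_lit 345, nat_lit 125, nat_lit 10]⟩,
 zbF0, [⟨nat_lit 0, nat_lit 76, nat_lit 72, nat_lit 100, nat_lit 612716894⟩, ⟨nat_lit 4, nat_lit 100, nat_lit 76, nat_lit 72, nat_lit 568948568⟩]⟩
noncomputable def p099_l107 : Lf2 := ⟨nat_lit 0, nat_lit 20, [nat_lit 5, nat_lit 5, nat_lit 5, nat_lit 20], false, nat_lit 160, nat_lit 232, nat_lit 0, nat_lit 260, ⟨nat_lit 1000, nat_lit 0, nat_lit 0, nat_lit 0, nat_lit 0, nat_lit 0, nat_lit 0, nat_lit 0, nat_lit 0, nat_lit 0, nat_lit 0, nat_lit 0, nat_lit 0, nat_lit 0, nat_lit 0, nat_lit 0, false, false⟩,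
 nat_lit 0, nat_lit 6268, nat_lit 0, nat_lit 0, nat_lit 5073, nat_lit 12704, nat_lit 1405, nat_lit 0, nat_lit 0, nat_lit 0, nat_lit 0, nat_lit 0, nat_lit 0, nat_lit 0, nat_lit 0, nat_lit 0, nat_lit 0, nat_lit 0, [],
 ⟨p099_k7, nat_lit 0, nat_lit 0, nat_lit 386, nat_lit 0, nat_lit 784613, [nat_lit 2032000001, nat_lit 7968000000], [], [nat_lit 20491965326, nat_lit 21369016698, nat_lit 21738593324, nat_lit 23030845780, nat_lit 21688637970, nat_lit 22944082668, nat_lit 23383250195, nat_lit 24910093470], nat_lit 1271250, nat_lit 1271250, nat_lit 1167600, nat_lit 1789500, nat_lit 1100001, nat_lit 1716500, [nat_lit 490000, nat_lit 1740000], [nat_lit 110, nat_lit 40, nat_lit 40, nat_lit 80, nat_lit 109, nat_lit 345, nat_lit 125, nat_lit 10]⟩, ⟨p099_k8, nat_lit 0, nat_lit 0, nat_lit 163, nat_lit 0, nat_lit 0, [nat_lit 2032000000, nat_lit 9842000000], [], [nat_lit 34576140026, nat_lit 36020281452, nat_lit 36888302912, nat_lit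 38112739624, nat_lit 26190057692, nat_lit 27135569906, nat_lit 27116469280, nat_lit 27917395576], nat_lit 0, nat_lit 0, nat_lit 0, nat_lit 0, nat_lit 0, nat_lit 0, [], [nat_lit 94, nat_lit 40, nat_lit 40, nat_lit 80, nat_lit 95, nat_lit 345, nat_lit 125, nat_lit 10]⟩,
 zbF0, [⟨nat_lit 0, nat_lit 78, nat_lit 66, nat_lit 100, nat_lit 438989241⟩, ⟨nat_lit 4, nat_lit 100, nat_lit 66, nat_lit 72, nat_lit 701922364⟩]⟩
noncomputable def p099_l108 : Lf2 := ⟨nat_lit 0, nat_lit 20, [nat_lit 5, nat_lit 5, nat_lit 5, nat_lit 20], false, nat_lit 160, nat_lit 244, nat_lit 0, nat_lit 244, ⟨nat_lit 1000, nat_lit 0, nat_lit 0, nat_lit 0, nat_lit 0, nat_lit 0, nat_lit 0, nat_lit 0, nat_lit 0, nat_lit 0, nat_lit 0, nat_lit 0, nat_lit 0, nat_lit 0, nat_lit 0, nat_lit 0, false, false⟩,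
 nat_lit 0, nat_lit 8286, nat_lit 0, nat_lit 0, nat_lit 6459, nat_lit 10190, nat_lit 781, nat_lit 0, nat_lit 0, nat_lit 349, nat_lit 0, nat_lit 0, nat_lit 0, nat_lit 0, nat_lit 0, nat_lit 0, nat_lit 0, nat_lit 0, [],
 ⟨p099_k1, nat_lit 0, nat_lit 0, nat_lit 490, nat_lit 0, nat_lit 905525, [nat_lit 2032000001, nat_lit 4688000000, nat_lit 9842000000], [], [nat_lit 21162682240, nat_lit 22647846919, nat_lit 22347083390, nat_lit 23829597632, nat_lit 22561367320, nat_lit 24213438270, nat_lit 23616817071, nat_lit 26117468804], nat_lit 1271250, nat_lit 1271250, nat_lit 1167600, nat_lit 1789500, nat_lit 1100001, nat_lit 1819250, [nat_lit 490000, nat_lit 1100000, nat_lit 2127500], [nat_lit 27, nat_lit 40, nat_lit 40, nat_lit 80, nat_lit 13, nat_lit 345, nat_lit 125, nat_lit 9]⟩, ⟨p099_k1, nat_lit 0, nat_lit 0, nat_lit 177, nat_lit 0, nat_lit 0, [nat_lit 2032000000, nat_lit 4688000000, nat_lit 9842000000], [], [nat_lit 31069976832,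 nat_lit 32296817148, nat_lit 33118419390, nat_lit 34164605960, nat_lit 24197500058, nat_lit 25048130395, nat_lit 25289647031, nat_lit 26016386407], nat_lit 0, nat_lit 0, nat_lit 0, nat_lit 0, nat_lit 0, nat_lit 0, [], [nat_lit 27, nat_lit 40, nat_lit 40, nat_lit 80, nat_lit 13, nat_lit 345, nat_lit 125, nat_lit 10]⟩,
 zbF0, [⟨nat_lit 0, nat_lit 74, nat_lit 69, nat_lit 100, nat_lit 574632973⟩, ⟨nat_lit 4, nat_lit 100, nat_lit 69, nat_lit 71, nat_lit 744404506⟩]⟩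
noncomputable def p099_l109 : Lf2 := ⟨nat_lit 0, nat_lit 15, [nat_lit 30, nat_lit 5, nat_lit 5, nat_lit 20], false, nat_lit 0, nat_lit 232, nat_lit 0, nat_lit 232, ⟨nat_lit 1000, nat_lit 0, nat_lit 0, nat_lit 0, nat_lit 0, nat_lit 0, nat_lit 0, nat_lit 0, nat_lit 0, nat_lit 0, nat_lit 0, nat_lit 0, nat_lit 0, nat_lit 0, nat_lit 0, nat_lit 0, false, false⟩,
 nat_lit 0, nat_lit 7670, nat_lit 0, nat_lit 0, nat_lit 5752, nat_lit 7126, nat_lit 548, nat_lit 0, nat_lit 0, nat_lit 0, nat_lit 0, nat_lit 0, nat_lit 0, nat_lit 0, nat_lit 0, nat_lit 0, nat_lit 0, nat_lit 0, [],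
 ⟨p099_k5, nat_lit 0, nat_lit 0, nat_lit 500, nat_lit 0, nat_lit 816730, [nat_lit 2032000001, nat_lit 4688000000, nat_lit 7968000000], [], [nat_lit 34385133032, nat_lit 35792472616, nat_lit 38839174484, nat_lit 40025855488, nat_lit 32342218150, nat_lit 33377266171, nat_lit 36082192724, nat_lit 37006984679], nat_lit 1271250, nat_lit 1271250, nat_lit 1271250, nat_lit 1271250, nat_lit 0, nat_lit 1638500, [nat_lit 490000, nat_lit 1100000, nat_lit 1785000], [nat_lit 34, nat_lit 40, nat_lit 40, nat_lit 80, nat_lit 7, nat_lit 272, nat_lit 60, nat_lit 8]⟩, ⟨p099_k5, nat_lit 0, nat_lit 0, nat_lit 193, nat_lit 0, nat_lit 0, [nat_lit 2032000000, nat_lit 4688000000, nat_lit 7968000000], [], [nat_lit 30604250136, nat_lit 32440139676, nat_lit 41588555136, nat_lit 42701345472, nat_lit 27179580673, nat_lit 28454238551, nat_lit 35153819411, nat_lit 35984454927], nat_lit 0, nat_lit 0, nat_lit 0, nat_lit 0, nat_lit 0, nat_lit 0, [],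 [nat_lit 34, nat_lit 40, nat_lit 40, nat_lit 80, nat_lit 7, nat_lit 272, nat_lit 60, nat_lit 8]⟩,
 zbF0, [⟨nat_lit 4, nat_lit 100, nat_lit 72, nat_lit 66, nat_lit 235573565⟩, ⟨nat_lit 7, nat_lit 100, nat_lit 76, nat_lit 66, nat_lit 73412856⟩]⟩
noncomputable def p099_l110 : Lf2 := ⟨nat_lit 0, nat_lit 20, [nat_lit 5, nat_lit 5, nat_lit 5, nat_lit 20], false, nat_lit 0, nat_lit 260, nat_lit 0, nat_lit 160, ⟨nat_lit 1000, nat_lit 0, nat_lit 0, nat_lit 0, nat_lit 0, nat_lit 0, nat_lit 0, nat_lit 0, nat_lit 0, nat_lit 0, nat_lit 0, nat_lit 0, nat_lit 0, nat_lit 0, nat_lit 0, nat_lit 0, false, false⟩,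
 nat_lit 0, nat_lit 7545, nat_lit 0, nat_lit 0, nat_lit 5658, nat_lit 6578, nat_lit 614, nat_lit 0, nat_lit 0, nat_lit 381, nat_lit 0, nat_lit 0, nat_lit 0, nat_lit 0, nat_lit 0, nat_lit 0, nat_lit 0, nat_lit 0, [],
 ⟨p099_k0, nat_lit 0, nat_lit 0, nat_lit 454, nat_lit 0, nat_lit 586924, [nat_lit 2032000001, nat_lit 4688000000, nat_lit 9842000000], [], [nat_lit 33363006820, nat_lit 34062882900, nat_lit 37837691918, nat_lit 38419862898, nat_lit 31235850816, nat_lit 31727606423, nat_lit 35196601958, nat_lit 35712431748], nat_lit 1271250, nat_lit 1271250, nat_lit 1271250, nat_lit 1271250, nat_lit 0, nat_lit 1836250, [nat_lit 490000, nat_lit 1100000, nat_lit 2127500], [nat_lit 27, nat_lit 40, nat_lit 40, nat_lit 80, nat_lit 13, nat_lit 401, nat_lit 175, nat_lit 11]⟩, ⟨p099_k0, nat_lit 0, nat_lit 0, nat_lit 212, nat_lit 0, nat_lit 0, [nat_lit 2032000000, nat_lit 4688000000, nat_lit 9842000000], [], [nat_lit 30645462209,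 nat_lit 32225632077, nat_lit 40129229825, nat_lit 41102539872, nat_lit 26445002841, nat_lit 27568903365, nat_lit 33914024497, nat_lit 34753068001], nat_lit 0, nat_lit 0, nat_lit 0, nat_lit 0, nat_lit 0, nat_lit 0, [], [nat_lit 27, nat_lit 40, nat_lit 40, nat_lit 80, nat_lit 13, nat_lit 373, nat_lit 150, nat_lit 10]⟩,
 zbF0, [⟨nat_lit 16, nat_lit 77, nat_lit 100, nat_lit 77, nat_lit 200308544⟩]⟩
noncomputable def p099_l111 : Lf2 := ⟨nat_lit 0, nat_lit 20, [nat_lit 5, nat_lit 5, nat_lit 5, nat_lit 20], false, nat_lit 0, nat_lit 232, nat_lit 0, nat_lit 160, ⟨nat_lit 1000, nat_lit 0, nat_lit 0, nat_lit 0, nat_lit 0, nat_lit 0, nat_lit 0, nat_lit 0, nat_lit 0, nat_lit 0, nat_lit 0, nat_lit 0, nat_lit 0, nat_lit 0, nat_lit 0, nat_lit 0, false, false⟩,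
 nat_lit 0, nat_lit 5913, nat_lit 0, nat_lit 0, nat_lit 4786, nat_lit 6529, nat_lit 652, nat_lit 0, nat_lit 0, nat_lit 389, nat_lit 0, nat_lit 0, nat_lit 0, nat_lit 0, nat_lit 0, nat_lit 0, nat_lit 0, nat_lit 0, [],
 ⟨p099_k2, nat_lit 0, nat_lit 0, nat_lit 435, nat_lit 0, nat_lit 674922, [nat_lit 2032000001, nat_lit 4688000000, nat_lit 7968000000], [], [nat_lit 28988451326, nat_lit 29771181190, nat_lit 35877024864, nat_lit 37090061512, nat_lit 28340279973, nat_lit 28931350398, nat_lit 32333300600, nat_lit 32801742926], nat_lit 1271250, nat_lit 1271250, nat_lit 1271250, nat_lit 1271250, nat_lit 0, nat_lit 1638500, [nat_lit 490000, nat_lit 1100000, nat_lit 1785000], [nat_lit 34, nat_lit 40, nat_lit 40, nat_lit 80, nat_lit 7, nat_lit 272, nat_lit 60, nat_lit 8]⟩, ⟨p099_k0, nat_lit 0, nat_lit 0, nat_lit 212, nat_lit 0, nat_lit 0, [nat_lit 2032000000, nat_lit 4688000000, nat_lit 9842000000], [], [nat_lit 30546018137,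 nat_lit 32119239511, nat_lit 39994061225, nat_lit 40962112995, nat_lit 26452847013, nat_lit 27572408195, nat_lit 33843260321, nat_lit 34679806393], nat_lit 0, nat_lit 0, nat_lit 0, nat_lit 0, nat_lit 0, nat_lit 0, [], [nat_lit 27, nat_lit 40, nat_lit 40, nat_lit 80, nat_lit 13, nat_lit 373, nat_lit 150, nat_lit 10]⟩,
 zbF0, [⟨nat_lit 4, nat_lit 100, nat_lit 66, nat_lit 76, nat_lit 142705103⟩]⟩
noncomputable def p099_l112 : Lf2 := ⟨nat_lit 0, nat_lit 20, [nat_lit 5, nat_lit 5, nat_lit 5, nat_lit 20], false, nat_lit 0, nat_lit 260, nat_lit 160, nat_lit 260, ⟨nat_lit 1000, nat_lit 0, nat_lit 0, nat_lit 0, nat_lit 0, nat_lit 0, nat_lit 0, nat_lit 0, nat_lit 0, nat_lit 0, nat_lit 0, nat_lit 0, nat_lit 0, nat_lit 0, nat_lit 0, nat_lit 0, false, false⟩,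
 nat_lit 0, nat_lit 7545, nat_lit 0, nat_lit 0, nat_lit 5658, nat_lit 10018, nat_lit 614, nat_lit 0, nat_lit 0, nat_lit 0, nat_lit 0, nat_lit 0, nat_lit 0, nat_lit 0, nat_lit 0, nat_lit 0, nat_lit 0, nat_lit 0, [],
 ⟨p099_k0, nat_lit 0, nat_lit 0, nat_lit 454, nat_lit 0, nat_lit 586924, [nat_lit 2032000001, nat_lit 4688000000, nat_lit 9842000000], [], [nat_lit 33363006820, nat_lit 34062882900, nat_lit 37837691918, nat_lit 38419862898, nat_lit 31235850816, nat_lit 31727606423, nat_lit 35196601958, nat_lit 35712431748], nat_lit 1271250, nat_lit 1271250, nat_lit 1271250, nat_lit 1271250, nat_lit 0, nat_lit 1836250, [nat_lit 490000, nat_lit 1100000, nat_lit 2127500], [nat_lit 27, nat_lit 40, nat_lit 40, nat_lit 80, nat_lit 13, nat_lit 401, nat_lit 175, nat_lit 11]⟩, ⟨p099_k0, nat_lit 0, nat_lit 0, nat_lit 92, nat_lit 0, nat_lit 0, [nat_lit 2032000000, nat_lit 4688000000, nat_lit 9842000000], [], [nat_lit 27015234328,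 nat_lit 28741371908, nat_lit 37076196432, nat_lit 38090569856, nat_lit 29202967510, nat_lit 30581383849, nat_lit 37531971940, nat_lit 38796107727], nat_lit 0, nat_lit 0, nat_lit 0, nat_lit 0, nat_lit 0, nat_lit 0, [], [nat_lit 27, nat_lit 40, nat_lit 40, nat_lit 80, nat_lit 13, nat_lit 401, nat_lit 175, nat_lit 10]⟩,
 zbF0, [⟨nat_lit 4, nat_lit 100, nat_lit 77, nat_lit 77, nat_lit 200308544⟩, ⟨nat_lit 7, nat_lit 100, nat_lit 77, nat_lit 77, nat_lit 466577569⟩]⟩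
noncomputable def p099_l113 : Lf2 := ⟨nat_lit 0, nat_lit 20, [nat_lit 5, nat_lit 5, nat_lit 5, nat_lit 20], false, nat_lit 0, nat_lit 232, nat_lit 160, nat_lit 260, ⟨nat_lit 1000, nat_lit 0, nat_lit 0, nat_lit 0, nat_lit 0, nat_lit 0, nat_lit 0, nat_lit 0, nat_lit 0, nat_lit 0, nat_lit 0, nat_lit 0, nat_lit 0, nat_lit 0, nat_lit 0, nat_lit 0, false, false⟩,
 nat_lit 0, nat_lit 5724, nat_lit 0, nat_lit 0, nat_lit 4633, nat_lit 10018, nat_lit 655, nat_lit 0, nat_lit 0, nat_lit 0, nat_lit 0, nat_lit 0, nat_lit 0, nat_lit 0, nat_lit 0, nat_lit 0, nat_lit 0, nat_lit 0, [],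
 ⟨p099_k2, nat_lit 0, nat_lit 0, nat_lit 435, nat_lit 0, nat_lit 674922, [nat_lit 2032000001, nat_lit 4688000000, nat_lit 7968000000], [], [nat_lit 29531357699, nat_lit 30304368391, nat_lit 35430873192, nat_lit 36625814836, nat_lit 29023470363, nat_lit 29608143115, nat_lit 32991652785, nat_lit 33457763452], nat_lit 1271250, nat_lit 1271250, nat_lit 1271250, nat_lit 1271250, nat_lit 0, nat_lit 1638500, [nat_lit 490000, nat_lit 1100000, nat_lit 1785000], [nat_lit 34, nat_lit 40, nat_lit 40, nat_lit 80, nat_lit 7, nat_lit 272, nat_lit 60, nat_lit 8]⟩, ⟨p099_k0, nat_lit 0, nat_lit 0, nat_lit 92, nat_lit 0, nat_lit 0, [nat_lit 2032000000, nat_lit 4688000000, nat_lit 9842000000], [], [nat_lit 27015234328, nat_lit 28741371908, nat_lit 37076196432, nat_lit 38090569856, nat_lit 29202967510, nat_lit 30581383849, nat_lit 37531971940, nat_lit 38796107727], nat_lit 0, nat_lit 0, nat_lit 0, nat_lit 0, nat_lit 0, nat_lit 0, [],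 [nat_lit 27, nat_lit 40, nat_lit 40, nat_lit 80, nat_lit 13, nat_lit 401, nat_lit 175, nat_lit 10]⟩,
 zbF0, [⟨nat_lit 4, nat_lit 100, nat_lit 66, nat_lit 76, nat_lit 190638939⟩, ⟨nat_lit 7, nat_lit 100, nat_lit 77, nat_lit 77, nat_lit 456494285⟩]⟩
noncomputable def p099_l114 : Lf2 := ⟨nat_lit 0, nat_lit 20, [nat_lit 5, nat_lit 5, nat_lit 5, nat_lit 20], false, nat_lit 0, nat_lit 260, nat_lit 0, nat_lit 260, ⟨nat_lit 866, nat_lit 134, nat_lit 0, nat_lit 8, nat_lit 237, nat_lit 134, nat_lit 89, nat_lit 0, nat_lit 0, nat_lit 0, nat_lit 0, nat_lit 0, nat_lit 0, nat_lit 0, nat_lit 0, nat_lit 5000000, false, false⟩,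
 nat_lit 11467, nat_lit 0, nat_lit 0, nat_lit 0, nat_lit 8600, nat_lit 8600, nat_lit 298, nat_lit 0, nat_lit 0, nat_lit 348, nat_lit 0, nat_lit 0, nat_lit 0, nat_lit 0, nat_lit 0, nat_lit 134000, nat_lit 0, nat_lit 0, [(nat_lit 19, [(nat_lit 2, nat_lit 134)]), (nat_lit 22, [(nat_lit 2, nat_lit 134)])],
 ⟨p099_k9, nat_lit 0, nat_lit 0, nat_lit 468, nat_lit 0, nat_lit 547586, [nat_lit 2065875201, nat_lit 5411213600, nat_lit 8100696800], [], [nat_lit 30342636500, nat_lit 33263946500, nat_lit 30449379700, nat_lit 33067893050, nat_lit 25342702200, nat_lit 27528179550, nat_lit 26206094001, nat_lit 27425123650], nat_lit 1271250, nat_lit 1271250, nat_lit 936251, nat_lit 1438750, nat_lit 0, nat_lit 1836250, [nat_lit 490000, nat_lit 1427500, nat_lit 1271250], [nat_lit 61, nat_lit 40, nat_lit 40, nat_lit 80, nat_lit 1, nat_lit 345, nat_lit 125, nat_lit 10]⟩, ⟨p099_k9, nat_lit 0, nat_lit 0, nat_lit 464, nat_lit 0, nat_lit 547586,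 [nat_lit 1759712000, nat_lit 5412500000, nat_lit 8523172000], [], [nat_lit 26766822592, nat_lit 28150135874, nat_lit 26701604664, nat_lit 28044513216, nat_lit 21123116983, nat_lit 22488809869, nat_lit 21930071992, nat_lit 22374581046], nat_lit 1271250, nat_lit 1271250, nat_lit 936251, nat_lit 1438750, nat_lit 0, nat_lit 1836250, [nat_lit 490000, nat_lit 1427500, nat_lit 1271250], [nat_lit 61, nat_lit 40, nat_lit 40, nat_lit 80, nat_lit 1, nat_lit 345, nat_lit 125, nat_lit 10]⟩,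
 ⟨nat_lit 3162, nat_lit 4473, ⟨.ofNat (nat_lit 526772), .ofNat (nat_lit 628855), .ofNat (nat_lit 548248), .ofNat (nat_lit 650331), .ofNat (nat_lit 540839), .ofNat (nat_lit 632386), .ofNat (nat_lit 562904), .ofNat (nat_lit 654450)⟩, ⟨.negSucc (nat_lit 12437), .ofNat (nat_lit 429433), .ofNat (nat_lit 0), .ofNat (nat_lit 472567), .ofNat (nat_lit 0), .ofNat (nat_lit 414188), .ofNat (nat_lit 0), .ofNat (nat_lit 458499)⟩⟩, [⟨nat_lit 0, nat_lit 76, nat_lit 72, nat_lit 100, nat_lit 766959249⟩, ⟨nat_lit 4, nat_lit 100, nat_lit 71, nat_lit 71, nat_lit 98178762⟩, ⟨nat_lit 7, nat_lit 100, nat_lit 76, nat_lit 72, nat_lit 71293656⟩]⟩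
noncomputable def p099_l115 : Lf2 := ⟨nat_lit 0, nat_lit 20, [nat_lit 5, nat_lit 5, nat_lit 5, nat_lit 20], false, nat_lit 0, nat_lit 260, nat_lit 0, nat_lit 260, ⟨nat_lit 854, nat_lit 146, nat_lit 0, nat_lit 8, nat_lit 270, nat_lit 146, nat_lit 89, nat_lit 0, nat_lit 0, nat_lit 0, nat_lit 0, nat_lit 0, nat_lit 0, nat_lit 0, nat_lit 0, nat_lit 5000000, true, false⟩,
 nat_lit 8619, nat_lit 0, nat_lit 0, nat_lit 0, nat_lit 6464, nat_lit 6464, nat_lit 626, nat_lit 0, nat_lit 0, nat_lit 619, nat_lit 0, nat_lit 0, nat_lit 0, nat_lit 0, nat_lit 0, nat_lit 58400, nat_lit 0, nat_lit 0, [(nat_lit 19, [(nat_lit 1, nat_lit 146)]), (nat_lit 22, [(nat_lit 1, nat_lit 146)])],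
 ⟨p099_k0, nat_lit 0, nat_lit 0, nat_lit 447, nat_lit 0, nat_lit 547586, [nat_lit 1939455467, nat_lit 4301041600, nat_lit 8672540000], [], [nat_lit 26721155252, nat_lit 28980869050, nat_lit 27531525268, nat_lit 30109480410, nat_lit 26477901573, nat_lit 26003142272, nat_lit 24922551786, nat_lit 26903791240], nat_lit 1271250, nat_lit 1271250, nat_lit 1271250, nat_lit 1271250, nat_lit 0, nat_lit 1836250, [nat_lit 490000, nat_lit 1100000, nat_lit 2127500], [nat_lit 27, nat_lit 40, nat_lit 40, nat_lit 80, nat_lit 13, nat_lit 345, nat_lit 125, nat_lit 9]⟩, ⟨p099_k0, nat_lit 0, nat_lit 0, nat_lit 444, nat_lit 0, nat_lit 547586, [nat_lit 1735328000, nat_lit 4003552000, nat_lit 8405068000], [], [nat_lit 22417558670, nat_lit 23926095475, nat_lit 23572175959, nat_lit 25114546880, nat_lit 21330898879, nat_lit 20821811617, nat_lit 20485506892, nat_lit 22034161501], nat_lit 1271250, nat_lit 1271250, nat_lit 1271250, nat_lit 1271250,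 nat_lit 0, nat_lit 1836250, [nat_lit 490000, nat_lit 1100000, nat_lit 2127500], [nat_lit 27, nat_lit 40, nat_lit 40, nat_lit 80, nat_lit 13, nat_lit 345, nat_lit 125, nat_lit 9]⟩,
 ⟨nat_lit 3162, nat_lit 4473, ⟨.ofNat (nat_lit 628855), .ofNat (nat_lit 696911), .ofNat (nat_lit 650331), .ofNat (nat_lit 718387), .ofNat (nat_lit 632386), .ofNat (nat_lit 693416), .ofNat (nat_lit 654450), .ofNat (nat_lit 715481)⟩, ⟨.negSucc (nat_lit 12437), .ofNat (nat_lit 429433), .ofNat (nat_lit 0), .ofNat (nat_lit 472567), .ofNat (nat_lit 0), .ofNat (nat_lit 414188), .ofNat (nat_lit 0), .ofNat (nat_lit 458499)⟩⟩, [⟨nat_lit 0, nat_lit 72, nat_lit 61, nat_lit 100, nat_lit 141243472⟩, ⟨nat_lit 4, nat_lit 100, nat_lit 71, nat_lit 71, nat_lit 197371082⟩, ⟨nat_lit 7, nat_lit 100, nat_lit 76, nat_lit 72, nat_lit 157757478⟩]⟩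
noncomputable def p099_l116 : Lf2 := ⟨nat_lit 0, nat_lit 20, [nat_lit 5, nat_lit 5, nat_lit 5, nat_lit 20], false, nat_lit 0, nat_lit 260, nat_lit 0, nat_lit 260, ⟨nat_lit 1000, nat_lit 0, nat_lit 0, nat_lit 0, nat_lit 0, nat_lit 0, nat_lit 0, nat_lit 0, nat_lit 0, nat_lit 0, nat_lit 0, nat_lit 0, nat_lit 0, nat_lit 0, nat_lit 0, nat_lit 0, false, false⟩,
 nat_lit 8345, nat_lit 0, nat_lit 0, nat_lit 0, nat_lit 6258, nat_lit 6258, nat_lit 588, nat_lit 0, nat_lit 0, nat_lit 601, nat_lit 0, nat_lit 0, nat_lit 0, nat_lit 0, nat_lit 0, nat_lit 0, nat_lit 0, nat_lit 0, [],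
 ⟨p099_k0, nat_lit 0, nat_lit 0, nat_lit 443, nat_lit 0, nat_lit 547586, [nat_lit 2032000001, nat_lit 4688000000, nat_lit 9842000000], [], [nat_lit 32185768320, nat_lit 33636832480, nat_lit 38782285048, nat_lit 41556539336, nat_lit 29395889516, nat_lit 30396693970, nat_lit 33280051140, nat_lit 35273865034], nat_lit 1271250, nat_lit 1271250, nat_lit 1271250, nat_lit 1271250, nat_lit 0, nat_lit 1836250, [nat_lit 490000, nat_lit 1100000, nat_lit 2127500], [nat_lit 27, nat_lit 40, nat_lit 40, nat_lit 80, nat_lit 13, nat_lit 401, nat_lit 175, nat_lit 11]⟩, ⟨p099_k0, nat_lit 0, nat_lit 0, nat_lit 443, nat_lit 0, nat_lit 547586, [nat_lit 2032000000, nat_lit 4688000000, nat_lit 9842000000], [], [nat_lit 31925849570, nat_lit 32651381650, nat_lit 38782285048, nat_lit 40169412192, nat_lit 29135970766, nat_lit 29635178031, nat_lit 33280051140, nat_lit 34276958087], nat_lit 1271250, nat_lit 1271250, nat_lit 1271250, nat_lit 1271250,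 nat_lit 0, nat_lit 1836250, [nat_lit 490000, nat_lit 1100000, nat_lit 2127500], [nat_lit 27, nat_lit 40, nat_lit 40, nat_lit 80, nat_lit 13, nat_lit 401, nat_lit 175, nat_lit 11]⟩,
 zbF0, [⟨nat_lit 16, nat_lit 71, nat_lit 100, nat_lit 71, nat_lit 215231901⟩, ⟨nat_lit 7, nat_lit 100, nat_lit 76, nat_lit 72, nat_lit 105132624⟩]⟩
noncomputable def b_V_800_800_10_22 : St := ⟨true, nat_lit 1, nat_lit 2, nat_lit 2, nat_lit 80, nat_lit 320, nat_lit 360, nat_lit 320, nat_lit 340, nat_lit 140, nat_lit 400, nat_lit 40, nat_lit 80, nat_lit 0, nat_lit 260, nat_lit 0, nat_lit 260, nat_lit 80, nat_lit 120, nat_lit 0, nat_lit 0, nat_lit 0, nat_lit 0⟩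
theorem d_V_800_800_10_22 (h : EB TB.env) : Dead b_V_800_800_10_22 := chkB_sound0 h (T :=
(.st (nat_lit 1)
(.spl (nat_lit 2) (nat_lit 240)
(.spl (nat_lit 4) (nat_lit 160)
(.spl (nat_lit 3) (nat_lit 60)
(.trX (nat_lit 19) (nat_lit 81) (nat_lit 100) (nat_lit 72) (nat_lit 232) (.leaf p099_l104))
(.leaf p099_l105))
(.spl (nat_lit 1) (nat_lit 330)
(.spl (nat_lit 0) (nat_lit 340)
(.leaf p099_l106)
(.trZ (nat_lit 0) (nat_lit 81) (nat_lit 72) (nat_lit 100) (nat_lit 168) (.trX (nat_lit 16) (nat_lit 72) (nat_lit 100) (nat_lit 81) (nat_lit 232) (.leaf p099_l107))))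
(.ord (.trZ (nat_lit 0) (nat_lit 77) (nat_lit 77) (nat_lit 100) (nat_lit 168) (.trX (nat_lit 16) (nat_lit 78) (nat_lit 100) (nat_lit 82) (nat_lit 244) (.trX (nat_lit 19) (nat_lit 78) (nat_lit 100) (nat_lit 82) (nat_lit 244) (.leaf p099_l108)))))))
(.spl (nat_lit 3) (nat_lit 60)
(.trX (nat_lit 16) (nat_lit 81) (nat_lit 100) (nat_lit 72) (nat_lit 232) (.trX (nat_lit 19) (nat_lit 81) (nat_lit 100) (nat_lit 72) (nat_lit 232) (.leaf p099_l109)))
(.spl (nat_lit 5) (nat_lit 160)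
(.spl (nat_lit 0) (nat_lit 340)
(.leaf p099_l110)
(.trX (nat_lit 16) (nat_lit 72) (nat_lit 100) (nat_lit 81) (nat_lit 232) (.leaf p099_l111)))
(.spl (nat_lit 0) (nat_lit 340)
(.leaf p099_l112)
(.trX (nat_lit 16) (nat_lit 72) (nat_lit 100) (nat_lit 81) (nat_lit 232) (.leaf p099_l113))))))
(.spl (nat_lit 2) (nat_lit 240)
(.spl (nat_lit 2) (nat_lit 200)
(.leaf p099_l114)
(.leaf p099_l115))
(.leaf p099_l116)))) (by decide +kernel)
noncomputable def p099_l117 : Lf2 := ⟨nat_lit 0, nat_lit 20, [nat_lit 5, nat_lit 5, nat_lit 5, nat_lit 20], false, nat_lit 0, nat_lit 260, nat_lit 0, nat_lit 260, ⟨nat_lit 1000, nat_lit 0, nat_lit 0, nat_lit 0, nat_lit 0, nat_lit 0, nat_lit 0, nat_lit 0, nat_lit 0, nat_lit 0, nat_lit 0, nat_lit 0, nat_lit 0, nat_lit 0, nat_lit 0, nat_lit 0, false, false⟩,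
 nat_lit 0, nat_lit 0, nat_lit 0, nat_lit 5399, nat_lit 8464, nat_lit 8785, nat_lit 0, nat_lit 0, nat_lit 0, nat_lit 0, nat_lit 0, nat_lit 0, nat_lit 0, nat_lit 0, nat_lit 0, nat_lit 0, nat_lit 0, nat_lit 0, [],
 ⟨p099_k9, nat_lit 0, nat_lit 0, nat_lit 225, nat_lit 0, nat_lit 0, [nat_lit 2032000001, nat_lit 6250000000, nat_lit 9842000000], [], [nat_lit 33208775328, nat_lit 37396646000, nat_lit 46062429600, nat_lit 48250586240, nat_lit 29660458416, nat_lit 32347065720, nat_lit 37685650912, nat_lit 39177055264], nat_lit 0, nat_lit 0, nat_lit 0, nat_lit 0, nat_lit 0, nat_lit 0, [], [nat_lit 61, nat_lit 40, nat_lit 40, nat_lit 80, nat_lit 1, nat_lit 401, nat_lit 175, nat_lit 11]⟩, ⟨p099_k9, nat_lit 0, nat_lit 0, nat_lit 222, nat_lit 0, nat_lit 0, [nat_lit 2032000000, nat_lit 6250000000, nat_lit 9842000000], [], [nat_lit 33009194590, nat_lit 35330116545, nat_lit 46424004000, nat_lit 47538989050, nat_lit 29096174603, nat_lit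 30652391994, nat_lit 37560158530, nat_lit 38316276033], nat_lit 0, nat_lit 0, nat_lit 0, nat_lit 0, nat_lit 0, nat_lit 0, [], [nat_lit 61, nat_lit 40, nat_lit 40, nat_lit 80, nat_lit 1, nat_lit 401, nat_lit 175, nat_lit 11]⟩,
 zbF0, [⟨nat_lit 0, nat_lit 76, nat_lit 72, nat_lit 100, nat_lit 79009774⟩, ⟨nat_lit 0, nat_lit 72, nat_lit 61, nat_lit 100, nat_lit 172439544⟩, ⟨nat_lit 4, nat_lit 100, nat_lit 71, nat_lit 71, nat_lit 13977217⟩]⟩
noncomputable def p099_l118 : Lf2 := ⟨nat_lit 0, nat_lit 20, [nat_lit 5, nat_lit 5, nat_lit 5, nat_lit 20], false, nat_lit 0, nat_lit 260, nat_lit 0, nat_lit 260, ⟨nat_lit 1000, nat_lit 0, nat_lit 0, nat_lit 0, nat_lit 0, nat_lit 0, nat_lit 0, nat_lit 0, nat_lit 0, nat_lit 0, nat_lit 0, nat_lit 0, nat_lit 0, nat_lit 0, nat_lit 0, nat_lit 0, false, false⟩,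
 nat_lit 0, nat_lit 0, nat_lit 13118, nat_lit 0, nat_lit 8953, nat_lit 9838, nat_lit 0, nat_lit 0, nat_lit 0, nat_lit 277, nat_lit 0, nat_lit 0, nat_lit 0, nat_lit 0, nat_lit 0, nat_lit 0, nat_lit 0, nat_lit 0, [],
 ⟨p099_k9, nat_lit 0, nat_lit 0, nat_lit 221, nat_lit 0, nat_lit 0, [nat_lit 2032000001, nat_lit 6250000000, nat_lit 9842000000], [], [nat_lit 33080657422, nat_lit 34256537692, nat_lit 46613239200, nat_lit 47176202645, nat_lit 28985327350, nat_lit 29774040107, nat_lit 37494480274, nat_lit 37875264532], nat_lit 0, nat_lit 0, nat_lit 0, nat_lit 0, nat_lit 0, nat_lit 0, [], [nat_lit 61, nat_lit 40, nat_lit 40, nat_lit 80, nat_lit 1, nat_lit 401, nat_lit 175, nat_lit 11]⟩, ⟨p099_k9, nat_lit 0, nat_lit 0, nat_lit 264, nat_lit 0, nat_lit 88734, [nat_lit 2032000000, nat_lit 6250000000, nat_lit 9842000000], [], [nat_lit 38071825476, nat_lit 35490540874, nat_lit 48798251528, nat_lit 49703514820, nat_lit 27084354548,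 nat_lit 27610284011, nat_lit 42637134258, nat_lit 40582495013], nat_lit 1271250, nat_lit 1271250, nat_lit 936251, nat_lit 3113750, nat_lit 0, nat_lit 1836250, [nat_lit 490000, nat_lit 1427500, nat_lit 1271250], [nat_lit 61, nat_lit 40, nat_lit 40, nat_lit 80, nat_lit 1, nat_lit 401, nat_lit 175, nat_lit 11]⟩,
 zbF0, [⟨nat_lit 4, nat_lit 100, nat_lit 79, nat_lit 72, nat_lit 26802685⟩]⟩
noncomputable def p099_l119 : Lf2 := ⟨nat_lit 0, nat_lit 20, [nat_lit 5, nat_lit 5, nat_lit 5, nat_lit 20], false, nat_lit 0, nat_lit 244, nat_lit 0, nat_lit 260, ⟨nat_lit 1000, nat_lit 0, nat_lit 0, nat_lit 0, nat_lit 0, nat_lit 0, nat_lit 0, nat_lit 0, nat_lit 0, nat_lit 0, nat_lit 0, nat_lit 0, nat_lit 0, nat_lit 0, nat_lit 0, nat_lit 0, false, false⟩,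
 nat_lit 0, nat_lit 0, nat_lit 9803, nat_lit 0, nat_lit 8615, nat_lit 7352, nat_lit 0, nat_lit 0, nat_lit 0, nat_lit 356, nat_lit 0, nat_lit 0, nat_lit 0, nat_lit 0, nat_lit 0, nat_lit 0, nat_lit 0, nat_lit 0, [],
 ⟨p099_k10, nat_lit 0, nat_lit 0, nat_lit 222, nat_lit 0, nat_lit 0, [nat_lit 2032000001, nat_lit 6250000000, nat_lit 9842000000], [], [nat_lit 34040167591, nat_lit 35155046387, nat_lit 46784472475, nat_lit 47336428950, nat_lit 29261593752, nat_lit 29863879675, nat_lit 37712996142, nat_lit 38105435222], nat_lit 0, nat_lit 0, nat_lit 0, nat_lit 0, nat_lit 0, nat_lit 0, [], [nat_lit 61, nat_lit 40, nat_lit 40, nat_lit 80, nat_lit 1, nat_lit 401, nat_lit 175, nat_lit 11]⟩, ⟨p099_k9, nat_lit 0, nat_lit 0, nat_lit 328, nat_lit 0, nat_lit 255719, [nat_lit 2032000000, nat_lit 6250000000, nat_lit 9842000000], [], [nat_lit 33343564188, nat_lit 34642750804, nat_lit 41843030112, nat_lit 43359542448, nat_lit 29759889793,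 nat_lit 30584213548, nat_lit 44817053032, nat_lit 41746163068], nat_lit 1271250, nat_lit 1271250, nat_lit 1066650, nat_lit 3146750, nat_lit 0, nat_lit 1836250, [nat_lit 490000, nat_lit 1427500, nat_lit 1271250], [nat_lit 61, nat_lit 40, nat_lit 40, nat_lit 80, nat_lit 1, nat_lit 401, nat_lit 175, nat_lit 11]⟩,
 zbF0, [⟨nat_lit 19, nat_lit 76, nat_lit 100, nat_lit 72, nat_lit 169599847⟩]⟩
noncomputable def p099_l120 : Lf2 := ⟨nat_lit 1, nat_lit 20, [nat_lit 5, nat_lit 5, nat_lit 5, nat_lit 20], false, nat_lit 0, nat_lit 260, nat_lit 0, nat_lit 260, zbN0,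
 nat_lit 0, nat_lit 0, nat_lit 0, nat_lit 0, nat_lit 0, nat_lit 0, nat_lit 0, nat_lit 0, nat_lit 0, nat_lit 0, nat_lit 0, nat_lit 0, nat_lit 0, nat_lit 0, nat_lit 0, nat_lit 0, nat_lit 0, nat_lit 0, [],
 C1.Rw.none, C1.Rw.none,
 zbF0, []⟩
noncomputable def p099_l121 : Lf2 := ⟨nat_lit 0, nat_lit 20, [nat_lit 5, nat_lit 5, nat_lit 5, nat_lit 20], false, nat_lit 0, nat_lit 232, nat_lit 0, nat_lit 260, ⟨nat_lit 1000, nat_lit 0, nat_lit 0, nat_lit 0, nat_lit 0, nat_lit 0, nat_lit 0, nat_lit 0, nat_lit 0, nat_lit 0, nat_lit 0, nat_lit 0, nat_lit 0, nat_lit 0, nat_lit 0, nat_lit 0, false, false⟩,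
 nat_lit 0, nat_lit 0, nat_lit 7498, nat_lit 0, nat_lit 7005, nat_lit 5623, nat_lit 0, nat_lit 0, nat_lit 0, nat_lit 572, nat_lit 0, nat_lit 0, nat_lit 0, nat_lit 0, nat_lit 0, nat_lit 0, nat_lit 0, nat_lit 0, [],
 ⟨p099_k2, nat_lit 0, nat_lit 0, nat_lit 196, nat_lit 0, nat_lit 0, [nat_lit 2032000001, nat_lit 4688000000, nat_lit 7968000000], [], [nat_lit 30151188876, nat_lit 32262447529, nat_lit 42557540360, nat_lit 43823155460, nat_lit 27282635810, nat_lit 28562798551, nat_lit 36021090532, nat_lit 36846031063], nat_lit 0, nat_lit 0, nat_lit 0, nat_lit 0, nat_lit 0, nat_lit 0, [], [nat_lit 34, nat_lit 40, nat_lit 40, nat_lit 80, nat_lit 7, nat_lit 401, nat_lit 175, nat_lit 13]⟩, ⟨p099_k0, nat_lit 0, nat_lit 0, nat_lit 403, nat_lit 0, nat_lit 440731, [nat_lit 2032000000, nat_lit 4688000000, nat_lit 9842000000], [], [nat_lit 31728630041, nat_lit 32668098185, nat_lit 37780402768, nat_lit 38318624862, nat_lit 34257752056,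 nat_lit 31797456202, nat_lit 34247380730, nat_lit 34728027248], nat_lit 1271250, nat_lit 1271250, nat_lit 1271250, nat_lit 1271250, nat_lit 0, nat_lit 1836250, [nat_lit 490000, nat_lit 1100000, nat_lit 2127500], [nat_lit 27, nat_lit 40, nat_lit 40, nat_lit 80, nat_lit 13, nat_lit 401, nat_lit 175, nat_lit 11]⟩,
 zbF0, [⟨nat_lit 0, nat_lit 76, nat_lit 66, nat_lit 100, nat_lit 74602909⟩, ⟨nat_lit 4, nat_lit 100, nat_lit 66, nat_lit 72, nat_lit 177339403⟩, ⟨nat_lit 19, nat_lit 76, nat_lit 100, nat_lit 72, nat_lit 333850830⟩]⟩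
noncomputable def p099_l122 : Lf2 := ⟨nat_lit 0, nat_lit 20, [nat_lit 5, nat_lit 5, nat_lit 5, nat_lit 20], false, nat_lit 0, nat_lit 260, nat_lit 0, nat_lit 260, ⟨nat_lit 1000, nat_lit 0, nat_lit 0, nat_lit 0, nat_lit 0, nat_lit 0, nat_lit 0, nat_lit 0, nat_lit 0, nat_lit 0, nat_lit 0, nat_lit 0, nat_lit 0, nat_lit 0, nat_lit 0, nat_lit 0, false, false⟩,
 nat_lit 0, nat_lit 0, nat_lit 0, nat_lit 5399, nat_lit 8388, nat_lit 8658, nat_lit 0, nat_lit 0, nat_lit 0, nat_lit 0, nat_lit 0, nat_lit 0, nat_lit 0, nat_lit 0, nat_lit 0, nat_lit 0, nat_lit 0, nat_lit 0, [],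
 ⟨p099_k0, nat_lit 0, nat_lit 0, nat_lit 215, nat_lit 0, nat_lit 0, [nat_lit 2032000001, nat_lit 4688000000, nat_lit 9842000000], [], [nat_lit 32840321112, nat_lit 37336416000, nat_lit 45976823200, nat_lit 48155080080, nat_lit 29349215600, nat_lit 32379219990, nat_lit 37715362504, nat_lit 39201834988], nat_lit 0, nat_lit 0, nat_lit 0, nat_lit 0, nat_lit 0, nat_lit 0, [], [nat_lit 27, nat_lit 40, nat_lit 40, nat_lit 80, nat_lit 13, nat_lit 401, nat_lit 175, nat_lit 11]⟩, ⟨p099_k0, nat_lit 0, nat_lit 0, nat_lit 212, nat_lit 0, nat_lit 0, [nat_lit 2032000000, nat_lit 4688000000, nat_lit 9842000000], [], [nat_lit 32955172092, nat_lit 35252781546, nat_lit 46280951200, nat_lit 47387664740, nat_lit 29175322100, nat_lit 30720154908, nat_lit 37609808164, nat_lit 38361804961], nat_lit 0, nat_lit 0, nat_lit 0, nat_lit 0, nat_lit 0, nat_lit 0, [], [nat_lit 27, nat_lit 40, nat_lit 40, nat_lit 80, nat_lit 13, nat_lit 401, nat_lit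 175, nat_lit 11]⟩,
 zbF0, [⟨nat_lit 0, nat_lit 72, nat_lit 61, nat_lit 100, nat_lit 286049715⟩, ⟨nat_lit 4, nat_lit 100, nat_lit 71, nat_lit 71, nat_lit 13977217⟩]⟩
noncomputable def p099_l123 : Lf2 := ⟨nat_lit 0, nat_lit 20, [nat_lit 5, nat_lit 5, nat_lit 5, nat_lit 20], true, nat_lit 0, nat_lit 260, nat_lit 0, nat_lit 260, ⟨nat_lit 0, nat_lit 1000, nat_lit 0, nat_lit 8, nat_lit 250, nat_lit 1000, nat_lit 89, nat_lit 0, nat_lit 0, nat_lit 0, nat_lit 0, nat_lit 0, nat_lit 0, nat_lit 0, nat_lit 0, nat_lit 5000000, false, false⟩,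
 nat_lit 0, nat_lit 0, nat_lit 0, nat_lit 4889, nat_lit 6705, nat_lit 0, nat_lit 0, nat_lit 0, nat_lit 0, nat_lit 0, nat_lit 0, nat_lit 0, nat_lit 0, nat_lit 0, nat_lit 0, nat_lit 250000, nat_lit 0, nat_lit 0, [(nat_lit 19, [(nat_lit 0, nat_lit 1000)]), (nat_lit 22, [(nat_lit 0, nat_lit 1000)])],
 ⟨p099_k0, nat_lit 0, nat_lit 0, nat_lit 193, nat_lit 0, nat_lit 0, [nat_lit 1568000001, nat_lit 2368400000, nat_lit 3220880000], [], [nat_lit 25503296670, nat_lit 29381518500, nat_lit 27883612240, nat_lit 31079970700, nat_lit 23812031750, nat_lit 26470147838, nat_lit 25155402475, nat_lit 27361048030], nat_lit 0, nat_lit 0, nat_lit 0, nat_lit 0, nat_lit 0, nat_lit 0, [], [nat_lit 27, nat_lit 40, nat_lit 40, nat_lit 80, nat_lit 13, nat_lit 345, nat_lit 125, nat_lit 10]⟩, C1.Rw.none,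
 ⟨nat_lit 3162, nat_lit 4473, ⟨.ofNat (nat_lit 526772), .ofNat (nat_lit 696911), .ofNat (nat_lit 548248), .ofNat (nat_lit 718387), .ofNat (nat_lit 540839), .ofNat (nat_lit 693416), .ofNat (nat_lit 562904), .ofNat (nat_lit 715481)⟩, ⟨.negSucc (nat_lit 12437), .ofNat (nat_lit 429433), .ofNat (nat_lit 0), .ofNat (nat_lit 472567), .ofNat (nat_lit 0), .ofNat (nat_lit 414188), .ofNat (nat_lit 0), .ofNat (nat_lit 458499)⟩⟩, []⟩
noncomputable def p099_l124 : Lf2 := ⟨nat_lit 0, nat_lit 20, [nat_lit 5, nat_lit 5, nat_lit 5, nat_lit 20], false, nat_lit 0, nat_lit 260, nat_lit 0, nat_lit 260, ⟨nat_lit 1000, nat_lit 0, nat_lit 0, nat_lit 0, nat_lit 0, nat_lit 0, nat_lit 0, nat_lit 0, nat_lit 0, nat_lit 0, nat_lit 0, nat_lit 0, nat_lit 0, nat_lit 0, nat_lit 0, nat_lit 0, false, false⟩,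
 nat_lit 0, nat_lit 0, nat_lit 7173, nat_lit 0, nat_lit 6476, nat_lit 5379, nat_lit 0, nat_lit 0, nat_lit 0, nat_lit 647, nat_lit 0, nat_lit 0, nat_lit 0, nat_lit 0, nat_lit 0, nat_lit 0, nat_lit 0, nat_lit 0, [],
 ⟨p099_k0, nat_lit 0, nat_lit 0, nat_lit 215, nat_lit 0, nat_lit 0, [nat_lit 2032000001, nat_lit 4688000000, nat_lit 9842000000], [], [nat_lit 34413744128, nat_lit 37545155440, nat_lit 43823146400, nat_lit 45752346160, nat_lit 32291587284, nat_lit 34122490320, nat_lit 38462843608, nat_lit 39825240676], nat_lit 0, nat_lit 0, nat_lit 0, nat_lit 0, nat_lit 0, nat_lit 0, [], [nat_lit 27, nat_lit 40, nat_lit 40, nat_lit 80, nat_lit 13, nat_lit 401, nat_lit 175, nat_lit 11]⟩, ⟨p099_k0, nat_lit 0, nat_lit 0, nat_lit 396, nat_lit 0, nat_lit 440731, [nat_lit 2032000000, nat_lit 4688000000, nat_lit 9842000000], [], [nat_lit 31697177566, nat_lit 32506841724, nat_lit 36937028343, nat_lit 37608222287, nat_lit 29865521658,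 nat_lit 30438615433, nat_lit 34517877418, nat_lit 35117856363], nat_lit 1271250, nat_lit 1271250, nat_lit 1271250, nat_lit 1271250, nat_lit 0, nat_lit 1836250, [nat_lit 490000, nat_lit 1100000, nat_lit 2127500], [nat_lit 27, nat_lit 40, nat_lit 40, nat_lit 80, nat_lit 13, nat_lit 401, nat_lit 175, nat_lit 11]⟩,
 zbF0, [⟨nat_lit 4, nat_lit 100, nat_lit 71, nat_lit 71, nat_lit 196430402⟩, ⟨nat_lit 19, nat_lit 76, nat_lit 100, nat_lit 72, nat_lit 224743970⟩]⟩
noncomputable def p099_l125 : Lf2 := ⟨nat_lit 0, nat_lit 20, [nat_lit 5, nat_lit 5, nat_lit 5, nat_lit 20], false, nat_lit 0, nat_lit 260, nat_lit 0, nat_lit 260, ⟨nat_lit 1000, nat_lit 0, nat_lit 0, nat_lit 0, nat_lit 0, nat_lit 0, nat_lit 0, nat_lit 0, nat_lit 0, nat_lit 0, nat_lit 0, nat_lit 0, nat_lit 0, nat_lit 0, nat_lit 0, nat_lit 0, false, false⟩,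
 nat_lit 0, nat_lit 10871, nat_lit 0, nat_lit 0, nat_lit 8153, nat_lit 11297, nat_lit 376, nat_lit 0, nat_lit 0, nat_lit 0, nat_lit 0, nat_lit 0, nat_lit 0, nat_lit 0, nat_lit 0, nat_lit 0, nat_lit 0, nat_lit 0, [],
 ⟨p099_k9, nat_lit 0, nat_lit 0, nat_lit 427, nat_lit 0, nat_lit 430434, [nat_lit 2032000001, nat_lit 6250000000, nat_lit 9842000000], [], [nat_lit 33015573766, nat_lit 35346444812, nat_lit 33518244496, nat_lit 35803754568, nat_lit 28471196250, nat_lit 29938922596, nat_lit 33811171038, nat_lit 29723488039], nat_lit 1271250, nat_lit 1271250, nat_lit 936251, nat_lit 1773750, nat_lit 0, nat_lit 1836250, [nat_lit 490000, nat_lit 1427500, nat_lit 1271250], [nat_lit 61, nat_lit 40, nat_lit 40, nat_lit 80, nat_lit 1, nat_lit 345, nat_lit 125, nat_lit 10]⟩, ⟨p099_k9, nat_lit 0, nat_lit 0, nat_lit 191, nat_lit 0, nat_lit 0, [nat_lit 2032000000, nat_lit 6250000000, nat_lit 9842000000], [], [nat_lit 34077734078,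 nat_lit 36859766289, nat_lit 36329262416, nat_lit 38578614798, nat_lit 27475674150, nat_lit 29312073574, nat_lit 28209433915, nat_lit 29694244509], nat_lit 0, nat_lit 0, nat_lit 0, nat_lit 0, nat_lit 0, nat_lit 0, [], [nat_lit 61, nat_lit 40, nat_lit 40, nat_lit 80, nat_lit 1, nat_lit 345, nat_lit 125, nat_lit 10]⟩,
 zbF0, [⟨nat_lit 0, nat_lit 76, nat_lit 72, nat_lit 100, nat_lit 745515543⟩, ⟨nat_lit 4, nat_lit 100, nat_lit 71, nat_lit 71, nat_lit 132672626⟩]⟩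
noncomputable def p099_l126 : Lf2 := ⟨nat_lit 0, nat_lit 20, [nat_lit 5, nat_lit 5, nat_lit 5, nat_lit 20], false, nat_lit 0, nat_lit 260, nat_lit 0, nat_lit 260, ⟨nat_lit 1000, nat_lit 0, nat_lit 0, nat_lit 0, nat_lit 0, nat_lit 0, nat_lit 0, nat_lit 0, nat_lit 0, nat_lit 0, nat_lit 0, nat_lit 0, nat_lit 0, nat_lit 0, nat_lit 0, nat_lit 0, false, false⟩,
 nat_lit 0, nat_lit 8507, nat_lit 0, nat_lit 0, nat_lit 6380, nat_lit 8785, nat_lit 432, nat_lit 0, nat_lit 0, nat_lit 0, nat_lit 0, nat_lit 0, nat_lit 0, nat_lit 0, nat_lit 0, nat_lit 0, nat_lit 0, nat_lit 0, [],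
 ⟨p099_k9, nat_lit 0, nat_lit 0, nat_lit 385, nat_lit 0, nat_lit 430434, [nat_lit 2032000001, nat_lit 6250000000, nat_lit 9842000000], [], [nat_lit 35802900160, nat_lit 37421571520, nat_lit 40702883360, nat_lit 41933113040, nat_lit 32612194560, nat_lit 33728068140, nat_lit 36598787020, nat_lit 37612661620], nat_lit 1271250, nat_lit 1271250, nat_lit 1271250, nat_lit 1271250, nat_lit 0, nat_lit 1836250, [nat_lit 490000, nat_lit 1427500, nat_lit 1271250], [nat_lit 61, nat_lit 40, nat_lit 40, nat_lit 80, nat_lit 1, nat_lit 401, nat_lit 175, nat_lit 11]⟩, ⟨p099_k9, nat_lit 0, nat_lit 0, nat_lit 222, nat_lit 0, nat_lit 0, [nat_lit 2032000000, nat_lit 6250000000, nat_lit 9842000000], [], [nat_lit 35331174480, nat_lit 37224310190, nat_lit 46424004000, nat_lit 47538989050, nat_lit 30160768075, nat_lit 31436616693, nat_lit 37560158530, nat_lit 38316276033], nat_lit 0, nat_lit 0, nat_lit 0, nat_lit 0, nat_lit 0, nat_lit 0,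 [], [nat_lit 61, nat_lit 40, nat_lit 40, nat_lit 80, nat_lit 1, nat_lit 401, nat_lit 175, nat_lit 11]⟩,
 zbF0, [⟨nat_lit 4, nat_lit 100, nat_lit 71, nat_lit 71, nat_lit 198052735⟩, ⟨nat_lit 7, nat_lit 100, nat_lit 76, nat_lit 72, nat_lit 29541814⟩]⟩
noncomputable def p099_l127 : Lf2 := ⟨nat_lit 0, nat_lit 20, [nat_lit 5, nat_lit 5, nat_lit 5, nat_lit 20], false, nat_lit 0, nat_lit 260, nat_lit 0, nat_lit 260, ⟨nat_lit 1000, nat_lit 0, nat_lit 0, nat_lit 0, nat_lit 0, nat_lit 0, nat_lit 0, nat_lit 0, nat_lit 0, nat_lit 0, nat_lit 0, nat_lit 0, nat_lit 0, nat_lit 0, nat_lit 0, nat_lit 0, false, false⟩,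
 nat_lit 15334, nat_lit 0, nat_lit 0, nat_lit 0, nat_lit 10758, nat_lit 11500, nat_lit 188, nat_lit 0, nat_lit 0, nat_lit 126, nat_lit 0, nat_lit 0, nat_lit 0, nat_lit 0, nat_lit 0, nat_lit 0, nat_lit 0, nat_lit 0, [],
 ⟨p099_k9, nat_lit 0, nat_lit 0, nat_lit 332, nat_lit 0, nat_lit 255377, [nat_lit 2032000001, nat_lit 6250000000, nat_lit 9842000000], [], [nat_lit 34738304552, nat_lit 38102997232, nat_lit 35305319496, nat_lit 38555678020, nat_lit 27278200618, nat_lit 29486489809, nat_lit 30070987583, nat_lit 29665520280], nat_lit 1271250, nat_lit 1271250, nat_lit 936251, nat_lit 1773750, nat_lit 0, nat_lit 1836250, [nat_lit 490000, nat_lit 1427500, nat_lit 1271250], [nat_lit 61, nat_lit 40, nat_lit 40, nat_lit 80, nat_lit 1, nat_lit 345, nat_lit 125, nat_lit 10]⟩, ⟨p099_k9, nat_lit 0, nat_lit 0, nat_lit 325, nat_lit 0, nat_lit 255377, [nat_lit 2032000000, nat_lit 6250000000, nat_lit 9842000000], [], [nat_lit 35542305500,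 nat_lit 37300877500, nat_lit 35996809500, nat_lit 37416481500, nat_lit 27236304500, nat_lit 28382618625, nat_lit 29005645500, nat_lit 28276508500], nat_lit 1271250, nat_lit 1271250, nat_lit 936251, nat_lit 1773750, nat_lit 0, nat_lit 1836250, [nat_lit 490000, nat_lit 1427500, nat_lit 1271250], [nat_lit 61, nat_lit 40, nat_lit 40, nat_lit 80, nat_lit 1, nat_lit 345, nat_lit 125, nat_lit 10]⟩,
 zbF0, [⟨nat_lit 0, nat_lit 72, nat_lit 61, nat_lit 100, nat_lit 989689258⟩]⟩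
noncomputable def p099_l128 : Lf2 := ⟨nat_lit 0, nat_lit 20, [nat_lit 5, nat_lit 5, nat_lit 5, nat_lit 20], false, nat_lit 0, nat_lit 260, nat_lit 0, nat_lit 260, ⟨nat_lit 1000, nat_lit 0, nat_lit 0, nat_lit 0, nat_lit 0, nat_lit 0, nat_lit 0, nat_lit 0, nat_lit 0, nat_lit 0, nat_lit 0, nat_lit 0, nat_lit 0, nat_lit 0, nat_lit 0, nat_lit 0, false, false⟩,
 nat_lit 9659, nat_lit 0, nat_lit 0, nat_lit 0, nat_lit 7244, nat_lit 7244, nat_lit 423, nat_lit 0, nat_lit 0, nat_lit 341, nat_lit 0, nat_lit 0, nat_lit 0, nat_lit 0, nat_lit 0, nat_lit 0, nat_lit 0, nat_lit 0, [],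
 ⟨p099_k9, nat_lit 0, nat_lit 0, nat_lit 330, nat_lit 0, nat_lit 255377, [nat_lit 2032000001, nat_lit 6250000000, nat_lit 9842000000], [], [nat_lit 34318863358, nat_lit 36026243326, nat_lit 41540872464, nat_lit 44548351248, nat_lit 30120932478, nat_lit 31274079882, nat_lit 34395049520, nat_lit 36529016412], nat_lit 1271250, nat_lit 1271250, nat_lit 1271250, nat_lit 1271250, nat_lit 0, nat_lit 1836250, [nat_lit 490000, nat_lit 1427500, nat_lit 1271250], [nat_lit 61, nat_lit 40, nat_lit 40, nat_lit 80, nat_lit 1, nat_lit 401, nat_lit 175, nat_lit 11]⟩, ⟨p099_k9, nat_lit 0, nat_lit 0, nat_lit 328, nat_lit 0, nat_lit 255377, [nat_lit 2032000000, nat_lit 6250000000, nat_lit 9842000000], [], [nat_lit 34880772378, nat_lit 35973277146, nat_lit 41540872464, nat_lit 43044611856, nat_lit 30715815233, nat_lit 31409987449, nat_lit 34969702590, nat_lit 35462032966], nat_lit 1271250, nat_lit 1271250, nat_lit 1271250, nat_lit 1271250,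 nat_lit 0, nat_lit 1836250, [nat_lit 490000, nat_lit 1427500, nat_lit 1271250], [nat_lit 61, nat_lit 40, nat_lit 40, nat_lit 80, nat_lit 1, nat_lit 401, nat_lit 175, nat_lit 11]⟩,
 zbF0, [⟨nat_lit 4, nat_lit 100, nat_lit 71, nat_lit 71, nat_lit 157673979⟩, ⟨nat_lit 7, nat_lit 100, nat_lit 76, nat_lit 72, nat_lit 45780108⟩]⟩
noncomputable def p099_l129 : Lf2 := ⟨nat_lit 0, nat_lit 20, [nat_lit 5, nat_lit 5, nat_lit 5, nat_lit 20], false, nat_lit 0, nat_lit 260, nat_lit 0, nat_lit 260, ⟨nat_lit 1000, nat_lit 0, nat_lit 0, nat_lit 0, nat_lit 0, nat_lit 0, nat_lit 0, nat_lit 0, nat_lit 0, nat_lit 0, nat_lit 0, nat_lit 0, nat_lit 0, nat_lit 0, nat_lit 0, nat_lit 0, false, false⟩,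
 nat_lit 0, nat_lit 10871, nat_lit 0, nat_lit 0, nat_lit 8153, nat_lit 11297, nat_lit 376, nat_lit 0, nat_lit 0, nat_lit 0, nat_lit 0, nat_lit 0, nat_lit 0, nat_lit 0, nat_lit 0, nat_lit 0, nat_lit 0, nat_lit 0, [],
 ⟨p099_k9, nat_lit 0, nat_lit 0, nat_lit 427, nat_lit 0, nat_lit 430434, [nat_lit 2032000001, nat_lit 6250000000, nat_lit 9842000000], [], [nat_lit 33015573766, nat_lit 35346444812, nat_lit 33518244496, nat_lit 35803754568, nat_lit 28471196250, nat_lit 29938922596, nat_lit 33811171038, nat_lit 29723488039], nat_lit 1271250, nat_lit 1271250, nat_lit 936251, nat_lit 1773750, nat_lit 0, nat_lit 1836250, [nat_lit 490000, nat_lit 1427500, nat_lit 1271250], [nat_lit 61, nat_lit 40, nat_lit 40, nat_lit 80, nat_lit 1, nat_lit 345, nat_lit 125, nat_lit 10]⟩, ⟨p099_k9, nat_lit 0, nat_lit 0, nat_lit 191, nat_lit 0, nat_lit 0, [nat_lit 2032000000, nat_lit 6250000000, nat_lit 9842000000], [], [nat_lit 34077734078,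 nat_lit 36859766289, nat_lit 36329262416, nat_lit 38578614798, nat_lit 27475674150, nat_lit 29312073574, nat_lit 28209433915, nat_lit 29694244509], nat_lit 0, nat_lit 0, nat_lit 0, nat_lit 0, nat_lit 0, nat_lit 0, [], [nat_lit 61, nat_lit 40, nat_lit 40, nat_lit 80, nat_lit 1, nat_lit 345, nat_lit 125, nat_lit 10]⟩,
 zbF0, [⟨nat_lit 0, nat_lit 76, nat_lit 72, nat_lit 100, nat_lit 745515543⟩, ⟨nat_lit 16, nat_lit 71, nat_lit 100, nat_lit 71, nat_lit 132672626⟩]⟩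
noncomputable def p099_l130 : Lf2 := ⟨nat_lit 0, nat_lit 20, [nat_lit 5, nat_lit 5, nat_lit 5, nat_lit 20], false, nat_lit 0, nat_lit 260, nat_lit 0, nat_lit 260, ⟨nat_lit 1000, nat_lit 0, nat_lit 0, nat_lit 0, nat_lit 0, nat_lit 0, nat_lit 0, nat_lit 0, nat_lit 0, nat_lit 0, nat_lit 0, nat_lit 0, nat_lit 0, nat_lit 0, nat_lit 0, nat_lit 0, false, false⟩,
 nat_lit 0, nat_lit 8507, nat_lit 0, nat_lit 0, nat_lit 6380, nat_lit 8785, nat_lit 432, nat_lit 0, nat_lit 0, nat_lit 0, nat_lit 0, nat_lit 0, nat_lit 0, nat_lit 0, nat_lit 0, nat_lit 0, nat_lit 0, nat_lit 0, [],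
 ⟨p099_k9, nat_lit 0, nat_lit 0, nat_lit 385, nat_lit 0, nat_lit 430434, [nat_lit 2032000001, nat_lit 6250000000, nat_lit 9842000000], [], [nat_lit 35802900160, nat_lit 37421571520, nat_lit 40702883360, nat_lit 41933113040, nat_lit 32612194560, nat_lit 33728068140, nat_lit 36598787020, nat_lit 37612661620], nat_lit 1271250, nat_lit 1271250, nat_lit 1271250, nat_lit 1271250, nat_lit 0, nat_lit 1836250, [nat_lit 490000, nat_lit 1427500, nat_lit 1271250], [nat_lit 61, nat_lit 40, nat_lit 40, nat_lit 80, nat_lit 1, nat_lit 401, nat_lit 175, nat_lit 11]⟩, ⟨p099_k9, nat_lit 0, nat_lit 0, nat_lit 222, nat_lit 0, nat_lit 0, [nat_lit 2032000000, nat_lit 6250000000, nat_lit 9842000000], [], [nat_lit 35331174480, nat_lit 37224310190, nat_lit 46424004000, nat_lit 47538989050, nat_lit 30160768075, nat_lit 31436616693, nat_lit 37560158530, nat_lit 38316276033], nat_lit 0, nat_lit 0, nat_lit 0, nat_lit 0, nat_lit 0, nat_lit 0,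 [], [nat_lit 61, nat_lit 40, nat_lit 40, nat_lit 80, nat_lit 1, nat_lit 401, nat_lit 175, nat_lit 11]⟩,
 zbF0, [⟨nat_lit 4, nat_lit 100, nat_lit 71, nat_lit 71, nat_lit 198052735⟩, ⟨nat_lit 19, nat_lit 76, nat_lit 100, nat_lit 72, nat_lit 29541814⟩]⟩
noncomputable def p099_l131 : Lf2 := ⟨nat_lit 0, nat_lit 20, [nat_lit 5, nat_lit 5, nat_lit 5, nat_lit 20], false, nat_lit 0, nat_lit 260, nat_lit 0, nat_lit 260, ⟨nat_lit 1000, nat_lit 0, nat_lit 0, nat_lit 0, nat_lit 0, nat_lit 0, nat_lit 0, nat_lit 0, nat_lit 0, nat_lit 0, nat_lit 0, nat_lit 0, nat_lit 0, nat_lit 0, nat_lit 0, nat_lit 0, false, false⟩,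
 nat_lit 15334, nat_lit 0, nat_lit 0, nat_lit 0, nat_lit 10758, nat_lit 11500, nat_lit 188, nat_lit 0, nat_lit 0, nat_lit 126, nat_lit 0, nat_lit 0, nat_lit 0, nat_lit 0, nat_lit 0, nat_lit 0, nat_lit 0, nat_lit 0, [],
 ⟨p099_k9, nat_lit 0, nat_lit 0, nat_lit 332, nat_lit 0, nat_lit 255377, [nat_lit 2032000001, nat_lit 6250000000, nat_lit 9842000000], [], [nat_lit 34738304552, nat_lit 38102997232, nat_lit 35305319496, nat_lit 38555678020, nat_lit 27278200618, nat_lit 29486489809, nat_lit 30070987583, nat_lit 29665520280], nat_lit 1271250, nat_lit 1271250, nat_lit 936251, nat_lit 1773750, nat_lit 0, nat_lit 1836250, [nat_lit 490000, nat_lit 1427500, nat_lit 1271250], [nat_lit 61, nat_lit 40, nat_lit 40, nat_lit 80, nat_lit 1, nat_lit 345, nat_lit 125, nat_lit 10]⟩, ⟨p099_k9, nat_lit 0, nat_lit 0, nat_lit 325, nat_lit 0, nat_lit 255377, [nat_lit 2032000000, nat_lit 6250000000, nat_lit 9842000000], [], [nat_lit 35542305500,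 nat_lit 37300877500, nat_lit 35996809500, nat_lit 37416481500, nat_lit 27236304500, nat_lit 28382618625, nat_lit 29005645500, nat_lit 28276508500], nat_lit 1271250, nat_lit 1271250, nat_lit 936251, nat_lit 1773750, nat_lit 0, nat_lit 1836250, [nat_lit 490000, nat_lit 1427500, nat_lit 1271250], [nat_lit 61, nat_lit 40, nat_lit 40, nat_lit 80, nat_lit 1, nat_lit 345, nat_lit 125, nat_lit 10]⟩,
 zbF0, [⟨nat_lit 0, nat_lit 72, nat_lit 61, nat_lit 100, nat_lit 989689258⟩]⟩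
noncomputable def p099_l132 : Lf2 := ⟨nat_lit 0, nat_lit 20, [nat_lit 5, nat_lit 5, nat_lit 5, nat_lit 20], false, nat_lit 0, nat_lit 260, nat_lit 0, nat_lit 260, ⟨nat_lit 1000, nat_lit 0, nat_lit 0, nat_lit 0, nat_lit 0, nat_lit 0, nat_lit 0, nat_lit 0, nat_lit 0, nat_lit 0, nat_lit 0, nat_lit 0, nat_lit 0, nat_lit 0, nat_lit 0, nat_lit 0, false, false⟩,
 nat_lit 9659, nat_lit 0, nat_lit 0, nat_lit 0, nat_lit 7244, nat_lit 7244, nat_lit 423, nat_lit 0, nat_lit 0, nat_lit 341, nat_lit 0, nat_lit 0, nat_lit 0, nat_lit 0, nat_lit 0, nat_lit 0, nat_lit 0, nat_lit 0, [],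
 ⟨p099_k9, nat_lit 0, nat_lit 0, nat_lit 330, nat_lit 0, nat_lit 255377, [nat_lit 2032000001, nat_lit 6250000000, nat_lit 9842000000], [], [nat_lit 34318863358, nat_lit 36026243326, nat_lit 41540872464, nat_lit 44548351248, nat_lit 30120932478, nat_lit 31274079882, nat_lit 34395049520, nat_lit 36529016412], nat_lit 1271250, nat_lit 1271250, nat_lit 1271250, nat_lit 1271250, nat_lit 0, nat_lit 1836250, [nat_lit 490000, nat_lit 1427500, nat_lit 1271250], [nat_lit 61, nat_lit 40, nat_lit 40, nat_lit 80, nat_lit 1, nat_lit 401, nat_lit 175, nat_lit 11]⟩, ⟨p099_k9, nat_lit 0, nat_lit 0, nat_lit 328, nat_lit 0, nat_lit 255377, [nat_lit 2032000000, nat_lit 6250000000, nat_lit 9842000000], [], [nat_lit 34880772378, nat_lit 35973277146, nat_lit 41540872464, nat_lit 43044611856, nat_lit 30715815233, nat_lit 31409987449, nat_lit 34969702590, nat_lit 35462032966], nat_lit 1271250, nat_lit 1271250, nat_lit 1271250, nat_lit 1271250,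 nat_lit 0, nat_lit 1836250, [nat_lit 490000, nat_lit 1427500, nat_lit 1271250], [nat_lit 61, nat_lit 40, nat_lit 40, nat_lit 80, nat_lit 1, nat_lit 401, nat_lit 175, nat_lit 11]⟩,
 zbF0, [⟨nat_lit 4, nat_lit 100, nat_lit 71, nat_lit 71, nat_lit 157673979⟩, ⟨nat_lit 19, nat_lit 76, nat_lit 100, nat_lit 72, nat_lit 45780108⟩]⟩
noncomputable def p099_l133 : Lf2 := ⟨nat_lit 0, nat_lit 20, [nat_lit 5, nat_lit 5, nat_lit 5, nat_lit 20], false, nat_lit 0, nat_lit 260, nat_lit 0, nat_lit 260, ⟨nat_lit 1000, nat_lit 0, nat_lit 0, nat_lit 0, nat_lit 0, nat_lit 0, nat_lit 0, nat_lit 0, nat_lit 0, nat_lit 0, nat_lit 0, nat_lit 0, nat_lit 0, nat_lit 0, nat_lit 0, nat_lit 0, false, false⟩,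
 nat_lit 0, nat_lit 11639, nat_lit 11301, nat_lit 0, nat_lit 8729, nat_lit 8475, nat_lit 0, nat_lit 0, nat_lit 0, nat_lit 0, nat_lit 0, nat_lit 0, nat_lit 0, nat_lit 0, nat_lit 0, nat_lit 0, nat_lit 0, nat_lit 0, [],
 ⟨p099_k9, nat_lit 0, nat_lit 0, nat_lit 246, nat_lit 0, nat_lit 60637, [nat_lit 2032000001, nat_lit 6250000000, nat_lit 9842000000], [], [nat_lit 39786633176, nat_lit 42734447516, nat_lit 47628913172, nat_lit 49055072340, nat_lit 34639635909, nat_lit 36617299830, nat_lit 43117784842, nat_lit 40052893238], nat_lit 1271250, nat_lit 1271250, nat_lit 936251, nat_lit 3113750, nat_lit 0, nat_lit 1836250, [nat_lit 490000, nat_lit 1427500, nat_lit 1271250], [nat_lit 61, nat_lit 40, nat_lit 40, nat_lit 80, nat_lit 1, nat_lit 401, nat_lit 175, nat_lit 11]⟩, ⟨p099_k9, nat_lit 0, nat_lit 0, nat_lit 239, nat_lit 0, nat_lit 62073, [nat_lit 2032000000, nat_lit 6250000000, nat_lit 9842000000], [], [nat_lit 36715501450,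 nat_lit 35141346075, nat_lit 46074820000, nat_lit 47169614750, nat_lit 29641121588, nat_lit 30818929038, nat_lit 43227870725, nat_lit 39687909838], nat_lit 1271250, nat_lit 1271250, nat_lit 936251, nat_lit 3113750, nat_lit 0, nat_lit 1836250, [nat_lit 490000, nat_lit 1427500, nat_lit 1271250], [nat_lit 61, nat_lit 40, nat_lit 40, nat_lit 80, nat_lit 1, nat_lit 401, nat_lit 175, nat_lit 11]⟩,
 zbF0, [⟨nat_lit 0, nat_lit 72, nat_lit 61, nat_lit 100, nat_lit 215981338⟩, ⟨nat_lit 16, nat_lit 71, nat_lit 100, nat_lit 71, nat_lit 105598050⟩, ⟨nat_lit 7, nat_lit 100, nat_lit 76, nat_lit 72, nat_lit 100222210⟩]⟩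
noncomputable def b_V_800_800_10_23 : St := ⟨true, nat_lit 2, nat_lit 2, nat_lit 0, nat_lit 80, nat_lit 320, nat_lit 360, nat_lit 320, nat_lit 340, nat_lit 140, nat_lit 400, nat_lit 40, nat_lit 80, nat_lit 0, nat_lit 260, nat_lit 0, nat_lit 260, nat_lit 120, nat_lit 168, nat_lit 0, nat_lit 0, nat_lit 0, nat_lit 0⟩
theorem d_V_800_800_10_23 (h : EB TB.env) : Dead b_V_800_800_10_23 := chkB_sound0 h (T :=
(.spl (nat_lit 6) (nat_lit 160)
(.st (nat_lit 0)
(.gv
(.st (nat_lit 1)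
(.leaf p099_l117)
(.spl (nat_lit 0) (nat_lit 340)
(.spl (nat_lit 6) (nat_lit 152)
(.spl (nat_lit 0) (nat_lit 330)
(.ord (.leaf p099_l118))
(.trZ (nat_lit 0) (nat_lit 82) (nat_lit 78) (nat_lit 100) (nat_lit 156) (.trX (nat_lit 16) (nat_lit 78) (nat_lit 100) (nat_lit 82) (nat_lit 244) (.leaf p099_l119))))
(.leaf p099_l120))
(.trZ (nat_lit 0) (nat_lit 81) (nat_lit 72) (nat_lit 100) (nat_lit 168) (.trX (nat_lit 16) (nat_lit 72) (nat_lit 100) (nat_lit 81) (nat_lit 232) (.leaf p099_l121)))))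
(.st (nat_lit 1)
(.leaf p099_l122)
(.spl (nat_lit 2) (nat_lit 240)
(.leaf p099_l123)
(.leaf p099_l124))))
(.gv
(.st (nat_lit 1)
(.spl (nat_lit 2) (nat_lit 240)
(.leaf p099_l125)
(.leaf p099_l126))
(.spl (nat_lit 2) (nat_lit 240)
(.leaf p099_l127)
(.leaf p099_l128)))
(.st (nat_lit 1)
(.spl (nat_lit 2) (nat_lit 240)
(.leaf p099_l129)
(.leaf p099_l130))
(.spl (nat_lit 2) (nat_lit 240)
(.leaf p099_l131)
(.leaf p099_l132)))))
(.leaf p099_l133))) (by decide +kernel)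

end B2
end Pool.Agent.Lib.MP_6947cd_al
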