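import Pool.Agent.Lib.MP_6947cd_al.ZB.Pre

/-!
Problem MP_6947cd_al (Chollet).  Case B, second entry in [2/5, 17/20]: certificates of the tree, part P100 (generated).
-/

set_option autoImplicit false
set_option linter.all false

namespace Pool.Agent.Lib.MP_6947cd_al
namespace B2

open Ent Fr B1 PkA

noncomputable def p100_k0 : C1.Kn := ⟨[nat_lit 40, nat_lit 80, nat_lit 100], [nat_lit 0, nat_lit 0, nat_lit 1280], [(nat_lit 0, nat_lit 0, nat_lit 0), (nat_lit 0, nat_lit 0, nat_lit 0), (nat_lit 1000, nat_lit 800, nat_lit 600)], (nat_lit 80, nat_lit 100, nat_lit 60)⟩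
noncomputable def p100_k1 : C1.Kn := ⟨[nat_lit 40, nat_lit 80, nat_lit 100], [nat_lit 0, nat_lit 395, nat_lit 1536], [(nat_lit 0, nat_lit 0, nat_lit 0), (nat_lit 1000, nat_lit 908, nat_lit 154), (nat_lit 1000, nat_lit 760, nat_lit 642)], (nat_lit 76, nat_lit 100, nat_lit 60)⟩
noncomputable def p100_k2 : C1.Kn := ⟨[nat_lit 40, nat_lit 80, nat_lit 100], [nat_lit 0, nat_lit 795, nat_lit 1829], [(nat_lit 0, nat_lit 0, nat_lit 0), (nat_lit 1000, nat_lit 814, nat_lit 310), (nat_lit 1000, nat_lit 714, nat_lit 692)], (nat_lit 72, nat_lit 100, nat_lit 61)⟩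
noncomputable def p100_k3 : C1.Kn := ⟨[nat_lit 40, nat_lit 80, nat_lit 100], [nat_lit 0, nat_lit 192, nat_lit 1404], [(nat_lit 0, nat_lit 0, nat_lit 0), (nat_lit 1000, nat_lit 955, nat_lit 75), (nat_lit 1000, nat_lit 781, nat_lit 625)], (nat_lit 78, nat_lit 100, nat_lit 60)⟩
noncomputable def p100_k4 : C1.Kn := ⟨[nat_lit 40, nat_lit 80, nat_lit 100], [nat_lit 0, nat_lit 0, nat_lit 1280], [(nat_lit 0, nat_lit 0, nat_lit 0), (nat_lit 0, nat_lit 0, nat_lit 0), (nat_lit 1000, nat_lit 800, nat_lit 600)], (nat_lit 82, nat_lit 100, nat_lit 44)⟩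
noncomputable def p100_k5 : C1.Kn := ⟨[nat_lit 40, nat_lit 80], [nat_lit 0, nat_lit 0], [(nat_lit 0, nat_lit 0, nat_lit 0), (nat_lit 0, nat_lit 0, nat_lit 0)], (nat_lit 85, nat_lit 100, nat_lit 30)⟩
noncomputable def p100_k6 : C1.Kn := ⟨[nat_lit 40, nat_lit 80], [nat_lit 0, nat_lit 192], [(nat_lit 0, nat_lit 0, nat_lit 0), (nat_lit 1000, nat_lit 955, nat_lit 75)], (nat_lit 80, nat_lit 100, nat_lit 45)⟩
noncomputable def p100_k7 : C1.Kn := ⟨[nat_lit 40, nat_lit 80], [nat_lit 0, nat_lit 395], [(nat_lit 0, nat_lit 0, nat_lit 0), (nat_lit 1000, nat_lit 908, nat_lit 154)], (nat_lit 79, nat_lit 100, nat_lit 45)⟩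
noncomputable def p100_k8 : C1.Kn := ⟨[nat_lit 40, nat_lit 80], [nat_lit 0, nat_lit 593], [(nat_lit 0, nat_lit 0, nat_lit 0), (nat_lit 1000, nat_lit 861, nat_lit 231)], (nat_lit 77, nat_lit 100, nat_lit 45)⟩
noncomputable def p100_k9 : C1.Kn := ⟨[nat_lit 40, nat_lit 80, nat_lit 100], [nat_lit 0, nat_lit 112, nat_lit 1353], [(nat_lit 0, nat_lit 0, nat_lit 0), (nat_lit 1000, nat_lit 974, nat_lit 44), (nat_lit 1000, nat_lit 789, nat_lit 608)], (nat_lit 79, nat_lit 100, nat_lit 60)⟩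
noncomputable def p100_k10 : C1.Kn := ⟨[nat_lit 40, nat_lit 80], [nat_lit 0, nat_lit 1195], [(nat_lit 0, nat_lit 0, nat_lit 0), (nat_lit 1000, nat_lit 720, nat_lit 465)], (nat_lit 68, nat_lit 100, nat_lit 61)⟩
noncomputable def p100_k11 : C1.Kn := ⟨[nat_lit 40, nat_lit 60], [nat_lit 0, nat_lit 398], [(nat_lit 0, nat_lit 0, nat_lit 0), (nat_lit 1000, nat_lit 814, nat_lit 310)], (nat_lit 85, nat_lit 100, nat_lit 24)⟩
noncomputable def p100_k12 : C1.Kn := ⟨[nat_lit 40, nat_lit 60], [nat_lit 0, nat_lit 0], [(nat_lit 0, nat_lit 0, nat_lit 0), (nat_lit 0, nat_lit 0, nat_lit 0)], (nat_lit 89, nat_lit 100, nat_lit 22)⟩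
noncomputable def p100_k13 : C1.Kn := ⟨[nat_lit 40, nat_lit 60], [nat_lit 0, nat_lit 398], [(nat_lit 0, nat_lit 0, nat_lit 0), (nat_lit 1000, nat_lit 814, nat_lit 310)], (nat_lit 81, nat_lit 100, nat_lit 32)⟩
noncomputable def p100_k14 : C1.Kn := ⟨[nat_lit 40, nat_lit 80], [nat_lit 0, nat_lit 795], [(nat_lit 0, nat_lit 0, nat_lit 0), (nat_lit 1000, nat_lit 814, nat_lit 310)], (nat_lit 75, nat_lit 100, nat_lit 46)⟩
noncomputable def p100_k15 : C1.Kn := ⟨[nat_lit 40, nat_lit 80], [nat_lit 0, nat_lit 1195], [(nat_lit 0, nat_lit 0, nat_lit 0), (nat_lit 1000, nat_lit 720, nat_lit 465)], (nat_lit 72, nat_lit 100, nat_lit 47)⟩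
noncomputable def p100_k16 : C1.Kn := ⟨[nat_lit 40, nat_lit 60], [nat_lit 0, nat_lit 600], [(nat_lit 0, nat_lit 0, nat_lit 0), (nat_lit 1000, nat_lit 725, nat_lit 454)], (nat_lit 78, nat_lit 100, nat_lit 33)⟩
noncomputable def p100_k17 : C1.Kn := ⟨[nat_lit 40, nat_lit 80], [nat_lit 0, nat_lit 79], [(nat_lit 0, nat_lit 0, nat_lit 0), (nat_lit 1000, nat_lit 981, nat_lit 31)], (nat_lit 85, nat_lit 100, nat_lit 30)⟩
noncomputable def p100_k18 : C1.Kn := ⟨[nat_lit 40, nat_lit 80], [nat_lit 0, nat_lit 112], [(nat_lit 0, nat_lit 0, nat_lit 0), (nat_lit 1000, nat_lit 974, nat_lit 44)], (nat_lit 81, nat_lit 100, nat_lit 45)⟩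
noncomputable def p100_k19 : C1.Kn := ⟨[nat_lit 40, nat_lit 60], [nat_lit 0, nat_lit 600], [(nat_lit 0, nat_lit 0, nat_lit 0), (nat_lit 1000, nat_lit 725, nat_lit 454)], (nat_lit 83, nat_lit 100, nat_lit 25)⟩
noncomputable def p100_k20 : C1.Kn := ⟨[nat_lit 40, nat_lit 60], [nat_lit 0, nat_lit 709], [(nat_lit 0, nat_lit 0, nat_lit 0), (nat_lit 1000, nat_lit 692, nat_lit 494)], (nat_lit 77, nat_lit 100, nat_lit 34)⟩
noncomputable def p100_k21 : C1.Kn := ⟨[nat_lit 40, nat_lit 60], [nat_lit 0, nat_lit 709], [(nat_lit 0, nat_lit 0, nat_lit 0), (nat_lit 1000, nat_lit 692, nat_lit 494)], (nat_lit 70, nat_lit 100, nat_lit 48)⟩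
noncomputable def p100_k22 : C1.Kn := ⟨[nat_lit 40, nat_lit 80], [nat_lit 0, nat_lit 79], [(nat_lit 0, nat_lit 0, nat_lit 0), (nat_lit 1000, nat_lit 981, nat_lit 31)], (nat_lit 81, nat_lit 100, nat_lit 45)⟩
noncomputable def p100_k23 : C1.Kn := ⟨[nat_lit 40, nat_lit 100], [nat_lit 0, nat_lit 0], [(nat_lit 0, nat_lit 0, nat_lit 0), (nat_lit 0, nat_lit 0, nat_lit 0)], (nat_lit 80, nat_lit 100, nat_lit 60)⟩
noncomputable def p100_k24 : C1.Kn := ⟨[nat_lit 40, nat_lit 60, nat_lit 80], [nat_lit 0, nat_lit 0, nat_lit 615], [(nat_lit 0, nat_lit 0, nat_lit 0), (nat_lit 0, nat_lit 0, nat_lit 0), (nat_lit 1000, nat_lit 819, nat_lit 426)], (nat_lit 85, nat_lit 100, nat_lit 30)⟩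
noncomputable def p100_k25 : C1.Kn := ⟨[nat_lit 40, nat_lit 80], [nat_lit 0, nat_lit 33], [(nat_lit 0, nat_lit 0, nat_lit 0), (nat_lit 1000, nat_lit 992, nat_lit 13)], (nat_lit 85, nat_lit 100, nat_lit 30)⟩
noncomputable def p100_k26 : C1.Kn := ⟨[nat_lit 40, nat_lit 60, nat_lit 80], [nat_lit 0, nat_lit 16, nat_lit 632], [(nat_lit 0, nat_lit 0, nat_lit 0), (nat_lit 1000, nat_lit 992, nat_lit 13), (nat_lit 1000, nat_lit 815, nat_lit 429)], (nat_lit 85, nat_lit 100, nat_lit 30)⟩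
noncomputable def p100_k27 : C1.Kn := ⟨[nat_lit 40, nat_lit 80], [nat_lit 0, nat_lit 158], [(nat_lit 0, nat_lit 0, nat_lit 0), (nat_lit 1000, nat_lit 963, nat_lit 62)], (nat_lit 80, nat_lit 100, nat_lit 45)⟩
noncomputable def p100_k28 : C1.Kn := ⟨[nat_lit 40, nat_lit 80, nat_lit 100], [nat_lit 0, nat_lit 593, nat_lit 1677], [(nat_lit 0, nat_lit 0, nat_lit 0), (nat_lit 1000, nat_lit 861, nat_lit 231), (nat_lit 1000, nat_lit 738, nat_lit 662)], (nat_lit 74, nat_lit 100, nat_lit 60)⟩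
noncomputable def p100_l0 : Lf2 := ⟨nat_lit 0, nat_lit 10, [nat_lit 0, nat_lit 5, nat_lit 5, nat_lit 20], false, nat_lit 0, nat_lit 160, nat_lit 0, nat_lit 300, ⟨nat_lit 286, nat_lit 714, nat_lit 0, nat_lit 8, nat_lit 248, nat_lit 714, nat_lit 65, nat_lit 0, nat_lit 0, nat_lit 0, nat_lit 0, nat_lit 0, nat_lit 48447379, nat_lit 18552621, nat_lit 0, nat_lit 2950030, false, false⟩,
 nat_lit 0, nat_lit 0, nat_lit 2981, nat_lit 0, nat_lit 4256, nat_lit 2235, nat_lit 112, nat_lit 0, nat_lit 0, nat_lit 184, nat_lit 0, nat_lit 0, nat_lit 0, nat_lit 0, nat_lit 0, nat_lit 714000, nat_lit 0, nat_lit 0, [(nat_lit 18, [(nat_lit 2, nat_lit 714)])],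
 ⟨p100_k0, nat_lit 0, nat_lit 0, nat_lit 126, nat_lit 0, nat_lit 0, [nat_lit 1796284800, nat_lit 2087136001, nat_lit 1471055200], [], [nat_lit 18327055584, nat_lit 20445071264, nat_lit 21837518880, nat_lit 23698380864, nat_lit 17068994112, nat_lit 18479080512, nat_lit 19911683457, nat_lit 21228749041], nat_lit 0, nat_lit 0, nat_lit 0, nat_lit 0, nat_lit 0, nat_lit 0, [], [nat_lit 6, nat_lit 40, nat_lit 40, nat_lit 80, nat_lit 3, nat_lit 317, nat_lit 100, nat_lit 12]⟩, ⟨p100_k0, nat_lit 0, nat_lit 0, nat_lit 627, nat_lit 0, nat_lit 1226213, [nat_lit 581152000, nat_lit 1340768000, nat_lit 1787500000], [], [nat_lit 8279924142, nat_lit 7805716847, nat_lit 7904390344, nat_lit 8140023943, nat_lit 7232253166, nat_lit 7317715434, nat_lit 8323819462, nat_lit 7841861275], nat_lit 1271250, nat_lit 1271250, nat_lit 936251, nat_lit 1773750, nat_lit 0, nat_lit 2118750, [nat_lit 490000, nat_lit 1100000, nat_lit 1442500], [nat_lit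 6, nat_lit 40, nat_lit 40, nat_lit 80, nat_lit 3, nat_lit 373, nat_lit 150, nat_lit 14]⟩,
 ⟨nat_lit 3872, nat_lit 4473, ⟨.ofNat (nat_lit 527314), .ofNat (nat_lit 697279), .ofNat (nat_lit 538088), .ofNat (nat_lit 708054), .ofNat (nat_lit 533860), .ofNat (nat_lit 695183), .ofNat (nat_lit 544747), .ofNat (nat_lit 706071)⟩, ⟨.ofNat (nat_lit 0), .ofNat (nat_lit 302621), .ofNat (nat_lit 0), .ofNat (nat_lit 345754), .ofNat (nat_lit 0), .ofNat (nat_lit 304717), .ofNat (nat_lit 0), .ofNat (nat_lit 348304)⟩⟩, [⟨nat_lit 0, nat_lit 76, nat_lit 72, nat_lit 100, nat_lit 59702464⟩, ⟨nat_lit 7, nat_lit 100, nat_lit 84, nat_lit 93, nat_lit 55593637⟩]⟩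
noncomputable def p100_l1 : Lf2 := ⟨nat_lit 0, nat_lit 10, [nat_lit 0, nat_lit 5, nat_lit 5, nat_lit 20], false, nat_lit 0, nat_lit 160, nat_lit 0, nat_lit 288, ⟨nat_lit 1000, nat_lit 0, nat_lit 0, nat_lit 0, nat_lit 0, nat_lit 0, nat_lit 0, nat_lit 0, nat_lit 0, nat_lit 0, nat_lit 0, nat_lit 0, nat_lit 0, nat_lit 0, nat_lit 0, nat_lit 0, false, false⟩,
 nat_lit 0, nat_lit 0, nat_lit 7060, nat_lit 0, nat_lit 6072, nat_lit 5503, nat_lit 731, nat_lit 0, nat_lit 0, nat_lit 1803, nat_lit 0, nat_lit 0, nat_lit 0, nat_lit 0, nat_lit 0, nat_lit 0, nat_lit 0, nat_lit 0, [],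
 ⟨p100_k1, nat_lit 0, nat_lit 0, nat_lit 126, nat_lit 0, nat_lit 0, [nat_lit 2032000001, nat_lit 4688000000, nat_lit 6250000000], [], [nat_lit 22501729888, nat_lit 23851202669, nat_lit 25673435464, nat_lit 26828064368, nat_lit 18285094559, nat_lit 19166036260, nat_lit 20735099163, nat_lit 21651393840], nat_lit 0, nat_lit 0, nat_lit 0, nat_lit 0, nat_lit 0, nat_lit 0, [], [nat_lit 6, nat_lit 40, nat_lit 40, nat_lit 80, nat_lit 3, nat_lit 317, nat_lit 100, nat_lit 12]⟩, ⟨p100_k1, nat_lit 0, nat_lit 0, nat_lit 624, nat_lit 0, nat_lit 1234683, [nat_lit 2032000000, nat_lit 4688000000, nat_lit 6250000000], [], [nat_lit 22944840470, nat_lit 23394200728, nat_lit 24763071311, nat_lit 25847453182, nat_lit 24097919092, nat_lit 24396127584, nat_lit 27295654866, nat_lit 26173334864], nat_lit 1271250, nat_lit 1271250, nat_lit 1167600, nat_lit 1789500, nat_lit 0, nat_lit 2034000, [nat_lit 490000, nat_lit 1100000, nat_lit 1442500],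 [nat_lit 6, nat_lit 40, nat_lit 40, nat_lit 80, nat_lit 3, nat_lit 373, nat_lit 150, nat_lit 14]⟩,
 zbF0, [⟨nat_lit 0, nat_lit 71, nat_lit 71, nat_lit 100, nat_lit 134742095⟩, ⟨nat_lit 7, nat_lit 100, nat_lit 77, nat_lit 91, nat_lit 278422015⟩]⟩
noncomputable def p100_l2 : Lf2 := ⟨nat_lit 0, nat_lit 10, [nat_lit 0, nat_lit 5, nat_lit 5, nat_lit 20], false, nat_lit 0, nat_lit 80, nat_lit 0, nat_lit 300, ⟨nat_lit 219, nat_lit 781, nat_lit 0, nat_lit 8, nat_lit 260, nat_lit 781, nat_lit 38, nat_lit 0, nat_lit 0, nat_lit 0, nat_lit 0, nat_lit 0, nat_lit 47146606, nat_lit 19853394, nat_lit 0, nat_lit 3038565, true, false⟩,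
 nat_lit 0, nat_lit 0, nat_lit 2199, nat_lit 0, nat_lit 3229, nat_lit 1649, nat_lit 306, nat_lit 0, nat_lit 0, nat_lit 85, nat_lit 0, nat_lit 0, nat_lit 0, nat_lit 0, nat_lit 0, nat_lit 348400, nat_lit 0, nat_lit 0, [(nat_lit 21, [(nat_lit 1, nat_lit 721), (nat_lit 2, nat_lit 60)])],
 ⟨p100_k2, nat_lit 0, nat_lit 0, nat_lit 137, nat_lit 0, nat_lit 0, [nat_lit 1506179201, nat_lit 2094316800, nat_lit 2376514000], [], [nat_lit 20012543675, nat_lit 21410618702, nat_lit 22307613274, nat_lit 23539182500, nat_lit 19183017940, nat_lit 20493489843, nat_lit 21392337832, nat_lit 22550290952], nat_lit 0, nat_lit 0, nat_lit 0, nat_lit 0, nat_lit 0, nat_lit 0, [], [nat_lit 6, nat_lit 40, nat_lit 40, nat_lit 80, nat_lit 3, nat_lit 317, nat_lit 100, nat_lit 12]⟩, ⟨p100_k0, nat_lit 0, nat_lit 0, nat_lit 741, nat_lit 0, nat_lit 1503106, [nat_lit 445008000, nat_lit 1026672000, nat_lit 1368750000], [], [nat_lit 6605294414, nat_lit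 6734317977, nat_lit 6674086708, nat_lit 6794371572, nat_lit 6096508205, nat_lit 6185320065, nat_lit 6812199030, nat_lit 6158247081], nat_lit 1271250, nat_lit 1271250, nat_lit 1167600, nat_lit 1789500, nat_lit 0, nat_lit 2118750, [nat_lit 490000, nat_lit 1100000, nat_lit 1442500], [nat_lit 6, nat_lit 40, nat_lit 40, nat_lit 80, nat_lit 3, nat_lit 373, nat_lit 150, nat_lit 14]⟩,
 ⟨nat_lit 3162, nat_lit 3873, ⟨.ofNat (nat_lit 578944), .ofNat (nat_lit 695141), .ofNat (nat_lit 600708), .ofNat (nat_lit 716905), .ofNat (nat_lit 583969), .ofNat (nat_lit 693742), .ofNat (nat_lit 606094), .ofNat (nat_lit 715869)⟩, ⟨.ofNat (nat_lit 0), .ofNat (nat_lit 175674), .ofNat (nat_lit 0), .ofNat (nat_lit 200000), .ofNat (nat_lit 0), .ofNat (nat_lit 184209), .ofNat (nat_lit 0), .ofNat (nat_lit 200000)⟩⟩, [⟨nat_lit 0, nat_lit 76, nat_lit 66, nat_lit 100, nat_lit 1734262⟩, ⟨nat_lit 0, nat_lit 72, nat_lit 61, nat_lit 100, nat_lit 231007484⟩,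 ⟨nat_lit 3, nat_lit 100, nat_lit 65, nat_lit 54, nat_lit 44240469⟩, ⟨nat_lit 19, nat_lit 87, nat_lit 95, nat_lit 100, nat_lit 33232951⟩]⟩
noncomputable def p100_l3 : Lf2 := ⟨nat_lit 0, nat_lit 10, [nat_lit 0, nat_lit 5, nat_lit 5, nat_lit 20], true, nat_lit 80, nat_lit 160, nat_lit 0, nat_lit 300, ⟨nat_lit 0, nat_lit 1000, nat_lit 0, nat_lit 8, nat_lit 260, nat_lit 1000, nat_lit 103, nat_lit 0, nat_lit 0, nat_lit 0, nat_lit 0, nat_lit 0, nat_lit 43496503, nat_lit 19022437, nat_lit 4481060, nat_lit 4340230, true, false⟩,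
 nat_lit 0, nat_lit 0, nat_lit 0, nat_lit 0, nat_lit 4314, nat_lit 0, nat_lit 0, nat_lit 0, nat_lit 0, nat_lit 0, nat_lit 0, nat_lit 0, nat_lit 0, nat_lit 0, nat_lit 0, nat_lit 250000, nat_lit 0, nat_lit 0, [(nat_lit 21, [(nat_lit 0, nat_lit 1000)])],
 ⟨p100_k2, nat_lit 0, nat_lit 0, nat_lit 62, nat_lit 0, nat_lit 0, [nat_lit 1558400000, nat_lit 2146000001, nat_lit 2146000000], [], [nat_lit 18262948882, nat_lit 19997131721, nat_lit 20756195009, nat_lit 22398093680, nat_lit 18995070035, nat_lit 20548207245, nat_lit 21243813761, nat_lit 22601224769], nat_lit 0, nat_lit 0, nat_lit 0, nat_lit 0, nat_lit 0, nat_lit 0, [], [nat_lit 6, nat_lit 40, nat_lit 40, nat_lit 80, nat_lit 3, nat_lit 317, nat_lit 100, nat_lit 11]⟩, C1.Rw.none,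
 ⟨nat_lit 3162, nat_lit 3873, ⟨.ofNat (nat_lit 578944), .ofNat (nat_lit 695141), .ofNat (nat_lit 600708), .ofNat (nat_lit 716905), .ofNat (nat_lit 583969), .ofNat (nat_lit 693742), .ofNat (nat_lit 606094), .ofNat (nat_lit 715869)⟩, ⟨.ofNat (nat_lit 175674), .ofNat (nat_lit 304717), .ofNat (nat_lit 200000), .ofNat (nat_lit 348304), .ofNat (nat_lit 184209), .ofNat (nat_lit 306116), .ofNat (nat_lit 200000), .ofNat (nat_lit 350426)⟩⟩, [⟨nat_lit 0, nat_lit 76, nat_lit 66, nat_lit 100, nat_lit 67293700⟩]⟩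
noncomputable def p100_l4 : Lf2 := ⟨nat_lit 0, nat_lit 10, [nat_lit 0, nat_lit 5, nat_lit 5, nat_lit 20], false, nat_lit 0, nat_lit 80, nat_lit 0, nat_lit 160, ⟨nat_lit 1000, nat_lit 0, nat_lit 0, nat_lit 0, nat_lit 0, nat_lit 0, nat_lit 0, nat_lit 0, nat_lit 0, nat_lit 0, nat_lit 0, nat_lit 0, nat_lit 0, nat_lit 0, nat_lit 0, nat_lit 0, false, false⟩,
 nat_lit 0, nat_lit 0, nat_lit 8659, nat_lit 0, nat_lit 5295, nat_lit 6494, nat_lit 626, nat_lit 0, nat_lit 0, nat_lit 416, nat_lit 0, nat_lit 0, nat_lit 0, nat_lit 0, nat_lit 0, nat_lit 0, nat_lit 0, nat_lit 0, [],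
 ⟨p100_k0, nat_lit 0, nat_lit 0, nat_lit 176, nat_lit 0, nat_lit 0, [nat_lit 2032000001, nat_lit 4688000000, nat_lit 6250000000], [], [nat_lit 26218609020, nat_lit 27733001800, nat_lit 36088046020, nat_lit 37361281080, nat_lit 23711498920, nat_lit 25134202210, nat_lit 32573922200, nat_lit 33498561970], nat_lit 0, nat_lit 0, nat_lit 0, nat_lit 0, nat_lit 0, nat_lit 0, [], [nat_lit 6, nat_lit 40, nat_lit 40, nat_lit 80, nat_lit 3, nat_lit 226, nat_lit 20, nat_lit 8]⟩, ⟨p100_k0, nat_lit 0, nat_lit 0, nat_lit 608, nat_lit 0, nat_lit 1226213, [nat_lit 2032000000, nat_lit 4688000000, nat_lit 6250000000], [], [nat_lit 34635756360, nat_lit 34933222092, nat_lit 39442555464, nat_lit 40150074660, nat_lit 31878661032, nat_lit 32142258156, nat_lit 35282571472, nat_lit 35467115962], nat_lit 1271250, nat_lit 1271250, nat_lit 1271250, nat_lit 1271250, nat_lit 0, nat_lit 1100001, [nat_lit 490000, nat_lit 1100000, nat_lit 1442500],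 [nat_lit 6, nat_lit 40, nat_lit 40, nat_lit 80, nat_lit 3, nat_lit 264, nat_lit 40, nat_lit 9]⟩,
 zbF0, [⟨nat_lit 3, nat_lit 100, nat_lit 88, nat_lit 21, nat_lit 40301495⟩]⟩
noncomputable def p100_l5 : Lf2 := ⟨nat_lit 0, nat_lit 10, [nat_lit 0, nat_lit 5, nat_lit 5, nat_lit 20], false, nat_lit 0, nat_lit 80, nat_lit 0, nat_lit 160, ⟨nat_lit 528, nat_lit 472, nat_lit 0, nat_lit 8, nat_lit 329, nat_lit 472, nat_lit 38, nat_lit 0, nat_lit 0, nat_lit 0, nat_lit 0, nat_lit 0, nat_lit 39955421, nat_lit 27044579, nat_lit 0, nat_lit 3372319, true, true⟩,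
 nat_lit 0, nat_lit 0, nat_lit 4697, nat_lit 0, nat_lit 3045, nat_lit 3522, nat_lit 1367, nat_lit 0, nat_lit 0, nat_lit 208, nat_lit 0, nat_lit 0, nat_lit 0, nat_lit 0, nat_lit 0, nat_lit 188800, nat_lit 0, nat_lit 0, [(nat_lit 21, [(nat_lit 1, nat_lit 472)])],
 ⟨p100_k2, nat_lit 0, nat_lit 0, nat_lit 180, nat_lit 0, nat_lit 0, [nat_lit 1712550401, nat_lit 3179865601, nat_lit 4004224000], [], [nat_lit 23225298684, nat_lit 24472103844, nat_lit 30878887464, nat_lit 31807359140, nat_lit 22597023924, nat_lit 23766912344, nat_lit 29839844484, nat_lit 30653557144], nat_lit 0, nat_lit 0, nat_lit 0, nat_lit 0, nat_lit 0, nat_lit 0, [], [nat_lit 6, nat_lit 40, nat_lit 40, nat_lit 80, nat_lit 3, nat_lit 226, nat_lit 20, nat_lit 8]⟩, ⟨p100_k0, nat_lit 0, nat_lit 0, nat_lit 673, nat_lit 0, nat_lit 1397467, [nat_lit 1072896000, nat_lit 2475264000, nat_lit 3300000000], [], [nat_lit 18795789848, nat_lit 18865875422, nat_lit 21086330616,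 nat_lit 21275870382, nat_lit 17306257760, nat_lit 17365275909, nat_lit 18768176184, nat_lit 18807600207], nat_lit 1271250, nat_lit 1271250, nat_lit 1271250, nat_lit 1271250, nat_lit 0, nat_lit 1100001, [nat_lit 490000, nat_lit 1100000, nat_lit 1442500], [nat_lit 6, nat_lit 40, nat_lit 40, nat_lit 80, nat_lit 3, nat_lit 279, nat_lit 40, nat_lit 10]⟩,
 ⟨nat_lit 3162, nat_lit 3873, ⟨.ofNat (nat_lit 695141), .ofNat (nat_lit 953347), .ofNat (nat_lit 700582), .ofNat (nat_lit 958791), .ofNat (nat_lit 693742), .ofNat (nat_lit 937676), .ofNat (nat_lit 699274), .ofNat (nat_lit 943210)⟩, ⟨.ofNat (nat_lit 0), .ofNat (nat_lit 175674), .ofNat (nat_lit 0), .ofNat (nat_lit 200000), .ofNat (nat_lit 0), .ofNat (nat_lit 184209), .ofNat (nat_lit 0), .ofNat (nat_lit 200000)⟩⟩, []⟩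
noncomputable def p100_l6 : Lf2 := ⟨nat_lit 0, nat_lit 10, [nat_lit 0, nat_lit 5, nat_lit 5, nat_lit 20], false, nat_lit 0, nat_lit 80, nat_lit 0, nat_lit 160, ⟨nat_lit 1000, nat_lit 0, nat_lit 0, nat_lit 0, nat_lit 0, nat_lit 0, nat_lit 0, nat_lit 0, nat_lit 0, nat_lit 0, nat_lit 0, nat_lit 0, nat_lit 0, nat_lit 0, nat_lit 0, nat_lit 0, false, false⟩,
 nat_lit 0, nat_lit 0, nat_lit 7414, nat_lit 0, nat_lit 4214, nat_lit 5669, nat_lit 999, nat_lit 0, nat_lit 0, nat_lit 1795, nat_lit 0, nat_lit 0, nat_lit 0, nat_lit 0, nat_lit 0, nat_lit 0, nat_lit 0, nat_lit 0, [],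
 ⟨p100_k2, nat_lit 0, nat_lit 0, nat_lit 180, nat_lit 0, nat_lit 0, [nat_lit 2032000001, nat_lit 4688000000, nat_lit 6250000000], [], [nat_lit 23802476083, nat_lit 25476489912, nat_lit 34209059136, nat_lit 35354446488, nat_lit 22261424815, nat_lit 23445092631, nat_lit 30732733364, nat_lit 31841282304], nat_lit 0, nat_lit 0, nat_lit 0, nat_lit 0, nat_lit 0, nat_lit 0, [], [nat_lit 6, nat_lit 40, nat_lit 40, nat_lit 80, nat_lit 3, nat_lit 226, nat_lit 20, nat_lit 8]⟩, ⟨p100_k3, nat_lit 0, nat_lit 0, nat_lit 671, nat_lit 0, nat_lit 1393535, [nat_lit 2032000000, nat_lit 4688000000, nat_lit 6250000000], [], [nat_lit 32046878942, nat_lit 32187895787, nat_lit 37463773587, nat_lit 37793140410, nat_lit 30174194016, nat_lit 30291694104, nat_lit 33033747455, nat_lit 33113161250], nat_lit 1271250, nat_lit 1271250, nat_lit 1271250, nat_lit 1271250, nat_lit 0, nat_lit 1100001, [nat_lit 490000, nat_lit 1100000, nat_lit 1442500],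 [nat_lit 6, nat_lit 40, nat_lit 40, nat_lit 80, nat_lit 3, nat_lit 279, nat_lit 40, nat_lit 10]⟩,
 zbF0, []⟩
noncomputable def p100_l7 : Lf2 := ⟨nat_lit 0, nat_lit 10, [nat_lit 0, nat_lit 5, nat_lit 5, nat_lit 20], false, nat_lit 80, nat_lit 160, nat_lit 0, nat_lit 160, ⟨nat_lit 815, nat_lit 185, nat_lit 0, nat_lit 8, nat_lit 334, nat_lit 185, nat_lit 102, nat_lit 0, nat_lit 0, nat_lit 0, nat_lit 0, nat_lit 0, nat_lit 36968032, nat_lit 26066174, nat_lit 3965794, nat_lit 4554542, true, true⟩,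
 nat_lit 0, nat_lit 0, nat_lit 7060, nat_lit 0, nat_lit 4949, nat_lit 5294, nat_lit 462, nat_lit 0, nat_lit 0, nat_lit 340, nat_lit 0, nat_lit 0, nat_lit 0, nat_lit 0, nat_lit 0, nat_lit 185000, nat_lit 0, nat_lit 0, [(nat_lit 18, [(nat_lit 2, nat_lit 185)])],
 ⟨p100_k0, nat_lit 0, nat_lit 0, nat_lit 124, nat_lit 0, nat_lit 0, [nat_lit 1970925334, nat_lit 4014106667, nat_lit 5011758000], [], [nat_lit 20913076704, nat_lit 22431422260, nat_lit 30899788684, nat_lit 32092281974, nat_lit 21268501444, nat_lit 22632393827, nat_lit 30253248331, nat_lit 31198708848], nat_lit 0, nat_lit 0, nat_lit 0, nat_lit 0, nat_lit 0, nat_lit 0, [], [nat_lit 6, nat_lit 40, nat_lit 40, nat_lit 80, nat_lit 3, nat_lit 249, nat_lit 40, nat_lit 8]⟩, ⟨p100_k0, nat_lit 0, nat_lit 0, nat_lit 608, nat_lit 0, nat_lit 1226213, [nat_lit 1656080000, nat_lit 3820720000, nat_lit 5093750000], [], [nat_lit 28213084620, nat_lit 28455539177, nat_lit 32149571584,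 nat_lit 32726281925, nat_lit 25968943792, nat_lit 26186844531, nat_lit 28747178272, nat_lit 28897583192], nat_lit 1271250, nat_lit 1271250, nat_lit 1271250, nat_lit 1271250, nat_lit 0, nat_lit 1100001, [nat_lit 490000, nat_lit 1100000, nat_lit 1442500], [nat_lit 6, nat_lit 40, nat_lit 40, nat_lit 80, nat_lit 3, nat_lit 264, nat_lit 40, nat_lit 9]⟩,
 ⟨nat_lit 3872, nat_lit 4473, ⟨.ofNat (nat_lit 697279), .ofNat (nat_lit 969223), .ofNat (nat_lit 708054), .ofNat (nat_lit 979997), .ofNat (nat_lit 695183), .ofNat (nat_lit 953301), .ofNat (nat_lit 706071), .ofNat (nat_lit 964188)⟩, ⟨.ofNat (nat_lit 166665), .ofNat (nat_lit 302621), .ofNat (nat_lit 200000), .ofNat (nat_lit 345754), .ofNat (nat_lit 175674), .ofNat (nat_lit 304717), .ofNat (nat_lit 200000), .ofNat (nat_lit 348304)⟩⟩, []⟩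
noncomputable def p100_l8 : Lf2 := ⟨nat_lit 0, nat_lit 10, [nat_lit 0, nat_lit 5, nat_lit 5, nat_lit 20], false, nat_lit 80, nat_lit 160, nat_lit 0, nat_lit 160, ⟨nat_lit 255, nat_lit 745, nat_lit 0, nat_lit 8, nat_lit 330, nat_lit 745, nat_lit 103, nat_lit 0, nat_lit 0, nat_lit 0, nat_lit 0, nat_lit 0, nat_lit 37214931, nat_lit 25724068, nat_lit 4061001, nat_lit 4564319, true, true⟩,
 nat_lit 0, nat_lit 0, nat_lit 2256, nat_lit 0, nat_lit 3141, nat_lit 1691, nat_lit 403, nat_lit 0, nat_lit 0, nat_lit 86, nat_lit 0, nat_lit 0, nat_lit 0, nat_lit 0, nat_lit 0, nat_lit 298000, nat_lit 0, nat_lit 0, [(nat_lit 21, [(nat_lit 1, nat_lit 745)])],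
 ⟨p100_k2, nat_lit 0, nat_lit 0, nat_lit 129, nat_lit 0, nat_lit 0, [nat_lit 1527784000, nat_lit 2307576000, nat_lit 2705290000], [], [nat_lit 21574914895, nat_lit 22718851375, nat_lit 28747977366, nat_lit 29733978976, nat_lit 22477753291, nat_lit 23514802095, nat_lit 28921082613, nat_lit 29650142687], nat_lit 0, nat_lit 0, nat_lit 0, nat_lit 0, nat_lit 0, nat_lit 0, [], [nat_lit 6, nat_lit 40, nat_lit 40, nat_lit 80, nat_lit 3, nat_lit 249, nat_lit 40, nat_lit 8]⟩, ⟨p100_k0, nat_lit 0, nat_lit 0, nat_lit 692, nat_lit 0, nat_lit 1431917, [nat_lit 518160000, nat_lit 1195440000, nat_lit 1593750000], [], [nat_lit 9266366156, nat_lit 9329259205, nat_lit 10155857036, nat_lit 10338345895, nat_lit 8533524800, nat_lit 8584953699, nat_lit 9133818164, nat_lit 9168843792], nat_lit 1271250, nat_lit 1271250, nat_lit 1271250, nat_lit 1271250, nat_lit 0, nat_lit 1100001, [nat_lit 490000, nat_lit 1100000, nat_lit 1442500], [nat_lit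 6, nat_lit 40, nat_lit 40, nat_lit 80, nat_lit 3, nat_lit 285, nat_lit 40, nat_lit 10]⟩,
 ⟨nat_lit 3162, nat_lit 3873, ⟨.ofNat (nat_lit 695141), .ofNat (nat_lit 953347), .ofNat (nat_lit 706023), .ofNat (nat_lit 964233), .ofNat (nat_lit 693742), .ofNat (nat_lit 937676), .ofNat (nat_lit 704805), .ofNat (nat_lit 948743)⟩, ⟨.ofNat (nat_lit 175674), .ofNat (nat_lit 304717), .ofNat (nat_lit 200000), .ofNat (nat_lit 348304), .ofNat (nat_lit 184209), .ofNat (nat_lit 306116), .ofNat (nat_lit 200000), .ofNat (nat_lit 350426)⟩⟩, [⟨nat_lit 13, nat_lit 75, nat_lit 35, nat_lit 100, nat_lit 45018162⟩]⟩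
noncomputable def p100_l9 : Lf2 := ⟨nat_lit 0, nat_lit 10, [nat_lit 0, nat_lit 5, nat_lit 5, nat_lit 20], false, nat_lit 0, nat_lit 160, nat_lit 0, nat_lit 160, ⟨nat_lit 1000, nat_lit 0, nat_lit 0, nat_lit 0, nat_lit 0, nat_lit 0, nat_lit 0, nat_lit 0, nat_lit 0, nat_lit 0, nat_lit 0, nat_lit 0, nat_lit 0, nat_lit 0, nat_lit 0, nat_lit 0, false, false⟩,
 nat_lit 0, nat_lit 0, nat_lit 6494, nat_lit 0, nat_lit 5340, nat_lit 5062, nat_lit 615, nat_lit 0, nat_lit 0, nat_lit 1773, nat_lit 0, nat_lit 0, nat_lit 0, nat_lit 0, nat_lit 0, nat_lit 0, nat_lit 0, nat_lit 0, [],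
 ⟨p100_k1, nat_lit 0, nat_lit 0, nat_lit 180, nat_lit 0, nat_lit 0, [nat_lit 2032000001, nat_lit 4688000000, nat_lit 6250000000], [], [nat_lit 25679582135, nat_lit 27808831295, nat_lit 36853223600, nat_lit 38771059280, nat_lit 23237356315, nat_lit 25031041135, nat_lit 31167929320, nat_lit 32855022400], nat_lit 0, nat_lit 0, nat_lit 0, nat_lit 0, nat_lit 0, nat_lit 0, [], [nat_lit 6, nat_lit 40, nat_lit 40, nat_lit 80, nat_lit 3, nat_lit 249, nat_lit 40, nat_lit 9]⟩, ⟨p100_k1, nat_lit 0, nat_lit 0, nat_lit 687, nat_lit 0, nat_lit 1424204, [nat_lit 2032000000, nat_lit 4688000000, nat_lit 6250000000], [], [nat_lit 29022696228, nat_lit 29364927086, nat_lit 36059008180, nat_lit 36681847488, nat_lit 28190600102, nat_lit 28477951282, nat_lit 31795846460, nat_lit 31999557262], nat_lit 1271250, nat_lit 1271250, nat_lit 1271250, nat_lit 1271250, nat_lit 0, nat_lit 1100001, [nat_lit 490000, nat_lit 1100000, nat_lit 1442500],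 [nat_lit 6, nat_lit 40, nat_lit 40, nat_lit 80, nat_lit 3, nat_lit 285, nat_lit 40, nat_lit 10]⟩,
 zbF0, []⟩
noncomputable def p100_l10 : Lf2 := ⟨nat_lit 0, nat_lit 10, [nat_lit 0, nat_lit 5, nat_lit 5, nat_lit 20], false, nat_lit 0, nat_lit 160, nat_lit 160, nat_lit 300, ⟨nat_lit 1000, nat_lit 0, nat_lit 0, nat_lit 0, nat_lit 0, nat_lit 0, nat_lit 0, nat_lit 0, nat_lit 0, nat_lit 0, nat_lit 0, nat_lit 0, nat_lit 0, nat_lit 0, nat_lit 0, nat_lit 0, false, false⟩,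
 nat_lit 0, nat_lit 0, nat_lit 7827, nat_lit 0, nat_lit 5576, nat_lit 5870, nat_lit 578, nat_lit 0, nat_lit 0, nat_lit 462, nat_lit 0, nat_lit 0, nat_lit 0, nat_lit 0, nat_lit 0, nat_lit 0, nat_lit 0, nat_lit 0, [],
 ⟨p100_k0, nat_lit 0, nat_lit 0, nat_lit 174, nat_lit 0, nat_lit 0, [nat_lit 2032000001, nat_lit 4688000000, nat_lit 6250000000], [], [nat_lit 26150615456, nat_lit 26877642264, nat_lit 36874215456, nat_lit 37527449640, nat_lit 23590225600, nat_lit 24201723816, nat_lit 31696494816, nat_lit 32123495712], nat_lit 0, nat_lit 0, nat_lit 0, nat_lit 0, nat_lit 0, nat_lit 0, [], [nat_lit 6, nat_lit 40, nat_lit 40, nat_lit 80, nat_lit 3, nat_lit 249, nat_lit 40, nat_lit 9]⟩, ⟨p100_k0, nat_lit 0, nat_lit 0, nat_lit 476, nat_lit 0, nat_lit 1130711, [nat_lit 2032000000, nat_lit 4688000000, nat_lit 6250000000], [], [nat_lit 30804134600, nat_lit 31124321640, nat_lit 35306165960, nat_lit 35570632210, nat_lit 32765217580,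 nat_lit 33026438088, nat_lit 36389386490, nat_lit 36587636578], nat_lit 1271250, nat_lit 1271250, nat_lit 1271250, nat_lit 1271250, nat_lit 1100001, nat_lit 2298750, [nat_lit 490000, nat_lit 1100000, nat_lit 1442500], [nat_lit 6, nat_lit 40, nat_lit 40, nat_lit 80, nat_lit 3, nat_lit 289, nat_lit 75, nat_lit 9]⟩,
 zbF0, [⟨nat_lit 7, nat_lit 100, nat_lit 84, nat_lit 93, nat_lit 368183636⟩]⟩
noncomputable def p100_l11 : Lf2 := ⟨nat_lit 0, nat_lit 10, [nat_lit 0, nat_lit 5, nat_lit 5, nat_lit 20], false, nat_lit 0, nat_lit 160, nat_lit 160, nat_lit 300, ⟨nat_lit 1000, nat_lit 0, nat_lit 0, nat_lit 0, nat_lit 0, nat_lit 0, nat_lit 0, nat_lit 0, nat_lit 0, nat_lit 0, nat_lit 0, nat_lit 0, nat_lit 0, nat_lit 0, nat_lit 0, nat_lit 0, false, false⟩,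
 nat_lit 0, nat_lit 0, nat_lit 8120, nat_lit 0, nat_lit 4559, nat_lit 6090, nat_lit 2623, nat_lit 0, nat_lit 0, nat_lit 397, nat_lit 0, nat_lit 0, nat_lit 0, nat_lit 0, nat_lit 0, nat_lit 0, nat_lit 0, nat_lit 0, [],
 ⟨p100_k1, nat_lit 0, nat_lit 0, nat_lit 176, nat_lit 0, nat_lit 0, [nat_lit 2032000001, nat_lit 4688000000, nat_lit 6250000000], [], [nat_lit 23252730783, nat_lit 24220569246, nat_lit 34621992510, nat_lit 35215087416, nat_lit 20508953751, nat_lit 21085224636, nat_lit 30144703732, nat_lit 30668483568], nat_lit 0, nat_lit 0, nat_lit 0, nat_lit 0, nat_lit 0, nat_lit 0, [], [nat_lit 6, nat_lit 40, nat_lit 40, nat_lit 80, nat_lit 3, nat_lit 249, nat_lit 40, nat_lit 9]⟩, ⟨p100_k0, nat_lit 0, nat_lit 0, nat_lit 547, nat_lit 0, nat_lit 1302825, [nat_lit 2032000000, nat_lit 4688000000, nat_lit 6250000000], [], [nat_lit 32349954800, nat_lit 32888583420, nat_lit 35961257640, nat_lit 36406289300, nat_lit 33689284820,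 nat_lit 34162377470, nat_lit 36692402780, nat_lit 37021138765], nat_lit 1271250, nat_lit 1271250, nat_lit 1271250, nat_lit 1271250, nat_lit 1100001, nat_lit 2298750, [nat_lit 490000, nat_lit 1100000, nat_lit 1442500], [nat_lit 6, nat_lit 40, nat_lit 40, nat_lit 80, nat_lit 3, nat_lit 289, nat_lit 75, nat_lit 9]⟩,
 zbF0, [⟨nat_lit 7, nat_lit 100, nat_lit 81, nat_lit 92, nat_lit 342651104⟩]⟩
noncomputable def p100_l12 : Lf2 := ⟨nat_lit 0, nat_lit 10, [nat_lit 0, nat_lit 5, nat_lit 5, nat_lit 20], false, nat_lit 0, nat_lit 160, nat_lit 160, nat_lit 300, ⟨nat_lit 300, nat_lit 700, nat_lit 0, nat_lit 8, nat_lit 305, nat_lit 700, nat_lit 65, nat_lit 0, nat_lit 0, nat_lit 0, nat_lit 0, nat_lit 0, nat_lit 42359286, nat_lit 24640714, nat_lit 0, nat_lit 3288795, true, false⟩,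
 nat_lit 0, nat_lit 0, nat_lit 2821, nat_lit 0, nat_lit 3345, nat_lit 2115, nat_lit 432, nat_lit 0, nat_lit 0, nat_lit 109, nat_lit 0, nat_lit 0, nat_lit 0, nat_lit 0, nat_lit 0, nat_lit 441400, nat_lit 0, nat_lit 0, [(nat_lit 21, [(nat_lit 1, nat_lit 431), (nat_lit 2, nat_lit 269)])],
 ⟨p100_k2, nat_lit 0, nat_lit 0, nat_lit 155, nat_lit 0, nat_lit 0, [nat_lit 1570614001, nat_lit 2010953201, nat_lit 2213328800], [], [nat_lit 22128368930, nat_lit 23764292260, nat_lit 26452262960, nat_lit 27790756500, nat_lit 21882830783, nat_lit 22848785943, nat_lit 24847121233, nat_lit 25840587543], nat_lit 0, nat_lit 0, nat_lit 0, nat_lit 0, nat_lit 0, nat_lit 0, [], [nat_lit 6, nat_lit 40, nat_lit 40, nat_lit 80, nat_lit 3, nat_lit 249, nat_lit 40, nat_lit 9]⟩, ⟨p100_k0, nat_lit 0, nat_lit 0, nat_lit 606, nat_lit 0, nat_lit 1431917, [nat_lit 609600000, nat_lit 1406400000, nat_lit 1875000000], [], [nat_lit 8669448940, nat_lit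 8744505625, nat_lit 9016154080, nat_lit 9077706995, nat_lit 8939436695, nat_lit 9003242168, nat_lit 9213099525, nat_lit 9264869404], nat_lit 1271250, nat_lit 1271250, nat_lit 1271250, nat_lit 1271250, nat_lit 1100001, nat_lit 2298750, [nat_lit 490000, nat_lit 1100000, nat_lit 1442500], [nat_lit 6, nat_lit 40, nat_lit 40, nat_lit 80, nat_lit 3, nat_lit 289, nat_lit 75, nat_lit 9]⟩,
 ⟨nat_lit 3162, nat_lit 3873, ⟨.ofNat (nat_lit 695141), .ofNat (nat_lit 824248), .ofNat (nat_lit 706023), .ofNat (nat_lit 835131), .ofNat (nat_lit 693742), .ofNat (nat_lit 815713), .ofNat (nat_lit 704805), .ofNat (nat_lit 826777)⟩, ⟨.ofNat (nat_lit 0), .ofNat (nat_lit 304717), .ofNat (nat_lit 0), .ofNat (nat_lit 348304), .ofNat (nat_lit 0), .ofNat (nat_lit 306116), .ofNat (nat_lit 0), .ofNat (nat_lit 350426)⟩⟩, [⟨nat_lit 19, nat_lit 84, nat_lit 100, nat_lit 93, nat_lit 92711302⟩]⟩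
noncomputable def p100_l13 : Lf2 := ⟨nat_lit 0, nat_lit 10, [nat_lit 0, nat_lit 5, nat_lit 5, nat_lit 20], false, nat_lit 0, nat_lit 160, nat_lit 160, nat_lit 288, ⟨nat_lit 1000, nat_lit 0, nat_lit 0, nat_lit 0, nat_lit 0, nat_lit 0, nat_lit 0, nat_lit 0, nat_lit 0, nat_lit 0, nat_lit 0, nat_lit 0, nat_lit 0, nat_lit 0, nat_lit 0, nat_lit 0, false, false⟩,
 nat_lit 0, nat_lit 0, nat_lit 6779, nat_lit 0, nat_lit 5056, nat_lit 5284, nat_lit 803, nat_lit 0, nat_lit 0, nat_lit 1706, nat_lit 0, nat_lit 0, nat_lit 0, nat_lit 0, nat_lit 0, nat_lit 0, nat_lit 0, nat_lit 0, [],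
 ⟨p100_k2, nat_lit 0, nat_lit 0, nat_lit 155, nat_lit 0, nat_lit 0, [nat_lit 2032000001, nat_lit 4688000000, nat_lit 6250000000], [], [nat_lit 25077096064, nat_lit 27135489248, nat_lit 30230780608, nat_lit 31881586400, nat_lit 21775776262, nat_lit 23021056160, nat_lit 25770615856, nat_lit 27193696864], nat_lit 0, nat_lit 0, nat_lit 0, nat_lit 0, nat_lit 0, nat_lit 0, [], [nat_lit 6, nat_lit 40, nat_lit 40, nat_lit 80, nat_lit 3, nat_lit 249, nat_lit 40, nat_lit 9]⟩, ⟨p100_k1, nat_lit 0, nat_lit 0, nat_lit 604, nat_lit 0, nat_lit 1424204, [nat_lit 2032000000, nat_lit 4688000000, nat_lit 6250000000], [], [nat_lit 24906790180, nat_lit 25244369700, nat_lit 26757308260, nat_lit 27044874196, nat_lit 26829246227, nat_lit 27099008996, nat_lit 28897984307, nat_lit 29458027410], nat_lit 1271250, nat_lit 1271250, nat_lit 1271250, nat_lit 1271250, nat_lit 1100001, nat_lit 2196000, [nat_lit 490000, nat_lit 1100000, nat_lit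 1442500], [nat_lit 6, nat_lit 40, nat_lit 40, nat_lit 80, nat_lit 3, nat_lit 289, nat_lit 75, nat_lit 9]⟩,
 zbF0, [⟨nat_lit 7, nat_lit 100, nat_lit 77, nat_lit 91, nat_lit 412652440⟩]⟩
noncomputable def p100_l14 : Lf2 := ⟨nat_lit 0, nat_lit 10, [nat_lit 0, nat_lit 5, nat_lit 5, nat_lit 20], false, nat_lit 16, nat_lit 80, nat_lit 160, nat_lit 260, ⟨nat_lit 293, nat_lit 707, nat_lit 0, nat_lit 8, nat_lit 352, nat_lit 707, nat_lit 46, nat_lit 0, nat_lit 0, nat_lit 0, nat_lit 0, nat_lit 0, nat_lit 37000806, nat_lit 28813775, nat_lit 1185419, nat_lit 3918240, true, true⟩,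
 nat_lit 0, nat_lit 0, nat_lit 2654, nat_lit 0, nat_lit 2944, nat_lit 1990, nat_lit 147, nat_lit 0, nat_lit 0, nat_lit 110, nat_lit 0, nat_lit 0, nat_lit 0, nat_lit 0, nat_lit 0, nat_lit 695000, nat_lit 0, nat_lit 0, [(nat_lit 21, [(nat_lit 1, nat_lit 20), (nat_lit 2, nat_lit 687)])],
 ⟨p100_k2, nat_lit 0, nat_lit 0, nat_lit 165, nat_lit 0, nat_lit 0, [nat_lit 1585104401, nat_lit 1304237201, nat_lit 1082856400], [], [nat_lit 25648238910, nat_lit 26618595770, nat_lit 29071740952, nat_lit 30113241132, nat_lit 24927369367, nat_lit 25823813587, nat_lit 28020555005, nat_lit 28904551891], nat_lit 0, nat_lit 0, nat_lit 0, nat_lit 0, nat_lit 0, nat_lit 0, [], [nat_lit 6, nat_lit 40, nat_lit 40, nat_lit 80, nat_lit 3, nat_lit 226, nat_lit 20, nat_lit 7]⟩, ⟨p100_k0, nat_lit 0, nat_lit 0, nat_lit 628, nat_lit 0, nat_lit 1503106, [nat_lit 595376000, nat_lit 1373584000, nat_lit 1831250000], [], [nat_lit 9241791904, nat_lit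 9371405596, nat_lit 9700988351, nat_lit 9815409092, nat_lit 9336878025, nat_lit 9449342501, nat_lit 9720131421, nat_lit 9899433404], nat_lit 1271250, nat_lit 1271250, nat_lit 1271250, nat_lit 1271250, nat_lit 1100001, nat_lit 1956250, [nat_lit 490000, nat_lit 1100000, nat_lit 1442500], [nat_lit 6, nat_lit 40, nat_lit 40, nat_lit 80, nat_lit 3, nat_lit 289, nat_lit 75, nat_lit 9]⟩,
 ⟨nat_lit 3162, nat_lit 3873, ⟨.ofNat (nat_lit 824248), .ofNat (nat_lit 927530), .ofNat (nat_lit 846013), .ofNat (nat_lit 949299), .ofNat (nat_lit 815713), .ofNat (nat_lit 913286), .ofNat (nat_lit 837840), .ofNat (nat_lit 935417)⟩, ⟨.ofNat (nat_lit 40000), .ofNat (nat_lit 175674), .ofNat (nat_lit 40000), .ofNat (nat_lit 200000), .ofNat (nat_lit 40000), .ofNat (nat_lit 184209), .ofNat (nat_lit 40000), .ofNat (nat_lit 200000)⟩⟩, [⟨nat_lit 22, nat_lit 66, nat_lit 100, nat_lit 66, nat_lit 150249938⟩]⟩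
noncomputable def p100_l15 : Lf2 := ⟨nat_lit 0, nat_lit 10, [nat_lit 0, nat_lit 5, nat_lit 5, nat_lit 20], false, nat_lit 80, nat_lit 160, nat_lit 160, nat_lit 300, ⟨nat_lit 198, nat_lit 802, nat_lit 0, nat_lit 8, nat_lit 355, nat_lit 802, nat_lit 103, nat_lit 0, nat_lit 0, nat_lit 0, nat_lit 0, nat_lit 0, nat_lit 35142068, nat_lit 27960613, nat_lit 3897319, nat_lit 4583016, true, true⟩,
 nat_lit 0, nat_lit 0, nat_lit 1729, nat_lit 0, nat_lit 3239, nat_lit 1296, nat_lit 156, nat_lit 0, nat_lit 0, nat_lit 69, nat_lit 0, nat_lit 0, nat_lit 0, nat_lit 0, nat_lit 0, nat_lit 349000, nat_lit 0, nat_lit 0, [(nat_lit 21, [(nat_lit 1, nat_lit 755), (nat_lit 2, nat_lit 47)])],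
 ⟨p100_k2, nat_lit 0, nat_lit 0, nat_lit 129, nat_lit 0, nat_lit 0, [nat_lit 1491368401, nat_lit 2048501201, nat_lit 2310718400], [], [nat_lit 25055101009, nat_lit 26032668845, nat_lit 28953595674, nat_lit 29926444704, nat_lit 25533119563, nat_lit 26424456485, nat_lit 29058484605, nat_lit 29794219851], nat_lit 0, nat_lit 0, nat_lit 0, nat_lit 0, nat_lit 0, nat_lit 0, [], [nat_lit 6, nat_lit 40, nat_lit 40, nat_lit 80, nat_lit 3, nat_lit 249, nat_lit 40, nat_lit 8]⟩, ⟨p100_k0, nat_lit 0, nat_lit 0, nat_lit 602, nat_lit 0, nat_lit 1431917, [nat_lit 402336000, nat_lit 928224000, nat_lit 1237500000], [], [nat_lit 6584879184, nat_lit 6625011606, nat_lit 6931888320, nat_lit 6965684220, nat_lit 6696614208, nat_lit 6728187131, nat_lit 6992440398, nat_lit 7018559820], nat_lit 1271250, nat_lit 1271250, nat_lit 1271250, nat_lit 1271250, nat_lit 1100001, nat_lit 2298750, [nat_lit 490000, nat_lit 1100000, nat_lit 1442500],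 [nat_lit 6, nat_lit 40, nat_lit 40, nat_lit 80, nat_lit 3, nat_lit 289, nat_lit 75, nat_lit 9]⟩,
 ⟨nat_lit 3162, nat_lit 3873, ⟨.ofNat (nat_lit 824248), .ofNat (nat_lit 953347), .ofNat (nat_lit 835131), .ofNat (nat_lit 964233), .ofNat (nat_lit 815713), .ofNat (nat_lit 937676), .ofNat (nat_lit 826777), .ofNat (nat_lit 948743)⟩, ⟨.ofNat (nat_lit 175674), .ofNat (nat_lit 304717), .ofNat (nat_lit 200000), .ofNat (nat_lit 348304), .ofNat (nat_lit 184209), .ofNat (nat_lit 306116), .ofNat (nat_lit 200000), .ofNat (nat_lit 350426)⟩⟩, [⟨nat_lit 13, nat_lit 75, nat_lit 35, nat_lit 100, nat_lit 22662380⟩, ⟨nat_lit 10, nat_lit 100, nat_lit 54, nat_lit 93, nat_lit 90283733⟩]⟩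
noncomputable def p100_l16 : Lf2 := ⟨nat_lit 0, nat_lit 10, [nat_lit 0, nat_lit 5, nat_lit 5, nat_lit 20], false, nat_lit 80, nat_lit 160, nat_lit 160, nat_lit 288, ⟨nat_lit 1000, nat_lit 0, nat_lit 0, nat_lit 0, nat_lit 0, nat_lit 0, nat_lit 0, nat_lit 0, nat_lit 0, nat_lit 0, nat_lit 0, nat_lit 0, nat_lit 0, nat_lit 0, nat_lit 0, nat_lit 0, false, false⟩,
 nat_lit 0, nat_lit 0, nat_lit 6359, nat_lit 0, nat_lit 4070, nat_lit 4957, nat_lit 708, nat_lit 0, nat_lit 0, nat_lit 1624, nat_lit 0, nat_lit 0, nat_lit 0, nat_lit 0, nat_lit 0, nat_lit 0, nat_lit 0, nat_lit 0, [],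
 ⟨p100_k2, nat_lit 0, nat_lit 0, nat_lit 129, nat_lit 0, nat_lit 0, [nat_lit 2032000001, nat_lit 4688000000, nat_lit 6250000000], [], [nat_lit 25985113882, nat_lit 27065723742, nat_lit 30466372820, nat_lit 31558475520, nat_lit 26318623082, nat_lit 27297384422, nat_lit 30183989762, nat_lit 31002905200], nat_lit 0, nat_lit 0, nat_lit 0, nat_lit 0, nat_lit 0, nat_lit 0, [], [nat_lit 6, nat_lit 40, nat_lit 40, nat_lit 80, nat_lit 3, nat_lit 249, nat_lit 40, nat_lit 8]⟩, ⟨p100_k1, nat_lit 0, nat_lit 0, nat_lit 598, nat_lit 0, nat_lit 1424204, [nat_lit 2032000000, nat_lit 4688000000, nat_lit 6250000000], [], [nat_lit 29348887646, nat_lit 29597189042, nat_lit 31689894246, nat_lit 31930741976, nat_lit 30928147987, nat_lit 31162038942, nat_lit 33070315056, nat_lit 33494112580], nat_lit 1271250, nat_lit 1271250, nat_lit 1271250, nat_lit 1271250, nat_lit 1100001, nat_lit 2196000, [nat_lit 490000, nat_lit 1100000, nat_lit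 1442500], [nat_lit 6, nat_lit 40, nat_lit 40, nat_lit 80, nat_lit 3, nat_lit 289, nat_lit 75, nat_lit 9]⟩,
 zbF0, [⟨nat_lit 7, nat_lit 100, nat_lit 77, nat_lit 91, nat_lit 396497507⟩]⟩
noncomputable def b_V_800_800_20_0 : St := ⟨true, nat_lit 0, nat_lit 1, nat_lit 1, nat_lit 120, nat_lit 320, nat_lit 360, nat_lit 320, nat_lit 340, nat_lit 140, nat_lit 400, nat_lit 80, nat_lit 120, nat_lit 0, nat_lit 160, nat_lit 0, nat_lit 300, nat_lit 0, nat_lit 40, nat_lit 0, nat_lit 0, nat_lit 0, nat_lit 0⟩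
theorem d_V_800_800_20_0 (h : EB TB.env) : Dead b_V_800_800_20_0 := chkB_sound0 h (T :=
(.spl (nat_lit 2) (nat_lit 240)
(.spl (nat_lit 0) (nat_lit 340)
(.spl (nat_lit 1) (nat_lit 330)
(.leaf p100_l0)
(.ord (.trZ (nat_lit 0) (nat_lit 77) (nat_lit 77) (nat_lit 100) (nat_lit 168) (.trX (nat_lit 19) (nat_lit 83) (nat_lit 98) (nat_lit 100) (nat_lit 288) (.leaf p100_l1)))))
(.trZ (nat_lit 0) (nat_lit 81) (nat_lit 72) (nat_lit 100) (nat_lit 168) (.spl (nat_lit 4) (nat_lit 80)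
(.leaf p100_l2)
(.leaf p100_l3))))
(.spl (nat_lit 5) (nat_lit 160)
(.spl (nat_lit 1) (nat_lit 330)
(.spl (nat_lit 4) (nat_lit 80)
(.spl (nat_lit 0) (nat_lit 340)
(.leaf p100_l4)
(.spl (nat_lit 1) (nat_lit 325)
(.leaf p100_l5)
(.leaf p100_l6)))
(.spl (nat_lit 0) (nat_lit 340)
(.leaf p100_l7)
(.leaf p100_l8)))
(.ord (.leaf p100_l9)))
(.spl (nat_lit 0) (nat_lit 340)
(.spl (nat_lit 0) (nat_lit 330)
(.ord (.leaf p100_l10))
(.leaf p100_l11))
(.spl (nat_lit 2) (nat_lit 320)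
(.spl (nat_lit 1) (nat_lit 330)
(.leaf p100_l12)
(.trX (nat_lit 19) (nat_lit 83) (nat_lit 98) (nat_lit 100) (nat_lit 288) (.leaf p100_l13)))
(.trZ (nat_lit 22) (nat_lit 82) (nat_lit 100) (nat_lit 44) (nat_lit 16) (.spl (nat_lit 4) (nat_lit 80)
(.trX (nat_lit 10) (nat_lit 100) (nat_lit 44) (nat_lit 82) (nat_lit 384) (.trX (nat_lit 22) (nat_lit 83) (nat_lit 100) (nat_lit 83) (nat_lit 260) (.leaf p100_l14)))
(.spl (nat_lit 1) (nat_lit 330)
(.leaf p100_l15)
(.trX (nat_lit 19) (nat_lit 83) (nat_lit 98) (nat_lit 100) (nat_lit 288) (.leaf p100_l16)))))))))) (by decide +kernel)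
noncomputable def p100_l17 : Lf2 := ⟨nat_lit 0, nat_lit 10, [nat_lit 0, nat_lit 5, nat_lit 5, nat_lit 20], true, nat_lit 160, nat_lit 240, nat_lit 0, nat_lit 300, ⟨nat_lit 0, nat_lit 1000, nat_lit 0, nat_lit 8, nat_lit 236, nat_lit 1000, nat_lit 157, nat_lit 0, nat_lit 0, nat_lit 0, nat_lit 0, nat_lit 0, nat_lit 42529055, nat_lit 16093840, nat_lit 8377105, nat_lit 4784651, false, false⟩,
 nat_lit 0, nat_lit 0, nat_lit 0, nat_lit 0, nat_lit 3296, nat_lit 0, nat_lit 0, nat_lit 0, nat_lit 0, nat_lit 0, nat_lit 0, nat_lit 0, nat_lit 0, nat_lit 10120819549937, nat_lit 0, nat_lit 250000, nat_lit 0, nat_lit 0, [(nat_lit 18, [(nat_lit 0, nat_lit 1000)])],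
 ⟨p100_k0, nat_lit 0, nat_lit 0, nat_lit 31, nat_lit 0, nat_lit 0, [nat_lit 1532800000, nat_lit 2168000000, nat_lit 2562000000], [], [nat_lit 16060245312, nat_lit 17628616928, nat_lit 17736807424, nat_lit 19160510112, nat_lit 18945048528, nat_lit 20314583440, nat_lit 20352442816, nat_lit 21589375040], nat_lit 0, nat_lit 0, nat_lit 0, nat_lit 0, nat_lit 0, nat_lit 0, [], [nat_lit 6, nat_lit 40, nat_lit 40, nat_lit 80, nat_lit 3, nat_lit 345, nat_lit 125, nat_lit 12]⟩, C1.Rw.none,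
 ⟨nat_lit 3872, nat_lit 4473, ⟨.ofNat (nat_lit 527314), .ofNat (nat_lit 629293), .ofNat (nat_lit 548863), .ofNat (nat_lit 650842), .ofNat (nat_lit 533860), .ofNat (nat_lit 630654), .ofNat (nat_lit 555635), .ofNat (nat_lit 652429)⟩, ⟨.ofNat (nat_lit 302621), .ofNat (nat_lit 438578), .ofNat (nat_lit 345754), .ofNat (nat_lit 481711), .ofNat (nat_lit 304717), .ofNat (nat_lit 433760), .ofNat (nat_lit 348304), .ofNat (nat_lit 477347)⟩⟩, []⟩
noncomputable def p100_l18 : Lf2 := ⟨nat_lit 0, nat_lit 5, [nat_lit 4, nat_lit 5, nat_lit 5, nat_lit 20], true, nat_lit 240, nat_lit 280, nat_lit 0, nat_lit 300, ⟨nat_lit 0, nat_lit 1000, nat_lit 0, nat_lit 8, nat_lit 234, nat_lit 1000, nat_lit 197, nat_lit 0, nat_lit 0, nat_lit 0, nat_lit 0, nat_lit 0, nat_lit 40173308, nat_lit 15241522, nat_lit 11585170, nat_lit 5108362, false, false⟩,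
 nat_lit 0, nat_lit 0, nat_lit 0, nat_lit 0, nat_lit 3226, nat_lit 0, nat_lit 0, nat_lit 0, nat_lit 0, nat_lit 0, nat_lit 0, nat_lit 0, nat_lit 0, nat_lit 9537179815731, nat_lit 0, nat_lit 250000, nat_lit 0, nat_lit 0, [(nat_lit 18, [(nat_lit 0, nat_lit 1000)])],
 ⟨p100_k4, nat_lit 0, nat_lit 0, nat_lit 38, nat_lit 0, nat_lit 0, [nat_lit 1532800000, nat_lit 2168000000, nat_lit 2562000000], [], [nat_lit 18988100768, nat_lit 19659799178, nat_lit 20397768096, nat_lit 21010275668, nat_lit 20953545590, nat_lit 21569798036, nat_lit 22192395668, nat_lit 22755805833], nat_lit 0, nat_lit 0, nat_lit 0, nat_lit 0, nat_lit 0, nat_lit 0, [], [nat_lit 6, nat_lit 40, nat_lit 40, nat_lit 80, nat_lit 3, nat_lit 260, nat_lit 50, nat_lit 8]⟩, C1.Rw.none,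
 ⟨nat_lit 4183, nat_lit 4473, ⟨.ofNat (nat_lit 527406), .ofNat (nat_lit 629375), .ofNat (nat_lit 538187), .ofNat (nat_lit 640156), .ofNat (nat_lit 530591), .ofNat (nat_lit 629976), .ofNat (nat_lit 541422), .ofNat (nat_lit 640808)⟩, ⟨.ofNat (nat_lit 438578), .ofNat (nat_lit 506556), .ofNat (nat_lit 481711), .ofNat (nat_lit 549689), .ofNat (nat_lit 436254), .ofNat (nat_lit 502509), .ofNat (nat_lit 479587), .ofNat (nat_lit 545843)⟩⟩, [⟨nat_lit 0, nat_lit 77, nat_lit 77, nat_lit 100, nat_lit 7629140⟩]⟩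
noncomputable def p100_l19 : Lf2 := ⟨nat_lit 0, nat_lit 2, [nat_lit 10, nat_lit 5, nat_lit 5, nat_lit 20], true, nat_lit 280, nat_lit 300, nat_lit 0, nat_lit 300, ⟨nat_lit 0, nat_lit 1000, nat_lit 0, nat_lit 8, nat_lit 234, nat_lit 1000, nat_lit 217, nat_lit 0, nat_lit 0, nat_lit 0, nat_lit 0, nat_lit 0, nat_lit 38874832, nat_lit 14899666, nat_lit 13225502, nat_lit 5242206, false, false⟩,
 nat_lit 0, nat_lit 0, nat_lit 0, nat_lit 0, nat_lit 3213, nat_lit 0, nat_lit 0, nat_lit 0, nat_lit 0, nat_lit 0, nat_lit 0, nat_lit 0, nat_lit 0, nat_lit 12432843373603, nat_lit 0, nat_lit 250000, nat_lit 0, nat_lit 0, [(nat_lit 18, [(nat_lit 0, nat_lit 1000)])],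
 ⟨p100_k5, nat_lit 0, nat_lit 0, nat_lit 31, nat_lit 0, nat_lit 0, [nat_lit 1532800000, nat_lit 2168000000], [], [nat_lit 20958651795, nat_lit 21573792068, nat_lit 22198380634, nat_lit 22760824217, nat_lit 21939929601, nat_lit 22558363710, nat_lit 23094478127, nat_lit 23643716821], nat_lit 0, nat_lit 0, nat_lit 0, nat_lit 0, nat_lit 0, nat_lit 0, [], [nat_lit 24, nat_lit 40, nat_lit 40, nat_lit 80, nat_lit 33, nat_lit 260, nat_lit 50, nat_lit 10]⟩, C1.Rw.none,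
 ⟨nat_lit 4183, nat_lit 4473, ⟨.ofNat (nat_lit 527406), .ofNat (nat_lit 629375), .ofNat (nat_lit 538187), .ofNat (nat_lit 640156), .ofNat (nat_lit 530591), .ofNat (nat_lit 629976), .ofNat (nat_lit 541422), .ofNat (nat_lit 640808)⟩, ⟨.ofNat (nat_lit 506556), .ofNat (nat_lit 540545), .ofNat (nat_lit 549689), .ofNat (nat_lit 583678), .ofNat (nat_lit 502509), .ofNat (nat_lit 535637), .ofNat (nat_lit 545843), .ofNat (nat_lit 578971)⟩⟩, [⟨nat_lit 0, nat_lit 83, nat_lit 83, nat_lit 100, nat_lit 10292382⟩, ⟨nat_lit 16, nat_lit 87, nat_lit 95, nat_lit 100, nat_lit 265260458⟩]⟩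
noncomputable def p100_l20 : Lf2 := ⟨nat_lit 0, nat_lit 5, [nat_lit 4, nat_lit 5, nat_lit 5, nat_lit 20], false, nat_lit 280, nat_lit 300, nat_lit 0, nat_lit 300, ⟨nat_lit 98, nat_lit 902, nat_lit 0, nat_lit 8, nat_lit 233, nat_lit 902, nat_lit 218, nat_lit 0, nat_lit 0, nat_lit 0, nat_lit 0, nat_lit 0, nat_lit 38932766, nat_lit 14784999, nat_lit 13282235, nat_lit 5238140, false, false⟩,
 nat_lit 0, nat_lit 0, nat_lit 993, nat_lit 0, nat_lit 3270, nat_lit 744, nat_lit 0, nat_lit 0, nat_lit 0, nat_lit 42, nat_lit 0, nat_lit 0, nat_lit 0, nat_lit 10683860629765, nat_lit 0, nat_lit 225500, nat_lit 0, nat_lit 0, [(nat_lit 18, [(nat_lit 0, nat_lit 902)])],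
 ⟨p100_k4, nat_lit 0, nat_lit 0, nat_lit 42, nat_lit 0, nat_lit 0, [nat_lit 1581721600, nat_lit 2414960000, nat_lit 2923424000], [], [nat_lit 20985184650, nat_lit 21295193012, nat_lit 22221060460, nat_lit 22504401298, nat_lit 21972796495, nat_lit 22284206165, nat_lit 23122490930, nat_lit 23393438952], nat_lit 0, nat_lit 0, nat_lit 0, nat_lit 0, nat_lit 0, nat_lit 0, [], [nat_lit 6, nat_lit 40, nat_lit 40, nat_lit 80, nat_lit 3, nat_lit 260, nat_lit 50, nat_lit 8]⟩, ⟨p100_k4, nat_lit 0, nat_lit 0, nat_lit 467, nat_lit 0, nat_lit 883461, [nat_lit 199136000, nat_lit 459424000, nat_lit 612500000], [], [nat_lit 2777213160, nat_lit 2681066412, nat_lit 2522053040, nat_lit 2548616966, nat_lit 2414382920, nat_lit 2444557804, nat_lit 2552948888, nat_lit 2508264573], nat_lit 1271250, nat_lit 1271250, nat_lit 936251, nat_lit 1438750, nat_lit 0, nat_lit 2118750, [nat_lit 490000, nat_lit 1100000, nat_lit 1442500], [nat_lit 6,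 nat_lit 40, nat_lit 40, nat_lit 80, nat_lit 3, nat_lit 345, nat_lit 125, nat_lit 13]⟩,
 ⟨nat_lit 4330, nat_lit 4473, ⟨.ofNat (nat_lit 527426), .ofNat (nat_lit 629393), .ofNat (nat_lit 532816), .ofNat (nat_lit 634784), .ofNat (nat_lit 528999), .ofNat (nat_lit 629676), .ofNat (nat_lit 534402), .ofNat (nat_lit 635078)⟩, ⟨.ofNat (nat_lit 506556), .ofNat (nat_lit 540545), .ofNat (nat_lit 549689), .ofNat (nat_lit 583678), .ofNat (nat_lit 504552), .ofNat (nat_lit 538111), .ofNat (nat_lit 547779), .ofNat (nat_lit 581338)⟩⟩, [⟨nat_lit 0, nat_lit 82, nat_lit 82, nat_lit 100, nat_lit 47784785⟩, ⟨nat_lit 16, nat_lit 87, nat_lit 95, nat_lit 100, nat_lit 295989948⟩, ⟨nat_lit 19, nat_lit 87, nat_lit 95, nat_lit 100, nat_lit 13564852⟩]⟩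
noncomputable def p100_l21 : Lf2 := ⟨nat_lit 0, nat_lit 5, [nat_lit 4, nat_lit 5, nat_lit 5, nat_lit 20], false, nat_lit 280, nat_lit 296, nat_lit 0, nat_lit 300, ⟨nat_lit 98, nat_lit 902, nat_lit 0, nat_lit 8, nat_lit 237, nat_lit 902, nat_lit 215, nat_lit 0, nat_lit 0, nat_lit 0, nat_lit 0, nat_lit 0, nat_lit 38792466, nat_lit 15172918, nat_lit 13034616, nat_lit 5246324, false, false⟩,
 nat_lit 0, nat_lit 0, nat_lit 980, nat_lit 0, nat_lit 3270, nat_lit 734, nat_lit 0, nat_lit 0, nat_lit 0, nat_lit 41, nat_lit 0, nat_lit 0, nat_lit 0, nat_lit 10538474461036, nat_lit 0, nat_lit 225500, nat_lit 0, nat_lit 0, [(nat_lit 18, [(nat_lit 0, nat_lit 902)])],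
 ⟨p100_k6, nat_lit 0, nat_lit 0, nat_lit 29, nat_lit 0, nat_lit 0, [nat_lit 1581721600, nat_lit 2414960000], [], [nat_lit 21412473107, nat_lit 21719133104, nat_lit 22504401298, nat_lit 22787742135, nat_lit 22183073463, nat_lit 22493648787, nat_lit 23215631421, nat_lit 23491823582], nat_lit 0, nat_lit 0, nat_lit 0, nat_lit 0, nat_lit 0, nat_lit 0, [], [nat_lit 24, nat_lit 40, nat_lit 40, nat_lit 80, nat_lit 33, nat_lit 260, nat_lit 50, nat_lit 10]⟩, ⟨p100_k4, nat_lit 0, nat_lit 0, nat_lit 512, nat_lit 0, nat_lit 965652, [nat_lit 199136000, nat_lit 459424000, nat_lit 612500000], [], [nat_lit 2624856880, nat_lit 2565249218, nat_lit 2562451240, nat_lit 2615195592, nat_lit 2456747195, nat_lit 2492137377, nat_lit 2580997908, nat_lit 2546358116], nat_lit 1271250, nat_lit 1271250, nat_lit 1000851, nat_lit 1440250, nat_lit 0, nat_lit 2118750, [nat_lit 490000, nat_lit 1100000, nat_lit 1442500], [nat_lit 6, nat_lit 40, nat_lit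 40, nat_lit 80, nat_lit 3, nat_lit 345, nat_lit 125, nat_lit 13]⟩,
 ⟨nat_lit 4183, nat_lit 4331, ⟨.ofNat (nat_lit 542422), .ofNat (nat_lit 629675), .ofNat (nat_lit 553228), .ofNat (nat_lit 640481), .ofNat (nat_lit 543861), .ofNat (nat_lit 629993), .ofNat (nat_lit 554693), .ofNat (nat_lit 640826)⟩, ⟨.ofNat (nat_lit 504552), .ofNat (nat_lit 531399), .ofNat (nat_lit 547779), .ofNat (nat_lit 574626), .ofNat (nat_lit 502509), .ofNat (nat_lit 529012), .ofNat (nat_lit 545843), .ofNat (nat_lit 572345)⟩⟩, [⟨nat_lit 0, nat_lit 80, nat_lit 79, nat_lit 100, nat_lit 42482319⟩, ⟨nat_lit 16, nat_lit 85, nat_lit 97, nat_lit 100, nat_lit 300277472⟩, ⟨nat_lit 19, nat_lit 87, nat_lit 95, nat_lit 100, nat_lit 17002982⟩]⟩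
noncomputable def p100_l22 : Lf2 := ⟨nat_lit 0, nat_lit 10, [nat_lit 0, nat_lit 5, nat_lit 5, nat_lit 20], false, nat_lit 240, nat_lit 300, nat_lit 0, nat_lit 300, ⟨nat_lit 1000, nat_lit 0, nat_lit 0, nat_lit 0, nat_lit 0, nat_lit 0, nat_lit 0, nat_lit 0, nat_lit 0, nat_lit 0, nat_lit 0, nat_lit 0, nat_lit 0, nat_lit 0, nat_lit 0, nat_lit 0, false, false⟩,
 nat_lit 0, nat_lit 0, nat_lit 9979, nat_lit 0, nat_lit 3757, nat_lit 7483, nat_lit 0, nat_lit 0, nat_lit 0, nat_lit 423, nat_lit 0, nat_lit 0, nat_lit 0, nat_lit 0, nat_lit 0, nat_lit 0, nat_lit 0, nat_lit 0, [],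
 ⟨p100_k0, nat_lit 0, nat_lit 0, nat_lit 45, nat_lit 0, nat_lit 0, [nat_lit 2032000001, nat_lit 4688000000, nat_lit 6250000000], [], [nat_lit 19160718777, nat_lit 19884341022, nat_lit 20553143473, nat_lit 21210850827, nat_lit 22285905746, nat_lit 22916615261, nat_lit 23394127504, nat_lit 23969610841], nat_lit 0, nat_lit 0, nat_lit 0, nat_lit 0, nat_lit 0, nat_lit 0, [], [nat_lit 6, nat_lit 40, nat_lit 40, nat_lit 80, nat_lit 3, nat_lit 260, nat_lit 50, nat_lit 8]⟩, ⟨p100_k0, nat_lit 0, nat_lit 0, nat_lit 444, nat_lit 0, nat_lit 817702, [nat_lit 2032000000, nat_lit 4688000000, nat_lit 6250000000], [], [nat_lit 28344832038, nat_lit 26410783341, nat_lit 26153666940, nat_lit 26691613990, nat_lit 25127281753, nat_lit 25494786287, nat_lit 26301443934, nat_lit 25979528516], nat_lit 1271250, nat_lit 1271250, nat_lit 936251, nat_lit 1438750, nat_lit 0, nat_lit 2118750, [nat_lit 490000, nat_lit 1100000, nat_lit 1442500],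 [nat_lit 6, nat_lit 40, nat_lit 40, nat_lit 80, nat_lit 3, nat_lit 345, nat_lit 125, nat_lit 13]⟩,
 zbF0, [⟨nat_lit 0, nat_lit 77, nat_lit 77, nat_lit 100, nat_lit 596464404⟩, ⟨nat_lit 16, nat_lit 84, nat_lit 100, nat_lit 93, nat_lit 584241536⟩, ⟨nat_lit 16, nat_lit 87, nat_lit 95, nat_lit 100, nat_lit 14505076⟩, ⟨nat_lit 19, nat_lit 87, nat_lit 95, nat_lit 100, nat_lit 157711602⟩]⟩
noncomputable def p100_l23 : Lf2 := ⟨nat_lit 0, nat_lit 5, [nat_lit 4, nat_lit 5, nat_lit 5, nat_lit 20], false, nat_lit 240, nat_lit 288, nat_lit 0, nat_lit 300, ⟨nat_lit 84, nat_lit 916, nat_lit 0, nat_lit 8, nat_lit 241, nat_lit 916, nat_lit 199, nat_lit 0, nat_lit 0, nat_lit 0, nat_lit 0, nat_lit 0, nat_lit 39560887, nat_lit 15815447, nat_lit 11623666, nat_lit 5157112, false, false⟩,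
 nat_lit 0, nat_lit 0, nat_lit 854, nat_lit 0, nat_lit 3265, nat_lit 640, nat_lit 0, nat_lit 0, nat_lit 0, nat_lit 33, nat_lit 0, nat_lit 0, nat_lit 0, nat_lit 10258937955697, nat_lit 0, nat_lit 229000, nat_lit 0, nat_lit 0, [(nat_lit 18, [(nat_lit 0, nat_lit 916)])],
 ⟨p100_k7, nat_lit 0, nat_lit 0, nat_lit 28, nat_lit 0, nat_lit 0, [nat_lit 1574732800, nat_lit 2379680000], [], [nat_lit 19950225413, nat_lit 20280462196, nat_lit 21030275570, nat_lit 21338189235, nat_lit 22203344135, nat_lit 22510355145, nat_lit 23133165065, nat_lit 23416097769], nat_lit 0, nat_lit 0, nat_lit 0, nat_lit 0, nat_lit 0, nat_lit 0, [], [nat_lit 24, nat_lit 40, nat_lit 40, nat_lit 80, nat_lit 33, nat_lit 260, nat_lit 50, nat_lit 10]⟩, ⟨p100_k4, nat_lit 0, nat_lit 0, nat_lit 606, nat_lit 0, nat_lit 1184083, [nat_lit 170688000, nat_lit 393792000, nat_lit 525000000], [], [nat_lit 2239276724, nat_lit 2300325676, nat_lit 2269206480, nat_lit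 2325601428, nat_lit 2129022589, nat_lit 2175911568, nat_lit 2191659728, nat_lit 2225956644], nat_lit 1271250, nat_lit 1271250, nat_lit 1066650, nat_lit 1441750, nat_lit 0, nat_lit 2118750, [nat_lit 490000, nat_lit 1100000, nat_lit 1442500], [nat_lit 6, nat_lit 40, nat_lit 40, nat_lit 80, nat_lit 3, nat_lit 345, nat_lit 125, nat_lit 13]⟩,
 ⟨nat_lit 4031, nat_lit 4184, ⟨.ofNat (nat_lit 557111), .ofNat (nat_lit 629993), .ofNat (nat_lit 573360), .ofNat (nat_lit 646242), .ofNat (nat_lit 558420), .ofNat (nat_lit 630350), .ofNat (nat_lit 574714), .ofNat (nat_lit 646645)⟩, ⟨.ofNat (nat_lit 436254), .ofNat (nat_lit 515761), .ofNat (nat_lit 479587), .ofNat (nat_lit 559094), .ofNat (nat_lit 435031), .ofNat (nat_lit 513500), .ofNat (nat_lit 478484), .ofNat (nat_lit 556953)⟩⟩, [⟨nat_lit 0, nat_lit 78, nat_lit 76, nat_lit 100, nat_lit 39008089⟩, ⟨nat_lit 16, nat_lit 83, nat_lit 98, nat_lit 100, nat_lit 276672352⟩, ⟨nat_lit 19,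 nat_lit 87, nat_lit 95, nat_lit 100, nat_lit 14932534⟩]⟩
noncomputable def p100_l24 : Lf2 := ⟨nat_lit 0, nat_lit 5, [nat_lit 4, nat_lit 5, nat_lit 5, nat_lit 20], true, nat_lit 240, nat_lit 284, nat_lit 0, nat_lit 300, ⟨nat_lit 0, nat_lit 1000, nat_lit 0, nat_lit 8, nat_lit 244, nat_lit 1000, nat_lit 197, nat_lit 0, nat_lit 0, nat_lit 0, nat_lit 0, nat_lit 0, nat_lit 39485849, nat_lit 16087898, nat_lit 11426253, nat_lit 5156754, true, false⟩,
 nat_lit 0, nat_lit 0, nat_lit 0, nat_lit 0, nat_lit 3218, nat_lit 0, nat_lit 0, nat_lit 0, nat_lit 0, nat_lit 0, nat_lit 0, nat_lit 0, nat_lit 0, nat_lit 1052036075166, nat_lit 0, nat_lit 250000, nat_lit 0, nat_lit 0, [(nat_lit 18, [(nat_lit 0, nat_lit 1000)])],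
 ⟨p100_k8, nat_lit 0, nat_lit 0, nat_lit 28, nat_lit 0, nat_lit 0, [nat_lit 1532800000, nat_lit 2168000000], [], [nat_lit 20327938526, nat_lit 20654090496, nat_lit 21320688022, nat_lit 21626601320, nat_lit 22342487595, nat_lit 22654751585, nat_lit 23212263114, nat_lit 23505505393], nat_lit 0, nat_lit 0, nat_lit 0, nat_lit 0, nat_lit 0, nat_lit 0, [], [nat_lit 24, nat_lit 40, nat_lit 40, nat_lit 80, nat_lit 33, nat_lit 203, nat_lit 0, nat_lit 7]⟩, C1.Rw.none,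
 ⟨nat_lit 3872, nat_lit 4032, ⟨.ofNat (nat_lit 564958), .ofNat (nat_lit 630350), .ofNat (nat_lit 586684), .ofNat (nat_lit 652075), .ofNat (nat_lit 566229), .ofNat (nat_lit 630751), .ofNat (nat_lit 588021), .ofNat (nat_lit 652544)⟩, ⟨.ofNat (nat_lit 435031), .ofNat (nat_lit 506961), .ofNat (nat_lit 478484), .ofNat (nat_lit 550414), .ofNat (nat_lit 433760), .ofNat (nat_lit 504734), .ofNat (nat_lit 477347), .ofNat (nat_lit 548321)⟩⟩, [⟨nat_lit 0, nat_lit 76, nat_lit 73, nat_lit 100, nat_lit 299618696⟩, ⟨nat_lit 16, nat_lit 81, nat_lit 100, nat_lit 100, nat_lit 257445163⟩]⟩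
noncomputable def p100_l25 : Lf2 := ⟨nat_lit 0, nat_lit 10, [nat_lit 0, nat_lit 5, nat_lit 5, nat_lit 20], false, nat_lit 240, nat_lit 288, nat_lit 0, nat_lit 300, ⟨nat_lit 1000, nat_lit 0, nat_lit 0, nat_lit 0, nat_lit 0, nat_lit 0, nat_lit 0, nat_lit 0, nat_lit 0, nat_lit 0, nat_lit 0, nat_lit 0, nat_lit 0, nat_lit 0, nat_lit 0, nat_lit 0, false, false⟩,
 nat_lit 0, nat_lit 0, nat_lit 9706, nat_lit 0, nat_lit 3817, nat_lit 7279, nat_lit 0, nat_lit 0, nat_lit 0, nat_lit 415, nat_lit 0, nat_lit 0, nat_lit 0, nat_lit 549969492554, nat_lit 0, nat_lit 0, nat_lit 0, nat_lit 0, [],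
 ⟨p100_k1, nat_lit 0, nat_lit 0, nat_lit 43, nat_lit 0, nat_lit 0, [nat_lit 2032000001, nat_lit 4688000000, nat_lit 6250000000], [], [nat_lit 20103022773, nat_lit 20815727130, nat_lit 21177107907, nat_lit 21839922581, nat_lit 22495177270, nat_lit 23170103729, nat_lit 23396813299, nat_lit 24022581084], nat_lit 0, nat_lit 0, nat_lit 0, nat_lit 0, nat_lit 0, nat_lit 0, [], [nat_lit 6, nat_lit 40, nat_lit 40, nat_lit 80, nat_lit 3, nat_lit 260, nat_lit 50, nat_lit 8]⟩, ⟨p100_k0, nat_lit 0, nat_lit 0, nat_lit 519, nat_lit 0, nat_lit 985425, [nat_lit 2032000000, nat_lit 4688000000, nat_lit 6250000000], [], [nat_lit 26822556759, nat_lit 27889683475, nat_lit 27277532036, nat_lit 28264131216, nat_lit 25960933333, nat_lit 26665821454, nat_lit 26871155142, nat_lit 26738045502], nat_lit 1271250, nat_lit 1271250, nat_lit 1066650, nat_lit 1441750, nat_lit 0, nat_lit 2118750, [nat_lit 490000, nat_lit 1100000, nat_lit 1442500],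 [nat_lit 6, nat_lit 40, nat_lit 40, nat_lit 80, nat_lit 3, nat_lit 345, nat_lit 125, nat_lit 13]⟩,
 zbF0, [⟨nat_lit 0, nat_lit 77, nat_lit 74, nat_lit 100, nat_lit 255507954⟩, ⟨nat_lit 0, nat_lit 71, nat_lit 71, nat_lit 100, nat_lit 427520993⟩, ⟨nat_lit 16, nat_lit 83, nat_lit 98, nat_lit 100, nat_lit 212029724⟩, ⟨nat_lit 4, nat_lit 100, nat_lit 77, nat_lit 91, nat_lit 410551295⟩, ⟨nat_lit 19, nat_lit 81, nat_lit 100, nat_lit 92, nat_lit 208289756⟩]⟩
noncomputable def p100_l26 : Lf2 := ⟨nat_lit 0, nat_lit 10, [nat_lit 0, nat_lit 5, nat_lit 5, nat_lit 20], false, nat_lit 160, nat_lit 276, nat_lit 0, nat_lit 300, ⟨nat_lit 92, nat_lit 908, nat_lit 0, nat_lit 8, nat_lit 245, nat_lit 908, nat_lit 167, nat_lit 0, nat_lit 0, nat_lit 0, nat_lit 0, nat_lit 0, nat_lit 41197275, nat_lit 16694017, nat_lit 9108708, nat_lit 4928920, true, false⟩,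
 nat_lit 0, nat_lit 0, nat_lit 970, nat_lit 0, nat_lit 3299, nat_lit 727, nat_lit 0, nat_lit 0, nat_lit 0, nat_lit 30, nat_lit 0, nat_lit 0, nat_lit 0, nat_lit 0, nat_lit 0, nat_lit 227000, nat_lit 0, nat_lit 0, [(nat_lit 21, [(nat_lit 0, nat_lit 908)])],
 ⟨p100_k2, nat_lit 0, nat_lit 0, nat_lit 48, nat_lit 0, nat_lit 0, [nat_lit 1601971200, nat_lit 2379864001, nat_lit 2523568000], [], [nat_lit 18310627323, nat_lit 19814260220, nat_lit 19227986678, nat_lit 20652319900, nat_lit 22497746608, nat_lit 23770323047, nat_lit 23194782746, nat_lit 24403050566], nat_lit 0, nat_lit 0, nat_lit 0, nat_lit 0, nat_lit 0, nat_lit 0, [], [nat_lit 6, nat_lit 40, nat_lit 40, nat_lit 80, nat_lit 3, nat_lit 345, nat_lit 125, nat_lit 12]⟩, ⟨p100_k0, nat_lit 0, nat_lit 0, nat_lit 711, nat_lit 0, nat_lit 1431917, [nat_lit 186944000, nat_lit 431296000, nat_lit 575000000], [], [nat_lit 2616331429, nat_lit 2643871075, nat_lit 2617480824,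 nat_lit 2643354213, nat_lit 2340541538, nat_lit 2364780821, nat_lit 2339334951, nat_lit 2411212231], nat_lit 1271250, nat_lit 1271250, nat_lit 1167600, nat_lit 1444000, nat_lit 0, nat_lit 2118750, [nat_lit 490000, nat_lit 1100000, nat_lit 1442500], [nat_lit 6, nat_lit 40, nat_lit 40, nat_lit 80, nat_lit 3, nat_lit 345, nat_lit 125, nat_lit 13]⟩,
 ⟨nat_lit 3162, nat_lit 3873, ⟨.ofNat (nat_lit 578944), .ofNat (nat_lit 630587), .ofNat (nat_lit 589826), .ofNat (nat_lit 641469), .ofNat (nat_lit 583969), .ofNat (nat_lit 632757), .ofNat (nat_lit 595032), .ofNat (nat_lit 643820)⟩, ⟨.ofNat (nat_lit 304717), .ofNat (nat_lit 491830), .ofNat (nat_lit 348304), .ofNat (nat_lit 535416), .ofNat (nat_lit 306116), .ofNat (nat_lit 482881), .ofNat (nat_lit 350426), .ofNat (nat_lit 527190)⟩⟩, [⟨nat_lit 0, nat_lit 81, nat_lit 72, nat_lit 100, nat_lit 306326694⟩, ⟨nat_lit 16, nat_lit 77, nat_lit 100, nat_lit 99, nat_lit 239573725⟩, ⟨nat_lit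 19, nat_lit 87, nat_lit 95, nat_lit 100, nat_lit 13650714⟩]⟩
noncomputable def p100_l27 : Lf2 := ⟨nat_lit 0, nat_lit 10, [nat_lit 0, nat_lit 5, nat_lit 5, nat_lit 20], false, nat_lit 160, nat_lit 276, nat_lit 0, nat_lit 288, ⟨nat_lit 1000, nat_lit 0, nat_lit 0, nat_lit 0, nat_lit 0, nat_lit 0, nat_lit 0, nat_lit 0, nat_lit 0, nat_lit 0, nat_lit 0, nat_lit 0, nat_lit 0, nat_lit 0, nat_lit 0, nat_lit 0, false, false⟩,
 nat_lit 0, nat_lit 0, nat_lit 7060, nat_lit 0, nat_lit 3809, nat_lit 5503, nat_lit 0, nat_lit 0, nat_lit 0, nat_lit 2520, nat_lit 0, nat_lit 0, nat_lit 0, nat_lit 0, nat_lit 0, nat_lit 0, nat_lit 0, nat_lit 0, [],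
 ⟨p100_k2, nat_lit 0, nat_lit 0, nat_lit 47, nat_lit 0, nat_lit 0, [nat_lit 2032000001, nat_lit 4688000000, nat_lit 6250000000], [], [nat_lit 18790813572, nat_lit 20377307401, nat_lit 19369927699, nat_lit 20901451701, nat_lit 23030987769, nat_lit 24366999803, nat_lit 23457411544, nat_lit 24748399310], nat_lit 0, nat_lit 0, nat_lit 0, nat_lit 0, nat_lit 0, nat_lit 0, [], [nat_lit 6, nat_lit 40, nat_lit 40, nat_lit 80, nat_lit 3, nat_lit 345, nat_lit 125, nat_lit 12]⟩, ⟨p100_k1, nat_lit 0, nat_lit 0, nat_lit 706, nat_lit 0, nat_lit 1424204, [nat_lit 2032000000, nat_lit 4688000000, nat_lit 6250000000], [], [nat_lit 22354449882, nat_lit 23314381630, nat_lit 22743110878, nat_lit 23930915828, nat_lit 24442514568, nat_lit 24788876487, nat_lit 24648834694, nat_lit 24984341928], nat_lit 1271250, nat_lit 1271250, nat_lit 1271250, nat_lit 1271250, nat_lit 0, nat_lit 2034000, [nat_lit 490000, nat_lit 1100000, nat_lit 1442500],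 [nat_lit 6, nat_lit 40, nat_lit 40, nat_lit 80, nat_lit 3, nat_lit 345, nat_lit 125, nat_lit 13]⟩,
 zbF0, [⟨nat_lit 0, nat_lit 76, nat_lit 72, nat_lit 100, nat_lit 556536147⟩, ⟨nat_lit 16, nat_lit 77, nat_lit 100, nat_lit 99, nat_lit 508467018⟩, ⟨nat_lit 19, nat_lit 83, nat_lit 98, nat_lit 100, nat_lit 236037369⟩]⟩
noncomputable def p100_l28 : Lf2 := ⟨nat_lit 0, nat_lit 10, [nat_lit 0, nat_lit 5, nat_lit 5, nat_lit 20], false, nat_lit 160, nat_lit 300, nat_lit 0, nat_lit 300, ⟨nat_lit 103, nat_lit 897, nat_lit 0, nat_lit 8, nat_lit 267, nat_lit 897, nat_lit 177, nat_lit 0, nat_lit 0, nat_lit 0, nat_lit 0, nat_lit 0, nat_lit 38880104, nat_lit 18554710, nat_lit 9565186, nat_lit 5110374, true, false⟩,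
 nat_lit 0, nat_lit 0, nat_lit 1035, nat_lit 0, nat_lit 3260, nat_lit 776, nat_lit 0, nat_lit 0, nat_lit 0, nat_lit 39, nat_lit 0, nat_lit 0, nat_lit 0, nat_lit 6296457385620, nat_lit 0, nat_lit 224250, nat_lit 0, nat_lit 0, [(nat_lit 18, [(nat_lit 0, nat_lit 897)])],
 ⟨p100_k0, nat_lit 0, nat_lit 0, nat_lit 39, nat_lit 0, nat_lit 0, [nat_lit 1584217600, nat_lit 2427560001, nat_lit 2941864000], [], [nat_lit 17816127040, nat_lit 18524195180, nat_lit 19373432720, nat_lit 20029677520, nat_lit 23128655140, nat_lit 23669861505, nat_lit 24272009500, nat_lit 24801946995], nat_lit 0, nat_lit 0, nat_lit 0, nat_lit 0, nat_lit 0, nat_lit 0, [], [nat_lit 6, nat_lit 40, nat_lit 40, nat_lit 80, nat_lit 3, nat_lit 289, nat_lit 75, nat_lit 10]⟩, ⟨p100_k0, nat_lit 0, nat_lit 0, nat_lit 564, nat_lit 0, nat_lit 1130711, [nat_lit 209296000, nat_lit 482864000, nat_lit 643750000], [], [nat_lit 2861617628, nat_lit 2904248166, nat_lit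 2920900572, nat_lit 2960144993, nat_lit 2656348947, nat_lit 2684077451, nat_lit 2724143986, nat_lit 2807553484], nat_lit 1271250, nat_lit 1271250, nat_lit 1271250, nat_lit 1271250, nat_lit 0, nat_lit 2118750, [nat_lit 490000, nat_lit 1100000, nat_lit 1442500], [nat_lit 6, nat_lit 40, nat_lit 40, nat_lit 80, nat_lit 3, nat_lit 289, nat_lit 75, nat_lit 10]⟩,
 ⟨nat_lit 4183, nat_lit 4473, ⟨.ofNat (nat_lit 629375), .ofNat (nat_lit 697354), .ofNat (nat_lit 640156), .ofNat (nat_lit 708135), .ofNat (nat_lit 629976), .ofNat (nat_lit 696233), .ofNat (nat_lit 640808), .ofNat (nat_lit 707064)⟩, ⟨.ofNat (nat_lit 302621), .ofNat (nat_lit 540545), .ofNat (nat_lit 345754), .ofNat (nat_lit 583678), .ofNat (nat_lit 303743), .ofNat (nat_lit 535637), .ofNat (nat_lit 347076), .ofNat (nat_lit 578971)⟩⟩, [⟨nat_lit 16, nat_lit 87, nat_lit 95, nat_lit 100, nat_lit 212872893⟩, ⟨nat_lit 19, nat_lit 87, nat_lit 95, nat_lit 100, nat_lit 17144370⟩]⟩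
noncomputable def p100_l29 : Lf2 := ⟨nat_lit 0, nat_lit 10, [nat_lit 0, nat_lit 5, nat_lit 5, nat_lit 20], false, nat_lit 160, nat_lit 288, nat_lit 0, nat_lit 300, ⟨nat_lit 99, nat_lit 901, nat_lit 0, nat_lit 8, nat_lit 270, nat_lit 901, nat_lit 172, nat_lit 0, nat_lit 0, nat_lit 0, nat_lit 0, nat_lit 0, nat_lit 38978255, nat_lit 18832552, nat_lit 9189193, nat_lit 5080372, true, false⟩,
 nat_lit 0, nat_lit 0, nat_lit 998, nat_lit 0, nat_lit 3250, nat_lit 748, nat_lit 0, nat_lit 0, nat_lit 0, nat_lit 34, nat_lit 0, nat_lit 0, nat_lit 0, nat_lit 9950650444423, nat_lit 0, nat_lit 225250, nat_lit 0, nat_lit 0, [(nat_lit 18, [(nat_lit 0, nat_lit 901)])],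
 ⟨p100_k1, nat_lit 0, nat_lit 0, nat_lit 40, nat_lit 0, nat_lit 0, [nat_lit 1582220800, nat_lit 2417480000, nat_lit 2927112000], [], [nat_lit 18528898050, nat_lit 19235915300, nat_lit 20033282300, nat_lit 20688588800, nat_lit 23145914450, nat_lit 23701237900, nat_lit 24289765201, nat_lit 24832001400], nat_lit 0, nat_lit 0, nat_lit 0, nat_lit 0, nat_lit 0, nat_lit 0, [], [nat_lit 6, nat_lit 40, nat_lit 40, nat_lit 80, nat_lit 3, nat_lit 289, nat_lit 75, nat_lit 10]⟩, ⟨p100_k0, nat_lit 0, nat_lit 0, nat_lit 643, nat_lit 0, nat_lit 1302825, [nat_lit 201168000, nat_lit 464112000, nat_lit 618750000], [], [nat_lit 2887795408, nat_lit 2955142116, nat_lit 2928671716, nat_lit 2990592014, nat_lit 2641978463, nat_lit 2681740350, nat_lit 2648813988, nat_lit 2780059750], nat_lit 1271250, nat_lit 1271250, nat_lit 1271250, nat_lit 1271250, nat_lit 0, nat_lit 2118750, [nat_lit 490000, nat_lit 1100000, nat_lit 1442500], [nat_lit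 6, nat_lit 40, nat_lit 40, nat_lit 80, nat_lit 3, nat_lit 289, nat_lit 75, nat_lit 10]⟩,
 ⟨nat_lit 3872, nat_lit 4184, ⟨.ofNat (nat_lit 629971), .ofNat (nat_lit 696229), .ofNat (nat_lit 651632), .ofNat (nat_lit 717891), .ofNat (nat_lit 630730), .ofNat (nat_lit 695254), .ofNat (nat_lit 652518), .ofNat (nat_lit 717043)⟩, ⟨.ofNat (nat_lit 303743), .ofNat (nat_lit 515761), .ofNat (nat_lit 347076), .ofNat (nat_lit 559094), .ofNat (nat_lit 304717), .ofNat (nat_lit 511186), .ofNat (nat_lit 348304), .ofNat (nat_lit 554773)⟩⟩, [⟨nat_lit 16, nat_lit 83, nat_lit 98, nat_lit 100, nat_lit 216331346⟩, ⟨nat_lit 7, nat_lit 100, nat_lit 81, nat_lit 92, nat_lit 17777710⟩]⟩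
noncomputable def p100_l30 : Lf2 := ⟨nat_lit 0, nat_lit 10, [nat_lit 0, nat_lit 5, nat_lit 5, nat_lit 20], false, nat_lit 160, nat_lit 276, nat_lit 0, nat_lit 300, ⟨nat_lit 94, nat_lit 906, nat_lit 0, nat_lit 8, nat_lit 270, nat_lit 906, nat_lit 167, nat_lit 0, nat_lit 0, nat_lit 0, nat_lit 0, nat_lit 0, nat_lit 39243741, nat_lit 18930476, nat_lit 8825783, nat_lit 5039659, true, false⟩,
 nat_lit 0, nat_lit 0, nat_lit 965, nat_lit 0, nat_lit 3301, nat_lit 723, nat_lit 0, nat_lit 0, nat_lit 0, nat_lit 30, nat_lit 0, nat_lit 0, nat_lit 0, nat_lit 0, nat_lit 0, nat_lit 226500, nat_lit 0, nat_lit 0, [(nat_lit 21, [(nat_lit 0, nat_lit 906)])],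
 ⟨p100_k2, nat_lit 0, nat_lit 0, nat_lit 46, nat_lit 0, nat_lit 0, [nat_lit 1602918401, nat_lit 2384948001, nat_lit 2531776000], [], [nat_lit 19227804123, nat_lit 20652557701, nat_lit 20685503673, nat_lit 22010421860, nat_lit 23195073476, nat_lit 24404404875, nat_lit 24366600913, nat_lit 25491034676], nat_lit 0, nat_lit 0, nat_lit 0, nat_lit 0, nat_lit 0, nat_lit 0, [], [nat_lit 6, nat_lit 40, nat_lit 40, nat_lit 80, nat_lit 3, nat_lit 289, nat_lit 75, nat_lit 10]⟩, ⟨p100_k0, nat_lit 0, nat_lit 0, nat_lit 732, nat_lit 0, nat_lit 1503106, [nat_lit 191008000, nat_lit 440672000, nat_lit 587500000], [], [nat_lit 2798877440, nat_lit 2851315710, nat_lit 2823897132, nat_lit 2871955222, nat_lit 2515647214, nat_lit 2545585273, nat_lit 2511996680, nat_lit 2647831575], nat_lit 1271250, nat_lit 1271250, nat_lit 1271250, nat_lit 1271250, nat_lit 0, nat_lit 2118750, [nat_lit 490000, nat_lit 1100000, nat_lit 1442500], [nat_lit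 6, nat_lit 40, nat_lit 40, nat_lit 80, nat_lit 3, nat_lit 293, nat_lit 75, nat_lit 11]⟩,
 ⟨nat_lit 3162, nat_lit 3873, ⟨.ofNat (nat_lit 630587), .ofNat (nat_lit 695141), .ofNat (nat_lit 652352), .ofNat (nat_lit 716905), .ofNat (nat_lit 632757), .ofNat (nat_lit 693742), .ofNat (nat_lit 654883), .ofNat (nat_lit 715869)⟩, ⟨.ofNat (nat_lit 304717), .ofNat (nat_lit 491830), .ofNat (nat_lit 348304), .ofNat (nat_lit 535416), .ofNat (nat_lit 306116), .ofNat (nat_lit 482881), .ofNat (nat_lit 350426), .ofNat (nat_lit 527190)⟩⟩, [⟨nat_lit 16, nat_lit 77, nat_lit 100, nat_lit 99, nat_lit 228458002⟩, ⟨nat_lit 19, nat_lit 81, nat_lit 100, nat_lit 92, nat_lit 15927787⟩]⟩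
noncomputable def b_V_800_800_20_1 : St := ⟨true, nat_lit 0, nat_lit 1, nat_lit 1, nat_lit 120, nat_lit 320, nat_lit 360, nat_lit 320, nat_lit 340, nat_lit 140, nat_lit 240, nat_lit 80, nat_lit 120, nat_lit 160, nat_lit 300, nat_lit 0, nat_lit 300, nat_lit 0, nat_lit 40, nat_lit 0, nat_lit 0, nat_lit 0, nat_lit 0⟩
theorem d_V_800_800_20_1 (h : EB TB.env) : Dead b_V_800_800_20_1 := chkB_sound0 h (T :=
(.spl (nat_lit 2) (nat_lit 200)
(.spl (nat_lit 0) (nat_lit 340)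
(.spl (nat_lit 4) (nat_lit 240)
(.leaf p100_l17)
(.spl (nat_lit 0) (nat_lit 330)
(.ord (.spl (nat_lit 6) (nat_lit 20)
(.spl (nat_lit 4) (nat_lit 280)
(.leaf p100_l18)
(.spl (nat_lit 6) (nat_lit 8)
(.leaf p100_l19)
(.spl (nat_lit 0) (nat_lit 325)
(.ord (.leaf p100_l20))
(.trZ (nat_lit 0) (nat_lit 83) (nat_lit 81) (nat_lit 100) (nat_lit 148) (.trX (nat_lit 16) (nat_lit 85) (nat_lit 97) (nat_lit 100) (nat_lit 296) (.leaf p100_l21))))))
(.leaf p100_l22)))
(.trZ (nat_lit 0) (nat_lit 82) (nat_lit 78) (nat_lit 100) (nat_lit 156) (.trX (nat_lit 16) (nat_lit 83) (nat_lit 98) (nat_lit 100) (nat_lit 288) (.spl (nat_lit 6) (nat_lit 20)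
(.spl (nat_lit 0) (nat_lit 335)
(.ord (.leaf p100_l23))
(.trZ (nat_lit 0) (nat_lit 81) (nat_lit 75) (nat_lit 100) (nat_lit 160) (.trX (nat_lit 16) (nat_lit 81) (nat_lit 100) (nat_lit 100) (nat_lit 284) (.leaf p100_l24))))
(.leaf p100_l25))))))
(.trZ (nat_lit 0) (nat_lit 81) (nat_lit 72) (nat_lit 100) (nat_lit 168) (.trX (nat_lit 16) (nat_lit 77) (nat_lit 100) (nat_lit 99) (nat_lit 276) (.spl (nat_lit 1) (nat_lit 330)
(.leaf p100_l26)
(.trZ (nat_lit 0) (nat_lit 76) (nat_lit 72) (nat_lit 100) (nat_lit 180) (.trX (nat_lit 19) (nat_lit 83) (nat_lit 98) (nat_lit 100) (nat_lit 288) (.leaf p100_l27)))))))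
(.spl (nat_lit 0) (nat_lit 340)
(.spl (nat_lit 0) (nat_lit 330)
(.ord (.leaf p100_l28))
(.trX (nat_lit 16) (nat_lit 83) (nat_lit 98) (nat_lit 100) (nat_lit 288) (.leaf p100_l29)))
(.trX (nat_lit 16) (nat_lit 77) (nat_lit 100) (nat_lit 99) (nat_lit 276) (.leaf p100_l30))))) (by decide +kernel)
noncomputable def p100_l31 : Lf2 := ⟨nat_lit 0, nat_lit 10, [nat_lit 0, nat_lit 5, nat_lit 5, nat_lit 20], false, nat_lit 160, nat_lit 300, nat_lit 0, nat_lit 300, ⟨nat_lit 437, nat_lit 563, nat_lit 0, nat_lit 8, nat_lit 307, nat_lit 563, nat_lit 177, nat_lit 0, nat_lit 0, nat_lit 0, nat_lit 0, nat_lit 0, nat_lit 35957535, nat_lit 21995210, nat_lit 9047255, nat_lit 5218247, true, false⟩,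
 nat_lit 0, nat_lit 0, nat_lit 4736, nat_lit 0, nat_lit 3209, nat_lit 3551, nat_lit 0, nat_lit 0, nat_lit 0, nat_lit 210, nat_lit 0, nat_lit 0, nat_lit 0, nat_lit 0, nat_lit 0, nat_lit 225200, nat_lit 0, nat_lit 0, [(nat_lit 18, [(nat_lit 1, nat_lit 563)])],
 ⟨p100_k0, nat_lit 0, nat_lit 0, nat_lit 52, nat_lit 0, nat_lit 0, [nat_lit 1675133067, nat_lit 3155889334, nat_lit 3835180400], [], [nat_lit 19497701575, nat_lit 20149161045, nat_lit 23316598439, nat_lit 23861676229, nat_lit 24379581629, nat_lit 24881121892, nat_lit 27290213963, nat_lit 27715584323], nat_lit 0, nat_lit 0, nat_lit 0, nat_lit 0, nat_lit 0, nat_lit 0, [], [nat_lit 6, nat_lit 40, nat_lit 40, nat_lit 80, nat_lit 3, nat_lit 289, nat_lit 75, nat_lit 9]⟩, ⟨p100_k0, nat_lit 0, nat_lit 0, nat_lit 544, nat_lit 0, nat_lit 1092088, [nat_lit 887984000, nat_lit 2048656000, nat_lit 2731250000], [], [nat_lit 11007827960, nat_lit 11107815791, nat_lit 12143080852,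 nat_lit 12278136513, nat_lit 10014891621, nat_lit 10078140683, nat_lit 11023578905, nat_lit 11111315613], nat_lit 1271250, nat_lit 1271250, nat_lit 1271250, nat_lit 1271250, nat_lit 0, nat_lit 2118750, [nat_lit 490000, nat_lit 1100000, nat_lit 1442500], [nat_lit 6, nat_lit 40, nat_lit 40, nat_lit 80, nat_lit 3, nat_lit 289, nat_lit 75, nat_lit 10]⟩,
 ⟨nat_lit 4183, nat_lit 4473, ⟨.ofNat (nat_lit 697354), .ofNat (nat_lit 833312), .ofNat (nat_lit 702744), .ofNat (nat_lit 838702), .ofNat (nat_lit 696233), .ofNat (nat_lit 828746), .ofNat (nat_lit 701648), .ofNat (nat_lit 834161)⟩, ⟨.ofNat (nat_lit 302621), .ofNat (nat_lit 540545), .ofNat (nat_lit 345754), .ofNat (nat_lit 583678), .ofNat (nat_lit 303743), .ofNat (nat_lit 535637), .ofNat (nat_lit 347076), .ofNat (nat_lit 578971)⟩⟩, [⟨nat_lit 16, nat_lit 87, nat_lit 95, nat_lit 100, nat_lit 263780842⟩, ⟨nat_lit 19, nat_lit 87, nat_lit 95, nat_lit 100, nat_lit 68475213⟩]⟩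
noncomputable def p100_l32 : Lf2 := ⟨nat_lit 0, nat_lit 10, [nat_lit 0, nat_lit 5, nat_lit 5, nat_lit 20], false, nat_lit 160, nat_lit 300, nat_lit 16, nat_lit 160, ⟨nat_lit 1000, nat_lit 0, nat_lit 0, nat_lit 0, nat_lit 0, nat_lit 0, nat_lit 0, nat_lit 0, nat_lit 0, nat_lit 0, nat_lit 0, nat_lit 0, nat_lit 0, nat_lit 0, nat_lit 0, nat_lit 0, false, false⟩,
 nat_lit 0, nat_lit 0, nat_lit 10288, nat_lit 0, nat_lit 5303, nat_lit 7716, nat_lit 0, nat_lit 0, nat_lit 0, nat_lit 613, nat_lit 0, nat_lit 0, nat_lit 0, nat_lit 0, nat_lit 0, nat_lit 0, nat_lit 0, nat_lit 0, [],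
 ⟨p100_k0, nat_lit 0, nat_lit 0, nat_lit 80, nat_lit 0, nat_lit 0, [nat_lit 2032000001, nat_lit 4688000000, nat_lit 6250000000], [], [nat_lit 25734782860, nat_lit 26357625242, nat_lit 30910693408, nat_lit 31397143202, nat_lit 29529395830, nat_lit 29998216028, nat_lit 33464279797, nat_lit 33832498003], nat_lit 0, nat_lit 0, nat_lit 0, nat_lit 0, nat_lit 0, nat_lit 0, [], [nat_lit 6, nat_lit 40, nat_lit 40, nat_lit 80, nat_lit 3, nat_lit 289, nat_lit 75, nat_lit 9]⟩, ⟨p100_k0, nat_lit 0, nat_lit 0, nat_lit 542, nat_lit 0, nat_lit 1092088, [nat_lit 2032000000, nat_lit 4688000000, nat_lit 6250000000], [], [nat_lit 28651277799, nat_lit 28831604086, nat_lit 32124331978, nat_lit 32334882665, nat_lit 25259395472, nat_lit 25409251932, nat_lit 27826373136, nat_lit 27941848082], nat_lit 1271250, nat_lit 1271250, nat_lit 1271250, nat_lit 1271250, nat_lit 88400, nat_lit 1100001, [nat_lit 490000, nat_lit 1100000, nat_lit 1442500],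 [nat_lit 6, nat_lit 40, nat_lit 40, nat_lit 80, nat_lit 3, nat_lit 249, nat_lit 40, nat_lit 8]⟩,
 zbF0, [⟨nat_lit 16, nat_lit 84, nat_lit 100, nat_lit 93, nat_lit 389258602⟩, ⟨nat_lit 9, nat_lit 87, nat_lit 60, nat_lit 100, nat_lit 4186665⟩]⟩
noncomputable def p100_l33 : Lf2 := ⟨nat_lit 0, nat_lit 10, [nat_lit 0, nat_lit 5, nat_lit 5, nat_lit 20], false, nat_lit 160, nat_lit 300, nat_lit 160, nat_lit 300, ⟨nat_lit 1000, nat_lit 0, nat_lit 0, nat_lit 0, nat_lit 0, nat_lit 0, nat_lit 0, nat_lit 0, nat_lit 0, nat_lit 0, nat_lit 0, nat_lit 0, nat_lit 0, nat_lit 0, nat_lit 0, nat_lit 0, false, false⟩,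
 nat_lit 0, nat_lit 0, nat_lit 9516, nat_lit 0, nat_lit 5331, nat_lit 7136, nat_lit 0, nat_lit 0, nat_lit 0, nat_lit 366, nat_lit 0, nat_lit 0, nat_lit 0, nat_lit 0, nat_lit 0, nat_lit 0, nat_lit 0, nat_lit 0, [],
 ⟨p100_k0, nat_lit 0, nat_lit 0, nat_lit 78, nat_lit 0, nat_lit 0, [nat_lit 2032000001, nat_lit 4688000000, nat_lit 6250000000], [], [nat_lit 25719036220, nat_lit 25906396245, nat_lit 30909392416, nat_lit 31055661658, nat_lit 29515720910, nat_lit 29656683992, nat_lit 33459931369, nat_lit 33570587736], nat_lit 0, nat_lit 0, nat_lit 0, nat_lit 0, nat_lit 0, nat_lit 0, [], [nat_lit 6, nat_lit 40, nat_lit 40, nat_lit 80, nat_lit 3, nat_lit 289, nat_lit 75, nat_lit 9]⟩, ⟨p100_k0, nat_lit 0, nat_lit 0, nat_lit 435, nat_lit 0, nat_lit 1011833, [nat_lit 2032000000, nat_lit 4688000000, nat_lit 6250000000], [], [nat_lit 27433516608, nat_lit 27525445736, nat_lit 30083028288, nat_lit 30160172016, nat_lit 28611266600,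 nat_lit 28689695710, nat_lit 31050835264, nat_lit 31138810251], nat_lit 1271250, nat_lit 1271250, nat_lit 1271250, nat_lit 1271250, nat_lit 1100001, nat_lit 2298750, [nat_lit 490000, nat_lit 1100000, nat_lit 1442500], [nat_lit 6, nat_lit 40, nat_lit 40, nat_lit 80, nat_lit 3, nat_lit 289, nat_lit 75, nat_lit 9]⟩,
 zbF0, [⟨nat_lit 16, nat_lit 86, nat_lit 100, nat_lit 94, nat_lit 382783078⟩, ⟨nat_lit 19, nat_lit 86, nat_lit 100, nat_lit 94, nat_lit 197502215⟩, ⟨nat_lit 19, nat_lit 87, nat_lit 95, nat_lit 100, nat_lit 109239174⟩]⟩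
noncomputable def p100_l34 : Lf2 := ⟨nat_lit 0, nat_lit 10, [nat_lit 0, nat_lit 5, nat_lit 5, nat_lit 20], false, nat_lit 160, nat_lit 296, nat_lit 160, nat_lit 300, ⟨nat_lit 1000, nat_lit 0, nat_lit 0, nat_lit 0, nat_lit 0, nat_lit 0, nat_lit 0, nat_lit 0, nat_lit 0, nat_lit 0, nat_lit 0, nat_lit 0, nat_lit 0, nat_lit 0, nat_lit 0, nat_lit 0, false, false⟩,
 nat_lit 0, nat_lit 0, nat_lit 9654, nat_lit 0, nat_lit 4530, nat_lit 7240, nat_lit 3063, nat_lit 0, nat_lit 0, nat_lit 367, nat_lit 0, nat_lit 0, nat_lit 0, nat_lit 24182286475230, nat_lit 0, nat_lit 0, nat_lit 0, nat_lit 0, [],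
 ⟨p100_k9, nat_lit 0, nat_lit 0, nat_lit 79, nat_lit 0, nat_lit 0, [nat_lit 2032000001, nat_lit 4688000000, nat_lit 6250000000], [], [nat_lit 25270299947, nat_lit 25385531510, nat_lit 30011265862, nat_lit 30102403050, nat_lit 28830615886, nat_lit 28919365373, nat_lit 32513994481, nat_lit 32589307417], nat_lit 0, nat_lit 0, nat_lit 0, nat_lit 0, nat_lit 0, nat_lit 0, [], [nat_lit 6, nat_lit 40, nat_lit 40, nat_lit 80, nat_lit 3, nat_lit 289, nat_lit 75, nat_lit 9]⟩, ⟨p100_k0, nat_lit 0, nat_lit 0, nat_lit 446, nat_lit 0, nat_lit 1045564, [nat_lit 2032000000, nat_lit 4688000000, nat_lit 6250000000], [], [nat_lit 26959526720, nat_lit 27113461300, nat_lit 29645473920, nat_lit 29784745420, nat_lit 28148048000, nat_lit 28279214880, nat_lit 30799495760, nat_lit 30946691190], nat_lit 1271250, nat_lit 1271250, nat_lit 1271250, nat_lit 1271250, nat_lit 1100001, nat_lit 2298750, [nat_lit 490000, nat_lit 1100000, nat_lit 1442500],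 [nat_lit 6, nat_lit 40, nat_lit 40, nat_lit 80, nat_lit 3, nat_lit 289, nat_lit 75, nat_lit 9]⟩,
 zbF0, [⟨nat_lit 16, nat_lit 84, nat_lit 100, nat_lit 93, nat_lit 396964852⟩, ⟨nat_lit 7, nat_lit 100, nat_lit 85, nat_lit 94, nat_lit 326866623⟩]⟩
noncomputable def p100_l35 : Lf2 := ⟨nat_lit 0, nat_lit 10, [nat_lit 0, nat_lit 5, nat_lit 5, nat_lit 20], false, nat_lit 160, nat_lit 296, nat_lit 160, nat_lit 300, ⟨nat_lit 1000, nat_lit 0, nat_lit 0, nat_lit 0, nat_lit 0, nat_lit 0, nat_lit 0, nat_lit 0, nat_lit 0, nat_lit 0, nat_lit 0, nat_lit 0, nat_lit 0, nat_lit 0, nat_lit 0, nat_lit 0, false, false⟩,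
 nat_lit 0, nat_lit 0, nat_lit 9613, nat_lit 0, nat_lit 4110, nat_lit 7209, nat_lit 3080, nat_lit 0, nat_lit 0, nat_lit 363, nat_lit 0, nat_lit 0, nat_lit 0, nat_lit 0, nat_lit 0, nat_lit 0, nat_lit 0, nat_lit 0, [],
 ⟨p100_k3, nat_lit 0, nat_lit 0, nat_lit 80, nat_lit 0, nat_lit 0, [nat_lit 2032000001, nat_lit 4688000000, nat_lit 6250000000], [], [nat_lit 24993715161, nat_lit 25254218521, nat_lit 29337610350, nat_lit 29557095740, nat_lit 28382482467, nat_lit 28585753481, nat_lit 32093191636, nat_lit 32288368159], nat_lit 0, nat_lit 0, nat_lit 0, nat_lit 0, nat_lit 0, nat_lit 0, [], [nat_lit 6, nat_lit 40, nat_lit 40, nat_lit 80, nat_lit 3, nat_lit 289, nat_lit 75, nat_lit 9]⟩, ⟨p100_k0, nat_lit 0, nat_lit 0, nat_lit 462, nat_lit 0, nat_lit 1092088, [nat_lit 2032000000, nat_lit 4688000000, nat_lit 6250000000], [], [nat_lit 27130427552, nat_lit 27284147705, nat_lit 29785632972, nat_lit 29914499130, nat_lit 28286369895,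 nat_lit 28417155015, nat_lit 30874414266, nat_lit 31021439658], nat_lit 1271250, nat_lit 1271250, nat_lit 1271250, nat_lit 1271250, nat_lit 1100001, nat_lit 2298750, [nat_lit 490000, nat_lit 1100000, nat_lit 1442500], [nat_lit 6, nat_lit 40, nat_lit 40, nat_lit 80, nat_lit 3, nat_lit 289, nat_lit 75, nat_lit 9]⟩,
 zbF0, [⟨nat_lit 16, nat_lit 82, nat_lit 100, nat_lit 92, nat_lit 422960771⟩, ⟨nat_lit 7, nat_lit 100, nat_lit 85, nat_lit 94, nat_lit 324477442⟩]⟩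
noncomputable def p100_l36 : Lf2 := ⟨nat_lit 0, nat_lit 10, [nat_lit 0, nat_lit 5, nat_lit 5, nat_lit 20], false, nat_lit 160, nat_lit 296, nat_lit 0, nat_lit 296, ⟨nat_lit 1000, nat_lit 0, nat_lit 0, nat_lit 0, nat_lit 0, nat_lit 0, nat_lit 0, nat_lit 0, nat_lit 0, nat_lit 0, nat_lit 0, nat_lit 0, nat_lit 0, nat_lit 0, nat_lit 0, nat_lit 0, false, false⟩,
 nat_lit 0, nat_lit 0, nat_lit 8206, nat_lit 0, nat_lit 5693, nat_lit 6274, nat_lit 0, nat_lit 0, nat_lit 0, nat_lit 2867, nat_lit 8, nat_lit 0, nat_lit 0, nat_lit 0, nat_lit 0, nat_lit 0, nat_lit 0, nat_lit 0, [],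
 ⟨p100_k3, nat_lit 0, nat_lit 0, nat_lit 80, nat_lit 0, nat_lit 0, [nat_lit 2032000001, nat_lit 4688000000, nat_lit 6250000000], [], [nat_lit 21559180598, nat_lit 21954269772, nat_lit 31340509578, nat_lit 31630411564, nat_lit 26331619244, nat_lit 26628251867, nat_lit 33963075639, nat_lit 34181916192], nat_lit 0, nat_lit 0, nat_lit 0, nat_lit 0, nat_lit 0, nat_lit 0, [], [nat_lit 6, nat_lit 40, nat_lit 40, nat_lit 80, nat_lit 3, nat_lit 289, nat_lit 75, nat_lit 9]⟩, ⟨p100_k3, nat_lit 0, nat_lit 0, nat_lit 555, nat_lit 0, nat_lit 1100573, [nat_lit 2096000000, nat_lit 4816000000, nat_lit 6410000000], [], [nat_lit 24044126118, nat_lit 24219485612, nat_lit 30994676386, nat_lit 31218976988, nat_lit 23187813825, nat_lit 23325419978, nat_lit 28685552260, nat_lit 28863680691], nat_lit 1271250, nat_lit 1271250, nat_lit 1271250, nat_lit 1271250, nat_lit 0, nat_lit 2090500, [nat_lit 490000, nat_lit 1100000, nat_lit 1442500],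 [nat_lit 6, nat_lit 40, nat_lit 40, nat_lit 80, nat_lit 3, nat_lit 289, nat_lit 75, nat_lit 10]⟩,
 zbF0, [⟨nat_lit 4, nat_lit 100, nat_lit 82, nat_lit 92, nat_lit 414173845⟩, ⟨nat_lit 7, nat_lit 100, nat_lit 82, nat_lit 92, nat_lit 190772394⟩]⟩
noncomputable def p100_l37 : Lf2 := ⟨nat_lit 0, nat_lit 10, [nat_lit 0, nat_lit 5, nat_lit 5, nat_lit 20], false, nat_lit 160, nat_lit 288, nat_lit 0, nat_lit 300, ⟨nat_lit 230, nat_lit 770, nat_lit 0, nat_lit 8, nat_lit 306, nat_lit 770, nat_lit 172, nat_lit 0, nat_lit 0, nat_lit 0, nat_lit 0, nat_lit 0, nat_lit 36260398, nat_lit 22008243, nat_lit 8731359, nat_lit 5179672, true, false⟩,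
 nat_lit 0, nat_lit 0, nat_lit 2349, nat_lit 0, nat_lit 3050, nat_lit 1761, nat_lit 0, nat_lit 0, nat_lit 0, nat_lit 93, nat_lit 0, nat_lit 0, nat_lit 0, nat_lit 0, nat_lit 0, nat_lit 308000, nat_lit 0, nat_lit 0, [(nat_lit 18, [(nat_lit 1, nat_lit 770)])],
 ⟨p100_k1, nat_lit 0, nat_lit 0, nat_lit 53, nat_lit 0, nat_lit 0, [nat_lit 1543922667, nat_lit 2592573334, nat_lit 2947316000], [], [nat_lit 20107015767, nat_lit 20743556267, nat_lit 23755966567, nat_lit 24289865067, nat_lit 24314397788, nat_lit 24819106708, nat_lit 27192503607, nat_lit 27621176108], nat_lit 0, nat_lit 0, nat_lit 0, nat_lit 0, nat_lit 0, nat_lit 0, [], [nat_lit 6, nat_lit 40, nat_lit 40, nat_lit 80, nat_lit 3, nat_lit 289, nat_lit 75, nat_lit 9]⟩, ⟨p100_k0, nat_lit 0, nat_lit 0, nat_lit 581, nat_lit 0, nat_lit 1188936, [nat_lit 467360000, nat_lit 1078240000, nat_lit 1437500000], [], [nat_lit 6347816076, nat_lit 6391934490, nat_lit 6790539160,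 nat_lit 6829461457, nat_lit 5840404465, nat_lit 5871190811, nat_lit 6110079429, nat_lit 6134884370], nat_lit 1271250, nat_lit 1271250, nat_lit 1271250, nat_lit 1271250, nat_lit 0, nat_lit 2118750, [nat_lit 490000, nat_lit 1100000, nat_lit 1442500], [nat_lit 6, nat_lit 40, nat_lit 40, nat_lit 80, nat_lit 3, nat_lit 289, nat_lit 75, nat_lit 10]⟩,
 ⟨nat_lit 3872, nat_lit 4184, ⟨.ofNat (nat_lit 696229), .ofNat (nat_lit 828747), .ofNat (nat_lit 701645), .ofNat (nat_lit 834162), .ofNat (nat_lit 695254), .ofNat (nat_lit 824304), .ofNat (nat_lit 700702), .ofNat (nat_lit 829751)⟩, ⟨.ofNat (nat_lit 303743), .ofNat (nat_lit 515761), .ofNat (nat_lit 347076), .ofNat (nat_lit 559094), .ofNat (nat_lit 304717), .ofNat (nat_lit 511186), .ofNat (nat_lit 348304), .ofNat (nat_lit 554773)⟩⟩, [⟨nat_lit 16, nat_lit 83, nat_lit 98, nat_lit 100, nat_lit 215080431⟩, ⟨nat_lit 19, nat_lit 87, nat_lit 95, nat_lit 100, nat_lit 34370440⟩]⟩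
noncomputable def p100_l38 : Lf2 := ⟨nat_lit 0, nat_lit 10, [nat_lit 0, nat_lit 5, nat_lit 5, nat_lit 20], false, nat_lit 160, nat_lit 288, nat_lit 0, nat_lit 296, ⟨nat_lit 1000, nat_lit 0, nat_lit 0, nat_lit 0, nat_lit 0, nat_lit 0, nat_lit 0, nat_lit 0, nat_lit 0, nat_lit 0, nat_lit 0, nat_lit 0, nat_lit 0, nat_lit 0, nat_lit 0, nat_lit 0, false, false⟩,
 nat_lit 0, nat_lit 0, nat_lit 8405, nat_lit 0, nat_lit 3752, nat_lit 6427, nat_lit 0, nat_lit 0, nat_lit 0, nat_lit 2999, nat_lit 21, nat_lit 0, nat_lit 0, nat_lit 0, nat_lit 0, nat_lit 0, nat_lit 0, nat_lit 0, [],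
 ⟨p100_k1, nat_lit 0, nat_lit 0, nat_lit 53, nat_lit 0, nat_lit 0, [nat_lit 2032000001, nat_lit 4688000000, nat_lit 6250000000], [], [nat_lit 20201862185, nat_lit 20904271345, nat_lit 24148828584, nat_lit 24762394352, nat_lit 24581588294, nat_lit 25131319563, nat_lit 27714813660, nat_lit 28198042589], nat_lit 0, nat_lit 0, nat_lit 0, nat_lit 0, nat_lit 0, nat_lit 0, [], [nat_lit 6, nat_lit 40, nat_lit 40, nat_lit 80, nat_lit 3, nat_lit 289, nat_lit 75, nat_lit 9]⟩, ⟨p100_k3, nat_lit 0, nat_lit 0, nat_lit 586, nat_lit 0, nat_lit 1193466, [nat_lit 2200000000, nat_lit 5024000000, nat_lit 6670000000], [], [nat_lit 24203095339, nat_lit 24380104326, nat_lit 26399946957, nat_lit 26691038634, nat_lit 23185108950, nat_lit 23304254768, nat_lit 25348737130, nat_lit 25533417133], nat_lit 1271250, nat_lit 1271250, nat_lit 1271250, nat_lit 1271250, nat_lit 0, nat_lit 2090500, [nat_lit 490000, nat_lit 1100000, nat_lit 1442500],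 [nat_lit 6, nat_lit 40, nat_lit 40, nat_lit 80, nat_lit 3, nat_lit 289, nat_lit 75, nat_lit 10]⟩,
 zbF0, [⟨nat_lit 16, nat_lit 83, nat_lit 98, nat_lit 100, nat_lit 460028383⟩, ⟨nat_lit 19, nat_lit 85, nat_lit 97, nat_lit 100, nat_lit 202253779⟩]⟩
noncomputable def p100_l39 : Lf2 := ⟨nat_lit 0, nat_lit 5, [nat_lit 4, nat_lit 5, nat_lit 5, nat_lit 20], false, nat_lit 160, nat_lit 288, nat_lit 16, nat_lit 160, ⟨nat_lit 1000, nat_lit 0, nat_lit 0, nat_lit 0, nat_lit 0, nat_lit 0, nat_lit 0, nat_lit 0, nat_lit 0, nat_lit 0, nat_lit 0, nat_lit 0, nat_lit 0, nat_lit 0, nat_lit 0, nat_lit 0, false, false⟩,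
 nat_lit 0, nat_lit 0, nat_lit 10260, nat_lit 0, nat_lit 3627, nat_lit 7695, nat_lit 4045, nat_lit 0, nat_lit 0, nat_lit 382, nat_lit 0, nat_lit 0, nat_lit 0, nat_lit 0, nat_lit 0, nat_lit 0, nat_lit 0, nat_lit 0, [],
 ⟨p100_k7, nat_lit 0, nat_lit 0, nat_lit 82, nat_lit 0, nat_lit 0, [nat_lit 2032000001, nat_lit 4688000000], [], [nat_lit 24581253512, nat_lit 25125270230, nat_lit 28964673638, nat_lit 29402439522, nat_lit 27957596492, nat_lit 28391365661, nat_lit 31488210630, nat_lit 31870577856], nat_lit 0, nat_lit 0, nat_lit 0, nat_lit 0, nat_lit 0, nat_lit 0, [], [nat_lit 24, nat_lit 40, nat_lit 40, nat_lit 80, nat_lit 33, nat_lit 203, nat_lit 0, nat_lit 7]⟩, ⟨p100_k4, nat_lit 0, nat_lit 0, nat_lit 565, nat_lit 0, nat_lit 1157483, [nat_lit 2032000000, nat_lit 4688000000, nat_lit 6250000000], [], [nat_lit 28838946624, nat_lit 29005997271, nat_lit 32188911204, nat_lit 32378182182, nat_lit 25370020140, nat_lit 25516729890,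 nat_lit 27931436220, nat_lit 28046856703], nat_lit 1271250, nat_lit 1271250, nat_lit 1271250, nat_lit 1271250, nat_lit 88400, nat_lit 1100001, [nat_lit 490000, nat_lit 1100000, nat_lit 1442500], [nat_lit 6, nat_lit 40, nat_lit 40, nat_lit 80, nat_lit 3, nat_lit 252, nat_lit 40, nat_lit 8]⟩,
 zbF0, [⟨nat_lit 16, nat_lit 77, nat_lit 100, nat_lit 91, nat_lit 460092478⟩]⟩
noncomputable def p100_l40 : Lf2 := ⟨nat_lit 0, nat_lit 5, [nat_lit 4, nat_lit 5, nat_lit 5, nat_lit 20], false, nat_lit 160, nat_lit 288, nat_lit 160, nat_lit 300, ⟨nat_lit 1000, nat_lit 0, nat_lit 0, nat_lit 0, nat_lit 0, nat_lit 0, nat_lit 0, nat_lit 0, nat_lit 0, nat_lit 0, nat_lit 0, nat_lit 0, nat_lit 0, nat_lit 0, nat_lit 0, nat_lit 0, false, false⟩,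
 nat_lit 0, nat_lit 0, nat_lit 9706, nat_lit 0, nat_lit 3639, nat_lit 7279, nat_lit 3651, nat_lit 0, nat_lit 0, nat_lit 364, nat_lit 0, nat_lit 0, nat_lit 0, nat_lit 0, nat_lit 0, nat_lit 0, nat_lit 0, nat_lit 0, [],
 ⟨p100_k7, nat_lit 0, nat_lit 0, nat_lit 81, nat_lit 0, nat_lit 0, [nat_lit 2032000001, nat_lit 4688000000], [], [nat_lit 24570059072, nat_lit 24842458835, nat_lit 28959874454, nat_lit 29179019548, nat_lit 27947281830, nat_lit 28164428221, nat_lit 31502485256, nat_lit 31693855773], nat_lit 0, nat_lit 0, nat_lit 0, nat_lit 0, nat_lit 0, nat_lit 0, [], [nat_lit 24, nat_lit 40, nat_lit 40, nat_lit 80, nat_lit 33, nat_lit 203, nat_lit 0, nat_lit 7]⟩, ⟨p100_k4, nat_lit 0, nat_lit 0, nat_lit 468, nat_lit 0, nat_lit 1109575, [nat_lit 2032000000, nat_lit 4688000000, nat_lit 6250000000], [], [nat_lit 26655429280, nat_lit 26821550974, nat_lit 29484952532, nat_lit 29623801995, nat_lit 27974341025, nat_lit 28105677292,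 nat_lit 30705243446, nat_lit 30852652796], nat_lit 1271250, nat_lit 1271250, nat_lit 1271250, nat_lit 1271250, nat_lit 1100001, nat_lit 2298750, [nat_lit 490000, nat_lit 1100000, nat_lit 1442500], [nat_lit 6, nat_lit 40, nat_lit 40, nat_lit 80, nat_lit 3, nat_lit 289, nat_lit 75, nat_lit 9]⟩,
 zbF0, [⟨nat_lit 16, nat_lit 79, nat_lit 100, nat_lit 91, nat_lit 392792970⟩, ⟨nat_lit 16, nat_lit 83, nat_lit 98, nat_lit 100, nat_lit 39246433⟩, ⟨nat_lit 7, nat_lit 100, nat_lit 85, nat_lit 94, nat_lit 329830914⟩]⟩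
noncomputable def p100_l41 : Lf2 := ⟨nat_lit 0, nat_lit 5, [nat_lit 4, nat_lit 5, nat_lit 5, nat_lit 20], false, nat_lit 160, nat_lit 284, nat_lit 160, nat_lit 300, ⟨nat_lit 991, nat_lit 9, nat_lit 0, nat_lit 8, nat_lit 357, nat_lit 9, nat_lit 171, nat_lit 0, nat_lit 0, nat_lit 0, nat_lit 0, nat_lit 0, nat_lit 32629805, nat_lit 26419895, nat_lit 7950300, nat_lit 5206025, true, true⟩,
 nat_lit 0, nat_lit 0, nat_lit 9361, nat_lit 0, nat_lit 3807, nat_lit 7020, nat_lit 3525, nat_lit 0, nat_lit 0, nat_lit 364, nat_lit 0, nat_lit 0, nat_lit 0, nat_lit 0, nat_lit 0, nat_lit 3600, nat_lit 0, nat_lit 0, [(nat_lit 18, [(nat_lit 1, nat_lit 9)])],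
 ⟨p100_k8, nat_lit 0, nat_lit 0, nat_lit 82, nat_lit 0, nat_lit 0, [nat_lit 2026295201, nat_lit 4662749600], [], [nat_lit 24679806731, nat_lit 24957686150, nat_lit 29402786450, nat_lit 29646100464, nat_lit 27879436103, nat_lit 28102125436, nat_lit 31786188999, nat_lit 31981846239], nat_lit 0, nat_lit 0, nat_lit 0, nat_lit 0, nat_lit 0, nat_lit 0, [], [nat_lit 24, nat_lit 40, nat_lit 40, nat_lit 80, nat_lit 33, nat_lit 203, nat_lit 0, nat_lit 7]⟩, ⟨p100_k4, nat_lit 0, nat_lit 0, nat_lit 489, nat_lit 0, nat_lit 1157483, [nat_lit 2013712000, nat_lit 4645808000, nat_lit 6193750000], [], [nat_lit 27252168188, nat_lit 27415203049, nat_lit 30026546840, nat_lit 30155669378, nat_lit 28584376799, nat_lit 28713690669, nat_lit 30896506152, nat_lit 31041527507], nat_lit 1271250, nat_lit 1271250, nat_lit 1271250, nat_lit 1271250, nat_lit 1100001, nat_lit 2298750, [nat_lit 490000, nat_lit 1100000, nat_lit 1442500], [nat_lit 6,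 nat_lit 40, nat_lit 40, nat_lit 80, nat_lit 3, nat_lit 289, nat_lit 75, nat_lit 9]⟩,
 ⟨nat_lit 3872, nat_lit 4032, ⟨.ofNat (nat_lit 826525), .ofNat (nat_lit 957308), .ofNat (nat_lit 831957), .ofNat (nat_lit 962740), .ofNat (nat_lit 824319), .ofNat (nat_lit 953364), .ofNat (nat_lit 829767), .ofNat (nat_lit 958812)⟩, ⟨.ofNat (nat_lit 304250), .ofNat (nat_lit 506961), .ofNat (nat_lit 347702), .ofNat (nat_lit 550414), .ofNat (nat_lit 304717), .ofNat (nat_lit 504734), .ofNat (nat_lit 348304), .ofNat (nat_lit 548321)⟩⟩, [⟨nat_lit 16, nat_lit 76, nat_lit 100, nat_lit 90, nat_lit 450320943⟩, ⟨nat_lit 7, nat_lit 100, nat_lit 85, nat_lit 94, nat_lit 311950862⟩]⟩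
noncomputable def p100_l42 : Lf2 := ⟨nat_lit 0, nat_lit 10, [nat_lit 0, nat_lit 5, nat_lit 5, nat_lit 20], false, nat_lit 160, nat_lit 288, nat_lit 16, nat_lit 300, ⟨nat_lit 1000, nat_lit 0, nat_lit 0, nat_lit 0, nat_lit 0, nat_lit 0, nat_lit 0, nat_lit 0, nat_lit 0, nat_lit 0, nat_lit 0, nat_lit 0, nat_lit 0, nat_lit 0, nat_lit 0, nat_lit 0, false, false⟩,
 nat_lit 0, nat_lit 0, nat_lit 9356, nat_lit 0, nat_lit 4962, nat_lit 7017, nat_lit 531, nat_lit 0, nat_lit 0, nat_lit 366, nat_lit 0, nat_lit 0, nat_lit 0, nat_lit 0, nat_lit 0, nat_lit 0, nat_lit 0, nat_lit 0, [],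
 ⟨p100_k1, nat_lit 0, nat_lit 0, nat_lit 87, nat_lit 0, nat_lit 0, [nat_lit 2032000001, nat_lit 4688000000, nat_lit 6250000000], [], [nat_lit 26161831910, nat_lit 26725217380, nat_lit 30743963183, nat_lit 31216841859, nat_lit 29116230584, nat_lit 29556369826, nat_lit 33076262817, nat_lit 33500216094], nat_lit 0, nat_lit 0, nat_lit 0, nat_lit 0, nat_lit 0, nat_lit 0, [], [nat_lit 6, nat_lit 40, nat_lit 40, nat_lit 80, nat_lit 3, nat_lit 289, nat_lit 75, nat_lit 9]⟩, ⟨p100_k0, nat_lit 0, nat_lit 0, nat_lit 457, nat_lit 0, nat_lit 871704, [nat_lit 2032000000, nat_lit 4688000000, nat_lit 6250000000], [], [nat_lit 31129681876, nat_lit 31311216070, nat_lit 34248695937, nat_lit 34450592130, nat_lit 29149956135, nat_lit 29271493911, nat_lit 31384368259, nat_lit 31484454633], nat_lit 1271250, nat_lit 1271250, nat_lit 1271250, nat_lit 1271250, nat_lit 88400, nat_lit 2136750, [nat_lit 490000, nat_lit 1100000, nat_lit 1442500],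 [nat_lit 6, nat_lit 40, nat_lit 40, nat_lit 80, nat_lit 3, nat_lit 289, nat_lit 75, nat_lit 10]⟩,
 zbF0, [⟨nat_lit 16, nat_lit 77, nat_lit 100, nat_lit 91, nat_lit 441574873⟩, ⟨nat_lit 7, nat_lit 100, nat_lit 85, nat_lit 94, nat_lit 165543600⟩]⟩
noncomputable def p100_l43 : Lf2 := ⟨nat_lit 0, nat_lit 10, [nat_lit 0, nat_lit 5, nat_lit 5, nat_lit 20], false, nat_lit 160, nat_lit 288, nat_lit 16, nat_lit 296, ⟨nat_lit 1000, nat_lit 0, nat_lit 0, nat_lit 0, nat_lit 0, nat_lit 0, nat_lit 0, nat_lit 0, nat_lit 0, nat_lit 0, nat_lit 0, nat_lit 0, nat_lit 0, nat_lit 0, nat_lit 0, nat_lit 0, false, false⟩,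
 nat_lit 0, nat_lit 0, nat_lit 7859, nat_lit 0, nat_lit 4809, nat_lit 6009, nat_lit 523, nat_lit 0, nat_lit 0, nat_lit 2258, nat_lit 0, nat_lit 0, nat_lit 0, nat_lit 0, nat_lit 0, nat_lit 0, nat_lit 0, nat_lit 0, [],
 ⟨p100_k1, nat_lit 0, nat_lit 0, nat_lit 87, nat_lit 0, nat_lit 0, [nat_lit 2032000001, nat_lit 4688000000, nat_lit 6250000000], [], [nat_lit 26285903495, nat_lit 26840960410, nat_lit 30783111333, nat_lit 31221647663, nat_lit 29241374271, nat_lit 29675625385, nat_lit 32947140475, nat_lit 33314190753], nat_lit 0, nat_lit 0, nat_lit 0, nat_lit 0, nat_lit 0, nat_lit 0, [], [nat_lit 6, nat_lit 40, nat_lit 40, nat_lit 80, nat_lit 3, nat_lit 289, nat_lit 75, nat_lit 9]⟩, ⟨p100_k3, nat_lit 0, nat_lit 0, nat_lit 577, nat_lit 0, nat_lit 1193466, [nat_lit 2032000000, nat_lit 4688000000, nat_lit 6250000000], [], [nat_lit 28220517948, nat_lit 28384854254, nat_lit 31400191911, nat_lit 31617966370, nat_lit 27234987383,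 nat_lit 27340743040, nat_lit 29774489390, nat_lit 29916349972], nat_lit 1271250, nat_lit 1271250, nat_lit 1271250, nat_lit 1271250, nat_lit 88400, nat_lit 2107900, [nat_lit 490000, nat_lit 1100000, nat_lit 1442500], [nat_lit 6, nat_lit 40, nat_lit 40, nat_lit 80, nat_lit 3, nat_lit 289, nat_lit 75, nat_lit 10]⟩,
 zbF0, [⟨nat_lit 4, nat_lit 100, nat_lit 77, nat_lit 91, nat_lit 425911590⟩, ⟨nat_lit 19, nat_lit 85, nat_lit 97, nat_lit 100, nat_lit 52232657⟩, ⟨nat_lit 7, nat_lit 100, nat_lit 82, nat_lit 92, nat_lit 144154539⟩]⟩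
noncomputable def b_V_800_800_20_2 : St := ⟨true, nat_lit 0, nat_lit 1, nat_lit 1, nat_lit 120, nat_lit 320, nat_lit 340, nat_lit 320, nat_lit 330, nat_lit 240, nat_lit 400, nat_lit 80, nat_lit 120, nat_lit 160, nat_lit 300, nat_lit 0, nat_lit 300, nat_lit 0, nat_lit 40, nat_lit 0, nat_lit 0, nat_lit 800, nat_lit 0⟩
theorem d_V_800_800_20_2 (h : EB TB.env) : Dead b_V_800_800_20_2 := chkB_sound0 h (T :=
(.spl (nat_lit 0) (nat_lit 330)
(.spl (nat_lit 1) (nat_lit 325)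
(.spl (nat_lit 2) (nat_lit 320)
(.leaf p100_l31)
(.trZ (nat_lit 9) (nat_lit 100) (nat_lit 82) (nat_lit 44) (nat_lit 16) (.spl (nat_lit 5) (nat_lit 160)
(.leaf p100_l32)
(.spl (nat_lit 0) (nat_lit 325)
(.spl (nat_lit 0) (nat_lit 323)
(.ord (.leaf p100_l33))
(.trX (nat_lit 16) (nat_lit 86) (nat_lit 96) (nat_lit 100) (nat_lit 296) (.leaf p100_l34)))
(.trX (nat_lit 16) (nat_lit 85) (nat_lit 97) (nat_lit 100) (nat_lit 296) (.leaf p100_l35))))))
(.ord (.trX (nat_lit 16) (nat_lit 85) (nat_lit 97) (nat_lit 100) (nat_lit 296) (.trX (nat_lit 19) (nat_lit 85) (nat_lit 97) (nat_lit 100) (nat_lit 296) (.leaf p100_l36)))))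
(.trX (nat_lit 16) (nat_lit 83) (nat_lit 98) (nat_lit 100) (nat_lit 288) (.spl (nat_lit 2) (nat_lit 320)
(.spl (nat_lit 1) (nat_lit 325)
(.leaf p100_l37)
(.trX (nat_lit 19) (nat_lit 85) (nat_lit 97) (nat_lit 100) (nat_lit 296) (.leaf p100_l38)))
(.trZ (nat_lit 9) (nat_lit 100) (nat_lit 82) (nat_lit 44) (nat_lit 16) (.spl (nat_lit 1) (nat_lit 325)
(.spl (nat_lit 6) (nat_lit 20)
(.spl (nat_lit 5) (nat_lit 160)
(.leaf p100_l39)
(.spl (nat_lit 0) (nat_lit 335)
(.leaf p100_l40)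
(.trX (nat_lit 16) (nat_lit 81) (nat_lit 100) (nat_lit 100) (nat_lit 284) (.leaf p100_l41))))
(.leaf p100_l42))
(.trX (nat_lit 19) (nat_lit 85) (nat_lit 97) (nat_lit 100) (nat_lit 296) (.leaf p100_l43)))))))) (by decide +kernel)
noncomputable def p100_l44 : Lf2 := ⟨nat_lit 0, nat_lit 10, [nat_lit 0, nat_lit 5, nat_lit 5, nat_lit 20], false, nat_lit 160, nat_lit 276, nat_lit 0, nat_lit 300, ⟨nat_lit 130, nat_lit 870, nat_lit 0, nat_lit 8, nat_lit 306, nat_lit 870, nat_lit 168, nat_lit 0, nat_lit 0, nat_lit 0, nat_lit 0, nat_lit 0, nat_lit 36471252, nat_lit 22116329, nat_lit 8412419, nat_lit 5143276, true, false⟩,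
 nat_lit 0, nat_lit 0, nat_lit 1347, nat_lit 0, nat_lit 2949, nat_lit 1010, nat_lit 0, nat_lit 0, nat_lit 0, nat_lit 49, nat_lit 0, nat_lit 0, nat_lit 0, nat_lit 0, nat_lit 0, nat_lit 348000, nat_lit 0, nat_lit 0, [(nat_lit 21, [(nat_lit 1, nat_lit 870)])],
 ⟨p100_k2, nat_lit 0, nat_lit 0, nat_lit 56, nat_lit 0, nat_lit 0, [nat_lit 1443184001, nat_lit 1908176001, nat_lit 2110540000], [], [nat_lit 20689916729, nat_lit 21316980399, nat_lit 24198223673, nat_lit 24725020863, nat_lit 24282452192, nat_lit 24793288440, nat_lit 27136439077, nat_lit 27590346151], nat_lit 0, nat_lit 0, nat_lit 0, nat_lit 0, nat_lit 0, nat_lit 0, [], [nat_lit 6, nat_lit 40, nat_lit 40, nat_lit 80, nat_lit 3, nat_lit 289, nat_lit 75, nat_lit 9]⟩, ⟨p100_k0, nat_lit 0, nat_lit 0, nat_lit 645, nat_lit 0, nat_lit 1326581, [nat_lit 264160000, nat_lit 609440000, nat_lit 812500000], [], [nat_lit 3663483920, nat_lit 3704538050, nat_lit 3859856440,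 nat_lit 3896751210, nat_lit 3305794410, nat_lit 3333979105, nat_lit 3418555600, nat_lit 3451592695], nat_lit 1271250, nat_lit 1271250, nat_lit 1271250, nat_lit 1271250, nat_lit 0, nat_lit 2118750, [nat_lit 490000, nat_lit 1100000, nat_lit 1442500], [nat_lit 6, nat_lit 40, nat_lit 40, nat_lit 80, nat_lit 3, nat_lit 289, nat_lit 75, nat_lit 10]⟩,
 ⟨nat_lit 3535, nat_lit 3873, ⟨.ofNat (nat_lit 695250), .ofNat (nat_lit 824304), .ofNat (nat_lit 706143), .ofNat (nat_lit 835198), .ofNat (nat_lit 694446), .ofNat (nat_lit 819980), .ofNat (nat_lit 705418), .ofNat (nat_lit 830953)⟩, ⟨.ofNat (nat_lit 304717), .ofNat (nat_lit 491830), .ofNat (nat_lit 348304), .ofNat (nat_lit 535416), .ofNat (nat_lit 305521), .ofNat (nat_lit 487529), .ofNat (nat_lit 349427), .ofNat (nat_lit 531435)⟩⟩, [⟨nat_lit 16, nat_lit 77, nat_lit 100, nat_lit 99, nat_lit 200985785⟩, ⟨nat_lit 19, nat_lit 87, nat_lit 95, nat_lit 100, nat_lit 18372831⟩]⟩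
noncomputable def p100_l45 : Lf2 := ⟨nat_lit 0, nat_lit 10, [nat_lit 0, nat_lit 5, nat_lit 5, nat_lit 20], false, nat_lit 160, nat_lit 264, nat_lit 0, nat_lit 300, ⟨nat_lit 190, nat_lit 810, nat_lit 0, nat_lit 8, nat_lit 304, nat_lit 810, nat_lit 163, nat_lit 0, nat_lit 0, nat_lit 0, nat_lit 0, nat_lit 0, nat_lit 36836018, nat_lit 22033421, nat_lit 8130561, nat_lit 5102779, true, false⟩,
 nat_lit 0, nat_lit 0, nat_lit 1967, nat_lit 0, nat_lit 3147, nat_lit 1475, nat_lit 252, nat_lit 0, nat_lit 0, nat_lit 72, nat_lit 0, nat_lit 0, nat_lit 0, nat_lit 0, nat_lit 0, nat_lit 324000, nat_lit 0, nat_lit 0, [(nat_lit 21, [(nat_lit 1, nat_lit 810)])],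
 ⟨p100_k10, nat_lit 0, nat_lit 0, nat_lit 46, nat_lit 0, nat_lit 0, [nat_lit 1483792001, nat_lit 2092760000], [], [nat_lit 22124338744, nat_lit 22675597801, nat_lit 25152402893, nat_lit 25619624137, nat_lit 24822308257, nat_lit 25285463174, nat_lit 27364605711, nat_lit 27838992126], nat_lit 0, nat_lit 0, nat_lit 0, nat_lit 0, nat_lit 0, nat_lit 0, [], [nat_lit 24, nat_lit 40, nat_lit 40, nat_lit 80, nat_lit 33, nat_lit 203, nat_lit 0, nat_lit 7]⟩, ⟨p100_k0, nat_lit 0, nat_lit 0, nat_lit 673, nat_lit 0, nat_lit 1397467, [nat_lit 386080000, nat_lit 890720000, nat_lit 1187500000], [], [nat_lit 5357369260, nat_lit 5387362060, nat_lit 5645807660, nat_lit 5672620605, nat_lit 4838553000, nat_lit 4859147034, nat_lit 5003431375, nat_lit 5019799104], nat_lit 1271250, nat_lit 1271250, nat_lit 1271250, nat_lit 1271250, nat_lit 0, nat_lit 2118750, [nat_lit 490000, nat_lit 1100000, nat_lit 1442500], [nat_lit 6, nat_lit 40, nat_lit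 40, nat_lit 80, nat_lit 3, nat_lit 289, nat_lit 75, nat_lit 10]⟩,
 ⟨nat_lit 3162, nat_lit 3536, ⟨.ofNat (nat_lit 694437), .ofNat (nat_lit 819981), .ofNat (nat_lit 699923), .ofNat (nat_lit 825467), .ofNat (nat_lit 693843), .ofNat (nat_lit 815770), .ofNat (nat_lit 699379), .ofNat (nat_lit 821307)⟩, ⟨.ofNat (nat_lit 305521), .ofNat (nat_lit 468701), .ofNat (nat_lit 349427), .ofNat (nat_lit 512606), .ofNat (nat_lit 306116), .ofNat (nat_lit 464594), .ofNat (nat_lit 350426), .ofNat (nat_lit 508904)⟩⟩, [⟨nat_lit 16, nat_lit 69, nat_lit 100, nat_lit 96, nat_lit 225496249⟩, ⟨nat_lit 19, nat_lit 87, nat_lit 95, nat_lit 100, nat_lit 26838418⟩]⟩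
noncomputable def p100_l46 : Lf2 := ⟨nat_lit 0, nat_lit 10, [nat_lit 0, nat_lit 5, nat_lit 5, nat_lit 20], false, nat_lit 160, nat_lit 264, nat_lit 0, nat_lit 296, ⟨nat_lit 948, nat_lit 52, nat_lit 0, nat_lit 8, nat_lit 306, nat_lit 52, nat_lit 163, nat_lit 0, nat_lit 0, nat_lit 0, nat_lit 0, nat_lit 0, nat_lit 36668668, nat_lit 22227424, nat_lit 8103908, nat_lit 5107104, true, false⟩,
 nat_lit 0, nat_lit 0, nat_lit 7634, nat_lit 0, nat_lit 6017, nat_lit 5837, nat_lit 0, nat_lit 0, nat_lit 0, nat_lit 2790, nat_lit 0, nat_lit 0, nat_lit 0, nat_lit 0, nat_lit 0, nat_lit 13000, nat_lit 0, nat_lit 0, [(nat_lit 21, [(nat_lit 0, nat_lit 52)])],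
 ⟨p100_k10, nat_lit 0, nat_lit 0, nat_lit 46, nat_lit 0, nat_lit 0, [nat_lit 2007372801, nat_lit 4546331200], [], [nat_lit 23174476692, nat_lit 23990845904, nat_lit 27297382270, nat_lit 28081126548, nat_lit 26146542954, nat_lit 26807583204, nat_lit 29727217802, nat_lit 30361314586], nat_lit 0, nat_lit 0, nat_lit 0, nat_lit 0, nat_lit 0, nat_lit 0, [], [nat_lit 24, nat_lit 40, nat_lit 40, nat_lit 80, nat_lit 33, nat_lit 203, nat_lit 0, nat_lit 7]⟩, ⟨p100_k3, nat_lit 0, nat_lit 0, nat_lit 671, nat_lit 0, nat_lit 1393535, [nat_lit 1926336000, nat_lit 4444224000, nat_lit 5925000000], [], [nat_lit 22985667596, nat_lit 23122692663, nat_lit 24572651755, nat_lit 24842531254, nat_lit 21844139771, nat_lit 21930194896, nat_lit 23836382078, nat_lit 24008698938], nat_lit 1271250, nat_lit 1271250, nat_lit 1271250, nat_lit 1271250, nat_lit 0, nat_lit 2090500, [nat_lit 490000, nat_lit 1100000, nat_lit 1442500], [nat_lit 6, nat_lit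 40, nat_lit 40, nat_lit 80, nat_lit 3, nat_lit 289, nat_lit 75, nat_lit 10]⟩,
 ⟨nat_lit 3162, nat_lit 3536, ⟨.ofNat (nat_lit 699923), .ofNat (nat_lit 825467), .ofNat (nat_lit 705409), .ofNat (nat_lit 830953), .ofNat (nat_lit 699379), .ofNat (nat_lit 821307), .ofNat (nat_lit 704916), .ofNat (nat_lit 826843)⟩, ⟨.ofNat (nat_lit 305521), .ofNat (nat_lit 468701), .ofNat (nat_lit 349427), .ofNat (nat_lit 512606), .ofNat (nat_lit 306116), .ofNat (nat_lit 464594), .ofNat (nat_lit 350426), .ofNat (nat_lit 508904)⟩⟩, [⟨nat_lit 4, nat_lit 100, nat_lit 64, nat_lit 88, nat_lit 596156947⟩, ⟨nat_lit 19, nat_lit 85, nat_lit 97, nat_lit 100, nat_lit 176535116⟩]⟩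
noncomputable def b_V_800_800_20_3 : St := ⟨true, nat_lit 0, nat_lit 1, nat_lit 1, nat_lit 120, nat_lit 340, nat_lit 360, nat_lit 320, nat_lit 330, nat_lit 240, nat_lit 320, nat_lit 80, nat_lit 120, nat_lit 160, nat_lit 276, nat_lit 0, nat_lit 300, nat_lit 0, nat_lit 40, nat_lit 0, nat_lit 0, nat_lit 800, nat_lit 0⟩
theorem d_V_800_800_20_3 (h : EB TB.env) : Dead b_V_800_800_20_3 := chkB_sound0 h (T :=
(.spl (nat_lit 0) (nat_lit 350)
(.leaf p100_l44)
(.trX (nat_lit 16) (nat_lit 69) (nat_lit 100) (nat_lit 96) (nat_lit 264) (.spl (nat_lit 1) (nat_lit 325)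
(.leaf p100_l45)
(.trX (nat_lit 19) (nat_lit 85) (nat_lit 97) (nat_lit 100) (nat_lit 296) (.leaf p100_l46)))))) (by decide +kernel)
noncomputable def p100_l47 : Lf2 := ⟨nat_lit 0, nat_lit 10, [nat_lit 0, nat_lit 5, nat_lit 5, nat_lit 20], false, nat_lit 160, nat_lit 276, nat_lit 16, nat_lit 160, ⟨nat_lit 305, nat_lit 695, nat_lit 0, nat_lit 8, nat_lit 343, nat_lit 695, nat_lit 167, nat_lit 0, nat_lit 0, nat_lit 0, nat_lit 0, nat_lit 0, nat_lit 33774587, nat_lit 25311117, nat_lit 7914296, nat_lit 5179263, true, true⟩,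
 nat_lit 0, nat_lit 0, nat_lit 3336, nat_lit 0, nat_lit 3115, nat_lit 2502, nat_lit 702, nat_lit 0, nat_lit 0, nat_lit 204, nat_lit 0, nat_lit 0, nat_lit 0, nat_lit 0, nat_lit 0, nat_lit 278000, nat_lit 0, nat_lit 0, [(nat_lit 21, [(nat_lit 1, nat_lit 695)])],
 ⟨p100_k2, nat_lit 0, nat_lit 0, nat_lit 73, nat_lit 0, nat_lit 0, [nat_lit 1561624000, nat_lit 2467336001, nat_lit 2943190000], [], [nat_lit 24628747860, nat_lit 25649981680, nat_lit 26575439290, nat_lit 27500896900, nat_lit 27491871074, nat_lit 28334284506, nat_lit 29101967581, nat_lit 29869650658], nat_lit 0, nat_lit 0, nat_lit 0, nat_lit 0, nat_lit 0, nat_lit 0, [], [nat_lit 6, nat_lit 40, nat_lit 40, nat_lit 80, nat_lit 3, nat_lit 289, nat_lit 75, nat_lit 9]⟩, ⟨p100_k0, nat_lit 0, nat_lit 0, nat_lit 671, nat_lit 0, nat_lit 1431917, [nat_lit 619760000, nat_lit 1429840000, nat_lit 1906250000], [], [nat_lit 8314036084, nat_lit 8388018074, nat_lit 8708182967,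 nat_lit 8855419944, nat_lit 7207877960, nat_lit 7267717687, nat_lit 7447236868, nat_lit 7499320367], nat_lit 1271250, nat_lit 1271250, nat_lit 1271250, nat_lit 1271250, nat_lit 88400, nat_lit 1100001, [nat_lit 490000, nat_lit 1100000, nat_lit 1442500], [nat_lit 6, nat_lit 40, nat_lit 40, nat_lit 80, nat_lit 3, nat_lit 274, nat_lit 40, nat_lit 9]⟩,
 ⟨nat_lit 3162, nat_lit 3873, ⟨.ofNat (nat_lit 824248), .ofNat (nat_lit 888802), .ofNat (nat_lit 835131), .ofNat (nat_lit 899684), .ofNat (nat_lit 815713), .ofNat (nat_lit 876699), .ofNat (nat_lit 826777), .ofNat (nat_lit 887762)⟩, ⟨.ofNat (nat_lit 304717), .ofNat (nat_lit 491830), .ofNat (nat_lit 348304), .ofNat (nat_lit 535416), .ofNat (nat_lit 306116), .ofNat (nat_lit 482881), .ofNat (nat_lit 350426), .ofNat (nat_lit 527190)⟩⟩, [⟨nat_lit 4, nat_lit 100, nat_lit 67, nat_lit 88, nat_lit 299731305⟩, ⟨nat_lit 9, nat_lit 100, nat_lit 63, nat_lit 83, nat_lit 2427719⟩]⟩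
noncomputable def p100_l48 : Lf2 := ⟨nat_lit 0, nat_lit 10, [nat_lit 0, nat_lit 5, nat_lit 5, nat_lit 20], false, nat_lit 160, nat_lit 276, nat_lit 48, nat_lit 160, ⟨nat_lit 252, nat_lit 748, nat_lit 0, nat_lit 9, nat_lit 369, nat_lit 748, nat_lit 168, nat_lit 0, nat_lit 0, nat_lit 0, nat_lit 0, nat_lit 0, nat_lit 31923009, nat_lit 27479818, nat_lit 7597173, nat_lit 5175956, true, true⟩,
 nat_lit 0, nat_lit 0, nat_lit 2621, nat_lit 0, nat_lit 2998, nat_lit 1965, nat_lit 461, nat_lit 0, nat_lit 0, nat_lit 131, nat_lit 0, nat_lit 0, nat_lit 0, nat_lit 0, nat_lit 0, nat_lit 299200, nat_lit 0, nat_lit 0, [(nat_lit 21, [(nat_lit 1, nat_lit 748)])],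
 ⟨p100_k2, nat_lit 0, nat_lit 0, nat_lit 93, nat_lit 0, nat_lit 0, [nat_lit 1525753600, nat_lit 2297990400, nat_lit 2691016000], [], [nat_lit 26659185177, nat_lit 27077115391, nat_lit 28614021680, nat_lit 29024305296, nat_lit 29108985402, nat_lit 29488445149, nat_lit 30812624152, nat_lit 31155820793], nat_lit 0, nat_lit 0, nat_lit 0, nat_lit 0, nat_lit 0, nat_lit 0, [], [nat_lit 6, nat_lit 40, nat_lit 40, nat_lit 80, nat_lit 3, nat_lit 289, nat_lit 75, nat_lit 9]⟩, ⟨p100_k0, nat_lit 0, nat_lit 0, nat_lit 615, nat_lit 0, nat_lit 1326581, [nat_lit 512064000, nat_lit 1181376000, nat_lit 1575000000], [], [nat_lit 7293390545, nat_lit 7357364078, nat_lit 7720143444, nat_lit 7832056263, nat_lit 6687289764, nat_lit 6741453981, nat_lit 6972726840, nat_lit 7019748640], nat_lit 1271250, nat_lit 1271250, nat_lit 1271250, nat_lit 1271250, nat_lit 279600, nat_lit 1100001, [nat_lit 490000, nat_lit 1100000, nat_lit 1442500], [nat_lit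 6, nat_lit 40, nat_lit 40, nat_lit 80, nat_lit 3, nat_lit 265, nat_lit 40, nat_lit 8]⟩,
 ⟨nat_lit 3535, nat_lit 3873, ⟨.ofNat (nat_lit 888832), .ofNat (nat_lit 953359), .ofNat (nat_lit 899726), .ofNat (nat_lit 964253), .ofNat (nat_lit 882748), .ofNat (nat_lit 945515), .ofNat (nat_lit 893721), .ofNat (nat_lit 956488)⟩, ⟨.ofNat (nat_lit 304717), .ofNat (nat_lit 491830), .ofNat (nat_lit 348304), .ofNat (nat_lit 535416), .ofNat (nat_lit 305521), .ofNat (nat_lit 487529), .ofNat (nat_lit 349427), .ofNat (nat_lit 531435)⟩⟩, [⟨nat_lit 16, nat_lit 71, nat_lit 100, nat_lit 89, nat_lit 145714552⟩, ⟨nat_lit 9, nat_lit 100, nat_lit 44, nat_lit 94, nat_lit 136180270⟩]⟩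
noncomputable def p100_l49 : Lf2 := ⟨nat_lit 0, nat_lit 10, [nat_lit 0, nat_lit 5, nat_lit 5, nat_lit 20], false, nat_lit 160, nat_lit 264, nat_lit 48, nat_lit 160, ⟨nat_lit 219, nat_lit 781, nat_lit 0, nat_lit 9, nat_lit 366, nat_lit 781, nat_lit 163, nat_lit 0, nat_lit 0, nat_lit 0, nat_lit 0, nat_lit 0, nat_lit 32266387, nat_lit 27380190, nat_lit 7353423, nat_lit 5142606, true, true⟩,
 nat_lit 0, nat_lit 0, nat_lit 2273, nat_lit 0, nat_lit 2964, nat_lit 1704, nat_lit 344, nat_lit 0, nat_lit 0, nat_lit 114, nat_lit 0, nat_lit 0, nat_lit 0, nat_lit 0, nat_lit 0, nat_lit 312400, nat_lit 0, nat_lit 0, [(nat_lit 21, [(nat_lit 1, nat_lit 781)])],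
 ⟨p100_k10, nat_lit 0, nat_lit 0, nat_lit 86, nat_lit 0, nat_lit 0, [nat_lit 1503419201, nat_lit 2185676000], [], [nat_lit 27008424494, nat_lit 27462937842, nat_lit 28990263130, nat_lit 29399061218, nat_lit 29136622208, nat_lit 29523221895, nat_lit 30832592695, nat_lit 31182215302], nat_lit 0, nat_lit 0, nat_lit 0, nat_lit 0, nat_lit 0, nat_lit 0, [], [nat_lit 24, nat_lit 40, nat_lit 40, nat_lit 80, nat_lit 33, nat_lit 203, nat_lit 0, nat_lit 6]⟩, ⟨p100_k0, nat_lit 0, nat_lit 0, nat_lit 654, nat_lit 0, nat_lit 1431917, [nat_lit 445008000, nat_lit 1026672000, nat_lit 1368750000], [], [nat_lit 6358091386, nat_lit 6413658794, nat_lit 6714853947, nat_lit 6812016731, nat_lit 5833228188, nat_lit 5880284901, nat_lit 6081114192, nat_lit 6121764750], nat_lit 1271250, nat_lit 1271250, nat_lit 1271250, nat_lit 1271250, nat_lit 279600, nat_lit 1100001, [nat_lit 490000, nat_lit 1100000, nat_lit 1442500], [nat_lit 6, nat_lit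 40, nat_lit 40, nat_lit 80, nat_lit 3, nat_lit 275, nat_lit 40, nat_lit 9]⟩,
 ⟨nat_lit 3162, nat_lit 3536, ⟨.ofNat (nat_lit 882753), .ofNat (nat_lit 945521), .ofNat (nat_lit 893725), .ofNat (nat_lit 956496), .ofNat (nat_lit 876734), .ofNat (nat_lit 937695), .ofNat (nat_lit 887808), .ofNat (nat_lit 948770)⟩, ⟨.ofNat (nat_lit 305521), .ofNat (nat_lit 468701), .ofNat (nat_lit 349427), .ofNat (nat_lit 512606), .ofNat (nat_lit 306116), .ofNat (nat_lit 464594), .ofNat (nat_lit 350426), .ofNat (nat_lit 508904)⟩⟩, [⟨nat_lit 4, nat_lit 100, nat_lit 64, nat_lit 88, nat_lit 129286976⟩, ⟨nat_lit 9, nat_lit 95, nat_lit 44, nat_lit 100, nat_lit 149804663⟩]⟩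
noncomputable def b_V_800_800_20_4 : St := ⟨true, nat_lit 0, nat_lit 1, nat_lit 1, nat_lit 120, nat_lit 340, nat_lit 360, nat_lit 320, nat_lit 330, nat_lit 320, nat_lit 400, nat_lit 80, nat_lit 120, nat_lit 160, nat_lit 276, nat_lit 16, nat_lit 160, nat_lit 0, nat_lit 40, nat_lit 0, nat_lit 0, nat_lit 800, nat_lit 0⟩
theorem d_V_800_800_20_4 (h : EB TB.env) : Dead b_V_800_800_20_4 := chkB_sound0 h (T :=
(.spl (nat_lit 2) (nat_lit 360)
(.leaf p100_l47)
(.trZ (nat_lit 9) (nat_lit 100) (nat_lit 61) (nat_lit 68) (nat_lit 48) (.spl (nat_lit 0) (nat_lit 350)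
(.leaf p100_l48)
(.trX (nat_lit 16) (nat_lit 69) (nat_lit 100) (nat_lit 96) (nat_lit 264) (.leaf p100_l49)))))) (by decide +kernel)
noncomputable def p100_l50 : Lf2 := ⟨nat_lit 0, nat_lit 1, [nat_lit 19, nat_lit 5, nat_lit 5, nat_lit 20], false, nat_lit 160, nat_lit 276, nat_lit 160, nat_lit 300, ⟨nat_lit 1000, nat_lit 0, nat_lit 0, nat_lit 0, nat_lit 0, nat_lit 0, nat_lit 0, nat_lit 0, nat_lit 0, nat_lit 0, nat_lit 0, nat_lit 0, nat_lit 0, nat_lit 0, nat_lit 0, nat_lit 0, false, false⟩,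
 nat_lit 0, nat_lit 0, nat_lit 8723, nat_lit 0, nat_lit 3596, nat_lit 6542, nat_lit 935, nat_lit 0, nat_lit 0, nat_lit 0, nat_lit 0, nat_lit 0, nat_lit 0, nat_lit 0, nat_lit 0, nat_lit 0, nat_lit 0, nat_lit 0, [],
 ⟨p100_k11, nat_lit 0, nat_lit 0, nat_lit 73, nat_lit 0, nat_lit 0, [nat_lit 2032000001, nat_lit 3282000000], [], [nat_lit 25283016703, nat_lit 25801688163, nat_lit 29413482962, nat_lit 29849894394, nat_lit 28047158916, nat_lit 28472213711, nat_lit 31540842345, nat_lit 31901458367], nat_lit 0, nat_lit 0, nat_lit 0, nat_lit 0, nat_lit 0, nat_lit 0, [], [nat_lit 112, nat_lit 40, nat_lit 40, nat_lit 80, nat_lit 113, nat_lit 203, nat_lit 0, nat_lit 8]⟩, ⟨p100_k12, nat_lit 0, nat_lit 0, nat_lit 424, nat_lit 0, nat_lit 1230115, [nat_lit 2032000000, nat_lit 3282000000], [], [nat_lit 24135575800, nat_lit 24316838896, nat_lit 27189149328, nat_lit 27333696812, nat_lit 26053212666, nat_lit 26189672543, nat_lit 28790971426,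 nat_lit 28945240200], nat_lit 1271250, nat_lit 1271250, nat_lit 1271250, nat_lit 1271250, nat_lit 1100001, nat_lit 2298750, [nat_lit 490000, nat_lit 780000], [nat_lit 112, nat_lit 40, nat_lit 40, nat_lit 80, nat_lit 113, nat_lit 235, nat_lit 0, nat_lit 10]⟩,
 zbF0, [⟨nat_lit 16, nat_lit 77, nat_lit 100, nat_lit 99, nat_lit 396431604⟩, ⟨nat_lit 19, nat_lit 87, nat_lit 95, nat_lit 100, nat_lit 318646003⟩]⟩
noncomputable def p100_l51 : Lf2 := ⟨nat_lit 0, nat_lit 2, [nat_lit 10, nat_lit 5, nat_lit 5, nat_lit 20], false, nat_lit 160, nat_lit 276, nat_lit 160, nat_lit 300, ⟨nat_lit 942, nat_lit 58, nat_lit 0, nat_lit 8, nat_lit 355, nat_lit 58, nat_lit 168, nat_lit 0, nat_lit 0, nat_lit 0, nat_lit 0, nat_lit 0, nat_lit 32871047, nat_lit 26353731, nat_lit 7775222, nat_lit 5182406, true, true⟩,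
 nat_lit 0, nat_lit 0, nat_lit 8811, nat_lit 0, nat_lit 3738, nat_lit 6607, nat_lit 819, nat_lit 0, nat_lit 0, nat_lit 0, nat_lit 0, nat_lit 0, nat_lit 0, nat_lit 0, nat_lit 0, nat_lit 58000, nat_lit 0, nat_lit 0, [(nat_lit 21, [(nat_lit 2, nat_lit 58)])],
 ⟨p100_k13, nat_lit 0, nat_lit 0, nat_lit 73, nat_lit 0, nat_lit 0, [nat_lit 1990642134, nat_lit 3128091200], [], [nat_lit 25080448840, nat_lit 25607765970, nat_lit 29552291376, nat_lit 30035510528, nat_lit 27846237089, nat_lit 28277326727, nat_lit 31681257484, nat_lit 32076973187], nat_lit 0, nat_lit 0, nat_lit 0, nat_lit 0, nat_lit 0, nat_lit 0, [], [nat_lit 112, nat_lit 40, nat_lit 40, nat_lit 80, nat_lit 113, nat_lit 203, nat_lit 0, nat_lit 8]⟩, ⟨p100_k5, nat_lit 0, nat_lit 0, nat_lit 438, nat_lit 0, nat_lit 1162014, [nat_lit 1914144000, nat_lit 4416096000], [], [nat_lit 25990928140, nat_lit 26156955008, nat_lit 28806459980, nat_lit 28936559035, nat_lit 27464524863,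 nat_lit 27587158605, nat_lit 29577226709, nat_lit 29671505547], nat_lit 1271250, nat_lit 1271250, nat_lit 1271250, nat_lit 1271250, nat_lit 1100001, nat_lit 2298750, [nat_lit 490000, nat_lit 1100000], [nat_lit 24, nat_lit 40, nat_lit 40, nat_lit 80, nat_lit 33, nat_lit 238, nat_lit 0, nat_lit 8]⟩,
 ⟨nat_lit 3535, nat_lit 3873, ⟨.ofNat (nat_lit 824304), .ofNat (nat_lit 953359), .ofNat (nat_lit 829751), .ofNat (nat_lit 958806), .ofNat (nat_lit 819980), .ofNat (nat_lit 945515), .ofNat (nat_lit 825467), .ofNat (nat_lit 951002)⟩, ⟨.ofNat (nat_lit 304717), .ofNat (nat_lit 491830), .ofNat (nat_lit 348304), .ofNat (nat_lit 535416), .ofNat (nat_lit 305521), .ofNat (nat_lit 487529), .ofNat (nat_lit 349427), .ofNat (nat_lit 531435)⟩⟩, [⟨nat_lit 4, nat_lit 100, nat_lit 71, nat_lit 89, nat_lit 457960082⟩, ⟨nat_lit 7, nat_lit 100, nat_lit 85, nat_lit 94, nat_lit 291660440⟩]⟩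
noncomputable def p100_l52 : Lf2 := ⟨nat_lit 0, nat_lit 5, [nat_lit 4, nat_lit 5, nat_lit 5, nat_lit 20], false, nat_lit 160, nat_lit 276, nat_lit 160, nat_lit 300, ⟨nat_lit 1000, nat_lit 0, nat_lit 0, nat_lit 0, nat_lit 0, nat_lit 0, nat_lit 0, nat_lit 0, nat_lit 0, nat_lit 0, nat_lit 0, nat_lit 0, nat_lit 0, nat_lit 0, nat_lit 0, nat_lit 0, false, false⟩,
 nat_lit 0, nat_lit 0, nat_lit 9356, nat_lit 0, nat_lit 3650, nat_lit 7017, nat_lit 1113, nat_lit 0, nat_lit 0, nat_lit 369, nat_lit 0, nat_lit 0, nat_lit 0, nat_lit 0, nat_lit 0, nat_lit 0, nat_lit 0, nat_lit 0, [],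
 ⟨p100_k14, nat_lit 0, nat_lit 0, nat_lit 84, nat_lit 0, nat_lit 0, [nat_lit 2032000001, nat_lit 4688000000], [], [nat_lit 25405753226, nat_lit 25901068026, nat_lit 29432650800, nat_lit 29911522400, nat_lit 28023268596, nat_lit 28429699566, nat_lit 31574544716, nat_lit 31967353783], nat_lit 0, nat_lit 0, nat_lit 0, nat_lit 0, nat_lit 0, nat_lit 0, [], [nat_lit 24, nat_lit 40, nat_lit 40, nat_lit 80, nat_lit 33, nat_lit 203, nat_lit 0, nat_lit 7]⟩, ⟨p100_k4, nat_lit 0, nat_lit 0, nat_lit 471, nat_lit 0, nat_lit 1118672, [nat_lit 2032000000, nat_lit 4688000000, nat_lit 6250000000], [], [nat_lit 27786049440, nat_lit 27950015791, nat_lit 30575385036, nat_lit 30705011674, nat_lit 29141295575, nat_lit 29271493911, nat_lit 31384368259, nat_lit 31484454633], nat_lit 1271250, nat_lit 1271250, nat_lit 1271250, nat_lit 1271250, nat_lit 1100001, nat_lit 2298750, [nat_lit 490000, nat_lit 1100000, nat_lit 1442500], [nat_lit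 6, nat_lit 40, nat_lit 40, nat_lit 80, nat_lit 3, nat_lit 289, nat_lit 75, nat_lit 9]⟩,
 zbF0, [⟨nat_lit 4, nat_lit 100, nat_lit 71, nat_lit 89, nat_lit 508154826⟩, ⟨nat_lit 7, nat_lit 100, nat_lit 85, nat_lit 94, nat_lit 309714648⟩]⟩
noncomputable def p100_l53 : Lf2 := ⟨nat_lit 0, nat_lit 10, [nat_lit 0, nat_lit 5, nat_lit 5, nat_lit 20], false, nat_lit 160, nat_lit 276, nat_lit 160, nat_lit 300, ⟨nat_lit 1000, nat_lit 0, nat_lit 0, nat_lit 0, nat_lit 0, nat_lit 0, nat_lit 0, nat_lit 0, nat_lit 0, nat_lit 0, nat_lit 0, nat_lit 0, nat_lit 0, nat_lit 0, nat_lit 0, nat_lit 0, false, false⟩,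
 nat_lit 0, nat_lit 0, nat_lit 9587, nat_lit 0, nat_lit 4125, nat_lit 7190, nat_lit 685, nat_lit 0, nat_lit 0, nat_lit 361, nat_lit 0, nat_lit 0, nat_lit 0, nat_lit 0, nat_lit 0, nat_lit 0, nat_lit 0, nat_lit 0, [],
 ⟨p100_k2, nat_lit 0, nat_lit 0, nat_lit 93, nat_lit 0, nat_lit 0, [nat_lit 2032000001, nat_lit 4688000000, nat_lit 6250000000], [], [nat_lit 25903570626, nat_lit 26425415126, nat_lit 30142766625, nat_lit 30582334375, nat_lit 28515223451, nat_lit 28940010226, nat_lit 32150551138, nat_lit 32559049432], nat_lit 0, nat_lit 0, nat_lit 0, nat_lit 0, nat_lit 0, nat_lit 0, [], [nat_lit 6, nat_lit 40, nat_lit 40, nat_lit 80, nat_lit 3, nat_lit 289, nat_lit 75, nat_lit 9]⟩, ⟨p100_k0, nat_lit 0, nat_lit 0, nat_lit 420, nat_lit 0, nat_lit 968995, [nat_lit 2032000000, nat_lit 4688000000, nat_lit 6250000000], [], [nat_lit 27058288800, nat_lit 27223678335, nat_lit 29874160520, nat_lit 30002950345, nat_lit 28381016450,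 nat_lit 28502172434, nat_lit 30920332060, nat_lit 31067253234], nat_lit 1271250, nat_lit 1271250, nat_lit 1271250, nat_lit 1271250, nat_lit 1100001, nat_lit 2298750, [nat_lit 490000, nat_lit 1100000, nat_lit 1442500], [nat_lit 6, nat_lit 40, nat_lit 40, nat_lit 80, nat_lit 3, nat_lit 289, nat_lit 75, nat_lit 9]⟩,
 zbF0, [⟨nat_lit 4, nat_lit 100, nat_lit 71, nat_lit 89, nat_lit 473244573⟩, ⟨nat_lit 7, nat_lit 100, nat_lit 85, nat_lit 94, nat_lit 322475712⟩]⟩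
noncomputable def p100_l54 : Lf2 := ⟨nat_lit 0, nat_lit 10, [nat_lit 0, nat_lit 5, nat_lit 5, nat_lit 20], false, nat_lit 160, nat_lit 276, nat_lit 160, nat_lit 296, ⟨nat_lit 1000, nat_lit 0, nat_lit 0, nat_lit 0, nat_lit 0, nat_lit 0, nat_lit 0, nat_lit 0, nat_lit 0, nat_lit 0, nat_lit 0, nat_lit 0, nat_lit 0, nat_lit 0, nat_lit 0, nat_lit 0, false, false⟩,
 nat_lit 0, nat_lit 0, nat_lit 7928, nat_lit 0, nat_lit 4125, nat_lit 6062, nat_lit 622, nat_lit 0, nat_lit 0, nat_lit 2238, nat_lit 0, nat_lit 0, nat_lit 0, nat_lit 0, nat_lit 0, nat_lit 0, nat_lit 0, nat_lit 0, [],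
 ⟨p100_k2, nat_lit 0, nat_lit 0, nat_lit 93, nat_lit 0, nat_lit 0, [nat_lit 2032000001, nat_lit 4688000000, nat_lit 6250000000], [], [nat_lit 26241748501, nat_lit 26731981876, nat_lit 30299282250, nat_lit 30738850000, nat_lit 28671739076, nat_lit 29096525851, nat_lit 32199946388, nat_lit 32559349694], nat_lit 0, nat_lit 0, nat_lit 0, nat_lit 0, nat_lit 0, nat_lit 0, [], [nat_lit 6, nat_lit 40, nat_lit 40, nat_lit 80, nat_lit 3, nat_lit 289, nat_lit 75, nat_lit 9]⟩, ⟨p100_k3, nat_lit 0, nat_lit 0, nat_lit 542, nat_lit 0, nat_lit 1291088, [nat_lit 2032000000, nat_lit 4688000000, nat_lit 6250000000], [], [nat_lit 25817620624, nat_lit 25957040344, nat_lit 28155727049, nat_lit 28266912346, nat_lit 27025729239, nat_lit 27131592409, nat_lit 29682741956, nat_lit 29824903061], nat_lit 1271250, nat_lit 1271250, nat_lit 1271250, nat_lit 1271250, nat_lit 1100001, nat_lit 2264500, [nat_lit 490000, nat_lit 1100000, nat_lit 1442500],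 [nat_lit 6, nat_lit 40, nat_lit 40, nat_lit 80, nat_lit 3, nat_lit 289, nat_lit 75, nat_lit 9]⟩,
 zbF0, [⟨nat_lit 16, nat_lit 77, nat_lit 100, nat_lit 99, nat_lit 383369609⟩, ⟨nat_lit 19, nat_lit 85, nat_lit 97, nat_lit 100, nat_lit 308034854⟩]⟩
noncomputable def p100_l55 : Lf2 := ⟨nat_lit 0, nat_lit 5, [nat_lit 4, nat_lit 5, nat_lit 5, nat_lit 20], true, nat_lit 160, nat_lit 200, nat_lit 160, nat_lit 300, ⟨nat_lit 0, nat_lit 1000, nat_lit 0, nat_lit 8, nat_lit 341, nat_lit 1000, nat_lit 144, nat_lit 0, nat_lit 0, nat_lit 0, nat_lit 0, nat_lit 0, nat_lit 34866624, nat_lit 25738950, nat_lit 6394426, nat_lit 4974791, true, true⟩,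
 nat_lit 0, nat_lit 0, nat_lit 0, nat_lit 0, nat_lit 3179, nat_lit 0, nat_lit 0, nat_lit 0, nat_lit 0, nat_lit 0, nat_lit 0, nat_lit 0, nat_lit 0, nat_lit 0, nat_lit 0, nat_lit 400000, nat_lit 0, nat_lit 0, [(nat_lit 21, [(nat_lit 1, nat_lit 1000)])],
 ⟨p100_k15, nat_lit 0, nat_lit 0, nat_lit 69, nat_lit 0, nat_lit 0, [nat_lit 1355200000, nat_lit 1492800000], [], [nat_lit 25328604144, nat_lit 25797612652, nat_lit 27076594693, nat_lit 27510887924, nat_lit 26093400246, nat_lit 26535262646, nat_lit 27742213373, nat_lit 28208626502], nat_lit 0, nat_lit 0, nat_lit 0, nat_lit 0, nat_lit 0, nat_lit 0, [], [nat_lit 24, nat_lit 40, nat_lit 40, nat_lit 80, nat_lit 33, nat_lit 203, nat_lit 0, nat_lit 6]⟩, C1.Rw.none,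
 ⟨nat_lit 3162, nat_lit 3536, ⟨.ofNat (nat_lit 819981), .ofNat (nat_lit 882753), .ofNat (nat_lit 825467), .ofNat (nat_lit 888239), .ofNat (nat_lit 815770), .ofNat (nat_lit 876734), .ofNat (nat_lit 821307), .ofNat (nat_lit 882271)⟩, ⟨.ofNat (nat_lit 305521), .ofNat (nat_lit 368283), .ofNat (nat_lit 349427), .ofNat (nat_lit 412188), .ofNat (nat_lit 306116), .ofNat (nat_lit 367069), .ofNat (nat_lit 350426), .ofNat (nat_lit 411379)⟩⟩, []⟩
noncomputable def p100_l56 : Lf2 := ⟨nat_lit 0, nat_lit 2, [nat_lit 10, nat_lit 5, nat_lit 5, nat_lit 20], false, nat_lit 200, nat_lit 264, nat_lit 160, nat_lit 300, ⟨nat_lit 119, nat_lit 881, nat_lit 0, nat_lit 8, nat_lit 340, nat_lit 881, nat_lit 176, nat_lit 0, nat_lit 0, nat_lit 0, nat_lit 0, nat_lit 0, nat_lit 33633046, nat_lit 24858746, nat_lit 8508208, nat_lit 5243622, true, true⟩,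
 nat_lit 0, nat_lit 0, nat_lit 1180, nat_lit 0, nat_lit 2987, nat_lit 884, nat_lit 0, nat_lit 0, nat_lit 0, nat_lit 0, nat_lit 0, nat_lit 0, nat_lit 0, nat_lit 0, nat_lit 0, nat_lit 504800, nat_lit 0, nat_lit 0, [(nat_lit 21, [(nat_lit 1, nat_lit 627), (nat_lit 2, nat_lit 254)])],
 ⟨p100_k16, nat_lit 0, nat_lit 0, nat_lit 59, nat_lit 0, nat_lit 0, [nat_lit 1426527467, nat_lit 1426968400], [], [nat_lit 25928566323, nat_lit 26382454229, nat_lit 27622632221, nat_lit 28036024885, nat_lit 27441180085, nat_lit 27849356500, nat_lit 28968030488, nat_lit 29390505168], nat_lit 0, nat_lit 0, nat_lit 0, nat_lit 0, nat_lit 0, nat_lit 0, [], [nat_lit 112, nat_lit 40, nat_lit 40, nat_lit 80, nat_lit 113, nat_lit 203, nat_lit 0, nat_lit 8]⟩, ⟨p100_k5, nat_lit 0, nat_lit 0, nat_lit 497, nat_lit 0, nat_lit 1320417, [nat_lit 241808000, nat_lit 557872000], [], [nat_lit 3181139892, nat_lit 3188186729, nat_lit 3322076624, nat_lit 3328334784,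 nat_lit 3305371353, nat_lit 3310484335, nat_lit 3407630977, nat_lit 3412115516], nat_lit 1271250, nat_lit 1271250, nat_lit 1271250, nat_lit 1271250, nat_lit 1100001, nat_lit 2298750, [nat_lit 490000, nat_lit 1100000], [nat_lit 24, nat_lit 40, nat_lit 40, nat_lit 80, nat_lit 33, nat_lit 247, nat_lit 0, nat_lit 9]⟩,
 ⟨nat_lit 3162, nat_lit 3536, ⟨.ofNat (nat_lit 819981), .ofNat (nat_lit 882753), .ofNat (nat_lit 822175), .ofNat (nat_lit 884947), .ofNat (nat_lit 815770), .ofNat (nat_lit 876734), .ofNat (nat_lit 817985), .ofNat (nat_lit 878949)⟩, ⟨.ofNat (nat_lit 368283), .ofNat (nat_lit 468701), .ofNat (nat_lit 412188), .ofNat (nat_lit 512606), .ofNat (nat_lit 367069), .ofNat (nat_lit 464594), .ofNat (nat_lit 411379), .ofNat (nat_lit 508904)⟩⟩, [⟨nat_lit 16, nat_lit 69, nat_lit 100, nat_lit 96, nat_lit 215295615⟩, ⟨nat_lit 19, nat_lit 87, nat_lit 95, nat_lit 100, nat_lit 33488536⟩]⟩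
noncomputable def p100_l57 : Lf2 := ⟨nat_lit 0, nat_lit 2, [nat_lit 10, nat_lit 5, nat_lit 5, nat_lit 20], false, nat_lit 200, nat_lit 264, nat_lit 160, nat_lit 300, ⟨nat_lit 1000, nat_lit 0, nat_lit 0, nat_lit 0, nat_lit 0, nat_lit 0, nat_lit 0, nat_lit 0, nat_lit 0, nat_lit 0, nat_lit 0, nat_lit 0, nat_lit 0, nat_lit 0, nat_lit 0, nat_lit 0, false, false⟩,
 nat_lit 0, nat_lit 0, nat_lit 7471, nat_lit 0, nat_lit 3736, nat_lit 5647, nat_lit 602, nat_lit 0, nat_lit 0, nat_lit 7769, nat_lit 0, nat_lit 0, nat_lit 0, nat_lit 0, nat_lit 0, nat_lit 0, nat_lit 0, nat_lit 0, [],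
 ⟨p100_k16, nat_lit 0, nat_lit 0, nat_lit 59, nat_lit 0, nat_lit 0, [nat_lit 2032000001, nat_lit 3282000000], [], [nat_lit 26482400069, nat_lit 26977286737, nat_lit 28319415613, nat_lit 28822628768, nat_lit 27999625274, nat_lit 28441510258, nat_lit 29726872902, nat_lit 30183617373], nat_lit 0, nat_lit 0, nat_lit 0, nat_lit 0, nat_lit 0, nat_lit 0, [], [nat_lit 112, nat_lit 40, nat_lit 40, nat_lit 80, nat_lit 113, nat_lit 203, nat_lit 0, nat_lit 8]⟩, ⟨p100_k17, nat_lit 0, nat_lit 0, nat_lit 495, nat_lit 0, nat_lit 1312569, [nat_lit 2032000000, nat_lit 4688000000], [], [nat_lit 24560850330, nat_lit 24588282787, nat_lit 25652992590, nat_lit 25677847038, nat_lit 26027567588, nat_lit 26048577462, nat_lit 27403177660, nat_lit 27434498730], nat_lit 1271250, nat_lit 1271250, nat_lit 1271250, nat_lit 1271250, nat_lit 1100001, nat_lit 2298750, [nat_lit 490000, nat_lit 1100000], [nat_lit 24, nat_lit 40, nat_lit 40, nat_lit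 80, nat_lit 33, nat_lit 247, nat_lit 0, nat_lit 9]⟩,
 zbF0, [⟨nat_lit 16, nat_lit 69, nat_lit 100, nat_lit 96, nat_lit 493548612⟩, ⟨nat_lit 19, nat_lit 86, nat_lit 96, nat_lit 100, nat_lit 316021211⟩]⟩
noncomputable def p100_l58 : Lf2 := ⟨nat_lit 0, nat_lit 5, [nat_lit 4, nat_lit 5, nat_lit 5, nat_lit 20], false, nat_lit 200, nat_lit 264, nat_lit 160, nat_lit 300, ⟨nat_lit 600, nat_lit 400, nat_lit 0, nat_lit 8, nat_lit 340, nat_lit 400, nat_lit 176, nat_lit 0, nat_lit 0, nat_lit 0, nat_lit 0, nat_lit 0, nat_lit 33617672, nat_lit 24877140, nat_lit 8505188, nat_lit 5243697, true, true⟩,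
 nat_lit 0, nat_lit 0, nat_lit 5937, nat_lit 0, nat_lit 3366, nat_lit 4452, nat_lit 497, nat_lit 0, nat_lit 0, nat_lit 217, nat_lit 0, nat_lit 0, nat_lit 0, nat_lit 0, nat_lit 0, nat_lit 160000, nat_lit 0, nat_lit 0, [(nat_lit 21, [(nat_lit 1, nat_lit 400)])],
 ⟨p100_k15, nat_lit 0, nat_lit 0, nat_lit 62, nat_lit 0, nat_lit 0, [nat_lit 1761280000, nat_lit 3406400000], [], [nat_lit 26337665209, nat_lit 26788896309, nat_lit 28019056167, nat_lit 28456639956, nat_lit 27776498576, nat_lit 28184028236, nat_lit 29391277127, nat_lit 29793693424], nat_lit 0, nat_lit 0, nat_lit 0, nat_lit 0, nat_lit 0, nat_lit 0, [], [nat_lit 24, nat_lit 40, nat_lit 40, nat_lit 80, nat_lit 33, nat_lit 203, nat_lit 0, nat_lit 6]⟩, ⟨p100_k4, nat_lit 0, nat_lit 0, nat_lit 508, nat_lit 0, nat_lit 1208032, [nat_lit 1219200000, nat_lit 2812800000, nat_lit 3750000000], [], [nat_lit 16131311504, nat_lit 16180686531, nat_lit 16789645184, nat_lit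 16833404167, nat_lit 16693052148, nat_lit 16731715906, nat_lit 17208568920, nat_lit 17242484245], nat_lit 1271250, nat_lit 1271250, nat_lit 1271250, nat_lit 1271250, nat_lit 1100001, nat_lit 2298750, [nat_lit 490000, nat_lit 1100000, nat_lit 1442500], [nat_lit 6, nat_lit 40, nat_lit 40, nat_lit 80, nat_lit 3, nat_lit 289, nat_lit 75, nat_lit 9]⟩,
 ⟨nat_lit 3162, nat_lit 3536, ⟨.ofNat (nat_lit 819981), .ofNat (nat_lit 882753), .ofNat (nat_lit 823273), .ofNat (nat_lit 886045), .ofNat (nat_lit 815770), .ofNat (nat_lit 876734), .ofNat (nat_lit 819092), .ofNat (nat_lit 880056)⟩, ⟨.ofNat (nat_lit 368283), .ofNat (nat_lit 468701), .ofNat (nat_lit 412188), .ofNat (nat_lit 512606), .ofNat (nat_lit 367069), .ofNat (nat_lit 464594), .ofNat (nat_lit 411379), .ofNat (nat_lit 508904)⟩⟩, [⟨nat_lit 16, nat_lit 69, nat_lit 100, nat_lit 96, nat_lit 368473524⟩, ⟨nat_lit 19, nat_lit 87, nat_lit 95, nat_lit 100, nat_lit 168141654⟩]⟩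
noncomputable def p100_l59 : Lf2 := ⟨nat_lit 0, nat_lit 5, [nat_lit 4, nat_lit 5, nat_lit 5, nat_lit 20], false, nat_lit 200, nat_lit 264, nat_lit 160, nat_lit 296, ⟨nat_lit 1000, nat_lit 0, nat_lit 0, nat_lit 0, nat_lit 0, nat_lit 0, nat_lit 0, nat_lit 0, nat_lit 0, nat_lit 0, nat_lit 0, nat_lit 0, nat_lit 0, nat_lit 0, nat_lit 0, nat_lit 0, false, false⟩,
 nat_lit 0, nat_lit 0, nat_lit 8622, nat_lit 0, nat_lit 3713, nat_lit 6542, nat_lit 725, nat_lit 0, nat_lit 0, nat_lit 2931, nat_lit 0, nat_lit 0, nat_lit 0, nat_lit 0, nat_lit 0, nat_lit 0, nat_lit 0, nat_lit 0, [],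
 ⟨p100_k15, nat_lit 0, nat_lit 0, nat_lit 62, nat_lit 0, nat_lit 0, [nat_lit 2032000001, nat_lit 4688000000], [], [nat_lit 26631368888, nat_lit 27099984688, nat_lit 28373211757, nat_lit 28797987960, nat_lit 28067849734, nat_lit 28486559461, nat_lit 29707368528, nat_lit 30159262793], nat_lit 0, nat_lit 0, nat_lit 0, nat_lit 0, nat_lit 0, nat_lit 0, [], [nat_lit 24, nat_lit 40, nat_lit 40, nat_lit 80, nat_lit 33, nat_lit 203, nat_lit 0, nat_lit 6]⟩, ⟨p100_k18, nat_lit 0, nat_lit 0, nat_lit 503, nat_lit 0, nat_lit 1339449, [nat_lit 2032000000, nat_lit 4688000000], [], [nat_lit 25205702176, nat_lit 25262681584, nat_lit 26336331255, nat_lit 26387337941, nat_lit 26337450913, nat_lit 26380185663, nat_lit 27762765239, nat_lit 27828960332], nat_lit 1271250, nat_lit 1271250, nat_lit 1271250, nat_lit 1271250, nat_lit 1100001, nat_lit 2264500, [nat_lit 490000, nat_lit 1100000], [nat_lit 24, nat_lit 40, nat_lit 40, nat_lit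 80, nat_lit 33, nat_lit 249, nat_lit 0, nat_lit 9]⟩,
 zbF0, [⟨nat_lit 16, nat_lit 69, nat_lit 100, nat_lit 96, nat_lit 471462351⟩, ⟨nat_lit 4, nat_lit 100, nat_lit 64, nat_lit 88, nat_lit 26113626⟩, ⟨nat_lit 19, nat_lit 86, nat_lit 96, nat_lit 100, nat_lit 302014972⟩]⟩
noncomputable def p100_l60 : Lf2 := ⟨nat_lit 0, nat_lit 5, [nat_lit 4, nat_lit 5, nat_lit 5, nat_lit 20], false, nat_lit 160, nat_lit 264, nat_lit 160, nat_lit 296, ⟨nat_lit 1000, nat_lit 0, nat_lit 0, nat_lit 0, nat_lit 0, nat_lit 0, nat_lit 0, nat_lit 0, nat_lit 0, nat_lit 0, nat_lit 0, nat_lit 0, nat_lit 0, nat_lit 0, nat_lit 0, nat_lit 0, false, false⟩,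
 nat_lit 0, nat_lit 0, nat_lit 7495, nat_lit 0, nat_lit 4053, nat_lit 5731, nat_lit 539, nat_lit 0, nat_lit 0, nat_lit 2601, nat_lit 0, nat_lit 0, nat_lit 0, nat_lit 0, nat_lit 0, nat_lit 0, nat_lit 0, nat_lit 0, [],
 ⟨p100_k15, nat_lit 0, nat_lit 0, nat_lit 69, nat_lit 0, nat_lit 0, [nat_lit 2032000001, nat_lit 4688000000], [], [nat_lit 26196079684, nat_lit 26713902840, nat_lit 28114527327, nat_lit 28581402156, nat_lit 28361173580, nat_lit 28793668675, nat_lit 30048274637, nat_lit 30519287025], nat_lit 0, nat_lit 0, nat_lit 0, nat_lit 0, nat_lit 0, nat_lit 0, [], [nat_lit 24, nat_lit 40, nat_lit 40, nat_lit 80, nat_lit 33, nat_lit 203, nat_lit 0, nat_lit 6]⟩, ⟨p100_k6, nat_lit 0, nat_lit 0, nat_lit 509, nat_lit 0, nat_lit 1357757, [nat_lit 2032000000, nat_lit 4688000000], [], [nat_lit 25567214887, nat_lit 25704936905, nat_lit 26655950255, nat_lit 26780631494, nat_lit 26941291290, nat_lit 27047506631, nat_lit 28267912711,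 nat_lit 28426715331], nat_lit 1271250, nat_lit 1271250, nat_lit 1271250, nat_lit 1271250, nat_lit 1100001, nat_lit 2264500, [nat_lit 490000, nat_lit 1100000], [nat_lit 24, nat_lit 40, nat_lit 40, nat_lit 80, nat_lit 33, nat_lit 251, nat_lit 0, nat_lit 9]⟩,
 zbF0, [⟨nat_lit 16, nat_lit 69, nat_lit 100, nat_lit 96, nat_lit 459027634⟩, ⟨nat_lit 19, nat_lit 85, nat_lit 97, nat_lit 100, nat_lit 315301690⟩]⟩
noncomputable def p100_l61 : Lf2 := ⟨nat_lit 0, nat_lit 10, [nat_lit 0, nat_lit 5, nat_lit 5, nat_lit 20], false, nat_lit 160, nat_lit 264, nat_lit 160, nat_lit 300, ⟨nat_lit 1000, nat_lit 0, nat_lit 0, nat_lit 0, nat_lit 0, nat_lit 0, nat_lit 0, nat_lit 0, nat_lit 0, nat_lit 0, nat_lit 0, nat_lit 0, nat_lit 0, nat_lit 0, nat_lit 0, nat_lit 0, false, false⟩,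
 nat_lit 0, nat_lit 0, nat_lit 9030, nat_lit 0, nat_lit 4114, nat_lit 6772, nat_lit 548, nat_lit 0, nat_lit 0, nat_lit 386, nat_lit 0, nat_lit 0, nat_lit 0, nat_lit 0, nat_lit 0, nat_lit 0, nat_lit 0, nat_lit 0, [],
 ⟨p100_k10, nat_lit 0, nat_lit 0, nat_lit 69, nat_lit 0, nat_lit 0, [nat_lit 2032000001, nat_lit 4688000000], [], [nat_lit 26093255805, nat_lit 26614485933, nat_lit 28045565286, nat_lit 28606853784, nat_lit 28255571663, nat_lit 28690540016, nat_lit 30110121659, nat_lit 30583879608], nat_lit 0, nat_lit 0, nat_lit 0, nat_lit 0, nat_lit 0, nat_lit 0, [], [nat_lit 24, nat_lit 40, nat_lit 40, nat_lit 80, nat_lit 33, nat_lit 203, nat_lit 0, nat_lit 6]⟩, ⟨p100_k0, nat_lit 0, nat_lit 0, nat_lit 462, nat_lit 0, nat_lit 1105644, [nat_lit 2032000000, nat_lit 4688000000, nat_lit 6250000000], [], [nat_lit 28904481216, nat_lit 29205876064, nat_lit 30110060608, nat_lit 30378830812, nat_lit 30232531700, nat_lit 30490800178,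 nat_lit 31265605612, nat_lit 31494830197], nat_lit 1271250, nat_lit 1271250, nat_lit 1271250, nat_lit 1271250, nat_lit 1100001, nat_lit 2298750, [nat_lit 490000, nat_lit 1100000, nat_lit 1442500], [nat_lit 6, nat_lit 40, nat_lit 40, nat_lit 80, nat_lit 3, nat_lit 289, nat_lit 75, nat_lit 9]⟩,
 zbF0, [⟨nat_lit 4, nat_lit 100, nat_lit 64, nat_lit 88, nat_lit 551594972⟩, ⟨nat_lit 19, nat_lit 84, nat_lit 100, nat_lit 93, nat_lit 337131390⟩]⟩
noncomputable def p100_l62 : Lf2 := ⟨nat_lit 0, nat_lit 5, [nat_lit 4, nat_lit 5, nat_lit 5, nat_lit 20], false, nat_lit 160, nat_lit 200, nat_lit 160, nat_lit 300, ⟨nat_lit 159, nat_lit 841, nat_lit 0, nat_lit 9, nat_lit 365, nat_lit 841, nat_lit 144, nat_lit 0, nat_lit 0, nat_lit 0, nat_lit 0, nat_lit 0, nat_lit 33034405, nat_lit 27829138, nat_lit 6136457, nat_lit 4974456, true, true⟩,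
 nat_lit 0, nat_lit 0, nat_lit 1522, nat_lit 0, nat_lit 2928, nat_lit 1141, nat_lit 199, nat_lit 0, nat_lit 0, nat_lit 56, nat_lit 0, nat_lit 0, nat_lit 0, nat_lit 0, nat_lit 0, nat_lit 336400, nat_lit 0, nat_lit 0, [(nat_lit 21, [(nat_lit 1, nat_lit 841)])],
 ⟨p100_k15, nat_lit 0, nat_lit 0, nat_lit 86, nat_lit 0, nat_lit 0, [nat_lit 1462811201, nat_lit 1993436000], [], [nat_lit 27177549152, nat_lit 27592231856, nat_lit 28986679608, nat_lit 29361413392, nat_lit 27858122412, nat_lit 28250055200, nat_lit 29571225292, nat_lit 29935677506], nat_lit 0, nat_lit 0, nat_lit 0, nat_lit 0, nat_lit 0, nat_lit 0, [], [nat_lit 24, nat_lit 40, nat_lit 40, nat_lit 80, nat_lit 33, nat_lit 203, nat_lit 0, nat_lit 6]⟩, ⟨p100_k4, nat_lit 0, nat_lit 0, nat_lit 568, nat_lit 0, nat_lit 1361450, [nat_lit 323088000, nat_lit 745392000, nat_lit 993750000], [], [nat_lit 4655924004, nat_lit 4675118784, nat_lit 4853871204, nat_lit 4872009084,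 nat_lit 4765647317, nat_lit 4780609552, nat_lit 4925473591, nat_lit 4945022107], nat_lit 1271250, nat_lit 1271250, nat_lit 1271250, nat_lit 1271250, nat_lit 1100001, nat_lit 2298750, [nat_lit 490000, nat_lit 1100000, nat_lit 1442500], [nat_lit 6, nat_lit 40, nat_lit 40, nat_lit 80, nat_lit 3, nat_lit 289, nat_lit 75, nat_lit 9]⟩,
 ⟨nat_lit 3162, nat_lit 3536, ⟨.ofNat (nat_lit 882753), .ofNat (nat_lit 945521), .ofNat (nat_lit 888239), .ofNat (nat_lit 951009), .ofNat (nat_lit 876734), .ofNat (nat_lit 937695), .ofNat (nat_lit 882271), .ofNat (nat_lit 943233)⟩, ⟨.ofNat (nat_lit 305521), .ofNat (nat_lit 368283), .ofNat (nat_lit 349427), .ofNat (nat_lit 412188), .ofNat (nat_lit 306116), .ofNat (nat_lit 367069), .ofNat (nat_lit 350426), .ofNat (nat_lit 411379)⟩⟩, [⟨nat_lit 13, nat_lit 75, nat_lit 35, nat_lit 100, nat_lit 5901391⟩, ⟨nat_lit 10, nat_lit 99, nat_lit 25, nat_lit 100, nat_lit 149640645⟩]⟩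
noncomputable def p100_l63 : Lf2 := ⟨nat_lit 0, nat_lit 1, [nat_lit 19, nat_lit 5, nat_lit 5, nat_lit 20], false, nat_lit 200, nat_lit 264, nat_lit 160, nat_lit 300, ⟨nat_lit 1000, nat_lit 0, nat_lit 0, nat_lit 0, nat_lit 0, nat_lit 0, nat_lit 0, nat_lit 0, nat_lit 0, nat_lit 0, nat_lit 0, nat_lit 0, nat_lit 0, nat_lit 0, nat_lit 0, nat_lit 0, false, false⟩,
 nat_lit 0, nat_lit 0, nat_lit 8478, nat_lit 0, nat_lit 3593, nat_lit 6358, nat_lit 584, nat_lit 0, nat_lit 0, nat_lit 0, nat_lit 0, nat_lit 0, nat_lit 0, nat_lit 0, nat_lit 0, nat_lit 0, nat_lit 0, nat_lit 0, [],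
 ⟨p100_k19, nat_lit 0, nat_lit 0, nat_lit 71, nat_lit 0, nat_lit 0, [nat_lit 2032000001, nat_lit 3282000000], [], [nat_lit 28474395007, nat_lit 28915283103, nat_lit 30430764957, nat_lit 30841849076, nat_lit 29801092720, nat_lit 30196646446, nat_lit 31605430696, nat_lit 31982863158], nat_lit 0, nat_lit 0, nat_lit 0, nat_lit 0, nat_lit 0, nat_lit 0, [], [nat_lit 112, nat_lit 40, nat_lit 40, nat_lit 80, nat_lit 113, nat_lit 203, nat_lit 0, nat_lit 7]⟩, ⟨p100_k12, nat_lit 0, nat_lit 0, nat_lit 450, nat_lit 0, nat_lit 1313318, [nat_lit 2032000000, nat_lit 3282000000], [], [nat_lit 26503987032, nat_lit 26568524262, nat_lit 28087256272, nat_lit 28144600399, nat_lit 28090416524, nat_lit 28138957836, nat_lit 29315726536, nat_lit 29364166690], nat_lit 1271250, nat_lit 1271250, nat_lit 1271250, nat_lit 1271250, nat_lit 1100001, nat_lit 2298750, [nat_lit 490000, nat_lit 780000], [nat_lit 112, nat_lit 40, nat_lit 40, nat_lit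 80, nat_lit 113, nat_lit 241, nat_lit 0, nat_lit 11]⟩,
 zbF0, [⟨nat_lit 16, nat_lit 69, nat_lit 100, nat_lit 96, nat_lit 467739235⟩, ⟨nat_lit 19, nat_lit 87, nat_lit 95, nat_lit 100, nat_lit 302535878⟩]⟩
noncomputable def p100_l64 : Lf2 := ⟨nat_lit 0, nat_lit 2, [nat_lit 10, nat_lit 5, nat_lit 5, nat_lit 20], false, nat_lit 200, nat_lit 240, nat_lit 160, nat_lit 280, ⟨nat_lit 568, nat_lit 432, nat_lit 0, nat_lit 9, nat_lit 365, nat_lit 432, nat_lit 164, nat_lit 0, nat_lit 0, nat_lit 0, nat_lit 0, nat_lit 0, nat_lit 32368778, nat_lit 27221723, nat_lit 7409499, nat_lit 5147962, true, true⟩,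
 nat_lit 0, nat_lit 0, nat_lit 5491, nat_lit 0, nat_lit 3252, nat_lit 4117, nat_lit 333, nat_lit 0, nat_lit 0, nat_lit 0, nat_lit 0, nat_lit 0, nat_lit 0, nat_lit 0, nat_lit 0, nat_lit 172800, nat_lit 0, nat_lit 0, [(nat_lit 21, [(nat_lit 1, nat_lit 432)])],
 ⟨p100_k16, nat_lit 0, nat_lit 0, nat_lit 71, nat_lit 0, nat_lit 0, [nat_lit 1739622401, nat_lit 2468284800], [], [nat_lit 28128012685, nat_lit 28553428929, nat_lit 29993669125, nat_lit 30376457761, nat_lit 28824111429, nat_lit 29223675225, nat_lit 30584024138, nat_lit 30958292786], nat_lit 0, nat_lit 0, nat_lit 0, nat_lit 0, nat_lit 0, nat_lit 0, [], [nat_lit 112, nat_lit 40, nat_lit 40, nat_lit 80, nat_lit 113, nat_lit 203, nat_lit 0, nat_lit 7]⟩, ⟨p100_k5, nat_lit 0, nat_lit 0, nat_lit 461, nat_lit 0, nat_lit 1211190, [nat_lit 1154176000, nat_lit 2662784000], [], [nat_lit 16376339596, nat_lit 16406027597, nat_lit 17134618068, nat_lit 17160578351, nat_lit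 16678937772, nat_lit 16701576270, nat_lit 17279079088, nat_lit 17300708116], nat_lit 1271250, nat_lit 1271250, nat_lit 1271250, nat_lit 1271250, nat_lit 1100001, nat_lit 2127500, [nat_lit 490000, nat_lit 1100000], [nat_lit 24, nat_lit 40, nat_lit 40, nat_lit 80, nat_lit 33, nat_lit 241, nat_lit 0, nat_lit 8]⟩,
 ⟨nat_lit 3162, nat_lit 3536, ⟨.ofNat (nat_lit 882753), .ofNat (nat_lit 945521), .ofNat (nat_lit 884947), .ofNat (nat_lit 947717), .ofNat (nat_lit 876734), .ofNat (nat_lit 937695), .ofNat (nat_lit 878949), .ofNat (nat_lit 939910)⟩, ⟨.ofNat (nat_lit 368283), .ofNat (nat_lit 431044), .ofNat (nat_lit 390235), .ofNat (nat_lit 452997), .ofNat (nat_lit 367069), .ofNat (nat_lit 428022), .ofNat (nat_lit 389224), .ofNat (nat_lit 450177)⟩⟩, [⟨nat_lit 13, nat_lit 75, nat_lit 35, nat_lit 100, nat_lit 93238045⟩, ⟨nat_lit 4, nat_lit 100, nat_lit 64, nat_lit 84, nat_lit 378438778⟩, ⟨nat_lit 7, nat_lit 100, nat_lit 84, nat_lit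 89, nat_lit 170933890⟩]⟩
noncomputable def p100_l65 : Lf2 := ⟨nat_lit 0, nat_lit 2, [nat_lit 10, nat_lit 5, nat_lit 5, nat_lit 20], false, nat_lit 200, nat_lit 240, nat_lit 160, nat_lit 300, ⟨nat_lit 1000, nat_lit 0, nat_lit 0, nat_lit 0, nat_lit 0, nat_lit 0, nat_lit 0, nat_lit 0, nat_lit 0, nat_lit 0, nat_lit 0, nat_lit 0, nat_lit 0, nat_lit 0, nat_lit 0, nat_lit 0, false, false⟩,
 nat_lit 0, nat_lit 0, nat_lit 9375, nat_lit 0, nat_lit 3606, nat_lit 7031, nat_lit 573, nat_lit 0, nat_lit 0, nat_lit 0, nat_lit 0, nat_lit 0, nat_lit 0, nat_lit 0, nat_lit 0, nat_lit 0, nat_lit 0, nat_lit 0, [],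
 ⟨p100_k16, nat_lit 0, nat_lit 0, nat_lit 71, nat_lit 0, nat_lit 0, [nat_lit 2032000001, nat_lit 3282000000], [], [nat_lit 28483999153, nat_lit 28925477085, nat_lit 30428321473, nat_lit 30858358904, nat_lit 29160892335, nat_lit 29574624273, nat_lit 31004671310, nat_lit 31391002154], nat_lit 0, nat_lit 0, nat_lit 0, nat_lit 0, nat_lit 0, nat_lit 0, [], [nat_lit 112, nat_lit 40, nat_lit 40, nat_lit 80, nat_lit 113, nat_lit 203, nat_lit 0, nat_lit 7]⟩, ⟨p100_k5, nat_lit 0, nat_lit 0, nat_lit 421, nat_lit 0, nat_lit 1103111, [nat_lit 2032000000, nat_lit 4688000000], [], [nat_lit 28928440892, nat_lit 28991389541, nat_lit 30509039348, nat_lit 30564318454, nat_lit 30121012351, nat_lit 30167127211, nat_lit 31323278237, nat_lit 31363317480], nat_lit 1271250, nat_lit 1271250, nat_lit 1271250, nat_lit 1271250, nat_lit 1100001, nat_lit 2298750, [nat_lit 490000, nat_lit 1100000], [nat_lit 24, nat_lit 40, nat_lit 40, nat_lit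 80, nat_lit 33, nat_lit 233, nat_lit 0, nat_lit 8]⟩,
 zbF0, [⟨nat_lit 4, nat_lit 100, nat_lit 65, nat_lit 91, nat_lit 442927073⟩, ⟨nat_lit 19, nat_lit 89, nat_lit 100, nat_lit 99, nat_lit 281647224⟩]⟩
noncomputable def p100_l66 : Lf2 := ⟨nat_lit 0, nat_lit 2, [nat_lit 10, nat_lit 5, nat_lit 5, nat_lit 20], false, nat_lit 240, nat_lit 264, nat_lit 160, nat_lit 300, ⟨nat_lit 1000, nat_lit 0, nat_lit 0, nat_lit 0, nat_lit 0, nat_lit 0, nat_lit 0, nat_lit 0, nat_lit 0, nat_lit 0, nat_lit 0, nat_lit 0, nat_lit 0, nat_lit 0, nat_lit 0, nat_lit 0, false, false⟩,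
 nat_lit 0, nat_lit 0, nat_lit 9375, nat_lit 0, nat_lit 3614, nat_lit 7031, nat_lit 585, nat_lit 0, nat_lit 0, nat_lit 0, nat_lit 0, nat_lit 0, nat_lit 0, nat_lit 0, nat_lit 0, nat_lit 0, nat_lit 0, nat_lit 0, [],
 ⟨p100_k16, nat_lit 0, nat_lit 0, nat_lit 66, nat_lit 0, nat_lit 0, [nat_lit 2032000001, nat_lit 3282000000], [], [nat_lit 29131176247, nat_lit 29338202308, nat_lit 31000962654, nat_lit 31194264372, nat_lit 29780766763, nat_lit 29978635177, nat_lit 31608347974, nat_lit 31808986829], nat_lit 0, nat_lit 0, nat_lit 0, nat_lit 0, nat_lit 0, nat_lit 0, [], [nat_lit 112, nat_lit 40, nat_lit 40, nat_lit 80, nat_lit 113, nat_lit 203, nat_lit 0, nat_lit 7]⟩, ⟨p100_k5, nat_lit 0, nat_lit 0, nat_lit 407, nat_lit 0, nat_lit 1053264, [nat_lit 2032000000, nat_lit 4688000000], [], [nat_lit 28928440892, nat_lit 28991389541, nat_lit 30509039348, nat_lit 30564318454, nat_lit 30121012351, nat_lit 30167127211, nat_lit 31323278237,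 nat_lit 31363317480], nat_lit 1271250, nat_lit 1271250, nat_lit 1271250, nat_lit 1271250, nat_lit 1100001, nat_lit 2298750, [nat_lit 490000, nat_lit 1100000], [nat_lit 24, nat_lit 40, nat_lit 40, nat_lit 80, nat_lit 33, nat_lit 230, nat_lit 0, nat_lit 8]⟩,
 zbF0, [⟨nat_lit 16, nat_lit 69, nat_lit 100, nat_lit 96, nat_lit 541190893⟩, ⟨nat_lit 19, nat_lit 87, nat_lit 95, nat_lit 100, nat_lit 285240654⟩]⟩
noncomputable def p100_l67 : Lf2 := ⟨nat_lit 0, nat_lit 2, [nat_lit 10, nat_lit 5, nat_lit 5, nat_lit 20], false, nat_lit 240, nat_lit 256, nat_lit 160, nat_lit 300, ⟨nat_lit 1000, nat_lit 0, nat_lit 0, nat_lit 0, nat_lit 0, nat_lit 0, nat_lit 0, nat_lit 0, nat_lit 0, nat_lit 0, nat_lit 0, nat_lit 0, nat_lit 0, nat_lit 0, nat_lit 0, nat_lit 0, false, false⟩,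
 nat_lit 0, nat_lit 0, nat_lit 9409, nat_lit 0, nat_lit 3617, nat_lit 7056, nat_lit 491, nat_lit 0, nat_lit 0, nat_lit 0, nat_lit 0, nat_lit 0, nat_lit 0, nat_lit 0, nat_lit 0, nat_lit 0, nat_lit 0, nat_lit 0, [],
 ⟨p100_k20, nat_lit 0, nat_lit 0, nat_lit 66, nat_lit 0, nat_lit 0, [nat_lit 2032000001, nat_lit 3282000000], [], [nat_lit 29344559435, nat_lit 29551645530, nat_lit 31004637674, nat_lit 31200234792, nat_lit 29771557882, nat_lit 29972535292, nat_lit 31405394044, nat_lit 31611854890], nat_lit 0, nat_lit 0, nat_lit 0, nat_lit 0, nat_lit 0, nat_lit 0, [], [nat_lit 112, nat_lit 40, nat_lit 40, nat_lit 80, nat_lit 113, nat_lit 203, nat_lit 0, nat_lit 7]⟩, ⟨p100_k5, nat_lit 0, nat_lit 0, nat_lit 420, nat_lit 0, nat_lit 1103111, [nat_lit 2032000000, nat_lit 4688000000], [], [nat_lit 28822664192, nat_lit 28885686751, nat_lit 30247434263, nat_lit 30303533951, nat_lit 30010530376, nat_lit 30056671292, nat_lit 31093823059,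 nat_lit 31134480012], nat_lit 1271250, nat_lit 1271250, nat_lit 1271250, nat_lit 1271250, nat_lit 1100001, nat_lit 2298750, [nat_lit 490000, nat_lit 1100000], [nat_lit 24, nat_lit 40, nat_lit 40, nat_lit 80, nat_lit 33, nat_lit 233, nat_lit 0, nat_lit 8]⟩,
 zbF0, [⟨nat_lit 16, nat_lit 63, nat_lit 100, nat_lit 91, nat_lit 622984071⟩, ⟨nat_lit 19, nat_lit 87, nat_lit 95, nat_lit 100, nat_lit 286544366⟩]⟩
noncomputable def p100_l68 : Lf2 := ⟨nat_lit 0, nat_lit 5, [nat_lit 4, nat_lit 5, nat_lit 5, nat_lit 20], false, nat_lit 200, nat_lit 264, nat_lit 160, nat_lit 300, ⟨nat_lit 1000, nat_lit 0, nat_lit 0, nat_lit 0, nat_lit 0, nat_lit 0, nat_lit 0, nat_lit 0, nat_lit 0, nat_lit 0, nat_lit 0, nat_lit 0, nat_lit 0, nat_lit 0, nat_lit 0, nat_lit 0, false, false⟩,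
 nat_lit 0, nat_lit 0, nat_lit 9214, nat_lit 0, nat_lit 3604, nat_lit 6910, nat_lit 710, nat_lit 0, nat_lit 0, nat_lit 373, nat_lit 0, nat_lit 0, nat_lit 0, nat_lit 0, nat_lit 0, nat_lit 0, nat_lit 0, nat_lit 0, [],
 ⟨p100_k15, nat_lit 0, nat_lit 0, nat_lit 81, nat_lit 0, nat_lit 0, [nat_lit 2032000001, nat_lit 4688000000], [], [nat_lit 28538141599, nat_lit 28748091391, nat_lit 30426496242, nat_lit 30632252158, nat_lit 29796367786, nat_lit 29984629406, nat_lit 31600458423, nat_lit 31796417316], nat_lit 0, nat_lit 0, nat_lit 0, nat_lit 0, nat_lit 0, nat_lit 0, [], [nat_lit 24, nat_lit 40, nat_lit 40, nat_lit 80, nat_lit 33, nat_lit 203, nat_lit 0, nat_lit 6]⟩, ⟨p100_k4, nat_lit 0, nat_lit 0, nat_lit 483, nat_lit 0, nat_lit 1149173, [nat_lit 2032000000, nat_lit 4688000000, nat_lit 6250000000], [], [nat_lit 29544648120, nat_lit 29602828332, nat_lit 31012882280, nat_lit 31064028730, nat_lit 30655745110, nat_lit 30701733858,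 nat_lit 31851270570, nat_lit 31891269248], nat_lit 1271250, nat_lit 1271250, nat_lit 1271250, nat_lit 1271250, nat_lit 1100001, nat_lit 2298750, [nat_lit 490000, nat_lit 1100000, nat_lit 1442500], [nat_lit 6, nat_lit 40, nat_lit 40, nat_lit 80, nat_lit 3, nat_lit 289, nat_lit 75, nat_lit 9]⟩,
 zbF0, [⟨nat_lit 4, nat_lit 100, nat_lit 66, nat_lit 88, nat_lit 539877755⟩, ⟨nat_lit 7, nat_lit 100, nat_lit 86, nat_lit 94, nat_lit 308219738⟩]⟩
noncomputable def p100_l69 : Lf2 := ⟨nat_lit 0, nat_lit 5, [nat_lit 4, nat_lit 5, nat_lit 5, nat_lit 20], false, nat_lit 200, nat_lit 256, nat_lit 160, nat_lit 300, ⟨nat_lit 753, nat_lit 247, nat_lit 0, nat_lit 9, nat_lit 363, nat_lit 247, nat_lit 173, nat_lit 0, nat_lit 0, nat_lit 0, nat_lit 0, nat_lit 0, nat_lit 32169246, nat_lit 26810211, nat_lit 8020543, nat_lit 5221018, true, true⟩,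
 nat_lit 0, nat_lit 0, nat_lit 7230, nat_lit 0, nat_lit 3407, nat_lit 5422, nat_lit 369, nat_lit 0, nat_lit 0, nat_lit 259, nat_lit 0, nat_lit 0, nat_lit 0, nat_lit 0, nat_lit 0, nat_lit 98800, nat_lit 0, nat_lit 0, [(nat_lit 21, [(nat_lit 1, nat_lit 247)])],
 ⟨p100_k21, nat_lit 0, nat_lit 0, nat_lit 70, nat_lit 0, nat_lit 0, [nat_lit 1864830401, nat_lit 2816750800], [], [nat_lit 28493318022, nat_lit 28709542474, nat_lit 30183577131, nat_lit 30379970205, nat_lit 29591641143, nat_lit 29788667214, nat_lit 31163147971, nat_lit 31349567490], nat_lit 0, nat_lit 0, nat_lit 0, nat_lit 0, nat_lit 0, nat_lit 0, [], [nat_lit 112, nat_lit 40, nat_lit 40, nat_lit 80, nat_lit 113, nat_lit 203, nat_lit 0, nat_lit 7]⟩, ⟨p100_k4, nat_lit 0, nat_lit 0, nat_lit 510, nat_lit 0, nat_lit 1201441, [nat_lit 1530096000, nat_lit 3530064000, nat_lit 4706250000], [], [nat_lit 21979401268, nat_lit 22015787767, nat_lit 22822535200, nat_lit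 22854746218, nat_lit 22471961039, nat_lit 22500307825, nat_lit 23153752087, nat_lit 23178862861], nat_lit 1271250, nat_lit 1271250, nat_lit 1271250, nat_lit 1271250, nat_lit 1100001, nat_lit 2298750, [nat_lit 490000, nat_lit 1100000, nat_lit 1442500], [nat_lit 6, nat_lit 40, nat_lit 40, nat_lit 80, nat_lit 3, nat_lit 289, nat_lit 75, nat_lit 9]⟩,
 ⟨nat_lit 3162, nat_lit 3355, ⟨.ofNat (nat_lit 879743), .ofNat (nat_lit 935423), .ofNat (nat_lit 881948), .ofNat (nat_lit 937628), .ofNat (nat_lit 876740), .ofNat (nat_lit 931599), .ofNat (nat_lit 878955), .ofNat (nat_lit 933815)⟩, ⟨.ofNat (nat_lit 367713), .ofNat (nat_lit 454324), .ofNat (nat_lit 411808), .ofNat (nat_lit 498420), .ofNat (nat_lit 367069), .ofNat (nat_lit 452404), .ofNat (nat_lit 411379), .ofNat (nat_lit 496714)⟩⟩, [⟨nat_lit 13, nat_lit 75, nat_lit 35, nat_lit 100, nat_lit 30531586⟩, ⟨nat_lit 16, nat_lit 62, nat_lit 100, nat_lit 87, nat_lit 475551764⟩,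 ⟨nat_lit 19, nat_lit 86, nat_lit 100, nat_lit 94, nat_lit 218846449⟩]⟩
noncomputable def p100_l70 : Lf2 := ⟨nat_lit 0, nat_lit 5, [nat_lit 4, nat_lit 5, nat_lit 5, nat_lit 20], false, nat_lit 200, nat_lit 264, nat_lit 160, nat_lit 300, ⟨nat_lit 1000, nat_lit 0, nat_lit 0, nat_lit 0, nat_lit 0, nat_lit 0, nat_lit 0, nat_lit 0, nat_lit 0, nat_lit 0, nat_lit 0, nat_lit 0, nat_lit 0, nat_lit 0, nat_lit 0, nat_lit 0, false, false⟩,
 nat_lit 0, nat_lit 0, nat_lit 8591, nat_lit 0, nat_lit 3593, nat_lit 6493, nat_lit 707, nat_lit 0, nat_lit 0, nat_lit 2941, nat_lit 0, nat_lit 0, nat_lit 0, nat_lit 0, nat_lit 0, nat_lit 0, nat_lit 0, nat_lit 0, [],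
 ⟨p100_k15, nat_lit 0, nat_lit 0, nat_lit 82, nat_lit 0, nat_lit 0, [nat_lit 2032000001, nat_lit 4688000000], [], [nat_lit 28560336067, nat_lit 28979780570, nat_lit 30430764957, nat_lit 30841849076, nat_lit 29819018846, nat_lit 30196646446, nat_lit 31605430696, nat_lit 31982863158], nat_lit 0, nat_lit 0, nat_lit 0, nat_lit 0, nat_lit 0, nat_lit 0, [], [nat_lit 24, nat_lit 40, nat_lit 40, nat_lit 80, nat_lit 33, nat_lit 203, nat_lit 0, nat_lit 6]⟩, ⟨p100_k22, nat_lit 0, nat_lit 0, nat_lit 506, nat_lit 0, nat_lit 1333705, [nat_lit 2032000000, nat_lit 4688000000], [], [nat_lit 28358101749, nat_lit 28383561350, nat_lit 29633612017, nat_lit 29656072636, nat_lit 29271449151, nat_lit 29290209561, nat_lit 30483851174, nat_lit 30512470782], nat_lit 1271250, nat_lit 1271250, nat_lit 1271250, nat_lit 1271250, nat_lit 1100001, nat_lit 2298750, [nat_lit 490000, nat_lit 1100000], [nat_lit 24, nat_lit 40, nat_lit 40, nat_lit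 80, nat_lit 33, nat_lit 255, nat_lit 0, nat_lit 9]⟩,
 zbF0, [⟨nat_lit 16, nat_lit 69, nat_lit 100, nat_lit 96, nat_lit 87270898⟩, ⟨nat_lit 4, nat_lit 100, nat_lit 64, nat_lit 88, nat_lit 447482646⟩, ⟨nat_lit 19, nat_lit 86, nat_lit 96, nat_lit 100, nat_lit 290974990⟩]⟩
noncomputable def p100_l71 : Lf2 := ⟨nat_lit 0, nat_lit 5, [nat_lit 4, nat_lit 5, nat_lit 5, nat_lit 20], false, nat_lit 200, nat_lit 264, nat_lit 160, nat_lit 296, ⟨nat_lit 1000, nat_lit 0, nat_lit 0, nat_lit 0, nat_lit 0, nat_lit 0, nat_lit 0, nat_lit 0, nat_lit 0, nat_lit 0, nat_lit 0, nat_lit 0, nat_lit 0, nat_lit 0, nat_lit 0, nat_lit 0, false, false⟩,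
 nat_lit 0, nat_lit 0, nat_lit 8241, nat_lit 0, nat_lit 3593, nat_lit 6253, nat_lit 692, nat_lit 0, nat_lit 0, nat_lit 2788, nat_lit 0, nat_lit 0, nat_lit 0, nat_lit 0, nat_lit 0, nat_lit 0, nat_lit 0, nat_lit 0, [],
 ⟨p100_k15, nat_lit 0, nat_lit 0, nat_lit 82, nat_lit 0, nat_lit 0, [nat_lit 2032000001, nat_lit 4688000000], [], [nat_lit 28616351692, nat_lit 29035796195, nat_lit 30465628285, nat_lit 30842182007, nat_lit 29875034471, nat_lit 30251194933, nat_lit 31605430696, nat_lit 31982863158], nat_lit 0, nat_lit 0, nat_lit 0, nat_lit 0, nat_lit 0, nat_lit 0, [], [nat_lit 24, nat_lit 40, nat_lit 40, nat_lit 80, nat_lit 33, nat_lit 203, nat_lit 0, nat_lit 6]⟩, ⟨p100_k18, nat_lit 0, nat_lit 0, nat_lit 508, nat_lit 0, nat_lit 1339449, [nat_lit 2032000000, nat_lit 4688000000], [], [nat_lit 28102193576, nat_lit 28152684282, nat_lit 29357976382, nat_lit 29402648644, nat_lit 29014698803, nat_lit 29052569387, nat_lit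 30266071477, nat_lit 30323369126], nat_lit 1271250, nat_lit 1271250, nat_lit 1271250, nat_lit 1271250, nat_lit 1100001, nat_lit 2264500, [nat_lit 490000, nat_lit 1100000], [nat_lit 24, nat_lit 40, nat_lit 40, nat_lit 80, nat_lit 33, nat_lit 255, nat_lit 0, nat_lit 9]⟩,
 zbF0, [⟨nat_lit 16, nat_lit 69, nat_lit 100, nat_lit 96, nat_lit 467739235⟩, ⟨nat_lit 19, nat_lit 86, nat_lit 96, nat_lit 100, nat_lit 292710291⟩]⟩
noncomputable def p100_l72 : Lf2 := ⟨nat_lit 0, nat_lit 10, [nat_lit 0, nat_lit 5, nat_lit 5, nat_lit 20], false, nat_lit 160, nat_lit 264, nat_lit 160, nat_lit 300, ⟨nat_lit 1000, nat_lit 0, nat_lit 0, nat_lit 0, nat_lit 0, nat_lit 0, nat_lit 0, nat_lit 0, nat_lit 0, nat_lit 0, nat_lit 0, nat_lit 0, nat_lit 0, nat_lit 0, nat_lit 0, nat_lit 0, false, false⟩,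
 nat_lit 0, nat_lit 0, nat_lit 9356, nat_lit 0, nat_lit 3581, nat_lit 7017, nat_lit 706, nat_lit 0, nat_lit 0, nat_lit 359, nat_lit 0, nat_lit 0, nat_lit 0, nat_lit 0, nat_lit 0, nat_lit 0, nat_lit 0, nat_lit 0, [],
 ⟨p100_k10, nat_lit 0, nat_lit 0, nat_lit 86, nat_lit 0, nat_lit 0, [nat_lit 2032000001, nat_lit 4688000000], [], [nat_lit 27934393478, nat_lit 28379370811, nat_lit 29891233840, nat_lit 30290338666, nat_lit 29835241876, nat_lit 30211006582, nat_lit 31610854994, nat_lit 31979467379], nat_lit 0, nat_lit 0, nat_lit 0, nat_lit 0, nat_lit 0, nat_lit 0, [], [nat_lit 24, nat_lit 40, nat_lit 40, nat_lit 80, nat_lit 33, nat_lit 203, nat_lit 0, nat_lit 6]⟩, ⟨p100_k0, nat_lit 0, nat_lit 0, nat_lit 455, nat_lit 0, nat_lit 1071163, [nat_lit 2032000000, nat_lit 4688000000, nat_lit 6250000000], [], [nat_lit 29241853288, nat_lit 29377451998, nat_lit 30623817120, nat_lit 30743479834, nat_lit 30182882257, nat_lit 30298132928,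 nat_lit 31384368259, nat_lit 31484454633], nat_lit 1271250, nat_lit 1271250, nat_lit 1271250, nat_lit 1271250, nat_lit 1100001, nat_lit 2298750, [nat_lit 490000, nat_lit 1100000, nat_lit 1442500], [nat_lit 6, nat_lit 40, nat_lit 40, nat_lit 80, nat_lit 3, nat_lit 289, nat_lit 75, nat_lit 9]⟩,
 zbF0, [⟨nat_lit 4, nat_lit 100, nat_lit 64, nat_lit 88, nat_lit 522868228⟩, ⟨nat_lit 7, nat_lit 100, nat_lit 85, nat_lit 94, nat_lit 307949134⟩]⟩
noncomputable def p100_l73 : Lf2 := ⟨nat_lit 0, nat_lit 10, [nat_lit 0, nat_lit 5, nat_lit 5, nat_lit 20], false, nat_lit 160, nat_lit 264, nat_lit 160, nat_lit 296, ⟨nat_lit 1000, nat_lit 0, nat_lit 0, nat_lit 0, nat_lit 0, nat_lit 0, nat_lit 0, nat_lit 0, nat_lit 0, nat_lit 0, nat_lit 0, nat_lit 0, nat_lit 0, nat_lit 0, nat_lit 0, nat_lit 0, false, false⟩,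
 nat_lit 0, nat_lit 0, nat_lit 7729, nat_lit 0, nat_lit 3900, nat_lit 5910, nat_lit 490, nat_lit 0, nat_lit 0, nat_lit 2340, nat_lit 0, nat_lit 0, nat_lit 0, nat_lit 0, nat_lit 0, nat_lit 0, nat_lit 0, nat_lit 0, [],
 ⟨p100_k10, nat_lit 0, nat_lit 0, nat_lit 86, nat_lit 0, nat_lit 0, [nat_lit 2032000001, nat_lit 4688000000], [], [nat_lit 28441275551, nat_lit 28901052251, nat_lit 30470274351, nat_lit 30880975051, nat_lit 30309876781, nat_lit 30696162012, nat_lit 32029142921, nat_lit 32375473812], nat_lit 0, nat_lit 0, nat_lit 0, nat_lit 0, nat_lit 0, nat_lit 0, [], [nat_lit 24, nat_lit 40, nat_lit 40, nat_lit 80, nat_lit 33, nat_lit 203, nat_lit 0, nat_lit 6]⟩, ⟨p100_k3, nat_lit 0, nat_lit 0, nat_lit 579, nat_lit 0, nat_lit 1393535, [nat_lit 2032000000, nat_lit 4688000000, nat_lit 6250000000], [], [nat_lit 28026002240, nat_lit 28122346440, nat_lit 28988759305, nat_lit 29074229370, nat_lit 28623040667, nat_lit 28695268125,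 nat_lit 29865511956, nat_lit 30006811183], nat_lit 1271250, nat_lit 1271250, nat_lit 1271250, nat_lit 1271250, nat_lit 1100001, nat_lit 2264500, [nat_lit 490000, nat_lit 1100000, nat_lit 1442500], [nat_lit 6, nat_lit 40, nat_lit 40, nat_lit 80, nat_lit 3, nat_lit 289, nat_lit 75, nat_lit 9]⟩,
 zbF0, [⟨nat_lit 16, nat_lit 69, nat_lit 100, nat_lit 96, nat_lit 410531496⟩, ⟨nat_lit 4, nat_lit 100, nat_lit 64, nat_lit 88, nat_lit 19101001⟩, ⟨nat_lit 19, nat_lit 85, nat_lit 97, nat_lit 100, nat_lit 282014062⟩]⟩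
noncomputable def b_V_800_800_20_5 : St := ⟨true, nat_lit 0, nat_lit 1, nat_lit 1, nat_lit 120, nat_lit 340, nat_lit 360, nat_lit 320, nat_lit 330, nat_lit 320, nat_lit 400, nat_lit 80, nat_lit 120, nat_lit 160, nat_lit 276, nat_lit 160, nat_lit 300, nat_lit 0, nat_lit 40, nat_lit 0, nat_lit 0, nat_lit 800, nat_lit 0⟩
theorem d_V_800_800_20_5 (h : EB TB.env) : Dead b_V_800_800_20_5 := chkB_sound0 h (T :=
(.spl (nat_lit 0) (nat_lit 350)
(.spl (nat_lit 1) (nat_lit 325)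
(.spl (nat_lit 6) (nat_lit 20)
(.spl (nat_lit 6) (nat_lit 8)
(.spl (nat_lit 6) (nat_lit 4)
(.leaf p100_l50)
(.leaf p100_l51))
(.leaf p100_l52))
(.leaf p100_l53))
(.trX (nat_lit 19) (nat_lit 85) (nat_lit 97) (nat_lit 100) (nat_lit 296) (.leaf p100_l54)))
(.trX (nat_lit 16) (nat_lit 69) (nat_lit 100) (nat_lit 96) (nat_lit 264) (.spl (nat_lit 2) (nat_lit 360)
(.spl (nat_lit 6) (nat_lit 20)
(.spl (nat_lit 1) (nat_lit 325)
(.spl (nat_lit 4) (nat_lit 200)
(.leaf p100_l55)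
(.spl (nat_lit 1) (nat_lit 323)
(.spl (nat_lit 6) (nat_lit 8)
(.spl (nat_lit 1) (nat_lit 322)
(.leaf p100_l56)
(.leaf p100_l57))
(.leaf p100_l58))
(.trX (nat_lit 19) (nat_lit 86) (nat_lit 96) (nat_lit 100) (nat_lit 296) (.leaf p100_l59))))
(.trX (nat_lit 19) (nat_lit 85) (nat_lit 97) (nat_lit 100) (nat_lit 296) (.leaf p100_l60)))
(.leaf p100_l61))
(.spl (nat_lit 1) (nat_lit 325)
(.spl (nat_lit 6) (nat_lit 20)
(.spl (nat_lit 4) (nat_lit 200)
(.leaf p100_l62)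
(.spl (nat_lit 1) (nat_lit 323)
(.spl (nat_lit 1) (nat_lit 322)
(.spl (nat_lit 6) (nat_lit 8)
(.spl (nat_lit 6) (nat_lit 4)
(.leaf p100_l63)
(.spl (nat_lit 3) (nat_lit 100)
(.trX (nat_lit 16) (nat_lit 67) (nat_lit 100) (nat_lit 88) (nat_lit 240) (.trX (nat_lit 19) (nat_lit 87) (nat_lit 100) (nat_lit 94) (nat_lit 280) (.leaf p100_l64)))
(.spl (nat_lit 4) (nat_lit 240)
(.leaf p100_l65)
(.spl (nat_lit 0) (nat_lit 355)
(.leaf p100_l66)
(.trX (nat_lit 13) (nat_lit 80) (nat_lit 29) (nat_lit 100) (nat_lit 396) (.trX (nat_lit 16) (nat_lit 66) (nat_lit 100) (nat_lit 95) (nat_lit 256) (.leaf p100_l67)))))))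
(.spl (nat_lit 0) (nat_lit 355)
(.leaf p100_l68)
(.trX (nat_lit 13) (nat_lit 80) (nat_lit 29) (nat_lit 100) (nat_lit 396) (.trX (nat_lit 16) (nat_lit 66) (nat_lit 100) (nat_lit 95) (nat_lit 256) (.leaf p100_l69)))))
(.leaf p100_l70))
(.trX (nat_lit 19) (nat_lit 86) (nat_lit 96) (nat_lit 100) (nat_lit 296) (.leaf p100_l71))))
(.leaf p100_l72))
(.trX (nat_lit 19) (nat_lit 85) (nat_lit 97) (nat_lit 100) (nat_lit 296) (.leaf p100_l73))))))) (by decide +kernel)
noncomputable def p100_l74 : Lf2 := ⟨nat_lit 0, nat_lit 10, [nat_lit 0, nat_lit 5, nat_lit 5, nat_lit 20], false, nat_lit 160, nat_lit 288, nat_lit 0, nat_lit 288, ⟨nat_lit 1000, nat_lit 0, nat_lit 0, nat_lit 0, nat_lit 0, nat_lit 0, nat_lit 0, nat_lit 0, nat_lit 0, nat_lit 0, nat_lit 0, nat_lit 0, nat_lit 0, nat_lit 0, nat_lit 0, nat_lit 0, false, false⟩,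
 nat_lit 0, nat_lit 0, nat_lit 6737, nat_lit 0, nat_lit 4787, nat_lit 5251, nat_lit 719, nat_lit 0, nat_lit 0, nat_lit 1602, nat_lit 0, nat_lit 0, nat_lit 0, nat_lit 16338830934063, nat_lit 0, nat_lit 0, nat_lit 0, nat_lit 0, [],
 ⟨p100_k1, nat_lit 0, nat_lit 0, nat_lit 87, nat_lit 0, nat_lit 0, [nat_lit 2032000001, nat_lit 4688000000, nat_lit 6250000000], [], [nat_lit 21824166523, nat_lit 22541107455, nat_lit 30513067233, nat_lit 30978981259, nat_lit 25980067575, nat_lit 26535723712, nat_lit 32868091182, nat_lit 33286593104], nat_lit 0, nat_lit 0, nat_lit 0, nat_lit 0, nat_lit 0, nat_lit 0, [], [nat_lit 6, nat_lit 40, nat_lit 40, nat_lit 80, nat_lit 3, nat_lit 289, nat_lit 75, nat_lit 9]⟩, ⟨p100_k1, nat_lit 0, nat_lit 0, nat_lit 611, nat_lit 0, nat_lit 1234683, [nat_lit 2032000000, nat_lit 4688000000, nat_lit 6250000000], [], [nat_lit 27211213880, nat_lit 27562341036, nat_lit 36598960390, nat_lit 37232976024,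 nat_lit 27549409833, nat_lit 27784900556, nat_lit 33420043403, nat_lit 33852999203], nat_lit 1271250, nat_lit 1271250, nat_lit 1271250, nat_lit 1271250, nat_lit 0, nat_lit 2034000, [nat_lit 490000, nat_lit 1100000, nat_lit 1442500], [nat_lit 6, nat_lit 40, nat_lit 40, nat_lit 80, nat_lit 3, nat_lit 289, nat_lit 75, nat_lit 10]⟩,
 zbF0, [⟨nat_lit 16, nat_lit 83, nat_lit 98, nat_lit 100, nat_lit 369707267⟩, ⟨nat_lit 19, nat_lit 83, nat_lit 98, nat_lit 100, nat_lit 143363025⟩]⟩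
noncomputable def p100_l75 : Lf2 := ⟨nat_lit 0, nat_lit 10, [nat_lit 0, nat_lit 5, nat_lit 5, nat_lit 20], false, nat_lit 160, nat_lit 276, nat_lit 0, nat_lit 288, ⟨nat_lit 1000, nat_lit 0, nat_lit 0, nat_lit 0, nat_lit 0, nat_lit 0, nat_lit 0, nat_lit 0, nat_lit 0, nat_lit 0, nat_lit 0, nat_lit 0, nat_lit 0, nat_lit 0, nat_lit 0, nat_lit 0, false, false⟩,
 nat_lit 0, nat_lit 0, nat_lit 6871, nat_lit 0, nat_lit 4250, nat_lit 5356, nat_lit 890, nat_lit 0, nat_lit 0, nat_lit 1571, nat_lit 0, nat_lit 0, nat_lit 0, nat_lit 0, nat_lit 0, nat_lit 0, nat_lit 0, nat_lit 0, [],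
 ⟨p100_k2, nat_lit 0, nat_lit 0, nat_lit 100, nat_lit 0, nat_lit 0, [nat_lit 2032000001, nat_lit 4688000000, nat_lit 6250000000], [], [nat_lit 21813877751, nat_lit 23080811251, nat_lit 30248382000, nat_lit 31265410000, nat_lit 25128815202, nat_lit 26150608802, nat_lit 32302131776, nat_lit 33127385851], nat_lit 0, nat_lit 0, nat_lit 0, nat_lit 0, nat_lit 0, nat_lit 0, [], [nat_lit 6, nat_lit 40, nat_lit 40, nat_lit 80, nat_lit 3, nat_lit 289, nat_lit 75, nat_lit 9]⟩, ⟨p100_k1, nat_lit 0, nat_lit 0, nat_lit 687, nat_lit 0, nat_lit 1424204, [nat_lit 2032000000, nat_lit 4688000000, nat_lit 6250000000], [], [nat_lit 27566259914, nat_lit 27915887518, nat_lit 36898933840, nat_lit 37539158544, nat_lit 28153198943, nat_lit 28387024622, nat_lit 33544946384, nat_lit 33981172997], nat_lit 1271250, nat_lit 1271250, nat_lit 1271250, nat_lit 1271250, nat_lit 0, nat_lit 2034000, [nat_lit 490000, nat_lit 1100000, nat_lit 1442500],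 [nat_lit 6, nat_lit 40, nat_lit 40, nat_lit 80, nat_lit 3, nat_lit 301, nat_lit 75, nat_lit 11]⟩,
 zbF0, [⟨nat_lit 4, nat_lit 100, nat_lit 67, nat_lit 88, nat_lit 498691083⟩, ⟨nat_lit 19, nat_lit 77, nat_lit 100, nat_lit 91, nat_lit 4076554⟩, ⟨nat_lit 19, nat_lit 83, nat_lit 98, nat_lit 100, nat_lit 136224142⟩]⟩
noncomputable def b_V_800_800_20_6 : St := ⟨true, nat_lit 0, nat_lit 1, nat_lit 1, nat_lit 120, nat_lit 320, nat_lit 360, nat_lit 330, nat_lit 340, nat_lit 240, nat_lit 400, nat_lit 80, nat_lit 120, nat_lit 160, nat_lit 300, nat_lit 0, nat_lit 300, nat_lit 0, nat_lit 40, nat_lit 0, nat_lit 0, nat_lit 0, nat_lit 0⟩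
theorem d_V_800_800_20_6 (h : EB TB.env) : Dead b_V_800_800_20_6 := chkB_sound0 h (T :=
(.ord (.trX (nat_lit 16) (nat_lit 83) (nat_lit 98) (nat_lit 100) (nat_lit 288) (.trX (nat_lit 19) (nat_lit 83) (nat_lit 98) (nat_lit 100) (nat_lit 288) (.spl (nat_lit 0) (nat_lit 340)
(.leaf p100_l74)
(.trX (nat_lit 16) (nat_lit 77) (nat_lit 100) (nat_lit 99) (nat_lit 276) (.leaf p100_l75))))))) (by decide +kernel)
noncomputable def p100_l76 : Lf2 := ⟨nat_lit 0, nat_lit 10, [nat_lit 0, nat_lit 5, nat_lit 5, nat_lit 20], false, nat_lit 0, nat_lit 300, nat_lit 0, nat_lit 300, ⟨nat_lit 1000, nat_lit 0, nat_lit 0, nat_lit 0, nat_lit 0, nat_lit 0, nat_lit 0, nat_lit 0, nat_lit 0, nat_lit 0, nat_lit 0, nat_lit 0, nat_lit 0, nat_lit 0, nat_lit 0, nat_lit 0, false, false⟩,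
 nat_lit 0, nat_lit 0, nat_lit 0, nat_lit 0, nat_lit 8232, nat_lit 8459, nat_lit 0, nat_lit 0, nat_lit 0, nat_lit 0, nat_lit 0, nat_lit 0, nat_lit 0, nat_lit 0, nat_lit 0, nat_lit 0, nat_lit 0, nat_lit 0, [],
 ⟨p100_k23, nat_lit 0, nat_lit 0, nat_lit 187, nat_lit 0, nat_lit 0, [nat_lit 2032000001, nat_lit 6250000000], [], [nat_lit 25729429728, nat_lit 30528852208, nat_lit 44305055392, nat_lit 47546231744, nat_lit 25890958900, nat_lit 28996087672, nat_lit 36837985576, nat_lit 38867902296], nat_lit 0, nat_lit 0, nat_lit 0, nat_lit 0, nat_lit 0, nat_lit 0, [], [nat_lit 69, nat_lit 40, nat_lit 40, nat_lit 80, nat_lit 64, nat_lit 401, nat_lit 175, nat_lit 15]⟩, ⟨p100_k23, nat_lit 0, nat_lit 0, nat_lit 180, nat_lit 0, nat_lit 0, [nat_lit 2032000000, nat_lit 6250000000], [], [nat_lit 25511147436, nat_lit 27634449085, nat_lit 44940146004, nat_lit 46587581016, nat_lit 25499798175, nat_lit 27074709615, nat_lit 37103625062,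 nat_lit 38131872570], nat_lit 0, nat_lit 0, nat_lit 0, nat_lit 0, nat_lit 0, nat_lit 0, [], [nat_lit 69, nat_lit 40, nat_lit 40, nat_lit 80, nat_lit 64, nat_lit 401, nat_lit 175, nat_lit 15]⟩,
 zbF0, [⟨nat_lit 0, nat_lit 76, nat_lit 72, nat_lit 100, nat_lit 16123872⟩, ⟨nat_lit 4, nat_lit 100, nat_lit 74, nat_lit 90, nat_lit 57967166⟩, ⟨nat_lit 19, nat_lit 87, nat_lit 95, nat_lit 100, nat_lit 46096798⟩]⟩
noncomputable def p100_l77 : Lf2 := ⟨nat_lit 0, nat_lit 10, [nat_lit 0, nat_lit 5, nat_lit 5, nat_lit 20], false, nat_lit 0, nat_lit 160, nat_lit 0, nat_lit 160, ⟨nat_lit 232, nat_lit 768, nat_lit 0, nat_lit 8, nat_lit 302, nat_lit 768, nat_lit 65, nat_lit 0, nat_lit 0, nat_lit 0, nat_lit 0, nat_lit 0, nat_lit 0, nat_lit 0, nat_lit 0, nat_lit 5000000, true, false⟩,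
 nat_lit 0, nat_lit 0, nat_lit 2035, nat_lit 0, nat_lit 3357, nat_lit 1525, nat_lit 0, nat_lit 0, nat_lit 0, nat_lit 78, nat_lit 0, nat_lit 0, nat_lit 0, nat_lit 0, nat_lit 0, nat_lit 608400, nat_lit 0, nat_lit 0, [(nat_lit 18, [(nat_lit 1, nat_lit 266), (nat_lit 2, nat_lit 502)]), (nat_lit 21, [(nat_lit 1, nat_lit 266), (nat_lit 2, nat_lit 502)])],
 ⟨p100_k0, nat_lit 0, nat_lit 0, nat_lit 180, nat_lit 0, nat_lit 0, [nat_lit 1697664534, nat_lit 2135506667, nat_lit 1749086400], [], [nat_lit 21347534015, nat_lit 23854585115, nat_lit 30887063341, nat_lit 32754058244, nat_lit 21525715117, nat_lit 23654133595, nat_lit 29775283465, nat_lit 31068275585], nat_lit 0, nat_lit 0, nat_lit 0, nat_lit 0, nat_lit 0, nat_lit 0, [], [nat_lit 6, nat_lit 40, nat_lit 40, nat_lit 80, nat_lit 3, nat_lit 373, nat_lit 150, nat_lit 14]⟩, ⟨p100_k0, nat_lit 0, nat_lit 0, nat_lit 749, nat_lit 0, nat_lit 1503106, [nat_lit 471424000, nat_lit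 1087616000, nat_lit 1450000000], [], [nat_lit 8440560984, nat_lit 8559402111, nat_lit 9202129196, nat_lit 9532593288, nat_lit 7863437300, nat_lit 7959308593, nat_lit 9074173412, nat_lit 8465983848], nat_lit 1271250, nat_lit 1271250, nat_lit 936251, nat_lit 3113750, nat_lit 0, nat_lit 1100001, [nat_lit 490000, nat_lit 1100000, nat_lit 1442500], [nat_lit 6, nat_lit 40, nat_lit 40, nat_lit 80, nat_lit 3, nat_lit 373, nat_lit 150, nat_lit 14]⟩,
 ⟨nat_lit 3162, nat_lit 4473, ⟨.ofNat (nat_lit 526772), .ofNat (nat_lit 969090), .ofNat (nat_lit 548248), .ofNat (nat_lit 990589), .ofNat (nat_lit 540839), .ofNat (nat_lit 937496), .ofNat (nat_lit 562904), .ofNat (nat_lit 959584)⟩, ⟨.ofNat (nat_lit 0), .ofNat (nat_lit 302621), .ofNat (nat_lit 0), .ofNat (nat_lit 345754), .ofNat (nat_lit 0), .ofNat (nat_lit 306116), .ofNat (nat_lit 0), .ofNat (nat_lit 350426)⟩⟩, [⟨nat_lit 13, nat_lit 94, nat_lit 9, nat_lit 100, nat_lit 88270566⟩]⟩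
noncomputable def p100_l78 : Lf2 := ⟨nat_lit 0, nat_lit 10, [nat_lit 0, nat_lit 5, nat_lit 5, nat_lit 20], true, nat_lit 160, nat_lit 300, nat_lit 0, nat_lit 160, ⟨nat_lit 0, nat_lit 1000, nat_lit 0, nat_lit 8, nat_lit 248, nat_lit 1000, nat_lit 176, nat_lit 0, nat_lit 0, nat_lit 0, nat_lit 0, nat_lit 0, nat_lit 0, nat_lit 0, nat_lit 0, nat_lit 5000000, false, false⟩,
 nat_lit 0, nat_lit 0, nat_lit 0, nat_lit 0, nat_lit 4160, nat_lit 0, nat_lit 0, nat_lit 0, nat_lit 0, nat_lit 0, nat_lit 0, nat_lit 0, nat_lit 0, nat_lit 12528549551446, nat_lit 0, nat_lit 250000, nat_lit 0, nat_lit 0, [(nat_lit 18, [(nat_lit 0, nat_lit 1000)]), (nat_lit 21, [(nat_lit 0, nat_lit 1000)])],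
 ⟨p100_k0, nat_lit 0, nat_lit 0, nat_lit 60, nat_lit 0, nat_lit 0, [nat_lit 1558400000, nat_lit 2168000000, nat_lit 2562000000], [], [nat_lit 17020093360, nat_lit 20202130240, nat_lit 20049594880, nat_lit 22714621920, nat_lit 22702517280, nat_lit 25278418860, nat_lit 24730652800, nat_lit 27085702680], nat_lit 0, nat_lit 0, nat_lit 0, nat_lit 0, nat_lit 0, nat_lit 0, [], [nat_lit 6, nat_lit 40, nat_lit 40, nat_lit 80, nat_lit 3, nat_lit 373, nat_lit 150, nat_lit 13]⟩, C1.Rw.none,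
 ⟨nat_lit 3162, nat_lit 4473, ⟨.ofNat (nat_lit 526772), .ofNat (nat_lit 696911), .ofNat (nat_lit 537509), .ofNat (nat_lit 707649), .ofNat (nat_lit 540839), .ofNat (nat_lit 693416), .ofNat (nat_lit 551871), .ofNat (nat_lit 704449)⟩, ⟨.ofNat (nat_lit 302621), .ofNat (nat_lit 540545), .ofNat (nat_lit 345754), .ofNat (nat_lit 583678), .ofNat (nat_lit 306116), .ofNat (nat_lit 519453), .ofNat (nat_lit 350426), .ofNat (nat_lit 563762)⟩⟩, [⟨nat_lit 16, nat_lit 87, nat_lit 95, nat_lit 100, nat_lit 293571023⟩]⟩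
noncomputable def p100_l79 : Lf2 := ⟨nat_lit 0, nat_lit 10, [nat_lit 0, nat_lit 5, nat_lit 5, nat_lit 20], false, nat_lit 160, nat_lit 300, nat_lit 0, nat_lit 160, ⟨nat_lit 253, nat_lit 747, nat_lit 0, nat_lit 8, nat_lit 332, nat_lit 747, nat_lit 176, nat_lit 0, nat_lit 0, nat_lit 0, nat_lit 0, nat_lit 0, nat_lit 0, nat_lit 0, nat_lit 0, nat_lit 5000000, true, true⟩,
 nat_lit 0, nat_lit 0, nat_lit 2373, nat_lit 0, nat_lit 3322, nat_lit 1779, nat_lit 0, nat_lit 0, nat_lit 0, nat_lit 83, nat_lit 0, nat_lit 0, nat_lit 0, nat_lit 0, nat_lit 0, nat_lit 724200, nat_lit 0, nat_lit 0, [(nat_lit 18, [(nat_lit 1, nat_lit 38), (nat_lit 2, nat_lit 709)]), (nat_lit 21, [(nat_lit 1, nat_lit 38), (nat_lit 2, nat_lit 709)])],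
 ⟨p100_k0, nat_lit 0, nat_lit 0, nat_lit 100, nat_lit 0, nat_lit 0, [nat_lit 1773848534, nat_lit 2001938667, nat_lit 1341531600], [], [nat_lit 21600031222, nat_lit 23722122478, nat_lit 28600329521, nat_lit 30157581385, nat_lit 25621795786, nat_lit 27378620779, nat_lit 31306019169, nat_lit 32547244566], nat_lit 0, nat_lit 0, nat_lit 0, nat_lit 0, nat_lit 0, nat_lit 0, [], [nat_lit 6, nat_lit 40, nat_lit 40, nat_lit 80, nat_lit 3, nat_lit 289, nat_lit 75, nat_lit 9]⟩, ⟨p100_k0, nat_lit 0, nat_lit 0, nat_lit 692, nat_lit 0, nat_lit 1431917, [nat_lit 514096000, nat_lit 1186064000, nat_lit 1581250000], [], [nat_lit 8596942892, nat_lit 8660201269, nat_lit 10359511708, nat_lit 10546557353, nat_lit 7793667728, nat_lit 7845050113, nat_lit 8386450396, nat_lit 8446203259], nat_lit 1271250, nat_lit 1271250, nat_lit 1271250, nat_lit 1271250, nat_lit 0, nat_lit 1100001, [nat_lit 490000, nat_lit 1100000, nat_lit 1442500], [nat_lit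 6, nat_lit 40, nat_lit 40, nat_lit 80, nat_lit 3, nat_lit 285, nat_lit 40, nat_lit 10]⟩,
 ⟨nat_lit 3162, nat_lit 4473, ⟨.ofNat (nat_lit 696911), .ofNat (nat_lit 969090), .ofNat (nat_lit 707649), .ofNat (nat_lit 979840), .ofNat (nat_lit 693416), .ofNat (nat_lit 937496), .ofNat (nat_lit 704449), .ofNat (nat_lit 948541)⟩, ⟨.ofNat (nat_lit 302621), .ofNat (nat_lit 540545), .ofNat (nat_lit 345754), .ofNat (nat_lit 583678), .ofNat (nat_lit 306116), .ofNat (nat_lit 519453), .ofNat (nat_lit 350426), .ofNat (nat_lit 563762)⟩⟩, [⟨nat_lit 16, nat_lit 74, nat_lit 100, nat_lit 90, nat_lit 210976463⟩, ⟨nat_lit 9, nat_lit 100, nat_lit 72, nat_lit 81, nat_lit 131099166⟩]⟩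
noncomputable def p100_l80 : Lf2 := ⟨nat_lit 0, nat_lit 10, [nat_lit 0, nat_lit 5, nat_lit 5, nat_lit 20], false, nat_lit 160, nat_lit 288, nat_lit 0, nat_lit 160, ⟨nat_lit 652, nat_lit 348, nat_lit 0, nat_lit 8, nat_lit 312, nat_lit 348, nat_lit 171, nat_lit 0, nat_lit 0, nat_lit 0, nat_lit 0, nat_lit 0, nat_lit 0, nat_lit 0, nat_lit 0, nat_lit 5000000, true, false⟩,
 nat_lit 0, nat_lit 0, nat_lit 4423, nat_lit 0, nat_lit 4231, nat_lit 3447, nat_lit 502, nat_lit 0, nat_lit 0, nat_lit 951, nat_lit 0, nat_lit 0, nat_lit 0, nat_lit 0, nat_lit 0, nat_lit 87000, nat_lit 0, nat_lit 0, [(nat_lit 18, [(nat_lit 0, nat_lit 348)]), (nat_lit 21, [(nat_lit 0, nat_lit 348)])],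
 ⟨p100_k1, nat_lit 0, nat_lit 0, nat_lit 100, nat_lit 0, nat_lit 0, [nat_lit 1867187200, nat_lit 3811040001, nat_lit 4966576000], [], [nat_lit 19931581627, nat_lit 21952123719, nat_lit 29907672905, nat_lit 31239031919, nat_lit 24176857644, nat_lit 25852438738, nat_lit 32206700159, nat_lit 33410246724], nat_lit 0, nat_lit 0, nat_lit 0, nat_lit 0, nat_lit 0, nat_lit 0, [], [nat_lit 6, nat_lit 40, nat_lit 40, nat_lit 80, nat_lit 3, nat_lit 401, nat_lit 175, nat_lit 14]⟩, ⟨p100_k1, nat_lit 0, nat_lit 0, nat_lit 709, nat_lit 0, nat_lit 1424204, [nat_lit 1324864000, nat_lit 3056576000, nat_lit 4075000000], [], [nat_lit 17897448763, nat_lit 18137970539, nat_lit 23929224842, nat_lit 24343983696, nat_lit 17235864760, nat_lit 17437224810, nat_lit 21439573897, nat_lit 20697648511], nat_lit 1271250, nat_lit 1271250, nat_lit 1167600, nat_lit 3171500, nat_lit 0, nat_lit 1100001, [nat_lit 490000, nat_lit 1100000, nat_lit 1442500],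 [nat_lit 6, nat_lit 40, nat_lit 40, nat_lit 80, nat_lit 3, nat_lit 373, nat_lit 150, nat_lit 14]⟩,
 ⟨nat_lit 3162, nat_lit 4184, ⟨.ofNat (nat_lit 587413), .ofNat (nat_lit 972009), .ofNat (nat_lit 598218), .ofNat (nat_lit 982822), .ofNat (nat_lit 594828), .ofNat (nat_lit 948671), .ofNat (nat_lit 605877), .ofNat (nat_lit 959728)⟩, ⟨.ofNat (nat_lit 303743), .ofNat (nat_lit 515761), .ofNat (nat_lit 347076), .ofNat (nat_lit 559094), .ofNat (nat_lit 306116), .ofNat (nat_lit 501167), .ofNat (nat_lit 350426), .ofNat (nat_lit 545476)⟩⟩, [⟨nat_lit 4, nat_lit 100, nat_lit 71, nat_lit 89, nat_lit 413111964⟩]⟩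
noncomputable def p100_l81 : Lf2 := ⟨nat_lit 0, nat_lit 10, [nat_lit 0, nat_lit 5, nat_lit 5, nat_lit 20], false, nat_lit 0, nat_lit 160, nat_lit 160, nat_lit 300, ⟨nat_lit 227, nat_lit 773, nat_lit 0, nat_lit 8, nat_lit 302, nat_lit 773, nat_lit 65, nat_lit 0, nat_lit 0, nat_lit 0, nat_lit 0, nat_lit 0, nat_lit 0, nat_lit 0, nat_lit 0, nat_lit 5000000, true, false⟩,
 nat_lit 0, nat_lit 0, nat_lit 1971, nat_lit 0, nat_lit 3734, nat_lit 1477, nat_lit 0, nat_lit 0, nat_lit 0, nat_lit 78, nat_lit 0, nat_lit 0, nat_lit 0, nat_lit 0, nat_lit 0, nat_lit 570800, nat_lit 0, nat_lit 0, [(nat_lit 18, [(nat_lit 1, nat_lit 337), (nat_lit 2, nat_lit 436)]), (nat_lit 21, [(nat_lit 1, nat_lit 337), (nat_lit 2, nat_lit 436)])],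
 ⟨p100_k0, nat_lit 0, nat_lit 0, nat_lit 180, nat_lit 0, nat_lit 0, [nat_lit 1674448801, nat_lit 2182708001, nat_lit 1886304400], [], [nat_lit 20873154070, nat_lit 23511514270, nat_lit 31720748904, nat_lit 33897986328, nat_lit 20731369994, nat_lit 22962956030, nat_lit 29186615970, nat_lit 30516991410], nat_lit 0, nat_lit 0, nat_lit 0, nat_lit 0, nat_lit 0, nat_lit 0, [], [nat_lit 6, nat_lit 40, nat_lit 40, nat_lit 80, nat_lit 3, nat_lit 373, nat_lit 150, nat_lit 14]⟩, ⟨p100_k0, nat_lit 0, nat_lit 0, nat_lit 659, nat_lit 0, nat_lit 1503106, [nat_lit 461264000, nat_lit 1064176000, nat_lit 1418750000], [], [nat_lit 7283922764, nat_lit 7398318311, nat_lit 8009109968, nat_lit 8081589542, nat_lit 7574518502, nat_lit 7674606868, nat_lit 8070571923, nat_lit 8130556235], nat_lit 1271250, nat_lit 1271250, nat_lit 1271250, nat_lit 1271250, nat_lit 1100001, nat_lit 2298750, [nat_lit 490000, nat_lit 1100000, nat_lit 1442500],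 [nat_lit 6, nat_lit 40, nat_lit 40, nat_lit 80, nat_lit 3, nat_lit 401, nat_lit 175, nat_lit 14]⟩,
 ⟨nat_lit 3162, nat_lit 4473, ⟨.ofNat (nat_lit 526772), .ofNat (nat_lit 969090), .ofNat (nat_lit 548248), .ofNat (nat_lit 990589), .ofNat (nat_lit 540839), .ofNat (nat_lit 937496), .ofNat (nat_lit 562904), .ofNat (nat_lit 959584)⟩, ⟨.ofNat (nat_lit 0), .ofNat (nat_lit 302621), .ofNat (nat_lit 0), .ofNat (nat_lit 345754), .ofNat (nat_lit 0), .ofNat (nat_lit 306116), .ofNat (nat_lit 0), .ofNat (nat_lit 350426)⟩⟩, [⟨nat_lit 13, nat_lit 94, nat_lit 9, nat_lit 100, nat_lit 16366931⟩, ⟨nat_lit 10, nat_lit 100, nat_lit 72, nat_lit 81, nat_lit 88277462⟩]⟩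
noncomputable def p100_l82 : Lf2 := ⟨nat_lit 0, nat_lit 10, [nat_lit 0, nat_lit 5, nat_lit 5, nat_lit 20], true, nat_lit 160, nat_lit 300, nat_lit 160, nat_lit 300, ⟨nat_lit 0, nat_lit 1000, nat_lit 0, nat_lit 8, nat_lit 248, nat_lit 1000, nat_lit 176, nat_lit 0, nat_lit 0, nat_lit 0, nat_lit 0, nat_lit 0, nat_lit 0, nat_lit 0, nat_lit 0, nat_lit 5000000, false, false⟩,
 nat_lit 0, nat_lit 0, nat_lit 0, nat_lit 0, nat_lit 4160, nat_lit 0, nat_lit 0, nat_lit 0, nat_lit 0, nat_lit 0, nat_lit 0, nat_lit 0, nat_lit 0, nat_lit 12528549551446, nat_lit 0, nat_lit 250000, nat_lit 0, nat_lit 0, [(nat_lit 18, [(nat_lit 0, nat_lit 1000)]), (nat_lit 21, [(nat_lit 0, nat_lit 1000)])],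
 ⟨p100_k0, nat_lit 0, nat_lit 0, nat_lit 60, nat_lit 0, nat_lit 0, [nat_lit 1558400000, nat_lit 2168000000, nat_lit 2562000000], [], [nat_lit 17020093360, nat_lit 20202130240, nat_lit 20049594880, nat_lit 22714621920, nat_lit 22702517280, nat_lit 25278418860, nat_lit 24730652800, nat_lit 27085702680], nat_lit 0, nat_lit 0, nat_lit 0, nat_lit 0, nat_lit 0, nat_lit 0, [], [nat_lit 6, nat_lit 40, nat_lit 40, nat_lit 80, nat_lit 3, nat_lit 373, nat_lit 150, nat_lit 13]⟩, C1.Rw.none,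
 ⟨nat_lit 3162, nat_lit 4473, ⟨.ofNat (nat_lit 526772), .ofNat (nat_lit 696911), .ofNat (nat_lit 537509), .ofNat (nat_lit 707649), .ofNat (nat_lit 540839), .ofNat (nat_lit 693416), .ofNat (nat_lit 551871), .ofNat (nat_lit 704449)⟩, ⟨.ofNat (nat_lit 302621), .ofNat (nat_lit 540545), .ofNat (nat_lit 345754), .ofNat (nat_lit 583678), .ofNat (nat_lit 306116), .ofNat (nat_lit 519453), .ofNat (nat_lit 350426), .ofNat (nat_lit 563762)⟩⟩, [⟨nat_lit 16, nat_lit 87, nat_lit 95, nat_lit 100, nat_lit 293571023⟩]⟩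
noncomputable def p100_l83 : Lf2 := ⟨nat_lit 0, nat_lit 5, [nat_lit 4, nat_lit 5, nat_lit 5, nat_lit 20], true, nat_lit 160, nat_lit 240, nat_lit 160, nat_lit 300, ⟨nat_lit 0, nat_lit 1000, nat_lit 0, nat_lit 8, nat_lit 333, nat_lit 1000, nat_lit 157, nat_lit 0, nat_lit 0, nat_lit 0, nat_lit 0, nat_lit 0, nat_lit 0, nat_lit 0, nat_lit 0, nat_lit 5000000, true, true⟩,
 nat_lit 0, nat_lit 0, nat_lit 0, nat_lit 0, nat_lit 3276, nat_lit 0, nat_lit 28, nat_lit 0, nat_lit 0, nat_lit 0, nat_lit 0, nat_lit 0, nat_lit 0, nat_lit 2986616289799, nat_lit 0, nat_lit 526000, nat_lit 0, nat_lit 0, [(nat_lit 18, [(nat_lit 1, nat_lit 790), (nat_lit 2, nat_lit 210)])],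
 ⟨p100_k4, nat_lit 0, nat_lit 0, nat_lit 87, nat_lit 0, nat_lit 0, [nat_lit 1461917334, nat_lit 1773186667, nat_lit 1455960000], [], [nat_lit 21365834838, nat_lit 22420671662, nat_lit 28185055654, nat_lit 28942136216, nat_lit 23329610070, nat_lit 24257423278, nat_lit 29344178166, nat_lit 30157728272], nat_lit 0, nat_lit 0, nat_lit 0, nat_lit 0, nat_lit 0, nat_lit 0, [], [nat_lit 6, nat_lit 40, nat_lit 40, nat_lit 80, nat_lit 3, nat_lit 272, nat_lit 60, nat_lit 9]⟩, C1.Rw.none,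
 ⟨nat_lit 3872, nat_lit 4473, ⟨.ofNat (nat_lit 697279), .ofNat (nat_lit 969223), .ofNat (nat_lit 702666), .ofNat (nat_lit 974610), .ofNat (nat_lit 695183), .ofNat (nat_lit 953301), .ofNat (nat_lit 700626), .ofNat (nat_lit 958745)⟩, ⟨.ofNat (nat_lit 302621), .ofNat (nat_lit 438578), .ofNat (nat_lit 345754), .ofNat (nat_lit 481711), .ofNat (nat_lit 304717), .ofNat (nat_lit 433760), .ofNat (nat_lit 348304), .ofNat (nat_lit 477347)⟩⟩, []⟩
noncomputable def p100_l84 : Lf2 := ⟨nat_lit 0, nat_lit 5, [nat_lit 4, nat_lit 5, nat_lit 5, nat_lit 20], false, nat_lit 240, nat_lit 280, nat_lit 160, nat_lit 280, ⟨nat_lit 430, nat_lit 570, nat_lit 0, nat_lit 8, nat_lit 333, nat_lit 570, nat_lit 193, nat_lit 0, nat_lit 0, nat_lit 0, nat_lit 0, nat_lit 0, nat_lit 0, nat_lit 0, nat_lit 0, nat_lit 5000000, true, true⟩,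
 nat_lit 0, nat_lit 0, nat_lit 3627, nat_lit 0, nat_lit 3788, nat_lit 2719, nat_lit 0, nat_lit 0, nat_lit 0, nat_lit 184, nat_lit 0, nat_lit 0, nat_lit 0, nat_lit 0, nat_lit 0, nat_lit 570000, nat_lit 0, nat_lit 0, [(nat_lit 18, [(nat_lit 2, nat_lit 570)])],
 ⟨p100_k4, nat_lit 0, nat_lit 0, nat_lit 72, nat_lit 0, nat_lit 0, [nat_lit 1843824001, nat_lit 2611680001, nat_lit 2434876000], [], [nat_lit 23373557362, nat_lit 23896555274, nat_lit 30083373537, nat_lit 30459392037, nat_lit 24887931274, nat_lit 25370292342, nat_lit 31109951721, nat_lit 31457816007], nat_lit 0, nat_lit 0, nat_lit 0, nat_lit 0, nat_lit 0, nat_lit 0, [], [nat_lit 6, nat_lit 40, nat_lit 40, nat_lit 80, nat_lit 3, nat_lit 203, nat_lit 0, nat_lit 6]⟩, ⟨p100_k4, nat_lit 0, nat_lit 0, nat_lit 442, nat_lit 0, nat_lit 1033531, [nat_lit 873760000, nat_lit 2015840000, nat_lit 2687500000], [], [nat_lit 12299153760, nat_lit 12380923677, nat_lit 14376345612,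 nat_lit 14434207155, nat_lit 13010468122, nat_lit 13078986945, nat_lit 14687886278, nat_lit 14732954874], nat_lit 1271250, nat_lit 1271250, nat_lit 1271250, nat_lit 1271250, nat_lit 1100001, nat_lit 2127500, [nat_lit 490000, nat_lit 1100000, nat_lit 1442500], [nat_lit 6, nat_lit 40, nat_lit 40, nat_lit 80, nat_lit 3, nat_lit 289, nat_lit 75, nat_lit 9]⟩,
 ⟨nat_lit 4183, nat_lit 4473, ⟨.ofNat (nat_lit 697354), .ofNat (nat_lit 969270), .ofNat (nat_lit 702744), .ofNat (nat_lit 974661), .ofNat (nat_lit 696233), .ofNat (nat_lit 961259), .ofNat (nat_lit 701648), .ofNat (nat_lit 966674)⟩, ⟨.ofNat (nat_lit 438578), .ofNat (nat_lit 506556), .ofNat (nat_lit 460144), .ofNat (nat_lit 528122), .ofNat (nat_lit 436254), .ofNat (nat_lit 502509), .ofNat (nat_lit 457921), .ofNat (nat_lit 524176)⟩⟩, [⟨nat_lit 16, nat_lit 87, nat_lit 100, nat_lit 94, nat_lit 345887005⟩, ⟨nat_lit 19, nat_lit 87, nat_lit 100, nat_lit 94, nat_lit 127971529⟩]⟩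
noncomputable def p100_l85 : Lf2 := ⟨nat_lit 0, nat_lit 5, [nat_lit 4, nat_lit 5, nat_lit 5, nat_lit 20], false, nat_lit 240, nat_lit 300, nat_lit 160, nat_lit 300, ⟨nat_lit 470, nat_lit 530, nat_lit 0, nat_lit 8, nat_lit 333, nat_lit 530, nat_lit 208, nat_lit 0, nat_lit 0, nat_lit 0, nat_lit 0, nat_lit 0, nat_lit 0, nat_lit 0, nat_lit 0, nat_lit 5000000, true, true⟩,
 nat_lit 0, nat_lit 0, nat_lit 3810, nat_lit 0, nat_lit 3854, nat_lit 2857, nat_lit 0, nat_lit 0, nat_lit 0, nat_lit 208, nat_lit 0, nat_lit 0, nat_lit 0, nat_lit 0, nat_lit 0, nat_lit 530000, nat_lit 0, nat_lit 0, [(nat_lit 18, [(nat_lit 2, nat_lit 530)])],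
 ⟨p100_k4, nat_lit 0, nat_lit 0, nat_lit 73, nat_lit 0, nat_lit 0, [nat_lit 1857029334, nat_lit 2757386667, nat_lit 2702604000], [], [nat_lit 23427741881, nat_lit 23954701377, nat_lit 30216452555, nat_lit 30594492305, nat_lit 25711259375, nat_lit 26176487643, nat_lit 31758697613, nat_lit 32094100820], nat_lit 0, nat_lit 0, nat_lit 0, nat_lit 0, nat_lit 0, nat_lit 0, [], [nat_lit 6, nat_lit 40, nat_lit 40, nat_lit 80, nat_lit 3, nat_lit 203, nat_lit 0, nat_lit 6]⟩, ⟨p100_k4, nat_lit 0, nat_lit 0, nat_lit 406, nat_lit 0, nat_lit 930177, [nat_lit 955040000, nat_lit 2203360000, nat_lit 2937500000], [], [nat_lit 12857600952, nat_lit 12962942025, nat_lit 15527765104, nat_lit 15602376325, nat_lit 14095440949, nat_lit 14175098086, nat_lit 16170254003, nat_lit 16233991566], nat_lit 1271250, nat_lit 1271250, nat_lit 1271250, nat_lit 1271250, nat_lit 1100001, nat_lit 2298750, [nat_lit 490000, nat_lit 1100000, nat_lit 1442500],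 [nat_lit 6, nat_lit 40, nat_lit 40, nat_lit 80, nat_lit 3, nat_lit 289, nat_lit 75, nat_lit 9]⟩,
 ⟨nat_lit 4183, nat_lit 4473, ⟨.ofNat (nat_lit 697354), .ofNat (nat_lit 969270), .ofNat (nat_lit 702744), .ofNat (nat_lit 974661), .ofNat (nat_lit 696233), .ofNat (nat_lit 961259), .ofNat (nat_lit 701648), .ofNat (nat_lit 966674)⟩, ⟨.ofNat (nat_lit 460144), .ofNat (nat_lit 562111), .ofNat (nat_lit 481711), .ofNat (nat_lit 583678), .ofNat (nat_lit 457921), .ofNat (nat_lit 557304), .ofNat (nat_lit 479587), .ofNat (nat_lit 578971)⟩⟩, [⟨nat_lit 13, nat_lit 99, nat_lit 2, nat_lit 100, nat_lit 71136041⟩, ⟨nat_lit 4, nat_lit 100, nat_lit 86, nat_lit 98, nat_lit 345016227⟩, ⟨nat_lit 19, nat_lit 87, nat_lit 95, nat_lit 100, nat_lit 144380141⟩]⟩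
noncomputable def p100_l86 : Lf2 := ⟨nat_lit 0, nat_lit 5, [nat_lit 4, nat_lit 5, nat_lit 5, nat_lit 20], false, nat_lit 240, nat_lit 288, nat_lit 160, nat_lit 300, ⟨nat_lit 542, nat_lit 458, nat_lit 0, nat_lit 8, nat_lit 332, nat_lit 458, nat_lit 198, nat_lit 0, nat_lit 0, nat_lit 0, nat_lit 0, nat_lit 0, nat_lit 0, nat_lit 0, nat_lit 0, nat_lit 5000000, true, true⟩,
 nat_lit 0, nat_lit 0, nat_lit 4528, nat_lit 0, nat_lit 3260, nat_lit 3395, nat_lit 1443, nat_lit 0, nat_lit 0, nat_lit 190, nat_lit 0, nat_lit 0, nat_lit 0, nat_lit 0, nat_lit 0, nat_lit 183200, nat_lit 0, nat_lit 0, [(nat_lit 18, [(nat_lit 1, nat_lit 458)])],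
 ⟨p100_k7, nat_lit 0, nat_lit 0, nat_lit 70, nat_lit 0, nat_lit 0, [nat_lit 1741689067, nat_lit 3403035200], [], [nat_lit 23610699582, nat_lit 24102004822, nat_lit 29835366334, nat_lit 30209907574, nat_lit 25307627815, nat_lit 25755134998, nat_lit 31080368735, nat_lit 31423293047], nat_lit 0, nat_lit 0, nat_lit 0, nat_lit 0, nat_lit 0, nat_lit 0, [], [nat_lit 24, nat_lit 40, nat_lit 40, nat_lit 80, nat_lit 33, nat_lit 203, nat_lit 0, nat_lit 7]⟩, ⟨p100_k4, nat_lit 0, nat_lit 0, nat_lit 489, nat_lit 0, nat_lit 1157483, [nat_lit 1101344000, nat_lit 2540896000, nat_lit 3387500000], [], [nat_lit 15813546208, nat_lit 15916218911, nat_lit 18341980820, nat_lit 18409768201, nat_lit 16938980923, nat_lit 17016440487, nat_lit 18795331416, nat_lit 18845503865], nat_lit 1271250, nat_lit 1271250, nat_lit 1271250, nat_lit 1271250, nat_lit 1100001, nat_lit 2298750, [nat_lit 490000, nat_lit 1100000, nat_lit 1442500], [nat_lit 6,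 nat_lit 40, nat_lit 40, nat_lit 80, nat_lit 3, nat_lit 289, nat_lit 75, nat_lit 9]⟩,
 ⟨nat_lit 3872, nat_lit 4184, ⟨.ofNat (nat_lit 696229), .ofNat (nat_lit 961264), .ofNat (nat_lit 701645), .ofNat (nat_lit 966679), .ofNat (nat_lit 695254), .ofNat (nat_lit 953353), .ofNat (nat_lit 700702), .ofNat (nat_lit 958800)⟩, ⟨.ofNat (nat_lit 436254), .ofNat (nat_lit 515761), .ofNat (nat_lit 479587), .ofNat (nat_lit 559094), .ofNat (nat_lit 433760), .ofNat (nat_lit 511186), .ofNat (nat_lit 477347), .ofNat (nat_lit 554773)⟩⟩, [⟨nat_lit 13, nat_lit 93, nat_lit 10, nat_lit 100, nat_lit 30581393⟩, ⟨nat_lit 16, nat_lit 83, nat_lit 98, nat_lit 100, nat_lit 364214432⟩, ⟨nat_lit 19, nat_lit 87, nat_lit 95, nat_lit 100, nat_lit 154678082⟩]⟩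
noncomputable def p100_l87 : Lf2 := ⟨nat_lit 0, nat_lit 10, [nat_lit 0, nat_lit 5, nat_lit 5, nat_lit 20], false, nat_lit 160, nat_lit 300, nat_lit 160, nat_lit 300, ⟨nat_lit 727, nat_lit 273, nat_lit 0, nat_lit 8, nat_lit 333, nat_lit 273, nat_lit 177, nat_lit 0, nat_lit 0, nat_lit 0, nat_lit 0, nat_lit 0, nat_lit 0, nat_lit 0, nat_lit 0, nat_lit 5000000, true, true⟩,
 nat_lit 0, nat_lit 0, nat_lit 5891, nat_lit 0, nat_lit 4521, nat_lit 4418, nat_lit 266, nat_lit 0, nat_lit 0, nat_lit 313, nat_lit 0, nat_lit 0, nat_lit 0, nat_lit 0, nat_lit 0, nat_lit 273000, nat_lit 0, nat_lit 0, [(nat_lit 18, [(nat_lit 2, nat_lit 273)])],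
 ⟨p100_k0, nat_lit 0, nat_lit 0, nat_lit 87, nat_lit 0, nat_lit 0, [nat_lit 1941873601, nat_lit 3693552000, nat_lit 4422756400], [], [nat_lit 21859504276, nat_lit 23159089012, nat_lit 30006285768, nat_lit 30863235772, nat_lit 26274840759, nat_lit 27261118235, nat_lit 32591277179, nat_lit 33293013721], nat_lit 0, nat_lit 0, nat_lit 0, nat_lit 0, nat_lit 0, nat_lit 0, [], [nat_lit 6, nat_lit 40, nat_lit 40, nat_lit 80, nat_lit 3, nat_lit 289, nat_lit 75, nat_lit 9]⟩, ⟨p100_k0, nat_lit 0, nat_lit 0, nat_lit 377, nat_lit 0, nat_lit 871704, [nat_lit 1477264000, nat_lit 3408176000, nat_lit 4543750000], [], [nat_lit 20119640612, nat_lit 20271855260, nat_lit 24022442984, nat_lit 24137842275, nat_lit 21851097190, nat_lit 21966117594, nat_lit 25016498959, nat_lit 25109416677], nat_lit 1271250, nat_lit 1271250, nat_lit 1271250, nat_lit 1271250, nat_lit 1100001, nat_lit 2298750, [nat_lit 490000, nat_lit 1100000, nat_lit 1442500],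 [nat_lit 6, nat_lit 40, nat_lit 40, nat_lit 80, nat_lit 3, nat_lit 289, nat_lit 75, nat_lit 9]⟩,
 ⟨nat_lit 3872, nat_lit 4473, ⟨.ofNat (nat_lit 697279), .ofNat (nat_lit 969223), .ofNat (nat_lit 702666), .ofNat (nat_lit 974610), .ofNat (nat_lit 695183), .ofNat (nat_lit 953301), .ofNat (nat_lit 700626), .ofNat (nat_lit 958745)⟩, ⟨.ofNat (nat_lit 302621), .ofNat (nat_lit 540545), .ofNat (nat_lit 345754), .ofNat (nat_lit 583678), .ofNat (nat_lit 304717), .ofNat (nat_lit 530543), .ofNat (nat_lit 348304), .ofNat (nat_lit 574129)⟩⟩, [⟨nat_lit 4, nat_lit 100, nat_lit 81, nat_lit 92, nat_lit 365363371⟩, ⟨nat_lit 19, nat_lit 87, nat_lit 95, nat_lit 100, nat_lit 223227498⟩]⟩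
noncomputable def p100_l88 : Lf2 := ⟨nat_lit 0, nat_lit 10, [nat_lit 0, nat_lit 5, nat_lit 5, nat_lit 20], false, nat_lit 160, nat_lit 296, nat_lit 160, nat_lit 296, ⟨nat_lit 718, nat_lit 282, nat_lit 0, nat_lit 8, nat_lit 334, nat_lit 282, nat_lit 175, nat_lit 0, nat_lit 0, nat_lit 0, nat_lit 0, nat_lit 0, nat_lit 0, nat_lit 0, nat_lit 0, nat_lit 5000000, true, false⟩,
 nat_lit 0, nat_lit 0, nat_lit 5189, nat_lit 0, nat_lit 4357, nat_lit 3967, nat_lit 332, nat_lit 0, nat_lit 0, nat_lit 1168, nat_lit 0, nat_lit 0, nat_lit 0, nat_lit 0, nat_lit 0, nat_lit 282000, nat_lit 0, nat_lit 0, [(nat_lit 18, [(nat_lit 2, nat_lit 282)])],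
 ⟨p100_k3, nat_lit 0, nat_lit 0, nat_lit 87, nat_lit 0, nat_lit 0, [nat_lit 1938902401, nat_lit 3660768001, nat_lit 4362517600], [], [nat_lit 21935212659, nat_lit 22835770447, nat_lit 29952616796, nat_lit 30625818125, nat_lit 26032224070, nat_lit 26769570459, nat_lit 32455654966, nat_lit 32981561633], nat_lit 0, nat_lit 0, nat_lit 0, nat_lit 0, nat_lit 0, nat_lit 0, [], [nat_lit 6, nat_lit 40, nat_lit 40, nat_lit 80, nat_lit 3, nat_lit 289, nat_lit 75, nat_lit 9]⟩, ⟨p100_k3, nat_lit 0, nat_lit 0, nat_lit 507, nat_lit 0, nat_lit 1193466, [nat_lit 1458976000, nat_lit 3365984000, nat_lit 4487500000], [], [nat_lit 21143070265, nat_lit 21251048018, nat_lit 23809480882, nat_lit 23883148184, nat_lit 22315551366, nat_lit 22399275331, nat_lit 24333547168, nat_lit 24398387993], nat_lit 1271250, nat_lit 1271250, nat_lit 1271250, nat_lit 1271250, nat_lit 1100001, nat_lit 2264500, [nat_lit 490000, nat_lit 1100000, nat_lit 1442500],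 [nat_lit 6, nat_lit 40, nat_lit 40, nat_lit 80, nat_lit 3, nat_lit 289, nat_lit 75, nat_lit 9]⟩,
 ⟨nat_lit 3872, nat_lit 4331, ⟨.ofNat (nat_lit 702143), .ofNat (nat_lit 970635), .ofNat (nat_lit 707543), .ofNat (nat_lit 976036), .ofNat (nat_lit 700670), .ofNat (nat_lit 958778), .ofNat (nat_lit 706115), .ofNat (nat_lit 964224)⟩, ⟨.ofNat (nat_lit 303199), .ofNat (nat_lit 531399), .ofNat (nat_lit 346426), .ofNat (nat_lit 574626), .ofNat (nat_lit 304717), .ofNat (nat_lit 524091), .ofNat (nat_lit 348304), .ofNat (nat_lit 567677)⟩⟩, [⟨nat_lit 16, nat_lit 85, nat_lit 97, nat_lit 100, nat_lit 317848013⟩, ⟨nat_lit 19, nat_lit 85, nat_lit 97, nat_lit 100, nat_lit 206698819⟩]⟩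
noncomputable def p100_l89 : Lf2 := ⟨nat_lit 0, nat_lit 5, [nat_lit 4, nat_lit 5, nat_lit 5, nat_lit 20], false, nat_lit 160, nat_lit 276, nat_lit 160, nat_lit 300, ⟨nat_lit 217, nat_lit 783, nat_lit 0, nat_lit 8, nat_lit 329, nat_lit 783, nat_lit 167, nat_lit 0, nat_lit 0, nat_lit 0, nat_lit 0, nat_lit 0, nat_lit 0, nat_lit 0, nat_lit 0, nat_lit 5000000, true, true⟩,
 nat_lit 0, nat_lit 0, nat_lit 1864, nat_lit 0, nat_lit 2987, nat_lit 1397, nat_lit 325, nat_lit 0, nat_lit 0, nat_lit 73, nat_lit 0, nat_lit 0, nat_lit 0, nat_lit 0, nat_lit 0, nat_lit 313200, nat_lit 0, nat_lit 0, [(nat_lit 21, [(nat_lit 1, nat_lit 783)])],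
 ⟨p100_k14, nat_lit 0, nat_lit 0, nat_lit 86, nat_lit 0, nat_lit 0, [nat_lit 1502065601, nat_lit 2179268000], [], [nat_lit 22048327832, nat_lit 23126996026, nat_lit 28728475368, nat_lit 29482309290, nat_lit 25226838296, nat_lit 26114830181, nat_lit 30770561014, nat_lit 31512381436], nat_lit 0, nat_lit 0, nat_lit 0, nat_lit 0, nat_lit 0, nat_lit 0, [], [nat_lit 24, nat_lit 40, nat_lit 40, nat_lit 80, nat_lit 33, nat_lit 203, nat_lit 0, nat_lit 7]⟩, ⟨p100_k4, nat_lit 0, nat_lit 0, nat_lit 568, nat_lit 0, nat_lit 1361450, [nat_lit 440944000, nat_lit 1017296000, nat_lit 1356250000], [], [nat_lit 6616300372, nat_lit 6650809796, nat_lit 7456826828, nat_lit 7479426701, nat_lit 6957753362, nat_lit 6983628244, nat_lit 7566009987, nat_lit 7587588712], nat_lit 1271250, nat_lit 1271250, nat_lit 1271250, nat_lit 1271250, nat_lit 1100001, nat_lit 2298750, [nat_lit 490000, nat_lit 1100000, nat_lit 1442500], [nat_lit 6, nat_lit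 40, nat_lit 40, nat_lit 80, nat_lit 3, nat_lit 289, nat_lit 75, nat_lit 9]⟩,
 ⟨nat_lit 3162, nat_lit 3873, ⟨.ofNat (nat_lit 695141), .ofNat (nat_lit 953347), .ofNat (nat_lit 700582), .ofNat (nat_lit 958791), .ofNat (nat_lit 693742), .ofNat (nat_lit 937676), .ofNat (nat_lit 699274), .ofNat (nat_lit 943210)⟩, ⟨.ofNat (nat_lit 304717), .ofNat (nat_lit 491830), .ofNat (nat_lit 348304), .ofNat (nat_lit 535416), .ofNat (nat_lit 306116), .ofNat (nat_lit 482881), .ofNat (nat_lit 350426), .ofNat (nat_lit 527190)⟩⟩, [⟨nat_lit 13, nat_lit 91, nat_lit 13, nat_lit 100, nat_lit 143924960⟩, ⟨nat_lit 16, nat_lit 77, nat_lit 100, nat_lit 99, nat_lit 270370027⟩, ⟨nat_lit 19, nat_lit 87, nat_lit 95, nat_lit 100, nat_lit 59079162⟩]⟩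
noncomputable def p100_l90 : Lf2 := ⟨nat_lit 0, nat_lit 5, [nat_lit 4, nat_lit 5, nat_lit 5, nat_lit 20], false, nat_lit 160, nat_lit 276, nat_lit 160, nat_lit 296, ⟨nat_lit 699, nat_lit 301, nat_lit 0, nat_lit 8, nat_lit 331, nat_lit 301, nat_lit 167, nat_lit 0, nat_lit 0, nat_lit 0, nat_lit 0, nat_lit 0, nat_lit 0, nat_lit 0, nat_lit 0, nat_lit 5000000, true, false⟩,
 nat_lit 0, nat_lit 0, nat_lit 4757, nat_lit 0, nat_lit 3675, nat_lit 3637, nat_lit 261, nat_lit 0, nat_lit 0, nat_lit 1371, nat_lit 0, nat_lit 0, nat_lit 0, nat_lit 0, nat_lit 0, nat_lit 301000, nat_lit 0, nat_lit 0, [(nat_lit 21, [(nat_lit 2, nat_lit 301)])],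
 ⟨p100_k14, nat_lit 0, nat_lit 0, nat_lit 86, nat_lit 0, nat_lit 0, [nat_lit 1842129201, nat_lit 3148686000], [], [nat_lit 22498457976, nat_lit 23679680826, nat_lit 29680658376, nat_lit 30485408426, nat_lit 25751284962, nat_lit 26712163292, nat_lit 31617784004, nat_lit 32392130476], nat_lit 0, nat_lit 0, nat_lit 0, nat_lit 0, nat_lit 0, nat_lit 0, [], [nat_lit 24, nat_lit 40, nat_lit 40, nat_lit 80, nat_lit 33, nat_lit 203, nat_lit 0, nat_lit 7]⟩, ⟨p100_k6, nat_lit 0, nat_lit 0, nat_lit 514, nat_lit 0, nat_lit 1357757, [nat_lit 1420368000, nat_lit 3276912000], [], [nat_lit 19957053452, nat_lit 20067322247, nat_lit 22727258788, nat_lit 22804086515, nat_lit 21285629982, nat_lit 21372155208, nat_lit 23420592722, nat_lit 23483580075], nat_lit 1271250, nat_lit 1271250, nat_lit 1271250, nat_lit 1271250, nat_lit 1100001, nat_lit 2264500, [nat_lit 490000, nat_lit 1100000], [nat_lit 24, nat_lit 40, nat_lit 40, nat_lit 80,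 nat_lit 33, nat_lit 257, nat_lit 0, nat_lit 10]⟩,
 ⟨nat_lit 3162, nat_lit 3873, ⟨.ofNat (nat_lit 700582), .ofNat (nat_lit 958791), .ofNat (nat_lit 706023), .ofNat (nat_lit 964233), .ofNat (nat_lit 699274), .ofNat (nat_lit 943210), .ofNat (nat_lit 704805), .ofNat (nat_lit 948743)⟩, ⟨.ofNat (nat_lit 304717), .ofNat (nat_lit 491830), .ofNat (nat_lit 348304), .ofNat (nat_lit 535416), .ofNat (nat_lit 306116), .ofNat (nat_lit 482881), .ofNat (nat_lit 350426), .ofNat (nat_lit 527190)⟩⟩, [⟨nat_lit 16, nat_lit 67, nat_lit 100, nat_lit 88, nat_lit 436932345⟩, ⟨nat_lit 19, nat_lit 85, nat_lit 97, nat_lit 100, nat_lit 209101114⟩]⟩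
noncomputable def p100_l91 : Lf2 := ⟨nat_lit 0, nat_lit 10, [nat_lit 0, nat_lit 5, nat_lit 5, nat_lit 20], false, nat_lit 160, nat_lit 276, nat_lit 160, nat_lit 300, ⟨nat_lit 437, nat_lit 563, nat_lit 0, nat_lit 8, nat_lit 330, nat_lit 563, nat_lit 167, nat_lit 0, nat_lit 0, nat_lit 0, nat_lit 0, nat_lit 0, nat_lit 0, nat_lit 0, nat_lit 0, nat_lit 5000000, true, true⟩,
 nat_lit 0, nat_lit 0, nat_lit 3639, nat_lit 0, nat_lit 3314, nat_lit 2729, nat_lit 344, nat_lit 0, nat_lit 0, nat_lit 153, nat_lit 0, nat_lit 0, nat_lit 0, nat_lit 0, nat_lit 0, nat_lit 225200, nat_lit 0, nat_lit 0, [(nat_lit 21, [(nat_lit 1, nat_lit 563)])],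
 ⟨p100_k2, nat_lit 0, nat_lit 0, nat_lit 100, nat_lit 0, nat_lit 0, [nat_lit 1650961601, nat_lit 2889102401, nat_lit 3571246000], [], [nat_lit 22813746293, nat_lit 23873712129, nat_lit 29336747697, nat_lit 30073175313, nat_lit 25822012851, nat_lit 26692261985, nat_lit 31283376935, nat_lit 31931846739], nat_lit 0, nat_lit 0, nat_lit 0, nat_lit 0, nat_lit 0, nat_lit 0, [], [nat_lit 6, nat_lit 40, nat_lit 40, nat_lit 80, nat_lit 3, nat_lit 289, nat_lit 75, nat_lit 9]⟩, ⟨p100_k0, nat_lit 0, nat_lit 0, nat_lit 467, nat_lit 0, nat_lit 1105644, [nat_lit 887984000, nat_lit 2048656000, nat_lit 2731250000], [], [nat_lit 12987742088, nat_lit 13142179297, nat_lit 14881029328, nat_lit 14982713203, nat_lit 13800514982, nat_lit 13916842558, nat_lit 15192169558, nat_lit 15278350826], nat_lit 1271250, nat_lit 1271250, nat_lit 1271250, nat_lit 1271250, nat_lit 1100001, nat_lit 2298750, [nat_lit 490000, nat_lit 1100000, nat_lit 1442500],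 [nat_lit 6, nat_lit 40, nat_lit 40, nat_lit 80, nat_lit 3, nat_lit 289, nat_lit 75, nat_lit 9]⟩,
 ⟨nat_lit 3162, nat_lit 3873, ⟨.ofNat (nat_lit 695141), .ofNat (nat_lit 953347), .ofNat (nat_lit 706023), .ofNat (nat_lit 964233), .ofNat (nat_lit 693742), .ofNat (nat_lit 937676), .ofNat (nat_lit 704805), .ofNat (nat_lit 948743)⟩, ⟨.ofNat (nat_lit 304717), .ofNat (nat_lit 491830), .ofNat (nat_lit 348304), .ofNat (nat_lit 535416), .ofNat (nat_lit 306116), .ofNat (nat_lit 482881), .ofNat (nat_lit 350426), .ofNat (nat_lit 527190)⟩⟩, [⟨nat_lit 13, nat_lit 85, nat_lit 22, nat_lit 100, nat_lit 66073216⟩, ⟨nat_lit 4, nat_lit 100, nat_lit 67, nat_lit 88, nat_lit 388565203⟩, ⟨nat_lit 19, nat_lit 87, nat_lit 95, nat_lit 100, nat_lit 122211629⟩]⟩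
noncomputable def p100_l92 : Lf2 := ⟨nat_lit 0, nat_lit 10, [nat_lit 0, nat_lit 5, nat_lit 5, nat_lit 20], false, nat_lit 160, nat_lit 288, nat_lit 160, nat_lit 288, ⟨nat_lit 570, nat_lit 430, nat_lit 0, nat_lit 8, nat_lit 312, nat_lit 430, nat_lit 171, nat_lit 0, nat_lit 0, nat_lit 0, nat_lit 0, nat_lit 0, nat_lit 0, nat_lit 0, nat_lit 0, nat_lit 5000000, true, false⟩,
 nat_lit 0, nat_lit 0, nat_lit 3737, nat_lit 0, nat_lit 4141, nat_lit 2912, nat_lit 406, nat_lit 0, nat_lit 0, nat_lit 765, nat_lit 0, nat_lit 0, nat_lit 0, nat_lit 0, nat_lit 0, nat_lit 107500, nat_lit 0, nat_lit 0, [(nat_lit 18, [(nat_lit 0, nat_lit 430)]), (nat_lit 21, [(nat_lit 0, nat_lit 430)])],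
 ⟨p100_k1, nat_lit 0, nat_lit 0, nat_lit 100, nat_lit 0, nat_lit 0, [nat_lit 1828352001, nat_lit 3604400000, nat_lit 4664160000], [], [nat_lit 20198114054, nat_lit 22196534344, nat_lit 29833261817, nat_lit 31140746398, nat_lit 24397076209, nat_lit 26056262212, nat_lit 32100279950, nat_lit 33294776364], nat_lit 0, nat_lit 0, nat_lit 0, nat_lit 0, nat_lit 0, nat_lit 0, [], [nat_lit 6, nat_lit 40, nat_lit 40, nat_lit 80, nat_lit 3, nat_lit 401, nat_lit 175, nat_lit 14]⟩, ⟨p100_k1, nat_lit 0, nat_lit 0, nat_lit 619, nat_lit 0, nat_lit 1424204, [nat_lit 1158240000, nat_lit 2672160000, nat_lit 3562500000], [], [nat_lit 15551118200, nat_lit 15738271689, nat_lit 18133675634, nat_lit 18250383248, nat_lit 16630581540, nat_lit 16780536012, nat_lit 18952987743, nat_lit 19197247170], nat_lit 1271250, nat_lit 1271250, nat_lit 1271250, nat_lit 1271250, nat_lit 1100001, nat_lit 2196000, [nat_lit 490000, nat_lit 1100000, nat_lit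 1442500], [nat_lit 6, nat_lit 40, nat_lit 40, nat_lit 80, nat_lit 3, nat_lit 401, nat_lit 175, nat_lit 14]⟩,
 ⟨nat_lit 3162, nat_lit 4184, ⟨.ofNat (nat_lit 587413), .ofNat (nat_lit 972009), .ofNat (nat_lit 598218), .ofNat (nat_lit 982822), .ofNat (nat_lit 594828), .ofNat (nat_lit 948671), .ofNat (nat_lit 605877), .ofNat (nat_lit 959728)⟩, ⟨.ofNat (nat_lit 303743), .ofNat (nat_lit 515761), .ofNat (nat_lit 347076), .ofNat (nat_lit 559094), .ofNat (nat_lit 306116), .ofNat (nat_lit 501167), .ofNat (nat_lit 350426), .ofNat (nat_lit 545476)⟩⟩, [⟨nat_lit 4, nat_lit 100, nat_lit 71, nat_lit 89, nat_lit 396935463⟩, ⟨nat_lit 19, nat_lit 83, nat_lit 98, nat_lit 100, nat_lit 194010830⟩]⟩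
noncomputable def b_V_800_800_20_7 : St := ⟨true, nat_lit 0, nat_lit 2, nat_lit 2, nat_lit 120, nat_lit 320, nat_lit 360, nat_lit 320, nat_lit 340, nat_lit 140, nat_lit 400, nat_lit 80, nat_lit 120, nat_lit 0, nat_lit 300, nat_lit 0, nat_lit 300, nat_lit 0, nat_lit 40, nat_lit 0, nat_lit 0, nat_lit 0, nat_lit 0⟩
theorem d_V_800_800_20_7 (h : EB TB.env) : Dead b_V_800_800_20_7 := chkB_sound0 h (T :=
(.st (nat_lit 1)
(.leaf p100_l76)
(.spl (nat_lit 5) (nat_lit 160)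
(.spl (nat_lit 4) (nat_lit 160)
(.leaf p100_l77)
(.spl (nat_lit 1) (nat_lit 330)
(.spl (nat_lit 2) (nat_lit 240)
(.leaf p100_l78)
(.leaf p100_l79))
(.ord (.trZ (nat_lit 0) (nat_lit 77) (nat_lit 77) (nat_lit 100) (nat_lit 168) (.trX (nat_lit 16) (nat_lit 83) (nat_lit 98) (nat_lit 100) (nat_lit 288) (.leaf p100_l80))))))
(.spl (nat_lit 4) (nat_lit 160)
(.leaf p100_l81)
(.spl (nat_lit 1) (nat_lit 330)
(.spl (nat_lit 2) (nat_lit 240)
(.leaf p100_l82)
(.spl (nat_lit 0) (nat_lit 340)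
(.spl (nat_lit 1) (nat_lit 325)
(.spl (nat_lit 6) (nat_lit 20)
(.spl (nat_lit 4) (nat_lit 240)
(.leaf p100_l83)
(.spl (nat_lit 0) (nat_lit 330)
(.spl (nat_lit 3) (nat_lit 100)
(.trX (nat_lit 16) (nat_lit 87) (nat_lit 100) (nat_lit 94) (nat_lit 280) (.trX (nat_lit 19) (nat_lit 87) (nat_lit 100) (nat_lit 94) (nat_lit 280) (.leaf p100_l84)))
(.leaf p100_l85))
(.trX (nat_lit 16) (nat_lit 83) (nat_lit 98) (nat_lit 100) (nat_lit 288) (.leaf p100_l86))))
(.leaf p100_l87))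
(.ord (.trX (nat_lit 16) (nat_lit 85) (nat_lit 97) (nat_lit 100) (nat_lit 296) (.trX (nat_lit 19) (nat_lit 85) (nat_lit 97) (nat_lit 100) (nat_lit 296) (.leaf p100_l88)))))
(.trX (nat_lit 16) (nat_lit 77) (nat_lit 100) (nat_lit 99) (nat_lit 276) (.spl (nat_lit 6) (nat_lit 20)
(.spl (nat_lit 1) (nat_lit 325)
(.leaf p100_l89)
(.trX (nat_lit 19) (nat_lit 85) (nat_lit 97) (nat_lit 100) (nat_lit 296) (.leaf p100_l90)))
(.leaf p100_l91)))))
(.ord (.trZ (nat_lit 0) (nat_lit 77) (nat_lit 77) (nat_lit 100) (nat_lit 168) (.trX (nat_lit 16) (nat_lit 83) (nat_lit 98) (nat_lit 100) (nat_lit 288) (.trX (nat_lit 19) (nat_lit 83) (nat_lit 98) (nat_lit 100) (nat_lit 288) (.leaf p100_l92)))))))))) (by decide +kernel)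
noncomputable def p100_l93 : Lf2 := ⟨nat_lit 0, nat_lit 10, [nat_lit 0, nat_lit 5, nat_lit 5, nat_lit 20], false, nat_lit 0, nat_lit 160, nat_lit 0, nat_lit 160, ⟨nat_lit 1000, nat_lit 0, nat_lit 0, nat_lit 0, nat_lit 0, nat_lit 0, nat_lit 0, nat_lit 0, nat_lit 0, nat_lit 0, nat_lit 0, nat_lit 0, nat_lit 0, nat_lit 0, nat_lit 0, nat_lit 0, false, false⟩,
 nat_lit 0, nat_lit 10329, nat_lit 0, nat_lit 0, nat_lit 7746, nat_lit 6600, nat_lit 458, nat_lit 0, nat_lit 0, nat_lit 689, nat_lit 0, nat_lit 0, nat_lit 0, nat_lit 0, nat_lit 0, nat_lit 0, nat_lit 0, nat_lit 0, [],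
 ⟨p100_k0, nat_lit 0, nat_lit 0, nat_lit 578, nat_lit 0, nat_lit 1130711, [nat_lit 2032000001, nat_lit 4688000000, nat_lit 6250000000], [], [nat_lit 25955650804, nat_lit 26421797527, nat_lit 26990434080, nat_lit 28351730002, nat_lit 22536647740, nat_lit 22948331239, nat_lit 23678836666, nat_lit 23670392816], nat_lit 1271250, nat_lit 1271250, nat_lit 936251, nat_lit 1773750, nat_lit 0, nat_lit 1100001, [nat_lit 490000, nat_lit 1100000, nat_lit 1442500], [nat_lit 6, nat_lit 40, nat_lit 40, nat_lit 80, nat_lit 3, nat_lit 317, nat_lit 100, nat_lit 12]⟩, ⟨p100_k0, nat_lit 0, nat_lit 0, nat_lit 120, nat_lit 0, nat_lit 0, [nat_lit 2032000000, nat_lit 4688000000, nat_lit 6250000000], [], [nat_lit 21317794400, nat_lit 22817188900, nat_lit 25298388000, nat_lit 26518202200, nat_lit 17157122800, nat_lit 18129833900, nat_lit 20332524800, nat_lit 21196021400], nat_lit 0, nat_lit 0, nat_lit 0, nat_lit 0, nat_lit 0, nat_lit 0,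 [], [nat_lit 6, nat_lit 40, nat_lit 40, nat_lit 80, nat_lit 3, nat_lit 317, nat_lit 100, nat_lit 12]⟩,
 zbF0, [⟨nat_lit 0, nat_lit 77, nat_lit 77, nat_lit 100, nat_lit 421564251⟩]⟩
noncomputable def p100_l94 : Lf2 := ⟨nat_lit 0, nat_lit 10, [nat_lit 0, nat_lit 5, nat_lit 5, nat_lit 20], false, nat_lit 160, nat_lit 300, nat_lit 0, nat_lit 160, ⟨nat_lit 1000, nat_lit 0, nat_lit 0, nat_lit 0, nat_lit 0, nat_lit 0, nat_lit 0, nat_lit 0, nat_lit 0, nat_lit 0, nat_lit 0, nat_lit 0, nat_lit 0, nat_lit 0, nat_lit 0, nat_lit 0, false, false⟩,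
 nat_lit 0, nat_lit 8275, nat_lit 0, nat_lit 0, nat_lit 6206, nat_lit 6600, nat_lit 2294, nat_lit 0, nat_lit 0, nat_lit 708, nat_lit 0, nat_lit 0, nat_lit 0, nat_lit 33573972153964, nat_lit 0, nat_lit 0, nat_lit 0, nat_lit 0, [],
 ⟨p100_k0, nat_lit 0, nat_lit 0, nat_lit 492, nat_lit 0, nat_lit 1130711, [nat_lit 2032000001, nat_lit 4688000000, nat_lit 6250000000], [], [nat_lit 27847282790, nat_lit 28262236001, nat_lit 28971957858, nat_lit 29321210630, nat_lit 30551649736, nat_lit 30916254989, nat_lit 31230350808, nat_lit 31535946923], nat_lit 1271250, nat_lit 1271250, nat_lit 936251, nat_lit 1773750, nat_lit 1100001, nat_lit 2298750, [nat_lit 490000, nat_lit 1100000, nat_lit 1442500], [nat_lit 6, nat_lit 40, nat_lit 40, nat_lit 80, nat_lit 3, nat_lit 373, nat_lit 150, nat_lit 13]⟩, ⟨p100_k0, nat_lit 0, nat_lit 0, nat_lit 120, nat_lit 0, nat_lit 0, [nat_lit 2032000000, nat_lit 4688000000, nat_lit 6250000000], [],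 [nat_lit 21317794400, nat_lit 22817188900, nat_lit 25298388000, nat_lit 26518202200, nat_lit 17081122800, nat_lit 18129538800, nat_lit 20332524800, nat_lit 21196021400], nat_lit 0, nat_lit 0, nat_lit 0, nat_lit 0, nat_lit 0, nat_lit 0, [], [nat_lit 6, nat_lit 40, nat_lit 40, nat_lit 80, nat_lit 3, nat_lit 317, nat_lit 100, nat_lit 12]⟩,
 zbF0, [⟨nat_lit 0, nat_lit 77, nat_lit 77, nat_lit 100, nat_lit 393211869⟩, ⟨nat_lit 16, nat_lit 84, nat_lit 100, nat_lit 93, nat_lit 402496231⟩]⟩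
noncomputable def p100_l95 : Lf2 := ⟨nat_lit 0, nat_lit 10, [nat_lit 0, nat_lit 5, nat_lit 5, nat_lit 20], false, nat_lit 0, nat_lit 288, nat_lit 0, nat_lit 160, ⟨nat_lit 1000, nat_lit 0, nat_lit 0, nat_lit 0, nat_lit 0, nat_lit 0, nat_lit 0, nat_lit 0, nat_lit 0, nat_lit 0, nat_lit 0, nat_lit 0, nat_lit 0, nat_lit 0, nat_lit 0, nat_lit 0, false, false⟩,
 nat_lit 0, nat_lit 6936, nat_lit 0, nat_lit 0, nat_lit 5406, nat_lit 6200, nat_lit 1824, nat_lit 0, nat_lit 0, nat_lit 660, nat_lit 0, nat_lit 0, nat_lit 0, nat_lit 23780618840294, nat_lit 0, nat_lit 0, nat_lit 0, nat_lit 0, [],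
 ⟨p100_k1, nat_lit 0, nat_lit 0, nat_lit 627, nat_lit 0, nat_lit 1234683, [nat_lit 2032000001, nat_lit 4688000000, nat_lit 6250000000], [], [nat_lit 23248019293, nat_lit 23701909009, nat_lit 24705228393, nat_lit 25680283964, nat_lit 24560256077, nat_lit 24862192728, nat_lit 27343435826, nat_lit 26182536249], nat_lit 1271250, nat_lit 1271250, nat_lit 1066650, nat_lit 1782750, nat_lit 0, nat_lit 2034000, [nat_lit 490000, nat_lit 1100000, nat_lit 1442500], [nat_lit 6, nat_lit 40, nat_lit 40, nat_lit 80, nat_lit 3, nat_lit 373, nat_lit 150, nat_lit 14]⟩, ⟨p100_k0, nat_lit 0, nat_lit 0, nat_lit 126, nat_lit 0, nat_lit 0, [nat_lit 2032000000, nat_lit 4688000000, nat_lit 6250000000], [], [nat_lit 21296429760, nat_lit 23776683000, nat_lit 24707796000, nat_lit 27048658800, nat_lit 17874355761, nat_lit 19696951840, nat_lit 20699257600, nat_lit 22361582000], nat_lit 0, nat_lit 0, nat_lit 0, nat_lit 0, nat_lit 0, nat_lit 0,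 [], [nat_lit 6, nat_lit 40, nat_lit 40, nat_lit 80, nat_lit 3, nat_lit 317, nat_lit 100, nat_lit 12]⟩,
 zbF0, [⟨nat_lit 0, nat_lit 71, nat_lit 71, nat_lit 100, nat_lit 426918326⟩, ⟨nat_lit 16, nat_lit 77, nat_lit 100, nat_lit 91, nat_lit 267395598⟩]⟩
noncomputable def p100_l96 : Lf2 := ⟨nat_lit 0, nat_lit 10, [nat_lit 0, nat_lit 5, nat_lit 5, nat_lit 20], false, nat_lit 0, nat_lit 276, nat_lit 0, nat_lit 160, ⟨nat_lit 1000, nat_lit 0, nat_lit 0, nat_lit 0, nat_lit 0, nat_lit 0, nat_lit 0, nat_lit 0, nat_lit 0, nat_lit 0, nat_lit 0, nat_lit 0, nat_lit 0, nat_lit 0, nat_lit 0, nat_lit 0, false, false⟩,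
 nat_lit 0, nat_lit 6165, nat_lit 0, nat_lit 0, nat_lit 4990, nat_lit 6200, nat_lit 1222, nat_lit 0, nat_lit 0, nat_lit 911, nat_lit 0, nat_lit 0, nat_lit 0, nat_lit 0, nat_lit 0, nat_lit 0, nat_lit 0, nat_lit 0, [],
 ⟨p100_k2, nat_lit 0, nat_lit 0, nat_lit 659, nat_lit 0, nat_lit 1317316, [nat_lit 2032000001, nat_lit 4688000000, nat_lit 6250000000], [], [nat_lit 24773290890, nat_lit 25659714630, nat_lit 26139422980, nat_lit 27012339011, nat_lit 26629515409, nat_lit 27378134201, nat_lit 27675708224, nat_lit 28341807690], nat_lit 1271250, nat_lit 1271250, nat_lit 1167600, nat_lit 1789500, nat_lit 0, nat_lit 1949250, [nat_lit 490000, nat_lit 1100000, nat_lit 1442500], [nat_lit 6, nat_lit 40, nat_lit 40, nat_lit 80, nat_lit 3, nat_lit 373, nat_lit 150, nat_lit 14]⟩, ⟨p100_k0, nat_lit 0, nat_lit 0, nat_lit 126, nat_lit 0, nat_lit 0, [nat_lit 2032000000, nat_lit 4688000000, nat_lit 6250000000], [], [nat_lit 21328203201,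 nat_lit 24055179681, nat_lit 24707796000, nat_lit 27048658800, nat_lit 18037422400, nat_lit 19960227680, nat_lit 20699257600, nat_lit 22361582000], nat_lit 0, nat_lit 0, nat_lit 0, nat_lit 0, nat_lit 0, nat_lit 0, [], [nat_lit 6, nat_lit 40, nat_lit 40, nat_lit 80, nat_lit 3, nat_lit 317, nat_lit 100, nat_lit 12]⟩,
 zbF0, [⟨nat_lit 0, nat_lit 76, nat_lit 66, nat_lit 100, nat_lit 210573222⟩, ⟨nat_lit 0, nat_lit 72, nat_lit 61, nat_lit 100, nat_lit 245228438⟩, ⟨nat_lit 16, nat_lit 67, nat_lit 100, nat_lit 88, nat_lit 337258575⟩]⟩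
noncomputable def b_V_800_800_20_8 : St := ⟨true, nat_lit 1, nat_lit 0, nat_lit 1, nat_lit 120, nat_lit 320, nat_lit 360, nat_lit 320, nat_lit 340, nat_lit 140, nat_lit 240, nat_lit 80, nat_lit 120, nat_lit 0, nat_lit 300, nat_lit 0, nat_lit 160, nat_lit 0, nat_lit 40, nat_lit 0, nat_lit 0, nat_lit 0, nat_lit 0⟩
theorem d_V_800_800_20_8 (h : EB TB.env) : Dead b_V_800_800_20_8 := chkB_sound0 h (T :=
(.spl (nat_lit 0) (nat_lit 340)
(.spl (nat_lit 0) (nat_lit 330)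
(.ord (.spl (nat_lit 4) (nat_lit 160)
(.leaf p100_l93)
(.leaf p100_l94)))
(.trZ (nat_lit 0) (nat_lit 82) (nat_lit 78) (nat_lit 100) (nat_lit 156) (.trX (nat_lit 16) (nat_lit 83) (nat_lit 98) (nat_lit 100) (nat_lit 288) (.leaf p100_l95))))
(.trZ (nat_lit 0) (nat_lit 81) (nat_lit 72) (nat_lit 100) (nat_lit 168) (.trX (nat_lit 16) (nat_lit 77) (nat_lit 100) (nat_lit 99) (nat_lit 276) (.leaf p100_l96))))) (by decide +kernel)
noncomputable def p100_l97 : Lf2 := ⟨nat_lit 0, nat_lit 10, [nat_lit 0, nat_lit 5, nat_lit 5, nat_lit 20], false, nat_lit 0, nat_lit 160, nat_lit 160, nat_lit 300, ⟨nat_lit 1000, nat_lit 0, nat_lit 0, nat_lit 0, nat_lit 0, nat_lit 0, nat_lit 0, nat_lit 0, nat_lit 0, nat_lit 0, nat_lit 0, nat_lit 0, nat_lit 0, nat_lit 0, nat_lit 0, nat_lit 0, false, false⟩,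
 nat_lit 0, nat_lit 11157, nat_lit 0, nat_lit 0, nat_lit 8367, nat_lit 3785, nat_lit 455, nat_lit 0, nat_lit 0, nat_lit 0, nat_lit 0, nat_lit 0, nat_lit 0, nat_lit 0, nat_lit 0, nat_lit 0, nat_lit 0, nat_lit 0, [],
 ⟨p100_k0, nat_lit 0, nat_lit 0, nat_lit 530, nat_lit 0, nat_lit 1011833, [nat_lit 2032000001, nat_lit 4688000000, nat_lit 6250000000], [], [nat_lit 23675491898, nat_lit 24209430492, nat_lit 27907328160, nat_lit 28338716976, nat_lit 19396569730, nat_lit 19525832564, nat_lit 22228433830, nat_lit 21674522533], nat_lit 1271250, nat_lit 1271250, nat_lit 936251, nat_lit 1773750, nat_lit 0, nat_lit 1100001, [nat_lit 490000, nat_lit 1100000, nat_lit 1442500], [nat_lit 6, nat_lit 40, nat_lit 40, nat_lit 80, nat_lit 3, nat_lit 317, nat_lit 100, nat_lit 12]⟩, ⟨p100_k0, nat_lit 0, nat_lit 0, nat_lit 41, nat_lit 0, nat_lit 0, [nat_lit 2032000000, nat_lit 4688000000, nat_lit 6250000000], [], [nat_lit 16171092270,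 nat_lit 16424028737, nat_lit 19477871420, nat_lit 19689523085, nat_lit 22278019223, nat_lit 22467899332, nat_lit 24545918130, nat_lit 24708594592], nat_lit 0, nat_lit 0, nat_lit 0, nat_lit 0, nat_lit 0, nat_lit 0, [], [nat_lit 6, nat_lit 40, nat_lit 40, nat_lit 80, nat_lit 3, nat_lit 373, nat_lit 150, nat_lit 13]⟩,
 zbF0, [⟨nat_lit 0, nat_lit 81, nat_lit 81, nat_lit 100, nat_lit 166584685⟩, ⟨nat_lit 7, nat_lit 100, nat_lit 86, nat_lit 94, nat_lit 538693483⟩]⟩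
noncomputable def p100_l98 : Lf2 := ⟨nat_lit 0, nat_lit 10, [nat_lit 0, nat_lit 5, nat_lit 5, nat_lit 20], false, nat_lit 0, nat_lit 160, nat_lit 160, nat_lit 300, ⟨nat_lit 1000, nat_lit 0, nat_lit 0, nat_lit 0, nat_lit 0, nat_lit 0, nat_lit 0, nat_lit 0, nat_lit 0, nat_lit 0, nat_lit 0, nat_lit 0, nat_lit 0, nat_lit 0, nat_lit 0, nat_lit 0, false, false⟩,
 nat_lit 0, nat_lit 9476, nat_lit 0, nat_lit 0, nat_lit 7190, nat_lit 3782, nat_lit 3457, nat_lit 0, nat_lit 0, nat_lit 0, nat_lit 0, nat_lit 0, nat_lit 0, nat_lit 16225080938675, nat_lit 0, nat_lit 0, nat_lit 0, nat_lit 0, [],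
 ⟨p100_k9, nat_lit 0, nat_lit 0, nat_lit 536, nat_lit 0, nat_lit 1028717, [nat_lit 2032000001, nat_lit 4688000000, nat_lit 6250000000], [], [nat_lit 22618902534, nat_lit 22935417055, nat_lit 26557307350, nat_lit 26815838115, nat_lit 18163803633, nat_lit 18248745085, nat_lit 20216627640, nat_lit 20434644600], nat_lit 1271250, nat_lit 1271250, nat_lit 968401, nat_lit 1776000, nat_lit 0, nat_lit 1100001, [nat_lit 490000, nat_lit 1100000, nat_lit 1442500], [nat_lit 6, nat_lit 40, nat_lit 40, nat_lit 80, nat_lit 3, nat_lit 317, nat_lit 100, nat_lit 12]⟩, ⟨p100_k0, nat_lit 0, nat_lit 0, nat_lit 42, nat_lit 0, nat_lit 0, [nat_lit 2032000000, nat_lit 4688000000, nat_lit 6250000000], [], [nat_lit 16257248889, nat_lit 16676113697, nat_lit 19479833384, nat_lit 19832445414, nat_lit 22328274864, nat_lit 22642886029, nat_lit 24546910476, nat_lit 24819831974], nat_lit 0, nat_lit 0, nat_lit 0, nat_lit 0, nat_lit 0, nat_lit 0,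 [], [nat_lit 6, nat_lit 40, nat_lit 40, nat_lit 80, nat_lit 3, nat_lit 373, nat_lit 150, nat_lit 13]⟩,
 zbF0, [⟨nat_lit 0, nat_lit 80, nat_lit 80, nat_lit 100, nat_lit 170426780⟩, ⟨nat_lit 7, nat_lit 100, nat_lit 85, nat_lit 94, nat_lit 541591700⟩]⟩
noncomputable def p100_l99 : Lf2 := ⟨nat_lit 0, nat_lit 10, [nat_lit 0, nat_lit 5, nat_lit 5, nat_lit 20], false, nat_lit 0, nat_lit 160, nat_lit 160, nat_lit 300, ⟨nat_lit 1000, nat_lit 0, nat_lit 0, nat_lit 0, nat_lit 0, nat_lit 0, nat_lit 0, nat_lit 0, nat_lit 0, nat_lit 0, nat_lit 0, nat_lit 0, nat_lit 0, nat_lit 0, nat_lit 0, nat_lit 0, false, false⟩,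
 nat_lit 0, nat_lit 8502, nat_lit 0, nat_lit 0, nat_lit 6501, nat_lit 3768, nat_lit 3087, nat_lit 0, nat_lit 0, nat_lit 0, nat_lit 0, nat_lit 0, nat_lit 0, nat_lit 0, nat_lit 0, nat_lit 0, nat_lit 0, nat_lit 0, [],
 ⟨p100_k3, nat_lit 0, nat_lit 0, nat_lit 564, nat_lit 0, nat_lit 1100573, [nat_lit 2032000001, nat_lit 4688000000, nat_lit 6250000000], [], [nat_lit 22009467201, nat_lit 22741699654, nat_lit 25756012459, nat_lit 26359808437, nat_lit 17870723978, nat_lit 18058474337, nat_lit 20281004490, nat_lit 20791314400], nat_lit 1271250, nat_lit 1271250, nat_lit 1000851, nat_lit 1778250, nat_lit 0, nat_lit 1100001, [nat_lit 490000, nat_lit 1100000, nat_lit 1442500], [nat_lit 6, nat_lit 40, nat_lit 40, nat_lit 80, nat_lit 3, nat_lit 317, nat_lit 100, nat_lit 12]⟩, ⟨p100_k0, nat_lit 0, nat_lit 0, nat_lit 43, nat_lit 0, nat_lit 0, [nat_lit 2032000000, nat_lit 4688000000, nat_lit 6250000000], [], [nat_lit 16352279728,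 nat_lit 17183318709, nat_lit 19488989216, nat_lit 20192899656, nat_lit 22381935966, nat_lit 23006591315, nat_lit 24551541424, nat_lit 25093846716], nat_lit 0, nat_lit 0, nat_lit 0, nat_lit 0, nat_lit 0, nat_lit 0, [], [nat_lit 6, nat_lit 40, nat_lit 40, nat_lit 80, nat_lit 3, nat_lit 373, nat_lit 150, nat_lit 13]⟩,
 zbF0, [⟨nat_lit 0, nat_lit 77, nat_lit 77, nat_lit 100, nat_lit 183221029⟩, ⟨nat_lit 7, nat_lit 100, nat_lit 84, nat_lit 93, nat_lit 547362716⟩]⟩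
noncomputable def p100_l100 : Lf2 := ⟨nat_lit 0, nat_lit 10, [nat_lit 0, nat_lit 5, nat_lit 5, nat_lit 20], false, nat_lit 0, nat_lit 160, nat_lit 160, nat_lit 300, ⟨nat_lit 1000, nat_lit 0, nat_lit 0, nat_lit 0, nat_lit 0, nat_lit 0, nat_lit 0, nat_lit 0, nat_lit 0, nat_lit 0, nat_lit 0, nat_lit 0, nat_lit 0, nat_lit 0, nat_lit 0, nat_lit 0, false, false⟩,
 nat_lit 0, nat_lit 7275, nat_lit 0, nat_lit 0, nat_lit 5671, nat_lit 3818, nat_lit 2465, nat_lit 0, nat_lit 0, nat_lit 0, nat_lit 0, nat_lit 0, nat_lit 0, nat_lit 0, nat_lit 0, nat_lit 0, nat_lit 0, nat_lit 0, [],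
 ⟨p100_k1, nat_lit 0, nat_lit 0, nat_lit 627, nat_lit 0, nat_lit 1234683, [nat_lit 2032000001, nat_lit 4688000000, nat_lit 6250000000], [], [nat_lit 21610992743, nat_lit 22928564279, nat_lit 25031860727, nat_lit 26136983374, nat_lit 19423840700, nat_lit 19867818017, nat_lit 21019058500, nat_lit 21501331620], nat_lit 1271250, nat_lit 1271250, nat_lit 1066650, nat_lit 1782750, nat_lit 0, nat_lit 1100001, [nat_lit 490000, nat_lit 1100000, nat_lit 1442500], [nat_lit 6, nat_lit 40, nat_lit 40, nat_lit 80, nat_lit 3, nat_lit 317, nat_lit 100, nat_lit 12]⟩, ⟨p100_k0, nat_lit 0, nat_lit 0, nat_lit 47, nat_lit 0, nat_lit 0, [nat_lit 2032000000, nat_lit 4688000000, nat_lit 6250000000], [], [nat_lit 16479269660, nat_lit 18132946076, nat_lit 19456289816, nat_lit 20873493696, nat_lit 22464787209, nat_lit 23774909709, nat_lit 24556101250, nat_lit 25689052757], nat_lit 0, nat_lit 0, nat_lit 0, nat_lit 0, nat_lit 0, nat_lit 0,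 [], [nat_lit 6, nat_lit 40, nat_lit 40, nat_lit 80, nat_lit 3, nat_lit 373, nat_lit 150, nat_lit 13]⟩,
 zbF0, [⟨nat_lit 0, nat_lit 77, nat_lit 74, nat_lit 100, nat_lit 429384320⟩, ⟨nat_lit 7, nat_lit 100, nat_lit 81, nat_lit 92, nat_lit 525516158⟩]⟩
noncomputable def p100_l101 : Lf2 := ⟨nat_lit 0, nat_lit 10, [nat_lit 0, nat_lit 5, nat_lit 5, nat_lit 20], false, nat_lit 0, nat_lit 160, nat_lit 160, nat_lit 300, ⟨nat_lit 1000, nat_lit 0, nat_lit 0, nat_lit 0, nat_lit 0, nat_lit 0, nat_lit 0, nat_lit 0, nat_lit 0, nat_lit 0, nat_lit 0, nat_lit 0, nat_lit 0, nat_lit 0, nat_lit 0, nat_lit 0, false, false⟩,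
 nat_lit 0, nat_lit 6794, nat_lit 0, nat_lit 0, nat_lit 5499, nat_lit 3824, nat_lit 1187, nat_lit 0, nat_lit 0, nat_lit 0, nat_lit 0, nat_lit 0, nat_lit 0, nat_lit 0, nat_lit 0, nat_lit 0, nat_lit 0, nat_lit 0, [],
 ⟨p100_k2, nat_lit 0, nat_lit 0, nat_lit 659, nat_lit 0, nat_lit 1317316, [nat_lit 2032000001, nat_lit 4688000000, nat_lit 6250000000], [], [nat_lit 22938086830, nat_lit 25465342797, nat_lit 25840559606, nat_lit 28008335692, nat_lit 21167985412, nat_lit 22027530822, nat_lit 22478905437, nat_lit 23325297207], nat_lit 1271250, nat_lit 1271250, nat_lit 1167600, nat_lit 1789500, nat_lit 0, nat_lit 1100001, [nat_lit 490000, nat_lit 1100000, nat_lit 1442500], [nat_lit 6, nat_lit 40, nat_lit 40, nat_lit 80, nat_lit 3, nat_lit 317, nat_lit 100, nat_lit 12]⟩, ⟨p100_k0, nat_lit 0, nat_lit 0, nat_lit 45, nat_lit 0, nat_lit 0, [nat_lit 2032000000, nat_lit 4688000000, nat_lit 6250000000], [], [nat_lit 16811717786,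 nat_lit 18434600653, nat_lit 19452365888, nat_lit 20870695728, nat_lit 22683337152, nat_lit 23970629793, nat_lit 24559156000, nat_lit 25692893276], nat_lit 0, nat_lit 0, nat_lit 0, nat_lit 0, nat_lit 0, nat_lit 0, [], [nat_lit 6, nat_lit 40, nat_lit 40, nat_lit 80, nat_lit 3, nat_lit 373, nat_lit 150, nat_lit 13]⟩,
 zbF0, [⟨nat_lit 0, nat_lit 76, nat_lit 66, nat_lit 100, nat_lit 463189928⟩, ⟨nat_lit 19, nat_lit 81, nat_lit 100, nat_lit 92, nat_lit 95362669⟩, ⟨nat_lit 19, nat_lit 87, nat_lit 95, nat_lit 100, nat_lit 379100660⟩]⟩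
noncomputable def b_V_800_800_20_9 : St := ⟨true, nat_lit 1, nat_lit 0, nat_lit 1, nat_lit 120, nat_lit 320, nat_lit 360, nat_lit 320, nat_lit 340, nat_lit 140, nat_lit 240, nat_lit 80, nat_lit 120, nat_lit 0, nat_lit 160, nat_lit 160, nat_lit 300, nat_lit 0, nat_lit 40, nat_lit 0, nat_lit 0, nat_lit 0, nat_lit 0⟩
theorem d_V_800_800_20_9 (h : EB TB.env) : Dead b_V_800_800_20_9 := chkB_sound0 h (T :=
(.spl (nat_lit 0) (nat_lit 340)
(.spl (nat_lit 0) (nat_lit 330)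
(.ord (.spl (nat_lit 0) (nat_lit 325)
(.ord (.spl (nat_lit 0) (nat_lit 323)
(.ord (.leaf p100_l97))
(.trZ (nat_lit 0) (nat_lit 83) (nat_lit 82) (nat_lit 100) (nat_lit 144) (.leaf p100_l98))))
(.trZ (nat_lit 0) (nat_lit 83) (nat_lit 81) (nat_lit 100) (nat_lit 148) (.leaf p100_l99))))
(.trZ (nat_lit 0) (nat_lit 82) (nat_lit 78) (nat_lit 100) (nat_lit 156) (.leaf p100_l100)))
(.trZ (nat_lit 0) (nat_lit 81) (nat_lit 72) (nat_lit 100) (nat_lit 168) (.leaf p100_l101)))) (by decide +kernel)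
noncomputable def p100_l102 : Lf2 := ⟨nat_lit 0, nat_lit 2, [nat_lit 10, nat_lit 5, nat_lit 5, nat_lit 20], false, nat_lit 280, nat_lit 300, nat_lit 280, nat_lit 300, ⟨nat_lit 1000, nat_lit 0, nat_lit 0, nat_lit 0, nat_lit 0, nat_lit 0, nat_lit 0, nat_lit 0, nat_lit 0, nat_lit 0, nat_lit 0, nat_lit 0, nat_lit 0, nat_lit 0, nat_lit 0, nat_lit 0, false, false⟩,
 nat_lit 0, nat_lit 0, nat_lit 0, nat_lit 0, nat_lit 0, nat_lit 3802, nat_lit 0, nat_lit 0, nat_lit 462, nat_lit 0, nat_lit 0, nat_lit 0, nat_lit 0, nat_lit 0, nat_lit 0, nat_lit 0, nat_lit 0, nat_lit 0, [],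
 ⟨p100_k5, nat_lit 0, nat_lit 0, nat_lit 0, nat_lit 0, nat_lit 738236, [nat_lit 2032000001, nat_lit 4688000000], [], [nat_lit 19930355000, nat_lit 19957079025, nat_lit 20009373600, nat_lit 20036027570, nat_lit 20429028500, nat_lit 20455271688, nat_lit 20506804800, nat_lit 20533281645], nat_lit 1271250, nat_lit 1271250, nat_lit 936251, nat_lit 968401, nat_lit 1271250, nat_lit 1271250, [nat_lit 490000, nat_lit 1100000], [nat_lit 24, nat_lit 40, nat_lit 40, nat_lit 80]⟩, ⟨p100_k5, nat_lit 0, nat_lit 0, nat_lit 0, nat_lit 0, nat_lit 0, [nat_lit 2032000000, nat_lit 4688000000], [], [nat_lit 21226501430, nat_lit 21293054456, nat_lit 21281543009, nat_lit 21347724152, nat_lit 22277402095, nat_lit 22344256312, nat_lit 22322422216, nat_lit 22388613711], nat_lit 0, nat_lit 0, nat_lit 0, nat_lit 0, nat_lit 0, nat_lit 0, [], [nat_lit 24, nat_lit 40, nat_lit 40, nat_lit 80]⟩,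
 zbF0, [⟨nat_lit 0, nat_lit 83, nat_lit 83, nat_lit 100, nat_lit 520231907⟩, ⟨nat_lit 16, nat_lit 87, nat_lit 95, nat_lit 100, nat_lit 163410876⟩, ⟨nat_lit 19, nat_lit 87, nat_lit 95, nat_lit 100, nat_lit 585177347⟩]⟩
noncomputable def p100_l103 : Lf2 := ⟨nat_lit 0, nat_lit 2, [nat_lit 10, nat_lit 5, nat_lit 5, nat_lit 20], false, nat_lit 280, nat_lit 300, nat_lit 280, nat_lit 300, ⟨nat_lit 1000, nat_lit 0, nat_lit 0, nat_lit 0, nat_lit 0, nat_lit 0, nat_lit 0, nat_lit 0, nat_lit 0, nat_lit 0, nat_lit 0, nat_lit 0, nat_lit 0, nat_lit 0, nat_lit 0, nat_lit 0, false, false⟩,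
 nat_lit 0, nat_lit 0, nat_lit 0, nat_lit 0, nat_lit 0, nat_lit 3802, nat_lit 0, nat_lit 0, nat_lit 462, nat_lit 0, nat_lit 0, nat_lit 0, nat_lit 0, nat_lit 0, nat_lit 0, nat_lit 0, nat_lit 0, nat_lit 0, [],
 ⟨p100_k5, nat_lit 0, nat_lit 0, nat_lit 0, nat_lit 0, nat_lit 738236, [nat_lit 2032000001, nat_lit 4688000000], [], [nat_lit 19930355000, nat_lit 19957079025, nat_lit 20009373600, nat_lit 20036027570, nat_lit 20429028500, nat_lit 20455271688, nat_lit 20506804800, nat_lit 20533281645], nat_lit 1271250, nat_lit 1271250, nat_lit 936251, nat_lit 968401, nat_lit 1271250, nat_lit 1271250, [nat_lit 490000, nat_lit 1100000], [nat_lit 24, nat_lit 40, nat_lit 40, nat_lit 80]⟩, ⟨p100_k5, nat_lit 0, nat_lit 0, nat_lit 0, nat_lit 0, nat_lit 0, [nat_lit 2032000000, nat_lit 4688000000], [], [nat_lit 21226501430, nat_lit 21293054456, nat_lit 21281543009, nat_lit 21347724152, nat_lit 22277402095, nat_lit 22344256312, nat_lit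 22322422216, nat_lit 22388613711], nat_lit 0, nat_lit 0, nat_lit 0, nat_lit 0, nat_lit 0, nat_lit 0, [], [nat_lit 24, nat_lit 40, nat_lit 40, nat_lit 80]⟩,
 zbF0, [⟨nat_lit 0, nat_lit 83, nat_lit 83, nat_lit 100, nat_lit 520231907⟩, ⟨nat_lit 16, nat_lit 87, nat_lit 95, nat_lit 100, nat_lit 163410876⟩, ⟨nat_lit 19, nat_lit 87, nat_lit 95, nat_lit 100, nat_lit 585177347⟩]⟩
noncomputable def p100_l104 : Lf2 := ⟨nat_lit 0, nat_lit 2, [nat_lit 10, nat_lit 5, nat_lit 5, nat_lit 20], false, nat_lit 280, nat_lit 300, nat_lit 280, nat_lit 300, ⟨nat_lit 1000, nat_lit 0, nat_lit 0, nat_lit 0, nat_lit 0, nat_lit 0, nat_lit 0, nat_lit 0, nat_lit 0, nat_lit 0, nat_lit 0, nat_lit 0, nat_lit 0, nat_lit 0, nat_lit 0, nat_lit 0, false, false⟩,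
 nat_lit 0, nat_lit 16706, nat_lit 0, nat_lit 0, nat_lit 12529, nat_lit 3802, nat_lit 0, nat_lit 0, nat_lit 82, nat_lit 0, nat_lit 0, nat_lit 0, nat_lit 0, nat_lit 0, nat_lit 0, nat_lit 0, nat_lit 0, nat_lit 0, [],
 ⟨p100_k5, nat_lit 0, nat_lit 0, nat_lit 0, nat_lit 0, nat_lit 738236, [nat_lit 2032000001, nat_lit 4688000000], [], [nat_lit 5471594466, nat_lit 5554844015, nat_lit 5420351559, nat_lit 5503007653, nat_lit 6617202881, nat_lit 6695718467, nat_lit 6556333267, nat_lit 6642962322], nat_lit 1271250, nat_lit 1271250, nat_lit 936251, nat_lit 968401, nat_lit 1271250, nat_lit 1271250, [nat_lit 490000, nat_lit 1100000], [nat_lit 24, nat_lit 40, nat_lit 40, nat_lit 80]⟩, ⟨p100_k5, nat_lit 0, nat_lit 0, nat_lit 0, nat_lit 0, nat_lit 0, [nat_lit 2032000000, nat_lit 4688000000], [], [nat_lit 21226501430, nat_lit 21293054456, nat_lit 21281543009, nat_lit 21347724152, nat_lit 22277402095, nat_lit 22344256312, nat_lit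 22322422216, nat_lit 22388613711], nat_lit 0, nat_lit 0, nat_lit 0, nat_lit 0, nat_lit 0, nat_lit 0, [], [nat_lit 24, nat_lit 40, nat_lit 40, nat_lit 80]⟩,
 zbF0, [⟨nat_lit 0, nat_lit 83, nat_lit 83, nat_lit 100, nat_lit 1686266482⟩, ⟨nat_lit 16, nat_lit 87, nat_lit 95, nat_lit 100, nat_lit 565235844⟩, ⟨nat_lit 19, nat_lit 87, nat_lit 95, nat_lit 100, nat_lit 585177347⟩]⟩
noncomputable def p100_l105 : Lf2 := ⟨nat_lit 0, nat_lit 2, [nat_lit 10, nat_lit 5, nat_lit 5, nat_lit 20], false, nat_lit 280, nat_lit 300, nat_lit 280, nat_lit 300, ⟨nat_lit 1000, nat_lit 0, nat_lit 0, nat_lit 0, nat_lit 0, nat_lit 0, nat_lit 0, nat_lit 0, nat_lit 0, nat_lit 0, nat_lit 0, nat_lit 0, nat_lit 0, nat_lit 0, nat_lit 0, nat_lit 0, false, false⟩,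
 nat_lit 0, nat_lit 0, nat_lit 0, nat_lit 0, nat_lit 0, nat_lit 3802, nat_lit 0, nat_lit 0, nat_lit 462, nat_lit 0, nat_lit 0, nat_lit 0, nat_lit 0, nat_lit 0, nat_lit 0, nat_lit 0, nat_lit 0, nat_lit 0, [],
 ⟨p100_k5, nat_lit 0, nat_lit 0, nat_lit 0, nat_lit 0, nat_lit 738236, [nat_lit 2032000001, nat_lit 4688000000], [], [nat_lit 20009373600, nat_lit 20036027570, nat_lit 20088392200, nat_lit 20114976116, nat_lit 20506804800, nat_lit 20533281645, nat_lit 20587366500, nat_lit 20615855303], nat_lit 1271250, nat_lit 1271250, nat_lit 968401, nat_lit 1000851, nat_lit 1271250, nat_lit 1271250, [nat_lit 490000, nat_lit 1100000], [nat_lit 24, nat_lit 40, nat_lit 40, nat_lit 80]⟩, ⟨p100_k5, nat_lit 0, nat_lit 0, nat_lit 0, nat_lit 0, nat_lit 0, [nat_lit 2032000000, nat_lit 4688000000], [], [nat_lit 21281543009, nat_lit 21347724152, nat_lit 21336584587, nat_lit 21402393847, nat_lit 22322422216, nat_lit 22388613711, nat_lit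 22371613454, nat_lit 22434344655], nat_lit 0, nat_lit 0, nat_lit 0, nat_lit 0, nat_lit 0, nat_lit 0, [], [nat_lit 24, nat_lit 40, nat_lit 40, nat_lit 80]⟩,
 zbF0, [⟨nat_lit 16, nat_lit 87, nat_lit 95, nat_lit 100, nat_lit 163410876⟩, ⟨nat_lit 19, nat_lit 87, nat_lit 95, nat_lit 100, nat_lit 585177347⟩]⟩
noncomputable def p100_l106 : Lf2 := ⟨nat_lit 0, nat_lit 2, [nat_lit 10, nat_lit 5, nat_lit 5, nat_lit 20], false, nat_lit 280, nat_lit 300, nat_lit 280, nat_lit 300, ⟨nat_lit 1000, nat_lit 0, nat_lit 0, nat_lit 0, nat_lit 0, nat_lit 0, nat_lit 0, nat_lit 0, nat_lit 0, nat_lit 0, nat_lit 0, nat_lit 0, nat_lit 0, nat_lit 0, nat_lit 0, nat_lit 0, false, false⟩,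
 nat_lit 0, nat_lit 0, nat_lit 0, nat_lit 0, nat_lit 0, nat_lit 3802, nat_lit 0, nat_lit 0, nat_lit 462, nat_lit 0, nat_lit 0, nat_lit 0, nat_lit 0, nat_lit 0, nat_lit 0, nat_lit 0, nat_lit 0, nat_lit 0, [],
 ⟨p100_k5, nat_lit 0, nat_lit 0, nat_lit 0, nat_lit 0, nat_lit 738236, [nat_lit 2032000001, nat_lit 4688000000], [], [nat_lit 20009373600, nat_lit 20036027570, nat_lit 20088392200, nat_lit 20114976116, nat_lit 20506804800, nat_lit 20533281645, nat_lit 20587366500, nat_lit 20615855303], nat_lit 1271250, nat_lit 1271250, nat_lit 968401, nat_lit 1000851, nat_lit 1271250, nat_lit 1271250, [nat_lit 490000, nat_lit 1100000], [nat_lit 24, nat_lit 40, nat_lit 40, nat_lit 80]⟩, ⟨p100_k5, nat_lit 0, nat_lit 0, nat_lit 0, nat_lit 0, nat_lit 0, [nat_lit 2032000000, nat_lit 4688000000], [], [nat_lit 21281543009, nat_lit 21347724152, nat_lit 21336584587, nat_lit 21402393847, nat_lit 22322422216, nat_lit 22388613711, nat_lit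 22371613454, nat_lit 22434344655], nat_lit 0, nat_lit 0, nat_lit 0, nat_lit 0, nat_lit 0, nat_lit 0, [], [nat_lit 24, nat_lit 40, nat_lit 40, nat_lit 80]⟩,
 zbF0, [⟨nat_lit 16, nat_lit 87, nat_lit 95, nat_lit 100, nat_lit 163410876⟩, ⟨nat_lit 19, nat_lit 87, nat_lit 95, nat_lit 100, nat_lit 585177347⟩]⟩
noncomputable def p100_l107 : Lf2 := ⟨nat_lit 0, nat_lit 2, [nat_lit 10, nat_lit 5, nat_lit 5, nat_lit 20], false, nat_lit 280, nat_lit 300, nat_lit 280, nat_lit 300, ⟨nat_lit 1000, nat_lit 0, nat_lit 0, nat_lit 0, nat_lit 0, nat_lit 0, nat_lit 0, nat_lit 0, nat_lit 0, nat_lit 0, nat_lit 0, nat_lit 0, nat_lit 0, nat_lit 0, nat_lit 0, nat_lit 0, false, false⟩,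
 nat_lit 0, nat_lit 8430, nat_lit 0, nat_lit 0, nat_lit 6322, nat_lit 3802, nat_lit 0, nat_lit 0, nat_lit 300, nat_lit 0, nat_lit 0, nat_lit 0, nat_lit 0, nat_lit 0, nat_lit 0, nat_lit 0, nat_lit 0, nat_lit 0, [],
 ⟨p100_k5, nat_lit 0, nat_lit 0, nat_lit 0, nat_lit 0, nat_lit 738236, [nat_lit 2032000001, nat_lit 4688000000], [], [nat_lit 11220198619, nat_lit 11275110664, nat_lit 11233488649, nat_lit 11288066538, nat_lit 12040325450, nat_lit 12098783830, nat_lit 12055045677, nat_lit 12113148950], nat_lit 1271250, nat_lit 1271250, nat_lit 968401, nat_lit 1000851, nat_lit 1271250, nat_lit 1271250, [nat_lit 490000, nat_lit 1100000], [nat_lit 24, nat_lit 40, nat_lit 40, nat_lit 80]⟩, ⟨p100_k5, nat_lit 0, nat_lit 0, nat_lit 0, nat_lit 0, nat_lit 0, [nat_lit 2032000000, nat_lit 4688000000], [], [nat_lit 21281543009, nat_lit 21347724152, nat_lit 21336584587, nat_lit 21402393847, nat_lit 22322422216, nat_lit 22388613711,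 nat_lit 22371613454, nat_lit 22434344655], nat_lit 0, nat_lit 0, nat_lit 0, nat_lit 0, nat_lit 0, nat_lit 0, [], [nat_lit 24, nat_lit 40, nat_lit 40, nat_lit 80]⟩,
 zbF0, [⟨nat_lit 0, nat_lit 83, nat_lit 83, nat_lit 100, nat_lit 611858533⟩, ⟨nat_lit 16, nat_lit 87, nat_lit 95, nat_lit 100, nat_lit 349220813⟩, ⟨nat_lit 19, nat_lit 87, nat_lit 95, nat_lit 100, nat_lit 585177347⟩]⟩
noncomputable def p100_l108 : Lf2 := ⟨nat_lit 0, nat_lit 2, [nat_lit 10, nat_lit 5, nat_lit 5, nat_lit 20], false, nat_lit 280, nat_lit 300, nat_lit 280, nat_lit 300, ⟨nat_lit 1000, nat_lit 0, nat_lit 0, nat_lit 0, nat_lit 0, nat_lit 0, nat_lit 0, nat_lit 0, nat_lit 0, nat_lit 0, nat_lit 0, nat_lit 0, nat_lit 0, nat_lit 0, nat_lit 0, nat_lit 0, false, false⟩,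
 nat_lit 0, nat_lit 697, nat_lit 0, nat_lit 0, nat_lit 522, nat_lit 3807, nat_lit 0, nat_lit 0, nat_lit 431, nat_lit 0, nat_lit 0, nat_lit 0, nat_lit 0, nat_lit 0, nat_lit 0, nat_lit 0, nat_lit 0, nat_lit 0, [],
 ⟨p100_k5, nat_lit 0, nat_lit 0, nat_lit 0, nat_lit 0, nat_lit 738236, [nat_lit 2032000001, nat_lit 4688000000], [], [nat_lit 20203198329, nat_lit 20232093673, nat_lit 20276789800, nat_lit 20305593282, nat_lit 20725642054, nat_lit 20753887161, nat_lit 20798391089, nat_lit 20829543509], nat_lit 1271250, nat_lit 1271250, nat_lit 1000851, nat_lit 1033601, nat_lit 1271250, nat_lit 1271250, [nat_lit 490000, nat_lit 1100000], [nat_lit 24, nat_lit 40, nat_lit 40, nat_lit 80]⟩, ⟨p100_k5, nat_lit 0, nat_lit 0, nat_lit 0, nat_lit 0, nat_lit 0, [nat_lit 2032000000, nat_lit 4688000000], [], [nat_lit 21334521552, nat_lit 21400372892, nat_lit 21389513574, nat_lit 21454992684, nat_lit 22370095437, nat_lit 22435752710,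 nat_lit 22419231821, nat_lit 22481653162], nat_lit 0, nat_lit 0, nat_lit 0, nat_lit 0, nat_lit 0, nat_lit 0, [], [nat_lit 24, nat_lit 40, nat_lit 40, nat_lit 80]⟩,
 zbF0, [⟨nat_lit 16, nat_lit 87, nat_lit 95, nat_lit 100, nat_lit 188376893⟩, ⟨nat_lit 19, nat_lit 87, nat_lit 95, nat_lit 100, nat_lit 583660379⟩]⟩
noncomputable def p100_l109 : Lf2 := ⟨nat_lit 0, nat_lit 2, [nat_lit 10, nat_lit 5, nat_lit 5, nat_lit 20], true, nat_lit 280, nat_lit 300, nat_lit 280, nat_lit 300, ⟨nat_lit 0, nat_lit 0, nat_lit 1000, nat_lit 8, nat_lit 213, nat_lit 1000, nat_lit 222, nat_lit 1000, nat_lit 1169, nat_lit 218, nat_lit 14193, nat_lit 240, nat_lit 39976259, nat_lit 0, nat_lit 0, nat_lit 5148105, false, false⟩,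
 nat_lit 0, nat_lit 100000, nat_lit 0, nat_lit 0, nat_lit 75000, nat_lit 0, nat_lit 5609, nat_lit 4557, nat_lit 0, nat_lit 0, nat_lit 0, nat_lit 0, nat_lit 0, nat_lit 131155143138439, nat_lit 0, nat_lit 1000000, nat_lit 0, nat_lit 0, [(nat_lit 18, [(nat_lit 6, nat_lit 1000)])],
 ⟨p100_k24, nat_lit 0, nat_lit 0, nat_lit 0, nat_lit 0, nat_lit 738236, [nat_lit 37318000000, nat_lit 54594000001, nat_lit 71494799999], [], [nat_lit 15472926127, nat_lit 15903134451, nat_lit 14845397205, nat_lit 15275053006, nat_lit 21461480503, nat_lit 21900990703, nat_lit 20816010604, nat_lit 21251834578], nat_lit 1271250, nat_lit 1271250, nat_lit 936251, nat_lit 968401, nat_lit 1271250, nat_lit 1271250, [nat_lit 490000, nat_lit 780000, nat_lit 1100000], [nat_lit 78, nat_lit 40, nat_lit 40, nat_lit 80]⟩, C1.Rw.none,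
 ⟨nat_lit 4444, nat_lit 4473, ⟨.ofNat (nat_lit 527430), .ofNat (nat_lit 534228), .ofNat (nat_lit 528508), .ofNat (nat_lit 535306), .ofNat (nat_lit 527742), .ofNat (nat_lit 534523), .ofNat (nat_lit 528821), .ofNat (nat_lit 535601)⟩, ⟨.ofNat (nat_lit 528122), .ofNat (nat_lit 562111), .ofNat (nat_lit 549689), .ofNat (nat_lit 583678), .ofNat (nat_lit 527733), .ofNat (nat_lit 561636), .ofNat (nat_lit 549309), .ofNat (nat_lit 583212)⟩⟩, [⟨nat_lit 0, nat_lit 83, nat_lit 83, nat_lit 100, nat_lit 9604042662⟩, ⟨nat_lit 4, nat_lit 100, nat_lit 89, nat_lit 100, nat_lit 8043022813⟩]⟩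
noncomputable def p100_l110 : Lf2 := ⟨nat_lit 0, nat_lit 2, [nat_lit 10, nat_lit 5, nat_lit 5, nat_lit 20], true, nat_lit 280, nat_lit 300, nat_lit 280, nat_lit 300, ⟨nat_lit 0, nat_lit 0, nat_lit 1000, nat_lit 8, nat_lit 213, nat_lit 1000, nat_lit 222, nat_lit 1000, nat_lit 1169, nat_lit 218, nat_lit 14193, nat_lit 240, nat_lit 39976259, nat_lit 0, nat_lit 0, nat_lit 5148105, false, false⟩,
 nat_lit 0, nat_lit 100000, nat_lit 0, nat_lit 0, nat_lit 75000, nat_lit 0, nat_lit 5609, nat_lit 4557, nat_lit 0, nat_lit 0, nat_lit 0, nat_lit 0, nat_lit 0, nat_lit 131155143138439, nat_lit 0, nat_lit 1000000, nat_lit 0, nat_lit 0, [(nat_lit 18, [(nat_lit 6, nat_lit 1000)])],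
 ⟨p100_k24, nat_lit 0, nat_lit 0, nat_lit 0, nat_lit 0, nat_lit 738236, [nat_lit 37318000000, nat_lit 54594000001, nat_lit 71494799999], [], [nat_lit 15472926127, nat_lit 15903134451, nat_lit 14845397205, nat_lit 15275053006, nat_lit 21461480503, nat_lit 21900990703, nat_lit 20816010604, nat_lit 21251834578], nat_lit 1271250, nat_lit 1271250, nat_lit 936251, nat_lit 968401, nat_lit 1271250, nat_lit 1271250, [nat_lit 490000, nat_lit 780000, nat_lit 1100000], [nat_lit 78, nat_lit 40, nat_lit 40, nat_lit 80]⟩, C1.Rw.none,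
 ⟨nat_lit 4444, nat_lit 4473, ⟨.ofNat (nat_lit 527430), .ofNat (nat_lit 534228), .ofNat (nat_lit 528508), .ofNat (nat_lit 535306), .ofNat (nat_lit 527742), .ofNat (nat_lit 534523), .ofNat (nat_lit 528821), .ofNat (nat_lit 535601)⟩, ⟨.ofNat (nat_lit 528122), .ofNat (nat_lit 562111), .ofNat (nat_lit 549689), .ofNat (nat_lit 583678), .ofNat (nat_lit 527733), .ofNat (nat_lit 561636), .ofNat (nat_lit 549309), .ofNat (nat_lit 583212)⟩⟩, [⟨nat_lit 0, nat_lit 83, nat_lit 83, nat_lit 100, nat_lit 9604042662⟩, ⟨nat_lit 4, nat_lit 100, nat_lit 89, nat_lit 100, nat_lit 8043022813⟩]⟩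
noncomputable def p100_l111 : Lf2 := ⟨nat_lit 0, nat_lit 2, [nat_lit 10, nat_lit 5, nat_lit 5, nat_lit 20], true, nat_lit 280, nat_lit 300, nat_lit 280, nat_lit 300, ⟨nat_lit 0, nat_lit 0, nat_lit 1000, nat_lit 8, nat_lit 213, nat_lit 1000, nat_lit 222, nat_lit 1000, nat_lit 1169, nat_lit 218, nat_lit 14193, nat_lit 240, nat_lit 39976259, nat_lit 0, nat_lit 0, nat_lit 5148105, false, false⟩,
 nat_lit 0, nat_lit 100000, nat_lit 0, nat_lit 0, nat_lit 75000, nat_lit 0, nat_lit 5609, nat_lit 4557, nat_lit 0, nat_lit 0, nat_lit 0, nat_lit 0, nat_lit 0, nat_lit 131155143138439, nat_lit 0, nat_lit 1000000, nat_lit 0, nat_lit 0, [(nat_lit 18, [(nat_lit 6, nat_lit 1000)])],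
 ⟨p100_k24, nat_lit 0, nat_lit 0, nat_lit 0, nat_lit 0, nat_lit 738236, [nat_lit 37318000000, nat_lit 54594000001, nat_lit 71494799999], [], [nat_lit 15472926127, nat_lit 15903134451, nat_lit 14845397205, nat_lit 15275053006, nat_lit 21461480503, nat_lit 21900990703, nat_lit 20816010604, nat_lit 21251834578], nat_lit 1271250, nat_lit 1271250, nat_lit 936251, nat_lit 968401, nat_lit 1271250, nat_lit 1271250, [nat_lit 490000, nat_lit 780000, nat_lit 1100000], [nat_lit 78, nat_lit 40, nat_lit 40, nat_lit 80]⟩, C1.Rw.none,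
 ⟨nat_lit 4444, nat_lit 4473, ⟨.ofNat (nat_lit 527430), .ofNat (nat_lit 534228), .ofNat (nat_lit 528508), .ofNat (nat_lit 535306), .ofNat (nat_lit 527742), .ofNat (nat_lit 534523), .ofNat (nat_lit 528821), .ofNat (nat_lit 535601)⟩, ⟨.ofNat (nat_lit 528122), .ofNat (nat_lit 562111), .ofNat (nat_lit 549689), .ofNat (nat_lit 583678), .ofNat (nat_lit 527733), .ofNat (nat_lit 561636), .ofNat (nat_lit 549309), .ofNat (nat_lit 583212)⟩⟩, [⟨nat_lit 0, nat_lit 83, nat_lit 83, nat_lit 100, nat_lit 9604042662⟩, ⟨nat_lit 4, nat_lit 100, nat_lit 89, nat_lit 100, nat_lit 8043022813⟩]⟩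
noncomputable def p100_l112 : Lf2 := ⟨nat_lit 0, nat_lit 2, [nat_lit 10, nat_lit 5, nat_lit 5, nat_lit 20], true, nat_lit 280, nat_lit 300, nat_lit 280, nat_lit 300, ⟨nat_lit 0, nat_lit 0, nat_lit 1000, nat_lit 8, nat_lit 213, nat_lit 1000, nat_lit 222, nat_lit 1000, nat_lit 1169, nat_lit 218, nat_lit 14193, nat_lit 240, nat_lit 39976259, nat_lit 0, nat_lit 0, nat_lit 5148105, false, false⟩,
 nat_lit 0, nat_lit 100000, nat_lit 0, nat_lit 0, nat_lit 75000, nat_lit 0, nat_lit 5609, nat_lit 4557, nat_lit 0, nat_lit 0, nat_lit 0, nat_lit 0, nat_lit 0, nat_lit 131155143138439, nat_lit 0, nat_lit 1000000, nat_lit 0, nat_lit 0, [(nat_lit 18, [(nat_lit 6, nat_lit 1000)])],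
 ⟨p100_k24, nat_lit 0, nat_lit 0, nat_lit 0, nat_lit 0, nat_lit 738236, [nat_lit 37318000000, nat_lit 54594000001, nat_lit 71494799999], [], [nat_lit 15472926127, nat_lit 15903134451, nat_lit 14845397205, nat_lit 15275053006, nat_lit 21461480503, nat_lit 21900990703, nat_lit 20816010604, nat_lit 21251834578], nat_lit 1271250, nat_lit 1271250, nat_lit 936251, nat_lit 968401, nat_lit 1271250, nat_lit 1271250, [nat_lit 490000, nat_lit 780000, nat_lit 1100000], [nat_lit 78, nat_lit 40, nat_lit 40, nat_lit 80]⟩, C1.Rw.none,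
 ⟨nat_lit 4444, nat_lit 4473, ⟨.ofNat (nat_lit 527430), .ofNat (nat_lit 534228), .ofNat (nat_lit 528508), .ofNat (nat_lit 535306), .ofNat (nat_lit 527742), .ofNat (nat_lit 534523), .ofNat (nat_lit 528821), .ofNat (nat_lit 535601)⟩, ⟨.ofNat (nat_lit 528122), .ofNat (nat_lit 562111), .ofNat (nat_lit 549689), .ofNat (nat_lit 583678), .ofNat (nat_lit 527733), .ofNat (nat_lit 561636), .ofNat (nat_lit 549309), .ofNat (nat_lit 583212)⟩⟩, [⟨nat_lit 0, nat_lit 83, nat_lit 83, nat_lit 100, nat_lit 9604042662⟩, ⟨nat_lit 4, nat_lit 100, nat_lit 89, nat_lit 100, nat_lit 8043022813⟩]⟩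
noncomputable def p100_l113 : Lf2 := ⟨nat_lit 0, nat_lit 2, [nat_lit 10, nat_lit 5, nat_lit 5, nat_lit 20], true, nat_lit 280, nat_lit 300, nat_lit 280, nat_lit 300, ⟨nat_lit 0, nat_lit 0, nat_lit 1000, nat_lit 8, nat_lit 213, nat_lit 1000, nat_lit 222, nat_lit 1000, nat_lit 1169, nat_lit 218, nat_lit 14193, nat_lit 240, nat_lit 39976259, nat_lit 0, nat_lit 0, nat_lit 5148105, false, false⟩,
 nat_lit 0, nat_lit 100000, nat_lit 0, nat_lit 0, nat_lit 75000, nat_lit 0, nat_lit 5609, nat_lit 4557, nat_lit 0, nat_lit 0, nat_lit 0, nat_lit 0, nat_lit 0, nat_lit 131155143138439, nat_lit 0, nat_lit 1000000, nat_lit 0, nat_lit 0, [(nat_lit 18, [(nat_lit 6, nat_lit 1000)])],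
 ⟨p100_k24, nat_lit 0, nat_lit 0, nat_lit 0, nat_lit 0, nat_lit 738236, [nat_lit 37318000000, nat_lit 54594000001, nat_lit 71494799999], [], [nat_lit 15472926127, nat_lit 15903134451, nat_lit 14845397205, nat_lit 15275053006, nat_lit 21461480503, nat_lit 21900990703, nat_lit 20816010604, nat_lit 21251834578], nat_lit 1271250, nat_lit 1271250, nat_lit 936251, nat_lit 968401, nat_lit 1271250, nat_lit 1271250, [nat_lit 490000, nat_lit 780000, nat_lit 1100000], [nat_lit 78, nat_lit 40, nat_lit 40, nat_lit 80]⟩, C1.Rw.none,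
 ⟨nat_lit 4444, nat_lit 4473, ⟨.ofNat (nat_lit 527430), .ofNat (nat_lit 534228), .ofNat (nat_lit 528508), .ofNat (nat_lit 535306), .ofNat (nat_lit 527742), .ofNat (nat_lit 534523), .ofNat (nat_lit 528821), .ofNat (nat_lit 535601)⟩, ⟨.ofNat (nat_lit 528122), .ofNat (nat_lit 562111), .ofNat (nat_lit 549689), .ofNat (nat_lit 583678), .ofNat (nat_lit 527733), .ofNat (nat_lit 561636), .ofNat (nat_lit 549309), .ofNat (nat_lit 583212)⟩⟩, [⟨nat_lit 0, nat_lit 83, nat_lit 83, nat_lit 100, nat_lit 9604042662⟩, ⟨nat_lit 4, nat_lit 100, nat_lit 89, nat_lit 100, nat_lit 8043022813⟩]⟩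
noncomputable def p100_l114 : Lf2 := ⟨nat_lit 0, nat_lit 2, [nat_lit 10, nat_lit 5, nat_lit 5, nat_lit 20], true, nat_lit 280, nat_lit 300, nat_lit 280, nat_lit 300, ⟨nat_lit 0, nat_lit 0, nat_lit 1000, nat_lit 8, nat_lit 213, nat_lit 1000, nat_lit 222, nat_lit 1000, nat_lit 1169, nat_lit 218, nat_lit 14193, nat_lit 240, nat_lit 39976259, nat_lit 0, nat_lit 0, nat_lit 5148105, false, false⟩,
 nat_lit 0, nat_lit 100000, nat_lit 0, nat_lit 0, nat_lit 75000, nat_lit 0, nat_lit 5609, nat_lit 4557, nat_lit 0, nat_lit 0, nat_lit 0, nat_lit 0, nat_lit 0, nat_lit 131155143138439, nat_lit 0, nat_lit 1000000, nat_lit 0, nat_lit 0, [(nat_lit 18, [(nat_lit 6, nat_lit 1000)])],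
 ⟨p100_k24, nat_lit 0, nat_lit 0, nat_lit 0, nat_lit 0, nat_lit 738236, [nat_lit 37318000000, nat_lit 54594000001, nat_lit 71494799999], [], [nat_lit 15472926127, nat_lit 15903134451, nat_lit 14845397205, nat_lit 15275053006, nat_lit 21461480503, nat_lit 21900990703, nat_lit 20816010604, nat_lit 21251834578], nat_lit 1271250, nat_lit 1271250, nat_lit 936251, nat_lit 968401, nat_lit 1271250, nat_lit 1271250, [nat_lit 490000, nat_lit 780000, nat_lit 1100000], [nat_lit 78, nat_lit 40, nat_lit 40, nat_lit 80]⟩, C1.Rw.none,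
 ⟨nat_lit 4444, nat_lit 4473, ⟨.ofNat (nat_lit 527430), .ofNat (nat_lit 534228), .ofNat (nat_lit 528508), .ofNat (nat_lit 535306), .ofNat (nat_lit 527742), .ofNat (nat_lit 534523), .ofNat (nat_lit 528821), .ofNat (nat_lit 535601)⟩, ⟨.ofNat (nat_lit 528122), .ofNat (nat_lit 562111), .ofNat (nat_lit 549689), .ofNat (nat_lit 583678), .ofNat (nat_lit 527733), .ofNat (nat_lit 561636), .ofNat (nat_lit 549309), .ofNat (nat_lit 583212)⟩⟩, [⟨nat_lit 0, nat_lit 83, nat_lit 83, nat_lit 100, nat_lit 9604042662⟩, ⟨nat_lit 4, nat_lit 100, nat_lit 89, nat_lit 100, nat_lit 8043022813⟩]⟩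
noncomputable def p100_l115 : Lf2 := ⟨nat_lit 0, nat_lit 2, [nat_lit 10, nat_lit 5, nat_lit 5, nat_lit 20], false, nat_lit 280, nat_lit 300, nat_lit 280, nat_lit 300, ⟨nat_lit 1000, nat_lit 0, nat_lit 0, nat_lit 0, nat_lit 0, nat_lit 0, nat_lit 0, nat_lit 0, nat_lit 0, nat_lit 0, nat_lit 0, nat_lit 0, nat_lit 0, nat_lit 0, nat_lit 0, nat_lit 0, false, false⟩,
 nat_lit 0, nat_lit 26119, nat_lit 0, nat_lit 0, nat_lit 19589, nat_lit 3802, nat_lit 0, nat_lit 1009, nat_lit 0, nat_lit 0, nat_lit 0, nat_lit 0, nat_lit 0, nat_lit 9120931838409, nat_lit 0, nat_lit 0, nat_lit 0, nat_lit 0, [],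
 ⟨p100_k5, nat_lit 0, nat_lit 0, nat_lit 0, nat_lit 0, nat_lit 738236, [nat_lit 10104000000, nat_lit 20832000000], [], [nat_lit 39414081706, nat_lit 39529182974, nat_lit 39289437391, nat_lit 39403650274, nat_lit 40924233221, nat_lit 41032203921, nat_lit 40785237647, nat_lit 40892367953], nat_lit 1271250, nat_lit 1271250, nat_lit 936251, nat_lit 968401, nat_lit 1271250, nat_lit 1271250, [nat_lit 490000, nat_lit 1100000], [nat_lit 24, nat_lit 40, nat_lit 40, nat_lit 80]⟩, ⟨p100_k5, nat_lit 0, nat_lit 0, nat_lit 0, nat_lit 0, nat_lit 0, [nat_lit 2032000000, nat_lit 4688000000], [], [nat_lit 21226501430, nat_lit 21293054456, nat_lit 21281543009, nat_lit 21347724152, nat_lit 22277402095, nat_lit 22344256312, nat_lit 22322422216, nat_lit 22388613711], nat_lit 0, nat_lit 0, nat_lit 0, nat_lit 0, nat_lit 0, nat_lit 0, [], [nat_lit 24, nat_lit 40, nat_lit 40, nat_lit 80]⟩,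
 zbF0, [⟨nat_lit 0, nat_lit 83, nat_lit 83, nat_lit 100, nat_lit 2477289944⟩, ⟨nat_lit 16, nat_lit 89, nat_lit 100, nat_lit 100, nat_lit 1266700784⟩, ⟨nat_lit 7, nat_lit 100, nat_lit 89, nat_lit 100, nat_lit 572027295⟩]⟩
noncomputable def p100_l116 : Lf2 := ⟨nat_lit 0, nat_lit 2, [nat_lit 10, nat_lit 5, nat_lit 5, nat_lit 20], false, nat_lit 280, nat_lit 300, nat_lit 280, nat_lit 300, ⟨nat_lit 1000, nat_lit 0, nat_lit 0, nat_lit 0, nat_lit 0, nat_lit 0, nat_lit 0, nat_lit 0, nat_lit 0, nat_lit 0, nat_lit 0, nat_lit 0, nat_lit 0, nat_lit 0, nat_lit 0, nat_lit 0, false, false⟩,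
 nat_lit 0, nat_lit 100000, nat_lit 0, nat_lit 0, nat_lit 75000, nat_lit 3860, nat_lit 0, nat_lit 4994, nat_lit 0, nat_lit 0, nat_lit 0, nat_lit 0, nat_lit 0, nat_lit 0, nat_lit 0, nat_lit 0, nat_lit 0, nat_lit 0, [],
 ⟨p100_k5, nat_lit 0, nat_lit 0, nat_lit 0, nat_lit 0, nat_lit 738236, [nat_lit 41984000000, nat_lit 84592000000], [], [nat_lit 86079905000, nat_lit 86444997150, nat_lit 85379163601, nat_lit 85741052571, nat_lit 90451203500, nat_lit 90790355125, nat_lit 89699029801, nat_lit 90035154376], nat_lit 1271250, nat_lit 1271250, nat_lit 936251, nat_lit 968401, nat_lit 1271250, nat_lit 1271250, [nat_lit 490000, nat_lit 1100000], [nat_lit 24, nat_lit 40, nat_lit 40, nat_lit 80]⟩, ⟨p100_k5, nat_lit 0, nat_lit 0, nat_lit 0, nat_lit 0, nat_lit 0, [nat_lit 2032000000, nat_lit 4688000000], [], [nat_lit 21208008500, nat_lit 21278802076, nat_lit 21258186640, nat_lit 21328546774, nat_lit 22310638850, nat_lit 22377985974,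 nat_lit 22354637152, nat_lit 22421611826], nat_lit 0, nat_lit 0, nat_lit 0, nat_lit 0, nat_lit 0, nat_lit 0, [], [nat_lit 24, nat_lit 40, nat_lit 40, nat_lit 80]⟩,
 zbF0, [⟨nat_lit 0, nat_lit 83, nat_lit 83, nat_lit 100, nat_lit 9346232806⟩, ⟨nat_lit 16, nat_lit 89, nat_lit 100, nat_lit 100, nat_lit 4671555617⟩, ⟨nat_lit 7, nat_lit 100, nat_lit 89, nat_lit 100, nat_lit 3214088677⟩]⟩
noncomputable def p100_l117 : Lf2 := ⟨nat_lit 0, nat_lit 2, [nat_lit 10, nat_lit 5, nat_lit 5, nat_lit 20], true, nat_lit 280, nat_lit 300, nat_lit 280, nat_lit 300, ⟨nat_lit 0, nat_lit 0, nat_lit 1000, nat_lit 8, nat_lit 213, nat_lit 1000, nat_lit 222, nat_lit 1000, nat_lit 1169, nat_lit 218, nat_lit 14193, nat_lit 240, nat_lit 39976259, nat_lit 0, nat_lit 0, nat_lit 5148105, false, false⟩,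
 nat_lit 0, nat_lit 100000, nat_lit 0, nat_lit 0, nat_lit 75000, nat_lit 0, nat_lit 0, nat_lit 5116, nat_lit 0, nat_lit 0, nat_lit 0, nat_lit 0, nat_lit 0, nat_lit 137963794138536, nat_lit 0, nat_lit 1000000, nat_lit 0, nat_lit 0, [(nat_lit 18, [(nat_lit 6, nat_lit 1000)])],
 ⟨p100_k5, nat_lit 0, nat_lit 0, nat_lit 0, nat_lit 0, nat_lit 738236, [nat_lit 41987733334, nat_lit 80616266666], [], [nat_lit 74152704998, nat_lit 74517797148, nat_lit 73454829466, nat_lit 73813852569, nat_lit 78524003498, nat_lit 78863155123, nat_lit 77771829799, nat_lit 78107954374], nat_lit 1271250, nat_lit 1271250, nat_lit 936251, nat_lit 968401, nat_lit 1271250, nat_lit 1271250, [nat_lit 490000, nat_lit 1100000], [nat_lit 24, nat_lit 40, nat_lit 40, nat_lit 80]⟩, C1.Rw.none,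
 ⟨nat_lit 4444, nat_lit 4473, ⟨.ofNat (nat_lit 527430), .ofNat (nat_lit 534228), .ofNat (nat_lit 528508), .ofNat (nat_lit 535306), .ofNat (nat_lit 527742), .ofNat (nat_lit 534523), .ofNat (nat_lit 528821), .ofNat (nat_lit 535601)⟩, ⟨.ofNat (nat_lit 528122), .ofNat (nat_lit 562111), .ofNat (nat_lit 549689), .ofNat (nat_lit 583678), .ofNat (nat_lit 527733), .ofNat (nat_lit 561636), .ofNat (nat_lit 549309), .ofNat (nat_lit 583212)⟩⟩, [⟨nat_lit 0, nat_lit 83, nat_lit 83, nat_lit 100, nat_lit 9398962813⟩, ⟨nat_lit 4, nat_lit 100, nat_lit 89, nat_lit 100, nat_lit 8043022813⟩]⟩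
noncomputable def p100_l118 : Lf2 := ⟨nat_lit 0, nat_lit 2, [nat_lit 10, nat_lit 5, nat_lit 5, nat_lit 20], true, nat_lit 280, nat_lit 300, nat_lit 280, nat_lit 300, ⟨nat_lit 0, nat_lit 0, nat_lit 1000, nat_lit 8, nat_lit 215, nat_lit 1000, nat_lit 222, nat_lit 1000, nat_lit 1169, nat_lit 218, nat_lit 8772, nat_lit 236, nat_lit 39793598, nat_lit 0, nat_lit 0, nat_lit 5165408, false, false⟩,
 nat_lit 0, nat_lit 100000, nat_lit 0, nat_lit 0, nat_lit 75000, nat_lit 0, nat_lit 5603, nat_lit 4562, nat_lit 0, nat_lit 0, nat_lit 0, nat_lit 0, nat_lit 0, nat_lit 0, nat_lit 0, nat_lit 1000000, nat_lit 0, nat_lit 0, [(nat_lit 18, [(nat_lit 6, nat_lit 1000)])],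
 ⟨p100_k24, nat_lit 0, nat_lit 0, nat_lit 0, nat_lit 0, nat_lit 738236, [nat_lit 37358000000, nat_lit 54654000000, nat_lit 71574800000], [], [nat_lit 15116031175, nat_lit 15486584255, nat_lit 14497561400, nat_lit 14892000631, nat_lit 20996010601, nat_lit 21431834575, nat_lit 20350540700, nat_lit 20782678451], nat_lit 1271250, nat_lit 1271250, nat_lit 968401, nat_lit 1000851, nat_lit 1271250, nat_lit 1271250, [nat_lit 490000, nat_lit 780000, nat_lit 1100000], [nat_lit 78, nat_lit 40, nat_lit 40, nat_lit 80]⟩, C1.Rw.none,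
 ⟨nat_lit 4444, nat_lit 4473, ⟨.ofNat (nat_lit 534228), .ofNat (nat_lit 541026), .ofNat (nat_lit 535306), .ofNat (nat_lit 542104), .ofNat (nat_lit 534523), .ofNat (nat_lit 541303), .ofNat (nat_lit 535601), .ofNat (nat_lit 542382)⟩, ⟨.ofNat (nat_lit 528122), .ofNat (nat_lit 562111), .ofNat (nat_lit 549689), .ofNat (nat_lit 583678), .ofNat (nat_lit 527733), .ofNat (nat_lit 561636), .ofNat (nat_lit 549309), .ofNat (nat_lit 583212)⟩⟩, [⟨nat_lit 0, nat_lit 83, nat_lit 83, nat_lit 100, nat_lit 1162450257⟩, ⟨nat_lit 4, nat_lit 100, nat_lit 89, nat_lit 100, nat_lit 8090886813⟩]⟩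
noncomputable def p100_l119 : Lf2 := ⟨nat_lit 0, nat_lit 2, [nat_lit 10, nat_lit 5, nat_lit 5, nat_lit 20], false, nat_lit 280, nat_lit 300, nat_lit 280, nat_lit 300, ⟨nat_lit 1000, nat_lit 0, nat_lit 0, nat_lit 0, nat_lit 0, nat_lit 0, nat_lit 0, nat_lit 0, nat_lit 0, nat_lit 0, nat_lit 0, nat_lit 0, nat_lit 0, nat_lit 0, nat_lit 0, nat_lit 0, false, false⟩,
 nat_lit 0, nat_lit 100000, nat_lit 0, nat_lit 0, nat_lit 75000, nat_lit 3860, nat_lit 0, nat_lit 4996, nat_lit 0, nat_lit 0, nat_lit 0, nat_lit 0, nat_lit 0, nat_lit 0, nat_lit 0, nat_lit 0, nat_lit 0, nat_lit 0, [],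
 ⟨p100_k5, nat_lit 0, nat_lit 0, nat_lit 0, nat_lit 0, nat_lit 738236, [nat_lit 42000000000, nat_lit 84624000000], [], [nat_lit 85502562800, nat_lit 85837052571, nat_lit 84829768601, nat_lit 85133107991, nat_lit 89795029801, nat_lit 90131154376, nat_lit 89042856101, nat_lit 89375953625], nat_lit 1271250, nat_lit 1271250, nat_lit 968401, nat_lit 1000851, nat_lit 1271250, nat_lit 1271250, [nat_lit 490000, nat_lit 1100000], [nat_lit 24, nat_lit 40, nat_lit 40, nat_lit 80]⟩, ⟨p100_k5, nat_lit 0, nat_lit 0, nat_lit 0, nat_lit 0, nat_lit 0, [nat_lit 2032000000, nat_lit 4688000000], [], [nat_lit 21258186640, nat_lit 21328546774, nat_lit 21312653380, nat_lit 21378950764, nat_lit 22354637152, nat_lit 22421611826, nat_lit 22398635454, nat_lit 22465237678], nat_lit 0, nat_lit 0, nat_lit 0, nat_lit 0, nat_lit 0, nat_lit 0, [], [nat_lit 24, nat_lit 40, nat_lit 40, nat_lit 80]⟩,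
 zbF0, [⟨nat_lit 0, nat_lit 83, nat_lit 83, nat_lit 100, nat_lit 1923902436⟩, ⟨nat_lit 16, nat_lit 89, nat_lit 100, nat_lit 100, nat_lit 7345780592⟩, ⟨nat_lit 7, nat_lit 100, nat_lit 89, nat_lit 100, nat_lit 587662028⟩]⟩
noncomputable def p100_l120 : Lf2 := ⟨nat_lit 0, nat_lit 2, [nat_lit 10, nat_lit 5, nat_lit 5, nat_lit 20], true, nat_lit 280, nat_lit 300, nat_lit 280, nat_lit 300, ⟨nat_lit 0, nat_lit 0, nat_lit 1000, nat_lit 8, nat_lit 215, nat_lit 1000, nat_lit 222, nat_lit 1000, nat_lit 1169, nat_lit 218, nat_lit 8772, nat_lit 236, nat_lit 39793598, nat_lit 0, nat_lit 0, nat_lit 5165408, false, false⟩,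
 nat_lit 0, nat_lit 100000, nat_lit 0, nat_lit 0, nat_lit 75000, nat_lit 0, nat_lit 0, nat_lit 5118, nat_lit 0, nat_lit 0, nat_lit 0, nat_lit 0, nat_lit 0, nat_lit 0, nat_lit 0, nat_lit 1000000, nat_lit 0, nat_lit 0, [(nat_lit 18, [(nat_lit 6, nat_lit 1000)])],
 ⟨p100_k5, nat_lit 0, nat_lit 0, nat_lit 0, nat_lit 0, nat_lit 738236, [nat_lit 42003733334, nat_lit 80648266666], [], [nat_lit 73582829466, nat_lit 73909852569, nat_lit 72910035267, nat_lit 73205907989, nat_lit 77867829799, nat_lit 78203954374, nat_lit 77115656099, nat_lit 77448753623], nat_lit 1271250, nat_lit 1271250, nat_lit 968401, nat_lit 1000851, nat_lit 1271250, nat_lit 1271250, [nat_lit 490000, nat_lit 1100000], [nat_lit 24, nat_lit 40, nat_lit 40, nat_lit 80]⟩, C1.Rw.none,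
 ⟨nat_lit 4444, nat_lit 4473, ⟨.ofNat (nat_lit 534228), .ofNat (nat_lit 541026), .ofNat (nat_lit 535306), .ofNat (nat_lit 542104), .ofNat (nat_lit 534523), .ofNat (nat_lit 541303), .ofNat (nat_lit 535601), .ofNat (nat_lit 542382)⟩, ⟨.ofNat (nat_lit 528122), .ofNat (nat_lit 562111), .ofNat (nat_lit 549689), .ofNat (nat_lit 583678), .ofNat (nat_lit 527733), .ofNat (nat_lit 561636), .ofNat (nat_lit 549309), .ofNat (nat_lit 583212)⟩⟩, [⟨nat_lit 0, nat_lit 83, nat_lit 83, nat_lit 100, nat_lit 1366911935⟩, ⟨nat_lit 4, nat_lit 100, nat_lit 89, nat_lit 100, nat_lit 8090886813⟩]⟩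
noncomputable def p100_l121 : Lf2 := ⟨nat_lit 0, nat_lit 2, [nat_lit 10, nat_lit 5, nat_lit 5, nat_lit 20], true, nat_lit 280, nat_lit 300, nat_lit 280, nat_lit 300, ⟨nat_lit 0, nat_lit 0, nat_lit 1000, nat_lit 8, nat_lit 218, nat_lit 1000, nat_lit 222, nat_lit 1000, nat_lit 1169, nat_lit 218, nat_lit 8300, nat_lit 233, nat_lit 39610929, nat_lit 0, nat_lit 0, nat_lit 5182288, false, false⟩,
 nat_lit 0, nat_lit 100000, nat_lit 0, nat_lit 0, nat_lit 75000, nat_lit 0, nat_lit 5582, nat_lit 4563, nat_lit 0, nat_lit 0, nat_lit 0, nat_lit 0, nat_lit 0, nat_lit 400000000000000, nat_lit 0, nat_lit 1000000, nat_lit 0, nat_lit 0, [(nat_lit 18, [(nat_lit 6, nat_lit 1000)])],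
 ⟨p100_k24, nat_lit 0, nat_lit 0, nat_lit 0, nat_lit 0, nat_lit 738236, [nat_lit 37366000000, nat_lit 54666000000, nat_lit 71590800000], [], [nat_lit 14579964351, nat_lit 14941687571, nat_lit 13957725601, nat_lit 14348738970, nat_lit 20386540700, nat_lit 20818678451, nat_lit 19741070801, nat_lit 20169522325], nat_lit 1271250, nat_lit 1271250, nat_lit 1000851, nat_lit 1033601, nat_lit 1271250, nat_lit 1271250, [nat_lit 490000, nat_lit 780000, nat_lit 1100000], [nat_lit 78, nat_lit 40, nat_lit 40, nat_lit 80]⟩, C1.Rw.none,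
 ⟨nat_lit 4444, nat_lit 4473, ⟨.ofNat (nat_lit 541026), .ofNat (nat_lit 547823), .ofNat (nat_lit 542104), .ofNat (nat_lit 548902), .ofNat (nat_lit 541303), .ofNat (nat_lit 548084), .ofNat (nat_lit 542382), .ofNat (nat_lit 549163)⟩, ⟨.ofNat (nat_lit 528122), .ofNat (nat_lit 562111), .ofNat (nat_lit 549689), .ofNat (nat_lit 583678), .ofNat (nat_lit 527733), .ofNat (nat_lit 561636), .ofNat (nat_lit 549309), .ofNat (nat_lit 583212)⟩⟩, [⟨nat_lit 4, nat_lit 100, nat_lit 89, nat_lit 100, nat_lit 8090886813⟩]⟩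
noncomputable def p100_l122 : Lf2 := ⟨nat_lit 0, nat_lit 2, [nat_lit 10, nat_lit 5, nat_lit 5, nat_lit 20], true, nat_lit 280, nat_lit 300, nat_lit 280, nat_lit 300, ⟨nat_lit 0, nat_lit 0, nat_lit 1000, nat_lit 8, nat_lit 218, nat_lit 1000, nat_lit 222, nat_lit 1000, nat_lit 1169, nat_lit 218, nat_lit 8300, nat_lit 233, nat_lit 39610929, nat_lit 0, nat_lit 0, nat_lit 5182288, false, false⟩,
 nat_lit 0, nat_lit 100000, nat_lit 0, nat_lit 0, nat_lit 75000, nat_lit 0, nat_lit 0, nat_lit 5118, nat_lit 0, nat_lit 0, nat_lit 0, nat_lit 0, nat_lit 0, nat_lit 400000000000000, nat_lit 0, nat_lit 1000000, nat_lit 0, nat_lit 0, [(nat_lit 18, [(nat_lit 6, nat_lit 1000)])],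
 ⟨p100_k5, nat_lit 0, nat_lit 0, nat_lit 0, nat_lit 0, nat_lit 738236, [nat_lit 42003733334, nat_lit 80648266666], [], [nat_lit 72910035267, nat_lit 73205907989, nat_lit 72237241066, nat_lit 72529899397, nat_lit 77115656099, nat_lit 77448753623, nat_lit 76363482399, nat_lit 76693552873], nat_lit 1271250, nat_lit 1271250, nat_lit 1000851, nat_lit 1033601, nat_lit 1271250, nat_lit 1271250, [nat_lit 490000, nat_lit 1100000], [nat_lit 24, nat_lit 40, nat_lit 40, nat_lit 80]⟩, C1.Rw.none,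
 ⟨nat_lit 4444, nat_lit 4473, ⟨.ofNat (nat_lit 541026), .ofNat (nat_lit 547823), .ofNat (nat_lit 542104), .ofNat (nat_lit 548902), .ofNat (nat_lit 541303), .ofNat (nat_lit 548084), .ofNat (nat_lit 542382), .ofNat (nat_lit 549163)⟩, ⟨.ofNat (nat_lit 528122), .ofNat (nat_lit 562111), .ofNat (nat_lit 549689), .ofNat (nat_lit 583678), .ofNat (nat_lit 527733), .ofNat (nat_lit 561636), .ofNat (nat_lit 549309), .ofNat (nat_lit 583212)⟩⟩, [⟨nat_lit 16, nat_lit 89, nat_lit 100, nat_lit 100, nat_lit 8090886813⟩]⟩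
noncomputable def p100_l123 : Lf2 := ⟨nat_lit 0, nat_lit 2, [nat_lit 10, nat_lit 5, nat_lit 5, nat_lit 20], false, nat_lit 280, nat_lit 300, nat_lit 280, nat_lit 300, ⟨nat_lit 1000, nat_lit 0, nat_lit 0, nat_lit 0, nat_lit 0, nat_lit 0, nat_lit 0, nat_lit 0, nat_lit 0, nat_lit 0, nat_lit 0, nat_lit 0, nat_lit 0, nat_lit 0, nat_lit 0, nat_lit 0, false, false⟩,
 nat_lit 0, nat_lit 698, nat_lit 0, nat_lit 0, nat_lit 525, nat_lit 3802, nat_lit 0, nat_lit 0, nat_lit 431, nat_lit 0, nat_lit 0, nat_lit 0, nat_lit 0, nat_lit 0, nat_lit 0, nat_lit 0, nat_lit 0, nat_lit 0, [],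
 ⟨p100_k25, nat_lit 0, nat_lit 0, nat_lit 0, nat_lit 0, nat_lit 741490, [nat_lit 2032000001, nat_lit 4688000000], [], [nat_lit 20150746745, nat_lit 20179747360, nat_lit 20297683332, nat_lit 20326499973, nat_lit 20674279842, nat_lit 20702625308, nat_lit 20824595892, nat_lit 20855764073], nat_lit 1271250, nat_lit 1271250, nat_lit 968401, nat_lit 1033601, nat_lit 1271250, nat_lit 1271250, [nat_lit 490000, nat_lit 1100000], [nat_lit 24, nat_lit 40, nat_lit 40, nat_lit 80]⟩, ⟨p100_k5, nat_lit 0, nat_lit 0, nat_lit 0, nat_lit 0, nat_lit 0, [nat_lit 2032000000, nat_lit 4688000000], [], [nat_lit 21281543009, nat_lit 21347724152, nat_lit 21391626164, nat_lit 21457063543, nat_lit 22322422216, nat_lit 22388613711, nat_lit 22420804692, nat_lit 22483187289], nat_lit 0, nat_lit 0, nat_lit 0, nat_lit 0, nat_lit 0, nat_lit 0, [], [nat_lit 24, nat_lit 40, nat_lit 40, nat_lit 80]⟩,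
 zbF0, [⟨nat_lit 0, nat_lit 83, nat_lit 83, nat_lit 100, nat_lit 513376781⟩, ⟨nat_lit 16, nat_lit 87, nat_lit 95, nat_lit 100, nat_lit 188960040⟩, ⟨nat_lit 19, nat_lit 87, nat_lit 95, nat_lit 100, nat_lit 581814873⟩]⟩
noncomputable def p100_l124 : Lf2 := ⟨nat_lit 0, nat_lit 2, [nat_lit 10, nat_lit 5, nat_lit 5, nat_lit 20], true, nat_lit 280, nat_lit 300, nat_lit 280, nat_lit 300, ⟨nat_lit 0, nat_lit 0, nat_lit 1000, nat_lit 8, nat_lit 217, nat_lit 1000, nat_lit 222, nat_lit 1000, nat_lit 153, nat_lit 218, nat_lit 8911, nat_lit 233, nat_lit 39706501, nat_lit 0, nat_lit 0, nat_lit 5173574, false, false⟩,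
 nat_lit 0, nat_lit 100000, nat_lit 0, nat_lit 0, nat_lit 75293, nat_lit 0, nat_lit 5661, nat_lit 4610, nat_lit 0, nat_lit 0, nat_lit 0, nat_lit 0, nat_lit 0, nat_lit 0, nat_lit 0, nat_lit 1000000, nat_lit 0, nat_lit 0, [(nat_lit 18, [(nat_lit 6, nat_lit 1000)])],
 ⟨p100_k26, nat_lit 0, nat_lit 0, nat_lit 0, nat_lit 0, nat_lit 741490, [nat_lit 37742000000, nat_lit 55230000000, nat_lit 72342800000], [], [nat_lit 15786719329, nat_lit 16152970483, nat_lit 14565558103, nat_lit 14957993625, nat_lit 21651330281, nat_lit 22088746138, nat_lit 20347300660, nat_lit 20777315878], nat_lit 1271250, nat_lit 1271250, nat_lit 968401, nat_lit 1033601, nat_lit 1271250, nat_lit 1271250, [nat_lit 490000, nat_lit 780000, nat_lit 1100000], [nat_lit 78, nat_lit 40, nat_lit 40, nat_lit 80]⟩, C1.Rw.none,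
 ⟨nat_lit 4415, nat_lit 4445, ⟨.ofNat (nat_lit 534523), .ofNat (nat_lit 548084), .ofNat (nat_lit 535601), .ofNat (nat_lit 549163), .ofNat (nat_lit 534819), .ofNat (nat_lit 548345), .ofNat (nat_lit 535898), .ofNat (nat_lit 549425)⟩, ⟨.ofNat (nat_lit 527733), .ofNat (nat_lit 561636), .ofNat (nat_lit 549309), .ofNat (nat_lit 583212), .ofNat (nat_lit 527343), .ofNat (nat_lit 561160), .ofNat (nat_lit 548928), .ofNat (nat_lit 582745)⟩⟩, [⟨nat_lit 0, nat_lit 83, nat_lit 82, nat_lit 100, nat_lit 1185292205⟩, ⟨nat_lit 4, nat_lit 100, nat_lit 88, nat_lit 99, nat_lit 8194585516⟩]⟩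
noncomputable def p100_l125 : Lf2 := ⟨nat_lit 0, nat_lit 2, [nat_lit 10, nat_lit 5, nat_lit 5, nat_lit 20], false, nat_lit 280, nat_lit 300, nat_lit 280, nat_lit 300, ⟨nat_lit 1000, nat_lit 0, nat_lit 0, nat_lit 0, nat_lit 0, nat_lit 0, nat_lit 0, nat_lit 0, nat_lit 0, nat_lit 0, nat_lit 0, nat_lit 0, nat_lit 0, nat_lit 0, nat_lit 0, nat_lit 0, false, false⟩,
 nat_lit 0, nat_lit 8626, nat_lit 0, nat_lit 0, nat_lit 6494, nat_lit 3798, nat_lit 828, nat_lit 0, nat_lit 0, nat_lit 0, nat_lit 0, nat_lit 0, nat_lit 0, nat_lit 0, nat_lit 0, nat_lit 0, nat_lit 0, nat_lit 0, [],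
 ⟨p100_k26, nat_lit 0, nat_lit 0, nat_lit 0, nat_lit 0, nat_lit 749731, [nat_lit 2032000001, nat_lit 3282000000, nat_lit 4688000000], [], [nat_lit 20667588358, nat_lit 20723317977, nat_lit 20707313998, nat_lit 20765815685, nat_lit 21554476614, nat_lit 21624516743, nat_lit 21593415907, nat_lit 21664085548], nat_lit 1271250, nat_lit 1271250, nat_lit 968401, nat_lit 1033601, nat_lit 1271250, nat_lit 1271250, [nat_lit 490000, nat_lit 780000, nat_lit 1100000], [nat_lit 78, nat_lit 40, nat_lit 40, nat_lit 80]⟩, ⟨p100_k26, nat_lit 0, nat_lit 0, nat_lit 0, nat_lit 0, nat_lit 0, [nat_lit 2032000000, nat_lit 3282000000, nat_lit 4688000000], [], [nat_lit 21349300993, nat_lit 21415448194, nat_lit 21458720230, nat_lit 21524124223, nat_lit 22386641036, nat_lit 22452790003, nat_lit 22484414590, nat_lit 22546766192], nat_lit 0, nat_lit 0, nat_lit 0, nat_lit 0, nat_lit 0, nat_lit 0, [], [nat_lit 78, nat_lit 40, nat_lit 40, nat_lit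 80]⟩,
 zbF0, [⟨nat_lit 0, nat_lit 83, nat_lit 83, nat_lit 100, nat_lit 609607089⟩, ⟨nat_lit 16, nat_lit 87, nat_lit 95, nat_lit 100, nat_lit 541140375⟩, ⟨nat_lit 19, nat_lit 87, nat_lit 95, nat_lit 100, nat_lit 580813928⟩]⟩
noncomputable def b_V_800_800_20_10 : St := ⟨true, nat_lit 1, nat_lit 0, nat_lit 1, nat_lit 120, nat_lit 320, nat_lit 322, nat_lit 320, nat_lit 322, nat_lit 140, nat_lit 152, nat_lit 100, nat_lit 120, nat_lit 280, nat_lit 300, nat_lit 280, nat_lit 300, nat_lit 4, nat_lit 8, nat_lit 600, nat_lit 900, nat_lit 0, nat_lit 400⟩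
theorem d_V_800_800_20_10 (h : EB TB.env) : Dead b_V_800_800_20_10 := chkB_sound0 h (T :=
(.spl (nat_lit 1) (nat_lit 321)
(.spl (nat_lit 0) (nat_lit 321)
(.spl (nat_lit 7) (nat_lit 760)
(.spl (nat_lit 2) (nat_lit 144)
(.spl (nat_lit 7) (nat_lit 680)
(.leaf p100_l102)
(.spl (nat_lit 7) (nat_lit 720)
(.leaf p100_l103)
(.leaf p100_l104)))
(.spl (nat_lit 2) (nat_lit 148)
(.spl (nat_lit 7) (nat_lit 680)
(.leaf p100_l105)
(.spl (nat_lit 7) (nat_lit 720)
(.leaf p100_l106)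
(.leaf p100_l107)))
(.leaf p100_l108)))
(.spl (nat_lit 2) (nat_lit 144)
(.spl (nat_lit 7) (nat_lit 840)
(.spl (nat_lit 7) (nat_lit 800)
(.spl (nat_lit 7) (nat_lit 780)
(.spl (nat_lit 8) (nat_lit 200)
(.spl (nat_lit 8) (nat_lit 100)
(.spl (nat_lit 8) (nat_lit 60)
(.spl (nat_lit 8) (nat_lit 40)
(.spl (nat_lit 8) (nat_lit 20)
(.leaf p100_l109)
(.leaf p100_l110))
(.leaf p100_l111))
(.leaf p100_l112))
(.leaf p100_l113))
(.leaf p100_l114))
(.leaf p100_l115))
(.leaf p100_l116))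
(.leaf p100_l117))
(.spl (nat_lit 2) (nat_lit 148)
(.spl (nat_lit 7) (nat_lit 840)
(.spl (nat_lit 7) (nat_lit 800)
(.leaf p100_l118)
(.leaf p100_l119))
(.leaf p100_l120))
(.spl (nat_lit 7) (nat_lit 840)
(.leaf p100_l121)
(.leaf p100_l122)))))
(.trZ (nat_lit 0) (nat_lit 83) (nat_lit 83) (nat_lit 100) (nat_lit 144) (.spl (nat_lit 7) (nat_lit 760)
(.leaf p100_l123)
(.leaf p100_l124))))
(.ord (.trZ (nat_lit 0) (nat_lit 83) (nat_lit 83) (nat_lit 100) (nat_lit 144) (.leaf p100_l125))))) (by decide +kernel)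
noncomputable def p100_l126 : Lf2 := ⟨nat_lit 0, nat_lit 5, [nat_lit 4, nat_lit 5, nat_lit 5, nat_lit 20], false, nat_lit 160, nat_lit 280, nat_lit 160, nat_lit 280, ⟨nat_lit 1000, nat_lit 0, nat_lit 0, nat_lit 0, nat_lit 0, nat_lit 0, nat_lit 0, nat_lit 0, nat_lit 0, nat_lit 0, nat_lit 0, nat_lit 0, nat_lit 0, nat_lit 0, nat_lit 0, nat_lit 0, false, false⟩,
 nat_lit 0, nat_lit 10127, nat_lit 0, nat_lit 0, nat_lit 7595, nat_lit 3841, nat_lit 470, nat_lit 0, nat_lit 0, nat_lit 0, nat_lit 0, nat_lit 0, nat_lit 0, nat_lit 0, nat_lit 0, nat_lit 0, nat_lit 0, nat_lit 0, [],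
 ⟨p100_k4, nat_lit 0, nat_lit 0, nat_lit 350, nat_lit 0, nat_lit 827238, [nat_lit 2032000001, nat_lit 4688000000, nat_lit 6250000000], [], [nat_lit 20291411300, nat_lit 20472117255, nat_lit 21729407520, nat_lit 21879191388, nat_lit 23082384135, nat_lit 23224132781, nat_lit 25237779390, nat_lit 25496150602], nat_lit 1271250, nat_lit 1271250, nat_lit 936251, nat_lit 1773750, nat_lit 1100001, nat_lit 2127500, [nat_lit 490000, nat_lit 1100000, nat_lit 1442500], [nat_lit 6, nat_lit 40, nat_lit 40, nat_lit 80, nat_lit 3, nat_lit 373, nat_lit 150, nat_lit 13]⟩, ⟨p100_k4, nat_lit 0, nat_lit 0, nat_lit 34, nat_lit 0, nat_lit 0, [nat_lit 2032000000, nat_lit 4688000000, nat_lit 6250000000], [], [nat_lit 16126618302, nat_lit 16381579555, nat_lit 19441248092, nat_lit 19654476101, nat_lit 21211182815, nat_lit 21411842847, nat_lit 23646226042, nat_lit 23824878624], nat_lit 0, nat_lit 0, nat_lit 0, nat_lit 0, nat_lit 0, nat_lit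 0, [], [nat_lit 6, nat_lit 40, nat_lit 40, nat_lit 80, nat_lit 3, nat_lit 373, nat_lit 150, nat_lit 13]⟩,
 zbF0, [⟨nat_lit 0, nat_lit 81, nat_lit 81, nat_lit 100, nat_lit 372921929⟩, ⟨nat_lit 16, nat_lit 87, nat_lit 100, nat_lit 94, nat_lit 402760921⟩, ⟨nat_lit 19, nat_lit 87, nat_lit 100, nat_lit 94, nat_lit 475115397⟩]⟩
noncomputable def p100_l127 : Lf2 := ⟨nat_lit 0, nat_lit 5, [nat_lit 4, nat_lit 5, nat_lit 5, nat_lit 20], false, nat_lit 160, nat_lit 300, nat_lit 160, nat_lit 300, ⟨nat_lit 1000, nat_lit 0, nat_lit 0, nat_lit 0, nat_lit 0, nat_lit 0, nat_lit 0, nat_lit 0, nat_lit 0, nat_lit 0, nat_lit 0, nat_lit 0, nat_lit 0, nat_lit 0, nat_lit 0, nat_lit 0, false, false⟩,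
 nat_lit 0, nat_lit 9387, nat_lit 0, nat_lit 0, nat_lit 7040, nat_lit 3785, nat_lit 495, nat_lit 0, nat_lit 0, nat_lit 0, nat_lit 0, nat_lit 0, nat_lit 0, nat_lit 0, nat_lit 0, nat_lit 0, nat_lit 0, nat_lit 0, [],
 ⟨p100_k4, nat_lit 0, nat_lit 0, nat_lit 314, nat_lit 0, nat_lit 723300, [nat_lit 2032000001, nat_lit 4688000000, nat_lit 6250000000], [], [nat_lit 20341105840, nat_lit 20550337553, nat_lit 21194455360, nat_lit 21382966444, nat_lit 24606678400, nat_lit 24762067639, nat_lit 24993625160, nat_lit 25144090289], nat_lit 1271250, nat_lit 1271250, nat_lit 936251, nat_lit 1438750, nat_lit 1100001, nat_lit 2298750, [nat_lit 490000, nat_lit 1100000, nat_lit 1442500], [nat_lit 6, nat_lit 40, nat_lit 40, nat_lit 80, nat_lit 3, nat_lit 345, nat_lit 125, nat_lit 12]⟩, ⟨p100_k4, nat_lit 0, nat_lit 0, nat_lit 41, nat_lit 0, nat_lit 0, [nat_lit 2032000000, nat_lit 4688000000, nat_lit 6250000000], [], [nat_lit 16171092270,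 nat_lit 16424028737, nat_lit 17857005040, nat_lit 18085977000, nat_lit 22278019223, nat_lit 22467899332, nat_lit 23383856515, nat_lit 23557080846], nat_lit 0, nat_lit 0, nat_lit 0, nat_lit 0, nat_lit 0, nat_lit 0, [], [nat_lit 6, nat_lit 40, nat_lit 40, nat_lit 80, nat_lit 3, nat_lit 345, nat_lit 125, nat_lit 12]⟩,
 zbF0, [⟨nat_lit 0, nat_lit 81, nat_lit 81, nat_lit 100, nat_lit 560615625⟩, ⟨nat_lit 16, nat_lit 87, nat_lit 95, nat_lit 100, nat_lit 406836549⟩, ⟨nat_lit 19, nat_lit 87, nat_lit 95, nat_lit 100, nat_lit 477038374⟩]⟩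
noncomputable def p100_l128 : Lf2 := ⟨nat_lit 0, nat_lit 5, [nat_lit 4, nat_lit 5, nat_lit 5, nat_lit 20], false, nat_lit 160, nat_lit 300, nat_lit 160, nat_lit 300, ⟨nat_lit 1000, nat_lit 0, nat_lit 0, nat_lit 0, nat_lit 0, nat_lit 0, nat_lit 0, nat_lit 0, nat_lit 0, nat_lit 0, nat_lit 0, nat_lit 0, nat_lit 0, nat_lit 0, nat_lit 0, nat_lit 0, false, false⟩,
 nat_lit 0, nat_lit 9387, nat_lit 0, nat_lit 0, nat_lit 7040, nat_lit 3815, nat_lit 469, nat_lit 0, nat_lit 0, nat_lit 0, nat_lit 0, nat_lit 0, nat_lit 0, nat_lit 0, nat_lit 0, nat_lit 0, nat_lit 0, nat_lit 0, [],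
 ⟨p100_k4, nat_lit 0, nat_lit 0, nat_lit 301, nat_lit 0, nat_lit 723300, [nat_lit 2032000001, nat_lit 4688000000, nat_lit 6250000000], [], [nat_lit 21298455360, nat_lit 21486966444, nat_lit 22379819520, nat_lit 22553504964, nat_lit 25004453840, nat_lit 25144475816, nat_lit 26196502000, nat_lit 26429738420], nat_lit 1271250, nat_lit 1271250, nat_lit 1271250, nat_lit 1271250, nat_lit 1100001, nat_lit 2298750, [nat_lit 490000, nat_lit 1100000, nat_lit 1442500], [nat_lit 6, nat_lit 40, nat_lit 40, nat_lit 80, nat_lit 3, nat_lit 289, nat_lit 75, nat_lit 10]⟩, ⟨p100_k4, nat_lit 0, nat_lit 0, nat_lit 36, nat_lit 0, nat_lit 0, [nat_lit 2032000000, nat_lit 4688000000, nat_lit 6250000000], [], [nat_lit 17833753360, nat_lit 18063671121, nat_lit 19458251780, nat_lit 19670747915, nat_lit 23372851885, nat_lit 23546696925, nat_lit 24554573875, nat_lit 24724457669], nat_lit 0, nat_lit 0, nat_lit 0, nat_lit 0, nat_lit 0, nat_lit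 0, [], [nat_lit 6, nat_lit 40, nat_lit 40, nat_lit 80, nat_lit 3, nat_lit 289, nat_lit 75, nat_lit 10]⟩,
 zbF0, [⟨nat_lit 16, nat_lit 87, nat_lit 95, nat_lit 100, nat_lit 402587267⟩, ⟨nat_lit 19, nat_lit 87, nat_lit 95, nat_lit 100, nat_lit 477541330⟩]⟩
noncomputable def b_V_800_800_20_11 : St := ⟨true, nat_lit 1, nat_lit 0, nat_lit 1, nat_lit 120, nat_lit 320, nat_lit 323, nat_lit 320, nat_lit 323, nat_lit 140, nat_lit 240, nat_lit 80, nat_lit 120, nat_lit 160, nat_lit 300, nat_lit 160, nat_lit 300, nat_lit 8, nat_lit 20, nat_lit 0, nat_lit 0, nat_lit 0, nat_lit 0⟩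
theorem d_V_800_800_20_11 (h : EB TB.env) : Dead b_V_800_800_20_11 := chkB_sound0 h (T :=
(.spl (nat_lit 3) (nat_lit 100)
(.trX (nat_lit 16) (nat_lit 87) (nat_lit 100) (nat_lit 94) (nat_lit 280) (.trX (nat_lit 19) (nat_lit 87) (nat_lit 100) (nat_lit 94) (nat_lit 280) (.leaf p100_l126)))
(.spl (nat_lit 2) (nat_lit 200)
(.leaf p100_l127)
(.leaf p100_l128)))) (by decide +kernel)
noncomputable def p100_l129 : Lf2 := ⟨nat_lit 0, nat_lit 5, [nat_lit 4, nat_lit 5, nat_lit 5, nat_lit 20], false, nat_lit 160, nat_lit 296, nat_lit 160, nat_lit 300, ⟨nat_lit 1000, nat_lit 0, nat_lit 0, nat_lit 0, nat_lit 0, nat_lit 0, nat_lit 0, nat_lit 0, nat_lit 0, nat_lit 0, nat_lit 0, nat_lit 0, nat_lit 0, nat_lit 0, nat_lit 0, nat_lit 0, false, false⟩,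
 nat_lit 0, nat_lit 8263, nat_lit 0, nat_lit 0, nat_lit 6270, nat_lit 3786, nat_lit 3292, nat_lit 0, nat_lit 0, nat_lit 0, nat_lit 0, nat_lit 0, nat_lit 0, nat_lit 3831111006029, nat_lit 0, nat_lit 0, nat_lit 0, nat_lit 0, [],
 ⟨p100_k18, nat_lit 0, nat_lit 0, nat_lit 356, nat_lit 0, nat_lit 984788, [nat_lit 2032000001, nat_lit 4688000000], [], [nat_lit 20230436625, nat_lit 20288264673, nat_lit 21924549506, nat_lit 21973253248, nat_lit 23739990853, nat_lit 23783997660, nat_lit 25799321636, nat_lit 25872833332], nat_lit 1271250, nat_lit 1271250, nat_lit 968401, nat_lit 1776000, nat_lit 1100001, nat_lit 2264500, [nat_lit 490000, nat_lit 1100000], [nat_lit 24, nat_lit 40, nat_lit 40, nat_lit 80, nat_lit 33, nat_lit 272, nat_lit 60, nat_lit 11]⟩, ⟨p100_k4, nat_lit 0, nat_lit 0, nat_lit 41, nat_lit 0, nat_lit 0, [nat_lit 2032000000, nat_lit 4688000000, nat_lit 6250000000], [], [nat_lit 16254052425, nat_lit 16589335562,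 nat_lit 19477217432, nat_lit 19759457184, nat_lit 22327104334, nat_lit 22578919324, nat_lit 24545587348, nat_lit 24765561398], nat_lit 0, nat_lit 0, nat_lit 0, nat_lit 0, nat_lit 0, nat_lit 0, [], [nat_lit 6, nat_lit 40, nat_lit 40, nat_lit 80, nat_lit 3, nat_lit 373, nat_lit 150, nat_lit 13]⟩,
 zbF0, [⟨nat_lit 0, nat_lit 81, nat_lit 81, nat_lit 100, nat_lit 387071608⟩, ⟨nat_lit 16, nat_lit 86, nat_lit 96, nat_lit 100, nat_lit 403686733⟩, ⟨nat_lit 19, nat_lit 87, nat_lit 95, nat_lit 100, nat_lit 457967303⟩]⟩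
noncomputable def p100_l130 : Lf2 := ⟨nat_lit 0, nat_lit 5, [nat_lit 4, nat_lit 5, nat_lit 5, nat_lit 20], false, nat_lit 160, nat_lit 296, nat_lit 160, nat_lit 300, ⟨nat_lit 1000, nat_lit 0, nat_lit 0, nat_lit 0, nat_lit 0, nat_lit 0, nat_lit 0, nat_lit 0, nat_lit 0, nat_lit 0, nat_lit 0, nat_lit 0, nat_lit 0, nat_lit 0, nat_lit 0, nat_lit 0, false, false⟩,
 nat_lit 0, nat_lit 7741, nat_lit 0, nat_lit 0, nat_lit 5896, nat_lit 3787, nat_lit 3064, nat_lit 0, nat_lit 0, nat_lit 0, nat_lit 0, nat_lit 0, nat_lit 0, nat_lit 1827130176608, nat_lit 0, nat_lit 0, nat_lit 0, nat_lit 0, [],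
 ⟨p100_k27, nat_lit 0, nat_lit 0, nat_lit 359, nat_lit 0, nat_lit 995669, [nat_lit 2032000001, nat_lit 4688000000], [], [nat_lit 20538203279, nat_lit 20586349609, nat_lit 21976144559, nat_lit 22017210282, nat_lit 23634007160, nat_lit 23676578185, nat_lit 25678836136, nat_lit 25749859173], nat_lit 1271250, nat_lit 1271250, nat_lit 1000851, nat_lit 1778250, nat_lit 1100001, nat_lit 2264500, [nat_lit 490000, nat_lit 1100000], [nat_lit 24, nat_lit 40, nat_lit 40, nat_lit 80, nat_lit 33, nat_lit 272, nat_lit 60, nat_lit 11]⟩, ⟨p100_k4, nat_lit 0, nat_lit 0, nat_lit 41, nat_lit 0, nat_lit 0, [nat_lit 2032000000, nat_lit 4688000000, nat_lit 6250000000], [], [nat_lit 16337002703, nat_lit 16753648804, nat_lit 19476563444, nat_lit 19829410049, nat_lit 22376167503, nat_lit 22689237480, nat_lit 24545256566, nat_lit 24822541301], nat_lit 0, nat_lit 0, nat_lit 0, nat_lit 0, nat_lit 0, nat_lit 0, [], [nat_lit 6, nat_lit 40, nat_lit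 40, nat_lit 80, nat_lit 3, nat_lit 373, nat_lit 150, nat_lit 13]⟩,
 zbF0, [⟨nat_lit 0, nat_lit 80, nat_lit 80, nat_lit 100, nat_lit 383593091⟩, ⟨nat_lit 16, nat_lit 86, nat_lit 96, nat_lit 100, nat_lit 386400652⟩, ⟨nat_lit 19, nat_lit 87, nat_lit 95, nat_lit 100, nat_lit 457450618⟩]⟩
noncomputable def p100_l131 : Lf2 := ⟨nat_lit 0, nat_lit 10, [nat_lit 0, nat_lit 5, nat_lit 5, nat_lit 20], false, nat_lit 160, nat_lit 296, nat_lit 160, nat_lit 300, ⟨nat_lit 1000, nat_lit 0, nat_lit 0, nat_lit 0, nat_lit 0, nat_lit 0, nat_lit 0, nat_lit 0, nat_lit 0, nat_lit 0, nat_lit 0, nat_lit 0, nat_lit 0, nat_lit 0, nat_lit 0, nat_lit 0, false, false⟩,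
 nat_lit 0, nat_lit 9214, nat_lit 0, nat_lit 0, nat_lit 6991, nat_lit 3782, nat_lit 511, nat_lit 0, nat_lit 0, nat_lit 0, nat_lit 0, nat_lit 0, nat_lit 0, nat_lit 8556728630431, nat_lit 0, nat_lit 0, nat_lit 0, nat_lit 0, [],
 ⟨p100_k9, nat_lit 0, nat_lit 0, nat_lit 313, nat_lit 0, nat_lit 723073, [nat_lit 2032000001, nat_lit 4688000000, nat_lit 6250000000], [], [nat_lit 20173271110, nat_lit 20311312185, nat_lit 22047553216, nat_lit 22162906804, nat_lit 24188917884, nat_lit 24292490318, nat_lit 26168513226, nat_lit 26325131931], nat_lit 1271250, nat_lit 1271250, nat_lit 968401, nat_lit 1776000, nat_lit 1100001, nat_lit 2264500, [nat_lit 490000, nat_lit 1100000, nat_lit 1442500], [nat_lit 6, nat_lit 40, nat_lit 40, nat_lit 80, nat_lit 3, nat_lit 373, nat_lit 150, nat_lit 13]⟩, ⟨p100_k0, nat_lit 0, nat_lit 0, nat_lit 42, nat_lit 0, nat_lit 0, [nat_lit 2032000000, nat_lit 4688000000, nat_lit 6250000000], [], [nat_lit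 16257248889, nat_lit 16676113697, nat_lit 19479833384, nat_lit 19832445414, nat_lit 22328274864, nat_lit 22642886029, nat_lit 24546910476, nat_lit 24819831974], nat_lit 0, nat_lit 0, nat_lit 0, nat_lit 0, nat_lit 0, nat_lit 0, [], [nat_lit 6, nat_lit 40, nat_lit 40, nat_lit 80, nat_lit 3, nat_lit 373, nat_lit 150, nat_lit 13]⟩,
 zbF0, [⟨nat_lit 0, nat_lit 80, nat_lit 80, nat_lit 100, nat_lit 400228890⟩, ⟨nat_lit 16, nat_lit 86, nat_lit 96, nat_lit 100, nat_lit 424441951⟩, ⟨nat_lit 19, nat_lit 87, nat_lit 95, nat_lit 100, nat_lit 457200323⟩]⟩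
noncomputable def b_V_800_800_20_12 : St := ⟨true, nat_lit 1, nat_lit 0, nat_lit 1, nat_lit 120, nat_lit 323, nat_lit 325, nat_lit 320, nat_lit 325, nat_lit 140, nat_lit 240, nat_lit 80, nat_lit 120, nat_lit 160, nat_lit 300, nat_lit 160, nat_lit 300, nat_lit 0, nat_lit 40, nat_lit 0, nat_lit 0, nat_lit 0, nat_lit 0⟩
theorem d_V_800_800_20_12 (h : EB TB.env) : Dead b_V_800_800_20_12 := chkB_sound0 h (T :=
(.trZ (nat_lit 0) (nat_lit 83) (nat_lit 82) (nat_lit 100) (nat_lit 144) (.trX (nat_lit 16) (nat_lit 86) (nat_lit 96) (nat_lit 100) (nat_lit 296) (.spl (nat_lit 6) (nat_lit 20)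
(.spl (nat_lit 0) (nat_lit 324)
(.ord (.leaf p100_l129))
(.trZ (nat_lit 0) (nat_lit 83) (nat_lit 81) (nat_lit 100) (nat_lit 148) (.leaf p100_l130)))
(.leaf p100_l131))))) (by decide +kernel)
noncomputable def p100_l132 : Lf2 := ⟨nat_lit 0, nat_lit 10, [nat_lit 0, nat_lit 5, nat_lit 5, nat_lit 20], false, nat_lit 0, nat_lit 160, nat_lit 0, nat_lit 160, ⟨nat_lit 1000, nat_lit 0, nat_lit 0, nat_lit 0, nat_lit 0, nat_lit 0, nat_lit 0, nat_lit 0, nat_lit 0, nat_lit 0, nat_lit 0, nat_lit 0, nat_lit 0, nat_lit 0, nat_lit 0, nat_lit 0, false, false⟩,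
 nat_lit 0, nat_lit 8438, nat_lit 0, nat_lit 0, nat_lit 6328, nat_lit 5678, nat_lit 429, nat_lit 0, nat_lit 0, nat_lit 626, nat_lit 0, nat_lit 0, nat_lit 0, nat_lit 0, nat_lit 0, nat_lit 0, nat_lit 0, nat_lit 0, [],
 ⟨p100_k0, nat_lit 0, nat_lit 0, nat_lit 565, nat_lit 0, nat_lit 1130711, [nat_lit 2032000001, nat_lit 4688000000, nat_lit 6250000000], [], [nat_lit 33401645568, nat_lit 33756829672, nat_lit 38978127968, nat_lit 39675830920, nat_lit 30749524962, nat_lit 31022701346, nat_lit 34770542688, nat_lit 34994293024], nat_lit 1271250, nat_lit 1271250, nat_lit 1271250, nat_lit 1271250, nat_lit 0, nat_lit 1100001, [nat_lit 490000, nat_lit 1100000, nat_lit 1442500], [nat_lit 6, nat_lit 40, nat_lit 40, nat_lit 80, nat_lit 3, nat_lit 253, nat_lit 40, nat_lit 9]⟩, ⟨p100_k0, nat_lit 0, nat_lit 0, nat_lit 174, nat_lit 0, nat_lit 0, [nat_lit 2032000000, nat_lit 4688000000, nat_lit 6250000000], [], [nat_lit 25865843904,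 nat_lit 26654809712, nat_lit 37159586568, nat_lit 37818852420, nat_lit 23353637712, nat_lit 24015457384, nat_lit 31574106648, nat_lit 32004264036], nat_lit 0, nat_lit 0, nat_lit 0, nat_lit 0, nat_lit 0, nat_lit 0, [], [nat_lit 6, nat_lit 40, nat_lit 40, nat_lit 80, nat_lit 3, nat_lit 249, nat_lit 40, nat_lit 9]⟩,
 zbF0, []⟩
noncomputable def p100_l133 : Lf2 := ⟨nat_lit 0, nat_lit 10, [nat_lit 0, nat_lit 5, nat_lit 5, nat_lit 20], false, nat_lit 0, nat_lit 160, nat_lit 160, nat_lit 300, ⟨nat_lit 1000, nat_lit 0, nat_lit 0, nat_lit 0, nat_lit 0, nat_lit 0, nat_lit 0, nat_lit 0, nat_lit 0, nat_lit 0, nat_lit 0, nat_lit 0, nat_lit 0, nat_lit 0, nat_lit 0, nat_lit 0, false, false⟩,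
 nat_lit 0, nat_lit 8438, nat_lit 0, nat_lit 0, nat_lit 6328, nat_lit 5513, nat_lit 429, nat_lit 0, nat_lit 0, nat_lit 0, nat_lit 0, nat_lit 0, nat_lit 0, nat_lit 0, nat_lit 0, nat_lit 0, nat_lit 0, nat_lit 0, [],
 ⟨p100_k0, nat_lit 0, nat_lit 0, nat_lit 565, nat_lit 0, nat_lit 1130711, [nat_lit 2032000001, nat_lit 4688000000, nat_lit 6250000000], [], [nat_lit 33401645568, nat_lit 33756829672, nat_lit 38978127968, nat_lit 39675830920, nat_lit 30749524962, nat_lit 31022701346, nat_lit 34770542688, nat_lit 34994293024], nat_lit 1271250, nat_lit 1271250, nat_lit 1271250, nat_lit 1271250, nat_lit 0, nat_lit 1100001, [nat_lit 490000, nat_lit 1100000, nat_lit 1442500], [nat_lit 6, nat_lit 40, nat_lit 40, nat_lit 80, nat_lit 3, nat_lit 253, nat_lit 40, nat_lit 9]⟩, ⟨p100_k0, nat_lit 0, nat_lit 0, nat_lit 80, nat_lit 0, nat_lit 0, [nat_lit 2032000000, nat_lit 4688000000, nat_lit 6250000000], [], [nat_lit 21329121184, nat_lit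 22104749052, nat_lit 30900935968, nat_lit 31395743342, nat_lit 26340293515, nat_lit 26918103657, nat_lit 33656162834, nat_lit 34084053486], nat_lit 0, nat_lit 0, nat_lit 0, nat_lit 0, nat_lit 0, nat_lit 0, [], [nat_lit 6, nat_lit 40, nat_lit 40, nat_lit 80, nat_lit 3, nat_lit 289, nat_lit 75, nat_lit 9]⟩,
 zbF0, [⟨nat_lit 7, nat_lit 100, nat_lit 84, nat_lit 93, nat_lit 493251241⟩]⟩
noncomputable def p100_l134 : Lf2 := ⟨nat_lit 0, nat_lit 10, [nat_lit 0, nat_lit 5, nat_lit 5, nat_lit 20], false, nat_lit 160, nat_lit 300, nat_lit 0, nat_lit 160, ⟨nat_lit 1000, nat_lit 0, nat_lit 0, nat_lit 0, nat_lit 0, nat_lit 0, nat_lit 0, nat_lit 0, nat_lit 0, nat_lit 0, nat_lit 0, nat_lit 0, nat_lit 0, nat_lit 0, nat_lit 0, nat_lit 0, false, false⟩,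
 nat_lit 0, nat_lit 7827, nat_lit 0, nat_lit 0, nat_lit 5870, nat_lit 5576, nat_lit 462, nat_lit 0, nat_lit 0, nat_lit 2358, nat_lit 0, nat_lit 0, nat_lit 0, nat_lit 0, nat_lit 0, nat_lit 0, nat_lit 0, nat_lit 0, [],
 ⟨p100_k0, nat_lit 0, nat_lit 0, nat_lit 476, nat_lit 0, nat_lit 1130711, [nat_lit 2032000001, nat_lit 4688000000, nat_lit 6250000000], [], [nat_lit 30804134602, nat_lit 31124321642, nat_lit 35306165960, nat_lit 35570632210, nat_lit 32765217582, nat_lit 33026438090, nat_lit 36389386490, nat_lit 36587636578], nat_lit 1271250, nat_lit 1271250, nat_lit 1271250, nat_lit 1271250, nat_lit 1100001, nat_lit 2298750, [nat_lit 490000, nat_lit 1100000, nat_lit 1442500], [nat_lit 6, nat_lit 40, nat_lit 40, nat_lit 80, nat_lit 3, nat_lit 289, nat_lit 75, nat_lit 9]⟩, ⟨p100_k0, nat_lit 0, nat_lit 0, nat_lit 174, nat_lit 0, nat_lit 0, [nat_lit 2032000000, nat_lit 4688000000, nat_lit 6250000000], [], [nat_lit 25959360768,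 nat_lit 26740081304, nat_lit 36874215456, nat_lit 37527449640, nat_lit 23545142304, nat_lit 24200451928, nat_lit 31696494816, nat_lit 32123495712], nat_lit 0, nat_lit 0, nat_lit 0, nat_lit 0, nat_lit 0, nat_lit 0, [], [nat_lit 6, nat_lit 40, nat_lit 40, nat_lit 80, nat_lit 3, nat_lit 249, nat_lit 40, nat_lit 9]⟩,
 zbF0, [⟨nat_lit 4, nat_lit 100, nat_lit 84, nat_lit 93, nat_lit 368183636⟩]⟩
noncomputable def p100_l135 : Lf2 := ⟨nat_lit 0, nat_lit 10, [nat_lit 0, nat_lit 5, nat_lit 5, nat_lit 20], false, nat_lit 160, nat_lit 300, nat_lit 160, nat_lit 300, ⟨nat_lit 1000, nat_lit 0, nat_lit 0, nat_lit 0, nat_lit 0, nat_lit 0, nat_lit 0, nat_lit 0, nat_lit 0, nat_lit 0, nat_lit 0, nat_lit 0, nat_lit 0, nat_lit 0, nat_lit 0, nat_lit 0, false, false⟩,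
 nat_lit 0, nat_lit 9654, nat_lit 0, nat_lit 0, nat_lit 7240, nat_lit 3783, nat_lit 3412, nat_lit 0, nat_lit 0, nat_lit 0, nat_lit 0, nat_lit 0, nat_lit 0, nat_lit 0, nat_lit 0, nat_lit 0, nat_lit 0, nat_lit 0, [],
 ⟨p100_k0, nat_lit 0, nat_lit 0, nat_lit 424, nat_lit 0, nat_lit 1011833, [nat_lit 2032000001, nat_lit 4688000000, nat_lit 6250000000], [], [nat_lit 24384438080, nat_lit 24514300664, nat_lit 26616735680, nat_lit 26723791580, nat_lit 26628914320, nat_lit 26725355500, nat_lit 30310774160, nat_lit 30501693374], nat_lit 1271250, nat_lit 1271250, nat_lit 1271250, nat_lit 1271250, nat_lit 1100001, nat_lit 2298750, [nat_lit 490000, nat_lit 1100000, nat_lit 1442500], [nat_lit 6, nat_lit 40, nat_lit 40, nat_lit 80, nat_lit 3, nat_lit 289, nat_lit 75, nat_lit 9]⟩, ⟨p100_k0, nat_lit 0, nat_lit 0, nat_lit 50, nat_lit 0, nat_lit 0, [nat_lit 2032000000, nat_lit 4688000000, nat_lit 6250000000], [], [nat_lit 19479179396,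 nat_lit 19690774764, nat_lit 23554572964, nat_lit 23739341441, nat_lit 24546579694, nat_lit 24707581619, nat_lit 27703732922, nat_lit 27845254286], nat_lit 0, nat_lit 0, nat_lit 0, nat_lit 0, nat_lit 0, nat_lit 0, [], [nat_lit 6, nat_lit 40, nat_lit 40, nat_lit 80, nat_lit 3, nat_lit 289, nat_lit 75, nat_lit 9]⟩,
 zbF0, [⟨nat_lit 16, nat_lit 87, nat_lit 95, nat_lit 100, nat_lit 343207390⟩, ⟨nat_lit 19, nat_lit 87, nat_lit 95, nat_lit 100, nat_lit 420994227⟩]⟩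
noncomputable def p100_l136 : Lf2 := ⟨nat_lit 0, nat_lit 10, [nat_lit 0, nat_lit 5, nat_lit 5, nat_lit 20], false, nat_lit 160, nat_lit 296, nat_lit 160, nat_lit 300, ⟨nat_lit 1000, nat_lit 0, nat_lit 0, nat_lit 0, nat_lit 0, nat_lit 0, nat_lit 0, nat_lit 0, nat_lit 0, nat_lit 0, nat_lit 0, nat_lit 0, nat_lit 0, nat_lit 0, nat_lit 0, nat_lit 0, false, false⟩,
 nat_lit 0, nat_lit 8273, nat_lit 0, nat_lit 0, nat_lit 6277, nat_lit 3776, nat_lit 2873, nat_lit 0, nat_lit 0, nat_lit 0, nat_lit 0, nat_lit 0, nat_lit 0, nat_lit 18442674055615, nat_lit 0, nat_lit 0, nat_lit 0, nat_lit 0, [],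
 ⟨p100_k9, nat_lit 0, nat_lit 0, nat_lit 430, nat_lit 0, nat_lit 1028717, [nat_lit 2032000001, nat_lit 4688000000, nat_lit 6250000000], [], [nat_lit 23699513303, nat_lit 23780710581, nat_lit 25839149739, nat_lit 25906812789, nat_lit 25888922524, nat_lit 25950851271, nat_lit 29587134682, nat_lit 29706527339], nat_lit 1271250, nat_lit 1271250, nat_lit 1271250, nat_lit 1271250, nat_lit 1100001, nat_lit 2264500, [nat_lit 490000, nat_lit 1100000, nat_lit 1442500], [nat_lit 6, nat_lit 40, nat_lit 40, nat_lit 80, nat_lit 3, nat_lit 289, nat_lit 75, nat_lit 9]⟩, ⟨p100_k0, nat_lit 0, nat_lit 0, nat_lit 50, nat_lit 0, nat_lit 0, [nat_lit 2032000000, nat_lit 4688000000, nat_lit 6250000000], [], [nat_lit 19483757312, nat_lit 19836087852, nat_lit 23550212608, nat_lit 23857897100, nat_lit 24548895168, nat_lit 24817017484, nat_lit 27698453984, nat_lit 27934156215], nat_lit 0, nat_lit 0, nat_lit 0, nat_lit 0, nat_lit 0, nat_lit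 0, [], [nat_lit 6, nat_lit 40, nat_lit 40, nat_lit 80, nat_lit 3, nat_lit 289, nat_lit 75, nat_lit 9]⟩,
 zbF0, [⟨nat_lit 16, nat_lit 86, nat_lit 96, nat_lit 100, nat_lit 347015999⟩, ⟨nat_lit 19, nat_lit 87, nat_lit 95, nat_lit 100, nat_lit 420259163⟩]⟩
noncomputable def p100_l137 : Lf2 := ⟨nat_lit 0, nat_lit 10, [nat_lit 0, nat_lit 5, nat_lit 5, nat_lit 20], false, nat_lit 160, nat_lit 280, nat_lit 160, nat_lit 280, ⟨nat_lit 1000, nat_lit 0, nat_lit 0, nat_lit 0, nat_lit 0, nat_lit 0, nat_lit 0, nat_lit 0, nat_lit 0, nat_lit 0, nat_lit 0, nat_lit 0, nat_lit 0, nat_lit 0, nat_lit 0, nat_lit 0, false, false⟩,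
 nat_lit 0, nat_lit 8442, nat_lit 0, nat_lit 0, nat_lit 6331, nat_lit 5378, nat_lit 2904, nat_lit 0, nat_lit 0, nat_lit 0, nat_lit 0, nat_lit 0, nat_lit 0, nat_lit 0, nat_lit 0, nat_lit 0, nat_lit 0, nat_lit 0, [],
 ⟨p100_k0, nat_lit 0, nat_lit 0, nat_lit 437, nat_lit 0, nat_lit 1017344, [nat_lit 2032000001, nat_lit 4688000000, nat_lit 6250000000], [], [nat_lit 30532769492, nat_lit 30702446867, nat_lit 33401363748, nat_lit 33535965261, nat_lit 31840364746, nat_lit 31973948252, nat_lit 34124213582, nat_lit 34229035845], nat_lit 1271250, nat_lit 1271250, nat_lit 1271250, nat_lit 1271250, nat_lit 1100001, nat_lit 2127500, [nat_lit 490000, nat_lit 1100000, nat_lit 1442500], [nat_lit 6, nat_lit 40, nat_lit 40, nat_lit 80, nat_lit 3, nat_lit 289, nat_lit 75, nat_lit 9]⟩, ⟨p100_k0, nat_lit 0, nat_lit 0, nat_lit 79, nat_lit 0, nat_lit 0, [nat_lit 2032000000, nat_lit 4688000000, nat_lit 6250000000], [], [nat_lit 25692604360,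 nat_lit 26006290326, nat_lit 30907208608, nat_lit 31151925930, nat_lit 28772309608, nat_lit 29019840016, nat_lit 32920248820, nat_lit 33114341766], nat_lit 0, nat_lit 0, nat_lit 0, nat_lit 0, nat_lit 0, nat_lit 0, [], [nat_lit 6, nat_lit 40, nat_lit 40, nat_lit 80, nat_lit 3, nat_lit 289, nat_lit 75, nat_lit 9]⟩,
 zbF0, [⟨nat_lit 16, nat_lit 87, nat_lit 100, nat_lit 94, nat_lit 297900825⟩, ⟨nat_lit 19, nat_lit 87, nat_lit 100, nat_lit 94, nat_lit 296543365⟩, ⟨nat_lit 7, nat_lit 100, nat_lit 84, nat_lit 88, nat_lit 73057528⟩]⟩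
noncomputable def p100_l138 : Lf2 := ⟨nat_lit 0, nat_lit 10, [nat_lit 0, nat_lit 5, nat_lit 5, nat_lit 20], false, nat_lit 160, nat_lit 300, nat_lit 160, nat_lit 300, ⟨nat_lit 1000, nat_lit 0, nat_lit 0, nat_lit 0, nat_lit 0, nat_lit 0, nat_lit 0, nat_lit 0, nat_lit 0, nat_lit 0, nat_lit 0, nat_lit 0, nat_lit 0, nat_lit 0, nat_lit 0, nat_lit 0, false, false⟩,
 nat_lit 0, nat_lit 8100, nat_lit 0, nat_lit 0, nat_lit 6075, nat_lit 5323, nat_lit 464, nat_lit 0, nat_lit 0, nat_lit 0, nat_lit 0, nat_lit 0, nat_lit 0, nat_lit 0, nat_lit 0, nat_lit 0, nat_lit 0, nat_lit 0, [],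
 ⟨p100_k0, nat_lit 0, nat_lit 0, nat_lit 399, nat_lit 0, nat_lit 911276, [nat_lit 2032000001, nat_lit 4688000000, nat_lit 6250000000], [], [nat_lit 29693592600, nat_lit 29891484388, nat_lit 33049778400, nat_lit 33208495513, nat_lit 31852799225, nat_lit 32003503291, nat_lit 34417527675, nat_lit 34536286969], nat_lit 1271250, nat_lit 1271250, nat_lit 1271250, nat_lit 1271250, nat_lit 1100001, nat_lit 2298750, [nat_lit 490000, nat_lit 1100000, nat_lit 1442500], [nat_lit 6, nat_lit 40, nat_lit 40, nat_lit 80, nat_lit 3, nat_lit 289, nat_lit 75, nat_lit 9]⟩, ⟨p100_k0, nat_lit 0, nat_lit 0, nat_lit 79, nat_lit 0, nat_lit 0, [nat_lit 2032000000, nat_lit 4688000000, nat_lit 6250000000], [], [nat_lit 25723535260, nat_lit 26035560391, nat_lit 30909764128, nat_lit 31153387005, nat_lit 29519628030, nat_lit 29754415537, nat_lit 33461173777, nat_lit 33645510148], nat_lit 0, nat_lit 0, nat_lit 0, nat_lit 0, nat_lit 0, nat_lit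 0, [], [nat_lit 6, nat_lit 40, nat_lit 40, nat_lit 80, nat_lit 3, nat_lit 289, nat_lit 75, nat_lit 9]⟩,
 zbF0, [⟨nat_lit 16, nat_lit 87, nat_lit 95, nat_lit 100, nat_lit 306949030⟩, ⟨nat_lit 19, nat_lit 87, nat_lit 95, nat_lit 100, nat_lit 354744534⟩]⟩
noncomputable def p100_l139 : Lf2 := ⟨nat_lit 0, nat_lit 10, [nat_lit 0, nat_lit 5, nat_lit 5, nat_lit 20], false, nat_lit 160, nat_lit 296, nat_lit 160, nat_lit 300, ⟨nat_lit 1000, nat_lit 0, nat_lit 0, nat_lit 0, nat_lit 0, nat_lit 0, nat_lit 0, nat_lit 0, nat_lit 0, nat_lit 0, nat_lit 0, nat_lit 0, nat_lit 0, nat_lit 0, nat_lit 0, nat_lit 0, false, false⟩,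
 nat_lit 0, nat_lit 7180, nat_lit 0, nat_lit 0, nat_lit 5490, nat_lit 5303, nat_lit 2464, nat_lit 0, nat_lit 0, nat_lit 0, nat_lit 0, nat_lit 0, nat_lit 0, nat_lit 15575631383923, nat_lit 0, nat_lit 0, nat_lit 0, nat_lit 0, [],
 ⟨p100_k3, nat_lit 0, nat_lit 0, nat_lit 465, nat_lit 0, nat_lit 1100573, [nat_lit 2032000001, nat_lit 4688000000, nat_lit 6250000000], [], [nat_lit 25600537432, nat_lit 25767444622, nat_lit 31079564040, nat_lit 31364451520, nat_lit 27509017725, nat_lit 27638709183, nat_lit 33723286345, nat_lit 33939092281], nat_lit 1271250, nat_lit 1271250, nat_lit 1271250, nat_lit 1271250, nat_lit 1100001, nat_lit 2264500, [nat_lit 490000, nat_lit 1100000, nat_lit 1442500], [nat_lit 6, nat_lit 40, nat_lit 40, nat_lit 80, nat_lit 3, nat_lit 289, nat_lit 75, nat_lit 9]⟩, ⟨p100_k0, nat_lit 0, nat_lit 0, nat_lit 80, nat_lit 0, nat_lit 0, [nat_lit 2032000000, nat_lit 4688000000, nat_lit 6250000000], [], [nat_lit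 21521655904, nat_lit 22280308212, nat_lit 30910693408, nat_lit 31397143202, nat_lit 26481590965, nat_lit 27048420260, nat_lit 33464279797, nat_lit 33832498003], nat_lit 0, nat_lit 0, nat_lit 0, nat_lit 0, nat_lit 0, nat_lit 0, [], [nat_lit 6, nat_lit 40, nat_lit 40, nat_lit 80, nat_lit 3, nat_lit 289, nat_lit 75, nat_lit 9]⟩,
 zbF0, [⟨nat_lit 16, nat_lit 85, nat_lit 97, nat_lit 100, nat_lit 338168728⟩, ⟨nat_lit 19, nat_lit 87, nat_lit 95, nat_lit 100, nat_lit 352414734⟩]⟩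
noncomputable def p100_l140 : Lf2 := ⟨nat_lit 0, nat_lit 10, [nat_lit 0, nat_lit 5, nat_lit 5, nat_lit 20], false, nat_lit 0, nat_lit 288, nat_lit 0, nat_lit 300, ⟨nat_lit 1000, nat_lit 0, nat_lit 0, nat_lit 0, nat_lit 0, nat_lit 0, nat_lit 0, nat_lit 0, nat_lit 0, nat_lit 0, nat_lit 0, nat_lit 0, nat_lit 0, nat_lit 0, nat_lit 0, nat_lit 0, false, false⟩,
 nat_lit 0, nat_lit 6311, nat_lit 0, nat_lit 0, nat_lit 4919, nat_lit 6525, nat_lit 1758, nat_lit 0, nat_lit 0, nat_lit 446, nat_lit 0, nat_lit 0, nat_lit 0, nat_lit 22082305365372, nat_lit 0, nat_lit 0, nat_lit 0, nat_lit 0, [],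
 ⟨p100_k1, nat_lit 0, nat_lit 0, nat_lit 573, nat_lit 0, nat_lit 1152914, [nat_lit 2032000001, nat_lit 4688000000, nat_lit 6250000000], [], [nat_lit 27663767946, nat_lit 27853525053, nat_lit 35650472910, nat_lit 35957664483, nat_lit 28635816689, nat_lit 28764157748, nat_lit 33025112072, nat_lit 33236418973], nat_lit 1271250, nat_lit 1271250, nat_lit 1271250, nat_lit 1271250, nat_lit 0, nat_lit 2034000, [nat_lit 490000, nat_lit 1100000, nat_lit 1442500], [nat_lit 6, nat_lit 40, nat_lit 40, nat_lit 80, nat_lit 3, nat_lit 289, nat_lit 75, nat_lit 10]⟩, ⟨p100_k0, nat_lit 0, nat_lit 0, nat_lit 175, nat_lit 0, nat_lit 0, [nat_lit 2032000000, nat_lit 4688000000, nat_lit 6250000000], [], [nat_lit 25800558900, nat_lit 27003484388, nat_lit 39529285900, nat_lit 40593314425, nat_lit 26308455600, nat_lit 27051452063, nat_lit 34840423450, nat_lit 35526693185], nat_lit 0, nat_lit 0, nat_lit 0, nat_lit 0, nat_lit 0, nat_lit 0,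 [], [nat_lit 6, nat_lit 40, nat_lit 40, nat_lit 80, nat_lit 3, nat_lit 289, nat_lit 75, nat_lit 10]⟩,
 zbF0, [⟨nat_lit 4, nat_lit 100, nat_lit 79, nat_lit 91, nat_lit 181428989⟩, ⟨nat_lit 7, nat_lit 100, nat_lit 82, nat_lit 92, nat_lit 127483973⟩]⟩
noncomputable def p100_l141 : Lf2 := ⟨nat_lit 0, nat_lit 10, [nat_lit 0, nat_lit 5, nat_lit 5, nat_lit 20], false, nat_lit 0, nat_lit 284, nat_lit 0, nat_lit 300, ⟨nat_lit 1000, nat_lit 0, nat_lit 0, nat_lit 0, nat_lit 0, nat_lit 0, nat_lit 0, nat_lit 0, nat_lit 0, nat_lit 0, nat_lit 0, nat_lit 0, nat_lit 0, nat_lit 0, nat_lit 0, nat_lit 0, false, false⟩,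
 nat_lit 0, nat_lit 5816, nat_lit 0, nat_lit 0, nat_lit 4620, nat_lit 6435, nat_lit 1496, nat_lit 0, nat_lit 0, nat_lit 468, nat_lit 0, nat_lit 0, nat_lit 0, nat_lit 11241581411875, nat_lit 0, nat_lit 0, nat_lit 0, nat_lit 0, [],
 ⟨p100_k28, nat_lit 0, nat_lit 0, nat_lit 598, nat_lit 0, nat_lit 1202697, [nat_lit 2032000001, nat_lit 4688000000, nat_lit 6250000000], [], [nat_lit 28579981119, nat_lit 28770757009, nat_lit 35094613840, nat_lit 35392964880, nat_lit 29946128251, nat_lit 30090928437, nat_lit 33916332104, nat_lit 34030129379], nat_lit 1271250, nat_lit 1271250, nat_lit 1271250, nat_lit 1271250, nat_lit 0, nat_lit 2005750, [nat_lit 490000, nat_lit 1100000, nat_lit 1442500], [nat_lit 6, nat_lit 40, nat_lit 40, nat_lit 80, nat_lit 3, nat_lit 289, nat_lit 75, nat_lit 10]⟩, ⟨p100_k0, nat_lit 0, nat_lit 0, nat_lit 176, nat_lit 0, nat_lit 0, [nat_lit 2032000000, nat_lit 4688000000, nat_lit 6250000000], [], [nat_lit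 25795830860, nat_lit 27453656390, nat_lit 39277487860, nat_lit 40685548440, nat_lit 26381924240, nat_lit 27366050570, nat_lit 34735103830, nat_lit 35644861318], nat_lit 0, nat_lit 0, nat_lit 0, nat_lit 0, nat_lit 0, nat_lit 0, [], [nat_lit 6, nat_lit 40, nat_lit 40, nat_lit 80, nat_lit 3, nat_lit 289, nat_lit 75, nat_lit 10]⟩,
 zbF0, [⟨nat_lit 4, nat_lit 100, nat_lit 76, nat_lit 90, nat_lit 223099550⟩, ⟨nat_lit 7, nat_lit 100, nat_lit 81, nat_lit 92, nat_lit 143202807⟩]⟩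
noncomputable def p100_l142 : Lf2 := ⟨nat_lit 0, nat_lit 10, [nat_lit 0, nat_lit 5, nat_lit 5, nat_lit 20], false, nat_lit 0, nat_lit 276, nat_lit 0, nat_lit 300, ⟨nat_lit 1000, nat_lit 0, nat_lit 0, nat_lit 0, nat_lit 0, nat_lit 0, nat_lit 0, nat_lit 0, nat_lit 0, nat_lit 0, nat_lit 0, nat_lit 0, nat_lit 0, nat_lit 0, nat_lit 0, nat_lit 0, false, false⟩,
 nat_lit 0, nat_lit 5638, nat_lit 0, nat_lit 0, nat_lit 4564, nat_lit 6435, nat_lit 1096, nat_lit 0, nat_lit 0, nat_lit 468, nat_lit 0, nat_lit 0, nat_lit 0, nat_lit 0, nat_lit 0, nat_lit 0, nat_lit 0, nat_lit 0, [],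
 ⟨p100_k2, nat_lit 0, nat_lit 0, nat_lit 644, nat_lit 0, nat_lit 1317316, [nat_lit 2032000001, nat_lit 4688000000, nat_lit 6250000000], [], [nat_lit 30376531194, nat_lit 31084215194, nat_lit 35229667536, nat_lit 36416448688, nat_lit 31398492776, nat_lit 31946220461, nat_lit 35075218681, nat_lit 35507526023], nat_lit 1271250, nat_lit 1271250, nat_lit 1271250, nat_lit 1271250, nat_lit 0, nat_lit 1949250, [nat_lit 490000, nat_lit 1100000, nat_lit 1442500], [nat_lit 6, nat_lit 40, nat_lit 40, nat_lit 80, nat_lit 3, nat_lit 291, nat_lit 75, nat_lit 10]⟩, ⟨p100_k0, nat_lit 0, nat_lit 0, nat_lit 176, nat_lit 0, nat_lit 0, [nat_lit 2032000000, nat_lit 4688000000, nat_lit 6250000000], [], [nat_lit 25795830860, nat_lit 27453656390, nat_lit 39277487860, nat_lit 40685548440, nat_lit 26381924240, nat_lit 27366050570, nat_lit 34735103830, nat_lit 35644861318], nat_lit 0, nat_lit 0, nat_lit 0, nat_lit 0, nat_lit 0, nat_lit 0,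 [], [nat_lit 6, nat_lit 40, nat_lit 40, nat_lit 80, nat_lit 3, nat_lit 289, nat_lit 75, nat_lit 10]⟩,
 zbF0, [⟨nat_lit 4, nat_lit 100, nat_lit 67, nat_lit 88, nat_lit 290921791⟩, ⟨nat_lit 7, nat_lit 100, nat_lit 81, nat_lit 92, nat_lit 129634943⟩]⟩
noncomputable def b_V_800_800_20_13 : St := ⟨true, nat_lit 1, nat_lit 0, nat_lit 1, nat_lit 120, nat_lit 320, nat_lit 360, nat_lit 320, nat_lit 340, nat_lit 240, nat_lit 400, nat_lit 80, nat_lit 120, nat_lit 0, nat_lit 300, nat_lit 0, nat_lit 300, nat_lit 0, nat_lit 40, nat_lit 0, nat_lit 0, nat_lit 0, nat_lit 0⟩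
theorem d_V_800_800_20_13 (h : EB TB.env) : Dead b_V_800_800_20_13 := chkB_sound0 h (T :=
(.spl (nat_lit 0) (nat_lit 340)
(.spl (nat_lit 0) (nat_lit 330)
(.ord (.spl (nat_lit 4) (nat_lit 160)
(.spl (nat_lit 5) (nat_lit 160)
(.leaf p100_l132)
(.leaf p100_l133))
(.spl (nat_lit 5) (nat_lit 160)
(.leaf p100_l134)
(.spl (nat_lit 0) (nat_lit 325)
(.ord (.spl (nat_lit 2) (nat_lit 320)
(.spl (nat_lit 0) (nat_lit 323)
(.ord (.leaf p100_l135))
(.trX (nat_lit 16) (nat_lit 86) (nat_lit 96) (nat_lit 100) (nat_lit 296) (.leaf p100_l136)))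
(.spl (nat_lit 3) (nat_lit 100)
(.trX (nat_lit 16) (nat_lit 87) (nat_lit 100) (nat_lit 94) (nat_lit 280) (.trX (nat_lit 19) (nat_lit 87) (nat_lit 100) (nat_lit 94) (nat_lit 280) (.leaf p100_l137)))
(.leaf p100_l138))))
(.trX (nat_lit 16) (nat_lit 85) (nat_lit 97) (nat_lit 100) (nat_lit 296) (.leaf p100_l139))))))
(.trX (nat_lit 16) (nat_lit 83) (nat_lit 98) (nat_lit 100) (nat_lit 288) (.spl (nat_lit 0) (nat_lit 335)
(.ord (.leaf p100_l140))
(.trX (nat_lit 16) (nat_lit 81) (nat_lit 100) (nat_lit 100) (nat_lit 284) (.leaf p100_l141)))))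
(.trX (nat_lit 16) (nat_lit 77) (nat_lit 100) (nat_lit 99) (nat_lit 276) (.leaf p100_l142)))) (by decide +kernel)
noncomputable def p100_l143 : Lf2 := ⟨nat_lit 0, nat_lit 10, [nat_lit 0, nat_lit 5, nat_lit 5, nat_lit 20], false, nat_lit 0, nat_lit 300, nat_lit 0, nat_lit 300, ⟨nat_lit 1000, nat_lit 0, nat_lit 0, nat_lit 0, nat_lit 0, nat_lit 0, nat_lit 0, nat_lit 0, nat_lit 0, nat_lit 0, nat_lit 0, nat_lit 0, nat_lit 0, nat_lit 0, nat_lit 0, nat_lit 0, false, false⟩,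
 nat_lit 9584, nat_lit 0, nat_lit 0, nat_lit 0, nat_lit 7188, nat_lit 7188, nat_lit 1211, nat_lit 0, nat_lit 0, nat_lit 549, nat_lit 0, nat_lit 0, nat_lit 0, nat_lit 0, nat_lit 0, nat_lit 0, nat_lit 0, nat_lit 0, [],
 ⟨p100_k0, nat_lit 0, nat_lit 0, nat_lit 410, nat_lit 0, nat_lit 716898, [nat_lit 2032000001, nat_lit 4688000000, nat_lit 6250000000], [], [nat_lit 28984884168, nat_lit 25698991844, nat_lit 26377087296, nat_lit 28751372072, nat_lit 25197241392, nat_lit 26131862648, nat_lit 27808626025, nat_lit 27846144262], nat_lit 1271250, nat_lit 1271250, nat_lit 936251, nat_lit 1773750, nat_lit 0, nat_lit 2118750, [nat_lit 490000, nat_lit 1100000, nat_lit 1442500], [nat_lit 6, nat_lit 40, nat_lit 40, nat_lit 80, nat_lit 3, nat_lit 373, nat_lit 150, nat_lit 14]⟩, ⟨p100_k0, nat_lit 0, nat_lit 0, nat_lit 410, nat_lit 0, nat_lit 716898, [nat_lit 2032000000, nat_lit 4688000000, nat_lit 6250000000], [], [nat_lit 28984884168,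 nat_lit 25835357448, nat_lit 26377087296, nat_lit 28751372072, nat_lit 25197241392, nat_lit 26131862648, nat_lit 30456626024, nat_lit 27846144262], nat_lit 1271250, nat_lit 1271250, nat_lit 936251, nat_lit 1773750, nat_lit 0, nat_lit 2118750, [nat_lit 490000, nat_lit 1100000, nat_lit 1442500], [nat_lit 6, nat_lit 40, nat_lit 40, nat_lit 80, nat_lit 3, nat_lit 373, nat_lit 150, nat_lit 14]⟩,
 zbF0, [⟨nat_lit 0, nat_lit 77, nat_lit 77, nat_lit 100, nat_lit 246684087⟩, ⟨nat_lit 16, nat_lit 81, nat_lit 100, nat_lit 92, nat_lit 21446095⟩, ⟨nat_lit 16, nat_lit 87, nat_lit 95, nat_lit 100, nat_lit 126910455⟩, ⟨nat_lit 7, nat_lit 100, nat_lit 81, nat_lit 92, nat_lit 168308913⟩]⟩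
noncomputable def p100_l144 : Lf2 := ⟨nat_lit 0, nat_lit 10, [nat_lit 0, nat_lit 5, nat_lit 5, nat_lit 20], false, nat_lit 0, nat_lit 276, nat_lit 0, nat_lit 300, ⟨nat_lit 1000, nat_lit 0, nat_lit 0, nat_lit 0, nat_lit 0, nat_lit 0, nat_lit 0, nat_lit 0, nat_lit 0, nat_lit 0, nat_lit 0, nat_lit 0, nat_lit 0, nat_lit 0, nat_lit 0, nat_lit 0, false, false⟩,
 nat_lit 9552, nat_lit 0, nat_lit 0, nat_lit 0, nat_lit 5207, nat_lit 7163, nat_lit 698, nat_lit 0, nat_lit 0, nat_lit 1079, nat_lit 0, nat_lit 0, nat_lit 0, nat_lit 0, nat_lit 0, nat_lit 0, nat_lit 0, nat_lit 0, [],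
 ⟨p100_k2, nat_lit 0, nat_lit 0, nat_lit 417, nat_lit 0, nat_lit 733940, [nat_lit 2032000001, nat_lit 4688000000, nat_lit 6250000000], [], [nat_lit 22472764273, nat_lit 24912527463, nat_lit 25337328558, nat_lit 27433005756, nat_lit 24060670828, nat_lit 25146466368, nat_lit 26662510564, nat_lit 26814399447], nat_lit 1271250, nat_lit 1271250, nat_lit 1167600, nat_lit 1789500, nat_lit 0, nat_lit 1949250, [nat_lit 490000, nat_lit 1100000, nat_lit 1442500], [nat_lit 6, nat_lit 40, nat_lit 40, nat_lit 80, nat_lit 3, nat_lit 373, nat_lit 150, nat_lit 14]⟩, ⟨p100_k0, nat_lit 0, nat_lit 0, nat_lit 437, nat_lit 0, nat_lit 805789, [nat_lit 2032000000, nat_lit 4688000000, nat_lit 6250000000], [], [nat_lit 25814444207, nat_lit 26037991156, nat_lit 26446047496, nat_lit 28708287222, nat_lit 25296026110, nat_lit 26187344576, nat_lit 28889787574, nat_lit 27830142100], nat_lit 1271250, nat_lit 1271250, nat_lit 1167600, nat_lit 1789500,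 nat_lit 0, nat_lit 2118750, [nat_lit 490000, nat_lit 1100000, nat_lit 1442500], [nat_lit 6, nat_lit 40, nat_lit 40, nat_lit 80, nat_lit 3, nat_lit 373, nat_lit 150, nat_lit 14]⟩,
 zbF0, [⟨nat_lit 0, nat_lit 76, nat_lit 66, nat_lit 100, nat_lit 215833501⟩, ⟨nat_lit 4, nat_lit 100, nat_lit 67, nat_lit 88, nat_lit 277416319⟩, ⟨nat_lit 19, nat_lit 87, nat_lit 95, nat_lit 100, nat_lit 203427830⟩]⟩
noncomputable def p100_l145 : Lf2 := ⟨nat_lit 0, nat_lit 10, [nat_lit 0, nat_lit 5, nat_lit 5, nat_lit 20], false, nat_lit 0, nat_lit 300, nat_lit 0, nat_lit 300, ⟨nat_lit 1000, nat_lit 0, nat_lit 0, nat_lit 0, nat_lit 0, nat_lit 0, nat_lit 0, nat_lit 0, nat_lit 0, nat_lit 0, nat_lit 0, nat_lit 0, nat_lit 0, nat_lit 0, nat_lit 0, nat_lit 0, false, false⟩,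
 nat_lit 8957, nat_lit 0, nat_lit 0, nat_lit 0, nat_lit 6717, nat_lit 6717, nat_lit 1249, nat_lit 0, nat_lit 0, nat_lit 399, nat_lit 0, nat_lit 0, nat_lit 0, nat_lit 0, nat_lit 0, nat_lit 0, nat_lit 0, nat_lit 0, [],
 ⟨p100_k0, nat_lit 0, nat_lit 0, nat_lit 418, nat_lit 0, nat_lit 716898, [nat_lit 2032000001, nat_lit 4688000000, nat_lit 6250000000], [], [nat_lit 29471386188, nat_lit 30479205952, nat_lit 40066455052, nat_lit 41507867208, nat_lit 28956333356, nat_lit 29583215841, nat_lit 35065105306, nat_lit 35991371779], nat_lit 1271250, nat_lit 1271250, nat_lit 1271250, nat_lit 1271250, nat_lit 0, nat_lit 2118750, [nat_lit 490000, nat_lit 1100000, nat_lit 1442500], [nat_lit 6, nat_lit 40, nat_lit 40, nat_lit 80, nat_lit 3, nat_lit 289, nat_lit 75, nat_lit 10]⟩, ⟨p100_k0, nat_lit 0, nat_lit 0, nat_lit 418, nat_lit 0, nat_lit 716898, [nat_lit 2032000000, nat_lit 4688000000, nat_lit 6250000000], [], [nat_lit 29896259872,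 nat_lit 30835733104, nat_lit 40066455052, nat_lit 41507867208, nat_lit 29001146491, nat_lit 29584406559, nat_lit 35065105306, nat_lit 35991371779], nat_lit 1271250, nat_lit 1271250, nat_lit 1271250, nat_lit 1271250, nat_lit 0, nat_lit 2118750, [nat_lit 490000, nat_lit 1100000, nat_lit 1442500], [nat_lit 6, nat_lit 40, nat_lit 40, nat_lit 80, nat_lit 3, nat_lit 289, nat_lit 75, nat_lit 10]⟩,
 zbF0, [⟨nat_lit 4, nat_lit 100, nat_lit 81, nat_lit 92, nat_lit 118969105⟩, ⟨nat_lit 7, nat_lit 100, nat_lit 81, nat_lit 92, nat_lit 118969105⟩]⟩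
noncomputable def p100_l146 : Lf2 := ⟨nat_lit 0, nat_lit 10, [nat_lit 0, nat_lit 5, nat_lit 5, nat_lit 20], false, nat_lit 0, nat_lit 276, nat_lit 0, nat_lit 300, ⟨nat_lit 1000, nat_lit 0, nat_lit 0, nat_lit 0, nat_lit 0, nat_lit 0, nat_lit 0, nat_lit 0, nat_lit 0, nat_lit 0, nat_lit 0, nat_lit 0, nat_lit 0, nat_lit 0, nat_lit 0, nat_lit 0, false, false⟩,
 nat_lit 8678, nat_lit 0, nat_lit 0, nat_lit 0, nat_lit 4878, nat_lit 6508, nat_lit 1093, nat_lit 0, nat_lit 0, nat_lit 404, nat_lit 0, nat_lit 0, nat_lit 0, nat_lit 0, nat_lit 0, nat_lit 0, nat_lit 0, nat_lit 0, [],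
 ⟨p100_k2, nat_lit 0, nat_lit 0, nat_lit 425, nat_lit 0, nat_lit 733940, [nat_lit 2032000001, nat_lit 4688000000, nat_lit 6250000000], [], [nat_lit 24770331932, nat_lit 26784774424, nat_lit 36145299072, nat_lit 37369216376, nat_lit 25854155202, nat_lit 26590274302, nat_lit 33063672898, nat_lit 33930412591], nat_lit 1271250, nat_lit 1271250, nat_lit 1271250, nat_lit 1271250, nat_lit 0, nat_lit 1949250, [nat_lit 490000, nat_lit 1100000, nat_lit 1442500], [nat_lit 6, nat_lit 40, nat_lit 40, nat_lit 80, nat_lit 3, nat_lit 289, nat_lit 75, nat_lit 10]⟩, ⟨p100_k0, nat_lit 0, nat_lit 0, nat_lit 447, nat_lit 0, nat_lit 805789, [nat_lit 2032000000, nat_lit 4688000000, nat_lit 6250000000], [], [nat_lit 30981625360, nat_lit 31844837752, nat_lit 39481724048, nat_lit 40898418192, nat_lit 29930210684, nat_lit 30508119516, nat_lit 34820529744, nat_lit 35734560834], nat_lit 1271250, nat_lit 1271250, nat_lit 1271250, nat_lit 1271250,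 nat_lit 0, nat_lit 2118750, [nat_lit 490000, nat_lit 1100000, nat_lit 1442500], [nat_lit 6, nat_lit 40, nat_lit 40, nat_lit 80, nat_lit 3, nat_lit 289, nat_lit 75, nat_lit 10]⟩,
 zbF0, [⟨nat_lit 4, nat_lit 100, nat_lit 67, nat_lit 88, nat_lit 190738076⟩, ⟨nat_lit 7, nat_lit 100, nat_lit 81, nat_lit 92, nat_lit 126877188⟩]⟩
noncomputable def b_V_800_800_20_14 : St := ⟨true, nat_lit 1, nat_lit 1, nat_lit 1, nat_lit 120, nat_lit 320, nat_lit 360, nat_lit 320, nat_lit 340, nat_lit 140, nat_lit 400, nat_lit 80, nat_lit 120, nat_lit 0, nat_lit 300, nat_lit 0, nat_lit 300, nat_lit 0, nat_lit 40, nat_lit 0, nat_lit 0, nat_lit 0, nat_lit 0⟩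
theorem d_V_800_800_20_14 (h : EB TB.env) : Dead b_V_800_800_20_14 := chkB_sound0 h (T :=
(.spl (nat_lit 2) (nat_lit 240)
(.spl (nat_lit 0) (nat_lit 340)
(.leaf p100_l143)
(.trZ (nat_lit 0) (nat_lit 81) (nat_lit 72) (nat_lit 100) (nat_lit 168) (.trX (nat_lit 16) (nat_lit 77) (nat_lit 100) (nat_lit 99) (nat_lit 276) (.leaf p100_l144))))
(.spl (nat_lit 0) (nat_lit 340)
(.leaf p100_l145)
(.trX (nat_lit 16) (nat_lit 77) (nat_lit 100) (nat_lit 99) (nat_lit 276) (.leaf p100_l146))))) (by decide +kernel)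

end B2
end Pool.Agent.Lib.MP_6947cd_al
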