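import Pool.Agent.Lib.MP_6947cd_al.ZB.Pre

/-!
Problem MP_6947cd_al (Chollet).  Case B, second entry in [2/5, 17/20]: certificates of the tree, part P101 (generated).
-/

set_option autoImplicit false
set_option linter.all false

namespace Pool.Agent.Lib.MP_6947cd_al
namespace B2

open Ent Fr B1 PkA

noncomputable def p101_k0 : C1.Kn := ⟨[nat_lit 40, nat_lit 80, nat_lit 100], [nat_lit 0, nat_lit 0, nat_lit 1280], [(nat_lit 0, nat_lit 0, nat_lit 0), (nat_lit 0, nat_lit 0, nat_lit 0), (nat_lit 1000, nat_lit 800, nat_lit 600)], (nat_lit 80, nat_lit 100, nat_lit 60)⟩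
noncomputable def p101_k1 : C1.Kn := ⟨[nat_lit 40, nat_lit 80, nat_lit 100], [nat_lit 0, nat_lit 395, nat_lit 1536], [(nat_lit 0, nat_lit 0, nat_lit 0), (nat_lit 1000, nat_lit 908, nat_lit 154), (nat_lit 1000, nat_lit 760, nat_lit 642)], (nat_lit 76, nat_lit 100, nat_lit 60)⟩
noncomputable def p101_k2 : C1.Kn := ⟨[nat_lit 40, nat_lit 80, nat_lit 100], [nat_lit 0, nat_lit 795, nat_lit 1829], [(nat_lit 0, nat_lit 0, nat_lit 0), (nat_lit 1000, nat_lit 814, nat_lit 310), (nat_lit 1000, nat_lit 714, nat_lit 692)], (nat_lit 72, nat_lit 100, nat_lit 61)⟩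
noncomputable def p101_k3 : C1.Kn := ⟨[nat_lit 40, nat_lit 80, nat_lit 100], [nat_lit 0, nat_lit 112, nat_lit 1353], [(nat_lit 0, nat_lit 0, nat_lit 0), (nat_lit 1000, nat_lit 974, nat_lit 44), (nat_lit 1000, nat_lit 789, nat_lit 608)], (nat_lit 79, nat_lit 100, nat_lit 60)⟩
noncomputable def p101_k4 : C1.Kn := ⟨[nat_lit 40, nat_lit 80, nat_lit 100], [nat_lit 0, nat_lit 192, nat_lit 1404], [(nat_lit 0, nat_lit 0, nat_lit 0), (nat_lit 1000, nat_lit 955, nat_lit 75), (nat_lit 1000, nat_lit 781, nat_lit 625)], (nat_lit 78, nat_lit 100, nat_lit 60)⟩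
noncomputable def p101_k5 : C1.Kn := ⟨[nat_lit 40, nat_lit 60], [nat_lit 0, nat_lit 0], [(nat_lit 0, nat_lit 0, nat_lit 0), (nat_lit 0, nat_lit 0, nat_lit 0)], (nat_lit 89, nat_lit 100, nat_lit 22)⟩
noncomputable def p101_k6 : C1.Kn := ⟨[nat_lit 40, nat_lit 80], [nat_lit 0, nat_lit 0], [(nat_lit 0, nat_lit 0, nat_lit 0), (nat_lit 0, nat_lit 0, nat_lit 0)], (nat_lit 85, nat_lit 100, nat_lit 30)⟩
noncomputable def p101_k7 : C1.Kn := ⟨[nat_lit 40, nat_lit 60, nat_lit 80], [nat_lit 0, nat_lit 0, nat_lit 615], [(nat_lit 0, nat_lit 0, nat_lit 0), (nat_lit 0, nat_lit 0, nat_lit 0), (nat_lit 1000, nat_lit 819, nat_lit 426)], (nat_lit 85, nat_lit 100, nat_lit 30)⟩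
noncomputable def p101_k8 : C1.Kn := ⟨[nat_lit 40, nat_lit 80], [nat_lit 0, nat_lit 79], [(nat_lit 0, nat_lit 0, nat_lit 0), (nat_lit 1000, nat_lit 981, nat_lit 31)], (nat_lit 85, nat_lit 100, nat_lit 30)⟩
noncomputable def p101_k9 : C1.Kn := ⟨[nat_lit 40, nat_lit 80, nat_lit 100], [nat_lit 0, nat_lit 0, nat_lit 1280], [(nat_lit 0, nat_lit 0, nat_lit 0), (nat_lit 0, nat_lit 0, nat_lit 0), (nat_lit 1000, nat_lit 800, nat_lit 600)], (nat_lit 82, nat_lit 100, nat_lit 44)⟩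
noncomputable def p101_k10 : C1.Kn := ⟨[nat_lit 40, nat_lit 80], [nat_lit 0, nat_lit 112], [(nat_lit 0, nat_lit 0, nat_lit 0), (nat_lit 1000, nat_lit 974, nat_lit 44)], (nat_lit 81, nat_lit 100, nat_lit 45)⟩
noncomputable def p101_k11 : C1.Kn := ⟨[nat_lit 40, nat_lit 80], [nat_lit 0, nat_lit 158], [(nat_lit 0, nat_lit 0, nat_lit 0), (nat_lit 1000, nat_lit 963, nat_lit 62)], (nat_lit 80, nat_lit 100, nat_lit 45)⟩
noncomputable def p101_k12 : C1.Kn := ⟨[nat_lit 40, nat_lit 80, nat_lit 100], [nat_lit 0, nat_lit 593, nat_lit 1677], [(nat_lit 0, nat_lit 0, nat_lit 0), (nat_lit 1000, nat_lit 861, nat_lit 231), (nat_lit 1000, nat_lit 738, nat_lit 662)], (nat_lit 74, nat_lit 100, nat_lit 60)⟩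
noncomputable def p101_k13 : C1.Kn := ⟨[nat_lit 40, nat_lit 140], [nat_lit 0, nat_lit 0], [(nat_lit 0, nat_lit 0, nat_lit 0), (nat_lit 0, nat_lit 0, nat_lit 0)], (nat_lit 83, nat_lit 100, nat_lit 83)⟩
noncomputable def p101_k14 : C1.Kn := ⟨[nat_lit 40, nat_lit 80, nat_lit 140], [nat_lit 0, nat_lit 0, nat_lit 3199], [(nat_lit 0, nat_lit 0, nat_lit 0), (nat_lit 0, nat_lit 0, nat_lit 0), (nat_lit 1000, nat_lit 833, nat_lit 833)], (nat_lit 83, nat_lit 100, nat_lit 83)⟩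
noncomputable def p101_k15 : C1.Kn := ⟨[nat_lit 40, nat_lit 80, nat_lit 140], [nat_lit 0, nat_lit 395, nat_lit 3500], [(nat_lit 0, nat_lit 0, nat_lit 0), (nat_lit 1000, nat_lit 908, nat_lit 154), (nat_lit 1000, nat_lit 776, nat_lit 808)], (nat_lit 78, nat_lit 100, nat_lit 82)⟩
noncomputable def p101_k16 : C1.Kn := ⟨[nat_lit 40, nat_lit 80, nat_lit 120], [nat_lit 0, nat_lit 795, nat_lit 2800], [(nat_lit 0, nat_lit 0, nat_lit 0), (nat_lit 1000, nat_lit 814, nat_lit 310), (nat_lit 1000, nat_lit 719, nat_lit 783)], (nat_lit 72, nat_lit 100, nat_lit 81)⟩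
noncomputable def p101_k17 : C1.Kn := ⟨[nat_lit 40, nat_lit 80, nat_lit 120], [nat_lit 0, nat_lit 994, nat_lit 2967], [(nat_lit 0, nat_lit 0, nat_lit 0), (nat_lit 1000, nat_lit 767, nat_lit 387), (nat_lit 1000, nat_lit 690, nat_lit 769)], (nat_lit 69, nat_lit 100, nat_lit 81)⟩
noncomputable def p101_k18 : C1.Kn := ⟨[nat_lit 40, nat_lit 80, nat_lit 120], [nat_lit 0, nat_lit 1195, nat_lit 3135], [(nat_lit 0, nat_lit 0, nat_lit 0), (nat_lit 1000, nat_lit 720, nat_lit 465), (nat_lit 1000, nat_lit 661, nat_lit 757)], (nat_lit 66, nat_lit 100, nat_lit 80)⟩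
noncomputable def p101_k19 : C1.Kn := ⟨[nat_lit 40, nat_lit 120], [nat_lit 0, nat_lit 1589], [(nat_lit 0, nat_lit 0, nat_lit 0), (nat_lit 1000, nat_lit 814, nat_lit 310)], (nat_lit 72, nat_lit 100, nat_lit 81)⟩
noncomputable def p101_k20 : C1.Kn := ⟨[nat_lit 40, nat_lit 100, nat_lit 140], [nat_lit 0, nat_lit 0, nat_lit 3243], [(nat_lit 0, nat_lit 0, nat_lit 0), (nat_lit 0, nat_lit 0, nat_lit 0), (nat_lit 1000, nat_lit 870, nat_lit 941)], (nat_lit 83, nat_lit 100, nat_lit 83)⟩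
noncomputable def p101_k21 : C1.Kn := ⟨[nat_lit 40, nat_lit 80, nat_lit 160], [nat_lit 0, nat_lit 0, nat_lit 4265], [(nat_lit 0, nat_lit 0, nat_lit 0), (nat_lit 0, nat_lit 0, nat_lit 0), (nat_lit 1000, nat_lit 833, nat_lit 833)], (nat_lit 87, nat_lit 95, nat_lit 100)⟩
noncomputable def p101_k22 : C1.Kn := ⟨[nat_lit 40, nat_lit 80, nat_lit 160], [nat_lit 0, nat_lit 395, nat_lit 4535], [(nat_lit 0, nat_lit 0, nat_lit 0), (nat_lit 1000, nat_lit 908, nat_lit 154), (nat_lit 1000, nat_lit 776, nat_lit 808)], (nat_lit 83, nat_lit 98, nat_lit 100)⟩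
noncomputable def p101_k23 : C1.Kn := ⟨[nat_lit 40, nat_lit 100, nat_lit 160], [nat_lit 0, nat_lit 0, nat_lit 4607], [(nat_lit 0, nat_lit 0, nat_lit 0), (nat_lit 0, nat_lit 0, nat_lit 0), (nat_lit 846, nat_lit 837, nat_lit 1000)], (nat_lit 87, nat_lit 95, nat_lit 100)⟩
noncomputable def p101_k24 : C1.Kn := ⟨[nat_lit 40, nat_lit 80, nat_lit 140], [nat_lit 0, nat_lit 795, nat_lit 3803], [(nat_lit 0, nat_lit 0, nat_lit 0), (nat_lit 1000, nat_lit 814, nat_lit 310), (nat_lit 1000, nat_lit 719, nat_lit 783)], (nat_lit 77, nat_lit 100, nat_lit 99)⟩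
noncomputable def p101_k25 : C1.Kn := ⟨[nat_lit 40, nat_lit 100, nat_lit 160], [nat_lit 0, nat_lit 592, nat_lit 4992], [(nat_lit 0, nat_lit 0, nat_lit 0), (nat_lit 1000, nat_lit 908, nat_lit 154), (nat_lit 873, nat_lit 792, nat_lit 1000)], (nat_lit 83, nat_lit 98, nat_lit 100)⟩
noncomputable def p101_k26 : C1.Kn := ⟨[nat_lit 40, nat_lit 100, nat_lit 140], [nat_lit 0, nat_lit 1192, nat_lit 4003], [(nat_lit 0, nat_lit 0, nat_lit 0), (nat_lit 1000, nat_lit 814, nat_lit 310), (nat_lit 992, nat_lit 771, nat_lit 1000)], (nat_lit 77, nat_lit 100, nat_lit 99)⟩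
noncomputable def p101_k27 : C1.Kn := ⟨[nat_lit 40, nat_lit 100, nat_lit 160], [nat_lit 0, nat_lit 288, nat_lit 4799], [(nat_lit 0, nat_lit 0, nat_lit 0), (nat_lit 1000, nat_lit 955, nat_lit 75), (nat_lit 854, nat_lit 813, nat_lit 1000)], (nat_lit 85, nat_lit 97, nat_lit 100)⟩
noncomputable def p101_k28 : C1.Kn := ⟨[nat_lit 40, nat_lit 100, nat_lit 160], [nat_lit 0, nat_lit 888, nat_lit 5184], [(nat_lit 0, nat_lit 0, nat_lit 0), (nat_lit 1000, nat_lit 861, nat_lit 231), (nat_lit 895, nat_lit 770, nat_lit 1000)], (nat_lit 81, nat_lit 100, nat_lit 100)⟩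
noncomputable def p101_l0 : Lf2 := ⟨nat_lit 0, nat_lit 10, [nat_lit 0, nat_lit 5, nat_lit 5, nat_lit 20], false, nat_lit 0, nat_lit 160, nat_lit 0, nat_lit 160, ⟨nat_lit 1000, nat_lit 0, nat_lit 0, nat_lit 0, nat_lit 0, nat_lit 0, nat_lit 0, nat_lit 0, nat_lit 0, nat_lit 0, nat_lit 0, nat_lit 0, nat_lit 0, nat_lit 0, nat_lit 0, nat_lit 0, false, false⟩,
 nat_lit 0, nat_lit 10329, nat_lit 0, nat_lit 0, nat_lit 7746, nat_lit 6600, nat_lit 458, nat_lit 0, nat_lit 0, nat_lit 702, nat_lit 0, nat_lit 0, nat_lit 0, nat_lit 0, nat_lit 0, nat_lit 0, nat_lit 0, nat_lit 0, [],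
 ⟨p101_k0, nat_lit 0, nat_lit 0, nat_lit 578, nat_lit 0, nat_lit 1130711, [nat_lit 2032000001, nat_lit 4688000000, nat_lit 6250000000], [], [nat_lit 25955650804, nat_lit 26421797527, nat_lit 26990434080, nat_lit 28351730002, nat_lit 22536647740, nat_lit 22948331239, nat_lit 23678836666, nat_lit 23670392816], nat_lit 1271250, nat_lit 1271250, nat_lit 936251, nat_lit 1773750, nat_lit 0, nat_lit 1100001, [nat_lit 490000, nat_lit 1100000, nat_lit 1442500], [nat_lit 6, nat_lit 40, nat_lit 40, nat_lit 80, nat_lit 3, nat_lit 317, nat_lit 100, nat_lit 12]⟩, ⟨p101_k0, nat_lit 0, nat_lit 0, nat_lit 120, nat_lit 0, nat_lit 0, [nat_lit 2032000000, nat_lit 4688000000, nat_lit 6250000000], [], [nat_lit 21317794400, nat_lit 22817188900, nat_lit 25298388000, nat_lit 26518202200, nat_lit 17105122800, nat_lit 18129538800, nat_lit 20332524800, nat_lit 21196021400], nat_lit 0, nat_lit 0, nat_lit 0, nat_lit 0, nat_lit 0, nat_lit 0, [],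 [nat_lit 6, nat_lit 40, nat_lit 40, nat_lit 80, nat_lit 3, nat_lit 317, nat_lit 100, nat_lit 12]⟩,
 zbF0, [⟨nat_lit 0, nat_lit 77, nat_lit 77, nat_lit 100, nat_lit 421564251⟩]⟩
noncomputable def p101_l1 : Lf2 := ⟨nat_lit 0, nat_lit 10, [nat_lit 0, nat_lit 5, nat_lit 5, nat_lit 20], false, nat_lit 160, nat_lit 300, nat_lit 0, nat_lit 160, ⟨nat_lit 1000, nat_lit 0, nat_lit 0, nat_lit 0, nat_lit 0, nat_lit 0, nat_lit 0, nat_lit 0, nat_lit 0, nat_lit 0, nat_lit 0, nat_lit 0, nat_lit 0, nat_lit 0, nat_lit 0, nat_lit 0, false, false⟩,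
 nat_lit 0, nat_lit 8275, nat_lit 0, nat_lit 0, nat_lit 6206, nat_lit 6600, nat_lit 493, nat_lit 0, nat_lit 0, nat_lit 708, nat_lit 0, nat_lit 0, nat_lit 0, nat_lit 0, nat_lit 0, nat_lit 0, nat_lit 0, nat_lit 0, [],
 ⟨p101_k0, nat_lit 0, nat_lit 0, nat_lit 492, nat_lit 0, nat_lit 1130711, [nat_lit 2032000001, nat_lit 4688000000, nat_lit 6250000000], [], [nat_lit 27874857150, nat_lit 28262907517, nat_lit 28971957858, nat_lit 29321210630, nat_lit 30551649736, nat_lit 30916254989, nat_lit 31230350808, nat_lit 31535946923], nat_lit 1271250, nat_lit 1271250, nat_lit 936251, nat_lit 1773750, nat_lit 1100001, nat_lit 2298750, [nat_lit 490000, nat_lit 1100000, nat_lit 1442500], [nat_lit 6, nat_lit 40, nat_lit 40, nat_lit 80, nat_lit 3, nat_lit 373, nat_lit 150, nat_lit 13]⟩, ⟨p101_k0, nat_lit 0, nat_lit 0, nat_lit 120, nat_lit 0, nat_lit 0, [nat_lit 2032000000, nat_lit 4688000000, nat_lit 6250000000], [], [nat_lit 21317794400,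 nat_lit 22817188900, nat_lit 25298388000, nat_lit 26518202200, nat_lit 17081122800, nat_lit 18129538800, nat_lit 20332524800, nat_lit 21196021400], nat_lit 0, nat_lit 0, nat_lit 0, nat_lit 0, nat_lit 0, nat_lit 0, [], [nat_lit 6, nat_lit 40, nat_lit 40, nat_lit 80, nat_lit 3, nat_lit 317, nat_lit 100, nat_lit 12]⟩,
 zbF0, [⟨nat_lit 0, nat_lit 77, nat_lit 77, nat_lit 100, nat_lit 393211869⟩, ⟨nat_lit 16, nat_lit 84, nat_lit 100, nat_lit 93, nat_lit 402496231⟩]⟩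
noncomputable def p101_l2 : Lf2 := ⟨nat_lit 0, nat_lit 10, [nat_lit 0, nat_lit 5, nat_lit 5, nat_lit 20], false, nat_lit 0, nat_lit 288, nat_lit 0, nat_lit 160, ⟨nat_lit 1000, nat_lit 0, nat_lit 0, nat_lit 0, nat_lit 0, nat_lit 0, nat_lit 0, nat_lit 0, nat_lit 0, nat_lit 0, nat_lit 0, nat_lit 0, nat_lit 0, nat_lit 0, nat_lit 0, nat_lit 0, false, false⟩,
 nat_lit 0, nat_lit 6936, nat_lit 0, nat_lit 0, nat_lit 5406, nat_lit 6200, nat_lit 1824, nat_lit 0, nat_lit 0, nat_lit 660, nat_lit 0, nat_lit 0, nat_lit 0, nat_lit 23780618840294, nat_lit 0, nat_lit 0, nat_lit 0, nat_lit 0, [],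
 ⟨p101_k1, nat_lit 0, nat_lit 0, nat_lit 627, nat_lit 0, nat_lit 1234683, [nat_lit 2032000001, nat_lit 4688000000, nat_lit 6250000000], [], [nat_lit 23248019293, nat_lit 23701909009, nat_lit 24705228393, nat_lit 25680283964, nat_lit 24560256077, nat_lit 24862192728, nat_lit 27343435826, nat_lit 26182536249], nat_lit 1271250, nat_lit 1271250, nat_lit 1066650, nat_lit 1782750, nat_lit 0, nat_lit 2034000, [nat_lit 490000, nat_lit 1100000, nat_lit 1442500], [nat_lit 6, nat_lit 40, nat_lit 40, nat_lit 80, nat_lit 3, nat_lit 373, nat_lit 150, nat_lit 14]⟩, ⟨p101_k0, nat_lit 0, nat_lit 0, nat_lit 126, nat_lit 0, nat_lit 0, [nat_lit 2032000000, nat_lit 4688000000, nat_lit 6250000000], [], [nat_lit 21296429760, nat_lit 23776683000, nat_lit 24707796000, nat_lit 27048658800, nat_lit 17874355761, nat_lit 19696951840, nat_lit 20699257600, nat_lit 22361582000], nat_lit 0, nat_lit 0, nat_lit 0, nat_lit 0, nat_lit 0, nat_lit 0,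 [], [nat_lit 6, nat_lit 40, nat_lit 40, nat_lit 80, nat_lit 3, nat_lit 317, nat_lit 100, nat_lit 12]⟩,
 zbF0, [⟨nat_lit 0, nat_lit 71, nat_lit 71, nat_lit 100, nat_lit 426918326⟩, ⟨nat_lit 4, nat_lit 100, nat_lit 77, nat_lit 91, nat_lit 267395598⟩]⟩
noncomputable def p101_l3 : Lf2 := ⟨nat_lit 0, nat_lit 10, [nat_lit 0, nat_lit 5, nat_lit 5, nat_lit 20], false, nat_lit 0, nat_lit 276, nat_lit 0, nat_lit 160, ⟨nat_lit 1000, nat_lit 0, nat_lit 0, nat_lit 0, nat_lit 0, nat_lit 0, nat_lit 0, nat_lit 0, nat_lit 0, nat_lit 0, nat_lit 0, nat_lit 0, nat_lit 0, nat_lit 0, nat_lit 0, nat_lit 0, false, false⟩,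
 nat_lit 0, nat_lit 6165, nat_lit 0, nat_lit 0, nat_lit 4990, nat_lit 6200, nat_lit 1346, nat_lit 0, nat_lit 0, nat_lit 713, nat_lit 0, nat_lit 0, nat_lit 0, nat_lit 0, nat_lit 0, nat_lit 0, nat_lit 0, nat_lit 0, [],
 ⟨p101_k2, nat_lit 0, nat_lit 0, nat_lit 659, nat_lit 0, nat_lit 1317316, [nat_lit 2032000001, nat_lit 4688000000, nat_lit 6250000000], [], [nat_lit 24306434440, nat_lit 25400912691, nat_lit 26043671031, nat_lit 27012339011, nat_lit 26629515409, nat_lit 27378134201, nat_lit 27675708224, nat_lit 28341807690], nat_lit 1271250, nat_lit 1271250, nat_lit 1167600, nat_lit 1789500, nat_lit 0, nat_lit 1949250, [nat_lit 490000, nat_lit 1100000, nat_lit 1442500], [nat_lit 6, nat_lit 40, nat_lit 40, nat_lit 80, nat_lit 3, nat_lit 373, nat_lit 150, nat_lit 14]⟩, ⟨p101_k0, nat_lit 0, nat_lit 0, nat_lit 126, nat_lit 0, nat_lit 0, [nat_lit 2032000000, nat_lit 4688000000, nat_lit 6250000000], [], [nat_lit 21386493281,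 nat_lit 24055179681, nat_lit 24707796000, nat_lit 27048658800, nat_lit 18037422400, nat_lit 19960227680, nat_lit 20699257600, nat_lit 22361582000], nat_lit 0, nat_lit 0, nat_lit 0, nat_lit 0, nat_lit 0, nat_lit 0, [], [nat_lit 6, nat_lit 40, nat_lit 40, nat_lit 80, nat_lit 3, nat_lit 317, nat_lit 100, nat_lit 12]⟩,
 zbF0, [⟨nat_lit 0, nat_lit 76, nat_lit 66, nat_lit 100, nat_lit 210573222⟩, ⟨nat_lit 0, nat_lit 72, nat_lit 61, nat_lit 100, nat_lit 245228438⟩, ⟨nat_lit 4, nat_lit 100, nat_lit 67, nat_lit 88, nat_lit 337258575⟩]⟩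
noncomputable def b_V_800_800_20_15 : St := ⟨true, nat_lit 1, nat_lit 0, nat_lit 2, nat_lit 120, nat_lit 320, nat_lit 360, nat_lit 320, nat_lit 340, nat_lit 140, nat_lit 240, nat_lit 80, nat_lit 120, nat_lit 0, nat_lit 300, nat_lit 0, nat_lit 160, nat_lit 0, nat_lit 40, nat_lit 0, nat_lit 0, nat_lit 0, nat_lit 0⟩
theorem d_V_800_800_20_15 (h : EB TB.env) : Dead b_V_800_800_20_15 := chkB_sound0 h (T :=
(.spl (nat_lit 0) (nat_lit 340)
(.spl (nat_lit 0) (nat_lit 330)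
(.ord (.spl (nat_lit 4) (nat_lit 160)
(.leaf p101_l0)
(.leaf p101_l1)))
(.trZ (nat_lit 0) (nat_lit 82) (nat_lit 78) (nat_lit 100) (nat_lit 156) (.trX (nat_lit 16) (nat_lit 83) (nat_lit 98) (nat_lit 100) (nat_lit 288) (.leaf p101_l2))))
(.trZ (nat_lit 0) (nat_lit 81) (nat_lit 72) (nat_lit 100) (nat_lit 168) (.trX (nat_lit 16) (nat_lit 77) (nat_lit 100) (nat_lit 99) (nat_lit 276) (.leaf p101_l3))))) (by decide +kernel)
noncomputable def p101_l4 : Lf2 := ⟨nat_lit 0, nat_lit 10, [nat_lit 0, nat_lit 5, nat_lit 5, nat_lit 20], false, nat_lit 0, nat_lit 160, nat_lit 160, nat_lit 300, ⟨nat_lit 1000, nat_lit 0, nat_lit 0, nat_lit 0, nat_lit 0, nat_lit 0, nat_lit 0, nat_lit 0, nat_lit 0, nat_lit 0, nat_lit 0, nat_lit 0, nat_lit 0, nat_lit 0, nat_lit 0, nat_lit 0, false, false⟩,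
 nat_lit 0, nat_lit 11157, nat_lit 0, nat_lit 0, nat_lit 8367, nat_lit 3785, nat_lit 455, nat_lit 0, nat_lit 0, nat_lit 0, nat_lit 0, nat_lit 0, nat_lit 0, nat_lit 0, nat_lit 0, nat_lit 0, nat_lit 0, nat_lit 0, [],
 ⟨p101_k0, nat_lit 0, nat_lit 0, nat_lit 530, nat_lit 0, nat_lit 1011833, [nat_lit 2032000001, nat_lit 4688000000, nat_lit 6250000000], [], [nat_lit 23675491898, nat_lit 24209430492, nat_lit 27907328160, nat_lit 28338716976, nat_lit 19396569730, nat_lit 19525832564, nat_lit 22228433830, nat_lit 21674522533], nat_lit 1271250, nat_lit 1271250, nat_lit 936251, nat_lit 1773750, nat_lit 0, nat_lit 1100001, [nat_lit 490000, nat_lit 1100000, nat_lit 1442500], [nat_lit 6, nat_lit 40, nat_lit 40, nat_lit 80, nat_lit 3, nat_lit 317, nat_lit 100, nat_lit 12]⟩, ⟨p101_k0, nat_lit 0, nat_lit 0, nat_lit 41, nat_lit 0, nat_lit 0, [nat_lit 2032000000, nat_lit 4688000000, nat_lit 6250000000], [], [nat_lit 16171092270, nat_lit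 16424028737, nat_lit 19477871420, nat_lit 19689523085, nat_lit 22278019223, nat_lit 22467899332, nat_lit 24545918130, nat_lit 24708594592], nat_lit 0, nat_lit 0, nat_lit 0, nat_lit 0, nat_lit 0, nat_lit 0, [], [nat_lit 6, nat_lit 40, nat_lit 40, nat_lit 80, nat_lit 3, nat_lit 373, nat_lit 150, nat_lit 13]⟩,
 zbF0, [⟨nat_lit 0, nat_lit 81, nat_lit 81, nat_lit 100, nat_lit 166584685⟩, ⟨nat_lit 7, nat_lit 100, nat_lit 86, nat_lit 94, nat_lit 538693483⟩]⟩
noncomputable def p101_l5 : Lf2 := ⟨nat_lit 0, nat_lit 10, [nat_lit 0, nat_lit 5, nat_lit 5, nat_lit 20], false, nat_lit 0, nat_lit 160, nat_lit 160, nat_lit 300, ⟨nat_lit 1000, nat_lit 0, nat_lit 0, nat_lit 0, nat_lit 0, nat_lit 0, nat_lit 0, nat_lit 0, nat_lit 0, nat_lit 0, nat_lit 0, nat_lit 0, nat_lit 0, nat_lit 0, nat_lit 0, nat_lit 0, false, false⟩,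
 nat_lit 0, nat_lit 9476, nat_lit 0, nat_lit 0, nat_lit 7190, nat_lit 3782, nat_lit 3457, nat_lit 0, nat_lit 0, nat_lit 0, nat_lit 0, nat_lit 0, nat_lit 0, nat_lit 0, nat_lit 0, nat_lit 0, nat_lit 0, nat_lit 0, [],
 ⟨p101_k3, nat_lit 0, nat_lit 0, nat_lit 536, nat_lit 0, nat_lit 1028717, [nat_lit 2032000001, nat_lit 4688000000, nat_lit 6250000000], [], [nat_lit 22618902534, nat_lit 22935417055, nat_lit 26557307350, nat_lit 26815838115, nat_lit 18163803633, nat_lit 18248745085, nat_lit 20216627640, nat_lit 20434644600], nat_lit 1271250, nat_lit 1271250, nat_lit 968401, nat_lit 1776000, nat_lit 0, nat_lit 1100001, [nat_lit 490000, nat_lit 1100000, nat_lit 1442500], [nat_lit 6, nat_lit 40, nat_lit 40, nat_lit 80, nat_lit 3, nat_lit 317, nat_lit 100, nat_lit 12]⟩, ⟨p101_k0, nat_lit 0, nat_lit 0, nat_lit 42, nat_lit 0, nat_lit 0, [nat_lit 2032000000, nat_lit 4688000000, nat_lit 6250000000], [], [nat_lit 16257248889, nat_lit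 16676113697, nat_lit 19479833384, nat_lit 19832445414, nat_lit 22328274864, nat_lit 22642886029, nat_lit 24546910476, nat_lit 24819831974], nat_lit 0, nat_lit 0, nat_lit 0, nat_lit 0, nat_lit 0, nat_lit 0, [], [nat_lit 6, nat_lit 40, nat_lit 40, nat_lit 80, nat_lit 3, nat_lit 373, nat_lit 150, nat_lit 13]⟩,
 zbF0, [⟨nat_lit 0, nat_lit 80, nat_lit 80, nat_lit 100, nat_lit 170426780⟩, ⟨nat_lit 7, nat_lit 100, nat_lit 85, nat_lit 94, nat_lit 541591700⟩]⟩
noncomputable def p101_l6 : Lf2 := ⟨nat_lit 0, nat_lit 10, [nat_lit 0, nat_lit 5, nat_lit 5, nat_lit 20], false, nat_lit 0, nat_lit 160, nat_lit 160, nat_lit 300, ⟨nat_lit 1000, nat_lit 0, nat_lit 0, nat_lit 0, nat_lit 0, nat_lit 0, nat_lit 0, nat_lit 0, nat_lit 0, nat_lit 0, nat_lit 0, nat_lit 0, nat_lit 0, nat_lit 0, nat_lit 0, nat_lit 0, false, false⟩,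
 nat_lit 0, nat_lit 8502, nat_lit 0, nat_lit 0, nat_lit 6501, nat_lit 3768, nat_lit 3087, nat_lit 0, nat_lit 0, nat_lit 0, nat_lit 0, nat_lit 0, nat_lit 0, nat_lit 0, nat_lit 0, nat_lit 0, nat_lit 0, nat_lit 0, [],
 ⟨p101_k4, nat_lit 0, nat_lit 0, nat_lit 564, nat_lit 0, nat_lit 1100573, [nat_lit 2032000001, nat_lit 4688000000, nat_lit 6250000000], [], [nat_lit 22009467201, nat_lit 22741699654, nat_lit 25756012459, nat_lit 26359808437, nat_lit 17870723978, nat_lit 18058474337, nat_lit 20281004490, nat_lit 20791314400], nat_lit 1271250, nat_lit 1271250, nat_lit 1000851, nat_lit 1778250, nat_lit 0, nat_lit 1100001, [nat_lit 490000, nat_lit 1100000, nat_lit 1442500], [nat_lit 6, nat_lit 40, nat_lit 40, nat_lit 80, nat_lit 3, nat_lit 317, nat_lit 100, nat_lit 12]⟩, ⟨p101_k0, nat_lit 0, nat_lit 0, nat_lit 43, nat_lit 0, nat_lit 0, [nat_lit 2032000000, nat_lit 4688000000, nat_lit 6250000000], [], [nat_lit 16352279728,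 nat_lit 17183318709, nat_lit 19488989216, nat_lit 20192899656, nat_lit 22381935966, nat_lit 23006591315, nat_lit 24551541424, nat_lit 25093846716], nat_lit 0, nat_lit 0, nat_lit 0, nat_lit 0, nat_lit 0, nat_lit 0, [], [nat_lit 6, nat_lit 40, nat_lit 40, nat_lit 80, nat_lit 3, nat_lit 373, nat_lit 150, nat_lit 13]⟩,
 zbF0, [⟨nat_lit 0, nat_lit 77, nat_lit 77, nat_lit 100, nat_lit 183221029⟩, ⟨nat_lit 7, nat_lit 100, nat_lit 84, nat_lit 93, nat_lit 547362716⟩]⟩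
noncomputable def p101_l7 : Lf2 := ⟨nat_lit 0, nat_lit 10, [nat_lit 0, nat_lit 5, nat_lit 5, nat_lit 20], false, nat_lit 0, nat_lit 160, nat_lit 160, nat_lit 300, ⟨nat_lit 1000, nat_lit 0, nat_lit 0, nat_lit 0, nat_lit 0, nat_lit 0, nat_lit 0, nat_lit 0, nat_lit 0, nat_lit 0, nat_lit 0, nat_lit 0, nat_lit 0, nat_lit 0, nat_lit 0, nat_lit 0, false, false⟩,
 nat_lit 0, nat_lit 7275, nat_lit 0, nat_lit 0, nat_lit 5671, nat_lit 3818, nat_lit 2517, nat_lit 0, nat_lit 0, nat_lit 0, nat_lit 0, nat_lit 0, nat_lit 0, nat_lit 0, nat_lit 0, nat_lit 0, nat_lit 0, nat_lit 0, [],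
 ⟨p101_k1, nat_lit 0, nat_lit 0, nat_lit 627, nat_lit 0, nat_lit 1234683, [nat_lit 2032000001, nat_lit 4688000000, nat_lit 6250000000], [], [nat_lit 21610992743, nat_lit 22928564279, nat_lit 25031860727, nat_lit 26136983374, nat_lit 19373219451, nat_lit 19867787425, nat_lit 21019058500, nat_lit 21501331620], nat_lit 1271250, nat_lit 1271250, nat_lit 1066650, nat_lit 1782750, nat_lit 0, nat_lit 1100001, [nat_lit 490000, nat_lit 1100000, nat_lit 1442500], [nat_lit 6, nat_lit 40, nat_lit 40, nat_lit 80, nat_lit 3, nat_lit 317, nat_lit 100, nat_lit 12]⟩, ⟨p101_k0, nat_lit 0, nat_lit 0, nat_lit 47, nat_lit 0, nat_lit 0, [nat_lit 2032000000, nat_lit 4688000000, nat_lit 6250000000], [], [nat_lit 16479269660, nat_lit 18132946076, nat_lit 19456289816, nat_lit 20873493696, nat_lit 22464787209, nat_lit 23774909709, nat_lit 24556101250, nat_lit 25689052757], nat_lit 0, nat_lit 0, nat_lit 0, nat_lit 0, nat_lit 0, nat_lit 0, [],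 [nat_lit 6, nat_lit 40, nat_lit 40, nat_lit 80, nat_lit 3, nat_lit 373, nat_lit 150, nat_lit 13]⟩,
 zbF0, [⟨nat_lit 0, nat_lit 77, nat_lit 74, nat_lit 100, nat_lit 429384320⟩, ⟨nat_lit 7, nat_lit 100, nat_lit 81, nat_lit 92, nat_lit 525516158⟩]⟩
noncomputable def p101_l8 : Lf2 := ⟨nat_lit 0, nat_lit 10, [nat_lit 0, nat_lit 5, nat_lit 5, nat_lit 20], false, nat_lit 0, nat_lit 160, nat_lit 160, nat_lit 300, ⟨nat_lit 1000, nat_lit 0, nat_lit 0, nat_lit 0, nat_lit 0, nat_lit 0, nat_lit 0, nat_lit 0, nat_lit 0, nat_lit 0, nat_lit 0, nat_lit 0, nat_lit 0, nat_lit 0, nat_lit 0, nat_lit 0, false, false⟩,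
 nat_lit 0, nat_lit 6794, nat_lit 0, nat_lit 0, nat_lit 5499, nat_lit 3824, nat_lit 1187, nat_lit 0, nat_lit 0, nat_lit 0, nat_lit 0, nat_lit 0, nat_lit 0, nat_lit 0, nat_lit 0, nat_lit 0, nat_lit 0, nat_lit 0, [],
 ⟨p101_k2, nat_lit 0, nat_lit 0, nat_lit 659, nat_lit 0, nat_lit 1317316, [nat_lit 2032000001, nat_lit 4688000000, nat_lit 6250000000], [], [nat_lit 22938086830, nat_lit 25465342797, nat_lit 25840559606, nat_lit 28008335692, nat_lit 21167985412, nat_lit 22027530822, nat_lit 22478905437, nat_lit 23325297207], nat_lit 1271250, nat_lit 1271250, nat_lit 1167600, nat_lit 1789500, nat_lit 0, nat_lit 1100001, [nat_lit 490000, nat_lit 1100000, nat_lit 1442500], [nat_lit 6, nat_lit 40, nat_lit 40, nat_lit 80, nat_lit 3, nat_lit 317, nat_lit 100, nat_lit 12]⟩, ⟨p101_k0, nat_lit 0, nat_lit 0, nat_lit 45, nat_lit 0, nat_lit 0, [nat_lit 2032000000, nat_lit 4688000000, nat_lit 6250000000], [], [nat_lit 16811717786,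 nat_lit 18434600653, nat_lit 19452365888, nat_lit 20870695728, nat_lit 22683337152, nat_lit 23970629793, nat_lit 24559156000, nat_lit 25692893276], nat_lit 0, nat_lit 0, nat_lit 0, nat_lit 0, nat_lit 0, nat_lit 0, [], [nat_lit 6, nat_lit 40, nat_lit 40, nat_lit 80, nat_lit 3, nat_lit 373, nat_lit 150, nat_lit 13]⟩,
 zbF0, [⟨nat_lit 0, nat_lit 76, nat_lit 66, nat_lit 100, nat_lit 463189928⟩, ⟨nat_lit 19, nat_lit 87, nat_lit 95, nat_lit 100, nat_lit 379100660⟩, ⟨nat_lit 7, nat_lit 100, nat_lit 81, nat_lit 92, nat_lit 95362669⟩]⟩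
noncomputable def p101_l9 : Lf2 := ⟨nat_lit 0, nat_lit 1, [nat_lit 19, nat_lit 5, nat_lit 5, nat_lit 20], false, nat_lit 160, nat_lit 300, nat_lit 160, nat_lit 300, ⟨nat_lit 1000, nat_lit 0, nat_lit 0, nat_lit 0, nat_lit 0, nat_lit 0, nat_lit 0, nat_lit 0, nat_lit 0, nat_lit 0, nat_lit 0, nat_lit 0, nat_lit 0, nat_lit 0, nat_lit 0, nat_lit 0, false, false⟩,
 nat_lit 0, nat_lit 8115, nat_lit 0, nat_lit 0, nat_lit 6086, nat_lit 3785, nat_lit 0, nat_lit 0, nat_lit 0, nat_lit 0, nat_lit 0, nat_lit 0, nat_lit 0, nat_lit 0, nat_lit 0, nat_lit 0, nat_lit 0, nat_lit 0, [],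
 ⟨p101_k5, nat_lit 0, nat_lit 0, nat_lit 311, nat_lit 0, nat_lit 962543, [nat_lit 2032000001, nat_lit 3282000000], [], [nat_lit 19631880233, nat_lit 19810909631, nat_lit 21671264625, nat_lit 21821631996, nat_lit 23700134310, nat_lit 23846057176, nat_lit 25710796750, nat_lit 25925292579], nat_lit 1271250, nat_lit 1271250, nat_lit 936251, nat_lit 1773750, nat_lit 1100001, nat_lit 2298750, [nat_lit 490000, nat_lit 780000], [nat_lit 112, nat_lit 40, nat_lit 40, nat_lit 80, nat_lit 113, nat_lit 203, nat_lit 0, nat_lit 10]⟩, ⟨p101_k5, nat_lit 0, nat_lit 0, nat_lit 28, nat_lit 0, nat_lit 0, [nat_lit 2032000000, nat_lit 3282000000], [], [nat_lit 16171092270, nat_lit 16424028737, nat_lit 19477871420, nat_lit 19689523085, nat_lit 22278019223, nat_lit 22467899332, nat_lit 24545918130, nat_lit 24708594592], nat_lit 0, nat_lit 0, nat_lit 0, nat_lit 0, nat_lit 0, nat_lit 0, [], [nat_lit 112, nat_lit 40, nat_lit 40, nat_lit 80,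 nat_lit 113, nat_lit 203, nat_lit 0, nat_lit 10]⟩,
 zbF0, [⟨nat_lit 0, nat_lit 81, nat_lit 81, nat_lit 100, nat_lit 400836513⟩, ⟨nat_lit 16, nat_lit 87, nat_lit 95, nat_lit 100, nat_lit 418095525⟩, ⟨nat_lit 19, nat_lit 87, nat_lit 95, nat_lit 100, nat_lit 458486025⟩]⟩
noncomputable def p101_l10 : Lf2 := ⟨nat_lit 0, nat_lit 2, [nat_lit 10, nat_lit 5, nat_lit 5, nat_lit 20], false, nat_lit 160, nat_lit 280, nat_lit 160, nat_lit 280, ⟨nat_lit 1000, nat_lit 0, nat_lit 0, nat_lit 0, nat_lit 0, nat_lit 0, nat_lit 0, nat_lit 0, nat_lit 0, nat_lit 0, nat_lit 0, nat_lit 0, nat_lit 0, nat_lit 0, nat_lit 0, nat_lit 0, false, false⟩,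
 nat_lit 0, nat_lit 10127, nat_lit 0, nat_lit 0, nat_lit 7595, nat_lit 3841, nat_lit 0, nat_lit 0, nat_lit 0, nat_lit 0, nat_lit 0, nat_lit 0, nat_lit 0, nat_lit 0, nat_lit 0, nat_lit 0, nat_lit 0, nat_lit 0, [],
 ⟨p101_k6, nat_lit 0, nat_lit 0, nat_lit 322, nat_lit 0, nat_lit 870351, [nat_lit 2032000001, nat_lit 4688000000], [], [nat_lit 19957996760, nat_lit 20152362763, nat_lit 21633090580, nat_lit 21794205841, nat_lit 23072645720, nat_lit 23224132781, nat_lit 25237779390, nat_lit 25496150602], nat_lit 1271250, nat_lit 1271250, nat_lit 936251, nat_lit 1773750, nat_lit 1100001, nat_lit 2127500, [nat_lit 490000, nat_lit 1100000], [nat_lit 24, nat_lit 40, nat_lit 40, nat_lit 80, nat_lit 33, nat_lit 272, nat_lit 60, nat_lit 11]⟩, ⟨p101_k6, nat_lit 0, nat_lit 0, nat_lit 23, nat_lit 0, nat_lit 0, [nat_lit 2032000000, nat_lit 4688000000], [], [nat_lit 16126618302, nat_lit 16381579555, nat_lit 19441248092, nat_lit 19654476101,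 nat_lit 21211182815, nat_lit 21411842847, nat_lit 23646226042, nat_lit 23824878624], nat_lit 0, nat_lit 0, nat_lit 0, nat_lit 0, nat_lit 0, nat_lit 0, [], [nat_lit 24, nat_lit 40, nat_lit 40, nat_lit 80, nat_lit 33, nat_lit 272, nat_lit 60, nat_lit 11]⟩,
 zbF0, [⟨nat_lit 0, nat_lit 81, nat_lit 81, nat_lit 100, nat_lit 372921929⟩, ⟨nat_lit 16, nat_lit 87, nat_lit 100, nat_lit 94, nat_lit 419101762⟩, ⟨nat_lit 19, nat_lit 87, nat_lit 100, nat_lit 94, nat_lit 475115397⟩]⟩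
noncomputable def p101_l11 : Lf2 := ⟨nat_lit 0, nat_lit 2, [nat_lit 10, nat_lit 5, nat_lit 5, nat_lit 20], false, nat_lit 160, nat_lit 240, nat_lit 160, nat_lit 300, ⟨nat_lit 1000, nat_lit 0, nat_lit 0, nat_lit 0, nat_lit 0, nat_lit 0, nat_lit 0, nat_lit 0, nat_lit 0, nat_lit 0, nat_lit 0, nat_lit 0, nat_lit 0, nat_lit 0, nat_lit 0, nat_lit 0, false, false⟩,
 nat_lit 0, nat_lit 9516, nat_lit 0, nat_lit 0, nat_lit 7136, nat_lit 3797, nat_lit 0, nat_lit 0, nat_lit 0, nat_lit 0, nat_lit 0, nat_lit 0, nat_lit 0, nat_lit 0, nat_lit 0, nat_lit 0, nat_lit 0, nat_lit 0, [],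
 ⟨p101_k6, nat_lit 0, nat_lit 0, nat_lit 262, nat_lit 0, nat_lit 753785, [nat_lit 2032000001, nat_lit 4688000000], [], [nat_lit 19634511760, nat_lit 19785774341, nat_lit 19814751392, nat_lit 19961205825, nat_lit 21748212224, nat_lit 21877662440, nat_lit 21832524512, nat_lit 21957909225], nat_lit 1271250, nat_lit 1271250, nat_lit 936251, nat_lit 1100001, nat_lit 1100001, nat_lit 1785000, [nat_lit 490000, nat_lit 1100000], [nat_lit 24, nat_lit 40, nat_lit 40, nat_lit 80, nat_lit 33, nat_lit 249, nat_lit 40, nat_lit 10]⟩, ⟨p101_k6, nat_lit 0, nat_lit 0, nat_lit 28, nat_lit 0, nat_lit 0, [nat_lit 2032000000, nat_lit 4688000000], [], [nat_lit 16161562134, nat_lit 16330475701, nat_lit 16580062204, nat_lit 16743930909, nat_lit 22274639285, nat_lit 22408160308, nat_lit 22520869748, nat_lit 22644164335], nat_lit 0, nat_lit 0, nat_lit 0, nat_lit 0, nat_lit 0, nat_lit 0, [], [nat_lit 24, nat_lit 40, nat_lit 40, nat_lit 80,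 nat_lit 33, nat_lit 249, nat_lit 40, nat_lit 10]⟩,
 zbF0, [⟨nat_lit 0, nat_lit 82, nat_lit 82, nat_lit 100, nat_lit 629786305⟩, ⟨nat_lit 7, nat_lit 100, nat_lit 89, nat_lit 99, nat_lit 488635548⟩]⟩
noncomputable def p101_l12 : Lf2 := ⟨nat_lit 0, nat_lit 2, [nat_lit 10, nat_lit 5, nat_lit 5, nat_lit 20], false, nat_lit 240, nat_lit 300, nat_lit 160, nat_lit 300, ⟨nat_lit 1000, nat_lit 0, nat_lit 0, nat_lit 0, nat_lit 0, nat_lit 0, nat_lit 0, nat_lit 0, nat_lit 0, nat_lit 0, nat_lit 0, nat_lit 0, nat_lit 0, nat_lit 0, nat_lit 0, nat_lit 0, false, false⟩,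
 nat_lit 0, nat_lit 7851, nat_lit 0, nat_lit 0, nat_lit 5888, nat_lit 3797, nat_lit 837, nat_lit 0, nat_lit 0, nat_lit 0, nat_lit 0, nat_lit 0, nat_lit 0, nat_lit 0, nat_lit 0, nat_lit 0, nat_lit 0, nat_lit 0, [],
 ⟨p101_k7, nat_lit 0, nat_lit 0, nat_lit 277, nat_lit 0, nat_lit 753785, [nat_lit 2032000001, nat_lit 3282000000, nat_lit 4688000000], [], [nat_lit 21103191730, nat_lit 21211582011, nat_lit 21262053474, nat_lit 21367230834, nat_lit 23473353397, nat_lit 23641942939, nat_lit 23585402576, nat_lit 23729620145], nat_lit 1271250, nat_lit 1271250, nat_lit 936251, nat_lit 1100001, nat_lit 1271250, nat_lit 1271250, [nat_lit 490000, nat_lit 780000, nat_lit 1100000], [nat_lit 78, nat_lit 40, nat_lit 40, nat_lit 80, nat_lit 22, nat_lit 249, nat_lit 40, nat_lit 10]⟩, ⟨p101_k7, nat_lit 0, nat_lit 0, nat_lit 34, nat_lit 0, nat_lit 0, [nat_lit 2032000000, nat_lit 3282000000, nat_lit 4688000000], [], [nat_lit 16161562134,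 nat_lit 16330475701, nat_lit 16580062204, nat_lit 16743930909, nat_lit 22274639285, nat_lit 22408160308, nat_lit 22520869748, nat_lit 22644164335], nat_lit 0, nat_lit 0, nat_lit 0, nat_lit 0, nat_lit 0, nat_lit 0, [], [nat_lit 78, nat_lit 40, nat_lit 40, nat_lit 80, nat_lit 22, nat_lit 249, nat_lit 40, nat_lit 10]⟩,
 zbF0, [⟨nat_lit 0, nat_lit 83, nat_lit 83, nat_lit 100, nat_lit 604859952⟩, ⟨nat_lit 16, nat_lit 87, nat_lit 95, nat_lit 100, nat_lit 497441028⟩, ⟨nat_lit 19, nat_lit 87, nat_lit 95, nat_lit 100, nat_lit 496320416⟩]⟩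
noncomputable def p101_l13 : Lf2 := ⟨nat_lit 0, nat_lit 2, [nat_lit 10, nat_lit 5, nat_lit 5, nat_lit 20], false, nat_lit 160, nat_lit 300, nat_lit 160, nat_lit 300, ⟨nat_lit 1000, nat_lit 0, nat_lit 0, nat_lit 0, nat_lit 0, nat_lit 0, nat_lit 0, nat_lit 0, nat_lit 0, nat_lit 0, nat_lit 0, nat_lit 0, nat_lit 0, nat_lit 0, nat_lit 0, nat_lit 0, false, false⟩,
 nat_lit 0, nat_lit 8373, nat_lit 0, nat_lit 0, nat_lit 6328, nat_lit 3802, nat_lit 3491, nat_lit 0, nat_lit 0, nat_lit 0, nat_lit 0, nat_lit 0, nat_lit 0, nat_lit 0, nat_lit 0, nat_lit 0, nat_lit 0, nat_lit 0, [],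
 ⟨p101_k8, nat_lit 0, nat_lit 0, nat_lit 273, nat_lit 0, nat_lit 761049, [nat_lit 2032000001, nat_lit 4688000000], [], [nat_lit 19450497395, nat_lit 19520474796, nat_lit 19613816478, nat_lit 19682049445, nat_lit 23943552538, nat_lit 24001297533, nat_lit 23972018496, nat_lit 24046953240], nat_lit 1271250, nat_lit 1271250, nat_lit 968401, nat_lit 1100001, nat_lit 1100001, nat_lit 2298750, [nat_lit 490000, nat_lit 1100000], [nat_lit 24, nat_lit 40, nat_lit 40, nat_lit 80, nat_lit 33, nat_lit 249, nat_lit 40, nat_lit 10]⟩, ⟨p101_k6, nat_lit 0, nat_lit 0, nat_lit 28, nat_lit 0, nat_lit 0, [nat_lit 2032000000, nat_lit 4688000000], [], [nat_lit 16241266569, nat_lit 16493302795, nat_lit 16575967864, nat_lit 16821944460, nat_lit 22322422216, nat_lit 22521585198, nat_lit 22519187168, nat_lit 22704243332], nat_lit 0, nat_lit 0, nat_lit 0, nat_lit 0, nat_lit 0, nat_lit 0, [], [nat_lit 24, nat_lit 40, nat_lit 40, nat_lit 80,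 nat_lit 33, nat_lit 249, nat_lit 40, nat_lit 10]⟩,
 zbF0, [⟨nat_lit 0, nat_lit 83, nat_lit 82, nat_lit 100, nat_lit 636834618⟩, ⟨nat_lit 16, nat_lit 86, nat_lit 96, nat_lit 100, nat_lit 436373314⟩, ⟨nat_lit 19, nat_lit 87, nat_lit 95, nat_lit 100, nat_lit 496423878⟩]⟩
noncomputable def p101_l14 : Lf2 := ⟨nat_lit 0, nat_lit 2, [nat_lit 10, nat_lit 5, nat_lit 5, nat_lit 20], false, nat_lit 160, nat_lit 300, nat_lit 160, nat_lit 300, ⟨nat_lit 1000, nat_lit 0, nat_lit 0, nat_lit 0, nat_lit 0, nat_lit 0, nat_lit 0, nat_lit 0, nat_lit 0, nat_lit 0, nat_lit 0, nat_lit 0, nat_lit 0, nat_lit 0, nat_lit 0, nat_lit 0, false, false⟩,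
 nat_lit 0, nat_lit 7276, nat_lit 0, nat_lit 0, nat_lit 5456, nat_lit 3811, nat_lit 0, nat_lit 0, nat_lit 0, nat_lit 0, nat_lit 0, nat_lit 0, nat_lit 0, nat_lit 0, nat_lit 0, nat_lit 0, nat_lit 0, nat_lit 0, [],
 ⟨p101_k6, nat_lit 0, nat_lit 0, nat_lit 272, nat_lit 0, nat_lit 769289, [nat_lit 2032000001, nat_lit 4688000000], [], [nat_lit 25026342626, nat_lit 25190075441, nat_lit 25765497858, nat_lit 25918724342, nat_lit 28753014090, nat_lit 28878167724, nat_lit 29227690424, nat_lit 29361313515], nat_lit 1271250, nat_lit 1271250, nat_lit 1100001, nat_lit 1442500, nat_lit 1100001, nat_lit 2298750, [nat_lit 490000, nat_lit 1100000], [nat_lit 24, nat_lit 40, nat_lit 40, nat_lit 80, nat_lit 33, nat_lit 203, nat_lit 0, nat_lit 8]⟩, ⟨p101_k6, nat_lit 0, nat_lit 0, nat_lit 26, nat_lit 0, nat_lit 0, [nat_lit 2032000000, nat_lit 4688000000], [], [nat_lit 16568598052, nat_lit 16814887016, nat_lit 17836853584, nat_lit 18066645238,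 nat_lit 22516158524, nat_lit 22701420401, nat_lit 23374319169, nat_lit 23548081448], nat_lit 0, nat_lit 0, nat_lit 0, nat_lit 0, nat_lit 0, nat_lit 0, [], [nat_lit 24, nat_lit 40, nat_lit 40, nat_lit 80, nat_lit 33, nat_lit 203, nat_lit 0, nat_lit 8]⟩,
 zbF0, [⟨nat_lit 16, nat_lit 87, nat_lit 95, nat_lit 100, nat_lit 403845667⟩, ⟨nat_lit 19, nat_lit 87, nat_lit 95, nat_lit 100, nat_lit 494102339⟩]⟩
noncomputable def p101_l15 : Lf2 := ⟨nat_lit 0, nat_lit 2, [nat_lit 10, nat_lit 5, nat_lit 5, nat_lit 20], false, nat_lit 160, nat_lit 300, nat_lit 160, nat_lit 300, ⟨nat_lit 1000, nat_lit 0, nat_lit 0, nat_lit 0, nat_lit 0, nat_lit 0, nat_lit 0, nat_lit 0, nat_lit 0, nat_lit 0, nat_lit 0, nat_lit 0, nat_lit 0, nat_lit 0, nat_lit 0, nat_lit 0, false, false⟩,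
 nat_lit 0, nat_lit 7773, nat_lit 0, nat_lit 0, nat_lit 5829, nat_lit 3815, nat_lit 0, nat_lit 0, nat_lit 0, nat_lit 0, nat_lit 0, nat_lit 0, nat_lit 0, nat_lit 13729320000849, nat_lit 0, nat_lit 0, nat_lit 0, nat_lit 0, [],
 ⟨p101_k6, nat_lit 0, nat_lit 0, nat_lit 268, nat_lit 0, nat_lit 769289, [nat_lit 2032000001, nat_lit 4688000000], [], [nat_lit 24308289806, nat_lit 24466638400, nat_lit 25437763768, nat_lit 25606398558, nat_lit 28230653591, nat_lit 28368242642, nat_lit 28989914068, nat_lit 29117315792], nat_lit 1271250, nat_lit 1271250, nat_lit 1271250, nat_lit 1271250, nat_lit 1100001, nat_lit 2298750, [nat_lit 490000, nat_lit 1100000], [nat_lit 24, nat_lit 40, nat_lit 40, nat_lit 80, nat_lit 33, nat_lit 203, nat_lit 0, nat_lit 7]⟩, ⟨p101_k6, nat_lit 0, nat_lit 0, nat_lit 26, nat_lit 0, nat_lit 0, [nat_lit 2032000000, nat_lit 4688000000], [], [nat_lit 17833753360, nat_lit 18063671121, nat_lit 19458251780, nat_lit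 19670747915, nat_lit 23372851885, nat_lit 23546696925, nat_lit 24554573875, nat_lit 24724457669], nat_lit 0, nat_lit 0, nat_lit 0, nat_lit 0, nat_lit 0, nat_lit 0, [], [nat_lit 24, nat_lit 40, nat_lit 40, nat_lit 80, nat_lit 33, nat_lit 203, nat_lit 0, nat_lit 7]⟩,
 zbF0, [⟨nat_lit 16, nat_lit 87, nat_lit 95, nat_lit 100, nat_lit 412640814⟩, ⟨nat_lit 19, nat_lit 87, nat_lit 95, nat_lit 100, nat_lit 477541330⟩]⟩
noncomputable def p101_l16 : Lf2 := ⟨nat_lit 0, nat_lit 5, [nat_lit 4, nat_lit 5, nat_lit 5, nat_lit 20], false, nat_lit 160, nat_lit 280, nat_lit 160, nat_lit 280, ⟨nat_lit 1000, nat_lit 0, nat_lit 0, nat_lit 0, nat_lit 0, nat_lit 0, nat_lit 0, nat_lit 0, nat_lit 0, nat_lit 0, nat_lit 0, nat_lit 0, nat_lit 0, nat_lit 0, nat_lit 0, nat_lit 0, false, false⟩,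
 nat_lit 0, nat_lit 10127, nat_lit 0, nat_lit 0, nat_lit 7595, nat_lit 3841, nat_lit 470, nat_lit 0, nat_lit 0, nat_lit 0, nat_lit 0, nat_lit 0, nat_lit 0, nat_lit 0, nat_lit 0, nat_lit 0, nat_lit 0, nat_lit 0, [],
 ⟨p101_k9, nat_lit 0, nat_lit 0, nat_lit 350, nat_lit 0, nat_lit 827238, [nat_lit 2032000001, nat_lit 4688000000, nat_lit 6250000000], [], [nat_lit 20291411300, nat_lit 20472117255, nat_lit 21729407520, nat_lit 21879191388, nat_lit 23082384135, nat_lit 23224132781, nat_lit 25237779390, nat_lit 25496150602], nat_lit 1271250, nat_lit 1271250, nat_lit 936251, nat_lit 1773750, nat_lit 1100001, nat_lit 2127500, [nat_lit 490000, nat_lit 1100000, nat_lit 1442500], [nat_lit 6, nat_lit 40, nat_lit 40, nat_lit 80, nat_lit 3, nat_lit 373, nat_lit 150, nat_lit 13]⟩, ⟨p101_k9, nat_lit 0, nat_lit 0, nat_lit 34, nat_lit 0, nat_lit 0, [nat_lit 2032000000, nat_lit 4688000000, nat_lit 6250000000], [], [nat_lit 16126618302,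 nat_lit 16381579555, nat_lit 19441248092, nat_lit 19654476101, nat_lit 21211182815, nat_lit 21411842847, nat_lit 23646226042, nat_lit 23824878624], nat_lit 0, nat_lit 0, nat_lit 0, nat_lit 0, nat_lit 0, nat_lit 0, [], [nat_lit 6, nat_lit 40, nat_lit 40, nat_lit 80, nat_lit 3, nat_lit 373, nat_lit 150, nat_lit 13]⟩,
 zbF0, [⟨nat_lit 0, nat_lit 81, nat_lit 81, nat_lit 100, nat_lit 372921929⟩, ⟨nat_lit 16, nat_lit 87, nat_lit 100, nat_lit 94, nat_lit 402760921⟩, ⟨nat_lit 19, nat_lit 87, nat_lit 100, nat_lit 94, nat_lit 475115397⟩]⟩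
noncomputable def p101_l17 : Lf2 := ⟨nat_lit 0, nat_lit 5, [nat_lit 4, nat_lit 5, nat_lit 5, nat_lit 20], false, nat_lit 160, nat_lit 300, nat_lit 160, nat_lit 300, ⟨nat_lit 1000, nat_lit 0, nat_lit 0, nat_lit 0, nat_lit 0, nat_lit 0, nat_lit 0, nat_lit 0, nat_lit 0, nat_lit 0, nat_lit 0, nat_lit 0, nat_lit 0, nat_lit 0, nat_lit 0, nat_lit 0, false, false⟩,
 nat_lit 0, nat_lit 9387, nat_lit 0, nat_lit 0, nat_lit 7040, nat_lit 3785, nat_lit 495, nat_lit 0, nat_lit 0, nat_lit 0, nat_lit 0, nat_lit 0, nat_lit 0, nat_lit 0, nat_lit 0, nat_lit 0, nat_lit 0, nat_lit 0, [],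
 ⟨p101_k9, nat_lit 0, nat_lit 0, nat_lit 314, nat_lit 0, nat_lit 723300, [nat_lit 2032000001, nat_lit 4688000000, nat_lit 6250000000], [], [nat_lit 20341105840, nat_lit 20550337553, nat_lit 21194455360, nat_lit 21382966444, nat_lit 24606678400, nat_lit 24762067639, nat_lit 24993625160, nat_lit 25144090289], nat_lit 1271250, nat_lit 1271250, nat_lit 936251, nat_lit 1438750, nat_lit 1100001, nat_lit 2298750, [nat_lit 490000, nat_lit 1100000, nat_lit 1442500], [nat_lit 6, nat_lit 40, nat_lit 40, nat_lit 80, nat_lit 3, nat_lit 345, nat_lit 125, nat_lit 12]⟩, ⟨p101_k9, nat_lit 0, nat_lit 0, nat_lit 41, nat_lit 0, nat_lit 0, [nat_lit 2032000000, nat_lit 4688000000, nat_lit 6250000000], [], [nat_lit 16171092270, nat_lit 16424028737, nat_lit 17857005040, nat_lit 18085977000, nat_lit 22278019223, nat_lit 22467899332, nat_lit 23383856515, nat_lit 23557080846], nat_lit 0, nat_lit 0, nat_lit 0, nat_lit 0, nat_lit 0, nat_lit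 0, [], [nat_lit 6, nat_lit 40, nat_lit 40, nat_lit 80, nat_lit 3, nat_lit 345, nat_lit 125, nat_lit 12]⟩,
 zbF0, [⟨nat_lit 0, nat_lit 81, nat_lit 81, nat_lit 100, nat_lit 560615625⟩, ⟨nat_lit 16, nat_lit 87, nat_lit 95, nat_lit 100, nat_lit 406836549⟩, ⟨nat_lit 19, nat_lit 87, nat_lit 95, nat_lit 100, nat_lit 477038374⟩]⟩
noncomputable def p101_l18 : Lf2 := ⟨nat_lit 0, nat_lit 5, [nat_lit 4, nat_lit 5, nat_lit 5, nat_lit 20], false, nat_lit 160, nat_lit 300, nat_lit 160, nat_lit 300, ⟨nat_lit 1000, nat_lit 0, nat_lit 0, nat_lit 0, nat_lit 0, nat_lit 0, nat_lit 0, nat_lit 0, nat_lit 0, nat_lit 0, nat_lit 0, nat_lit 0, nat_lit 0, nat_lit 0, nat_lit 0, nat_lit 0, false, false⟩,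
 nat_lit 0, nat_lit 9387, nat_lit 0, nat_lit 0, nat_lit 7040, nat_lit 3815, nat_lit 469, nat_lit 0, nat_lit 0, nat_lit 0, nat_lit 0, nat_lit 0, nat_lit 0, nat_lit 0, nat_lit 0, nat_lit 0, nat_lit 0, nat_lit 0, [],
 ⟨p101_k9, nat_lit 0, nat_lit 0, nat_lit 301, nat_lit 0, nat_lit 723300, [nat_lit 2032000001, nat_lit 4688000000, nat_lit 6250000000], [], [nat_lit 21298455360, nat_lit 21486966444, nat_lit 22379819520, nat_lit 22553504964, nat_lit 25004453840, nat_lit 25144475816, nat_lit 26196502000, nat_lit 26429738420], nat_lit 1271250, nat_lit 1271250, nat_lit 1271250, nat_lit 1271250, nat_lit 1100001, nat_lit 2298750, [nat_lit 490000, nat_lit 1100000, nat_lit 1442500], [nat_lit 6, nat_lit 40, nat_lit 40, nat_lit 80, nat_lit 3, nat_lit 289, nat_lit 75, nat_lit 10]⟩, ⟨p101_k9, nat_lit 0, nat_lit 0, nat_lit 36, nat_lit 0, nat_lit 0, [nat_lit 2032000000, nat_lit 4688000000, nat_lit 6250000000], [], [nat_lit 17833753360,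 nat_lit 18063671121, nat_lit 19458251780, nat_lit 19670747915, nat_lit 23372851885, nat_lit 23546696925, nat_lit 24554573875, nat_lit 24724457669], nat_lit 0, nat_lit 0, nat_lit 0, nat_lit 0, nat_lit 0, nat_lit 0, [], [nat_lit 6, nat_lit 40, nat_lit 40, nat_lit 80, nat_lit 3, nat_lit 289, nat_lit 75, nat_lit 10]⟩,
 zbF0, [⟨nat_lit 16, nat_lit 87, nat_lit 95, nat_lit 100, nat_lit 402587267⟩, ⟨nat_lit 19, nat_lit 87, nat_lit 95, nat_lit 100, nat_lit 477541330⟩]⟩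
noncomputable def p101_l19 : Lf2 := ⟨nat_lit 0, nat_lit 10, [nat_lit 0, nat_lit 5, nat_lit 5, nat_lit 20], false, nat_lit 160, nat_lit 300, nat_lit 160, nat_lit 300, ⟨nat_lit 1000, nat_lit 0, nat_lit 0, nat_lit 0, nat_lit 0, nat_lit 0, nat_lit 0, nat_lit 0, nat_lit 0, nat_lit 0, nat_lit 0, nat_lit 0, nat_lit 0, nat_lit 0, nat_lit 0, nat_lit 0, false, false⟩,
 nat_lit 0, nat_lit 9533, nat_lit 0, nat_lit 0, nat_lit 7149, nat_lit 3785, nat_lit 493, nat_lit 0, nat_lit 0, nat_lit 0, nat_lit 0, nat_lit 0, nat_lit 0, nat_lit 0, nat_lit 0, nat_lit 0, nat_lit 0, nat_lit 0, [],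
 ⟨p101_k0, nat_lit 0, nat_lit 0, nat_lit 306, nat_lit 0, nat_lit 702090, [nat_lit 2032000001, nat_lit 4688000000, nat_lit 6250000000], [], [nat_lit 20390539568, nat_lit 20586877971, nat_lit 22072720132, nat_lit 22235664409, nat_lit 24329686728, nat_lit 24486190322, nat_lit 26251996625, nat_lit 26487374265], nat_lit 1271250, nat_lit 1271250, nat_lit 936251, nat_lit 1773750, nat_lit 1100001, nat_lit 2298750, [nat_lit 490000, nat_lit 1100000, nat_lit 1442500], [nat_lit 6, nat_lit 40, nat_lit 40, nat_lit 80, nat_lit 3, nat_lit 373, nat_lit 150, nat_lit 13]⟩, ⟨p101_k0, nat_lit 0, nat_lit 0, nat_lit 41, nat_lit 0, nat_lit 0, [nat_lit 2032000000, nat_lit 4688000000, nat_lit 6250000000], [], [nat_lit 16171092270, nat_lit 16424028737, nat_lit 19477871420, nat_lit 19689523085, nat_lit 22278019223, nat_lit 22467899332, nat_lit 24545918130, nat_lit 24708594592], nat_lit 0, nat_lit 0, nat_lit 0, nat_lit 0, nat_lit 0, nat_lit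 0, [], [nat_lit 6, nat_lit 40, nat_lit 40, nat_lit 80, nat_lit 3, nat_lit 373, nat_lit 150, nat_lit 13]⟩,
 zbF0, [⟨nat_lit 0, nat_lit 81, nat_lit 81, nat_lit 100, nat_lit 406493115⟩, ⟨nat_lit 16, nat_lit 87, nat_lit 95, nat_lit 100, nat_lit 412582857⟩, ⟨nat_lit 19, nat_lit 87, nat_lit 95, nat_lit 100, nat_lit 458486025⟩]⟩
noncomputable def p101_l20 : Lf2 := ⟨nat_lit 0, nat_lit 5, [nat_lit 4, nat_lit 5, nat_lit 5, nat_lit 20], false, nat_lit 160, nat_lit 296, nat_lit 160, nat_lit 300, ⟨nat_lit 1000, nat_lit 0, nat_lit 0, nat_lit 0, nat_lit 0, nat_lit 0, nat_lit 0, nat_lit 0, nat_lit 0, nat_lit 0, nat_lit 0, nat_lit 0, nat_lit 0, nat_lit 0, nat_lit 0, nat_lit 0, false, false⟩,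
 nat_lit 0, nat_lit 8263, nat_lit 0, nat_lit 0, nat_lit 6270, nat_lit 3786, nat_lit 3292, nat_lit 0, nat_lit 0, nat_lit 0, nat_lit 0, nat_lit 0, nat_lit 0, nat_lit 3831111006029, nat_lit 0, nat_lit 0, nat_lit 0, nat_lit 0, [],
 ⟨p101_k10, nat_lit 0, nat_lit 0, nat_lit 356, nat_lit 0, nat_lit 984788, [nat_lit 2032000001, nat_lit 4688000000], [], [nat_lit 20230436625, nat_lit 20288264673, nat_lit 21924549506, nat_lit 21973253248, nat_lit 23739990853, nat_lit 23783997660, nat_lit 25799321636, nat_lit 25872833332], nat_lit 1271250, nat_lit 1271250, nat_lit 968401, nat_lit 1776000, nat_lit 1100001, nat_lit 2264500, [nat_lit 490000, nat_lit 1100000], [nat_lit 24, nat_lit 40, nat_lit 40, nat_lit 80, nat_lit 33, nat_lit 272, nat_lit 60, nat_lit 11]⟩, ⟨p101_k9, nat_lit 0, nat_lit 0, nat_lit 41, nat_lit 0, nat_lit 0, [nat_lit 2032000000, nat_lit 4688000000, nat_lit 6250000000], [], [nat_lit 16254052425, nat_lit 16589335562,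 nat_lit 19477217432, nat_lit 19759457184, nat_lit 22327104334, nat_lit 22578919324, nat_lit 24545587348, nat_lit 24765561398], nat_lit 0, nat_lit 0, nat_lit 0, nat_lit 0, nat_lit 0, nat_lit 0, [], [nat_lit 6, nat_lit 40, nat_lit 40, nat_lit 80, nat_lit 3, nat_lit 373, nat_lit 150, nat_lit 13]⟩,
 zbF0, [⟨nat_lit 0, nat_lit 81, nat_lit 81, nat_lit 100, nat_lit 387071608⟩, ⟨nat_lit 16, nat_lit 86, nat_lit 96, nat_lit 100, nat_lit 403686733⟩, ⟨nat_lit 19, nat_lit 87, nat_lit 95, nat_lit 100, nat_lit 457967303⟩]⟩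
noncomputable def p101_l21 : Lf2 := ⟨nat_lit 0, nat_lit 5, [nat_lit 4, nat_lit 5, nat_lit 5, nat_lit 20], false, nat_lit 160, nat_lit 296, nat_lit 160, nat_lit 300, ⟨nat_lit 1000, nat_lit 0, nat_lit 0, nat_lit 0, nat_lit 0, nat_lit 0, nat_lit 0, nat_lit 0, nat_lit 0, nat_lit 0, nat_lit 0, nat_lit 0, nat_lit 0, nat_lit 0, nat_lit 0, nat_lit 0, false, false⟩,
 nat_lit 0, nat_lit 7741, nat_lit 0, nat_lit 0, nat_lit 5896, nat_lit 3787, nat_lit 3064, nat_lit 0, nat_lit 0, nat_lit 0, nat_lit 0, nat_lit 0, nat_lit 0, nat_lit 0, nat_lit 0, nat_lit 0, nat_lit 0, nat_lit 0, [],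
 ⟨p101_k11, nat_lit 0, nat_lit 0, nat_lit 359, nat_lit 0, nat_lit 995669, [nat_lit 2032000001, nat_lit 4688000000], [], [nat_lit 20538203279, nat_lit 20586349609, nat_lit 21976144559, nat_lit 22017210282, nat_lit 23634007160, nat_lit 23676578185, nat_lit 25678836136, nat_lit 25749859173], nat_lit 1271250, nat_lit 1271250, nat_lit 1000851, nat_lit 1778250, nat_lit 1100001, nat_lit 2264500, [nat_lit 490000, nat_lit 1100000], [nat_lit 24, nat_lit 40, nat_lit 40, nat_lit 80, nat_lit 33, nat_lit 272, nat_lit 60, nat_lit 11]⟩, ⟨p101_k9, nat_lit 0, nat_lit 0, nat_lit 41, nat_lit 0, nat_lit 0, [nat_lit 2032000000, nat_lit 4688000000, nat_lit 6250000000], [], [nat_lit 16337002703, nat_lit 16753648804, nat_lit 19476563444, nat_lit 19829410049, nat_lit 22376167503, nat_lit 22689237480, nat_lit 24545256566, nat_lit 24822541301], nat_lit 0, nat_lit 0, nat_lit 0, nat_lit 0, nat_lit 0, nat_lit 0, [], [nat_lit 6, nat_lit 40, nat_lit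 40, nat_lit 80, nat_lit 3, nat_lit 373, nat_lit 150, nat_lit 13]⟩,
 zbF0, [⟨nat_lit 0, nat_lit 80, nat_lit 80, nat_lit 100, nat_lit 383593091⟩, ⟨nat_lit 16, nat_lit 86, nat_lit 96, nat_lit 100, nat_lit 386400652⟩, ⟨nat_lit 19, nat_lit 87, nat_lit 95, nat_lit 100, nat_lit 457450618⟩]⟩
noncomputable def p101_l22 : Lf2 := ⟨nat_lit 0, nat_lit 10, [nat_lit 0, nat_lit 5, nat_lit 5, nat_lit 20], false, nat_lit 160, nat_lit 296, nat_lit 160, nat_lit 300, ⟨nat_lit 1000, nat_lit 0, nat_lit 0, nat_lit 0, nat_lit 0, nat_lit 0, nat_lit 0, nat_lit 0, nat_lit 0, nat_lit 0, nat_lit 0, nat_lit 0, nat_lit 0, nat_lit 0, nat_lit 0, nat_lit 0, false, false⟩,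
 nat_lit 0, nat_lit 9214, nat_lit 0, nat_lit 0, nat_lit 6991, nat_lit 3782, nat_lit 511, nat_lit 0, nat_lit 0, nat_lit 0, nat_lit 0, nat_lit 0, nat_lit 0, nat_lit 0, nat_lit 0, nat_lit 0, nat_lit 0, nat_lit 0, [],
 ⟨p101_k3, nat_lit 0, nat_lit 0, nat_lit 313, nat_lit 0, nat_lit 723073, [nat_lit 2032000001, nat_lit 4688000000, nat_lit 6250000000], [], [nat_lit 20173271110, nat_lit 20311312185, nat_lit 22047553216, nat_lit 22162906804, nat_lit 24188917884, nat_lit 24292490318, nat_lit 26168513226, nat_lit 26325131931], nat_lit 1271250, nat_lit 1271250, nat_lit 968401, nat_lit 1776000, nat_lit 1100001, nat_lit 2264500, [nat_lit 490000, nat_lit 1100000, nat_lit 1442500], [nat_lit 6, nat_lit 40, nat_lit 40, nat_lit 80, nat_lit 3, nat_lit 373, nat_lit 150, nat_lit 13]⟩, ⟨p101_k0, nat_lit 0, nat_lit 0, nat_lit 42, nat_lit 0, nat_lit 0, [nat_lit 2032000000, nat_lit 4688000000, nat_lit 6250000000], [], [nat_lit 16257248889,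 nat_lit 16676113697, nat_lit 19479833384, nat_lit 19832445414, nat_lit 22328274864, nat_lit 22642886029, nat_lit 24546910476, nat_lit 24819831974], nat_lit 0, nat_lit 0, nat_lit 0, nat_lit 0, nat_lit 0, nat_lit 0, [], [nat_lit 6, nat_lit 40, nat_lit 40, nat_lit 80, nat_lit 3, nat_lit 373, nat_lit 150, nat_lit 13]⟩,
 zbF0, [⟨nat_lit 0, nat_lit 80, nat_lit 80, nat_lit 100, nat_lit 400228890⟩, ⟨nat_lit 16, nat_lit 86, nat_lit 96, nat_lit 100, nat_lit 424441951⟩, ⟨nat_lit 19, nat_lit 87, nat_lit 95, nat_lit 100, nat_lit 457200323⟩]⟩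
noncomputable def p101_l23 : Lf2 := ⟨nat_lit 0, nat_lit 10, [nat_lit 0, nat_lit 5, nat_lit 5, nat_lit 20], false, nat_lit 160, nat_lit 296, nat_lit 160, nat_lit 300, ⟨nat_lit 1000, nat_lit 0, nat_lit 0, nat_lit 0, nat_lit 0, nat_lit 0, nat_lit 0, nat_lit 0, nat_lit 0, nat_lit 0, nat_lit 0, nat_lit 0, nat_lit 0, nat_lit 0, nat_lit 0, nat_lit 0, false, false⟩,
 nat_lit 0, nat_lit 7712, nat_lit 0, nat_lit 0, nat_lit 5897, nat_lit 3768, nat_lit 2673, nat_lit 0, nat_lit 0, nat_lit 0, nat_lit 0, nat_lit 0, nat_lit 0, nat_lit 1547244568431, nat_lit 0, nat_lit 0, nat_lit 0, nat_lit 0, [],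
 ⟨p101_k4, nat_lit 0, nat_lit 0, nat_lit 471, nat_lit 0, nat_lit 1100573, [nat_lit 2032000001, nat_lit 4688000000, nat_lit 6250000000], [], [nat_lit 21362383015, nat_lit 21578134669, nat_lit 22563116883, nat_lit 22747245805, nat_lit 23933069730, nat_lit 24099367819, nat_lit 25750384536, nat_lit 26105532988], nat_lit 1271250, nat_lit 1271250, nat_lit 1000851, nat_lit 1778250, nat_lit 1100001, nat_lit 2264500, [nat_lit 490000, nat_lit 1100000, nat_lit 1442500], [nat_lit 6, nat_lit 40, nat_lit 40, nat_lit 80, nat_lit 3, nat_lit 373, nat_lit 150, nat_lit 13]⟩, ⟨p101_k0, nat_lit 0, nat_lit 0, nat_lit 43, nat_lit 0, nat_lit 0, [nat_lit 2032000000, nat_lit 4688000000, nat_lit 6250000000], [], [nat_lit 16352279728, nat_lit 17183318709, nat_lit 19488989216, nat_lit 20192899656, nat_lit 22381935966, nat_lit 23006591315, nat_lit 24551541424, nat_lit 25093846716], nat_lit 0, nat_lit 0, nat_lit 0, nat_lit 0, nat_lit 0, nat_lit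 0, [], [nat_lit 6, nat_lit 40, nat_lit 40, nat_lit 80, nat_lit 3, nat_lit 373, nat_lit 150, nat_lit 13]⟩,
 zbF0, [⟨nat_lit 0, nat_lit 77, nat_lit 77, nat_lit 100, nat_lit 415164920⟩, ⟨nat_lit 16, nat_lit 85, nat_lit 97, nat_lit 100, nat_lit 366284454⟩, ⟨nat_lit 19, nat_lit 87, nat_lit 95, nat_lit 100, nat_lit 453632908⟩]⟩
noncomputable def p101_l24 : Lf2 := ⟨nat_lit 0, nat_lit 10, [nat_lit 0, nat_lit 5, nat_lit 5, nat_lit 20], false, nat_lit 160, nat_lit 288, nat_lit 160, nat_lit 300, ⟨nat_lit 1000, nat_lit 0, nat_lit 0, nat_lit 0, nat_lit 0, nat_lit 0, nat_lit 0, nat_lit 0, nat_lit 0, nat_lit 0, nat_lit 0, nat_lit 0, nat_lit 0, nat_lit 0, nat_lit 0, nat_lit 0, false, false⟩,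
 nat_lit 0, nat_lit 6678, nat_lit 0, nat_lit 0, nat_lit 5205, nat_lit 3769, nat_lit 2275, nat_lit 0, nat_lit 0, nat_lit 0, nat_lit 0, nat_lit 0, nat_lit 0, nat_lit 0, nat_lit 0, nat_lit 0, nat_lit 0, nat_lit 0, [],
 ⟨p101_k1, nat_lit 0, nat_lit 0, nat_lit 536, nat_lit 0, nat_lit 1234683, [nat_lit 2032000001, nat_lit 4688000000, nat_lit 6250000000], [], [nat_lit 20811002968, nat_lit 21257021645, nat_lit 22275529112, nat_lit 22663802647, nat_lit 23577835515, nat_lit 24040258917, nat_lit 25317764215, nat_lit 25995919252], nat_lit 1271250, nat_lit 1271250, nat_lit 1066650, nat_lit 1782750, nat_lit 1100001, nat_lit 2196000, [nat_lit 490000, nat_lit 1100000, nat_lit 1442500], [nat_lit 6, nat_lit 40, nat_lit 40, nat_lit 80, nat_lit 3, nat_lit 373, nat_lit 150, nat_lit 13]⟩, ⟨p101_k0, nat_lit 0, nat_lit 0, nat_lit 47, nat_lit 0, nat_lit 0, [nat_lit 2032000000, nat_lit 4688000000, nat_lit 6250000000], [], [nat_lit 16519152231,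 nat_lit 18161396142, nat_lit 19488335228, nat_lit 20896343768, nat_lit 22480738919, nat_lit 23741229427, nat_lit 24551210642, nat_lit 25657688519], nat_lit 0, nat_lit 0, nat_lit 0, nat_lit 0, nat_lit 0, nat_lit 0, [], [nat_lit 6, nat_lit 40, nat_lit 40, nat_lit 80, nat_lit 3, nat_lit 373, nat_lit 150, nat_lit 13]⟩,
 zbF0, [⟨nat_lit 0, nat_lit 77, nat_lit 74, nat_lit 100, nat_lit 398252530⟩, ⟨nat_lit 16, nat_lit 83, nat_lit 98, nat_lit 100, nat_lit 391313713⟩, ⟨nat_lit 19, nat_lit 87, nat_lit 95, nat_lit 100, nat_lit 451964858⟩]⟩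
noncomputable def p101_l25 : Lf2 := ⟨nat_lit 0, nat_lit 10, [nat_lit 0, nat_lit 5, nat_lit 5, nat_lit 20], false, nat_lit 160, nat_lit 276, nat_lit 160, nat_lit 300, ⟨nat_lit 1000, nat_lit 0, nat_lit 0, nat_lit 0, nat_lit 0, nat_lit 0, nat_lit 0, nat_lit 0, nat_lit 0, nat_lit 0, nat_lit 0, nat_lit 0, nat_lit 0, nat_lit 0, nat_lit 0, nat_lit 0, false, false⟩,
 nat_lit 0, nat_lit 6500, nat_lit 0, nat_lit 0, nat_lit 5261, nat_lit 3824, nat_lit 1266, nat_lit 0, nat_lit 0, nat_lit 0, nat_lit 0, nat_lit 0, nat_lit 0, nat_lit 0, nat_lit 0, nat_lit 0, nat_lit 0, nat_lit 0, [],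
 ⟨p101_k2, nat_lit 0, nat_lit 0, nat_lit 568, nat_lit 0, nat_lit 1317316, [nat_lit 2032000001, nat_lit 4688000000, nat_lit 6250000000], [], [nat_lit 21453391282, nat_lit 22462795714, nat_lit 22980752968, nat_lit 23874694446, nat_lit 24179572982, nat_lit 25185413821, nat_lit 25445820621, nat_lit 26851892468], nat_lit 1271250, nat_lit 1271250, nat_lit 1167600, nat_lit 1789500, nat_lit 1100001, nat_lit 2093250, [nat_lit 490000, nat_lit 1100000, nat_lit 1442500], [nat_lit 6, nat_lit 40, nat_lit 40, nat_lit 80, nat_lit 3, nat_lit 373, nat_lit 150, nat_lit 13]⟩, ⟨p101_k0, nat_lit 0, nat_lit 0, nat_lit 45, nat_lit 0, nat_lit 0, [nat_lit 2032000000, nat_lit 4688000000, nat_lit 6250000000], [], [nat_lit 16811717786, nat_lit 18434600653, nat_lit 19452365888, nat_lit 20870695728, nat_lit 22683337152, nat_lit 23970629793, nat_lit 24559156000, nat_lit 25692893276], nat_lit 0, nat_lit 0, nat_lit 0, nat_lit 0, nat_lit 0, nat_lit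 0, [], [nat_lit 6, nat_lit 40, nat_lit 40, nat_lit 80, nat_lit 3, nat_lit 373, nat_lit 150, nat_lit 13]⟩,
 zbF0, [⟨nat_lit 0, nat_lit 76, nat_lit 66, nat_lit 100, nat_lit 210221199⟩, ⟨nat_lit 0, nat_lit 81, nat_lit 72, nat_lit 100, nat_lit 173684287⟩, ⟨nat_lit 16, nat_lit 77, nat_lit 100, nat_lit 99, nat_lit 434622720⟩, ⟨nat_lit 19, nat_lit 87, nat_lit 95, nat_lit 100, nat_lit 462087216⟩]⟩
noncomputable def b_V_800_800_20_16 : St := ⟨true, nat_lit 1, nat_lit 0, nat_lit 2, nat_lit 120, nat_lit 320, nat_lit 360, nat_lit 320, nat_lit 340, nat_lit 140, nat_lit 240, nat_lit 80, nat_lit 120, nat_lit 0, nat_lit 300, nat_lit 160, nat_lit 300, nat_lit 0, nat_lit 40, nat_lit 0, nat_lit 0, nat_lit 0, nat_lit 0⟩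
theorem d_V_800_800_20_16 (h : EB TB.env) : Dead b_V_800_800_20_16 := chkB_sound0 h (T :=
(.spl (nat_lit 4) (nat_lit 160)
(.spl (nat_lit 0) (nat_lit 340)
(.spl (nat_lit 0) (nat_lit 330)
(.ord (.spl (nat_lit 0) (nat_lit 325)
(.ord (.spl (nat_lit 0) (nat_lit 323)
(.ord (.leaf p101_l4))
(.trZ (nat_lit 0) (nat_lit 83) (nat_lit 82) (nat_lit 100) (nat_lit 144) (.leaf p101_l5))))
(.trZ (nat_lit 0) (nat_lit 83) (nat_lit 81) (nat_lit 100) (nat_lit 148) (.leaf p101_l6))))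
(.trZ (nat_lit 0) (nat_lit 82) (nat_lit 78) (nat_lit 100) (nat_lit 156) (.leaf p101_l7)))
(.trZ (nat_lit 0) (nat_lit 81) (nat_lit 72) (nat_lit 100) (nat_lit 168) (.leaf p101_l8)))
(.spl (nat_lit 0) (nat_lit 340)
(.spl (nat_lit 0) (nat_lit 330)
(.ord (.spl (nat_lit 0) (nat_lit 325)
(.ord (.spl (nat_lit 0) (nat_lit 323)
(.ord (.spl (nat_lit 6) (nat_lit 20)
(.spl (nat_lit 6) (nat_lit 8)
(.spl (nat_lit 6) (nat_lit 4)
(.leaf p101_l9)
(.spl (nat_lit 3) (nat_lit 100)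
(.trX (nat_lit 16) (nat_lit 87) (nat_lit 100) (nat_lit 94) (nat_lit 280) (.trX (nat_lit 19) (nat_lit 87) (nat_lit 100) (nat_lit 94) (nat_lit 280) (.leaf p101_l10)))
(.spl (nat_lit 2) (nat_lit 200)
(.spl (nat_lit 2) (nat_lit 160)
(.spl (nat_lit 0) (nat_lit 322)
(.ord (.spl (nat_lit 4) (nat_lit 240)
(.leaf p101_l11)
(.leaf p101_l12)))
(.trZ (nat_lit 0) (nat_lit 83) (nat_lit 82) (nat_lit 100) (nat_lit 144) (.leaf p101_l13)))
(.leaf p101_l14))
(.leaf p101_l15))))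
(.spl (nat_lit 3) (nat_lit 100)
(.trX (nat_lit 16) (nat_lit 87) (nat_lit 100) (nat_lit 94) (nat_lit 280) (.trX (nat_lit 19) (nat_lit 87) (nat_lit 100) (nat_lit 94) (nat_lit 280) (.leaf p101_l16)))
(.spl (nat_lit 2) (nat_lit 200)
(.leaf p101_l17)
(.leaf p101_l18))))
(.leaf p101_l19)))
(.trZ (nat_lit 0) (nat_lit 83) (nat_lit 82) (nat_lit 100) (nat_lit 144) (.trX (nat_lit 16) (nat_lit 86) (nat_lit 96) (nat_lit 100) (nat_lit 296) (.spl (nat_lit 6) (nat_lit 20)
(.spl (nat_lit 0) (nat_lit 324)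
(.ord (.leaf p101_l20))
(.trZ (nat_lit 0) (nat_lit 83) (nat_lit 81) (nat_lit 100) (nat_lit 148) (.leaf p101_l21)))
(.leaf p101_l22))))))
(.trZ (nat_lit 0) (nat_lit 83) (nat_lit 81) (nat_lit 100) (nat_lit 148) (.trX (nat_lit 16) (nat_lit 85) (nat_lit 97) (nat_lit 100) (nat_lit 296) (.leaf p101_l23)))))
(.trZ (nat_lit 0) (nat_lit 82) (nat_lit 78) (nat_lit 100) (nat_lit 156) (.trX (nat_lit 16) (nat_lit 83) (nat_lit 98) (nat_lit 100) (nat_lit 288) (.leaf p101_l24))))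
(.trZ (nat_lit 0) (nat_lit 81) (nat_lit 72) (nat_lit 100) (nat_lit 168) (.trX (nat_lit 16) (nat_lit 77) (nat_lit 100) (nat_lit 99) (nat_lit 276) (.leaf p101_l25)))))) (by decide +kernel)
noncomputable def p101_l26 : Lf2 := ⟨nat_lit 0, nat_lit 10, [nat_lit 0, nat_lit 5, nat_lit 5, nat_lit 20], false, nat_lit 0, nat_lit 160, nat_lit 0, nat_lit 160, ⟨nat_lit 1000, nat_lit 0, nat_lit 0, nat_lit 0, nat_lit 0, nat_lit 0, nat_lit 0, nat_lit 0, nat_lit 0, nat_lit 0, nat_lit 0, nat_lit 0, nat_lit 0, nat_lit 0, nat_lit 0, nat_lit 0, false, false⟩,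
 nat_lit 0, nat_lit 8438, nat_lit 0, nat_lit 0, nat_lit 6328, nat_lit 5678, nat_lit 429, nat_lit 0, nat_lit 0, nat_lit 612, nat_lit 0, nat_lit 0, nat_lit 0, nat_lit 0, nat_lit 0, nat_lit 0, nat_lit 0, nat_lit 0, [],
 ⟨p101_k0, nat_lit 0, nat_lit 0, nat_lit 565, nat_lit 0, nat_lit 1130711, [nat_lit 2032000001, nat_lit 4688000000, nat_lit 6250000000], [], [nat_lit 33401645568, nat_lit 33756829672, nat_lit 38978127968, nat_lit 39675830920, nat_lit 30749524962, nat_lit 31022701346, nat_lit 34770542688, nat_lit 34994293024], nat_lit 1271250, nat_lit 1271250, nat_lit 1271250, nat_lit 1271250, nat_lit 0, nat_lit 1100001, [nat_lit 490000, nat_lit 1100000, nat_lit 1442500], [nat_lit 6, nat_lit 40, nat_lit 40, nat_lit 80, nat_lit 3, nat_lit 253, nat_lit 40, nat_lit 9]⟩, ⟨p101_k0, nat_lit 0, nat_lit 0, nat_lit 174, nat_lit 0, nat_lit 0, [nat_lit 2032000000, nat_lit 4688000000, nat_lit 6250000000], [], [nat_lit 25920240568,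 nat_lit 26654809712, nat_lit 37159586568, nat_lit 37818852420, nat_lit 23353637712, nat_lit 24015457384, nat_lit 31574106648, nat_lit 32004264036], nat_lit 0, nat_lit 0, nat_lit 0, nat_lit 0, nat_lit 0, nat_lit 0, [], [nat_lit 6, nat_lit 40, nat_lit 40, nat_lit 80, nat_lit 3, nat_lit 249, nat_lit 40, nat_lit 9]⟩,
 zbF0, []⟩
noncomputable def p101_l27 : Lf2 := ⟨nat_lit 0, nat_lit 10, [nat_lit 0, nat_lit 5, nat_lit 5, nat_lit 20], false, nat_lit 0, nat_lit 160, nat_lit 160, nat_lit 300, ⟨nat_lit 1000, nat_lit 0, nat_lit 0, nat_lit 0, nat_lit 0, nat_lit 0, nat_lit 0, nat_lit 0, nat_lit 0, nat_lit 0, nat_lit 0, nat_lit 0, nat_lit 0, nat_lit 0, nat_lit 0, nat_lit 0, false, false⟩,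
 nat_lit 0, nat_lit 8438, nat_lit 0, nat_lit 0, nat_lit 6328, nat_lit 5513, nat_lit 434, nat_lit 0, nat_lit 0, nat_lit 0, nat_lit 0, nat_lit 0, nat_lit 0, nat_lit 0, nat_lit 0, nat_lit 0, nat_lit 0, nat_lit 0, [],
 ⟨p101_k0, nat_lit 0, nat_lit 0, nat_lit 565, nat_lit 0, nat_lit 1130711, [nat_lit 2032000001, nat_lit 4688000000, nat_lit 6250000000], [], [nat_lit 33361645568, nat_lit 33716829672, nat_lit 38978127968, nat_lit 39675830920, nat_lit 30731152354, nat_lit 31022701346, nat_lit 34770542688, nat_lit 34994293024], nat_lit 1271250, nat_lit 1271250, nat_lit 1271250, nat_lit 1271250, nat_lit 0, nat_lit 1100001, [nat_lit 490000, nat_lit 1100000, nat_lit 1442500], [nat_lit 6, nat_lit 40, nat_lit 40, nat_lit 80, nat_lit 3, nat_lit 253, nat_lit 40, nat_lit 9]⟩, ⟨p101_k0, nat_lit 0, nat_lit 0, nat_lit 80, nat_lit 0, nat_lit 0, [nat_lit 2032000000, nat_lit 4688000000, nat_lit 6250000000], [], [nat_lit 21329121184, nat_lit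 22104749052, nat_lit 30900935968, nat_lit 31395743342, nat_lit 26340293515, nat_lit 26918103657, nat_lit 33656162834, nat_lit 34084053486], nat_lit 0, nat_lit 0, nat_lit 0, nat_lit 0, nat_lit 0, nat_lit 0, [], [nat_lit 6, nat_lit 40, nat_lit 40, nat_lit 80, nat_lit 3, nat_lit 289, nat_lit 75, nat_lit 9]⟩,
 zbF0, [⟨nat_lit 7, nat_lit 100, nat_lit 84, nat_lit 93, nat_lit 493251241⟩]⟩
noncomputable def p101_l28 : Lf2 := ⟨nat_lit 0, nat_lit 10, [nat_lit 0, nat_lit 5, nat_lit 5, nat_lit 20], false, nat_lit 160, nat_lit 300, nat_lit 0, nat_lit 160, ⟨nat_lit 1000, nat_lit 0, nat_lit 0, nat_lit 0, nat_lit 0, nat_lit 0, nat_lit 0, nat_lit 0, nat_lit 0, nat_lit 0, nat_lit 0, nat_lit 0, nat_lit 0, nat_lit 0, nat_lit 0, nat_lit 0, false, false⟩,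
 nat_lit 0, nat_lit 7827, nat_lit 0, nat_lit 0, nat_lit 5870, nat_lit 5576, nat_lit 462, nat_lit 0, nat_lit 0, nat_lit 2375, nat_lit 0, nat_lit 0, nat_lit 0, nat_lit 0, nat_lit 0, nat_lit 0, nat_lit 0, nat_lit 0, [],
 ⟨p101_k0, nat_lit 0, nat_lit 0, nat_lit 476, nat_lit 0, nat_lit 1130711, [nat_lit 2032000001, nat_lit 4688000000, nat_lit 6250000000], [], [nat_lit 30804134602, nat_lit 31124321642, nat_lit 35306165960, nat_lit 35570632210, nat_lit 32765217582, nat_lit 33026438090, nat_lit 36389386490, nat_lit 36587636578], nat_lit 1271250, nat_lit 1271250, nat_lit 1271250, nat_lit 1271250, nat_lit 1100001, nat_lit 2298750, [nat_lit 490000, nat_lit 1100000, nat_lit 1442500], [nat_lit 6, nat_lit 40, nat_lit 40, nat_lit 80, nat_lit 3, nat_lit 289, nat_lit 75, nat_lit 9]⟩, ⟨p101_k0, nat_lit 0, nat_lit 0, nat_lit 174, nat_lit 0, nat_lit 0, [nat_lit 2032000000, nat_lit 4688000000, nat_lit 6250000000], [], [nat_lit 25959360768,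 nat_lit 26740081304, nat_lit 36874215456, nat_lit 37527449640, nat_lit 23545142304, nat_lit 24200451928, nat_lit 31696494816, nat_lit 32123495712], nat_lit 0, nat_lit 0, nat_lit 0, nat_lit 0, nat_lit 0, nat_lit 0, [], [nat_lit 6, nat_lit 40, nat_lit 40, nat_lit 80, nat_lit 3, nat_lit 249, nat_lit 40, nat_lit 9]⟩,
 zbF0, [⟨nat_lit 4, nat_lit 100, nat_lit 84, nat_lit 93, nat_lit 368183636⟩]⟩
noncomputable def p101_l29 : Lf2 := ⟨nat_lit 0, nat_lit 10, [nat_lit 0, nat_lit 5, nat_lit 5, nat_lit 20], false, nat_lit 160, nat_lit 300, nat_lit 160, nat_lit 300, ⟨nat_lit 1000, nat_lit 0, nat_lit 0, nat_lit 0, nat_lit 0, nat_lit 0, nat_lit 0, nat_lit 0, nat_lit 0, nat_lit 0, nat_lit 0, nat_lit 0, nat_lit 0, nat_lit 0, nat_lit 0, nat_lit 0, false, false⟩,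
 nat_lit 0, nat_lit 9654, nat_lit 0, nat_lit 0, nat_lit 7240, nat_lit 3783, nat_lit 3412, nat_lit 0, nat_lit 0, nat_lit 0, nat_lit 0, nat_lit 0, nat_lit 0, nat_lit 0, nat_lit 0, nat_lit 0, nat_lit 0, nat_lit 0, [],
 ⟨p101_k0, nat_lit 0, nat_lit 0, nat_lit 424, nat_lit 0, nat_lit 1011833, [nat_lit 2032000001, nat_lit 4688000000, nat_lit 6250000000], [], [nat_lit 24384438080, nat_lit 24514300664, nat_lit 26616735680, nat_lit 26723791580, nat_lit 26628914320, nat_lit 26725355500, nat_lit 30310774160, nat_lit 30501693374], nat_lit 1271250, nat_lit 1271250, nat_lit 1271250, nat_lit 1271250, nat_lit 1100001, nat_lit 2298750, [nat_lit 490000, nat_lit 1100000, nat_lit 1442500], [nat_lit 6, nat_lit 40, nat_lit 40, nat_lit 80, nat_lit 3, nat_lit 289, nat_lit 75, nat_lit 9]⟩, ⟨p101_k0, nat_lit 0, nat_lit 0, nat_lit 50, nat_lit 0, nat_lit 0, [nat_lit 2032000000, nat_lit 4688000000, nat_lit 6250000000], [], [nat_lit 19479179396,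 nat_lit 19690774764, nat_lit 23554572964, nat_lit 23739341441, nat_lit 24546579694, nat_lit 24707581619, nat_lit 27703732922, nat_lit 27845254286], nat_lit 0, nat_lit 0, nat_lit 0, nat_lit 0, nat_lit 0, nat_lit 0, [], [nat_lit 6, nat_lit 40, nat_lit 40, nat_lit 80, nat_lit 3, nat_lit 289, nat_lit 75, nat_lit 9]⟩,
 zbF0, [⟨nat_lit 16, nat_lit 87, nat_lit 95, nat_lit 100, nat_lit 343207390⟩, ⟨nat_lit 19, nat_lit 87, nat_lit 95, nat_lit 100, nat_lit 420994227⟩]⟩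
noncomputable def p101_l30 : Lf2 := ⟨nat_lit 0, nat_lit 10, [nat_lit 0, nat_lit 5, nat_lit 5, nat_lit 20], false, nat_lit 160, nat_lit 296, nat_lit 160, nat_lit 300, ⟨nat_lit 1000, nat_lit 0, nat_lit 0, nat_lit 0, nat_lit 0, nat_lit 0, nat_lit 0, nat_lit 0, nat_lit 0, nat_lit 0, nat_lit 0, nat_lit 0, nat_lit 0, nat_lit 0, nat_lit 0, nat_lit 0, false, false⟩,
 nat_lit 0, nat_lit 8273, nat_lit 0, nat_lit 0, nat_lit 6277, nat_lit 3776, nat_lit 2873, nat_lit 0, nat_lit 0, nat_lit 0, nat_lit 0, nat_lit 0, nat_lit 0, nat_lit 0, nat_lit 0, nat_lit 0, nat_lit 0, nat_lit 0, [],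
 ⟨p101_k3, nat_lit 0, nat_lit 0, nat_lit 430, nat_lit 0, nat_lit 1028717, [nat_lit 2032000001, nat_lit 4688000000, nat_lit 6250000000], [], [nat_lit 23699513303, nat_lit 23780710581, nat_lit 25839149739, nat_lit 25906812789, nat_lit 25888922524, nat_lit 25950851271, nat_lit 29587134682, nat_lit 29706527339], nat_lit 1271250, nat_lit 1271250, nat_lit 1271250, nat_lit 1271250, nat_lit 1100001, nat_lit 2264500, [nat_lit 490000, nat_lit 1100000, nat_lit 1442500], [nat_lit 6, nat_lit 40, nat_lit 40, nat_lit 80, nat_lit 3, nat_lit 289, nat_lit 75, nat_lit 9]⟩, ⟨p101_k0, nat_lit 0, nat_lit 0, nat_lit 50, nat_lit 0, nat_lit 0, [nat_lit 2032000000, nat_lit 4688000000, nat_lit 6250000000], [], [nat_lit 19483757312, nat_lit 19836087852, nat_lit 23550212608, nat_lit 23857897100, nat_lit 24548895168, nat_lit 24817017484, nat_lit 27698453984, nat_lit 27934156215], nat_lit 0, nat_lit 0, nat_lit 0, nat_lit 0, nat_lit 0, nat_lit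 0, [], [nat_lit 6, nat_lit 40, nat_lit 40, nat_lit 80, nat_lit 3, nat_lit 289, nat_lit 75, nat_lit 9]⟩,
 zbF0, [⟨nat_lit 16, nat_lit 86, nat_lit 96, nat_lit 100, nat_lit 347015999⟩, ⟨nat_lit 19, nat_lit 87, nat_lit 95, nat_lit 100, nat_lit 420259163⟩]⟩
noncomputable def p101_l31 : Lf2 := ⟨nat_lit 0, nat_lit 10, [nat_lit 0, nat_lit 5, nat_lit 5, nat_lit 20], false, nat_lit 160, nat_lit 280, nat_lit 160, nat_lit 280, ⟨nat_lit 1000, nat_lit 0, nat_lit 0, nat_lit 0, nat_lit 0, nat_lit 0, nat_lit 0, nat_lit 0, nat_lit 0, nat_lit 0, nat_lit 0, nat_lit 0, nat_lit 0, nat_lit 0, nat_lit 0, nat_lit 0, false, false⟩,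
 nat_lit 0, nat_lit 8442, nat_lit 0, nat_lit 0, nat_lit 6331, nat_lit 5378, nat_lit 2904, nat_lit 0, nat_lit 0, nat_lit 0, nat_lit 0, nat_lit 0, nat_lit 0, nat_lit 0, nat_lit 0, nat_lit 0, nat_lit 0, nat_lit 0, [],
 ⟨p101_k0, nat_lit 0, nat_lit 0, nat_lit 437, nat_lit 0, nat_lit 1017344, [nat_lit 2032000001, nat_lit 4688000000, nat_lit 6250000000], [], [nat_lit 30532769492, nat_lit 30702446867, nat_lit 33401363748, nat_lit 33535965261, nat_lit 31840364746, nat_lit 31973948252, nat_lit 34124213582, nat_lit 34229035845], nat_lit 1271250, nat_lit 1271250, nat_lit 1271250, nat_lit 1271250, nat_lit 1100001, nat_lit 2127500, [nat_lit 490000, nat_lit 1100000, nat_lit 1442500], [nat_lit 6, nat_lit 40, nat_lit 40, nat_lit 80, nat_lit 3, nat_lit 289, nat_lit 75, nat_lit 9]⟩, ⟨p101_k0, nat_lit 0, nat_lit 0, nat_lit 79, nat_lit 0, nat_lit 0, [nat_lit 2032000000, nat_lit 4688000000, nat_lit 6250000000], [], [nat_lit 25692604360,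 nat_lit 26006290326, nat_lit 30907208608, nat_lit 31151925930, nat_lit 28772309608, nat_lit 29019840016, nat_lit 32920248820, nat_lit 33114341766], nat_lit 0, nat_lit 0, nat_lit 0, nat_lit 0, nat_lit 0, nat_lit 0, [], [nat_lit 6, nat_lit 40, nat_lit 40, nat_lit 80, nat_lit 3, nat_lit 289, nat_lit 75, nat_lit 9]⟩,
 zbF0, [⟨nat_lit 16, nat_lit 87, nat_lit 100, nat_lit 94, nat_lit 231864967⟩, ⟨nat_lit 4, nat_lit 100, nat_lit 84, nat_lit 88, nat_lit 73057528⟩, ⟨nat_lit 19, nat_lit 87, nat_lit 100, nat_lit 94, nat_lit 362579223⟩]⟩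
noncomputable def p101_l32 : Lf2 := ⟨nat_lit 0, nat_lit 10, [nat_lit 0, nat_lit 5, nat_lit 5, nat_lit 20], false, nat_lit 160, nat_lit 300, nat_lit 160, nat_lit 300, ⟨nat_lit 1000, nat_lit 0, nat_lit 0, nat_lit 0, nat_lit 0, nat_lit 0, nat_lit 0, nat_lit 0, nat_lit 0, nat_lit 0, nat_lit 0, nat_lit 0, nat_lit 0, nat_lit 0, nat_lit 0, nat_lit 0, false, false⟩,
 nat_lit 0, nat_lit 8100, nat_lit 0, nat_lit 0, nat_lit 6075, nat_lit 5323, nat_lit 2815, nat_lit 0, nat_lit 0, nat_lit 0, nat_lit 0, nat_lit 0, nat_lit 0, nat_lit 20448290621788, nat_lit 0, nat_lit 0, nat_lit 0, nat_lit 0, [],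
 ⟨p101_k0, nat_lit 0, nat_lit 0, nat_lit 399, nat_lit 0, nat_lit 911276, [nat_lit 2032000001, nat_lit 4688000000, nat_lit 6250000000], [], [nat_lit 29691734700, nat_lit 29891484388, nat_lit 33049778400, nat_lit 33208495513, nat_lit 31852799225, nat_lit 32003503291, nat_lit 34417527675, nat_lit 34536286969], nat_lit 1271250, nat_lit 1271250, nat_lit 1271250, nat_lit 1271250, nat_lit 1100001, nat_lit 2298750, [nat_lit 490000, nat_lit 1100000, nat_lit 1442500], [nat_lit 6, nat_lit 40, nat_lit 40, nat_lit 80, nat_lit 3, nat_lit 289, nat_lit 75, nat_lit 9]⟩, ⟨p101_k0, nat_lit 0, nat_lit 0, nat_lit 79, nat_lit 0, nat_lit 0, [nat_lit 2032000000, nat_lit 4688000000, nat_lit 6250000000], [], [nat_lit 25723535260, nat_lit 26035560391, nat_lit 30909764128, nat_lit 31153387005, nat_lit 29519628030, nat_lit 29754415537, nat_lit 33461173777, nat_lit 33645510148], nat_lit 0, nat_lit 0, nat_lit 0, nat_lit 0, nat_lit 0, nat_lit 0,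 [], [nat_lit 6, nat_lit 40, nat_lit 40, nat_lit 80, nat_lit 3, nat_lit 289, nat_lit 75, nat_lit 9]⟩,
 zbF0, [⟨nat_lit 16, nat_lit 87, nat_lit 95, nat_lit 100, nat_lit 306949030⟩, ⟨nat_lit 19, nat_lit 87, nat_lit 95, nat_lit 100, nat_lit 354744534⟩]⟩
noncomputable def p101_l33 : Lf2 := ⟨nat_lit 0, nat_lit 10, [nat_lit 0, nat_lit 5, nat_lit 5, nat_lit 20], false, nat_lit 160, nat_lit 296, nat_lit 160, nat_lit 300, ⟨nat_lit 1000, nat_lit 0, nat_lit 0, nat_lit 0, nat_lit 0, nat_lit 0, nat_lit 0, nat_lit 0, nat_lit 0, nat_lit 0, nat_lit 0, nat_lit 0, nat_lit 0, nat_lit 0, nat_lit 0, nat_lit 0, false, false⟩,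
 nat_lit 0, nat_lit 7180, nat_lit 0, nat_lit 0, nat_lit 5490, nat_lit 5303, nat_lit 2464, nat_lit 0, nat_lit 0, nat_lit 0, nat_lit 0, nat_lit 0, nat_lit 0, nat_lit 0, nat_lit 0, nat_lit 0, nat_lit 0, nat_lit 0, [],
 ⟨p101_k4, nat_lit 0, nat_lit 0, nat_lit 465, nat_lit 0, nat_lit 1100573, [nat_lit 2032000001, nat_lit 4688000000, nat_lit 6250000000], [], [nat_lit 25600537432, nat_lit 25767444622, nat_lit 31079564040, nat_lit 31364451520, nat_lit 27509017725, nat_lit 27638709183, nat_lit 33723286345, nat_lit 33939092281], nat_lit 1271250, nat_lit 1271250, nat_lit 1271250, nat_lit 1271250, nat_lit 1100001, nat_lit 2264500, [nat_lit 490000, nat_lit 1100000, nat_lit 1442500], [nat_lit 6, nat_lit 40, nat_lit 40, nat_lit 80, nat_lit 3, nat_lit 289, nat_lit 75, nat_lit 9]⟩, ⟨p101_k0, nat_lit 0, nat_lit 0, nat_lit 80, nat_lit 0, nat_lit 0, [nat_lit 2032000000, nat_lit 4688000000, nat_lit 6250000000], [], [nat_lit 21521655904,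 nat_lit 22280308212, nat_lit 30910693408, nat_lit 31397143202, nat_lit 26481590965, nat_lit 27048420260, nat_lit 33464279797, nat_lit 33832498003], nat_lit 0, nat_lit 0, nat_lit 0, nat_lit 0, nat_lit 0, nat_lit 0, [], [nat_lit 6, nat_lit 40, nat_lit 40, nat_lit 80, nat_lit 3, nat_lit 289, nat_lit 75, nat_lit 9]⟩,
 zbF0, [⟨nat_lit 16, nat_lit 85, nat_lit 97, nat_lit 100, nat_lit 338168728⟩, ⟨nat_lit 19, nat_lit 87, nat_lit 95, nat_lit 100, nat_lit 352414734⟩]⟩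
noncomputable def p101_l34 : Lf2 := ⟨nat_lit 0, nat_lit 10, [nat_lit 0, nat_lit 5, nat_lit 5, nat_lit 20], false, nat_lit 0, nat_lit 288, nat_lit 0, nat_lit 300, ⟨nat_lit 1000, nat_lit 0, nat_lit 0, nat_lit 0, nat_lit 0, nat_lit 0, nat_lit 0, nat_lit 0, nat_lit 0, nat_lit 0, nat_lit 0, nat_lit 0, nat_lit 0, nat_lit 0, nat_lit 0, nat_lit 0, false, false⟩,
 nat_lit 0, nat_lit 6311, nat_lit 0, nat_lit 0, nat_lit 4919, nat_lit 6525, nat_lit 1758, nat_lit 0, nat_lit 0, nat_lit 446, nat_lit 0, nat_lit 0, nat_lit 0, nat_lit 22082305365372, nat_lit 0, nat_lit 0, nat_lit 0, nat_lit 0, [],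
 ⟨p101_k1, nat_lit 0, nat_lit 0, nat_lit 573, nat_lit 0, nat_lit 1152914, [nat_lit 2032000001, nat_lit 4688000000, nat_lit 6250000000], [], [nat_lit 27663767946, nat_lit 27853525053, nat_lit 35650472910, nat_lit 35957664483, nat_lit 28635816689, nat_lit 28764157748, nat_lit 33025112072, nat_lit 33236418973], nat_lit 1271250, nat_lit 1271250, nat_lit 1271250, nat_lit 1271250, nat_lit 0, nat_lit 2034000, [nat_lit 490000, nat_lit 1100000, nat_lit 1442500], [nat_lit 6, nat_lit 40, nat_lit 40, nat_lit 80, nat_lit 3, nat_lit 289, nat_lit 75, nat_lit 10]⟩, ⟨p101_k0, nat_lit 0, nat_lit 0, nat_lit 175, nat_lit 0, nat_lit 0, [nat_lit 2032000000, nat_lit 4688000000, nat_lit 6250000000], [], [nat_lit 25800558900, nat_lit 27003484388, nat_lit 39529285900, nat_lit 40593314425, nat_lit 26308455600, nat_lit 27051452063, nat_lit 34840423450, nat_lit 35526693185], nat_lit 0, nat_lit 0, nat_lit 0, nat_lit 0, nat_lit 0, nat_lit 0, [],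 [nat_lit 6, nat_lit 40, nat_lit 40, nat_lit 80, nat_lit 3, nat_lit 289, nat_lit 75, nat_lit 10]⟩,
 zbF0, [⟨nat_lit 4, nat_lit 100, nat_lit 79, nat_lit 91, nat_lit 181428989⟩, ⟨nat_lit 19, nat_lit 82, nat_lit 100, nat_lit 92, nat_lit 127483973⟩]⟩
noncomputable def p101_l35 : Lf2 := ⟨nat_lit 0, nat_lit 10, [nat_lit 0, nat_lit 5, nat_lit 5, nat_lit 20], false, nat_lit 0, nat_lit 284, nat_lit 0, nat_lit 300, ⟨nat_lit 1000, nat_lit 0, nat_lit 0, nat_lit 0, nat_lit 0, nat_lit 0, nat_lit 0, nat_lit 0, nat_lit 0, nat_lit 0, nat_lit 0, nat_lit 0, nat_lit 0, nat_lit 0, nat_lit 0, nat_lit 0, false, false⟩,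
 nat_lit 0, nat_lit 5816, nat_lit 0, nat_lit 0, nat_lit 4620, nat_lit 6435, nat_lit 1496, nat_lit 0, nat_lit 0, nat_lit 468, nat_lit 0, nat_lit 0, nat_lit 0, nat_lit 17226660295893, nat_lit 0, nat_lit 0, nat_lit 0, nat_lit 0, [],
 ⟨p101_k12, nat_lit 0, nat_lit 0, nat_lit 598, nat_lit 0, nat_lit 1202697, [nat_lit 2032000001, nat_lit 4688000000, nat_lit 6250000000], [], [nat_lit 28579981119, nat_lit 28770757009, nat_lit 35094613840, nat_lit 35392964880, nat_lit 29946128251, nat_lit 30090928437, nat_lit 33916332104, nat_lit 34030129379], nat_lit 1271250, nat_lit 1271250, nat_lit 1271250, nat_lit 1271250, nat_lit 0, nat_lit 2005750, [nat_lit 490000, nat_lit 1100000, nat_lit 1442500], [nat_lit 6, nat_lit 40, nat_lit 40, nat_lit 80, nat_lit 3, nat_lit 289, nat_lit 75, nat_lit 10]⟩, ⟨p101_k0, nat_lit 0, nat_lit 0, nat_lit 176, nat_lit 0, nat_lit 0, [nat_lit 2032000000, nat_lit 4688000000, nat_lit 6250000000], [], [nat_lit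 25795830860, nat_lit 27453656390, nat_lit 39277487860, nat_lit 40685548440, nat_lit 26381924240, nat_lit 27366050570, nat_lit 34735103830, nat_lit 35644861318], nat_lit 0, nat_lit 0, nat_lit 0, nat_lit 0, nat_lit 0, nat_lit 0, [], [nat_lit 6, nat_lit 40, nat_lit 40, nat_lit 80, nat_lit 3, nat_lit 289, nat_lit 75, nat_lit 10]⟩,
 zbF0, [⟨nat_lit 4, nat_lit 100, nat_lit 76, nat_lit 90, nat_lit 223099550⟩, ⟨nat_lit 7, nat_lit 100, nat_lit 81, nat_lit 92, nat_lit 143202807⟩]⟩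
noncomputable def p101_l36 : Lf2 := ⟨nat_lit 0, nat_lit 10, [nat_lit 0, nat_lit 5, nat_lit 5, nat_lit 20], false, nat_lit 0, nat_lit 276, nat_lit 0, nat_lit 300, ⟨nat_lit 1000, nat_lit 0, nat_lit 0, nat_lit 0, nat_lit 0, nat_lit 0, nat_lit 0, nat_lit 0, nat_lit 0, nat_lit 0, nat_lit 0, nat_lit 0, nat_lit 0, nat_lit 0, nat_lit 0, nat_lit 0, false, false⟩,
 nat_lit 0, nat_lit 5638, nat_lit 0, nat_lit 0, nat_lit 4564, nat_lit 6435, nat_lit 1096, nat_lit 0, nat_lit 0, nat_lit 468, nat_lit 0, nat_lit 0, nat_lit 0, nat_lit 0, nat_lit 0, nat_lit 0, nat_lit 0, nat_lit 0, [],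
 ⟨p101_k2, nat_lit 0, nat_lit 0, nat_lit 644, nat_lit 0, nat_lit 1317316, [nat_lit 2032000001, nat_lit 4688000000, nat_lit 6250000000], [], [nat_lit 30376531194, nat_lit 31084215194, nat_lit 35229667536, nat_lit 36416448688, nat_lit 31398492776, nat_lit 31946220461, nat_lit 35075218681, nat_lit 35507526023], nat_lit 1271250, nat_lit 1271250, nat_lit 1271250, nat_lit 1271250, nat_lit 0, nat_lit 1949250, [nat_lit 490000, nat_lit 1100000, nat_lit 1442500], [nat_lit 6, nat_lit 40, nat_lit 40, nat_lit 80, nat_lit 3, nat_lit 291, nat_lit 75, nat_lit 10]⟩, ⟨p101_k0, nat_lit 0, nat_lit 0, nat_lit 176, nat_lit 0, nat_lit 0, [nat_lit 2032000000, nat_lit 4688000000, nat_lit 6250000000], [], [nat_lit 25795830860, nat_lit 27453656390, nat_lit 39277487860, nat_lit 40685548440, nat_lit 26381924240, nat_lit 27366050570, nat_lit 34735103830, nat_lit 35644861318], nat_lit 0, nat_lit 0, nat_lit 0, nat_lit 0, nat_lit 0, nat_lit 0, [],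 [nat_lit 6, nat_lit 40, nat_lit 40, nat_lit 80, nat_lit 3, nat_lit 289, nat_lit 75, nat_lit 10]⟩,
 zbF0, [⟨nat_lit 4, nat_lit 100, nat_lit 67, nat_lit 88, nat_lit 290921791⟩, ⟨nat_lit 7, nat_lit 100, nat_lit 81, nat_lit 92, nat_lit 129634943⟩]⟩
noncomputable def b_V_800_800_20_17 : St := ⟨true, nat_lit 1, nat_lit 0, nat_lit 2, nat_lit 120, nat_lit 320, nat_lit 360, nat_lit 320, nat_lit 340, nat_lit 240, nat_lit 400, nat_lit 80, nat_lit 120, nat_lit 0, nat_lit 300, nat_lit 0, nat_lit 300, nat_lit 0, nat_lit 40, nat_lit 0, nat_lit 0, nat_lit 0, nat_lit 0⟩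
theorem d_V_800_800_20_17 (h : EB TB.env) : Dead b_V_800_800_20_17 := chkB_sound0 h (T :=
(.spl (nat_lit 0) (nat_lit 340)
(.spl (nat_lit 0) (nat_lit 330)
(.ord (.spl (nat_lit 4) (nat_lit 160)
(.spl (nat_lit 5) (nat_lit 160)
(.leaf p101_l26)
(.leaf p101_l27))
(.spl (nat_lit 5) (nat_lit 160)
(.leaf p101_l28)
(.spl (nat_lit 0) (nat_lit 325)
(.ord (.spl (nat_lit 2) (nat_lit 320)
(.spl (nat_lit 0) (nat_lit 323)
(.ord (.leaf p101_l29))
(.trX (nat_lit 16) (nat_lit 86) (nat_lit 96) (nat_lit 100) (nat_lit 296) (.leaf p101_l30)))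
(.spl (nat_lit 3) (nat_lit 100)
(.trX (nat_lit 16) (nat_lit 87) (nat_lit 100) (nat_lit 94) (nat_lit 280) (.trX (nat_lit 19) (nat_lit 87) (nat_lit 100) (nat_lit 94) (nat_lit 280) (.leaf p101_l31)))
(.leaf p101_l32))))
(.trX (nat_lit 16) (nat_lit 85) (nat_lit 97) (nat_lit 100) (nat_lit 296) (.leaf p101_l33))))))
(.trX (nat_lit 16) (nat_lit 83) (nat_lit 98) (nat_lit 100) (nat_lit 288) (.spl (nat_lit 0) (nat_lit 335)
(.ord (.leaf p101_l34))
(.trX (nat_lit 16) (nat_lit 81) (nat_lit 100) (nat_lit 100) (nat_lit 284) (.leaf p101_l35)))))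
(.trX (nat_lit 16) (nat_lit 77) (nat_lit 100) (nat_lit 99) (nat_lit 276) (.leaf p101_l36)))) (by decide +kernel)
noncomputable def p101_l37 : Lf2 := ⟨nat_lit 0, nat_lit 10, [nat_lit 0, nat_lit 5, nat_lit 5, nat_lit 20], false, nat_lit 0, nat_lit 300, nat_lit 0, nat_lit 300, ⟨nat_lit 1000, nat_lit 0, nat_lit 0, nat_lit 0, nat_lit 0, nat_lit 0, nat_lit 0, nat_lit 0, nat_lit 0, nat_lit 0, nat_lit 0, nat_lit 0, nat_lit 0, nat_lit 0, nat_lit 0, nat_lit 0, false, false⟩,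
 nat_lit 9584, nat_lit 0, nat_lit 0, nat_lit 0, nat_lit 7188, nat_lit 7188, nat_lit 549, nat_lit 0, nat_lit 0, nat_lit 1197, nat_lit 0, nat_lit 0, nat_lit 0, nat_lit 0, nat_lit 0, nat_lit 0, nat_lit 0, nat_lit 0, [],
 ⟨p101_k0, nat_lit 0, nat_lit 0, nat_lit 410, nat_lit 0, nat_lit 716898, [nat_lit 2032000001, nat_lit 4688000000, nat_lit 6250000000], [], [nat_lit 28984884168, nat_lit 25835357448, nat_lit 26377087296, nat_lit 28751372072, nat_lit 25197241392, nat_lit 26131862648, nat_lit 30456626025, nat_lit 27846144262], nat_lit 1271250, nat_lit 1271250, nat_lit 936251, nat_lit 1773750, nat_lit 0, nat_lit 2118750, [nat_lit 490000, nat_lit 1100000, nat_lit 1442500], [nat_lit 6, nat_lit 40, nat_lit 40, nat_lit 80, nat_lit 3, nat_lit 373, nat_lit 150, nat_lit 14]⟩, ⟨p101_k0, nat_lit 0, nat_lit 0, nat_lit 410, nat_lit 0, nat_lit 716898, [nat_lit 2032000000, nat_lit 4688000000, nat_lit 6250000000], [], [nat_lit 28984884168,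 nat_lit 25698991844, nat_lit 26377087296, nat_lit 28751372072, nat_lit 25197241392, nat_lit 26131862648, nat_lit 27864626024, nat_lit 27846144262], nat_lit 1271250, nat_lit 1271250, nat_lit 936251, nat_lit 1773750, nat_lit 0, nat_lit 2118750, [nat_lit 490000, nat_lit 1100000, nat_lit 1442500], [nat_lit 6, nat_lit 40, nat_lit 40, nat_lit 80, nat_lit 3, nat_lit 373, nat_lit 150, nat_lit 14]⟩,
 zbF0, [⟨nat_lit 0, nat_lit 77, nat_lit 77, nat_lit 100, nat_lit 246684087⟩, ⟨nat_lit 4, nat_lit 100, nat_lit 81, nat_lit 92, nat_lit 168308913⟩, ⟨nat_lit 19, nat_lit 87, nat_lit 95, nat_lit 100, nat_lit 126910455⟩, ⟨nat_lit 7, nat_lit 100, nat_lit 81, nat_lit 92, nat_lit 21446095⟩]⟩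
noncomputable def p101_l38 : Lf2 := ⟨nat_lit 0, nat_lit 10, [nat_lit 0, nat_lit 5, nat_lit 5, nat_lit 20], false, nat_lit 0, nat_lit 276, nat_lit 0, nat_lit 300, ⟨nat_lit 626, nat_lit 374, nat_lit 0, nat_lit 8, nat_lit 260, nat_lit 374, nat_lit 102, nat_lit 0, nat_lit 0, nat_lit 0, nat_lit 0, nat_lit 0, nat_lit 0, nat_lit 0, nat_lit 0, nat_lit 5000000, true, false⟩,
 nat_lit 5983, nat_lit 0, nat_lit 0, nat_lit 0, nat_lit 4843, nat_lit 4487, nat_lit 471, nat_lit 0, nat_lit 0, nat_lit 442, nat_lit 0, nat_lit 0, nat_lit 0, nat_lit 0, nat_lit 0, nat_lit 149600, nat_lit 0, nat_lit 0, [(nat_lit 21, [(nat_lit 1, nat_lit 374)])],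
 ⟨p101_k2, nat_lit 0, nat_lit 0, nat_lit 417, nat_lit 0, nat_lit 733940, [nat_lit 1778876801, nat_lit 3492995200, nat_lit 4470508000], [], [nat_lit 21892704648, nat_lit 24223401498, nat_lit 24710013142, nat_lit 26715813644, nat_lit 23340283075, nat_lit 24883931689, nat_lit 26052665962, nat_lit 26561668714], nat_lit 1271250, nat_lit 1271250, nat_lit 1167600, nat_lit 1789500, nat_lit 0, nat_lit 1949250, [nat_lit 490000, nat_lit 1100000, nat_lit 1442500], [nat_lit 6, nat_lit 40, nat_lit 40, nat_lit 80, nat_lit 3, nat_lit 373, nat_lit 150, nat_lit 14]⟩, ⟨p101_k0, nat_lit 0, nat_lit 0, nat_lit 437, nat_lit 0, nat_lit 805789, [nat_lit 1272032000, nat_lit 2934688000, nat_lit 3912500000], [], [nat_lit 17094422426, nat_lit 16291892916, nat_lit 16547055328, nat_lit 17976492494, nat_lit 15824930501, nat_lit 16393227090, nat_lit 19014401638, nat_lit 17423564891], nat_lit 1271250, nat_lit 1271250, nat_lit 1167600, nat_lit 1789500,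 nat_lit 0, nat_lit 2118750, [nat_lit 490000, nat_lit 1100000, nat_lit 1442500], [nat_lit 6, nat_lit 40, nat_lit 40, nat_lit 80, nat_lit 3, nat_lit 373, nat_lit 150, nat_lit 14]⟩,
 ⟨nat_lit 3162, nat_lit 3873, ⟨.ofNat (nat_lit 578944), .ofNat (nat_lit 695141), .ofNat (nat_lit 600708), .ofNat (nat_lit 716905), .ofNat (nat_lit 583969), .ofNat (nat_lit 693742), .ofNat (nat_lit 606094), .ofNat (nat_lit 715869)⟩, ⟨.ofNat (nat_lit 0), .ofNat (nat_lit 491830), .ofNat (nat_lit 0), .ofNat (nat_lit 535416), .ofNat (nat_lit 0), .ofNat (nat_lit 482881), .ofNat (nat_lit 0), .ofNat (nat_lit 527190)⟩⟩, [⟨nat_lit 0, nat_lit 76, nat_lit 66, nat_lit 100, nat_lit 60321991⟩, ⟨nat_lit 16, nat_lit 67, nat_lit 100, nat_lit 88, nat_lit 215551876⟩, ⟨nat_lit 19, nat_lit 87, nat_lit 95, nat_lit 100, nat_lit 123339647⟩]⟩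
noncomputable def p101_l39 : Lf2 := ⟨nat_lit 0, nat_lit 10, [nat_lit 0, nat_lit 5, nat_lit 5, nat_lit 20], false, nat_lit 0, nat_lit 300, nat_lit 0, nat_lit 300, ⟨nat_lit 1000, nat_lit 0, nat_lit 0, nat_lit 0, nat_lit 0, nat_lit 0, nat_lit 0, nat_lit 0, nat_lit 0, nat_lit 0, nat_lit 0, nat_lit 0, nat_lit 0, nat_lit 0, nat_lit 0, nat_lit 0, false, false⟩,
 nat_lit 8957, nat_lit 0, nat_lit 0, nat_lit 0, nat_lit 6717, nat_lit 6717, nat_lit 399, nat_lit 0, nat_lit 0, nat_lit 399, nat_lit 0, nat_lit 0, nat_lit 0, nat_lit 0, nat_lit 0, nat_lit 0, nat_lit 0, nat_lit 0, [],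
 ⟨p101_k0, nat_lit 0, nat_lit 0, nat_lit 418, nat_lit 0, nat_lit 716898, [nat_lit 2032000001, nat_lit 4688000000, nat_lit 6250000000], [], [nat_lit 29896259872, nat_lit 30835733104, nat_lit 40066455052, nat_lit 41507867208, nat_lit 29001146491, nat_lit 29584406559, nat_lit 35065105306, nat_lit 35991371779], nat_lit 1271250, nat_lit 1271250, nat_lit 1271250, nat_lit 1271250, nat_lit 0, nat_lit 2118750, [nat_lit 490000, nat_lit 1100000, nat_lit 1442500], [nat_lit 6, nat_lit 40, nat_lit 40, nat_lit 80, nat_lit 3, nat_lit 289, nat_lit 75, nat_lit 10]⟩, ⟨p101_k0, nat_lit 0, nat_lit 0, nat_lit 418, nat_lit 0, nat_lit 716898, [nat_lit 2032000000, nat_lit 4688000000, nat_lit 6250000000], [], [nat_lit 29896259872, nat_lit 30835733104, nat_lit 40066455052, nat_lit 41507867208, nat_lit 29001146491, nat_lit 29584406559, nat_lit 35065105306, nat_lit 35991371779], nat_lit 1271250, nat_lit 1271250, nat_lit 1271250, nat_lit 1271250,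 nat_lit 0, nat_lit 2118750, [nat_lit 490000, nat_lit 1100000, nat_lit 1442500], [nat_lit 6, nat_lit 40, nat_lit 40, nat_lit 80, nat_lit 3, nat_lit 289, nat_lit 75, nat_lit 10]⟩,
 zbF0, [⟨nat_lit 4, nat_lit 100, nat_lit 81, nat_lit 92, nat_lit 118969105⟩, ⟨nat_lit 19, nat_lit 81, nat_lit 100, nat_lit 92, nat_lit 118969105⟩]⟩
noncomputable def p101_l40 : Lf2 := ⟨nat_lit 0, nat_lit 10, [nat_lit 0, nat_lit 5, nat_lit 5, nat_lit 20], false, nat_lit 0, nat_lit 276, nat_lit 0, nat_lit 300, ⟨nat_lit 1000, nat_lit 0, nat_lit 0, nat_lit 0, nat_lit 0, nat_lit 0, nat_lit 0, nat_lit 0, nat_lit 0, nat_lit 0, nat_lit 0, nat_lit 0, nat_lit 0, nat_lit 0, nat_lit 0, nat_lit 0, false, false⟩,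
 nat_lit 8678, nat_lit 0, nat_lit 0, nat_lit 0, nat_lit 4878, nat_lit 6508, nat_lit 1093, nat_lit 0, nat_lit 0, nat_lit 404, nat_lit 0, nat_lit 0, nat_lit 0, nat_lit 0, nat_lit 0, nat_lit 0, nat_lit 0, nat_lit 0, [],
 ⟨p101_k2, nat_lit 0, nat_lit 0, nat_lit 425, nat_lit 0, nat_lit 733940, [nat_lit 2032000001, nat_lit 4688000000, nat_lit 6250000000], [], [nat_lit 24770331932, nat_lit 26784774424, nat_lit 36145299072, nat_lit 37369216376, nat_lit 25854155202, nat_lit 26590274302, nat_lit 33063672898, nat_lit 33930412591], nat_lit 1271250, nat_lit 1271250, nat_lit 1271250, nat_lit 1271250, nat_lit 0, nat_lit 1949250, [nat_lit 490000, nat_lit 1100000, nat_lit 1442500], [nat_lit 6, nat_lit 40, nat_lit 40, nat_lit 80, nat_lit 3, nat_lit 289, nat_lit 75, nat_lit 10]⟩, ⟨p101_k0, nat_lit 0, nat_lit 0, nat_lit 447, nat_lit 0, nat_lit 805789, [nat_lit 2032000000, nat_lit 4688000000, nat_lit 6250000000], [], [nat_lit 30981625360,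 nat_lit 31844837752, nat_lit 39481724048, nat_lit 40898418192, nat_lit 29930210684, nat_lit 30508119516, nat_lit 34820529744, nat_lit 35734560834], nat_lit 1271250, nat_lit 1271250, nat_lit 1271250, nat_lit 1271250, nat_lit 0, nat_lit 2118750, [nat_lit 490000, nat_lit 1100000, nat_lit 1442500], [nat_lit 6, nat_lit 40, nat_lit 40, nat_lit 80, nat_lit 3, nat_lit 289, nat_lit 75, nat_lit 10]⟩,
 zbF0, [⟨nat_lit 4, nat_lit 100, nat_lit 67, nat_lit 88, nat_lit 190738076⟩, ⟨nat_lit 7, nat_lit 100, nat_lit 81, nat_lit 92, nat_lit 126877188⟩]⟩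
noncomputable def b_V_800_800_20_18 : St := ⟨true, nat_lit 1, nat_lit 1, nat_lit 2, nat_lit 120, nat_lit 320, nat_lit 360, nat_lit 320, nat_lit 340, nat_lit 140, nat_lit 400, nat_lit 80, nat_lit 120, nat_lit 0, nat_lit 300, nat_lit 0, nat_lit 300, nat_lit 0, nat_lit 40, nat_lit 0, nat_lit 0, nat_lit 0, nat_lit 0⟩
theorem d_V_800_800_20_18 (h : EB TB.env) : Dead b_V_800_800_20_18 := chkB_sound0 h (T :=
(.spl (nat_lit 2) (nat_lit 240)
(.spl (nat_lit 0) (nat_lit 340)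
(.leaf p101_l37)
(.trZ (nat_lit 0) (nat_lit 81) (nat_lit 72) (nat_lit 100) (nat_lit 168) (.trX (nat_lit 16) (nat_lit 77) (nat_lit 100) (nat_lit 99) (nat_lit 276) (.leaf p101_l38))))
(.spl (nat_lit 0) (nat_lit 340)
(.leaf p101_l39)
(.trX (nat_lit 16) (nat_lit 77) (nat_lit 100) (nat_lit 99) (nat_lit 276) (.leaf p101_l40))))) (by decide +kernel)
noncomputable def p101_l41 : Lf2 := ⟨nat_lit 0, nat_lit 20, [nat_lit 5, nat_lit 5, nat_lit 5, nat_lit 20], false, nat_lit 0, nat_lit 300, nat_lit 0, nat_lit 300, ⟨nat_lit 1000, nat_lit 0, nat_lit 0, nat_lit 0, nat_lit 0, nat_lit 0, nat_lit 0, nat_lit 0, nat_lit 0, nat_lit 0, nat_lit 0, nat_lit 0, nat_lit 0, nat_lit 0, nat_lit 0, nat_lit 0, false, false⟩,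
 nat_lit 0, nat_lit 0, nat_lit 0, nat_lit 3824, nat_lit 13576, nat_lit 13979, nat_lit 0, nat_lit 0, nat_lit 0, nat_lit 0, nat_lit 0, nat_lit 0, nat_lit 0, nat_lit 0, nat_lit 0, nat_lit 0, nat_lit 0, nat_lit 0, [],
 ⟨p101_k13, nat_lit 0, nat_lit 0, nat_lit 177, nat_lit 0, nat_lit 0, [nat_lit 2032000001, nat_lit 9842000000], [], [nat_lit 35047161424, nat_lit 41447906000, nat_lit 37234772928, nat_lit 43922513408, nat_lit 28608693080, nat_lit 33875071496, nat_lit 29524143000, nat_lit 34345890648], nat_lit 0, nat_lit 0, nat_lit 0, nat_lit 0, nat_lit 0, nat_lit 0, [], [nat_lit 94, nat_lit 40, nat_lit 40, nat_lit 80, nat_lit 95, nat_lit 373, nat_lit 150, nat_lit 11]⟩, ⟨p101_k13, nat_lit 0, nat_lit 0, nat_lit 169, nat_lit 0, nat_lit 0, [nat_lit 2032000000, nat_lit 9842000000], [], [nat_lit 35218587146, nat_lit 38492935323, nat_lit 37394896112, nat_lit 40454940726, nat_lit 28394631570, nat_lit 31176155175, nat_lit 29729320375,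 nat_lit 32192971684], nat_lit 0, nat_lit 0, nat_lit 0, nat_lit 0, nat_lit 0, nat_lit 0, [], [nat_lit 94, nat_lit 40, nat_lit 40, nat_lit 80, nat_lit 95, nat_lit 373, nat_lit 150, nat_lit 11]⟩,
 zbF0, [⟨nat_lit 0, nat_lit 83, nat_lit 83, nat_lit 100, nat_lit 537036137⟩, ⟨nat_lit 16, nat_lit 87, nat_lit 95, nat_lit 100, nat_lit 24153535⟩, ⟨nat_lit 19, nat_lit 87, nat_lit 95, nat_lit 100, nat_lit 51069942⟩]⟩
noncomputable def p101_l42 : Lf2 := ⟨nat_lit 0, nat_lit 20, [nat_lit 5, nat_lit 5, nat_lit 5, nat_lit 20], false, nat_lit 0, nat_lit 300, nat_lit 0, nat_lit 300, ⟨nat_lit 1000, nat_lit 0, nat_lit 0, nat_lit 0, nat_lit 0, nat_lit 0, nat_lit 0, nat_lit 0, nat_lit 0, nat_lit 0, nat_lit 0, nat_lit 0, nat_lit 0, nat_lit 0, nat_lit 0, nat_lit 0, false, false⟩,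
 nat_lit 0, nat_lit 0, nat_lit 0, nat_lit 0, nat_lit 9467, nat_lit 10490, nat_lit 0, nat_lit 0, nat_lit 0, nat_lit 0, nat_lit 0, nat_lit 0, nat_lit 0, nat_lit 0, nat_lit 0, nat_lit 0, nat_lit 0, nat_lit 0, [],
 ⟨p101_k13, nat_lit 0, nat_lit 0, nat_lit 231, nat_lit 0, nat_lit 0, [nat_lit 2032000001, nat_lit 9842000000], [], [nat_lit 40099183704, nat_lit 42625966152, nat_lit 47760284052, nat_lit 51293582364, nat_lit 34114928259, nat_lit 35595801215, nat_lit 38283204806, nat_lit 40457721501], nat_lit 0, nat_lit 0, nat_lit 0, nat_lit 0, nat_lit 0, nat_lit 0, [], [nat_lit 94, nat_lit 40, nat_lit 40, nat_lit 80, nat_lit 95, nat_lit 401, nat_lit 175, nat_lit 11]⟩, ⟨p101_k13, nat_lit 0, nat_lit 0, nat_lit 225, nat_lit 0, nat_lit 0, [nat_lit 2032000000, nat_lit 9842000000], [], [nat_lit 39319976880, nat_lit 40662008160, nat_lit 50622388440, nat_lit 52510025760, nat_lit 32105732730, nat_lit 32877712390, nat_lit 39480337820,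 nat_lit 40627485145], nat_lit 0, nat_lit 0, nat_lit 0, nat_lit 0, nat_lit 0, nat_lit 0, [], [nat_lit 94, nat_lit 40, nat_lit 40, nat_lit 80, nat_lit 95, nat_lit 401, nat_lit 175, nat_lit 11]⟩,
 zbF0, []⟩
noncomputable def p101_l43 : Lf2 := ⟨nat_lit 0, nat_lit 20, [nat_lit 5, nat_lit 5, nat_lit 5, nat_lit 20], false, nat_lit 0, nat_lit 160, nat_lit 0, nat_lit 160, ⟨nat_lit 1000, nat_lit 0, nat_lit 0, nat_lit 0, nat_lit 0, nat_lit 0, nat_lit 0, nat_lit 0, nat_lit 0, nat_lit 0, nat_lit 0, nat_lit 0, nat_lit 0, nat_lit 0, nat_lit 0, nat_lit 0, false, false⟩,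
 nat_lit 0, nat_lit 0, nat_lit 8741, nat_lit 0, nat_lit 5935, nat_lit 6555, nat_lit 847, nat_lit 0, nat_lit 0, nat_lit 672, nat_lit 0, nat_lit 0, nat_lit 0, nat_lit 0, nat_lit 0, nat_lit 0, nat_lit 0, nat_lit 0, [],
 ⟨p101_k14, nat_lit 0, nat_lit 0, nat_lit 193, nat_lit 0, nat_lit 0, [nat_lit 2032000001, nat_lit 4688000000, nat_lit 9842000000], [], [nat_lit 23329525565, nat_lit 26925060375, nat_lit 25731436555, nat_lit 28867389980, nat_lit 19543694055, nat_lit 22579956345, nat_lit 21655877135, nat_lit 24182862835], nat_lit 0, nat_lit 0, nat_lit 0, nat_lit 0, nat_lit 0, nat_lit 0, [], [nat_lit 27, nat_lit 40, nat_lit 40, nat_lit 80, nat_lit 13, nat_lit 317, nat_lit 100, nat_lit 9]⟩, ⟨p101_k14, nat_lit 0, nat_lit 0, nat_lit 641, nat_lit 0, nat_lit 979891, [nat_lit 2032000000, nat_lit 4688000000, nat_lit 9842000000], [], [nat_lit 29687461810, nat_lit 30627225010, nat_lit 30721151920, nat_lit 31506313690, nat_lit 26828559000,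 nat_lit 27610569595, nat_lit 29050541620, nat_lit 28214432980], nat_lit 1271250, nat_lit 1271250, nat_lit 936251, nat_lit 1773750, nat_lit 0, nat_lit 1100001, [nat_lit 490000, nat_lit 1100000, nat_lit 2127500], [nat_lit 27, nat_lit 40, nat_lit 40, nat_lit 80, nat_lit 13, nat_lit 317, nat_lit 100, nat_lit 9]⟩,
 zbF0, [⟨nat_lit 0, nat_lit 72, nat_lit 61, nat_lit 100, nat_lit 773332690⟩]⟩
noncomputable def p101_l44 : Lf2 := ⟨nat_lit 0, nat_lit 20, [nat_lit 5, nat_lit 5, nat_lit 5, nat_lit 20], false, nat_lit 0, nat_lit 160, nat_lit 160, nat_lit 300, ⟨nat_lit 1000, nat_lit 0, nat_lit 0, nat_lit 0, nat_lit 0, nat_lit 0, nat_lit 0, nat_lit 0, nat_lit 0, nat_lit 0, nat_lit 0, nat_lit 0, nat_lit 0, nat_lit 0, nat_lit 0, nat_lit 0, false, false⟩,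
 nat_lit 0, nat_lit 0, nat_lit 7940, nat_lit 0, nat_lit 5935, nat_lit 5955, nat_lit 931, nat_lit 0, nat_lit 0, nat_lit 703, nat_lit 0, nat_lit 0, nat_lit 0, nat_lit 0, nat_lit 0, nat_lit 0, nat_lit 0, nat_lit 0, [],
 ⟨p101_k14, nat_lit 0, nat_lit 0, nat_lit 193, nat_lit 0, nat_lit 0, [nat_lit 2032000001, nat_lit 4688000000, nat_lit 9842000000], [], [nat_lit 22489788065, nat_lit 26085322875, nat_lit 24891699055, nat_lit 28867389980, nat_lit 18703956555, nat_lit 21740218845, nat_lit 20942218080, nat_lit 24181180720], nat_lit 0, nat_lit 0, nat_lit 0, nat_lit 0, nat_lit 0, nat_lit 0, [], [nat_lit 27, nat_lit 40, nat_lit 40, nat_lit 80, nat_lit 13, nat_lit 317, nat_lit 100, nat_lit 9]⟩, ⟨p101_k14, nat_lit 0, nat_lit 0, nat_lit 561, nat_lit 0, nat_lit 979891, [nat_lit 2032000000, nat_lit 4688000000, nat_lit 9842000000], [], [nat_lit 26780953485, nat_lit 27679652685, nat_lit 27899002395, nat_lit 28654395765, nat_lit 29434679778,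 nat_lit 30288942493, nat_lit 30423963595, nat_lit 31141608110], nat_lit 1271250, nat_lit 1271250, nat_lit 936251, nat_lit 1773750, nat_lit 1100001, nat_lit 2298750, [nat_lit 490000, nat_lit 1100000, nat_lit 2127500], [nat_lit 27, nat_lit 40, nat_lit 40, nat_lit 80, nat_lit 13, nat_lit 373, nat_lit 150, nat_lit 10]⟩,
 zbF0, [⟨nat_lit 0, nat_lit 72, nat_lit 61, nat_lit 100, nat_lit 657181704⟩, ⟨nat_lit 7, nat_lit 100, nat_lit 81, nat_lit 92, nat_lit 415739309⟩]⟩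
noncomputable def p101_l45 : Lf2 := ⟨nat_lit 0, nat_lit 20, [nat_lit 5, nat_lit 5, nat_lit 5, nat_lit 20], false, nat_lit 160, nat_lit 300, nat_lit 0, nat_lit 300, ⟨nat_lit 1000, nat_lit 0, nat_lit 0, nat_lit 0, nat_lit 0, nat_lit 0, nat_lit 0, nat_lit 0, nat_lit 0, nat_lit 0, nat_lit 0, nat_lit 0, nat_lit 0, nat_lit 0, nat_lit 0, nat_lit 0, false, false⟩,
 nat_lit 0, nat_lit 0, nat_lit 9471, nat_lit 0, nat_lit 3757, nat_lit 7102, nat_lit 0, nat_lit 0, nat_lit 0, nat_lit 1181, nat_lit 0, nat_lit 0, nat_lit 0, nat_lit 0, nat_lit 0, nat_lit 0, nat_lit 0, nat_lit 0, [],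
 ⟨p101_k14, nat_lit 0, nat_lit 0, nat_lit 45, nat_lit 0, nat_lit 0, [nat_lit 2032000001, nat_lit 4688000000, nat_lit 9842000000], [], [nat_lit 16193329255, nat_lit 17033076166, nat_lit 19496183085, nat_lit 20199061395, nat_lit 22285905746, nat_lit 22916615261, nat_lit 24555180027, nat_lit 25090261726], nat_lit 0, nat_lit 0, nat_lit 0, nat_lit 0, nat_lit 0, nat_lit 0, [], [nat_lit 27, nat_lit 40, nat_lit 40, nat_lit 80, nat_lit 13, nat_lit 373, nat_lit 150, nat_lit 10]⟩, ⟨p101_k14, nat_lit 0, nat_lit 0, nat_lit 479, nat_lit 0, nat_lit 617987, [nat_lit 2032000000, nat_lit 4688000000, nat_lit 9842000000], [], [nat_lit 28989563772, nat_lit 27153987954, nat_lit 26614310384, nat_lit 27321370574, nat_lit 25492594718, nat_lit 25957203893, nat_lit 34540664661, nat_lit 33039545105], nat_lit 1271250, nat_lit 1271250, nat_lit 936251, nat_lit 1773750, nat_lit 0, nat_lit 2118750, [nat_lit 490000, nat_lit 1100000, nat_lit 2127500],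 [nat_lit 27, nat_lit 40, nat_lit 40, nat_lit 80, nat_lit 13, nat_lit 373, nat_lit 150, nat_lit 11]⟩,
 zbF0, [⟨nat_lit 4, nat_lit 100, nat_lit 84, nat_lit 93, nat_lit 504754395⟩, ⟨nat_lit 7, nat_lit 100, nat_lit 84, nat_lit 93, nat_lit 192626234⟩]⟩
noncomputable def p101_l46 : Lf2 := ⟨nat_lit 0, nat_lit 20, [nat_lit 5, nat_lit 5, nat_lit 5, nat_lit 20], false, nat_lit 160, nat_lit 288, nat_lit 0, nat_lit 300, ⟨nat_lit 1000, nat_lit 0, nat_lit 0, nat_lit 0, nat_lit 0, nat_lit 0, nat_lit 0, nat_lit 0, nat_lit 0, nat_lit 0, nat_lit 0, nat_lit 0, nat_lit 0, nat_lit 0, nat_lit 0, nat_lit 0, false, false⟩,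
 nat_lit 0, nat_lit 0, nat_lit 8064, nat_lit 0, nat_lit 3769, nat_lit 6047, nat_lit 0, nat_lit 0, nat_lit 0, nat_lit 678, nat_lit 0, nat_lit 0, nat_lit 0, nat_lit 0, nat_lit 0, nat_lit 0, nat_lit 0, nat_lit 0, [],
 ⟨p101_k15, nat_lit 0, nat_lit 0, nat_lit 43, nat_lit 0, nat_lit 0, [nat_lit 2032000001, nat_lit 4688000000, nat_lit 9842000000], [], [nat_lit 17340274187, nat_lit 18161396143, nat_lit 20192339499, nat_lit 20896343769, nat_lit 22504734206, nat_lit 23140610104, nat_lit 24576239183, nat_lit 25140990334], nat_lit 0, nat_lit 0, nat_lit 0, nat_lit 0, nat_lit 0, nat_lit 0, [], [nat_lit 27, nat_lit 40, nat_lit 40, nat_lit 80, nat_lit 13, nat_lit 373, nat_lit 150, nat_lit 10]⟩, ⟨p101_k14, nat_lit 0, nat_lit 0, nat_lit 573, nat_lit 0, nat_lit 788534, [nat_lit 2032000000, nat_lit 4688000000, nat_lit 9842000000], [], [nat_lit 36584045298, nat_lit 33381808072, nat_lit 30689048122, nat_lit 31594886554, nat_lit 29311028033,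 nat_lit 29979210807, nat_lit 34960152756, nat_lit 32340631662], nat_lit 1271250, nat_lit 1271250, nat_lit 1066650, nat_lit 1782750, nat_lit 0, nat_lit 2118750, [nat_lit 490000, nat_lit 1100000, nat_lit 2127500], [nat_lit 27, nat_lit 40, nat_lit 40, nat_lit 80, nat_lit 13, nat_lit 373, nat_lit 150, nat_lit 10]⟩,
 zbF0, [⟨nat_lit 0, nat_lit 77, nat_lit 74, nat_lit 100, nat_lit 212600899⟩, ⟨nat_lit 16, nat_lit 77, nat_lit 100, nat_lit 91, nat_lit 545933345⟩, ⟨nat_lit 7, nat_lit 100, nat_lit 81, nat_lit 92, nat_lit 120917326⟩]⟩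
noncomputable def p101_l47 : Lf2 := ⟨nat_lit 0, nat_lit 20, [nat_lit 5, nat_lit 5, nat_lit 5, nat_lit 20], false, nat_lit 160, nat_lit 276, nat_lit 0, nat_lit 300, ⟨nat_lit 398, nat_lit 602, nat_lit 0, nat_lit 8, nat_lit 257, nat_lit 602, nat_lit 167, nat_lit 0, nat_lit 0, nat_lit 0, nat_lit 0, nat_lit 0, nat_lit 40203635, nat_lit 17828428, nat_lit 8967937, nat_lit 4989468, true, false⟩,
 nat_lit 0, nat_lit 0, nat_lit 3965, nat_lit 0, nat_lit 3398, nat_lit 2973, nat_lit 0, nat_lit 0, nat_lit 0, nat_lit 419, nat_lit 0, nat_lit 0, nat_lit 0, nat_lit 0, nat_lit 0, nat_lit 150500, nat_lit 0, nat_lit 0, [(nat_lit 22, [(nat_lit 0, nat_lit 602)])],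
 ⟨p101_k16, nat_lit 0, nat_lit 0, nat_lit 48, nat_lit 0, nat_lit 0, [nat_lit 1752672000, nat_lit 3052245600, nat_lit 4804128800], [], [nat_lit 18403614806, nat_lit 19929734840, nat_lit 20790023456, nat_lit 22128410136, nat_lit 22618424935, nat_lit 23841856376, nat_lit 24460531181, nat_lit 25558383250], nat_lit 0, nat_lit 0, nat_lit 0, nat_lit 0, nat_lit 0, nat_lit 0, [], [nat_lit 34, nat_lit 40, nat_lit 40, nat_lit 80, nat_lit 7, nat_lit 373, nat_lit 150, nat_lit 11]⟩, ⟨p101_k14, nat_lit 0, nat_lit 0, nat_lit 608, nat_lit 0, nat_lit 906018, [nat_lit 808736000, nat_lit 1865824000, nat_lit 3917116000], [], [nat_lit 14536165867, nat_lit 13752563338, nat_lit 10654514124, nat_lit 11108142665, nat_lit 9986104987, nat_lit 10135496995, nat_lit 12095175105, nat_lit 11451232968], nat_lit 1271250, nat_lit 1271250, nat_lit 1167600, nat_lit 1789500, nat_lit 0, nat_lit 2118750, [nat_lit 490000, nat_lit 1100000, nat_lit 2127500],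 [nat_lit 27, nat_lit 40, nat_lit 40, nat_lit 80, nat_lit 13, nat_lit 373, nat_lit 150, nat_lit 10]⟩,
 ⟨nat_lit 3162, nat_lit 3873, ⟨.ofNat (nat_lit 578944), .ofNat (nat_lit 695141), .ofNat (nat_lit 589826), .ofNat (nat_lit 706023), .ofNat (nat_lit 583969), .ofNat (nat_lit 693742), .ofNat (nat_lit 595032), .ofNat (nat_lit 704805)⟩, ⟨.ofNat (nat_lit 304717), .ofNat (nat_lit 491830), .ofNat (nat_lit 348304), .ofNat (nat_lit 535416), .ofNat (nat_lit 306116), .ofNat (nat_lit 482881), .ofNat (nat_lit 350426), .ofNat (nat_lit 527190)⟩⟩, [⟨nat_lit 0, nat_lit 78, nat_lit 66, nat_lit 100, nat_lit 148049147⟩, ⟨nat_lit 4, nat_lit 100, nat_lit 67, nat_lit 88, nat_lit 399532031⟩, ⟨nat_lit 19, nat_lit 87, nat_lit 95, nat_lit 100, nat_lit 9626833⟩]⟩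
noncomputable def p101_l48 : Lf2 := ⟨nat_lit 0, nat_lit 20, [nat_lit 5, nat_lit 5, nat_lit 5, nat_lit 20], false, nat_lit 160, nat_lit 276, nat_lit 0, nat_lit 288, ⟨nat_lit 1000, nat_lit 0, nat_lit 0, nat_lit 0, nat_lit 0, nat_lit 0, nat_lit 0, nat_lit 0, nat_lit 0, nat_lit 0, nat_lit 0, nat_lit 0, nat_lit 0, nat_lit 0, nat_lit 0, nat_lit 0, false, false⟩,
 nat_lit 0, nat_lit 0, nat_lit 7548, nat_lit 0, nat_lit 3716, nat_lit 5883, nat_lit 0, nat_lit 0, nat_lit 0, nat_lit 1071, nat_lit 0, nat_lit 0, nat_lit 0, nat_lit 0, nat_lit 0, nat_lit 0, nat_lit 0, nat_lit 0, [],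
 ⟨p101_k16, nat_lit 0, nat_lit 0, nat_lit 47, nat_lit 0, nat_lit 0, [nat_lit 2032000001, nat_lit 4688000000, nat_lit 7968000000], [], [nat_lit 18844398405, nat_lit 20410359601, nat_lit 20921059153, nat_lit 22319121713, nat_lit 23058799732, nat_lit 24309873504, nat_lit 24646789995, nat_lit 25779175484], nat_lit 0, nat_lit 0, nat_lit 0, nat_lit 0, nat_lit 0, nat_lit 0, [], [nat_lit 34, nat_lit 40, nat_lit 40, nat_lit 80, nat_lit 7, nat_lit 373, nat_lit 150, nat_lit 11]⟩, ⟨p101_k15, nat_lit 0, nat_lit 0, nat_lit 612, nat_lit 0, nat_lit 928108, [nat_lit 2032000000, nat_lit 4688000000, nat_lit 9842000000], [], [nat_lit 25161874912, nat_lit 25653383161, nat_lit 26326159805, nat_lit 26798589523, nat_lit 25648888175, nat_lit 25831073546, nat_lit 26096804342, nat_lit 26405869347], nat_lit 1271250, nat_lit 1271250, nat_lit 1271250, nat_lit 1271250, nat_lit 0, nat_lit 2034000, [nat_lit 490000, nat_lit 1100000, nat_lit 2127500],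 [nat_lit 27, nat_lit 40, nat_lit 40, nat_lit 80, nat_lit 13, nat_lit 373, nat_lit 150, nat_lit 10]⟩,
 zbF0, [⟨nat_lit 0, nat_lit 74, nat_lit 66, nat_lit 100, nat_lit 551562744⟩, ⟨nat_lit 16, nat_lit 77, nat_lit 100, nat_lit 99, nat_lit 226971711⟩, ⟨nat_lit 4, nat_lit 100, nat_lit 67, nat_lit 88, nat_lit 322075798⟩, ⟨nat_lit 19, nat_lit 83, nat_lit 98, nat_lit 100, nat_lit 205864019⟩]⟩
noncomputable def p101_l49 : Lf2 := ⟨nat_lit 0, nat_lit 20, [nat_lit 5, nat_lit 5, nat_lit 5, nat_lit 20], false, nat_lit 0, nat_lit 160, nat_lit 0, nat_lit 300, ⟨nat_lit 1000, nat_lit 0, nat_lit 0, nat_lit 0, nat_lit 0, nat_lit 0, nat_lit 0, nat_lit 0, nat_lit 0, nat_lit 0, nat_lit 0, nat_lit 0, nat_lit 0, nat_lit 0, nat_lit 0, nat_lit 0, false, false⟩,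
 nat_lit 0, nat_lit 0, nat_lit 7824, nat_lit 0, nat_lit 5732, nat_lit 5867, nat_lit 824, nat_lit 0, nat_lit 0, nat_lit 611, nat_lit 0, nat_lit 0, nat_lit 0, nat_lit 0, nat_lit 0, nat_lit 0, nat_lit 0, nat_lit 0, [],
 ⟨p101_k14, nat_lit 0, nat_lit 0, nat_lit 212, nat_lit 0, nat_lit 0, [nat_lit 2032000001, nat_lit 4688000000, nat_lit 9842000000], [], [nat_lit 26728329672, nat_lit 27968820592, nat_lit 37310665392, nat_lit 38635583568, nat_lit 23532612104, nat_lit 24582785264, nat_lit 31509312912, nat_lit 32372969856], nat_lit 0, nat_lit 0, nat_lit 0, nat_lit 0, nat_lit 0, nat_lit 0, [], [nat_lit 27, nat_lit 40, nat_lit 40, nat_lit 80, nat_lit 13, nat_lit 373, nat_lit 150, nat_lit 10]⟩, ⟨p101_k14, nat_lit 0, nat_lit 0, nat_lit 541, nat_lit 0, nat_lit 788534, [nat_lit 2032000000, nat_lit 4688000000, nat_lit 9842000000], [], [nat_lit 33825825423, nat_lit 34576852761, nat_lit 38449360159, nat_lit 39035160546, nat_lit 32859409155,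 nat_lit 33339728791, nat_lit 36402477209, nat_lit 36798967327], nat_lit 1271250, nat_lit 1271250, nat_lit 1271250, nat_lit 1271250, nat_lit 0, nat_lit 2118750, [nat_lit 490000, nat_lit 1100000, nat_lit 2127500], [nat_lit 27, nat_lit 40, nat_lit 40, nat_lit 80, nat_lit 13, nat_lit 401, nat_lit 175, nat_lit 11]⟩,
 zbF0, [⟨nat_lit 7, nat_lit 100, nat_lit 81, nat_lit 92, nat_lit 192345854⟩]⟩
noncomputable def p101_l50 : Lf2 := ⟨nat_lit 0, nat_lit 20, [nat_lit 5, nat_lit 5, nat_lit 5, nat_lit 20], false, nat_lit 0, nat_lit 160, nat_lit 0, nat_lit 300, ⟨nat_lit 1000, nat_lit 0, nat_lit 0, nat_lit 0, nat_lit 0, nat_lit 0, nat_lit 0, nat_lit 0, nat_lit 0, nat_lit 0, nat_lit 0, nat_lit 0, nat_lit 0, nat_lit 0, nat_lit 0, nat_lit 0, false, false⟩,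
 nat_lit 0, nat_lit 0, nat_lit 7902, nat_lit 0, nat_lit 4863, nat_lit 5926, nat_lit 774, nat_lit 0, nat_lit 0, nat_lit 616, nat_lit 0, nat_lit 0, nat_lit 0, nat_lit 0, nat_lit 0, nat_lit 0, nat_lit 0, nat_lit 0, [],
 ⟨p101_k16, nat_lit 0, nat_lit 0, nat_lit 196, nat_lit 0, nat_lit 0, [nat_lit 2032000001, nat_lit 4688000000, nat_lit 7968000000], [], [nat_lit 24744481022, nat_lit 26755219804, nat_lit 36101558712, nat_lit 37323701996, nat_lit 22476031417, nat_lit 23506782086, nat_lit 31081787376, nat_lit 32159384680], nat_lit 0, nat_lit 0, nat_lit 0, nat_lit 0, nat_lit 0, nat_lit 0, [], [nat_lit 34, nat_lit 40, nat_lit 40, nat_lit 80, nat_lit 7, nat_lit 249, nat_lit 40, nat_lit 7]⟩, ⟨p101_k14, nat_lit 0, nat_lit 0, nat_lit 592, nat_lit 0, nat_lit 906018, [nat_lit 2032000000, nat_lit 4688000000, nat_lit 9842000000], [], [nat_lit 33561891944, nat_lit 33938869226, nat_lit 38217196032, nat_lit 38532216010, nat_lit 32536215840,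 nat_lit 32777685183, nat_lit 36145026402, nat_lit 36343370360], nat_lit 1271250, nat_lit 1271250, nat_lit 1271250, nat_lit 1271250, nat_lit 0, nat_lit 2118750, [nat_lit 490000, nat_lit 1100000, nat_lit 2127500], [nat_lit 27, nat_lit 40, nat_lit 40, nat_lit 80, nat_lit 13, nat_lit 401, nat_lit 175, nat_lit 11]⟩,
 zbF0, [⟨nat_lit 19, nat_lit 84, nat_lit 100, nat_lit 93, nat_lit 184496594⟩]⟩
noncomputable def p101_l51 : Lf2 := ⟨nat_lit 0, nat_lit 20, [nat_lit 5, nat_lit 5, nat_lit 5, nat_lit 20], false, nat_lit 0, nat_lit 160, nat_lit 0, nat_lit 288, ⟨nat_lit 1000, nat_lit 0, nat_lit 0, nat_lit 0, nat_lit 0, nat_lit 0, nat_lit 0, nat_lit 0, nat_lit 0, nat_lit 0, nat_lit 0, nat_lit 0, nat_lit 0, nat_lit 0, nat_lit 0, nat_lit 0, false, false⟩,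
 nat_lit 0, nat_lit 0, nat_lit 6939, nat_lit 0, nat_lit 4929, nat_lit 5409, nat_lit 778, nat_lit 0, nat_lit 0, nat_lit 750, nat_lit 0, nat_lit 0, nat_lit 0, nat_lit 0, nat_lit 0, nat_lit 0, nat_lit 0, nat_lit 0, [],
 ⟨p101_k16, nat_lit 0, nat_lit 0, nat_lit 196, nat_lit 0, nat_lit 0, [nat_lit 2032000001, nat_lit 4688000000, nat_lit 7968000000], [], [nat_lit 24858225026, nat_lit 26885260132, nat_lit 36294016296, nat_lit 37523965268, nat_lit 22287400376, nat_lit 23351985738, nat_lit 31171517808, nat_lit 32255636440], nat_lit 0, nat_lit 0, nat_lit 0, nat_lit 0, nat_lit 0, nat_lit 0, [], [nat_lit 34, nat_lit 40, nat_lit 40, nat_lit 80, nat_lit 7, nat_lit 249, nat_lit 40, nat_lit 7]⟩, ⟨p101_k15, nat_lit 0, nat_lit 0, nat_lit 599, nat_lit 0, nat_lit 928108, [nat_lit 2032000000, nat_lit 4688000000, nat_lit 9842000000], [], [nat_lit 30579258784, nat_lit 30975236862, nat_lit 37050349010, nat_lit 37693707816, nat_lit 30694966914,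 nat_lit 30957958523, nat_lit 33865859578, nat_lit 34045870246], nat_lit 1271250, nat_lit 1271250, nat_lit 1271250, nat_lit 1271250, nat_lit 0, nat_lit 2034000, [nat_lit 490000, nat_lit 1100000, nat_lit 2127500], [nat_lit 27, nat_lit 40, nat_lit 40, nat_lit 80, nat_lit 13, nat_lit 401, nat_lit 175, nat_lit 11]⟩,
 zbF0, [⟨nat_lit 7, nat_lit 100, nat_lit 77, nat_lit 91, nat_lit 163215960⟩]⟩
noncomputable def p101_l52 : Lf2 := ⟨nat_lit 0, nat_lit 20, [nat_lit 5, nat_lit 5, nat_lit 5, nat_lit 20], false, nat_lit 160, nat_lit 300, nat_lit 0, nat_lit 300, ⟨nat_lit 1000, nat_lit 0, nat_lit 0, nat_lit 0, nat_lit 0, nat_lit 0, nat_lit 0, nat_lit 0, nat_lit 0, nat_lit 0, nat_lit 0, nat_lit 0, nat_lit 0, nat_lit 0, nat_lit 0, nat_lit 0, false, false⟩,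
 nat_lit 0, nat_lit 0, nat_lit 9111, nat_lit 0, nat_lit 3727, nat_lit 6833, nat_lit 0, nat_lit 0, nat_lit 0, nat_lit 592, nat_lit 0, nat_lit 0, nat_lit 0, nat_lit 0, nat_lit 0, nat_lit 0, nat_lit 0, nat_lit 0, [],
 ⟨p101_k14, nat_lit 0, nat_lit 0, nat_lit 54, nat_lit 0, nat_lit 0, [nat_lit 2032000001, nat_lit 4688000000, nat_lit 9842000000], [], [nat_lit 19515802725, nat_lit 20915929545, nat_lit 23553966917, nat_lit 24743064952, nat_lit 24565103487, nat_lit 25631594465, nat_lit 27661501418, nat_lit 28599642529], nat_lit 0, nat_lit 0, nat_lit 0, nat_lit 0, nat_lit 0, nat_lit 0, [], [nat_lit 27, nat_lit 40, nat_lit 40, nat_lit 80, nat_lit 13, nat_lit 401, nat_lit 175, nat_lit 10]⟩, ⟨p101_k14, nat_lit 0, nat_lit 0, nat_lit 541, nat_lit 0, nat_lit 788534, [nat_lit 2032000000, nat_lit 4688000000, nat_lit 9842000000], [], [nat_lit 30512802752, nat_lit 31311757214, nat_lit 32825596768, nat_lit 34155050544, nat_lit 28576132220,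 nat_lit 29070562309, nat_lit 30003841622, nat_lit 31237864952], nat_lit 1271250, nat_lit 1271250, nat_lit 1271250, nat_lit 1271250, nat_lit 0, nat_lit 2118750, [nat_lit 490000, nat_lit 1100000, nat_lit 2127500], [nat_lit 27, nat_lit 40, nat_lit 40, nat_lit 80, nat_lit 13, nat_lit 401, nat_lit 175, nat_lit 11]⟩,
 zbF0, [⟨nat_lit 16, nat_lit 81, nat_lit 100, nat_lit 92, nat_lit 520732928⟩, ⟨nat_lit 7, nat_lit 100, nat_lit 81, nat_lit 92, nat_lit 192157601⟩]⟩
noncomputable def p101_l53 : Lf2 := ⟨nat_lit 0, nat_lit 20, [nat_lit 5, nat_lit 5, nat_lit 5, nat_lit 20], false, nat_lit 160, nat_lit 276, nat_lit 0, nat_lit 300, ⟨nat_lit 695, nat_lit 305, nat_lit 0, nat_lit 8, nat_lit 307, nat_lit 305, nat_lit 167, nat_lit 0, nat_lit 0, nat_lit 0, nat_lit 0, nat_lit 0, nat_lit 36361975, nat_lit 22272372, nat_lit 8365653, nat_lit 5143407, true, false⟩,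
 nat_lit 0, nat_lit 0, nat_lit 6257, nat_lit 0, nat_lit 5387, nat_lit 4692, nat_lit 0, nat_lit 0, nat_lit 0, nat_lit 412, nat_lit 0, nat_lit 0, nat_lit 0, nat_lit 0, nat_lit 0, nat_lit 76250, nat_lit 0, nat_lit 0, [(nat_lit 22, [(nat_lit 0, nat_lit 305)])],
 ⟨p101_k16, nat_lit 0, nat_lit 0, nat_lit 60, nat_lit 0, nat_lit 0, [nat_lit 1890480001, nat_lit 3859254000, nat_lit 6365042000], [], [nat_lit 22146781080, nat_lit 23677666144, nat_lit 26114627896, nat_lit 27499356828, nat_lit 25727118062, nat_lit 26939376183, nat_lit 29075839308, nat_lit 30240394118], nat_lit 0, nat_lit 0, nat_lit 0, nat_lit 0, nat_lit 0, nat_lit 0, [], [nat_lit 34, nat_lit 40, nat_lit 40, nat_lit 80, nat_lit 7, nat_lit 289, nat_lit 75, nat_lit 8]⟩, ⟨p101_k14, nat_lit 0, nat_lit 0, nat_lit 616, nat_lit 0, nat_lit 979891, [nat_lit 1412240000, nat_lit 3258160000, nat_lit 6840190000], [], [nat_lit 21407260548, nat_lit 21959709126, nat_lit 22805853512,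 nat_lit 23670840116, nat_lit 20118460270, nat_lit 20458484287, nat_lit 21076371055, nat_lit 21661955809], nat_lit 1271250, nat_lit 1271250, nat_lit 1271250, nat_lit 1271250, nat_lit 0, nat_lit 2118750, [nat_lit 490000, nat_lit 1100000, nat_lit 2127500], [nat_lit 27, nat_lit 40, nat_lit 40, nat_lit 80, nat_lit 13, nat_lit 401, nat_lit 175, nat_lit 11]⟩,
 ⟨nat_lit 3162, nat_lit 3873, ⟨.ofNat (nat_lit 695141), .ofNat (nat_lit 824248), .ofNat (nat_lit 716905), .ofNat (nat_lit 846013), .ofNat (nat_lit 693742), .ofNat (nat_lit 815713), .ofNat (nat_lit 715869), .ofNat (nat_lit 837840)⟩, ⟨.ofNat (nat_lit 304717), .ofNat (nat_lit 491830), .ofNat (nat_lit 348304), .ofNat (nat_lit 535416), .ofNat (nat_lit 306116), .ofNat (nat_lit 482881), .ofNat (nat_lit 350426), .ofNat (nat_lit 527190)⟩⟩, [⟨nat_lit 4, nat_lit 100, nat_lit 67, nat_lit 88, nat_lit 490730169⟩, ⟨nat_lit 7, nat_lit 100, nat_lit 81, nat_lit 92, nat_lit 123622496⟩]⟩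
noncomputable def p101_l54 : Lf2 := ⟨nat_lit 0, nat_lit 20, [nat_lit 5, nat_lit 5, nat_lit 5, nat_lit 20], false, nat_lit 160, nat_lit 300, nat_lit 16, nat_lit 300, ⟨nat_lit 1000, nat_lit 0, nat_lit 0, nat_lit 0, nat_lit 0, nat_lit 0, nat_lit 0, nat_lit 0, nat_lit 0, nat_lit 0, nat_lit 0, nat_lit 0, nat_lit 0, nat_lit 0, nat_lit 0, nat_lit 0, false, false⟩,
 nat_lit 0, nat_lit 0, nat_lit 8011, nat_lit 0, nat_lit 5500, nat_lit 6008, nat_lit 689, nat_lit 0, nat_lit 0, nat_lit 569, nat_lit 0, nat_lit 0, nat_lit 0, nat_lit 0, nat_lit 0, nat_lit 0, nat_lit 0, nat_lit 0, [],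
 ⟨p101_k14, nat_lit 0, nat_lit 0, nat_lit 92, nat_lit 0, nat_lit 0, [nat_lit 2032000001, nat_lit 4688000000, nat_lit 9842000000], [], [nat_lit 26840631125, nat_lit 27842147125, nat_lit 31037625125, nat_lit 31947822000, nat_lit 29562151125, nat_lit 30385693250, nat_lit 33640950000, nat_lit 34495970250], nat_lit 0, nat_lit 0, nat_lit 0, nat_lit 0, nat_lit 0, nat_lit 0, [], [nat_lit 27, nat_lit 40, nat_lit 40, nat_lit 80, nat_lit 13, nat_lit 289, nat_lit 75, nat_lit 7]⟩, ⟨p101_k14, nat_lit 0, nat_lit 0, nat_lit 509, nat_lit 0, nat_lit 788534, [nat_lit 2032000000, nat_lit 4688000000, nat_lit 9842000000], [], [nat_lit 35232242183, nat_lit 35855065470, nat_lit 37874895918, nat_lit 38367910308, nat_lit 33746274877, nat_lit 34140930005, nat_lit 35787213416, nat_lit 36184176236], nat_lit 1271250, nat_lit 1271250, nat_lit 1271250, nat_lit 1271250, nat_lit 88400, nat_lit 2136750, [nat_lit 490000, nat_lit 1100000, nat_lit 2127500],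 [nat_lit 27, nat_lit 40, nat_lit 40, nat_lit 80, nat_lit 13, nat_lit 289, nat_lit 75, nat_lit 7]⟩,
 zbF0, [⟨nat_lit 16, nat_lit 81, nat_lit 100, nat_lit 92, nat_lit 416837460⟩, ⟨nat_lit 7, nat_lit 100, nat_lit 81, nat_lit 92, nat_lit 196066713⟩]⟩
noncomputable def p101_l55 : Lf2 := ⟨nat_lit 0, nat_lit 20, [nat_lit 5, nat_lit 5, nat_lit 5, nat_lit 20], false, nat_lit 160, nat_lit 276, nat_lit 16, nat_lit 300, ⟨nat_lit 1000, nat_lit 0, nat_lit 0, nat_lit 0, nat_lit 0, nat_lit 0, nat_lit 0, nat_lit 0, nat_lit 0, nat_lit 0, nat_lit 0, nat_lit 0, nat_lit 0, nat_lit 0, nat_lit 0, nat_lit 0, false, false⟩,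
 nat_lit 0, nat_lit 0, nat_lit 8095, nat_lit 0, nat_lit 4153, nat_lit 6071, nat_lit 704, nat_lit 0, nat_lit 0, nat_lit 573, nat_lit 0, nat_lit 0, nat_lit 0, nat_lit 0, nat_lit 0, nat_lit 0, nat_lit 0, nat_lit 0, [],
 ⟨p101_k16, nat_lit 0, nat_lit 0, nat_lit 105, nat_lit 0, nat_lit 0, [nat_lit 2032000001, nat_lit 4688000000, nat_lit 7968000000], [], [nat_lit 26211613993, nat_lit 27127436481, nat_lit 30116505456, nat_lit 31123949080, nat_lit 28434340297, nat_lit 29329562088, nat_lit 32184505201, nat_lit 33003351466], nat_lit 0, nat_lit 0, nat_lit 0, nat_lit 0, nat_lit 0, nat_lit 0, [], [nat_lit 34, nat_lit 40, nat_lit 40, nat_lit 80, nat_lit 7, nat_lit 289, nat_lit 75, nat_lit 8]⟩, ⟨p101_k14, nat_lit 0, nat_lit 0, nat_lit 575, nat_lit 0, nat_lit 906018, [nat_lit 2032000000, nat_lit 4688000000, nat_lit 9842000000], [], [nat_lit 34959728437, nat_lit 35272145270, nat_lit 37611864730, nat_lit 37858833362, nat_lit 33411122549,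 nat_lit 33608562836, nat_lit 35512308317, nat_lit 35710895331], nat_lit 1271250, nat_lit 1271250, nat_lit 1271250, nat_lit 1271250, nat_lit 88400, nat_lit 2136750, [nat_lit 490000, nat_lit 1100000, nat_lit 2127500], [nat_lit 27, nat_lit 40, nat_lit 40, nat_lit 80, nat_lit 13, nat_lit 289, nat_lit 75, nat_lit 7]⟩,
 zbF0, [⟨nat_lit 16, nat_lit 67, nat_lit 100, nat_lit 88, nat_lit 523435267⟩, ⟨nat_lit 7, nat_lit 100, nat_lit 84, nat_lit 93, nat_lit 187825303⟩]⟩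
noncomputable def p101_l56 : Lf2 := ⟨nat_lit 0, nat_lit 20, [nat_lit 5, nat_lit 5, nat_lit 5, nat_lit 20], false, nat_lit 160, nat_lit 276, nat_lit 16, nat_lit 288, ⟨nat_lit 1000, nat_lit 0, nat_lit 0, nat_lit 0, nat_lit 0, nat_lit 0, nat_lit 0, nat_lit 0, nat_lit 0, nat_lit 0, nat_lit 0, nat_lit 0, nat_lit 0, nat_lit 0, nat_lit 0, nat_lit 0, false, false⟩,
 nat_lit 0, nat_lit 0, nat_lit 7247, nat_lit 0, nat_lit 4083, nat_lit 5648, nat_lit 686, nat_lit 0, nat_lit 0, nat_lit 599, nat_lit 0, nat_lit 0, nat_lit 0, nat_lit 0, nat_lit 0, nat_lit 0, nat_lit 0, nat_lit 0, [],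
 ⟨p101_k16, nat_lit 0, nat_lit 0, nat_lit 105, nat_lit 0, nat_lit 0, [nat_lit 2032000001, nat_lit 4688000000, nat_lit 7968000000], [], [nat_lit 26457071513, nat_lit 27366685281, nat_lit 30150857526, nat_lit 31021863880, nat_lit 28667233180, nat_lit 29411206326, nat_lit 32099620044, nat_lit 32913842116], nat_lit 0, nat_lit 0, nat_lit 0, nat_lit 0, nat_lit 0, nat_lit 0, [], [nat_lit 34, nat_lit 40, nat_lit 40, nat_lit 80, nat_lit 7, nat_lit 289, nat_lit 75, nat_lit 8]⟩, ⟨p101_k15, nat_lit 0, nat_lit 0, nat_lit 581, nat_lit 0, nat_lit 928108, [nat_lit 2032000000, nat_lit 4688000000, nat_lit 9842000000], [], [nat_lit 33045728165, nat_lit 33351395865, nat_lit 36736332058, nat_lit 37389558132, nat_lit 31654473812, nat_lit 31861826011, nat_lit 33892295626, nat_lit 34337618215], nat_lit 1271250, nat_lit 1271250, nat_lit 1271250, nat_lit 1271250, nat_lit 88400, nat_lit 2050200, [nat_lit 490000, nat_lit 1100000, nat_lit 2127500],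 [nat_lit 27, nat_lit 40, nat_lit 40, nat_lit 80, nat_lit 13, nat_lit 289, nat_lit 75, nat_lit 7]⟩,
 zbF0, [⟨nat_lit 4, nat_lit 100, nat_lit 67, nat_lit 88, nat_lit 504946786⟩, ⟨nat_lit 7, nat_lit 100, nat_lit 77, nat_lit 91, nat_lit 179066542⟩]⟩
noncomputable def b_V_800_800_20_19 : St := ⟨true, nat_lit 0, nat_lit 2, nat_lit 1, nat_lit 120, nat_lit 320, nat_lit 360, nat_lit 320, nat_lit 340, nat_lit 140, nat_lit 400, nat_lit 80, nat_lit 120, nat_lit 0, nat_lit 300, nat_lit 0, nat_lit 300, nat_lit 40, nat_lit 80, nat_lit 0, nat_lit 0, nat_lit 0, nat_lit 0⟩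
theorem d_V_800_800_20_19 (h : EB TB.env) : Dead b_V_800_800_20_19 := chkB_sound0 h (T :=
(.st (nat_lit 1)
(.spl (nat_lit 2) (nat_lit 240)
(.leaf p101_l41)
(.leaf p101_l42))
(.spl (nat_lit 2) (nat_lit 240)
(.spl (nat_lit 4) (nat_lit 160)
(.spl (nat_lit 5) (nat_lit 160)
(.leaf p101_l43)
(.leaf p101_l44))
(.spl (nat_lit 0) (nat_lit 340)
(.spl (nat_lit 0) (nat_lit 330)
(.ord (.leaf p101_l45))
(.trZ (nat_lit 0) (nat_lit 82) (nat_lit 78) (nat_lit 100) (nat_lit 156) (.trX (nat_lit 16) (nat_lit 83) (nat_lit 98) (nat_lit 100) (nat_lit 288) (.leaf p101_l46))))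
(.trZ (nat_lit 0) (nat_lit 81) (nat_lit 72) (nat_lit 100) (nat_lit 168) (.trX (nat_lit 16) (nat_lit 77) (nat_lit 100) (nat_lit 99) (nat_lit 276) (.spl (nat_lit 1) (nat_lit 330)
(.leaf p101_l47)
(.trZ (nat_lit 0) (nat_lit 76) (nat_lit 72) (nat_lit 100) (nat_lit 180) (.trX (nat_lit 19) (nat_lit 83) (nat_lit 98) (nat_lit 100) (nat_lit 288) (.leaf p101_l48))))))))
(.spl (nat_lit 4) (nat_lit 160)
(.spl (nat_lit 0) (nat_lit 340)
(.leaf p101_l49)
(.spl (nat_lit 1) (nat_lit 330)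
(.leaf p101_l50)
(.trX (nat_lit 19) (nat_lit 83) (nat_lit 98) (nat_lit 100) (nat_lit 288) (.leaf p101_l51))))
(.spl (nat_lit 2) (nat_lit 320)
(.spl (nat_lit 0) (nat_lit 340)
(.leaf p101_l52)
(.trX (nat_lit 16) (nat_lit 77) (nat_lit 100) (nat_lit 99) (nat_lit 276) (.leaf p101_l53)))
(.trZ (nat_lit 9) (nat_lit 100) (nat_lit 82) (nat_lit 44) (nat_lit 16) (.spl (nat_lit 0) (nat_lit 340)
(.leaf p101_l54)
(.trX (nat_lit 16) (nat_lit 77) (nat_lit 100) (nat_lit 99) (nat_lit 276) (.spl (nat_lit 1) (nat_lit 330)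
(.leaf p101_l55)
(.trX (nat_lit 19) (nat_lit 83) (nat_lit 98) (nat_lit 100) (nat_lit 288) (.leaf p101_l56))))))))))) (by decide +kernel)
noncomputable def p101_l57 : Lf2 := ⟨nat_lit 0, nat_lit 20, [nat_lit 5, nat_lit 5, nat_lit 5, nat_lit 20], false, nat_lit 0, nat_lit 300, nat_lit 0, nat_lit 300, ⟨nat_lit 1000, nat_lit 0, nat_lit 0, nat_lit 0, nat_lit 0, nat_lit 0, nat_lit 0, nat_lit 0, nat_lit 0, nat_lit 0, nat_lit 0, nat_lit 0, nat_lit 0, nat_lit 0, nat_lit 0, nat_lit 0, false, false⟩,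
 nat_lit 0, nat_lit 0, nat_lit 0, nat_lit 0, nat_lit 8867, nat_lit 9318, nat_lit 434, nat_lit 0, nat_lit 0, nat_lit 459, nat_lit 0, nat_lit 0, nat_lit 0, nat_lit 0, nat_lit 0, nat_lit 0, nat_lit 0, nat_lit 0, [],
 ⟨p101_k14, nat_lit 0, nat_lit 0, nat_lit 215, nat_lit 0, nat_lit 0, [nat_lit 2032000001, nat_lit 4688000000, nat_lit 9842000000], [], [nat_lit 28705431508, nat_lit 33377379750, nat_lit 46081630452, nat_lit 49473007164, nat_lit 26771328860, nat_lit 29579874664, nat_lit 37581074006, nat_lit 39685339701], nat_lit 0, nat_lit 0, nat_lit 0, nat_lit 0, nat_lit 0, nat_lit 0, [], [nat_lit 27, nat_lit 40, nat_lit 40, nat_lit 80, nat_lit 13, nat_lit 401, nat_lit 175, nat_lit 11]⟩, ⟨p101_k14, nat_lit 0, nat_lit 0, nat_lit 212, nat_lit 0, nat_lit 0, [nat_lit 2032000000, nat_lit 4688000000, nat_lit 9842000000], [], [nat_lit 28647353307, nat_lit 31066114341, nat_lit 47343418408, nat_lit 49092445632, nat_lit 26281849315,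 nat_lit 27728766635, nat_lit 38108842324, nat_lit 39187377839], nat_lit 0, nat_lit 0, nat_lit 0, nat_lit 0, nat_lit 0, nat_lit 0, [], [nat_lit 27, nat_lit 40, nat_lit 40, nat_lit 80, nat_lit 13, nat_lit 401, nat_lit 175, nat_lit 11]⟩,
 zbF0, [⟨nat_lit 16, nat_lit 74, nat_lit 100, nat_lit 90, nat_lit 26241341⟩, ⟨nat_lit 7, nat_lit 100, nat_lit 81, nat_lit 92, nat_lit 20825938⟩]⟩
noncomputable def p101_l58 : Lf2 := ⟨nat_lit 0, nat_lit 20, [nat_lit 5, nat_lit 5, nat_lit 5, nat_lit 20], false, nat_lit 0, nat_lit 160, nat_lit 0, nat_lit 160, ⟨nat_lit 455, nat_lit 545, nat_lit 0, nat_lit 8, nat_lit 302, nat_lit 545, nat_lit 65, nat_lit 0, nat_lit 0, nat_lit 0, nat_lit 0, nat_lit 0, nat_lit 0, nat_lit 0, nat_lit 0, nat_lit 5000000, true, false⟩,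
 nat_lit 0, nat_lit 0, nat_lit 3420, nat_lit 0, nat_lit 4226, nat_lit 2564, nat_lit 317, nat_lit 0, nat_lit 0, nat_lit 306, nat_lit 0, nat_lit 0, nat_lit 0, nat_lit 0, nat_lit 0, nat_lit 218000, nat_lit 0, nat_lit 0, [(nat_lit 19, [(nat_lit 1, nat_lit 545)]), (nat_lit 22, [(nat_lit 1, nat_lit 545)])],
 ⟨p101_k14, nat_lit 0, nat_lit 0, nat_lit 215, nat_lit 0, nat_lit 0, [nat_lit 1686542667, nat_lit 3243532000, nat_lit 5476550000], [], [nat_lit 24937905353, nat_lit 27469783637, nat_lit 33874026049, nat_lit 35390857992, nat_lit 23737964236, nat_lit 25764459076, nat_lit 31305591817, nat_lit 32560960489], nat_lit 0, nat_lit 0, nat_lit 0, nat_lit 0, nat_lit 0, nat_lit 0, [], [nat_lit 27, nat_lit 40, nat_lit 40, nat_lit 80, nat_lit 13, nat_lit 373, nat_lit 150, nat_lit 11]⟩, ⟨p101_k14, nat_lit 0, nat_lit 0, nat_lit 641, nat_lit 0, nat_lit 979891, [nat_lit 924560000, nat_lit 2133040000, nat_lit 4478110000], [], [nat_lit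 17441440252, nat_lit 16541555962, nat_lit 18638838172, nat_lit 18877306692, nat_lit 15332778164, nat_lit 15594308803, nat_lit 18716558842, nat_lit 17616598634], nat_lit 1271250, nat_lit 1271250, nat_lit 936251, nat_lit 3113750, nat_lit 0, nat_lit 1100001, [nat_lit 490000, nat_lit 1100000, nat_lit 2127500], [nat_lit 27, nat_lit 40, nat_lit 40, nat_lit 80, nat_lit 13, nat_lit 373, nat_lit 150, nat_lit 11]⟩,
 ⟨nat_lit 3162, nat_lit 4473, ⟨.ofNat (nat_lit 526772), .ofNat (nat_lit 969090), .ofNat (nat_lit 548248), .ofNat (nat_lit 990589), .ofNat (nat_lit 540839), .ofNat (nat_lit 937496), .ofNat (nat_lit 562904), .ofNat (nat_lit 959584)⟩, ⟨.ofNat (nat_lit 0), .ofNat (nat_lit 302621), .ofNat (nat_lit 0), .ofNat (nat_lit 345754), .ofNat (nat_lit 0), .ofNat (nat_lit 306116), .ofNat (nat_lit 0), .ofNat (nat_lit 350426)⟩⟩, []⟩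
noncomputable def p101_l59 : Lf2 := ⟨nat_lit 0, nat_lit 20, [nat_lit 5, nat_lit 5, nat_lit 5, nat_lit 20], false, nat_lit 0, nat_lit 160, nat_lit 160, nat_lit 300, ⟨nat_lit 520, nat_lit 480, nat_lit 0, nat_lit 8, nat_lit 303, nat_lit 480, nat_lit 65, nat_lit 0, nat_lit 0, nat_lit 0, nat_lit 0, nat_lit 0, nat_lit 0, nat_lit 0, nat_lit 0, nat_lit 5000000, true, false⟩,
 nat_lit 0, nat_lit 0, nat_lit 4355, nat_lit 0, nat_lit 4471, nat_lit 3266, nat_lit 388, nat_lit 0, nat_lit 0, nat_lit 308, nat_lit 0, nat_lit 0, nat_lit 0, nat_lit 0, nat_lit 0, nat_lit 192000, nat_lit 0, nat_lit 0, [(nat_lit 19, [(nat_lit 1, nat_lit 480)])],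
 ⟨p101_k14, nat_lit 0, nat_lit 0, nat_lit 212, nat_lit 0, nat_lit 0, [nat_lit 1727744001, nat_lit 3415808000, nat_lit 5997200000], [], [nat_lit 24746473088, nat_lit 26048566145, nat_lit 33841126900, nat_lit 34958477304, nat_lit 23183511725, nat_lit 24250684177, nat_lit 30955660232, nat_lit 31592589888], nat_lit 0, nat_lit 0, nat_lit 0, nat_lit 0, nat_lit 0, nat_lit 0, [], [nat_lit 27, nat_lit 40, nat_lit 40, nat_lit 80, nat_lit 13, nat_lit 373, nat_lit 150, nat_lit 11]⟩, ⟨p101_k14, nat_lit 0, nat_lit 0, nat_lit 457, nat_lit 0, nat_lit 788534, [nat_lit 1056640000, nat_lit 2437760000, nat_lit 5117840000], [], [nat_lit 13911045472, nat_lit 14389962792, nat_lit 16916616932, nat_lit 17178344744, nat_lit 16087377231, nat_lit 15645411970, nat_lit 17968402508, nat_lit 18436781293], nat_lit 1271250, nat_lit 1271250, nat_lit 1271250, nat_lit 1271250, nat_lit 1100001, nat_lit 2298750, [nat_lit 490000, nat_lit 1100000, nat_lit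 2127500], [nat_lit 27, nat_lit 40, nat_lit 40, nat_lit 80, nat_lit 13, nat_lit 401, nat_lit 175, nat_lit 11]⟩,
 ⟨nat_lit 3872, nat_lit 4473, ⟨.ofNat (nat_lit 527314), .ofNat (nat_lit 969223), .ofNat (nat_lit 548863), .ofNat (nat_lit 990771), .ofNat (nat_lit 533860), .ofNat (nat_lit 953301), .ofNat (nat_lit 555635), .ofNat (nat_lit 975076)⟩, ⟨.ofNat (nat_lit 0), .ofNat (nat_lit 302621), .ofNat (nat_lit 0), .ofNat (nat_lit 345754), .ofNat (nat_lit 0), .ofNat (nat_lit 304717), .ofNat (nat_lit 0), .ofNat (nat_lit 348304)⟩⟩, [⟨nat_lit 7, nat_lit 100, nat_lit 81, nat_lit 92, nat_lit 213525054⟩]⟩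
noncomputable def p101_l60 : Lf2 := ⟨nat_lit 0, nat_lit 20, [nat_lit 5, nat_lit 5, nat_lit 5, nat_lit 20], false, nat_lit 0, nat_lit 160, nat_lit 160, nat_lit 300, ⟨nat_lit 499, nat_lit 501, nat_lit 0, nat_lit 8, nat_lit 310, nat_lit 501, nat_lit 65, nat_lit 0, nat_lit 0, nat_lit 0, nat_lit 0, nat_lit 0, nat_lit 0, nat_lit 0, nat_lit 0, nat_lit 5000000, true, false⟩,
 nat_lit 0, nat_lit 0, nat_lit 4128, nat_lit 0, nat_lit 3632, nat_lit 3096, nat_lit 102, nat_lit 0, nat_lit 0, nat_lit 285, nat_lit 0, nat_lit 0, nat_lit 0, nat_lit 0, nat_lit 0, nat_lit 501000, nat_lit 0, nat_lit 0, [(nat_lit 22, [(nat_lit 2, nat_lit 501)])],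
 ⟨p101_k16, nat_lit 0, nat_lit 0, nat_lit 196, nat_lit 0, nat_lit 0, [nat_lit 1712696001, nat_lit 2336506400, nat_lit 2036961600], [], [nat_lit 23332034824, nat_lit 24492462884, nat_lit 32511933168, nat_lit 33588488544, nat_lit 22839144343, nat_lit 23826846679, nat_lit 29832373031, nat_lit 30487685901], nat_lit 0, nat_lit 0, nat_lit 0, nat_lit 0, nat_lit 0, nat_lit 0, [], [nat_lit 34, nat_lit 40, nat_lit 40, nat_lit 80, nat_lit 7, nat_lit 373, nat_lit 150, nat_lit 12]⟩, ⟨p101_k14, nat_lit 0, nat_lit 0, nat_lit 536, nat_lit 0, nat_lit 979891, [nat_lit 1013968000, nat_lit 2339312000, nat_lit 4911158000], [], [nat_lit 14671797183, nat_lit 15036989611, nat_lit 16981982913, nat_lit 17195654492, nat_lit 15651286328, nat_lit 15926786522, nat_lit 17430154432, nat_lit 17645398471], nat_lit 1271250, nat_lit 1271250, nat_lit 1271250, nat_lit 1271250, nat_lit 1100001, nat_lit 2298750, [nat_lit 490000, nat_lit 1100000, nat_lit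 2127500], [nat_lit 27, nat_lit 40, nat_lit 40, nat_lit 80, nat_lit 13, nat_lit 401, nat_lit 175, nat_lit 11]⟩,
 ⟨nat_lit 3162, nat_lit 3873, ⟨.ofNat (nat_lit 578944), .ofNat (nat_lit 953347), .ofNat (nat_lit 600708), .ofNat (nat_lit 975119), .ofNat (nat_lit 583969), .ofNat (nat_lit 937676), .ofNat (nat_lit 606094), .ofNat (nat_lit 959810)⟩, ⟨.ofNat (nat_lit 0), .ofNat (nat_lit 304717), .ofNat (nat_lit 0), .ofNat (nat_lit 348304), .ofNat (nat_lit 0), .ofNat (nat_lit 306116), .ofNat (nat_lit 0), .ofNat (nat_lit 350426)⟩⟩, [⟨nat_lit 7, nat_lit 100, nat_lit 81, nat_lit 92, nat_lit 164204539⟩, ⟨nat_lit 10, nat_lit 100, nat_lit 72, nat_lit 81, nat_lit 4870933⟩]⟩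
noncomputable def p101_l61 : Lf2 := ⟨nat_lit 0, nat_lit 20, [nat_lit 5, nat_lit 5, nat_lit 5, nat_lit 20], true, nat_lit 160, nat_lit 300, nat_lit 0, nat_lit 300, ⟨nat_lit 0, nat_lit 1000, nat_lit 0, nat_lit 8, nat_lit 250, nat_lit 1000, nat_lit 176, nat_lit 0, nat_lit 0, nat_lit 0, nat_lit 0, nat_lit 0, nat_lit 0, nat_lit 0, nat_lit 0, nat_lit 5000000, false, false⟩,
 nat_lit 0, nat_lit 0, nat_lit 0, nat_lit 0, nat_lit 4329, nat_lit 0, nat_lit 0, nat_lit 0, nat_lit 0, nat_lit 0, nat_lit 0, nat_lit 0, nat_lit 0, nat_lit 12907192489016, nat_lit 0, nat_lit 250000, nat_lit 0, nat_lit 0, [(nat_lit 19, [(nat_lit 0, nat_lit 1000)]), (nat_lit 22, [(nat_lit 0, nat_lit 1000)])],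
 ⟨p101_k14, nat_lit 0, nat_lit 0, nat_lit 60, nat_lit 0, nat_lit 0, [nat_lit 1568000001, nat_lit 2368400000, nat_lit 3220880000], [], [nat_lit 17050106884, nat_lit 20302501506, nat_lit 20095050272, nat_lit 22814722448, nat_lit 22802454470, nat_lit 25432713072, nat_lit 24817341995, nat_lit 27216009792], nat_lit 0, nat_lit 0, nat_lit 0, nat_lit 0, nat_lit 0, nat_lit 0, [], [nat_lit 27, nat_lit 40, nat_lit 40, nat_lit 80, nat_lit 13, nat_lit 373, nat_lit 150, nat_lit 10]⟩, C1.Rw.none,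
 ⟨nat_lit 3162, nat_lit 4473, ⟨.ofNat (nat_lit 526772), .ofNat (nat_lit 696911), .ofNat (nat_lit 548248), .ofNat (nat_lit 718387), .ofNat (nat_lit 540839), .ofNat (nat_lit 693416), .ofNat (nat_lit 562904), .ofNat (nat_lit 715481)⟩, ⟨.ofNat (nat_lit 302621), .ofNat (nat_lit 540545), .ofNat (nat_lit 345754), .ofNat (nat_lit 583678), .ofNat (nat_lit 306116), .ofNat (nat_lit 519453), .ofNat (nat_lit 350426), .ofNat (nat_lit 563762)⟩⟩, [⟨nat_lit 16, nat_lit 87, nat_lit 95, nat_lit 100, nat_lit 263820527⟩, ⟨nat_lit 4, nat_lit 100, nat_lit 74, nat_lit 90, nat_lit 41081588⟩]⟩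
noncomputable def p101_l62 : Lf2 := ⟨nat_lit 0, nat_lit 20, [nat_lit 5, nat_lit 5, nat_lit 5, nat_lit 20], false, nat_lit 160, nat_lit 300, nat_lit 0, nat_lit 300, ⟨nat_lit 840, nat_lit 160, nat_lit 0, nat_lit 8, nat_lit 334, nat_lit 160, nat_lit 177, nat_lit 0, nat_lit 0, nat_lit 0, nat_lit 0, nat_lit 0, nat_lit 0, nat_lit 0, nat_lit 0, nat_lit 5000000, true, true⟩,
 nat_lit 0, nat_lit 0, nat_lit 6878, nat_lit 0, nat_lit 5136, nat_lit 5158, nat_lit 668, nat_lit 0, nat_lit 0, nat_lit 541, nat_lit 0, nat_lit 0, nat_lit 0, nat_lit 0, nat_lit 0, nat_lit 64000, nat_lit 0, nat_lit 0, [(nat_lit 19, [(nat_lit 1, nat_lit 160)])],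
 ⟨p101_k14, nat_lit 0, nat_lit 0, nat_lit 92, nat_lit 0, nat_lit 0, [nat_lit 1930581334, nat_lit 4263936000, nat_lit 8560400000], [], [nat_lit 22771919756, nat_lit 23944877916, nat_lit 30494388896, nat_lit 31453995952, nat_lit 26397883676, nat_lit 27286085892, nat_lit 33214990648, nat_lit 34048701428], nat_lit 0, nat_lit 0, nat_lit 0, nat_lit 0, nat_lit 0, nat_lit 0, [], [nat_lit 27, nat_lit 40, nat_lit 40, nat_lit 80, nat_lit 13, nat_lit 401, nat_lit 175, nat_lit 10]⟩, ⟨p101_k14, nat_lit 0, nat_lit 0, nat_lit 490, nat_lit 0, nat_lit 709084, [nat_lit 1706880000, nat_lit 3937920000, nat_lit 8267280000], [], [nat_lit 25848882393, nat_lit 26231982857, nat_lit 32300924968, nat_lit 32877680660, nat_lit 25059213077, nat_lit 25300968934, nat_lit 28887975284, nat_lit 29262831722], nat_lit 1271250, nat_lit 1271250, nat_lit 1271250, nat_lit 1271250, nat_lit 0, nat_lit 2118750, [nat_lit 490000, nat_lit 1100000, nat_lit 2127500],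 [nat_lit 27, nat_lit 40, nat_lit 40, nat_lit 80, nat_lit 13, nat_lit 401, nat_lit 175, nat_lit 11]⟩,
 ⟨nat_lit 3872, nat_lit 4473, ⟨.ofNat (nat_lit 697279), .ofNat (nat_lit 969223), .ofNat (nat_lit 708054), .ofNat (nat_lit 979997), .ofNat (nat_lit 695183), .ofNat (nat_lit 953301), .ofNat (nat_lit 706071), .ofNat (nat_lit 964188)⟩, ⟨.ofNat (nat_lit 302621), .ofNat (nat_lit 540545), .ofNat (nat_lit 345754), .ofNat (nat_lit 583678), .ofNat (nat_lit 304717), .ofNat (nat_lit 530543), .ofNat (nat_lit 348304), .ofNat (nat_lit 574129)⟩⟩, [⟨nat_lit 4, nat_lit 100, nat_lit 81, nat_lit 92, nat_lit 392281773⟩, ⟨nat_lit 19, nat_lit 87, nat_lit 95, nat_lit 100, nat_lit 105151498⟩]⟩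
noncomputable def p101_l63 : Lf2 := ⟨nat_lit 0, nat_lit 20, [nat_lit 5, nat_lit 5, nat_lit 5, nat_lit 20], false, nat_lit 160, nat_lit 288, nat_lit 0, nat_lit 288, ⟨nat_lit 1000, nat_lit 0, nat_lit 0, nat_lit 0, nat_lit 0, nat_lit 0, nat_lit 0, nat_lit 0, nat_lit 0, nat_lit 0, nat_lit 0, nat_lit 0, nat_lit 0, nat_lit 0, nat_lit 0, nat_lit 0, false, false⟩,
 nat_lit 0, nat_lit 0, nat_lit 7453, nat_lit 0, nat_lit 4968, nat_lit 5809, nat_lit 789, nat_lit 0, nat_lit 0, nat_lit 723, nat_lit 0, nat_lit 0, nat_lit 0, nat_lit 0, nat_lit 0, nat_lit 0, nat_lit 0, nat_lit 0, [],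
 ⟨p101_k15, nat_lit 0, nat_lit 0, nat_lit 92, nat_lit 0, nat_lit 0, [nat_lit 2032000001, nat_lit 4688000000, nat_lit 9842000000], [], [nat_lit 22806588068, nat_lit 23383549108, nat_lit 30680554264, nat_lit 31224540336, nat_lit 25891014872, nat_lit 26340839873, nat_lit 33083400130, nat_lit 33507540311], nat_lit 0, nat_lit 0, nat_lit 0, nat_lit 0, nat_lit 0, nat_lit 0, [], [nat_lit 27, nat_lit 40, nat_lit 40, nat_lit 80, nat_lit 13, nat_lit 401, nat_lit 175, nat_lit 10]⟩, ⟨p101_k15, nat_lit 0, nat_lit 0, nat_lit 502, nat_lit 0, nat_lit 746999, [nat_lit 2032000000, nat_lit 4688000000, nat_lit 9842000000], [], [nat_lit 29040688759, nat_lit 29414763622, nat_lit 38193105010, nat_lit 38860117416, nat_lit 28573065693, nat_lit 28880911032, nat_lit 34083813530, nat_lit 34534151366], nat_lit 1271250, nat_lit 1271250, nat_lit 1271250, nat_lit 1271250, nat_lit 0, nat_lit 2034000, [nat_lit 490000, nat_lit 1100000, nat_lit 2127500],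 [nat_lit 27, nat_lit 40, nat_lit 40, nat_lit 80, nat_lit 13, nat_lit 401, nat_lit 175, nat_lit 11]⟩,
 zbF0, [⟨nat_lit 4, nat_lit 100, nat_lit 77, nat_lit 91, nat_lit 436531976⟩, ⟨nat_lit 7, nat_lit 100, nat_lit 77, nat_lit 91, nat_lit 146389129⟩]⟩
noncomputable def p101_l64 : Lf2 := ⟨nat_lit 0, nat_lit 20, [nat_lit 5, nat_lit 5, nat_lit 5, nat_lit 20], false, nat_lit 160, nat_lit 276, nat_lit 0, nat_lit 300, ⟨nat_lit 745, nat_lit 255, nat_lit 0, nat_lit 8, nat_lit 334, nat_lit 255, nat_lit 168, nat_lit 0, nat_lit 0, nat_lit 0, nat_lit 0, nat_lit 0, nat_lit 0, nat_lit 0, nat_lit 0, nat_lit 5000000, true, false⟩,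
 nat_lit 0, nat_lit 0, nat_lit 6156, nat_lit 0, nat_lit 3694, nat_lit 4617, nat_lit 620, nat_lit 0, nat_lit 0, nat_lit 450, nat_lit 0, nat_lit 0, nat_lit 0, nat_lit 0, nat_lit 0, nat_lit 102000, nat_lit 0, nat_lit 0, [(nat_lit 22, [(nat_lit 1, nat_lit 255)])],
 ⟨p101_k16, nat_lit 0, nat_lit 0, nat_lit 93, nat_lit 0, nat_lit 0, [nat_lit 1860232000, nat_lit 3889034000, nat_lit 6291834000], [], [nat_lit 22828987992, nat_lit 23087665820, nat_lit 29532960304, nat_lit 29734499345, nat_lit 25617280040, nat_lit 25832497199, nat_lit 31627901100, nat_lit 31825032293], nat_lit 0, nat_lit 0, nat_lit 0, nat_lit 0, nat_lit 0, nat_lit 0, [], [nat_lit 34, nat_lit 40, nat_lit 40, nat_lit 80, nat_lit 7, nat_lit 289, nat_lit 75, nat_lit 8]⟩, ⟨p101_k14, nat_lit 0, nat_lit 0, nat_lit 569, nat_lit 0, nat_lit 834635, [nat_lit 1513840000, nat_lit 3492560000, nat_lit 7332290000], [], [nat_lit 24359806498, nat_lit 24931531126, nat_lit 28766315812,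 nat_lit 29794378638, nat_lit 23392657620, nat_lit 23751193325, nat_lit 26046035659, nat_lit 26342245797], nat_lit 1271250, nat_lit 1271250, nat_lit 1271250, nat_lit 1271250, nat_lit 0, nat_lit 2118750, [nat_lit 490000, nat_lit 1100000, nat_lit 2127500], [nat_lit 27, nat_lit 40, nat_lit 40, nat_lit 80, nat_lit 13, nat_lit 401, nat_lit 175, nat_lit 11]⟩,
 ⟨nat_lit 3708, nat_lit 3873, ⟨.ofNat (nat_lit 695273), .ofNat (nat_lit 953364), .ofNat (nat_lit 717065), .ofNat (nat_lit 975156), .ofNat (nat_lit 694848), .ofNat (nat_lit 949436), .ofNat (nat_lit 716715), .ofNat (nat_lit 971303)⟩, ⟨.ofNat (nat_lit 304717), .ofNat (nat_lit 491830), .ofNat (nat_lit 348304), .ofNat (nat_lit 535416), .ofNat (nat_lit 305143), .ofNat (nat_lit 489716), .ofNat (nat_lit 348879), .ofNat (nat_lit 533452)⟩⟩, [⟨nat_lit 16, nat_lit 72, nat_lit 100, nat_lit 89, nat_lit 99609812⟩, ⟨nat_lit 16, nat_lit 77, nat_lit 100, nat_lit 99, nat_lit 274643677⟩,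 ⟨nat_lit 7, nat_lit 100, nat_lit 81, nat_lit 92, nat_lit 103223427⟩]⟩
noncomputable def p101_l65 : Lf2 := ⟨nat_lit 0, nat_lit 20, [nat_lit 5, nat_lit 5, nat_lit 5, nat_lit 20], false, nat_lit 160, nat_lit 272, nat_lit 0, nat_lit 300, ⟨nat_lit 737, nat_lit 263, nat_lit 0, nat_lit 8, nat_lit 333, nat_lit 263, nat_lit 166, nat_lit 0, nat_lit 0, nat_lit 0, nat_lit 0, nat_lit 0, nat_lit 0, nat_lit 0, nat_lit 0, nat_lit 5000000, true, false⟩,
 nat_lit 0, nat_lit 0, nat_lit 6090, nat_lit 0, nat_lit 3470, nat_lit 4567, nat_lit 626, nat_lit 0, nat_lit 0, nat_lit 445, nat_lit 0, nat_lit 0, nat_lit 0, nat_lit 0, nat_lit 0, nat_lit 105200, nat_lit 0, nat_lit 0, [(nat_lit 22, [(nat_lit 1, nat_lit 263)])],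
 ⟨p101_k17, nat_lit 0, nat_lit 0, nat_lit 97, nat_lit 0, nat_lit 0, [nat_lit 1854843201, nat_lit 3863968400, nat_lit 6239248400], [], [nat_lit 22972322951, nat_lit 23224278091, nat_lit 29463797826, nat_lit 29661192531, nat_lit 25589317661, nat_lit 25797927793, nat_lit 31443711978, nat_lit 31638708332], nat_lit 0, nat_lit 0, nat_lit 0, nat_lit 0, nat_lit 0, nat_lit 0, [], [nat_lit 34, nat_lit 40, nat_lit 40, nat_lit 80, nat_lit 7, nat_lit 289, nat_lit 75, nat_lit 8]⟩, ⟨p101_k14, nat_lit 0, nat_lit 0, nat_lit 584, nat_lit 0, nat_lit 881846, [nat_lit 1497584000, nat_lit 3455056000, nat_lit 7253554000], [], [nat_lit 24101430393, nat_lit 24666994785, nat_lit 28456236588, nat_lit 29473209966, nat_lit 23145090339, nat_lit 23499769917, nat_lit 25768185829, nat_lit 26061213774], nat_lit 1271250, nat_lit 1271250, nat_lit 1271250, nat_lit 1271250, nat_lit 0, nat_lit 2118750, [nat_lit 490000, nat_lit 1100000, nat_lit 2127500],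 [nat_lit 27, nat_lit 40, nat_lit 40, nat_lit 80, nat_lit 13, nat_lit 401, nat_lit 175, nat_lit 11]⟩,
 ⟨nat_lit 3535, nat_lit 3709, ⟨.ofNat (nat_lit 694847), .ofNat (nat_lit 949437), .ofNat (nat_lit 716714), .ofNat (nat_lit 971304), .ofNat (nat_lit 694469), .ofNat (nat_lit 945520), .ofNat (nat_lit 716420), .ofNat (nat_lit 967472)⟩, ⟨.ofNat (nat_lit 305143), .ofNat (nat_lit 483351), .ofNat (nat_lit 348879), .ofNat (nat_lit 527088), .ofNat (nat_lit 305521), .ofNat (nat_lit 481253), .ofNat (nat_lit 349427), .ofNat (nat_lit 525159)⟩⟩, [⟨nat_lit 16, nat_lit 73, nat_lit 100, nat_lit 98, nat_lit 205851234⟩, ⟨nat_lit 4, nat_lit 100, nat_lit 69, nat_lit 89, nat_lit 200026892⟩, ⟨nat_lit 7, nat_lit 100, nat_lit 81, nat_lit 92, nat_lit 102109215⟩]⟩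
noncomputable def p101_l66 : Lf2 := ⟨nat_lit 0, nat_lit 20, [nat_lit 5, nat_lit 5, nat_lit 5, nat_lit 20], false, nat_lit 160, nat_lit 264, nat_lit 0, nat_lit 300, ⟨nat_lit 583, nat_lit 417, nat_lit 0, nat_lit 8, nat_lit 329, nat_lit 417, nat_lit 163, nat_lit 0, nat_lit 0, nat_lit 0, nat_lit 0, nat_lit 0, nat_lit 0, nat_lit 0, nat_lit 0, nat_lit 5000000, true, true⟩,
 nat_lit 0, nat_lit 0, nat_lit 4854, nat_lit 0, nat_lit 3256, nat_lit 3640, nat_lit 476, nat_lit 0, nat_lit 0, nat_lit 306, nat_lit 0, nat_lit 0, nat_lit 0, nat_lit 0, nat_lit 0, nat_lit 166800, nat_lit 0, nat_lit 0, [(nat_lit 22, [(nat_lit 1, nat_lit 417)])],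
 ⟨p101_k18, nat_lit 0, nat_lit 0, nat_lit 105, nat_lit 0, nat_lit 0, [nat_lit 1751108800, nat_lit 3381455600, nat_lit 5226975600], [], [nat_lit 23550187652, nat_lit 24041252796, nat_lit 29470288700, nat_lit 29815934464, nat_lit 25888152392, nat_lit 26302502889, nat_lit 31195980652, nat_lit 31554590317], nat_lit 0, nat_lit 0, nat_lit 0, nat_lit 0, nat_lit 0, nat_lit 0, [], [nat_lit 34, nat_lit 40, nat_lit 40, nat_lit 80, nat_lit 7, nat_lit 289, nat_lit 75, nat_lit 8]⟩, ⟨p101_k14, nat_lit 0, nat_lit 0, nat_lit 592, nat_lit 0, nat_lit 906018, [nat_lit 1184656000, nat_lit 2733104000, nat_lit 5737886000], [], [nat_lit 19426324690, nat_lit 19650695263, nat_lit 22586531864, nat_lit 22990381873, nat_lit 18642398156, nat_lit 18782878740, nat_lit 20289503194, nat_lit 20381890843], nat_lit 1271250, nat_lit 1271250, nat_lit 1271250, nat_lit 1271250, nat_lit 0, nat_lit 2118750, [nat_lit 490000, nat_lit 1100000, nat_lit 2127500],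 [nat_lit 27, nat_lit 40, nat_lit 40, nat_lit 80, nat_lit 13, nat_lit 401, nat_lit 175, nat_lit 11]⟩,
 ⟨nat_lit 3162, nat_lit 3536, ⟨.ofNat (nat_lit 694437), .ofNat (nat_lit 945521), .ofNat (nat_lit 705409), .ofNat (nat_lit 956496), .ofNat (nat_lit 693843), .ofNat (nat_lit 937695), .ofNat (nat_lit 704916), .ofNat (nat_lit 948770)⟩, ⟨.ofNat (nat_lit 305521), .ofNat (nat_lit 468701), .ofNat (nat_lit 349427), .ofNat (nat_lit 512606), .ofNat (nat_lit 306116), .ofNat (nat_lit 464594), .ofNat (nat_lit 350426), .ofNat (nat_lit 508904)⟩⟩, [⟨nat_lit 16, nat_lit 69, nat_lit 100, nat_lit 96, nat_lit 372697393⟩, ⟨nat_lit 19, nat_lit 87, nat_lit 95, nat_lit 100, nat_lit 71091892⟩]⟩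
noncomputable def p101_l67 : Lf2 := ⟨nat_lit 0, nat_lit 20, [nat_lit 5, nat_lit 5, nat_lit 5, nat_lit 20], false, nat_lit 160, nat_lit 264, nat_lit 0, nat_lit 288, ⟨nat_lit 880, nat_lit 120, nat_lit 0, nat_lit 8, nat_lit 334, nat_lit 120, nat_lit 163, nat_lit 0, nat_lit 0, nat_lit 0, nat_lit 0, nat_lit 0, nat_lit 0, nat_lit 0, nat_lit 0, nat_lit 5000000, true, false⟩,
 nat_lit 0, nat_lit 0, nat_lit 6434, nat_lit 0, nat_lit 3835, nat_lit 5015, nat_lit 709, nat_lit 0, nat_lit 0, nat_lit 547, nat_lit 0, nat_lit 0, nat_lit 0, nat_lit 0, nat_lit 0, nat_lit 48000, nat_lit 0, nat_lit 0, [(nat_lit 22, [(nat_lit 1, nat_lit 120)])],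
 ⟨p101_k18, nat_lit 0, nat_lit 0, nat_lit 105, nat_lit 0, nat_lit 0, [nat_lit 1951168001, nat_lit 4312016000, nat_lit 7179216000], [], [nat_lit 22605331446, nat_lit 23131150486, nat_lit 30172179260, nat_lit 30660190600, nat_lit 24935507593, nat_lit 25375880608, nat_lit 31882276745, nat_lit 32291269410], nat_lit 0, nat_lit 0, nat_lit 0, nat_lit 0, nat_lit 0, nat_lit 0, [], [nat_lit 34, nat_lit 40, nat_lit 40, nat_lit 80, nat_lit 7, nat_lit 289, nat_lit 75, nat_lit 8]⟩, ⟨p101_k15, nat_lit 0, nat_lit 0, nat_lit 599, nat_lit 0, nat_lit 928108, [nat_lit 1788160000, nat_lit 4125440000, nat_lit 8660960000], [], [nat_lit 27321543545, nat_lit 27648325130, nat_lit 33333042630, nat_lit 33914282280, nat_lit 26351944005, nat_lit 26547715001, nat_lit 29878464507, nat_lit 30271742687], nat_lit 1271250, nat_lit 1271250, nat_lit 1271250, nat_lit 1271250, nat_lit 0, nat_lit 2034000, [nat_lit 490000, nat_lit 1100000, nat_lit 2127500],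 [nat_lit 27, nat_lit 40, nat_lit 40, nat_lit 80, nat_lit 13, nat_lit 401, nat_lit 175, nat_lit 11]⟩,
 ⟨nat_lit 3162, nat_lit 3536, ⟨.ofNat (nat_lit 705409), .ofNat (nat_lit 956496), .ofNat (nat_lit 716382), .ofNat (nat_lit 967469), .ofNat (nat_lit 704916), .ofNat (nat_lit 948770), .ofNat (nat_lit 715989), .ofNat (nat_lit 959845)⟩, ⟨.ofNat (nat_lit 305521), .ofNat (nat_lit 468701), .ofNat (nat_lit 349427), .ofNat (nat_lit 512606), .ofNat (nat_lit 306116), .ofNat (nat_lit 464594), .ofNat (nat_lit 350426), .ofNat (nat_lit 508904)⟩⟩, [⟨nat_lit 4, nat_lit 100, nat_lit 64, nat_lit 88, nat_lit 489342794⟩, ⟨nat_lit 19, nat_lit 83, nat_lit 98, nat_lit 100, nat_lit 112232500⟩]⟩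
noncomputable def b_V_800_800_20_20 : St := ⟨true, nat_lit 0, nat_lit 2, nat_lit 2, nat_lit 120, nat_lit 320, nat_lit 360, nat_lit 320, nat_lit 340, nat_lit 140, nat_lit 400, nat_lit 80, nat_lit 120, nat_lit 0, nat_lit 300, nat_lit 0, nat_lit 300, nat_lit 40, nat_lit 80, nat_lit 0, nat_lit 0, nat_lit 0, nat_lit 0⟩
theorem d_V_800_800_20_20 (h : EB TB.env) : Dead b_V_800_800_20_20 := chkB_sound0 h (T :=
(.st (nat_lit 1)
(.leaf p101_l57)
(.spl (nat_lit 4) (nat_lit 160)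
(.spl (nat_lit 5) (nat_lit 160)
(.leaf p101_l58)
(.spl (nat_lit 0) (nat_lit 340)
(.leaf p101_l59)
(.trZ (nat_lit 0) (nat_lit 81) (nat_lit 72) (nat_lit 100) (nat_lit 168) (.leaf p101_l60))))
(.spl (nat_lit 2) (nat_lit 240)
(.leaf p101_l61)
(.spl (nat_lit 0) (nat_lit 340)
(.spl (nat_lit 1) (nat_lit 330)
(.leaf p101_l62)
(.ord (.trX (nat_lit 16) (nat_lit 83) (nat_lit 98) (nat_lit 100) (nat_lit 288) (.trX (nat_lit 19) (nat_lit 83) (nat_lit 98) (nat_lit 100) (nat_lit 288) (.leaf p101_l63)))))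
(.trX (nat_lit 16) (nat_lit 77) (nat_lit 100) (nat_lit 99) (nat_lit 276) (.spl (nat_lit 0) (nat_lit 350)
(.spl (nat_lit 0) (nat_lit 345)
(.leaf p101_l64)
(.trX (nat_lit 16) (nat_lit 73) (nat_lit 100) (nat_lit 98) (nat_lit 272) (.leaf p101_l65)))
(.trX (nat_lit 16) (nat_lit 69) (nat_lit 100) (nat_lit 96) (nat_lit 264) (.spl (nat_lit 1) (nat_lit 330)
(.leaf p101_l66)
(.trX (nat_lit 19) (nat_lit 83) (nat_lit 98) (nat_lit 100) (nat_lit 288) (.leaf p101_l67))))))))))) (by decide +kernel)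
noncomputable def p101_l68 : Lf2 := ⟨nat_lit 0, nat_lit 20, [nat_lit 5, nat_lit 5, nat_lit 5, nat_lit 20], false, nat_lit 0, nat_lit 160, nat_lit 0, nat_lit 300, ⟨nat_lit 1000, nat_lit 0, nat_lit 0, nat_lit 0, nat_lit 0, nat_lit 0, nat_lit 0, nat_lit 0, nat_lit 0, nat_lit 0, nat_lit 0, nat_lit 0, nat_lit 0, nat_lit 0, nat_lit 0, nat_lit 0, false, false⟩,
 nat_lit 0, nat_lit 9868, nat_lit 0, nat_lit 0, nat_lit 7400, nat_lit 6110, nat_lit 724, nat_lit 0, nat_lit 0, nat_lit 819, nat_lit 0, nat_lit 0, nat_lit 0, nat_lit 17625938694371, nat_lit 0, nat_lit 0, nat_lit 0, nat_lit 0, [],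
 ⟨p101_k14, nat_lit 0, nat_lit 0, nat_lit 578, nat_lit 0, nat_lit 788534, [nat_lit 2032000001, nat_lit 4688000000, nat_lit 9842000000], [], [nat_lit 28973348400, nat_lit 27249001300, nat_lit 27543137700, nat_lit 29239872100, nat_lit 22672010500, nat_lit 23498851000, nat_lit 27199900101, nat_lit 24557810400], nat_lit 1271250, nat_lit 1271250, nat_lit 936251, nat_lit 1773750, nat_lit 0, nat_lit 1100001, [nat_lit 490000, nat_lit 1100000, nat_lit 2127500], [nat_lit 27, nat_lit 40, nat_lit 40, nat_lit 80, nat_lit 13, nat_lit 317, nat_lit 100, nat_lit 9]⟩, ⟨p101_k14, nat_lit 0, nat_lit 0, nat_lit 182, nat_lit 0, nat_lit 0, [nat_lit 2032000000, nat_lit 4688000000, nat_lit 9842000000], [], [nat_lit 23683878515, nat_lit 25513769445, nat_lit 26080881455, nat_lit 27594686115, nat_lit 24386967675, nat_lit 25530551753, nat_lit 25938605050, nat_lit 27156659295], nat_lit 0, nat_lit 0, nat_lit 0, nat_lit 0, nat_lit 0, nat_lit 0,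 [], [nat_lit 27, nat_lit 40, nat_lit 40, nat_lit 80, nat_lit 13, nat_lit 373, nat_lit 150, nat_lit 11]⟩,
 zbF0, [⟨nat_lit 0, nat_lit 71, nat_lit 71, nat_lit 100, nat_lit 646410477⟩, ⟨nat_lit 19, nat_lit 81, nat_lit 100, nat_lit 92, nat_lit 232655655⟩]⟩
noncomputable def p101_l69 : Lf2 := ⟨nat_lit 0, nat_lit 20, [nat_lit 5, nat_lit 5, nat_lit 5, nat_lit 20], false, nat_lit 0, nat_lit 160, nat_lit 0, nat_lit 300, ⟨nat_lit 1000, nat_lit 0, nat_lit 0, nat_lit 0, nat_lit 0, nat_lit 0, nat_lit 0, nat_lit 0, nat_lit 0, nat_lit 0, nat_lit 0, nat_lit 0, nat_lit 0, nat_lit 0, nat_lit 0, nat_lit 0, false, false⟩,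
 nat_lit 0, nat_lit 6636, nat_lit 0, nat_lit 0, nat_lit 5371, nat_lit 11966, nat_lit 1344, nat_lit 0, nat_lit 0, nat_lit 0, nat_lit 0, nat_lit 0, nat_lit 0, nat_lit 0, nat_lit 0, nat_lit 0, nat_lit 0, nat_lit 0, [],
 ⟨p101_k19, nat_lit 0, nat_lit 0, nat_lit 516, nat_lit 0, nat_lit 859225, [nat_lit 2032000001, nat_lit 7968000000], [], [nat_lit 23080320533, nat_lit 25223012788, nat_lit 25619965174, nat_lit 27756136268, nat_lit 20677747770, nat_lit 21461478980, nat_lit 23366899054, nat_lit 23202452060], nat_lit 1271250, nat_lit 1271250, nat_lit 1167600, nat_lit 1789500, nat_lit 0, nat_lit 1100001, [nat_lit 490000, nat_lit 1740000], [nat_lit 110, nat_lit 40, nat_lit 40, nat_lit 80, nat_lit 109, nat_lit 317, nat_lit 100, nat_lit 10]⟩, ⟨p101_k13, nat_lit 0, nat_lit 0, nat_lit 166, nat_lit 0, nat_lit 0, [nat_lit 2032000000, nat_lit 9842000000], [], [nat_lit 34307296663, nat_lit 37067999388, nat_lit 36595074848, nat_lit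 38939295444, nat_lit 28998716968, nat_lit 30610655082, nat_lit 29539794206, nat_lit 30905223021], nat_lit 0, nat_lit 0, nat_lit 0, nat_lit 0, nat_lit 0, nat_lit 0, [], [nat_lit 94, nat_lit 40, nat_lit 40, nat_lit 80, nat_lit 95, nat_lit 373, nat_lit 150, nat_lit 10]⟩,
 zbF0, [⟨nat_lit 0, nat_lit 72, nat_lit 61, nat_lit 100, nat_lit 685209667⟩, ⟨nat_lit 7, nat_lit 100, nat_lit 81, nat_lit 92, nat_lit 62684316⟩]⟩
noncomputable def p101_l70 : Lf2 := ⟨nat_lit 0, nat_lit 20, [nat_lit 5, nat_lit 5, nat_lit 5, nat_lit 20], false, nat_lit 0, nat_lit 160, nat_lit 0, nat_lit 300, ⟨nat_lit 1000, nat_lit 0, nat_lit 0, nat_lit 0, nat_lit 0, nat_lit 0, nat_lit 0, nat_lit 0, nat_lit 0, nat_lit 0, nat_lit 0, nat_lit 0, nat_lit 0, nat_lit 0, nat_lit 0, nat_lit 0, false, false⟩,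
 nat_lit 0, nat_lit 8108, nat_lit 0, nat_lit 0, nat_lit 6081, nat_lit 6381, nat_lit 677, nat_lit 0, nat_lit 0, nat_lit 706, nat_lit 0, nat_lit 0, nat_lit 0, nat_lit 0, nat_lit 0, nat_lit 0, nat_lit 0, nat_lit 0, [],
 ⟨p101_k14, nat_lit 0, nat_lit 0, nat_lit 541, nat_lit 0, nat_lit 788534, [nat_lit 2032000001, nat_lit 4688000000, nat_lit 9842000000], [], [nat_lit 32390012889, nat_lit 33151657623, nat_lit 38287082236, nat_lit 39653275944, nat_lit 29629419501, nat_lit 30266366805, nat_lit 34434336748, nat_lit 34967605298], nat_lit 1271250, nat_lit 1271250, nat_lit 1271250, nat_lit 1271250, nat_lit 0, nat_lit 1100001, [nat_lit 490000, nat_lit 1100000, nat_lit 2127500], [nat_lit 27, nat_lit 40, nat_lit 40, nat_lit 80, nat_lit 13, nat_lit 373, nat_lit 150, nat_lit 10]⟩, ⟨p101_k14, nat_lit 0, nat_lit 0, nat_lit 212, nat_lit 0, nat_lit 0, [nat_lit 2032000000, nat_lit 4688000000, nat_lit 9842000000], [], [nat_lit 27413939526,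 nat_lit 28870438304, nat_lit 39126409036, nat_lit 40528083144, nat_lit 26628074909, nat_lit 27453662831, nat_lit 34671912058, nat_lit 35578508251], nat_lit 0, nat_lit 0, nat_lit 0, nat_lit 0, nat_lit 0, nat_lit 0, [], [nat_lit 27, nat_lit 40, nat_lit 40, nat_lit 80, nat_lit 13, nat_lit 401, nat_lit 175, nat_lit 11]⟩,
 zbF0, [⟨nat_lit 7, nat_lit 100, nat_lit 81, nat_lit 92, nat_lit 131679087⟩]⟩
noncomputable def p101_l71 : Lf2 := ⟨nat_lit 0, nat_lit 20, [nat_lit 5, nat_lit 5, nat_lit 5, nat_lit 20], false, nat_lit 0, nat_lit 160, nat_lit 0, nat_lit 300, ⟨nat_lit 1000, nat_lit 0, nat_lit 0, nat_lit 0, nat_lit 0, nat_lit 0, nat_lit 0, nat_lit 0, nat_lit 0, nat_lit 0, nat_lit 0, nat_lit 0, nat_lit 0, nat_lit 0, nat_lit 0, nat_lit 0, false, false⟩,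
 nat_lit 0, nat_lit 5785, nat_lit 0, nat_lit 0, nat_lit 4683, nat_lit 10490, nat_lit 1138, nat_lit 0, nat_lit 0, nat_lit 0, nat_lit 0, nat_lit 0, nat_lit 0, nat_lit 0, nat_lit 0, nat_lit 0, nat_lit 0, nat_lit 0, [],
 ⟨p101_k19, nat_lit 0, nat_lit 0, nat_lit 508, nat_lit 0, nat_lit 859225, [nat_lit 2032000001, nat_lit 7968000000], [], [nat_lit 28908490074, nat_lit 29638744498, nat_lit 35576674392, nat_lit 36777529436, nat_lit 27693473146, nat_lit 28311956946, nat_lit 31580226244, nat_lit 32092017314], nat_lit 1271250, nat_lit 1271250, nat_lit 1271250, nat_lit 1271250, nat_lit 0, nat_lit 1100001, [nat_lit 490000, nat_lit 1740000], [nat_lit 110, nat_lit 40, nat_lit 40, nat_lit 80, nat_lit 109, nat_lit 249, nat_lit 40, nat_lit 7]⟩, ⟨p101_k13, nat_lit 0, nat_lit 0, nat_lit 225, nat_lit 0, nat_lit 0, [nat_lit 2032000000, nat_lit 9842000000], [], [nat_lit 39319976880, nat_lit 40662008160, nat_lit 50622388440, nat_lit 52510025760,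 nat_lit 32105732730, nat_lit 32877712390, nat_lit 39480337820, nat_lit 40627485145], nat_lit 0, nat_lit 0, nat_lit 0, nat_lit 0, nat_lit 0, nat_lit 0, [], [nat_lit 94, nat_lit 40, nat_lit 40, nat_lit 80, nat_lit 95, nat_lit 401, nat_lit 175, nat_lit 11]⟩,
 zbF0, []⟩
noncomputable def p101_l72 : Lf2 := ⟨nat_lit 0, nat_lit 20, [nat_lit 5, nat_lit 5, nat_lit 5, nat_lit 20], false, nat_lit 160, nat_lit 300, nat_lit 0, nat_lit 160, ⟨nat_lit 1000, nat_lit 0, nat_lit 0, nat_lit 0, nat_lit 0, nat_lit 0, nat_lit 0, nat_lit 0, nat_lit 0, nat_lit 0, nat_lit 0, nat_lit 0, nat_lit 0, nat_lit 0, nat_lit 0, nat_lit 0, false, false⟩,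
 nat_lit 0, nat_lit 8007, nat_lit 0, nat_lit 0, nat_lit 6005, nat_lit 6200, nat_lit 702, nat_lit 0, nat_lit 0, nat_lit 886, nat_lit 0, nat_lit 0, nat_lit 0, nat_lit 0, nat_lit 0, nat_lit 0, nat_lit 0, nat_lit 0, [],
 ⟨p101_k14, nat_lit 0, nat_lit 0, nat_lit 541, nat_lit 0, nat_lit 955874, [nat_lit 2032000001, nat_lit 4688000000, nat_lit 9842000000], [], [nat_lit 26616667460, nat_lit 28420909860, nat_lit 27727686470, nat_lit 29246206740, nat_lit 29268538428, nat_lit 30980666540, nat_lit 30397459671, nat_lit 31686863765], nat_lit 1271250, nat_lit 1271250, nat_lit 936251, nat_lit 1773750, nat_lit 1100001, nat_lit 2298750, [nat_lit 490000, nat_lit 1100000, nat_lit 2127500], [nat_lit 27, nat_lit 40, nat_lit 40, nat_lit 80, nat_lit 13, nat_lit 373, nat_lit 150, nat_lit 10]⟩, ⟨p101_k14, nat_lit 0, nat_lit 0, nat_lit 182, nat_lit 0, nat_lit 0, [nat_lit 2032000000, nat_lit 4688000000, nat_lit 9842000000], [], [nat_lit 23052371550,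 nat_lit 24898783150, nat_lit 25446850350, nat_lit 27048658800, nat_lit 18964984350, nat_lit 20522220750, nat_lit 21064279950, nat_lit 22361582000], nat_lit 0, nat_lit 0, nat_lit 0, nat_lit 0, nat_lit 0, nat_lit 0, [], [nat_lit 27, nat_lit 40, nat_lit 40, nat_lit 80, nat_lit 13, nat_lit 317, nat_lit 100, nat_lit 9]⟩,
 zbF0, [⟨nat_lit 0, nat_lit 76, nat_lit 72, nat_lit 100, nat_lit 576485734⟩, ⟨nat_lit 0, nat_lit 72, nat_lit 61, nat_lit 100, nat_lit 16796668⟩, ⟨nat_lit 4, nat_lit 100, nat_lit 74, nat_lit 90, nat_lit 460645676⟩]⟩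
noncomputable def p101_l73 : Lf2 := ⟨nat_lit 0, nat_lit 20, [nat_lit 5, nat_lit 5, nat_lit 5, nat_lit 20], false, nat_lit 160, nat_lit 300, nat_lit 160, nat_lit 300, ⟨nat_lit 1000, nat_lit 0, nat_lit 0, nat_lit 0, nat_lit 0, nat_lit 0, nat_lit 0, nat_lit 0, nat_lit 0, nat_lit 0, nat_lit 0, nat_lit 0, nat_lit 0, nat_lit 0, nat_lit 0, nat_lit 0, false, false⟩,
 nat_lit 0, nat_lit 9240, nat_lit 0, nat_lit 0, nat_lit 6930, nat_lit 3718, nat_lit 798, nat_lit 0, nat_lit 0, nat_lit 0, nat_lit 0, nat_lit 0, nat_lit 0, nat_lit 0, nat_lit 0, nat_lit 0, nat_lit 0, nat_lit 0, [],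
 ⟨p101_k14, nat_lit 0, nat_lit 0, nat_lit 541, nat_lit 0, nat_lit 955874, [nat_lit 2032000001, nat_lit 4688000000, nat_lit 9842000000], [], [nat_lit 22432733810, nat_lit 24764347240, nat_lit 24019134520, nat_lit 26066933640, nat_lit 26083301370, nat_lit 27920126440, nat_lit 28762494871, nat_lit 29221505640], nat_lit 1271250, nat_lit 1271250, nat_lit 936251, nat_lit 1773750, nat_lit 1100001, nat_lit 2298750, [nat_lit 490000, nat_lit 1100000, nat_lit 2127500], [nat_lit 27, nat_lit 40, nat_lit 40, nat_lit 80, nat_lit 13, nat_lit 373, nat_lit 150, nat_lit 10]⟩, ⟨p101_k14, nat_lit 0, nat_lit 0, nat_lit 50, nat_lit 0, nat_lit 0, [nat_lit 2032000000, nat_lit 4688000000, nat_lit 9842000000], [], [nat_lit 16224302196, nat_lit 17894395224, nat_lit 19521688616, nat_lit 20920126496, nat_lit 22296890543, nat_lit 23552113633, nat_lit 24568080524, nat_lit 25633469776], nat_lit 0, nat_lit 0, nat_lit 0, nat_lit 0, nat_lit 0, nat_lit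 0, [], [nat_lit 27, nat_lit 40, nat_lit 40, nat_lit 80, nat_lit 13, nat_lit 373, nat_lit 150, nat_lit 10]⟩,
 zbF0, [⟨nat_lit 0, nat_lit 76, nat_lit 72, nat_lit 100, nat_lit 513005377⟩, ⟨nat_lit 4, nat_lit 100, nat_lit 74, nat_lit 90, nat_lit 498996434⟩, ⟨nat_lit 19, nat_lit 81, nat_lit 100, nat_lit 92, nat_lit 520610735⟩]⟩
noncomputable def p101_l74 : Lf2 := ⟨nat_lit 0, nat_lit 20, [nat_lit 5, nat_lit 5, nat_lit 5, nat_lit 20], false, nat_lit 160, nat_lit 300, nat_lit 0, nat_lit 300, ⟨nat_lit 1000, nat_lit 0, nat_lit 0, nat_lit 0, nat_lit 0, nat_lit 0, nat_lit 0, nat_lit 0, nat_lit 0, nat_lit 0, nat_lit 0, nat_lit 0, nat_lit 0, nat_lit 0, nat_lit 0, nat_lit 0, false, false⟩,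
 nat_lit 0, nat_lit 7781, nat_lit 0, nat_lit 0, nat_lit 5835, nat_lit 6317, nat_lit 684, nat_lit 0, nat_lit 0, nat_lit 718, nat_lit 0, nat_lit 0, nat_lit 0, nat_lit 6821416607151, nat_lit 0, nat_lit 0, nat_lit 0, nat_lit 0, [],
 ⟨p101_k14, nat_lit 0, nat_lit 0, nat_lit 346, nat_lit 0, nat_lit 617987, [nat_lit 2032000001, nat_lit 4688000000, nat_lit 9842000000], [], [nat_lit 26521633960, nat_lit 26967402840, nat_lit 32427163280, nat_lit 32797491235, nat_lit 29061425245, nat_lit 29398639374, nat_lit 34194995790, nat_lit 34473973449], nat_lit 1271250, nat_lit 1271250, nat_lit 1271250, nat_lit 1271250, nat_lit 1100001, nat_lit 2298750, [nat_lit 490000, nat_lit 1100000, nat_lit 2127500], [nat_lit 27, nat_lit 40, nat_lit 40, nat_lit 80, nat_lit 13, nat_lit 401, nat_lit 175, nat_lit 10]⟩, ⟨p101_k14, nat_lit 0, nat_lit 0, nat_lit 211, nat_lit 0, nat_lit 0, [nat_lit 2032000000, nat_lit 4688000000, nat_lit 9842000000], [],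 [nat_lit 27342694082, nat_lit 27996082717, nat_lit 38947352652, nat_lit 39644405130, nat_lit 26623130713, nat_lit 27035666584, nat_lit 34597018106, nat_lit 35048442843], nat_lit 0, nat_lit 0, nat_lit 0, nat_lit 0, nat_lit 0, nat_lit 0, [], [nat_lit 27, nat_lit 40, nat_lit 40, nat_lit 80, nat_lit 13, nat_lit 401, nat_lit 175, nat_lit 11]⟩,
 zbF0, [⟨nat_lit 4, nat_lit 100, nat_lit 84, nat_lit 93, nat_lit 357773582⟩, ⟨nat_lit 19, nat_lit 84, nat_lit 100, nat_lit 93, nat_lit 133136972⟩]⟩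
noncomputable def p101_l75 : Lf2 := ⟨nat_lit 0, nat_lit 20, [nat_lit 5, nat_lit 5, nat_lit 5, nat_lit 20], false, nat_lit 160, nat_lit 288, nat_lit 0, nat_lit 300, ⟨nat_lit 1000, nat_lit 0, nat_lit 0, nat_lit 0, nat_lit 0, nat_lit 0, nat_lit 0, nat_lit 0, nat_lit 0, nat_lit 0, nat_lit 0, nat_lit 0, nat_lit 0, nat_lit 0, nat_lit 0, nat_lit 0, false, false⟩,
 nat_lit 0, nat_lit 6941, nat_lit 0, nat_lit 0, nat_lit 5410, nat_lit 6433, nat_lit 671, nat_lit 0, nat_lit 0, nat_lit 705, nat_lit 0, nat_lit 0, nat_lit 0, nat_lit 14572859789754, nat_lit 0, nat_lit 0, nat_lit 0, nat_lit 0, [],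
 ⟨p101_k15, nat_lit 0, nat_lit 0, nat_lit 421, nat_lit 0, nat_lit 746999, [nat_lit 2032000001, nat_lit 4688000000, nat_lit 9842000000], [], [nat_lit 27526779626, nat_lit 27867774826, nat_lit 32183057850, nat_lit 32489717080, nat_lit 29217632852, nat_lit 29503853454, nat_lit 33609182202, nat_lit 34047090949], nat_lit 1271250, nat_lit 1271250, nat_lit 1271250, nat_lit 1271250, nat_lit 1100001, nat_lit 2196000, [nat_lit 490000, nat_lit 1100000, nat_lit 2127500], [nat_lit 27, nat_lit 40, nat_lit 40, nat_lit 80, nat_lit 13, nat_lit 401, nat_lit 175, nat_lit 10]⟩, ⟨p101_k14, nat_lit 0, nat_lit 0, nat_lit 212, nat_lit 0, nat_lit 0, [nat_lit 2032000000, nat_lit 4688000000, nat_lit 9842000000], [], [nat_lit 27384353793, nat_lit 28908470147, nat_lit 39271892348, nat_lit 40679716392, nat_lit 26544619412, nat_lit 27372397434, nat_lit 34732763394, nat_lit 35642403797], nat_lit 0, nat_lit 0, nat_lit 0, nat_lit 0, nat_lit 0, nat_lit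 0, [], [nat_lit 27, nat_lit 40, nat_lit 40, nat_lit 80, nat_lit 13, nat_lit 401, nat_lit 175, nat_lit 11]⟩,
 zbF0, [⟨nat_lit 16, nat_lit 83, nat_lit 98, nat_lit 100, nat_lit 97964672⟩, ⟨nat_lit 4, nat_lit 100, nat_lit 77, nat_lit 91, nat_lit 280316492⟩, ⟨nat_lit 7, nat_lit 100, nat_lit 81, nat_lit 92, nat_lit 129710565⟩]⟩
noncomputable def p101_l76 : Lf2 := ⟨nat_lit 0, nat_lit 20, [nat_lit 5, nat_lit 5, nat_lit 5, nat_lit 20], false, nat_lit 160, nat_lit 276, nat_lit 0, nat_lit 300, ⟨nat_lit 1000, nat_lit 0, nat_lit 0, nat_lit 0, nat_lit 0, nat_lit 0, nat_lit 0, nat_lit 0, nat_lit 0, nat_lit 0, nat_lit 0, nat_lit 0, nat_lit 0, nat_lit 0, nat_lit 0, nat_lit 0, false, false⟩,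
 nat_lit 0, nat_lit 6268, nat_lit 0, nat_lit 0, nat_lit 5073, nat_lit 6433, nat_lit 676, nat_lit 0, nat_lit 0, nat_lit 538, nat_lit 0, nat_lit 0, nat_lit 0, nat_lit 0, nat_lit 0, nat_lit 0, nat_lit 0, nat_lit 0, [],
 ⟨p101_k16, nat_lit 0, nat_lit 0, nat_lit 413, nat_lit 0, nat_lit 859225, [nat_lit 2032000001, nat_lit 4688000000, nat_lit 7968000000], [], [nat_lit 25831973228, nat_lit 26509723798, nat_lit 31367293296, nat_lit 32465640280, nat_lit 27577551625, nat_lit 28206769930, nat_lit 33300138693, nat_lit 34179760066], nat_lit 1271250, nat_lit 1271250, nat_lit 1271250, nat_lit 1271250, nat_lit 1100001, nat_lit 2093250, [nat_lit 490000, nat_lit 1100000, nat_lit 1785000], [nat_lit 34, nat_lit 40, nat_lit 40, nat_lit 80, nat_lit 7, nat_lit 289, nat_lit 75, nat_lit 8]⟩, ⟨p101_k14, nat_lit 0, nat_lit 0, nat_lit 212, nat_lit 0, nat_lit 0, [nat_lit 2032000000, nat_lit 4688000000, nat_lit 9842000000], [], [nat_lit 29053831918,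 nat_lit 30577948272, nat_lit 39271892348, nat_lit 40679716392, nat_lit 28214097537, nat_lit 29041875559, nat_lit 34732763394, nat_lit 35642403797], nat_lit 0, nat_lit 0, nat_lit 0, nat_lit 0, nat_lit 0, nat_lit 0, [], [nat_lit 27, nat_lit 40, nat_lit 40, nat_lit 80, nat_lit 13, nat_lit 401, nat_lit 175, nat_lit 11]⟩,
 zbF0, [⟨nat_lit 4, nat_lit 100, nat_lit 67, nat_lit 88, nat_lit 486635485⟩, ⟨nat_lit 7, nat_lit 100, nat_lit 81, nat_lit 92, nat_lit 129710565⟩]⟩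
noncomputable def p101_l77 : Lf2 := ⟨nat_lit 0, nat_lit 20, [nat_lit 5, nat_lit 5, nat_lit 5, nat_lit 20], false, nat_lit 0, nat_lit 300, nat_lit 0, nat_lit 160, ⟨nat_lit 1000, nat_lit 0, nat_lit 0, nat_lit 0, nat_lit 0, nat_lit 0, nat_lit 0, nat_lit 0, nat_lit 0, nat_lit 0, nat_lit 0, nat_lit 0, nat_lit 0, nat_lit 0, nat_lit 0, nat_lit 0, false, false⟩,
 nat_lit 10940, nat_lit 0, nat_lit 0, nat_lit 0, nat_lit 8205, nat_lit 8205, nat_lit 680, nat_lit 0, nat_lit 0, nat_lit 641, nat_lit 0, nat_lit 0, nat_lit 0, nat_lit 4740195850788, nat_lit 0, nat_lit 0, nat_lit 0, nat_lit 0, [],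
 ⟨p101_k14, nat_lit 0, nat_lit 0, nat_lit 462, nat_lit 0, nat_lit 547586, [nat_lit 2032000001, nat_lit 4688000000, nat_lit 9842000000], [], [nat_lit 28929545130, nat_lit 30475688020, nat_lit 28302849240, nat_lit 33339989140, nat_lit 25848560369, nat_lit 28971437118, nat_lit 38955815191, nat_lit 32018791276], nat_lit 1271250, nat_lit 1271250, nat_lit 936251, nat_lit 1773750, nat_lit 0, nat_lit 2118750, [nat_lit 490000, nat_lit 1100000, nat_lit 2127500], [nat_lit 27, nat_lit 40, nat_lit 40, nat_lit 80, nat_lit 13, nat_lit 373, nat_lit 150, nat_lit 11]⟩, ⟨p101_k14, nat_lit 0, nat_lit 0, nat_lit 459, nat_lit 0, nat_lit 547586, [nat_lit 2032000000, nat_lit 4688000000, nat_lit 9842000000], [], [nat_lit 28929545130, nat_lit 28568936210, nat_lit 28692727365, nat_lit 30504063770, nat_lit 19985511865, nat_lit 21838620100, nat_lit 26761833345, nat_lit 23508006855], nat_lit 1271250, nat_lit 1271250, nat_lit 936251, nat_lit 1773750,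 nat_lit 0, nat_lit 1100001, [nat_lit 490000, nat_lit 1100000, nat_lit 2127500], [nat_lit 27, nat_lit 40, nat_lit 40, nat_lit 80, nat_lit 13, nat_lit 317, nat_lit 100, nat_lit 9]⟩,
 zbF0, [⟨nat_lit 4, nat_lit 100, nat_lit 74, nat_lit 90, nat_lit 233564316⟩]⟩
noncomputable def p101_l78 : Lf2 := ⟨nat_lit 0, nat_lit 20, [nat_lit 5, nat_lit 5, nat_lit 5, nat_lit 20], false, nat_lit 0, nat_lit 300, nat_lit 0, nat_lit 160, ⟨nat_lit 1000, nat_lit 0, nat_lit 0, nat_lit 0, nat_lit 0, nat_lit 0, nat_lit 0, nat_lit 0, nat_lit 0, nat_lit 0, nat_lit 0, nat_lit 0, nat_lit 0, nat_lit 0, nat_lit 0, nat_lit 0, false, false⟩,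
 nat_lit 8669, nat_lit 0, nat_lit 0, nat_lit 0, nat_lit 6501, nat_lit 6501, nat_lit 562, nat_lit 0, nat_lit 0, nat_lit 394, nat_lit 0, nat_lit 0, nat_lit 0, nat_lit 0, nat_lit 0, nat_lit 0, nat_lit 0, nat_lit 0, [],
 ⟨p101_k14, nat_lit 0, nat_lit 0, nat_lit 443, nat_lit 0, nat_lit 547586, [nat_lit 2032000001, nat_lit 4688000000, nat_lit 9842000000], [], [nat_lit 30605395726, nat_lit 32478322638, nat_lit 39462139756, nat_lit 42293872292, nat_lit 29304298364, nat_lit 30473826651, nat_lit 34812338218, nat_lit 36639580803], nat_lit 1271250, nat_lit 1271250, nat_lit 1271250, nat_lit 1271250, nat_lit 0, nat_lit 2118750, [nat_lit 490000, nat_lit 1100000, nat_lit 2127500], [nat_lit 27, nat_lit 40, nat_lit 40, nat_lit 80, nat_lit 13, nat_lit 401, nat_lit 175, nat_lit 11]⟩, ⟨p101_k14, nat_lit 0, nat_lit 0, nat_lit 443, nat_lit 0, nat_lit 547586, [nat_lit 2032000000, nat_lit 4688000000, nat_lit 9842000000], [], [nat_lit 32284870726,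 nat_lit 33221334182, nat_lit 39912537650, nat_lit 40878765780, nat_lit 29008100994, nat_lit 29790583608, nat_lit 33798539274, nat_lit 34633658242], nat_lit 1271250, nat_lit 1271250, nat_lit 1271250, nat_lit 1271250, nat_lit 0, nat_lit 1100001, [nat_lit 490000, nat_lit 1100000, nat_lit 2127500], [nat_lit 27, nat_lit 40, nat_lit 40, nat_lit 80, nat_lit 13, nat_lit 373, nat_lit 150, nat_lit 10]⟩,
 zbF0, [⟨nat_lit 4, nat_lit 100, nat_lit 74, nat_lit 90, nat_lit 129679413⟩]⟩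
noncomputable def p101_l79 : Lf2 := ⟨nat_lit 0, nat_lit 20, [nat_lit 5, nat_lit 5, nat_lit 5, nat_lit 20], false, nat_lit 0, nat_lit 160, nat_lit 160, nat_lit 300, ⟨nat_lit 1000, nat_lit 0, nat_lit 0, nat_lit 0, nat_lit 0, nat_lit 0, nat_lit 0, nat_lit 0, nat_lit 0, nat_lit 0, nat_lit 0, nat_lit 0, nat_lit 0, nat_lit 0, nat_lit 0, nat_lit 0, false, false⟩,
 nat_lit 10788, nat_lit 0, nat_lit 0, nat_lit 0, nat_lit 7591, nat_lit 8091, nat_lit 304, nat_lit 0, nat_lit 0, nat_lit 540, nat_lit 0, nat_lit 0, nat_lit 0, nat_lit 4552625558020, nat_lit 0, nat_lit 0, nat_lit 0, nat_lit 0, [],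
 ⟨p101_k20, nat_lit 0, nat_lit 0, nat_lit 430, nat_lit 0, nat_lit 451723, [nat_lit 2032000001, nat_lit 6250000000, nat_lit 9842000000], [], [nat_lit 35835831283, nat_lit 33945072764, nat_lit 42511693796, nat_lit 44056472184, nat_lit 28203643254, nat_lit 29257579323, nat_lit 39783123672, nat_lit 36474647050], nat_lit 1271250, nat_lit 1271250, nat_lit 936251, nat_lit 3113750, nat_lit 0, nat_lit 1100001, [nat_lit 490000, nat_lit 1427500, nat_lit 1271250], [nat_lit 61, nat_lit 40, nat_lit 40, nat_lit 80, nat_lit 1, nat_lit 373, nat_lit 150, nat_lit 11]⟩, ⟨p101_k20, nat_lit 0, nat_lit 0, nat_lit 301, nat_lit 0, nat_lit 451723, [nat_lit 2032000000, nat_lit 6250000000, nat_lit 9842000000], [], [nat_lit 22634330240, nat_lit 24051313155, nat_lit 34073871704, nat_lit 35470421232, nat_lit 26817420629, nat_lit 27380546161, nat_lit 36672984838, nat_lit 37679688706], nat_lit 1271250, nat_lit 1271250, nat_lit 1271250, nat_lit 1271250,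 nat_lit 1100001, nat_lit 2298750, [nat_lit 490000, nat_lit 1427500, nat_lit 1271250], [nat_lit 61, nat_lit 40, nat_lit 40, nat_lit 80, nat_lit 1, nat_lit 401, nat_lit 175, nat_lit 11]⟩,
 zbF0, [⟨nat_lit 0, nat_lit 77, nat_lit 77, nat_lit 100, nat_lit 19622968⟩, ⟨nat_lit 19, nat_lit 81, nat_lit 100, nat_lit 92, nat_lit 160331058⟩, ⟨nat_lit 19, nat_lit 87, nat_lit 95, nat_lit 100, nat_lit 251778739⟩]⟩
noncomputable def p101_l80 : Lf2 := ⟨nat_lit 0, nat_lit 20, [nat_lit 5, nat_lit 5, nat_lit 5, nat_lit 20], false, nat_lit 0, nat_lit 160, nat_lit 160, nat_lit 300, ⟨nat_lit 1000, nat_lit 0, nat_lit 0, nat_lit 0, nat_lit 0, nat_lit 0, nat_lit 0, nat_lit 0, nat_lit 0, nat_lit 0, nat_lit 0, nat_lit 0, nat_lit 0, nat_lit 0, nat_lit 0, nat_lit 0, false, false⟩,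
 nat_lit 9109, nat_lit 0, nat_lit 0, nat_lit 0, nat_lit 5938, nat_lit 6831, nat_lit 530, nat_lit 0, nat_lit 0, nat_lit 450, nat_lit 0, nat_lit 0, nat_lit 0, nat_lit 0, nat_lit 0, nat_lit 0, nat_lit 0, nat_lit 0, [],
 ⟨p101_k16, nat_lit 0, nat_lit 0, nat_lit 383, nat_lit 0, nat_lit 497558, [nat_lit 2032000001, nat_lit 4688000000, nat_lit 7968000000], [], [nat_lit 30065803726, nat_lit 27018138653, nat_lit 39236284512, nat_lit 40585565896, nat_lit 23307110384, nat_lit 24243729510, nat_lit 34737309150, nat_lit 33727121680], nat_lit 1271250, nat_lit 1271250, nat_lit 1167600, nat_lit 3171500, nat_lit 0, nat_lit 1100001, [nat_lit 490000, nat_lit 1100000, nat_lit 1785000], [nat_lit 34, nat_lit 40, nat_lit 40, nat_lit 80, nat_lit 7, nat_lit 373, nat_lit 150, nat_lit 12]⟩, ⟨p101_k14, nat_lit 0, nat_lit 0, nat_lit 325, nat_lit 0, nat_lit 547586, [nat_lit 2032000000, nat_lit 4688000000, nat_lit 9842000000], [], [nat_lit 24933569622,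 nat_lit 26034560145, nat_lit 33176682194, nat_lit 34028620602, nat_lit 28014426622, nat_lit 28833837594, nat_lit 35198510158, nat_lit 36131450476], nat_lit 1271250, nat_lit 1271250, nat_lit 1271250, nat_lit 1271250, nat_lit 1100001, nat_lit 2298750, [nat_lit 490000, nat_lit 1100000, nat_lit 2127500], [nat_lit 27, nat_lit 40, nat_lit 40, nat_lit 80, nat_lit 13, nat_lit 401, nat_lit 175, nat_lit 11]⟩,
 zbF0, [⟨nat_lit 7, nat_lit 100, nat_lit 81, nat_lit 92, nat_lit 395441217⟩]⟩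
noncomputable def p101_l81 : Lf2 := ⟨nat_lit 0, nat_lit 20, [nat_lit 5, nat_lit 5, nat_lit 5, nat_lit 20], false, nat_lit 160, nat_lit 300, nat_lit 160, nat_lit 300, ⟨nat_lit 1000, nat_lit 0, nat_lit 0, nat_lit 0, nat_lit 0, nat_lit 0, nat_lit 0, nat_lit 0, nat_lit 0, nat_lit 0, nat_lit 0, nat_lit 0, nat_lit 0, nat_lit 0, nat_lit 0, nat_lit 0, false, false⟩,
 nat_lit 11463, nat_lit 0, nat_lit 0, nat_lit 0, nat_lit 8597, nat_lit 8597, nat_lit 568, nat_lit 0, nat_lit 0, nat_lit 591, nat_lit 0, nat_lit 0, nat_lit 0, nat_lit 0, nat_lit 0, nat_lit 0, nat_lit 0, nat_lit 0, [],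
 ⟨p101_k20, nat_lit 0, nat_lit 0, nat_lit 342, nat_lit 0, nat_lit 547586, [nat_lit 2032000001, nat_lit 6250000000, nat_lit 9842000000], [], [nat_lit 21465138580, nat_lit 24405430190, nat_lit 22758337172, nat_lit 25470828352, nat_lit 25497063510, nat_lit 29329326650, nat_lit 26989209625, nat_lit 30506842656], nat_lit 1271250, nat_lit 1271250, nat_lit 936251, nat_lit 1773750, nat_lit 1100001, nat_lit 2298750, [nat_lit 490000, nat_lit 1427500, nat_lit 1271250], [nat_lit 61, nat_lit 40, nat_lit 40, nat_lit 80, nat_lit 1, nat_lit 373, nat_lit 150, nat_lit 10]⟩, ⟨p101_k20, nat_lit 0, nat_lit 0, nat_lit 336, nat_lit 0, nat_lit 547586, [nat_lit 2032000000, nat_lit 6250000000, nat_lit 9842000000], [], [nat_lit 21232047955, nat_lit 22702193760, nat_lit 22525246547, nat_lit 23788333456, nat_lit 25263972885, nat_lit 27177245754, nat_lit 26989209625, nat_lit 28748026141], nat_lit 1271250, nat_lit 1271250, nat_lit 936251, nat_lit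 1773750, nat_lit 1100001, nat_lit 2298750, [nat_lit 490000, nat_lit 1427500, nat_lit 1271250], [nat_lit 61, nat_lit 40, nat_lit 40, nat_lit 80, nat_lit 1, nat_lit 373, nat_lit 150, nat_lit 10]⟩,
 zbF0, [⟨nat_lit 0, nat_lit 76, nat_lit 72, nat_lit 100, nat_lit 571086085⟩, ⟨nat_lit 16, nat_lit 87, nat_lit 95, nat_lit 100, nat_lit 417961558⟩, ⟨nat_lit 19, nat_lit 87, nat_lit 95, nat_lit 100, nat_lit 417961558⟩]⟩
noncomputable def p101_l82 : Lf2 := ⟨nat_lit 0, nat_lit 20, [nat_lit 5, nat_lit 5, nat_lit 5, nat_lit 20], false, nat_lit 160, nat_lit 300, nat_lit 160, nat_lit 300, ⟨nat_lit 1000, nat_lit 0, nat_lit 0, nat_lit 0, nat_lit 0, nat_lit 0, nat_lit 0, nat_lit 0, nat_lit 0, nat_lit 0, nat_lit 0, nat_lit 0, nat_lit 0, nat_lit 0, nat_lit 0, nat_lit 0, false, false⟩,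
 nat_lit 9868, nat_lit 0, nat_lit 0, nat_lit 0, nat_lit 7401, nat_lit 7401, nat_lit 435, nat_lit 0, nat_lit 0, nat_lit 448, nat_lit 0, nat_lit 0, nat_lit 0, nat_lit 0, nat_lit 0, nat_lit 0, nat_lit 0, nat_lit 0, [],
 ⟨p101_k20, nat_lit 0, nat_lit 0, nat_lit 331, nat_lit 0, nat_lit 547586, [nat_lit 2032000001, nat_lit 6250000000, nat_lit 9842000000], [], [nat_lit 28265569655, nat_lit 29987739427, nat_lit 33470540696, nat_lit 35860702360, nat_lit 30146644218, nat_lit 31407397759, nat_lit 35865534418, nat_lit 37798153503], nat_lit 1271250, nat_lit 1271250, nat_lit 1271250, nat_lit 1271250, nat_lit 1100001, nat_lit 2298750, [nat_lit 490000, nat_lit 1427500, nat_lit 1271250], [nat_lit 61, nat_lit 40, nat_lit 40, nat_lit 80, nat_lit 1, nat_lit 401, nat_lit 175, nat_lit 10]⟩, ⟨p101_k20, nat_lit 0, nat_lit 0, nat_lit 330, nat_lit 0, nat_lit 547586, [nat_lit 2032000000, nat_lit 6250000000, nat_lit 9842000000], [], [nat_lit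 28133822780, nat_lit 28994907666, nat_lit 33470540696, nat_lit 34532330352, nat_lit 30014897343, nat_lit 30649320558, nat_lit 35865534418, nat_lit 36831843961], nat_lit 1271250, nat_lit 1271250, nat_lit 1271250, nat_lit 1271250, nat_lit 1100001, nat_lit 2298750, [nat_lit 490000, nat_lit 1427500, nat_lit 1271250], [nat_lit 61, nat_lit 40, nat_lit 40, nat_lit 80, nat_lit 1, nat_lit 401, nat_lit 175, nat_lit 10]⟩,
 zbF0, [⟨nat_lit 16, nat_lit 74, nat_lit 100, nat_lit 90, nat_lit 405874897⟩, ⟨nat_lit 7, nat_lit 100, nat_lit 81, nat_lit 92, nat_lit 373804414⟩]⟩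
noncomputable def b_V_800_800_20_21 : St := ⟨true, nat_lit 1, nat_lit 2, nat_lit 1, nat_lit 120, nat_lit 320, nat_lit 360, nat_lit 320, nat_lit 340, nat_lit 140, nat_lit 400, nat_lit 80, nat_lit 120, nat_lit 0, nat_lit 300, nat_lit 0, nat_lit 300, nat_lit 40, nat_lit 80, nat_lit 0, nat_lit 0, nat_lit 0, nat_lit 0⟩
theorem d_V_800_800_20_21 (h : EB TB.env) : Dead b_V_800_800_20_21 := chkB_sound0 h (T :=
(.st (nat_lit 1)
(.spl (nat_lit 4) (nat_lit 160)
(.spl (nat_lit 2) (nat_lit 240)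
(.spl (nat_lit 0) (nat_lit 340)
(.leaf p101_l68)
(.trZ (nat_lit 0) (nat_lit 81) (nat_lit 72) (nat_lit 100) (nat_lit 168) (.leaf p101_l69)))
(.spl (nat_lit 0) (nat_lit 340)
(.leaf p101_l70)
(.leaf p101_l71)))
(.spl (nat_lit 2) (nat_lit 240)
(.spl (nat_lit 5) (nat_lit 160)
(.leaf p101_l72)
(.leaf p101_l73))
(.spl (nat_lit 0) (nat_lit 340)
(.spl (nat_lit 0) (nat_lit 330)
(.ord (.leaf p101_l74))
(.trX (nat_lit 16) (nat_lit 83) (nat_lit 98) (nat_lit 100) (nat_lit 288) (.leaf p101_l75)))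
(.trX (nat_lit 16) (nat_lit 77) (nat_lit 100) (nat_lit 99) (nat_lit 276) (.leaf p101_l76)))))
(.spl (nat_lit 5) (nat_lit 160)
(.spl (nat_lit 2) (nat_lit 240)
(.leaf p101_l77)
(.leaf p101_l78))
(.spl (nat_lit 4) (nat_lit 160)
(.spl (nat_lit 0) (nat_lit 340)
(.leaf p101_l79)
(.trZ (nat_lit 0) (nat_lit 81) (nat_lit 72) (nat_lit 100) (nat_lit 168) (.leaf p101_l80)))
(.spl (nat_lit 2) (nat_lit 240)
(.leaf p101_l81)
(.leaf p101_l82)))))) (by decide +kernel)
noncomputable def p101_l83 : Lf2 := ⟨nat_lit 0, nat_lit 20, [nat_lit 5, nat_lit 5, nat_lit 5, nat_lit 20], false, nat_lit 0, nat_lit 160, nat_lit 0, nat_lit 300, ⟨nat_lit 1000, nat_lit 0, nat_lit 0, nat_lit 0, nat_lit 0, nat_lit 0, nat_lit 0, nat_lit 0, nat_lit 0, nat_lit 0, nat_lit 0, nat_lit 0, nat_lit 0, nat_lit 0, nat_lit 0, nat_lit 0, false, false⟩,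
 nat_lit 0, nat_lit 9868, nat_lit 0, nat_lit 0, nat_lit 7400, nat_lit 6110, nat_lit 724, nat_lit 0, nat_lit 0, nat_lit 819, nat_lit 0, nat_lit 0, nat_lit 0, nat_lit 17625938694371, nat_lit 0, nat_lit 0, nat_lit 0, nat_lit 0, [],
 ⟨p101_k14, nat_lit 0, nat_lit 0, nat_lit 578, nat_lit 0, nat_lit 788534, [nat_lit 2032000001, nat_lit 4688000000, nat_lit 9842000000], [], [nat_lit 28973348400, nat_lit 27249001300, nat_lit 27543137700, nat_lit 29239872100, nat_lit 22672010500, nat_lit 23498851000, nat_lit 27199900101, nat_lit 24557810400], nat_lit 1271250, nat_lit 1271250, nat_lit 936251, nat_lit 1773750, nat_lit 0, nat_lit 1100001, [nat_lit 490000, nat_lit 1100000, nat_lit 2127500], [nat_lit 27, nat_lit 40, nat_lit 40, nat_lit 80, nat_lit 13, nat_lit 317, nat_lit 100, nat_lit 9]⟩, ⟨p101_k14, nat_lit 0, nat_lit 0, nat_lit 182, nat_lit 0, nat_lit 0, [nat_lit 2032000000, nat_lit 4688000000, nat_lit 9842000000], [], [nat_lit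 23683878515, nat_lit 25513769445, nat_lit 26080881455, nat_lit 27594686115, nat_lit 24386967675, nat_lit 25530551753, nat_lit 25938605050, nat_lit 27156659295], nat_lit 0, nat_lit 0, nat_lit 0, nat_lit 0, nat_lit 0, nat_lit 0, [], [nat_lit 27, nat_lit 40, nat_lit 40, nat_lit 80, nat_lit 13, nat_lit 373, nat_lit 150, nat_lit 11]⟩,
 zbF0, [⟨nat_lit 0, nat_lit 71, nat_lit 71, nat_lit 100, nat_lit 646410477⟩, ⟨nat_lit 7, nat_lit 100, nat_lit 81, nat_lit 92, nat_lit 232655655⟩]⟩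
noncomputable def p101_l84 : Lf2 := ⟨nat_lit 0, nat_lit 20, [nat_lit 5, nat_lit 5, nat_lit 5, nat_lit 20], false, nat_lit 0, nat_lit 160, nat_lit 0, nat_lit 300, ⟨nat_lit 1000, nat_lit 0, nat_lit 0, nat_lit 0, nat_lit 0, nat_lit 0, nat_lit 0, nat_lit 0, nat_lit 0, nat_lit 0, nat_lit 0, nat_lit 0, nat_lit 0, nat_lit 0, nat_lit 0, nat_lit 0, false, false⟩,
 nat_lit 0, nat_lit 6636, nat_lit 0, nat_lit 0, nat_lit 5371, nat_lit 11966, nat_lit 1344, nat_lit 0, nat_lit 0, nat_lit 0, nat_lit 0, nat_lit 0, nat_lit 0, nat_lit 0, nat_lit 0, nat_lit 0, nat_lit 0, nat_lit 0, [],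
 ⟨p101_k19, nat_lit 0, nat_lit 0, nat_lit 516, nat_lit 0, nat_lit 859225, [nat_lit 2032000001, nat_lit 7968000000], [], [nat_lit 23080320533, nat_lit 25223012788, nat_lit 25619965174, nat_lit 27756136268, nat_lit 20677747770, nat_lit 21461478980, nat_lit 23366899054, nat_lit 23202452060], nat_lit 1271250, nat_lit 1271250, nat_lit 1167600, nat_lit 1789500, nat_lit 0, nat_lit 1100001, [nat_lit 490000, nat_lit 1740000], [nat_lit 110, nat_lit 40, nat_lit 40, nat_lit 80, nat_lit 109, nat_lit 317, nat_lit 100, nat_lit 10]⟩, ⟨p101_k13, nat_lit 0, nat_lit 0, nat_lit 166, nat_lit 0, nat_lit 0, [nat_lit 2032000000, nat_lit 9842000000], [], [nat_lit 34307296663, nat_lit 37067999388, nat_lit 36595074848, nat_lit 38939295444, nat_lit 28998716968, nat_lit 30610655082, nat_lit 29539794206, nat_lit 30905223021], nat_lit 0, nat_lit 0, nat_lit 0, nat_lit 0, nat_lit 0, nat_lit 0, [], [nat_lit 94, nat_lit 40, nat_lit 40, nat_lit 80,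 nat_lit 95, nat_lit 373, nat_lit 150, nat_lit 10]⟩,
 zbF0, [⟨nat_lit 0, nat_lit 72, nat_lit 61, nat_lit 100, nat_lit 685209667⟩, ⟨nat_lit 7, nat_lit 100, nat_lit 81, nat_lit 92, nat_lit 62684316⟩]⟩
noncomputable def p101_l85 : Lf2 := ⟨nat_lit 0, nat_lit 20, [nat_lit 5, nat_lit 5, nat_lit 5, nat_lit 20], false, nat_lit 0, nat_lit 160, nat_lit 0, nat_lit 300, ⟨nat_lit 1000, nat_lit 0, nat_lit 0, nat_lit 0, nat_lit 0, nat_lit 0, nat_lit 0, nat_lit 0, nat_lit 0, nat_lit 0, nat_lit 0, nat_lit 0, nat_lit 0, nat_lit 0, nat_lit 0, nat_lit 0, false, false⟩,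
 nat_lit 0, nat_lit 8108, nat_lit 0, nat_lit 0, nat_lit 6081, nat_lit 6381, nat_lit 677, nat_lit 0, nat_lit 0, nat_lit 706, nat_lit 0, nat_lit 0, nat_lit 0, nat_lit 0, nat_lit 0, nat_lit 0, nat_lit 0, nat_lit 0, [],
 ⟨p101_k14, nat_lit 0, nat_lit 0, nat_lit 541, nat_lit 0, nat_lit 788534, [nat_lit 2032000001, nat_lit 4688000000, nat_lit 9842000000], [], [nat_lit 32390012889, nat_lit 33151657623, nat_lit 38287082236, nat_lit 39653275944, nat_lit 29629419501, nat_lit 30266366805, nat_lit 34434336748, nat_lit 34967605298], nat_lit 1271250, nat_lit 1271250, nat_lit 1271250, nat_lit 1271250, nat_lit 0, nat_lit 1100001, [nat_lit 490000, nat_lit 1100000, nat_lit 2127500], [nat_lit 27, nat_lit 40, nat_lit 40, nat_lit 80, nat_lit 13, nat_lit 373, nat_lit 150, nat_lit 10]⟩, ⟨p101_k14, nat_lit 0, nat_lit 0, nat_lit 212, nat_lit 0, nat_lit 0, [nat_lit 2032000000, nat_lit 4688000000, nat_lit 9842000000], [], [nat_lit 27413939526,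 nat_lit 28870438304, nat_lit 39126409036, nat_lit 40528083144, nat_lit 26628074909, nat_lit 27453662831, nat_lit 34671912058, nat_lit 35578508251], nat_lit 0, nat_lit 0, nat_lit 0, nat_lit 0, nat_lit 0, nat_lit 0, [], [nat_lit 27, nat_lit 40, nat_lit 40, nat_lit 80, nat_lit 13, nat_lit 401, nat_lit 175, nat_lit 11]⟩,
 zbF0, [⟨nat_lit 7, nat_lit 100, nat_lit 81, nat_lit 92, nat_lit 131679087⟩]⟩
noncomputable def p101_l86 : Lf2 := ⟨nat_lit 0, nat_lit 20, [nat_lit 5, nat_lit 5, nat_lit 5, nat_lit 20], false, nat_lit 0, nat_lit 160, nat_lit 0, nat_lit 300, ⟨nat_lit 1000, nat_lit 0, nat_lit 0, nat_lit 0, nat_lit 0, nat_lit 0, nat_lit 0, nat_lit 0, nat_lit 0, nat_lit 0, nat_lit 0, nat_lit 0, nat_lit 0, nat_lit 0, nat_lit 0, nat_lit 0, false, false⟩,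
 nat_lit 0, nat_lit 5785, nat_lit 0, nat_lit 0, nat_lit 4683, nat_lit 10490, nat_lit 1138, nat_lit 0, nat_lit 0, nat_lit 0, nat_lit 0, nat_lit 0, nat_lit 0, nat_lit 0, nat_lit 0, nat_lit 0, nat_lit 0, nat_lit 0, [],
 ⟨p101_k19, nat_lit 0, nat_lit 0, nat_lit 508, nat_lit 0, nat_lit 859225, [nat_lit 2032000001, nat_lit 7968000000], [], [nat_lit 28908490074, nat_lit 29638744498, nat_lit 35576674392, nat_lit 36777529436, nat_lit 27693473146, nat_lit 28311956946, nat_lit 31580226244, nat_lit 32092017314], nat_lit 1271250, nat_lit 1271250, nat_lit 1271250, nat_lit 1271250, nat_lit 0, nat_lit 1100001, [nat_lit 490000, nat_lit 1740000], [nat_lit 110, nat_lit 40, nat_lit 40, nat_lit 80, nat_lit 109, nat_lit 249, nat_lit 40, nat_lit 7]⟩, ⟨p101_k13, nat_lit 0, nat_lit 0, nat_lit 225, nat_lit 0, nat_lit 0, [nat_lit 2032000000, nat_lit 9842000000], [], [nat_lit 39319976880, nat_lit 40662008160, nat_lit 50622388440, nat_lit 52510025760,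 nat_lit 32105732730, nat_lit 32877712390, nat_lit 39480337820, nat_lit 40627485145], nat_lit 0, nat_lit 0, nat_lit 0, nat_lit 0, nat_lit 0, nat_lit 0, [], [nat_lit 94, nat_lit 40, nat_lit 40, nat_lit 80, nat_lit 95, nat_lit 401, nat_lit 175, nat_lit 11]⟩,
 zbF0, []⟩
noncomputable def p101_l87 : Lf2 := ⟨nat_lit 0, nat_lit 20, [nat_lit 5, nat_lit 5, nat_lit 5, nat_lit 20], false, nat_lit 160, nat_lit 300, nat_lit 0, nat_lit 160, ⟨nat_lit 1000, nat_lit 0, nat_lit 0, nat_lit 0, nat_lit 0, nat_lit 0, nat_lit 0, nat_lit 0, nat_lit 0, nat_lit 0, nat_lit 0, nat_lit 0, nat_lit 0, nat_lit 0, nat_lit 0, nat_lit 0, false, false⟩,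
 nat_lit 0, nat_lit 8007, nat_lit 0, nat_lit 0, nat_lit 6005, nat_lit 6200, nat_lit 702, nat_lit 0, nat_lit 0, nat_lit 886, nat_lit 0, nat_lit 0, nat_lit 0, nat_lit 0, nat_lit 0, nat_lit 0, nat_lit 0, nat_lit 0, [],
 ⟨p101_k14, nat_lit 0, nat_lit 0, nat_lit 541, nat_lit 0, nat_lit 955874, [nat_lit 2032000001, nat_lit 4688000000, nat_lit 9842000000], [], [nat_lit 26616667460, nat_lit 28420909860, nat_lit 27727686470, nat_lit 29246206740, nat_lit 29268538428, nat_lit 30980666540, nat_lit 30397459671, nat_lit 31686863765], nat_lit 1271250, nat_lit 1271250, nat_lit 936251, nat_lit 1773750, nat_lit 1100001, nat_lit 2298750, [nat_lit 490000, nat_lit 1100000, nat_lit 2127500], [nat_lit 27, nat_lit 40, nat_lit 40, nat_lit 80, nat_lit 13, nat_lit 373, nat_lit 150, nat_lit 10]⟩, ⟨p101_k14, nat_lit 0, nat_lit 0, nat_lit 182, nat_lit 0, nat_lit 0, [nat_lit 2032000000, nat_lit 4688000000, nat_lit 9842000000], [], [nat_lit 23052371550,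 nat_lit 24898783150, nat_lit 25446850350, nat_lit 27048658800, nat_lit 18964984350, nat_lit 20522220750, nat_lit 21064279950, nat_lit 22361582000], nat_lit 0, nat_lit 0, nat_lit 0, nat_lit 0, nat_lit 0, nat_lit 0, [], [nat_lit 27, nat_lit 40, nat_lit 40, nat_lit 80, nat_lit 13, nat_lit 317, nat_lit 100, nat_lit 9]⟩,
 zbF0, [⟨nat_lit 0, nat_lit 76, nat_lit 72, nat_lit 100, nat_lit 576485734⟩, ⟨nat_lit 0, nat_lit 72, nat_lit 61, nat_lit 100, nat_lit 16796668⟩, ⟨nat_lit 4, nat_lit 100, nat_lit 74, nat_lit 90, nat_lit 460645676⟩]⟩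
noncomputable def p101_l88 : Lf2 := ⟨nat_lit 0, nat_lit 20, [nat_lit 5, nat_lit 5, nat_lit 5, nat_lit 20], false, nat_lit 160, nat_lit 300, nat_lit 160, nat_lit 300, ⟨nat_lit 1000, nat_lit 0, nat_lit 0, nat_lit 0, nat_lit 0, nat_lit 0, nat_lit 0, nat_lit 0, nat_lit 0, nat_lit 0, nat_lit 0, nat_lit 0, nat_lit 0, nat_lit 0, nat_lit 0, nat_lit 0, false, false⟩,
 nat_lit 0, nat_lit 9240, nat_lit 0, nat_lit 0, nat_lit 6930, nat_lit 3718, nat_lit 798, nat_lit 0, nat_lit 0, nat_lit 0, nat_lit 0, nat_lit 0, nat_lit 0, nat_lit 0, nat_lit 0, nat_lit 0, nat_lit 0, nat_lit 0, [],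
 ⟨p101_k14, nat_lit 0, nat_lit 0, nat_lit 541, nat_lit 0, nat_lit 955874, [nat_lit 2032000001, nat_lit 4688000000, nat_lit 9842000000], [], [nat_lit 22432733810, nat_lit 24764347240, nat_lit 24019134520, nat_lit 26066933640, nat_lit 26083301370, nat_lit 27920126440, nat_lit 28762494871, nat_lit 29221505640], nat_lit 1271250, nat_lit 1271250, nat_lit 936251, nat_lit 1773750, nat_lit 1100001, nat_lit 2298750, [nat_lit 490000, nat_lit 1100000, nat_lit 2127500], [nat_lit 27, nat_lit 40, nat_lit 40, nat_lit 80, nat_lit 13, nat_lit 373, nat_lit 150, nat_lit 10]⟩, ⟨p101_k14, nat_lit 0, nat_lit 0, nat_lit 50, nat_lit 0, nat_lit 0, [nat_lit 2032000000, nat_lit 4688000000, nat_lit 9842000000], [], [nat_lit 16224302196, nat_lit 17894395224, nat_lit 19521688616, nat_lit 20920126496, nat_lit 22296890543, nat_lit 23552113633, nat_lit 24568080524, nat_lit 25633469776], nat_lit 0, nat_lit 0, nat_lit 0, nat_lit 0, nat_lit 0, nat_lit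 0, [], [nat_lit 27, nat_lit 40, nat_lit 40, nat_lit 80, nat_lit 13, nat_lit 373, nat_lit 150, nat_lit 10]⟩,
 zbF0, [⟨nat_lit 0, nat_lit 76, nat_lit 72, nat_lit 100, nat_lit 513005377⟩, ⟨nat_lit 4, nat_lit 100, nat_lit 74, nat_lit 90, nat_lit 498996434⟩, ⟨nat_lit 7, nat_lit 100, nat_lit 81, nat_lit 92, nat_lit 520610735⟩]⟩
noncomputable def p101_l89 : Lf2 := ⟨nat_lit 0, nat_lit 20, [nat_lit 5, nat_lit 5, nat_lit 5, nat_lit 20], false, nat_lit 160, nat_lit 300, nat_lit 0, nat_lit 300, ⟨nat_lit 1000, nat_lit 0, nat_lit 0, nat_lit 0, nat_lit 0, nat_lit 0, nat_lit 0, nat_lit 0, nat_lit 0, nat_lit 0, nat_lit 0, nat_lit 0, nat_lit 0, nat_lit 0, nat_lit 0, nat_lit 0, false, false⟩,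
 nat_lit 0, nat_lit 7781, nat_lit 0, nat_lit 0, nat_lit 5835, nat_lit 6317, nat_lit 684, nat_lit 0, nat_lit 0, nat_lit 718, nat_lit 0, nat_lit 0, nat_lit 0, nat_lit 18763948603796, nat_lit 0, nat_lit 0, nat_lit 0, nat_lit 0, [],
 ⟨p101_k14, nat_lit 0, nat_lit 0, nat_lit 346, nat_lit 0, nat_lit 617987, [nat_lit 2032000001, nat_lit 4688000000, nat_lit 9842000000], [], [nat_lit 26521633960, nat_lit 26967402840, nat_lit 32427163280, nat_lit 32797491235, nat_lit 29061425245, nat_lit 29398639374, nat_lit 34194995790, nat_lit 34473973449], nat_lit 1271250, nat_lit 1271250, nat_lit 1271250, nat_lit 1271250, nat_lit 1100001, nat_lit 2298750, [nat_lit 490000, nat_lit 1100000, nat_lit 2127500], [nat_lit 27, nat_lit 40, nat_lit 40, nat_lit 80, nat_lit 13, nat_lit 401, nat_lit 175, nat_lit 10]⟩, ⟨p101_k14, nat_lit 0, nat_lit 0, nat_lit 211, nat_lit 0, nat_lit 0, [nat_lit 2032000000, nat_lit 4688000000, nat_lit 9842000000], [],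 [nat_lit 27342694082, nat_lit 27996082717, nat_lit 38947352652, nat_lit 39644405130, nat_lit 26623130713, nat_lit 27035666584, nat_lit 34597018106, nat_lit 35048442843], nat_lit 0, nat_lit 0, nat_lit 0, nat_lit 0, nat_lit 0, nat_lit 0, [], [nat_lit 27, nat_lit 40, nat_lit 40, nat_lit 80, nat_lit 13, nat_lit 401, nat_lit 175, nat_lit 11]⟩,
 zbF0, [⟨nat_lit 4, nat_lit 100, nat_lit 84, nat_lit 93, nat_lit 357773582⟩, ⟨nat_lit 7, nat_lit 100, nat_lit 84, nat_lit 93, nat_lit 133136972⟩]⟩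
noncomputable def p101_l90 : Lf2 := ⟨nat_lit 0, nat_lit 20, [nat_lit 5, nat_lit 5, nat_lit 5, nat_lit 20], false, nat_lit 160, nat_lit 288, nat_lit 0, nat_lit 300, ⟨nat_lit 1000, nat_lit 0, nat_lit 0, nat_lit 0, nat_lit 0, nat_lit 0, nat_lit 0, nat_lit 0, nat_lit 0, nat_lit 0, nat_lit 0, nat_lit 0, nat_lit 0, nat_lit 0, nat_lit 0, nat_lit 0, false, false⟩,
 nat_lit 0, nat_lit 6941, nat_lit 0, nat_lit 0, nat_lit 5410, nat_lit 6433, nat_lit 671, nat_lit 0, nat_lit 0, nat_lit 705, nat_lit 0, nat_lit 0, nat_lit 0, nat_lit 0, nat_lit 0, nat_lit 0, nat_lit 0, nat_lit 0, [],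
 ⟨p101_k15, nat_lit 0, nat_lit 0, nat_lit 421, nat_lit 0, nat_lit 746999, [nat_lit 2032000001, nat_lit 4688000000, nat_lit 9842000000], [], [nat_lit 27526779626, nat_lit 27867774826, nat_lit 32183057850, nat_lit 32489717080, nat_lit 29217632852, nat_lit 29503853454, nat_lit 33609182202, nat_lit 34047090949], nat_lit 1271250, nat_lit 1271250, nat_lit 1271250, nat_lit 1271250, nat_lit 1100001, nat_lit 2196000, [nat_lit 490000, nat_lit 1100000, nat_lit 2127500], [nat_lit 27, nat_lit 40, nat_lit 40, nat_lit 80, nat_lit 13, nat_lit 401, nat_lit 175, nat_lit 10]⟩, ⟨p101_k14, nat_lit 0, nat_lit 0, nat_lit 212, nat_lit 0, nat_lit 0, [nat_lit 2032000000, nat_lit 4688000000, nat_lit 9842000000], [], [nat_lit 27384353793, nat_lit 28908470147, nat_lit 39271892348, nat_lit 40679716392, nat_lit 26544619412, nat_lit 27372397434, nat_lit 34732763394, nat_lit 35642403797], nat_lit 0, nat_lit 0, nat_lit 0, nat_lit 0, nat_lit 0, nat_lit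 0, [], [nat_lit 27, nat_lit 40, nat_lit 40, nat_lit 80, nat_lit 13, nat_lit 401, nat_lit 175, nat_lit 11]⟩,
 zbF0, [⟨nat_lit 16, nat_lit 83, nat_lit 98, nat_lit 100, nat_lit 97964672⟩, ⟨nat_lit 4, nat_lit 100, nat_lit 77, nat_lit 91, nat_lit 280316492⟩, ⟨nat_lit 7, nat_lit 100, nat_lit 81, nat_lit 92, nat_lit 129710565⟩]⟩
noncomputable def p101_l91 : Lf2 := ⟨nat_lit 0, nat_lit 20, [nat_lit 5, nat_lit 5, nat_lit 5, nat_lit 20], false, nat_lit 160, nat_lit 276, nat_lit 0, nat_lit 300, ⟨nat_lit 1000, nat_lit 0, nat_lit 0, nat_lit 0, nat_lit 0, nat_lit 0, nat_lit 0, nat_lit 0, nat_lit 0, nat_lit 0, nat_lit 0, nat_lit 0, nat_lit 0, nat_lit 0, nat_lit 0, nat_lit 0, false, false⟩,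
 nat_lit 0, nat_lit 6268, nat_lit 0, nat_lit 0, nat_lit 5073, nat_lit 6433, nat_lit 676, nat_lit 0, nat_lit 0, nat_lit 538, nat_lit 0, nat_lit 0, nat_lit 0, nat_lit 0, nat_lit 0, nat_lit 0, nat_lit 0, nat_lit 0, [],
 ⟨p101_k16, nat_lit 0, nat_lit 0, nat_lit 413, nat_lit 0, nat_lit 859225, [nat_lit 2032000001, nat_lit 4688000000, nat_lit 7968000000], [], [nat_lit 25831973228, nat_lit 26509723798, nat_lit 31367293296, nat_lit 32465640280, nat_lit 27577551625, nat_lit 28206769930, nat_lit 33300138693, nat_lit 34179760066], nat_lit 1271250, nat_lit 1271250, nat_lit 1271250, nat_lit 1271250, nat_lit 1100001, nat_lit 2093250, [nat_lit 490000, nat_lit 1100000, nat_lit 1785000], [nat_lit 34, nat_lit 40, nat_lit 40, nat_lit 80, nat_lit 7, nat_lit 289, nat_lit 75, nat_lit 8]⟩, ⟨p101_k14, nat_lit 0, nat_lit 0, nat_lit 212, nat_lit 0, nat_lit 0, [nat_lit 2032000000, nat_lit 4688000000, nat_lit 9842000000], [], [nat_lit 29053831918,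 nat_lit 30577948272, nat_lit 39271892348, nat_lit 40679716392, nat_lit 28214097537, nat_lit 29041875559, nat_lit 34732763394, nat_lit 35642403797], nat_lit 0, nat_lit 0, nat_lit 0, nat_lit 0, nat_lit 0, nat_lit 0, [], [nat_lit 27, nat_lit 40, nat_lit 40, nat_lit 80, nat_lit 13, nat_lit 401, nat_lit 175, nat_lit 11]⟩,
 zbF0, [⟨nat_lit 4, nat_lit 100, nat_lit 67, nat_lit 88, nat_lit 486635485⟩, ⟨nat_lit 19, nat_lit 81, nat_lit 100, nat_lit 92, nat_lit 129710565⟩]⟩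
noncomputable def p101_l92 : Lf2 := ⟨nat_lit 0, nat_lit 20, [nat_lit 5, nat_lit 5, nat_lit 5, nat_lit 20], false, nat_lit 0, nat_lit 160, nat_lit 0, nat_lit 300, ⟨nat_lit 373, nat_lit 627, nat_lit 0, nat_lit 8, nat_lit 250, nat_lit 627, nat_lit 65, nat_lit 0, nat_lit 0, nat_lit 0, nat_lit 0, nat_lit 0, nat_lit 0, nat_lit 0, nat_lit 0, nat_lit 5000000, false, false⟩,
 nat_lit 7000, nat_lit 0, nat_lit 0, nat_lit 0, nat_lit 5250, nat_lit 5250, nat_lit 315, nat_lit 0, nat_lit 0, nat_lit 133, nat_lit 0, nat_lit 0, nat_lit 0, nat_lit 0, nat_lit 0, nat_lit 389400, nat_lit 0, nat_lit 0, [(nat_lit 19, [(nat_lit 1, nat_lit 396), (nat_lit 2, nat_lit 231)]), (nat_lit 22, [(nat_lit 1, nat_lit 396), (nat_lit 2, nat_lit 231)])],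
 ⟨p101_k14, nat_lit 0, nat_lit 0, nat_lit 462, nat_lit 0, nat_lit 547586, [nat_lit 1703988800, nat_lit 2798279200, nat_lit 3668241200], [], [nat_lit 25920595300, nat_lit 25526776575, nat_lit 24657596175, nat_lit 27517729000, nat_lit 21274208675, nat_lit 22975106675, nat_lit 26283200575, nat_lit 24282297800], nat_lit 1271250, nat_lit 1271250, nat_lit 936251, nat_lit 1773750, nat_lit 0, nat_lit 1100001, [nat_lit 490000, nat_lit 1100000, nat_lit 2127500], [nat_lit 27, nat_lit 40, nat_lit 40, nat_lit 80, nat_lit 13, nat_lit 317, nat_lit 100, nat_lit 9]⟩, ⟨p101_k14, nat_lit 0, nat_lit 0, nat_lit 459, nat_lit 0, nat_lit 547586, [nat_lit 757936000, nat_lit 1748624000, nat_lit 3671066000], [], [nat_lit 11822191057, nat_lit 13675269114, nat_lit 13553020260, nat_lit 15151447268, nat_lit 10505305337, nat_lit 11655330355, nat_lit 14558830601, nat_lit 12339490226], nat_lit 1271250, nat_lit 1271250, nat_lit 936251, nat_lit 1773750,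 nat_lit 0, nat_lit 2118750, [nat_lit 490000, nat_lit 1100000, nat_lit 2127500], [nat_lit 27, nat_lit 40, nat_lit 40, nat_lit 80, nat_lit 13, nat_lit 373, nat_lit 150, nat_lit 11]⟩,
 ⟨nat_lit 3162, nat_lit 4473, ⟨.ofNat (nat_lit 526772), .ofNat (nat_lit 696911), .ofNat (nat_lit 548248), .ofNat (nat_lit 718387), .ofNat (nat_lit 540839), .ofNat (nat_lit 693416), .ofNat (nat_lit 562904), .ofNat (nat_lit 715481)⟩, ⟨.ofNat (nat_lit 0), .ofNat (nat_lit 302621), .ofNat (nat_lit 0), .ofNat (nat_lit 345754), .ofNat (nat_lit 0), .ofNat (nat_lit 306116), .ofNat (nat_lit 0), .ofNat (nat_lit 350426)⟩⟩, [⟨nat_lit 7, nat_lit 100, nat_lit 81, nat_lit 92, nat_lit 27627982⟩]⟩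
noncomputable def p101_l93 : Lf2 := ⟨nat_lit 0, nat_lit 20, [nat_lit 5, nat_lit 5, nat_lit 5, nat_lit 20], false, nat_lit 160, nat_lit 300, nat_lit 0, nat_lit 300, ⟨nat_lit 493, nat_lit 507, nat_lit 0, nat_lit 8, nat_lit 248, nat_lit 507, nat_lit 176, nat_lit 0, nat_lit 0, nat_lit 0, nat_lit 0, nat_lit 0, nat_lit 0, nat_lit 0, nat_lit 0, nat_lit 5000000, false, false⟩,
 nat_lit 8244, nat_lit 0, nat_lit 0, nat_lit 0, nat_lit 6182, nat_lit 6182, nat_lit 233, nat_lit 0, nat_lit 0, nat_lit 65, nat_lit 0, nat_lit 0, nat_lit 0, nat_lit 0, nat_lit 0, nat_lit 358200, nat_lit 0, nat_lit 0, [(nat_lit 19, [(nat_lit 1, nat_lit 248), (nat_lit 2, nat_lit 259)]), (nat_lit 22, [(nat_lit 1, nat_lit 248), (nat_lit 2, nat_lit 259)])],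
 ⟨p101_k20, nat_lit 0, nat_lit 0, nat_lit 327, nat_lit 0, nat_lit 506304, [nat_lit 1978088000, nat_lit 3588006800, nat_lit 4489866800], [], [nat_lit 21071939705, nat_lit 23504767365, nat_lit 22615486857, nat_lit 24804731137, nat_lit 24822721485, nat_lit 27124471497, nat_lit 26923355888, nat_lit 28644761736], nat_lit 1271250, nat_lit 1271250, nat_lit 936251, nat_lit 1773750, nat_lit 1100001, nat_lit 2298750, [nat_lit 490000, nat_lit 1427500, nat_lit 1271250], [nat_lit 61, nat_lit 40, nat_lit 40, nat_lit 80, nat_lit 1, nat_lit 373, nat_lit 150, nat_lit 10]⟩, ⟨p101_k20, nat_lit 0, nat_lit 0, nat_lit 447, nat_lit 0, nat_lit 506304, [nat_lit 1001776000, nat_lit 3081250000, nat_lit 4852106000], [], [nat_lit 16402163705, nat_lit 17144158065, nat_lit 17494986785, nat_lit 18092885836, nat_lit 13716762186, nat_lit 14148514859, nat_lit 15751122718, nat_lit 14856077746], nat_lit 1271250, nat_lit 1271250, nat_lit 936251, nat_lit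 1773750, nat_lit 0, nat_lit 2118750, [nat_lit 490000, nat_lit 1427500, nat_lit 1271250], [nat_lit 61, nat_lit 40, nat_lit 40, nat_lit 80, nat_lit 1, nat_lit 373, nat_lit 150, nat_lit 11]⟩,
 ⟨nat_lit 3162, nat_lit 4473, ⟨.ofNat (nat_lit 526772), .ofNat (nat_lit 696911), .ofNat (nat_lit 537509), .ofNat (nat_lit 707649), .ofNat (nat_lit 540839), .ofNat (nat_lit 693416), .ofNat (nat_lit 551871), .ofNat (nat_lit 704449)⟩, ⟨.ofNat (nat_lit 302621), .ofNat (nat_lit 540545), .ofNat (nat_lit 345754), .ofNat (nat_lit 583678), .ofNat (nat_lit 306116), .ofNat (nat_lit 519453), .ofNat (nat_lit 350426), .ofNat (nat_lit 563762)⟩⟩, [⟨nat_lit 0, nat_lit 79, nat_lit 72, nat_lit 100, nat_lit 145705135⟩, ⟨nat_lit 16, nat_lit 87, nat_lit 95, nat_lit 100, nat_lit 6560325⟩, ⟨nat_lit 4, nat_lit 100, nat_lit 74, nat_lit 90, nat_lit 422379197⟩, ⟨nat_lit 19, nat_lit 87, nat_lit 95, nat_lit 100, nat_lit 40307447⟩]⟩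
noncomputable def p101_l94 : Lf2 := ⟨nat_lit 0, nat_lit 20, [nat_lit 5, nat_lit 5, nat_lit 5, nat_lit 20], false, nat_lit 160, nat_lit 288, nat_lit 0, nat_lit 288, ⟨nat_lit 1000, nat_lit 0, nat_lit 0, nat_lit 0, nat_lit 0, nat_lit 0, nat_lit 0, nat_lit 0, nat_lit 0, nat_lit 0, nat_lit 0, nat_lit 0, nat_lit 0, nat_lit 0, nat_lit 0, nat_lit 0, false, false⟩,
 nat_lit 10064, nat_lit 0, nat_lit 0, nat_lit 0, nat_lit 7845, nat_lit 7845, nat_lit 450, nat_lit 0, nat_lit 0, nat_lit 663, nat_lit 0, nat_lit 0, nat_lit 0, nat_lit 0, nat_lit 0, nat_lit 0, nat_lit 0, nat_lit 0, [],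
 ⟨p101_k15, nat_lit 0, nat_lit 0, nat_lit 319, nat_lit 0, nat_lit 521607, [nat_lit 2032000001, nat_lit 4688000000, nat_lit 9842000000], [], [nat_lit 22775847666, nat_lit 25350733497, nat_lit 24487413095, nat_lit 26707285520, nat_lit 26712821891, nat_lit 28647957704, nat_lit 27614383248, nat_lit 29286508752], nat_lit 1271250, nat_lit 1271250, nat_lit 1167600, nat_lit 1789500, nat_lit 1100001, nat_lit 2196000, [nat_lit 490000, nat_lit 1100000, nat_lit 2127500], [nat_lit 27, nat_lit 40, nat_lit 40, nat_lit 80, nat_lit 13, nat_lit 373, nat_lit 150, nat_lit 10]⟩, ⟨p101_k15, nat_lit 0, nat_lit 0, nat_lit 443, nat_lit 0, nat_lit 521607, [nat_lit 2032000000, nat_lit 4688000000, nat_lit 9842000000], [], [nat_lit 34129236146, nat_lit 32061505961, nat_lit 28586042695, nat_lit 29883641930, nat_lit 24807835719, nat_lit 25807926697, nat_lit 29937321504, nat_lit 28231724364], nat_lit 1271250, nat_lit 1271250, nat_lit 1167600, nat_lit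 1789500, nat_lit 0, nat_lit 2034000, [nat_lit 490000, nat_lit 1100000, nat_lit 2127500], [nat_lit 27, nat_lit 40, nat_lit 40, nat_lit 80, nat_lit 13, nat_lit 373, nat_lit 150, nat_lit 10]⟩,
 zbF0, [⟨nat_lit 0, nat_lit 72, nat_lit 61, nat_lit 100, nat_lit 276801583⟩, ⟨nat_lit 4, nat_lit 100, nat_lit 71, nat_lit 89, nat_lit 502186796⟩, ⟨nat_lit 19, nat_lit 83, nat_lit 98, nat_lit 100, nat_lit 41546531⟩]⟩
noncomputable def p101_l95 : Lf2 := ⟨nat_lit 0, nat_lit 20, [nat_lit 5, nat_lit 5, nat_lit 5, nat_lit 20], false, nat_lit 0, nat_lit 300, nat_lit 0, nat_lit 300, ⟨nat_lit 1000, nat_lit 0, nat_lit 0, nat_lit 0, nat_lit 0, nat_lit 0, nat_lit 0, nat_lit 0, nat_lit 0, nat_lit 0, nat_lit 0, nat_lit 0, nat_lit 0, nat_lit 0, nat_lit 0, nat_lit 0, false, false⟩,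
 nat_lit 8917, nat_lit 0, nat_lit 0, nat_lit 0, nat_lit 6687, nat_lit 6687, nat_lit 611, nat_lit 0, nat_lit 0, nat_lit 385, nat_lit 0, nat_lit 0, nat_lit 0, nat_lit 0, nat_lit 0, nat_lit 0, nat_lit 0, nat_lit 0, [],
 ⟨p101_k14, nat_lit 0, nat_lit 0, nat_lit 443, nat_lit 0, nat_lit 547586, [nat_lit 2032000001, nat_lit 4688000000, nat_lit 9842000000], [], [nat_lit 29606183387, nat_lit 31580743155, nat_lit 39982522372, nat_lit 42858250604, nat_lit 28118832693, nat_lit 29298604111, nat_lit 35029998766, nat_lit 36879019161], nat_lit 1271250, nat_lit 1271250, nat_lit 1271250, nat_lit 1271250, nat_lit 0, nat_lit 2118750, [nat_lit 490000, nat_lit 1100000, nat_lit 2127500], [nat_lit 27, nat_lit 40, nat_lit 40, nat_lit 80, nat_lit 13, nat_lit 401, nat_lit 175, nat_lit 11]⟩, ⟨p101_k14, nat_lit 0, nat_lit 0, nat_lit 443, nat_lit 0, nat_lit 547586, [nat_lit 2032000000, nat_lit 4688000000, nat_lit 9842000000], [], [nat_lit 31865477137,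 nat_lit 32814487409, nat_lit 40212019925, nat_lit 41420386488, nat_lit 30378126443, nat_lit 30967613778, nat_lit 35319177047, nat_lit 35954508964], nat_lit 1271250, nat_lit 1271250, nat_lit 1271250, nat_lit 1271250, nat_lit 0, nat_lit 2118750, [nat_lit 490000, nat_lit 1100000, nat_lit 2127500], [nat_lit 27, nat_lit 40, nat_lit 40, nat_lit 80, nat_lit 13, nat_lit 401, nat_lit 175, nat_lit 11]⟩,
 zbF0, [⟨nat_lit 16, nat_lit 74, nat_lit 100, nat_lit 90, nat_lit 121550148⟩, ⟨nat_lit 19, nat_lit 81, nat_lit 100, nat_lit 92, nat_lit 120113980⟩]⟩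
noncomputable def b_V_800_800_20_22 : St := ⟨true, nat_lit 1, nat_lit 2, nat_lit 2, nat_lit 120, nat_lit 320, nat_lit 360, nat_lit 320, nat_lit 340, nat_lit 140, nat_lit 400, nat_lit 80, nat_lit 120, nat_lit 0, nat_lit 300, nat_lit 0, nat_lit 300, nat_lit 40, nat_lit 80, nat_lit 0, nat_lit 0, nat_lit 0, nat_lit 0⟩
theorem d_V_800_800_20_22 (h : EB TB.env) : Dead b_V_800_800_20_22 := chkB_sound0 h (T :=
(.st (nat_lit 1)
(.spl (nat_lit 4) (nat_lit 160)
(.spl (nat_lit 2) (nat_lit 240)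
(.spl (nat_lit 0) (nat_lit 340)
(.leaf p101_l83)
(.trZ (nat_lit 0) (nat_lit 81) (nat_lit 72) (nat_lit 100) (nat_lit 168) (.leaf p101_l84)))
(.spl (nat_lit 0) (nat_lit 340)
(.leaf p101_l85)
(.leaf p101_l86)))
(.spl (nat_lit 2) (nat_lit 240)
(.spl (nat_lit 5) (nat_lit 160)
(.leaf p101_l87)
(.leaf p101_l88))
(.spl (nat_lit 0) (nat_lit 340)
(.spl (nat_lit 0) (nat_lit 330)
(.ord (.leaf p101_l89))
(.trX (nat_lit 16) (nat_lit 83) (nat_lit 98) (nat_lit 100) (nat_lit 288) (.leaf p101_l90)))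
(.trX (nat_lit 16) (nat_lit 77) (nat_lit 100) (nat_lit 99) (nat_lit 276) (.leaf p101_l91)))))
(.spl (nat_lit 2) (nat_lit 240)
(.spl (nat_lit 4) (nat_lit 160)
(.leaf p101_l92)
(.spl (nat_lit 1) (nat_lit 330)
(.leaf p101_l93)
(.ord (.trZ (nat_lit 0) (nat_lit 77) (nat_lit 77) (nat_lit 100) (nat_lit 168) (.trX (nat_lit 16) (nat_lit 83) (nat_lit 98) (nat_lit 100) (nat_lit 288) (.trX (nat_lit 19) (nat_lit 83) (nat_lit 98) (nat_lit 100) (nat_lit 288) (.leaf p101_l94)))))))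
(.leaf p101_l95)))) (by decide +kernel)
noncomputable def p101_l96 : Lf2 := ⟨nat_lit 0, nat_lit 30, [nat_lit 15, nat_lit 5, nat_lit 5, nat_lit 20], false, nat_lit 0, nat_lit 300, nat_lit 0, nat_lit 160, ⟨nat_lit 1000, nat_lit 0, nat_lit 0, nat_lit 0, nat_lit 0, nat_lit 0, nat_lit 0, nat_lit 0, nat_lit 0, nat_lit 0, nat_lit 0, nat_lit 0, nat_lit 0, nat_lit 0, nat_lit 0, nat_lit 0, false, false⟩,
 nat_lit 0, nat_lit 0, nat_lit 0, nat_lit 11912, nat_lit 6494, nat_lit 6583, nat_lit 507, nat_lit 0, nat_lit 0, nat_lit 558, nat_lit 0, nat_lit 0, nat_lit 0, nat_lit 0, nat_lit 0, nat_lit 0, nat_lit 0, nat_lit 0, [],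
 ⟨p101_k21, nat_lit 0, nat_lit 0, nat_lit 237, nat_lit 0, nat_lit 0, [nat_lit 2032000001, nat_lit 4688000000, nat_lit 11872000000], [], [nat_lit 30348319905, nat_lit 33729336657, nat_lit 40547397153, nat_lit 42273351817, nat_lit 29492415005, nat_lit 31610362784, nat_lit 35380505549, nat_lit 36630569682], nat_lit 0, nat_lit 0, nat_lit 0, nat_lit 0, nat_lit 0, nat_lit 0, [], [nat_lit 75, nat_lit 40, nat_lit 40, nat_lit 80, nat_lit 65, nat_lit 401, nat_lit 175, nat_lit 10]⟩, ⟨p101_k21, nat_lit 0, nat_lit 0, nat_lit 233, nat_lit 0, nat_lit 0, [nat_lit 2032000000, nat_lit 4688000000, nat_lit 11872000000], [], [nat_lit 29730095210, nat_lit 30582318276, nat_lit 39973564946, nat_lit 40407379983, nat_lit 25288213422, nat_lit 25896291385, nat_lit 33559255014, nat_lit 33935127816], nat_lit 0, nat_lit 0, nat_lit 0, nat_lit 0, nat_lit 0, nat_lit 0, [], [nat_lit 75, nat_lit 40, nat_lit 40, nat_lit 80, nat_lit 65, nat_lit 373,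 nat_lit 150, nat_lit 9]⟩,
 zbF0, [⟨nat_lit 0, nat_lit 79, nat_lit 72, nat_lit 100, nat_lit 18370521⟩, ⟨nat_lit 0, nat_lit 76, nat_lit 60, nat_lit 100, nat_lit 270364768⟩, ⟨nat_lit 4, nat_lit 100, nat_lit 74, nat_lit 90, nat_lit 130007309⟩]⟩
noncomputable def p101_l97 : Lf2 := ⟨nat_lit 0, nat_lit 30, [nat_lit 15, nat_lit 5, nat_lit 5, nat_lit 20], false, nat_lit 0, nat_lit 288, nat_lit 0, nat_lit 160, ⟨nat_lit 1000, nat_lit 0, nat_lit 0, nat_lit 0, nat_lit 0, nat_lit 0, nat_lit 0, nat_lit 0, nat_lit 0, nat_lit 0, nat_lit 0, nat_lit 0, nat_lit 0, nat_lit 0, nat_lit 0, nat_lit 0, false, false⟩,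
 nat_lit 0, nat_lit 0, nat_lit 0, nat_lit 2426, nat_lit 8876, nat_lit 6133, nat_lit 224, nat_lit 0, nat_lit 0, nat_lit 687, nat_lit 0, nat_lit 0, nat_lit 0, nat_lit 0, nat_lit 0, nat_lit 0, nat_lit 0, nat_lit 0, [],
 ⟨p101_k22, nat_lit 0, nat_lit 0, nat_lit 237, nat_lit 0, nat_lit 0, [nat_lit 2032000001, nat_lit 4688000000, nat_lit 11872000000], [], [nat_lit 36514481492, nat_lit 39465403892, nat_lit 47458378676, nat_lit 49500315792, nat_lit 31901457745, nat_lit 33748077551, nat_lit 38124799946, nat_lit 39369800304], nat_lit 0, nat_lit 0, nat_lit 0, nat_lit 0, nat_lit 0, nat_lit 0, [], [nat_lit 75, nat_lit 40, nat_lit 40, nat_lit 80, nat_lit 65, nat_lit 401, nat_lit 175, nat_lit 10]⟩, ⟨p101_k22, nat_lit 0, nat_lit 0, nat_lit 234, nat_lit 0, nat_lit 0, [nat_lit 2032000000, nat_lit 4688000000, nat_lit 11872000000], [], [nat_lit 28069583705, nat_lit 28851065405, nat_lit 39118737370, nat_lit 39804909192, nat_lit 23544591666,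 nat_lit 24163091921, nat_lit 32206876684, nat_lit 32808418416], nat_lit 0, nat_lit 0, nat_lit 0, nat_lit 0, nat_lit 0, nat_lit 0, [], [nat_lit 75, nat_lit 40, nat_lit 40, nat_lit 80, nat_lit 65, nat_lit 373, nat_lit 150, nat_lit 9]⟩,
 zbF0, [⟨nat_lit 0, nat_lit 74, nat_lit 69, nat_lit 100, nat_lit 99961140⟩, ⟨nat_lit 4, nat_lit 100, nat_lit 71, nat_lit 89, nat_lit 2850152⟩]⟩
noncomputable def p101_l98 : Lf2 := ⟨nat_lit 0, nat_lit 30, [nat_lit 15, nat_lit 5, nat_lit 5, nat_lit 20], false, nat_lit 0, nat_lit 300, nat_lit 160, nat_lit 300, ⟨nat_lit 1000, nat_lit 0, nat_lit 0, nat_lit 0, nat_lit 0, nat_lit 0, nat_lit 0, nat_lit 0, nat_lit 0, nat_lit 0, nat_lit 0, nat_lit 0, nat_lit 0, nat_lit 0, nat_lit 0, nat_lit 0, false, false⟩,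
 nat_lit 0, nat_lit 0, nat_lit 0, nat_lit 12909, nat_lit 7528, nat_lit 8148, nat_lit 344, nat_lit 0, nat_lit 0, nat_lit 0, nat_lit 0, nat_lit 0, nat_lit 0, nat_lit 0, nat_lit 0, nat_lit 0, nat_lit 0, nat_lit 0, [],
 ⟨p101_k23, nat_lit 0, nat_lit 0, nat_lit 247, nat_lit 0, nat_lit 0, [nat_lit 2032000001, nat_lit 6250000000, nat_lit 11872000000], [], [nat_lit 33555937416, nat_lit 36572646184, nat_lit 43582600536, nat_lit 45416666104, nat_lit 31370833972, nat_lit 33155798836, nat_lit 36768478688, nat_lit 37961640984], nat_lit 0, nat_lit 0, nat_lit 0, nat_lit 0, nat_lit 0, nat_lit 0, [], [nat_lit 72, nat_lit 40, nat_lit 40, nat_lit 80, nat_lit 12, nat_lit 401, nat_lit 175, nat_lit 10]⟩, ⟨p101_k23, nat_lit 0, nat_lit 0, nat_lit 95, nat_lit 0, nat_lit 0, [nat_lit 2032000000, nat_lit 6250000000, nat_lit 11872000000], [], [nat_lit 18400739184, nat_lit 20638674560, nat_lit 34145734112, nat_lit 35547915696, nat_lit 25053306736,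 nat_lit 26843631794, nat_lit 36739687264, nat_lit 37749728054], nat_lit 0, nat_lit 0, nat_lit 0, nat_lit 0, nat_lit 0, nat_lit 0, [], [nat_lit 72, nat_lit 40, nat_lit 40, nat_lit 80, nat_lit 12, nat_lit 401, nat_lit 175, nat_lit 10]⟩,
 zbF0, [⟨nat_lit 0, nat_lit 72, nat_lit 61, nat_lit 100, nat_lit 242261800⟩, ⟨nat_lit 4, nat_lit 100, nat_lit 74, nat_lit 90, nat_lit 84782938⟩, ⟨nat_lit 19, nat_lit 87, nat_lit 95, nat_lit 100, nat_lit 355998502⟩]⟩
noncomputable def p101_l99 : Lf2 := ⟨nat_lit 0, nat_lit 30, [nat_lit 15, nat_lit 5, nat_lit 5, nat_lit 20], false, nat_lit 0, nat_lit 160, nat_lit 0, nat_lit 160, ⟨nat_lit 1000, nat_lit 0, nat_lit 0, nat_lit 0, nat_lit 0, nat_lit 0, nat_lit 0, nat_lit 0, nat_lit 0, nat_lit 0, nat_lit 0, nat_lit 0, nat_lit 0, nat_lit 0, nat_lit 0, nat_lit 0, false, false⟩,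
 nat_lit 0, nat_lit 0, nat_lit 9356, nat_lit 0, nat_lit 6272, nat_lit 7017, nat_lit 888, nat_lit 0, nat_lit 0, nat_lit 849, nat_lit 0, nat_lit 0, nat_lit 0, nat_lit 0, nat_lit 0, nat_lit 0, nat_lit 0, nat_lit 0, [],
 ⟨p101_k21, nat_lit 0, nat_lit 0, nat_lit 225, nat_lit 0, nat_lit 0, [nat_lit 2032000001, nat_lit 4688000000, nat_lit 11872000000], [], [nat_lit 25180911432, nat_lit 28428360216, nat_lit 26970735336, nat_lit 29717706824, nat_lit 21372142648, nat_lit 23742581048, nat_lit 22744368968, nat_lit 25037329600], nat_lit 0, nat_lit 0, nat_lit 0, nat_lit 0, nat_lit 0, nat_lit 0, [], [nat_lit 75, nat_lit 40, nat_lit 40, nat_lit 80, nat_lit 65, nat_lit 317, nat_lit 100, nat_lit 8]⟩, ⟨p101_k21, nat_lit 0, nat_lit 0, nat_lit 554, nat_lit 0, nat_lit 652025, [nat_lit 2032000000, nat_lit 4688000000, nat_lit 11872000000], [], [nat_lit 28994188962, nat_lit 27923969183, nat_lit 27933276771, nat_lit 29396424755, nat_lit 22359476489,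 nat_lit 23236804201, nat_lit 30544692539, nat_lit 27486389225], nat_lit 1271250, nat_lit 1271250, nat_lit 936251, nat_lit 1773750, nat_lit 0, nat_lit 1100001, [nat_lit 490000, nat_lit 1100000, nat_lit 2470000], [nat_lit 75, nat_lit 40, nat_lit 40, nat_lit 80, nat_lit 65, nat_lit 317, nat_lit 100, nat_lit 8]⟩,
 zbF0, [⟨nat_lit 0, nat_lit 72, nat_lit 61, nat_lit 100, nat_lit 278185579⟩]⟩
noncomputable def p101_l100 : Lf2 := ⟨nat_lit 0, nat_lit 30, [nat_lit 15, nat_lit 5, nat_lit 5, nat_lit 20], false, nat_lit 0, nat_lit 160, nat_lit 0, nat_lit 160, ⟨nat_lit 1000, nat_lit 0, nat_lit 0, nat_lit 0, nat_lit 0, nat_lit 0, nat_lit 0, nat_lit 0, nat_lit 0, nat_lit 0, nat_lit 0, nat_lit 0, nat_lit 0, nat_lit 0, nat_lit 0, nat_lit 0, false, false⟩,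
 nat_lit 0, nat_lit 0, nat_lit 7935, nat_lit 0, nat_lit 6142, nat_lit 5951, nat_lit 553, nat_lit 0, nat_lit 0, nat_lit 728, nat_lit 0, nat_lit 0, nat_lit 0, nat_lit 0, nat_lit 0, nat_lit 0, nat_lit 0, nat_lit 0, [],
 ⟨p101_k21, nat_lit 0, nat_lit 0, nat_lit 237, nat_lit 0, nat_lit 0, [nat_lit 2032000001, nat_lit 4688000000, nat_lit 11872000000], [], [nat_lit 31369108971, nat_lit 34074079739, nat_lit 39515454379, nat_lit 41204605331, nat_lit 27427230123, nat_lit 29386987931, nat_lit 33689087411, nat_lit 35157132803], nat_lit 0, nat_lit 0, nat_lit 0, nat_lit 0, nat_lit 0, nat_lit 0, [], [nat_lit 75, nat_lit 40, nat_lit 40, nat_lit 80, nat_lit 65, nat_lit 373, nat_lit 150, nat_lit 9]⟩, ⟨p101_k21, nat_lit 0, nat_lit 0, nat_lit 530, nat_lit 0, nat_lit 652025, [nat_lit 2032000000, nat_lit 4688000000, nat_lit 11872000000], [], [nat_lit 31491250960, nat_lit 32306589080, nat_lit 37923373956, nat_lit 39274192824, nat_lit 28464278720,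 nat_lit 29150264158, nat_lit 33448756832, nat_lit 34079606938], nat_lit 1271250, nat_lit 1271250, nat_lit 1271250, nat_lit 1271250, nat_lit 0, nat_lit 1100001, [nat_lit 490000, nat_lit 1100000, nat_lit 2470000], [nat_lit 75, nat_lit 40, nat_lit 40, nat_lit 80, nat_lit 65, nat_lit 373, nat_lit 150, nat_lit 9]⟩,
 zbF0, []⟩
noncomputable def p101_l101 : Lf2 := ⟨nat_lit 0, nat_lit 30, [nat_lit 15, nat_lit 5, nat_lit 5, nat_lit 20], false, nat_lit 0, nat_lit 160, nat_lit 160, nat_lit 300, ⟨nat_lit 1000, nat_lit 0, nat_lit 0, nat_lit 0, nat_lit 0, nat_lit 0, nat_lit 0, nat_lit 0, nat_lit 0, nat_lit 0, nat_lit 0, nat_lit 0, nat_lit 0, nat_lit 0, nat_lit 0, nat_lit 0, false, false⟩,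
 nat_lit 0, nat_lit 0, nat_lit 9221, nat_lit 296, nat_lit 6621, nat_lit 6915, nat_lit 872, nat_lit 0, nat_lit 0, nat_lit 744, nat_lit 0, nat_lit 0, nat_lit 0, nat_lit 0, nat_lit 0, nat_lit 0, nat_lit 0, nat_lit 0, [],
 ⟨p101_k21, nat_lit 0, nat_lit 0, nat_lit 225, nat_lit 0, nat_lit 0, [nat_lit 2032000001, nat_lit 4688000000, nat_lit 11872000000], [], [nat_lit 25571326520, nat_lit 28992120688, nat_lit 27391391848, nat_lit 30222369032, nat_lit 21044262564, nat_lit 23484134514, nat_lit 22372535824, nat_lit 24544914612], nat_lit 0, nat_lit 0, nat_lit 0, nat_lit 0, nat_lit 0, nat_lit 0, [], [nat_lit 75, nat_lit 40, nat_lit 40, nat_lit 80, nat_lit 65, nat_lit 317, nat_lit 100, nat_lit 8]⟩, ⟨p101_k21, nat_lit 0, nat_lit 0, nat_lit 447, nat_lit 0, nat_lit 652025, [nat_lit 2032000000, nat_lit 4688000000, nat_lit 11872000000], [], [nat_lit 23038603960, nat_lit 24083906455, nat_lit 24029578400, nat_lit 24899016200, nat_lit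 26160733798, nat_lit 27253192838, nat_lit 26763089305, nat_lit 27671400648], nat_lit 1271250, nat_lit 1271250, nat_lit 936251, nat_lit 1773750, nat_lit 1271250, nat_lit 1271250, [nat_lit 490000, nat_lit 1100000, nat_lit 2470000], [nat_lit 75, nat_lit 40, nat_lit 40, nat_lit 80, nat_lit 65, nat_lit 373, nat_lit 150, nat_lit 9]⟩,
 zbF0, [⟨nat_lit 0, nat_lit 76, nat_lit 72, nat_lit 100, nat_lit 671832722⟩, ⟨nat_lit 7, nat_lit 100, nat_lit 81, nat_lit 92, nat_lit 427534462⟩]⟩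
noncomputable def p101_l102 : Lf2 := ⟨nat_lit 0, nat_lit 30, [nat_lit 15, nat_lit 5, nat_lit 5, nat_lit 20], false, nat_lit 0, nat_lit 160, nat_lit 160, nat_lit 300, ⟨nat_lit 1000, nat_lit 0, nat_lit 0, nat_lit 0, nat_lit 0, nat_lit 0, nat_lit 0, nat_lit 0, nat_lit 0, nat_lit 0, nat_lit 0, nat_lit 0, nat_lit 0, nat_lit 0, nat_lit 0, nat_lit 0, false, false⟩,
 nat_lit 0, nat_lit 0, nat_lit 7927, nat_lit 0, nat_lit 6142, nat_lit 5945, nat_lit 609, nat_lit 0, nat_lit 0, nat_lit 670, nat_lit 0, nat_lit 0, nat_lit 0, nat_lit 0, nat_lit 0, nat_lit 0, nat_lit 0, nat_lit 0, [],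
 ⟨p101_k21, nat_lit 0, nat_lit 0, nat_lit 237, nat_lit 0, nat_lit 0, [nat_lit 2032000001, nat_lit 4688000000, nat_lit 11872000000], [], [nat_lit 30622733971, nat_lit 33327704739, nat_lit 38769079379, nat_lit 41204561464, nat_lit 26680855123, nat_lit 28640612931, nat_lit 32942712411, nat_lit 34410757803], nat_lit 0, nat_lit 0, nat_lit 0, nat_lit 0, nat_lit 0, nat_lit 0, [], [nat_lit 75, nat_lit 40, nat_lit 40, nat_lit 80, nat_lit 65, nat_lit 373, nat_lit 150, nat_lit 9]⟩, ⟨p101_k21, nat_lit 0, nat_lit 0, nat_lit 392, nat_lit 0, nat_lit 652025, [nat_lit 2032000000, nat_lit 4688000000, nat_lit 11872000000], [], [nat_lit 27592218450, nat_lit 28407219850, nat_lit 32570828050, nat_lit 33103086960, nat_lit 29736873425, nat_lit 30350725643, nat_lit 34161697010, nat_lit 35042768673], nat_lit 1271250, nat_lit 1271250, nat_lit 1271250, nat_lit 1271250, nat_lit 1100001, nat_lit 2298750, [nat_lit 490000, nat_lit 1100000, nat_lit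 2470000], [nat_lit 75, nat_lit 40, nat_lit 40, nat_lit 80, nat_lit 65, nat_lit 401, nat_lit 175, nat_lit 9]⟩,
 zbF0, [⟨nat_lit 7, nat_lit 100, nat_lit 81, nat_lit 92, nat_lit 387862659⟩]⟩
noncomputable def p101_l103 : Lf2 := ⟨nat_lit 0, nat_lit 30, [nat_lit 15, nat_lit 5, nat_lit 5, nat_lit 20], false, nat_lit 160, nat_lit 300, nat_lit 0, nat_lit 160, ⟨nat_lit 1000, nat_lit 0, nat_lit 0, nat_lit 0, nat_lit 0, nat_lit 0, nat_lit 0, nat_lit 0, nat_lit 0, nat_lit 0, nat_lit 0, nat_lit 0, nat_lit 0, nat_lit 0, nat_lit 0, nat_lit 0, false, false⟩,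
 nat_lit 0, nat_lit 0, nat_lit 9304, nat_lit 0, nat_lit 7370, nat_lit 6977, nat_lit 0, nat_lit 0, nat_lit 0, nat_lit 605, nat_lit 0, nat_lit 0, nat_lit 0, nat_lit 0, nat_lit 0, nat_lit 0, nat_lit 0, nat_lit 0, [],
 ⟨p101_k23, nat_lit 0, nat_lit 0, nat_lit 95, nat_lit 0, nat_lit 0, [nat_lit 2032000001, nat_lit 6250000000, nat_lit 11872000000], [], [nat_lit 19160838960, nat_lit 21251761900, nat_lit 33164875280, nat_lit 34490184240, nat_lit 25544977840, nat_lit 27063643345, nat_lit 35829257660, nat_lit 36793752385], nat_lit 0, nat_lit 0, nat_lit 0, nat_lit 0, nat_lit 0, nat_lit 0, [], [nat_lit 72, nat_lit 40, nat_lit 40, nat_lit 80, nat_lit 12, nat_lit 401, nat_lit 175, nat_lit 10]⟩, ⟨p101_k23, nat_lit 0, nat_lit 0, nat_lit 502, nat_lit 0, nat_lit 469274, [nat_lit 2032000000, nat_lit 6250000000, nat_lit 11872000000], [], [nat_lit 35224838654, nat_lit 33184167318, nat_lit 40793871612, nat_lit 42266033448, nat_lit 27873233871,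 nat_lit 28783257659, nat_lit 40119354984, nat_lit 37078485350], nat_lit 1271250, nat_lit 1271250, nat_lit 936251, nat_lit 3113750, nat_lit 0, nat_lit 1100001, [nat_lit 490000, nat_lit 1427500, nat_lit 1271250], [nat_lit 72, nat_lit 40, nat_lit 40, nat_lit 80, nat_lit 12, nat_lit 373, nat_lit 150, nat_lit 9]⟩,
 zbF0, [⟨nat_lit 4, nat_lit 100, nat_lit 81, nat_lit 92, nat_lit 573266692⟩]⟩
noncomputable def p101_l104 : Lf2 := ⟨nat_lit 0, nat_lit 30, [nat_lit 15, nat_lit 5, nat_lit 5, nat_lit 20], false, nat_lit 160, nat_lit 276, nat_lit 0, nat_lit 160, ⟨nat_lit 1000, nat_lit 0, nat_lit 0, nat_lit 0, nat_lit 0, nat_lit 0, nat_lit 0, nat_lit 0, nat_lit 0, nat_lit 0, nat_lit 0, nat_lit 0, nat_lit 0, nat_lit 0, nat_lit 0, nat_lit 0, false, false⟩,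
 nat_lit 0, nat_lit 0, nat_lit 7824, nat_lit 0, nat_lit 7338, nat_lit 5867, nat_lit 448, nat_lit 0, nat_lit 0, nat_lit 808, nat_lit 0, nat_lit 0, nat_lit 0, nat_lit 0, nat_lit 0, nat_lit 0, nat_lit 0, nat_lit 0, [],
 ⟨p101_k24, nat_lit 0, nat_lit 0, nat_lit 115, nat_lit 0, nat_lit 0, [nat_lit 2032000001, nat_lit 4688000000, nat_lit 9842000000], [], [nat_lit 23551743257, nat_lit 25198016359, nat_lit 34446678576, nat_lit 35768825680, nat_lit 26736657918, nat_lit 28019461538, nat_lit 36046779844, nat_lit 37076026890], nat_lit 0, nat_lit 0, nat_lit 0, nat_lit 0, nat_lit 0, nat_lit 0, [], [nat_lit 27, nat_lit 40, nat_lit 40, nat_lit 80, nat_lit 13, nat_lit 401, nat_lit 175, nat_lit 11]⟩, ⟨p101_k21, nat_lit 0, nat_lit 0, nat_lit 545, nat_lit 0, nat_lit 652025, [nat_lit 2032000000, nat_lit 4688000000, nat_lit 11872000000], [], [nat_lit 29621270972, nat_lit 30545733782, nat_lit 37688362452, nat_lit 39029246808, nat_lit 27914057228,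 nat_lit 27665862250, nat_lit 33719032544, nat_lit 34347160546], nat_lit 1271250, nat_lit 1271250, nat_lit 1271250, nat_lit 1271250, nat_lit 0, nat_lit 1100001, [nat_lit 490000, nat_lit 1100000, nat_lit 2470000], [nat_lit 75, nat_lit 40, nat_lit 40, nat_lit 80, nat_lit 65, nat_lit 373, nat_lit 150, nat_lit 9]⟩,
 zbF0, [⟨nat_lit 0, nat_lit 72, nat_lit 61, nat_lit 100, nat_lit 83010639⟩, ⟨nat_lit 16, nat_lit 67, nat_lit 100, nat_lit 88, nat_lit 568842115⟩]⟩
noncomputable def p101_l105 : Lf2 := ⟨nat_lit 0, nat_lit 30, [nat_lit 15, nat_lit 5, nat_lit 5, nat_lit 20], false, nat_lit 160, nat_lit 300, nat_lit 160, nat_lit 300, ⟨nat_lit 1000, nat_lit 0, nat_lit 0, nat_lit 0, nat_lit 0, nat_lit 0, nat_lit 0, nat_lit 0, nat_lit 0, nat_lit 0, nat_lit 0, nat_lit 0, nat_lit 0, nat_lit 0, nat_lit 0, nat_lit 0, false, false⟩,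
 nat_lit 0, nat_lit 0, nat_lit 8995, nat_lit 5036, nat_lit 6506, nat_lit 6746, nat_lit 0, nat_lit 0, nat_lit 0, nat_lit 785, nat_lit 0, nat_lit 0, nat_lit 0, nat_lit 0, nat_lit 0, nat_lit 0, nat_lit 0, nat_lit 0, [],
 ⟨p101_k21, nat_lit 0, nat_lit 0, nat_lit 60, nat_lit 0, nat_lit 0, [nat_lit 2032000001, nat_lit 4688000000, nat_lit 11872000000], [], [nat_lit 17174846776, nat_lit 21333565684, nat_lit 20418707008, nat_lit 23856053160, nat_lit 23827927023, nat_lit 27420278151, nat_lit 25924629250, nat_lit 28894581288], nat_lit 0, nat_lit 0, nat_lit 0, nat_lit 0, nat_lit 0, nat_lit 0, [], [nat_lit 75, nat_lit 40, nat_lit 40, nat_lit 80, nat_lit 65, nat_lit 373, nat_lit 150, nat_lit 9]⟩, ⟨p101_k21, nat_lit 0, nat_lit 0, nat_lit 447, nat_lit 0, nat_lit 652025, [nat_lit 2032000000, nat_lit 4688000000, nat_lit 11872000000], [], [nat_lit 22915762179, nat_lit 23948110317, nat_lit 23931996035, nat_lit 24791949555, nat_lit 25683724868,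 nat_lit 26762666460, nat_lit 26524368832, nat_lit 27563226029], nat_lit 1271250, nat_lit 1271250, nat_lit 936251, nat_lit 1773750, nat_lit 1271250, nat_lit 1271250, [nat_lit 490000, nat_lit 1100000, nat_lit 2470000], [nat_lit 75, nat_lit 40, nat_lit 40, nat_lit 80, nat_lit 65, nat_lit 373, nat_lit 150, nat_lit 9]⟩,
 zbF0, [⟨nat_lit 0, nat_lit 76, nat_lit 72, nat_lit 100, nat_lit 597255287⟩, ⟨nat_lit 4, nat_lit 100, nat_lit 74, nat_lit 90, nat_lit 610187451⟩, ⟨nat_lit 7, nat_lit 100, nat_lit 81, nat_lit 92, nat_lit 427376201⟩]⟩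
noncomputable def p101_l106 : Lf2 := ⟨nat_lit 0, nat_lit 30, [nat_lit 15, nat_lit 5, nat_lit 5, nat_lit 20], false, nat_lit 160, nat_lit 300, nat_lit 160, nat_lit 300, ⟨nat_lit 1000, nat_lit 0, nat_lit 0, nat_lit 0, nat_lit 0, nat_lit 0, nat_lit 0, nat_lit 0, nat_lit 0, nat_lit 0, nat_lit 0, nat_lit 0, nat_lit 0, nat_lit 0, nat_lit 0, nat_lit 0, false, false⟩,
 nat_lit 0, nat_lit 0, nat_lit 9335, nat_lit 0, nat_lit 6536, nat_lit 7001, nat_lit 0, nat_lit 0, nat_lit 0, nat_lit 483, nat_lit 0, nat_lit 0, nat_lit 0, nat_lit 0, nat_lit 0, nat_lit 0, nat_lit 0, nat_lit 0, [],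
 ⟨p101_k23, nat_lit 0, nat_lit 0, nat_lit 100, nat_lit 0, nat_lit 0, [nat_lit 2032000001, nat_lit 6250000000, nat_lit 11872000000], [], [nat_lit 22886381216, nat_lit 26075607168, nat_lit 32601743488, nat_lit 34599519264, nat_lit 27681591544, nat_lit 30032386176, nat_lit 34853295848, nat_lit 36684636408], nat_lit 0, nat_lit 0, nat_lit 0, nat_lit 0, nat_lit 0, nat_lit 0, [], [nat_lit 72, nat_lit 40, nat_lit 40, nat_lit 80, nat_lit 12, nat_lit 401, nat_lit 175, nat_lit 9]⟩, ⟨p101_k23, nat_lit 0, nat_lit 0, nat_lit 399, nat_lit 0, nat_lit 652025, [nat_lit 2032000000, nat_lit 6250000000, nat_lit 11872000000], [], [nat_lit 30200521123, nat_lit 30956911769, nat_lit 34666687355, nat_lit 35138794809, nat_lit 31741982217, nat_lit 32296666207, nat_lit 35442030175, nat_lit 36340339761], nat_lit 1271250, nat_lit 1271250, nat_lit 1271250, nat_lit 1271250, nat_lit 1100001, nat_lit 2298750, [nat_lit 490000, nat_lit 1427500, nat_lit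 1271250], [nat_lit 72, nat_lit 40, nat_lit 40, nat_lit 80, nat_lit 12, nat_lit 401, nat_lit 175, nat_lit 9]⟩,
 zbF0, [⟨nat_lit 4, nat_lit 100, nat_lit 74, nat_lit 90, nat_lit 541950665⟩, ⟨nat_lit 7, nat_lit 100, nat_lit 81, nat_lit 92, nat_lit 352639766⟩]⟩
noncomputable def p101_l107 : Lf2 := ⟨nat_lit 0, nat_lit 30, [nat_lit 15, nat_lit 5, nat_lit 5, nat_lit 20], false, nat_lit 0, nat_lit 300, nat_lit 0, nat_lit 160, ⟨nat_lit 1000, nat_lit 0, nat_lit 0, nat_lit 0, nat_lit 0, nat_lit 0, nat_lit 0, nat_lit 0, nat_lit 0, nat_lit 0, nat_lit 0, nat_lit 0, nat_lit 0, nat_lit 0, nat_lit 0, nat_lit 0, false, false⟩,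
 nat_lit 0, nat_lit 0, nat_lit 0, nat_lit 11912, nat_lit 6494, nat_lit 6583, nat_lit 507, nat_lit 0, nat_lit 0, nat_lit 558, nat_lit 0, nat_lit 0, nat_lit 0, nat_lit 0, nat_lit 0, nat_lit 0, nat_lit 0, nat_lit 0, [],
 ⟨p101_k21, nat_lit 0, nat_lit 0, nat_lit 237, nat_lit 0, nat_lit 0, [nat_lit 2032000001, nat_lit 4688000000, nat_lit 11872000000], [], [nat_lit 30348319905, nat_lit 33729336657, nat_lit 40547397153, nat_lit 42273351817, nat_lit 29492415005, nat_lit 31610362784, nat_lit 35380505549, nat_lit 36630569682], nat_lit 0, nat_lit 0, nat_lit 0, nat_lit 0, nat_lit 0, nat_lit 0, [], [nat_lit 75, nat_lit 40, nat_lit 40, nat_lit 80, nat_lit 65, nat_lit 401, nat_lit 175, nat_lit 10]⟩, ⟨p101_k21, nat_lit 0, nat_lit 0, nat_lit 233, nat_lit 0, nat_lit 0, [nat_lit 2032000000, nat_lit 4688000000, nat_lit 11872000000], [], [nat_lit 29730095210, nat_lit 30582318276, nat_lit 39973564946, nat_lit 40407379983, nat_lit 25288213422,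 nat_lit 25896291385, nat_lit 33559255014, nat_lit 33935127816], nat_lit 0, nat_lit 0, nat_lit 0, nat_lit 0, nat_lit 0, nat_lit 0, [], [nat_lit 75, nat_lit 40, nat_lit 40, nat_lit 80, nat_lit 65, nat_lit 373, nat_lit 150, nat_lit 9]⟩,
 zbF0, [⟨nat_lit 0, nat_lit 79, nat_lit 72, nat_lit 100, nat_lit 18370521⟩, ⟨nat_lit 0, nat_lit 76, nat_lit 60, nat_lit 100, nat_lit 270364768⟩, ⟨nat_lit 4, nat_lit 100, nat_lit 74, nat_lit 90, nat_lit 130007309⟩]⟩
noncomputable def p101_l108 : Lf2 := ⟨nat_lit 0, nat_lit 30, [nat_lit 15, nat_lit 5, nat_lit 5, nat_lit 20], false, nat_lit 0, nat_lit 288, nat_lit 0, nat_lit 160, ⟨nat_lit 1000, nat_lit 0, nat_lit 0, nat_lit 0, nat_lit 0, nat_lit 0, nat_lit 0, nat_lit 0, nat_lit 0, nat_lit 0, nat_lit 0, nat_lit 0, nat_lit 0, nat_lit 0, nat_lit 0, nat_lit 0, false, false⟩,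
 nat_lit 0, nat_lit 0, nat_lit 0, nat_lit 2426, nat_lit 8876, nat_lit 6133, nat_lit 224, nat_lit 0, nat_lit 0, nat_lit 687, nat_lit 0, nat_lit 0, nat_lit 0, nat_lit 0, nat_lit 0, nat_lit 0, nat_lit 0, nat_lit 0, [],
 ⟨p101_k22, nat_lit 0, nat_lit 0, nat_lit 237, nat_lit 0, nat_lit 0, [nat_lit 2032000001, nat_lit 4688000000, nat_lit 11872000000], [], [nat_lit 36514481492, nat_lit 39465403892, nat_lit 47458378676, nat_lit 49500315792, nat_lit 31901457745, nat_lit 33748077551, nat_lit 38124799946, nat_lit 39369800304], nat_lit 0, nat_lit 0, nat_lit 0, nat_lit 0, nat_lit 0, nat_lit 0, [], [nat_lit 75, nat_lit 40, nat_lit 40, nat_lit 80, nat_lit 65, nat_lit 401, nat_lit 175, nat_lit 10]⟩, ⟨p101_k22, nat_lit 0, nat_lit 0, nat_lit 234, nat_lit 0, nat_lit 0, [nat_lit 2032000000, nat_lit 4688000000, nat_lit 11872000000], [], [nat_lit 28069583705, nat_lit 28851065405, nat_lit 39118737370, nat_lit 39804909192, nat_lit 23544591666,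 nat_lit 24163091921, nat_lit 32206876684, nat_lit 32808418416], nat_lit 0, nat_lit 0, nat_lit 0, nat_lit 0, nat_lit 0, nat_lit 0, [], [nat_lit 75, nat_lit 40, nat_lit 40, nat_lit 80, nat_lit 65, nat_lit 373, nat_lit 150, nat_lit 9]⟩,
 zbF0, [⟨nat_lit 0, nat_lit 74, nat_lit 69, nat_lit 100, nat_lit 99961140⟩, ⟨nat_lit 4, nat_lit 100, nat_lit 71, nat_lit 89, nat_lit 2850152⟩]⟩
noncomputable def p101_l109 : Lf2 := ⟨nat_lit 0, nat_lit 30, [nat_lit 15, nat_lit 5, nat_lit 5, nat_lit 20], false, nat_lit 0, nat_lit 300, nat_lit 160, nat_lit 300, ⟨nat_lit 1000, nat_lit 0, nat_lit 0, nat_lit 0, nat_lit 0, nat_lit 0, nat_lit 0, nat_lit 0, nat_lit 0, nat_lit 0, nat_lit 0, nat_lit 0, nat_lit 0, nat_lit 0, nat_lit 0, nat_lit 0, false, false⟩,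
 nat_lit 0, nat_lit 0, nat_lit 0, nat_lit 12909, nat_lit 7528, nat_lit 8148, nat_lit 344, nat_lit 0, nat_lit 0, nat_lit 0, nat_lit 0, nat_lit 0, nat_lit 0, nat_lit 0, nat_lit 0, nat_lit 0, nat_lit 0, nat_lit 0, [],
 ⟨p101_k23, nat_lit 0, nat_lit 0, nat_lit 247, nat_lit 0, nat_lit 0, [nat_lit 2032000001, nat_lit 6250000000, nat_lit 11872000000], [], [nat_lit 33555937416, nat_lit 36572646184, nat_lit 43582600536, nat_lit 45416666104, nat_lit 31370833972, nat_lit 33155798836, nat_lit 36768478688, nat_lit 37961640984], nat_lit 0, nat_lit 0, nat_lit 0, nat_lit 0, nat_lit 0, nat_lit 0, [], [nat_lit 72, nat_lit 40, nat_lit 40, nat_lit 80, nat_lit 12, nat_lit 401, nat_lit 175, nat_lit 10]⟩, ⟨p101_k23, nat_lit 0, nat_lit 0, nat_lit 95, nat_lit 0, nat_lit 0, [nat_lit 2032000000, nat_lit 6250000000, nat_lit 11872000000], [], [nat_lit 18400739184, nat_lit 20638674560, nat_lit 34145734112, nat_lit 35547915696, nat_lit 25053306736,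 nat_lit 26843631794, nat_lit 36739687264, nat_lit 37749728054], nat_lit 0, nat_lit 0, nat_lit 0, nat_lit 0, nat_lit 0, nat_lit 0, [], [nat_lit 72, nat_lit 40, nat_lit 40, nat_lit 80, nat_lit 12, nat_lit 401, nat_lit 175, nat_lit 10]⟩,
 zbF0, [⟨nat_lit 0, nat_lit 72, nat_lit 61, nat_lit 100, nat_lit 242261800⟩, ⟨nat_lit 4, nat_lit 100, nat_lit 74, nat_lit 90, nat_lit 84782938⟩, ⟨nat_lit 19, nat_lit 87, nat_lit 95, nat_lit 100, nat_lit 355998502⟩]⟩
noncomputable def p101_l110 : Lf2 := ⟨nat_lit 0, nat_lit 30, [nat_lit 15, nat_lit 5, nat_lit 5, nat_lit 20], false, nat_lit 0, nat_lit 160, nat_lit 0, nat_lit 300, ⟨nat_lit 210, nat_lit 790, nat_lit 0, nat_lit 8, nat_lit 250, nat_lit 790, nat_lit 65, nat_lit 0, nat_lit 0, nat_lit 0, nat_lit 0, nat_lit 0, nat_lit 0, nat_lit 0, nat_lit 0, nat_lit 5000000, false, false⟩,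
 nat_lit 0, nat_lit 0, nat_lit 2690, nat_lit 0, nat_lit 4477, nat_lit 2017, nat_lit 253, nat_lit 0, nat_lit 0, nat_lit 70, nat_lit 0, nat_lit 0, nat_lit 0, nat_lit 0, nat_lit 0, nat_lit 428800, nat_lit 0, nat_lit 0, [(nat_lit 20, [(nat_lit 1, nat_lit 602), (nat_lit 2, nat_lit 188)]), (nat_lit 23, [(nat_lit 1, nat_lit 602), (nat_lit 2, nat_lit 188)])],
 ⟨p101_k23, nat_lit 0, nat_lit 0, nat_lit 236, nat_lit 0, nat_lit 0, [nat_lit 1791048401, nat_lit 2548738001, nat_lit 2409876000], [], [nat_lit 23380344820, nat_lit 25589131284, nat_lit 25049199202, nat_lit 26949737809, nat_lit 21366588040, nat_lit 23256294516, nat_lit 23018943815, nat_lit 24951383015], nat_lit 0, nat_lit 0, nat_lit 0, nat_lit 0, nat_lit 0, nat_lit 0, [], [nat_lit 72, nat_lit 40, nat_lit 40, nat_lit 80, nat_lit 12, nat_lit 317, nat_lit 100, nat_lit 8]⟩, ⟨p101_k23, nat_lit 0, nat_lit 0, nat_lit 562, nat_lit 0, nat_lit 652025, [nat_lit 426720000, nat_lit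 1312500000, nat_lit 2493120000], [], [nat_lit 7235892450, nat_lit 7693202338, nat_lit 7557432206, nat_lit 7930096170, nat_lit 6336655651, nat_lit 6610851098, nat_lit 7431769007, nat_lit 6568701767], nat_lit 1271250, nat_lit 1271250, nat_lit 936251, nat_lit 1773750, nat_lit 0, nat_lit 2118750, [nat_lit 490000, nat_lit 1427500, nat_lit 1271250], [nat_lit 72, nat_lit 40, nat_lit 40, nat_lit 80, nat_lit 12, nat_lit 373, nat_lit 150, nat_lit 9]⟩,
 ⟨nat_lit 3162, nat_lit 4473, ⟨.ofNat (nat_lit 526772), .ofNat (nat_lit 696911), .ofNat (nat_lit 548248), .ofNat (nat_lit 718387), .ofNat (nat_lit 540839), .ofNat (nat_lit 693416), .ofNat (nat_lit 562904), .ofNat (nat_lit 715481)⟩, ⟨.ofNat (nat_lit 0), .ofNat (nat_lit 302621), .ofNat (nat_lit 0), .ofNat (nat_lit 345754), .ofNat (nat_lit 0), .ofNat (nat_lit 306116), .ofNat (nat_lit 0), .ofNat (nat_lit 350426)⟩⟩, [⟨nat_lit 19, nat_lit 81, nat_lit 100, nat_lit 92, nat_lit 20421014⟩]⟩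
noncomputable def p101_l111 : Lf2 := ⟨nat_lit 0, nat_lit 30, [nat_lit 15, nat_lit 5, nat_lit 5, nat_lit 20], true, nat_lit 160, nat_lit 300, nat_lit 0, nat_lit 300, ⟨nat_lit 0, nat_lit 1000, nat_lit 0, nat_lit 8, nat_lit 250, nat_lit 1000, nat_lit 176, nat_lit 0, nat_lit 0, nat_lit 0, nat_lit 0, nat_lit 0, nat_lit 0, nat_lit 0, nat_lit 0, nat_lit 5000000, false, false⟩,
 nat_lit 0, nat_lit 0, nat_lit 0, nat_lit 6650, nat_lit 5098, nat_lit 0, nat_lit 0, nat_lit 0, nat_lit 0, nat_lit 0, nat_lit 0, nat_lit 0, nat_lit 0, nat_lit 5352246077361, nat_lit 0, nat_lit 250000, nat_lit 0, nat_lit 0, [(nat_lit 20, [(nat_lit 0, nat_lit 1000)]), (nat_lit 23, [(nat_lit 0, nat_lit 1000)])],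
 ⟨p101_k23, nat_lit 0, nat_lit 0, nat_lit 71, nat_lit 0, nat_lit 0, [nat_lit 1576000001, nat_lit 2718000000, nat_lit 3583920000], [], [nat_lit 17848564784, nat_lit 21171767336, nat_lit 20684882088, nat_lit 23453015624, nat_lit 23448809136, nat_lit 26134797383, nat_lit 25208996342, nat_lit 27808945704], nat_lit 0, nat_lit 0, nat_lit 0, nat_lit 0, nat_lit 0, nat_lit 0, [], [nat_lit 72, nat_lit 40, nat_lit 40, nat_lit 80, nat_lit 12, nat_lit 373, nat_lit 150, nat_lit 9]⟩, C1.Rw.none,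
 ⟨nat_lit 3162, nat_lit 4473, ⟨.ofNat (nat_lit 526772), .ofNat (nat_lit 696911), .ofNat (nat_lit 548248), .ofNat (nat_lit 718387), .ofNat (nat_lit 540839), .ofNat (nat_lit 693416), .ofNat (nat_lit 562904), .ofNat (nat_lit 715481)⟩, ⟨.ofNat (nat_lit 302621), .ofNat (nat_lit 540545), .ofNat (nat_lit 345754), .ofNat (nat_lit 583678), .ofNat (nat_lit 306116), .ofNat (nat_lit 519453), .ofNat (nat_lit 350426), .ofNat (nat_lit 563762)⟩⟩, [⟨nat_lit 4, nat_lit 100, nat_lit 74, nat_lit 90, nat_lit 375082657⟩]⟩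
noncomputable def p101_l112 : Lf2 := ⟨nat_lit 0, nat_lit 30, [nat_lit 15, nat_lit 5, nat_lit 5, nat_lit 20], false, nat_lit 0, nat_lit 160, nat_lit 0, nat_lit 300, ⟨nat_lit 1000, nat_lit 0, nat_lit 0, nat_lit 0, nat_lit 0, nat_lit 0, nat_lit 0, nat_lit 0, nat_lit 0, nat_lit 0, nat_lit 0, nat_lit 0, nat_lit 0, nat_lit 0, nat_lit 0, nat_lit 0, false, false⟩,
 nat_lit 0, nat_lit 0, nat_lit 8299, nat_lit 0, nat_lit 6305, nat_lit 6224, nat_lit 572, nat_lit 0, nat_lit 0, nat_lit 682, nat_lit 0, nat_lit 0, nat_lit 0, nat_lit 0, nat_lit 0, nat_lit 0, nat_lit 0, nat_lit 0, [],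
 ⟨p101_k21, nat_lit 0, nat_lit 0, nat_lit 234, nat_lit 0, nat_lit 0, [nat_lit 2032000001, nat_lit 4688000000, nat_lit 11872000000], [], [nat_lit 31202034340, nat_lit 32579491700, nat_lit 39456175660, nat_lit 40309272450, nat_lit 26900733420, nat_lit 27892774080, nat_lit 33412496440, nat_lit 34153069780], nat_lit 0, nat_lit 0, nat_lit 0, nat_lit 0, nat_lit 0, nat_lit 0, [], [nat_lit 75, nat_lit 40, nat_lit 40, nat_lit 80, nat_lit 65, nat_lit 373, nat_lit 150, nat_lit 9]⟩, ⟨p101_k21, nat_lit 0, nat_lit 0, nat_lit 459, nat_lit 0, nat_lit 469274, [nat_lit 2032000000, nat_lit 4688000000, nat_lit 11872000000], [], [nat_lit 31379245790, nat_lit 32209904670, nat_lit 38687161344, nat_lit 40070267376, nat_lit 29771689502, nat_lit 30293607594, nat_lit 34488187832, nat_lit 35385592852], nat_lit 1271250, nat_lit 1271250, nat_lit 1271250, nat_lit 1271250, nat_lit 0, nat_lit 2118750, [nat_lit 490000, nat_lit 1100000, nat_lit 2470000],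 [nat_lit 75, nat_lit 40, nat_lit 40, nat_lit 80, nat_lit 65, nat_lit 401, nat_lit 175, nat_lit 10]⟩,
 zbF0, [⟨nat_lit 7, nat_lit 100, nat_lit 81, nat_lit 92, nat_lit 137598898⟩]⟩
noncomputable def p101_l113 : Lf2 := ⟨nat_lit 0, nat_lit 30, [nat_lit 15, nat_lit 5, nat_lit 5, nat_lit 20], false, nat_lit 0, nat_lit 160, nat_lit 0, nat_lit 300, ⟨nat_lit 732, nat_lit 268, nat_lit 0, nat_lit 8, nat_lit 332, nat_lit 268, nat_lit 65, nat_lit 0, nat_lit 0, nat_lit 0, nat_lit 0, nat_lit 0, nat_lit 0, nat_lit 0, nat_lit 0, nat_lit 5000000, true, false⟩,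
 nat_lit 0, nat_lit 0, nat_lit 5866, nat_lit 0, nat_lit 4777, nat_lit 4399, nat_lit 359, nat_lit 0, nat_lit 0, nat_lit 436, nat_lit 0, nat_lit 0, nat_lit 0, nat_lit 0, nat_lit 0, nat_lit 107200, nat_lit 0, nat_lit 0, [(nat_lit 23, [(nat_lit 1, nat_lit 268)])],
 ⟨p101_k24, nat_lit 0, nat_lit 0, nat_lit 215, nat_lit 0, nat_lit 0, [nat_lit 1850832000, nat_lit 3867491200, nat_lit 7541809600], [], [nat_lit 28545903912, nat_lit 29821557355, nat_lit 36196655785, nat_lit 37062752884, nat_lit 26166941960, nat_lit 27131349526, nat_lit 32241947759, nat_lit 32989197895], nat_lit 0, nat_lit 0, nat_lit 0, nat_lit 0, nat_lit 0, nat_lit 0, [], [nat_lit 27, nat_lit 40, nat_lit 40, nat_lit 80, nat_lit 13, nat_lit 373, nat_lit 150, nat_lit 10]⟩, ⟨p101_k21, nat_lit 0, nat_lit 0, nat_lit 530, nat_lit 0, nat_lit 652025, [nat_lit 1487424000, nat_lit 3431616000, nat_lit 8690304000], [], [nat_lit 24229178580, nat_lit 24828411836, nat_lit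 28394066964, nat_lit 29007228174, nat_lit 23220742502, nat_lit 23599918662, nat_lit 25456884285, nat_lit 25709377890], nat_lit 1271250, nat_lit 1271250, nat_lit 1271250, nat_lit 1271250, nat_lit 0, nat_lit 2118750, [nat_lit 490000, nat_lit 1100000, nat_lit 2470000], [nat_lit 75, nat_lit 40, nat_lit 40, nat_lit 80, nat_lit 65, nat_lit 401, nat_lit 175, nat_lit 10]⟩,
 ⟨nat_lit 3162, nat_lit 3873, ⟨.ofNat (nat_lit 695141), .ofNat (nat_lit 953347), .ofNat (nat_lit 716905), .ofNat (nat_lit 975119), .ofNat (nat_lit 693742), .ofNat (nat_lit 937676), .ofNat (nat_lit 715869), .ofNat (nat_lit 959810)⟩, ⟨.ofNat (nat_lit 0), .ofNat (nat_lit 304717), .ofNat (nat_lit 0), .ofNat (nat_lit 348304), .ofNat (nat_lit 0), .ofNat (nat_lit 306116), .ofNat (nat_lit 0), .ofNat (nat_lit 350426)⟩⟩, [⟨nat_lit 7, nat_lit 100, nat_lit 81, nat_lit 92, nat_lit 103565631⟩]⟩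
noncomputable def p101_l114 : Lf2 := ⟨nat_lit 0, nat_lit 30, [nat_lit 15, nat_lit 5, nat_lit 5, nat_lit 20], false, nat_lit 160, nat_lit 300, nat_lit 0, nat_lit 300, ⟨nat_lit 602, nat_lit 398, nat_lit 0, nat_lit 8, nat_lit 332, nat_lit 398, nat_lit 176, nat_lit 0, nat_lit 0, nat_lit 0, nat_lit 0, nat_lit 0, nat_lit 0, nat_lit 0, nat_lit 0, nat_lit 5000000, true, true⟩,
 nat_lit 0, nat_lit 0, nat_lit 5702, nat_lit 0, nat_lit 5293, nat_lit 4276, nat_lit 0, nat_lit 0, nat_lit 0, nat_lit 248, nat_lit 0, nat_lit 0, nat_lit 0, nat_lit 0, nat_lit 0, nat_lit 99500, nat_lit 0, nat_lit 0, [(nat_lit 20, [(nat_lit 0, nat_lit 398)]), (nat_lit 23, [(nat_lit 0, nat_lit 398)])],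
 ⟨p101_k23, nat_lit 0, nat_lit 0, nat_lit 100, nat_lit 0, nat_lit 0, [nat_lit 1850512001, nat_lit 4844264000, nat_lit 8515904800], [], [nat_lit 22630723508, nat_lit 25455959284, nat_lit 31378469944, nat_lit 33200092732, nat_lit 27191599747, nat_lit 29309068363, nat_lit 33707196632, nat_lit 35086549148], nat_lit 0, nat_lit 0, nat_lit 0, nat_lit 0, nat_lit 0, nat_lit 0, [], [nat_lit 72, nat_lit 40, nat_lit 40, nat_lit 80, nat_lit 12, nat_lit 401, nat_lit 175, nat_lit 9]⟩, ⟨p101_k23, nat_lit 0, nat_lit 0, nat_lit 511, nat_lit 0, nat_lit 578147, [nat_lit 1223264000, nat_lit 3762500000, nat_lit 7146944000], [], [nat_lit 22422137928, nat_lit 22634865276, nat_lit 25343274448, nat_lit 25612613496, nat_lit 20368283130, nat_lit 20495966036, nat_lit 21755125286, nat_lit 21828026200], nat_lit 1271250, nat_lit 1271250, nat_lit 1271250, nat_lit 1271250, nat_lit 0, nat_lit 2118750, [nat_lit 490000, nat_lit 1427500, nat_lit 1271250],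 [nat_lit 72, nat_lit 40, nat_lit 40, nat_lit 80, nat_lit 12, nat_lit 401, nat_lit 175, nat_lit 10]⟩,
 ⟨nat_lit 3162, nat_lit 4473, ⟨.ofNat (nat_lit 696911), .ofNat (nat_lit 969090), .ofNat (nat_lit 707649), .ofNat (nat_lit 979840), .ofNat (nat_lit 693416), .ofNat (nat_lit 937496), .ofNat (nat_lit 704449), .ofNat (nat_lit 948541)⟩, ⟨.ofNat (nat_lit 302621), .ofNat (nat_lit 540545), .ofNat (nat_lit 345754), .ofNat (nat_lit 583678), .ofNat (nat_lit 306116), .ofNat (nat_lit 519453), .ofNat (nat_lit 350426), .ofNat (nat_lit 563762)⟩⟩, [⟨nat_lit 4, nat_lit 100, nat_lit 74, nat_lit 90, nat_lit 360440393⟩, ⟨nat_lit 7, nat_lit 100, nat_lit 84, nat_lit 93, nat_lit 58053904⟩]⟩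
noncomputable def p101_l115 : Lf2 := ⟨nat_lit 0, nat_lit 30, [nat_lit 15, nat_lit 5, nat_lit 5, nat_lit 20], false, nat_lit 160, nat_lit 288, nat_lit 0, nat_lit 288, ⟨nat_lit 925, nat_lit 75, nat_lit 0, nat_lit 8, nat_lit 335, nat_lit 75, nat_lit 171, nat_lit 0, nat_lit 0, nat_lit 0, nat_lit 0, nat_lit 0, nat_lit 0, nat_lit 0, nat_lit 0, nat_lit 5000000, true, false⟩,
 nat_lit 0, nat_lit 0, nat_lit 7607, nat_lit 0, nat_lit 6355, nat_lit 5929, nat_lit 0, nat_lit 0, nat_lit 0, nat_lit 472, nat_lit 0, nat_lit 0, nat_lit 0, nat_lit 0, nat_lit 0, nat_lit 18750, nat_lit 0, nat_lit 0, [(nat_lit 20, [(nat_lit 0, nat_lit 75)]), (nat_lit 23, [(nat_lit 0, nat_lit 75)])],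
 ⟨p101_k25, nat_lit 0, nat_lit 0, nat_lit 100, nat_lit 0, nat_lit 0, [nat_lit 1997800001, nat_lit 5985100000, nat_lit 11239570000], [], [nat_lit 23573006220, nat_lit 25925173740, nat_lit 32856444135, nat_lit 34335538020, nat_lit 27613091949, nat_lit 29405704812, nat_lit 34733309031, nat_lit 36135347221], nat_lit 0, nat_lit 0, nat_lit 0, nat_lit 0, nat_lit 0, nat_lit 0, [], [nat_lit 72, nat_lit 40, nat_lit 40, nat_lit 80, nat_lit 12, nat_lit 401, nat_lit 175, nat_lit 9]⟩, ⟨p101_k25, nat_lit 0, nat_lit 0, nat_lit 524, nat_lit 0, nat_lit 617360, [nat_lit 1879600000, nat_lit 5781250000, nat_lit 10981600000], [], [nat_lit 32145602688, nat_lit 32460739048, nat_lit 36916124485, nat_lit 37565970246, nat_lit 29464202899, nat_lit 29670670573, nat_lit 32454657120, nat_lit 32623236266], nat_lit 1271250, nat_lit 1271250, nat_lit 1271250, nat_lit 1271250, nat_lit 0, nat_lit 2034000, [nat_lit 490000, nat_lit 1427500, nat_lit 1271250],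 [nat_lit 72, nat_lit 40, nat_lit 40, nat_lit 80, nat_lit 12, nat_lit 401, nat_lit 175, nat_lit 10]⟩,
 ⟨nat_lit 3162, nat_lit 4184, ⟨.ofNat (nat_lit 706775), .ofNat (nat_lit 972009), .ofNat (nat_lit 717580), .ofNat (nat_lit 982822), .ofNat (nat_lit 704646), .ofNat (nat_lit 948671), .ofNat (nat_lit 715695), .ofNat (nat_lit 959728)⟩, ⟨.ofNat (nat_lit 303743), .ofNat (nat_lit 515761), .ofNat (nat_lit 347076), .ofNat (nat_lit 559094), .ofNat (nat_lit 306116), .ofNat (nat_lit 501167), .ofNat (nat_lit 350426), .ofNat (nat_lit 545476)⟩⟩, [⟨nat_lit 4, nat_lit 100, nat_lit 71, nat_lit 89, nat_lit 544288068⟩, ⟨nat_lit 19, nat_lit 77, nat_lit 100, nat_lit 91, nat_lit 112066703⟩]⟩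
noncomputable def b_V_800_800_20_23 : St := ⟨true, nat_lit 0, nat_lit 2, nat_lit 0, nat_lit 120, nat_lit 320, nat_lit 360, nat_lit 320, nat_lit 340, nat_lit 140, nat_lit 400, nat_lit 80, nat_lit 120, nat_lit 0, nat_lit 300, nat_lit 0, nat_lit 300, nat_lit 80, nat_lit 120, nat_lit 0, nat_lit 0, nat_lit 0, nat_lit 0⟩
theorem d_V_800_800_20_23 (h : EB TB.env) : Dead b_V_800_800_20_23 := chkB_sound0 h (T :=
(.gv
(.st (nat_lit 1)
(.spl (nat_lit 5) (nat_lit 160)
(.spl (nat_lit 1) (nat_lit 330)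
(.leaf p101_l96)
(.ord (.trZ (nat_lit 0) (nat_lit 77) (nat_lit 77) (nat_lit 100) (nat_lit 168) (.trX (nat_lit 16) (nat_lit 83) (nat_lit 98) (nat_lit 100) (nat_lit 288) (.leaf p101_l97)))))
(.leaf p101_l98))
(.spl (nat_lit 4) (nat_lit 160)
(.spl (nat_lit 5) (nat_lit 160)
(.spl (nat_lit 2) (nat_lit 240)
(.leaf p101_l99)
(.leaf p101_l100))
(.spl (nat_lit 2) (nat_lit 240)
(.leaf p101_l101)
(.leaf p101_l102)))
(.spl (nat_lit 5) (nat_lit 160)
(.spl (nat_lit 0) (nat_lit 340)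
(.leaf p101_l103)
(.trZ (nat_lit 0) (nat_lit 81) (nat_lit 72) (nat_lit 100) (nat_lit 168) (.trX (nat_lit 16) (nat_lit 77) (nat_lit 100) (nat_lit 99) (nat_lit 276) (.leaf p101_l104))))
(.spl (nat_lit 2) (nat_lit 240)
(.leaf p101_l105)
(.leaf p101_l106)))))
(.st (nat_lit 1)
(.spl (nat_lit 5) (nat_lit 160)
(.spl (nat_lit 1) (nat_lit 330)
(.leaf p101_l107)
(.ord (.trZ (nat_lit 0) (nat_lit 77) (nat_lit 77) (nat_lit 100) (nat_lit 168) (.trX (nat_lit 16) (nat_lit 83) (nat_lit 98) (nat_lit 100) (nat_lit 288) (.leaf p101_l108)))))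
(.leaf p101_l109))
(.spl (nat_lit 2) (nat_lit 240)
(.spl (nat_lit 4) (nat_lit 160)
(.leaf p101_l110)
(.leaf p101_l111))
(.spl (nat_lit 4) (nat_lit 160)
(.spl (nat_lit 0) (nat_lit 340)
(.leaf p101_l112)
(.leaf p101_l113))
(.spl (nat_lit 1) (nat_lit 330)
(.leaf p101_l114)
(.ord (.trX (nat_lit 16) (nat_lit 83) (nat_lit 98) (nat_lit 100) (nat_lit 288) (.trX (nat_lit 19) (nat_lit 83) (nat_lit 98) (nat_lit 100) (nat_lit 288) (.leaf p101_l115)))))))))) (by decide +kernel)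
noncomputable def p101_l116 : Lf2 := ⟨nat_lit 0, nat_lit 30, [nat_lit 15, nat_lit 5, nat_lit 5, nat_lit 20], false, nat_lit 0, nat_lit 160, nat_lit 0, nat_lit 160, ⟨nat_lit 1000, nat_lit 0, nat_lit 0, nat_lit 0, nat_lit 0, nat_lit 0, nat_lit 0, nat_lit 0, nat_lit 0, nat_lit 0, nat_lit 0, nat_lit 0, nat_lit 0, nat_lit 0, nat_lit 0, nat_lit 0, false, false⟩,
 nat_lit 0, nat_lit 9078, nat_lit 0, nat_lit 0, nat_lit 6808, nat_lit 6119, nat_lit 821, nat_lit 0, nat_lit 0, nat_lit 972, nat_lit 0, nat_lit 0, nat_lit 0, nat_lit 1155424372446, nat_lit 0, nat_lit 0, nat_lit 0, nat_lit 0, [],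
 ⟨p101_k21, nat_lit 0, nat_lit 0, nat_lit 550, nat_lit 0, nat_lit 636791, [nat_lit 2032000001, nat_lit 4688000000, nat_lit 11872000000], [], [nat_lit 29005561488, nat_lit 29859664399, nat_lit 28182258079, nat_lit 31058246911, nat_lit 23443108911, nat_lit 25173797887, nat_lit 31145190112, nat_lit 26486253984], nat_lit 1271250, nat_lit 1271250, nat_lit 936251, nat_lit 1773750, nat_lit 0, nat_lit 1100001, [nat_lit 490000, nat_lit 1100000, nat_lit 2470000], [nat_lit 75, nat_lit 40, nat_lit 40, nat_lit 80, nat_lit 65, nat_lit 317, nat_lit 100, nat_lit 8]⟩, ⟨p101_k21, nat_lit 0, nat_lit 0, nat_lit 216, nat_lit 0, nat_lit 0, [nat_lit 2032000000, nat_lit 4688000000, nat_lit 11872000000], [], [nat_lit 23891571780, nat_lit 25523353656, nat_lit 25760246772, nat_lit 27115318660, nat_lit 19450016314, nat_lit 20835825450, nat_lit 21110588172, nat_lit 22422749960], nat_lit 0, nat_lit 0, nat_lit 0, nat_lit 0, nat_lit 0, nat_lit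 0, [], [nat_lit 75, nat_lit 40, nat_lit 40, nat_lit 80, nat_lit 65, nat_lit 317, nat_lit 100, nat_lit 8]⟩,
 zbF0, [⟨nat_lit 0, nat_lit 76, nat_lit 72, nat_lit 100, nat_lit 450200038⟩]⟩
noncomputable def p101_l117 : Lf2 := ⟨nat_lit 0, nat_lit 30, [nat_lit 15, nat_lit 5, nat_lit 5, nat_lit 20], false, nat_lit 0, nat_lit 160, nat_lit 0, nat_lit 160, ⟨nat_lit 1000, nat_lit 0, nat_lit 0, nat_lit 0, nat_lit 0, nat_lit 0, nat_lit 0, nat_lit 0, nat_lit 0, nat_lit 0, nat_lit 0, nat_lit 0, nat_lit 0, nat_lit 0, nat_lit 0, nat_lit 0, false, false⟩,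
 nat_lit 0, nat_lit 7877, nat_lit 0, nat_lit 0, nat_lit 5907, nat_lit 6305, nat_lit 655, nat_lit 0, nat_lit 0, nat_lit 572, nat_lit 0, nat_lit 0, nat_lit 0, nat_lit 0, nat_lit 0, nat_lit 0, nat_lit 0, nat_lit 0, [],
 ⟨p101_k21, nat_lit 0, nat_lit 0, nat_lit 526, nat_lit 0, nat_lit 636791, [nat_lit 2032000001, nat_lit 4688000000, nat_lit 11872000000], [], [nat_lit 32581069845, nat_lit 34206807525, nat_lit 37876356309, nat_lit 40491502844, nat_lit 29594412165, nat_lit 30962833297, nat_lit 33766834821, nat_lit 34849178308], nat_lit 1271250, nat_lit 1271250, nat_lit 1271250, nat_lit 1271250, nat_lit 0, nat_lit 1100001, [nat_lit 490000, nat_lit 1100000, nat_lit 2470000], [nat_lit 75, nat_lit 40, nat_lit 40, nat_lit 80, nat_lit 65, nat_lit 373, nat_lit 150, nat_lit 9]⟩, ⟨p101_k21, nat_lit 0, nat_lit 0, nat_lit 234, nat_lit 0, nat_lit 0, [nat_lit 2032000000, nat_lit 4688000000, nat_lit 11872000000], [], [nat_lit 31202034340,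 nat_lit 32579491700, nat_lit 39456175660, nat_lit 40309272450, nat_lit 26900733420, nat_lit 27892774080, nat_lit 33412496440, nat_lit 34153069780], nat_lit 0, nat_lit 0, nat_lit 0, nat_lit 0, nat_lit 0, nat_lit 0, [], [nat_lit 75, nat_lit 40, nat_lit 40, nat_lit 80, nat_lit 65, nat_lit 373, nat_lit 150, nat_lit 9]⟩,
 zbF0, []⟩
noncomputable def p101_l118 : Lf2 := ⟨nat_lit 0, nat_lit 30, [nat_lit 15, nat_lit 5, nat_lit 5, nat_lit 20], false, nat_lit 160, nat_lit 300, nat_lit 0, nat_lit 160, ⟨nat_lit 1000, nat_lit 0, nat_lit 0, nat_lit 0, nat_lit 0, nat_lit 0, nat_lit 0, nat_lit 0, nat_lit 0, nat_lit 0, nat_lit 0, nat_lit 0, nat_lit 0, nat_lit 0, nat_lit 0, nat_lit 0, false, false⟩,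
 nat_lit 0, nat_lit 8995, nat_lit 0, nat_lit 4123, nat_lit 6746, nat_lit 6200, nat_lit 737, nat_lit 0, nat_lit 0, nat_lit 981, nat_lit 0, nat_lit 0, nat_lit 0, nat_lit 1244900845388, nat_lit 0, nat_lit 0, nat_lit 0, nat_lit 0, [],
 ⟨p101_k21, nat_lit 0, nat_lit 0, nat_lit 435, nat_lit 0, nat_lit 636791, [nat_lit 2032000001, nat_lit 4688000000, nat_lit 11872000000], [], [nat_lit 23555512179, nat_lit 25620208455, nat_lit 24571746035, nat_lit 26292332987, nat_lit 26323474868, nat_lit 28481477856, nat_lit 26962033657, nat_lit 29079632808], nat_lit 1271250, nat_lit 1271250, nat_lit 936251, nat_lit 1773750, nat_lit 1271250, nat_lit 1271250, [nat_lit 490000, nat_lit 1100000, nat_lit 2470000], [nat_lit 75, nat_lit 40, nat_lit 40, nat_lit 80, nat_lit 65, nat_lit 373, nat_lit 150, nat_lit 9]⟩, ⟨p101_k21, nat_lit 0, nat_lit 0, nat_lit 216, nat_lit 0, nat_lit 0, [nat_lit 2032000000, nat_lit 4688000000, nat_lit 11872000000],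 [], [nat_lit 23827599375, nat_lit 25472066175, nat_lit 25688430975, nat_lit 27053251375, nat_lit 19289474575, nat_lit 20685501375, nat_lit 20941458975, nat_lit 22361582000], nat_lit 0, nat_lit 0, nat_lit 0, nat_lit 0, nat_lit 0, nat_lit 0, [], [nat_lit 75, nat_lit 40, nat_lit 40, nat_lit 80, nat_lit 65, nat_lit 317, nat_lit 100, nat_lit 8]⟩,
 zbF0, [⟨nat_lit 0, nat_lit 76, nat_lit 72, nat_lit 100, nat_lit 623655133⟩, ⟨nat_lit 4, nat_lit 100, nat_lit 74, nat_lit 90, nat_lit 478199317⟩]⟩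
noncomputable def p101_l119 : Lf2 := ⟨nat_lit 0, nat_lit 30, [nat_lit 15, nat_lit 5, nat_lit 5, nat_lit 20], false, nat_lit 160, nat_lit 300, nat_lit 0, nat_lit 160, ⟨nat_lit 1000, nat_lit 0, nat_lit 0, nat_lit 0, nat_lit 0, nat_lit 0, nat_lit 0, nat_lit 0, nat_lit 0, nat_lit 0, nat_lit 0, nat_lit 0, nat_lit 0, nat_lit 0, nat_lit 0, nat_lit 0, false, false⟩,
 nat_lit 0, nat_lit 7917, nat_lit 0, nat_lit 0, nat_lit 5937, nat_lit 6305, nat_lit 664, nat_lit 0, nat_lit 0, nat_lit 572, nat_lit 0, nat_lit 0, nat_lit 0, nat_lit 0, nat_lit 0, nat_lit 0, nat_lit 0, nat_lit 0, [],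
 ⟨p101_k21, nat_lit 0, nat_lit 0, nat_lit 388, nat_lit 0, nat_lit 636791, [nat_lit 2032000001, nat_lit 4688000000, nat_lit 11872000000], [], [nat_lit 27693435520, nat_lit 29322540400, nat_lit 32670159680, nat_lit 33734385692, nat_lit 29838994055, nat_lit 31066224226, nat_lit 34152335266, nat_lit 35913541911], nat_lit 1271250, nat_lit 1271250, nat_lit 1271250, nat_lit 1271250, nat_lit 1100001, nat_lit 2298750, [nat_lit 490000, nat_lit 1100000, nat_lit 2470000], [nat_lit 75, nat_lit 40, nat_lit 40, nat_lit 80, nat_lit 65, nat_lit 401, nat_lit 175, nat_lit 9]⟩, ⟨p101_k21, nat_lit 0, nat_lit 0, nat_lit 234, nat_lit 0, nat_lit 0, [nat_lit 2032000000, nat_lit 4688000000, nat_lit 11872000000], [], [nat_lit 31202034340, nat_lit 32579491700, nat_lit 39456175660, nat_lit 40309272450, nat_lit 26900733420, nat_lit 27892774080, nat_lit 33412496440, nat_lit 34153069780], nat_lit 0, nat_lit 0, nat_lit 0, nat_lit 0, nat_lit 0, nat_lit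 0, [], [nat_lit 75, nat_lit 40, nat_lit 40, nat_lit 80, nat_lit 65, nat_lit 373, nat_lit 150, nat_lit 9]⟩,
 zbF0, [⟨nat_lit 4, nat_lit 100, nat_lit 74, nat_lit 90, nat_lit 423265326⟩]⟩
noncomputable def p101_l120 : Lf2 := ⟨nat_lit 0, nat_lit 30, [nat_lit 15, nat_lit 5, nat_lit 5, nat_lit 20], false, nat_lit 0, nat_lit 300, nat_lit 160, nat_lit 300, ⟨nat_lit 1000, nat_lit 0, nat_lit 0, nat_lit 0, nat_lit 0, nat_lit 0, nat_lit 0, nat_lit 0, nat_lit 0, nat_lit 0, nat_lit 0, nat_lit 0, nat_lit 0, nat_lit 0, nat_lit 0, nat_lit 0, false, false⟩,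
 nat_lit 0, nat_lit 10592, nat_lit 0, nat_lit 0, nat_lit 7943, nat_lit 3718, nat_lit 154, nat_lit 0, nat_lit 0, nat_lit 0, nat_lit 0, nat_lit 0, nat_lit 0, nat_lit 0, nat_lit 0, nat_lit 0, nat_lit 0, nat_lit 0, [],
 ⟨p101_k23, nat_lit 0, nat_lit 0, nat_lit 502, nat_lit 0, nat_lit 469274, [nat_lit 2032000001, nat_lit 6250000000, nat_lit 11872000000], [], [nat_lit 36976853800, nat_lit 38140936837, nat_lit 37706880990, nat_lit 39156640770, nat_lit 33909470328, nat_lit 34614022413, nat_lit 37337109074, nat_lit 34784388958], nat_lit 1271250, nat_lit 1271250, nat_lit 936251, nat_lit 1773750, nat_lit 0, nat_lit 2118750, [nat_lit 490000, nat_lit 1427500, nat_lit 1271250], [nat_lit 72, nat_lit 40, nat_lit 40, nat_lit 80, nat_lit 12, nat_lit 373, nat_lit 150, nat_lit 9]⟩, ⟨p101_k23, nat_lit 0, nat_lit 0, nat_lit 60, nat_lit 0, nat_lit 0, [nat_lit 2032000000, nat_lit 6250000000, nat_lit 11872000000], [], [nat_lit 16224302196,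 nat_lit 17894395224, nat_lit 19521688616, nat_lit 20920126496, nat_lit 22296890543, nat_lit 23552113633, nat_lit 24568080524, nat_lit 25633469776], nat_lit 0, nat_lit 0, nat_lit 0, nat_lit 0, nat_lit 0, nat_lit 0, [], [nat_lit 72, nat_lit 40, nat_lit 40, nat_lit 80, nat_lit 12, nat_lit 373, nat_lit 150, nat_lit 9]⟩,
 zbF0, [⟨nat_lit 0, nat_lit 77, nat_lit 77, nat_lit 100, nat_lit 486884828⟩, ⟨nat_lit 4, nat_lit 100, nat_lit 81, nat_lit 92, nat_lit 163482707⟩, ⟨nat_lit 7, nat_lit 100, nat_lit 81, nat_lit 92, nat_lit 536572494⟩]⟩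
noncomputable def p101_l121 : Lf2 := ⟨nat_lit 0, nat_lit 30, [nat_lit 15, nat_lit 5, nat_lit 5, nat_lit 20], false, nat_lit 0, nat_lit 276, nat_lit 160, nat_lit 300, ⟨nat_lit 1000, nat_lit 0, nat_lit 0, nat_lit 0, nat_lit 0, nat_lit 0, nat_lit 0, nat_lit 0, nat_lit 0, nat_lit 0, nat_lit 0, nat_lit 0, nat_lit 0, nat_lit 0, nat_lit 0, nat_lit 0, false, false⟩,
 nat_lit 0, nat_lit 7186, nat_lit 0, nat_lit 0, nat_lit 5817, nat_lit 3747, nat_lit 715, nat_lit 0, nat_lit 0, nat_lit 0, nat_lit 0, nat_lit 0, nat_lit 0, nat_lit 0, nat_lit 0, nat_lit 0, nat_lit 0, nat_lit 0, [],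
 ⟨p101_k24, nat_lit 0, nat_lit 0, nat_lit 462, nat_lit 0, nat_lit 572006, [nat_lit 2032000001, nat_lit 4688000000, nat_lit 9842000000], [], [nat_lit 29511185296, nat_lit 26965387220, nat_lit 27126832353, nat_lit 28634893636, nat_lit 24449126476, nat_lit 25586428332, nat_lit 27719347948, nat_lit 27237931719], nat_lit 1271250, nat_lit 1271250, nat_lit 1167600, nat_lit 1789500, nat_lit 0, nat_lit 1949250, [nat_lit 490000, nat_lit 1100000, nat_lit 2127500], [nat_lit 27, nat_lit 40, nat_lit 40, nat_lit 80, nat_lit 13, nat_lit 373, nat_lit 150, nat_lit 10]⟩, ⟨p101_k21, nat_lit 0, nat_lit 0, nat_lit 45, nat_lit 0, nat_lit 0, [nat_lit 2032000000, nat_lit 4688000000, nat_lit 11872000000], [], [nat_lit 16874095917, nat_lit 18479488789, nat_lit 19502722964, nat_lit 20906602984, nat_lit 22709715581, nat_lit 23919894533, nat_lit 24558487846, nat_lit 25643606616], nat_lit 0, nat_lit 0, nat_lit 0, nat_lit 0, nat_lit 0, nat_lit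 0, [], [nat_lit 75, nat_lit 40, nat_lit 40, nat_lit 80, nat_lit 65, nat_lit 373, nat_lit 150, nat_lit 9]⟩,
 zbF0, [⟨nat_lit 0, nat_lit 76, nat_lit 66, nat_lit 100, nat_lit 214737862⟩, ⟨nat_lit 16, nat_lit 77, nat_lit 100, nat_lit 99, nat_lit 109022201⟩, ⟨nat_lit 19, nat_lit 87, nat_lit 95, nat_lit 100, nat_lit 459991044⟩]⟩
noncomputable def p101_l122 : Lf2 := ⟨nat_lit 0, nat_lit 30, [nat_lit 15, nat_lit 5, nat_lit 5, nat_lit 20], false, nat_lit 0, nat_lit 300, nat_lit 160, nat_lit 300, ⟨nat_lit 1000, nat_lit 0, nat_lit 0, nat_lit 0, nat_lit 0, nat_lit 0, nat_lit 0, nat_lit 0, nat_lit 0, nat_lit 0, nat_lit 0, nat_lit 0, nat_lit 0, nat_lit 0, nat_lit 0, nat_lit 0, false, false⟩,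
 nat_lit 0, nat_lit 8707, nat_lit 0, nat_lit 0, nat_lit 6530, nat_lit 6706, nat_lit 511, nat_lit 0, nat_lit 0, nat_lit 0, nat_lit 0, nat_lit 0, nat_lit 0, nat_lit 0, nat_lit 0, nat_lit 0, nat_lit 0, nat_lit 0, [],
 ⟨p101_k23, nat_lit 0, nat_lit 0, nat_lit 450, nat_lit 0, nat_lit 469274, [nat_lit 2032000001, nat_lit 6250000000, nat_lit 11872000000], [], [nat_lit 35164036275, nat_lit 36039961595, nat_lit 40408945155, nat_lit 40964961200, nat_lit 32748647135, nat_lit 33294151570, nat_lit 36759334750, nat_lit 37217807970], nat_lit 1271250, nat_lit 1271250, nat_lit 1271250, nat_lit 1271250, nat_lit 0, nat_lit 2118750, [nat_lit 490000, nat_lit 1427500, nat_lit 1271250], [nat_lit 72, nat_lit 40, nat_lit 40, nat_lit 80, nat_lit 12, nat_lit 401, nat_lit 175, nat_lit 10]⟩, ⟨p101_k23, nat_lit 0, nat_lit 0, nat_lit 95, nat_lit 0, nat_lit 0, [nat_lit 2032000000, nat_lit 6250000000, nat_lit 11872000000], [], [nat_lit 22729089736,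 nat_lit 24348593432, nat_lit 32576788848, nat_lit 33587722596, nat_lit 27556348974, nat_lit 28747701810, nat_lit 35052232908, nat_lit 35977855413], nat_lit 0, nat_lit 0, nat_lit 0, nat_lit 0, nat_lit 0, nat_lit 0, [], [nat_lit 72, nat_lit 40, nat_lit 40, nat_lit 80, nat_lit 12, nat_lit 401, nat_lit 175, nat_lit 9]⟩,
 zbF0, [⟨nat_lit 16, nat_lit 81, nat_lit 100, nat_lit 92, nat_lit 158562105⟩, ⟨nat_lit 7, nat_lit 100, nat_lit 81, nat_lit 92, nat_lit 489547505⟩]⟩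
noncomputable def p101_l123 : Lf2 := ⟨nat_lit 0, nat_lit 30, [nat_lit 15, nat_lit 5, nat_lit 5, nat_lit 20], false, nat_lit 0, nat_lit 276, nat_lit 160, nat_lit 300, ⟨nat_lit 1000, nat_lit 0, nat_lit 0, nat_lit 0, nat_lit 0, nat_lit 0, nat_lit 0, nat_lit 0, nat_lit 0, nat_lit 0, nat_lit 0, nat_lit 0, nat_lit 0, nat_lit 0, nat_lit 0, nat_lit 0, false, false⟩,
 nat_lit 0, nat_lit 6592, nat_lit 0, nat_lit 0, nat_lit 5336, nat_lit 6370, nat_lit 797, nat_lit 0, nat_lit 0, nat_lit 0, nat_lit 0, nat_lit 0, nat_lit 0, nat_lit 0, nat_lit 0, nat_lit 0, nat_lit 0, nat_lit 0, [],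
 ⟨p101_k26, nat_lit 0, nat_lit 0, nat_lit 453, nat_lit 0, nat_lit 572006, [nat_lit 2032000001, nat_lit 6250000000, nat_lit 9842000000], [], [nat_lit 28911787392, nat_lit 29737356544, nat_lit 37480838064, nat_lit 38758922112, nat_lit 28015052565, nat_lit 28543207198, nat_lit 33619064354, nat_lit 34516059480], nat_lit 1271250, nat_lit 1271250, nat_lit 1271250, nat_lit 1271250, nat_lit 0, nat_lit 1949250, [nat_lit 490000, nat_lit 1427500, nat_lit 1271250], [nat_lit 61, nat_lit 40, nat_lit 40, nat_lit 80, nat_lit 1, nat_lit 401, nat_lit 175, nat_lit 11]⟩, ⟨p101_k23, nat_lit 0, nat_lit 0, nat_lit 95, nat_lit 0, nat_lit 0, [nat_lit 2032000000, nat_lit 6250000000, nat_lit 11872000000], [], [nat_lit 23039971720, nat_lit 24610279640, nat_lit 32626110960, nat_lit 33613236420, nat_lit 27803887230, nat_lit 28963704450, nat_lit 34806228880, nat_lit 35564991885], nat_lit 0, nat_lit 0, nat_lit 0, nat_lit 0, nat_lit 0, nat_lit 0,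 [], [nat_lit 72, nat_lit 40, nat_lit 40, nat_lit 80, nat_lit 12, nat_lit 401, nat_lit 175, nat_lit 9]⟩,
 zbF0, [⟨nat_lit 4, nat_lit 100, nat_lit 67, nat_lit 88, nat_lit 166058463⟩, ⟨nat_lit 7, nat_lit 100, nat_lit 81, nat_lit 92, nat_lit 388315358⟩]⟩
noncomputable def p101_l124 : Lf2 := ⟨nat_lit 0, nat_lit 30, [nat_lit 15, nat_lit 5, nat_lit 5, nat_lit 20], false, nat_lit 0, nat_lit 300, nat_lit 0, nat_lit 160, ⟨nat_lit 1000, nat_lit 0, nat_lit 0, nat_lit 0, nat_lit 0, nat_lit 0, nat_lit 0, nat_lit 0, nat_lit 0, nat_lit 0, nat_lit 0, nat_lit 0, nat_lit 0, nat_lit 0, nat_lit 0, nat_lit 0, false, false⟩,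
 nat_lit 12481, nat_lit 0, nat_lit 0, nat_lit 0, nat_lit 9360, nat_lit 8750, nat_lit 332, nat_lit 0, nat_lit 0, nat_lit 792, nat_lit 0, nat_lit 0, nat_lit 0, nat_lit 0, nat_lit 0, nat_lit 0, nat_lit 0, nat_lit 0, [],
 ⟨p101_k23, nat_lit 0, nat_lit 0, nat_lit 429, nat_lit 0, nat_lit 377809, [nat_lit 2032000001, nat_lit 6250000000, nat_lit 11872000000], [], [nat_lit 34306666700, nat_lit 38585337580, nat_lit 34628014140, nat_lit 38455570300, nat_lit 30294148740, nat_lit 32866726460, nat_lit 29903241281, nat_lit 32195335460], nat_lit 1271250, nat_lit 1271250, nat_lit 936251, nat_lit 1438750, nat_lit 0, nat_lit 2118750, [nat_lit 490000, nat_lit 1427500, nat_lit 1271250], [nat_lit 72, nat_lit 40, nat_lit 40, nat_lit 80, nat_lit 12, nat_lit 345, nat_lit 125, nat_lit 9]⟩, ⟨p101_k23, nat_lit 0, nat_lit 0, nat_lit 418, nat_lit 0, nat_lit 377809, [nat_lit 2032000000, nat_lit 6250000000, nat_lit 11872000000], [], [nat_lit 27262521000,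 nat_lit 29306328000, nat_lit 27656453000, nat_lit 29486891000, nat_lit 22056783500, nat_lit 23426192500, nat_lit 22489573000, nat_lit 23716588500], nat_lit 1271250, nat_lit 1271250, nat_lit 936251, nat_lit 1438750, nat_lit 0, nat_lit 1100001, [nat_lit 490000, nat_lit 1427500, nat_lit 1271250], [nat_lit 72, nat_lit 40, nat_lit 40, nat_lit 80, nat_lit 12, nat_lit 317, nat_lit 100, nat_lit 8]⟩,
 zbF0, [⟨nat_lit 0, nat_lit 76, nat_lit 72, nat_lit 100, nat_lit 915323584⟩, ⟨nat_lit 4, nat_lit 100, nat_lit 74, nat_lit 90, nat_lit 114531266⟩, ⟨nat_lit 6, nat_lit 100, nat_lit 88, nat_lit 21, nat_lit 17013072⟩]⟩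
noncomputable def p101_l125 : Lf2 := ⟨nat_lit 0, nat_lit 30, [nat_lit 15, nat_lit 5, nat_lit 5, nat_lit 20], false, nat_lit 0, nat_lit 300, nat_lit 0, nat_lit 160, ⟨nat_lit 1000, nat_lit 0, nat_lit 0, nat_lit 0, nat_lit 0, nat_lit 0, nat_lit 0, nat_lit 0, nat_lit 0, nat_lit 0, nat_lit 0, nat_lit 0, nat_lit 0, nat_lit 0, nat_lit 0, nat_lit 0, false, false⟩,
 nat_lit 10599, nat_lit 0, nat_lit 0, nat_lit 0, nat_lit 7949, nat_lit 7949, nat_lit 553, nat_lit 0, nat_lit 0, nat_lit 671, nat_lit 0, nat_lit 0, nat_lit 0, nat_lit 0, nat_lit 0, nat_lit 0, nat_lit 0, nat_lit 0, [],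
 ⟨p101_k23, nat_lit 0, nat_lit 0, nat_lit 406, nat_lit 0, nat_lit 377809, [nat_lit 2032000001, nat_lit 6250000000, nat_lit 11872000000], [], [nat_lit 31320025273, nat_lit 34082017445, nat_lit 31951500945, nat_lit 34991891533, nat_lit 27818312318, nat_lit 29647220114, nat_lit 28281195244, nat_lit 30007203552], nat_lit 1271250, nat_lit 1271250, nat_lit 1271250, nat_lit 1271250, nat_lit 0, nat_lit 2118750, [nat_lit 490000, nat_lit 1427500, nat_lit 1271250], [nat_lit 72, nat_lit 40, nat_lit 40, nat_lit 80, nat_lit 12, nat_lit 373, nat_lit 150, nat_lit 9]⟩, ⟨p101_k23, nat_lit 0, nat_lit 0, nat_lit 402, nat_lit 0, nat_lit 377809, [nat_lit 2032000000, nat_lit 6250000000, nat_lit 11872000000], [], [nat_lit 29621194023, nat_lit 30667044973, nat_lit 30361245812, nat_lit 31717744235, nat_lit 24810259036, nat_lit 25972276590, nat_lit 25681907240, nat_lit 26749498346], nat_lit 1271250, nat_lit 1271250, nat_lit 1271250, nat_lit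 1271250, nat_lit 0, nat_lit 1100001, [nat_lit 490000, nat_lit 1427500, nat_lit 1271250], [nat_lit 72, nat_lit 40, nat_lit 40, nat_lit 80, nat_lit 12, nat_lit 317, nat_lit 100, nat_lit 8]⟩,
 zbF0, [⟨nat_lit 0, nat_lit 72, nat_lit 61, nat_lit 100, nat_lit 589927787⟩, ⟨nat_lit 4, nat_lit 100, nat_lit 74, nat_lit 90, nat_lit 146325023⟩]⟩
noncomputable def p101_l126 : Lf2 := ⟨nat_lit 0, nat_lit 30, [nat_lit 15, nat_lit 5, nat_lit 5, nat_lit 20], false, nat_lit 0, nat_lit 300, nat_lit 0, nat_lit 160, ⟨nat_lit 1000, nat_lit 0, nat_lit 0, nat_lit 0, nat_lit 0, nat_lit 0, nat_lit 0, nat_lit 0, nat_lit 0, nat_lit 0, nat_lit 0, nat_lit 0, nat_lit 0, nat_lit 0, nat_lit 0, nat_lit 0, false, false⟩,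
 nat_lit 9944, nat_lit 0, nat_lit 0, nat_lit 0, nat_lit 7457, nat_lit 7457, nat_lit 353, nat_lit 0, nat_lit 0, nat_lit 441, nat_lit 0, nat_lit 0, nat_lit 0, nat_lit 0, nat_lit 0, nat_lit 0, nat_lit 0, nat_lit 0, [],
 ⟨p101_k23, nat_lit 0, nat_lit 0, nat_lit 402, nat_lit 0, nat_lit 377809, [nat_lit 2032000001, nat_lit 6250000000, nat_lit 11872000000], [], [nat_lit 35735083385, nat_lit 37595289201, nat_lit 43368544909, nat_lit 45195187001, nat_lit 32248695919, nat_lit 33375838322, nat_lit 36667530747, nat_lit 37870242471], nat_lit 1271250, nat_lit 1271250, nat_lit 1271250, nat_lit 1271250, nat_lit 0, nat_lit 2118750, [nat_lit 490000, nat_lit 1427500, nat_lit 1271250], [nat_lit 72, nat_lit 40, nat_lit 40, nat_lit 80, nat_lit 12, nat_lit 401, nat_lit 175, nat_lit 10]⟩, ⟨p101_k23, nat_lit 0, nat_lit 0, nat_lit 402, nat_lit 0, nat_lit 377809, [nat_lit 2032000000, nat_lit 6250000000, nat_lit 11872000000], [], [nat_lit 34468158385,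 nat_lit 35398261293, nat_lit 42136794492, nat_lit 43665724968, nat_lit 29515506961, nat_lit 30291344183, nat_lit 34522089681, nat_lit 35308959597], nat_lit 1271250, nat_lit 1271250, nat_lit 1271250, nat_lit 1271250, nat_lit 0, nat_lit 1100001, [nat_lit 490000, nat_lit 1427500, nat_lit 1271250], [nat_lit 72, nat_lit 40, nat_lit 40, nat_lit 80, nat_lit 12, nat_lit 373, nat_lit 150, nat_lit 9]⟩,
 zbF0, [⟨nat_lit 4, nat_lit 100, nat_lit 74, nat_lit 90, nat_lit 80208291⟩, ⟨nat_lit 9, nat_lit 100, nat_lit 83, nat_lit 39, nat_lit 15797363⟩]⟩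
noncomputable def p101_l127 : Lf2 := ⟨nat_lit 0, nat_lit 30, [nat_lit 15, nat_lit 5, nat_lit 5, nat_lit 20], false, nat_lit 0, nat_lit 160, nat_lit 160, nat_lit 300, ⟨nat_lit 1000, nat_lit 0, nat_lit 0, nat_lit 0, nat_lit 0, nat_lit 0, nat_lit 0, nat_lit 0, nat_lit 0, nat_lit 0, nat_lit 0, nat_lit 0, nat_lit 0, nat_lit 0, nat_lit 0, nat_lit 0, false, false⟩,
 nat_lit 12975, nat_lit 0, nat_lit 0, nat_lit 0, nat_lit 8262, nat_lit 9731, nat_lit 678, nat_lit 0, nat_lit 0, nat_lit 510, nat_lit 0, nat_lit 0, nat_lit 0, nat_lit 0, nat_lit 0, nat_lit 0, nat_lit 0, nat_lit 0, [],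
 ⟨p101_k23, nat_lit 0, nat_lit 0, nat_lit 429, nat_lit 0, nat_lit 377809, [nat_lit 2032000001, nat_lit 6250000000, nat_lit 11872000000], [], [nat_lit 28900113450, nat_lit 32501266686, nat_lit 30227662206, nat_lit 33453634654, nat_lit 23426775426, nat_lit 26071943052, nat_lit 24775071120, nat_lit 26954820776], nat_lit 1271250, nat_lit 1271250, nat_lit 936251, nat_lit 1773750, nat_lit 0, nat_lit 1100001, [nat_lit 490000, nat_lit 1427500, nat_lit 1271250], [nat_lit 72, nat_lit 40, nat_lit 40, nat_lit 80, nat_lit 12, nat_lit 317, nat_lit 100, nat_lit 8]⟩, ⟨p101_k23, nat_lit 0, nat_lit 0, nat_lit 327, nat_lit 0, nat_lit 377809, [nat_lit 2032000000, nat_lit 6250000000, nat_lit 11872000000], [], [nat_lit 23252596036, nat_lit 25094037300, nat_lit 24530230878, nat_lit 26032063580, nat_lit 27579319492, nat_lit 28895019748, nat_lit 27576433527, nat_lit 29473884232], nat_lit 1271250, nat_lit 1271250, nat_lit 936251, nat_lit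 1773750, nat_lit 1100001, nat_lit 2298750, [nat_lit 490000, nat_lit 1427500, nat_lit 1271250], [nat_lit 72, nat_lit 40, nat_lit 40, nat_lit 80, nat_lit 12, nat_lit 373, nat_lit 150, nat_lit 9]⟩,
 zbF0, [⟨nat_lit 0, nat_lit 76, nat_lit 72, nat_lit 100, nat_lit 747354497⟩, ⟨nat_lit 3, nat_lit 100, nat_lit 82, nat_lit 29, nat_lit 29937776⟩, ⟨nat_lit 7, nat_lit 100, nat_lit 81, nat_lit 92, nat_lit 444406170⟩]⟩
noncomputable def p101_l128 : Lf2 := ⟨nat_lit 0, nat_lit 30, [nat_lit 15, nat_lit 5, nat_lit 5, nat_lit 20], false, nat_lit 160, nat_lit 300, nat_lit 160, nat_lit 300, ⟨nat_lit 1000, nat_lit 0, nat_lit 0, nat_lit 0, nat_lit 0, nat_lit 0, nat_lit 0, nat_lit 0, nat_lit 0, nat_lit 0, nat_lit 0, nat_lit 0, nat_lit 0, nat_lit 0, nat_lit 0, nat_lit 0, false, false⟩,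
 nat_lit 13721, nat_lit 0, nat_lit 0, nat_lit 14372, nat_lit 10290, nat_lit 10290, nat_lit 585, nat_lit 0, nat_lit 0, nat_lit 585, nat_lit 0, nat_lit 0, nat_lit 0, nat_lit 0, nat_lit 0, nat_lit 0, nat_lit 0, nat_lit 0, [],
 ⟨p101_k23, nat_lit 0, nat_lit 0, nat_lit 172, nat_lit 0, nat_lit 133218, [nat_lit 2032000001, nat_lit 6250000000, nat_lit 11872000000], [], [nat_lit 21892718865, nat_lit 22370707805, nat_lit 23111089645, nat_lit 23499969690, nat_lit 26270250110, nat_lit 26610253995, nat_lit 27851158250, nat_lit 28346291834], nat_lit 1271250, nat_lit 1271250, nat_lit 936251, nat_lit 1773750, nat_lit 1100001, nat_lit 2298750, [nat_lit 490000, nat_lit 1427500, nat_lit 1271250], [nat_lit 72, nat_lit 40, nat_lit 40, nat_lit 80, nat_lit 12, nat_lit 373, nat_lit 150, nat_lit 9]⟩, ⟨p101_k23, nat_lit 0, nat_lit 0, nat_lit 172, nat_lit 0, nat_lit 133218, [nat_lit 2032000000, nat_lit 6250000000, nat_lit 11872000000], [],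 [nat_lit 21892718865, nat_lit 22370707805, nat_lit 23111089645, nat_lit 23499969690, nat_lit 26270250110, nat_lit 26610253995, nat_lit 27851158250, nat_lit 28346291834], nat_lit 1271250, nat_lit 1271250, nat_lit 936251, nat_lit 1773750, nat_lit 1100001, nat_lit 2298750, [nat_lit 490000, nat_lit 1427500, nat_lit 1271250], [nat_lit 72, nat_lit 40, nat_lit 40, nat_lit 80, nat_lit 12, nat_lit 373, nat_lit 150, nat_lit 9]⟩,
 zbF0, [⟨nat_lit 0, nat_lit 80, nat_lit 80, nat_lit 100, nat_lit 472903956⟩, ⟨nat_lit 16, nat_lit 85, nat_lit 100, nat_lit 94, nat_lit 464379242⟩, ⟨nat_lit 7, nat_lit 100, nat_lit 85, nat_lit 94, nat_lit 464379242⟩]⟩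
noncomputable def p101_l129 : Lf2 := ⟨nat_lit 0, nat_lit 30, [nat_lit 15, nat_lit 5, nat_lit 5, nat_lit 20], false, nat_lit 160, nat_lit 296, nat_lit 160, nat_lit 300, ⟨nat_lit 1000, nat_lit 0, nat_lit 0, nat_lit 0, nat_lit 0, nat_lit 0, nat_lit 0, nat_lit 0, nat_lit 0, nat_lit 0, nat_lit 0, nat_lit 0, nat_lit 0, nat_lit 0, nat_lit 0, nat_lit 0, false, false⟩,
 nat_lit 16148, nat_lit 0, nat_lit 0, nat_lit 5652, nat_lit 12348, nat_lit 12110, nat_lit 410, nat_lit 0, nat_lit 0, nat_lit 430, nat_lit 0, nat_lit 0, nat_lit 0, nat_lit 0, nat_lit 0, nat_lit 0, nat_lit 0, nat_lit 0, [],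
 ⟨p101_k27, nat_lit 0, nat_lit 0, nat_lit 185, nat_lit 0, nat_lit 177376, [nat_lit 2032000001, nat_lit 6250000000, nat_lit 11872000000], [], [nat_lit 23539588766, nat_lit 24074986406, nat_lit 24573399928, nat_lit 25011693582, nat_lit 27645024658, nat_lit 28028612507, nat_lit 29139502862, nat_lit 29709281567], nat_lit 1271250, nat_lit 1271250, nat_lit 1000851, nat_lit 1778250, nat_lit 1100001, nat_lit 2264500, [nat_lit 490000, nat_lit 1427500, nat_lit 1271250], [nat_lit 72, nat_lit 40, nat_lit 40, nat_lit 80, nat_lit 12, nat_lit 373, nat_lit 150, nat_lit 9]⟩, ⟨p101_k23, nat_lit 0, nat_lit 0, nat_lit 187, nat_lit 0, nat_lit 181868, [nat_lit 2032000000, nat_lit 6250000000, nat_lit 11872000000], [], [nat_lit 23087348426, nat_lit 24143387514, nat_lit 24237661430, nat_lit 25102819740, nat_lit 27532424759, nat_lit 28275122565, nat_lit 28777765750, nat_lit 29887207883], nat_lit 1271250, nat_lit 1271250, nat_lit 1000851,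 nat_lit 1778250, nat_lit 1100001, nat_lit 2298750, [nat_lit 490000, nat_lit 1427500, nat_lit 1271250], [nat_lit 72, nat_lit 40, nat_lit 40, nat_lit 80, nat_lit 12, nat_lit 373, nat_lit 150, nat_lit 9]⟩,
 zbF0, [⟨nat_lit 0, nat_lit 80, nat_lit 79, nat_lit 100, nat_lit 458681040⟩, ⟨nat_lit 4, nat_lit 100, nat_lit 82, nat_lit 92, nat_lit 482345125⟩, ⟨nat_lit 7, nat_lit 100, nat_lit 84, nat_lit 93, nat_lit 469980149⟩]⟩
noncomputable def p101_l130 : Lf2 := ⟨nat_lit 0, nat_lit 30, [nat_lit 15, nat_lit 5, nat_lit 5, nat_lit 20], false, nat_lit 160, nat_lit 288, nat_lit 160, nat_lit 300, ⟨nat_lit 1000, nat_lit 0, nat_lit 0, nat_lit 0, nat_lit 0, nat_lit 0, nat_lit 0, nat_lit 0, nat_lit 0, nat_lit 0, nat_lit 0, nat_lit 0, nat_lit 0, nat_lit 0, nat_lit 0, nat_lit 0, false, false⟩,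
 nat_lit 16447, nat_lit 0, nat_lit 0, nat_lit 498, nat_lit 12820, nat_lit 12335, nat_lit 362, nat_lit 0, nat_lit 0, nat_lit 386, nat_lit 0, nat_lit 0, nat_lit 0, nat_lit 0, nat_lit 0, nat_lit 0, nat_lit 0, nat_lit 0, [],
 ⟨p101_k25, nat_lit 0, nat_lit 0, nat_lit 197, nat_lit 0, nat_lit 219123, [nat_lit 2032000001, nat_lit 6250000000, nat_lit 11872000000], [], [nat_lit 24199891777, nat_lit 24742176412, nat_lit 25249321380, nat_lit 25698947990, nat_lit 27690672400, nat_lit 28089044570, nat_lit 29328514657, nat_lit 29929028833], nat_lit 1271250, nat_lit 1271250, nat_lit 1066650, nat_lit 1782750, nat_lit 1100001, nat_lit 2196000, [nat_lit 490000, nat_lit 1427500, nat_lit 1271250], [nat_lit 72, nat_lit 40, nat_lit 40, nat_lit 80, nat_lit 12, nat_lit 373, nat_lit 150, nat_lit 9]⟩, ⟨p101_k23, nat_lit 0, nat_lit 0, nat_lit 202, nat_lit 0, nat_lit 230275, [nat_lit 2032000000, nat_lit 6250000000, nat_lit 11872000000], [],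 [nat_lit 23472138313, nat_lit 25054665936, nat_lit 24734523730, nat_lit 26048468283, nat_lit 27836747296, nat_lit 28951308954, nat_lit 28892318875, nat_lit 30578581827], nat_lit 1271250, nat_lit 1271250, nat_lit 1066650, nat_lit 1782750, nat_lit 1100001, nat_lit 2298750, [nat_lit 490000, nat_lit 1427500, nat_lit 1271250], [nat_lit 72, nat_lit 40, nat_lit 40, nat_lit 80, nat_lit 12, nat_lit 373, nat_lit 150, nat_lit 9]⟩,
 zbF0, [⟨nat_lit 0, nat_lit 78, nat_lit 76, nat_lit 100, nat_lit 429838462⟩, ⟨nat_lit 16, nat_lit 83, nat_lit 98, nat_lit 100, nat_lit 418385333⟩, ⟨nat_lit 19, nat_lit 87, nat_lit 95, nat_lit 100, nat_lit 412191362⟩]⟩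
noncomputable def p101_l131 : Lf2 := ⟨nat_lit 0, nat_lit 30, [nat_lit 15, nat_lit 5, nat_lit 5, nat_lit 20], false, nat_lit 160, nat_lit 284, nat_lit 160, nat_lit 300, ⟨nat_lit 1000, nat_lit 0, nat_lit 0, nat_lit 0, nat_lit 0, nat_lit 0, nat_lit 0, nat_lit 0, nat_lit 0, nat_lit 0, nat_lit 0, nat_lit 0, nat_lit 0, nat_lit 0, nat_lit 0, nat_lit 0, false, false⟩,
 nat_lit 15330, nat_lit 0, nat_lit 0, nat_lit 0, nat_lit 12179, nat_lit 11497, nat_lit 378, nat_lit 0, nat_lit 0, nat_lit 424, nat_lit 0, nat_lit 0, nat_lit 0, nat_lit 0, nat_lit 0, nat_lit 0, nat_lit 0, nat_lit 0, [],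
 ⟨p101_k28, nat_lit 0, nat_lit 0, nat_lit 212, nat_lit 0, nat_lit 258584, [nat_lit 2032000001, nat_lit 6250000000, nat_lit 11872000000], [], [nat_lit 24485425269, nat_lit 25004481032, nat_lit 25565534591, nat_lit 25999770470, nat_lit 27588493251, nat_lit 27974411599, nat_lit 29264605851, nat_lit 29850289123], nat_lit 1271250, nat_lit 1271250, nat_lit 1100001, nat_lit 1785000, nat_lit 1100001, nat_lit 2161750, [nat_lit 490000, nat_lit 1427500, nat_lit 1271250], [nat_lit 72, nat_lit 40, nat_lit 40, nat_lit 80, nat_lit 12, nat_lit 373, nat_lit 150, nat_lit 9]⟩, ⟨p101_k23, nat_lit 0, nat_lit 0, nat_lit 219, nat_lit 0, nat_lit 278421, [nat_lit 2032000000, nat_lit 6250000000, nat_lit 11872000000], [], [nat_lit 23331126140, nat_lit 25324971776, nat_lit 24696202336, nat_lit 26367645210, nat_lit 27584033170, nat_lit 28989205976, nat_lit 28465672125, nat_lit 30604276991], nat_lit 1271250, nat_lit 1271250, nat_lit 1100001,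 nat_lit 1785000, nat_lit 1100001, nat_lit 2298750, [nat_lit 490000, nat_lit 1427500, nat_lit 1271250], [nat_lit 72, nat_lit 40, nat_lit 40, nat_lit 80, nat_lit 12, nat_lit 373, nat_lit 150, nat_lit 9]⟩,
 zbF0, [⟨nat_lit 0, nat_lit 76, nat_lit 73, nat_lit 100, nat_lit 425938606⟩, ⟨nat_lit 16, nat_lit 81, nat_lit 100, nat_lit 100, nat_lit 414020387⟩, ⟨nat_lit 19, nat_lit 87, nat_lit 95, nat_lit 100, nat_lit 402863215⟩]⟩
noncomputable def p101_l132 : Lf2 := ⟨nat_lit 0, nat_lit 30, [nat_lit 15, nat_lit 5, nat_lit 5, nat_lit 20], false, nat_lit 160, nat_lit 276, nat_lit 160, nat_lit 300, ⟨nat_lit 1000, nat_lit 0, nat_lit 0, nat_lit 0, nat_lit 0, nat_lit 0, nat_lit 0, nat_lit 0, nat_lit 0, nat_lit 0, nat_lit 0, nat_lit 0, nat_lit 0, nat_lit 0, nat_lit 0, nat_lit 0, false, false⟩,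
 nat_lit 13913, nat_lit 0, nat_lit 0, nat_lit 0, nat_lit 11262, nat_lit 10434, nat_lit 73, nat_lit 0, nat_lit 0, nat_lit 441, nat_lit 0, nat_lit 0, nat_lit 0, nat_lit 0, nat_lit 0, nat_lit 0, nat_lit 0, nat_lit 0, [],
 ⟨p101_k24, nat_lit 0, nat_lit 0, nat_lit 207, nat_lit 0, nat_lit 342596, [nat_lit 2032000001, nat_lit 4688000000, nat_lit 9842000000], [], [nat_lit 25532275529, nat_lit 27722780747, nat_lit 27067832397, nat_lit 28934927617, nat_lit 28908563904, nat_lit 30573571168, nat_lit 29504516699, nat_lit 31018477983], nat_lit 1271250, nat_lit 1271250, nat_lit 1167600, nat_lit 1789500, nat_lit 1100001, nat_lit 2093250, [nat_lit 490000, nat_lit 1100000, nat_lit 2127500], [nat_lit 27, nat_lit 40, nat_lit 40, nat_lit 80, nat_lit 13, nat_lit 373, nat_lit 150, nat_lit 10]⟩, ⟨p101_k21, nat_lit 0, nat_lit 0, nat_lit 239, nat_lit 0, nat_lit 377809, [nat_lit 2032000000, nat_lit 4688000000, nat_lit 11872000000], [], [nat_lit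 24230337556, nat_lit 26067197465, nat_lit 25568134267, nat_lit 27137484495, nat_lit 28298465812, nat_lit 29602599824, nat_lit 28601668153, nat_lit 29923865041], nat_lit 1271250, nat_lit 1271250, nat_lit 1271250, nat_lit 1271250, nat_lit 1100001, nat_lit 2298750, [nat_lit 490000, nat_lit 1100000, nat_lit 2470000], [nat_lit 75, nat_lit 40, nat_lit 40, nat_lit 80, nat_lit 65, nat_lit 373, nat_lit 150, nat_lit 9]⟩,
 zbF0, [⟨nat_lit 0, nat_lit 76, nat_lit 66, nat_lit 100, nat_lit 799038930⟩, ⟨nat_lit 4, nat_lit 100, nat_lit 67, nat_lit 88, nat_lit 514892163⟩, ⟨nat_lit 19, nat_lit 87, nat_lit 95, nat_lit 100, nat_lit 366873538⟩]⟩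
noncomputable def p101_l133 : Lf2 := ⟨nat_lit 0, nat_lit 30, [nat_lit 15, nat_lit 5, nat_lit 5, nat_lit 20], false, nat_lit 0, nat_lit 300, nat_lit 160, nat_lit 300, ⟨nat_lit 1000, nat_lit 0, nat_lit 0, nat_lit 0, nat_lit 0, nat_lit 0, nat_lit 0, nat_lit 0, nat_lit 0, nat_lit 0, nat_lit 0, nat_lit 0, nat_lit 0, nat_lit 0, nat_lit 0, nat_lit 0, false, false⟩,
 nat_lit 11142, nat_lit 0, nat_lit 0, nat_lit 1674, nat_lit 7713, nat_lit 8356, nat_lit 401, nat_lit 0, nat_lit 0, nat_lit 398, nat_lit 0, nat_lit 0, nat_lit 0, nat_lit 0, nat_lit 0, nat_lit 0, nat_lit 0, nat_lit 0, [],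
 ⟨p101_k23, nat_lit 0, nat_lit 0, nat_lit 372, nat_lit 0, nat_lit 278421, [nat_lit 2032000001, nat_lit 6250000000, nat_lit 11872000000], [], [nat_lit 34573551465, nat_lit 35518616037, nat_lit 42982112381, nat_lit 44412227112, nat_lit 30791397471, nat_lit 31359957985, nat_lit 36230642434, nat_lit 37215217237], nat_lit 1271250, nat_lit 1271250, nat_lit 1271250, nat_lit 1271250, nat_lit 0, nat_lit 2118750, [nat_lit 490000, nat_lit 1427500, nat_lit 1271250], [nat_lit 72, nat_lit 40, nat_lit 40, nat_lit 80, nat_lit 12, nat_lit 401, nat_lit 175, nat_lit 10]⟩, ⟨p101_k23, nat_lit 0, nat_lit 0, nat_lit 236, nat_lit 0, nat_lit 278421, [nat_lit 2032000000, nat_lit 6250000000, nat_lit 11872000000], [], [nat_lit 27090069606, nat_lit 28347234830, nat_lit 35012335798, nat_lit 35835334726, nat_lit 30048441402, nat_lit 31037154340, nat_lit 36983092608, nat_lit 38005310238], nat_lit 1271250, nat_lit 1271250, nat_lit 1271250, nat_lit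 1271250, nat_lit 1100001, nat_lit 2298750, [nat_lit 490000, nat_lit 1427500, nat_lit 1271250], [nat_lit 72, nat_lit 40, nat_lit 40, nat_lit 80, nat_lit 12, nat_lit 401, nat_lit 175, nat_lit 9]⟩,
 zbF0, [⟨nat_lit 4, nat_lit 100, nat_lit 81, nat_lit 92, nat_lit 81404231⟩, ⟨nat_lit 7, nat_lit 100, nat_lit 81, nat_lit 92, nat_lit 398938435⟩]⟩
noncomputable def p101_l134 : Lf2 := ⟨nat_lit 0, nat_lit 30, [nat_lit 15, nat_lit 5, nat_lit 5, nat_lit 20], false, nat_lit 0, nat_lit 276, nat_lit 160, nat_lit 300, ⟨nat_lit 1000, nat_lit 0, nat_lit 0, nat_lit 0, nat_lit 0, nat_lit 0, nat_lit 0, nat_lit 0, nat_lit 0, nat_lit 0, nat_lit 0, nat_lit 0, nat_lit 0, nat_lit 0, nat_lit 0, nat_lit 0, false, false⟩,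
 nat_lit 10070, nat_lit 0, nat_lit 0, nat_lit 0, nat_lit 7222, nat_lit 7552, nat_lit 232, nat_lit 0, nat_lit 0, nat_lit 495, nat_lit 0, nat_lit 0, nat_lit 0, nat_lit 0, nat_lit 0, nat_lit 0, nat_lit 0, nat_lit 0, [],
 ⟨p101_k26, nat_lit 0, nat_lit 0, nat_lit 356, nat_lit 0, nat_lit 342596, [nat_lit 2032000001, nat_lit 6250000000, nat_lit 9842000000], [], [nat_lit 34026152008, nat_lit 35150961680, nat_lit 42980459328, nat_lit 44481596824, nat_lit 30615594089, nat_lit 31281782126, nat_lit 36257357988, nat_lit 36933135998], nat_lit 1271250, nat_lit 1271250, nat_lit 1271250, nat_lit 1271250, nat_lit 0, nat_lit 1949250, [nat_lit 490000, nat_lit 1427500, nat_lit 1271250], [nat_lit 61, nat_lit 40, nat_lit 40, nat_lit 80, nat_lit 1, nat_lit 401, nat_lit 175, nat_lit 11]⟩, ⟨p101_k23, nat_lit 0, nat_lit 0, nat_lit 285, nat_lit 0, nat_lit 377809, [nat_lit 2032000000, nat_lit 6250000000, nat_lit 11872000000], [], [nat_lit 27103486427,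 nat_lit 28111265595, nat_lit 33731045691, nat_lit 34737622704, nat_lit 29308098787, nat_lit 30096965655, nat_lit 36042237336, nat_lit 37017386796], nat_lit 1271250, nat_lit 1271250, nat_lit 1271250, nat_lit 1271250, nat_lit 1100001, nat_lit 2298750, [nat_lit 490000, nat_lit 1427500, nat_lit 1271250], [nat_lit 72, nat_lit 40, nat_lit 40, nat_lit 80, nat_lit 12, nat_lit 401, nat_lit 175, nat_lit 9]⟩,
 zbF0, [⟨nat_lit 16, nat_lit 67, nat_lit 100, nat_lit 88, nat_lit 64319699⟩, ⟨nat_lit 19, nat_lit 87, nat_lit 95, nat_lit 100, nat_lit 99091744⟩, ⟨nat_lit 7, nat_lit 100, nat_lit 81, nat_lit 92, nat_lit 274232691⟩]⟩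
noncomputable def b_V_800_800_20_24 : St := ⟨true, nat_lit 1, nat_lit 2, nat_lit 1, nat_lit 120, nat_lit 320, nat_lit 360, nat_lit 320, nat_lit 340, nat_lit 140, nat_lit 400, nat_lit 80, nat_lit 120, nat_lit 0, nat_lit 300, nat_lit 0, nat_lit 300, nat_lit 80, nat_lit 120, nat_lit 0, nat_lit 0, nat_lit 0, nat_lit 0⟩
theorem d_V_800_800_20_24 (h : EB TB.env) : Dead b_V_800_800_20_24 := chkB_sound0 h (T :=
(.st (nat_lit 1)
(.spl (nat_lit 5) (nat_lit 160)
(.spl (nat_lit 4) (nat_lit 160)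
(.spl (nat_lit 2) (nat_lit 240)
(.leaf p101_l116)
(.leaf p101_l117))
(.spl (nat_lit 2) (nat_lit 240)
(.leaf p101_l118)
(.leaf p101_l119)))
(.spl (nat_lit 2) (nat_lit 240)
(.spl (nat_lit 0) (nat_lit 340)
(.leaf p101_l120)
(.trZ (nat_lit 0) (nat_lit 81) (nat_lit 72) (nat_lit 100) (nat_lit 168) (.trX (nat_lit 16) (nat_lit 77) (nat_lit 100) (nat_lit 99) (nat_lit 276) (.leaf p101_l121))))
(.spl (nat_lit 0) (nat_lit 340)
(.leaf p101_l122)
(.trX (nat_lit 16) (nat_lit 77) (nat_lit 100) (nat_lit 99) (nat_lit 276) (.leaf p101_l123)))))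
(.spl (nat_lit 5) (nat_lit 160)
(.spl (nat_lit 2) (nat_lit 240)
(.spl (nat_lit 2) (nat_lit 200)
(.leaf p101_l124)
(.leaf p101_l125))
(.leaf p101_l126))
(.spl (nat_lit 2) (nat_lit 240)
(.spl (nat_lit 4) (nat_lit 160)
(.leaf p101_l127)
(.spl (nat_lit 0) (nat_lit 340)
(.spl (nat_lit 0) (nat_lit 330)
(.ord (.spl (nat_lit 0) (nat_lit 325)
(.ord (.leaf p101_l128))
(.trZ (nat_lit 0) (nat_lit 83) (nat_lit 81) (nat_lit 100) (nat_lit 148) (.trX (nat_lit 16) (nat_lit 85) (nat_lit 97) (nat_lit 100) (nat_lit 296) (.leaf p101_l129)))))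
(.trZ (nat_lit 0) (nat_lit 82) (nat_lit 78) (nat_lit 100) (nat_lit 156) (.trX (nat_lit 16) (nat_lit 83) (nat_lit 98) (nat_lit 100) (nat_lit 288) (.spl (nat_lit 0) (nat_lit 335)
(.ord (.leaf p101_l130))
(.trZ (nat_lit 0) (nat_lit 81) (nat_lit 75) (nat_lit 100) (nat_lit 160) (.trX (nat_lit 16) (nat_lit 81) (nat_lit 100) (nat_lit 100) (nat_lit 284) (.leaf p101_l131)))))))
(.trZ (nat_lit 0) (nat_lit 81) (nat_lit 72) (nat_lit 100) (nat_lit 168) (.trX (nat_lit 16) (nat_lit 77) (nat_lit 100) (nat_lit 99) (nat_lit 276) (.leaf p101_l132)))))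
(.spl (nat_lit 0) (nat_lit 340)
(.leaf p101_l133)
(.trX (nat_lit 16) (nat_lit 77) (nat_lit 100) (nat_lit 99) (nat_lit 276) (.leaf p101_l134))))))) (by decide +kernel)

end B2
end Pool.Agent.Lib.MP_6947cd_al
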