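import Pool.Agent.Lib.MP_6947cd_al.ZB.Pre

/-!
Problem MP_6947cd_al (Chollet).  Case B, second entry in [2/5, 17/20]: certificates of the tree, part P103 (generated).
-/

set_option autoImplicit false
set_option linter.all false

namespace Pool.Agent.Lib.MP_6947cd_al
namespace B2

open Ent Fr B1 PkA

noncomputable def p103_k0 : C1.Kn := ⟨[nat_lit 20, nat_lit 100], [nat_lit 0, nat_lit 0], [(nat_lit 0, nat_lit 0, nat_lit 0), (nat_lit 0, nat_lit 0, nat_lit 0)], (nat_lit 60, nat_lit 100, nat_lit 80)⟩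
noncomputable def p103_k1 : C1.Kn := ⟨[nat_lit 20, nat_lit 60, nat_lit 100], [nat_lit 0, nat_lit 0, nat_lit 2559], [(nat_lit 0, nat_lit 0, nat_lit 0), (nat_lit 0, nat_lit 0, nat_lit 0), (nat_lit 1000, nat_lit 600, nat_lit 787)], (nat_lit 60, nat_lit 100, nat_lit 80)⟩
noncomputable def p103_k2 : C1.Kn := ⟨[nat_lit 120, nat_lit 160, nat_lit 200], [nat_lit 0, nat_lit 0, nat_lit 3198], [(nat_lit 0, nat_lit 0, nat_lit 0), (nat_lit 0, nat_lit 0, nat_lit 0), (nat_lit 572, nat_lit 1000, nat_lit 714)], (nat_lit 0, nat_lit 0, nat_lit 0)⟩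
noncomputable def p103_k3 : C1.Kn := ⟨[nat_lit 20, nat_lit 60, nat_lit 100], [nat_lit 0, nat_lit 0, nat_lit 2559], [(nat_lit 0, nat_lit 0, nat_lit 0), (nat_lit 0, nat_lit 0, nat_lit 0), (nat_lit 1000, nat_lit 600, nat_lit 787)], (nat_lit 61, nat_lit 100, nat_lit 72)⟩
noncomputable def p103_k4 : C1.Kn := ⟨[nat_lit 20, nat_lit 60, nat_lit 100], [nat_lit 0, nat_lit 698, nat_lit 3028], [(nat_lit 0, nat_lit 0, nat_lit 0), (nat_lit 1000, nat_lit 782, nat_lit 272), (nat_lit 1000, nat_lit 527, nat_lit 841)], (nat_lit 53, nat_lit 100, nat_lit 80)⟩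
noncomputable def p103_k5 : C1.Kn := ⟨[nat_lit 20, nat_lit 100], [nat_lit 0, nat_lit 2826], [(nat_lit 0, nat_lit 0, nat_lit 0), (nat_lit 1000, nat_lit 558, nat_lit 551)], (nat_lit 44, nat_lit 100, nat_lit 82)⟩
noncomputable def p103_k6 : C1.Kn := ⟨[nat_lit 20, nat_lit 60, nat_lit 100], [nat_lit 0, nat_lit 1415, nat_lit 3591], [(nat_lit 0, nat_lit 0, nat_lit 0), (nat_lit 1000, nat_lit 558, nat_lit 551), (nat_lit 1000, nat_lit 439, nat_lit 849)], (nat_lit 44, nat_lit 100, nat_lit 82)⟩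
noncomputable def p103_k7 : C1.Kn := ⟨[nat_lit 20, nat_lit 60, nat_lit 80], [nat_lit 0, nat_lit 2136, nat_lit 3185], [(nat_lit 0, nat_lit 0, nat_lit 0), (nat_lit 1000, nat_lit 343, nat_lit 808), (nat_lit 1000, nat_lit 338, nat_lit 820)], (nat_lit 33, nat_lit 100, nat_lit 84)⟩
noncomputable def p103_k8 : C1.Kn := ⟨[nat_lit 120, nat_lit 200], [nat_lit 0, nat_lit 0], [(nat_lit 0, nat_lit 0, nat_lit 0), (nat_lit 0, nat_lit 0, nat_lit 0)], (nat_lit 0, nat_lit 0, nat_lit 0)⟩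
noncomputable def p103_k9 : C1.Kn := ⟨[nat_lit 120, nat_lit 160, nat_lit 200], [nat_lit 0, nat_lit 533, nat_lit 3597], [(nat_lit 0, nat_lit 0, nat_lit 0), (nat_lit 960, nat_lit 1000, nat_lit 200), (nat_lit 612, nat_lit 1000, nat_lit 732)], (nat_lit 0, nat_lit 0, nat_lit 0)⟩
noncomputable def p103_k10 : C1.Kn := ⟨[nat_lit 20, nat_lit 80], [nat_lit 0, nat_lit 3199], [(nat_lit 0, nat_lit 0, nat_lit 0), (nat_lit 1000, nat_lit 333, nat_lit 833)], (nat_lit 33, nat_lit 100, nat_lit 84)⟩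
noncomputable def p103_k11 : C1.Kn := ⟨[nat_lit 20, nat_lit 60, nat_lit 80], [nat_lit 0, nat_lit 0, nat_lit 1613], [(nat_lit 0, nat_lit 0, nat_lit 0), (nat_lit 0, nat_lit 0, nat_lit 0), (nat_lit 1000, nat_lit 614, nat_lit 668)], (nat_lit 63, nat_lit 100, nat_lit 62)⟩
noncomputable def p103_k12 : C1.Kn := ⟨[nat_lit 120, nat_lit 160, nat_lit 180], [nat_lit 0, nat_lit 0, nat_lit 1613], [(nat_lit 0, nat_lit 0, nat_lit 0), (nat_lit 0, nat_lit 0, nat_lit 0), (nat_lit 620, nat_lit 1000, nat_lit 670)], (nat_lit 100, nat_lit 68, nat_lit 61)⟩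
noncomputable def p103_k13 : C1.Kn := ⟨[nat_lit 20, nat_lit 60], [nat_lit 0, nat_lit 1415], [(nat_lit 0, nat_lit 0, nat_lit 0), (nat_lit 1000, nat_lit 558, nat_lit 551)], (nat_lit 49, nat_lit 100, nat_lit 68)⟩
noncomputable def p103_k14 : C1.Kn := ⟨[nat_lit 20, nat_lit 60, nat_lit 80], [nat_lit 0, nat_lit 339, nat_lit 1800], [(nat_lit 0, nat_lit 0, nat_lit 0), (nat_lit 1000, nat_lit 894, nat_lit 132), (nat_lit 1000, nat_lit 578, nat_lit 704)], (nat_lit 60, nat_lit 100, nat_lit 63)⟩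
noncomputable def p103_k15 : C1.Kn := ⟨[nat_lit 20, nat_lit 60, nat_lit 80], [nat_lit 0, nat_lit 698, nat_lit 2008], [(nat_lit 0, nat_lit 0, nat_lit 0), (nat_lit 1000, nat_lit 782, nat_lit 272), (nat_lit 1000, nat_lit 540, nat_lit 733)], (nat_lit 57, nat_lit 100, nat_lit 64)⟩
noncomputable def p103_k16 : C1.Kn := ⟨[nat_lit 20, nat_lit 60], [nat_lit 0, nat_lit 1056], [(nat_lit 0, nat_lit 0, nat_lit 0), (nat_lit 1000, nat_lit 671, nat_lit 411)], (nat_lit 53, nat_lit 100, nat_lit 66)⟩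
noncomputable def p103_k17 : C1.Kn := ⟨[nat_lit 20, nat_lit 60], [nat_lit 0, nat_lit 2136], [(nat_lit 0, nat_lit 0, nat_lit 0), (nat_lit 1000, nat_lit 343, nat_lit 808)], (nat_lit 38, nat_lit 100, nat_lit 73)⟩
noncomputable def p103_k18 : C1.Kn := ⟨[nat_lit 120, nat_lit 160, nat_lit 180], [nat_lit 0, nat_lit 533, nat_lit 2066], [(nat_lit 0, nat_lit 0, nat_lit 0), (nat_lit 960, nat_lit 1000, nat_lit 200), (nat_lit 615, nat_lit 1000, nat_lit 729)], (nat_lit 100, nat_lit 74, nat_lit 60)⟩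
noncomputable def p103_k19 : C1.Kn := ⟨[nat_lit 20, nat_lit 60], [nat_lit 0, nat_lit 1776], [(nat_lit 0, nat_lit 0, nat_lit 0), (nat_lit 1000, nat_lit 445, nat_lit 693)], (nat_lit 44, nat_lit 100, nat_lit 70)⟩
noncomputable def p103_k20 : C1.Kn := ⟨[nat_lit 20, nat_lit 40], [nat_lit 0, nat_lit 1518], [(nat_lit 0, nat_lit 0, nat_lit 0), (nat_lit 1000, nat_lit 282, nat_lit 802)], (nat_lit 29, nat_lit 100, nat_lit 79)⟩
noncomputable def p103_k21 : C1.Kn := ⟨[nat_lit 20, nat_lit 80], [nat_lit 0, nat_lit 0], [(nat_lit 0, nat_lit 0, nat_lit 0), (nat_lit 0, nat_lit 0, nat_lit 0)], (nat_lit 63, nat_lit 100, nat_lit 62)⟩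
noncomputable def p103_k22 : C1.Kn := ⟨[nat_lit 120, nat_lit 180], [nat_lit 0, nat_lit 0], [(nat_lit 0, nat_lit 0, nat_lit 0), (nat_lit 0, nat_lit 0, nat_lit 0)], (nat_lit 100, nat_lit 68, nat_lit 61)⟩
noncomputable def p103_k23 : C1.Kn := ⟨[nat_lit 20, nat_lit 100], [nat_lit 0, nat_lit 1394], [(nat_lit 0, nat_lit 0, nat_lit 0), (nat_lit 1000, nat_lit 782, nat_lit 272)], (nat_lit 53, nat_lit 100, nat_lit 80)⟩
noncomputable def p103_k24 : C1.Kn := ⟨[nat_lit 20, nat_lit 140], [nat_lit 0, nat_lit 0], [(nat_lit 0, nat_lit 0, nat_lit 0), (nat_lit 0, nat_lit 0, nat_lit 0)], (nat_lit 62, nat_lit 100, nat_lit 94)⟩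
noncomputable def p103_k25 : C1.Kn := ⟨[nat_lit 20, nat_lit 120], [nat_lit 0, nat_lit 3531], [(nat_lit 0, nat_lit 0, nat_lit 0), (nat_lit 1000, nat_lit 558, nat_lit 551)], (nat_lit 44, nat_lit 100, nat_lit 92)⟩
noncomputable def p103_k26 : C1.Kn := ⟨[nat_lit 20, nat_lit 80, nat_lit 140], [nat_lit 0, nat_lit 0, nat_lit 4928], [(nat_lit 0, nat_lit 0, nat_lit 0), (nat_lit 0, nat_lit 0, nat_lit 0), (nat_lit 950, nat_lit 618, nat_lit 1000)], (nat_lit 62, nat_lit 100, nat_lit 94)⟩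
noncomputable def p103_k27 : C1.Kn := ⟨[nat_lit 120, nat_lit 180, nat_lit 200], [nat_lit 0, nat_lit 0, nat_lit 4246], [(nat_lit 0, nat_lit 0, nat_lit 0), (nat_lit 0, nat_lit 0, nat_lit 0), (nat_lit 279, nat_lit 1000, nat_lit 906)], (nat_lit 0, nat_lit 0, nat_lit 0)⟩
noncomputable def p103_k28 : C1.Kn := ⟨[nat_lit 20, nat_lit 60, nat_lit 140], [nat_lit 0, nat_lit 0, nat_lit 4874], [(nat_lit 0, nat_lit 0, nat_lit 0), (nat_lit 0, nat_lit 0, nat_lit 0), (nat_lit 1000, nat_lit 619, nat_lit 951)], (nat_lit 62, nat_lit 100, nat_lit 94)⟩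
noncomputable def p103_k29 : C1.Kn := ⟨[nat_lit 20, nat_lit 120], [nat_lit 0, nat_lit 0], [(nat_lit 0, nat_lit 0, nat_lit 0), (nat_lit 0, nat_lit 0, nat_lit 0)], (nat_lit 60, nat_lit 100, nat_lit 87)⟩
noncomputable def p103_k30 : C1.Kn := ⟨[nat_lit 20, nat_lit 60, nat_lit 120], [nat_lit 0, nat_lit 0, nat_lit 3661], [(nat_lit 0, nat_lit 0, nat_lit 0), (nat_lit 0, nat_lit 0, nat_lit 0), (nat_lit 1000, nat_lit 611, nat_lit 913)], (nat_lit 60, nat_lit 100, nat_lit 87)⟩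
noncomputable def p103_k31 : C1.Kn := ⟨[nat_lit 20, nat_lit 80, nat_lit 120], [nat_lit 0, nat_lit 0, nat_lit 3661], [(nat_lit 0, nat_lit 0, nat_lit 0), (nat_lit 0, nat_lit 0, nat_lit 0), (nat_lit 1000, nat_lit 611, nat_lit 913)], (nat_lit 60, nat_lit 100, nat_lit 87)⟩
noncomputable def p103_k32 : C1.Kn := ⟨[nat_lit 20, nat_lit 60, nat_lit 120], [nat_lit 0, nat_lit 1415, nat_lit 4677], [(nat_lit 0, nat_lit 0, nat_lit 0), (nat_lit 1000, nat_lit 558, nat_lit 551), (nat_lit 1000, nat_lit 439, nat_lit 849)], (nat_lit 44, nat_lit 100, nat_lit 92)⟩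
noncomputable def p103_k33 : C1.Kn := ⟨[nat_lit 20, nat_lit 100], [nat_lit 0, nat_lit 4265], [(nat_lit 0, nat_lit 0, nat_lit 0), (nat_lit 1000, nat_lit 333, nat_lit 833)], (nat_lit 31, nat_lit 100, nat_lit 92)⟩
noncomputable def p103_l0 : Lf2 := ⟨nat_lit 0, nat_lit 20, [nat_lit 5, nat_lit 5, nat_lit 5, nat_lit 20], true, nat_lit 0, nat_lit 80, nat_lit 0, nat_lit 384, ⟨nat_lit 0, nat_lit 74, nat_lit 926, nat_lit 4, nat_lit 134, nat_lit 1000, nat_lit 33, nat_lit 926, nat_lit 10417, nat_lit 240, nat_lit 170017, nat_lit 316, nat_lit 60211276, nat_lit 6788724, nat_lit 0, nat_lit 1639911, false, false⟩,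
 nat_lit 0, nat_lit 3003, nat_lit 0, nat_lit 0, nat_lit 2615, nat_lit 0, nat_lit 0, nat_lit 0, nat_lit 0, nat_lit 0, nat_lit 0, nat_lit 0, nat_lit 0, nat_lit 0, nat_lit 79, nat_lit 250000, nat_lit 0, nat_lit 0, [(nat_lit 25, [(nat_lit 0, nat_lit 74), (nat_lit 4, nat_lit 926)])],
 ⟨p103_k0, nat_lit 0, nat_lit 0, nat_lit 331, nat_lit 0, nat_lit 392078, [nat_lit 1178378240, nat_lit 153527296], [], [nat_lit 19969283741, nat_lit 21579659019, nat_lit 21325406436, nat_lit 22488244620, nat_lit 19863069380, nat_lit 21088931457, nat_lit 21231785436, nat_lit 22323078190], nat_lit 1271250, nat_lit 1271250, nat_lit 279600, nat_lit 1100001, nat_lit 0, nat_lit 490000, [nat_lit 230000, nat_lit 1420000], [nat_lit 88, nat_lit 40, nat_lit 40, nat_lit 80, nat_lit 89, nat_lit 272, nat_lit 60, nat_lit 10]⟩, C1.Rw.none,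
 ⟨nat_lit 2236, nat_lit 3163, ⟨.ofNat (nat_lit 223799), .ofNat (nat_lit 394735), .ofNat (nat_lit 267982), .ofNat (nat_lit 438942), .ofNat (nat_lit 237524), .ofNat (nat_lit 397434), .ofNat (nat_lit 282946), .ofNat (nat_lit 442880)⟩, ⟨.ofNat (nat_lit 0), .ofNat (nat_lit 139899), .ofNat (nat_lit 0), .ofNat (nat_lit 184209), .ofNat (nat_lit 0), .ofNat (nat_lit 146758), .ofNat (nat_lit 0), .ofNat (nat_lit 192306)⟩⟩, [⟨nat_lit 3, nat_lit 100, nat_lit 74, nat_lit 33, nat_lit 75127479⟩]⟩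
noncomputable def p103_l1 : Lf2 := ⟨nat_lit 0, nat_lit 20, [nat_lit 5, nat_lit 5, nat_lit 5, nat_lit 20], true, nat_lit 0, nat_lit 80, nat_lit 0, nat_lit 384, ⟨nat_lit 0, nat_lit 243, nat_lit 757, nat_lit 4, nat_lit 191, nat_lit 1000, nat_lit 33, nat_lit 757, nat_lit 10417, nat_lit 240, nat_lit 2400, nat_lit 227, nat_lit 54559638, nat_lit 12440362, nat_lit 0, nat_lit 2399466, false, true⟩,
 nat_lit 0, nat_lit 2868, nat_lit 0, nat_lit 0, nat_lit 2497, nat_lit 0, nat_lit 0, nat_lit 0, nat_lit 0, nat_lit 0, nat_lit 0, nat_lit 0, nat_lit 0, nat_lit 0, nat_lit 45, nat_lit 250000, nat_lit 0, nat_lit 0, [(nat_lit 25, [(nat_lit 0, nat_lit 243), (nat_lit 4, nat_lit 757)])],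
 ⟨p103_k1, nat_lit 0, nat_lit 0, nat_lit 293, nat_lit 0, nat_lit 392078, [nat_lit 916748000, nat_lit 598685334, nat_lit 38765066], [], [nat_lit 20347119602, nat_lit 21543662634, nat_lit 22509846882, nat_lit 23582966080, nat_lit 20189055838, nat_lit 21311662016, nat_lit 22266601690, nat_lit 23325322354], nat_lit 1271250, nat_lit 1271250, nat_lit 1100001, nat_lit 1785000, nat_lit 0, nat_lit 490000, [nat_lit 230000, nat_lit 780000, nat_lit 1435000], [nat_lit 20, nat_lit 40, nat_lit 40, nat_lit 80, nat_lit 16, nat_lit 317, nat_lit 100, nat_lit 12]⟩, C1.Rw.none,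
 ⟨nat_lit 2236, nat_lit 3163, ⟨.ofNat (nat_lit 394735), .ofNat (nat_lit 516642), .ofNat (nat_lit 438942), .ofNat (nat_lit 560952), .ofNat (nat_lit 397434), .ofNat (nat_lit 511466), .ofNat (nat_lit 442880), .ofNat (nat_lit 557014)⟩, ⟨.ofNat (nat_lit 0), .ofNat (nat_lit 139899), .ofNat (nat_lit 0), .ofNat (nat_lit 184209), .ofNat (nat_lit 0), .ofNat (nat_lit 146758), .ofNat (nat_lit 0), .ofNat (nat_lit 192306)⟩⟩, [⟨nat_lit 3, nat_lit 100, nat_lit 74, nat_lit 33, nat_lit 62826459⟩]⟩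
noncomputable def p103_l2 : Lf2 := ⟨nat_lit 0, nat_lit 20, [nat_lit 5, nat_lit 5, nat_lit 5, nat_lit 20], false, nat_lit 0, nat_lit 80, nat_lit 0, nat_lit 336, ⟨nat_lit 328, nat_lit 0, nat_lit 672, nat_lit 6, nat_lit 238, nat_lit 672, nat_lit 33, nat_lit 672, nat_lit 10417, nat_lit 240, nat_lit 94468, nat_lit 200, nat_lit 49460226, nat_lit 0, nat_lit 0, nat_lit 2874591, false, true⟩,
 nat_lit 0, nat_lit 3114, nat_lit 0, nat_lit 0, nat_lit 2712, nat_lit 4117, nat_lit 0, nat_lit 0, nat_lit 0, nat_lit 319, nat_lit 0, nat_lit 0, nat_lit 0, nat_lit 0, nat_lit 0, nat_lit 246600, nat_lit 0, nat_lit 0, [(nat_lit 25, [(nat_lit 4, nat_lit 148), (nat_lit 5, nat_lit 524)])],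
 ⟨p103_k1, nat_lit 0, nat_lit 0, nat_lit 297, nat_lit 0, nat_lit 392078, [nat_lit 796041601, nat_lit 648454401, nat_lit 179868800], [], [nat_lit 24270293796, nat_lit 25142187252, nat_lit 26646595492, nat_lit 27569379536, nat_lit 23869779556, nat_lit 24692443204, nat_lit 26088781540, nat_lit 26862476484], nat_lit 1271250, nat_lit 1271250, nat_lit 1271250, nat_lit 1271250, nat_lit 0, nat_lit 490000, [nat_lit 230000, nat_lit 780000, nat_lit 1435000], [nat_lit 20, nat_lit 40, nat_lit 40, nat_lit 80, nat_lit 16, nat_lit 226, nat_lit 20, nat_lit 8]⟩, ⟨p103_k2, nat_lit 0, nat_lit 0, nat_lit 409, nat_lit 0, nat_lit 0, [nat_lit 2613504000, nat_lit 3894016000, nat_lit 5379200000], [], [nat_lit 14671691816, nat_lit 14340526038, nat_lit 15357462506, nat_lit 15057921490, nat_lit 11017643618, nat_lit 10783276628, nat_lit 11750226778, nat_lit 11420999900], nat_lit 0, nat_lit 0, nat_lit 0, nat_lit 0, nat_lit 0, nat_lit 0,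 [], [nat_lit 97, nat_lit 40, nat_lit 40, nat_lit 80, nat_lit 76, nat_lit 456, nat_lit 225, nat_lit 10]⟩,
 ⟨nat_lit 2236, nat_lit 3163, ⟨.ofNat (nat_lit 516642), .ofNat (nat_lit 638549), .ofNat (nat_lit 560952), .ofNat (nat_lit 682859), .ofNat (nat_lit 511466), .ofNat (nat_lit 625497), .ofNat (nat_lit 557014), .ofNat (nat_lit 671045)⟩, ⟨.ofNat (nat_lit 0), .ofNat (nat_lit 139899), .ofNat (nat_lit 0), .ofNat (nat_lit 184209), .ofNat (nat_lit 0), .ofNat (nat_lit 146758), .ofNat (nat_lit 0), .ofNat (nat_lit 192306)⟩⟩, [⟨nat_lit 13, nat_lit 53, nat_lit 90, nat_lit 100, nat_lit 105899017⟩, ⟨nat_lit 13, nat_lit 44, nat_lit 99, nat_lit 100, nat_lit 16589118⟩, ⟨nat_lit 22, nat_lit 93, nat_lit 100, nat_lit 25, nat_lit 14616512⟩, ⟨nat_lit 22, nat_lit 94, nat_lit 100, nat_lit 62, nat_lit 8059687⟩]⟩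
noncomputable def p103_l3 : Lf2 := ⟨nat_lit 0, nat_lit 20, [nat_lit 5, nat_lit 5, nat_lit 5, nat_lit 20], true, nat_lit 80, nat_lit 200, nat_lit 0, nat_lit 384, ⟨nat_lit 0, nat_lit 0, nat_lit 1000, nat_lit 4, nat_lit 134, nat_lit 1000, nat_lit 102, nat_lit 1000, nat_lit 96267, nat_lit 291, nat_lit 170017, nat_lit 316, nat_lit 55173416, nat_lit 0, nat_lit 0, nat_lit 3106134, false, false⟩,
 nat_lit 0, nat_lit 3232, nat_lit 0, nat_lit 0, nat_lit 2814, nat_lit 0, nat_lit 0, nat_lit 0, nat_lit 0, nat_lit 0, nat_lit 0, nat_lit 0, nat_lit 0, nat_lit 0, nat_lit 72, nat_lit 250000, nat_lit 0, nat_lit 0, [(nat_lit 25, [(nat_lit 0, nat_lit 109), (nat_lit 4, nat_lit 891)])],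
 ⟨p103_k0, nat_lit 0, nat_lit 0, nat_lit 276, nat_lit 0, nat_lit 392078, [nat_lit 1146659840, nat_lit 143079936], [], [nat_lit 18343842829, nat_lit 19861832803, nat_lit 19588706840, nat_lit 20784414188, nat_lit 20590513321, nat_lit 21931198852, nat_lit 21763712620, nat_lit 22989126342], nat_lit 1271250, nat_lit 1271250, nat_lit 279600, nat_lit 1100001, nat_lit 490000, nat_lit 1427500, [nat_lit 230000, nat_lit 1420000], [nat_lit 88, nat_lit 40, nat_lit 40, nat_lit 80, nat_lit 89, nat_lit 317, nat_lit 100, nat_lit 12]⟩, C1.Rw.none,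
 ⟨nat_lit 2236, nat_lit 3163, ⟨.ofNat (nat_lit 223799), .ofNat (nat_lit 394735), .ofNat (nat_lit 267982), .ofNat (nat_lit 438942), .ofNat (nat_lit 237524), .ofNat (nat_lit 397434), .ofNat (nat_lit 282946), .ofNat (nat_lit 442880)⟩, ⟨.ofNat (nat_lit 139899), .ofNat (nat_lit 322759), .ofNat (nat_lit 184209), .ofNat (nat_lit 367069), .ofNat (nat_lit 146758), .ofNat (nat_lit 317804), .ofNat (nat_lit 192306), .ofNat (nat_lit 363353)⟩⟩, [⟨nat_lit 4, nat_lit 100, nat_lit 54, nat_lit 73, nat_lit 241013455⟩]⟩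
noncomputable def p103_l4 : Lf2 := ⟨nat_lit 0, nat_lit 15, [nat_lit 30, nat_lit 5, nat_lit 5, nat_lit 20], true, nat_lit 80, nat_lit 176, nat_lit 0, nat_lit 368, ⟨nat_lit 0, nat_lit 363, nat_lit 637, nat_lit 4, nat_lit 215, nat_lit 1000, nat_lit 90, nat_lit 637, nat_lit 77067, nat_lit 283, nat_lit 94468, nat_lit 200, nat_lit 48487663, nat_lit 14696340, nat_lit 3815997, nat_lit 3860031, false, true⟩,
 nat_lit 0, nat_lit 2956, nat_lit 0, nat_lit 0, nat_lit 2574, nat_lit 0, nat_lit 0, nat_lit 0, nat_lit 0, nat_lit 0, nat_lit 0, nat_lit 0, nat_lit 0, nat_lit 0, nat_lit 21, nat_lit 250000, nat_lit 0, nat_lit 0, [(nat_lit 25, [(nat_lit 0, nat_lit 363), (nat_lit 4, nat_lit 637)])],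
 ⟨p103_k3, nat_lit 0, nat_lit 0, nat_lit 204, nat_lit 0, nat_lit 293105, [nat_lit 825068000, nat_lit 518365334, nat_lit 22221066], [], [nat_lit 19963048068, nat_lit 21011283516, nat_lit 24627841890, nat_lit 25568624992, nat_lit 21202083875, nat_lit 22229678955, nat_lit 25662548892, nat_lit 26620507149], nat_lit 1271250, nat_lit 1271250, nat_lit 1100001, nat_lit 2470000, nat_lit 490000, nat_lit 1236400, [nat_lit 230000, nat_lit 780000, nat_lit 1435000], [nat_lit 20, nat_lit 40, nat_lit 40, nat_lit 80, nat_lit 16, nat_lit 345, nat_lit 125, nat_lit 12]⟩, C1.Rw.none,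
 ⟨nat_lit 2236, nat_lit 3163, ⟨.ofNat (nat_lit 394735), .ofNat (nat_lit 638549), .ofNat (nat_lit 438942), .ofNat (nat_lit 682859), .ofNat (nat_lit 397434), .ofNat (nat_lit 625497), .ofNat (nat_lit 442880), .ofNat (nat_lit 671045)⟩, ⟨.ofNat (nat_lit 139899), .ofNat (nat_lit 286187), .ofNat (nat_lit 162054), .ofNat (nat_lit 308342), .ofNat (nat_lit 146758), .ofNat (nat_lit 283595), .ofNat (nat_lit 169532), .ofNat (nat_lit 306369)⟩⟩, [⟨nat_lit 13, nat_lit 53, nat_lit 90, nat_lit 100, nat_lit 271833152⟩, ⟨nat_lit 4, nat_lit 100, nat_lit 55, nat_lit 69, nat_lit 154433408⟩]⟩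
noncomputable def p103_l5 : Lf2 := ⟨nat_lit 0, nat_lit 20, [nat_lit 5, nat_lit 5, nat_lit 5, nat_lit 20], true, nat_lit 80, nat_lit 200, nat_lit 0, nat_lit 384, ⟨nat_lit 0, nat_lit 451, nat_lit 549, nat_lit 4, nat_lit 215, nat_lit 1000, nat_lit 106, nat_lit 549, nat_lit 106667, nat_lit 295, nat_lit 94468, nat_lit 200, nat_lit 47513849, nat_lit 14632370, nat_lit 4853781, nat_lit 4071830, false, true⟩,
 nat_lit 0, nat_lit 3013, nat_lit 0, nat_lit 0, nat_lit 2624, nat_lit 0, nat_lit 0, nat_lit 0, nat_lit 0, nat_lit 0, nat_lit 0, nat_lit 0, nat_lit 0, nat_lit 0, nat_lit 4, nat_lit 250000, nat_lit 0, nat_lit 0, [(nat_lit 25, [(nat_lit 0, nat_lit 451), (nat_lit 4, nat_lit 549)])],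
 ⟨p103_k1, nat_lit 0, nat_lit 0, nat_lit 140, nat_lit 0, nat_lit 151788, [nat_lit 760236001, nat_lit 466664001, nat_lit 22088799], [], [nat_lit 19487192673, nat_lit 20074981681, nat_lit 24528017985, nat_lit 25034812120, nat_lit 21456245889, nat_lit 22002533629, nat_lit 25887755937, nat_lit 26332724233], nat_lit 1271250, nat_lit 1271250, nat_lit 1100001, nat_lit 2470000, nat_lit 490000, nat_lit 1427500, [nat_lit 230000, nat_lit 780000, nat_lit 1435000], [nat_lit 20, nat_lit 40, nat_lit 40, nat_lit 80, nat_lit 16, nat_lit 373, nat_lit 150, nat_lit 13]⟩, C1.Rw.none,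
 ⟨nat_lit 2738, nat_lit 3163, ⟨.ofNat (nat_lit 394735), .ofNat (nat_lit 638549), .ofNat (nat_lit 439028), .ofNat (nat_lit 682859), .ofNat (nat_lit 396102), .ofNat (nat_lit 632348), .ofNat (nat_lit 440920), .ofNat (nat_lit 677182)⟩, ⟨.ofNat (nat_lit 162054), .ofNat (nat_lit 344914), .ofNat (nat_lit 184209), .ofNat (nat_lit 367069), .ofNat (nat_lit 165893), .ofNat (nat_lit 343077), .ofNat (nat_lit 188310), .ofNat (nat_lit 365494)⟩⟩, [⟨nat_lit 13, nat_lit 57, nat_lit 88, nat_lit 100, nat_lit 230392730⟩, ⟨nat_lit 4, nat_lit 100, nat_lit 57, nat_lit 76, nat_lit 111699464⟩]⟩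
noncomputable def p103_l6 : Lf2 := ⟨nat_lit 0, nat_lit 20, [nat_lit 5, nat_lit 5, nat_lit 5, nat_lit 20], true, nat_lit 80, nat_lit 184, nat_lit 0, nat_lit 384, ⟨nat_lit 0, nat_lit 395, nat_lit 605, nat_lit 4, nat_lit 211, nat_lit 1000, nat_lit 102, nat_lit 605, nat_lit 96267, nat_lit 291, nat_lit 47678, nat_lit 200, nat_lit 48183317, nat_lit 14233825, nat_lit 4582858, nat_lit 3979806, false, true⟩,
 nat_lit 0, nat_lit 2862, nat_lit 0, nat_lit 0, nat_lit 2582, nat_lit 0, nat_lit 0, nat_lit 0, nat_lit 0, nat_lit 0, nat_lit 0, nat_lit 0, nat_lit 0, nat_lit 0, nat_lit 15, nat_lit 250000, nat_lit 0, nat_lit 0, [(nat_lit 25, [(nat_lit 0, nat_lit 395), (nat_lit 4, nat_lit 605)])],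
 ⟨p103_k4, nat_lit 0, nat_lit 0, nat_lit 167, nat_lit 0, nat_lit 239570, [nat_lit 802220000, nat_lit 501746667, nat_lit 25809333], [], [nat_lit 20100946428, nat_lit 20711082489, nat_lit 24542082753, nat_lit 25042826795, nat_lit 21693597351, nat_lit 22235956293, nat_lit 25646082773, nat_lit 26095086155], nat_lit 1271250, nat_lit 1271250, nat_lit 1100001, nat_lit 2367250, nat_lit 490000, nat_lit 1302500, [nat_lit 230000, nat_lit 780000, nat_lit 1435000], [nat_lit 20, nat_lit 40, nat_lit 40, nat_lit 80, nat_lit 16, nat_lit 345, nat_lit 125, nat_lit 12]⟩, C1.Rw.none,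
 ⟨nat_lit 2236, nat_lit 2739, ⟨.ofNat (nat_lit 396102), .ofNat (nat_lit 614629), .ofNat (nat_lit 440903), .ofNat (nat_lit 659464), .ofNat (nat_lit 397434), .ofNat (nat_lit 608392), .ofNat (nat_lit 442949), .ofNat (nat_lit 653941)⟩, ⟨.ofNat (nat_lit 165893), .ofNat (nat_lit 319452), .ofNat (nat_lit 188310), .ofNat (nat_lit 341870), .ofNat (nat_lit 169532), .ofNat (nat_lit 317772), .ofNat (nat_lit 192306), .ofNat (nat_lit 340547)⟩⟩, [⟨nat_lit 13, nat_lit 49, nat_lit 92, nat_lit 100, nat_lit 270438175⟩, ⟨nat_lit 4, nat_lit 100, nat_lit 49, nat_lit 78, nat_lit 130505951⟩]⟩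
noncomputable def p103_l7 : Lf2 := ⟨nat_lit 1, nat_lit 20, [nat_lit 5, nat_lit 5, nat_lit 5, nat_lit 20], false, nat_lit 80, nat_lit 200, nat_lit 0, nat_lit 384, zbN0,
 nat_lit 0, nat_lit 0, nat_lit 0, nat_lit 0, nat_lit 0, nat_lit 0, nat_lit 0, nat_lit 0, nat_lit 0, nat_lit 0, nat_lit 0, nat_lit 0, nat_lit 0, nat_lit 0, nat_lit 0, nat_lit 0, nat_lit 0, nat_lit 0, [],
 C1.Rw.none, C1.Rw.none,
 zbF0, []⟩
noncomputable def p103_l8 : Lf2 := ⟨nat_lit 0, nat_lit 20, [nat_lit 5, nat_lit 5, nat_lit 5, nat_lit 20], true, nat_lit 0, nat_lit 164, nat_lit 0, nat_lit 384, ⟨nat_lit 0, nat_lit 0, nat_lit 1000, nat_lit 4, nat_lit 145, nat_lit 1000, nat_lit 57, nat_lit 1000, nat_lit 30817, nat_lit 258, nat_lit 198017, nat_lit 324, nat_lit 59177757, nat_lit 0, nat_lit 0, nat_lit 1801992, false, false⟩,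
 nat_lit 0, nat_lit 2537, nat_lit 0, nat_lit 0, nat_lit 2370, nat_lit 0, nat_lit 0, nat_lit 0, nat_lit 0, nat_lit 0, nat_lit 0, nat_lit 0, nat_lit 0, nat_lit 0, nat_lit 203, nat_lit 400000, nat_lit 0, nat_lit 0, [(nat_lit 28, [(nat_lit 5, nat_lit 1000)])],
 ⟨p103_k5, nat_lit 0, nat_lit 0, nat_lit 401, nat_lit 0, nat_lit 549722, [nat_lit 1405600001, nat_lit 416400000], [], [nat_lit 20395884469, nat_lit 22238940896, nat_lit 21396310311, nat_lit 22661773651, nat_lit 21583346867, nat_lit 22763610038, nat_lit 22854641072, nat_lit 23925406559], nat_lit 1271250, nat_lit 1271250, nat_lit 462650, nat_lit 1100001, nat_lit 0, nat_lit 1133651, [nat_lit 230000, nat_lit 1420000], [nat_lit 88, nat_lit 40, nat_lit 40, nat_lit 80, nat_lit 89, nat_lit 317, nat_lit 100, nat_lit 12]⟩, C1.Rw.none,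
 ⟨nat_lit 0, nat_lit 2237, ⟨.ofNat (nat_lit 273845), .ofNat (nat_lit 397434), .ofNat (nat_lit 317541), .ofNat (nat_lit 441142), .ofNat (nat_lit 291142), .ofNat (nat_lit 399999), .ofNat (nat_lit 339289), .ofNat (nat_lit 448157)⟩, ⟨.ofNat (nat_lit 0), .ofNat (nat_lit 266484), .ofNat (nat_lit 0), .ofNat (nat_lit 312035), .ofNat (nat_lit 0), .ofNat (nat_lit 254993), .ofNat (nat_lit 0), .ofNat (nat_lit 304995)⟩⟩, [⟨nat_lit 0, nat_lit 100, nat_lit 31, nat_lit 92, nat_lit 287533545⟩, ⟨nat_lit 16, nat_lit 35, nat_lit 100, nat_lit 80, nat_lit 77182580⟩]⟩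
noncomputable def p103_l9 : Lf2 := ⟨nat_lit 0, nat_lit 20, [nat_lit 5, nat_lit 5, nat_lit 5, nat_lit 20], true, nat_lit 0, nat_lit 80, nat_lit 0, nat_lit 384, ⟨nat_lit 0, nat_lit 522, nat_lit 478, nat_lit 4, nat_lit 191, nat_lit 1000, nat_lit 34, nat_lit 478, nat_lit 11267, nat_lit 241, nat_lit 4313, nat_lit 229, nat_lit 54584053, nat_lit 12415947, nat_lit 0, nat_lit 2396770, false, true⟩,
 nat_lit 0, nat_lit 2632, nat_lit 0, nat_lit 0, nat_lit 2459, nat_lit 0, nat_lit 0, nat_lit 0, nat_lit 0, nat_lit 0, nat_lit 0, nat_lit 0, nat_lit 0, nat_lit 0, nat_lit 52, nat_lit 321700, nat_lit 0, nat_lit 0, [(nat_lit 28, [(nat_lit 0, nat_lit 522), (nat_lit 5, nat_lit 478)])],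
 ⟨p103_k6, nat_lit 0, nat_lit 0, nat_lit 320, nat_lit 0, nat_lit 453105, [nat_lit 899736001, nat_lit 343388000, nat_lit 112888000], [], [nat_lit 21641180055, nat_lit 22219725527, nat_lit 23642895633, nat_lit 24237168932, nat_lit 21501823059, nat_lit 22044428753, nat_lit 23476580839, nat_lit 24040308038], nat_lit 1271250, nat_lit 1271250, nat_lit 1100001, nat_lit 1785000, nat_lit 0, nat_lit 490000, [nat_lit 230000, nat_lit 780000, nat_lit 1435000], [nat_lit 20, nat_lit 40, nat_lit 40, nat_lit 80, nat_lit 16, nat_lit 317, nat_lit 100, nat_lit 11]⟩, C1.Rw.none,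
 ⟨nat_lit 1581, nat_lit 2237, ⟨.ofNat (nat_lit 397434), .ofNat (nat_lit 511466), .ofNat (nat_lit 442898), .ofNat (nat_lit 557014), .ofNat (nat_lit 398733), .ofNat (nat_lit 508004), .ofNat (nat_lit 445278), .ofNat (nat_lit 554634)⟩, ⟨.ofNat (nat_lit 0), .ofNat (nat_lit 146758), .ofNat (nat_lit 0), .ofNat (nat_lit 192306), .ofNat (nat_lit 0), .ofNat (nat_lit 149571), .ofNat (nat_lit 0), .ofNat (nat_lit 196201)⟩⟩, [⟨nat_lit 3, nat_lit 100, nat_lit 53, nat_lit 55, nat_lit 40064694⟩]⟩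
noncomputable def p103_l10 : Lf2 := ⟨nat_lit 0, nat_lit 20, [nat_lit 5, nat_lit 5, nat_lit 5, nat_lit 20], true, nat_lit 8, nat_lit 80, nat_lit 0, nat_lit 384, ⟨nat_lit 0, nat_lit 726, nat_lit 274, nat_lit 4, nat_lit 190, nat_lit 1000, nat_lit 39, nat_lit 274, nat_lit 14017, nat_lit 244, nat_lit 4406, nat_lit 230, nat_lit 53544526, nat_lit 12368649, nat_lit 1086825, nat_lit 2877842, false, true⟩,
 nat_lit 0, nat_lit 2702, nat_lit 0, nat_lit 0, nat_lit 2612, nat_lit 0, nat_lit 0, nat_lit 0, nat_lit 0, nat_lit 0, nat_lit 0, nat_lit 0, nat_lit 0, nat_lit 0, nat_lit 0, nat_lit 291100, nat_lit 0, nat_lit 0, [(nat_lit 28, [(nat_lit 0, nat_lit 726), (nat_lit 5, nat_lit 274)])],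
 ⟨p103_k7, nat_lit 0, nat_lit 0, nat_lit 293, nat_lit 0, nat_lit 525817, [nat_lit 730088001, nat_lit 274306401, nat_lit 184797599], [], [nat_lit 22507453263, nat_lit 23129090907, nat_lit 24596089670, nat_lit 25192351207, nat_lit 22423157286, nat_lit 23007810794, nat_lit 24432191318, nat_lit 24959971754], nat_lit 1271250, nat_lit 1271250, nat_lit 1100001, nat_lit 1785000, nat_lit 43600, nat_lit 490000, [nat_lit 230000, nat_lit 780000, nat_lit 1100000], [nat_lit 35, nat_lit 40, nat_lit 40, nat_lit 80, nat_lit 22, nat_lit 226, nat_lit 20, nat_lit 9]⟩, C1.Rw.none,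
 ⟨nat_lit 0, nat_lit 1582, ⟨.ofNat (nat_lit 398733), .ofNat (nat_lit 508001), .ofNat (nat_lit 444052), .ofNat (nat_lit 554633), .ofNat (nat_lit 399999), .ofNat (nat_lit 499996), .ofNat (nat_lit 448688), .ofNat (nat_lit 549998)⟩, ⟨.ofNat (nat_lit 20000), .ofNat (nat_lit 149570), .ofNat (nat_lit 20000), .ofNat (nat_lit 196201), .ofNat (nat_lit 20000), .ofNat (nat_lit 149998), .ofNat (nat_lit 20000), .ofNat (nat_lit 199999)⟩⟩, [⟨nat_lit 13, nat_lit 22, nat_lit 100, nat_lit 100, nat_lit 350746491⟩, ⟨nat_lit 3, nat_lit 100, nat_lit 31, nat_lit 76, nat_lit 204414568⟩]⟩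
noncomputable def p103_l11 : Lf2 := ⟨nat_lit 0, nat_lit 20, [nat_lit 5, nat_lit 5, nat_lit 5, nat_lit 20], false, nat_lit 0, nat_lit 80, nat_lit 0, nat_lit 336, ⟨nat_lit 425, nat_lit 0, nat_lit 575, nat_lit 6, nat_lit 225, nat_lit 575, nat_lit 34, nat_lit 575, nat_lit 11267, nat_lit 241, nat_lit 4626, nat_lit 204, nat_lit 50930052, nat_lit 0, nat_lit 0, nat_lit 2754533, false, true⟩,
 nat_lit 0, nat_lit 3124, nat_lit 0, nat_lit 0, nat_lit 2919, nat_lit 6254, nat_lit 0, nat_lit 0, nat_lit 0, nat_lit 484, nat_lit 0, nat_lit 0, nat_lit 0, nat_lit 0, nat_lit 0, nat_lit 230000, nat_lit 0, nat_lit 0, [(nat_lit 28, [(nat_lit 5, nat_lit 575)])],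
 ⟨p103_k6, nat_lit 0, nat_lit 0, nat_lit 345, nat_lit 0, nat_lit 549722, [nat_lit 739970001, nat_lit 376870001, nat_lit 561180000], [], [nat_lit 24640323980, nat_lit 26123872848, nat_lit 26572568261, nat_lit 28013566836, nat_lit 24218454154, nat_lit 25225581148, nat_lit 25686328980, nat_lit 26613787395], nat_lit 1271250, nat_lit 1271250, nat_lit 1271250, nat_lit 1271250, nat_lit 0, nat_lit 490000, [nat_lit 230000, nat_lit 780000, nat_lit 1435000], [nat_lit 20, nat_lit 40, nat_lit 40, nat_lit 80, nat_lit 16, nat_lit 226, nat_lit 20, nat_lit 7]⟩, ⟨p103_k2, nat_lit 0, nat_lit 0, nat_lit 409, nat_lit 0, nat_lit 0, [nat_lit 3386400000, nat_lit 5045600000, nat_lit 6970000000], [], [nat_lit 17965548388, nat_lit 17598979172, nat_lit 19012918637, nat_lit 18817565461, nat_lit 13444725204, nat_lit 13030633784, nat_lit 13923934900, nat_lit 13628741939], nat_lit 0, nat_lit 0, nat_lit 0, nat_lit 0, nat_lit 0, nat_lit 0,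 [], [nat_lit 97, nat_lit 40, nat_lit 40, nat_lit 80, nat_lit 76, nat_lit 456, nat_lit 225, nat_lit 10]⟩,
 ⟨nat_lit 0, nat_lit 2237, ⟨.ofNat (nat_lit 511462), .ofNat (nat_lit 579878), .ofNat (nat_lit 557013), .ofNat (nat_lit 625429), .ofNat (nat_lit 499995), .ofNat (nat_lit 559993), .ofNat (nat_lit 549998), .ofNat (nat_lit 609995)⟩, ⟨.ofNat (nat_lit 0), .ofNat (nat_lit 146756), .ofNat (nat_lit 0), .ofNat (nat_lit 192306), .ofNat (nat_lit 0), .ofNat (nat_lit 149997), .ofNat (nat_lit 0), .ofNat (nat_lit 199999)⟩⟩, [⟨nat_lit 13, nat_lit 31, nat_lit 98, nat_lit 100, nat_lit 468279950⟩, ⟨nat_lit 3, nat_lit 100, nat_lit 44, nat_lit 64, nat_lit 33115289⟩, ⟨nat_lit 22, nat_lit 100, nat_lit 100, nat_lit 63, nat_lit 19973859⟩]⟩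
noncomputable def p103_l12 : Lf2 := ⟨nat_lit 0, nat_lit 20, [nat_lit 5, nat_lit 5, nat_lit 5, nat_lit 20], true, nat_lit 80, nat_lit 164, nat_lit 0, nat_lit 384, ⟨nat_lit 0, nat_lit 567, nat_lit 433, nat_lit 4, nat_lit 204, nat_lit 1000, nat_lit 92, nat_lit 433, nat_lit 79350, nat_lit 284, nat_lit 4634, nat_lit 204, nat_lit 49391570, nat_lit 13652299, nat_lit 3956131, nat_lit 3790118, false, true⟩,
 nat_lit 0, nat_lit 2767, nat_lit 0, nat_lit 0, nat_lit 2585, nat_lit 0, nat_lit 0, nat_lit 0, nat_lit 0, nat_lit 0, nat_lit 0, nat_lit 0, nat_lit 0, nat_lit 0, nat_lit 39, nat_lit 314950, nat_lit 0, nat_lit 0, [(nat_lit 28, [(nat_lit 0, nat_lit 567), (nat_lit 5, nat_lit 433)])],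
 ⟨p103_k6, nat_lit 0, nat_lit 0, nat_lit 246, nat_lit 0, nat_lit 453105, [nat_lit 856196001, nat_lit 315818001, nat_lit 87068000], [], [nat_lit 20684061225, nat_lit 21269330945, nat_lit 24248864624, nat_lit 24805712432, nat_lit 21776316442, nat_lit 22306564116, nat_lit 25194639804, nat_lit 25700735687], nat_lit 1271250, nat_lit 1271250, nat_lit 1100001, nat_lit 2196000, nat_lit 490000, nat_lit 1133651, [nat_lit 230000, nat_lit 780000, nat_lit 1435000], [nat_lit 20, nat_lit 40, nat_lit 40, nat_lit 80, nat_lit 16, nat_lit 345, nat_lit 125, nat_lit 12]⟩, C1.Rw.none,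
 ⟨nat_lit 1581, nat_lit 2237, ⟨.ofNat (nat_lit 397434), .ofNat (nat_lit 579884), .ofNat (nat_lit 442898), .ofNat (nat_lit 625433), .ofNat (nat_lit 398733), .ofNat (nat_lit 573567), .ofNat (nat_lit 445278), .ofNat (nat_lit 620197)⟩, ⟨.ofNat (nat_lit 146758), .ofNat (nat_lit 266490), .ofNat (nat_lit 192306), .ofNat (nat_lit 312039), .ofNat (nat_lit 149571), .ofNat (nat_lit 264306), .ofNat (nat_lit 196201), .ofNat (nat_lit 310936)⟩⟩, [⟨nat_lit 13, nat_lit 38, nat_lit 96, nat_lit 100, nat_lit 318335404⟩, ⟨nat_lit 4, nat_lit 100, nat_lit 41, nat_lit 77, nat_lit 183803202⟩]⟩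
noncomputable def p103_l13 : Lf2 := ⟨nat_lit 0, nat_lit 20, [nat_lit 5, nat_lit 5, nat_lit 5, nat_lit 20], true, nat_lit 80, nat_lit 136, nat_lit 0, nat_lit 384, ⟨nat_lit 0, nat_lit 721, nat_lit 279, nat_lit 4, nat_lit 196, nat_lit 1000, nat_lit 84, nat_lit 279, nat_lit 66150, nat_lit 278, nat_lit 3437, nat_lit 217, nat_lit 50588316, nat_lit 12926761, nat_lit 3484923, nat_lit 3608783, false, true⟩,
 nat_lit 0, nat_lit 2814, nat_lit 0, nat_lit 0, nat_lit 2720, nat_lit 0, nat_lit 0, nat_lit 0, nat_lit 0, nat_lit 0, nat_lit 0, nat_lit 0, nat_lit 0, nat_lit 0, nat_lit 0, nat_lit 291850, nat_lit 0, nat_lit 0, [(nat_lit 28, [(nat_lit 0, nat_lit 721), (nat_lit 5, nat_lit 279)])],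
 ⟨p103_k7, nat_lit 0, nat_lit 0, nat_lit 251, nat_lit 0, nat_lit 525817, [nat_lit 729148000, nat_lit 260224400, nat_lit 163359600], [], [nat_lit 21376791360, nat_lit 21993818000, nat_lit 24157547385, nat_lit 24737258176, nat_lit 22077448128, nat_lit 22655129504, nat_lit 24762603097, nat_lit 25306463680], nat_lit 1271250, nat_lit 1271250, nat_lit 1100001, nat_lit 1990500, nat_lit 490000, nat_lit 904401, [nat_lit 230000, nat_lit 780000, nat_lit 1100000], [nat_lit 35, nat_lit 40, nat_lit 40, nat_lit 80, nat_lit 22, nat_lit 249, nat_lit 40, nat_lit 10]⟩, C1.Rw.none,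
 ⟨nat_lit 0, nat_lit 1582, ⟨.ofNat (nat_lit 398733), .ofNat (nat_lit 540781), .ofNat (nat_lit 444052), .ofNat (nat_lit 587413), .ofNat (nat_lit 399999), .ofNat (nat_lit 529994), .ofNat (nat_lit 448688), .ofNat (nat_lit 579996)⟩, ⟨.ofNat (nat_lit 149570), .ofNat (nat_lit 226057), .ofNat (nat_lit 196201), .ofNat (nat_lit 272689), .ofNat (nat_lit 149998), .ofNat (nat_lit 219995), .ofNat (nat_lit 199999), .ofNat (nat_lit 269997)⟩⟩, [⟨nat_lit 13, nat_lit 31, nat_lit 95, nat_lit 100, nat_lit 351984336⟩, ⟨nat_lit 16, nat_lit 33, nat_lit 100, nat_lit 84, nat_lit 256460584⟩]⟩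
noncomputable def p103_l14 : Lf2 := ⟨nat_lit 0, nat_lit 20, [nat_lit 5, nat_lit 5, nat_lit 5, nat_lit 20], false, nat_lit 0, nat_lit 200, nat_lit 0, nat_lit 384, ⟨nat_lit 0, nat_lit 0, nat_lit 1000, nat_lit 4, nat_lit 135, nat_lit 1000, nat_lit 67, nat_lit 1000, nat_lit 41667, nat_lit 265, nat_lit 173400, nat_lit 317, nat_lit 60115343, nat_lit 0, nat_lit 0, nat_lit 1655481, false, false⟩,
 nat_lit 0, nat_lit 3244, nat_lit 0, nat_lit 0, nat_lit 2825, nat_lit 0, nat_lit 0, nat_lit 0, nat_lit 0, nat_lit 0, nat_lit 0, nat_lit 0, nat_lit 0, nat_lit 0, nat_lit 63, nat_lit 250000, nat_lit 0, nat_lit 0, [(nat_lit 25, [(nat_lit 0, nat_lit 154), (nat_lit 4, nat_lit 846)]), (nat_lit 28, [(nat_lit 0, nat_lit 154), (nat_lit 4, nat_lit 846)])],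
 ⟨p103_k0, nat_lit 0, nat_lit 0, nat_lit 365, nat_lit 0, nat_lit 425352, [nat_lit 1108589440, nat_lit 128021376], [], [nat_lit 20183909800, nat_lit 24294910980, nat_lit 21473856636, nat_lit 23816081100, nat_lit 22227838377, nat_lit 24504176030, nat_lit 23298132386, nat_lit 25515063450], nat_lit 1271250, nat_lit 1271250, nat_lit 279600, nat_lit 1100001, nat_lit 0, nat_lit 1412500, [nat_lit 230000, nat_lit 1420000], [nat_lit 88, nat_lit 40, nat_lit 40, nat_lit 80, nat_lit 89, nat_lit 317, nat_lit 100, nat_lit 12]⟩, ⟨p103_k8, nat_lit 0, nat_lit 0, nat_lit 1236, nat_lit 0, nat_lit 1546452, [nat_lit 0, nat_lit 0], [], [nat_lit 0, nat_lit 0, nat_lit 0, nat_lit 0, nat_lit 0, nat_lit 0, nat_lit 0, nat_lit 0], nat_lit 1100001, nat_lit 1442500, nat_lit 279600, nat_lit 1100001, nat_lit 0, nat_lit 2712000, [nat_lit 1695000, nat_lit 1271250], [nat_lit 159, nat_lit 40, nat_lit 40, nat_lit 80, nat_lit 111, nat_lit 428,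 nat_lit 200, nat_lit 10]⟩,
 ⟨nat_lit 0, nat_lit 3163, ⟨.ofNat (nat_lit 216927), .ofNat (nat_lit 394735), .ofNat (nat_lit 258627), .ofNat (nat_lit 436481), .ofNat (nat_lit 252860), .ofNat (nat_lit 399999), .ofNat (nat_lit 300250), .ofNat (nat_lit 447434)⟩, ⟨.ofNat (nat_lit 0), .ofNat (nat_lit 322753), .ofNat (nat_lit 0), .ofNat (nat_lit 367065), .ofNat (nat_lit 0), .ofNat (nat_lit 299993), .ofNat (nat_lit 0), .ofNat (nat_lit 349995)⟩⟩, [⟨nat_lit 0, nat_lit 100, nat_lit 44, nat_lit 86, nat_lit 108841369⟩, ⟨nat_lit 4, nat_lit 100, nat_lit 46, nat_lit 75, nat_lit 92596551⟩]⟩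
noncomputable def p103_l15 : Lf2 := ⟨nat_lit 0, nat_lit 20, [nat_lit 5, nat_lit 5, nat_lit 5, nat_lit 20], true, nat_lit 0, nat_lit 80, nat_lit 0, nat_lit 384, ⟨nat_lit 0, nat_lit 189, nat_lit 811, nat_lit 4, nat_lit 191, nat_lit 1000, nat_lit 33, nat_lit 811, nat_lit 10417, nat_lit 240, nat_lit 2400, nat_lit 227, nat_lit 54559638, nat_lit 12440362, nat_lit 0, nat_lit 2399466, false, true⟩,
 nat_lit 0, nat_lit 3124, nat_lit 0, nat_lit 0, nat_lit 2720, nat_lit 0, nat_lit 0, nat_lit 0, nat_lit 0, nat_lit 0, nat_lit 0, nat_lit 0, nat_lit 0, nat_lit 0, nat_lit 56, nat_lit 250000, nat_lit 0, nat_lit 0, [(nat_lit 25, [(nat_lit 0, nat_lit 189), (nat_lit 4, nat_lit 811)])],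
 ⟨p103_k0, nat_lit 0, nat_lit 0, nat_lit 296, nat_lit 0, nat_lit 392078, [nat_lit 1074160640, nat_lit 119200256], [], [nat_lit 20840945056, nat_lit 22049300576, nat_lit 22989847936, nat_lit 24081427920, nat_lit 20625177856, nat_lit 21757194896, nat_lit 22682765376, nat_lit 23688194256], nat_lit 1271250, nat_lit 1271250, nat_lit 1100001, nat_lit 1785000, nat_lit 0, nat_lit 490000, [nat_lit 230000, nat_lit 1420000], [nat_lit 88, nat_lit 40, nat_lit 40, nat_lit 80, nat_lit 89, nat_lit 317, nat_lit 100, nat_lit 12]⟩, C1.Rw.none,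
 ⟨nat_lit 2236, nat_lit 3163, ⟨.ofNat (nat_lit 394735), .ofNat (nat_lit 516642), .ofNat (nat_lit 438942), .ofNat (nat_lit 560952), .ofNat (nat_lit 397434), .ofNat (nat_lit 511466), .ofNat (nat_lit 442880), .ofNat (nat_lit 557014)⟩, ⟨.ofNat (nat_lit 0), .ofNat (nat_lit 139899), .ofNat (nat_lit 0), .ofNat (nat_lit 184209), .ofNat (nat_lit 0), .ofNat (nat_lit 146758), .ofNat (nat_lit 0), .ofNat (nat_lit 192306)⟩⟩, [⟨nat_lit 3, nat_lit 100, nat_lit 74, nat_lit 33, nat_lit 78852899⟩]⟩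
noncomputable def p103_l16 : Lf2 := ⟨nat_lit 0, nat_lit 20, [nat_lit 5, nat_lit 5, nat_lit 5, nat_lit 20], false, nat_lit 0, nat_lit 80, nat_lit 0, nat_lit 336, ⟨nat_lit 0, nat_lit 399, nat_lit 601, nat_lit 6, nat_lit 229, nat_lit 1000, nat_lit 33, nat_lit 601, nat_lit 10417, nat_lit 240, nat_lit 7758, nat_lit 201, nat_lit 50462217, nat_lit 16537783, nat_lit 0, nat_lit 2794141, false, true⟩,
 nat_lit 0, nat_lit 3037, nat_lit 0, nat_lit 35, nat_lit 2644, nat_lit 0, nat_lit 0, nat_lit 0, nat_lit 0, nat_lit 0, nat_lit 0, nat_lit 0, nat_lit 0, nat_lit 0, nat_lit 14, nat_lit 250000, nat_lit 0, nat_lit 0, [(nat_lit 25, [(nat_lit 0, nat_lit 399), (nat_lit 4, nat_lit 601)])],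
 ⟨p103_k0, nat_lit 0, nat_lit 0, nat_lit 246, nat_lit 0, nat_lit 276591, [nat_lit 883850241, nat_lit 56516096], [], [nat_lit 23648823620, nat_lit 24579221548, nat_lit 25639908199, nat_lit 26649482807, nat_lit 23253089956, nat_lit 24130812244, nat_lit 25195176349, nat_lit 26107962418], nat_lit 1271250, nat_lit 1271250, nat_lit 1271250, nat_lit 1271250, nat_lit 0, nat_lit 490000, [nat_lit 230000, nat_lit 1420000], [nat_lit 88, nat_lit 40, nat_lit 40, nat_lit 80, nat_lit 89, nat_lit 226, nat_lit 20, nat_lit 8]⟩, ⟨p103_k8, nat_lit 0, nat_lit 0, nat_lit 875, nat_lit 0, nat_lit 1005602, [nat_lit 0, nat_lit 0], [], [nat_lit 0, nat_lit 0, nat_lit 0, nat_lit 0, nat_lit 0, nat_lit 0, nat_lit 0, nat_lit 0], nat_lit 1100001, nat_lit 1271250, nat_lit 1271250, nat_lit 1271250, nat_lit 0, nat_lit 2373000, [nat_lit 1695000, nat_lit 1271250], [nat_lit 159, nat_lit 40, nat_lit 40, nat_lit 80, nat_lit 111, nat_lit 456, nat_lit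 225, nat_lit 10]⟩,
 ⟨nat_lit 2236, nat_lit 3163, ⟨.ofNat (nat_lit 516642), .ofNat (nat_lit 614167), .ofNat (nat_lit 538797), .ofNat (nat_lit 636322), .ofNat (nat_lit 511466), .ofNat (nat_lit 602690), .ofNat (nat_lit 534240), .ofNat (nat_lit 625465)⟩, ⟨.ofNat (nat_lit 0), .ofNat (nat_lit 139899), .ofNat (nat_lit 0), .ofNat (nat_lit 184209), .ofNat (nat_lit 0), .ofNat (nat_lit 146758), .ofNat (nat_lit 0), .ofNat (nat_lit 192306)⟩⟩, [⟨nat_lit 13, nat_lit 53, nat_lit 93, nat_lit 100, nat_lit 321845215⟩, ⟨nat_lit 3, nat_lit 100, nat_lit 74, nat_lit 33, nat_lit 64672889⟩]⟩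
noncomputable def p103_l17 : Lf2 := ⟨nat_lit 0, nat_lit 20, [nat_lit 5, nat_lit 5, nat_lit 5, nat_lit 20], false, nat_lit 0, nat_lit 80, nat_lit 0, nat_lit 336, ⟨nat_lit 98, nat_lit 199, nat_lit 703, nat_lit 6, nat_lit 244, nat_lit 902, nat_lit 33, nat_lit 703, nat_lit 10417, nat_lit 240, nat_lit 94468, nat_lit 200, nat_lit 48879320, nat_lit 18120680, nat_lit 0, nat_lit 2918567, true, true⟩,
 nat_lit 2752, nat_lit 0, nat_lit 0, nat_lit 18, nat_lit 2396, nat_lit 1046, nat_lit 0, nat_lit 0, nat_lit 0, nat_lit 75, nat_lit 0, nat_lit 0, nat_lit 0, nat_lit 0, nat_lit 14, nat_lit 225500, nat_lit 0, nat_lit 0, [(nat_lit 25, [(nat_lit 0, nat_lit 199), (nat_lit 4, nat_lit 703)])],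
 ⟨p103_k1, nat_lit 0, nat_lit 0, nat_lit 225, nat_lit 0, nat_lit 202665, [nat_lit 811744001, nat_lit 507634934, nat_lit 22417066], [], [nat_lit 23171350278, nat_lit 23641422794, nat_lit 25677413606, nat_lit 26138505771, nat_lit 22781114630, nat_lit 23225748986, nat_lit 25239013895, nat_lit 25746147471], nat_lit 1271250, nat_lit 1271250, nat_lit 1271250, nat_lit 1271250, nat_lit 0, nat_lit 490000, [nat_lit 230000, nat_lit 780000, nat_lit 1435000], [nat_lit 20, nat_lit 40, nat_lit 40, nat_lit 80, nat_lit 16, nat_lit 226, nat_lit 20, nat_lit 8]⟩, ⟨p103_k9, nat_lit 0, nat_lit 0, nat_lit 691, nat_lit 0, nat_lit 608841, [nat_lit 780864000, nat_lit 1163456000, nat_lit 1607200000], [], [nat_lit 4499486791, nat_lit 4461359695, nat_lit 4572728167, nat_lit 4534424151, nat_lit 4933683144, nat_lit 4468455397, nat_lit 3618175644, nat_lit 3569917248], nat_lit 1271250, nat_lit 1271250, nat_lit 1271250, nat_lit 1271250, nat_lit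 0, nat_lit 2373000, [nat_lit 1695000, nat_lit 1271250, nat_lit 1271250], [nat_lit 97, nat_lit 40, nat_lit 40, nat_lit 80, nat_lit 76, nat_lit 456, nat_lit 225, nat_lit 10]⟩,
 ⟨nat_lit 2738, nat_lit 3163, ⟨.ofNat (nat_lit 538797), .ofNat (nat_lit 660704), .ofNat (nat_lit 560952), .ofNat (nat_lit 682859), .ofNat (nat_lit 536642), .ofNat (nat_lit 654765), .ofNat (nat_lit 559060), .ofNat (nat_lit 677182)⟩, ⟨.ofNat (nat_lit 0), .ofNat (nat_lit 139899), .ofNat (nat_lit 0), .ofNat (nat_lit 184209), .ofNat (nat_lit 0), .ofNat (nat_lit 143475), .ofNat (nat_lit 0), .ofNat (nat_lit 188310)⟩⟩, [⟨nat_lit 13, nat_lit 57, nat_lit 85, nat_lit 100, nat_lit 133208194⟩, ⟨nat_lit 3, nat_lit 100, nat_lit 79, nat_lit 27, nat_lit 26985313⟩, ⟨nat_lit 22, nat_lit 93, nat_lit 100, nat_lit 25, nat_lit 17993645⟩]⟩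
noncomputable def p103_l18 : Lf2 := ⟨nat_lit 0, nat_lit 20, [nat_lit 5, nat_lit 5, nat_lit 5, nat_lit 20], false, nat_lit 0, nat_lit 80, nat_lit 0, nat_lit 336, ⟨nat_lit 27, nat_lit 386, nat_lit 587, nat_lit 6, nat_lit 238, nat_lit 973, nat_lit 34, nat_lit 587, nat_lit 10417, nat_lit 240, nat_lit 47678, nat_lit 200, nat_lit 49435493, nat_lit 17564507, nat_lit 0, nat_lit 2876503, true, true⟩,
 nat_lit 773, nat_lit 1978, nat_lit 0, nat_lit 0, nat_lit 2482, nat_lit 293, nat_lit 0, nat_lit 0, nat_lit 0, nat_lit 19, nat_lit 0, nat_lit 0, nat_lit 0, nat_lit 0, nat_lit 6, nat_lit 243250, nat_lit 0, nat_lit 0, [(nat_lit 25, [(nat_lit 0, nat_lit 386), (nat_lit 4, nat_lit 587)])],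
 ⟨p103_k4, nat_lit 0, nat_lit 0, nat_lit 240, nat_lit 0, nat_lit 258040, [nat_lit 771566000, nat_lit 476555067, nat_lit 24180933], [], [nat_lit 23820827336, nat_lit 24296917358, nat_lit 25920513740, nat_lit 26425426799, nat_lit 23347998100, nat_lit 23798158902, nat_lit 25469535847, nat_lit 25923101423], nat_lit 1271250, nat_lit 1271250, nat_lit 1271250, nat_lit 1271250, nat_lit 0, nat_lit 490000, [nat_lit 230000, nat_lit 780000, nat_lit 1435000], [nat_lit 20, nat_lit 40, nat_lit 40, nat_lit 80, nat_lit 16, nat_lit 226, nat_lit 20, nat_lit 7]⟩, ⟨p103_k9, nat_lit 0, nat_lit 0, nat_lit 798, nat_lit 0, nat_lit 809669, [nat_lit 215136000, nat_lit 320544000, nat_lit 442800000], [], [nat_lit 1264061946, nat_lit 1252754024, nat_lit 1271448811, nat_lit 1258671192, nat_lit 1360681472, nat_lit 1230364331, nat_lit 1000375569, nat_lit 990582689], nat_lit 1271250, nat_lit 1271250, nat_lit 1271250, nat_lit 1271250, nat_lit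 0, nat_lit 2373000, [nat_lit 1695000, nat_lit 1271250, nat_lit 1271250], [nat_lit 97, nat_lit 40, nat_lit 40, nat_lit 80, nat_lit 76, nat_lit 456, nat_lit 225, nat_lit 10]⟩,
 ⟨nat_lit 2236, nat_lit 2739, ⟨.ofNat (nat_lit 536642), .ofNat (nat_lit 637047), .ofNat (nat_lit 559060), .ofNat (nat_lit 659464), .ofNat (nat_lit 534240), .ofNat (nat_lit 631166), .ofNat (nat_lit 557014), .ofNat (nat_lit 653941)⟩, ⟨.ofNat (nat_lit 0), .ofNat (nat_lit 143475), .ofNat (nat_lit 0), .ofNat (nat_lit 188310), .ofNat (nat_lit 0), .ofNat (nat_lit 146758), .ofNat (nat_lit 0), .ofNat (nat_lit 192306)⟩⟩, [⟨nat_lit 13, nat_lit 48, nat_lit 90, nat_lit 100, nat_lit 297071633⟩, ⟨nat_lit 3, nat_lit 100, nat_lit 68, nat_lit 40, nat_lit 55741935⟩, ⟨nat_lit 22, nat_lit 94, nat_lit 100, nat_lit 22, nat_lit 5504056⟩]⟩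
noncomputable def p103_l19 : Lf2 := ⟨nat_lit 0, nat_lit 20, [nat_lit 5, nat_lit 5, nat_lit 5, nat_lit 20], false, nat_lit 0, nat_lit 80, nat_lit 0, nat_lit 384, ⟨nat_lit 0, nat_lit 601, nat_lit 399, nat_lit 4, nat_lit 203, nat_lit 1000, nat_lit 34, nat_lit 399, nat_lit 11267, nat_lit 241, nat_lit 4626, nat_lit 204, nat_lit 53267039, nat_lit 13732961, nat_lit 0, nat_lit 2536073, false, true⟩,
 nat_lit 0, nat_lit 2704, nat_lit 0, nat_lit 0, nat_lit 2526, nat_lit 0, nat_lit 0, nat_lit 0, nat_lit 0, nat_lit 0, nat_lit 0, nat_lit 0, nat_lit 0, nat_lit 0, nat_lit 29, nat_lit 309850, nat_lit 0, nat_lit 0, [(nat_lit 28, [(nat_lit 0, nat_lit 601), (nat_lit 5, nat_lit 399)])],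
 ⟨p103_k6, nat_lit 0, nat_lit 0, nat_lit 307, nat_lit 0, nat_lit 390324, [nat_lit 822588001, nat_lit 292854000, nat_lit 64004000], [], [nat_lit 21995263879, nat_lit 23165514695, nat_lit 25619982164, nat_lit 26970999144, nat_lit 21816695535, nat_lit 22913922167, nat_lit 25199531391, nat_lit 26156798801], nat_lit 1271250, nat_lit 1271250, nat_lit 1100001, nat_lit 2196000, nat_lit 0, nat_lit 490000, [nat_lit 230000, nat_lit 780000, nat_lit 1435000], [nat_lit 20, nat_lit 40, nat_lit 40, nat_lit 80, nat_lit 16, nat_lit 317, nat_lit 100, nat_lit 11]⟩, ⟨p103_k2, nat_lit 0, nat_lit 0, nat_lit 1156, nat_lit 0, nat_lit 1546452, [nat_lit 0, nat_lit 0, nat_lit 0], [], [nat_lit 0, nat_lit 0, nat_lit 0, nat_lit 0, nat_lit 0, nat_lit 0, nat_lit 0, nat_lit 0], nat_lit 1100001, nat_lit 1442500, nat_lit 1271250, nat_lit 1271250, nat_lit 0, nat_lit 2712000, [nat_lit 1695000, nat_lit 1271250, nat_lit 1271250], [nat_lit 97, nat_lit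 40, nat_lit 40, nat_lit 80, nat_lit 76, nat_lit 456, nat_lit 225, nat_lit 10]⟩,
 ⟨nat_lit 0, nat_lit 2237, ⟨.ofNat (nat_lit 397434), .ofNat (nat_lit 579878), .ofNat (nat_lit 441142), .ofNat (nat_lit 625429), .ofNat (nat_lit 399999), .ofNat (nat_lit 559993), .ofNat (nat_lit 448157), .ofNat (nat_lit 609995)⟩, ⟨.ofNat (nat_lit 0), .ofNat (nat_lit 146756), .ofNat (nat_lit 0), .ofNat (nat_lit 192306), .ofNat (nat_lit 0), .ofNat (nat_lit 149997), .ofNat (nat_lit 0), .ofNat (nat_lit 199999)⟩⟩, [⟨nat_lit 13, nat_lit 31, nat_lit 98, nat_lit 100, nat_lit 375216429⟩, ⟨nat_lit 3, nat_lit 100, nat_lit 44, nat_lit 64, nat_lit 70606293⟩]⟩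
noncomputable def p103_l20 : Lf2 := ⟨nat_lit 0, nat_lit 20, [nat_lit 5, nat_lit 5, nat_lit 5, nat_lit 20], false, nat_lit 80, nat_lit 200, nat_lit 0, nat_lit 384, ⟨nat_lit 0, nat_lit 429, nat_lit 571, nat_lit 4, nat_lit 215, nat_lit 1000, nat_lit 102, nat_lit 571, nat_lit 96267, nat_lit 291, nat_lit 94468, nat_lit 200, nat_lit 47818235, nat_lit 14617198, nat_lit 4564567, nat_lit 4012223, false, true⟩,
 nat_lit 0, nat_lit 3061, nat_lit 0, nat_lit 0, nat_lit 2665, nat_lit 0, nat_lit 0, nat_lit 0, nat_lit 0, nat_lit 0, nat_lit 0, nat_lit 0, nat_lit 0, nat_lit 0, nat_lit 8, nat_lit 250000, nat_lit 0, nat_lit 0, [(nat_lit 25, [(nat_lit 0, nat_lit 429), (nat_lit 4, nat_lit 571)])],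
 ⟨p103_k1, nat_lit 0, nat_lit 0, nat_lit 198, nat_lit 0, nat_lit 276591, [nat_lit 775444001, nat_lit 476589334, nat_lit 17121866], [], [nat_lit 20309775293, nat_lit 21372702873, nat_lit 24731165410, nat_lit 25708025680, nat_lit 22032561123, nat_lit 22951363913, nat_lit 26115985390, nat_lit 26950071511], nat_lit 1271250, nat_lit 1271250, nat_lit 1100001, nat_lit 2470000, nat_lit 490000, nat_lit 1427500, [nat_lit 230000, nat_lit 780000, nat_lit 1435000], [nat_lit 20, nat_lit 40, nat_lit 40, nat_lit 80, nat_lit 16, nat_lit 373, nat_lit 150, nat_lit 13]⟩, ⟨p103_k2, nat_lit 0, nat_lit 0, nat_lit 917, nat_lit 0, nat_lit 1005602, [nat_lit 0, nat_lit 0, nat_lit 0], [], [nat_lit 0, nat_lit 0, nat_lit 0, nat_lit 0, nat_lit 0, nat_lit 0, nat_lit 0, nat_lit 0], nat_lit 1100001, nat_lit 1442500, nat_lit 1271250, nat_lit 1271250, nat_lit 0, nat_lit 2712000, [nat_lit 1695000, nat_lit 1271250, nat_lit 1271250], [nat_lit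 97, nat_lit 40, nat_lit 40, nat_lit 80, nat_lit 76, nat_lit 483, nat_lit 250, nat_lit 10]⟩,
 ⟨nat_lit 2236, nat_lit 3163, ⟨.ofNat (nat_lit 394735), .ofNat (nat_lit 638549), .ofNat (nat_lit 438942), .ofNat (nat_lit 682859), .ofNat (nat_lit 397434), .ofNat (nat_lit 625497), .ofNat (nat_lit 442880), .ofNat (nat_lit 671045)⟩, ⟨.ofNat (nat_lit 139899), .ofNat (nat_lit 322759), .ofNat (nat_lit 184209), .ofNat (nat_lit 367069), .ofNat (nat_lit 146758), .ofNat (nat_lit 317804), .ofNat (nat_lit 192306), .ofNat (nat_lit 363353)⟩⟩, [⟨nat_lit 13, nat_lit 53, nat_lit 90, nat_lit 100, nat_lit 234378358⟩, ⟨nat_lit 16, nat_lit 54, nat_lit 100, nat_lit 73, nat_lit 133779667⟩]⟩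
noncomputable def p103_l21 : Lf2 := ⟨nat_lit 0, nat_lit 20, [nat_lit 5, nat_lit 5, nat_lit 5, nat_lit 20], false, nat_lit 80, nat_lit 164, nat_lit 0, nat_lit 384, ⟨nat_lit 0, nat_lit 563, nat_lit 437, nat_lit 4, nat_lit 203, nat_lit 1000, nat_lit 91, nat_lit 437, nat_lit 79350, nat_lit 284, nat_lit 4626, nat_lit 204, nat_lit 49527211, nat_lit 13549581, nat_lit 3923208, nat_lit 3772527, false, true⟩,
 nat_lit 0, nat_lit 2796, nat_lit 0, nat_lit 0, nat_lit 2612, nat_lit 0, nat_lit 0, nat_lit 0, nat_lit 0, nat_lit 0, nat_lit 0, nat_lit 0, nat_lit 0, nat_lit 0, nat_lit 40, nat_lit 315550, nat_lit 0, nat_lit 0, [(nat_lit 28, [(nat_lit 0, nat_lit 563), (nat_lit 5, nat_lit 437)])],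
 ⟨p103_k6, nat_lit 0, nat_lit 0, nat_lit 234, nat_lit 0, nat_lit 390324, [nat_lit 859444000, nat_lit 316402001, nat_lit 86252000], [], [nat_lit 20598015184, nat_lit 21773772752, nat_lit 24191783556, nat_lit 25497831460, nat_lit 21683608823, nat_lit 22748594365, nat_lit 25129833747, nat_lit 26146161125], nat_lit 1271250, nat_lit 1271250, nat_lit 1100001, nat_lit 2196000, nat_lit 490000, nat_lit 1133651, [nat_lit 230000, nat_lit 780000, nat_lit 1435000], [nat_lit 20, nat_lit 40, nat_lit 40, nat_lit 80, nat_lit 16, nat_lit 345, nat_lit 125, nat_lit 12]⟩, ⟨p103_k2, nat_lit 0, nat_lit 0, nat_lit 1156, nat_lit 0, nat_lit 1546452, [nat_lit 0, nat_lit 0, nat_lit 0], [], [nat_lit 0, nat_lit 0, nat_lit 0, nat_lit 0, nat_lit 0, nat_lit 0, nat_lit 0, nat_lit 0], nat_lit 1100001, nat_lit 1442500, nat_lit 1271250, nat_lit 1271250, nat_lit 0, nat_lit 2712000, [nat_lit 1695000, nat_lit 1271250, nat_lit 1271250], [nat_lit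 97, nat_lit 40, nat_lit 40, nat_lit 80, nat_lit 76, nat_lit 456, nat_lit 225, nat_lit 10]⟩,
 ⟨nat_lit 0, nat_lit 2237, ⟨.ofNat (nat_lit 397434), .ofNat (nat_lit 579878), .ofNat (nat_lit 441142), .ofNat (nat_lit 625429), .ofNat (nat_lit 399999), .ofNat (nat_lit 559993), .ofNat (nat_lit 448157), .ofNat (nat_lit 609995)⟩, ⟨.ofNat (nat_lit 146756), .ofNat (nat_lit 266484), .ofNat (nat_lit 192306), .ofNat (nat_lit 312035), .ofNat (nat_lit 149997), .ofNat (nat_lit 254993), .ofNat (nat_lit 199999), .ofNat (nat_lit 304995)⟩⟩, [⟨nat_lit 13, nat_lit 31, nat_lit 98, nat_lit 100, nat_lit 79944548⟩, ⟨nat_lit 13, nat_lit 44, nat_lit 90, nat_lit 100, nat_lit 216400926⟩, ⟨nat_lit 4, nat_lit 100, nat_lit 35, nat_lit 80, nat_lit 202759462⟩]⟩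
noncomputable def p103_l22 : Lf2 := ⟨nat_lit 0, nat_lit 20, [nat_lit 5, nat_lit 5, nat_lit 5, nat_lit 20], true, nat_lit 0, nat_lit 200, nat_lit 0, nat_lit 384, ⟨nat_lit 0, nat_lit 1000, nat_lit 0, nat_lit 4, nat_lit 180, nat_lit 1000, nat_lit 67, nat_lit 0, nat_lit 0, nat_lit 0, nat_lit 0, nat_lit 0, nat_lit 0, nat_lit 0, nat_lit 0, nat_lit 5000000, false, true⟩,
 nat_lit 0, nat_lit 4106, nat_lit 0, nat_lit 0, nat_lit 3575, nat_lit 0, nat_lit 0, nat_lit 0, nat_lit 0, nat_lit 0, nat_lit 0, nat_lit 0, nat_lit 0, nat_lit 0, nat_lit 0, nat_lit 334000, nat_lit 0, nat_lit 0, [(nat_lit 25, [(nat_lit 0, nat_lit 440), (nat_lit 1, nat_lit 560)]), (nat_lit 28, [(nat_lit 0, nat_lit 440), (nat_lit 1, nat_lit 560)])],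
 ⟨p103_k0, nat_lit 0, nat_lit 0, nat_lit 423, nat_lit 0, nat_lit 602952, [nat_lit 899065601, nat_lit 1444432000], [], [nat_lit 27442818622, nat_lit 28986709261, nat_lit 30037392601, nat_lit 31275905700, nat_lit 27331303542, nat_lit 28595610062, nat_lit 31804951610, nat_lit 30197381251], nat_lit 1271250, nat_lit 1271250, nat_lit 279600, nat_lit 2323000, nat_lit 0, nat_lit 1412500, [nat_lit 230000, nat_lit 1420000], [nat_lit 88, nat_lit 40, nat_lit 40, nat_lit 80, nat_lit 89, nat_lit 373, nat_lit 150, nat_lit 14]⟩, C1.Rw.none,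
 ⟨nat_lit 0, nat_lit 3163, ⟨.ofNat (nat_lit 216927), .ofNat (nat_lit 638543), .ofNat (nat_lit 258627), .ofNat (nat_lit 682855), .ofNat (nat_lit 252860), .ofNat (nat_lit 599993), .ofNat (nat_lit 300250), .ofNat (nat_lit 649995)⟩, ⟨.ofNat (nat_lit 0), .ofNat (nat_lit 322753), .ofNat (nat_lit 0), .ofNat (nat_lit 367065), .ofNat (nat_lit 0), .ofNat (nat_lit 299993), .ofNat (nat_lit 0), .ofNat (nat_lit 349995)⟩⟩, [⟨nat_lit 13, nat_lit 44, nat_lit 94, nat_lit 100, nat_lit 226768178⟩, ⟨nat_lit 4, nat_lit 100, nat_lit 46, nat_lit 75, nat_lit 180746901⟩]⟩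
noncomputable def b_V_900_400_10_7 : St := ⟨true, nat_lit 1, nat_lit 2, nat_lit 0, nat_lit 80, nat_lit 360, nat_lit 400, nat_lit 160, nat_lit 200, nat_lit 48, nat_lit 320, nat_lit 40, nat_lit 80, nat_lit 0, nat_lit 200, nat_lit 0, nat_lit 384, nat_lit 80, nat_lit 120, nat_lit 0, nat_lit 0, nat_lit 0, nat_lit 0⟩
theorem d_V_900_400_10_7 (h : EB TB.env) : Dead b_V_900_400_10_7 := chkB_sound0 h (T :=
(.gv
(.st (nat_lit 1)
(.spl (nat_lit 0) (nat_lit 380)
(.spl (nat_lit 4) (nat_lit 80)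
(.spl (nat_lit 2) (nat_lit 160)
(.leaf p103_l0)
(.spl (nat_lit 2) (nat_lit 240)
(.leaf p103_l1)
(.trX (nat_lit 22) (nat_lit 100) (nat_lit 76) (nat_lit 82) (nat_lit 336) (.leaf p103_l2))))
(.spl (nat_lit 2) (nat_lit 160)
(.leaf p103_l3)
(.spl (nat_lit 3) (nat_lit 60)
(.trX (nat_lit 16) (nat_lit 61) (nat_lit 100) (nat_lit 72) (nat_lit 176) (.trX (nat_lit 19) (nat_lit 100) (nat_lit 55) (nat_lit 73) (nat_lit 368) (.leaf p103_l4)))
(.spl (nat_lit 6) (nat_lit 108)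
(.spl (nat_lit 0) (nat_lit 370)
(.leaf p103_l5)
(.trX (nat_lit 13) (nat_lit 53) (nat_lit 85) (nat_lit 100) (nat_lit 308) (.trX (nat_lit 16) (nat_lit 53) (nat_lit 100) (nat_lit 80) (nat_lit 184) (.leaf p103_l6))))
(.leaf p103_l7)))))
(.trZ (nat_lit 0) (nat_lit 100) (nat_lit 44) (nat_lit 81) (nat_lit 76) (.trX (nat_lit 13) (nat_lit 44) (nat_lit 90) (nat_lit 100) (nat_lit 288) (.trX (nat_lit 16) (nat_lit 44) (nat_lit 100) (nat_lit 82) (nat_lit 164) (.spl (nat_lit 2) (nat_lit 160)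
(.leaf p103_l8)
(.spl (nat_lit 4) (nat_lit 80)
(.spl (nat_lit 2) (nat_lit 240)
(.spl (nat_lit 0) (nat_lit 390)
(.leaf p103_l9)
(.trZ (nat_lit 3) (nat_lit 100) (nat_lit 52) (nat_lit 53) (nat_lit 8) (.leaf p103_l10)))
(.trX (nat_lit 22) (nat_lit 100) (nat_lit 76) (nat_lit 82) (nat_lit 336) (.leaf p103_l11)))
(.spl (nat_lit 0) (nat_lit 390)
(.leaf p103_l12)
(.trX (nat_lit 13) (nat_lit 31) (nat_lit 95) (nat_lit 100) (nat_lit 264) (.trX (nat_lit 16) (nat_lit 33) (nat_lit 100) (nat_lit 84) (nat_lit 136) (.leaf p103_l13))))))))))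
(.spl (nat_lit 2) (nat_lit 160)
(.leaf p103_l14)
(.spl (nat_lit 4) (nat_lit 80)
(.spl (nat_lit 0) (nat_lit 380)
(.spl (nat_lit 2) (nat_lit 240)
(.leaf p103_l15)
(.trX (nat_lit 22) (nat_lit 100) (nat_lit 76) (nat_lit 82) (nat_lit 336) (.spl (nat_lit 1) (nat_lit 180)
(.trX (nat_lit 13) (nat_lit 60) (nat_lit 86) (nat_lit 100) (nat_lit 304) (.leaf p103_l16))
(.spl (nat_lit 0) (nat_lit 370)
(.leaf p103_l17)
(.trX (nat_lit 13) (nat_lit 53) (nat_lit 85) (nat_lit 100) (nat_lit 308) (.leaf p103_l18))))))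
(.trX (nat_lit 13) (nat_lit 44) (nat_lit 90) (nat_lit 100) (nat_lit 288) (.leaf p103_l19)))
(.spl (nat_lit 0) (nat_lit 380)
(.leaf p103_l20)
(.trX (nat_lit 13) (nat_lit 44) (nat_lit 90) (nat_lit 100) (nat_lit 288) (.trX (nat_lit 16) (nat_lit 44) (nat_lit 100) (nat_lit 82) (nat_lit 164) (.leaf p103_l21)))))))
(.leaf p103_l22))) (by decide +kernel)
noncomputable def p103_l23 : Lf2 := ⟨nat_lit 0, nat_lit 20, [nat_lit 5, nat_lit 5, nat_lit 5, nat_lit 20], true, nat_lit 0, nat_lit 200, nat_lit 0, nat_lit 384, ⟨nat_lit 0, nat_lit 0, nat_lit 1000, nat_lit 4, nat_lit 135, nat_lit 1000, nat_lit 67, nat_lit 1000, nat_lit 41667, nat_lit 265, nat_lit 173400, nat_lit 317, nat_lit 60115343, nat_lit 0, nat_lit 0, nat_lit 1655481, false, false⟩,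
 nat_lit 0, nat_lit 0, nat_lit 0, nat_lit 5316, nat_lit 2286, nat_lit 0, nat_lit 0, nat_lit 0, nat_lit 0, nat_lit 0, nat_lit 0, nat_lit 0, nat_lit 0, nat_lit 0, nat_lit 93, nat_lit 250000, nat_lit 0, nat_lit 0, [(nat_lit 25, [(nat_lit 4, nat_lit 1000)]), (nat_lit 28, [(nat_lit 4, nat_lit 1000)])],
 ⟨p103_k1, nat_lit 0, nat_lit 0, nat_lit 219, nat_lit 0, nat_lit 0, [nat_lit 1133600001, nat_lit 754133334, nat_lit 60266666], [], [nat_lit 18695696304, nat_lit 22396400767, nat_lit 19575389742, nat_lit 22445552166, nat_lit 20526229642, nat_lit 23134112027, nat_lit 21923757898, nat_lit 24228295458], nat_lit 0, nat_lit 0, nat_lit 0, nat_lit 0, nat_lit 0, nat_lit 0, [], [nat_lit 20, nat_lit 40, nat_lit 40, nat_lit 80, nat_lit 16, nat_lit 317, nat_lit 100, nat_lit 12]⟩, C1.Rw.none,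
 ⟨nat_lit 0, nat_lit 3163, ⟨.ofNat (nat_lit 216927), .ofNat (nat_lit 394735), .ofNat (nat_lit 258627), .ofNat (nat_lit 436481), .ofNat (nat_lit 252860), .ofNat (nat_lit 399999), .ofNat (nat_lit 300250), .ofNat (nat_lit 447434)⟩, ⟨.ofNat (nat_lit 0), .ofNat (nat_lit 322753), .ofNat (nat_lit 0), .ofNat (nat_lit 367065), .ofNat (nat_lit 0), .ofNat (nat_lit 299993), .ofNat (nat_lit 0), .ofNat (nat_lit 349995)⟩⟩, [⟨nat_lit 0, nat_lit 100, nat_lit 44, nat_lit 86, nat_lit 55508352⟩, ⟨nat_lit 4, nat_lit 100, nat_lit 46, nat_lit 75, nat_lit 84756242⟩]⟩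
noncomputable def p103_l24 : Lf2 := ⟨nat_lit 0, nat_lit 20, [nat_lit 5, nat_lit 5, nat_lit 5, nat_lit 20], true, nat_lit 0, nat_lit 80, nat_lit 0, nat_lit 384, ⟨nat_lit 0, nat_lit 390, nat_lit 610, nat_lit 4, nat_lit 213, nat_lit 1000, nat_lit 34, nat_lit 610, nat_lit 10417, nat_lit 240, nat_lit 94460, nat_lit 200, nat_lit 52252667, nat_lit 14747333, nat_lit 0, nat_lit 2635231, false, true⟩,
 nat_lit 0, nat_lit 0, nat_lit 0, nat_lit 5592, nat_lit 2196, nat_lit 0, nat_lit 0, nat_lit 0, nat_lit 0, nat_lit 0, nat_lit 0, nat_lit 0, nat_lit 0, nat_lit 0, nat_lit 16, nat_lit 250000, nat_lit 0, nat_lit 0, [(nat_lit 25, [(nat_lit 0, nat_lit 390), (nat_lit 4, nat_lit 610)]), (nat_lit 28, [(nat_lit 0, nat_lit 390), (nat_lit 4, nat_lit 610)])],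
 ⟨p103_k1, nat_lit 0, nat_lit 0, nat_lit 164, nat_lit 0, nat_lit 0, [nat_lit 833400000, nat_lit 505093334, nat_lit 26498666], [], [nat_lit 21169425316, nat_lit 23258710052, nat_lit 25587074068, nat_lit 27420071392, nat_lit 20887190676, nat_lit 22861603860, nat_lit 25138657892, nat_lit 26894535936], nat_lit 0, nat_lit 0, nat_lit 0, nat_lit 0, nat_lit 0, nat_lit 0, [], [nat_lit 20, nat_lit 40, nat_lit 40, nat_lit 80, nat_lit 16, nat_lit 317, nat_lit 100, nat_lit 12]⟩, C1.Rw.none,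
 ⟨nat_lit 0, nat_lit 3163, ⟨.ofNat (nat_lit 394735), .ofNat (nat_lit 638543), .ofNat (nat_lit 436481), .ofNat (nat_lit 682855), .ofNat (nat_lit 399999), .ofNat (nat_lit 599993), .ofNat (nat_lit 447434), .ofNat (nat_lit 649995)⟩, ⟨.ofNat (nat_lit 0), .ofNat (nat_lit 139898), .ofNat (nat_lit 0), .ofNat (nat_lit 184209), .ofNat (nat_lit 0), .ofNat (nat_lit 149998), .ofNat (nat_lit 0), .ofNat (nat_lit 199999)⟩⟩, [⟨nat_lit 13, nat_lit 44, nat_lit 94, nat_lit 100, nat_lit 328430604⟩, ⟨nat_lit 3, nat_lit 100, nat_lit 61, nat_lit 47, nat_lit 53053305⟩]⟩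
noncomputable def p103_l25 : Lf2 := ⟨nat_lit 0, nat_lit 20, [nat_lit 5, nat_lit 5, nat_lit 5, nat_lit 20], true, nat_lit 80, nat_lit 200, nat_lit 0, nat_lit 384, ⟨nat_lit 0, nat_lit 591, nat_lit 409, nat_lit 4, nat_lit 213, nat_lit 1000, nat_lit 101, nat_lit 409, nat_lit 96267, nat_lit 291, nat_lit 94460, nat_lit 200, nat_lit 48076670, nat_lit 14418829, nat_lit 4504501, nat_lit 3981320, false, true⟩,
 nat_lit 0, nat_lit 0, nat_lit 0, nat_lit 5939, nat_lit 2755, nat_lit 0, nat_lit 0, nat_lit 0, nat_lit 0, nat_lit 0, nat_lit 0, nat_lit 0, nat_lit 0, nat_lit 0, nat_lit 0, nat_lit 250000, nat_lit 0, nat_lit 0, [(nat_lit 25, [(nat_lit 0, nat_lit 591), (nat_lit 4, nat_lit 409)]), (nat_lit 28, [(nat_lit 0, nat_lit 591), (nat_lit 4, nat_lit 409)])],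
 ⟨p103_k1, nat_lit 0, nat_lit 0, nat_lit 116, nat_lit 0, nat_lit 0, [nat_lit 773420001, nat_lit 660957334, nat_lit 490998000], [], [nat_lit 20083127475, nat_lit 22484255815, nat_lit 25011738082, nat_lit 27092066580, nat_lit 22007003205, nat_lit 24093301762, nat_lit 26319999322, nat_lit 28055160700], nat_lit 0, nat_lit 0, nat_lit 0, nat_lit 0, nat_lit 0, nat_lit 0, [], [nat_lit 20, nat_lit 40, nat_lit 40, nat_lit 80, nat_lit 16, nat_lit 373, nat_lit 150, nat_lit 13]⟩, C1.Rw.none,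
 ⟨nat_lit 0, nat_lit 3163, ⟨.ofNat (nat_lit 394735), .ofNat (nat_lit 638543), .ofNat (nat_lit 436481), .ofNat (nat_lit 682855), .ofNat (nat_lit 399999), .ofNat (nat_lit 599993), .ofNat (nat_lit 447434), .ofNat (nat_lit 649995)⟩, ⟨.ofNat (nat_lit 139898), .ofNat (nat_lit 322753), .ofNat (nat_lit 184209), .ofNat (nat_lit 367065), .ofNat (nat_lit 149998), .ofNat (nat_lit 299993), .ofNat (nat_lit 199999), .ofNat (nat_lit 349995)⟩⟩, [⟨nat_lit 13, nat_lit 44, nat_lit 94, nat_lit 100, nat_lit 299737964⟩, ⟨nat_lit 4, nat_lit 100, nat_lit 46, nat_lit 75, nat_lit 179277050⟩]⟩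
noncomputable def p103_l26 : Lf2 := ⟨nat_lit 0, nat_lit 20, [nat_lit 5, nat_lit 5, nat_lit 5, nat_lit 20], true, nat_lit 0, nat_lit 200, nat_lit 0, nat_lit 384, ⟨nat_lit 0, nat_lit 0, nat_lit 1000, nat_lit 4, nat_lit 135, nat_lit 1000, nat_lit 67, nat_lit 1000, nat_lit 41667, nat_lit 265, nat_lit 173400, nat_lit 317, nat_lit 60115343, nat_lit 0, nat_lit 0, nat_lit 1655481, false, false⟩,
 nat_lit 0, nat_lit 0, nat_lit 0, nat_lit 5316, nat_lit 2454, nat_lit 0, nat_lit 0, nat_lit 0, nat_lit 0, nat_lit 0, nat_lit 0, nat_lit 0, nat_lit 0, nat_lit 0, nat_lit 61, nat_lit 250000, nat_lit 0, nat_lit 0, [(nat_lit 25, [(nat_lit 0, nat_lit 161), (nat_lit 4, nat_lit 839)]), (nat_lit 28, [(nat_lit 0, nat_lit 161), (nat_lit 4, nat_lit 839)])],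
 ⟨p103_k0, nat_lit 0, nat_lit 0, nat_lit 213, nat_lit 0, nat_lit 0, [nat_lit 1099968960, nat_lit 113857984], [], [nat_lit 19159555056, nat_lit 22988144210, nat_lit 20413795472, nat_lit 22873764000, nat_lit 21161004945, nat_lit 23483550812, nat_lit 22305401532, nat_lit 24493130988], nat_lit 0, nat_lit 0, nat_lit 0, nat_lit 0, nat_lit 0, nat_lit 0, [], [nat_lit 88, nat_lit 40, nat_lit 40, nat_lit 80, nat_lit 89, nat_lit 317, nat_lit 100, nat_lit 12]⟩, C1.Rw.none,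
 ⟨nat_lit 0, nat_lit 3163, ⟨.ofNat (nat_lit 216927), .ofNat (nat_lit 394735), .ofNat (nat_lit 258627), .ofNat (nat_lit 436481), .ofNat (nat_lit 252860), .ofNat (nat_lit 399999), .ofNat (nat_lit 300250), .ofNat (nat_lit 447434)⟩, ⟨.ofNat (nat_lit 0), .ofNat (nat_lit 322753), .ofNat (nat_lit 0), .ofNat (nat_lit 367065), .ofNat (nat_lit 0), .ofNat (nat_lit 299993), .ofNat (nat_lit 0), .ofNat (nat_lit 349995)⟩⟩, [⟨nat_lit 0, nat_lit 100, nat_lit 44, nat_lit 86, nat_lit 72160408⟩, ⟨nat_lit 4, nat_lit 100, nat_lit 46, nat_lit 75, nat_lit 75403509⟩]⟩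
noncomputable def p103_l27 : Lf2 := ⟨nat_lit 0, nat_lit 20, [nat_lit 5, nat_lit 5, nat_lit 5, nat_lit 20], true, nat_lit 0, nat_lit 80, nat_lit 0, nat_lit 384, ⟨nat_lit 0, nat_lit 390, nat_lit 610, nat_lit 4, nat_lit 213, nat_lit 1000, nat_lit 34, nat_lit 610, nat_lit 10417, nat_lit 240, nat_lit 94460, nat_lit 200, nat_lit 52252667, nat_lit 14747333, nat_lit 0, nat_lit 2635231, false, true⟩,
 nat_lit 0, nat_lit 0, nat_lit 0, nat_lit 5592, nat_lit 2196, nat_lit 0, nat_lit 0, nat_lit 0, nat_lit 0, nat_lit 0, nat_lit 0, nat_lit 0, nat_lit 0, nat_lit 0, nat_lit 16, nat_lit 250000, nat_lit 0, nat_lit 0, [(nat_lit 25, [(nat_lit 0, nat_lit 390), (nat_lit 4, nat_lit 610)]), (nat_lit 28, [(nat_lit 0, nat_lit 390), (nat_lit 4, nat_lit 610)])],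
 ⟨p103_k1, nat_lit 0, nat_lit 0, nat_lit 164, nat_lit 0, nat_lit 0, [nat_lit 833400000, nat_lit 505093334, nat_lit 26498666], [], [nat_lit 21169425316, nat_lit 23258710052, nat_lit 25587074068, nat_lit 27420071392, nat_lit 20887190676, nat_lit 22861603860, nat_lit 25138657892, nat_lit 26894535936], nat_lit 0, nat_lit 0, nat_lit 0, nat_lit 0, nat_lit 0, nat_lit 0, [], [nat_lit 20, nat_lit 40, nat_lit 40, nat_lit 80, nat_lit 16, nat_lit 317, nat_lit 100, nat_lit 12]⟩, C1.Rw.none,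
 ⟨nat_lit 0, nat_lit 3163, ⟨.ofNat (nat_lit 394735), .ofNat (nat_lit 638543), .ofNat (nat_lit 436481), .ofNat (nat_lit 682855), .ofNat (nat_lit 399999), .ofNat (nat_lit 599993), .ofNat (nat_lit 447434), .ofNat (nat_lit 649995)⟩, ⟨.ofNat (nat_lit 0), .ofNat (nat_lit 139898), .ofNat (nat_lit 0), .ofNat (nat_lit 184209), .ofNat (nat_lit 0), .ofNat (nat_lit 149998), .ofNat (nat_lit 0), .ofNat (nat_lit 199999)⟩⟩, [⟨nat_lit 13, nat_lit 44, nat_lit 94, nat_lit 100, nat_lit 328430604⟩, ⟨nat_lit 3, nat_lit 100, nat_lit 61, nat_lit 47, nat_lit 53053305⟩]⟩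
noncomputable def p103_l28 : Lf2 := ⟨nat_lit 0, nat_lit 20, [nat_lit 5, nat_lit 5, nat_lit 5, nat_lit 20], true, nat_lit 80, nat_lit 200, nat_lit 0, nat_lit 384, ⟨nat_lit 0, nat_lit 591, nat_lit 409, nat_lit 4, nat_lit 213, nat_lit 1000, nat_lit 101, nat_lit 409, nat_lit 96267, nat_lit 291, nat_lit 94460, nat_lit 200, nat_lit 48076670, nat_lit 14418829, nat_lit 4504501, nat_lit 3981320, false, true⟩,
 nat_lit 0, nat_lit 0, nat_lit 0, nat_lit 5939, nat_lit 2755, nat_lit 0, nat_lit 0, nat_lit 0, nat_lit 0, nat_lit 0, nat_lit 0, nat_lit 0, nat_lit 0, nat_lit 0, nat_lit 0, nat_lit 250000, nat_lit 0, nat_lit 0, [(nat_lit 25, [(nat_lit 0, nat_lit 591), (nat_lit 4, nat_lit 409)]), (nat_lit 28, [(nat_lit 0, nat_lit 591), (nat_lit 4, nat_lit 409)])],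
 ⟨p103_k1, nat_lit 0, nat_lit 0, nat_lit 116, nat_lit 0, nat_lit 0, [nat_lit 773420001, nat_lit 660957334, nat_lit 490998000], [], [nat_lit 20083127475, nat_lit 22484255815, nat_lit 25011738082, nat_lit 27092066580, nat_lit 22007003205, nat_lit 24093301762, nat_lit 26319999322, nat_lit 28055160700], nat_lit 0, nat_lit 0, nat_lit 0, nat_lit 0, nat_lit 0, nat_lit 0, [], [nat_lit 20, nat_lit 40, nat_lit 40, nat_lit 80, nat_lit 16, nat_lit 373, nat_lit 150, nat_lit 13]⟩, C1.Rw.none,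
 ⟨nat_lit 0, nat_lit 3163, ⟨.ofNat (nat_lit 394735), .ofNat (nat_lit 638543), .ofNat (nat_lit 436481), .ofNat (nat_lit 682855), .ofNat (nat_lit 399999), .ofNat (nat_lit 599993), .ofNat (nat_lit 447434), .ofNat (nat_lit 649995)⟩, ⟨.ofNat (nat_lit 139898), .ofNat (nat_lit 322753), .ofNat (nat_lit 184209), .ofNat (nat_lit 367065), .ofNat (nat_lit 149998), .ofNat (nat_lit 299993), .ofNat (nat_lit 199999), .ofNat (nat_lit 349995)⟩⟩, [⟨nat_lit 13, nat_lit 44, nat_lit 94, nat_lit 100, nat_lit 299737964⟩, ⟨nat_lit 4, nat_lit 100, nat_lit 46, nat_lit 75, nat_lit 179277050⟩]⟩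
noncomputable def p103_l29 : Lf2 := ⟨nat_lit 0, nat_lit 20, [nat_lit 5, nat_lit 5, nat_lit 5, nat_lit 20], true, nat_lit 0, nat_lit 200, nat_lit 0, nat_lit 384, ⟨nat_lit 0, nat_lit 1000, nat_lit 0, nat_lit 4, nat_lit 180, nat_lit 1000, nat_lit 67, nat_lit 0, nat_lit 0, nat_lit 0, nat_lit 0, nat_lit 0, nat_lit 0, nat_lit 0, nat_lit 0, nat_lit 5000000, false, true⟩,
 nat_lit 0, nat_lit 0, nat_lit 0, nat_lit 5538, nat_lit 3637, nat_lit 0, nat_lit 0, nat_lit 0, nat_lit 0, nat_lit 0, nat_lit 0, nat_lit 0, nat_lit 0, nat_lit 0, nat_lit 0, nat_lit 250000, nat_lit 0, nat_lit 0, [(nat_lit 25, [(nat_lit 0, nat_lit 1000)]), (nat_lit 28, [(nat_lit 0, nat_lit 1000)])],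
 ⟨p103_k0, nat_lit 0, nat_lit 0, nat_lit 213, nat_lit 0, nat_lit 0, [nat_lit 781600001, nat_lit 2118000000], [], [nat_lit 24491785892, nat_lit 27514237727, nat_lit 29468263644, nat_lit 31451371468, nat_lit 24483014148, nat_lit 26902547741, nat_lit 28558102042, nat_lit 30182332936], nat_lit 0, nat_lit 0, nat_lit 0, nat_lit 0, nat_lit 0, nat_lit 0, [], [nat_lit 88, nat_lit 40, nat_lit 40, nat_lit 80, nat_lit 89, nat_lit 373, nat_lit 150, nat_lit 14]⟩, C1.Rw.none,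
 ⟨nat_lit 0, nat_lit 3163, ⟨.ofNat (nat_lit 216927), .ofNat (nat_lit 638543), .ofNat (nat_lit 258627), .ofNat (nat_lit 682855), .ofNat (nat_lit 252860), .ofNat (nat_lit 599993), .ofNat (nat_lit 300250), .ofNat (nat_lit 649995)⟩, ⟨.ofNat (nat_lit 0), .ofNat (nat_lit 322753), .ofNat (nat_lit 0), .ofNat (nat_lit 367065), .ofNat (nat_lit 0), .ofNat (nat_lit 299993), .ofNat (nat_lit 0), .ofNat (nat_lit 349995)⟩⟩, [⟨nat_lit 13, nat_lit 44, nat_lit 94, nat_lit 100, nat_lit 274814320⟩, ⟨nat_lit 4, nat_lit 100, nat_lit 46, nat_lit 75, nat_lit 96355603⟩]⟩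
noncomputable def p103_l30 : Lf2 := ⟨nat_lit 1, nat_lit 15, [nat_lit 30, nat_lit 5, nat_lit 5, nat_lit 20], false, nat_lit 0, nat_lit 176, nat_lit 0, nat_lit 368, zbN0,
 nat_lit 0, nat_lit 0, nat_lit 0, nat_lit 0, nat_lit 0, nat_lit 0, nat_lit 0, nat_lit 0, nat_lit 0, nat_lit 0, nat_lit 0, nat_lit 0, nat_lit 0, nat_lit 0, nat_lit 0, nat_lit 0, nat_lit 0, nat_lit 0, [],
 C1.Rw.none, C1.Rw.none,
 zbF0, []⟩
noncomputable def p103_l31 : Lf2 := ⟨nat_lit 1, nat_lit 20, [nat_lit 5, nat_lit 5, nat_lit 5, nat_lit 20], false, nat_lit 0, nat_lit 200, nat_lit 0, nat_lit 384, zbN0,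
 nat_lit 0, nat_lit 0, nat_lit 0, nat_lit 0, nat_lit 0, nat_lit 0, nat_lit 0, nat_lit 0, nat_lit 0, nat_lit 0, nat_lit 0, nat_lit 0, nat_lit 0, nat_lit 0, nat_lit 0, nat_lit 0, nat_lit 0, nat_lit 0, [],
 C1.Rw.none, C1.Rw.none,
 zbF0, []⟩
noncomputable def p103_l32 : Lf2 := ⟨nat_lit 1, nat_lit 20, [nat_lit 5, nat_lit 5, nat_lit 5, nat_lit 20], false, nat_lit 0, nat_lit 200, nat_lit 0, nat_lit 384, zbN0,
 nat_lit 0, nat_lit 0, nat_lit 0, nat_lit 0, nat_lit 0, nat_lit 0, nat_lit 0, nat_lit 0, nat_lit 0, nat_lit 0, nat_lit 0, nat_lit 0, nat_lit 0, nat_lit 0, nat_lit 0, nat_lit 0, nat_lit 0, nat_lit 0, [],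
 C1.Rw.none, C1.Rw.none,
 zbF0, []⟩
noncomputable def p103_l33 : Lf2 := ⟨nat_lit 0, nat_lit 20, [nat_lit 5, nat_lit 5, nat_lit 5, nat_lit 20], true, nat_lit 0, nat_lit 80, nat_lit 0, nat_lit 384, ⟨nat_lit 0, nat_lit 361, nat_lit 639, nat_lit 4, nat_lit 181, nat_lit 1000, nat_lit 34, nat_lit 639, nat_lit 11267, nat_lit 241, nat_lit 4634, nat_lit 204, nat_lit 55645360, nat_lit 11354640, nat_lit 0, nat_lit 2275240, false, true⟩,
 nat_lit 0, nat_lit 2490, nat_lit 0, nat_lit 2006, nat_lit 2326, nat_lit 0, nat_lit 0, nat_lit 0, nat_lit 0, nat_lit 0, nat_lit 0, nat_lit 0, nat_lit 0, nat_lit 0, nat_lit 48, nat_lit 250000, nat_lit 0, nat_lit 0, [(nat_lit 28, [(nat_lit 0, nat_lit 361), (nat_lit 4, nat_lit 639)])],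
 ⟨p103_k5, nat_lit 0, nat_lit 0, nat_lit 218, nat_lit 0, nat_lit 113868, [nat_lit 960820000, nat_lit 111114400], [], [nat_lit 20656232968, nat_lit 21215741926, nat_lit 25265742720, nat_lit 25791527028, nat_lit 20384449365, nat_lit 20921332298, nat_lit 24925630742, nat_lit 25385322570], nat_lit 1271250, nat_lit 1271250, nat_lit 462650, nat_lit 2110950, nat_lit 0, nat_lit 490000, [nat_lit 230000, nat_lit 1420000], [nat_lit 88, nat_lit 40, nat_lit 40, nat_lit 80, nat_lit 89, nat_lit 317, nat_lit 100, nat_lit 12]⟩, C1.Rw.none,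
 ⟨nat_lit 1581, nat_lit 2237, ⟨.ofNat (nat_lit 277529), .ofNat (nat_lit 579884), .ofNat (nat_lit 322986), .ofNat (nat_lit 625433), .ofNat (nat_lit 283825), .ofNat (nat_lit 573567), .ofNat (nat_lit 330363), .ofNat (nat_lit 620197)⟩, ⟨.ofNat (nat_lit 0), .ofNat (nat_lit 146758), .ofNat (nat_lit 0), .ofNat (nat_lit 192306), .ofNat (nat_lit 0), .ofNat (nat_lit 149571), .ofNat (nat_lit 0), .ofNat (nat_lit 196201)⟩⟩, [⟨nat_lit 13, nat_lit 38, nat_lit 96, nat_lit 100, nat_lit 212929915⟩, ⟨nat_lit 3, nat_lit 100, nat_lit 53, nat_lit 55, nat_lit 87464592⟩]⟩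
noncomputable def p103_l34 : Lf2 := ⟨nat_lit 0, nat_lit 20, [nat_lit 5, nat_lit 5, nat_lit 5, nat_lit 20], true, nat_lit 8, nat_lit 80, nat_lit 0, nat_lit 384, ⟨nat_lit 0, nat_lit 519, nat_lit 481, nat_lit 4, nat_lit 180, nat_lit 1000, nat_lit 39, nat_lit 481, nat_lit 14017, nat_lit 244, nat_lit 3437, nat_lit 217, nat_lit 54551134, nat_lit 11362929, nat_lit 1085937, nat_lit 2762019, false, true⟩,
 nat_lit 0, nat_lit 2522, nat_lit 0, nat_lit 1336, nat_lit 2438, nat_lit 0, nat_lit 0, nat_lit 0, nat_lit 0, nat_lit 0, nat_lit 0, nat_lit 0, nat_lit 0, nat_lit 0, nat_lit 10, nat_lit 250000, nat_lit 0, nat_lit 0, [(nat_lit 28, [(nat_lit 0, nat_lit 519), (nat_lit 4, nat_lit 481)])],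
 ⟨p103_k10, nat_lit 0, nat_lit 0, nat_lit 208, nat_lit 0, nat_lit 204055, [nat_lit 811980000, nat_lit 8551600], [], [nat_lit 21300057405, nat_lit 22200853840, nat_lit 25059561864, nat_lit 25660609170, nat_lit 21110143224, nat_lit 21743604880, nat_lit 24777789483, nat_lit 25285380868], nat_lit 1271250, nat_lit 1271250, nat_lit 631250, nat_lit 1943250, nat_lit 43600, nat_lit 490000, [nat_lit 230000, nat_lit 1100000], [nat_lit 86, nat_lit 40, nat_lit 40, nat_lit 80, nat_lit 87, nat_lit 317, nat_lit 100, nat_lit 14]⟩, C1.Rw.none,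
 ⟨nat_lit 0, nat_lit 1582, ⟨.ofNat (nat_lit 314816), .ofNat (nat_lit 540781), .ofNat (nat_lit 360133), .ofNat (nat_lit 587413), .ofNat (nat_lit 323036), .ofNat (nat_lit 529994), .ofNat (nat_lit 371722), .ofNat (nat_lit 579996)⟩, ⟨.ofNat (nat_lit 20000), .ofNat (nat_lit 149570), .ofNat (nat_lit 20000), .ofNat (nat_lit 196201), .ofNat (nat_lit 20000), .ofNat (nat_lit 149998), .ofNat (nat_lit 20000), .ofNat (nat_lit 199999)⟩⟩, [⟨nat_lit 13, nat_lit 22, nat_lit 100, nat_lit 100, nat_lit 345391281⟩, ⟨nat_lit 3, nat_lit 100, nat_lit 31, nat_lit 76, nat_lit 251557279⟩]⟩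
noncomputable def p103_l35 : Lf2 := ⟨nat_lit 0, nat_lit 20, [nat_lit 5, nat_lit 5, nat_lit 5, nat_lit 20], true, nat_lit 80, nat_lit 164, nat_lit 0, nat_lit 384, ⟨nat_lit 0, nat_lit 439, nat_lit 561, nat_lit 4, nat_lit 180, nat_lit 1000, nat_lit 91, nat_lit 561, nat_lit 79350, nat_lit 284, nat_lit 4626, nat_lit 204, nat_lit 51751333, nat_lit 11285845, nat_lit 3962822, nat_lit 3532241, false, true⟩,
 nat_lit 0, nat_lit 2807, nat_lit 0, nat_lit 1060, nat_lit 2622, nat_lit 0, nat_lit 0, nat_lit 0, nat_lit 0, nat_lit 0, nat_lit 0, nat_lit 0, nat_lit 0, nat_lit 0, nat_lit 31, nat_lit 250000, nat_lit 0, nat_lit 0, [(nat_lit 28, [(nat_lit 0, nat_lit 439), (nat_lit 4, nat_lit 561)])],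
 ⟨p103_k6, nat_lit 0, nat_lit 0, nat_lit 210, nat_lit 0, nat_lit 213419, [nat_lit 894380001, nat_lit 255284400, nat_lit 65205600], [], [nat_lit 19789828154, nat_lit 21025693223, nat_lit 24366532362, nat_lit 25515781246, nat_lit 20838928650, nat_lit 22046169227, nat_lit 25279331546, nat_lit 26323051360], nat_lit 1271250, nat_lit 1271250, nat_lit 462650, nat_lit 2110950, nat_lit 490000, nat_lit 1133651, [nat_lit 230000, nat_lit 780000, nat_lit 1435000], [nat_lit 20, nat_lit 40, nat_lit 40, nat_lit 80, nat_lit 16, nat_lit 345, nat_lit 125, nat_lit 13]⟩, C1.Rw.none,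
 ⟨nat_lit 0, nat_lit 2237, ⟨.ofNat (nat_lit 273845), .ofNat (nat_lit 579878), .ofNat (nat_lit 317541), .ofNat (nat_lit 625429), .ofNat (nat_lit 291142), .ofNat (nat_lit 559993), .ofNat (nat_lit 339289), .ofNat (nat_lit 609995)⟩, ⟨.ofNat (nat_lit 146756), .ofNat (nat_lit 266484), .ofNat (nat_lit 192306), .ofNat (nat_lit 312035), .ofNat (nat_lit 149997), .ofNat (nat_lit 254993), .ofNat (nat_lit 199999), .ofNat (nat_lit 304995)⟩⟩, [⟨nat_lit 13, nat_lit 31, nat_lit 98, nat_lit 100, nat_lit 233708641⟩, ⟨nat_lit 4, nat_lit 100, nat_lit 35, nat_lit 80, nat_lit 237332339⟩]⟩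
noncomputable def p103_l36 : Lf2 := ⟨nat_lit 1, nat_lit 15, [nat_lit 30, nat_lit 5, nat_lit 5, nat_lit 20], false, nat_lit 0, nat_lit 176, nat_lit 0, nat_lit 368, zbN0,
 nat_lit 0, nat_lit 0, nat_lit 0, nat_lit 0, nat_lit 0, nat_lit 0, nat_lit 0, nat_lit 0, nat_lit 0, nat_lit 0, nat_lit 0, nat_lit 0, nat_lit 0, nat_lit 0, nat_lit 0, nat_lit 0, nat_lit 0, nat_lit 0, [],
 C1.Rw.none, C1.Rw.none,
 zbF0, []⟩
noncomputable def p103_l37 : Lf2 := ⟨nat_lit 1, nat_lit 20, [nat_lit 5, nat_lit 5, nat_lit 5, nat_lit 20], false, nat_lit 0, nat_lit 200, nat_lit 0, nat_lit 384, zbN0,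
 nat_lit 0, nat_lit 0, nat_lit 0, nat_lit 0, nat_lit 0, nat_lit 0, nat_lit 0, nat_lit 0, nat_lit 0, nat_lit 0, nat_lit 0, nat_lit 0, nat_lit 0, nat_lit 0, nat_lit 0, nat_lit 0, nat_lit 0, nat_lit 0, [],
 C1.Rw.none, C1.Rw.none,
 zbF0, []⟩
noncomputable def p103_l38 : Lf2 := ⟨nat_lit 1, nat_lit 20, [nat_lit 5, nat_lit 5, nat_lit 5, nat_lit 20], false, nat_lit 0, nat_lit 200, nat_lit 0, nat_lit 384, zbN0,
 nat_lit 0, nat_lit 0, nat_lit 0, nat_lit 0, nat_lit 0, nat_lit 0, nat_lit 0, nat_lit 0, nat_lit 0, nat_lit 0, nat_lit 0, nat_lit 0, nat_lit 0, nat_lit 0, nat_lit 0, nat_lit 0, nat_lit 0, nat_lit 0, [],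
 C1.Rw.none, C1.Rw.none,
 zbF0, []⟩
noncomputable def p103_l39 : Lf2 := ⟨nat_lit 0, nat_lit 20, [nat_lit 5, nat_lit 5, nat_lit 5, nat_lit 20], false, nat_lit 0, nat_lit 164, nat_lit 0, nat_lit 384, ⟨nat_lit 0, nat_lit 479, nat_lit 521, nat_lit 4, nat_lit 181, nat_lit 1000, nat_lit 58, nat_lit 521, nat_lit 30817, nat_lit 258, nat_lit 4634, nat_lit 204, nat_lit 55645360, nat_lit 11354640, nat_lit 0, nat_lit 2275240, false, true⟩,
 nat_lit 0, nat_lit 2578, nat_lit 0, nat_lit 2873, nat_lit 2408, nat_lit 0, nat_lit 0, nat_lit 0, nat_lit 0, nat_lit 0, nat_lit 0, nat_lit 0, nat_lit 0, nat_lit 0, nat_lit 23, nat_lit 250000, nat_lit 0, nat_lit 0, [(nat_lit 28, [(nat_lit 0, nat_lit 479), (nat_lit 4, nat_lit 521)])],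
 ⟨p103_k6, nat_lit 0, nat_lit 0, nat_lit 219, nat_lit 0, nat_lit 82661, [nat_lit 863180000, nat_lit 244868401, nat_lit 56021600], [], [nat_lit 20904895071, nat_lit 21499957835, nat_lit 25333963946, nat_lit 25995963749, nat_lit 21392451177, nat_lit 21974717087, nat_lit 25674653528, nat_lit 26179544898], nat_lit 1271250, nat_lit 1271250, nat_lit 462650, nat_lit 2110950, nat_lit 0, nat_lit 1133651, [nat_lit 230000, nat_lit 780000, nat_lit 1435000], [nat_lit 20, nat_lit 40, nat_lit 40, nat_lit 80, nat_lit 16, nat_lit 345, nat_lit 125, nat_lit 13]⟩, ⟨p103_k2, nat_lit 0, nat_lit 0, nat_lit 672, nat_lit 0, nat_lit 337974, [nat_lit 0, nat_lit 0, nat_lit 0], [], [nat_lit 0, nat_lit 0, nat_lit 0, nat_lit 0, nat_lit 0, nat_lit 0, nat_lit 0, nat_lit 0], nat_lit 1100001, nat_lit 1442500, nat_lit 462650, nat_lit 2110950, nat_lit 0, nat_lit 2712000, [nat_lit 1695000, nat_lit 1271250, nat_lit 1271250], [nat_lit 97, nat_lit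 40, nat_lit 40, nat_lit 80, nat_lit 76, nat_lit 456, nat_lit 225, nat_lit 10]⟩,
 ⟨nat_lit 1581, nat_lit 2237, ⟨.ofNat (nat_lit 277529), .ofNat (nat_lit 579884), .ofNat (nat_lit 322986), .ofNat (nat_lit 625433), .ofNat (nat_lit 283825), .ofNat (nat_lit 573567), .ofNat (nat_lit 330363), .ofNat (nat_lit 620197)⟩, ⟨.ofNat (nat_lit 0), .ofNat (nat_lit 266490), .ofNat (nat_lit 0), .ofNat (nat_lit 312039), .ofNat (nat_lit 0), .ofNat (nat_lit 264306), .ofNat (nat_lit 0), .ofNat (nat_lit 310936)⟩⟩, [⟨nat_lit 13, nat_lit 31, nat_lit 100, nat_lit 99, nat_lit 228453246⟩, ⟨nat_lit 4, nat_lit 100, nat_lit 41, nat_lit 77, nat_lit 70051055⟩]⟩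
noncomputable def p103_l40 : Lf2 := ⟨nat_lit 0, nat_lit 20, [nat_lit 5, nat_lit 5, nat_lit 5, nat_lit 20], true, nat_lit 8, nat_lit 136, nat_lit 0, nat_lit 384, ⟨nat_lit 0, nat_lit 519, nat_lit 481, nat_lit 4, nat_lit 180, nat_lit 1000, nat_lit 53, nat_lit 481, nat_lit 26667, nat_lit 255, nat_lit 3437, nat_lit 217, nat_lit 53866217, nat_lit 11371968, nat_lit 1761815, nat_lit 2981062, false, true⟩,
 nat_lit 0, nat_lit 2522, nat_lit 0, nat_lit 1444, nat_lit 2438, nat_lit 0, nat_lit 0, nat_lit 0, nat_lit 0, nat_lit 0, nat_lit 0, nat_lit 0, nat_lit 0, nat_lit 0, nat_lit 10, nat_lit 250000, nat_lit 0, nat_lit 0, [(nat_lit 28, [(nat_lit 0, nat_lit 519), (nat_lit 4, nat_lit 481)])],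
 ⟨p103_k10, nat_lit 0, nat_lit 0, nat_lit 208, nat_lit 0, nat_lit 204055, [nat_lit 811980000, nat_lit 8551600], [], [nat_lit 21300057405, nat_lit 22200853840, nat_lit 25059561864, nat_lit 25660609170, nat_lit 21903815810, nat_lit 22496882642, nat_lit 25376446532, nat_lit 25897667710], nat_lit 1271250, nat_lit 1271250, nat_lit 631250, nat_lit 1943250, nat_lit 43600, nat_lit 904401, [nat_lit 230000, nat_lit 1100000], [nat_lit 86, nat_lit 40, nat_lit 40, nat_lit 80, nat_lit 87, nat_lit 317, nat_lit 100, nat_lit 14]⟩, C1.Rw.none,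
 ⟨nat_lit 0, nat_lit 1582, ⟨.ofNat (nat_lit 314816), .ofNat (nat_lit 540781), .ofNat (nat_lit 360133), .ofNat (nat_lit 587413), .ofNat (nat_lit 323036), .ofNat (nat_lit 529994), .ofNat (nat_lit 371722), .ofNat (nat_lit 579996)⟩, ⟨.ofNat (nat_lit 20000), .ofNat (nat_lit 226057), .ofNat (nat_lit 20000), .ofNat (nat_lit 272689), .ofNat (nat_lit 20000), .ofNat (nat_lit 219995), .ofNat (nat_lit 20000), .ofNat (nat_lit 269997)⟩⟩, [⟨nat_lit 13, nat_lit 22, nat_lit 100, nat_lit 100, nat_lit 354165272⟩, ⟨nat_lit 3, nat_lit 100, nat_lit 31, nat_lit 76, nat_lit 67666825⟩]⟩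
noncomputable def p103_l41 : Lf2 := ⟨nat_lit 0, nat_lit 20, [nat_lit 5, nat_lit 5, nat_lit 5, nat_lit 20], true, nat_lit 0, nat_lit 200, nat_lit 0, nat_lit 384, ⟨nat_lit 0, nat_lit 1000, nat_lit 0, nat_lit 4, nat_lit 180, nat_lit 1000, nat_lit 67, nat_lit 0, nat_lit 0, nat_lit 0, nat_lit 0, nat_lit 0, nat_lit 0, nat_lit 0, nat_lit 0, nat_lit 5000000, false, true⟩,
 nat_lit 0, nat_lit 4506, nat_lit 0, nat_lit 1605, nat_lit 3924, nat_lit 0, nat_lit 0, nat_lit 0, nat_lit 0, nat_lit 0, nat_lit 0, nat_lit 0, nat_lit 0, nat_lit 0, nat_lit 0, nat_lit 250000, nat_lit 0, nat_lit 0, [(nat_lit 25, [(nat_lit 0, nat_lit 1000)]), (nat_lit 28, [(nat_lit 0, nat_lit 1000)])],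
 ⟨p103_k0, nat_lit 0, nat_lit 0, nat_lit 302, nat_lit 0, nat_lit 234288, [nat_lit 781600001, nat_lit 2118000000], [], [nat_lit 26123383040, nat_lit 28637448464, nat_lit 30095657248, nat_lit 32252322544, nat_lit 25850884442, nat_lit 27870570972, nat_lit 31644805628, nat_lit 30327415224], nat_lit 1271250, nat_lit 1271250, nat_lit 279600, nat_lit 2323000, nat_lit 0, nat_lit 1412500, [nat_lit 230000, nat_lit 1420000], [nat_lit 88, nat_lit 40, nat_lit 40, nat_lit 80, nat_lit 89, nat_lit 373, nat_lit 150, nat_lit 14]⟩, C1.Rw.none,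
 ⟨nat_lit 0, nat_lit 3163, ⟨.ofNat (nat_lit 216927), .ofNat (nat_lit 638543), .ofNat (nat_lit 258627), .ofNat (nat_lit 682855), .ofNat (nat_lit 252860), .ofNat (nat_lit 599993), .ofNat (nat_lit 300250), .ofNat (nat_lit 649995)⟩, ⟨.ofNat (nat_lit 0), .ofNat (nat_lit 322753), .ofNat (nat_lit 0), .ofNat (nat_lit 367065), .ofNat (nat_lit 0), .ofNat (nat_lit 299993), .ofNat (nat_lit 0), .ofNat (nat_lit 349995)⟩⟩, [⟨nat_lit 13, nat_lit 44, nat_lit 94, nat_lit 100, nat_lit 288967706⟩, ⟨nat_lit 4, nat_lit 100, nat_lit 46, nat_lit 75, nat_lit 153502829⟩]⟩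
noncomputable def b_V_900_400_10_8 : St := ⟨true, nat_lit 2, nat_lit 2, nat_lit 0, nat_lit 80, nat_lit 360, nat_lit 400, nat_lit 160, nat_lit 200, nat_lit 48, nat_lit 320, nat_lit 40, nat_lit 80, nat_lit 0, nat_lit 200, nat_lit 0, nat_lit 384, nat_lit 120, nat_lit 160, nat_lit 0, nat_lit 0, nat_lit 0, nat_lit 0⟩
theorem d_V_900_400_10_8 (h : EB TB.env) : Dead b_V_900_400_10_8 := chkB_sound0 h (T :=
(.st (nat_lit 0)
(.gv
(.st (nat_lit 1)
(.spl (nat_lit 2) (nat_lit 160)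
(.leaf p103_l23)
(.spl (nat_lit 4) (nat_lit 80)
(.leaf p103_l24)
(.leaf p103_l25)))
(.spl (nat_lit 2) (nat_lit 160)
(.leaf p103_l26)
(.spl (nat_lit 4) (nat_lit 80)
(.leaf p103_l27)
(.leaf p103_l28))))
(.leaf p103_l29))
(.gv
(.st (nat_lit 1)
(.spl (nat_lit 0) (nat_lit 380)
(.spl (nat_lit 6) (nat_lit 124)
(.spl (nat_lit 3) (nat_lit 60)
(.trX (nat_lit 16) (nat_lit 61) (nat_lit 100) (nat_lit 72) (nat_lit 176) (.trX (nat_lit 19) (nat_lit 100) (nat_lit 55) (nat_lit 73) (nat_lit 368) (.leaf p103_l30)))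
(.leaf p103_l31))
(.leaf p103_l32))
(.trZ (nat_lit 0) (nat_lit 100) (nat_lit 44) (nat_lit 81) (nat_lit 76) (.trX (nat_lit 13) (nat_lit 44) (nat_lit 90) (nat_lit 100) (nat_lit 288) (.trX (nat_lit 16) (nat_lit 44) (nat_lit 100) (nat_lit 82) (nat_lit 164) (.spl (nat_lit 4) (nat_lit 80)
(.spl (nat_lit 0) (nat_lit 390)
(.leaf p103_l33)
(.trZ (nat_lit 0) (nat_lit 100) (nat_lit 32) (nat_lit 89) (nat_lit 100) (.trX (nat_lit 13) (nat_lit 31) (nat_lit 95) (nat_lit 100) (nat_lit 264) (.trZ (nat_lit 3) (nat_lit 100) (nat_lit 52) (nat_lit 53) (nat_lit 8) (.leaf p103_l34)))))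
(.leaf p103_l35))))))
(.spl (nat_lit 0) (nat_lit 380)
(.spl (nat_lit 6) (nat_lit 124)
(.spl (nat_lit 3) (nat_lit 60)
(.trX (nat_lit 16) (nat_lit 61) (nat_lit 100) (nat_lit 72) (nat_lit 176) (.trX (nat_lit 19) (nat_lit 100) (nat_lit 55) (nat_lit 73) (nat_lit 368) (.leaf p103_l36)))
(.leaf p103_l37))
(.leaf p103_l38))
(.trZ (nat_lit 0) (nat_lit 100) (nat_lit 44) (nat_lit 81) (nat_lit 76) (.trX (nat_lit 13) (nat_lit 44) (nat_lit 90) (nat_lit 100) (nat_lit 288) (.trX (nat_lit 16) (nat_lit 44) (nat_lit 100) (nat_lit 82) (nat_lit 164) (.spl (nat_lit 0) (nat_lit 390)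
(.leaf p103_l39)
(.trZ (nat_lit 0) (nat_lit 100) (nat_lit 32) (nat_lit 89) (nat_lit 100) (.trX (nat_lit 13) (nat_lit 31) (nat_lit 95) (nat_lit 100) (nat_lit 264) (.trZ (nat_lit 3) (nat_lit 100) (nat_lit 52) (nat_lit 53) (nat_lit 8) (.trX (nat_lit 16) (nat_lit 33) (nat_lit 100) (nat_lit 84) (nat_lit 136) (.leaf p103_l40)))))))))))
(.leaf p103_l41)))) (by decide +kernel)
noncomputable def p103_l42 : Lf2 := ⟨nat_lit 0, nat_lit 10, [nat_lit 0, nat_lit 5, nat_lit 5, nat_lit 20], false, nat_lit 8, nat_lit 160, nat_lit 0, nat_lit 396, ⟨nat_lit 159, nat_lit 0, nat_lit 841, nat_lit 4, nat_lit 182, nat_lit 841, nat_lit 70, nat_lit 841, nat_lit 45067, nat_lit 267, nat_lit 94468, nat_lit 200, nat_lit 52886553, nat_lit 0, nat_lit 0, nat_lit 3237450, false, true⟩,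
 nat_lit 0, nat_lit 0, nat_lit 0, nat_lit 0, nat_lit 2185, nat_lit 1969, nat_lit 0, nat_lit 0, nat_lit 0, nat_lit 127, nat_lit 0, nat_lit 0, nat_lit 0, nat_lit 0, nat_lit 12, nat_lit 210250, nat_lit 0, nat_lit 0, [(nat_lit 24, [(nat_lit 4, nat_lit 841)])],
 ⟨p103_k11, nat_lit 0, nat_lit 0, nat_lit 165, nat_lit 0, nat_lit 0, [nat_lit 808044400, nat_lit 304880800, nat_lit 48813800], [], [nat_lit 18268340564, nat_lit 20071982103, nat_lit 25163108856, nat_lit 26242412430, nat_lit 19239560749, nat_lit 20416384990, nat_lit 25722103460, nat_lit 26666154560], nat_lit 0, nat_lit 0, nat_lit 0, nat_lit 0, nat_lit 0, nat_lit 0, [], [nat_lit 35, nat_lit 40, nat_lit 40, nat_lit 80, nat_lit 22, nat_lit 345, nat_lit 125, nat_lit 16]⟩, ⟨p103_k12, nat_lit 0, nat_lit 0, nat_lit 431, nat_lit 0, nat_lit 0, [nat_lit 1266912000, nat_lit 1887648000, nat_lit 2235222000], [], [nat_lit 7791287317, nat_lit 7797702787, nat_lit 7479256189,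 nat_lit 7372621805, nat_lit 7306236259, nat_lit 7160661765, nat_lit 6366098897, nat_lit 6198549385], nat_lit 0, nat_lit 0, nat_lit 0, nat_lit 0, nat_lit 0, nat_lit 0, [], [nat_lit 62, nat_lit 40, nat_lit 40, nat_lit 80, nat_lit 58, nat_lit 483, nat_lit 250, nat_lit 12]⟩,
 ⟨nat_lit 2236, nat_lit 3163, ⟨.ofNat (nat_lit 223799), .ofNat (nat_lit 638549), .ofNat (nat_lit 267982), .ofNat (nat_lit 682859), .ofNat (nat_lit 237524), .ofNat (nat_lit 625497), .ofNat (nat_lit 282946), .ofNat (nat_lit 671045)⟩, ⟨.ofNat (nat_lit 20000), .ofNat (nat_lit 306116), .ofNat (nat_lit 20000), .ofNat (nat_lit 350426), .ofNat (nat_lit 20000), .ofNat (nat_lit 306337), .ofNat (nat_lit 20000), .ofNat (nat_lit 351886)⟩⟩, [⟨nat_lit 3, nat_lit 100, nat_lit 61, nat_lit 55, nat_lit 29633994⟩, ⟨nat_lit 22, nat_lit 100, nat_lit 51, nat_lit 82, nat_lit 21507512⟩]⟩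
noncomputable def p103_l43 : Lf2 := ⟨nat_lit 0, nat_lit 10, [nat_lit 0, nat_lit 5, nat_lit 5, nat_lit 20], true, nat_lit 20, nat_lit 160, nat_lit 0, nat_lit 396, ⟨nat_lit 0, nat_lit 784, nat_lit 216, nat_lit 4, nat_lit 180, nat_lit 1000, nat_lit 75, nat_lit 216, nat_lit 54150, nat_lit 272, nat_lit 4626, nat_lit 204, nat_lit 52723054, nat_lit 11311329, nat_lit 2965617, nat_lit 3301916, false, true⟩,
 nat_lit 0, nat_lit 0, nat_lit 0, nat_lit 0, nat_lit 2282, nat_lit 0, nat_lit 0, nat_lit 0, nat_lit 0, nat_lit 0, nat_lit 0, nat_lit 0, nat_lit 0, nat_lit 0, nat_lit 0, nat_lit 282400, nat_lit 0, nat_lit 0, [(nat_lit 27, [(nat_lit 0, nat_lit 784), (nat_lit 5, nat_lit 216)])],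
 ⟨p103_k13, nat_lit 0, nat_lit 0, nat_lit 129, nat_lit 0, nat_lit 0, [nat_lit 740192001, nat_lit 433766400], [], [nat_lit 19772419570, nat_lit 21561124715, nat_lit 24707374776, nat_lit 25985769589, nat_lit 20540099720, nat_lit 21817491676, nat_lit 25313989906, nat_lit 26275609636], nat_lit 0, nat_lit 0, nat_lit 0, nat_lit 0, nat_lit 0, nat_lit 0, [], [nat_lit 66, nat_lit 40, nat_lit 40, nat_lit 80, nat_lit 67, nat_lit 345, nat_lit 125, nat_lit 21]⟩, C1.Rw.none,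
 ⟨nat_lit 0, nat_lit 2237, ⟨.ofNat (nat_lit 273845), .ofNat (nat_lit 579878), .ofNat (nat_lit 317541), .ofNat (nat_lit 625429), .ofNat (nat_lit 291142), .ofNat (nat_lit 559993), .ofNat (nat_lit 339289), .ofNat (nat_lit 609995)⟩, ⟨.ofNat (nat_lit 50000), .ofNat (nat_lit 306334), .ofNat (nat_lit 50000), .ofNat (nat_lit 351885), .ofNat (nat_lit 50000), .ofNat (nat_lit 299996), .ofNat (nat_lit 50000), .ofNat (nat_lit 349998)⟩⟩, [⟨nat_lit 13, nat_lit 44, nat_lit 90, nat_lit 100, nat_lit 144102633⟩, ⟨nat_lit 3, nat_lit 100, nat_lit 54, nat_lit 57, nat_lit 135758136⟩]⟩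
noncomputable def p103_l44 : Lf2 := ⟨nat_lit 0, nat_lit 10, [nat_lit 0, nat_lit 5, nat_lit 5, nat_lit 20], true, nat_lit 160, nat_lit 248, nat_lit 0, nat_lit 396, ⟨nat_lit 0, nat_lit 1000, nat_lit 0, nat_lit 4, nat_lit 180, nat_lit 1000, nat_lit 155, nat_lit 0, nat_lit 0, nat_lit 0, nat_lit 0, nat_lit 0, nat_lit 47299321, nat_lit 10996360, nat_lit 8704319, nat_lit 4332228, false, true⟩,
 nat_lit 0, nat_lit 0, nat_lit 0, nat_lit 0, nat_lit 3420, nat_lit 0, nat_lit 0, nat_lit 0, nat_lit 0, nat_lit 0, nat_lit 0, nat_lit 0, nat_lit 0, nat_lit 0, nat_lit 0, nat_lit 250000, nat_lit 0, nat_lit 0, [(nat_lit 24, [(nat_lit 0, nat_lit 1000)]), (nat_lit 27, [(nat_lit 0, nat_lit 1000)])],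
 ⟨p103_k11, nat_lit 0, nat_lit 0, nat_lit 105, nat_lit 0, nat_lit 0, [nat_lit 780800001, nat_lit 1367200000, nat_lit 1705600000], [], [nat_lit 20143261088, nat_lit 23324086720, nat_lit 25847826320, nat_lit 28184936480, nat_lit 22773508069, nat_lit 25782674978, nat_lit 27559611896, nat_lit 29729913312], nat_lit 0, nat_lit 0, nat_lit 0, nat_lit 0, nat_lit 0, nat_lit 0, [], [nat_lit 35, nat_lit 40, nat_lit 40, nat_lit 80, nat_lit 22, nat_lit 317, nat_lit 100, nat_lit 14]⟩, C1.Rw.none,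
 ⟨nat_lit 0, nat_lit 3163, ⟨.ofNat (nat_lit 216927), .ofNat (nat_lit 638543), .ofNat (nat_lit 258627), .ofNat (nat_lit 682855), .ofNat (nat_lit 252860), .ofNat (nat_lit 599993), .ofNat (nat_lit 300250), .ofNat (nat_lit 649995)⟩, ⟨.ofNat (nat_lit 306113), .ofNat (nat_lit 440207), .ofNat (nat_lit 350425), .ofNat (nat_lit 484518), .ofNat (nat_lit 299996), .ofNat (nat_lit 409993), .ofNat (nat_lit 349998), .ofNat (nat_lit 459993)⟩⟩, [⟨nat_lit 13, nat_lit 60, nat_lit 80, nat_lit 100, nat_lit 36026206⟩, ⟨nat_lit 16, nat_lit 62, nat_lit 100, nat_lit 94, nat_lit 166375437⟩]⟩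
noncomputable def p103_l45 : Lf2 := ⟨nat_lit 0, nat_lit 10, [nat_lit 0, nat_lit 5, nat_lit 5, nat_lit 20], true, nat_lit 8, nat_lit 80, nat_lit 0, nat_lit 396, ⟨nat_lit 0, nat_lit 0, nat_lit 1000, nat_lit 4, nat_lit 135, nat_lit 1000, nat_lit 43, nat_lit 1000, nat_lit 17067, nat_lit 247, nat_lit 173400, nat_lit 317, nat_lit 58709764, nat_lit 0, nat_lit 0, nat_lit 2216419, false, false⟩,
 nat_lit 0, nat_lit 0, nat_lit 0, nat_lit 0, nat_lit 2192, nat_lit 0, nat_lit 0, nat_lit 0, nat_lit 0, nat_lit 0, nat_lit 0, nat_lit 0, nat_lit 0, nat_lit 0, nat_lit 67, nat_lit 250000, nat_lit 0, nat_lit 0, [(nat_lit 24, [(nat_lit 4, nat_lit 1000)]), (nat_lit 27, [(nat_lit 4, nat_lit 1000)])],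
 ⟨p103_k11, nat_lit 0, nat_lit 0, nat_lit 180, nat_lit 0, nat_lit 0, [nat_lit 1029600001, nat_lit 374800000, nat_lit 22800000], [], [nat_lit 18286818875, nat_lit 21899402806, nat_lit 19696921485, nat_lit 22497259085, nat_lit 17993181683, nat_lit 20998564531, nat_lit 19624983462, nat_lit 22267683110], nat_lit 0, nat_lit 0, nat_lit 0, nat_lit 0, nat_lit 0, nat_lit 0, [], [nat_lit 35, nat_lit 40, nat_lit 40, nat_lit 80, nat_lit 22, nat_lit 272, nat_lit 60, nat_lit 12]⟩, C1.Rw.none,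
 ⟨nat_lit 0, nat_lit 3163, ⟨.ofNat (nat_lit 216927), .ofNat (nat_lit 394735), .ofNat (nat_lit 258627), .ofNat (nat_lit 436481), .ofNat (nat_lit 252860), .ofNat (nat_lit 399999), .ofNat (nat_lit 300250), .ofNat (nat_lit 447434)⟩, ⟨.ofNat (nat_lit 20000), .ofNat (nat_lit 184209), .ofNat (nat_lit 20000), .ofNat (nat_lit 200000), .ofNat (nat_lit 20000), .ofNat (nat_lit 199999), .ofNat (nat_lit 20000), .ofNat (nat_lit 200000)⟩⟩, [⟨nat_lit 3, nat_lit 100, nat_lit 75, nat_lit 35, nat_lit 170712843⟩]⟩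
noncomputable def p103_l46 : Lf2 := ⟨nat_lit 0, nat_lit 10, [nat_lit 0, nat_lit 5, nat_lit 5, nat_lit 20], true, nat_lit 8, nat_lit 80, nat_lit 0, nat_lit 384, ⟨nat_lit 0, nat_lit 1000, nat_lit 0, nat_lit 4, nat_lit 213, nat_lit 1000, nat_lit 43, nat_lit 0, nat_lit 0, nat_lit 0, nat_lit 0, nat_lit 0, nat_lit 51039569, nat_lit 14688325, nat_lit 1272106, nat_lit 3178659, false, true⟩,
 nat_lit 0, nat_lit 0, nat_lit 0, nat_lit 0, nat_lit 2697, nat_lit 0, nat_lit 0, nat_lit 0, nat_lit 0, nat_lit 0, nat_lit 0, nat_lit 0, nat_lit 0, nat_lit 0, nat_lit 0, nat_lit 400000, nat_lit 0, nat_lit 0, [(nat_lit 24, [(nat_lit 1, nat_lit 1000)]), (nat_lit 27, [(nat_lit 1, nat_lit 1000)])],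
 ⟨p103_k11, nat_lit 0, nat_lit 0, nat_lit 145, nat_lit 0, nat_lit 0, [nat_lit 848000000, nat_lit 997333334, nat_lit 954400000], [], [nat_lit 20836883162, nat_lit 23440012111, nat_lit 26069881811, nat_lit 28636669005, nat_lit 20422511930, nat_lit 22881399902, nat_lit 25455126306, nat_lit 27331139738], nat_lit 0, nat_lit 0, nat_lit 0, nat_lit 0, nat_lit 0, nat_lit 0, [], [nat_lit 35, nat_lit 40, nat_lit 40, nat_lit 80, nat_lit 22, nat_lit 226, nat_lit 20, nat_lit 9]⟩, C1.Rw.none,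
 ⟨nat_lit 0, nat_lit 3163, ⟨.ofNat (nat_lit 394735), .ofNat (nat_lit 638543), .ofNat (nat_lit 436481), .ofNat (nat_lit 682855), .ofNat (nat_lit 399999), .ofNat (nat_lit 599993), .ofNat (nat_lit 447434), .ofNat (nat_lit 649995)⟩, ⟨.ofNat (nat_lit 20000), .ofNat (nat_lit 184209), .ofNat (nat_lit 20000), .ofNat (nat_lit 200000), .ofNat (nat_lit 20000), .ofNat (nat_lit 199999), .ofNat (nat_lit 20000), .ofNat (nat_lit 200000)⟩⟩, [⟨nat_lit 13, nat_lit 60, nat_lit 80, nat_lit 100, nat_lit 189938616⟩, ⟨nat_lit 3, nat_lit 100, nat_lit 75, nat_lit 35, nat_lit 218195737⟩]⟩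
noncomputable def p103_l47 : Lf2 := ⟨nat_lit 0, nat_lit 10, [nat_lit 0, nat_lit 5, nat_lit 5, nat_lit 20], true, nat_lit 80, nat_lit 160, nat_lit 0, nat_lit 396, ⟨nat_lit 0, nat_lit 620, nat_lit 380, nat_lit 4, nat_lit 180, nat_lit 1000, nat_lit 105, nat_lit 380, nat_lit 101400, nat_lit 293, nat_lit 94460, nat_lit 200, nat_lit 50884796, nat_lit 11263951, nat_lit 4851253, nat_lit 3716199, false, true⟩,
 nat_lit 0, nat_lit 0, nat_lit 0, nat_lit 0, nat_lit 2686, nat_lit 0, nat_lit 0, nat_lit 0, nat_lit 0, nat_lit 0, nat_lit 0, nat_lit 0, nat_lit 0, nat_lit 0, nat_lit 0, nat_lit 250000, nat_lit 0, nat_lit 0, [(nat_lit 24, [(nat_lit 0, nat_lit 620), (nat_lit 4, nat_lit 380)]), (nat_lit 27, [(nat_lit 0, nat_lit 620), (nat_lit 4, nat_lit 380)])],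
 ⟨p103_k11, nat_lit 0, nat_lit 0, nat_lit 124, nat_lit 0, nat_lit 0, [nat_lit 773504001, nat_lit 684568000, nat_lit 656792000], [], [nat_lit 18210169939, nat_lit 21527499912, nat_lit 24508524248, nat_lit 26972315976, nat_lit 19373006870, nat_lit 22012328896, nat_lit 25169403898, nat_lit 27259550384], nat_lit 0, nat_lit 0, nat_lit 0, nat_lit 0, nat_lit 0, nat_lit 0, [], [nat_lit 35, nat_lit 40, nat_lit 40, nat_lit 80, nat_lit 22, nat_lit 345, nat_lit 125, nat_lit 16]⟩, C1.Rw.none,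
 ⟨nat_lit 0, nat_lit 3163, ⟨.ofNat (nat_lit 216927), .ofNat (nat_lit 638543), .ofNat (nat_lit 258627), .ofNat (nat_lit 682855), .ofNat (nat_lit 252860), .ofNat (nat_lit 599993), .ofNat (nat_lit 300250), .ofNat (nat_lit 649995)⟩, ⟨.ofNat (nat_lit 184209), .ofNat (nat_lit 306113), .ofNat (nat_lit 200000), .ofNat (nat_lit 350425), .ofNat (nat_lit 199999), .ofNat (nat_lit 299996), .ofNat (nat_lit 200000), .ofNat (nat_lit 349998)⟩⟩, [⟨nat_lit 13, nat_lit 44, nat_lit 94, nat_lit 100, nat_lit 21588194⟩, ⟨nat_lit 13, nat_lit 60, nat_lit 80, nat_lit 100, nat_lit 91837357⟩]⟩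
noncomputable def p103_l48 : Lf2 := ⟨nat_lit 0, nat_lit 10, [nat_lit 0, nat_lit 5, nat_lit 5, nat_lit 20], true, nat_lit 160, nat_lit 248, nat_lit 0, nat_lit 396, ⟨nat_lit 0, nat_lit 1000, nat_lit 0, nat_lit 4, nat_lit 180, nat_lit 1000, nat_lit 155, nat_lit 0, nat_lit 0, nat_lit 0, nat_lit 0, nat_lit 0, nat_lit 47299321, nat_lit 10996360, nat_lit 8704319, nat_lit 4332228, false, true⟩,
 nat_lit 0, nat_lit 0, nat_lit 0, nat_lit 0, nat_lit 3420, nat_lit 0, nat_lit 0, nat_lit 0, nat_lit 0, nat_lit 0, nat_lit 0, nat_lit 0, nat_lit 0, nat_lit 0, nat_lit 0, nat_lit 250000, nat_lit 0, nat_lit 0, [(nat_lit 24, [(nat_lit 0, nat_lit 1000)]), (nat_lit 27, [(nat_lit 0, nat_lit 1000)])],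
 ⟨p103_k11, nat_lit 0, nat_lit 0, nat_lit 105, nat_lit 0, nat_lit 0, [nat_lit 780800001, nat_lit 1367200000, nat_lit 1705600000], [], [nat_lit 20143261088, nat_lit 23324086720, nat_lit 25847826320, nat_lit 28184936480, nat_lit 22773508069, nat_lit 25782674978, nat_lit 27559611896, nat_lit 29729913312], nat_lit 0, nat_lit 0, nat_lit 0, nat_lit 0, nat_lit 0, nat_lit 0, [], [nat_lit 35, nat_lit 40, nat_lit 40, nat_lit 80, nat_lit 22, nat_lit 317, nat_lit 100, nat_lit 14]⟩, C1.Rw.none,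
 ⟨nat_lit 0, nat_lit 3163, ⟨.ofNat (nat_lit 216927), .ofNat (nat_lit 638543), .ofNat (nat_lit 258627), .ofNat (nat_lit 682855), .ofNat (nat_lit 252860), .ofNat (nat_lit 599993), .ofNat (nat_lit 300250), .ofNat (nat_lit 649995)⟩, ⟨.ofNat (nat_lit 306113), .ofNat (nat_lit 440207), .ofNat (nat_lit 350425), .ofNat (nat_lit 484518), .ofNat (nat_lit 299996), .ofNat (nat_lit 409993), .ofNat (nat_lit 349998), .ofNat (nat_lit 459993)⟩⟩, [⟨nat_lit 13, nat_lit 60, nat_lit 80, nat_lit 100, nat_lit 36026206⟩, ⟨nat_lit 16, nat_lit 62, nat_lit 100, nat_lit 94, nat_lit 166375437⟩]⟩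
noncomputable def p103_l49 : Lf2 := ⟨nat_lit 0, nat_lit 10, [nat_lit 0, nat_lit 5, nat_lit 5, nat_lit 20], true, nat_lit 8, nat_lit 248, nat_lit 0, nat_lit 396, ⟨nat_lit 0, nat_lit 1000, nat_lit 0, nat_lit 4, nat_lit 180, nat_lit 1000, nat_lit 94, nat_lit 0, nat_lit 0, nat_lit 0, nat_lit 0, nat_lit 0, nat_lit 0, nat_lit 0, nat_lit 0, nat_lit 5000000, false, true⟩,
 nat_lit 0, nat_lit 0, nat_lit 0, nat_lit 0, nat_lit 3420, nat_lit 0, nat_lit 0, nat_lit 0, nat_lit 0, nat_lit 0, nat_lit 0, nat_lit 0, nat_lit 0, nat_lit 0, nat_lit 0, nat_lit 250000, nat_lit 0, nat_lit 0, [(nat_lit 24, [(nat_lit 0, nat_lit 1000)]), (nat_lit 27, [(nat_lit 0, nat_lit 1000)])],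
 ⟨p103_k11, nat_lit 0, nat_lit 0, nat_lit 180, nat_lit 0, nat_lit 0, [nat_lit 780800001, nat_lit 1367200000, nat_lit 1705600000], [], [nat_lit 21528442583, nat_lit 26070947492, nat_lit 27722984656, nat_lit 30582646641, nat_lit 23158505124, nat_lit 25782674978, nat_lit 27559611896, nat_lit 29729913312], nat_lit 0, nat_lit 0, nat_lit 0, nat_lit 0, nat_lit 0, nat_lit 0, [], [nat_lit 35, nat_lit 40, nat_lit 40, nat_lit 80, nat_lit 22, nat_lit 373, nat_lit 150, nat_lit 18]⟩, C1.Rw.none,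
 ⟨nat_lit 0, nat_lit 3163, ⟨.ofNat (nat_lit 216927), .ofNat (nat_lit 638543), .ofNat (nat_lit 258627), .ofNat (nat_lit 682855), .ofNat (nat_lit 252860), .ofNat (nat_lit 599993), .ofNat (nat_lit 300250), .ofNat (nat_lit 649995)⟩, ⟨.ofNat (nat_lit 20000), .ofNat (nat_lit 440207), .ofNat (nat_lit 20000), .ofNat (nat_lit 484518), .ofNat (nat_lit 20000), .ofNat (nat_lit 409993), .ofNat (nat_lit 20000), .ofNat (nat_lit 459993)⟩⟩, [⟨nat_lit 13, nat_lit 60, nat_lit 80, nat_lit 100, nat_lit 220178347⟩, ⟨nat_lit 16, nat_lit 62, nat_lit 100, nat_lit 94, nat_lit 81991353⟩]⟩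
noncomputable def b_V_900_400_20_0 : St := ⟨true, nat_lit 0, nat_lit 2, nat_lit 0, nat_lit 120, nat_lit 360, nat_lit 400, nat_lit 160, nat_lit 200, nat_lit 48, nat_lit 320, nat_lit 80, nat_lit 120, nat_lit 8, nat_lit 248, nat_lit 0, nat_lit 396, nat_lit 0, nat_lit 40, nat_lit 0, nat_lit 0, nat_lit 0, nat_lit 0⟩
theorem d_V_900_400_20_0 (h : EB TB.env) : Dead b_V_900_400_20_0 := chkB_sound0 h (T :=
(.gv
(.st (nat_lit 1)
(.spl (nat_lit 4) (nat_lit 160)
(.spl (nat_lit 0) (nat_lit 380)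
(.leaf p103_l42)
(.trZ (nat_lit 0) (nat_lit 100) (nat_lit 44) (nat_lit 81) (nat_lit 76) (.trX (nat_lit 13) (nat_lit 44) (nat_lit 90) (nat_lit 100) (nat_lit 288) (.trZ (nat_lit 3) (nat_lit 100) (nat_lit 54) (nat_lit 57) (nat_lit 20) (.leaf p103_l43)))))
(.leaf p103_l44))
(.spl (nat_lit 4) (nat_lit 160)
(.spl (nat_lit 4) (nat_lit 80)
(.spl (nat_lit 2) (nat_lit 160)
(.leaf p103_l45)
(.trX (nat_lit 22) (nat_lit 100) (nat_lit 44) (nat_lit 82) (nat_lit 384) (.leaf p103_l46)))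
(.leaf p103_l47))
(.leaf p103_l48)))
(.leaf p103_l49))) (by decide +kernel)
noncomputable def p103_l50 : Lf2 := ⟨nat_lit 0, nat_lit 10, [nat_lit 0, nat_lit 5, nat_lit 5, nat_lit 20], true, nat_lit 8, nat_lit 160, nat_lit 0, nat_lit 396, ⟨nat_lit 0, nat_lit 0, nat_lit 1000, nat_lit 4, nat_lit 134, nat_lit 1000, nat_lit 70, nat_lit 1000, nat_lit 45067, nat_lit 267, nat_lit 170017, nat_lit 316, nat_lit 57332409, nat_lit 0, nat_lit 0, nat_lit 2615863, false, false⟩,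
 nat_lit 0, nat_lit 3060, nat_lit 0, nat_lit 0, nat_lit 2665, nat_lit 0, nat_lit 0, nat_lit 0, nat_lit 0, nat_lit 0, nat_lit 0, nat_lit 0, nat_lit 0, nat_lit 0, nat_lit 69, nat_lit 250000, nat_lit 0, nat_lit 0, [(nat_lit 24, [(nat_lit 4, nat_lit 1000)])],
 ⟨p103_k11, nat_lit 0, nat_lit 0, nat_lit 412, nat_lit 0, nat_lit 751868, [nat_lit 1002400001, nat_lit 398800001, nat_lit 54799999], [], [nat_lit 19535424749, nat_lit 21520809802, nat_lit 21155968457, nat_lit 22441303462, nat_lit 21028530012, nat_lit 22273978950, nat_lit 22545275472, nat_lit 23642786292], nat_lit 1271250, nat_lit 1271250, nat_lit 279600, nat_lit 1100001, nat_lit 43600, nat_lit 1100001, [nat_lit 230000, nat_lit 780000, nat_lit 1100000], [nat_lit 35, nat_lit 40, nat_lit 40, nat_lit 80, nat_lit 22, nat_lit 317, nat_lit 100, nat_lit 15]⟩, C1.Rw.none,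
 ⟨nat_lit 2236, nat_lit 3163, ⟨.ofNat (nat_lit 223799), .ofNat (nat_lit 394735), .ofNat (nat_lit 267982), .ofNat (nat_lit 438942), .ofNat (nat_lit 237524), .ofNat (nat_lit 397434), .ofNat (nat_lit 282946), .ofNat (nat_lit 442880)⟩, ⟨.ofNat (nat_lit 20000), .ofNat (nat_lit 306116), .ofNat (nat_lit 20000), .ofNat (nat_lit 350426), .ofNat (nat_lit 20000), .ofNat (nat_lit 306337), .ofNat (nat_lit 20000), .ofNat (nat_lit 351886)⟩⟩, [⟨nat_lit 3, nat_lit 100, nat_lit 48, nat_lit 71, nat_lit 54222191⟩]⟩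
noncomputable def p103_l51 : Lf2 := ⟨nat_lit 0, nat_lit 10, [nat_lit 0, nat_lit 5, nat_lit 5, nat_lit 20], false, nat_lit 8, nat_lit 80, nat_lit 0, nat_lit 384, ⟨nat_lit 246, nat_lit 0, nat_lit 754, nat_lit 4, nat_lit 191, nat_lit 754, nat_lit 43, nat_lit 754, nat_lit 17067, nat_lit 247, nat_lit 2400, nat_lit 227, nat_lit 53288177, nat_lit 0, nat_lit 0, nat_lit 2946428, false, true⟩,
 nat_lit 0, nat_lit 3400, nat_lit 0, nat_lit 0, nat_lit 2961, nat_lit 4452, nat_lit 0, nat_lit 0, nat_lit 0, nat_lit 499, nat_lit 0, nat_lit 0, nat_lit 0, nat_lit 0, nat_lit 15, nat_lit 301600, nat_lit 0, nat_lit 0, [(nat_lit 24, [(nat_lit 5, nat_lit 754)])],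
 ⟨p103_k11, nat_lit 0, nat_lit 0, nat_lit 364, nat_lit 0, nat_lit 751868, [nat_lit 840263200, nat_lit 403675467, nat_lit 4681600], [], [nat_lit 20865132496, nat_lit 22104854709, nat_lit 23151612512, nat_lit 24422382698, nat_lit 20826589675, nat_lit 21990603147, nat_lit 22993260532, nat_lit 24113362358], nat_lit 1271250, nat_lit 1271250, nat_lit 1100001, nat_lit 1785000, nat_lit 43600, nat_lit 490000, [nat_lit 230000, nat_lit 780000, nat_lit 1100000], [nat_lit 35, nat_lit 40, nat_lit 40, nat_lit 80, nat_lit 22, nat_lit 226, nat_lit 20, nat_lit 9]⟩, ⟨p103_k12, nat_lit 0, nat_lit 0, nat_lit 278, nat_lit 0, nat_lit 0, [nat_lit 1960128000, nat_lit 2920512000, nat_lit 3458268000], [], [nat_lit 7598856317, nat_lit 7833657917, nat_lit 8453663813, nat_lit 8544669600, nat_lit 8645630904, nat_lit 8453455412, nat_lit 8934107626, nat_lit 8912881268], nat_lit 0, nat_lit 0, nat_lit 0, nat_lit 0, nat_lit 0, nat_lit 0, [],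 [nat_lit 62, nat_lit 40, nat_lit 40, nat_lit 80, nat_lit 58, nat_lit 456, nat_lit 225, nat_lit 11]⟩,
 ⟨nat_lit 2236, nat_lit 3163, ⟨.ofNat (nat_lit 394735), .ofNat (nat_lit 516642), .ofNat (nat_lit 438942), .ofNat (nat_lit 560952), .ofNat (nat_lit 397434), .ofNat (nat_lit 511466), .ofNat (nat_lit 442880), .ofNat (nat_lit 557014)⟩, ⟨.ofNat (nat_lit 20000), .ofNat (nat_lit 184209), .ofNat (nat_lit 20000), .ofNat (nat_lit 200000), .ofNat (nat_lit 20000), .ofNat (nat_lit 192306), .ofNat (nat_lit 20000), .ofNat (nat_lit 200000)⟩⟩, [⟨nat_lit 22, nat_lit 100, nat_lit 78, nat_lit 63, nat_lit 88413522⟩]⟩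
noncomputable def p103_l52 : Lf2 := ⟨nat_lit 0, nat_lit 10, [nat_lit 0, nat_lit 5, nat_lit 5, nat_lit 20], false, nat_lit 80, nat_lit 160, nat_lit 0, nat_lit 396, ⟨nat_lit 177, nat_lit 259, nat_lit 564, nat_lit 4, nat_lit 191, nat_lit 823, nat_lit 105, nat_lit 563, nat_lit 101400, nat_lit 293, nat_lit 2400, nat_lit 227, nat_lit 49861318, nat_lit 12309827, nat_lit 4828855, nat_lit 3831672, false, true⟩,
 nat_lit 0, nat_lit 3656, nat_lit 0, nat_lit 0, nat_lit 3183, nat_lit 2655, nat_lit 9, nat_lit 0, nat_lit 0, nat_lit 319, nat_lit 0, nat_lit 0, nat_lit 0, nat_lit 0, nat_lit 0, nat_lit 290350, nat_lit 0, nat_lit 0, [(nat_lit 24, [(nat_lit 0, nat_lit 259), (nat_lit 5, nat_lit 564)])],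
 ⟨p103_k11, nat_lit 0, nat_lit 0, nat_lit 321, nat_lit 0, nat_lit 751868, [nat_lit 774738001, nat_lit 498407600, nat_lit 232864000], [], [nat_lit 19390436026, nat_lit 20556379848, nat_lit 21418376898, nat_lit 22923060984, nat_lit 20405856650, nat_lit 21460886613, nat_lit 22353822381, nat_lit 23384189604], nat_lit 1271250, nat_lit 1271250, nat_lit 1100001, nat_lit 1785000, nat_lit 490000, nat_lit 1100001, [nat_lit 230000, nat_lit 780000, nat_lit 1100000], [nat_lit 35, nat_lit 40, nat_lit 40, nat_lit 80, nat_lit 22, nat_lit 249, nat_lit 40, nat_lit 10]⟩, ⟨p103_k12, nat_lit 0, nat_lit 0, nat_lit 278, nat_lit 0, nat_lit 0, [nat_lit 1410336000, nat_lit 2101344000, nat_lit 2488266000], [], [nat_lit 5392123001, nat_lit 5564493389, nat_lit 5968597841, nat_lit 6052428624, nat_lit 6572929445, nat_lit 6462683508, nat_lit 6508694622, nat_lit 6361665537], nat_lit 0, nat_lit 0, nat_lit 0, nat_lit 0, nat_lit 0, nat_lit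 0, [], [nat_lit 62, nat_lit 40, nat_lit 40, nat_lit 80, nat_lit 58, nat_lit 456, nat_lit 225, nat_lit 11]⟩,
 ⟨nat_lit 2236, nat_lit 3163, ⟨.ofNat (nat_lit 394735), .ofNat (nat_lit 516642), .ofNat (nat_lit 438942), .ofNat (nat_lit 560952), .ofNat (nat_lit 397434), .ofNat (nat_lit 511466), .ofNat (nat_lit 442880), .ofNat (nat_lit 557014)⟩, ⟨.ofNat (nat_lit 184209), .ofNat (nat_lit 306116), .ofNat (nat_lit 200000), .ofNat (nat_lit 350426), .ofNat (nat_lit 192306), .ofNat (nat_lit 306337), .ofNat (nat_lit 200000), .ofNat (nat_lit 351886)⟩⟩, [⟨nat_lit 7, nat_lit 41, nat_lit 100, nat_lit 87, nat_lit 46051652⟩]⟩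
noncomputable def p103_l53 : Lf2 := ⟨nat_lit 0, nat_lit 10, [nat_lit 0, nat_lit 5, nat_lit 5, nat_lit 20], false, nat_lit 8, nat_lit 160, nat_lit 0, nat_lit 384, ⟨nat_lit 421, nat_lit 0, nat_lit 579, nat_lit 6, nat_lit 240, nat_lit 579, nat_lit 70, nat_lit 579, nat_lit 45067, nat_lit 267, nat_lit 94468, nat_lit 200, nat_lit 47085205, nat_lit 0, nat_lit 0, nat_lit 3781803, false, true⟩,
 nat_lit 0, nat_lit 3738, nat_lit 0, nat_lit 0, nat_lit 3255, nat_lit 5723, nat_lit 97, nat_lit 0, nat_lit 0, nat_lit 634, nat_lit 0, nat_lit 0, nat_lit 0, nat_lit 0, nat_lit 0, nat_lit 231600, nat_lit 0, nat_lit 0, [(nat_lit 24, [(nat_lit 5, nat_lit 579)])],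
 ⟨p103_k11, nat_lit 0, nat_lit 0, nat_lit 313, nat_lit 0, nat_lit 602517, [nat_lit 816873200, nat_lit 933498800, nat_lit 907361600], [], [nat_lit 23368518746, nat_lit 23788722735, nat_lit 27345666484, nat_lit 27694776156, nat_lit 22918718195, nat_lit 23159644385, nat_lit 25613336920, nat_lit 25838040755], nat_lit 1271250, nat_lit 1271250, nat_lit 1271250, nat_lit 1271250, nat_lit 43600, nat_lit 1100001, [nat_lit 230000, nat_lit 780000, nat_lit 1100000], [nat_lit 35, nat_lit 40, nat_lit 40, nat_lit 80, nat_lit 22, nat_lit 249, nat_lit 40, nat_lit 10]⟩, ⟨p103_k12, nat_lit 0, nat_lit 0, nat_lit 300, nat_lit 0, nat_lit 0, [nat_lit 3354528000, nat_lit 4998112000, nat_lit 5918418000], [], [nat_lit 14484411398, nat_lit 14703123306, nat_lit 17490457406, nat_lit 17611698376, nat_lit 15105288814, nat_lit 14844026740, nat_lit 16310542923, nat_lit 16139121176], nat_lit 0, nat_lit 0, nat_lit 0, nat_lit 0, nat_lit 0, nat_lit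 0, [], [nat_lit 62, nat_lit 40, nat_lit 40, nat_lit 80, nat_lit 58, nat_lit 483, nat_lit 250, nat_lit 11]⟩,
 ⟨nat_lit 2958, nat_lit 3163, ⟨.ofNat (nat_lit 516642), .ofNat (nat_lit 638549), .ofNat (nat_lit 560952), .ofNat (nat_lit 682859), .ofNat (nat_lit 515465), .ofNat (nat_lit 635507), .ofNat (nat_lit 560020), .ofNat (nat_lit 680062)⟩, ⟨.ofNat (nat_lit 20000), .ofNat (nat_lit 306116), .ofNat (nat_lit 20000), .ofNat (nat_lit 350426), .ofNat (nat_lit 20000), .ofNat (nat_lit 306315), .ofNat (nat_lit 20000), .ofNat (nat_lit 350869)⟩⟩, [⟨nat_lit 13, nat_lit 58, nat_lit 94, nat_lit 100, nat_lit 45910083⟩, ⟨nat_lit 22, nat_lit 100, nat_lit 94, nat_lit 89, nat_lit 15072993⟩, ⟨nat_lit 22, nat_lit 100, nat_lit 40, nat_lit 100, nat_lit 55864384⟩]⟩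
noncomputable def p103_l54 : Lf2 := ⟨nat_lit 0, nat_lit 10, [nat_lit 0, nat_lit 5, nat_lit 5, nat_lit 20], false, nat_lit 8, nat_lit 160, nat_lit 0, nat_lit 384, ⟨nat_lit 511, nat_lit 0, nat_lit 489, nat_lit 6, nat_lit 238, nat_lit 489, nat_lit 70, nat_lit 489, nat_lit 45067, nat_lit 267, nat_lit 76868, nat_lit 200, nat_lit 47283236, nat_lit 0, nat_lit 0, nat_lit 3767916, false, true⟩,
 nat_lit 0, nat_lit 3805, nat_lit 0, nat_lit 0, nat_lit 3373, nat_lit 7015, nat_lit 289, nat_lit 0, nat_lit 0, nat_lit 519, nat_lit 0, nat_lit 0, nat_lit 0, nat_lit 0, nat_lit 0, nat_lit 195600, nat_lit 0, nat_lit 0, [(nat_lit 24, [(nat_lit 5, nat_lit 489)])],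
 ⟨p103_k14, nat_lit 0, nat_lit 0, nat_lit 328, nat_lit 0, nat_lit 636932, [nat_lit 835701200, nat_lit 1298550800, nat_lit 1495025600], [], [nat_lit 24016886278, nat_lit 24444913684, nat_lit 27758766222, nat_lit 28117517946, nat_lit 23332571162, nat_lit 23576928832, nat_lit 25830091939, nat_lit 26076006883], nat_lit 1271250, nat_lit 1271250, nat_lit 1271250, nat_lit 1271250, nat_lit 43600, nat_lit 1100001, [nat_lit 230000, nat_lit 780000, nat_lit 1100000], [nat_lit 35, nat_lit 40, nat_lit 40, nat_lit 80, nat_lit 22, nat_lit 249, nat_lit 40, nat_lit 10]⟩, ⟨p103_k12, nat_lit 0, nat_lit 0, nat_lit 299, nat_lit 0, nat_lit 0, [nat_lit 4071648000, nat_lit 6066592000, nat_lit 7183638000], [], [nat_lit 18883170113, nat_lit 19146185157, nat_lit 22351054431, nat_lit 22292830945, nat_lit 18315630412, nat_lit 17991267770, nat_lit 19693878880, nat_lit 19495177035], nat_lit 0, nat_lit 0, nat_lit 0, nat_lit 0, nat_lit 0,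 nat_lit 0, [], [nat_lit 62, nat_lit 40, nat_lit 40, nat_lit 80, nat_lit 58, nat_lit 456, nat_lit 225, nat_lit 11]⟩,
 ⟨nat_lit 2738, nat_lit 2959, ⟨.ofNat (nat_lit 515465), .ofNat (nat_lit 629505), .ofNat (nat_lit 560020), .ofNat (nat_lit 674059), .ofNat (nat_lit 514225), .ofNat (nat_lit 626442), .ofNat (nat_lit 559060), .ofNat (nat_lit 671276)⟩, ⟨.ofNat (nat_lit 20000), .ofNat (nat_lit 306315), .ofNat (nat_lit 20000), .ofNat (nat_lit 350869), .ofNat (nat_lit 20000), .ofNat (nat_lit 306433), .ofNat (nat_lit 20000), .ofNat (nat_lit 351268)⟩⟩, [⟨nat_lit 22, nat_lit 100, nat_lit 40, nat_lit 100, nat_lit 68167317⟩]⟩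
noncomputable def p103_l55 : Lf2 := ⟨nat_lit 0, nat_lit 10, [nat_lit 0, nat_lit 5, nat_lit 5, nat_lit 20], false, nat_lit 12, nat_lit 160, nat_lit 0, nat_lit 384, ⟨nat_lit 422, nat_lit 506, nat_lit 72, nat_lit 6, nat_lit 234, nat_lit 578, nat_lit 72, nat_lit 72, nat_lit 48600, nat_lit 269, nat_lit 47678, nat_lit 200, nat_lit 47503291, nat_lit 16816825, nat_lit 2679884, nat_lit 3772058, false, true⟩,
 nat_lit 0, nat_lit 3893, nat_lit 0, nat_lit 0, nat_lit 3513, nat_lit 5912, nat_lit 475, nat_lit 0, nat_lit 0, nat_lit 432, nat_lit 0, nat_lit 0, nat_lit 0, nat_lit 0, nat_lit 0, nat_lit 144500, nat_lit 0, nat_lit 0, [(nat_lit 24, [(nat_lit 0, nat_lit 506), (nat_lit 4, nat_lit 72)])],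
 ⟨p103_k15, nat_lit 0, nat_lit 0, nat_lit 336, nat_lit 0, nat_lit 669963, [nat_lit 834316000, nat_lit 2045904800, nat_lit 2762428800], [], [nat_lit 24600217657, nat_lit 25036442967, nat_lit 27896973763, nat_lit 28269646160, nat_lit 23017939284, nat_lit 23265955983, nat_lit 25839001121, nat_lit 26164889693], nat_lit 1271250, nat_lit 1271250, nat_lit 1271250, nat_lit 1271250, nat_lit 65850, nat_lit 1100001, [nat_lit 230000, nat_lit 780000, nat_lit 1100000], [nat_lit 35, nat_lit 40, nat_lit 40, nat_lit 80, nat_lit 22, nat_lit 249, nat_lit 40, nat_lit 10]⟩, ⟨p103_k12, nat_lit 0, nat_lit 0, nat_lit 296, nat_lit 0, nat_lit 0, [nat_lit 3362496000, nat_lit 5009984000, nat_lit 5932476000], [], [nat_lit 15645622696, nat_lit 15858579480, nat_lit 18205643010, nat_lit 18178525476, nat_lit 15093022031, nat_lit 14812592634, nat_lit 16093100662, nat_lit 15944660066], nat_lit 0, nat_lit 0, nat_lit 0, nat_lit 0, nat_lit 0,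 nat_lit 0, [], [nat_lit 62, nat_lit 40, nat_lit 40, nat_lit 80, nat_lit 58, nat_lit 456, nat_lit 225, nat_lit 11]⟩,
 ⟨nat_lit 2500, nat_lit 2739, ⟨.ofNat (nat_lit 514225), .ofNat (nat_lit 614629), .ofNat (nat_lit 559060), .ofNat (nat_lit 659464), .ofNat (nat_lit 512902), .ofNat (nat_lit 611611), .ofNat (nat_lit 558063), .ofNat (nat_lit 656773)⟩, ⟨.ofNat (nat_lit 30000), .ofNat (nat_lit 306433), .ofNat (nat_lit 30000), .ofNat (nat_lit 351268), .ofNat (nat_lit 30000), .ofNat (nat_lit 306450), .ofNat (nat_lit 30000), .ofNat (nat_lit 351611)⟩⟩, [⟨nat_lit 13, nat_lit 49, nat_lit 97, nat_lit 100, nat_lit 42819068⟩, ⟨nat_lit 22, nat_lit 100, nat_lit 90, nat_lit 88, nat_lit 65182038⟩]⟩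
noncomputable def p103_l56 : Lf2 := ⟨nat_lit 0, nat_lit 10, [nat_lit 0, nat_lit 5, nat_lit 5, nat_lit 20], false, nat_lit 16, nat_lit 160, nat_lit 0, nat_lit 384, ⟨nat_lit 375, nat_lit 625, nat_lit 0, nat_lit 6, nat_lit 231, nat_lit 625, nat_lit 74, nat_lit 0, nat_lit 0, nat_lit 0, nat_lit 0, nat_lit 0, nat_lit 47717415, nat_lit 16482283, nat_lit 2800302, nat_lit 3775646, false, true⟩,
 nat_lit 0, nat_lit 3695, nat_lit 0, nat_lit 0, nat_lit 3393, nat_lit 5526, nat_lit 449, nat_lit 0, nat_lit 0, nat_lit 391, nat_lit 0, nat_lit 0, nat_lit 0, nat_lit 0, nat_lit 0, nat_lit 156250, nat_lit 0, nat_lit 0, [(nat_lit 24, [(nat_lit 0, nat_lit 625)])],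
 ⟨p103_k16, nat_lit 0, nat_lit 0, nat_lit 302, nat_lit 0, nat_lit 701715, [nat_lit 828750000, nat_lit 2085250000], [], [nat_lit 24675236517, nat_lit 25102467933, nat_lit 27459124895, nat_lit 27831953825, nat_lit 23293328633, nat_lit 23551035078, nat_lit 25680583212, nat_lit 26007174147], nat_lit 1271250, nat_lit 1271250, nat_lit 1271250, nat_lit 1271250, nat_lit 88400, nat_lit 1100001, [nat_lit 230000, nat_lit 780000], [nat_lit 66, nat_lit 40, nat_lit 40, nat_lit 80, nat_lit 67, nat_lit 249, nat_lit 40, nat_lit 13]⟩, ⟨p103_k12, nat_lit 0, nat_lit 0, nat_lit 293, nat_lit 0, nat_lit 0, [nat_lit 2988000000, nat_lit 4452000000, nat_lit 5271750000], [], [nat_lit 14024133485, nat_lit 14203626413, nat_lit 16061604017, nat_lit 16045848065, nat_lit 13337263496, nat_lit 13059259460, nat_lit 14316566582, nat_lit 14184992731], nat_lit 0, nat_lit 0, nat_lit 0, nat_lit 0, nat_lit 0, nat_lit 0, [], [nat_lit 62, nat_lit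 40, nat_lit 40, nat_lit 80, nat_lit 58, nat_lit 456, nat_lit 225, nat_lit 11]⟩,
 ⟨nat_lit 2236, nat_lit 2500, ⟨.ofNat (nat_lit 512902), .ofNat (nat_lit 599999), .ofNat (nat_lit 558063), .ofNat (nat_lit 645160), .ofNat (nat_lit 511466), .ofNat (nat_lit 596989), .ofNat (nat_lit 557014), .ofNat (nat_lit 642537)⟩, ⟨.ofNat (nat_lit 40000), .ofNat (nat_lit 306450), .ofNat (nat_lit 40000), .ofNat (nat_lit 351611), .ofNat (nat_lit 40000), .ofNat (nat_lit 306337), .ofNat (nat_lit 40000), .ofNat (nat_lit 351886)⟩⟩, [⟨nat_lit 13, nat_lit 44, nat_lit 99, nat_lit 100, nat_lit 162320373⟩, ⟨nat_lit 22, nat_lit 100, nat_lit 87, nat_lit 88, nat_lit 57886702⟩, ⟨nat_lit 22, nat_lit 100, nat_lit 40, nat_lit 100, nat_lit 1718779⟩]⟩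
noncomputable def p103_l57 : Lf2 := ⟨nat_lit 0, nat_lit 10, [nat_lit 0, nat_lit 5, nat_lit 5, nat_lit 20], true, nat_lit 160, nat_lit 248, nat_lit 0, nat_lit 396, ⟨nat_lit 0, nat_lit 0, nat_lit 1000, nat_lit 4, nat_lit 134, nat_lit 1000, nat_lit 157, nat_lit 1000, nat_lit 61189, nat_lit 275, nat_lit 170017, nat_lit 316, nat_lit 50751251, nat_lit 0, nat_lit 0, nat_lit 3850737, false, false⟩,
 nat_lit 0, nat_lit 3391, nat_lit 0, nat_lit 0, nat_lit 2953, nat_lit 0, nat_lit 0, nat_lit 0, nat_lit 0, nat_lit 0, nat_lit 0, nat_lit 0, nat_lit 0, nat_lit 0, nat_lit 69, nat_lit 250000, nat_lit 0, nat_lit 0, [(nat_lit 24, [(nat_lit 4, nat_lit 1000)])],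
 ⟨p103_k11, nat_lit 0, nat_lit 0, nat_lit 336, nat_lit 0, nat_lit 751868, [nat_lit 1002400001, nat_lit 398800001, nat_lit 54799999], [], [nat_lit 19426564602, nat_lit 20774168940, nat_lit 20849254247, nat_lit 22032721831, nat_lit 22161401263, nat_lit 23395727237, nat_lit 23280533524, nat_lit 24315458997], nat_lit 1271250, nat_lit 1271250, nat_lit 279600, nat_lit 1100001, nat_lit 1100001, nat_lit 1853500, [nat_lit 230000, nat_lit 780000, nat_lit 1100000], [nat_lit 35, nat_lit 40, nat_lit 40, nat_lit 80, nat_lit 22, nat_lit 249, nat_lit 40, nat_lit 10]⟩, C1.Rw.none,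
 ⟨nat_lit 2236, nat_lit 3163, ⟨.ofNat (nat_lit 223799), .ofNat (nat_lit 394735), .ofNat (nat_lit 267982), .ofNat (nat_lit 438942), .ofNat (nat_lit 237524), .ofNat (nat_lit 397434), .ofNat (nat_lit 282946), .ofNat (nat_lit 442880)⟩, ⟨.ofNat (nat_lit 306116), .ofNat (nat_lit 440213), .ofNat (nat_lit 350426), .ofNat (nat_lit 484523), .ofNat (nat_lit 306337), .ofNat (nat_lit 431772), .ofNat (nat_lit 351886), .ofNat (nat_lit 477320)⟩⟩, [⟨nat_lit 16, nat_lit 53, nat_lit 100, nat_lit 87, nat_lit 332520776⟩]⟩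
noncomputable def p103_l58 : Lf2 := ⟨nat_lit 0, nat_lit 10, [nat_lit 0, nat_lit 5, nat_lit 5, nat_lit 20], true, nat_lit 160, nat_lit 248, nat_lit 0, nat_lit 396, ⟨nat_lit 0, nat_lit 620, nat_lit 380, nat_lit 4, nat_lit 191, nat_lit 1000, nat_lit 158, nat_lit 380, nat_lit 61189, nat_lit 275, nat_lit 2400, nat_lit 227, nat_lit 46187148, nat_lit 11958458, nat_lit 8854394, nat_lit 4463583, false, true⟩,
 nat_lit 0, nat_lit 3406, nat_lit 0, nat_lit 0, nat_lit 2966, nat_lit 0, nat_lit 25, nat_lit 0, nat_lit 0, nat_lit 0, nat_lit 0, nat_lit 0, nat_lit 0, nat_lit 0, nat_lit 0, nat_lit 307000, nat_lit 0, nat_lit 0, [(nat_lit 24, [(nat_lit 0, nat_lit 620), (nat_lit 5, nat_lit 380)])],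
 ⟨p103_k11, nat_lit 0, nat_lit 0, nat_lit 252, nat_lit 0, nat_lit 651957, [nat_lit 750128001, nat_lit 553493334, nat_lit 358922666], [], [nat_lit 20396537628, nat_lit 20933352516, nat_lit 22301776140, nat_lit 22778946224, nat_lit 22553870175, nat_lit 23049008625, nat_lit 24341556749, nat_lit 24805003126], nat_lit 1271250, nat_lit 1271250, nat_lit 1100001, nat_lit 1785000, nat_lit 1100001, nat_lit 1853500, [nat_lit 230000, nat_lit 780000, nat_lit 1100000], [nat_lit 35, nat_lit 40, nat_lit 40, nat_lit 80, nat_lit 22, nat_lit 203, nat_lit 0, nat_lit 7]⟩, C1.Rw.none,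
 ⟨nat_lit 2738, nat_lit 3163, ⟨.ofNat (nat_lit 394735), .ofNat (nat_lit 516642), .ofNat (nat_lit 439028), .ofNat (nat_lit 560952), .ofNat (nat_lit 396102), .ofNat (nat_lit 514225), .ofNat (nat_lit 440920), .ofNat (nat_lit 559060)⟩, ⟨.ofNat (nat_lit 306116), .ofNat (nat_lit 440213), .ofNat (nat_lit 350426), .ofNat (nat_lit 484523), .ofNat (nat_lit 306433), .ofNat (nat_lit 436368), .ofNat (nat_lit 351268), .ofNat (nat_lit 481203)⟩⟩, [⟨nat_lit 4, nat_lit 100, nat_lit 57, nat_lit 87, nat_lit 249442079⟩]⟩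
noncomputable def p103_l59 : Lf2 := ⟨nat_lit 0, nat_lit 10, [nat_lit 0, nat_lit 5, nat_lit 5, nat_lit 20], true, nat_lit 160, nat_lit 232, nat_lit 0, nat_lit 396, ⟨nat_lit 0, nat_lit 1000, nat_lit 0, nat_lit 4, nat_lit 191, nat_lit 1000, nat_lit 152, nat_lit 0, nat_lit 0, nat_lit 0, nat_lit 0, nat_lit 0, nat_lit 46582233, nat_lit 11993165, nat_lit 8424602, nat_lit 4406660, false, true⟩,
 nat_lit 0, nat_lit 3387, nat_lit 0, nat_lit 0, nat_lit 3056, nat_lit 0, nat_lit 686, nat_lit 0, nat_lit 0, nat_lit 0, nat_lit 0, nat_lit 0, nat_lit 0, nat_lit 0, nat_lit 0, nat_lit 250000, nat_lit 0, nat_lit 0, [(nat_lit 24, [(nat_lit 0, nat_lit 1000)])],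
 ⟨p103_k15, nat_lit 0, nat_lit 0, nat_lit 278, nat_lit 0, nat_lit 717833, [nat_lit 763200001, nat_lit 1367200000, nat_lit 1705600000], [], [nat_lit 20627678409, nat_lit 21266103049, nat_lit 22796332073, nat_lit 23359973033, nat_lit 22579466707, nat_lit 23150586035, nat_lit 24492884158, nat_lit 24999377437], nat_lit 1271250, nat_lit 1271250, nat_lit 1100001, nat_lit 1785000, nat_lit 1100001, nat_lit 1716500, [nat_lit 230000, nat_lit 780000, nat_lit 1100000], [nat_lit 35, nat_lit 40, nat_lit 40, nat_lit 80, nat_lit 22, nat_lit 203, nat_lit 0, nat_lit 7]⟩, C1.Rw.none,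
 ⟨nat_lit 2236, nat_lit 2739, ⟨.ofNat (nat_lit 396102), .ofNat (nat_lit 514225), .ofNat (nat_lit 440903), .ofNat (nat_lit 559060), .ofNat (nat_lit 397434), .ofNat (nat_lit 511466), .ofNat (nat_lit 442949), .ofNat (nat_lit 557014)⟩, ⟨.ofNat (nat_lit 306433), .ofNat (nat_lit 412743), .ofNat (nat_lit 351268), .ofNat (nat_lit 457578), .ofNat (nat_lit 306337), .ofNat (nat_lit 408965), .ofNat (nat_lit 351886), .ofNat (nat_lit 454514)⟩⟩, [⟨nat_lit 4, nat_lit 100, nat_lit 48, nat_lit 87, nat_lit 281839818⟩]⟩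
noncomputable def p103_l60 : Lf2 := ⟨nat_lit 0, nat_lit 10, [nat_lit 0, nat_lit 5, nat_lit 5, nat_lit 20], false, nat_lit 160, nat_lit 248, nat_lit 0, nat_lit 160, ⟨nat_lit 1000, nat_lit 0, nat_lit 0, nat_lit 0, nat_lit 0, nat_lit 0, nat_lit 0, nat_lit 0, nat_lit 0, nat_lit 0, nat_lit 0, nat_lit 0, nat_lit 0, nat_lit 0, nat_lit 0, nat_lit 0, false, false⟩,
 nat_lit 0, nat_lit 6332, nat_lit 0, nat_lit 0, nat_lit 5514, nat_lit 11336, nat_lit 288, nat_lit 0, nat_lit 0, nat_lit 1388, nat_lit 0, nat_lit 0, nat_lit 0, nat_lit 0, nat_lit 0, nat_lit 0, nat_lit 0, nat_lit 0, [],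
 ⟨p103_k11, nat_lit 0, nat_lit 0, nat_lit 290, nat_lit 0, nat_lit 751868, [nat_lit 938000000, nat_lit 3282000000, nat_lit 4688000000], [], [nat_lit 24791711720, nat_lit 25962893124, nat_lit 27616634216, nat_lit 29220784316, nat_lit 26388556487, nat_lit 27398095152, nat_lit 29338521596, nat_lit 30705824694], nat_lit 1271250, nat_lit 1271250, nat_lit 1271250, nat_lit 1271250, nat_lit 1100001, nat_lit 1853500, [nat_lit 230000, nat_lit 780000, nat_lit 1100000], [nat_lit 35, nat_lit 40, nat_lit 40, nat_lit 80, nat_lit 22, nat_lit 203, nat_lit 0, nat_lit 7]⟩, ⟨p103_k12, nat_lit 0, nat_lit 0, nat_lit 300, nat_lit 0, nat_lit 0, [nat_lit 7968000000, nat_lit 11872000000, nat_lit 14058000000], [], [nat_lit 33699069460, nat_lit 34299342068, nat_lit 40131397088, nat_lit 40539676864, nat_lit 25173218976, nat_lit 25515559968, nat_lit 29525944320, nat_lit 29853188320], nat_lit 0, nat_lit 0, nat_lit 0, nat_lit 0, nat_lit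 0, nat_lit 0, [], [nat_lit 62, nat_lit 40, nat_lit 40, nat_lit 80, nat_lit 58, nat_lit 401, nat_lit 175, nat_lit 9]⟩,
 zbF0, [⟨nat_lit 13, nat_lit 44, nat_lit 99, nat_lit 100, nat_lit 150487460⟩, ⟨nat_lit 16, nat_lit 53, nat_lit 100, nat_lit 87, nat_lit 516383101⟩, ⟨nat_lit 9, nat_lit 100, nat_lit 92, nat_lit 42, nat_lit 130360534⟩]⟩
noncomputable def p103_l61 : Lf2 := ⟨nat_lit 0, nat_lit 10, [nat_lit 0, nat_lit 5, nat_lit 5, nat_lit 20], false, nat_lit 160, nat_lit 248, nat_lit 160, nat_lit 396, ⟨nat_lit 297, nat_lit 703, nat_lit 0, nat_lit 6, nat_lit 240, nat_lit 703, nat_lit 158, nat_lit 0, nat_lit 0, nat_lit 0, nat_lit 0, nat_lit 0, nat_lit 42195406, nat_lit 16354566, nat_lit 8450028, nat_lit 4815017, false, true⟩,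
 nat_lit 0, nat_lit 4022, nat_lit 0, nat_lit 0, nat_lit 3503, nat_lit 2511, nat_lit 95, nat_lit 0, nat_lit 0, nat_lit 0, nat_lit 0, nat_lit 0, nat_lit 0, nat_lit 0, nat_lit 0, nat_lit 397000, nat_lit 0, nat_lit 0, [(nat_lit 24, [(nat_lit 1, nat_lit 510), (nat_lit 2, nat_lit 193)])],
 ⟨p103_k11, nat_lit 0, nat_lit 0, nat_lit 241, nat_lit 0, nat_lit 602517, [nat_lit 994390000, nat_lit 1392143600, nat_lit 1475478400], [], [nat_lit 23476123649, nat_lit 23706161207, nat_lit 25976345948, nat_lit 26220563393, nat_lit 25206090547, nat_lit 25431145124, nat_lit 27689436823, nat_lit 27904053292], nat_lit 1271250, nat_lit 1271250, nat_lit 1271250, nat_lit 1271250, nat_lit 1100001, nat_lit 1853500, [nat_lit 230000, nat_lit 780000, nat_lit 1100000], [nat_lit 35, nat_lit 40, nat_lit 40, nat_lit 80, nat_lit 22, nat_lit 203, nat_lit 0, nat_lit 7]⟩, ⟨p103_k12, nat_lit 0, nat_lit 0, nat_lit 142, nat_lit 0, nat_lit 0, [nat_lit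 2366496000, nat_lit 3525984000, nat_lit 4175226000], [], [nat_lit 4458027780, nat_lit 4899691080, nat_lit 6507928800, nat_lit 6780289788, nat_lit 9243584736, nat_lit 9284339205, nat_lit 10174236779, nat_lit 10136962107], nat_lit 0, nat_lit 0, nat_lit 0, nat_lit 0, nat_lit 0, nat_lit 0, [], [nat_lit 62, nat_lit 40, nat_lit 40, nat_lit 80, nat_lit 58, nat_lit 483, nat_lit 250, nat_lit 11]⟩,
 ⟨nat_lit 2958, nat_lit 3163, ⟨.ofNat (nat_lit 516642), .ofNat (nat_lit 638549), .ofNat (nat_lit 560952), .ofNat (nat_lit 682859), .ofNat (nat_lit 515465), .ofNat (nat_lit 635507), .ofNat (nat_lit 560020), .ofNat (nat_lit 680062)⟩, ⟨.ofNat (nat_lit 306116), .ofNat (nat_lit 440213), .ofNat (nat_lit 350426), .ofNat (nat_lit 484523), .ofNat (nat_lit 306315), .ofNat (nat_lit 438361), .ofNat (nat_lit 350869), .ofNat (nat_lit 482915)⟩⟩, [⟨nat_lit 13, nat_lit 58, nat_lit 94, nat_lit 100, nat_lit 89257936⟩, ⟨nat_lit 16, nat_lit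 62, nat_lit 100, nat_lit 94, nat_lit 275301811⟩, ⟨nat_lit 19, nat_lit 100, nat_lit 21, nat_lit 94, nat_lit 152516493⟩]⟩
noncomputable def p103_l62 : Lf2 := ⟨nat_lit 0, nat_lit 10, [nat_lit 0, nat_lit 5, nat_lit 5, nat_lit 20], false, nat_lit 160, nat_lit 240, nat_lit 160, nat_lit 396, ⟨nat_lit 305, nat_lit 695, nat_lit 0, nat_lit 6, nat_lit 238, nat_lit 695, nat_lit 155, nat_lit 0, nat_lit 0, nat_lit 0, nat_lit 0, nat_lit 0, nat_lit 42524028, nat_lit 16210178, nat_lit 8265794, nat_lit 4778095, false, true⟩,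
 nat_lit 0, nat_lit 3613, nat_lit 0, nat_lit 0, nat_lit 3203, nat_lit 2624, nat_lit 771, nat_lit 0, nat_lit 0, nat_lit 0, nat_lit 0, nat_lit 0, nat_lit 0, nat_lit 0, nat_lit 0, nat_lit 176750, nat_lit 0, nat_lit 0, [(nat_lit 24, [(nat_lit 0, nat_lit 675), (nat_lit 1, nat_lit 20)])],
 ⟨p103_k14, nat_lit 0, nat_lit 0, nat_lit 253, nat_lit 0, nat_lit 636932, [nat_lit 818210001, nat_lit 1943816667, nat_lit 2600208000], [], [nat_lit 23439836661, nat_lit 23672718413, nat_lit 25757251132, nat_lit 25988311886, nat_lit 24970955013, nat_lit 25181087060, nat_lit 27240843464, nat_lit 27494692389], nat_lit 1271250, nat_lit 1271250, nat_lit 1271250, nat_lit 1271250, nat_lit 1100001, nat_lit 1785000, [nat_lit 230000, nat_lit 780000, nat_lit 1100000], [nat_lit 35, nat_lit 40, nat_lit 40, nat_lit 80, nat_lit 22, nat_lit 203, nat_lit 0, nat_lit 7]⟩, ⟨p103_k12, nat_lit 0, nat_lit 0, nat_lit 142, nat_lit 0, nat_lit 0, [nat_lit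 2430240000, nat_lit 3620960000, nat_lit 4287690000], [], [nat_lit 4513176916, nat_lit 4968948620, nat_lit 6528037999, nat_lit 6816430018, nat_lit 9476908442, nat_lit 9514890994, nat_lit 10388398571, nat_lit 10390337209], nat_lit 0, nat_lit 0, nat_lit 0, nat_lit 0, nat_lit 0, nat_lit 0, [], [nat_lit 62, nat_lit 40, nat_lit 40, nat_lit 80, nat_lit 58, nat_lit 483, nat_lit 250, nat_lit 11]⟩,
 ⟨nat_lit 2738, nat_lit 2959, ⟨.ofNat (nat_lit 515465), .ofNat (nat_lit 629505), .ofNat (nat_lit 560020), .ofNat (nat_lit 674059), .ofNat (nat_lit 514225), .ofNat (nat_lit 626442), .ofNat (nat_lit 559060), .ofNat (nat_lit 671276)⟩, ⟨.ofNat (nat_lit 306315), .ofNat (nat_lit 426357), .ofNat (nat_lit 350869), .ofNat (nat_lit 470911), .ofNat (nat_lit 306433), .ofNat (nat_lit 424556), .ofNat (nat_lit 351268), .ofNat (nat_lit 469390)⟩⟩, [⟨nat_lit 13, nat_lit 54, nat_lit 96, nat_lit 100, nat_lit 93436822⟩, ⟨nat_lit 16, nat_lit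 58, nat_lit 100, nat_lit 93, nat_lit 300170600⟩, ⟨nat_lit 19, nat_lit 100, nat_lit 21, nat_lit 94, nat_lit 159468128⟩]⟩
noncomputable def p103_l63 : Lf2 := ⟨nat_lit 0, nat_lit 10, [nat_lit 0, nat_lit 5, nat_lit 5, nat_lit 20], false, nat_lit 160, nat_lit 232, nat_lit 160, nat_lit 396, ⟨nat_lit 605, nat_lit 395, nat_lit 0, nat_lit 6, nat_lit 234, nat_lit 395, nat_lit 152, nat_lit 0, nat_lit 0, nat_lit 0, nat_lit 0, nat_lit 0, nat_lit 42995727, nat_lit 15918950, nat_lit 8085323, nat_lit 4729375, false, true⟩,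
 nat_lit 0, nat_lit 3754, nat_lit 0, nat_lit 0, nat_lit 3387, nat_lit 5594, nat_lit 817, nat_lit 0, nat_lit 0, nat_lit 0, nat_lit 0, nat_lit 0, nat_lit 0, nat_lit 0, nat_lit 0, nat_lit 98750, nat_lit 0, nat_lit 0, [(nat_lit 24, [(nat_lit 0, nat_lit 395)])],
 ⟨p103_k15, nat_lit 0, nat_lit 0, nat_lit 279, nat_lit 0, nat_lit 717833, [nat_lit 868954000, nat_lit 2525654001, nat_lit 3509952000], [], [nat_lit 23184466968, nat_lit 23713138077, nat_lit 25719182190, nat_lit 26359851036, nat_lit 24736844437, nat_lit 25251880469, nat_lit 27172502158, nat_lit 27743783560], nat_lit 1271250, nat_lit 1271250, nat_lit 1271250, nat_lit 1271250, nat_lit 1100001, nat_lit 1716500, [nat_lit 230000, nat_lit 780000, nat_lit 1100000], [nat_lit 35, nat_lit 40, nat_lit 40, nat_lit 80, nat_lit 22, nat_lit 203, nat_lit 0, nat_lit 7]⟩, ⟨p103_k12, nat_lit 0, nat_lit 0, nat_lit 140, nat_lit 0, nat_lit 0, [nat_lit 4820640000, nat_lit 7182560000,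 nat_lit 8505090000], [], [nat_lit 8395538596, nat_lit 9318577220, nat_lit 12108755225, nat_lit 12716986289, nat_lit 18664150286, nat_lit 18706308226, nat_lit 20762269265, nat_lit 20751145243], nat_lit 0, nat_lit 0, nat_lit 0, nat_lit 0, nat_lit 0, nat_lit 0, [], [nat_lit 62, nat_lit 40, nat_lit 40, nat_lit 80, nat_lit 58, nat_lit 483, nat_lit 250, nat_lit 11]⟩,
 ⟨nat_lit 2236, nat_lit 2739, ⟨.ofNat (nat_lit 514225), .ofNat (nat_lit 614629), .ofNat (nat_lit 559060), .ofNat (nat_lit 659464), .ofNat (nat_lit 511466), .ofNat (nat_lit 608392), .ofNat (nat_lit 557014), .ofNat (nat_lit 653941)⟩, ⟨.ofNat (nat_lit 306433), .ofNat (nat_lit 412743), .ofNat (nat_lit 351268), .ofNat (nat_lit 457578), .ofNat (nat_lit 306337), .ofNat (nat_lit 408965), .ofNat (nat_lit 351886), .ofNat (nat_lit 454514)⟩⟩, [⟨nat_lit 13, nat_lit 44, nat_lit 99, nat_lit 100, nat_lit 107273844⟩, ⟨nat_lit 16, nat_lit 48, nat_lit 100, nat_lit 87,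 nat_lit 559115089⟩, ⟨nat_lit 19, nat_lit 100, nat_lit 21, nat_lit 94, nat_lit 351513964⟩]⟩
noncomputable def b_V_900_400_20_1 : St := ⟨true, nat_lit 1, nat_lit 0, nat_lit 1, nat_lit 120, nat_lit 360, nat_lit 380, nat_lit 160, nat_lit 200, nat_lit 48, nat_lit 320, nat_lit 80, nat_lit 120, nat_lit 8, nat_lit 248, nat_lit 0, nat_lit 396, nat_lit 0, nat_lit 40, nat_lit 0, nat_lit 0, nat_lit 0, nat_lit 0⟩
theorem d_V_900_400_20_1 (h : EB TB.env) : Dead b_V_900_400_20_1 := chkB_sound0 h (T :=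
(.spl (nat_lit 4) (nat_lit 160)
(.spl (nat_lit 2) (nat_lit 160)
(.leaf p103_l50)
(.spl (nat_lit 2) (nat_lit 240)
(.spl (nat_lit 4) (nat_lit 80)
(.trX (nat_lit 22) (nat_lit 100) (nat_lit 44) (nat_lit 82) (nat_lit 384) (.leaf p103_l51))
(.leaf p103_l52))
(.trX (nat_lit 22) (nat_lit 100) (nat_lit 40) (nat_lit 100) (nat_lit 384) (.spl (nat_lit 0) (nat_lit 370)
(.spl (nat_lit 0) (nat_lit 365)
(.leaf p103_l53)
(.trX (nat_lit 13) (nat_lit 57) (nat_lit 83) (nat_lit 100) (nat_lit 316) (.leaf p103_l54)))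
(.trX (nat_lit 13) (nat_lit 53) (nat_lit 85) (nat_lit 100) (nat_lit 308) (.trZ (nat_lit 3) (nat_lit 100) (nat_lit 66) (nat_lit 45) (nat_lit 12) (.spl (nat_lit 0) (nat_lit 375)
(.leaf p103_l55)
(.trX (nat_lit 13) (nat_lit 48) (nat_lit 88) (nat_lit 100) (nat_lit 300) (.trZ (nat_lit 3) (nat_lit 100) (nat_lit 61) (nat_lit 51) (nat_lit 16) (.leaf p103_l56))))))))))
(.spl (nat_lit 2) (nat_lit 160)
(.leaf p103_l57)
(.spl (nat_lit 2) (nat_lit 240)
(.spl (nat_lit 0) (nat_lit 370)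
(.leaf p103_l58)
(.trX (nat_lit 16) (nat_lit 53) (nat_lit 100) (nat_lit 93) (nat_lit 232) (.leaf p103_l59)))
(.spl (nat_lit 5) (nat_lit 160)
(.leaf p103_l60)
(.spl (nat_lit 0) (nat_lit 370)
(.spl (nat_lit 0) (nat_lit 365)
(.leaf p103_l61)
(.trX (nat_lit 13) (nat_lit 57) (nat_lit 83) (nat_lit 100) (nat_lit 316) (.trX (nat_lit 16) (nat_lit 58) (nat_lit 100) (nat_lit 93) (nat_lit 240) (.leaf p103_l62))))
(.trX (nat_lit 13) (nat_lit 53) (nat_lit 85) (nat_lit 100) (nat_lit 308) (.trX (nat_lit 16) (nat_lit 53) (nat_lit 100) (nat_lit 93) (nat_lit 232) (.leaf p103_l63))))))))) (by decide +kernel)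
noncomputable def p103_l64 : Lf2 := ⟨nat_lit 0, nat_lit 10, [nat_lit 0, nat_lit 5, nat_lit 5, nat_lit 20], true, nat_lit 20, nat_lit 80, nat_lit 0, nat_lit 396, ⟨nat_lit 0, nat_lit 0, nat_lit 1000, nat_lit 4, nat_lit 145, nat_lit 1000, nat_lit 50, nat_lit 1000, nat_lit 22817, nat_lit 252, nat_lit 198017, nat_lit 324, nat_lit 57461953, nat_lit 0, nat_lit 0, nat_lit 2462468, false, false⟩,
 nat_lit 0, nat_lit 2753, nat_lit 0, nat_lit 0, nat_lit 2572, nat_lit 0, nat_lit 0, nat_lit 0, nat_lit 0, nat_lit 0, nat_lit 0, nat_lit 0, nat_lit 0, nat_lit 0, nat_lit 296, nat_lit 770200, nat_lit 0, nat_lit 0, [(nat_lit 27, [(nat_lit 5, nat_lit 383), (nat_lit 6, nat_lit 617)])],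
 ⟨p103_k13, nat_lit 0, nat_lit 0, nat_lit 376, nat_lit 0, nat_lit 871570, [nat_lit 1743728800, nat_lit 18191734], [], [nat_lit 20490942667, nat_lit 22385760914, nat_lit 21580495092, nat_lit 22758323840, nat_lit 20344224252, nat_lit 21579285471, nat_lit 21684003384, nat_lit 22801753472], nat_lit 1271250, nat_lit 1271250, nat_lit 462650, nat_lit 1100001, nat_lit 111251, nat_lit 490000, [nat_lit 230000, nat_lit 780000], [nat_lit 66, nat_lit 40, nat_lit 40, nat_lit 80, nat_lit 67, nat_lit 272, nat_lit 60, nat_lit 16]⟩, C1.Rw.none,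
 ⟨nat_lit 0, nat_lit 2237, ⟨.ofNat (nat_lit 273845), .ofNat (nat_lit 397434), .ofNat (nat_lit 317541), .ofNat (nat_lit 441142), .ofNat (nat_lit 291142), .ofNat (nat_lit 399999), .ofNat (nat_lit 339289), .ofNat (nat_lit 448157)⟩, ⟨.ofNat (nat_lit 50000), .ofNat (nat_lit 192306), .ofNat (nat_lit 50000), .ofNat (nat_lit 200000), .ofNat (nat_lit 50000), .ofNat (nat_lit 199999), .ofNat (nat_lit 50000), .ofNat (nat_lit 200000)⟩⟩, [⟨nat_lit 0, nat_lit 100, nat_lit 31, nat_lit 92, nat_lit 58142798⟩, ⟨nat_lit 3, nat_lit 100, nat_lit 36, nat_lit 77, nat_lit 340001682⟩]⟩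
noncomputable def p103_l65 : Lf2 := ⟨nat_lit 0, nat_lit 10, [nat_lit 0, nat_lit 5, nat_lit 5, nat_lit 20], false, nat_lit 20, nat_lit 80, nat_lit 0, nat_lit 384, ⟨nat_lit 258, nat_lit 484, nat_lit 258, nat_lit 4, nat_lit 204, nat_lit 742, nat_lit 49, nat_lit 258, nat_lit 22817, nat_lit 252, nat_lit 4634, nat_lit 204, nat_lit 51634687, nat_lit 13804134, nat_lit 1561179, nat_lit 3185609, false, true⟩,
 nat_lit 0, nat_lit 3008, nat_lit 0, nat_lit 0, nat_lit 2810, nat_lit 3798, nat_lit 0, nat_lit 0, nat_lit 0, nat_lit 302, nat_lit 0, nat_lit 0, nat_lit 0, nat_lit 0, nat_lit 17, nat_lit 451600, nat_lit 0, nat_lit 0, [(nat_lit 27, [(nat_lit 1, nat_lit 484), (nat_lit 6, nat_lit 258)])],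
 ⟨p103_k13, nat_lit 0, nat_lit 0, nat_lit 319, nat_lit 0, nat_lit 778398, [nat_lit 786756000, nat_lit 11471200], [], [nat_lit 21844232320, nat_lit 22496166090, nat_lit 25846656412, nat_lit 26546649859, nat_lit 21790600420, nat_lit 22408855830, nat_lit 25569745432, nat_lit 26073047264], nat_lit 1271250, nat_lit 1271250, nat_lit 1100001, nat_lit 2196000, nat_lit 111251, nat_lit 490000, [nat_lit 230000, nat_lit 780000], [nat_lit 66, nat_lit 40, nat_lit 40, nat_lit 80, nat_lit 67, nat_lit 226, nat_lit 20, nat_lit 12]⟩, ⟨p103_k12, nat_lit 0, nat_lit 0, nat_lit 288, nat_lit 0, nat_lit 0, [nat_lit 2055744000, nat_lit 3062976000, nat_lit 3626964000], [], [nat_lit 8644844290, nat_lit 8896546186, nat_lit 10555422793, nat_lit 10573655391, nat_lit 9197737258, nat_lit 9074510146, nat_lit 9565063912, nat_lit 9493713829], nat_lit 0, nat_lit 0, nat_lit 0, nat_lit 0, nat_lit 0, nat_lit 0, [], [nat_lit 62, nat_lit 40, nat_lit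 40, nat_lit 80, nat_lit 58, nat_lit 456, nat_lit 225, nat_lit 11]⟩,
 ⟨nat_lit 1581, nat_lit 2237, ⟨.ofNat (nat_lit 397434), .ofNat (nat_lit 579884), .ofNat (nat_lit 442898), .ofNat (nat_lit 625433), .ofNat (nat_lit 398733), .ofNat (nat_lit 573567), .ofNat (nat_lit 445278), .ofNat (nat_lit 620197)⟩, ⟨.ofNat (nat_lit 50000), .ofNat (nat_lit 192306), .ofNat (nat_lit 50000), .ofNat (nat_lit 200000), .ofNat (nat_lit 50000), .ofNat (nat_lit 196201), .ofNat (nat_lit 50000), .ofNat (nat_lit 200000)⟩⟩, [⟨nat_lit 3, nat_lit 100, nat_lit 34, nat_lit 81, nat_lit 136265380⟩, ⟨nat_lit 22, nat_lit 100, nat_lit 83, nat_lit 67, nat_lit 48832995⟩, ⟨nat_lit 22, nat_lit 100, nat_lit 44, nat_lit 82, nat_lit 7493497⟩]⟩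
noncomputable def p103_l66 : Lf2 := ⟨nat_lit 0, nat_lit 10, [nat_lit 0, nat_lit 5, nat_lit 5, nat_lit 20], false, nat_lit 36, nat_lit 80, nat_lit 0, nat_lit 384, ⟨nat_lit 236, nat_lit 473, nat_lit 291, nat_lit 4, nat_lit 196, nat_lit 764, nat_lit 58, nat_lit 291, nat_lit 30817, nat_lit 258, nat_lit 3437, nat_lit 217, nat_lit 52022802, nat_lit 12997019, nat_lit 1980179, nat_lit 3227992, false, true⟩,
 nat_lit 0, nat_lit 2981, nat_lit 0, nat_lit 0, nat_lit 2882, nat_lit 3699, nat_lit 0, nat_lit 0, nat_lit 0, nat_lit 269, nat_lit 0, nat_lit 0, nat_lit 0, nat_lit 0, nat_lit 36, nat_lit 480200, nat_lit 0, nat_lit 0, [(nat_lit 27, [(nat_lit 1, nat_lit 473), (nat_lit 6, nat_lit 291)])],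
 ⟨p103_k17, nat_lit 0, nat_lit 0, nat_lit 332, nat_lit 0, nat_lit 834054, [nat_lit 852240001, nat_lit 10684400], [], [nat_lit 22530056480, nat_lit 23160824672, nat_lit 25423313265, nat_lit 26062673442, nat_lit 22475301447, nat_lit 23081687877, nat_lit 25290126470, nat_lit 25805973137], nat_lit 1271250, nat_lit 1271250, nat_lit 1100001, nat_lit 1990500, nat_lit 205650, nat_lit 490000, [nat_lit 230000, nat_lit 780000], [nat_lit 66, nat_lit 40, nat_lit 40, nat_lit 80, nat_lit 67, nat_lit 226, nat_lit 20, nat_lit 12]⟩, ⟨p103_k12, nat_lit 0, nat_lit 0, nat_lit 281, nat_lit 0, nat_lit 0, [nat_lit 1880448000, nat_lit 2801792000, nat_lit 3317688000], [], [nat_lit 8057891451, nat_lit 8286724567, nat_lit 9328436413, nat_lit 9383441757, nat_lit 8454659726, nat_lit 8246678579, nat_lit 8505085525, nat_lit 8474119109], nat_lit 0, nat_lit 0, nat_lit 0, nat_lit 0, nat_lit 0, nat_lit 0, [], [nat_lit 62, nat_lit 40, nat_lit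 40, nat_lit 80, nat_lit 58, nat_lit 456, nat_lit 225, nat_lit 11]⟩,
 ⟨nat_lit 0, nat_lit 1582, ⟨.ofNat (nat_lit 398733), .ofNat (nat_lit 540781), .ofNat (nat_lit 444052), .ofNat (nat_lit 587413), .ofNat (nat_lit 399999), .ofNat (nat_lit 529994), .ofNat (nat_lit 448688), .ofNat (nat_lit 579996)⟩, ⟨.ofNat (nat_lit 90000), .ofNat (nat_lit 196201), .ofNat (nat_lit 90000), .ofNat (nat_lit 200000), .ofNat (nat_lit 90000), .ofNat (nat_lit 199999), .ofNat (nat_lit 90000), .ofNat (nat_lit 200000)⟩⟩, [⟨nat_lit 13, nat_lit 22, nat_lit 100, nat_lit 100, nat_lit 3623832⟩, ⟨nat_lit 3, nat_lit 100, nat_lit 26, nat_lit 85, nat_lit 179168575⟩, ⟨nat_lit 22, nat_lit 100, nat_lit 75, nat_lit 71, nat_lit 51755408⟩]⟩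
noncomputable def p103_l67 : Lf2 := ⟨nat_lit 0, nat_lit 10, [nat_lit 0, nat_lit 5, nat_lit 5, nat_lit 20], true, nat_lit 80, nat_lit 208, nat_lit 0, nat_lit 396, ⟨nat_lit 0, nat_lit 0, nat_lit 1000, nat_lit 4, nat_lit 145, nat_lit 1000, nat_lit 118, nat_lit 1000, nat_lit 129067, nat_lit 303, nat_lit 198017, nat_lit 324, nat_lit 53022127, nat_lit 0, nat_lit 0, nat_lit 3486851, false, false⟩,
 nat_lit 0, nat_lit 2921, nat_lit 0, nat_lit 0, nat_lit 2729, nat_lit 0, nat_lit 0, nat_lit 0, nat_lit 0, nat_lit 0, nat_lit 0, nat_lit 0, nat_lit 0, nat_lit 0, nat_lit 305, nat_lit 793600, nat_lit 0, nat_lit 0, [(nat_lit 27, [(nat_lit 5, nat_lit 344), (nat_lit 6, nat_lit 656)])],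
 ⟨p103_k13, nat_lit 0, nat_lit 0, nat_lit 343, nat_lit 0, nat_lit 871570, [nat_lit 1777638401, nat_lit 19144533], [], [nat_lit 19347792912, nat_lit 21228071551, nat_lit 20548978451, nat_lit 21732034121, nat_lit 21796886703, nat_lit 23050229015, nat_lit 22889159038, nat_lit 23894679209], nat_lit 1271250, nat_lit 1271250, nat_lit 462650, nat_lit 1100001, nat_lit 490000, nat_lit 1490000, [nat_lit 230000, nat_lit 780000], [nat_lit 66, nat_lit 40, nat_lit 40, nat_lit 80, nat_lit 67, nat_lit 317, nat_lit 100, nat_lit 18]⟩, C1.Rw.none,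
 ⟨nat_lit 0, nat_lit 2237, ⟨.ofNat (nat_lit 273845), .ofNat (nat_lit 397434), .ofNat (nat_lit 317541), .ofNat (nat_lit 441142), .ofNat (nat_lit 291142), .ofNat (nat_lit 399999), .ofNat (nat_lit 339289), .ofNat (nat_lit 448157)⟩, ⟨.ofNat (nat_lit 192306), .ofNat (nat_lit 374750), .ofNat (nat_lit 200000), .ofNat (nat_lit 420300), .ofNat (nat_lit 199999), .ofNat (nat_lit 359993), .ofNat (nat_lit 200000), .ofNat (nat_lit 409994)⟩⟩, [⟨nat_lit 0, nat_lit 100, nat_lit 31, nat_lit 92, nat_lit 168310876⟩, ⟨nat_lit 16, nat_lit 32, nat_lit 100, nat_lit 88, nat_lit 238361280⟩]⟩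
noncomputable def p103_l68 : Lf2 := ⟨nat_lit 0, nat_lit 10, [nat_lit 0, nat_lit 5, nat_lit 5, nat_lit 20], true, nat_lit 80, nat_lit 208, nat_lit 0, nat_lit 396, ⟨nat_lit 0, nat_lit 446, nat_lit 554, nat_lit 4, nat_lit 195, nat_lit 1000, nat_lit 119, nat_lit 554, nat_lit 132017, nat_lit 304, nat_lit 4425, nat_lit 220, nat_lit 48543341, nat_lit 12641531, nat_lit 5815128, nat_lit 4055627, false, true⟩,
 nat_lit 0, nat_lit 2830, nat_lit 0, nat_lit 0, nat_lit 2644, nat_lit 0, nat_lit 0, nat_lit 0, nat_lit 0, nat_lit 0, nat_lit 0, nat_lit 0, nat_lit 0, nat_lit 0, nat_lit 203, nat_lit 732400, nat_lit 0, nat_lit 0, [(nat_lit 27, [(nat_lit 1, nat_lit 446), (nat_lit 6, nat_lit 554)])],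
 ⟨p103_k13, nat_lit 0, nat_lit 0, nat_lit 258, nat_lit 0, nat_lit 709593, [nat_lit 1421846401, nat_lit 22180267], [], [nat_lit 20314000778, nat_lit 20633554902, nat_lit 23628270084, nat_lit 23895427719, nat_lit 22740240003, nat_lit 23010851098, nat_lit 25569630416, nat_lit 25798261304], nat_lit 1271250, nat_lit 1271250, nat_lit 1100001, nat_lit 2059000, nat_lit 490000, nat_lit 1490000, [nat_lit 230000, nat_lit 780000], [nat_lit 66, nat_lit 40, nat_lit 40, nat_lit 80, nat_lit 67, nat_lit 272, nat_lit 60, nat_lit 14]⟩, C1.Rw.none,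
 ⟨nat_lit 1936, nat_lit 2237, ⟨.ofNat (nat_lit 397434), .ofNat (nat_lit 557078), .ofNat (nat_lit 420202), .ofNat (nat_lit 579852), .ofNat (nat_lit 398088), .ofNat (nat_lit 554577), .ofNat (nat_lit 421092), .ofNat (nat_lit 577588)⟩, ⟨.ofNat (nat_lit 192306), .ofNat (nat_lit 374756), .ofNat (nat_lit 200000), .ofNat (nat_lit 420305), .ofNat (nat_lit 194266), .ofNat (nat_lit 373111), .ofNat (nat_lit 200000), .ofNat (nat_lit 419133)⟩⟩, [⟨nat_lit 13, nat_lit 41, nat_lit 97, nat_lit 100, nat_lit 316790208⟩, ⟨nat_lit 4, nat_lit 100, nat_lit 41, nat_lit 87, nat_lit 119614555⟩]⟩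
noncomputable def p103_l69 : Lf2 := ⟨nat_lit 0, nat_lit 10, [nat_lit 0, nat_lit 5, nat_lit 5, nat_lit 20], false, nat_lit 80, nat_lit 208, nat_lit 0, nat_lit 392, ⟨nat_lit 208, nat_lit 792, nat_lit 0, nat_lit 4, nat_lit 209, nat_lit 792, nat_lit 119, nat_lit 0, nat_lit 0, nat_lit 0, nat_lit 0, nat_lit 0, nat_lit 47300268, nat_lit 13941773, nat_lit 5757959, nat_lit 4177743, false, true⟩,
 nat_lit 0, nat_lit 3239, nat_lit 0, nat_lit 0, nat_lit 3026, nat_lit 2312, nat_lit 75, nat_lit 0, nat_lit 0, nat_lit 442, nat_lit 0, nat_lit 0, nat_lit 0, nat_lit 0, nat_lit 0, nat_lit 316800, nat_lit 0, nat_lit 0, [(nat_lit 27, [(nat_lit 1, nat_lit 792)])],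
 ⟨p103_k13, nat_lit 0, nat_lit 0, nat_lit 261, nat_lit 0, nat_lit 715465, [nat_lit 747603200, nat_lit 939580800], [], [nat_lit 20847825739, nat_lit 21160336856, nat_lit 24758982372, nat_lit 25108626199, nat_lit 23068009259, nat_lit 23332443323, nat_lit 26207567442, nat_lit 26425558549], nat_lit 1271250, nat_lit 1271250, nat_lit 1100001, nat_lit 2196000, nat_lit 490000, nat_lit 1490000, [nat_lit 230000, nat_lit 780000], [nat_lit 66, nat_lit 40, nat_lit 40, nat_lit 80, nat_lit 67, nat_lit 272, nat_lit 60, nat_lit 14]⟩, ⟨p103_k18, nat_lit 0, nat_lit 0, nat_lit 282, nat_lit 0, nat_lit 0, [nat_lit 1657344000, nat_lit 2469376000, nat_lit 2924064000], [], [nat_lit 5876530662, nat_lit 5969575030, nat_lit 6969344832, nat_lit 7041592752, nat_lit 6939244631, nat_lit 6917205088, nat_lit 7228827660, nat_lit 7174655336], nat_lit 0, nat_lit 0, nat_lit 0, nat_lit 0, nat_lit 0, nat_lit 0, [], [nat_lit 62, nat_lit 40, nat_lit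 40, nat_lit 80, nat_lit 58, nat_lit 456, nat_lit 225, nat_lit 11]⟩,
 ⟨nat_lit 1936, nat_lit 2237, ⟨.ofNat (nat_lit 420202), .ofNat (nat_lit 602658), .ofNat (nat_lit 442968), .ofNat (nat_lit 625433), .ofNat (nat_lit 421092), .ofNat (nat_lit 599944), .ofNat (nat_lit 444094), .ofNat (nat_lit 622955)⟩, ⟨.ofNat (nat_lit 192306), .ofNat (nat_lit 374756), .ofNat (nat_lit 200000), .ofNat (nat_lit 420305), .ofNat (nat_lit 194266), .ofNat (nat_lit 373111), .ofNat (nat_lit 200000), .ofNat (nat_lit 419133)⟩⟩, [⟨nat_lit 4, nat_lit 100, nat_lit 41, nat_lit 87, nat_lit 169994444⟩, ⟨nat_lit 19, nat_lit 100, nat_lit 46, nat_lit 87, nat_lit 50536768⟩]⟩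
noncomputable def p103_l70 : Lf2 := ⟨nat_lit 0, nat_lit 10, [nat_lit 0, nat_lit 5, nat_lit 5, nat_lit 20], true, nat_lit 80, nat_lit 196, nat_lit 0, nat_lit 396, ⟨nat_lit 0, nat_lit 472, nat_lit 528, nat_lit 4, nat_lit 192, nat_lit 1000, nat_lit 115, nat_lit 528, nat_lit 123267, nat_lit 301, nat_lit 2400, nat_lit 227, nat_lit 49105018, nat_lit 12315033, nat_lit 5579949, nat_lit 3977069, false, true⟩,
 nat_lit 0, nat_lit 2792, nat_lit 0, nat_lit 0, nat_lit 2654, nat_lit 0, nat_lit 0, nat_lit 0, nat_lit 0, nat_lit 0, nat_lit 0, nat_lit 0, nat_lit 0, nat_lit 0, nat_lit 192, nat_lit 716800, nat_lit 0, nat_lit 0, [(nat_lit 27, [(nat_lit 1, nat_lit 472), (nat_lit 6, nat_lit 528)])],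
 ⟨p103_k19, nat_lit 0, nat_lit 0, nat_lit 268, nat_lit 0, nat_lit 738015, [nat_lit 1381964800, nat_lit 16755200], [], [nat_lit 20642844822, nat_lit 20962948156, nat_lit 23500964304, nat_lit 23788308038, nat_lit 22717808345, nat_lit 22993743143, nat_lit 25204364146, nat_lit 25441939352], nat_lit 1271250, nat_lit 1271250, nat_lit 1100001, nat_lit 1956250, nat_lit 490000, nat_lit 1396250, [nat_lit 230000, nat_lit 780000], [nat_lit 66, nat_lit 40, nat_lit 40, nat_lit 80, nat_lit 67, nat_lit 260, nat_lit 50, nat_lit 14]⟩, C1.Rw.none,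
 ⟨nat_lit 1581, nat_lit 1937, ⟨.ofNat (nat_lit 398088), .ofNat (nat_lit 537811), .ofNat (nat_lit 421086), .ofNat (nat_lit 560821), .ofNat (nat_lit 398733), .ofNat (nat_lit 535322), .ofNat (nat_lit 422035), .ofNat (nat_lit 558637)⟩, ⟨.ofNat (nat_lit 194266), .ofNat (nat_lit 356345), .ofNat (nat_lit 200000), .ofNat (nat_lit 402366), .ofNat (nat_lit 196201), .ofNat (nat_lit 354645), .ofNat (nat_lit 200000), .ofNat (nat_lit 401275)⟩⟩, [⟨nat_lit 13, nat_lit 35, nat_lit 99, nat_lit 100, nat_lit 357634864⟩, ⟨nat_lit 4, nat_lit 100, nat_lit 35, nat_lit 88, nat_lit 126683740⟩]⟩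
noncomputable def p103_l71 : Lf2 := ⟨nat_lit 0, nat_lit 10, [nat_lit 0, nat_lit 5, nat_lit 5, nat_lit 20], false, nat_lit 80, nat_lit 196, nat_lit 0, nat_lit 392, ⟨nat_lit 211, nat_lit 789, nat_lit 0, nat_lit 4, nat_lit 205, nat_lit 789, nat_lit 115, nat_lit 0, nat_lit 0, nat_lit 0, nat_lit 0, nat_lit 0, nat_lit 47852842, nat_lit 13617914, nat_lit 5529244, nat_lit 4103960, false, true⟩,
 nat_lit 0, nat_lit 3264, nat_lit 0, nat_lit 0, nat_lit 3102, nat_lit 2442, nat_lit 101, nat_lit 0, nat_lit 0, nat_lit 423, nat_lit 0, nat_lit 0, nat_lit 0, nat_lit 0, nat_lit 0, nat_lit 315600, nat_lit 0, nat_lit 0, [(nat_lit 27, [(nat_lit 1, nat_lit 789)])],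
 ⟨p103_k19, nat_lit 0, nat_lit 0, nat_lit 272, nat_lit 0, nat_lit 743154, [nat_lit 748324400, nat_lit 948453600], [], [nat_lit 21076598498, nat_lit 21383260996, nat_lit 24681635205, nat_lit 25044999711, nat_lit 22936082743, nat_lit 23201261393, nat_lit 25859154094, nat_lit 26098533185], nat_lit 1271250, nat_lit 1271250, nat_lit 1100001, nat_lit 2093250, nat_lit 490000, nat_lit 1396250, [nat_lit 230000, nat_lit 780000], [nat_lit 66, nat_lit 40, nat_lit 40, nat_lit 80, nat_lit 67, nat_lit 260, nat_lit 50, nat_lit 14]⟩, ⟨p103_k18, nat_lit 0, nat_lit 0, nat_lit 278, nat_lit 0, nat_lit 0, [nat_lit 1681248000, nat_lit 2504992000, nat_lit 2966238000], [], [nat_lit 5914531685, nat_lit 6008511513, nat_lit 6909154642, nat_lit 6992038975, nat_lit 7067502684, nat_lit 7040530274, nat_lit 7266771816, nat_lit 7210644809], nat_lit 0, nat_lit 0, nat_lit 0, nat_lit 0, nat_lit 0, nat_lit 0, [], [nat_lit 62, nat_lit 40, nat_lit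 40, nat_lit 80, nat_lit 58, nat_lit 456, nat_lit 225, nat_lit 11]⟩,
 ⟨nat_lit 1581, nat_lit 1937, ⟨.ofNat (nat_lit 421086), .ofNat (nat_lit 583177), .ofNat (nat_lit 444083), .ofNat (nat_lit 606188), .ofNat (nat_lit 422035), .ofNat (nat_lit 580491), .ofNat (nat_lit 445336), .ofNat (nat_lit 603807)⟩, ⟨.ofNat (nat_lit 194266), .ofNat (nat_lit 356345), .ofNat (nat_lit 200000), .ofNat (nat_lit 402366), .ofNat (nat_lit 196201), .ofNat (nat_lit 354645), .ofNat (nat_lit 200000), .ofNat (nat_lit 401275)⟩⟩, [⟨nat_lit 16, nat_lit 35, nat_lit 100, nat_lit 88, nat_lit 170041032⟩, ⟨nat_lit 19, nat_lit 100, nat_lit 31, nat_lit 92, nat_lit 49642042⟩]⟩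
noncomputable def p103_l72 : Lf2 := ⟨nat_lit 0, nat_lit 10, [nat_lit 0, nat_lit 5, nat_lit 5, nat_lit 20], true, nat_lit 80, nat_lit 184, nat_lit 0, nat_lit 396, ⟨nat_lit 0, nat_lit 171, nat_lit 829, nat_lit 4, nat_lit 187, nat_lit 1000, nat_lit 112, nat_lit 829, nat_lit 117600, nat_lit 299, nat_lit 11662, nat_lit 239, nat_lit 49757063, nat_lit 11890900, nat_lit 5352037, nat_lit 3886872, false, true⟩,
 nat_lit 0, nat_lit 2758, nat_lit 0, nat_lit 0, nat_lit 2666, nat_lit 0, nat_lit 0, nat_lit 0, nat_lit 0, nat_lit 0, nat_lit 0, nat_lit 0, nat_lit 0, nat_lit 0, nat_lit 242, nat_lit 709600, nat_lit 0, nat_lit 0, [(nat_lit 27, [(nat_lit 1, nat_lit 171), (nat_lit 5, nat_lit 313), (nat_lit 6, nat_lit 516)])],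
 ⟨p103_k17, nat_lit 0, nat_lit 0, nat_lit 281, nat_lit 0, nat_lit 765288, [nat_lit 1551063201, nat_lit 10745200], [], [nat_lit 20951868847, nat_lit 21263062845, nat_lit 23194587269, nat_lit 23551681003, nat_lit 22678153460, nat_lit 22951444275, nat_lit 24664775276, nat_lit 24906482735], nat_lit 1271250, nat_lit 1271250, nat_lit 1100001, nat_lit 1819250, nat_lit 490000, nat_lit 1302500, [nat_lit 230000, nat_lit 780000], [nat_lit 66, nat_lit 40, nat_lit 40, nat_lit 80, nat_lit 67, nat_lit 260, nat_lit 50, nat_lit 14]⟩, C1.Rw.none,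
 ⟨nat_lit 1118, nat_lit 1582, ⟨.ofNat (nat_lit 398733), .ofNat (nat_lit 513468), .ofNat (nat_lit 422017), .ofNat (nat_lit 536783), .ofNat (nat_lit 399370), .ofNat (nat_lit 510937), .ofNat (nat_lit 423090), .ofNat (nat_lit 534687)⟩, ⟨.ofNat (nat_lit 196201), .ofNat (nat_lit 338254), .ofNat (nat_lit 200000), .ofNat (nat_lit 384884), .ofNat (nat_lit 198112), .ofNat (nat_lit 336242), .ofNat (nat_lit 200000), .ofNat (nat_lit 383744)⟩⟩, [⟨nat_lit 13, nat_lit 31, nat_lit 98, nat_lit 100, nat_lit 404587450⟩, ⟨nat_lit 16, nat_lit 28, nat_lit 100, nat_lit 89, nat_lit 136764766⟩]⟩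
noncomputable def p103_l73 : Lf2 := ⟨nat_lit 0, nat_lit 10, [nat_lit 0, nat_lit 5, nat_lit 5, nat_lit 20], false, nat_lit 80, nat_lit 184, nat_lit 0, nat_lit 392, ⟨nat_lit 200, nat_lit 684, nat_lit 116, nat_lit 4, nat_lit 202, nat_lit 800, nat_lit 112, nat_lit 116, nat_lit 117600, nat_lit 299, nat_lit 3443, nat_lit 217, nat_lit 48395797, nat_lit 13299780, nat_lit 5304423, nat_lit 4029626, false, true⟩,
 nat_lit 0, nat_lit 3138, nat_lit 0, nat_lit 0, nat_lit 3033, nat_lit 2354, nat_lit 0, nat_lit 0, nat_lit 0, nat_lit 412, nat_lit 0, nat_lit 0, nat_lit 0, nat_lit 0, nat_lit 0, nat_lit 389600, nat_lit 0, nat_lit 0, [(nat_lit 27, [(nat_lit 1, nat_lit 684), (nat_lit 6, nat_lit 116)])],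
 ⟨p103_k17, nat_lit 0, nat_lit 0, nat_lit 284, nat_lit 0, nat_lit 769728, [nat_lit 727305601, nat_lit 340420800], [], [nat_lit 21387390144, nat_lit 21723918474, nat_lit 24470578743, nat_lit 24839443568, nat_lit 22944786676, nat_lit 23217306943, nat_lit 25519673128, nat_lit 25765997090], nat_lit 1271250, nat_lit 1271250, nat_lit 1100001, nat_lit 1990500, nat_lit 490000, nat_lit 1302500, [nat_lit 230000, nat_lit 780000], [nat_lit 66, nat_lit 40, nat_lit 40, nat_lit 80, nat_lit 67, nat_lit 260, nat_lit 50, nat_lit 14]⟩, ⟨p103_k18, nat_lit 0, nat_lit 0, nat_lit 275, nat_lit 0, nat_lit 0, [nat_lit 1593600000, nat_lit 2374400000, nat_lit 2811600000], [], [nat_lit 5551578248, nat_lit 5640493324, nat_lit 6339957593, nat_lit 6428047854, nat_lit 6674914728, nat_lit 6647471597, nat_lit 6800624748, nat_lit 6743958628], nat_lit 0, nat_lit 0, nat_lit 0, nat_lit 0, nat_lit 0, nat_lit 0, [], [nat_lit 62, nat_lit 40, nat_lit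 40, nat_lit 80, nat_lit 58, nat_lit 456, nat_lit 225, nat_lit 11]⟩,
 ⟨nat_lit 1118, nat_lit 1582, ⟨.ofNat (nat_lit 422017), .ofNat (nat_lit 564101), .ofNat (nat_lit 445300), .ofNat (nat_lit 587416), .ofNat (nat_lit 423090), .ofNat (nat_lit 561251), .ofNat (nat_lit 446809), .ofNat (nat_lit 585002)⟩, ⟨.ofNat (nat_lit 196201), .ofNat (nat_lit 338254), .ofNat (nat_lit 200000), .ofNat (nat_lit 384884), .ofNat (nat_lit 198112), .ofNat (nat_lit 336242), .ofNat (nat_lit 200000), .ofNat (nat_lit 383744)⟩⟩, [⟨nat_lit 13, nat_lit 22, nat_lit 100, nat_lit 100, nat_lit 25288229⟩, ⟨nat_lit 4, nat_lit 100, nat_lit 28, nat_lit 89, nat_lit 178315401⟩, ⟨nat_lit 19, nat_lit 100, nat_lit 46, nat_lit 87, nat_lit 51318598⟩]⟩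
noncomputable def p103_l74 : Lf2 := ⟨nat_lit 0, nat_lit 10, [nat_lit 0, nat_lit 5, nat_lit 5, nat_lit 20], true, nat_lit 80, nat_lit 164, nat_lit 0, nat_lit 396, ⟨nat_lit 0, nat_lit 467, nat_lit 533, nat_lit 4, nat_lit 192, nat_lit 1000, nat_lit 106, nat_lit 533, nat_lit 106667, nat_lit 295, nat_lit 2823, nat_lit 226, nat_lit 49639711, nat_lit 12418210, nat_lit 4942079, nat_lit 3866115, false, true⟩,
 nat_lit 0, nat_lit 2735, nat_lit 0, nat_lit 0, nat_lit 2689, nat_lit 0, nat_lit 0, nat_lit 0, nat_lit 0, nat_lit 0, nat_lit 0, nat_lit 0, nat_lit 0, nat_lit 0, nat_lit 112, nat_lit 719800, nat_lit 0, nat_lit 0, [(nat_lit 27, [(nat_lit 1, nat_lit 467), (nat_lit 6, nat_lit 533)])],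
 ⟨p103_k20, nat_lit 0, nat_lit 0, nat_lit 257, nat_lit 0, nat_lit 816234, [nat_lit 1050939201, nat_lit 7975200], [], [nat_lit 21403333222, nat_lit 21715740539, nat_lit 23739128650, nat_lit 24095115546, nat_lit 22610093031, nat_lit 22892280967, nat_lit 24743369701, nat_lit 24990956109], nat_lit 1271250, nat_lit 1271250, nat_lit 1100001, nat_lit 1853500, nat_lit 490000, nat_lit 1133651, [nat_lit 230000, nat_lit 490000], [nat_lit 193, nat_lit 40, nat_lit 40, nat_lit 80, nat_lit 5, nat_lit 203, nat_lit 0, nat_lit 14]⟩, C1.Rw.none,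
 ⟨nat_lit 0, nat_lit 1119, ⟨.ofNat (nat_lit 399370), .ofNat (nat_lit 516245), .ofNat (nat_lit 445943), .ofNat (nat_lit 563749), .ofNat (nat_lit 399999), .ofNat (nat_lit 509995), .ofNat (nat_lit 449070), .ofNat (nat_lit 559997)⟩, ⟨.ofNat (nat_lit 198112), .ofNat (nat_lit 309675), .ofNat (nat_lit 200000), .ofNat (nat_lit 357179), .ofNat (nat_lit 199999), .ofNat (nat_lit 304995), .ofNat (nat_lit 200000), .ofNat (nat_lit 354998)⟩⟩, [⟨nat_lit 13, nat_lit 22, nat_lit 98, nat_lit 100, nat_lit 467950585⟩, ⟨nat_lit 16, nat_lit 23, nat_lit 100, nat_lit 93, nat_lit 23672343⟩, ⟨nat_lit 4, nat_lit 100, nat_lit 17, nat_lit 93, nat_lit 123429035⟩]⟩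
noncomputable def b_V_900_400_20_2 : St := ⟨true, nat_lit 1, nat_lit 0, nat_lit 1, nat_lit 120, nat_lit 380, nat_lit 400, nat_lit 160, nat_lit 200, nat_lit 48, nat_lit 320, nat_lit 80, nat_lit 120, nat_lit 8, nat_lit 248, nat_lit 0, nat_lit 396, nat_lit 0, nat_lit 40, nat_lit 0, nat_lit 0, nat_lit 0, nat_lit 0⟩
theorem d_V_900_400_20_2 (h : EB TB.env) : Dead b_V_900_400_20_2 := chkB_sound0 h (T :=
(.trZ (nat_lit 0) (nat_lit 100) (nat_lit 44) (nat_lit 81) (nat_lit 76) (.trX (nat_lit 13) (nat_lit 44) (nat_lit 90) (nat_lit 100) (nat_lit 288) (.trZ (nat_lit 3) (nat_lit 100) (nat_lit 54) (nat_lit 57) (nat_lit 20) (.trX (nat_lit 16) (nat_lit 44) (nat_lit 100) (nat_lit 92) (nat_lit 208) (.spl (nat_lit 4) (nat_lit 80)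
(.spl (nat_lit 2) (nat_lit 160)
(.leaf p103_l64)
(.trX (nat_lit 22) (nat_lit 100) (nat_lit 44) (nat_lit 82) (nat_lit 384) (.spl (nat_lit 0) (nat_lit 390)
(.leaf p103_l65)
(.trX (nat_lit 13) (nat_lit 31) (nat_lit 95) (nat_lit 100) (nat_lit 264) (.trZ (nat_lit 3) (nat_lit 100) (nat_lit 39) (nat_lit 72) (nat_lit 36) (.leaf p103_l66))))))
(.spl (nat_lit 2) (nat_lit 160)
(.leaf p103_l67)
(.spl (nat_lit 0) (nat_lit 390)
(.spl (nat_lit 0) (nat_lit 385)
(.spl (nat_lit 1) (nat_lit 180)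
(.trX (nat_lit 13) (nat_lit 44) (nat_lit 94) (nat_lit 100) (nat_lit 272) (.leaf p103_l68))
(.trX (nat_lit 19) (nat_lit 100) (nat_lit 31) (nat_lit 92) (nat_lit 392) (.leaf p103_l69)))
(.trX (nat_lit 13) (nat_lit 38) (nat_lit 93) (nat_lit 100) (nat_lit 276) (.trX (nat_lit 16) (nat_lit 38) (nat_lit 100) (nat_lit 92) (nat_lit 196) (.spl (nat_lit 1) (nat_lit 180)
(.trX (nat_lit 13) (nat_lit 38) (nat_lit 96) (nat_lit 100) (nat_lit 260) (.leaf p103_l70))
(.trX (nat_lit 19) (nat_lit 100) (nat_lit 31) (nat_lit 92) (nat_lit 392) (.leaf p103_l71))))))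
(.trX (nat_lit 13) (nat_lit 31) (nat_lit 95) (nat_lit 100) (nat_lit 264) (.trX (nat_lit 16) (nat_lit 31) (nat_lit 100) (nat_lit 92) (nat_lit 184) (.spl (nat_lit 0) (nat_lit 395)
(.spl (nat_lit 1) (nat_lit 180)
(.trX (nat_lit 13) (nat_lit 31) (nat_lit 98) (nat_lit 100) (nat_lit 244) (.leaf p103_l72))
(.trX (nat_lit 19) (nat_lit 100) (nat_lit 31) (nat_lit 92) (nat_lit 392) (.leaf p103_l73)))
(.trX (nat_lit 13) (nat_lit 22) (nat_lit 98) (nat_lit 100) (nat_lit 248) (.trX (nat_lit 16) (nat_lit 23) (nat_lit 100) (nat_lit 93) (nat_lit 164) (.leaf p103_l74)))))))))))))) (by decide +kernel)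
noncomputable def p103_l75 : Lf2 := ⟨nat_lit 0, nat_lit 10, [nat_lit 0, nat_lit 5, nat_lit 5, nat_lit 20], true, nat_lit 8, nat_lit 80, nat_lit 0, nat_lit 396, ⟨nat_lit 0, nat_lit 0, nat_lit 1000, nat_lit 4, nat_lit 134, nat_lit 1000, nat_lit 43, nat_lit 1000, nat_lit 17067, nat_lit 247, nat_lit 170017, nat_lit 316, nat_lit 58823742, nat_lit 0, nat_lit 0, nat_lit 2194765, false, false⟩,
 nat_lit 0, nat_lit 3181, nat_lit 0, nat_lit 0, nat_lit 2770, nat_lit 0, nat_lit 0, nat_lit 0, nat_lit 0, nat_lit 0, nat_lit 0, nat_lit 0, nat_lit 0, nat_lit 0, nat_lit 39, nat_lit 250000, nat_lit 0, nat_lit 0, [(nat_lit 24, [(nat_lit 0, nat_lit 169), (nat_lit 4, nat_lit 831)])],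
 ⟨p103_k21, nat_lit 0, nat_lit 0, nat_lit 408, nat_lit 0, nat_lit 751868, [nat_lit 938811601, nat_lit 44181600], [], [nat_lit 20134147165, nat_lit 21837740861, nat_lit 21610746775, nat_lit 22760071912, nat_lit 20171688124, nat_lit 21390715291, nat_lit 21627741691, nat_lit 22714200352], nat_lit 1271250, nat_lit 1271250, nat_lit 279600, nat_lit 1100001, nat_lit 43600, nat_lit 490000, [nat_lit 230000, nat_lit 1100000], [nat_lit 86, nat_lit 40, nat_lit 40, nat_lit 80, nat_lit 87, nat_lit 272, nat_lit 60, nat_lit 12]⟩, C1.Rw.none,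
 ⟨nat_lit 2236, nat_lit 3163, ⟨.ofNat (nat_lit 223799), .ofNat (nat_lit 394735), .ofNat (nat_lit 267982), .ofNat (nat_lit 438942), .ofNat (nat_lit 237524), .ofNat (nat_lit 397434), .ofNat (nat_lit 282946), .ofNat (nat_lit 442880)⟩, ⟨.ofNat (nat_lit 20000), .ofNat (nat_lit 184209), .ofNat (nat_lit 20000), .ofNat (nat_lit 200000), .ofNat (nat_lit 20000), .ofNat (nat_lit 192306), .ofNat (nat_lit 20000), .ofNat (nat_lit 200000)⟩⟩, [⟨nat_lit 3, nat_lit 100, nat_lit 61, nat_lit 55, nat_lit 189250965⟩]⟩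
noncomputable def p103_l76 : Lf2 := ⟨nat_lit 0, nat_lit 10, [nat_lit 0, nat_lit 5, nat_lit 5, nat_lit 20], false, nat_lit 8, nat_lit 80, nat_lit 0, nat_lit 384, ⟨nat_lit 0, nat_lit 280, nat_lit 720, nat_lit 4, nat_lit 191, nat_lit 1000, nat_lit 43, nat_lit 720, nat_lit 17067, nat_lit 247, nat_lit 2400, nat_lit 227, nat_lit 53288177, nat_lit 12450236, nat_lit 1261587, nat_lit 2946428, false, true⟩,
 nat_lit 0, nat_lit 3101, nat_lit 0, nat_lit 0, nat_lit 2700, nat_lit 0, nat_lit 0, nat_lit 0, nat_lit 0, nat_lit 0, nat_lit 0, nat_lit 0, nat_lit 0, nat_lit 0, nat_lit 20, nat_lit 250000, nat_lit 0, nat_lit 0, [(nat_lit 24, [(nat_lit 0, nat_lit 280), (nat_lit 4, nat_lit 720)])],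
 ⟨p103_k21, nat_lit 0, nat_lit 0, nat_lit 276, nat_lit 0, nat_lit 516542, [nat_lit 860192000, nat_lit 40985600], [], [nat_lit 20529766160, nat_lit 21763333201, nat_lit 22767554400, nat_lit 23867691160, nat_lit 20441733200, nat_lit 21602893800, nat_lit 22588544400, nat_lit 23619026000], nat_lit 1271250, nat_lit 1271250, nat_lit 1100001, nat_lit 1785000, nat_lit 43600, nat_lit 490000, [nat_lit 230000, nat_lit 1100000], [nat_lit 86, nat_lit 40, nat_lit 40, nat_lit 80, nat_lit 87, nat_lit 226, nat_lit 20, nat_lit 9]⟩, ⟨p103_k22, nat_lit 0, nat_lit 0, nat_lit 1208, nat_lit 0, nat_lit 1810837, [nat_lit 0, nat_lit 0], [], [nat_lit 0, nat_lit 0, nat_lit 0, nat_lit 0, nat_lit 0, nat_lit 0, nat_lit 0, nat_lit 0], nat_lit 1100001, nat_lit 1442500, nat_lit 1271250, nat_lit 1271250, nat_lit 0, nat_lit 2712000, [nat_lit 1695000, nat_lit 1271250], [nat_lit 121, nat_lit 40, nat_lit 40, nat_lit 80, nat_lit 28, nat_lit 456,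 nat_lit 225, nat_lit 11]⟩,
 ⟨nat_lit 2236, nat_lit 3163, ⟨.ofNat (nat_lit 394735), .ofNat (nat_lit 516642), .ofNat (nat_lit 438942), .ofNat (nat_lit 560952), .ofNat (nat_lit 397434), .ofNat (nat_lit 511466), .ofNat (nat_lit 442880), .ofNat (nat_lit 557014)⟩, ⟨.ofNat (nat_lit 20000), .ofNat (nat_lit 184209), .ofNat (nat_lit 20000), .ofNat (nat_lit 200000), .ofNat (nat_lit 20000), .ofNat (nat_lit 192306), .ofNat (nat_lit 20000), .ofNat (nat_lit 200000)⟩⟩, [⟨nat_lit 3, nat_lit 100, nat_lit 48, nat_lit 71, nat_lit 283786745⟩]⟩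
noncomputable def p103_l77 : Lf2 := ⟨nat_lit 0, nat_lit 10, [nat_lit 0, nat_lit 5, nat_lit 5, nat_lit 20], false, nat_lit 8, nat_lit 80, nat_lit 0, nat_lit 336, ⟨nat_lit 0, nat_lit 1000, nat_lit 0, nat_lit 6, nat_lit 230, nat_lit 1000, nat_lit 43, nat_lit 0, nat_lit 0, nat_lit 0, nat_lit 0, nat_lit 0, nat_lit 49247690, nat_lit 16517438, nat_lit 1234872, nat_lit 3328073, false, true⟩,
 nat_lit 0, nat_lit 3310, nat_lit 0, nat_lit 0, nat_lit 2882, nat_lit 0, nat_lit 113, nat_lit 0, nat_lit 0, nat_lit 0, nat_lit 0, nat_lit 0, nat_lit 0, nat_lit 0, nat_lit 0, nat_lit 400000, nat_lit 0, nat_lit 0, [(nat_lit 24, [(nat_lit 1, nat_lit 1000)])],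
 ⟨p103_k11, nat_lit 0, nat_lit 0, nat_lit 262, nat_lit 0, nat_lit 447902, [nat_lit 848000000, nat_lit 997333334, nat_lit 954400000], [], [nat_lit 23548287103, nat_lit 24092701189, nat_lit 25865311439, nat_lit 26369443639, nat_lit 23251497573, nat_lit 23779124322, nat_lit 25470219154, nat_lit 25965946839], nat_lit 1271250, nat_lit 1271250, nat_lit 1271250, nat_lit 1271250, nat_lit 43600, nat_lit 490000, [nat_lit 230000, nat_lit 780000, nat_lit 1100000], [nat_lit 35, nat_lit 40, nat_lit 40, nat_lit 80, nat_lit 22, nat_lit 226, nat_lit 20, nat_lit 9]⟩, ⟨p103_k12, nat_lit 0, nat_lit 0, nat_lit 1082, nat_lit 0, nat_lit 1570206, [nat_lit 0, nat_lit 0, nat_lit 0], [], [nat_lit 0, nat_lit 0, nat_lit 0, nat_lit 0, nat_lit 0, nat_lit 0, nat_lit 0, nat_lit 0], nat_lit 1100001, nat_lit 1271250, nat_lit 1271250, nat_lit 1271250, nat_lit 0, nat_lit 2373000, [nat_lit 1695000, nat_lit 1271250, nat_lit 1271250], [nat_lit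 62, nat_lit 40, nat_lit 40, nat_lit 80, nat_lit 58, nat_lit 456, nat_lit 225, nat_lit 11]⟩,
 ⟨nat_lit 2738, nat_lit 3163, ⟨.ofNat (nat_lit 516642), .ofNat (nat_lit 614167), .ofNat (nat_lit 538797), .ofNat (nat_lit 636322), .ofNat (nat_lit 514225), .ofNat (nat_lit 608723), .ofNat (nat_lit 536642), .ofNat (nat_lit 631141)⟩, ⟨.ofNat (nat_lit 20000), .ofNat (nat_lit 184209), .ofNat (nat_lit 20000), .ofNat (nat_lit 200000), .ofNat (nat_lit 20000), .ofNat (nat_lit 188310), .ofNat (nat_lit 20000), .ofNat (nat_lit 200000)⟩⟩, [⟨nat_lit 13, nat_lit 57, nat_lit 91, nat_lit 100, nat_lit 10012451⟩, ⟨nat_lit 13, nat_lit 60, nat_lit 86, nat_lit 100, nat_lit 242910598⟩, ⟨nat_lit 3, nat_lit 100, nat_lit 65, nat_lit 50, nat_lit 27811180⟩, ⟨nat_lit 3, nat_lit 100, nat_lit 57, nat_lit 62, nat_lit 222429593⟩]⟩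
noncomputable def p103_l78 : Lf2 := ⟨nat_lit 0, nat_lit 10, [nat_lit 0, nat_lit 5, nat_lit 5, nat_lit 20], false, nat_lit 8, nat_lit 80, nat_lit 0, nat_lit 336, ⟨nat_lit 109, nat_lit 560, nat_lit 331, nat_lit 6, nat_lit 244, nat_lit 891, nat_lit 43, nat_lit 331, nat_lit 17067, nat_lit 247, nat_lit 94468, nat_lit 200, nat_lit 47811480, nat_lit 17966174, nat_lit 1222346, nat_lit 3437376, true, true⟩,
 nat_lit 2848, nat_lit 249, nat_lit 0, nat_lit 0, nat_lit 2697, nat_lit 1083, nat_lit 118, nat_lit 0, nat_lit 0, nat_lit 294, nat_lit 0, nat_lit 0, nat_lit 0, nat_lit 0, nat_lit 0, nat_lit 272400, nat_lit 0, nat_lit 0, [(nat_lit 24, [(nat_lit 0, nat_lit 560), (nat_lit 5, nat_lit 331)])],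
 ⟨p103_k11, nat_lit 0, nat_lit 0, nat_lit 264, nat_lit 0, nat_lit 442990, [nat_lit 770866800, nat_lit 867131867, nat_lit 856558400], [], [nat_lit 23379900023, nat_lit 23897886745, nat_lit 26242531429, nat_lit 26714209852, nat_lit 23175450061, nat_lit 23667597493, nat_lit 25913918586, nat_lit 26378074999], nat_lit 1271250, nat_lit 1271250, nat_lit 1271250, nat_lit 1271250, nat_lit 43600, nat_lit 490000, [nat_lit 230000, nat_lit 780000, nat_lit 1100000], [nat_lit 35, nat_lit 40, nat_lit 40, nat_lit 80, nat_lit 22, nat_lit 226, nat_lit 20, nat_lit 9]⟩, ⟨p103_k18, nat_lit 0, nat_lit 0, nat_lit 945, nat_lit 0, nat_lit 1290625, [nat_lit 868512000, nat_lit 1294048000, nat_lit 1532322000], [], [nat_lit 4006423554, nat_lit 3985034226, nat_lit 4173614346, nat_lit 4146849160, nat_lit 5464067284, nat_lit 4982383107, nat_lit 3561414329, nat_lit 3446690539], nat_lit 1271250, nat_lit 1271250, nat_lit 1271250, nat_lit 1271250,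 nat_lit 0, nat_lit 2373000, [nat_lit 1695000, nat_lit 1271250, nat_lit 1271250], [nat_lit 62, nat_lit 40, nat_lit 40, nat_lit 80, nat_lit 58, nat_lit 456, nat_lit 225, nat_lit 10]⟩,
 ⟨nat_lit 2738, nat_lit 3163, ⟨.ofNat (nat_lit 538797), .ofNat (nat_lit 660704), .ofNat (nat_lit 560952), .ofNat (nat_lit 682859), .ofNat (nat_lit 536642), .ofNat (nat_lit 654765), .ofNat (nat_lit 559060), .ofNat (nat_lit 677182)⟩, ⟨.ofNat (nat_lit 20000), .ofNat (nat_lit 184209), .ofNat (nat_lit 20000), .ofNat (nat_lit 200000), .ofNat (nat_lit 20000), .ofNat (nat_lit 188310), .ofNat (nat_lit 20000), .ofNat (nat_lit 200000)⟩⟩, [⟨nat_lit 3, nat_lit 100, nat_lit 57, nat_lit 62, nat_lit 161606454⟩, ⟨nat_lit 22, nat_lit 95, nat_lit 100, nat_lit 65, nat_lit 16573765⟩]⟩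
noncomputable def p103_l79 : Lf2 := ⟨nat_lit 0, nat_lit 10, [nat_lit 0, nat_lit 5, nat_lit 5, nat_lit 20], false, nat_lit 12, nat_lit 80, nat_lit 0, nat_lit 336, ⟨nat_lit 0, nat_lit 1000, nat_lit 0, nat_lit 6, nat_lit 234, nat_lit 1000, nat_lit 45, nat_lit 0, nat_lit 0, nat_lit 0, nat_lit 0, nat_lit 0, nat_lit 48726732, nat_lit 16936471, nat_lit 1336797, nat_lit 3395826, false, true⟩,
 nat_lit 0, nat_lit 2992, nat_lit 0, nat_lit 0, nat_lit 2700, nat_lit 0, nat_lit 265, nat_lit 0, nat_lit 0, nat_lit 0, nat_lit 0, nat_lit 0, nat_lit 0, nat_lit 0, nat_lit 0, nat_lit 250000, nat_lit 0, nat_lit 0, [(nat_lit 24, [(nat_lit 0, nat_lit 1000)])],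
 ⟨p103_k15, nat_lit 0, nat_lit 0, nat_lit 278, nat_lit 0, nat_lit 495055, [nat_lit 763200001, nat_lit 1367200000, nat_lit 1705600000], [], [nat_lit 23664645706, nat_lit 24207316366, nat_lit 26082567947, nat_lit 26713127360, nat_lit 23455751406, nat_lit 23969700906, nat_lit 25785016258, nat_lit 26264383318], nat_lit 1271250, nat_lit 1271250, nat_lit 1271250, nat_lit 1271250, nat_lit 65850, nat_lit 490000, [nat_lit 230000, nat_lit 780000, nat_lit 1100000], [nat_lit 35, nat_lit 40, nat_lit 40, nat_lit 80, nat_lit 22, nat_lit 226, nat_lit 20, nat_lit 9]⟩, ⟨p103_k12, nat_lit 0, nat_lit 0, nat_lit 1185, nat_lit 0, nat_lit 1810837, [nat_lit 0, nat_lit 0, nat_lit 0], [], [nat_lit 0, nat_lit 0, nat_lit 0, nat_lit 0, nat_lit 0, nat_lit 0, nat_lit 0, nat_lit 0], nat_lit 1100001, nat_lit 1442500, nat_lit 1271250, nat_lit 1271250, nat_lit 0, nat_lit 2373000, [nat_lit 1695000, nat_lit 1271250, nat_lit 1271250], [nat_lit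 62, nat_lit 40, nat_lit 40, nat_lit 80, nat_lit 58, nat_lit 456, nat_lit 225, nat_lit 11]⟩,
 ⟨nat_lit 2236, nat_lit 2739, ⟨.ofNat (nat_lit 514225), .ofNat (nat_lit 614629), .ofNat (nat_lit 559060), .ofNat (nat_lit 659464), .ofNat (nat_lit 511466), .ofNat (nat_lit 608392), .ofNat (nat_lit 557014), .ofNat (nat_lit 653941)⟩, ⟨.ofNat (nat_lit 30000), .ofNat (nat_lit 188310), .ofNat (nat_lit 30000), .ofNat (nat_lit 200000), .ofNat (nat_lit 30000), .ofNat (nat_lit 192306), .ofNat (nat_lit 30000), .ofNat (nat_lit 200000)⟩⟩, [⟨nat_lit 13, nat_lit 53, nat_lit 85, nat_lit 100, nat_lit 299336508⟩, ⟨nat_lit 3, nat_lit 100, nat_lit 56, nat_lit 60, nat_lit 237029317⟩]⟩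
noncomputable def p103_l80 : Lf2 := ⟨nat_lit 0, nat_lit 10, [nat_lit 0, nat_lit 5, nat_lit 5, nat_lit 20], false, nat_lit 80, nat_lit 160, nat_lit 0, nat_lit 396, ⟨nat_lit 0, nat_lit 1000, nat_lit 0, nat_lit 4, nat_lit 181, nat_lit 1000, nat_lit 104, nat_lit 0, nat_lit 0, nat_lit 0, nat_lit 0, nat_lit 0, nat_lit 50761972, nat_lit 11403445, nat_lit 4834583, nat_lit 3729398, false, true⟩,
 nat_lit 0, nat_lit 3424, nat_lit 0, nat_lit 0, nat_lit 2982, nat_lit 0, nat_lit 135, nat_lit 0, nat_lit 0, nat_lit 0, nat_lit 0, nat_lit 0, nat_lit 0, nat_lit 0, nat_lit 0, nat_lit 388600, nat_lit 0, nat_lit 0, [(nat_lit 24, [(nat_lit 0, nat_lit 76), (nat_lit 1, nat_lit 924)])],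
 ⟨p103_k11, nat_lit 0, nat_lit 0, nat_lit 244, nat_lit 0, nat_lit 447902, [nat_lit 841555200, nat_lit 1025443201, nat_lit 1011491200], [], [nat_lit 18992049882, nat_lit 19647256640, nat_lit 25076599235, nat_lit 25553449518, nat_lit 20095525727, nat_lit 20721412232, nat_lit 25748315009, nat_lit 26217460607], nat_lit 1271250, nat_lit 1271250, nat_lit 279600, nat_lit 2323000, nat_lit 490000, nat_lit 1100001, [nat_lit 230000, nat_lit 780000, nat_lit 1100000], [nat_lit 35, nat_lit 40, nat_lit 40, nat_lit 80, nat_lit 22, nat_lit 345, nat_lit 125, nat_lit 16]⟩, ⟨p103_k12, nat_lit 0, nat_lit 0, nat_lit 1180, nat_lit 0, nat_lit 1570206, [nat_lit 0, nat_lit 0, nat_lit 0], [], [nat_lit 0, nat_lit 0, nat_lit 0, nat_lit 0, nat_lit 0, nat_lit 0, nat_lit 0, nat_lit 0], nat_lit 1100001, nat_lit 1442500, nat_lit 279600, nat_lit 2323000, nat_lit 0, nat_lit 2796750, [nat_lit 1695000, nat_lit 1271250, nat_lit 1271250], [nat_lit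 62, nat_lit 40, nat_lit 40, nat_lit 80, nat_lit 58, nat_lit 483, nat_lit 250, nat_lit 12]⟩,
 ⟨nat_lit 2738, nat_lit 3163, ⟨.ofNat (nat_lit 224021), .ofNat (nat_lit 638549), .ofNat (nat_lit 268308), .ofNat (nat_lit 682859), .ofNat (nat_lit 230686), .ofNat (nat_lit 632348), .ofNat (nat_lit 275497), .ofNat (nat_lit 677182)⟩, ⟨.ofNat (nat_lit 184209), .ofNat (nat_lit 306116), .ofNat (nat_lit 200000), .ofNat (nat_lit 350426), .ofNat (nat_lit 188310), .ofNat (nat_lit 306433), .ofNat (nat_lit 200000), .ofNat (nat_lit 351268)⟩⟩, [⟨nat_lit 13, nat_lit 57, nat_lit 88, nat_lit 100, nat_lit 74353275⟩]⟩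
noncomputable def p103_l81 : Lf2 := ⟨nat_lit 0, nat_lit 10, [nat_lit 0, nat_lit 5, nat_lit 5, nat_lit 20], false, nat_lit 80, nat_lit 160, nat_lit 0, nat_lit 396, ⟨nat_lit 0, nat_lit 1000, nat_lit 0, nat_lit 4, nat_lit 182, nat_lit 1000, nat_lit 105, nat_lit 0, nat_lit 0, nat_lit 0, nat_lit 0, nat_lit 0, nat_lit 50712782, nat_lit 11418995, nat_lit 4868223, nat_lit 3737967, false, true⟩,
 nat_lit 0, nat_lit 3147, nat_lit 0, nat_lit 0, nat_lit 2839, nat_lit 0, nat_lit 304, nat_lit 0, nat_lit 0, nat_lit 0, nat_lit 0, nat_lit 0, nat_lit 0, nat_lit 0, nat_lit 0, nat_lit 250000, nat_lit 0, nat_lit 0, [(nat_lit 24, [(nat_lit 0, nat_lit 1000)])],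
 ⟨p103_k15, nat_lit 0, nat_lit 0, nat_lit 259, nat_lit 0, nat_lit 495055, [nat_lit 763200001, nat_lit 1367200000, nat_lit 1705600000], [], [nat_lit 19050185301, nat_lit 19744126713, nat_lit 24924917967, nat_lit 25426890490, nat_lit 20257549725, nat_lit 20879112790, nat_lit 25683705457, nat_lit 26143079096], nat_lit 1271250, nat_lit 1271250, nat_lit 356250, nat_lit 2247250, nat_lit 490000, nat_lit 1100001, [nat_lit 230000, nat_lit 780000, nat_lit 1100000], [nat_lit 35, nat_lit 40, nat_lit 40, nat_lit 80, nat_lit 22, nat_lit 345, nat_lit 125, nat_lit 16]⟩, ⟨p103_k12, nat_lit 0, nat_lit 0, nat_lit 1284, nat_lit 0, nat_lit 1810837, [nat_lit 0, nat_lit 0, nat_lit 0], [], [nat_lit 0, nat_lit 0, nat_lit 0, nat_lit 0, nat_lit 0, nat_lit 0, nat_lit 0, nat_lit 0], nat_lit 1100001, nat_lit 1442500, nat_lit 356250, nat_lit 2247250, nat_lit 0, nat_lit 2796750, [nat_lit 1695000, nat_lit 1271250, nat_lit 1271250], [nat_lit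 62, nat_lit 40, nat_lit 40, nat_lit 80, nat_lit 58, nat_lit 483, nat_lit 250, nat_lit 12]⟩,
 ⟨nat_lit 2236, nat_lit 2739, ⟨.ofNat (nat_lit 248369), .ofNat (nat_lit 614629), .ofNat (nat_lit 293163), .ofNat (nat_lit 659464), .ofNat (nat_lit 254815), .ofNat (nat_lit 608392), .ofNat (nat_lit 300323), .ofNat (nat_lit 653941)⟩, ⟨.ofNat (nat_lit 188310), .ofNat (nat_lit 306433), .ofNat (nat_lit 200000), .ofNat (nat_lit 351268), .ofNat (nat_lit 192306), .ofNat (nat_lit 306337), .ofNat (nat_lit 200000), .ofNat (nat_lit 351886)⟩⟩, [⟨nat_lit 13, nat_lit 49, nat_lit 92, nat_lit 100, nat_lit 108608814⟩]⟩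
noncomputable def p103_l82 : Lf2 := ⟨nat_lit 0, nat_lit 10, [nat_lit 0, nat_lit 5, nat_lit 5, nat_lit 20], true, nat_lit 160, nat_lit 248, nat_lit 0, nat_lit 396, ⟨nat_lit 0, nat_lit 0, nat_lit 1000, nat_lit 4, nat_lit 134, nat_lit 1000, nat_lit 157, nat_lit 1000, nat_lit 61189, nat_lit 275, nat_lit 170017, nat_lit 316, nat_lit 50751251, nat_lit 0, nat_lit 0, nat_lit 3850737, false, false⟩,
 nat_lit 0, nat_lit 3391, nat_lit 0, nat_lit 0, nat_lit 2953, nat_lit 0, nat_lit 0, nat_lit 0, nat_lit 0, nat_lit 0, nat_lit 0, nat_lit 0, nat_lit 0, nat_lit 0, nat_lit 69, nat_lit 250000, nat_lit 0, nat_lit 0, [(nat_lit 24, [(nat_lit 4, nat_lit 1000)])],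
 ⟨p103_k11, nat_lit 0, nat_lit 0, nat_lit 336, nat_lit 0, nat_lit 751868, [nat_lit 1002400001, nat_lit 398800001, nat_lit 54799999], [], [nat_lit 19426564602, nat_lit 20774168940, nat_lit 20849254247, nat_lit 22032721831, nat_lit 22161401263, nat_lit 23395727237, nat_lit 23280533524, nat_lit 24315458997], nat_lit 1271250, nat_lit 1271250, nat_lit 279600, nat_lit 1100001, nat_lit 1100001, nat_lit 1853500, [nat_lit 230000, nat_lit 780000, nat_lit 1100000], [nat_lit 35, nat_lit 40, nat_lit 40, nat_lit 80, nat_lit 22, nat_lit 249, nat_lit 40, nat_lit 10]⟩, C1.Rw.none,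
 ⟨nat_lit 2236, nat_lit 3163, ⟨.ofNat (nat_lit 223799), .ofNat (nat_lit 394735), .ofNat (nat_lit 267982), .ofNat (nat_lit 438942), .ofNat (nat_lit 237524), .ofNat (nat_lit 397434), .ofNat (nat_lit 282946), .ofNat (nat_lit 442880)⟩, ⟨.ofNat (nat_lit 306116), .ofNat (nat_lit 440213), .ofNat (nat_lit 350426), .ofNat (nat_lit 484523), .ofNat (nat_lit 306337), .ofNat (nat_lit 431772), .ofNat (nat_lit 351886), .ofNat (nat_lit 477320)⟩⟩, [⟨nat_lit 16, nat_lit 53, nat_lit 100, nat_lit 87, nat_lit 332520776⟩]⟩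
noncomputable def p103_l83 : Lf2 := ⟨nat_lit 0, nat_lit 10, [nat_lit 0, nat_lit 5, nat_lit 5, nat_lit 20], false, nat_lit 160, nat_lit 248, nat_lit 0, nat_lit 396, ⟨nat_lit 0, nat_lit 1000, nat_lit 0, nat_lit 4, nat_lit 215, nat_lit 1000, nat_lit 158, nat_lit 0, nat_lit 0, nat_lit 0, nat_lit 0, nat_lit 0, nat_lit 44212212, nat_lit 14124840, nat_lit 8662948, nat_lit 4656310, false, true⟩,
 nat_lit 0, nat_lit 3492, nat_lit 0, nat_lit 0, nat_lit 3041, nat_lit 0, nat_lit 104, nat_lit 0, nat_lit 0, nat_lit 0, nat_lit 0, nat_lit 0, nat_lit 0, nat_lit 0, nat_lit 0, nat_lit 374650, nat_lit 0, nat_lit 0, [(nat_lit 24, [(nat_lit 0, nat_lit 169), (nat_lit 1, nat_lit 831)])],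
 ⟨p103_k11, nat_lit 0, nat_lit 0, nat_lit 190, nat_lit 0, nat_lit 447902, [nat_lit 833668800, nat_lit 1059840801, nat_lit 1081352800], [], [nat_lit 20882468038, nat_lit 21425387146, nat_lit 25579265105, nat_lit 26052050354, nat_lit 22997918765, nat_lit 23538672475, nat_lit 27337908451, nat_lit 27754705320], nat_lit 1271250, nat_lit 1271250, nat_lit 1100001, nat_lit 2470000, nat_lit 1100001, nat_lit 1853500, [nat_lit 230000, nat_lit 780000, nat_lit 1100000], [nat_lit 35, nat_lit 40, nat_lit 40, nat_lit 80, nat_lit 22, nat_lit 203, nat_lit 0, nat_lit 7]⟩, ⟨p103_k12, nat_lit 0, nat_lit 0, nat_lit 1116, nat_lit 0, nat_lit 1570206, [nat_lit 0, nat_lit 0, nat_lit 0], [], [nat_lit 0, nat_lit 0, nat_lit 0, nat_lit 0, nat_lit 0, nat_lit 0, nat_lit 0, nat_lit 0], nat_lit 1100001, nat_lit 1442500, nat_lit 1271250, nat_lit 1271250, nat_lit 0, nat_lit 2796750, [nat_lit 1695000, nat_lit 1271250, nat_lit 1271250], [nat_lit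 62, nat_lit 40, nat_lit 40, nat_lit 80, nat_lit 58, nat_lit 483, nat_lit 250, nat_lit 11]⟩,
 ⟨nat_lit 2738, nat_lit 3163, ⟨.ofNat (nat_lit 394735), .ofNat (nat_lit 638549), .ofNat (nat_lit 439028), .ofNat (nat_lit 682859), .ofNat (nat_lit 396102), .ofNat (nat_lit 632348), .ofNat (nat_lit 440920), .ofNat (nat_lit 677182)⟩, ⟨.ofNat (nat_lit 306116), .ofNat (nat_lit 440213), .ofNat (nat_lit 350426), .ofNat (nat_lit 484523), .ofNat (nat_lit 306433), .ofNat (nat_lit 436368), .ofNat (nat_lit 351268), .ofNat (nat_lit 481203)⟩⟩, [⟨nat_lit 13, nat_lit 57, nat_lit 88, nat_lit 100, nat_lit 175561825⟩, ⟨nat_lit 4, nat_lit 100, nat_lit 57, nat_lit 87, nat_lit 206129702⟩]⟩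
noncomputable def p103_l84 : Lf2 := ⟨nat_lit 0, nat_lit 10, [nat_lit 0, nat_lit 5, nat_lit 5, nat_lit 20], false, nat_lit 160, nat_lit 232, nat_lit 0, nat_lit 396, ⟨nat_lit 0, nat_lit 1000, nat_lit 0, nat_lit 4, nat_lit 211, nat_lit 1000, nat_lit 152, nat_lit 0, nat_lit 0, nat_lit 0, nat_lit 0, nat_lit 0, nat_lit 44935092, nat_lit 13784115, nat_lit 8280793, nat_lit 4570214, false, true⟩,
 nat_lit 0, nat_lit 3146, nat_lit 0, nat_lit 0, nat_lit 2839, nat_lit 0, nat_lit 298, nat_lit 0, nat_lit 0, nat_lit 0, nat_lit 0, nat_lit 0, nat_lit 0, nat_lit 0, nat_lit 0, nat_lit 250000, nat_lit 0, nat_lit 0, [(nat_lit 24, [(nat_lit 0, nat_lit 1000)])],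
 ⟨p103_k15, nat_lit 0, nat_lit 0, nat_lit 204, nat_lit 0, nat_lit 495055, [nat_lit 763200001, nat_lit 1367200000, nat_lit 1705600000], [], [nat_lit 21044947006, nat_lit 21614562020, nat_lit 25375940297, nat_lit 25847120807, nat_lit 22857092747, nat_lit 23396355698, nat_lit 26773732140, nat_lit 27226562101], nat_lit 1271250, nat_lit 1271250, nat_lit 1100001, nat_lit 2367250, nat_lit 1100001, nat_lit 1716500, [nat_lit 230000, nat_lit 780000, nat_lit 1100000], [nat_lit 35, nat_lit 40, nat_lit 40, nat_lit 80, nat_lit 22, nat_lit 203, nat_lit 0, nat_lit 7]⟩, ⟨p103_k12, nat_lit 0, nat_lit 0, nat_lit 1219, nat_lit 0, nat_lit 1810837, [nat_lit 0, nat_lit 0, nat_lit 0], [], [nat_lit 0, nat_lit 0, nat_lit 0, nat_lit 0, nat_lit 0, nat_lit 0, nat_lit 0, nat_lit 0], nat_lit 1100001, nat_lit 1442500, nat_lit 1271250, nat_lit 1271250, nat_lit 0, nat_lit 2796750, [nat_lit 1695000, nat_lit 1271250, nat_lit 1271250], [nat_lit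 62, nat_lit 40, nat_lit 40, nat_lit 80, nat_lit 58, nat_lit 483, nat_lit 250, nat_lit 11]⟩,
 ⟨nat_lit 2236, nat_lit 2739, ⟨.ofNat (nat_lit 396102), .ofNat (nat_lit 614629), .ofNat (nat_lit 440903), .ofNat (nat_lit 659464), .ofNat (nat_lit 397434), .ofNat (nat_lit 608392), .ofNat (nat_lit 442949), .ofNat (nat_lit 653941)⟩, ⟨.ofNat (nat_lit 306433), .ofNat (nat_lit 412743), .ofNat (nat_lit 351268), .ofNat (nat_lit 457578), .ofNat (nat_lit 306337), .ofNat (nat_lit 408965), .ofNat (nat_lit 351886), .ofNat (nat_lit 454514)⟩⟩, [⟨nat_lit 13, nat_lit 53, nat_lit 85, nat_lit 100, nat_lit 186282411⟩, ⟨nat_lit 16, nat_lit 53, nat_lit 100, nat_lit 93, nat_lit 207124404⟩]⟩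
noncomputable def p103_l85 : Lf2 := ⟨nat_lit 0, nat_lit 10, [nat_lit 0, nat_lit 5, nat_lit 5, nat_lit 20], false, nat_lit 20, nat_lit 80, nat_lit 0, nat_lit 396, ⟨nat_lit 0, nat_lit 1000, nat_lit 0, nat_lit 4, nat_lit 180, nat_lit 1000, nat_lit 50, nat_lit 0, nat_lit 0, nat_lit 0, nat_lit 0, nat_lit 0, nat_lit 54108835, nat_lit 11316320, nat_lit 1574845, nat_lit 2917238, false, true⟩,
 nat_lit 0, nat_lit 2825, nat_lit 0, nat_lit 0, nat_lit 2639, nat_lit 0, nat_lit 53, nat_lit 0, nat_lit 0, nat_lit 0, nat_lit 0, nat_lit 0, nat_lit 0, nat_lit 0, nat_lit 0, nat_lit 400000, nat_lit 0, nat_lit 0, [(nat_lit 27, [(nat_lit 1, nat_lit 1000)])],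
 ⟨p103_k13, nat_lit 0, nat_lit 0, nat_lit 293, nat_lit 0, nat_lit 603292, [nat_lit 697600000, nat_lit 324400000], [], [nat_lit 20656946279, nat_lit 22576280311, nat_lit 25670752699, nat_lit 26838292158, nat_lit 20495490222, nat_lit 21755849492, nat_lit 25501250805, nat_lit 26510240623], nat_lit 1271250, nat_lit 1271250, nat_lit 462650, nat_lit 2110950, nat_lit 111251, nat_lit 490000, [nat_lit 230000, nat_lit 780000], [nat_lit 66, nat_lit 40, nat_lit 40, nat_lit 80, nat_lit 67, nat_lit 317, nat_lit 100, nat_lit 19]⟩, ⟨p103_k12, nat_lit 0, nat_lit 0, nat_lit 1495, nat_lit 0, nat_lit 2300153, [nat_lit 0, nat_lit 0, nat_lit 0], [], [nat_lit 0, nat_lit 0, nat_lit 0, nat_lit 0, nat_lit 0, nat_lit 0, nat_lit 0, nat_lit 0], nat_lit 1100001, nat_lit 1442500, nat_lit 462650, nat_lit 2110950, nat_lit 0, nat_lit 2796750, [nat_lit 1695000, nat_lit 1271250, nat_lit 1271250], [nat_lit 62, nat_lit 40, nat_lit 40, nat_lit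 80, nat_lit 58, nat_lit 485, nat_lit 225, nat_lit 12]⟩,
 ⟨nat_lit 0, nat_lit 2237, ⟨.ofNat (nat_lit 273845), .ofNat (nat_lit 579878), .ofNat (nat_lit 317541), .ofNat (nat_lit 625429), .ofNat (nat_lit 291142), .ofNat (nat_lit 559993), .ofNat (nat_lit 339289), .ofNat (nat_lit 609995)⟩, ⟨.ofNat (nat_lit 50000), .ofNat (nat_lit 192306), .ofNat (nat_lit 50000), .ofNat (nat_lit 200000), .ofNat (nat_lit 50000), .ofNat (nat_lit 199999), .ofNat (nat_lit 50000), .ofNat (nat_lit 200000)⟩⟩, [⟨nat_lit 13, nat_lit 44, nat_lit 90, nat_lit 100, nat_lit 132628311⟩, ⟨nat_lit 3, nat_lit 100, nat_lit 36, nat_lit 77, nat_lit 341057183⟩]⟩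
noncomputable def p103_l86 : Lf2 := ⟨nat_lit 0, nat_lit 10, [nat_lit 0, nat_lit 5, nat_lit 5, nat_lit 20], false, nat_lit 80, nat_lit 208, nat_lit 0, nat_lit 396, ⟨nat_lit 0, nat_lit 1000, nat_lit 0, nat_lit 4, nat_lit 180, nat_lit 1000, nat_lit 118, nat_lit 0, nat_lit 0, nat_lit 0, nat_lit 0, nat_lit 0, nat_lit 49994138, nat_lit 11199678, nat_lit 5806184, nat_lit 3890996, false, true⟩,
 nat_lit 0, nat_lit 2891, nat_lit 0, nat_lit 0, nat_lit 2701, nat_lit 0, nat_lit 35, nat_lit 0, nat_lit 0, nat_lit 0, nat_lit 0, nat_lit 0, nat_lit 0, nat_lit 0, nat_lit 0, nat_lit 400000, nat_lit 0, nat_lit 0, [(nat_lit 27, [(nat_lit 1, nat_lit 1000)])],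
 ⟨p103_k13, nat_lit 0, nat_lit 0, nat_lit 253, nat_lit 0, nat_lit 603292, [nat_lit 697600000, nat_lit 324400000], [], [nat_lit 19427270001, nat_lit 21173517750, nat_lit 24564699591, nat_lit 25640452892, nat_lit 21935900972, nat_lit 23175153400, nat_lit 26413133891, nat_lit 27333502082], nat_lit 1271250, nat_lit 1271250, nat_lit 462650, nat_lit 2110950, nat_lit 490000, nat_lit 1490000, [nat_lit 230000, nat_lit 780000], [nat_lit 66, nat_lit 40, nat_lit 40, nat_lit 80, nat_lit 67, nat_lit 345, nat_lit 125, nat_lit 20]⟩, ⟨p103_k12, nat_lit 0, nat_lit 0, nat_lit 1495, nat_lit 0, nat_lit 2300153, [nat_lit 0, nat_lit 0, nat_lit 0], [], [nat_lit 0, nat_lit 0, nat_lit 0, nat_lit 0, nat_lit 0, nat_lit 0, nat_lit 0, nat_lit 0], nat_lit 1100001, nat_lit 1442500, nat_lit 462650, nat_lit 2110950, nat_lit 0, nat_lit 2796750, [nat_lit 1695000, nat_lit 1271250, nat_lit 1271250], [nat_lit 62, nat_lit 40, nat_lit 40, nat_lit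 80, nat_lit 58, nat_lit 485, nat_lit 225, nat_lit 12]⟩,
 ⟨nat_lit 0, nat_lit 2237, ⟨.ofNat (nat_lit 273845), .ofNat (nat_lit 579878), .ofNat (nat_lit 317541), .ofNat (nat_lit 625429), .ofNat (nat_lit 291142), .ofNat (nat_lit 559993), .ofNat (nat_lit 339289), .ofNat (nat_lit 609995)⟩, ⟨.ofNat (nat_lit 192306), .ofNat (nat_lit 374750), .ofNat (nat_lit 200000), .ofNat (nat_lit 420300), .ofNat (nat_lit 199999), .ofNat (nat_lit 359993), .ofNat (nat_lit 200000), .ofNat (nat_lit 409994)⟩⟩, [⟨nat_lit 13, nat_lit 31, nat_lit 98, nat_lit 100, nat_lit 177892475⟩, ⟨nat_lit 4, nat_lit 100, nat_lit 32, nat_lit 88, nat_lit 136151656⟩]⟩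
noncomputable def b_V_900_400_20_3 : St := ⟨true, nat_lit 1, nat_lit 1, nat_lit 1, nat_lit 120, nat_lit 360, nat_lit 400, nat_lit 160, nat_lit 200, nat_lit 48, nat_lit 320, nat_lit 80, nat_lit 120, nat_lit 8, nat_lit 248, nat_lit 0, nat_lit 396, nat_lit 0, nat_lit 40, nat_lit 0, nat_lit 0, nat_lit 0, nat_lit 0⟩
theorem d_V_900_400_20_3 (h : EB TB.env) : Dead b_V_900_400_20_3 := chkB_sound0 h (T :=
(.spl (nat_lit 0) (nat_lit 380)
(.spl (nat_lit 4) (nat_lit 160)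
(.spl (nat_lit 4) (nat_lit 80)
(.spl (nat_lit 2) (nat_lit 160)
(.leaf p103_l75)
(.trX (nat_lit 22) (nat_lit 100) (nat_lit 44) (nat_lit 82) (nat_lit 384) (.spl (nat_lit 2) (nat_lit 240)
(.leaf p103_l76)
(.trX (nat_lit 22) (nat_lit 100) (nat_lit 76) (nat_lit 82) (nat_lit 336) (.spl (nat_lit 0) (nat_lit 370)
(.spl (nat_lit 1) (nat_lit 180)
(.trX (nat_lit 13) (nat_lit 60) (nat_lit 86) (nat_lit 100) (nat_lit 304) (.leaf p103_l77))
(.leaf p103_l78))
(.trX (nat_lit 13) (nat_lit 53) (nat_lit 85) (nat_lit 100) (nat_lit 308) (.trZ (nat_lit 3) (nat_lit 100) (nat_lit 66) (nat_lit 45) (nat_lit 12) (.leaf p103_l79))))))))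
(.spl (nat_lit 0) (nat_lit 370)
(.leaf p103_l80)
(.trZ (nat_lit 0) (nat_lit 100) (nat_lit 54) (nat_lit 74) (nat_lit 60) (.trX (nat_lit 13) (nat_lit 53) (nat_lit 85) (nat_lit 100) (nat_lit 308) (.leaf p103_l81)))))
(.spl (nat_lit 2) (nat_lit 160)
(.leaf p103_l82)
(.spl (nat_lit 0) (nat_lit 370)
(.leaf p103_l83)
(.trX (nat_lit 13) (nat_lit 53) (nat_lit 85) (nat_lit 100) (nat_lit 308) (.trX (nat_lit 16) (nat_lit 53) (nat_lit 100) (nat_lit 93) (nat_lit 232) (.leaf p103_l84))))))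
(.trZ (nat_lit 0) (nat_lit 100) (nat_lit 44) (nat_lit 81) (nat_lit 76) (.trX (nat_lit 13) (nat_lit 44) (nat_lit 90) (nat_lit 100) (nat_lit 288) (.trZ (nat_lit 3) (nat_lit 100) (nat_lit 54) (nat_lit 57) (nat_lit 20) (.trX (nat_lit 16) (nat_lit 44) (nat_lit 100) (nat_lit 92) (nat_lit 208) (.spl (nat_lit 4) (nat_lit 80)
(.leaf p103_l85)
(.leaf p103_l86)))))))) (by decide +kernel)
noncomputable def p103_l87 : Lf2 := ⟨nat_lit 0, nat_lit 20, [nat_lit 5, nat_lit 5, nat_lit 5, nat_lit 20], true, nat_lit 8, nat_lit 160, nat_lit 0, nat_lit 396, ⟨nat_lit 0, nat_lit 0, nat_lit 1000, nat_lit 4, nat_lit 135, nat_lit 1000, nat_lit 69, nat_lit 1000, nat_lit 45067, nat_lit 267, nat_lit 173400, nat_lit 317, nat_lit 57264022, nat_lit 0, nat_lit 0, nat_lit 2624815, false, false⟩,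
 nat_lit 0, nat_lit 0, nat_lit 0, nat_lit 1143, nat_lit 2359, nat_lit 0, nat_lit 0, nat_lit 0, nat_lit 0, nat_lit 0, nat_lit 0, nat_lit 0, nat_lit 0, nat_lit 0, nat_lit 91, nat_lit 250000, nat_lit 0, nat_lit 0, [(nat_lit 25, [(nat_lit 0, nat_lit 15), (nat_lit 4, nat_lit 985)]), (nat_lit 28, [(nat_lit 0, nat_lit 15), (nat_lit 4, nat_lit 985)])],
 ⟨p103_k0, nat_lit 0, nat_lit 0, nat_lit 210, nat_lit 0, nat_lit 0, [nat_lit 1232910400, nat_lit 174980160], [], [nat_lit 18761936187, nat_lit 22466705707, nat_lit 20099639265, nat_lit 22991947927, nat_lit 19828919996, nat_lit 22594207326, nat_lit 21266909032, nat_lit 23743073460], nat_lit 0, nat_lit 0, nat_lit 0, nat_lit 0, nat_lit 0, nat_lit 0, [], [nat_lit 88, nat_lit 40, nat_lit 40, nat_lit 80, nat_lit 89, nat_lit 317, nat_lit 100, nat_lit 12]⟩, C1.Rw.none,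
 ⟨nat_lit 0, nat_lit 3163, ⟨.ofNat (nat_lit 216927), .ofNat (nat_lit 394735), .ofNat (nat_lit 258627), .ofNat (nat_lit 436481), .ofNat (nat_lit 252860), .ofNat (nat_lit 399999), .ofNat (nat_lit 300250), .ofNat (nat_lit 447434)⟩, ⟨.ofNat (nat_lit 20000), .ofNat (nat_lit 306113), .ofNat (nat_lit 20000), .ofNat (nat_lit 350425), .ofNat (nat_lit 20000), .ofNat (nat_lit 299996), .ofNat (nat_lit 20000), .ofNat (nat_lit 349998)⟩⟩, [⟨nat_lit 0, nat_lit 100, nat_lit 44, nat_lit 86, nat_lit 7107633⟩, ⟨nat_lit 3, nat_lit 100, nat_lit 50, nat_lit 65, nat_lit 103935312⟩]⟩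
noncomputable def p103_l88 : Lf2 := ⟨nat_lit 0, nat_lit 20, [nat_lit 5, nat_lit 5, nat_lit 5, nat_lit 20], false, nat_lit 8, nat_lit 80, nat_lit 0, nat_lit 384, ⟨nat_lit 262, nat_lit 0, nat_lit 738, nat_lit 4, nat_lit 213, nat_lit 738, nat_lit 43, nat_lit 738, nat_lit 17067, nat_lit 247, nat_lit 94460, nat_lit 200, nat_lit 51039569, nat_lit 0, nat_lit 0, nat_lit 3178659, false, true⟩,
 nat_lit 0, nat_lit 0, nat_lit 0, nat_lit 869, nat_lit 2446, nat_lit 2222, nat_lit 0, nat_lit 0, nat_lit 0, nat_lit 212, nat_lit 0, nat_lit 0, nat_lit 0, nat_lit 0, nat_lit 0, nat_lit 184500, nat_lit 0, nat_lit 0, [(nat_lit 25, [(nat_lit 4, nat_lit 738)]), (nat_lit 28, [(nat_lit 4, nat_lit 738)])],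
 ⟨p103_k1, nat_lit 0, nat_lit 0, nat_lit 158, nat_lit 0, nat_lit 0, [nat_lit 807816801, nat_lit 592826401, nat_lit 271017600], [], [nat_lit 21058055095, nat_lit 23410327203, nat_lit 25983350118, nat_lit 27961094473, nat_lit 20766281891, nat_lit 22992901075, nat_lit 25446290123, nat_lit 27287036147], nat_lit 0, nat_lit 0, nat_lit 0, nat_lit 0, nat_lit 0, nat_lit 0, [], [nat_lit 20, nat_lit 40, nat_lit 40, nat_lit 80, nat_lit 16, nat_lit 317, nat_lit 100, nat_lit 12]⟩, ⟨p103_k2, nat_lit 0, nat_lit 0, nat_lit 433, nat_lit 0, nat_lit 0, [nat_lit 2087616000, nat_lit 3110464000, nat_lit 4296800000], [], [nat_lit 10117760968, nat_lit 10198121744, nat_lit 11234274472, nat_lit 11226557856, nat_lit 10101448557, nat_lit 10022696271, nat_lit 10490363505, nat_lit 10339845538], nat_lit 0, nat_lit 0, nat_lit 0, nat_lit 0, nat_lit 0, nat_lit 0, [], [nat_lit 97, nat_lit 40, nat_lit 40, nat_lit 80, nat_lit 76, nat_lit 483,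 nat_lit 250, nat_lit 10]⟩,
 ⟨nat_lit 0, nat_lit 3163, ⟨.ofNat (nat_lit 394735), .ofNat (nat_lit 638543), .ofNat (nat_lit 436481), .ofNat (nat_lit 682855), .ofNat (nat_lit 399999), .ofNat (nat_lit 599993), .ofNat (nat_lit 447434), .ofNat (nat_lit 649995)⟩, ⟨.ofNat (nat_lit 20000), .ofNat (nat_lit 184209), .ofNat (nat_lit 20000), .ofNat (nat_lit 200000), .ofNat (nat_lit 20000), .ofNat (nat_lit 199999), .ofNat (nat_lit 20000), .ofNat (nat_lit 200000)⟩⟩, [⟨nat_lit 3, nat_lit 100, nat_lit 50, nat_lit 65, nat_lit 84537188⟩, ⟨nat_lit 22, nat_lit 100, nat_lit 91, nat_lit 64, nat_lit 64382848⟩]⟩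
noncomputable def p103_l89 : Lf2 := ⟨nat_lit 0, nat_lit 20, [nat_lit 5, nat_lit 5, nat_lit 5, nat_lit 20], true, nat_lit 80, nat_lit 160, nat_lit 0, nat_lit 396, ⟨nat_lit 0, nat_lit 408, nat_lit 592, nat_lit 4, nat_lit 213, nat_lit 1000, nat_lit 105, nat_lit 592, nat_lit 101400, nat_lit 293, nat_lit 94460, nat_lit 200, nat_lit 47847357, nat_lit 14391460, nat_lit 4761183, nat_lit 4030857, false, true⟩,
 nat_lit 0, nat_lit 0, nat_lit 0, nat_lit 4706, nat_lit 2418, nat_lit 0, nat_lit 0, nat_lit 0, nat_lit 0, nat_lit 0, nat_lit 0, nat_lit 0, nat_lit 0, nat_lit 0, nat_lit 12, nat_lit 250000, nat_lit 0, nat_lit 0, [(nat_lit 25, [(nat_lit 0, nat_lit 408), (nat_lit 4, nat_lit 592)]), (nat_lit 28, [(nat_lit 0, nat_lit 408), (nat_lit 4, nat_lit 592)])],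
 ⟨p103_k1, nat_lit 0, nat_lit 0, nat_lit 116, nat_lit 0, nat_lit 0, [nat_lit 817760001, nat_lit 488245334, nat_lit 16017066], [], [nat_lit 19625180905, nat_lit 22016508996, nat_lit 24607290156, nat_lit 26509053932, nat_lit 20687581433, nat_lit 22891846660, nat_lit 25306489572, nat_lit 27143056012], nat_lit 0, nat_lit 0, nat_lit 0, nat_lit 0, nat_lit 0, nat_lit 0, [], [nat_lit 20, nat_lit 40, nat_lit 40, nat_lit 80, nat_lit 16, nat_lit 345, nat_lit 125, nat_lit 12]⟩, C1.Rw.none,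
 ⟨nat_lit 0, nat_lit 3163, ⟨.ofNat (nat_lit 394735), .ofNat (nat_lit 638543), .ofNat (nat_lit 436481), .ofNat (nat_lit 682855), .ofNat (nat_lit 399999), .ofNat (nat_lit 599993), .ofNat (nat_lit 447434), .ofNat (nat_lit 649995)⟩, ⟨.ofNat (nat_lit 184209), .ofNat (nat_lit 306113), .ofNat (nat_lit 200000), .ofNat (nat_lit 350425), .ofNat (nat_lit 199999), .ofNat (nat_lit 299996), .ofNat (nat_lit 200000), .ofNat (nat_lit 349998)⟩⟩, [⟨nat_lit 13, nat_lit 44, nat_lit 94, nat_lit 100, nat_lit 331710305⟩]⟩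
noncomputable def p103_l90 : Lf2 := ⟨nat_lit 0, nat_lit 20, [nat_lit 5, nat_lit 5, nat_lit 5, nat_lit 20], true, nat_lit 160, nat_lit 248, nat_lit 0, nat_lit 396, ⟨nat_lit 0, nat_lit 0, nat_lit 1000, nat_lit 4, nat_lit 135, nat_lit 1000, nat_lit 155, nat_lit 1000, nat_lit 61175, nat_lit 275, nat_lit 173400, nat_lit 317, nat_lit 50869421, nat_lit 0, nat_lit 0, nat_lit 3836145, false, false⟩,
 nat_lit 0, nat_lit 0, nat_lit 0, nat_lit 5373, nat_lit 2664, nat_lit 0, nat_lit 0, nat_lit 0, nat_lit 0, nat_lit 0, nat_lit 0, nat_lit 0, nat_lit 0, nat_lit 0, nat_lit 78, nat_lit 250000, nat_lit 0, nat_lit 0, [(nat_lit 25, [(nat_lit 0, nat_lit 78), (nat_lit 4, nat_lit 922)]), (nat_lit 28, [(nat_lit 0, nat_lit 78), (nat_lit 4, nat_lit 922)])],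
 ⟨p103_k0, nat_lit 0, nat_lit 0, nat_lit 115, nat_lit 0, nat_lit 0, [nat_lit 1175326080, nat_lit 147509632], [], [nat_lit 18541025901, nat_lit 21973011905, nat_lit 19748976448, nat_lit 22505370240, nat_lit 21476935177, nat_lit 24422368434, nat_lit 22424828039, nat_lit 24815041092], nat_lit 0, nat_lit 0, nat_lit 0, nat_lit 0, nat_lit 0, nat_lit 0, [], [nat_lit 88, nat_lit 40, nat_lit 40, nat_lit 80, nat_lit 89, nat_lit 345, nat_lit 125, nat_lit 12]⟩, C1.Rw.none,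
 ⟨nat_lit 0, nat_lit 3163, ⟨.ofNat (nat_lit 216927), .ofNat (nat_lit 394735), .ofNat (nat_lit 258627), .ofNat (nat_lit 436481), .ofNat (nat_lit 252860), .ofNat (nat_lit 399999), .ofNat (nat_lit 300250), .ofNat (nat_lit 447434)⟩, ⟨.ofNat (nat_lit 306113), .ofNat (nat_lit 440207), .ofNat (nat_lit 350425), .ofNat (nat_lit 484518), .ofNat (nat_lit 299996), .ofNat (nat_lit 409993), .ofNat (nat_lit 349998), .ofNat (nat_lit 459993)⟩⟩, [⟨nat_lit 0, nat_lit 100, nat_lit 44, nat_lit 86, nat_lit 21118693⟩, ⟨nat_lit 16, nat_lit 62, nat_lit 100, nat_lit 94, nat_lit 220130767⟩, ⟨nat_lit 4, nat_lit 100, nat_lit 44, nat_lit 87, nat_lit 129614029⟩]⟩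
noncomputable def p103_l91 : Lf2 := ⟨nat_lit 0, nat_lit 20, [nat_lit 5, nat_lit 5, nat_lit 5, nat_lit 20], true, nat_lit 160, nat_lit 248, nat_lit 0, nat_lit 396, ⟨nat_lit 0, nat_lit 1000, nat_lit 0, nat_lit 4, nat_lit 213, nat_lit 1000, nat_lit 155, nat_lit 0, nat_lit 0, nat_lit 0, nat_lit 0, nat_lit 0, nat_lit 44611068, nat_lit 13921124, nat_lit 8467808, nat_lit 4609920, false, true⟩,
 nat_lit 0, nat_lit 0, nat_lit 0, nat_lit 4889, nat_lit 3797, nat_lit 0, nat_lit 0, nat_lit 0, nat_lit 0, nat_lit 0, nat_lit 0, nat_lit 0, nat_lit 0, nat_lit 0, nat_lit 0, nat_lit 250000, nat_lit 0, nat_lit 0, [(nat_lit 25, [(nat_lit 0, nat_lit 1000)]), (nat_lit 28, [(nat_lit 0, nat_lit 1000)])],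
 ⟨p103_k1, nat_lit 0, nat_lit 0, nat_lit 78, nat_lit 0, nat_lit 0, [nat_lit 781600001, nat_lit 1368800000, nat_lit 2118000000], [], [nat_lit 21615986156, nat_lit 24505818928, nat_lit 26730873920, nat_lit 28871806776, nat_lit 23981292665, nat_lit 26469005853, nat_lit 28288308161, nat_lit 30152096836], nat_lit 0, nat_lit 0, nat_lit 0, nat_lit 0, nat_lit 0, nat_lit 0, [], [nat_lit 20, nat_lit 40, nat_lit 40, nat_lit 80, nat_lit 16, nat_lit 373, nat_lit 150, nat_lit 13]⟩, C1.Rw.none,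
 ⟨nat_lit 0, nat_lit 3163, ⟨.ofNat (nat_lit 394735), .ofNat (nat_lit 638543), .ofNat (nat_lit 436481), .ofNat (nat_lit 682855), .ofNat (nat_lit 399999), .ofNat (nat_lit 599993), .ofNat (nat_lit 447434), .ofNat (nat_lit 649995)⟩, ⟨.ofNat (nat_lit 306113), .ofNat (nat_lit 440207), .ofNat (nat_lit 350425), .ofNat (nat_lit 484518), .ofNat (nat_lit 299996), .ofNat (nat_lit 409993), .ofNat (nat_lit 349998), .ofNat (nat_lit 459993)⟩⟩, [⟨nat_lit 13, nat_lit 44, nat_lit 94, nat_lit 100, nat_lit 204982807⟩, ⟨nat_lit 13, nat_lit 60, nat_lit 80, nat_lit 100, nat_lit 12502689⟩, ⟨nat_lit 4, nat_lit 100, nat_lit 44, nat_lit 87, nat_lit 237179899⟩]⟩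
noncomputable def p103_l92 : Lf2 := ⟨nat_lit 0, nat_lit 20, [nat_lit 5, nat_lit 5, nat_lit 5, nat_lit 20], true, nat_lit 8, nat_lit 80, nat_lit 0, nat_lit 396, ⟨nat_lit 0, nat_lit 0, nat_lit 1000, nat_lit 4, nat_lit 135, nat_lit 1000, nat_lit 43, nat_lit 1000, nat_lit 17067, nat_lit 247, nat_lit 173400, nat_lit 317, nat_lit 58709764, nat_lit 0, nat_lit 0, nat_lit 2216419, false, false⟩,
 nat_lit 0, nat_lit 0, nat_lit 0, nat_lit 3409, nat_lit 2347, nat_lit 0, nat_lit 0, nat_lit 0, nat_lit 0, nat_lit 0, nat_lit 0, nat_lit 0, nat_lit 0, nat_lit 0, nat_lit 93, nat_lit 250000, nat_lit 0, nat_lit 0, [(nat_lit 25, [(nat_lit 0, nat_lit 4), (nat_lit 4, nat_lit 996)]), (nat_lit 28, [(nat_lit 0, nat_lit 4), (nat_lit 4, nat_lit 996)])],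
 ⟨p103_k0, nat_lit 0, nat_lit 0, nat_lit 210, nat_lit 0, nat_lit 0, [nat_lit 1241885440, nat_lit 174379776], [], [nat_lit 18743791795, nat_lit 22425941426, nat_lit 20122627375, nat_lit 23008517225, nat_lit 18564006344, nat_lit 21487401797, nat_lit 19957124572, nat_lit 22678759604], nat_lit 0, nat_lit 0, nat_lit 0, nat_lit 0, nat_lit 0, nat_lit 0, [], [nat_lit 88, nat_lit 40, nat_lit 40, nat_lit 80, nat_lit 89, nat_lit 272, nat_lit 60, nat_lit 10]⟩, C1.Rw.none,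
 ⟨nat_lit 0, nat_lit 3163, ⟨.ofNat (nat_lit 216927), .ofNat (nat_lit 394735), .ofNat (nat_lit 258627), .ofNat (nat_lit 436481), .ofNat (nat_lit 252860), .ofNat (nat_lit 399999), .ofNat (nat_lit 300250), .ofNat (nat_lit 447434)⟩, ⟨.ofNat (nat_lit 20000), .ofNat (nat_lit 184209), .ofNat (nat_lit 20000), .ofNat (nat_lit 200000), .ofNat (nat_lit 20000), .ofNat (nat_lit 199999), .ofNat (nat_lit 20000), .ofNat (nat_lit 200000)⟩⟩, [⟨nat_lit 0, nat_lit 100, nat_lit 44, nat_lit 86, nat_lit 1501261⟩, ⟨nat_lit 3, nat_lit 100, nat_lit 50, nat_lit 65, nat_lit 291908960⟩]⟩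
noncomputable def p103_l93 : Lf2 := ⟨nat_lit 0, nat_lit 20, [nat_lit 5, nat_lit 5, nat_lit 5, nat_lit 20], true, nat_lit 8, nat_lit 80, nat_lit 0, nat_lit 384, ⟨nat_lit 0, nat_lit 120, nat_lit 880, nat_lit 4, nat_lit 190, nat_lit 1000, nat_lit 43, nat_lit 880, nat_lit 17067, nat_lit 247, nat_lit 2400, nat_lit 227, nat_lit 53342288, nat_lit 12378972, nat_lit 1278740, nat_lit 2944257, false, true⟩,
 nat_lit 0, nat_lit 0, nat_lit 0, nat_lit 2967, nat_lit 2432, nat_lit 0, nat_lit 0, nat_lit 0, nat_lit 0, nat_lit 0, nat_lit 0, nat_lit 0, nat_lit 0, nat_lit 0, nat_lit 70, nat_lit 250000, nat_lit 0, nat_lit 0, [(nat_lit 25, [(nat_lit 0, nat_lit 120), (nat_lit 4, nat_lit 880)]), (nat_lit 28, [(nat_lit 0, nat_lit 120), (nat_lit 4, nat_lit 880)])],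
 ⟨p103_k0, nat_lit 0, nat_lit 0, nat_lit 159, nat_lit 0, nat_lit 0, [nat_lit 1139603200, nat_lit 142529280], [], [nat_lit 19842820810, nat_lit 22663295908, nat_lit 22118549418, nat_lit 24758482288, nat_lit 19583931072, nat_lit 22065531168, nat_lit 21730134560, nat_lit 24229414624], nat_lit 0, nat_lit 0, nat_lit 0, nat_lit 0, nat_lit 0, nat_lit 0, [], [nat_lit 88, nat_lit 40, nat_lit 40, nat_lit 80, nat_lit 89, nat_lit 317, nat_lit 100, nat_lit 12]⟩, C1.Rw.none,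
 ⟨nat_lit 0, nat_lit 3163, ⟨.ofNat (nat_lit 394735), .ofNat (nat_lit 516640), .ofNat (nat_lit 436481), .ofNat (nat_lit 560951), .ofNat (nat_lit 399999), .ofNat (nat_lit 499997), .ofNat (nat_lit 447434), .ofNat (nat_lit 549998)⟩, ⟨.ofNat (nat_lit 20000), .ofNat (nat_lit 184209), .ofNat (nat_lit 20000), .ofNat (nat_lit 200000), .ofNat (nat_lit 20000), .ofNat (nat_lit 199999), .ofNat (nat_lit 20000), .ofNat (nat_lit 200000)⟩⟩, [⟨nat_lit 3, nat_lit 100, nat_lit 50, nat_lit 65, nat_lit 319219812⟩]⟩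
noncomputable def p103_l94 : Lf2 := ⟨nat_lit 0, nat_lit 20, [nat_lit 5, nat_lit 5, nat_lit 5, nat_lit 20], true, nat_lit 8, nat_lit 40, nat_lit 0, nat_lit 288, ⟨nat_lit 0, nat_lit 719, nat_lit 281, nat_lit 6, nat_lit 238, nat_lit 1000, nat_lit 24, nat_lit 281, nat_lit 5400, nat_lit 233, nat_lit 94468, nat_lit 200, nat_lit 48996411, nat_lit 17484123, nat_lit 519466, nat_lit 3139781, false, true⟩,
 nat_lit 0, nat_lit 0, nat_lit 0, nat_lit 5880, nat_lit 2705, nat_lit 0, nat_lit 0, nat_lit 0, nat_lit 0, nat_lit 0, nat_lit 0, nat_lit 0, nat_lit 0, nat_lit 0, nat_lit 0, nat_lit 292150, nat_lit 0, nat_lit 0, [(nat_lit 25, [(nat_lit 0, nat_lit 719), (nat_lit 5, nat_lit 281)])],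
 ⟨p103_k1, nat_lit 0, nat_lit 0, nat_lit 150, nat_lit 0, nat_lit 0, [nat_lit 753434401, nat_lit 783345867, nat_lit 662307600], [], [nat_lit 23245358411, nat_lit 24377768200, nat_lit 26282229836, nat_lit 27373070253, nat_lit 23017645379, nat_lit 24077972394, nat_lit 25794381579, nat_lit 26837395460], nat_lit 0, nat_lit 0, nat_lit 0, nat_lit 0, nat_lit 0, nat_lit 0, [], [nat_lit 20, nat_lit 40, nat_lit 40, nat_lit 80, nat_lit 16, nat_lit 215, nat_lit 10, nat_lit 7]⟩, C1.Rw.none,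
 ⟨nat_lit 2236, nat_lit 3163, ⟨.ofNat (nat_lit 516642), .ofNat (nat_lit 638549), .ofNat (nat_lit 560952), .ofNat (nat_lit 682859), .ofNat (nat_lit 511466), .ofNat (nat_lit 625497), .ofNat (nat_lit 557014), .ofNat (nat_lit 671045)⟩, ⟨.ofNat (nat_lit 20000), .ofNat (nat_lit 100000), .ofNat (nat_lit 20000), .ofNat (nat_lit 100000), .ofNat (nat_lit 20000), .ofNat (nat_lit 100000), .ofNat (nat_lit 20000), .ofNat (nat_lit 100000)⟩⟩, [⟨nat_lit 13, nat_lit 53, nat_lit 90, nat_lit 100, nat_lit 100318181⟩, ⟨nat_lit 13, nat_lit 60, nat_lit 80, nat_lit 100, nat_lit 197933596⟩, ⟨nat_lit 3, nat_lit 100, nat_lit 61, nat_lit 55, nat_lit 275831351⟩]⟩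
noncomputable def p103_l95 : Lf2 := ⟨nat_lit 0, nat_lit 20, [nat_lit 5, nat_lit 5, nat_lit 5, nat_lit 20], true, nat_lit 20, nat_lit 40, nat_lit 0, nat_lit 288, ⟨nat_lit 0, nat_lit 993, nat_lit 7, nat_lit 6, nat_lit 225, nat_lit 1000, nat_lit 30, nat_lit 7, nat_lit 8067, nat_lit 237, nat_lit 4626, nat_lit 204, nat_lit 50251723, nat_lit 16016449, nat_lit 731828, nat_lit 3105516, false, true⟩,
 nat_lit 0, nat_lit 0, nat_lit 0, nat_lit 0, nat_lit 2608, nat_lit 0, nat_lit 0, nat_lit 0, nat_lit 0, nat_lit 0, nat_lit 0, nat_lit 0, nat_lit 0, nat_lit 0, nat_lit 0, nat_lit 400000, nat_lit 0, nat_lit 0, [(nat_lit 28, [(nat_lit 1, nat_lit 993), (nat_lit 5, nat_lit 7)])],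
 ⟨p103_k5, nat_lit 0, nat_lit 0, nat_lit 150, nat_lit 0, nat_lit 0, [nat_lit 696872000, nat_lit 111528800], [], [nat_lit 23601061020, nat_lit 24929322104, nat_lit 25409895002, nat_lit 26764263588, nat_lit 23416393624, nat_lit 24534834944, nat_lit 25002858618, nat_lit 26339994823], nat_lit 0, nat_lit 0, nat_lit 0, nat_lit 0, nat_lit 0, nat_lit 0, [], [nat_lit 88, nat_lit 40, nat_lit 40, nat_lit 80, nat_lit 89, nat_lit 215, nat_lit 10, nat_lit 7]⟩, C1.Rw.none,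
 ⟨nat_lit 0, nat_lit 2237, ⟨.ofNat (nat_lit 511462), .ofNat (nat_lit 579878), .ofNat (nat_lit 557013), .ofNat (nat_lit 625429), .ofNat (nat_lit 499995), .ofNat (nat_lit 559993), .ofNat (nat_lit 549998), .ofNat (nat_lit 609995)⟩, ⟨.ofNat (nat_lit 50000), .ofNat (nat_lit 100000), .ofNat (nat_lit 50000), .ofNat (nat_lit 100000), .ofNat (nat_lit 50000), .ofNat (nat_lit 100000), .ofNat (nat_lit 50000), .ofNat (nat_lit 100000)⟩⟩, [⟨nat_lit 13, nat_lit 44, nat_lit 90, nat_lit 100, nat_lit 369675118⟩, ⟨nat_lit 3, nat_lit 100, nat_lit 54, nat_lit 57, nat_lit 846041261⟩]⟩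
noncomputable def p103_l96 : Lf2 := ⟨nat_lit 0, nat_lit 20, [nat_lit 5, nat_lit 5, nat_lit 5, nat_lit 20], true, nat_lit 40, nat_lit 80, nat_lit 0, nat_lit 336, ⟨nat_lit 0, nat_lit 565, nat_lit 435, nat_lit 6, nat_lit 235, nat_lit 1000, nat_lit 59, nat_lit 435, nat_lit 32267, nat_lit 259, nat_lit 94460, nat_lit 200, nat_lit 48024188, nat_lit 16965302, nat_lit 2010510, nat_lit 3603088, false, true⟩,
 nat_lit 0, nat_lit 0, nat_lit 0, nat_lit 4889, nat_lit 2516, nat_lit 0, nat_lit 0, nat_lit 0, nat_lit 0, nat_lit 0, nat_lit 0, nat_lit 0, nat_lit 0, nat_lit 0, nat_lit 0, nat_lit 250000, nat_lit 0, nat_lit 0, [(nat_lit 25, [(nat_lit 0, nat_lit 565), (nat_lit 4, nat_lit 435)]), (nat_lit 28, [(nat_lit 0, nat_lit 565), (nat_lit 4, nat_lit 435)])],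
 ⟨p103_k1, nat_lit 0, nat_lit 0, nat_lit 140, nat_lit 0, nat_lit 0, [nat_lit 772900001, nat_lit 615960001, nat_lit 387570000], [], [nat_lit 22672245578, nat_lit 24824073714, nat_lit 25516387026, nat_lit 27495180176, nat_lit 22399746626, nat_lit 24448714146, nat_lit 25132691058, nat_lit 27037938562], nat_lit 0, nat_lit 0, nat_lit 0, nat_lit 0, nat_lit 0, nat_lit 0, [], [nat_lit 20, nat_lit 40, nat_lit 40, nat_lit 80, nat_lit 16, nat_lit 226, nat_lit 20, nat_lit 7]⟩, C1.Rw.none,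
 ⟨nat_lit 0, nat_lit 3163, ⟨.ofNat (nat_lit 516640), .ofNat (nat_lit 638543), .ofNat (nat_lit 560951), .ofNat (nat_lit 682855), .ofNat (nat_lit 499997), .ofNat (nat_lit 599993), .ofNat (nat_lit 549998), .ofNat (nat_lit 649995)⟩, ⟨.ofNat (nat_lit 100000), .ofNat (nat_lit 184209), .ofNat (nat_lit 100000), .ofNat (nat_lit 200000), .ofNat (nat_lit 100000), .ofNat (nat_lit 199999), .ofNat (nat_lit 100000), .ofNat (nat_lit 200000)⟩⟩, [⟨nat_lit 13, nat_lit 44, nat_lit 94, nat_lit 100, nat_lit 259789333⟩, ⟨nat_lit 13, nat_lit 60, nat_lit 80, nat_lit 100, nat_lit 125601701⟩]⟩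
noncomputable def p103_l97 : Lf2 := ⟨nat_lit 0, nat_lit 20, [nat_lit 5, nat_lit 5, nat_lit 5, nat_lit 20], true, nat_lit 80, nat_lit 160, nat_lit 0, nat_lit 396, ⟨nat_lit 0, nat_lit 546, nat_lit 454, nat_lit 4, nat_lit 182, nat_lit 1000, nat_lit 105, nat_lit 454, nat_lit 101400, nat_lit 293, nat_lit 94468, nat_lit 200, nat_lit 50743567, nat_lit 11406221, nat_lit 4850212, nat_lit 3732858, false, true⟩,
 nat_lit 0, nat_lit 0, nat_lit 0, nat_lit 5124, nat_lit 2849, nat_lit 0, nat_lit 0, nat_lit 0, nat_lit 0, nat_lit 0, nat_lit 0, nat_lit 0, nat_lit 0, nat_lit 0, nat_lit 0, nat_lit 250000, nat_lit 0, nat_lit 0, [(nat_lit 25, [(nat_lit 0, nat_lit 546), (nat_lit 4, nat_lit 454)])],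
 ⟨p103_k0, nat_lit 0, nat_lit 0, nat_lit 119, nat_lit 0, nat_lit 0, [nat_lit 812232960, nat_lit 323968214], [], [nat_lit 18760494651, nat_lit 20327666385, nat_lit 24956066750, nat_lit 25991862608, nat_lit 19849117375, nat_lit 21176797225, nat_lit 25538063698, nat_lit 26433414322], nat_lit 0, nat_lit 0, nat_lit 0, nat_lit 0, nat_lit 0, nat_lit 0, [], [nat_lit 88, nat_lit 40, nat_lit 40, nat_lit 80, nat_lit 89, nat_lit 345, nat_lit 125, nat_lit 13]⟩, C1.Rw.none,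
 ⟨nat_lit 2236, nat_lit 3163, ⟨.ofNat (nat_lit 223799), .ofNat (nat_lit 638549), .ofNat (nat_lit 267982), .ofNat (nat_lit 682859), .ofNat (nat_lit 237524), .ofNat (nat_lit 625497), .ofNat (nat_lit 282946), .ofNat (nat_lit 671045)⟩, ⟨.ofNat (nat_lit 184209), .ofNat (nat_lit 306116), .ofNat (nat_lit 200000), .ofNat (nat_lit 350426), .ofNat (nat_lit 192306), .ofNat (nat_lit 306337), .ofNat (nat_lit 200000), .ofNat (nat_lit 351886)⟩⟩, [⟨nat_lit 13, nat_lit 53, nat_lit 90, nat_lit 100, nat_lit 136461123⟩]⟩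
noncomputable def p103_l98 : Lf2 := ⟨nat_lit 0, nat_lit 20, [nat_lit 5, nat_lit 5, nat_lit 5, nat_lit 20], true, nat_lit 80, nat_lit 160, nat_lit 0, nat_lit 396, ⟨nat_lit 0, nat_lit 378, nat_lit 622, nat_lit 4, nat_lit 180, nat_lit 1000, nat_lit 105, nat_lit 622, nat_lit 104017, nat_lit 294, nat_lit 4626, nat_lit 204, nat_lit 50865880, nat_lit 11248502, nat_lit 4885618, nat_lit 3721228, false, true⟩,
 nat_lit 0, nat_lit 0, nat_lit 0, nat_lit 962, nat_lit 2497, nat_lit 0, nat_lit 0, nat_lit 0, nat_lit 0, nat_lit 0, nat_lit 0, nat_lit 0, nat_lit 0, nat_lit 0, nat_lit 44, nat_lit 250000, nat_lit 0, nat_lit 0, [(nat_lit 28, [(nat_lit 0, nat_lit 378), (nat_lit 4, nat_lit 622)])],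
 ⟨p103_k5, nat_lit 0, nat_lit 0, nat_lit 120, nat_lit 0, nat_lit 0, [nat_lit 945160000, nat_lit 95211200], [], [nat_lit 19350965441, nat_lit 20776054350, nat_lit 24032224032, nat_lit 25314574176, nat_lit 20405333977, nat_lit 21625603549, nat_lit 24835879288, nat_lit 25915786635], nat_lit 0, nat_lit 0, nat_lit 0, nat_lit 0, nat_lit 0, nat_lit 0, [], [nat_lit 88, nat_lit 40, nat_lit 40, nat_lit 80, nat_lit 89, nat_lit 345, nat_lit 125, nat_lit 13]⟩, C1.Rw.none,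
 ⟨nat_lit 0, nat_lit 2237, ⟨.ofNat (nat_lit 273845), .ofNat (nat_lit 579878), .ofNat (nat_lit 317541), .ofNat (nat_lit 625429), .ofNat (nat_lit 291142), .ofNat (nat_lit 559993), .ofNat (nat_lit 339289), .ofNat (nat_lit 609995)⟩, ⟨.ofNat (nat_lit 192306), .ofNat (nat_lit 306334), .ofNat (nat_lit 200000), .ofNat (nat_lit 351885), .ofNat (nat_lit 199999), .ofNat (nat_lit 299996), .ofNat (nat_lit 200000), .ofNat (nat_lit 349998)⟩⟩, [⟨nat_lit 13, nat_lit 44, nat_lit 90, nat_lit 100, nat_lit 179862134⟩]⟩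
noncomputable def p103_l99 : Lf2 := ⟨nat_lit 0, nat_lit 20, [nat_lit 5, nat_lit 5, nat_lit 5, nat_lit 20], true, nat_lit 160, nat_lit 248, nat_lit 0, nat_lit 396, ⟨nat_lit 0, nat_lit 0, nat_lit 1000, nat_lit 4, nat_lit 135, nat_lit 1000, nat_lit 155, nat_lit 1000, nat_lit 61175, nat_lit 275, nat_lit 173400, nat_lit 317, nat_lit 50869421, nat_lit 0, nat_lit 0, nat_lit 3836145, false, false⟩,
 nat_lit 0, nat_lit 0, nat_lit 0, nat_lit 5373, nat_lit 2664, nat_lit 0, nat_lit 0, nat_lit 0, nat_lit 0, nat_lit 0, nat_lit 0, nat_lit 0, nat_lit 0, nat_lit 0, nat_lit 78, nat_lit 250000, nat_lit 0, nat_lit 0, [(nat_lit 25, [(nat_lit 0, nat_lit 78), (nat_lit 4, nat_lit 922)]), (nat_lit 28, [(nat_lit 0, nat_lit 78), (nat_lit 4, nat_lit 922)])],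
 ⟨p103_k0, nat_lit 0, nat_lit 0, nat_lit 115, nat_lit 0, nat_lit 0, [nat_lit 1175326080, nat_lit 147509632], [], [nat_lit 18541025901, nat_lit 21973011905, nat_lit 19748976448, nat_lit 22505370240, nat_lit 21476935177, nat_lit 24422368434, nat_lit 22424828039, nat_lit 24815041092], nat_lit 0, nat_lit 0, nat_lit 0, nat_lit 0, nat_lit 0, nat_lit 0, [], [nat_lit 88, nat_lit 40, nat_lit 40, nat_lit 80, nat_lit 89, nat_lit 345, nat_lit 125, nat_lit 12]⟩, C1.Rw.none,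
 ⟨nat_lit 0, nat_lit 3163, ⟨.ofNat (nat_lit 216927), .ofNat (nat_lit 394735), .ofNat (nat_lit 258627), .ofNat (nat_lit 436481), .ofNat (nat_lit 252860), .ofNat (nat_lit 399999), .ofNat (nat_lit 300250), .ofNat (nat_lit 447434)⟩, ⟨.ofNat (nat_lit 306113), .ofNat (nat_lit 440207), .ofNat (nat_lit 350425), .ofNat (nat_lit 484518), .ofNat (nat_lit 299996), .ofNat (nat_lit 409993), .ofNat (nat_lit 349998), .ofNat (nat_lit 459993)⟩⟩, [⟨nat_lit 0, nat_lit 100, nat_lit 44, nat_lit 86, nat_lit 21118693⟩, ⟨nat_lit 16, nat_lit 62, nat_lit 100, nat_lit 94, nat_lit 220130767⟩, ⟨nat_lit 4, nat_lit 100, nat_lit 44, nat_lit 87, nat_lit 129614029⟩]⟩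
noncomputable def p103_l100 : Lf2 := ⟨nat_lit 0, nat_lit 20, [nat_lit 5, nat_lit 5, nat_lit 5, nat_lit 20], true, nat_lit 160, nat_lit 248, nat_lit 0, nat_lit 396, ⟨nat_lit 0, nat_lit 1000, nat_lit 0, nat_lit 4, nat_lit 213, nat_lit 1000, nat_lit 155, nat_lit 0, nat_lit 0, nat_lit 0, nat_lit 0, nat_lit 0, nat_lit 44611068, nat_lit 13921124, nat_lit 8467808, nat_lit 4609920, false, true⟩,
 nat_lit 0, nat_lit 0, nat_lit 0, nat_lit 4889, nat_lit 3797, nat_lit 0, nat_lit 0, nat_lit 0, nat_lit 0, nat_lit 0, nat_lit 0, nat_lit 0, nat_lit 0, nat_lit 0, nat_lit 0, nat_lit 250000, nat_lit 0, nat_lit 0, [(nat_lit 25, [(nat_lit 0, nat_lit 1000)]), (nat_lit 28, [(nat_lit 0, nat_lit 1000)])],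
 ⟨p103_k0, nat_lit 0, nat_lit 0, nat_lit 87, nat_lit 0, nat_lit 0, [nat_lit 781600001, nat_lit 2118000000], [], [nat_lit 21615986156, nat_lit 24505818928, nat_lit 26730873920, nat_lit 28871806776, nat_lit 23981292665, nat_lit 26469005853, nat_lit 28288308161, nat_lit 30152096836], nat_lit 0, nat_lit 0, nat_lit 0, nat_lit 0, nat_lit 0, nat_lit 0, [], [nat_lit 88, nat_lit 40, nat_lit 40, nat_lit 80, nat_lit 89, nat_lit 373, nat_lit 150, nat_lit 13]⟩, C1.Rw.none,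
 ⟨nat_lit 0, nat_lit 3163, ⟨.ofNat (nat_lit 394735), .ofNat (nat_lit 638543), .ofNat (nat_lit 436481), .ofNat (nat_lit 682855), .ofNat (nat_lit 399999), .ofNat (nat_lit 599993), .ofNat (nat_lit 447434), .ofNat (nat_lit 649995)⟩, ⟨.ofNat (nat_lit 306113), .ofNat (nat_lit 440207), .ofNat (nat_lit 350425), .ofNat (nat_lit 484518), .ofNat (nat_lit 299996), .ofNat (nat_lit 409993), .ofNat (nat_lit 349998), .ofNat (nat_lit 459993)⟩⟩, [⟨nat_lit 13, nat_lit 44, nat_lit 94, nat_lit 100, nat_lit 204982807⟩, ⟨nat_lit 13, nat_lit 60, nat_lit 80, nat_lit 100, nat_lit 12502689⟩, ⟨nat_lit 4, nat_lit 100, nat_lit 44, nat_lit 87, nat_lit 237179899⟩]⟩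
noncomputable def p103_l101 : Lf2 := ⟨nat_lit 0, nat_lit 20, [nat_lit 5, nat_lit 5, nat_lit 5, nat_lit 20], true, nat_lit 8, nat_lit 248, nat_lit 0, nat_lit 396, ⟨nat_lit 0, nat_lit 1000, nat_lit 0, nat_lit 4, nat_lit 180, nat_lit 1000, nat_lit 94, nat_lit 0, nat_lit 0, nat_lit 0, nat_lit 0, nat_lit 0, nat_lit 0, nat_lit 0, nat_lit 0, nat_lit 5000000, false, true⟩,
 nat_lit 0, nat_lit 0, nat_lit 0, nat_lit 4515, nat_lit 4043, nat_lit 0, nat_lit 0, nat_lit 0, nat_lit 0, nat_lit 0, nat_lit 0, nat_lit 0, nat_lit 0, nat_lit 0, nat_lit 0, nat_lit 250000, nat_lit 0, nat_lit 0, [(nat_lit 25, [(nat_lit 0, nat_lit 1000)]), (nat_lit 28, [(nat_lit 0, nat_lit 1000)])],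
 ⟨p103_k0, nat_lit 0, nat_lit 0, nat_lit 210, nat_lit 0, nat_lit 0, [nat_lit 781600001, nat_lit 2118000000], [], [nat_lit 24253865758, nat_lit 28187293045, nat_lit 29147646603, nat_lit 32259471077, nat_lit 25234074832, nat_lit 27577540142, nat_lit 28598167184, nat_lit 30427058785], nat_lit 0, nat_lit 0, nat_lit 0, nat_lit 0, nat_lit 0, nat_lit 0, [], [nat_lit 88, nat_lit 40, nat_lit 40, nat_lit 80, nat_lit 89, nat_lit 373, nat_lit 150, nat_lit 14]⟩, C1.Rw.none,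
 ⟨nat_lit 0, nat_lit 3163, ⟨.ofNat (nat_lit 216927), .ofNat (nat_lit 638543), .ofNat (nat_lit 258627), .ofNat (nat_lit 682855), .ofNat (nat_lit 252860), .ofNat (nat_lit 599993), .ofNat (nat_lit 300250), .ofNat (nat_lit 649995)⟩, ⟨.ofNat (nat_lit 20000), .ofNat (nat_lit 440207), .ofNat (nat_lit 20000), .ofNat (nat_lit 484518), .ofNat (nat_lit 20000), .ofNat (nat_lit 409993), .ofNat (nat_lit 20000), .ofNat (nat_lit 459993)⟩⟩, [⟨nat_lit 13, nat_lit 44, nat_lit 94, nat_lit 100, nat_lit 256898293⟩, ⟨nat_lit 16, nat_lit 44, nat_lit 100, nat_lit 87, nat_lit 50343655⟩]⟩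
noncomputable def b_V_900_400_20_4 : St := ⟨true, nat_lit 0, nat_lit 2, nat_lit 0, nat_lit 120, nat_lit 360, nat_lit 400, nat_lit 160, nat_lit 200, nat_lit 48, nat_lit 320, nat_lit 80, nat_lit 120, nat_lit 8, nat_lit 248, nat_lit 0, nat_lit 396, nat_lit 40, nat_lit 80, nat_lit 0, nat_lit 0, nat_lit 0, nat_lit 0⟩
theorem d_V_900_400_20_4 (h : EB TB.env) : Dead b_V_900_400_20_4 := chkB_sound0 h (T :=
(.gv
(.st (nat_lit 1)
(.spl (nat_lit 4) (nat_lit 160)
(.spl (nat_lit 2) (nat_lit 160)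
(.leaf p103_l87)
(.spl (nat_lit 4) (nat_lit 80)
(.trX (nat_lit 22) (nat_lit 100) (nat_lit 44) (nat_lit 82) (nat_lit 384) (.leaf p103_l88))
(.leaf p103_l89)))
(.spl (nat_lit 2) (nat_lit 160)
(.leaf p103_l90)
(.leaf p103_l91)))
(.spl (nat_lit 4) (nat_lit 160)
(.spl (nat_lit 4) (nat_lit 80)
(.spl (nat_lit 2) (nat_lit 160)
(.leaf p103_l92)
(.trX (nat_lit 22) (nat_lit 100) (nat_lit 44) (nat_lit 82) (nat_lit 384) (.spl (nat_lit 2) (nat_lit 240)
(.leaf p103_l93)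
(.trX (nat_lit 22) (nat_lit 100) (nat_lit 76) (nat_lit 82) (nat_lit 336) (.spl (nat_lit 4) (nat_lit 40)
(.trX (nat_lit 22) (nat_lit 100) (nat_lit 92) (nat_lit 61) (nat_lit 288) (.spl (nat_lit 0) (nat_lit 380)
(.leaf p103_l94)
(.trX (nat_lit 13) (nat_lit 44) (nat_lit 90) (nat_lit 100) (nat_lit 288) (.trZ (nat_lit 3) (nat_lit 100) (nat_lit 54) (nat_lit 57) (nat_lit 20) (.leaf p103_l95)))))
(.leaf p103_l96))))))
(.spl (nat_lit 0) (nat_lit 380)
(.leaf p103_l97)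
(.trZ (nat_lit 0) (nat_lit 100) (nat_lit 44) (nat_lit 81) (nat_lit 76) (.trX (nat_lit 13) (nat_lit 44) (nat_lit 90) (nat_lit 100) (nat_lit 288) (.leaf p103_l98)))))
(.spl (nat_lit 2) (nat_lit 160)
(.leaf p103_l99)
(.leaf p103_l100))))
(.leaf p103_l101))) (by decide +kernel)
noncomputable def p103_l102 : Lf2 := ⟨nat_lit 0, nat_lit 20, [nat_lit 5, nat_lit 5, nat_lit 5, nat_lit 20], true, nat_lit 8, nat_lit 160, nat_lit 0, nat_lit 396, ⟨nat_lit 0, nat_lit 0, nat_lit 1000, nat_lit 4, nat_lit 134, nat_lit 1000, nat_lit 70, nat_lit 1000, nat_lit 45067, nat_lit 267, nat_lit 170017, nat_lit 316, nat_lit 57332409, nat_lit 0, nat_lit 0, nat_lit 2615863, false, false⟩,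
 nat_lit 0, nat_lit 3041, nat_lit 0, nat_lit 0, nat_lit 2648, nat_lit 0, nat_lit 0, nat_lit 0, nat_lit 0, nat_lit 0, nat_lit 0, nat_lit 0, nat_lit 0, nat_lit 0, nat_lit 78, nat_lit 250000, nat_lit 0, nat_lit 0, [(nat_lit 25, [(nat_lit 0, nat_lit 77), (nat_lit 4, nat_lit 923)])],
 ⟨p103_k0, nat_lit 0, nat_lit 0, nat_lit 323, nat_lit 0, nat_lit 392078, [nat_lit 1174059520, nat_lit 144631808], [], [nat_lit 19880367498, nat_lit 21469497154, nat_lit 21225468673, nat_lit 22390381399, nat_lit 20992141895, nat_lit 22112978829, nat_lit 22227271968, nat_lit 23422234000], nat_lit 1271250, nat_lit 1271250, nat_lit 279600, nat_lit 1100001, nat_lit 43600, nat_lit 1100001, [nat_lit 230000, nat_lit 1420000], [nat_lit 88, nat_lit 40, nat_lit 40, nat_lit 80, nat_lit 89, nat_lit 317, nat_lit 100, nat_lit 12]⟩, C1.Rw.none,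
 ⟨nat_lit 2236, nat_lit 3163, ⟨.ofNat (nat_lit 223799), .ofNat (nat_lit 394735), .ofNat (nat_lit 267982), .ofNat (nat_lit 438942), .ofNat (nat_lit 237524), .ofNat (nat_lit 397434), .ofNat (nat_lit 282946), .ofNat (nat_lit 442880)⟩, ⟨.ofNat (nat_lit 20000), .ofNat (nat_lit 306116), .ofNat (nat_lit 20000), .ofNat (nat_lit 350426), .ofNat (nat_lit 20000), .ofNat (nat_lit 306337), .ofNat (nat_lit 20000), .ofNat (nat_lit 351886)⟩⟩, [⟨nat_lit 3, nat_lit 100, nat_lit 48, nat_lit 71, nat_lit 66401207⟩]⟩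
noncomputable def p103_l103 : Lf2 := ⟨nat_lit 0, nat_lit 20, [nat_lit 5, nat_lit 5, nat_lit 5, nat_lit 20], false, nat_lit 8, nat_lit 80, nat_lit 0, nat_lit 384, ⟨nat_lit 271, nat_lit 0, nat_lit 729, nat_lit 4, nat_lit 215, nat_lit 729, nat_lit 43, nat_lit 729, nat_lit 17067, nat_lit 247, nat_lit 94468, nat_lit 200, nat_lit 50793403, nat_lit 0, nat_lit 0, nat_lit 3195176, false, true⟩,
 nat_lit 0, nat_lit 2896, nat_lit 0, nat_lit 3070, nat_lit 2522, nat_lit 2296, nat_lit 0, nat_lit 0, nat_lit 0, nat_lit 227, nat_lit 0, nat_lit 0, nat_lit 0, nat_lit 0, nat_lit 16, nat_lit 262500, nat_lit 0, nat_lit 0, [(nat_lit 25, [(nat_lit 4, nat_lit 194), (nat_lit 5, nat_lit 535)])],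
 ⟨p103_k1, nat_lit 0, nat_lit 0, nat_lit 242, nat_lit 0, nat_lit 288390, [nat_lit 848054000, nat_lit 628873201, nat_lit 36300399], [], [nat_lit 21068220387, nat_lit 21579183845, nat_lit 25781062094, nat_lit 26293507044, nat_lit 20748250479, nat_lit 21262057646, nat_lit 25354878527, nat_lit 25800763001], nat_lit 1271250, nat_lit 1271250, nat_lit 1100001, nat_lit 2470000, nat_lit 43600, nat_lit 490000, [nat_lit 230000, nat_lit 780000, nat_lit 1435000], [nat_lit 20, nat_lit 40, nat_lit 40, nat_lit 80, nat_lit 16, nat_lit 317, nat_lit 100, nat_lit 12]⟩, ⟨p103_k2, nat_lit 0, nat_lit 0, nat_lit 433, nat_lit 0, nat_lit 0, [nat_lit 2159328000, nat_lit 3217312000, nat_lit 4444400000], [], [nat_lit 10388744194, nat_lit 10472028022, nat_lit 11540122006, nat_lit 11532392278, nat_lit 10370770321, nat_lit 10289613162, nat_lit 10809496417, nat_lit 10695805101], nat_lit 0, nat_lit 0, nat_lit 0, nat_lit 0, nat_lit 0, nat_lit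 0, [], [nat_lit 97, nat_lit 40, nat_lit 40, nat_lit 80, nat_lit 76, nat_lit 483, nat_lit 250, nat_lit 10]⟩,
 ⟨nat_lit 2738, nat_lit 3163, ⟨.ofNat (nat_lit 394735), .ofNat (nat_lit 638549), .ofNat (nat_lit 439028), .ofNat (nat_lit 682859), .ofNat (nat_lit 396102), .ofNat (nat_lit 632348), .ofNat (nat_lit 440920), .ofNat (nat_lit 677182)⟩, ⟨.ofNat (nat_lit 20000), .ofNat (nat_lit 184209), .ofNat (nat_lit 20000), .ofNat (nat_lit 200000), .ofNat (nat_lit 20000), .ofNat (nat_lit 188310), .ofNat (nat_lit 20000), .ofNat (nat_lit 200000)⟩⟩, [⟨nat_lit 3, nat_lit 100, nat_lit 57, nat_lit 62, nat_lit 30898570⟩, ⟨nat_lit 22, nat_lit 100, nat_lit 91, nat_lit 64, nat_lit 68234600⟩]⟩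
noncomputable def p103_l104 : Lf2 := ⟨nat_lit 0, nat_lit 20, [nat_lit 5, nat_lit 5, nat_lit 5, nat_lit 20], false, nat_lit 12, nat_lit 80, nat_lit 0, nat_lit 384, ⟨nat_lit 254, nat_lit 0, nat_lit 746, nat_lit 4, nat_lit 211, nat_lit 746, nat_lit 45, nat_lit 746, nat_lit 19267, nat_lit 249, nat_lit 47678, nat_lit 200, nat_lit 51151885, nat_lit 0, nat_lit 0, nat_lit 3187234, false, true⟩,
 nat_lit 0, nat_lit 3157, nat_lit 0, nat_lit 30, nat_lit 2849, nat_lit 2176, nat_lit 0, nat_lit 0, nat_lit 0, nat_lit 209, nat_lit 0, nat_lit 0, nat_lit 0, nat_lit 0, nat_lit 0, nat_lit 186500, nat_lit 0, nat_lit 0, [(nat_lit 25, [(nat_lit 4, nat_lit 746)])],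
 ⟨p103_k4, nat_lit 0, nat_lit 0, nat_lit 265, nat_lit 0, nat_lit 374144, [nat_lit 781340001, nat_lit 563675467, nat_lit 207050311], [], [nat_lit 21651274147, nat_lit 22229978417, nat_lit 26391505334, nat_lit 27066693767, nat_lit 21347599552, nat_lit 21895209325, nat_lit 25429624618, nat_lit 25895482848], nat_lit 1271250, nat_lit 1271250, nat_lit 1100001, nat_lit 2367250, nat_lit 65850, nat_lit 490000, [nat_lit 230000, nat_lit 780000, nat_lit 1435000], [nat_lit 20, nat_lit 40, nat_lit 40, nat_lit 80, nat_lit 16, nat_lit 317, nat_lit 100, nat_lit 11]⟩, ⟨p103_k2, nat_lit 0, nat_lit 0, nat_lit 433, nat_lit 0, nat_lit 0, [nat_lit 2023872000, nat_lit 3015488000, nat_lit 4165600000], [], [nat_lit 9768913106, nat_lit 9845294650, nat_lit 10713488410, nat_lit 10701673120, nat_lit 9763431190, nat_lit 9684265108, nat_lit 10060806185, nat_lit 9916306015], nat_lit 0, nat_lit 0, nat_lit 0, nat_lit 0, nat_lit 0, nat_lit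 0, [], [nat_lit 97, nat_lit 40, nat_lit 40, nat_lit 80, nat_lit 76, nat_lit 456, nat_lit 225, nat_lit 10]⟩,
 ⟨nat_lit 2236, nat_lit 2739, ⟨.ofNat (nat_lit 396102), .ofNat (nat_lit 614629), .ofNat (nat_lit 440903), .ofNat (nat_lit 659464), .ofNat (nat_lit 397434), .ofNat (nat_lit 608392), .ofNat (nat_lit 442949), .ofNat (nat_lit 653941)⟩, ⟨.ofNat (nat_lit 30000), .ofNat (nat_lit 188310), .ofNat (nat_lit 30000), .ofNat (nat_lit 200000), .ofNat (nat_lit 30000), .ofNat (nat_lit 192306), .ofNat (nat_lit 30000), .ofNat (nat_lit 200000)⟩⟩, [⟨nat_lit 3, nat_lit 100, nat_lit 48, nat_lit 71, nat_lit 182316743⟩, ⟨nat_lit 22, nat_lit 100, nat_lit 88, nat_lit 65, nat_lit 62855194⟩]⟩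
noncomputable def p103_l105 : Lf2 := ⟨nat_lit 0, nat_lit 20, [nat_lit 5, nat_lit 5, nat_lit 5, nat_lit 20], true, nat_lit 80, nat_lit 160, nat_lit 0, nat_lit 396, ⟨nat_lit 0, nat_lit 594, nat_lit 406, nat_lit 4, nat_lit 215, nat_lit 1000, nat_lit 104, nat_lit 406, nat_lit 101400, nat_lit 293, nat_lit 94468, nat_lit 200, nat_lit 47616081, nat_lit 14645501, nat_lit 4738418, nat_lit 4050048, false, true⟩,
 nat_lit 0, nat_lit 3272, nat_lit 0, nat_lit 0, nat_lit 2849, nat_lit 0, nat_lit 49, nat_lit 0, nat_lit 0, nat_lit 0, nat_lit 0, nat_lit 0, nat_lit 0, nat_lit 0, nat_lit 0, nat_lit 250000, nat_lit 0, nat_lit 0, [(nat_lit 25, [(nat_lit 0, nat_lit 594), (nat_lit 4, nat_lit 406)])],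
 ⟨p103_k1, nat_lit 0, nat_lit 0, nat_lit 197, nat_lit 0, nat_lit 288390, [nat_lit 749384000, nat_lit 666149334, nat_lit 502932000], [], [nat_lit 20489104786, nat_lit 21035422160, nat_lit 24854191390, nat_lit 25360191370, nat_lit 21313191898, nat_lit 21811503679, nat_lit 25314356034, nat_lit 25733004881], nat_lit 1271250, nat_lit 1271250, nat_lit 1100001, nat_lit 2470000, nat_lit 490000, nat_lit 1100001, [nat_lit 230000, nat_lit 780000, nat_lit 1435000], [nat_lit 20, nat_lit 40, nat_lit 40, nat_lit 80, nat_lit 16, nat_lit 345, nat_lit 125, nat_lit 12]⟩, C1.Rw.none,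
 ⟨nat_lit 2738, nat_lit 3163, ⟨.ofNat (nat_lit 394735), .ofNat (nat_lit 638549), .ofNat (nat_lit 439028), .ofNat (nat_lit 682859), .ofNat (nat_lit 396102), .ofNat (nat_lit 632348), .ofNat (nat_lit 440920), .ofNat (nat_lit 677182)⟩, ⟨.ofNat (nat_lit 184209), .ofNat (nat_lit 306116), .ofNat (nat_lit 200000), .ofNat (nat_lit 350426), .ofNat (nat_lit 188310), .ofNat (nat_lit 306433), .ofNat (nat_lit 200000), .ofNat (nat_lit 351268)⟩⟩, [⟨nat_lit 13, nat_lit 57, nat_lit 88, nat_lit 100, nat_lit 192831770⟩]⟩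
noncomputable def p103_l106 : Lf2 := ⟨nat_lit 0, nat_lit 20, [nat_lit 5, nat_lit 5, nat_lit 5, nat_lit 20], true, nat_lit 80, nat_lit 160, nat_lit 0, nat_lit 396, ⟨nat_lit 0, nat_lit 921, nat_lit 79, nat_lit 4, nat_lit 211, nat_lit 1000, nat_lit 105, nat_lit 79, nat_lit 104017, nat_lit 294, nat_lit 47678, nat_lit 200, nat_lit 48000145, nat_lit 14212673, nat_lit 4787182, nat_lit 4019067, false, true⟩,
 nat_lit 0, nat_lit 3198, nat_lit 0, nat_lit 0, nat_lit 2886, nat_lit 0, nat_lit 178, nat_lit 0, nat_lit 0, nat_lit 0, nat_lit 0, nat_lit 0, nat_lit 0, nat_lit 0, nat_lit 0, nat_lit 250000, nat_lit 0, nat_lit 0, [(nat_lit 25, [(nat_lit 0, nat_lit 921), (nat_lit 4, nat_lit 79)])],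
 ⟨p103_k4, nat_lit 0, nat_lit 0, nat_lit 224, nat_lit 0, nat_lit 374144, [nat_lit 761156000, nat_lit 1232077334, nat_lit 1803738000], [], [nat_lit 20837593568, nat_lit 21388424548, nat_lit 24847240437, nat_lit 25492907672, nat_lit 21704958046, nat_lit 22206891104, nat_lit 25420441877, nat_lit 25841048854], nat_lit 1271250, nat_lit 1271250, nat_lit 1100001, nat_lit 2367250, nat_lit 490000, nat_lit 1100001, [nat_lit 230000, nat_lit 780000, nat_lit 1435000], [nat_lit 20, nat_lit 40, nat_lit 40, nat_lit 80, nat_lit 16, nat_lit 345, nat_lit 125, nat_lit 12]⟩, C1.Rw.none,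
 ⟨nat_lit 2236, nat_lit 2739, ⟨.ofNat (nat_lit 396102), .ofNat (nat_lit 614629), .ofNat (nat_lit 440903), .ofNat (nat_lit 659464), .ofNat (nat_lit 397434), .ofNat (nat_lit 608392), .ofNat (nat_lit 442949), .ofNat (nat_lit 653941)⟩, ⟨.ofNat (nat_lit 188310), .ofNat (nat_lit 306433), .ofNat (nat_lit 200000), .ofNat (nat_lit 351268), .ofNat (nat_lit 192306), .ofNat (nat_lit 306337), .ofNat (nat_lit 200000), .ofNat (nat_lit 351886)⟩⟩, [⟨nat_lit 13, nat_lit 49, nat_lit 92, nat_lit 100, nat_lit 197720728⟩]⟩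
noncomputable def p103_l107 : Lf2 := ⟨nat_lit 0, nat_lit 20, [nat_lit 5, nat_lit 5, nat_lit 5, nat_lit 20], true, nat_lit 160, nat_lit 248, nat_lit 0, nat_lit 396, ⟨nat_lit 0, nat_lit 0, nat_lit 1000, nat_lit 4, nat_lit 134, nat_lit 1000, nat_lit 157, nat_lit 1000, nat_lit 61189, nat_lit 275, nat_lit 170017, nat_lit 316, nat_lit 50751251, nat_lit 0, nat_lit 0, nat_lit 3850737, false, false⟩,
 nat_lit 0, nat_lit 3330, nat_lit 0, nat_lit 0, nat_lit 2900, nat_lit 0, nat_lit 0, nat_lit 0, nat_lit 0, nat_lit 0, nat_lit 0, nat_lit 0, nat_lit 0, nat_lit 0, nat_lit 66, nat_lit 250000, nat_lit 0, nat_lit 0, [(nat_lit 25, [(nat_lit 0, nat_lit 140), (nat_lit 4, nat_lit 860)])],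
 ⟨p103_k0, nat_lit 0, nat_lit 0, nat_lit 237, nat_lit 0, nat_lit 392078, [nat_lit 1119366400, nat_lit 137826560], [], [nat_lit 19386326160, nat_lit 20620829401, nat_lit 20486320960, nat_lit 21689292200, nat_lit 21953699408, nat_lit 23313831137, nat_lit 22975146001, nat_lit 24122884140], nat_lit 1271250, nat_lit 1271250, nat_lit 279600, nat_lit 1100001, nat_lit 1100001, nat_lit 1853500, [nat_lit 230000, nat_lit 1420000], [nat_lit 88, nat_lit 40, nat_lit 40, nat_lit 80, nat_lit 89, nat_lit 345, nat_lit 125, nat_lit 12]⟩, C1.Rw.none,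
 ⟨nat_lit 2236, nat_lit 3163, ⟨.ofNat (nat_lit 223799), .ofNat (nat_lit 394735), .ofNat (nat_lit 267982), .ofNat (nat_lit 438942), .ofNat (nat_lit 237524), .ofNat (nat_lit 397434), .ofNat (nat_lit 282946), .ofNat (nat_lit 442880)⟩, ⟨.ofNat (nat_lit 306116), .ofNat (nat_lit 440213), .ofNat (nat_lit 350426), .ofNat (nat_lit 484523), .ofNat (nat_lit 306337), .ofNat (nat_lit 431772), .ofNat (nat_lit 351886), .ofNat (nat_lit 477320)⟩⟩, [⟨nat_lit 0, nat_lit 100, nat_lit 44, nat_lit 90, nat_lit 11278611⟩, ⟨nat_lit 4, nat_lit 100, nat_lit 53, nat_lit 87, nat_lit 351112153⟩]⟩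
noncomputable def p103_l108 : Lf2 := ⟨nat_lit 0, nat_lit 20, [nat_lit 5, nat_lit 5, nat_lit 5, nat_lit 20], true, nat_lit 160, nat_lit 248, nat_lit 0, nat_lit 396, ⟨nat_lit 0, nat_lit 369, nat_lit 631, nat_lit 4, nat_lit 191, nat_lit 1000, nat_lit 158, nat_lit 631, nat_lit 61189, nat_lit 275, nat_lit 2400, nat_lit 227, nat_lit 46187148, nat_lit 11958458, nat_lit 8854394, nat_lit 4463583, false, true⟩,
 nat_lit 0, nat_lit 3272, nat_lit 0, nat_lit 0, nat_lit 2849, nat_lit 0, nat_lit 0, nat_lit 0, nat_lit 0, nat_lit 0, nat_lit 0, nat_lit 0, nat_lit 0, nat_lit 0, nat_lit 20, nat_lit 250000, nat_lit 0, nat_lit 0, [(nat_lit 25, [(nat_lit 0, nat_lit 369), (nat_lit 4, nat_lit 631)])],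
 ⟨p103_k0, nat_lit 0, nat_lit 0, nat_lit 141, nat_lit 0, nat_lit 288390, [nat_lit 911037441, nat_lit 65470976], [], [nat_lit 20503617041, nat_lit 21001928822, nat_lit 22239188395, nat_lit 22757393004, nat_lit 22508867546, nat_lit 23020019226, nat_lit 24217878967, nat_lit 24720924928], nat_lit 1271250, nat_lit 1271250, nat_lit 1100001, nat_lit 1785000, nat_lit 1100001, nat_lit 1853500, [nat_lit 230000, nat_lit 1420000], [nat_lit 88, nat_lit 40, nat_lit 40, nat_lit 80, nat_lit 89, nat_lit 345, nat_lit 125, nat_lit 12]⟩, C1.Rw.none,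
 ⟨nat_lit 2738, nat_lit 3163, ⟨.ofNat (nat_lit 394735), .ofNat (nat_lit 516642), .ofNat (nat_lit 439028), .ofNat (nat_lit 560952), .ofNat (nat_lit 396102), .ofNat (nat_lit 514225), .ofNat (nat_lit 440920), .ofNat (nat_lit 559060)⟩, ⟨.ofNat (nat_lit 306116), .ofNat (nat_lit 440213), .ofNat (nat_lit 350426), .ofNat (nat_lit 484523), .ofNat (nat_lit 306433), .ofNat (nat_lit 436368), .ofNat (nat_lit 351268), .ofNat (nat_lit 481203)⟩⟩, [⟨nat_lit 16, nat_lit 62, nat_lit 100, nat_lit 94, nat_lit 202641783⟩]⟩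
noncomputable def p103_l109 : Lf2 := ⟨nat_lit 0, nat_lit 20, [nat_lit 5, nat_lit 5, nat_lit 5, nat_lit 20], true, nat_lit 160, nat_lit 248, nat_lit 0, nat_lit 396, ⟨nat_lit 0, nat_lit 1000, nat_lit 0, nat_lit 6, nat_lit 239, nat_lit 1000, nat_lit 158, nat_lit 0, nat_lit 0, nat_lit 0, nat_lit 0, nat_lit 0, nat_lit 42238873, nat_lit 16319186, nat_lit 8441941, nat_lit 4811182, false, true⟩,
 nat_lit 0, nat_lit 3684, nat_lit 0, nat_lit 362, nat_lit 3208, nat_lit 0, nat_lit 0, nat_lit 0, nat_lit 0, nat_lit 0, nat_lit 0, nat_lit 0, nat_lit 0, nat_lit 0, nat_lit 0, nat_lit 400000, nat_lit 0, nat_lit 0, [(nat_lit 25, [(nat_lit 1, nat_lit 1000)])],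
 ⟨p103_k1, nat_lit 0, nat_lit 0, nat_lit 151, nat_lit 0, nat_lit 288390, [nat_lit 844800001, nat_lit 1002133334, nat_lit 915200000], [], [nat_lit 23044910136, nat_lit 23548520344, nat_lit 25761694880, nat_lit 26260137976, nat_lit 24888457004, nat_lit 25368957985, nat_lit 27380165306, nat_lit 27907654392], nat_lit 1271250, nat_lit 1271250, nat_lit 1271250, nat_lit 1271250, nat_lit 1100001, nat_lit 1853500, [nat_lit 230000, nat_lit 780000, nat_lit 1435000], [nat_lit 20, nat_lit 40, nat_lit 40, nat_lit 80, nat_lit 16, nat_lit 289, nat_lit 75, nat_lit 9]⟩, C1.Rw.none,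
 ⟨nat_lit 2738, nat_lit 3163, ⟨.ofNat (nat_lit 516642), .ofNat (nat_lit 638549), .ofNat (nat_lit 560952), .ofNat (nat_lit 682859), .ofNat (nat_lit 514225), .ofNat (nat_lit 632348), .ofNat (nat_lit 559060), .ofNat (nat_lit 677182)⟩, ⟨.ofNat (nat_lit 306116), .ofNat (nat_lit 440213), .ofNat (nat_lit 350426), .ofNat (nat_lit 484523), .ofNat (nat_lit 306433), .ofNat (nat_lit 436368), .ofNat (nat_lit 351268), .ofNat (nat_lit 481203)⟩⟩, [⟨nat_lit 13, nat_lit 60, nat_lit 80, nat_lit 100, nat_lit 239192521⟩, ⟨nat_lit 4, nat_lit 100, nat_lit 57, nat_lit 87, nat_lit 182286361⟩]⟩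
noncomputable def p103_l110 : Lf2 := ⟨nat_lit 0, nat_lit 20, [nat_lit 5, nat_lit 5, nat_lit 5, nat_lit 20], true, nat_lit 160, nat_lit 232, nat_lit 0, nat_lit 396, ⟨nat_lit 0, nat_lit 743, nat_lit 257, nat_lit 4, nat_lit 211, nat_lit 1000, nat_lit 152, nat_lit 257, nat_lit 156817, nat_lit 312, nat_lit 47678, nat_lit 200, nat_lit 44935092, nat_lit 13784115, nat_lit 8280793, nat_lit 4570214, false, true⟩,
 nat_lit 0, nat_lit 3249, nat_lit 0, nat_lit 0, nat_lit 2932, nat_lit 0, nat_lit 71, nat_lit 0, nat_lit 0, nat_lit 0, nat_lit 0, nat_lit 0, nat_lit 0, nat_lit 0, nat_lit 0, nat_lit 250000, nat_lit 0, nat_lit 0, [(nat_lit 25, [(nat_lit 0, nat_lit 743), (nat_lit 4, nat_lit 257)])],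
 ⟨p103_k4, nat_lit 0, nat_lit 0, nat_lit 197, nat_lit 0, nat_lit 374144, [nat_lit 754748001, nat_lit 924018667, nat_lit 1095654000], [], [nat_lit 21730574771, nat_lit 22235769367, nat_lit 25515331249, nat_lit 25936063117, nat_lit 23301507991, nat_lit 23781047228, nat_lit 26776649469, nat_lit 27314338735], nat_lit 1271250, nat_lit 1271250, nat_lit 1100001, nat_lit 2367250, nat_lit 1100001, nat_lit 1716500, [nat_lit 230000, nat_lit 780000, nat_lit 1435000], [nat_lit 20, nat_lit 40, nat_lit 40, nat_lit 80, nat_lit 16, nat_lit 373, nat_lit 150, nat_lit 13]⟩, C1.Rw.none,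
 ⟨nat_lit 2236, nat_lit 2739, ⟨.ofNat (nat_lit 396102), .ofNat (nat_lit 614629), .ofNat (nat_lit 440903), .ofNat (nat_lit 659464), .ofNat (nat_lit 397434), .ofNat (nat_lit 608392), .ofNat (nat_lit 442949), .ofNat (nat_lit 653941)⟩, ⟨.ofNat (nat_lit 306433), .ofNat (nat_lit 412743), .ofNat (nat_lit 351268), .ofNat (nat_lit 457578), .ofNat (nat_lit 306337), .ofNat (nat_lit 408965), .ofNat (nat_lit 351886), .ofNat (nat_lit 454514)⟩⟩, [⟨nat_lit 13, nat_lit 49, nat_lit 92, nat_lit 100, nat_lit 204268873⟩, ⟨nat_lit 16, nat_lit 48, nat_lit 100, nat_lit 87, nat_lit 234235278⟩]⟩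
noncomputable def p103_l111 : Lf2 := ⟨nat_lit 0, nat_lit 20, [nat_lit 5, nat_lit 5, nat_lit 5, nat_lit 20], true, nat_lit 20, nat_lit 80, nat_lit 0, nat_lit 396, ⟨nat_lit 0, nat_lit 0, nat_lit 1000, nat_lit 4, nat_lit 145, nat_lit 1000, nat_lit 50, nat_lit 1000, nat_lit 22817, nat_lit 252, nat_lit 198017, nat_lit 324, nat_lit 57461953, nat_lit 0, nat_lit 0, nat_lit 2462468, false, false⟩,
 nat_lit 0, nat_lit 2585, nat_lit 0, nat_lit 0, nat_lit 2415, nat_lit 0, nat_lit 0, nat_lit 0, nat_lit 0, nat_lit 0, nat_lit 0, nat_lit 0, nat_lit 0, nat_lit 0, nat_lit 192, nat_lit 379600, nat_lit 0, nat_lit 0, [(nat_lit 28, [(nat_lit 4, nat_lit 136), (nat_lit 5, nat_lit 864)])],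
 ⟨p103_k5, nat_lit 0, nat_lit 0, nat_lit 382, nat_lit 0, nat_lit 549722, [nat_lit 1384448000, nat_lit 391369600], [], [nat_lit 20101949128, nat_lit 21939319937, nat_lit 21107106513, nat_lit 22399684640, nat_lit 19752946489, nat_lit 21112319722, nat_lit 21122967880, nat_lit 22350876740], nat_lit 1271250, nat_lit 1271250, nat_lit 462650, nat_lit 1100001, nat_lit 111251, nat_lit 490000, [nat_lit 230000, nat_lit 1420000], [nat_lit 88, nat_lit 40, nat_lit 40, nat_lit 80, nat_lit 89, nat_lit 272, nat_lit 60, nat_lit 10]⟩, C1.Rw.none,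
 ⟨nat_lit 0, nat_lit 2237, ⟨.ofNat (nat_lit 273845), .ofNat (nat_lit 397434), .ofNat (nat_lit 317541), .ofNat (nat_lit 441142), .ofNat (nat_lit 291142), .ofNat (nat_lit 399999), .ofNat (nat_lit 339289), .ofNat (nat_lit 448157)⟩, ⟨.ofNat (nat_lit 50000), .ofNat (nat_lit 192306), .ofNat (nat_lit 50000), .ofNat (nat_lit 200000), .ofNat (nat_lit 50000), .ofNat (nat_lit 199999), .ofNat (nat_lit 50000), .ofNat (nat_lit 200000)⟩⟩, [⟨nat_lit 0, nat_lit 100, nat_lit 31, nat_lit 92, nat_lit 42139700⟩, ⟨nat_lit 3, nat_lit 100, nat_lit 36, nat_lit 77, nat_lit 361363782⟩]⟩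
noncomputable def p103_l112 : Lf2 := ⟨nat_lit 0, nat_lit 20, [nat_lit 5, nat_lit 5, nat_lit 5, nat_lit 20], false, nat_lit 20, nat_lit 80, nat_lit 0, nat_lit 384, ⟨nat_lit 166, nat_lit 294, nat_lit 540, nat_lit 4, nat_lit 203, nat_lit 834, nat_lit 50, nat_lit 540, nat_lit 22817, nat_lit 252, nat_lit 4626, nat_lit 204, nat_lit 51736441, nat_lit 13692834, nat_lit 1570725, nat_lit 3177370, false, true⟩,
 nat_lit 0, nat_lit 2795, nat_lit 0, nat_lit 0, nat_lit 2611, nat_lit 1449, nat_lit 0, nat_lit 0, nat_lit 0, nat_lit 141, nat_lit 0, nat_lit 0, nat_lit 0, nat_lit 0, nat_lit 34, nat_lit 289500, nat_lit 0, nat_lit 0, [(nat_lit 28, [(nat_lit 0, nat_lit 294), (nat_lit 5, nat_lit 540)])],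
 ⟨p103_k6, nat_lit 0, nat_lit 0, nat_lit 340, nat_lit 0, nat_lit 549722, [nat_lit 842042401, nat_lit 315374400, nat_lit 208713600], [], [nat_lit 22155045781, nat_lit 23291248695, nat_lit 25606884228, nat_lit 26771427643, nat_lit 22031805242, nat_lit 23113351968, nat_lit 25366118381, nat_lit 26297426810], nat_lit 1271250, nat_lit 1271250, nat_lit 1100001, nat_lit 2196000, nat_lit 111251, nat_lit 490000, [nat_lit 230000, nat_lit 780000, nat_lit 1435000], [nat_lit 20, nat_lit 40, nat_lit 40, nat_lit 80, nat_lit 16, nat_lit 317, nat_lit 100, nat_lit 11]⟩, ⟨p103_k2, nat_lit 0, nat_lit 0, nat_lit 433, nat_lit 0, nat_lit 0, [nat_lit 1322688000, nat_lit 1970752000, nat_lit 2722400000], [], [nat_lit 6333943774, nat_lit 6381984870, nat_lit 6805974359, nat_lit 6793773927, nat_lit 6343078263, nat_lit 6287870849, nat_lit 6449744953, nat_lit 6361320053], nat_lit 0, nat_lit 0, nat_lit 0, nat_lit 0, nat_lit 0, nat_lit 0,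 [], [nat_lit 97, nat_lit 40, nat_lit 40, nat_lit 80, nat_lit 76, nat_lit 456, nat_lit 225, nat_lit 10]⟩,
 ⟨nat_lit 0, nat_lit 2237, ⟨.ofNat (nat_lit 397434), .ofNat (nat_lit 579878), .ofNat (nat_lit 441142), .ofNat (nat_lit 625429), .ofNat (nat_lit 399999), .ofNat (nat_lit 559993), .ofNat (nat_lit 448157), .ofNat (nat_lit 609995)⟩, ⟨.ofNat (nat_lit 50000), .ofNat (nat_lit 192306), .ofNat (nat_lit 50000), .ofNat (nat_lit 200000), .ofNat (nat_lit 50000), .ofNat (nat_lit 199999), .ofNat (nat_lit 50000), .ofNat (nat_lit 200000)⟩⟩, [⟨nat_lit 13, nat_lit 31, nat_lit 98, nat_lit 100, nat_lit 115287143⟩, ⟨nat_lit 3, nat_lit 100, nat_lit 36, nat_lit 77, nat_lit 233053193⟩, ⟨nat_lit 22, nat_lit 100, nat_lit 83, nat_lit 67, nat_lit 41306984⟩]⟩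
noncomputable def p103_l113 : Lf2 := ⟨nat_lit 0, nat_lit 20, [nat_lit 5, nat_lit 5, nat_lit 5, nat_lit 20], true, nat_lit 80, nat_lit 208, nat_lit 0, nat_lit 396, ⟨nat_lit 0, nat_lit 0, nat_lit 1000, nat_lit 4, nat_lit 145, nat_lit 1000, nat_lit 118, nat_lit 1000, nat_lit 129067, nat_lit 303, nat_lit 198017, nat_lit 324, nat_lit 53022127, nat_lit 0, nat_lit 0, nat_lit 3486851, false, false⟩,
 nat_lit 0, nat_lit 2734, nat_lit 0, nat_lit 0, nat_lit 2554, nat_lit 0, nat_lit 0, nat_lit 0, nat_lit 0, nat_lit 0, nat_lit 0, nat_lit 0, nat_lit 0, nat_lit 0, nat_lit 198, nat_lit 390250, nat_lit 0, nat_lit 0, [(nat_lit 28, [(nat_lit 4, nat_lit 65), (nat_lit 5, nat_lit 935)])],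
 ⟨p103_k5, nat_lit 0, nat_lit 0, nat_lit 322, nat_lit 0, nat_lit 549722, [nat_lit 1396520000, nat_lit 409584000], [], [nat_lit 19068168427, nat_lit 20887110301, nat_lit 20179771188, nat_lit 21476267944, nat_lit 21512464873, nat_lit 22789832305, nat_lit 22635084394, nat_lit 23732664570], nat_lit 1271250, nat_lit 1271250, nat_lit 462650, nat_lit 1100001, nat_lit 490000, nat_lit 1490000, [nat_lit 230000, nat_lit 1420000], [nat_lit 88, nat_lit 40, nat_lit 40, nat_lit 80, nat_lit 89, nat_lit 317, nat_lit 100, nat_lit 11]⟩, C1.Rw.none,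
 ⟨nat_lit 0, nat_lit 2237, ⟨.ofNat (nat_lit 273845), .ofNat (nat_lit 397434), .ofNat (nat_lit 317541), .ofNat (nat_lit 441142), .ofNat (nat_lit 291142), .ofNat (nat_lit 399999), .ofNat (nat_lit 339289), .ofNat (nat_lit 448157)⟩, ⟨.ofNat (nat_lit 192306), .ofNat (nat_lit 374750), .ofNat (nat_lit 200000), .ofNat (nat_lit 420300), .ofNat (nat_lit 199999), .ofNat (nat_lit 359993), .ofNat (nat_lit 200000), .ofNat (nat_lit 409994)⟩⟩, [⟨nat_lit 0, nat_lit 100, nat_lit 31, nat_lit 92, nat_lit 115338736⟩, ⟨nat_lit 4, nat_lit 100, nat_lit 32, nat_lit 88, nat_lit 234174286⟩]⟩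
noncomputable def p103_l114 : Lf2 := ⟨nat_lit 0, nat_lit 20, [nat_lit 5, nat_lit 5, nat_lit 5, nat_lit 20], true, nat_lit 80, nat_lit 208, nat_lit 0, nat_lit 396, ⟨nat_lit 0, nat_lit 885, nat_lit 115, nat_lit 4, nat_lit 204, nat_lit 1000, nat_lit 119, nat_lit 115, nat_lit 132017, nat_lit 304, nat_lit 4634, nat_lit 204, nat_lit 47742100, nat_lit 13484524, nat_lit 5773376, nat_lit 4135440, false, true⟩,
 nat_lit 0, nat_lit 2833, nat_lit 0, nat_lit 0, nat_lit 2646, nat_lit 0, nat_lit 0, nat_lit 0, nat_lit 0, nat_lit 0, nat_lit 0, nat_lit 0, nat_lit 0, nat_lit 0, nat_lit 17, nat_lit 400000, nat_lit 0, nat_lit 0, [(nat_lit 28, [(nat_lit 1, nat_lit 885), (nat_lit 5, nat_lit 115)])],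
 ⟨p103_k6, nat_lit 0, nat_lit 0, nat_lit 246, nat_lit 0, nat_lit 453105, [nat_lit 753640000, nat_lit 287852000, nat_lit 43116000], [], [nat_lit 20868452472, nat_lit 21459616744, nat_lit 24378779254, nat_lit 24893849795, nat_lit 22948425657, nat_lit 23451132331, nat_lit 25952974228, nat_lit 26367470387], nat_lit 1271250, nat_lit 1271250, nat_lit 1100001, nat_lit 2196000, nat_lit 490000, nat_lit 1490000, [nat_lit 230000, nat_lit 780000, nat_lit 1435000], [nat_lit 20, nat_lit 40, nat_lit 40, nat_lit 80, nat_lit 16, nat_lit 345, nat_lit 125, nat_lit 12]⟩, C1.Rw.none,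
 ⟨nat_lit 1581, nat_lit 2237, ⟨.ofNat (nat_lit 397434), .ofNat (nat_lit 579884), .ofNat (nat_lit 442898), .ofNat (nat_lit 625433), .ofNat (nat_lit 398733), .ofNat (nat_lit 573567), .ofNat (nat_lit 445278), .ofNat (nat_lit 620197)⟩, ⟨.ofNat (nat_lit 192306), .ofNat (nat_lit 374756), .ofNat (nat_lit 200000), .ofNat (nat_lit 420305), .ofNat (nat_lit 196201), .ofNat (nat_lit 371036), .ofNat (nat_lit 200000), .ofNat (nat_lit 417666)⟩⟩, [⟨nat_lit 13, nat_lit 38, nat_lit 96, nat_lit 100, nat_lit 245485093⟩, ⟨nat_lit 4, nat_lit 100, nat_lit 38, nat_lit 87, nat_lit 99621987⟩]⟩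
noncomputable def p103_l115 : Lf2 := ⟨nat_lit 0, nat_lit 20, [nat_lit 5, nat_lit 5, nat_lit 5, nat_lit 20], true, nat_lit 80, nat_lit 184, nat_lit 0, nat_lit 396, ⟨nat_lit 0, nat_lit 936, nat_lit 64, nat_lit 4, nat_lit 196, nat_lit 1000, nat_lit 111, nat_lit 64, nat_lit 117600, nat_lit 299, nat_lit 3437, nat_lit 217, nat_lit 48907815, nat_lit 12798060, nat_lit 5294125, nat_lit 3975426, false, true⟩,
 nat_lit 0, nat_lit 2787, nat_lit 0, nat_lit 0, nat_lit 2694, nat_lit 0, nat_lit 0, nat_lit 0, nat_lit 0, nat_lit 0, nat_lit 0, nat_lit 0, nat_lit 0, nat_lit 0, nat_lit 0, nat_lit 383200, nat_lit 0, nat_lit 0, [(nat_lit 28, [(nat_lit 0, nat_lit 112), (nat_lit 1, nat_lit 824), (nat_lit 5, nat_lit 64)])],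
 ⟨p103_k7, nat_lit 0, nat_lit 0, nat_lit 251, nat_lit 0, nat_lit 525817, [nat_lit 700352000, nat_lit 271481601, nat_lit 126566400], [], [nat_lit 21266480623, nat_lit 21847571280, nat_lit 23999787272, nat_lit 24695761005, nat_lit 22793968347, nat_lit 23333808193, nat_lit 25368158855, nat_lit 25877369348], nat_lit 1271250, nat_lit 1271250, nat_lit 1100001, nat_lit 1990500, nat_lit 490000, nat_lit 1302500, [nat_lit 230000, nat_lit 780000, nat_lit 1100000], [nat_lit 35, nat_lit 40, nat_lit 40, nat_lit 80, nat_lit 22, nat_lit 260, nat_lit 50, nat_lit 11]⟩, C1.Rw.none,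
 ⟨nat_lit 0, nat_lit 1582, ⟨.ofNat (nat_lit 398733), .ofNat (nat_lit 540781), .ofNat (nat_lit 444052), .ofNat (nat_lit 587413), .ofNat (nat_lit 399999), .ofNat (nat_lit 529994), .ofNat (nat_lit 448688), .ofNat (nat_lit 579996)⟩, ⟨.ofNat (nat_lit 196201), .ofNat (nat_lit 338250), .ofNat (nat_lit 200000), .ofNat (nat_lit 384882), .ofNat (nat_lit 199999), .ofNat (nat_lit 329995), .ofNat (nat_lit 200000), .ofNat (nat_lit 379997)⟩⟩, [⟨nat_lit 13, nat_lit 22, nat_lit 100, nat_lit 100, nat_lit 428026652⟩, ⟨nat_lit 4, nat_lit 100, nat_lit 23, nat_lit 91, nat_lit 167551992⟩]⟩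
noncomputable def b_V_900_400_20_5 : St := ⟨true, nat_lit 1, nat_lit 0, nat_lit 1, nat_lit 120, nat_lit 360, nat_lit 400, nat_lit 160, nat_lit 200, nat_lit 48, nat_lit 320, nat_lit 80, nat_lit 120, nat_lit 8, nat_lit 248, nat_lit 0, nat_lit 396, nat_lit 40, nat_lit 80, nat_lit 0, nat_lit 0, nat_lit 0, nat_lit 0⟩
theorem d_V_900_400_20_5 (h : EB TB.env) : Dead b_V_900_400_20_5 := chkB_sound0 h (T :=
(.spl (nat_lit 0) (nat_lit 380)
(.spl (nat_lit 4) (nat_lit 160)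
(.spl (nat_lit 2) (nat_lit 160)
(.leaf p103_l102)
(.spl (nat_lit 4) (nat_lit 80)
(.trX (nat_lit 22) (nat_lit 100) (nat_lit 44) (nat_lit 82) (nat_lit 384) (.spl (nat_lit 0) (nat_lit 370)
(.leaf p103_l103)
(.trX (nat_lit 13) (nat_lit 53) (nat_lit 85) (nat_lit 100) (nat_lit 308) (.trZ (nat_lit 3) (nat_lit 100) (nat_lit 66) (nat_lit 45) (nat_lit 12) (.leaf p103_l104)))))
(.spl (nat_lit 0) (nat_lit 370)
(.leaf p103_l105)
(.trX (nat_lit 13) (nat_lit 53) (nat_lit 85) (nat_lit 100) (nat_lit 308) (.leaf p103_l106)))))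
(.spl (nat_lit 2) (nat_lit 160)
(.leaf p103_l107)
(.spl (nat_lit 0) (nat_lit 370)
(.spl (nat_lit 2) (nat_lit 240)
(.leaf p103_l108)
(.leaf p103_l109))
(.trX (nat_lit 13) (nat_lit 53) (nat_lit 85) (nat_lit 100) (nat_lit 308) (.trX (nat_lit 16) (nat_lit 53) (nat_lit 100) (nat_lit 93) (nat_lit 232) (.leaf p103_l110))))))
(.trZ (nat_lit 0) (nat_lit 100) (nat_lit 44) (nat_lit 81) (nat_lit 76) (.trX (nat_lit 13) (nat_lit 44) (nat_lit 90) (nat_lit 100) (nat_lit 288) (.trZ (nat_lit 3) (nat_lit 100) (nat_lit 54) (nat_lit 57) (nat_lit 20) (.trX (nat_lit 16) (nat_lit 44) (nat_lit 100) (nat_lit 92) (nat_lit 208) (.spl (nat_lit 4) (nat_lit 80)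
(.spl (nat_lit 2) (nat_lit 160)
(.leaf p103_l111)
(.trX (nat_lit 22) (nat_lit 100) (nat_lit 44) (nat_lit 82) (nat_lit 384) (.leaf p103_l112)))
(.spl (nat_lit 2) (nat_lit 160)
(.leaf p103_l113)
(.spl (nat_lit 0) (nat_lit 390)
(.leaf p103_l114)
(.trX (nat_lit 13) (nat_lit 31) (nat_lit 95) (nat_lit 100) (nat_lit 264) (.trX (nat_lit 16) (nat_lit 31) (nat_lit 100) (nat_lit 92) (nat_lit 184) (.leaf p103_l115)))))))))))) (by decide +kernel)
noncomputable def p103_l116 : Lf2 := ⟨nat_lit 0, nat_lit 20, [nat_lit 5, nat_lit 5, nat_lit 5, nat_lit 20], true, nat_lit 8, nat_lit 80, nat_lit 0, nat_lit 396, ⟨nat_lit 0, nat_lit 0, nat_lit 1000, nat_lit 4, nat_lit 134, nat_lit 1000, nat_lit 43, nat_lit 1000, nat_lit 17067, nat_lit 247, nat_lit 170017, nat_lit 316, nat_lit 58823742, nat_lit 0, nat_lit 0, nat_lit 2194765, false, false⟩,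
 nat_lit 0, nat_lit 3041, nat_lit 0, nat_lit 0, nat_lit 2648, nat_lit 0, nat_lit 0, nat_lit 0, nat_lit 0, nat_lit 0, nat_lit 0, nat_lit 0, nat_lit 0, nat_lit 0, nat_lit 78, nat_lit 250000, nat_lit 0, nat_lit 0, [(nat_lit 25, [(nat_lit 0, nat_lit 77), (nat_lit 4, nat_lit 923)])],
 ⟨p103_k0, nat_lit 0, nat_lit 0, nat_lit 323, nat_lit 0, nat_lit 392078, [nat_lit 1174059520, nat_lit 144631808], [], [nat_lit 19880367498, nat_lit 21469497154, nat_lit 21225468673, nat_lit 22390381399, nat_lit 19767916141, nat_lit 21000619857, nat_lit 21125058912, nat_lit 22224229936], nat_lit 1271250, nat_lit 1271250, nat_lit 279600, nat_lit 1100001, nat_lit 43600, nat_lit 490000, [nat_lit 230000, nat_lit 1420000], [nat_lit 88, nat_lit 40, nat_lit 40, nat_lit 80, nat_lit 89, nat_lit 272, nat_lit 60, nat_lit 10]⟩, C1.Rw.none,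
 ⟨nat_lit 2236, nat_lit 3163, ⟨.ofNat (nat_lit 223799), .ofNat (nat_lit 394735), .ofNat (nat_lit 267982), .ofNat (nat_lit 438942), .ofNat (nat_lit 237524), .ofNat (nat_lit 397434), .ofNat (nat_lit 282946), .ofNat (nat_lit 442880)⟩, ⟨.ofNat (nat_lit 20000), .ofNat (nat_lit 184209), .ofNat (nat_lit 20000), .ofNat (nat_lit 200000), .ofNat (nat_lit 20000), .ofNat (nat_lit 192306), .ofNat (nat_lit 20000), .ofNat (nat_lit 200000)⟩⟩, [⟨nat_lit 3, nat_lit 100, nat_lit 61, nat_lit 55, nat_lit 202932756⟩]⟩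
noncomputable def p103_l117 : Lf2 := ⟨nat_lit 0, nat_lit 20, [nat_lit 5, nat_lit 5, nat_lit 5, nat_lit 20], true, nat_lit 8, nat_lit 80, nat_lit 0, nat_lit 384, ⟨nat_lit 0, nat_lit 193, nat_lit 807, nat_lit 4, nat_lit 191, nat_lit 1000, nat_lit 43, nat_lit 807, nat_lit 17067, nat_lit 247, nat_lit 2400, nat_lit 227, nat_lit 53288177, nat_lit 12450236, nat_lit 1261587, nat_lit 2946428, false, true⟩,
 nat_lit 0, nat_lit 3160, nat_lit 0, nat_lit 0, nat_lit 2752, nat_lit 0, nat_lit 0, nat_lit 0, nat_lit 0, nat_lit 0, nat_lit 0, nat_lit 0, nat_lit 0, nat_lit 0, nat_lit 55, nat_lit 250000, nat_lit 0, nat_lit 0, [(nat_lit 25, [(nat_lit 0, nat_lit 193), (nat_lit 4, nat_lit 807)])],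
 ⟨p103_k0, nat_lit 0, nat_lit 0, nat_lit 288, nat_lit 0, nat_lit 392078, [nat_lit 1069735681, nat_lit 114006272], [], [nat_lit 20746202519, nat_lit 21953154835, nat_lit 22888098830, nat_lit 23977588527, nat_lit 20535649031, nat_lit 21673404695, nat_lit 22595045063, nat_lit 23605227671], nat_lit 1271250, nat_lit 1271250, nat_lit 1100001, nat_lit 1785000, nat_lit 43600, nat_lit 490000, [nat_lit 230000, nat_lit 1420000], [nat_lit 88, nat_lit 40, nat_lit 40, nat_lit 80, nat_lit 89, nat_lit 317, nat_lit 100, nat_lit 12]⟩, C1.Rw.none,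
 ⟨nat_lit 2236, nat_lit 3163, ⟨.ofNat (nat_lit 394735), .ofNat (nat_lit 516642), .ofNat (nat_lit 438942), .ofNat (nat_lit 560952), .ofNat (nat_lit 397434), .ofNat (nat_lit 511466), .ofNat (nat_lit 442880), .ofNat (nat_lit 557014)⟩, ⟨.ofNat (nat_lit 20000), .ofNat (nat_lit 184209), .ofNat (nat_lit 20000), .ofNat (nat_lit 200000), .ofNat (nat_lit 20000), .ofNat (nat_lit 192306), .ofNat (nat_lit 20000), .ofNat (nat_lit 200000)⟩⟩, [⟨nat_lit 3, nat_lit 100, nat_lit 61, nat_lit 55, nat_lit 224095991⟩]⟩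
noncomputable def p103_l118 : Lf2 := ⟨nat_lit 0, nat_lit 20, [nat_lit 5, nat_lit 5, nat_lit 5, nat_lit 20], false, nat_lit 8, nat_lit 80, nat_lit 0, nat_lit 336, ⟨nat_lit 0, nat_lit 407, nat_lit 593, nat_lit 6, nat_lit 229, nat_lit 1000, nat_lit 43, nat_lit 593, nat_lit 17067, nat_lit 247, nat_lit 7758, nat_lit 201, nat_lit 49328318, nat_lit 16427455, nat_lit 1244227, nat_lit 3323730, false, true⟩,
 nat_lit 0, nat_lit 3175, nat_lit 0, nat_lit 952, nat_lit 2765, nat_lit 0, nat_lit 0, nat_lit 0, nat_lit 0, nat_lit 0, nat_lit 0, nat_lit 0, nat_lit 0, nat_lit 0, nat_lit 13, nat_lit 250000, nat_lit 0, nat_lit 0, [(nat_lit 25, [(nat_lit 0, nat_lit 407), (nat_lit 4, nat_lit 593)])],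
 ⟨p103_k0, nat_lit 0, nat_lit 0, nat_lit 239, nat_lit 0, nat_lit 276591, [nat_lit 879000321, nat_lit 66128128], [], [nat_lit 23374845296, nat_lit 24315697312, nat_lit 25422545153, nat_lit 26770868448, nat_lit 22953077540, nat_lit 23845289820, nat_lit 24907654738, nat_lit 25835830217], nat_lit 1271250, nat_lit 1271250, nat_lit 1271250, nat_lit 1271250, nat_lit 43600, nat_lit 490000, [nat_lit 230000, nat_lit 1420000], [nat_lit 88, nat_lit 40, nat_lit 40, nat_lit 80, nat_lit 89, nat_lit 226, nat_lit 20, nat_lit 7]⟩, ⟨p103_k8, nat_lit 0, nat_lit 0, nat_lit 875, nat_lit 0, nat_lit 1005602, [nat_lit 0, nat_lit 0], [], [nat_lit 0, nat_lit 0, nat_lit 0, nat_lit 0, nat_lit 0, nat_lit 0, nat_lit 0, nat_lit 0], nat_lit 1100001, nat_lit 1271250, nat_lit 1271250, nat_lit 1271250, nat_lit 0, nat_lit 2373000, [nat_lit 1695000, nat_lit 1271250], [nat_lit 159, nat_lit 40, nat_lit 40, nat_lit 80, nat_lit 111, nat_lit 456,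 nat_lit 225, nat_lit 10]⟩,
 ⟨nat_lit 2236, nat_lit 3163, ⟨.ofNat (nat_lit 516642), .ofNat (nat_lit 614167), .ofNat (nat_lit 538797), .ofNat (nat_lit 636322), .ofNat (nat_lit 511466), .ofNat (nat_lit 602690), .ofNat (nat_lit 534240), .ofNat (nat_lit 625465)⟩, ⟨.ofNat (nat_lit 20000), .ofNat (nat_lit 184209), .ofNat (nat_lit 20000), .ofNat (nat_lit 200000), .ofNat (nat_lit 20000), .ofNat (nat_lit 192306), .ofNat (nat_lit 20000), .ofNat (nat_lit 200000)⟩⟩, [⟨nat_lit 13, nat_lit 53, nat_lit 93, nat_lit 100, nat_lit 315613156⟩, ⟨nat_lit 3, nat_lit 100, nat_lit 61, nat_lit 55, nat_lit 251844795⟩]⟩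
noncomputable def p103_l119 : Lf2 := ⟨nat_lit 0, nat_lit 20, [nat_lit 5, nat_lit 5, nat_lit 5, nat_lit 20], false, nat_lit 8, nat_lit 80, nat_lit 0, nat_lit 336, ⟨nat_lit 124, nat_lit 84, nat_lit 792, nat_lit 6, nat_lit 244, nat_lit 876, nat_lit 43, nat_lit 792, nat_lit 17067, nat_lit 247, nat_lit 94468, nat_lit 200, nat_lit 47811480, nat_lit 17966174, nat_lit 1222346, nat_lit 3437376, true, true⟩,
 nat_lit 3724, nat_lit 0, nat_lit 0, nat_lit 0, nat_lit 2347, nat_lit 1416, nat_lit 0, nat_lit 0, nat_lit 0, nat_lit 114, nat_lit 0, nat_lit 0, nat_lit 0, nat_lit 0, nat_lit 27, nat_lit 219000, nat_lit 0, nat_lit 0, [(nat_lit 25, [(nat_lit 0, nat_lit 84), (nat_lit 4, nat_lit 792)])],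
 ⟨p103_k1, nat_lit 0, nat_lit 0, nat_lit 220, nat_lit 0, nat_lit 202665, [nat_lit 865064001, nat_lit 559348801, nat_lit 43508799], [], [nat_lit 22736604895, nat_lit 23200732995, nat_lit 25389581099, nat_lit 25875613064, nat_lit 22414449772, nat_lit 22855935339, nat_lit 24994931775, nat_lit 25461341432], nat_lit 1271250, nat_lit 1271250, nat_lit 1271250, nat_lit 1271250, nat_lit 43600, nat_lit 490000, [nat_lit 230000, nat_lit 780000, nat_lit 1435000], [nat_lit 20, nat_lit 40, nat_lit 40, nat_lit 80, nat_lit 16, nat_lit 226, nat_lit 20, nat_lit 7]⟩, ⟨p103_k9, nat_lit 0, nat_lit 0, nat_lit 691, nat_lit 0, nat_lit 608841, [nat_lit 988032000, nat_lit 1472128000, nat_lit 2033600000], [], [nat_lit 5330876082, nat_lit 5296088634, nat_lit 5518604154, nat_lit 5469549114, nat_lit 6269531540, nat_lit 5639739485, nat_lit 4328271026, nat_lit 4275848379], nat_lit 1271250, nat_lit 1271250, nat_lit 1271250, nat_lit 1271250,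 nat_lit 0, nat_lit 2373000, [nat_lit 1695000, nat_lit 1271250, nat_lit 1271250], [nat_lit 97, nat_lit 40, nat_lit 40, nat_lit 80, nat_lit 76, nat_lit 456, nat_lit 225, nat_lit 10]⟩,
 ⟨nat_lit 2738, nat_lit 3163, ⟨.ofNat (nat_lit 538797), .ofNat (nat_lit 660704), .ofNat (nat_lit 560952), .ofNat (nat_lit 682859), .ofNat (nat_lit 536642), .ofNat (nat_lit 654765), .ofNat (nat_lit 559060), .ofNat (nat_lit 677182)⟩, ⟨.ofNat (nat_lit 20000), .ofNat (nat_lit 184209), .ofNat (nat_lit 20000), .ofNat (nat_lit 200000), .ofNat (nat_lit 20000), .ofNat (nat_lit 188310), .ofNat (nat_lit 20000), .ofNat (nat_lit 200000)⟩⟩, [⟨nat_lit 13, nat_lit 53, nat_lit 90, nat_lit 100, nat_lit 63515465⟩, ⟨nat_lit 3, nat_lit 100, nat_lit 57, nat_lit 62, nat_lit 173689916⟩, ⟨nat_lit 22, nat_lit 95, nat_lit 100, nat_lit 65, nat_lit 9396966⟩]⟩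
noncomputable def p103_l120 : Lf2 := ⟨nat_lit 0, nat_lit 20, [nat_lit 5, nat_lit 5, nat_lit 5, nat_lit 20], false, nat_lit 12, nat_lit 80, nat_lit 0, nat_lit 336, ⟨nat_lit 96, nat_lit 365, nat_lit 539, nat_lit 6, nat_lit 238, nat_lit 904, nat_lit 45, nat_lit 538, nat_lit 19267, nat_lit 249, nat_lit 47678, nat_lit 200, nat_lit 48254900, nat_lit 17412807, nat_lit 1332293, nat_lit 3431819, true, true⟩,
 nat_lit 2966, nat_lit 0, nat_lit 0, nat_lit 0, nat_lit 2676, nat_lit 1127, nat_lit 0, nat_lit 0, nat_lit 0, nat_lit 92, nat_lit 0, nat_lit 0, nat_lit 0, nat_lit 0, nat_lit 0, nat_lit 226000, nat_lit 0, nat_lit 0, [(nat_lit 25, [(nat_lit 0, nat_lit 365), (nat_lit 4, nat_lit 539)])],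
 ⟨p103_k4, nat_lit 0, nat_lit 0, nat_lit 233, nat_lit 0, nat_lit 258040, [nat_lit 761300000, nat_lit 619637867, nat_lit 370530000], [], [nat_lit 23853670907, nat_lit 24366751058, nat_lit 26082840822, nat_lit 26656177067, nat_lit 23506368451, nat_lit 23993658171, nat_lit 25641314473, nat_lit 26074580158], nat_lit 1271250, nat_lit 1271250, nat_lit 1271250, nat_lit 1271250, nat_lit 65850, nat_lit 490000, [nat_lit 230000, nat_lit 780000, nat_lit 1435000], [nat_lit 20, nat_lit 40, nat_lit 40, nat_lit 80, nat_lit 16, nat_lit 226, nat_lit 20, nat_lit 7]⟩, ⟨p103_k9, nat_lit 0, nat_lit 0, nat_lit 798, nat_lit 0, nat_lit 809669, [nat_lit 764928000, nat_lit 1139712000, nat_lit 1574400000], [], [nat_lit 4068242822, nat_lit 4024858144, nat_lit 4172032096, nat_lit 4138936541, nat_lit 4862775949, nat_lit 4361521962, nat_lit 3266434183, nat_lit 3225796458], nat_lit 1271250, nat_lit 1271250, nat_lit 1271250, nat_lit 1271250,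 nat_lit 0, nat_lit 2373000, [nat_lit 1695000, nat_lit 1271250, nat_lit 1271250], [nat_lit 97, nat_lit 40, nat_lit 40, nat_lit 80, nat_lit 76, nat_lit 456, nat_lit 225, nat_lit 10]⟩,
 ⟨nat_lit 2236, nat_lit 2739, ⟨.ofNat (nat_lit 536642), .ofNat (nat_lit 637047), .ofNat (nat_lit 559060), .ofNat (nat_lit 659464), .ofNat (nat_lit 534240), .ofNat (nat_lit 631166), .ofNat (nat_lit 557014), .ofNat (nat_lit 653941)⟩, ⟨.ofNat (nat_lit 30000), .ofNat (nat_lit 188310), .ofNat (nat_lit 30000), .ofNat (nat_lit 200000), .ofNat (nat_lit 30000), .ofNat (nat_lit 192306), .ofNat (nat_lit 30000), .ofNat (nat_lit 200000)⟩⟩, [⟨nat_lit 13, nat_lit 48, nat_lit 90, nat_lit 100, nat_lit 56363267⟩, ⟨nat_lit 3, nat_lit 100, nat_lit 56, nat_lit 60, nat_lit 99850523⟩, ⟨nat_lit 3, nat_lit 100, nat_lit 48, nat_lit 71, nat_lit 130633987⟩, ⟨nat_lit 22, nat_lit 98, nat_lit 100, nat_lit 67, nat_lit 7101095⟩]⟩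
noncomputable def p103_l121 : Lf2 := ⟨nat_lit 0, nat_lit 20, [nat_lit 5, nat_lit 5, nat_lit 5, nat_lit 20], false, nat_lit 80, nat_lit 160, nat_lit 0, nat_lit 396, ⟨nat_lit 0, nat_lit 453, nat_lit 547, nat_lit 4, nat_lit 181, nat_lit 1000, nat_lit 104, nat_lit 547, nat_lit 101400, nat_lit 293, nat_lit 94468, nat_lit 200, nat_lit 50761972, nat_lit 11403445, nat_lit 4834583, nat_lit 3729398, false, true⟩,
 nat_lit 0, nat_lit 3275, nat_lit 0, nat_lit 897, nat_lit 2852, nat_lit 0, nat_lit 0, nat_lit 0, nat_lit 0, nat_lit 0, nat_lit 0, nat_lit 0, nat_lit 0, nat_lit 0, nat_lit 3, nat_lit 250000, nat_lit 0, nat_lit 0, [(nat_lit 25, [(nat_lit 0, nat_lit 453), (nat_lit 4, nat_lit 547)])],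
 ⟨p103_k0, nat_lit 0, nat_lit 0, nat_lit 201, nat_lit 0, nat_lit 203444, [nat_lit 834113281, nat_lit 36397312], [], [nat_lit 19637139103, nat_lit 20240179023, nat_lit 24845444802, nat_lit 25364529760, nat_lit 20565254393, nat_lit 21114010142, nat_lit 25440294724, nat_lit 25878200896], nat_lit 1271250, nat_lit 1271250, nat_lit 279600, nat_lit 2323000, nat_lit 490000, nat_lit 1100001, [nat_lit 230000, nat_lit 1420000], [nat_lit 88, nat_lit 40, nat_lit 40, nat_lit 80, nat_lit 89, nat_lit 345, nat_lit 125, nat_lit 13]⟩, ⟨p103_k8, nat_lit 0, nat_lit 0, nat_lit 870, nat_lit 0, nat_lit 739661, [nat_lit 0, nat_lit 0], [], [nat_lit 0, nat_lit 0, nat_lit 0, nat_lit 0, nat_lit 0, nat_lit 0, nat_lit 0, nat_lit 0], nat_lit 1100001, nat_lit 1442500, nat_lit 279600, nat_lit 2323000, nat_lit 0, nat_lit 2796750, [nat_lit 1695000, nat_lit 1271250], [nat_lit 159, nat_lit 40, nat_lit 40, nat_lit 80, nat_lit 111, nat_lit 483,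 nat_lit 250, nat_lit 11]⟩,
 ⟨nat_lit 2738, nat_lit 3163, ⟨.ofNat (nat_lit 224021), .ofNat (nat_lit 638549), .ofNat (nat_lit 268308), .ofNat (nat_lit 682859), .ofNat (nat_lit 230686), .ofNat (nat_lit 632348), .ofNat (nat_lit 275497), .ofNat (nat_lit 677182)⟩, ⟨.ofNat (nat_lit 184209), .ofNat (nat_lit 306116), .ofNat (nat_lit 200000), .ofNat (nat_lit 350426), .ofNat (nat_lit 188310), .ofNat (nat_lit 306433), .ofNat (nat_lit 200000), .ofNat (nat_lit 351268)⟩⟩, [⟨nat_lit 13, nat_lit 57, nat_lit 88, nat_lit 100, nat_lit 98845806⟩]⟩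
noncomputable def p103_l122 : Lf2 := ⟨nat_lit 0, nat_lit 20, [nat_lit 5, nat_lit 5, nat_lit 5, nat_lit 20], false, nat_lit 80, nat_lit 160, nat_lit 0, nat_lit 396, ⟨nat_lit 0, nat_lit 461, nat_lit 539, nat_lit 4, nat_lit 182, nat_lit 1000, nat_lit 105, nat_lit 539, nat_lit 104017, nat_lit 294, nat_lit 47678, nat_lit 200, nat_lit 50712782, nat_lit 11418995, nat_lit 4868223, nat_lit 3737967, false, true⟩,
 nat_lit 0, nat_lit 3235, nat_lit 0, nat_lit 0, nat_lit 2919, nat_lit 0, nat_lit 0, nat_lit 0, nat_lit 0, nat_lit 0, nat_lit 0, nat_lit 0, nat_lit 0, nat_lit 0, nat_lit 2, nat_lit 250000, nat_lit 0, nat_lit 0, [(nat_lit 25, [(nat_lit 0, nat_lit 461), (nat_lit 4, nat_lit 539)])],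
 ⟨p103_k23, nat_lit 0, nat_lit 0, nat_lit 213, nat_lit 0, nat_lit 264815, [nat_lit 829263361, nat_lit 46009344], [], [nat_lit 20168692165, nat_lit 20771403523, nat_lit 25007388635, nat_lit 25541765135, nat_lit 21023702169, nat_lit 21572007495, nat_lit 25610768167, nat_lit 26052275278], nat_lit 1271250, nat_lit 1271250, nat_lit 356250, nat_lit 2247250, nat_lit 490000, nat_lit 1100001, [nat_lit 230000, nat_lit 1420000], [nat_lit 88, nat_lit 40, nat_lit 40, nat_lit 80, nat_lit 89, nat_lit 345, nat_lit 125, nat_lit 13]⟩, ⟨p103_k8, nat_lit 0, nat_lit 0, nat_lit 999, nat_lit 0, nat_lit 1005602, [nat_lit 0, nat_lit 0], [], [nat_lit 0, nat_lit 0, nat_lit 0, nat_lit 0, nat_lit 0, nat_lit 0, nat_lit 0, nat_lit 0], nat_lit 1100001, nat_lit 1442500, nat_lit 356250, nat_lit 2247250, nat_lit 0, nat_lit 2796750, [nat_lit 1695000, nat_lit 1271250], [nat_lit 159, nat_lit 40, nat_lit 40, nat_lit 80, nat_lit 111, nat_lit 483,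 nat_lit 250, nat_lit 11]⟩,
 ⟨nat_lit 2236, nat_lit 2739, ⟨.ofNat (nat_lit 248369), .ofNat (nat_lit 614629), .ofNat (nat_lit 293163), .ofNat (nat_lit 659464), .ofNat (nat_lit 254815), .ofNat (nat_lit 608392), .ofNat (nat_lit 300323), .ofNat (nat_lit 653941)⟩, ⟨.ofNat (nat_lit 188310), .ofNat (nat_lit 306433), .ofNat (nat_lit 200000), .ofNat (nat_lit 351268), .ofNat (nat_lit 192306), .ofNat (nat_lit 306337), .ofNat (nat_lit 200000), .ofNat (nat_lit 351886)⟩⟩, [⟨nat_lit 13, nat_lit 49, nat_lit 92, nat_lit 100, nat_lit 133912362⟩]⟩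
noncomputable def p103_l123 : Lf2 := ⟨nat_lit 0, nat_lit 20, [nat_lit 5, nat_lit 5, nat_lit 5, nat_lit 20], true, nat_lit 160, nat_lit 248, nat_lit 0, nat_lit 396, ⟨nat_lit 0, nat_lit 0, nat_lit 1000, nat_lit 4, nat_lit 134, nat_lit 1000, nat_lit 157, nat_lit 1000, nat_lit 61189, nat_lit 275, nat_lit 170017, nat_lit 316, nat_lit 50751251, nat_lit 0, nat_lit 0, nat_lit 3850737, false, false⟩,
 nat_lit 0, nat_lit 3330, nat_lit 0, nat_lit 0, nat_lit 2900, nat_lit 0, nat_lit 0, nat_lit 0, nat_lit 0, nat_lit 0, nat_lit 0, nat_lit 0, nat_lit 0, nat_lit 0, nat_lit 66, nat_lit 250000, nat_lit 0, nat_lit 0, [(nat_lit 25, [(nat_lit 0, nat_lit 140), (nat_lit 4, nat_lit 860)])],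
 ⟨p103_k0, nat_lit 0, nat_lit 0, nat_lit 237, nat_lit 0, nat_lit 392078, [nat_lit 1119366400, nat_lit 137826560], [], [nat_lit 19386326160, nat_lit 20620829401, nat_lit 20486320960, nat_lit 21689292200, nat_lit 21953699408, nat_lit 23313831137, nat_lit 22975146001, nat_lit 24122884140], nat_lit 1271250, nat_lit 1271250, nat_lit 279600, nat_lit 1100001, nat_lit 1100001, nat_lit 1853500, [nat_lit 230000, nat_lit 1420000], [nat_lit 88, nat_lit 40, nat_lit 40, nat_lit 80, nat_lit 89, nat_lit 345, nat_lit 125, nat_lit 12]⟩, C1.Rw.none,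
 ⟨nat_lit 2236, nat_lit 3163, ⟨.ofNat (nat_lit 223799), .ofNat (nat_lit 394735), .ofNat (nat_lit 267982), .ofNat (nat_lit 438942), .ofNat (nat_lit 237524), .ofNat (nat_lit 397434), .ofNat (nat_lit 282946), .ofNat (nat_lit 442880)⟩, ⟨.ofNat (nat_lit 306116), .ofNat (nat_lit 440213), .ofNat (nat_lit 350426), .ofNat (nat_lit 484523), .ofNat (nat_lit 306337), .ofNat (nat_lit 431772), .ofNat (nat_lit 351886), .ofNat (nat_lit 477320)⟩⟩, [⟨nat_lit 0, nat_lit 100, nat_lit 44, nat_lit 90, nat_lit 11278611⟩, ⟨nat_lit 4, nat_lit 100, nat_lit 53, nat_lit 87, nat_lit 351112153⟩]⟩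
noncomputable def p103_l124 : Lf2 := ⟨nat_lit 0, nat_lit 20, [nat_lit 5, nat_lit 5, nat_lit 5, nat_lit 20], false, nat_lit 160, nat_lit 248, nat_lit 0, nat_lit 396, ⟨nat_lit 0, nat_lit 1000, nat_lit 0, nat_lit 4, nat_lit 215, nat_lit 1000, nat_lit 158, nat_lit 0, nat_lit 0, nat_lit 0, nat_lit 0, nat_lit 0, nat_lit 44212212, nat_lit 14124840, nat_lit 8662948, nat_lit 4656310, false, true⟩,
 nat_lit 0, nat_lit 4335, nat_lit 0, nat_lit 0, nat_lit 3775, nat_lit 0, nat_lit 0, nat_lit 0, nat_lit 0, nat_lit 0, nat_lit 0, nat_lit 0, nat_lit 0, nat_lit 0, nat_lit 0, nat_lit 291850, nat_lit 0, nat_lit 0, [(nat_lit 25, [(nat_lit 0, nat_lit 721), (nat_lit 1, nat_lit 279)])],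
 ⟨p103_k1, nat_lit 0, nat_lit 0, nat_lit 130, nat_lit 0, nat_lit 203444, [nat_lit 786543201, nat_lit 1266500000, nat_lit 1782418800], [], [nat_lit 21294688500, nat_lit 22014975975, nat_lit 26404018800, nat_lit 26937877850, nat_lit 23659105830, nat_lit 24279289506, nat_lit 27963732830, nat_lit 28428592383], nat_lit 1271250, nat_lit 1271250, nat_lit 1100001, nat_lit 2470000, nat_lit 1100001, nat_lit 1853500, [nat_lit 230000, nat_lit 780000, nat_lit 1435000], [nat_lit 20, nat_lit 40, nat_lit 40, nat_lit 80, nat_lit 16, nat_lit 373, nat_lit 150, nat_lit 13]⟩, ⟨p103_k2, nat_lit 0, nat_lit 0, nat_lit 814, nat_lit 0, nat_lit 739661, [nat_lit 0, nat_lit 0, nat_lit 0], [], [nat_lit 0, nat_lit 0, nat_lit 0, nat_lit 0, nat_lit 0, nat_lit 0, nat_lit 0, nat_lit 0], nat_lit 1100001, nat_lit 1442500, nat_lit 1271250, nat_lit 1271250, nat_lit 0, nat_lit 2796750, [nat_lit 1695000, nat_lit 1271250, nat_lit 1271250], [nat_lit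 97, nat_lit 40, nat_lit 40, nat_lit 80, nat_lit 76, nat_lit 483, nat_lit 250, nat_lit 10]⟩,
 ⟨nat_lit 2738, nat_lit 3163, ⟨.ofNat (nat_lit 394735), .ofNat (nat_lit 638549), .ofNat (nat_lit 439028), .ofNat (nat_lit 682859), .ofNat (nat_lit 396102), .ofNat (nat_lit 632348), .ofNat (nat_lit 440920), .ofNat (nat_lit 677182)⟩, ⟨.ofNat (nat_lit 306116), .ofNat (nat_lit 440213), .ofNat (nat_lit 350426), .ofNat (nat_lit 484523), .ofNat (nat_lit 306433), .ofNat (nat_lit 436368), .ofNat (nat_lit 351268), .ofNat (nat_lit 481203)⟩⟩, [⟨nat_lit 13, nat_lit 57, nat_lit 88, nat_lit 100, nat_lit 127364202⟩, ⟨nat_lit 13, nat_lit 60, nat_lit 80, nat_lit 100, nat_lit 40818373⟩, ⟨nat_lit 4, nat_lit 100, nat_lit 57, nat_lit 87, nat_lit 161730895⟩]⟩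
noncomputable def p103_l125 : Lf2 := ⟨nat_lit 0, nat_lit 20, [nat_lit 5, nat_lit 5, nat_lit 5, nat_lit 20], true, nat_lit 160, nat_lit 232, nat_lit 0, nat_lit 396, ⟨nat_lit 0, nat_lit 743, nat_lit 257, nat_lit 4, nat_lit 211, nat_lit 1000, nat_lit 152, nat_lit 257, nat_lit 156817, nat_lit 312, nat_lit 47678, nat_lit 200, nat_lit 44935092, nat_lit 13784115, nat_lit 8280793, nat_lit 4570214, false, true⟩,
 nat_lit 0, nat_lit 3249, nat_lit 0, nat_lit 0, nat_lit 2932, nat_lit 0, nat_lit 71, nat_lit 0, nat_lit 0, nat_lit 0, nat_lit 0, nat_lit 0, nat_lit 0, nat_lit 0, nat_lit 0, nat_lit 250000, nat_lit 0, nat_lit 0, [(nat_lit 25, [(nat_lit 0, nat_lit 743), (nat_lit 4, nat_lit 257)])],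
 ⟨p103_k4, nat_lit 0, nat_lit 0, nat_lit 197, nat_lit 0, nat_lit 374144, [nat_lit 754748001, nat_lit 924018667, nat_lit 1095654000], [], [nat_lit 21730574771, nat_lit 22235769367, nat_lit 25515331249, nat_lit 25936063117, nat_lit 23301507991, nat_lit 23781047228, nat_lit 26776649469, nat_lit 27314338735], nat_lit 1271250, nat_lit 1271250, nat_lit 1100001, nat_lit 2367250, nat_lit 1100001, nat_lit 1716500, [nat_lit 230000, nat_lit 780000, nat_lit 1435000], [nat_lit 20, nat_lit 40, nat_lit 40, nat_lit 80, nat_lit 16, nat_lit 373, nat_lit 150, nat_lit 13]⟩, C1.Rw.none,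
 ⟨nat_lit 2236, nat_lit 2739, ⟨.ofNat (nat_lit 396102), .ofNat (nat_lit 614629), .ofNat (nat_lit 440903), .ofNat (nat_lit 659464), .ofNat (nat_lit 397434), .ofNat (nat_lit 608392), .ofNat (nat_lit 442949), .ofNat (nat_lit 653941)⟩, ⟨.ofNat (nat_lit 306433), .ofNat (nat_lit 412743), .ofNat (nat_lit 351268), .ofNat (nat_lit 457578), .ofNat (nat_lit 306337), .ofNat (nat_lit 408965), .ofNat (nat_lit 351886), .ofNat (nat_lit 454514)⟩⟩, [⟨nat_lit 13, nat_lit 49, nat_lit 92, nat_lit 100, nat_lit 204268873⟩, ⟨nat_lit 16, nat_lit 48, nat_lit 100, nat_lit 87, nat_lit 234235278⟩]⟩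
noncomputable def p103_l126 : Lf2 := ⟨nat_lit 0, nat_lit 20, [nat_lit 5, nat_lit 5, nat_lit 5, nat_lit 20], false, nat_lit 20, nat_lit 80, nat_lit 0, nat_lit 396, ⟨nat_lit 0, nat_lit 532, nat_lit 468, nat_lit 4, nat_lit 181, nat_lit 1000, nat_lit 49, nat_lit 468, nat_lit 22817, nat_lit 252, nat_lit 4634, nat_lit 204, nat_lit 54034050, nat_lit 11400093, nat_lit 1565857, nat_lit 2924401, false, true⟩,
 nat_lit 0, nat_lit 2806, nat_lit 0, nat_lit 447, nat_lit 2622, nat_lit 0, nat_lit 0, nat_lit 0, nat_lit 0, nat_lit 0, nat_lit 0, nat_lit 0, nat_lit 0, nat_lit 0, nat_lit 12, nat_lit 250000, nat_lit 0, nat_lit 0, [(nat_lit 28, [(nat_lit 0, nat_lit 532), (nat_lit 4, nat_lit 468)])],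
 ⟨p103_k6, nat_lit 0, nat_lit 0, nat_lit 285, nat_lit 0, nat_lit 321723, [nat_lit 820240001, nat_lit 226267200, nat_lit 35852800], [], [nat_lit 20689282785, nat_lit 21571382764, nat_lit 25440165595, nat_lit 26118930720, nat_lit 20369897719, nat_lit 21020616073, nat_lit 25040388651, nat_lit 25586074521], nat_lit 1271250, nat_lit 1271250, nat_lit 462650, nat_lit 2110950, nat_lit 111251, nat_lit 490000, [nat_lit 230000, nat_lit 780000, nat_lit 1435000], [nat_lit 20, nat_lit 40, nat_lit 40, nat_lit 80, nat_lit 16, nat_lit 317, nat_lit 100, nat_lit 12]⟩, ⟨p103_k2, nat_lit 0, nat_lit 0, nat_lit 1094, nat_lit 0, nat_lit 1274655, [nat_lit 0, nat_lit 0, nat_lit 0], [], [nat_lit 0, nat_lit 0, nat_lit 0, nat_lit 0, nat_lit 0, nat_lit 0, nat_lit 0, nat_lit 0], nat_lit 1100001, nat_lit 1442500, nat_lit 462650, nat_lit 2110950, nat_lit 0, nat_lit 2796750, [nat_lit 1695000, nat_lit 1271250, nat_lit 1271250], [nat_lit 97,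 nat_lit 40, nat_lit 40, nat_lit 80, nat_lit 76, nat_lit 456, nat_lit 225, nat_lit 10]⟩,
 ⟨nat_lit 1581, nat_lit 2237, ⟨.ofNat (nat_lit 277529), .ofNat (nat_lit 579884), .ofNat (nat_lit 322986), .ofNat (nat_lit 625433), .ofNat (nat_lit 283825), .ofNat (nat_lit 573567), .ofNat (nat_lit 330363), .ofNat (nat_lit 620197)⟩, ⟨.ofNat (nat_lit 50000), .ofNat (nat_lit 192306), .ofNat (nat_lit 50000), .ofNat (nat_lit 200000), .ofNat (nat_lit 50000), .ofNat (nat_lit 196201), .ofNat (nat_lit 50000), .ofNat (nat_lit 200000)⟩⟩, [⟨nat_lit 13, nat_lit 44, nat_lit 90, nat_lit 100, nat_lit 164931895⟩, ⟨nat_lit 3, nat_lit 100, nat_lit 44, nat_lit 71, nat_lit 339590278⟩]⟩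
noncomputable def p103_l127 : Lf2 := ⟨nat_lit 0, nat_lit 20, [nat_lit 5, nat_lit 5, nat_lit 5, nat_lit 20], true, nat_lit 36, nat_lit 80, nat_lit 0, nat_lit 396, ⟨nat_lit 0, nat_lit 770, nat_lit 230, nat_lit 4, nat_lit 180, nat_lit 1000, nat_lit 58, nat_lit 230, nat_lit 30817, nat_lit 258, nat_lit 3437, nat_lit 217, nat_lit 53643037, nat_lit 11372696, nat_lit 1984267, nat_lit 3046657, false, true⟩,
 nat_lit 0, nat_lit 2625, nat_lit 0, nat_lit 0, nat_lit 2538, nat_lit 0, nat_lit 0, nat_lit 0, nat_lit 0, nat_lit 0, nat_lit 0, nat_lit 0, nat_lit 0, nat_lit 0, nat_lit 19, nat_lit 370150, nat_lit 0, nat_lit 0, [(nat_lit 28, [(nat_lit 0, nat_lit 199), (nat_lit 1, nat_lit 571), (nat_lit 5, nat_lit 230)])],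
 ⟨p103_k10, nat_lit 0, nat_lit 0, nat_lit 295, nat_lit 0, nat_lit 525817, [nat_lit 766396001, nat_lit 6437200], [], [nat_lit 21116316905, nat_lit 21849001313, nat_lit 24777572175, nat_lit 25345076915, nat_lit 21050877029, nat_lit 21659234960, nat_lit 24635975197, nat_lit 25168958701], nat_lit 1271250, nat_lit 1271250, nat_lit 631250, nat_lit 1943250, nat_lit 205650, nat_lit 490000, [nat_lit 230000, nat_lit 1100000], [nat_lit 86, nat_lit 40, nat_lit 40, nat_lit 80, nat_lit 87, nat_lit 317, nat_lit 100, nat_lit 14]⟩, C1.Rw.none,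
 ⟨nat_lit 0, nat_lit 1582, ⟨.ofNat (nat_lit 314816), .ofNat (nat_lit 540781), .ofNat (nat_lit 360133), .ofNat (nat_lit 587413), .ofNat (nat_lit 323036), .ofNat (nat_lit 529994), .ofNat (nat_lit 371722), .ofNat (nat_lit 579996)⟩, ⟨.ofNat (nat_lit 90000), .ofNat (nat_lit 196201), .ofNat (nat_lit 90000), .ofNat (nat_lit 200000), .ofNat (nat_lit 90000), .ofNat (nat_lit 199999), .ofNat (nat_lit 90000), .ofNat (nat_lit 200000)⟩⟩, [⟨nat_lit 13, nat_lit 22, nat_lit 100, nat_lit 100, nat_lit 284332169⟩, ⟨nat_lit 3, nat_lit 100, nat_lit 26, nat_lit 85, nat_lit 17026761⟩, ⟨nat_lit 3, nat_lit 100, nat_lit 39, nat_lit 72, nat_lit 296399208⟩]⟩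
noncomputable def p103_l128 : Lf2 := ⟨nat_lit 0, nat_lit 20, [nat_lit 5, nat_lit 5, nat_lit 5, nat_lit 20], false, nat_lit 80, nat_lit 208, nat_lit 0, nat_lit 396, ⟨nat_lit 0, nat_lit 530, nat_lit 470, nat_lit 4, nat_lit 180, nat_lit 1000, nat_lit 118, nat_lit 470, nat_lit 129067, nat_lit 303, nat_lit 4626, nat_lit 204, nat_lit 49994138, nat_lit 11199678, nat_lit 5806184, nat_lit 3890996, false, true⟩,
 nat_lit 0, nat_lit 2926, nat_lit 0, nat_lit 0, nat_lit 2733, nat_lit 0, nat_lit 0, nat_lit 0, nat_lit 0, nat_lit 0, nat_lit 0, nat_lit 0, nat_lit 0, nat_lit 0, nat_lit 23, nat_lit 270700, nat_lit 0, nat_lit 0, [(nat_lit 28, [(nat_lit 0, nat_lit 530), (nat_lit 4, nat_lit 332), (nat_lit 5, nat_lit 138)])],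
 ⟨p103_k5, nat_lit 0, nat_lit 0, nat_lit 271, nat_lit 0, nat_lit 390324, [nat_lit 841016001, nat_lit 50475200], [], [nat_lit 20143573080, nat_lit 21433087193, nat_lit 24682077101, nat_lit 25690649993, nat_lit 22386340832, nat_lit 23477699382, nat_lit 26230791824, nat_lit 27108783039], nat_lit 1271250, nat_lit 1271250, nat_lit 462650, nat_lit 2110950, nat_lit 490000, nat_lit 1490000, [nat_lit 230000, nat_lit 1420000], [nat_lit 88, nat_lit 40, nat_lit 40, nat_lit 80, nat_lit 89, nat_lit 345, nat_lit 125, nat_lit 13]⟩, ⟨p103_k8, nat_lit 0, nat_lit 0, nat_lit 1220, nat_lit 0, nat_lit 1546452, [nat_lit 0, nat_lit 0], [], [nat_lit 0, nat_lit 0, nat_lit 0, nat_lit 0, nat_lit 0, nat_lit 0, nat_lit 0, nat_lit 0], nat_lit 1100001, nat_lit 1442500, nat_lit 462650, nat_lit 2110950, nat_lit 0, nat_lit 2796750, [nat_lit 1695000, nat_lit 1271250], [nat_lit 159, nat_lit 40, nat_lit 40, nat_lit 80, nat_lit 111, nat_lit 456,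 nat_lit 225, nat_lit 10]⟩,
 ⟨nat_lit 0, nat_lit 2237, ⟨.ofNat (nat_lit 273845), .ofNat (nat_lit 579878), .ofNat (nat_lit 317541), .ofNat (nat_lit 625429), .ofNat (nat_lit 291142), .ofNat (nat_lit 559993), .ofNat (nat_lit 339289), .ofNat (nat_lit 609995)⟩, ⟨.ofNat (nat_lit 192306), .ofNat (nat_lit 374750), .ofNat (nat_lit 200000), .ofNat (nat_lit 420300), .ofNat (nat_lit 199999), .ofNat (nat_lit 359993), .ofNat (nat_lit 200000), .ofNat (nat_lit 409994)⟩⟩, [⟨nat_lit 13, nat_lit 31, nat_lit 98, nat_lit 100, nat_lit 192809150⟩, ⟨nat_lit 4, nat_lit 100, nat_lit 32, nat_lit 88, nat_lit 97000118⟩]⟩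
noncomputable def b_V_900_400_20_6 : St := ⟨true, nat_lit 1, nat_lit 1, nat_lit 1, nat_lit 120, nat_lit 360, nat_lit 400, nat_lit 160, nat_lit 200, nat_lit 48, nat_lit 320, nat_lit 80, nat_lit 120, nat_lit 8, nat_lit 248, nat_lit 0, nat_lit 396, nat_lit 40, nat_lit 80, nat_lit 0, nat_lit 0, nat_lit 0, nat_lit 0⟩
theorem d_V_900_400_20_6 (h : EB TB.env) : Dead b_V_900_400_20_6 := chkB_sound0 h (T :=
(.spl (nat_lit 0) (nat_lit 380)
(.spl (nat_lit 4) (nat_lit 160)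
(.spl (nat_lit 4) (nat_lit 80)
(.spl (nat_lit 2) (nat_lit 160)
(.leaf p103_l116)
(.trX (nat_lit 22) (nat_lit 100) (nat_lit 44) (nat_lit 82) (nat_lit 384) (.spl (nat_lit 2) (nat_lit 240)
(.leaf p103_l117)
(.trX (nat_lit 22) (nat_lit 100) (nat_lit 76) (nat_lit 82) (nat_lit 336) (.spl (nat_lit 1) (nat_lit 180)
(.trX (nat_lit 13) (nat_lit 60) (nat_lit 86) (nat_lit 100) (nat_lit 304) (.leaf p103_l118))
(.spl (nat_lit 0) (nat_lit 370)
(.leaf p103_l119)
(.trX (nat_lit 13) (nat_lit 53) (nat_lit 85) (nat_lit 100) (nat_lit 308) (.trZ (nat_lit 3) (nat_lit 100) (nat_lit 66) (nat_lit 45) (nat_lit 12) (.leaf p103_l120)))))))))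
(.spl (nat_lit 0) (nat_lit 370)
(.leaf p103_l121)
(.trZ (nat_lit 0) (nat_lit 100) (nat_lit 54) (nat_lit 74) (nat_lit 60) (.trX (nat_lit 13) (nat_lit 53) (nat_lit 85) (nat_lit 100) (nat_lit 308) (.leaf p103_l122)))))
(.spl (nat_lit 2) (nat_lit 160)
(.leaf p103_l123)
(.spl (nat_lit 0) (nat_lit 370)
(.leaf p103_l124)
(.trX (nat_lit 13) (nat_lit 53) (nat_lit 85) (nat_lit 100) (nat_lit 308) (.trX (nat_lit 16) (nat_lit 53) (nat_lit 100) (nat_lit 93) (nat_lit 232) (.leaf p103_l125))))))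
(.trZ (nat_lit 0) (nat_lit 100) (nat_lit 44) (nat_lit 81) (nat_lit 76) (.trX (nat_lit 13) (nat_lit 44) (nat_lit 90) (nat_lit 100) (nat_lit 288) (.trZ (nat_lit 3) (nat_lit 100) (nat_lit 54) (nat_lit 57) (nat_lit 20) (.trX (nat_lit 16) (nat_lit 44) (nat_lit 100) (nat_lit 92) (nat_lit 208) (.spl (nat_lit 4) (nat_lit 80)
(.spl (nat_lit 0) (nat_lit 390)
(.leaf p103_l126)
(.trZ (nat_lit 0) (nat_lit 100) (nat_lit 32) (nat_lit 89) (nat_lit 100) (.trX (nat_lit 13) (nat_lit 31) (nat_lit 95) (nat_lit 100) (nat_lit 264) (.trZ (nat_lit 3) (nat_lit 100) (nat_lit 39) (nat_lit 72) (nat_lit 36) (.leaf p103_l127)))))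
(.leaf p103_l128)))))))) (by decide +kernel)
noncomputable def p103_l129 : Lf2 := ⟨nat_lit 0, nat_lit 30, [nat_lit 15, nat_lit 5, nat_lit 5, nat_lit 20], true, nat_lit 8, nat_lit 248, nat_lit 0, nat_lit 396, ⟨nat_lit 0, nat_lit 0, nat_lit 1000, nat_lit 4, nat_lit 135, nat_lit 1000, nat_lit 94, nat_lit 1000, nat_lit 58017, nat_lit 274, nat_lit 173400, nat_lit 317, nat_lit 55653209, nat_lit 0, nat_lit 0, nat_lit 3001638, false, false⟩,
 nat_lit 0, nat_lit 0, nat_lit 0, nat_lit 3632, nat_lit 2660, nat_lit 0, nat_lit 0, nat_lit 0, nat_lit 0, nat_lit 0, nat_lit 0, nat_lit 0, nat_lit 0, nat_lit 0, nat_lit 108, nat_lit 250000, nat_lit 0, nat_lit 0, [(nat_lit 26, [(nat_lit 4, nat_lit 1000)]), (nat_lit 29, [(nat_lit 4, nat_lit 1000)])],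
 ⟨p103_k24, nat_lit 0, nat_lit 0, nat_lit 295, nat_lit 0, nat_lit 0, [nat_lit 1193600000, nat_lit 686800000], [], [nat_lit 20782657533, nat_lit 23489209738, nat_lit 21285302160, nat_lit 23218959473, nat_lit 22695833839, nat_lit 24566754791, nat_lit 23373283361, nat_lit 25045993721], nat_lit 0, nat_lit 0, nat_lit 0, nat_lit 0, nat_lit 0, nat_lit 0, [], [nat_lit 132, nat_lit 40, nat_lit 40, nat_lit 80, nat_lit 133, nat_lit 345, nat_lit 125, nat_lit 10]⟩, C1.Rw.none,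
 ⟨nat_lit 0, nat_lit 3163, ⟨.ofNat (nat_lit 216927), .ofNat (nat_lit 394735), .ofNat (nat_lit 258627), .ofNat (nat_lit 436481), .ofNat (nat_lit 252860), .ofNat (nat_lit 399999), .ofNat (nat_lit 300250), .ofNat (nat_lit 447434)⟩, ⟨.ofNat (nat_lit 20000), .ofNat (nat_lit 440207), .ofNat (nat_lit 20000), .ofNat (nat_lit 484518), .ofNat (nat_lit 20000), .ofNat (nat_lit 409993), .ofNat (nat_lit 20000), .ofNat (nat_lit 459993)⟩⟩, [⟨nat_lit 0, nat_lit 100, nat_lit 44, nat_lit 86, nat_lit 87639286⟩, ⟨nat_lit 3, nat_lit 100, nat_lit 50, nat_lit 65, nat_lit 9877870⟩]⟩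
noncomputable def p103_l130 : Lf2 := ⟨nat_lit 0, nat_lit 30, [nat_lit 15, nat_lit 5, nat_lit 5, nat_lit 20], true, nat_lit 8, nat_lit 160, nat_lit 0, nat_lit 396, ⟨nat_lit 0, nat_lit 0, nat_lit 1000, nat_lit 4, nat_lit 191, nat_lit 1000, nat_lit 70, nat_lit 1000, nat_lit 45067, nat_lit 267, nat_lit 2400, nat_lit 227, nat_lit 51948466, nat_lit 0, nat_lit 0, nat_lit 3343768, false, true⟩,
 nat_lit 0, nat_lit 0, nat_lit 0, nat_lit 7850, nat_lit 2511, nat_lit 0, nat_lit 0, nat_lit 0, nat_lit 0, nat_lit 0, nat_lit 0, nat_lit 0, nat_lit 0, nat_lit 0, nat_lit 113, nat_lit 261550, nat_lit 0, nat_lit 0, [(nat_lit 26, [(nat_lit 4, nat_lit 923), (nat_lit 5, nat_lit 77)])],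
 ⟨p103_k24, nat_lit 0, nat_lit 0, nat_lit 209, nat_lit 0, nat_lit 0, [nat_lit 1196940000, nat_lit 673108000], [], [nat_lit 20802551504, nat_lit 21706865641, nat_lit 22471318863, nat_lit 23465227193, nat_lit 20950462192, nat_lit 21922591340, nat_lit 22656106232, nat_lit 23525185414], nat_lit 0, nat_lit 0, nat_lit 0, nat_lit 0, nat_lit 0, nat_lit 0, [], [nat_lit 132, nat_lit 40, nat_lit 40, nat_lit 80, nat_lit 133, nat_lit 317, nat_lit 100, nat_lit 9]⟩, C1.Rw.none,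
 ⟨nat_lit 2236, nat_lit 3163, ⟨.ofNat (nat_lit 394735), .ofNat (nat_lit 516642), .ofNat (nat_lit 438942), .ofNat (nat_lit 560952), .ofNat (nat_lit 397434), .ofNat (nat_lit 511466), .ofNat (nat_lit 442880), .ofNat (nat_lit 557014)⟩, ⟨.ofNat (nat_lit 20000), .ofNat (nat_lit 306116), .ofNat (nat_lit 20000), .ofNat (nat_lit 350426), .ofNat (nat_lit 20000), .ofNat (nat_lit 306337), .ofNat (nat_lit 20000), .ofNat (nat_lit 351886)⟩⟩, [⟨nat_lit 3, nat_lit 100, nat_lit 48, nat_lit 71, nat_lit 121512313⟩]⟩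
noncomputable def p103_l131 : Lf2 := ⟨nat_lit 0, nat_lit 30, [nat_lit 15, nat_lit 5, nat_lit 5, nat_lit 20], true, nat_lit 20, nat_lit 160, nat_lit 0, nat_lit 396, ⟨nat_lit 0, nat_lit 192, nat_lit 808, nat_lit 4, nat_lit 190, nat_lit 1000, nat_lit 75, nat_lit 808, nat_lit 54150, nat_lit 272, nat_lit 4310, nat_lit 229, nat_lit 51705159, nat_lit 12336050, nat_lit 2958791, nat_lit 3418113, false, true⟩,
 nat_lit 0, nat_lit 0, nat_lit 0, nat_lit 2423, nat_lit 2217, nat_lit 0, nat_lit 0, nat_lit 0, nat_lit 0, nat_lit 0, nat_lit 0, nat_lit 0, nat_lit 0, nat_lit 0, nat_lit 95, nat_lit 250000, nat_lit 0, nat_lit 0, [(nat_lit 29, [(nat_lit 0, nat_lit 192), (nat_lit 4, nat_lit 808)])],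
 ⟨p103_k25, nat_lit 0, nat_lit 0, nat_lit 175, nat_lit 0, nat_lit 0, [nat_lit 1145440000, nat_lit 197222400], [], [nat_lit 20940177715, nat_lit 22075315914, nat_lit 22862436322, nat_lit 24055298240, nat_lit 21653334244, nat_lit 22647238404, nat_lit 23446592190, nat_lit 24571106376], nat_lit 0, nat_lit 0, nat_lit 0, nat_lit 0, nat_lit 0, nat_lit 0, [], [nat_lit 141, nat_lit 40, nat_lit 40, nat_lit 80, nat_lit 142, nat_lit 317, nat_lit 100, nat_lit 10]⟩, C1.Rw.none,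
 ⟨nat_lit 0, nat_lit 2237, ⟨.ofNat (nat_lit 397434), .ofNat (nat_lit 511462), .ofNat (nat_lit 441142), .ofNat (nat_lit 557013), .ofNat (nat_lit 399999), .ofNat (nat_lit 499995), .ofNat (nat_lit 448157), .ofNat (nat_lit 549998)⟩, ⟨.ofNat (nat_lit 50000), .ofNat (nat_lit 306334), .ofNat (nat_lit 50000), .ofNat (nat_lit 351885), .ofNat (nat_lit 50000), .ofNat (nat_lit 299996), .ofNat (nat_lit 50000), .ofNat (nat_lit 349998)⟩⟩, [⟨nat_lit 13, nat_lit 31, nat_lit 98, nat_lit 100, nat_lit 5122935⟩, ⟨nat_lit 3, nat_lit 100, nat_lit 36, nat_lit 77, nat_lit 198514539⟩]⟩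
noncomputable def p103_l132 : Lf2 := ⟨nat_lit 0, nat_lit 30, [nat_lit 15, nat_lit 5, nat_lit 5, nat_lit 20], false, nat_lit 8, nat_lit 80, nat_lit 0, nat_lit 160, ⟨nat_lit 557, nat_lit 0, nat_lit 443, nat_lit 6, nat_lit 235, nat_lit 443, nat_lit 43, nat_lit 443, nat_lit 17067, nat_lit 247, nat_lit 94460, nat_lit 200, nat_lit 48689004, nat_lit 0, nat_lit 0, nat_lit 3378648, false, true⟩,
 nat_lit 0, nat_lit 0, nat_lit 0, nat_lit 7283, nat_lit 3581, nat_lit 5161, nat_lit 283, nat_lit 0, nat_lit 0, nat_lit 253, nat_lit 0, nat_lit 0, nat_lit 0, nat_lit 0, nat_lit 0, nat_lit 152450, nat_lit 0, nat_lit 0, [(nat_lit 26, [(nat_lit 4, nat_lit 165), (nat_lit 5, nat_lit 278)]), (nat_lit 29, [(nat_lit 4, nat_lit 165), (nat_lit 5, nat_lit 278)])],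
 ⟨p103_k26, nat_lit 0, nat_lit 0, nat_lit 204, nat_lit 0, nat_lit 0, [nat_lit 941784000, nat_lit 1956955200, nat_lit 3891726400], [], [nat_lit 25403802178, nat_lit 27517916520, nat_lit 28091155721, nat_lit 31015983293, nat_lit 24024233036, nat_lit 26036541728, nat_lit 26476801424, nat_lit 28525602796], nat_lit 0, nat_lit 0, nat_lit 0, nat_lit 0, nat_lit 0, nat_lit 0, [], [nat_lit 81, nat_lit 40, nat_lit 40, nat_lit 80, nat_lit 13, nat_lit 317, nat_lit 100, nat_lit 8]⟩, ⟨p103_k27, nat_lit 0, nat_lit 0, nat_lit 411, nat_lit 0, nat_lit 0, [nat_lit 4438176000, nat_lit 7830306000, nat_lit 9134800000], [], [nat_lit 23168950038, nat_lit 23197483636, nat_lit 25581873978, nat_lit 25518162622, nat_lit 19073771908, nat_lit 19192555228, nat_lit 20861216548, nat_lit 20815818560], nat_lit 0, nat_lit 0, nat_lit 0, nat_lit 0, nat_lit 0, nat_lit 0, [], [nat_lit 202, nat_lit 40, nat_lit 40, nat_lit 80, nat_lit 204, nat_lit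 401, nat_lit 175, nat_lit 9]⟩,
 ⟨nat_lit 0, nat_lit 3163, ⟨.ofNat (nat_lit 516640), .ofNat (nat_lit 638543), .ofNat (nat_lit 560951), .ofNat (nat_lit 682855), .ofNat (nat_lit 499997), .ofNat (nat_lit 599993), .ofNat (nat_lit 549998), .ofNat (nat_lit 649995)⟩, ⟨.ofNat (nat_lit 20000), .ofNat (nat_lit 184209), .ofNat (nat_lit 20000), .ofNat (nat_lit 200000), .ofNat (nat_lit 20000), .ofNat (nat_lit 199999), .ofNat (nat_lit 20000), .ofNat (nat_lit 200000)⟩⟩, [⟨nat_lit 13, nat_lit 44, nat_lit 94, nat_lit 100, nat_lit 320868553⟩, ⟨nat_lit 3, nat_lit 100, nat_lit 50, nat_lit 65, nat_lit 171059924⟩]⟩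
noncomputable def p103_l133 : Lf2 := ⟨nat_lit 0, nat_lit 30, [nat_lit 15, nat_lit 5, nat_lit 5, nat_lit 20], false, nat_lit 8, nat_lit 80, nat_lit 160, nat_lit 336, ⟨nat_lit 1000, nat_lit 0, nat_lit 0, nat_lit 0, nat_lit 0, nat_lit 0, nat_lit 0, nat_lit 0, nat_lit 0, nat_lit 0, nat_lit 0, nat_lit 0, nat_lit 0, nat_lit 0, nat_lit 0, nat_lit 0, false, false⟩,
 nat_lit 0, nat_lit 0, nat_lit 0, nat_lit 9278, nat_lit 6277, nat_lit 11764, nat_lit 477, nat_lit 0, nat_lit 0, nat_lit 0, nat_lit 0, nat_lit 0, nat_lit 0, nat_lit 0, nat_lit 0, nat_lit 0, nat_lit 0, nat_lit 0, [],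
 ⟨p103_k26, nat_lit 0, nat_lit 0, nat_lit 204, nat_lit 0, nat_lit 0, [nat_lit 938000000, nat_lit 4688000000, nat_lit 9842000000], [], [nat_lit 29642095966, nat_lit 33975971041, nat_lit 34256305974, nat_lit 38272353565, nat_lit 26272460836, nat_lit 28983440692, nat_lit 29355182036, nat_lit 33204553932], nat_lit 0, nat_lit 0, nat_lit 0, nat_lit 0, nat_lit 0, nat_lit 0, [], [nat_lit 81, nat_lit 40, nat_lit 40, nat_lit 80, nat_lit 13, nat_lit 317, nat_lit 100, nat_lit 8]⟩, ⟨p103_k27, nat_lit 0, nat_lit 0, nat_lit 134, nat_lit 0, nat_lit 0, [nat_lit 7968000000, nat_lit 14058000000, nat_lit 16400000000], [], [nat_lit 10273120736, nat_lit 11921558320, nat_lit 18878004352, nat_lit 19767205584, nat_lit 23249248349, nat_lit 24129393796, nat_lit 30561718253, nat_lit 30794243696], nat_lit 0, nat_lit 0, nat_lit 0, nat_lit 0, nat_lit 0, nat_lit 0, [], [nat_lit 202, nat_lit 40, nat_lit 40, nat_lit 80, nat_lit 204, nat_lit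 456, nat_lit 225, nat_lit 9]⟩,
 zbF0, [⟨nat_lit 13, nat_lit 44, nat_lit 94, nat_lit 100, nat_lit 640750902⟩, ⟨nat_lit 22, nat_lit 100, nat_lit 76, nat_lit 82, nat_lit 701514550⟩]⟩
noncomputable def p103_l134 : Lf2 := ⟨nat_lit 0, nat_lit 30, [nat_lit 15, nat_lit 5, nat_lit 5, nat_lit 20], true, nat_lit 80, nat_lit 160, nat_lit 0, nat_lit 384, ⟨nat_lit 0, nat_lit 88, nat_lit 912, nat_lit 6, nat_lit 238, nat_lit 1000, nat_lit 105, nat_lit 912, nat_lit 101400, nat_lit 293, nat_lit 94468, nat_lit 200, nat_lit 45430837, nat_lit 16912281, nat_lit 4656882, nat_lit 4226039, false, true⟩,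
 nat_lit 0, nat_lit 0, nat_lit 0, nat_lit 7473, nat_lit 2594, nat_lit 0, nat_lit 0, nat_lit 0, nat_lit 0, nat_lit 0, nat_lit 0, nat_lit 0, nat_lit 0, nat_lit 0, nat_lit 89, nat_lit 250000, nat_lit 0, nat_lit 0, [(nat_lit 26, [(nat_lit 0, nat_lit 88), (nat_lit 4, nat_lit 912)])],
 ⟨p103_k24, nat_lit 0, nat_lit 0, nat_lit 146, nat_lit 0, nat_lit 0, [nat_lit 1087308800, nat_lit 602297600], [], [nat_lit 22189671248, nat_lit 23168781328, nat_lit 24734799056, nat_lit 25598501648, nat_lit 22873337072, nat_lit 23771583392, nat_lit 25220013488, nat_lit 26031869836], nat_lit 0, nat_lit 0, nat_lit 0, nat_lit 0, nat_lit 0, nat_lit 0, [], [nat_lit 132, nat_lit 40, nat_lit 40, nat_lit 80, nat_lit 133, nat_lit 345, nat_lit 125, nat_lit 9]⟩, C1.Rw.none,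
 ⟨nat_lit 2236, nat_lit 3163, ⟨.ofNat (nat_lit 516642), .ofNat (nat_lit 638549), .ofNat (nat_lit 560952), .ofNat (nat_lit 682859), .ofNat (nat_lit 511466), .ofNat (nat_lit 625497), .ofNat (nat_lit 557014), .ofNat (nat_lit 671045)⟩, ⟨.ofNat (nat_lit 184209), .ofNat (nat_lit 306116), .ofNat (nat_lit 200000), .ofNat (nat_lit 350426), .ofNat (nat_lit 192306), .ofNat (nat_lit 306337), .ofNat (nat_lit 200000), .ofNat (nat_lit 351886)⟩⟩, [⟨nat_lit 13, nat_lit 53, nat_lit 90, nat_lit 100, nat_lit 367120870⟩]⟩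
noncomputable def p103_l135 : Lf2 := ⟨nat_lit 0, nat_lit 30, [nat_lit 15, nat_lit 5, nat_lit 5, nat_lit 20], true, nat_lit 80, nat_lit 160, nat_lit 0, nat_lit 384, ⟨nat_lit 0, nat_lit 293, nat_lit 707, nat_lit 6, nat_lit 225, nat_lit 1000, nat_lit 105, nat_lit 707, nat_lit 104017, nat_lit 294, nat_lit 4626, nat_lit 204, nat_lit 46672744, nat_lit 15580497, nat_lit 4746759, nat_lit 4135228, false, true⟩,
 nat_lit 0, nat_lit 0, nat_lit 0, nat_lit 6396, nat_lit 2467, nat_lit 0, nat_lit 0, nat_lit 0, nat_lit 0, nat_lit 0, nat_lit 0, nat_lit 0, nat_lit 0, nat_lit 0, nat_lit 72, nat_lit 250000, nat_lit 0, nat_lit 0, [(nat_lit 29, [(nat_lit 0, nat_lit 293), (nat_lit 4, nat_lit 707)])],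
 ⟨p103_k25, nat_lit 0, nat_lit 0, nat_lit 127, nat_lit 0, nat_lit 0, [nat_lit 1055460000, nat_lit 158019600], [], [nat_lit 22465344292, nat_lit 23495256052, nat_lit 23989188391, nat_lit 25266767928, nat_lit 23205508222, nat_lit 24149043440, nat_lit 24657464734, nat_lit 25756813920], nat_lit 0, nat_lit 0, nat_lit 0, nat_lit 0, nat_lit 0, nat_lit 0, [], [nat_lit 141, nat_lit 40, nat_lit 40, nat_lit 80, nat_lit 142, nat_lit 249, nat_lit 40, nat_lit 7]⟩, C1.Rw.none,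
 ⟨nat_lit 0, nat_lit 2237, ⟨.ofNat (nat_lit 511462), .ofNat (nat_lit 579878), .ofNat (nat_lit 557013), .ofNat (nat_lit 625429), .ofNat (nat_lit 499995), .ofNat (nat_lit 559993), .ofNat (nat_lit 549998), .ofNat (nat_lit 609995)⟩, ⟨.ofNat (nat_lit 192306), .ofNat (nat_lit 306334), .ofNat (nat_lit 200000), .ofNat (nat_lit 351885), .ofNat (nat_lit 199999), .ofNat (nat_lit 299996), .ofNat (nat_lit 200000), .ofNat (nat_lit 349998)⟩⟩, [⟨nat_lit 13, nat_lit 31, nat_lit 98, nat_lit 100, nat_lit 351222167⟩, ⟨nat_lit 13, nat_lit 44, nat_lit 90, nat_lit 100, nat_lit 174434521⟩]⟩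
noncomputable def p103_l136 : Lf2 := ⟨nat_lit 0, nat_lit 30, [nat_lit 15, nat_lit 5, nat_lit 5, nat_lit 20], true, nat_lit 160, nat_lit 248, nat_lit 0, nat_lit 396, ⟨nat_lit 0, nat_lit 1000, nat_lit 0, nat_lit 4, nat_lit 215, nat_lit 1000, nat_lit 157, nat_lit 0, nat_lit 0, nat_lit 0, nat_lit 0, nat_lit 0, nat_lit 44279105, nat_lit 14084975, nat_lit 8635920, nat_lit 4648855, false, true⟩,
 nat_lit 0, nat_lit 0, nat_lit 0, nat_lit 7653, nat_lit 2874, nat_lit 0, nat_lit 0, nat_lit 0, nat_lit 0, nat_lit 0, nat_lit 0, nat_lit 0, nat_lit 0, nat_lit 0, nat_lit 0, nat_lit 250000, nat_lit 0, nat_lit 0, [(nat_lit 26, [(nat_lit 0, nat_lit 1000)])],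
 ⟨p103_k28, nat_lit 0, nat_lit 0, nat_lit 59, nat_lit 0, nat_lit 0, [nat_lit 765600000, nat_lit 1432000001, nat_lit 2936000000], [], [nat_lit 19940945993, nat_lit 21307800725, nat_lit 25338509809, nat_lit 26397366513, nat_lit 22507843060, nat_lit 23720297898, nat_lit 27179929577, nat_lit 28108204198], nat_lit 0, nat_lit 0, nat_lit 0, nat_lit 0, nat_lit 0, nat_lit 0, [], [nat_lit 93, nat_lit 40, nat_lit 40, nat_lit 80, nat_lit 63, nat_lit 373, nat_lit 150, nat_lit 10]⟩, C1.Rw.none,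
 ⟨nat_lit 2236, nat_lit 3163, ⟨.ofNat (nat_lit 394735), .ofNat (nat_lit 638549), .ofNat (nat_lit 438942), .ofNat (nat_lit 682859), .ofNat (nat_lit 397434), .ofNat (nat_lit 625497), .ofNat (nat_lit 442880), .ofNat (nat_lit 671045)⟩, ⟨.ofNat (nat_lit 306116), .ofNat (nat_lit 440213), .ofNat (nat_lit 350426), .ofNat (nat_lit 484523), .ofNat (nat_lit 306337), .ofNat (nat_lit 431772), .ofNat (nat_lit 351886), .ofNat (nat_lit 477320)⟩⟩, [⟨nat_lit 13, nat_lit 53, nat_lit 90, nat_lit 100, nat_lit 213535622⟩, ⟨nat_lit 4, nat_lit 100, nat_lit 53, nat_lit 87, nat_lit 238364627⟩]⟩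
noncomputable def p103_l137 : Lf2 := ⟨nat_lit 0, nat_lit 30, [nat_lit 15, nat_lit 5, nat_lit 5, nat_lit 20], true, nat_lit 160, nat_lit 208, nat_lit 0, nat_lit 396, ⟨nat_lit 0, nat_lit 308, nat_lit 692, nat_lit 4, nat_lit 203, nat_lit 1000, nat_lit 144, nat_lit 692, nat_lit 194400, nat_lit 323, nat_lit 4626, nat_lit 204, nat_lit 46174622, nat_lit 13176104, nat_lit 7649274, nat_lit 4416691, false, true⟩,
 nat_lit 0, nat_lit 0, nat_lit 0, nat_lit 7653, nat_lit 2516, nat_lit 0, nat_lit 0, nat_lit 0, nat_lit 0, nat_lit 0, nat_lit 0, nat_lit 0, nat_lit 0, nat_lit 0, nat_lit 68, nat_lit 250000, nat_lit 0, nat_lit 0, [(nat_lit 29, [(nat_lit 0, nat_lit 308), (nat_lit 4, nat_lit 692)])],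
 ⟨p103_k25, nat_lit 0, nat_lit 0, nat_lit 90, nat_lit 0, nat_lit 0, [nat_lit 1039760001, nat_lit 138177600], [], [nat_lit 21462495042, nat_lit 22530153778, nat_lit 24634964040, nat_lit 25811431188, nat_lit 22514652052, nat_lit 23511895465, nat_lit 25673179675, nat_lit 26763956463], nat_lit 0, nat_lit 0, nat_lit 0, nat_lit 0, nat_lit 0, nat_lit 0, [], [nat_lit 141, nat_lit 40, nat_lit 40, nat_lit 80, nat_lit 142, nat_lit 345, nat_lit 125, nat_lit 10]⟩, C1.Rw.none,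
 ⟨nat_lit 0, nat_lit 2237, ⟨.ofNat (nat_lit 397434), .ofNat (nat_lit 579878), .ofNat (nat_lit 441142), .ofNat (nat_lit 625429), .ofNat (nat_lit 399999), .ofNat (nat_lit 559993), .ofNat (nat_lit 448157), .ofNat (nat_lit 609995)⟩, ⟨.ofNat (nat_lit 306334), .ofNat (nat_lit 374750), .ofNat (nat_lit 351885), .ofNat (nat_lit 420300), .ofNat (nat_lit 299996), .ofNat (nat_lit 359993), .ofNat (nat_lit 349998), .ofNat (nat_lit 409994)⟩⟩, [⟨nat_lit 13, nat_lit 44, nat_lit 90, nat_lit 100, nat_lit 279072746⟩, ⟨nat_lit 16, nat_lit 32, nat_lit 100, nat_lit 88, nat_lit 405616752⟩]⟩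
noncomputable def p103_l138 : Lf2 := ⟨nat_lit 0, nat_lit 30, [nat_lit 15, nat_lit 5, nat_lit 5, nat_lit 20], true, nat_lit 8, nat_lit 248, nat_lit 0, nat_lit 396, ⟨nat_lit 0, nat_lit 0, nat_lit 1000, nat_lit 4, nat_lit 135, nat_lit 1000, nat_lit 94, nat_lit 1000, nat_lit 58017, nat_lit 274, nat_lit 173400, nat_lit 317, nat_lit 55653209, nat_lit 0, nat_lit 0, nat_lit 3001638, false, false⟩,
 nat_lit 0, nat_lit 0, nat_lit 0, nat_lit 3632, nat_lit 2660, nat_lit 0, nat_lit 0, nat_lit 0, nat_lit 0, nat_lit 0, nat_lit 0, nat_lit 0, nat_lit 0, nat_lit 0, nat_lit 108, nat_lit 250000, nat_lit 0, nat_lit 0, [(nat_lit 26, [(nat_lit 4, nat_lit 1000)]), (nat_lit 29, [(nat_lit 4, nat_lit 1000)])],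
 ⟨p103_k24, nat_lit 0, nat_lit 0, nat_lit 295, nat_lit 0, nat_lit 0, [nat_lit 1193600000, nat_lit 686800000], [], [nat_lit 20782657533, nat_lit 23489209738, nat_lit 21285302160, nat_lit 23218959473, nat_lit 22695833839, nat_lit 24566754791, nat_lit 23373283361, nat_lit 25045993721], nat_lit 0, nat_lit 0, nat_lit 0, nat_lit 0, nat_lit 0, nat_lit 0, [], [nat_lit 132, nat_lit 40, nat_lit 40, nat_lit 80, nat_lit 133, nat_lit 345, nat_lit 125, nat_lit 10]⟩, C1.Rw.none,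
 ⟨nat_lit 0, nat_lit 3163, ⟨.ofNat (nat_lit 216927), .ofNat (nat_lit 394735), .ofNat (nat_lit 258627), .ofNat (nat_lit 436481), .ofNat (nat_lit 252860), .ofNat (nat_lit 399999), .ofNat (nat_lit 300250), .ofNat (nat_lit 447434)⟩, ⟨.ofNat (nat_lit 20000), .ofNat (nat_lit 440207), .ofNat (nat_lit 20000), .ofNat (nat_lit 484518), .ofNat (nat_lit 20000), .ofNat (nat_lit 409993), .ofNat (nat_lit 20000), .ofNat (nat_lit 459993)⟩⟩, [⟨nat_lit 0, nat_lit 100, nat_lit 44, nat_lit 86, nat_lit 87639286⟩, ⟨nat_lit 3, nat_lit 100, nat_lit 50, nat_lit 65, nat_lit 9877870⟩]⟩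
noncomputable def p103_l139 : Lf2 := ⟨nat_lit 0, nat_lit 30, [nat_lit 15, nat_lit 5, nat_lit 5, nat_lit 20], true, nat_lit 8, nat_lit 80, nat_lit 0, nat_lit 384, ⟨nat_lit 0, nat_lit 0, nat_lit 1000, nat_lit 4, nat_lit 191, nat_lit 1000, nat_lit 43, nat_lit 1000, nat_lit 17067, nat_lit 247, nat_lit 2400, nat_lit 227, nat_lit 53288177, nat_lit 0, nat_lit 0, nat_lit 2946428, false, true⟩,
 nat_lit 0, nat_lit 0, nat_lit 0, nat_lit 7429, nat_lit 2477, nat_lit 0, nat_lit 0, nat_lit 0, nat_lit 0, nat_lit 0, nat_lit 0, nat_lit 0, nat_lit 0, nat_lit 0, nat_lit 108, nat_lit 250000, nat_lit 0, nat_lit 0, [(nat_lit 26, [(nat_lit 4, nat_lit 1000)])],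
 ⟨p103_k24, nat_lit 0, nat_lit 0, nat_lit 209, nat_lit 0, nat_lit 0, [nat_lit 1160000000, nat_lit 686800000], [], [nat_lit 21127186203, nat_lit 21967854610, nat_lit 22603460960, nat_lit 23592357907, nat_lit 20543949072, nat_lit 21347035596, nat_lit 22075234828, nat_lit 23016937838], nat_lit 0, nat_lit 0, nat_lit 0, nat_lit 0, nat_lit 0, nat_lit 0, [], [nat_lit 132, nat_lit 40, nat_lit 40, nat_lit 80, nat_lit 133, nat_lit 317, nat_lit 100, nat_lit 9]⟩, C1.Rw.none,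
 ⟨nat_lit 2236, nat_lit 3163, ⟨.ofNat (nat_lit 394735), .ofNat (nat_lit 516642), .ofNat (nat_lit 438942), .ofNat (nat_lit 560952), .ofNat (nat_lit 397434), .ofNat (nat_lit 511466), .ofNat (nat_lit 442880), .ofNat (nat_lit 557014)⟩, ⟨.ofNat (nat_lit 20000), .ofNat (nat_lit 184209), .ofNat (nat_lit 20000), .ofNat (nat_lit 200000), .ofNat (nat_lit 20000), .ofNat (nat_lit 192306), .ofNat (nat_lit 20000), .ofNat (nat_lit 200000)⟩⟩, [⟨nat_lit 3, nat_lit 100, nat_lit 61, nat_lit 55, nat_lit 249518053⟩]⟩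
noncomputable def p103_l140 : Lf2 := ⟨nat_lit 0, nat_lit 30, [nat_lit 15, nat_lit 5, nat_lit 5, nat_lit 20], true, nat_lit 8, nat_lit 80, nat_lit 0, nat_lit 336, ⟨nat_lit 0, nat_lit 0, nat_lit 1000, nat_lit 6, nat_lit 229, nat_lit 1000, nat_lit 43, nat_lit 1000, nat_lit 17067, nat_lit 247, nat_lit 7758, nat_lit 201, nat_lit 49328318, nat_lit 0, nat_lit 0, nat_lit 3323730, false, true⟩,
 nat_lit 0, nat_lit 0, nat_lit 0, nat_lit 7858, nat_lit 2355, nat_lit 0, nat_lit 0, nat_lit 0, nat_lit 0, nat_lit 0, nat_lit 0, nat_lit 0, nat_lit 0, nat_lit 0, nat_lit 108, nat_lit 250000, nat_lit 0, nat_lit 0, [(nat_lit 26, [(nat_lit 4, nat_lit 1000)])],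
 ⟨p103_k24, nat_lit 0, nat_lit 0, nat_lit 206, nat_lit 0, nat_lit 0, [nat_lit 1160000000, nat_lit 686800000], [], [nat_lit 22948257419, nat_lit 23898432575, nat_lit 24936428556, nat_lit 25788567902, nat_lit 22580704420, nat_lit 23485007000, nat_lit 24492355561, nat_lit 25305725785], nat_lit 0, nat_lit 0, nat_lit 0, nat_lit 0, nat_lit 0, nat_lit 0, [], [nat_lit 132, nat_lit 40, nat_lit 40, nat_lit 80, nat_lit 133, nat_lit 317, nat_lit 100, nat_lit 8]⟩, C1.Rw.none,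
 ⟨nat_lit 2236, nat_lit 3163, ⟨.ofNat (nat_lit 516642), .ofNat (nat_lit 614167), .ofNat (nat_lit 538797), .ofNat (nat_lit 636322), .ofNat (nat_lit 511466), .ofNat (nat_lit 602690), .ofNat (nat_lit 534240), .ofNat (nat_lit 625465)⟩, ⟨.ofNat (nat_lit 20000), .ofNat (nat_lit 184209), .ofNat (nat_lit 20000), .ofNat (nat_lit 200000), .ofNat (nat_lit 20000), .ofNat (nat_lit 192306), .ofNat (nat_lit 20000), .ofNat (nat_lit 200000)⟩⟩, [⟨nat_lit 13, nat_lit 53, nat_lit 93, nat_lit 100, nat_lit 378506069⟩, ⟨nat_lit 3, nat_lit 100, nat_lit 61, nat_lit 55, nat_lit 211039123⟩]⟩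
noncomputable def p103_l141 : Lf2 := ⟨nat_lit 0, nat_lit 25, [nat_lit 44, nat_lit 5, nat_lit 5, nat_lit 20], true, nat_lit 8, nat_lit 80, nat_lit 0, nat_lit 336, ⟨nat_lit 0, nat_lit 403, nat_lit 597, nat_lit 6, nat_lit 231, nat_lit 1000, nat_lit 43, nat_lit 597, nat_lit 17067, nat_lit 247, nat_lit 3656, nat_lit 205, nat_lit 49128337, nat_lit 16628996, nat_lit 1242667, nat_lit 3339864, true, true⟩,
 nat_lit 0, nat_lit 0, nat_lit 0, nat_lit 4716, nat_lit 3058, nat_lit 0, nat_lit 0, nat_lit 0, nat_lit 0, nat_lit 0, nat_lit 0, nat_lit 0, nat_lit 0, nat_lit 0, nat_lit 8, nat_lit 220150, nat_lit 0, nat_lit 0, [(nat_lit 26, [(nat_lit 0, nat_lit 403), (nat_lit 3, nat_lit 597)])],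
 ⟨p103_k29, nat_lit 0, nat_lit 0, nat_lit 168, nat_lit 0, nat_lit 0, [nat_lit 1025892800, nat_lit 10658400], [], [nat_lit 24357852222, nat_lit 25283411524, nat_lit 25446998543, nat_lit 26311327850, nat_lit 23451111416, nat_lit 24332585244, nat_lit 24499477736, nat_lit 25460548400], nat_lit 0, nat_lit 0, nat_lit 0, nat_lit 0, nat_lit 0, nat_lit 0, [], [nat_lit 141, nat_lit 40, nat_lit 40, nat_lit 80, nat_lit 142, nat_lit 226, nat_lit 20, nat_lit 6]⟩, C1.Rw.none,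
 ⟨nat_lit 2236, nat_lit 3163, ⟨.ofNat (nat_lit 538797), .ofNat (nat_lit 599750), .ofNat (nat_lit 560952), .ofNat (nat_lit 621905), .ofNat (nat_lit 534240), .ofNat (nat_lit 591255), .ofNat (nat_lit 557014), .ofNat (nat_lit 614030)⟩, ⟨.ofNat (nat_lit 20000), .ofNat (nat_lit 184209), .ofNat (nat_lit 20000), .ofNat (nat_lit 200000), .ofNat (nat_lit 20000), .ofNat (nat_lit 192306), .ofNat (nat_lit 20000), .ofNat (nat_lit 200000)⟩⟩, [⟨nat_lit 3, nat_lit 100, nat_lit 50, nat_lit 65, nat_lit 341372945⟩]⟩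
noncomputable def p103_l142 : Lf2 := ⟨nat_lit 0, nat_lit 25, [nat_lit 44, nat_lit 5, nat_lit 5, nat_lit 20], true, nat_lit 8, nat_lit 80, nat_lit 0, nat_lit 300, ⟨nat_lit 0, nat_lit 195, nat_lit 805, nat_lit 7, nat_lit 254, nat_lit 1000, nat_lit 43, nat_lit 805, nat_lit 17067, nat_lit 247, nat_lit 94468, nat_lit 200, nat_lit 46663957, nat_lit 19117080, nat_lit 1218963, nat_lit 3517674, true, true⟩,
 nat_lit 0, nat_lit 0, nat_lit 0, nat_lit 6687, nat_lit 2199, nat_lit 0, nat_lit 0, nat_lit 0, nat_lit 0, nat_lit 0, nat_lit 0, nat_lit 0, nat_lit 0, nat_lit 0, nat_lit 66, nat_lit 250000, nat_lit 0, nat_lit 0, [(nat_lit 26, [(nat_lit 0, nat_lit 195), (nat_lit 4, nat_lit 805)])],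
 ⟨p103_k30, nat_lit 0, nat_lit 0, nat_lit 169, nat_lit 0, nat_lit 0, [nat_lit 999332000, nat_lit 785860001, nat_lit 3214000], [], [nat_lit 23621197046, nat_lit 24569118572, nat_lit 25043247725, nat_lit 26115048002, nat_lit 23271766836, nat_lit 24175347706, nat_lit 24661699360, nat_lit 25691768372], nat_lit 0, nat_lit 0, nat_lit 0, nat_lit 0, nat_lit 0, nat_lit 0, [], [nat_lit 54, nat_lit 40, nat_lit 40, nat_lit 80, nat_lit 43, nat_lit 226, nat_lit 20, nat_lit 6]⟩, C1.Rw.none,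
 ⟨nat_lit 2236, nat_lit 3163, ⟨.ofNat (nat_lit 599750), .ofNat (nat_lit 660704), .ofNat (nat_lit 621905), .ofNat (nat_lit 682859), .ofNat (nat_lit 591255), .ofNat (nat_lit 648271), .ofNat (nat_lit 614030), .ofNat (nat_lit 671045)⟩, ⟨.ofNat (nat_lit 20000), .ofNat (nat_lit 184209), .ofNat (nat_lit 20000), .ofNat (nat_lit 200000), .ofNat (nat_lit 20000), .ofNat (nat_lit 192306), .ofNat (nat_lit 20000), .ofNat (nat_lit 200000)⟩⟩, [⟨nat_lit 13, nat_lit 53, nat_lit 88, nat_lit 100, nat_lit 406456739⟩, ⟨nat_lit 3, nat_lit 100, nat_lit 63, nat_lit 50, nat_lit 198587523⟩]⟩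
noncomputable def p103_l143 : Lf2 := ⟨nat_lit 1, nat_lit 25, [nat_lit 44, nat_lit 5, nat_lit 5, nat_lit 20], false, nat_lit 8, nat_lit 80, nat_lit 0, nat_lit 336, zbN0,
 nat_lit 0, nat_lit 0, nat_lit 0, nat_lit 0, nat_lit 0, nat_lit 0, nat_lit 0, nat_lit 0, nat_lit 0, nat_lit 0, nat_lit 0, nat_lit 0, nat_lit 0, nat_lit 0, nat_lit 0, nat_lit 0, nat_lit 0, nat_lit 0, [],
 C1.Rw.none, C1.Rw.none,
 zbF0, []⟩
noncomputable def p103_l144 : Lf2 := ⟨nat_lit 0, nat_lit 25, [nat_lit 44, nat_lit 5, nat_lit 5, nat_lit 20], true, nat_lit 16, nat_lit 80, nat_lit 0, nat_lit 336, ⟨nat_lit 0, nat_lit 295, nat_lit 705, nat_lit 6, nat_lit 243, nat_lit 1000, nat_lit 48, nat_lit 705, nat_lit 21600, nat_lit 251, nat_lit 94468, nat_lit 200, nat_lit 47695219, nat_lit 17844161, nat_lit 1460620, nat_lit 3505780, true, true⟩,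
 nat_lit 0, nat_lit 0, nat_lit 0, nat_lit 8065, nat_lit 2296, nat_lit 0, nat_lit 0, nat_lit 0, nat_lit 0, nat_lit 0, nat_lit 0, nat_lit 0, nat_lit 0, nat_lit 0, nat_lit 45, nat_lit 250000, nat_lit 0, nat_lit 0, [(nat_lit 26, [(nat_lit 0, nat_lit 295), (nat_lit 4, nat_lit 705)])],
 ⟨p103_k31, nat_lit 0, nat_lit 0, nat_lit 171, nat_lit 0, nat_lit 0, [nat_lit 952650000, nat_lit 500398001, nat_lit 7734000], [], [nat_lit 22553251965, nat_lit 23600631652, nat_lit 25315058576, nat_lit 26220927796, nat_lit 22145239216, nat_lit 23147914096, nat_lit 24815820560, nat_lit 25785551488], nat_lit 0, nat_lit 0, nat_lit 0, nat_lit 0, nat_lit 0, nat_lit 0, [], [nat_lit 57, nat_lit 40, nat_lit 40, nat_lit 80, nat_lit 7, nat_lit 226, nat_lit 20, nat_lit 6]⟩, C1.Rw.none,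
 ⟨nat_lit 2236, nat_lit 3163, ⟨.ofNat (nat_lit 538797), .ofNat (nat_lit 660704), .ofNat (nat_lit 560952), .ofNat (nat_lit 682859), .ofNat (nat_lit 534240), .ofNat (nat_lit 648271), .ofNat (nat_lit 557014), .ofNat (nat_lit 671045)⟩, ⟨.ofNat (nat_lit 40000), .ofNat (nat_lit 200000), .ofNat (nat_lit 40000), .ofNat (nat_lit 200000), .ofNat (nat_lit 40000), .ofNat (nat_lit 200000), .ofNat (nat_lit 40000), .ofNat (nat_lit 200000)⟩⟩, [⟨nat_lit 13, nat_lit 53, nat_lit 88, nat_lit 100, nat_lit 372244177⟩, ⟨nat_lit 3, nat_lit 100, nat_lit 59, nat_lit 58, nat_lit 258840849⟩]⟩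
noncomputable def p103_l145 : Lf2 := ⟨nat_lit 1, nat_lit 30, [nat_lit 15, nat_lit 5, nat_lit 5, nat_lit 20], false, nat_lit 16, nat_lit 80, nat_lit 0, nat_lit 336, zbN0,
 nat_lit 0, nat_lit 0, nat_lit 0, nat_lit 0, nat_lit 0, nat_lit 0, nat_lit 0, nat_lit 0, nat_lit 0, nat_lit 0, nat_lit 0, nat_lit 0, nat_lit 0, nat_lit 0, nat_lit 0, nat_lit 0, nat_lit 0, nat_lit 0, [],
 C1.Rw.none, C1.Rw.none,
 zbF0, []⟩
noncomputable def p103_l146 : Lf2 := ⟨nat_lit 0, nat_lit 30, [nat_lit 15, nat_lit 5, nat_lit 5, nat_lit 20], true, nat_lit 20, nat_lit 80, nat_lit 0, nat_lit 384, ⟨nat_lit 0, nat_lit 331, nat_lit 669, nat_lit 4, nat_lit 204, nat_lit 1000, nat_lit 49, nat_lit 669, nat_lit 22817, nat_lit 252, nat_lit 4634, nat_lit 204, nat_lit 51634687, nat_lit 13804134, nat_lit 1561179, nat_lit 3185609, false, true⟩,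
 nat_lit 0, nat_lit 0, nat_lit 0, nat_lit 6890, nat_lit 2312, nat_lit 0, nat_lit 0, nat_lit 0, nat_lit 0, nat_lit 0, nat_lit 0, nat_lit 0, nat_lit 0, nat_lit 0, nat_lit 63, nat_lit 250000, nat_lit 0, nat_lit 0, [(nat_lit 29, [(nat_lit 0, nat_lit 331), (nat_lit 4, nat_lit 669)])],
 ⟨p103_k32, nat_lit 0, nat_lit 0, nat_lit 161, nat_lit 0, nat_lit 0, [nat_lit 1020220001, nat_lit 398942400, nat_lit 134953200], [], [nat_lit 21322331782, nat_lit 21912770396, nat_lit 24830602658, nat_lit 25414918473, nat_lit 20920582786, nat_lit 21486066746, nat_lit 24458434313, nat_lit 25018042631], nat_lit 0, nat_lit 0, nat_lit 0, nat_lit 0, nat_lit 0, nat_lit 0, [], [nat_lit 54, nat_lit 40, nat_lit 40, nat_lit 80, nat_lit 43, nat_lit 317, nat_lit 100, nat_lit 10]⟩, C1.Rw.none,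
 ⟨nat_lit 1581, nat_lit 2237, ⟨.ofNat (nat_lit 397434), .ofNat (nat_lit 579884), .ofNat (nat_lit 442898), .ofNat (nat_lit 625433), .ofNat (nat_lit 398733), .ofNat (nat_lit 573567), .ofNat (nat_lit 445278), .ofNat (nat_lit 620197)⟩, ⟨.ofNat (nat_lit 50000), .ofNat (nat_lit 192306), .ofNat (nat_lit 50000), .ofNat (nat_lit 200000), .ofNat (nat_lit 50000), .ofNat (nat_lit 196201), .ofNat (nat_lit 50000), .ofNat (nat_lit 200000)⟩⟩, [⟨nat_lit 13, nat_lit 38, nat_lit 96, nat_lit 100, nat_lit 269893432⟩, ⟨nat_lit 13, nat_lit 44, nat_lit 90, nat_lit 100, nat_lit 70036409⟩, ⟨nat_lit 3, nat_lit 100, nat_lit 54, nat_lit 57, nat_lit 256310353⟩]⟩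
noncomputable def p103_l147 : Lf2 := ⟨nat_lit 0, nat_lit 30, [nat_lit 15, nat_lit 5, nat_lit 5, nat_lit 20], true, nat_lit 36, nat_lit 80, nat_lit 0, nat_lit 384, ⟨nat_lit 0, nat_lit 402, nat_lit 598, nat_lit 4, nat_lit 196, nat_lit 1000, nat_lit 58, nat_lit 598, nat_lit 30817, nat_lit 258, nat_lit 3437, nat_lit 217, nat_lit 52022802, nat_lit 12997019, nat_lit 1980179, nat_lit 3227992, false, true⟩,
 nat_lit 0, nat_lit 0, nat_lit 0, nat_lit 5726, nat_lit 2301, nat_lit 0, nat_lit 0, nat_lit 0, nat_lit 0, nat_lit 0, nat_lit 0, nat_lit 0, nat_lit 0, nat_lit 0, nat_lit 43, nat_lit 250000, nat_lit 0, nat_lit 0, [(nat_lit 29, [(nat_lit 0, nat_lit 402), (nat_lit 4, nat_lit 598)])],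
 ⟨p103_k33, nat_lit 0, nat_lit 0, nat_lit 129, nat_lit 0, nat_lit 0, [nat_lit 941640000, nat_lit 10176800], [], [nat_lit 21450257943, nat_lit 22057939638, nat_lit 24178688817, nat_lit 24845658459, nat_lit 21224333655, nat_lit 21811918352, nat_lit 23909129247, nat_lit 24444621762], nat_lit 0, nat_lit 0, nat_lit 0, nat_lit 0, nat_lit 0, nat_lit 0, [], [nat_lit 88, nat_lit 40, nat_lit 40, nat_lit 80, nat_lit 89, nat_lit 317, nat_lit 100, nat_lit 11]⟩, C1.Rw.none,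
 ⟨nat_lit 0, nat_lit 1582, ⟨.ofNat (nat_lit 398733), .ofNat (nat_lit 540781), .ofNat (nat_lit 444052), .ofNat (nat_lit 587413), .ofNat (nat_lit 399999), .ofNat (nat_lit 529994), .ofNat (nat_lit 448688), .ofNat (nat_lit 579996)⟩, ⟨.ofNat (nat_lit 90000), .ofNat (nat_lit 196201), .ofNat (nat_lit 90000), .ofNat (nat_lit 200000), .ofNat (nat_lit 90000), .ofNat (nat_lit 199999), .ofNat (nat_lit 90000), .ofNat (nat_lit 200000)⟩⟩, [⟨nat_lit 13, nat_lit 31, nat_lit 95, nat_lit 100, nat_lit 383442983⟩, ⟨nat_lit 3, nat_lit 100, nat_lit 39, nat_lit 72, nat_lit 365512916⟩]⟩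
noncomputable def p103_l148 : Lf2 := ⟨nat_lit 0, nat_lit 30, [nat_lit 15, nat_lit 5, nat_lit 5, nat_lit 20], true, nat_lit 80, nat_lit 160, nat_lit 0, nat_lit 396, ⟨nat_lit 0, nat_lit 0, nat_lit 1000, nat_lit 4, nat_lit 190, nat_lit 1000, nat_lit 105, nat_lit 1000, nat_lit 101400, nat_lit 293, nat_lit 2400, nat_lit 227, nat_lit 49927540, nat_lit 0, nat_lit 0, nat_lit 3824336, false, true⟩,
 nat_lit 0, nat_lit 0, nat_lit 0, nat_lit 809, nat_lit 2638, nat_lit 0, nat_lit 0, nat_lit 0, nat_lit 0, nat_lit 0, nat_lit 0, nat_lit 0, nat_lit 0, nat_lit 0, nat_lit 108, nat_lit 250000, nat_lit 0, nat_lit 0, [(nat_lit 26, [(nat_lit 4, nat_lit 1000)]), (nat_lit 29, [(nat_lit 4, nat_lit 1000)])],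
 ⟨p103_k24, nat_lit 0, nat_lit 0, nat_lit 150, nat_lit 0, nat_lit 0, [nat_lit 1193600000, nat_lit 686800000], [], [nat_lit 19897653416, nat_lit 22115673168, nat_lit 21755024496, nat_lit 23725680816, nat_lit 20710001720, nat_lit 22737047040, nat_lit 22424139344, nat_lit 24266755360], nat_lit 0, nat_lit 0, nat_lit 0, nat_lit 0, nat_lit 0, nat_lit 0, [], [nat_lit 132, nat_lit 40, nat_lit 40, nat_lit 80, nat_lit 133, nat_lit 317, nat_lit 100, nat_lit 8]⟩, C1.Rw.none,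
 ⟨nat_lit 0, nat_lit 3163, ⟨.ofNat (nat_lit 394735), .ofNat (nat_lit 516640), .ofNat (nat_lit 436481), .ofNat (nat_lit 560951), .ofNat (nat_lit 399999), .ofNat (nat_lit 499997), .ofNat (nat_lit 447434), .ofNat (nat_lit 549998)⟩, ⟨.ofNat (nat_lit 184209), .ofNat (nat_lit 306113), .ofNat (nat_lit 200000), .ofNat (nat_lit 350425), .ofNat (nat_lit 199999), .ofNat (nat_lit 299996), .ofNat (nat_lit 200000), .ofNat (nat_lit 349998)⟩⟩, []⟩
noncomputable def p103_l149 : Lf2 := ⟨nat_lit 0, nat_lit 30, [nat_lit 15, nat_lit 5, nat_lit 5, nat_lit 20], true, nat_lit 80, nat_lit 160, nat_lit 0, nat_lit 384, ⟨nat_lit 0, nat_lit 88, nat_lit 912, nat_lit 6, nat_lit 238, nat_lit 1000, nat_lit 105, nat_lit 912, nat_lit 101400, nat_lit 293, nat_lit 94468, nat_lit 200, nat_lit 45430837, nat_lit 16912281, nat_lit 4656882, nat_lit 4226039, false, true⟩,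
 nat_lit 0, nat_lit 0, nat_lit 0, nat_lit 7473, nat_lit 2594, nat_lit 0, nat_lit 0, nat_lit 0, nat_lit 0, nat_lit 0, nat_lit 0, nat_lit 0, nat_lit 0, nat_lit 0, nat_lit 89, nat_lit 250000, nat_lit 0, nat_lit 0, [(nat_lit 26, [(nat_lit 0, nat_lit 88), (nat_lit 4, nat_lit 912)])],
 ⟨p103_k24, nat_lit 0, nat_lit 0, nat_lit 146, nat_lit 0, nat_lit 0, [nat_lit 1087308800, nat_lit 602297600], [], [nat_lit 22189671248, nat_lit 23168781328, nat_lit 24734799056, nat_lit 25598501648, nat_lit 22873337072, nat_lit 23771583392, nat_lit 25220013488, nat_lit 26031869836], nat_lit 0, nat_lit 0, nat_lit 0, nat_lit 0, nat_lit 0, nat_lit 0, [], [nat_lit 132, nat_lit 40, nat_lit 40, nat_lit 80, nat_lit 133, nat_lit 345, nat_lit 125, nat_lit 9]⟩, C1.Rw.none,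
 ⟨nat_lit 2236, nat_lit 3163, ⟨.ofNat (nat_lit 516642), .ofNat (nat_lit 638549), .ofNat (nat_lit 560952), .ofNat (nat_lit 682859), .ofNat (nat_lit 511466), .ofNat (nat_lit 625497), .ofNat (nat_lit 557014), .ofNat (nat_lit 671045)⟩, ⟨.ofNat (nat_lit 184209), .ofNat (nat_lit 306116), .ofNat (nat_lit 200000), .ofNat (nat_lit 350426), .ofNat (nat_lit 192306), .ofNat (nat_lit 306337), .ofNat (nat_lit 200000), .ofNat (nat_lit 351886)⟩⟩, [⟨nat_lit 13, nat_lit 53, nat_lit 90, nat_lit 100, nat_lit 367120870⟩]⟩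
noncomputable def p103_l150 : Lf2 := ⟨nat_lit 0, nat_lit 30, [nat_lit 15, nat_lit 5, nat_lit 5, nat_lit 20], true, nat_lit 80, nat_lit 160, nat_lit 0, nat_lit 384, ⟨nat_lit 0, nat_lit 293, nat_lit 707, nat_lit 6, nat_lit 225, nat_lit 1000, nat_lit 105, nat_lit 707, nat_lit 104017, nat_lit 294, nat_lit 4626, nat_lit 204, nat_lit 46672744, nat_lit 15580497, nat_lit 4746759, nat_lit 4135228, false, true⟩,
 nat_lit 0, nat_lit 0, nat_lit 0, nat_lit 6396, nat_lit 2467, nat_lit 0, nat_lit 0, nat_lit 0, nat_lit 0, nat_lit 0, nat_lit 0, nat_lit 0, nat_lit 0, nat_lit 0, nat_lit 72, nat_lit 250000, nat_lit 0, nat_lit 0, [(nat_lit 29, [(nat_lit 0, nat_lit 293), (nat_lit 4, nat_lit 707)])],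
 ⟨p103_k25, nat_lit 0, nat_lit 0, nat_lit 127, nat_lit 0, nat_lit 0, [nat_lit 1055460000, nat_lit 158019600], [], [nat_lit 22465344292, nat_lit 23495256052, nat_lit 23989188391, nat_lit 25266767928, nat_lit 23205508222, nat_lit 24149043440, nat_lit 24657464734, nat_lit 25756813920], nat_lit 0, nat_lit 0, nat_lit 0, nat_lit 0, nat_lit 0, nat_lit 0, [], [nat_lit 141, nat_lit 40, nat_lit 40, nat_lit 80, nat_lit 142, nat_lit 249, nat_lit 40, nat_lit 7]⟩, C1.Rw.none,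
 ⟨nat_lit 0, nat_lit 2237, ⟨.ofNat (nat_lit 511462), .ofNat (nat_lit 579878), .ofNat (nat_lit 557013), .ofNat (nat_lit 625429), .ofNat (nat_lit 499995), .ofNat (nat_lit 559993), .ofNat (nat_lit 549998), .ofNat (nat_lit 609995)⟩, ⟨.ofNat (nat_lit 192306), .ofNat (nat_lit 306334), .ofNat (nat_lit 200000), .ofNat (nat_lit 351885), .ofNat (nat_lit 199999), .ofNat (nat_lit 299996), .ofNat (nat_lit 200000), .ofNat (nat_lit 349998)⟩⟩, [⟨nat_lit 13, nat_lit 31, nat_lit 98, nat_lit 100, nat_lit 351222167⟩, ⟨nat_lit 13, nat_lit 44, nat_lit 90, nat_lit 100, nat_lit 174434521⟩]⟩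
noncomputable def p103_l151 : Lf2 := ⟨nat_lit 0, nat_lit 30, [nat_lit 15, nat_lit 5, nat_lit 5, nat_lit 20], true, nat_lit 160, nat_lit 248, nat_lit 0, nat_lit 396, ⟨nat_lit 0, nat_lit 1000, nat_lit 0, nat_lit 4, nat_lit 215, nat_lit 1000, nat_lit 157, nat_lit 0, nat_lit 0, nat_lit 0, nat_lit 0, nat_lit 0, nat_lit 44279105, nat_lit 14084975, nat_lit 8635920, nat_lit 4648855, false, true⟩,
 nat_lit 0, nat_lit 0, nat_lit 0, nat_lit 7653, nat_lit 2874, nat_lit 0, nat_lit 0, nat_lit 0, nat_lit 0, nat_lit 0, nat_lit 0, nat_lit 0, nat_lit 0, nat_lit 0, nat_lit 0, nat_lit 250000, nat_lit 0, nat_lit 0, [(nat_lit 26, [(nat_lit 0, nat_lit 1000)])],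
 ⟨p103_k28, nat_lit 0, nat_lit 0, nat_lit 59, nat_lit 0, nat_lit 0, [nat_lit 765600000, nat_lit 1432000001, nat_lit 2936000000], [], [nat_lit 19940945993, nat_lit 21307800725, nat_lit 25338509809, nat_lit 26397366513, nat_lit 22507843060, nat_lit 23720297898, nat_lit 27179929577, nat_lit 28108204198], nat_lit 0, nat_lit 0, nat_lit 0, nat_lit 0, nat_lit 0, nat_lit 0, [], [nat_lit 93, nat_lit 40, nat_lit 40, nat_lit 80, nat_lit 63, nat_lit 373, nat_lit 150, nat_lit 10]⟩, C1.Rw.none,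
 ⟨nat_lit 2236, nat_lit 3163, ⟨.ofNat (nat_lit 394735), .ofNat (nat_lit 638549), .ofNat (nat_lit 438942), .ofNat (nat_lit 682859), .ofNat (nat_lit 397434), .ofNat (nat_lit 625497), .ofNat (nat_lit 442880), .ofNat (nat_lit 671045)⟩, ⟨.ofNat (nat_lit 306116), .ofNat (nat_lit 440213), .ofNat (nat_lit 350426), .ofNat (nat_lit 484523), .ofNat (nat_lit 306337), .ofNat (nat_lit 431772), .ofNat (nat_lit 351886), .ofNat (nat_lit 477320)⟩⟩, [⟨nat_lit 13, nat_lit 53, nat_lit 90, nat_lit 100, nat_lit 213535622⟩, ⟨nat_lit 4, nat_lit 100, nat_lit 53, nat_lit 87, nat_lit 238364627⟩]⟩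
noncomputable def p103_l152 : Lf2 := ⟨nat_lit 0, nat_lit 30, [nat_lit 15, nat_lit 5, nat_lit 5, nat_lit 20], true, nat_lit 160, nat_lit 208, nat_lit 0, nat_lit 396, ⟨nat_lit 0, nat_lit 308, nat_lit 692, nat_lit 4, nat_lit 203, nat_lit 1000, nat_lit 144, nat_lit 692, nat_lit 194400, nat_lit 323, nat_lit 4626, nat_lit 204, nat_lit 46174622, nat_lit 13176104, nat_lit 7649274, nat_lit 4416691, false, true⟩,
 nat_lit 0, nat_lit 0, nat_lit 0, nat_lit 7653, nat_lit 2516, nat_lit 0, nat_lit 0, nat_lit 0, nat_lit 0, nat_lit 0, nat_lit 0, nat_lit 0, nat_lit 0, nat_lit 0, nat_lit 68, nat_lit 250000, nat_lit 0, nat_lit 0, [(nat_lit 29, [(nat_lit 0, nat_lit 308), (nat_lit 4, nat_lit 692)])],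
 ⟨p103_k25, nat_lit 0, nat_lit 0, nat_lit 90, nat_lit 0, nat_lit 0, [nat_lit 1039760001, nat_lit 138177600], [], [nat_lit 21462495042, nat_lit 22530153778, nat_lit 24634964040, nat_lit 25811431188, nat_lit 22514652052, nat_lit 23511895465, nat_lit 25673179675, nat_lit 26763956463], nat_lit 0, nat_lit 0, nat_lit 0, nat_lit 0, nat_lit 0, nat_lit 0, [], [nat_lit 141, nat_lit 40, nat_lit 40, nat_lit 80, nat_lit 142, nat_lit 345, nat_lit 125, nat_lit 10]⟩, C1.Rw.none,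
 ⟨nat_lit 0, nat_lit 2237, ⟨.ofNat (nat_lit 397434), .ofNat (nat_lit 579878), .ofNat (nat_lit 441142), .ofNat (nat_lit 625429), .ofNat (nat_lit 399999), .ofNat (nat_lit 559993), .ofNat (nat_lit 448157), .ofNat (nat_lit 609995)⟩, ⟨.ofNat (nat_lit 306334), .ofNat (nat_lit 374750), .ofNat (nat_lit 351885), .ofNat (nat_lit 420300), .ofNat (nat_lit 299996), .ofNat (nat_lit 359993), .ofNat (nat_lit 349998), .ofNat (nat_lit 409994)⟩⟩, [⟨nat_lit 13, nat_lit 44, nat_lit 90, nat_lit 100, nat_lit 279072746⟩, ⟨nat_lit 16, nat_lit 32, nat_lit 100, nat_lit 88, nat_lit 405616752⟩]⟩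
noncomputable def p103_l153 : Lf2 := ⟨nat_lit 0, nat_lit 30, [nat_lit 15, nat_lit 5, nat_lit 5, nat_lit 20], true, nat_lit 8, nat_lit 248, nat_lit 0, nat_lit 396, ⟨nat_lit 0, nat_lit 1000, nat_lit 0, nat_lit 4, nat_lit 180, nat_lit 1000, nat_lit 94, nat_lit 0, nat_lit 0, nat_lit 0, nat_lit 0, nat_lit 0, nat_lit 0, nat_lit 0, nat_lit 0, nat_lit 5000000, false, true⟩,
 nat_lit 0, nat_lit 0, nat_lit 0, nat_lit 5850, nat_lit 3885, nat_lit 0, nat_lit 0, nat_lit 0, nat_lit 0, nat_lit 0, nat_lit 0, nat_lit 0, nat_lit 0, nat_lit 0, nat_lit 0, nat_lit 384700, nat_lit 0, nat_lit 0, [(nat_lit 26, [(nat_lit 0, nat_lit 102), (nat_lit 1, nat_lit 898)]), (nat_lit 29, [(nat_lit 0, nat_lit 102), (nat_lit 1, nat_lit 898)])],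
 ⟨p103_k24, nat_lit 0, nat_lit 0, nat_lit 295, nat_lit 0, nat_lit 0, [nat_lit 1117452001, nat_lit 955232800], [], [nat_lit 27319765870, nat_lit 29609918386, nat_lit 30130570285, nat_lit 31834209021, nat_lit 27169667525, nat_lit 28798521121, nat_lit 29199913857, nat_lit 30342926737], nat_lit 0, nat_lit 0, nat_lit 0, nat_lit 0, nat_lit 0, nat_lit 0, [], [nat_lit 132, nat_lit 40, nat_lit 40, nat_lit 80, nat_lit 133, nat_lit 373, nat_lit 150, nat_lit 11]⟩, C1.Rw.none,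
 ⟨nat_lit 0, nat_lit 3163, ⟨.ofNat (nat_lit 216927), .ofNat (nat_lit 638543), .ofNat (nat_lit 258627), .ofNat (nat_lit 682855), .ofNat (nat_lit 252860), .ofNat (nat_lit 599993), .ofNat (nat_lit 300250), .ofNat (nat_lit 649995)⟩, ⟨.ofNat (nat_lit 20000), .ofNat (nat_lit 440207), .ofNat (nat_lit 20000), .ofNat (nat_lit 484518), .ofNat (nat_lit 20000), .ofNat (nat_lit 409993), .ofNat (nat_lit 20000), .ofNat (nat_lit 459993)⟩⟩, [⟨nat_lit 13, nat_lit 44, nat_lit 94, nat_lit 100, nat_lit 201498806⟩, ⟨nat_lit 4, nat_lit 100, nat_lit 44, nat_lit 87, nat_lit 70005877⟩]⟩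
noncomputable def b_V_900_400_20_7 : St := ⟨true, nat_lit 0, nat_lit 2, nat_lit 0, nat_lit 120, nat_lit 360, nat_lit 400, nat_lit 160, nat_lit 200, nat_lit 48, nat_lit 320, nat_lit 80, nat_lit 120, nat_lit 8, nat_lit 248, nat_lit 0, nat_lit 396, nat_lit 80, nat_lit 120, nat_lit 0, nat_lit 0, nat_lit 0, nat_lit 0⟩
theorem d_V_900_400_20_7 (h : EB TB.env) : Dead b_V_900_400_20_7 := chkB_sound0 h (T :=
(.gv
(.st (nat_lit 1)
(.spl (nat_lit 2) (nat_lit 160)
(.leaf p103_l129)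
(.spl (nat_lit 4) (nat_lit 160)
(.spl (nat_lit 2) (nat_lit 240)
(.spl (nat_lit 0) (nat_lit 380)
(.leaf p103_l130)
(.trZ (nat_lit 3) (nat_lit 100) (nat_lit 54) (nat_lit 57) (nat_lit 20) (.leaf p103_l131)))
(.trX (nat_lit 22) (nat_lit 100) (nat_lit 40) (nat_lit 100) (nat_lit 384) (.spl (nat_lit 4) (nat_lit 80)
(.trX (nat_lit 22) (nat_lit 100) (nat_lit 76) (nat_lit 82) (nat_lit 336) (.spl (nat_lit 5) (nat_lit 160)
(.leaf p103_l132)
(.leaf p103_l133)))
(.spl (nat_lit 0) (nat_lit 380)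
(.leaf p103_l134)
(.trX (nat_lit 13) (nat_lit 44) (nat_lit 90) (nat_lit 100) (nat_lit 288) (.leaf p103_l135))))))
(.spl (nat_lit 0) (nat_lit 380)
(.leaf p103_l136)
(.trX (nat_lit 13) (nat_lit 44) (nat_lit 90) (nat_lit 100) (nat_lit 288) (.trX (nat_lit 16) (nat_lit 44) (nat_lit 100) (nat_lit 92) (nat_lit 208) (.leaf p103_l137))))))
(.spl (nat_lit 2) (nat_lit 160)
(.leaf p103_l138)
(.spl (nat_lit 4) (nat_lit 160)
(.spl (nat_lit 4) (nat_lit 80)
(.trX (nat_lit 22) (nat_lit 100) (nat_lit 44) (nat_lit 82) (nat_lit 384) (.spl (nat_lit 0) (nat_lit 380)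
(.spl (nat_lit 2) (nat_lit 240)
(.leaf p103_l139)
(.trX (nat_lit 22) (nat_lit 100) (nat_lit 76) (nat_lit 82) (nat_lit 336) (.spl (nat_lit 1) (nat_lit 180)
(.trX (nat_lit 13) (nat_lit 60) (nat_lit 86) (nat_lit 100) (nat_lit 304) (.leaf p103_l140))
(.spl (nat_lit 3) (nat_lit 100)
(.spl (nat_lit 6) (nat_lit 108)
(.spl (nat_lit 2) (nat_lit 280)
(.leaf p103_l141)
(.trX (nat_lit 22) (nat_lit 100) (nat_lit 95) (nat_lit 87) (nat_lit 300) (.leaf p103_l142)))
(.leaf p103_l143))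
(.trZ (nat_lit 3) (nat_lit 100) (nat_lit 69) (nat_lit 45) (nat_lit 16) (.spl (nat_lit 6) (nat_lit 100)
(.leaf p103_l144)
(.leaf p103_l145)))))))
(.trX (nat_lit 13) (nat_lit 44) (nat_lit 90) (nat_lit 100) (nat_lit 288) (.trZ (nat_lit 3) (nat_lit 100) (nat_lit 54) (nat_lit 57) (nat_lit 20) (.spl (nat_lit 0) (nat_lit 390)
(.leaf p103_l146)
(.trX (nat_lit 13) (nat_lit 31) (nat_lit 95) (nat_lit 100) (nat_lit 264) (.trZ (nat_lit 3) (nat_lit 100) (nat_lit 39) (nat_lit 72) (nat_lit 36) (.leaf p103_l147))))))))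
(.spl (nat_lit 2) (nat_lit 240)
(.leaf p103_l148)
(.trX (nat_lit 22) (nat_lit 100) (nat_lit 40) (nat_lit 100) (nat_lit 384) (.spl (nat_lit 0) (nat_lit 380)
(.leaf p103_l149)
(.trX (nat_lit 13) (nat_lit 44) (nat_lit 90) (nat_lit 100) (nat_lit 288) (.leaf p103_l150))))))
(.spl (nat_lit 0) (nat_lit 380)
(.leaf p103_l151)
(.trX (nat_lit 13) (nat_lit 44) (nat_lit 90) (nat_lit 100) (nat_lit 288) (.trX (nat_lit 16) (nat_lit 44) (nat_lit 100) (nat_lit 92) (nat_lit 208) (.leaf p103_l152)))))))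
(.leaf p103_l153))) (by decide +kernel)

end B2
end Pool.Agent.Lib.MP_6947cd_al
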