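import Pool.Agent.Lib.MP_6947cd_al.ZB.Pre

/-!
Problem MP_6947cd_al (Chollet).  Case B, second entry in [2/5, 17/20]: certificates of the tree, part P104 (generated).
-/

set_option autoImplicit false
set_option linter.all false

namespace Pool.Agent.Lib.MP_6947cd_al
namespace B2

open Ent Fr B1 PkA

noncomputable def p104_k0 : C1.Kn := ⟨[nat_lit 20, nat_lit 140], [nat_lit 0, nat_lit 0], [(nat_lit 0, nat_lit 0, nat_lit 0), (nat_lit 0, nat_lit 0, nat_lit 0)], (nat_lit 62, nat_lit 100, nat_lit 94)⟩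
noncomputable def p104_k1 : C1.Kn := ⟨[nat_lit 20, nat_lit 60, nat_lit 120], [nat_lit 0, nat_lit 0, nat_lit 3661], [(nat_lit 0, nat_lit 0, nat_lit 0), (nat_lit 0, nat_lit 0, nat_lit 0), (nat_lit 1000, nat_lit 611, nat_lit 913)], (nat_lit 60, nat_lit 100, nat_lit 87)⟩
noncomputable def p104_k2 : C1.Kn := ⟨[nat_lit 120, nat_lit 160, nat_lit 200], [nat_lit 0, nat_lit 0, nat_lit 3198], [(nat_lit 0, nat_lit 0, nat_lit 0), (nat_lit 0, nat_lit 0, nat_lit 0), (nat_lit 572, nat_lit 1000, nat_lit 714)], (nat_lit 0, nat_lit 0, nat_lit 0)⟩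
noncomputable def p104_k3 : C1.Kn := ⟨[nat_lit 20, nat_lit 120], [nat_lit 0, nat_lit 1743], [(nat_lit 0, nat_lit 0, nat_lit 0), (nat_lit 1000, nat_lit 782, nat_lit 272)], (nat_lit 53, nat_lit 100, nat_lit 93)⟩
noncomputable def p104_k4 : C1.Kn := ⟨[nat_lit 20, nat_lit 60, nat_lit 120], [nat_lit 0, nat_lit 698, nat_lit 4166], [(nat_lit 0, nat_lit 0, nat_lit 0), (nat_lit 1000, nat_lit 782, nat_lit 272), (nat_lit 1000, nat_lit 529, nat_lit 902)], (nat_lit 53, nat_lit 100, nat_lit 93)⟩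
noncomputable def p104_k5 : C1.Kn := ⟨[nat_lit 20, nat_lit 60, nat_lit 120], [nat_lit 0, nat_lit 339, nat_lit 3911], [(nat_lit 0, nat_lit 0, nat_lit 0), (nat_lit 1000, nat_lit 894, nat_lit 132), (nat_lit 1000, nat_lit 574, nat_lit 928)], (nat_lit 57, nat_lit 100, nat_lit 87)⟩
noncomputable def p104_k6 : C1.Kn := ⟨[nat_lit 20, nat_lit 60, nat_lit 120], [nat_lit 0, nat_lit 1056, nat_lit 4422], [(nat_lit 0, nat_lit 0, nat_lit 0), (nat_lit 1000, nat_lit 671, nat_lit 411), (nat_lit 1000, nat_lit 484, nat_lit 876)], (nat_lit 49, nat_lit 100, nat_lit 92)⟩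
noncomputable def p104_k7 : C1.Kn := ⟨[nat_lit 20, nat_lit 120], [nat_lit 0, nat_lit 3531], [(nat_lit 0, nat_lit 0, nat_lit 0), (nat_lit 1000, nat_lit 558, nat_lit 551)], (nat_lit 44, nat_lit 100, nat_lit 92)⟩
noncomputable def p104_k8 : C1.Kn := ⟨[nat_lit 20, nat_lit 80, nat_lit 120], [nat_lit 0, nat_lit 2121, nat_lit 4818], [(nat_lit 0, nat_lit 0, nat_lit 0), (nat_lit 1000, nat_lit 558, nat_lit 551), (nat_lit 1000, nat_lit 443, nat_lit 981)], (nat_lit 44, nat_lit 100, nat_lit 92)⟩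
noncomputable def p104_k9 : C1.Kn := ⟨[nat_lit 120, nat_lit 180, nat_lit 200], [nat_lit 0, nat_lit 0, nat_lit 4246], [(nat_lit 0, nat_lit 0, nat_lit 0), (nat_lit 0, nat_lit 0, nat_lit 0), (nat_lit 279, nat_lit 1000, nat_lit 906)], (nat_lit 0, nat_lit 0, nat_lit 0)⟩
noncomputable def p104_k10 : C1.Kn := ⟨[nat_lit 120, nat_lit 200], [nat_lit 0, nat_lit 0], [(nat_lit 0, nat_lit 0, nat_lit 0), (nat_lit 0, nat_lit 0, nat_lit 0)], (nat_lit 0, nat_lit 0, nat_lit 0)⟩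
noncomputable def p104_k11 : C1.Kn := ⟨[nat_lit 120, nat_lit 160, nat_lit 200], [nat_lit 0, nat_lit 533, nat_lit 3597], [(nat_lit 0, nat_lit 0, nat_lit 0), (nat_lit 960, nat_lit 1000, nat_lit 200), (nat_lit 612, nat_lit 1000, nat_lit 732)], (nat_lit 0, nat_lit 0, nat_lit 0)⟩
noncomputable def p104_k12 : C1.Kn := ⟨[nat_lit 20, nat_lit 80, nat_lit 140], [nat_lit 0, nat_lit 0, nat_lit 4928], [(nat_lit 0, nat_lit 0, nat_lit 0), (nat_lit 0, nat_lit 0, nat_lit 0), (nat_lit 950, nat_lit 618, nat_lit 1000)], (nat_lit 62, nat_lit 100, nat_lit 94)⟩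
noncomputable def p104_k13 : C1.Kn := ⟨[nat_lit 20, nat_lit 100], [nat_lit 0, nat_lit 2826], [(nat_lit 0, nat_lit 0, nat_lit 0), (nat_lit 1000, nat_lit 558, nat_lit 551)], (nat_lit 44, nat_lit 100, nat_lit 87)⟩
noncomputable def p104_k14 : C1.Kn := ⟨[nat_lit 20, nat_lit 80], [nat_lit 0, nat_lit 3199], [(nat_lit 0, nat_lit 0, nat_lit 0), (nat_lit 1000, nat_lit 333, nat_lit 833)], (nat_lit 32, nat_lit 100, nat_lit 88)⟩
noncomputable def p104_k15 : C1.Kn := ⟨[nat_lit 20, nat_lit 100], [nat_lit 0, nat_lit 4265], [(nat_lit 0, nat_lit 0, nat_lit 0), (nat_lit 1000, nat_lit 333, nat_lit 833)], (nat_lit 31, nat_lit 100, nat_lit 92)⟩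
noncomputable def p104_k16 : C1.Kn := ⟨[nat_lit 20, nat_lit 60, nat_lit 120], [nat_lit 0, nat_lit 1415, nat_lit 4677], [(nat_lit 0, nat_lit 0, nat_lit 0), (nat_lit 1000, nat_lit 558, nat_lit 551), (nat_lit 1000, nat_lit 439, nat_lit 849)], (nat_lit 44, nat_lit 100, nat_lit 92)⟩
noncomputable def p104_k17 : C1.Kn := ⟨[nat_lit 20, nat_lit 80], [nat_lit 0, nat_lit 0], [(nat_lit 0, nat_lit 0, nat_lit 0), (nat_lit 0, nat_lit 0, nat_lit 0)], (nat_lit 63, nat_lit 100, nat_lit 62)⟩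
noncomputable def p104_k18 : C1.Kn := ⟨[nat_lit 100, nat_lit 160], [nat_lit 0, nat_lit 0], [(nat_lit 0, nat_lit 0, nat_lit 0), (nat_lit 0, nat_lit 0, nat_lit 0)], (nat_lit 100, nat_lit 80, nat_lit 60)⟩
noncomputable def p104_k19 : C1.Kn := ⟨[nat_lit 20, nat_lit 60, nat_lit 80], [nat_lit 0, nat_lit 0, nat_lit 1613], [(nat_lit 0, nat_lit 0, nat_lit 0), (nat_lit 0, nat_lit 0, nat_lit 0), (nat_lit 1000, nat_lit 614, nat_lit 668)], (nat_lit 63, nat_lit 100, nat_lit 62)⟩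
noncomputable def p104_k20 : C1.Kn := ⟨[nat_lit 100, nat_lit 140, nat_lit 160], [nat_lit 0, nat_lit 0, nat_lit 1280], [(nat_lit 0, nat_lit 0, nat_lit 0), (nat_lit 0, nat_lit 0, nat_lit 0), (nat_lit 800, nat_lit 1000, nat_lit 600)], (nat_lit 100, nat_lit 80, nat_lit 60)⟩
noncomputable def p104_k21 : C1.Kn := ⟨[nat_lit 20, nat_lit 60, nat_lit 80], [nat_lit 0, nat_lit 698, nat_lit 2008], [(nat_lit 0, nat_lit 0, nat_lit 0), (nat_lit 1000, nat_lit 782, nat_lit 272), (nat_lit 1000, nat_lit 540, nat_lit 733)], (nat_lit 57, nat_lit 100, nat_lit 64)⟩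
noncomputable def p104_k22 : C1.Kn := ⟨[nat_lit 20, nat_lit 60], [nat_lit 0, nat_lit 1415], [(nat_lit 0, nat_lit 0, nat_lit 0), (nat_lit 1000, nat_lit 558, nat_lit 551)], (nat_lit 49, nat_lit 100, nat_lit 68)⟩
noncomputable def p104_k23 : C1.Kn := ⟨[nat_lit 100, nat_lit 140, nat_lit 160], [nat_lit 0, nat_lit 508, nat_lit 1689], [(nat_lit 0, nat_lit 0, nat_lit 0), (nat_lit 1000, nat_lit 1000, nat_lit 198), (nat_lit 811, nat_lit 1000, nat_lit 671)], (nat_lit 100, nat_lit 86, nat_lit 60)⟩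
noncomputable def p104_k24 : C1.Kn := ⟨[nat_lit 20, nat_lit 60], [nat_lit 0, nat_lit 1056], [(nat_lit 0, nat_lit 0, nat_lit 0), (nat_lit 1000, nat_lit 671, nat_lit 411)], (nat_lit 53, nat_lit 100, nat_lit 66)⟩
noncomputable def p104_k25 : C1.Kn := ⟨[nat_lit 20, nat_lit 100], [nat_lit 0, nat_lit 0], [(nat_lit 0, nat_lit 0, nat_lit 0), (nat_lit 0, nat_lit 0, nat_lit 0)], (nat_lit 60, nat_lit 100, nat_lit 80)⟩
noncomputable def p104_k26 : C1.Kn := ⟨[nat_lit 100, nat_lit 180], [nat_lit 0, nat_lit 0], [(nat_lit 0, nat_lit 0, nat_lit 0), (nat_lit 0, nat_lit 0, nat_lit 0)], (nat_lit 100, nat_lit 60, nat_lit 80)⟩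
noncomputable def p104_k27 : C1.Kn := ⟨[nat_lit 20, nat_lit 60, nat_lit 100], [nat_lit 0, nat_lit 0, nat_lit 2559], [(nat_lit 0, nat_lit 0, nat_lit 0), (nat_lit 0, nat_lit 0, nat_lit 0), (nat_lit 1000, nat_lit 600, nat_lit 787)], (nat_lit 60, nat_lit 100, nat_lit 80)⟩
noncomputable def p104_k28 : C1.Kn := ⟨[nat_lit 100, nat_lit 140, nat_lit 180], [nat_lit 0, nat_lit 0, nat_lit 2434], [(nat_lit 0, nat_lit 0, nat_lit 0), (nat_lit 0, nat_lit 0, nat_lit 0), (nat_lit 726, nat_lit 1000, nat_lit 688)], (nat_lit 100, nat_lit 60, nat_lit 80)⟩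
noncomputable def p104_k29 : C1.Kn := ⟨[nat_lit 20, nat_lit 60, nat_lit 100], [nat_lit 0, nat_lit 339, nat_lit 2783], [(nat_lit 0, nat_lit 0, nat_lit 0), (nat_lit 1000, nat_lit 894, nat_lit 132), (nat_lit 1000, nat_lit 565, nat_lit 820)], (nat_lit 57, nat_lit 100, nat_lit 80)⟩
noncomputable def p104_k30 : C1.Kn := ⟨[nat_lit 20, nat_lit 60, nat_lit 100], [nat_lit 0, nat_lit 698, nat_lit 3028], [(nat_lit 0, nat_lit 0, nat_lit 0), (nat_lit 1000, nat_lit 782, nat_lit 272), (nat_lit 1000, nat_lit 527, nat_lit 841)], (nat_lit 53, nat_lit 100, nat_lit 80)⟩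
noncomputable def p104_k31 : C1.Kn := ⟨[nat_lit 20, nat_lit 100], [nat_lit 0, nat_lit 2826], [(nat_lit 0, nat_lit 0, nat_lit 0), (nat_lit 1000, nat_lit 558, nat_lit 551)], (nat_lit 44, nat_lit 100, nat_lit 82)⟩
noncomputable def p104_k32 : C1.Kn := ⟨[nat_lit 100, nat_lit 140, nat_lit 180], [nat_lit 0, nat_lit 508, nat_lit 2854], [(nat_lit 0, nat_lit 0, nat_lit 0), (nat_lit 1000, nat_lit 1000, nat_lit 198), (nat_lit 777, nat_lit 1000, nat_lit 712)], (nat_lit 100, nat_lit 68, nat_lit 80)⟩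
noncomputable def p104_k33 : C1.Kn := ⟨[nat_lit 20, nat_lit 60, nat_lit 100], [nat_lit 0, nat_lit 1056, nat_lit 3301], [(nat_lit 0, nat_lit 0, nat_lit 0), (nat_lit 1000, nat_lit 671, nat_lit 411), (nat_lit 1000, nat_lit 484, nat_lit 867)], (nat_lit 49, nat_lit 100, nat_lit 81)⟩
noncomputable def p104_k34 : C1.Kn := ⟨[nat_lit 20, nat_lit 60, nat_lit 80], [nat_lit 0, nat_lit 1415, nat_lit 2514], [(nat_lit 0, nat_lit 0, nat_lit 0), (nat_lit 1000, nat_lit 558, nat_lit 551), (nat_lit 1000, nat_lit 446, nat_lit 804)], (nat_lit 46, nat_lit 100, nat_lit 75)⟩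
noncomputable def p104_k35 : C1.Kn := ⟨[nat_lit 100, nat_lit 140, nat_lit 180], [nat_lit 0, nat_lit 0, nat_lit 2434], [(nat_lit 0, nat_lit 0, nat_lit 0), (nat_lit 0, nat_lit 0, nat_lit 0), (nat_lit 726, nat_lit 1000, nat_lit 688)], (nat_lit 100, nat_lit 70, nat_lit 71)⟩
noncomputable def p104_k36 : C1.Kn := ⟨[nat_lit 20, nat_lit 60, nat_lit 100], [nat_lit 0, nat_lit 1415, nat_lit 3591], [(nat_lit 0, nat_lit 0, nat_lit 0), (nat_lit 1000, nat_lit 558, nat_lit 551), (nat_lit 1000, nat_lit 439, nat_lit 849)], (nat_lit 44, nat_lit 100, nat_lit 82)⟩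
noncomputable def p104_k37 : C1.Kn := ⟨[nat_lit 20, nat_lit 60, nat_lit 80], [nat_lit 0, nat_lit 2136, nat_lit 3185], [(nat_lit 0, nat_lit 0, nat_lit 0), (nat_lit 1000, nat_lit 343, nat_lit 808), (nat_lit 1000, nat_lit 338, nat_lit 820)], (nat_lit 33, nat_lit 100, nat_lit 84)⟩
noncomputable def p104_k38 : C1.Kn := ⟨[nat_lit 20, nat_lit 60, nat_lit 100], [nat_lit 0, nat_lit 0, nat_lit 2559], [(nat_lit 0, nat_lit 0, nat_lit 0), (nat_lit 0, nat_lit 0, nat_lit 0), (nat_lit 1000, nat_lit 600, nat_lit 787)], (nat_lit 61, nat_lit 100, nat_lit 72)⟩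
noncomputable def p104_l0 : Lf2 := ⟨nat_lit 0, nat_lit 30, [nat_lit 15, nat_lit 5, nat_lit 5, nat_lit 20], true, nat_lit 8, nat_lit 248, nat_lit 0, nat_lit 396, ⟨nat_lit 0, nat_lit 0, nat_lit 1000, nat_lit 4, nat_lit 135, nat_lit 1000, nat_lit 94, nat_lit 1000, nat_lit 58017, nat_lit 274, nat_lit 173400, nat_lit 317, nat_lit 55653209, nat_lit 0, nat_lit 0, nat_lit 3001638, false, false⟩,
 nat_lit 0, nat_lit 3294, nat_lit 0, nat_lit 0, nat_lit 2868, nat_lit 0, nat_lit 0, nat_lit 0, nat_lit 0, nat_lit 0, nat_lit 0, nat_lit 0, nat_lit 0, nat_lit 0, nat_lit 108, nat_lit 250000, nat_lit 0, nat_lit 0, [(nat_lit 26, [(nat_lit 4, nat_lit 1000)]), (nat_lit 29, [(nat_lit 4, nat_lit 1000)])],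
 ⟨p104_k0, nat_lit 0, nat_lit 0, nat_lit 455, nat_lit 0, nat_lit 389058, [nat_lit 1193600000, nat_lit 686800000], [], [nat_lit 21034684360, nat_lit 24195790597, nat_lit 21549874084, nat_lit 23725692573, nat_lit 23121926870, nat_lit 24908911564, nat_lit 23782570668, nat_lit 25378542520], nat_lit 1271250, nat_lit 1271250, nat_lit 279600, nat_lit 1100001, nat_lit 43600, nat_lit 1756600, [nat_lit 230000, nat_lit 2015000], [nat_lit 132, nat_lit 40, nat_lit 40, nat_lit 80, nat_lit 133, nat_lit 345, nat_lit 125, nat_lit 10]⟩, C1.Rw.none,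
 ⟨nat_lit 0, nat_lit 3163, ⟨.ofNat (nat_lit 216927), .ofNat (nat_lit 394735), .ofNat (nat_lit 258627), .ofNat (nat_lit 436481), .ofNat (nat_lit 252860), .ofNat (nat_lit 399999), .ofNat (nat_lit 300250), .ofNat (nat_lit 447434)⟩, ⟨.ofNat (nat_lit 20000), .ofNat (nat_lit 440207), .ofNat (nat_lit 20000), .ofNat (nat_lit 484518), .ofNat (nat_lit 20000), .ofNat (nat_lit 409993), .ofNat (nat_lit 20000), .ofNat (nat_lit 459993)⟩⟩, [⟨nat_lit 0, nat_lit 100, nat_lit 44, nat_lit 86, nat_lit 107974031⟩, ⟨nat_lit 16, nat_lit 44, nat_lit 100, nat_lit 87, nat_lit 30453172⟩]⟩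
noncomputable def p104_l1 : Lf2 := ⟨nat_lit 0, nat_lit 25, [nat_lit 44, nat_lit 5, nat_lit 5, nat_lit 20], false, nat_lit 8, nat_lit 80, nat_lit 0, nat_lit 384, ⟨nat_lit 267, nat_lit 0, nat_lit 733, nat_lit 4, nat_lit 215, nat_lit 733, nat_lit 43, nat_lit 733, nat_lit 17067, nat_lit 247, nat_lit 94468, nat_lit 200, nat_lit 50793403, nat_lit 0, nat_lit 0, nat_lit 3195176, false, true⟩,
 nat_lit 0, nat_lit 2799, nat_lit 0, nat_lit 7038, nat_lit 2437, nat_lit 3350, nat_lit 0, nat_lit 0, nat_lit 0, nat_lit 236, nat_lit 0, nat_lit 0, nat_lit 0, nat_lit 0, nat_lit 42, nat_lit 290950, nat_lit 0, nat_lit 0, [(nat_lit 26, [(nat_lit 4, nat_lit 15), (nat_lit 5, nat_lit 718)])],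
 ⟨p104_k1, nat_lit 0, nat_lit 0, nat_lit 180, nat_lit 0, nat_lit 66297, [nat_lit 952931601, nat_lit 936651601, nat_lit 17511600], [], [nat_lit 20817927527, nat_lit 21376480500, nat_lit 25612363481, nat_lit 26090529968, nat_lit 20488111475, nat_lit 21009992516, nat_lit 25050496119, nat_lit 25485290987], nat_lit 1271250, nat_lit 1271250, nat_lit 1100001, nat_lit 2470000, nat_lit 43600, nat_lit 490000, [nat_lit 230000, nat_lit 780000, nat_lit 1762500], [nat_lit 54, nat_lit 40, nat_lit 40, nat_lit 80, nat_lit 43, nat_lit 317, nat_lit 100, nat_lit 10]⟩, ⟨p104_k2, nat_lit 0, nat_lit 0, nat_lit 433, nat_lit 0, nat_lit 0, [nat_lit 2127456000, nat_lit 3169824000, nat_lit 4378800000], [], [nat_lit 12724760328, nat_lit 12477195984, nat_lit 12755556072, nat_lit 12492562648, nat_lit 10349961896, nat_lit 10129657946, nat_lit 10501886194, nat_lit 10176262466], nat_lit 0, nat_lit 0, nat_lit 0, nat_lit 0, nat_lit 0, nat_lit 0,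 [], [nat_lit 97, nat_lit 40, nat_lit 40, nat_lit 80, nat_lit 76, nat_lit 483, nat_lit 250, nat_lit 10]⟩,
 ⟨nat_lit 2738, nat_lit 3163, ⟨.ofNat (nat_lit 394735), .ofNat (nat_lit 638549), .ofNat (nat_lit 439028), .ofNat (nat_lit 682859), .ofNat (nat_lit 396102), .ofNat (nat_lit 632348), .ofNat (nat_lit 440920), .ofNat (nat_lit 677182)⟩, ⟨.ofNat (nat_lit 20000), .ofNat (nat_lit 184209), .ofNat (nat_lit 20000), .ofNat (nat_lit 200000), .ofNat (nat_lit 20000), .ofNat (nat_lit 188310), .ofNat (nat_lit 20000), .ofNat (nat_lit 200000)⟩⟩, [⟨nat_lit 3, nat_lit 100, nat_lit 65, nat_lit 50, nat_lit 48809338⟩, ⟨nat_lit 10, nat_lit 100, nat_lit 75, nat_lit 63, nat_lit 49893314⟩]⟩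
noncomputable def p104_l2 : Lf2 := ⟨nat_lit 0, nat_lit 25, [nat_lit 44, nat_lit 5, nat_lit 5, nat_lit 20], true, nat_lit 80, nat_lit 160, nat_lit 0, nat_lit 396, ⟨nat_lit 0, nat_lit 354, nat_lit 646, nat_lit 4, nat_lit 215, nat_lit 1000, nat_lit 104, nat_lit 646, nat_lit 101400, nat_lit 293, nat_lit 94468, nat_lit 200, nat_lit 47616081, nat_lit 14645501, nat_lit 4738418, nat_lit 4050048, false, true⟩,
 nat_lit 0, nat_lit 3120, nat_lit 0, nat_lit 3334, nat_lit 2717, nat_lit 0, nat_lit 0, nat_lit 0, nat_lit 0, nat_lit 0, nat_lit 0, nat_lit 0, nat_lit 0, nat_lit 0, nat_lit 33, nat_lit 250000, nat_lit 0, nat_lit 0, [(nat_lit 26, [(nat_lit 0, nat_lit 354), (nat_lit 4, nat_lit 646)])],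
 ⟨p104_k1, nat_lit 0, nat_lit 0, nat_lit 139, nat_lit 0, nat_lit 66297, [nat_lit 873310400, nat_lit 661432001, nat_lit 19760800], [], [nat_lit 19854065424, nat_lit 20458664284, nat_lit 24693305980, nat_lit 25172550672, nat_lit 20765848148, nat_lit 21316541014, nat_lit 25180163092, nat_lit 25603950943], nat_lit 1271250, nat_lit 1271250, nat_lit 1100001, nat_lit 2470000, nat_lit 490000, nat_lit 1100001, [nat_lit 230000, nat_lit 780000, nat_lit 1762500], [nat_lit 54, nat_lit 40, nat_lit 40, nat_lit 80, nat_lit 43, nat_lit 345, nat_lit 125, nat_lit 10]⟩, C1.Rw.none,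
 ⟨nat_lit 2738, nat_lit 3163, ⟨.ofNat (nat_lit 394735), .ofNat (nat_lit 638549), .ofNat (nat_lit 439028), .ofNat (nat_lit 682859), .ofNat (nat_lit 396102), .ofNat (nat_lit 632348), .ofNat (nat_lit 440920), .ofNat (nat_lit 677182)⟩, ⟨.ofNat (nat_lit 184209), .ofNat (nat_lit 306116), .ofNat (nat_lit 200000), .ofNat (nat_lit 350426), .ofNat (nat_lit 188310), .ofNat (nat_lit 306433), .ofNat (nat_lit 200000), .ofNat (nat_lit 351268)⟩⟩, [⟨nat_lit 13, nat_lit 57, nat_lit 88, nat_lit 100, nat_lit 239185372⟩]⟩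
noncomputable def p104_l3 : Lf2 := ⟨nat_lit 1, nat_lit 30, [nat_lit 15, nat_lit 5, nat_lit 5, nat_lit 20], false, nat_lit 8, nat_lit 160, nat_lit 0, nat_lit 396, zbN0,
 nat_lit 0, nat_lit 0, nat_lit 0, nat_lit 0, nat_lit 0, nat_lit 0, nat_lit 0, nat_lit 0, nat_lit 0, nat_lit 0, nat_lit 0, nat_lit 0, nat_lit 0, nat_lit 0, nat_lit 0, nat_lit 0, nat_lit 0, nat_lit 0, [],
 C1.Rw.none, C1.Rw.none,
 zbF0, []⟩
noncomputable def p104_l4 : Lf2 := ⟨nat_lit 0, nat_lit 30, [nat_lit 15, nat_lit 5, nat_lit 5, nat_lit 20], true, nat_lit 12, nat_lit 80, nat_lit 0, nat_lit 384, ⟨nat_lit 0, nat_lit 116, nat_lit 884, nat_lit 4, nat_lit 191, nat_lit 1000, nat_lit 45, nat_lit 884, nat_lit 19267, nat_lit 249, nat_lit 3407, nat_lit 228, nat_lit 53194545, nat_lit 12444752, nat_lit 1360703, nat_lit 2978509, false, true⟩,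
 nat_lit 0, nat_lit 3389, nat_lit 0, nat_lit 930, nat_lit 3058, nat_lit 0, nat_lit 0, nat_lit 0, nat_lit 0, nat_lit 0, nat_lit 0, nat_lit 0, nat_lit 0, nat_lit 0, nat_lit 62, nat_lit 205800, nat_lit 0, nat_lit 0, [(nat_lit 26, [(nat_lit 0, nat_lit 116), (nat_lit 3, nat_lit 884)])],
 ⟨p104_k3, nat_lit 0, nat_lit 0, nat_lit 245, nat_lit 0, nat_lit 168280, [nat_lit 1351641600, nat_lit 11484800], [], [nat_lit 22007337596, nat_lit 22630313329, nat_lit 23978632747, nat_lit 24528685681, nat_lit 21425259092, nat_lit 22015409552, nat_lit 23337332624, nat_lit 23859673760], nat_lit 1271250, nat_lit 1271250, nat_lit 1100001, nat_lit 1785000, nat_lit 65850, nat_lit 490000, [nat_lit 230000, nat_lit 1717500], [nat_lit 141, nat_lit 40, nat_lit 40, nat_lit 80, nat_lit 142, nat_lit 317, nat_lit 100, nat_lit 10]⟩, C1.Rw.none,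
 ⟨nat_lit 2236, nat_lit 2739, ⟨.ofNat (nat_lit 396102), .ofNat (nat_lit 514225), .ofNat (nat_lit 440903), .ofNat (nat_lit 559060), .ofNat (nat_lit 397434), .ofNat (nat_lit 511466), .ofNat (nat_lit 442949), .ofNat (nat_lit 557014)⟩, ⟨.ofNat (nat_lit 30000), .ofNat (nat_lit 188310), .ofNat (nat_lit 30000), .ofNat (nat_lit 200000), .ofNat (nat_lit 30000), .ofNat (nat_lit 192306), .ofNat (nat_lit 30000), .ofNat (nat_lit 200000)⟩⟩, [⟨nat_lit 3, nat_lit 100, nat_lit 56, nat_lit 60, nat_lit 287184492⟩]⟩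
noncomputable def p104_l5 : Lf2 := ⟨nat_lit 0, nat_lit 30, [nat_lit 15, nat_lit 5, nat_lit 5, nat_lit 20], false, nat_lit 12, nat_lit 80, nat_lit 0, nat_lit 336, ⟨nat_lit 318, nat_lit 0, nat_lit 682, nat_lit 6, nat_lit 234, nat_lit 682, nat_lit 45, nat_lit 682, nat_lit 19267, nat_lit 249, nat_lit 47678, nat_lit 200, nat_lit 48726732, nat_lit 0, nat_lit 0, nat_lit 3395826, false, true⟩,
 nat_lit 0, nat_lit 2980, nat_lit 0, nat_lit 7691, nat_lit 2689, nat_lit 4086, nat_lit 88, nat_lit 0, nat_lit 0, nat_lit 304, nat_lit 0, nat_lit 0, nat_lit 0, nat_lit 0, nat_lit 0, nat_lit 170500, nat_lit 0, nat_lit 0, [(nat_lit 26, [(nat_lit 4, nat_lit 682)])],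
 ⟨p104_k4, nat_lit 0, nat_lit 0, nat_lit 246, nat_lit 0, nat_lit 168280, [nat_lit 794780001, nat_lit 812341601, nat_lit 779447200], [], [nat_lit 23947721042, nat_lit 24478511462, nat_lit 26220663993, nat_lit 26692487217, nat_lit 23490385948, nat_lit 23961532964, nat_lit 25617342165, nat_lit 26067721235], nat_lit 1271250, nat_lit 1271250, nat_lit 1271250, nat_lit 1271250, nat_lit 65850, nat_lit 490000, [nat_lit 230000, nat_lit 780000, nat_lit 1762500], [nat_lit 54, nat_lit 40, nat_lit 40, nat_lit 80, nat_lit 43, nat_lit 226, nat_lit 20, nat_lit 6]⟩, ⟨p104_k2, nat_lit 0, nat_lit 0, nat_lit 409, nat_lit 0, nat_lit 0, [nat_lit 2533824000, nat_lit 3775296000, nat_lit 5215200000], [], [nat_lit 14337888840, nat_lit 13984728264, nat_lit 14782982141, nat_lit 14490304525, nat_lit 10721600156, nat_lit 10483028290, nat_lit 11301306398, nat_lit 10983904534], nat_lit 0, nat_lit 0, nat_lit 0, nat_lit 0, nat_lit 0, nat_lit 0,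 [], [nat_lit 97, nat_lit 40, nat_lit 40, nat_lit 80, nat_lit 76, nat_lit 456, nat_lit 225, nat_lit 10]⟩,
 ⟨nat_lit 2236, nat_lit 2739, ⟨.ofNat (nat_lit 514225), .ofNat (nat_lit 614629), .ofNat (nat_lit 559060), .ofNat (nat_lit 659464), .ofNat (nat_lit 511466), .ofNat (nat_lit 608392), .ofNat (nat_lit 557014), .ofNat (nat_lit 653941)⟩, ⟨.ofNat (nat_lit 30000), .ofNat (nat_lit 188310), .ofNat (nat_lit 30000), .ofNat (nat_lit 200000), .ofNat (nat_lit 30000), .ofNat (nat_lit 192306), .ofNat (nat_lit 30000), .ofNat (nat_lit 200000)⟩⟩, [⟨nat_lit 13, nat_lit 49, nat_lit 92, nat_lit 100, nat_lit 166811663⟩, ⟨nat_lit 3, nat_lit 100, nat_lit 56, nat_lit 60, nat_lit 109781004⟩, ⟨nat_lit 22, nat_lit 98, nat_lit 100, nat_lit 67, nat_lit 12269161⟩]⟩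
noncomputable def p104_l6 : Lf2 := ⟨nat_lit 0, nat_lit 30, [nat_lit 15, nat_lit 5, nat_lit 5, nat_lit 20], true, nat_lit 80, nat_lit 160, nat_lit 0, nat_lit 396, ⟨nat_lit 0, nat_lit 277, nat_lit 723, nat_lit 4, nat_lit 211, nat_lit 1000, nat_lit 105, nat_lit 723, nat_lit 104017, nat_lit 294, nat_lit 47678, nat_lit 200, nat_lit 48000145, nat_lit 14212673, nat_lit 4787182, nat_lit 4019067, false, true⟩,
 nat_lit 0, nat_lit 2853, nat_lit 0, nat_lit 2518, nat_lit 2574, nat_lit 0, nat_lit 0, nat_lit 0, nat_lit 0, nat_lit 0, nat_lit 0, nat_lit 0, nat_lit 0, nat_lit 0, nat_lit 49, nat_lit 250000, nat_lit 0, nat_lit 0, [(nat_lit 26, [(nat_lit 0, nat_lit 277), (nat_lit 4, nat_lit 723)])],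
 ⟨p104_k4, nat_lit 0, nat_lit 0, nat_lit 165, nat_lit 0, nat_lit 168280, [nat_lit 934415200, nat_lit 721916001, nat_lit 12200400], [], [nat_lit 20424460176, nat_lit 21001036912, nat_lit 24578695592, nat_lit 25032034060, nat_lit 21349719408, nat_lit 21875674168, nat_lit 25178347520, nat_lit 25596129840], nat_lit 1271250, nat_lit 1271250, nat_lit 1100001, nat_lit 2367250, nat_lit 490000, nat_lit 1100001, [nat_lit 230000, nat_lit 780000, nat_lit 1762500], [nat_lit 54, nat_lit 40, nat_lit 40, nat_lit 80, nat_lit 43, nat_lit 345, nat_lit 125, nat_lit 10]⟩, C1.Rw.none,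
 ⟨nat_lit 2236, nat_lit 2739, ⟨.ofNat (nat_lit 396102), .ofNat (nat_lit 614629), .ofNat (nat_lit 440903), .ofNat (nat_lit 659464), .ofNat (nat_lit 397434), .ofNat (nat_lit 608392), .ofNat (nat_lit 442949), .ofNat (nat_lit 653941)⟩, ⟨.ofNat (nat_lit 188310), .ofNat (nat_lit 306433), .ofNat (nat_lit 200000), .ofNat (nat_lit 351268), .ofNat (nat_lit 192306), .ofNat (nat_lit 306337), .ofNat (nat_lit 200000), .ofNat (nat_lit 351886)⟩⟩, [⟨nat_lit 13, nat_lit 49, nat_lit 92, nat_lit 100, nat_lit 275447021⟩]⟩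
noncomputable def p104_l7 : Lf2 := ⟨nat_lit 0, nat_lit 25, [nat_lit 44, nat_lit 5, nat_lit 5, nat_lit 20], true, nat_lit 160, nat_lit 248, nat_lit 0, nat_lit 396, ⟨nat_lit 0, nat_lit 1000, nat_lit 0, nat_lit 4, nat_lit 215, nat_lit 1000, nat_lit 158, nat_lit 0, nat_lit 0, nat_lit 0, nat_lit 0, nat_lit 0, nat_lit 44183333, nat_lit 14143119, nat_lit 8673548, nat_lit 4659472, false, true⟩,
 nat_lit 0, nat_lit 3300, nat_lit 0, nat_lit 5461, nat_lit 2874, nat_lit 0, nat_lit 0, nat_lit 0, nat_lit 0, nat_lit 0, nat_lit 0, nat_lit 0, nat_lit 0, nat_lit 0, nat_lit 0, nat_lit 250000, nat_lit 0, nat_lit 0, [(nat_lit 26, [(nat_lit 0, nat_lit 1000)])],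
 ⟨p104_k1, nat_lit 0, nat_lit 0, nat_lit 58, nat_lit 0, nat_lit 25428, [nat_lit 765600000, nat_lit 1368800000, nat_lit 2512800000], [], [nat_lit 19877745992, nat_lit 20214850943, nat_lit 25275309808, nat_lit 25540023984, nat_lit 22444643059, nat_lit 22739264964, nat_lit 27116729576, nat_lit 27348798232], nat_lit 1271250, nat_lit 1271250, nat_lit 1100001, nat_lit 2470000, nat_lit 1100001, nat_lit 1853500, [nat_lit 230000, nat_lit 780000, nat_lit 1762500], [nat_lit 54, nat_lit 40, nat_lit 40, nat_lit 80, nat_lit 43, nat_lit 373, nat_lit 150, nat_lit 11]⟩, C1.Rw.none,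
 ⟨nat_lit 2958, nat_lit 3163, ⟨.ofNat (nat_lit 394735), .ofNat (nat_lit 638549), .ofNat (nat_lit 439042), .ofNat (nat_lit 682859), .ofNat (nat_lit 395423), .ofNat (nat_lit 635507), .ofNat (nat_lit 439975), .ofNat (nat_lit 680062)⟩, ⟨.ofNat (nat_lit 306116), .ofNat (nat_lit 440213), .ofNat (nat_lit 350426), .ofNat (nat_lit 484523), .ofNat (nat_lit 306315), .ofNat (nat_lit 438361), .ofNat (nat_lit 350869), .ofNat (nat_lit 482915)⟩⟩, [⟨nat_lit 13, nat_lit 60, nat_lit 80, nat_lit 100, nat_lit 182670901⟩, ⟨nat_lit 16, nat_lit 59, nat_lit 100, nat_lit 87, nat_lit 182174429⟩]⟩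
noncomputable def p104_l8 : Lf2 := ⟨nat_lit 0, nat_lit 25, [nat_lit 44, nat_lit 5, nat_lit 5, nat_lit 20], true, nat_lit 160, nat_lit 240, nat_lit 0, nat_lit 396, ⟨nat_lit 0, nat_lit 323, nat_lit 677, nat_lit 4, nat_lit 214, nat_lit 1000, nat_lit 155, nat_lit 677, nat_lit 94392, nat_lit 290, nat_lit 76868, nat_lit 200, nat_lit 44496526, nat_lit 14026421, nat_lit 8477053, nat_lit 4621123, false, true⟩,
 nat_lit 0, nat_lit 2774, nat_lit 0, nat_lit 4567, nat_lit 2459, nat_lit 0, nat_lit 0, nat_lit 0, nat_lit 0, nat_lit 0, nat_lit 0, nat_lit 0, nat_lit 0, nat_lit 0, nat_lit 39, nat_lit 250000, nat_lit 0, nat_lit 0, [(nat_lit 26, [(nat_lit 0, nat_lit 323), (nat_lit 4, nat_lit 677)])],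
 ⟨p104_k5, nat_lit 0, nat_lit 0, nat_lit 94, nat_lit 0, nat_lit 64745, [nat_lit 896144801, nat_lit 680484001, nat_lit 6119600], [], [nat_lit 21036412244, nat_lit 21307044691, nat_lit 25263873712, nat_lit 25474551903, nat_lit 22892060791, nat_lit 23132796880, nat_lit 26643249982, nat_lit 26833003671], nat_lit 1271250, nat_lit 1271250, nat_lit 1100001, nat_lit 2435750, nat_lit 1100001, nat_lit 1785000, [nat_lit 230000, nat_lit 780000, nat_lit 1762500], [nat_lit 54, nat_lit 40, nat_lit 40, nat_lit 80, nat_lit 43, nat_lit 373, nat_lit 150, nat_lit 11]⟩, C1.Rw.none,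
 ⟨nat_lit 2738, nat_lit 2959, ⟨.ofNat (nat_lit 395423), .ofNat (nat_lit 629505), .ofNat (nat_lit 439974), .ofNat (nat_lit 674059), .ofNat (nat_lit 396102), .ofNat (nat_lit 626442), .ofNat (nat_lit 440933), .ofNat (nat_lit 671276)⟩, ⟨.ofNat (nat_lit 306315), .ofNat (nat_lit 426357), .ofNat (nat_lit 350869), .ofNat (nat_lit 470911), .ofNat (nat_lit 306433), .ofNat (nat_lit 424556), .ofNat (nat_lit 351268), .ofNat (nat_lit 469390)⟩⟩, [⟨nat_lit 13, nat_lit 55, nat_lit 89, nat_lit 100, nat_lit 223453650⟩, ⟨nat_lit 4, nat_lit 100, nat_lit 55, nat_lit 87, nat_lit 189068128⟩]⟩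
noncomputable def p104_l9 : Lf2 := ⟨nat_lit 1, nat_lit 30, [nat_lit 15, nat_lit 5, nat_lit 5, nat_lit 20], false, nat_lit 160, nat_lit 248, nat_lit 0, nat_lit 396, zbN0,
 nat_lit 0, nat_lit 0, nat_lit 0, nat_lit 0, nat_lit 0, nat_lit 0, nat_lit 0, nat_lit 0, nat_lit 0, nat_lit 0, nat_lit 0, nat_lit 0, nat_lit 0, nat_lit 0, nat_lit 0, nat_lit 0, nat_lit 0, nat_lit 0, [],
 C1.Rw.none, C1.Rw.none,
 zbF0, []⟩
noncomputable def p104_l10 : Lf2 := ⟨nat_lit 0, nat_lit 30, [nat_lit 15, nat_lit 5, nat_lit 5, nat_lit 20], true, nat_lit 160, nat_lit 232, nat_lit 0, nat_lit 396, ⟨nat_lit 0, nat_lit 260, nat_lit 740, nat_lit 4, nat_lit 211, nat_lit 1000, nat_lit 153, nat_lit 740, nat_lit 156817, nat_lit 312, nat_lit 47678, nat_lit 200, nat_lit 44905096, nat_lit 13802349, nat_lit 8292555, nat_lit 4573649, false, true⟩,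
 nat_lit 0, nat_lit 2717, nat_lit 0, nat_lit 4472, nat_lit 2451, nat_lit 0, nat_lit 0, nat_lit 0, nat_lit 0, nat_lit 0, nat_lit 0, nat_lit 0, nat_lit 0, nat_lit 0, nat_lit 53, nat_lit 250000, nat_lit 0, nat_lit 0, [(nat_lit 26, [(nat_lit 0, nat_lit 260), (nat_lit 4, nat_lit 740)])],
 ⟨p104_k4, nat_lit 0, nat_lit 0, nat_lit 127, nat_lit 0, nat_lit 118260, [nat_lit 949776001, nat_lit 740880001, nat_lit 21752000], [], [nat_lit 20992025811, nat_lit 21262312394, nat_lit 24897834421, nat_lit 25111472845, nat_lit 22635393790, nat_lit 22878829038, nat_lit 26373496012, nat_lit 26611172083], nat_lit 1271250, nat_lit 1271250, nat_lit 1100001, nat_lit 2367250, nat_lit 1100001, nat_lit 1716500, [nat_lit 230000, nat_lit 780000, nat_lit 1762500], [nat_lit 54, nat_lit 40, nat_lit 40, nat_lit 80, nat_lit 43, nat_lit 373, nat_lit 150, nat_lit 11]⟩, C1.Rw.none,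
 ⟨nat_lit 2500, nat_lit 2739, ⟨.ofNat (nat_lit 396102), .ofNat (nat_lit 614629), .ofNat (nat_lit 440931), .ofNat (nat_lit 659464), .ofNat (nat_lit 396773), .ofNat (nat_lit 611611), .ofNat (nat_lit 441928), .ofNat (nat_lit 656773)⟩, ⟨.ofNat (nat_lit 306433), .ofNat (nat_lit 412743), .ofNat (nat_lit 351268), .ofNat (nat_lit 457578), .ofNat (nat_lit 306450), .ofNat (nat_lit 410966), .ofNat (nat_lit 351611), .ofNat (nat_lit 456128)⟩⟩, [⟨nat_lit 13, nat_lit 53, nat_lit 85, nat_lit 100, nat_lit 250637114⟩, ⟨nat_lit 16, nat_lit 51, nat_lit 100, nat_lit 87, nat_lit 244077709⟩]⟩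
noncomputable def p104_l11 : Lf2 := ⟨nat_lit 0, nat_lit 30, [nat_lit 15, nat_lit 5, nat_lit 5, nat_lit 20], true, nat_lit 160, nat_lit 220, nat_lit 0, nat_lit 396, ⟨nat_lit 0, nat_lit 264, nat_lit 736, nat_lit 4, nat_lit 208, nat_lit 1000, nat_lit 149, nat_lit 736, nat_lit 209067, nat_lit 327, nat_lit 19070, nat_lit 200, nat_lit 45387631, nat_lit 13592888, nat_lit 8019481, nat_lit 4513669, false, true⟩,
 nat_lit 0, nat_lit 2762, nat_lit 0, nat_lit 3765, nat_lit 2536, nat_lit 0, nat_lit 0, nat_lit 0, nat_lit 0, nat_lit 0, nat_lit 0, nat_lit 0, nat_lit 0, nat_lit 0, nat_lit 52, nat_lit 250000, nat_lit 0, nat_lit 0, [(nat_lit 26, [(nat_lit 0, nat_lit 264), (nat_lit 4, nat_lit 736)])],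
 ⟨p104_k6, nat_lit 0, nat_lit 0, nat_lit 139, nat_lit 0, nat_lit 164427, [nat_lit 945926400, nat_lit 735712001, nat_lit 18092800], [], [nat_lit 21372726176, nat_lit 21640479840, nat_lit 24934645688, nat_lit 25149584000, nat_lit 22709478149, nat_lit 22955115492, nat_lit 26153201663, nat_lit 26396804118], nat_lit 1271250, nat_lit 1271250, nat_lit 1100001, nat_lit 2298750, nat_lit 1100001, nat_lit 1613750, [nat_lit 230000, nat_lit 780000, nat_lit 1762500], [nat_lit 54, nat_lit 40, nat_lit 40, nat_lit 80, nat_lit 43, nat_lit 373, nat_lit 150, nat_lit 11]⟩, C1.Rw.none,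
 ⟨nat_lit 2236, nat_lit 2500, ⟨.ofNat (nat_lit 396773), .ofNat (nat_lit 599999), .ofNat (nat_lit 441925), .ofNat (nat_lit 645160), .ofNat (nat_lit 397434), .ofNat (nat_lit 596989), .ofNat (nat_lit 442974), .ofNat (nat_lit 642537)⟩, ⟨.ofNat (nat_lit 306450), .ofNat (nat_lit 393547), .ofNat (nat_lit 351611), .ofNat (nat_lit 438708), .ofNat (nat_lit 306337), .ofNat (nat_lit 391861), .ofNat (nat_lit 351886), .ofNat (nat_lit 437409)⟩⟩, [⟨nat_lit 13, nat_lit 48, nat_lit 88, nat_lit 100, nat_lit 270670333⟩, ⟨nat_lit 4, nat_lit 100, nat_lit 46, nat_lit 87, nat_lit 267143475⟩]⟩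
noncomputable def p104_l12 : Lf2 := ⟨nat_lit 0, nat_lit 30, [nat_lit 15, nat_lit 5, nat_lit 5, nat_lit 20], true, nat_lit 20, nat_lit 80, nat_lit 0, nat_lit 384, ⟨nat_lit 0, nat_lit 178, nat_lit 822, nat_lit 4, nat_lit 190, nat_lit 1000, nat_lit 50, nat_lit 822, nat_lit 22817, nat_lit 252, nat_lit 4310, nat_lit 229, nat_lit 53054156, nat_lit 12371038, nat_lit 1574806, nat_lit 3038574, false, true⟩,
 nat_lit 0, nat_lit 2789, nat_lit 0, nat_lit 0, nat_lit 2605, nat_lit 0, nat_lit 0, nat_lit 0, nat_lit 0, nat_lit 0, nat_lit 0, nat_lit 0, nat_lit 0, nat_lit 0, nat_lit 98, nat_lit 250000, nat_lit 0, nat_lit 0, [(nat_lit 29, [(nat_lit 0, nat_lit 178), (nat_lit 4, nat_lit 822)])],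
 ⟨p104_k7, nat_lit 0, nat_lit 0, nat_lit 320, nat_lit 0, nat_lit 354403, [nat_lit 1157160001, nat_lit 198141600], [], [nat_lit 21671781750, nat_lit 22828816500, nat_lit 23530898811, nat_lit 24922606490, nat_lit 21465224977, nat_lit 22509038007, nat_lit 23286817618, nat_lit 24474697828], nat_lit 1271250, nat_lit 1271250, nat_lit 1100001, nat_lit 1785000, nat_lit 111251, nat_lit 490000, [nat_lit 230000, nat_lit 1717500], [nat_lit 141, nat_lit 40, nat_lit 40, nat_lit 80, nat_lit 142, nat_lit 317, nat_lit 100, nat_lit 10]⟩, C1.Rw.none,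
 ⟨nat_lit 0, nat_lit 2237, ⟨.ofNat (nat_lit 397434), .ofNat (nat_lit 511462), .ofNat (nat_lit 441142), .ofNat (nat_lit 557013), .ofNat (nat_lit 399999), .ofNat (nat_lit 499995), .ofNat (nat_lit 448157), .ofNat (nat_lit 549998)⟩, ⟨.ofNat (nat_lit 50000), .ofNat (nat_lit 192306), .ofNat (nat_lit 50000), .ofNat (nat_lit 200000), .ofNat (nat_lit 50000), .ofNat (nat_lit 199999), .ofNat (nat_lit 50000), .ofNat (nat_lit 200000)⟩⟩, [⟨nat_lit 3, nat_lit 100, nat_lit 36, nat_lit 77, nat_lit 401672440⟩]⟩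
noncomputable def p104_l13 : Lf2 := ⟨nat_lit 0, nat_lit 30, [nat_lit 15, nat_lit 5, nat_lit 5, nat_lit 20], false, nat_lit 20, nat_lit 80, nat_lit 0, nat_lit 336, ⟨nat_lit 312, nat_lit 0, nat_lit 688, nat_lit 6, nat_lit 225, nat_lit 688, nat_lit 50, nat_lit 688, nat_lit 22817, nat_lit 252, nat_lit 4626, nat_lit 204, nat_lit 49499617, nat_lit 0, nat_lit 0, nat_lit 3383034, false, true⟩,
 nat_lit 0, nat_lit 3027, nat_lit 0, nat_lit 2313, nat_lit 2828, nat_lit 4649, nat_lit 0, nat_lit 0, nat_lit 0, nat_lit 140, nat_lit 0, nat_lit 0, nat_lit 0, nat_lit 0, nat_lit 17, nat_lit 207550, nat_lit 0, nat_lit 0, [(nat_lit 29, [(nat_lit 4, nat_lit 451), (nat_lit 5, nat_lit 237)])],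
 ⟨p104_k8, nat_lit 0, nat_lit 0, nat_lit 299, nat_lit 0, nat_lit 354403, [nat_lit 844820801, nat_lit 225080880, nat_lit 324634800], [], [nat_lit 24608232641, nat_lit 25788383948, nat_lit 26207366498, nat_lit 27289627636, nat_lit 24130442165, nat_lit 25141916117, nat_lit 25581290564, nat_lit 26511891730], nat_lit 1271250, nat_lit 1271250, nat_lit 1271250, nat_lit 1271250, nat_lit 111251, nat_lit 490000, [nat_lit 230000, nat_lit 1100000, nat_lit 1785000], [nat_lit 57, nat_lit 40, nat_lit 40, nat_lit 80, nat_lit 7, nat_lit 226, nat_lit 20, nat_lit 6]⟩, ⟨p104_k9, nat_lit 0, nat_lit 0, nat_lit 411, nat_lit 0, nat_lit 0, [nat_lit 2486016000, nat_lit 4386096000, nat_lit 5116800000], [], [nat_lit 14712664568, nat_lit 14667425188, nat_lit 15716921159, nat_lit 15568107556, nat_lit 11555431457, nat_lit 11244495347, nat_lit 11907354743, nat_lit 11585442284], nat_lit 0, nat_lit 0, nat_lit 0, nat_lit 0, nat_lit 0, nat_lit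 0, [], [nat_lit 202, nat_lit 40, nat_lit 40, nat_lit 80, nat_lit 204, nat_lit 456, nat_lit 225, nat_lit 10]⟩,
 ⟨nat_lit 0, nat_lit 2237, ⟨.ofNat (nat_lit 511462), .ofNat (nat_lit 579878), .ofNat (nat_lit 557013), .ofNat (nat_lit 625429), .ofNat (nat_lit 499995), .ofNat (nat_lit 559993), .ofNat (nat_lit 549998), .ofNat (nat_lit 609995)⟩, ⟨.ofNat (nat_lit 50000), .ofNat (nat_lit 192306), .ofNat (nat_lit 50000), .ofNat (nat_lit 200000), .ofNat (nat_lit 50000), .ofNat (nat_lit 199999), .ofNat (nat_lit 50000), .ofNat (nat_lit 200000)⟩⟩, [⟨nat_lit 13, nat_lit 31, nat_lit 98, nat_lit 100, nat_lit 301872744⟩, ⟨nat_lit 3, nat_lit 100, nat_lit 36, nat_lit 77, nat_lit 236868065⟩]⟩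
noncomputable def p104_l14 : Lf2 := ⟨nat_lit 0, nat_lit 30, [nat_lit 15, nat_lit 5, nat_lit 5, nat_lit 20], true, nat_lit 80, nat_lit 160, nat_lit 0, nat_lit 396, ⟨nat_lit 0, nat_lit 305, nat_lit 695, nat_lit 4, nat_lit 203, nat_lit 1000, nat_lit 105, nat_lit 695, nat_lit 104017, nat_lit 294, nat_lit 4626, nat_lit 204, nat_lit 48700422, nat_lit 13473486, nat_lit 4826092, nat_lit 3954102, false, true⟩,
 nat_lit 0, nat_lit 3005, nat_lit 0, nat_lit 0, nat_lit 2807, nat_lit 0, nat_lit 0, nat_lit 0, nat_lit 0, nat_lit 0, nat_lit 0, nat_lit 0, nat_lit 0, nat_lit 0, nat_lit 69, nat_lit 250000, nat_lit 0, nat_lit 0, [(nat_lit 29, [(nat_lit 0, nat_lit 305), (nat_lit 4, nat_lit 695)])],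
 ⟨p104_k7, nat_lit 0, nat_lit 0, nat_lit 257, nat_lit 0, nat_lit 354403, [nat_lit 1043700001, nat_lit 146946000], [], [nat_lit 21173370400, nat_lit 22279759514, nat_lit 24457399399, nat_lit 25808572072, nat_lit 22037070386, nat_lit 23046065858, nat_lit 25093549321, nat_lit 26145502758], nat_lit 1271250, nat_lit 1271250, nat_lit 1100001, nat_lit 2196000, nat_lit 490000, nat_lit 1100001, [nat_lit 230000, nat_lit 1717500], [nat_lit 141, nat_lit 40, nat_lit 40, nat_lit 80, nat_lit 142, nat_lit 345, nat_lit 125, nat_lit 10]⟩, C1.Rw.none,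
 ⟨nat_lit 0, nat_lit 2237, ⟨.ofNat (nat_lit 397434), .ofNat (nat_lit 579878), .ofNat (nat_lit 441142), .ofNat (nat_lit 625429), .ofNat (nat_lit 399999), .ofNat (nat_lit 559993), .ofNat (nat_lit 448157), .ofNat (nat_lit 609995)⟩, ⟨.ofNat (nat_lit 192306), .ofNat (nat_lit 306334), .ofNat (nat_lit 200000), .ofNat (nat_lit 351885), .ofNat (nat_lit 199999), .ofNat (nat_lit 299996), .ofNat (nat_lit 200000), .ofNat (nat_lit 349998)⟩⟩, [⟨nat_lit 13, nat_lit 31, nat_lit 98, nat_lit 100, nat_lit 251291509⟩, ⟨nat_lit 13, nat_lit 44, nat_lit 90, nat_lit 100, nat_lit 112200360⟩]⟩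
noncomputable def p104_l15 : Lf2 := ⟨nat_lit 0, nat_lit 30, [nat_lit 15, nat_lit 5, nat_lit 5, nat_lit 20], true, nat_lit 160, nat_lit 208, nat_lit 0, nat_lit 396, ⟨nat_lit 0, nat_lit 400, nat_lit 600, nat_lit 4, nat_lit 203, nat_lit 1000, nat_lit 144, nat_lit 600, nat_lit 194400, nat_lit 323, nat_lit 4626, nat_lit 204, nat_lit 46174622, nat_lit 13176104, nat_lit 7649274, nat_lit 4416691, false, true⟩,
 nat_lit 0, nat_lit 3121, nat_lit 0, nat_lit 1317, nat_lit 2915, nat_lit 0, nat_lit 0, nat_lit 0, nat_lit 0, nat_lit 0, nat_lit 0, nat_lit 0, nat_lit 0, nat_lit 0, nat_lit 47, nat_lit 250000, nat_lit 0, nat_lit 0, [(nat_lit 29, [(nat_lit 0, nat_lit 400), (nat_lit 4, nat_lit 600)])],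
 ⟨p104_k7, nat_lit 0, nat_lit 0, nat_lit 239, nat_lit 0, nat_lit 354403, [nat_lit 957600001, nat_lit 101280000], [], [nat_lit 21933936015, nat_lit 22986151545, nat_lit 25014329250, nat_lit 26266250968, nat_lit 22948471294, nat_lit 23930947605, nat_lit 26027240489, nat_lit 27190558836], nat_lit 1271250, nat_lit 1271250, nat_lit 1100001, nat_lit 2196000, nat_lit 1100001, nat_lit 1511000, [nat_lit 230000, nat_lit 1717500], [nat_lit 141, nat_lit 40, nat_lit 40, nat_lit 80, nat_lit 142, nat_lit 345, nat_lit 125, nat_lit 10]⟩, C1.Rw.none,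
 ⟨nat_lit 0, nat_lit 2237, ⟨.ofNat (nat_lit 397434), .ofNat (nat_lit 579878), .ofNat (nat_lit 441142), .ofNat (nat_lit 625429), .ofNat (nat_lit 399999), .ofNat (nat_lit 559993), .ofNat (nat_lit 448157), .ofNat (nat_lit 609995)⟩, ⟨.ofNat (nat_lit 306334), .ofNat (nat_lit 374750), .ofNat (nat_lit 351885), .ofNat (nat_lit 420300), .ofNat (nat_lit 299996), .ofNat (nat_lit 359993), .ofNat (nat_lit 349998), .ofNat (nat_lit 409994)⟩⟩, [⟨nat_lit 13, nat_lit 44, nat_lit 90, nat_lit 100, nat_lit 261368758⟩, ⟨nat_lit 16, nat_lit 32, nat_lit 100, nat_lit 88, nat_lit 399554126⟩]⟩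
noncomputable def b_V_900_400_20_8 : St := ⟨true, nat_lit 1, nat_lit 0, nat_lit 1, nat_lit 120, nat_lit 360, nat_lit 400, nat_lit 160, nat_lit 200, nat_lit 48, nat_lit 320, nat_lit 80, nat_lit 120, nat_lit 8, nat_lit 248, nat_lit 0, nat_lit 396, nat_lit 80, nat_lit 120, nat_lit 0, nat_lit 0, nat_lit 0, nat_lit 0⟩
theorem d_V_900_400_20_8 (h : EB TB.env) : Dead b_V_900_400_20_8 := chkB_sound0 h (T :=
(.spl (nat_lit 2) (nat_lit 160)
(.leaf p104_l0)
(.spl (nat_lit 0) (nat_lit 380)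
(.spl (nat_lit 4) (nat_lit 160)
(.spl (nat_lit 0) (nat_lit 370)
(.spl (nat_lit 6) (nat_lit 100)
(.spl (nat_lit 4) (nat_lit 80)
(.trX (nat_lit 22) (nat_lit 100) (nat_lit 44) (nat_lit 82) (nat_lit 384) (.leaf p104_l1))
(.leaf p104_l2))
(.leaf p104_l3))
(.trX (nat_lit 13) (nat_lit 53) (nat_lit 85) (nat_lit 100) (nat_lit 308) (.trZ (nat_lit 3) (nat_lit 100) (nat_lit 66) (nat_lit 45) (nat_lit 12) (.spl (nat_lit 4) (nat_lit 80)
(.trX (nat_lit 22) (nat_lit 100) (nat_lit 44) (nat_lit 82) (nat_lit 384) (.spl (nat_lit 2) (nat_lit 240)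
(.leaf p104_l4)
(.trX (nat_lit 22) (nat_lit 100) (nat_lit 76) (nat_lit 82) (nat_lit 336) (.leaf p104_l5))))
(.leaf p104_l6)))))
(.spl (nat_lit 0) (nat_lit 370)
(.spl (nat_lit 6) (nat_lit 100)
(.spl (nat_lit 0) (nat_lit 365)
(.leaf p104_l7)
(.trX (nat_lit 13) (nat_lit 57) (nat_lit 83) (nat_lit 100) (nat_lit 316) (.trX (nat_lit 16) (nat_lit 58) (nat_lit 100) (nat_lit 93) (nat_lit 240) (.leaf p104_l8))))
(.leaf p104_l9))
(.trX (nat_lit 13) (nat_lit 53) (nat_lit 85) (nat_lit 100) (nat_lit 308) (.trX (nat_lit 16) (nat_lit 53) (nat_lit 100) (nat_lit 93) (nat_lit 232) (.spl (nat_lit 0) (nat_lit 375)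
(.leaf p104_l10)
(.trX (nat_lit 13) (nat_lit 48) (nat_lit 88) (nat_lit 100) (nat_lit 300) (.trX (nat_lit 16) (nat_lit 49) (nat_lit 100) (nat_lit 92) (nat_lit 220) (.leaf p104_l11))))))))
(.trX (nat_lit 13) (nat_lit 44) (nat_lit 90) (nat_lit 100) (nat_lit 288) (.trZ (nat_lit 3) (nat_lit 100) (nat_lit 54) (nat_lit 57) (nat_lit 20) (.trX (nat_lit 16) (nat_lit 44) (nat_lit 100) (nat_lit 92) (nat_lit 208) (.spl (nat_lit 4) (nat_lit 80)
(.trX (nat_lit 22) (nat_lit 100) (nat_lit 44) (nat_lit 82) (nat_lit 384) (.spl (nat_lit 2) (nat_lit 240)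
(.leaf p104_l12)
(.trX (nat_lit 22) (nat_lit 100) (nat_lit 76) (nat_lit 82) (nat_lit 336) (.leaf p104_l13))))
(.spl (nat_lit 4) (nat_lit 160)
(.leaf p104_l14)
(.leaf p104_l15))))))))) (by decide +kernel)
noncomputable def p104_l16 : Lf2 := ⟨nat_lit 0, nat_lit 30, [nat_lit 15, nat_lit 5, nat_lit 5, nat_lit 20], true, nat_lit 8, nat_lit 160, nat_lit 0, nat_lit 396, ⟨nat_lit 0, nat_lit 0, nat_lit 1000, nat_lit 4, nat_lit 134, nat_lit 1000, nat_lit 70, nat_lit 1000, nat_lit 45067, nat_lit 267, nat_lit 170017, nat_lit 316, nat_lit 57332409, nat_lit 0, nat_lit 0, nat_lit 2615863, false, false⟩,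
 nat_lit 0, nat_lit 3139, nat_lit 0, nat_lit 2796, nat_lit 2733, nat_lit 0, nat_lit 0, nat_lit 0, nat_lit 0, nat_lit 0, nat_lit 0, nat_lit 0, nat_lit 0, nat_lit 0, nat_lit 108, nat_lit 250000, nat_lit 0, nat_lit 0, [(nat_lit 26, [(nat_lit 4, nat_lit 1000)])],
 ⟨p104_k0, nat_lit 0, nat_lit 0, nat_lit 364, nat_lit 0, nat_lit 176424, [nat_lit 1160000000, nat_lit 686800000], [], [nat_lit 20723886768, nat_lit 21852946400, nat_lit 21233400347, nat_lit 22049007271, nat_lit 20775647888, nat_lit 21612653883, nat_lit 21446329028, nat_lit 22379149114], nat_lit 1271250, nat_lit 1271250, nat_lit 279600, nat_lit 1100001, nat_lit 43600, nat_lit 1100001, [nat_lit 230000, nat_lit 2015000], [nat_lit 132, nat_lit 40, nat_lit 40, nat_lit 80, nat_lit 133, nat_lit 317, nat_lit 100, nat_lit 9]⟩, C1.Rw.none,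
 ⟨nat_lit 2236, nat_lit 3163, ⟨.ofNat (nat_lit 223799), .ofNat (nat_lit 394735), .ofNat (nat_lit 267982), .ofNat (nat_lit 438942), .ofNat (nat_lit 237524), .ofNat (nat_lit 397434), .ofNat (nat_lit 282946), .ofNat (nat_lit 442880)⟩, ⟨.ofNat (nat_lit 20000), .ofNat (nat_lit 306116), .ofNat (nat_lit 20000), .ofNat (nat_lit 350426), .ofNat (nat_lit 20000), .ofNat (nat_lit 306337), .ofNat (nat_lit 20000), .ofNat (nat_lit 351886)⟩⟩, [⟨nat_lit 0, nat_lit 100, nat_lit 44, nat_lit 90, nat_lit 73929174⟩, ⟨nat_lit 3, nat_lit 100, nat_lit 48, nat_lit 71, nat_lit 99886801⟩]⟩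
noncomputable def p104_l17 : Lf2 := ⟨nat_lit 0, nat_lit 30, [nat_lit 15, nat_lit 5, nat_lit 5, nat_lit 20], true, nat_lit 8, nat_lit 80, nat_lit 0, nat_lit 384, ⟨nat_lit 0, nat_lit 0, nat_lit 1000, nat_lit 4, nat_lit 191, nat_lit 1000, nat_lit 43, nat_lit 1000, nat_lit 17067, nat_lit 247, nat_lit 2400, nat_lit 227, nat_lit 53288177, nat_lit 0, nat_lit 0, nat_lit 2946428, false, true⟩,
 nat_lit 0, nat_lit 3030, nat_lit 0, nat_lit 1787, nat_lit 2638, nat_lit 0, nat_lit 0, nat_lit 0, nat_lit 0, nat_lit 0, nat_lit 0, nat_lit 0, nat_lit 0, nat_lit 0, nat_lit 108, nat_lit 250000, nat_lit 0, nat_lit 0, [(nat_lit 26, [(nat_lit 4, nat_lit 1000)])],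
 ⟨p104_k0, nat_lit 0, nat_lit 0, nat_lit 292, nat_lit 0, nat_lit 176424, [nat_lit 1160000000, nat_lit 686800000], [], [nat_lit 21224857728, nat_lit 22048714121, nat_lit 22768872931, nat_lit 23737204152, nat_lit 20699710536, nat_lit 21530063080, nat_lit 22307276848, nat_lit 23227109460], nat_lit 1271250, nat_lit 1271250, nat_lit 1100001, nat_lit 1785000, nat_lit 43600, nat_lit 490000, [nat_lit 230000, nat_lit 2015000], [nat_lit 132, nat_lit 40, nat_lit 40, nat_lit 80, nat_lit 133, nat_lit 317, nat_lit 100, nat_lit 9]⟩, C1.Rw.none,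
 ⟨nat_lit 2236, nat_lit 3163, ⟨.ofNat (nat_lit 394735), .ofNat (nat_lit 516642), .ofNat (nat_lit 438942), .ofNat (nat_lit 560952), .ofNat (nat_lit 397434), .ofNat (nat_lit 511466), .ofNat (nat_lit 442880), .ofNat (nat_lit 557014)⟩, ⟨.ofNat (nat_lit 20000), .ofNat (nat_lit 184209), .ofNat (nat_lit 20000), .ofNat (nat_lit 200000), .ofNat (nat_lit 20000), .ofNat (nat_lit 192306), .ofNat (nat_lit 20000), .ofNat (nat_lit 200000)⟩⟩, [⟨nat_lit 3, nat_lit 100, nat_lit 61, nat_lit 55, nat_lit 37129721⟩, ⟨nat_lit 3, nat_lit 100, nat_lit 48, nat_lit 71, nat_lit 260535485⟩]⟩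
noncomputable def p104_l18 : Lf2 := ⟨nat_lit 0, nat_lit 30, [nat_lit 15, nat_lit 5, nat_lit 5, nat_lit 20], true, nat_lit 8, nat_lit 80, nat_lit 0, nat_lit 336, ⟨nat_lit 0, nat_lit 0, nat_lit 1000, nat_lit 6, nat_lit 230, nat_lit 1000, nat_lit 43, nat_lit 1000, nat_lit 17067, nat_lit 247, nat_lit 7758, nat_lit 201, nat_lit 49247690, nat_lit 0, nat_lit 0, nat_lit 3328073, false, true⟩,
 nat_lit 0, nat_lit 2774, nat_lit 0, nat_lit 4792, nat_lit 2416, nat_lit 0, nat_lit 0, nat_lit 0, nat_lit 0, nat_lit 0, nat_lit 0, nat_lit 0, nat_lit 0, nat_lit 0, nat_lit 108, nat_lit 250000, nat_lit 0, nat_lit 0, [(nat_lit 26, [(nat_lit 4, nat_lit 1000)])],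
 ⟨p104_k0, nat_lit 0, nat_lit 0, nat_lit 237, nat_lit 0, nat_lit 69937, [nat_lit 1160000000, nat_lit 686800000], [], [nat_lit 22869542506, nat_lit 23348995653, nat_lit 24866655732, nat_lit 25296289999, nat_lit 22464670464, nat_lit 22920872032, nat_lit 24384516832, nat_lit 24794511463], nat_lit 1271250, nat_lit 1271250, nat_lit 1271250, nat_lit 1271250, nat_lit 43600, nat_lit 490000, [nat_lit 230000, nat_lit 2015000], [nat_lit 132, nat_lit 40, nat_lit 40, nat_lit 80, nat_lit 133, nat_lit 317, nat_lit 100, nat_lit 8]⟩, C1.Rw.none,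
 ⟨nat_lit 2738, nat_lit 3163, ⟨.ofNat (nat_lit 516642), .ofNat (nat_lit 614167), .ofNat (nat_lit 538797), .ofNat (nat_lit 636322), .ofNat (nat_lit 514225), .ofNat (nat_lit 608723), .ofNat (nat_lit 536642), .ofNat (nat_lit 631141)⟩, ⟨.ofNat (nat_lit 20000), .ofNat (nat_lit 184209), .ofNat (nat_lit 20000), .ofNat (nat_lit 200000), .ofNat (nat_lit 20000), .ofNat (nat_lit 188310), .ofNat (nat_lit 20000), .ofNat (nat_lit 200000)⟩⟩, [⟨nat_lit 13, nat_lit 57, nat_lit 91, nat_lit 100, nat_lit 356048508⟩, ⟨nat_lit 3, nat_lit 100, nat_lit 65, nat_lit 50, nat_lit 210132594⟩]⟩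
noncomputable def p104_l19 : Lf2 := ⟨nat_lit 0, nat_lit 30, [nat_lit 15, nat_lit 5, nat_lit 5, nat_lit 20], false, nat_lit 12, nat_lit 80, nat_lit 0, nat_lit 336, ⟨nat_lit 0, nat_lit 358, nat_lit 642, nat_lit 6, nat_lit 224, nat_lit 1000, nat_lit 45, nat_lit 642, nat_lit 19267, nat_lit 249, nat_lit 4534, nat_lit 210, nat_lit 49805661, nat_lit 15848528, nat_lit 1345811, nat_lit 3308007, false, true⟩,
 nat_lit 0, nat_lit 3417, nat_lit 0, nat_lit 2861, nat_lit 3083, nat_lit 0, nat_lit 0, nat_lit 0, nat_lit 0, nat_lit 0, nat_lit 0, nat_lit 0, nat_lit 0, nat_lit 0, nat_lit 17, nat_lit 217900, nat_lit 0, nat_lit 0, [(nat_lit 26, [(nat_lit 0, nat_lit 358), (nat_lit 3, nat_lit 642)])],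
 ⟨p104_k3, nat_lit 0, nat_lit 0, nat_lit 224, nat_lit 0, nat_lit 121822, [nat_lit 1079100800, nat_lit 23582400], [], [nat_lit 24564321819, nat_lit 25116317721, nat_lit 26145742613, nat_lit 26651505327, nat_lit 23909299424, nat_lit 24433445360, nat_lit 25426975543, nat_lit 25908228773], nat_lit 1271250, nat_lit 1271250, nat_lit 1271250, nat_lit 1271250, nat_lit 65850, nat_lit 490000, [nat_lit 230000, nat_lit 1717500], [nat_lit 141, nat_lit 40, nat_lit 40, nat_lit 80, nat_lit 142, nat_lit 226, nat_lit 20, nat_lit 6]⟩, ⟨p104_k10, nat_lit 0, nat_lit 0, nat_lit 641, nat_lit 0, nat_lit 477007, [nat_lit 0, nat_lit 0], [], [nat_lit 0, nat_lit 0, nat_lit 0, nat_lit 0, nat_lit 0, nat_lit 0, nat_lit 0, nat_lit 0], nat_lit 1100001, nat_lit 1271250, nat_lit 1271250, nat_lit 1271250, nat_lit 0, nat_lit 2373000, [nat_lit 1695000, nat_lit 1271250], [nat_lit 159, nat_lit 40, nat_lit 40, nat_lit 80, nat_lit 111, nat_lit 456, nat_lit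 225, nat_lit 10]⟩,
 ⟨nat_lit 2236, nat_lit 2739, ⟨.ofNat (nat_lit 514225), .ofNat (nat_lit 585099), .ofNat (nat_lit 536642), .ofNat (nat_lit 607516), .ofNat (nat_lit 511466), .ofNat (nat_lit 579884), .ofNat (nat_lit 534240), .ofNat (nat_lit 602658)⟩, ⟨.ofNat (nat_lit 30000), .ofNat (nat_lit 188310), .ofNat (nat_lit 30000), .ofNat (nat_lit 200000), .ofNat (nat_lit 30000), .ofNat (nat_lit 192306), .ofNat (nat_lit 30000), .ofNat (nat_lit 200000)⟩⟩, [⟨nat_lit 13, nat_lit 49, nat_lit 95, nat_lit 100, nat_lit 386423937⟩, ⟨nat_lit 3, nat_lit 100, nat_lit 56, nat_lit 60, nat_lit 282429974⟩]⟩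
noncomputable def p104_l20 : Lf2 := ⟨nat_lit 0, nat_lit 25, [nat_lit 44, nat_lit 5, nat_lit 5, nat_lit 20], false, nat_lit 8, nat_lit 80, nat_lit 0, nat_lit 336, ⟨nat_lit 145, nat_lit 0, nat_lit 855, nat_lit 6, nat_lit 244, nat_lit 855, nat_lit 43, nat_lit 855, nat_lit 17067, nat_lit 247, nat_lit 94468, nat_lit 200, nat_lit 47811480, nat_lit 0, nat_lit 0, nat_lit 3437376, true, true⟩,
 nat_lit 4352, nat_lit 0, nat_lit 0, nat_lit 3050, nat_lit 2384, nat_lit 1654, nat_lit 0, nat_lit 0, nat_lit 0, nat_lit 136, nat_lit 0, nat_lit 0, nat_lit 0, nat_lit 0, nat_lit 44, nat_lit 213750, nat_lit 0, nat_lit 0, [(nat_lit 26, [(nat_lit 4, nat_lit 855)])],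
 ⟨p104_k1, nat_lit 0, nat_lit 0, nat_lit 176, nat_lit 0, nat_lit 47328, [nat_lit 934450000, nat_lit 713874001, nat_lit 11958000], [], [nat_lit 22762694269, nat_lit 23285310675, nat_lit 25517217911, nat_lit 25969321388, nat_lit 22343062688, nat_lit 22839961248, nat_lit 24989998112, nat_lit 25421625488], nat_lit 1271250, nat_lit 1271250, nat_lit 1271250, nat_lit 1271250, nat_lit 43600, nat_lit 490000, [nat_lit 230000, nat_lit 780000, nat_lit 1762500], [nat_lit 54, nat_lit 40, nat_lit 40, nat_lit 80, nat_lit 43, nat_lit 226, nat_lit 20, nat_lit 6]⟩, ⟨p104_k11, nat_lit 0, nat_lit 0, nat_lit 462, nat_lit 0, nat_lit 144070, [nat_lit 1155360000, nat_lit 1721440000, nat_lit 2378000000], [], [nat_lit 6080268768, nat_lit 6044319668, nat_lit 6410681162, nat_lit 6354369492, nat_lit 7330781413, nat_lit 6595134480, nat_lit 5032741593, nat_lit 4971613645], nat_lit 1271250, nat_lit 1271250, nat_lit 1271250, nat_lit 1271250,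 nat_lit 0, nat_lit 2373000, [nat_lit 1695000, nat_lit 1271250, nat_lit 1271250], [nat_lit 97, nat_lit 40, nat_lit 40, nat_lit 80, nat_lit 76, nat_lit 456, nat_lit 225, nat_lit 10]⟩,
 ⟨nat_lit 2738, nat_lit 3163, ⟨.ofNat (nat_lit 538797), .ofNat (nat_lit 660704), .ofNat (nat_lit 560952), .ofNat (nat_lit 682859), .ofNat (nat_lit 536642), .ofNat (nat_lit 654765), .ofNat (nat_lit 559060), .ofNat (nat_lit 677182)⟩, ⟨.ofNat (nat_lit 20000), .ofNat (nat_lit 184209), .ofNat (nat_lit 20000), .ofNat (nat_lit 200000), .ofNat (nat_lit 20000), .ofNat (nat_lit 188310), .ofNat (nat_lit 20000), .ofNat (nat_lit 200000)⟩⟩, [⟨nat_lit 3, nat_lit 100, nat_lit 65, nat_lit 50, nat_lit 153830556⟩, ⟨nat_lit 22, nat_lit 95, nat_lit 100, nat_lit 65, nat_lit 11126360⟩]⟩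
noncomputable def p104_l21 : Lf2 := ⟨nat_lit 1, nat_lit 30, [nat_lit 15, nat_lit 5, nat_lit 5, nat_lit 20], false, nat_lit 8, nat_lit 80, nat_lit 0, nat_lit 336, zbN0,
 nat_lit 0, nat_lit 0, nat_lit 0, nat_lit 0, nat_lit 0, nat_lit 0, nat_lit 0, nat_lit 0, nat_lit 0, nat_lit 0, nat_lit 0, nat_lit 0, nat_lit 0, nat_lit 0, nat_lit 0, nat_lit 0, nat_lit 0, nat_lit 0, [],
 C1.Rw.none, C1.Rw.none,
 zbF0, []⟩
noncomputable def p104_l22 : Lf2 := ⟨nat_lit 0, nat_lit 30, [nat_lit 15, nat_lit 5, nat_lit 5, nat_lit 20], false, nat_lit 12, nat_lit 80, nat_lit 0, nat_lit 336, ⟨nat_lit 103, nat_lit 0, nat_lit 897, nat_lit 6, nat_lit 239, nat_lit 897, nat_lit 45, nat_lit 897, nat_lit 19267, nat_lit 249, nat_lit 47678, nat_lit 200, nat_lit 48216225, nat_lit 0, nat_lit 0, nat_lit 3433603, true, true⟩,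
 nat_lit 2864, nat_lit 0, nat_lit 0, nat_lit 4349, nat_lit 2260, nat_lit 1089, nat_lit 0, nat_lit 0, nat_lit 0, nat_lit 77, nat_lit 0, nat_lit 0, nat_lit 0, nat_lit 0, nat_lit 62, nat_lit 224250, nat_lit 0, nat_lit 0, [(nat_lit 26, [(nat_lit 4, nat_lit 897)])],
 ⟨p104_k4, nat_lit 0, nat_lit 0, nat_lit 183, nat_lit 0, nat_lit 82524, [nat_lit 997630000, nat_lit 777783601, nat_lit 1261200], [], [nat_lit 22904712819, nat_lit 23160176705, nat_lit 25136785010, nat_lit 25365021383, nat_lit 22559241420, nat_lit 22802903370, nat_lit 24712157487, nat_lit 24957696815], nat_lit 1271250, nat_lit 1271250, nat_lit 1271250, nat_lit 1271250, nat_lit 65850, nat_lit 490000, [nat_lit 230000, nat_lit 780000, nat_lit 1762500], [nat_lit 54, nat_lit 40, nat_lit 40, nat_lit 80, nat_lit 43, nat_lit 226, nat_lit 20, nat_lit 6]⟩, ⟨p104_k11, nat_lit 0, nat_lit 0, nat_lit 512, nat_lit 0, nat_lit 265786, [nat_lit 820704000, nat_lit 1222816000,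 nat_lit 1689200000], [], [nat_lit 4593469486, nat_lit 4572826682, nat_lit 4783139076, nat_lit 4751084002, nat_lit 5182385051, nat_lit 4698032264, nat_lit 3782092758, nat_lit 3735350821], nat_lit 1271250, nat_lit 1271250, nat_lit 1271250, nat_lit 1271250, nat_lit 0, nat_lit 2373000, [nat_lit 1695000, nat_lit 1271250, nat_lit 1271250], [nat_lit 97, nat_lit 40, nat_lit 40, nat_lit 80, nat_lit 76, nat_lit 456, nat_lit 225, nat_lit 10]⟩,
 ⟨nat_lit 2500, nat_lit 2739, ⟨.ofNat (nat_lit 536642), .ofNat (nat_lit 637047), .ofNat (nat_lit 559060), .ofNat (nat_lit 659464), .ofNat (nat_lit 535482), .ofNat (nat_lit 634192), .ofNat (nat_lit 558063), .ofNat (nat_lit 656773)⟩, ⟨.ofNat (nat_lit 30000), .ofNat (nat_lit 188310), .ofNat (nat_lit 30000), .ofNat (nat_lit 200000), .ofNat (nat_lit 30000), .ofNat (nat_lit 190321), .ofNat (nat_lit 30000), .ofNat (nat_lit 200000)⟩⟩, [⟨nat_lit 13, nat_lit 51, nat_lit 89, nat_lit 100, nat_lit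 159838021⟩, ⟨nat_lit 3, nat_lit 100, nat_lit 58, nat_lit 57, nat_lit 186657617⟩, ⟨nat_lit 22, nat_lit 98, nat_lit 100, nat_lit 67, nat_lit 6712939⟩]⟩
noncomputable def p104_l23 : Lf2 := ⟨nat_lit 0, nat_lit 30, [nat_lit 15, nat_lit 5, nat_lit 5, nat_lit 20], false, nat_lit 16, nat_lit 80, nat_lit 0, nat_lit 336, ⟨nat_lit 91, nat_lit 87, nat_lit 822, nat_lit 6, nat_lit 236, nat_lit 909, nat_lit 47, nat_lit 822, nat_lit 20417, nat_lit 250, nat_lit 19070, nat_lit 200, nat_lit 48452269, nat_lit 17118561, nat_lit 1429170, nat_lit 3440103, true, true⟩,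
 nat_lit 2592, nat_lit 0, nat_lit 0, nat_lit 3617, nat_lit 2380, nat_lit 985, nat_lit 0, nat_lit 0, nat_lit 0, nat_lit 54, nat_lit 0, nat_lit 0, nat_lit 0, nat_lit 0, nat_lit 49, nat_lit 227250, nat_lit 0, nat_lit 0, [(nat_lit 26, [(nat_lit 0, nat_lit 87), (nat_lit 4, nat_lit 822)])],
 ⟨p104_k6, nat_lit 0, nat_lit 0, nat_lit 202, nat_lit 0, nat_lit 113142, [nat_lit 946381201, nat_lit 726925201, nat_lit 5188800], [], [nat_lit 23348363842, nat_lit 23608078443, nat_lit 25290504664, nat_lit 25524268105, nat_lit 22943359113, nat_lit 23191653963, nat_lit 24824232571, nat_lit 25094010226], nat_lit 1271250, nat_lit 1271250, nat_lit 1271250, nat_lit 1271250, nat_lit 88400, nat_lit 490000, [nat_lit 230000, nat_lit 780000, nat_lit 1762500], [nat_lit 54, nat_lit 40, nat_lit 40, nat_lit 80, nat_lit 43, nat_lit 226, nat_lit 20, nat_lit 6]⟩, ⟨p104_k11, nat_lit 0, nat_lit 0, nat_lit 556, nat_lit 0, nat_lit 372415, [nat_lit 725088000,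 nat_lit 1080352000, nat_lit 1492400000], [], [nat_lit 4233692116, nat_lit 4214151408, nat_lit 4377057380, nat_lit 4348533160, nat_lit 4585267694, nat_lit 4147170820, nat_lit 3475263150, nat_lit 3431247708], nat_lit 1271250, nat_lit 1271250, nat_lit 1271250, nat_lit 1271250, nat_lit 0, nat_lit 2373000, [nat_lit 1695000, nat_lit 1271250, nat_lit 1271250], [nat_lit 97, nat_lit 40, nat_lit 40, nat_lit 80, nat_lit 76, nat_lit 456, nat_lit 225, nat_lit 10]⟩,
 ⟨nat_lit 2236, nat_lit 2500, ⟨.ofNat (nat_lit 535482), .ofNat (nat_lit 622579), .ofNat (nat_lit 558063), .ofNat (nat_lit 645160), .ofNat (nat_lit 534240), .ofNat (nat_lit 619763), .ofNat (nat_lit 557014), .ofNat (nat_lit 642537)⟩, ⟨.ofNat (nat_lit 40000), .ofNat (nat_lit 190321), .ofNat (nat_lit 40000), .ofNat (nat_lit 200000), .ofNat (nat_lit 40000), .ofNat (nat_lit 192306), .ofNat (nat_lit 40000), .ofNat (nat_lit 200000)⟩⟩, [⟨nat_lit 13, nat_lit 46, nat_lit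 91, nat_lit 100, nat_lit 211235734⟩, ⟨nat_lit 3, nat_lit 100, nat_lit 53, nat_lit 62, nat_lit 221485200⟩, ⟨nat_lit 22, nat_lit 100, nat_lit 100, nat_lit 69, nat_lit 5167032⟩]⟩
noncomputable def p104_l24 : Lf2 := ⟨nat_lit 0, nat_lit 30, [nat_lit 15, nat_lit 5, nat_lit 5, nat_lit 20], false, nat_lit 80, nat_lit 160, nat_lit 0, nat_lit 396, ⟨nat_lit 0, nat_lit 123, nat_lit 877, nat_lit 4, nat_lit 215, nat_lit 1000, nat_lit 104, nat_lit 877, nat_lit 101400, nat_lit 293, nat_lit 94468, nat_lit 200, nat_lit 47616081, nat_lit 14645501, nat_lit 4738418, nat_lit 4050048, false, true⟩,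
 nat_lit 0, nat_lit 3190, nat_lit 0, nat_lit 4525, nat_lit 2778, nat_lit 0, nat_lit 0, nat_lit 0, nat_lit 0, nat_lit 0, nat_lit 0, nat_lit 0, nat_lit 0, nat_lit 0, nat_lit 82, nat_lit 250000, nat_lit 0, nat_lit 0, [(nat_lit 26, [(nat_lit 0, nat_lit 123), (nat_lit 4, nat_lit 877)])],
 ⟨p104_k0, nat_lit 0, nat_lit 0, nat_lit 153, nat_lit 0, nat_lit 51952, [nat_lit 1060624801, nat_lit 584279600], [], [nat_lit 20419139011, nat_lit 20972501511, nat_lit 24885002152, nat_lit 25335803810, nat_lit 21217287219, nat_lit 21722638271, nat_lit 25247808891, nat_lit 25661453282], nat_lit 1271250, nat_lit 1271250, nat_lit 1100001, nat_lit 2470000, nat_lit 490000, nat_lit 1100001, [nat_lit 230000, nat_lit 2015000], [nat_lit 132, nat_lit 40, nat_lit 40, nat_lit 80, nat_lit 133, nat_lit 345, nat_lit 125, nat_lit 9]⟩, ⟨p104_k10, nat_lit 0, nat_lit 0, nat_lit 491, nat_lit 0, nat_lit 194592, [nat_lit 0, nat_lit 0], [], [nat_lit 0,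 nat_lit 0, nat_lit 0, nat_lit 0, nat_lit 0, nat_lit 0, nat_lit 0, nat_lit 0], nat_lit 1100001, nat_lit 1442500, nat_lit 1271250, nat_lit 1271250, nat_lit 0, nat_lit 2796750, [nat_lit 1695000, nat_lit 1271250], [nat_lit 159, nat_lit 40, nat_lit 40, nat_lit 80, nat_lit 111, nat_lit 483, nat_lit 250, nat_lit 10]⟩,
 ⟨nat_lit 2738, nat_lit 3163, ⟨.ofNat (nat_lit 394735), .ofNat (nat_lit 638549), .ofNat (nat_lit 439028), .ofNat (nat_lit 682859), .ofNat (nat_lit 396102), .ofNat (nat_lit 632348), .ofNat (nat_lit 440920), .ofNat (nat_lit 677182)⟩, ⟨.ofNat (nat_lit 184209), .ofNat (nat_lit 306116), .ofNat (nat_lit 200000), .ofNat (nat_lit 350426), .ofNat (nat_lit 188310), .ofNat (nat_lit 306433), .ofNat (nat_lit 200000), .ofNat (nat_lit 351268)⟩⟩, [⟨nat_lit 13, nat_lit 57, nat_lit 88, nat_lit 100, nat_lit 242387511⟩]⟩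
noncomputable def p104_l25 : Lf2 := ⟨nat_lit 0, nat_lit 30, [nat_lit 15, nat_lit 5, nat_lit 5, nat_lit 20], true, nat_lit 80, nat_lit 160, nat_lit 0, nat_lit 396, ⟨nat_lit 0, nat_lit 277, nat_lit 723, nat_lit 4, nat_lit 211, nat_lit 1000, nat_lit 105, nat_lit 723, nat_lit 104017, nat_lit 294, nat_lit 47678, nat_lit 200, nat_lit 48000145, nat_lit 14212673, nat_lit 4787182, nat_lit 4019067, false, true⟩,
 nat_lit 0, nat_lit 2853, nat_lit 0, nat_lit 2518, nat_lit 2574, nat_lit 0, nat_lit 0, nat_lit 0, nat_lit 0, nat_lit 0, nat_lit 0, nat_lit 0, nat_lit 0, nat_lit 0, nat_lit 49, nat_lit 250000, nat_lit 0, nat_lit 0, [(nat_lit 26, [(nat_lit 0, nat_lit 277), (nat_lit 4, nat_lit 723)])],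
 ⟨p104_k4, nat_lit 0, nat_lit 0, nat_lit 165, nat_lit 0, nat_lit 168280, [nat_lit 934415200, nat_lit 721916001, nat_lit 12200400], [], [nat_lit 20424460176, nat_lit 21001036912, nat_lit 24578695592, nat_lit 25032034060, nat_lit 21349719408, nat_lit 21875674168, nat_lit 25178347520, nat_lit 25596129840], nat_lit 1271250, nat_lit 1271250, nat_lit 1100001, nat_lit 2367250, nat_lit 490000, nat_lit 1100001, [nat_lit 230000, nat_lit 780000, nat_lit 1762500], [nat_lit 54, nat_lit 40, nat_lit 40, nat_lit 80, nat_lit 43, nat_lit 345, nat_lit 125, nat_lit 10]⟩, C1.Rw.none,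
 ⟨nat_lit 2236, nat_lit 2739, ⟨.ofNat (nat_lit 396102), .ofNat (nat_lit 614629), .ofNat (nat_lit 440903), .ofNat (nat_lit 659464), .ofNat (nat_lit 397434), .ofNat (nat_lit 608392), .ofNat (nat_lit 442949), .ofNat (nat_lit 653941)⟩, ⟨.ofNat (nat_lit 188310), .ofNat (nat_lit 306433), .ofNat (nat_lit 200000), .ofNat (nat_lit 351268), .ofNat (nat_lit 192306), .ofNat (nat_lit 306337), .ofNat (nat_lit 200000), .ofNat (nat_lit 351886)⟩⟩, [⟨nat_lit 13, nat_lit 49, nat_lit 92, nat_lit 100, nat_lit 275447021⟩]⟩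
noncomputable def p104_l26 : Lf2 := ⟨nat_lit 0, nat_lit 30, [nat_lit 15, nat_lit 5, nat_lit 5, nat_lit 20], true, nat_lit 160, nat_lit 248, nat_lit 0, nat_lit 396, ⟨nat_lit 0, nat_lit 0, nat_lit 1000, nat_lit 4, nat_lit 134, nat_lit 1000, nat_lit 157, nat_lit 1000, nat_lit 61189, nat_lit 275, nat_lit 170017, nat_lit 316, nat_lit 50751251, nat_lit 0, nat_lit 0, nat_lit 3850737, false, false⟩,
 nat_lit 0, nat_lit 3351, nat_lit 0, nat_lit 3604, nat_lit 2918, nat_lit 0, nat_lit 0, nat_lit 0, nat_lit 0, nat_lit 0, nat_lit 0, nat_lit 0, nat_lit 0, nat_lit 0, nat_lit 108, nat_lit 250000, nat_lit 0, nat_lit 0, [(nat_lit 26, [(nat_lit 4, nat_lit 1000)])],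
 ⟨p104_k0, nat_lit 0, nat_lit 0, nat_lit 250, nat_lit 0, nat_lit 176424, [nat_lit 1160000000, nat_lit 686800000], [], [nat_lit 20025993906, nat_lit 21186488362, nat_lit 20466514376, nat_lit 21472811204, nat_lit 22102062091, nat_lit 23341644906, nat_lit 22370963911, nat_lit 23491905828], nat_lit 1271250, nat_lit 1271250, nat_lit 279600, nat_lit 1100001, nat_lit 1100001, nat_lit 1853500, [nat_lit 230000, nat_lit 2015000], [nat_lit 132, nat_lit 40, nat_lit 40, nat_lit 80, nat_lit 133, nat_lit 345, nat_lit 125, nat_lit 9]⟩, C1.Rw.none,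
 ⟨nat_lit 2236, nat_lit 3163, ⟨.ofNat (nat_lit 223799), .ofNat (nat_lit 394735), .ofNat (nat_lit 267982), .ofNat (nat_lit 438942), .ofNat (nat_lit 237524), .ofNat (nat_lit 397434), .ofNat (nat_lit 282946), .ofNat (nat_lit 442880)⟩, ⟨.ofNat (nat_lit 306116), .ofNat (nat_lit 440213), .ofNat (nat_lit 350426), .ofNat (nat_lit 484523), .ofNat (nat_lit 306337), .ofNat (nat_lit 431772), .ofNat (nat_lit 351886), .ofNat (nat_lit 477320)⟩⟩, [⟨nat_lit 0, nat_lit 100, nat_lit 53, nat_lit 80, nat_lit 64829323⟩, ⟨nat_lit 4, nat_lit 100, nat_lit 53, nat_lit 87, nat_lit 300439391⟩]⟩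
noncomputable def p104_l27 : Lf2 := ⟨nat_lit 0, nat_lit 30, [nat_lit 15, nat_lit 5, nat_lit 5, nat_lit 20], false, nat_lit 160, nat_lit 248, nat_lit 0, nat_lit 396, ⟨nat_lit 0, nat_lit 1000, nat_lit 0, nat_lit 4, nat_lit 215, nat_lit 1000, nat_lit 158, nat_lit 0, nat_lit 0, nat_lit 0, nat_lit 0, nat_lit 0, nat_lit 44212212, nat_lit 14124840, nat_lit 8662948, nat_lit 4656310, false, true⟩,
 nat_lit 0, nat_lit 3991, nat_lit 0, nat_lit 3641, nat_lit 3475, nat_lit 0, nat_lit 0, nat_lit 0, nat_lit 0, nat_lit 0, nat_lit 0, nat_lit 0, nat_lit 0, nat_lit 0, nat_lit 0, nat_lit 250000, nat_lit 0, nat_lit 0, [(nat_lit 26, [(nat_lit 0, nat_lit 1000)])],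
 ⟨p104_k12, nat_lit 0, nat_lit 0, nat_lit 78, nat_lit 0, nat_lit 51952, [nat_lit 765600000, nat_lit 1845600000, nat_lit 2928480000], [], [nat_lit 20592872400, nat_lit 21328717225, nat_lit 25970182100, nat_lit 26515943975, nat_lit 23115903290, nat_lit 23749562045, nat_lit 27677354430, nat_lit 28153263651], nat_lit 1271250, nat_lit 1271250, nat_lit 1100001, nat_lit 2470000, nat_lit 1100001, nat_lit 1853500, [nat_lit 230000, nat_lit 1100000, nat_lit 2127500], [nat_lit 81, nat_lit 40, nat_lit 40, nat_lit 80, nat_lit 13, nat_lit 373, nat_lit 150, nat_lit 10]⟩, ⟨p104_k9, nat_lit 0, nat_lit 0, nat_lit 533, nat_lit 0, nat_lit 194592, [nat_lit 0, nat_lit 0, nat_lit 0], [], [nat_lit 0, nat_lit 0, nat_lit 0, nat_lit 0, nat_lit 0, nat_lit 0, nat_lit 0, nat_lit 0], nat_lit 1100001, nat_lit 1442500, nat_lit 1271250, nat_lit 1271250, nat_lit 0, nat_lit 2796750, [nat_lit 1695000, nat_lit 1271250, nat_lit 1271250], [nat_lit 202,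 nat_lit 40, nat_lit 40, nat_lit 80, nat_lit 204, nat_lit 483, nat_lit 250, nat_lit 10]⟩,
 ⟨nat_lit 2738, nat_lit 3163, ⟨.ofNat (nat_lit 394735), .ofNat (nat_lit 638549), .ofNat (nat_lit 439028), .ofNat (nat_lit 682859), .ofNat (nat_lit 396102), .ofNat (nat_lit 632348), .ofNat (nat_lit 440920), .ofNat (nat_lit 677182)⟩, ⟨.ofNat (nat_lit 306116), .ofNat (nat_lit 440213), .ofNat (nat_lit 350426), .ofNat (nat_lit 484523), .ofNat (nat_lit 306433), .ofNat (nat_lit 436368), .ofNat (nat_lit 351268), .ofNat (nat_lit 481203)⟩⟩, [⟨nat_lit 13, nat_lit 57, nat_lit 88, nat_lit 100, nat_lit 186898128⟩, ⟨nat_lit 4, nat_lit 100, nat_lit 57, nat_lit 87, nat_lit 175676617⟩]⟩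
noncomputable def p104_l28 : Lf2 := ⟨nat_lit 0, nat_lit 30, [nat_lit 15, nat_lit 5, nat_lit 5, nat_lit 20], false, nat_lit 160, nat_lit 232, nat_lit 0, nat_lit 396, ⟨nat_lit 0, nat_lit 475, nat_lit 525, nat_lit 4, nat_lit 211, nat_lit 1000, nat_lit 152, nat_lit 525, nat_lit 156817, nat_lit 312, nat_lit 47678, nat_lit 200, nat_lit 44935092, nat_lit 13784115, nat_lit 8280793, nat_lit 4570214, false, true⟩,
 nat_lit 0, nat_lit 3723, nat_lit 0, nat_lit 2908, nat_lit 3359, nat_lit 0, nat_lit 0, nat_lit 0, nat_lit 0, nat_lit 0, nat_lit 0, nat_lit 0, nat_lit 0, nat_lit 0, nat_lit 0, nat_lit 223750, nat_lit 0, nat_lit 0, [(nat_lit 26, [(nat_lit 0, nat_lit 475), (nat_lit 3, nat_lit 525)])],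
 ⟨p104_k3, nat_lit 0, nat_lit 0, nat_lit 127, nat_lit 0, nat_lit 121822, [nat_lit 966360001, nat_lit 143580000], [], [nat_lit 21923609631, nat_lit 22513337791, nat_lit 25843645812, nat_lit 26330756096, nat_lit 23525484352, nat_lit 24053293266, nat_lit 27148141992, nat_lit 27717356187], nat_lit 1271250, nat_lit 1271250, nat_lit 1100001, nat_lit 2367250, nat_lit 1100001, nat_lit 1716500, [nat_lit 230000, nat_lit 1717500], [nat_lit 141, nat_lit 40, nat_lit 40, nat_lit 80, nat_lit 142, nat_lit 373, nat_lit 150, nat_lit 11]⟩, ⟨p104_k10, nat_lit 0, nat_lit 0, nat_lit 665, nat_lit 0, nat_lit 477007, [nat_lit 0, nat_lit 0], [], [nat_lit 0, nat_lit 0, nat_lit 0, nat_lit 0, nat_lit 0, nat_lit 0, nat_lit 0, nat_lit 0], nat_lit 1100001, nat_lit 1442500, nat_lit 1271250, nat_lit 1271250, nat_lit 0, nat_lit 2796750, [nat_lit 1695000, nat_lit 1271250], [nat_lit 159, nat_lit 40, nat_lit 40, nat_lit 80, nat_lit 111, nat_lit 483,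 nat_lit 250, nat_lit 10]⟩,
 ⟨nat_lit 2236, nat_lit 2739, ⟨.ofNat (nat_lit 396102), .ofNat (nat_lit 614629), .ofNat (nat_lit 440903), .ofNat (nat_lit 659464), .ofNat (nat_lit 397434), .ofNat (nat_lit 608392), .ofNat (nat_lit 442949), .ofNat (nat_lit 653941)⟩, ⟨.ofNat (nat_lit 306433), .ofNat (nat_lit 412743), .ofNat (nat_lit 351268), .ofNat (nat_lit 457578), .ofNat (nat_lit 306337), .ofNat (nat_lit 408965), .ofNat (nat_lit 351886), .ofNat (nat_lit 454514)⟩⟩, [⟨nat_lit 13, nat_lit 49, nat_lit 92, nat_lit 100, nat_lit 244846232⟩, ⟨nat_lit 4, nat_lit 100, nat_lit 48, nat_lit 87, nat_lit 244192920⟩]⟩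
noncomputable def p104_l29 : Lf2 := ⟨nat_lit 0, nat_lit 25, [nat_lit 44, nat_lit 5, nat_lit 5, nat_lit 20], false, nat_lit 20, nat_lit 80, nat_lit 0, nat_lit 392, ⟨nat_lit 0, nat_lit 401, nat_lit 599, nat_lit 4, nat_lit 181, nat_lit 1000, nat_lit 49, nat_lit 599, nat_lit 22817, nat_lit 252, nat_lit 4634, nat_lit 204, nat_lit 54034050, nat_lit 11400093, nat_lit 1565857, nat_lit 2924401, false, true⟩,
 nat_lit 0, nat_lit 2596, nat_lit 0, nat_lit 995, nat_lit 2425, nat_lit 0, nat_lit 0, nat_lit 0, nat_lit 0, nat_lit 0, nat_lit 0, nat_lit 0, nat_lit 0, nat_lit 0, nat_lit 43, nat_lit 250000, nat_lit 0, nat_lit 0, [(nat_lit 29, [(nat_lit 0, nat_lit 401), (nat_lit 4, nat_lit 599)])],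
 ⟨p104_k13, nat_lit 0, nat_lit 0, nat_lit 223, nat_lit 0, nat_lit 177068, [nat_lit 941620001, nat_lit 5768400], [], [nat_lit 20416967493, nat_lit 21047240727, nat_lit 25017081288, nat_lit 25670735666, nat_lit 20164342848, nat_lit 20731834585, nat_lit 24712996136, nat_lit 25218927197], nat_lit 1271250, nat_lit 1271250, nat_lit 462650, nat_lit 2110950, nat_lit 111251, nat_lit 490000, [nat_lit 230000, nat_lit 1420000], [nat_lit 88, nat_lit 40, nat_lit 40, nat_lit 80, nat_lit 89, nat_lit 317, nat_lit 100, nat_lit 12]⟩, ⟨p104_k10, nat_lit 0, nat_lit 0, nat_lit 844, nat_lit 0, nat_lit 713198, [nat_lit 0, nat_lit 0], [], [nat_lit 0, nat_lit 0, nat_lit 0, nat_lit 0, nat_lit 0, nat_lit 0, nat_lit 0, nat_lit 0], nat_lit 1100001, nat_lit 1442500, nat_lit 462650, nat_lit 2110950, nat_lit 0, nat_lit 2768500, [nat_lit 1695000, nat_lit 1271250], [nat_lit 159, nat_lit 40, nat_lit 40, nat_lit 80, nat_lit 111, nat_lit 456, nat_lit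 225, nat_lit 10]⟩,
 ⟨nat_lit 1581, nat_lit 2237, ⟨.ofNat (nat_lit 277529), .ofNat (nat_lit 579884), .ofNat (nat_lit 322986), .ofNat (nat_lit 625433), .ofNat (nat_lit 283825), .ofNat (nat_lit 573567), .ofNat (nat_lit 330363), .ofNat (nat_lit 620197)⟩, ⟨.ofNat (nat_lit 50000), .ofNat (nat_lit 192306), .ofNat (nat_lit 50000), .ofNat (nat_lit 200000), .ofNat (nat_lit 50000), .ofNat (nat_lit 196201), .ofNat (nat_lit 50000), .ofNat (nat_lit 200000)⟩⟩, [⟨nat_lit 13, nat_lit 44, nat_lit 90, nat_lit 100, nat_lit 177148664⟩, ⟨nat_lit 3, nat_lit 100, nat_lit 45, nat_lit 67, nat_lit 315974012⟩]⟩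
noncomputable def p104_l30 : Lf2 := ⟨nat_lit 0, nat_lit 25, [nat_lit 44, nat_lit 5, nat_lit 5, nat_lit 20], true, nat_lit 36, nat_lit 80, nat_lit 0, nat_lit 392, ⟨nat_lit 0, nat_lit 570, nat_lit 430, nat_lit 4, nat_lit 180, nat_lit 1000, nat_lit 58, nat_lit 430, nat_lit 30817, nat_lit 258, nat_lit 3437, nat_lit 217, nat_lit 53643037, nat_lit 11372696, nat_lit 1984267, nat_lit 3046657, false, true⟩,
 nat_lit 0, nat_lit 2582, nat_lit 0, nat_lit 0, nat_lit 2496, nat_lit 0, nat_lit 0, nat_lit 0, nat_lit 0, nat_lit 0, nat_lit 0, nat_lit 0, nat_lit 0, nat_lit 0, nat_lit 11, nat_lit 273400, nat_lit 0, nat_lit 0, [(nat_lit 29, [(nat_lit 0, nat_lit 570), (nat_lit 4, nat_lit 274), (nat_lit 5, nat_lit 156)])],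
 ⟨p104_k14, nat_lit 0, nat_lit 0, nat_lit 232, nat_lit 0, nat_lit 326364, [nat_lit 790792001, nat_lit 3014400], [], [nat_lit 20935419963, nat_lit 21748476123, nat_lit 24660470122, nat_lit 25254721952, nat_lit 20799104414, nat_lit 21439138166, nat_lit 24463239747, nat_lit 25003593870], nat_lit 1271250, nat_lit 1271250, nat_lit 631250, nat_lit 1943250, nat_lit 205650, nat_lit 490000, [nat_lit 230000, nat_lit 1100000], [nat_lit 86, nat_lit 40, nat_lit 40, nat_lit 80, nat_lit 87, nat_lit 317, nat_lit 100, nat_lit 14]⟩, C1.Rw.none,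
 ⟨nat_lit 0, nat_lit 1582, ⟨.ofNat (nat_lit 314816), .ofNat (nat_lit 540781), .ofNat (nat_lit 360133), .ofNat (nat_lit 587413), .ofNat (nat_lit 323036), .ofNat (nat_lit 529994), .ofNat (nat_lit 371722), .ofNat (nat_lit 579996)⟩, ⟨.ofNat (nat_lit 90000), .ofNat (nat_lit 196201), .ofNat (nat_lit 90000), .ofNat (nat_lit 200000), .ofNat (nat_lit 90000), .ofNat (nat_lit 199999), .ofNat (nat_lit 90000), .ofNat (nat_lit 200000)⟩⟩, [⟨nat_lit 13, nat_lit 31, nat_lit 95, nat_lit 100, nat_lit 236037977⟩, ⟨nat_lit 3, nat_lit 100, nat_lit 27, nat_lit 83, nat_lit 112984809⟩, ⟨nat_lit 3, nat_lit 100, nat_lit 39, nat_lit 72, nat_lit 256323181⟩]⟩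
noncomputable def p104_l31 : Lf2 := ⟨nat_lit 0, nat_lit 30, [nat_lit 15, nat_lit 5, nat_lit 5, nat_lit 20], true, nat_lit 32, nat_lit 80, nat_lit 0, nat_lit 396, ⟨nat_lit 0, nat_lit 0, nat_lit 1000, nat_lit 4, nat_lit 145, nat_lit 1000, nat_lit 56, nat_lit 1000, nat_lit 29400, nat_lit 257, nat_lit 198017, nat_lit 324, nat_lit 57122286, nat_lit 0, nat_lit 0, nat_lit 2561598, false, false⟩,
 nat_lit 0, nat_lit 2709, nat_lit 0, nat_lit 1290, nat_lit 2530, nat_lit 0, nat_lit 0, nat_lit 0, nat_lit 0, nat_lit 0, nat_lit 0, nat_lit 0, nat_lit 0, nat_lit 0, nat_lit 139, nat_lit 250000, nat_lit 0, nat_lit 0, [(nat_lit 29, [(nat_lit 4, nat_lit 1000)])],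
 ⟨p104_k7, nat_lit 0, nat_lit 0, nat_lit 311, nat_lit 0, nat_lit 266299, [nat_lit 1317600001, nat_lit 278400000], [], [nat_lit 20115468546, nat_lit 21981134655, nat_lit 20901561208, nat_lit 22414636512, nat_lit 19438224995, nat_lit 20957078471, nat_lit 20725784667, nat_lit 22094236847], nat_lit 1271250, nat_lit 1271250, nat_lit 462650, nat_lit 1100001, nat_lit 181601, nat_lit 490000, [nat_lit 230000, nat_lit 1717500], [nat_lit 141, nat_lit 40, nat_lit 40, nat_lit 80, nat_lit 142, nat_lit 272, nat_lit 60, nat_lit 9]⟩, C1.Rw.none,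
 ⟨nat_lit 0, nat_lit 2237, ⟨.ofNat (nat_lit 273845), .ofNat (nat_lit 397434), .ofNat (nat_lit 317541), .ofNat (nat_lit 441142), .ofNat (nat_lit 291142), .ofNat (nat_lit 399999), .ofNat (nat_lit 339289), .ofNat (nat_lit 448157)⟩, ⟨.ofNat (nat_lit 80000), .ofNat (nat_lit 200000), .ofNat (nat_lit 80000), .ofNat (nat_lit 200000), .ofNat (nat_lit 80000), .ofNat (nat_lit 200000), .ofNat (nat_lit 80000), .ofNat (nat_lit 200000)⟩⟩, [⟨nat_lit 3, nat_lit 100, nat_lit 35, nat_lit 79, nat_lit 419562915⟩]⟩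
noncomputable def p104_l32 : Lf2 := ⟨nat_lit 0, nat_lit 30, [nat_lit 15, nat_lit 5, nat_lit 5, nat_lit 20], false, nat_lit 32, nat_lit 80, nat_lit 0, nat_lit 384, ⟨nat_lit 0, nat_lit 241, nat_lit 759, nat_lit 4, nat_lit 204, nat_lit 1000, nat_lit 56, nat_lit 759, nat_lit 29400, nat_lit 257, nat_lit 4634, nat_lit 204, nat_lit 51327649, nat_lit 13789119, nat_lit 1883232, nat_lit 3281528, false, true⟩,
 nat_lit 0, nat_lit 2521, nat_lit 0, nat_lit 4332, nat_lit 2355, nat_lit 0, nat_lit 0, nat_lit 0, nat_lit 0, nat_lit 0, nat_lit 0, nat_lit 0, nat_lit 0, nat_lit 0, nat_lit 84, nat_lit 250000, nat_lit 0, nat_lit 0, [(nat_lit 29, [(nat_lit 0, nat_lit 241), (nat_lit 4, nat_lit 759)])],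
 ⟨p104_k7, nat_lit 0, nat_lit 0, nat_lit 214, nat_lit 0, nat_lit 124597, [nat_lit 1102420000, nat_lit 182005200], [], [nat_lit 21315859115, nat_lit 21878329077, nat_lit 24718766308, nat_lit 25302427276, nat_lit 21103942210, nat_lit 21646356675, nat_lit 24401682189, nat_lit 24965376075], nat_lit 1271250, nat_lit 1271250, nat_lit 1100001, nat_lit 2196000, nat_lit 181601, nat_lit 490000, [nat_lit 230000, nat_lit 1717500], [nat_lit 141, nat_lit 40, nat_lit 40, nat_lit 80, nat_lit 142, nat_lit 317, nat_lit 100, nat_lit 10]⟩, ⟨p104_k10, nat_lit 0, nat_lit 0, nat_lit 676, nat_lit 0, nat_lit 509442, [nat_lit 0, nat_lit 0], [], [nat_lit 0, nat_lit 0, nat_lit 0, nat_lit 0, nat_lit 0, nat_lit 0, nat_lit 0, nat_lit 0], nat_lit 1100001, nat_lit 1442500, nat_lit 1271250, nat_lit 1271250, nat_lit 0, nat_lit 2712000, [nat_lit 1695000, nat_lit 1271250], [nat_lit 159, nat_lit 40, nat_lit 40, nat_lit 80, nat_lit 111, nat_lit 456,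 nat_lit 225, nat_lit 10]⟩,
 ⟨nat_lit 1581, nat_lit 2237, ⟨.ofNat (nat_lit 397434), .ofNat (nat_lit 579884), .ofNat (nat_lit 442898), .ofNat (nat_lit 625433), .ofNat (nat_lit 398733), .ofNat (nat_lit 573567), .ofNat (nat_lit 445278), .ofNat (nat_lit 620197)⟩, ⟨.ofNat (nat_lit 80000), .ofNat (nat_lit 200000), .ofNat (nat_lit 80000), .ofNat (nat_lit 200000), .ofNat (nat_lit 80000), .ofNat (nat_lit 200000), .ofNat (nat_lit 80000), .ofNat (nat_lit 200000)⟩⟩, [⟨nat_lit 13, nat_lit 38, nat_lit 96, nat_lit 100, nat_lit 348646952⟩, ⟨nat_lit 3, nat_lit 100, nat_lit 43, nat_lit 73, nat_lit 355507585⟩]⟩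
noncomputable def p104_l33 : Lf2 := ⟨nat_lit 0, nat_lit 30, [nat_lit 15, nat_lit 5, nat_lit 5, nat_lit 20], true, nat_lit 48, nat_lit 80, nat_lit 0, nat_lit 384, ⟨nat_lit 0, nat_lit 395, nat_lit 605, nat_lit 4, nat_lit 196, nat_lit 1000, nat_lit 64, nat_lit 605, nat_lit 38400, nat_lit 263, nat_lit 3437, nat_lit 217, nat_lit 51707528, nat_lit 12984983, nat_lit 2307489, nat_lit 3318668, false, true⟩,
 nat_lit 0, nat_lit 2620, nat_lit 0, nat_lit 2145, nat_lit 2533, nat_lit 0, nat_lit 0, nat_lit 0, nat_lit 0, nat_lit 0, nat_lit 0, nat_lit 0, nat_lit 0, nat_lit 0, nat_lit 45, nat_lit 250000, nat_lit 0, nat_lit 0, [(nat_lit 29, [(nat_lit 0, nat_lit 395), (nat_lit 4, nat_lit 605)])],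
 ⟨p104_k15, nat_lit 0, nat_lit 0, nat_lit 212, nat_lit 0, nat_lit 254615, [nat_lit 949500001, nat_lit 19318000], [], [nat_lit 21691117748, nat_lit 22286512630, nat_lit 24399328825, nat_lit 25091820817, nat_lit 21541462817, nat_lit 22121707673, nat_lit 24179263963, nat_lit 24772262674], nat_lit 1271250, nat_lit 1271250, nat_lit 1100001, nat_lit 1990500, nat_lit 279600, nat_lit 490000, [nat_lit 230000, nat_lit 1420000], [nat_lit 88, nat_lit 40, nat_lit 40, nat_lit 80, nat_lit 89, nat_lit 317, nat_lit 100, nat_lit 11]⟩, C1.Rw.none,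
 ⟨nat_lit 0, nat_lit 1582, ⟨.ofNat (nat_lit 398733), .ofNat (nat_lit 540781), .ofNat (nat_lit 444052), .ofNat (nat_lit 587413), .ofNat (nat_lit 399999), .ofNat (nat_lit 529994), .ofNat (nat_lit 448688), .ofNat (nat_lit 579996)⟩, ⟨.ofNat (nat_lit 120000), .ofNat (nat_lit 200000), .ofNat (nat_lit 120000), .ofNat (nat_lit 200000), .ofNat (nat_lit 120000), .ofNat (nat_lit 200000), .ofNat (nat_lit 120000), .ofNat (nat_lit 200000)⟩⟩, [⟨nat_lit 13, nat_lit 31, nat_lit 95, nat_lit 100, nat_lit 377263314⟩, ⟨nat_lit 3, nat_lit 100, nat_lit 36, nat_lit 77, nat_lit 437846105⟩]⟩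
noncomputable def p104_l34 : Lf2 := ⟨nat_lit 0, nat_lit 30, [nat_lit 15, nat_lit 5, nat_lit 5, nat_lit 20], false, nat_lit 80, nat_lit 160, nat_lit 0, nat_lit 396, ⟨nat_lit 0, nat_lit 384, nat_lit 616, nat_lit 4, nat_lit 180, nat_lit 1000, nat_lit 105, nat_lit 616, nat_lit 104017, nat_lit 294, nat_lit 4626, nat_lit 204, nat_lit 50865880, nat_lit 11248502, nat_lit 4885618, nat_lit 3721228, false, true⟩,
 nat_lit 0, nat_lit 2859, nat_lit 0, nat_lit 839, nat_lit 2671, nat_lit 0, nat_lit 0, nat_lit 0, nat_lit 0, nat_lit 0, nat_lit 0, nat_lit 0, nat_lit 0, nat_lit 0, nat_lit 51, nat_lit 250000, nat_lit 0, nat_lit 0, [(nat_lit 29, [(nat_lit 0, nat_lit 384), (nat_lit 4, nat_lit 616)])],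
 ⟨p104_k16, nat_lit 0, nat_lit 0, nat_lit 263, nat_lit 0, nat_lit 257273, [nat_lit 973280000, nat_lit 366793600, nat_lit 116044800], [], [nat_lit 20325570314, nat_lit 21585460900, nat_lit 24587134304, nat_lit 25591850414, nat_lit 21262088474, nat_lit 22408281339, nat_lit 25192960716, nat_lit 26155464127], nat_lit 1271250, nat_lit 1271250, nat_lit 462650, nat_lit 2110950, nat_lit 490000, nat_lit 1100001, [nat_lit 230000, nat_lit 780000, nat_lit 1762500], [nat_lit 54, nat_lit 40, nat_lit 40, nat_lit 80, nat_lit 43, nat_lit 345, nat_lit 125, nat_lit 11]⟩, ⟨p104_k2, nat_lit 0, nat_lit 0, nat_lit 1007, nat_lit 0, nat_lit 1051915, [nat_lit 0, nat_lit 0, nat_lit 0], [], [nat_lit 0, nat_lit 0, nat_lit 0, nat_lit 0, nat_lit 0, nat_lit 0, nat_lit 0, nat_lit 0], nat_lit 1100001, nat_lit 1442500, nat_lit 462650, nat_lit 2110950, nat_lit 0, nat_lit 2796750, [nat_lit 1695000, nat_lit 1271250, nat_lit 1271250], [nat_lit 97,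 nat_lit 40, nat_lit 40, nat_lit 80, nat_lit 76, nat_lit 456, nat_lit 225, nat_lit 10]⟩,
 ⟨nat_lit 0, nat_lit 2237, ⟨.ofNat (nat_lit 273845), .ofNat (nat_lit 579878), .ofNat (nat_lit 317541), .ofNat (nat_lit 625429), .ofNat (nat_lit 291142), .ofNat (nat_lit 559993), .ofNat (nat_lit 339289), .ofNat (nat_lit 609995)⟩, ⟨.ofNat (nat_lit 192306), .ofNat (nat_lit 306334), .ofNat (nat_lit 200000), .ofNat (nat_lit 351885), .ofNat (nat_lit 199999), .ofNat (nat_lit 299996), .ofNat (nat_lit 200000), .ofNat (nat_lit 349998)⟩⟩, [⟨nat_lit 13, nat_lit 31, nat_lit 98, nat_lit 100, nat_lit 229093402⟩]⟩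
noncomputable def p104_l35 : Lf2 := ⟨nat_lit 0, nat_lit 30, [nat_lit 15, nat_lit 5, nat_lit 5, nat_lit 20], false, nat_lit 160, nat_lit 208, nat_lit 0, nat_lit 396, ⟨nat_lit 0, nat_lit 311, nat_lit 689, nat_lit 4, nat_lit 180, nat_lit 1000, nat_lit 144, nat_lit 689, nat_lit 194400, nat_lit 323, nat_lit 4626, nat_lit 204, nat_lit 48153834, nat_lit 11061255, nat_lit 7784911, nat_lit 4204776, false, true⟩,
 nat_lit 0, nat_lit 2885, nat_lit 0, nat_lit 2549, nat_lit 2695, nat_lit 0, nat_lit 0, nat_lit 0, nat_lit 0, nat_lit 0, nat_lit 0, nat_lit 0, nat_lit 0, nat_lit 0, nat_lit 68, nat_lit 250000, nat_lit 0, nat_lit 0, [(nat_lit 29, [(nat_lit 0, nat_lit 311), (nat_lit 4, nat_lit 689)])],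
 ⟨p104_k7, nat_lit 0, nat_lit 0, nat_lit 238, nat_lit 0, nat_lit 257273, [nat_lit 1039820000, nat_lit 153409200], [], [nat_lit 20859860618, nat_lit 21992704229, nat_lit 24806598009, nat_lit 26015473144, nat_lit 21963755156, nat_lit 23036380722, nat_lit 25834924866, nat_lit 26955339482], nat_lit 1271250, nat_lit 1271250, nat_lit 462650, nat_lit 2110950, nat_lit 1100001, nat_lit 1511000, [nat_lit 230000, nat_lit 1717500], [nat_lit 141, nat_lit 40, nat_lit 40, nat_lit 80, nat_lit 142, nat_lit 345, nat_lit 125, nat_lit 10]⟩, ⟨p104_k10, nat_lit 0, nat_lit 0, nat_lit 1006, nat_lit 0, nat_lit 1051915, [nat_lit 0, nat_lit 0], [], [nat_lit 0, nat_lit 0, nat_lit 0, nat_lit 0, nat_lit 0, nat_lit 0, nat_lit 0, nat_lit 0], nat_lit 1100001, nat_lit 1442500, nat_lit 462650, nat_lit 2110950, nat_lit 0, nat_lit 2796750, [nat_lit 1695000, nat_lit 1271250], [nat_lit 159, nat_lit 40, nat_lit 40, nat_lit 80, nat_lit 111, nat_lit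 456, nat_lit 225, nat_lit 10]⟩,
 ⟨nat_lit 0, nat_lit 2237, ⟨.ofNat (nat_lit 273845), .ofNat (nat_lit 579878), .ofNat (nat_lit 317541), .ofNat (nat_lit 625429), .ofNat (nat_lit 291142), .ofNat (nat_lit 559993), .ofNat (nat_lit 339289), .ofNat (nat_lit 609995)⟩, ⟨.ofNat (nat_lit 306334), .ofNat (nat_lit 374750), .ofNat (nat_lit 351885), .ofNat (nat_lit 420300), .ofNat (nat_lit 299996), .ofNat (nat_lit 359993), .ofNat (nat_lit 349998), .ofNat (nat_lit 409994)⟩⟩, [⟨nat_lit 13, nat_lit 44, nat_lit 90, nat_lit 100, nat_lit 147661547⟩, ⟨nat_lit 4, nat_lit 100, nat_lit 32, nat_lit 88, nat_lit 400609018⟩]⟩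
noncomputable def b_V_900_400_20_9 : St := ⟨true, nat_lit 1, nat_lit 1, nat_lit 1, nat_lit 120, nat_lit 360, nat_lit 400, nat_lit 160, nat_lit 200, nat_lit 48, nat_lit 320, nat_lit 80, nat_lit 120, nat_lit 8, nat_lit 248, nat_lit 0, nat_lit 396, nat_lit 80, nat_lit 120, nat_lit 0, nat_lit 0, nat_lit 0, nat_lit 0⟩
theorem d_V_900_400_20_9 (h : EB TB.env) : Dead b_V_900_400_20_9 := chkB_sound0 h (T :=
(.spl (nat_lit 0) (nat_lit 380)
(.spl (nat_lit 4) (nat_lit 160)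
(.spl (nat_lit 2) (nat_lit 160)
(.leaf p104_l16)
(.spl (nat_lit 4) (nat_lit 80)
(.trX (nat_lit 22) (nat_lit 100) (nat_lit 44) (nat_lit 82) (nat_lit 384) (.spl (nat_lit 2) (nat_lit 240)
(.leaf p104_l17)
(.trX (nat_lit 22) (nat_lit 100) (nat_lit 76) (nat_lit 82) (nat_lit 336) (.spl (nat_lit 1) (nat_lit 180)
(.trX (nat_lit 13) (nat_lit 60) (nat_lit 86) (nat_lit 100) (nat_lit 304) (.spl (nat_lit 0) (nat_lit 370)
(.leaf p104_l18)
(.trX (nat_lit 13) (nat_lit 53) (nat_lit 90) (nat_lit 100) (nat_lit 288) (.trZ (nat_lit 3) (nat_lit 100) (nat_lit 66) (nat_lit 45) (nat_lit 12) (.leaf p104_l19)))))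
(.spl (nat_lit 0) (nat_lit 370)
(.spl (nat_lit 6) (nat_lit 100)
(.leaf p104_l20)
(.leaf p104_l21))
(.trX (nat_lit 13) (nat_lit 53) (nat_lit 85) (nat_lit 100) (nat_lit 308) (.trZ (nat_lit 3) (nat_lit 100) (nat_lit 66) (nat_lit 45) (nat_lit 12) (.spl (nat_lit 0) (nat_lit 375)
(.leaf p104_l22)
(.trX (nat_lit 13) (nat_lit 48) (nat_lit 88) (nat_lit 100) (nat_lit 300) (.trZ (nat_lit 3) (nat_lit 100) (nat_lit 61) (nat_lit 51) (nat_lit 16) (.leaf p104_l23)))))))))))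
(.spl (nat_lit 0) (nat_lit 370)
(.leaf p104_l24)
(.trX (nat_lit 13) (nat_lit 53) (nat_lit 85) (nat_lit 100) (nat_lit 308) (.leaf p104_l25)))))
(.spl (nat_lit 2) (nat_lit 160)
(.leaf p104_l26)
(.spl (nat_lit 0) (nat_lit 370)
(.leaf p104_l27)
(.trX (nat_lit 13) (nat_lit 53) (nat_lit 85) (nat_lit 100) (nat_lit 308) (.trX (nat_lit 16) (nat_lit 53) (nat_lit 100) (nat_lit 93) (nat_lit 232) (.leaf p104_l28))))))
(.trZ (nat_lit 0) (nat_lit 100) (nat_lit 44) (nat_lit 81) (nat_lit 76) (.trX (nat_lit 13) (nat_lit 44) (nat_lit 90) (nat_lit 100) (nat_lit 288) (.trZ (nat_lit 3) (nat_lit 100) (nat_lit 54) (nat_lit 57) (nat_lit 20) (.trX (nat_lit 16) (nat_lit 44) (nat_lit 100) (nat_lit 92) (nat_lit 208) (.spl (nat_lit 4) (nat_lit 80)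
(.spl (nat_lit 3) (nat_lit 100)
(.trX (nat_lit 19) (nat_lit 100) (nat_lit 32) (nat_lit 88) (nat_lit 392) (.spl (nat_lit 0) (nat_lit 390)
(.leaf p104_l29)
(.trZ (nat_lit 0) (nat_lit 100) (nat_lit 32) (nat_lit 89) (nat_lit 100) (.trX (nat_lit 13) (nat_lit 31) (nat_lit 95) (nat_lit 100) (nat_lit 264) (.trZ (nat_lit 3) (nat_lit 100) (nat_lit 39) (nat_lit 72) (nat_lit 36) (.leaf p104_l30))))))
(.trZ (nat_lit 3) (nat_lit 100) (nat_lit 50) (nat_lit 65) (nat_lit 32) (.spl (nat_lit 2) (nat_lit 160)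
(.leaf p104_l31)
(.trX (nat_lit 22) (nat_lit 100) (nat_lit 44) (nat_lit 82) (nat_lit 384) (.spl (nat_lit 0) (nat_lit 390)
(.leaf p104_l32)
(.trX (nat_lit 13) (nat_lit 31) (nat_lit 95) (nat_lit 100) (nat_lit 264) (.trZ (nat_lit 3) (nat_lit 100) (nat_lit 36) (nat_lit 77) (nat_lit 48) (.leaf p104_l33))))))))
(.spl (nat_lit 4) (nat_lit 160)
(.leaf p104_l34)
(.leaf p104_l35))))))))) (by decide +kernel)
noncomputable def p104_l36 : Lf2 := ⟨nat_lit 1, nat_lit 30, [nat_lit 15, nat_lit 5, nat_lit 5, nat_lit 20], false, nat_lit 8, nat_lit 248, nat_lit 0, nat_lit 396, zbN0,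
 nat_lit 0, nat_lit 0, nat_lit 0, nat_lit 0, nat_lit 0, nat_lit 0, nat_lit 0, nat_lit 0, nat_lit 0, nat_lit 0, nat_lit 0, nat_lit 0, nat_lit 0, nat_lit 0, nat_lit 0, nat_lit 0, nat_lit 0, nat_lit 0, [],
 C1.Rw.none, C1.Rw.none,
 zbF0, []⟩
noncomputable def p104_l37 : Lf2 := ⟨nat_lit 0, nat_lit 30, [nat_lit 15, nat_lit 5, nat_lit 5, nat_lit 20], true, nat_lit 20, nat_lit 80, nat_lit 0, nat_lit 396, ⟨nat_lit 0, nat_lit 0, nat_lit 1000, nat_lit 4, nat_lit 145, nat_lit 1000, nat_lit 50, nat_lit 1000, nat_lit 22817, nat_lit 252, nat_lit 198017, nat_lit 324, nat_lit 57461953, nat_lit 0, nat_lit 0, nat_lit 2462468, false, false⟩,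
 nat_lit 0, nat_lit 0, nat_lit 0, nat_lit 5280, nat_lit 2273, nat_lit 0, nat_lit 0, nat_lit 0, nat_lit 0, nat_lit 0, nat_lit 0, nat_lit 0, nat_lit 0, nat_lit 0, nat_lit 139, nat_lit 250000, nat_lit 0, nat_lit 0, [(nat_lit 29, [(nat_lit 4, nat_lit 1000)])],
 ⟨p104_k7, nat_lit 0, nat_lit 0, nat_lit 228, nat_lit 0, nat_lit 0, [nat_lit 1317600001, nat_lit 278400000], [], [nat_lit 19750120578, nat_lit 21535532557, nat_lit 20627988362, nat_lit 22074653358, nat_lit 19097499221, nat_lit 20626143744, nat_lit 20374016819, nat_lit 21753130257], nat_lit 0, nat_lit 0, nat_lit 0, nat_lit 0, nat_lit 0, nat_lit 0, [], [nat_lit 141, nat_lit 40, nat_lit 40, nat_lit 80, nat_lit 142, nat_lit 272, nat_lit 60, nat_lit 9]⟩, C1.Rw.none,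
 ⟨nat_lit 0, nat_lit 2237, ⟨.ofNat (nat_lit 273845), .ofNat (nat_lit 397434), .ofNat (nat_lit 317541), .ofNat (nat_lit 441142), .ofNat (nat_lit 291142), .ofNat (nat_lit 399999), .ofNat (nat_lit 339289), .ofNat (nat_lit 448157)⟩, ⟨.ofNat (nat_lit 50000), .ofNat (nat_lit 192306), .ofNat (nat_lit 50000), .ofNat (nat_lit 200000), .ofNat (nat_lit 50000), .ofNat (nat_lit 199999), .ofNat (nat_lit 50000), .ofNat (nat_lit 200000)⟩⟩, [⟨nat_lit 3, nat_lit 100, nat_lit 36, nat_lit 77, nat_lit 393989863⟩]⟩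
noncomputable def p104_l38 : Lf2 := ⟨nat_lit 0, nat_lit 30, [nat_lit 15, nat_lit 5, nat_lit 5, nat_lit 20], true, nat_lit 20, nat_lit 80, nat_lit 0, nat_lit 384, ⟨nat_lit 0, nat_lit 335, nat_lit 665, nat_lit 4, nat_lit 203, nat_lit 1000, nat_lit 50, nat_lit 665, nat_lit 22817, nat_lit 252, nat_lit 4626, nat_lit 204, nat_lit 51736441, nat_lit 13692834, nat_lit 1570725, nat_lit 3177370, false, true⟩,
 nat_lit 0, nat_lit 0, nat_lit 0, nat_lit 6462, nat_lit 2290, nat_lit 0, nat_lit 0, nat_lit 0, nat_lit 0, nat_lit 0, nat_lit 0, nat_lit 0, nat_lit 0, nat_lit 0, nat_lit 62, nat_lit 250000, nat_lit 0, nat_lit 0, [(nat_lit 29, [(nat_lit 0, nat_lit 335), (nat_lit 4, nat_lit 665)])],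
 ⟨p104_k8, nat_lit 0, nat_lit 0, nat_lit 172, nat_lit 0, nat_lit 0, [nat_lit 1016300001, nat_lit 315588000, nat_lit 131262000], [], [nat_lit 21352380977, nat_lit 22528748612, nat_lit 24843059332, nat_lit 26007253177, nat_lit 20963231282, nat_lit 22089949682, nat_lit 24483265630, nat_lit 25598301686], nat_lit 0, nat_lit 0, nat_lit 0, nat_lit 0, nat_lit 0, nat_lit 0, [], [nat_lit 57, nat_lit 40, nat_lit 40, nat_lit 80, nat_lit 7, nat_lit 317, nat_lit 100, nat_lit 10]⟩, C1.Rw.none,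
 ⟨nat_lit 0, nat_lit 2237, ⟨.ofNat (nat_lit 397434), .ofNat (nat_lit 579878), .ofNat (nat_lit 441142), .ofNat (nat_lit 625429), .ofNat (nat_lit 399999), .ofNat (nat_lit 559993), .ofNat (nat_lit 448157), .ofNat (nat_lit 609995)⟩, ⟨.ofNat (nat_lit 50000), .ofNat (nat_lit 192306), .ofNat (nat_lit 50000), .ofNat (nat_lit 200000), .ofNat (nat_lit 50000), .ofNat (nat_lit 199999), .ofNat (nat_lit 50000), .ofNat (nat_lit 200000)⟩⟩, [⟨nat_lit 13, nat_lit 44, nat_lit 90, nat_lit 100, nat_lit 301842192⟩, ⟨nat_lit 3, nat_lit 100, nat_lit 36, nat_lit 77, nat_lit 158871525⟩, ⟨nat_lit 3, nat_lit 100, nat_lit 54, nat_lit 57, nat_lit 149681946⟩]⟩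
noncomputable def p104_l39 : Lf2 := ⟨nat_lit 0, nat_lit 30, [nat_lit 15, nat_lit 5, nat_lit 5, nat_lit 20], true, nat_lit 80, nat_lit 208, nat_lit 0, nat_lit 396, ⟨nat_lit 0, nat_lit 346, nat_lit 654, nat_lit 4, nat_lit 181, nat_lit 1000, nat_lit 119, nat_lit 654, nat_lit 132017, nat_lit 304, nat_lit 4634, nat_lit 204, nat_lit 49867614, nat_lit 11273695, nat_lit 5858691, nat_lit 3909352, false, true⟩,
 nat_lit 0, nat_lit 0, nat_lit 0, nat_lit 5161, nat_lit 2589, nat_lit 0, nat_lit 0, nat_lit 0, nat_lit 0, nat_lit 0, nat_lit 0, nat_lit 0, nat_lit 0, nat_lit 0, nat_lit 60, nat_lit 250000, nat_lit 0, nat_lit 0, [(nat_lit 29, [(nat_lit 0, nat_lit 346), (nat_lit 4, nat_lit 654)])],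
 ⟨p104_k7, nat_lit 0, nat_lit 0, nat_lit 137, nat_lit 0, nat_lit 0, [nat_lit 1008520001, nat_lit 139111200], [], [nat_lit 20005126689, nat_lit 20642605924, nat_lit 24291511105, nat_lit 24809186760, nat_lit 22066937668, nat_lit 22607664522, nat_lit 25777768919, nat_lit 26289234012], nat_lit 0, nat_lit 0, nat_lit 0, nat_lit 0, nat_lit 0, nat_lit 0, [], [nat_lit 141, nat_lit 40, nat_lit 40, nat_lit 80, nat_lit 142, nat_lit 345, nat_lit 125, nat_lit 11]⟩, C1.Rw.none,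
 ⟨nat_lit 1581, nat_lit 2237, ⟨.ofNat (nat_lit 277529), .ofNat (nat_lit 579884), .ofNat (nat_lit 322986), .ofNat (nat_lit 625433), .ofNat (nat_lit 283825), .ofNat (nat_lit 573567), .ofNat (nat_lit 330363), .ofNat (nat_lit 620197)⟩, ⟨.ofNat (nat_lit 192306), .ofNat (nat_lit 374756), .ofNat (nat_lit 200000), .ofNat (nat_lit 420305), .ofNat (nat_lit 196201), .ofNat (nat_lit 371036), .ofNat (nat_lit 200000), .ofNat (nat_lit 417666)⟩⟩, [⟨nat_lit 13, nat_lit 38, nat_lit 96, nat_lit 100, nat_lit 115254268⟩, ⟨nat_lit 13, nat_lit 31, nat_lit 100, nat_lit 99, nat_lit 67941622⟩, ⟨nat_lit 16, nat_lit 38, nat_lit 100, nat_lit 87, nat_lit 61812068⟩]⟩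
noncomputable def p104_l40 : Lf2 := ⟨nat_lit 0, nat_lit 30, [nat_lit 15, nat_lit 5, nat_lit 5, nat_lit 20], true, nat_lit 80, nat_lit 184, nat_lit 0, nat_lit 396, ⟨nat_lit 0, nat_lit 490, nat_lit 510, nat_lit 4, nat_lit 180, nat_lit 1000, nat_lit 111, nat_lit 510, nat_lit 117600, nat_lit 299, nat_lit 3437, nat_lit 217, nat_lit 50383824, nat_lit 11276093, nat_lit 5340083, nat_lit 3813174, false, true⟩,
 nat_lit 0, nat_lit 0, nat_lit 0, nat_lit 4205, nat_lit 2587, nat_lit 0, nat_lit 0, nat_lit 0, nat_lit 0, nat_lit 0, nat_lit 0, nat_lit 0, nat_lit 0, nat_lit 0, nat_lit 24, nat_lit 250000, nat_lit 0, nat_lit 0, [(nat_lit 29, [(nat_lit 0, nat_lit 490), (nat_lit 4, nat_lit 510)])],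
 ⟨p104_k15, nat_lit 0, nat_lit 0, nat_lit 114, nat_lit 0, nat_lit 0, [nat_lit 867400001, nat_lit 18116000], [], [nat_lit 20421180004, nat_lit 21086170185, nat_lit 23921644298, nat_lit 24533983511, nat_lit 21956685900, nat_lit 22539842147, nat_lit 25076162088, nat_lit 25539953896], nat_lit 0, nat_lit 0, nat_lit 0, nat_lit 0, nat_lit 0, nat_lit 0, [], [nat_lit 88, nat_lit 40, nat_lit 40, nat_lit 80, nat_lit 89, nat_lit 345, nat_lit 125, nat_lit 12]⟩, C1.Rw.none,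
 ⟨nat_lit 0, nat_lit 1582, ⟨.ofNat (nat_lit 314816), .ofNat (nat_lit 540781), .ofNat (nat_lit 360133), .ofNat (nat_lit 587413), .ofNat (nat_lit 323036), .ofNat (nat_lit 529994), .ofNat (nat_lit 371722), .ofNat (nat_lit 579996)⟩, ⟨.ofNat (nat_lit 196201), .ofNat (nat_lit 338250), .ofNat (nat_lit 200000), .ofNat (nat_lit 384882), .ofNat (nat_lit 199999), .ofNat (nat_lit 329995), .ofNat (nat_lit 200000), .ofNat (nat_lit 379997)⟩⟩, [⟨nat_lit 13, nat_lit 22, nat_lit 100, nat_lit 100, nat_lit 275863551⟩, ⟨nat_lit 16, nat_lit 23, nat_lit 100, nat_lit 91, nat_lit 34515612⟩]⟩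
noncomputable def p104_l41 : Lf2 := ⟨nat_lit 1, nat_lit 30, [nat_lit 15, nat_lit 5, nat_lit 5, nat_lit 20], false, nat_lit 8, nat_lit 248, nat_lit 0, nat_lit 396, zbN0,
 nat_lit 0, nat_lit 0, nat_lit 0, nat_lit 0, nat_lit 0, nat_lit 0, nat_lit 0, nat_lit 0, nat_lit 0, nat_lit 0, nat_lit 0, nat_lit 0, nat_lit 0, nat_lit 0, nat_lit 0, nat_lit 0, nat_lit 0, nat_lit 0, [],
 C1.Rw.none, C1.Rw.none,
 zbF0, []⟩
noncomputable def p104_l42 : Lf2 := ⟨nat_lit 0, nat_lit 30, [nat_lit 15, nat_lit 5, nat_lit 5, nat_lit 20], true, nat_lit 20, nat_lit 80, nat_lit 0, nat_lit 396, ⟨nat_lit 0, nat_lit 0, nat_lit 1000, nat_lit 4, nat_lit 145, nat_lit 1000, nat_lit 50, nat_lit 1000, nat_lit 22817, nat_lit 252, nat_lit 198017, nat_lit 324, nat_lit 57461953, nat_lit 0, nat_lit 0, nat_lit 2462468, false, false⟩,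
 nat_lit 0, nat_lit 0, nat_lit 0, nat_lit 5280, nat_lit 2273, nat_lit 0, nat_lit 0, nat_lit 0, nat_lit 0, nat_lit 0, nat_lit 0, nat_lit 0, nat_lit 0, nat_lit 0, nat_lit 139, nat_lit 250000, nat_lit 0, nat_lit 0, [(nat_lit 29, [(nat_lit 4, nat_lit 1000)])],
 ⟨p104_k7, nat_lit 0, nat_lit 0, nat_lit 228, nat_lit 0, nat_lit 0, [nat_lit 1317600001, nat_lit 278400000], [], [nat_lit 19750120578, nat_lit 21535532557, nat_lit 20627988362, nat_lit 22074653358, nat_lit 19097499221, nat_lit 20626143744, nat_lit 20374016819, nat_lit 21753130257], nat_lit 0, nat_lit 0, nat_lit 0, nat_lit 0, nat_lit 0, nat_lit 0, [], [nat_lit 141, nat_lit 40, nat_lit 40, nat_lit 80, nat_lit 142, nat_lit 272, nat_lit 60, nat_lit 9]⟩, C1.Rw.none,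
 ⟨nat_lit 0, nat_lit 2237, ⟨.ofNat (nat_lit 273845), .ofNat (nat_lit 397434), .ofNat (nat_lit 317541), .ofNat (nat_lit 441142), .ofNat (nat_lit 291142), .ofNat (nat_lit 399999), .ofNat (nat_lit 339289), .ofNat (nat_lit 448157)⟩, ⟨.ofNat (nat_lit 50000), .ofNat (nat_lit 192306), .ofNat (nat_lit 50000), .ofNat (nat_lit 200000), .ofNat (nat_lit 50000), .ofNat (nat_lit 199999), .ofNat (nat_lit 50000), .ofNat (nat_lit 200000)⟩⟩, [⟨nat_lit 3, nat_lit 100, nat_lit 36, nat_lit 77, nat_lit 393989863⟩]⟩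
noncomputable def p104_l43 : Lf2 := ⟨nat_lit 0, nat_lit 30, [nat_lit 15, nat_lit 5, nat_lit 5, nat_lit 20], true, nat_lit 20, nat_lit 80, nat_lit 0, nat_lit 384, ⟨nat_lit 0, nat_lit 335, nat_lit 665, nat_lit 4, nat_lit 203, nat_lit 1000, nat_lit 50, nat_lit 665, nat_lit 22817, nat_lit 252, nat_lit 4626, nat_lit 204, nat_lit 51736441, nat_lit 13692834, nat_lit 1570725, nat_lit 3177370, false, true⟩,
 nat_lit 0, nat_lit 0, nat_lit 0, nat_lit 6462, nat_lit 2290, nat_lit 0, nat_lit 0, nat_lit 0, nat_lit 0, nat_lit 0, nat_lit 0, nat_lit 0, nat_lit 0, nat_lit 0, nat_lit 62, nat_lit 250000, nat_lit 0, nat_lit 0, [(nat_lit 29, [(nat_lit 0, nat_lit 335), (nat_lit 4, nat_lit 665)])],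
 ⟨p104_k8, nat_lit 0, nat_lit 0, nat_lit 172, nat_lit 0, nat_lit 0, [nat_lit 1016300001, nat_lit 315588000, nat_lit 131262000], [], [nat_lit 21352380977, nat_lit 22528748612, nat_lit 24843059332, nat_lit 26007253177, nat_lit 20963231282, nat_lit 22089949682, nat_lit 24483265630, nat_lit 25598301686], nat_lit 0, nat_lit 0, nat_lit 0, nat_lit 0, nat_lit 0, nat_lit 0, [], [nat_lit 57, nat_lit 40, nat_lit 40, nat_lit 80, nat_lit 7, nat_lit 317, nat_lit 100, nat_lit 10]⟩, C1.Rw.none,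
 ⟨nat_lit 0, nat_lit 2237, ⟨.ofNat (nat_lit 397434), .ofNat (nat_lit 579878), .ofNat (nat_lit 441142), .ofNat (nat_lit 625429), .ofNat (nat_lit 399999), .ofNat (nat_lit 559993), .ofNat (nat_lit 448157), .ofNat (nat_lit 609995)⟩, ⟨.ofNat (nat_lit 50000), .ofNat (nat_lit 192306), .ofNat (nat_lit 50000), .ofNat (nat_lit 200000), .ofNat (nat_lit 50000), .ofNat (nat_lit 199999), .ofNat (nat_lit 50000), .ofNat (nat_lit 200000)⟩⟩, [⟨nat_lit 13, nat_lit 44, nat_lit 90, nat_lit 100, nat_lit 301842192⟩, ⟨nat_lit 3, nat_lit 100, nat_lit 36, nat_lit 77, nat_lit 158871525⟩, ⟨nat_lit 3, nat_lit 100, nat_lit 54, nat_lit 57, nat_lit 149681946⟩]⟩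
noncomputable def p104_l44 : Lf2 := ⟨nat_lit 0, nat_lit 30, [nat_lit 15, nat_lit 5, nat_lit 5, nat_lit 20], true, nat_lit 80, nat_lit 208, nat_lit 0, nat_lit 396, ⟨nat_lit 0, nat_lit 346, nat_lit 654, nat_lit 4, nat_lit 181, nat_lit 1000, nat_lit 119, nat_lit 654, nat_lit 132017, nat_lit 304, nat_lit 4634, nat_lit 204, nat_lit 49867614, nat_lit 11273695, nat_lit 5858691, nat_lit 3909352, false, true⟩,
 nat_lit 0, nat_lit 0, nat_lit 0, nat_lit 5161, nat_lit 2589, nat_lit 0, nat_lit 0, nat_lit 0, nat_lit 0, nat_lit 0, nat_lit 0, nat_lit 0, nat_lit 0, nat_lit 0, nat_lit 60, nat_lit 250000, nat_lit 0, nat_lit 0, [(nat_lit 29, [(nat_lit 0, nat_lit 346), (nat_lit 4, nat_lit 654)])],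
 ⟨p104_k7, nat_lit 0, nat_lit 0, nat_lit 137, nat_lit 0, nat_lit 0, [nat_lit 1008520001, nat_lit 139111200], [], [nat_lit 20005126689, nat_lit 20642605924, nat_lit 24291511105, nat_lit 24809186760, nat_lit 22066937668, nat_lit 22607664522, nat_lit 25777768919, nat_lit 26289234012], nat_lit 0, nat_lit 0, nat_lit 0, nat_lit 0, nat_lit 0, nat_lit 0, [], [nat_lit 141, nat_lit 40, nat_lit 40, nat_lit 80, nat_lit 142, nat_lit 345, nat_lit 125, nat_lit 11]⟩, C1.Rw.none,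
 ⟨nat_lit 1581, nat_lit 2237, ⟨.ofNat (nat_lit 277529), .ofNat (nat_lit 579884), .ofNat (nat_lit 322986), .ofNat (nat_lit 625433), .ofNat (nat_lit 283825), .ofNat (nat_lit 573567), .ofNat (nat_lit 330363), .ofNat (nat_lit 620197)⟩, ⟨.ofNat (nat_lit 192306), .ofNat (nat_lit 374756), .ofNat (nat_lit 200000), .ofNat (nat_lit 420305), .ofNat (nat_lit 196201), .ofNat (nat_lit 371036), .ofNat (nat_lit 200000), .ofNat (nat_lit 417666)⟩⟩, [⟨nat_lit 13, nat_lit 38, nat_lit 96, nat_lit 100, nat_lit 115254268⟩, ⟨nat_lit 13, nat_lit 31, nat_lit 100, nat_lit 99, nat_lit 67941622⟩, ⟨nat_lit 16, nat_lit 38, nat_lit 100, nat_lit 87, nat_lit 61812068⟩]⟩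
noncomputable def p104_l45 : Lf2 := ⟨nat_lit 0, nat_lit 30, [nat_lit 15, nat_lit 5, nat_lit 5, nat_lit 20], true, nat_lit 80, nat_lit 184, nat_lit 0, nat_lit 396, ⟨nat_lit 0, nat_lit 490, nat_lit 510, nat_lit 4, nat_lit 180, nat_lit 1000, nat_lit 111, nat_lit 510, nat_lit 117600, nat_lit 299, nat_lit 3437, nat_lit 217, nat_lit 50383824, nat_lit 11276093, nat_lit 5340083, nat_lit 3813174, false, true⟩,
 nat_lit 0, nat_lit 0, nat_lit 0, nat_lit 4205, nat_lit 2587, nat_lit 0, nat_lit 0, nat_lit 0, nat_lit 0, nat_lit 0, nat_lit 0, nat_lit 0, nat_lit 0, nat_lit 0, nat_lit 24, nat_lit 250000, nat_lit 0, nat_lit 0, [(nat_lit 29, [(nat_lit 0, nat_lit 490), (nat_lit 4, nat_lit 510)])],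
 ⟨p104_k15, nat_lit 0, nat_lit 0, nat_lit 114, nat_lit 0, nat_lit 0, [nat_lit 867400001, nat_lit 18116000], [], [nat_lit 20421180004, nat_lit 21086170185, nat_lit 23921644298, nat_lit 24533983511, nat_lit 21956685900, nat_lit 22539842147, nat_lit 25076162088, nat_lit 25539953896], nat_lit 0, nat_lit 0, nat_lit 0, nat_lit 0, nat_lit 0, nat_lit 0, [], [nat_lit 88, nat_lit 40, nat_lit 40, nat_lit 80, nat_lit 89, nat_lit 345, nat_lit 125, nat_lit 12]⟩, C1.Rw.none,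
 ⟨nat_lit 0, nat_lit 1582, ⟨.ofNat (nat_lit 314816), .ofNat (nat_lit 540781), .ofNat (nat_lit 360133), .ofNat (nat_lit 587413), .ofNat (nat_lit 323036), .ofNat (nat_lit 529994), .ofNat (nat_lit 371722), .ofNat (nat_lit 579996)⟩, ⟨.ofNat (nat_lit 196201), .ofNat (nat_lit 338250), .ofNat (nat_lit 200000), .ofNat (nat_lit 384882), .ofNat (nat_lit 199999), .ofNat (nat_lit 329995), .ofNat (nat_lit 200000), .ofNat (nat_lit 379997)⟩⟩, [⟨nat_lit 13, nat_lit 22, nat_lit 100, nat_lit 100, nat_lit 275863551⟩, ⟨nat_lit 16, nat_lit 23, nat_lit 100, nat_lit 91, nat_lit 34515612⟩]⟩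
noncomputable def p104_l46 : Lf2 := ⟨nat_lit 0, nat_lit 30, [nat_lit 15, nat_lit 5, nat_lit 5, nat_lit 20], true, nat_lit 8, nat_lit 248, nat_lit 0, nat_lit 396, ⟨nat_lit 0, nat_lit 1000, nat_lit 0, nat_lit 4, nat_lit 180, nat_lit 1000, nat_lit 94, nat_lit 0, nat_lit 0, nat_lit 0, nat_lit 0, nat_lit 0, nat_lit 0, nat_lit 0, nat_lit 0, nat_lit 5000000, false, true⟩,
 nat_lit 0, nat_lit 0, nat_lit 0, nat_lit 5850, nat_lit 3885, nat_lit 0, nat_lit 0, nat_lit 0, nat_lit 0, nat_lit 0, nat_lit 0, nat_lit 0, nat_lit 0, nat_lit 0, nat_lit 0, nat_lit 384700, nat_lit 0, nat_lit 0, [(nat_lit 26, [(nat_lit 0, nat_lit 102), (nat_lit 1, nat_lit 898)]), (nat_lit 29, [(nat_lit 0, nat_lit 102), (nat_lit 1, nat_lit 898)])],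
 ⟨p104_k0, nat_lit 0, nat_lit 0, nat_lit 295, nat_lit 0, nat_lit 0, [nat_lit 1117452001, nat_lit 955232800], [], [nat_lit 27319765870, nat_lit 29609918386, nat_lit 30130570285, nat_lit 31834209021, nat_lit 27169667525, nat_lit 28798521121, nat_lit 29199913857, nat_lit 30342926737], nat_lit 0, nat_lit 0, nat_lit 0, nat_lit 0, nat_lit 0, nat_lit 0, [], [nat_lit 132, nat_lit 40, nat_lit 40, nat_lit 80, nat_lit 133, nat_lit 373, nat_lit 150, nat_lit 11]⟩, C1.Rw.none,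
 ⟨nat_lit 0, nat_lit 3163, ⟨.ofNat (nat_lit 216927), .ofNat (nat_lit 638543), .ofNat (nat_lit 258627), .ofNat (nat_lit 682855), .ofNat (nat_lit 252860), .ofNat (nat_lit 599993), .ofNat (nat_lit 300250), .ofNat (nat_lit 649995)⟩, ⟨.ofNat (nat_lit 20000), .ofNat (nat_lit 440207), .ofNat (nat_lit 20000), .ofNat (nat_lit 484518), .ofNat (nat_lit 20000), .ofNat (nat_lit 409993), .ofNat (nat_lit 20000), .ofNat (nat_lit 459993)⟩⟩, [⟨nat_lit 13, nat_lit 44, nat_lit 94, nat_lit 100, nat_lit 201498806⟩, ⟨nat_lit 4, nat_lit 100, nat_lit 44, nat_lit 87, nat_lit 70005877⟩]⟩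
noncomputable def p104_l47 : Lf2 := ⟨nat_lit 1, nat_lit 30, [nat_lit 15, nat_lit 5, nat_lit 5, nat_lit 20], false, nat_lit 8, nat_lit 248, nat_lit 0, nat_lit 396, zbN0,
 nat_lit 0, nat_lit 0, nat_lit 0, nat_lit 0, nat_lit 0, nat_lit 0, nat_lit 0, nat_lit 0, nat_lit 0, nat_lit 0, nat_lit 0, nat_lit 0, nat_lit 0, nat_lit 0, nat_lit 0, nat_lit 0, nat_lit 0, nat_lit 0, [],
 C1.Rw.none, C1.Rw.none,
 zbF0, []⟩
noncomputable def p104_l48 : Lf2 := ⟨nat_lit 0, nat_lit 25, [nat_lit 44, nat_lit 5, nat_lit 5, nat_lit 20], true, nat_lit 20, nat_lit 80, nat_lit 0, nat_lit 392, ⟨nat_lit 0, nat_lit 437, nat_lit 563, nat_lit 4, nat_lit 180, nat_lit 1000, nat_lit 50, nat_lit 563, nat_lit 22817, nat_lit 252, nat_lit 4626, nat_lit 204, nat_lit 54108835, nat_lit 11316320, nat_lit 1574845, nat_lit 2917238, false, true⟩,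
 nat_lit 0, nat_lit 2547, nat_lit 0, nat_lit 4215, nat_lit 2379, nat_lit 0, nat_lit 0, nat_lit 0, nat_lit 0, nat_lit 0, nat_lit 0, nat_lit 0, nat_lit 0, nat_lit 0, nat_lit 35, nat_lit 250000, nat_lit 0, nat_lit 0, [(nat_lit 29, [(nat_lit 0, nat_lit 437), (nat_lit 4, nat_lit 563)])],
 ⟨p104_k13, nat_lit 0, nat_lit 0, nat_lit 210, nat_lit 0, nat_lit 83458, [nat_lit 910340000, nat_lit 4470800], [], [nat_lit 20555507842, nat_lit 21864263985, nat_lit 25254789970, nat_lit 26222226638, nat_lit 20357997616, nat_lit 21605124406, nat_lit 24973473037, nat_lit 25900215574], nat_lit 1271250, nat_lit 1271250, nat_lit 462650, nat_lit 2110950, nat_lit 111251, nat_lit 490000, [nat_lit 230000, nat_lit 1420000], [nat_lit 88, nat_lit 40, nat_lit 40, nat_lit 80, nat_lit 89, nat_lit 317, nat_lit 100, nat_lit 12]⟩, C1.Rw.none,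
 ⟨nat_lit 0, nat_lit 2237, ⟨.ofNat (nat_lit 273845), .ofNat (nat_lit 579878), .ofNat (nat_lit 317541), .ofNat (nat_lit 625429), .ofNat (nat_lit 291142), .ofNat (nat_lit 559993), .ofNat (nat_lit 339289), .ofNat (nat_lit 609995)⟩, ⟨.ofNat (nat_lit 50000), .ofNat (nat_lit 192306), .ofNat (nat_lit 50000), .ofNat (nat_lit 200000), .ofNat (nat_lit 50000), .ofNat (nat_lit 199999), .ofNat (nat_lit 50000), .ofNat (nat_lit 200000)⟩⟩, [⟨nat_lit 13, nat_lit 31, nat_lit 98, nat_lit 100, nat_lit 246902874⟩, ⟨nat_lit 3, nat_lit 100, nat_lit 37, nat_lit 74, nat_lit 351768825⟩]⟩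
noncomputable def p104_l49 : Lf2 := ⟨nat_lit 0, nat_lit 30, [nat_lit 15, nat_lit 5, nat_lit 5, nat_lit 20], true, nat_lit 32, nat_lit 80, nat_lit 0, nat_lit 396, ⟨nat_lit 0, nat_lit 257, nat_lit 743, nat_lit 4, nat_lit 181, nat_lit 1000, nat_lit 56, nat_lit 743, nat_lit 29400, nat_lit 257, nat_lit 4634, nat_lit 204, nat_lit 53706906, nat_lit 11401976, nat_lit 1891118, nat_lit 3023020, false, true⟩,
 nat_lit 0, nat_lit 2521, nat_lit 0, nat_lit 77016, nat_lit 2355, nat_lit 0, nat_lit 0, nat_lit 0, nat_lit 0, nat_lit 0, nat_lit 0, nat_lit 0, nat_lit 0, nat_lit 0, nat_lit 80, nat_lit 250000, nat_lit 0, nat_lit 0, [(nat_lit 29, [(nat_lit 0, nat_lit 257), (nat_lit 4, nat_lit 743)])],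
 ⟨p104_k7, nat_lit 0, nat_lit 0, nat_lit 211, nat_lit 0, nat_lit 19421, [nat_lit 1086740000, nat_lit 167240400], [], [nat_lit 20463840971, nat_lit 21011214400, nat_lit 24766884926, nat_lit 25304027276, nat_lit 20190352574, nat_lit 20753410333, nat_lit 24484019917, nat_lit 24966976075], nat_lit 1271250, nat_lit 1271250, nat_lit 462650, nat_lit 2110950, nat_lit 181601, nat_lit 490000, [nat_lit 230000, nat_lit 1717500], [nat_lit 141, nat_lit 40, nat_lit 40, nat_lit 80, nat_lit 142, nat_lit 317, nat_lit 100, nat_lit 10]⟩, C1.Rw.none,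
 ⟨nat_lit 1581, nat_lit 2237, ⟨.ofNat (nat_lit 277529), .ofNat (nat_lit 579884), .ofNat (nat_lit 322986), .ofNat (nat_lit 625433), .ofNat (nat_lit 283825), .ofNat (nat_lit 573567), .ofNat (nat_lit 330363), .ofNat (nat_lit 620197)⟩, ⟨.ofNat (nat_lit 80000), .ofNat (nat_lit 200000), .ofNat (nat_lit 80000), .ofNat (nat_lit 200000), .ofNat (nat_lit 80000), .ofNat (nat_lit 200000), .ofNat (nat_lit 80000), .ofNat (nat_lit 200000)⟩⟩, [⟨nat_lit 13, nat_lit 31, nat_lit 100, nat_lit 99, nat_lit 264146312⟩, ⟨nat_lit 3, nat_lit 100, nat_lit 34, nat_lit 81, nat_lit 465634602⟩]⟩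
noncomputable def p104_l50 : Lf2 := ⟨nat_lit 0, nat_lit 30, [nat_lit 15, nat_lit 5, nat_lit 5, nat_lit 20], true, nat_lit 48, nat_lit 80, nat_lit 0, nat_lit 396, ⟨nat_lit 0, nat_lit 394, nat_lit 606, nat_lit 4, nat_lit 180, nat_lit 1000, nat_lit 64, nat_lit 606, nat_lit 38400, nat_lit 263, nat_lit 3437, nat_lit 217, nat_lit 53313998, nat_lit 11371871, nat_lit 2314131, nat_lit 3139230, false, true⟩,
 nat_lit 0, nat_lit 2527, nat_lit 0, nat_lit 3357, nat_lit 2443, nat_lit 0, nat_lit 0, nat_lit 0, nat_lit 0, nat_lit 0, nat_lit 0, nat_lit 0, nat_lit 0, nat_lit 0, nat_lit 45, nat_lit 250000, nat_lit 0, nat_lit 0, [(nat_lit 29, [(nat_lit 0, nat_lit 394), (nat_lit 4, nat_lit 606)])],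
 ⟨p104_k15, nat_lit 0, nat_lit 0, nat_lit 183, nat_lit 0, nat_lit 93555, [nat_lit 949480000, nat_lit 14909600], [], [nat_lit 20660881331, nat_lit 21367384284, nat_lit 24236604004, nat_lit 24917602590, nat_lit 20489121254, nat_lit 21120673358, nat_lit 24000143547, nat_lit 24599217540], nat_lit 1271250, nat_lit 1271250, nat_lit 631250, nat_lit 1943250, nat_lit 279600, nat_lit 490000, [nat_lit 230000, nat_lit 1420000], [nat_lit 88, nat_lit 40, nat_lit 40, nat_lit 80, nat_lit 89, nat_lit 317, nat_lit 100, nat_lit 11]⟩, C1.Rw.none,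
 ⟨nat_lit 0, nat_lit 1582, ⟨.ofNat (nat_lit 314816), .ofNat (nat_lit 540781), .ofNat (nat_lit 360133), .ofNat (nat_lit 587413), .ofNat (nat_lit 323036), .ofNat (nat_lit 529994), .ofNat (nat_lit 371722), .ofNat (nat_lit 579996)⟩, ⟨.ofNat (nat_lit 120000), .ofNat (nat_lit 200000), .ofNat (nat_lit 120000), .ofNat (nat_lit 200000), .ofNat (nat_lit 120000), .ofNat (nat_lit 200000), .ofNat (nat_lit 120000), .ofNat (nat_lit 200000)⟩⟩, [⟨nat_lit 13, nat_lit 31, nat_lit 95, nat_lit 100, nat_lit 244095090⟩, ⟨nat_lit 3, nat_lit 100, nat_lit 25, nat_lit 86, nat_lit 103613486⟩, ⟨nat_lit 3, nat_lit 100, nat_lit 36, nat_lit 77, nat_lit 372731286⟩]⟩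
noncomputable def p104_l51 : Lf2 := ⟨nat_lit 1, nat_lit 30, [nat_lit 15, nat_lit 5, nat_lit 5, nat_lit 20], false, nat_lit 32, nat_lit 80, nat_lit 0, nat_lit 396, zbN0,
 nat_lit 0, nat_lit 0, nat_lit 0, nat_lit 0, nat_lit 0, nat_lit 0, nat_lit 0, nat_lit 0, nat_lit 0, nat_lit 0, nat_lit 0, nat_lit 0, nat_lit 0, nat_lit 0, nat_lit 0, nat_lit 0, nat_lit 0, nat_lit 0, [],
 C1.Rw.none, C1.Rw.none,
 zbF0, []⟩
noncomputable def p104_l52 : Lf2 := ⟨nat_lit 0, nat_lit 30, [nat_lit 15, nat_lit 5, nat_lit 5, nat_lit 20], true, nat_lit 80, nat_lit 160, nat_lit 0, nat_lit 396, ⟨nat_lit 0, nat_lit 310, nat_lit 690, nat_lit 4, nat_lit 181, nat_lit 1000, nat_lit 105, nat_lit 690, nat_lit 104017, nat_lit 294, nat_lit 4634, nat_lit 204, nat_lit 50776313, nat_lit 11326472, nat_lit 4897215, nat_lit 3732816, false, true⟩,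
 nat_lit 0, nat_lit 2697, nat_lit 0, nat_lit 2174, nat_lit 2520, nat_lit 0, nat_lit 0, nat_lit 0, nat_lit 0, nat_lit 0, nat_lit 0, nat_lit 0, nat_lit 0, nat_lit 0, nat_lit 68, nat_lit 250000, nat_lit 0, nat_lit 0, [(nat_lit 29, [(nat_lit 0, nat_lit 310), (nat_lit 4, nat_lit 690)])],
 ⟨p104_k7, nat_lit 0, nat_lit 0, nat_lit 182, nat_lit 0, nat_lit 91124, [nat_lit 1039800001, nat_lit 148332000], [], [nat_lit 20191801882, nat_lit 20695551350, nat_lit 24199253092, nat_lit 24706699928, nat_lit 20918042073, nat_lit 21421140187, nat_lit 24833135236, nat_lit 25349276965], nat_lit 1271250, nat_lit 1271250, nat_lit 462650, nat_lit 2110950, nat_lit 490000, nat_lit 1100001, [nat_lit 230000, nat_lit 1717500], [nat_lit 141, nat_lit 40, nat_lit 40, nat_lit 80, nat_lit 142, nat_lit 345, nat_lit 125, nat_lit 11]⟩, C1.Rw.none,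
 ⟨nat_lit 1581, nat_lit 2237, ⟨.ofNat (nat_lit 277529), .ofNat (nat_lit 579884), .ofNat (nat_lit 322986), .ofNat (nat_lit 625433), .ofNat (nat_lit 283825), .ofNat (nat_lit 573567), .ofNat (nat_lit 330363), .ofNat (nat_lit 620197)⟩, ⟨.ofNat (nat_lit 192306), .ofNat (nat_lit 306337), .ofNat (nat_lit 200000), .ofNat (nat_lit 351886), .ofNat (nat_lit 196201), .ofNat (nat_lit 305473), .ofNat (nat_lit 200000), .ofNat (nat_lit 352103)⟩⟩, [⟨nat_lit 13, nat_lit 38, nat_lit 96, nat_lit 100, nat_lit 169782490⟩, ⟨nat_lit 13, nat_lit 31, nat_lit 100, nat_lit 99, nat_lit 24610069⟩]⟩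
noncomputable def p104_l53 : Lf2 := ⟨nat_lit 0, nat_lit 30, [nat_lit 15, nat_lit 5, nat_lit 5, nat_lit 20], true, nat_lit 80, nat_lit 160, nat_lit 0, nat_lit 396, ⟨nat_lit 0, nat_lit 437, nat_lit 563, nat_lit 4, nat_lit 180, nat_lit 1000, nat_lit 105, nat_lit 563, nat_lit 104017, nat_lit 294, nat_lit 3437, nat_lit 217, nat_lit 50805332, nat_lit 11298772, nat_lit 4895896, nat_lit 3729264, false, true⟩,
 nat_lit 0, nat_lit 2762, nat_lit 0, nat_lit 451, nat_lit 2670, nat_lit 0, nat_lit 0, nat_lit 0, nat_lit 0, nat_lit 0, nat_lit 0, nat_lit 0, nat_lit 0, nat_lit 0, nat_lit 35, nat_lit 250000, nat_lit 0, nat_lit 0, [(nat_lit 29, [(nat_lit 0, nat_lit 437), (nat_lit 4, nat_lit 563)])],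
 ⟨p104_k15, nat_lit 0, nat_lit 0, nat_lit 185, nat_lit 0, nat_lit 177786, [nat_lit 910340000, nat_lit 4470800], [], [nat_lit 20379421615, nat_lit 21088243180, nat_lit 23964203180, nat_lit 24659474464, nat_lit 21281445855, nat_lit 21877945520, nat_lit 24557847223, nat_lit 25124633936], nat_lit 1271250, nat_lit 1271250, nat_lit 631250, nat_lit 1943250, nat_lit 490000, nat_lit 1100001, [nat_lit 230000, nat_lit 1420000], [nat_lit 88, nat_lit 40, nat_lit 40, nat_lit 80, nat_lit 89, nat_lit 345, nat_lit 125, nat_lit 12]⟩, C1.Rw.none,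
 ⟨nat_lit 0, nat_lit 1582, ⟨.ofNat (nat_lit 314816), .ofNat (nat_lit 540781), .ofNat (nat_lit 360133), .ofNat (nat_lit 587413), .ofNat (nat_lit 323036), .ofNat (nat_lit 529994), .ofNat (nat_lit 371722), .ofNat (nat_lit 579996)⟩, ⟨.ofNat (nat_lit 196201), .ofNat (nat_lit 305469), .ofNat (nat_lit 200000), .ofNat (nat_lit 352101), .ofNat (nat_lit 199999), .ofNat (nat_lit 299995), .ofNat (nat_lit 200000), .ofNat (nat_lit 349997)⟩⟩, [⟨nat_lit 13, nat_lit 22, nat_lit 100, nat_lit 100, nat_lit 348141651⟩]⟩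
noncomputable def p104_l54 : Lf2 := ⟨nat_lit 0, nat_lit 30, [nat_lit 15, nat_lit 5, nat_lit 5, nat_lit 20], true, nat_lit 160, nat_lit 208, nat_lit 0, nat_lit 396, ⟨nat_lit 0, nat_lit 311, nat_lit 689, nat_lit 4, nat_lit 180, nat_lit 1000, nat_lit 144, nat_lit 689, nat_lit 194400, nat_lit 323, nat_lit 4626, nat_lit 204, nat_lit 48153834, nat_lit 11061255, nat_lit 7784911, nat_lit 4204776, false, true⟩,
 nat_lit 0, nat_lit 2885, nat_lit 0, nat_lit 39172, nat_lit 2695, nat_lit 0, nat_lit 0, nat_lit 0, nat_lit 0, nat_lit 0, nat_lit 0, nat_lit 0, nat_lit 0, nat_lit 0, nat_lit 68, nat_lit 250000, nat_lit 0, nat_lit 0, [(nat_lit 29, [(nat_lit 0, nat_lit 311), (nat_lit 4, nat_lit 689)])],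
 ⟨p104_k7, nat_lit 0, nat_lit 0, nat_lit 199, nat_lit 0, nat_lit 185987, [nat_lit 1039820000, nat_lit 153409200], [], [nat_lit 20842145221, nat_lit 21992704229, nat_lit 24806598009, nat_lit 26015473144, nat_lit 21963755156, nat_lit 23036380722, nat_lit 25834924866, nat_lit 26955339482], nat_lit 1271250, nat_lit 1271250, nat_lit 462650, nat_lit 2110950, nat_lit 1100001, nat_lit 1511000, [nat_lit 230000, nat_lit 1717500], [nat_lit 141, nat_lit 40, nat_lit 40, nat_lit 80, nat_lit 142, nat_lit 345, nat_lit 125, nat_lit 10]⟩, C1.Rw.none,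
 ⟨nat_lit 0, nat_lit 2237, ⟨.ofNat (nat_lit 273845), .ofNat (nat_lit 579878), .ofNat (nat_lit 317541), .ofNat (nat_lit 625429), .ofNat (nat_lit 291142), .ofNat (nat_lit 559993), .ofNat (nat_lit 339289), .ofNat (nat_lit 609995)⟩, ⟨.ofNat (nat_lit 306334), .ofNat (nat_lit 374750), .ofNat (nat_lit 351885), .ofNat (nat_lit 420300), .ofNat (nat_lit 299996), .ofNat (nat_lit 359993), .ofNat (nat_lit 349998), .ofNat (nat_lit 409994)⟩⟩, [⟨nat_lit 13, nat_lit 31, nat_lit 98, nat_lit 100, nat_lit 216682214⟩, ⟨nat_lit 16, nat_lit 32, nat_lit 100, nat_lit 88, nat_lit 3120420772⟩]⟩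
noncomputable def p104_l55 : Lf2 := ⟨nat_lit 1, nat_lit 30, [nat_lit 15, nat_lit 5, nat_lit 5, nat_lit 20], false, nat_lit 8, nat_lit 248, nat_lit 0, nat_lit 396, zbN0,
 nat_lit 0, nat_lit 0, nat_lit 0, nat_lit 0, nat_lit 0, nat_lit 0, nat_lit 0, nat_lit 0, nat_lit 0, nat_lit 0, nat_lit 0, nat_lit 0, nat_lit 0, nat_lit 0, nat_lit 0, nat_lit 0, nat_lit 0, nat_lit 0, [],
 C1.Rw.none, C1.Rw.none,
 zbF0, []⟩
noncomputable def p104_l56 : Lf2 := ⟨nat_lit 0, nat_lit 25, [nat_lit 44, nat_lit 5, nat_lit 5, nat_lit 20], true, nat_lit 20, nat_lit 80, nat_lit 0, nat_lit 392, ⟨nat_lit 0, nat_lit 437, nat_lit 563, nat_lit 4, nat_lit 180, nat_lit 1000, nat_lit 50, nat_lit 563, nat_lit 22817, nat_lit 252, nat_lit 4626, nat_lit 204, nat_lit 54108835, nat_lit 11316320, nat_lit 1574845, nat_lit 2917238, false, true⟩,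
 nat_lit 0, nat_lit 2547, nat_lit 0, nat_lit 4215, nat_lit 2379, nat_lit 0, nat_lit 0, nat_lit 0, nat_lit 0, nat_lit 0, nat_lit 0, nat_lit 0, nat_lit 0, nat_lit 0, nat_lit 35, nat_lit 250000, nat_lit 0, nat_lit 0, [(nat_lit 29, [(nat_lit 0, nat_lit 437), (nat_lit 4, nat_lit 563)])],
 ⟨p104_k13, nat_lit 0, nat_lit 0, nat_lit 210, nat_lit 0, nat_lit 83458, [nat_lit 910340000, nat_lit 4470800], [], [nat_lit 20555507842, nat_lit 21864263985, nat_lit 25254789970, nat_lit 26222226638, nat_lit 20357997616, nat_lit 21605124406, nat_lit 24973473037, nat_lit 25900215574], nat_lit 1271250, nat_lit 1271250, nat_lit 462650, nat_lit 2110950, nat_lit 111251, nat_lit 490000, [nat_lit 230000, nat_lit 1420000], [nat_lit 88, nat_lit 40, nat_lit 40, nat_lit 80, nat_lit 89, nat_lit 317, nat_lit 100, nat_lit 12]⟩, C1.Rw.none,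
 ⟨nat_lit 0, nat_lit 2237, ⟨.ofNat (nat_lit 273845), .ofNat (nat_lit 579878), .ofNat (nat_lit 317541), .ofNat (nat_lit 625429), .ofNat (nat_lit 291142), .ofNat (nat_lit 559993), .ofNat (nat_lit 339289), .ofNat (nat_lit 609995)⟩, ⟨.ofNat (nat_lit 50000), .ofNat (nat_lit 192306), .ofNat (nat_lit 50000), .ofNat (nat_lit 200000), .ofNat (nat_lit 50000), .ofNat (nat_lit 199999), .ofNat (nat_lit 50000), .ofNat (nat_lit 200000)⟩⟩, [⟨nat_lit 13, nat_lit 31, nat_lit 98, nat_lit 100, nat_lit 246902874⟩, ⟨nat_lit 3, nat_lit 100, nat_lit 37, nat_lit 74, nat_lit 351768825⟩]⟩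
noncomputable def p104_l57 : Lf2 := ⟨nat_lit 0, nat_lit 30, [nat_lit 15, nat_lit 5, nat_lit 5, nat_lit 20], true, nat_lit 32, nat_lit 80, nat_lit 0, nat_lit 396, ⟨nat_lit 0, nat_lit 257, nat_lit 743, nat_lit 4, nat_lit 181, nat_lit 1000, nat_lit 56, nat_lit 743, nat_lit 29400, nat_lit 257, nat_lit 4634, nat_lit 204, nat_lit 53706906, nat_lit 11401976, nat_lit 1891118, nat_lit 3023020, false, true⟩,
 nat_lit 0, nat_lit 2521, nat_lit 0, nat_lit 77016, nat_lit 2355, nat_lit 0, nat_lit 0, nat_lit 0, nat_lit 0, nat_lit 0, nat_lit 0, nat_lit 0, nat_lit 0, nat_lit 0, nat_lit 80, nat_lit 250000, nat_lit 0, nat_lit 0, [(nat_lit 29, [(nat_lit 0, nat_lit 257), (nat_lit 4, nat_lit 743)])],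
 ⟨p104_k7, nat_lit 0, nat_lit 0, nat_lit 211, nat_lit 0, nat_lit 19421, [nat_lit 1086740000, nat_lit 167240400], [], [nat_lit 20463840971, nat_lit 21011214400, nat_lit 24766884926, nat_lit 25304027276, nat_lit 20190352574, nat_lit 20753410333, nat_lit 24484019917, nat_lit 24966976075], nat_lit 1271250, nat_lit 1271250, nat_lit 462650, nat_lit 2110950, nat_lit 181601, nat_lit 490000, [nat_lit 230000, nat_lit 1717500], [nat_lit 141, nat_lit 40, nat_lit 40, nat_lit 80, nat_lit 142, nat_lit 317, nat_lit 100, nat_lit 10]⟩, C1.Rw.none,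
 ⟨nat_lit 1581, nat_lit 2237, ⟨.ofNat (nat_lit 277529), .ofNat (nat_lit 579884), .ofNat (nat_lit 322986), .ofNat (nat_lit 625433), .ofNat (nat_lit 283825), .ofNat (nat_lit 573567), .ofNat (nat_lit 330363), .ofNat (nat_lit 620197)⟩, ⟨.ofNat (nat_lit 80000), .ofNat (nat_lit 200000), .ofNat (nat_lit 80000), .ofNat (nat_lit 200000), .ofNat (nat_lit 80000), .ofNat (nat_lit 200000), .ofNat (nat_lit 80000), .ofNat (nat_lit 200000)⟩⟩, [⟨nat_lit 13, nat_lit 31, nat_lit 100, nat_lit 99, nat_lit 264146312⟩, ⟨nat_lit 3, nat_lit 100, nat_lit 34, nat_lit 81, nat_lit 465634602⟩]⟩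
noncomputable def p104_l58 : Lf2 := ⟨nat_lit 0, nat_lit 30, [nat_lit 15, nat_lit 5, nat_lit 5, nat_lit 20], true, nat_lit 48, nat_lit 80, nat_lit 0, nat_lit 396, ⟨nat_lit 0, nat_lit 394, nat_lit 606, nat_lit 4, nat_lit 180, nat_lit 1000, nat_lit 64, nat_lit 606, nat_lit 38400, nat_lit 263, nat_lit 3437, nat_lit 217, nat_lit 53313998, nat_lit 11371871, nat_lit 2314131, nat_lit 3139230, false, true⟩,
 nat_lit 0, nat_lit 2527, nat_lit 0, nat_lit 3357, nat_lit 2443, nat_lit 0, nat_lit 0, nat_lit 0, nat_lit 0, nat_lit 0, nat_lit 0, nat_lit 0, nat_lit 0, nat_lit 0, nat_lit 45, nat_lit 250000, nat_lit 0, nat_lit 0, [(nat_lit 29, [(nat_lit 0, nat_lit 394), (nat_lit 4, nat_lit 606)])],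
 ⟨p104_k15, nat_lit 0, nat_lit 0, nat_lit 183, nat_lit 0, nat_lit 93555, [nat_lit 949480000, nat_lit 14909600], [], [nat_lit 20660881331, nat_lit 21367384284, nat_lit 24236604004, nat_lit 24917602590, nat_lit 20489121254, nat_lit 21120673358, nat_lit 24000143547, nat_lit 24599217540], nat_lit 1271250, nat_lit 1271250, nat_lit 631250, nat_lit 1943250, nat_lit 279600, nat_lit 490000, [nat_lit 230000, nat_lit 1420000], [nat_lit 88, nat_lit 40, nat_lit 40, nat_lit 80, nat_lit 89, nat_lit 317, nat_lit 100, nat_lit 11]⟩, C1.Rw.none,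
 ⟨nat_lit 0, nat_lit 1582, ⟨.ofNat (nat_lit 314816), .ofNat (nat_lit 540781), .ofNat (nat_lit 360133), .ofNat (nat_lit 587413), .ofNat (nat_lit 323036), .ofNat (nat_lit 529994), .ofNat (nat_lit 371722), .ofNat (nat_lit 579996)⟩, ⟨.ofNat (nat_lit 120000), .ofNat (nat_lit 200000), .ofNat (nat_lit 120000), .ofNat (nat_lit 200000), .ofNat (nat_lit 120000), .ofNat (nat_lit 200000), .ofNat (nat_lit 120000), .ofNat (nat_lit 200000)⟩⟩, [⟨nat_lit 13, nat_lit 31, nat_lit 95, nat_lit 100, nat_lit 244095090⟩, ⟨nat_lit 3, nat_lit 100, nat_lit 25, nat_lit 86, nat_lit 103613486⟩, ⟨nat_lit 3, nat_lit 100, nat_lit 36, nat_lit 77, nat_lit 372731286⟩]⟩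
noncomputable def p104_l59 : Lf2 := ⟨nat_lit 1, nat_lit 30, [nat_lit 15, nat_lit 5, nat_lit 5, nat_lit 20], false, nat_lit 32, nat_lit 80, nat_lit 0, nat_lit 396, zbN0,
 nat_lit 0, nat_lit 0, nat_lit 0, nat_lit 0, nat_lit 0, nat_lit 0, nat_lit 0, nat_lit 0, nat_lit 0, nat_lit 0, nat_lit 0, nat_lit 0, nat_lit 0, nat_lit 0, nat_lit 0, nat_lit 0, nat_lit 0, nat_lit 0, [],
 C1.Rw.none, C1.Rw.none,
 zbF0, []⟩
noncomputable def p104_l60 : Lf2 := ⟨nat_lit 0, nat_lit 30, [nat_lit 15, nat_lit 5, nat_lit 5, nat_lit 20], true, nat_lit 80, nat_lit 208, nat_lit 0, nat_lit 396, ⟨nat_lit 0, nat_lit 0, nat_lit 1000, nat_lit 4, nat_lit 145, nat_lit 1000, nat_lit 118, nat_lit 1000, nat_lit 129067, nat_lit 303, nat_lit 198017, nat_lit 324, nat_lit 53022127, nat_lit 0, nat_lit 0, nat_lit 3486851, false, false⟩,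
 nat_lit 0, nat_lit 2731, nat_lit 0, nat_lit 830, nat_lit 2551, nat_lit 0, nat_lit 0, nat_lit 0, nat_lit 0, nat_lit 0, nat_lit 0, nat_lit 0, nat_lit 0, nat_lit 0, nat_lit 139, nat_lit 250000, nat_lit 0, nat_lit 0, [(nat_lit 29, [(nat_lit 4, nat_lit 1000)])],
 ⟨p104_k7, nat_lit 0, nat_lit 0, nat_lit 243, nat_lit 0, nat_lit 185987, [nat_lit 1317600001, nat_lit 278400000], [], [nat_lit 19063374865, nat_lit 20881265250, nat_lit 19989909223, nat_lit 21470234352, nat_lit 21397129171, nat_lit 22785368362, nat_lit 22433563979, nat_lit 23656555937], nat_lit 1271250, nat_lit 1271250, nat_lit 462650, nat_lit 1100001, nat_lit 490000, nat_lit 1490000, [nat_lit 230000, nat_lit 1717500], [nat_lit 141, nat_lit 40, nat_lit 40, nat_lit 80, nat_lit 142, nat_lit 317, nat_lit 100, nat_lit 10]⟩, C1.Rw.none,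
 ⟨nat_lit 0, nat_lit 2237, ⟨.ofNat (nat_lit 273845), .ofNat (nat_lit 397434), .ofNat (nat_lit 317541), .ofNat (nat_lit 441142), .ofNat (nat_lit 291142), .ofNat (nat_lit 399999), .ofNat (nat_lit 339289), .ofNat (nat_lit 448157)⟩, ⟨.ofNat (nat_lit 192306), .ofNat (nat_lit 374750), .ofNat (nat_lit 200000), .ofNat (nat_lit 420300), .ofNat (nat_lit 199999), .ofNat (nat_lit 359993), .ofNat (nat_lit 200000), .ofNat (nat_lit 409994)⟩⟩, [⟨nat_lit 16, nat_lit 32, nat_lit 100, nat_lit 88, nat_lit 231961935⟩]⟩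
noncomputable def p104_l61 : Lf2 := ⟨nat_lit 0, nat_lit 30, [nat_lit 15, nat_lit 5, nat_lit 5, nat_lit 20], false, nat_lit 80, nat_lit 208, nat_lit 0, nat_lit 396, ⟨nat_lit 0, nat_lit 370, nat_lit 630, nat_lit 4, nat_lit 203, nat_lit 1000, nat_lit 118, nat_lit 630, nat_lit 129067, nat_lit 303, nat_lit 4626, nat_lit 204, nat_lit 47887616, nat_lit 13387998, nat_lit 5724386, nat_lit 4116802, false, true⟩,
 nat_lit 0, nat_lit 2839, nat_lit 0, nat_lit 2804, nat_lit 2652, nat_lit 0, nat_lit 0, nat_lit 0, nat_lit 0, nat_lit 0, nat_lit 0, nat_lit 0, nat_lit 0, nat_lit 0, nat_lit 54, nat_lit 250000, nat_lit 0, nat_lit 0, [(nat_lit 29, [(nat_lit 0, nat_lit 370), (nat_lit 4, nat_lit 630)])],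
 ⟨p104_k16, nat_lit 0, nat_lit 0, nat_lit 161, nat_lit 0, nat_lit 136637, [nat_lit 985000000, nat_lit 373248000, nat_lit 116964000], [], [nat_lit 20777376464, nat_lit 21974018784, nat_lit 24243950263, nat_lit 25561573124, nat_lit 22650278972, nat_lit 23667915693, nat_lit 25903198685, nat_lit 26912220275], nat_lit 1271250, nat_lit 1271250, nat_lit 1100001, nat_lit 2196000, nat_lit 490000, nat_lit 1490000, [nat_lit 230000, nat_lit 780000, nat_lit 1762500], [nat_lit 54, nat_lit 40, nat_lit 40, nat_lit 80, nat_lit 43, nat_lit 345, nat_lit 125, nat_lit 10]⟩, ⟨p104_k2, nat_lit 0, nat_lit 0, nat_lit 714, nat_lit 0, nat_lit 567860, [nat_lit 0, nat_lit 0, nat_lit 0], [], [nat_lit 0, nat_lit 0, nat_lit 0, nat_lit 0, nat_lit 0, nat_lit 0, nat_lit 0, nat_lit 0], nat_lit 1100001, nat_lit 1442500, nat_lit 1271250, nat_lit 1271250, nat_lit 0, nat_lit 2796750, [nat_lit 1695000, nat_lit 1271250, nat_lit 1271250], [nat_lit 97,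 nat_lit 40, nat_lit 40, nat_lit 80, nat_lit 76, nat_lit 456, nat_lit 225, nat_lit 10]⟩,
 ⟨nat_lit 0, nat_lit 2237, ⟨.ofNat (nat_lit 397434), .ofNat (nat_lit 579878), .ofNat (nat_lit 441142), .ofNat (nat_lit 625429), .ofNat (nat_lit 399999), .ofNat (nat_lit 559993), .ofNat (nat_lit 448157), .ofNat (nat_lit 609995)⟩, ⟨.ofNat (nat_lit 192306), .ofNat (nat_lit 374750), .ofNat (nat_lit 200000), .ofNat (nat_lit 420300), .ofNat (nat_lit 199999), .ofNat (nat_lit 359993), .ofNat (nat_lit 200000), .ofNat (nat_lit 409994)⟩⟩, [⟨nat_lit 13, nat_lit 31, nat_lit 98, nat_lit 100, nat_lit 420039001⟩, ⟨nat_lit 4, nat_lit 100, nat_lit 32, nat_lit 88, nat_lit 123736796⟩]⟩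
noncomputable def p104_l62 : Lf2 := ⟨nat_lit 0, nat_lit 30, [nat_lit 15, nat_lit 5, nat_lit 5, nat_lit 20], true, nat_lit 8, nat_lit 248, nat_lit 0, nat_lit 396, ⟨nat_lit 0, nat_lit 1000, nat_lit 0, nat_lit 4, nat_lit 180, nat_lit 1000, nat_lit 94, nat_lit 0, nat_lit 0, nat_lit 0, nat_lit 0, nat_lit 0, nat_lit 0, nat_lit 0, nat_lit 0, nat_lit 5000000, false, true⟩,
 nat_lit 0, nat_lit 5218, nat_lit 0, nat_lit 0, nat_lit 4544, nat_lit 0, nat_lit 0, nat_lit 0, nat_lit 0, nat_lit 0, nat_lit 0, nat_lit 0, nat_lit 0, nat_lit 0, nat_lit 0, nat_lit 307900, nat_lit 0, nat_lit 0, [(nat_lit 26, [(nat_lit 0, nat_lit 614), (nat_lit 1, nat_lit 386)]), (nat_lit 29, [(nat_lit 0, nat_lit 614), (nat_lit 1, nat_lit 386)])],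
 ⟨p104_k0, nat_lit 0, nat_lit 0, nat_lit 393, nat_lit 0, nat_lit 204270, [nat_lit 925964001, nat_lit 2072973746], [], [nat_lit 31155893487, nat_lit 32886201558, nat_lit 32229337008, nat_lit 33607928609, nat_lit 29663244715, nat_lit 30973377447, nat_lit 31536251846, nat_lit 31205340505], nat_lit 1271250, nat_lit 1271250, nat_lit 279600, nat_lit 2323000, nat_lit 43600, nat_lit 1756600, [nat_lit 230000, nat_lit 2015000], [nat_lit 132, nat_lit 40, nat_lit 40, nat_lit 80, nat_lit 133, nat_lit 373, nat_lit 150, nat_lit 11]⟩, C1.Rw.none,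
 ⟨nat_lit 0, nat_lit 3163, ⟨.ofNat (nat_lit 216927), .ofNat (nat_lit 638543), .ofNat (nat_lit 258627), .ofNat (nat_lit 682855), .ofNat (nat_lit 252860), .ofNat (nat_lit 599993), .ofNat (nat_lit 300250), .ofNat (nat_lit 649995)⟩, ⟨.ofNat (nat_lit 20000), .ofNat (nat_lit 440207), .ofNat (nat_lit 20000), .ofNat (nat_lit 484518), .ofNat (nat_lit 20000), .ofNat (nat_lit 409993), .ofNat (nat_lit 20000), .ofNat (nat_lit 459993)⟩⟩, [⟨nat_lit 13, nat_lit 44, nat_lit 94, nat_lit 100, nat_lit 146349630⟩, ⟨nat_lit 16, nat_lit 44, nat_lit 100, nat_lit 87, nat_lit 53386138⟩]⟩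
noncomputable def b_V_900_400_20_10 : St := ⟨true, nat_lit 2, nat_lit 2, nat_lit 0, nat_lit 120, nat_lit 360, nat_lit 400, nat_lit 160, nat_lit 200, nat_lit 48, nat_lit 320, nat_lit 80, nat_lit 120, nat_lit 8, nat_lit 248, nat_lit 0, nat_lit 396, nat_lit 120, nat_lit 144, nat_lit 0, nat_lit 0, nat_lit 0, nat_lit 0⟩
theorem d_V_900_400_20_10 (h : EB TB.env) : Dead b_V_900_400_20_10 := chkB_sound0 h (T :=
(.st (nat_lit 0)
(.gv
(.st (nat_lit 1)
(.spl (nat_lit 0) (nat_lit 380)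
(.leaf p104_l36)
(.trZ (nat_lit 0) (nat_lit 100) (nat_lit 44) (nat_lit 81) (nat_lit 76) (.trX (nat_lit 13) (nat_lit 44) (nat_lit 90) (nat_lit 100) (nat_lit 288) (.trZ (nat_lit 3) (nat_lit 100) (nat_lit 54) (nat_lit 57) (nat_lit 20) (.trX (nat_lit 16) (nat_lit 44) (nat_lit 100) (nat_lit 92) (nat_lit 208) (.spl (nat_lit 4) (nat_lit 80)
(.spl (nat_lit 2) (nat_lit 160)
(.leaf p104_l37)
(.trX (nat_lit 22) (nat_lit 100) (nat_lit 44) (nat_lit 82) (nat_lit 384) (.leaf p104_l38)))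
(.spl (nat_lit 0) (nat_lit 390)
(.leaf p104_l39)
(.trZ (nat_lit 0) (nat_lit 100) (nat_lit 32) (nat_lit 89) (nat_lit 100) (.trX (nat_lit 13) (nat_lit 31) (nat_lit 95) (nat_lit 100) (nat_lit 264) (.trX (nat_lit 16) (nat_lit 31) (nat_lit 100) (nat_lit 92) (nat_lit 184) (.leaf p104_l40)))))))))))
(.spl (nat_lit 0) (nat_lit 380)
(.leaf p104_l41)
(.trZ (nat_lit 0) (nat_lit 100) (nat_lit 44) (nat_lit 81) (nat_lit 76) (.trX (nat_lit 13) (nat_lit 44) (nat_lit 90) (nat_lit 100) (nat_lit 288) (.trZ (nat_lit 3) (nat_lit 100) (nat_lit 54) (nat_lit 57) (nat_lit 20) (.trX (nat_lit 16) (nat_lit 44) (nat_lit 100) (nat_lit 92) (nat_lit 208) (.spl (nat_lit 4) (nat_lit 80)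
(.spl (nat_lit 2) (nat_lit 160)
(.leaf p104_l42)
(.trX (nat_lit 22) (nat_lit 100) (nat_lit 44) (nat_lit 82) (nat_lit 384) (.leaf p104_l43)))
(.spl (nat_lit 0) (nat_lit 390)
(.leaf p104_l44)
(.trZ (nat_lit 0) (nat_lit 100) (nat_lit 32) (nat_lit 89) (nat_lit 100) (.trX (nat_lit 13) (nat_lit 31) (nat_lit 95) (nat_lit 100) (nat_lit 264) (.trX (nat_lit 16) (nat_lit 31) (nat_lit 100) (nat_lit 92) (nat_lit 184) (.leaf p104_l45))))))))))))
(.leaf p104_l46))
(.gv
(.st (nat_lit 1)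
(.spl (nat_lit 0) (nat_lit 380)
(.leaf p104_l47)
(.trZ (nat_lit 0) (nat_lit 100) (nat_lit 44) (nat_lit 81) (nat_lit 76) (.trX (nat_lit 13) (nat_lit 44) (nat_lit 90) (nat_lit 100) (nat_lit 288) (.trZ (nat_lit 3) (nat_lit 100) (nat_lit 54) (nat_lit 57) (nat_lit 20) (.trX (nat_lit 16) (nat_lit 44) (nat_lit 100) (nat_lit 92) (nat_lit 208) (.spl (nat_lit 4) (nat_lit 80)
(.spl (nat_lit 3) (nat_lit 100)
(.trX (nat_lit 19) (nat_lit 100) (nat_lit 32) (nat_lit 88) (nat_lit 392) (.leaf p104_l48))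
(.trZ (nat_lit 3) (nat_lit 100) (nat_lit 50) (nat_lit 65) (nat_lit 32) (.spl (nat_lit 6) (nat_lit 136)
(.spl (nat_lit 0) (nat_lit 390)
(.leaf p104_l49)
(.trZ (nat_lit 0) (nat_lit 100) (nat_lit 32) (nat_lit 89) (nat_lit 100) (.trX (nat_lit 13) (nat_lit 31) (nat_lit 95) (nat_lit 100) (nat_lit 264) (.trZ (nat_lit 3) (nat_lit 100) (nat_lit 36) (nat_lit 77) (nat_lit 48) (.leaf p104_l50)))))
(.leaf p104_l51))))
(.spl (nat_lit 4) (nat_lit 160)
(.spl (nat_lit 0) (nat_lit 390)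
(.leaf p104_l52)
(.trZ (nat_lit 0) (nat_lit 100) (nat_lit 32) (nat_lit 89) (nat_lit 100) (.trX (nat_lit 13) (nat_lit 31) (nat_lit 95) (nat_lit 100) (nat_lit 264) (.leaf p104_l53))))
(.leaf p104_l54))))))))
(.spl (nat_lit 0) (nat_lit 380)
(.leaf p104_l55)
(.trZ (nat_lit 0) (nat_lit 100) (nat_lit 44) (nat_lit 81) (nat_lit 76) (.trX (nat_lit 13) (nat_lit 44) (nat_lit 90) (nat_lit 100) (nat_lit 288) (.trZ (nat_lit 3) (nat_lit 100) (nat_lit 54) (nat_lit 57) (nat_lit 20) (.trX (nat_lit 16) (nat_lit 44) (nat_lit 100) (nat_lit 92) (nat_lit 208) (.spl (nat_lit 4) (nat_lit 80)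
(.spl (nat_lit 3) (nat_lit 100)
(.trX (nat_lit 19) (nat_lit 100) (nat_lit 32) (nat_lit 88) (nat_lit 392) (.leaf p104_l56))
(.trZ (nat_lit 3) (nat_lit 100) (nat_lit 50) (nat_lit 65) (nat_lit 32) (.spl (nat_lit 6) (nat_lit 136)
(.spl (nat_lit 0) (nat_lit 390)
(.leaf p104_l57)
(.trZ (nat_lit 0) (nat_lit 100) (nat_lit 32) (nat_lit 89) (nat_lit 100) (.trX (nat_lit 13) (nat_lit 31) (nat_lit 95) (nat_lit 100) (nat_lit 264) (.trZ (nat_lit 3) (nat_lit 100) (nat_lit 36) (nat_lit 77) (nat_lit 48) (.leaf p104_l58)))))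
(.leaf p104_l59))))
(.spl (nat_lit 2) (nat_lit 160)
(.leaf p104_l60)
(.leaf p104_l61)))))))))
(.leaf p104_l62)))) (by decide +kernel)
noncomputable def p104_l63 : Lf2 := ⟨nat_lit 0, nat_lit 10, [nat_lit 0, nat_lit 5, nat_lit 5, nat_lit 20], false, nat_lit 0, nat_lit 200, nat_lit 0, nat_lit 360, ⟨nat_lit 300, nat_lit 0, nat_lit 700, nat_lit 5, nat_lit 217, nat_lit 700, nat_lit 67, nat_lit 700, nat_lit 41667, nat_lit 265, nat_lit 280606, nat_lit 200, nat_lit 51818791, nat_lit 0, nat_lit 0, nat_lit 2675584, false, true⟩,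
 nat_lit 0, nat_lit 0, nat_lit 0, nat_lit 0, nat_lit 3057, nat_lit 3746, nat_lit 0, nat_lit 0, nat_lit 0, nat_lit 0, nat_lit 0, nat_lit 0, nat_lit 0, nat_lit 0, nat_lit 0, nat_lit 175000, nat_lit 0, nat_lit 0, [(nat_lit 24, [(nat_lit 4, nat_lit 700)]), (nat_lit 27, [(nat_lit 4, nat_lit 700)])],
 ⟨p104_k17, nat_lit 0, nat_lit 0, nat_lit 166, nat_lit 0, nat_lit 0, [nat_lit 814520001, nat_lit 666920000], [], [nat_lit 20112564872, nat_lit 24295396164, nat_lit 28935516344, nat_lit 31440350134, nat_lit 20694034066, nat_lit 23267420548, nat_lit 27693744499, nat_lit 29771122747], nat_lit 0, nat_lit 0, nat_lit 0, nat_lit 0, nat_lit 0, nat_lit 0, [], [nat_lit 86, nat_lit 40, nat_lit 40, nat_lit 80, nat_lit 87, nat_lit 373, nat_lit 150, nat_lit 17]⟩, ⟨p104_k18, nat_lit 0, nat_lit 0, nat_lit 221, nat_lit 0, nat_lit 0, [nat_lit 1875000000, nat_lit 3561600000], [], [nat_lit 9426406608, nat_lit 10375786904, nat_lit 13482256125,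 nat_lit 13768111636, nat_lit 10928952736, nat_lit 11192193856, nat_lit 11468229515, nat_lit 11407115926], nat_lit 0, nat_lit 0, nat_lit 0, nat_lit 0, nat_lit 0, nat_lit 0, [], [nat_lit 107, nat_lit 40, nat_lit 40, nat_lit 80, nat_lit 12, nat_lit 483, nat_lit 250, nat_lit 13]⟩,
 ⟨nat_lit 0, nat_lit 3163, ⟨.ofNat (nat_lit 309443), .ofNat (nat_lit 731616), .ofNat (nat_lit 351143), .ofNat (nat_lit 775928), .ofNat (nat_lit 342303), .ofNat (nat_lit 689994), .ofNat (nat_lit 389693), .ofNat (nat_lit 739996)⟩, ⟨.ofNat (nat_lit 0), .ofNat (nat_lit 322753), .ofNat (nat_lit 0), .ofNat (nat_lit 367065), .ofNat (nat_lit 0), .ofNat (nat_lit 299993), .ofNat (nat_lit 0), .ofNat (nat_lit 349995)⟩⟩, [⟨nat_lit 7, nat_lit 77, nat_lit 100, nat_lit 72, nat_lit 35801850⟩]⟩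
noncomputable def p104_l64 : Lf2 := ⟨nat_lit 0, nat_lit 10, [nat_lit 0, nat_lit 5, nat_lit 5, nat_lit 20], true, nat_lit 0, nat_lit 80, nat_lit 0, nat_lit 360, ⟨nat_lit 0, nat_lit 1000, nat_lit 0, nat_lit 5, nat_lit 207, nat_lit 1000, nat_lit 34, nat_lit 0, nat_lit 0, nat_lit 0, nat_lit 0, nat_lit 0, nat_lit 52795136, nat_lit 14204864, nat_lit 0, nat_lit 2583056, false, true⟩,
 nat_lit 0, nat_lit 0, nat_lit 0, nat_lit 0, nat_lit 2866, nat_lit 0, nat_lit 0, nat_lit 0, nat_lit 0, nat_lit 0, nat_lit 0, nat_lit 0, nat_lit 0, nat_lit 0, nat_lit 0, nat_lit 369100, nat_lit 0, nat_lit 0, [(nat_lit 24, [(nat_lit 0, nat_lit 206), (nat_lit 1, nat_lit 794)]), (nat_lit 27, [(nat_lit 0, nat_lit 206), (nat_lit 1, nat_lit 794)])],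
 ⟨p104_k17, nat_lit 0, nat_lit 0, nat_lit 166, nat_lit 0, nat_lit 0, [nat_lit 927531201, nat_lit 1126832000], [], [nat_lit 20729246642, nat_lit 23705654632, nat_lit 27539251781, nat_lit 30081066367, nat_lit 20129190466, nat_lit 22773705186, nat_lit 26703456540, nat_lit 28612008877], nat_lit 0, nat_lit 0, nat_lit 0, nat_lit 0, nat_lit 0, nat_lit 0, [], [nat_lit 86, nat_lit 40, nat_lit 40, nat_lit 80, nat_lit 87, nat_lit 345, nat_lit 125, nat_lit 16]⟩, C1.Rw.none,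
 ⟨nat_lit 0, nat_lit 3163, ⟨.ofNat (nat_lit 309443), .ofNat (nat_lit 707235), .ofNat (nat_lit 330293), .ofNat (nat_lit 729391), .ofNat (nat_lit 342303), .ofNat (nat_lit 669993), .ofNat (nat_lit 365998), .ofNat (nat_lit 694995)⟩, ⟨.ofNat (nat_lit 0), .ofNat (nat_lit 139898), .ofNat (nat_lit 0), .ofNat (nat_lit 184209), .ofNat (nat_lit 0), .ofNat (nat_lit 149998), .ofNat (nat_lit 0), .ofNat (nat_lit 199999)⟩⟩, [⟨nat_lit 13, nat_lit 44, nat_lit 88, nat_lit 100, nat_lit 105042230⟩, ⟨nat_lit 13, nat_lit 60, nat_lit 74, nat_lit 100, nat_lit 4397007⟩, ⟨nat_lit 3, nat_lit 100, nat_lit 61, nat_lit 47, nat_lit 64029721⟩]⟩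
noncomputable def p104_l65 : Lf2 := ⟨nat_lit 0, nat_lit 10, [nat_lit 0, nat_lit 5, nat_lit 5, nat_lit 20], true, nat_lit 0, nat_lit 80, nat_lit 0, nat_lit 348, ⟨nat_lit 0, nat_lit 387, nat_lit 613, nat_lit 5, nat_lit 195, nat_lit 1000, nat_lit 34, nat_lit 613, nat_lit 10417, nat_lit 240, nat_lit 417, nat_lit 210, nat_lit 54171391, nat_lit 12828609, nat_lit 0, nat_lit 2441748, false, false⟩,
 nat_lit 0, nat_lit 0, nat_lit 0, nat_lit 0, nat_lit 2448, nat_lit 0, nat_lit 0, nat_lit 0, nat_lit 0, nat_lit 0, nat_lit 0, nat_lit 0, nat_lit 0, nat_lit 0, nat_lit 0, nat_lit 250000, nat_lit 0, nat_lit 0, [(nat_lit 24, [(nat_lit 0, nat_lit 387), (nat_lit 4, nat_lit 613)]), (nat_lit 27, [(nat_lit 0, nat_lit 387), (nat_lit 4, nat_lit 613)])],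
 ⟨p104_k17, nat_lit 0, nat_lit 0, nat_lit 163, nat_lit 0, nat_lit 0, [nat_lit 769030400, nat_lit 15199520], [], [nat_lit 18902836506, nat_lit 22402131168, nat_lit 22039376096, nat_lit 24944586816, nat_lit 18593531501, nat_lit 21031918074, nat_lit 21691009728, nat_lit 23894327264], nat_lit 0, nat_lit 0, nat_lit 0, nat_lit 0, nat_lit 0, nat_lit 0, [], [nat_lit 86, nat_lit 40, nat_lit 40, nat_lit 80, nat_lit 87, nat_lit 317, nat_lit 100, nat_lit 14]⟩, C1.Rw.none,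
 ⟨nat_lit 0, nat_lit 3163, ⟨.ofNat (nat_lit 355700), .ofNat (nat_lit 583107), .ofNat (nat_lit 376551), .ofNat (nat_lit 605128), .ofNat (nat_lit 387024), .ofNat (nat_lit 574999), .ofNat (nat_lit 410719), .ofNat (nat_lit 599865)⟩, ⟨.ofNat (nat_lit 0), .ofNat (nat_lit 139898), .ofNat (nat_lit 0), .ofNat (nat_lit 184209), .ofNat (nat_lit 0), .ofNat (nat_lit 149998), .ofNat (nat_lit 0), .ofNat (nat_lit 199999)⟩⟩, [⟨nat_lit 3, nat_lit 100, nat_lit 61, nat_lit 47, nat_lit 125910876⟩]⟩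
noncomputable def p104_l66 : Lf2 := ⟨nat_lit 0, nat_lit 10, [nat_lit 0, nat_lit 5, nat_lit 5, nat_lit 20], true, nat_lit 0, nat_lit 80, nat_lit 0, nat_lit 336, ⟨nat_lit 0, nat_lit 1000, nat_lit 0, nat_lit 6, nat_lit 267, nat_lit 1000, nat_lit 34, nat_lit 0, nat_lit 0, nat_lit 0, nat_lit 0, nat_lit 0, nat_lit 46307267, nat_lit 20692733, nat_lit 0, nat_lit 3090873, true, true⟩,
 nat_lit 0, nat_lit 0, nat_lit 0, nat_lit 0, nat_lit 2796, nat_lit 0, nat_lit 0, nat_lit 0, nat_lit 0, nat_lit 0, nat_lit 0, nat_lit 0, nat_lit 0, nat_lit 0, nat_lit 0, nat_lit 373600, nat_lit 0, nat_lit 0, [(nat_lit 24, [(nat_lit 0, nat_lit 176), (nat_lit 1, nat_lit 824)]), (nat_lit 27, [(nat_lit 0, nat_lit 176), (nat_lit 1, nat_lit 824)])],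
 ⟨p104_k17, nat_lit 0, nat_lit 0, nat_lit 164, nat_lit 0, nat_lit 0, [nat_lit 933075201, nat_lit 1106672000], [], [nat_lit 24017965426, nat_lit 26247248658, nat_lit 28248815530, nat_lit 30660747101, nat_lit 23409907538, nat_lit 25510215730, nat_lit 27529451218, nat_lit 29356719509], nat_lit 0, nat_lit 0, nat_lit 0, nat_lit 0, nat_lit 0, nat_lit 0, [], [nat_lit 86, nat_lit 40, nat_lit 40, nat_lit 80, nat_lit 87, nat_lit 226, nat_lit 20, nat_lit 9]⟩, C1.Rw.none,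
 ⟨nat_lit 0, nat_lit 3163, ⟨.ofNat (nat_lit 583107), .ofNat (nat_lit 753772), .ofNat (nat_lit 605128), .ofNat (nat_lit 775928), .ofNat (nat_lit 574999), .ofNat (nat_lit 714995), .ofNat (nat_lit 599865), .ofNat (nat_lit 739996)⟩, ⟨.ofNat (nat_lit 0), .ofNat (nat_lit 139898), .ofNat (nat_lit 0), .ofNat (nat_lit 184209), .ofNat (nat_lit 0), .ofNat (nat_lit 149998), .ofNat (nat_lit 0), .ofNat (nat_lit 199999)⟩⟩, [⟨nat_lit 13, nat_lit 61, nat_lit 68, nat_lit 100, nat_lit 246740157⟩, ⟨nat_lit 3, nat_lit 100, nat_lit 61, nat_lit 47, nat_lit 52161279⟩]⟩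
noncomputable def p104_l67 : Lf2 := ⟨nat_lit 0, nat_lit 10, [nat_lit 0, nat_lit 5, nat_lit 5, nat_lit 20], true, nat_lit 80, nat_lit 200, nat_lit 0, nat_lit 360, ⟨nat_lit 0, nat_lit 1000, nat_lit 0, nat_lit 5, nat_lit 217, nat_lit 1000, nat_lit 101, nat_lit 0, nat_lit 0, nat_lit 0, nat_lit 0, nat_lit 0, nat_lit 47696892, nat_lit 14812178, nat_lit 4490930, nat_lit 4015110, false, true⟩,
 nat_lit 0, nat_lit 0, nat_lit 0, nat_lit 0, nat_lit 3257, nat_lit 0, nat_lit 0, nat_lit 0, nat_lit 0, nat_lit 0, nat_lit 0, nat_lit 0, nat_lit 0, nat_lit 0, nat_lit 0, nat_lit 315400, nat_lit 0, nat_lit 0, [(nat_lit 24, [(nat_lit 0, nat_lit 564), (nat_lit 1, nat_lit 436)]), (nat_lit 27, [(nat_lit 0, nat_lit 564), (nat_lit 1, nat_lit 436)])],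
 ⟨p104_k17, nat_lit 0, nat_lit 0, nat_lit 103, nat_lit 0, nat_lit 0, [nat_lit 861372801, nat_lit 1378076800], [], [nat_lit 19608926077, nat_lit 22546397908, nat_lit 27090054635, nat_lit 29562095564, nat_lit 21637755547, nat_lit 24100844326, nat_lit 27905287299, nat_lit 30036493787], nat_lit 0, nat_lit 0, nat_lit 0, nat_lit 0, nat_lit 0, nat_lit 0, [], [nat_lit 86, nat_lit 40, nat_lit 40, nat_lit 80, nat_lit 87, nat_lit 373, nat_lit 150, nat_lit 17]⟩, C1.Rw.none,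
 ⟨nat_lit 0, nat_lit 3163, ⟨.ofNat (nat_lit 309443), .ofNat (nat_lit 731616), .ofNat (nat_lit 351143), .ofNat (nat_lit 775928), .ofNat (nat_lit 342303), .ofNat (nat_lit 689994), .ofNat (nat_lit 389693), .ofNat (nat_lit 739996)⟩, ⟨.ofNat (nat_lit 139898), .ofNat (nat_lit 322753), .ofNat (nat_lit 184209), .ofNat (nat_lit 367065), .ofNat (nat_lit 149998), .ofNat (nat_lit 299993), .ofNat (nat_lit 199999), .ofNat (nat_lit 349995)⟩⟩, [⟨nat_lit 13, nat_lit 61, nat_lit 68, nat_lit 100, nat_lit 57054271⟩, ⟨nat_lit 16, nat_lit 60, nat_lit 100, nat_lit 80, nat_lit 2650102⟩, ⟨nat_lit 4, nat_lit 100, nat_lit 46, nat_lit 75, nat_lit 103970984⟩]⟩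
noncomputable def p104_l68 : Lf2 := ⟨nat_lit 0, nat_lit 10, [nat_lit 0, nat_lit 5, nat_lit 5, nat_lit 20], true, nat_lit 0, nat_lit 200, nat_lit 0, nat_lit 360, ⟨nat_lit 0, nat_lit 1000, nat_lit 0, nat_lit 5, nat_lit 217, nat_lit 1000, nat_lit 67, nat_lit 0, nat_lit 0, nat_lit 0, nat_lit 0, nat_lit 0, nat_lit 0, nat_lit 0, nat_lit 0, nat_lit 5000000, false, true⟩,
 nat_lit 0, nat_lit 0, nat_lit 0, nat_lit 0, nat_lit 3341, nat_lit 0, nat_lit 0, nat_lit 0, nat_lit 0, nat_lit 0, nat_lit 0, nat_lit 0, nat_lit 0, nat_lit 0, nat_lit 0, nat_lit 294250, nat_lit 0, nat_lit 0, [(nat_lit 24, [(nat_lit 0, nat_lit 941), (nat_lit 2, nat_lit 59)]), (nat_lit 27, [(nat_lit 0, nat_lit 941), (nat_lit 2, nat_lit 59)])],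
 ⟨p104_k17, nat_lit 0, nat_lit 0, nat_lit 166, nat_lit 0, nat_lit 0, [nat_lit 859576801, nat_lit 1481588800], [], [nat_lit 20950995500, nat_lit 25172289332, nat_lit 29682731022, nat_lit 32288653817, nat_lit 21799009234, nat_lit 24224819038, nat_lit 27994135275, nat_lit 30147949624], nat_lit 0, nat_lit 0, nat_lit 0, nat_lit 0, nat_lit 0, nat_lit 0, [], [nat_lit 86, nat_lit 40, nat_lit 40, nat_lit 80, nat_lit 87, nat_lit 373, nat_lit 150, nat_lit 17]⟩, C1.Rw.none,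
 ⟨nat_lit 0, nat_lit 3163, ⟨.ofNat (nat_lit 309443), .ofNat (nat_lit 731616), .ofNat (nat_lit 351143), .ofNat (nat_lit 775928), .ofNat (nat_lit 342303), .ofNat (nat_lit 689994), .ofNat (nat_lit 389693), .ofNat (nat_lit 739996)⟩, ⟨.ofNat (nat_lit 0), .ofNat (nat_lit 322753), .ofNat (nat_lit 0), .ofNat (nat_lit 367065), .ofNat (nat_lit 0), .ofNat (nat_lit 299993), .ofNat (nat_lit 0), .ofNat (nat_lit 349995)⟩⟩, [⟨nat_lit 13, nat_lit 61, nat_lit 68, nat_lit 100, nat_lit 266298688⟩]⟩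
noncomputable def b_V_900_500_10_0 : St := ⟨true, nat_lit 0, nat_lit 2, nat_lit 0, nat_lit 80, nat_lit 360, nat_lit 400, nat_lit 200, nat_lit 240, nat_lit 80, nat_lit 352, nat_lit 40, nat_lit 80, nat_lit 0, nat_lit 200, nat_lit 0, nat_lit 360, nat_lit 0, nat_lit 40, nat_lit 0, nat_lit 0, nat_lit 0, nat_lit 0⟩
theorem d_V_900_500_10_0 (h : EB TB.env) : Dead b_V_900_500_10_0 := chkB_sound0 h (T :=
(.gv
(.st (nat_lit 1)
(.leaf p104_l63)
(.spl (nat_lit 4) (nat_lit 80)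
(.spl (nat_lit 1) (nat_lit 220)
(.trX (nat_lit 13) (nat_lit 60) (nat_lit 74) (nat_lit 100) (nat_lit 336) (.leaf p104_l64))
(.trZ (nat_lit 0) (nat_lit 100) (nat_lit 60) (nat_lit 86) (nat_lit 96) (.trX (nat_lit 19) (nat_lit 100) (nat_lit 68) (nat_lit 80) (nat_lit 348) (.spl (nat_lit 2) (nat_lit 240)
(.leaf p104_l65)
(.trX (nat_lit 22) (nat_lit 100) (nat_lit 76) (nat_lit 82) (nat_lit 336) (.leaf p104_l66))))))
(.leaf p104_l67)))
(.leaf p104_l68))) (by decide +kernel)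
noncomputable def p104_l69 : Lf2 := ⟨nat_lit 0, nat_lit 10, [nat_lit 0, nat_lit 5, nat_lit 5, nat_lit 20], false, nat_lit 0, nat_lit 200, nat_lit 0, nat_lit 160, ⟨nat_lit 728, nat_lit 0, nat_lit 272, nat_lit 5, nat_lit 185, nat_lit 272, nat_lit 67, nat_lit 272, nat_lit 41667, nat_lit 265, nat_lit 417, nat_lit 210, nat_lit 55148891, nat_lit 0, nat_lit 0, nat_lit 2333162, false, false⟩,
 nat_lit 0, nat_lit 5076, nat_lit 0, nat_lit 0, nat_lit 4420, nat_lit 7180, nat_lit 0, nat_lit 0, nat_lit 0, nat_lit 1204, nat_lit 0, nat_lit 0, nat_lit 0, nat_lit 0, nat_lit 0, nat_lit 272000, nat_lit 0, nat_lit 0, [(nat_lit 24, [(nat_lit 6, nat_lit 272)]), (nat_lit 27, [(nat_lit 6, nat_lit 272)])],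
 ⟨p104_k19, nat_lit 0, nat_lit 0, nat_lit 589, nat_lit 0, nat_lit 1216869, [nat_lit 1050281601, nat_lit 1780269867, nat_lit 2151654400], [], [nat_lit 25521524777, nat_lit 28503865840, nat_lit 27003183737, nat_lit 29882064640, nat_lit 25574271718, nat_lit 27210604238, nat_lit 27051070718, nat_lit 28422755668], nat_lit 1271250, nat_lit 1271250, nat_lit 490000, nat_lit 1740000, nat_lit 0, nat_lit 1412500, [nat_lit 230000, nat_lit 780000, nat_lit 1100000], [nat_lit 35, nat_lit 40, nat_lit 40, nat_lit 80, nat_lit 22, nat_lit 345, nat_lit 125, nat_lit 16]⟩, ⟨p104_k20, nat_lit 0, nat_lit 0, nat_lit 234, nat_lit 0, nat_lit 0, [nat_lit 4550000000, nat_lit 7164976000, nat_lit 8642816000], [], [nat_lit 17443158496, nat_lit 19455714128, nat_lit 19630718672, nat_lit 21170753728, nat_lit 13305647216, nat_lit 14830993600, nat_lit 15042663552, nat_lit 16047300016], nat_lit 0, nat_lit 0, nat_lit 0, nat_lit 0, nat_lit 0, nat_lit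 0, [], [nat_lit 46, nat_lit 40, nat_lit 40, nat_lit 80, nat_lit 41, nat_lit 401, nat_lit 175, nat_lit 11]⟩,
 ⟨nat_lit 0, nat_lit 3163, ⟨.ofNat (nat_lit 309443), .ofNat (nat_lit 560951), .ofNat (nat_lit 351143), .ofNat (nat_lit 605128), .ofNat (nat_lit 342303), .ofNat (nat_lit 549998), .ofNat (nat_lit 389693), .ofNat (nat_lit 599865)⟩, ⟨.ofNat (nat_lit 0), .ofNat (nat_lit 322753), .ofNat (nat_lit 0), .ofNat (nat_lit 367065), .ofNat (nat_lit 0), .ofNat (nat_lit 299993), .ofNat (nat_lit 0), .ofNat (nat_lit 349995)⟩⟩, [⟨nat_lit 0, nat_lit 100, nat_lit 44, nat_lit 94, nat_lit 599452040⟩, ⟨nat_lit 4, nat_lit 100, nat_lit 46, nat_lit 75, nat_lit 317531635⟩]⟩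
noncomputable def p104_l70 : Lf2 := ⟨nat_lit 0, nat_lit 10, [nat_lit 0, nat_lit 5, nat_lit 5, nat_lit 20], false, nat_lit 0, nat_lit 80, nat_lit 160, nat_lit 360, ⟨nat_lit 408, nat_lit 0, nat_lit 592, nat_lit 5, nat_lit 185, nat_lit 592, nat_lit 33, nat_lit 592, nat_lit 10417, nat_lit 240, nat_lit 417, nat_lit 210, nat_lit 55160648, nat_lit 0, nat_lit 0, nat_lit 2331813, false, false⟩,
 nat_lit 0, nat_lit 3794, nat_lit 0, nat_lit 0, nat_lit 3304, nat_lit 3472, nat_lit 112, nat_lit 0, nat_lit 0, nat_lit 0, nat_lit 0, nat_lit 0, nat_lit 0, nat_lit 0, nat_lit 0, nat_lit 236800, nat_lit 0, nat_lit 0, [(nat_lit 24, [(nat_lit 5, nat_lit 592)])],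
 ⟨p104_k19, nat_lit 0, nat_lit 0, nat_lit 510, nat_lit 0, nat_lit 1041790, [nat_lit 814153600, nat_lit 880769067, nat_lit 822476800], [], [nat_lit 21858494199, nat_lit 22891512983, nat_lit 24761034507, nat_lit 25789568523, nat_lit 21683774455, nat_lit 22690675521, nat_lit 24588191307, nat_lit 25548880667], nat_lit 1271250, nat_lit 1271250, nat_lit 490000, nat_lit 1740000, nat_lit 0, nat_lit 490000, [nat_lit 230000, nat_lit 780000, nat_lit 1100000], [nat_lit 35, nat_lit 40, nat_lit 40, nat_lit 80, nat_lit 22, nat_lit 317, nat_lit 100, nat_lit 15]⟩, ⟨p104_k20, nat_lit 0, nat_lit 0, nat_lit 121, nat_lit 0, nat_lit 0, [nat_lit 2550000000, nat_lit 4015536000, nat_lit 4843776000], [], [nat_lit 2543121376, nat_lit 3947219648, nat_lit 5016896832, nat_lit 5998772960, nat_lit 10003258768, nat_lit 10816637536, nat_lit 10555355152, nat_lit 11125709808], nat_lit 0, nat_lit 0, nat_lit 0, nat_lit 0, nat_lit 0, nat_lit 0, [],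 [nat_lit 46, nat_lit 40, nat_lit 40, nat_lit 80, nat_lit 41, nat_lit 456, nat_lit 225, nat_lit 12]⟩,
 ⟨nat_lit 2236, nat_lit 3163, ⟨.ofNat (nat_lit 316827), .ofNat (nat_lit 560952), .ofNat (nat_lit 361011), .ofNat (nat_lit 605240), .ofNat (nat_lit 328641), .ofNat (nat_lit 557014), .ofNat (nat_lit 374063), .ofNat (nat_lit 602541)⟩, ⟨.ofNat (nat_lit 0), .ofNat (nat_lit 139899), .ofNat (nat_lit 0), .ofNat (nat_lit 184209), .ofNat (nat_lit 0), .ofNat (nat_lit 146758), .ofNat (nat_lit 0), .ofNat (nat_lit 192306)⟩⟩, [⟨nat_lit 0, nat_lit 100, nat_lit 53, nat_lit 90, nat_lit 188009018⟩, ⟨nat_lit 19, nat_lit 100, nat_lit 60, nat_lit 80, nat_lit 99050051⟩, ⟨nat_lit 7, nat_lit 77, nat_lit 100, nat_lit 72, nat_lit 214924281⟩]⟩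
noncomputable def p104_l71 : Lf2 := ⟨nat_lit 0, nat_lit 10, [nat_lit 0, nat_lit 5, nat_lit 5, nat_lit 20], false, nat_lit 80, nat_lit 200, nat_lit 160, nat_lit 360, ⟨nat_lit 324, nat_lit 0, nat_lit 676, nat_lit 5, nat_lit 185, nat_lit 676, nat_lit 102, nat_lit 676, nat_lit 96267, nat_lit 291, nat_lit 417, nat_lit 210, nat_lit 50623057, nat_lit 0, nat_lit 0, nat_lit 3728739, false, false⟩,
 nat_lit 0, nat_lit 3899, nat_lit 0, nat_lit 0, nat_lit 3395, nat_lit 2653, nat_lit 12, nat_lit 0, nat_lit 0, nat_lit 0, nat_lit 0, nat_lit 0, nat_lit 0, nat_lit 0, nat_lit 0, nat_lit 270400, nat_lit 0, nat_lit 0, [(nat_lit 24, [(nat_lit 5, nat_lit 676)])],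
 ⟨p104_k19, nat_lit 0, nat_lit 0, nat_lit 418, nat_lit 0, nat_lit 956096, [nat_lit 796580801, nat_lit 540053867, nat_lit 273990400], [], [nat_lit 18506261396, nat_lit 19278988215, nat_lit 21617835518, nat_lit 22354885680, nat_lit 20573197616, nat_lit 21108031038, nat_lit 23377336008, nat_lit 23885072352], nat_lit 1271250, nat_lit 1271250, nat_lit 490000, nat_lit 1740000, nat_lit 490000, nat_lit 1427500, [nat_lit 230000, nat_lit 780000, nat_lit 1100000], [nat_lit 35, nat_lit 40, nat_lit 40, nat_lit 80, nat_lit 22, nat_lit 345, nat_lit 125, nat_lit 15]⟩, ⟨p104_k20, nat_lit 0, nat_lit 0, nat_lit 121, nat_lit 0, nat_lit 0, [nat_lit 2025000000, nat_lit 3188808000, nat_lit 3846528000], [], [nat_lit 2198408980, nat_lit 3287677856, nat_lit 4143165036, nat_lit 4907767940, nat_lit 7980199828, nat_lit 8489803558, nat_lit 8324096038, nat_lit 8772954144], nat_lit 0, nat_lit 0, nat_lit 0, nat_lit 0, nat_lit 0, nat_lit 0, [],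 [nat_lit 46, nat_lit 40, nat_lit 40, nat_lit 80, nat_lit 41, nat_lit 456, nat_lit 225, nat_lit 12]⟩,
 ⟨nat_lit 2738, nat_lit 3163, ⟨.ofNat (nat_lit 317085), .ofNat (nat_lit 560952), .ofNat (nat_lit 361370), .ofNat (nat_lit 605257), .ofNat (nat_lit 322761), .ofNat (nat_lit 559060), .ofNat (nat_lit 367571), .ofNat (nat_lit 603890)⟩, ⟨.ofNat (nat_lit 139899), .ofNat (nat_lit 322759), .ofNat (nat_lit 184209), .ofNat (nat_lit 367069), .ofNat (nat_lit 143475), .ofNat (nat_lit 320659), .ofNat (nat_lit 188310), .ofNat (nat_lit 365494)⟩⟩, [⟨nat_lit 0, nat_lit 100, nat_lit 57, nat_lit 88, nat_lit 104817943⟩, ⟨nat_lit 16, nat_lit 57, nat_lit 100, nat_lit 73, nat_lit 123121160⟩, ⟨nat_lit 16, nat_lit 60, nat_lit 100, nat_lit 80, nat_lit 166023941⟩, ⟨nat_lit 19, nat_lit 100, nat_lit 60, nat_lit 80, nat_lit 225623035⟩]⟩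
noncomputable def p104_l72 : Lf2 := ⟨nat_lit 0, nat_lit 10, [nat_lit 0, nat_lit 5, nat_lit 5, nat_lit 20], false, nat_lit 80, nat_lit 184, nat_lit 160, nat_lit 360, ⟨nat_lit 824, nat_lit 0, nat_lit 176, nat_lit 5, nat_lit 189, nat_lit 176, nat_lit 97, nat_lit 176, nat_lit 88817, nat_lit 288, nat_lit 2958, nat_lit 211, nat_lit 50487715, nat_lit 0, nat_lit 0, nat_lit 3715670, false, false⟩,
 nat_lit 0, nat_lit 4136, nat_lit 0, nat_lit 0, nat_lit 3732, nat_lit 7070, nat_lit 968, nat_lit 0, nat_lit 0, nat_lit 0, nat_lit 0, nat_lit 0, nat_lit 0, nat_lit 0, nat_lit 0, nat_lit 44000, nat_lit 0, nat_lit 0, [(nat_lit 24, [(nat_lit 4, nat_lit 176)])],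
 ⟨p104_k21, nat_lit 0, nat_lit 0, nat_lit 432, nat_lit 0, nat_lit 994630, [nat_lit 900758400, nat_lit 2628828801, nat_lit 3669945600], [], [nat_lit 19715048361, nat_lit 20811458574, nat_lit 22714054888, nat_lit 23577165936, nat_lit 20930957684, nat_lit 21876475288, nat_lit 23792629945, nat_lit 24382739177], nat_lit 1271250, nat_lit 1271250, nat_lit 573850, nat_lit 1746750, nat_lit 490000, nat_lit 1302500, [nat_lit 230000, nat_lit 780000, nat_lit 1100000], [nat_lit 35, nat_lit 40, nat_lit 40, nat_lit 80, nat_lit 22, nat_lit 345, nat_lit 125, nat_lit 15]⟩, ⟨p104_k20, nat_lit 0, nat_lit 0, nat_lit 113, nat_lit 0, nat_lit 0, [nat_lit 5150000000, nat_lit 8109808000, nat_lit 9782528000], [], [nat_lit 5068038252, nat_lit 7869760282, nat_lit 10043672776, nat_lit 12035085400, nat_lit 19963107419, nat_lit 21601418088, nat_lit 21349980100, nat_lit 22504136064], nat_lit 0, nat_lit 0, nat_lit 0, nat_lit 0, nat_lit 0, nat_lit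 0, [], [nat_lit 46, nat_lit 40, nat_lit 40, nat_lit 80, nat_lit 41, nat_lit 456, nat_lit 225, nat_lit 11]⟩,
 ⟨nat_lit 2236, nat_lit 2739, ⟨.ofNat (nat_lit 340439), .ofNat (nat_lit 559060), .ofNat (nat_lit 385234), .ofNat (nat_lit 603890), .ofNat (nat_lit 345963), .ofNat (nat_lit 557014), .ofNat (nat_lit 391471), .ofNat (nat_lit 602558)⟩, ⟨.ofNat (nat_lit 143475), .ofNat (nat_lit 297035), .ofNat (nat_lit 188310), .ofNat (nat_lit 341870), .ofNat (nat_lit 146758), .ofNat (nat_lit 294998), .ofNat (nat_lit 192306), .ofNat (nat_lit 340547)⟩⟩, [⟨nat_lit 0, nat_lit 100, nat_lit 53, nat_lit 85, nat_lit 570138737⟩, ⟨nat_lit 16, nat_lit 53, nat_lit 100, nat_lit 80, nat_lit 454431000⟩, ⟨nat_lit 19, nat_lit 100, nat_lit 60, nat_lit 80, nat_lit 594668237⟩]⟩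
noncomputable def p104_l73 : Lf2 := ⟨nat_lit 0, nat_lit 10, [nat_lit 0, nat_lit 5, nat_lit 5, nat_lit 20], false, nat_lit 0, nat_lit 164, nat_lit 160, nat_lit 360, ⟨nat_lit 1000, nat_lit 0, nat_lit 0, nat_lit 0, nat_lit 0, nat_lit 0, nat_lit 0, nat_lit 0, nat_lit 0, nat_lit 0, nat_lit 0, nat_lit 0, nat_lit 0, nat_lit 0, nat_lit 0, nat_lit 0, false, false⟩,
 nat_lit 0, nat_lit 4439, nat_lit 0, nat_lit 0, nat_lit 4147, nat_lit 8678, nat_lit 594, nat_lit 0, nat_lit 0, nat_lit 0, nat_lit 0, nat_lit 0, nat_lit 0, nat_lit 0, nat_lit 0, nat_lit 0, nat_lit 0, nat_lit 0, [],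
 ⟨p104_k22, nat_lit 0, nat_lit 0, nat_lit 464, nat_lit 0, nat_lit 1110522, [nat_lit 938000000, nat_lit 3282000000], [], [nat_lit 24760118188, nat_lit 27163742060, nat_lit 27271504350, nat_lit 29198529424, nat_lit 21686502283, nat_lit 23671617253, nat_lit 24241208842, nat_lit 25880570996], nat_lit 1271250, nat_lit 1271250, nat_lit 719601, nat_lit 1758000, nat_lit 0, nat_lit 1133651, [nat_lit 230000, nat_lit 780000], [nat_lit 66, nat_lit 40, nat_lit 40, nat_lit 80, nat_lit 67, nat_lit 345, nat_lit 125, nat_lit 20]⟩, ⟨p104_k20, nat_lit 0, nat_lit 0, nat_lit 98, nat_lit 0, nat_lit 0, [nat_lit 6250000000, nat_lit 9842000000, nat_lit 11872000000], [], [nat_lit 6038027109, nat_lit 9363174413, nat_lit 12039349160, nat_lit 14470323640, nat_lit 23730445871, nat_lit 25684746708, nat_lit 25964769108, nat_lit 27369269280], nat_lit 0, nat_lit 0, nat_lit 0, nat_lit 0, nat_lit 0, nat_lit 0, [], [nat_lit 46, nat_lit 40, nat_lit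 40, nat_lit 80, nat_lit 41, nat_lit 456, nat_lit 225, nat_lit 11]⟩,
 zbF0, [⟨nat_lit 0, nat_lit 100, nat_lit 31, nat_lit 98, nat_lit 57336335⟩, ⟨nat_lit 0, nat_lit 100, nat_lit 44, nat_lit 90, nat_lit 739303617⟩, ⟨nat_lit 4, nat_lit 100, nat_lit 35, nat_lit 80, nat_lit 146300366⟩, ⟨nat_lit 19, nat_lit 100, nat_lit 60, nat_lit 80, nat_lit 728001001⟩]⟩
noncomputable def p104_l74 : Lf2 := ⟨nat_lit 0, nat_lit 10, [nat_lit 0, nat_lit 5, nat_lit 5, nat_lit 20], false, nat_lit 0, nat_lit 80, nat_lit 0, nat_lit 336, ⟨nat_lit 745, nat_lit 0, nat_lit 255, nat_lit 6, nat_lit 266, nat_lit 255, nat_lit 33, nat_lit 255, nat_lit 10417, nat_lit 240, nat_lit 280612, nat_lit 200, nat_lit 46497972, nat_lit 0, nat_lit 0, nat_lit 3079314, true, true⟩,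
 nat_lit 0, nat_lit 4779, nat_lit 0, nat_lit 0, nat_lit 4162, nat_lit 9550, nat_lit 127, nat_lit 0, nat_lit 0, nat_lit 951, nat_lit 0, nat_lit 0, nat_lit 0, nat_lit 0, nat_lit 0, nat_lit 255000, nat_lit 0, nat_lit 0, [(nat_lit 24, [(nat_lit 6, nat_lit 255)])],
 ⟨p104_k19, nat_lit 0, nat_lit 0, nat_lit 483, nat_lit 0, nat_lit 1041790, [nat_lit 1043264001, nat_lit 1874128001, nat_lit 2244284000], [], [nat_lit 27020530217, nat_lit 27835302461, nat_lit 31842812892, nat_lit 33291890615, nat_lit 26170649721, nat_lit 26945451649, nat_lit 29207615008, nat_lit 29911555740], nat_lit 1271250, nat_lit 1271250, nat_lit 1271250, nat_lit 1271250, nat_lit 0, nat_lit 490000, [nat_lit 230000, nat_lit 780000, nat_lit 1100000], [nat_lit 35, nat_lit 40, nat_lit 40, nat_lit 80, nat_lit 22, nat_lit 226, nat_lit 20, nat_lit 9]⟩, ⟨p104_k20, nat_lit 0, nat_lit 0, nat_lit 245, nat_lit 0, nat_lit 0, [nat_lit 4656250000, nat_lit 7332290000,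 nat_lit 8844640000], [], [nat_lit 21387667440, nat_lit 22980349600, nat_lit 29872484784, nat_lit 30581503777, nat_lit 19876377548, nat_lit 20500406313, nat_lit 26165435786, nat_lit 26754894847], nat_lit 0, nat_lit 0, nat_lit 0, nat_lit 0, nat_lit 0, nat_lit 0, [], [nat_lit 46, nat_lit 40, nat_lit 40, nat_lit 80, nat_lit 41, nat_lit 483, nat_lit 250, nat_lit 12]⟩,
 ⟨nat_lit 2236, nat_lit 3163, ⟨.ofNat (nat_lit 560952), .ofNat (nat_lit 731621), .ofNat (nat_lit 605240), .ofNat (nat_lit 775931), .ofNat (nat_lit 557014), .ofNat (nat_lit 716658), .ofNat (nat_lit 602541), .ofNat (nat_lit 762206)⟩, ⟨.ofNat (nat_lit 0), .ofNat (nat_lit 139899), .ofNat (nat_lit 0), .ofNat (nat_lit 184209), .ofNat (nat_lit 0), .ofNat (nat_lit 146758), .ofNat (nat_lit 0), .ofNat (nat_lit 192306)⟩⟩, [⟨nat_lit 22, nat_lit 89, nat_lit 100, nat_lit 61, nat_lit 134564981⟩, ⟨nat_lit 22, nat_lit 100, nat_lit 76, nat_lit 82, nat_lit 13534778⟩]⟩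
noncomputable def p104_l75 : Lf2 := ⟨nat_lit 0, nat_lit 10, [nat_lit 0, nat_lit 5, nat_lit 5, nat_lit 20], false, nat_lit 0, nat_lit 80, nat_lit 0, nat_lit 336, ⟨nat_lit 1000, nat_lit 0, nat_lit 0, nat_lit 0, nat_lit 0, nat_lit 0, nat_lit 0, nat_lit 0, nat_lit 0, nat_lit 0, nat_lit 0, nat_lit 0, nat_lit 0, nat_lit 0, nat_lit 0, nat_lit 0, false, false⟩,
 nat_lit 0, nat_lit 4279, nat_lit 0, nat_lit 0, nat_lit 3998, nat_lit 16374, nat_lit 555, nat_lit 0, nat_lit 0, nat_lit 534, nat_lit 0, nat_lit 0, nat_lit 0, nat_lit 0, nat_lit 0, nat_lit 0, nat_lit 0, nat_lit 0, [],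
 ⟨p104_k22, nat_lit 0, nat_lit 0, nat_lit 450, nat_lit 0, nat_lit 1110522, [nat_lit 938000000, nat_lit 3282000000], [], [nat_lit 26938183900, nat_lit 28825464416, nat_lit 31146376274, nat_lit 32683324781, nat_lit 24710334079, nat_lit 25693992655, nat_lit 27996503868, nat_lit 29466088884], nat_lit 1271250, nat_lit 1271250, nat_lit 1271250, nat_lit 1271250, nat_lit 0, nat_lit 490000, [nat_lit 230000, nat_lit 780000], [nat_lit 66, nat_lit 40, nat_lit 40, nat_lit 80, nat_lit 67, nat_lit 226, nat_lit 20, nat_lit 11]⟩, ⟨p104_k20, nat_lit 0, nat_lit 0, nat_lit 229, nat_lit 0, nat_lit 0, [nat_lit 6250000000, nat_lit 9842000000, nat_lit 11872000000], [], [nat_lit 32298005696, nat_lit 34717875864, nat_lit 41862999591, nat_lit 43191464042, nat_lit 27049749140, nat_lit 27773899215, nat_lit 34509453932, nat_lit 35616759153], nat_lit 0, nat_lit 0, nat_lit 0, nat_lit 0, nat_lit 0, nat_lit 0, [], [nat_lit 46, nat_lit 40, nat_lit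 40, nat_lit 80, nat_lit 41, nat_lit 456, nat_lit 225, nat_lit 12]⟩,
 zbF0, [⟨nat_lit 13, nat_lit 31, nat_lit 92, nat_lit 100, nat_lit 658312547⟩, ⟨nat_lit 4, nat_lit 100, nat_lit 35, nat_lit 80, nat_lit 6707954⟩, ⟨nat_lit 22, nat_lit 100, nat_lit 76, nat_lit 82, nat_lit 93500626⟩]⟩
noncomputable def p104_l76 : Lf2 := ⟨nat_lit 0, nat_lit 10, [nat_lit 0, nat_lit 5, nat_lit 5, nat_lit 20], false, nat_lit 80, nat_lit 200, nat_lit 0, nat_lit 360, ⟨nat_lit 733, nat_lit 0, nat_lit 267, nat_lit 6, nat_lit 266, nat_lit 267, nat_lit 102, nat_lit 267, nat_lit 96267, nat_lit 291, nat_lit 280612, nat_lit 200, nat_lit 43024618, nat_lit 0, nat_lit 0, nat_lit 4349891, true, true⟩,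
 nat_lit 0, nat_lit 4638, nat_lit 0, nat_lit 0, nat_lit 4039, nat_lit 7892, nat_lit 127, nat_lit 0, nat_lit 0, nat_lit 827, nat_lit 0, nat_lit 0, nat_lit 0, nat_lit 0, nat_lit 0, nat_lit 267000, nat_lit 0, nat_lit 0, [(nat_lit 24, [(nat_lit 6, nat_lit 267)])],
 ⟨p104_k19, nat_lit 0, nat_lit 0, nat_lit 430, nat_lit 0, nat_lit 1041790, [nat_lit 1048217601, nat_lit 1807875200, nat_lit 2129285600], [], [nat_lit 25674378988, nat_lit 26504015205, nat_lit 28906482262, nat_lit 29698419002, nat_lit 26663452329, nat_lit 27403711878, nat_lit 29683628465, nat_lit 30368969237], nat_lit 1271250, nat_lit 1271250, nat_lit 1271250, nat_lit 1271250, nat_lit 490000, nat_lit 1427500, [nat_lit 230000, nat_lit 780000, nat_lit 1100000], [nat_lit 35, nat_lit 40, nat_lit 40, nat_lit 80, nat_lit 22, nat_lit 260, nat_lit 50, nat_lit 10]⟩, ⟨p104_k20, nat_lit 0, nat_lit 0, nat_lit 245, nat_lit 0, nat_lit 0, [nat_lit 4581250000, nat_lit 7214186000,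 nat_lit 8702176000], [], [nat_lit 21215711984, nat_lit 22663411032, nat_lit 28637282420, nat_lit 29340081805, nat_lit 22197187462, nat_lit 22688904336, nat_lit 26144283971, nat_lit 26595144390], nat_lit 0, nat_lit 0, nat_lit 0, nat_lit 0, nat_lit 0, nat_lit 0, [], [nat_lit 46, nat_lit 40, nat_lit 40, nat_lit 80, nat_lit 41, nat_lit 483, nat_lit 250, nat_lit 12]⟩,
 ⟨nat_lit 2236, nat_lit 3163, ⟨.ofNat (nat_lit 560952), .ofNat (nat_lit 731621), .ofNat (nat_lit 605240), .ofNat (nat_lit 775931), .ofNat (nat_lit 557014), .ofNat (nat_lit 716658), .ofNat (nat_lit 602541), .ofNat (nat_lit 762206)⟩, ⟨.ofNat (nat_lit 139899), .ofNat (nat_lit 322759), .ofNat (nat_lit 184209), .ofNat (nat_lit 367069), .ofNat (nat_lit 146758), .ofNat (nat_lit 317804), .ofNat (nat_lit 192306), .ofNat (nat_lit 363353)⟩⟩, [⟨nat_lit 4, nat_lit 100, nat_lit 54, nat_lit 73, nat_lit 423930694⟩, ⟨nat_lit 19, nat_lit 100, nat_lit 60, nat_lit 80, nat_lit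 18347333⟩, ⟨nat_lit 7, nat_lit 77, nat_lit 100, nat_lit 72, nat_lit 130312576⟩]⟩
noncomputable def p104_l77 : Lf2 := ⟨nat_lit 0, nat_lit 10, [nat_lit 0, nat_lit 5, nat_lit 5, nat_lit 20], false, nat_lit 80, nat_lit 164, nat_lit 0, nat_lit 360, ⟨nat_lit 1000, nat_lit 0, nat_lit 0, nat_lit 0, nat_lit 0, nat_lit 0, nat_lit 0, nat_lit 0, nat_lit 0, nat_lit 0, nat_lit 0, nat_lit 0, nat_lit 0, nat_lit 0, nat_lit 0, nat_lit 0, false, false⟩,
 nat_lit 0, nat_lit 4667, nat_lit 0, nat_lit 0, nat_lit 4360, nat_lit 13184, nat_lit 118, nat_lit 0, nat_lit 0, nat_lit 1039, nat_lit 0, nat_lit 0, nat_lit 0, nat_lit 0, nat_lit 0, nat_lit 0, nat_lit 0, nat_lit 0, [],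
 ⟨p104_k22, nat_lit 0, nat_lit 0, nat_lit 407, nat_lit 0, nat_lit 1110522, [nat_lit 938000000, nat_lit 3282000000], [], [nat_lit 24325395280, nat_lit 26209451360, nat_lit 28564252432, nat_lit 30102614480, nat_lit 24413519758, nat_lit 26095909352, nat_lit 28246873939, nat_lit 29633180893], nat_lit 1271250, nat_lit 1271250, nat_lit 1271250, nat_lit 1271250, nat_lit 490000, nat_lit 1133651, [nat_lit 230000, nat_lit 780000], [nat_lit 66, nat_lit 40, nat_lit 40, nat_lit 80, nat_lit 67, nat_lit 260, nat_lit 50, nat_lit 13]⟩, ⟨p104_k20, nat_lit 0, nat_lit 0, nat_lit 229, nat_lit 0, nat_lit 0, [nat_lit 6250000000, nat_lit 9842000000, nat_lit 11872000000], [], [nat_lit 29721975936, nat_lit 31888777024, nat_lit 37928968967, nat_lit 39198900746, nat_lit 29109468880, nat_lit 30058269840, nat_lit 35259563725, nat_lit 36075488068], nat_lit 0, nat_lit 0, nat_lit 0, nat_lit 0, nat_lit 0, nat_lit 0, [], [nat_lit 46, nat_lit 40,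 nat_lit 40, nat_lit 80, nat_lit 41, nat_lit 483, nat_lit 250, nat_lit 12]⟩,
 zbF0, [⟨nat_lit 13, nat_lit 31, nat_lit 92, nat_lit 100, nat_lit 453846841⟩, ⟨nat_lit 4, nat_lit 100, nat_lit 35, nat_lit 80, nat_lit 560108446⟩, ⟨nat_lit 19, nat_lit 100, nat_lit 60, nat_lit 80, nat_lit 197732325⟩]⟩
noncomputable def p104_l78 : Lf2 := ⟨nat_lit 0, nat_lit 10, [nat_lit 0, nat_lit 5, nat_lit 5, nat_lit 20], false, nat_lit 0, nat_lit 80, nat_lit 0, nat_lit 360, ⟨nat_lit 0, nat_lit 689, nat_lit 311, nat_lit 5, nat_lit 185, nat_lit 974, nat_lit 33, nat_lit 311, nat_lit 10417, nat_lit 240, nat_lit 417, nat_lit 210, nat_lit 55204516, nat_lit 11795484, nat_lit 0, nat_lit 2326767, false, false⟩,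
 nat_lit 0, nat_lit 3234, nat_lit 0, nat_lit 0, nat_lit 2816, nat_lit 0, nat_lit 101, nat_lit 0, nat_lit 0, nat_lit 0, nat_lit 0, nat_lit 0, nat_lit 0, nat_lit 0, nat_lit 0, nat_lit 296650, nat_lit 0, nat_lit 0, [(nat_lit 24, [(nat_lit 0, nat_lit 689), (nat_lit 5, nat_lit 311)])],
 ⟨p104_k19, nat_lit 0, nat_lit 0, nat_lit 335, nat_lit 0, nat_lit 596999, [nat_lit 752501601, nat_lit 701245334, nat_lit 602869866], [], [nat_lit 20014271438, nat_lit 20559301694, nat_lit 22994321906, nat_lit 23511980767, nat_lit 19786194062, nat_lit 20297096102, nat_lit 22757674514, nat_lit 23289672919], nat_lit 1271250, nat_lit 1271250, nat_lit 490000, nat_lit 1740000, nat_lit 0, nat_lit 490000, [nat_lit 230000, nat_lit 780000, nat_lit 1100000], [nat_lit 35, nat_lit 40, nat_lit 40, nat_lit 80, nat_lit 22, nat_lit 317, nat_lit 100, nat_lit 15]⟩, ⟨p104_k20, nat_lit 0, nat_lit 0, nat_lit 1007, nat_lit 0, nat_lit 1430103, [nat_lit 0,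 nat_lit 0, nat_lit 0], [], [nat_lit 0, nat_lit 0, nat_lit 0, nat_lit 0, nat_lit 0, nat_lit 0, nat_lit 0, nat_lit 0], nat_lit 1271250, nat_lit 1271250, nat_lit 490000, nat_lit 1740000, nat_lit 0, nat_lit 2542500, [nat_lit 1412500, nat_lit 1271250, nat_lit 1271250], [nat_lit 46, nat_lit 40, nat_lit 40, nat_lit 80, nat_lit 41, nat_lit 456, nat_lit 225, nat_lit 12]⟩,
 ⟨nat_lit 2738, nat_lit 3163, ⟨.ofNat (nat_lit 317085), .ofNat (nat_lit 560952), .ofNat (nat_lit 361370), .ofNat (nat_lit 605257), .ofNat (nat_lit 322761), .ofNat (nat_lit 559060), .ofNat (nat_lit 367571), .ofNat (nat_lit 603890)⟩, ⟨.ofNat (nat_lit 0), .ofNat (nat_lit 139899), .ofNat (nat_lit 0), .ofNat (nat_lit 184209), .ofNat (nat_lit 0), .ofNat (nat_lit 143475), .ofNat (nat_lit 0), .ofNat (nat_lit 188310)⟩⟩, []⟩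
noncomputable def p104_l79 : Lf2 := ⟨nat_lit 0, nat_lit 10, [nat_lit 0, nat_lit 5, nat_lit 5, nat_lit 20], false, nat_lit 0, nat_lit 80, nat_lit 0, nat_lit 360, ⟨nat_lit 0, nat_lit 1000, nat_lit 0, nat_lit 5, nat_lit 189, nat_lit 1000, nat_lit 34, nat_lit 0, nat_lit 0, nat_lit 0, nat_lit 0, nat_lit 0, nat_lit 54742065, nat_lit 12257935, nat_lit 0, nat_lit 2379217, false, false⟩,
 nat_lit 0, nat_lit 3137, nat_lit 0, nat_lit 0, nat_lit 2830, nat_lit 0, nat_lit 293, nat_lit 0, nat_lit 0, nat_lit 0, nat_lit 0, nat_lit 0, nat_lit 0, nat_lit 0, nat_lit 0, nat_lit 250000, nat_lit 0, nat_lit 0, [(nat_lit 24, [(nat_lit 0, nat_lit 1000)])],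
 ⟨p104_k21, nat_lit 0, nat_lit 0, nat_lit 345, nat_lit 0, nat_lit 624213, [nat_lit 763200001, nat_lit 1367200000, nat_lit 1705600000], [], [nat_lit 20572947586, nat_lit 21563660924, nat_lit 23597204277, nat_lit 24325309500, nat_lit 20225705351, nat_lit 20850010099, nat_lit 23362486889, nat_lit 23899117059], nat_lit 1271250, nat_lit 1271250, nat_lit 573850, nat_lit 1746750, nat_lit 0, nat_lit 490000, [nat_lit 230000, nat_lit 780000, nat_lit 1100000], [nat_lit 35, nat_lit 40, nat_lit 40, nat_lit 80, nat_lit 22, nat_lit 317, nat_lit 100, nat_lit 14]⟩, ⟨p104_k20, nat_lit 0, nat_lit 0, nat_lit 1055, nat_lit 0, nat_lit 1558283, [nat_lit 0, nat_lit 0, nat_lit 0], [], [nat_lit 0, nat_lit 0, nat_lit 0, nat_lit 0, nat_lit 0, nat_lit 0, nat_lit 0, nat_lit 0], nat_lit 1271250, nat_lit 1271250, nat_lit 573850, nat_lit 1746750, nat_lit 0, nat_lit 2542500, [nat_lit 1412500, nat_lit 1271250, nat_lit 1271250], [nat_lit 46, nat_lit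 40, nat_lit 40, nat_lit 80, nat_lit 41, nat_lit 456, nat_lit 225, nat_lit 12]⟩,
 ⟨nat_lit 2236, nat_lit 2739, ⟨.ofNat (nat_lit 340439), .ofNat (nat_lit 559060), .ofNat (nat_lit 385234), .ofNat (nat_lit 603890), .ofNat (nat_lit 345963), .ofNat (nat_lit 557014), .ofNat (nat_lit 391471), .ofNat (nat_lit 602558)⟩, ⟨.ofNat (nat_lit 0), .ofNat (nat_lit 143475), .ofNat (nat_lit 0), .ofNat (nat_lit 188310), .ofNat (nat_lit 0), .ofNat (nat_lit 146758), .ofNat (nat_lit 0), .ofNat (nat_lit 192306)⟩⟩, []⟩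
noncomputable def p104_l80 : Lf2 := ⟨nat_lit 0, nat_lit 10, [nat_lit 0, nat_lit 5, nat_lit 5, nat_lit 20], false, nat_lit 0, nat_lit 80, nat_lit 0, nat_lit 360, ⟨nat_lit 0, nat_lit 916, nat_lit 84, nat_lit 5, nat_lit 196, nat_lit 1000, nat_lit 34, nat_lit 84, nat_lit 11267, nat_lit 241, nat_lit 267, nat_lit 211, nat_lit 54058472, nat_lit 12941528, nat_lit 0, nat_lit 2453841, false, false⟩,
 nat_lit 0, nat_lit 2821, nat_lit 0, nat_lit 0, nat_lit 2635, nat_lit 0, nat_lit 0, nat_lit 0, nat_lit 0, nat_lit 0, nat_lit 0, nat_lit 0, nat_lit 0, nat_lit 0, nat_lit 8, nat_lit 450400, nat_lit 0, nat_lit 0, [(nat_lit 27, [(nat_lit 1, nat_lit 916), (nat_lit 6, nat_lit 84)])],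
 ⟨p104_k22, nat_lit 0, nat_lit 0, nat_lit 318, nat_lit 0, nat_lit 700326, [nat_lit 716294400, nat_lit 3659200], [], [nat_lit 21131189877, nat_lit 22914749900, nat_lit 24279090210, nat_lit 25417012460, nat_lit 21169953226, nat_lit 22446812788, nat_lit 24196925330, nat_lit 25262107240], nat_lit 1271250, nat_lit 1271250, nat_lit 719601, nat_lit 1758000, nat_lit 0, nat_lit 490000, [nat_lit 230000, nat_lit 780000], [nat_lit 66, nat_lit 40, nat_lit 40, nat_lit 80, nat_lit 67, nat_lit 317, nat_lit 100, nat_lit 19]⟩, ⟨p104_k20, nat_lit 0, nat_lit 0, nat_lit 1166, nat_lit 0, nat_lit 1820162, [nat_lit 0, nat_lit 0, nat_lit 0], [], [nat_lit 0, nat_lit 0, nat_lit 0, nat_lit 0, nat_lit 0, nat_lit 0, nat_lit 0, nat_lit 0], nat_lit 1271250, nat_lit 1271250, nat_lit 719601, nat_lit 1758000, nat_lit 0, nat_lit 2542500, [nat_lit 1412500, nat_lit 1271250, nat_lit 1271250], [nat_lit 46, nat_lit 40, nat_lit 40, nat_lit 80, nat_lit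 41, nat_lit 456, nat_lit 225, nat_lit 12]⟩,
 ⟨nat_lit 0, nat_lit 2237, ⟨.ofNat (nat_lit 370513), .ofNat (nat_lit 557013), .ofNat (nat_lit 414208), .ofNat (nat_lit 602531), .ofNat (nat_lit 385947), .ofNat (nat_lit 549998), .ofNat (nat_lit 434094), .ofNat (nat_lit 599967)⟩, ⟨.ofNat (nat_lit 0), .ofNat (nat_lit 146756), .ofNat (nat_lit 0), .ofNat (nat_lit 192306), .ofNat (nat_lit 0), .ofNat (nat_lit 149997), .ofNat (nat_lit 0), .ofNat (nat_lit 199999)⟩⟩, [⟨nat_lit 4, nat_lit 100, nat_lit 35, nat_lit 80, nat_lit 18496801⟩]⟩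
noncomputable def p104_l81 : Lf2 := ⟨nat_lit 0, nat_lit 10, [nat_lit 0, nat_lit 5, nat_lit 5, nat_lit 20], false, nat_lit 80, nat_lit 200, nat_lit 0, nat_lit 360, ⟨nat_lit 0, nat_lit 587, nat_lit 413, nat_lit 5, nat_lit 185, nat_lit 1000, nat_lit 102, nat_lit 413, nat_lit 96267, nat_lit 291, nat_lit 417, nat_lit 210, nat_lit 50576702, nat_lit 11777712, nat_lit 4645586, nat_lit 3734694, false, false⟩,
 nat_lit 0, nat_lit 3407, nat_lit 0, nat_lit 0, nat_lit 2967, nat_lit 0, nat_lit 11, nat_lit 0, nat_lit 0, nat_lit 0, nat_lit 0, nat_lit 0, nat_lit 0, nat_lit 0, nat_lit 0, nat_lit 311950, nat_lit 0, nat_lit 0, [(nat_lit 24, [(nat_lit 0, nat_lit 587), (nat_lit 5, nat_lit 413)])],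
 ⟨p104_k19, nat_lit 0, nat_lit 0, nat_lit 297, nat_lit 0, nat_lit 650508, [nat_lit 748992801, nat_lit 482829334, nat_lit 242252266], [], [nat_lit 18423036199, nat_lit 19687840549, nat_lit 21650893315, nat_lit 22670132240, nat_lit 20623548321, nat_lit 21706243175, nat_lit 23444190792, nat_lit 24414940503], nat_lit 1271250, nat_lit 1271250, nat_lit 490000, nat_lit 1740000, nat_lit 490000, nat_lit 1427500, [nat_lit 230000, nat_lit 780000, nat_lit 1100000], [nat_lit 35, nat_lit 40, nat_lit 40, nat_lit 80, nat_lit 22, nat_lit 345, nat_lit 125, nat_lit 15]⟩, ⟨p104_k20, nat_lit 0, nat_lit 0, nat_lit 1061, nat_lit 0, nat_lit 1558283, [nat_lit 0, nat_lit 0, nat_lit 0], [], [nat_lit 0, nat_lit 0, nat_lit 0, nat_lit 0, nat_lit 0, nat_lit 0, nat_lit 0, nat_lit 0], nat_lit 1271250, nat_lit 1271250, nat_lit 490000, nat_lit 1740000, nat_lit 0, nat_lit 2542500, [nat_lit 1412500, nat_lit 1271250, nat_lit 1271250], [nat_lit 46,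 nat_lit 40, nat_lit 40, nat_lit 80, nat_lit 41, nat_lit 456, nat_lit 225, nat_lit 12]⟩,
 ⟨nat_lit 2236, nat_lit 3163, ⟨.ofNat (nat_lit 316827), .ofNat (nat_lit 560952), .ofNat (nat_lit 361011), .ofNat (nat_lit 605240), .ofNat (nat_lit 328641), .ofNat (nat_lit 557014), .ofNat (nat_lit 374063), .ofNat (nat_lit 602541)⟩, ⟨.ofNat (nat_lit 139899), .ofNat (nat_lit 322759), .ofNat (nat_lit 184209), .ofNat (nat_lit 367069), .ofNat (nat_lit 146758), .ofNat (nat_lit 317804), .ofNat (nat_lit 192306), .ofNat (nat_lit 363353)⟩⟩, [⟨nat_lit 4, nat_lit 100, nat_lit 54, nat_lit 73, nat_lit 182973492⟩]⟩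
noncomputable def p104_l82 : Lf2 := ⟨nat_lit 0, nat_lit 10, [nat_lit 0, nat_lit 5, nat_lit 5, nat_lit 20], false, nat_lit 80, nat_lit 164, nat_lit 0, nat_lit 360, ⟨nat_lit 0, nat_lit 1000, nat_lit 0, nat_lit 5, nat_lit 196, nat_lit 1000, nat_lit 91, nat_lit 0, nat_lit 0, nat_lit 0, nat_lit 0, nat_lit 0, nat_lit 50237984, nat_lit 12823368, nat_lit 3938648, nat_lit 3700474, false, false⟩,
 nat_lit 0, nat_lit 3025, nat_lit 0, nat_lit 0, nat_lit 2826, nat_lit 0, nat_lit 19, nat_lit 0, nat_lit 0, nat_lit 0, nat_lit 0, nat_lit 0, nat_lit 0, nat_lit 0, nat_lit 0, nat_lit 400000, nat_lit 0, nat_lit 0, [(nat_lit 27, [(nat_lit 1, nat_lit 1000)])],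
 ⟨p104_k22, nat_lit 0, nat_lit 0, nat_lit 271, nat_lit 0, nat_lit 700326, [nat_lit 697600000, nat_lit 324400000], [], [nat_lit 19914500122, nat_lit 21366190361, nat_lit 22836211288, nat_lit 23999450112, nat_lit 21196659318, nat_lit 22358425897, nat_lit 23907643233, nat_lit 24961056365], nat_lit 1271250, nat_lit 1271250, nat_lit 719601, nat_lit 1758000, nat_lit 490000, nat_lit 1133651, [nat_lit 230000, nat_lit 780000], [nat_lit 66, nat_lit 40, nat_lit 40, nat_lit 80, nat_lit 67, nat_lit 345, nat_lit 125, nat_lit 20]⟩, ⟨p104_k20, nat_lit 0, nat_lit 0, nat_lit 1166, nat_lit 0, nat_lit 1820162, [nat_lit 0, nat_lit 0, nat_lit 0], [], [nat_lit 0, nat_lit 0, nat_lit 0, nat_lit 0, nat_lit 0, nat_lit 0, nat_lit 0, nat_lit 0], nat_lit 1271250, nat_lit 1271250, nat_lit 719601, nat_lit 1758000, nat_lit 0, nat_lit 2542500, [nat_lit 1412500, nat_lit 1271250, nat_lit 1271250], [nat_lit 46, nat_lit 40, nat_lit 40, nat_lit 80,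 nat_lit 41, nat_lit 456, nat_lit 225, nat_lit 12]⟩,
 ⟨nat_lit 0, nat_lit 2237, ⟨.ofNat (nat_lit 370513), .ofNat (nat_lit 557013), .ofNat (nat_lit 414208), .ofNat (nat_lit 602531), .ofNat (nat_lit 385947), .ofNat (nat_lit 549998), .ofNat (nat_lit 434094), .ofNat (nat_lit 599967)⟩, ⟨.ofNat (nat_lit 146756), .ofNat (nat_lit 266484), .ofNat (nat_lit 192306), .ofNat (nat_lit 312035), .ofNat (nat_lit 149997), .ofNat (nat_lit 254993), .ofNat (nat_lit 199999), .ofNat (nat_lit 304995)⟩⟩, [⟨nat_lit 4, nat_lit 100, nat_lit 35, nat_lit 80, nat_lit 334515424⟩]⟩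
noncomputable def p104_l83 : Lf2 := ⟨nat_lit 0, nat_lit 10, [nat_lit 0, nat_lit 5, nat_lit 5, nat_lit 20], false, nat_lit 0, nat_lit 80, nat_lit 0, nat_lit 336, ⟨nat_lit 140, nat_lit 860, nat_lit 0, nat_lit 6, nat_lit 257, nat_lit 860, nat_lit 33, nat_lit 0, nat_lit 0, nat_lit 0, nat_lit 0, nat_lit 0, nat_lit 47394978, nat_lit 19605022, nat_lit 0, nat_lit 3022369, true, true⟩,
 nat_lit 3587, nat_lit 0, nat_lit 0, nat_lit 0, nat_lit 3124, nat_lit 1537, nat_lit 118, nat_lit 0, nat_lit 0, nat_lit 127, nat_lit 0, nat_lit 0, nat_lit 0, nat_lit 0, nat_lit 0, nat_lit 356000, nat_lit 0, nat_lit 0, [(nat_lit 24, [(nat_lit 1, nat_lit 840), (nat_lit 2, nat_lit 20)])],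
 ⟨p104_k19, nat_lit 0, nat_lit 0, nat_lit 316, nat_lit 0, nat_lit 575536, [nat_lit 873000000, nat_lit 1287784001, nat_lit 1416192000], [], [nat_lit 24991282174, nat_lit 25452387206, nat_lit 28187081732, nat_lit 28847135781, nat_lit 24485295502, nat_lit 24920670073, nat_lit 27410666725, nat_lit 27802403718], nat_lit 1271250, nat_lit 1271250, nat_lit 1271250, nat_lit 1271250, nat_lit 0, nat_lit 490000, [nat_lit 230000, nat_lit 780000, nat_lit 1100000], [nat_lit 35, nat_lit 40, nat_lit 40, nat_lit 80, nat_lit 22, nat_lit 226, nat_lit 20, nat_lit 9]⟩, ⟨p104_k20, nat_lit 0, nat_lit 0, nat_lit 903, nat_lit 0, nat_lit 1378690, [nat_lit 875000000, nat_lit 1377880000, nat_lit 1662080000], [], [nat_lit 5761815224, nat_lit 5718978956, nat_lit 5802474190, nat_lit 5781372538, nat_lit 4857981474, nat_lit 4400109075, nat_lit 4612432860, nat_lit 4609646121], nat_lit 1271250, nat_lit 1271250, nat_lit 1271250, nat_lit 1271250,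 nat_lit 0, nat_lit 2373000, [nat_lit 1412500, nat_lit 1271250, nat_lit 1271250], [nat_lit 46, nat_lit 40, nat_lit 40, nat_lit 80, nat_lit 41, nat_lit 456, nat_lit 225, nat_lit 12]⟩,
 ⟨nat_lit 2738, nat_lit 3163, ⟨.ofNat (nat_lit 560952), .ofNat (nat_lit 707240), .ofNat (nat_lit 583107), .ofNat (nat_lit 729395), .ofNat (nat_lit 559060), .ofNat (nat_lit 700807), .ofNat (nat_lit 581477), .ofNat (nat_lit 723224)⟩, ⟨.ofNat (nat_lit 0), .ofNat (nat_lit 139899), .ofNat (nat_lit 0), .ofNat (nat_lit 184209), .ofNat (nat_lit 0), .ofNat (nat_lit 143475), .ofNat (nat_lit 0), .ofNat (nat_lit 188310)⟩⟩, [⟨nat_lit 13, nat_lit 57, nat_lit 80, nat_lit 100, nat_lit 98481677⟩, ⟨nat_lit 10, nat_lit 100, nat_lit 70, nat_lit 61, nat_lit 20880650⟩]⟩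
noncomputable def p104_l84 : Lf2 := ⟨nat_lit 0, nat_lit 10, [nat_lit 0, nat_lit 5, nat_lit 5, nat_lit 20], false, nat_lit 0, nat_lit 80, nat_lit 0, nat_lit 336, ⟨nat_lit 224, nat_lit 776, nat_lit 0, nat_lit 6, nat_lit 271, nat_lit 776, nat_lit 33, nat_lit 0, nat_lit 0, nat_lit 0, nat_lit 0, nat_lit 0, nat_lit 45924051, nat_lit 21075949, nat_lit 0, nat_lit 3113527, true, true⟩,
 nat_lit 3875, nat_lit 0, nat_lit 0, nat_lit 0, nat_lit 3374, nat_lit 1853, nat_lit 0, nat_lit 0, nat_lit 0, nat_lit 432, nat_lit 0, nat_lit 0, nat_lit 0, nat_lit 0, nat_lit 0, nat_lit 329000, nat_lit 0, nat_lit 0, [(nat_lit 24, [(nat_lit 1, nat_lit 745), (nat_lit 2, nat_lit 31)])],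
 ⟨p104_k19, nat_lit 0, nat_lit 0, nat_lit 328, nat_lit 0, nat_lit 596999, [nat_lit 887380000, nat_lit 1463524534, nat_lit 1696312800], [], [nat_lit 25744433856, nat_lit 26220280888, nat_lit 29769555263, nat_lit 30423972526, nat_lit 25102740184, nat_lit 25549626876, nat_lit 28491218426, nat_lit 28856128465], nat_lit 1271250, nat_lit 1271250, nat_lit 1271250, nat_lit 1271250, nat_lit 0, nat_lit 490000, [nat_lit 230000, nat_lit 780000, nat_lit 1100000], [nat_lit 35, nat_lit 40, nat_lit 40, nat_lit 80, nat_lit 22, nat_lit 226, nat_lit 20, nat_lit 9]⟩, ⟨p104_k23, nat_lit 0, nat_lit 0, nat_lit 838, nat_lit 0, nat_lit 1240999, [nat_lit 1400000000, nat_lit 2204608000, nat_lit 2659328000], [], [nat_lit 8173301292, nat_lit 8170152024, nat_lit 8424196309, nat_lit 8446289439, nat_lit 7315765280, nat_lit 7040208968, nat_lit 7247952102, nat_lit 7251825551], nat_lit 1271250, nat_lit 1271250, nat_lit 1271250, nat_lit 1271250,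 nat_lit 0, nat_lit 2373000, [nat_lit 1412500, nat_lit 1271250, nat_lit 1271250], [nat_lit 46, nat_lit 40, nat_lit 40, nat_lit 80, nat_lit 41, nat_lit 483, nat_lit 250, nat_lit 12]⟩,
 ⟨nat_lit 2738, nat_lit 3163, ⟨.ofNat (nat_lit 583107), .ofNat (nat_lit 753776), .ofNat (nat_lit 605257), .ofNat (nat_lit 775931), .ofNat (nat_lit 581477), .ofNat (nat_lit 746849), .ofNat (nat_lit 603890), .ofNat (nat_lit 769266)⟩, ⟨.ofNat (nat_lit 0), .ofNat (nat_lit 139899), .ofNat (nat_lit 0), .ofNat (nat_lit 184209), .ofNat (nat_lit 0), .ofNat (nat_lit 143475), .ofNat (nat_lit 0), .ofNat (nat_lit 188310)⟩⟩, [⟨nat_lit 13, nat_lit 57, nat_lit 74, nat_lit 100, nat_lit 4778156⟩, ⟨nat_lit 10, nat_lit 100, nat_lit 70, nat_lit 61, nat_lit 57711145⟩]⟩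
noncomputable def p104_l85 : Lf2 := ⟨nat_lit 0, nat_lit 10, [nat_lit 0, nat_lit 5, nat_lit 5, nat_lit 20], false, nat_lit 0, nat_lit 80, nat_lit 0, nat_lit 336, ⟨nat_lit 129, nat_lit 871, nat_lit 0, nat_lit 6, nat_lit 262, nat_lit 871, nat_lit 33, nat_lit 0, nat_lit 0, nat_lit 0, nat_lit 0, nat_lit 0, nat_lit 46916756, nat_lit 20083244, nat_lit 0, nat_lit 3053260, true, true⟩,
 nat_lit 3199, nat_lit 0, nat_lit 0, nat_lit 0, nat_lit 2886, nat_lit 1370, nat_lit 321, nat_lit 0, nat_lit 0, nat_lit 110, nat_lit 0, nat_lit 0, nat_lit 0, nat_lit 0, nat_lit 0, nat_lit 217750, nat_lit 0, nat_lit 0, [(nat_lit 24, [(nat_lit 0, nat_lit 871)])],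
 ⟨p104_k21, nat_lit 0, nat_lit 0, nat_lit 327, nat_lit 0, nat_lit 598423, [nat_lit 785749201, nat_lit 1614209200, nat_lit 2090329600], [], [nat_lit 24375021218, nat_lit 24641566721, nat_lit 28444274013, nat_lit 28759658222, nat_lit 24139364998, nat_lit 24389113691, nat_lit 27563804460, nat_lit 27782973448], nat_lit 1271250, nat_lit 1271250, nat_lit 1271250, nat_lit 1271250, nat_lit 0, nat_lit 490000, [nat_lit 230000, nat_lit 780000, nat_lit 1100000], [nat_lit 35, nat_lit 40, nat_lit 40, nat_lit 80, nat_lit 22, nat_lit 226, nat_lit 20, nat_lit 9]⟩, ⟨p104_k20, nat_lit 0, nat_lit 0, nat_lit 962, nat_lit 0, nat_lit 1493903, [nat_lit 806250000, nat_lit 1269618000, nat_lit 1531488000], [], [nat_lit 5564799836, nat_lit 5490893228, nat_lit 5544355716, nat_lit 5475140134, nat_lit 4505098284, nat_lit 4231429288, nat_lit 4358495255, nat_lit 4338927558], nat_lit 1271250, nat_lit 1271250, nat_lit 1271250, nat_lit 1271250,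 nat_lit 0, nat_lit 2373000, [nat_lit 1412500, nat_lit 1271250, nat_lit 1271250], [nat_lit 46, nat_lit 40, nat_lit 40, nat_lit 80, nat_lit 41, nat_lit 483, nat_lit 250, nat_lit 12]⟩,
 ⟨nat_lit 2500, nat_lit 2739, ⟨.ofNat (nat_lit 559060), .ofNat (nat_lit 706713), .ofNat (nat_lit 603894), .ofNat (nat_lit 751548), .ofNat (nat_lit 558063), .ofNat (nat_lit 703224), .ofNat (nat_lit 603223), .ofNat (nat_lit 748386)⟩, ⟨.ofNat (nat_lit 0), .ofNat (nat_lit 143475), .ofNat (nat_lit 0), .ofNat (nat_lit 188310), .ofNat (nat_lit 0), .ofNat (nat_lit 145160), .ofNat (nat_lit 0), .ofNat (nat_lit 190321)⟩⟩, [⟨nat_lit 13, nat_lit 51, nat_lit 81, nat_lit 100, nat_lit 166412270⟩, ⟨nat_lit 10, nat_lit 100, nat_lit 70, nat_lit 61, nat_lit 17965561⟩]⟩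
noncomputable def p104_l86 : Lf2 := ⟨nat_lit 0, nat_lit 10, [nat_lit 0, nat_lit 5, nat_lit 5, nat_lit 20], false, nat_lit 0, nat_lit 80, nat_lit 0, nat_lit 336, ⟨nat_lit 123, nat_lit 877, nat_lit 0, nat_lit 6, nat_lit 259, nat_lit 877, nat_lit 34, nat_lit 0, nat_lit 0, nat_lit 0, nat_lit 0, nat_lit 0, nat_lit 47255785, nat_lit 19744215, nat_lit 0, nat_lit 3031487, true, true⟩,
 nat_lit 3087, nat_lit 0, nat_lit 0, nat_lit 0, nat_lit 2834, nat_lit 1322, nat_lit 300, nat_lit 0, nat_lit 0, nat_lit 105, nat_lit 0, nat_lit 0, nat_lit 0, nat_lit 0, nat_lit 0, nat_lit 219250, nat_lit 0, nat_lit 0, [(nat_lit 24, [(nat_lit 0, nat_lit 877)])],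
 ⟨p104_k24, nat_lit 0, nat_lit 0, nat_lit 289, nat_lit 0, nat_lit 611692, [nat_lit 784700401, nat_lit 1602720400], [], [nat_lit 24386891479, nat_lit 24665532070, nat_lit 28194795151, nat_lit 28514251123, nat_lit 24191016022, nat_lit 24451885618, nat_lit 27349573149, nat_lit 27570721210], nat_lit 1271250, nat_lit 1271250, nat_lit 1271250, nat_lit 1271250, nat_lit 0, nat_lit 490000, [nat_lit 230000, nat_lit 780000], [nat_lit 66, nat_lit 40, nat_lit 40, nat_lit 80, nat_lit 67, nat_lit 226, nat_lit 20, nat_lit 11]⟩, ⟨p104_k20, nat_lit 0, nat_lit 0, nat_lit 990, nat_lit 0, nat_lit 1558283, [nat_lit 768750000, nat_lit 1210566000, nat_lit 1460256000], [], [nat_lit 5219030036, nat_lit 5146849124, nat_lit 5203621745, nat_lit 5140919074, nat_lit 4285761118, nat_lit 3961200768, nat_lit 4085646818, nat_lit 4073652553], nat_lit 1271250, nat_lit 1271250, nat_lit 1271250, nat_lit 1271250, nat_lit 0, nat_lit 2373000, [nat_lit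 1412500, nat_lit 1271250, nat_lit 1271250], [nat_lit 46, nat_lit 40, nat_lit 40, nat_lit 80, nat_lit 41, nat_lit 483, nat_lit 250, nat_lit 12]⟩,
 ⟨nat_lit 2236, nat_lit 2500, ⟨.ofNat (nat_lit 558063), .ofNat (nat_lit 691611), .ofNat (nat_lit 603223), .ofNat (nat_lit 736773), .ofNat (nat_lit 557014), .ofNat (nat_lit 688150), .ofNat (nat_lit 602562), .ofNat (nat_lit 733698)⟩, ⟨.ofNat (nat_lit 0), .ofNat (nat_lit 145160), .ofNat (nat_lit 0), .ofNat (nat_lit 190321), .ofNat (nat_lit 0), .ofNat (nat_lit 146758), .ofNat (nat_lit 0), .ofNat (nat_lit 192306)⟩⟩, [⟨nat_lit 13, nat_lit 46, nat_lit 84, nat_lit 100, nat_lit 198838811⟩, ⟨nat_lit 10, nat_lit 100, nat_lit 70, nat_lit 61, nat_lit 17293515⟩]⟩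
noncomputable def p104_l87 : Lf2 := ⟨nat_lit 0, nat_lit 10, [nat_lit 0, nat_lit 5, nat_lit 5, nat_lit 20], false, nat_lit 0, nat_lit 80, nat_lit 0, nat_lit 336, ⟨nat_lit 113, nat_lit 887, nat_lit 0, nat_lit 6, nat_lit 253, nat_lit 887, nat_lit 34, nat_lit 0, nat_lit 0, nat_lit 0, nat_lit 0, nat_lit 0, nat_lit 47809117, nat_lit 19190883, nat_lit 0, nat_lit 2994624, true, true⟩,
 nat_lit 2912, nat_lit 0, nat_lit 0, nat_lit 0, nat_lit 2720, nat_lit 1247, nat_lit 106, nat_lit 0, nat_lit 0, nat_lit 102, nat_lit 0, nat_lit 0, nat_lit 0, nat_lit 0, nat_lit 0, nat_lit 354800, nat_lit 0, nat_lit 0, [(nat_lit 27, [(nat_lit 1, nat_lit 887)])],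
 ⟨p104_k22, nat_lit 0, nat_lit 0, nat_lit 317, nat_lit 0, nat_lit 700326, [nat_lit 724765200, nat_lit 658608800], [], [nat_lit 24487517920, nat_lit 25641177920, nat_lit 27796529448, nat_lit 29077563313, nat_lit 24360516560, nat_lit 25440018080, nat_lit 27287122704, nat_lit 28215518049], nat_lit 1271250, nat_lit 1271250, nat_lit 1271250, nat_lit 1271250, nat_lit 0, nat_lit 490000, [nat_lit 230000, nat_lit 780000], [nat_lit 66, nat_lit 40, nat_lit 40, nat_lit 80, nat_lit 67, nat_lit 226, nat_lit 20, nat_lit 11]⟩, ⟨p104_k20, nat_lit 0, nat_lit 0, nat_lit 1102, nat_lit 0, nat_lit 1820162, [nat_lit 706250000, nat_lit 1112146000, nat_lit 1341536000], [], [nat_lit 4615095396, nat_lit 4545246204, nat_lit 4626492467, nat_lit 4596087889, nat_lit 3917083038, nat_lit 3505589427, nat_lit 3658874955, nat_lit 3657661467], nat_lit 1271250, nat_lit 1271250, nat_lit 1271250, nat_lit 1271250, nat_lit 0, nat_lit 2373000, [nat_lit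 1412500, nat_lit 1271250, nat_lit 1271250], [nat_lit 46, nat_lit 40, nat_lit 40, nat_lit 80, nat_lit 41, nat_lit 456, nat_lit 225, nat_lit 12]⟩,
 ⟨nat_lit 0, nat_lit 2237, ⟨.ofNat (nat_lit 557013), .ofNat (nat_lit 676741), .ofNat (nat_lit 602531), .ofNat (nat_lit 722292), .ofNat (nat_lit 549998), .ofNat (nat_lit 654993), .ofNat (nat_lit 599967), .ofNat (nat_lit 704996)⟩, ⟨.ofNat (nat_lit 0), .ofNat (nat_lit 146756), .ofNat (nat_lit 0), .ofNat (nat_lit 192306), .ofNat (nat_lit 0), .ofNat (nat_lit 149997), .ofNat (nat_lit 0), .ofNat (nat_lit 199999)⟩⟩, [⟨nat_lit 13, nat_lit 31, nat_lit 92, nat_lit 100, nat_lit 394391083⟩, ⟨nat_lit 22, nat_lit 93, nat_lit 100, nat_lit 61, nat_lit 10562172⟩]⟩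
noncomputable def p104_l88 : Lf2 := ⟨nat_lit 0, nat_lit 10, [nat_lit 0, nat_lit 5, nat_lit 5, nat_lit 20], false, nat_lit 80, nat_lit 176, nat_lit 0, nat_lit 344, ⟨nat_lit 141, nat_lit 859, nat_lit 0, nat_lit 6, nat_lit 256, nat_lit 859, nat_lit 90, nat_lit 0, nat_lit 0, nat_lit 0, nat_lit 0, nat_lit 0, nat_lit 44452953, nat_lit 18873892, nat_lit 3673155, nat_lit 4159396, true, true⟩,
 nat_lit 3683, nat_lit 0, nat_lit 0, nat_lit 0, nat_lit 3207, nat_lit 1578, nat_lit 116, nat_lit 0, nat_lit 0, nat_lit 126, nat_lit 0, nat_lit 0, nat_lit 0, nat_lit 0, nat_lit 0, nat_lit 380200, nat_lit 0, nat_lit 0, [(nat_lit 24, [(nat_lit 1, nat_lit 798), (nat_lit 2, nat_lit 61)])],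
 ⟨p104_k19, nat_lit 0, nat_lit 0, nat_lit 273, nat_lit 0, nat_lit 600388, [nat_lit 898510000, nat_lit 1229793201, nat_lit 1295056000], [], [nat_lit 23315523428, nat_lit 24310577940, nat_lit 26511661033, nat_lit 27394899774, nat_lit 24378636828, nat_lit 25267035959, nat_lit 27323098668, nat_lit 28192734123], nat_lit 1271250, nat_lit 1271250, nat_lit 1271250, nat_lit 1271250, nat_lit 490000, nat_lit 1236400, [nat_lit 230000, nat_lit 780000, nat_lit 1100000], [nat_lit 35, nat_lit 40, nat_lit 40, nat_lit 80, nat_lit 22, nat_lit 260, nat_lit 50, nat_lit 10]⟩, ⟨p104_k20, nat_lit 0, nat_lit 0, nat_lit 917, nat_lit 0, nat_lit 1411465, [nat_lit 881250000, nat_lit 1387722000, nat_lit 1673952000], [], [nat_lit 5636942700, nat_lit 5599402560, nat_lit 5749425490, nat_lit 5726817068, nat_lit 4978485766, nat_lit 4356885811, nat_lit 4695475167, nat_lit 4700999272], nat_lit 1271250, nat_lit 1271250, nat_lit 1271250, nat_lit 1271250,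 nat_lit 0, nat_lit 2429500, [nat_lit 1412500, nat_lit 1271250, nat_lit 1271250], [nat_lit 46, nat_lit 40, nat_lit 40, nat_lit 80, nat_lit 41, nat_lit 456, nat_lit 225, nat_lit 12]⟩,
 ⟨nat_lit 2236, nat_lit 3163, ⟨.ofNat (nat_lit 560952), .ofNat (nat_lit 707240), .ofNat (nat_lit 583107), .ofNat (nat_lit 729395), .ofNat (nat_lit 557014), .ofNat (nat_lit 693851), .ofNat (nat_lit 579788), .ofNat (nat_lit 716626)⟩, ⟨.ofNat (nat_lit 139899), .ofNat (nat_lit 286187), .ofNat (nat_lit 162054), .ofNat (nat_lit 308342), .ofNat (nat_lit 146758), .ofNat (nat_lit 283595), .ofNat (nat_lit 169532), .ofNat (nat_lit 306369)⟩⟩, [⟨nat_lit 13, nat_lit 44, nat_lit 90, nat_lit 100, nat_lit 232079022⟩, ⟨nat_lit 4, nat_lit 100, nat_lit 55, nat_lit 69, nat_lit 200175326⟩, ⟨nat_lit 7, nat_lit 78, nat_lit 100, nat_lit 66, nat_lit 13508207⟩]⟩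
noncomputable def p104_l89 : Lf2 := ⟨nat_lit 0, nat_lit 10, [nat_lit 0, nat_lit 5, nat_lit 5, nat_lit 20], false, nat_lit 80, nat_lit 200, nat_lit 0, nat_lit 360, ⟨nat_lit 147, nat_lit 853, nat_lit 0, nat_lit 6, nat_lit 256, nat_lit 853, nat_lit 106, nat_lit 0, nat_lit 0, nat_lit 0, nat_lit 0, nat_lit 0, nat_lit 43651115, nat_lit 18676995, nat_lit 4671890, nat_lit 4355757, true, true⟩,
 nat_lit 3682, nat_lit 0, nat_lit 0, nat_lit 0, nat_lit 3206, nat_lit 1578, nat_lit 130, nat_lit 0, nat_lit 0, nat_lit 129, nat_lit 0, nat_lit 0, nat_lit 0, nat_lit 0, nat_lit 0, nat_lit 353800, nat_lit 0, nat_lit 0, [(nat_lit 24, [(nat_lit 1, nat_lit 832), (nat_lit 2, nat_lit 21)])],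
 ⟨p104_k19, nat_lit 0, nat_lit 0, nat_lit 257, nat_lit 0, nat_lit 541776, [nat_lit 874250000, nat_lit 1302306534, nat_lit 1439281600], [], [nat_lit 23201278624, nat_lit 24223216516, nat_lit 26473539787, nat_lit 27396658512, nat_lit 24732090560, nat_lit 25613552408, nat_lit 27715653646, nat_lit 28516693142], nat_lit 1271250, nat_lit 1271250, nat_lit 1271250, nat_lit 1271250, nat_lit 490000, nat_lit 1427500, [nat_lit 230000, nat_lit 780000, nat_lit 1100000], [nat_lit 35, nat_lit 40, nat_lit 40, nat_lit 80, nat_lit 22, nat_lit 260, nat_lit 50, nat_lit 10]⟩, ⟨p104_k20, nat_lit 0, nat_lit 0, nat_lit 869, nat_lit 0, nat_lit 1297818, [nat_lit 918750000, nat_lit 1446774000, nat_lit 1745184000], [], [nat_lit 6156230232, nat_lit 6130549392, nat_lit 6235563262, nat_lit 6195847667, nat_lit 5440835028, nat_lit 4840486515, nat_lit 5072722154, nat_lit 5084935461], nat_lit 1271250, nat_lit 1271250, nat_lit 1271250, nat_lit 1271250,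 nat_lit 0, nat_lit 2542500, [nat_lit 1412500, nat_lit 1271250, nat_lit 1271250], [nat_lit 46, nat_lit 40, nat_lit 40, nat_lit 80, nat_lit 41, nat_lit 483, nat_lit 250, nat_lit 12]⟩,
 ⟨nat_lit 2236, nat_lit 3163, ⟨.ofNat (nat_lit 560952), .ofNat (nat_lit 707240), .ofNat (nat_lit 583107), .ofNat (nat_lit 729395), .ofNat (nat_lit 557014), .ofNat (nat_lit 693851), .ofNat (nat_lit 579788), .ofNat (nat_lit 716626)⟩, ⟨.ofNat (nat_lit 162054), .ofNat (nat_lit 344914), .ofNat (nat_lit 184209), .ofNat (nat_lit 367069), .ofNat (nat_lit 169532), .ofNat (nat_lit 340579), .ofNat (nat_lit 192306), .ofNat (nat_lit 363353)⟩⟩, [⟨nat_lit 13, nat_lit 44, nat_lit 90, nat_lit 100, nat_lit 209354846⟩, ⟨nat_lit 4, nat_lit 100, nat_lit 53, nat_lit 77, nat_lit 185674955⟩, ⟨nat_lit 7, nat_lit 69, nat_lit 100, nat_lit 76, nat_lit 14154262⟩]⟩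
noncomputable def p104_l90 : Lf2 := ⟨nat_lit 0, nat_lit 10, [nat_lit 0, nat_lit 5, nat_lit 5, nat_lit 20], false, nat_lit 80, nat_lit 164, nat_lit 0, nat_lit 360, ⟨nat_lit 118, nat_lit 882, nat_lit 0, nat_lit 6, nat_lit 244, nat_lit 882, nat_lit 91, nat_lit 0, nat_lit 0, nat_lit 0, nat_lit 0, nat_lit 0, nat_lit 45543637, nat_lit 17660552, nat_lit 3795811, nat_lit 4101696, true, true⟩,
 nat_lit 3027, nat_lit 0, nat_lit 0, nat_lit 0, nat_lit 2828, nat_lit 1297, nat_lit 78, nat_lit 0, nat_lit 0, nat_lit 181, nat_lit 0, nat_lit 0, nat_lit 0, nat_lit 0, nat_lit 0, nat_lit 352800, nat_lit 0, nat_lit 0, [(nat_lit 27, [(nat_lit 1, nat_lit 882)])],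
 ⟨p104_k22, nat_lit 0, nat_lit 0, nat_lit 264, nat_lit 0, nat_lit 688990, [nat_lit 725967200, nat_lit 673396800], [], [nat_lit 23171445230, nat_lit 24277181536, nat_lit 25583068336, nat_lit 26702488197, nat_lit 24184563592, nat_lit 25238290984, nat_lit 26434836001, nat_lit 27369034761], nat_lit 1271250, nat_lit 1271250, nat_lit 1271250, nat_lit 1271250, nat_lit 490000, nat_lit 1133651, [nat_lit 230000, nat_lit 780000], [nat_lit 66, nat_lit 40, nat_lit 40, nat_lit 80, nat_lit 67, nat_lit 260, nat_lit 50, nat_lit 13]⟩, ⟨p104_k20, nat_lit 0, nat_lit 0, nat_lit 1089, nat_lit 0, nat_lit 1790700, [nat_lit 737500000, nat_lit 1161356000, nat_lit 1400896000], [], [nat_lit 4847933616, nat_lit 4811745540, nat_lit 4835835197, nat_lit 4805866080, nat_lit 4352771152, nat_lit 3781352505, nat_lit 3901280032, nat_lit 3900238528], nat_lit 1271250, nat_lit 1271250, nat_lit 1271250, nat_lit 1271250, nat_lit 0, nat_lit 2542500, [nat_lit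 1412500, nat_lit 1271250, nat_lit 1271250], [nat_lit 46, nat_lit 40, nat_lit 40, nat_lit 80, nat_lit 41, nat_lit 456, nat_lit 225, nat_lit 12]⟩,
 ⟨nat_lit 0, nat_lit 2237, ⟨.ofNat (nat_lit 557013), .ofNat (nat_lit 653935), .ofNat (nat_lit 579788), .ofNat (nat_lit 676711), .ofNat (nat_lit 549998), .ofNat (nat_lit 634993), .ofNat (nat_lit 574999), .ofNat (nat_lit 659995)⟩, ⟨.ofNat (nat_lit 146756), .ofNat (nat_lit 266484), .ofNat (nat_lit 192306), .ofNat (nat_lit 312035), .ofNat (nat_lit 149997), .ofNat (nat_lit 254993), .ofNat (nat_lit 199999), .ofNat (nat_lit 304995)⟩⟩, [⟨nat_lit 13, nat_lit 44, nat_lit 86, nat_lit 100, nat_lit 272228982⟩, ⟨nat_lit 16, nat_lit 35, nat_lit 100, nat_lit 80, nat_lit 273666858⟩, ⟨nat_lit 7, nat_lit 74, nat_lit 100, nat_lit 72, nat_lit 11933333⟩]⟩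
noncomputable def p104_l91 : Lf2 := ⟨nat_lit 0, nat_lit 10, [nat_lit 0, nat_lit 5, nat_lit 5, nat_lit 20], false, nat_lit 80, nat_lit 200, nat_lit 0, nat_lit 348, ⟨nat_lit 217, nat_lit 783, nat_lit 0, nat_lit 6, nat_lit 270, nat_lit 783, nat_lit 102, nat_lit 0, nat_lit 0, nat_lit 0, nat_lit 0, nat_lit 0, nat_lit 42609837, nat_lit 20075329, nat_lit 4314834, nat_lit 4371283, true, true⟩,
 nat_lit 3861, nat_lit 0, nat_lit 0, nat_lit 0, nat_lit 3362, nat_lit 1846, nat_lit 50, nat_lit 0, nat_lit 0, nat_lit 351, nat_lit 0, nat_lit 0, nat_lit 0, nat_lit 0, nat_lit 0, nat_lit 364800, nat_lit 0, nat_lit 0, [(nat_lit 24, [(nat_lit 1, nat_lit 697), (nat_lit 2, nat_lit 86)])],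
 ⟨p104_k19, nat_lit 0, nat_lit 0, nat_lit 291, nat_lit 0, nat_lit 650508, [nat_lit 920850000, nat_lit 1366674534, nat_lit 1502669600], [], [nat_lit 24157498496, nat_lit 25097770160, nat_lit 27726983983, nat_lit 28509697588, nat_lit 25531142768, nat_lit 26343877742, nat_lit 28692304660, nat_lit 29427346815], nat_lit 1271250, nat_lit 1271250, nat_lit 1271250, nat_lit 1271250, nat_lit 490000, nat_lit 1427500, [nat_lit 230000, nat_lit 780000, nat_lit 1100000], [nat_lit 35, nat_lit 40, nat_lit 40, nat_lit 80, nat_lit 22, nat_lit 260, nat_lit 50, nat_lit 10]⟩, ⟨p104_k23, nat_lit 0, nat_lit 0, nat_lit 885, nat_lit 0, nat_lit 1352229, [nat_lit 1356250000, nat_lit 2135714000, nat_lit 2576224000], [], [nat_lit 8066921634, nat_lit 8049697500, nat_lit 8386029771, nat_lit 8405661706, nat_lit 7236704553, nat_lit 6879630314, nat_lit 7230676951, nat_lit 7233075245], nat_lit 1271250, nat_lit 1271250, nat_lit 1271250, nat_lit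 1271250, nat_lit 0, nat_lit 2457750, [nat_lit 1412500, nat_lit 1271250, nat_lit 1271250], [nat_lit 46, nat_lit 40, nat_lit 40, nat_lit 80, nat_lit 41, nat_lit 483, nat_lit 250, nat_lit 12]⟩,
 ⟨nat_lit 2236, nat_lit 3163, ⟨.ofNat (nat_lit 583107), .ofNat (nat_lit 753776), .ofNat (nat_lit 605240), .ofNat (nat_lit 775931), .ofNat (nat_lit 579788), .ofNat (nat_lit 739432), .ofNat (nat_lit 602541), .ofNat (nat_lit 762206)⟩, ⟨.ofNat (nat_lit 139899), .ofNat (nat_lit 322759), .ofNat (nat_lit 184209), .ofNat (nat_lit 367069), .ofNat (nat_lit 146758), .ofNat (nat_lit 317804), .ofNat (nat_lit 192306), .ofNat (nat_lit 363353)⟩⟩, [⟨nat_lit 13, nat_lit 44, nat_lit 86, nat_lit 100, nat_lit 145111866⟩, ⟨nat_lit 4, nat_lit 100, nat_lit 54, nat_lit 73, nat_lit 233838043⟩, ⟨nat_lit 19, nat_lit 100, nat_lit 81, nat_lit 72, nat_lit 34511268⟩]⟩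
noncomputable def p104_l92 : Lf2 := ⟨nat_lit 0, nat_lit 10, [nat_lit 0, nat_lit 5, nat_lit 5, nat_lit 20], false, nat_lit 80, nat_lit 164, nat_lit 0, nat_lit 348, ⟨nat_lit 176, nat_lit 824, nat_lit 0, nat_lit 6, nat_lit 258, nat_lit 824, nat_lit 91, nat_lit 0, nat_lit 0, nat_lit 0, nat_lit 0, nat_lit 0, nat_lit 44220746, nat_lit 19038980, nat_lit 3740274, nat_lit 4185127, true, true⟩,
 nat_lit 3216, nat_lit 0, nat_lit 0, nat_lit 0, nat_lit 3005, nat_lit 1538, nat_lit 0, nat_lit 0, nat_lit 0, nat_lit 300, nat_lit 0, nat_lit 0, nat_lit 0, nat_lit 0, nat_lit 0, nat_lit 329600, nat_lit 0, nat_lit 0, [(nat_lit 27, [(nat_lit 1, nat_lit 824)])],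
 ⟨p104_k22, nat_lit 0, nat_lit 0, nat_lit 272, nat_lit 0, nat_lit 700326, [nat_lit 739910401, nat_lit 844937600], [], [nat_lit 23582095670, nat_lit 24652177550, nat_lit 26441997969, nat_lit 27720039390, nat_lit 24554386361, nat_lit 25524767863, nat_lit 27157533938, nat_lit 27995407730], nat_lit 1271250, nat_lit 1271250, nat_lit 1271250, nat_lit 1271250, nat_lit 490000, nat_lit 1133651, [nat_lit 230000, nat_lit 780000], [nat_lit 66, nat_lit 40, nat_lit 40, nat_lit 80, nat_lit 67, nat_lit 260, nat_lit 50, nat_lit 13]⟩, ⟨p104_k23, nat_lit 0, nat_lit 0, nat_lit 992, nat_lit 0, nat_lit 1579480, [nat_lit 1100000000, nat_lit 1732192000, nat_lit 2089472000], [], [nat_lit 6307071624, nat_lit 6281586272, nat_lit 6454139669, nat_lit 6477867126, nat_lit 5828496558, nat_lit 5377572777, nat_lit 5582783156, nat_lit 5586757435], nat_lit 1271250, nat_lit 1271250, nat_lit 1271250, nat_lit 1271250, nat_lit 0, nat_lit 2457750, [nat_lit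 1412500, nat_lit 1271250, nat_lit 1271250], [nat_lit 46, nat_lit 40, nat_lit 40, nat_lit 80, nat_lit 41, nat_lit 483, nat_lit 250, nat_lit 12]⟩,
 ⟨nat_lit 0, nat_lit 2237, ⟨.ofNat (nat_lit 579788), .ofNat (nat_lit 699516), .ofNat (nat_lit 602531), .ofNat (nat_lit 722292), .ofNat (nat_lit 574999), .ofNat (nat_lit 679994), .ofNat (nat_lit 599967), .ofNat (nat_lit 704996)⟩, ⟨.ofNat (nat_lit 146756), .ofNat (nat_lit 266484), .ofNat (nat_lit 192306), .ofNat (nat_lit 312035), .ofNat (nat_lit 149997), .ofNat (nat_lit 254993), .ofNat (nat_lit 199999), .ofNat (nat_lit 304995)⟩⟩, [⟨nat_lit 13, nat_lit 32, nat_lit 90, nat_lit 100, nat_lit 258936530⟩, ⟨nat_lit 16, nat_lit 35, nat_lit 100, nat_lit 80, nat_lit 303308634⟩, ⟨nat_lit 7, nat_lit 81, nat_lit 100, nat_lit 72, nat_lit 29168340⟩]⟩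
noncomputable def b_V_900_500_10_1 : St := ⟨true, nat_lit 1, nat_lit 2, nat_lit 1, nat_lit 80, nat_lit 360, nat_lit 400, nat_lit 200, nat_lit 240, nat_lit 80, nat_lit 352, nat_lit 40, nat_lit 80, nat_lit 0, nat_lit 200, nat_lit 0, nat_lit 360, nat_lit 0, nat_lit 40, nat_lit 0, nat_lit 0, nat_lit 0, nat_lit 0⟩
theorem d_V_900_500_10_1 (h : EB TB.env) : Dead b_V_900_500_10_1 := chkB_sound0 h (T :=
(.st (nat_lit 1)
(.spl (nat_lit 2) (nat_lit 240)
(.spl (nat_lit 5) (nat_lit 160)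
(.leaf p104_l69)
(.spl (nat_lit 0) (nat_lit 380)
(.spl (nat_lit 4) (nat_lit 80)
(.leaf p104_l70)
(.spl (nat_lit 0) (nat_lit 370)
(.leaf p104_l71)
(.trZ (nat_lit 0) (nat_lit 100) (nat_lit 53) (nat_lit 85) (nat_lit 92) (.trX (nat_lit 16) (nat_lit 53) (nat_lit 100) (nat_lit 80) (nat_lit 184) (.leaf p104_l72)))))
(.trZ (nat_lit 0) (nat_lit 100) (nat_lit 44) (nat_lit 90) (nat_lit 112) (.trX (nat_lit 16) (nat_lit 44) (nat_lit 100) (nat_lit 82) (nat_lit 164) (.leaf p104_l73)))))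
(.spl (nat_lit 4) (nat_lit 80)
(.trX (nat_lit 22) (nat_lit 100) (nat_lit 76) (nat_lit 82) (nat_lit 336) (.spl (nat_lit 0) (nat_lit 380)
(.leaf p104_l74)
(.trX (nat_lit 13) (nat_lit 44) (nat_lit 81) (nat_lit 100) (nat_lit 324) (.leaf p104_l75))))
(.spl (nat_lit 0) (nat_lit 380)
(.leaf p104_l76)
(.trX (nat_lit 13) (nat_lit 44) (nat_lit 81) (nat_lit 100) (nat_lit 324) (.trX (nat_lit 16) (nat_lit 44) (nat_lit 100) (nat_lit 82) (nat_lit 164) (.leaf p104_l77))))))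
(.spl (nat_lit 2) (nat_lit 240)
(.spl (nat_lit 4) (nat_lit 80)
(.spl (nat_lit 0) (nat_lit 380)
(.spl (nat_lit 0) (nat_lit 370)
(.leaf p104_l78)
(.trZ (nat_lit 0) (nat_lit 100) (nat_lit 53) (nat_lit 85) (nat_lit 92) (.leaf p104_l79)))
(.trZ (nat_lit 0) (nat_lit 100) (nat_lit 44) (nat_lit 90) (nat_lit 112) (.leaf p104_l80)))
(.spl (nat_lit 0) (nat_lit 380)
(.leaf p104_l81)
(.trZ (nat_lit 0) (nat_lit 100) (nat_lit 44) (nat_lit 90) (nat_lit 112) (.trX (nat_lit 16) (nat_lit 44) (nat_lit 100) (nat_lit 82) (nat_lit 164) (.leaf p104_l82)))))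
(.spl (nat_lit 4) (nat_lit 80)
(.trX (nat_lit 22) (nat_lit 100) (nat_lit 76) (nat_lit 82) (nat_lit 336) (.spl (nat_lit 0) (nat_lit 380)
(.spl (nat_lit 0) (nat_lit 370)
(.spl (nat_lit 1) (nat_lit 220)
(.trX (nat_lit 13) (nat_lit 60) (nat_lit 74) (nat_lit 100) (nat_lit 336) (.leaf p104_l83))
(.leaf p104_l84))
(.trX (nat_lit 13) (nat_lit 54) (nat_lit 74) (nat_lit 100) (nat_lit 340) (.spl (nat_lit 0) (nat_lit 375)
(.leaf p104_l85)
(.trX (nat_lit 13) (nat_lit 49) (nat_lit 78) (nat_lit 100) (nat_lit 332) (.leaf p104_l86)))))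
(.trX (nat_lit 13) (nat_lit 44) (nat_lit 81) (nat_lit 100) (nat_lit 324) (.leaf p104_l87))))
(.spl (nat_lit 1) (nat_lit 220)
(.trX (nat_lit 13) (nat_lit 60) (nat_lit 74) (nat_lit 100) (nat_lit 336) (.spl (nat_lit 0) (nat_lit 380)
(.spl (nat_lit 3) (nat_lit 60)
(.trX (nat_lit 16) (nat_lit 61) (nat_lit 100) (nat_lit 72) (nat_lit 176) (.trX (nat_lit 19) (nat_lit 100) (nat_lit 70) (nat_lit 71) (nat_lit 344) (.leaf p104_l88)))
(.leaf p104_l89))
(.trX (nat_lit 13) (nat_lit 44) (nat_lit 86) (nat_lit 100) (nat_lit 308) (.trX (nat_lit 16) (nat_lit 44) (nat_lit 100) (nat_lit 82) (nat_lit 164) (.leaf p104_l90)))))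
(.trX (nat_lit 19) (nat_lit 100) (nat_lit 68) (nat_lit 80) (nat_lit 348) (.spl (nat_lit 0) (nat_lit 380)
(.leaf p104_l91)
(.trX (nat_lit 13) (nat_lit 44) (nat_lit 81) (nat_lit 100) (nat_lit 324) (.trX (nat_lit 16) (nat_lit 44) (nat_lit 100) (nat_lit 82) (nat_lit 164) (.leaf p104_l92)))))))))) (by decide +kernel)
noncomputable def p104_l93 : Lf2 := ⟨nat_lit 0, nat_lit 10, [nat_lit 0, nat_lit 5, nat_lit 5, nat_lit 20], false, nat_lit 0, nat_lit 200, nat_lit 0, nat_lit 360, ⟨nat_lit 291, nat_lit 709, nat_lit 0, nat_lit 5, nat_lit 219, nat_lit 709, nat_lit 69, nat_lit 0, nat_lit 0, nat_lit 0, nat_lit 0, nat_lit 0, nat_lit 0, nat_lit 0, nat_lit 0, nat_lit 5000000, false, true⟩,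
 nat_lit 0, nat_lit 3997, nat_lit 0, nat_lit 0, nat_lit 3481, nat_lit 2977, nat_lit 120, nat_lit 0, nat_lit 0, nat_lit 691, nat_lit 0, nat_lit 0, nat_lit 0, nat_lit 0, nat_lit 0, nat_lit 354400, nat_lit 0, nat_lit 0, [(nat_lit 24, [(nat_lit 1, nat_lit 591), (nat_lit 2, nat_lit 118)])],
 ⟨p104_k19, nat_lit 0, nat_lit 0, nat_lit 470, nat_lit 0, nat_lit 956096, [nat_lit 947350000, nat_lit 1488695600, nat_lit 1681496800], [], [nat_lit 24720863392, nat_lit 25200743194, nat_lit 30339206733, nat_lit 30718479963, nat_lit 25671623730, nat_lit 26078928963, nat_lit 30649312380, nat_lit 30977818799], nat_lit 1271250, nat_lit 1271250, nat_lit 490000, nat_lit 2615000, nat_lit 0, nat_lit 1412500, [nat_lit 230000, nat_lit 780000, nat_lit 1100000], [nat_lit 35, nat_lit 40, nat_lit 40, nat_lit 80, nat_lit 22, nat_lit 373, nat_lit 150, nat_lit 17]⟩, ⟨p104_k20, nat_lit 0, nat_lit 0, nat_lit 245, nat_lit 0, nat_lit 0, [nat_lit 1818750000,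 nat_lit 2864022000, nat_lit 3454752000], [], [nat_lit 6816904448, nat_lit 7580380012, nat_lit 11055483590, nat_lit 11425339836, nat_lit 9172624628, nat_lit 9514953568, nat_lit 10360200300, nat_lit 10400516654], nat_lit 0, nat_lit 0, nat_lit 0, nat_lit 0, nat_lit 0, nat_lit 0, [], [nat_lit 46, nat_lit 40, nat_lit 40, nat_lit 80, nat_lit 41, nat_lit 483, nat_lit 250, nat_lit 13]⟩,
 ⟨nat_lit 2738, nat_lit 3163, ⟨.ofNat (nat_lit 317085), .ofNat (nat_lit 731621), .ofNat (nat_lit 361370), .ofNat (nat_lit 775931), .ofNat (nat_lit 322761), .ofNat (nat_lit 724432), .ofNat (nat_lit 367571), .ofNat (nat_lit 769266)⟩, ⟨.ofNat (nat_lit 0), .ofNat (nat_lit 322759), .ofNat (nat_lit 0), .ofNat (nat_lit 367069), .ofNat (nat_lit 0), .ofNat (nat_lit 320659), .ofNat (nat_lit 0), .ofNat (nat_lit 365494)⟩⟩, [⟨nat_lit 16, nat_lit 57, nat_lit 100, nat_lit 73, nat_lit 236748874⟩, ⟨nat_lit 7, nat_lit 77, nat_lit 100, nat_lit 72, nat_lit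 59154510⟩]⟩
noncomputable def p104_l94 : Lf2 := ⟨nat_lit 0, nat_lit 10, [nat_lit 0, nat_lit 5, nat_lit 5, nat_lit 20], true, nat_lit 0, nat_lit 184, nat_lit 0, nat_lit 360, ⟨nat_lit 0, nat_lit 1000, nat_lit 0, nat_lit 5, nat_lit 218, nat_lit 1000, nat_lit 64, nat_lit 0, nat_lit 0, nat_lit 0, nat_lit 0, nat_lit 0, nat_lit 0, nat_lit 0, nat_lit 0, nat_lit 5000000, false, true⟩,
 nat_lit 0, nat_lit 3323, nat_lit 0, nat_lit 0, nat_lit 2998, nat_lit 0, nat_lit 743, nat_lit 0, nat_lit 0, nat_lit 0, nat_lit 0, nat_lit 0, nat_lit 0, nat_lit 0, nat_lit 0, nat_lit 250000, nat_lit 0, nat_lit 0, [(nat_lit 24, [(nat_lit 0, nat_lit 1000)])],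
 ⟨p104_k21, nat_lit 0, nat_lit 0, nat_lit 489, nat_lit 0, nat_lit 994630, [nat_lit 763200001, nat_lit 1367200000, nat_lit 1705600000], [], [nat_lit 21999081144, nat_lit 22655972657, nat_lit 28941324007, nat_lit 29387005074, nat_lit 23976042607, nat_lit 24512155866, nat_lit 29743462234, nat_lit 30116517811], nat_lit 1271250, nat_lit 1271250, nat_lit 573850, nat_lit 2539250, nat_lit 0, nat_lit 1299500, [nat_lit 230000, nat_lit 780000, nat_lit 1100000], [nat_lit 35, nat_lit 40, nat_lit 40, nat_lit 80, nat_lit 22, nat_lit 373, nat_lit 150, nat_lit 17]⟩, C1.Rw.none,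
 ⟨nat_lit 2236, nat_lit 2739, ⟨.ofNat (nat_lit 340439), .ofNat (nat_lit 706713), .ofNat (nat_lit 385234), .ofNat (nat_lit 751548), .ofNat (nat_lit 345963), .ofNat (nat_lit 699553), .ofNat (nat_lit 391471), .ofNat (nat_lit 745101)⟩, ⟨.ofNat (nat_lit 0), .ofNat (nat_lit 297035), .ofNat (nat_lit 0), .ofNat (nat_lit 341870), .ofNat (nat_lit 0), .ofNat (nat_lit 294998), .ofNat (nat_lit 0), .ofNat (nat_lit 340547)⟩⟩, [⟨nat_lit 13, nat_lit 49, nat_lit 83, nat_lit 100, nat_lit 242687476⟩, ⟨nat_lit 13, nat_lit 54, nat_lit 74, nat_lit 100, nat_lit 83100135⟩, ⟨nat_lit 16, nat_lit 50, nat_lit 100, nat_lit 74, nat_lit 224880756⟩]⟩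
noncomputable def p104_l95 : Lf2 := ⟨nat_lit 0, nat_lit 10, [nat_lit 0, nat_lit 5, nat_lit 5, nat_lit 20], true, nat_lit 0, nat_lit 164, nat_lit 0, nat_lit 360, ⟨nat_lit 0, nat_lit 1000, nat_lit 0, nat_lit 5, nat_lit 218, nat_lit 1000, nat_lit 57, nat_lit 0, nat_lit 0, nat_lit 0, nat_lit 0, nat_lit 0, nat_lit 0, nat_lit 0, nat_lit 0, nat_lit 5000000, false, true⟩,
 nat_lit 0, nat_lit 3152, nat_lit 0, nat_lit 0, nat_lit 2945, nat_lit 0, nat_lit 54, nat_lit 0, nat_lit 0, nat_lit 0, nat_lit 0, nat_lit 0, nat_lit 0, nat_lit 0, nat_lit 0, nat_lit 400000, nat_lit 0, nat_lit 0, [(nat_lit 27, [(nat_lit 1, nat_lit 1000)])],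
 ⟨p104_k22, nat_lit 0, nat_lit 0, nat_lit 464, nat_lit 0, nat_lit 1110522, [nat_lit 697600000, nat_lit 324400000], [], [nat_lit 23313039925, nat_lit 24409193803, nat_lit 28785398819, nat_lit 29712380473, nat_lit 24582192719, nat_lit 25587434721, nat_lit 29369160849, nat_lit 30110299327], nat_lit 1271250, nat_lit 1271250, nat_lit 719601, nat_lit 2439450, nat_lit 0, nat_lit 1133651, [nat_lit 230000, nat_lit 780000], [nat_lit 66, nat_lit 40, nat_lit 40, nat_lit 80, nat_lit 67, nat_lit 345, nat_lit 125, nat_lit 20]⟩, C1.Rw.none,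
 ⟨nat_lit 0, nat_lit 2237, ⟨.ofNat (nat_lit 370513), .ofNat (nat_lit 676741), .ofNat (nat_lit 414208), .ofNat (nat_lit 722292), .ofNat (nat_lit 385947), .ofNat (nat_lit 654993), .ofNat (nat_lit 434094), .ofNat (nat_lit 704996)⟩, ⟨.ofNat (nat_lit 0), .ofNat (nat_lit 266484), .ofNat (nat_lit 0), .ofNat (nat_lit 312035), .ofNat (nat_lit 0), .ofNat (nat_lit 254993), .ofNat (nat_lit 0), .ofNat (nat_lit 304995)⟩⟩, [⟨nat_lit 13, nat_lit 44, nat_lit 81, nat_lit 100, nat_lit 366354868⟩, ⟨nat_lit 16, nat_lit 44, nat_lit 100, nat_lit 82, nat_lit 214353531⟩]⟩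
noncomputable def p104_l96 : Lf2 := ⟨nat_lit 0, nat_lit 10, [nat_lit 0, nat_lit 5, nat_lit 5, nat_lit 20], false, nat_lit 0, nat_lit 200, nat_lit 0, nat_lit 360, ⟨nat_lit 0, nat_lit 1000, nat_lit 0, nat_lit 5, nat_lit 217, nat_lit 1000, nat_lit 67, nat_lit 0, nat_lit 0, nat_lit 0, nat_lit 0, nat_lit 0, nat_lit 0, nat_lit 0, nat_lit 0, nat_lit 5000000, false, true⟩,
 nat_lit 0, nat_lit 3530, nat_lit 0, nat_lit 0, nat_lit 3074, nat_lit 0, nat_lit 227, nat_lit 0, nat_lit 0, nat_lit 0, nat_lit 0, nat_lit 0, nat_lit 0, nat_lit 0, nat_lit 0, nat_lit 304300, nat_lit 0, nat_lit 0, [(nat_lit 24, [(nat_lit 0, nat_lit 638), (nat_lit 1, nat_lit 362)]), (nat_lit 27, [(nat_lit 0, nat_lit 638), (nat_lit 1, nat_lit 362)])],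
 ⟨p104_k19, nat_lit 0, nat_lit 0, nat_lit 414, nat_lit 0, nat_lit 759829, [nat_lit 805126400, nat_lit 1233308267, nat_lit 1433665600], [], [nat_lit 23125094170, nat_lit 25259627170, nat_lit 29214380686, nat_lit 31491128876, nat_lit 24600928070, nat_lit 26326725898, nat_lit 29967825118, nat_lit 31378998127], nat_lit 1271250, nat_lit 1271250, nat_lit 490000, nat_lit 2615000, nat_lit 0, nat_lit 1412500, [nat_lit 230000, nat_lit 780000, nat_lit 1100000], [nat_lit 35, nat_lit 40, nat_lit 40, nat_lit 80, nat_lit 22, nat_lit 373, nat_lit 150, nat_lit 17]⟩, ⟨p104_k20, nat_lit 0, nat_lit 0, nat_lit 1184, nat_lit 0, nat_lit 1820162, [nat_lit 0, nat_lit 0, nat_lit 0], [], [nat_lit 0, nat_lit 0, nat_lit 0, nat_lit 0, nat_lit 0, nat_lit 0, nat_lit 0, nat_lit 0], nat_lit 1271250, nat_lit 1271250, nat_lit 490000, nat_lit 2615000, nat_lit 0, nat_lit 2542500, [nat_lit 1412500, nat_lit 1271250, nat_lit 1271250], [nat_lit 46, nat_lit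 40, nat_lit 40, nat_lit 80, nat_lit 41, nat_lit 483, nat_lit 250, nat_lit 13]⟩,
 ⟨nat_lit 0, nat_lit 3163, ⟨.ofNat (nat_lit 309443), .ofNat (nat_lit 731616), .ofNat (nat_lit 351143), .ofNat (nat_lit 775928), .ofNat (nat_lit 342303), .ofNat (nat_lit 689994), .ofNat (nat_lit 389693), .ofNat (nat_lit 739996)⟩, ⟨.ofNat (nat_lit 0), .ofNat (nat_lit 322753), .ofNat (nat_lit 0), .ofNat (nat_lit 367065), .ofNat (nat_lit 0), .ofNat (nat_lit 299993), .ofNat (nat_lit 0), .ofNat (nat_lit 349995)⟩⟩, [⟨nat_lit 13, nat_lit 44, nat_lit 86, nat_lit 100, nat_lit 24483026⟩, ⟨nat_lit 13, nat_lit 61, nat_lit 68, nat_lit 100, nat_lit 224329051⟩, ⟨nat_lit 4, nat_lit 100, nat_lit 46, nat_lit 75, nat_lit 175763471⟩]⟩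
noncomputable def b_V_900_500_10_2 : St := ⟨true, nat_lit 1, nat_lit 2, nat_lit 2, nat_lit 80, nat_lit 360, nat_lit 400, nat_lit 200, nat_lit 240, nat_lit 80, nat_lit 352, nat_lit 40, nat_lit 80, nat_lit 0, nat_lit 200, nat_lit 0, nat_lit 360, nat_lit 0, nat_lit 40, nat_lit 0, nat_lit 0, nat_lit 0, nat_lit 0⟩
theorem d_V_900_500_10_2 (h : EB TB.env) : Dead b_V_900_500_10_2 := chkB_sound0 h (T :=
(.st (nat_lit 1)
(.spl (nat_lit 0) (nat_lit 380)
(.spl (nat_lit 0) (nat_lit 370)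
(.leaf p104_l93)
(.trZ (nat_lit 0) (nat_lit 100) (nat_lit 53) (nat_lit 85) (nat_lit 92) (.trX (nat_lit 13) (nat_lit 54) (nat_lit 74) (nat_lit 100) (nat_lit 340) (.trX (nat_lit 16) (nat_lit 53) (nat_lit 100) (nat_lit 80) (nat_lit 184) (.leaf p104_l94)))))
(.trZ (nat_lit 0) (nat_lit 100) (nat_lit 44) (nat_lit 90) (nat_lit 112) (.trX (nat_lit 13) (nat_lit 44) (nat_lit 81) (nat_lit 100) (nat_lit 324) (.trX (nat_lit 16) (nat_lit 44) (nat_lit 100) (nat_lit 82) (nat_lit 164) (.leaf p104_l95)))))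
(.leaf p104_l96))) (by decide +kernel)
noncomputable def p104_l97 : Lf2 := ⟨nat_lit 0, nat_lit 20, [nat_lit 5, nat_lit 5, nat_lit 5, nat_lit 20], true, nat_lit 0, nat_lit 200, nat_lit 0, nat_lit 360, ⟨nat_lit 0, nat_lit 234, nat_lit 766, nat_lit 5, nat_lit 185, nat_lit 1000, nat_lit 67, nat_lit 766, nat_lit 41667, nat_lit 265, nat_lit 417, nat_lit 210, nat_lit 55148891, nat_lit 11851109, nat_lit 0, nat_lit 2333162, false, false⟩,
 nat_lit 0, nat_lit 0, nat_lit 0, nat_lit 0, nat_lit 2569, nat_lit 0, nat_lit 0, nat_lit 0, nat_lit 0, nat_lit 0, nat_lit 0, nat_lit 0, nat_lit 0, nat_lit 0, nat_lit 47, nat_lit 250000, nat_lit 0, nat_lit 0, [(nat_lit 25, [(nat_lit 0, nat_lit 234), (nat_lit 4, nat_lit 766)]), (nat_lit 28, [(nat_lit 0, nat_lit 234), (nat_lit 4, nat_lit 766)])],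
 ⟨p104_k25, nat_lit 0, nat_lit 0, nat_lit 203, nat_lit 0, nat_lit 0, [nat_lit 1037498240, nat_lit 103296896], [], [nat_lit 19056925216, nat_lit 22788621988, nat_lit 22270247648, nat_lit 25247545648, nat_lit 20747106154, nat_lit 23008367390, nat_lit 23605002368, nat_lit 25766061052], nat_lit 0, nat_lit 0, nat_lit 0, nat_lit 0, nat_lit 0, nat_lit 0, [], [nat_lit 88, nat_lit 40, nat_lit 40, nat_lit 80, nat_lit 89, nat_lit 345, nat_lit 125, nat_lit 13]⟩, C1.Rw.none,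
 ⟨nat_lit 0, nat_lit 3163, ⟨.ofNat (nat_lit 309443), .ofNat (nat_lit 560951), .ofNat (nat_lit 351143), .ofNat (nat_lit 605128), .ofNat (nat_lit 342303), .ofNat (nat_lit 549998), .ofNat (nat_lit 389693), .ofNat (nat_lit 599865)⟩, ⟨.ofNat (nat_lit 0), .ofNat (nat_lit 322753), .ofNat (nat_lit 0), .ofNat (nat_lit 367065), .ofNat (nat_lit 0), .ofNat (nat_lit 299993), .ofNat (nat_lit 0), .ofNat (nat_lit 349995)⟩⟩, []⟩
noncomputable def p104_l98 : Lf2 := ⟨nat_lit 0, nat_lit 20, [nat_lit 5, nat_lit 5, nat_lit 5, nat_lit 20], false, nat_lit 0, nat_lit 200, nat_lit 0, nat_lit 360, ⟨nat_lit 1000, nat_lit 0, nat_lit 0, nat_lit 0, nat_lit 0, nat_lit 0, nat_lit 0, nat_lit 0, nat_lit 0, nat_lit 0, nat_lit 0, nat_lit 0, nat_lit 0, nat_lit 0, nat_lit 0, nat_lit 0, false, false⟩,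
 nat_lit 0, nat_lit 0, nat_lit 0, nat_lit 0, nat_lit 7175, nat_lit 16210, nat_lit 0, nat_lit 0, nat_lit 0, nat_lit 0, nat_lit 0, nat_lit 0, nat_lit 0, nat_lit 0, nat_lit 0, nat_lit 0, nat_lit 0, nat_lit 0, [],
 ⟨p104_k25, nat_lit 0, nat_lit 0, nat_lit 187, nat_lit 0, nat_lit 0, [nat_lit 938000000, nat_lit 6250000000], [], [nat_lit 32488361600, nat_lit 36780011600, nat_lit 39770129180, nat_lit 43740753541, nat_lit 28264787650, nat_lit 30909617900, nat_lit 32381520270, nat_lit 35235112460], nat_lit 0, nat_lit 0, nat_lit 0, nat_lit 0, nat_lit 0, nat_lit 0, [], [nat_lit 88, nat_lit 40, nat_lit 40, nat_lit 80, nat_lit 89, nat_lit 260, nat_lit 50, nat_lit 9]⟩, ⟨p104_k26, nat_lit 0, nat_lit 0, nat_lit 255, nat_lit 0, nat_lit 0, [nat_lit 6250000000, nat_lit 14058000000], [], [nat_lit 43928118480, nat_lit 45627627360, nat_lit 55093086161, nat_lit 55542753025, nat_lit 37283185760, nat_lit 37167957300, nat_lit 41342353804,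 nat_lit 41785013104], nat_lit 0, nat_lit 0, nat_lit 0, nat_lit 0, nat_lit 0, nat_lit 0, [], [nat_lit 149, nat_lit 40, nat_lit 40, nat_lit 80, nat_lit 68, nat_lit 483, nat_lit 250, nat_lit 11]⟩,
 zbF0, [⟨nat_lit 13, nat_lit 44, nat_lit 86, nat_lit 100, nat_lit 46506021⟩, ⟨nat_lit 10, nat_lit 61, nat_lit 89, nat_lit 100, nat_lit 4778283⟩]⟩
noncomputable def p104_l99 : Lf2 := ⟨nat_lit 0, nat_lit 20, [nat_lit 5, nat_lit 5, nat_lit 5, nat_lit 20], true, nat_lit 0, nat_lit 200, nat_lit 0, nat_lit 360, ⟨nat_lit 0, nat_lit 234, nat_lit 766, nat_lit 5, nat_lit 185, nat_lit 1000, nat_lit 67, nat_lit 766, nat_lit 41667, nat_lit 265, nat_lit 417, nat_lit 210, nat_lit 55148891, nat_lit 11851109, nat_lit 0, nat_lit 2333162, false, false⟩,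
 nat_lit 0, nat_lit 0, nat_lit 0, nat_lit 0, nat_lit 2569, nat_lit 0, nat_lit 0, nat_lit 0, nat_lit 0, nat_lit 0, nat_lit 0, nat_lit 0, nat_lit 0, nat_lit 0, nat_lit 47, nat_lit 250000, nat_lit 0, nat_lit 0, [(nat_lit 25, [(nat_lit 0, nat_lit 234), (nat_lit 4, nat_lit 766)]), (nat_lit 28, [(nat_lit 0, nat_lit 234), (nat_lit 4, nat_lit 766)])],
 ⟨p104_k25, nat_lit 0, nat_lit 0, nat_lit 203, nat_lit 0, nat_lit 0, [nat_lit 1037498240, nat_lit 103296896], [], [nat_lit 19056925216, nat_lit 22788621988, nat_lit 22270247648, nat_lit 25247545648, nat_lit 20747106154, nat_lit 23008367390, nat_lit 23605002368, nat_lit 25766061052], nat_lit 0, nat_lit 0, nat_lit 0, nat_lit 0, nat_lit 0, nat_lit 0, [], [nat_lit 88, nat_lit 40, nat_lit 40, nat_lit 80, nat_lit 89, nat_lit 345, nat_lit 125, nat_lit 13]⟩, C1.Rw.none,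
 ⟨nat_lit 0, nat_lit 3163, ⟨.ofNat (nat_lit 309443), .ofNat (nat_lit 560951), .ofNat (nat_lit 351143), .ofNat (nat_lit 605128), .ofNat (nat_lit 342303), .ofNat (nat_lit 549998), .ofNat (nat_lit 389693), .ofNat (nat_lit 599865)⟩, ⟨.ofNat (nat_lit 0), .ofNat (nat_lit 322753), .ofNat (nat_lit 0), .ofNat (nat_lit 367065), .ofNat (nat_lit 0), .ofNat (nat_lit 299993), .ofNat (nat_lit 0), .ofNat (nat_lit 349995)⟩⟩, []⟩
noncomputable def p104_l100 : Lf2 := ⟨nat_lit 0, nat_lit 20, [nat_lit 5, nat_lit 5, nat_lit 5, nat_lit 20], true, nat_lit 0, nat_lit 80, nat_lit 0, nat_lit 336, ⟨nat_lit 0, nat_lit 419, nat_lit 581, nat_lit 6, nat_lit 243, nat_lit 1000, nat_lit 34, nat_lit 581, nat_lit 10417, nat_lit 240, nat_lit 61180, nat_lit 200, nat_lit 48971093, nat_lit 18028907, nat_lit 0, nat_lit 2911748, true, true⟩,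
 nat_lit 0, nat_lit 0, nat_lit 0, nat_lit 0, nat_lit 2632, nat_lit 0, nat_lit 0, nat_lit 0, nat_lit 0, nat_lit 0, nat_lit 0, nat_lit 0, nat_lit 0, nat_lit 0, nat_lit 10, nat_lit 250000, nat_lit 0, nat_lit 0, [(nat_lit 25, [(nat_lit 0, nat_lit 419), (nat_lit 4, nat_lit 581)]), (nat_lit 28, [(nat_lit 0, nat_lit 419), (nat_lit 4, nat_lit 581)])],
 ⟨p104_k25, nat_lit 0, nat_lit 0, nat_lit 168, nat_lit 0, nat_lit 0, [nat_lit 873099840, nat_lit 46121536], [], [nat_lit 22930390176, nat_lit 25405284544, nat_lit 24208870496, nat_lit 26905845312, nat_lit 22305964192, nat_lit 24451221952, nat_lit 23649639552, nat_lit 25649793952], nat_lit 0, nat_lit 0, nat_lit 0, nat_lit 0, nat_lit 0, nat_lit 0, [], [nat_lit 88, nat_lit 40, nat_lit 40, nat_lit 80, nat_lit 89, nat_lit 226, nat_lit 20, nat_lit 8]⟩, C1.Rw.none,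
 ⟨nat_lit 0, nat_lit 3163, ⟨.ofNat (nat_lit 560951), .ofNat (nat_lit 621903), .ofNat (nat_lit 605128), .ofNat (nat_lit 666215), .ofNat (nat_lit 549998), .ofNat (nat_lit 599997), .ofNat (nat_lit 599865), .ofNat (nat_lit 649999)⟩, ⟨.ofNat (nat_lit 0), .ofNat (nat_lit 139898), .ofNat (nat_lit 0), .ofNat (nat_lit 184209), .ofNat (nat_lit 0), .ofNat (nat_lit 149998), .ofNat (nat_lit 0), .ofNat (nat_lit 199999)⟩⟩, [⟨nat_lit 3, nat_lit 100, nat_lit 61, nat_lit 47, nat_lit 141753066⟩]⟩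
noncomputable def p104_l101 : Lf2 := ⟨nat_lit 0, nat_lit 20, [nat_lit 5, nat_lit 5, nat_lit 5, nat_lit 20], false, nat_lit 0, nat_lit 80, nat_lit 0, nat_lit 300, ⟨nat_lit 52, nat_lit 948, nat_lit 0, nat_lit 7, nat_lit 269, nat_lit 948, nat_lit 33, nat_lit 0, nat_lit 0, nat_lit 0, nat_lit 0, nat_lit 0, nat_lit 46095267, nat_lit 20904733, nat_lit 0, nat_lit 3103500, true, true⟩,
 nat_lit 0, nat_lit 0, nat_lit 1323, nat_lit 0, nat_lit 2824, nat_lit 566, nat_lit 0, nat_lit 0, nat_lit 0, nat_lit 48, nat_lit 0, nat_lit 0, nat_lit 0, nat_lit 0, nat_lit 0, nat_lit 379200, nat_lit 0, nat_lit 0, [(nat_lit 25, [(nat_lit 1, nat_lit 948)])],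
 ⟨p104_k27, nat_lit 0, nat_lit 0, nat_lit 149, nat_lit 0, nat_lit 0, [nat_lit 849646401, nat_lit 1120686400, nat_lit 1192609600], [], [nat_lit 25553319650, nat_lit 25811783166, nat_lit 27068918658, nat_lit 27307819990, nat_lit 24842484834, nat_lit 25086589642, nat_lit 26284115682, nat_lit 26510299674], nat_lit 0, nat_lit 0, nat_lit 0, nat_lit 0, nat_lit 0, nat_lit 0, [], [nat_lit 20, nat_lit 40, nat_lit 40, nat_lit 80, nat_lit 16, nat_lit 226, nat_lit 20, nat_lit 7]⟩, ⟨p104_k28, nat_lit 0, nat_lit 0, nat_lit 1171, nat_lit 0, nat_lit 1862798, [nat_lit 325000000, nat_lit 511784000, nat_lit 731016000], [], [nat_lit 2151972856, nat_lit 2122035008, nat_lit 2160079088, nat_lit 2136802648, nat_lit 1644293954, nat_lit 1619228766, nat_lit 1657070030, nat_lit 1644820940], nat_lit 1271250, nat_lit 1271250, nat_lit 1271250, nat_lit 1271250, nat_lit 0, nat_lit 2118750, [nat_lit 1412500, nat_lit 1271250, nat_lit 1271250],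 [nat_lit 60, nat_lit 40, nat_lit 40, nat_lit 80, nat_lit 32, nat_lit 456, nat_lit 225, nat_lit 10]⟩,
 ⟨nat_lit 2958, nat_lit 3163, ⟨.ofNat (nat_lit 621905), .ofNat (nat_lit 682859), .ofNat (nat_lit 666215), .ofNat (nat_lit 727168), .ofNat (nat_lit 620041), .ofNat (nat_lit 680062), .ofNat (nat_lit 664595), .ofNat (nat_lit 724616)⟩, ⟨.ofNat (nat_lit 0), .ofNat (nat_lit 139899), .ofNat (nat_lit 0), .ofNat (nat_lit 184209), .ofNat (nat_lit 0), .ofNat (nat_lit 141719), .ofNat (nat_lit 0), .ofNat (nat_lit 186273)⟩⟩, [⟨nat_lit 3, nat_lit 100, nat_lit 71, nat_lit 40, nat_lit 2410952⟩, ⟨nat_lit 22, nat_lit 89, nat_lit 100, nat_lit 28, nat_lit 4680170⟩]⟩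
noncomputable def p104_l102 : Lf2 := ⟨nat_lit 0, nat_lit 20, [nat_lit 5, nat_lit 5, nat_lit 5, nat_lit 20], true, nat_lit 0, nat_lit 80, nat_lit 0, nat_lit 300, ⟨nat_lit 0, nat_lit 1000, nat_lit 0, nat_lit 7, nat_lit 268, nat_lit 1000, nat_lit 33, nat_lit 0, nat_lit 0, nat_lit 0, nat_lit 0, nat_lit 0, nat_lit 46190721, nat_lit 20809279, nat_lit 0, nat_lit 3097843, true, true⟩,
 nat_lit 0, nat_lit 0, nat_lit 0, nat_lit 0, nat_lit 2775, nat_lit 0, nat_lit 158, nat_lit 0, nat_lit 0, nat_lit 0, nat_lit 0, nat_lit 0, nat_lit 0, nat_lit 0, nat_lit 0, nat_lit 250000, nat_lit 0, nat_lit 0, [(nat_lit 25, [(nat_lit 0, nat_lit 1000)])],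
 ⟨p104_k29, nat_lit 0, nat_lit 0, nat_lit 151, nat_lit 0, nat_lit 0, [nat_lit 764000001, nat_lit 1368800000, nat_lit 2118000000], [], [nat_lit 25334450902, nat_lit 25591112002, nat_lit 26823373490, nat_lit 27084679525, nat_lit 24642500252, nat_lit 24884946802, nat_lit 26059705265, nat_lit 26284441527], nat_lit 0, nat_lit 0, nat_lit 0, nat_lit 0, nat_lit 0, nat_lit 0, [], [nat_lit 20, nat_lit 40, nat_lit 40, nat_lit 80, nat_lit 16, nat_lit 226, nat_lit 20, nat_lit 7]⟩, C1.Rw.none,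
 ⟨nat_lit 2738, nat_lit 2959, ⟨.ofNat (nat_lit 620041), .ofNat (nat_lit 680062), .ofNat (nat_lit 664595), .ofNat (nat_lit 724616), .ofNat (nat_lit 618121), .ofNat (nat_lit 677182), .ofNat (nat_lit 662956), .ofNat (nat_lit 722017)⟩, ⟨.ofNat (nat_lit 0), .ofNat (nat_lit 141719), .ofNat (nat_lit 0), .ofNat (nat_lit 186273), .ofNat (nat_lit 0), .ofNat (nat_lit 143475), .ofNat (nat_lit 0), .ofNat (nat_lit 188310)⟩⟩, [⟨nat_lit 3, nat_lit 100, nat_lit 66, nat_lit 45, nat_lit 54341810⟩]⟩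
noncomputable def p104_l103 : Lf2 := ⟨nat_lit 0, nat_lit 20, [nat_lit 5, nat_lit 5, nat_lit 5, nat_lit 20], true, nat_lit 0, nat_lit 80, nat_lit 0, nat_lit 300, ⟨nat_lit 0, nat_lit 1000, nat_lit 0, nat_lit 7, nat_lit 267, nat_lit 1000, nat_lit 34, nat_lit 0, nat_lit 0, nat_lit 0, nat_lit 0, nat_lit 0, nat_lit 46340791, nat_lit 20659209, nat_lit 0, nat_lit 3088855, true, true⟩,
 nat_lit 0, nat_lit 0, nat_lit 0, nat_lit 0, nat_lit 2664, nat_lit 0, nat_lit 152, nat_lit 0, nat_lit 0, nat_lit 0, nat_lit 0, nat_lit 0, nat_lit 0, nat_lit 0, nat_lit 0, nat_lit 250000, nat_lit 0, nat_lit 0, [(nat_lit 25, [(nat_lit 0, nat_lit 1000)])],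
 ⟨p104_k30, nat_lit 0, nat_lit 0, nat_lit 154, nat_lit 0, nat_lit 0, [nat_lit 764000001, nat_lit 1368800000, nat_lit 2118000000], [], [nat_lit 25498988682, nat_lit 26004144834, nat_lit 26952985722, nat_lit 27449311728, nat_lit 24868455330, nat_lit 25345835506, nat_lit 26253691106, nat_lit 26696604530], nat_lit 0, nat_lit 0, nat_lit 0, nat_lit 0, nat_lit 0, nat_lit 0, [], [nat_lit 20, nat_lit 40, nat_lit 40, nat_lit 80, nat_lit 16, nat_lit 226, nat_lit 20, nat_lit 7]⟩, C1.Rw.none,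
 ⟨nat_lit 2236, nat_lit 2739, ⟨.ofNat (nat_lit 618121), .ofNat (nat_lit 677182), .ofNat (nat_lit 662956), .ofNat (nat_lit 722017), .ofNat (nat_lit 614030), .ofNat (nat_lit 671045), .ofNat (nat_lit 659578), .ofNat (nat_lit 716594)⟩, ⟨.ofNat (nat_lit 0), .ofNat (nat_lit 143475), .ofNat (nat_lit 0), .ofNat (nat_lit 188310), .ofNat (nat_lit 0), .ofNat (nat_lit 146758), .ofNat (nat_lit 0), .ofNat (nat_lit 192306)⟩⟩, [⟨nat_lit 3, nat_lit 100, nat_lit 68, nat_lit 40, nat_lit 49341387⟩]⟩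
noncomputable def p104_l104 : Lf2 := ⟨nat_lit 0, nat_lit 20, [nat_lit 5, nat_lit 5, nat_lit 5, nat_lit 20], true, nat_lit 0, nat_lit 80, nat_lit 0, nat_lit 300, ⟨nat_lit 0, nat_lit 1000, nat_lit 0, nat_lit 7, nat_lit 263, nat_lit 1000, nat_lit 34, nat_lit 0, nat_lit 0, nat_lit 0, nat_lit 0, nat_lit 0, nat_lit 46771194, nat_lit 20228806, nat_lit 0, nat_lit 3062421, true, true⟩,
 nat_lit 0, nat_lit 0, nat_lit 0, nat_lit 0, nat_lit 2388, nat_lit 0, nat_lit 0, nat_lit 0, nat_lit 0, nat_lit 0, nat_lit 0, nat_lit 0, nat_lit 0, nat_lit 0, nat_lit 0, nat_lit 400000, nat_lit 0, nat_lit 0, [(nat_lit 28, [(nat_lit 1, nat_lit 1000)])],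
 ⟨p104_k31, nat_lit 0, nat_lit 0, nat_lit 177, nat_lit 0, nat_lit 0, [nat_lit 697600000, nat_lit 138000000], [], [nat_lit 25283240960, nat_lit 26303415520, nat_lit 26730733368, nat_lit 27954969328, nat_lit 24833023304, nat_lit 25797147104, nat_lit 26214300912, nat_lit 27109609936], nat_lit 0, nat_lit 0, nat_lit 0, nat_lit 0, nat_lit 0, nat_lit 0, [], [nat_lit 88, nat_lit 40, nat_lit 40, nat_lit 80, nat_lit 89, nat_lit 226, nat_lit 20, nat_lit 7]⟩, C1.Rw.none,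
 ⟨nat_lit 0, nat_lit 2237, ⟨.ofNat (nat_lit 614026), .ofNat (nat_lit 671039), .ofNat (nat_lit 659577), .ofNat (nat_lit 716590), .ofNat (nat_lit 599995), .ofNat (nat_lit 649993), .ofNat (nat_lit 649998), .ofNat (nat_lit 699995)⟩, ⟨.ofNat (nat_lit 0), .ofNat (nat_lit 146756), .ofNat (nat_lit 0), .ofNat (nat_lit 192306), .ofNat (nat_lit 0), .ofNat (nat_lit 149997), .ofNat (nat_lit 0), .ofNat (nat_lit 199999)⟩⟩, [⟨nat_lit 13, nat_lit 44, nat_lit 81, nat_lit 100, nat_lit 126789051⟩, ⟨nat_lit 3, nat_lit 100, nat_lit 44, nat_lit 64, nat_lit 55915064⟩]⟩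
noncomputable def p104_l105 : Lf2 := ⟨nat_lit 0, nat_lit 20, [nat_lit 5, nat_lit 5, nat_lit 5, nat_lit 20], true, nat_lit 0, nat_lit 80, nat_lit 0, nat_lit 260, ⟨nat_lit 0, nat_lit 1000, nat_lit 0, nat_lit 8, nat_lit 280, nat_lit 1000, nat_lit 33, nat_lit 0, nat_lit 0, nat_lit 0, nat_lit 0, nat_lit 0, nat_lit 44967246, nat_lit 22032754, nat_lit 0, nat_lit 3166794, true, true⟩,
 nat_lit 0, nat_lit 0, nat_lit 0, nat_lit 3045, nat_lit 2735, nat_lit 0, nat_lit 0, nat_lit 0, nat_lit 0, nat_lit 0, nat_lit 0, nat_lit 0, nat_lit 0, nat_lit 0, nat_lit 0, nat_lit 400000, nat_lit 0, nat_lit 0, [(nat_lit 25, [(nat_lit 1, nat_lit 1000)])],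
 ⟨p104_k27, nat_lit 0, nat_lit 0, nat_lit 158, nat_lit 0, nat_lit 0, [nat_lit 844800001, nat_lit 1002133334, nat_lit 915200000], [], [nat_lit 26765707176, nat_lit 27755712470, nat_lit 27417717920, nat_lit 28456240357, nat_lit 26042165036, nat_lit 26936382806, nat_lit 26661666284, nat_lit 27527789354], nat_lit 0, nat_lit 0, nat_lit 0, nat_lit 0, nat_lit 0, nat_lit 0, [], [nat_lit 20, nat_lit 40, nat_lit 40, nat_lit 80, nat_lit 16, nat_lit 226, nat_lit 20, nat_lit 7]⟩, C1.Rw.none,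
 ⟨nat_lit 2236, nat_lit 3163, ⟨.ofNat (nat_lit 682859), .ofNat (nat_lit 707240), .ofNat (nat_lit 705013), .ofNat (nat_lit 729395), .ofNat (nat_lit 671045), .ofNat (nat_lit 693851), .ofNat (nat_lit 693819), .ofNat (nat_lit 716626)⟩, ⟨.ofNat (nat_lit 0), .ofNat (nat_lit 139899), .ofNat (nat_lit 0), .ofNat (nat_lit 184209), .ofNat (nat_lit 0), .ofNat (nat_lit 146758), .ofNat (nat_lit 0), .ofNat (nat_lit 192306)⟩⟩, [⟨nat_lit 13, nat_lit 60, nat_lit 74, nat_lit 100, nat_lit 304471923⟩, ⟨nat_lit 3, nat_lit 100, nat_lit 74, nat_lit 33, nat_lit 43353476⟩]⟩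
noncomputable def p104_l106 : Lf2 := ⟨nat_lit 0, nat_lit 20, [nat_lit 5, nat_lit 5, nat_lit 5, nat_lit 20], false, nat_lit 0, nat_lit 80, nat_lit 0, nat_lit 260, ⟨nat_lit 70, nat_lit 930, nat_lit 0, nat_lit 8, nat_lit 295, nat_lit 930, nat_lit 33, nat_lit 0, nat_lit 0, nat_lit 0, nat_lit 0, nat_lit 0, nat_lit 43398387, nat_lit 23601613, nat_lit 0, nat_lit 3244180, true, true⟩,
 nat_lit 0, nat_lit 0, nat_lit 1381, nat_lit 0, nat_lit 2751, nat_lit 660, nat_lit 0, nat_lit 0, nat_lit 0, nat_lit 66, nat_lit 0, nat_lit 0, nat_lit 0, nat_lit 0, nat_lit 0, nat_lit 372000, nat_lit 0, nat_lit 0, [(nat_lit 25, [(nat_lit 1, nat_lit 930)])],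
 ⟨p104_k27, nat_lit 0, nat_lit 0, nat_lit 159, nat_lit 0, nat_lit 0, [nat_lit 851324001, nat_lit 1161724000, nat_lit 1288636000], [], [nat_lit 27293364946, nat_lit 27766483857, nat_lit 28599786127, nat_lit 29042131488, nat_lit 26558809622, nat_lit 27006863963, nat_lit 27800016176, nat_lit 28219865417], nat_lit 0, nat_lit 0, nat_lit 0, nat_lit 0, nat_lit 0, nat_lit 0, [], [nat_lit 20, nat_lit 40, nat_lit 40, nat_lit 80, nat_lit 16, nat_lit 226, nat_lit 20, nat_lit 7]⟩, ⟨p104_k32, nat_lit 0, nat_lit 0, nat_lit 1088, nat_lit 0, nat_lit 1707947, [nat_lit 437500000, nat_lit 688940000, nat_lit 984060000], [], [nat_lit 2823743600, nat_lit 2807965320, nat_lit 2850243997, nat_lit 2838495553, nat_lit 2252092015, nat_lit 2233788210, nat_lit 2273225794, nat_lit 2259123222], nat_lit 1271250, nat_lit 1271250, nat_lit 1271250, nat_lit 1271250, nat_lit 0, nat_lit 1836250, [nat_lit 1412500, nat_lit 1271250, nat_lit 1271250],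 [nat_lit 60, nat_lit 40, nat_lit 40, nat_lit 80, nat_lit 32, nat_lit 456, nat_lit 225, nat_lit 10]⟩,
 ⟨nat_lit 2738, nat_lit 3163, ⟨.ofNat (nat_lit 705013), .ofNat (nat_lit 753776), .ofNat (nat_lit 727168), .ofNat (nat_lit 775931), .ofNat (nat_lit 699600), .ofNat (nat_lit 746849), .ofNat (nat_lit 722017), .ofNat (nat_lit 769266)⟩, ⟨.ofNat (nat_lit 0), .ofNat (nat_lit 139899), .ofNat (nat_lit 0), .ofNat (nat_lit 184209), .ofNat (nat_lit 0), .ofNat (nat_lit 143475), .ofNat (nat_lit 0), .ofNat (nat_lit 188310)⟩⟩, [⟨nat_lit 13, nat_lit 57, nat_lit 74, nat_lit 100, nat_lit 278335786⟩, ⟨nat_lit 3, nat_lit 100, nat_lit 66, nat_lit 45, nat_lit 1385134⟩, ⟨nat_lit 22, nat_lit 78, nat_lit 100, nat_lit 41, nat_lit 2661830⟩]⟩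
noncomputable def p104_l107 : Lf2 := ⟨nat_lit 0, nat_lit 20, [nat_lit 5, nat_lit 5, nat_lit 5, nat_lit 20], true, nat_lit 0, nat_lit 80, nat_lit 0, nat_lit 260, ⟨nat_lit 0, nat_lit 1000, nat_lit 0, nat_lit 8, nat_lit 289, nat_lit 1000, nat_lit 34, nat_lit 0, nat_lit 0, nat_lit 0, nat_lit 0, nat_lit 0, nat_lit 44020128, nat_lit 22979872, nat_lit 0, nat_lit 3214971, true, true⟩,
 nat_lit 0, nat_lit 0, nat_lit 0, nat_lit 0, nat_lit 2299, nat_lit 0, nat_lit 256, nat_lit 0, nat_lit 0, nat_lit 0, nat_lit 0, nat_lit 0, nat_lit 0, nat_lit 0, nat_lit 0, nat_lit 250000, nat_lit 0, nat_lit 0, [(nat_lit 25, [(nat_lit 0, nat_lit 1000)])],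
 ⟨p104_k30, nat_lit 0, nat_lit 0, nat_lit 159, nat_lit 0, nat_lit 0, [nat_lit 764000001, nat_lit 1368800000, nat_lit 2118000000], [], [nat_lit 26138752397, nat_lit 26582870536, nat_lit 26897678405, nat_lit 27473409995, nat_lit 25692546591, nat_lit 26113891800, nat_lit 26416687487, nat_lit 26884295233], nat_lit 0, nat_lit 0, nat_lit 0, nat_lit 0, nat_lit 0, nat_lit 0, [], [nat_lit 20, nat_lit 40, nat_lit 40, nat_lit 80, nat_lit 16, nat_lit 226, nat_lit 20, nat_lit 7]⟩, C1.Rw.none,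
 ⟨nat_lit 2236, nat_lit 2739, ⟨.ofNat (nat_lit 699600), .ofNat (nat_lit 729131), .ofNat (nat_lit 722017), .ofNat (nat_lit 751548), .ofNat (nat_lit 693819), .ofNat (nat_lit 722327), .ofNat (nat_lit 716594), .ofNat (nat_lit 745101)⟩, ⟨.ofNat (nat_lit 0), .ofNat (nat_lit 143475), .ofNat (nat_lit 0), .ofNat (nat_lit 188310), .ofNat (nat_lit 0), .ofNat (nat_lit 146758), .ofNat (nat_lit 0), .ofNat (nat_lit 192306)⟩⟩, [⟨nat_lit 13, nat_lit 54, nat_lit 74, nat_lit 100, nat_lit 304599699⟩, ⟨nat_lit 3, nat_lit 100, nat_lit 68, nat_lit 40, nat_lit 29378228⟩]⟩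
noncomputable def p104_l108 : Lf2 := ⟨nat_lit 0, nat_lit 20, [nat_lit 5, nat_lit 5, nat_lit 5, nat_lit 20], true, nat_lit 0, nat_lit 80, nat_lit 0, nat_lit 260, ⟨nat_lit 0, nat_lit 1000, nat_lit 0, nat_lit 8, nat_lit 275, nat_lit 1000, nat_lit 34, nat_lit 0, nat_lit 0, nat_lit 0, nat_lit 0, nat_lit 0, nat_lit 45513869, nat_lit 21486131, nat_lit 0, nat_lit 3136936, true, true⟩,
 nat_lit 0, nat_lit 0, nat_lit 0, nat_lit 0, nat_lit 2442, nat_lit 0, nat_lit 0, nat_lit 0, nat_lit 0, nat_lit 0, nat_lit 0, nat_lit 0, nat_lit 0, nat_lit 0, nat_lit 0, nat_lit 400000, nat_lit 0, nat_lit 0, [(nat_lit 28, [(nat_lit 1, nat_lit 1000)])],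
 ⟨p104_k31, nat_lit 0, nat_lit 0, nat_lit 179, nat_lit 0, nat_lit 0, [nat_lit 697600000, nat_lit 138000000], [], [nat_lit 26869236944, nat_lit 28106048152, nat_lit 27067846023, nat_lit 28293211444, nat_lit 26398440436, nat_lit 27280238664, nat_lit 26545593545, nat_lit 27420679394], nat_lit 0, nat_lit 0, nat_lit 0, nat_lit 0, nat_lit 0, nat_lit 0, [], [nat_lit 88, nat_lit 40, nat_lit 40, nat_lit 80, nat_lit 89, nat_lit 226, nat_lit 20, nat_lit 7]⟩, C1.Rw.none,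
 ⟨nat_lit 0, nat_lit 2237, ⟨.ofNat (nat_lit 671039), .ofNat (nat_lit 676741), .ofNat (nat_lit 716590), .ofNat (nat_lit 722292), .ofNat (nat_lit 649993), .ofNat (nat_lit 654993), .ofNat (nat_lit 699995), .ofNat (nat_lit 704996)⟩, ⟨.ofNat (nat_lit 0), .ofNat (nat_lit 146756), .ofNat (nat_lit 0), .ofNat (nat_lit 192306), .ofNat (nat_lit 0), .ofNat (nat_lit 149997), .ofNat (nat_lit 0), .ofNat (nat_lit 199999)⟩⟩, [⟨nat_lit 13, nat_lit 44, nat_lit 81, nat_lit 100, nat_lit 564373833⟩, ⟨nat_lit 3, nat_lit 100, nat_lit 44, nat_lit 64, nat_lit 49386519⟩]⟩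
noncomputable def p104_l109 : Lf2 := ⟨nat_lit 0, nat_lit 20, [nat_lit 5, nat_lit 5, nat_lit 5, nat_lit 20], true, nat_lit 80, nat_lit 200, nat_lit 0, nat_lit 360, ⟨nat_lit 0, nat_lit 1000, nat_lit 0, nat_lit 6, nat_lit 254, nat_lit 1000, nat_lit 101, nat_lit 0, nat_lit 0, nat_lit 0, nat_lit 0, nat_lit 0, nat_lit 44174368, nat_lit 18491081, nat_lit 4334551, nat_lit 4275180, true, true⟩,
 nat_lit 0, nat_lit 0, nat_lit 0, nat_lit 0, nat_lit 3885, nat_lit 0, nat_lit 0, nat_lit 0, nat_lit 0, nat_lit 0, nat_lit 0, nat_lit 0, nat_lit 0, nat_lit 0, nat_lit 0, nat_lit 250000, nat_lit 0, nat_lit 0, [(nat_lit 25, [(nat_lit 0, nat_lit 1000)]), (nat_lit 28, [(nat_lit 0, nat_lit 1000)])],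
 ⟨p104_k25, nat_lit 0, nat_lit 0, nat_lit 112, nat_lit 0, nat_lit 0, [nat_lit 781600001, nat_lit 2118000000], [], [nat_lit 23230674840, nat_lit 26053181680, nat_lit 26617000720, nat_lit 29053199660, nat_lit 24486480230, nat_lit 26885024380, nat_lit 27359719310, nat_lit 29395534300], nat_lit 0, nat_lit 0, nat_lit 0, nat_lit 0, nat_lit 0, nat_lit 0, [], [nat_lit 88, nat_lit 40, nat_lit 40, nat_lit 80, nat_lit 89, nat_lit 260, nat_lit 50, nat_lit 8]⟩, C1.Rw.none,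
 ⟨nat_lit 0, nat_lit 3163, ⟨.ofNat (nat_lit 560951), .ofNat (nat_lit 682855), .ofNat (nat_lit 605128), .ofNat (nat_lit 727166), .ofNat (nat_lit 549998), .ofNat (nat_lit 649995), .ofNat (nat_lit 599865), .ofNat (nat_lit 699997)⟩, ⟨.ofNat (nat_lit 139898), .ofNat (nat_lit 322753), .ofNat (nat_lit 184209), .ofNat (nat_lit 367065), .ofNat (nat_lit 149998), .ofNat (nat_lit 299993), .ofNat (nat_lit 199999), .ofNat (nat_lit 349995)⟩⟩, [⟨nat_lit 13, nat_lit 44, nat_lit 86, nat_lit 100, nat_lit 9219748⟩, ⟨nat_lit 4, nat_lit 100, nat_lit 46, nat_lit 75, nat_lit 106715881⟩]⟩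
noncomputable def p104_l110 : Lf2 := ⟨nat_lit 0, nat_lit 20, [nat_lit 5, nat_lit 5, nat_lit 5, nat_lit 20], true, nat_lit 80, nat_lit 200, nat_lit 0, nat_lit 360, ⟨nat_lit 0, nat_lit 1000, nat_lit 0, nat_lit 8, nat_lit 285, nat_lit 1000, nat_lit 101, nat_lit 0, nat_lit 0, nat_lit 0, nat_lit 0, nat_lit 0, nat_lit 41304516, nat_lit 21523443, nat_lit 4172041, nat_lit 4421064, true, true⟩,
 nat_lit 0, nat_lit 0, nat_lit 0, nat_lit 0, nat_lit 3999, nat_lit 0, nat_lit 0, nat_lit 0, nat_lit 0, nat_lit 0, nat_lit 0, nat_lit 0, nat_lit 0, nat_lit 0, nat_lit 0, nat_lit 250000, nat_lit 0, nat_lit 0, [(nat_lit 25, [(nat_lit 0, nat_lit 1000)]), (nat_lit 28, [(nat_lit 0, nat_lit 1000)])],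
 ⟨p104_k25, nat_lit 0, nat_lit 0, nat_lit 117, nat_lit 0, nat_lit 0, [nat_lit 781600001, nat_lit 2118000000], [], [nat_lit 26614842928, nat_lit 29251048484, nat_lit 28261909481, nat_lit 30985438549, nat_lit 27308146394, nat_lit 29530470060, nat_lit 28690681058, nat_lit 31021020345], nat_lit 0, nat_lit 0, nat_lit 0, nat_lit 0, nat_lit 0, nat_lit 0, [], [nat_lit 88, nat_lit 40, nat_lit 40, nat_lit 80, nat_lit 89, nat_lit 260, nat_lit 50, nat_lit 8]⟩, C1.Rw.none,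
 ⟨nat_lit 0, nat_lit 3163, ⟨.ofNat (nat_lit 682855), .ofNat (nat_lit 731616), .ofNat (nat_lit 727166), .ofNat (nat_lit 775928), .ofNat (nat_lit 649995), .ofNat (nat_lit 689994), .ofNat (nat_lit 699997), .ofNat (nat_lit 739996)⟩, ⟨.ofNat (nat_lit 139898), .ofNat (nat_lit 322753), .ofNat (nat_lit 184209), .ofNat (nat_lit 367065), .ofNat (nat_lit 149998), .ofNat (nat_lit 299993), .ofNat (nat_lit 199999), .ofNat (nat_lit 349995)⟩⟩, [⟨nat_lit 13, nat_lit 61, nat_lit 68, nat_lit 100, nat_lit 339023517⟩]⟩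
noncomputable def p104_l111 : Lf2 := ⟨nat_lit 0, nat_lit 20, [nat_lit 5, nat_lit 5, nat_lit 5, nat_lit 20], true, nat_lit 0, nat_lit 200, nat_lit 0, nat_lit 360, ⟨nat_lit 0, nat_lit 1000, nat_lit 0, nat_lit 5, nat_lit 217, nat_lit 1000, nat_lit 67, nat_lit 0, nat_lit 0, nat_lit 0, nat_lit 0, nat_lit 0, nat_lit 0, nat_lit 0, nat_lit 0, nat_lit 5000000, false, true⟩,
 nat_lit 0, nat_lit 0, nat_lit 0, nat_lit 0, nat_lit 3624, nat_lit 0, nat_lit 0, nat_lit 0, nat_lit 0, nat_lit 0, nat_lit 0, nat_lit 0, nat_lit 0, nat_lit 0, nat_lit 0, nat_lit 340600, nat_lit 0, nat_lit 0, [(nat_lit 25, [(nat_lit 0, nat_lit 396), (nat_lit 1, nat_lit 604)]), (nat_lit 28, [(nat_lit 0, nat_lit 396), (nat_lit 1, nat_lit 604)])],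
 ⟨p104_k25, nat_lit 0, nat_lit 0, nat_lit 203, nat_lit 0, nat_lit 0, [nat_lit 908295040, nat_lit 1391508800], [], [nat_lit 22690251968, nat_lit 26046094848, nat_lit 30427314663, nat_lit 33133970516, nat_lit 22777374992, nat_lit 25123459968, nat_lit 28293468337, nat_lit 30523449645], nat_lit 0, nat_lit 0, nat_lit 0, nat_lit 0, nat_lit 0, nat_lit 0, [], [nat_lit 88, nat_lit 40, nat_lit 40, nat_lit 80, nat_lit 89, nat_lit 373, nat_lit 150, nat_lit 14]⟩, C1.Rw.none,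
 ⟨nat_lit 0, nat_lit 3163, ⟨.ofNat (nat_lit 309443), .ofNat (nat_lit 731616), .ofNat (nat_lit 351143), .ofNat (nat_lit 775928), .ofNat (nat_lit 342303), .ofNat (nat_lit 689994), .ofNat (nat_lit 389693), .ofNat (nat_lit 739996)⟩, ⟨.ofNat (nat_lit 0), .ofNat (nat_lit 322753), .ofNat (nat_lit 0), .ofNat (nat_lit 367065), .ofNat (nat_lit 0), .ofNat (nat_lit 299993), .ofNat (nat_lit 0), .ofNat (nat_lit 349995)⟩⟩, [⟨nat_lit 13, nat_lit 61, nat_lit 68, nat_lit 100, nat_lit 244410516⟩]⟩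
noncomputable def b_V_900_500_10_3 : St := ⟨true, nat_lit 0, nat_lit 2, nat_lit 0, nat_lit 80, nat_lit 360, nat_lit 400, nat_lit 200, nat_lit 240, nat_lit 80, nat_lit 352, nat_lit 40, nat_lit 80, nat_lit 0, nat_lit 200, nat_lit 0, nat_lit 360, nat_lit 40, nat_lit 80, nat_lit 0, nat_lit 0, nat_lit 0, nat_lit 0⟩
theorem d_V_900_500_10_3 (h : EB TB.env) : Dead b_V_900_500_10_3 := chkB_sound0 h (T :=
(.gv
(.st (nat_lit 1)
(.spl (nat_lit 2) (nat_lit 240)
(.leaf p104_l97)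
(.leaf p104_l98))
(.spl (nat_lit 2) (nat_lit 240)
(.leaf p104_l99)
(.spl (nat_lit 4) (nat_lit 80)
(.trX (nat_lit 22) (nat_lit 100) (nat_lit 76) (nat_lit 82) (nat_lit 336) (.spl (nat_lit 2) (nat_lit 320)
(.spl (nat_lit 2) (nat_lit 280)
(.leaf p104_l100)
(.trX (nat_lit 22) (nat_lit 100) (nat_lit 95) (nat_lit 87) (nat_lit 300) (.spl (nat_lit 0) (nat_lit 380)
(.spl (nat_lit 0) (nat_lit 370)
(.spl (nat_lit 0) (nat_lit 365)
(.leaf p104_l101)
(.leaf p104_l102))
(.leaf p104_l103))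
(.leaf p104_l104))))
(.trX (nat_lit 22) (nat_lit 83) (nat_lit 100) (nat_lit 83) (nat_lit 260) (.spl (nat_lit 0) (nat_lit 380)
(.spl (nat_lit 1) (nat_lit 220)
(.trX (nat_lit 13) (nat_lit 60) (nat_lit 74) (nat_lit 100) (nat_lit 336) (.leaf p104_l105))
(.spl (nat_lit 0) (nat_lit 370)
(.leaf p104_l106)
(.trX (nat_lit 13) (nat_lit 54) (nat_lit 74) (nat_lit 100) (nat_lit 340) (.leaf p104_l107))))
(.trX (nat_lit 13) (nat_lit 44) (nat_lit 81) (nat_lit 100) (nat_lit 324) (.leaf p104_l108))))))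
(.spl (nat_lit 2) (nat_lit 320)
(.leaf p104_l109)
(.leaf p104_l110)))))
(.leaf p104_l111))) (by decide +kernel)
noncomputable def p104_l112 : Lf2 := ⟨nat_lit 0, nat_lit 20, [nat_lit 5, nat_lit 5, nat_lit 5, nat_lit 20], false, nat_lit 0, nat_lit 80, nat_lit 0, nat_lit 360, ⟨nat_lit 152, nat_lit 0, nat_lit 848, nat_lit 5, nat_lit 185, nat_lit 526, nat_lit 33, nat_lit 848, nat_lit 10417, nat_lit 240, nat_lit 417, nat_lit 210, nat_lit 55204516, nat_lit 0, nat_lit 0, nat_lit 2326767, false, false⟩,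
 nat_lit 0, nat_lit 3068, nat_lit 0, nat_lit 0, nat_lit 2672, nat_lit 1928, nat_lit 47, nat_lit 0, nat_lit 0, nat_lit 195, nat_lit 0, nat_lit 0, nat_lit 0, nat_lit 0, nat_lit 34, nat_lit 218150, nat_lit 0, nat_lit 0, [(nat_lit 25, [(nat_lit 4, nat_lit 807), (nat_lit 5, nat_lit 41)])],
 ⟨p104_k27, nat_lit 0, nat_lit 0, nat_lit 402, nat_lit 0, nat_lit 601732, [nat_lit 895854401, nat_lit 585536267, nat_lit 32357333], [], [nat_lit 19597437222, nat_lit 20183015720, nat_lit 22948772074, nat_lit 23554830762, nat_lit 19493949506, nat_lit 20046930506, nat_lit 22825884340, nat_lit 23376723282], nat_lit 1271250, nat_lit 1271250, nat_lit 490000, nat_lit 1740000, nat_lit 0, nat_lit 490000, [nat_lit 230000, nat_lit 780000, nat_lit 1435000], [nat_lit 20, nat_lit 40, nat_lit 40, nat_lit 80, nat_lit 16, nat_lit 317, nat_lit 100, nat_lit 12]⟩, ⟨p104_k28, nat_lit 0, nat_lit 0, nat_lit 381, nat_lit 0, nat_lit 0, [nat_lit 950000000,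 nat_lit 1495984000, nat_lit 2136816000], [], [nat_lit 5591285860, nat_lit 5670666852, nat_lit 5051630146, nat_lit 5147624674, nat_lit 4972359250, nat_lit 5051065778, nat_lit 4429302208, nat_lit 4524848944], nat_lit 0, nat_lit 0, nat_lit 0, nat_lit 0, nat_lit 0, nat_lit 0, [], [nat_lit 60, nat_lit 40, nat_lit 40, nat_lit 80, nat_lit 32, nat_lit 456, nat_lit 225, nat_lit 11]⟩,
 ⟨nat_lit 2738, nat_lit 3163, ⟨.ofNat (nat_lit 317085), .ofNat (nat_lit 560952), .ofNat (nat_lit 361370), .ofNat (nat_lit 605257), .ofNat (nat_lit 322761), .ofNat (nat_lit 559060), .ofNat (nat_lit 367571), .ofNat (nat_lit 603890)⟩, ⟨.ofNat (nat_lit 0), .ofNat (nat_lit 139899), .ofNat (nat_lit 0), .ofNat (nat_lit 184209), .ofNat (nat_lit 0), .ofNat (nat_lit 143475), .ofNat (nat_lit 0), .ofNat (nat_lit 188310)⟩⟩, [⟨nat_lit 19, nat_lit 100, nat_lit 77, nat_lit 72, nat_lit 29206711⟩]⟩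
noncomputable def p104_l113 : Lf2 := ⟨nat_lit 0, nat_lit 20, [nat_lit 5, nat_lit 5, nat_lit 5, nat_lit 20], false, nat_lit 0, nat_lit 80, nat_lit 0, nat_lit 360, ⟨nat_lit 158, nat_lit 0, nat_lit 842, nat_lit 5, nat_lit 189, nat_lit 465, nat_lit 33, nat_lit 842, nat_lit 10417, nat_lit 240, nat_lit 2967, nat_lit 211, nat_lit 54763068, nat_lit 0, nat_lit 0, nat_lit 2376870, false, false⟩,
 nat_lit 0, nat_lit 3002, nat_lit 0, nat_lit 0, nat_lit 2709, nat_lit 2008, nat_lit 28, nat_lit 0, nat_lit 0, nat_lit 205, nat_lit 0, nat_lit 0, nat_lit 0, nat_lit 0, nat_lit 29, nat_lit 210500, nat_lit 0, nat_lit 0, [(nat_lit 25, [(nat_lit 4, nat_lit 842)])],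
 ⟨p104_k30, nat_lit 0, nat_lit 0, nat_lit 405, nat_lit 0, nat_lit 616580, [nat_lit 877180000, nat_lit 561864267, nat_lit 27476533], [], [nat_lit 20415604467, nat_lit 20762288782, nat_lit 23483903351, nat_lit 23773788262, nat_lit 20245430149, nat_lit 20543425166, nat_lit 23269948534, nat_lit 23555419413], nat_lit 1271250, nat_lit 1271250, nat_lit 573850, nat_lit 1746750, nat_lit 0, nat_lit 490000, [nat_lit 230000, nat_lit 780000, nat_lit 1435000], [nat_lit 20, nat_lit 40, nat_lit 40, nat_lit 80, nat_lit 16, nat_lit 317, nat_lit 100, nat_lit 12]⟩, ⟨p104_k28, nat_lit 0, nat_lit 0, nat_lit 373, nat_lit 0, nat_lit 0, [nat_lit 987500000, nat_lit 1555036000, nat_lit 2221164000], [], [nat_lit 5665038981, nat_lit 5744733704, nat_lit 5231141246, nat_lit 5330840142, nat_lit 5038928083, nat_lit 5117931625, nat_lit 4601822468, nat_lit 4704406668], nat_lit 0, nat_lit 0, nat_lit 0, nat_lit 0, nat_lit 0, nat_lit 0, [], [nat_lit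 60, nat_lit 40, nat_lit 40, nat_lit 80, nat_lit 32, nat_lit 456, nat_lit 225, nat_lit 11]⟩,
 ⟨nat_lit 2500, nat_lit 2739, ⟨.ofNat (nat_lit 340514), .ofNat (nat_lit 559060), .ofNat (nat_lit 385341), .ofNat (nat_lit 603894), .ofNat (nat_lit 343206), .ofNat (nat_lit 558063), .ofNat (nat_lit 388358), .ofNat (nat_lit 603223)⟩, ⟨.ofNat (nat_lit 0), .ofNat (nat_lit 143475), .ofNat (nat_lit 0), .ofNat (nat_lit 188310), .ofNat (nat_lit 0), .ofNat (nat_lit 145160), .ofNat (nat_lit 0), .ofNat (nat_lit 190321)⟩⟩, [⟨nat_lit 7, nat_lit 77, nat_lit 100, nat_lit 72, nat_lit 30689992⟩]⟩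
noncomputable def p104_l114 : Lf2 := ⟨nat_lit 0, nat_lit 20, [nat_lit 5, nat_lit 5, nat_lit 5, nat_lit 20], false, nat_lit 0, nat_lit 80, nat_lit 0, nat_lit 360, ⟨nat_lit 180, nat_lit 0, nat_lit 820, nat_lit 5, nat_lit 192, nat_lit 820, nat_lit 34, nat_lit 820, nat_lit 10417, nat_lit 240, nat_lit 1551, nat_lit 211, nat_lit 54474854, nat_lit 0, nat_lit 0, nat_lit 2408793, false, false⟩,
 nat_lit 0, nat_lit 3044, nat_lit 0, nat_lit 0, nat_lit 2795, nat_lit 2286, nat_lit 34, nat_lit 0, nat_lit 0, nat_lit 210, nat_lit 0, nat_lit 0, nat_lit 0, nat_lit 0, nat_lit 21, nat_lit 205000, nat_lit 0, nat_lit 0, [(nat_lit 25, [(nat_lit 4, nat_lit 820)])],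
 ⟨p104_k33, nat_lit 0, nat_lit 0, nat_lit 412, nat_lit 0, nat_lit 644380, [nat_lit 849800000, nat_lit 546029334, nat_lit 41138666], [], [nat_lit 21124794403, nat_lit 21458689490, nat_lit 24014130491, nat_lit 24297291590, nat_lit 20952245713, nat_lit 21243072861, nat_lit 23793467385, nat_lit 24074597700], nat_lit 1271250, nat_lit 1271250, nat_lit 631250, nat_lit 1751250, nat_lit 0, nat_lit 490000, [nat_lit 230000, nat_lit 780000, nat_lit 1435000], [nat_lit 20, nat_lit 40, nat_lit 40, nat_lit 80, nat_lit 16, nat_lit 317, nat_lit 100, nat_lit 12]⟩, ⟨p104_k28, nat_lit 0, nat_lit 0, nat_lit 368, nat_lit 0, nat_lit 0, [nat_lit 1125000000, nat_lit 1771560000, nat_lit 2530440000], [], [nat_lit 6726322536, nat_lit 6815119092, nat_lit 6232688160, nat_lit 6253202676, nat_lit 5833667028, nat_lit 5921685210, nat_lit 5336650956, nat_lit 5358498840], nat_lit 0, nat_lit 0, nat_lit 0, nat_lit 0, nat_lit 0, nat_lit 0, [], [nat_lit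 60, nat_lit 40, nat_lit 40, nat_lit 80, nat_lit 32, nat_lit 456, nat_lit 225, nat_lit 11]⟩,
 ⟨nat_lit 2236, nat_lit 2500, ⟨.ofNat (nat_lit 354812), .ofNat (nat_lit 558063), .ofNat (nat_lit 399962), .ofNat (nat_lit 603223), .ofNat (nat_lit 357434), .ofNat (nat_lit 557014), .ofNat (nat_lit 402972), .ofNat (nat_lit 602562)⟩, ⟨.ofNat (nat_lit 0), .ofNat (nat_lit 145160), .ofNat (nat_lit 0), .ofNat (nat_lit 190321), .ofNat (nat_lit 0), .ofNat (nat_lit 146758), .ofNat (nat_lit 0), .ofNat (nat_lit 192306)⟩⟩, [⟨nat_lit 0, nat_lit 100, nat_lit 44, nat_lit 99, nat_lit 30620921⟩, ⟨nat_lit 3, nat_lit 100, nat_lit 81, nat_lit 23, nat_lit 39396673⟩, ⟨nat_lit 19, nat_lit 100, nat_lit 77, nat_lit 72, nat_lit 31485618⟩]⟩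
noncomputable def p104_l115 : Lf2 := ⟨nat_lit 0, nat_lit 20, [nat_lit 5, nat_lit 5, nat_lit 5, nat_lit 20], false, nat_lit 80, nat_lit 200, nat_lit 0, nat_lit 360, ⟨nat_lit 156, nat_lit 0, nat_lit 844, nat_lit 5, nat_lit 185, nat_lit 844, nat_lit 102, nat_lit 844, nat_lit 96267, nat_lit 291, nat_lit 417, nat_lit 210, nat_lit 50623057, nat_lit 0, nat_lit 0, nat_lit 3728739, false, false⟩,
 nat_lit 0, nat_lit 3331, nat_lit 0, nat_lit 0, nat_lit 2901, nat_lit 1975, nat_lit 52, nat_lit 0, nat_lit 0, nat_lit 218, nat_lit 0, nat_lit 0, nat_lit 0, nat_lit 0, nat_lit 30, nat_lit 211000, nat_lit 0, nat_lit 0, [(nat_lit 25, [(nat_lit 4, nat_lit 844)])],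
 ⟨p104_k27, nat_lit 0, nat_lit 0, nat_lit 329, nat_lit 0, nat_lit 601732, [nat_lit 880760000, nat_lit 566576534, nat_lit 31689066], [], [nat_lit 17990071384, nat_lit 18597803217, nat_lit 21276933880, nat_lit 21900030281, nat_lit 20118770600, nat_lit 20702755834, nat_lit 23320700322, nat_lit 23855262092], nat_lit 1271250, nat_lit 1271250, nat_lit 490000, nat_lit 1740000, nat_lit 490000, nat_lit 1427500, [nat_lit 230000, nat_lit 780000, nat_lit 1435000], [nat_lit 20, nat_lit 40, nat_lit 40, nat_lit 80, nat_lit 16, nat_lit 345, nat_lit 125, nat_lit 13]⟩, ⟨p104_k28, nat_lit 0, nat_lit 0, nat_lit 381, nat_lit 0, nat_lit 0, [nat_lit 975000000, nat_lit 1535352000, nat_lit 2193048000], [], [nat_lit 5465884880, nat_lit 5547473124, nat_lit 5050940540, nat_lit 5149542688, nat_lit 4966518296, nat_lit 5047415590, nat_lit 4548089330, nat_lit 4646232754], nat_lit 0, nat_lit 0, nat_lit 0, nat_lit 0, nat_lit 0, nat_lit 0, [],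 [nat_lit 60, nat_lit 40, nat_lit 40, nat_lit 80, nat_lit 32, nat_lit 456, nat_lit 225, nat_lit 11]⟩,
 ⟨nat_lit 2738, nat_lit 3163, ⟨.ofNat (nat_lit 317085), .ofNat (nat_lit 560952), .ofNat (nat_lit 361370), .ofNat (nat_lit 605257), .ofNat (nat_lit 322761), .ofNat (nat_lit 559060), .ofNat (nat_lit 367571), .ofNat (nat_lit 603890)⟩, ⟨.ofNat (nat_lit 139899), .ofNat (nat_lit 322759), .ofNat (nat_lit 184209), .ofNat (nat_lit 367069), .ofNat (nat_lit 143475), .ofNat (nat_lit 320659), .ofNat (nat_lit 188310), .ofNat (nat_lit 365494)⟩⟩, [⟨nat_lit 4, nat_lit 100, nat_lit 57, nat_lit 73, nat_lit 270121432⟩, ⟨nat_lit 7, nat_lit 77, nat_lit 100, nat_lit 72, nat_lit 32646587⟩]⟩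
noncomputable def p104_l116 : Lf2 := ⟨nat_lit 0, nat_lit 20, [nat_lit 5, nat_lit 5, nat_lit 5, nat_lit 20], false, nat_lit 80, nat_lit 184, nat_lit 0, nat_lit 360, ⟨nat_lit 177, nat_lit 0, nat_lit 823, nat_lit 5, nat_lit 189, nat_lit 823, nat_lit 97, nat_lit 823, nat_lit 88817, nat_lit 288, nat_lit 2958, nat_lit 211, nat_lit 50487715, nat_lit 0, nat_lit 0, nat_lit 3715670, false, false⟩,
 nat_lit 0, nat_lit 3276, nat_lit 0, nat_lit 0, nat_lit 2956, nat_lit 2251, nat_lit 53, nat_lit 0, nat_lit 0, nat_lit 246, nat_lit 0, nat_lit 0, nat_lit 0, nat_lit 0, nat_lit 22, nat_lit 205750, nat_lit 0, nat_lit 0, [(nat_lit 25, [(nat_lit 4, nat_lit 823)])],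
 ⟨p104_k30, nat_lit 0, nat_lit 0, nat_lit 347, nat_lit 0, nat_lit 659339, [nat_lit 853170000, nat_lit 547097734, nat_lit 37457466], [], [nat_lit 19002338925, nat_lit 19669101369, nat_lit 22127742604, nat_lit 22738615720, nat_lit 20671481252, nat_lit 21262074466, nat_lit 23691938666, nat_lit 24228715519], nat_lit 1271250, nat_lit 1271250, nat_lit 573850, nat_lit 1746750, nat_lit 490000, nat_lit 1302500, [nat_lit 230000, nat_lit 780000, nat_lit 1435000], [nat_lit 20, nat_lit 40, nat_lit 40, nat_lit 80, nat_lit 16, nat_lit 345, nat_lit 125, nat_lit 13]⟩, ⟨p104_k28, nat_lit 0, nat_lit 0, nat_lit 373, nat_lit 0, nat_lit 0, [nat_lit 1106250000, nat_lit 1742034000, nat_lit 2488266000], [], [nat_lit 6097764427, nat_lit 6187393128, nat_lit 5734918452, nat_lit 5846898588, nat_lit 5520735493, nat_lit 5609188999, nat_lit 5154293576, nat_lit 5271040482], nat_lit 0, nat_lit 0, nat_lit 0, nat_lit 0, nat_lit 0, nat_lit 0, [],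 [nat_lit 60, nat_lit 40, nat_lit 40, nat_lit 80, nat_lit 32, nat_lit 456, nat_lit 225, nat_lit 11]⟩,
 ⟨nat_lit 2236, nat_lit 2739, ⟨.ofNat (nat_lit 340439), .ofNat (nat_lit 559060), .ofNat (nat_lit 385234), .ofNat (nat_lit 603890), .ofNat (nat_lit 345963), .ofNat (nat_lit 557014), .ofNat (nat_lit 391471), .ofNat (nat_lit 602558)⟩, ⟨.ofNat (nat_lit 143475), .ofNat (nat_lit 297035), .ofNat (nat_lit 188310), .ofNat (nat_lit 341870), .ofNat (nat_lit 146758), .ofNat (nat_lit 294998), .ofNat (nat_lit 192306), .ofNat (nat_lit 340547)⟩⟩, [⟨nat_lit 0, nat_lit 100, nat_lit 44, nat_lit 99, nat_lit 4699877⟩, ⟨nat_lit 16, nat_lit 50, nat_lit 100, nat_lit 74, nat_lit 292345239⟩, ⟨nat_lit 19, nat_lit 100, nat_lit 77, nat_lit 72, nat_lit 36841201⟩]⟩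
noncomputable def p104_l117 : Lf2 := ⟨nat_lit 0, nat_lit 15, [nat_lit 30, nat_lit 5, nat_lit 5, nat_lit 20], false, nat_lit 0, nat_lit 140, nat_lit 0, nat_lit 344, ⟨nat_lit 358, nat_lit 0, nat_lit 642, nat_lit 5, nat_lit 196, nat_lit 642, nat_lit 48, nat_lit 642, nat_lit 21600, nat_lit 251, nat_lit 267, nat_lit 211, nat_lit 54058472, nat_lit 0, nat_lit 0, nat_lit 2453841, false, false⟩,
 nat_lit 0, nat_lit 2948, nat_lit 0, nat_lit 0, nat_lit 2754, nat_lit 5161, nat_lit 0, nat_lit 0, nat_lit 0, nat_lit 485, nat_lit 0, nat_lit 0, nat_lit 0, nat_lit 0, nat_lit 15, nat_lit 256800, nat_lit 0, nat_lit 0, [(nat_lit 28, [(nat_lit 5, nat_lit 642)])],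
 ⟨p104_k34, nat_lit 0, nat_lit 0, nat_lit 409, nat_lit 0, nat_lit 779521, [nat_lit 776895200, nat_lit 218359200, nat_lit 24566000], [], [nat_lit 21654946476, nat_lit 23249161320, nat_lit 24723070060, nat_lit 25849641120, nat_lit 22584836692, nat_lit 23760218656, nat_lit 25374808246, nat_lit 26359815676], nat_lit 1271250, nat_lit 1271250, nat_lit 719601, nat_lit 1758000, nat_lit 0, nat_lit 936251, [nat_lit 230000, nat_lit 780000, nat_lit 1100000], [nat_lit 35, nat_lit 40, nat_lit 40, nat_lit 80, nat_lit 22, nat_lit 317, nat_lit 100, nat_lit 14]⟩, ⟨p104_k35, nat_lit 0, nat_lit 0, nat_lit 276, nat_lit 0, nat_lit 0, [nat_lit 2237500000, nat_lit 3523436000, nat_lit 5032764000], [], [nat_lit 11133955992, nat_lit 12018664269, nat_lit 11690401454, nat_lit 12273698414, nat_lit 10229789896, nat_lit 10433282435, nat_lit 9446628888, nat_lit 10120760936], nat_lit 0, nat_lit 0, nat_lit 0, nat_lit 0, nat_lit 0, nat_lit 0, [],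 [nat_lit 60, nat_lit 40, nat_lit 40, nat_lit 80, nat_lit 32, nat_lit 456, nat_lit 225, nat_lit 11]⟩,
 ⟨nat_lit 0, nat_lit 2237, ⟨.ofNat (nat_lit 370513), .ofNat (nat_lit 557013), .ofNat (nat_lit 414208), .ofNat (nat_lit 602531), .ofNat (nat_lit 385947), .ofNat (nat_lit 549998), .ofNat (nat_lit 434094), .ofNat (nat_lit 599967)⟩, ⟨.ofNat (nat_lit 0), .ofNat (nat_lit 232276), .ofNat (nat_lit 0), .ofNat (nat_lit 255052), .ofNat (nat_lit 0), .ofNat (nat_lit 224994), .ofNat (nat_lit 0), .ofNat (nat_lit 249996)⟩⟩, [⟨nat_lit 0, nat_lit 100, nat_lit 31, nat_lit 98, nat_lit 271462084⟩, ⟨nat_lit 4, nat_lit 100, nat_lit 36, nat_lit 77, nat_lit 194997135⟩, ⟨nat_lit 7, nat_lit 82, nat_lit 100, nat_lit 66, nat_lit 54318115⟩]⟩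
noncomputable def p104_l118 : Lf2 := ⟨nat_lit 0, nat_lit 20, [nat_lit 5, nat_lit 5, nat_lit 5, nat_lit 20], false, nat_lit 8, nat_lit 164, nat_lit 0, nat_lit 360, ⟨nat_lit 269, nat_lit 0, nat_lit 731, nat_lit 5, nat_lit 196, nat_lit 731, nat_lit 64, nat_lit 731, nat_lit 38400, nat_lit 263, nat_lit 267, nat_lit 211, nat_lit 51779369, nat_lit 0, nat_lit 0, nat_lit 3311045, false, false⟩,
 nat_lit 0, nat_lit 2846, nat_lit 0, nat_lit 0, nat_lit 2659, nat_lit 5608, nat_lit 0, nat_lit 0, nat_lit 0, nat_lit 78, nat_lit 0, nat_lit 0, nat_lit 0, nat_lit 0, nat_lit 67, nat_lit 292400, nat_lit 0, nat_lit 0, [(nat_lit 28, [(nat_lit 5, nat_lit 731)])],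
 ⟨p104_k36, nat_lit 0, nat_lit 0, nat_lit 367, nat_lit 0, nat_lit 580790, [nat_lit 954243600, nat_lit 392695601, nat_lit 357778400], [], [nat_lit 20924582833, nat_lit 21858646672, nat_lit 23778370779, nat_lit 24539748976, nat_lit 21610153589, nat_lit 22133956912, nat_lit 24357841223, nat_lit 24871427459], nat_lit 1271250, nat_lit 1271250, nat_lit 719601, nat_lit 1758000, nat_lit 43600, nat_lit 1133651, [nat_lit 230000, nat_lit 780000, nat_lit 1435000], [nat_lit 20, nat_lit 40, nat_lit 40, nat_lit 80, nat_lit 16, nat_lit 345, nat_lit 125, nat_lit 13]⟩, ⟨p104_k28, nat_lit 0, nat_lit 0, nat_lit 276, nat_lit 0, nat_lit 0, [nat_lit 1681250000, nat_lit 2647498000, nat_lit 3781602000], [], [nat_lit 11685154409, nat_lit 12506358552, nat_lit 11897141552, nat_lit 12403122012, nat_lit 10350495490, nat_lit 10401765673, nat_lit 8995588300, nat_lit 9315897714], nat_lit 0, nat_lit 0, nat_lit 0, nat_lit 0, nat_lit 0, nat_lit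 0, [], [nat_lit 60, nat_lit 40, nat_lit 40, nat_lit 80, nat_lit 32, nat_lit 456, nat_lit 225, nat_lit 11]⟩,
 ⟨nat_lit 1581, nat_lit 2237, ⟨.ofNat (nat_lit 374377), .ofNat (nat_lit 557014), .ofNat (nat_lit 419835), .ofNat (nat_lit 602558), .ofNat (nat_lit 379613), .ofNat (nat_lit 554634), .ofNat (nat_lit 426152), .ofNat (nat_lit 601260)⟩, ⟨.ofNat (nat_lit 20000), .ofNat (nat_lit 289265), .ofNat (nat_lit 20000), .ofNat (nat_lit 312039), .ofNat (nat_lit 20000), .ofNat (nat_lit 287621), .ofNat (nat_lit 20000), .ofNat (nat_lit 310936)⟩⟩, [⟨nat_lit 0, nat_lit 99, nat_lit 31, nat_lit 100, nat_lit 214936938⟩, ⟨nat_lit 4, nat_lit 100, nat_lit 40, nat_lit 80, nat_lit 70566609⟩, ⟨nat_lit 7, nat_lit 73, nat_lit 100, nat_lit 76, nat_lit 12649837⟩]⟩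
noncomputable def p104_l119 : Lf2 := ⟨nat_lit 0, nat_lit 20, [nat_lit 5, nat_lit 5, nat_lit 5, nat_lit 20], false, nat_lit 20, nat_lit 136, nat_lit 0, nat_lit 360, ⟨nat_lit 313, nat_lit 116, nat_lit 571, nat_lit 5, nat_lit 203, nat_lit 687, nat_lit 62, nat_lit 571, nat_lit 35267, nat_lit 261, nat_lit 3415, nat_lit 212, nat_lit 51176131, nat_lit 13636464, nat_lit 2187405, nat_lit 3353084, false, false⟩,
 nat_lit 0, nat_lit 2827, nat_lit 0, nat_lit 0, nat_lit 2733, nat_lit 6785, nat_lit 0, nat_lit 0, nat_lit 0, nat_lit 88, nat_lit 0, nat_lit 0, nat_lit 0, nat_lit 0, nat_lit 5, nat_lit 257400, nat_lit 0, nat_lit 0, [(nat_lit 28, [(nat_lit 0, nat_lit 116), (nat_lit 5, nat_lit 571)])],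
 ⟨p104_k37, nat_lit 0, nat_lit 0, nat_lit 335, nat_lit 0, nat_lit 633983, [nat_lit 743205200, nat_lit 197703600, nat_lit 20962600], [], [nat_lit 21943158781, nat_lit 22854494545, nat_lit 24548567269, nat_lit 25209139354, nat_lit 22634204513, nat_lit 23239790891, nat_lit 25048110694, nat_lit 25570555771], nat_lit 1271250, nat_lit 1271250, nat_lit 904401, nat_lit 1771500, nat_lit 111251, nat_lit 904401, [nat_lit 230000, nat_lit 780000, nat_lit 1100000], [nat_lit 35, nat_lit 40, nat_lit 40, nat_lit 80, nat_lit 22, nat_lit 317, nat_lit 100, nat_lit 14]⟩, ⟨p104_k28, nat_lit 0, nat_lit 0, nat_lit 263, nat_lit 0, nat_lit 0, [nat_lit 1956250000, nat_lit 3080546000, nat_lit 4400154000], [], [nat_lit 13340434562, nat_lit 14271071496, nat_lit 14004387476, nat_lit 14603292328, nat_lit 11428270389, nat_lit 11455308544, nat_lit 10396304664, nat_lit 10994670018], nat_lit 0, nat_lit 0, nat_lit 0, nat_lit 0, nat_lit 0, nat_lit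 0, [], [nat_lit 60, nat_lit 40, nat_lit 40, nat_lit 80, nat_lit 32, nat_lit 456, nat_lit 225, nat_lit 11]⟩,
 ⟨nat_lit 0, nat_lit 1582, ⟨.ofNat (nat_lit 410485), .ofNat (nat_lit 554633), .ofNat (nat_lit 455801), .ofNat (nat_lit 601257), .ofNat (nat_lit 417902), .ofNat (nat_lit 549998), .ofNat (nat_lit 466588), .ofNat (nat_lit 599992)⟩, ⟨.ofNat (nat_lit 50000), .ofNat (nat_lit 249373), .ofNat (nat_lit 50000), .ofNat (nat_lit 272689), .ofNat (nat_lit 50000), .ofNat (nat_lit 244996), .ofNat (nat_lit 50000), .ofNat (nat_lit 269997)⟩⟩, [⟨nat_lit 0, nat_lit 100, nat_lit 22, nat_lit 100, nat_lit 278050955⟩, ⟨nat_lit 16, nat_lit 25, nat_lit 100, nat_lit 86, nat_lit 170604292⟩, ⟨nat_lit 7, nat_lit 73, nat_lit 100, nat_lit 76, nat_lit 14407584⟩]⟩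
noncomputable def p104_l120 : Lf2 := ⟨nat_lit 0, nat_lit 20, [nat_lit 5, nat_lit 5, nat_lit 5, nat_lit 20], false, nat_lit 0, nat_lit 200, nat_lit 0, nat_lit 160, ⟨nat_lit 938, nat_lit 0, nat_lit 62, nat_lit 6, nat_lit 263, nat_lit 62, nat_lit 67, nat_lit 62, nat_lit 41667, nat_lit 265, nat_lit 280606, nat_lit 200, nat_lit 46812733, nat_lit 0, nat_lit 0, nat_lit 3059818, true, true⟩,
 nat_lit 0, nat_lit 5621, nat_lit 0, nat_lit 0, nat_lit 4895, nat_lit 7432, nat_lit 351, nat_lit 0, nat_lit 0, nat_lit 463, nat_lit 0, nat_lit 0, nat_lit 0, nat_lit 0, nat_lit 0, nat_lit 62000, nat_lit 0, nat_lit 0, [(nat_lit 25, [(nat_lit 6, nat_lit 62)]), (nat_lit 28, [(nat_lit 6, nat_lit 62)])],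
 ⟨p104_k27, nat_lit 0, nat_lit 0, nat_lit 463, nat_lit 0, nat_lit 873197, [nat_lit 963296000, nat_lit 2948894667, nat_lit 5374436000], [], [nat_lit 29892163078, nat_lit 31637838898, nat_lit 33771363452, nat_lit 36930428197, nat_lit 28856614500, nat_lit 30302284322, nat_lit 31590433406, nat_lit 32986621805], nat_lit 1271250, nat_lit 1271250, nat_lit 1271250, nat_lit 1271250, nat_lit 0, nat_lit 1412500, [nat_lit 230000, nat_lit 780000, nat_lit 1435000], [nat_lit 20, nat_lit 40, nat_lit 40, nat_lit 80, nat_lit 16, nat_lit 260, nat_lit 50, nat_lit 9]⟩, ⟨p104_k28, nat_lit 0, nat_lit 0, nat_lit 282, nat_lit 0, nat_lit 0, [nat_lit 5862500000, nat_lit 9231796000, nat_lit 13186404000], [], [nat_lit 33797934930, nat_lit 34777576738, nat_lit 40195032423, nat_lit 40858727516, nat_lit 28571655058, nat_lit 29368458826, nat_lit 33126292895, nat_lit 33697130620], nat_lit 0, nat_lit 0, nat_lit 0, nat_lit 0, nat_lit 0, nat_lit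 0, [], [nat_lit 60, nat_lit 40, nat_lit 40, nat_lit 80, nat_lit 32, nat_lit 428, nat_lit 200, nat_lit 10]⟩,
 ⟨nat_lit 0, nat_lit 3163, ⟨.ofNat (nat_lit 560951), .ofNat (nat_lit 731616), .ofNat (nat_lit 605128), .ofNat (nat_lit 775928), .ofNat (nat_lit 549998), .ofNat (nat_lit 689994), .ofNat (nat_lit 599865), .ofNat (nat_lit 739996)⟩, ⟨.ofNat (nat_lit 0), .ofNat (nat_lit 322753), .ofNat (nat_lit 0), .ofNat (nat_lit 367065), .ofNat (nat_lit 0), .ofNat (nat_lit 299993), .ofNat (nat_lit 0), .ofNat (nat_lit 349995)⟩⟩, [⟨nat_lit 13, nat_lit 44, nat_lit 86, nat_lit 100, nat_lit 253236415⟩, ⟨nat_lit 4, nat_lit 100, nat_lit 46, nat_lit 75, nat_lit 324767822⟩]⟩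
noncomputable def p104_l121 : Lf2 := ⟨nat_lit 0, nat_lit 20, [nat_lit 5, nat_lit 5, nat_lit 5, nat_lit 20], false, nat_lit 0, nat_lit 200, nat_lit 160, nat_lit 360, ⟨nat_lit 924, nat_lit 0, nat_lit 76, nat_lit 6, nat_lit 263, nat_lit 76, nat_lit 67, nat_lit 76, nat_lit 41667, nat_lit 265, nat_lit 280606, nat_lit 200, nat_lit 46812733, nat_lit 0, nat_lit 0, nat_lit 3059818, true, true⟩,
 nat_lit 0, nat_lit 5644, nat_lit 0, nat_lit 0, nat_lit 4915, nat_lit 7557, nat_lit 335, nat_lit 0, nat_lit 0, nat_lit 0, nat_lit 0, nat_lit 0, nat_lit 0, nat_lit 0, nat_lit 0, nat_lit 76000, nat_lit 0, nat_lit 0, [(nat_lit 25, [(nat_lit 6, nat_lit 76)]), (nat_lit 28, [(nat_lit 6, nat_lit 76)])],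
 ⟨p104_k27, nat_lit 0, nat_lit 0, nat_lit 463, nat_lit 0, nat_lit 873197, [nat_lit 969008001, nat_lit 2873677334, nat_lit 5176728000], [], [nat_lit 29372795906, nat_lit 31121610046, nat_lit 33823984204, nat_lit 36990167893, nat_lit 28318087878, nat_lit 29764540647, nat_lit 31052927312, nat_lit 32451185959], nat_lit 1271250, nat_lit 1271250, nat_lit 1271250, nat_lit 1271250, nat_lit 0, nat_lit 1412500, [nat_lit 230000, nat_lit 780000, nat_lit 1435000], [nat_lit 20, nat_lit 40, nat_lit 40, nat_lit 80, nat_lit 16, nat_lit 260, nat_lit 50, nat_lit 9]⟩, ⟨p104_k28, nat_lit 0, nat_lit 0, nat_lit 103, nat_lit 0, nat_lit 0, [nat_lit 5775000000, nat_lit 9094008000, nat_lit 12989592000], [], [nat_lit 11829386316, nat_lit 14008619460, nat_lit 21140700768, nat_lit 22455769275, nat_lit 23739284580, nat_lit 25013816784, nat_lit 30464083439, nat_lit 31107701804], nat_lit 0, nat_lit 0, nat_lit 0, nat_lit 0, nat_lit 0, nat_lit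 0, [], [nat_lit 60, nat_lit 40, nat_lit 40, nat_lit 80, nat_lit 32, nat_lit 483, nat_lit 250, nat_lit 11]⟩,
 ⟨nat_lit 0, nat_lit 3163, ⟨.ofNat (nat_lit 560951), .ofNat (nat_lit 731616), .ofNat (nat_lit 605128), .ofNat (nat_lit 775928), .ofNat (nat_lit 549998), .ofNat (nat_lit 689994), .ofNat (nat_lit 599865), .ofNat (nat_lit 739996)⟩, ⟨.ofNat (nat_lit 0), .ofNat (nat_lit 322753), .ofNat (nat_lit 0), .ofNat (nat_lit 367065), .ofNat (nat_lit 0), .ofNat (nat_lit 299993), .ofNat (nat_lit 0), .ofNat (nat_lit 349995)⟩⟩, [⟨nat_lit 13, nat_lit 44, nat_lit 86, nat_lit 100, nat_lit 354537539⟩, ⟨nat_lit 16, nat_lit 46, nat_lit 100, nat_lit 75, nat_lit 310671448⟩, ⟨nat_lit 19, nat_lit 100, nat_lit 60, nat_lit 80, nat_lit 548373327⟩]⟩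
noncomputable def b_V_900_500_10_4 : St := ⟨true, nat_lit 1, nat_lit 0, nat_lit 1, nat_lit 80, nat_lit 360, nat_lit 400, nat_lit 200, nat_lit 240, nat_lit 80, nat_lit 352, nat_lit 40, nat_lit 80, nat_lit 0, nat_lit 200, nat_lit 0, nat_lit 360, nat_lit 40, nat_lit 80, nat_lit 0, nat_lit 0, nat_lit 0, nat_lit 0⟩
theorem d_V_900_500_10_4 (h : EB TB.env) : Dead b_V_900_500_10_4 := chkB_sound0 h (T :=
(.spl (nat_lit 2) (nat_lit 240)
(.spl (nat_lit 0) (nat_lit 380)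
(.spl (nat_lit 4) (nat_lit 80)
(.spl (nat_lit 0) (nat_lit 370)
(.leaf p104_l112)
(.trZ (nat_lit 0) (nat_lit 100) (nat_lit 53) (nat_lit 85) (nat_lit 92) (.spl (nat_lit 0) (nat_lit 375)
(.leaf p104_l113)
(.trZ (nat_lit 0) (nat_lit 100) (nat_lit 48) (nat_lit 88) (nat_lit 100) (.leaf p104_l114)))))
(.spl (nat_lit 0) (nat_lit 370)
(.leaf p104_l115)
(.trZ (nat_lit 0) (nat_lit 100) (nat_lit 53) (nat_lit 85) (nat_lit 92) (.trX (nat_lit 16) (nat_lit 53) (nat_lit 100) (nat_lit 80) (nat_lit 184) (.leaf p104_l116)))))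
(.trZ (nat_lit 0) (nat_lit 100) (nat_lit 44) (nat_lit 90) (nat_lit 112) (.trX (nat_lit 16) (nat_lit 44) (nat_lit 100) (nat_lit 82) (nat_lit 164) (.spl (nat_lit 3) (nat_lit 60)
(.trX (nat_lit 16) (nat_lit 46) (nat_lit 100) (nat_lit 75) (nat_lit 140) (.trX (nat_lit 19) (nat_lit 100) (nat_lit 70) (nat_lit 71) (nat_lit 344) (.leaf p104_l117)))
(.trZ (nat_lit 3) (nat_lit 100) (nat_lit 61) (nat_lit 47) (nat_lit 8) (.spl (nat_lit 0) (nat_lit 390)
(.leaf p104_l118)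
(.trZ (nat_lit 0) (nat_lit 100) (nat_lit 31) (nat_lit 95) (nat_lit 136) (.trZ (nat_lit 3) (nat_lit 100) (nat_lit 44) (nat_lit 64) (nat_lit 20) (.trX (nat_lit 16) (nat_lit 33) (nat_lit 100) (nat_lit 84) (nat_lit 136) (.leaf p104_l119))))))))))
(.spl (nat_lit 5) (nat_lit 160)
(.leaf p104_l120)
(.leaf p104_l121)))) (by decide +kernel)
noncomputable def p104_l122 : Lf2 := ⟨nat_lit 0, nat_lit 20, [nat_lit 5, nat_lit 5, nat_lit 5, nat_lit 20], false, nat_lit 0, nat_lit 80, nat_lit 0, nat_lit 360, ⟨nat_lit 0, nat_lit 249, nat_lit 751, nat_lit 5, nat_lit 185, nat_lit 1000, nat_lit 33, nat_lit 751, nat_lit 10417, nat_lit 240, nat_lit 417, nat_lit 210, nat_lit 55160648, nat_lit 11839352, nat_lit 0, nat_lit 2331813, false, false⟩,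
 nat_lit 0, nat_lit 2965, nat_lit 0, nat_lit 0, nat_lit 2581, nat_lit 0, nat_lit 0, nat_lit 0, nat_lit 0, nat_lit 0, nat_lit 0, nat_lit 0, nat_lit 0, nat_lit 0, nat_lit 44, nat_lit 250000, nat_lit 0, nat_lit 0, [(nat_lit 25, [(nat_lit 0, nat_lit 249), (nat_lit 4, nat_lit 751)])],
 ⟨p104_k27, nat_lit 0, nat_lit 0, nat_lit 335, nat_lit 0, nat_lit 446723, [nat_lit 912964000, nat_lit 597069334, nat_lit 41937866], [], [nat_lit 19347953958, nat_lit 20910224894, nat_lit 22712134826, nat_lit 23772722682, nat_lit 19220435448, nat_lit 20434800722, nat_lit 22485553838, nat_lit 23540247970], nat_lit 1271250, nat_lit 1271250, nat_lit 490000, nat_lit 1740000, nat_lit 0, nat_lit 490000, [nat_lit 230000, nat_lit 780000, nat_lit 1435000], [nat_lit 20, nat_lit 40, nat_lit 40, nat_lit 80, nat_lit 16, nat_lit 317, nat_lit 100, nat_lit 12]⟩, ⟨p104_k28, nat_lit 0, nat_lit 0, nat_lit 933, nat_lit 0, nat_lit 1104493, [nat_lit 0, nat_lit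 0, nat_lit 0], [], [nat_lit 0, nat_lit 0, nat_lit 0, nat_lit 0, nat_lit 0, nat_lit 0, nat_lit 0, nat_lit 0], nat_lit 1271250, nat_lit 1271250, nat_lit 490000, nat_lit 1740000, nat_lit 0, nat_lit 2542500, [nat_lit 1412500, nat_lit 1271250, nat_lit 1271250], [nat_lit 60, nat_lit 40, nat_lit 40, nat_lit 80, nat_lit 32, nat_lit 456, nat_lit 225, nat_lit 11]⟩,
 ⟨nat_lit 2236, nat_lit 3163, ⟨.ofNat (nat_lit 316827), .ofNat (nat_lit 560952), .ofNat (nat_lit 361011), .ofNat (nat_lit 605240), .ofNat (nat_lit 328641), .ofNat (nat_lit 557014), .ofNat (nat_lit 374063), .ofNat (nat_lit 602541)⟩, ⟨.ofNat (nat_lit 0), .ofNat (nat_lit 139899), .ofNat (nat_lit 0), .ofNat (nat_lit 184209), .ofNat (nat_lit 0), .ofNat (nat_lit 146758), .ofNat (nat_lit 0), .ofNat (nat_lit 192306)⟩⟩, [⟨nat_lit 3, nat_lit 100, nat_lit 74, nat_lit 33, nat_lit 43844911⟩, ⟨nat_lit 3, nat_lit 100, nat_lit 54, nat_lit 57, nat_lit 22127046⟩]⟩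
noncomputable def p104_l123 : Lf2 := ⟨nat_lit 0, nat_lit 20, [nat_lit 5, nat_lit 5, nat_lit 5, nat_lit 20], false, nat_lit 0, nat_lit 80, nat_lit 0, nat_lit 360, ⟨nat_lit 0, nat_lit 532, nat_lit 468, nat_lit 5, nat_lit 196, nat_lit 1000, nat_lit 34, nat_lit 468, nat_lit 11267, nat_lit 241, nat_lit 267, nat_lit 211, nat_lit 54052219, nat_lit 12947781, nat_lit 0, nat_lit 2454508, false, false⟩,
 nat_lit 0, nat_lit 2648, nat_lit 0, nat_lit 0, nat_lit 2474, nat_lit 0, nat_lit 0, nat_lit 0, nat_lit 0, nat_lit 0, nat_lit 0, nat_lit 0, nat_lit 0, nat_lit 0, nat_lit 49, nat_lit 320200, nat_lit 0, nat_lit 0, [(nat_lit 28, [(nat_lit 0, nat_lit 532), (nat_lit 5, nat_lit 468)])],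
 ⟨p104_k36, nat_lit 0, nat_lit 0, nat_lit 335, nat_lit 0, nat_lit 464572, [nat_lit 889616000, nat_lit 335928001, nat_lit 104928000], [], [nat_lit 20888852488, nat_lit 21556259620, nat_lit 23672557836, nat_lit 24269302554, nat_lit 20749880717, nat_lit 21326724267, nat_lit 23451281380, nat_lit 24016431494], nat_lit 1271250, nat_lit 1271250, nat_lit 719601, nat_lit 1758000, nat_lit 0, nat_lit 490000, [nat_lit 230000, nat_lit 780000, nat_lit 1435000], [nat_lit 20, nat_lit 40, nat_lit 40, nat_lit 80, nat_lit 16, nat_lit 317, nat_lit 100, nat_lit 12]⟩, ⟨p104_k28, nat_lit 0, nat_lit 0, nat_lit 972, nat_lit 0, nat_lit 1249205, [nat_lit 0, nat_lit 0, nat_lit 0], [], [nat_lit 0, nat_lit 0, nat_lit 0, nat_lit 0, nat_lit 0, nat_lit 0, nat_lit 0, nat_lit 0], nat_lit 1271250, nat_lit 1271250, nat_lit 719601, nat_lit 1758000, nat_lit 0, nat_lit 2542500, [nat_lit 1412500, nat_lit 1271250, nat_lit 1271250], [nat_lit 60, nat_lit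 40, nat_lit 40, nat_lit 80, nat_lit 32, nat_lit 456, nat_lit 225, nat_lit 11]⟩,
 ⟨nat_lit 1581, nat_lit 2237, ⟨.ofNat (nat_lit 374377), .ofNat (nat_lit 557014), .ofNat (nat_lit 419835), .ofNat (nat_lit 602558), .ofNat (nat_lit 379613), .ofNat (nat_lit 554634), .ofNat (nat_lit 426152), .ofNat (nat_lit 601260)⟩, ⟨.ofNat (nat_lit 0), .ofNat (nat_lit 146758), .ofNat (nat_lit 0), .ofNat (nat_lit 192306), .ofNat (nat_lit 0), .ofNat (nat_lit 149571), .ofNat (nat_lit 0), .ofNat (nat_lit 196201)⟩⟩, [⟨nat_lit 3, nat_lit 100, nat_lit 39, nat_lit 72, nat_lit 83703126⟩]⟩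
noncomputable def p104_l124 : Lf2 := ⟨nat_lit 0, nat_lit 20, [nat_lit 5, nat_lit 5, nat_lit 5, nat_lit 20], false, nat_lit 8, nat_lit 80, nat_lit 0, nat_lit 360, ⟨nat_lit 0, nat_lit 706, nat_lit 294, nat_lit 5, nat_lit 203, nat_lit 1000, nat_lit 39, nat_lit 294, nat_lit 14017, nat_lit 244, nat_lit 3415, nat_lit 212, nat_lit 52232305, nat_lit 13682559, nat_lit 1085136, nat_lit 3016646, false, false⟩,
 nat_lit 0, nat_lit 2614, nat_lit 0, nat_lit 0, nat_lit 2527, nat_lit 0, nat_lit 0, nat_lit 0, nat_lit 0, nat_lit 0, nat_lit 0, nat_lit 0, nat_lit 0, nat_lit 0, nat_lit 0, nat_lit 294100, nat_lit 0, nat_lit 0, [(nat_lit 28, [(nat_lit 0, nat_lit 706), (nat_lit 5, nat_lit 294)])],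
 ⟨p104_k37, nat_lit 0, nat_lit 0, nat_lit 290, nat_lit 0, nat_lit 498506, [nat_lit 726328000, nat_lit 217978400, nat_lit 99045600], [], [nat_lit 21991492192, nat_lit 22614765899, nat_lit 24427160993, nat_lit 24985435319, nat_lit 21867416606, nat_lit 22419435658, nat_lit 24190875199, nat_lit 24736869484], nat_lit 1271250, nat_lit 1271250, nat_lit 904401, nat_lit 1771500, nat_lit 43600, nat_lit 490000, [nat_lit 230000, nat_lit 780000, nat_lit 1100000], [nat_lit 35, nat_lit 40, nat_lit 40, nat_lit 80, nat_lit 22, nat_lit 317, nat_lit 100, nat_lit 14]⟩, ⟨p104_k28, nat_lit 0, nat_lit 0, nat_lit 1018, nat_lit 0, nat_lit 1395829, [nat_lit 0, nat_lit 0, nat_lit 0], [], [nat_lit 0, nat_lit 0, nat_lit 0, nat_lit 0, nat_lit 0, nat_lit 0, nat_lit 0, nat_lit 0], nat_lit 1271250, nat_lit 1271250, nat_lit 904401, nat_lit 1771500, nat_lit 0, nat_lit 2542500, [nat_lit 1412500, nat_lit 1271250, nat_lit 1271250], [nat_lit 60, nat_lit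 40, nat_lit 40, nat_lit 80, nat_lit 32, nat_lit 456, nat_lit 225, nat_lit 11]⟩,
 ⟨nat_lit 0, nat_lit 1582, ⟨.ofNat (nat_lit 410485), .ofNat (nat_lit 554633), .ofNat (nat_lit 455801), .ofNat (nat_lit 601257), .ofNat (nat_lit 417902), .ofNat (nat_lit 549998), .ofNat (nat_lit 466588), .ofNat (nat_lit 599992)⟩, ⟨.ofNat (nat_lit 20000), .ofNat (nat_lit 149570), .ofNat (nat_lit 20000), .ofNat (nat_lit 196201), .ofNat (nat_lit 20000), .ofNat (nat_lit 149998), .ofNat (nat_lit 20000), .ofNat (nat_lit 199999)⟩⟩, [⟨nat_lit 3, nat_lit 100, nat_lit 31, nat_lit 76, nat_lit 224492793⟩]⟩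
noncomputable def p104_l125 : Lf2 := ⟨nat_lit 0, nat_lit 20, [nat_lit 5, nat_lit 5, nat_lit 5, nat_lit 20], false, nat_lit 80, nat_lit 200, nat_lit 0, nat_lit 360, ⟨nat_lit 0, nat_lit 477, nat_lit 523, nat_lit 5, nat_lit 185, nat_lit 1000, nat_lit 101, nat_lit 523, nat_lit 96267, nat_lit 291, nat_lit 417, nat_lit 210, nat_lit 50631677, nat_lit 11792059, nat_lit 4576264, nat_lit 3722121, false, false⟩,
 nat_lit 0, nat_lit 3301, nat_lit 0, nat_lit 0, nat_lit 2875, nat_lit 0, nat_lit 0, nat_lit 0, nat_lit 0, nat_lit 0, nat_lit 0, nat_lit 0, nat_lit 0, nat_lit 0, nat_lit 29, nat_lit 325000, nat_lit 0, nat_lit 0, [(nat_lit 25, [(nat_lit 0, nat_lit 477), (nat_lit 4, nat_lit 23), (nat_lit 5, nat_lit 500)]), (nat_lit 28, [(nat_lit 0, nat_lit 477), (nat_lit 4, nat_lit 23), (nat_lit 5, nat_lit 500)])],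
 ⟨p104_k27, nat_lit 0, nat_lit 0, nat_lit 332, nat_lit 0, nat_lit 564556, [nat_lit 869540000, nat_lit 635261334, nat_lit 40104266], [], [nat_lit 19258837032, nat_lit 21449110500, nat_lit 21985121766, nat_lit 24068309500, nat_lit 21086006032, nat_lit 23140216266, nat_lit 23698424750, nat_lit 25771470750], nat_lit 1271250, nat_lit 1271250, nat_lit 490000, nat_lit 1740000, nat_lit 490000, nat_lit 1427500, [nat_lit 230000, nat_lit 780000, nat_lit 1435000], [nat_lit 20, nat_lit 40, nat_lit 40, nat_lit 80, nat_lit 16, nat_lit 345, nat_lit 125, nat_lit 13]⟩, ⟨p104_k28, nat_lit 0, nat_lit 0, nat_lit 1054, nat_lit 0, nat_lit 1395829, [nat_lit 0, nat_lit 0, nat_lit 0], [], [nat_lit 0, nat_lit 0, nat_lit 0, nat_lit 0, nat_lit 0, nat_lit 0, nat_lit 0, nat_lit 0], nat_lit 1271250, nat_lit 1271250, nat_lit 490000, nat_lit 1740000, nat_lit 0, nat_lit 2542500, [nat_lit 1412500, nat_lit 1271250, nat_lit 1271250], [nat_lit 60,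 nat_lit 40, nat_lit 40, nat_lit 80, nat_lit 32, nat_lit 456, nat_lit 225, nat_lit 11]⟩,
 ⟨nat_lit 0, nat_lit 3163, ⟨.ofNat (nat_lit 309443), .ofNat (nat_lit 560951), .ofNat (nat_lit 351143), .ofNat (nat_lit 605128), .ofNat (nat_lit 342303), .ofNat (nat_lit 549998), .ofNat (nat_lit 389693), .ofNat (nat_lit 599865)⟩, ⟨.ofNat (nat_lit 139898), .ofNat (nat_lit 322753), .ofNat (nat_lit 184209), .ofNat (nat_lit 367065), .ofNat (nat_lit 149998), .ofNat (nat_lit 299993), .ofNat (nat_lit 199999), .ofNat (nat_lit 349995)⟩⟩, [⟨nat_lit 4, nat_lit 100, nat_lit 46, nat_lit 75, nat_lit 313719505⟩]⟩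
noncomputable def p104_l126 : Lf2 := ⟨nat_lit 0, nat_lit 20, [nat_lit 5, nat_lit 5, nat_lit 5, nat_lit 20], false, nat_lit 0, nat_lit 80, nat_lit 0, nat_lit 336, ⟨nat_lit 112, nat_lit 156, nat_lit 732, nat_lit 6, nat_lit 240, nat_lit 888, nat_lit 33, nat_lit 732, nat_lit 10417, nat_lit 240, nat_lit 16870, nat_lit 200, nat_lit 49277421, nat_lit 17722579, nat_lit 0, nat_lit 2888638, true, true⟩,
 nat_lit 2972, nat_lit 0, nat_lit 0, nat_lit 0, nat_lit 2588, nat_lit 1273, nat_lit 0, nat_lit 0, nat_lit 0, nat_lit 109, nat_lit 0, nat_lit 0, nat_lit 0, nat_lit 0, nat_lit 17, nat_lit 222000, nat_lit 0, nat_lit 0, [(nat_lit 25, [(nat_lit 0, nat_lit 156), (nat_lit 4, nat_lit 732)])],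
 ⟨p104_k27, nat_lit 0, nat_lit 0, nat_lit 304, nat_lit 0, nat_lit 425263, [nat_lit 825136000, nat_lit 520230401, nat_lit 26857599], [], [nat_lit 23317596926, nat_lit 24240655382, nat_lit 24481376702, nat_lit 25400907936, nat_lit 22955600798, nat_lit 23826616974, nat_lit 24082821185, nat_lit 25093640752], nat_lit 1271250, nat_lit 1271250, nat_lit 1271250, nat_lit 1271250, nat_lit 0, nat_lit 490000, [nat_lit 230000, nat_lit 780000, nat_lit 1435000], [nat_lit 20, nat_lit 40, nat_lit 40, nat_lit 80, nat_lit 16, nat_lit 226, nat_lit 20, nat_lit 8]⟩, ⟨p104_k28, nat_lit 0, nat_lit 0, nat_lit 816, nat_lit 0, nat_lit 1051436, [nat_lit 700000000, nat_lit 1102304000, nat_lit 1574496000], [], [nat_lit 4385327572, nat_lit 4362469892, nat_lit 4383766012, nat_lit 4361238384, nat_lit 3859337119, nat_lit 3370125099, nat_lit 3464194501, nat_lit 3472851286], nat_lit 1271250, nat_lit 1271250, nat_lit 1271250, nat_lit 1271250, nat_lit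 0, nat_lit 2373000, [nat_lit 1412500, nat_lit 1271250, nat_lit 1271250], [nat_lit 60, nat_lit 40, nat_lit 40, nat_lit 80, nat_lit 32, nat_lit 456, nat_lit 225, nat_lit 10]⟩,
 ⟨nat_lit 2236, nat_lit 3163, ⟨.ofNat (nat_lit 560952), .ofNat (nat_lit 621905), .ofNat (nat_lit 583107), .ofNat (nat_lit 644060), .ofNat (nat_lit 557014), .ofNat (nat_lit 614030), .ofNat (nat_lit 579788), .ofNat (nat_lit 636804)⟩, ⟨.ofNat (nat_lit 0), .ofNat (nat_lit 139899), .ofNat (nat_lit 0), .ofNat (nat_lit 184209), .ofNat (nat_lit 0), .ofNat (nat_lit 146758), .ofNat (nat_lit 0), .ofNat (nat_lit 192306)⟩⟩, [⟨nat_lit 22, nat_lit 97, nat_lit 100, nat_lit 15, nat_lit 33199182⟩, ⟨nat_lit 22, nat_lit 100, nat_lit 99, nat_lit 63, nat_lit 5001750⟩]⟩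
noncomputable def p104_l127 : Lf2 := ⟨nat_lit 0, nat_lit 20, [nat_lit 5, nat_lit 5, nat_lit 5, nat_lit 20], false, nat_lit 0, nat_lit 80, nat_lit 0, nat_lit 300, ⟨nat_lit 117, nat_lit 413, nat_lit 470, nat_lit 7, nat_lit 263, nat_lit 883, nat_lit 33, nat_lit 470, nat_lit 10417, nat_lit 240, nat_lit 138776, nat_lit 200, nat_lit 46726528, nat_lit 20273472, nat_lit 0, nat_lit 3065209, true, true⟩,
 nat_lit 3065, nat_lit 0, nat_lit 0, nat_lit 0, nat_lit 2669, nat_lit 1313, nat_lit 2, nat_lit 0, nat_lit 0, nat_lit 111, nat_lit 0, nat_lit 0, nat_lit 0, nat_lit 0, nat_lit 0, nat_lit 291250, nat_lit 0, nat_lit 0, [(nat_lit 25, [(nat_lit 0, nat_lit 413), (nat_lit 5, nat_lit 470)])],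
 ⟨p104_k27, nat_lit 0, nat_lit 0, nat_lit 308, nat_lit 0, nat_lit 425263, [nat_lit 766686000, nat_lit 613415067, nat_lit 171438533], [], [nat_lit 25309355633, nat_lit 26146804638, nat_lit 26573023422, nat_lit 27457823432, nat_lit 24885742230, nat_lit 25751466284, nat_lit 26190221470, nat_lit 26996946082], nat_lit 1271250, nat_lit 1271250, nat_lit 1271250, nat_lit 1271250, nat_lit 0, nat_lit 490000, [nat_lit 230000, nat_lit 780000, nat_lit 1435000], [nat_lit 20, nat_lit 40, nat_lit 40, nat_lit 80, nat_lit 16, nat_lit 226, nat_lit 20, nat_lit 7]⟩, ⟨p104_k28, nat_lit 0, nat_lit 0, nat_lit 805, nat_lit 0, nat_lit 1051436, [nat_lit 731250000, nat_lit 1151514000, nat_lit 1644786000], [], [nat_lit 4616494792, nat_lit 4607568914, nat_lit 4761806424, nat_lit 4753729966, nat_lit 3526300518, nat_lit 3508403477, nat_lit 3639718094, nat_lit 3648801480], nat_lit 1271250, nat_lit 1271250, nat_lit 1271250, nat_lit 1271250, nat_lit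 0, nat_lit 2118750, [nat_lit 1412500, nat_lit 1271250, nat_lit 1271250], [nat_lit 60, nat_lit 40, nat_lit 40, nat_lit 80, nat_lit 32, nat_lit 456, nat_lit 225, nat_lit 10]⟩,
 ⟨nat_lit 2236, nat_lit 3163, ⟨.ofNat (nat_lit 621905), .ofNat (nat_lit 682859), .ofNat (nat_lit 644060), .ofNat (nat_lit 705013), .ofNat (nat_lit 614030), .ofNat (nat_lit 671045), .ofNat (nat_lit 636804), .ofNat (nat_lit 693819)⟩, ⟨.ofNat (nat_lit 0), .ofNat (nat_lit 139899), .ofNat (nat_lit 0), .ofNat (nat_lit 184209), .ofNat (nat_lit 0), .ofNat (nat_lit 146758), .ofNat (nat_lit 0), .ofNat (nat_lit 192306)⟩⟩, [⟨nat_lit 13, nat_lit 44, nat_lit 90, nat_lit 100, nat_lit 325830447⟩, ⟨nat_lit 3, nat_lit 100, nat_lit 74, nat_lit 33, nat_lit 15308967⟩, ⟨nat_lit 22, nat_lit 89, nat_lit 100, nat_lit 28, nat_lit 11256697⟩]⟩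
noncomputable def p104_l128 : Lf2 := ⟨nat_lit 0, nat_lit 20, [nat_lit 5, nat_lit 5, nat_lit 5, nat_lit 20], false, nat_lit 0, nat_lit 80, nat_lit 0, nat_lit 336, ⟨nat_lit 143, nat_lit 169, nat_lit 688, nat_lit 6, nat_lit 249, nat_lit 857, nat_lit 33, nat_lit 688, nat_lit 10417, nat_lit 240, nat_lit 61180, nat_lit 200, nat_lit 48302516, nat_lit 18697484, nat_lit 0, nat_lit 2960348, true, true⟩,
 nat_lit 3129, nat_lit 0, nat_lit 0, nat_lit 0, nat_lit 2725, nat_lit 1496, nat_lit 0, nat_lit 0, nat_lit 0, nat_lit 155, nat_lit 0, nat_lit 0, nat_lit 0, nat_lit 0, nat_lit 2, nat_lit 214250, nat_lit 0, nat_lit 0, [(nat_lit 25, [(nat_lit 0, nat_lit 169), (nat_lit 4, nat_lit 688)])],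
 ⟨p104_k27, nat_lit 0, nat_lit 0, nat_lit 310, nat_lit 0, nat_lit 446723, [nat_lit 772114001, nat_lit 475688934, nat_lit 21771066], [], [nat_lit 23614982736, nat_lit 24555996686, nat_lit 24788619936, nat_lit 25727142200, nat_lit 23170450136, nat_lit 24088085806, nat_lit 24344567506, nat_lit 25263518323], nat_lit 1271250, nat_lit 1271250, nat_lit 1271250, nat_lit 1271250, nat_lit 0, nat_lit 490000, [nat_lit 230000, nat_lit 780000, nat_lit 1435000], [nat_lit 20, nat_lit 40, nat_lit 40, nat_lit 80, nat_lit 16, nat_lit 226, nat_lit 20, nat_lit 8]⟩, ⟨p104_k32, nat_lit 0, nat_lit 0, nat_lit 771, nat_lit 0, nat_lit 952995, [nat_lit 893750000, nat_lit 1407406000, nat_lit 2010294000], [], [nat_lit 4935315102, nat_lit 4936158340, nat_lit 4994846002, nat_lit 4988144120, nat_lit 4334188488, nat_lit 4060762673, nat_lit 4170527044, nat_lit 4185483788], nat_lit 1271250, nat_lit 1271250, nat_lit 1271250, nat_lit 1271250, nat_lit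 0, nat_lit 2373000, [nat_lit 1412500, nat_lit 1271250, nat_lit 1271250], [nat_lit 60, nat_lit 40, nat_lit 40, nat_lit 80, nat_lit 32, nat_lit 456, nat_lit 225, nat_lit 10]⟩,
 ⟨nat_lit 2236, nat_lit 3163, ⟨.ofNat (nat_lit 583107), .ofNat (nat_lit 644060), .ofNat (nat_lit 605240), .ofNat (nat_lit 666215), .ofNat (nat_lit 579788), .ofNat (nat_lit 636804), .ofNat (nat_lit 602541), .ofNat (nat_lit 659578)⟩, ⟨.ofNat (nat_lit 0), .ofNat (nat_lit 139899), .ofNat (nat_lit 0), .ofNat (nat_lit 184209), .ofNat (nat_lit 0), .ofNat (nat_lit 146758), .ofNat (nat_lit 0), .ofNat (nat_lit 192306)⟩⟩, [⟨nat_lit 22, nat_lit 97, nat_lit 100, nat_lit 15, nat_lit 19848967⟩, ⟨nat_lit 22, nat_lit 100, nat_lit 99, nat_lit 63, nat_lit 19542151⟩]⟩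
noncomputable def p104_l129 : Lf2 := ⟨nat_lit 0, nat_lit 20, [nat_lit 5, nat_lit 5, nat_lit 5, nat_lit 20], false, nat_lit 0, nat_lit 80, nat_lit 0, nat_lit 300, ⟨nat_lit 184, nat_lit 619, nat_lit 197, nat_lit 7, nat_lit 273, nat_lit 816, nat_lit 33, nat_lit 197, nat_lit 10417, nat_lit 240, nat_lit 183086, nat_lit 200, nat_lit 45668374, nat_lit 21331626, nat_lit 0, nat_lit 3128220, true, true⟩,
 nat_lit 3676, nat_lit 0, nat_lit 0, nat_lit 0, nat_lit 3201, nat_lit 1757, nat_lit 2, nat_lit 0, nat_lit 0, nat_lit 143, nat_lit 0, nat_lit 0, nat_lit 0, nat_lit 0, nat_lit 0, nat_lit 326400, nat_lit 0, nat_lit 0, [(nat_lit 25, [(nat_lit 1, nat_lit 619), (nat_lit 5, nat_lit 197)])],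
 ⟨p104_k27, nat_lit 0, nat_lit 0, nat_lit 288, nat_lit 0, nat_lit 389043, [nat_lit 838624001, nat_lit 1083419200, nat_lit 1113216000], [], [nat_lit 26442860703, nat_lit 26876566068, nat_lit 27706077903, nat_lit 28142236414, nat_lit 25701124507, nat_lit 26110178865, nat_lit 26897984555, nat_lit 27278510929], nat_lit 1271250, nat_lit 1271250, nat_lit 1271250, nat_lit 1271250, nat_lit 0, nat_lit 490000, [nat_lit 230000, nat_lit 780000, nat_lit 1435000], [nat_lit 20, nat_lit 40, nat_lit 40, nat_lit 80, nat_lit 16, nat_lit 226, nat_lit 20, nat_lit 7]⟩, ⟨p104_k32, nat_lit 0, nat_lit 0, nat_lit 692, nat_lit 0, nat_lit 829948, [nat_lit 1150000000, nat_lit 1810928000, nat_lit 2586672000], [], [nat_lit 7366976458, nat_lit 7345015442, nat_lit 7457268626, nat_lit 7446125170, nat_lit 5957075205, nat_lit 5925277097, nat_lit 6004491070, nat_lit 5966165846], nat_lit 1271250, nat_lit 1271250, nat_lit 1271250, nat_lit 1271250,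 nat_lit 0, nat_lit 2118750, [nat_lit 1412500, nat_lit 1271250, nat_lit 1271250], [nat_lit 60, nat_lit 40, nat_lit 40, nat_lit 80, nat_lit 32, nat_lit 456, nat_lit 225, nat_lit 10]⟩,
 ⟨nat_lit 2738, nat_lit 3163, ⟨.ofNat (nat_lit 644060), .ofNat (nat_lit 705013), .ofNat (nat_lit 666215), .ofNat (nat_lit 727168), .ofNat (nat_lit 640539), .ofNat (nat_lit 699600), .ofNat (nat_lit 662956), .ofNat (nat_lit 722017)⟩, ⟨.ofNat (nat_lit 0), .ofNat (nat_lit 139899), .ofNat (nat_lit 0), .ofNat (nat_lit 184209), .ofNat (nat_lit 0), .ofNat (nat_lit 143475), .ofNat (nat_lit 0), .ofNat (nat_lit 188310)⟩⟩, [⟨nat_lit 22, nat_lit 87, nat_lit 100, nat_lit 60, nat_lit 16378254⟩]⟩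
noncomputable def p104_l130 : Lf2 := ⟨nat_lit 0, nat_lit 20, [nat_lit 5, nat_lit 5, nat_lit 5, nat_lit 20], false, nat_lit 0, nat_lit 80, nat_lit 0, nat_lit 300, ⟨nat_lit 174, nat_lit 707, nat_lit 119, nat_lit 7, nat_lit 272, nat_lit 826, nat_lit 34, nat_lit 119, nat_lit 10417, nat_lit 240, nat_lit 172784, nat_lit 200, nat_lit 45858209, nat_lit 21141791, nat_lit 0, nat_lit 3117343, true, true⟩,
 nat_lit 3483, nat_lit 0, nat_lit 0, nat_lit 0, nat_lit 3143, nat_lit 1665, nat_lit 99, nat_lit 0, nat_lit 0, nat_lit 136, nat_lit 0, nat_lit 0, nat_lit 0, nat_lit 0, nat_lit 0, nat_lit 206500, nat_lit 0, nat_lit 0, [(nat_lit 25, [(nat_lit 0, nat_lit 707), (nat_lit 4, nat_lit 119)])],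
 ⟨p104_k30, nat_lit 0, nat_lit 0, nat_lit 309, nat_lit 0, nat_lit 428140, [nat_lit 789992000, nat_lit 1495747467, nat_lit 2363586000], [], [nat_lit 26902311873, nat_lit 27355117163, nat_lit 28194596377, nat_lit 28687534904, nat_lit 26170126177, nat_lit 26597013475, nat_lit 27395285397, nat_lit 27794095652], nat_lit 1271250, nat_lit 1271250, nat_lit 1271250, nat_lit 1271250, nat_lit 0, nat_lit 490000, [nat_lit 230000, nat_lit 780000, nat_lit 1435000], [nat_lit 20, nat_lit 40, nat_lit 40, nat_lit 80, nat_lit 16, nat_lit 226, nat_lit 20, nat_lit 7]⟩, ⟨p104_k32, nat_lit 0, nat_lit 0, nat_lit 761, nat_lit 0, nat_lit 952995, [nat_lit 1087500000, nat_lit 1712508000, nat_lit 2446092000], [], [nat_lit 6944940916, nat_lit 6924005704, nat_lit 7035913882, nat_lit 7025457588, nat_lit 5612929048, nat_lit 5582680957, nat_lit 5657612469, nat_lit 5629296754], nat_lit 1271250, nat_lit 1271250, nat_lit 1271250, nat_lit 1271250,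 nat_lit 0, nat_lit 2118750, [nat_lit 1412500, nat_lit 1271250, nat_lit 1271250], [nat_lit 60, nat_lit 40, nat_lit 40, nat_lit 80, nat_lit 32, nat_lit 456, nat_lit 225, nat_lit 10]⟩,
 ⟨nat_lit 2236, nat_lit 2739, ⟨.ofNat (nat_lit 640539), .ofNat (nat_lit 699600), .ofNat (nat_lit 662956), .ofNat (nat_lit 722017), .ofNat (nat_lit 636804), .ofNat (nat_lit 693819), .ofNat (nat_lit 659578), .ofNat (nat_lit 716594)⟩, ⟨.ofNat (nat_lit 0), .ofNat (nat_lit 143475), .ofNat (nat_lit 0), .ofNat (nat_lit 188310), .ofNat (nat_lit 0), .ofNat (nat_lit 146758), .ofNat (nat_lit 0), .ofNat (nat_lit 192306)⟩⟩, [⟨nat_lit 22, nat_lit 87, nat_lit 100, nat_lit 60, nat_lit 15521395⟩]⟩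
noncomputable def p104_l131 : Lf2 := ⟨nat_lit 0, nat_lit 20, [nat_lit 5, nat_lit 5, nat_lit 5, nat_lit 20], false, nat_lit 0, nat_lit 80, nat_lit 0, nat_lit 260, ⟨nat_lit 126, nat_lit 600, nat_lit 274, nat_lit 8, nat_lit 280, nat_lit 868, nat_lit 33, nat_lit 274, nat_lit 10417, nat_lit 240, nat_lit 187540, nat_lit 200, nat_lit 44967246, nat_lit 22032754, nat_lit 0, nat_lit 3166794, true, true⟩,
 nat_lit 3225, nat_lit 0, nat_lit 0, nat_lit 0, nat_lit 2808, nat_lit 1382, nat_lit 20, nat_lit 0, nat_lit 0, nat_lit 118, nat_lit 0, nat_lit 0, nat_lit 0, nat_lit 0, nat_lit 0, nat_lit 349600, nat_lit 0, nat_lit 0, [(nat_lit 25, [(nat_lit 1, nat_lit 600), (nat_lit 5, nat_lit 274)])],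
 ⟨p104_k27, nat_lit 0, nat_lit 0, nat_lit 310, nat_lit 0, nat_lit 425263, [nat_lit 824101601, nat_lit 818993334, nat_lit 498601866], [], [nat_lit 26929788106, nat_lit 27818435024, nat_lit 27533772503, nat_lit 28653462237, nat_lit 26467451146, nat_lit 27288429930, nat_lit 27038861860, nat_lit 27835358404], nat_lit 1271250, nat_lit 1271250, nat_lit 1271250, nat_lit 1271250, nat_lit 0, nat_lit 490000, [nat_lit 230000, nat_lit 780000, nat_lit 1435000], [nat_lit 20, nat_lit 40, nat_lit 40, nat_lit 80, nat_lit 16, nat_lit 226, nat_lit 20, nat_lit 7]⟩, ⟨p104_k28, nat_lit 0, nat_lit 0, nat_lit 797, nat_lit 0, nat_lit 1051436, [nat_lit 787500000, nat_lit 1240092000, nat_lit 1771308000], [], [nat_lit 5171808456, nat_lit 5156010892, nat_lit 5249657341, nat_lit 5237844328, nat_lit 3961778954, nat_lit 3930486598, nat_lit 3991572330, nat_lit 3964772274], nat_lit 1271250, nat_lit 1271250, nat_lit 1271250, nat_lit 1271250, nat_lit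 0, nat_lit 1836250, [nat_lit 1412500, nat_lit 1271250, nat_lit 1271250], [nat_lit 60, nat_lit 40, nat_lit 40, nat_lit 80, nat_lit 32, nat_lit 456, nat_lit 225, nat_lit 10]⟩,
 ⟨nat_lit 2236, nat_lit 3163, ⟨.ofNat (nat_lit 682859), .ofNat (nat_lit 707240), .ofNat (nat_lit 705013), .ofNat (nat_lit 729395), .ofNat (nat_lit 671045), .ofNat (nat_lit 693851), .ofNat (nat_lit 693819), .ofNat (nat_lit 716626)⟩, ⟨.ofNat (nat_lit 0), .ofNat (nat_lit 139899), .ofNat (nat_lit 0), .ofNat (nat_lit 184209), .ofNat (nat_lit 0), .ofNat (nat_lit 146758), .ofNat (nat_lit 0), .ofNat (nat_lit 192306)⟩⟩, [⟨nat_lit 13, nat_lit 53, nat_lit 82, nat_lit 100, nat_lit 470584588⟩]⟩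
noncomputable def p104_l132 : Lf2 := ⟨nat_lit 0, nat_lit 20, [nat_lit 5, nat_lit 5, nat_lit 5, nat_lit 20], false, nat_lit 0, nat_lit 80, nat_lit 0, nat_lit 260, ⟨nat_lit 186, nat_lit 814, nat_lit 0, nat_lit 8, nat_lit 294, nat_lit 814, nat_lit 33, nat_lit 0, nat_lit 0, nat_lit 0, nat_lit 0, nat_lit 0, nat_lit 43531599, nat_lit 23468401, nat_lit 0, nat_lit 3238081, true, true⟩,
 nat_lit 3849, nat_lit 0, nat_lit 0, nat_lit 0, nat_lit 3352, nat_lit 1840, nat_lit 65, nat_lit 0, nat_lit 0, nat_lit 157, nat_lit 0, nat_lit 0, nat_lit 0, nat_lit 0, nat_lit 0, nat_lit 329800, nat_lit 0, nat_lit 0, [(nat_lit 25, [(nat_lit 1, nat_lit 807), (nat_lit 2, nat_lit 7)])],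
 ⟨p104_k27, nat_lit 0, nat_lit 0, nat_lit 319, nat_lit 0, nat_lit 446723, [nat_lit 866500401, nat_lit 1416507067, nat_lit 1873774800], [], [nat_lit 28442714833, nat_lit 29229749456, nat_lit 29711672436, nat_lit 31016591543, nat_lit 27593194889, nat_lit 28348013673, nat_lit 28630682557, nat_lit 29339791798], nat_lit 1271250, nat_lit 1271250, nat_lit 1271250, nat_lit 1271250, nat_lit 0, nat_lit 490000, [nat_lit 230000, nat_lit 780000, nat_lit 1435000], [nat_lit 20, nat_lit 40, nat_lit 40, nat_lit 80, nat_lit 16, nat_lit 226, nat_lit 20, nat_lit 7]⟩, ⟨p104_k32, nat_lit 0, nat_lit 0, nat_lit 753, nat_lit 0, nat_lit 952995, [nat_lit 1162500000, nat_lit 1830612000, nat_lit 2614788000], [], [nat_lit 7286085146, nat_lit 7316322638, nat_lit 7703752920, nat_lit 7763856812, nat_lit 5690504157, nat_lit 5664363654, nat_lit 5955373043, nat_lit 5976987296], nat_lit 1271250, nat_lit 1271250, nat_lit 1271250, nat_lit 1271250,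 nat_lit 0, nat_lit 1836250, [nat_lit 1412500, nat_lit 1271250, nat_lit 1271250], [nat_lit 60, nat_lit 40, nat_lit 40, nat_lit 80, nat_lit 32, nat_lit 456, nat_lit 225, nat_lit 10]⟩,
 ⟨nat_lit 2236, nat_lit 3163, ⟨.ofNat (nat_lit 705013), .ofNat (nat_lit 753776), .ofNat (nat_lit 727168), .ofNat (nat_lit 775931), .ofNat (nat_lit 693819), .ofNat (nat_lit 739432), .ofNat (nat_lit 716594), .ofNat (nat_lit 762206)⟩, ⟨.ofNat (nat_lit 0), .ofNat (nat_lit 139899), .ofNat (nat_lit 0), .ofNat (nat_lit 184209), .ofNat (nat_lit 0), .ofNat (nat_lit 146758), .ofNat (nat_lit 0), .ofNat (nat_lit 192306)⟩⟩, [⟨nat_lit 13, nat_lit 53, nat_lit 77, nat_lit 100, nat_lit 499928729⟩]⟩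
noncomputable def p104_l133 : Lf2 := ⟨nat_lit 0, nat_lit 20, [nat_lit 5, nat_lit 5, nat_lit 5, nat_lit 20], false, nat_lit 0, nat_lit 80, nat_lit 0, nat_lit 336, ⟨nat_lit 105, nat_lit 636, nat_lit 259, nat_lit 6, nat_lit 244, nat_lit 895, nat_lit 34, nat_lit 259, nat_lit 11267, nat_lit 241, nat_lit 82172, nat_lit 200, nat_lit 48789928, nat_lit 18210072, nat_lit 0, nat_lit 2925165, true, true⟩,
 nat_lit 2695, nat_lit 0, nat_lit 0, nat_lit 0, nat_lit 2518, nat_lit 1155, nat_lit 0, nat_lit 0, nat_lit 0, nat_lit 86, nat_lit 0, nat_lit 0, nat_lit 0, nat_lit 0, nat_lit 16, nat_lit 358000, nat_lit 0, nat_lit 0, [(nat_lit 28, [(nat_lit 1, nat_lit 636), (nat_lit 5, nat_lit 259)])],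
 ⟨p104_k36, nat_lit 0, nat_lit 0, nat_lit 334, nat_lit 0, nat_lit 505392, [nat_lit 759906000, nat_lit 284649201, nat_lit 120325600], [], [nat_lit 24620489384, nat_lit 25630785280, nat_lit 26799129920, nat_lit 27805339652, nat_lit 24427131012, nat_lit 25376944680, nat_lit 26497868953, nat_lit 27345131053], nat_lit 1271250, nat_lit 1271250, nat_lit 1271250, nat_lit 1271250, nat_lit 0, nat_lit 490000, [nat_lit 230000, nat_lit 780000, nat_lit 1435000], [nat_lit 20, nat_lit 40, nat_lit 40, nat_lit 80, nat_lit 16, nat_lit 226, nat_lit 20, nat_lit 7]⟩, ⟨p104_k28, nat_lit 0, nat_lit 0, nat_lit 961, nat_lit 0, nat_lit 1358968, [nat_lit 656250000, nat_lit 1033410000, nat_lit 1476090000], [], [nat_lit 4308918180, nat_lit 4276668480, nat_lit 4446277132, nat_lit 4442615047, nat_lit 3642083844, nat_lit 3299516273, nat_lit 3498313435, nat_lit 3501021772], nat_lit 1271250, nat_lit 1271250, nat_lit 1271250, nat_lit 1271250, nat_lit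 0, nat_lit 2373000, [nat_lit 1412500, nat_lit 1271250, nat_lit 1271250], [nat_lit 60, nat_lit 40, nat_lit 40, nat_lit 80, nat_lit 32, nat_lit 456, nat_lit 225, nat_lit 10]⟩,
 ⟨nat_lit 0, nat_lit 2237, ⟨.ofNat (nat_lit 557013), .ofNat (nat_lit 653935), .ofNat (nat_lit 579788), .ofNat (nat_lit 676711), .ofNat (nat_lit 549998), .ofNat (nat_lit 634993), .ofNat (nat_lit 574999), .ofNat (nat_lit 659995)⟩, ⟨.ofNat (nat_lit 0), .ofNat (nat_lit 146756), .ofNat (nat_lit 0), .ofNat (nat_lit 192306), .ofNat (nat_lit 0), .ofNat (nat_lit 149997), .ofNat (nat_lit 0), .ofNat (nat_lit 199999)⟩⟩, [⟨nat_lit 13, nat_lit 31, nat_lit 93, nat_lit 100, nat_lit 388599655⟩, ⟨nat_lit 22, nat_lit 96, nat_lit 100, nat_lit 62, nat_lit 9139462⟩]⟩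
noncomputable def p104_l134 : Lf2 := ⟨nat_lit 0, nat_lit 20, [nat_lit 5, nat_lit 5, nat_lit 5, nat_lit 20], false, nat_lit 0, nat_lit 80, nat_lit 0, nat_lit 336, ⟨nat_lit 139, nat_lit 861, nat_lit 0, nat_lit 6, nat_lit 260, nat_lit 861, nat_lit 34, nat_lit 0, nat_lit 0, nat_lit 0, nat_lit 0, nat_lit 0, nat_lit 47142935, nat_lit 19857065, nat_lit 0, nat_lit 3038802, true, true⟩,
 nat_lit 2952, nat_lit 0, nat_lit 0, nat_lit 0, nat_lit 2758, nat_lit 1411, nat_lit 35, nat_lit 0, nat_lit 0, nat_lit 145, nat_lit 0, nat_lit 0, nat_lit 0, nat_lit 0, nat_lit 0, nat_lit 344400, nat_lit 0, nat_lit 0, [(nat_lit 28, [(nat_lit 1, nat_lit 861)])],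
 ⟨p104_k36, nat_lit 0, nat_lit 0, nat_lit 322, nat_lit 0, nat_lit 464572, [nat_lit 731015601, nat_lit 735850800, nat_lit 987568000], [], [nat_lit 24876082004, nat_lit 25373806088, nat_lit 27896133658, nat_lit 28540455268, nat_lit 24521394340, nat_lit 24989291128, nat_lit 27043127759, nat_lit 27476894675], nat_lit 1271250, nat_lit 1271250, nat_lit 1271250, nat_lit 1271250, nat_lit 0, nat_lit 490000, [nat_lit 230000, nat_lit 780000, nat_lit 1435000], [nat_lit 20, nat_lit 40, nat_lit 40, nat_lit 80, nat_lit 16, nat_lit 226, nat_lit 20, nat_lit 7]⟩, ⟨p104_k32, nat_lit 0, nat_lit 0, nat_lit 819, nat_lit 0, nat_lit 1077858, [nat_lit 868750000, nat_lit 1368038000, nat_lit 1954062000], [], [nat_lit 4999797304, nat_lit 4979289824, nat_lit 5221428458, nat_lit 5281007442, nat_lit 4259288578, nat_lit 4019000859, nat_lit 4340741651, nat_lit 4343752333], nat_lit 1271250, nat_lit 1271250, nat_lit 1271250, nat_lit 1271250, nat_lit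 0, nat_lit 2373000, [nat_lit 1412500, nat_lit 1271250, nat_lit 1271250], [nat_lit 60, nat_lit 40, nat_lit 40, nat_lit 80, nat_lit 32, nat_lit 456, nat_lit 225, nat_lit 10]⟩,
 ⟨nat_lit 1581, nat_lit 2237, ⟨.ofNat (nat_lit 579788), .ofNat (nat_lit 699521), .ofNat (nat_lit 602558), .ofNat (nat_lit 722295), .ofNat (nat_lit 577949), .ofNat (nat_lit 692684), .ofNat (nat_lit 601260), .ofNat (nat_lit 715999)⟩, ⟨.ofNat (nat_lit 0), .ofNat (nat_lit 146758), .ofNat (nat_lit 0), .ofNat (nat_lit 192306), .ofNat (nat_lit 0), .ofNat (nat_lit 149571), .ofNat (nat_lit 0), .ofNat (nat_lit 196201)⟩⟩, [⟨nat_lit 13, nat_lit 31, nat_lit 92, nat_lit 100, nat_lit 283644198⟩, ⟨nat_lit 22, nat_lit 93, nat_lit 100, nat_lit 61, nat_lit 21613658⟩]⟩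
noncomputable def p104_l135 : Lf2 := ⟨nat_lit 0, nat_lit 20, [nat_lit 5, nat_lit 5, nat_lit 5, nat_lit 20], false, nat_lit 8, nat_lit 80, nat_lit 0, nat_lit 336, ⟨nat_lit 125, nat_lit 875, nat_lit 0, nat_lit 6, nat_lit 251, nat_lit 875, nat_lit 39, nat_lit 0, nat_lit 0, nat_lit 0, nat_lit 0, nat_lit 0, nat_lit 47157344, nat_lit 18787987, nat_lit 1054669, nat_lit 3439138, true, true⟩,
 nat_lit 2662, nat_lit 0, nat_lit 0, nat_lit 0, nat_lit 2574, nat_lit 1273, nat_lit 37, nat_lit 0, nat_lit 0, nat_lit 130, nat_lit 0, nat_lit 0, nat_lit 0, nat_lit 0, nat_lit 0, nat_lit 350000, nat_lit 0, nat_lit 0, [(nat_lit 28, [(nat_lit 1, nat_lit 875)])],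
 ⟨p104_k37, nat_lit 0, nat_lit 0, nat_lit 287, nat_lit 0, nat_lit 498506, [nat_lit 727650000, nat_lit 694450001, nat_lit 758900000], [], [nat_lit 25122241456, nat_lit 25617188480, nat_lit 26952239862, nat_lit 27447247575, nat_lit 24944030114, nat_lit 25411827344, nat_lit 26691313427, nat_lit 27114840036], nat_lit 1271250, nat_lit 1271250, nat_lit 1271250, nat_lit 1271250, nat_lit 43600, nat_lit 490000, [nat_lit 230000, nat_lit 780000, nat_lit 1100000], [nat_lit 35, nat_lit 40, nat_lit 40, nat_lit 80, nat_lit 22, nat_lit 226, nat_lit 20, nat_lit 9]⟩, ⟨p104_k32, nat_lit 0, nat_lit 0, nat_lit 881, nat_lit 0, nat_lit 1204370, [nat_lit 781250000, nat_lit 1230250000, nat_lit 1757250000], [], [nat_lit 4481413028, nat_lit 4462779516, nat_lit 4557607674, nat_lit 4549632538, nat_lit 3825876916, nat_lit 3615706578, nat_lit 3797065997, nat_lit 3805957857], nat_lit 1271250, nat_lit 1271250, nat_lit 1271250, nat_lit 1271250,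 nat_lit 0, nat_lit 2373000, [nat_lit 1412500, nat_lit 1271250, nat_lit 1271250], [nat_lit 60, nat_lit 40, nat_lit 40, nat_lit 80, nat_lit 32, nat_lit 456, nat_lit 225, nat_lit 10]⟩,
 ⟨nat_lit 0, nat_lit 1582, ⟨.ofNat (nat_lit 577949), .ofNat (nat_lit 659900), .ofNat (nat_lit 601257), .ofNat (nat_lit 683216), .ofNat (nat_lit 574999), .ofNat (nat_lit 649996), .ofNat (nat_lit 599992), .ofNat (nat_lit 674997)⟩, ⟨.ofNat (nat_lit 20000), .ofNat (nat_lit 149570), .ofNat (nat_lit 20000), .ofNat (nat_lit 196201), .ofNat (nat_lit 20000), .ofNat (nat_lit 149998), .ofNat (nat_lit 20000), .ofNat (nat_lit 199999)⟩⟩, [⟨nat_lit 13, nat_lit 22, nat_lit 94, nat_lit 100, nat_lit 387226552⟩, ⟨nat_lit 3, nat_lit 100, nat_lit 52, nat_lit 53, nat_lit 40342548⟩, ⟨nat_lit 22, nat_lit 99, nat_lit 100, nat_lit 66, nat_lit 19324895⟩]⟩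
noncomputable def p104_l136 : Lf2 := ⟨nat_lit 0, nat_lit 15, [nat_lit 30, nat_lit 5, nat_lit 5, nat_lit 20], false, nat_lit 80, nat_lit 176, nat_lit 0, nat_lit 344, ⟨nat_lit 120, nat_lit 467, nat_lit 413, nat_lit 6, nat_lit 256, nat_lit 880, nat_lit 90, nat_lit 413, nat_lit 77067, nat_lit 283, nat_lit 187540, nat_lit 200, nat_lit 44452953, nat_lit 18873892, nat_lit 3673155, nat_lit 4159396, true, true⟩,
 nat_lit 3174, nat_lit 0, nat_lit 0, nat_lit 0, nat_lit 2764, nat_lit 1360, nat_lit 56, nat_lit 0, nat_lit 0, nat_lit 119, nat_lit 0, nat_lit 0, nat_lit 0, nat_lit 0, nat_lit 0, nat_lit 281950, nat_lit 0, nat_lit 0, [(nat_lit 25, [(nat_lit 0, nat_lit 467), (nat_lit 5, nat_lit 413)])],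
 ⟨p104_k38, nat_lit 0, nat_lit 0, nat_lit 238, nat_lit 0, nat_lit 410623, [nat_lit 769351201, nat_lit 737912267, nat_lit 474334800], [], [nat_lit 22733795676, nat_lit 23603078364, nat_lit 25791116491, nat_lit 26662333044, nat_lit 23740464788, nat_lit 24624574712, nat_lit 26625538973, nat_lit 27401022265], nat_lit 1271250, nat_lit 1271250, nat_lit 1271250, nat_lit 1271250, nat_lit 490000, nat_lit 1236400, [nat_lit 230000, nat_lit 780000, nat_lit 1435000], [nat_lit 20, nat_lit 40, nat_lit 40, nat_lit 80, nat_lit 16, nat_lit 260, nat_lit 50, nat_lit 8]⟩, ⟨p104_k35, nat_lit 0, nat_lit 0, nat_lit 796, nat_lit 0, nat_lit 1000194, [nat_lit 750000000, nat_lit 1181040000, nat_lit 1686960000], [], [nat_lit 4639523520, nat_lit 4636625040, nat_lit 4926069307, nat_lit 4970425002, nat_lit 4227184673, nat_lit 3656216546, nat_lit 4023425863, nat_lit 4015143472], nat_lit 1271250, nat_lit 1271250, nat_lit 1271250, nat_lit 1271250,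 nat_lit 0, nat_lit 2429500, [nat_lit 1412500, nat_lit 1271250, nat_lit 1271250], [nat_lit 60, nat_lit 40, nat_lit 40, nat_lit 80, nat_lit 32, nat_lit 456, nat_lit 225, nat_lit 10]⟩,
 ⟨nat_lit 2236, nat_lit 3163, ⟨.ofNat (nat_lit 560952), .ofNat (nat_lit 707240), .ofNat (nat_lit 583107), .ofNat (nat_lit 729395), .ofNat (nat_lit 557014), .ofNat (nat_lit 693851), .ofNat (nat_lit 579788), .ofNat (nat_lit 716626)⟩, ⟨.ofNat (nat_lit 139899), .ofNat (nat_lit 286187), .ofNat (nat_lit 162054), .ofNat (nat_lit 308342), .ofNat (nat_lit 146758), .ofNat (nat_lit 283595), .ofNat (nat_lit 169532), .ofNat (nat_lit 306369)⟩⟩, [⟨nat_lit 13, nat_lit 53, nat_lit 82, nat_lit 100, nat_lit 242068693⟩, ⟨nat_lit 16, nat_lit 55, nat_lit 100, nat_lit 69, nat_lit 171948746⟩, ⟨nat_lit 19, nat_lit 100, nat_lit 78, nat_lit 66, nat_lit 13172031⟩]⟩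
noncomputable def p104_l137 : Lf2 := ⟨nat_lit 0, nat_lit 20, [nat_lit 5, nat_lit 5, nat_lit 5, nat_lit 20], false, nat_lit 80, nat_lit 200, nat_lit 0, nat_lit 360, ⟨nat_lit 133, nat_lit 303, nat_lit 564, nat_lit 6, nat_lit 257, nat_lit 867, nat_lit 106, nat_lit 564, nat_lit 106667, nat_lit 295, nat_lit 187540, nat_lit 200, nat_lit 43579008, nat_lit 18763362, nat_lit 4657630, nat_lit 4358645, true, true⟩,
 nat_lit 3283, nat_lit 0, nat_lit 0, nat_lit 0, nat_lit 2859, nat_lit 1406, nat_lit 13, nat_lit 0, nat_lit 0, nat_lit 105, nat_lit 0, nat_lit 0, nat_lit 0, nat_lit 0, nat_lit 0, nat_lit 216750, nat_lit 0, nat_lit 0, [(nat_lit 25, [(nat_lit 0, nat_lit 303), (nat_lit 4, nat_lit 564)])],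
 ⟨p104_k27, nat_lit 0, nat_lit 0, nat_lit 196, nat_lit 0, nat_lit 273433, [nat_lit 766838001, nat_lit 647159601, nat_lit 423964000], [], [nat_lit 22753657647, nat_lit 23239277388, nat_lit 25853341251, nat_lit 26260920068, nat_lit 24154716709, nat_lit 24575697732, nat_lit 26844171160, nat_lit 27266759006], nat_lit 1271250, nat_lit 1271250, nat_lit 1271250, nat_lit 1271250, nat_lit 490000, nat_lit 1427500, [nat_lit 230000, nat_lit 780000, nat_lit 1435000], [nat_lit 20, nat_lit 40, nat_lit 40, nat_lit 80, nat_lit 16, nat_lit 260, nat_lit 50, nat_lit 8]⟩, ⟨p104_k28, nat_lit 0, nat_lit 0, nat_lit 638, nat_lit 0, nat_lit 676045, [nat_lit 831250000, nat_lit 1308986000, nat_lit 1869714000], [], [nat_lit 5494349796, nat_lit 5487537878, nat_lit 5854948927, nat_lit 5844829618, nat_lit 4933194124, nat_lit 4439273231, nat_lit 4806178618, nat_lit 4795804872], nat_lit 1271250, nat_lit 1271250, nat_lit 1271250, nat_lit 1271250,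 nat_lit 0, nat_lit 2542500, [nat_lit 1412500, nat_lit 1271250, nat_lit 1271250], [nat_lit 60, nat_lit 40, nat_lit 40, nat_lit 80, nat_lit 32, nat_lit 483, nat_lit 250, nat_lit 11]⟩,
 ⟨nat_lit 2738, nat_lit 3163, ⟨.ofNat (nat_lit 560952), .ofNat (nat_lit 707240), .ofNat (nat_lit 583107), .ofNat (nat_lit 729395), .ofNat (nat_lit 559060), .ofNat (nat_lit 700807), .ofNat (nat_lit 581477), .ofNat (nat_lit 723224)⟩, ⟨.ofNat (nat_lit 162054), .ofNat (nat_lit 344914), .ofNat (nat_lit 184209), .ofNat (nat_lit 367069), .ofNat (nat_lit 165893), .ofNat (nat_lit 343077), .ofNat (nat_lit 188310), .ofNat (nat_lit 365494)⟩⟩, [⟨nat_lit 13, nat_lit 57, nat_lit 80, nat_lit 100, nat_lit 208063226⟩, ⟨nat_lit 4, nat_lit 100, nat_lit 57, nat_lit 76, nat_lit 136000925⟩, ⟨nat_lit 7, nat_lit 69, nat_lit 100, nat_lit 76, nat_lit 15019309⟩]⟩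
noncomputable def p104_l138 : Lf2 := ⟨nat_lit 0, nat_lit 20, [nat_lit 5, nat_lit 5, nat_lit 5, nat_lit 20], false, nat_lit 80, nat_lit 184, nat_lit 0, nat_lit 360, ⟨nat_lit 131, nat_lit 398, nat_lit 471, nat_lit 6, nat_lit 252, nat_lit 869, nat_lit 102, nat_lit 471, nat_lit 96267, nat_lit 291, nat_lit 139762, nat_lit 200, nat_lit 44276540, nat_lit 18311833, nat_lit 4411627, nat_lit 4278726, true, true⟩,
 nat_lit 3276, nat_lit 0, nat_lit 0, nat_lit 0, nat_lit 2956, nat_lit 1404, nat_lit 20, nat_lit 0, nat_lit 0, nat_lit 109, nat_lit 0, nat_lit 0, nat_lit 0, nat_lit 0, nat_lit 0, nat_lit 217250, nat_lit 0, nat_lit 0, [(nat_lit 25, [(nat_lit 0, nat_lit 398), (nat_lit 4, nat_lit 471)])],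
 ⟨p104_k30, nat_lit 0, nat_lit 0, nat_lit 212, nat_lit 0, nat_lit 319281, [nat_lit 769838000, nat_lit 804285201, nat_lit 785654000], [], [nat_lit 22887496429, nat_lit 23407921393, nat_lit 25815849007, nat_lit 26362266288, nat_lit 24092759407, nat_lit 24552558096, nat_lit 26632446898, nat_lit 27066185483], nat_lit 1271250, nat_lit 1271250, nat_lit 1271250, nat_lit 1271250, nat_lit 490000, nat_lit 1302500, [nat_lit 230000, nat_lit 780000, nat_lit 1435000], [nat_lit 20, nat_lit 40, nat_lit 40, nat_lit 80, nat_lit 16, nat_lit 260, nat_lit 50, nat_lit 8]⟩, ⟨p104_k28, nat_lit 0, nat_lit 0, nat_lit 727, nat_lit 0, nat_lit 823665, [nat_lit 818750000, nat_lit 1289302000, nat_lit 1841598000], [], [nat_lit 5322581738, nat_lit 5316754270, nat_lit 5608688688, nat_lit 5601272161, nat_lit 4849724324, nat_lit 4323498785, nat_lit 4618479412, nat_lit 4610811068], nat_lit 1271250, nat_lit 1271250, nat_lit 1271250, nat_lit 1271250,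 nat_lit 0, nat_lit 2542500, [nat_lit 1412500, nat_lit 1271250, nat_lit 1271250], [nat_lit 60, nat_lit 40, nat_lit 40, nat_lit 80, nat_lit 32, nat_lit 483, nat_lit 250, nat_lit 11]⟩,
 ⟨nat_lit 2236, nat_lit 2739, ⟨.ofNat (nat_lit 559060), .ofNat (nat_lit 683089), .ofNat (nat_lit 581477), .ofNat (nat_lit 705506), .ofNat (nat_lit 557014), .ofNat (nat_lit 676747), .ofNat (nat_lit 579788), .ofNat (nat_lit 699521)⟩, ⟨.ofNat (nat_lit 165893), .ofNat (nat_lit 319452), .ofNat (nat_lit 188310), .ofNat (nat_lit 341870), .ofNat (nat_lit 169532), .ofNat (nat_lit 317772), .ofNat (nat_lit 192306), .ofNat (nat_lit 340547)⟩⟩, [⟨nat_lit 13, nat_lit 48, nat_lit 85, nat_lit 100, nat_lit 271222027⟩, ⟨nat_lit 4, nat_lit 100, nat_lit 49, nat_lit 78, nat_lit 151243872⟩, ⟨nat_lit 19, nat_lit 100, nat_lit 69, nat_lit 76, nat_lit 15516797⟩]⟩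
noncomputable def p104_l139 : Lf2 := ⟨nat_lit 0, nat_lit 20, [nat_lit 5, nat_lit 5, nat_lit 5, nat_lit 20], false, nat_lit 80, nat_lit 200, nat_lit 0, nat_lit 348, ⟨nat_lit 183, nat_lit 441, nat_lit 376, nat_lit 6, nat_lit 261, nat_lit 817, nat_lit 102, nat_lit 376, nat_lit 96267, nat_lit 291, nat_lit 183086, nat_lit 200, nat_lit 43422500, nat_lit 19224136, nat_lit 4353364, nat_lit 4327199, true, true⟩,
 nat_lit 3585, nat_lit 0, nat_lit 0, nat_lit 0, nat_lit 3122, nat_lit 1714, nat_lit 53, nat_lit 0, nat_lit 0, nat_lit 174, nat_lit 0, nat_lit 0, nat_lit 0, nat_lit 0, nat_lit 0, nat_lit 260650, nat_lit 0, nat_lit 0, [(nat_lit 25, [(nat_lit 0, nat_lit 441), (nat_lit 5, nat_lit 376)])],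
 ⟨p104_k27, nat_lit 0, nat_lit 0, nat_lit 226, nat_lit 0, nat_lit 389043, [nat_lit 781704401, nat_lit 935532134, nat_lit 926325600], [], [nat_lit 22951138569, nat_lit 23406130781, nat_lit 25296510441, nat_lit 25754984860, nat_lit 24193344625, nat_lit 24587812240, nat_lit 26243946004, nat_lit 26794580117], nat_lit 1271250, nat_lit 1271250, nat_lit 1271250, nat_lit 1271250, nat_lit 490000, nat_lit 1427500, [nat_lit 230000, nat_lit 780000, nat_lit 1435000], [nat_lit 20, nat_lit 40, nat_lit 40, nat_lit 80, nat_lit 16, nat_lit 260, nat_lit 50, nat_lit 8]⟩, ⟨p104_k32, nat_lit 0, nat_lit 0, nat_lit 723, nat_lit 0, nat_lit 829948, [nat_lit 1143750000, nat_lit 1801086000, nat_lit 2572614000], [], [nat_lit 7104439506, nat_lit 7112428524, nat_lit 7322023772, nat_lit 7311755488, nat_lit 5982717275, nat_lit 5949857545, nat_lit 6031610667, nat_lit 6006643034], nat_lit 1271250, nat_lit 1271250, nat_lit 1271250, nat_lit 1271250,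 nat_lit 0, nat_lit 2457750, [nat_lit 1412500, nat_lit 1271250, nat_lit 1271250], [nat_lit 60, nat_lit 40, nat_lit 40, nat_lit 80, nat_lit 32, nat_lit 483, nat_lit 250, nat_lit 11]⟩,
 ⟨nat_lit 2738, nat_lit 3163, ⟨.ofNat (nat_lit 583107), .ofNat (nat_lit 705013), .ofNat (nat_lit 605257), .ofNat (nat_lit 727168), .ofNat (nat_lit 581477), .ofNat (nat_lit 699600), .ofNat (nat_lit 603890), .ofNat (nat_lit 722017)⟩, ⟨.ofNat (nat_lit 139899), .ofNat (nat_lit 322759), .ofNat (nat_lit 184209), .ofNat (nat_lit 367069), .ofNat (nat_lit 143475), .ofNat (nat_lit 320659), .ofNat (nat_lit 188310), .ofNat (nat_lit 365494)⟩⟩, [⟨nat_lit 16, nat_lit 57, nat_lit 100, nat_lit 73, nat_lit 174183351⟩, ⟨nat_lit 19, nat_lit 100, nat_lit 81, nat_lit 72, nat_lit 22842122⟩]⟩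
noncomputable def p104_l140 : Lf2 := ⟨nat_lit 0, nat_lit 20, [nat_lit 5, nat_lit 5, nat_lit 5, nat_lit 20], false, nat_lit 80, nat_lit 184, nat_lit 0, nat_lit 348, ⟨nat_lit 187, nat_lit 813, nat_lit 0, nat_lit 6, nat_lit 260, nat_lit 813, nat_lit 97, nat_lit 0, nat_lit 0, nat_lit 0, nat_lit 0, nat_lit 0, nat_lit 43765616, nat_lit 19143358, nat_lit 4091026, nat_lit 4267531, true, true⟩,
 nat_lit 3664, nat_lit 0, nat_lit 0, nat_lit 0, nat_lit 3306, nat_lit 1752, nat_lit 191, nat_lit 0, nat_lit 0, nat_lit 178, nat_lit 0, nat_lit 0, nat_lit 0, nat_lit 0, nat_lit 0, nat_lit 203250, nat_lit 0, nat_lit 0, [(nat_lit 25, [(nat_lit 0, nat_lit 813)])],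
 ⟨p104_k30, nat_lit 0, nat_lit 0, nat_lit 240, nat_lit 0, nat_lit 428140, [nat_lit 796538001, nat_lit 1726568400, nat_lit 2890684000], [], [nat_lit 23741101566, nat_lit 24245326930, nat_lit 26263762276, nat_lit 26699278374, nat_lit 24774654903, nat_lit 25219560479, nat_lit 26996718514, nat_lit 27383079625], nat_lit 1271250, nat_lit 1271250, nat_lit 1271250, nat_lit 1271250, nat_lit 490000, nat_lit 1302500, [nat_lit 230000, nat_lit 780000, nat_lit 1435000], [nat_lit 20, nat_lit 40, nat_lit 40, nat_lit 80, nat_lit 16, nat_lit 260, nat_lit 50, nat_lit 8]⟩, ⟨p104_k32, nat_lit 0, nat_lit 0, nat_lit 771, nat_lit 0, nat_lit 952995, [nat_lit 1168750000, nat_lit 1840454000, nat_lit 2628846000], [], [nat_lit 7256785062, nat_lit 7264930244, nat_lit 7479104760, nat_lit 7468588880, nat_lit 6109884092, nat_lit 6076277983, nat_lit 6160796356, nat_lit 6135950159], nat_lit 1271250, nat_lit 1271250, nat_lit 1271250, nat_lit 1271250,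 nat_lit 0, nat_lit 2457750, [nat_lit 1412500, nat_lit 1271250, nat_lit 1271250], [nat_lit 60, nat_lit 40, nat_lit 40, nat_lit 80, nat_lit 32, nat_lit 483, nat_lit 250, nat_lit 11]⟩,
 ⟨nat_lit 2236, nat_lit 2739, ⟨.ofNat (nat_lit 581477), .ofNat (nat_lit 699600), .ofNat (nat_lit 603890), .ofNat (nat_lit 722017), .ofNat (nat_lit 579788), .ofNat (nat_lit 693819), .ofNat (nat_lit 602558), .ofNat (nat_lit 716594)⟩, ⟨.ofNat (nat_lit 143475), .ofNat (nat_lit 297035), .ofNat (nat_lit 188310), .ofNat (nat_lit 341870), .ofNat (nat_lit 146758), .ofNat (nat_lit 294998), .ofNat (nat_lit 192306), .ofNat (nat_lit 340547)⟩⟩, [⟨nat_lit 4, nat_lit 100, nat_lit 50, nat_lit 74, nat_lit 179252846⟩, ⟨nat_lit 7, nat_lit 81, nat_lit 100, nat_lit 72, nat_lit 23345054⟩]⟩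
noncomputable def p104_l141 : Lf2 := ⟨nat_lit 0, nat_lit 20, [nat_lit 5, nat_lit 5, nat_lit 5, nat_lit 20], false, nat_lit 80, nat_lit 200, nat_lit 0, nat_lit 348, ⟨nat_lit 202, nat_lit 798, nat_lit 0, nat_lit 8, nat_lit 295, nat_lit 798, nat_lit 102, nat_lit 0, nat_lit 0, nat_lit 0, nat_lit 0, nat_lit 0, nat_lit 40354017, nat_lit 22477671, nat_lit 4168312, nat_lit 4466146, true, true⟩,
 nat_lit 3964, nat_lit 0, nat_lit 0, nat_lit 0, nat_lit 3452, nat_lit 1895, nat_lit 22, nat_lit 0, nat_lit 0, nat_lit 193, nat_lit 0, nat_lit 0, nat_lit 0, nat_lit 0, nat_lit 0, nat_lit 391800, nat_lit 0, nat_lit 0, [(nat_lit 25, [(nat_lit 1, nat_lit 677), (nat_lit 2, nat_lit 121)])],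
 ⟨p104_k27, nat_lit 0, nat_lit 0, nat_lit 233, nat_lit 0, nat_lit 389043, [nat_lit 939082001, nat_lit 1295315334, nat_lit 1410335600], [], [nat_lit 26454097331, nat_lit 26863544927, nat_lit 27575920094, nat_lit 28032555085, nat_lit 27245229131, nat_lit 27601080242, nat_lit 28260260818, nat_lit 28657463784], nat_lit 1271250, nat_lit 1271250, nat_lit 1271250, nat_lit 1271250, nat_lit 490000, nat_lit 1427500, [nat_lit 230000, nat_lit 780000, nat_lit 1435000], [nat_lit 20, nat_lit 40, nat_lit 40, nat_lit 80, nat_lit 16, nat_lit 260, nat_lit 50, nat_lit 8]⟩, ⟨p104_k32, nat_lit 0, nat_lit 0, nat_lit 677, nat_lit 0, nat_lit 829948, [nat_lit 1262500000, nat_lit 1988084000, nat_lit 2839716000], [], [nat_lit 8066558086, nat_lit 8055092104, nat_lit 8226151192, nat_lit 8205873455, nat_lit 6643640591, nat_lit 6620636093, nat_lit 6875430433, nat_lit 6869071997], nat_lit 1271250, nat_lit 1271250, nat_lit 1271250, nat_lit 1271250,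 nat_lit 0, nat_lit 2457750, [nat_lit 1412500, nat_lit 1271250, nat_lit 1271250], [nat_lit 60, nat_lit 40, nat_lit 40, nat_lit 80, nat_lit 32, nat_lit 483, nat_lit 250, nat_lit 11]⟩,
 ⟨nat_lit 2738, nat_lit 3163, ⟨.ofNat (nat_lit 705013), .ofNat (nat_lit 753776), .ofNat (nat_lit 727168), .ofNat (nat_lit 775931), .ofNat (nat_lit 699600), .ofNat (nat_lit 746849), .ofNat (nat_lit 722017), .ofNat (nat_lit 769266)⟩, ⟨.ofNat (nat_lit 139899), .ofNat (nat_lit 322759), .ofNat (nat_lit 184209), .ofNat (nat_lit 367069), .ofNat (nat_lit 143475), .ofNat (nat_lit 320659), .ofNat (nat_lit 188310), .ofNat (nat_lit 365494)⟩⟩, [⟨nat_lit 13, nat_lit 57, nat_lit 74, nat_lit 100, nat_lit 174511294⟩, ⟨nat_lit 4, nat_lit 100, nat_lit 57, nat_lit 73, nat_lit 198084317⟩, ⟨nat_lit 22, nat_lit 77, nat_lit 91, nat_lit 100, nat_lit 23615662⟩]⟩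
noncomputable def p104_l142 : Lf2 := ⟨nat_lit 0, nat_lit 20, [nat_lit 5, nat_lit 5, nat_lit 5, nat_lit 20], false, nat_lit 80, nat_lit 184, nat_lit 0, nat_lit 348, ⟨nat_lit 192, nat_lit 808, nat_lit 0, nat_lit 8, nat_lit 289, nat_lit 808, nat_lit 97, nat_lit 0, nat_lit 0, nat_lit 0, nat_lit 0, nat_lit 0, nat_lit 41079831, nat_lit 21976038, nat_lit 3944131, nat_lit 4395998, true, true⟩,
 nat_lit 3760, nat_lit 0, nat_lit 0, nat_lit 0, nat_lit 3393, nat_lit 1798, nat_lit 160, nat_lit 0, nat_lit 0, nat_lit 183, nat_lit 0, nat_lit 0, nat_lit 0, nat_lit 0, nat_lit 0, nat_lit 202000, nat_lit 0, nat_lit 0, [(nat_lit 25, [(nat_lit 0, nat_lit 808)])],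
 ⟨p104_k30, nat_lit 0, nat_lit 0, nat_lit 244, nat_lit 0, nat_lit 428140, [nat_lit 797408001, nat_lit 1736134400, nat_lit 2911344000], [], [nat_lit 26506810499, nat_lit 27023090526, nat_lit 27386217246, nat_lit 27919555143, nat_lit 27209457938, nat_lit 27599359810, nat_lit 27892121066, nat_lit 28363361249], nat_lit 1271250, nat_lit 1271250, nat_lit 1271250, nat_lit 1271250, nat_lit 490000, nat_lit 1302500, [nat_lit 230000, nat_lit 780000, nat_lit 1435000], [nat_lit 20, nat_lit 40, nat_lit 40, nat_lit 80, nat_lit 16, nat_lit 260, nat_lit 50, nat_lit 8]⟩, ⟨p104_k32, nat_lit 0, nat_lit 0, nat_lit 753, nat_lit 0, nat_lit 952995, [nat_lit 1200000000, nat_lit 1889664000, nat_lit 2699136000], [], [nat_lit 7680257132, nat_lit 7669496608, nat_lit 7775033014, nat_lit 7759045496, nat_lit 6327084766, nat_lit 6300364408, nat_lit 6447005019, nat_lit 6445715405], nat_lit 1271250, nat_lit 1271250, nat_lit 1271250, nat_lit 1271250,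 nat_lit 0, nat_lit 2457750, [nat_lit 1412500, nat_lit 1271250, nat_lit 1271250], [nat_lit 60, nat_lit 40, nat_lit 40, nat_lit 80, nat_lit 32, nat_lit 483, nat_lit 250, nat_lit 11]⟩,
 ⟨nat_lit 2236, nat_lit 2739, ⟨.ofNat (nat_lit 699600), .ofNat (nat_lit 729131), .ofNat (nat_lit 722017), .ofNat (nat_lit 751548), .ofNat (nat_lit 693819), .ofNat (nat_lit 722327), .ofNat (nat_lit 716594), .ofNat (nat_lit 745101)⟩, ⟨.ofNat (nat_lit 143475), .ofNat (nat_lit 297035), .ofNat (nat_lit 188310), .ofNat (nat_lit 341870), .ofNat (nat_lit 146758), .ofNat (nat_lit 294998), .ofNat (nat_lit 192306), .ofNat (nat_lit 340547)⟩⟩, [⟨nat_lit 13, nat_lit 49, nat_lit 80, nat_lit 100, nat_lit 325731263⟩, ⟨nat_lit 16, nat_lit 50, nat_lit 100, nat_lit 74, nat_lit 219076206⟩, ⟨nat_lit 22, nat_lit 81, nat_lit 92, nat_lit 100, nat_lit 21298178⟩]⟩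
noncomputable def p104_l143 : Lf2 := ⟨nat_lit 0, nat_lit 20, [nat_lit 5, nat_lit 5, nat_lit 5, nat_lit 20], false, nat_lit 80, nat_lit 164, nat_lit 0, nat_lit 360, ⟨nat_lit 131, nat_lit 869, nat_lit 0, nat_lit 6, nat_lit 255, nat_lit 869, nat_lit 92, nat_lit 0, nat_lit 0, nat_lit 0, nat_lit 0, nat_lit 0, nat_lit 44499611, nat_lit 18713343, nat_lit 3787046, nat_lit 4173835, true, true⟩,
 nat_lit 3121, nat_lit 0, nat_lit 0, nat_lit 0, nat_lit 2916, nat_lit 1337, nat_lit 23, nat_lit 0, nat_lit 0, nat_lit 91, nat_lit 0, nat_lit 0, nat_lit 0, nat_lit 0, nat_lit 0, nat_lit 347600, nat_lit 0, nat_lit 0, [(nat_lit 28, [(nat_lit 1, nat_lit 869)])],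
 ⟨p104_k36, nat_lit 0, nat_lit 0, nat_lit 253, nat_lit 0, nat_lit 464572, [nat_lit 729092400, nat_lit 712193200, nat_lit 938672000], [], [nat_lit 23789240190, nat_lit 24280481026, nat_lit 26462220477, nat_lit 26936660186, nat_lit 24589864183, nat_lit 25036618081, nat_lit 27061726214, nat_lit 27477504189], nat_lit 1271250, nat_lit 1271250, nat_lit 1271250, nat_lit 1271250, nat_lit 490000, nat_lit 1133651, [nat_lit 230000, nat_lit 780000, nat_lit 1435000], [nat_lit 20, nat_lit 40, nat_lit 40, nat_lit 80, nat_lit 16, nat_lit 260, nat_lit 50, nat_lit 8]⟩, ⟨p104_k28, nat_lit 0, nat_lit 0, nat_lit 918, nat_lit 0, nat_lit 1249205, [nat_lit 818750000, nat_lit 1289302000, nat_lit 1841598000], [], [nat_lit 5784957476, nat_lit 5745632052, nat_lit 5904453642, nat_lit 5895308889, nat_lit 4882226828, nat_lit 4629562444, nat_lit 4776325941, nat_lit 4766700387], nat_lit 1271250, nat_lit 1271250, nat_lit 1271250, nat_lit 1271250,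 nat_lit 0, nat_lit 2542500, [nat_lit 1412500, nat_lit 1271250, nat_lit 1271250], [nat_lit 60, nat_lit 40, nat_lit 40, nat_lit 80, nat_lit 32, nat_lit 483, nat_lit 250, nat_lit 11]⟩,
 ⟨nat_lit 1581, nat_lit 2237, ⟨.ofNat (nat_lit 557014), .ofNat (nat_lit 676747), .ofNat (nat_lit 602558), .ofNat (nat_lit 722295), .ofNat (nat_lit 554634), .ofNat (nat_lit 669369), .ofNat (nat_lit 601260), .ofNat (nat_lit 715999)⟩, ⟨.ofNat (nat_lit 146758), .ofNat (nat_lit 266490), .ofNat (nat_lit 192306), .ofNat (nat_lit 312039), .ofNat (nat_lit 149571), .ofNat (nat_lit 264306), .ofNat (nat_lit 196201), .ofNat (nat_lit 310936)⟩⟩, [⟨nat_lit 13, nat_lit 38, nat_lit 89, nat_lit 100, nat_lit 244796463⟩, ⟨nat_lit 16, nat_lit 41, nat_lit 100, nat_lit 77, nat_lit 190094373⟩, ⟨nat_lit 19, nat_lit 100, nat_lit 77, nat_lit 72, nat_lit 13802854⟩]⟩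
noncomputable def p104_l144 : Lf2 := ⟨nat_lit 0, nat_lit 20, [nat_lit 5, nat_lit 5, nat_lit 5, nat_lit 20], false, nat_lit 80, nat_lit 136, nat_lit 0, nat_lit 360, ⟨nat_lit 121, nat_lit 879, nat_lit 0, nat_lit 6, nat_lit 246, nat_lit 879, nat_lit 84, nat_lit 0, nat_lit 0, nat_lit 0, nat_lit 0, nat_lit 0, nat_lit 45717013, nat_lit 17923865, nat_lit 3359122, nat_lit 4022072, true, true⟩,
 nat_lit 2863, nat_lit 0, nat_lit 0, nat_lit 0, nat_lit 2768, nat_lit 1227, nat_lit 20, nat_lit 0, nat_lit 0, nat_lit 80, nat_lit 0, nat_lit 0, nat_lit 0, nat_lit 0, nat_lit 0, nat_lit 351600, nat_lit 0, nat_lit 0, [(nat_lit 28, [(nat_lit 1, nat_lit 879)])],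
 ⟨p104_k37, nat_lit 0, nat_lit 0, nat_lit 245, nat_lit 0, nat_lit 498506, [nat_lit 726688400, nat_lit 682621201, nat_lit 740938400], [], [nat_lit 23760760501, nat_lit 24268871485, nat_lit 25608193484, nat_lit 26259500576, nat_lit 24312016785, nat_lit 24789505322, nat_lit 26073299158, nat_lit 26537806947], nat_lit 1271250, nat_lit 1271250, nat_lit 1271250, nat_lit 1271250, nat_lit 490000, nat_lit 904401, [nat_lit 230000, nat_lit 780000, nat_lit 1100000], [nat_lit 35, nat_lit 40, nat_lit 40, nat_lit 80, nat_lit 22, nat_lit 249, nat_lit 40, nat_lit 10]⟩, ⟨p104_k28, nat_lit 0, nat_lit 0, nat_lit 976, nat_lit 0, nat_lit 1395829, [nat_lit 756250000, nat_lit 1190882000, nat_lit 1701018000], [], [nat_lit 5540669348, nat_lit 5477665820, nat_lit 5512307220, nat_lit 5439707268, nat_lit 4513389028, nat_lit 4351931558, nat_lit 4418570847, nat_lit 4357127647], nat_lit 1271250, nat_lit 1271250, nat_lit 1271250, nat_lit 1271250,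 nat_lit 0, nat_lit 2542500, [nat_lit 1412500, nat_lit 1271250, nat_lit 1271250], [nat_lit 60, nat_lit 40, nat_lit 40, nat_lit 80, nat_lit 32, nat_lit 456, nat_lit 225, nat_lit 10]⟩,
 ⟨nat_lit 0, nat_lit 1582, ⟨.ofNat (nat_lit 554633), .ofNat (nat_lit 636584), .ofNat (nat_lit 601257), .ofNat (nat_lit 683216), .ofNat (nat_lit 549998), .ofNat (nat_lit 624995), .ofNat (nat_lit 599992), .ofNat (nat_lit 674997)⟩, ⟨.ofNat (nat_lit 149570), .ofNat (nat_lit 226057), .ofNat (nat_lit 196201), .ofNat (nat_lit 272689), .ofNat (nat_lit 149998), .ofNat (nat_lit 219995), .ofNat (nat_lit 199999), .ofNat (nat_lit 269997)⟩⟩, [⟨nat_lit 13, nat_lit 32, nat_lit 89, nat_lit 100, nat_lit 301088508⟩, ⟨nat_lit 16, nat_lit 33, nat_lit 100, nat_lit 84, nat_lit 263282515⟩, ⟨nat_lit 19, nat_lit 100, nat_lit 77, nat_lit 72, nat_lit 12111524⟩]⟩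
noncomputable def b_V_900_500_10_5 : St := ⟨true, nat_lit 1, nat_lit 1, nat_lit 1, nat_lit 80, nat_lit 360, nat_lit 400, nat_lit 200, nat_lit 240, nat_lit 80, nat_lit 352, nat_lit 40, nat_lit 80, nat_lit 0, nat_lit 200, nat_lit 0, nat_lit 360, nat_lit 40, nat_lit 80, nat_lit 0, nat_lit 0, nat_lit 0, nat_lit 0⟩
theorem d_V_900_500_10_5 (h : EB TB.env) : Dead b_V_900_500_10_5 := chkB_sound0 h (T :=
(.spl (nat_lit 2) (nat_lit 240)
(.spl (nat_lit 4) (nat_lit 80)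
(.spl (nat_lit 0) (nat_lit 380)
(.leaf p104_l122)
(.trZ (nat_lit 0) (nat_lit 100) (nat_lit 44) (nat_lit 90) (nat_lit 112) (.spl (nat_lit 0) (nat_lit 390)
(.leaf p104_l123)
(.trZ (nat_lit 0) (nat_lit 100) (nat_lit 31) (nat_lit 95) (nat_lit 136) (.trZ (nat_lit 3) (nat_lit 100) (nat_lit 52) (nat_lit 53) (nat_lit 8) (.leaf p104_l124))))))
(.leaf p104_l125))
(.spl (nat_lit 4) (nat_lit 80)
(.trX (nat_lit 22) (nat_lit 100) (nat_lit 76) (nat_lit 82) (nat_lit 336) (.spl (nat_lit 0) (nat_lit 380)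
(.spl (nat_lit 2) (nat_lit 320)
(.spl (nat_lit 1) (nat_lit 220)
(.spl (nat_lit 2) (nat_lit 280)
(.leaf p104_l126)
(.trX (nat_lit 22) (nat_lit 100) (nat_lit 95) (nat_lit 87) (nat_lit 300) (.leaf p104_l127)))
(.spl (nat_lit 2) (nat_lit 280)
(.leaf p104_l128)
(.trX (nat_lit 22) (nat_lit 100) (nat_lit 95) (nat_lit 87) (nat_lit 300) (.spl (nat_lit 0) (nat_lit 370)
(.leaf p104_l129)
(.leaf p104_l130)))))
(.trX (nat_lit 22) (nat_lit 83) (nat_lit 100) (nat_lit 83) (nat_lit 260) (.spl (nat_lit 1) (nat_lit 220)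
(.trX (nat_lit 13) (nat_lit 60) (nat_lit 74) (nat_lit 100) (nat_lit 336) (.leaf p104_l131))
(.leaf p104_l132))))
(.trX (nat_lit 13) (nat_lit 44) (nat_lit 81) (nat_lit 100) (nat_lit 324) (.spl (nat_lit 1) (nat_lit 220)
(.trX (nat_lit 13) (nat_lit 44) (nat_lit 86) (nat_lit 100) (nat_lit 308) (.leaf p104_l133))
(.spl (nat_lit 0) (nat_lit 390)
(.leaf p104_l134)
(.trX (nat_lit 13) (nat_lit 32) (nat_lit 89) (nat_lit 100) (nat_lit 300) (.trZ (nat_lit 3) (nat_lit 100) (nat_lit 52) (nat_lit 53) (nat_lit 8) (.leaf p104_l135))))))))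
(.spl (nat_lit 0) (nat_lit 380)
(.spl (nat_lit 1) (nat_lit 220)
(.trX (nat_lit 13) (nat_lit 60) (nat_lit 74) (nat_lit 100) (nat_lit 336) (.spl (nat_lit 3) (nat_lit 60)
(.trX (nat_lit 16) (nat_lit 61) (nat_lit 100) (nat_lit 72) (nat_lit 176) (.trX (nat_lit 19) (nat_lit 100) (nat_lit 70) (nat_lit 71) (nat_lit 344) (.leaf p104_l136)))
(.spl (nat_lit 0) (nat_lit 370)
(.leaf p104_l137)
(.trX (nat_lit 13) (nat_lit 53) (nat_lit 80) (nat_lit 100) (nat_lit 324) (.trX (nat_lit 16) (nat_lit 53) (nat_lit 100) (nat_lit 80) (nat_lit 184) (.leaf p104_l138))))))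
(.trX (nat_lit 19) (nat_lit 100) (nat_lit 68) (nat_lit 80) (nat_lit 348) (.spl (nat_lit 2) (nat_lit 320)
(.spl (nat_lit 0) (nat_lit 370)
(.leaf p104_l139)
(.trX (nat_lit 16) (nat_lit 53) (nat_lit 100) (nat_lit 80) (nat_lit 184) (.leaf p104_l140)))
(.spl (nat_lit 0) (nat_lit 370)
(.leaf p104_l141)
(.trX (nat_lit 13) (nat_lit 54) (nat_lit 74) (nat_lit 100) (nat_lit 340) (.trX (nat_lit 16) (nat_lit 53) (nat_lit 100) (nat_lit 80) (nat_lit 184) (.leaf p104_l142)))))))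
(.trX (nat_lit 13) (nat_lit 44) (nat_lit 81) (nat_lit 100) (nat_lit 324) (.trX (nat_lit 16) (nat_lit 44) (nat_lit 100) (nat_lit 82) (nat_lit 164) (.spl (nat_lit 0) (nat_lit 390)
(.leaf p104_l143)
(.trX (nat_lit 13) (nat_lit 32) (nat_lit 89) (nat_lit 100) (nat_lit 300) (.trX (nat_lit 16) (nat_lit 33) (nat_lit 100) (nat_lit 84) (nat_lit 136) (.leaf p104_l144)))))))))) (by decide +kernel)
noncomputable def p104_l145 : Lf2 := ⟨nat_lit 0, nat_lit 20, [nat_lit 5, nat_lit 5, nat_lit 5, nat_lit 20], true, nat_lit 0, nat_lit 200, nat_lit 0, nat_lit 360, ⟨nat_lit 0, nat_lit 1000, nat_lit 0, nat_lit 5, nat_lit 218, nat_lit 1000, nat_lit 69, nat_lit 0, nat_lit 0, nat_lit 0, nat_lit 0, nat_lit 0, nat_lit 0, nat_lit 0, nat_lit 0, nat_lit 5000000, false, true⟩,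
 nat_lit 0, nat_lit 3490, nat_lit 0, nat_lit 0, nat_lit 3039, nat_lit 0, nat_lit 327, nat_lit 0, nat_lit 0, nat_lit 0, nat_lit 0, nat_lit 0, nat_lit 0, nat_lit 0, nat_lit 0, nat_lit 254200, nat_lit 0, nat_lit 0, [(nat_lit 25, [(nat_lit 0, nat_lit 972), (nat_lit 1, nat_lit 28)])],
 ⟨p104_k27, nat_lit 0, nat_lit 0, nat_lit 433, nat_lit 0, nat_lit 690944, [nat_lit 766262400, nat_lit 1358533334, nat_lit 2084321600], [], [nat_lit 23267857380, nat_lit 24044605804, nat_lit 29381073051, nat_lit 30143328123, nat_lit 24521828946, nat_lit 25450903677, nat_lit 31739891210, nat_lit 30489773640], nat_lit 1271250, nat_lit 1271250, nat_lit 490000, nat_lit 2615000, nat_lit 0, nat_lit 1412500, [nat_lit 230000, nat_lit 780000, nat_lit 1435000], [nat_lit 20, nat_lit 40, nat_lit 40, nat_lit 80, nat_lit 16, nat_lit 373, nat_lit 150, nat_lit 14]⟩, C1.Rw.none,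
 ⟨nat_lit 2236, nat_lit 3163, ⟨.ofNat (nat_lit 316827), .ofNat (nat_lit 731621), .ofNat (nat_lit 361011), .ofNat (nat_lit 775931), .ofNat (nat_lit 328641), .ofNat (nat_lit 716658), .ofNat (nat_lit 374063), .ofNat (nat_lit 762206)⟩, ⟨.ofNat (nat_lit 0), .ofNat (nat_lit 322759), .ofNat (nat_lit 0), .ofNat (nat_lit 367069), .ofNat (nat_lit 0), .ofNat (nat_lit 317804), .ofNat (nat_lit 0), .ofNat (nat_lit 363353)⟩⟩, [⟨nat_lit 13, nat_lit 61, nat_lit 68, nat_lit 100, nat_lit 265427199⟩, ⟨nat_lit 4, nat_lit 100, nat_lit 54, nat_lit 73, nat_lit 297788883⟩]⟩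
noncomputable def p104_l146 : Lf2 := ⟨nat_lit 0, nat_lit 20, [nat_lit 5, nat_lit 5, nat_lit 5, nat_lit 20], true, nat_lit 0, nat_lit 164, nat_lit 0, nat_lit 360, ⟨nat_lit 0, nat_lit 1000, nat_lit 0, nat_lit 5, nat_lit 218, nat_lit 1000, nat_lit 57, nat_lit 0, nat_lit 0, nat_lit 0, nat_lit 0, nat_lit 0, nat_lit 0, nat_lit 0, nat_lit 0, nat_lit 5000000, false, true⟩,
 nat_lit 0, nat_lit 2939, nat_lit 0, nat_lit 0, nat_lit 2746, nat_lit 0, nat_lit 0, nat_lit 0, nat_lit 0, nat_lit 0, nat_lit 0, nat_lit 0, nat_lit 0, nat_lit 0, nat_lit 0, nat_lit 400000, nat_lit 0, nat_lit 0, [(nat_lit 28, [(nat_lit 1, nat_lit 1000)])],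
 ⟨p104_k36, nat_lit 0, nat_lit 0, nat_lit 462, nat_lit 0, nat_lit 796108, [nat_lit 697600000, nat_lit 324800000, nat_lit 138000000], [], [nat_lit 22989246595, nat_lit 24047714007, nat_lit 28047325722, nat_lit 29150919962, nat_lit 23992785770, nat_lit 24893293482, nat_lit 28537214080, nat_lit 29343611641], nat_lit 1271250, nat_lit 1271250, nat_lit 719601, nat_lit 2439450, nat_lit 0, nat_lit 1133651, [nat_lit 230000, nat_lit 780000, nat_lit 1435000], [nat_lit 20, nat_lit 40, nat_lit 40, nat_lit 80, nat_lit 16, nat_lit 345, nat_lit 125, nat_lit 13]⟩, C1.Rw.none,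
 ⟨nat_lit 0, nat_lit 2237, ⟨.ofNat (nat_lit 370513), .ofNat (nat_lit 676741), .ofNat (nat_lit 414208), .ofNat (nat_lit 722292), .ofNat (nat_lit 385947), .ofNat (nat_lit 654993), .ofNat (nat_lit 434094), .ofNat (nat_lit 704996)⟩, ⟨.ofNat (nat_lit 0), .ofNat (nat_lit 266484), .ofNat (nat_lit 0), .ofNat (nat_lit 312035), .ofNat (nat_lit 0), .ofNat (nat_lit 254993), .ofNat (nat_lit 0), .ofNat (nat_lit 304995)⟩⟩, [⟨nat_lit 13, nat_lit 44, nat_lit 81, nat_lit 100, nat_lit 353356105⟩, ⟨nat_lit 4, nat_lit 100, nat_lit 35, nat_lit 80, nat_lit 265981982⟩]⟩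
noncomputable def p104_l147 : Lf2 := ⟨nat_lit 0, nat_lit 20, [nat_lit 5, nat_lit 5, nat_lit 5, nat_lit 20], false, nat_lit 0, nat_lit 200, nat_lit 0, nat_lit 360, ⟨nat_lit 0, nat_lit 1000, nat_lit 0, nat_lit 5, nat_lit 217, nat_lit 1000, nat_lit 67, nat_lit 0, nat_lit 0, nat_lit 0, nat_lit 0, nat_lit 0, nat_lit 0, nat_lit 0, nat_lit 0, nat_lit 5000000, false, true⟩,
 nat_lit 0, nat_lit 4093, nat_lit 0, nat_lit 0, nat_lit 3564, nat_lit 0, nat_lit 147, nat_lit 0, nat_lit 0, nat_lit 0, nat_lit 0, nat_lit 0, nat_lit 0, nat_lit 0, nat_lit 0, nat_lit 250000, nat_lit 0, nat_lit 0, [(nat_lit 25, [(nat_lit 0, nat_lit 1000)]), (nat_lit 28, [(nat_lit 0, nat_lit 1000)])],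
 ⟨p104_k27, nat_lit 0, nat_lit 0, nat_lit 403, nat_lit 0, nat_lit 564556, [nat_lit 781600001, nat_lit 1368800000, nat_lit 2118000000], [], [nat_lit 23032427715, nat_lit 25860835728, nat_lit 30269452407, nat_lit 32954751428, nat_lit 23580047535, nat_lit 25236929015, nat_lit 32047184772, nat_lit 30443838333], nat_lit 1271250, nat_lit 1271250, nat_lit 490000, nat_lit 2615000, nat_lit 0, nat_lit 1412500, [nat_lit 230000, nat_lit 780000, nat_lit 1435000], [nat_lit 20, nat_lit 40, nat_lit 40, nat_lit 80, nat_lit 16, nat_lit 373, nat_lit 150, nat_lit 14]⟩, ⟨p104_k28, nat_lit 0, nat_lit 0, nat_lit 1054, nat_lit 0, nat_lit 1395829, [nat_lit 0, nat_lit 0, nat_lit 0], [], [nat_lit 0, nat_lit 0, nat_lit 0, nat_lit 0, nat_lit 0, nat_lit 0, nat_lit 0, nat_lit 0], nat_lit 1271250, nat_lit 1271250, nat_lit 490000, nat_lit 2615000, nat_lit 0, nat_lit 2542500, [nat_lit 1412500, nat_lit 1271250, nat_lit 1271250], [nat_lit 60, nat_lit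 40, nat_lit 40, nat_lit 80, nat_lit 32, nat_lit 483, nat_lit 250, nat_lit 11]⟩,
 ⟨nat_lit 0, nat_lit 3163, ⟨.ofNat (nat_lit 309443), .ofNat (nat_lit 731616), .ofNat (nat_lit 351143), .ofNat (nat_lit 775928), .ofNat (nat_lit 342303), .ofNat (nat_lit 689994), .ofNat (nat_lit 389693), .ofNat (nat_lit 739996)⟩, ⟨.ofNat (nat_lit 0), .ofNat (nat_lit 322753), .ofNat (nat_lit 0), .ofNat (nat_lit 367065), .ofNat (nat_lit 0), .ofNat (nat_lit 299993), .ofNat (nat_lit 0), .ofNat (nat_lit 349995)⟩⟩, [⟨nat_lit 13, nat_lit 61, nat_lit 68, nat_lit 100, nat_lit 312534658⟩, ⟨nat_lit 4, nat_lit 100, nat_lit 46, nat_lit 75, nat_lit 233850756⟩]⟩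
noncomputable def b_V_900_500_10_6 : St := ⟨true, nat_lit 1, nat_lit 2, nat_lit 2, nat_lit 80, nat_lit 360, nat_lit 400, nat_lit 200, nat_lit 240, nat_lit 80, nat_lit 352, nat_lit 40, nat_lit 80, nat_lit 0, nat_lit 200, nat_lit 0, nat_lit 360, nat_lit 40, nat_lit 80, nat_lit 0, nat_lit 0, nat_lit 0, nat_lit 0⟩
theorem d_V_900_500_10_6 (h : EB TB.env) : Dead b_V_900_500_10_6 := chkB_sound0 h (T :=
(.st (nat_lit 1)
(.spl (nat_lit 0) (nat_lit 380)
(.leaf p104_l145)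
(.trZ (nat_lit 0) (nat_lit 100) (nat_lit 44) (nat_lit 90) (nat_lit 112) (.trX (nat_lit 13) (nat_lit 44) (nat_lit 81) (nat_lit 100) (nat_lit 324) (.trX (nat_lit 16) (nat_lit 44) (nat_lit 100) (nat_lit 82) (nat_lit 164) (.leaf p104_l146)))))
(.leaf p104_l147))) (by decide +kernel)
noncomputable def p104_l148 : Lf2 := ⟨nat_lit 0, nat_lit 20, [nat_lit 5, nat_lit 5, nat_lit 5, nat_lit 20], false, nat_lit 0, nat_lit 200, nat_lit 0, nat_lit 360, ⟨nat_lit 139, nat_lit 0, nat_lit 861, nat_lit 5, nat_lit 185, nat_lit 861, nat_lit 67, nat_lit 861, nat_lit 41667, nat_lit 265, nat_lit 417, nat_lit 210, nat_lit 55148891, nat_lit 0, nat_lit 0, nat_lit 2333162, false, false⟩,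
 nat_lit 0, nat_lit 0, nat_lit 0, nat_lit 2814, nat_lit 2439, nat_lit 2991, nat_lit 0, nat_lit 0, nat_lit 0, nat_lit 0, nat_lit 0, nat_lit 0, nat_lit 0, nat_lit 0, nat_lit 37, nat_lit 215250, nat_lit 0, nat_lit 0, [(nat_lit 25, [(nat_lit 4, nat_lit 861)]), (nat_lit 28, [(nat_lit 4, nat_lit 861)])],
 ⟨p104_k27, nat_lit 0, nat_lit 0, nat_lit 203, nat_lit 0, nat_lit 0, [nat_lit 934119601, nat_lit 588630801, nat_lit 37495599], [], [nat_lit 19106325715, nat_lit 22387227228, nat_lit 22045090018, nat_lit 24922052688, nat_lit 20569165905, nat_lit 22772394647, nat_lit 23478884937, nat_lit 25630945817], nat_lit 0, nat_lit 0, nat_lit 0, nat_lit 0, nat_lit 0, nat_lit 0, [], [nat_lit 20, nat_lit 40, nat_lit 40, nat_lit 80, nat_lit 16, nat_lit 345, nat_lit 125, nat_lit 13]⟩, ⟨p104_k28, nat_lit 0, nat_lit 0, nat_lit 381, nat_lit 0, nat_lit 0, [nat_lit 868750000, nat_lit 1368038000, nat_lit 1954062000], [], [nat_lit 8061323020,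 nat_lit 8095049524, nat_lit 6828408324, nat_lit 6769591560, nat_lit 6160032170, nat_lit 6192726866, nat_lit 4921957208, nat_lit 4869400614], nat_lit 0, nat_lit 0, nat_lit 0, nat_lit 0, nat_lit 0, nat_lit 0, [], [nat_lit 60, nat_lit 40, nat_lit 40, nat_lit 80, nat_lit 32, nat_lit 456, nat_lit 225, nat_lit 11]⟩,
 ⟨nat_lit 0, nat_lit 3163, ⟨.ofNat (nat_lit 309443), .ofNat (nat_lit 560951), .ofNat (nat_lit 351143), .ofNat (nat_lit 605128), .ofNat (nat_lit 342303), .ofNat (nat_lit 549998), .ofNat (nat_lit 389693), .ofNat (nat_lit 599865)⟩, ⟨.ofNat (nat_lit 0), .ofNat (nat_lit 322753), .ofNat (nat_lit 0), .ofNat (nat_lit 367065), .ofNat (nat_lit 0), .ofNat (nat_lit 299993), .ofNat (nat_lit 0), .ofNat (nat_lit 349995)⟩⟩, [⟨nat_lit 0, nat_lit 100, nat_lit 44, nat_lit 94, nat_lit 56763380⟩, ⟨nat_lit 4, nat_lit 100, nat_lit 46, nat_lit 75, nat_lit 28123157⟩, ⟨nat_lit 7, nat_lit 77, nat_lit 100, nat_lit 72, nat_lit 900090⟩]⟩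
noncomputable def p104_l149 : Lf2 := ⟨nat_lit 0, nat_lit 20, [nat_lit 5, nat_lit 5, nat_lit 5, nat_lit 20], false, nat_lit 0, nat_lit 200, nat_lit 0, nat_lit 360, ⟨nat_lit 1000, nat_lit 0, nat_lit 0, nat_lit 0, nat_lit 0, nat_lit 0, nat_lit 0, nat_lit 0, nat_lit 0, nat_lit 0, nat_lit 0, nat_lit 0, nat_lit 0, nat_lit 0, nat_lit 0, nat_lit 0, false, false⟩,
 nat_lit 0, nat_lit 0, nat_lit 0, nat_lit 2847, nat_lit 7295, nat_lit 17302, nat_lit 0, nat_lit 0, nat_lit 0, nat_lit 0, nat_lit 0, nat_lit 0, nat_lit 0, nat_lit 0, nat_lit 0, nat_lit 0, nat_lit 0, nat_lit 0, [],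
 ⟨p104_k25, nat_lit 0, nat_lit 0, nat_lit 187, nat_lit 0, nat_lit 0, [nat_lit 938000000, nat_lit 6250000000], [], [nat_lit 32406573440, nat_lit 37080466640, nat_lit 40085853692, nat_lit 44099191717, nat_lit 28052819410, nat_lit 30723347660, nat_lit 32193658878, nat_lit 35394335084], nat_lit 0, nat_lit 0, nat_lit 0, nat_lit 0, nat_lit 0, nat_lit 0, [], [nat_lit 88, nat_lit 40, nat_lit 40, nat_lit 80, nat_lit 89, nat_lit 260, nat_lit 50, nat_lit 9]⟩, ⟨p104_k26, nat_lit 0, nat_lit 0, nat_lit 255, nat_lit 0, nat_lit 0, [nat_lit 6250000000, nat_lit 14058000000], [], [nat_lit 44517894576, nat_lit 46260131232, nat_lit 56211442673, nat_lit 56627124749, nat_lit 36897770912, nat_lit 36717758460, nat_lit 42479498160, nat_lit 42888874845], nat_lit 0, nat_lit 0, nat_lit 0, nat_lit 0, nat_lit 0, nat_lit 0, [], [nat_lit 149, nat_lit 40, nat_lit 40, nat_lit 80, nat_lit 68, nat_lit 483, nat_lit 250, nat_lit 11]⟩,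
 zbF0, [⟨nat_lit 13, nat_lit 44, nat_lit 86, nat_lit 100, nat_lit 255568135⟩, ⟨nat_lit 10, nat_lit 61, nat_lit 89, nat_lit 100, nat_lit 5088380⟩]⟩
noncomputable def b_V_900_500_10_7 : St := ⟨true, nat_lit 0, nat_lit 0, nat_lit 1, nat_lit 80, nat_lit 360, nat_lit 400, nat_lit 200, nat_lit 240, nat_lit 80, nat_lit 352, nat_lit 40, nat_lit 80, nat_lit 0, nat_lit 200, nat_lit 0, nat_lit 360, nat_lit 80, nat_lit 120, nat_lit 0, nat_lit 0, nat_lit 0, nat_lit 0⟩
theorem d_V_900_500_10_7 (h : EB TB.env) : Dead b_V_900_500_10_7 := chkB_sound0 h (T :=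
(.spl (nat_lit 2) (nat_lit 240)
(.leaf p104_l148)
(.leaf p104_l149))) (by decide +kernel)
noncomputable def p104_l150 : Lf2 := ⟨nat_lit 0, nat_lit 20, [nat_lit 5, nat_lit 5, nat_lit 5, nat_lit 20], true, nat_lit 0, nat_lit 200, nat_lit 0, nat_lit 360, ⟨nat_lit 0, nat_lit 322, nat_lit 678, nat_lit 5, nat_lit 185, nat_lit 1000, nat_lit 69, nat_lit 678, nat_lit 43350, nat_lit 266, nat_lit 417, nat_lit 210, nat_lit 55160648, nat_lit 11839352, nat_lit 0, nat_lit 2331813, false, false⟩,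
 nat_lit 0, nat_lit 0, nat_lit 0, nat_lit 2905, nat_lit 2543, nat_lit 0, nat_lit 0, nat_lit 0, nat_lit 0, nat_lit 0, nat_lit 0, nat_lit 0, nat_lit 0, nat_lit 0, nat_lit 29, nat_lit 250000, nat_lit 0, nat_lit 0, [(nat_lit 25, [(nat_lit 0, nat_lit 322), (nat_lit 4, nat_lit 678)])],
 ⟨p104_k27, nat_lit 0, nat_lit 0, nat_lit 160, nat_lit 0, nat_lit 0, [nat_lit 855592000, nat_lit 543408001, nat_lit 23873599], [], [nat_lit 18905540728, nat_lit 20806941882, nat_lit 22184105244, nat_lit 23683276150, nat_lit 20335109273, nat_lit 21489871529, nat_lit 23203899445, nat_lit 24158763164], nat_lit 0, nat_lit 0, nat_lit 0, nat_lit 0, nat_lit 0, nat_lit 0, [], [nat_lit 20, nat_lit 40, nat_lit 40, nat_lit 80, nat_lit 16, nat_lit 345, nat_lit 125, nat_lit 13]⟩, C1.Rw.none,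
 ⟨nat_lit 2236, nat_lit 3163, ⟨.ofNat (nat_lit 316827), .ofNat (nat_lit 560952), .ofNat (nat_lit 361011), .ofNat (nat_lit 605240), .ofNat (nat_lit 328641), .ofNat (nat_lit 557014), .ofNat (nat_lit 374063), .ofNat (nat_lit 602541)⟩, ⟨.ofNat (nat_lit 0), .ofNat (nat_lit 322759), .ofNat (nat_lit 0), .ofNat (nat_lit 367069), .ofNat (nat_lit 0), .ofNat (nat_lit 317804), .ofNat (nat_lit 0), .ofNat (nat_lit 363353)⟩⟩, []⟩
noncomputable def p104_l151 : Lf2 := ⟨nat_lit 0, nat_lit 20, [nat_lit 5, nat_lit 5, nat_lit 5, nat_lit 20], true, nat_lit 0, nat_lit 164, nat_lit 0, nat_lit 360, ⟨nat_lit 0, nat_lit 334, nat_lit 666, nat_lit 5, nat_lit 196, nat_lit 1000, nat_lit 57, nat_lit 666, nat_lit 30817, nat_lit 258, nat_lit 267, nat_lit 211, nat_lit 54058472, nat_lit 12941528, nat_lit 0, nat_lit 2453841, false, false⟩,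
 nat_lit 0, nat_lit 0, nat_lit 0, nat_lit 2650, nat_lit 2248, nat_lit 0, nat_lit 0, nat_lit 0, nat_lit 0, nat_lit 0, nat_lit 0, nat_lit 0, nat_lit 0, nat_lit 0, nat_lit 53, nat_lit 250000, nat_lit 0, nat_lit 0, [(nat_lit 28, [(nat_lit 0, nat_lit 334), (nat_lit 4, nat_lit 666)])],
 ⟨p104_k31, nat_lit 0, nat_lit 0, nat_lit 187, nat_lit 0, nat_lit 0, [nat_lit 980280000, nat_lit 109313600], [], [nat_lit 20501388477, nat_lit 21827210240, nat_lit 23339917424, nat_lit 24443828416, nat_lit 21479497743, nat_lit 22570436331, nat_lit 24047317026, nat_lit 25004347685], nat_lit 0, nat_lit 0, nat_lit 0, nat_lit 0, nat_lit 0, nat_lit 0, [], [nat_lit 88, nat_lit 40, nat_lit 40, nat_lit 80, nat_lit 89, nat_lit 345, nat_lit 125, nat_lit 13]⟩, C1.Rw.none,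
 ⟨nat_lit 0, nat_lit 2237, ⟨.ofNat (nat_lit 370513), .ofNat (nat_lit 557013), .ofNat (nat_lit 414208), .ofNat (nat_lit 602531), .ofNat (nat_lit 385947), .ofNat (nat_lit 549998), .ofNat (nat_lit 434094), .ofNat (nat_lit 599967)⟩, ⟨.ofNat (nat_lit 0), .ofNat (nat_lit 266484), .ofNat (nat_lit 0), .ofNat (nat_lit 312035), .ofNat (nat_lit 0), .ofNat (nat_lit 254993), .ofNat (nat_lit 0), .ofNat (nat_lit 304995)⟩⟩, []⟩
noncomputable def b_V_900_500_10_8 : St := ⟨true, nat_lit 0, nat_lit 1, nat_lit 1, nat_lit 80, nat_lit 360, nat_lit 400, nat_lit 200, nat_lit 240, nat_lit 80, nat_lit 240, nat_lit 40, nat_lit 80, nat_lit 0, nat_lit 200, nat_lit 0, nat_lit 360, nat_lit 80, nat_lit 120, nat_lit 0, nat_lit 0, nat_lit 0, nat_lit 0⟩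
theorem d_V_900_500_10_8 (h : EB TB.env) : Dead b_V_900_500_10_8 := chkB_sound0 h (T :=
(.spl (nat_lit 0) (nat_lit 380)
(.leaf p104_l150)
(.trZ (nat_lit 0) (nat_lit 100) (nat_lit 44) (nat_lit 90) (nat_lit 112) (.trX (nat_lit 16) (nat_lit 44) (nat_lit 100) (nat_lit 82) (nat_lit 164) (.leaf p104_l151))))) (by decide +kernel)

end B2
end Pool.Agent.Lib.MP_6947cd_al
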