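import Pool.Agent.Lib.MP_6947cd_al.ZB.Pre

/-!
Problem MP_6947cd_al (Chollet).  Case B, second entry in [2/5, 17/20]: certificates of the tree, part P105 (generated).
-/

set_option autoImplicit false
set_option linter.all false

namespace Pool.Agent.Lib.MP_6947cd_al
namespace B2

open Ent Fr B1 PkA

noncomputable def p105_k0 : C1.Kn := ⟨[nat_lit 20, nat_lit 60, nat_lit 100], [nat_lit 0, nat_lit 0, nat_lit 2559], [(nat_lit 0, nat_lit 0, nat_lit 0), (nat_lit 0, nat_lit 0, nat_lit 0), (nat_lit 1000, nat_lit 600, nat_lit 787)], (nat_lit 60, nat_lit 100, nat_lit 80)⟩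
noncomputable def p105_k1 : C1.Kn := ⟨[nat_lit 20, nat_lit 100], [nat_lit 0, nat_lit 2826], [(nat_lit 0, nat_lit 0, nat_lit 0), (nat_lit 1000, nat_lit 558, nat_lit 551)], (nat_lit 44, nat_lit 100, nat_lit 82)⟩
noncomputable def p105_k2 : C1.Kn := ⟨[nat_lit 20, nat_lit 60, nat_lit 100], [nat_lit 0, nat_lit 698, nat_lit 3028], [(nat_lit 0, nat_lit 0, nat_lit 0), (nat_lit 1000, nat_lit 782, nat_lit 272), (nat_lit 1000, nat_lit 527, nat_lit 841)], (nat_lit 53, nat_lit 100, nat_lit 80)⟩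
noncomputable def p105_k3 : C1.Kn := ⟨[nat_lit 100, nat_lit 140, nat_lit 180], [nat_lit 0, nat_lit 508, nat_lit 2854], [(nat_lit 0, nat_lit 0, nat_lit 0), (nat_lit 1000, nat_lit 1000, nat_lit 198), (nat_lit 777, nat_lit 1000, nat_lit 712)], (nat_lit 100, nat_lit 68, nat_lit 80)⟩
noncomputable def p105_k4 : C1.Kn := ⟨[nat_lit 100, nat_lit 140, nat_lit 180], [nat_lit 0, nat_lit 766, nat_lit 3056], [(nat_lit 0, nat_lit 0, nat_lit 0), (nat_lit 1000, nat_lit 1000, nat_lit 299), (nat_lit 809, nat_lit 1000, nat_lit 722)], (nat_lit 100, nat_lit 72, nat_lit 81)⟩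
noncomputable def p105_k5 : C1.Kn := ⟨[nat_lit 20, nat_lit 60, nat_lit 100], [nat_lit 0, nat_lit 1415, nat_lit 3591], [(nat_lit 0, nat_lit 0, nat_lit 0), (nat_lit 1000, nat_lit 558, nat_lit 551), (nat_lit 1000, nat_lit 439, nat_lit 849)], (nat_lit 44, nat_lit 100, nat_lit 82)⟩
noncomputable def p105_k6 : C1.Kn := ⟨[nat_lit 20, nat_lit 60, nat_lit 100], [nat_lit 0, nat_lit 0, nat_lit 2559], [(nat_lit 0, nat_lit 0, nat_lit 0), (nat_lit 0, nat_lit 0, nat_lit 0), (nat_lit 1000, nat_lit 600, nat_lit 787)], (nat_lit 61, nat_lit 100, nat_lit 72)⟩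
noncomputable def p105_k7 : C1.Kn := ⟨[nat_lit 100, nat_lit 140, nat_lit 180], [nat_lit 0, nat_lit 508, nat_lit 2854], [(nat_lit 0, nat_lit 0, nat_lit 0), (nat_lit 1000, nat_lit 1000, nat_lit 198), (nat_lit 777, nat_lit 1000, nat_lit 712)], (nat_lit 100, nat_lit 77, nat_lit 72)⟩
noncomputable def p105_k8 : C1.Kn := ⟨[nat_lit 20, nat_lit 60, nat_lit 80], [nat_lit 0, nat_lit 698, nat_lit 2008], [(nat_lit 0, nat_lit 0, nat_lit 0), (nat_lit 1000, nat_lit 782, nat_lit 272), (nat_lit 1000, nat_lit 540, nat_lit 733)], (nat_lit 54, nat_lit 100, nat_lit 73)⟩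
noncomputable def p105_k9 : C1.Kn := ⟨[nat_lit 20, nat_lit 60, nat_lit 100], [nat_lit 0, nat_lit 1056, nat_lit 3301], [(nat_lit 0, nat_lit 0, nat_lit 0), (nat_lit 1000, nat_lit 671, nat_lit 411), (nat_lit 1000, nat_lit 484, nat_lit 867)], (nat_lit 49, nat_lit 100, nat_lit 81)⟩
noncomputable def p105_k10 : C1.Kn := ⟨[nat_lit 20, nat_lit 80, nat_lit 100], [nat_lit 0, nat_lit 0, nat_lit 2559], [(nat_lit 0, nat_lit 0, nat_lit 0), (nat_lit 0, nat_lit 0, nat_lit 0), (nat_lit 1000, nat_lit 600, nat_lit 787)], (nat_lit 60, nat_lit 100, nat_lit 80)⟩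
noncomputable def p105_k11 : C1.Kn := ⟨[nat_lit 20, nat_lit 100], [nat_lit 0, nat_lit 0], [(nat_lit 0, nat_lit 0, nat_lit 0), (nat_lit 0, nat_lit 0, nat_lit 0)], (nat_lit 60, nat_lit 100, nat_lit 80)⟩
noncomputable def p105_k12 : C1.Kn := ⟨[nat_lit 100, nat_lit 140, nat_lit 180], [nat_lit 0, nat_lit 0, nat_lit 2434], [(nat_lit 0, nat_lit 0, nat_lit 0), (nat_lit 0, nat_lit 0, nat_lit 0), (nat_lit 726, nat_lit 1000, nat_lit 688)], (nat_lit 100, nat_lit 60, nat_lit 80)⟩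
noncomputable def p105_k13 : C1.Kn := ⟨[nat_lit 100, nat_lit 140, nat_lit 180], [nat_lit 0, nat_lit 0, nat_lit 2434], [(nat_lit 0, nat_lit 0, nat_lit 0), (nat_lit 0, nat_lit 0, nat_lit 0), (nat_lit 726, nat_lit 1000, nat_lit 688)], (nat_lit 100, nat_lit 70, nat_lit 71)⟩
noncomputable def p105_k14 : C1.Kn := ⟨[nat_lit 100, nat_lit 180], [nat_lit 0, nat_lit 0], [(nat_lit 0, nat_lit 0, nat_lit 0), (nat_lit 0, nat_lit 0, nat_lit 0)], (nat_lit 100, nat_lit 60, nat_lit 80)⟩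
noncomputable def p105_k15 : C1.Kn := ⟨[nat_lit 20, nat_lit 60, nat_lit 80], [nat_lit 0, nat_lit 1415, nat_lit 2514], [(nat_lit 0, nat_lit 0, nat_lit 0), (nat_lit 1000, nat_lit 558, nat_lit 551), (nat_lit 1000, nat_lit 446, nat_lit 804)], (nat_lit 46, nat_lit 100, nat_lit 75)⟩
noncomputable def p105_k16 : C1.Kn := ⟨[nat_lit 20, nat_lit 100], [nat_lit 0, nat_lit 0], [(nat_lit 0, nat_lit 0, nat_lit 0), (nat_lit 0, nat_lit 0, nat_lit 0)], (nat_lit 61, nat_lit 100, nat_lit 72)⟩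
noncomputable def p105_k17 : C1.Kn := ⟨[nat_lit 100, nat_lit 180], [nat_lit 0, nat_lit 0], [(nat_lit 0, nat_lit 0, nat_lit 0), (nat_lit 0, nat_lit 0, nat_lit 0)], (nat_lit 100, nat_lit 70, nat_lit 71)⟩
noncomputable def p105_k18 : C1.Kn := ⟨[nat_lit 20, nat_lit 60], [nat_lit 0, nat_lit 2136], [(nat_lit 0, nat_lit 0, nat_lit 0), (nat_lit 1000, nat_lit 343, nat_lit 808)], (nat_lit 35, nat_lit 100, nat_lit 80)⟩
noncomputable def p105_k19 : C1.Kn := ⟨[nat_lit 20, nat_lit 60, nat_lit 80], [nat_lit 0, nat_lit 2136, nat_lit 3185], [(nat_lit 0, nat_lit 0, nat_lit 0), (nat_lit 1000, nat_lit 343, nat_lit 808), (nat_lit 1000, nat_lit 338, nat_lit 820)], (nat_lit 33, nat_lit 100, nat_lit 84)⟩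
noncomputable def p105_k20 : C1.Kn := ⟨[nat_lit 20, nat_lit 80], [nat_lit 0, nat_lit 0], [(nat_lit 0, nat_lit 0, nat_lit 0), (nat_lit 0, nat_lit 0, nat_lit 0)], (nat_lit 63, nat_lit 100, nat_lit 62)⟩
noncomputable def p105_k21 : C1.Kn := ⟨[nat_lit 100, nat_lit 160], [nat_lit 0, nat_lit 0], [(nat_lit 0, nat_lit 0, nat_lit 0), (nat_lit 0, nat_lit 0, nat_lit 0)], (nat_lit 100, nat_lit 80, nat_lit 60)⟩
noncomputable def p105_k22 : C1.Kn := ⟨[nat_lit 20, nat_lit 60, nat_lit 80], [nat_lit 0, nat_lit 0, nat_lit 1613], [(nat_lit 0, nat_lit 0, nat_lit 0), (nat_lit 0, nat_lit 0, nat_lit 0), (nat_lit 1000, nat_lit 614, nat_lit 668)], (nat_lit 63, nat_lit 100, nat_lit 62)⟩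
noncomputable def p105_k23 : C1.Kn := ⟨[nat_lit 20, nat_lit 40, nat_lit 80], [nat_lit 0, nat_lit 0, nat_lit 1598], [(nat_lit 0, nat_lit 0, nat_lit 0), (nat_lit 0, nat_lit 0, nat_lit 0), (nat_lit 1000, nat_lit 625, nat_lit 623)], (nat_lit 63, nat_lit 100, nat_lit 62)⟩
noncomputable def p105_k24 : C1.Kn := ⟨[nat_lit 100, nat_lit 140, nat_lit 160], [nat_lit 0, nat_lit 0, nat_lit 1280], [(nat_lit 0, nat_lit 0, nat_lit 0), (nat_lit 0, nat_lit 0, nat_lit 0), (nat_lit 800, nat_lit 1000, nat_lit 600)], (nat_lit 100, nat_lit 80, nat_lit 60)⟩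
noncomputable def p105_k25 : C1.Kn := ⟨[nat_lit 20, nat_lit 60], [nat_lit 0, nat_lit 1415], [(nat_lit 0, nat_lit 0, nat_lit 0), (nat_lit 1000, nat_lit 558, nat_lit 551)], (nat_lit 49, nat_lit 100, nat_lit 68)⟩
noncomputable def p105_k26 : C1.Kn := ⟨[nat_lit 20, nat_lit 60, nat_lit 80], [nat_lit 0, nat_lit 698, nat_lit 2008], [(nat_lit 0, nat_lit 0, nat_lit 0), (nat_lit 1000, nat_lit 782, nat_lit 272), (nat_lit 1000, nat_lit 540, nat_lit 733)], (nat_lit 57, nat_lit 100, nat_lit 64)⟩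
noncomputable def p105_k27 : C1.Kn := ⟨[nat_lit 100, nat_lit 140, nat_lit 160], [nat_lit 0, nat_lit 508, nat_lit 1689], [(nat_lit 0, nat_lit 0, nat_lit 0), (nat_lit 1000, nat_lit 1000, nat_lit 198), (nat_lit 811, nat_lit 1000, nat_lit 671)], (nat_lit 100, nat_lit 86, nat_lit 60)⟩
noncomputable def p105_k28 : C1.Kn := ⟨[nat_lit 20, nat_lit 60], [nat_lit 0, nat_lit 0], [(nat_lit 0, nat_lit 0, nat_lit 0), (nat_lit 0, nat_lit 0, nat_lit 0)], (nat_lit 68, nat_lit 100, nat_lit 49)⟩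
noncomputable def p105_k29 : C1.Kn := ⟨[nat_lit 100, nat_lit 140], [nat_lit 0, nat_lit 508], [(nat_lit 0, nat_lit 0, nat_lit 0), (nat_lit 1000, nat_lit 1000, nat_lit 198)], (nat_lit 100, nat_lit 94, nat_lit 44)⟩
noncomputable def p105_k30 : C1.Kn := ⟨[nat_lit 20, nat_lit 60], [nat_lit 0, nat_lit 698], [(nat_lit 0, nat_lit 0, nat_lit 0), (nat_lit 1000, nat_lit 782, nat_lit 272)], (nat_lit 62, nat_lit 100, nat_lit 52)⟩
noncomputable def p105_k31 : C1.Kn := ⟨[nat_lit 20, nat_lit 60], [nat_lit 0, nat_lit 1776], [(nat_lit 0, nat_lit 0, nat_lit 0), (nat_lit 1000, nat_lit 445, nat_lit 693)], (nat_lit 44, nat_lit 100, nat_lit 70)⟩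
noncomputable def p105_k32 : C1.Kn := ⟨[nat_lit 20, nat_lit 60], [nat_lit 0, nat_lit 2136], [(nat_lit 0, nat_lit 0, nat_lit 0), (nat_lit 1000, nat_lit 343, nat_lit 808)], (nat_lit 38, nat_lit 100, nat_lit 73)⟩
noncomputable def p105_k33 : C1.Kn := ⟨[nat_lit 20, nat_lit 80], [nat_lit 0, nat_lit 1046], [(nat_lit 0, nat_lit 0, nat_lit 0), (nat_lit 1000, nat_lit 782, nat_lit 272)], (nat_lit 57, nat_lit 100, nat_lit 64)⟩
noncomputable def p105_k34 : C1.Kn := ⟨[nat_lit 100, nat_lit 140, nat_lit 160], [nat_lit 0, nat_lit 256, nat_lit 1478], [(nat_lit 0, nat_lit 0, nat_lit 0), (nat_lit 1000, nat_lit 1000, nat_lit 100), (nat_lit 806, nat_lit 1000, nat_lit 633)], (nat_lit 100, nat_lit 83, nat_lit 60)⟩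
noncomputable def p105_k35 : C1.Kn := ⟨[nat_lit 100, nat_lit 140, nat_lit 160], [nat_lit 0, nat_lit 766, nat_lit 1913], [(nat_lit 0, nat_lit 0, nat_lit 0), (nat_lit 1000, nat_lit 1000, nat_lit 299), (nat_lit 817, nat_lit 1000, nat_lit 711)], (nat_lit 100, nat_lit 89, nat_lit 61)⟩
noncomputable def p105_k36 : C1.Kn := ⟨[nat_lit 100, nat_lit 160, nat_lit 180], [nat_lit 0, nat_lit 0, nat_lit 2560], [(nat_lit 0, nat_lit 0, nat_lit 0), (nat_lit 0, nat_lit 0, nat_lit 0), (nat_lit 600, nat_lit 1000, nat_lit 800)], (nat_lit 100, nat_lit 60, nat_lit 80)⟩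
noncomputable def p105_l0 : Lf2 := ⟨nat_lit 0, nat_lit 20, [nat_lit 5, nat_lit 5, nat_lit 5, nat_lit 20], true, nat_lit 0, nat_lit 80, nat_lit 0, nat_lit 336, ⟨nat_lit 0, nat_lit 491, nat_lit 509, nat_lit 6, nat_lit 244, nat_lit 1000, nat_lit 33, nat_lit 509, nat_lit 10417, nat_lit 240, nat_lit 61180, nat_lit 200, nat_lit 48789695, nat_lit 18210305, nat_lit 0, nat_lit 2925182, true, true⟩,
 nat_lit 0, nat_lit 0, nat_lit 0, nat_lit 3030, nat_lit 2491, nat_lit 0, nat_lit 0, nat_lit 0, nat_lit 0, nat_lit 0, nat_lit 0, nat_lit 0, nat_lit 0, nat_lit 0, nat_lit 0, nat_lit 250000, nat_lit 0, nat_lit 0, [(nat_lit 25, [(nat_lit 0, nat_lit 491), (nat_lit 4, nat_lit 509)])],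
 ⟨p105_k0, nat_lit 0, nat_lit 0, nat_lit 147, nat_lit 0, nat_lit 0, [nat_lit 745676001, nat_lit 487890667, nat_lit 96574133], [], [nat_lit 22726533682, nat_lit 23813674086, nat_lit 24086324576, nat_lit 25169924552, nat_lit 22299748566, nat_lit 23296315902, nat_lit 23563864690, nat_lit 24526404242], nat_lit 0, nat_lit 0, nat_lit 0, nat_lit 0, nat_lit 0, nat_lit 0, [], [nat_lit 20, nat_lit 40, nat_lit 40, nat_lit 80, nat_lit 16, nat_lit 226, nat_lit 20, nat_lit 8]⟩, C1.Rw.none,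
 ⟨nat_lit 2236, nat_lit 3163, ⟨.ofNat (nat_lit 560952), .ofNat (nat_lit 621905), .ofNat (nat_lit 605240), .ofNat (nat_lit 666215), .ofNat (nat_lit 557014), .ofNat (nat_lit 614030), .ofNat (nat_lit 602541), .ofNat (nat_lit 659578)⟩, ⟨.ofNat (nat_lit 0), .ofNat (nat_lit 139899), .ofNat (nat_lit 0), .ofNat (nat_lit 184209), .ofNat (nat_lit 0), .ofNat (nat_lit 146758), .ofNat (nat_lit 0), .ofNat (nat_lit 192306)⟩⟩, [⟨nat_lit 3, nat_lit 100, nat_lit 54, nat_lit 57, nat_lit 134528450⟩]⟩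
noncomputable def p105_l1 : Lf2 := ⟨nat_lit 0, nat_lit 20, [nat_lit 5, nat_lit 5, nat_lit 5, nat_lit 20], true, nat_lit 0, nat_lit 80, nat_lit 0, nat_lit 336, ⟨nat_lit 0, nat_lit 562, nat_lit 438, nat_lit 6, nat_lit 242, nat_lit 1000, nat_lit 34, nat_lit 438, nat_lit 11267, nat_lit 241, nat_lit 47904, nat_lit 200, nat_lit 49084865, nat_lit 17915135, nat_lit 0, nat_lit 2903227, true, true⟩,
 nat_lit 0, nat_lit 0, nat_lit 0, nat_lit 2200, nat_lit 2436, nat_lit 0, nat_lit 0, nat_lit 0, nat_lit 0, nat_lit 0, nat_lit 0, nat_lit 0, nat_lit 0, nat_lit 0, nat_lit 6, nat_lit 250000, nat_lit 0, nat_lit 0, [(nat_lit 28, [(nat_lit 0, nat_lit 562), (nat_lit 4, nat_lit 438)])],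
 ⟨p105_k1, nat_lit 0, nat_lit 0, nat_lit 168, nat_lit 0, nat_lit 0, [nat_lit 796840000, nat_lit 28964800], [], [nat_lit 24184158616, nat_lit 25150677760, nat_lit 25330694128, nat_lit 26392988576, nat_lit 23624433112, nat_lit 24606812288, nat_lit 24819683688, nat_lit 25790880288], nat_lit 0, nat_lit 0, nat_lit 0, nat_lit 0, nat_lit 0, nat_lit 0, [], [nat_lit 88, nat_lit 40, nat_lit 40, nat_lit 80, nat_lit 89, nat_lit 226, nat_lit 20, nat_lit 7]⟩, C1.Rw.none,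
 ⟨nat_lit 0, nat_lit 2237, ⟨.ofNat (nat_lit 557013), .ofNat (nat_lit 614026), .ofNat (nat_lit 602531), .ofNat (nat_lit 659577), .ofNat (nat_lit 549998), .ofNat (nat_lit 599995), .ofNat (nat_lit 599967), .ofNat (nat_lit 649998)⟩, ⟨.ofNat (nat_lit 0), .ofNat (nat_lit 146756), .ofNat (nat_lit 0), .ofNat (nat_lit 192306), .ofNat (nat_lit 0), .ofNat (nat_lit 149997), .ofNat (nat_lit 0), .ofNat (nat_lit 199999)⟩⟩, [⟨nat_lit 3, nat_lit 100, nat_lit 44, nat_lit 64, nat_lit 179432871⟩]⟩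
noncomputable def p105_l2 : Lf2 := ⟨nat_lit 0, nat_lit 20, [nat_lit 5, nat_lit 5, nat_lit 5, nat_lit 20], true, nat_lit 0, nat_lit 80, nat_lit 0, nat_lit 300, ⟨nat_lit 0, nat_lit 752, nat_lit 248, nat_lit 7, nat_lit 264, nat_lit 1000, nat_lit 33, nat_lit 248, nat_lit 10417, nat_lit 240, nat_lit 138776, nat_lit 200, nat_lit 46620618, nat_lit 20379382, nat_lit 0, nat_lit 3071779, true, true⟩,
 nat_lit 0, nat_lit 0, nat_lit 0, nat_lit 3072, nat_lit 2624, nat_lit 0, nat_lit 0, nat_lit 0, nat_lit 0, nat_lit 0, nat_lit 0, nat_lit 0, nat_lit 0, nat_lit 0, nat_lit 0, nat_lit 250000, nat_lit 0, nat_lit 0, [(nat_lit 25, [(nat_lit 0, nat_lit 752), (nat_lit 4, nat_lit 248)])],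
 ⟨p105_k0, nat_lit 0, nat_lit 0, nat_lit 151, nat_lit 0, nat_lit 0, [nat_lit 755072001, nat_lit 939594667, nat_lit 1131456000], [], [nat_lit 25382115117, nat_lit 25884328549, nat_lit 26867735725, nat_lit 27333073984, nat_lit 24806377101, nat_lit 25281049917, nat_lit 26220597549, nat_lit 26661147333], nat_lit 0, nat_lit 0, nat_lit 0, nat_lit 0, nat_lit 0, nat_lit 0, [], [nat_lit 20, nat_lit 40, nat_lit 40, nat_lit 80, nat_lit 16, nat_lit 226, nat_lit 20, nat_lit 7]⟩, C1.Rw.none,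
 ⟨nat_lit 2738, nat_lit 3163, ⟨.ofNat (nat_lit 621905), .ofNat (nat_lit 682859), .ofNat (nat_lit 644060), .ofNat (nat_lit 705013), .ofNat (nat_lit 618121), .ofNat (nat_lit 677182), .ofNat (nat_lit 640539), .ofNat (nat_lit 699600)⟩, ⟨.ofNat (nat_lit 0), .ofNat (nat_lit 139899), .ofNat (nat_lit 0), .ofNat (nat_lit 184209), .ofNat (nat_lit 0), .ofNat (nat_lit 143475), .ofNat (nat_lit 0), .ofNat (nat_lit 188310)⟩⟩, [⟨nat_lit 3, nat_lit 100, nat_lit 66, nat_lit 45, nat_lit 89890632⟩]⟩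
noncomputable def p105_l3 : Lf2 := ⟨nat_lit 0, nat_lit 20, [nat_lit 5, nat_lit 5, nat_lit 5, nat_lit 20], true, nat_lit 0, nat_lit 80, nat_lit 0, nat_lit 300, ⟨nat_lit 0, nat_lit 984, nat_lit 16, nat_lit 7, nat_lit 263, nat_lit 1000, nat_lit 34, nat_lit 16, nat_lit 10417, nat_lit 240, nat_lit 127950, nat_lit 200, nat_lit 46825277, nat_lit 20174723, nat_lit 0, nat_lit 3059030, true, true⟩,
 nat_lit 0, nat_lit 0, nat_lit 0, nat_lit 4175, nat_lit 2675, nat_lit 0, nat_lit 144, nat_lit 0, nat_lit 0, nat_lit 0, nat_lit 0, nat_lit 0, nat_lit 0, nat_lit 0, nat_lit 0, nat_lit 250000, nat_lit 0, nat_lit 0, [(nat_lit 25, [(nat_lit 0, nat_lit 984), (nat_lit 4, nat_lit 16)])],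
 ⟨p105_k2, nat_lit 0, nat_lit 0, nat_lit 154, nat_lit 0, nat_lit 0, [nat_lit 763424000, nat_lit 1341109334, nat_lit 2054352000], [], [nat_lit 25486146834, nat_lit 25992112234, nat_lit 26941689209, nat_lit 27473389400, nat_lit 24848118434, nat_lit 25326243134, nat_lit 26234767259, nat_lit 26678330684], nat_lit 0, nat_lit 0, nat_lit 0, nat_lit 0, nat_lit 0, nat_lit 0, [], [nat_lit 20, nat_lit 40, nat_lit 40, nat_lit 80, nat_lit 16, nat_lit 226, nat_lit 20, nat_lit 7]⟩, C1.Rw.none,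
 ⟨nat_lit 2236, nat_lit 2739, ⟨.ofNat (nat_lit 618121), .ofNat (nat_lit 677182), .ofNat (nat_lit 640539), .ofNat (nat_lit 699600), .ofNat (nat_lit 614030), .ofNat (nat_lit 671045), .ofNat (nat_lit 636804), .ofNat (nat_lit 693819)⟩, ⟨.ofNat (nat_lit 0), .ofNat (nat_lit 143475), .ofNat (nat_lit 0), .ofNat (nat_lit 188310), .ofNat (nat_lit 0), .ofNat (nat_lit 146758), .ofNat (nat_lit 0), .ofNat (nat_lit 192306)⟩⟩, [⟨nat_lit 13, nat_lit 48, nat_lit 85, nat_lit 100, nat_lit 325613263⟩, ⟨nat_lit 3, nat_lit 100, nat_lit 68, nat_lit 40, nat_lit 40562287⟩]⟩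
noncomputable def p105_l4 : Lf2 := ⟨nat_lit 0, nat_lit 20, [nat_lit 5, nat_lit 5, nat_lit 5, nat_lit 20], false, nat_lit 0, nat_lit 40, nat_lit 0, nat_lit 248, ⟨nat_lit 71, nat_lit 929, nat_lit 0, nat_lit 7, nat_lit 273, nat_lit 929, nat_lit 18, nat_lit 0, nat_lit 0, nat_lit 0, nat_lit 0, nat_lit 0, nat_lit 45668374, nat_lit 21331626, nat_lit 0, nat_lit 3128220, true, true⟩,
 nat_lit 0, nat_lit 0, nat_lit 1437, nat_lit 0, nat_lit 2879, nat_lit 687, nat_lit 0, nat_lit 0, nat_lit 0, nat_lit 59, nat_lit 0, nat_lit 0, nat_lit 0, nat_lit 0, nat_lit 0, nat_lit 300350, nat_lit 0, nat_lit 0, [(nat_lit 25, [(nat_lit 0, nat_lit 475), (nat_lit 1, nat_lit 454)])],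
 ⟨p105_k0, nat_lit 0, nat_lit 0, nat_lit 151, nat_lit 0, nat_lit 0, [nat_lit 813037201, nat_lit 1338170534, nat_lit 1865300800], [], [nat_lit 26298724444, nat_lit 26819697716, nat_lit 27822567512, nat_lit 28303899031, nat_lit 25924731226, nat_lit 26431183980, nat_lit 27411237114, nat_lit 27879711868], nat_lit 0, nat_lit 0, nat_lit 0, nat_lit 0, nat_lit 0, nat_lit 0, [], [nat_lit 20, nat_lit 40, nat_lit 40, nat_lit 80, nat_lit 16, nat_lit 215, nat_lit 10, nat_lit 7]⟩, ⟨p105_k3, nat_lit 0, nat_lit 0, nat_lit 784, nat_lit 0, nat_lit 1014622, [nat_lit 443750000, nat_lit 698782000, nat_lit 998118000], [], [nat_lit 2772214694, nat_lit 2771044340, nat_lit 2824378062, nat_lit 2819442808, nat_lit 2217931275, nat_lit 2208515931, nat_lit 2244231365, nat_lit 2232011485], nat_lit 1271250, nat_lit 1271250, nat_lit 1271250, nat_lit 1271250, nat_lit 0, nat_lit 1751500, [nat_lit 1412500, nat_lit 1271250, nat_lit 1271250], [nat_lit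 60, nat_lit 40, nat_lit 40, nat_lit 80, nat_lit 32, nat_lit 456, nat_lit 225, nat_lit 10]⟩,
 ⟨nat_lit 2738, nat_lit 3163, ⟨.ofNat (nat_lit 644060), .ofNat (nat_lit 705013), .ofNat (nat_lit 666215), .ofNat (nat_lit 727168), .ofNat (nat_lit 640539), .ofNat (nat_lit 699600), .ofNat (nat_lit 662956), .ofNat (nat_lit 722017)⟩, ⟨.ofNat (nat_lit 0), .ofNat (nat_lit 78946), .ofNat (nat_lit 0), .ofNat (nat_lit 100000), .ofNat (nat_lit 0), .ofNat (nat_lit 84414), .ofNat (nat_lit 0), .ofNat (nat_lit 100000)⟩⟩, [⟨nat_lit 3, nat_lit 100, nat_lit 79, nat_lit 27, nat_lit 34193783⟩]⟩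
noncomputable def p105_l5 : Lf2 := ⟨nat_lit 0, nat_lit 20, [nat_lit 5, nat_lit 5, nat_lit 5, nat_lit 20], false, nat_lit 0, nat_lit 40, nat_lit 0, nat_lit 248, ⟨nat_lit 58, nat_lit 942, nat_lit 0, nat_lit 7, nat_lit 272, nat_lit 942, nat_lit 19, nat_lit 0, nat_lit 0, nat_lit 0, nat_lit 0, nat_lit 0, nat_lit 45858209, nat_lit 21141791, nat_lit 0, nat_lit 3117343, true, true⟩,
 nat_lit 0, nat_lit 0, nat_lit 1180, nat_lit 0, nat_lit 2691, nat_lit 564, nat_lit 173, nat_lit 0, nat_lit 0, nat_lit 50, nat_lit 0, nat_lit 0, nat_lit 0, nat_lit 0, nat_lit 0, nat_lit 235500, nat_lit 0, nat_lit 0, [(nat_lit 25, [(nat_lit 0, nat_lit 942)])],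
 ⟨p105_k2, nat_lit 0, nat_lit 0, nat_lit 154, nat_lit 0, nat_lit 0, [nat_lit 774092001, nat_lit 1479765601, nat_lit 2357656000], [], [nat_lit 25592136273, nat_lit 26099278761, nat_lit 27049926408, nat_lit 27519195659, nat_lit 25267671129, nat_lit 25760846195, nat_lit 26690918281, nat_lit 27147807347], nat_lit 0, nat_lit 0, nat_lit 0, nat_lit 0, nat_lit 0, nat_lit 0, [], [nat_lit 20, nat_lit 40, nat_lit 40, nat_lit 80, nat_lit 16, nat_lit 215, nat_lit 10, nat_lit 7]⟩, ⟨p105_k3, nat_lit 0, nat_lit 0, nat_lit 911, nat_lit 0, nat_lit 1280450, [nat_lit 362500000, nat_lit 570836000, nat_lit 815364000], [], [nat_lit 2280631772, nat_lit 2271216432, nat_lit 2297918660, nat_lit 2286330568, nat_lit 1806575491, nat_lit 1792489330, nat_lit 1809579586, nat_lit 1799456355], nat_lit 1271250, nat_lit 1271250, nat_lit 1271250, nat_lit 1271250, nat_lit 0, nat_lit 1751500, [nat_lit 1412500, nat_lit 1271250, nat_lit 1271250], [nat_lit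 60, nat_lit 40, nat_lit 40, nat_lit 80, nat_lit 32, nat_lit 456, nat_lit 225, nat_lit 10]⟩,
 ⟨nat_lit 2236, nat_lit 2739, ⟨.ofNat (nat_lit 640539), .ofNat (nat_lit 699600), .ofNat (nat_lit 662956), .ofNat (nat_lit 722017), .ofNat (nat_lit 636804), .ofNat (nat_lit 693819), .ofNat (nat_lit 659578), .ofNat (nat_lit 716594)⟩, ⟨.ofNat (nat_lit 0), .ofNat (nat_lit 84414), .ofNat (nat_lit 0), .ofNat (nat_lit 100000), .ofNat (nat_lit 0), .ofNat (nat_lit 89742), .ofNat (nat_lit 0), .ofNat (nat_lit 100000)⟩⟩, [⟨nat_lit 3, nat_lit 100, nat_lit 54, nat_lit 57, nat_lit 72630267⟩]⟩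
noncomputable def p105_l6 : Lf2 := ⟨nat_lit 0, nat_lit 20, [nat_lit 5, nat_lit 5, nat_lit 5, nat_lit 20], false, nat_lit 0, nat_lit 40, nat_lit 0, nat_lit 248, ⟨nat_lit 86, nat_lit 758, nat_lit 156, nat_lit 7, nat_lit 270, nat_lit 914, nat_lit 18, nat_lit 156, nat_lit 3267, nat_lit 229, nat_lit 160932, nat_lit 200, nat_lit 46005273, nat_lit 20994727, nat_lit 0, nat_lit 3108789, true, true⟩,
 nat_lit 0, nat_lit 0, nat_lit 1784, nat_lit 0, nat_lit 2770, nat_lit 853, nat_lit 0, nat_lit 0, nat_lit 0, nat_lit 86, nat_lit 0, nat_lit 0, nat_lit 0, nat_lit 0, nat_lit 0, nat_lit 228500, nat_lit 0, nat_lit 0, [(nat_lit 25, [(nat_lit 0, nat_lit 758), (nat_lit 4, nat_lit 156)])],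
 ⟨p105_k0, nat_lit 0, nat_lit 0, nat_lit 154, nat_lit 0, nat_lit 0, [nat_lit 773348001, nat_lit 1263351200, nat_lit 1852784000], [], [nat_lit 26273813242, nat_lit 27299721962, nat_lit 27781318082, nat_lit 28729994022, nat_lit 25936633902, nat_lit 26934142942, nat_lit 27407501342, nat_lit 28331016382], nat_lit 0, nat_lit 0, nat_lit 0, nat_lit 0, nat_lit 0, nat_lit 0, [], [nat_lit 20, nat_lit 40, nat_lit 40, nat_lit 80, nat_lit 16, nat_lit 215, nat_lit 10, nat_lit 7]⟩, ⟨p105_k3, nat_lit 0, nat_lit 0, nat_lit 632, nat_lit 0, nat_lit 696919, [nat_lit 537500000, nat_lit 846412000, nat_lit 1208988000], [], [nat_lit 3138641852, nat_lit 3141280112, nat_lit 3243545770, nat_lit 3242918267, nat_lit 2461737136, nat_lit 2462345622, nat_lit 2533664056, nat_lit 2531788807], nat_lit 1271250, nat_lit 1271250, nat_lit 1271250, nat_lit 1271250, nat_lit 0, nat_lit 1751500, [nat_lit 1412500, nat_lit 1271250, nat_lit 1271250], [nat_lit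 60, nat_lit 40, nat_lit 40, nat_lit 80, nat_lit 32, nat_lit 428, nat_lit 200, nat_lit 10]⟩,
 ⟨nat_lit 2236, nat_lit 3163, ⟨.ofNat (nat_lit 644060), .ofNat (nat_lit 705013), .ofNat (nat_lit 655138), .ofNat (nat_lit 716091), .ofNat (nat_lit 636804), .ofNat (nat_lit 693819), .ofNat (nat_lit 648191), .ofNat (nat_lit 705207)⟩, ⟨.ofNat (nat_lit 0), .ofNat (nat_lit 78946), .ofNat (nat_lit 0), .ofNat (nat_lit 100000), .ofNat (nat_lit 0), .ofNat (nat_lit 89742), .ofNat (nat_lit 0), .ofNat (nat_lit 100000)⟩⟩, [⟨nat_lit 13, nat_lit 53, nat_lit 78, nat_lit 100, nat_lit 106183673⟩, ⟨nat_lit 3, nat_lit 100, nat_lit 74, nat_lit 33, nat_lit 59565200⟩]⟩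
noncomputable def p105_l7 : Lf2 := ⟨nat_lit 0, nat_lit 20, [nat_lit 5, nat_lit 5, nat_lit 5, nat_lit 20], false, nat_lit 0, nat_lit 40, nat_lit 0, nat_lit 248, ⟨nat_lit 95, nat_lit 740, nat_lit 165, nat_lit 7, nat_lit 275, nat_lit 905, nat_lit 18, nat_lit 165, nat_lit 3267, nat_lit 229, nat_lit 183086, nat_lit 200, nat_lit 45526919, nat_lit 21473081, nat_lit 0, nat_lit 3136204, true, true⟩,
 nat_lit 0, nat_lit 0, nat_lit 1748, nat_lit 0, nat_lit 2773, nat_lit 880, nat_lit 0, nat_lit 0, nat_lit 0, nat_lit 96, nat_lit 0, nat_lit 0, nat_lit 0, nat_lit 0, nat_lit 0, nat_lit 226250, nat_lit 0, nat_lit 0, [(nat_lit 25, [(nat_lit 0, nat_lit 740), (nat_lit 4, nat_lit 165)])],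
 ⟨p105_k0, nat_lit 0, nat_lit 0, nat_lit 154, nat_lit 0, nat_lit 0, [nat_lit 774590000, nat_lit 1264994000, nat_lit 1854170000], [], [nat_lit 26275423196, nat_lit 27301773324, nat_lit 27783377712, nat_lit 28732629346, nat_lit 25937230630, nat_lit 26935163426, nat_lit 27408528486, nat_lit 28332413282], nat_lit 0, nat_lit 0, nat_lit 0, nat_lit 0, nat_lit 0, nat_lit 0, [], [nat_lit 20, nat_lit 40, nat_lit 40, nat_lit 80, nat_lit 16, nat_lit 215, nat_lit 10, nat_lit 7]⟩, ⟨p105_k4, nat_lit 0, nat_lit 0, nat_lit 629, nat_lit 0, nat_lit 694206, [nat_lit 593750000, nat_lit 934990000, nat_lit 1335510000], [], [nat_lit 3357405040, nat_lit 3361419040, nat_lit 3467989870, nat_lit 3475684100, nat_lit 2681327797, nat_lit 2683100427, nat_lit 2757958198, nat_lit 2757139069], nat_lit 1271250, nat_lit 1271250, nat_lit 1271250, nat_lit 1271250, nat_lit 0, nat_lit 1751500, [nat_lit 1412500, nat_lit 1271250, nat_lit 1271250], [nat_lit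 60, nat_lit 40, nat_lit 40, nat_lit 80, nat_lit 32, nat_lit 456, nat_lit 225, nat_lit 10]⟩,
 ⟨nat_lit 2236, nat_lit 3163, ⟨.ofNat (nat_lit 655138), .ofNat (nat_lit 716091), .ofNat (nat_lit 666215), .ofNat (nat_lit 727168), .ofNat (nat_lit 648191), .ofNat (nat_lit 705207), .ofNat (nat_lit 659578), .ofNat (nat_lit 716594)⟩, ⟨.ofNat (nat_lit 0), .ofNat (nat_lit 78946), .ofNat (nat_lit 0), .ofNat (nat_lit 100000), .ofNat (nat_lit 0), .ofNat (nat_lit 89742), .ofNat (nat_lit 0), .ofNat (nat_lit 100000)⟩⟩, [⟨nat_lit 3, nat_lit 100, nat_lit 74, nat_lit 33, nat_lit 54096063⟩, ⟨nat_lit 22, nat_lit 87, nat_lit 100, nat_lit 44, nat_lit 4677735⟩]⟩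
noncomputable def p105_l8 : Lf2 := ⟨nat_lit 0, nat_lit 20, [nat_lit 5, nat_lit 5, nat_lit 5, nat_lit 20], false, nat_lit 40, nat_lit 80, nat_lit 0, nat_lit 300, ⟨nat_lit 63, nat_lit 739, nat_lit 198, nat_lit 7, nat_lit 272, nat_lit 937, nat_lit 52, nat_lit 198, nat_lit 25350, nat_lit 254, nat_lit 183086, nat_lit 200, nat_lit 44508014, nat_lit 20913242, nat_lit 1578744, nat_lit 3744520, true, true⟩,
 nat_lit 0, nat_lit 0, nat_lit 1272, nat_lit 0, nat_lit 2801, nat_lit 608, nat_lit 0, nat_lit 0, nat_lit 0, nat_lit 55, nat_lit 0, nat_lit 0, nat_lit 0, nat_lit 0, nat_lit 0, nat_lit 234250, nat_lit 0, nat_lit 0, [(nat_lit 25, [(nat_lit 0, nat_lit 739), (nat_lit 4, nat_lit 198)])],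
 ⟨p105_k0, nat_lit 0, nat_lit 0, nat_lit 132, nat_lit 0, nat_lit 0, [nat_lit 767834000, nat_lit 1146659601, nat_lit 1590672000], [], [nat_lit 25369964945, nat_lit 26394715953, nat_lit 26872579081, nat_lit 27819937787, nat_lit 24967314569, nat_lit 25963474737, nat_lit 26433758953, nat_lit 27355880455], nat_lit 0, nat_lit 0, nat_lit 0, nat_lit 0, nat_lit 0, nat_lit 0, [], [nat_lit 20, nat_lit 40, nat_lit 40, nat_lit 80, nat_lit 16, nat_lit 226, nat_lit 20, nat_lit 7]⟩, ⟨p105_k3, nat_lit 0, nat_lit 0, nat_lit 924, nat_lit 0, nat_lit 1314606, [nat_lit 393750000, nat_lit 620046000, nat_lit 885654000], [], [nat_lit 2492213358, nat_lit 2482214696, nat_lit 2525135532, nat_lit 2524920712, nat_lit 1973725219, nat_lit 1961596424, nat_lit 1988760259, nat_lit 1984205012], nat_lit 1271250, nat_lit 1271250, nat_lit 1271250, nat_lit 1271250, nat_lit 0, nat_lit 2118750, [nat_lit 1412500, nat_lit 1271250, nat_lit 1271250], [nat_lit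 60, nat_lit 40, nat_lit 40, nat_lit 80, nat_lit 32, nat_lit 456, nat_lit 225, nat_lit 10]⟩,
 ⟨nat_lit 2236, nat_lit 3163, ⟨.ofNat (nat_lit 644060), .ofNat (nat_lit 705013), .ofNat (nat_lit 666215), .ofNat (nat_lit 727168), .ofNat (nat_lit 636804), .ofNat (nat_lit 693819), .ofNat (nat_lit 659578), .ofNat (nat_lit 716594)⟩, ⟨.ofNat (nat_lit 78946), .ofNat (nat_lit 139899), .ofNat (nat_lit 100000), .ofNat (nat_lit 184209), .ofNat (nat_lit 89742), .ofNat (nat_lit 146758), .ofNat (nat_lit 100000), .ofNat (nat_lit 192306)⟩⟩, [⟨nat_lit 22, nat_lit 90, nat_lit 100, nat_lit 74, nat_lit 3473574⟩]⟩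
noncomputable def p105_l9 : Lf2 := ⟨nat_lit 0, nat_lit 20, [nat_lit 5, nat_lit 5, nat_lit 5, nat_lit 20], true, nat_lit 0, nat_lit 40, nat_lit 0, nat_lit 248, ⟨nat_lit 0, nat_lit 1000, nat_lit 0, nat_lit 7, nat_lit 255, nat_lit 1000, nat_lit 19, nat_lit 0, nat_lit 0, nat_lit 0, nat_lit 0, nat_lit 0, nat_lit 47631302, nat_lit 19368698, nat_lit 0, nat_lit 3006651, true, true⟩,
 nat_lit 0, nat_lit 0, nat_lit 0, nat_lit 4158, nat_lit 2376, nat_lit 0, nat_lit 0, nat_lit 0, nat_lit 0, nat_lit 0, nat_lit 0, nat_lit 0, nat_lit 0, nat_lit 0, nat_lit 0, nat_lit 391600, nat_lit 0, nat_lit 0, [(nat_lit 28, [(nat_lit 0, nat_lit 56), (nat_lit 1, nat_lit 944)])],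
 ⟨p105_k5, nat_lit 0, nat_lit 0, nat_lit 160, nat_lit 0, nat_lit 0, [nat_lit 702304001, nat_lit 367292801, nat_lit 217654400], [], [nat_lit 25211936915, nat_lit 26273581888, nat_lit 26240912555, nat_lit 27415774864, nat_lit 24943613667, nat_lit 25956721235, nat_lit 25949908428, nat_lit 26910804626], nat_lit 0, nat_lit 0, nat_lit 0, nat_lit 0, nat_lit 0, nat_lit 0, [], [nat_lit 20, nat_lit 40, nat_lit 40, nat_lit 80, nat_lit 16, nat_lit 215, nat_lit 10, nat_lit 7]⟩, C1.Rw.none,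
 ⟨nat_lit 0, nat_lit 2237, ⟨.ofNat (nat_lit 614026), .ofNat (nat_lit 653935), .ofNat (nat_lit 636802), .ofNat (nat_lit 676711), .ofNat (nat_lit 599995), .ofNat (nat_lit 634993), .ofNat (nat_lit 624997), .ofNat (nat_lit 659995)⟩, ⟨.ofNat (nat_lit 0), .ofNat (nat_lit 89742), .ofNat (nat_lit 0), .ofNat (nat_lit 100000), .ofNat (nat_lit 0), .ofNat (nat_lit 99999), .ofNat (nat_lit 0), .ofNat (nat_lit 100000)⟩⟩, [⟨nat_lit 13, nat_lit 44, nat_lit 86, nat_lit 100, nat_lit 392832952⟩, ⟨nat_lit 3, nat_lit 100, nat_lit 44, nat_lit 64, nat_lit 81589979⟩]⟩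
noncomputable def p105_l10 : Lf2 := ⟨nat_lit 0, nat_lit 20, [nat_lit 5, nat_lit 5, nat_lit 5, nat_lit 20], false, nat_lit 0, nat_lit 40, nat_lit 0, nat_lit 248, ⟨nat_lit 64, nat_lit 936, nat_lit 0, nat_lit 7, nat_lit 268, nat_lit 936, nat_lit 19, nat_lit 0, nat_lit 0, nat_lit 0, nat_lit 0, nat_lit 0, nat_lit 46259250, nat_lit 20740750, nat_lit 0, nat_lit 3093753, true, true⟩,
 nat_lit 0, nat_lit 0, nat_lit 1316, nat_lit 0, nat_lit 2385, nat_lit 629, nat_lit 8, nat_lit 0, nat_lit 0, nat_lit 63, nat_lit 0, nat_lit 0, nat_lit 0, nat_lit 0, nat_lit 0, nat_lit 374400, nat_lit 0, nat_lit 0, [(nat_lit 28, [(nat_lit 1, nat_lit 936)])],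
 ⟨p105_k5, nat_lit 0, nat_lit 0, nat_lit 164, nat_lit 0, nat_lit 0, [nat_lit 712985601, nat_lit 514060801, nat_lit 529168000], [], [nat_lit 25459886173, nat_lit 26504500380, nat_lit 26931205423, nat_lit 27949706740, nat_lit 25191875373, nat_lit 26202835123, nat_lit 26627166633, nat_lit 27566932093], nat_lit 0, nat_lit 0, nat_lit 0, nat_lit 0, nat_lit 0, nat_lit 0, [], [nat_lit 20, nat_lit 40, nat_lit 40, nat_lit 80, nat_lit 16, nat_lit 215, nat_lit 10, nat_lit 7]⟩, ⟨p105_k3, nat_lit 0, nat_lit 0, nat_lit 1175, nat_lit 0, nat_lit 1891589, [nat_lit 400000000, nat_lit 629888000, nat_lit 899712000], [], [nat_lit 2424974294, nat_lit 2414256068, nat_lit 2452429890, nat_lit 2447560440, nat_lit 1894374506, nat_lit 1885428596, nat_lit 1917746903, nat_lit 1906240444], nat_lit 1271250, nat_lit 1271250, nat_lit 1271250, nat_lit 1271250, nat_lit 0, nat_lit 1751500, [nat_lit 1412500, nat_lit 1271250, nat_lit 1271250], [nat_lit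 60, nat_lit 40, nat_lit 40, nat_lit 80, nat_lit 32, nat_lit 456, nat_lit 225, nat_lit 10]⟩,
 ⟨nat_lit 0, nat_lit 2237, ⟨.ofNat (nat_lit 636802), .ofNat (nat_lit 693815), .ofNat (nat_lit 659577), .ofNat (nat_lit 716590), .ofNat (nat_lit 624997), .ofNat (nat_lit 674995), .ofNat (nat_lit 649998), .ofNat (nat_lit 699995)⟩, ⟨.ofNat (nat_lit 0), .ofNat (nat_lit 89742), .ofNat (nat_lit 0), .ofNat (nat_lit 100000), .ofNat (nat_lit 0), .ofNat (nat_lit 99999), .ofNat (nat_lit 0), .ofNat (nat_lit 100000)⟩⟩, [⟨nat_lit 13, nat_lit 44, nat_lit 81, nat_lit 100, nat_lit 333112323⟩, ⟨nat_lit 3, nat_lit 100, nat_lit 44, nat_lit 64, nat_lit 68436579⟩]⟩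
noncomputable def p105_l11 : Lf2 := ⟨nat_lit 0, nat_lit 20, [nat_lit 5, nat_lit 5, nat_lit 5, nat_lit 20], true, nat_lit 40, nat_lit 80, nat_lit 0, nat_lit 300, ⟨nat_lit 0, nat_lit 1000, nat_lit 0, nat_lit 7, nat_lit 263, nat_lit 1000, nat_lit 54, nat_lit 0, nat_lit 0, nat_lit 0, nat_lit 0, nat_lit 0, nat_lit 45373263, nat_lit 19922214, nat_lit 1704523, nat_lit 3723175, true, true⟩,
 nat_lit 0, nat_lit 0, nat_lit 0, nat_lit 4143, nat_lit 2411, nat_lit 0, nat_lit 0, nat_lit 0, nat_lit 0, nat_lit 0, nat_lit 0, nat_lit 0, nat_lit 0, nat_lit 0, nat_lit 0, nat_lit 390550, nat_lit 0, nat_lit 0, [(nat_lit 28, [(nat_lit 0, nat_lit 63), (nat_lit 1, nat_lit 937)])],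
 ⟨p105_k5, nat_lit 0, nat_lit 0, nat_lit 140, nat_lit 0, nat_lit 0, [nat_lit 702892001, nat_lit 372604401, nat_lit 227611200], [], [nat_lit 24772035684, nat_lit 25813629926, nat_lit 26238261578, nat_lit 27257183396, nat_lit 24435445340, nat_lit 25448448858, nat_lit 25869997520, nat_lit 26808244462], nat_lit 0, nat_lit 0, nat_lit 0, nat_lit 0, nat_lit 0, nat_lit 0, [], [nat_lit 20, nat_lit 40, nat_lit 40, nat_lit 80, nat_lit 16, nat_lit 226, nat_lit 20, nat_lit 7]⟩, C1.Rw.none,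
 ⟨nat_lit 0, nat_lit 2237, ⟨.ofNat (nat_lit 614026), .ofNat (nat_lit 671039), .ofNat (nat_lit 659577), .ofNat (nat_lit 716590), .ofNat (nat_lit 599995), .ofNat (nat_lit 649993), .ofNat (nat_lit 649998), .ofNat (nat_lit 699995)⟩, ⟨.ofNat (nat_lit 89742), .ofNat (nat_lit 146756), .ofNat (nat_lit 100000), .ofNat (nat_lit 192306), .ofNat (nat_lit 99999), .ofNat (nat_lit 149997), .ofNat (nat_lit 100000), .ofNat (nat_lit 199999)⟩⟩, [⟨nat_lit 13, nat_lit 44, nat_lit 81, nat_lit 100, nat_lit 407726410⟩]⟩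
noncomputable def p105_l12 : Lf2 := ⟨nat_lit 0, nat_lit 20, [nat_lit 5, nat_lit 5, nat_lit 5, nat_lit 20], true, nat_lit 0, nat_lit 80, nat_lit 0, nat_lit 260, ⟨nat_lit 0, nat_lit 1000, nat_lit 0, nat_lit 8, nat_lit 280, nat_lit 1000, nat_lit 33, nat_lit 0, nat_lit 0, nat_lit 0, nat_lit 0, nat_lit 0, nat_lit 44967246, nat_lit 22032754, nat_lit 0, nat_lit 3166794, true, true⟩,
 nat_lit 0, nat_lit 0, nat_lit 0, nat_lit 3844, nat_lit 2816, nat_lit 0, nat_lit 0, nat_lit 0, nat_lit 0, nat_lit 0, nat_lit 0, nat_lit 0, nat_lit 0, nat_lit 0, nat_lit 0, nat_lit 341950, nat_lit 0, nat_lit 0, [(nat_lit 25, [(nat_lit 0, nat_lit 387), (nat_lit 1, nat_lit 613)])],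
 ⟨p105_k0, nat_lit 0, nat_lit 0, nat_lit 158, nat_lit 0, nat_lit 0, [nat_lit 813530401, nat_lit 1144033334, nat_lit 1380683600], [], [nat_lit 27217316040, nat_lit 28302082832, nat_lit 27957461328, nat_lit 29004408522, nat_lit 26438019656, nat_lit 27341810168, nat_lit 27063099925, nat_lit 27938236837], nat_lit 0, nat_lit 0, nat_lit 0, nat_lit 0, nat_lit 0, nat_lit 0, [], [nat_lit 20, nat_lit 40, nat_lit 40, nat_lit 80, nat_lit 16, nat_lit 226, nat_lit 20, nat_lit 7]⟩, C1.Rw.none,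
 ⟨nat_lit 2236, nat_lit 3163, ⟨.ofNat (nat_lit 682859), .ofNat (nat_lit 707240), .ofNat (nat_lit 705013), .ofNat (nat_lit 729395), .ofNat (nat_lit 671045), .ofNat (nat_lit 693851), .ofNat (nat_lit 693819), .ofNat (nat_lit 716626)⟩, ⟨.ofNat (nat_lit 0), .ofNat (nat_lit 139899), .ofNat (nat_lit 0), .ofNat (nat_lit 184209), .ofNat (nat_lit 0), .ofNat (nat_lit 146758), .ofNat (nat_lit 0), .ofNat (nat_lit 192306)⟩⟩, [⟨nat_lit 13, nat_lit 53, nat_lit 82, nat_lit 100, nat_lit 86034810⟩, ⟨nat_lit 13, nat_lit 60, nat_lit 74, nat_lit 100, nat_lit 274829852⟩, ⟨nat_lit 3, nat_lit 100, nat_lit 74, nat_lit 33, nat_lit 48044112⟩]⟩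
noncomputable def p105_l13 : Lf2 := ⟨nat_lit 0, nat_lit 20, [nat_lit 5, nat_lit 5, nat_lit 5, nat_lit 20], false, nat_lit 0, nat_lit 40, nat_lit 0, nat_lit 200, ⟨nat_lit 1000, nat_lit 0, nat_lit 0, nat_lit 0, nat_lit 0, nat_lit 0, nat_lit 0, nat_lit 0, nat_lit 0, nat_lit 0, nat_lit 0, nat_lit 0, nat_lit 0, nat_lit 0, nat_lit 0, nat_lit 0, false, false⟩,
 nat_lit 0, nat_lit 0, nat_lit 1164, nat_lit 3769, nat_lit 4208, nat_lit 556, nat_lit 442, nat_lit 0, nat_lit 0, nat_lit 311, nat_lit 0, nat_lit 469, nat_lit 0, nat_lit 0, nat_lit 0, nat_lit 0, nat_lit 0, nat_lit 0, [],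
 ⟨p105_k0, nat_lit 0, nat_lit 0, nat_lit 165, nat_lit 0, nat_lit 0, [nat_lit 938000000, nat_lit 3282000000, nat_lit 6250000000], [], [nat_lit 30388952996, nat_lit 31450494224, nat_lit 31963840621, nat_lit 33421105130, nat_lit 29364210036, nat_lit 30392757740, nat_lit 30770703276, nat_lit 31857487839], nat_lit 0, nat_lit 0, nat_lit 0, nat_lit 0, nat_lit 0, nat_lit 0, [], [nat_lit 20, nat_lit 40, nat_lit 40, nat_lit 80, nat_lit 16, nat_lit 215, nat_lit 10, nat_lit 7]⟩, ⟨p105_k3, nat_lit 0, nat_lit 0, nat_lit 0, nat_lit 0, nat_lit 1314606, [nat_lit 6250000000, nat_lit 9842000000, nat_lit 14058000000], [], [nat_lit 19761227348, nat_lit 20137597900, nat_lit 20543018388, nat_lit 20906371724, nat_lit 22152117388, nat_lit 22496706044, nat_lit 22842462284, nat_lit 23176438985], nat_lit 1271250, nat_lit 1271250, nat_lit 1271250, nat_lit 1271250, nat_lit 0, nat_lit 1412500, [nat_lit 1412500, nat_lit 1271250, nat_lit 1271250],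 [nat_lit 60, nat_lit 40, nat_lit 40, nat_lit 80]⟩,
 zbF0, [⟨nat_lit 13, nat_lit 44, nat_lit 86, nat_lit 100, nat_lit 340706669⟩, ⟨nat_lit 3, nat_lit 100, nat_lit 74, nat_lit 33, nat_lit 19397137⟩]⟩
noncomputable def p105_l14 : Lf2 := ⟨nat_lit 0, nat_lit 15, [nat_lit 30, nat_lit 5, nat_lit 5, nat_lit 20], false, nat_lit 0, nat_lit 20, nat_lit 0, nat_lit 164, ⟨nat_lit 100, nat_lit 900, nat_lit 0, nat_lit 8, nat_lit 295, nat_lit 900, nat_lit 10, nat_lit 0, nat_lit 0, nat_lit 0, nat_lit 0, nat_lit 0, nat_lit 43398387, nat_lit 23601613, nat_lit 0, nat_lit 3244180, true, true⟩,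
 nat_lit 0, nat_lit 0, nat_lit 2015, nat_lit 0, nat_lit 2883, nat_lit 963, nat_lit 0, nat_lit 0, nat_lit 0, nat_lit 95, nat_lit 0, nat_lit 0, nat_lit 0, nat_lit 0, nat_lit 0, nat_lit 268200, nat_lit 0, nat_lit 0, [(nat_lit 25, [(nat_lit 0, nat_lit 612), (nat_lit 1, nat_lit 288)])],
 ⟨p105_k6, nat_lit 0, nat_lit 0, nat_lit 0, nat_lit 0, nat_lit 0, [nat_lit 804670401, nat_lit 1454520000, nat_lit 2184793600], [], [nat_lit 28237084284, nat_lit 28738461797, nat_lit 29611991494, nat_lit 30079866732, nat_lit 28030718431, nat_lit 28505873142, nat_lit 29340229924, nat_lit 29790629142], nat_lit 0, nat_lit 0, nat_lit 0, nat_lit 0, nat_lit 0, nat_lit 0, [], [nat_lit 20, nat_lit 40, nat_lit 40, nat_lit 80]⟩, ⟨p105_k7, nat_lit 0, nat_lit 0, nat_lit 652, nat_lit 0, nat_lit 761985, [nat_lit 625000000, nat_lit 984200000, nat_lit 1405800000], [], [nat_lit 3917164846, nat_lit 3910412904, nat_lit 3996569712, nat_lit 3993319056,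 nat_lit 3189183257, nat_lit 3177927766, nat_lit 3251023022, nat_lit 3235979242], nat_lit 1271250, nat_lit 1271250, nat_lit 1271250, nat_lit 1271250, nat_lit 0, nat_lit 1133651, [nat_lit 1412500, nat_lit 1271250, nat_lit 1271250], [nat_lit 60, nat_lit 40, nat_lit 40, nat_lit 80, nat_lit 32, nat_lit 428, nat_lit 200, nat_lit 10]⟩,
 ⟨nat_lit 2738, nat_lit 3163, ⟨.ofNat (nat_lit 705013), .ofNat (nat_lit 753776), .ofNat (nat_lit 727168), .ofNat (nat_lit 775931), .ofNat (nat_lit 699600), .ofNat (nat_lit 746849), .ofNat (nat_lit 722017), .ofNat (nat_lit 769266)⟩, ⟨.ofNat (nat_lit 0), .ofNat (nat_lit 48461), .ofNat (nat_lit 0), .ofNat (nat_lit 50000), .ofNat (nat_lit 0), .ofNat (nat_lit 50000), .ofNat (nat_lit 0), .ofNat (nat_lit 50000)⟩⟩, [⟨nat_lit 13, nat_lit 57, nat_lit 74, nat_lit 100, nat_lit 283103477⟩, ⟨nat_lit 3, nat_lit 100, nat_lit 85, nat_lit 18, nat_lit 47422800⟩]⟩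
noncomputable def p105_l15 : Lf2 := ⟨nat_lit 0, nat_lit 15, [nat_lit 30, nat_lit 5, nat_lit 5, nat_lit 20], true, nat_lit 0, nat_lit 20, nat_lit 0, nat_lit 164, ⟨nat_lit 0, nat_lit 1000, nat_lit 0, nat_lit 8, nat_lit 289, nat_lit 1000, nat_lit 10, nat_lit 0, nat_lit 0, nat_lit 0, nat_lit 0, nat_lit 0, nat_lit 44020128, nat_lit 22979872, nat_lit 0, nat_lit 3214971, true, true⟩,
 nat_lit 0, nat_lit 0, nat_lit 0, nat_lit 4524, nat_lit 2668, nat_lit 0, nat_lit 89, nat_lit 0, nat_lit 0, nat_lit 0, nat_lit 0, nat_lit 0, nat_lit 0, nat_lit 0, nat_lit 0, nat_lit 250000, nat_lit 0, nat_lit 0, [(nat_lit 25, [(nat_lit 0, nat_lit 1000)])],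
 ⟨p105_k8, nat_lit 0, nat_lit 0, nat_lit 0, nat_lit 0, nat_lit 0, [nat_lit 764000001, nat_lit 1368800000, nat_lit 1715600000], [], [nat_lit 27202442421, nat_lit 27683357593, nat_lit 28012978175, nat_lit 28482561620, nat_lit 27005687075, nat_lit 27480367629, nat_lit 27806542349, nat_lit 28261922369], nat_lit 0, nat_lit 0, nat_lit 0, nat_lit 0, nat_lit 0, nat_lit 0, [], [nat_lit 35, nat_lit 40, nat_lit 40, nat_lit 80]⟩, C1.Rw.none,
 ⟨nat_lit 2236, nat_lit 2739, ⟨.ofNat (nat_lit 699600), .ofNat (nat_lit 729131), .ofNat (nat_lit 722017), .ofNat (nat_lit 751548), .ofNat (nat_lit 693819), .ofNat (nat_lit 722327), .ofNat (nat_lit 716594), .ofNat (nat_lit 745101)⟩, ⟨.ofNat (nat_lit 0), .ofNat (nat_lit 50000), .ofNat (nat_lit 0), .ofNat (nat_lit 50000), .ofNat (nat_lit 0), .ofNat (nat_lit 50000), .ofNat (nat_lit 0), .ofNat (nat_lit 50000)⟩⟩, [⟨nat_lit 13, nat_lit 49, nat_lit 80, nat_lit 100, nat_lit 174735216⟩, ⟨nat_lit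 13, nat_lit 54, nat_lit 74, nat_lit 100, nat_lit 187438333⟩, ⟨nat_lit 3, nat_lit 100, nat_lit 73, nat_lit 33, nat_lit 67435897⟩]⟩
noncomputable def p105_l16 : Lf2 := ⟨nat_lit 0, nat_lit 20, [nat_lit 5, nat_lit 5, nat_lit 5, nat_lit 20], false, nat_lit 0, nat_lit 20, nat_lit 0, nat_lit 164, ⟨nat_lit 140, nat_lit 860, nat_lit 0, nat_lit 8, nat_lit 295, nat_lit 860, nat_lit 10, nat_lit 0, nat_lit 0, nat_lit 0, nat_lit 0, nat_lit 0, nat_lit 43398387, nat_lit 23601613, nat_lit 0, nat_lit 3244180, true, true⟩,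
 nat_lit 0, nat_lit 0, nat_lit 2320, nat_lit 0, nat_lit 2869, nat_lit 1109, nat_lit 0, nat_lit 0, nat_lit 0, nat_lit 121, nat_lit 0, nat_lit 0, nat_lit 0, nat_lit 0, nat_lit 0, nat_lit 295550, nat_lit 0, nat_lit 0, [(nat_lit 25, [(nat_lit 0, nat_lit 323), (nat_lit 1, nat_lit 537)])],
 ⟨p105_k0, nat_lit 0, nat_lit 0, nat_lit 0, nat_lit 0, nat_lit 0, [nat_lit 831749601, nat_lit 1439748001, nat_lit 2050576400], [], [nat_lit 28158355939, nat_lit 28639045848, nat_lit 29482474855, nat_lit 29931500266, nat_lit 27954411550, nat_lit 28428685752, nat_lit 29261866106, nat_lit 29705137110], nat_lit 0, nat_lit 0, nat_lit 0, nat_lit 0, nat_lit 0, nat_lit 0, [], [nat_lit 20, nat_lit 40, nat_lit 40, nat_lit 80]⟩, ⟨p105_k3, nat_lit 0, nat_lit 0, nat_lit 607, nat_lit 0, nat_lit 643281, [nat_lit 875000000, nat_lit 1377880000, nat_lit 1968120000], [], [nat_lit 5946464578, nat_lit 5953724780, nat_lit 6080244390, nat_lit 6083258993,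 nat_lit 5189290200, nat_lit 5193287573, nat_lit 5295997879, nat_lit 5294816393], nat_lit 1271250, nat_lit 1271250, nat_lit 1271250, nat_lit 1271250, nat_lit 0, nat_lit 1133651, [nat_lit 1412500, nat_lit 1271250, nat_lit 1271250], [nat_lit 60, nat_lit 40, nat_lit 40, nat_lit 80, nat_lit 32, nat_lit 428, nat_lit 200, nat_lit 10]⟩,
 ⟨nat_lit 2738, nat_lit 3163, ⟨.ofNat (nat_lit 705013), .ofNat (nat_lit 753776), .ofNat (nat_lit 727168), .ofNat (nat_lit 775931), .ofNat (nat_lit 699600), .ofNat (nat_lit 746849), .ofNat (nat_lit 722017), .ofNat (nat_lit 769266)⟩, ⟨.ofNat (nat_lit 0), .ofNat (nat_lit 50000), .ofNat (nat_lit 0), .ofNat (nat_lit 50000), .ofNat (nat_lit 0), .ofNat (nat_lit 50000), .ofNat (nat_lit 0), .ofNat (nat_lit 50000)⟩⟩, [⟨nat_lit 13, nat_lit 57, nat_lit 74, nat_lit 100, nat_lit 260067329⟩, ⟨nat_lit 3, nat_lit 100, nat_lit 74, nat_lit 34, nat_lit 49817018⟩]⟩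
noncomputable def p105_l17 : Lf2 := ⟨nat_lit 0, nat_lit 20, [nat_lit 5, nat_lit 5, nat_lit 5, nat_lit 20], false, nat_lit 4, nat_lit 20, nat_lit 0, nat_lit 164, ⟨nat_lit 109, nat_lit 891, nat_lit 0, nat_lit 8, nat_lit 290, nat_lit 891, nat_lit 12, nat_lit 0, nat_lit 0, nat_lit 0, nat_lit 0, nat_lit 0, nat_lit 43997044, nat_lit 23002956, nat_lit 0, nat_lit 3216089, true, true⟩,
 nat_lit 0, nat_lit 0, nat_lit 2229, nat_lit 0, nat_lit 2722, nat_lit 1066, nat_lit 181, nat_lit 0, nat_lit 0, nat_lit 106, nat_lit 0, nat_lit 0, nat_lit 0, nat_lit 0, nat_lit 0, nat_lit 222750, nat_lit 0, nat_lit 0, [(nat_lit 25, [(nat_lit 0, nat_lit 891)])],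
 ⟨p105_k2, nat_lit 0, nat_lit 0, nat_lit 0, nat_lit 0, nat_lit 0, [nat_lit 782966001, nat_lit 1577338800, nat_lit 2568388000], [], [nat_lit 27212160289, nat_lit 27447166472, nat_lit 28004911306, nat_lit 28230409016, nat_lit 27064257995, nat_lit 27296772424, nat_lit 27849220206, nat_lit 28072385512], nat_lit 0, nat_lit 0, nat_lit 0, nat_lit 0, nat_lit 0, nat_lit 0, [], [nat_lit 20, nat_lit 40, nat_lit 40, nat_lit 80]⟩, ⟨p105_k3, nat_lit 0, nat_lit 0, nat_lit 656, nat_lit 0, nat_lit 772899, [nat_lit 681250000, nat_lit 1072778000, nat_lit 1532322000], [], [nat_lit 4201883804, nat_lit 4193818176, nat_lit 4256141783, nat_lit 4254826488, nat_lit 3392371786, nat_lit 3379354275, nat_lit 3434520769, nat_lit 3418889126], nat_lit 1271250, nat_lit 1271250, nat_lit 1271250, nat_lit 1271250, nat_lit 0, nat_lit 1133651, [nat_lit 1412500, nat_lit 1271250, nat_lit 1271250], [nat_lit 60, nat_lit 40, nat_lit 40, nat_lit 80, nat_lit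 32, nat_lit 428, nat_lit 200, nat_lit 10]⟩,
 ⟨nat_lit 2500, nat_lit 2739, ⟨.ofNat (nat_lit 699600), .ofNat (nat_lit 729131), .ofNat (nat_lit 722017), .ofNat (nat_lit 751548), .ofNat (nat_lit 696773), .ofNat (nat_lit 725805), .ofNat (nat_lit 719353), .ofNat (nat_lit 748386)⟩, ⟨.ofNat (nat_lit 10000), .ofNat (nat_lit 50000), .ofNat (nat_lit 10000), .ofNat (nat_lit 50000), .ofNat (nat_lit 10000), .ofNat (nat_lit 50000), .ofNat (nat_lit 10000), .ofNat (nat_lit 50000)⟩⟩, [⟨nat_lit 13, nat_lit 51, nat_lit 79, nat_lit 100, nat_lit 293610232⟩, ⟨nat_lit 3, nat_lit 100, nat_lit 67, nat_lit 43, nat_lit 55202241⟩]⟩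
noncomputable def p105_l18 : Lf2 := ⟨nat_lit 0, nat_lit 20, [nat_lit 5, nat_lit 5, nat_lit 5, nat_lit 20], false, nat_lit 8, nat_lit 20, nat_lit 0, nat_lit 164, ⟨nat_lit 94, nat_lit 906, nat_lit 0, nat_lit 8, nat_lit 286, nat_lit 906, nat_lit 14, nat_lit 0, nat_lit 0, nat_lit 0, nat_lit 0, nat_lit 0, nat_lit 44153888, nat_lit 22624999, nat_lit 221113, nat_lit 3328094, true, true⟩,
 nat_lit 0, nat_lit 0, nat_lit 1951, nat_lit 0, nat_lit 2624, nat_lit 932, nat_lit 179, nat_lit 0, nat_lit 0, nat_lit 93, nat_lit 0, nat_lit 0, nat_lit 0, nat_lit 0, nat_lit 0, nat_lit 226500, nat_lit 0, nat_lit 0, [(nat_lit 25, [(nat_lit 0, nat_lit 906)])],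
 ⟨p105_k9, nat_lit 0, nat_lit 0, nat_lit 0, nat_lit 0, nat_lit 0, [nat_lit 780356001, nat_lit 1548640801, nat_lit 2506408000], [], [nat_lit 27094183761, nat_lit 27325447959, nat_lit 27557930640, nat_lit 27783651201, nat_lit 26991618381, nat_lit 27221051028, nat_lit 27451994030, nat_lit 27675952954], nat_lit 0, nat_lit 0, nat_lit 0, nat_lit 0, nat_lit 0, nat_lit 0, [], [nat_lit 20, nat_lit 40, nat_lit 40, nat_lit 80]⟩, ⟨p105_k3, nat_lit 0, nat_lit 0, nat_lit 734, nat_lit 0, nat_lit 905006, [nat_lit 587500000, nat_lit 925148000, nat_lit 1321452000], [], [nat_lit 3572923656, nat_lit 3565419024, nat_lit 3607767982, nat_lit 3608977578, nat_lit 2862362318, nat_lit 2850553809, nat_lit 2884181147, nat_lit 2871004442], nat_lit 1271250, nat_lit 1271250, nat_lit 1271250, nat_lit 1271250, nat_lit 0, nat_lit 1133651, [nat_lit 1412500, nat_lit 1271250, nat_lit 1271250], [nat_lit 60, nat_lit 40, nat_lit 40, nat_lit 80, nat_lit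 32, nat_lit 428, nat_lit 200, nat_lit 10]⟩,
 ⟨nat_lit 2236, nat_lit 2500, ⟨.ofNat (nat_lit 696773), .ofNat (nat_lit 714192), .ofNat (nat_lit 719353), .ofNat (nat_lit 736773), .ofNat (nat_lit 693819), .ofNat (nat_lit 710924), .ofNat (nat_lit 716594), .ofNat (nat_lit 733698)⟩, ⟨.ofNat (nat_lit 20000), .ofNat (nat_lit 50000), .ofNat (nat_lit 20000), .ofNat (nat_lit 50000), .ofNat (nat_lit 20000), .ofNat (nat_lit 50000), .ofNat (nat_lit 20000), .ofNat (nat_lit 50000)⟩⟩, [⟨nat_lit 13, nat_lit 49, nat_lit 78, nat_lit 100, nat_lit 331164479⟩, ⟨nat_lit 3, nat_lit 100, nat_lit 61, nat_lit 49, nat_lit 128510663⟩]⟩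
noncomputable def p105_l19 : Lf2 := ⟨nat_lit 0, nat_lit 20, [nat_lit 5, nat_lit 5, nat_lit 5, nat_lit 20], false, nat_lit 20, nat_lit 40, nat_lit 0, nat_lit 200, ⟨nat_lit 80, nat_lit 920, nat_lit 0, nat_lit 8, nat_lit 295, nat_lit 920, nat_lit 28, nat_lit 0, nat_lit 0, nat_lit 0, nat_lit 0, nat_lit 0, nat_lit 42937311, nat_lit 23442643, nat_lit 620046, nat_lit 3544311, true, true⟩,
 nat_lit 0, nat_lit 0, nat_lit 1553, nat_lit 0, nat_lit 2897, nat_lit 742, nat_lit 0, nat_lit 0, nat_lit 0, nat_lit 61, nat_lit 0, nat_lit 0, nat_lit 0, nat_lit 0, nat_lit 0, nat_lit 281750, nat_lit 0, nat_lit 0, [(nat_lit 25, [(nat_lit 0, nat_lit 575), (nat_lit 1, nat_lit 345)])],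
 ⟨p105_k0, nat_lit 0, nat_lit 0, nat_lit 0, nat_lit 0, nat_lit 0, [nat_lit 805796001, nat_lit 1395356000, nat_lit 2033594000], [], [nat_lit 27804082113, nat_lit 28280117333, nat_lit 29115650542, nat_lit 29577102883, nat_lit 27595319456, nat_lit 28064903478, nat_lit 28890137935, nat_lit 29329177753], nat_lit 0, nat_lit 0, nat_lit 0, nat_lit 0, nat_lit 0, nat_lit 0, [], [nat_lit 20, nat_lit 40, nat_lit 40, nat_lit 80]⟩, ⟨p105_k3, nat_lit 0, nat_lit 0, nat_lit 776, nat_lit 0, nat_lit 1014622, [nat_lit 500000000, nat_lit 787360000, nat_lit 1124640000], [], [nat_lit 3326860190, nat_lit 3315709696, nat_lit 3382952579, nat_lit 3375321946, nat_lit 2735866154, nat_lit 2726300424, nat_lit 2780588951, nat_lit 2768234604], nat_lit 1271250, nat_lit 1271250, nat_lit 1271250, nat_lit 1271250, nat_lit 0, nat_lit 1412500, [nat_lit 1412500, nat_lit 1271250, nat_lit 1271250], [nat_lit 60, nat_lit 40, nat_lit 40, nat_lit 80, nat_lit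 32, nat_lit 428, nat_lit 200, nat_lit 10]⟩,
 ⟨nat_lit 2738, nat_lit 3163, ⟨.ofNat (nat_lit 705013), .ofNat (nat_lit 753776), .ofNat (nat_lit 727168), .ofNat (nat_lit 775931), .ofNat (nat_lit 699600), .ofNat (nat_lit 746849), .ofNat (nat_lit 722017), .ofNat (nat_lit 769266)⟩, ⟨.ofNat (nat_lit 48461), .ofNat (nat_lit 78946), .ofNat (nat_lit 50000), .ofNat (nat_lit 100000), .ofNat (nat_lit 50000), .ofNat (nat_lit 84414), .ofNat (nat_lit 50000), .ofNat (nat_lit 100000)⟩⟩, [⟨nat_lit 13, nat_lit 57, nat_lit 74, nat_lit 100, nat_lit 277631480⟩]⟩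
noncomputable def p105_l20 : Lf2 := ⟨nat_lit 0, nat_lit 20, [nat_lit 5, nat_lit 5, nat_lit 5, nat_lit 20], false, nat_lit 20, nat_lit 40, nat_lit 0, nat_lit 200, ⟨nat_lit 70, nat_lit 930, nat_lit 0, nat_lit 8, nat_lit 289, nat_lit 930, nat_lit 29, nat_lit 0, nat_lit 0, nat_lit 0, nat_lit 0, nat_lit 0, nat_lit 43530381, nat_lit 22824171, nat_lit 645448, nat_lit 3525302, true, true⟩,
 nat_lit 0, nat_lit 0, nat_lit 1426, nat_lit 0, nat_lit 2765, nat_lit 682, nat_lit 162, nat_lit 0, nat_lit 0, nat_lit 60, nat_lit 0, nat_lit 0, nat_lit 0, nat_lit 0, nat_lit 0, nat_lit 232500, nat_lit 0, nat_lit 0, [(nat_lit 25, [(nat_lit 0, nat_lit 930)])],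
 ⟨p105_k2, nat_lit 0, nat_lit 0, nat_lit 0, nat_lit 0, nat_lit 0, [nat_lit 776180001, nat_lit 1502724000, nat_lit 2407240000], [], [nat_lit 26981963975, nat_lit 27449697252, nat_lit 27770676221, nat_lit 28277809543, nat_lit 26789632122, nat_lit 27251081512, nat_lit 27568530579, nat_lit 28011485920], nat_lit 0, nat_lit 0, nat_lit 0, nat_lit 0, nat_lit 0, nat_lit 0, [], [nat_lit 20, nat_lit 40, nat_lit 40, nat_lit 80]⟩, ⟨p105_k3, nat_lit 0, nat_lit 0, nat_lit 901, nat_lit 0, nat_lit 1280450, [nat_lit 437500000, nat_lit 688940000, nat_lit 984060000], [], [nat_lit 2770235092, nat_lit 2756180592, nat_lit 2810357792, nat_lit 2818551856, nat_lit 2226072386, nat_lit 2208684656, nat_lit 2236837159, nat_lit 2224440766], nat_lit 1271250, nat_lit 1271250, nat_lit 1271250, nat_lit 1271250, nat_lit 0, nat_lit 1412500, [nat_lit 1412500, nat_lit 1271250, nat_lit 1271250], [nat_lit 60, nat_lit 40, nat_lit 40, nat_lit 80, nat_lit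 32, nat_lit 428, nat_lit 200, nat_lit 10]⟩,
 ⟨nat_lit 2236, nat_lit 2739, ⟨.ofNat (nat_lit 699600), .ofNat (nat_lit 729131), .ofNat (nat_lit 722017), .ofNat (nat_lit 751548), .ofNat (nat_lit 693819), .ofNat (nat_lit 722327), .ofNat (nat_lit 716594), .ofNat (nat_lit 745101)⟩, ⟨.ofNat (nat_lit 50000), .ofNat (nat_lit 84414), .ofNat (nat_lit 50000), .ofNat (nat_lit 100000), .ofNat (nat_lit 50000), .ofNat (nat_lit 89742), .ofNat (nat_lit 50000), .ofNat (nat_lit 100000)⟩⟩, [⟨nat_lit 13, nat_lit 49, nat_lit 80, nat_lit 100, nat_lit 348718131⟩]⟩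
noncomputable def p105_l21 : Lf2 := ⟨nat_lit 0, nat_lit 20, [nat_lit 5, nat_lit 5, nat_lit 5, nat_lit 20], false, nat_lit 20, nat_lit 40, nat_lit 0, nat_lit 200, ⟨nat_lit 109, nat_lit 891, nat_lit 0, nat_lit 8, nat_lit 294, nat_lit 891, nat_lit 28, nat_lit 0, nat_lit 0, nat_lit 0, nat_lit 0, nat_lit 0, nat_lit 43061153, nat_lit 23308938, nat_lit 629909, nat_lit 3542099, true, true⟩,
 nat_lit 0, nat_lit 0, nat_lit 2077, nat_lit 0, nat_lit 3025, nat_lit 993, nat_lit 0, nat_lit 0, nat_lit 0, nat_lit 98, nat_lit 0, nat_lit 0, nat_lit 0, nat_lit 0, nat_lit 0, nat_lit 222750, nat_lit 0, nat_lit 0, [(nat_lit 25, [(nat_lit 0, nat_lit 891)])],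
 ⟨p105_k0, nat_lit 0, nat_lit 0, nat_lit 0, nat_lit 0, nat_lit 0, [nat_lit 782966001, nat_lit 1577338800, nat_lit 2568388000], [], [nat_lit 28414417250, nat_lit 29423348250, nat_lit 29795076531, nat_lit 30734851360, nat_lit 28120532000, nat_lit 29116437450, nat_lit 29484613680, nat_lit 30412797030], nat_lit 0, nat_lit 0, nat_lit 0, nat_lit 0, nat_lit 0, nat_lit 0, [], [nat_lit 20, nat_lit 40, nat_lit 40, nat_lit 80]⟩, ⟨p105_k3, nat_lit 0, nat_lit 0, nat_lit 648, nat_lit 0, nat_lit 751730, [nat_lit 681250000, nat_lit 1072778000, nat_lit 1532322000], [], [nat_lit 4342202848, nat_lit 4342473816, nat_lit 4473562092, nat_lit 4469070869, nat_lit 3547299871, nat_lit 3551038302, nat_lit 3653890889, nat_lit 3652277581], nat_lit 1271250, nat_lit 1271250, nat_lit 1271250, nat_lit 1271250, nat_lit 0, nat_lit 1412500, [nat_lit 1412500, nat_lit 1271250, nat_lit 1271250], [nat_lit 60, nat_lit 40, nat_lit 40, nat_lit 80, nat_lit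 32, nat_lit 428, nat_lit 200, nat_lit 10]⟩,
 ⟨nat_lit 2236, nat_lit 3163, ⟨.ofNat (nat_lit 705013), .ofNat (nat_lit 753776), .ofNat (nat_lit 727168), .ofNat (nat_lit 775931), .ofNat (nat_lit 693819), .ofNat (nat_lit 739432), .ofNat (nat_lit 716594), .ofNat (nat_lit 762206)⟩, ⟨.ofNat (nat_lit 48460), .ofNat (nat_lit 78946), .ofNat (nat_lit 50000), .ofNat (nat_lit 100000), .ofNat (nat_lit 50000), .ofNat (nat_lit 89742), .ofNat (nat_lit 50000), .ofNat (nat_lit 100000)⟩⟩, [⟨nat_lit 13, nat_lit 53, nat_lit 77, nat_lit 100, nat_lit 327982480⟩]⟩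
noncomputable def p105_l22 : Lf2 := ⟨nat_lit 2, nat_lit 20, [nat_lit 5, nat_lit 5, nat_lit 5, nat_lit 20], true, nat_lit 0, nat_lit 40, nat_lit 0, nat_lit 200, zbN0,
 nat_lit 0, nat_lit 0, nat_lit 0, nat_lit 0, nat_lit 0, nat_lit 0, nat_lit 0, nat_lit 0, nat_lit 0, nat_lit 0, nat_lit 0, nat_lit 0, nat_lit 0, nat_lit 0, nat_lit 0, nat_lit 0, nat_lit 0, nat_lit 0, [],
 ⟨p105_k10, nat_lit 0, nat_lit 0, nat_lit 172, nat_lit 0, nat_lit 0, [], [], [], nat_lit 0, nat_lit 0, nat_lit 0, nat_lit 0, nat_lit 0, nat_lit 0, [], [nat_lit 55, nat_lit 40, nat_lit 40, nat_lit 80, nat_lit 3, nat_lit 215, nat_lit 10, nat_lit 7]⟩, C1.Rw.none,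
 zbF0, []⟩
noncomputable def p105_l23 : Lf2 := ⟨nat_lit 0, nat_lit 20, [nat_lit 5, nat_lit 5, nat_lit 5, nat_lit 20], false, nat_lit 40, nat_lit 80, nat_lit 0, nat_lit 260, ⟨nat_lit 26, nat_lit 974, nat_lit 0, nat_lit 8, nat_lit 294, nat_lit 974, nat_lit 52, nat_lit 0, nat_lit 0, nat_lit 0, nat_lit 0, nat_lit 0, nat_lit 42388973, nat_lit 23073462, nat_lit 1537565, nat_lit 3843524, true, true⟩,
 nat_lit 0, nat_lit 0, nat_lit 521, nat_lit 2443, nat_lit 2994, nat_lit 249, nat_lit 0, nat_lit 0, nat_lit 0, nat_lit 23, nat_lit 0, nat_lit 0, nat_lit 0, nat_lit 0, nat_lit 0, nat_lit 243500, nat_lit 0, nat_lit 0, [(nat_lit 25, [(nat_lit 0, nat_lit 974)])],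
 ⟨p105_k0, nat_lit 0, nat_lit 0, nat_lit 140, nat_lit 0, nat_lit 0, [nat_lit 768524001, nat_lit 1418543200, nat_lit 2225432000], [], [nat_lit 27638298992, nat_lit 28630163964, nat_lit 28997682461, nat_lit 29966515564, nat_lit 27063896689, nat_lit 28028328948, nat_lit 28388768517, nat_lit 29290341560], nat_lit 0, nat_lit 0, nat_lit 0, nat_lit 0, nat_lit 0, nat_lit 0, [], [nat_lit 20, nat_lit 40, nat_lit 40, nat_lit 80, nat_lit 16, nat_lit 226, nat_lit 20, nat_lit 7]⟩, ⟨p105_k3, nat_lit 0, nat_lit 0, nat_lit 914, nat_lit 0, nat_lit 1314606, [nat_lit 162500000, nat_lit 255892000, nat_lit 365508000], [], [nat_lit 1042542696, nat_lit 1037549212, nat_lit 1069854189, nat_lit 1068208852, nat_lit 826586429, nat_lit 820453828, nat_lit 836844092, nat_lit 831595632], nat_lit 1271250, nat_lit 1271250, nat_lit 1271250, nat_lit 1271250, nat_lit 0, nat_lit 1836250, [nat_lit 1412500, nat_lit 1271250, nat_lit 1271250], [nat_lit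 60, nat_lit 40, nat_lit 40, nat_lit 80, nat_lit 32, nat_lit 456, nat_lit 225, nat_lit 10]⟩,
 ⟨nat_lit 2236, nat_lit 3163, ⟨.ofNat (nat_lit 705013), .ofNat (nat_lit 753776), .ofNat (nat_lit 727168), .ofNat (nat_lit 775931), .ofNat (nat_lit 693819), .ofNat (nat_lit 739432), .ofNat (nat_lit 716594), .ofNat (nat_lit 762206)⟩, ⟨.ofNat (nat_lit 78946), .ofNat (nat_lit 139899), .ofNat (nat_lit 100000), .ofNat (nat_lit 184209), .ofNat (nat_lit 89742), .ofNat (nat_lit 146758), .ofNat (nat_lit 100000), .ofNat (nat_lit 192306)⟩⟩, [⟨nat_lit 13, nat_lit 53, nat_lit 77, nat_lit 100, nat_lit 343825823⟩]⟩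
noncomputable def p105_l24 : Lf2 := ⟨nat_lit 0, nat_lit 20, [nat_lit 5, nat_lit 5, nat_lit 5, nat_lit 20], true, nat_lit 0, nat_lit 80, nat_lit 0, nat_lit 260, ⟨nat_lit 0, nat_lit 1000, nat_lit 0, nat_lit 8, nat_lit 275, nat_lit 1000, nat_lit 34, nat_lit 0, nat_lit 0, nat_lit 0, nat_lit 0, nat_lit 0, nat_lit 45513869, nat_lit 21486131, nat_lit 0, nat_lit 3136936, true, true⟩,
 nat_lit 0, nat_lit 0, nat_lit 0, nat_lit 4157, nat_lit 2359, nat_lit 0, nat_lit 0, nat_lit 0, nat_lit 0, nat_lit 0, nat_lit 0, nat_lit 0, nat_lit 0, nat_lit 0, nat_lit 0, nat_lit 392200, nat_lit 0, nat_lit 0, [(nat_lit 28, [(nat_lit 0, nat_lit 52), (nat_lit 1, nat_lit 948)])],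
 ⟨p105_k5, nat_lit 0, nat_lit 0, nat_lit 166, nat_lit 0, nat_lit 0, [nat_lit 701968000, nat_lit 364257601, nat_lit 211964800], [], [nat_lit 26683666908, nat_lit 27873834404, nat_lit 26850289461, nat_lit 28059034447, nat_lit 26094738536, nat_lit 27006253176, nat_lit 26246419158, nat_lit 27150839272], nat_lit 0, nat_lit 0, nat_lit 0, nat_lit 0, nat_lit 0, nat_lit 0, [], [nat_lit 20, nat_lit 40, nat_lit 40, nat_lit 80, nat_lit 16, nat_lit 226, nat_lit 20, nat_lit 7]⟩, C1.Rw.none,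
 ⟨nat_lit 0, nat_lit 2237, ⟨.ofNat (nat_lit 671039), .ofNat (nat_lit 676741), .ofNat (nat_lit 716590), .ofNat (nat_lit 722292), .ofNat (nat_lit 649993), .ofNat (nat_lit 654993), .ofNat (nat_lit 699995), .ofNat (nat_lit 704996)⟩, ⟨.ofNat (nat_lit 0), .ofNat (nat_lit 146756), .ofNat (nat_lit 0), .ofNat (nat_lit 192306), .ofNat (nat_lit 0), .ofNat (nat_lit 149997), .ofNat (nat_lit 0), .ofNat (nat_lit 199999)⟩⟩, [⟨nat_lit 13, nat_lit 44, nat_lit 81, nat_lit 100, nat_lit 456191392⟩, ⟨nat_lit 3, nat_lit 100, nat_lit 44, nat_lit 64, nat_lit 38420135⟩]⟩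
noncomputable def b_V_900_500_10_9 : St := ⟨true, nat_lit 0, nat_lit 1, nat_lit 1, nat_lit 80, nat_lit 360, nat_lit 400, nat_lit 200, nat_lit 240, nat_lit 240, nat_lit 352, nat_lit 40, nat_lit 80, nat_lit 0, nat_lit 80, nat_lit 0, nat_lit 360, nat_lit 80, nat_lit 120, nat_lit 0, nat_lit 0, nat_lit 0, nat_lit 0⟩
theorem d_V_900_500_10_9 (h : EB TB.env) : Dead b_V_900_500_10_9 := chkB_sound0 h (T :=
(.trX (nat_lit 22) (nat_lit 100) (nat_lit 76) (nat_lit 82) (nat_lit 336) (.spl (nat_lit 2) (nat_lit 320)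
(.spl (nat_lit 2) (nat_lit 280)
(.spl (nat_lit 0) (nat_lit 380)
(.leaf p105_l0)
(.leaf p105_l1))
(.trX (nat_lit 22) (nat_lit 100) (nat_lit 95) (nat_lit 87) (nat_lit 300) (.spl (nat_lit 0) (nat_lit 380)
(.spl (nat_lit 1) (nat_lit 220)
(.spl (nat_lit 0) (nat_lit 370)
(.leaf p105_l2)
(.leaf p105_l3))
(.spl (nat_lit 4) (nat_lit 40)
(.trX (nat_lit 22) (nat_lit 94) (nat_lit 100) (nat_lit 62) (nat_lit 248) (.spl (nat_lit 6) (nat_lit 100)
(.spl (nat_lit 0) (nat_lit 370)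
(.leaf p105_l4)
(.leaf p105_l5))
(.spl (nat_lit 1) (nat_lit 230)
(.leaf p105_l6)
(.leaf p105_l7))))
(.leaf p105_l8)))
(.spl (nat_lit 4) (nat_lit 40)
(.trX (nat_lit 22) (nat_lit 94) (nat_lit 100) (nat_lit 62) (nat_lit 248) (.spl (nat_lit 1) (nat_lit 220)
(.trX (nat_lit 13) (nat_lit 44) (nat_lit 86) (nat_lit 100) (nat_lit 308) (.leaf p105_l9))
(.leaf p105_l10)))
(.leaf p105_l11)))))
(.trX (nat_lit 22) (nat_lit 83) (nat_lit 100) (nat_lit 83) (nat_lit 260) (.spl (nat_lit 0) (nat_lit 380)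
(.spl (nat_lit 1) (nat_lit 220)
(.trX (nat_lit 13) (nat_lit 60) (nat_lit 74) (nat_lit 100) (nat_lit 336) (.leaf p105_l12))
(.spl (nat_lit 4) (nat_lit 40)
(.trX (nat_lit 22) (nat_lit 80) (nat_lit 100) (nat_lit 60) (nat_lit 200) (.spl (nat_lit 8) (nat_lit 800)
(.leaf p105_l13)
(.spl (nat_lit 7) (nat_lit 600)
(.spl (nat_lit 4) (nat_lit 20)
(.trX (nat_lit 22) (nat_lit 82) (nat_lit 100) (nat_lit 44) (nat_lit 164) (.spl (nat_lit 3) (nat_lit 60)
(.spl (nat_lit 0) (nat_lit 370)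
(.leaf p105_l14)
(.trX (nat_lit 13) (nat_lit 54) (nat_lit 74) (nat_lit 100) (nat_lit 340) (.leaf p105_l15)))
(.spl (nat_lit 0) (nat_lit 370)
(.leaf p105_l16)
(.trX (nat_lit 13) (nat_lit 54) (nat_lit 74) (nat_lit 100) (nat_lit 340) (.trZ (nat_lit 3) (nat_lit 100) (nat_lit 74) (nat_lit 33) (nat_lit 4) (.spl (nat_lit 0) (nat_lit 375)
(.leaf p105_l17)
(.trX (nat_lit 13) (nat_lit 49) (nat_lit 78) (nat_lit 100) (nat_lit 332) (.trZ (nat_lit 3) (nat_lit 100) (nat_lit 68) (nat_lit 40) (nat_lit 8) (.leaf p105_l18)))))))))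
(.spl (nat_lit 6) (nat_lit 100)
(.spl (nat_lit 0) (nat_lit 370)
(.leaf p105_l19)
(.trX (nat_lit 13) (nat_lit 54) (nat_lit 74) (nat_lit 100) (nat_lit 340) (.leaf p105_l20)))
(.leaf p105_l21)))
(.leaf p105_l22))))
(.leaf p105_l23)))
(.trX (nat_lit 13) (nat_lit 44) (nat_lit 81) (nat_lit 100) (nat_lit 324) (.leaf p105_l24))))))) (by decide +kernel)
noncomputable def p105_l25 : Lf2 := ⟨nat_lit 0, nat_lit 20, [nat_lit 5, nat_lit 5, nat_lit 5, nat_lit 20], true, nat_lit 80, nat_lit 200, nat_lit 0, nat_lit 360, ⟨nat_lit 0, nat_lit 704, nat_lit 296, nat_lit 6, nat_lit 243, nat_lit 1000, nat_lit 101, nat_lit 296, nat_lit 96267, nat_lit 291, nat_lit 61180, nat_lit 200, nat_lit 45216767, nat_lit 17397041, nat_lit 4386192, nat_lit 4207903, true, true⟩,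
 nat_lit 0, nat_lit 0, nat_lit 0, nat_lit 2815, nat_lit 3344, nat_lit 0, nat_lit 0, nat_lit 0, nat_lit 0, nat_lit 0, nat_lit 0, nat_lit 0, nat_lit 0, nat_lit 0, nat_lit 0, nat_lit 230760, nat_lit 0, nat_lit 0, [(nat_lit 25, [(nat_lit 0, nat_lit 704), (nat_lit 3, nat_lit 296)]), (nat_lit 28, [(nat_lit 0, nat_lit 704), (nat_lit 3, nat_lit 296)])],
 ⟨p105_k11, nat_lit 0, nat_lit 0, nat_lit 106, nat_lit 0, nat_lit 0, [nat_lit 1014848000, nat_lit 1094905600], [], [nat_lit 22409591584, nat_lit 24993965792, nat_lit 23887288352, nat_lit 26309055936, nat_lit 23937052384, nat_lit 26079675360, nat_lit 25194437664, nat_lit 27186882368], nat_lit 0, nat_lit 0, nat_lit 0, nat_lit 0, nat_lit 0, nat_lit 0, [], [nat_lit 88, nat_lit 40, nat_lit 40, nat_lit 80, nat_lit 89, nat_lit 260, nat_lit 50, nat_lit 8]⟩, C1.Rw.none,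
 ⟨nat_lit 0, nat_lit 3163, ⟨.ofNat (nat_lit 560951), .ofNat (nat_lit 621903), .ofNat (nat_lit 605128), .ofNat (nat_lit 666215), .ofNat (nat_lit 549998), .ofNat (nat_lit 599997), .ofNat (nat_lit 599865), .ofNat (nat_lit 649999)⟩, ⟨.ofNat (nat_lit 139898), .ofNat (nat_lit 322753), .ofNat (nat_lit 184209), .ofNat (nat_lit 367065), .ofNat (nat_lit 149998), .ofNat (nat_lit 299993), .ofNat (nat_lit 199999), .ofNat (nat_lit 349995)⟩⟩, [⟨nat_lit 4, nat_lit 100, nat_lit 46, nat_lit 75, nat_lit 200366602⟩]⟩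
noncomputable def p105_l26 : Lf2 := ⟨nat_lit 0, nat_lit 20, [nat_lit 5, nat_lit 5, nat_lit 5, nat_lit 20], true, nat_lit 80, nat_lit 200, nat_lit 0, nat_lit 360, ⟨nat_lit 0, nat_lit 1000, nat_lit 0, nat_lit 7, nat_lit 265, nat_lit 1000, nat_lit 101, nat_lit 0, nat_lit 0, nat_lit 0, nat_lit 0, nat_lit 0, nat_lit 43138913, nat_lit 19581873, nat_lit 4279214, nat_lit 4334343, true, true⟩,
 nat_lit 0, nat_lit 0, nat_lit 0, nat_lit 2965, nat_lit 3885, nat_lit 0, nat_lit 0, nat_lit 0, nat_lit 0, nat_lit 0, nat_lit 0, nat_lit 0, nat_lit 0, nat_lit 0, nat_lit 0, nat_lit 250000, nat_lit 0, nat_lit 0, [(nat_lit 25, [(nat_lit 0, nat_lit 1000)]), (nat_lit 28, [(nat_lit 0, nat_lit 1000)])],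
 ⟨p105_k11, nat_lit 0, nat_lit 0, nat_lit 112, nat_lit 0, nat_lit 0, [nat_lit 781600001, nat_lit 2118000000], [], [nat_lit 24808679080, nat_lit 27409699440, nat_lit 26617000720, nat_lit 29053199660, nat_lit 25821012760, nat_lit 28039603840, nat_lit 27359719310, nat_lit 29395534300], nat_lit 0, nat_lit 0, nat_lit 0, nat_lit 0, nat_lit 0, nat_lit 0, [], [nat_lit 88, nat_lit 40, nat_lit 40, nat_lit 80, nat_lit 89, nat_lit 260, nat_lit 50, nat_lit 8]⟩, C1.Rw.none,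
 ⟨nat_lit 0, nat_lit 3163, ⟨.ofNat (nat_lit 621903), .ofNat (nat_lit 682855), .ofNat (nat_lit 666215), .ofNat (nat_lit 727166), .ofNat (nat_lit 599997), .ofNat (nat_lit 649995), .ofNat (nat_lit 649999), .ofNat (nat_lit 699997)⟩, ⟨.ofNat (nat_lit 139898), .ofNat (nat_lit 322753), .ofNat (nat_lit 184209), .ofNat (nat_lit 367065), .ofNat (nat_lit 149998), .ofNat (nat_lit 299993), .ofNat (nat_lit 199999), .ofNat (nat_lit 349995)⟩⟩, [⟨nat_lit 13, nat_lit 44, nat_lit 86, nat_lit 100, nat_lit 204815504⟩, ⟨nat_lit 4, nat_lit 100, nat_lit 46, nat_lit 75, nat_lit 109466843⟩]⟩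
noncomputable def p105_l27 : Lf2 := ⟨nat_lit 0, nat_lit 20, [nat_lit 5, nat_lit 5, nat_lit 5, nat_lit 20], true, nat_lit 80, nat_lit 200, nat_lit 0, nat_lit 360, ⟨nat_lit 0, nat_lit 1000, nat_lit 0, nat_lit 8, nat_lit 289, nat_lit 1000, nat_lit 102, nat_lit 0, nat_lit 0, nat_lit 0, nat_lit 0, nat_lit 0, nat_lit 40868060, nat_lit 21923281, nat_lit 4208659, nat_lit 4448380, true, true⟩,
 nat_lit 0, nat_lit 0, nat_lit 0, nat_lit 3095, nat_lit 3905, nat_lit 0, nat_lit 0, nat_lit 0, nat_lit 0, nat_lit 0, nat_lit 0, nat_lit 0, nat_lit 0, nat_lit 0, nat_lit 0, nat_lit 250000, nat_lit 0, nat_lit 0, [(nat_lit 25, [(nat_lit 0, nat_lit 1000)])],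
 ⟨p105_k0, nat_lit 0, nat_lit 0, nat_lit 117, nat_lit 0, nat_lit 0, [nat_lit 764000001, nat_lit 1368800000, nat_lit 2118000000], [], [nat_lit 26616622160, nat_lit 27807839710, nat_lit 28218491632, nat_lit 29459288168, nat_lit 27350671430, nat_lit 28370842665, nat_lit 28721198910, nat_lit 29743490964], nat_lit 0, nat_lit 0, nat_lit 0, nat_lit 0, nat_lit 0, nat_lit 0, [], [nat_lit 20, nat_lit 40, nat_lit 40, nat_lit 80, nat_lit 16, nat_lit 260, nat_lit 50, nat_lit 8]⟩, C1.Rw.none,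
 ⟨nat_lit 2236, nat_lit 3163, ⟨.ofNat (nat_lit 682859), .ofNat (nat_lit 731621), .ofNat (nat_lit 727168), .ofNat (nat_lit 775931), .ofNat (nat_lit 671045), .ofNat (nat_lit 716658), .ofNat (nat_lit 716594), .ofNat (nat_lit 762206)⟩, ⟨.ofNat (nat_lit 139899), .ofNat (nat_lit 322759), .ofNat (nat_lit 184209), .ofNat (nat_lit 367069), .ofNat (nat_lit 146758), .ofNat (nat_lit 317804), .ofNat (nat_lit 192306), .ofNat (nat_lit 363353)⟩⟩, [⟨nat_lit 13, nat_lit 61, nat_lit 68, nat_lit 100, nat_lit 330030118⟩, ⟨nat_lit 4, nat_lit 100, nat_lit 54, nat_lit 73, nat_lit 40138055⟩]⟩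
noncomputable def p105_l28 : Lf2 := ⟨nat_lit 0, nat_lit 20, [nat_lit 5, nat_lit 5, nat_lit 5, nat_lit 20], true, nat_lit 80, nat_lit 164, nat_lit 0, nat_lit 336, ⟨nat_lit 0, nat_lit 1000, nat_lit 0, nat_lit 8, nat_lit 275, nat_lit 1000, nat_lit 91, nat_lit 0, nat_lit 0, nat_lit 0, nat_lit 0, nat_lit 0, nat_lit 42649766, nat_lit 20683249, nat_lit 3666985, nat_lit 4268673, true, true⟩,
 nat_lit 0, nat_lit 0, nat_lit 0, nat_lit 2923, nat_lit 3727, nat_lit 0, nat_lit 0, nat_lit 0, nat_lit 0, nat_lit 0, nat_lit 0, nat_lit 0, nat_lit 0, nat_lit 0, nat_lit 0, nat_lit 250000, nat_lit 0, nat_lit 0, [(nat_lit 28, [(nat_lit 0, nat_lit 1000)])],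
 ⟨p105_k5, nat_lit 0, nat_lit 0, nat_lit 117, nat_lit 0, nat_lit 0, [nat_lit 781600001, nat_lit 1083600000, nat_lit 1719333334], [], [nat_lit 27386890648, nat_lit 28778988132, nat_lit 27572500781, nat_lit 28989573866, nat_lit 27482779907, nat_lit 28635575838, nat_lit 27651338357, nat_lit 28827491859], nat_lit 0, nat_lit 0, nat_lit 0, nat_lit 0, nat_lit 0, nat_lit 0, [], [nat_lit 20, nat_lit 40, nat_lit 40, nat_lit 80, nat_lit 16, nat_lit 260, nat_lit 50, nat_lit 8]⟩, C1.Rw.none,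
 ⟨nat_lit 0, nat_lit 2237, ⟨.ofNat (nat_lit 671039), .ofNat (nat_lit 676741), .ofNat (nat_lit 716590), .ofNat (nat_lit 722292), .ofNat (nat_lit 649993), .ofNat (nat_lit 654993), .ofNat (nat_lit 699995), .ofNat (nat_lit 704996)⟩, ⟨.ofNat (nat_lit 146756), .ofNat (nat_lit 266484), .ofNat (nat_lit 192306), .ofNat (nat_lit 312035), .ofNat (nat_lit 149997), .ofNat (nat_lit 254993), .ofNat (nat_lit 199999), .ofNat (nat_lit 304995)⟩⟩, [⟨nat_lit 13, nat_lit 44, nat_lit 81, nat_lit 100, nat_lit 488895510⟩, ⟨nat_lit 16, nat_lit 44, nat_lit 100, nat_lit 82, nat_lit 20320478⟩]⟩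
noncomputable def b_V_900_500_10_10 : St := ⟨true, nat_lit 0, nat_lit 1, nat_lit 1, nat_lit 80, nat_lit 360, nat_lit 400, nat_lit 200, nat_lit 240, nat_lit 240, nat_lit 352, nat_lit 40, nat_lit 80, nat_lit 80, nat_lit 200, nat_lit 0, nat_lit 360, nat_lit 80, nat_lit 120, nat_lit 0, nat_lit 0, nat_lit 0, nat_lit 0⟩
theorem d_V_900_500_10_10 (h : EB TB.env) : Dead b_V_900_500_10_10 := chkB_sound0 h (T :=
(.spl (nat_lit 2) (nat_lit 320)
(.spl (nat_lit 2) (nat_lit 280)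
(.leaf p105_l25)
(.leaf p105_l26))
(.spl (nat_lit 0) (nat_lit 380)
(.leaf p105_l27)
(.trX (nat_lit 13) (nat_lit 44) (nat_lit 81) (nat_lit 100) (nat_lit 324) (.trX (nat_lit 16) (nat_lit 44) (nat_lit 100) (nat_lit 82) (nat_lit 164) (.trX (nat_lit 22) (nat_lit 81) (nat_lit 75) (nat_lit 100) (nat_lit 336) (.leaf p105_l28))))))) (by decide +kernel)
noncomputable def p105_l29 : Lf2 := ⟨nat_lit 0, nat_lit 20, [nat_lit 5, nat_lit 5, nat_lit 5, nat_lit 20], false, nat_lit 0, nat_lit 80, nat_lit 0, nat_lit 360, ⟨nat_lit 112, nat_lit 0, nat_lit 888, nat_lit 5, nat_lit 185, nat_lit 419, nat_lit 33, nat_lit 888, nat_lit 10417, nat_lit 240, nat_lit 417, nat_lit 210, nat_lit 55204516, nat_lit 0, nat_lit 0, nat_lit 2326767, false, false⟩,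
 nat_lit 0, nat_lit 2890, nat_lit 0, nat_lit 0, nat_lit 2517, nat_lit 2402, nat_lit 0, nat_lit 0, nat_lit 0, nat_lit 0, nat_lit 0, nat_lit 0, nat_lit 0, nat_lit 0, nat_lit 48, nat_lit 222000, nat_lit 0, nat_lit 0, [(nat_lit 25, [(nat_lit 4, nat_lit 888)])],
 ⟨p105_k0, nat_lit 0, nat_lit 0, nat_lit 308, nat_lit 0, nat_lit 368289, [nat_lit 943520000, nat_lit 622246401, nat_lit 44364799], [], [nat_lit 19114915195, nat_lit 19790379795, nat_lit 22500813175, nat_lit 23040582394, nat_lit 18942441615, nat_lit 19561555090, nat_lit 22245469263, nat_lit 22809003977], nat_lit 1271250, nat_lit 1271250, nat_lit 490000, nat_lit 1740000, nat_lit 0, nat_lit 490000, [nat_lit 230000, nat_lit 780000, nat_lit 1435000], [nat_lit 20, nat_lit 40, nat_lit 40, nat_lit 80, nat_lit 16, nat_lit 317, nat_lit 100, nat_lit 12]⟩, ⟨p105_k12, nat_lit 0, nat_lit 0, nat_lit 381, nat_lit 0, nat_lit 0, [nat_lit 700000000, nat_lit 1102304000, nat_lit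 1574496000], [], [nat_lit 6493917360, nat_lit 6521346344, nat_lit 5504979512, nat_lit 5458052336, nat_lit 4961804504, nat_lit 4988404812, nat_lit 3968722208, nat_lit 3921023108], nat_lit 0, nat_lit 0, nat_lit 0, nat_lit 0, nat_lit 0, nat_lit 0, [], [nat_lit 60, nat_lit 40, nat_lit 40, nat_lit 80, nat_lit 32, nat_lit 456, nat_lit 225, nat_lit 11]⟩,
 ⟨nat_lit 2738, nat_lit 3163, ⟨.ofNat (nat_lit 317085), .ofNat (nat_lit 560952), .ofNat (nat_lit 361370), .ofNat (nat_lit 605257), .ofNat (nat_lit 322761), .ofNat (nat_lit 559060), .ofNat (nat_lit 367571), .ofNat (nat_lit 603890)⟩, ⟨.ofNat (nat_lit 0), .ofNat (nat_lit 139899), .ofNat (nat_lit 0), .ofNat (nat_lit 184209), .ofNat (nat_lit 0), .ofNat (nat_lit 143475), .ofNat (nat_lit 0), .ofNat (nat_lit 188310)⟩⟩, [⟨nat_lit 7, nat_lit 77, nat_lit 100, nat_lit 72, nat_lit 722850⟩]⟩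
noncomputable def p105_l30 : Lf2 := ⟨nat_lit 0, nat_lit 20, [nat_lit 5, nat_lit 5, nat_lit 5, nat_lit 20], false, nat_lit 0, nat_lit 80, nat_lit 0, nat_lit 360, ⟨nat_lit 120, nat_lit 0, nat_lit 880, nat_lit 5, nat_lit 189, nat_lit 880, nat_lit 34, nat_lit 880, nat_lit 10417, nat_lit 240, nat_lit 2958, nat_lit 211, nat_lit 54742065, nat_lit 0, nat_lit 0, nat_lit 2379217, false, false⟩,
 nat_lit 0, nat_lit 2795, nat_lit 0, nat_lit 0, nat_lit 2522, nat_lit 2579, nat_lit 0, nat_lit 0, nat_lit 0, nat_lit 0, nat_lit 0, nat_lit 0, nat_lit 0, nat_lit 0, nat_lit 45, nat_lit 220000, nat_lit 0, nat_lit 0, [(nat_lit 25, [(nat_lit 4, nat_lit 880)])],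
 ⟨p105_k2, nat_lit 0, nat_lit 0, nat_lit 329, nat_lit 0, nat_lit 437410, [nat_lit 933200001, nat_lit 615397334, nat_lit 47514666], [], [nat_lit 20165207900, nat_lit 20756712382, nat_lit 23095618062, nat_lit 23668748088, nat_lit 19889410982, nat_lit 20410820692, nat_lit 22809645890, nat_lit 23395410412], nat_lit 1271250, nat_lit 1271250, nat_lit 573850, nat_lit 1746750, nat_lit 0, nat_lit 490000, [nat_lit 230000, nat_lit 780000, nat_lit 1435000], [nat_lit 20, nat_lit 40, nat_lit 40, nat_lit 80, nat_lit 16, nat_lit 317, nat_lit 100, nat_lit 12]⟩, ⟨p105_k12, nat_lit 0, nat_lit 0, nat_lit 373, nat_lit 0, nat_lit 0, [nat_lit 750000000, nat_lit 1181040000, nat_lit 1686960000], [], [nat_lit 6796374983, nat_lit 6822530372, nat_lit 5896192340, nat_lit 5845592872, nat_lit 5154497873, nat_lit 5179777775, nat_lit 4250286384, nat_lit 4201914360], nat_lit 0, nat_lit 0, nat_lit 0, nat_lit 0, nat_lit 0, nat_lit 0, [], [nat_lit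 60, nat_lit 40, nat_lit 40, nat_lit 80, nat_lit 32, nat_lit 456, nat_lit 225, nat_lit 11]⟩,
 ⟨nat_lit 2236, nat_lit 2739, ⟨.ofNat (nat_lit 340439), .ofNat (nat_lit 559060), .ofNat (nat_lit 385234), .ofNat (nat_lit 603890), .ofNat (nat_lit 345963), .ofNat (nat_lit 557014), .ofNat (nat_lit 391471), .ofNat (nat_lit 602558)⟩, ⟨.ofNat (nat_lit 0), .ofNat (nat_lit 143475), .ofNat (nat_lit 0), .ofNat (nat_lit 188310), .ofNat (nat_lit 0), .ofNat (nat_lit 146758), .ofNat (nat_lit 0), .ofNat (nat_lit 192306)⟩⟩, [⟨nat_lit 3, nat_lit 100, nat_lit 68, nat_lit 40, nat_lit 70133204⟩, ⟨nat_lit 19, nat_lit 100, nat_lit 77, nat_lit 72, nat_lit 776134⟩]⟩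
noncomputable def p105_l31 : Lf2 := ⟨nat_lit 0, nat_lit 20, [nat_lit 5, nat_lit 5, nat_lit 5, nat_lit 20], false, nat_lit 80, nat_lit 200, nat_lit 0, nat_lit 360, ⟨nat_lit 115, nat_lit 0, nat_lit 885, nat_lit 5, nat_lit 185, nat_lit 885, nat_lit 102, nat_lit 885, nat_lit 96267, nat_lit 291, nat_lit 417, nat_lit 210, nat_lit 50576702, nat_lit 0, nat_lit 0, nat_lit 3734694, false, false⟩,
 nat_lit 0, nat_lit 3169, nat_lit 0, nat_lit 0, nat_lit 2760, nat_lit 2458, nat_lit 0, nat_lit 0, nat_lit 0, nat_lit 0, nat_lit 0, nat_lit 0, nat_lit 0, nat_lit 0, nat_lit 47, nat_lit 221250, nat_lit 0, nat_lit 0, [(nat_lit 25, [(nat_lit 4, nat_lit 885)])],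
 ⟨p105_k0, nat_lit 0, nat_lit 0, nat_lit 266, nat_lit 0, nat_lit 458580, [nat_lit 940150000, nat_lit 621178001, nat_lit 48045999], [], [nat_lit 18193758798, nat_lit 19345693760, nat_lit 21265615199, nat_lit 22480238560, nat_lit 20203823439, nat_lit 21339104359, nat_lit 23300139920, nat_lit 24375358120], nat_lit 1271250, nat_lit 1271250, nat_lit 490000, nat_lit 1740000, nat_lit 490000, nat_lit 1427500, [nat_lit 230000, nat_lit 780000, nat_lit 1435000], [nat_lit 20, nat_lit 40, nat_lit 40, nat_lit 80, nat_lit 16, nat_lit 345, nat_lit 125, nat_lit 13]⟩, ⟨p105_k12, nat_lit 0, nat_lit 0, nat_lit 381, nat_lit 0, nat_lit 0, [nat_lit 718750000, nat_lit 1131830000, nat_lit 1616670000], [], [nat_lit 6666262100, nat_lit 6694689744, nat_lit 5655506680, nat_lit 5607814644, nat_lit 5092967438, nat_lit 5120547028, nat_lit 4077970568, nat_lit 4029488550], nat_lit 0, nat_lit 0, nat_lit 0, nat_lit 0, nat_lit 0, nat_lit 0, [],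 [nat_lit 60, nat_lit 40, nat_lit 40, nat_lit 80, nat_lit 32, nat_lit 456, nat_lit 225, nat_lit 11]⟩,
 ⟨nat_lit 2236, nat_lit 3163, ⟨.ofNat (nat_lit 316827), .ofNat (nat_lit 560952), .ofNat (nat_lit 361011), .ofNat (nat_lit 605240), .ofNat (nat_lit 328641), .ofNat (nat_lit 557014), .ofNat (nat_lit 374063), .ofNat (nat_lit 602541)⟩, ⟨.ofNat (nat_lit 139899), .ofNat (nat_lit 322759), .ofNat (nat_lit 184209), .ofNat (nat_lit 367069), .ofNat (nat_lit 146758), .ofNat (nat_lit 317804), .ofNat (nat_lit 192306), .ofNat (nat_lit 363353)⟩⟩, [⟨nat_lit 4, nat_lit 100, nat_lit 54, nat_lit 73, nat_lit 270129992⟩, ⟨nat_lit 19, nat_lit 100, nat_lit 77, nat_lit 72, nat_lit 739855⟩]⟩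
noncomputable def p105_l32 : Lf2 := ⟨nat_lit 0, nat_lit 20, [nat_lit 5, nat_lit 5, nat_lit 5, nat_lit 20], false, nat_lit 0, nat_lit 164, nat_lit 0, nat_lit 360, ⟨nat_lit 197, nat_lit 0, nat_lit 803, nat_lit 5, nat_lit 174, nat_lit 803, nat_lit 57, nat_lit 803, nat_lit 30817, nat_lit 258, nat_lit 43956, nat_lit 265, nat_lit 56363926, nat_lit 0, nat_lit 0, nat_lit 2187933, false, false⟩,
 nat_lit 0, nat_lit 2752, nat_lit 0, nat_lit 0, nat_lit 2571, nat_lit 5194, nat_lit 0, nat_lit 0, nat_lit 0, nat_lit 0, nat_lit 0, nat_lit 0, nat_lit 0, nat_lit 0, nat_lit 103, nat_lit 321200, nat_lit 0, nat_lit 0, [(nat_lit 28, [(nat_lit 5, nat_lit 803)])],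
 ⟨p105_k5, nat_lit 0, nat_lit 0, nat_lit 395, nat_lit 0, nat_lit 585854, [nat_lit 1073446800, nat_lit 460922801, nat_lit 365439200], [], [nat_lit 20888499567, nat_lit 22734898380, nat_lit 21533713690, nat_lit 23168963136, nat_lit 22032085090, nat_lit 23207196919, nat_lit 22848722467, nat_lit 23956024749], nat_lit 1271250, nat_lit 1271250, nat_lit 719601, nat_lit 1100001, nat_lit 0, nat_lit 1133651, [nat_lit 230000, nat_lit 780000, nat_lit 1435000], [nat_lit 20, nat_lit 40, nat_lit 40, nat_lit 80, nat_lit 16, nat_lit 317, nat_lit 100, nat_lit 12]⟩, ⟨p105_k12, nat_lit 0, nat_lit 0, nat_lit 276, nat_lit 0, nat_lit 0, [nat_lit 1231250000, nat_lit 1938874000, nat_lit 2769426000], [], [nat_lit 9708621135, nat_lit 10408316666, nat_lit 9100742544, nat_lit 9722015916, nat_lit 8029879068, nat_lit 8029881803, nat_lit 7094578330, nat_lit 7056375626], nat_lit 0, nat_lit 0, nat_lit 0, nat_lit 0, nat_lit 0, nat_lit 0, [], [nat_lit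 60, nat_lit 40, nat_lit 40, nat_lit 80, nat_lit 32, nat_lit 428, nat_lit 200, nat_lit 10]⟩,
 ⟨nat_lit 0, nat_lit 2237, ⟨.ofNat (nat_lit 370513), .ofNat (nat_lit 441142), .ofNat (nat_lit 414208), .ofNat (nat_lit 484837), .ofNat (nat_lit 385947), .ofNat (nat_lit 448157), .ofNat (nat_lit 434094), .ofNat (nat_lit 496304)⟩, ⟨.ofNat (nat_lit 0), .ofNat (nat_lit 266484), .ofNat (nat_lit 0), .ofNat (nat_lit 312035), .ofNat (nat_lit 0), .ofNat (nat_lit 254993), .ofNat (nat_lit 0), .ofNat (nat_lit 304995)⟩⟩, [⟨nat_lit 0, nat_lit 100, nat_lit 31, nat_lit 98, nat_lit 175979694⟩, ⟨nat_lit 0, nat_lit 100, nat_lit 44, nat_lit 90, nat_lit 255873338⟩, ⟨nat_lit 4, nat_lit 100, nat_lit 35, nat_lit 80, nat_lit 176932621⟩, ⟨nat_lit 19, nat_lit 100, nat_lit 77, nat_lit 72, nat_lit 1820042⟩]⟩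
noncomputable def p105_l33 : Lf2 := ⟨nat_lit 0, nat_lit 20, [nat_lit 5, nat_lit 5, nat_lit 5, nat_lit 20], false, nat_lit 0, nat_lit 164, nat_lit 0, nat_lit 360, ⟨nat_lit 337, nat_lit 0, nat_lit 663, nat_lit 5, nat_lit 209, nat_lit 663, nat_lit 57, nat_lit 663, nat_lit 30817, nat_lit 258, nat_lit 267, nat_lit 211, nat_lit 52631596, nat_lit 0, nat_lit 0, nat_lit 2598989, false, false⟩,
 nat_lit 0, nat_lit 2721, nat_lit 0, nat_lit 0, nat_lit 2542, nat_lit 7847, nat_lit 35, nat_lit 0, nat_lit 0, nat_lit 0, nat_lit 0, nat_lit 0, nat_lit 0, nat_lit 0, nat_lit 33, nat_lit 265200, nat_lit 0, nat_lit 0, [(nat_lit 28, [(nat_lit 5, nat_lit 663)])],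
 ⟨p105_k5, nat_lit 0, nat_lit 0, nat_lit 362, nat_lit 0, nat_lit 585854, [nat_lit 841662801, nat_lit 328258800, nat_lit 350543200], [], [nat_lit 22184618527, nat_lit 23325985095, nat_lit 24162547479, nat_lit 25180552186, nat_lit 23176346782, nat_lit 24147865942, nat_lit 24987004208, nat_lit 25995792505], nat_lit 1271250, nat_lit 1271250, nat_lit 1100001, nat_lit 1785000, nat_lit 0, nat_lit 1133651, [nat_lit 230000, nat_lit 780000, nat_lit 1435000], [nat_lit 20, nat_lit 40, nat_lit 40, nat_lit 80, nat_lit 16, nat_lit 345, nat_lit 125, nat_lit 13]⟩, ⟨p105_k12, nat_lit 0, nat_lit 0, nat_lit 253, nat_lit 0, nat_lit 0, [nat_lit 2106250000, nat_lit 3316754000, nat_lit 4737546000], [], [nat_lit 15049959804, nat_lit 16033223616, nat_lit 16091469940, nat_lit 16757494584, nat_lit 12344934896, nat_lit 12322220602, nat_lit 11722933928, nat_lit 12161003202], nat_lit 0, nat_lit 0, nat_lit 0, nat_lit 0, nat_lit 0, nat_lit 0,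 [], [nat_lit 60, nat_lit 40, nat_lit 40, nat_lit 80, nat_lit 32, nat_lit 456, nat_lit 225, nat_lit 11]⟩,
 ⟨nat_lit 0, nat_lit 2237, ⟨.ofNat (nat_lit 441142), .ofNat (nat_lit 557013), .ofNat (nat_lit 484837), .ofNat (nat_lit 602531), .ofNat (nat_lit 448157), .ofNat (nat_lit 549998), .ofNat (nat_lit 496304), .ofNat (nat_lit 599967)⟩, ⟨.ofNat (nat_lit 0), .ofNat (nat_lit 266484), .ofNat (nat_lit 0), .ofNat (nat_lit 312035), .ofNat (nat_lit 0), .ofNat (nat_lit 254993), .ofNat (nat_lit 0), .ofNat (nat_lit 304995)⟩⟩, [⟨nat_lit 0, nat_lit 100, nat_lit 31, nat_lit 98, nat_lit 137967696⟩, ⟨nat_lit 4, nat_lit 100, nat_lit 35, nat_lit 80, nat_lit 227138670⟩, ⟨nat_lit 7, nat_lit 77, nat_lit 100, nat_lit 72, nat_lit 2721057⟩]⟩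
noncomputable def p105_l34 : Lf2 := ⟨nat_lit 0, nat_lit 20, [nat_lit 5, nat_lit 5, nat_lit 5, nat_lit 20], false, nat_lit 0, nat_lit 200, nat_lit 0, nat_lit 160, ⟨nat_lit 920, nat_lit 0, nat_lit 80, nat_lit 6, nat_lit 263, nat_lit 80, nat_lit 67, nat_lit 80, nat_lit 41667, nat_lit 265, nat_lit 280606, nat_lit 200, nat_lit 46812733, nat_lit 0, nat_lit 0, nat_lit 3059818, true, true⟩,
 nat_lit 0, nat_lit 4959, nat_lit 0, nat_lit 0, nat_lit 4319, nat_lit 7541, nat_lit 367, nat_lit 0, nat_lit 0, nat_lit 0, nat_lit 0, nat_lit 0, nat_lit 0, nat_lit 0, nat_lit 0, nat_lit 80000, nat_lit 0, nat_lit 0, [(nat_lit 25, [(nat_lit 6, nat_lit 80)]), (nat_lit 28, [(nat_lit 6, nat_lit 80)])],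
 ⟨p105_k0, nat_lit 0, nat_lit 0, nat_lit 391, nat_lit 0, nat_lit 643142, [nat_lit 970640001, nat_lit 2852186667, nat_lit 5120240000], [], [nat_lit 29612844185, nat_lit 31381991215, nat_lit 33099449694, nat_lit 35209924952, nat_lit 29185650573, nat_lit 30851733965, nat_lit 32259033525, nat_lit 33668064437], nat_lit 1271250, nat_lit 1271250, nat_lit 1271250, nat_lit 1271250, nat_lit 0, nat_lit 1412500, [nat_lit 230000, nat_lit 780000, nat_lit 1435000], [nat_lit 20, nat_lit 40, nat_lit 40, nat_lit 80, nat_lit 16, nat_lit 260, nat_lit 50, nat_lit 9]⟩, ⟨p105_k12, nat_lit 0, nat_lit 0, nat_lit 282, nat_lit 0, nat_lit 0, [nat_lit 5750000000, nat_lit 9054640000, nat_lit 12933360000], [], [nat_lit 36432232248, nat_lit 37707320976, nat_lit 43135503849, nat_lit 43778632023, nat_lit 31043272240, nat_lit 31823202348, nat_lit 35881073418, nat_lit 36431827584], nat_lit 0, nat_lit 0, nat_lit 0, nat_lit 0, nat_lit 0, nat_lit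 0, [], [nat_lit 60, nat_lit 40, nat_lit 40, nat_lit 80, nat_lit 32, nat_lit 428, nat_lit 200, nat_lit 10]⟩,
 ⟨nat_lit 0, nat_lit 3163, ⟨.ofNat (nat_lit 560951), .ofNat (nat_lit 731616), .ofNat (nat_lit 605128), .ofNat (nat_lit 775928), .ofNat (nat_lit 549998), .ofNat (nat_lit 689994), .ofNat (nat_lit 599865), .ofNat (nat_lit 739996)⟩, ⟨.ofNat (nat_lit 0), .ofNat (nat_lit 322753), .ofNat (nat_lit 0), .ofNat (nat_lit 367065), .ofNat (nat_lit 0), .ofNat (nat_lit 299993), .ofNat (nat_lit 0), .ofNat (nat_lit 349995)⟩⟩, [⟨nat_lit 13, nat_lit 44, nat_lit 86, nat_lit 100, nat_lit 146604257⟩, ⟨nat_lit 4, nat_lit 100, nat_lit 46, nat_lit 75, nat_lit 375082329⟩]⟩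
noncomputable def p105_l35 : Lf2 := ⟨nat_lit 0, nat_lit 20, [nat_lit 5, nat_lit 5, nat_lit 5, nat_lit 20], false, nat_lit 0, nat_lit 200, nat_lit 160, nat_lit 360, ⟨nat_lit 1000, nat_lit 0, nat_lit 0, nat_lit 0, nat_lit 0, nat_lit 0, nat_lit 0, nat_lit 0, nat_lit 0, nat_lit 0, nat_lit 0, nat_lit 0, nat_lit 0, nat_lit 0, nat_lit 0, nat_lit 0, false, false⟩,
 nat_lit 0, nat_lit 5932, nat_lit 0, nat_lit 0, nat_lit 5166, nat_lit 8183, nat_lit 404, nat_lit 0, nat_lit 0, nat_lit 0, nat_lit 0, nat_lit 0, nat_lit 0, nat_lit 0, nat_lit 0, nat_lit 0, nat_lit 0, nat_lit 0, [],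
 ⟨p105_k0, nat_lit 0, nat_lit 0, nat_lit 391, nat_lit 0, nat_lit 643142, [nat_lit 938000000, nat_lit 3282000000, nat_lit 6250000000], [], [nat_lit 29748168560, nat_lit 31749893472, nat_lit 34484374642, nat_lit 37739901077, nat_lit 28338248856, nat_lit 29934969408, nat_lit 31258980082, nat_lit 32846763734], nat_lit 1271250, nat_lit 1271250, nat_lit 1271250, nat_lit 1271250, nat_lit 0, nat_lit 1412500, [nat_lit 230000, nat_lit 780000, nat_lit 1435000], [nat_lit 20, nat_lit 40, nat_lit 40, nat_lit 80, nat_lit 16, nat_lit 260, nat_lit 50, nat_lit 9]⟩, ⟨p105_k12, nat_lit 0, nat_lit 0, nat_lit 103, nat_lit 0, nat_lit 0, [nat_lit 6250000000, nat_lit 9842000000, nat_lit 14058000000], [], [nat_lit 12795600260, nat_lit 15154720540, nat_lit 22876274925, nat_lit 24299720553, nat_lit 25688917620, nat_lit 27073873080, nat_lit 32974403347, nat_lit 33670820620], nat_lit 0, nat_lit 0, nat_lit 0, nat_lit 0, nat_lit 0, nat_lit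 0, [], [nat_lit 60, nat_lit 40, nat_lit 40, nat_lit 80, nat_lit 32, nat_lit 483, nat_lit 250, nat_lit 11]⟩,
 zbF0, [⟨nat_lit 13, nat_lit 44, nat_lit 86, nat_lit 100, nat_lit 331063758⟩, ⟨nat_lit 4, nat_lit 100, nat_lit 46, nat_lit 75, nat_lit 321296311⟩, ⟨nat_lit 19, nat_lit 100, nat_lit 60, nat_lit 80, nat_lit 608388251⟩]⟩
noncomputable def b_V_900_500_10_11 : St := ⟨true, nat_lit 1, nat_lit 0, nat_lit 1, nat_lit 80, nat_lit 360, nat_lit 400, nat_lit 200, nat_lit 240, nat_lit 80, nat_lit 352, nat_lit 40, nat_lit 80, nat_lit 0, nat_lit 200, nat_lit 0, nat_lit 360, nat_lit 80, nat_lit 120, nat_lit 0, nat_lit 0, nat_lit 0, nat_lit 0⟩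
theorem d_V_900_500_10_11 (h : EB TB.env) : Dead b_V_900_500_10_11 := chkB_sound0 h (T :=
(.spl (nat_lit 2) (nat_lit 240)
(.spl (nat_lit 0) (nat_lit 380)
(.spl (nat_lit 4) (nat_lit 80)
(.spl (nat_lit 0) (nat_lit 370)
(.leaf p105_l29)
(.trZ (nat_lit 0) (nat_lit 100) (nat_lit 53) (nat_lit 85) (nat_lit 92) (.leaf p105_l30)))
(.leaf p105_l31))
(.trZ (nat_lit 0) (nat_lit 100) (nat_lit 44) (nat_lit 90) (nat_lit 112) (.trX (nat_lit 16) (nat_lit 44) (nat_lit 100) (nat_lit 82) (nat_lit 164) (.spl (nat_lit 2) (nat_lit 160)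
(.leaf p105_l32)
(.leaf p105_l33)))))
(.spl (nat_lit 5) (nat_lit 160)
(.leaf p105_l34)
(.leaf p105_l35)))) (by decide +kernel)
noncomputable def p105_l36 : Lf2 := ⟨nat_lit 0, nat_lit 20, [nat_lit 5, nat_lit 5, nat_lit 5, nat_lit 20], false, nat_lit 0, nat_lit 80, nat_lit 0, nat_lit 360, ⟨nat_lit 0, nat_lit 238, nat_lit 762, nat_lit 5, nat_lit 185, nat_lit 1000, nat_lit 33, nat_lit 762, nat_lit 10417, nat_lit 240, nat_lit 417, nat_lit 210, nat_lit 55160648, nat_lit 11839352, nat_lit 0, nat_lit 2331813, false, false⟩,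
 nat_lit 0, nat_lit 2768, nat_lit 0, nat_lit 0, nat_lit 2410, nat_lit 0, nat_lit 0, nat_lit 0, nat_lit 0, nat_lit 0, nat_lit 0, nat_lit 0, nat_lit 0, nat_lit 0, nat_lit 46, nat_lit 250000, nat_lit 0, nat_lit 0, [(nat_lit 25, [(nat_lit 0, nat_lit 238), (nat_lit 4, nat_lit 762)])],
 ⟨p105_k0, nat_lit 0, nat_lit 0, nat_lit 285, nat_lit 0, nat_lit 305508, [nat_lit 920568001, nat_lit 602032001, nat_lit 39454399], [], [nat_lit 19244127081, nat_lit 20445451340, nat_lit 22305932484, nat_lit 23389618887, nat_lit 18988451601, nat_lit 20052840741, nat_lit 22042571604, nat_lit 23102872467], nat_lit 1271250, nat_lit 1271250, nat_lit 490000, nat_lit 1740000, nat_lit 0, nat_lit 490000, [nat_lit 230000, nat_lit 780000, nat_lit 1435000], [nat_lit 20, nat_lit 40, nat_lit 40, nat_lit 80, nat_lit 16, nat_lit 317, nat_lit 100, nat_lit 12]⟩, ⟨p105_k12, nat_lit 0, nat_lit 0, nat_lit 778, nat_lit 0, nat_lit 774930, [nat_lit 0, nat_lit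 0, nat_lit 0], [], [nat_lit 0, nat_lit 0, nat_lit 0, nat_lit 0, nat_lit 0, nat_lit 0, nat_lit 0, nat_lit 0], nat_lit 1271250, nat_lit 1271250, nat_lit 490000, nat_lit 1740000, nat_lit 0, nat_lit 2542500, [nat_lit 1412500, nat_lit 1271250, nat_lit 1271250], [nat_lit 60, nat_lit 40, nat_lit 40, nat_lit 80, nat_lit 32, nat_lit 456, nat_lit 225, nat_lit 11]⟩,
 ⟨nat_lit 2236, nat_lit 3163, ⟨.ofNat (nat_lit 316827), .ofNat (nat_lit 560952), .ofNat (nat_lit 361011), .ofNat (nat_lit 605240), .ofNat (nat_lit 328641), .ofNat (nat_lit 557014), .ofNat (nat_lit 374063), .ofNat (nat_lit 602541)⟩, ⟨.ofNat (nat_lit 0), .ofNat (nat_lit 139899), .ofNat (nat_lit 0), .ofNat (nat_lit 184209), .ofNat (nat_lit 0), .ofNat (nat_lit 146758), .ofNat (nat_lit 0), .ofNat (nat_lit 192306)⟩⟩, [⟨nat_lit 3, nat_lit 100, nat_lit 74, nat_lit 33, nat_lit 61640087⟩, ⟨nat_lit 3, nat_lit 100, nat_lit 54, nat_lit 57, nat_lit 5877435⟩]⟩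
noncomputable def p105_l37 : Lf2 := ⟨nat_lit 0, nat_lit 20, [nat_lit 5, nat_lit 5, nat_lit 5, nat_lit 20], false, nat_lit 0, nat_lit 80, nat_lit 0, nat_lit 360, ⟨nat_lit 0, nat_lit 625, nat_lit 375, nat_lit 5, nat_lit 196, nat_lit 1000, nat_lit 34, nat_lit 375, nat_lit 11267, nat_lit 241, nat_lit 267, nat_lit 211, nat_lit 54058472, nat_lit 12941528, nat_lit 0, nat_lit 2453841, false, false⟩,
 nat_lit 0, nat_lit 2667, nat_lit 0, nat_lit 0, nat_lit 2492, nat_lit 0, nat_lit 0, nat_lit 0, nat_lit 0, nat_lit 0, nat_lit 0, nat_lit 0, nat_lit 0, nat_lit 0, nat_lit 22, nat_lit 306250, nat_lit 0, nat_lit 0, [(nat_lit 28, [(nat_lit 0, nat_lit 625), (nat_lit 5, nat_lit 375)])],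
 ⟨p105_k5, nat_lit 0, nat_lit 0, nat_lit 320, nat_lit 0, nat_lit 393179, [nat_lit 799100001, nat_lit 277350000, nat_lit 48900000], [], [nat_lit 21096715534, nat_lit 22512894160, nat_lit 23896636910, nat_lit 25054753664, nat_lit 20871575707, nat_lit 22061751888, nat_lit 23594025846, nat_lit 24691689273], nat_lit 1271250, nat_lit 1271250, nat_lit 719601, nat_lit 1758000, nat_lit 0, nat_lit 490000, [nat_lit 230000, nat_lit 780000, nat_lit 1435000], [nat_lit 20, nat_lit 40, nat_lit 40, nat_lit 80, nat_lit 16, nat_lit 317, nat_lit 100, nat_lit 12]⟩, ⟨p105_k12, nat_lit 0, nat_lit 0, nat_lit 908, nat_lit 0, nat_lit 1086810, [nat_lit 0, nat_lit 0, nat_lit 0], [], [nat_lit 0, nat_lit 0, nat_lit 0, nat_lit 0, nat_lit 0, nat_lit 0, nat_lit 0, nat_lit 0], nat_lit 1271250, nat_lit 1271250, nat_lit 719601, nat_lit 1758000, nat_lit 0, nat_lit 2542500, [nat_lit 1412500, nat_lit 1271250, nat_lit 1271250], [nat_lit 60, nat_lit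 40, nat_lit 40, nat_lit 80, nat_lit 32, nat_lit 456, nat_lit 225, nat_lit 11]⟩,
 ⟨nat_lit 0, nat_lit 2237, ⟨.ofNat (nat_lit 370513), .ofNat (nat_lit 557013), .ofNat (nat_lit 414208), .ofNat (nat_lit 602531), .ofNat (nat_lit 385947), .ofNat (nat_lit 549998), .ofNat (nat_lit 434094), .ofNat (nat_lit 599967)⟩, ⟨.ofNat (nat_lit 0), .ofNat (nat_lit 146756), .ofNat (nat_lit 0), .ofNat (nat_lit 192306), .ofNat (nat_lit 0), .ofNat (nat_lit 149997), .ofNat (nat_lit 0), .ofNat (nat_lit 199999)⟩⟩, [⟨nat_lit 3, nat_lit 100, nat_lit 44, nat_lit 64, nat_lit 55379674⟩]⟩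
noncomputable def p105_l38 : Lf2 := ⟨nat_lit 0, nat_lit 20, [nat_lit 5, nat_lit 5, nat_lit 5, nat_lit 20], false, nat_lit 80, nat_lit 200, nat_lit 0, nat_lit 360, ⟨nat_lit 0, nat_lit 401, nat_lit 599, nat_lit 5, nat_lit 185, nat_lit 1000, nat_lit 101, nat_lit 599, nat_lit 96267, nat_lit 291, nat_lit 417, nat_lit 210, nat_lit 50631677, nat_lit 11792059, nat_lit 4576264, nat_lit 3722121, false, false⟩,
 nat_lit 0, nat_lit 3249, nat_lit 0, nat_lit 0, nat_lit 2829, nat_lit 0, nat_lit 0, nat_lit 0, nat_lit 0, nat_lit 0, nat_lit 0, nat_lit 0, nat_lit 0, nat_lit 0, nat_lit 14, nat_lit 250000, nat_lit 0, nat_lit 0, [(nat_lit 25, [(nat_lit 0, nat_lit 401), (nat_lit 4, nat_lit 599)]), (nat_lit 28, [(nat_lit 0, nat_lit 401), (nat_lit 4, nat_lit 599)])],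
 ⟨p105_k0, nat_lit 0, nat_lit 0, nat_lit 275, nat_lit 0, nat_lit 428463, [nat_lit 825620001, nat_lit 500130667, nat_lit 28982133], [], [nat_lit 19366655589, nat_lit 21641207321, nat_lit 22116406433, nat_lit 24003215844, nat_lit 21214169193, nat_lit 23172755375, nat_lit 23597318746, nat_lit 25713038608], nat_lit 1271250, nat_lit 1271250, nat_lit 490000, nat_lit 1740000, nat_lit 490000, nat_lit 1427500, [nat_lit 230000, nat_lit 780000, nat_lit 1435000], [nat_lit 20, nat_lit 40, nat_lit 40, nat_lit 80, nat_lit 16, nat_lit 345, nat_lit 125, nat_lit 13]⟩, ⟨p105_k12, nat_lit 0, nat_lit 0, nat_lit 926, nat_lit 0, nat_lit 1086810, [nat_lit 0, nat_lit 0, nat_lit 0], [], [nat_lit 0, nat_lit 0, nat_lit 0, nat_lit 0, nat_lit 0, nat_lit 0, nat_lit 0, nat_lit 0], nat_lit 1271250, nat_lit 1271250, nat_lit 490000, nat_lit 1740000, nat_lit 0, nat_lit 2542500, [nat_lit 1412500, nat_lit 1271250, nat_lit 1271250], [nat_lit 60, nat_lit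 40, nat_lit 40, nat_lit 80, nat_lit 32, nat_lit 456, nat_lit 225, nat_lit 11]⟩,
 ⟨nat_lit 0, nat_lit 3163, ⟨.ofNat (nat_lit 309443), .ofNat (nat_lit 560951), .ofNat (nat_lit 351143), .ofNat (nat_lit 605128), .ofNat (nat_lit 342303), .ofNat (nat_lit 549998), .ofNat (nat_lit 389693), .ofNat (nat_lit 599865)⟩, ⟨.ofNat (nat_lit 139898), .ofNat (nat_lit 322753), .ofNat (nat_lit 184209), .ofNat (nat_lit 367065), .ofNat (nat_lit 149998), .ofNat (nat_lit 299993), .ofNat (nat_lit 199999), .ofNat (nat_lit 349995)⟩⟩, [⟨nat_lit 16, nat_lit 46, nat_lit 100, nat_lit 75, nat_lit 315620846⟩]⟩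
noncomputable def p105_l39 : Lf2 := ⟨nat_lit 0, nat_lit 20, [nat_lit 5, nat_lit 5, nat_lit 5, nat_lit 20], false, nat_lit 0, nat_lit 80, nat_lit 0, nat_lit 336, ⟨nat_lit 112, nat_lit 201, nat_lit 687, nat_lit 6, nat_lit 240, nat_lit 888, nat_lit 33, nat_lit 687, nat_lit 10417, nat_lit 240, nat_lit 16870, nat_lit 200, nat_lit 49277421, nat_lit 17722579, nat_lit 0, nat_lit 2888638, true, true⟩,
 nat_lit 2936, nat_lit 0, nat_lit 0, nat_lit 0, nat_lit 2556, nat_lit 1258, nat_lit 0, nat_lit 0, nat_lit 0, nat_lit 114, nat_lit 0, nat_lit 0, nat_lit 0, nat_lit 0, nat_lit 8, nat_lit 222000, nat_lit 0, nat_lit 0, [(nat_lit 25, [(nat_lit 0, nat_lit 201), (nat_lit 4, nat_lit 687)])],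
 ⟨p105_k0, nat_lit 0, nat_lit 0, nat_lit 242, nat_lit 0, nat_lit 282569, [nat_lit 790756001, nat_lit 490110401, nat_lit 20653599], [], [nat_lit 23164945584, nat_lit 24127481336, nat_lit 24366043936, nat_lit 25324707232, nat_lit 22669287856, nat_lit 23579120088, nat_lit 23853448804, nat_lit 24818595204], nat_lit 1271250, nat_lit 1271250, nat_lit 1271250, nat_lit 1271250, nat_lit 0, nat_lit 490000, [nat_lit 230000, nat_lit 780000, nat_lit 1435000], [nat_lit 20, nat_lit 40, nat_lit 40, nat_lit 80, nat_lit 16, nat_lit 226, nat_lit 20, nat_lit 8]⟩, ⟨p105_k12, nat_lit 0, nat_lit 0, nat_lit 654, nat_lit 0, nat_lit 716745, [nat_lit 700000000, nat_lit 1102304000, nat_lit 1574496000], [], [nat_lit 4192226992, nat_lit 4202518268, nat_lit 4289600784, nat_lit 4291276384, nat_lit 3868685527, nat_lit 3417214767, nat_lit 3456255074, nat_lit 3441811314], nat_lit 1271250, nat_lit 1271250, nat_lit 1271250, nat_lit 1271250, nat_lit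 0, nat_lit 2373000, [nat_lit 1412500, nat_lit 1271250, nat_lit 1271250], [nat_lit 60, nat_lit 40, nat_lit 40, nat_lit 80, nat_lit 32, nat_lit 456, nat_lit 225, nat_lit 10]⟩,
 ⟨nat_lit 2236, nat_lit 3163, ⟨.ofNat (nat_lit 560952), .ofNat (nat_lit 621905), .ofNat (nat_lit 583107), .ofNat (nat_lit 644060), .ofNat (nat_lit 557014), .ofNat (nat_lit 614030), .ofNat (nat_lit 579788), .ofNat (nat_lit 636804)⟩, ⟨.ofNat (nat_lit 0), .ofNat (nat_lit 139899), .ofNat (nat_lit 0), .ofNat (nat_lit 184209), .ofNat (nat_lit 0), .ofNat (nat_lit 146758), .ofNat (nat_lit 0), .ofNat (nat_lit 192306)⟩⟩, [⟨nat_lit 22, nat_lit 97, nat_lit 100, nat_lit 15, nat_lit 41041392⟩, ⟨nat_lit 22, nat_lit 100, nat_lit 99, nat_lit 63, nat_lit 4117291⟩]⟩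
noncomputable def p105_l40 : Lf2 := ⟨nat_lit 0, nat_lit 20, [nat_lit 5, nat_lit 5, nat_lit 5, nat_lit 20], false, nat_lit 0, nat_lit 80, nat_lit 0, nat_lit 300, ⟨nat_lit 133, nat_lit 526, nat_lit 341, nat_lit 7, nat_lit 269, nat_lit 860, nat_lit 33, nat_lit 341, nat_lit 10417, nat_lit 240, nat_lit 187540, nat_lit 200, nat_lit 46106853, nat_lit 20893147, nat_lit 0, nat_lit 3102816, true, true⟩,
 nat_lit 3370, nat_lit 0, nat_lit 0, nat_lit 0, nat_lit 2610, nat_lit 1444, nat_lit 9, nat_lit 0, nat_lit 0, nat_lit 127, nat_lit 0, nat_lit 0, nat_lit 0, nat_lit 0, nat_lit 0, nat_lit 343800, nat_lit 0, nat_lit 0, [(nat_lit 25, [(nat_lit 0, nat_lit 20), (nat_lit 1, nat_lit 506), (nat_lit 5, nat_lit 341)])],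
 ⟨p105_k0, nat_lit 0, nat_lit 0, nat_lit 232, nat_lit 0, nat_lit 219069, [nat_lit 815205201, nat_lit 727260134, nat_lit 298807866], [], [nat_lit 25181677197, nat_lit 25603528647, nat_lit 27057823425, nat_lit 27507487713, nat_lit 24652633317, nat_lit 25063625679, nat_lit 26553245538, nat_lit 26960659034], nat_lit 1271250, nat_lit 1271250, nat_lit 1271250, nat_lit 1271250, nat_lit 0, nat_lit 490000, [nat_lit 230000, nat_lit 780000, nat_lit 1435000], [nat_lit 20, nat_lit 40, nat_lit 40, nat_lit 80, nat_lit 16, nat_lit 226, nat_lit 20, nat_lit 7]⟩, ⟨p105_k12, nat_lit 0, nat_lit 0, nat_lit 584, nat_lit 0, nat_lit 555674, [nat_lit 831250000, nat_lit 1308986000, nat_lit 1869714000], [], [nat_lit 5239828196, nat_lit 5243579556, nat_lit 5508642279, nat_lit 5496830982, nat_lit 4155419434, nat_lit 4143134861, nat_lit 4302945562, nat_lit 4280072577], nat_lit 1271250, nat_lit 1271250, nat_lit 1271250, nat_lit 1271250, nat_lit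 0, nat_lit 2118750, [nat_lit 1412500, nat_lit 1271250, nat_lit 1271250], [nat_lit 60, nat_lit 40, nat_lit 40, nat_lit 80, nat_lit 32, nat_lit 456, nat_lit 225, nat_lit 10]⟩,
 ⟨nat_lit 2738, nat_lit 3163, ⟨.ofNat (nat_lit 621905), .ofNat (nat_lit 707240), .ofNat (nat_lit 644060), .ofNat (nat_lit 729395), .ofNat (nat_lit 618121), .ofNat (nat_lit 700807), .ofNat (nat_lit 640539), .ofNat (nat_lit 723224)⟩, ⟨.ofNat (nat_lit 0), .ofNat (nat_lit 139899), .ofNat (nat_lit 0), .ofNat (nat_lit 184209), .ofNat (nat_lit 0), .ofNat (nat_lit 143475), .ofNat (nat_lit 0), .ofNat (nat_lit 188310)⟩⟩, [⟨nat_lit 13, nat_lit 57, nat_lit 80, nat_lit 100, nat_lit 209357248⟩, ⟨nat_lit 22, nat_lit 87, nat_lit 100, nat_lit 32, nat_lit 13300767⟩]⟩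
noncomputable def p105_l41 : Lf2 := ⟨nat_lit 0, nat_lit 20, [nat_lit 5, nat_lit 5, nat_lit 5, nat_lit 20], false, nat_lit 0, nat_lit 80, nat_lit 0, nat_lit 300, ⟨nat_lit 117, nat_lit 592, nat_lit 291, nat_lit 7, nat_lit 264, nat_lit 883, nat_lit 34, nat_lit 291, nat_lit 10417, nat_lit 240, nat_lit 139762, nat_lit 200, nat_lit 46700654, nat_lit 20299346, nat_lit 0, nat_lit 3066820, true, true⟩,
 nat_lit 2883, nat_lit 0, nat_lit 0, nat_lit 0, nat_lit 2601, nat_lit 1235, nat_lit 146, nat_lit 0, nat_lit 0, nat_lit 92, nat_lit 0, nat_lit 0, nat_lit 0, nat_lit 0, nat_lit 0, nat_lit 220750, nat_lit 0, nat_lit 0, [(nat_lit 25, [(nat_lit 0, nat_lit 592), (nat_lit 4, nat_lit 291)])],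
 ⟨p105_k2, nat_lit 0, nat_lit 0, nat_lit 245, nat_lit 0, nat_lit 270538, [nat_lit 773882000, nat_lit 1089020401, nat_lit 1443846000], [], [nat_lit 25564997564, nat_lit 25977168143, nat_lit 26898796849, nat_lit 27484611004, nat_lit 25091887499, nat_lit 25481910837, nat_lit 26361649985, nat_lit 26791471935], nat_lit 1271250, nat_lit 1271250, nat_lit 1271250, nat_lit 1271250, nat_lit 0, nat_lit 490000, [nat_lit 230000, nat_lit 780000, nat_lit 1435000], [nat_lit 20, nat_lit 40, nat_lit 40, nat_lit 80, nat_lit 16, nat_lit 226, nat_lit 20, nat_lit 7]⟩, ⟨p105_k12, nat_lit 0, nat_lit 0, nat_lit 646, nat_lit 0, nat_lit 716745, [nat_lit 731250000, nat_lit 1151514000, nat_lit 1644786000], [], [nat_lit 4922595284, nat_lit 4927141644, nat_lit 5096897917, nat_lit 5091078602, nat_lit 3778910118, nat_lit 3759313554, nat_lit 3861564840, nat_lit 3854400367], nat_lit 1271250, nat_lit 1271250, nat_lit 1271250, nat_lit 1271250, nat_lit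 0, nat_lit 2118750, [nat_lit 1412500, nat_lit 1271250, nat_lit 1271250], [nat_lit 60, nat_lit 40, nat_lit 40, nat_lit 80, nat_lit 32, nat_lit 456, nat_lit 225, nat_lit 10]⟩,
 ⟨nat_lit 2236, nat_lit 2739, ⟨.ofNat (nat_lit 618121), .ofNat (nat_lit 683089), .ofNat (nat_lit 640539), .ofNat (nat_lit 705506), .ofNat (nat_lit 614030), .ofNat (nat_lit 676747), .ofNat (nat_lit 636804), .ofNat (nat_lit 699521)⟩, ⟨.ofNat (nat_lit 0), .ofNat (nat_lit 143475), .ofNat (nat_lit 0), .ofNat (nat_lit 188310), .ofNat (nat_lit 0), .ofNat (nat_lit 146758), .ofNat (nat_lit 0), .ofNat (nat_lit 192306)⟩⟩, [⟨nat_lit 13, nat_lit 48, nat_lit 85, nat_lit 100, nat_lit 237875662⟩, ⟨nat_lit 3, nat_lit 100, nat_lit 68, nat_lit 40, nat_lit 30353660⟩, ⟨nat_lit 22, nat_lit 89, nat_lit 100, nat_lit 29, nat_lit 1941211⟩]⟩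
noncomputable def p105_l42 : Lf2 := ⟨nat_lit 0, nat_lit 15, [nat_lit 30, nat_lit 5, nat_lit 5, nat_lit 20], false, nat_lit 0, nat_lit 80, nat_lit 0, nat_lit 332, ⟨nat_lit 172, nat_lit 419, nat_lit 409, nat_lit 6, nat_lit 261, nat_lit 828, nat_lit 31, nat_lit 409, nat_lit 8817, nat_lit 238, nat_lit 183086, nat_lit 200, nat_lit 47028794, nat_lit 19971206, nat_lit 0, nat_lit 3046132, true, true⟩,
 nat_lit 3414, nat_lit 0, nat_lit 0, nat_lit 0, nat_lit 2659, nat_lit 1632, nat_lit 38, nat_lit 0, nat_lit 0, nat_lit 164, nat_lit 0, nat_lit 0, nat_lit 0, nat_lit 0, nat_lit 0, nat_lit 280500, nat_lit 0, nat_lit 0, [(nat_lit 25, [(nat_lit 0, nat_lit 338), (nat_lit 1, nat_lit 81), (nat_lit 5, nat_lit 409)])],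
 ⟨p105_k6, nat_lit 0, nat_lit 0, nat_lit 236, nat_lit 0, nat_lit 235046, [nat_lit 785094401, nat_lit 816032534, nat_lit 612493600], [], [nat_lit 24177639695, nat_lit 25084793043, nat_lit 26568447643, nat_lit 27431880152, nat_lit 23668909683, nat_lit 24526254711, nat_lit 25947898467, nat_lit 26736438956], nat_lit 1271250, nat_lit 1271250, nat_lit 1271250, nat_lit 1271250, nat_lit 0, nat_lit 490000, [nat_lit 230000, nat_lit 780000, nat_lit 1435000], [nat_lit 20, nat_lit 40, nat_lit 40, nat_lit 80, nat_lit 16, nat_lit 226, nat_lit 20, nat_lit 8]⟩, ⟨p105_k7, nat_lit 0, nat_lit 0, nat_lit 567, nat_lit 0, nat_lit 507000, [nat_lit 1075000000, nat_lit 1692824000, nat_lit 2417976000], [], [nat_lit 6342685528, nat_lit 6359514520, nat_lit 6657640848, nat_lit 6663720000, nat_lit 5387158350, nat_lit 5381100216, nat_lit 5533077006, nat_lit 5511621501], nat_lit 1271250, nat_lit 1271250, nat_lit 1271250, nat_lit 1271250, nat_lit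 0, nat_lit 2344750, [nat_lit 1412500, nat_lit 1271250, nat_lit 1271250], [nat_lit 60, nat_lit 40, nat_lit 40, nat_lit 80, nat_lit 32, nat_lit 456, nat_lit 225, nat_lit 10]⟩,
 ⟨nat_lit 2236, nat_lit 3163, ⟨.ofNat (nat_lit 583107), .ofNat (nat_lit 705013), .ofNat (nat_lit 605240), .ofNat (nat_lit 727168), .ofNat (nat_lit 579788), .ofNat (nat_lit 693819), .ofNat (nat_lit 602541), .ofNat (nat_lit 716594)⟩, ⟨.ofNat (nat_lit 0), .ofNat (nat_lit 139899), .ofNat (nat_lit 0), .ofNat (nat_lit 162054), .ofNat (nat_lit 0), .ofNat (nat_lit 146758), .ofNat (nat_lit 0), .ofNat (nat_lit 169532)⟩⟩, [⟨nat_lit 10, nat_lit 100, nat_lit 70, nat_lit 61, nat_lit 35119443⟩]⟩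
noncomputable def p105_l43 : Lf2 := ⟨nat_lit 0, nat_lit 20, [nat_lit 5, nat_lit 5, nat_lit 5, nat_lit 20], false, nat_lit 0, nat_lit 80, nat_lit 0, nat_lit 336, ⟨nat_lit 172, nat_lit 396, nat_lit 432, nat_lit 6, nat_lit 258, nat_lit 828, nat_lit 35, nat_lit 432, nat_lit 12150, nat_lit 242, nat_lit 160932, nat_lit 200, nat_lit 47270382, nat_lit 19729618, nat_lit 0, nat_lit 3030535, true, true⟩,
 nat_lit 3426, nat_lit 0, nat_lit 0, nat_lit 0, nat_lit 2639, nat_lit 1638, nat_lit 40, nat_lit 0, nat_lit 0, nat_lit 173, nat_lit 0, nat_lit 0, nat_lit 0, nat_lit 0, nat_lit 0, nat_lit 271800, nat_lit 0, nat_lit 0, [(nat_lit 25, [(nat_lit 0, nat_lit 396), (nat_lit 5, nat_lit 432)])],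
 ⟨p105_k0, nat_lit 0, nat_lit 0, nat_lit 227, nat_lit 0, nat_lit 197851, [nat_lit 777684800, nat_lit 797812801, nat_lit 590771200], [], [nat_lit 24116731261, nat_lit 25021401169, nat_lit 26504307769, nat_lit 27379993592, nat_lit 23620618609, nat_lit 24475689797, nat_lit 25896739873, nat_lit 26700467629], nat_lit 1271250, nat_lit 1271250, nat_lit 1271250, nat_lit 1271250, nat_lit 0, nat_lit 490000, [nat_lit 230000, nat_lit 780000, nat_lit 1435000], [nat_lit 20, nat_lit 40, nat_lit 40, nat_lit 80, nat_lit 16, nat_lit 226, nat_lit 20, nat_lit 8]⟩, ⟨p105_k3, nat_lit 0, nat_lit 0, nat_lit 495, nat_lit 0, nat_lit 431070, [nat_lit 1075000000, nat_lit 1692824000, nat_lit 2417976000], [], [nat_lit 6222697906, nat_lit 6231018754, nat_lit 6497346562, nat_lit 6495335262, nat_lit 5386435358, nat_lit 5178373692, nat_lit 5480215688, nat_lit 5481940603], nat_lit 1271250, nat_lit 1271250, nat_lit 1271250, nat_lit 1271250, nat_lit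 0, nat_lit 2373000, [nat_lit 1412500, nat_lit 1271250, nat_lit 1271250], [nat_lit 60, nat_lit 40, nat_lit 40, nat_lit 80, nat_lit 32, nat_lit 456, nat_lit 225, nat_lit 10]⟩,
 ⟨nat_lit 2236, nat_lit 3163, ⟨.ofNat (nat_lit 583107), .ofNat (nat_lit 705013), .ofNat (nat_lit 594184), .ofNat (nat_lit 716091), .ofNat (nat_lit 579788), .ofNat (nat_lit 693819), .ofNat (nat_lit 591175), .ofNat (nat_lit 705207)⟩, ⟨.ofNat (nat_lit 0), .ofNat (nat_lit 162054), .ofNat (nat_lit 0), .ofNat (nat_lit 184209), .ofNat (nat_lit 0), .ofNat (nat_lit 169532), .ofNat (nat_lit 0), .ofNat (nat_lit 192306)⟩⟩, [⟨nat_lit 13, nat_lit 44, nat_lit 86, nat_lit 100, nat_lit 165033360⟩, ⟨nat_lit 22, nat_lit 93, nat_lit 100, nat_lit 25, nat_lit 29261580⟩, ⟨nat_lit 22, nat_lit 94, nat_lit 100, nat_lit 62, nat_lit 18401611⟩]⟩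
noncomputable def p105_l44 : Lf2 := ⟨nat_lit 0, nat_lit 20, [nat_lit 5, nat_lit 5, nat_lit 5, nat_lit 20], false, nat_lit 0, nat_lit 80, nat_lit 0, nat_lit 336, ⟨nat_lit 365, nat_lit 0, nat_lit 635, nat_lit 6, nat_lit 263, nat_lit 635, nat_lit 35, nat_lit 635, nat_lit 12150, nat_lit 242, nat_lit 183086, nat_lit 200, nat_lit 46787369, nat_lit 0, nat_lit 0, nat_lit 3061408, true, true⟩,
 nat_lit 6428, nat_lit 0, nat_lit 0, nat_lit 0, nat_lit 2721, nat_lit 3237, nat_lit 7, nat_lit 0, nat_lit 0, nat_lit 368, nat_lit 0, nat_lit 0, nat_lit 0, nat_lit 0, nat_lit 0, nat_lit 254000, nat_lit 0, nat_lit 0, [(nat_lit 25, [(nat_lit 5, nat_lit 635)])],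
 ⟨p105_k0, nat_lit 0, nat_lit 0, nat_lit 230, nat_lit 0, nat_lit 210319, [nat_lit 803634000, nat_lit 744116667, nat_lit 344619111], [], [nat_lit 23959845779, nat_lit 24874697791, nat_lit 26423099344, nat_lit 27592728488, nat_lit 23412001951, nat_lit 24276395883, nat_lit 25712632821, nat_lit 26564940945], nat_lit 1271250, nat_lit 1271250, nat_lit 1271250, nat_lit 1271250, nat_lit 0, nat_lit 490000, [nat_lit 230000, nat_lit 780000, nat_lit 1435000], [nat_lit 20, nat_lit 40, nat_lit 40, nat_lit 80, nat_lit 16, nat_lit 226, nat_lit 20, nat_lit 8]⟩, ⟨p105_k4, nat_lit 0, nat_lit 0, nat_lit 491, nat_lit 0, nat_lit 426986, [nat_lit 2281250000, nat_lit 3592330000, nat_lit 5131170000], [], [nat_lit 12834090340, nat_lit 12855478084, nat_lit 13398150638, nat_lit 13403026560, nat_lit 10957969438, nat_lit 10882535061, nat_lit 11494638861, nat_lit 11502820140], nat_lit 1271250, nat_lit 1271250, nat_lit 1271250, nat_lit 1271250,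 nat_lit 0, nat_lit 2373000, [nat_lit 1412500, nat_lit 1271250, nat_lit 1271250], [nat_lit 60, nat_lit 40, nat_lit 40, nat_lit 80, nat_lit 32, nat_lit 456, nat_lit 225, nat_lit 10]⟩,
 ⟨nat_lit 2236, nat_lit 3163, ⟨.ofNat (nat_lit 594184), .ofNat (nat_lit 716091), .ofNat (nat_lit 605240), .ofNat (nat_lit 727168), .ofNat (nat_lit 591175), .ofNat (nat_lit 705207), .ofNat (nat_lit 602541), .ofNat (nat_lit 716594)⟩, ⟨.ofNat (nat_lit 0), .ofNat (nat_lit 162054), .ofNat (nat_lit 0), .ofNat (nat_lit 184209), .ofNat (nat_lit 0), .ofNat (nat_lit 169532), .ofNat (nat_lit 0), .ofNat (nat_lit 192306)⟩⟩, [⟨nat_lit 22, nat_lit 94, nat_lit 100, nat_lit 62, nat_lit 70301321⟩]⟩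
noncomputable def p105_l45 : Lf2 := ⟨nat_lit 0, nat_lit 20, [nat_lit 5, nat_lit 5, nat_lit 5, nat_lit 20], false, nat_lit 0, nat_lit 80, nat_lit 0, nat_lit 260, ⟨nat_lit 181, nat_lit 819, nat_lit 0, nat_lit 8, nat_lit 295, nat_lit 819, nat_lit 33, nat_lit 0, nat_lit 0, nat_lit 0, nat_lit 0, nat_lit 0, nat_lit 43398387, nat_lit 23601613, nat_lit 0, nat_lit 3244180, true, true⟩,
 nat_lit 3614, nat_lit 0, nat_lit 0, nat_lit 0, nat_lit 3147, nat_lit 1728, nat_lit 83, nat_lit 0, nat_lit 0, nat_lit 162, nat_lit 0, nat_lit 0, nat_lit 0, nat_lit 0, nat_lit 0, nat_lit 327600, nat_lit 0, nat_lit 0, [(nat_lit 25, [(nat_lit 1, nat_lit 819)])],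
 ⟨p105_k0, nat_lit 0, nat_lit 0, nat_lit 242, nat_lit 0, nat_lit 245355, [nat_lit 861669201, nat_lit 1414789200, nat_lit 1880798800], [], [nat_lit 28293097868, nat_lit 28702460976, nat_lit 29417844841, nat_lit 29806526987, nat_lit 27442053340, nat_lit 27829311657, nat_lit 28508512617, nat_lit 28872217098], nat_lit 1271250, nat_lit 1271250, nat_lit 1271250, nat_lit 1271250, nat_lit 0, nat_lit 490000, [nat_lit 230000, nat_lit 780000, nat_lit 1435000], [nat_lit 20, nat_lit 40, nat_lit 40, nat_lit 80, nat_lit 16, nat_lit 226, nat_lit 20, nat_lit 7]⟩, ⟨p105_k3, nat_lit 0, nat_lit 0, nat_lit 566, nat_lit 0, nat_lit 534571, [nat_lit 1131250000, nat_lit 1781402000, nat_lit 2544498000], [], [nat_lit 7190760440, nat_lit 7190928044, nat_lit 7415976223, nat_lit 7410815501, nat_lit 5660829211, nat_lit 5653127422, nat_lit 5813564293, nat_lit 5797545069], nat_lit 1271250, nat_lit 1271250, nat_lit 1271250, nat_lit 1271250, nat_lit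 0, nat_lit 1836250, [nat_lit 1412500, nat_lit 1271250, nat_lit 1271250], [nat_lit 60, nat_lit 40, nat_lit 40, nat_lit 80, nat_lit 32, nat_lit 456, nat_lit 225, nat_lit 10]⟩,
 ⟨nat_lit 2738, nat_lit 3163, ⟨.ofNat (nat_lit 705013), .ofNat (nat_lit 753776), .ofNat (nat_lit 727168), .ofNat (nat_lit 775931), .ofNat (nat_lit 699600), .ofNat (nat_lit 746849), .ofNat (nat_lit 722017), .ofNat (nat_lit 769266)⟩, ⟨.ofNat (nat_lit 0), .ofNat (nat_lit 139899), .ofNat (nat_lit 0), .ofNat (nat_lit 184209), .ofNat (nat_lit 0), .ofNat (nat_lit 143475), .ofNat (nat_lit 0), .ofNat (nat_lit 188310)⟩⟩, [⟨nat_lit 13, nat_lit 57, nat_lit 74, nat_lit 100, nat_lit 182207277⟩, ⟨nat_lit 22, nat_lit 74, nat_lit 100, nat_lit 60, nat_lit 249106⟩]⟩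
noncomputable def p105_l46 : Lf2 := ⟨nat_lit 0, nat_lit 20, [nat_lit 5, nat_lit 5, nat_lit 5, nat_lit 20], false, nat_lit 0, nat_lit 80, nat_lit 0, nat_lit 260, ⟨nat_lit 173, nat_lit 827, nat_lit 0, nat_lit 8, nat_lit 289, nat_lit 827, nat_lit 34, nat_lit 0, nat_lit 0, nat_lit 0, nat_lit 0, nat_lit 0, nat_lit 44020128, nat_lit 22979872, nat_lit 0, nat_lit 3214971, true, true⟩,
 nat_lit 3538, nat_lit 0, nat_lit 0, nat_lit 0, nat_lit 2897, nat_lit 1691, nat_lit 240, nat_lit 0, nat_lit 0, nat_lit 158, nat_lit 0, nat_lit 0, nat_lit 0, nat_lit 0, nat_lit 0, nat_lit 206750, nat_lit 0, nat_lit 0, [(nat_lit 25, [(nat_lit 0, nat_lit 827)])],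
 ⟨p105_k2, nat_lit 0, nat_lit 0, nat_lit 254, nat_lit 0, nat_lit 292500, [nat_lit 794102001, nat_lit 1699783601, nat_lit 2832836000], [], [nat_lit 27565478627, nat_lit 28049330216, nat_lit 28473256214, nat_lit 29105055985, nat_lit 26849098558, nat_lit 27225829125, nat_lit 27507126695, nat_lit 27897044266], nat_lit 1271250, nat_lit 1271250, nat_lit 1271250, nat_lit 1271250, nat_lit 0, nat_lit 490000, [nat_lit 230000, nat_lit 780000, nat_lit 1435000], [nat_lit 20, nat_lit 40, nat_lit 40, nat_lit 80, nat_lit 16, nat_lit 226, nat_lit 20, nat_lit 7]⟩, ⟨p105_k3, nat_lit 0, nat_lit 0, nat_lit 615, nat_lit 0, nat_lit 665629, [nat_lit 1081250000, nat_lit 1702666000, nat_lit 2432034000], [], [nat_lit 6801747606, nat_lit 6800263552, nat_lit 6937551968, nat_lit 6932734550, nat_lit 5270688010, nat_lit 5261695750, nat_lit 5362433327, nat_lit 5353211233], nat_lit 1271250, nat_lit 1271250, nat_lit 1271250, nat_lit 1271250, nat_lit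 0, nat_lit 1836250, [nat_lit 1412500, nat_lit 1271250, nat_lit 1271250], [nat_lit 60, nat_lit 40, nat_lit 40, nat_lit 80, nat_lit 32, nat_lit 456, nat_lit 225, nat_lit 10]⟩,
 ⟨nat_lit 2236, nat_lit 2739, ⟨.ofNat (nat_lit 699600), .ofNat (nat_lit 729131), .ofNat (nat_lit 722017), .ofNat (nat_lit 751548), .ofNat (nat_lit 693819), .ofNat (nat_lit 722327), .ofNat (nat_lit 716594), .ofNat (nat_lit 745101)⟩, ⟨.ofNat (nat_lit 0), .ofNat (nat_lit 143475), .ofNat (nat_lit 0), .ofNat (nat_lit 188310), .ofNat (nat_lit 0), .ofNat (nat_lit 146758), .ofNat (nat_lit 0), .ofNat (nat_lit 192306)⟩⟩, [⟨nat_lit 13, nat_lit 49, nat_lit 80, nat_lit 100, nat_lit 443740152⟩]⟩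
noncomputable def p105_l47 : Lf2 := ⟨nat_lit 0, nat_lit 20, [nat_lit 5, nat_lit 5, nat_lit 5, nat_lit 20], false, nat_lit 0, nat_lit 80, nat_lit 0, nat_lit 336, ⟨nat_lit 104, nat_lit 678, nat_lit 218, nat_lit 6, nat_lit 244, nat_lit 896, nat_lit 34, nat_lit 218, nat_lit 11267, nat_lit 241, nat_lit 82172, nat_lit 200, nat_lit 48789928, nat_lit 18210072, nat_lit 0, nat_lit 2925165, true, true⟩,
 nat_lit 2673, nat_lit 0, nat_lit 0, nat_lit 0, nat_lit 2497, nat_lit 1145, nat_lit 0, nat_lit 0, nat_lit 0, nat_lit 86, nat_lit 0, nat_lit 0, nat_lit 0, nat_lit 0, nat_lit 8, nat_lit 358400, nat_lit 0, nat_lit 0, [(nat_lit 28, [(nat_lit 1, nat_lit 678), (nat_lit 5, nat_lit 218)])],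
 ⟨p105_k5, nat_lit 0, nat_lit 0, nat_lit 298, nat_lit 0, nat_lit 378368, [nat_lit 731929600, nat_lit 271595201, nat_lit 109259200], [], [nat_lit 24486592958, nat_lit 25520295996, nat_lit 26704619279, nat_lit 27747727958, nat_lit 24247258702, nat_lit 25219560040, nat_lit 26357961767, nat_lit 27224059836], nat_lit 1271250, nat_lit 1271250, nat_lit 1271250, nat_lit 1271250, nat_lit 0, nat_lit 490000, [nat_lit 230000, nat_lit 780000, nat_lit 1435000], [nat_lit 20, nat_lit 40, nat_lit 40, nat_lit 80, nat_lit 16, nat_lit 226, nat_lit 20, nat_lit 7]⟩, ⟨p105_k12, nat_lit 0, nat_lit 0, nat_lit 814, nat_lit 0, nat_lit 1045870, [nat_lit 650000000, nat_lit 1023568000, nat_lit 1462032000], [], [nat_lit 4232053844, nat_lit 4213624322, nat_lit 4391126251, nat_lit 4387459217, nat_lit 3606774104, nat_lit 3258697354, nat_lit 3458365716, nat_lit 3461013201], nat_lit 1271250, nat_lit 1271250, nat_lit 1271250, nat_lit 1271250, nat_lit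 0, nat_lit 2373000, [nat_lit 1412500, nat_lit 1271250, nat_lit 1271250], [nat_lit 60, nat_lit 40, nat_lit 40, nat_lit 80, nat_lit 32, nat_lit 456, nat_lit 225, nat_lit 10]⟩,
 ⟨nat_lit 0, nat_lit 2237, ⟨.ofNat (nat_lit 557013), .ofNat (nat_lit 653935), .ofNat (nat_lit 579788), .ofNat (nat_lit 676711), .ofNat (nat_lit 549998), .ofNat (nat_lit 634993), .ofNat (nat_lit 574999), .ofNat (nat_lit 659995)⟩, ⟨.ofNat (nat_lit 0), .ofNat (nat_lit 146756), .ofNat (nat_lit 0), .ofNat (nat_lit 192306), .ofNat (nat_lit 0), .ofNat (nat_lit 149997), .ofNat (nat_lit 0), .ofNat (nat_lit 199999)⟩⟩, [⟨nat_lit 13, nat_lit 31, nat_lit 93, nat_lit 100, nat_lit 411333695⟩, ⟨nat_lit 22, nat_lit 96, nat_lit 100, nat_lit 62, nat_lit 9171100⟩]⟩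
noncomputable def p105_l48 : Lf2 := ⟨nat_lit 0, nat_lit 20, [nat_lit 5, nat_lit 5, nat_lit 5, nat_lit 20], false, nat_lit 0, nat_lit 40, nat_lit 0, nat_lit 288, ⟨nat_lit 136, nat_lit 864, nat_lit 0, nat_lit 6, nat_lit 258, nat_lit 864, nat_lit 19, nat_lit 0, nat_lit 0, nat_lit 0, nat_lit 0, nat_lit 0, nat_lit 47293551, nat_lit 19706449, nat_lit 0, nat_lit 3029023, true, true⟩,
 nat_lit 2891, nat_lit 0, nat_lit 0, nat_lit 0, nat_lit 2701, nat_lit 1382, nat_lit 1, nat_lit 0, nat_lit 0, nat_lit 127, nat_lit 0, nat_lit 0, nat_lit 0, nat_lit 0, nat_lit 0, nat_lit 345600, nat_lit 0, nat_lit 0, [(nat_lit 28, [(nat_lit 1, nat_lit 864)])],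
 ⟨p105_k5, nat_lit 0, nat_lit 0, nat_lit 305, nat_lit 0, nat_lit 393179, [nat_lit 730294400, nat_lit 726979201, nat_lit 969232000], [], [nat_lit 25534845907, nat_lit 26522063503, nat_lit 28179211372, nat_lit 29030552240, nat_lit 25373753003, nat_lit 26331508787, nat_lit 27951549473, nat_lit 28779241346], nat_lit 1271250, nat_lit 1271250, nat_lit 1271250, nat_lit 1271250, nat_lit 0, nat_lit 230001, [nat_lit 230000, nat_lit 780000, nat_lit 1435000], [nat_lit 20, nat_lit 40, nat_lit 40, nat_lit 80, nat_lit 16, nat_lit 215, nat_lit 10, nat_lit 7]⟩, ⟨p105_k3, nat_lit 0, nat_lit 0, nat_lit 763, nat_lit 0, nat_lit 933519, [nat_lit 850000000, nat_lit 1338512000, nat_lit 1911888000], [], [nat_lit 5001466696, nat_lit 5018258476, nat_lit 5299110649, nat_lit 5300897315, nat_lit 3891074802, nat_lit 3869648439, nat_lit 4135539501, nat_lit 4152551323], nat_lit 1271250, nat_lit 1271250, nat_lit 1271250, nat_lit 1271250, nat_lit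 0, nat_lit 2034000, [nat_lit 1412500, nat_lit 1271250, nat_lit 1271250], [nat_lit 60, nat_lit 40, nat_lit 40, nat_lit 80, nat_lit 32, nat_lit 456, nat_lit 225, nat_lit 10]⟩,
 ⟨nat_lit 0, nat_lit 2237, ⟨.ofNat (nat_lit 579788), .ofNat (nat_lit 699516), .ofNat (nat_lit 602531), .ofNat (nat_lit 722292), .ofNat (nat_lit 574999), .ofNat (nat_lit 679994), .ofNat (nat_lit 599967), .ofNat (nat_lit 704996)⟩, ⟨.ofNat (nat_lit 0), .ofNat (nat_lit 89742), .ofNat (nat_lit 0), .ofNat (nat_lit 100000), .ofNat (nat_lit 0), .ofNat (nat_lit 99999), .ofNat (nat_lit 0), .ofNat (nat_lit 100000)⟩⟩, [⟨nat_lit 13, nat_lit 32, nat_lit 90, nat_lit 100, nat_lit 338011691⟩, ⟨nat_lit 3, nat_lit 100, nat_lit 44, nat_lit 64, nat_lit 12044643⟩, ⟨nat_lit 22, nat_lit 91, nat_lit 100, nat_lit 44, nat_lit 10703463⟩]⟩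
noncomputable def p105_l49 : Lf2 := ⟨nat_lit 0, nat_lit 20, [nat_lit 5, nat_lit 5, nat_lit 5, nat_lit 20], false, nat_lit 40, nat_lit 80, nat_lit 0, nat_lit 336, ⟨nat_lit 139, nat_lit 861, nat_lit 0, nat_lit 6, nat_lit 258, nat_lit 861, nat_lit 54, nat_lit 0, nat_lit 0, nat_lit 0, nat_lit 0, nat_lit 0, nat_lit 45867230, nat_lit 19419558, nat_lit 1713212, nat_lit 3693635, true, true⟩,
 nat_lit 2900, nat_lit 0, nat_lit 0, nat_lit 0, nat_lit 2709, nat_lit 1386, nat_lit 39, nat_lit 0, nat_lit 0, nat_lit 129, nat_lit 0, nat_lit 0, nat_lit 0, nat_lit 0, nat_lit 0, nat_lit 344400, nat_lit 0, nat_lit 0, [(nat_lit 28, [(nat_lit 1, nat_lit 861)])],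
 ⟨p105_k5, nat_lit 0, nat_lit 0, nat_lit 260, nat_lit 0, nat_lit 393179, [nat_lit 731015601, nat_lit 735850800, nat_lit 987568000], [], [nat_lit 24439421904, nat_lit 25423670371, nat_lit 27125299515, nat_lit 28123046615, nat_lit 24245134065, nat_lit 25199310143, nat_lit 26836801180, nat_lit 27723329400], nat_lit 1271250, nat_lit 1271250, nat_lit 1271250, nat_lit 1271250, nat_lit 230001, nat_lit 490000, [nat_lit 230000, nat_lit 780000, nat_lit 1435000], [nat_lit 20, nat_lit 40, nat_lit 40, nat_lit 80, nat_lit 16, nat_lit 226, nat_lit 20, nat_lit 7]⟩, ⟨p105_k3, nat_lit 0, nat_lit 0, nat_lit 763, nat_lit 0, nat_lit 933519, [nat_lit 868750000, nat_lit 1368038000, nat_lit 1954062000], [], [nat_lit 5150366810, nat_lit 5154572248, nat_lit 5440096256, nat_lit 5436630594, nat_lit 4286132148, nat_lit 4174044579, nat_lit 4493811373, nat_lit 4497769383], nat_lit 1271250, nat_lit 1271250, nat_lit 1271250, nat_lit 1271250,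 nat_lit 0, nat_lit 2373000, [nat_lit 1412500, nat_lit 1271250, nat_lit 1271250], [nat_lit 60, nat_lit 40, nat_lit 40, nat_lit 80, nat_lit 32, nat_lit 456, nat_lit 225, nat_lit 10]⟩,
 ⟨nat_lit 0, nat_lit 2237, ⟨.ofNat (nat_lit 579788), .ofNat (nat_lit 699516), .ofNat (nat_lit 602531), .ofNat (nat_lit 722292), .ofNat (nat_lit 574999), .ofNat (nat_lit 679994), .ofNat (nat_lit 599967), .ofNat (nat_lit 704996)⟩, ⟨.ofNat (nat_lit 89742), .ofNat (nat_lit 146756), .ofNat (nat_lit 100000), .ofNat (nat_lit 192306), .ofNat (nat_lit 99999), .ofNat (nat_lit 149997), .ofNat (nat_lit 100000), .ofNat (nat_lit 199999)⟩⟩, [⟨nat_lit 13, nat_lit 32, nat_lit 90, nat_lit 100, nat_lit 345402005⟩, ⟨nat_lit 22, nat_lit 98, nat_lit 100, nat_lit 77, nat_lit 15483159⟩]⟩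
noncomputable def p105_l50 : Lf2 := ⟨nat_lit 0, nat_lit 15, [nat_lit 30, nat_lit 5, nat_lit 5, nat_lit 20], false, nat_lit 80, nat_lit 176, nat_lit 0, nat_lit 344, ⟨nat_lit 132, nat_lit 290, nat_lit 578, nat_lit 6, nat_lit 256, nat_lit 868, nat_lit 90, nat_lit 578, nat_lit 77067, nat_lit 283, nat_lit 187540, nat_lit 200, nat_lit 44452953, nat_lit 18873892, nat_lit 3673155, nat_lit 4159396, true, true⟩,
 nat_lit 3292, nat_lit 0, nat_lit 0, nat_lit 0, nat_lit 2867, nat_lit 1410, nat_lit 0, nat_lit 0, nat_lit 0, nat_lit 106, nat_lit 0, nat_lit 0, nat_lit 0, nat_lit 0, nat_lit 0, nat_lit 217000, nat_lit 0, nat_lit 0, [(nat_lit 25, [(nat_lit 0, nat_lit 290), (nat_lit 4, nat_lit 578)])],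
 ⟨p105_k6, nat_lit 0, nat_lit 0, nat_lit 165, nat_lit 0, nat_lit 212165, [nat_lit 766160000, nat_lit 621017067, nat_lit 364140000], [], [nat_lit 22826653948, nat_lit 23798955814, nat_lit 25928242550, nat_lit 26831838990, nat_lit 23783214378, nat_lit 24654226720, nat_lit 26567704495, nat_lit 27366534053], nat_lit 1271250, nat_lit 1271250, nat_lit 1271250, nat_lit 1271250, nat_lit 490000, nat_lit 1236400, [nat_lit 230000, nat_lit 780000, nat_lit 1435000], [nat_lit 20, nat_lit 40, nat_lit 40, nat_lit 80, nat_lit 16, nat_lit 260, nat_lit 50, nat_lit 8]⟩, ⟨p105_k13, nat_lit 0, nat_lit 0, nat_lit 582, nat_lit 0, nat_lit 531660, [nat_lit 825000000, nat_lit 1299144000, nat_lit 1855656000], [], [nat_lit 5400570536, nat_lit 5413257476, nat_lit 5779244130, nat_lit 5768552099, nat_lit 4699541377, nat_lit 4289411695, nat_lit 4643651795, nat_lit 4637694558], nat_lit 1271250, nat_lit 1271250, nat_lit 1271250, nat_lit 1271250,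 nat_lit 0, nat_lit 2429500, [nat_lit 1412500, nat_lit 1271250, nat_lit 1271250], [nat_lit 60, nat_lit 40, nat_lit 40, nat_lit 80, nat_lit 32, nat_lit 456, nat_lit 225, nat_lit 10]⟩,
 ⟨nat_lit 2236, nat_lit 3163, ⟨.ofNat (nat_lit 560952), .ofNat (nat_lit 707240), .ofNat (nat_lit 583107), .ofNat (nat_lit 729395), .ofNat (nat_lit 557014), .ofNat (nat_lit 693851), .ofNat (nat_lit 579788), .ofNat (nat_lit 716626)⟩, ⟨.ofNat (nat_lit 139899), .ofNat (nat_lit 286187), .ofNat (nat_lit 162054), .ofNat (nat_lit 308342), .ofNat (nat_lit 146758), .ofNat (nat_lit 283595), .ofNat (nat_lit 169532), .ofNat (nat_lit 306369)⟩⟩, [⟨nat_lit 13, nat_lit 53, nat_lit 82, nat_lit 100, nat_lit 234180001⟩, ⟨nat_lit 4, nat_lit 100, nat_lit 55, nat_lit 69, nat_lit 143202237⟩, ⟨nat_lit 19, nat_lit 100, nat_lit 78, nat_lit 66, nat_lit 13358523⟩]⟩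
noncomputable def p105_l51 : Lf2 := ⟨nat_lit 0, nat_lit 20, [nat_lit 5, nat_lit 5, nat_lit 5, nat_lit 20], false, nat_lit 80, nat_lit 200, nat_lit 0, nat_lit 360, ⟨nat_lit 100, nat_lit 392, nat_lit 508, nat_lit 6, nat_lit 256, nat_lit 900, nat_lit 106, nat_lit 508, nat_lit 106667, nat_lit 295, nat_lit 187540, nat_lit 200, nat_lit 43651115, nat_lit 18676995, nat_lit 4671890, nat_lit 4355757, true, true⟩,
 nat_lit 3251, nat_lit 0, nat_lit 0, nat_lit 0, nat_lit 2831, nat_lit 1393, nat_lit 0, nat_lit 0, nat_lit 0, nat_lit 20, nat_lit 0, nat_lit 0, nat_lit 0, nat_lit 0, nat_lit 0, nat_lit 225000, nat_lit 0, nat_lit 0, [(nat_lit 25, [(nat_lit 0, nat_lit 392), (nat_lit 4, nat_lit 508)])],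
 ⟨p105_k0, nat_lit 0, nat_lit 0, nat_lit 156, nat_lit 0, nat_lit 187636, [nat_lit 763112001, nat_lit 680941334, nat_lit 510376000], [], [nat_lit 22236926460, nat_lit 23285274436, nat_lit 25739732820, nat_lit 26772594193, nat_lit 23855715044, nat_lit 24761830126, nat_lit 26909063173, nat_lit 27761175226], nat_lit 1271250, nat_lit 1271250, nat_lit 1271250, nat_lit 1271250, nat_lit 490000, nat_lit 1427500, [nat_lit 230000, nat_lit 780000, nat_lit 1435000], [nat_lit 20, nat_lit 40, nat_lit 40, nat_lit 80, nat_lit 16, nat_lit 260, nat_lit 50, nat_lit 8]⟩, ⟨p105_k12, nat_lit 0, nat_lit 0, nat_lit 560, nat_lit 0, nat_lit 475945, [nat_lit 625000000, nat_lit 984200000, nat_lit 1405800000], [], [nat_lit 4887830540, nat_lit 4889058882, nat_lit 5196149552, nat_lit 5173586674, nat_lit 3686265108, nat_lit 3657666549, nat_lit 3964258196, nat_lit 3941446379], nat_lit 1271250, nat_lit 1271250, nat_lit 1271250, nat_lit 1271250,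 nat_lit 0, nat_lit 2542500, [nat_lit 1412500, nat_lit 1271250, nat_lit 1271250], [nat_lit 60, nat_lit 40, nat_lit 40, nat_lit 80, nat_lit 32, nat_lit 483, nat_lit 250, nat_lit 11]⟩,
 ⟨nat_lit 2236, nat_lit 3163, ⟨.ofNat (nat_lit 560952), .ofNat (nat_lit 707240), .ofNat (nat_lit 583107), .ofNat (nat_lit 729395), .ofNat (nat_lit 557014), .ofNat (nat_lit 693851), .ofNat (nat_lit 579788), .ofNat (nat_lit 716626)⟩, ⟨.ofNat (nat_lit 162054), .ofNat (nat_lit 344914), .ofNat (nat_lit 184209), .ofNat (nat_lit 367069), .ofNat (nat_lit 169532), .ofNat (nat_lit 340579), .ofNat (nat_lit 192306), .ofNat (nat_lit 363353)⟩⟩, [⟨nat_lit 13, nat_lit 53, nat_lit 82, nat_lit 100, nat_lit 132733343⟩, ⟨nat_lit 13, nat_lit 44, nat_lit 90, nat_lit 100, nat_lit 182793317⟩, ⟨nat_lit 4, nat_lit 100, nat_lit 53, nat_lit 77, nat_lit 149029942⟩, ⟨nat_lit 19, nat_lit 100, nat_lit 69, nat_lit 76, nat_lit 3112426⟩]⟩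
noncomputable def p105_l52 : Lf2 := ⟨nat_lit 0, nat_lit 15, [nat_lit 30, nat_lit 5, nat_lit 5, nat_lit 20], false, nat_lit 80, nat_lit 176, nat_lit 0, nat_lit 332, ⟨nat_lit 168, nat_lit 376, nat_lit 456, nat_lit 6, nat_lit 261, nat_lit 832, nat_lit 90, nat_lit 456, nat_lit 77067, nat_lit 283, nat_lit 183086, nat_lit 200, nat_lit 44046129, nat_lit 19298278, nat_lit 3655593, nat_lit 4183136, true, true⟩,
 nat_lit 3339, nat_lit 0, nat_lit 0, nat_lit 0, nat_lit 2908, nat_lit 1596, nat_lit 86, nat_lit 0, nat_lit 0, nat_lit 160, nat_lit 0, nat_lit 0, nat_lit 0, nat_lit 0, nat_lit 0, nat_lit 208000, nat_lit 0, nat_lit 0, [(nat_lit 25, [(nat_lit 0, nat_lit 376), (nat_lit 4, nat_lit 456)])],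
 ⟨p105_k6, nat_lit 0, nat_lit 0, nat_lit 170, nat_lit 0, nat_lit 235046, [nat_lit 776816001, nat_lit 901033601, nat_lit 998208000], [], [nat_lit 22655176653, nat_lit 23632923237, nat_lit 25183402381, nat_lit 26082875536, nat_lit 23598781444, nat_lit 24474313052, nat_lit 25865323044, nat_lit 26680425105], nat_lit 1271250, nat_lit 1271250, nat_lit 1271250, nat_lit 1271250, nat_lit 490000, nat_lit 1236400, [nat_lit 230000, nat_lit 780000, nat_lit 1435000], [nat_lit 20, nat_lit 40, nat_lit 40, nat_lit 80, nat_lit 16, nat_lit 260, nat_lit 50, nat_lit 8]⟩, ⟨p105_k7, nat_lit 0, nat_lit 0, nat_lit 567, nat_lit 0, nat_lit 507000, [nat_lit 1050000000, nat_lit 1653456000, nat_lit 2361744000], [], [nat_lit 6193802976, nat_lit 6210179616, nat_lit 6505395416, nat_lit 6505880432, nat_lit 5256620656, nat_lit 5250623249, nat_lit 5399012710, nat_lit 5377960949], nat_lit 1271250, nat_lit 1271250, nat_lit 1271250, nat_lit 1271250,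 nat_lit 0, nat_lit 2344750, [nat_lit 1412500, nat_lit 1271250, nat_lit 1271250], [nat_lit 60, nat_lit 40, nat_lit 40, nat_lit 80, nat_lit 32, nat_lit 456, nat_lit 225, nat_lit 10]⟩,
 ⟨nat_lit 2236, nat_lit 3163, ⟨.ofNat (nat_lit 583107), .ofNat (nat_lit 705013), .ofNat (nat_lit 605240), .ofNat (nat_lit 727168), .ofNat (nat_lit 579788), .ofNat (nat_lit 693819), .ofNat (nat_lit 602541), .ofNat (nat_lit 716594)⟩, ⟨.ofNat (nat_lit 139899), .ofNat (nat_lit 286187), .ofNat (nat_lit 162054), .ofNat (nat_lit 308342), .ofNat (nat_lit 146758), .ofNat (nat_lit 283595), .ofNat (nat_lit 169532), .ofNat (nat_lit 306369)⟩⟩, [⟨nat_lit 4, nat_lit 100, nat_lit 55, nat_lit 69, nat_lit 169375588⟩, ⟨nat_lit 19, nat_lit 100, nat_lit 85, nat_lit 67, nat_lit 21891802⟩]⟩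
noncomputable def p105_l53 : Lf2 := ⟨nat_lit 0, nat_lit 20, [nat_lit 5, nat_lit 5, nat_lit 5, nat_lit 20], false, nat_lit 80, nat_lit 200, nat_lit 0, nat_lit 348, ⟨nat_lit 313, nat_lit 687, nat_lit 0, nat_lit 6, nat_lit 261, nat_lit 687, nat_lit 106, nat_lit 0, nat_lit 0, nat_lit 0, nat_lit 0, nat_lit 0, nat_lit 43200074, nat_lit 19164648, nat_lit 4635278, nat_lit 4380174, true, true⟩,
 nat_lit 5816, nat_lit 0, nat_lit 0, nat_lit 0, nat_lit 5065, nat_lit 2781, nat_lit 0, nat_lit 0, nat_lit 0, nat_lit 260, nat_lit 0, nat_lit 0, nat_lit 0, nat_lit 0, nat_lit 0, nat_lit 171750, nat_lit 0, nat_lit 0, [(nat_lit 25, [(nat_lit 0, nat_lit 687)])],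
 ⟨p105_k0, nat_lit 0, nat_lit 0, nat_lit 140, nat_lit 0, nat_lit 151463, [nat_lit 818462001, nat_lit 1967631600, nat_lit 3411316000], [], [nat_lit 24161711960, nat_lit 24977604950, nat_lit 27887981680, nat_lit 28567174255, nat_lit 25010433870, nat_lit 25697209958, nat_lit 28119210390, nat_lit 28694944468], nat_lit 1271250, nat_lit 1271250, nat_lit 1271250, nat_lit 1271250, nat_lit 490000, nat_lit 1427500, [nat_lit 230000, nat_lit 780000, nat_lit 1435000], [nat_lit 20, nat_lit 40, nat_lit 40, nat_lit 80, nat_lit 16, nat_lit 260, nat_lit 50, nat_lit 8]⟩, ⟨p105_k3, nat_lit 0, nat_lit 0, nat_lit 454, nat_lit 0, nat_lit 330002, [nat_lit 1956250000, nat_lit 3080546000, nat_lit 4400154000], [], [nat_lit 12245667768, nat_lit 12296105108, nat_lit 12872140866, nat_lit 12881082912, nat_lit 10377009104, nat_lit 10365962768, nat_lit 10707147673, nat_lit 10678599352], nat_lit 1271250, nat_lit 1271250, nat_lit 1271250, nat_lit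 1271250, nat_lit 0, nat_lit 2457750, [nat_lit 1412500, nat_lit 1271250, nat_lit 1271250], [nat_lit 60, nat_lit 40, nat_lit 40, nat_lit 80, nat_lit 32, nat_lit 483, nat_lit 250, nat_lit 11]⟩,
 ⟨nat_lit 2738, nat_lit 3163, ⟨.ofNat (nat_lit 583107), .ofNat (nat_lit 705013), .ofNat (nat_lit 605257), .ofNat (nat_lit 727168), .ofNat (nat_lit 581477), .ofNat (nat_lit 699600), .ofNat (nat_lit 603890), .ofNat (nat_lit 722017)⟩, ⟨.ofNat (nat_lit 162054), .ofNat (nat_lit 344914), .ofNat (nat_lit 184209), .ofNat (nat_lit 367069), .ofNat (nat_lit 165893), .ofNat (nat_lit 343077), .ofNat (nat_lit 188310), .ofNat (nat_lit 365494)⟩⟩, [⟨nat_lit 16, nat_lit 57, nat_lit 100, nat_lit 76, nat_lit 135889260⟩, ⟨nat_lit 7, nat_lit 77, nat_lit 100, nat_lit 77, nat_lit 36979095⟩]⟩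
noncomputable def p105_l54 : Lf2 := ⟨nat_lit 0, nat_lit 20, [nat_lit 5, nat_lit 5, nat_lit 5, nat_lit 20], false, nat_lit 80, nat_lit 184, nat_lit 0, nat_lit 348, ⟨nat_lit 190, nat_lit 810, nat_lit 0, nat_lit 6, nat_lit 260, nat_lit 810, nat_lit 102, nat_lit 0, nat_lit 0, nat_lit 0, nat_lit 0, nat_lit 0, nat_lit 43542127, nat_lit 19085469, nat_lit 4372404, nat_lit 4322229, true, true⟩,
 nat_lit 3590, nat_lit 0, nat_lit 0, nat_lit 0, nat_lit 3239, nat_lit 1716, nat_lit 202, nat_lit 0, nat_lit 0, nat_lit 140, nat_lit 0, nat_lit 0, nat_lit 0, nat_lit 0, nat_lit 0, nat_lit 202500, nat_lit 0, nat_lit 0, [(nat_lit 25, [(nat_lit 0, nat_lit 810)])],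
 ⟨p105_k2, nat_lit 0, nat_lit 0, nat_lit 156, nat_lit 0, nat_lit 201364, [nat_lit 797060001, nat_lit 1732308001, nat_lit 2903080000], [], [nat_lit 23106642031, nat_lit 23681336271, nat_lit 26050503353, nat_lit 26598123498, nat_lit 24215874378, nat_lit 24704636061, nat_lit 26729302492, nat_lit 27212890867], nat_lit 1271250, nat_lit 1271250, nat_lit 1271250, nat_lit 1271250, nat_lit 490000, nat_lit 1302500, [nat_lit 230000, nat_lit 780000, nat_lit 1435000], [nat_lit 20, nat_lit 40, nat_lit 40, nat_lit 80, nat_lit 16, nat_lit 260, nat_lit 50, nat_lit 8]⟩, ⟨p105_k3, nat_lit 0, nat_lit 0, nat_lit 548, nat_lit 0, nat_lit 458235, [nat_lit 1187500000, nat_lit 1869980000, nat_lit 2671020000], [], [nat_lit 7914296360, nat_lit 7910246688, nat_lit 8121274968, nat_lit 8125539960, nat_lit 6569434632, nat_lit 6546387881, nat_lit 6676305566, nat_lit 6639380490], nat_lit 1271250, nat_lit 1271250, nat_lit 1271250, nat_lit 1271250,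 nat_lit 0, nat_lit 2457750, [nat_lit 1412500, nat_lit 1271250, nat_lit 1271250], [nat_lit 60, nat_lit 40, nat_lit 40, nat_lit 80, nat_lit 32, nat_lit 483, nat_lit 250, nat_lit 11]⟩,
 ⟨nat_lit 2236, nat_lit 2739, ⟨.ofNat (nat_lit 581477), .ofNat (nat_lit 699600), .ofNat (nat_lit 603890), .ofNat (nat_lit 722017), .ofNat (nat_lit 579788), .ofNat (nat_lit 693819), .ofNat (nat_lit 602558), .ofNat (nat_lit 716594)⟩, ⟨.ofNat (nat_lit 165893), .ofNat (nat_lit 319452), .ofNat (nat_lit 188310), .ofNat (nat_lit 341870), .ofNat (nat_lit 169532), .ofNat (nat_lit 317772), .ofNat (nat_lit 192306), .ofNat (nat_lit 340547)⟩⟩, [⟨nat_lit 4, nat_lit 100, nat_lit 49, nat_lit 78, nat_lit 169667241⟩, ⟨nat_lit 7, nat_lit 77, nat_lit 100, nat_lit 77, nat_lit 19556361⟩]⟩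
noncomputable def p105_l55 : Lf2 := ⟨nat_lit 0, nat_lit 20, [nat_lit 5, nat_lit 5, nat_lit 5, nat_lit 20], false, nat_lit 80, nat_lit 160, nat_lit 0, nat_lit 336, ⟨nat_lit 190, nat_lit 810, nat_lit 0, nat_lit 8, nat_lit 295, nat_lit 810, nat_lit 90, nat_lit 0, nat_lit 0, nat_lit 0, nat_lit 0, nat_lit 0, nat_lit 40856599, nat_lit 22674660, nat_lit 3468741, nat_lit 4325633, true, true⟩,
 nat_lit 3742, nat_lit 0, nat_lit 0, nat_lit 0, nat_lit 3259, nat_lit 1789, nat_lit 161, nat_lit 0, nat_lit 0, nat_lit 175, nat_lit 0, nat_lit 0, nat_lit 0, nat_lit 0, nat_lit 0, nat_lit 288150, nat_lit 0, nat_lit 0, [(nat_lit 25, [(nat_lit 0, nat_lit 239), (nat_lit 1, nat_lit 571)])],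
 ⟨p105_k0, nat_lit 0, nat_lit 0, nat_lit 188, nat_lit 0, nat_lit 245355, [nat_lit 843196801, nat_lit 1522941334, nat_lit 2216281200], [], [nat_lit 25931861598, nat_lit 26382288998, nat_lit 27161723931, nat_lit 27711392972, nat_lit 26229231795, nat_lit 26633539412, nat_lit 27357350505, nat_lit 27757676093], nat_lit 1271250, nat_lit 1271250, nat_lit 1271250, nat_lit 1271250, nat_lit 490000, nat_lit 1100001, [nat_lit 230000, nat_lit 780000, nat_lit 1435000], [nat_lit 20, nat_lit 40, nat_lit 40, nat_lit 80, nat_lit 16, nat_lit 249, nat_lit 40, nat_lit 8]⟩, ⟨p105_k3, nat_lit 0, nat_lit 0, nat_lit 566, nat_lit 0, nat_lit 534571, [nat_lit 1187500000, nat_lit 1869980000, nat_lit 2671020000], [], [nat_lit 7469489502, nat_lit 7470706160, nat_lit 7704621838, nat_lit 7710459536, nat_lit 6204078205, nat_lit 6180073255, nat_lit 6423641890, nat_lit 6421990142], nat_lit 1271250, nat_lit 1271250, nat_lit 1271250, nat_lit 1271250,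 nat_lit 0, nat_lit 2373000, [nat_lit 1412500, nat_lit 1271250, nat_lit 1271250], [nat_lit 60, nat_lit 40, nat_lit 40, nat_lit 80, nat_lit 32, nat_lit 483, nat_lit 250, nat_lit 11]⟩,
 ⟨nat_lit 2738, nat_lit 3163, ⟨.ofNat (nat_lit 705013), .ofNat (nat_lit 753776), .ofNat (nat_lit 727168), .ofNat (nat_lit 775931), .ofNat (nat_lit 699600), .ofNat (nat_lit 746849), .ofNat (nat_lit 722017), .ofNat (nat_lit 769266)⟩, ⟨.ofNat (nat_lit 139899), .ofNat (nat_lit 261806), .ofNat (nat_lit 184209), .ofNat (nat_lit 306116), .ofNat (nat_lit 143475), .ofNat (nat_lit 261598), .ofNat (nat_lit 188310), .ofNat (nat_lit 306433)⟩⟩, [⟨nat_lit 13, nat_lit 57, nat_lit 74, nat_lit 100, nat_lit 181802886⟩, ⟨nat_lit 4, nat_lit 100, nat_lit 57, nat_lit 73, nat_lit 120531502⟩, ⟨nat_lit 22, nat_lit 80, nat_lit 100, nat_lit 100, nat_lit 20963344⟩]⟩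
noncomputable def p105_l56 : Lf2 := ⟨nat_lit 0, nat_lit 20, [nat_lit 5, nat_lit 5, nat_lit 5, nat_lit 20], false, nat_lit 80, nat_lit 160, nat_lit 0, nat_lit 336, ⟨nat_lit 184, nat_lit 816, nat_lit 0, nat_lit 8, nat_lit 289, nat_lit 816, nat_lit 90, nat_lit 0, nat_lit 0, nat_lit 0, nat_lit 0, nat_lit 0, nat_lit 41377420, nat_lit 22084773, nat_lit 3537807, nat_lit 4313304, true, true⟩,
 nat_lit 3531, nat_lit 0, nat_lit 0, nat_lit 0, nat_lit 3186, nat_lit 1688, nat_lit 231, nat_lit 0, nat_lit 0, nat_lit 142, nat_lit 0, nat_lit 0, nat_lit 0, nat_lit 0, nat_lit 0, nat_lit 204000, nat_lit 0, nat_lit 0, [(nat_lit 25, [(nat_lit 0, nat_lit 816)])],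
 ⟨p105_k2, nat_lit 0, nat_lit 0, nat_lit 208, nat_lit 0, nat_lit 292500, [nat_lit 796016001, nat_lit 1720828801, nat_lit 2878288000], [], [nat_lit 25995442192, nat_lit 26511716112, nat_lit 26936524659, nat_lit 27568088118, nat_lit 26274560579, nat_lit 26682519128, nat_lit 27070185768, nat_lit 27647396736], nat_lit 1271250, nat_lit 1271250, nat_lit 1271250, nat_lit 1271250, nat_lit 490000, nat_lit 1100001, [nat_lit 230000, nat_lit 780000, nat_lit 1435000], [nat_lit 20, nat_lit 40, nat_lit 40, nat_lit 80, nat_lit 16, nat_lit 249, nat_lit 40, nat_lit 8]⟩, ⟨p105_k3, nat_lit 0, nat_lit 0, nat_lit 615, nat_lit 0, nat_lit 665629, [nat_lit 1150000000, nat_lit 1810928000, nat_lit 2586672000], [], [nat_lit 7740421928, nat_lit 7743458616, nat_lit 7881308024, nat_lit 7877361224, nat_lit 6281859423, nat_lit 6260802076, nat_lit 6389355381, nat_lit 6394165513], nat_lit 1271250, nat_lit 1271250, nat_lit 1271250, nat_lit 1271250,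 nat_lit 0, nat_lit 2373000, [nat_lit 1412500, nat_lit 1271250, nat_lit 1271250], [nat_lit 60, nat_lit 40, nat_lit 40, nat_lit 80, nat_lit 32, nat_lit 483, nat_lit 250, nat_lit 11]⟩,
 ⟨nat_lit 2236, nat_lit 2739, ⟨.ofNat (nat_lit 699600), .ofNat (nat_lit 729131), .ofNat (nat_lit 722017), .ofNat (nat_lit 751548), .ofNat (nat_lit 693819), .ofNat (nat_lit 722327), .ofNat (nat_lit 716594), .ofNat (nat_lit 745101)⟩, ⟨.ofNat (nat_lit 143475), .ofNat (nat_lit 261598), .ofNat (nat_lit 188310), .ofNat (nat_lit 306433), .ofNat (nat_lit 146758), .ofNat (nat_lit 260789), .ofNat (nat_lit 192306), .ofNat (nat_lit 306337)⟩⟩, [⟨nat_lit 13, nat_lit 49, nat_lit 80, nat_lit 100, nat_lit 404923721⟩, ⟨nat_lit 4, nat_lit 100, nat_lit 50, nat_lit 74, nat_lit 146312309⟩, ⟨nat_lit 22, nat_lit 83, nat_lit 98, nat_lit 100, nat_lit 15182156⟩]⟩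
noncomputable def p105_l57 : Lf2 := ⟨nat_lit 0, nat_lit 20, [nat_lit 5, nat_lit 5, nat_lit 5, nat_lit 20], false, nat_lit 160, nat_lit 200, nat_lit 16, nat_lit 348, ⟨nat_lit 279, nat_lit 721, nat_lit 0, nat_lit 8, nat_lit 294, nat_lit 721, nat_lit 125, nat_lit 0, nat_lit 0, nat_lit 0, nat_lit 0, nat_lit 0, nat_lit 39409356, nat_lit 21932210, nat_lit 5658434, nat_lit 4721513, true, true⟩,
 nat_lit 5427, nat_lit 0, nat_lit 0, nat_lit 0, nat_lit 4726, nat_lit 2595, nat_lit 0, nat_lit 0, nat_lit 0, nat_lit 255, nat_lit 0, nat_lit 0, nat_lit 0, nat_lit 0, nat_lit 0, nat_lit 220450, nat_lit 0, nat_lit 0, [(nat_lit 25, [(nat_lit 0, nat_lit 453), (nat_lit 1, nat_lit 268)])],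
 ⟨p105_k0, nat_lit 0, nat_lit 0, nat_lit 173, nat_lit 0, nat_lit 305508, [nat_lit 834200401, nat_lit 1804316134, nat_lit 2948477600], [], [nat_lit 27937995664, nat_lit 28895735248, nat_lit 29210189559, nat_lit 30185563896, nat_lit 28420101116, nat_lit 29320568222, nat_lit 29612413379, nat_lit 30722356620], nat_lit 1271250, nat_lit 1271250, nat_lit 1271250, nat_lit 1271250, nat_lit 1100001, nat_lit 1442500, [nat_lit 230000, nat_lit 780000, nat_lit 1435000], [nat_lit 20, nat_lit 40, nat_lit 40, nat_lit 80, nat_lit 16, nat_lit 260, nat_lit 50, nat_lit 8]⟩, ⟨p105_k3, nat_lit 0, nat_lit 0, nat_lit 603, nat_lit 0, nat_lit 665629, [nat_lit 1743750000, nat_lit 2745918000, nat_lit 3922182000], [], [nat_lit 10674860552, nat_lit 10678970748, nat_lit 11014937662, nat_lit 11023958837, nat_lit 9302834889, nat_lit 9264902690, nat_lit 9606939746, nat_lit 9599169774], nat_lit 1271250, nat_lit 1271250, nat_lit 1271250, nat_lit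 1271250, nat_lit 88400, nat_lit 2482950, [nat_lit 1412500, nat_lit 1271250, nat_lit 1271250], [nat_lit 60, nat_lit 40, nat_lit 40, nat_lit 80, nat_lit 32, nat_lit 483, nat_lit 250, nat_lit 11]⟩,
 ⟨nat_lit 2236, nat_lit 3163, ⟨.ofNat (nat_lit 705013), .ofNat (nat_lit 753776), .ofNat (nat_lit 727168), .ofNat (nat_lit 775931), .ofNat (nat_lit 693819), .ofNat (nat_lit 739432), .ofNat (nat_lit 716594), .ofNat (nat_lit 762206)⟩, ⟨.ofNat (nat_lit 261806), .ofNat (nat_lit 322759), .ofNat (nat_lit 306116), .ofNat (nat_lit 367069), .ofNat (nat_lit 260789), .ofNat (nat_lit 317804), .ofNat (nat_lit 306337), .ofNat (nat_lit 363353)⟩⟩, [⟨nat_lit 13, nat_lit 53, nat_lit 77, nat_lit 100, nat_lit 264615293⟩, ⟨nat_lit 4, nat_lit 100, nat_lit 54, nat_lit 73, nat_lit 609382429⟩, ⟨nat_lit 7, nat_lit 81, nat_lit 100, nat_lit 72, nat_lit 46284823⟩]⟩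
noncomputable def p105_l58 : Lf2 := ⟨nat_lit 0, nat_lit 20, [nat_lit 5, nat_lit 5, nat_lit 5, nat_lit 20], false, nat_lit 80, nat_lit 164, nat_lit 0, nat_lit 360, ⟨nat_lit 0, nat_lit 1000, nat_lit 0, nat_lit 6, nat_lit 244, nat_lit 1000, nat_lit 91, nat_lit 0, nat_lit 0, nat_lit 0, nat_lit 0, nat_lit 0, nat_lit 45543637, nat_lit 17660552, nat_lit 3795811, nat_lit 4101696, true, true⟩,
 nat_lit 0, nat_lit 2883, nat_lit 0, nat_lit 0, nat_lit 2693, nat_lit 0, nat_lit 11, nat_lit 0, nat_lit 0, nat_lit 0, nat_lit 0, nat_lit 0, nat_lit 0, nat_lit 0, nat_lit 0, nat_lit 400000, nat_lit 0, nat_lit 0, [(nat_lit 28, [(nat_lit 1, nat_lit 1000)])],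
 ⟨p105_k5, nat_lit 0, nat_lit 0, nat_lit 231, nat_lit 0, nat_lit 378368, [nat_lit 697600000, nat_lit 324800000, nat_lit 138000000], [], [nat_lit 23116327095, nat_lit 24171813655, nat_lit 25347133191, nat_lit 26475380991, nat_lit 24010251076, nat_lit 24969607259, nat_lit 26050034335, nat_lit 26903287663], nat_lit 1271250, nat_lit 1271250, nat_lit 1271250, nat_lit 1271250, nat_lit 490000, nat_lit 1133651, [nat_lit 230000, nat_lit 780000, nat_lit 1435000], [nat_lit 20, nat_lit 40, nat_lit 40, nat_lit 80, nat_lit 16, nat_lit 260, nat_lit 50, nat_lit 8]⟩, ⟨p105_k12, nat_lit 0, nat_lit 0, nat_lit 814, nat_lit 0, nat_lit 1045870, [nat_lit 0, nat_lit 0, nat_lit 0], [], [nat_lit 0, nat_lit 0, nat_lit 0, nat_lit 0, nat_lit 0, nat_lit 0, nat_lit 0, nat_lit 0], nat_lit 1271250, nat_lit 1271250, nat_lit 1271250, nat_lit 1271250, nat_lit 0, nat_lit 2542500, [nat_lit 1412500, nat_lit 1271250, nat_lit 1271250], [nat_lit 60,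 nat_lit 40, nat_lit 40, nat_lit 80, nat_lit 32, nat_lit 456, nat_lit 225, nat_lit 10]⟩,
 ⟨nat_lit 0, nat_lit 2237, ⟨.ofNat (nat_lit 557013), .ofNat (nat_lit 653935), .ofNat (nat_lit 579788), .ofNat (nat_lit 676711), .ofNat (nat_lit 549998), .ofNat (nat_lit 634993), .ofNat (nat_lit 574999), .ofNat (nat_lit 659995)⟩, ⟨.ofNat (nat_lit 146756), .ofNat (nat_lit 266484), .ofNat (nat_lit 192306), .ofNat (nat_lit 312035), .ofNat (nat_lit 149997), .ofNat (nat_lit 254993), .ofNat (nat_lit 199999), .ofNat (nat_lit 304995)⟩⟩, [⟨nat_lit 13, nat_lit 44, nat_lit 86, nat_lit 100, nat_lit 332072136⟩, ⟨nat_lit 4, nat_lit 100, nat_lit 35, nat_lit 80, nat_lit 160669278⟩]⟩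
noncomputable def p105_l59 : Lf2 := ⟨nat_lit 0, nat_lit 20, [nat_lit 5, nat_lit 5, nat_lit 5, nat_lit 20], false, nat_lit 80, nat_lit 164, nat_lit 0, nat_lit 348, ⟨nat_lit 151, nat_lit 849, nat_lit 0, nat_lit 6, nat_lit 258, nat_lit 849, nat_lit 91, nat_lit 0, nat_lit 0, nat_lit 0, nat_lit 0, nat_lit 0, nat_lit 44220746, nat_lit 19038980, nat_lit 3740274, nat_lit 4185127, true, true⟩,
 nat_lit 3070, nat_lit 0, nat_lit 0, nat_lit 0, nat_lit 2868, nat_lit 1468, nat_lit 31, nat_lit 0, nat_lit 0, nat_lit 132, nat_lit 0, nat_lit 0, nat_lit 0, nat_lit 0, nat_lit 0, nat_lit 339600, nat_lit 0, nat_lit 0, [(nat_lit 28, [(nat_lit 1, nat_lit 849)])],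
 ⟨p105_k5, nat_lit 0, nat_lit 0, nat_lit 237, nat_lit 0, nat_lit 393179, [nat_lit 733900400, nat_lit 771337200, nat_lit 1060912000], [], [nat_lit 23729332822, nat_lit 24731164742, nat_lit 26444620473, nat_lit 27479144344, nat_lit 24534871956, nat_lit 25445790016, nat_lit 27041560247, nat_lit 27888029811], nat_lit 1271250, nat_lit 1271250, nat_lit 1271250, nat_lit 1271250, nat_lit 490000, nat_lit 1133651, [nat_lit 230000, nat_lit 780000, nat_lit 1435000], [nat_lit 20, nat_lit 40, nat_lit 40, nat_lit 80, nat_lit 16, nat_lit 260, nat_lit 50, nat_lit 8]⟩, ⟨p105_k3, nat_lit 0, nat_lit 0, nat_lit 763, nat_lit 0, nat_lit 933519, [nat_lit 943750000, nat_lit 1486142000, nat_lit 2122758000], [], [nat_lit 5765752262, nat_lit 5770492708, nat_lit 6068811989, nat_lit 6066645575, nat_lit 4851678871, nat_lit 4744018312, nat_lit 5058237181, nat_lit 5059884933], nat_lit 1271250, nat_lit 1271250, nat_lit 1271250, nat_lit 1271250,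 nat_lit 0, nat_lit 2457750, [nat_lit 1412500, nat_lit 1271250, nat_lit 1271250], [nat_lit 60, nat_lit 40, nat_lit 40, nat_lit 80, nat_lit 32, nat_lit 483, nat_lit 250, nat_lit 11]⟩,
 ⟨nat_lit 0, nat_lit 2237, ⟨.ofNat (nat_lit 579788), .ofNat (nat_lit 699516), .ofNat (nat_lit 602531), .ofNat (nat_lit 722292), .ofNat (nat_lit 574999), .ofNat (nat_lit 679994), .ofNat (nat_lit 599967), .ofNat (nat_lit 704996)⟩, ⟨.ofNat (nat_lit 146756), .ofNat (nat_lit 266484), .ofNat (nat_lit 192306), .ofNat (nat_lit 312035), .ofNat (nat_lit 149997), .ofNat (nat_lit 254993), .ofNat (nat_lit 199999), .ofNat (nat_lit 304995)⟩⟩, [⟨nat_lit 13, nat_lit 32, nat_lit 90, nat_lit 100, nat_lit 300609476⟩, ⟨nat_lit 4, nat_lit 100, nat_lit 35, nat_lit 80, nat_lit 238696708⟩, ⟨nat_lit 19, nat_lit 100, nat_lit 81, nat_lit 72, nat_lit 19747030⟩]⟩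
noncomputable def b_V_900_500_10_12 : St := ⟨true, nat_lit 1, nat_lit 1, nat_lit 1, nat_lit 80, nat_lit 360, nat_lit 400, nat_lit 200, nat_lit 240, nat_lit 80, nat_lit 352, nat_lit 40, nat_lit 80, nat_lit 0, nat_lit 200, nat_lit 0, nat_lit 360, nat_lit 80, nat_lit 120, nat_lit 0, nat_lit 0, nat_lit 0, nat_lit 0⟩
theorem d_V_900_500_10_12 (h : EB TB.env) : Dead b_V_900_500_10_12 := chkB_sound0 h (T :=
(.spl (nat_lit 2) (nat_lit 240)
(.spl (nat_lit 4) (nat_lit 80)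
(.spl (nat_lit 0) (nat_lit 380)
(.leaf p105_l36)
(.trZ (nat_lit 0) (nat_lit 100) (nat_lit 44) (nat_lit 90) (nat_lit 112) (.leaf p105_l37)))
(.leaf p105_l38))
(.spl (nat_lit 4) (nat_lit 80)
(.trX (nat_lit 22) (nat_lit 100) (nat_lit 76) (nat_lit 82) (nat_lit 336) (.spl (nat_lit 0) (nat_lit 380)
(.spl (nat_lit 1) (nat_lit 220)
(.trX (nat_lit 13) (nat_lit 60) (nat_lit 74) (nat_lit 100) (nat_lit 336) (.spl (nat_lit 2) (nat_lit 280)
(.leaf p105_l39)
(.trX (nat_lit 22) (nat_lit 100) (nat_lit 95) (nat_lit 87) (nat_lit 300) (.spl (nat_lit 0) (nat_lit 370)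
(.leaf p105_l40)
(.trX (nat_lit 13) (nat_lit 53) (nat_lit 80) (nat_lit 100) (nat_lit 324) (.leaf p105_l41))))))
(.spl (nat_lit 2) (nat_lit 320)
(.spl (nat_lit 3) (nat_lit 60)
(.trX (nat_lit 19) (nat_lit 100) (nat_lit 77) (nat_lit 72) (nat_lit 332) (.leaf p105_l42))
(.spl (nat_lit 1) (nat_lit 230)
(.leaf p105_l43)
(.leaf p105_l44)))
(.trX (nat_lit 22) (nat_lit 83) (nat_lit 100) (nat_lit 83) (nat_lit 260) (.spl (nat_lit 0) (nat_lit 370)
(.leaf p105_l45)
(.trX (nat_lit 13) (nat_lit 54) (nat_lit 74) (nat_lit 100) (nat_lit 340) (.leaf p105_l46))))))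
(.trX (nat_lit 13) (nat_lit 44) (nat_lit 81) (nat_lit 100) (nat_lit 324) (.spl (nat_lit 1) (nat_lit 220)
(.trX (nat_lit 13) (nat_lit 44) (nat_lit 86) (nat_lit 100) (nat_lit 308) (.leaf p105_l47))
(.spl (nat_lit 4) (nat_lit 40)
(.trX (nat_lit 22) (nat_lit 100) (nat_lit 92) (nat_lit 61) (nat_lit 288) (.leaf p105_l48))
(.leaf p105_l49))))))
(.spl (nat_lit 0) (nat_lit 380)
(.spl (nat_lit 1) (nat_lit 220)
(.trX (nat_lit 13) (nat_lit 60) (nat_lit 74) (nat_lit 100) (nat_lit 336) (.spl (nat_lit 3) (nat_lit 60)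
(.trX (nat_lit 16) (nat_lit 61) (nat_lit 100) (nat_lit 72) (nat_lit 176) (.trX (nat_lit 19) (nat_lit 100) (nat_lit 70) (nat_lit 71) (nat_lit 344) (.leaf p105_l50)))
(.leaf p105_l51)))
(.trX (nat_lit 19) (nat_lit 100) (nat_lit 68) (nat_lit 80) (nat_lit 348) (.spl (nat_lit 2) (nat_lit 320)
(.spl (nat_lit 3) (nat_lit 60)
(.trX (nat_lit 16) (nat_lit 61) (nat_lit 100) (nat_lit 72) (nat_lit 176) (.trX (nat_lit 19) (nat_lit 100) (nat_lit 77) (nat_lit 72) (nat_lit 332) (.leaf p105_l52)))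
(.spl (nat_lit 0) (nat_lit 370)
(.leaf p105_l53)
(.trX (nat_lit 16) (nat_lit 53) (nat_lit 100) (nat_lit 80) (nat_lit 184) (.leaf p105_l54))))
(.spl (nat_lit 4) (nat_lit 160)
(.trX (nat_lit 22) (nat_lit 82) (nat_lit 76) (nat_lit 100) (nat_lit 336) (.spl (nat_lit 0) (nat_lit 370)
(.leaf p105_l55)
(.trX (nat_lit 13) (nat_lit 54) (nat_lit 74) (nat_lit 100) (nat_lit 340) (.leaf p105_l56))))
(.trZ (nat_lit 9) (nat_lit 100) (nat_lit 82) (nat_lit 44) (nat_lit 16) (.leaf p105_l57))))))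
(.trX (nat_lit 13) (nat_lit 44) (nat_lit 81) (nat_lit 100) (nat_lit 324) (.trX (nat_lit 16) (nat_lit 44) (nat_lit 100) (nat_lit 82) (nat_lit 164) (.spl (nat_lit 1) (nat_lit 220)
(.trX (nat_lit 13) (nat_lit 44) (nat_lit 86) (nat_lit 100) (nat_lit 308) (.leaf p105_l58))
(.trX (nat_lit 19) (nat_lit 100) (nat_lit 68) (nat_lit 80) (nat_lit 348) (.leaf p105_l59))))))))) (by decide +kernel)
noncomputable def p105_l60 : Lf2 := ⟨nat_lit 0, nat_lit 20, [nat_lit 5, nat_lit 5, nat_lit 5, nat_lit 20], false, nat_lit 0, nat_lit 200, nat_lit 0, nat_lit 360, ⟨nat_lit 173, nat_lit 0, nat_lit 827, nat_lit 5, nat_lit 185, nat_lit 827, nat_lit 67, nat_lit 827, nat_lit 41667, nat_lit 265, nat_lit 417, nat_lit 210, nat_lit 55148891, nat_lit 0, nat_lit 0, nat_lit 2333162, false, false⟩,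
 nat_lit 0, nat_lit 0, nat_lit 0, nat_lit 5415, nat_lit 2413, nat_lit 3713, nat_lit 0, nat_lit 0, nat_lit 0, nat_lit 0, nat_lit 0, nat_lit 0, nat_lit 0, nat_lit 0, nat_lit 23, nat_lit 206750, nat_lit 0, nat_lit 0, [(nat_lit 25, [(nat_lit 4, nat_lit 827)]), (nat_lit 28, [(nat_lit 4, nat_lit 827)])],
 ⟨p105_k0, nat_lit 0, nat_lit 0, nat_lit 203, nat_lit 0, nat_lit 0, [nat_lit 884117201, nat_lit 544522267, nat_lit 25882533], [], [nat_lit 19670925639, nat_lit 22306948276, nat_lit 22576782343, nat_lit 24856954096, nat_lit 21159292369, nat_lit 23093545619, nat_lit 23734472122, nat_lit 25697289409], nat_lit 0, nat_lit 0, nat_lit 0, nat_lit 0, nat_lit 0, nat_lit 0, [], [nat_lit 20, nat_lit 40, nat_lit 40, nat_lit 80, nat_lit 16, nat_lit 345, nat_lit 125, nat_lit 13]⟩, ⟨p105_k12, nat_lit 0, nat_lit 0, nat_lit 381, nat_lit 0, nat_lit 0, [nat_lit 1081250000, nat_lit 1702666000, nat_lit 2432034000], [], [nat_lit 10031313940,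 nat_lit 10073594316, nat_lit 8502207548, nat_lit 8429558484, nat_lit 7664794246, nat_lit 7705793678, nat_lit 6129281512, nat_lit 6055439232], nat_lit 0, nat_lit 0, nat_lit 0, nat_lit 0, nat_lit 0, nat_lit 0, [], [nat_lit 60, nat_lit 40, nat_lit 40, nat_lit 80, nat_lit 32, nat_lit 456, nat_lit 225, nat_lit 11]⟩,
 ⟨nat_lit 0, nat_lit 3163, ⟨.ofNat (nat_lit 309443), .ofNat (nat_lit 560951), .ofNat (nat_lit 351143), .ofNat (nat_lit 605128), .ofNat (nat_lit 342303), .ofNat (nat_lit 549998), .ofNat (nat_lit 389693), .ofNat (nat_lit 599865)⟩, ⟨.ofNat (nat_lit 0), .ofNat (nat_lit 322753), .ofNat (nat_lit 0), .ofNat (nat_lit 367065), .ofNat (nat_lit 0), .ofNat (nat_lit 299993), .ofNat (nat_lit 0), .ofNat (nat_lit 349995)⟩⟩, [⟨nat_lit 0, nat_lit 100, nat_lit 44, nat_lit 94, nat_lit 117517890⟩, ⟨nat_lit 4, nat_lit 100, nat_lit 46, nat_lit 75, nat_lit 98413547⟩, ⟨nat_lit 7, nat_lit 77, nat_lit 100, nat_lit 72, nat_lit 1117432⟩]⟩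
noncomputable def p105_l61 : Lf2 := ⟨nat_lit 0, nat_lit 20, [nat_lit 5, nat_lit 5, nat_lit 5, nat_lit 20], false, nat_lit 0, nat_lit 200, nat_lit 0, nat_lit 360, ⟨nat_lit 1000, nat_lit 0, nat_lit 0, nat_lit 0, nat_lit 0, nat_lit 0, nat_lit 0, nat_lit 0, nat_lit 0, nat_lit 0, nat_lit 0, nat_lit 0, nat_lit 0, nat_lit 0, nat_lit 0, nat_lit 0, false, false⟩,
 nat_lit 0, nat_lit 0, nat_lit 0, nat_lit 6776, nat_lit 6858, nat_lit 18609, nat_lit 0, nat_lit 0, nat_lit 0, nat_lit 0, nat_lit 0, nat_lit 0, nat_lit 0, nat_lit 0, nat_lit 0, nat_lit 0, nat_lit 0, nat_lit 0, [],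
 ⟨p105_k11, nat_lit 0, nat_lit 0, nat_lit 187, nat_lit 0, nat_lit 0, [nat_lit 938000000, nat_lit 6250000000], [], [nat_lit 32704418656, nat_lit 35987491416, nat_lit 38936090261, nat_lit 42793879359, nat_lit 28824737084, nat_lit 31401681784, nat_lit 32877787448, nat_lit 34849325597], nat_lit 0, nat_lit 0, nat_lit 0, nat_lit 0, nat_lit 0, nat_lit 0, [], [nat_lit 88, nat_lit 40, nat_lit 40, nat_lit 80, nat_lit 89, nat_lit 260, nat_lit 50, nat_lit 9]⟩, ⟨p105_k14, nat_lit 0, nat_lit 0, nat_lit 255, nat_lit 0, nat_lit 0, [nat_lit 6250000000, nat_lit 14058000000], [], [nat_lit 45223789592, nat_lit 47017166544, nat_lit 57549988425, nat_lit 57924994570, nat_lit 36436473104, nat_lit 36178921570, nat_lit 43841836017, nat_lit 44210072002], nat_lit 0, nat_lit 0, nat_lit 0, nat_lit 0, nat_lit 0, nat_lit 0, [], [nat_lit 149, nat_lit 40, nat_lit 40, nat_lit 80, nat_lit 68, nat_lit 483, nat_lit 250, nat_lit 11]⟩,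
 zbF0, [⟨nat_lit 13, nat_lit 44, nat_lit 86, nat_lit 100, nat_lit 426194616⟩, ⟨nat_lit 4, nat_lit 100, nat_lit 46, nat_lit 75, nat_lit 120558915⟩, ⟨nat_lit 19, nat_lit 100, nat_lit 77, nat_lit 72, nat_lit 6748729⟩]⟩
noncomputable def p105_l62 : Lf2 := ⟨nat_lit 0, nat_lit 20, [nat_lit 5, nat_lit 5, nat_lit 5, nat_lit 20], true, nat_lit 0, nat_lit 200, nat_lit 0, nat_lit 360, ⟨nat_lit 0, nat_lit 330, nat_lit 670, nat_lit 5, nat_lit 185, nat_lit 1000, nat_lit 69, nat_lit 670, nat_lit 43350, nat_lit 266, nat_lit 417, nat_lit 210, nat_lit 55160648, nat_lit 11839352, nat_lit 0, nat_lit 2331813, false, false⟩,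
 nat_lit 0, nat_lit 0, nat_lit 0, nat_lit 5794, nat_lit 2681, nat_lit 0, nat_lit 0, nat_lit 0, nat_lit 0, nat_lit 0, nat_lit 0, nat_lit 0, nat_lit 0, nat_lit 0, nat_lit 28, nat_lit 250000, nat_lit 0, nat_lit 0, [(nat_lit 25, [(nat_lit 0, nat_lit 330), (nat_lit 4, nat_lit 670)])],
 ⟨p105_k0, nat_lit 0, nat_lit 0, nat_lit 160, nat_lit 0, nat_lit 0, [nat_lit 851880001, nat_lit 545253334, nat_lit 34770666], [], [nat_lit 19229605576, nat_lit 21182022294, nat_lit 22456007748, nat_lit 23991989050, nat_lit 20136592227, nat_lit 21317462979, nat_lit 22969226951, nat_lit 23943232393], nat_lit 0, nat_lit 0, nat_lit 0, nat_lit 0, nat_lit 0, nat_lit 0, [], [nat_lit 20, nat_lit 40, nat_lit 40, nat_lit 80, nat_lit 16, nat_lit 345, nat_lit 125, nat_lit 13]⟩, C1.Rw.none,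
 ⟨nat_lit 2236, nat_lit 3163, ⟨.ofNat (nat_lit 316827), .ofNat (nat_lit 560952), .ofNat (nat_lit 361011), .ofNat (nat_lit 605240), .ofNat (nat_lit 328641), .ofNat (nat_lit 557014), .ofNat (nat_lit 374063), .ofNat (nat_lit 602541)⟩, ⟨.ofNat (nat_lit 0), .ofNat (nat_lit 322759), .ofNat (nat_lit 0), .ofNat (nat_lit 367069), .ofNat (nat_lit 0), .ofNat (nat_lit 317804), .ofNat (nat_lit 0), .ofNat (nat_lit 363353)⟩⟩, [⟨nat_lit 4, nat_lit 100, nat_lit 54, nat_lit 73, nat_lit 21891656⟩]⟩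
noncomputable def p105_l63 : Lf2 := ⟨nat_lit 0, nat_lit 20, [nat_lit 5, nat_lit 5, nat_lit 5, nat_lit 20], true, nat_lit 0, nat_lit 164, nat_lit 0, nat_lit 360, ⟨nat_lit 0, nat_lit 438, nat_lit 562, nat_lit 5, nat_lit 196, nat_lit 1000, nat_lit 57, nat_lit 562, nat_lit 30817, nat_lit 258, nat_lit 267, nat_lit 211, nat_lit 54058472, nat_lit 12941528, nat_lit 0, nat_lit 2453841, false, false⟩,
 nat_lit 0, nat_lit 0, nat_lit 0, nat_lit 4989, nat_lit 2291, nat_lit 0, nat_lit 0, nat_lit 0, nat_lit 0, nat_lit 0, nat_lit 0, nat_lit 0, nat_lit 0, nat_lit 0, nat_lit 32, nat_lit 250000, nat_lit 0, nat_lit 0, [(nat_lit 28, [(nat_lit 0, nat_lit 438), (nat_lit 4, nat_lit 562)])],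
 ⟨p105_k5, nat_lit 0, nat_lit 0, nat_lit 172, nat_lit 0, nat_lit 0, [nat_lit 898360000, nat_lit 265144800, nat_lit 81435200], [], [nat_lit 20932235716, nat_lit 22056163300, nat_lit 23389820546, nat_lit 24551491472, nat_lit 21542933045, nat_lit 22508288822, nat_lit 23938988310, nat_lit 24955276862], nat_lit 0, nat_lit 0, nat_lit 0, nat_lit 0, nat_lit 0, nat_lit 0, [], [nat_lit 20, nat_lit 40, nat_lit 40, nat_lit 80, nat_lit 16, nat_lit 345, nat_lit 125, nat_lit 13]⟩, C1.Rw.none,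
 ⟨nat_lit 0, nat_lit 2237, ⟨.ofNat (nat_lit 370513), .ofNat (nat_lit 557013), .ofNat (nat_lit 414208), .ofNat (nat_lit 602531), .ofNat (nat_lit 385947), .ofNat (nat_lit 549998), .ofNat (nat_lit 434094), .ofNat (nat_lit 599967)⟩, ⟨.ofNat (nat_lit 0), .ofNat (nat_lit 266484), .ofNat (nat_lit 0), .ofNat (nat_lit 312035), .ofNat (nat_lit 0), .ofNat (nat_lit 254993), .ofNat (nat_lit 0), .ofNat (nat_lit 304995)⟩⟩, [⟨nat_lit 4, nat_lit 100, nat_lit 35, nat_lit 80, nat_lit 69029993⟩]⟩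
noncomputable def p105_l64 : Lf2 := ⟨nat_lit 0, nat_lit 20, [nat_lit 5, nat_lit 5, nat_lit 5, nat_lit 20], true, nat_lit 0, nat_lit 80, nat_lit 0, nat_lit 336, ⟨nat_lit 0, nat_lit 621, nat_lit 379, nat_lit 6, nat_lit 256, nat_lit 816, nat_lit 33, nat_lit 379, nat_lit 10417, nat_lit 240, nat_lit 187540, nat_lit 200, nat_lit 47488205, nat_lit 19511795, nat_lit 0, nat_lit 3016205, true, true⟩,
 nat_lit 0, nat_lit 0, nat_lit 0, nat_lit 5836, nat_lit 2440, nat_lit 0, nat_lit 0, nat_lit 0, nat_lit 0, nat_lit 0, nat_lit 0, nat_lit 0, nat_lit 0, nat_lit 0, nat_lit 0, nat_lit 250000, nat_lit 0, nat_lit 0, [(nat_lit 25, [(nat_lit 0, nat_lit 621), (nat_lit 4, nat_lit 379)])],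
 ⟨p105_k0, nat_lit 0, nat_lit 0, nat_lit 158, nat_lit 0, nat_lit 0, [nat_lit 750356001, nat_lit 712877334, nat_lit 610338000], [], [nat_lit 23546366536, nat_lit 24593959336, nat_lit 26952151272, nat_lit 27830055577, nat_lit 23153541096, nat_lit 24142341336, nat_lit 26400958728, nat_lit 27234253608], nat_lit 0, nat_lit 0, nat_lit 0, nat_lit 0, nat_lit 0, nat_lit 0, [], [nat_lit 20, nat_lit 40, nat_lit 40, nat_lit 80, nat_lit 16, nat_lit 226, nat_lit 20, nat_lit 8]⟩, C1.Rw.none,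
 ⟨nat_lit 2236, nat_lit 3163, ⟨.ofNat (nat_lit 560952), .ofNat (nat_lit 707240), .ofNat (nat_lit 583107), .ofNat (nat_lit 729395), .ofNat (nat_lit 557014), .ofNat (nat_lit 693851), .ofNat (nat_lit 579788), .ofNat (nat_lit 716626)⟩, ⟨.ofNat (nat_lit 0), .ofNat (nat_lit 139899), .ofNat (nat_lit 0), .ofNat (nat_lit 184209), .ofNat (nat_lit 0), .ofNat (nat_lit 146758), .ofNat (nat_lit 0), .ofNat (nat_lit 192306)⟩⟩, [⟨nat_lit 13, nat_lit 53, nat_lit 82, nat_lit 100, nat_lit 171534938⟩, ⟨nat_lit 13, nat_lit 44, nat_lit 90, nat_lit 100, nat_lit 208363553⟩]⟩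
noncomputable def p105_l65 : Lf2 := ⟨nat_lit 0, nat_lit 20, [nat_lit 5, nat_lit 5, nat_lit 5, nat_lit 20], false, nat_lit 0, nat_lit 80, nat_lit 0, nat_lit 336, ⟨nat_lit 493, nat_lit 0, nat_lit 507, nat_lit 6, nat_lit 270, nat_lit 507, nat_lit 33, nat_lit 507, nat_lit 10417, nat_lit 240, nat_lit 280612, nat_lit 200, nat_lit 46017555, nat_lit 0, nat_lit 0, nat_lit 3108070, true, true⟩,
 nat_lit 0, nat_lit 0, nat_lit 9719, nat_lit 0, nat_lit 3619, nat_lit 4648, nat_lit 16, nat_lit 0, nat_lit 0, nat_lit 447, nat_lit 0, nat_lit 0, nat_lit 0, nat_lit 0, nat_lit 0, nat_lit 114075, nat_lit 0, nat_lit 0, [(nat_lit 25, [(nat_lit 3, nat_lit 195), (nat_lit 4, nat_lit 312)])],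
 ⟨p105_k0, nat_lit 0, nat_lit 0, nat_lit 165, nat_lit 0, nat_lit 0, [nat_lit 995642000, nat_lit 1463471601, nat_lit 2239942000], [], [nat_lit 26636001408, nat_lit 27797809498, nat_lit 30801825009, nat_lit 31766597533, nat_lit 25179773836, nat_lit 26251939798, nat_lit 29128694513, nat_lit 30003223070], nat_lit 0, nat_lit 0, nat_lit 0, nat_lit 0, nat_lit 0, nat_lit 0, [], [nat_lit 20, nat_lit 40, nat_lit 40, nat_lit 80, nat_lit 16, nat_lit 226, nat_lit 20, nat_lit 8]⟩, ⟨p105_k3, nat_lit 0, nat_lit 0, nat_lit 405, nat_lit 0, nat_lit 200719, [nat_lit 3081250000, nat_lit 4852106000, nat_lit 6930594000], [], [nat_lit 18512843066, nat_lit 18584387064, nat_lit 20115782320, nat_lit 20088056666, nat_lit 15489455382, nat_lit 15227307783, nat_lit 16728628085, nat_lit 16724082918], nat_lit 1271250, nat_lit 1271250, nat_lit 1271250, nat_lit 1271250, nat_lit 0, nat_lit 2373000, [nat_lit 1412500, nat_lit 1271250, nat_lit 1271250],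 [nat_lit 60, nat_lit 40, nat_lit 40, nat_lit 80, nat_lit 32, nat_lit 483, nat_lit 250, nat_lit 11]⟩,
 ⟨nat_lit 2236, nat_lit 3163, ⟨.ofNat (nat_lit 583107), .ofNat (nat_lit 753776), .ofNat (nat_lit 605240), .ofNat (nat_lit 775931), .ofNat (nat_lit 579788), .ofNat (nat_lit 739432), .ofNat (nat_lit 602541), .ofNat (nat_lit 762206)⟩, ⟨.ofNat (nat_lit 0), .ofNat (nat_lit 139899), .ofNat (nat_lit 0), .ofNat (nat_lit 184209), .ofNat (nat_lit 0), .ofNat (nat_lit 146758), .ofNat (nat_lit 0), .ofNat (nat_lit 192306)⟩⟩, [⟨nat_lit 22, nat_lit 89, nat_lit 100, nat_lit 61, nat_lit 79901957⟩]⟩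
noncomputable def p105_l66 : Lf2 := ⟨nat_lit 1, nat_lit 20, [nat_lit 5, nat_lit 5, nat_lit 5, nat_lit 20], false, nat_lit 0, nat_lit 80, nat_lit 0, nat_lit 336, zbN0,
 nat_lit 0, nat_lit 0, nat_lit 0, nat_lit 0, nat_lit 0, nat_lit 0, nat_lit 0, nat_lit 0, nat_lit 0, nat_lit 0, nat_lit 0, nat_lit 0, nat_lit 0, nat_lit 0, nat_lit 0, nat_lit 0, nat_lit 0, nat_lit 0, [],
 C1.Rw.none, C1.Rw.none,
 zbF0, []⟩
noncomputable def p105_l67 : Lf2 := ⟨nat_lit 0, nat_lit 20, [nat_lit 5, nat_lit 5, nat_lit 5, nat_lit 20], true, nat_lit 0, nat_lit 80, nat_lit 0, nat_lit 336, ⟨nat_lit 0, nat_lit 662, nat_lit 338, nat_lit 6, nat_lit 242, nat_lit 1000, nat_lit 34, nat_lit 338, nat_lit 11267, nat_lit 241, nat_lit 47904, nat_lit 200, nat_lit 49084865, nat_lit 17915135, nat_lit 0, nat_lit 2903227, true, true⟩,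
 nat_lit 0, nat_lit 0, nat_lit 0, nat_lit 4989, nat_lit 2507, nat_lit 0, nat_lit 0, nat_lit 0, nat_lit 0, nat_lit 0, nat_lit 0, nat_lit 0, nat_lit 0, nat_lit 0, nat_lit 0, nat_lit 250000, nat_lit 0, nat_lit 0, [(nat_lit 28, [(nat_lit 0, nat_lit 662), (nat_lit 4, nat_lit 338)])],
 ⟨p105_k5, nat_lit 0, nat_lit 0, nat_lit 155, nat_lit 0, nat_lit 0, [nat_lit 774840001, nat_lit 360415200, nat_lit 286004800], [], [nat_lit 24078587953, nat_lit 25221080895, nat_lit 25412976137, nat_lit 26578768312, nat_lit 23501035637, nat_lit 24579086967, nat_lit 24781355165, nat_lit 25786375663], nat_lit 0, nat_lit 0, nat_lit 0, nat_lit 0, nat_lit 0, nat_lit 0, [], [nat_lit 20, nat_lit 40, nat_lit 40, nat_lit 80, nat_lit 16, nat_lit 226, nat_lit 20, nat_lit 7]⟩, C1.Rw.none,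
 ⟨nat_lit 0, nat_lit 2237, ⟨.ofNat (nat_lit 557013), .ofNat (nat_lit 614026), .ofNat (nat_lit 602531), .ofNat (nat_lit 659577), .ofNat (nat_lit 549998), .ofNat (nat_lit 599995), .ofNat (nat_lit 599967), .ofNat (nat_lit 649998)⟩, ⟨.ofNat (nat_lit 0), .ofNat (nat_lit 146756), .ofNat (nat_lit 0), .ofNat (nat_lit 192306), .ofNat (nat_lit 0), .ofNat (nat_lit 149997), .ofNat (nat_lit 0), .ofNat (nat_lit 199999)⟩⟩, [⟨nat_lit 13, nat_lit 31, nat_lit 92, nat_lit 100, nat_lit 246956426⟩, ⟨nat_lit 3, nat_lit 100, nat_lit 44, nat_lit 64, nat_lit 90297817⟩]⟩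
noncomputable def p105_l68 : Lf2 := ⟨nat_lit 0, nat_lit 15, [nat_lit 30, nat_lit 5, nat_lit 5, nat_lit 20], true, nat_lit 0, nat_lit 80, nat_lit 0, nat_lit 300, ⟨nat_lit 0, nat_lit 876, nat_lit 124, nat_lit 7, nat_lit 264, nat_lit 1000, nat_lit 32, nat_lit 124, nat_lit 9600, nat_lit 239, nat_lit 173334, nat_lit 200, nat_lit 46656339, nat_lit 20343661, nat_lit 0, nat_lit 3069570, true, true⟩,
 nat_lit 0, nat_lit 0, nat_lit 0, nat_lit 4599, nat_lit 2210, nat_lit 0, nat_lit 0, nat_lit 0, nat_lit 0, nat_lit 0, nat_lit 0, nat_lit 0, nat_lit 0, nat_lit 0, nat_lit 0, nat_lit 314950, nat_lit 0, nat_lit 0, [(nat_lit 28, [(nat_lit 0, nat_lit 567), (nat_lit 1, nat_lit 309), (nat_lit 5, nat_lit 124)])],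
 ⟨p105_k15, nat_lit 0, nat_lit 0, nat_lit 157, nat_lit 0, nat_lit 0, [nat_lit 732332001, nat_lit 473915601, nat_lit 472552400], [], [nat_lit 25190171141, nat_lit 26160562041, nat_lit 26730031416, nat_lit 27638644417, nat_lit 24772306301, nat_lit 25691686521, nat_lit 26292051974, nat_lit 27222970970], nat_lit 0, nat_lit 0, nat_lit 0, nat_lit 0, nat_lit 0, nat_lit 0, [], [nat_lit 35, nat_lit 40, nat_lit 40, nat_lit 80, nat_lit 22, nat_lit 226, nat_lit 20, nat_lit 9]⟩, C1.Rw.none,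
 ⟨nat_lit 0, nat_lit 2237, ⟨.ofNat (nat_lit 614026), .ofNat (nat_lit 676741), .ofNat (nat_lit 659577), .ofNat (nat_lit 722292), .ofNat (nat_lit 599995), .ofNat (nat_lit 654993), .ofNat (nat_lit 649998), .ofNat (nat_lit 704996)⟩, ⟨.ofNat (nat_lit 0), .ofNat (nat_lit 146756), .ofNat (nat_lit 0), .ofNat (nat_lit 169532), .ofNat (nat_lit 0), .ofNat (nat_lit 149997), .ofNat (nat_lit 0), .ofNat (nat_lit 174999)⟩⟩, [⟨nat_lit 13, nat_lit 44, nat_lit 81, nat_lit 100, nat_lit 404836895⟩, ⟨nat_lit 3, nat_lit 100, nat_lit 47, nat_lit 60, nat_lit 4928208⟩]⟩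
noncomputable def p105_l69 : Lf2 := ⟨nat_lit 0, nat_lit 20, [nat_lit 5, nat_lit 5, nat_lit 5, nat_lit 20], false, nat_lit 8, nat_lit 80, nat_lit 0, nat_lit 300, ⟨nat_lit 129, nat_lit 469, nat_lit 402, nat_lit 7, nat_lit 264, nat_lit 871, nat_lit 41, nat_lit 402, nat_lit 16017, nat_lit 246, nat_lit 173334, nat_lit 200, nat_lit 45733374, nat_lit 20141906, nat_lit 1124720, nat_lit 3552214, true, true⟩,
 nat_lit 0, nat_lit 0, nat_lit 3301, nat_lit 3379, nat_lit 2572, nat_lit 1414, nat_lit 0, nat_lit 0, nat_lit 0, nat_lit 102, nat_lit 0, nat_lit 0, nat_lit 0, nat_lit 0, nat_lit 0, nat_lit 217750, nat_lit 0, nat_lit 0, [(nat_lit 28, [(nat_lit 0, nat_lit 469), (nat_lit 4, nat_lit 402)])],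
 ⟨p105_k5, nat_lit 0, nat_lit 0, nat_lit 158, nat_lit 0, nat_lit 0, [nat_lit 793735601, nat_lit 507074400, nat_lit 649657600], [], [nat_lit 25723305696, nat_lit 26790910583, nat_lit 27381910995, nat_lit 28489862260, nat_lit 25112434555, nat_lit 26127348963, nat_lit 26700270868, nat_lit 27632600456], nat_lit 0, nat_lit 0, nat_lit 0, nat_lit 0, nat_lit 0, nat_lit 0, [], [nat_lit 20, nat_lit 40, nat_lit 40, nat_lit 80, nat_lit 16, nat_lit 226, nat_lit 20, nat_lit 7]⟩, ⟨p105_k12, nat_lit 0, nat_lit 0, nat_lit 487, nat_lit 0, nat_lit 409092, [nat_lit 806250000, nat_lit 1269618000, nat_lit 1813482000], [], [nat_lit 5399459888, nat_lit 5405788368, nat_lit 5593938089, nat_lit 5576662654, nat_lit 4065045355, nat_lit 4016619862, nat_lit 4211154354, nat_lit 4230546728], nat_lit 1271250, nat_lit 1271250, nat_lit 1271250, nat_lit 1271250, nat_lit 0, nat_lit 2118750, [nat_lit 1412500, nat_lit 1271250, nat_lit 1271250], [nat_lit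 60, nat_lit 40, nat_lit 40, nat_lit 80, nat_lit 32, nat_lit 456, nat_lit 225, nat_lit 10]⟩,
 ⟨nat_lit 0, nat_lit 2237, ⟨.ofNat (nat_lit 614026), .ofNat (nat_lit 676741), .ofNat (nat_lit 659577), .ofNat (nat_lit 722292), .ofNat (nat_lit 599995), .ofNat (nat_lit 654993), .ofNat (nat_lit 649998), .ofNat (nat_lit 704996)⟩, ⟨.ofNat (nat_lit 20000), .ofNat (nat_lit 169532), .ofNat (nat_lit 20000), .ofNat (nat_lit 192306), .ofNat (nat_lit 20000), .ofNat (nat_lit 174999), .ofNat (nat_lit 20000), .ofNat (nat_lit 199999)⟩⟩, [⟨nat_lit 13, nat_lit 31, nat_lit 92, nat_lit 100, nat_lit 653804525⟩, ⟨nat_lit 3, nat_lit 100, nat_lit 41, nat_lit 68, nat_lit 228407330⟩]⟩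
noncomputable def p105_l70 : Lf2 := ⟨nat_lit 0, nat_lit 15, [nat_lit 30, nat_lit 5, nat_lit 5, nat_lit 20], true, nat_lit 80, nat_lit 176, nat_lit 0, nat_lit 344, ⟨nat_lit 0, nat_lit 740, nat_lit 260, nat_lit 6, nat_lit 254, nat_lit 1000, nat_lit 89, nat_lit 260, nat_lit 74817, nat_lit 282, nat_lit 183082, nat_lit 200, nat_lit 44741454, nat_lit 18623786, nat_lit 3634760, nat_lit 4134039, true, true⟩,
 nat_lit 0, nat_lit 0, nat_lit 0, nat_lit 3235, nat_lit 3236, nat_lit 0, nat_lit 0, nat_lit 0, nat_lit 0, nat_lit 0, nat_lit 0, nat_lit 0, nat_lit 0, nat_lit 0, nat_lit 0, nat_lit 233100, nat_lit 0, nat_lit 0, [(nat_lit 25, [(nat_lit 0, nat_lit 740), (nat_lit 3, nat_lit 260)]), (nat_lit 28, [(nat_lit 0, nat_lit 740), (nat_lit 3, nat_lit 260)])],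
 ⟨p105_k6, nat_lit 0, nat_lit 0, nat_lit 116, nat_lit 0, nat_lit 0, [nat_lit 986480001, nat_lit 957376001, nat_lit 1219336000], [], [nat_lit 22609214898, nat_lit 25111185248, nat_lit 25730620992, nat_lit 27926849776, nat_lit 23646797951, nat_lit 25836530114, nat_lit 26411308089, nat_lit 28290718765], nat_lit 0, nat_lit 0, nat_lit 0, nat_lit 0, nat_lit 0, nat_lit 0, [], [nat_lit 20, nat_lit 40, nat_lit 40, nat_lit 80, nat_lit 16, nat_lit 260, nat_lit 50, nat_lit 8]⟩, C1.Rw.none,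
 ⟨nat_lit 0, nat_lit 3163, ⟨.ofNat (nat_lit 560951), .ofNat (nat_lit 682855), .ofNat (nat_lit 605128), .ofNat (nat_lit 727166), .ofNat (nat_lit 549998), .ofNat (nat_lit 649995), .ofNat (nat_lit 599865), .ofNat (nat_lit 699997)⟩, ⟨.ofNat (nat_lit 139898), .ofNat (nat_lit 286182), .ofNat (nat_lit 162054), .ofNat (nat_lit 308338), .ofNat (nat_lit 149998), .ofNat (nat_lit 269994), .ofNat (nat_lit 174999), .ofNat (nat_lit 294995)⟩⟩, [⟨nat_lit 13, nat_lit 44, nat_lit 86, nat_lit 100, nat_lit 143510397⟩, ⟨nat_lit 16, nat_lit 47, nat_lit 100, nat_lit 72, nat_lit 136669798⟩]⟩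
noncomputable def p105_l71 : Lf2 := ⟨nat_lit 0, nat_lit 20, [nat_lit 5, nat_lit 5, nat_lit 5, nat_lit 20], true, nat_lit 80, nat_lit 200, nat_lit 0, nat_lit 360, ⟨nat_lit 0, nat_lit 774, nat_lit 226, nat_lit 6, nat_lit 254, nat_lit 1000, nat_lit 105, nat_lit 226, nat_lit 104017, nat_lit 294, nat_lit 183082, nat_lit 200, nat_lit 43932320, nat_lit 18432786, nat_lit 4634894, nat_lit 4332018, true, true⟩,
 nat_lit 0, nat_lit 0, nat_lit 0, nat_lit 7977, nat_lit 3317, nat_lit 0, nat_lit 0, nat_lit 0, nat_lit 0, nat_lit 0, nat_lit 0, nat_lit 0, nat_lit 0, nat_lit 0, nat_lit 0, nat_lit 235310, nat_lit 0, nat_lit 0, [(nat_lit 25, [(nat_lit 0, nat_lit 774), (nat_lit 3, nat_lit 226)]), (nat_lit 28, [(nat_lit 0, nat_lit 774), (nat_lit 3, nat_lit 226)])],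
 ⟨p105_k0, nat_lit 0, nat_lit 0, nat_lit 116, nat_lit 0, nat_lit 0, [nat_lit 959688001, nat_lit 1011177601, nat_lit 1336853600], [], [nat_lit 22623913528, nat_lit 25234111056, nat_lit 25846605424, nat_lit 28067426572, nat_lit 24109946214, nat_lit 26306433596, nat_lit 26835532702, nat_lit 28742767260], nat_lit 0, nat_lit 0, nat_lit 0, nat_lit 0, nat_lit 0, nat_lit 0, [], [nat_lit 20, nat_lit 40, nat_lit 40, nat_lit 80, nat_lit 16, nat_lit 260, nat_lit 50, nat_lit 8]⟩, C1.Rw.none,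
 ⟨nat_lit 0, nat_lit 3163, ⟨.ofNat (nat_lit 560951), .ofNat (nat_lit 682855), .ofNat (nat_lit 605128), .ofNat (nat_lit 727166), .ofNat (nat_lit 549998), .ofNat (nat_lit 649995), .ofNat (nat_lit 599865), .ofNat (nat_lit 699997)⟩, ⟨.ofNat (nat_lit 162054), .ofNat (nat_lit 344909), .ofNat (nat_lit 184209), .ofNat (nat_lit 367065), .ofNat (nat_lit 174999), .ofNat (nat_lit 324994), .ofNat (nat_lit 199999), .ofNat (nat_lit 349995)⟩⟩, [⟨nat_lit 13, nat_lit 44, nat_lit 86, nat_lit 100, nat_lit 424907363⟩, ⟨nat_lit 4, nat_lit 100, nat_lit 45, nat_lit 79, nat_lit 149140401⟩]⟩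
noncomputable def p105_l72 : Lf2 := ⟨nat_lit 0, nat_lit 20, [nat_lit 5, nat_lit 5, nat_lit 5, nat_lit 20], true, nat_lit 80, nat_lit 200, nat_lit 0, nat_lit 360, ⟨nat_lit 0, nat_lit 1000, nat_lit 0, nat_lit 8, nat_lit 285, nat_lit 1000, nat_lit 101, nat_lit 0, nat_lit 0, nat_lit 0, nat_lit 0, nat_lit 0, nat_lit 41304516, nat_lit 21523443, nat_lit 4172041, nat_lit 4421064, true, true⟩,
 nat_lit 0, nat_lit 0, nat_lit 0, nat_lit 5460, nat_lit 3763, nat_lit 0, nat_lit 0, nat_lit 0, nat_lit 0, nat_lit 0, nat_lit 0, nat_lit 0, nat_lit 0, nat_lit 0, nat_lit 0, nat_lit 250000, nat_lit 0, nat_lit 0, [(nat_lit 25, [(nat_lit 0, nat_lit 1000)]), (nat_lit 28, [(nat_lit 0, nat_lit 1000)])],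
 ⟨p105_k0, nat_lit 0, nat_lit 0, nat_lit 124, nat_lit 0, nat_lit 0, [nat_lit 781600001, nat_lit 1368800000, nat_lit 2118000000], [], [nat_lit 26619309936, nat_lit 28960817796, nat_lit 28197240708, nat_lit 30532731076, nat_lit 27414911378, nat_lit 29423108740, nat_lit 28767300346, nat_lit 30707882518], nat_lit 0, nat_lit 0, nat_lit 0, nat_lit 0, nat_lit 0, nat_lit 0, [], [nat_lit 20, nat_lit 40, nat_lit 40, nat_lit 80, nat_lit 16, nat_lit 260, nat_lit 50, nat_lit 8]⟩, C1.Rw.none,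
 ⟨nat_lit 0, nat_lit 3163, ⟨.ofNat (nat_lit 682855), .ofNat (nat_lit 731616), .ofNat (nat_lit 727166), .ofNat (nat_lit 775928), .ofNat (nat_lit 649995), .ofNat (nat_lit 689994), .ofNat (nat_lit 699997), .ofNat (nat_lit 739996)⟩, ⟨.ofNat (nat_lit 139898), .ofNat (nat_lit 322753), .ofNat (nat_lit 184209), .ofNat (nat_lit 367065), .ofNat (nat_lit 149998), .ofNat (nat_lit 299993), .ofNat (nat_lit 199999), .ofNat (nat_lit 349995)⟩⟩, [⟨nat_lit 13, nat_lit 44, nat_lit 86, nat_lit 100, nat_lit 323327241⟩, ⟨nat_lit 13, nat_lit 61, nat_lit 68, nat_lit 100, nat_lit 155853890⟩, ⟨nat_lit 4, nat_lit 100, nat_lit 46, nat_lit 75, nat_lit 77105113⟩]⟩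
noncomputable def p105_l73 : Lf2 := ⟨nat_lit 0, nat_lit 20, [nat_lit 5, nat_lit 5, nat_lit 5, nat_lit 20], true, nat_lit 0, nat_lit 200, nat_lit 0, nat_lit 360, ⟨nat_lit 0, nat_lit 1000, nat_lit 0, nat_lit 5, nat_lit 217, nat_lit 1000, nat_lit 67, nat_lit 0, nat_lit 0, nat_lit 0, nat_lit 0, nat_lit 0, nat_lit 0, nat_lit 0, nat_lit 0, nat_lit 5000000, false, true⟩,
 nat_lit 0, nat_lit 0, nat_lit 0, nat_lit 6394, nat_lit 3528, nat_lit 0, nat_lit 0, nat_lit 0, nat_lit 0, nat_lit 0, nat_lit 0, nat_lit 0, nat_lit 0, nat_lit 0, nat_lit 0, nat_lit 250000, nat_lit 0, nat_lit 0, [(nat_lit 25, [(nat_lit 0, nat_lit 1000)]), (nat_lit 28, [(nat_lit 0, nat_lit 1000)])],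
 ⟨p105_k0, nat_lit 0, nat_lit 0, nat_lit 203, nat_lit 0, nat_lit 0, [nat_lit 781600001, nat_lit 1368800000, nat_lit 2118000000], [], [nat_lit 24178405696, nat_lit 27068074112, nat_lit 30845835226, nat_lit 32847219975, nat_lit 24365611024, nat_lit 26682557696, nat_lit 29826941076, nat_lit 31328812029], nat_lit 0, nat_lit 0, nat_lit 0, nat_lit 0, nat_lit 0, nat_lit 0, [], [nat_lit 20, nat_lit 40, nat_lit 40, nat_lit 80, nat_lit 16, nat_lit 373, nat_lit 150, nat_lit 14]⟩, C1.Rw.none,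
 ⟨nat_lit 0, nat_lit 3163, ⟨.ofNat (nat_lit 309443), .ofNat (nat_lit 731616), .ofNat (nat_lit 351143), .ofNat (nat_lit 775928), .ofNat (nat_lit 342303), .ofNat (nat_lit 689994), .ofNat (nat_lit 389693), .ofNat (nat_lit 739996)⟩, ⟨.ofNat (nat_lit 0), .ofNat (nat_lit 322753), .ofNat (nat_lit 0), .ofNat (nat_lit 367065), .ofNat (nat_lit 0), .ofNat (nat_lit 299993), .ofNat (nat_lit 0), .ofNat (nat_lit 349995)⟩⟩, [⟨nat_lit 13, nat_lit 44, nat_lit 86, nat_lit 100, nat_lit 333794610⟩, ⟨nat_lit 4, nat_lit 100, nat_lit 46, nat_lit 75, nat_lit 103687769⟩]⟩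
noncomputable def b_V_900_500_10_13 : St := ⟨true, nat_lit 0, nat_lit 2, nat_lit 0, nat_lit 80, nat_lit 360, nat_lit 400, nat_lit 200, nat_lit 240, nat_lit 80, nat_lit 352, nat_lit 40, nat_lit 80, nat_lit 0, nat_lit 200, nat_lit 0, nat_lit 360, nat_lit 120, nat_lit 160, nat_lit 0, nat_lit 0, nat_lit 0, nat_lit 0⟩
theorem d_V_900_500_10_13 (h : EB TB.env) : Dead b_V_900_500_10_13 := chkB_sound0 h (T :=
(.gv
(.st (nat_lit 1)
(.spl (nat_lit 2) (nat_lit 240)
(.leaf p105_l60)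
(.leaf p105_l61))
(.spl (nat_lit 2) (nat_lit 240)
(.spl (nat_lit 0) (nat_lit 380)
(.leaf p105_l62)
(.trZ (nat_lit 0) (nat_lit 100) (nat_lit 44) (nat_lit 90) (nat_lit 112) (.trX (nat_lit 16) (nat_lit 44) (nat_lit 100) (nat_lit 82) (nat_lit 164) (.leaf p105_l63))))
(.spl (nat_lit 4) (nat_lit 80)
(.trX (nat_lit 22) (nat_lit 100) (nat_lit 76) (nat_lit 82) (nat_lit 336) (.spl (nat_lit 0) (nat_lit 380)
(.spl (nat_lit 6) (nat_lit 132)
(.spl (nat_lit 1) (nat_lit 220)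
(.trX (nat_lit 13) (nat_lit 60) (nat_lit 74) (nat_lit 100) (nat_lit 336) (.leaf p105_l64))
(.leaf p105_l65))
(.leaf p105_l66))
(.trX (nat_lit 13) (nat_lit 44) (nat_lit 81) (nat_lit 100) (nat_lit 324) (.spl (nat_lit 2) (nat_lit 280)
(.leaf p105_l67)
(.trX (nat_lit 22) (nat_lit 100) (nat_lit 95) (nat_lit 87) (nat_lit 300) (.spl (nat_lit 3) (nat_lit 60)
(.leaf p105_l68)
(.trZ (nat_lit 3) (nat_lit 100) (nat_lit 61) (nat_lit 47) (nat_lit 8) (.leaf p105_l69))))))))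
(.spl (nat_lit 2) (nat_lit 320)
(.spl (nat_lit 3) (nat_lit 60)
(.trX (nat_lit 16) (nat_lit 61) (nat_lit 100) (nat_lit 72) (nat_lit 176) (.trX (nat_lit 19) (nat_lit 100) (nat_lit 70) (nat_lit 71) (nat_lit 344) (.leaf p105_l70)))
(.leaf p105_l71))
(.leaf p105_l72)))))
(.leaf p105_l73))) (by decide +kernel)
noncomputable def p105_l74 : Lf2 := ⟨nat_lit 0, nat_lit 20, [nat_lit 5, nat_lit 5, nat_lit 5, nat_lit 20], true, nat_lit 0, nat_lit 200, nat_lit 0, nat_lit 360, ⟨nat_lit 0, nat_lit 320, nat_lit 680, nat_lit 5, nat_lit 185, nat_lit 1000, nat_lit 69, nat_lit 680, nat_lit 43350, nat_lit 266, nat_lit 417, nat_lit 210, nat_lit 55160648, nat_lit 11839352, nat_lit 0, nat_lit 2331813, false, false⟩,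
 nat_lit 0, nat_lit 2893, nat_lit 0, nat_lit 2580, nat_lit 2519, nat_lit 0, nat_lit 0, nat_lit 0, nat_lit 0, nat_lit 0, nat_lit 0, nat_lit 0, nat_lit 0, nat_lit 0, nat_lit 30, nat_lit 250000, nat_lit 0, nat_lit 0, [(nat_lit 25, [(nat_lit 0, nat_lit 320), (nat_lit 4, nat_lit 680)])],
 ⟨p105_k0, nat_lit 0, nat_lit 0, nat_lit 209, nat_lit 0, nat_lit 72779, [nat_lit 859520001, nat_lit 551946667, nat_lit 36149333], [], [nat_lit 19269869103, nat_lit 20741710506, nat_lit 22144753455, nat_lit 23629586950, nat_lit 20654166093, nat_lit 21636887968, nat_lit 23242295454, nat_lit 24196137217], nat_lit 1271250, nat_lit 1271250, nat_lit 490000, nat_lit 1740000, nat_lit 0, nat_lit 1412500, [nat_lit 230000, nat_lit 780000, nat_lit 1435000], [nat_lit 20, nat_lit 40, nat_lit 40, nat_lit 80, nat_lit 16, nat_lit 345, nat_lit 125, nat_lit 13]⟩, C1.Rw.none,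
 ⟨nat_lit 2236, nat_lit 3163, ⟨.ofNat (nat_lit 316827), .ofNat (nat_lit 560952), .ofNat (nat_lit 361011), .ofNat (nat_lit 605240), .ofNat (nat_lit 328641), .ofNat (nat_lit 557014), .ofNat (nat_lit 374063), .ofNat (nat_lit 602541)⟩, ⟨.ofNat (nat_lit 0), .ofNat (nat_lit 322759), .ofNat (nat_lit 0), .ofNat (nat_lit 367069), .ofNat (nat_lit 0), .ofNat (nat_lit 317804), .ofNat (nat_lit 0), .ofNat (nat_lit 363353)⟩⟩, [⟨nat_lit 16, nat_lit 54, nat_lit 100, nat_lit 73, nat_lit 58845342⟩]⟩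
noncomputable def p105_l75 : Lf2 := ⟨nat_lit 0, nat_lit 20, [nat_lit 5, nat_lit 5, nat_lit 5, nat_lit 20], false, nat_lit 0, nat_lit 164, nat_lit 0, nat_lit 360, ⟨nat_lit 212, nat_lit 0, nat_lit 788, nat_lit 5, nat_lit 196, nat_lit 788, nat_lit 57, nat_lit 788, nat_lit 30817, nat_lit 258, nat_lit 267, nat_lit 211, nat_lit 54058472, nat_lit 0, nat_lit 0, nat_lit 2453841, false, false⟩,
 nat_lit 0, nat_lit 2826, nat_lit 0, nat_lit 561, nat_lit 2640, nat_lit 4815, nat_lit 0, nat_lit 0, nat_lit 0, nat_lit 0, nat_lit 0, nat_lit 0, nat_lit 0, nat_lit 0, nat_lit 33, nat_lit 197000, nat_lit 0, nat_lit 0, [(nat_lit 28, [(nat_lit 4, nat_lit 788)])],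
 ⟨p105_k5, nat_lit 0, nat_lit 0, nat_lit 251, nat_lit 0, nat_lit 239145, [nat_lit 930996800, nat_lit 259656000, nat_lit 243520000], [], [nat_lit 21390123120, nat_lit 22928800800, nat_lit 23900270000, nat_lit 25425314880, nat_lit 21886909059, nat_lit 22856378716, nat_lit 24220236188, nat_lit 25254501888], nat_lit 1271250, nat_lit 1271250, nat_lit 719601, nat_lit 1758000, nat_lit 0, nat_lit 1133651, [nat_lit 230000, nat_lit 780000, nat_lit 1435000], [nat_lit 20, nat_lit 40, nat_lit 40, nat_lit 80, nat_lit 16, nat_lit 345, nat_lit 125, nat_lit 13]⟩, ⟨p105_k12, nat_lit 0, nat_lit 0, nat_lit 276, nat_lit 0, nat_lit 0, [nat_lit 1325000000, nat_lit 2086504000, nat_lit 2980296000], [], [nat_lit 9937292775, nat_lit 10620232834, nat_lit 10057261624, nat_lit 10471494672, nat_lit 8630399481, nat_lit 8657152111, nat_lit 7417509136, nat_lit 7577803632], nat_lit 0, nat_lit 0, nat_lit 0, nat_lit 0, nat_lit 0, nat_lit 0, [],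 [nat_lit 60, nat_lit 40, nat_lit 40, nat_lit 80, nat_lit 32, nat_lit 456, nat_lit 225, nat_lit 11]⟩,
 ⟨nat_lit 0, nat_lit 2237, ⟨.ofNat (nat_lit 370513), .ofNat (nat_lit 557013), .ofNat (nat_lit 414208), .ofNat (nat_lit 602531), .ofNat (nat_lit 385947), .ofNat (nat_lit 549998), .ofNat (nat_lit 434094), .ofNat (nat_lit 599967)⟩, ⟨.ofNat (nat_lit 0), .ofNat (nat_lit 266484), .ofNat (nat_lit 0), .ofNat (nat_lit 312035), .ofNat (nat_lit 0), .ofNat (nat_lit 254993), .ofNat (nat_lit 0), .ofNat (nat_lit 304995)⟩⟩, [⟨nat_lit 0, nat_lit 100, nat_lit 31, nat_lit 98, nat_lit 134813601⟩, ⟨nat_lit 4, nat_lit 100, nat_lit 35, nat_lit 80, nat_lit 45187111⟩, ⟨nat_lit 7, nat_lit 77, nat_lit 100, nat_lit 72, nat_lit 1670881⟩]⟩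
noncomputable def p105_l76 : Lf2 := ⟨nat_lit 0, nat_lit 20, [nat_lit 5, nat_lit 5, nat_lit 5, nat_lit 20], false, nat_lit 0, nat_lit 200, nat_lit 0, nat_lit 360, ⟨nat_lit 1000, nat_lit 0, nat_lit 0, nat_lit 0, nat_lit 0, nat_lit 0, nat_lit 0, nat_lit 0, nat_lit 0, nat_lit 0, nat_lit 0, nat_lit 0, nat_lit 0, nat_lit 0, nat_lit 0, nat_lit 0, false, false⟩,
 nat_lit 0, nat_lit 7759, nat_lit 0, nat_lit 0, nat_lit 6757, nat_lit 16210, nat_lit 0, nat_lit 0, nat_lit 0, nat_lit 0, nat_lit 0, nat_lit 0, nat_lit 0, nat_lit 0, nat_lit 0, nat_lit 0, nat_lit 0, nat_lit 0, [],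
 ⟨p105_k0, nat_lit 0, nat_lit 0, nat_lit 203, nat_lit 0, nat_lit 72779, [nat_lit 938000000, nat_lit 3282000000, nat_lit 6250000000], [], [nat_lit 32773257024, nat_lit 34399834294, nat_lit 38670355464, nat_lit 40581274679, nat_lit 29003143686, nat_lit 30280801461, nat_lit 33035904119, nat_lit 34014550613], nat_lit 1271250, nat_lit 1271250, nat_lit 1271250, nat_lit 1271250, nat_lit 0, nat_lit 1412500, [nat_lit 230000, nat_lit 780000, nat_lit 1435000], [nat_lit 20, nat_lit 40, nat_lit 40, nat_lit 80, nat_lit 16, nat_lit 260, nat_lit 50, nat_lit 9]⟩, ⟨p105_k12, nat_lit 0, nat_lit 0, nat_lit 282, nat_lit 0, nat_lit 0, [nat_lit 6250000000, nat_lit 9842000000, nat_lit 14058000000], [], [nat_lit 43928118480, nat_lit 45627627360, nat_lit 55093086161, nat_lit 55542753025, nat_lit 37283185760, nat_lit 37167957300, nat_lit 41342353804, nat_lit 41785013104], nat_lit 0, nat_lit 0, nat_lit 0, nat_lit 0, nat_lit 0, nat_lit 0,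 [], [nat_lit 60, nat_lit 40, nat_lit 40, nat_lit 80, nat_lit 32, nat_lit 483, nat_lit 250, nat_lit 11]⟩,
 zbF0, [⟨nat_lit 4, nat_lit 100, nat_lit 54, nat_lit 73, nat_lit 135110998⟩, ⟨nat_lit 7, nat_lit 77, nat_lit 100, nat_lit 72, nat_lit 5906489⟩]⟩
noncomputable def p105_l77 : Lf2 := ⟨nat_lit 0, nat_lit 20, [nat_lit 5, nat_lit 5, nat_lit 5, nat_lit 20], false, nat_lit 0, nat_lit 164, nat_lit 0, nat_lit 360, ⟨nat_lit 1000, nat_lit 0, nat_lit 0, nat_lit 0, nat_lit 0, nat_lit 0, nat_lit 0, nat_lit 0, nat_lit 0, nat_lit 0, nat_lit 0, nat_lit 0, nat_lit 0, nat_lit 0, nat_lit 0, nat_lit 0, false, false⟩,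
 nat_lit 0, nat_lit 3792, nat_lit 0, nat_lit 4639, nat_lit 3543, nat_lit 20647, nat_lit 486, nat_lit 0, nat_lit 0, nat_lit 0, nat_lit 0, nat_lit 0, nat_lit 0, nat_lit 0, nat_lit 0, nat_lit 0, nat_lit 0, nat_lit 0, [],
 ⟨p105_k5, nat_lit 0, nat_lit 0, nat_lit 244, nat_lit 0, nat_lit 239145, [nat_lit 938000000, nat_lit 3282000000, nat_lit 6250000000], [], [nat_lit 25920326150, nat_lit 27686239056, nat_lit 29953746927, nat_lit 31399583413, nat_lit 24360201296, nat_lit 25275595896, nat_lit 27341455274, nat_lit 28593294731], nat_lit 1271250, nat_lit 1271250, nat_lit 1271250, nat_lit 1271250, nat_lit 0, nat_lit 1133651, [nat_lit 230000, nat_lit 780000, nat_lit 1435000], [nat_lit 20, nat_lit 40, nat_lit 40, nat_lit 80, nat_lit 16, nat_lit 260, nat_lit 50, nat_lit 9]⟩, ⟨p105_k12, nat_lit 0, nat_lit 0, nat_lit 271, nat_lit 0, nat_lit 0, [nat_lit 6250000000, nat_lit 9842000000, nat_lit 14058000000], [], [nat_lit 46324488936,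 nat_lit 48197608752, nat_lit 55540478665, nat_lit 56267925086, nat_lit 35717173232, nat_lit 35338715310, nat_lit 41865305334, nat_lit 42586812278], nat_lit 0, nat_lit 0, nat_lit 0, nat_lit 0, nat_lit 0, nat_lit 0, [], [nat_lit 60, nat_lit 40, nat_lit 40, nat_lit 80, nat_lit 32, nat_lit 483, nat_lit 250, nat_lit 11]⟩,
 zbF0, [⟨nat_lit 13, nat_lit 31, nat_lit 92, nat_lit 100, nat_lit 469598764⟩, ⟨nat_lit 4, nat_lit 100, nat_lit 35, nat_lit 80, nat_lit 263563287⟩, ⟨nat_lit 7, nat_lit 77, nat_lit 100, nat_lit 72, nat_lit 7270458⟩]⟩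
noncomputable def p105_l78 : Lf2 := ⟨nat_lit 0, nat_lit 20, [nat_lit 5, nat_lit 5, nat_lit 5, nat_lit 20], false, nat_lit 0, nat_lit 80, nat_lit 0, nat_lit 360, ⟨nat_lit 0, nat_lit 308, nat_lit 692, nat_lit 5, nat_lit 185, nat_lit 1000, nat_lit 34, nat_lit 692, nat_lit 10417, nat_lit 240, nat_lit 417, nat_lit 210, nat_lit 55148891, nat_lit 11851109, nat_lit 0, nat_lit 2333162, false, false⟩,
 nat_lit 0, nat_lit 2779, nat_lit 0, nat_lit 1096, nat_lit 2420, nat_lit 0, nat_lit 0, nat_lit 0, nat_lit 0, nat_lit 0, nat_lit 0, nat_lit 0, nat_lit 0, nat_lit 0, nat_lit 32, nat_lit 250000, nat_lit 0, nat_lit 0, [(nat_lit 25, [(nat_lit 0, nat_lit 308), (nat_lit 4, nat_lit 692)]), (nat_lit 28, [(nat_lit 0, nat_lit 308), (nat_lit 4, nat_lit 692)])],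
 ⟨p105_k0, nat_lit 0, nat_lit 0, nat_lit 247, nat_lit 0, nat_lit 179656, [nat_lit 895760001, nat_lit 555178667, nat_lit 29803733], [], [nat_lit 19537573388, nat_lit 22328561840, nat_lit 22714480698, nat_lit 24874480640, nat_lit 19183940668, nat_lit 21610961978, nat_lit 22444782138, nat_lit 24483463447], nat_lit 1271250, nat_lit 1271250, nat_lit 490000, nat_lit 1740000, nat_lit 0, nat_lit 490000, [nat_lit 230000, nat_lit 780000, nat_lit 1435000], [nat_lit 20, nat_lit 40, nat_lit 40, nat_lit 80, nat_lit 16, nat_lit 317, nat_lit 100, nat_lit 12]⟩, ⟨p105_k12, nat_lit 0, nat_lit 0, nat_lit 622, nat_lit 0, nat_lit 465442, [nat_lit 0, nat_lit 0, nat_lit 0], [], [nat_lit 0, nat_lit 0, nat_lit 0, nat_lit 0, nat_lit 0, nat_lit 0, nat_lit 0, nat_lit 0], nat_lit 1271250, nat_lit 1271250, nat_lit 490000, nat_lit 1740000, nat_lit 0, nat_lit 2542500, [nat_lit 1412500, nat_lit 1271250, nat_lit 1271250], [nat_lit 60, nat_lit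 40, nat_lit 40, nat_lit 80, nat_lit 32, nat_lit 456, nat_lit 225, nat_lit 11]⟩,
 ⟨nat_lit 0, nat_lit 3163, ⟨.ofNat (nat_lit 309443), .ofNat (nat_lit 560951), .ofNat (nat_lit 351143), .ofNat (nat_lit 605128), .ofNat (nat_lit 342303), .ofNat (nat_lit 549998), .ofNat (nat_lit 389693), .ofNat (nat_lit 599865)⟩, ⟨.ofNat (nat_lit 0), .ofNat (nat_lit 139898), .ofNat (nat_lit 0), .ofNat (nat_lit 184209), .ofNat (nat_lit 0), .ofNat (nat_lit 149998), .ofNat (nat_lit 0), .ofNat (nat_lit 199999)⟩⟩, [⟨nat_lit 3, nat_lit 100, nat_lit 61, nat_lit 47, nat_lit 86962982⟩]⟩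
noncomputable def p105_l79 : Lf2 := ⟨nat_lit 0, nat_lit 20, [nat_lit 5, nat_lit 5, nat_lit 5, nat_lit 20], true, nat_lit 80, nat_lit 200, nat_lit 0, nat_lit 360, ⟨nat_lit 0, nat_lit 308, nat_lit 692, nat_lit 5, nat_lit 185, nat_lit 1000, nat_lit 101, nat_lit 692, nat_lit 96267, nat_lit 291, nat_lit 417, nat_lit 210, nat_lit 50631677, nat_lit 11792059, nat_lit 4576264, nat_lit 3722121, false, false⟩,
 nat_lit 0, nat_lit 3050, nat_lit 0, nat_lit 621, nat_lit 2656, nat_lit 0, nat_lit 0, nat_lit 0, nat_lit 0, nat_lit 0, nat_lit 0, nat_lit 0, nat_lit 0, nat_lit 0, nat_lit 32, nat_lit 250000, nat_lit 0, nat_lit 0, [(nat_lit 25, [(nat_lit 0, nat_lit 308), (nat_lit 4, nat_lit 692)]), (nat_lit 28, [(nat_lit 0, nat_lit 308), (nat_lit 4, nat_lit 692)])],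
 ⟨p105_k0, nat_lit 0, nat_lit 0, nat_lit 221, nat_lit 0, nat_lit 262733, [nat_lit 895760001, nat_lit 555178667, nat_lit 29803733], [], [nat_lit 18722197228, nat_lit 21032475264, nat_lit 21539466905, nat_lit 23752499750, nat_lit 20609902204, nat_lit 22760150553, nat_lit 23311375542, nat_lit 25483471030], nat_lit 1271250, nat_lit 1271250, nat_lit 490000, nat_lit 1740000, nat_lit 490000, nat_lit 1427500, [nat_lit 230000, nat_lit 780000, nat_lit 1435000], [nat_lit 20, nat_lit 40, nat_lit 40, nat_lit 80, nat_lit 16, nat_lit 345, nat_lit 125, nat_lit 13]⟩, C1.Rw.none,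
 ⟨nat_lit 0, nat_lit 3163, ⟨.ofNat (nat_lit 309443), .ofNat (nat_lit 560951), .ofNat (nat_lit 351143), .ofNat (nat_lit 605128), .ofNat (nat_lit 342303), .ofNat (nat_lit 549998), .ofNat (nat_lit 389693), .ofNat (nat_lit 599865)⟩, ⟨.ofNat (nat_lit 139898), .ofNat (nat_lit 322753), .ofNat (nat_lit 184209), .ofNat (nat_lit 367065), .ofNat (nat_lit 149998), .ofNat (nat_lit 299993), .ofNat (nat_lit 199999), .ofNat (nat_lit 349995)⟩⟩, [⟨nat_lit 4, nat_lit 100, nat_lit 46, nat_lit 75, nat_lit 274955990⟩]⟩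
noncomputable def p105_l80 : Lf2 := ⟨nat_lit 0, nat_lit 15, [nat_lit 30, nat_lit 5, nat_lit 5, nat_lit 20], false, nat_lit 0, nat_lit 176, nat_lit 0, nat_lit 344, ⟨nat_lit 1000, nat_lit 0, nat_lit 0, nat_lit 0, nat_lit 0, nat_lit 0, nat_lit 0, nat_lit 0, nat_lit 0, nat_lit 0, nat_lit 0, nat_lit 0, nat_lit 0, nat_lit 0, nat_lit 0, nat_lit 0, false, false⟩,
 nat_lit 7838, nat_lit 0, nat_lit 28024, nat_lit 0, nat_lit 6826, nat_lit 15369, nat_lit 0, nat_lit 0, nat_lit 0, nat_lit 0, nat_lit 0, nat_lit 0, nat_lit 0, nat_lit 0, nat_lit 0, nat_lit 0, nat_lit 0, nat_lit 0, [],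
 ⟨p105_k16, nat_lit 0, nat_lit 0, nat_lit 189, nat_lit 0, nat_lit 30169, [nat_lit 938000000, nat_lit 6250000000], [], [nat_lit 32726228832, nat_lit 34363025692, nat_lit 38851897058, nat_lit 40775096452, nat_lit 28532591372, nat_lit 29873070300, nat_lit 32789151327, nat_lit 33814637585], nat_lit 1271250, nat_lit 1271250, nat_lit 1271250, nat_lit 1271250, nat_lit 0, nat_lit 1236400, [nat_lit 230000, nat_lit 1420000], [nat_lit 88, nat_lit 40, nat_lit 40, nat_lit 80, nat_lit 89, nat_lit 260, nat_lit 50, nat_lit 9]⟩, ⟨p105_k17, nat_lit 0, nat_lit 0, nat_lit 363, nat_lit 0, nat_lit 76163, [nat_lit 6250000000, nat_lit 14058000000], [], [nat_lit 51390649020, nat_lit 51330297592, nat_lit 55382920248, nat_lit 54708494876, nat_lit 36876029152, nat_lit 36265602186, nat_lit 40616825500, nat_lit 40036422498], nat_lit 1271250, nat_lit 1271250, nat_lit 1271250, nat_lit 1271250, nat_lit 0, nat_lit 2429500, [nat_lit 1412500, nat_lit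 1271250], [nat_lit 149, nat_lit 40, nat_lit 40, nat_lit 80, nat_lit 68, nat_lit 483, nat_lit 250, nat_lit 11]⟩,
 zbF0, [⟨nat_lit 4, nat_lit 100, nat_lit 55, nat_lit 69, nat_lit 60108641⟩]⟩
noncomputable def p105_l81 : Lf2 := ⟨nat_lit 1, nat_lit 20, [nat_lit 5, nat_lit 5, nat_lit 5, nat_lit 20], false, nat_lit 0, nat_lit 200, nat_lit 0, nat_lit 360, zbN0,
 nat_lit 0, nat_lit 0, nat_lit 0, nat_lit 0, nat_lit 0, nat_lit 0, nat_lit 0, nat_lit 0, nat_lit 0, nat_lit 0, nat_lit 0, nat_lit 0, nat_lit 0, nat_lit 0, nat_lit 0, nat_lit 0, nat_lit 0, nat_lit 0, [],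
 C1.Rw.none, C1.Rw.none,
 zbF0, []⟩
noncomputable def p105_l82 : Lf2 := ⟨nat_lit 1, nat_lit 20, [nat_lit 5, nat_lit 5, nat_lit 5, nat_lit 20], false, nat_lit 0, nat_lit 200, nat_lit 0, nat_lit 360, zbN0,
 nat_lit 0, nat_lit 0, nat_lit 0, nat_lit 0, nat_lit 0, nat_lit 0, nat_lit 0, nat_lit 0, nat_lit 0, nat_lit 0, nat_lit 0, nat_lit 0, nat_lit 0, nat_lit 0, nat_lit 0, nat_lit 0, nat_lit 0, nat_lit 0, [],
 C1.Rw.none, C1.Rw.none,
 zbF0, []⟩
noncomputable def p105_l83 : Lf2 := ⟨nat_lit 0, nat_lit 15, [nat_lit 30, nat_lit 5, nat_lit 5, nat_lit 20], false, nat_lit 0, nat_lit 140, nat_lit 0, nat_lit 344, ⟨nat_lit 99, nat_lit 624, nat_lit 277, nat_lit 6, nat_lit 255, nat_lit 901, nat_lit 49, nat_lit 277, nat_lit 22817, nat_lit 252, nat_lit 173340, nat_lit 200, nat_lit 47639821, nat_lit 19360179, nat_lit 0, nat_lit 3006078, true, true⟩,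
 nat_lit 2880, nat_lit 0, nat_lit 0, nat_lit 0, nat_lit 2681, nat_lit 1234, nat_lit 0, nat_lit 0, nat_lit 0, nat_lit 20, nat_lit 0, nat_lit 0, nat_lit 0, nat_lit 0, nat_lit 0, nat_lit 225250, nat_lit 0, nat_lit 0, [(nat_lit 28, [(nat_lit 0, nat_lit 624), (nat_lit 4, nat_lit 277)])],
 ⟨p105_k15, nat_lit 0, nat_lit 0, nat_lit 175, nat_lit 0, nat_lit 83668, [nat_lit 791543601, nat_lit 685110000, nat_lit 824385600], [], [nat_lit 24283394257, nat_lit 24843854603, nat_lit 27694304076, nat_lit 28330916207, nat_lit 24148904476, nat_lit 24643560769, nat_lit 26765997555, nat_lit 27199886226], nat_lit 1271250, nat_lit 1271250, nat_lit 1271250, nat_lit 1271250, nat_lit 0, nat_lit 936251, [nat_lit 230000, nat_lit 780000, nat_lit 1100000], [nat_lit 35, nat_lit 40, nat_lit 40, nat_lit 80, nat_lit 22, nat_lit 249, nat_lit 40, nat_lit 10]⟩, ⟨p105_k13, nat_lit 0, nat_lit 0, nat_lit 418, nat_lit 0, nat_lit 231844, [nat_lit 618750000,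 nat_lit 974358000, nat_lit 1391742000], [], [nat_lit 4889356424, nat_lit 4900349412, nat_lit 5130854073, nat_lit 5104959902, nat_lit 3837802728, nat_lit 3781202761, nat_lit 3879927070, nat_lit 3801423391], nat_lit 1271250, nat_lit 1271250, nat_lit 1271250, nat_lit 1271250, nat_lit 0, nat_lit 2429500, [nat_lit 1412500, nat_lit 1271250, nat_lit 1271250], [nat_lit 60, nat_lit 40, nat_lit 40, nat_lit 80, nat_lit 32, nat_lit 483, nat_lit 250, nat_lit 11]⟩,
 ⟨nat_lit 1581, nat_lit 2237, ⟨.ofNat (nat_lit 557014), .ofNat (nat_lit 676747), .ofNat (nat_lit 602558), .ofNat (nat_lit 722295), .ofNat (nat_lit 554634), .ofNat (nat_lit 669369), .ofNat (nat_lit 601260), .ofNat (nat_lit 715999)⟩, ⟨.ofNat (nat_lit 0), .ofNat (nat_lit 232281), .ofNat (nat_lit 0), .ofNat (nat_lit 255055), .ofNat (nat_lit 0), .ofNat (nat_lit 231525), .ofNat (nat_lit 0), .ofNat (nat_lit 254840)⟩⟩, [⟨nat_lit 13, nat_lit 38, nat_lit 89, nat_lit 100,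 nat_lit 329518579⟩]⟩
noncomputable def p105_l84 : Lf2 := ⟨nat_lit 0, nat_lit 15, [nat_lit 30, nat_lit 5, nat_lit 5, nat_lit 20], true, nat_lit 8, nat_lit 112, nat_lit 0, nat_lit 344, ⟨nat_lit 0, nat_lit 1000, nat_lit 0, nat_lit 6, nat_lit 246, nat_lit 1000, nat_lit 45, nat_lit 0, nat_lit 0, nat_lit 0, nat_lit 0, nat_lit 0, nat_lit 47447244, nat_lit 18241644, nat_lit 1311112, nat_lit 3486892, true, true⟩,
 nat_lit 0, nat_lit 2672, nat_lit 0, nat_lit 0, nat_lit 2583, nat_lit 0, nat_lit 0, nat_lit 0, nat_lit 0, nat_lit 0, nat_lit 0, nat_lit 0, nat_lit 0, nat_lit 0, nat_lit 0, nat_lit 250000, nat_lit 0, nat_lit 0, [(nat_lit 28, [(nat_lit 0, nat_lit 1000)])],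
 ⟨p105_k18, nat_lit 0, nat_lit 0, nat_lit 174, nat_lit 0, nat_lit 198491, [nat_lit 781600001, nat_lit 1046000000], [], [nat_lit 24926133948, nat_lit 25489645309, nat_lit 26956436075, nat_lit 27470657885, nat_lit 24930095384, nat_lit 25444442217, nat_lit 26812826862, nat_lit 27276111164], nat_lit 1271250, nat_lit 1271250, nat_lit 1271250, nat_lit 1271250, nat_lit 43600, nat_lit 719601, [nat_lit 230000, nat_lit 780000], [nat_lit 66, nat_lit 40, nat_lit 40, nat_lit 80, nat_lit 67, nat_lit 238, nat_lit 30, nat_lit 12]⟩, C1.Rw.none,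
 ⟨nat_lit 0, nat_lit 1582, ⟨.ofNat (nat_lit 554633), .ofNat (nat_lit 636584), .ofNat (nat_lit 601257), .ofNat (nat_lit 683216), .ofNat (nat_lit 549998), .ofNat (nat_lit 624995), .ofNat (nat_lit 599992), .ofNat (nat_lit 674997)⟩, ⟨.ofNat (nat_lit 20000), .ofNat (nat_lit 193277), .ofNat (nat_lit 20000), .ofNat (nat_lit 216593), .ofNat (nat_lit 20000), .ofNat (nat_lit 189996), .ofNat (nat_lit 20000), .ofNat (nat_lit 214997)⟩⟩, [⟨nat_lit 13, nat_lit 32, nat_lit 89, nat_lit 100, nat_lit 519771266⟩, ⟨nat_lit 3, nat_lit 100, nat_lit 52, nat_lit 53, nat_lit 66737689⟩]⟩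
noncomputable def p105_l85 : Lf2 := ⟨nat_lit 1, nat_lit 15, [nat_lit 30, nat_lit 5, nat_lit 5, nat_lit 20], false, nat_lit 0, nat_lit 140, nat_lit 0, nat_lit 344, zbN0,
 nat_lit 0, nat_lit 0, nat_lit 0, nat_lit 0, nat_lit 0, nat_lit 0, nat_lit 0, nat_lit 0, nat_lit 0, nat_lit 0, nat_lit 0, nat_lit 0, nat_lit 0, nat_lit 0, nat_lit 0, nat_lit 0, nat_lit 0, nat_lit 0, [],
 C1.Rw.none, C1.Rw.none,
 zbF0, []⟩
noncomputable def p105_l86 : Lf2 := ⟨nat_lit 0, nat_lit 20, [nat_lit 5, nat_lit 5, nat_lit 5, nat_lit 20], false, nat_lit 8, nat_lit 164, nat_lit 0, nat_lit 360, ⟨nat_lit 1000, nat_lit 0, nat_lit 0, nat_lit 0, nat_lit 0, nat_lit 0, nat_lit 0, nat_lit 0, nat_lit 0, nat_lit 0, nat_lit 0, nat_lit 0, nat_lit 0, nat_lit 0, nat_lit 0, nat_lit 0, false, false⟩,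
 nat_lit 7609, nat_lit 0, nat_lit 31524, nat_lit 5686, nat_lit 7110, nat_lit 16771, nat_lit 0, nat_lit 0, nat_lit 0, nat_lit 0, nat_lit 0, nat_lit 0, nat_lit 0, nat_lit 0, nat_lit 0, nat_lit 0, nat_lit 0, nat_lit 0, [],
 ⟨p105_k1, nat_lit 0, nat_lit 0, nat_lit 172, nat_lit 0, nat_lit 16331, [nat_lit 938000000, nat_lit 6250000000], [], [nat_lit 33797517323, nat_lit 34631773771, nat_lit 38660819045, nat_lit 39735912627, nat_lit 29268441435, nat_lit 29969158924, nat_lit 32139018970, nat_lit 32715430296], nat_lit 1271250, nat_lit 1271250, nat_lit 1271250, nat_lit 1271250, nat_lit 43600, nat_lit 1133651, [nat_lit 230000, nat_lit 1420000], [nat_lit 88, nat_lit 40, nat_lit 40, nat_lit 80, nat_lit 89, nat_lit 260, nat_lit 50, nat_lit 9]⟩, ⟨p105_k14, nat_lit 0, nat_lit 0, nat_lit 260, nat_lit 0, nat_lit 47222, [nat_lit 6250000000, nat_lit 14058000000], [], [nat_lit 44231107848, nat_lit 45952567536, nat_lit 52179552553,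 nat_lit 52954934241, nat_lit 37085184176, nat_lit 36936673830, nat_lit 39693045238, nat_lit 39205076697], nat_lit 1271250, nat_lit 1271250, nat_lit 1271250, nat_lit 1271250, nat_lit 0, nat_lit 2542500, [nat_lit 1412500, nat_lit 1271250], [nat_lit 149, nat_lit 40, nat_lit 40, nat_lit 80, nat_lit 68, nat_lit 483, nat_lit 250, nat_lit 11]⟩,
 zbF0, [⟨nat_lit 7, nat_lit 73, nat_lit 100, nat_lit 76, nat_lit 5599181⟩]⟩
noncomputable def p105_l87 : Lf2 := ⟨nat_lit 0, nat_lit 20, [nat_lit 5, nat_lit 5, nat_lit 5, nat_lit 20], false, nat_lit 20, nat_lit 136, nat_lit 0, nat_lit 360, ⟨nat_lit 157, nat_lit 416, nat_lit 427, nat_lit 6, nat_lit 246, nat_lit 843, nat_lit 62, nat_lit 426, nat_lit 35267, nat_lit 261, nat_lit 95182, nat_lit 200, nat_lit 46753951, nat_lit 18121179, nat_lit 2124870, nat_lit 3723031, true, true⟩,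
 nat_lit 5373, nat_lit 0, nat_lit 0, nat_lit 0, nat_lit 2378, nat_lit 2302, nat_lit 0, nat_lit 0, nat_lit 0, nat_lit 0, nat_lit 0, nat_lit 0, nat_lit 0, nat_lit 0, nat_lit 0, nat_lit 210750, nat_lit 0, nat_lit 0, [(nat_lit 28, [(nat_lit 0, nat_lit 416), (nat_lit 4, nat_lit 427)])],
 ⟨p105_k19, nat_lit 0, nat_lit 0, nat_lit 157, nat_lit 0, nat_lit 67975, [nat_lit 797614800, nat_lit 499498001, nat_lit 539998400], [], [nat_lit 24099167893, nat_lit 24682760276, nat_lit 26184752174, nat_lit 26717395130, nat_lit 24385353862, nat_lit 24871648354, nat_lit 26252821320, nat_lit 26724707919], nat_lit 1271250, nat_lit 1271250, nat_lit 1271250, nat_lit 1271250, nat_lit 111251, nat_lit 904401, [nat_lit 230000, nat_lit 780000, nat_lit 1100000], [nat_lit 35, nat_lit 40, nat_lit 40, nat_lit 80, nat_lit 22, nat_lit 249, nat_lit 40, nat_lit 10]⟩, ⟨p105_k12, nat_lit 0, nat_lit 0, nat_lit 404, nat_lit 0, nat_lit 198272, [nat_lit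 981250000, nat_lit 1545194000, nat_lit 2207106000], [], [nat_lit 8109201832, nat_lit 8106273036, nat_lit 8359524586, nat_lit 8309460106, nat_lit 6070494584, nat_lit 5935538538, nat_lit 6188721030, nat_lit 6137859108], nat_lit 1271250, nat_lit 1271250, nat_lit 1271250, nat_lit 1271250, nat_lit 0, nat_lit 2542500, [nat_lit 1412500, nat_lit 1271250, nat_lit 1271250], [nat_lit 60, nat_lit 40, nat_lit 40, nat_lit 80, nat_lit 32, nat_lit 456, nat_lit 225, nat_lit 10]⟩,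
 ⟨nat_lit 0, nat_lit 1582, ⟨.ofNat (nat_lit 554633), .ofNat (nat_lit 636584), .ofNat (nat_lit 601257), .ofNat (nat_lit 683216), .ofNat (nat_lit 549998), .ofNat (nat_lit 624995), .ofNat (nat_lit 599992), .ofNat (nat_lit 674997)⟩, ⟨.ofNat (nat_lit 50000), .ofNat (nat_lit 249373), .ofNat (nat_lit 50000), .ofNat (nat_lit 272689), .ofNat (nat_lit 50000), .ofNat (nat_lit 244996), .ofNat (nat_lit 50000), .ofNat (nat_lit 269997)⟩⟩, [⟨nat_lit 13, nat_lit 22, nat_lit 95, nat_lit 100, nat_lit 687638279⟩, ⟨nat_lit 22, nat_lit 100, nat_lit 91, nat_lit 85, nat_lit 580307⟩]⟩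
noncomputable def p105_l88 : Lf2 := ⟨nat_lit 1, nat_lit 20, [nat_lit 5, nat_lit 5, nat_lit 5, nat_lit 20], false, nat_lit 8, nat_lit 164, nat_lit 0, nat_lit 360, zbN0,
 nat_lit 0, nat_lit 0, nat_lit 0, nat_lit 0, nat_lit 0, nat_lit 0, nat_lit 0, nat_lit 0, nat_lit 0, nat_lit 0, nat_lit 0, nat_lit 0, nat_lit 0, nat_lit 0, nat_lit 0, nat_lit 0, nat_lit 0, nat_lit 0, [],
 C1.Rw.none, C1.Rw.none,
 zbF0, []⟩
noncomputable def p105_l89 : Lf2 := ⟨nat_lit 0, nat_lit 20, [nat_lit 5, nat_lit 5, nat_lit 5, nat_lit 20], true, nat_lit 0, nat_lit 200, nat_lit 0, nat_lit 360, ⟨nat_lit 0, nat_lit 1000, nat_lit 0, nat_lit 5, nat_lit 217, nat_lit 1000, nat_lit 67, nat_lit 0, nat_lit 0, nat_lit 0, nat_lit 0, nat_lit 0, nat_lit 0, nat_lit 0, nat_lit 0, nat_lit 5000000, false, true⟩,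
 nat_lit 0, nat_lit 4182, nat_lit 0, nat_lit 908, nat_lit 3642, nat_lit 0, nat_lit 0, nat_lit 0, nat_lit 0, nat_lit 0, nat_lit 0, nat_lit 0, nat_lit 0, nat_lit 0, nat_lit 0, nat_lit 250000, nat_lit 0, nat_lit 0, [(nat_lit 25, [(nat_lit 0, nat_lit 1000)]), (nat_lit 28, [(nat_lit 0, nat_lit 1000)])],
 ⟨p105_k0, nat_lit 0, nat_lit 0, nat_lit 283, nat_lit 0, nat_lit 262733, [nat_lit 781600001, nat_lit 1368800000, nat_lit 2118000000], [], [nat_lit 26198630640, nat_lit 28553491832, nat_lit 31668685834, nat_lit 33189139711, nat_lit 26242309528, nat_lit 28142315852, nat_lit 31709048250, nat_lit 31897416657], nat_lit 1271250, nat_lit 1271250, nat_lit 490000, nat_lit 2615000, nat_lit 0, nat_lit 1412500, [nat_lit 230000, nat_lit 780000, nat_lit 1435000], [nat_lit 20, nat_lit 40, nat_lit 40, nat_lit 80, nat_lit 16, nat_lit 373, nat_lit 150, nat_lit 14]⟩, C1.Rw.none,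
 ⟨nat_lit 0, nat_lit 3163, ⟨.ofNat (nat_lit 309443), .ofNat (nat_lit 731616), .ofNat (nat_lit 351143), .ofNat (nat_lit 775928), .ofNat (nat_lit 342303), .ofNat (nat_lit 689994), .ofNat (nat_lit 389693), .ofNat (nat_lit 739996)⟩, ⟨.ofNat (nat_lit 0), .ofNat (nat_lit 322753), .ofNat (nat_lit 0), .ofNat (nat_lit 367065), .ofNat (nat_lit 0), .ofNat (nat_lit 299993), .ofNat (nat_lit 0), .ofNat (nat_lit 349995)⟩⟩, [⟨nat_lit 13, nat_lit 44, nat_lit 86, nat_lit 100, nat_lit 293796937⟩, ⟨nat_lit 4, nat_lit 100, nat_lit 46, nat_lit 75, nat_lit 115513316⟩]⟩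
noncomputable def b_V_900_500_10_14 : St := ⟨true, nat_lit 1, nat_lit 2, nat_lit 0, nat_lit 80, nat_lit 360, nat_lit 400, nat_lit 200, nat_lit 240, nat_lit 80, nat_lit 352, nat_lit 40, nat_lit 80, nat_lit 0, nat_lit 200, nat_lit 0, nat_lit 360, nat_lit 120, nat_lit 160, nat_lit 0, nat_lit 0, nat_lit 0, nat_lit 0⟩
theorem d_V_900_500_10_14 (h : EB TB.env) : Dead b_V_900_500_10_14 := chkB_sound0 h (T :=
(.gv
(.st (nat_lit 1)
(.spl (nat_lit 2) (nat_lit 240)
(.spl (nat_lit 0) (nat_lit 380)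
(.leaf p105_l74)
(.trZ (nat_lit 0) (nat_lit 100) (nat_lit 44) (nat_lit 90) (nat_lit 112) (.trX (nat_lit 16) (nat_lit 44) (nat_lit 100) (nat_lit 82) (nat_lit 164) (.leaf p105_l75))))
(.spl (nat_lit 0) (nat_lit 380)
(.leaf p105_l76)
(.trX (nat_lit 13) (nat_lit 44) (nat_lit 81) (nat_lit 100) (nat_lit 324) (.trX (nat_lit 16) (nat_lit 44) (nat_lit 100) (nat_lit 82) (nat_lit 164) (.leaf p105_l77)))))
(.spl (nat_lit 2) (nat_lit 240)
(.spl (nat_lit 4) (nat_lit 80)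
(.leaf p105_l78)
(.leaf p105_l79))
(.spl (nat_lit 0) (nat_lit 380)
(.spl (nat_lit 6) (nat_lit 132)
(.spl (nat_lit 3) (nat_lit 60)
(.trX (nat_lit 16) (nat_lit 61) (nat_lit 100) (nat_lit 72) (nat_lit 176) (.trX (nat_lit 19) (nat_lit 100) (nat_lit 70) (nat_lit 71) (nat_lit 344) (.leaf p105_l80)))
(.leaf p105_l81))
(.leaf p105_l82))
(.trX (nat_lit 13) (nat_lit 44) (nat_lit 81) (nat_lit 100) (nat_lit 324) (.trX (nat_lit 16) (nat_lit 44) (nat_lit 100) (nat_lit 82) (nat_lit 164) (.spl (nat_lit 3) (nat_lit 60)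
(.trX (nat_lit 16) (nat_lit 46) (nat_lit 100) (nat_lit 75) (nat_lit 140) (.trX (nat_lit 19) (nat_lit 100) (nat_lit 70) (nat_lit 71) (nat_lit 344) (.spl (nat_lit 6) (nat_lit 144)
(.spl (nat_lit 0) (nat_lit 390)
(.leaf p105_l83)
(.trX (nat_lit 13) (nat_lit 32) (nat_lit 89) (nat_lit 100) (nat_lit 300) (.trZ (nat_lit 3) (nat_lit 100) (nat_lit 52) (nat_lit 53) (nat_lit 8) (.trX (nat_lit 16) (nat_lit 35) (nat_lit 100) (nat_lit 80) (nat_lit 112) (.leaf p105_l84)))))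
(.leaf p105_l85))))
(.trZ (nat_lit 3) (nat_lit 100) (nat_lit 61) (nat_lit 47) (nat_lit 8) (.spl (nat_lit 6) (nat_lit 140)
(.spl (nat_lit 0) (nat_lit 390)
(.leaf p105_l86)
(.trX (nat_lit 13) (nat_lit 32) (nat_lit 89) (nat_lit 100) (nat_lit 300) (.trZ (nat_lit 3) (nat_lit 100) (nat_lit 44) (nat_lit 64) (nat_lit 20) (.trX (nat_lit 16) (nat_lit 33) (nat_lit 100) (nat_lit 84) (nat_lit 136) (.leaf p105_l87)))))
(.leaf p105_l88)))))))))
(.leaf p105_l89))) (by decide +kernel)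
noncomputable def p105_l90 : Lf2 := ⟨nat_lit 0, nat_lit 10, [nat_lit 0, nat_lit 5, nat_lit 5, nat_lit 20], true, nat_lit 8, nat_lit 248, nat_lit 0, nat_lit 384, ⟨nat_lit 0, nat_lit 0, nat_lit 1000, nat_lit 5, nat_lit 185, nat_lit 1000, nat_lit 94, nat_lit 1000, nat_lit 58017, nat_lit 274, nat_lit 417, nat_lit 210, nat_lit 51074772, nat_lit 0, nat_lit 0, nat_lit 3626345, false, false⟩,
 nat_lit 0, nat_lit 0, nat_lit 0, nat_lit 0, nat_lit 2387, nat_lit 0, nat_lit 0, nat_lit 0, nat_lit 0, nat_lit 0, nat_lit 0, nat_lit 0, nat_lit 0, nat_lit 0, nat_lit 67, nat_lit 250000, nat_lit 0, nat_lit 0, [(nat_lit 24, [(nat_lit 4, nat_lit 1000)]), (nat_lit 27, [(nat_lit 4, nat_lit 1000)])],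
 ⟨p105_k20, nat_lit 0, nat_lit 0, nat_lit 163, nat_lit 0, nat_lit 0, [nat_lit 1029600001, nat_lit 47400000], [], [nat_lit 18386467287, nat_lit 22056074175, nat_lit 21747711721, nat_lit 24648955385, nat_lit 21635347787, nat_lit 24079394750, nat_lit 24731699372, nat_lit 26713823439], nat_lit 0, nat_lit 0, nat_lit 0, nat_lit 0, nat_lit 0, nat_lit 0, [], [nat_lit 86, nat_lit 40, nat_lit 40, nat_lit 80, nat_lit 87, nat_lit 345, nat_lit 125, nat_lit 16]⟩, C1.Rw.none,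
 ⟨nat_lit 0, nat_lit 3163, ⟨.ofNat (nat_lit 309443), .ofNat (nat_lit 560951), .ofNat (nat_lit 351143), .ofNat (nat_lit 605128), .ofNat (nat_lit 342303), .ofNat (nat_lit 549998), .ofNat (nat_lit 389693), .ofNat (nat_lit 599865)⟩, ⟨.ofNat (nat_lit 20000), .ofNat (nat_lit 440207), .ofNat (nat_lit 20000), .ofNat (nat_lit 484518), .ofNat (nat_lit 20000), .ofNat (nat_lit 409993), .ofNat (nat_lit 20000), .ofNat (nat_lit 459993)⟩⟩, []⟩
noncomputable def p105_l91 : Lf2 := ⟨nat_lit 0, nat_lit 10, [nat_lit 0, nat_lit 5, nat_lit 5, nat_lit 20], false, nat_lit 8, nat_lit 248, nat_lit 0, nat_lit 384, ⟨nat_lit 1000, nat_lit 0, nat_lit 0, nat_lit 0, nat_lit 0, nat_lit 0, nat_lit 0, nat_lit 0, nat_lit 0, nat_lit 0, nat_lit 0, nat_lit 0, nat_lit 0, nat_lit 0, nat_lit 0, nat_lit 0, false, false⟩,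
 nat_lit 0, nat_lit 0, nat_lit 0, nat_lit 0, nat_lit 6355, nat_lit 12981, nat_lit 0, nat_lit 0, nat_lit 0, nat_lit 0, nat_lit 0, nat_lit 0, nat_lit 0, nat_lit 0, nat_lit 0, nat_lit 0, nat_lit 0, nat_lit 0, [],
 ⟨p105_k20, nat_lit 0, nat_lit 0, nat_lit 161, nat_lit 0, nat_lit 0, [nat_lit 938000000, nat_lit 4688000000], [], [nat_lit 29157115266, nat_lit 34162990893, nat_lit 37049689065, nat_lit 40712767430, nat_lit 26719655369, nat_lit 29849152267, nat_lit 31964785409, nat_lit 34667688502], nat_lit 0, nat_lit 0, nat_lit 0, nat_lit 0, nat_lit 0, nat_lit 0, [], [nat_lit 86, nat_lit 40, nat_lit 40, nat_lit 80, nat_lit 87, nat_lit 289, nat_lit 75, nat_lit 12]⟩, ⟨p105_k21, nat_lit 0, nat_lit 0, nat_lit 221, nat_lit 0, nat_lit 0, [nat_lit 6250000000, nat_lit 11872000000], [], [nat_lit 33842592224, nat_lit 35993288916, nat_lit 45331529733, nat_lit 46282672228, nat_lit 35491979396, nat_lit 35655869965, nat_lit 40685160157,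 nat_lit 40987098127], nat_lit 0, nat_lit 0, nat_lit 0, nat_lit 0, nat_lit 0, nat_lit 0, [], [nat_lit 107, nat_lit 40, nat_lit 40, nat_lit 80, nat_lit 12, nat_lit 483, nat_lit 250, nat_lit 12]⟩,
 zbF0, [⟨nat_lit 4, nat_lit 100, nat_lit 44, nat_lit 87, nat_lit 114780733⟩, ⟨nat_lit 19, nat_lit 100, nat_lit 40, nat_lit 92, nat_lit 152830676⟩]⟩
noncomputable def p105_l92 : Lf2 := ⟨nat_lit 0, nat_lit 10, [nat_lit 0, nat_lit 5, nat_lit 5, nat_lit 20], true, nat_lit 8, nat_lit 80, nat_lit 0, nat_lit 384, ⟨nat_lit 0, nat_lit 358, nat_lit 642, nat_lit 5, nat_lit 185, nat_lit 1000, nat_lit 43, nat_lit 642, nat_lit 17067, nat_lit 247, nat_lit 417, nat_lit 210, nat_lit 53842947, nat_lit 11878306, nat_lit 1278747, nat_lit 2887786, false, false⟩,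
 nat_lit 0, nat_lit 0, nat_lit 0, nat_lit 0, nat_lit 2373, nat_lit 0, nat_lit 0, nat_lit 0, nat_lit 0, nat_lit 0, nat_lit 0, nat_lit 0, nat_lit 0, nat_lit 0, nat_lit 5, nat_lit 250000, nat_lit 0, nat_lit 0, [(nat_lit 24, [(nat_lit 0, nat_lit 358), (nat_lit 4, nat_lit 642)]), (nat_lit 27, [(nat_lit 0, nat_lit 358), (nat_lit 4, nat_lit 642)])],
 ⟨p105_k22, nat_lit 0, nat_lit 0, nat_lit 164, nat_lit 0, nat_lit 0, [nat_lit 788473600, nat_lit 273911200, nat_lit 15872800], [], [nat_lit 18355192586, nat_lit 22014506338, nat_lit 21722038869, nat_lit 24615387720, nat_lit 17891234752, nat_lit 20580675980, nat_lit 21363640480, nat_lit 23836989136], nat_lit 0, nat_lit 0, nat_lit 0, nat_lit 0, nat_lit 0, nat_lit 0, [], [nat_lit 35, nat_lit 40, nat_lit 40, nat_lit 80, nat_lit 22, nat_lit 317, nat_lit 100, nat_lit 15]⟩, C1.Rw.none,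
 ⟨nat_lit 0, nat_lit 3163, ⟨.ofNat (nat_lit 309443), .ofNat (nat_lit 560951), .ofNat (nat_lit 351143), .ofNat (nat_lit 605128), .ofNat (nat_lit 342303), .ofNat (nat_lit 549998), .ofNat (nat_lit 389693), .ofNat (nat_lit 599865)⟩, ⟨.ofNat (nat_lit 20000), .ofNat (nat_lit 184209), .ofNat (nat_lit 20000), .ofNat (nat_lit 200000), .ofNat (nat_lit 20000), .ofNat (nat_lit 199999), .ofNat (nat_lit 20000), .ofNat (nat_lit 200000)⟩⟩, [⟨nat_lit 3, nat_lit 100, nat_lit 75, nat_lit 35, nat_lit 196528879⟩]⟩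
noncomputable def p105_l93 : Lf2 := ⟨nat_lit 0, nat_lit 10, [nat_lit 0, nat_lit 5, nat_lit 5, nat_lit 20], true, nat_lit 8, nat_lit 80, nat_lit 0, nat_lit 336, ⟨nat_lit 0, nat_lit 1000, nat_lit 0, nat_lit 6, nat_lit 254, nat_lit 1000, nat_lit 43, nat_lit 0, nat_lit 0, nat_lit 0, nat_lit 0, nat_lit 0, nat_lit 46722212, nat_lit 19041629, nat_lit 1236159, nat_lit 3518290, true, true⟩,
 nat_lit 0, nat_lit 0, nat_lit 0, nat_lit 0, nat_lit 2629, nat_lit 0, nat_lit 0, nat_lit 0, nat_lit 0, nat_lit 0, nat_lit 0, nat_lit 0, nat_lit 0, nat_lit 0, nat_lit 0, nat_lit 383350, nat_lit 0, nat_lit 0, [(nat_lit 24, [(nat_lit 0, nat_lit 111), (nat_lit 1, nat_lit 889)]), (nat_lit 27, [(nat_lit 0, nat_lit 111), (nat_lit 1, nat_lit 889)])],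
 ⟨p105_k23, nat_lit 0, nat_lit 0, nat_lit 148, nat_lit 0, nat_lit 0, [nat_lit 706835200, nat_lit 969829067, nat_lit 1077551733], [], [nat_lit 22915524752, nat_lit 25229196462, nat_lit 25915039386, nat_lit 28453644829, nat_lit 22496781183, nat_lit 24663632299, nat_lit 25366217351, nat_lit 27249060952], nat_lit 0, nat_lit 0, nat_lit 0, nat_lit 0, nat_lit 0, nat_lit 0, [], [nat_lit 152, nat_lit 40, nat_lit 40, nat_lit 80, nat_lit 33, nat_lit 226, nat_lit 20, nat_lit 9]⟩, C1.Rw.none,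
 ⟨nat_lit 0, nat_lit 3163, ⟨.ofNat (nat_lit 560951), .ofNat (nat_lit 682855), .ofNat (nat_lit 605128), .ofNat (nat_lit 727166), .ofNat (nat_lit 549998), .ofNat (nat_lit 649995), .ofNat (nat_lit 599865), .ofNat (nat_lit 699997)⟩, ⟨.ofNat (nat_lit 20000), .ofNat (nat_lit 184209), .ofNat (nat_lit 20000), .ofNat (nat_lit 200000), .ofNat (nat_lit 20000), .ofNat (nat_lit 199999), .ofNat (nat_lit 20000), .ofNat (nat_lit 200000)⟩⟩, [⟨nat_lit 3, nat_lit 100, nat_lit 50, nat_lit 65, nat_lit 88461981⟩, ⟨nat_lit 3, nat_lit 100, nat_lit 75, nat_lit 35, nat_lit 148566816⟩]⟩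
noncomputable def p105_l94 : Lf2 := ⟨nat_lit 0, nat_lit 10, [nat_lit 0, nat_lit 5, nat_lit 5, nat_lit 20], false, nat_lit 8, nat_lit 80, nat_lit 0, nat_lit 260, ⟨nat_lit 39, nat_lit 961, nat_lit 0, nat_lit 8, nat_lit 289, nat_lit 961, nat_lit 43, nat_lit 0, nat_lit 0, nat_lit 0, nat_lit 0, nat_lit 0, nat_lit 43113343, nat_lit 22714419, nat_lit 1172238, nat_lit 3709997, true, true⟩,
 nat_lit 0, nat_lit 0, nat_lit 990, nat_lit 0, nat_lit 2658, nat_lit 424, nat_lit 0, nat_lit 0, nat_lit 0, nat_lit 32, nat_lit 0, nat_lit 0, nat_lit 0, nat_lit 0, nat_lit 0, nat_lit 384400, nat_lit 0, nat_lit 0, [(nat_lit 24, [(nat_lit 1, nat_lit 961)])],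
 ⟨p105_k22, nat_lit 0, nat_lit 0, nat_lit 146, nat_lit 0, nat_lit 0, [nat_lit 851510000, nat_lit 1086435334, nat_lit 1100010400], [], [nat_lit 26356770970, nat_lit 27337265266, nat_lit 27713505535, nat_lit 28888279246, nat_lit 25766275742, nat_lit 26699226966, nat_lit 27061184767, nat_lit 27934828400], nat_lit 0, nat_lit 0, nat_lit 0, nat_lit 0, nat_lit 0, nat_lit 0, [], [nat_lit 35, nat_lit 40, nat_lit 40, nat_lit 80, nat_lit 22, nat_lit 226, nat_lit 20, nat_lit 8]⟩, ⟨p105_k24, nat_lit 0, nat_lit 0, nat_lit 1547, nat_lit 0, nat_lit 2830538, [nat_lit 243750000, nat_lit 383838000, nat_lit 463008000], [], [nat_lit 1622266068, nat_lit 1603222000, nat_lit 1646345761, nat_lit 1636320780, nat_lit 1242716164, nat_lit 1223730771, nat_lit 1261869316, nat_lit 1250269863], nat_lit 1271250, nat_lit 1271250, nat_lit 1271250, nat_lit 1271250, nat_lit 0, nat_lit 1836250, [nat_lit 1412500, nat_lit 1271250, nat_lit 1271250],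 [nat_lit 46, nat_lit 40, nat_lit 40, nat_lit 80, nat_lit 41, nat_lit 494, nat_lit 125, nat_lit 12]⟩,
 ⟨nat_lit 2236, nat_lit 3163, ⟨.ofNat (nat_lit 682859), .ofNat (nat_lit 731621), .ofNat (nat_lit 727168), .ofNat (nat_lit 775931), .ofNat (nat_lit 671045), .ofNat (nat_lit 716658), .ofNat (nat_lit 716594), .ofNat (nat_lit 762206)⟩, ⟨.ofNat (nat_lit 20000), .ofNat (nat_lit 184209), .ofNat (nat_lit 20000), .ofNat (nat_lit 200000), .ofNat (nat_lit 20000), .ofNat (nat_lit 192306), .ofNat (nat_lit 20000), .ofNat (nat_lit 200000)⟩⟩, [⟨nat_lit 13, nat_lit 61, nat_lit 68, nat_lit 100, nat_lit 284191510⟩, ⟨nat_lit 3, nat_lit 100, nat_lit 61, nat_lit 55, nat_lit 241553084⟩]⟩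
noncomputable def p105_l95 : Lf2 := ⟨nat_lit 0, nat_lit 10, [nat_lit 0, nat_lit 5, nat_lit 5, nat_lit 20], true, nat_lit 20, nat_lit 80, nat_lit 0, nat_lit 260, ⟨nat_lit 0, nat_lit 1000, nat_lit 0, nat_lit 8, nat_lit 275, nat_lit 1000, nat_lit 50, nat_lit 0, nat_lit 0, nat_lit 0, nat_lit 0, nat_lit 0, nat_lit 44338691, nat_lit 21175878, nat_lit 1485431, nat_lit 3730603, true, true⟩,
 nat_lit 0, nat_lit 0, nat_lit 0, nat_lit 0, nat_lit 2192, nat_lit 0, nat_lit 0, nat_lit 0, nat_lit 0, nat_lit 0, nat_lit 0, nat_lit 0, nat_lit 0, nat_lit 0, nat_lit 0, nat_lit 375850, nat_lit 0, nat_lit 0, [(nat_lit 27, [(nat_lit 0, nat_lit 161), (nat_lit 1, nat_lit 839)])],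
 ⟨p105_k25, nat_lit 0, nat_lit 0, nat_lit 125, nat_lit 0, nat_lit 0, [nat_lit 710995200, nat_lit 440062400], [], [nat_lit 25925723736, nat_lit 27083699632, nat_lit 26102797473, nat_lit 27263517867, nat_lit 25645782336, nat_lit 26605656672, nat_lit 25805795036, nat_lit 26768244148], nat_lit 0, nat_lit 0, nat_lit 0, nat_lit 0, nat_lit 0, nat_lit 0, [], [nat_lit 66, nat_lit 40, nat_lit 40, nat_lit 80, nat_lit 67, nat_lit 226, nat_lit 20, nat_lit 11]⟩, C1.Rw.none,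
 ⟨nat_lit 0, nat_lit 2237, ⟨.ofNat (nat_lit 671039), .ofNat (nat_lit 676741), .ofNat (nat_lit 716590), .ofNat (nat_lit 722292), .ofNat (nat_lit 649993), .ofNat (nat_lit 654993), .ofNat (nat_lit 699995), .ofNat (nat_lit 704996)⟩, ⟨.ofNat (nat_lit 50000), .ofNat (nat_lit 192306), .ofNat (nat_lit 50000), .ofNat (nat_lit 200000), .ofNat (nat_lit 50000), .ofNat (nat_lit 199999), .ofNat (nat_lit 50000), .ofNat (nat_lit 200000)⟩⟩, [⟨nat_lit 13, nat_lit 44, nat_lit 81, nat_lit 100, nat_lit 507082927⟩, ⟨nat_lit 3, nat_lit 100, nat_lit 54, nat_lit 57, nat_lit 233001081⟩]⟩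
noncomputable def p105_l96 : Lf2 := ⟨nat_lit 0, nat_lit 10, [nat_lit 0, nat_lit 5, nat_lit 5, nat_lit 20], true, nat_lit 80, nat_lit 160, nat_lit 0, nat_lit 384, ⟨nat_lit 0, nat_lit 1000, nat_lit 0, nat_lit 5, nat_lit 207, nat_lit 1000, nat_lit 105, nat_lit 0, nat_lit 0, nat_lit 0, nat_lit 0, nat_lit 0, nat_lit 48319269, nat_lit 13902150, nat_lit 4778581, nat_lit 3987280, false, true⟩,
 nat_lit 0, nat_lit 0, nat_lit 0, nat_lit 0, nat_lit 2968, nat_lit 0, nat_lit 0, nat_lit 0, nat_lit 0, nat_lit 0, nat_lit 0, nat_lit 0, nat_lit 0, nat_lit 0, nat_lit 0, nat_lit 361150, nat_lit 0, nat_lit 0, [(nat_lit 24, [(nat_lit 0, nat_lit 259), (nat_lit 1, nat_lit 741)]), (nat_lit 27, [(nat_lit 0, nat_lit 259), (nat_lit 1, nat_lit 741)])],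
 ⟨p105_k22, nat_lit 0, nat_lit 0, nat_lit 109, nat_lit 0, nat_lit 0, [nat_lit 830595200, nat_lit 1093128800, nat_lit 1148960800], [], [nat_lit 18774969664, nat_lit 21689452032, nat_lit 25764087412, nat_lit 28234726112, nat_lit 19874886496, nat_lit 22511732544, nat_lit 26268670932, nat_lit 28327365108], nat_lit 0, nat_lit 0, nat_lit 0, nat_lit 0, nat_lit 0, nat_lit 0, [], [nat_lit 35, nat_lit 40, nat_lit 40, nat_lit 80, nat_lit 22, nat_lit 345, nat_lit 125, nat_lit 15]⟩, C1.Rw.none,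
 ⟨nat_lit 0, nat_lit 3163, ⟨.ofNat (nat_lit 309443), .ofNat (nat_lit 707235), .ofNat (nat_lit 330293), .ofNat (nat_lit 729391), .ofNat (nat_lit 342303), .ofNat (nat_lit 669993), .ofNat (nat_lit 365998), .ofNat (nat_lit 694995)⟩, ⟨.ofNat (nat_lit 184209), .ofNat (nat_lit 306113), .ofNat (nat_lit 200000), .ofNat (nat_lit 350425), .ofNat (nat_lit 199999), .ofNat (nat_lit 299996), .ofNat (nat_lit 200000), .ofNat (nat_lit 349998)⟩⟩, [⟨nat_lit 13, nat_lit 44, nat_lit 88, nat_lit 100, nat_lit 125322617⟩]⟩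
noncomputable def p105_l97 : Lf2 := ⟨nat_lit 0, nat_lit 10, [nat_lit 0, nat_lit 5, nat_lit 5, nat_lit 20], true, nat_lit 80, nat_lit 160, nat_lit 0, nat_lit 376, ⟨nat_lit 0, nat_lit 1000, nat_lit 0, nat_lit 5, nat_lit 228, nat_lit 1000, nat_lit 105, nat_lit 0, nat_lit 0, nat_lit 0, nat_lit 0, nat_lit 0, nat_lit 46429241, nat_lit 15866703, nat_lit 4704056, nat_lit 4151056, false, true⟩,
 nat_lit 0, nat_lit 0, nat_lit 0, nat_lit 0, nat_lit 2990, nat_lit 0, nat_lit 0, nat_lit 0, nat_lit 0, nat_lit 0, nat_lit 0, nat_lit 0, nat_lit 0, nat_lit 0, nat_lit 0, nat_lit 329500, nat_lit 0, nat_lit 0, [(nat_lit 24, [(nat_lit 0, nat_lit 470), (nat_lit 1, nat_lit 530)])],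
 ⟨p105_k20, nat_lit 0, nat_lit 0, nat_lit 96, nat_lit 0, nat_lit 0, [nat_lit 870472001, nat_lit 1310233600], [], [nat_lit 18716080843, nat_lit 20238611724, nat_lit 26668376408, nat_lit 27859149344, nat_lit 19858095707, nat_lit 21234268807, nat_lit 27125367508, nat_lit 28024412908], nat_lit 0, nat_lit 0, nat_lit 0, nat_lit 0, nat_lit 0, nat_lit 0, [], [nat_lit 86, nat_lit 40, nat_lit 40, nat_lit 80, nat_lit 87, nat_lit 373, nat_lit 150, nat_lit 17]⟩, C1.Rw.none,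
 ⟨nat_lit 2236, nat_lit 3163, ⟨.ofNat (nat_lit 363342), .ofNat (nat_lit 753776), .ofNat (nat_lit 385434), .ofNat (nat_lit 775931), .ofNat (nat_lit 374200), .ofNat (nat_lit 739432), .ofNat (nat_lit 396911), .ofNat (nat_lit 762206)⟩, ⟨.ofNat (nat_lit 184209), .ofNat (nat_lit 306116), .ofNat (nat_lit 200000), .ofNat (nat_lit 350426), .ofNat (nat_lit 192306), .ofNat (nat_lit 306337), .ofNat (nat_lit 200000), .ofNat (nat_lit 351886)⟩⟩, [⟨nat_lit 13, nat_lit 61, nat_lit 68, nat_lit 100, nat_lit 114181255⟩]⟩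
noncomputable def p105_l98 : Lf2 := ⟨nat_lit 0, nat_lit 10, [nat_lit 0, nat_lit 5, nat_lit 5, nat_lit 20], true, nat_lit 80, nat_lit 160, nat_lit 0, nat_lit 376, ⟨nat_lit 0, nat_lit 1000, nat_lit 0, nat_lit 5, nat_lit 227, nat_lit 1000, nat_lit 105, nat_lit 0, nat_lit 0, nat_lit 0, nat_lit 0, nat_lit 0, nat_lit 46427257, nat_lit 15836968, nat_lit 4735775, nat_lit 4154891, false, true⟩,
 nat_lit 0, nat_lit 0, nat_lit 0, nat_lit 0, nat_lit 2628, nat_lit 0, nat_lit 0, nat_lit 0, nat_lit 0, nat_lit 0, nat_lit 0, nat_lit 0, nat_lit 0, nat_lit 0, nat_lit 0, nat_lit 250000, nat_lit 0, nat_lit 0, [(nat_lit 27, [(nat_lit 0, nat_lit 1000)])],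
 ⟨p105_k25, nat_lit 0, nat_lit 0, nat_lit 85, nat_lit 0, nat_lit 0, [nat_lit 780800001, nat_lit 1042800000], [], [nat_lit 19818446903, nat_lit 21271524346, nat_lit 25849775127, nat_lit 27057138424, nat_lit 20933243509, nat_lit 22249059344, nat_lit 26493964307, nat_lit 27446379664], nat_lit 0, nat_lit 0, nat_lit 0, nat_lit 0, nat_lit 0, nat_lit 0, [], [nat_lit 66, nat_lit 40, nat_lit 40, nat_lit 80, nat_lit 67, nat_lit 249, nat_lit 40, nat_lit 13]⟩, C1.Rw.none,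
 ⟨nat_lit 0, nat_lit 2237, ⟨.ofNat (nat_lit 415903), .ofNat (nat_lit 699516), .ofNat (nat_lit 437752), .ofNat (nat_lit 722292), .ofNat (nat_lit 430757), .ofNat (nat_lit 679994), .ofNat (nat_lit 454831), .ofNat (nat_lit 704996)⟩, ⟨.ofNat (nat_lit 192306), .ofNat (nat_lit 306334), .ofNat (nat_lit 200000), .ofNat (nat_lit 351885), .ofNat (nat_lit 199999), .ofNat (nat_lit 299996), .ofNat (nat_lit 200000), .ofNat (nat_lit 349998)⟩⟩, [⟨nat_lit 13, nat_lit 44, nat_lit 81, nat_lit 100, nat_lit 176322188⟩]⟩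
noncomputable def p105_l99 : Lf2 := ⟨nat_lit 0, nat_lit 10, [nat_lit 0, nat_lit 5, nat_lit 5, nat_lit 20], true, nat_lit 160, nat_lit 248, nat_lit 0, nat_lit 384, ⟨nat_lit 0, nat_lit 970, nat_lit 30, nat_lit 5, nat_lit 185, nat_lit 1000, nat_lit 155, nat_lit 30, nat_lit 61175, nat_lit 275, nat_lit 417, nat_lit 210, nat_lit 46853347, nat_lit 11477317, nat_lit 8669336, nat_lit 4383527, false, false⟩,
 nat_lit 0, nat_lit 0, nat_lit 0, nat_lit 0, nat_lit 3672, nat_lit 0, nat_lit 0, nat_lit 0, nat_lit 0, nat_lit 0, nat_lit 0, nat_lit 0, nat_lit 0, nat_lit 0, nat_lit 0, nat_lit 247450, nat_lit 0, nat_lit 0, [(nat_lit 24, [(nat_lit 0, nat_lit 970), (nat_lit 3, nat_lit 30)]), (nat_lit 27, [(nat_lit 0, nat_lit 970), (nat_lit 3, nat_lit 30)])],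
 ⟨p105_k22, nat_lit 0, nat_lit 0, nat_lit 90, nat_lit 0, nat_lit 0, [nat_lit 890240000, nat_lit 1319884000, nat_lit 1635712000], [], [nat_lit 19505660800, nat_lit 23098769344, nat_lit 22471956064, nat_lit 25315975840, nat_lit 22289674820, nat_lit 25563492801, nat_lit 24628271351, nat_lit 27281496583], nat_lit 0, nat_lit 0, nat_lit 0, nat_lit 0, nat_lit 0, nat_lit 0, [], [nat_lit 35, nat_lit 40, nat_lit 40, nat_lit 80, nat_lit 22, nat_lit 272, nat_lit 60, nat_lit 11]⟩, C1.Rw.none,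
 ⟨nat_lit 0, nat_lit 3163, ⟨.ofNat (nat_lit 309443), .ofNat (nat_lit 560951), .ofNat (nat_lit 351143), .ofNat (nat_lit 605128), .ofNat (nat_lit 342303), .ofNat (nat_lit 549998), .ofNat (nat_lit 389693), .ofNat (nat_lit 599865)⟩, ⟨.ofNat (nat_lit 306113), .ofNat (nat_lit 440207), .ofNat (nat_lit 350425), .ofNat (nat_lit 484518), .ofNat (nat_lit 299996), .ofNat (nat_lit 409993), .ofNat (nat_lit 349998), .ofNat (nat_lit 459993)⟩⟩, [⟨nat_lit 16, nat_lit 62, nat_lit 100, nat_lit 94, nat_lit 210962780⟩]⟩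
noncomputable def p105_l100 : Lf2 := ⟨nat_lit 0, nat_lit 10, [nat_lit 0, nat_lit 5, nat_lit 5, nat_lit 20], true, nat_lit 160, nat_lit 248, nat_lit 0, nat_lit 384, ⟨nat_lit 0, nat_lit 1000, nat_lit 0, nat_lit 6, nat_lit 263, nat_lit 1000, nat_lit 155, nat_lit 0, nat_lit 0, nat_lit 0, nat_lit 0, nat_lit 0, nat_lit 40475504, nat_lit 18525072, nat_lit 7999424, nat_lit 4902875, true, true⟩,
 nat_lit 0, nat_lit 0, nat_lit 0, nat_lit 0, nat_lit 3279, nat_lit 0, nat_lit 0, nat_lit 0, nat_lit 0, nat_lit 0, nat_lit 0, nat_lit 0, nat_lit 0, nat_lit 0, nat_lit 0, nat_lit 250000, nat_lit 0, nat_lit 0, [(nat_lit 24, [(nat_lit 0, nat_lit 1000)]), (nat_lit 27, [(nat_lit 0, nat_lit 1000)])],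
 ⟨p105_k22, nat_lit 0, nat_lit 0, nat_lit 85, nat_lit 0, nat_lit 0, [nat_lit 780800001, nat_lit 1367200000, nat_lit 1705600000], [], [nat_lit 22775084848, nat_lit 25279089900, nat_lit 27342698817, nat_lit 29480908268, nat_lit 24930106693, nat_lit 27103291159, nat_lit 28880308648, nat_lit 30857318356], nat_lit 0, nat_lit 0, nat_lit 0, nat_lit 0, nat_lit 0, nat_lit 0, [], [nat_lit 35, nat_lit 40, nat_lit 40, nat_lit 80, nat_lit 22, nat_lit 203, nat_lit 0, nat_lit 7]⟩, C1.Rw.none,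
 ⟨nat_lit 0, nat_lit 3163, ⟨.ofNat (nat_lit 560951), .ofNat (nat_lit 731616), .ofNat (nat_lit 605128), .ofNat (nat_lit 775928), .ofNat (nat_lit 549998), .ofNat (nat_lit 689994), .ofNat (nat_lit 599865), .ofNat (nat_lit 739996)⟩, ⟨.ofNat (nat_lit 306113), .ofNat (nat_lit 440207), .ofNat (nat_lit 350425), .ofNat (nat_lit 484518), .ofNat (nat_lit 299996), .ofNat (nat_lit 409993), .ofNat (nat_lit 349998), .ofNat (nat_lit 459993)⟩⟩, [⟨nat_lit 13, nat_lit 61, nat_lit 68, nat_lit 100, nat_lit 259757376⟩, ⟨nat_lit 16, nat_lit 62, nat_lit 100, nat_lit 94, nat_lit 162683073⟩]⟩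
noncomputable def p105_l101 : Lf2 := ⟨nat_lit 0, nat_lit 10, [nat_lit 0, nat_lit 5, nat_lit 5, nat_lit 20], true, nat_lit 8, nat_lit 248, nat_lit 0, nat_lit 384, ⟨nat_lit 0, nat_lit 1000, nat_lit 0, nat_lit 5, nat_lit 217, nat_lit 1000, nat_lit 94, nat_lit 0, nat_lit 0, nat_lit 0, nat_lit 0, nat_lit 0, nat_lit 0, nat_lit 0, nat_lit 0, nat_lit 5000000, false, true⟩,
 nat_lit 0, nat_lit 0, nat_lit 0, nat_lit 0, nat_lit 3279, nat_lit 0, nat_lit 0, nat_lit 0, nat_lit 0, nat_lit 0, nat_lit 0, nat_lit 0, nat_lit 0, nat_lit 0, nat_lit 0, nat_lit 250000, nat_lit 0, nat_lit 0, [(nat_lit 24, [(nat_lit 0, nat_lit 1000)]), (nat_lit 27, [(nat_lit 0, nat_lit 1000)])],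
 ⟨p105_k22, nat_lit 0, nat_lit 0, nat_lit 164, nat_lit 0, nat_lit 0, [nat_lit 780800001, nat_lit 1367200000, nat_lit 1705600000], [], [nat_lit 20379112509, nat_lit 24704539205, nat_lit 29280125988, nat_lit 31853544395, nat_lit 22721977608, nat_lit 25174485989, nat_lit 28880308648, nat_lit 30857318356], nat_lit 0, nat_lit 0, nat_lit 0, nat_lit 0, nat_lit 0, nat_lit 0, [], [nat_lit 35, nat_lit 40, nat_lit 40, nat_lit 80, nat_lit 22, nat_lit 373, nat_lit 150, nat_lit 17]⟩, C1.Rw.none,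
 ⟨nat_lit 0, nat_lit 3163, ⟨.ofNat (nat_lit 309443), .ofNat (nat_lit 731616), .ofNat (nat_lit 351143), .ofNat (nat_lit 775928), .ofNat (nat_lit 342303), .ofNat (nat_lit 689994), .ofNat (nat_lit 389693), .ofNat (nat_lit 739996)⟩, ⟨.ofNat (nat_lit 20000), .ofNat (nat_lit 440207), .ofNat (nat_lit 20000), .ofNat (nat_lit 484518), .ofNat (nat_lit 20000), .ofNat (nat_lit 409993), .ofNat (nat_lit 20000), .ofNat (nat_lit 459993)⟩⟩, [⟨nat_lit 13, nat_lit 61, nat_lit 68, nat_lit 100, nat_lit 265882804⟩, ⟨nat_lit 16, nat_lit 62, nat_lit 100, nat_lit 94, nat_lit 73501181⟩]⟩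
noncomputable def b_V_900_500_20_0 : St := ⟨true, nat_lit 0, nat_lit 2, nat_lit 0, nat_lit 120, nat_lit 360, nat_lit 400, nat_lit 200, nat_lit 240, nat_lit 80, nat_lit 352, nat_lit 80, nat_lit 120, nat_lit 8, nat_lit 248, nat_lit 0, nat_lit 384, nat_lit 0, nat_lit 40, nat_lit 0, nat_lit 0, nat_lit 0, nat_lit 0⟩
theorem d_V_900_500_20_0 (h : EB TB.env) : Dead b_V_900_500_20_0 := chkB_sound0 h (T :=
(.gv
(.st (nat_lit 1)
(.spl (nat_lit 2) (nat_lit 240)
(.leaf p105_l90)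
(.leaf p105_l91))
(.spl (nat_lit 4) (nat_lit 160)
(.spl (nat_lit 4) (nat_lit 80)
(.spl (nat_lit 2) (nat_lit 240)
(.leaf p105_l92)
(.trX (nat_lit 22) (nat_lit 100) (nat_lit 76) (nat_lit 82) (nat_lit 336) (.spl (nat_lit 2) (nat_lit 320)
(.leaf p105_l93)
(.trX (nat_lit 22) (nat_lit 83) (nat_lit 100) (nat_lit 83) (nat_lit 260) (.spl (nat_lit 0) (nat_lit 380)
(.leaf p105_l94)
(.trX (nat_lit 13) (nat_lit 44) (nat_lit 81) (nat_lit 100) (nat_lit 324) (.trZ (nat_lit 3) (nat_lit 100) (nat_lit 54) (nat_lit 57) (nat_lit 20) (.leaf p105_l95))))))))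
(.spl (nat_lit 1) (nat_lit 220)
(.trX (nat_lit 13) (nat_lit 60) (nat_lit 74) (nat_lit 100) (nat_lit 336) (.leaf p105_l96))
(.trZ (nat_lit 0) (nat_lit 100) (nat_lit 60) (nat_lit 86) (nat_lit 96) (.trX (nat_lit 19) (nat_lit 100) (nat_lit 49) (nat_lit 92) (nat_lit 376) (.spl (nat_lit 0) (nat_lit 380)
(.leaf p105_l97)
(.trZ (nat_lit 0) (nat_lit 100) (nat_lit 44) (nat_lit 94) (nat_lit 128) (.trX (nat_lit 13) (nat_lit 44) (nat_lit 81) (nat_lit 100) (nat_lit 324) (.leaf p105_l98))))))))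
(.spl (nat_lit 2) (nat_lit 240)
(.leaf p105_l99)
(.leaf p105_l100))))
(.leaf p105_l101))) (by decide +kernel)
noncomputable def p105_l102 : Lf2 := ⟨nat_lit 0, nat_lit 10, [nat_lit 0, nat_lit 5, nat_lit 5, nat_lit 20], true, nat_lit 8, nat_lit 160, nat_lit 0, nat_lit 384, ⟨nat_lit 0, nat_lit 0, nat_lit 1000, nat_lit 5, nat_lit 156, nat_lit 1000, nat_lit 70, nat_lit 1000, nat_lit 45067, nat_lit 267, nat_lit 123359, nat_lit 301, nat_lit 55306567, nat_lit 0, nat_lit 0, nat_lit 2925107, false, false⟩,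
 nat_lit 0, nat_lit 3310, nat_lit 0, nat_lit 0, nat_lit 2882, nat_lit 0, nat_lit 0, nat_lit 0, nat_lit 0, nat_lit 0, nat_lit 0, nat_lit 0, nat_lit 0, nat_lit 0, nat_lit 41, nat_lit 250000, nat_lit 0, nat_lit 0, [(nat_lit 24, [(nat_lit 0, nat_lit 162), (nat_lit 4, nat_lit 838)])],
 ⟨p105_k20, nat_lit 0, nat_lit 0, nat_lit 354, nat_lit 0, nat_lit 685645, [nat_lit 946976801, nat_lit 57236800], [], [nat_lit 19492251351, nat_lit 20500637043, nat_lit 20620138707, nat_lit 21224017777, nat_lit 20547465298, nat_lit 21113213799, nat_lit 21750514595, nat_lit 22335740243], nat_lit 1271250, nat_lit 1271250, nat_lit 490000, nat_lit 1100001, nat_lit 43600, nat_lit 1100001, [nat_lit 230000, nat_lit 1100000], [nat_lit 86, nat_lit 40, nat_lit 40, nat_lit 80, nat_lit 87, nat_lit 317, nat_lit 100, nat_lit 15]⟩, C1.Rw.none,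
 ⟨nat_lit 2738, nat_lit 3163, ⟨.ofNat (nat_lit 317085), .ofNat (nat_lit 439028), .ofNat (nat_lit 339227), .ofNat (nat_lit 461170), .ofNat (nat_lit 322761), .ofNat (nat_lit 440920), .ofNat (nat_lit 345166), .ofNat (nat_lit 463325)⟩, ⟨.ofNat (nat_lit 20000), .ofNat (nat_lit 306116), .ofNat (nat_lit 20000), .ofNat (nat_lit 350426), .ofNat (nat_lit 20000), .ofNat (nat_lit 306433), .ofNat (nat_lit 20000), .ofNat (nat_lit 351268)⟩⟩, [⟨nat_lit 3, nat_lit 100, nat_lit 57, nat_lit 62, nat_lit 43534044⟩]⟩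
noncomputable def p105_l103 : Lf2 := ⟨nat_lit 0, nat_lit 10, [nat_lit 0, nat_lit 5, nat_lit 5, nat_lit 20], true, nat_lit 12, nat_lit 160, nat_lit 0, nat_lit 384, ⟨nat_lit 0, nat_lit 0, nat_lit 1000, nat_lit 5, nat_lit 162, nat_lit 1000, nat_lit 72, nat_lit 1000, nat_lit 48600, nat_lit 269, nat_lit 112067, nat_lit 297, nat_lit 54699232, nat_lit 0, nat_lit 0, nat_lit 3023783, false, false⟩,
 nat_lit 0, nat_lit 3074, nat_lit 0, nat_lit 0, nat_lit 2773, nat_lit 0, nat_lit 0, nat_lit 0, nat_lit 0, nat_lit 0, nat_lit 0, nat_lit 0, nat_lit 0, nat_lit 0, nat_lit 69, nat_lit 250000, nat_lit 0, nat_lit 0, [(nat_lit 24, [(nat_lit 4, nat_lit 1000)])],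
 ⟨p105_k26, nat_lit 0, nat_lit 0, nat_lit 375, nat_lit 0, nat_lit 739744, [nat_lit 1002400001, nat_lit 398800001, nat_lit 54799999], [], [nat_lit 20139044788, nat_lit 21112130380, nat_lit 20946949632, nat_lit 21619521584, nat_lit 21040528834, nat_lit 21665746819, nat_lit 22131598359, nat_lit 22706832631], nat_lit 1271250, nat_lit 1271250, nat_lit 573850, nat_lit 1100001, nat_lit 65850, nat_lit 1100001, [nat_lit 230000, nat_lit 780000, nat_lit 1100000], [nat_lit 35, nat_lit 40, nat_lit 40, nat_lit 80, nat_lit 22, nat_lit 317, nat_lit 100, nat_lit 14]⟩, C1.Rw.none,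
 ⟨nat_lit 2236, nat_lit 2739, ⟨.ofNat (nat_lit 340439), .ofNat (nat_lit 440903), .ofNat (nat_lit 362836), .ofNat (nat_lit 463300), .ofNat (nat_lit 345963), .ofNat (nat_lit 442949), .ofNat (nat_lit 368717), .ofNat (nat_lit 465703)⟩, ⟨.ofNat (nat_lit 30000), .ofNat (nat_lit 306433), .ofNat (nat_lit 30000), .ofNat (nat_lit 351268), .ofNat (nat_lit 30000), .ofNat (nat_lit 306337), .ofNat (nat_lit 30000), .ofNat (nat_lit 351886)⟩⟩, [⟨nat_lit 3, nat_lit 100, nat_lit 48, nat_lit 71, nat_lit 53117454⟩]⟩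
noncomputable def p105_l104 : Lf2 := ⟨nat_lit 0, nat_lit 10, [nat_lit 0, nat_lit 5, nat_lit 5, nat_lit 20], false, nat_lit 8, nat_lit 160, nat_lit 0, nat_lit 376, ⟨nat_lit 292, nat_lit 0, nat_lit 708, nat_lit 5, nat_lit 171, nat_lit 708, nat_lit 70, nat_lit 708, nat_lit 45067, nat_lit 267, nat_lit 52267, nat_lit 271, nat_lit 53922403, nat_lit 0, nat_lit 0, nat_lit 3110818, false, false⟩,
 nat_lit 0, nat_lit 3561, nat_lit 0, nat_lit 0, nat_lit 3101, nat_lit 2985, nat_lit 0, nat_lit 0, nat_lit 0, nat_lit 717, nat_lit 0, nat_lit 0, nat_lit 0, nat_lit 0, nat_lit 0, nat_lit 283200, nat_lit 0, nat_lit 0, [(nat_lit 24, [(nat_lit 5, nat_lit 708)])],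
 ⟨p105_k22, nat_lit 0, nat_lit 0, nat_lit 417, nat_lit 0, nat_lit 829637, [nat_lit 789886400, nat_lit 410257600, nat_lit 65043200], [], [nat_lit 20224935023, nat_lit 22019827504, nat_lit 21204828261, nat_lit 22398744075, nat_lit 21246035998, nat_lit 22378535064, nat_lit 22209352700, nat_lit 23257318162], nat_lit 1271250, nat_lit 1271250, nat_lit 602400, nat_lit 1100001, nat_lit 43600, nat_lit 1100001, [nat_lit 230000, nat_lit 780000, nat_lit 1100000], [nat_lit 35, nat_lit 40, nat_lit 40, nat_lit 80, nat_lit 22, nat_lit 317, nat_lit 100, nat_lit 14]⟩, ⟨p105_k27, nat_lit 0, nat_lit 0, nat_lit 221, nat_lit 0, nat_lit 0, [nat_lit 1825000000, nat_lit 2873864000, nat_lit 3466624000], [], [nat_lit 6002660724, nat_lit 6376359409, nat_lit 5971782684, nat_lit 6302106676, nat_lit 8558869211, nat_lit 8778480961, nat_lit 8080646414, nat_lit 8321413971], nat_lit 0, nat_lit 0, nat_lit 0, nat_lit 0, nat_lit 0, nat_lit 0, [],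 [nat_lit 46, nat_lit 40, nat_lit 40, nat_lit 80, nat_lit 41, nat_lit 428, nat_lit 200, nat_lit 11]⟩,
 ⟨nat_lit 2236, nat_lit 3163, ⟨.ofNat (nat_lit 363342), .ofNat (nat_lit 461034), .ofNat (nat_lit 385434), .ofNat (nat_lit 483125), .ofNat (nat_lit 374200), .ofNat (nat_lit 465591), .ofNat (nat_lit 396911), .ofNat (nat_lit 488302)⟩, ⟨.ofNat (nat_lit 20000), .ofNat (nat_lit 306116), .ofNat (nat_lit 20000), .ofNat (nat_lit 350426), .ofNat (nat_lit 20000), .ofNat (nat_lit 306337), .ofNat (nat_lit 20000), .ofNat (nat_lit 351886)⟩⟩, [⟨nat_lit 0, nat_lit 100, nat_lit 44, nat_lit 99, nat_lit 343283114⟩, ⟨nat_lit 7, nat_lit 63, nat_lit 100, nat_lit 88, nat_lit 96643098⟩]⟩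
noncomputable def p105_l105 : Lf2 := ⟨nat_lit 0, nat_lit 10, [nat_lit 0, nat_lit 5, nat_lit 5, nat_lit 20], false, nat_lit 8, nat_lit 160, nat_lit 0, nat_lit 384, ⟨nat_lit 462, nat_lit 0, nat_lit 538, nat_lit 5, nat_lit 209, nat_lit 538, nat_lit 70, nat_lit 538, nat_lit 45067, nat_lit 267, nat_lit 417, nat_lit 210, nat_lit 50160728, nat_lit 0, nat_lit 0, nat_lit 3525702, false, false⟩,
 nat_lit 0, nat_lit 4027, nat_lit 0, nat_lit 0, nat_lit 3507, nat_lit 5893, nat_lit 107, nat_lit 0, nat_lit 0, nat_lit 740, nat_lit 0, nat_lit 0, nat_lit 0, nat_lit 0, nat_lit 0, nat_lit 259600, nat_lit 0, nat_lit 0, [(nat_lit 24, [(nat_lit 5, nat_lit 464), (nat_lit 6, nat_lit 74)])],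
 ⟨p105_k22, nat_lit 0, nat_lit 0, nat_lit 356, nat_lit 0, nat_lit 742447, [nat_lit 871478401, nat_lit 991395201, nat_lit 949108800], [], [nat_lit 21231152300, nat_lit 22244048532, nat_lit 23839075625, nat_lit 24712898877, nat_lit 20923255009, nat_lit 21453167566, nat_lit 22861177515, nat_lit 23382811724], nat_lit 1271250, nat_lit 1271250, nat_lit 1100001, nat_lit 1785000, nat_lit 43600, nat_lit 1100001, [nat_lit 230000, nat_lit 780000, nat_lit 1100000], [nat_lit 35, nat_lit 40, nat_lit 40, nat_lit 80, nat_lit 22, nat_lit 249, nat_lit 40, nat_lit 11]⟩, ⟨p105_k24, nat_lit 0, nat_lit 0, nat_lit 194, nat_lit 0, nat_lit 0, [nat_lit 2887500000, nat_lit 4547004000, nat_lit 5484864000], [], [nat_lit 10863409752, nat_lit 12157601364, nat_lit 12657111296, nat_lit 13642465028, nat_lit 14340608536, nat_lit 14689979352, nat_lit 14794687044, nat_lit 15359451243], nat_lit 0, nat_lit 0, nat_lit 0, nat_lit 0, nat_lit 0, nat_lit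 0, [], [nat_lit 46, nat_lit 40, nat_lit 40, nat_lit 80, nat_lit 41, nat_lit 456, nat_lit 225, nat_lit 12]⟩,
 ⟨nat_lit 2738, nat_lit 3163, ⟨.ofNat (nat_lit 439028), .ofNat (nat_lit 560952), .ofNat (nat_lit 483313), .ofNat (nat_lit 605257), .ofNat (nat_lit 440920), .ofNat (nat_lit 559060), .ofNat (nat_lit 485730), .ofNat (nat_lit 603890)⟩, ⟨.ofNat (nat_lit 20000), .ofNat (nat_lit 306116), .ofNat (nat_lit 20000), .ofNat (nat_lit 350426), .ofNat (nat_lit 20000), .ofNat (nat_lit 306433), .ofNat (nat_lit 20000), .ofNat (nat_lit 351268)⟩⟩, [⟨nat_lit 19, nat_lit 100, nat_lit 59, nat_lit 87, nat_lit 140536465⟩]⟩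
noncomputable def p105_l106 : Lf2 := ⟨nat_lit 0, nat_lit 10, [nat_lit 0, nat_lit 5, nat_lit 5, nat_lit 20], false, nat_lit 12, nat_lit 160, nat_lit 0, nat_lit 384, ⟨nat_lit 532, nat_lit 0, nat_lit 468, nat_lit 5, nat_lit 209, nat_lit 468, nat_lit 72, nat_lit 468, nat_lit 48600, nat_lit 269, nat_lit 2958, nat_lit 211, nat_lit 50039797, nat_lit 0, nat_lit 0, nat_lit 3556405, false, false⟩,
 nat_lit 0, nat_lit 3877, nat_lit 0, nat_lit 0, nat_lit 3498, nat_lit 7171, nat_lit 300, nat_lit 0, nat_lit 0, nat_lit 623, nat_lit 0, nat_lit 0, nat_lit 0, nat_lit 0, nat_lit 0, nat_lit 117000, nat_lit 0, nat_lit 0, [(nat_lit 24, [(nat_lit 4, nat_lit 468)])],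
 ⟨p105_k26, nat_lit 0, nat_lit 0, nat_lit 374, nat_lit 0, nat_lit 791687, [nat_lit 838971201, nat_lit 1545158400, nat_lit 1982242400], [], [nat_lit 22100209382, nat_lit 23109023104, nat_lit 24570997736, nat_lit 25441465131, nat_lit 21464492317, nat_lit 22035510039, nat_lit 23384087437, nat_lit 23890008687], nat_lit 1271250, nat_lit 1271250, nat_lit 1100001, nat_lit 1785000, nat_lit 65850, nat_lit 1100001, [nat_lit 230000, nat_lit 780000, nat_lit 1100000], [nat_lit 35, nat_lit 40, nat_lit 40, nat_lit 80, nat_lit 22, nat_lit 249, nat_lit 40, nat_lit 11]⟩, ⟨p105_k24, nat_lit 0, nat_lit 0, nat_lit 194, nat_lit 0, nat_lit 0, [nat_lit 3325000000, nat_lit 5235944000, nat_lit 6315904000], [], [nat_lit 13443966472, nat_lit 14982611244, nat_lit 15558468448, nat_lit 16723670636, nat_lit 16378513485, nat_lit 17241658800, nat_lit 17339672125, nat_lit 17995752358], nat_lit 0, nat_lit 0, nat_lit 0, nat_lit 0, nat_lit 0, nat_lit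 0, [], [nat_lit 46, nat_lit 40, nat_lit 40, nat_lit 80, nat_lit 41, nat_lit 456, nat_lit 225, nat_lit 12]⟩,
 ⟨nat_lit 2236, nat_lit 2739, ⟨.ofNat (nat_lit 440903), .ofNat (nat_lit 559060), .ofNat (nat_lit 485697), .ofNat (nat_lit 603890), .ofNat (nat_lit 442949), .ofNat (nat_lit 557014), .ofNat (nat_lit 488457), .ofNat (nat_lit 602558)⟩, ⟨.ofNat (nat_lit 30000), .ofNat (nat_lit 306433), .ofNat (nat_lit 30000), .ofNat (nat_lit 351268), .ofNat (nat_lit 30000), .ofNat (nat_lit 306337), .ofNat (nat_lit 30000), .ofNat (nat_lit 351886)⟩⟩, [⟨nat_lit 19, nat_lit 100, nat_lit 59, nat_lit 87, nat_lit 156778922⟩]⟩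
noncomputable def p105_l107 : Lf2 := ⟨nat_lit 0, nat_lit 10, [nat_lit 0, nat_lit 5, nat_lit 5, nat_lit 20], true, nat_lit 160, nat_lit 248, nat_lit 0, nat_lit 384, ⟨nat_lit 0, nat_lit 0, nat_lit 1000, nat_lit 5, nat_lit 157, nat_lit 1000, nat_lit 157, nat_lit 1000, nat_lit 61189, nat_lit 275, nat_lit 112067, nat_lit 297, nat_lit 48961601, nat_lit 0, nat_lit 0, nat_lit 4121517, false, false⟩,
 nat_lit 0, nat_lit 3478, nat_lit 0, nat_lit 0, nat_lit 3029, nat_lit 0, nat_lit 0, nat_lit 0, nat_lit 0, nat_lit 0, nat_lit 0, nat_lit 0, nat_lit 0, nat_lit 0, nat_lit 69, nat_lit 250000, nat_lit 0, nat_lit 0, [(nat_lit 24, [(nat_lit 4, nat_lit 1000)])],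
 ⟨p105_k22, nat_lit 0, nat_lit 0, nat_lit 329, nat_lit 0, nat_lit 775017, [nat_lit 1002400001, nat_lit 398800001, nat_lit 54799999], [], [nat_lit 18867675662, nat_lit 20379702424, nat_lit 20128768850, nat_lit 21362839182, nat_lit 21599668428, nat_lit 23092573110, nat_lit 22617502093, nat_lit 23694023920], nat_lit 1271250, nat_lit 1271250, nat_lit 490000, nat_lit 1100001, nat_lit 1100001, nat_lit 1853500, [nat_lit 230000, nat_lit 780000, nat_lit 1100000], [nat_lit 35, nat_lit 40, nat_lit 40, nat_lit 80, nat_lit 22, nat_lit 249, nat_lit 40, nat_lit 10]⟩, C1.Rw.none,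
 ⟨nat_lit 2236, nat_lit 3163, ⟨.ofNat (nat_lit 316827), .ofNat (nat_lit 438942), .ofNat (nat_lit 338920), .ofNat (nat_lit 461034), .ofNat (nat_lit 328641), .ofNat (nat_lit 442880), .ofNat (nat_lit 351352), .ofNat (nat_lit 465591)⟩, ⟨.ofNat (nat_lit 306116), .ofNat (nat_lit 440213), .ofNat (nat_lit 350426), .ofNat (nat_lit 484523), .ofNat (nat_lit 306337), .ofNat (nat_lit 431772), .ofNat (nat_lit 351886), .ofNat (nat_lit 477320)⟩⟩, [⟨nat_lit 4, nat_lit 100, nat_lit 53, nat_lit 87, nat_lit 338494702⟩]⟩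
noncomputable def p105_l108 : Lf2 := ⟨nat_lit 0, nat_lit 5, [nat_lit 4, nat_lit 5, nat_lit 5, nat_lit 20], false, nat_lit 160, nat_lit 248, nat_lit 0, nat_lit 376, ⟨nat_lit 288, nat_lit 0, nat_lit 712, nat_lit 5, nat_lit 170, nat_lit 712, nat_lit 158, nat_lit 712, nat_lit 61189, nat_lit 275, nat_lit 59651, nat_lit 274, nat_lit 47892594, nat_lit 0, nat_lit 0, nat_lit 4263900, false, false⟩,
 nat_lit 0, nat_lit 3555, nat_lit 0, nat_lit 0, nat_lit 3096, nat_lit 2265, nat_lit 0, nat_lit 0, nat_lit 0, nat_lit 0, nat_lit 0, nat_lit 0, nat_lit 0, nat_lit 0, nat_lit 0, nat_lit 284800, nat_lit 0, nat_lit 0, [(nat_lit 24, [(nat_lit 5, nat_lit 712)])],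
 ⟨p105_k28, nat_lit 0, nat_lit 0, nat_lit 249, nat_lit 0, nat_lit 720578, [nat_lit 789049600, nat_lit 371569067], [], [nat_lit 19202973861, nat_lit 19842568567, nat_lit 20197490699, nat_lit 20787861275, nat_lit 21782082132, nat_lit 22424809382, nat_lit 22633800922, nat_lit 23192870271], nat_lit 1271250, nat_lit 1271250, nat_lit 602400, nat_lit 1100001, nat_lit 1100001, nat_lit 1853500, [nat_lit 230000, nat_lit 780000], [nat_lit 66, nat_lit 40, nat_lit 40, nat_lit 80, nat_lit 67, nat_lit 249, nat_lit 40, nat_lit 13]⟩, ⟨p105_k29, nat_lit 0, nat_lit 0, nat_lit 82, nat_lit 0, nat_lit 0, [nat_lit 1800000000, nat_lit 2834496000], [], [nat_lit 3565230741, nat_lit 4114342407, nat_lit 3898915524, nat_lit 4394852148, nat_lit 7748304160, nat_lit 7943656825, nat_lit 7560083485, nat_lit 7734173676], nat_lit 0, nat_lit 0, nat_lit 0, nat_lit 0, nat_lit 0, nat_lit 0, [], [nat_lit 51, nat_lit 40, nat_lit 40, nat_lit 80, nat_lit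 1, nat_lit 428, nat_lit 200, nat_lit 13]⟩,
 ⟨nat_lit 2738, nat_lit 3163, ⟨.ofNat (nat_lit 363616), .ofNat (nat_lit 461170), .ofNat (nat_lit 385759), .ofNat (nat_lit 483313), .ofNat (nat_lit 368798), .ofNat (nat_lit 463325), .ofNat (nat_lit 391203), .ofNat (nat_lit 485730)⟩, ⟨.ofNat (nat_lit 306116), .ofNat (nat_lit 440213), .ofNat (nat_lit 350426), .ofNat (nat_lit 484523), .ofNat (nat_lit 306433), .ofNat (nat_lit 436368), .ofNat (nat_lit 351268), .ofNat (nat_lit 481203)⟩⟩, [⟨nat_lit 0, nat_lit 100, nat_lit 57, nat_lit 91, nat_lit 181403438⟩, ⟨nat_lit 16, nat_lit 62, nat_lit 100, nat_lit 94, nat_lit 292211211⟩, ⟨nat_lit 7, nat_lit 63, nat_lit 100, nat_lit 88, nat_lit 33353542⟩, ⟨nat_lit 11, nat_lit 47, nat_lit 100, nat_lit 94, nat_lit 77062331⟩]⟩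
noncomputable def p105_l109 : Lf2 := ⟨nat_lit 0, nat_lit 5, [nat_lit 4, nat_lit 5, nat_lit 5, nat_lit 20], true, nat_lit 160, nat_lit 232, nat_lit 0, nat_lit 376, ⟨nat_lit 0, nat_lit 0, nat_lit 1000, nat_lit 5, nat_lit 176, nat_lit 1000, nat_lit 152, nat_lit 1000, nat_lit 156817, nat_lit 312, nat_lit 52469, nat_lit 271, nat_lit 47789967, nat_lit 0, nat_lit 0, nat_lit 4268859, false, false⟩,
 nat_lit 0, nat_lit 3403, nat_lit 0, nat_lit 0, nat_lit 3071, nat_lit 0, nat_lit 0, nat_lit 0, nat_lit 0, nat_lit 0, nat_lit 0, nat_lit 0, nat_lit 0, nat_lit 0, nat_lit 36, nat_lit 250000, nat_lit 0, nat_lit 0, [(nat_lit 24, [(nat_lit 4, nat_lit 1000)])],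
 ⟨p105_k30, nat_lit 0, nat_lit 0, nat_lit 259, nat_lit 0, nat_lit 768553, [nat_lit 870400001, nat_lit 2800000], [], [nat_lit 19773302607, nat_lit 20500676912, nat_lit 20597687404, nat_lit 21218731638, nat_lit 21822885130, nat_lit 22587030065, nat_lit 22516669607, nat_lit 23072890713], nat_lit 1271250, nat_lit 1271250, nat_lit 719601, nat_lit 1100001, nat_lit 1100001, nat_lit 1716500, [nat_lit 230000, nat_lit 780000], [nat_lit 66, nat_lit 40, nat_lit 40, nat_lit 80, nat_lit 67, nat_lit 249, nat_lit 40, nat_lit 13]⟩, C1.Rw.none,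
 ⟨nat_lit 2236, nat_lit 2739, ⟨.ofNat (nat_lit 392385), .ofNat (nat_lit 463300), .ofNat (nat_lit 414782), .ofNat (nat_lit 485697), .ofNat (nat_lit 397243), .ofNat (nat_lit 465703), .ofNat (nat_lit 419997), .ofNat (nat_lit 488457)⟩, ⟨.ofNat (nat_lit 306433), .ofNat (nat_lit 412743), .ofNat (nat_lit 351268), .ofNat (nat_lit 457578), .ofNat (nat_lit 306337), .ofNat (nat_lit 408965), .ofNat (nat_lit 351886), .ofNat (nat_lit 454514)⟩⟩, [⟨nat_lit 4, nat_lit 100, nat_lit 48, nat_lit 87, nat_lit 333639781⟩]⟩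
noncomputable def p105_l110 : Lf2 := ⟨nat_lit 0, nat_lit 10, [nat_lit 0, nat_lit 5, nat_lit 5, nat_lit 20], true, nat_lit 160, nat_lit 248, nat_lit 0, nat_lit 376, ⟨nat_lit 0, nat_lit 376, nat_lit 624, nat_lit 5, nat_lit 171, nat_lit 1000, nat_lit 157, nat_lit 624, nat_lit 61189, nat_lit 275, nat_lit 52267, nat_lit 271, nat_lit 47862437, nat_lit 10182574, nat_lit 8954989, nat_lit 4267297, false, false⟩,
 nat_lit 0, nat_lit 3366, nat_lit 0, nat_lit 0, nat_lit 2931, nat_lit 0, nat_lit 0, nat_lit 0, nat_lit 0, nat_lit 0, nat_lit 0, nat_lit 0, nat_lit 0, nat_lit 0, nat_lit 3, nat_lit 250000, nat_lit 0, nat_lit 0, [(nat_lit 24, [(nat_lit 0, nat_lit 376), (nat_lit 4, nat_lit 624)])],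
 ⟨p105_k22, nat_lit 0, nat_lit 0, nat_lit 257, nat_lit 0, nat_lit 601301, [nat_lit 752236801, nat_lit 282246400, nat_lit 33401600], [], [nat_lit 19008931744, nat_lit 20317539084, nat_lit 19942852678, nat_lit 21102521234, nat_lit 21521789485, nat_lit 22996291268, nat_lit 22381941565, nat_lit 23504105754], nat_lit 1271250, nat_lit 1271250, nat_lit 602400, nat_lit 1100001, nat_lit 1100001, nat_lit 1853500, [nat_lit 230000, nat_lit 780000, nat_lit 1100000], [nat_lit 35, nat_lit 40, nat_lit 40, nat_lit 80, nat_lit 22, nat_lit 249, nat_lit 40, nat_lit 10]⟩, C1.Rw.none,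
 ⟨nat_lit 2236, nat_lit 3163, ⟨.ofNat (nat_lit 363342), .ofNat (nat_lit 461034), .ofNat (nat_lit 385434), .ofNat (nat_lit 483125), .ofNat (nat_lit 374200), .ofNat (nat_lit 465591), .ofNat (nat_lit 396911), .ofNat (nat_lit 488302)⟩, ⟨.ofNat (nat_lit 306116), .ofNat (nat_lit 440213), .ofNat (nat_lit 350426), .ofNat (nat_lit 484523), .ofNat (nat_lit 306337), .ofNat (nat_lit 431772), .ofNat (nat_lit 351886), .ofNat (nat_lit 477320)⟩⟩, [⟨nat_lit 16, nat_lit 53, nat_lit 100, nat_lit 87, nat_lit 335581329⟩]⟩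
noncomputable def p105_l111 : Lf2 := ⟨nat_lit 0, nat_lit 10, [nat_lit 0, nat_lit 5, nat_lit 5, nat_lit 20], false, nat_lit 160, nat_lit 248, nat_lit 0, nat_lit 160, ⟨nat_lit 724, nat_lit 0, nat_lit 276, nat_lit 5, nat_lit 209, nat_lit 276, nat_lit 157, nat_lit 276, nat_lit 61189, nat_lit 275, nat_lit 417, nat_lit 210, nat_lit 44744937, nat_lit 0, nat_lit 0, nat_lit 4606742, false, false⟩,
 nat_lit 0, nat_lit 5455, nat_lit 0, nat_lit 0, nat_lit 4750, nat_lit 6786, nat_lit 0, nat_lit 0, nat_lit 0, nat_lit 0, nat_lit 0, nat_lit 0, nat_lit 0, nat_lit 0, nat_lit 0, nat_lit 276000, nat_lit 0, nat_lit 0, [(nat_lit 24, [(nat_lit 6, nat_lit 276)])],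
 ⟨p105_k20, nat_lit 0, nat_lit 0, nat_lit 323, nat_lit 0, nat_lit 829637, [nat_lit 1289624000, nat_lit 2043036800], [], [nat_lit 22140382200, nat_lit 23204996900, nat_lit 23637542400, nat_lit 24627343500, nat_lit 23865362700, nat_lit 25003251600, nat_lit 25279653201, nat_lit 26796402851], nat_lit 1271250, nat_lit 1271250, nat_lit 1100001, nat_lit 1785000, nat_lit 1100001, nat_lit 1853500, [nat_lit 230000, nat_lit 1100000], [nat_lit 86, nat_lit 40, nat_lit 40, nat_lit 80, nat_lit 87, nat_lit 203, nat_lit 0, nat_lit 7]⟩, ⟨p105_k21, nat_lit 0, nat_lit 0, nat_lit 182, nat_lit 0, nat_lit 0, [nat_lit 4525000000, nat_lit 8595328000], [], [nat_lit 21969484032, nat_lit 23268152328, nat_lit 24046712192, nat_lit 25396582056, nat_lit 17683965024, nat_lit 18731647832, nat_lit 19153060688, nat_lit 19951881664], nat_lit 0, nat_lit 0, nat_lit 0, nat_lit 0, nat_lit 0, nat_lit 0, [], [nat_lit 107, nat_lit 40, nat_lit 40, nat_lit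 80, nat_lit 12, nat_lit 401, nat_lit 175, nat_lit 10]⟩,
 ⟨nat_lit 2236, nat_lit 3163, ⟨.ofNat (nat_lit 438942), .ofNat (nat_lit 560952), .ofNat (nat_lit 483125), .ofNat (nat_lit 605240), .ofNat (nat_lit 442880), .ofNat (nat_lit 557014), .ofNat (nat_lit 488302), .ofNat (nat_lit 602541)⟩, ⟨.ofNat (nat_lit 306116), .ofNat (nat_lit 440213), .ofNat (nat_lit 350426), .ofNat (nat_lit 484523), .ofNat (nat_lit 306337), .ofNat (nat_lit 431772), .ofNat (nat_lit 351886), .ofNat (nat_lit 477320)⟩⟩, [⟨nat_lit 4, nat_lit 100, nat_lit 53, nat_lit 87, nat_lit 536016637⟩]⟩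
noncomputable def p105_l112 : Lf2 := ⟨nat_lit 0, nat_lit 10, [nat_lit 0, nat_lit 5, nat_lit 5, nat_lit 20], false, nat_lit 160, nat_lit 248, nat_lit 160, nat_lit 384, ⟨nat_lit 409, nat_lit 0, nat_lit 591, nat_lit 5, nat_lit 209, nat_lit 591, nat_lit 157, nat_lit 591, nat_lit 61189, nat_lit 275, nat_lit 417, nat_lit 210, nat_lit 44744937, nat_lit 0, nat_lit 0, nat_lit 4606742, false, false⟩,
 nat_lit 0, nat_lit 3824, nat_lit 0, nat_lit 0, nat_lit 3330, nat_lit 3195, nat_lit 102, nat_lit 0, nat_lit 0, nat_lit 0, nat_lit 0, nat_lit 0, nat_lit 0, nat_lit 0, nat_lit 0, nat_lit 236400, nat_lit 0, nat_lit 0, [(nat_lit 24, [(nat_lit 5, nat_lit 591)])],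
 ⟨p105_k22, nat_lit 0, nat_lit 0, nat_lit 324, nat_lit 0, nat_lit 829637, [nat_lit 814362800, nat_lit 884825201, nat_lit 829006400], [], [nat_lit 20645454685, nat_lit 21680821643, nat_lit 22526780121, nat_lit 23576118741, nat_lit 22800933062, nat_lit 23836044863, nat_lit 24551939417, nat_lit 25687522863], nat_lit 1271250, nat_lit 1271250, nat_lit 1100001, nat_lit 1785000, nat_lit 1100001, nat_lit 1853500, [nat_lit 230000, nat_lit 780000, nat_lit 1100000], [nat_lit 35, nat_lit 40, nat_lit 40, nat_lit 80, nat_lit 22, nat_lit 203, nat_lit 0, nat_lit 7]⟩, ⟨p105_k24, nat_lit 0, nat_lit 0, nat_lit 98, nat_lit 0, nat_lit 0, [nat_lit 2556250000, nat_lit 4025378000, nat_lit 4855648000], [], [nat_lit 3603329804, nat_lit 4773316800, nat_lit 5465389316, nat_lit 6408227400, nat_lit 10829714103, nat_lit 11296613020, nat_lit 11504729892, nat_lit 11974539051], nat_lit 0, nat_lit 0, nat_lit 0, nat_lit 0, nat_lit 0, nat_lit 0,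 [], [nat_lit 46, nat_lit 40, nat_lit 40, nat_lit 80, nat_lit 41, nat_lit 456, nat_lit 225, nat_lit 11]⟩,
 ⟨nat_lit 2236, nat_lit 3163, ⟨.ofNat (nat_lit 438942), .ofNat (nat_lit 560952), .ofNat (nat_lit 483125), .ofNat (nat_lit 605240), .ofNat (nat_lit 442880), .ofNat (nat_lit 557014), .ofNat (nat_lit 488302), .ofNat (nat_lit 602541)⟩, ⟨.ofNat (nat_lit 306116), .ofNat (nat_lit 440213), .ofNat (nat_lit 350426), .ofNat (nat_lit 484523), .ofNat (nat_lit 306337), .ofNat (nat_lit 431772), .ofNat (nat_lit 351886), .ofNat (nat_lit 477320)⟩⟩, [⟨nat_lit 4, nat_lit 100, nat_lit 53, nat_lit 87, nat_lit 479534203⟩, ⟨nat_lit 19, nat_lit 100, nat_lit 59, nat_lit 87, nat_lit 32176778⟩, ⟨nat_lit 19, nat_lit 100, nat_lit 40, nat_lit 92, nat_lit 225631097⟩]⟩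
noncomputable def p105_l113 : Lf2 := ⟨nat_lit 0, nat_lit 10, [nat_lit 0, nat_lit 5, nat_lit 5, nat_lit 20], false, nat_lit 20, nat_lit 208, nat_lit 0, nat_lit 160, ⟨nat_lit 1000, nat_lit 0, nat_lit 0, nat_lit 0, nat_lit 0, nat_lit 0, nat_lit 0, nat_lit 0, nat_lit 0, nat_lit 0, nat_lit 0, nat_lit 0, nat_lit 0, nat_lit 0, nat_lit 0, nat_lit 0, false, false⟩,
 nat_lit 0, nat_lit 4153, nat_lit 0, nat_lit 0, nat_lit 3880, nat_lit 10008, nat_lit 583, nat_lit 0, nat_lit 0, nat_lit 0, nat_lit 0, nat_lit 0, nat_lit 0, nat_lit 0, nat_lit 0, nat_lit 0, nat_lit 0, nat_lit 0, [],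
 ⟨p105_k25, nat_lit 0, nat_lit 0, nat_lit 379, nat_lit 0, nat_lit 918872, [nat_lit 938000000, nat_lit 3282000000], [], [nat_lit 23312068345, nat_lit 25591571000, nat_lit 25944034060, nat_lit 27776742440, nat_lit 22682252552, nat_lit 24485720736, nat_lit 25068110064, nat_lit 26530264193], nat_lit 1271250, nat_lit 1271250, nat_lit 719601, nat_lit 1758000, nat_lit 111251, nat_lit 1474250, [nat_lit 230000, nat_lit 780000], [nat_lit 66, nat_lit 40, nat_lit 40, nat_lit 80, nat_lit 67, nat_lit 345, nat_lit 125, nat_lit 20]⟩, ⟨p105_k21, nat_lit 0, nat_lit 0, nat_lit 188, nat_lit 0, nat_lit 0, [nat_lit 6250000000, nat_lit 11872000000], [], [nat_lit 29755674017, nat_lit 32435692071, nat_lit 33324386432, nat_lit 35239229088, nat_lit 23293538676, nat_lit 24941837114, nat_lit 25295934048, nat_lit 26886019648], nat_lit 0, nat_lit 0, nat_lit 0, nat_lit 0, nat_lit 0, nat_lit 0, [], [nat_lit 107, nat_lit 40, nat_lit 40, nat_lit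 80, nat_lit 12, nat_lit 401, nat_lit 175, nat_lit 11]⟩,
 zbF0, [⟨nat_lit 0, nat_lit 100, nat_lit 44, nat_lit 90, nat_lit 676626419⟩, ⟨nat_lit 16, nat_lit 44, nat_lit 100, nat_lit 92, nat_lit 345146100⟩]⟩
noncomputable def p105_l114 : Lf2 := ⟨nat_lit 0, nat_lit 10, [nat_lit 0, nat_lit 5, nat_lit 5, nat_lit 20], false, nat_lit 20, nat_lit 208, nat_lit 160, nat_lit 384, ⟨nat_lit 332, nat_lit 0, nat_lit 668, nat_lit 5, nat_lit 196, nat_lit 668, nat_lit 89, nat_lit 668, nat_lit 74817, nat_lit 282, nat_lit 267, nat_lit 211, nat_lit 50370016, nat_lit 0, nat_lit 0, nat_lit 3671520, false, false⟩,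
 nat_lit 0, nat_lit 3249, nat_lit 0, nat_lit 0, nat_lit 3035, nat_lit 2572, nat_lit 0, nat_lit 0, nat_lit 0, nat_lit 0, nat_lit 0, nat_lit 0, nat_lit 0, nat_lit 0, nat_lit 168, nat_lit 668000, nat_lit 0, nat_lit 0, [(nat_lit 27, [(nat_lit 6, nat_lit 668)])],
 ⟨p105_k25, nat_lit 0, nat_lit 0, nat_lit 328, nat_lit 0, nat_lit 796570, [nat_lit 1343601600, nat_lit 16903467], [], [nat_lit 21472838134, nat_lit 21969104538, nat_lit 24274610233, nat_lit 24677252132, nat_lit 21971495635, nat_lit 22259101157, nat_lit 24509981958, nat_lit 24750903207], nat_lit 1271250, nat_lit 1271250, nat_lit 719601, nat_lit 1758000, nat_lit 111251, nat_lit 1474250, [nat_lit 230000, nat_lit 780000], [nat_lit 66, nat_lit 40, nat_lit 40, nat_lit 80, nat_lit 67, nat_lit 345, nat_lit 125, nat_lit 20]⟩, ⟨p105_k24, nat_lit 0, nat_lit 0, nat_lit 121, nat_lit 0, nat_lit 0, [nat_lit 2075000000, nat_lit 3267544000, nat_lit 3941504000], [], [nat_lit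 2560222093, nat_lit 3592377889, nat_lit 4469294608, nat_lit 5231509760, nat_lit 8895295754, nat_lit 9310783369, nat_lit 9321869760, nat_lit 9702910033], nat_lit 0, nat_lit 0, nat_lit 0, nat_lit 0, nat_lit 0, nat_lit 0, [], [nat_lit 46, nat_lit 40, nat_lit 40, nat_lit 80, nat_lit 41, nat_lit 456, nat_lit 225, nat_lit 11]⟩,
 ⟨nat_lit 1936, nat_lit 2237, ⟨.ofNat (nat_lit 374530), .ofNat (nat_lit 557014), .ofNat (nat_lit 420061), .ofNat (nat_lit 602562), .ofNat (nat_lit 377008), .ofNat (nat_lit 555888), .ofNat (nat_lit 423012), .ofNat (nat_lit 601908)⟩, ⟨.ofNat (nat_lit 50000), .ofNat (nat_lit 374756), .ofNat (nat_lit 50000), .ofNat (nat_lit 420305), .ofNat (nat_lit 50000), .ofNat (nat_lit 373111), .ofNat (nat_lit 50000), .ofNat (nat_lit 419133)⟩⟩, [⟨nat_lit 0, nat_lit 100, nat_lit 41, nat_lit 95, nat_lit 88380348⟩, ⟨nat_lit 4, nat_lit 100, nat_lit 41, nat_lit 87, nat_lit 32626066⟩, ⟨nat_lit 19, nat_lit 100, nat_lit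 40, nat_lit 92, nat_lit 204369588⟩]⟩
noncomputable def p105_l115 : Lf2 := ⟨nat_lit 0, nat_lit 10, [nat_lit 0, nat_lit 5, nat_lit 5, nat_lit 20], false, nat_lit 28, nat_lit 196, nat_lit 160, nat_lit 384, ⟨nat_lit 341, nat_lit 0, nat_lit 659, nat_lit 5, nat_lit 199, nat_lit 659, nat_lit 90, nat_lit 659, nat_lit 74817, nat_lit 282, nat_lit 4795, nat_lit 212, nat_lit 49990878, nat_lit 0, nat_lit 0, nat_lit 3713399, false, false⟩,
 nat_lit 0, nat_lit 3203, nat_lit 0, nat_lit 0, nat_lit 3044, nat_lit 2660, nat_lit 0, nat_lit 0, nat_lit 0, nat_lit 0, nat_lit 0, nat_lit 0, nat_lit 0, nat_lit 0, nat_lit 162, nat_lit 659000, nat_lit 0, nat_lit 0, [(nat_lit 27, [(nat_lit 6, nat_lit 659)])],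
 ⟨p105_k31, nat_lit 0, nat_lit 0, nat_lit 332, nat_lit 0, nat_lit 818569, [nat_lit 1323190801, nat_lit 15005067], [], [nat_lit 21790322928, nat_lit 22277601057, nat_lit 24488978123, nat_lit 24890224016, nat_lit 22097392967, nat_lit 22386605253, nat_lit 24502812888, nat_lit 24794225068], nat_lit 1271250, nat_lit 1271250, nat_lit 810650, nat_lit 1764750, nat_lit 157850, nat_lit 1388450, [nat_lit 230000, nat_lit 780000], [nat_lit 66, nat_lit 40, nat_lit 40, nat_lit 80, nat_lit 67, nat_lit 260, nat_lit 50, nat_lit 14]⟩, ⟨p105_k24, nat_lit 0, nat_lit 0, nat_lit 113, nat_lit 0, nat_lit 0, [nat_lit 2131250000, nat_lit 3356122000, nat_lit 4048352000], [], [nat_lit 2650812434, nat_lit 3695117458, nat_lit 4562526784, nat_lit 5348057500, nat_lit 9067387055, nat_lit 9487924175, nat_lit 9588968205, nat_lit 9980610562], nat_lit 0, nat_lit 0, nat_lit 0, nat_lit 0, nat_lit 0, nat_lit 0, [], [nat_lit 46, nat_lit 40, nat_lit 40,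 nat_lit 80, nat_lit 41, nat_lit 456, nat_lit 225, nat_lit 11]⟩,
 ⟨nat_lit 1581, nat_lit 1937, ⟨.ofNat (nat_lit 393758), .ofNat (nat_lit 555888), .ofNat (nat_lit 439750), .ofNat (nat_lit 601908), .ofNat (nat_lit 396139), .ofNat (nat_lit 554634), .ofNat (nat_lit 442740), .ofNat (nat_lit 601263)⟩, ⟨.ofNat (nat_lit 70000), .ofNat (nat_lit 356345), .ofNat (nat_lit 70000), .ofNat (nat_lit 402366), .ofNat (nat_lit 70000), .ofNat (nat_lit 354645), .ofNat (nat_lit 70000), .ofNat (nat_lit 401275)⟩⟩, [⟨nat_lit 0, nat_lit 100, nat_lit 35, nat_lit 97, nat_lit 61229203⟩, ⟨nat_lit 4, nat_lit 100, nat_lit 35, nat_lit 88, nat_lit 23665174⟩, ⟨nat_lit 19, nat_lit 100, nat_lit 40, nat_lit 92, nat_lit 210994096⟩]⟩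
noncomputable def p105_l116 : Lf2 := ⟨nat_lit 0, nat_lit 10, [nat_lit 0, nat_lit 5, nat_lit 5, nat_lit 20], false, nat_lit 36, nat_lit 184, nat_lit 160, nat_lit 384, ⟨nat_lit 652, nat_lit 0, nat_lit 348, nat_lit 5, nat_lit 203, nat_lit 348, nat_lit 90, nat_lit 348, nat_lit 74817, nat_lit 282, nat_lit 3415, nat_lit 212, nat_lit 49654435, nat_lit 0, nat_lit 0, nat_lit 3746482, false, false⟩,
 nat_lit 0, nat_lit 3557, nat_lit 0, nat_lit 0, nat_lit 3439, nat_lit 5262, nat_lit 12, nat_lit 0, nat_lit 0, nat_lit 0, nat_lit 0, nat_lit 0, nat_lit 0, nat_lit 0, nat_lit 0, nat_lit 348000, nat_lit 0, nat_lit 0, [(nat_lit 27, [(nat_lit 6, nat_lit 348)])],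
 ⟨p105_k32, nat_lit 0, nat_lit 0, nat_lit 357, nat_lit 0, nat_lit 878916, [nat_lit 799217601, nat_lit 526257600], [], [nat_lit 22980407008, nat_lit 23999142191, nat_lit 25430680777, nat_lit 26280509178, nat_lit 22598566874, nat_lit 23451540330, nat_lit 24871960466, nat_lit 25591060179], nat_lit 1271250, nat_lit 1271250, nat_lit 904401, nat_lit 1771500, nat_lit 205650, nat_lit 1300850, [nat_lit 230000, nat_lit 780000], [nat_lit 66, nat_lit 40, nat_lit 40, nat_lit 80, nat_lit 67, nat_lit 260, nat_lit 50, nat_lit 14]⟩, ⟨p105_k21, nat_lit 0, nat_lit 0, nat_lit 73, nat_lit 0, nat_lit 0, [nat_lit 4075000000, nat_lit 7740544000], [], [nat_lit 4978917551, nat_lit 6969826916, nat_lit 8454742088, nat_lit 9982245960, nat_lit 17251582641, nat_lit 18257678209, nat_lit 18472983904, nat_lit 19224439321], nat_lit 0, nat_lit 0, nat_lit 0, nat_lit 0, nat_lit 0, nat_lit 0, [], [nat_lit 107, nat_lit 40, nat_lit 40, nat_lit 80, nat_lit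 12, nat_lit 456, nat_lit 225, nat_lit 11]⟩,
 ⟨nat_lit 0, nat_lit 1582, ⟨.ofNat (nat_lit 410485), .ofNat (nat_lit 554633), .ofNat (nat_lit 455801), .ofNat (nat_lit 601257), .ofNat (nat_lit 417902), .ofNat (nat_lit 549998), .ofNat (nat_lit 466588), .ofNat (nat_lit 599992)⟩, ⟨.ofNat (nat_lit 90000), .ofNat (nat_lit 338250), .ofNat (nat_lit 90000), .ofNat (nat_lit 384882), .ofNat (nat_lit 90000), .ofNat (nat_lit 329995), .ofNat (nat_lit 90000), .ofNat (nat_lit 379997)⟩⟩, [⟨nat_lit 0, nat_lit 100, nat_lit 31, nat_lit 95, nat_lit 482382917⟩, ⟨nat_lit 16, nat_lit 31, nat_lit 100, nat_lit 92, nat_lit 203886034⟩, ⟨nat_lit 19, nat_lit 100, nat_lit 40, nat_lit 92, nat_lit 413311097⟩]⟩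
noncomputable def p105_l117 : Lf2 := ⟨nat_lit 0, nat_lit 10, [nat_lit 0, nat_lit 5, nat_lit 5, nat_lit 20], false, nat_lit 8, nat_lit 248, nat_lit 0, nat_lit 160, ⟨nat_lit 754, nat_lit 0, nat_lit 246, nat_lit 6, nat_lit 263, nat_lit 246, nat_lit 94, nat_lit 246, nat_lit 58017, nat_lit 274, nat_lit 280606, nat_lit 200, nat_lit 43683813, nat_lit 0, nat_lit 0, nat_lit 4238475, true, true⟩,
 nat_lit 0, nat_lit 4847, nat_lit 0, nat_lit 0, nat_lit 4221, nat_lit 6545, nat_lit 0, nat_lit 0, nat_lit 0, nat_lit 0, nat_lit 0, nat_lit 0, nat_lit 0, nat_lit 0, nat_lit 0, nat_lit 246000, nat_lit 0, nat_lit 0, [(nat_lit 24, [(nat_lit 6, nat_lit 246)]), (nat_lit 27, [(nat_lit 6, nat_lit 246)])],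
 ⟨p105_k20, nat_lit 0, nat_lit 0, nat_lit 468, nat_lit 0, nat_lit 1007849, [nat_lit 1187837600, nat_lit 2394099200], [], [nat_lit 30620816012, nat_lit 32038190924, nat_lit 33202607747, nat_lit 34566609446, nat_lit 30802870671, nat_lit 31961346732, nat_lit 33150711798, nat_lit 34442773399], nat_lit 1271250, nat_lit 1271250, nat_lit 1271250, nat_lit 1271250, nat_lit 43600, nat_lit 1756600, [nat_lit 230000, nat_lit 1100000], [nat_lit 86, nat_lit 40, nat_lit 40, nat_lit 80, nat_lit 87, nat_lit 289, nat_lit 75, nat_lit 12]⟩, ⟨p105_k21, nat_lit 0, nat_lit 0, nat_lit 221, nat_lit 0, nat_lit 0, [nat_lit 4712500000, nat_lit 8951488000], [], [nat_lit 25298382628, nat_lit 26319469868, nat_lit 31617259621, nat_lit 32345632932, nat_lit 20956306312, nat_lit 21778874176, nat_lit 25587214312, nat_lit 26202986548], nat_lit 0, nat_lit 0, nat_lit 0, nat_lit 0, nat_lit 0, nat_lit 0, [], [nat_lit 107, nat_lit 40, nat_lit 40, nat_lit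 80, nat_lit 12, nat_lit 428, nat_lit 200, nat_lit 11]⟩,
 ⟨nat_lit 0, nat_lit 3163, ⟨.ofNat (nat_lit 560951), .ofNat (nat_lit 731616), .ofNat (nat_lit 605128), .ofNat (nat_lit 775928), .ofNat (nat_lit 549998), .ofNat (nat_lit 689994), .ofNat (nat_lit 599865), .ofNat (nat_lit 739996)⟩, ⟨.ofNat (nat_lit 20000), .ofNat (nat_lit 440207), .ofNat (nat_lit 20000), .ofNat (nat_lit 484518), .ofNat (nat_lit 20000), .ofNat (nat_lit 409993), .ofNat (nat_lit 20000), .ofNat (nat_lit 459993)⟩⟩, [⟨nat_lit 13, nat_lit 44, nat_lit 86, nat_lit 100, nat_lit 167396751⟩, ⟨nat_lit 16, nat_lit 44, nat_lit 100, nat_lit 87, nat_lit 316922656⟩]⟩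
noncomputable def p105_l118 : Lf2 := ⟨nat_lit 0, nat_lit 10, [nat_lit 0, nat_lit 5, nat_lit 5, nat_lit 20], false, nat_lit 8, nat_lit 248, nat_lit 160, nat_lit 384, ⟨nat_lit 720, nat_lit 0, nat_lit 280, nat_lit 6, nat_lit 267, nat_lit 280, nat_lit 96, nat_lit 280, nat_lit 58017, nat_lit 274, nat_lit 280612, nat_lit 200, nat_lit 43208849, nat_lit 0, nat_lit 0, nat_lit 4287125, true, true⟩,
 nat_lit 0, nat_lit 4653, nat_lit 0, nat_lit 0, nat_lit 4052, nat_lit 4862, nat_lit 101, nat_lit 0, nat_lit 0, nat_lit 0, nat_lit 0, nat_lit 0, nat_lit 0, nat_lit 0, nat_lit 0, nat_lit 280000, nat_lit 0, nat_lit 0, [(nat_lit 24, [(nat_lit 6, nat_lit 280)])],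
 ⟨p105_k22, nat_lit 0, nat_lit 0, nat_lit 366, nat_lit 0, nat_lit 742447, [nat_lit 1053584000, nat_lit 1736101334, nat_lit 2004704000], [], [nat_lit 25020416336, nat_lit 25802838654, nat_lit 31232620220, nat_lit 31944432815, nat_lit 26085015354, nat_lit 26469778922, nat_lit 29654940709, nat_lit 30194921997], nat_lit 1271250, nat_lit 1271250, nat_lit 1271250, nat_lit 1271250, nat_lit 43600, nat_lit 1756600, [nat_lit 230000, nat_lit 780000, nat_lit 1100000], [nat_lit 35, nat_lit 40, nat_lit 40, nat_lit 80, nat_lit 22, nat_lit 289, nat_lit 75, nat_lit 12]⟩, ⟨p105_k24, nat_lit 0, nat_lit 0, nat_lit 113, nat_lit 0, nat_lit 0, [nat_lit 4500000000, nat_lit 7086240000, nat_lit 8547840000], [], [nat_lit 10786078920, nat_lit 12335165560, nat_lit 17231595892, nat_lit 18207340716, nat_lit 20536791343, nat_lit 21173584501, nat_lit 23941018944, nat_lit 24374957432], nat_lit 0, nat_lit 0, nat_lit 0, nat_lit 0, nat_lit 0, nat_lit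 0, [], [nat_lit 46, nat_lit 40, nat_lit 40, nat_lit 80, nat_lit 41, nat_lit 483, nat_lit 250, nat_lit 12]⟩,
 ⟨nat_lit 2738, nat_lit 3163, ⟨.ofNat (nat_lit 560952), .ofNat (nat_lit 731621), .ofNat (nat_lit 605257), .ofNat (nat_lit 775931), .ofNat (nat_lit 559060), .ofNat (nat_lit 724432), .ofNat (nat_lit 603890), .ofNat (nat_lit 769266)⟩, ⟨.ofNat (nat_lit 20000), .ofNat (nat_lit 440213), .ofNat (nat_lit 20000), .ofNat (nat_lit 484523), .ofNat (nat_lit 20000), .ofNat (nat_lit 436368), .ofNat (nat_lit 20000), .ofNat (nat_lit 481203)⟩⟩, [⟨nat_lit 4, nat_lit 100, nat_lit 57, nat_lit 87, nat_lit 142695298⟩, ⟨nat_lit 19, nat_lit 100, nat_lit 40, nat_lit 92, nat_lit 350730232⟩]⟩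
noncomputable def p105_l119 : Lf2 := ⟨nat_lit 0, nat_lit 10, [nat_lit 0, nat_lit 5, nat_lit 5, nat_lit 20], false, nat_lit 12, nat_lit 232, nat_lit 160, nat_lit 384, ⟨nat_lit 1000, nat_lit 0, nat_lit 0, nat_lit 0, nat_lit 0, nat_lit 0, nat_lit 0, nat_lit 0, nat_lit 0, nat_lit 0, nat_lit 0, nat_lit 0, nat_lit 0, nat_lit 0, nat_lit 0, nat_lit 0, false, false⟩,
 nat_lit 0, nat_lit 4331, nat_lit 0, nat_lit 0, nat_lit 3908, nat_lit 7493, nat_lit 1082, nat_lit 0, nat_lit 0, nat_lit 0, nat_lit 0, nat_lit 0, nat_lit 0, nat_lit 0, nat_lit 0, nat_lit 0, nat_lit 0, nat_lit 0, [],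
 ⟨p105_k33, nat_lit 0, nat_lit 0, nat_lit 383, nat_lit 0, nat_lit 791687, [nat_lit 938000000, nat_lit 4688000000], [], [nat_lit 25369675583, nat_lit 26294351108, nat_lit 30678281528, nat_lit 31400271020, nat_lit 25253270861, nat_lit 25652904755, nat_lit 29103890043, nat_lit 29668026642], nat_lit 1271250, nat_lit 1271250, nat_lit 1271250, nat_lit 1271250, nat_lit 65850, nat_lit 1644350, [nat_lit 230000, nat_lit 1100000], [nat_lit 86, nat_lit 40, nat_lit 40, nat_lit 80, nat_lit 87, nat_lit 272, nat_lit 60, nat_lit 11]⟩, ⟨p105_k21, nat_lit 0, nat_lit 0, nat_lit 81, nat_lit 0, nat_lit 0, [nat_lit 6250000000, nat_lit 11872000000], [], [nat_lit 13849768460, nat_lit 16108728340, nat_lit 22249579072, nat_lit 23735655796, nat_lit 28155021670, nat_lit 29033418768, nat_lit 33338516351, nat_lit 33971646061], nat_lit 0, nat_lit 0, nat_lit 0, nat_lit 0, nat_lit 0, nat_lit 0, [], [nat_lit 107, nat_lit 40, nat_lit 40, nat_lit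 80, nat_lit 12, nat_lit 483, nat_lit 250, nat_lit 12]⟩,
 zbF0, [⟨nat_lit 16, nat_lit 48, nat_lit 100, nat_lit 87, nat_lit 305497942⟩, ⟨nat_lit 19, nat_lit 100, nat_lit 40, nat_lit 92, nat_lit 530046228⟩]⟩
noncomputable def p105_l120 : Lf2 := ⟨nat_lit 0, nat_lit 10, [nat_lit 0, nat_lit 5, nat_lit 5, nat_lit 20], false, nat_lit 20, nat_lit 208, nat_lit 160, nat_lit 384, ⟨nat_lit 1000, nat_lit 0, nat_lit 0, nat_lit 0, nat_lit 0, nat_lit 0, nat_lit 0, nat_lit 0, nat_lit 0, nat_lit 0, nat_lit 0, nat_lit 0, nat_lit 0, nat_lit 0, nat_lit 0, nat_lit 0, false, false⟩,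
 nat_lit 0, nat_lit 4141, nat_lit 0, nat_lit 0, nat_lit 3869, nat_lit 7708, nat_lit 543, nat_lit 0, nat_lit 0, nat_lit 0, nat_lit 0, nat_lit 0, nat_lit 0, nat_lit 0, nat_lit 0, nat_lit 0, nat_lit 0, nat_lit 0, [],
 ⟨p105_k25, nat_lit 0, nat_lit 0, nat_lit 375, nat_lit 0, nat_lit 918872, [nat_lit 938000000, nat_lit 3282000000], [], [nat_lit 25922301916, nat_lit 27752118522, nat_lit 30054730803, nat_lit 31549337383, nat_lit 25541101534, nat_lit 26521712224, nat_lit 28466168319, nat_lit 29683014736], nat_lit 1271250, nat_lit 1271250, nat_lit 1271250, nat_lit 1271250, nat_lit 111251, nat_lit 1474250, [nat_lit 230000, nat_lit 780000], [nat_lit 66, nat_lit 40, nat_lit 40, nat_lit 80, nat_lit 67, nat_lit 272, nat_lit 60, nat_lit 14]⟩, ⟨p105_k21, nat_lit 0, nat_lit 0, nat_lit 77, nat_lit 0, nat_lit 0, [nat_lit 6250000000, nat_lit 11872000000], [], [nat_lit 13521295760, nat_lit 15811465040, nat_lit 20526101322, nat_lit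 22155237754, nat_lit 28048047818, nat_lit 29194339556, nat_lit 32503737839, nat_lit 33218391042], nat_lit 0, nat_lit 0, nat_lit 0, nat_lit 0, nat_lit 0, nat_lit 0, [], [nat_lit 107, nat_lit 40, nat_lit 40, nat_lit 80, nat_lit 12, nat_lit 483, nat_lit 250, nat_lit 12]⟩,
 zbF0, [⟨nat_lit 13, nat_lit 31, nat_lit 92, nat_lit 100, nat_lit 231699253⟩, ⟨nat_lit 16, nat_lit 32, nat_lit 100, nat_lit 88, nat_lit 462651510⟩, ⟨nat_lit 19, nat_lit 100, nat_lit 40, nat_lit 92, nat_lit 565627468⟩]⟩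
noncomputable def b_V_900_500_20_1 : St := ⟨true, nat_lit 1, nat_lit 0, nat_lit 1, nat_lit 120, nat_lit 360, nat_lit 400, nat_lit 200, nat_lit 240, nat_lit 80, nat_lit 352, nat_lit 80, nat_lit 120, nat_lit 8, nat_lit 248, nat_lit 0, nat_lit 384, nat_lit 0, nat_lit 40, nat_lit 0, nat_lit 0, nat_lit 0, nat_lit 0⟩
theorem d_V_900_500_20_1 (h : EB TB.env) : Dead b_V_900_500_20_1 := chkB_sound0 h (T :=
(.spl (nat_lit 2) (nat_lit 240)
(.spl (nat_lit 0) (nat_lit 380)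
(.spl (nat_lit 4) (nat_lit 160)
(.spl (nat_lit 2) (nat_lit 160)
(.spl (nat_lit 1) (nat_lit 220)
(.spl (nat_lit 0) (nat_lit 370)
(.leaf p105_l102)
(.trZ (nat_lit 0) (nat_lit 100) (nat_lit 53) (nat_lit 85) (nat_lit 92) (.trZ (nat_lit 3) (nat_lit 100) (nat_lit 66) (nat_lit 45) (nat_lit 12) (.leaf p105_l103))))
(.trZ (nat_lit 0) (nat_lit 100) (nat_lit 60) (nat_lit 86) (nat_lit 96) (.trX (nat_lit 19) (nat_lit 100) (nat_lit 49) (nat_lit 92) (nat_lit 376) (.leaf p105_l104))))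
(.spl (nat_lit 0) (nat_lit 370)
(.leaf p105_l105)
(.trZ (nat_lit 3) (nat_lit 100) (nat_lit 66) (nat_lit 45) (nat_lit 12) (.leaf p105_l106))))
(.spl (nat_lit 2) (nat_lit 160)
(.spl (nat_lit 1) (nat_lit 220)
(.leaf p105_l107)
(.trZ (nat_lit 0) (nat_lit 100) (nat_lit 60) (nat_lit 86) (nat_lit 96) (.trX (nat_lit 19) (nat_lit 100) (nat_lit 49) (nat_lit 92) (nat_lit 376) (.spl (nat_lit 6) (nat_lit 20)
(.spl (nat_lit 0) (nat_lit 370)
(.leaf p105_l108)
(.trZ (nat_lit 0) (nat_lit 100) (nat_lit 53) (nat_lit 90) (nat_lit 112) (.trX (nat_lit 16) (nat_lit 53) (nat_lit 100) (nat_lit 93) (nat_lit 232) (.leaf p105_l109))))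
(.leaf p105_l110)))))
(.spl (nat_lit 5) (nat_lit 160)
(.leaf p105_l111)
(.leaf p105_l112))))
(.trZ (nat_lit 0) (nat_lit 100) (nat_lit 44) (nat_lit 90) (nat_lit 112) (.trZ (nat_lit 3) (nat_lit 100) (nat_lit 54) (nat_lit 57) (nat_lit 20) (.trX (nat_lit 16) (nat_lit 44) (nat_lit 100) (nat_lit 92) (nat_lit 208) (.spl (nat_lit 5) (nat_lit 160)
(.leaf p105_l113)
(.spl (nat_lit 0) (nat_lit 390)
(.spl (nat_lit 0) (nat_lit 385)
(.leaf p105_l114)
(.trZ (nat_lit 0) (nat_lit 100) (nat_lit 38) (nat_lit 93) (nat_lit 124) (.trZ (nat_lit 3) (nat_lit 100) (nat_lit 47) (nat_lit 64) (nat_lit 28) (.trX (nat_lit 16) (nat_lit 38) (nat_lit 100) (nat_lit 92) (nat_lit 196) (.leaf p105_l115)))))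
(.trZ (nat_lit 0) (nat_lit 100) (nat_lit 31) (nat_lit 95) (nat_lit 136) (.trZ (nat_lit 3) (nat_lit 100) (nat_lit 39) (nat_lit 72) (nat_lit 36) (.trX (nat_lit 16) (nat_lit 31) (nat_lit 100) (nat_lit 92) (nat_lit 184) (.leaf p105_l116))))))))))
(.spl (nat_lit 5) (nat_lit 160)
(.leaf p105_l117)
(.spl (nat_lit 0) (nat_lit 380)
(.spl (nat_lit 0) (nat_lit 370)
(.leaf p105_l118)
(.trX (nat_lit 13) (nat_lit 54) (nat_lit 74) (nat_lit 100) (nat_lit 340) (.trZ (nat_lit 3) (nat_lit 100) (nat_lit 66) (nat_lit 45) (nat_lit 12) (.trX (nat_lit 16) (nat_lit 53) (nat_lit 100) (nat_lit 93) (nat_lit 232) (.leaf p105_l119)))))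
(.trX (nat_lit 13) (nat_lit 44) (nat_lit 81) (nat_lit 100) (nat_lit 324) (.trZ (nat_lit 3) (nat_lit 100) (nat_lit 54) (nat_lit 57) (nat_lit 20) (.trX (nat_lit 16) (nat_lit 44) (nat_lit 100) (nat_lit 92) (nat_lit 208) (.leaf p105_l120)))))))) (by decide +kernel)
noncomputable def p105_l121 : Lf2 := ⟨nat_lit 0, nat_lit 10, [nat_lit 0, nat_lit 5, nat_lit 5, nat_lit 20], false, nat_lit 8, nat_lit 80, nat_lit 0, nat_lit 384, ⟨nat_lit 0, nat_lit 483, nat_lit 517, nat_lit 5, nat_lit 185, nat_lit 1000, nat_lit 43, nat_lit 517, nat_lit 17067, nat_lit 247, nat_lit 417, nat_lit 210, nat_lit 53923142, nat_lit 11824142, nat_lit 1252716, nat_lit 2872884, false, false⟩,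
 nat_lit 0, nat_lit 2957, nat_lit 0, nat_lit 0, nat_lit 2575, nat_lit 0, nat_lit 0, nat_lit 0, nat_lit 0, nat_lit 0, nat_lit 0, nat_lit 0, nat_lit 0, nat_lit 0, nat_lit 9, nat_lit 327550, nat_lit 0, nat_lit 0, [(nat_lit 24, [(nat_lit 0, nat_lit 483), (nat_lit 5, nat_lit 517)])],
 ⟨p105_k22, nat_lit 0, nat_lit 0, nat_lit 282, nat_lit 0, nat_lit 480021, [nat_lit 781415201, nat_lit 368130667, nat_lit 18563733], [], [nat_lit 18806441841, nat_lit 19758399091, nat_lit 22275124804, nat_lit 22852988467, nat_lit 18668450505, nat_lit 19279001555, nat_lit 22116224674, nat_lit 22661774174], nat_lit 1271250, nat_lit 1271250, nat_lit 490000, nat_lit 1740000, nat_lit 43600, nat_lit 490000, [nat_lit 230000, nat_lit 780000, nat_lit 1100000], [nat_lit 35, nat_lit 40, nat_lit 40, nat_lit 80, nat_lit 22, nat_lit 317, nat_lit 100, nat_lit 15]⟩, ⟨p105_k24, nat_lit 0, nat_lit 0, nat_lit 891, nat_lit 0, nat_lit 1186822, [nat_lit 0,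 nat_lit 0, nat_lit 0], [], [nat_lit 0, nat_lit 0, nat_lit 0, nat_lit 0, nat_lit 0, nat_lit 0, nat_lit 0, nat_lit 0], nat_lit 1271250, nat_lit 1271250, nat_lit 490000, nat_lit 1740000, nat_lit 0, nat_lit 2712000, [nat_lit 1412500, nat_lit 1271250, nat_lit 1271250], [nat_lit 46, nat_lit 40, nat_lit 40, nat_lit 80, nat_lit 41, nat_lit 456, nat_lit 225, nat_lit 12]⟩,
 ⟨nat_lit 2738, nat_lit 3163, ⟨.ofNat (nat_lit 317085), .ofNat (nat_lit 560952), .ofNat (nat_lit 361370), .ofNat (nat_lit 605257), .ofNat (nat_lit 322761), .ofNat (nat_lit 559060), .ofNat (nat_lit 367571), .ofNat (nat_lit 603890)⟩, ⟨.ofNat (nat_lit 20000), .ofNat (nat_lit 184209), .ofNat (nat_lit 20000), .ofNat (nat_lit 200000), .ofNat (nat_lit 20000), .ofNat (nat_lit 188310), .ofNat (nat_lit 20000), .ofNat (nat_lit 200000)⟩⟩, [⟨nat_lit 3, nat_lit 100, nat_lit 57, nat_lit 62, nat_lit 235848806⟩]⟩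
noncomputable def p105_l122 : Lf2 := ⟨nat_lit 0, nat_lit 10, [nat_lit 0, nat_lit 5, nat_lit 5, nat_lit 20], false, nat_lit 12, nat_lit 80, nat_lit 0, nat_lit 384, ⟨nat_lit 0, nat_lit 1000, nat_lit 0, nat_lit 5, nat_lit 189, nat_lit 1000, nat_lit 45, nat_lit 0, nat_lit 0, nat_lit 0, nat_lit 0, nat_lit 0, nat_lit 53366424, nat_lit 12272745, nat_lit 1360831, nat_lit 2959455, false, false⟩,
 nat_lit 0, nat_lit 3068, nat_lit 0, nat_lit 0, nat_lit 2768, nat_lit 0, nat_lit 284, nat_lit 0, nat_lit 0, nat_lit 0, nat_lit 0, nat_lit 0, nat_lit 0, nat_lit 0, nat_lit 0, nat_lit 250000, nat_lit 0, nat_lit 0, [(nat_lit 24, [(nat_lit 0, nat_lit 1000)])],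
 ⟨p105_k26, nat_lit 0, nat_lit 0, nat_lit 292, nat_lit 0, nat_lit 514080, [nat_lit 763200001, nat_lit 1367200000, nat_lit 1705600000], [], [nat_lit 20141339280, nat_lit 21099891455, nat_lit 23389529448, nat_lit 23937918113, nat_lit 19992291787, nat_lit 20629046981, nat_lit 23148031902, nat_lit 23683317600], nat_lit 1271250, nat_lit 1271250, nat_lit 573850, nat_lit 1746750, nat_lit 65850, nat_lit 490000, [nat_lit 230000, nat_lit 780000, nat_lit 1100000], [nat_lit 35, nat_lit 40, nat_lit 40, nat_lit 80, nat_lit 22, nat_lit 317, nat_lit 100, nat_lit 14]⟩, ⟨p105_k24, nat_lit 0, nat_lit 0, nat_lit 948, nat_lit 0, nat_lit 1326196, [nat_lit 0, nat_lit 0, nat_lit 0], [], [nat_lit 0, nat_lit 0, nat_lit 0, nat_lit 0, nat_lit 0, nat_lit 0, nat_lit 0, nat_lit 0], nat_lit 1271250, nat_lit 1271250, nat_lit 573850, nat_lit 1746750, nat_lit 0, nat_lit 2712000, [nat_lit 1412500, nat_lit 1271250, nat_lit 1271250], [nat_lit 46,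 nat_lit 40, nat_lit 40, nat_lit 80, nat_lit 41, nat_lit 456, nat_lit 225, nat_lit 12]⟩,
 ⟨nat_lit 2236, nat_lit 2739, ⟨.ofNat (nat_lit 340439), .ofNat (nat_lit 559060), .ofNat (nat_lit 385234), .ofNat (nat_lit 603890), .ofNat (nat_lit 345963), .ofNat (nat_lit 557014), .ofNat (nat_lit 391471), .ofNat (nat_lit 602558)⟩, ⟨.ofNat (nat_lit 30000), .ofNat (nat_lit 188310), .ofNat (nat_lit 30000), .ofNat (nat_lit 200000), .ofNat (nat_lit 30000), .ofNat (nat_lit 192306), .ofNat (nat_lit 30000), .ofNat (nat_lit 200000)⟩⟩, [⟨nat_lit 3, nat_lit 100, nat_lit 48, nat_lit 71, nat_lit 272781649⟩]⟩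
noncomputable def p105_l123 : Lf2 := ⟨nat_lit 0, nat_lit 10, [nat_lit 0, nat_lit 5, nat_lit 5, nat_lit 20], false, nat_lit 20, nat_lit 80, nat_lit 0, nat_lit 384, ⟨nat_lit 0, nat_lit 1000, nat_lit 0, nat_lit 5, nat_lit 196, nat_lit 1000, nat_lit 50, nat_lit 0, nat_lit 0, nat_lit 0, nat_lit 0, nat_lit 0, nat_lit 52496337, nat_lit 12930068, nat_lit 1573595, nat_lit 3099011, false, false⟩,
 nat_lit 0, nat_lit 2771, nat_lit 0, nat_lit 0, nat_lit 2589, nat_lit 0, nat_lit 38, nat_lit 0, nat_lit 0, nat_lit 0, nat_lit 0, nat_lit 0, nat_lit 0, nat_lit 0, nat_lit 0, nat_lit 400000, nat_lit 0, nat_lit 0, [(nat_lit 27, [(nat_lit 1, nat_lit 1000)])],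
 ⟨p105_k25, nat_lit 0, nat_lit 0, nat_lit 276, nat_lit 0, nat_lit 599149, [nat_lit 697600000, nat_lit 324400000], [], [nat_lit 20677665002, nat_lit 22331731450, nat_lit 23710250893, nat_lit 24886883586, nat_lit 20660620510, nat_lit 21898129745, nat_lit 23583694940, nat_lit 24703408368], nat_lit 1271250, nat_lit 1271250, nat_lit 719601, nat_lit 1758000, nat_lit 111251, nat_lit 490000, [nat_lit 230000, nat_lit 780000], [nat_lit 66, nat_lit 40, nat_lit 40, nat_lit 80, nat_lit 67, nat_lit 317, nat_lit 100, nat_lit 18]⟩, ⟨p105_k24, nat_lit 0, nat_lit 0, nat_lit 1066, nat_lit 0, nat_lit 1611074, [nat_lit 0, nat_lit 0, nat_lit 0], [], [nat_lit 0, nat_lit 0, nat_lit 0, nat_lit 0, nat_lit 0, nat_lit 0, nat_lit 0, nat_lit 0], nat_lit 1271250, nat_lit 1271250, nat_lit 719601, nat_lit 1758000, nat_lit 0, nat_lit 2712000, [nat_lit 1412500, nat_lit 1271250, nat_lit 1271250], [nat_lit 46, nat_lit 40, nat_lit 40, nat_lit 80,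 nat_lit 41, nat_lit 456, nat_lit 225, nat_lit 12]⟩,
 ⟨nat_lit 0, nat_lit 2237, ⟨.ofNat (nat_lit 370513), .ofNat (nat_lit 557013), .ofNat (nat_lit 414208), .ofNat (nat_lit 602531), .ofNat (nat_lit 385947), .ofNat (nat_lit 549998), .ofNat (nat_lit 434094), .ofNat (nat_lit 599967)⟩, ⟨.ofNat (nat_lit 50000), .ofNat (nat_lit 192306), .ofNat (nat_lit 50000), .ofNat (nat_lit 200000), .ofNat (nat_lit 50000), .ofNat (nat_lit 199999), .ofNat (nat_lit 50000), .ofNat (nat_lit 200000)⟩⟩, [⟨nat_lit 3, nat_lit 100, nat_lit 36, nat_lit 77, nat_lit 331860664⟩]⟩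
noncomputable def p105_l124 : Lf2 := ⟨nat_lit 0, nat_lit 10, [nat_lit 0, nat_lit 5, nat_lit 5, nat_lit 20], false, nat_lit 80, nat_lit 160, nat_lit 0, nat_lit 384, ⟨nat_lit 0, nat_lit 566, nat_lit 434, nat_lit 5, nat_lit 185, nat_lit 1000, nat_lit 105, nat_lit 434, nat_lit 101400, nat_lit 293, nat_lit 417, nat_lit 210, nat_lit 50390826, nat_lit 11766915, nat_lit 4842259, nat_lit 3773242, false, false⟩,
 nat_lit 0, nat_lit 3367, nat_lit 0, nat_lit 0, nat_lit 2932, nat_lit 0, nat_lit 0, nat_lit 0, nat_lit 0, nat_lit 0, nat_lit 0, nat_lit 0, nat_lit 0, nat_lit 0, nat_lit 0, nat_lit 315100, nat_lit 0, nat_lit 0, [(nat_lit 24, [(nat_lit 0, nat_lit 566), (nat_lit 5, nat_lit 434)])],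
 ⟨p105_k22, nat_lit 0, nat_lit 0, nat_lit 262, nat_lit 0, nat_lit 536393, [nat_lit 748270401, nat_lit 437861334, nat_lit 168007466], [], [nat_lit 18080054901, nat_lit 19612883032, nat_lit 21345911557, nat_lit 22624007536, nat_lit 19256556821, nat_lit 20431381421, nat_lit 22231418589, nat_lit 23282496512], nat_lit 1271250, nat_lit 1271250, nat_lit 490000, nat_lit 1740000, nat_lit 490000, nat_lit 1100001, [nat_lit 230000, nat_lit 780000, nat_lit 1100000], [nat_lit 35, nat_lit 40, nat_lit 40, nat_lit 80, nat_lit 22, nat_lit 317, nat_lit 100, nat_lit 14]⟩, ⟨p105_k24, nat_lit 0, nat_lit 0, nat_lit 962, nat_lit 0, nat_lit 1326196, [nat_lit 0, nat_lit 0, nat_lit 0], [], [nat_lit 0, nat_lit 0, nat_lit 0, nat_lit 0, nat_lit 0, nat_lit 0, nat_lit 0, nat_lit 0], nat_lit 1271250, nat_lit 1271250, nat_lit 490000, nat_lit 1740000, nat_lit 0, nat_lit 2712000, [nat_lit 1412500, nat_lit 1271250, nat_lit 1271250], [nat_lit 46,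 nat_lit 40, nat_lit 40, nat_lit 80, nat_lit 41, nat_lit 456, nat_lit 225, nat_lit 12]⟩,
 ⟨nat_lit 2236, nat_lit 3163, ⟨.ofNat (nat_lit 316827), .ofNat (nat_lit 560952), .ofNat (nat_lit 361011), .ofNat (nat_lit 605240), .ofNat (nat_lit 328641), .ofNat (nat_lit 557014), .ofNat (nat_lit 374063), .ofNat (nat_lit 602541)⟩, ⟨.ofNat (nat_lit 184209), .ofNat (nat_lit 306116), .ofNat (nat_lit 200000), .ofNat (nat_lit 350426), .ofNat (nat_lit 192306), .ofNat (nat_lit 306337), .ofNat (nat_lit 200000), .ofNat (nat_lit 351886)⟩⟩, []⟩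
noncomputable def p105_l125 : Lf2 := ⟨nat_lit 0, nat_lit 10, [nat_lit 0, nat_lit 5, nat_lit 5, nat_lit 20], false, nat_lit 80, nat_lit 160, nat_lit 0, nat_lit 384, ⟨nat_lit 0, nat_lit 1000, nat_lit 0, nat_lit 5, nat_lit 196, nat_lit 1000, nat_lit 105, nat_lit 0, nat_lit 0, nat_lit 0, nat_lit 0, nat_lit 0, nat_lit 49392017, nat_lit 12759842, nat_lit 4848141, nat_lit 3884353, false, false⟩,
 nat_lit 0, nat_lit 2945, nat_lit 0, nat_lit 0, nat_lit 2751, nat_lit 0, nat_lit 0, nat_lit 0, nat_lit 0, nat_lit 0, nat_lit 0, nat_lit 0, nat_lit 0, nat_lit 0, nat_lit 0, nat_lit 400000, nat_lit 0, nat_lit 0, [(nat_lit 27, [(nat_lit 1, nat_lit 1000)])],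
 ⟨p105_k25, nat_lit 0, nat_lit 0, nat_lit 244, nat_lit 0, nat_lit 599149, [nat_lit 697600000, nat_lit 324400000], [], [nat_lit 19829671718, nat_lit 21240965861, nat_lit 22789407394, nat_lit 23890338092, nat_lit 21022002772, nat_lit 22211194828, nat_lit 23733354138, nat_lit 24775674624], nat_lit 1271250, nat_lit 1271250, nat_lit 719601, nat_lit 1758000, nat_lit 490000, nat_lit 1100001, [nat_lit 230000, nat_lit 780000], [nat_lit 66, nat_lit 40, nat_lit 40, nat_lit 80, nat_lit 67, nat_lit 317, nat_lit 100, nat_lit 18]⟩, ⟨p105_k24, nat_lit 0, nat_lit 0, nat_lit 1066, nat_lit 0, nat_lit 1611074, [nat_lit 0, nat_lit 0, nat_lit 0], [], [nat_lit 0, nat_lit 0, nat_lit 0, nat_lit 0, nat_lit 0, nat_lit 0, nat_lit 0, nat_lit 0], nat_lit 1271250, nat_lit 1271250, nat_lit 719601, nat_lit 1758000, nat_lit 0, nat_lit 2712000, [nat_lit 1412500, nat_lit 1271250, nat_lit 1271250], [nat_lit 46, nat_lit 40, nat_lit 40, nat_lit 80,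 nat_lit 41, nat_lit 456, nat_lit 225, nat_lit 12]⟩,
 ⟨nat_lit 0, nat_lit 2237, ⟨.ofNat (nat_lit 370513), .ofNat (nat_lit 557013), .ofNat (nat_lit 414208), .ofNat (nat_lit 602531), .ofNat (nat_lit 385947), .ofNat (nat_lit 549998), .ofNat (nat_lit 434094), .ofNat (nat_lit 599967)⟩, ⟨.ofNat (nat_lit 192306), .ofNat (nat_lit 306334), .ofNat (nat_lit 200000), .ofNat (nat_lit 351885), .ofNat (nat_lit 199999), .ofNat (nat_lit 299996), .ofNat (nat_lit 200000), .ofNat (nat_lit 349998)⟩⟩, [⟨nat_lit 4, nat_lit 100, nat_lit 32, nat_lit 88, nat_lit 39766332⟩]⟩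
noncomputable def p105_l126 : Lf2 := ⟨nat_lit 0, nat_lit 10, [nat_lit 0, nat_lit 5, nat_lit 5, nat_lit 20], false, nat_lit 160, nat_lit 248, nat_lit 0, nat_lit 384, ⟨nat_lit 0, nat_lit 734, nat_lit 266, nat_lit 5, nat_lit 185, nat_lit 1000, nat_lit 157, nat_lit 266, nat_lit 61189, nat_lit 275, nat_lit 417, nat_lit 210, nat_lit 46688728, nat_lit 11448437, nat_lit 8862835, nat_lit 4407361, false, false⟩,
 nat_lit 0, nat_lit 3446, nat_lit 0, nat_lit 0, nat_lit 3001, nat_lit 0, nat_lit 95, nat_lit 0, nat_lit 0, nat_lit 0, nat_lit 0, nat_lit 0, nat_lit 0, nat_lit 0, nat_lit 0, nat_lit 289900, nat_lit 0, nat_lit 0, [(nat_lit 24, [(nat_lit 0, nat_lit 734), (nat_lit 5, nat_lit 266)])],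
 ⟨p105_k22, nat_lit 0, nat_lit 0, nat_lit 242, nat_lit 0, nat_lit 536393, [nat_lit 754049601, nat_lit 797605334, nat_lit 762044800], [], [nat_lit 19707544504, nat_lit 20831970876, nat_lit 22498047124, nat_lit 23469685031, nat_lit 21951832954, nat_lit 23058229363, nat_lit 24500661029, nat_lit 25431848331], nat_lit 1271250, nat_lit 1271250, nat_lit 490000, nat_lit 1740000, nat_lit 1100001, nat_lit 1853500, [nat_lit 230000, nat_lit 780000, nat_lit 1100000], [nat_lit 35, nat_lit 40, nat_lit 40, nat_lit 80, nat_lit 22, nat_lit 272, nat_lit 60, nat_lit 11]⟩, ⟨p105_k24, nat_lit 0, nat_lit 0, nat_lit 962, nat_lit 0, nat_lit 1326196, [nat_lit 0, nat_lit 0, nat_lit 0], [], [nat_lit 0, nat_lit 0, nat_lit 0, nat_lit 0, nat_lit 0, nat_lit 0, nat_lit 0, nat_lit 0], nat_lit 1271250, nat_lit 1271250, nat_lit 490000, nat_lit 1740000, nat_lit 0, nat_lit 2712000, [nat_lit 1412500, nat_lit 1271250, nat_lit 1271250], [nat_lit 46,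 nat_lit 40, nat_lit 40, nat_lit 80, nat_lit 41, nat_lit 456, nat_lit 225, nat_lit 12]⟩,
 ⟨nat_lit 2236, nat_lit 3163, ⟨.ofNat (nat_lit 316827), .ofNat (nat_lit 560952), .ofNat (nat_lit 361011), .ofNat (nat_lit 605240), .ofNat (nat_lit 328641), .ofNat (nat_lit 557014), .ofNat (nat_lit 374063), .ofNat (nat_lit 602541)⟩, ⟨.ofNat (nat_lit 306116), .ofNat (nat_lit 440213), .ofNat (nat_lit 350426), .ofNat (nat_lit 484523), .ofNat (nat_lit 306337), .ofNat (nat_lit 431772), .ofNat (nat_lit 351886), .ofNat (nat_lit 477320)⟩⟩, [⟨nat_lit 16, nat_lit 53, nat_lit 100, nat_lit 87, nat_lit 272041206⟩]⟩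
noncomputable def p105_l127 : Lf2 := ⟨nat_lit 0, nat_lit 10, [nat_lit 0, nat_lit 5, nat_lit 5, nat_lit 20], false, nat_lit 160, nat_lit 208, nat_lit 0, nat_lit 384, ⟨nat_lit 0, nat_lit 1000, nat_lit 0, nat_lit 5, nat_lit 196, nat_lit 1000, nat_lit 144, nat_lit 0, nat_lit 0, nat_lit 0, nat_lit 0, nat_lit 0, nat_lit 46805934, nat_lit 12498140, nat_lit 7695926, nat_lit 4353378, false, false⟩,
 nat_lit 0, nat_lit 2966, nat_lit 0, nat_lit 0, nat_lit 2771, nat_lit 0, nat_lit 0, nat_lit 0, nat_lit 0, nat_lit 0, nat_lit 0, nat_lit 0, nat_lit 0, nat_lit 0, nat_lit 0, nat_lit 400000, nat_lit 0, nat_lit 0, [(nat_lit 27, [(nat_lit 1, nat_lit 1000)])],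
 ⟨p105_k25, nat_lit 0, nat_lit 0, nat_lit 222, nat_lit 0, nat_lit 599149, [nat_lit 697600000, nat_lit 324400000], [], [nat_lit 20566824945, nat_lit 21861096308, nat_lit 23312248362, nat_lit 24422813440, nat_lit 21821090093, nat_lit 23117929820, nat_lit 24420365045, nat_lit 25456795792], nat_lit 1271250, nat_lit 1271250, nat_lit 719601, nat_lit 1758000, nat_lit 1100001, nat_lit 1511000, [nat_lit 230000, nat_lit 780000], [nat_lit 66, nat_lit 40, nat_lit 40, nat_lit 80, nat_lit 67, nat_lit 272, nat_lit 60, nat_lit 14]⟩, ⟨p105_k24, nat_lit 0, nat_lit 0, nat_lit 1066, nat_lit 0, nat_lit 1611074, [nat_lit 0, nat_lit 0, nat_lit 0], [], [nat_lit 0, nat_lit 0, nat_lit 0, nat_lit 0, nat_lit 0, nat_lit 0, nat_lit 0, nat_lit 0], nat_lit 1271250, nat_lit 1271250, nat_lit 719601, nat_lit 1758000, nat_lit 0, nat_lit 2712000, [nat_lit 1412500, nat_lit 1271250, nat_lit 1271250], [nat_lit 46, nat_lit 40, nat_lit 40, nat_lit 80,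 nat_lit 41, nat_lit 456, nat_lit 225, nat_lit 12]⟩,
 ⟨nat_lit 0, nat_lit 2237, ⟨.ofNat (nat_lit 370513), .ofNat (nat_lit 557013), .ofNat (nat_lit 414208), .ofNat (nat_lit 602531), .ofNat (nat_lit 385947), .ofNat (nat_lit 549998), .ofNat (nat_lit 434094), .ofNat (nat_lit 599967)⟩, ⟨.ofNat (nat_lit 306334), .ofNat (nat_lit 374750), .ofNat (nat_lit 351885), .ofNat (nat_lit 420300), .ofNat (nat_lit 299996), .ofNat (nat_lit 359993), .ofNat (nat_lit 349998), .ofNat (nat_lit 409994)⟩⟩, [⟨nat_lit 16, nat_lit 32, nat_lit 100, nat_lit 88, nat_lit 73701098⟩, ⟨nat_lit 16, nat_lit 44, nat_lit 100, nat_lit 92, nat_lit 260703867⟩]⟩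
noncomputable def p105_l128 : Lf2 := ⟨nat_lit 0, nat_lit 10, [nat_lit 0, nat_lit 5, nat_lit 5, nat_lit 20], false, nat_lit 8, nat_lit 80, nat_lit 0, nat_lit 336, ⟨nat_lit 133, nat_lit 867, nat_lit 0, nat_lit 6, nat_lit 257, nat_lit 867, nat_lit 43, nat_lit 0, nat_lit 0, nat_lit 0, nat_lit 0, nat_lit 0, nat_lit 46383339, nat_lit 19409422, nat_lit 1207239, nat_lit 3533253, true, true⟩,
 nat_lit 3386, nat_lit 0, nat_lit 0, nat_lit 0, nat_lit 2949, nat_lit 1451, nat_lit 114, nat_lit 0, nat_lit 0, nat_lit 120, nat_lit 0, nat_lit 0, nat_lit 0, nat_lit 0, nat_lit 0, nat_lit 388800, nat_lit 0, nat_lit 0, [(nat_lit 24, [(nat_lit 1, nat_lit 797), (nat_lit 2, nat_lit 70)])],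
 ⟨p105_k22, nat_lit 0, nat_lit 0, nat_lit 271, nat_lit 0, nat_lit 456750, [nat_lit 903370000, nat_lit 1198284667, nat_lit 1237776800], [], [nat_lit 24482877636, nat_lit 24973718955, nat_lit 27753288922, nat_lit 28191949204, nat_lit 24092158875, nat_lit 24569333828, nat_lit 27229337067, nat_lit 27671223084], nat_lit 1271250, nat_lit 1271250, nat_lit 1271250, nat_lit 1271250, nat_lit 43600, nat_lit 490000, [nat_lit 230000, nat_lit 780000, nat_lit 1100000], [nat_lit 35, nat_lit 40, nat_lit 40, nat_lit 80, nat_lit 22, nat_lit 226, nat_lit 20, nat_lit 9]⟩, ⟨p105_k24, nat_lit 0, nat_lit 0, nat_lit 791, nat_lit 0, nat_lit 1129284, [nat_lit 831250000, nat_lit 1308986000, nat_lit 1578976000], [], [nat_lit 5469444268, nat_lit 5445125412, nat_lit 5541150867, nat_lit 5521517595, nat_lit 4620784929, nat_lit 4220317173, nat_lit 4398599030, nat_lit 4390085795], nat_lit 1271250, nat_lit 1271250, nat_lit 1271250, nat_lit 1271250,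 nat_lit 0, nat_lit 2373000, [nat_lit 1412500, nat_lit 1271250, nat_lit 1271250], [nat_lit 46, nat_lit 40, nat_lit 40, nat_lit 80, nat_lit 41, nat_lit 456, nat_lit 225, nat_lit 12]⟩,
 ⟨nat_lit 2738, nat_lit 3163, ⟨.ofNat (nat_lit 560952), .ofNat (nat_lit 707240), .ofNat (nat_lit 583107), .ofNat (nat_lit 729395), .ofNat (nat_lit 559060), .ofNat (nat_lit 700807), .ofNat (nat_lit 581477), .ofNat (nat_lit 723224)⟩, ⟨.ofNat (nat_lit 20000), .ofNat (nat_lit 184209), .ofNat (nat_lit 20000), .ofNat (nat_lit 200000), .ofNat (nat_lit 20000), .ofNat (nat_lit 188310), .ofNat (nat_lit 20000), .ofNat (nat_lit 200000)⟩⟩, [⟨nat_lit 13, nat_lit 57, nat_lit 80, nat_lit 100, nat_lit 130907965⟩, ⟨nat_lit 3, nat_lit 100, nat_lit 57, nat_lit 62, nat_lit 171494149⟩, ⟨nat_lit 10, nat_lit 100, nat_lit 68, nat_lit 63, nat_lit 19647733⟩]⟩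
noncomputable def p105_l129 : Lf2 := ⟨nat_lit 0, nat_lit 10, [nat_lit 0, nat_lit 5, nat_lit 5, nat_lit 20], false, nat_lit 8, nat_lit 80, nat_lit 0, nat_lit 336, ⟨nat_lit 291, nat_lit 709, nat_lit 0, nat_lit 6, nat_lit 271, nat_lit 709, nat_lit 43, nat_lit 0, nat_lit 0, nat_lit 0, nat_lit 0, nat_lit 0, nat_lit 44969086, nat_lit 20840987, nat_lit 1189927, nat_lit 3616184, true, true⟩,
 nat_lit 4942, nat_lit 0, nat_lit 0, nat_lit 0, nat_lit 3193, nat_lit 2363, nat_lit 0, nat_lit 0, nat_lit 0, nat_lit 679, nat_lit 0, nat_lit 0, nat_lit 0, nat_lit 0, nat_lit 0, nat_lit 413200, nat_lit 0, nat_lit 0, [(nat_lit 24, [(nat_lit 1, nat_lit 493), (nat_lit 2, nat_lit 216)])],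
 ⟨p105_k22, nat_lit 0, nat_lit 0, nat_lit 281, nat_lit 0, nat_lit 480021, [nat_lit 1008110000, nat_lit 1344622534, nat_lit 1383028000], [], [nat_lit 25111625173, nat_lit 25611937578, nat_lit 29220122082, nat_lit 29702005210, nat_lit 24597964670, nat_lit 25070757175, nat_lit 28636179592, nat_lit 29092544202], nat_lit 1271250, nat_lit 1271250, nat_lit 1271250, nat_lit 1271250, nat_lit 43600, nat_lit 490000, [nat_lit 230000, nat_lit 780000, nat_lit 1100000], [nat_lit 35, nat_lit 40, nat_lit 40, nat_lit 80, nat_lit 22, nat_lit 226, nat_lit 20, nat_lit 9]⟩, ⟨p105_k27, nat_lit 0, nat_lit 0, nat_lit 734, nat_lit 0, nat_lit 1024031, [nat_lit 1818750000, nat_lit 2864022000, nat_lit 3454752000], [], [nat_lit 10207617240, nat_lit 10208268296, nat_lit 10596965312, nat_lit 10585178819, nat_lit 9551471256, nat_lit 8933412613, nat_lit 9264460033, nat_lit 9252219461], nat_lit 1271250, nat_lit 1271250, nat_lit 1271250, nat_lit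 1271250, nat_lit 0, nat_lit 2373000, [nat_lit 1412500, nat_lit 1271250, nat_lit 1271250], [nat_lit 46, nat_lit 40, nat_lit 40, nat_lit 80, nat_lit 41, nat_lit 483, nat_lit 250, nat_lit 12]⟩,
 ⟨nat_lit 2738, nat_lit 3163, ⟨.ofNat (nat_lit 583107), .ofNat (nat_lit 753776), .ofNat (nat_lit 605257), .ofNat (nat_lit 775931), .ofNat (nat_lit 581477), .ofNat (nat_lit 746849), .ofNat (nat_lit 603890), .ofNat (nat_lit 769266)⟩, ⟨.ofNat (nat_lit 20000), .ofNat (nat_lit 184209), .ofNat (nat_lit 20000), .ofNat (nat_lit 200000), .ofNat (nat_lit 20000), .ofNat (nat_lit 188310), .ofNat (nat_lit 20000), .ofNat (nat_lit 200000)⟩⟩, [⟨nat_lit 22, nat_lit 89, nat_lit 100, nat_lit 34, nat_lit 47881793⟩, ⟨nat_lit 22, nat_lit 89, nat_lit 100, nat_lit 64, nat_lit 36303607⟩]⟩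
noncomputable def p105_l130 : Lf2 := ⟨nat_lit 0, nat_lit 10, [nat_lit 0, nat_lit 5, nat_lit 5, nat_lit 20], false, nat_lit 12, nat_lit 80, nat_lit 0, nat_lit 336, ⟨nat_lit 118, nat_lit 882, nat_lit 0, nat_lit 6, nat_lit 252, nat_lit 882, nat_lit 45, nat_lit 0, nat_lit 0, nat_lit 0, nat_lit 0, nat_lit 0, nat_lit 46831262, nat_lit 18851948, nat_lit 1316790, nat_lit 3531855, true, true⟩,
 nat_lit 3070, nat_lit 0, nat_lit 0, nat_lit 0, nat_lit 2770, nat_lit 1315, nat_lit 326, nat_lit 0, nat_lit 0, nat_lit 110, nat_lit 0, nat_lit 0, nat_lit 0, nat_lit 0, nat_lit 0, nat_lit 220500, nat_lit 0, nat_lit 0, [(nat_lit 24, [(nat_lit 0, nat_lit 882)])],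
 ⟨p105_k26, nat_lit 0, nat_lit 0, nat_lit 280, nat_lit 0, nat_lit 494810, [nat_lit 783826401, nat_lit 1593146400, nat_lit 2057523200], [], [nat_lit 24085564230, nat_lit 24647873277, nat_lit 27168875359, nat_lit 27650367575, nat_lit 23917746979, nat_lit 24449517209, nat_lit 26858618979, nat_lit 27315880602], nat_lit 1271250, nat_lit 1271250, nat_lit 1271250, nat_lit 1271250, nat_lit 65850, nat_lit 490000, [nat_lit 230000, nat_lit 780000, nat_lit 1100000], [nat_lit 35, nat_lit 40, nat_lit 40, nat_lit 80, nat_lit 22, nat_lit 226, nat_lit 20, nat_lit 9]⟩, ⟨p105_k24, nat_lit 0, nat_lit 0, nat_lit 860, nat_lit 0, nat_lit 1276484, [nat_lit 737500000, nat_lit 1161356000, nat_lit 1400896000], [], [nat_lit 4733293948, nat_lit 4710431036, nat_lit 4790747433, nat_lit 4774311882, nat_lit 4082413648, nat_lit 3632906256, nat_lit 3797020089, nat_lit 3791201318], nat_lit 1271250, nat_lit 1271250, nat_lit 1271250, nat_lit 1271250,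 nat_lit 0, nat_lit 2373000, [nat_lit 1412500, nat_lit 1271250, nat_lit 1271250], [nat_lit 46, nat_lit 40, nat_lit 40, nat_lit 80, nat_lit 41, nat_lit 456, nat_lit 225, nat_lit 12]⟩,
 ⟨nat_lit 2236, nat_lit 2739, ⟨.ofNat (nat_lit 559060), .ofNat (nat_lit 683089), .ofNat (nat_lit 581477), .ofNat (nat_lit 705506), .ofNat (nat_lit 557014), .ofNat (nat_lit 676747), .ofNat (nat_lit 579788), .ofNat (nat_lit 699521)⟩, ⟨.ofNat (nat_lit 30000), .ofNat (nat_lit 188310), .ofNat (nat_lit 30000), .ofNat (nat_lit 200000), .ofNat (nat_lit 30000), .ofNat (nat_lit 192306), .ofNat (nat_lit 30000), .ofNat (nat_lit 200000)⟩⟩, [⟨nat_lit 13, nat_lit 48, nat_lit 85, nat_lit 100, nat_lit 212933642⟩, ⟨nat_lit 3, nat_lit 100, nat_lit 48, nat_lit 71, nat_lit 193159585⟩, ⟨nat_lit 22, nat_lit 95, nat_lit 100, nat_lit 66, nat_lit 12361662⟩]⟩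
noncomputable def p105_l131 : Lf2 := ⟨nat_lit 0, nat_lit 10, [nat_lit 0, nat_lit 5, nat_lit 5, nat_lit 20], false, nat_lit 12, nat_lit 80, nat_lit 0, nat_lit 336, ⟨nat_lit 254, nat_lit 746, nat_lit 0, nat_lit 6, nat_lit 266, nat_lit 746, nat_lit 45, nat_lit 0, nat_lit 0, nat_lit 0, nat_lit 0, nat_lit 0, nat_lit 45419423, nat_lit 20281788, nat_lit 1298789, nat_lit 3618814, true, true⟩,
 nat_lit 4377, nat_lit 0, nat_lit 0, nat_lit 0, nat_lit 2912, nat_lit 2093, nat_lit 248, nat_lit 0, nat_lit 0, nat_lit 529, nat_lit 0, nat_lit 0, nat_lit 0, nat_lit 0, nat_lit 0, nat_lit 186500, nat_lit 0, nat_lit 0, [(nat_lit 24, [(nat_lit 0, nat_lit 746)])],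
 ⟨p105_k26, nat_lit 0, nat_lit 0, nat_lit 289, nat_lit 0, nat_lit 514080, [nat_lit 807599201, nat_lit 1853559200, nat_lit 2463129600], [], [nat_lit 24968841236, nat_lit 25487615219, nat_lit 28411668201, nat_lit 28843561173, nat_lit 24696542471, nat_lit 25187710711, nat_lit 27979735747, nat_lit 28393642071], nat_lit 1271250, nat_lit 1271250, nat_lit 1271250, nat_lit 1271250, nat_lit 65850, nat_lit 490000, [nat_lit 230000, nat_lit 780000, nat_lit 1100000], [nat_lit 35, nat_lit 40, nat_lit 40, nat_lit 80, nat_lit 22, nat_lit 226, nat_lit 20, nat_lit 9]⟩, ⟨p105_k27, nat_lit 0, nat_lit 0, nat_lit 791, nat_lit 0, nat_lit 1144288, [nat_lit 1587500000, nat_lit 2499868000, nat_lit 3015488000], [], [nat_lit 9057699788, nat_lit 9057048108, nat_lit 9318771738, nat_lit 9296340822, nat_lit 8304327368, nat_lit 7747355856, nat_lit 8009338295, nat_lit 8018836255], nat_lit 1271250, nat_lit 1271250, nat_lit 1271250, nat_lit 1271250,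 nat_lit 0, nat_lit 2373000, [nat_lit 1412500, nat_lit 1271250, nat_lit 1271250], [nat_lit 46, nat_lit 40, nat_lit 40, nat_lit 80, nat_lit 41, nat_lit 483, nat_lit 250, nat_lit 12]⟩,
 ⟨nat_lit 2236, nat_lit 2739, ⟨.ofNat (nat_lit 581477), .ofNat (nat_lit 729131), .ofNat (nat_lit 603890), .ofNat (nat_lit 751548), .ofNat (nat_lit 579788), .ofNat (nat_lit 722327), .ofNat (nat_lit 602558), .ofNat (nat_lit 745101)⟩, ⟨.ofNat (nat_lit 30000), .ofNat (nat_lit 188310), .ofNat (nat_lit 30000), .ofNat (nat_lit 200000), .ofNat (nat_lit 30000), .ofNat (nat_lit 192306), .ofNat (nat_lit 30000), .ofNat (nat_lit 200000)⟩⟩, [⟨nat_lit 13, nat_lit 44, nat_lit 86, nat_lit 100, nat_lit 28551160⟩, ⟨nat_lit 3, nat_lit 100, nat_lit 48, nat_lit 71, nat_lit 61412149⟩, ⟨nat_lit 22, nat_lit 92, nat_lit 100, nat_lit 65, nat_lit 48717310⟩]⟩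
noncomputable def p105_l132 : Lf2 := ⟨nat_lit 0, nat_lit 10, [nat_lit 0, nat_lit 5, nat_lit 5, nat_lit 20], false, nat_lit 20, nat_lit 80, nat_lit 0, nat_lit 336, ⟨nat_lit 112, nat_lit 888, nat_lit 0, nat_lit 6, nat_lit 253, nat_lit 888, nat_lit 50, nat_lit 0, nat_lit 0, nat_lit 0, nat_lit 0, nat_lit 0, nat_lit 46523343, nat_lit 18956841, nat_lit 1519816, nat_lit 3603735, true, true⟩,
 nat_lit 2876, nat_lit 0, nat_lit 0, nat_lit 0, nat_lit 2687, nat_lit 1232, nat_lit 104, nat_lit 0, nat_lit 0, nat_lit 101, nat_lit 0, nat_lit 0, nat_lit 0, nat_lit 0, nat_lit 0, nat_lit 355200, nat_lit 0, nat_lit 0, [(nat_lit 27, [(nat_lit 1, nat_lit 888)])],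
 ⟨p105_k25, nat_lit 0, nat_lit 0, nat_lit 278, nat_lit 0, nat_lit 599149, [nat_lit 724524800, nat_lit 655651200], [], [nat_lit 24118673936, nat_lit 25280865777, nat_lit 27267617237, nat_lit 28528562983, nat_lit 23996101620, nat_lit 25101676656, nat_lit 26981945148, nat_lit 27931000436], nat_lit 1271250, nat_lit 1271250, nat_lit 1271250, nat_lit 1271250, nat_lit 111251, nat_lit 490000, [nat_lit 230000, nat_lit 780000], [nat_lit 66, nat_lit 40, nat_lit 40, nat_lit 80, nat_lit 67, nat_lit 226, nat_lit 20, nat_lit 11]⟩, ⟨p105_k24, nat_lit 0, nat_lit 0, nat_lit 1012, nat_lit 0, nat_lit 1611074, [nat_lit 700000000, nat_lit 1102304000, nat_lit 1329664000], [], [nat_lit 4596179392, nat_lit 4527380032, nat_lit 4601474976, nat_lit 4568269664, nat_lit 3884889434, nat_lit 3487177434, nat_lit 3633839140, nat_lit 3627839124], nat_lit 1271250, nat_lit 1271250, nat_lit 1271250, nat_lit 1271250, nat_lit 0, nat_lit 2373000, [nat_lit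 1412500, nat_lit 1271250, nat_lit 1271250], [nat_lit 46, nat_lit 40, nat_lit 40, nat_lit 80, nat_lit 41, nat_lit 456, nat_lit 225, nat_lit 12]⟩,
 ⟨nat_lit 0, nat_lit 2237, ⟨.ofNat (nat_lit 557013), .ofNat (nat_lit 676741), .ofNat (nat_lit 602531), .ofNat (nat_lit 722292), .ofNat (nat_lit 549998), .ofNat (nat_lit 654993), .ofNat (nat_lit 599967), .ofNat (nat_lit 704996)⟩, ⟨.ofNat (nat_lit 50000), .ofNat (nat_lit 192306), .ofNat (nat_lit 50000), .ofNat (nat_lit 200000), .ofNat (nat_lit 50000), .ofNat (nat_lit 199999), .ofNat (nat_lit 50000), .ofNat (nat_lit 200000)⟩⟩, [⟨nat_lit 13, nat_lit 31, nat_lit 92, nat_lit 100, nat_lit 197008239⟩, ⟨nat_lit 13, nat_lit 44, nat_lit 81, nat_lit 100, nat_lit 117286201⟩, ⟨nat_lit 3, nat_lit 100, nat_lit 36, nat_lit 77, nat_lit 255648100⟩, ⟨nat_lit 22, nat_lit 95, nat_lit 100, nat_lit 69, nat_lit 10884717⟩]⟩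
noncomputable def p105_l133 : Lf2 := ⟨nat_lit 0, nat_lit 10, [nat_lit 0, nat_lit 5, nat_lit 5, nat_lit 20], false, nat_lit 80, nat_lit 160, nat_lit 0, nat_lit 384, ⟨nat_lit 18, nat_lit 982, nat_lit 0, nat_lit 6, nat_lit 256, nat_lit 982, nat_lit 105, nat_lit 0, nat_lit 0, nat_lit 0, nat_lit 0, nat_lit 0, nat_lit 43734895, nat_lit 18698072, nat_lit 4567033, nat_lit 4336281, true, true⟩,
 nat_lit 429, nat_lit 3051, nat_lit 0, nat_lit 0, nat_lit 3030, nat_lit 183, nat_lit 92, nat_lit 0, nat_lit 0, nat_lit 14, nat_lit 0, nat_lit 0, nat_lit 0, nat_lit 0, nat_lit 0, nat_lit 392800, nat_lit 0, nat_lit 0, [(nat_lit 24, [(nat_lit 1, nat_lit 982)])],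
 ⟨p105_k22, nat_lit 0, nat_lit 0, nat_lit 249, nat_lit 0, nat_lit 516286, [nat_lit 849620000, nat_lit 1038457334, nat_lit 1021604800], [], [nat_lit 22722570662, nat_lit 23672905662, nat_lit 26012363967, nat_lit 27100086265, nat_lit 23464997542, nat_lit 24375824816, nat_lit 26663061886, nat_lit 27554602802], nat_lit 1271250, nat_lit 1271250, nat_lit 1271250, nat_lit 1271250, nat_lit 490000, nat_lit 1100001, [nat_lit 230000, nat_lit 780000, nat_lit 1100000], [nat_lit 35, nat_lit 40, nat_lit 40, nat_lit 80, nat_lit 22, nat_lit 249, nat_lit 40, nat_lit 10]⟩, ⟨p105_k24, nat_lit 0, nat_lit 0, nat_lit 860, nat_lit 0, nat_lit 1276484, [nat_lit 112500000, nat_lit 177156000, nat_lit 213696000], [], [nat_lit 797942988, nat_lit 795274284, nat_lit 808728625, nat_lit 804416648, nat_lit 708663802, nat_lit 649503236, nat_lit 657004583, nat_lit 656430630], nat_lit 1271250, nat_lit 1271250, nat_lit 1271250, nat_lit 1271250, nat_lit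 0, nat_lit 2712000, [nat_lit 1412500, nat_lit 1271250, nat_lit 1271250], [nat_lit 46, nat_lit 40, nat_lit 40, nat_lit 80, nat_lit 41, nat_lit 483, nat_lit 250, nat_lit 12]⟩,
 ⟨nat_lit 2236, nat_lit 3163, ⟨.ofNat (nat_lit 560952), .ofNat (nat_lit 707240), .ofNat (nat_lit 583107), .ofNat (nat_lit 729395), .ofNat (nat_lit 557014), .ofNat (nat_lit 693851), .ofNat (nat_lit 579788), .ofNat (nat_lit 716626)⟩, ⟨.ofNat (nat_lit 184209), .ofNat (nat_lit 306116), .ofNat (nat_lit 200000), .ofNat (nat_lit 350426), .ofNat (nat_lit 192306), .ofNat (nat_lit 306337), .ofNat (nat_lit 200000), .ofNat (nat_lit 351886)⟩⟩, [⟨nat_lit 13, nat_lit 44, nat_lit 90, nat_lit 100, nat_lit 341630309⟩, ⟨nat_lit 22, nat_lit 98, nat_lit 83, nat_lit 100, nat_lit 1746530⟩]⟩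
noncomputable def p105_l134 : Lf2 := ⟨nat_lit 0, nat_lit 10, [nat_lit 0, nat_lit 5, nat_lit 5, nat_lit 20], false, nat_lit 80, nat_lit 160, nat_lit 0, nat_lit 376, ⟨nat_lit 227, nat_lit 773, nat_lit 0, nat_lit 6, nat_lit 270, nat_lit 773, nat_lit 105, nat_lit 0, nat_lit 0, nat_lit 0, nat_lit 0, nat_lit 0, nat_lit 42472711, nat_lit 20034425, nat_lit 4492864, nat_lit 4404902, true, true⟩,
 nat_lit 3854, nat_lit 0, nat_lit 0, nat_lit 0, nat_lit 3356, nat_lit 1843, nat_lit 92, nat_lit 0, nat_lit 0, nat_lit 379, nat_lit 0, nat_lit 0, nat_lit 0, nat_lit 0, nat_lit 0, nat_lit 359600, nat_lit 0, nat_lit 0, [(nat_lit 24, [(nat_lit 1, nat_lit 689), (nat_lit 2, nat_lit 84)])],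
 ⟨p105_k22, nat_lit 0, nat_lit 0, nat_lit 258, nat_lit 0, nat_lit 536393, [nat_lit 920510001, nat_lit 1392461467, nat_lit 1546096800], [], [nat_lit 23336019174, nat_lit 24327527974, nat_lit 27246407236, nat_lit 28499204874, nat_lit 23996586150, nat_lit 24903967973, nat_lit 27630592892, nat_lit 28445341385], nat_lit 1271250, nat_lit 1271250, nat_lit 1271250, nat_lit 1271250, nat_lit 490000, nat_lit 1100001, [nat_lit 230000, nat_lit 780000, nat_lit 1100000], [nat_lit 35, nat_lit 40, nat_lit 40, nat_lit 80, nat_lit 22, nat_lit 249, nat_lit 40, nat_lit 10]⟩, ⟨p105_k27, nat_lit 0, nat_lit 0, nat_lit 791, nat_lit 0, nat_lit 1144288, [nat_lit 1418750000, nat_lit 2234134000, nat_lit 2694944000], [], [nat_lit 8681734856, nat_lit 8682254840, nat_lit 8960963107, nat_lit 8939780481, nat_lit 8142444833, nat_lit 7630460528, nat_lit 7902512398, nat_lit 7906534479], nat_lit 1271250, nat_lit 1271250, nat_lit 1271250, nat_lit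 1271250, nat_lit 0, nat_lit 2655500, [nat_lit 1412500, nat_lit 1271250, nat_lit 1271250], [nat_lit 46, nat_lit 40, nat_lit 40, nat_lit 80, nat_lit 41, nat_lit 483, nat_lit 250, nat_lit 12]⟩,
 ⟨nat_lit 2236, nat_lit 3163, ⟨.ofNat (nat_lit 583107), .ofNat (nat_lit 753776), .ofNat (nat_lit 605240), .ofNat (nat_lit 775931), .ofNat (nat_lit 579788), .ofNat (nat_lit 739432), .ofNat (nat_lit 602541), .ofNat (nat_lit 762206)⟩, ⟨.ofNat (nat_lit 184209), .ofNat (nat_lit 306116), .ofNat (nat_lit 200000), .ofNat (nat_lit 350426), .ofNat (nat_lit 192306), .ofNat (nat_lit 306337), .ofNat (nat_lit 200000), .ofNat (nat_lit 351886)⟩⟩, [⟨nat_lit 13, nat_lit 44, nat_lit 86, nat_lit 100, nat_lit 77697980⟩, ⟨nat_lit 22, nat_lit 96, nat_lit 86, nat_lit 100, nat_lit 32611065⟩]⟩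
noncomputable def p105_l135 : Lf2 := ⟨nat_lit 0, nat_lit 10, [nat_lit 0, nat_lit 5, nat_lit 5, nat_lit 20], false, nat_lit 80, nat_lit 160, nat_lit 0, nat_lit 384, ⟨nat_lit 124, nat_lit 876, nat_lit 0, nat_lit 6, nat_lit 253, nat_lit 876, nat_lit 105, nat_lit 0, nat_lit 0, nat_lit 0, nat_lit 0, nat_lit 0, nat_lit 43986662, nat_lit 18401273, nat_lit 4612065, nat_lit 4325325, true, true⟩,
 nat_lit 3024, nat_lit 0, nat_lit 0, nat_lit 0, nat_lit 2825, nat_lit 1296, nat_lit 83, nat_lit 0, nat_lit 0, nat_lit 91, nat_lit 0, nat_lit 0, nat_lit 0, nat_lit 0, nat_lit 0, nat_lit 350400, nat_lit 0, nat_lit 0, [(nat_lit 27, [(nat_lit 1, nat_lit 876)])],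
 ⟨p105_k25, nat_lit 0, nat_lit 0, nat_lit 245, nat_lit 0, nat_lit 599149, [nat_lit 727409600, nat_lit 691142400], [], [nat_lit 23190602925, nat_lit 24300516400, nat_lit 26233911430, nat_lit 27403534950, nat_lit 24120381025, nat_lit 25178518900, nat_lit 26957464761, nat_lit 27867760751], nat_lit 1271250, nat_lit 1271250, nat_lit 1271250, nat_lit 1271250, nat_lit 490000, nat_lit 1100001, [nat_lit 230000, nat_lit 780000], [nat_lit 66, nat_lit 40, nat_lit 40, nat_lit 80, nat_lit 67, nat_lit 249, nat_lit 40, nat_lit 12]⟩, ⟨p105_k24, nat_lit 0, nat_lit 0, nat_lit 1012, nat_lit 0, nat_lit 1611074, [nat_lit 775000000, nat_lit 1220408000, nat_lit 1472128000], [], [nat_lit 5464689488, nat_lit 5395923152, nat_lit 5431637935, nat_lit 5348483973, nat_lit 4869645636, nat_lit 4257124653, nat_lit 4470614426, nat_lit 4467778122], nat_lit 1271250, nat_lit 1271250, nat_lit 1271250, nat_lit 1271250, nat_lit 0, nat_lit 2712000, [nat_lit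 1412500, nat_lit 1271250, nat_lit 1271250], [nat_lit 46, nat_lit 40, nat_lit 40, nat_lit 80, nat_lit 41, nat_lit 483, nat_lit 250, nat_lit 12]⟩,
 ⟨nat_lit 0, nat_lit 2237, ⟨.ofNat (nat_lit 557013), .ofNat (nat_lit 676741), .ofNat (nat_lit 602531), .ofNat (nat_lit 722292), .ofNat (nat_lit 549998), .ofNat (nat_lit 654993), .ofNat (nat_lit 599967), .ofNat (nat_lit 704996)⟩, ⟨.ofNat (nat_lit 192306), .ofNat (nat_lit 306334), .ofNat (nat_lit 200000), .ofNat (nat_lit 351885), .ofNat (nat_lit 199999), .ofNat (nat_lit 299996), .ofNat (nat_lit 200000), .ofNat (nat_lit 349998)⟩⟩, [⟨nat_lit 13, nat_lit 31, nat_lit 92, nat_lit 100, nat_lit 379137299⟩, ⟨nat_lit 4, nat_lit 100, nat_lit 32, nat_lit 88, nat_lit 94216969⟩, ⟨nat_lit 22, nat_lit 100, nat_lit 81, nat_lit 100, nat_lit 10086925⟩]⟩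
noncomputable def p105_l136 : Lf2 := ⟨nat_lit 0, nat_lit 10, [nat_lit 0, nat_lit 5, nat_lit 5, nat_lit 20], false, nat_lit 160, nat_lit 248, nat_lit 0, nat_lit 384, ⟨nat_lit 0, nat_lit 1000, nat_lit 0, nat_lit 6, nat_lit 240, nat_lit 1000, nat_lit 157, nat_lit 0, nat_lit 0, nat_lit 0, nat_lit 0, nat_lit 0, nat_lit 42198298, nat_lit 16397660, nat_lit 8404042, nat_lit 4811923, true, true⟩,
 nat_lit 0, nat_lit 3881, nat_lit 0, nat_lit 0, nat_lit 3380, nat_lit 0, nat_lit 0, nat_lit 0, nat_lit 0, nat_lit 0, nat_lit 0, nat_lit 0, nat_lit 0, nat_lit 0, nat_lit 0, nat_lit 400000, nat_lit 0, nat_lit 0, [(nat_lit 24, [(nat_lit 1, nat_lit 1000)])],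
 ⟨p105_k20, nat_lit 0, nat_lit 0, nat_lit 205, nat_lit 0, nat_lit 516286, [nat_lit 965600001, nat_lit 988400000], [], [nat_lit 23274590004, nat_lit 24259564084, nat_lit 24465669044, nat_lit 25384397284, nat_lit 25083813045, nat_lit 25982667538, nat_lit 26170245214, nat_lit 27062136879], nat_lit 1271250, nat_lit 1271250, nat_lit 1271250, nat_lit 1271250, nat_lit 1100001, nat_lit 1853500, [nat_lit 230000, nat_lit 1100000], [nat_lit 86, nat_lit 40, nat_lit 40, nat_lit 80, nat_lit 87, nat_lit 203, nat_lit 0, nat_lit 7]⟩, ⟨p105_k21, nat_lit 0, nat_lit 0, nat_lit 851, nat_lit 0, nat_lit 1276484, [nat_lit 0, nat_lit 0], [], [nat_lit 0, nat_lit 0, nat_lit 0, nat_lit 0, nat_lit 0, nat_lit 0, nat_lit 0, nat_lit 0], nat_lit 1271250, nat_lit 1271250, nat_lit 1271250, nat_lit 1271250, nat_lit 0, nat_lit 2712000, [nat_lit 1412500, nat_lit 1271250], [nat_lit 107, nat_lit 40, nat_lit 40, nat_lit 80, nat_lit 12, nat_lit 456,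 nat_lit 225, nat_lit 12]⟩,
 ⟨nat_lit 2236, nat_lit 3163, ⟨.ofNat (nat_lit 560952), .ofNat (nat_lit 621905), .ofNat (nat_lit 583107), .ofNat (nat_lit 644060), .ofNat (nat_lit 557014), .ofNat (nat_lit 614030), .ofNat (nat_lit 579788), .ofNat (nat_lit 636804)⟩, ⟨.ofNat (nat_lit 306116), .ofNat (nat_lit 440213), .ofNat (nat_lit 350426), .ofNat (nat_lit 484523), .ofNat (nat_lit 306337), .ofNat (nat_lit 431772), .ofNat (nat_lit 351886), .ofNat (nat_lit 477320)⟩⟩, [⟨nat_lit 4, nat_lit 100, nat_lit 53, nat_lit 87, nat_lit 239506560⟩]⟩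
noncomputable def p105_l137 : Lf2 := ⟨nat_lit 0, nat_lit 10, [nat_lit 0, nat_lit 5, nat_lit 5, nat_lit 20], false, nat_lit 160, nat_lit 248, nat_lit 4, nat_lit 384, ⟨nat_lit 0, nat_lit 1000, nat_lit 0, nat_lit 7, nat_lit 264, nat_lit 1000, nat_lit 157, nat_lit 0, nat_lit 0, nat_lit 0, nat_lit 0, nat_lit 0, nat_lit 40269656, nat_lit 18567219, nat_lit 8163125, nat_lit 4928478, true, true⟩,
 nat_lit 0, nat_lit 3477, nat_lit 0, nat_lit 0, nat_lit 3028, nat_lit 0, nat_lit 93, nat_lit 0, nat_lit 0, nat_lit 0, nat_lit 0, nat_lit 0, nat_lit 0, nat_lit 0, nat_lit 0, nat_lit 377800, nat_lit 0, nat_lit 0, [(nat_lit 24, [(nat_lit 0, nat_lit 148), (nat_lit 1, nat_lit 852)])],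
 ⟨p105_k22, nat_lit 0, nat_lit 0, nat_lit 212, nat_lit 0, nat_lit 509764, [nat_lit 835449600, nat_lit 1052073600, nat_lit 1065577600], [], [nat_lit 24275904899, nat_lit 25194465432, nat_lit 25943158151, nat_lit 26886389551, nat_lit 26058491457, nat_lit 26954632246, nat_lit 27663046113, nat_lit 28590901869], nat_lit 1271250, nat_lit 1271250, nat_lit 1271250, nat_lit 1271250, nat_lit 1100001, nat_lit 1853500, [nat_lit 230000, nat_lit 780000, nat_lit 1100000], [nat_lit 35, nat_lit 40, nat_lit 40, nat_lit 80, nat_lit 22, nat_lit 203, nat_lit 0, nat_lit 7]⟩, ⟨p105_k24, nat_lit 0, nat_lit 0, nat_lit 840, nat_lit 0, nat_lit 1260359, [nat_lit 0, nat_lit 0, nat_lit 0], [], [nat_lit 0, nat_lit 0, nat_lit 0, nat_lit 0, nat_lit 0, nat_lit 0, nat_lit 0, nat_lit 0], nat_lit 1271250, nat_lit 1271250, nat_lit 1271250, nat_lit 1271250, nat_lit 21650, nat_lit 2719650, [nat_lit 1412500, nat_lit 1271250, nat_lit 1271250], [nat_lit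 46, nat_lit 40, nat_lit 40, nat_lit 80, nat_lit 41, nat_lit 483, nat_lit 250, nat_lit 12]⟩,
 ⟨nat_lit 2236, nat_lit 3163, ⟨.ofNat (nat_lit 621905), .ofNat (nat_lit 695049), .ofNat (nat_lit 632983), .ofNat (nat_lit 706127), .ofNat (nat_lit 614030), .ofNat (nat_lit 682448), .ofNat (nat_lit 625417), .ofNat (nat_lit 693835)⟩, ⟨.ofNat (nat_lit 306116), .ofNat (nat_lit 440213), .ofNat (nat_lit 350426), .ofNat (nat_lit 484523), .ofNat (nat_lit 306337), .ofNat (nat_lit 431772), .ofNat (nat_lit 351886), .ofNat (nat_lit 477320)⟩⟩, [⟨nat_lit 13, nat_lit 53, nat_lit 84, nat_lit 100, nat_lit 287949257⟩, ⟨nat_lit 16, nat_lit 62, nat_lit 100, nat_lit 94, nat_lit 176352724⟩]⟩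
noncomputable def p105_l138 : Lf2 := ⟨nat_lit 0, nat_lit 10, [nat_lit 0, nat_lit 5, nat_lit 5, nat_lit 20], false, nat_lit 160, nat_lit 248, nat_lit 4, nat_lit 380, ⟨nat_lit 180, nat_lit 820, nat_lit 0, nat_lit 7, nat_lit 270, nat_lit 820, nat_lit 157, nat_lit 0, nat_lit 0, nat_lit 0, nat_lit 0, nat_lit 0, nat_lit 39718580, nat_lit 19191333, nat_lit 8090087, nat_lit 4955964, true, true⟩,
 nat_lit 3696, nat_lit 0, nat_lit 0, nat_lit 0, nat_lit 3219, nat_lit 1675, nat_lit 115, nat_lit 0, nat_lit 0, nat_lit 313, nat_lit 0, nat_lit 0, nat_lit 0, nat_lit 0, nat_lit 0, nat_lit 346600, nat_lit 0, nat_lit 0, [(nat_lit 24, [(nat_lit 1, nat_lit 789), (nat_lit 2, nat_lit 31)])],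
 ⟨p105_k22, nat_lit 0, nat_lit 0, nat_lit 215, nat_lit 0, nat_lit 516286, [nat_lit 883420000, nat_lit 1362999201, nat_lit 1532034400], [], [nat_lit 24776280579, nat_lit 25693099589, nat_lit 26734181754, nat_lit 27584464838, nat_lit 26491160358, nat_lit 27333241060, nat_lit 28319068463, nat_lit 29124026963], nat_lit 1271250, nat_lit 1271250, nat_lit 1271250, nat_lit 1271250, nat_lit 1100001, nat_lit 1853500, [nat_lit 230000, nat_lit 780000, nat_lit 1100000], [nat_lit 35, nat_lit 40, nat_lit 40, nat_lit 80, nat_lit 22, nat_lit 203, nat_lit 0, nat_lit 7]⟩, ⟨p105_k34, nat_lit 0, nat_lit 0, nat_lit 804, nat_lit 0, nat_lit 1183514, [nat_lit 1125000000, nat_lit 1771560000, nat_lit 2136960000], [], [nat_lit 7364505227, nat_lit 7351732004, nat_lit 7463208817, nat_lit 7445814793, nat_lit 6115835815, nat_lit 6096999898, nat_lit 6297675340, nat_lit 6305470955], nat_lit 1271250, nat_lit 1271250, nat_lit 1271250, nat_lit 1271250,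 nat_lit 21650, nat_lit 2691250, [nat_lit 1412500, nat_lit 1271250, nat_lit 1271250], [nat_lit 46, nat_lit 40, nat_lit 40, nat_lit 80, nat_lit 41, nat_lit 483, nat_lit 250, nat_lit 12]⟩,
 ⟨nat_lit 2236, nat_lit 3163, ⟨.ofNat (nat_lit 632983), .ofNat (nat_lit 718317), .ofNat (nat_lit 644060), .ofNat (nat_lit 729395), .ofNat (nat_lit 625417), .ofNat (nat_lit 705239), .ofNat (nat_lit 636804), .ofNat (nat_lit 716626)⟩, ⟨.ofNat (nat_lit 306116), .ofNat (nat_lit 440213), .ofNat (nat_lit 350426), .ofNat (nat_lit 484523), .ofNat (nat_lit 306337), .ofNat (nat_lit 431772), .ofNat (nat_lit 351886), .ofNat (nat_lit 477320)⟩⟩, [⟨nat_lit 13, nat_lit 53, nat_lit 81, nat_lit 100, nat_lit 188332919⟩, ⟨nat_lit 16, nat_lit 53, nat_lit 100, nat_lit 87, nat_lit 302350183⟩, ⟨nat_lit 19, nat_lit 100, nat_lit 45, nat_lit 92, nat_lit 21224521⟩]⟩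
noncomputable def p105_l139 : Lf2 := ⟨nat_lit 0, nat_lit 10, [nat_lit 0, nat_lit 5, nat_lit 5, nat_lit 20], false, nat_lit 160, nat_lit 248, nat_lit 0, nat_lit 376, ⟨nat_lit 209, nat_lit 791, nat_lit 0, nat_lit 6, nat_lit 266, nat_lit 791, nat_lit 158, nat_lit 0, nat_lit 0, nat_lit 0, nat_lit 0, nat_lit 0, nat_lit 40025442, nat_lit 18811629, nat_lit 8162929, nat_lit 4943475, true, true⟩,
 nat_lit 3697, nat_lit 0, nat_lit 0, nat_lit 0, nat_lit 3219, nat_lit 1768, nat_lit 84, nat_lit 0, nat_lit 0, nat_lit 300, nat_lit 0, nat_lit 0, nat_lit 0, nat_lit 0, nat_lit 0, nat_lit 372800, nat_lit 0, nat_lit 0, [(nat_lit 24, [(nat_lit 1, nat_lit 697), (nat_lit 2, nat_lit 94)])],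
 ⟨p105_k22, nat_lit 0, nat_lit 0, nat_lit 201, nat_lit 0, nat_lit 467223, [nat_lit 925090000, nat_lit 1336636134, nat_lit 1448436000], [], [nat_lit 23704064820, nat_lit 24184830732, nat_lit 27055767936, nat_lit 27455284351, nat_lit 25510672262, nat_lit 25933333705, nat_lit 28561496249, nat_lit 28967008059], nat_lit 1271250, nat_lit 1271250, nat_lit 1271250, nat_lit 1271250, nat_lit 1100001, nat_lit 1853500, [nat_lit 230000, nat_lit 780000, nat_lit 1100000], [nat_lit 35, nat_lit 40, nat_lit 40, nat_lit 80, nat_lit 22, nat_lit 203, nat_lit 0, nat_lit 7]⟩, ⟨p105_k27, nat_lit 0, nat_lit 0, nat_lit 722, nat_lit 0, nat_lit 996728, [nat_lit 1306250000, nat_lit 2056978000, nat_lit 2481248000], [], [nat_lit 7727825366, nat_lit 7735049025, nat_lit 8210931833, nat_lit 8222081757, nat_lit 7437185102, nat_lit 7043995516, nat_lit 7255773516, nat_lit 7251426636], nat_lit 1271250, nat_lit 1271250, nat_lit 1271250, nat_lit 1271250,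 nat_lit 0, nat_lit 2655500, [nat_lit 1412500, nat_lit 1271250, nat_lit 1271250], [nat_lit 46, nat_lit 40, nat_lit 40, nat_lit 80, nat_lit 41, nat_lit 483, nat_lit 250, nat_lit 12]⟩,
 ⟨nat_lit 2738, nat_lit 3163, ⟨.ofNat (nat_lit 583107), .ofNat (nat_lit 741586), .ofNat (nat_lit 594184), .ofNat (nat_lit 752663), .ofNat (nat_lit 581477), .ofNat (nat_lit 735037), .ofNat (nat_lit 592686), .ofNat (nat_lit 746245)⟩, ⟨.ofNat (nat_lit 306116), .ofNat (nat_lit 440213), .ofNat (nat_lit 350426), .ofNat (nat_lit 484523), .ofNat (nat_lit 306433), .ofNat (nat_lit 436368), .ofNat (nat_lit 351268), .ofNat (nat_lit 481203)⟩⟩, [⟨nat_lit 13, nat_lit 53, nat_lit 80, nat_lit 100, nat_lit 80832689⟩, ⟨nat_lit 16, nat_lit 57, nat_lit 100, nat_lit 87, nat_lit 277815587⟩, ⟨nat_lit 19, nat_lit 100, nat_lit 49, nat_lit 92, nat_lit 31181836⟩]⟩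
noncomputable def p105_l140 : Lf2 := ⟨nat_lit 0, nat_lit 10, [nat_lit 0, nat_lit 5, nat_lit 5, nat_lit 20], false, nat_lit 160, nat_lit 232, nat_lit 0, nat_lit 376, ⟨nat_lit 175, nat_lit 825, nat_lit 0, nat_lit 6, nat_lit 261, nat_lit 825, nat_lit 152, nat_lit 0, nat_lit 0, nat_lit 0, nat_lit 0, nat_lit 0, nat_lit 40738403, nat_lit 18435270, nat_lit 7826327, nat_lit 4872503, true, true⟩,
 nat_lit 3287, nat_lit 0, nat_lit 0, nat_lit 0, nat_lit 2965, nat_lit 1571, nat_lit 263, nat_lit 0, nat_lit 0, nat_lit 198, nat_lit 0, nat_lit 0, nat_lit 0, nat_lit 0, nat_lit 0, nat_lit 206250, nat_lit 0, nat_lit 0, [(nat_lit 24, [(nat_lit 0, nat_lit 825)])],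
 ⟨p105_k26, nat_lit 0, nat_lit 0, nat_lit 211, nat_lit 0, nat_lit 503376, [nat_lit 793790001, nat_lit 1702290001, nat_lit 2227520000], [], [nat_lit 23599730701, nat_lit 24114164196, nat_lit 26687185286, nat_lit 27121922998, nat_lit 25147253594, nat_lit 25610823841, nat_lit 27922283383, nat_lit 28316222425], nat_lit 1271250, nat_lit 1271250, nat_lit 1271250, nat_lit 1271250, nat_lit 1100001, nat_lit 1716500, [nat_lit 230000, nat_lit 780000, nat_lit 1100000], [nat_lit 35, nat_lit 40, nat_lit 40, nat_lit 80, nat_lit 22, nat_lit 203, nat_lit 0, nat_lit 7]⟩, ⟨p105_k27, nat_lit 0, nat_lit 0, nat_lit 774, nat_lit 0, nat_lit 1120462, [nat_lit 1093750000, nat_lit 1722350000, nat_lit 2077600000], [], [nat_lit 6377424930, nat_lit 6401682151, nat_lit 6870525282, nat_lit 6880360266, nat_lit 6151387195, nat_lit 5840600989, nat_lit 6020057250, nat_lit 6018782518], nat_lit 1271250, nat_lit 1271250, nat_lit 1271250, nat_lit 1271250,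 nat_lit 0, nat_lit 2655500, [nat_lit 1412500, nat_lit 1271250, nat_lit 1271250], [nat_lit 46, nat_lit 40, nat_lit 40, nat_lit 80, nat_lit 41, nat_lit 483, nat_lit 250, nat_lit 12]⟩,
 ⟨nat_lit 2236, nat_lit 2739, ⟨.ofNat (nat_lit 581477), .ofNat (nat_lit 717318), .ofNat (nat_lit 592686), .ofNat (nat_lit 728527), .ofNat (nat_lit 579788), .ofNat (nat_lit 710924), .ofNat (nat_lit 591175), .ofNat (nat_lit 722311)⟩, ⟨.ofNat (nat_lit 306433), .ofNat (nat_lit 412743), .ofNat (nat_lit 351268), .ofNat (nat_lit 457578), .ofNat (nat_lit 306337), .ofNat (nat_lit 408965), .ofNat (nat_lit 351886), .ofNat (nat_lit 454514)⟩⟩, [⟨nat_lit 13, nat_lit 49, nat_lit 81, nat_lit 100, nat_lit 139796744⟩, ⟨nat_lit 16, nat_lit 53, nat_lit 100, nat_lit 93, nat_lit 215456832⟩, ⟨nat_lit 4, nat_lit 100, nat_lit 48, nat_lit 87, nat_lit 56078051⟩, ⟨nat_lit 19, nat_lit 100, nat_lit 49, nat_lit 92, nat_lit 25431248⟩]⟩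
noncomputable def p105_l141 : Lf2 := ⟨nat_lit 0, nat_lit 10, [nat_lit 0, nat_lit 5, nat_lit 5, nat_lit 20], false, nat_lit 160, nat_lit 248, nat_lit 0, nat_lit 372, ⟨nat_lit 248, nat_lit 752, nat_lit 0, nat_lit 6, nat_lit 273, nat_lit 752, nat_lit 158, nat_lit 0, nat_lit 0, nat_lit 0, nat_lit 0, nat_lit 0, nat_lit 39475962, nat_lit 19435021, nat_lit 8089017, nat_lit 4969866, true, true⟩,
 nat_lit 3786, nat_lit 0, nat_lit 0, nat_lit 0, nat_lit 3297, nat_lit 1906, nat_lit 29, nat_lit 0, nat_lit 0, nat_lit 355, nat_lit 0, nat_lit 0, nat_lit 0, nat_lit 0, nat_lit 0, nat_lit 371000, nat_lit 0, nat_lit 0, [(nat_lit 24, [(nat_lit 1, nat_lit 635), (nat_lit 2, nat_lit 117)])],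
 ⟨p105_k22, nat_lit 0, nat_lit 0, nat_lit 206, nat_lit 0, nat_lit 480021, [nat_lit 942860000, nat_lit 1391925067, nat_lit 1523997600], [], [nat_lit 23963573885, nat_lit 24449148341, nat_lit 27624360969, nat_lit 28018441782, nat_lit 25767982881, nat_lit 26194488672, nat_lit 29021946690, nat_lit 29393176519], nat_lit 1271250, nat_lit 1271250, nat_lit 1271250, nat_lit 1271250, nat_lit 1100001, nat_lit 1853500, [nat_lit 230000, nat_lit 780000, nat_lit 1100000], [nat_lit 35, nat_lit 40, nat_lit 40, nat_lit 80, nat_lit 22, nat_lit 203, nat_lit 0, nat_lit 7]⟩, ⟨p105_k35, nat_lit 0, nat_lit 0, nat_lit 702, nat_lit 0, nat_lit 956175, [nat_lit 1550000000, nat_lit 2440816000, nat_lit 2944256000], [], [nat_lit 8868329306, nat_lit 8890025436, nat_lit 9442282301, nat_lit 9447732702, nat_lit 8488357626, nat_lit 8243467301, nat_lit 8447608859, nat_lit 8443185706], nat_lit 1271250, nat_lit 1271250, nat_lit 1271250, nat_lit 1271250,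 nat_lit 0, nat_lit 2627250, [nat_lit 1412500, nat_lit 1271250, nat_lit 1271250], [nat_lit 46, nat_lit 40, nat_lit 40, nat_lit 80, nat_lit 41, nat_lit 483, nat_lit 250, nat_lit 12]⟩,
 ⟨nat_lit 2738, nat_lit 3163, ⟨.ofNat (nat_lit 594184), .ofNat (nat_lit 764854), .ofNat (nat_lit 605257), .ofNat (nat_lit 775931), .ofNat (nat_lit 592686), .ofNat (nat_lit 758058), .ofNat (nat_lit 603890), .ofNat (nat_lit 769266)⟩, ⟨.ofNat (nat_lit 306116), .ofNat (nat_lit 440213), .ofNat (nat_lit 350426), .ofNat (nat_lit 484523), .ofNat (nat_lit 306433), .ofNat (nat_lit 436368), .ofNat (nat_lit 351268), .ofNat (nat_lit 481203)⟩⟩, [⟨nat_lit 13, nat_lit 53, nat_lit 77, nat_lit 100, nat_lit 53275528⟩, ⟨nat_lit 16, nat_lit 57, nat_lit 100, nat_lit 87, nat_lit 278083644⟩, ⟨nat_lit 19, nat_lit 100, nat_lit 54, nat_lit 93, nat_lit 38250812⟩]⟩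
noncomputable def p105_l142 : Lf2 := ⟨nat_lit 0, nat_lit 10, [nat_lit 0, nat_lit 5, nat_lit 5, nat_lit 20], false, nat_lit 160, nat_lit 232, nat_lit 0, nat_lit 372, ⟨nat_lit 210, nat_lit 790, nat_lit 0, nat_lit 6, nat_lit 268, nat_lit 790, nat_lit 152, nat_lit 0, nat_lit 0, nat_lit 0, nat_lit 0, nat_lit 0, nat_lit 40179628, nat_lit 19062913, nat_lit 7757459, nat_lit 4901294, true, true⟩,
 nat_lit 3392, nat_lit 0, nat_lit 0, nat_lit 0, nat_lit 3060, nat_lit 1708, nat_lit 225, nat_lit 0, nat_lit 0, nat_lit 249, nat_lit 0, nat_lit 0, nat_lit 0, nat_lit 0, nat_lit 0, nat_lit 197500, nat_lit 0, nat_lit 0, [(nat_lit 24, [(nat_lit 0, nat_lit 790)])],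
 ⟨p105_k26, nat_lit 0, nat_lit 0, nat_lit 215, nat_lit 0, nat_lit 514080, [nat_lit 799908001, nat_lit 1769308001, nat_lit 2331904000], [], [nat_lit 23814305195, nat_lit 24310523515, nat_lit 27071195098, nat_lit 27514989798, nat_lit 25281841955, nat_lit 25729286179, nat_lit 28320920833, nat_lit 28756112712], nat_lit 1271250, nat_lit 1271250, nat_lit 1271250, nat_lit 1271250, nat_lit 1100001, nat_lit 1716500, [nat_lit 230000, nat_lit 780000, nat_lit 1100000], [nat_lit 35, nat_lit 40, nat_lit 40, nat_lit 80, nat_lit 22, nat_lit 203, nat_lit 0, nat_lit 7]⟩, ⟨p105_k35, nat_lit 0, nat_lit 0, nat_lit 749, nat_lit 0, nat_lit 1068463, [nat_lit 1312500000, nat_lit 2066820000, nat_lit 2493120000], [], [nat_lit 7654376308, nat_lit 7661576004, nat_lit 7943494060, nat_lit 7940481372, nat_lit 7085765178, nat_lit 6843885699, nat_lit 7124185685, nat_lit 7122787548], nat_lit 1271250, nat_lit 1271250, nat_lit 1271250, nat_lit 1271250,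 nat_lit 0, nat_lit 2627250, [nat_lit 1412500, nat_lit 1271250, nat_lit 1271250], [nat_lit 46, nat_lit 40, nat_lit 40, nat_lit 80, nat_lit 41, nat_lit 483, nat_lit 250, nat_lit 12]⟩,
 ⟨nat_lit 2236, nat_lit 2739, ⟨.ofNat (nat_lit 592686), .ofNat (nat_lit 740339), .ofNat (nat_lit 603890), .ofNat (nat_lit 751548), .ofNat (nat_lit 591175), .ofNat (nat_lit 733714), .ofNat (nat_lit 602558), .ofNat (nat_lit 745101)⟩, ⟨.ofNat (nat_lit 306433), .ofNat (nat_lit 412743), .ofNat (nat_lit 351268), .ofNat (nat_lit 457578), .ofNat (nat_lit 306337), .ofNat (nat_lit 408965), .ofNat (nat_lit 351886), .ofNat (nat_lit 454514)⟩⟩, [⟨nat_lit 13, nat_lit 49, nat_lit 79, nat_lit 100, nat_lit 118646747⟩, ⟨nat_lit 4, nat_lit 100, nat_lit 48, nat_lit 87, nat_lit 330286556⟩, ⟨nat_lit 19, nat_lit 100, nat_lit 54, nat_lit 93, nat_lit 32935160⟩]⟩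
noncomputable def p105_l143 : Lf2 := ⟨nat_lit 0, nat_lit 10, [nat_lit 0, nat_lit 5, nat_lit 5, nat_lit 20], false, nat_lit 160, nat_lit 208, nat_lit 0, nat_lit 384, ⟨nat_lit 129, nat_lit 871, nat_lit 0, nat_lit 6, nat_lit 253, nat_lit 871, nat_lit 144, nat_lit 0, nat_lit 0, nat_lit 0, nat_lit 0, nat_lit 0, nat_lit 41882157, nat_lit 17858759, nat_lit 7259084, nat_lit 4750381, true, true⟩,
 nat_lit 3071, nat_lit 0, nat_lit 0, nat_lit 0, nat_lit 2869, nat_lit 1316, nat_lit 61, nat_lit 0, nat_lit 0, nat_lit 104, nat_lit 0, nat_lit 0, nat_lit 0, nat_lit 0, nat_lit 0, nat_lit 348400, nat_lit 0, nat_lit 0, [(nat_lit 27, [(nat_lit 1, nat_lit 871)])],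
 ⟨p105_k25, nat_lit 0, nat_lit 0, nat_lit 219, nat_lit 0, nat_lit 599149, [nat_lit 728611601, nat_lit 705930400], [], [nat_lit 23689640255, nat_lit 24714776665, nat_lit 26531539610, nat_lit 27666381367, nat_lit 24711562901, nat_lit 25734422005, nat_lit 27428961521, nat_lit 28494850576], nat_lit 1271250, nat_lit 1271250, nat_lit 1271250, nat_lit 1271250, nat_lit 1100001, nat_lit 1511000, [nat_lit 230000, nat_lit 780000], [nat_lit 66, nat_lit 40, nat_lit 40, nat_lit 80, nat_lit 67, nat_lit 203, nat_lit 0, nat_lit 9]⟩, ⟨p105_k24, nat_lit 0, nat_lit 0, nat_lit 1012, nat_lit 0, nat_lit 1611074, [nat_lit 806250000, nat_lit 1269618000, nat_lit 1531488000], [], [nat_lit 5863437548, nat_lit 5795410892, nat_lit 5833877413, nat_lit 5751170959, nat_lit 5077195760, nat_lit 4585246480, nat_lit 4642649914, nat_lit 4622097543], nat_lit 1271250, nat_lit 1271250, nat_lit 1271250, nat_lit 1271250, nat_lit 0, nat_lit 2712000, [nat_lit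 1412500, nat_lit 1271250, nat_lit 1271250], [nat_lit 46, nat_lit 40, nat_lit 40, nat_lit 80, nat_lit 41, nat_lit 483, nat_lit 250, nat_lit 12]⟩,
 ⟨nat_lit 0, nat_lit 2237, ⟨.ofNat (nat_lit 557013), .ofNat (nat_lit 676741), .ofNat (nat_lit 602531), .ofNat (nat_lit 722292), .ofNat (nat_lit 549998), .ofNat (nat_lit 654993), .ofNat (nat_lit 599967), .ofNat (nat_lit 704996)⟩, ⟨.ofNat (nat_lit 306334), .ofNat (nat_lit 374750), .ofNat (nat_lit 351885), .ofNat (nat_lit 420300), .ofNat (nat_lit 299996), .ofNat (nat_lit 359993), .ofNat (nat_lit 349998), .ofNat (nat_lit 409994)⟩⟩, [⟨nat_lit 13, nat_lit 44, nat_lit 81, nat_lit 100, nat_lit 237717353⟩, ⟨nat_lit 16, nat_lit 44, nat_lit 100, nat_lit 92, nat_lit 314018755⟩, ⟨nat_lit 4, nat_lit 100, nat_lit 32, nat_lit 88, nat_lit 19164876⟩, ⟨nat_lit 7, nat_lit 59, nat_lit 100, nat_lit 87, nat_lit 11654279⟩]⟩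
noncomputable def b_V_900_500_20_2 : St := ⟨true, nat_lit 1, nat_lit 1, nat_lit 1, nat_lit 120, nat_lit 360, nat_lit 400, nat_lit 200, nat_lit 240, nat_lit 80, nat_lit 352, nat_lit 80, nat_lit 120, nat_lit 8, nat_lit 248, nat_lit 0, nat_lit 384, nat_lit 0, nat_lit 40, nat_lit 0, nat_lit 0, nat_lit 0, nat_lit 0⟩
theorem d_V_900_500_20_2 (h : EB TB.env) : Dead b_V_900_500_20_2 := chkB_sound0 h (T :=
(.spl (nat_lit 2) (nat_lit 240)
(.spl (nat_lit 4) (nat_lit 160)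
(.spl (nat_lit 4) (nat_lit 80)
(.spl (nat_lit 0) (nat_lit 380)
(.spl (nat_lit 0) (nat_lit 370)
(.leaf p105_l121)
(.trZ (nat_lit 0) (nat_lit 100) (nat_lit 53) (nat_lit 85) (nat_lit 92) (.trZ (nat_lit 3) (nat_lit 100) (nat_lit 66) (nat_lit 45) (nat_lit 12) (.leaf p105_l122))))
(.trZ (nat_lit 0) (nat_lit 100) (nat_lit 44) (nat_lit 90) (nat_lit 112) (.trZ (nat_lit 3) (nat_lit 100) (nat_lit 54) (nat_lit 57) (nat_lit 20) (.leaf p105_l123))))
(.spl (nat_lit 0) (nat_lit 380)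
(.leaf p105_l124)
(.trZ (nat_lit 0) (nat_lit 100) (nat_lit 44) (nat_lit 90) (nat_lit 112) (.leaf p105_l125))))
(.spl (nat_lit 0) (nat_lit 380)
(.leaf p105_l126)
(.trZ (nat_lit 0) (nat_lit 100) (nat_lit 44) (nat_lit 90) (nat_lit 112) (.trX (nat_lit 16) (nat_lit 44) (nat_lit 100) (nat_lit 92) (nat_lit 208) (.leaf p105_l127)))))
(.spl (nat_lit 4) (nat_lit 160)
(.spl (nat_lit 4) (nat_lit 80)
(.trX (nat_lit 22) (nat_lit 100) (nat_lit 76) (nat_lit 82) (nat_lit 336) (.spl (nat_lit 0) (nat_lit 380)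
(.spl (nat_lit 0) (nat_lit 370)
(.spl (nat_lit 1) (nat_lit 220)
(.trX (nat_lit 13) (nat_lit 60) (nat_lit 74) (nat_lit 100) (nat_lit 336) (.leaf p105_l128))
(.leaf p105_l129))
(.trX (nat_lit 13) (nat_lit 54) (nat_lit 74) (nat_lit 100) (nat_lit 340) (.trZ (nat_lit 3) (nat_lit 100) (nat_lit 66) (nat_lit 45) (nat_lit 12) (.spl (nat_lit 1) (nat_lit 220)
(.trX (nat_lit 13) (nat_lit 53) (nat_lit 80) (nat_lit 100) (nat_lit 324) (.leaf p105_l130))
(.leaf p105_l131)))))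
(.trX (nat_lit 13) (nat_lit 44) (nat_lit 81) (nat_lit 100) (nat_lit 324) (.trZ (nat_lit 3) (nat_lit 100) (nat_lit 54) (nat_lit 57) (nat_lit 20) (.leaf p105_l132)))))
(.spl (nat_lit 0) (nat_lit 380)
(.spl (nat_lit 1) (nat_lit 220)
(.trX (nat_lit 13) (nat_lit 60) (nat_lit 74) (nat_lit 100) (nat_lit 336) (.leaf p105_l133))
(.trX (nat_lit 19) (nat_lit 100) (nat_lit 49) (nat_lit 92) (nat_lit 376) (.leaf p105_l134)))
(.trX (nat_lit 13) (nat_lit 44) (nat_lit 81) (nat_lit 100) (nat_lit 324) (.leaf p105_l135))))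
(.spl (nat_lit 0) (nat_lit 380)
(.spl (nat_lit 1) (nat_lit 220)
(.trX (nat_lit 13) (nat_lit 60) (nat_lit 74) (nat_lit 100) (nat_lit 336) (.spl (nat_lit 2) (nat_lit 280)
(.leaf p105_l136)
(.trZ (nat_lit 9) (nat_lit 100) (nat_lit 94) (nat_lit 21) (nat_lit 4) (.spl (nat_lit 1) (nat_lit 210)
(.trX (nat_lit 13) (nat_lit 60) (nat_lit 77) (nat_lit 100) (nat_lit 328) (.leaf p105_l137))
(.trX (nat_lit 19) (nat_lit 100) (nat_lit 45) (nat_lit 92) (nat_lit 380) (.leaf p105_l138))))))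
(.trX (nat_lit 19) (nat_lit 100) (nat_lit 49) (nat_lit 92) (nat_lit 376) (.spl (nat_lit 1) (nat_lit 230)
(.trX (nat_lit 13) (nat_lit 61) (nat_lit 71) (nat_lit 100) (nat_lit 344) (.spl (nat_lit 0) (nat_lit 370)
(.leaf p105_l139)
(.trX (nat_lit 13) (nat_lit 53) (nat_lit 77) (nat_lit 100) (nat_lit 332) (.trX (nat_lit 16) (nat_lit 53) (nat_lit 100) (nat_lit 93) (nat_lit 232) (.leaf p105_l140)))))
(.trX (nat_lit 19) (nat_lit 100) (nat_lit 54) (nat_lit 93) (nat_lit 372) (.spl (nat_lit 0) (nat_lit 370)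
(.leaf p105_l141)
(.trX (nat_lit 13) (nat_lit 54) (nat_lit 74) (nat_lit 100) (nat_lit 340) (.trX (nat_lit 16) (nat_lit 53) (nat_lit 100) (nat_lit 93) (nat_lit 232) (.leaf p105_l142))))))))
(.trX (nat_lit 13) (nat_lit 44) (nat_lit 81) (nat_lit 100) (nat_lit 324) (.trX (nat_lit 16) (nat_lit 44) (nat_lit 100) (nat_lit 92) (nat_lit 208) (.leaf p105_l143))))))) (by decide +kernel)
noncomputable def p105_l144 : Lf2 := ⟨nat_lit 0, nat_lit 10, [nat_lit 0, nat_lit 5, nat_lit 5, nat_lit 20], true, nat_lit 8, nat_lit 248, nat_lit 0, nat_lit 384, ⟨nat_lit 0, nat_lit 1000, nat_lit 0, nat_lit 5, nat_lit 209, nat_lit 1000, nat_lit 96, nat_lit 0, nat_lit 0, nat_lit 0, nat_lit 0, nat_lit 0, nat_lit 0, nat_lit 0, nat_lit 0, nat_lit 5000000, false, true⟩,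
 nat_lit 0, nat_lit 4028, nat_lit 0, nat_lit 0, nat_lit 3508, nat_lit 0, nat_lit 0, nat_lit 0, nat_lit 0, nat_lit 0, nat_lit 0, nat_lit 0, nat_lit 0, nat_lit 0, nat_lit 0, nat_lit 277150, nat_lit 0, nat_lit 0, [(nat_lit 24, [(nat_lit 0, nat_lit 819), (nat_lit 1, nat_lit 181)])],
 ⟨p105_k20, nat_lit 0, nat_lit 0, nat_lit 403, nat_lit 0, nat_lit 775017, [nat_lit 799834401, nat_lit 1569632800], [], [nat_lit 25153722436, nat_lit 26102016801, nat_lit 29597868966, nat_lit 30278840413, nat_lit 26714888923, nat_lit 27435972475, nat_lit 30808515346, nat_lit 30425982067], nat_lit 1271250, nat_lit 1271250, nat_lit 490000, nat_lit 2490000, nat_lit 43600, nat_lit 1756600, [nat_lit 230000, nat_lit 1100000], [nat_lit 86, nat_lit 40, nat_lit 40, nat_lit 80, nat_lit 87, nat_lit 373, nat_lit 150, nat_lit 17]⟩, C1.Rw.none,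
 ⟨nat_lit 2236, nat_lit 3163, ⟨.ofNat (nat_lit 316827), .ofNat (nat_lit 707240), .ofNat (nat_lit 338920), .ofNat (nat_lit 729395), .ofNat (nat_lit 328641), .ofNat (nat_lit 693851), .ofNat (nat_lit 351352), .ofNat (nat_lit 716626)⟩, ⟨.ofNat (nat_lit 20000), .ofNat (nat_lit 440213), .ofNat (nat_lit 20000), .ofNat (nat_lit 484523), .ofNat (nat_lit 20000), .ofNat (nat_lit 431772), .ofNat (nat_lit 20000), .ofNat (nat_lit 477320)⟩⟩, [⟨nat_lit 13, nat_lit 53, nat_lit 82, nat_lit 100, nat_lit 215315320⟩, ⟨nat_lit 4, nat_lit 100, nat_lit 53, nat_lit 87, nat_lit 134443614⟩]⟩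
noncomputable def p105_l145 : Lf2 := ⟨nat_lit 0, nat_lit 10, [nat_lit 0, nat_lit 5, nat_lit 5, nat_lit 20], false, nat_lit 8, nat_lit 248, nat_lit 0, nat_lit 376, ⟨nat_lit 274, nat_lit 726, nat_lit 0, nat_lit 5, nat_lit 228, nat_lit 726, nat_lit 96, nat_lit 0, nat_lit 0, nat_lit 0, nat_lit 0, nat_lit 0, nat_lit 0, nat_lit 0, nat_lit 0, nat_lit 5000000, false, true⟩,
 nat_lit 0, nat_lit 4152, nat_lit 0, nat_lit 0, nat_lit 3615, nat_lit 1945, nat_lit 162, nat_lit 0, nat_lit 0, nat_lit 725, nat_lit 0, nat_lit 0, nat_lit 0, nat_lit 0, nat_lit 0, nat_lit 314400, nat_lit 0, nat_lit 0, [(nat_lit 24, [(nat_lit 1, nat_lit 686), (nat_lit 2, nat_lit 40)])],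
 ⟨p105_k22, nat_lit 0, nat_lit 0, nat_lit 417, nat_lit 0, nat_lit 829637, [nat_lit 897460001, nat_lit 1564526667, nat_lit 1855582400], [], [nat_lit 23648074674, nat_lit 24699416036, nat_lit 30128816883, nat_lit 31475039374, nat_lit 25742392264, nat_lit 26561542715, nat_lit 31339015781, nat_lit 30507688380], nat_lit 1271250, nat_lit 1271250, nat_lit 602400, nat_lit 2640800, nat_lit 43600, nat_lit 1756600, [nat_lit 230000, nat_lit 780000, nat_lit 1100000], [nat_lit 35, nat_lit 40, nat_lit 40, nat_lit 80, nat_lit 22, nat_lit 373, nat_lit 150, nat_lit 17]⟩, ⟨p105_k27, nat_lit 0, nat_lit 0, nat_lit 243, nat_lit 0, nat_lit 0, [nat_lit 1712500000, nat_lit 2696708000, nat_lit 3252928000], [], [nat_lit 6473052510, nat_lit 6765586534, nat_lit 9156999776, nat_lit 9283106756, nat_lit 8412698050, nat_lit 8513656931, nat_lit 9210035960, nat_lit 9232413855], nat_lit 0, nat_lit 0, nat_lit 0, nat_lit 0, nat_lit 0, nat_lit 0,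 [], [nat_lit 46, nat_lit 40, nat_lit 40, nat_lit 80, nat_lit 41, nat_lit 483, nat_lit 250, nat_lit 13]⟩,
 ⟨nat_lit 2236, nat_lit 3163, ⟨.ofNat (nat_lit 363342), .ofNat (nat_lit 753776), .ofNat (nat_lit 385434), .ofNat (nat_lit 775931), .ofNat (nat_lit 374200), .ofNat (nat_lit 739432), .ofNat (nat_lit 396911), .ofNat (nat_lit 762206)⟩, ⟨.ofNat (nat_lit 20000), .ofNat (nat_lit 440213), .ofNat (nat_lit 20000), .ofNat (nat_lit 484523), .ofNat (nat_lit 20000), .ofNat (nat_lit 431772), .ofNat (nat_lit 20000), .ofNat (nat_lit 477320)⟩⟩, [⟨nat_lit 16, nat_lit 53, nat_lit 100, nat_lit 87, nat_lit 139233784⟩, ⟨nat_lit 7, nat_lit 63, nat_lit 100, nat_lit 88, nat_lit 61239968⟩]⟩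
noncomputable def p105_l146 : Lf2 := ⟨nat_lit 0, nat_lit 10, [nat_lit 0, nat_lit 5, nat_lit 5, nat_lit 20], true, nat_lit 20, nat_lit 208, nat_lit 0, nat_lit 384, ⟨nat_lit 0, nat_lit 1000, nat_lit 0, nat_lit 5, nat_lit 218, nat_lit 1000, nat_lit 88, nat_lit 0, nat_lit 0, nat_lit 0, nat_lit 0, nat_lit 0, nat_lit 0, nat_lit 0, nat_lit 0, nat_lit 5000000, false, true⟩,
 nat_lit 0, nat_lit 3238, nat_lit 0, nat_lit 0, nat_lit 3025, nat_lit 0, nat_lit 30, nat_lit 0, nat_lit 0, nat_lit 0, nat_lit 0, nat_lit 0, nat_lit 0, nat_lit 0, nat_lit 0, nat_lit 400000, nat_lit 0, nat_lit 0, [(nat_lit 27, [(nat_lit 1, nat_lit 1000)])],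
 ⟨p105_k25, nat_lit 0, nat_lit 0, nat_lit 379, nat_lit 0, nat_lit 918872, [nat_lit 697600000, nat_lit 324400000], [], [nat_lit 21451072096, nat_lit 23432653250, nat_lit 28064609103, nat_lit 29392371568, nat_lit 23633166086, nat_lit 24680187768, nat_lit 28431935017, nat_lit 29199185796], nat_lit 1271250, nat_lit 1271250, nat_lit 719601, nat_lit 2439450, nat_lit 111251, nat_lit 1474250, [nat_lit 230000, nat_lit 780000], [nat_lit 66, nat_lit 40, nat_lit 40, nat_lit 80, nat_lit 67, nat_lit 373, nat_lit 150, nat_lit 22]⟩, C1.Rw.none,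
 ⟨nat_lit 0, nat_lit 2237, ⟨.ofNat (nat_lit 370513), .ofNat (nat_lit 676741), .ofNat (nat_lit 414208), .ofNat (nat_lit 722292), .ofNat (nat_lit 385947), .ofNat (nat_lit 654993), .ofNat (nat_lit 434094), .ofNat (nat_lit 704996)⟩, ⟨.ofNat (nat_lit 50000), .ofNat (nat_lit 374750), .ofNat (nat_lit 50000), .ofNat (nat_lit 420300), .ofNat (nat_lit 50000), .ofNat (nat_lit 359993), .ofNat (nat_lit 50000), .ofNat (nat_lit 409994)⟩⟩, [⟨nat_lit 13, nat_lit 31, nat_lit 92, nat_lit 100, nat_lit 133498651⟩, ⟨nat_lit 13, nat_lit 44, nat_lit 81, nat_lit 100, nat_lit 273016252⟩, ⟨nat_lit 16, nat_lit 32, nat_lit 100, nat_lit 88, nat_lit 169285967⟩]⟩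
noncomputable def p105_l147 : Lf2 := ⟨nat_lit 0, nat_lit 10, [nat_lit 0, nat_lit 5, nat_lit 5, nat_lit 20], false, nat_lit 8, nat_lit 248, nat_lit 0, nat_lit 384, ⟨nat_lit 0, nat_lit 1000, nat_lit 0, nat_lit 5, nat_lit 217, nat_lit 1000, nat_lit 94, nat_lit 0, nat_lit 0, nat_lit 0, nat_lit 0, nat_lit 0, nat_lit 0, nat_lit 0, nat_lit 0, nat_lit 5000000, false, true⟩,
 nat_lit 0, nat_lit 4091, nat_lit 0, nat_lit 0, nat_lit 3563, nat_lit 0, nat_lit 371, nat_lit 0, nat_lit 0, nat_lit 0, nat_lit 0, nat_lit 0, nat_lit 0, nat_lit 0, nat_lit 0, nat_lit 250000, nat_lit 0, nat_lit 0, [(nat_lit 24, [(nat_lit 0, nat_lit 1000)]), (nat_lit 27, [(nat_lit 0, nat_lit 1000)])],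
 ⟨p105_k22, nat_lit 0, nat_lit 0, nat_lit 364, nat_lit 0, nat_lit 651614, [nat_lit 780800001, nat_lit 1367200000, nat_lit 1705600000], [], [nat_lit 22301532870, nat_lit 25547772466, nat_lit 29997471863, nat_lit 32671496066, nat_lit 23560597501, nat_lit 25404523903, nat_lit 30504508940, nat_lit 31209121061], nat_lit 1271250, nat_lit 1271250, nat_lit 490000, nat_lit 2615000, nat_lit 43600, nat_lit 1756600, [nat_lit 230000, nat_lit 780000, nat_lit 1100000], [nat_lit 35, nat_lit 40, nat_lit 40, nat_lit 80, nat_lit 22, nat_lit 373, nat_lit 150, nat_lit 17]⟩, ⟨p105_k24, nat_lit 0, nat_lit 0, nat_lit 1083, nat_lit 0, nat_lit 1611074, [nat_lit 0, nat_lit 0, nat_lit 0], [], [nat_lit 0, nat_lit 0, nat_lit 0, nat_lit 0, nat_lit 0, nat_lit 0, nat_lit 0, nat_lit 0], nat_lit 1271250, nat_lit 1271250, nat_lit 490000, nat_lit 2615000, nat_lit 0, nat_lit 2712000, [nat_lit 1412500, nat_lit 1271250, nat_lit 1271250], [nat_lit 46,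 nat_lit 40, nat_lit 40, nat_lit 80, nat_lit 41, nat_lit 483, nat_lit 250, nat_lit 13]⟩,
 ⟨nat_lit 0, nat_lit 3163, ⟨.ofNat (nat_lit 309443), .ofNat (nat_lit 731616), .ofNat (nat_lit 351143), .ofNat (nat_lit 775928), .ofNat (nat_lit 342303), .ofNat (nat_lit 689994), .ofNat (nat_lit 389693), .ofNat (nat_lit 739996)⟩, ⟨.ofNat (nat_lit 20000), .ofNat (nat_lit 440207), .ofNat (nat_lit 20000), .ofNat (nat_lit 484518), .ofNat (nat_lit 20000), .ofNat (nat_lit 409993), .ofNat (nat_lit 20000), .ofNat (nat_lit 459993)⟩⟩, [⟨nat_lit 13, nat_lit 44, nat_lit 86, nat_lit 100, nat_lit 46748606⟩, ⟨nat_lit 13, nat_lit 61, nat_lit 68, nat_lit 100, nat_lit 240007214⟩, ⟨nat_lit 4, nat_lit 100, nat_lit 44, nat_lit 87, nat_lit 72660272⟩]⟩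
noncomputable def b_V_900_500_20_3 : St := ⟨true, nat_lit 1, nat_lit 2, nat_lit 2, nat_lit 120, nat_lit 360, nat_lit 400, nat_lit 200, nat_lit 240, nat_lit 80, nat_lit 352, nat_lit 80, nat_lit 120, nat_lit 8, nat_lit 248, nat_lit 0, nat_lit 384, nat_lit 0, nat_lit 40, nat_lit 0, nat_lit 0, nat_lit 0, nat_lit 0⟩
theorem d_V_900_500_20_3 (h : EB TB.env) : Dead b_V_900_500_20_3 := chkB_sound0 h (T :=
(.st (nat_lit 1)
(.spl (nat_lit 0) (nat_lit 380)
(.spl (nat_lit 1) (nat_lit 220)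
(.trX (nat_lit 13) (nat_lit 60) (nat_lit 74) (nat_lit 100) (nat_lit 336) (.leaf p105_l144))
(.trZ (nat_lit 0) (nat_lit 100) (nat_lit 60) (nat_lit 86) (nat_lit 96) (.trX (nat_lit 19) (nat_lit 100) (nat_lit 49) (nat_lit 92) (nat_lit 376) (.leaf p105_l145))))
(.trZ (nat_lit 0) (nat_lit 100) (nat_lit 44) (nat_lit 90) (nat_lit 112) (.trX (nat_lit 13) (nat_lit 44) (nat_lit 81) (nat_lit 100) (nat_lit 324) (.trZ (nat_lit 3) (nat_lit 100) (nat_lit 54) (nat_lit 57) (nat_lit 20) (.trX (nat_lit 16) (nat_lit 44) (nat_lit 100) (nat_lit 92) (nat_lit 208) (.leaf p105_l146))))))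
(.leaf p105_l147))) (by decide +kernel)
noncomputable def p105_l148 : Lf2 := ⟨nat_lit 0, nat_lit 20, [nat_lit 5, nat_lit 5, nat_lit 5, nat_lit 20], true, nat_lit 8, nat_lit 248, nat_lit 0, nat_lit 384, ⟨nat_lit 0, nat_lit 0, nat_lit 1000, nat_lit 5, nat_lit 162, nat_lit 1000, nat_lit 94, nat_lit 1000, nat_lit 58017, nat_lit 274, nat_lit 44982, nat_lit 266, nat_lit 53223327, nat_lit 0, nat_lit 0, nat_lit 3361157, false, false⟩,
 nat_lit 0, nat_lit 0, nat_lit 0, nat_lit 0, nat_lit 2641, nat_lit 0, nat_lit 0, nat_lit 0, nat_lit 0, nat_lit 0, nat_lit 0, nat_lit 0, nat_lit 0, nat_lit 0, nat_lit 54, nat_lit 250000, nat_lit 0, nat_lit 0, [(nat_lit 25, [(nat_lit 0, nat_lit 200), (nat_lit 4, nat_lit 800)]), (nat_lit 28, [(nat_lit 0, nat_lit 200), (nat_lit 4, nat_lit 800)])],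
 ⟨p105_k11, nat_lit 0, nat_lit 0, nat_lit 197, nat_lit 0, nat_lit 0, [nat_lit 1068512001, nat_lit 117804800], [], [nat_lit 18953879716, nat_lit 22810233500, nat_lit 19796202859, nat_lit 23172564034, nat_lit 21840350029, nat_lit 24269025232, nat_lit 22746049718, nat_lit 25068952512], nat_lit 0, nat_lit 0, nat_lit 0, nat_lit 0, nat_lit 0, nat_lit 0, [], [nat_lit 88, nat_lit 40, nat_lit 40, nat_lit 80, nat_lit 89, nat_lit 345, nat_lit 125, nat_lit 13]⟩, C1.Rw.none,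
 ⟨nat_lit 0, nat_lit 3163, ⟨.ofNat (nat_lit 309443), .ofNat (nat_lit 436481), .ofNat (nat_lit 351143), .ofNat (nat_lit 478180), .ofNat (nat_lit 342303), .ofNat (nat_lit 447434), .ofNat (nat_lit 389693), .ofNat (nat_lit 494824)⟩, ⟨.ofNat (nat_lit 20000), .ofNat (nat_lit 440207), .ofNat (nat_lit 20000), .ofNat (nat_lit 484518), .ofNat (nat_lit 20000), .ofNat (nat_lit 409993), .ofNat (nat_lit 20000), .ofNat (nat_lit 459993)⟩⟩, []⟩
noncomputable def p105_l149 : Lf2 := ⟨nat_lit 0, nat_lit 20, [nat_lit 5, nat_lit 5, nat_lit 5, nat_lit 20], false, nat_lit 8, nat_lit 248, nat_lit 0, nat_lit 384, ⟨nat_lit 174, nat_lit 0, nat_lit 826, nat_lit 5, nat_lit 209, nat_lit 826, nat_lit 94, nat_lit 826, nat_lit 58017, nat_lit 274, nat_lit 5571, nat_lit 211, nat_lit 48855250, nat_lit 0, nat_lit 0, nat_lit 3855590, false, false⟩,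
 nat_lit 0, nat_lit 0, nat_lit 0, nat_lit 0, nat_lit 2793, nat_lit 3298, nat_lit 0, nat_lit 0, nat_lit 0, nat_lit 0, nat_lit 0, nat_lit 0, nat_lit 0, nat_lit 0, nat_lit 23, nat_lit 206500, nat_lit 0, nat_lit 0, [(nat_lit 25, [(nat_lit 4, nat_lit 826)]), (nat_lit 28, [(nat_lit 4, nat_lit 826)])],
 ⟨p105_k10, nat_lit 0, nat_lit 0, nat_lit 159, nat_lit 0, nat_lit 0, [nat_lit 894205601, nat_lit 333923201, nat_lit 11140000], [], [nat_lit 19952449700, nat_lit 23542940853, nat_lit 22505831136, nat_lit 25622417688, nat_lit 22295263180, nat_lit 24721078264, nat_lit 24241988735, nat_lit 26440285496], nat_lit 0, nat_lit 0, nat_lit 0, nat_lit 0, nat_lit 0, nat_lit 0, [], [nat_lit 55, nat_lit 40, nat_lit 40, nat_lit 80, nat_lit 3, nat_lit 345, nat_lit 125, nat_lit 13]⟩, ⟨p105_k36, nat_lit 0, nat_lit 0, nat_lit 273, nat_lit 0, nat_lit 0, [nat_lit 1087500000, nat_lit 2065728000, nat_lit 2446092000], [], [nat_lit 7394376648,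 nat_lit 7844332672, nat_lit 7901363032, nat_lit 8215759632, nat_lit 7030885298, nat_lit 7001557178, nat_lit 6737247605, nat_lit 6650416498], nat_lit 0, nat_lit 0, nat_lit 0, nat_lit 0, nat_lit 0, nat_lit 0, [], [nat_lit 137, nat_lit 40, nat_lit 40, nat_lit 80, nat_lit 58, nat_lit 456, nat_lit 225, nat_lit 11]⟩,
 ⟨nat_lit 0, nat_lit 3163, ⟨.ofNat (nat_lit 436481), .ofNat (nat_lit 560951), .ofNat (nat_lit 478180), .ofNat (nat_lit 605128), .ofNat (nat_lit 447434), .ofNat (nat_lit 549998), .ofNat (nat_lit 494824), .ofNat (nat_lit 599865)⟩, ⟨.ofNat (nat_lit 20000), .ofNat (nat_lit 440207), .ofNat (nat_lit 20000), .ofNat (nat_lit 484518), .ofNat (nat_lit 20000), .ofNat (nat_lit 409993), .ofNat (nat_lit 20000), .ofNat (nat_lit 459993)⟩⟩, [⟨nat_lit 4, nat_lit 100, nat_lit 44, nat_lit 87, nat_lit 29024632⟩, ⟨nat_lit 19, nat_lit 100, nat_lit 40, nat_lit 92, nat_lit 15886030⟩]⟩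
noncomputable def p105_l150 : Lf2 := ⟨nat_lit 0, nat_lit 20, [nat_lit 5, nat_lit 5, nat_lit 5, nat_lit 20], false, nat_lit 8, nat_lit 248, nat_lit 0, nat_lit 160, ⟨nat_lit 1000, nat_lit 0, nat_lit 0, nat_lit 0, nat_lit 0, nat_lit 0, nat_lit 0, nat_lit 0, nat_lit 0, nat_lit 0, nat_lit 0, nat_lit 0, nat_lit 0, nat_lit 0, nat_lit 0, nat_lit 0, false, false⟩,
 nat_lit 0, nat_lit 0, nat_lit 0, nat_lit 3003, nat_lit 7491, nat_lit 8196, nat_lit 0, nat_lit 0, nat_lit 0, nat_lit 0, nat_lit 0, nat_lit 0, nat_lit 0, nat_lit 0, nat_lit 0, nat_lit 0, nat_lit 0, nat_lit 0, [],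
 ⟨p105_k11, nat_lit 0, nat_lit 0, nat_lit 180, nat_lit 0, nat_lit 0, [nat_lit 938000000, nat_lit 6250000000], [], [nat_lit 31841447875, nat_lit 36886767187, nat_lit 39919072569, nat_lit 43984574117, nat_lit 28509265344, nat_lit 30979461571, nat_lit 33104161692, nat_lit 36074899323], nat_lit 0, nat_lit 0, nat_lit 0, nat_lit 0, nat_lit 0, nat_lit 0, [], [nat_lit 88, nat_lit 40, nat_lit 40, nat_lit 80, nat_lit 89, nat_lit 289, nat_lit 75, nat_lit 10]⟩, ⟨p105_k14, nat_lit 0, nat_lit 0, nat_lit 255, nat_lit 0, nat_lit 0, [nat_lit 6250000000, nat_lit 14058000000], [], [nat_lit 39600480672, nat_lit 40985790336, nat_lit 46885660257, nat_lit 47584735623, nat_lit 33743962720, nat_lit 34591717488, nat_lit 39001353722, nat_lit 39600026372], nat_lit 0, nat_lit 0, nat_lit 0, nat_lit 0, nat_lit 0, nat_lit 0, [], [nat_lit 149, nat_lit 40, nat_lit 40, nat_lit 80, nat_lit 68, nat_lit 428, nat_lit 200, nat_lit 10]⟩,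
 zbF0, [⟨nat_lit 13, nat_lit 44, nat_lit 86, nat_lit 100, nat_lit 227942697⟩, ⟨nat_lit 9, nat_lit 100, nat_lit 94, nat_lit 14, nat_lit 38864833⟩]⟩
noncomputable def p105_l151 : Lf2 := ⟨nat_lit 0, nat_lit 20, [nat_lit 5, nat_lit 5, nat_lit 5, nat_lit 20], false, nat_lit 8, nat_lit 248, nat_lit 160, nat_lit 384, ⟨nat_lit 1000, nat_lit 0, nat_lit 0, nat_lit 0, nat_lit 0, nat_lit 0, nat_lit 0, nat_lit 0, nat_lit 0, nat_lit 0, nat_lit 0, nat_lit 0, nat_lit 0, nat_lit 0, nat_lit 0, nat_lit 0, false, false⟩,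
 nat_lit 0, nat_lit 0, nat_lit 0, nat_lit 0, nat_lit 7507, nat_lit 6851, nat_lit 0, nat_lit 0, nat_lit 0, nat_lit 0, nat_lit 0, nat_lit 0, nat_lit 0, nat_lit 0, nat_lit 0, nat_lit 0, nat_lit 0, nat_lit 0, [],
 ⟨p105_k11, nat_lit 0, nat_lit 0, nat_lit 180, nat_lit 0, nat_lit 0, [nat_lit 938000000, nat_lit 6250000000], [], [nat_lit 31829372009, nat_lit 36925130233, nat_lit 39959486421, nat_lit 44030655901, nat_lit 28480489267, nat_lit 30953681001, nat_lit 33120209245, nat_lit 36094719194], nat_lit 0, nat_lit 0, nat_lit 0, nat_lit 0, nat_lit 0, nat_lit 0, [], [nat_lit 88, nat_lit 40, nat_lit 40, nat_lit 80, nat_lit 89, nat_lit 289, nat_lit 75, nat_lit 10]⟩, ⟨p105_k14, nat_lit 0, nat_lit 0, nat_lit 85, nat_lit 0, nat_lit 0, [nat_lit 6250000000, nat_lit 14058000000], [], [nat_lit 14830603220, nat_lit 16996370380, nat_lit 23860215866, nat_lit 25220103782, nat_lit 28474450568, nat_lit 29358084331, nat_lit 33368649127,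 nat_lit 33966598422], nat_lit 0, nat_lit 0, nat_lit 0, nat_lit 0, nat_lit 0, nat_lit 0, [], [nat_lit 149, nat_lit 40, nat_lit 40, nat_lit 80, nat_lit 68, nat_lit 483, nat_lit 250, nat_lit 11]⟩,
 zbF0, [⟨nat_lit 4, nat_lit 100, nat_lit 44, nat_lit 87, nat_lit 14544876⟩, ⟨nat_lit 19, nat_lit 100, nat_lit 40, nat_lit 92, nat_lit 488859761⟩, ⟨nat_lit 10, nat_lit 39, nat_lit 88, nat_lit 100, nat_lit 2992839⟩]⟩
noncomputable def b_V_900_500_20_4 : St := ⟨true, nat_lit 0, nat_lit 0, nat_lit 1, nat_lit 120, nat_lit 360, nat_lit 400, nat_lit 200, nat_lit 240, nat_lit 80, nat_lit 352, nat_lit 80, nat_lit 120, nat_lit 8, nat_lit 248, nat_lit 0, nat_lit 384, nat_lit 40, nat_lit 80, nat_lit 0, nat_lit 0, nat_lit 0, nat_lit 0⟩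
theorem d_V_900_500_20_4 (h : EB TB.env) : Dead b_V_900_500_20_4 := chkB_sound0 h (T :=
(.spl (nat_lit 2) (nat_lit 240)
(.spl (nat_lit 2) (nat_lit 160)
(.leaf p105_l148)
(.leaf p105_l149))
(.spl (nat_lit 5) (nat_lit 160)
(.leaf p105_l150)
(.leaf p105_l151)))) (by decide +kernel)

end B2
end Pool.Agent.Lib.MP_6947cd_al
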