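import Pool.Agent.Lib.MP_6947cd_al.ZB.Pre

/-!
Problem MP_6947cd_al (Chollet).  Case B, second entry in [2/5, 17/20]: certificates of the tree, part P106 (generated).
-/

set_option autoImplicit false
set_option linter.all false

namespace Pool.Agent.Lib.MP_6947cd_al
namespace B2

open Ent Fr B1 PkA

noncomputable def p106_k0 : C1.Kn := ⟨[nat_lit 20, nat_lit 60, nat_lit 100], [nat_lit 0, nat_lit 0, nat_lit 2559], [(nat_lit 0, nat_lit 0, nat_lit 0), (nat_lit 0, nat_lit 0, nat_lit 0), (nat_lit 1000, nat_lit 600, nat_lit 787)], (nat_lit 60, nat_lit 100, nat_lit 80)⟩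
noncomputable def p106_k1 : C1.Kn := ⟨[nat_lit 20, nat_lit 100], [nat_lit 0, nat_lit 2826], [(nat_lit 0, nat_lit 0, nat_lit 0), (nat_lit 1000, nat_lit 558, nat_lit 551)], (nat_lit 44, nat_lit 100, nat_lit 82)⟩
noncomputable def p106_k2 : C1.Kn := ⟨[nat_lit 20, nat_lit 100], [nat_lit 0, nat_lit 0], [(nat_lit 0, nat_lit 0, nat_lit 0), (nat_lit 0, nat_lit 0, nat_lit 0)], (nat_lit 60, nat_lit 100, nat_lit 80)⟩
noncomputable def p106_k3 : C1.Kn := ⟨[nat_lit 100, nat_lit 140, nat_lit 180], [nat_lit 0, nat_lit 0, nat_lit 2434], [(nat_lit 0, nat_lit 0, nat_lit 0), (nat_lit 0, nat_lit 0, nat_lit 0), (nat_lit 726, nat_lit 1000, nat_lit 688)], (nat_lit 100, nat_lit 60, nat_lit 80)⟩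
noncomputable def p106_k4 : C1.Kn := ⟨[nat_lit 20, nat_lit 60, nat_lit 100], [nat_lit 0, nat_lit 698, nat_lit 3028], [(nat_lit 0, nat_lit 0, nat_lit 0), (nat_lit 1000, nat_lit 782, nat_lit 272), (nat_lit 1000, nat_lit 527, nat_lit 841)], (nat_lit 53, nat_lit 100, nat_lit 80)⟩
noncomputable def p106_k5 : C1.Kn := ⟨[nat_lit 100, nat_lit 140, nat_lit 180], [nat_lit 0, nat_lit 508, nat_lit 2854], [(nat_lit 0, nat_lit 0, nat_lit 0), (nat_lit 1000, nat_lit 1000, nat_lit 198), (nat_lit 777, nat_lit 1000, nat_lit 712)], (nat_lit 100, nat_lit 68, nat_lit 80)⟩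
noncomputable def p106_k6 : C1.Kn := ⟨[nat_lit 20, nat_lit 60, nat_lit 100], [nat_lit 0, nat_lit 1415, nat_lit 3591], [(nat_lit 0, nat_lit 0, nat_lit 0), (nat_lit 1000, nat_lit 558, nat_lit 551), (nat_lit 1000, nat_lit 439, nat_lit 849)], (nat_lit 44, nat_lit 100, nat_lit 82)⟩
noncomputable def p106_k7 : C1.Kn := ⟨[nat_lit 20, nat_lit 100], [nat_lit 0, nat_lit 1394], [(nat_lit 0, nat_lit 0, nat_lit 0), (nat_lit 1000, nat_lit 782, nat_lit 272)], (nat_lit 53, nat_lit 100, nat_lit 80)⟩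
noncomputable def p106_k8 : C1.Kn := ⟨[nat_lit 20, nat_lit 60, nat_lit 100], [nat_lit 0, nat_lit 0, nat_lit 2559], [(nat_lit 0, nat_lit 0, nat_lit 0), (nat_lit 0, nat_lit 0, nat_lit 0), (nat_lit 1000, nat_lit 600, nat_lit 787)], (nat_lit 61, nat_lit 100, nat_lit 72)⟩
noncomputable def p106_k9 : C1.Kn := ⟨[nat_lit 20, nat_lit 100], [nat_lit 0, nat_lit 0], [(nat_lit 0, nat_lit 0, nat_lit 0), (nat_lit 0, nat_lit 0, nat_lit 0)], (nat_lit 60, nat_lit 100, nat_lit 77)⟩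
noncomputable def p106_k10 : C1.Kn := ⟨[nat_lit 100, nat_lit 180], [nat_lit 0, nat_lit 1792], [(nat_lit 0, nat_lit 0, nat_lit 0), (nat_lit 1000, nat_lit 1000, nat_lit 350)], (nat_lit 100, nat_lit 78, nat_lit 78)⟩
noncomputable def p106_k11 : C1.Kn := ⟨[nat_lit 20, nat_lit 60, nat_lit 100], [nat_lit 0, nat_lit 0, nat_lit 2559], [(nat_lit 0, nat_lit 0, nat_lit 0), (nat_lit 0, nat_lit 0, nat_lit 0), (nat_lit 1000, nat_lit 600, nat_lit 787)], (nat_lit 60, nat_lit 100, nat_lit 77)⟩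
noncomputable def p106_k12 : C1.Kn := ⟨[nat_lit 20, nat_lit 100], [nat_lit 0, nat_lit 677], [(nat_lit 0, nat_lit 0, nat_lit 0), (nat_lit 1000, nat_lit 894, nat_lit 132)], (nat_lit 57, nat_lit 100, nat_lit 77)⟩
noncomputable def p106_k13 : C1.Kn := ⟨[nat_lit 20, nat_lit 80, nat_lit 100], [nat_lit 0, nat_lit 0, nat_lit 2559], [(nat_lit 0, nat_lit 0, nat_lit 0), (nat_lit 0, nat_lit 0, nat_lit 0), (nat_lit 1000, nat_lit 600, nat_lit 787)], (nat_lit 60, nat_lit 100, nat_lit 80)⟩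
noncomputable def p106_k14 : C1.Kn := ⟨[nat_lit 100, nat_lit 160, nat_lit 180], [nat_lit 0, nat_lit 0, nat_lit 2560], [(nat_lit 0, nat_lit 0, nat_lit 0), (nat_lit 0, nat_lit 0, nat_lit 0), (nat_lit 600, nat_lit 1000, nat_lit 800)], (nat_lit 100, nat_lit 60, nat_lit 80)⟩
noncomputable def p106_k15 : C1.Kn := ⟨[nat_lit 20, nat_lit 80, nat_lit 100], [nat_lit 0, nat_lit 2121, nat_lit 3610], [(nat_lit 0, nat_lit 0, nat_lit 0), (nat_lit 1000, nat_lit 558, nat_lit 551), (nat_lit 1000, nat_lit 436, nat_lit 895)], (nat_lit 44, nat_lit 100, nat_lit 82)⟩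
noncomputable def p106_k16 : C1.Kn := ⟨[nat_lit 20, nat_lit 60, nat_lit 80], [nat_lit 0, nat_lit 2136, nat_lit 3185], [(nat_lit 0, nat_lit 0, nat_lit 0), (nat_lit 1000, nat_lit 343, nat_lit 808), (nat_lit 1000, nat_lit 338, nat_lit 820)], (nat_lit 33, nat_lit 100, nat_lit 84)⟩
noncomputable def p106_k17 : C1.Kn := ⟨[nat_lit 100, nat_lit 140, nat_lit 180], [nat_lit 0, nat_lit 766, nat_lit 3056], [(nat_lit 0, nat_lit 0, nat_lit 0), (nat_lit 1000, nat_lit 1000, nat_lit 299), (nat_lit 809, nat_lit 1000, nat_lit 722)], (nat_lit 100, nat_lit 81, nat_lit 72)⟩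
noncomputable def p106_k18 : C1.Kn := ⟨[nat_lit 100, nat_lit 140, nat_lit 180], [nat_lit 0, nat_lit 766, nat_lit 3056], [(nat_lit 0, nat_lit 0, nat_lit 0), (nat_lit 1000, nat_lit 1000, nat_lit 299), (nat_lit 809, nat_lit 1000, nat_lit 722)], (nat_lit 100, nat_lit 72, nat_lit 81)⟩
noncomputable def p106_k19 : C1.Kn := ⟨[nat_lit 20, nat_lit 80, nat_lit 140], [nat_lit 0, nat_lit 0, nat_lit 4928], [(nat_lit 0, nat_lit 0, nat_lit 0), (nat_lit 0, nat_lit 0, nat_lit 0), (nat_lit 950, nat_lit 618, nat_lit 1000)], (nat_lit 62, nat_lit 100, nat_lit 94)⟩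
noncomputable def p106_k20 : C1.Kn := ⟨[nat_lit 100, nat_lit 160, nat_lit 200], [nat_lit 0, nat_lit 0, nat_lit 4782], [(nat_lit 0, nat_lit 0, nat_lit 0), (nat_lit 0, nat_lit 0, nat_lit 0), (nat_lit 475, nat_lit 1000, nat_lit 880)], (nat_lit 0, nat_lit 0, nat_lit 0)⟩
noncomputable def p106_k21 : C1.Kn := ⟨[nat_lit 20, nat_lit 80, nat_lit 120], [nat_lit 0, nat_lit 1046, nat_lit 4184], [(nat_lit 0, nat_lit 0, nat_lit 0), (nat_lit 1000, nat_lit 782, nat_lit 272), (nat_lit 1000, nat_lit 536, nat_lit 947)], (nat_lit 53, nat_lit 100, nat_lit 93)⟩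
noncomputable def p106_k22 : C1.Kn := ⟨[nat_lit 20, nat_lit 80, nat_lit 120], [nat_lit 0, nat_lit 2121, nat_lit 4818], [(nat_lit 0, nat_lit 0, nat_lit 0), (nat_lit 1000, nat_lit 558, nat_lit 551), (nat_lit 1000, nat_lit 443, nat_lit 981)], (nat_lit 44, nat_lit 100, nat_lit 92)⟩
noncomputable def p106_k23 : C1.Kn := ⟨[nat_lit 20, nat_lit 80, nat_lit 120], [nat_lit 0, nat_lit 0, nat_lit 3661], [(nat_lit 0, nat_lit 0, nat_lit 0), (nat_lit 0, nat_lit 0, nat_lit 0), (nat_lit 1000, nat_lit 611, nat_lit 913)], (nat_lit 61, nat_lit 100, nat_lit 91)⟩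
noncomputable def p106_k24 : C1.Kn := ⟨[nat_lit 20, nat_lit 120], [nat_lit 0, nat_lit 3531], [(nat_lit 0, nat_lit 0, nat_lit 0), (nat_lit 1000, nat_lit 558, nat_lit 551)], (nat_lit 44, nat_lit 100, nat_lit 92)⟩
noncomputable def p106_k25 : C1.Kn := ⟨[nat_lit 20, nat_lit 140], [nat_lit 0, nat_lit 0], [(nat_lit 0, nat_lit 0, nat_lit 0), (nat_lit 0, nat_lit 0, nat_lit 0)], (nat_lit 62, nat_lit 100, nat_lit 94)⟩
noncomputable def p106_k26 : C1.Kn := ⟨[nat_lit 20, nat_lit 60, nat_lit 120], [nat_lit 0, nat_lit 0, nat_lit 3661], [(nat_lit 0, nat_lit 0, nat_lit 0), (nat_lit 0, nat_lit 0, nat_lit 0), (nat_lit 1000, nat_lit 611, nat_lit 913)], (nat_lit 61, nat_lit 100, nat_lit 89)⟩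
noncomputable def p106_k27 : C1.Kn := ⟨[nat_lit 100, nat_lit 140, nat_lit 200], [nat_lit 0, nat_lit 0, nat_lit 3647], [(nat_lit 0, nat_lit 0, nat_lit 0), (nat_lit 0, nat_lit 0, nat_lit 0), (nat_lit 726, nat_lit 1000, nat_lit 688)], (nat_lit 0, nat_lit 0, nat_lit 0)⟩
noncomputable def p106_k28 : C1.Kn := ⟨[nat_lit 20, nat_lit 60, nat_lit 120], [nat_lit 0, nat_lit 0, nat_lit 3661], [(nat_lit 0, nat_lit 0, nat_lit 0), (nat_lit 0, nat_lit 0, nat_lit 0), (nat_lit 1000, nat_lit 611, nat_lit 913)], (nat_lit 61, nat_lit 100, nat_lit 91)⟩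
noncomputable def p106_k29 : C1.Kn := ⟨[nat_lit 100, nat_lit 140, nat_lit 200], [nat_lit 0, nat_lit 508, nat_lit 4027], [(nat_lit 0, nat_lit 0, nat_lit 0), (nat_lit 1000, nat_lit 1000, nat_lit 198), (nat_lit 777, nat_lit 1000, nat_lit 712)], (nat_lit 0, nat_lit 0, nat_lit 0)⟩
noncomputable def p106_k30 : C1.Kn := ⟨[nat_lit 20, nat_lit 60, nat_lit 120], [nat_lit 0, nat_lit 698, nat_lit 4166], [(nat_lit 0, nat_lit 0, nat_lit 0), (nat_lit 1000, nat_lit 782, nat_lit 272), (nat_lit 1000, nat_lit 529, nat_lit 902)], (nat_lit 53, nat_lit 100, nat_lit 87)⟩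
noncomputable def p106_k31 : C1.Kn := ⟨[nat_lit 20, nat_lit 60, nat_lit 100], [nat_lit 0, nat_lit 1056, nat_lit 3301], [(nat_lit 0, nat_lit 0, nat_lit 0), (nat_lit 1000, nat_lit 671, nat_lit 411), (nat_lit 1000, nat_lit 484, nat_lit 867)], (nat_lit 48, nat_lit 100, nat_lit 87)⟩
noncomputable def p106_k32 : C1.Kn := ⟨[nat_lit 20, nat_lit 60, nat_lit 120], [nat_lit 0, nat_lit 698, nat_lit 4166], [(nat_lit 0, nat_lit 0, nat_lit 0), (nat_lit 1000, nat_lit 782, nat_lit 272), (nat_lit 1000, nat_lit 529, nat_lit 902)], (nat_lit 53, nat_lit 100, nat_lit 93)⟩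
noncomputable def p106_k33 : C1.Kn := ⟨[nat_lit 20, nat_lit 60, nat_lit 120], [nat_lit 0, nat_lit 916, nat_lit 4318], [(nat_lit 0, nat_lit 0, nat_lit 0), (nat_lit 1000, nat_lit 714, nat_lit 357), (nat_lit 1000, nat_lit 502, nat_lit 885)], (nat_lit 50, nat_lit 100, nat_lit 87)⟩
noncomputable def p106_k34 : C1.Kn := ⟨[nat_lit 20, nat_lit 60, nat_lit 120], [nat_lit 0, nat_lit 698, nat_lit 4166], [(nat_lit 0, nat_lit 0, nat_lit 0), (nat_lit 1000, nat_lit 782, nat_lit 272), (nat_lit 1000, nat_lit 529, nat_lit 902)], (nat_lit 53, nat_lit 100, nat_lit 88)⟩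
noncomputable def p106_k35 : C1.Kn := ⟨[nat_lit 20, nat_lit 60, nat_lit 120], [nat_lit 0, nat_lit 1056, nat_lit 4422], [(nat_lit 0, nat_lit 0, nat_lit 0), (nat_lit 1000, nat_lit 671, nat_lit 411), (nat_lit 1000, nat_lit 484, nat_lit 876)], (nat_lit 48, nat_lit 100, nat_lit 88)⟩
noncomputable def p106_k36 : C1.Kn := ⟨[nat_lit 100, nat_lit 140, nat_lit 180], [nat_lit 0, nat_lit 766, nat_lit 3056], [(nat_lit 0, nat_lit 0, nat_lit 0), (nat_lit 1000, nat_lit 1000, nat_lit 299), (nat_lit 809, nat_lit 1000, nat_lit 722)], (nat_lit 100, nat_lit 63, nat_lit 88)⟩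
noncomputable def p106_k37 : C1.Kn := ⟨[nat_lit 20, nat_lit 80, nat_lit 100], [nat_lit 0, nat_lit 2121, nat_lit 3610], [(nat_lit 0, nat_lit 0, nat_lit 0), (nat_lit 1000, nat_lit 558, nat_lit 551), (nat_lit 1000, nat_lit 436, nat_lit 895)], (nat_lit 44, nat_lit 100, nat_lit 87)⟩
noncomputable def p106_k38 : C1.Kn := ⟨[nat_lit 20, nat_lit 60, nat_lit 120], [nat_lit 0, nat_lit 1415, nat_lit 4677], [(nat_lit 0, nat_lit 0, nat_lit 0), (nat_lit 1000, nat_lit 558, nat_lit 551), (nat_lit 1000, nat_lit 439, nat_lit 849)], (nat_lit 44, nat_lit 100, nat_lit 92)⟩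
noncomputable def p106_k39 : C1.Kn := ⟨[nat_lit 100, nat_lit 140, nat_lit 200], [nat_lit 0, nat_lit 766, nat_lit 4198], [(nat_lit 0, nat_lit 0, nat_lit 0), (nat_lit 1000, nat_lit 1000, nat_lit 299), (nat_lit 809, nat_lit 1000, nat_lit 722)], (nat_lit 0, nat_lit 0, nat_lit 0)⟩
noncomputable def p106_k40 : C1.Kn := ⟨[nat_lit 20, nat_lit 80, nat_lit 100], [nat_lit 0, nat_lit 2663, nat_lit 3968], [(nat_lit 0, nat_lit 0, nat_lit 0), (nat_lit 1000, nat_lit 445, nat_lit 693), (nat_lit 1000, nat_lit 380, nat_lit 921)], (nat_lit 38, nat_lit 100, nat_lit 92)⟩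
noncomputable def p106_k41 : C1.Kn := ⟨[nat_lit 100, nat_lit 160, nat_lit 200], [nat_lit 0, nat_lit 761, nat_lit 5273], [(nat_lit 0, nat_lit 0, nat_lit 0), (nat_lit 1000, nat_lit 1000, nat_lit 198), (nat_lit 518, nat_lit 1000, nat_lit 909)], (nat_lit 0, nat_lit 0, nat_lit 0)⟩
noncomputable def p106_k42 : C1.Kn := ⟨[nat_lit 20, nat_lit 80, nat_lit 100], [nat_lit 0, nat_lit 3199, nat_lit 4400], [(nat_lit 0, nat_lit 0, nat_lit 0), (nat_lit 1000, nat_lit 333, nat_lit 833), (nat_lit 1000, nat_lit 312, nat_lit 938)], (nat_lit 31, nat_lit 100, nat_lit 92)⟩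
noncomputable def p106_k43 : C1.Kn := ⟨[nat_lit 20, nat_lit 100], [nat_lit 0, nat_lit 2826], [(nat_lit 0, nat_lit 0, nat_lit 0), (nat_lit 1000, nat_lit 558, nat_lit 551)], (nat_lit 44, nat_lit 100, nat_lit 87)⟩
noncomputable def p106_k44 : C1.Kn := ⟨[nat_lit 20, nat_lit 60, nat_lit 100], [nat_lit 0, nat_lit 1415, nat_lit 3591], [(nat_lit 0, nat_lit 0, nat_lit 0), (nat_lit 1000, nat_lit 558, nat_lit 551), (nat_lit 1000, nat_lit 439, nat_lit 849)], (nat_lit 44, nat_lit 100, nat_lit 87)⟩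
noncomputable def p106_k45 : C1.Kn := ⟨[nat_lit 20, nat_lit 60, nat_lit 80], [nat_lit 0, nat_lit 2136, nat_lit 3185], [(nat_lit 0, nat_lit 0, nat_lit 0), (nat_lit 1000, nat_lit 343, nat_lit 808), (nat_lit 1000, nat_lit 338, nat_lit 820)], (nat_lit 32, nat_lit 100, nat_lit 88)⟩
noncomputable def p106_k46 : C1.Kn := ⟨[nat_lit 20, nat_lit 60, nat_lit 100], [nat_lit 0, nat_lit 2136, nat_lit 4235], [(nat_lit 0, nat_lit 0, nat_lit 0), (nat_lit 1000, nat_lit 343, nat_lit 808), (nat_lit 1000, nat_lit 338, nat_lit 820)], (nat_lit 31, nat_lit 100, nat_lit 92)⟩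
noncomputable def p106_k47 : C1.Kn := ⟨[nat_lit 20, nat_lit 60, nat_lit 100], [nat_lit 0, nat_lit 1776, nat_lit 3880], [(nat_lit 0, nat_lit 0, nat_lit 0), (nat_lit 1000, nat_lit 445, nat_lit 693), (nat_lit 1000, nat_lit 394, nat_lit 822)], (nat_lit 38, nat_lit 100, nat_lit 92)⟩
noncomputable def p106_k48 : C1.Kn := ⟨[nat_lit 20, nat_lit 80, nat_lit 120], [nat_lit 0, nat_lit 0, nat_lit 3661], [(nat_lit 0, nat_lit 0, nat_lit 0), (nat_lit 0, nat_lit 0, nat_lit 0), (nat_lit 1000, nat_lit 611, nat_lit 913)], (nat_lit 60, nat_lit 100, nat_lit 87)⟩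
noncomputable def p106_k49 : C1.Kn := ⟨[nat_lit 20, nat_lit 60, nat_lit 120], [nat_lit 0, nat_lit 0, nat_lit 3661], [(nat_lit 0, nat_lit 0, nat_lit 0), (nat_lit 0, nat_lit 0, nat_lit 0), (nat_lit 1000, nat_lit 611, nat_lit 913)], (nat_lit 60, nat_lit 100, nat_lit 87)⟩
noncomputable def p106_k50 : C1.Kn := ⟨[nat_lit 20, nat_lit 80, nat_lit 120], [nat_lit 0, nat_lit 1046, nat_lit 4184], [(nat_lit 0, nat_lit 0, nat_lit 0), (nat_lit 1000, nat_lit 782, nat_lit 272), (nat_lit 1000, nat_lit 536, nat_lit 947)], (nat_lit 53, nat_lit 100, nat_lit 87)⟩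
noncomputable def p106_k51 : C1.Kn := ⟨[nat_lit 20, nat_lit 80, nat_lit 100], [nat_lit 0, nat_lit 1582, nat_lit 3301], [(nat_lit 0, nat_lit 0, nat_lit 0), (nat_lit 1000, nat_lit 671, nat_lit 411), (nat_lit 1000, nat_lit 484, nat_lit 867)], (nat_lit 48, nat_lit 100, nat_lit 87)⟩
noncomputable def p106_k52 : C1.Kn := ⟨[nat_lit 20, nat_lit 60, nat_lit 120], [nat_lit 0, nat_lit 339, nat_lit 3911], [(nat_lit 0, nat_lit 0, nat_lit 0), (nat_lit 1000, nat_lit 894, nat_lit 132), (nat_lit 1000, nat_lit 574, nat_lit 928)], (nat_lit 57, nat_lit 100, nat_lit 87)⟩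
noncomputable def p106_l0 : Lf2 := ⟨nat_lit 0, nat_lit 20, [nat_lit 5, nat_lit 5, nat_lit 5, nat_lit 20], true, nat_lit 8, nat_lit 160, nat_lit 0, nat_lit 384, ⟨nat_lit 0, nat_lit 232, nat_lit 768, nat_lit 5, nat_lit 185, nat_lit 1000, nat_lit 70, nat_lit 768, nat_lit 45067, nat_lit 267, nat_lit 417, nat_lit 210, nat_lit 52511754, nat_lit 11855182, nat_lit 2633064, nat_lit 3280853, false, false⟩,
 nat_lit 0, nat_lit 0, nat_lit 0, nat_lit 3010, nat_lit 2260, nat_lit 0, nat_lit 0, nat_lit 0, nat_lit 0, nat_lit 0, nat_lit 0, nat_lit 0, nat_lit 0, nat_lit 0, nat_lit 47, nat_lit 250000, nat_lit 0, nat_lit 0, [(nat_lit 25, [(nat_lit 0, nat_lit 232), (nat_lit 4, nat_lit 768)])],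
 ⟨p106_k0, nat_lit 0, nat_lit 0, nat_lit 156, nat_lit 0, nat_lit 0, [nat_lit 924352001, nat_lit 603648001, nat_lit 36281599], [], [nat_lit 18420271378, nat_lit 19890877792, nat_lit 21828207971, nat_lit 22930010909, nat_lit 19377456242, nat_lit 20544130682, nat_lit 22527760885, nat_lit 23633253205], nat_lit 0, nat_lit 0, nat_lit 0, nat_lit 0, nat_lit 0, nat_lit 0, [], [nat_lit 20, nat_lit 40, nat_lit 40, nat_lit 80, nat_lit 16, nat_lit 317, nat_lit 100, nat_lit 12]⟩, C1.Rw.none,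
 ⟨nat_lit 2236, nat_lit 3163, ⟨.ofNat (nat_lit 316827), .ofNat (nat_lit 560952), .ofNat (nat_lit 361011), .ofNat (nat_lit 605240), .ofNat (nat_lit 328641), .ofNat (nat_lit 557014), .ofNat (nat_lit 374063), .ofNat (nat_lit 602541)⟩, ⟨.ofNat (nat_lit 20000), .ofNat (nat_lit 306116), .ofNat (nat_lit 20000), .ofNat (nat_lit 350426), .ofNat (nat_lit 20000), .ofNat (nat_lit 306337), .ofNat (nat_lit 20000), .ofNat (nat_lit 351886)⟩⟩, [⟨nat_lit 3, nat_lit 100, nat_lit 48, nat_lit 71, nat_lit 158485808⟩]⟩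
noncomputable def p106_l1 : Lf2 := ⟨nat_lit 0, nat_lit 20, [nat_lit 5, nat_lit 5, nat_lit 5, nat_lit 20], true, nat_lit 20, nat_lit 160, nat_lit 0, nat_lit 384, ⟨nat_lit 0, nat_lit 285, nat_lit 715, nat_lit 5, nat_lit 196, nat_lit 1000, nat_lit 75, nat_lit 715, nat_lit 54150, nat_lit 272, nat_lit 267, nat_lit 211, nat_lit 51167650, nat_lit 12878987, nat_lit 2953363, nat_lit 3475825, false, false⟩,
 nat_lit 0, nat_lit 0, nat_lit 0, nat_lit 0, nat_lit 2364, nat_lit 0, nat_lit 0, nat_lit 0, nat_lit 0, nat_lit 0, nat_lit 0, nat_lit 0, nat_lit 0, nat_lit 0, nat_lit 64, nat_lit 250000, nat_lit 0, nat_lit 0, [(nat_lit 28, [(nat_lit 0, nat_lit 285), (nat_lit 4, nat_lit 715)])],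
 ⟨p106_k1, nat_lit 0, nat_lit 0, nat_lit 165, nat_lit 0, nat_lit 0, [nat_lit 1023300000, nat_lit 144564000], [], [nat_lit 20105849304, nat_lit 21763595200, nat_lit 22950667952, nat_lit 24383118832, nat_lit 20958514997, nat_lit 22077524541, nat_lit 23624517680, nat_lit 24749825328], nat_lit 0, nat_lit 0, nat_lit 0, nat_lit 0, nat_lit 0, nat_lit 0, [], [nat_lit 88, nat_lit 40, nat_lit 40, nat_lit 80, nat_lit 89, nat_lit 317, nat_lit 100, nat_lit 12]⟩, C1.Rw.none,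
 ⟨nat_lit 0, nat_lit 2237, ⟨.ofNat (nat_lit 370513), .ofNat (nat_lit 557013), .ofNat (nat_lit 414208), .ofNat (nat_lit 602531), .ofNat (nat_lit 385947), .ofNat (nat_lit 549998), .ofNat (nat_lit 434094), .ofNat (nat_lit 599967)⟩, ⟨.ofNat (nat_lit 50000), .ofNat (nat_lit 306334), .ofNat (nat_lit 50000), .ofNat (nat_lit 351885), .ofNat (nat_lit 50000), .ofNat (nat_lit 299996), .ofNat (nat_lit 50000), .ofNat (nat_lit 349998)⟩⟩, [⟨nat_lit 3, nat_lit 100, nat_lit 54, nat_lit 57, nat_lit 125423318⟩]⟩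
noncomputable def p106_l2 : Lf2 := ⟨nat_lit 0, nat_lit 20, [nat_lit 5, nat_lit 5, nat_lit 5, nat_lit 20], true, nat_lit 160, nat_lit 248, nat_lit 0, nat_lit 384, ⟨nat_lit 0, nat_lit 645, nat_lit 355, nat_lit 5, nat_lit 185, nat_lit 1000, nat_lit 155, nat_lit 355, nat_lit 61175, nat_lit 275, nat_lit 417, nat_lit 210, nat_lit 46853347, nat_lit 11477317, nat_lit 8669336, nat_lit 4383527, false, false⟩,
 nat_lit 0, nat_lit 0, nat_lit 0, nat_lit 3155, nat_lit 3595, nat_lit 0, nat_lit 0, nat_lit 0, nat_lit 0, nat_lit 0, nat_lit 0, nat_lit 0, nat_lit 0, nat_lit 0, nat_lit 0, nat_lit 226925, nat_lit 0, nat_lit 0, [(nat_lit 25, [(nat_lit 0, nat_lit 645), (nat_lit 3, nat_lit 355)]), (nat_lit 28, [(nat_lit 0, nat_lit 645), (nat_lit 3, nat_lit 355)])],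
 ⟨p106_k2, nat_lit 0, nat_lit 0, nat_lit 105, nat_lit 0, nat_lit 0, [nat_lit 1061340001, nat_lit 890978000], [], [nat_lit 19836335500, nat_lit 22986907440, nat_lit 22576508860, nat_lit 25237842400, nat_lit 22422965516, nat_lit 25450144951, nat_lit 24582892879, nat_lit 27207806875], nat_lit 0, nat_lit 0, nat_lit 0, nat_lit 0, nat_lit 0, nat_lit 0, [], [nat_lit 88, nat_lit 40, nat_lit 40, nat_lit 80, nat_lit 89, nat_lit 345, nat_lit 125, nat_lit 12]⟩, C1.Rw.none,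
 ⟨nat_lit 0, nat_lit 3163, ⟨.ofNat (nat_lit 309443), .ofNat (nat_lit 560951), .ofNat (nat_lit 351143), .ofNat (nat_lit 605128), .ofNat (nat_lit 342303), .ofNat (nat_lit 549998), .ofNat (nat_lit 389693), .ofNat (nat_lit 599865)⟩, ⟨.ofNat (nat_lit 306113), .ofNat (nat_lit 440207), .ofNat (nat_lit 350425), .ofNat (nat_lit 484518), .ofNat (nat_lit 299996), .ofNat (nat_lit 409993), .ofNat (nat_lit 349998), .ofNat (nat_lit 459993)⟩⟩, [⟨nat_lit 4, nat_lit 100, nat_lit 44, nat_lit 87, nat_lit 308684882⟩]⟩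
noncomputable def b_V_900_500_20_5 : St := ⟨true, nat_lit 0, nat_lit 1, nat_lit 1, nat_lit 120, nat_lit 360, nat_lit 400, nat_lit 200, nat_lit 240, nat_lit 80, nat_lit 240, nat_lit 80, nat_lit 120, nat_lit 8, nat_lit 248, nat_lit 0, nat_lit 384, nat_lit 40, nat_lit 80, nat_lit 0, nat_lit 0, nat_lit 0, nat_lit 0⟩
theorem d_V_900_500_20_5 (h : EB TB.env) : Dead b_V_900_500_20_5 := chkB_sound0 h (T :=
(.spl (nat_lit 4) (nat_lit 160)
(.spl (nat_lit 0) (nat_lit 380)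
(.leaf p106_l0)
(.trZ (nat_lit 0) (nat_lit 100) (nat_lit 44) (nat_lit 90) (nat_lit 112) (.trZ (nat_lit 3) (nat_lit 100) (nat_lit 54) (nat_lit 57) (nat_lit 20) (.leaf p106_l1))))
(.leaf p106_l2))) (by decide +kernel)
noncomputable def p106_l3 : Lf2 := ⟨nat_lit 0, nat_lit 20, [nat_lit 5, nat_lit 5, nat_lit 5, nat_lit 20], false, nat_lit 8, nat_lit 80, nat_lit 0, nat_lit 336, ⟨nat_lit 56, nat_lit 349, nat_lit 595, nat_lit 6, nat_lit 244, nat_lit 944, nat_lit 43, nat_lit 595, nat_lit 17067, nat_lit 247, nat_lit 61180, nat_lit 200, nat_lit 47717819, nat_lit 18052110, nat_lit 1230071, nat_lit 3446298, true, true⟩,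
 nat_lit 0, nat_lit 0, nat_lit 1415, nat_lit 0, nat_lit 2479, nat_lit 606, nat_lit 0, nat_lit 0, nat_lit 0, nat_lit 48, nat_lit 0, nat_lit 0, nat_lit 0, nat_lit 0, nat_lit 1, nat_lit 236000, nat_lit 0, nat_lit 0, [(nat_lit 25, [(nat_lit 0, nat_lit 349), (nat_lit 4, nat_lit 595)])],
 ⟨p106_k0, nat_lit 0, nat_lit 0, nat_lit 142, nat_lit 0, nat_lit 0, [nat_lit 756324001, nat_lit 458192534, nat_lit 10200266], [], [nat_lit 22385466186, nat_lit 23557742103, nat_lit 23809976443, nat_lit 24992400956, nat_lit 21874039357, nat_lit 22935456210, nat_lit 23208715448, nat_lit 24232390750], nat_lit 0, nat_lit 0, nat_lit 0, nat_lit 0, nat_lit 0, nat_lit 0, [], [nat_lit 20, nat_lit 40, nat_lit 40, nat_lit 80, nat_lit 16, nat_lit 226, nat_lit 20, nat_lit 7]⟩, ⟨p106_k3, nat_lit 0, nat_lit 0, nat_lit 1041, nat_lit 0, nat_lit 1560193, [nat_lit 350000000, nat_lit 551152000, nat_lit 787248000], [], [nat_lit 2353392976, nat_lit 2320082176,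 nat_lit 2337370968, nat_lit 2301103312, nat_lit 1948676989, nat_lit 1785182053, nat_lit 1805319564, nat_lit 1805330786], nat_lit 1271250, nat_lit 1271250, nat_lit 1271250, nat_lit 1271250, nat_lit 0, nat_lit 2373000, [nat_lit 1412500, nat_lit 1271250, nat_lit 1271250], [nat_lit 60, nat_lit 40, nat_lit 40, nat_lit 80, nat_lit 32, nat_lit 456, nat_lit 225, nat_lit 10]⟩,
 ⟨nat_lit 2236, nat_lit 3163, ⟨.ofNat (nat_lit 560952), .ofNat (nat_lit 621905), .ofNat (nat_lit 605240), .ofNat (nat_lit 666215), .ofNat (nat_lit 557014), .ofNat (nat_lit 614030), .ofNat (nat_lit 602541), .ofNat (nat_lit 659578)⟩, ⟨.ofNat (nat_lit 20000), .ofNat (nat_lit 184209), .ofNat (nat_lit 20000), .ofNat (nat_lit 200000), .ofNat (nat_lit 20000), .ofNat (nat_lit 192306), .ofNat (nat_lit 20000), .ofNat (nat_lit 200000)⟩⟩, [⟨nat_lit 3, nat_lit 100, nat_lit 61, nat_lit 55, nat_lit 235506285⟩, ⟨nat_lit 22, nat_lit 100, nat_lit 98, nat_lit 66, nat_lit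 4979109⟩]⟩
noncomputable def p106_l4 : Lf2 := ⟨nat_lit 0, nat_lit 20, [nat_lit 5, nat_lit 5, nat_lit 5, nat_lit 20], false, nat_lit 8, nat_lit 40, nat_lit 0, nat_lit 248, ⟨nat_lit 86, nat_lit 914, nat_lit 0, nat_lit 7, nat_lit 264, nat_lit 914, nat_lit 24, nat_lit 0, nat_lit 0, nat_lit 0, nat_lit 0, nat_lit 0, nat_lit 46202524, nat_lit 20289664, nat_lit 507812, nat_lit 3329682, true, true⟩,
 nat_lit 0, nat_lit 0, nat_lit 2266, nat_lit 0, nat_lit 2991, nat_lit 970, nat_lit 44, nat_lit 0, nat_lit 0, nat_lit 86, nat_lit 0, nat_lit 0, nat_lit 0, nat_lit 0, nat_lit 0, nat_lit 365600, nat_lit 0, nat_lit 0, [(nat_lit 25, [(nat_lit 1, nat_lit 914)])],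
 ⟨p106_k0, nat_lit 0, nat_lit 0, nat_lit 146, nat_lit 0, nat_lit 0, [nat_lit 852815201, nat_lit 1198201867, nat_lit 1373992800], [], [nat_lit 25167071037, nat_lit 25742239277, nat_lit 26858931828, nat_lit 27413462910, nat_lit 24837614779, nat_lit 25351977645, nat_lit 26340189531, nat_lit 26815566397], nat_lit 0, nat_lit 0, nat_lit 0, nat_lit 0, nat_lit 0, nat_lit 0, [], [nat_lit 20, nat_lit 40, nat_lit 40, nat_lit 80, nat_lit 16, nat_lit 215, nat_lit 10, nat_lit 7]⟩, ⟨p106_k3, nat_lit 0, nat_lit 0, nat_lit 826, nat_lit 0, nat_lit 1103939, [nat_lit 537500000, nat_lit 846412000, nat_lit 1208988000], [], [nat_lit 3398849608, nat_lit 3378280552, nat_lit 3445563384, nat_lit 3433625268, nat_lit 2555491512, nat_lit 2537587558, nat_lit 2586464200, nat_lit 2573218857], nat_lit 1271250, nat_lit 1271250, nat_lit 1271250, nat_lit 1271250, nat_lit 0, nat_lit 1751500, [nat_lit 1412500, nat_lit 1271250, nat_lit 1271250], [nat_lit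 60, nat_lit 40, nat_lit 40, nat_lit 80, nat_lit 32, nat_lit 428, nat_lit 200, nat_lit 10]⟩,
 ⟨nat_lit 2738, nat_lit 3163, ⟨.ofNat (nat_lit 621905), .ofNat (nat_lit 682859), .ofNat (nat_lit 644060), .ofNat (nat_lit 705013), .ofNat (nat_lit 618121), .ofNat (nat_lit 677182), .ofNat (nat_lit 640539), .ofNat (nat_lit 699600)⟩, ⟨.ofNat (nat_lit 20000), .ofNat (nat_lit 100000), .ofNat (nat_lit 20000), .ofNat (nat_lit 100000), .ofNat (nat_lit 20000), .ofNat (nat_lit 100000), .ofNat (nat_lit 20000), .ofNat (nat_lit 100000)⟩⟩, [⟨nat_lit 3, nat_lit 100, nat_lit 65, nat_lit 50, nat_lit 191283677⟩, ⟨nat_lit 3, nat_lit 100, nat_lit 57, nat_lit 62, nat_lit 49989158⟩]⟩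
noncomputable def p106_l5 : Lf2 := ⟨nat_lit 0, nat_lit 20, [nat_lit 5, nat_lit 5, nat_lit 5, nat_lit 20], false, nat_lit 12, nat_lit 40, nat_lit 0, nat_lit 248, ⟨nat_lit 73, nat_lit 927, nat_lit 0, nat_lit 7, nat_lit 263, nat_lit 927, nat_lit 26, nat_lit 0, nat_lit 0, nat_lit 0, nat_lit 0, nat_lit 0, nat_lit 46350410, nat_lit 20076047, nat_lit 573543, nat_lit 3343665, true, true⟩,
 nat_lit 0, nat_lit 0, nat_lit 1934, nat_lit 0, nat_lit 2750, nat_lit 828, nat_lit 223, nat_lit 0, nat_lit 0, nat_lit 73, nat_lit 0, nat_lit 0, nat_lit 0, nat_lit 0, nat_lit 0, nat_lit 231750, nat_lit 0, nat_lit 0, [(nat_lit 25, [(nat_lit 0, nat_lit 927)])],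
 ⟨p106_k4, nat_lit 0, nat_lit 0, nat_lit 148, nat_lit 0, nat_lit 0, [nat_lit 776702001, nat_lit 1508463601, nat_lit 2419636000], [], [nat_lit 24930061703, nat_lit 25520749651, nat_lit 26747911051, nat_lit 27393641300, nat_lit 24688865853, nat_lit 25186207853, nat_lit 26120046853, nat_lit 26753555000], nat_lit 0, nat_lit 0, nat_lit 0, nat_lit 0, nat_lit 0, nat_lit 0, [], [nat_lit 20, nat_lit 40, nat_lit 40, nat_lit 80, nat_lit 16, nat_lit 215, nat_lit 10, nat_lit 7]⟩, ⟨p106_k3, nat_lit 0, nat_lit 0, nat_lit 982, nat_lit 0, nat_lit 1443047, [nat_lit 456250000, nat_lit 718466000, nat_lit 1026234000], [], [nat_lit 2864817240, nat_lit 2847128758, nat_lit 2911155352, nat_lit 2914753568, nat_lit 2149181195, nat_lit 2133765467, nat_lit 2176972518, nat_lit 2169607853], nat_lit 1271250, nat_lit 1271250, nat_lit 1271250, nat_lit 1271250, nat_lit 0, nat_lit 1751500, [nat_lit 1412500, nat_lit 1271250, nat_lit 1271250], [nat_lit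 60, nat_lit 40, nat_lit 40, nat_lit 80, nat_lit 32, nat_lit 428, nat_lit 200, nat_lit 10]⟩,
 ⟨nat_lit 2236, nat_lit 2739, ⟨.ofNat (nat_lit 618121), .ofNat (nat_lit 677182), .ofNat (nat_lit 640539), .ofNat (nat_lit 699600), .ofNat (nat_lit 614030), .ofNat (nat_lit 671045), .ofNat (nat_lit 636804), .ofNat (nat_lit 693819)⟩, ⟨.ofNat (nat_lit 30000), .ofNat (nat_lit 100000), .ofNat (nat_lit 30000), .ofNat (nat_lit 100000), .ofNat (nat_lit 30000), .ofNat (nat_lit 100000), .ofNat (nat_lit 30000), .ofNat (nat_lit 100000)⟩⟩, [⟨nat_lit 13, nat_lit 53, nat_lit 80, nat_lit 100, nat_lit 255645906⟩, ⟨nat_lit 3, nat_lit 100, nat_lit 56, nat_lit 60, nat_lit 310242980⟩]⟩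
noncomputable def p106_l6 : Lf2 := ⟨nat_lit 0, nat_lit 20, [nat_lit 5, nat_lit 5, nat_lit 5, nat_lit 20], false, nat_lit 8, nat_lit 40, nat_lit 0, nat_lit 248, ⟨nat_lit 117, nat_lit 883, nat_lit 0, nat_lit 7, nat_lit 273, nat_lit 883, nat_lit 24, nat_lit 0, nat_lit 0, nat_lit 0, nat_lit 0, nat_lit 0, nat_lit 45265984, nat_lit 21230998, nat_lit 503018, nat_lit 3383464, true, true⟩,
 nat_lit 0, nat_lit 0, nat_lit 2433, nat_lit 0, nat_lit 2915, nat_lit 1163, nat_lit 79, nat_lit 0, nat_lit 0, nat_lit 124, nat_lit 0, nat_lit 0, nat_lit 0, nat_lit 0, nat_lit 0, nat_lit 353200, nat_lit 0, nat_lit 0, [(nat_lit 25, [(nat_lit 1, nat_lit 883)])],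
 ⟨p106_k0, nat_lit 0, nat_lit 0, nat_lit 146, nat_lit 0, nat_lit 0, [nat_lit 855704401, nat_lit 1268877734, nat_lit 1539371600], [], [nat_lit 25233019206, nat_lit 25753715640, nat_lit 26754744725, nat_lit 27235796436, nat_lit 24924097661, nat_lit 25433092951, nat_lit 26415768541, nat_lit 26886461831], nat_lit 0, nat_lit 0, nat_lit 0, nat_lit 0, nat_lit 0, nat_lit 0, [], [nat_lit 20, nat_lit 40, nat_lit 40, nat_lit 80, nat_lit 16, nat_lit 215, nat_lit 10, nat_lit 7]⟩, ⟨p106_k5, nat_lit 0, nat_lit 0, nat_lit 795, nat_lit 0, nat_lit 1042053, [nat_lit 731250000, nat_lit 1151514000, nat_lit 1644786000], [], [nat_lit 4299526314, nat_lit 4296402436, nat_lit 4385329862, nat_lit 4375861128, nat_lit 3349780429, nat_lit 3332808138, nat_lit 3405644102, nat_lit 3400440181], nat_lit 1271250, nat_lit 1271250, nat_lit 1271250, nat_lit 1271250, nat_lit 0, nat_lit 1751500, [nat_lit 1412500, nat_lit 1271250, nat_lit 1271250], [nat_lit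 60, nat_lit 40, nat_lit 40, nat_lit 80, nat_lit 32, nat_lit 456, nat_lit 225, nat_lit 10]⟩,
 ⟨nat_lit 2738, nat_lit 3163, ⟨.ofNat (nat_lit 644060), .ofNat (nat_lit 705013), .ofNat (nat_lit 666215), .ofNat (nat_lit 727168), .ofNat (nat_lit 640539), .ofNat (nat_lit 699600), .ofNat (nat_lit 662956), .ofNat (nat_lit 722017)⟩, ⟨.ofNat (nat_lit 20000), .ofNat (nat_lit 100000), .ofNat (nat_lit 20000), .ofNat (nat_lit 100000), .ofNat (nat_lit 20000), .ofNat (nat_lit 100000), .ofNat (nat_lit 20000), .ofNat (nat_lit 100000)⟩⟩, [⟨nat_lit 3, nat_lit 100, nat_lit 65, nat_lit 50, nat_lit 165178541⟩]⟩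
noncomputable def p106_l7 : Lf2 := ⟨nat_lit 0, nat_lit 20, [nat_lit 5, nat_lit 5, nat_lit 5, nat_lit 20], false, nat_lit 12, nat_lit 40, nat_lit 0, nat_lit 248, ⟨nat_lit 83, nat_lit 917, nat_lit 0, nat_lit 7, nat_lit 272, nat_lit 917, nat_lit 26, nat_lit 0, nat_lit 0, nat_lit 0, nat_lit 0, nat_lit 0, nat_lit 45401280, nat_lit 21030586, nat_lit 568134, nat_lit 3399009, true, true⟩,
 nat_lit 0, nat_lit 0, nat_lit 1723, nat_lit 0, nat_lit 2748, nat_lit 824, nat_lit 183, nat_lit 0, nat_lit 0, nat_lit 77, nat_lit 0, nat_lit 0, nat_lit 0, nat_lit 0, nat_lit 0, nat_lit 229250, nat_lit 0, nat_lit 0, [(nat_lit 25, [(nat_lit 0, nat_lit 917)])],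
 ⟨p106_k4, nat_lit 0, nat_lit 0, nat_lit 148, nat_lit 0, nat_lit 0, [nat_lit 778442001, nat_lit 1527595601, nat_lit 2460956000], [], [nat_lit 25462402874, nat_lit 25969498203, nat_lit 26917734937, nat_lit 27388768165, nat_lit 25221683981, nat_lit 25718884729, nat_lit 26652596037, nat_lit 27112997785], nat_lit 0, nat_lit 0, nat_lit 0, nat_lit 0, nat_lit 0, nat_lit 0, [], [nat_lit 20, nat_lit 40, nat_lit 40, nat_lit 80, nat_lit 16, nat_lit 215, nat_lit 10, nat_lit 7]⟩, ⟨p106_k5, nat_lit 0, nat_lit 0, nat_lit 924, nat_lit 0, nat_lit 1314606, [nat_lit 518750000, nat_lit 816886000, nat_lit 1166814000], [], [nat_lit 3145638862, nat_lit 3131330192, nat_lit 3183903592, nat_lit 3196956654, nat_lit 2450494353, nat_lit 2438502938, nat_lit 2480521151, nat_lit 2467815045], nat_lit 1271250, nat_lit 1271250, nat_lit 1271250, nat_lit 1271250, nat_lit 0, nat_lit 1751500, [nat_lit 1412500, nat_lit 1271250, nat_lit 1271250], [nat_lit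 60, nat_lit 40, nat_lit 40, nat_lit 80, nat_lit 32, nat_lit 456, nat_lit 225, nat_lit 10]⟩,
 ⟨nat_lit 2236, nat_lit 2739, ⟨.ofNat (nat_lit 640539), .ofNat (nat_lit 699600), .ofNat (nat_lit 662956), .ofNat (nat_lit 722017), .ofNat (nat_lit 636804), .ofNat (nat_lit 693819), .ofNat (nat_lit 659578), .ofNat (nat_lit 716594)⟩, ⟨.ofNat (nat_lit 30000), .ofNat (nat_lit 100000), .ofNat (nat_lit 30000), .ofNat (nat_lit 100000), .ofNat (nat_lit 30000), .ofNat (nat_lit 100000), .ofNat (nat_lit 30000), .ofNat (nat_lit 100000)⟩⟩, [⟨nat_lit 3, nat_lit 100, nat_lit 56, nat_lit 60, nat_lit 188843383⟩]⟩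
noncomputable def p106_l8 : Lf2 := ⟨nat_lit 0, nat_lit 20, [nat_lit 5, nat_lit 5, nat_lit 5, nat_lit 20], false, nat_lit 40, nat_lit 80, nat_lit 0, nat_lit 300, ⟨nat_lit 83, nat_lit 917, nat_lit 0, nat_lit 7, nat_lit 263, nat_lit 917, nat_lit 59, nat_lit 0, nat_lit 0, nat_lit 0, nat_lit 0, nat_lit 0, nat_lit 45141447, nat_lit 19920299, nat_lit 1938254, nat_lit 3791414, true, true⟩,
 nat_lit 0, nat_lit 0, nat_lit 2129, nat_lit 0, nat_lit 2873, nat_lit 912, nat_lit 6, nat_lit 0, nat_lit 0, nat_lit 78, nat_lit 0, nat_lit 0, nat_lit 0, nat_lit 0, nat_lit 0, nat_lit 440000, nat_lit 0, nat_lit 0, [(nat_lit 25, [(nat_lit 1, nat_lit 795), (nat_lit 2, nat_lit 122)])],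
 ⟨p106_k0, nat_lit 0, nat_lit 0, nat_lit 132, nat_lit 0, nat_lit 0, [nat_lit 928614801, nat_lit 1022628134, nat_lit 770680400], [], [nat_lit 24450767797, nat_lit 25486002581, nat_lit 25963990125, nat_lit 27007975580, nat_lit 24022515949, nat_lit 25028739413, nat_lit 25499125581, nat_lit 26444038026], nat_lit 0, nat_lit 0, nat_lit 0, nat_lit 0, nat_lit 0, nat_lit 0, [], [nat_lit 20, nat_lit 40, nat_lit 40, nat_lit 80, nat_lit 16, nat_lit 226, nat_lit 20, nat_lit 7]⟩, ⟨p106_k3, nat_lit 0, nat_lit 0, nat_lit 982, nat_lit 0, nat_lit 1443047, [nat_lit 518750000, nat_lit 816886000, nat_lit 1166814000], [], [nat_lit 3386736624, nat_lit 3367369514, nat_lit 3409964260, nat_lit 3391186888, nat_lit 2586903007, nat_lit 2566461156, nat_lit 2617863131, nat_lit 2605058965], nat_lit 1271250, nat_lit 1271250, nat_lit 1271250, nat_lit 1271250, nat_lit 0, nat_lit 2118750, [nat_lit 1412500, nat_lit 1271250, nat_lit 1271250], [nat_lit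 60, nat_lit 40, nat_lit 40, nat_lit 80, nat_lit 32, nat_lit 456, nat_lit 225, nat_lit 10]⟩,
 ⟨nat_lit 2236, nat_lit 3163, ⟨.ofNat (nat_lit 621905), .ofNat (nat_lit 682859), .ofNat (nat_lit 644060), .ofNat (nat_lit 705013), .ofNat (nat_lit 614030), .ofNat (nat_lit 671045), .ofNat (nat_lit 636804), .ofNat (nat_lit 693819)⟩, ⟨.ofNat (nat_lit 100000), .ofNat (nat_lit 184209), .ofNat (nat_lit 100000), .ofNat (nat_lit 200000), .ofNat (nat_lit 100000), .ofNat (nat_lit 192306), .ofNat (nat_lit 100000), .ofNat (nat_lit 200000)⟩⟩, [⟨nat_lit 13, nat_lit 53, nat_lit 82, nat_lit 100, nat_lit 177206749⟩, ⟨nat_lit 22, nat_lit 90, nat_lit 100, nat_lit 74, nat_lit 2835522⟩]⟩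
noncomputable def p106_l9 : Lf2 := ⟨nat_lit 0, nat_lit 20, [nat_lit 5, nat_lit 5, nat_lit 5, nat_lit 20], false, nat_lit 40, nat_lit 80, nat_lit 0, nat_lit 300, ⟨nat_lit 108, nat_lit 892, nat_lit 0, nat_lit 7, nat_lit 272, nat_lit 892, nat_lit 59, nat_lit 0, nat_lit 0, nat_lit 0, nat_lit 0, nat_lit 0, nat_lit 44240414, nat_lit 20840884, nat_lit 1918702, nat_lit 3840870, true, true⟩,
 nat_lit 0, nat_lit 0, nat_lit 2209, nat_lit 0, nat_lit 2867, nat_lit 1056, nat_lit 28, nat_lit 0, nat_lit 0, nat_lit 108, nat_lit 0, nat_lit 0, nat_lit 0, nat_lit 0, nat_lit 0, nat_lit 425800, nat_lit 0, nat_lit 0, [(nat_lit 25, [(nat_lit 1, nat_lit 777), (nat_lit 2, nat_lit 115)])],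
 ⟨p106_k0, nat_lit 0, nat_lit 0, nat_lit 132, nat_lit 0, nat_lit 0, [nat_lit 926579601, nat_lit 1089306267, nat_lit 937748400], [], [nat_lit 24513878616, nat_lit 25548239752, nat_lit 26026216928, nat_lit 26995564820, nat_lit 24087760224, nat_lit 25093145080, nat_lit 25563522752, nat_lit 26493689786], nat_lit 0, nat_lit 0, nat_lit 0, nat_lit 0, nat_lit 0, nat_lit 0, [], [nat_lit 20, nat_lit 40, nat_lit 40, nat_lit 80, nat_lit 16, nat_lit 226, nat_lit 20, nat_lit 7]⟩, ⟨p106_k5, nat_lit 0, nat_lit 0, nat_lit 924, nat_lit 0, nat_lit 1314606, [nat_lit 675000000, nat_lit 1062936000, nat_lit 1518264000], [], [nat_lit 4102814040, nat_lit 4084995744, nat_lit 4145163936, nat_lit 4137181824, nat_lit 3233986302, nat_lit 3216809988, nat_lit 3293887458, nat_lit 3283159752], nat_lit 1271250, nat_lit 1271250, nat_lit 1271250, nat_lit 1271250, nat_lit 0, nat_lit 2118750, [nat_lit 1412500, nat_lit 1271250, nat_lit 1271250], [nat_lit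 60, nat_lit 40, nat_lit 40, nat_lit 80, nat_lit 32, nat_lit 456, nat_lit 225, nat_lit 10]⟩,
 ⟨nat_lit 2236, nat_lit 3163, ⟨.ofNat (nat_lit 644060), .ofNat (nat_lit 705013), .ofNat (nat_lit 666215), .ofNat (nat_lit 727168), .ofNat (nat_lit 636804), .ofNat (nat_lit 693819), .ofNat (nat_lit 659578), .ofNat (nat_lit 716594)⟩, ⟨.ofNat (nat_lit 100000), .ofNat (nat_lit 184209), .ofNat (nat_lit 100000), .ofNat (nat_lit 200000), .ofNat (nat_lit 100000), .ofNat (nat_lit 192306), .ofNat (nat_lit 100000), .ofNat (nat_lit 200000)⟩⟩, [⟨nat_lit 22, nat_lit 90, nat_lit 100, nat_lit 74, nat_lit 7911770⟩]⟩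
noncomputable def p106_l10 : Lf2 := ⟨nat_lit 0, nat_lit 20, [nat_lit 5, nat_lit 5, nat_lit 5, nat_lit 20], false, nat_lit 8, nat_lit 40, nat_lit 0, nat_lit 200, ⟨nat_lit 98, nat_lit 902, nat_lit 0, nat_lit 8, nat_lit 281, nat_lit 902, nat_lit 24, nat_lit 0, nat_lit 0, nat_lit 0, nat_lit 0, nat_lit 0, nat_lit 44444287, nat_lit 22057231, nat_lit 498482, nat_lit 3426723, true, true⟩,
 nat_lit 0, nat_lit 0, nat_lit 2504, nat_lit 0, nat_lit 2883, nat_lit 1073, nat_lit 55, nat_lit 0, nat_lit 0, nat_lit 93, nat_lit 0, nat_lit 0, nat_lit 0, nat_lit 0, nat_lit 0, nat_lit 360800, nat_lit 0, nat_lit 0, [(nat_lit 25, [(nat_lit 1, nat_lit 902)])],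
 ⟨p106_k0, nat_lit 0, nat_lit 0, nat_lit 151, nat_lit 0, nat_lit 0, [nat_lit 853933601, nat_lit 1225560267, nat_lit 1438010400], [], [nat_lit 26837485887, nat_lit 27316500669, nat_lit 27497253780, nat_lit 28022772884, nat_lit 26507320250, nat_lit 26976041508, nat_lit 27153722419, nat_lit 27607222152], nat_lit 0, nat_lit 0, nat_lit 0, nat_lit 0, nat_lit 0, nat_lit 0, [], [nat_lit 20, nat_lit 40, nat_lit 40, nat_lit 80, nat_lit 16, nat_lit 215, nat_lit 10, nat_lit 7]⟩, ⟨p106_k3, nat_lit 0, nat_lit 0, nat_lit 817, nat_lit 0, nat_lit 1103939, [nat_lit 612500000, nat_lit 964516000, nat_lit 1377684000], [], [nat_lit 4043079256, nat_lit 4017190364, nat_lit 4070859925, nat_lit 4056219759, nat_lit 3161706574, nat_lit 3130821382, nat_lit 3173491465, nat_lit 3150574161], nat_lit 1271250, nat_lit 1271250, nat_lit 1271250, nat_lit 1271250, nat_lit 0, nat_lit 1412500, [nat_lit 1412500, nat_lit 1271250, nat_lit 1271250], [nat_lit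 60, nat_lit 40, nat_lit 40, nat_lit 80, nat_lit 32, nat_lit 428, nat_lit 200, nat_lit 10]⟩,
 ⟨nat_lit 2738, nat_lit 3163, ⟨.ofNat (nat_lit 682859), .ofNat (nat_lit 707240), .ofNat (nat_lit 705013), .ofNat (nat_lit 729395), .ofNat (nat_lit 677182), .ofNat (nat_lit 700807), .ofNat (nat_lit 699600), .ofNat (nat_lit 723224)⟩, ⟨.ofNat (nat_lit 20000), .ofNat (nat_lit 100000), .ofNat (nat_lit 20000), .ofNat (nat_lit 100000), .ofNat (nat_lit 20000), .ofNat (nat_lit 100000), .ofNat (nat_lit 20000), .ofNat (nat_lit 100000)⟩⟩, [⟨nat_lit 13, nat_lit 60, nat_lit 74, nat_lit 100, nat_lit 252631742⟩, ⟨nat_lit 3, nat_lit 100, nat_lit 65, nat_lit 50, nat_lit 168468953⟩]⟩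
noncomputable def p106_l11 : Lf2 := ⟨nat_lit 0, nat_lit 20, [nat_lit 5, nat_lit 5, nat_lit 5, nat_lit 20], true, nat_lit 12, nat_lit 40, nat_lit 0, nat_lit 200, ⟨nat_lit 0, nat_lit 1000, nat_lit 0, nat_lit 8, nat_lit 275, nat_lit 1000, nat_lit 26, nat_lit 0, nat_lit 0, nat_lit 0, nat_lit 0, nat_lit 0, nat_lit 45011933, nat_lit 21422288, nat_lit 565779, nat_lit 3420281, true, true⟩,
 nat_lit 0, nat_lit 0, nat_lit 0, nat_lit 6742, nat_lit 2762, nat_lit 0, nat_lit 156, nat_lit 0, nat_lit 0, nat_lit 0, nat_lit 0, nat_lit 0, nat_lit 0, nat_lit 0, nat_lit 0, nat_lit 250000, nat_lit 0, nat_lit 0, [(nat_lit 25, [(nat_lit 0, nat_lit 1000)])],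
 ⟨p106_k4, nat_lit 0, nat_lit 0, nat_lit 149, nat_lit 0, nat_lit 0, [nat_lit 764000001, nat_lit 1368800000, nat_lit 2118000000], [], [nat_lit 26776359792, nat_lit 27422880112, nat_lit 26988705628, nat_lit 27629326051, nat_lit 26416271398, nat_lit 26877535910, nat_lit 26571999849, nat_lit 27029568261], nat_lit 0, nat_lit 0, nat_lit 0, nat_lit 0, nat_lit 0, nat_lit 0, [], [nat_lit 20, nat_lit 40, nat_lit 40, nat_lit 80, nat_lit 16, nat_lit 215, nat_lit 10, nat_lit 7]⟩, C1.Rw.none,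
 ⟨nat_lit 2236, nat_lit 2739, ⟨.ofNat (nat_lit 677182), .ofNat (nat_lit 683089), .ofNat (nat_lit 699600), .ofNat (nat_lit 705506), .ofNat (nat_lit 671045), .ofNat (nat_lit 676747), .ofNat (nat_lit 693819), .ofNat (nat_lit 699521)⟩, ⟨.ofNat (nat_lit 30000), .ofNat (nat_lit 100000), .ofNat (nat_lit 30000), .ofNat (nat_lit 100000), .ofNat (nat_lit 30000), .ofNat (nat_lit 100000), .ofNat (nat_lit 30000), .ofNat (nat_lit 100000)⟩⟩, [⟨nat_lit 13, nat_lit 53, nat_lit 80, nat_lit 100, nat_lit 478074406⟩, ⟨nat_lit 3, nat_lit 100, nat_lit 56, nat_lit 60, nat_lit 244630907⟩]⟩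
noncomputable def p106_l12 : Lf2 := ⟨nat_lit 0, nat_lit 20, [nat_lit 5, nat_lit 5, nat_lit 5, nat_lit 20], true, nat_lit 40, nat_lit 80, nat_lit 0, nat_lit 260, ⟨nat_lit 0, nat_lit 1000, nat_lit 0, nat_lit 8, nat_lit 280, nat_lit 1000, nat_lit 59, nat_lit 0, nat_lit 0, nat_lit 0, nat_lit 0, nat_lit 0, nat_lit 43491630, nat_lit 21606943, nat_lit 1901427, nat_lit 3878265, true, true⟩,
 nat_lit 0, nat_lit 0, nat_lit 0, nat_lit 7375, nat_lit 2774, nat_lit 0, nat_lit 7, nat_lit 0, nat_lit 0, nat_lit 0, nat_lit 0, nat_lit 0, nat_lit 0, nat_lit 0, nat_lit 0, nat_lit 434200, nat_lit 0, nat_lit 0, [(nat_lit 25, [(nat_lit 1, nat_lit 943), (nat_lit 2, nat_lit 57)])],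
 ⟨p106_k0, nat_lit 0, nat_lit 0, nat_lit 136, nat_lit 0, nat_lit 0, [nat_lit 880345201, nat_lit 923298534, nat_lit 640802000], [], [nat_lit 25784893130, nat_lit 26803198040, nat_lit 26481861023, nat_lit 27620197701, nat_lit 25355839658, nat_lit 26289443489, nat_lit 25990732759, nat_lit 26937577169], nat_lit 0, nat_lit 0, nat_lit 0, nat_lit 0, nat_lit 0, nat_lit 0, [], [nat_lit 20, nat_lit 40, nat_lit 40, nat_lit 80, nat_lit 16, nat_lit 226, nat_lit 20, nat_lit 7]⟩, C1.Rw.none,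
 ⟨nat_lit 2236, nat_lit 3163, ⟨.ofNat (nat_lit 682859), .ofNat (nat_lit 707240), .ofNat (nat_lit 705013), .ofNat (nat_lit 729395), .ofNat (nat_lit 671045), .ofNat (nat_lit 693851), .ofNat (nat_lit 693819), .ofNat (nat_lit 716626)⟩, ⟨.ofNat (nat_lit 100000), .ofNat (nat_lit 184209), .ofNat (nat_lit 100000), .ofNat (nat_lit 200000), .ofNat (nat_lit 100000), .ofNat (nat_lit 192306), .ofNat (nat_lit 100000), .ofNat (nat_lit 200000)⟩⟩, [⟨nat_lit 13, nat_lit 53, nat_lit 82, nat_lit 100, nat_lit 548629208⟩]⟩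
noncomputable def p106_l13 : Lf2 := ⟨nat_lit 0, nat_lit 20, [nat_lit 5, nat_lit 5, nat_lit 5, nat_lit 20], false, nat_lit 8, nat_lit 40, nat_lit 0, nat_lit 200, ⟨nat_lit 128, nat_lit 872, nat_lit 0, nat_lit 8, nat_lit 295, nat_lit 872, nat_lit 24, nat_lit 0, nat_lit 0, nat_lit 0, nat_lit 0, nat_lit 0, nat_lit 43033735, nat_lit 23476244, nat_lit 490021, nat_lit 3492675, true, true⟩,
 nat_lit 0, nat_lit 0, nat_lit 2558, nat_lit 0, nat_lit 2849, nat_lit 1223, nat_lit 64, nat_lit 0, nat_lit 0, nat_lit 139, nat_lit 0, nat_lit 0, nat_lit 0, nat_lit 0, nat_lit 0, nat_lit 348800, nat_lit 0, nat_lit 0, [(nat_lit 25, [(nat_lit 1, nat_lit 872)])],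
 ⟨p106_k0, nat_lit 0, nat_lit 0, nat_lit 155, nat_lit 0, nat_lit 0, [nat_lit 856729601, nat_lit 1293956267, nat_lit 1598054400], [], [nat_lit 27041022218, nat_lit 27517872764, nat_lit 28355500228, nat_lit 28801100503, nat_lit 26720217787, nat_lit 27186843761, nat_lit 28008130640, nat_lit 28444559220], nat_lit 0, nat_lit 0, nat_lit 0, nat_lit 0, nat_lit 0, nat_lit 0, [], [nat_lit 20, nat_lit 40, nat_lit 40, nat_lit 80, nat_lit 16, nat_lit 215, nat_lit 10, nat_lit 7]⟩, ⟨p106_k5, nat_lit 0, nat_lit 0, nat_lit 787, nat_lit 0, nat_lit 1042053, [nat_lit 800000000, nat_lit 1259776000, nat_lit 1799424000], [], [nat_lit 4934336310, nat_lit 4926110600, nat_lit 5035820190, nat_lit 5023837031, nat_lit 3961191905, nat_lit 3944175676, nat_lit 4032635768, nat_lit 4011047029], nat_lit 1271250, nat_lit 1271250, nat_lit 1271250, nat_lit 1271250, nat_lit 0, nat_lit 1412500, [nat_lit 1412500, nat_lit 1271250, nat_lit 1271250], [nat_lit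 60, nat_lit 40, nat_lit 40, nat_lit 80, nat_lit 32, nat_lit 428, nat_lit 200, nat_lit 10]⟩,
 ⟨nat_lit 2738, nat_lit 3163, ⟨.ofNat (nat_lit 705013), .ofNat (nat_lit 753776), .ofNat (nat_lit 727168), .ofNat (nat_lit 775931), .ofNat (nat_lit 699600), .ofNat (nat_lit 746849), .ofNat (nat_lit 722017), .ofNat (nat_lit 769266)⟩, ⟨.ofNat (nat_lit 20000), .ofNat (nat_lit 100000), .ofNat (nat_lit 20000), .ofNat (nat_lit 100000), .ofNat (nat_lit 20000), .ofNat (nat_lit 100000), .ofNat (nat_lit 20000), .ofNat (nat_lit 100000)⟩⟩, [⟨nat_lit 13, nat_lit 57, nat_lit 74, nat_lit 100, nat_lit 246521997⟩, ⟨nat_lit 3, nat_lit 100, nat_lit 65, nat_lit 50, nat_lit 158699845⟩]⟩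
noncomputable def p106_l14 : Lf2 := ⟨nat_lit 0, nat_lit 20, [nat_lit 5, nat_lit 5, nat_lit 5, nat_lit 20], false, nat_lit 12, nat_lit 40, nat_lit 0, nat_lit 200, ⟨nat_lit 116, nat_lit 884, nat_lit 0, nat_lit 8, nat_lit 289, nat_lit 884, nat_lit 26, nat_lit 0, nat_lit 0, nat_lit 0, nat_lit 0, nat_lit 0, nat_lit 43597584, nat_lit 22845827, nat_lit 556589, nat_lit 3490693, true, true⟩,
 nat_lit 0, nat_lit 0, nat_lit 2347, nat_lit 0, nat_lit 2385, nat_lit 1122, nat_lit 297, nat_lit 0, nat_lit 0, nat_lit 106, nat_lit 0, nat_lit 0, nat_lit 0, nat_lit 0, nat_lit 0, nat_lit 221000, nat_lit 0, nat_lit 0, [(nat_lit 25, [(nat_lit 0, nat_lit 884)])],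
 ⟨p106_k4, nat_lit 0, nat_lit 0, nat_lit 153, nat_lit 0, nat_lit 0, [nat_lit 784184000, nat_lit 1590731201, nat_lit 2597312000], [], [nat_lit 26233621223, nat_lit 26679775866, nat_lit 27017423605, nat_lit 27489606236, nat_lit 26056578031, nat_lit 26494609541, nat_lit 26829137802, nat_lit 27292698262], nat_lit 0, nat_lit 0, nat_lit 0, nat_lit 0, nat_lit 0, nat_lit 0, [], [nat_lit 20, nat_lit 40, nat_lit 40, nat_lit 80, nat_lit 16, nat_lit 215, nat_lit 10, nat_lit 7]⟩, ⟨p106_k5, nat_lit 0, nat_lit 0, nat_lit 914, nat_lit 0, nat_lit 1314606, [nat_lit 725000000, nat_lit 1141672000, nat_lit 1630728000], [], [nat_lit 4575008704, nat_lit 4552147880, nat_lit 4612451254, nat_lit 4636958500, nat_lit 3681863172, nat_lit 3653501508, nat_lit 3699847051, nat_lit 3679901930], nat_lit 1271250, nat_lit 1271250, nat_lit 1271250, nat_lit 1271250, nat_lit 0, nat_lit 1412500, [nat_lit 1412500, nat_lit 1271250, nat_lit 1271250], [nat_lit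 60, nat_lit 40, nat_lit 40, nat_lit 80, nat_lit 32, nat_lit 428, nat_lit 200, nat_lit 10]⟩,
 ⟨nat_lit 2236, nat_lit 2739, ⟨.ofNat (nat_lit 699600), .ofNat (nat_lit 729131), .ofNat (nat_lit 722017), .ofNat (nat_lit 751548), .ofNat (nat_lit 693819), .ofNat (nat_lit 722327), .ofNat (nat_lit 716594), .ofNat (nat_lit 745101)⟩, ⟨.ofNat (nat_lit 30000), .ofNat (nat_lit 100000), .ofNat (nat_lit 30000), .ofNat (nat_lit 100000), .ofNat (nat_lit 30000), .ofNat (nat_lit 100000), .ofNat (nat_lit 30000), .ofNat (nat_lit 100000)⟩⟩, [⟨nat_lit 13, nat_lit 49, nat_lit 80, nat_lit 100, nat_lit 358076344⟩, ⟨nat_lit 3, nat_lit 100, nat_lit 56, nat_lit 60, nat_lit 147043574⟩]⟩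
noncomputable def p106_l15 : Lf2 := ⟨nat_lit 0, nat_lit 20, [nat_lit 5, nat_lit 5, nat_lit 5, nat_lit 20], false, nat_lit 40, nat_lit 80, nat_lit 0, nat_lit 260, ⟨nat_lit 113, nat_lit 887, nat_lit 0, nat_lit 8, nat_lit 294, nat_lit 887, nat_lit 59, nat_lit 0, nat_lit 0, nat_lit 0, nat_lit 0, nat_lit 0, nat_lit 42145718, nat_lit 22986111, nat_lit 1868171, nat_lit 3937230, true, true⟩,
 nat_lit 0, nat_lit 0, nat_lit 2278, nat_lit 0, nat_lit 2830, nat_lit 1089, nat_lit 3, nat_lit 0, nat_lit 0, nat_lit 117, nat_lit 0, nat_lit 0, nat_lit 0, nat_lit 0, nat_lit 0, nat_lit 425600, nat_lit 0, nat_lit 0, [(nat_lit 25, [(nat_lit 1, nat_lit 769), (nat_lit 2, nat_lit 118)])],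
 ⟨p106_k0, nat_lit 0, nat_lit 0, nat_lit 140, nat_lit 0, nat_lit 0, [nat_lit 928916401, nat_lit 1096556400, nat_lit 949980400], [], [nat_lit 26287714976, nat_lit 27238753956, nat_lit 27598169696, nat_lit 28564815673, nat_lit 25838404736, nat_lit 26764061396, nat_lit 27116140609, nat_lit 27986990717], nat_lit 0, nat_lit 0, nat_lit 0, nat_lit 0, nat_lit 0, nat_lit 0, [], [nat_lit 20, nat_lit 40, nat_lit 40, nat_lit 80, nat_lit 16, nat_lit 226, nat_lit 20, nat_lit 7]⟩, ⟨p106_k5, nat_lit 0, nat_lit 0, nat_lit 914, nat_lit 0, nat_lit 1314606, [nat_lit 706250000, nat_lit 1112146000, nat_lit 1588554000], [], [nat_lit 4365404570, nat_lit 4354861448, nat_lit 4458332106, nat_lit 4495295757, nat_lit 3447500583, nat_lit 3427154855, nat_lit 3521799395, nat_lit 3511335206], nat_lit 1271250, nat_lit 1271250, nat_lit 1271250, nat_lit 1271250, nat_lit 0, nat_lit 1836250, [nat_lit 1412500, nat_lit 1271250, nat_lit 1271250], [nat_lit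 60, nat_lit 40, nat_lit 40, nat_lit 80, nat_lit 32, nat_lit 456, nat_lit 225, nat_lit 10]⟩,
 ⟨nat_lit 2236, nat_lit 3163, ⟨.ofNat (nat_lit 705013), .ofNat (nat_lit 753776), .ofNat (nat_lit 727168), .ofNat (nat_lit 775931), .ofNat (nat_lit 693819), .ofNat (nat_lit 739432), .ofNat (nat_lit 716594), .ofNat (nat_lit 762206)⟩, ⟨.ofNat (nat_lit 100000), .ofNat (nat_lit 184209), .ofNat (nat_lit 100000), .ofNat (nat_lit 200000), .ofNat (nat_lit 100000), .ofNat (nat_lit 192306), .ofNat (nat_lit 100000), .ofNat (nat_lit 200000)⟩⟩, [⟨nat_lit 13, nat_lit 53, nat_lit 77, nat_lit 100, nat_lit 287382076⟩]⟩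
noncomputable def p106_l16 : Lf2 := ⟨nat_lit 0, nat_lit 20, [nat_lit 5, nat_lit 5, nat_lit 5, nat_lit 20], true, nat_lit 20, nat_lit 80, nat_lit 0, nat_lit 336, ⟨nat_lit 0, nat_lit 1000, nat_lit 0, nat_lit 6, nat_lit 242, nat_lit 1000, nat_lit 50, nat_lit 0, nat_lit 0, nat_lit 0, nat_lit 0, nat_lit 0, nat_lit 47738877, nat_lit 17725182, nat_lit 1535941, nat_lit 3520521, true, true⟩,
 nat_lit 0, nat_lit 0, nat_lit 0, nat_lit 0, nat_lit 2581, nat_lit 0, nat_lit 0, nat_lit 0, nat_lit 0, nat_lit 0, nat_lit 0, nat_lit 0, nat_lit 0, nat_lit 0, nat_lit 0, nat_lit 400000, nat_lit 0, nat_lit 0, [(nat_lit 28, [(nat_lit 1, nat_lit 1000)])],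
 ⟨p106_k1, nat_lit 0, nat_lit 0, nat_lit 148, nat_lit 0, nat_lit 0, [nat_lit 697600000, nat_lit 138000000], [], [nat_lit 23618674311, nat_lit 24868881578, nat_lit 24986234775, nat_lit 26357552894, nat_lit 23223769858, nat_lit 24287953648, nat_lit 24490189298, nat_lit 25482751648], nat_lit 0, nat_lit 0, nat_lit 0, nat_lit 0, nat_lit 0, nat_lit 0, [], [nat_lit 88, nat_lit 40, nat_lit 40, nat_lit 80, nat_lit 89, nat_lit 226, nat_lit 20, nat_lit 7]⟩, C1.Rw.none,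
 ⟨nat_lit 0, nat_lit 2237, ⟨.ofNat (nat_lit 557013), .ofNat (nat_lit 614026), .ofNat (nat_lit 602531), .ofNat (nat_lit 659577), .ofNat (nat_lit 549998), .ofNat (nat_lit 599995), .ofNat (nat_lit 599967), .ofNat (nat_lit 649998)⟩, ⟨.ofNat (nat_lit 50000), .ofNat (nat_lit 192306), .ofNat (nat_lit 50000), .ofNat (nat_lit 200000), .ofNat (nat_lit 50000), .ofNat (nat_lit 199999), .ofNat (nat_lit 50000), .ofNat (nat_lit 200000)⟩⟩, [⟨nat_lit 3, nat_lit 100, nat_lit 54, nat_lit 57, nat_lit 272978929⟩]⟩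
noncomputable def p106_l17 : Lf2 := ⟨nat_lit 0, nat_lit 20, [nat_lit 5, nat_lit 5, nat_lit 5, nat_lit 20], false, nat_lit 20, nat_lit 80, nat_lit 0, nat_lit 300, ⟨nat_lit 54, nat_lit 946, nat_lit 0, nat_lit 7, nat_lit 264, nat_lit 946, nat_lit 50, nat_lit 0, nat_lit 0, nat_lit 0, nat_lit 0, nat_lit 0, nat_lit 45425844, nat_lit 20070791, nat_lit 1503365, nat_lit 3671031, true, true⟩,
 nat_lit 0, nat_lit 0, nat_lit 1343, nat_lit 0, nat_lit 2192, nat_lit 575, nat_lit 88, nat_lit 0, nat_lit 0, nat_lit 47, nat_lit 0, nat_lit 0, nat_lit 0, nat_lit 0, nat_lit 0, nat_lit 378400, nat_lit 0, nat_lit 0, [(nat_lit 28, [(nat_lit 1, nat_lit 946)])],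
 ⟨p106_k6, nat_lit 0, nat_lit 0, nat_lit 152, nat_lit 0, nat_lit 0, [nat_lit 710581601, nat_lit 484488800, nat_lit 468048000], [], [nat_lit 24518102299, nat_lit 25515462339, nat_lit 26100729478, nat_lit 27263517867, nat_lit 24215666875, nat_lit 25172739963, nat_lit 25745702473, nat_lit 26766176153], nat_lit 0, nat_lit 0, nat_lit 0, nat_lit 0, nat_lit 0, nat_lit 0, [], [nat_lit 20, nat_lit 40, nat_lit 40, nat_lit 80, nat_lit 16, nat_lit 226, nat_lit 20, nat_lit 7]⟩, ⟨p106_k3, nat_lit 0, nat_lit 0, nat_lit 1346, nat_lit 0, nat_lit 2246074, [nat_lit 337500000, nat_lit 531468000, nat_lit 759132000], [], [nat_lit 2311176348, nat_lit 2272431224, nat_lit 2305110735, nat_lit 2275939592, nat_lit 1776957278, nat_lit 1741336706, nat_lit 1779581487, nat_lit 1750863017], nat_lit 1271250, nat_lit 1271250, nat_lit 1271250, nat_lit 1271250, nat_lit 0, nat_lit 2118750, [nat_lit 1412500, nat_lit 1271250, nat_lit 1271250], [nat_lit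 60, nat_lit 40, nat_lit 40, nat_lit 80, nat_lit 32, nat_lit 456, nat_lit 225, nat_lit 10]⟩,
 ⟨nat_lit 0, nat_lit 2237, ⟨.ofNat (nat_lit 614026), .ofNat (nat_lit 676741), .ofNat (nat_lit 659577), .ofNat (nat_lit 722292), .ofNat (nat_lit 599995), .ofNat (nat_lit 654993), .ofNat (nat_lit 649998), .ofNat (nat_lit 704996)⟩, ⟨.ofNat (nat_lit 50000), .ofNat (nat_lit 192306), .ofNat (nat_lit 50000), .ofNat (nat_lit 200000), .ofNat (nat_lit 50000), .ofNat (nat_lit 199999), .ofNat (nat_lit 50000), .ofNat (nat_lit 200000)⟩⟩, [⟨nat_lit 13, nat_lit 44, nat_lit 81, nat_lit 100, nat_lit 334424562⟩, ⟨nat_lit 3, nat_lit 100, nat_lit 36, nat_lit 77, nat_lit 142227262⟩, ⟨nat_lit 3, nat_lit 100, nat_lit 54, nat_lit 57, nat_lit 125924307⟩, ⟨nat_lit 22, nat_lit 88, nat_lit 100, nat_lit 67, nat_lit 1528083⟩]⟩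
noncomputable def p106_l18 : Lf2 := ⟨nat_lit 0, nat_lit 20, [nat_lit 5, nat_lit 5, nat_lit 5, nat_lit 20], true, nat_lit 80, nat_lit 160, nat_lit 0, nat_lit 384, ⟨nat_lit 0, nat_lit 481, nat_lit 519, nat_lit 6, nat_lit 243, nat_lit 1000, nat_lit 105, nat_lit 519, nat_lit 101400, nat_lit 293, nat_lit 61180, nat_lit 200, nat_lit 45011112, nat_lit 17354968, nat_lit 4633920, nat_lit 4255068, true, true⟩,
 nat_lit 0, nat_lit 0, nat_lit 0, nat_lit 0, nat_lit 2635, nat_lit 0, nat_lit 0, nat_lit 0, nat_lit 0, nat_lit 0, nat_lit 0, nat_lit 0, nat_lit 0, nat_lit 0, nat_lit 0, nat_lit 250000, nat_lit 0, nat_lit 0, [(nat_lit 25, [(nat_lit 0, nat_lit 481), (nat_lit 4, nat_lit 519)]), (nat_lit 28, [(nat_lit 0, nat_lit 481), (nat_lit 4, nat_lit 519)])],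
 ⟨p106_k0, nat_lit 0, nat_lit 0, nat_lit 109, nat_lit 0, nat_lit 0, [nat_lit 771220001, nat_lit 470584001, nat_lit 57952799], [], [nat_lit 21606818600, nat_lit 23911879160, nat_lit 23017741860, nat_lit 25197152480, nat_lit 22440608680, nat_lit 24544353880, nat_lit 23736787740, nat_lit 25697377780], nat_lit 0, nat_lit 0, nat_lit 0, nat_lit 0, nat_lit 0, nat_lit 0, [], [nat_lit 20, nat_lit 40, nat_lit 40, nat_lit 80, nat_lit 16, nat_lit 249, nat_lit 40, nat_lit 8]⟩, C1.Rw.none,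
 ⟨nat_lit 0, nat_lit 3163, ⟨.ofNat (nat_lit 560951), .ofNat (nat_lit 621903), .ofNat (nat_lit 605128), .ofNat (nat_lit 666215), .ofNat (nat_lit 549998), .ofNat (nat_lit 599997), .ofNat (nat_lit 599865), .ofNat (nat_lit 649999)⟩, ⟨.ofNat (nat_lit 184209), .ofNat (nat_lit 306113), .ofNat (nat_lit 200000), .ofNat (nat_lit 350425), .ofNat (nat_lit 199999), .ofNat (nat_lit 299996), .ofNat (nat_lit 200000), .ofNat (nat_lit 349998)⟩⟩, []⟩
noncomputable def p106_l19 : Lf2 := ⟨nat_lit 0, nat_lit 20, [nat_lit 5, nat_lit 5, nat_lit 5, nat_lit 20], true, nat_lit 80, nat_lit 160, nat_lit 0, nat_lit 364, ⟨nat_lit 0, nat_lit 1000, nat_lit 0, nat_lit 7, nat_lit 268, nat_lit 1000, nat_lit 105, nat_lit 0, nat_lit 0, nat_lit 0, nat_lit 0, nat_lit 0, nat_lit 42668018, nat_lit 19827256, nat_lit 4504726, nat_lit 4395013, true, true⟩,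
 nat_lit 0, nat_lit 0, nat_lit 0, nat_lit 0, nat_lit 2599, nat_lit 0, nat_lit 0, nat_lit 0, nat_lit 0, nat_lit 0, nat_lit 0, nat_lit 0, nat_lit 0, nat_lit 0, nat_lit 0, nat_lit 250000, nat_lit 0, nat_lit 0, [(nat_lit 25, [(nat_lit 0, nat_lit 1000)])],
 ⟨p106_k0, nat_lit 0, nat_lit 0, nat_lit 108, nat_lit 0, nat_lit 0, [nat_lit 764000001, nat_lit 1368800000, nat_lit 2118000000], [], [nat_lit 25094366645, nat_lit 26159797591, nat_lit 26660761377, nat_lit 27644713509, nat_lit 25825346957, nat_lit 26800600105, nat_lit 27264924817, nat_lit 28168350571], nat_lit 0, nat_lit 0, nat_lit 0, nat_lit 0, nat_lit 0, nat_lit 0, [], [nat_lit 20, nat_lit 40, nat_lit 40, nat_lit 80, nat_lit 16, nat_lit 249, nat_lit 40, nat_lit 8]⟩, C1.Rw.none,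
 ⟨nat_lit 2236, nat_lit 3163, ⟨.ofNat (nat_lit 621905), .ofNat (nat_lit 682859), .ofNat (nat_lit 666215), .ofNat (nat_lit 727168), .ofNat (nat_lit 614030), .ofNat (nat_lit 671045), .ofNat (nat_lit 659578), .ofNat (nat_lit 716594)⟩, ⟨.ofNat (nat_lit 184209), .ofNat (nat_lit 306116), .ofNat (nat_lit 200000), .ofNat (nat_lit 350426), .ofNat (nat_lit 192306), .ofNat (nat_lit 306337), .ofNat (nat_lit 200000), .ofNat (nat_lit 351886)⟩⟩, []⟩
noncomputable def p106_l20 : Lf2 := ⟨nat_lit 0, nat_lit 20, [nat_lit 5, nat_lit 5, nat_lit 5, nat_lit 20], true, nat_lit 80, nat_lit 160, nat_lit 0, nat_lit 364, ⟨nat_lit 0, nat_lit 1000, nat_lit 0, nat_lit 7, nat_lit 263, nat_lit 1000, nat_lit 105, nat_lit 0, nat_lit 0, nat_lit 0, nat_lit 0, nat_lit 0, nat_lit 43096381, nat_lit 19342755, nat_lit 4560864, nat_lit 4376602, true, true⟩,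
 nat_lit 0, nat_lit 0, nat_lit 0, nat_lit 0, nat_lit 2549, nat_lit 0, nat_lit 11, nat_lit 0, nat_lit 0, nat_lit 0, nat_lit 0, nat_lit 0, nat_lit 0, nat_lit 0, nat_lit 0, nat_lit 400000, nat_lit 0, nat_lit 0, [(nat_lit 28, [(nat_lit 1, nat_lit 1000)])],
 ⟨p106_k6, nat_lit 0, nat_lit 0, nat_lit 116, nat_lit 0, nat_lit 0, [nat_lit 697600000, nat_lit 324800000, nat_lit 138000000], [], [nat_lit 24080896917, nat_lit 25115557879, nat_lit 25535097537, nat_lit 26734550284, nat_lit 24771667515, nat_lit 25719403867, nat_lit 26111539843, nat_lit 27086828456], nat_lit 0, nat_lit 0, nat_lit 0, nat_lit 0, nat_lit 0, nat_lit 0, [], [nat_lit 20, nat_lit 40, nat_lit 40, nat_lit 80, nat_lit 16, nat_lit 249, nat_lit 40, nat_lit 8]⟩, C1.Rw.none,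
 ⟨nat_lit 0, nat_lit 2237, ⟨.ofNat (nat_lit 614026), .ofNat (nat_lit 671039), .ofNat (nat_lit 659577), .ofNat (nat_lit 716590), .ofNat (nat_lit 599995), .ofNat (nat_lit 649993), .ofNat (nat_lit 649998), .ofNat (nat_lit 699995)⟩, ⟨.ofNat (nat_lit 192306), .ofNat (nat_lit 306334), .ofNat (nat_lit 200000), .ofNat (nat_lit 351885), .ofNat (nat_lit 199999), .ofNat (nat_lit 299996), .ofNat (nat_lit 200000), .ofNat (nat_lit 349998)⟩⟩, [⟨nat_lit 13, nat_lit 44, nat_lit 81, nat_lit 100, nat_lit 154028321⟩]⟩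
noncomputable def p106_l21 : Lf2 := ⟨nat_lit 0, nat_lit 20, [nat_lit 5, nat_lit 5, nat_lit 5, nat_lit 20], true, nat_lit 80, nat_lit 160, nat_lit 0, nat_lit 336, ⟨nat_lit 0, nat_lit 1000, nat_lit 0, nat_lit 8, nat_lit 289, nat_lit 1000, nat_lit 105, nat_lit 0, nat_lit 0, nat_lit 0, nat_lit 0, nat_lit 0, nat_lit 40741859, nat_lit 21876213, nat_lit 4381928, nat_lit 4481154, true, true⟩,
 nat_lit 0, nat_lit 0, nat_lit 0, nat_lit 5262, nat_lit 2889, nat_lit 0, nat_lit 0, nat_lit 0, nat_lit 0, nat_lit 0, nat_lit 0, nat_lit 0, nat_lit 0, nat_lit 0, nat_lit 0, nat_lit 269050, nat_lit 0, nat_lit 0, [(nat_lit 25, [(nat_lit 0, nat_lit 873), (nat_lit 1, nat_lit 127)])],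
 ⟨p106_k2, nat_lit 0, nat_lit 0, nat_lit 112, nat_lit 0, nat_lit 0, [nat_lit 792874721, nat_lit 1965244400], [], [nat_lit 26484577979, nat_lit 27527899198, nat_lit 27913687162, nat_lit 28885982144, nat_lit 27053425007, nat_lit 27953374671, nat_lit 28295161030, nat_lit 29144047113], nat_lit 0, nat_lit 0, nat_lit 0, nat_lit 0, nat_lit 0, nat_lit 0, [], [nat_lit 88, nat_lit 40, nat_lit 40, nat_lit 80, nat_lit 89, nat_lit 249, nat_lit 40, nat_lit 8]⟩, C1.Rw.none,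
 ⟨nat_lit 2236, nat_lit 3163, ⟨.ofNat (nat_lit 682859), .ofNat (nat_lit 731621), .ofNat (nat_lit 727168), .ofNat (nat_lit 775931), .ofNat (nat_lit 671045), .ofNat (nat_lit 716658), .ofNat (nat_lit 716594), .ofNat (nat_lit 762206)⟩, ⟨.ofNat (nat_lit 184209), .ofNat (nat_lit 306116), .ofNat (nat_lit 200000), .ofNat (nat_lit 350426), .ofNat (nat_lit 192306), .ofNat (nat_lit 306337), .ofNat (nat_lit 200000), .ofNat (nat_lit 351886)⟩⟩, [⟨nat_lit 13, nat_lit 53, nat_lit 80, nat_lit 100, nat_lit 398113355⟩]⟩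
noncomputable def p106_l22 : Lf2 := ⟨nat_lit 0, nat_lit 20, [nat_lit 5, nat_lit 5, nat_lit 5, nat_lit 20], true, nat_lit 80, nat_lit 160, nat_lit 0, nat_lit 336, ⟨nat_lit 0, nat_lit 1000, nat_lit 0, nat_lit 8, nat_lit 275, nat_lit 1000, nat_lit 105, nat_lit 0, nat_lit 0, nat_lit 0, nat_lit 0, nat_lit 0, nat_lit 42018816, nat_lit 20486255, nat_lit 4494929, nat_lit 4431209, true, true⟩,
 nat_lit 0, nat_lit 0, nat_lit 0, nat_lit 0, nat_lit 2637, nat_lit 0, nat_lit 0, nat_lit 0, nat_lit 0, nat_lit 0, nat_lit 0, nat_lit 0, nat_lit 0, nat_lit 0, nat_lit 0, nat_lit 397300, nat_lit 0, nat_lit 0, [(nat_lit 28, [(nat_lit 0, nat_lit 18), (nat_lit 1, nat_lit 982)])],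
 ⟨p106_k1, nat_lit 0, nat_lit 0, nat_lit 112, nat_lit 0, nat_lit 0, [nat_lit 699112001, nat_lit 163603200], [], [nat_lit 25694712134, nat_lit 26887275692, nat_lit 25861957470, nat_lit 27072963646, nat_lit 26268864367, nat_lit 27197773928, nat_lit 26413140486, nat_lit 27369304068], nat_lit 0, nat_lit 0, nat_lit 0, nat_lit 0, nat_lit 0, nat_lit 0, [], [nat_lit 88, nat_lit 40, nat_lit 40, nat_lit 80, nat_lit 89, nat_lit 249, nat_lit 40, nat_lit 8]⟩, C1.Rw.none,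
 ⟨nat_lit 0, nat_lit 2237, ⟨.ofNat (nat_lit 671039), .ofNat (nat_lit 676741), .ofNat (nat_lit 716590), .ofNat (nat_lit 722292), .ofNat (nat_lit 649993), .ofNat (nat_lit 654993), .ofNat (nat_lit 699995), .ofNat (nat_lit 704996)⟩, ⟨.ofNat (nat_lit 192306), .ofNat (nat_lit 306334), .ofNat (nat_lit 200000), .ofNat (nat_lit 351885), .ofNat (nat_lit 199999), .ofNat (nat_lit 299996), .ofNat (nat_lit 200000), .ofNat (nat_lit 349998)⟩⟩, [⟨nat_lit 13, nat_lit 44, nat_lit 81, nat_lit 100, nat_lit 481385279⟩]⟩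
noncomputable def b_V_900_500_20_6 : St := ⟨true, nat_lit 0, nat_lit 1, nat_lit 1, nat_lit 120, nat_lit 360, nat_lit 400, nat_lit 200, nat_lit 240, nat_lit 240, nat_lit 352, nat_lit 80, nat_lit 120, nat_lit 8, nat_lit 160, nat_lit 0, nat_lit 384, nat_lit 40, nat_lit 80, nat_lit 0, nat_lit 0, nat_lit 0, nat_lit 0⟩
theorem d_V_900_500_20_6 (h : EB TB.env) : Dead b_V_900_500_20_6 := chkB_sound0 h (T :=
(.spl (nat_lit 4) (nat_lit 80)
(.trX (nat_lit 22) (nat_lit 100) (nat_lit 76) (nat_lit 82) (nat_lit 336) (.spl (nat_lit 0) (nat_lit 380)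
(.spl (nat_lit 2) (nat_lit 320)
(.spl (nat_lit 2) (nat_lit 280)
(.leaf p106_l3)
(.trX (nat_lit 22) (nat_lit 100) (nat_lit 95) (nat_lit 87) (nat_lit 300) (.spl (nat_lit 4) (nat_lit 40)
(.trX (nat_lit 22) (nat_lit 94) (nat_lit 100) (nat_lit 62) (nat_lit 248) (.spl (nat_lit 1) (nat_lit 220)
(.spl (nat_lit 0) (nat_lit 370)
(.leaf p106_l4)
(.trZ (nat_lit 3) (nat_lit 100) (nat_lit 66) (nat_lit 45) (nat_lit 12) (.leaf p106_l5)))
(.spl (nat_lit 0) (nat_lit 370)
(.leaf p106_l6)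
(.trZ (nat_lit 3) (nat_lit 100) (nat_lit 66) (nat_lit 45) (nat_lit 12) (.leaf p106_l7)))))
(.spl (nat_lit 1) (nat_lit 220)
(.leaf p106_l8)
(.leaf p106_l9)))))
(.trX (nat_lit 22) (nat_lit 83) (nat_lit 100) (nat_lit 83) (nat_lit 260) (.spl (nat_lit 1) (nat_lit 220)
(.trX (nat_lit 13) (nat_lit 60) (nat_lit 74) (nat_lit 100) (nat_lit 336) (.spl (nat_lit 4) (nat_lit 40)
(.trX (nat_lit 22) (nat_lit 80) (nat_lit 100) (nat_lit 60) (nat_lit 200) (.spl (nat_lit 0) (nat_lit 370)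
(.leaf p106_l10)
(.trX (nat_lit 13) (nat_lit 53) (nat_lit 80) (nat_lit 100) (nat_lit 324) (.trZ (nat_lit 3) (nat_lit 100) (nat_lit 66) (nat_lit 45) (nat_lit 12) (.leaf p106_l11)))))
(.leaf p106_l12)))
(.spl (nat_lit 4) (nat_lit 40)
(.trX (nat_lit 22) (nat_lit 80) (nat_lit 100) (nat_lit 60) (nat_lit 200) (.spl (nat_lit 0) (nat_lit 370)
(.leaf p106_l13)
(.trX (nat_lit 13) (nat_lit 54) (nat_lit 74) (nat_lit 100) (nat_lit 340) (.trZ (nat_lit 3) (nat_lit 100) (nat_lit 66) (nat_lit 45) (nat_lit 12) (.leaf p106_l14)))))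
(.leaf p106_l15)))))
(.trX (nat_lit 13) (nat_lit 44) (nat_lit 81) (nat_lit 100) (nat_lit 324) (.trZ (nat_lit 3) (nat_lit 100) (nat_lit 54) (nat_lit 57) (nat_lit 20) (.spl (nat_lit 2) (nat_lit 280)
(.leaf p106_l16)
(.trX (nat_lit 22) (nat_lit 100) (nat_lit 95) (nat_lit 87) (nat_lit 300) (.leaf p106_l17)))))))
(.spl (nat_lit 2) (nat_lit 320)
(.spl (nat_lit 2) (nat_lit 280)
(.leaf p106_l18)
(.trX (nat_lit 22) (nat_lit 94) (nat_lit 59) (nat_lit 100) (nat_lit 364) (.spl (nat_lit 0) (nat_lit 380)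
(.leaf p106_l19)
(.leaf p106_l20))))
(.trX (nat_lit 22) (nat_lit 82) (nat_lit 76) (nat_lit 100) (nat_lit 336) (.spl (nat_lit 0) (nat_lit 380)
(.leaf p106_l21)
(.trX (nat_lit 13) (nat_lit 44) (nat_lit 81) (nat_lit 100) (nat_lit 324) (.leaf p106_l22))))))) (by decide +kernel)
noncomputable def p106_l23 : Lf2 := ⟨nat_lit 0, nat_lit 20, [nat_lit 5, nat_lit 5, nat_lit 5, nat_lit 20], true, nat_lit 160, nat_lit 248, nat_lit 0, nat_lit 384, ⟨nat_lit 0, nat_lit 1000, nat_lit 0, nat_lit 6, nat_lit 256, nat_lit 1000, nat_lit 157, nat_lit 0, nat_lit 0, nat_lit 0, nat_lit 0, nat_lit 0, nat_lit 40869858, nat_lit 17889538, nat_lit 8240604, nat_lit 4895638, true, true⟩,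
 nat_lit 0, nat_lit 0, nat_lit 0, nat_lit 3905, nat_lit 2818, nat_lit 0, nat_lit 0, nat_lit 0, nat_lit 0, nat_lit 0, nat_lit 0, nat_lit 0, nat_lit 0, nat_lit 0, nat_lit 0, nat_lit 250000, nat_lit 0, nat_lit 0, [(nat_lit 25, [(nat_lit 0, nat_lit 1000)])],
 ⟨p106_k0, nat_lit 0, nat_lit 0, nat_lit 59, nat_lit 0, nat_lit 0, [nat_lit 764000001, nat_lit 1368800000, nat_lit 2118000000], [], [nat_lit 22212918130, nat_lit 23389143546, nat_lit 25285211056, nat_lit 26335763184, nat_lit 24444260487, nat_lit 25476134421, nat_lit 27130532233, nat_lit 28052181795], nat_lit 0, nat_lit 0, nat_lit 0, nat_lit 0, nat_lit 0, nat_lit 0, [], [nat_lit 20, nat_lit 40, nat_lit 40, nat_lit 80, nat_lit 16, nat_lit 289, nat_lit 75, nat_lit 9]⟩, C1.Rw.none,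
 ⟨nat_lit 2236, nat_lit 3163, ⟨.ofNat (nat_lit 560952), .ofNat (nat_lit 682859), .ofNat (nat_lit 605240), .ofNat (nat_lit 727168), .ofNat (nat_lit 557014), .ofNat (nat_lit 671045), .ofNat (nat_lit 602541), .ofNat (nat_lit 716594)⟩, ⟨.ofNat (nat_lit 306116), .ofNat (nat_lit 440213), .ofNat (nat_lit 350426), .ofNat (nat_lit 484523), .ofNat (nat_lit 306337), .ofNat (nat_lit 431772), .ofNat (nat_lit 351886), .ofNat (nat_lit 477320)⟩⟩, [⟨nat_lit 4, nat_lit 100, nat_lit 53, nat_lit 87, nat_lit 247928736⟩]⟩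
noncomputable def p106_l24 : Lf2 := ⟨nat_lit 0, nat_lit 20, [nat_lit 5, nat_lit 5, nat_lit 5, nat_lit 20], true, nat_lit 160, nat_lit 208, nat_lit 0, nat_lit 384, ⟨nat_lit 0, nat_lit 1000, nat_lit 0, nat_lit 6, nat_lit 252, nat_lit 1000, nat_lit 144, nat_lit 0, nat_lit 0, nat_lit 0, nat_lit 0, nat_lit 0, nat_lit 41972510, nat_lit 17759012, nat_lit 7268478, nat_lit 4744991, true, true⟩,
 nat_lit 0, nat_lit 0, nat_lit 0, nat_lit 0, nat_lit 3712, nat_lit 0, nat_lit 0, nat_lit 0, nat_lit 0, nat_lit 0, nat_lit 0, nat_lit 0, nat_lit 0, nat_lit 0, nat_lit 0, nat_lit 250000, nat_lit 0, nat_lit 0, [(nat_lit 28, [(nat_lit 0, nat_lit 1000)])],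
 ⟨p106_k1, nat_lit 0, nat_lit 0, nat_lit 87, nat_lit 0, nat_lit 0, [nat_lit 781600001, nat_lit 1671657143], [], [nat_lit 24532518727, nat_lit 25781841655, nat_lit 27378093351, nat_lit 28553073728, nat_lit 25485481726, nat_lit 26644082148, nat_lit 28112341441, nat_lit 29317511591], nat_lit 0, nat_lit 0, nat_lit 0, nat_lit 0, nat_lit 0, nat_lit 0, [], [nat_lit 88, nat_lit 40, nat_lit 40, nat_lit 80, nat_lit 89, nat_lit 272, nat_lit 60, nat_lit 8]⟩, C1.Rw.none,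
 ⟨nat_lit 0, nat_lit 2237, ⟨.ofNat (nat_lit 557013), .ofNat (nat_lit 671039), .ofNat (nat_lit 602531), .ofNat (nat_lit 716590), .ofNat (nat_lit 549998), .ofNat (nat_lit 649993), .ofNat (nat_lit 599967), .ofNat (nat_lit 699995)⟩, ⟨.ofNat (nat_lit 306334), .ofNat (nat_lit 374750), .ofNat (nat_lit 351885), .ofNat (nat_lit 420300), .ofNat (nat_lit 299996), .ofNat (nat_lit 359993), .ofNat (nat_lit 349998), .ofNat (nat_lit 409994)⟩⟩, [⟨nat_lit 16, nat_lit 44, nat_lit 100, nat_lit 92, nat_lit 227433468⟩]⟩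
noncomputable def p106_l25 : Lf2 := ⟨nat_lit 0, nat_lit 20, [nat_lit 5, nat_lit 5, nat_lit 5, nat_lit 20], true, nat_lit 160, nat_lit 200, nat_lit 16, nat_lit 360, ⟨nat_lit 0, nat_lit 1000, nat_lit 0, nat_lit 8, nat_lit 289, nat_lit 1000, nat_lit 143, nat_lit 0, nat_lit 0, nat_lit 0, nat_lit 0, nat_lit 0, nat_lit 38928761, nat_lit 21172443, nat_lit 6898796, nat_lit 4887693, true, true⟩,
 nat_lit 0, nat_lit 0, nat_lit 0, nat_lit 4166, nat_lit 3851, nat_lit 0, nat_lit 0, nat_lit 0, nat_lit 0, nat_lit 0, nat_lit 0, nat_lit 0, nat_lit 0, nat_lit 0, nat_lit 0, nat_lit 250000, nat_lit 0, nat_lit 0, [(nat_lit 25, [(nat_lit 0, nat_lit 1000)])],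
 ⟨p106_k2, nat_lit 0, nat_lit 0, nat_lit 87, nat_lit 0, nat_lit 0, [nat_lit 764000001, nat_lit 2118000000], [], [nat_lit 26709455360, nat_lit 27786667684, nat_lit 28160423210, nat_lit 29159058936, nat_lit 27375100706, nat_lit 28389159843, nat_lit 28738730442, nat_lit 29679855836], nat_lit 0, nat_lit 0, nat_lit 0, nat_lit 0, nat_lit 0, nat_lit 0, [], [nat_lit 88, nat_lit 40, nat_lit 40, nat_lit 80, nat_lit 89, nat_lit 260, nat_lit 50, nat_lit 8]⟩, C1.Rw.none,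
 ⟨nat_lit 2236, nat_lit 3163, ⟨.ofNat (nat_lit 682859), .ofNat (nat_lit 731621), .ofNat (nat_lit 727168), .ofNat (nat_lit 775931), .ofNat (nat_lit 671045), .ofNat (nat_lit 716658), .ofNat (nat_lit 716594), .ofNat (nat_lit 762206)⟩, ⟨.ofNat (nat_lit 306116), .ofNat (nat_lit 367069), .ofNat (nat_lit 350426), .ofNat (nat_lit 411379), .ofNat (nat_lit 306337), .ofNat (nat_lit 363353), .ofNat (nat_lit 351886), .ofNat (nat_lit 408901)⟩⟩, [⟨nat_lit 13, nat_lit 53, nat_lit 80, nat_lit 100, nat_lit 172616390⟩, ⟨nat_lit 13, nat_lit 61, nat_lit 68, nat_lit 100, nat_lit 185733366⟩]⟩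
noncomputable def p106_l26 : Lf2 := ⟨nat_lit 0, nat_lit 20, [nat_lit 5, nat_lit 5, nat_lit 5, nat_lit 20], true, nat_lit 200, nat_lit 220, nat_lit 40, nat_lit 372, ⟨nat_lit 0, nat_lit 1000, nat_lit 0, nat_lit 8, nat_lit 291, nat_lit 1000, nat_lit 161, nat_lit 0, nat_lit 0, nat_lit 0, nat_lit 0, nat_lit 0, nat_lit 37925409, nat_lit 20922796, nat_lit 8151795, nat_lit 5056266, true, true⟩,
 nat_lit 0, nat_lit 0, nat_lit 0, nat_lit 4976, nat_lit 3891, nat_lit 0, nat_lit 0, nat_lit 0, nat_lit 0, nat_lit 0, nat_lit 0, nat_lit 0, nat_lit 0, nat_lit 0, nat_lit 0, nat_lit 250000, nat_lit 0, nat_lit 0, [(nat_lit 25, [(nat_lit 0, nat_lit 1000)])],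
 ⟨p106_k2, nat_lit 0, nat_lit 0, nat_lit 75, nat_lit 0, nat_lit 0, [nat_lit 764000001, nat_lit 2118000000], [], [nat_lit 27357004946, nat_lit 27866298255, nat_lit 28725744122, nat_lit 29198290095, nat_lit 27688712539, nat_lit 28182100181, nat_lit 29013463587, nat_lit 29471525959], nat_lit 0, nat_lit 0, nat_lit 0, nat_lit 0, nat_lit 0, nat_lit 0, [], [nat_lit 88, nat_lit 40, nat_lit 40, nat_lit 80, nat_lit 89, nat_lit 203, nat_lit 0, nat_lit 5]⟩, C1.Rw.none,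
 ⟨nat_lit 2738, nat_lit 3163, ⟨.ofNat (nat_lit 682859), .ofNat (nat_lit 731621), .ofNat (nat_lit 727168), .ofNat (nat_lit 775931), .ofNat (nat_lit 677182), .ofNat (nat_lit 724432), .ofNat (nat_lit 722017), .ofNat (nat_lit 769266)⟩, ⟨.ofNat (nat_lit 367069), .ofNat (nat_lit 397546), .ofNat (nat_lit 411379), .ofNat (nat_lit 441856), .ofNat (nat_lit 365494), .ofNat (nat_lit 395025), .ofNat (nat_lit 410329), .ofNat (nat_lit 439860)⟩⟩, [⟨nat_lit 13, nat_lit 57, nat_lit 77, nat_lit 100, nat_lit 322271695⟩, ⟨nat_lit 13, nat_lit 61, nat_lit 68, nat_lit 100, nat_lit 26114405⟩, ⟨nat_lit 16, nat_lit 57, nat_lit 100, nat_lit 87, nat_lit 42267755⟩]⟩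
noncomputable def p106_l27 : Lf2 := ⟨nat_lit 0, nat_lit 20, [nat_lit 5, nat_lit 5, nat_lit 5, nat_lit 20], true, nat_lit 200, nat_lit 220, nat_lit 40, nat_lit 372, ⟨nat_lit 0, nat_lit 1000, nat_lit 0, nat_lit 8, nat_lit 284, nat_lit 1000, nat_lit 161, nat_lit 0, nat_lit 0, nat_lit 0, nat_lit 0, nat_lit 0, nat_lit 38437552, nat_lit 20399107, nat_lit 8163341, nat_lit 5032021, true, true⟩,
 nat_lit 0, nat_lit 0, nat_lit 0, nat_lit 4870, nat_lit 3910, nat_lit 0, nat_lit 0, nat_lit 0, nat_lit 0, nat_lit 0, nat_lit 0, nat_lit 0, nat_lit 0, nat_lit 0, nat_lit 0, nat_lit 250000, nat_lit 0, nat_lit 0, [(nat_lit 25, [(nat_lit 0, nat_lit 1000)])],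
 ⟨p106_k7, nat_lit 0, nat_lit 0, nat_lit 76, nat_lit 0, nat_lit 0, [nat_lit 764000001, nat_lit 2118000000], [], [nat_lit 27858778045, nat_lit 28369146630, nat_lit 28692706548, nat_lit 29180024785, nat_lit 28173994558, nat_lit 28668401725, nat_lit 28981227917, nat_lit 29478290845], nat_lit 0, nat_lit 0, nat_lit 0, nat_lit 0, nat_lit 0, nat_lit 0, [], [nat_lit 88, nat_lit 40, nat_lit 40, nat_lit 80, nat_lit 89, nat_lit 203, nat_lit 0, nat_lit 5]⟩, C1.Rw.none,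
 ⟨nat_lit 2236, nat_lit 2739, ⟨.ofNat (nat_lit 677182), .ofNat (nat_lit 706713), .ofNat (nat_lit 722017), .ofNat (nat_lit 751548), .ofNat (nat_lit 671045), .ofNat (nat_lit 699553), .ofNat (nat_lit 716594), .ofNat (nat_lit 745101)⟩, ⟨.ofNat (nat_lit 365494), .ofNat (nat_lit 395025), .ofNat (nat_lit 410329), .ofNat (nat_lit 439860), .ofNat (nat_lit 363353), .ofNat (nat_lit 391861), .ofNat (nat_lit 408901), .ofNat (nat_lit 437409)⟩⟩, [⟨nat_lit 13, nat_lit 54, nat_lit 74, nat_lit 100, nat_lit 375704170⟩, ⟨nat_lit 16, nat_lit 53, nat_lit 100, nat_lit 93, nat_lit 56189449⟩]⟩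
noncomputable def p106_l28 : Lf2 := ⟨nat_lit 0, nat_lit 20, [nat_lit 5, nat_lit 5, nat_lit 5, nat_lit 20], true, nat_lit 220, nat_lit 224, nat_lit 52, nat_lit 376, ⟨nat_lit 0, nat_lit 1000, nat_lit 0, nat_lit 8, nat_lit 291, nat_lit 1000, nat_lit 164, nat_lit 0, nat_lit 0, nat_lit 0, nat_lit 0, nat_lit 0, nat_lit 37787999, nat_lit 20865043, nat_lit 8346958, nat_lit 5079695, true, true⟩,
 nat_lit 0, nat_lit 0, nat_lit 0, nat_lit 5107, nat_lit 3962, nat_lit 0, nat_lit 0, nat_lit 0, nat_lit 0, nat_lit 0, nat_lit 0, nat_lit 0, nat_lit 0, nat_lit 0, nat_lit 0, nat_lit 250000, nat_lit 0, nat_lit 0, [(nat_lit 25, [(nat_lit 0, nat_lit 1000)])],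
 ⟨p106_k2, nat_lit 0, nat_lit 0, nat_lit 72, nat_lit 0, nat_lit 0, [nat_lit 764000001, nat_lit 2118000000], [], [nat_lit 27654613298, nat_lit 28151810747, nat_lit 28987867249, nat_lit 29548208909, nat_lit 27720558964, nat_lit 28214533613, nat_lit 29053777859, nat_lit 29611608005], nat_lit 0, nat_lit 0, nat_lit 0, nat_lit 0, nat_lit 0, nat_lit 0, [], [nat_lit 88, nat_lit 40, nat_lit 40, nat_lit 80, nat_lit 89, nat_lit 203, nat_lit 0, nat_lit 5]⟩, C1.Rw.none,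
 ⟨nat_lit 2738, nat_lit 3163, ⟨.ofNat (nat_lit 682859), .ofNat (nat_lit 731621), .ofNat (nat_lit 727168), .ofNat (nat_lit 775931), .ofNat (nat_lit 677182), .ofNat (nat_lit 724432), .ofNat (nat_lit 722017), .ofNat (nat_lit 769266)⟩, ⟨.ofNat (nat_lit 397546), .ofNat (nat_lit 403641), .ofNat (nat_lit 419701), .ofNat (nat_lit 425796), .ofNat (nat_lit 395025), .ofNat (nat_lit 400931), .ofNat (nat_lit 417442), .ofNat (nat_lit 423348)⟩⟩, [⟨nat_lit 13, nat_lit 61, nat_lit 68, nat_lit 100, nat_lit 330017559⟩, ⟨nat_lit 16, nat_lit 60, nat_lit 100, nat_lit 87, nat_lit 183093108⟩]⟩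
noncomputable def p106_l29 : Lf2 := ⟨nat_lit 0, nat_lit 20, [nat_lit 5, nat_lit 5, nat_lit 5, nat_lit 20], true, nat_lit 220, nat_lit 248, nat_lit 52, nat_lit 384, ⟨nat_lit 0, nat_lit 1000, nat_lit 0, nat_lit 8, nat_lit 281, nat_lit 1000, nat_lit 180, nat_lit 0, nat_lit 0, nat_lit 0, nat_lit 0, nat_lit 0, nat_lit 37657071, nat_lit 19706419, nat_lit 9636510, nat_lit 5183801, true, true⟩,
 nat_lit 0, nat_lit 0, nat_lit 0, nat_lit 5324, nat_lit 3964, nat_lit 0, nat_lit 0, nat_lit 0, nat_lit 0, nat_lit 0, nat_lit 0, nat_lit 0, nat_lit 0, nat_lit 0, nat_lit 0, nat_lit 250000, nat_lit 0, nat_lit 0, [(nat_lit 25, [(nat_lit 0, nat_lit 1000)])],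
 ⟨p106_k2, nat_lit 0, nat_lit 0, nat_lit 66, nat_lit 0, nat_lit 0, [nat_lit 764000001, nat_lit 2118000000], [], [nat_lit 27653652756, nat_lit 28150957523, nat_lit 28320399491, nat_lit 28799796058, nat_lit 28204763605, nat_lit 28678966770, nat_lit 28839352928, nat_lit 29351176309], nat_lit 0, nat_lit 0, nat_lit 0, nat_lit 0, nat_lit 0, nat_lit 0, [], [nat_lit 88, nat_lit 40, nat_lit 40, nat_lit 80, nat_lit 89, nat_lit 203, nat_lit 0, nat_lit 5]⟩, C1.Rw.none,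
 ⟨nat_lit 2738, nat_lit 3163, ⟨.ofNat (nat_lit 682859), .ofNat (nat_lit 707240), .ofNat (nat_lit 705013), .ofNat (nat_lit 729395), .ofNat (nat_lit 677182), .ofNat (nat_lit 700807), .ofNat (nat_lit 699600), .ofNat (nat_lit 723224)⟩, ⟨.ofNat (nat_lit 419701), .ofNat (nat_lit 462368), .ofNat (nat_lit 441856), .ofNat (nat_lit 484523), .ofNat (nat_lit 417442), .ofNat (nat_lit 458785), .ofNat (nat_lit 439860), .ofNat (nat_lit 481203)⟩⟩, [⟨nat_lit 13, nat_lit 60, nat_lit 74, nat_lit 100, nat_lit 319494372⟩, ⟨nat_lit 16, nat_lit 62, nat_lit 100, nat_lit 94, nat_lit 172493073⟩]⟩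
noncomputable def p106_l30 : Lf2 := ⟨nat_lit 0, nat_lit 20, [nat_lit 5, nat_lit 5, nat_lit 5, nat_lit 20], true, nat_lit 220, nat_lit 248, nat_lit 52, nat_lit 376, ⟨nat_lit 0, nat_lit 1000, nat_lit 0, nat_lit 8, nat_lit 290, nat_lit 1000, nat_lit 180, nat_lit 0, nat_lit 0, nat_lit 0, nat_lit 0, nat_lit 0, nat_lit 36984805, nat_lit 20502081, nat_lit 9513114, nat_lit 5209049, true, true⟩,
 nat_lit 0, nat_lit 0, nat_lit 0, nat_lit 5292, nat_lit 3907, nat_lit 0, nat_lit 0, nat_lit 0, nat_lit 0, nat_lit 0, nat_lit 0, nat_lit 0, nat_lit 0, nat_lit 0, nat_lit 0, nat_lit 250000, nat_lit 0, nat_lit 0, [(nat_lit 25, [(nat_lit 0, nat_lit 1000)])],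
 ⟨p106_k2, nat_lit 0, nat_lit 0, nat_lit 69, nat_lit 0, nat_lit 0, [nat_lit 764000001, nat_lit 2118000000], [], [nat_lit 27681028203, nat_lit 28175274393, nat_lit 28676028599, nat_lit 29143700103, nat_lit 28233278813, nat_lit 28704664063, nat_lit 29180537917, nat_lit 29667861331], nat_lit 0, nat_lit 0, nat_lit 0, nat_lit 0, nat_lit 0, nat_lit 0, [], [nat_lit 88, nat_lit 40, nat_lit 40, nat_lit 80, nat_lit 89, nat_lit 203, nat_lit 0, nat_lit 5]⟩, C1.Rw.none,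
 ⟨nat_lit 2738, nat_lit 3163, ⟨.ofNat (nat_lit 705013), .ofNat (nat_lit 741586), .ofNat (nat_lit 716091), .ofNat (nat_lit 752663), .ofNat (nat_lit 699600), .ofNat (nat_lit 735037), .ofNat (nat_lit 710809), .ofNat (nat_lit 746245)⟩, ⟨.ofNat (nat_lit 419701), .ofNat (nat_lit 462368), .ofNat (nat_lit 441856), .ofNat (nat_lit 484523), .ofNat (nat_lit 417442), .ofNat (nat_lit 458785), .ofNat (nat_lit 439860), .ofNat (nat_lit 481203)⟩⟩, [⟨nat_lit 13, nat_lit 61, nat_lit 71, nat_lit 100, nat_lit 308166518⟩, ⟨nat_lit 16, nat_lit 62, nat_lit 100, nat_lit 94, nat_lit 170155017⟩]⟩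
noncomputable def p106_l31 : Lf2 := ⟨nat_lit 0, nat_lit 20, [nat_lit 5, nat_lit 5, nat_lit 5, nat_lit 20], true, nat_lit 220, nat_lit 248, nat_lit 52, nat_lit 372, ⟨nat_lit 0, nat_lit 1000, nat_lit 0, nat_lit 8, nat_lit 295, nat_lit 1000, nat_lit 180, nat_lit 0, nat_lit 0, nat_lit 0, nat_lit 0, nat_lit 0, nat_lit 36651156, nat_lit 20898019, nat_lit 9450825, nat_lit 5220113, true, true⟩,
 nat_lit 0, nat_lit 0, nat_lit 0, nat_lit 5274, nat_lit 3917, nat_lit 0, nat_lit 0, nat_lit 0, nat_lit 0, nat_lit 0, nat_lit 0, nat_lit 0, nat_lit 0, nat_lit 0, nat_lit 0, nat_lit 250000, nat_lit 0, nat_lit 0, [(nat_lit 25, [(nat_lit 0, nat_lit 1000)])],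
 ⟨p106_k2, nat_lit 0, nat_lit 0, nat_lit 70, nat_lit 0, nat_lit 0, [nat_lit 764000001, nat_lit 2118000000], [], [nat_lit 27676225493, nat_lit 28171008276, nat_lit 28838107182, nat_lit 29302685006, nat_lit 28228276145, nat_lit 28700155766, nat_lit 29334358379, nat_lit 29864840817], nat_lit 0, nat_lit 0, nat_lit 0, nat_lit 0, nat_lit 0, nat_lit 0, [], [nat_lit 88, nat_lit 40, nat_lit 40, nat_lit 80, nat_lit 89, nat_lit 203, nat_lit 0, nat_lit 5]⟩, C1.Rw.none,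
 ⟨nat_lit 2738, nat_lit 3163, ⟨.ofNat (nat_lit 716091), .ofNat (nat_lit 758758), .ofNat (nat_lit 721630), .ofNat (nat_lit 764297), .ofNat (nat_lit 710809), .ofNat (nat_lit 752152), .ofNat (nat_lit 716413), .ofNat (nat_lit 757756)⟩, ⟨.ofNat (nat_lit 419701), .ofNat (nat_lit 462368), .ofNat (nat_lit 441856), .ofNat (nat_lit 484523), .ofNat (nat_lit 417442), .ofNat (nat_lit 458785), .ofNat (nat_lit 439860), .ofNat (nat_lit 481203)⟩⟩, [⟨nat_lit 13, nat_lit 57, nat_lit 73, nat_lit 100, nat_lit 327526562⟩, ⟨nat_lit 16, nat_lit 62, nat_lit 100, nat_lit 94, nat_lit 168667678⟩]⟩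
noncomputable def p106_l32 : Lf2 := ⟨nat_lit 0, nat_lit 15, [nat_lit 30, nat_lit 5, nat_lit 5, nat_lit 20], true, nat_lit 220, nat_lit 248, nat_lit 52, nat_lit 368, ⟨nat_lit 0, nat_lit 1000, nat_lit 0, nat_lit 8, nat_lit 298, nat_lit 1000, nat_lit 180, nat_lit 0, nat_lit 0, nat_lit 0, nat_lit 0, nat_lit 0, nat_lit 36400505, nat_lit 21195912, nat_lit 9403583, nat_lit 5227791, true, true⟩,
 nat_lit 0, nat_lit 0, nat_lit 0, nat_lit 4343, nat_lit 2797, nat_lit 0, nat_lit 0, nat_lit 0, nat_lit 0, nat_lit 0, nat_lit 0, nat_lit 0, nat_lit 0, nat_lit 0, nat_lit 0, nat_lit 250000, nat_lit 0, nat_lit 0, [(nat_lit 25, [(nat_lit 0, nat_lit 1000)])],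
 ⟨p106_k8, nat_lit 0, nat_lit 0, nat_lit 59, nat_lit 0, nat_lit 0, [nat_lit 764000001, nat_lit 1368800000, nat_lit 2118000000], [], [nat_lit 26498283877, nat_lit 26978577797, nat_lit 27816912107, nat_lit 28279245183, nat_lit 27135708228, nat_lit 27595290812, nat_lit 28396695472, nat_lit 28862219249], nat_lit 0, nat_lit 0, nat_lit 0, nat_lit 0, nat_lit 0, nat_lit 0, [], [nat_lit 20, nat_lit 40, nat_lit 40, nat_lit 80, nat_lit 16, nat_lit 203, nat_lit 0, nat_lit 5]⟩, C1.Rw.none,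
 ⟨nat_lit 2738, nat_lit 3163, ⟨.ofNat (nat_lit 721630), .ofNat (nat_lit 770392), .ofNat (nat_lit 727168), .ofNat (nat_lit 775931), .ofNat (nat_lit 716413), .ofNat (nat_lit 763662), .ofNat (nat_lit 722017), .ofNat (nat_lit 769266)⟩, ⟨.ofNat (nat_lit 419701), .ofNat (nat_lit 462368), .ofNat (nat_lit 441856), .ofNat (nat_lit 484523), .ofNat (nat_lit 417442), .ofNat (nat_lit 458785), .ofNat (nat_lit 439860), .ofNat (nat_lit 481203)⟩⟩, [⟨nat_lit 13, nat_lit 61, nat_lit 68, nat_lit 100, nat_lit 304800455⟩, ⟨nat_lit 16, nat_lit 62, nat_lit 100, nat_lit 94, nat_lit 195063480⟩]⟩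
noncomputable def p106_l33 : Lf2 := ⟨nat_lit 0, nat_lit 18, [nat_lit 100, nat_lit 5, nat_lit 5, nat_lit 20], false, nat_lit 220, nat_lit 248, nat_lit 52, nat_lit 240, ⟨nat_lit 1000, nat_lit 0, nat_lit 0, nat_lit 0, nat_lit 0, nat_lit 0, nat_lit 0, nat_lit 0, nat_lit 0, nat_lit 0, nat_lit 0, nat_lit 0, nat_lit 0, nat_lit 0, nat_lit 0, nat_lit 0, false, false⟩,
 nat_lit 0, nat_lit 0, nat_lit 15262, nat_lit 0, nat_lit 6890, nat_lit 7882, nat_lit 0, nat_lit 0, nat_lit 0, nat_lit 1862, nat_lit 0, nat_lit 0, nat_lit 0, nat_lit 0, nat_lit 0, nat_lit 0, nat_lit 0, nat_lit 0, [],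
 ⟨p106_k9, nat_lit 0, nat_lit 0, nat_lit 69, nat_lit 0, nat_lit 0, [nat_lit 938000000, nat_lit 6250000000], [], [nat_lit 30380379810, nat_lit 30707535677, nat_lit 32064288699, nat_lit 32363693594, nat_lit 30872982948, nat_lit 31182411008, nat_lit 32501375472, nat_lit 32855005466], nat_lit 0, nat_lit 0, nat_lit 0, nat_lit 0, nat_lit 0, nat_lit 0, [], [nat_lit 88, nat_lit 40, nat_lit 40, nat_lit 80, nat_lit 89, nat_lit 203, nat_lit 0, nat_lit 5]⟩, ⟨p106_k10, nat_lit 0, nat_lit 0, nat_lit 372, nat_lit 0, nat_lit 252059, [nat_lit 6250000000, nat_lit 14058000000], [], [nat_lit 32253905027, nat_lit 32272248465, nat_lit 33336597060, nat_lit 33342021661, nat_lit 28075199437, nat_lit 28070500200, nat_lit 29597638480, nat_lit 29649859986], nat_lit 1271250, nat_lit 1271250, nat_lit 1271250, nat_lit 1271250, nat_lit 304850, nat_lit 1724250, [nat_lit 1412500, nat_lit 1271250], [nat_lit 149, nat_lit 40, nat_lit 40, nat_lit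 80, nat_lit 68, nat_lit 456, nat_lit 225, nat_lit 10]⟩,
 zbF0, [⟨nat_lit 13, nat_lit 59, nat_lit 70, nat_lit 100, nat_lit 136962887⟩, ⟨nat_lit 4, nat_lit 100, nat_lit 59, nat_lit 90, nat_lit 1265843612⟩]⟩
noncomputable def p106_l34 : Lf2 := ⟨nat_lit 0, nat_lit 18, [nat_lit 100, nat_lit 5, nat_lit 5, nat_lit 20], true, nat_lit 220, nat_lit 248, nat_lit 240, nat_lit 368, ⟨nat_lit 0, nat_lit 1000, nat_lit 0, nat_lit 8, nat_lit 299, nat_lit 1000, nat_lit 181, nat_lit 0, nat_lit 0, nat_lit 0, nat_lit 0, nat_lit 0, nat_lit 36342490, nat_lit 21241326, nat_lit 9416184, nat_lit 5231269, true, true⟩,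
 nat_lit 0, nat_lit 0, nat_lit 0, nat_lit 6384, nat_lit 2781, nat_lit 0, nat_lit 0, nat_lit 0, nat_lit 0, nat_lit 0, nat_lit 0, nat_lit 0, nat_lit 0, nat_lit 0, nat_lit 0, nat_lit 250000, nat_lit 0, nat_lit 0, [(nat_lit 25, [(nat_lit 0, nat_lit 1000)])],
 ⟨p106_k11, nat_lit 0, nat_lit 0, nat_lit 57, nat_lit 0, nat_lit 0, [nat_lit 764000001, nat_lit 1368800000, nat_lit 2118000000], [], [nat_lit 26503444339, nat_lit 26741732499, nat_lit 27818368462, nat_lit 28042019931, nat_lit 27139651844, nat_lit 27368969918, nat_lit 28398494038, nat_lit 28612758217], nat_lit 0, nat_lit 0, nat_lit 0, nat_lit 0, nat_lit 0, nat_lit 0, [], [nat_lit 20, nat_lit 40, nat_lit 40, nat_lit 80, nat_lit 16, nat_lit 203, nat_lit 0, nat_lit 5]⟩, C1.Rw.none,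
 ⟨nat_lit 2958, nat_lit 3163, ⟨.ofNat (nat_lit 721630), .ofNat (nat_lit 770392), .ofNat (nat_lit 727168), .ofNat (nat_lit 775931), .ofNat (nat_lit 719046), .ofNat (nat_lit 767063), .ofNat (nat_lit 724616), .ofNat (nat_lit 772633)⟩, ⟨.ofNat (nat_lit 419701), .ofNat (nat_lit 462368), .ofNat (nat_lit 441856), .ofNat (nat_lit 484523), .ofNat (nat_lit 418624), .ofNat (nat_lit 460638), .ofNat (nat_lit 440901), .ofNat (nat_lit 482915)⟩⟩, [⟨nat_lit 13, nat_lit 61, nat_lit 68, nat_lit 100, nat_lit 303300099⟩, ⟨nat_lit 16, nat_lit 62, nat_lit 100, nat_lit 94, nat_lit 194448477⟩]⟩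
noncomputable def p106_l35 : Lf2 := ⟨nat_lit 0, nat_lit 18, [nat_lit 100, nat_lit 5, nat_lit 5, nat_lit 20], true, nat_lit 220, nat_lit 240, nat_lit 52, nat_lit 368, ⟨nat_lit 0, nat_lit 1000, nat_lit 0, nat_lit 8, nat_lit 295, nat_lit 1000, nat_lit 178, nat_lit 0, nat_lit 0, nat_lit 0, nat_lit 0, nat_lit 0, nat_lit 36749912, nat_lit 20997481, nat_lit 9252607, nat_lit 5200832, true, true⟩,
 nat_lit 0, nat_lit 0, nat_lit 0, nat_lit 4884, nat_lit 3941, nat_lit 0, nat_lit 0, nat_lit 0, nat_lit 0, nat_lit 0, nat_lit 0, nat_lit 0, nat_lit 0, nat_lit 0, nat_lit 0, nat_lit 250000, nat_lit 0, nat_lit 0, [(nat_lit 25, [(nat_lit 0, nat_lit 1000)])],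
 ⟨p106_k12, nat_lit 0, nat_lit 0, nat_lit 69, nat_lit 0, nat_lit 0, [nat_lit 764000001, nat_lit 2118000000], [], [nat_lit 27912734292, nat_lit 28160769594, nat_lit 28897415425, nat_lit 29132077604, nat_lit 28235021845, nat_lit 28475030957, nat_lit 29186951347, nat_lit 29462669333], nat_lit 0, nat_lit 0, nat_lit 0, nat_lit 0, nat_lit 0, nat_lit 0, [], [nat_lit 88, nat_lit 40, nat_lit 40, nat_lit 80, nat_lit 89, nat_lit 203, nat_lit 0, nat_lit 5]⟩, C1.Rw.none,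
 ⟨nat_lit 2738, nat_lit 2959, ⟨.ofNat (nat_lit 719046), .ofNat (nat_lit 755059), .ofNat (nat_lit 724616), .ofNat (nat_lit 760628), .ofNat (nat_lit 716413), .ofNat (nat_lit 751850), .ofNat (nat_lit 722017), .ofNat (nat_lit 757454)⟩, ⟨.ofNat (nat_lit 418624), .ofNat (nat_lit 448634), .ofNat (nat_lit 440901), .ofNat (nat_lit 470911), .ofNat (nat_lit 417442), .ofNat (nat_lit 446973), .ofNat (nat_lit 439860), .ofNat (nat_lit 469390)⟩⟩, [⟨nat_lit 13, nat_lit 58, nat_lit 71, nat_lit 100, nat_lit 327878156⟩, ⟨nat_lit 16, nat_lit 58, nat_lit 100, nat_lit 93, nat_lit 156589297⟩]⟩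
noncomputable def p106_l36 : Lf2 := ⟨nat_lit 0, nat_lit 20, [nat_lit 5, nat_lit 5, nat_lit 5, nat_lit 20], true, nat_lit 220, nat_lit 248, nat_lit 52, nat_lit 368, ⟨nat_lit 0, nat_lit 1000, nat_lit 0, nat_lit 8, nat_lit 298, nat_lit 1000, nat_lit 180, nat_lit 0, nat_lit 0, nat_lit 0, nat_lit 0, nat_lit 0, nat_lit 36400505, nat_lit 21195912, nat_lit 9403583, nat_lit 5227791, true, true⟩,
 nat_lit 0, nat_lit 0, nat_lit 0, nat_lit 8723, nat_lit 2784, nat_lit 0, nat_lit 0, nat_lit 0, nat_lit 0, nat_lit 0, nat_lit 0, nat_lit 0, nat_lit 0, nat_lit 0, nat_lit 0, nat_lit 250000, nat_lit 0, nat_lit 0, [(nat_lit 25, [(nat_lit 0, nat_lit 1000)])],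
 ⟨p106_k0, nat_lit 0, nat_lit 0, nat_lit 59, nat_lit 0, nat_lit 0, [nat_lit 764000001, nat_lit 1368800000, nat_lit 2118000000], [], [nat_lit 26501382544, nat_lit 26980844330, nat_lit 27818095396, nat_lit 28265567030, nat_lit 27138912416, nat_lit 27597726020, nat_lit 28398156807, nat_lit 28848414360], nat_lit 0, nat_lit 0, nat_lit 0, nat_lit 0, nat_lit 0, nat_lit 0, [], [nat_lit 20, nat_lit 40, nat_lit 40, nat_lit 80, nat_lit 16, nat_lit 203, nat_lit 0, nat_lit 5]⟩, C1.Rw.none,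
 ⟨nat_lit 2738, nat_lit 3163, ⟨.ofNat (nat_lit 721630), .ofNat (nat_lit 770392), .ofNat (nat_lit 727168), .ofNat (nat_lit 775931), .ofNat (nat_lit 716413), .ofNat (nat_lit 763662), .ofNat (nat_lit 722017), .ofNat (nat_lit 769266)⟩, ⟨.ofNat (nat_lit 419701), .ofNat (nat_lit 462368), .ofNat (nat_lit 441856), .ofNat (nat_lit 484523), .ofNat (nat_lit 417442), .ofNat (nat_lit 458785), .ofNat (nat_lit 439860), .ofNat (nat_lit 481203)⟩⟩, [⟨nat_lit 13, nat_lit 54, nat_lit 76, nat_lit 100, nat_lit 365596645⟩, ⟨nat_lit 4, nat_lit 100, nat_lit 57, nat_lit 90, nat_lit 246306901⟩]⟩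
noncomputable def p106_l37 : Lf2 := ⟨nat_lit 0, nat_lit 20, [nat_lit 5, nat_lit 5, nat_lit 5, nat_lit 20], true, nat_lit 220, nat_lit 232, nat_lit 52, nat_lit 380, ⟨nat_lit 0, nat_lit 1000, nat_lit 0, nat_lit 8, nat_lit 284, nat_lit 1000, nat_lit 170, nat_lit 0, nat_lit 0, nat_lit 0, nat_lit 0, nat_lit 0, nat_lit 37959028, nat_lit 20208354, nat_lit 8832618, nat_lit 5110627, true, true⟩,
 nat_lit 0, nat_lit 0, nat_lit 0, nat_lit 5144, nat_lit 3944, nat_lit 0, nat_lit 0, nat_lit 0, nat_lit 0, nat_lit 0, nat_lit 0, nat_lit 0, nat_lit 0, nat_lit 0, nat_lit 0, nat_lit 250000, nat_lit 0, nat_lit 0, [(nat_lit 25, [(nat_lit 0, nat_lit 1000)])],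
 ⟨p106_k7, nat_lit 0, nat_lit 0, nat_lit 72, nat_lit 0, nat_lit 0, [nat_lit 764000001, nat_lit 2118000000], [], [nat_lit 28159489758, nat_lit 28655721340, nat_lit 28969125034, nat_lit 29515580498, nat_lit 28347991116, nat_lit 28834585989, nat_lit 29141511221, nat_lit 29706739969], nat_lit 0, nat_lit 0, nat_lit 0, nat_lit 0, nat_lit 0, nat_lit 0, [], [nat_lit 88, nat_lit 40, nat_lit 40, nat_lit 80, nat_lit 89, nat_lit 203, nat_lit 0, nat_lit 5]⟩, C1.Rw.none,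
 ⟨nat_lit 2236, nat_lit 2739, ⟨.ofNat (nat_lit 677182), .ofNat (nat_lit 706713), .ofNat (nat_lit 722017), .ofNat (nat_lit 751548), .ofNat (nat_lit 671045), .ofNat (nat_lit 699553), .ofNat (nat_lit 716594), .ofNat (nat_lit 745101)⟩, ⟨.ofNat (nat_lit 395025), .ofNat (nat_lit 412743), .ofNat (nat_lit 439860), .ofNat (nat_lit 457578), .ofNat (nat_lit 391861), .ofNat (nat_lit 408965), .ofNat (nat_lit 437409), .ofNat (nat_lit 454514)⟩⟩, [⟨nat_lit 13, nat_lit 54, nat_lit 74, nat_lit 100, nat_lit 371481183⟩, ⟨nat_lit 16, nat_lit 53, nat_lit 100, nat_lit 93, nat_lit 183183028⟩]⟩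
noncomputable def p106_l38 : Lf2 := ⟨nat_lit 0, nat_lit 20, [nat_lit 5, nat_lit 5, nat_lit 5, nat_lit 20], true, nat_lit 160, nat_lit 208, nat_lit 16, nat_lit 368, ⟨nat_lit 0, nat_lit 1000, nat_lit 0, nat_lit 8, nat_lit 275, nat_lit 1000, nat_lit 144, nat_lit 0, nat_lit 0, nat_lit 0, nat_lit 0, nat_lit 0, nat_lit 40091332, nat_lit 19845069, nat_lit 7063599, nat_lit 4843645, true, true⟩,
 nat_lit 0, nat_lit 0, nat_lit 0, nat_lit 0, nat_lit 3687, nat_lit 0, nat_lit 0, nat_lit 0, nat_lit 0, nat_lit 0, nat_lit 0, nat_lit 0, nat_lit 0, nat_lit 0, nat_lit 0, nat_lit 250000, nat_lit 0, nat_lit 0, [(nat_lit 28, [(nat_lit 0, nat_lit 1000)])],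
 ⟨p106_k1, nat_lit 0, nat_lit 0, nat_lit 88, nat_lit 0, nat_lit 0, [nat_lit 781600001, nat_lit 1671657143], [], [nat_lit 27384886251, nat_lit 28521555128, nat_lit 27553800268, nat_lit 28713834948, nat_lit 28121159071, nat_lit 29288237111, nat_lit 28278183332, nat_lit 29466768858], nat_lit 0, nat_lit 0, nat_lit 0, nat_lit 0, nat_lit 0, nat_lit 0, [], [nat_lit 88, nat_lit 40, nat_lit 40, nat_lit 80, nat_lit 89, nat_lit 272, nat_lit 60, nat_lit 8]⟩, C1.Rw.none,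
 ⟨nat_lit 0, nat_lit 2237, ⟨.ofNat (nat_lit 671039), .ofNat (nat_lit 676741), .ofNat (nat_lit 716590), .ofNat (nat_lit 722292), .ofNat (nat_lit 649993), .ofNat (nat_lit 654993), .ofNat (nat_lit 699995), .ofNat (nat_lit 704996)⟩, ⟨.ofNat (nat_lit 306334), .ofNat (nat_lit 374750), .ofNat (nat_lit 351885), .ofNat (nat_lit 420300), .ofNat (nat_lit 299996), .ofNat (nat_lit 359993), .ofNat (nat_lit 349998), .ofNat (nat_lit 409994)⟩⟩, [⟨nat_lit 13, nat_lit 44, nat_lit 81, nat_lit 100, nat_lit 467400447⟩, ⟨nat_lit 16, nat_lit 44, nat_lit 100, nat_lit 92, nat_lit 230466643⟩]⟩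
noncomputable def b_V_900_500_20_7 : St := ⟨true, nat_lit 0, nat_lit 1, nat_lit 1, nat_lit 120, nat_lit 360, nat_lit 400, nat_lit 200, nat_lit 240, nat_lit 240, nat_lit 352, nat_lit 80, nat_lit 120, nat_lit 160, nat_lit 248, nat_lit 0, nat_lit 384, nat_lit 40, nat_lit 80, nat_lit 0, nat_lit 0, nat_lit 0, nat_lit 0⟩
theorem d_V_900_500_20_7 (h : EB TB.env) : Dead b_V_900_500_20_7 := chkB_sound0 h (T :=
(.spl (nat_lit 2) (nat_lit 320)
(.spl (nat_lit 0) (nat_lit 380)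
(.leaf p106_l23)
(.trX (nat_lit 16) (nat_lit 44) (nat_lit 100) (nat_lit 92) (nat_lit 208) (.leaf p106_l24)))
(.trZ (nat_lit 9) (nat_lit 100) (nat_lit 82) (nat_lit 44) (nat_lit 16) (.spl (nat_lit 0) (nat_lit 380)
(.spl (nat_lit 4) (nat_lit 200)
(.trX (nat_lit 22) (nat_lit 80) (nat_lit 60) (nat_lit 100) (nat_lit 360) (.leaf p106_l25))
(.trZ (nat_lit 9) (nat_lit 100) (nat_lit 80) (nat_lit 60) (nat_lit 40) (.spl (nat_lit 4) (nat_lit 220)
(.trX (nat_lit 22) (nat_lit 80) (nat_lit 52) (nat_lit 100) (nat_lit 372) (.spl (nat_lit 0) (nat_lit 370)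
(.leaf p106_l26)
(.trX (nat_lit 13) (nat_lit 54) (nat_lit 74) (nat_lit 100) (nat_lit 340) (.leaf p106_l27))))
(.trZ (nat_lit 9) (nat_lit 100) (nat_lit 80) (nat_lit 68) (nat_lit 52) (.spl (nat_lit 0) (nat_lit 370)
(.spl (nat_lit 3) (nat_lit 100)
(.trX (nat_lit 16) (nat_lit 60) (nat_lit 100) (nat_lit 87) (nat_lit 224) (.trX (nat_lit 19) (nat_lit 100) (nat_lit 50) (nat_lit 87) (nat_lit 376) (.leaf p106_l28)))
(.spl (nat_lit 1) (nat_lit 220)
(.trX (nat_lit 13) (nat_lit 60) (nat_lit 74) (nat_lit 100) (nat_lit 336) (.leaf p106_l29))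
(.trX (nat_lit 19) (nat_lit 100) (nat_lit 49) (nat_lit 92) (nat_lit 376) (.spl (nat_lit 1) (nat_lit 230)
(.trX (nat_lit 13) (nat_lit 61) (nat_lit 71) (nat_lit 100) (nat_lit 344) (.leaf p106_l30))
(.trX (nat_lit 19) (nat_lit 100) (nat_lit 54) (nat_lit 93) (nat_lit 372) (.spl (nat_lit 1) (nat_lit 235)
(.trX (nat_lit 13) (nat_lit 61) (nat_lit 69) (nat_lit 100) (nat_lit 348) (.leaf p106_l31))
(.trX (nat_lit 19) (nat_lit 100) (nat_lit 56) (nat_lit 93) (nat_lit 368) (.spl (nat_lit 6) (nat_lit 60)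
(.leaf p106_l32)
(.spl (nat_lit 6) (nat_lit 72)
(.spl (nat_lit 0) (nat_lit 365)
(.spl (nat_lit 5) (nat_lit 240)
(.leaf p106_l33)
(.leaf p106_l34))
(.trX (nat_lit 13) (nat_lit 58) (nat_lit 71) (nat_lit 100) (nat_lit 344) (.trX (nat_lit 16) (nat_lit 58) (nat_lit 100) (nat_lit 93) (nat_lit 240) (.leaf p106_l35))))
(.leaf p106_l36))))))))))
(.trX (nat_lit 13) (nat_lit 54) (nat_lit 74) (nat_lit 100) (nat_lit 340) (.trX (nat_lit 16) (nat_lit 53) (nat_lit 100) (nat_lit 93) (nat_lit 232) (.trX (nat_lit 22) (nat_lit 81) (nat_lit 47) (nat_lit 100) (nat_lit 380) (.leaf p106_l37)))))))))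
(.trX (nat_lit 13) (nat_lit 44) (nat_lit 81) (nat_lit 100) (nat_lit 324) (.trX (nat_lit 16) (nat_lit 44) (nat_lit 100) (nat_lit 92) (nat_lit 208) (.trX (nat_lit 22) (nat_lit 80) (nat_lit 57) (nat_lit 100) (nat_lit 368) (.leaf p106_l38)))))))) (by decide +kernel)
noncomputable def p106_l39 : Lf2 := ⟨nat_lit 0, nat_lit 20, [nat_lit 5, nat_lit 5, nat_lit 5, nat_lit 20], false, nat_lit 8, nat_lit 160, nat_lit 0, nat_lit 384, ⟨nat_lit 120, nat_lit 0, nat_lit 880, nat_lit 5, nat_lit 185, nat_lit 880, nat_lit 70, nat_lit 880, nat_lit 45067, nat_lit 267, nat_lit 417, nat_lit 210, nat_lit 52554385, nat_lit 0, nat_lit 0, nat_lit 3275762, false, false⟩,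
 nat_lit 0, nat_lit 2932, nat_lit 0, nat_lit 0, nat_lit 2553, nat_lit 1780, nat_lit 0, nat_lit 0, nat_lit 0, nat_lit 80, nat_lit 0, nat_lit 0, nat_lit 0, nat_lit 0, nat_lit 45, nat_lit 220000, nat_lit 0, nat_lit 0, [(nat_lit 25, [(nat_lit 4, nat_lit 880)])],
 ⟨p106_k13, nat_lit 0, nat_lit 0, nat_lit 304, nat_lit 0, nat_lit 368289, [nat_lit 973328000, nat_lit 377216001, nat_lit 13200000], [], [nat_lit 19124133816, nat_lit 19705209400, nat_lit 22308760943, nat_lit 22903552831, nat_lit 19959013921, nat_lit 20479332303, nat_lit 23111099460, nat_lit 23662315450], nat_lit 1271250, nat_lit 1271250, nat_lit 490000, nat_lit 1740000, nat_lit 43600, nat_lit 1100001, [nat_lit 230000, nat_lit 1100000, nat_lit 1442500], [nat_lit 55, nat_lit 40, nat_lit 40, nat_lit 80, nat_lit 3, nat_lit 317, nat_lit 100, nat_lit 12]⟩, ⟨p106_k14, nat_lit 0, nat_lit 0, nat_lit 384, nat_lit 0, nat_lit 0, [nat_lit 750000000, nat_lit 1424640000,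 nat_lit 1686960000], [], [nat_lit 5525561600, nat_lit 5580067920, nat_lit 4912651440, nat_lit 4946908720, nat_lit 4839452672, nat_lit 4863370288, nat_lit 4174522049, nat_lit 4189605265], nat_lit 0, nat_lit 0, nat_lit 0, nat_lit 0, nat_lit 0, nat_lit 0, [], [nat_lit 137, nat_lit 40, nat_lit 40, nat_lit 80, nat_lit 58, nat_lit 456, nat_lit 225, nat_lit 11]⟩,
 ⟨nat_lit 2738, nat_lit 3163, ⟨.ofNat (nat_lit 317085), .ofNat (nat_lit 560952), .ofNat (nat_lit 361370), .ofNat (nat_lit 605257), .ofNat (nat_lit 322761), .ofNat (nat_lit 559060), .ofNat (nat_lit 367571), .ofNat (nat_lit 603890)⟩, ⟨.ofNat (nat_lit 20000), .ofNat (nat_lit 306116), .ofNat (nat_lit 20000), .ofNat (nat_lit 350426), .ofNat (nat_lit 20000), .ofNat (nat_lit 306433), .ofNat (nat_lit 20000), .ofNat (nat_lit 351268)⟩⟩, [⟨nat_lit 3, nat_lit 100, nat_lit 57, nat_lit 62, nat_lit 19797541⟩, ⟨nat_lit 22, nat_lit 100, nat_lit 41, nat_lit 83, nat_lit 17040660⟩]⟩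
noncomputable def p106_l40 : Lf2 := ⟨nat_lit 0, nat_lit 20, [nat_lit 5, nat_lit 5, nat_lit 5, nat_lit 20], false, nat_lit 12, nat_lit 160, nat_lit 0, nat_lit 384, ⟨nat_lit 145, nat_lit 0, nat_lit 855, nat_lit 5, nat_lit 189, nat_lit 855, nat_lit 72, nat_lit 855, nat_lit 48600, nat_lit 269, nat_lit 2958, nat_lit 211, nat_lit 52005152, nat_lit 0, nat_lit 0, nat_lit 3355022, false, false⟩,
 nat_lit 0, nat_lit 2842, nat_lit 0, nat_lit 0, nat_lit 2564, nat_lit 1702, nat_lit 17, nat_lit 0, nat_lit 0, nat_lit 165, nat_lit 0, nat_lit 0, nat_lit 0, nat_lit 0, nat_lit 35, nat_lit 213750, nat_lit 0, nat_lit 0, [(nat_lit 25, [(nat_lit 4, nat_lit 855)])],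
 ⟨p106_k4, nat_lit 0, nat_lit 0, nat_lit 322, nat_lit 0, nat_lit 437410, [nat_lit 898450001, nat_lit 586494001, nat_lit 44857999], [], [nat_lit 19922305383, nat_lit 20600543346, nat_lit 23028957756, nat_lit 23588791442, nat_lit 20867700855, nat_lit 21428020181, nat_lit 23820920540, nat_lit 24358482016], nat_lit 1271250, nat_lit 1271250, nat_lit 573850, nat_lit 1746750, nat_lit 65850, nat_lit 1100001, [nat_lit 230000, nat_lit 780000, nat_lit 1435000], [nat_lit 20, nat_lit 40, nat_lit 40, nat_lit 80, nat_lit 16, nat_lit 317, nat_lit 100, nat_lit 12]⟩, ⟨p106_k3, nat_lit 0, nat_lit 0, nat_lit 373, nat_lit 0, nat_lit 0, [nat_lit 906250000, nat_lit 1427090000, nat_lit 2038410000], [], [nat_lit 5534101996, nat_lit 5611831001, nat_lit 5135556580, nat_lit 5157875736, nat_lit 5112170122, nat_lit 5160398606, nat_lit 4631587650, nat_lit 4702190621], nat_lit 0, nat_lit 0, nat_lit 0, nat_lit 0, nat_lit 0, nat_lit 0, [], [nat_lit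 60, nat_lit 40, nat_lit 40, nat_lit 80, nat_lit 32, nat_lit 456, nat_lit 225, nat_lit 11]⟩,
 ⟨nat_lit 2236, nat_lit 2739, ⟨.ofNat (nat_lit 340439), .ofNat (nat_lit 559060), .ofNat (nat_lit 385234), .ofNat (nat_lit 603890), .ofNat (nat_lit 345963), .ofNat (nat_lit 557014), .ofNat (nat_lit 391471), .ofNat (nat_lit 602558)⟩, ⟨.ofNat (nat_lit 30000), .ofNat (nat_lit 306433), .ofNat (nat_lit 30000), .ofNat (nat_lit 351268), .ofNat (nat_lit 30000), .ofNat (nat_lit 306337), .ofNat (nat_lit 30000), .ofNat (nat_lit 351886)⟩⟩, [⟨nat_lit 3, nat_lit 100, nat_lit 48, nat_lit 71, nat_lit 5333193⟩, ⟨nat_lit 19, nat_lit 100, nat_lit 59, nat_lit 87, nat_lit 6950329⟩, ⟨nat_lit 22, nat_lit 100, nat_lit 43, nat_lit 83, nat_lit 20692569⟩]⟩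
noncomputable def p106_l41 : Lf2 := ⟨nat_lit 0, nat_lit 20, [nat_lit 5, nat_lit 5, nat_lit 5, nat_lit 20], false, nat_lit 20, nat_lit 160, nat_lit 0, nat_lit 384, ⟨nat_lit 209, nat_lit 58, nat_lit 733, nat_lit 5, nat_lit 196, nat_lit 791, nat_lit 76, nat_lit 733, nat_lit 54150, nat_lit 272, nat_lit 267, nat_lit 211, nat_lit 51140631, nat_lit 12883741, nat_lit 2975628, nat_lit 3481869, false, false⟩,
 nat_lit 0, nat_lit 2776, nat_lit 0, nat_lit 0, nat_lit 2593, nat_lit 3084, nat_lit 0, nat_lit 0, nat_lit 0, nat_lit 123, nat_lit 0, nat_lit 0, nat_lit 0, nat_lit 0, nat_lit 59, nat_lit 267350, nat_lit 0, nat_lit 0, [(nat_lit 28, [(nat_lit 0, nat_lit 58), (nat_lit 4, nat_lit 269), (nat_lit 5, nat_lit 464)])],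
 ⟨p106_k15, nat_lit 0, nat_lit 0, nat_lit 339, nat_lit 0, nat_lit 501228, [nat_lit 957675601, nat_lit 166974560, nat_lit 291632800], [], [nat_lit 20746551419, nat_lit 21426305452, nat_lit 23548619821, nat_lit 24154011396, nat_lit 21667190191, nat_lit 22203038286, nat_lit 24396642181, nat_lit 24922127311], nat_lit 1271250, nat_lit 1271250, nat_lit 719601, nat_lit 1758000, nat_lit 111251, nat_lit 1100001, [nat_lit 230000, nat_lit 1100000, nat_lit 1442500], [nat_lit 55, nat_lit 40, nat_lit 40, nat_lit 80, nat_lit 3, nat_lit 317, nat_lit 100, nat_lit 12]⟩, ⟨p106_k14, nat_lit 0, nat_lit 0, nat_lit 305, nat_lit 0, nat_lit 0, [nat_lit 1306250000, nat_lit 2481248000, nat_lit 2938122000], [], [nat_lit 7716458069, nat_lit 8239371140, nat_lit 8032849420, nat_lit 8376156168, nat_lit 8047237613, nat_lit 8081196824, nat_lit 7336406172, nat_lit 7291216675], nat_lit 0, nat_lit 0, nat_lit 0, nat_lit 0, nat_lit 0, nat_lit 0, [],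 [nat_lit 137, nat_lit 40, nat_lit 40, nat_lit 80, nat_lit 58, nat_lit 456, nat_lit 225, nat_lit 11]⟩,
 ⟨nat_lit 1581, nat_lit 2237, ⟨.ofNat (nat_lit 374377), .ofNat (nat_lit 557014), .ofNat (nat_lit 419835), .ofNat (nat_lit 602558), .ofNat (nat_lit 379613), .ofNat (nat_lit 554634), .ofNat (nat_lit 426152), .ofNat (nat_lit 601260)⟩, ⟨.ofNat (nat_lit 50000), .ofNat (nat_lit 306337), .ofNat (nat_lit 50000), .ofNat (nat_lit 351886), .ofNat (nat_lit 50000), .ofNat (nat_lit 305473), .ofNat (nat_lit 50000), .ofNat (nat_lit 352103)⟩⟩, [⟨nat_lit 0, nat_lit 99, nat_lit 31, nat_lit 100, nat_lit 89074268⟩, ⟨nat_lit 3, nat_lit 100, nat_lit 34, nat_lit 81, nat_lit 12776036⟩, ⟨nat_lit 19, nat_lit 100, nat_lit 59, nat_lit 87, nat_lit 31927378⟩]⟩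
noncomputable def p106_l42 : Lf2 := ⟨nat_lit 0, nat_lit 20, [nat_lit 5, nat_lit 5, nat_lit 5, nat_lit 20], false, nat_lit 36, nat_lit 160, nat_lit 0, nat_lit 384, ⟨nat_lit 197, nat_lit 336, nat_lit 467, nat_lit 5, nat_lit 203, nat_lit 803, nat_lit 83, nat_lit 467, nat_lit 66150, nat_lit 278, nat_lit 3415, nat_lit 212, nat_lit 50017522, nat_lit 13560448, nat_lit 3422030, nat_lit 3659832, false, false⟩,
 nat_lit 0, nat_lit 2719, nat_lit 0, nat_lit 0, nat_lit 2629, nat_lit 2964, nat_lit 0, nat_lit 0, nat_lit 0, nat_lit 115, nat_lit 0, nat_lit 0, nat_lit 0, nat_lit 0, nat_lit 1, nat_lit 270800, nat_lit 0, nat_lit 0, [(nat_lit 28, [(nat_lit 0, nat_lit 336), (nat_lit 5, nat_lit 467)])],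
 ⟨p106_k16, nat_lit 0, nat_lit 0, nat_lit 292, nat_lit 0, nat_lit 560149, [nat_lit 728614801, nat_lit 183233201, nat_lit 21302599], [], [nat_lit 21536817356, nat_lit 22248584674, nat_lit 24038928071, nat_lit 24640190338, nat_lit 22468075252, nat_lit 23037041734, nat_lit 24841883815, nat_lit 25370335705], nat_lit 1271250, nat_lit 1271250, nat_lit 904401, nat_lit 1771500, nat_lit 205650, nat_lit 1100001, [nat_lit 230000, nat_lit 780000, nat_lit 1100000], [nat_lit 35, nat_lit 40, nat_lit 40, nat_lit 80, nat_lit 22, nat_lit 317, nat_lit 100, nat_lit 14]⟩, ⟨p106_k3, nat_lit 0, nat_lit 0, nat_lit 263, nat_lit 0, nat_lit 0, [nat_lit 1231250000, nat_lit 1938874000, nat_lit 2769426000], [], [nat_lit 7201514240, nat_lit 7677448691, nat_lit 7655240606, nat_lit 7981069066, nat_lit 7374256683, nat_lit 7394123233, nat_lit 6953132273, nat_lit 6911512181], nat_lit 0, nat_lit 0, nat_lit 0, nat_lit 0, nat_lit 0, nat_lit 0, [],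 [nat_lit 60, nat_lit 40, nat_lit 40, nat_lit 80, nat_lit 32, nat_lit 456, nat_lit 225, nat_lit 11]⟩,
 ⟨nat_lit 0, nat_lit 1582, ⟨.ofNat (nat_lit 410485), .ofNat (nat_lit 554633), .ofNat (nat_lit 455801), .ofNat (nat_lit 601257), .ofNat (nat_lit 417902), .ofNat (nat_lit 549998), .ofNat (nat_lit 466588), .ofNat (nat_lit 599992)⟩, ⟨.ofNat (nat_lit 90000), .ofNat (nat_lit 305469), .ofNat (nat_lit 90000), .ofNat (nat_lit 352101), .ofNat (nat_lit 90000), .ofNat (nat_lit 299995), .ofNat (nat_lit 90000), .ofNat (nat_lit 349997)⟩⟩, [⟨nat_lit 0, nat_lit 100, nat_lit 22, nat_lit 100, nat_lit 32658746⟩, ⟨nat_lit 16, nat_lit 23, nat_lit 100, nat_lit 91, nat_lit 13842858⟩, ⟨nat_lit 7, nat_lit 59, nat_lit 100, nat_lit 87, nat_lit 29599802⟩]⟩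
noncomputable def p106_l43 : Lf2 := ⟨nat_lit 0, nat_lit 20, [nat_lit 5, nat_lit 5, nat_lit 5, nat_lit 20], false, nat_lit 160, nat_lit 248, nat_lit 0, nat_lit 384, ⟨nat_lit 80, nat_lit 254, nat_lit 666, nat_lit 5, nat_lit 185, nat_lit 920, nat_lit 157, nat_lit 666, nat_lit 61189, nat_lit 275, nat_lit 417, nat_lit 210, nat_lit 46688728, nat_lit 11448437, nat_lit 8862835, nat_lit 4407361, false, false⟩,
 nat_lit 0, nat_lit 3371, nat_lit 0, nat_lit 0, nat_lit 2935, nat_lit 1183, nat_lit 0, nat_lit 0, nat_lit 0, nat_lit 47, nat_lit 0, nat_lit 0, nat_lit 0, nat_lit 0, nat_lit 11, nat_lit 230000, nat_lit 0, nat_lit 0, [(nat_lit 25, [(nat_lit 0, nat_lit 254), (nat_lit 4, nat_lit 666)])],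
 ⟨p106_k13, nat_lit 0, nat_lit 0, nat_lit 250, nat_lit 0, nat_lit 458580, [nat_lit 828313600, nat_lit 301621601, nat_lit 19212000], [], [nat_lit 20048185061, nat_lit 21046544571, nat_lit 22605510601, nat_lit 23537008450, nat_lit 22108867033, nat_lit 23060317283, nat_lit 24467741703, nat_lit 25382094746], nat_lit 1271250, nat_lit 1271250, nat_lit 490000, nat_lit 1740000, nat_lit 1100001, nat_lit 1853500, [nat_lit 230000, nat_lit 1100000, nat_lit 1442500], [nat_lit 55, nat_lit 40, nat_lit 40, nat_lit 80, nat_lit 3, nat_lit 345, nat_lit 125, nat_lit 12]⟩, ⟨p106_k14, nat_lit 0, nat_lit 0, nat_lit 384, nat_lit 0, nat_lit 0, [nat_lit 500000000, nat_lit 949760000, nat_lit 1124640000], [], [nat_lit 3784337800, nat_lit 3820791404, nat_lit 3376390820, nat_lit 3374307944, nat_lit 3275700932, nat_lit 3291819313, nat_lit 2808189320, nat_lit 2790451419], nat_lit 0, nat_lit 0, nat_lit 0, nat_lit 0, nat_lit 0, nat_lit 0, [],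 [nat_lit 137, nat_lit 40, nat_lit 40, nat_lit 80, nat_lit 58, nat_lit 456, nat_lit 225, nat_lit 11]⟩,
 ⟨nat_lit 2236, nat_lit 3163, ⟨.ofNat (nat_lit 316827), .ofNat (nat_lit 560952), .ofNat (nat_lit 361011), .ofNat (nat_lit 605240), .ofNat (nat_lit 328641), .ofNat (nat_lit 557014), .ofNat (nat_lit 374063), .ofNat (nat_lit 602541)⟩, ⟨.ofNat (nat_lit 306116), .ofNat (nat_lit 440213), .ofNat (nat_lit 350426), .ofNat (nat_lit 484523), .ofNat (nat_lit 306337), .ofNat (nat_lit 431772), .ofNat (nat_lit 351886), .ofNat (nat_lit 477320)⟩⟩, [⟨nat_lit 4, nat_lit 100, nat_lit 53, nat_lit 87, nat_lit 302911509⟩, ⟨nat_lit 7, nat_lit 59, nat_lit 100, nat_lit 87, nat_lit 9772420⟩]⟩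
noncomputable def p106_l44 : Lf2 := ⟨nat_lit 0, nat_lit 20, [nat_lit 5, nat_lit 5, nat_lit 5, nat_lit 20], true, nat_lit 160, nat_lit 208, nat_lit 0, nat_lit 384, ⟨nat_lit 0, nat_lit 937, nat_lit 63, nat_lit 5, nat_lit 196, nat_lit 1000, nat_lit 144, nat_lit 63, nat_lit 194400, nat_lit 323, nat_lit 267, nat_lit 211, nat_lit 46805934, nat_lit 12498140, nat_lit 7695926, nat_lit 4353378, false, false⟩,
 nat_lit 0, nat_lit 2950, nat_lit 0, nat_lit 0, nat_lit 2756, nat_lit 0, nat_lit 52, nat_lit 0, nat_lit 0, nat_lit 0, nat_lit 0, nat_lit 0, nat_lit 0, nat_lit 0, nat_lit 6, nat_lit 400000, nat_lit 0, nat_lit 0, [(nat_lit 28, [(nat_lit 1, nat_lit 937), (nat_lit 5, nat_lit 63)])],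
 ⟨p106_k15, nat_lit 0, nat_lit 0, nat_lit 305, nat_lit 0, nat_lit 585854, [nat_lit 715048001, nat_lit 96072320, nat_lit 19759200], [], [nat_lit 20818725475, nat_lit 21949245048, nat_lit 23300371040, nat_lit 24408367848, nat_lit 21959992114, nat_lit 23099429492, nat_lit 24408460021, nat_lit 25442588520], nat_lit 1271250, nat_lit 1271250, nat_lit 719601, nat_lit 1758000, nat_lit 1100001, nat_lit 1511000, [nat_lit 230000, nat_lit 1100000, nat_lit 1442500], [nat_lit 55, nat_lit 40, nat_lit 40, nat_lit 80, nat_lit 3, nat_lit 345, nat_lit 125, nat_lit 12]⟩, C1.Rw.none,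
 ⟨nat_lit 0, nat_lit 2237, ⟨.ofNat (nat_lit 370513), .ofNat (nat_lit 557013), .ofNat (nat_lit 414208), .ofNat (nat_lit 602531), .ofNat (nat_lit 385947), .ofNat (nat_lit 549998), .ofNat (nat_lit 434094), .ofNat (nat_lit 599967)⟩, ⟨.ofNat (nat_lit 306334), .ofNat (nat_lit 374750), .ofNat (nat_lit 351885), .ofNat (nat_lit 420300), .ofNat (nat_lit 299996), .ofNat (nat_lit 359993), .ofNat (nat_lit 349998), .ofNat (nat_lit 409994)⟩⟩, [⟨nat_lit 16, nat_lit 32, nat_lit 100, nat_lit 88, nat_lit 490187697⟩]⟩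
noncomputable def p106_l45 : Lf2 := ⟨nat_lit 0, nat_lit 20, [nat_lit 5, nat_lit 5, nat_lit 5, nat_lit 20], false, nat_lit 8, nat_lit 248, nat_lit 0, nat_lit 160, ⟨nat_lit 853, nat_lit 0, nat_lit 147, nat_lit 6, nat_lit 263, nat_lit 147, nat_lit 94, nat_lit 147, nat_lit 58017, nat_lit 274, nat_lit 280606, nat_lit 200, nat_lit 43683813, nat_lit 0, nat_lit 0, nat_lit 4238475, true, true⟩,
 nat_lit 0, nat_lit 5394, nat_lit 0, nat_lit 0, nat_lit 4697, nat_lit 6760, nat_lit 138, nat_lit 0, nat_lit 0, nat_lit 559, nat_lit 0, nat_lit 0, nat_lit 0, nat_lit 0, nat_lit 0, nat_lit 147000, nat_lit 0, nat_lit 0, [(nat_lit 25, [(nat_lit 6, nat_lit 147)]), (nat_lit 28, [(nat_lit 6, nat_lit 147)])],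
 ⟨p106_k13, nat_lit 0, nat_lit 0, nat_lit 380, nat_lit 0, nat_lit 643142, [nat_lit 1121573600, nat_lit 3315372800, nat_lit 4174066000], [], [nat_lit 30204365235, nat_lit 32086526637, nat_lit 33474507510, nat_lit 35937542530, nat_lit 29978227114, nat_lit 31336076667, nat_lit 32409288375, nat_lit 33603244017], nat_lit 1271250, nat_lit 1271250, nat_lit 1271250, nat_lit 1271250, nat_lit 43600, nat_lit 1756600, [nat_lit 230000, nat_lit 1100000, nat_lit 1442500], [nat_lit 55, nat_lit 40, nat_lit 40, nat_lit 80, nat_lit 3, nat_lit 289, nat_lit 75, nat_lit 10]⟩, ⟨p106_k14, nat_lit 0, nat_lit 0, nat_lit 299, nat_lit 0, nat_lit 0, [nat_lit 5331250000, nat_lit 10126816000, nat_lit 11991474000], [], [nat_lit 29464780356, nat_lit 30359349616, nat_lit 35284700245, nat_lit 36085593063, nat_lit 24953678604, nat_lit 25872707692, nat_lit 29555656544, nat_lit 30049365612], nat_lit 0, nat_lit 0, nat_lit 0, nat_lit 0, nat_lit 0, nat_lit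 0, [], [nat_lit 137, nat_lit 40, nat_lit 40, nat_lit 80, nat_lit 58, nat_lit 428, nat_lit 200, nat_lit 10]⟩,
 ⟨nat_lit 0, nat_lit 3163, ⟨.ofNat (nat_lit 560951), .ofNat (nat_lit 731616), .ofNat (nat_lit 605128), .ofNat (nat_lit 775928), .ofNat (nat_lit 549998), .ofNat (nat_lit 689994), .ofNat (nat_lit 599865), .ofNat (nat_lit 739996)⟩, ⟨.ofNat (nat_lit 20000), .ofNat (nat_lit 440207), .ofNat (nat_lit 20000), .ofNat (nat_lit 484518), .ofNat (nat_lit 20000), .ofNat (nat_lit 409993), .ofNat (nat_lit 20000), .ofNat (nat_lit 459993)⟩⟩, [⟨nat_lit 13, nat_lit 44, nat_lit 86, nat_lit 100, nat_lit 170553826⟩, ⟨nat_lit 4, nat_lit 100, nat_lit 44, nat_lit 87, nat_lit 330413072⟩]⟩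
noncomputable def p106_l46 : Lf2 := ⟨nat_lit 0, nat_lit 20, [nat_lit 5, nat_lit 5, nat_lit 5, nat_lit 20], false, nat_lit 8, nat_lit 248, nat_lit 160, nat_lit 384, ⟨nat_lit 742, nat_lit 0, nat_lit 258, nat_lit 6, nat_lit 263, nat_lit 258, nat_lit 94, nat_lit 258, nat_lit 58017, nat_lit 274, nat_lit 280606, nat_lit 200, nat_lit 43683813, nat_lit 0, nat_lit 0, nat_lit 4238475, true, true⟩,
 nat_lit 0, nat_lit 4748, nat_lit 0, nat_lit 0, nat_lit 4135, nat_lit 5718, nat_lit 159, nat_lit 0, nat_lit 0, nat_lit 0, nat_lit 0, nat_lit 0, nat_lit 0, nat_lit 0, nat_lit 0, nat_lit 258000, nat_lit 0, nat_lit 0, [(nat_lit 25, [(nat_lit 6, nat_lit 258)]), (nat_lit 28, [(nat_lit 6, nat_lit 258)])],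
 ⟨p106_k0, nat_lit 0, nat_lit 0, nat_lit 383, nat_lit 0, nat_lit 643142, [nat_lit 1043264000, nat_lit 1895852001, nat_lit 2606524000], [], [nat_lit 25580588353, nat_lit 28840118205, nat_lit 31442267078, nat_lit 34318919856, nat_lit 26243444115, nat_lit 27731598894, nat_lit 29738187391, nat_lit 31917681440], nat_lit 1271250, nat_lit 1271250, nat_lit 1271250, nat_lit 1271250, nat_lit 43600, nat_lit 1756600, [nat_lit 230000, nat_lit 780000, nat_lit 1435000], [nat_lit 20, nat_lit 40, nat_lit 40, nat_lit 80, nat_lit 16, nat_lit 289, nat_lit 75, nat_lit 10]⟩, ⟨p106_k3, nat_lit 0, nat_lit 0, nat_lit 113, nat_lit 0, nat_lit 0, [nat_lit 4637500000, nat_lit 7302764000, nat_lit 10431036000], [], [nat_lit 10034842568, nat_lit 11733954240, nat_lit 17235535732, nat_lit 18274851135, nat_lit 20812316212, nat_lit 21661127631, nat_lit 25516919480, nat_lit 25929955711], nat_lit 0, nat_lit 0, nat_lit 0, nat_lit 0, nat_lit 0, nat_lit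 0, [], [nat_lit 60, nat_lit 40, nat_lit 40, nat_lit 80, nat_lit 32, nat_lit 483, nat_lit 250, nat_lit 11]⟩,
 ⟨nat_lit 0, nat_lit 3163, ⟨.ofNat (nat_lit 560951), .ofNat (nat_lit 731616), .ofNat (nat_lit 605128), .ofNat (nat_lit 775928), .ofNat (nat_lit 549998), .ofNat (nat_lit 689994), .ofNat (nat_lit 599865), .ofNat (nat_lit 739996)⟩, ⟨.ofNat (nat_lit 20000), .ofNat (nat_lit 440207), .ofNat (nat_lit 20000), .ofNat (nat_lit 484518), .ofNat (nat_lit 20000), .ofNat (nat_lit 409993), .ofNat (nat_lit 20000), .ofNat (nat_lit 459993)⟩⟩, [⟨nat_lit 4, nat_lit 100, nat_lit 44, nat_lit 87, nat_lit 572341338⟩, ⟨nat_lit 19, nat_lit 100, nat_lit 40, nat_lit 92, nat_lit 36457847⟩, ⟨nat_lit 10, nat_lit 39, nat_lit 88, nat_lit 100, nat_lit 371256785⟩]⟩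
noncomputable def b_V_900_500_20_8 : St := ⟨true, nat_lit 1, nat_lit 0, nat_lit 1, nat_lit 120, nat_lit 360, nat_lit 400, nat_lit 200, nat_lit 240, nat_lit 80, nat_lit 352, nat_lit 80, nat_lit 120, nat_lit 8, nat_lit 248, nat_lit 0, nat_lit 384, nat_lit 40, nat_lit 80, nat_lit 0, nat_lit 0, nat_lit 0, nat_lit 0⟩
theorem d_V_900_500_20_8 (h : EB TB.env) : Dead b_V_900_500_20_8 := chkB_sound0 h (T :=
(.spl (nat_lit 2) (nat_lit 240)
(.spl (nat_lit 4) (nat_lit 160)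
(.spl (nat_lit 0) (nat_lit 380)
(.spl (nat_lit 0) (nat_lit 370)
(.leaf p106_l39)
(.trZ (nat_lit 0) (nat_lit 100) (nat_lit 53) (nat_lit 85) (nat_lit 92) (.trZ (nat_lit 3) (nat_lit 100) (nat_lit 66) (nat_lit 45) (nat_lit 12) (.leaf p106_l40))))
(.trZ (nat_lit 0) (nat_lit 100) (nat_lit 44) (nat_lit 90) (nat_lit 112) (.trZ (nat_lit 3) (nat_lit 100) (nat_lit 54) (nat_lit 57) (nat_lit 20) (.spl (nat_lit 0) (nat_lit 390)
(.leaf p106_l41)
(.trZ (nat_lit 0) (nat_lit 100) (nat_lit 31) (nat_lit 95) (nat_lit 136) (.trZ (nat_lit 3) (nat_lit 100) (nat_lit 39) (nat_lit 72) (nat_lit 36) (.leaf p106_l42)))))))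
(.spl (nat_lit 0) (nat_lit 380)
(.leaf p106_l43)
(.trZ (nat_lit 0) (nat_lit 100) (nat_lit 44) (nat_lit 90) (nat_lit 112) (.trX (nat_lit 16) (nat_lit 44) (nat_lit 100) (nat_lit 92) (nat_lit 208) (.leaf p106_l44)))))
(.spl (nat_lit 5) (nat_lit 160)
(.leaf p106_l45)
(.leaf p106_l46)))) (by decide +kernel)
noncomputable def p106_l47 : Lf2 := ⟨nat_lit 0, nat_lit 20, [nat_lit 5, nat_lit 5, nat_lit 5, nat_lit 20], false, nat_lit 8, nat_lit 80, nat_lit 0, nat_lit 384, ⟨nat_lit 0, nat_lit 230, nat_lit 770, nat_lit 5, nat_lit 185, nat_lit 1000, nat_lit 43, nat_lit 770, nat_lit 17067, nat_lit 247, nat_lit 417, nat_lit 210, nat_lit 53871594, nat_lit 11866795, nat_lit 1261611, nat_lit 2880760, false, false⟩,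
 nat_lit 0, nat_lit 2802, nat_lit 0, nat_lit 225, nat_lit 2440, nat_lit 0, nat_lit 0, nat_lit 0, nat_lit 0, nat_lit 0, nat_lit 0, nat_lit 0, nat_lit 0, nat_lit 0, nat_lit 48, nat_lit 250000, nat_lit 0, nat_lit 0, [(nat_lit 25, [(nat_lit 0, nat_lit 230), (nat_lit 4, nat_lit 770)])],
 ⟨p106_k0, nat_lit 0, nat_lit 0, nat_lit 268, nat_lit 0, nat_lit 305508, [nat_lit 928280001, nat_lit 612186667, nat_lit 48557333], [], [nat_lit 19102992957, nat_lit 20359151248, nat_lit 22192074667, nat_lit 23314040199, nat_lit 18855625869, nat_lit 19925233629, nat_lit 21937938138, nat_lit 23038138647], nat_lit 1271250, nat_lit 1271250, nat_lit 490000, nat_lit 1740000, nat_lit 43600, nat_lit 490000, [nat_lit 230000, nat_lit 780000, nat_lit 1435000], [nat_lit 20, nat_lit 40, nat_lit 40, nat_lit 80, nat_lit 16, nat_lit 317, nat_lit 100, nat_lit 12]⟩, ⟨p106_k3, nat_lit 0, nat_lit 0, nat_lit 778, nat_lit 0, nat_lit 774930, [nat_lit 0, nat_lit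 0, nat_lit 0], [], [nat_lit 0, nat_lit 0, nat_lit 0, nat_lit 0, nat_lit 0, nat_lit 0, nat_lit 0, nat_lit 0], nat_lit 1271250, nat_lit 1271250, nat_lit 490000, nat_lit 1740000, nat_lit 0, nat_lit 2712000, [nat_lit 1412500, nat_lit 1271250, nat_lit 1271250], [nat_lit 60, nat_lit 40, nat_lit 40, nat_lit 80, nat_lit 32, nat_lit 456, nat_lit 225, nat_lit 11]⟩,
 ⟨nat_lit 2236, nat_lit 3163, ⟨.ofNat (nat_lit 316827), .ofNat (nat_lit 560952), .ofNat (nat_lit 361011), .ofNat (nat_lit 605240), .ofNat (nat_lit 328641), .ofNat (nat_lit 557014), .ofNat (nat_lit 374063), .ofNat (nat_lit 602541)⟩, ⟨.ofNat (nat_lit 20000), .ofNat (nat_lit 184209), .ofNat (nat_lit 20000), .ofNat (nat_lit 200000), .ofNat (nat_lit 20000), .ofNat (nat_lit 192306), .ofNat (nat_lit 20000), .ofNat (nat_lit 200000)⟩⟩, [⟨nat_lit 3, nat_lit 100, nat_lit 61, nat_lit 55, nat_lit 229485321⟩]⟩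
noncomputable def p106_l48 : Lf2 := ⟨nat_lit 0, nat_lit 20, [nat_lit 5, nat_lit 5, nat_lit 5, nat_lit 20], false, nat_lit 20, nat_lit 80, nat_lit 0, nat_lit 384, ⟨nat_lit 0, nat_lit 513, nat_lit 487, nat_lit 5, nat_lit 196, nat_lit 1000, nat_lit 50, nat_lit 487, nat_lit 22817, nat_lit 252, nat_lit 267, nat_lit 211, nat_lit 52496337, nat_lit 12930068, nat_lit 1573595, nat_lit 3099011, false, false⟩,
 nat_lit 0, nat_lit 2694, nat_lit 0, nat_lit 0, nat_lit 2517, nat_lit 0, nat_lit 0, nat_lit 0, nat_lit 0, nat_lit 0, nat_lit 0, nat_lit 0, nat_lit 0, nat_lit 0, nat_lit 55, nat_lit 323050, nat_lit 0, nat_lit 0, [(nat_lit 28, [(nat_lit 0, nat_lit 513), (nat_lit 5, nat_lit 487)])],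
 ⟨p106_k6, nat_lit 0, nat_lit 0, nat_lit 308, nat_lit 0, nat_lit 393179, [nat_lit 910044001, nat_lit 353702001, nat_lit 126052000], [], [nat_lit 20345357365, nat_lit 22149927850, nat_lit 23251223792, nat_lit 24725615146, nat_lit 20099037017, nat_lit 21294304508, nat_lit 22902468002, nat_lit 24073012036], nat_lit 1271250, nat_lit 1271250, nat_lit 719601, nat_lit 1758000, nat_lit 111251, nat_lit 490000, [nat_lit 230000, nat_lit 780000, nat_lit 1435000], [nat_lit 20, nat_lit 40, nat_lit 40, nat_lit 80, nat_lit 16, nat_lit 317, nat_lit 100, nat_lit 12]⟩, ⟨p106_k3, nat_lit 0, nat_lit 0, nat_lit 908, nat_lit 0, nat_lit 1086810, [nat_lit 0, nat_lit 0, nat_lit 0], [], [nat_lit 0, nat_lit 0, nat_lit 0, nat_lit 0, nat_lit 0, nat_lit 0, nat_lit 0, nat_lit 0], nat_lit 1271250, nat_lit 1271250, nat_lit 719601, nat_lit 1758000, nat_lit 0, nat_lit 2712000, [nat_lit 1412500, nat_lit 1271250, nat_lit 1271250], [nat_lit 60, nat_lit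 40, nat_lit 40, nat_lit 80, nat_lit 32, nat_lit 456, nat_lit 225, nat_lit 11]⟩,
 ⟨nat_lit 0, nat_lit 2237, ⟨.ofNat (nat_lit 370513), .ofNat (nat_lit 557013), .ofNat (nat_lit 414208), .ofNat (nat_lit 602531), .ofNat (nat_lit 385947), .ofNat (nat_lit 549998), .ofNat (nat_lit 434094), .ofNat (nat_lit 599967)⟩, ⟨.ofNat (nat_lit 50000), .ofNat (nat_lit 192306), .ofNat (nat_lit 50000), .ofNat (nat_lit 200000), .ofNat (nat_lit 50000), .ofNat (nat_lit 199999), .ofNat (nat_lit 50000), .ofNat (nat_lit 200000)⟩⟩, [⟨nat_lit 3, nat_lit 100, nat_lit 36, nat_lit 77, nat_lit 409421162⟩]⟩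
noncomputable def p106_l49 : Lf2 := ⟨nat_lit 0, nat_lit 20, [nat_lit 5, nat_lit 5, nat_lit 5, nat_lit 20], false, nat_lit 80, nat_lit 160, nat_lit 0, nat_lit 384, ⟨nat_lit 0, nat_lit 562, nat_lit 438, nat_lit 5, nat_lit 185, nat_lit 1000, nat_lit 105, nat_lit 438, nat_lit 101400, nat_lit 293, nat_lit 417, nat_lit 210, nat_lit 50382213, nat_lit 11777645, nat_lit 4840142, nat_lit 3774050, false, false⟩,
 nat_lit 0, nat_lit 3312, nat_lit 0, nat_lit 0, nat_lit 2884, nat_lit 0, nat_lit 0, nat_lit 0, nat_lit 0, nat_lit 0, nat_lit 0, nat_lit 0, nat_lit 0, nat_lit 0, nat_lit 8, nat_lit 315700, nat_lit 0, nat_lit 0, [(nat_lit 25, [(nat_lit 0, nat_lit 562), (nat_lit 5, nat_lit 438)]), (nat_lit 28, [(nat_lit 0, nat_lit 562), (nat_lit 5, nat_lit 438)])],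
 ⟨p106_k0, nat_lit 0, nat_lit 0, nat_lit 275, nat_lit 0, nat_lit 428463, [nat_lit 789422401, nat_lit 552241601, nat_lit 20603199], [], [nat_lit 19477878929, nat_lit 21718350993, nat_lit 22160832145, nat_lit 24079913984, nat_lit 20362074161, nat_lit 22445584465, nat_lit 22849149665, nat_lit 24615348968], nat_lit 1271250, nat_lit 1271250, nat_lit 490000, nat_lit 1740000, nat_lit 490000, nat_lit 1100001, [nat_lit 230000, nat_lit 780000, nat_lit 1435000], [nat_lit 20, nat_lit 40, nat_lit 40, nat_lit 80, nat_lit 16, nat_lit 317, nat_lit 100, nat_lit 12]⟩, ⟨p106_k3, nat_lit 0, nat_lit 0, nat_lit 926, nat_lit 0, nat_lit 1086810, [nat_lit 0, nat_lit 0, nat_lit 0], [], [nat_lit 0, nat_lit 0, nat_lit 0, nat_lit 0, nat_lit 0, nat_lit 0, nat_lit 0, nat_lit 0], nat_lit 1271250, nat_lit 1271250, nat_lit 490000, nat_lit 1740000, nat_lit 0, nat_lit 2712000, [nat_lit 1412500, nat_lit 1271250, nat_lit 1271250], [nat_lit 60, nat_lit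 40, nat_lit 40, nat_lit 80, nat_lit 32, nat_lit 456, nat_lit 225, nat_lit 11]⟩,
 ⟨nat_lit 0, nat_lit 3163, ⟨.ofNat (nat_lit 309443), .ofNat (nat_lit 560951), .ofNat (nat_lit 351143), .ofNat (nat_lit 605128), .ofNat (nat_lit 342303), .ofNat (nat_lit 549998), .ofNat (nat_lit 389693), .ofNat (nat_lit 599865)⟩, ⟨.ofNat (nat_lit 184209), .ofNat (nat_lit 306113), .ofNat (nat_lit 200000), .ofNat (nat_lit 350425), .ofNat (nat_lit 199999), .ofNat (nat_lit 299996), .ofNat (nat_lit 200000), .ofNat (nat_lit 349998)⟩⟩, [⟨nat_lit 4, nat_lit 100, nat_lit 44, nat_lit 87, nat_lit 13045607⟩]⟩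
noncomputable def p106_l50 : Lf2 := ⟨nat_lit 0, nat_lit 20, [nat_lit 5, nat_lit 5, nat_lit 5, nat_lit 20], false, nat_lit 160, nat_lit 248, nat_lit 0, nat_lit 384, ⟨nat_lit 0, nat_lit 421, nat_lit 579, nat_lit 5, nat_lit 185, nat_lit 1000, nat_lit 155, nat_lit 579, nat_lit 61175, nat_lit 275, nat_lit 417, nat_lit 210, nat_lit 46853347, nat_lit 11477317, nat_lit 8669336, nat_lit 4383527, false, false⟩,
 nat_lit 0, nat_lit 3570, nat_lit 0, nat_lit 0, nat_lit 3109, nat_lit 0, nat_lit 0, nat_lit 0, nat_lit 0, nat_lit 0, nat_lit 0, nat_lit 0, nat_lit 0, nat_lit 0, nat_lit 10, nat_lit 250000, nat_lit 0, nat_lit 0, [(nat_lit 25, [(nat_lit 0, nat_lit 421), (nat_lit 4, nat_lit 579)]), (nat_lit 28, [(nat_lit 0, nat_lit 421), (nat_lit 4, nat_lit 579)])],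
 ⟨p106_k0, nat_lit 0, nat_lit 0, nat_lit 244, nat_lit 0, nat_lit 428463, [nat_lit 810020000, nat_lit 486744001, nat_lit 26224799], [], [nat_lit 19572180922, nat_lit 22280869968, nat_lit 22030810643, nat_lit 24744688480, nat_lit 21650167641, nat_lit 24734728651, nat_lit 24287186903, nat_lit 26742700403], nat_lit 1271250, nat_lit 1271250, nat_lit 490000, nat_lit 1740000, nat_lit 1100001, nat_lit 1853500, [nat_lit 230000, nat_lit 780000, nat_lit 1435000], [nat_lit 20, nat_lit 40, nat_lit 40, nat_lit 80, nat_lit 16, nat_lit 345, nat_lit 125, nat_lit 12]⟩, ⟨p106_k3, nat_lit 0, nat_lit 0, nat_lit 926, nat_lit 0, nat_lit 1086810, [nat_lit 0, nat_lit 0, nat_lit 0], [], [nat_lit 0, nat_lit 0, nat_lit 0, nat_lit 0, nat_lit 0, nat_lit 0, nat_lit 0, nat_lit 0], nat_lit 1271250, nat_lit 1271250, nat_lit 490000, nat_lit 1740000, nat_lit 0, nat_lit 2712000, [nat_lit 1412500, nat_lit 1271250, nat_lit 1271250], [nat_lit 60, nat_lit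 40, nat_lit 40, nat_lit 80, nat_lit 32, nat_lit 456, nat_lit 225, nat_lit 11]⟩,
 ⟨nat_lit 0, nat_lit 3163, ⟨.ofNat (nat_lit 309443), .ofNat (nat_lit 560951), .ofNat (nat_lit 351143), .ofNat (nat_lit 605128), .ofNat (nat_lit 342303), .ofNat (nat_lit 549998), .ofNat (nat_lit 389693), .ofNat (nat_lit 599865)⟩, ⟨.ofNat (nat_lit 306113), .ofNat (nat_lit 440207), .ofNat (nat_lit 350425), .ofNat (nat_lit 484518), .ofNat (nat_lit 299996), .ofNat (nat_lit 409993), .ofNat (nat_lit 349998), .ofNat (nat_lit 459993)⟩⟩, [⟨nat_lit 4, nat_lit 100, nat_lit 44, nat_lit 87, nat_lit 405716556⟩]⟩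
noncomputable def b_V_900_500_20_9 : St := ⟨true, nat_lit 1, nat_lit 1, nat_lit 1, nat_lit 120, nat_lit 360, nat_lit 400, nat_lit 200, nat_lit 240, nat_lit 80, nat_lit 240, nat_lit 80, nat_lit 120, nat_lit 8, nat_lit 248, nat_lit 0, nat_lit 384, nat_lit 40, nat_lit 80, nat_lit 0, nat_lit 0, nat_lit 0, nat_lit 0⟩
theorem d_V_900_500_20_9 (h : EB TB.env) : Dead b_V_900_500_20_9 := chkB_sound0 h (T :=
(.spl (nat_lit 4) (nat_lit 160)
(.spl (nat_lit 4) (nat_lit 80)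
(.spl (nat_lit 0) (nat_lit 380)
(.leaf p106_l47)
(.trZ (nat_lit 0) (nat_lit 100) (nat_lit 44) (nat_lit 90) (nat_lit 112) (.trZ (nat_lit 3) (nat_lit 100) (nat_lit 54) (nat_lit 57) (nat_lit 20) (.leaf p106_l48))))
(.leaf p106_l49))
(.leaf p106_l50))) (by decide +kernel)
noncomputable def p106_l51 : Lf2 := ⟨nat_lit 0, nat_lit 20, [nat_lit 5, nat_lit 5, nat_lit 5, nat_lit 20], false, nat_lit 8, nat_lit 80, nat_lit 0, nat_lit 336, ⟨nat_lit 228, nat_lit 772, nat_lit 0, nat_lit 6, nat_lit 257, nat_lit 772, nat_lit 43, nat_lit 0, nat_lit 0, nat_lit 0, nat_lit 0, nat_lit 0, nat_lit 46383339, nat_lit 19409422, nat_lit 1207239, nat_lit 3533253, true, true⟩,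
 nat_lit 5589, nat_lit 0, nat_lit 0, nat_lit 0, nat_lit 2953, nat_lit 2395, nat_lit 125, nat_lit 0, nat_lit 0, nat_lit 211, nat_lit 0, nat_lit 0, nat_lit 0, nat_lit 0, nat_lit 0, nat_lit 391600, nat_lit 0, nat_lit 0, [(nat_lit 25, [(nat_lit 1, nat_lit 634), (nat_lit 2, nat_lit 138)])],
 ⟨p106_k0, nat_lit 0, nat_lit 0, nat_lit 228, nat_lit 0, nat_lit 219069, [nat_lit 952106401, nat_lit 1331079734, nat_lit 1467202400], [], [nat_lit 24517987685, nat_lit 25007746571, nat_lit 27751616960, nat_lit 28196948770, nat_lit 23980428495, nat_lit 24461640377, nat_lit 27083073730, nat_lit 27504192063], nat_lit 1271250, nat_lit 1271250, nat_lit 1271250, nat_lit 1271250, nat_lit 43600, nat_lit 490000, [nat_lit 230000, nat_lit 780000, nat_lit 1435000], [nat_lit 20, nat_lit 40, nat_lit 40, nat_lit 80, nat_lit 16, nat_lit 226, nat_lit 20, nat_lit 7]⟩, ⟨p106_k3, nat_lit 0, nat_lit 0, nat_lit 591, nat_lit 0, nat_lit 555674, [nat_lit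 1425000000, nat_lit 2243976000, nat_lit 3205224000], [], [nat_lit 8986626722, nat_lit 9001703698, nat_lit 9570146699, nat_lit 9553479924, nat_lit 7978949592, nat_lit 7477374340, nat_lit 7767245190, nat_lit 7724688453], nat_lit 1271250, nat_lit 1271250, nat_lit 1271250, nat_lit 1271250, nat_lit 0, nat_lit 2373000, [nat_lit 1412500, nat_lit 1271250, nat_lit 1271250], [nat_lit 60, nat_lit 40, nat_lit 40, nat_lit 80, nat_lit 32, nat_lit 456, nat_lit 225, nat_lit 10]⟩,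
 ⟨nat_lit 2738, nat_lit 3163, ⟨.ofNat (nat_lit 560952), .ofNat (nat_lit 707240), .ofNat (nat_lit 583107), .ofNat (nat_lit 729395), .ofNat (nat_lit 559060), .ofNat (nat_lit 700807), .ofNat (nat_lit 581477), .ofNat (nat_lit 723224)⟩, ⟨.ofNat (nat_lit 20000), .ofNat (nat_lit 184209), .ofNat (nat_lit 20000), .ofNat (nat_lit 200000), .ofNat (nat_lit 20000), .ofNat (nat_lit 188310), .ofNat (nat_lit 20000), .ofNat (nat_lit 200000)⟩⟩, [⟨nat_lit 13, nat_lit 57, nat_lit 80, nat_lit 100, nat_lit 47013191⟩, ⟨nat_lit 3, nat_lit 100, nat_lit 65, nat_lit 50, nat_lit 110910659⟩, ⟨nat_lit 22, nat_lit 92, nat_lit 100, nat_lit 64, nat_lit 27210333⟩]⟩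
noncomputable def p106_l52 : Lf2 := ⟨nat_lit 0, nat_lit 20, [nat_lit 5, nat_lit 5, nat_lit 5, nat_lit 20], false, nat_lit 12, nat_lit 80, nat_lit 0, nat_lit 336, ⟨nat_lit 159, nat_lit 634, nat_lit 207, nat_lit 6, nat_lit 252, nat_lit 841, nat_lit 45, nat_lit 207, nat_lit 19267, nat_lit 249, nat_lit 139762, nat_lit 200, nat_lit 46831262, nat_lit 18851948, nat_lit 1316790, nat_lit 3531855, true, true⟩,
 nat_lit 3950, nat_lit 0, nat_lit 0, nat_lit 0, nat_lit 2733, nat_lit 1692, nat_lit 155, nat_lit 0, nat_lit 0, nat_lit 150, nat_lit 0, nat_lit 0, nat_lit 0, nat_lit 0, nat_lit 0, nat_lit 210250, nat_lit 0, nat_lit 0, [(nat_lit 25, [(nat_lit 0, nat_lit 634), (nat_lit 4, nat_lit 207)])],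
 ⟨p106_k4, nat_lit 0, nat_lit 0, nat_lit 239, nat_lit 0, nat_lit 270538, [nat_lit 784214000, nat_lit 1314750801, nat_lit 1951542000], [], [nat_lit 24447935826, nat_lit 24939138348, nat_lit 27120350147, nat_lit 27557891981, nat_lit 24046841004, nat_lit 24513710206, nat_lit 26607774645, nat_lit 27028089168], nat_lit 1271250, nat_lit 1271250, nat_lit 1271250, nat_lit 1271250, nat_lit 65850, nat_lit 490000, [nat_lit 230000, nat_lit 780000, nat_lit 1435000], [nat_lit 20, nat_lit 40, nat_lit 40, nat_lit 80, nat_lit 16, nat_lit 226, nat_lit 20, nat_lit 7]⟩, ⟨p106_k3, nat_lit 0, nat_lit 0, nat_lit 654, nat_lit 0, nat_lit 716745, [nat_lit 993750000, nat_lit 1564878000, nat_lit 2235222000], [], [nat_lit 6205458144, nat_lit 6215291760, nat_lit 6542155829, nat_lit 6533667380, nat_lit 5550679486, nat_lit 5146039492, nat_lit 5306992876, nat_lit 5276461735], nat_lit 1271250, nat_lit 1271250, nat_lit 1271250, nat_lit 1271250,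 nat_lit 0, nat_lit 2373000, [nat_lit 1412500, nat_lit 1271250, nat_lit 1271250], [nat_lit 60, nat_lit 40, nat_lit 40, nat_lit 80, nat_lit 32, nat_lit 456, nat_lit 225, nat_lit 10]⟩,
 ⟨nat_lit 2236, nat_lit 2739, ⟨.ofNat (nat_lit 559060), .ofNat (nat_lit 683089), .ofNat (nat_lit 581477), .ofNat (nat_lit 705506), .ofNat (nat_lit 557014), .ofNat (nat_lit 676747), .ofNat (nat_lit 579788), .ofNat (nat_lit 699521)⟩, ⟨.ofNat (nat_lit 30000), .ofNat (nat_lit 188310), .ofNat (nat_lit 30000), .ofNat (nat_lit 200000), .ofNat (nat_lit 30000), .ofNat (nat_lit 192306), .ofNat (nat_lit 30000), .ofNat (nat_lit 200000)⟩⟩, [⟨nat_lit 13, nat_lit 48, nat_lit 85, nat_lit 100, nat_lit 161138008⟩, ⟨nat_lit 3, nat_lit 100, nat_lit 56, nat_lit 60, nat_lit 156267237⟩, ⟨nat_lit 22, nat_lit 95, nat_lit 100, nat_lit 66, nat_lit 18117308⟩]⟩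
noncomputable def p106_l53 : Lf2 := ⟨nat_lit 0, nat_lit 20, [nat_lit 5, nat_lit 5, nat_lit 5, nat_lit 20], false, nat_lit 8, nat_lit 80, nat_lit 0, nat_lit 336, ⟨nat_lit 341, nat_lit 659, nat_lit 0, nat_lit 6, nat_lit 271, nat_lit 659, nat_lit 43, nat_lit 0, nat_lit 0, nat_lit 0, nat_lit 0, nat_lit 0, nat_lit 44969086, nat_lit 20840987, nat_lit 1189927, nat_lit 3616184, true, true⟩,
 nat_lit 6642, nat_lit 0, nat_lit 0, nat_lit 0, nat_lit 3011, nat_lit 3176, nat_lit 111, nat_lit 0, nat_lit 0, nat_lit 358, nat_lit 0, nat_lit 0, nat_lit 0, nat_lit 0, nat_lit 0, nat_lit 432200, nat_lit 0, nat_lit 0, [(nat_lit 25, [(nat_lit 1, nat_lit 378), (nat_lit 2, nat_lit 281)])],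
 ⟨p106_k0, nat_lit 0, nat_lit 0, nat_lit 238, nat_lit 0, nat_lit 245355, [nat_lit 1051812801, nat_lit 1390926134, nat_lit 1381632800], [], [nat_lit 24711471313, nat_lit 25223753357, nat_lit 28743153862, nat_lit 29222951968, nat_lit 24160643945, nat_lit 24646307487, nat_lit 28028712527, nat_lit 28503486409], nat_lit 1271250, nat_lit 1271250, nat_lit 1271250, nat_lit 1271250, nat_lit 43600, nat_lit 490000, [nat_lit 230000, nat_lit 780000, nat_lit 1435000], [nat_lit 20, nat_lit 40, nat_lit 40, nat_lit 80, nat_lit 16, nat_lit 226, nat_lit 20, nat_lit 7]⟩, ⟨p106_k5, nat_lit 0, nat_lit 0, nat_lit 577, nat_lit 0, nat_lit 534571, [nat_lit 2131250000, nat_lit 3356122000, nat_lit 4793778000], [], [nat_lit 12327867916, nat_lit 12420576772, nat_lit 13579011654, nat_lit 13600290939, nat_lit 10755618960, nat_lit 10741240865, nat_lit 11326606121, nat_lit 11322154047], nat_lit 1271250, nat_lit 1271250, nat_lit 1271250, nat_lit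 1271250, nat_lit 0, nat_lit 2373000, [nat_lit 1412500, nat_lit 1271250, nat_lit 1271250], [nat_lit 60, nat_lit 40, nat_lit 40, nat_lit 80, nat_lit 32, nat_lit 483, nat_lit 250, nat_lit 11]⟩,
 ⟨nat_lit 2738, nat_lit 3163, ⟨.ofNat (nat_lit 583107), .ofNat (nat_lit 753776), .ofNat (nat_lit 605257), .ofNat (nat_lit 775931), .ofNat (nat_lit 581477), .ofNat (nat_lit 746849), .ofNat (nat_lit 603890), .ofNat (nat_lit 769266)⟩, ⟨.ofNat (nat_lit 20000), .ofNat (nat_lit 184209), .ofNat (nat_lit 20000), .ofNat (nat_lit 200000), .ofNat (nat_lit 20000), .ofNat (nat_lit 188310), .ofNat (nat_lit 20000), .ofNat (nat_lit 200000)⟩⟩, [⟨nat_lit 22, nat_lit 89, nat_lit 100, nat_lit 34, nat_lit 36683140⟩, ⟨nat_lit 22, nat_lit 89, nat_lit 100, nat_lit 64, nat_lit 34301477⟩]⟩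
noncomputable def p106_l54 : Lf2 := ⟨nat_lit 0, nat_lit 20, [nat_lit 5, nat_lit 5, nat_lit 5, nat_lit 20], false, nat_lit 12, nat_lit 80, nat_lit 0, nat_lit 336, ⟨nat_lit 302, nat_lit 698, nat_lit 0, nat_lit 6, nat_lit 266, nat_lit 698, nat_lit 45, nat_lit 0, nat_lit 0, nat_lit 0, nat_lit 0, nat_lit 0, nat_lit 45419423, nat_lit 20281788, nat_lit 1298789, nat_lit 3618814, true, true⟩,
 nat_lit 5881, nat_lit 0, nat_lit 0, nat_lit 0, nat_lit 2755, nat_lit 2812, nat_lit 336, nat_lit 0, nat_lit 0, nat_lit 286, nat_lit 0, nat_lit 0, nat_lit 0, nat_lit 0, nat_lit 0, nat_lit 174500, nat_lit 0, nat_lit 0, [(nat_lit 25, [(nat_lit 0, nat_lit 698)])],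
 ⟨p106_k4, nat_lit 0, nat_lit 0, nat_lit 247, nat_lit 0, nat_lit 292500, [nat_lit 816548001, nat_lit 1946586401, nat_lit 3365864000], [], [nat_lit 24668393428, nat_lit 25174443035, nat_lit 28023702346, nat_lit 28445493126, nat_lit 24340728751, nat_lit 24820961856, nat_lit 27550061261, nat_lit 27962761497], nat_lit 1271250, nat_lit 1271250, nat_lit 1271250, nat_lit 1271250, nat_lit 65850, nat_lit 490000, [nat_lit 230000, nat_lit 780000, nat_lit 1435000], [nat_lit 20, nat_lit 40, nat_lit 40, nat_lit 80, nat_lit 16, nat_lit 226, nat_lit 20, nat_lit 7]⟩, ⟨p106_k5, nat_lit 0, nat_lit 0, nat_lit 628, nat_lit 0, nat_lit 665629, [nat_lit 1887500000, nat_lit 2972284000, nat_lit 4245516000], [], [nat_lit 11259545348, nat_lit 11290763620, nat_lit 12026238814, nat_lit 12052265408, nat_lit 9673337382, nat_lit 9663098666, nat_lit 10045633879, nat_lit 10005050968], nat_lit 1271250, nat_lit 1271250, nat_lit 1271250, nat_lit 1271250,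 nat_lit 0, nat_lit 2373000, [nat_lit 1412500, nat_lit 1271250, nat_lit 1271250], [nat_lit 60, nat_lit 40, nat_lit 40, nat_lit 80, nat_lit 32, nat_lit 483, nat_lit 250, nat_lit 11]⟩,
 ⟨nat_lit 2236, nat_lit 2739, ⟨.ofNat (nat_lit 581477), .ofNat (nat_lit 729131), .ofNat (nat_lit 603890), .ofNat (nat_lit 751548), .ofNat (nat_lit 579788), .ofNat (nat_lit 722327), .ofNat (nat_lit 602558), .ofNat (nat_lit 745101)⟩, ⟨.ofNat (nat_lit 30000), .ofNat (nat_lit 188310), .ofNat (nat_lit 30000), .ofNat (nat_lit 200000), .ofNat (nat_lit 30000), .ofNat (nat_lit 192306), .ofNat (nat_lit 30000), .ofNat (nat_lit 200000)⟩⟩, [⟨nat_lit 13, nat_lit 49, nat_lit 80, nat_lit 100, nat_lit 15311253⟩, ⟨nat_lit 3, nat_lit 100, nat_lit 56, nat_lit 60, nat_lit 26940053⟩, ⟨nat_lit 22, nat_lit 92, nat_lit 100, nat_lit 65, nat_lit 44725811⟩]⟩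
noncomputable def p106_l55 : Lf2 := ⟨nat_lit 0, nat_lit 20, [nat_lit 5, nat_lit 5, nat_lit 5, nat_lit 20], false, nat_lit 20, nat_lit 80, nat_lit 0, nat_lit 336, ⟨nat_lit 123, nat_lit 877, nat_lit 0, nat_lit 6, nat_lit 255, nat_lit 877, nat_lit 49, nat_lit 0, nat_lit 0, nat_lit 0, nat_lit 0, nat_lit 0, nat_lit 46369326, nat_lit 19121817, nat_lit 1508857, nat_lit 3611479, true, true⟩,
 nat_lit 3073, nat_lit 0, nat_lit 0, nat_lit 0, nat_lit 2697, nat_lit 1317, nat_lit 13, nat_lit 0, nat_lit 0, nat_lit 110, nat_lit 0, nat_lit 0, nat_lit 0, nat_lit 0, nat_lit 0, nat_lit 350800, nat_lit 0, nat_lit 0, [(nat_lit 28, [(nat_lit 1, nat_lit 877)])],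
 ⟨p106_k6, nat_lit 0, nat_lit 0, nat_lit 254, nat_lit 0, nat_lit 336384, [nat_lit 727169200, nat_lit 688535600, nat_lit 889776000], [], [nat_lit 24809801161, nat_lit 25308564351, nat_lit 27473210570, nat_lit 27925204275, nat_lit 24523707680, nat_lit 24999975267, nat_lit 27087432113, nat_lit 27499120379], nat_lit 1271250, nat_lit 1271250, nat_lit 1271250, nat_lit 1271250, nat_lit 111251, nat_lit 490000, [nat_lit 230000, nat_lit 780000, nat_lit 1435000], [nat_lit 20, nat_lit 40, nat_lit 40, nat_lit 80, nat_lit 16, nat_lit 226, nat_lit 20, nat_lit 7]⟩, ⟨p106_k3, nat_lit 0, nat_lit 0, nat_lit 768, nat_lit 0, nat_lit 929820, [nat_lit 768750000, nat_lit 1210566000, nat_lit 1729134000], [], [nat_lit 4996366992, nat_lit 4995733488, nat_lit 5163234959, nat_lit 5136291186, nat_lit 4288877254, nat_lit 3983432492, nat_lit 4120309168, nat_lit 4120452337], nat_lit 1271250, nat_lit 1271250, nat_lit 1271250, nat_lit 1271250,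 nat_lit 0, nat_lit 2373000, [nat_lit 1412500, nat_lit 1271250, nat_lit 1271250], [nat_lit 60, nat_lit 40, nat_lit 40, nat_lit 80, nat_lit 32, nat_lit 456, nat_lit 225, nat_lit 10]⟩,
 ⟨nat_lit 1581, nat_lit 2237, ⟨.ofNat (nat_lit 557014), .ofNat (nat_lit 676747), .ofNat (nat_lit 602558), .ofNat (nat_lit 722295), .ofNat (nat_lit 554634), .ofNat (nat_lit 669369), .ofNat (nat_lit 601260), .ofNat (nat_lit 715999)⟩, ⟨.ofNat (nat_lit 50000), .ofNat (nat_lit 192306), .ofNat (nat_lit 50000), .ofNat (nat_lit 200000), .ofNat (nat_lit 50000), .ofNat (nat_lit 196201), .ofNat (nat_lit 50000), .ofNat (nat_lit 200000)⟩⟩, [⟨nat_lit 13, nat_lit 38, nat_lit 89, nat_lit 100, nat_lit 227956740⟩, ⟨nat_lit 3, nat_lit 100, nat_lit 44, nat_lit 71, nat_lit 214278471⟩, ⟨nat_lit 22, nat_lit 95, nat_lit 100, nat_lit 69, nat_lit 12527632⟩]⟩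
noncomputable def p106_l56 : Lf2 := ⟨nat_lit 0, nat_lit 20, [nat_lit 5, nat_lit 5, nat_lit 5, nat_lit 20], false, nat_lit 36, nat_lit 80, nat_lit 0, nat_lit 336, ⟨nat_lit 117, nat_lit 883, nat_lit 0, nat_lit 6, nat_lit 246, nat_lit 883, nat_lit 58, nat_lit 0, nat_lit 0, nat_lit 0, nat_lit 0, nat_lit 0, nat_lit 46926504, nat_lit 18152047, nat_lit 1921449, nat_lit 3667576, true, true⟩,
 nat_lit 2860, nat_lit 0, nat_lit 0, nat_lit 0, nat_lit 2765, nat_lit 1225, nat_lit 98, nat_lit 0, nat_lit 0, nat_lit 93, nat_lit 0, nat_lit 0, nat_lit 0, nat_lit 0, nat_lit 0, nat_lit 220750, nat_lit 0, nat_lit 0, [(nat_lit 28, [(nat_lit 0, nat_lit 883)])],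
 ⟨p106_k16, nat_lit 0, nat_lit 0, nat_lit 234, nat_lit 0, nat_lit 377228, [nat_lit 799898801, nat_lit 1307612001, nat_lit 1763857200], [], [nat_lit 24721338221, nat_lit 25247271728, nat_lit 26620342398, nat_lit 27287036213, nat_lit 24486445081, nat_lit 24994331776, nat_lit 26333216431, nat_lit 26794470546], nat_lit 1271250, nat_lit 1271250, nat_lit 1271250, nat_lit 1271250, nat_lit 205650, nat_lit 490000, [nat_lit 230000, nat_lit 780000, nat_lit 1100000], [nat_lit 35, nat_lit 40, nat_lit 40, nat_lit 80, nat_lit 22, nat_lit 226, nat_lit 20, nat_lit 9]⟩, ⟨p106_k3, nat_lit 0, nat_lit 0, nat_lit 830, nat_lit 0, nat_lit 1086810, [nat_lit 731250000, nat_lit 1151514000, nat_lit 1644786000], [], [nat_lit 5033446212, nat_lit 4995448436, nat_lit 5056232144, nat_lit 5004962934, nat_lit 4096962084, nat_lit 3938147894, nat_lit 3963820776, nat_lit 3924229416], nat_lit 1271250, nat_lit 1271250, nat_lit 1271250, nat_lit 1271250,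 nat_lit 0, nat_lit 2373000, [nat_lit 1412500, nat_lit 1271250, nat_lit 1271250], [nat_lit 60, nat_lit 40, nat_lit 40, nat_lit 80, nat_lit 32, nat_lit 456, nat_lit 225, nat_lit 10]⟩,
 ⟨nat_lit 0, nat_lit 1582, ⟨.ofNat (nat_lit 554633), .ofNat (nat_lit 636584), .ofNat (nat_lit 601257), .ofNat (nat_lit 683216), .ofNat (nat_lit 549998), .ofNat (nat_lit 624995), .ofNat (nat_lit 599992), .ofNat (nat_lit 674997)⟩, ⟨.ofNat (nat_lit 90000), .ofNat (nat_lit 196201), .ofNat (nat_lit 90000), .ofNat (nat_lit 200000), .ofNat (nat_lit 90000), .ofNat (nat_lit 199999), .ofNat (nat_lit 90000), .ofNat (nat_lit 200000)⟩⟩, [⟨nat_lit 13, nat_lit 32, nat_lit 89, nat_lit 100, nat_lit 295752107⟩, ⟨nat_lit 3, nat_lit 100, nat_lit 26, nat_lit 85, nat_lit 168328230⟩, ⟨nat_lit 3, nat_lit 100, nat_lit 39, nat_lit 72, nat_lit 138566291⟩, ⟨nat_lit 22, nat_lit 100, nat_lit 97, nat_lit 75, nat_lit 8422698⟩]⟩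
noncomputable def p106_l57 : Lf2 := ⟨nat_lit 0, nat_lit 20, [nat_lit 5, nat_lit 5, nat_lit 5, nat_lit 20], false, nat_lit 80, nat_lit 160, nat_lit 0, nat_lit 384, ⟨nat_lit 176, nat_lit 824, nat_lit 0, nat_lit 6, nat_lit 257, nat_lit 824, nat_lit 104, nat_lit 0, nat_lit 0, nat_lit 0, nat_lit 0, nat_lit 0, nat_lit 43698178, nat_lit 18751921, nat_lit 4549901, nat_lit 4336414, true, true⟩,
 nat_lit 4280, nat_lit 0, nat_lit 0, nat_lit 0, nat_lit 3727, nat_lit 1834, nat_lit 72, nat_lit 0, nat_lit 0, nat_lit 161, nat_lit 0, nat_lit 0, nat_lit 0, nat_lit 0, nat_lit 0, nat_lit 329600, nat_lit 0, nat_lit 0, [(nat_lit 25, [(nat_lit 1, nat_lit 824)])],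
 ⟨p106_k0, nat_lit 0, nat_lit 0, nat_lit 166, nat_lit 0, nat_lit 245355, [nat_lit 861203201, nat_lit 1403389867, nat_lit 1854124800], [], [nat_lit 23333979592, nat_lit 23890059920, nat_lit 26056181844, nat_lit 26629893510, nat_lit 23704726240, nat_lit 24210373038, nat_lit 26179093128, nat_lit 26617826063], nat_lit 1271250, nat_lit 1271250, nat_lit 1271250, nat_lit 1271250, nat_lit 490000, nat_lit 1100001, [nat_lit 230000, nat_lit 780000, nat_lit 1435000], [nat_lit 20, nat_lit 40, nat_lit 40, nat_lit 80, nat_lit 16, nat_lit 249, nat_lit 40, nat_lit 8]⟩, ⟨p106_k3, nat_lit 0, nat_lit 0, nat_lit 617, nat_lit 0, nat_lit 622352, [nat_lit 1100000000, nat_lit 1732192000, nat_lit 2474208000], [], [nat_lit 6981279676, nat_lit 7002497526, nat_lit 7301157692, nat_lit 7292368976, nat_lit 6913657981, nat_lit 6059566908, nat_lit 6306977568, nat_lit 6284046765], nat_lit 1271250, nat_lit 1271250, nat_lit 1271250, nat_lit 1271250,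 nat_lit 0, nat_lit 2712000, [nat_lit 1412500, nat_lit 1271250, nat_lit 1271250], [nat_lit 60, nat_lit 40, nat_lit 40, nat_lit 80, nat_lit 32, nat_lit 483, nat_lit 250, nat_lit 11]⟩,
 ⟨nat_lit 2738, nat_lit 3163, ⟨.ofNat (nat_lit 560952), .ofNat (nat_lit 682859), .ofNat (nat_lit 605257), .ofNat (nat_lit 727168), .ofNat (nat_lit 559060), .ofNat (nat_lit 677182), .ofNat (nat_lit 603890), .ofNat (nat_lit 722017)⟩, ⟨.ofNat (nat_lit 184209), .ofNat (nat_lit 306116), .ofNat (nat_lit 200000), .ofNat (nat_lit 350426), .ofNat (nat_lit 188310), .ofNat (nat_lit 306433), .ofNat (nat_lit 200000), .ofNat (nat_lit 351268)⟩⟩, [⟨nat_lit 22, nat_lit 100, nat_lit 80, nat_lit 100, nat_lit 22155148⟩]⟩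
noncomputable def p106_l58 : Lf2 := ⟨nat_lit 0, nat_lit 20, [nat_lit 5, nat_lit 5, nat_lit 5, nat_lit 20], false, nat_lit 80, nat_lit 160, nat_lit 0, nat_lit 384, ⟨nat_lit 146, nat_lit 854, nat_lit 0, nat_lit 6, nat_lit 255, nat_lit 854, nat_lit 105, nat_lit 0, nat_lit 0, nat_lit 0, nat_lit 0, nat_lit 0, nat_lit 43807661, nat_lit 18603634, nat_lit 4588705, nat_lit 4334322, true, true⟩,
 nat_lit 3612, nat_lit 0, nat_lit 0, nat_lit 0, nat_lit 3259, nat_lit 1547, nat_lit 189, nat_lit 0, nat_lit 0, nat_lit 127, nat_lit 0, nat_lit 0, nat_lit 0, nat_lit 0, nat_lit 0, nat_lit 213500, nat_lit 0, nat_lit 0, [(nat_lit 25, [(nat_lit 0, nat_lit 854)])],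
 ⟨p106_k4, nat_lit 0, nat_lit 0, nat_lit 204, nat_lit 0, nat_lit 292500, [nat_lit 789404000, nat_lit 1648127200, nat_lit 2721272000], [], [nat_lit 23413080757, nat_lit 23927201502, nat_lit 25992770393, nat_lit 26624325328, nat_lit 24016430451, nat_lit 24485271122, nat_lit 26359191044, nat_lit 26765368532], nat_lit 1271250, nat_lit 1271250, nat_lit 1271250, nat_lit 1271250, nat_lit 490000, nat_lit 1100001, [nat_lit 230000, nat_lit 780000, nat_lit 1435000], [nat_lit 20, nat_lit 40, nat_lit 40, nat_lit 80, nat_lit 16, nat_lit 249, nat_lit 40, nat_lit 8]⟩, ⟨p106_k3, nat_lit 0, nat_lit 0, nat_lit 677, nat_lit 0, nat_lit 774930, [nat_lit 912500000, nat_lit 1436932000, nat_lit 2052468000], [], [nat_lit 5981534088, nat_lit 5981903660, nat_lit 6164389476, nat_lit 6135298304, nat_lit 5726305703, nat_lit 5015216034, nat_lit 5275299582, nat_lit 5245065139], nat_lit 1271250, nat_lit 1271250, nat_lit 1271250, nat_lit 1271250,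 nat_lit 0, nat_lit 2712000, [nat_lit 1412500, nat_lit 1271250, nat_lit 1271250], [nat_lit 60, nat_lit 40, nat_lit 40, nat_lit 80, nat_lit 32, nat_lit 483, nat_lit 250, nat_lit 11]⟩,
 ⟨nat_lit 2236, nat_lit 2739, ⟨.ofNat (nat_lit 559060), .ofNat (nat_lit 677182), .ofNat (nat_lit 603890), .ofNat (nat_lit 722017), .ofNat (nat_lit 557014), .ofNat (nat_lit 671045), .ofNat (nat_lit 602558), .ofNat (nat_lit 716594)⟩, ⟨.ofNat (nat_lit 188310), .ofNat (nat_lit 306433), .ofNat (nat_lit 200000), .ofNat (nat_lit 351268), .ofNat (nat_lit 192306), .ofNat (nat_lit 306337), .ofNat (nat_lit 200000), .ofNat (nat_lit 351886)⟩⟩, [⟨nat_lit 22, nat_lit 100, nat_lit 80, nat_lit 100, nat_lit 17812384⟩]⟩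
noncomputable def p106_l59 : Lf2 := ⟨nat_lit 0, nat_lit 20, [nat_lit 5, nat_lit 5, nat_lit 5, nat_lit 20], false, nat_lit 80, nat_lit 160, nat_lit 0, nat_lit 336, ⟨nat_lit 173, nat_lit 827, nat_lit 0, nat_lit 8, nat_lit 289, nat_lit 827, nat_lit 105, nat_lit 0, nat_lit 0, nat_lit 0, nat_lit 0, nat_lit 0, nat_lit 40741859, nat_lit 21876213, nat_lit 4381928, nat_lit 4481154, true, true⟩,
 nat_lit 4067, nat_lit 0, nat_lit 0, nat_lit 0, nat_lit 3542, nat_lit 1742, nat_lit 78, nat_lit 0, nat_lit 0, nat_lit 122, nat_lit 0, nat_lit 0, nat_lit 0, nat_lit 0, nat_lit 0, nat_lit 338000, nat_lit 0, nat_lit 0, [(nat_lit 25, [(nat_lit 1, nat_lit 815), (nat_lit 2, nat_lit 12)])],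
 ⟨p106_k0, nat_lit 0, nat_lit 0, nat_lit 214, nat_lit 0, nat_lit 305508, [nat_lit 868406801, nat_lit 1379953467, nat_lit 1780352400], [], [nat_lit 26087880184, nat_lit 27060878864, nat_lit 27540160607, nat_lit 28824478996, nat_lit 26323923072, nat_lit 27080944128, nat_lit 27508224972, nat_lit 28681143659], nat_lit 1271250, nat_lit 1271250, nat_lit 1271250, nat_lit 1271250, nat_lit 490000, nat_lit 1100001, [nat_lit 230000, nat_lit 780000, nat_lit 1435000], [nat_lit 20, nat_lit 40, nat_lit 40, nat_lit 80, nat_lit 16, nat_lit 249, nat_lit 40, nat_lit 8]⟩, ⟨p106_k3, nat_lit 0, nat_lit 0, nat_lit 663, nat_lit 0, nat_lit 774930, [nat_lit 1081250000, nat_lit 1702666000, nat_lit 2432034000], [], [nat_lit 7748567876, nat_lit 7741340452, nat_lit 7979841489, nat_lit 7949887678, nat_lit 6182979797, nat_lit 6089873315, nat_lit 6307703126, nat_lit 6294947316], nat_lit 1271250, nat_lit 1271250, nat_lit 1271250, nat_lit 1271250,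 nat_lit 0, nat_lit 2373000, [nat_lit 1412500, nat_lit 1271250, nat_lit 1271250], [nat_lit 60, nat_lit 40, nat_lit 40, nat_lit 80, nat_lit 32, nat_lit 483, nat_lit 250, nat_lit 11]⟩,
 ⟨nat_lit 2236, nat_lit 3163, ⟨.ofNat (nat_lit 682859), .ofNat (nat_lit 731621), .ofNat (nat_lit 727168), .ofNat (nat_lit 775931), .ofNat (nat_lit 671045), .ofNat (nat_lit 716658), .ofNat (nat_lit 716594), .ofNat (nat_lit 762206)⟩, ⟨.ofNat (nat_lit 184209), .ofNat (nat_lit 306116), .ofNat (nat_lit 200000), .ofNat (nat_lit 350426), .ofNat (nat_lit 192306), .ofNat (nat_lit 306337), .ofNat (nat_lit 200000), .ofNat (nat_lit 351886)⟩⟩, [⟨nat_lit 13, nat_lit 53, nat_lit 80, nat_lit 100, nat_lit 399376500⟩, ⟨nat_lit 22, nat_lit 82, nat_lit 76, nat_lit 100, nat_lit 9510985⟩]⟩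
noncomputable def p106_l60 : Lf2 := ⟨nat_lit 0, nat_lit 20, [nat_lit 5, nat_lit 5, nat_lit 5, nat_lit 20], false, nat_lit 80, nat_lit 160, nat_lit 0, nat_lit 384, ⟨nat_lit 53, nat_lit 947, nat_lit 0, nat_lit 6, nat_lit 253, nat_lit 947, nat_lit 105, nat_lit 0, nat_lit 0, nat_lit 0, nat_lit 0, nat_lit 0, nat_lit 43986662, nat_lit 18401273, nat_lit 4612065, nat_lit 4325325, true, true⟩,
 nat_lit 1342, nat_lit 1681, nat_lit 0, nat_lit 0, nat_lit 2824, nat_lit 575, nat_lit 0, nat_lit 0, nat_lit 0, nat_lit 43, nat_lit 0, nat_lit 0, nat_lit 0, nat_lit 0, nat_lit 0, nat_lit 374600, nat_lit 0, nat_lit 0, [(nat_lit 28, [(nat_lit 0, nat_lit 28), (nat_lit 1, nat_lit 919)])],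
 ⟨p106_k6, nat_lit 0, nat_lit 0, nat_lit 237, nat_lit 0, nat_lit 393179, [nat_lit 712693200, nat_lit 502778001, nat_lit 501763200], [], [nat_lit 23419051697, nat_lit 24460688240, nat_lit 26224812140, nat_lit 27401776592, nat_lit 24162037665, nat_lit 25144540976, nat_lit 26761898628, nat_lit 27608758615], nat_lit 1271250, nat_lit 1271250, nat_lit 1271250, nat_lit 1271250, nat_lit 490000, nat_lit 1100001, [nat_lit 230000, nat_lit 780000, nat_lit 1435000], [nat_lit 20, nat_lit 40, nat_lit 40, nat_lit 80, nat_lit 16, nat_lit 249, nat_lit 40, nat_lit 8]⟩, ⟨p106_k3, nat_lit 0, nat_lit 0, nat_lit 830, nat_lit 0, nat_lit 1086810, [nat_lit 331250000, nat_lit 521626000, nat_lit 745074000], [], [nat_lit 2193438908, nat_lit 2174356524, nat_lit 2283604028, nat_lit 2277011162, nat_lit 2074071476, nat_lit 1839753843, nat_lit 1943415566, nat_lit 1931205008], nat_lit 1271250, nat_lit 1271250, nat_lit 1271250, nat_lit 1271250,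 nat_lit 0, nat_lit 2712000, [nat_lit 1412500, nat_lit 1271250, nat_lit 1271250], [nat_lit 60, nat_lit 40, nat_lit 40, nat_lit 80, nat_lit 32, nat_lit 483, nat_lit 250, nat_lit 11]⟩,
 ⟨nat_lit 0, nat_lit 2237, ⟨.ofNat (nat_lit 557013), .ofNat (nat_lit 676741), .ofNat (nat_lit 602531), .ofNat (nat_lit 722292), .ofNat (nat_lit 549998), .ofNat (nat_lit 654993), .ofNat (nat_lit 599967), .ofNat (nat_lit 704996)⟩, ⟨.ofNat (nat_lit 192306), .ofNat (nat_lit 306334), .ofNat (nat_lit 200000), .ofNat (nat_lit 351885), .ofNat (nat_lit 199999), .ofNat (nat_lit 299996), .ofNat (nat_lit 200000), .ofNat (nat_lit 349998)⟩⟩, [⟨nat_lit 13, nat_lit 31, nat_lit 92, nat_lit 100, nat_lit 420260127⟩, ⟨nat_lit 22, nat_lit 100, nat_lit 81, nat_lit 100, nat_lit 6192613⟩]⟩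
noncomputable def p106_l61 : Lf2 := ⟨nat_lit 0, nat_lit 20, [nat_lit 5, nat_lit 5, nat_lit 5, nat_lit 20], false, nat_lit 160, nat_lit 248, nat_lit 0, nat_lit 384, ⟨nat_lit 0, nat_lit 1000, nat_lit 0, nat_lit 6, nat_lit 252, nat_lit 1000, nat_lit 158, nat_lit 0, nat_lit 0, nat_lit 0, nat_lit 0, nat_lit 0, nat_lit 41147969, nat_lit 17543736, nat_lit 8308295, nat_lit 4881672, true, true⟩,
 nat_lit 0, nat_lit 4227, nat_lit 0, nat_lit 0, nat_lit 3681, nat_lit 0, nat_lit 0, nat_lit 0, nat_lit 0, nat_lit 0, nat_lit 0, nat_lit 0, nat_lit 0, nat_lit 0, nat_lit 0, nat_lit 307900, nat_lit 0, nat_lit 0, [(nat_lit 25, [(nat_lit 0, nat_lit 614), (nat_lit 1, nat_lit 386)])],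
 ⟨p106_k0, nat_lit 0, nat_lit 0, nat_lit 134, nat_lit 0, nat_lit 219069, [nat_lit 795188801, nat_lit 1227266667, nat_lit 1653719200], [], [nat_lit 23284862628, nat_lit 23907007760, nat_lit 26312603360, nat_lit 26840590982, nat_lit 25289282785, nat_lit 25828263204, nat_lit 27882058310, nat_lit 28342270775], nat_lit 1271250, nat_lit 1271250, nat_lit 1271250, nat_lit 1271250, nat_lit 1100001, nat_lit 1853500, [nat_lit 230000, nat_lit 780000, nat_lit 1435000], [nat_lit 20, nat_lit 40, nat_lit 40, nat_lit 80, nat_lit 16, nat_lit 289, nat_lit 75, nat_lit 9]⟩, ⟨p106_k3, nat_lit 0, nat_lit 0, nat_lit 591, nat_lit 0, nat_lit 555674, [nat_lit 0, nat_lit 0, nat_lit 0], [], [nat_lit 0, nat_lit 0, nat_lit 0, nat_lit 0, nat_lit 0, nat_lit 0, nat_lit 0, nat_lit 0], nat_lit 1271250, nat_lit 1271250, nat_lit 1271250, nat_lit 1271250, nat_lit 0, nat_lit 2712000, [nat_lit 1412500, nat_lit 1271250, nat_lit 1271250], [nat_lit 60,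 nat_lit 40, nat_lit 40, nat_lit 80, nat_lit 32, nat_lit 483, nat_lit 250, nat_lit 11]⟩,
 ⟨nat_lit 2738, nat_lit 3163, ⟨.ofNat (nat_lit 560952), .ofNat (nat_lit 682859), .ofNat (nat_lit 583107), .ofNat (nat_lit 705013), .ofNat (nat_lit 559060), .ofNat (nat_lit 677182), .ofNat (nat_lit 581477), .ofNat (nat_lit 699600)⟩, ⟨.ofNat (nat_lit 306116), .ofNat (nat_lit 440213), .ofNat (nat_lit 350426), .ofNat (nat_lit 484523), .ofNat (nat_lit 306433), .ofNat (nat_lit 436368), .ofNat (nat_lit 351268), .ofNat (nat_lit 481203)⟩⟩, [⟨nat_lit 4, nat_lit 100, nat_lit 57, nat_lit 87, nat_lit 190725853⟩]⟩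
noncomputable def p106_l62 : Lf2 := ⟨nat_lit 0, nat_lit 20, [nat_lit 5, nat_lit 5, nat_lit 5, nat_lit 20], false, nat_lit 160, nat_lit 232, nat_lit 0, nat_lit 384, ⟨nat_lit 0, nat_lit 1000, nat_lit 0, nat_lit 6, nat_lit 251, nat_lit 1000, nat_lit 152, nat_lit 0, nat_lit 0, nat_lit 0, nat_lit 0, nat_lit 0, nat_lit 41582324, nat_lit 17490819, nat_lit 7926857, nat_lit 4824096, true, true⟩,
 nat_lit 0, nat_lit 3505, nat_lit 0, nat_lit 1203, nat_lit 3162, nat_lit 0, nat_lit 130, nat_lit 0, nat_lit 0, nat_lit 0, nat_lit 0, nat_lit 0, nat_lit 0, nat_lit 0, nat_lit 0, nat_lit 250000, nat_lit 0, nat_lit 0, [(nat_lit 25, [(nat_lit 0, nat_lit 1000)])],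
 ⟨p106_k4, nat_lit 0, nat_lit 0, nat_lit 150, nat_lit 0, nat_lit 270538, [nat_lit 764000001, nat_lit 1368800000, nat_lit 2118000000], [], [nat_lit 23547534614, nat_lit 24048114526, nat_lit 26248185164, nat_lit 26743755008, nat_lit 24953787109, nat_lit 25470615092, nat_lit 27465933143, nat_lit 28000338855], nat_lit 1271250, nat_lit 1271250, nat_lit 1271250, nat_lit 1271250, nat_lit 1100001, nat_lit 1716500, [nat_lit 230000, nat_lit 780000, nat_lit 1435000], [nat_lit 20, nat_lit 40, nat_lit 40, nat_lit 80, nat_lit 16, nat_lit 272, nat_lit 60, nat_lit 9]⟩, ⟨p106_k3, nat_lit 0, nat_lit 0, nat_lit 654, nat_lit 0, nat_lit 716745, [nat_lit 0, nat_lit 0, nat_lit 0], [], [nat_lit 0, nat_lit 0, nat_lit 0, nat_lit 0, nat_lit 0, nat_lit 0, nat_lit 0, nat_lit 0], nat_lit 1271250, nat_lit 1271250, nat_lit 1271250, nat_lit 1271250, nat_lit 0, nat_lit 2712000, [nat_lit 1412500, nat_lit 1271250, nat_lit 1271250], [nat_lit 60,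 nat_lit 40, nat_lit 40, nat_lit 80, nat_lit 32, nat_lit 483, nat_lit 250, nat_lit 11]⟩,
 ⟨nat_lit 2236, nat_lit 2739, ⟨.ofNat (nat_lit 559060), .ofNat (nat_lit 677182), .ofNat (nat_lit 581477), .ofNat (nat_lit 699600), .ofNat (nat_lit 557014), .ofNat (nat_lit 671045), .ofNat (nat_lit 579788), .ofNat (nat_lit 693819)⟩, ⟨.ofNat (nat_lit 306433), .ofNat (nat_lit 412743), .ofNat (nat_lit 351268), .ofNat (nat_lit 457578), .ofNat (nat_lit 306337), .ofNat (nat_lit 408965), .ofNat (nat_lit 351886), .ofNat (nat_lit 454514)⟩⟩, [⟨nat_lit 13, nat_lit 53, nat_lit 80, nat_lit 100, nat_lit 273034599⟩, ⟨nat_lit 16, nat_lit 53, nat_lit 100, nat_lit 93, nat_lit 189617488⟩]⟩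
noncomputable def p106_l63 : Lf2 := ⟨nat_lit 0, nat_lit 20, [nat_lit 5, nat_lit 5, nat_lit 5, nat_lit 20], false, nat_lit 160, nat_lit 248, nat_lit 0, nat_lit 376, ⟨nat_lit 219, nat_lit 781, nat_lit 0, nat_lit 6, nat_lit 249, nat_lit 781, nat_lit 157, nat_lit 0, nat_lit 0, nat_lit 0, nat_lit 0, nat_lit 0, nat_lit 41463939, nat_lit 17220965, nat_lit 8315096, nat_lit 4860102, true, true⟩,
 nat_lit 4609, nat_lit 0, nat_lit 0, nat_lit 0, nat_lit 4014, nat_lit 2204, nat_lit 20, nat_lit 0, nat_lit 0, nat_lit 227, nat_lit 0, nat_lit 0, nat_lit 0, nat_lit 0, nat_lit 0, nat_lit 312400, nat_lit 0, nat_lit 0, [(nat_lit 25, [(nat_lit 1, nat_lit 781)])],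
 ⟨p106_k0, nat_lit 0, nat_lit 0, nat_lit 152, nat_lit 0, nat_lit 305508, [nat_lit 865210801, nat_lit 1501424134, nat_lit 2083521200], [], [nat_lit 23344133932, nat_lit 24642484748, nat_lit 24788638420, nat_lit 25987299508, nat_lit 25340949834, nat_lit 26462162844, nat_lit 26562387067, nat_lit 27603279115], nat_lit 1271250, nat_lit 1271250, nat_lit 1271250, nat_lit 1271250, nat_lit 1100001, nat_lit 1853500, [nat_lit 230000, nat_lit 780000, nat_lit 1435000], [nat_lit 20, nat_lit 40, nat_lit 40, nat_lit 80, nat_lit 16, nat_lit 289, nat_lit 75, nat_lit 9]⟩, ⟨p106_k5, nat_lit 0, nat_lit 0, nat_lit 628, nat_lit 0, nat_lit 665629, [nat_lit 1368750000, nat_lit 2155398000, nat_lit 3078702000], [], [nat_lit 7621816026, nat_lit 7656867288, nat_lit 7822140278, nat_lit 7862522156, nat_lit 7498615789, nat_lit 6880576299, nat_lit 7016625161, nat_lit 7022973365], nat_lit 1271250, nat_lit 1271250, nat_lit 1271250, nat_lit 1271250,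 nat_lit 0, nat_lit 2655500, [nat_lit 1412500, nat_lit 1271250, nat_lit 1271250], [nat_lit 60, nat_lit 40, nat_lit 40, nat_lit 80, nat_lit 32, nat_lit 456, nat_lit 225, nat_lit 10]⟩,
 ⟨nat_lit 2236, nat_lit 3163, ⟨.ofNat (nat_lit 583107), .ofNat (nat_lit 644060), .ofNat (nat_lit 605240), .ofNat (nat_lit 666215), .ofNat (nat_lit 579788), .ofNat (nat_lit 636804), .ofNat (nat_lit 602541), .ofNat (nat_lit 659578)⟩, ⟨.ofNat (nat_lit 306116), .ofNat (nat_lit 440213), .ofNat (nat_lit 350426), .ofNat (nat_lit 484523), .ofNat (nat_lit 306337), .ofNat (nat_lit 431772), .ofNat (nat_lit 351886), .ofNat (nat_lit 477320)⟩⟩, [⟨nat_lit 4, nat_lit 100, nat_lit 53, nat_lit 87, nat_lit 322743550⟩, ⟨nat_lit 7, nat_lit 63, nat_lit 100, nat_lit 88, nat_lit 36798271⟩]⟩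
noncomputable def p106_l64 : Lf2 := ⟨nat_lit 0, nat_lit 20, [nat_lit 5, nat_lit 5, nat_lit 5, nat_lit 20], false, nat_lit 160, nat_lit 248, nat_lit 4, nat_lit 376, ⟨nat_lit 261, nat_lit 739, nat_lit 0, nat_lit 7, nat_lit 273, nat_lit 739, nat_lit 158, nat_lit 0, nat_lit 0, nat_lit 0, nat_lit 0, nat_lit 0, nat_lit 39462217, nat_lit 19450638, nat_lit 8087145, nat_lit 4970494, true, true⟩,
 nat_lit 5155, nat_lit 0, nat_lit 0, nat_lit 0, nat_lit 4489, nat_lit 2465, nat_lit 0, nat_lit 0, nat_lit 0, nat_lit 252, nat_lit 0, nat_lit 0, nat_lit 0, nat_lit 0, nat_lit 0, nat_lit 239650, nat_lit 0, nat_lit 0, [(nat_lit 25, [(nat_lit 0, nat_lit 373), (nat_lit 1, nat_lit 366)])],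
 ⟨p106_k0, nat_lit 0, nat_lit 0, nat_lit 141, nat_lit 0, nat_lit 245355, [nat_lit 838986801, nat_lit 1733945200, nat_lit 2756227200], [], [nat_lit 25365959920, nat_lit 25999441064, nat_lit 27094626240, nat_lit 27673083158, nat_lit 27110456927, nat_lit 27656686800, nat_lit 28580350735, nat_lit 29082285148], nat_lit 1271250, nat_lit 1271250, nat_lit 1271250, nat_lit 1271250, nat_lit 1100001, nat_lit 1853500, [nat_lit 230000, nat_lit 780000, nat_lit 1435000], [nat_lit 20, nat_lit 40, nat_lit 40, nat_lit 80, nat_lit 16, nat_lit 289, nat_lit 75, nat_lit 9]⟩, ⟨p106_k5, nat_lit 0, nat_lit 0, nat_lit 567, nat_lit 0, nat_lit 534571, [nat_lit 1631250000, nat_lit 2568762000, nat_lit 3669138000], [], [nat_lit 9703449001, nat_lit 9719048581, nat_lit 10019747470, nat_lit 10051391249, nat_lit 8586671563, nat_lit 8592600818, nat_lit 8871516549, nat_lit 8869693593], nat_lit 1271250, nat_lit 1271250, nat_lit 1271250, nat_lit 1271250,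 nat_lit 21650, nat_lit 2662850, [nat_lit 1412500, nat_lit 1271250, nat_lit 1271250], [nat_lit 60, nat_lit 40, nat_lit 40, nat_lit 80, nat_lit 32, nat_lit 483, nat_lit 250, nat_lit 11]⟩,
 ⟨nat_lit 2738, nat_lit 3163, ⟨.ofNat (nat_lit 644060), .ofNat (nat_lit 705013), .ofNat (nat_lit 666215), .ofNat (nat_lit 727168), .ofNat (nat_lit 640539), .ofNat (nat_lit 699600), .ofNat (nat_lit 662956), .ofNat (nat_lit 722017)⟩, ⟨.ofNat (nat_lit 306116), .ofNat (nat_lit 440213), .ofNat (nat_lit 350426), .ofNat (nat_lit 484523), .ofNat (nat_lit 306433), .ofNat (nat_lit 436368), .ofNat (nat_lit 351268), .ofNat (nat_lit 481203)⟩⟩, [⟨nat_lit 16, nat_lit 57, nat_lit 100, nat_lit 87, nat_lit 287676392⟩, ⟨nat_lit 7, nat_lit 63, nat_lit 100, nat_lit 88, nat_lit 41184231⟩]⟩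
noncomputable def p106_l65 : Lf2 := ⟨nat_lit 0, nat_lit 20, [nat_lit 5, nat_lit 5, nat_lit 5, nat_lit 20], false, nat_lit 160, nat_lit 232, nat_lit 4, nat_lit 376, ⟨nat_lit 220, nat_lit 780, nat_lit 0, nat_lit 7, nat_lit 272, nat_lit 780, nat_lit 152, nat_lit 0, nat_lit 0, nat_lit 0, nat_lit 0, nat_lit 0, nat_lit 39891389, nat_lit 19387372, nat_lit 7721239, nat_lit 4915147, true, true⟩,
 nat_lit 4330, nat_lit 0, nat_lit 0, nat_lit 0, nat_lit 3907, nat_lit 2070, nat_lit 108, nat_lit 0, nat_lit 0, nat_lit 212, nat_lit 0, nat_lit 0, nat_lit 0, nat_lit 0, nat_lit 0, nat_lit 195000, nat_lit 0, nat_lit 0, [(nat_lit 25, [(nat_lit 0, nat_lit 780)])],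
 ⟨p106_k4, nat_lit 0, nat_lit 0, nat_lit 156, nat_lit 0, nat_lit 292500, [nat_lit 802280001, nat_lit 1789704001, nat_lit 3027040000], [], [nat_lit 25519297032, nat_lit 26110934704, nat_lit 27116437554, nat_lit 27658541588, nat_lit 26837352098, nat_lit 27364993905, nat_lit 28251549761, nat_lit 28736224382], nat_lit 1271250, nat_lit 1271250, nat_lit 1271250, nat_lit 1271250, nat_lit 1100001, nat_lit 1716500, [nat_lit 230000, nat_lit 780000, nat_lit 1435000], [nat_lit 20, nat_lit 40, nat_lit 40, nat_lit 80, nat_lit 16, nat_lit 272, nat_lit 60, nat_lit 8]⟩, ⟨p106_k5, nat_lit 0, nat_lit 0, nat_lit 617, nat_lit 0, nat_lit 665629, [nat_lit 1375000000, nat_lit 2165240000, nat_lit 3092760000], [], [nat_lit 8199021491, nat_lit 8210278934, nat_lit 8463199949, nat_lit 8490098880, nat_lit 7264333678, nat_lit 7249459312, nat_lit 7484091953, nat_lit 7477401644], nat_lit 1271250, nat_lit 1271250, nat_lit 1271250, nat_lit 1271250,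 nat_lit 21650, nat_lit 2662850, [nat_lit 1412500, nat_lit 1271250, nat_lit 1271250], [nat_lit 60, nat_lit 40, nat_lit 40, nat_lit 80, nat_lit 32, nat_lit 483, nat_lit 250, nat_lit 11]⟩,
 ⟨nat_lit 2236, nat_lit 2739, ⟨.ofNat (nat_lit 640539), .ofNat (nat_lit 699600), .ofNat (nat_lit 662956), .ofNat (nat_lit 722017), .ofNat (nat_lit 636804), .ofNat (nat_lit 693819), .ofNat (nat_lit 659578), .ofNat (nat_lit 716594)⟩, ⟨.ofNat (nat_lit 306433), .ofNat (nat_lit 412743), .ofNat (nat_lit 351268), .ofNat (nat_lit 457578), .ofNat (nat_lit 306337), .ofNat (nat_lit 408965), .ofNat (nat_lit 351886), .ofNat (nat_lit 454514)⟩⟩, [⟨nat_lit 16, nat_lit 48, nat_lit 100, nat_lit 87, nat_lit 318855180⟩, ⟨nat_lit 7, nat_lit 63, nat_lit 100, nat_lit 88, nat_lit 34599645⟩]⟩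
noncomputable def p106_l66 : Lf2 := ⟨nat_lit 0, nat_lit 20, [nat_lit 5, nat_lit 5, nat_lit 5, nat_lit 20], false, nat_lit 160, nat_lit 248, nat_lit 16, nat_lit 384, ⟨nat_lit 0, nat_lit 1000, nat_lit 0, nat_lit 8, nat_lit 280, nat_lit 1000, nat_lit 157, nat_lit 0, nat_lit 0, nat_lit 0, nat_lit 0, nat_lit 0, nat_lit 38956412, nat_lit 20057415, nat_lit 7986173, nat_lit 4989843, true, true⟩,
 nat_lit 0, nat_lit 4320, nat_lit 0, nat_lit 0, nat_lit 3762, nat_lit 0, nat_lit 0, nat_lit 0, nat_lit 0, nat_lit 0, nat_lit 0, nat_lit 0, nat_lit 0, nat_lit 0, nat_lit 0, nat_lit 272950, nat_lit 0, nat_lit 0, [(nat_lit 25, [(nat_lit 0, nat_lit 847), (nat_lit 1, nat_lit 153)])],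
 ⟨p106_k0, nat_lit 0, nat_lit 0, nat_lit 157, nat_lit 0, nat_lit 282569, [nat_lit 776362401, nat_lit 1312700000, nat_lit 1933971600], [], [nat_lit 26560727920, nat_lit 27626822008, nat_lit 27279817658, nat_lit 28307297996, nat_lit 28121789099, nat_lit 29050222839, nat_lit 28745451805, nat_lit 29695580835], nat_lit 1271250, nat_lit 1271250, nat_lit 1271250, nat_lit 1271250, nat_lit 1100001, nat_lit 1853500, [nat_lit 230000, nat_lit 780000, nat_lit 1435000], [nat_lit 20, nat_lit 40, nat_lit 40, nat_lit 80, nat_lit 16, nat_lit 289, nat_lit 75, nat_lit 9]⟩, ⟨p106_k3, nat_lit 0, nat_lit 0, nat_lit 628, nat_lit 0, nat_lit 716745, [nat_lit 0, nat_lit 0, nat_lit 0], [], [nat_lit 0, nat_lit 0, nat_lit 0, nat_lit 0, nat_lit 0, nat_lit 0, nat_lit 0, nat_lit 0], nat_lit 1271250, nat_lit 1271250, nat_lit 1271250, nat_lit 1271250, nat_lit 88400, nat_lit 2742600, [nat_lit 1412500, nat_lit 1271250, nat_lit 1271250], [nat_lit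 60, nat_lit 40, nat_lit 40, nat_lit 80, nat_lit 32, nat_lit 483, nat_lit 250, nat_lit 11]⟩,
 ⟨nat_lit 2236, nat_lit 3163, ⟨.ofNat (nat_lit 682859), .ofNat (nat_lit 707240), .ofNat (nat_lit 705013), .ofNat (nat_lit 729395), .ofNat (nat_lit 671045), .ofNat (nat_lit 693851), .ofNat (nat_lit 693819), .ofNat (nat_lit 716626)⟩, ⟨.ofNat (nat_lit 306116), .ofNat (nat_lit 440213), .ofNat (nat_lit 350426), .ofNat (nat_lit 484523), .ofNat (nat_lit 306337), .ofNat (nat_lit 431772), .ofNat (nat_lit 351886), .ofNat (nat_lit 477320)⟩⟩, [⟨nat_lit 13, nat_lit 53, nat_lit 82, nat_lit 100, nat_lit 351599371⟩, ⟨nat_lit 16, nat_lit 53, nat_lit 100, nat_lit 87, nat_lit 195765836⟩]⟩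
noncomputable def p106_l67 : Lf2 := ⟨nat_lit 0, nat_lit 20, [nat_lit 5, nat_lit 5, nat_lit 5, nat_lit 20], false, nat_lit 160, nat_lit 248, nat_lit 16, nat_lit 376, ⟨nat_lit 280, nat_lit 720, nat_lit 0, nat_lit 8, nat_lit 290, nat_lit 720, nat_lit 158, nat_lit 0, nat_lit 0, nat_lit 0, nat_lit 0, nat_lit 0, nat_lit 38118437, nat_lit 20982498, nat_lit 7899065, nat_lit 5024467, true, true⟩,
 nat_lit 5353, nat_lit 0, nat_lit 0, nat_lit 0, nat_lit 4662, nat_lit 2560, nat_lit 0, nat_lit 0, nat_lit 0, nat_lit 261, nat_lit 0, nat_lit 0, nat_lit 0, nat_lit 0, nat_lit 0, nat_lit 187350, nat_lit 0, nat_lit 0, [(nat_lit 25, [(nat_lit 0, nat_lit 671), (nat_lit 1, nat_lit 49)])],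
 ⟨p106_k0, nat_lit 0, nat_lit 0, nat_lit 143, nat_lit 0, nat_lit 231003, [nat_lit 816679201, nat_lit 1886529334, nat_lit 3216022800], [], [nat_lit 27485803120, nat_lit 28075065964, nat_lit 28661428207, nat_lit 29216614778, nat_lit 28953600179, nat_lit 29462310439, nat_lit 29962118654, nat_lit 30442247375], nat_lit 1271250, nat_lit 1271250, nat_lit 1271250, nat_lit 1271250, nat_lit 1100001, nat_lit 1853500, [nat_lit 230000, nat_lit 780000, nat_lit 1435000], [nat_lit 20, nat_lit 40, nat_lit 40, nat_lit 80, nat_lit 16, nat_lit 289, nat_lit 75, nat_lit 9]⟩, ⟨p106_k5, nat_lit 0, nat_lit 0, nat_lit 541, nat_lit 0, nat_lit 503300, [nat_lit 1750000000, nat_lit 2755760000, nat_lit 3936240000], [], [nat_lit 10750850893, nat_lit 10768819196, nat_lit 11021582585, nat_lit 11033104172, nat_lit 9641834349, nat_lit 9625190038, nat_lit 9868146467, nat_lit 9864276047], nat_lit 1271250, nat_lit 1271250, nat_lit 1271250, nat_lit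 1271250, nat_lit 88400, nat_lit 2684900, [nat_lit 1412500, nat_lit 1271250, nat_lit 1271250], [nat_lit 60, nat_lit 40, nat_lit 40, nat_lit 80, nat_lit 32, nat_lit 483, nat_lit 250, nat_lit 11]⟩,
 ⟨nat_lit 2738, nat_lit 3163, ⟨.ofNat (nat_lit 705013), .ofNat (nat_lit 741586), .ofNat (nat_lit 716091), .ofNat (nat_lit 752663), .ofNat (nat_lit 699600), .ofNat (nat_lit 735037), .ofNat (nat_lit 710809), .ofNat (nat_lit 746245)⟩, ⟨.ofNat (nat_lit 306116), .ofNat (nat_lit 440213), .ofNat (nat_lit 350426), .ofNat (nat_lit 484523), .ofNat (nat_lit 306433), .ofNat (nat_lit 436368), .ofNat (nat_lit 351268), .ofNat (nat_lit 481203)⟩⟩, [⟨nat_lit 13, nat_lit 57, nat_lit 75, nat_lit 100, nat_lit 225402459⟩, ⟨nat_lit 16, nat_lit 62, nat_lit 100, nat_lit 94, nat_lit 235786304⟩, ⟨nat_lit 19, nat_lit 100, nat_lit 49, nat_lit 92, nat_lit 44073909⟩]⟩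
noncomputable def p106_l68 : Lf2 := ⟨nat_lit 0, nat_lit 20, [nat_lit 5, nat_lit 5, nat_lit 5, nat_lit 20], false, nat_lit 160, nat_lit 232, nat_lit 16, nat_lit 376, ⟨nat_lit 237, nat_lit 763, nat_lit 0, nat_lit 8, nat_lit 284, nat_lit 763, nat_lit 152, nat_lit 0, nat_lit 0, nat_lit 0, nat_lit 0, nat_lit 0, nat_lit 38856529, nat_lit 20556042, nat_lit 7587429, nat_lit 4959365, true, true⟩,
 nat_lit 4617, nat_lit 0, nat_lit 0, nat_lit 0, nat_lit 4166, nat_lit 2207, nat_lit 79, nat_lit 0, nat_lit 0, nat_lit 227, nat_lit 0, nat_lit 0, nat_lit 0, nat_lit 0, nat_lit 0, nat_lit 190750, nat_lit 0, nat_lit 0, [(nat_lit 25, [(nat_lit 0, nat_lit 763)])],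
 ⟨p106_k4, nat_lit 0, nat_lit 0, nat_lit 155, nat_lit 0, nat_lit 280407, [nat_lit 805238001, nat_lit 1822228400, nat_lit 3097284000], [], [nat_lit 27374541952, nat_lit 27932823644, nat_lit 27919999825, nat_lit 28462653112, nat_lit 28480925749, nat_lit 28989245723, nat_lit 28970074834, nat_lit 29562981581], nat_lit 1271250, nat_lit 1271250, nat_lit 1271250, nat_lit 1271250, nat_lit 1100001, nat_lit 1716500, [nat_lit 230000, nat_lit 780000, nat_lit 1435000], [nat_lit 20, nat_lit 40, nat_lit 40, nat_lit 80, nat_lit 16, nat_lit 272, nat_lit 60, nat_lit 8]⟩, ⟨p106_k5, nat_lit 0, nat_lit 0, nat_lit 592, nat_lit 0, nat_lit 638109, [nat_lit 1481250000, nat_lit 2332554000, nat_lit 3331746000], [], [nat_lit 8987066058, nat_lit 9001691395, nat_lit 9102557910, nat_lit 9114412341, nat_lit 8082095039, nat_lit 8079009186, nat_lit 8184489918, nat_lit 8185844882], nat_lit 1271250, nat_lit 1271250, nat_lit 1271250, nat_lit 1271250,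 nat_lit 88400, nat_lit 2684900, [nat_lit 1412500, nat_lit 1271250, nat_lit 1271250], [nat_lit 60, nat_lit 40, nat_lit 40, nat_lit 80, nat_lit 32, nat_lit 483, nat_lit 250, nat_lit 11]⟩,
 ⟨nat_lit 2236, nat_lit 2739, ⟨.ofNat (nat_lit 699600), .ofNat (nat_lit 717318), .ofNat (nat_lit 710809), .ofNat (nat_lit 728527), .ofNat (nat_lit 693819), .ofNat (nat_lit 710924), .ofNat (nat_lit 705207), .ofNat (nat_lit 722311)⟩, ⟨.ofNat (nat_lit 306433), .ofNat (nat_lit 412743), .ofNat (nat_lit 351268), .ofNat (nat_lit 457578), .ofNat (nat_lit 306337), .ofNat (nat_lit 408965), .ofNat (nat_lit 351886), .ofNat (nat_lit 454514)⟩⟩, [⟨nat_lit 13, nat_lit 53, nat_lit 77, nat_lit 100, nat_lit 259725860⟩, ⟨nat_lit 16, nat_lit 53, nat_lit 100, nat_lit 93, nat_lit 264657468⟩, ⟨nat_lit 19, nat_lit 100, nat_lit 49, nat_lit 92, nat_lit 38217021⟩]⟩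
noncomputable def p106_l69 : Lf2 := ⟨nat_lit 0, nat_lit 15, [nat_lit 30, nat_lit 5, nat_lit 5, nat_lit 20], false, nat_lit 160, nat_lit 248, nat_lit 16, nat_lit 372, ⟨nat_lit 272, nat_lit 728, nat_lit 0, nat_lit 8, nat_lit 296, nat_lit 728, nat_lit 157, nat_lit 0, nat_lit 0, nat_lit 0, nat_lit 0, nat_lit 0, nat_lit 37700701, nat_lit 21491337, nat_lit 7807962, nat_lit 5035409, true, true⟩,
 nat_lit 4624, nat_lit 0, nat_lit 0, nat_lit 0, nat_lit 3445, nat_lit 2328, nat_lit 71, nat_lit 0, nat_lit 0, nat_lit 251, nat_lit 0, nat_lit 0, nat_lit 0, nat_lit 0, nat_lit 0, nat_lit 312200, nat_lit 0, nat_lit 0, [(nat_lit 25, [(nat_lit 1, nat_lit 693), (nat_lit 2, nat_lit 35)])],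
 ⟨p106_k8, nat_lit 0, nat_lit 0, nat_lit 168, nat_lit 0, nat_lit 297586, [nat_lit 891976401, nat_lit 1573849734, nat_lit 2197775600], [], [nat_lit 26494607951, nat_lit 27410290669, nat_lit 27775118547, nat_lit 28729189440, nat_lit 27976645768, nat_lit 28873490169, nat_lit 29189430532, nat_lit 30054543085], nat_lit 1271250, nat_lit 1271250, nat_lit 1271250, nat_lit 1271250, nat_lit 1100001, nat_lit 1853500, [nat_lit 230000, nat_lit 780000, nat_lit 1435000], [nat_lit 20, nat_lit 40, nat_lit 40, nat_lit 80, nat_lit 16, nat_lit 289, nat_lit 75, nat_lit 9]⟩, ⟨p106_k17, nat_lit 0, nat_lit 0, nat_lit 575, nat_lit 0, nat_lit 598713, [nat_lit 1700000000, nat_lit 2677024000, nat_lit 3823776000], [], [nat_lit 10215607549, nat_lit 10219818186, nat_lit 10533166375, nat_lit 10545029712, nat_lit 9235223686, nat_lit 9221778181, nat_lit 9521408246, nat_lit 9516360976], nat_lit 1271250, nat_lit 1271250, nat_lit 1271250, nat_lit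 1271250, nat_lit 88400, nat_lit 2656050, [nat_lit 1412500, nat_lit 1271250, nat_lit 1271250], [nat_lit 60, nat_lit 40, nat_lit 40, nat_lit 80, nat_lit 32, nat_lit 483, nat_lit 250, nat_lit 11]⟩,
 ⟨nat_lit 2236, nat_lit 3163, ⟨.ofNat (nat_lit 716091), .ofNat (nat_lit 764854), .ofNat (nat_lit 727168), .ofNat (nat_lit 775931), .ofNat (nat_lit 705207), .ofNat (nat_lit 750819), .ofNat (nat_lit 716594), .ofNat (nat_lit 762206)⟩, ⟨.ofNat (nat_lit 306116), .ofNat (nat_lit 440213), .ofNat (nat_lit 350426), .ofNat (nat_lit 484523), .ofNat (nat_lit 306337), .ofNat (nat_lit 431772), .ofNat (nat_lit 351886), .ofNat (nat_lit 477320)⟩⟩, [⟨nat_lit 13, nat_lit 54, nat_lit 76, nat_lit 100, nat_lit 220817537⟩, ⟨nat_lit 4, nat_lit 100, nat_lit 53, nat_lit 87, nat_lit 317669571⟩, ⟨nat_lit 19, nat_lit 100, nat_lit 54, nat_lit 93, nat_lit 43561634⟩]⟩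
noncomputable def p106_l70 : Lf2 := ⟨nat_lit 0, nat_lit 20, [nat_lit 5, nat_lit 5, nat_lit 5, nat_lit 20], false, nat_lit 160, nat_lit 248, nat_lit 16, nat_lit 372, ⟨nat_lit 357, nat_lit 643, nat_lit 0, nat_lit 8, nat_lit 296, nat_lit 643, nat_lit 157, nat_lit 0, nat_lit 0, nat_lit 0, nat_lit 0, nat_lit 0, nat_lit 37700701, nat_lit 21491337, nat_lit 7807962, nat_lit 5035409, true, true⟩,
 nat_lit 6039, nat_lit 0, nat_lit 0, nat_lit 0, nat_lit 4952, nat_lit 3041, nat_lit 0, nat_lit 0, nat_lit 0, nat_lit 331, nat_lit 0, nat_lit 0, nat_lit 0, nat_lit 0, nat_lit 0, nat_lit 160750, nat_lit 0, nat_lit 0, [(nat_lit 25, [(nat_lit 0, nat_lit 643)])],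
 ⟨p106_k0, nat_lit 0, nat_lit 0, nat_lit 145, nat_lit 0, nat_lit 218455, [nat_lit 826118001, nat_lit 2051812400, nat_lit 3593124000], [], [nat_lit 27747878720, nat_lit 28962632368, nat_lit 29357048820, nat_lit 30476536471, nat_lit 29185624007, nat_lit 30231718045, nat_lit 30561688760, nat_lit 31743674585], nat_lit 1271250, nat_lit 1271250, nat_lit 1271250, nat_lit 1271250, nat_lit 1100001, nat_lit 1853500, [nat_lit 230000, nat_lit 780000, nat_lit 1435000], [nat_lit 20, nat_lit 40, nat_lit 40, nat_lit 80, nat_lit 16, nat_lit 289, nat_lit 75, nat_lit 9]⟩, ⟨p106_k18, nat_lit 0, nat_lit 0, nat_lit 480, nat_lit 0, nat_lit 443504, [nat_lit 2231250000, nat_lit 3513594000, nat_lit 5018706000], [], [nat_lit 13103779116, nat_lit 13139218184, nat_lit 13638606494, nat_lit 13661580324, nat_lit 12098469796, nat_lit 12097928783, nat_lit 12486420449, nat_lit 12479783207], nat_lit 1271250, nat_lit 1271250, nat_lit 1271250, nat_lit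 1271250, nat_lit 88400, nat_lit 2656050, [nat_lit 1412500, nat_lit 1271250, nat_lit 1271250], [nat_lit 60, nat_lit 40, nat_lit 40, nat_lit 80, nat_lit 32, nat_lit 483, nat_lit 250, nat_lit 11]⟩,
 ⟨nat_lit 2236, nat_lit 3163, ⟨.ofNat (nat_lit 716091), .ofNat (nat_lit 764854), .ofNat (nat_lit 727168), .ofNat (nat_lit 775931), .ofNat (nat_lit 705207), .ofNat (nat_lit 750819), .ofNat (nat_lit 716594), .ofNat (nat_lit 762206)⟩, ⟨.ofNat (nat_lit 306116), .ofNat (nat_lit 440213), .ofNat (nat_lit 350426), .ofNat (nat_lit 484523), .ofNat (nat_lit 306337), .ofNat (nat_lit 431772), .ofNat (nat_lit 351886), .ofNat (nat_lit 477320)⟩⟩, [⟨nat_lit 13, nat_lit 54, nat_lit 76, nat_lit 100, nat_lit 277995048⟩, ⟨nat_lit 16, nat_lit 53, nat_lit 100, nat_lit 87, nat_lit 346141329⟩, ⟨nat_lit 19, nat_lit 100, nat_lit 54, nat_lit 93, nat_lit 59689005⟩]⟩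
noncomputable def p106_l71 : Lf2 := ⟨nat_lit 0, nat_lit 20, [nat_lit 5, nat_lit 5, nat_lit 5, nat_lit 20], true, nat_lit 160, nat_lit 208, nat_lit 0, nat_lit 384, ⟨nat_lit 0, nat_lit 1000, nat_lit 0, nat_lit 6, nat_lit 244, nat_lit 1000, nat_lit 144, nat_lit 0, nat_lit 0, nat_lit 0, nat_lit 0, nat_lit 0, nat_lit 42648582, nat_lit 17014139, nat_lit 7337279, nat_lit 4702518, true, true⟩,
 nat_lit 0, nat_lit 3044, nat_lit 0, nat_lit 0, nat_lit 2844, nat_lit 0, nat_lit 12, nat_lit 0, nat_lit 0, nat_lit 0, nat_lit 0, nat_lit 0, nat_lit 0, nat_lit 0, nat_lit 0, nat_lit 400000, nat_lit 0, nat_lit 0, [(nat_lit 28, [(nat_lit 1, nat_lit 1000)])],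
 ⟨p106_k6, nat_lit 0, nat_lit 0, nat_lit 253, nat_lit 0, nat_lit 548334, [nat_lit 697600000, nat_lit 324800000, nat_lit 138000000], [], [nat_lit 23773228060, nat_lit 24733586572, nat_lit 25805263501, nat_lit 26981211757, nat_lit 24717108528, nat_lit 25615898371, nat_lit 26752726523, nat_lit 27856181204], nat_lit 1271250, nat_lit 1271250, nat_lit 1271250, nat_lit 1271250, nat_lit 1100001, nat_lit 1511000, [nat_lit 230000, nat_lit 780000, nat_lit 1435000], [nat_lit 20, nat_lit 40, nat_lit 40, nat_lit 80, nat_lit 16, nat_lit 272, nat_lit 60, nat_lit 8]⟩, C1.Rw.none,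
 ⟨nat_lit 0, nat_lit 2237, ⟨.ofNat (nat_lit 557013), .ofNat (nat_lit 653935), .ofNat (nat_lit 579788), .ofNat (nat_lit 676711), .ofNat (nat_lit 549998), .ofNat (nat_lit 634993), .ofNat (nat_lit 574999), .ofNat (nat_lit 659995)⟩, ⟨.ofNat (nat_lit 306334), .ofNat (nat_lit 374750), .ofNat (nat_lit 351885), .ofNat (nat_lit 420300), .ofNat (nat_lit 299996), .ofNat (nat_lit 359993), .ofNat (nat_lit 349998), .ofNat (nat_lit 409994)⟩⟩, [⟨nat_lit 13, nat_lit 44, nat_lit 86, nat_lit 100, nat_lit 331656516⟩, ⟨nat_lit 16, nat_lit 44, nat_lit 100, nat_lit 92, nat_lit 3923623⟩, ⟨nat_lit 4, nat_lit 100, nat_lit 32, nat_lit 88, nat_lit 396139107⟩]⟩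
noncomputable def p106_l72 : Lf2 := ⟨nat_lit 0, nat_lit 20, [nat_lit 5, nat_lit 5, nat_lit 5, nat_lit 20], false, nat_lit 160, nat_lit 208, nat_lit 0, nat_lit 376, ⟨nat_lit 162, nat_lit 838, nat_lit 0, nat_lit 6, nat_lit 258, nat_lit 838, nat_lit 144, nat_lit 0, nat_lit 0, nat_lit 0, nat_lit 0, nat_lit 0, nat_lit 41479679, nat_lit 18303648, nat_lit 7216673, nat_lit 4773582, true, true⟩,
 nat_lit 3362, nat_lit 0, nat_lit 0, nat_lit 0, nat_lit 3141, nat_lit 1607, nat_lit 137, nat_lit 0, nat_lit 0, nat_lit 141, nat_lit 0, nat_lit 0, nat_lit 0, nat_lit 0, nat_lit 0, nat_lit 209500, nat_lit 0, nat_lit 0, [(nat_lit 28, [(nat_lit 0, nat_lit 838)])],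
 ⟨p106_k6, nat_lit 0, nat_lit 0, nat_lit 213, nat_lit 0, nat_lit 393179, [nat_lit 806936800, nat_lit 1439740800, nat_lit 2440665334], [], [nat_lit 24114525842, nat_lit 25189163375, nat_lit 26924996266, nat_lit 28014678890, nat_lit 25009981903, nat_lit 26084901926, nat_lit 27708925607, nat_lit 28818031227], nat_lit 1271250, nat_lit 1271250, nat_lit 1271250, nat_lit 1271250, nat_lit 1100001, nat_lit 1511000, [nat_lit 230000, nat_lit 780000, nat_lit 1435000], [nat_lit 20, nat_lit 40, nat_lit 40, nat_lit 80, nat_lit 16, nat_lit 272, nat_lit 60, nat_lit 8]⟩, ⟨p106_k5, nat_lit 0, nat_lit 0, nat_lit 763, nat_lit 0, nat_lit 933519, [nat_lit 1012500000, nat_lit 1594404000, nat_lit 2277396000], [], [nat_lit 6088297602, nat_lit 6092278284, nat_lit 6332791870, nat_lit 6372472634, nat_lit 5566489526, nat_lit 5338174932, nat_lit 5643103961, nat_lit 5633193789], nat_lit 1271250, nat_lit 1271250, nat_lit 1271250, nat_lit 1271250,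 nat_lit 0, nat_lit 2655500, [nat_lit 1412500, nat_lit 1271250, nat_lit 1271250], [nat_lit 60, nat_lit 40, nat_lit 40, nat_lit 80, nat_lit 32, nat_lit 483, nat_lit 250, nat_lit 11]⟩,
 ⟨nat_lit 0, nat_lit 2237, ⟨.ofNat (nat_lit 579788), .ofNat (nat_lit 699516), .ofNat (nat_lit 602531), .ofNat (nat_lit 722292), .ofNat (nat_lit 574999), .ofNat (nat_lit 679994), .ofNat (nat_lit 599967), .ofNat (nat_lit 704996)⟩, ⟨.ofNat (nat_lit 306334), .ofNat (nat_lit 374750), .ofNat (nat_lit 351885), .ofNat (nat_lit 420300), .ofNat (nat_lit 299996), .ofNat (nat_lit 359993), .ofNat (nat_lit 349998), .ofNat (nat_lit 409994)⟩⟩, [⟨nat_lit 13, nat_lit 44, nat_lit 81, nat_lit 100, nat_lit 225131067⟩, ⟨nat_lit 16, nat_lit 44, nat_lit 100, nat_lit 92, nat_lit 123721861⟩, ⟨nat_lit 4, nat_lit 100, nat_lit 32, nat_lit 88, nat_lit 268228861⟩, ⟨nat_lit 7, nat_lit 63, nat_lit 100, nat_lit 88, nat_lit 25378919⟩]⟩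
noncomputable def b_V_900_500_20_10 : St := ⟨true, nat_lit 1, nat_lit 1, nat_lit 1, nat_lit 120, nat_lit 360, nat_lit 400, nat_lit 200, nat_lit 240, nat_lit 240, nat_lit 352, nat_lit 80, nat_lit 120, nat_lit 8, nat_lit 248, nat_lit 0, nat_lit 384, nat_lit 40, nat_lit 80, nat_lit 0, nat_lit 0, nat_lit 0, nat_lit 0⟩
theorem d_V_900_500_20_10 (h : EB TB.env) : Dead b_V_900_500_20_10 := chkB_sound0 h (T :=
(.spl (nat_lit 4) (nat_lit 160)
(.spl (nat_lit 4) (nat_lit 80)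
(.trX (nat_lit 22) (nat_lit 100) (nat_lit 76) (nat_lit 82) (nat_lit 336) (.spl (nat_lit 0) (nat_lit 380)
(.spl (nat_lit 1) (nat_lit 220)
(.trX (nat_lit 13) (nat_lit 60) (nat_lit 74) (nat_lit 100) (nat_lit 336) (.spl (nat_lit 0) (nat_lit 370)
(.leaf p106_l51)
(.trX (nat_lit 13) (nat_lit 53) (nat_lit 80) (nat_lit 100) (nat_lit 324) (.trZ (nat_lit 3) (nat_lit 100) (nat_lit 66) (nat_lit 45) (nat_lit 12) (.leaf p106_l52)))))
(.spl (nat_lit 0) (nat_lit 370)
(.leaf p106_l53)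
(.trX (nat_lit 13) (nat_lit 54) (nat_lit 74) (nat_lit 100) (nat_lit 340) (.trZ (nat_lit 3) (nat_lit 100) (nat_lit 66) (nat_lit 45) (nat_lit 12) (.leaf p106_l54)))))
(.trX (nat_lit 13) (nat_lit 44) (nat_lit 81) (nat_lit 100) (nat_lit 324) (.trZ (nat_lit 3) (nat_lit 100) (nat_lit 54) (nat_lit 57) (nat_lit 20) (.spl (nat_lit 0) (nat_lit 390)
(.leaf p106_l55)
(.trX (nat_lit 13) (nat_lit 32) (nat_lit 89) (nat_lit 100) (nat_lit 300) (.trZ (nat_lit 3) (nat_lit 100) (nat_lit 39) (nat_lit 72) (nat_lit 36) (.leaf p106_l56))))))))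
(.spl (nat_lit 0) (nat_lit 380)
(.spl (nat_lit 2) (nat_lit 320)
(.spl (nat_lit 0) (nat_lit 370)
(.leaf p106_l57)
(.leaf p106_l58))
(.trX (nat_lit 22) (nat_lit 82) (nat_lit 76) (nat_lit 100) (nat_lit 336) (.leaf p106_l59)))
(.trX (nat_lit 13) (nat_lit 44) (nat_lit 81) (nat_lit 100) (nat_lit 324) (.leaf p106_l60))))
(.spl (nat_lit 0) (nat_lit 380)
(.spl (nat_lit 2) (nat_lit 320)
(.spl (nat_lit 1) (nat_lit 220)
(.spl (nat_lit 0) (nat_lit 370)
(.leaf p106_l61)
(.trX (nat_lit 16) (nat_lit 53) (nat_lit 100) (nat_lit 93) (nat_lit 232) (.leaf p106_l62)))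
(.trX (nat_lit 19) (nat_lit 100) (nat_lit 49) (nat_lit 92) (nat_lit 376) (.spl (nat_lit 2) (nat_lit 280)
(.leaf p106_l63)
(.trZ (nat_lit 9) (nat_lit 100) (nat_lit 94) (nat_lit 21) (nat_lit 4) (.spl (nat_lit 0) (nat_lit 370)
(.leaf p106_l64)
(.trX (nat_lit 16) (nat_lit 53) (nat_lit 100) (nat_lit 93) (nat_lit 232) (.leaf p106_l65)))))))
(.trZ (nat_lit 9) (nat_lit 100) (nat_lit 82) (nat_lit 44) (nat_lit 16) (.spl (nat_lit 1) (nat_lit 220)
(.trX (nat_lit 13) (nat_lit 60) (nat_lit 74) (nat_lit 100) (nat_lit 336) (.leaf p106_l66))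
(.trX (nat_lit 19) (nat_lit 100) (nat_lit 49) (nat_lit 92) (nat_lit 376) (.spl (nat_lit 1) (nat_lit 230)
(.trX (nat_lit 13) (nat_lit 61) (nat_lit 71) (nat_lit 100) (nat_lit 344) (.spl (nat_lit 0) (nat_lit 370)
(.leaf p106_l67)
(.trX (nat_lit 13) (nat_lit 53) (nat_lit 77) (nat_lit 100) (nat_lit 332) (.trX (nat_lit 16) (nat_lit 53) (nat_lit 100) (nat_lit 93) (nat_lit 232) (.leaf p106_l68)))))
(.trX (nat_lit 19) (nat_lit 100) (nat_lit 54) (nat_lit 93) (nat_lit 372) (.spl (nat_lit 6) (nat_lit 60)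
(.leaf p106_l69)
(.leaf p106_l70))))))))
(.trX (nat_lit 13) (nat_lit 44) (nat_lit 81) (nat_lit 100) (nat_lit 324) (.trX (nat_lit 16) (nat_lit 44) (nat_lit 100) (nat_lit 92) (nat_lit 208) (.spl (nat_lit 1) (nat_lit 220)
(.trX (nat_lit 13) (nat_lit 44) (nat_lit 86) (nat_lit 100) (nat_lit 308) (.leaf p106_l71))
(.trX (nat_lit 19) (nat_lit 100) (nat_lit 49) (nat_lit 92) (nat_lit 376) (.leaf p106_l72)))))))) (by decide +kernel)
noncomputable def p106_l73 : Lf2 := ⟨nat_lit 0, nat_lit 20, [nat_lit 5, nat_lit 5, nat_lit 5, nat_lit 20], true, nat_lit 8, nat_lit 248, nat_lit 0, nat_lit 384, ⟨nat_lit 0, nat_lit 1000, nat_lit 0, nat_lit 5, nat_lit 218, nat_lit 1000, nat_lit 96, nat_lit 0, nat_lit 0, nat_lit 0, nat_lit 0, nat_lit 0, nat_lit 0, nat_lit 0, nat_lit 0, nat_lit 5000000, false, true⟩,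
 nat_lit 0, nat_lit 4188, nat_lit 0, nat_lit 0, nat_lit 3647, nat_lit 0, nat_lit 216, nat_lit 0, nat_lit 0, nat_lit 0, nat_lit 0, nat_lit 0, nat_lit 0, nat_lit 0, nat_lit 0, nat_lit 250000, nat_lit 0, nat_lit 0, [(nat_lit 25, [(nat_lit 0, nat_lit 1000)])],
 ⟨p106_k13, nat_lit 0, nat_lit 0, nat_lit 340, nat_lit 0, nat_lit 458580, [nat_lit 764000001, nat_lit 1715600001, nat_lit 2118000000], [], [nat_lit 25718361535, nat_lit 24808237715, nat_lit 30209644587, nat_lit 31561535011, nat_lit 25309141225, nat_lit 26182294708, nat_lit 31319358927, nat_lit 30280956199], nat_lit 1271250, nat_lit 1271250, nat_lit 490000, nat_lit 2615000, nat_lit 43600, nat_lit 1756600, [nat_lit 230000, nat_lit 1100000, nat_lit 1442500], [nat_lit 55, nat_lit 40, nat_lit 40, nat_lit 80, nat_lit 3, nat_lit 373, nat_lit 150, nat_lit 14]⟩, C1.Rw.none,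
 ⟨nat_lit 2236, nat_lit 3163, ⟨.ofNat (nat_lit 316827), .ofNat (nat_lit 731621), .ofNat (nat_lit 361011), .ofNat (nat_lit 775931), .ofNat (nat_lit 328641), .ofNat (nat_lit 716658), .ofNat (nat_lit 374063), .ofNat (nat_lit 762206)⟩, ⟨.ofNat (nat_lit 20000), .ofNat (nat_lit 440213), .ofNat (nat_lit 20000), .ofNat (nat_lit 484523), .ofNat (nat_lit 20000), .ofNat (nat_lit 431772), .ofNat (nat_lit 20000), .ofNat (nat_lit 477320)⟩⟩, [⟨nat_lit 13, nat_lit 61, nat_lit 68, nat_lit 100, nat_lit 220340998⟩, ⟨nat_lit 4, nat_lit 100, nat_lit 53, nat_lit 87, nat_lit 95357659⟩]⟩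
noncomputable def p106_l74 : Lf2 := ⟨nat_lit 0, nat_lit 20, [nat_lit 5, nat_lit 5, nat_lit 5, nat_lit 20], true, nat_lit 20, nat_lit 208, nat_lit 0, nat_lit 384, ⟨nat_lit 0, nat_lit 1000, nat_lit 0, nat_lit 5, nat_lit 218, nat_lit 1000, nat_lit 88, nat_lit 0, nat_lit 0, nat_lit 0, nat_lit 0, nat_lit 0, nat_lit 0, nat_lit 0, nat_lit 0, nat_lit 5000000, false, true⟩,
 nat_lit 0, nat_lit 3119, nat_lit 0, nat_lit 0, nat_lit 2914, nat_lit 0, nat_lit 17, nat_lit 0, nat_lit 0, nat_lit 0, nat_lit 0, nat_lit 0, nat_lit 0, nat_lit 0, nat_lit 0, nat_lit 400000, nat_lit 0, nat_lit 0, [(nat_lit 28, [(nat_lit 1, nat_lit 1000)])],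
 ⟨p106_k6, nat_lit 0, nat_lit 0, nat_lit 364, nat_lit 0, nat_lit 585854, [nat_lit 697600000, nat_lit 324800000, nat_lit 138000000], [], [nat_lit 21226065115, nat_lit 23152372700, nat_lit 27802875088, nat_lit 29108694784, nat_lit 23114680265, nat_lit 24108133630, nat_lit 27544843591, nat_lit 28548317963], nat_lit 1271250, nat_lit 1271250, nat_lit 719601, nat_lit 2439450, nat_lit 111251, nat_lit 1474250, [nat_lit 230000, nat_lit 780000, nat_lit 1435000], [nat_lit 20, nat_lit 40, nat_lit 40, nat_lit 80, nat_lit 16, nat_lit 373, nat_lit 150, nat_lit 14]⟩, C1.Rw.none,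
 ⟨nat_lit 0, nat_lit 2237, ⟨.ofNat (nat_lit 370513), .ofNat (nat_lit 676741), .ofNat (nat_lit 414208), .ofNat (nat_lit 722292), .ofNat (nat_lit 385947), .ofNat (nat_lit 654993), .ofNat (nat_lit 434094), .ofNat (nat_lit 704996)⟩, ⟨.ofNat (nat_lit 50000), .ofNat (nat_lit 374750), .ofNat (nat_lit 50000), .ofNat (nat_lit 420300), .ofNat (nat_lit 50000), .ofNat (nat_lit 359993), .ofNat (nat_lit 50000), .ofNat (nat_lit 409994)⟩⟩, [⟨nat_lit 13, nat_lit 31, nat_lit 92, nat_lit 100, nat_lit 414156672⟩, ⟨nat_lit 13, nat_lit 44, nat_lit 81, nat_lit 100, nat_lit 55390535⟩, ⟨nat_lit 4, nat_lit 100, nat_lit 32, nat_lit 88, nat_lit 133925853⟩]⟩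
noncomputable def p106_l75 : Lf2 := ⟨nat_lit 0, nat_lit 20, [nat_lit 5, nat_lit 5, nat_lit 5, nat_lit 20], false, nat_lit 8, nat_lit 248, nat_lit 0, nat_lit 384, ⟨nat_lit 0, nat_lit 1000, nat_lit 0, nat_lit 5, nat_lit 217, nat_lit 1000, nat_lit 94, nat_lit 0, nat_lit 0, nat_lit 0, nat_lit 0, nat_lit 0, nat_lit 0, nat_lit 0, nat_lit 0, nat_lit 5000000, false, true⟩,
 nat_lit 0, nat_lit 4835, nat_lit 0, nat_lit 0, nat_lit 4211, nat_lit 0, nat_lit 0, nat_lit 0, nat_lit 0, nat_lit 0, nat_lit 0, nat_lit 0, nat_lit 0, nat_lit 0, nat_lit 0, nat_lit 354100, nat_lit 0, nat_lit 0, [(nat_lit 25, [(nat_lit 0, nat_lit 306), (nat_lit 1, nat_lit 694)]), (nat_lit 28, [(nat_lit 0, nat_lit 306), (nat_lit 1, nat_lit 694)])],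
 ⟨p106_k0, nat_lit 0, nat_lit 0, nat_lit 335, nat_lit 0, nat_lit 428463, [nat_lit 825460801, nat_lit 1114333334, nat_lit 1283256800], [], [nat_lit 24972762395, nat_lit 27471769484, nat_lit 31634232876, nat_lit 34537808331, nat_lit 22940932360, nat_lit 26356927751, nat_lit 31677402966, nat_lit 32011825826], nat_lit 1271250, nat_lit 1271250, nat_lit 490000, nat_lit 2615000, nat_lit 43600, nat_lit 1756600, [nat_lit 230000, nat_lit 780000, nat_lit 1435000], [nat_lit 20, nat_lit 40, nat_lit 40, nat_lit 80, nat_lit 16, nat_lit 373, nat_lit 150, nat_lit 14]⟩, ⟨p106_k3, nat_lit 0, nat_lit 0, nat_lit 926, nat_lit 0, nat_lit 1086810, [nat_lit 0, nat_lit 0, nat_lit 0], [], [nat_lit 0, nat_lit 0, nat_lit 0, nat_lit 0, nat_lit 0, nat_lit 0, nat_lit 0, nat_lit 0], nat_lit 1271250, nat_lit 1271250, nat_lit 490000, nat_lit 2615000, nat_lit 0, nat_lit 2712000, [nat_lit 1412500, nat_lit 1271250, nat_lit 1271250], [nat_lit 60, nat_lit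 40, nat_lit 40, nat_lit 80, nat_lit 32, nat_lit 483, nat_lit 250, nat_lit 11]⟩,
 ⟨nat_lit 0, nat_lit 3163, ⟨.ofNat (nat_lit 309443), .ofNat (nat_lit 731616), .ofNat (nat_lit 351143), .ofNat (nat_lit 775928), .ofNat (nat_lit 342303), .ofNat (nat_lit 689994), .ofNat (nat_lit 389693), .ofNat (nat_lit 739996)⟩, ⟨.ofNat (nat_lit 20000), .ofNat (nat_lit 440207), .ofNat (nat_lit 20000), .ofNat (nat_lit 484518), .ofNat (nat_lit 20000), .ofNat (nat_lit 409993), .ofNat (nat_lit 20000), .ofNat (nat_lit 459993)⟩⟩, [⟨nat_lit 13, nat_lit 44, nat_lit 86, nat_lit 100, nat_lit 373169072⟩, ⟨nat_lit 4, nat_lit 100, nat_lit 44, nat_lit 87, nat_lit 40018563⟩]⟩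
noncomputable def b_V_900_500_20_11 : St := ⟨true, nat_lit 1, nat_lit 2, nat_lit 2, nat_lit 120, nat_lit 360, nat_lit 400, nat_lit 200, nat_lit 240, nat_lit 80, nat_lit 352, nat_lit 80, nat_lit 120, nat_lit 8, nat_lit 248, nat_lit 0, nat_lit 384, nat_lit 40, nat_lit 80, nat_lit 0, nat_lit 0, nat_lit 0, nat_lit 0⟩
theorem d_V_900_500_20_11 (h : EB TB.env) : Dead b_V_900_500_20_11 := chkB_sound0 h (T :=
(.st (nat_lit 1)
(.spl (nat_lit 0) (nat_lit 380)
(.leaf p106_l73)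
(.trZ (nat_lit 0) (nat_lit 100) (nat_lit 44) (nat_lit 90) (nat_lit 112) (.trX (nat_lit 13) (nat_lit 44) (nat_lit 81) (nat_lit 100) (nat_lit 324) (.trZ (nat_lit 3) (nat_lit 100) (nat_lit 54) (nat_lit 57) (nat_lit 20) (.trX (nat_lit 16) (nat_lit 44) (nat_lit 100) (nat_lit 92) (nat_lit 208) (.leaf p106_l74))))))
(.leaf p106_l75))) (by decide +kernel)
noncomputable def p106_l76 : Lf2 := ⟨nat_lit 0, nat_lit 30, [nat_lit 15, nat_lit 5, nat_lit 5, nat_lit 20], false, nat_lit 8, nat_lit 80, nat_lit 0, nat_lit 384, ⟨nat_lit 92, nat_lit 0, nat_lit 908, nat_lit 5, nat_lit 185, nat_lit 908, nat_lit 43, nat_lit 908, nat_lit 17067, nat_lit 247, nat_lit 417, nat_lit 210, nat_lit 53923142, nat_lit 0, nat_lit 0, nat_lit 2872884, false, false⟩,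
 nat_lit 0, nat_lit 0, nat_lit 0, nat_lit 10312, nat_lit 2507, nat_lit 1282, nat_lit 109, nat_lit 0, nat_lit 0, nat_lit 61, nat_lit 0, nat_lit 0, nat_lit 0, nat_lit 0, nat_lit 67, nat_lit 227000, nat_lit 0, nat_lit 0, [(nat_lit 26, [(nat_lit 4, nat_lit 908)])],
 ⟨p106_k19, nat_lit 0, nat_lit 0, nat_lit 212, nat_lit 0, nat_lit 0, [nat_lit 1058540800, nat_lit 568782401, nat_lit 659286400], [], [nat_lit 19416735906, nat_lit 20028997763, nat_lit 22207143204, nat_lit 22713009377, nat_lit 18873295548, nat_lit 19454515927, nat_lit 21659622548, nat_lit 22132531003], nat_lit 0, nat_lit 0, nat_lit 0, nat_lit 0, nat_lit 0, nat_lit 0, [], [nat_lit 81, nat_lit 40, nat_lit 40, nat_lit 80, nat_lit 13, nat_lit 317, nat_lit 100, nat_lit 9]⟩, ⟨p106_k20, nat_lit 0, nat_lit 0, nat_lit 467, nat_lit 0, nat_lit 0, [nat_lit 575000000, nat_lit 1092224000, nat_lit 1508800000], [], [nat_lit 4410999018, nat_lit 4449363658, nat_lit 3966133570,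 nat_lit 3968977082, nat_lit 3864962756, nat_lit 3853489399, nat_lit 3276786492, nat_lit 3242290820], nat_lit 0, nat_lit 0, nat_lit 0, nat_lit 0, nat_lit 0, nat_lit 0, [], [nat_lit 104, nat_lit 40, nat_lit 40, nat_lit 80, nat_lit 76, nat_lit 456, nat_lit 225, nat_lit 10]⟩,
 ⟨nat_lit 2738, nat_lit 3163, ⟨.ofNat (nat_lit 317085), .ofNat (nat_lit 560952), .ofNat (nat_lit 361370), .ofNat (nat_lit 605257), .ofNat (nat_lit 322761), .ofNat (nat_lit 559060), .ofNat (nat_lit 367571), .ofNat (nat_lit 603890)⟩, ⟨.ofNat (nat_lit 20000), .ofNat (nat_lit 184209), .ofNat (nat_lit 20000), .ofNat (nat_lit 200000), .ofNat (nat_lit 20000), .ofNat (nat_lit 188310), .ofNat (nat_lit 20000), .ofNat (nat_lit 200000)⟩⟩, [⟨nat_lit 3, nat_lit 100, nat_lit 65, nat_lit 50, nat_lit 177550638⟩, ⟨nat_lit 22, nat_lit 100, nat_lit 65, nat_lit 64, nat_lit 14130335⟩]⟩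
noncomputable def p106_l77 : Lf2 := ⟨nat_lit 0, nat_lit 30, [nat_lit 15, nat_lit 5, nat_lit 5, nat_lit 20], true, nat_lit 12, nat_lit 80, nat_lit 0, nat_lit 384, ⟨nat_lit 0, nat_lit 136, nat_lit 864, nat_lit 5, nat_lit 189, nat_lit 1000, nat_lit 45, nat_lit 864, nat_lit 19267, nat_lit 249, nat_lit 2958, nat_lit 211, nat_lit 53366424, nat_lit 12272745, nat_lit 1360831, nat_lit 2959455, false, false⟩,
 nat_lit 0, nat_lit 0, nat_lit 0, nat_lit 6325, nat_lit 2248, nat_lit 0, nat_lit 0, nat_lit 0, nat_lit 0, nat_lit 0, nat_lit 0, nat_lit 0, nat_lit 0, nat_lit 0, nat_lit 79, nat_lit 250000, nat_lit 0, nat_lit 0, [(nat_lit 26, [(nat_lit 0, nat_lit 136), (nat_lit 4, nat_lit 864)])],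
 ⟨p106_k21, nat_lit 0, nat_lit 0, nat_lit 184, nat_lit 0, nat_lit 0, [nat_lit 1090240000, nat_lit 608038401, nat_lit 15187200], [], [nat_lit 19417362430, nat_lit 20053401001, nat_lit 22320542991, nat_lit 22843090587, nat_lit 18997030105, nat_lit 19602541285, nat_lit 21894008128, nat_lit 22423218208], nat_lit 0, nat_lit 0, nat_lit 0, nat_lit 0, nat_lit 0, nat_lit 0, [], [nat_lit 57, nat_lit 40, nat_lit 40, nat_lit 80, nat_lit 7, nat_lit 317, nat_lit 100, nat_lit 10]⟩, C1.Rw.none,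
 ⟨nat_lit 2236, nat_lit 2739, ⟨.ofNat (nat_lit 340439), .ofNat (nat_lit 559060), .ofNat (nat_lit 385234), .ofNat (nat_lit 603890), .ofNat (nat_lit 345963), .ofNat (nat_lit 557014), .ofNat (nat_lit 391471), .ofNat (nat_lit 602558)⟩, ⟨.ofNat (nat_lit 30000), .ofNat (nat_lit 188310), .ofNat (nat_lit 30000), .ofNat (nat_lit 200000), .ofNat (nat_lit 30000), .ofNat (nat_lit 192306), .ofNat (nat_lit 30000), .ofNat (nat_lit 200000)⟩⟩, [⟨nat_lit 3, nat_lit 100, nat_lit 56, nat_lit 60, nat_lit 254212314⟩]⟩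
noncomputable def p106_l78 : Lf2 := ⟨nat_lit 0, nat_lit 30, [nat_lit 15, nat_lit 5, nat_lit 5, nat_lit 20], true, nat_lit 20, nat_lit 80, nat_lit 0, nat_lit 384, ⟨nat_lit 0, nat_lit 268, nat_lit 732, nat_lit 5, nat_lit 196, nat_lit 1000, nat_lit 50, nat_lit 732, nat_lit 22817, nat_lit 252, nat_lit 267, nat_lit 211, nat_lit 52496337, nat_lit 12930068, nat_lit 1573595, nat_lit 3099011, false, false⟩,
 nat_lit 0, nat_lit 0, nat_lit 0, nat_lit 4967, nat_lit 2364, nat_lit 0, nat_lit 0, nat_lit 0, nat_lit 0, nat_lit 0, nat_lit 0, nat_lit 0, nat_lit 0, nat_lit 0, nat_lit 78, nat_lit 250000, nat_lit 0, nat_lit 0, [(nat_lit 29, [(nat_lit 0, nat_lit 268), (nat_lit 4, nat_lit 732)])],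
 ⟨p106_k22, nat_lit 0, nat_lit 0, nat_lit 185, nat_lit 0, nat_lit 0, [nat_lit 1078960001, nat_lit 346950401, nat_lit 175089600], [], [nat_lit 20304006470, nat_lit 21763595200, nat_lit 22948967957, nat_lit 24383118832, nat_lit 19854954913, nat_lit 21064870553, nat_lit 22604312189, nat_lit 23839065253], nat_lit 0, nat_lit 0, nat_lit 0, nat_lit 0, nat_lit 0, nat_lit 0, [], [nat_lit 57, nat_lit 40, nat_lit 40, nat_lit 80, nat_lit 7, nat_lit 317, nat_lit 100, nat_lit 10]⟩, C1.Rw.none,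
 ⟨nat_lit 0, nat_lit 2237, ⟨.ofNat (nat_lit 370513), .ofNat (nat_lit 557013), .ofNat (nat_lit 414208), .ofNat (nat_lit 602531), .ofNat (nat_lit 385947), .ofNat (nat_lit 549998), .ofNat (nat_lit 434094), .ofNat (nat_lit 599967)⟩, ⟨.ofNat (nat_lit 50000), .ofNat (nat_lit 192306), .ofNat (nat_lit 50000), .ofNat (nat_lit 200000), .ofNat (nat_lit 50000), .ofNat (nat_lit 199999), .ofNat (nat_lit 50000), .ofNat (nat_lit 200000)⟩⟩, [⟨nat_lit 3, nat_lit 100, nat_lit 36, nat_lit 77, nat_lit 402248663⟩]⟩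
noncomputable def p106_l79 : Lf2 := ⟨nat_lit 0, nat_lit 30, [nat_lit 15, nat_lit 5, nat_lit 5, nat_lit 20], true, nat_lit 80, nat_lit 160, nat_lit 0, nat_lit 384, ⟨nat_lit 0, nat_lit 0, nat_lit 1000, nat_lit 5, nat_lit 185, nat_lit 1000, nat_lit 105, nat_lit 1000, nat_lit 101400, nat_lit 293, nat_lit 417, nat_lit 210, nat_lit 50382213, nat_lit 0, nat_lit 0, nat_lit 3774050, false, false⟩,
 nat_lit 0, nat_lit 0, nat_lit 0, nat_lit 1390, nat_lit 2650, nat_lit 0, nat_lit 0, nat_lit 0, nat_lit 0, nat_lit 0, nat_lit 0, nat_lit 0, nat_lit 0, nat_lit 0, nat_lit 108, nat_lit 250000, nat_lit 0, nat_lit 0, [(nat_lit 26, [(nat_lit 4, nat_lit 1000)]), (nat_lit 29, [(nat_lit 4, nat_lit 1000)])],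
 ⟨p106_k19, nat_lit 0, nat_lit 0, nat_lit 182, nat_lit 0, nat_lit 0, [nat_lit 1207600000, nat_lit 698800001, nat_lit 686800000], [], [nat_lit 19048549800, nat_lit 21537091800, nat_lit 21770006800, nat_lit 23744054800, nat_lit 19912855800, nat_lit 22134996400, nat_lit 22435153200, nat_lit 24278932000], nat_lit 0, nat_lit 0, nat_lit 0, nat_lit 0, nat_lit 0, nat_lit 0, [], [nat_lit 81, nat_lit 40, nat_lit 40, nat_lit 80, nat_lit 13, nat_lit 317, nat_lit 100, nat_lit 9]⟩, C1.Rw.none,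
 ⟨nat_lit 0, nat_lit 3163, ⟨.ofNat (nat_lit 309443), .ofNat (nat_lit 560951), .ofNat (nat_lit 351143), .ofNat (nat_lit 605128), .ofNat (nat_lit 342303), .ofNat (nat_lit 549998), .ofNat (nat_lit 389693), .ofNat (nat_lit 599865)⟩, ⟨.ofNat (nat_lit 184209), .ofNat (nat_lit 306113), .ofNat (nat_lit 200000), .ofNat (nat_lit 350425), .ofNat (nat_lit 199999), .ofNat (nat_lit 299996), .ofNat (nat_lit 200000), .ofNat (nat_lit 349998)⟩⟩, []⟩
noncomputable def p106_l80 : Lf2 := ⟨nat_lit 0, nat_lit 30, [nat_lit 15, nat_lit 5, nat_lit 5, nat_lit 20], true, nat_lit 160, nat_lit 248, nat_lit 0, nat_lit 384, ⟨nat_lit 0, nat_lit 0, nat_lit 1000, nat_lit 5, nat_lit 185, nat_lit 1000, nat_lit 155, nat_lit 1000, nat_lit 61175, nat_lit 275, nat_lit 417, nat_lit 210, nat_lit 46853347, nat_lit 0, nat_lit 0, nat_lit 4383527, false, false⟩,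
 nat_lit 0, nat_lit 0, nat_lit 0, nat_lit 7877, nat_lit 2521, nat_lit 0, nat_lit 0, nat_lit 0, nat_lit 0, nat_lit 0, nat_lit 0, nat_lit 0, nat_lit 0, nat_lit 0, nat_lit 108, nat_lit 250000, nat_lit 0, nat_lit 0, [(nat_lit 26, [(nat_lit 4, nat_lit 1000)]), (nat_lit 29, [(nat_lit 4, nat_lit 1000)])],
 ⟨p106_k19, nat_lit 0, nat_lit 0, nat_lit 156, nat_lit 0, nat_lit 0, [nat_lit 1207600000, nat_lit 698800001, nat_lit 686800000], [], [nat_lit 19871413832, nat_lit 22098080644, nat_lit 22417915764, nat_lit 24233730120, nat_lit 21996405319, nat_lit 23948559973, nat_lit 24151359888, nat_lit 26181160847], nat_lit 0, nat_lit 0, nat_lit 0, nat_lit 0, nat_lit 0, nat_lit 0, [], [nat_lit 81, nat_lit 40, nat_lit 40, nat_lit 80, nat_lit 13, nat_lit 345, nat_lit 125, nat_lit 9]⟩, C1.Rw.none,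
 ⟨nat_lit 0, nat_lit 3163, ⟨.ofNat (nat_lit 309443), .ofNat (nat_lit 560951), .ofNat (nat_lit 351143), .ofNat (nat_lit 605128), .ofNat (nat_lit 342303), .ofNat (nat_lit 549998), .ofNat (nat_lit 389693), .ofNat (nat_lit 599865)⟩, ⟨.ofNat (nat_lit 306113), .ofNat (nat_lit 440207), .ofNat (nat_lit 350425), .ofNat (nat_lit 484518), .ofNat (nat_lit 299996), .ofNat (nat_lit 409993), .ofNat (nat_lit 349998), .ofNat (nat_lit 459993)⟩⟩, [⟨nat_lit 4, nat_lit 100, nat_lit 44, nat_lit 87, nat_lit 405371098⟩]⟩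
noncomputable def p106_l81 : Lf2 := ⟨nat_lit 0, nat_lit 30, [nat_lit 15, nat_lit 5, nat_lit 5, nat_lit 20], false, nat_lit 8, nat_lit 248, nat_lit 0, nat_lit 160, ⟨nat_lit 1000, nat_lit 0, nat_lit 0, nat_lit 0, nat_lit 0, nat_lit 0, nat_lit 0, nat_lit 0, nat_lit 0, nat_lit 0, nat_lit 0, nat_lit 0, nat_lit 0, nat_lit 0, nat_lit 0, nat_lit 0, false, false⟩,
 nat_lit 0, nat_lit 0, nat_lit 0, nat_lit 8217, nat_lit 6205, nat_lit 7416, nat_lit 417, nat_lit 0, nat_lit 0, nat_lit 736, nat_lit 0, nat_lit 0, nat_lit 0, nat_lit 0, nat_lit 0, nat_lit 0, nat_lit 0, nat_lit 0, [],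
 ⟨p106_k19, nat_lit 0, nat_lit 0, nat_lit 209, nat_lit 0, nat_lit 0, [nat_lit 938000000, nat_lit 4688000000, nat_lit 9842000000], [], [nat_lit 30523199259, nat_lit 33803337333, nat_lit 36670809201, nat_lit 40280750702, nat_lit 27851904141, nat_lit 29884941387, nat_lit 31814339597, nat_lit 34481877214], nat_lit 0, nat_lit 0, nat_lit 0, nat_lit 0, nat_lit 0, nat_lit 0, [], [nat_lit 81, nat_lit 40, nat_lit 40, nat_lit 80, nat_lit 13, nat_lit 373, nat_lit 150, nat_lit 10]⟩, ⟨p106_k20, nat_lit 0, nat_lit 0, nat_lit 337, nat_lit 0, nat_lit 0, [nat_lit 6250000000, nat_lit 11872000000, nat_lit 16400000000], [], [nat_lit 34923867232, nat_lit 36052672032, nat_lit 41022497620, nat_lit 41903845300, nat_lit 30238075616, nat_lit 31306367008, nat_lit 35470215431, nat_lit 36066466567], nat_lit 0, nat_lit 0, nat_lit 0, nat_lit 0, nat_lit 0, nat_lit 0, [], [nat_lit 104, nat_lit 40, nat_lit 40, nat_lit 80, nat_lit 76, nat_lit 428,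 nat_lit 200, nat_lit 9]⟩,
 zbF0, [⟨nat_lit 13, nat_lit 44, nat_lit 86, nat_lit 100, nat_lit 259988076⟩, ⟨nat_lit 16, nat_lit 44, nat_lit 100, nat_lit 87, nat_lit 230685693⟩]⟩
noncomputable def p106_l82 : Lf2 := ⟨nat_lit 0, nat_lit 30, [nat_lit 15, nat_lit 5, nat_lit 5, nat_lit 20], false, nat_lit 8, nat_lit 248, nat_lit 160, nat_lit 384, ⟨nat_lit 1000, nat_lit 0, nat_lit 0, nat_lit 0, nat_lit 0, nat_lit 0, nat_lit 0, nat_lit 0, nat_lit 0, nat_lit 0, nat_lit 0, nat_lit 0, nat_lit 0, nat_lit 0, nat_lit 0, nat_lit 0, false, false⟩,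
 nat_lit 0, nat_lit 0, nat_lit 0, nat_lit 8691, nat_lit 6205, nat_lit 7708, nat_lit 417, nat_lit 0, nat_lit 0, nat_lit 0, nat_lit 0, nat_lit 0, nat_lit 0, nat_lit 0, nat_lit 0, nat_lit 0, nat_lit 0, nat_lit 0, [],
 ⟨p106_k19, nat_lit 0, nat_lit 0, nat_lit 209, nat_lit 0, nat_lit 0, [nat_lit 938000000, nat_lit 4688000000, nat_lit 9842000000], [], [nat_lit 30523199259, nat_lit 33803337333, nat_lit 36670809201, nat_lit 40280750702, nat_lit 27851904141, nat_lit 29884941387, nat_lit 31814339597, nat_lit 34481877214], nat_lit 0, nat_lit 0, nat_lit 0, nat_lit 0, nat_lit 0, nat_lit 0, [], [nat_lit 81, nat_lit 40, nat_lit 40, nat_lit 80, nat_lit 13, nat_lit 373, nat_lit 150, nat_lit 10]⟩, ⟨p106_k20, nat_lit 0, nat_lit 0, nat_lit 131, nat_lit 0, nat_lit 0, [nat_lit 6250000000, nat_lit 11872000000, nat_lit 16400000000], [], [nat_lit 13521295760, nat_lit 15811465040, nat_lit 23227154765, nat_lit 24627935293, nat_lit 28048047818,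 nat_lit 29194339556, nat_lit 34391528401, nat_lit 34948094057], nat_lit 0, nat_lit 0, nat_lit 0, nat_lit 0, nat_lit 0, nat_lit 0, [], [nat_lit 104, nat_lit 40, nat_lit 40, nat_lit 80, nat_lit 76, nat_lit 483, nat_lit 250, nat_lit 10]⟩,
 zbF0, [⟨nat_lit 4, nat_lit 100, nat_lit 44, nat_lit 87, nat_lit 519007834⟩, ⟨nat_lit 19, nat_lit 100, nat_lit 40, nat_lit 92, nat_lit 224275682⟩, ⟨nat_lit 10, nat_lit 39, nat_lit 88, nat_lit 100, nat_lit 321590080⟩]⟩
noncomputable def b_V_900_500_20_12 : St := ⟨true, nat_lit 0, nat_lit 0, nat_lit 1, nat_lit 120, nat_lit 360, nat_lit 400, nat_lit 200, nat_lit 240, nat_lit 80, nat_lit 352, nat_lit 80, nat_lit 120, nat_lit 8, nat_lit 248, nat_lit 0, nat_lit 384, nat_lit 80, nat_lit 120, nat_lit 0, nat_lit 0, nat_lit 0, nat_lit 0⟩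
theorem d_V_900_500_20_12 (h : EB TB.env) : Dead b_V_900_500_20_12 := chkB_sound0 h (T :=
(.spl (nat_lit 2) (nat_lit 240)
(.spl (nat_lit 4) (nat_lit 160)
(.spl (nat_lit 4) (nat_lit 80)
(.spl (nat_lit 0) (nat_lit 380)
(.spl (nat_lit 0) (nat_lit 370)
(.leaf p106_l76)
(.trZ (nat_lit 0) (nat_lit 100) (nat_lit 53) (nat_lit 85) (nat_lit 92) (.trZ (nat_lit 3) (nat_lit 100) (nat_lit 66) (nat_lit 45) (nat_lit 12) (.leaf p106_l77))))
(.trZ (nat_lit 0) (nat_lit 100) (nat_lit 44) (nat_lit 90) (nat_lit 112) (.trZ (nat_lit 3) (nat_lit 100) (nat_lit 54) (nat_lit 57) (nat_lit 20) (.leaf p106_l78))))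
(.leaf p106_l79))
(.leaf p106_l80))
(.spl (nat_lit 5) (nat_lit 160)
(.leaf p106_l81)
(.leaf p106_l82)))) (by decide +kernel)
noncomputable def p106_l83 : Lf2 := ⟨nat_lit 0, nat_lit 28, [nat_lit 157, nat_lit 5, nat_lit 5, nat_lit 20], true, nat_lit 8, nat_lit 80, nat_lit 0, nat_lit 384, ⟨nat_lit 0, nat_lit 111, nat_lit 889, nat_lit 5, nat_lit 185, nat_lit 1000, nat_lit 43, nat_lit 889, nat_lit 17067, nat_lit 247, nat_lit 417, nat_lit 210, nat_lit 53923142, nat_lit 11824142, nat_lit 1252716, nat_lit 2872884, false, false⟩,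
 nat_lit 0, nat_lit 0, nat_lit 0, nat_lit 7053, nat_lit 2256, nat_lit 0, nat_lit 0, nat_lit 0, nat_lit 0, nat_lit 0, nat_lit 0, nat_lit 0, nat_lit 0, nat_lit 0, nat_lit 84, nat_lit 250000, nat_lit 0, nat_lit 0, [(nat_lit 26, [(nat_lit 0, nat_lit 111), (nat_lit 4, nat_lit 889)])],
 ⟨p106_k23, nat_lit 0, nat_lit 0, nat_lit 184, nat_lit 0, nat_lit 0, [nat_lit 1110490000, nat_lit 619428401, nat_lit 8057200], [], [nat_lit 18562024874, nat_lit 19208903255, nat_lit 21692559143, nat_lit 22215626172, nat_lit 18132458704, nat_lit 18746536232, nat_lit 21260426576, nat_lit 21796542160], nat_lit 0, nat_lit 0, nat_lit 0, nat_lit 0, nat_lit 0, nat_lit 0, [], [nat_lit 57, nat_lit 40, nat_lit 40, nat_lit 80, nat_lit 7, nat_lit 317, nat_lit 100, nat_lit 10]⟩, C1.Rw.none,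
 ⟨nat_lit 2738, nat_lit 3163, ⟨.ofNat (nat_lit 317085), .ofNat (nat_lit 560952), .ofNat (nat_lit 361370), .ofNat (nat_lit 605257), .ofNat (nat_lit 322761), .ofNat (nat_lit 559060), .ofNat (nat_lit 367571), .ofNat (nat_lit 603890)⟩, ⟨.ofNat (nat_lit 20000), .ofNat (nat_lit 184209), .ofNat (nat_lit 20000), .ofNat (nat_lit 200000), .ofNat (nat_lit 20000), .ofNat (nat_lit 188310), .ofNat (nat_lit 20000), .ofNat (nat_lit 200000)⟩⟩, [⟨nat_lit 3, nat_lit 100, nat_lit 65, nat_lit 50, nat_lit 208806483⟩]⟩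
noncomputable def p106_l84 : Lf2 := ⟨nat_lit 1, nat_lit 30, [nat_lit 15, nat_lit 5, nat_lit 5, nat_lit 20], false, nat_lit 8, nat_lit 80, nat_lit 0, nat_lit 384, zbN0,
 nat_lit 0, nat_lit 0, nat_lit 0, nat_lit 0, nat_lit 0, nat_lit 0, nat_lit 0, nat_lit 0, nat_lit 0, nat_lit 0, nat_lit 0, nat_lit 0, nat_lit 0, nat_lit 0, nat_lit 0, nat_lit 0, nat_lit 0, nat_lit 0, [],
 C1.Rw.none, C1.Rw.none,
 zbF0, []⟩
noncomputable def p106_l85 : Lf2 := ⟨nat_lit 0, nat_lit 30, [nat_lit 15, nat_lit 5, nat_lit 5, nat_lit 20], true, nat_lit 12, nat_lit 80, nat_lit 0, nat_lit 384, ⟨nat_lit 0, nat_lit 136, nat_lit 864, nat_lit 5, nat_lit 189, nat_lit 1000, nat_lit 45, nat_lit 864, nat_lit 19267, nat_lit 249, nat_lit 2958, nat_lit 211, nat_lit 53366424, nat_lit 12272745, nat_lit 1360831, nat_lit 2959455, false, false⟩,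
 nat_lit 0, nat_lit 0, nat_lit 0, nat_lit 6325, nat_lit 2248, nat_lit 0, nat_lit 0, nat_lit 0, nat_lit 0, nat_lit 0, nat_lit 0, nat_lit 0, nat_lit 0, nat_lit 0, nat_lit 79, nat_lit 250000, nat_lit 0, nat_lit 0, [(nat_lit 26, [(nat_lit 0, nat_lit 136), (nat_lit 4, nat_lit 864)])],
 ⟨p106_k21, nat_lit 0, nat_lit 0, nat_lit 184, nat_lit 0, nat_lit 0, [nat_lit 1090240000, nat_lit 608038401, nat_lit 15187200], [], [nat_lit 19417362430, nat_lit 20053401001, nat_lit 22320542991, nat_lit 22843090587, nat_lit 18997030105, nat_lit 19602541285, nat_lit 21894008128, nat_lit 22423218208], nat_lit 0, nat_lit 0, nat_lit 0, nat_lit 0, nat_lit 0, nat_lit 0, [], [nat_lit 57, nat_lit 40, nat_lit 40, nat_lit 80, nat_lit 7, nat_lit 317, nat_lit 100, nat_lit 10]⟩, C1.Rw.none,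
 ⟨nat_lit 2236, nat_lit 2739, ⟨.ofNat (nat_lit 340439), .ofNat (nat_lit 559060), .ofNat (nat_lit 385234), .ofNat (nat_lit 603890), .ofNat (nat_lit 345963), .ofNat (nat_lit 557014), .ofNat (nat_lit 391471), .ofNat (nat_lit 602558)⟩, ⟨.ofNat (nat_lit 30000), .ofNat (nat_lit 188310), .ofNat (nat_lit 30000), .ofNat (nat_lit 200000), .ofNat (nat_lit 30000), .ofNat (nat_lit 192306), .ofNat (nat_lit 30000), .ofNat (nat_lit 200000)⟩⟩, [⟨nat_lit 3, nat_lit 100, nat_lit 56, nat_lit 60, nat_lit 254212314⟩]⟩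
noncomputable def p106_l86 : Lf2 := ⟨nat_lit 0, nat_lit 30, [nat_lit 15, nat_lit 5, nat_lit 5, nat_lit 20], true, nat_lit 20, nat_lit 80, nat_lit 0, nat_lit 384, ⟨nat_lit 0, nat_lit 171, nat_lit 829, nat_lit 5, nat_lit 196, nat_lit 1000, nat_lit 50, nat_lit 829, nat_lit 22817, nat_lit 252, nat_lit 267, nat_lit 211, nat_lit 52496337, nat_lit 12930068, nat_lit 1573595, nat_lit 3099011, false, false⟩,
 nat_lit 0, nat_lit 0, nat_lit 0, nat_lit 4969, nat_lit 2360, nat_lit 0, nat_lit 0, nat_lit 0, nat_lit 0, nat_lit 0, nat_lit 0, nat_lit 0, nat_lit 0, nat_lit 0, nat_lit 100, nat_lit 250000, nat_lit 0, nat_lit 0, [(nat_lit 29, [(nat_lit 0, nat_lit 171), (nat_lit 4, nat_lit 829)])],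
 ⟨p106_k24, nat_lit 0, nat_lit 0, nat_lit 200, nat_lit 0, nat_lit 0, [nat_lit 1165020000, nat_lit 210601200], [], [nat_lit 20293787692, nat_lit 21753495000, nat_lit 22942216480, nat_lit 24374164680, nat_lit 20020111552, nat_lit 21170587441, nat_lit 22600594080, nat_lit 23833651520], nat_lit 0, nat_lit 0, nat_lit 0, nat_lit 0, nat_lit 0, nat_lit 0, [], [nat_lit 141, nat_lit 40, nat_lit 40, nat_lit 80, nat_lit 142, nat_lit 317, nat_lit 100, nat_lit 10]⟩, C1.Rw.none,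
 ⟨nat_lit 0, nat_lit 2237, ⟨.ofNat (nat_lit 370513), .ofNat (nat_lit 557013), .ofNat (nat_lit 414208), .ofNat (nat_lit 602531), .ofNat (nat_lit 385947), .ofNat (nat_lit 549998), .ofNat (nat_lit 434094), .ofNat (nat_lit 599967)⟩, ⟨.ofNat (nat_lit 50000), .ofNat (nat_lit 192306), .ofNat (nat_lit 50000), .ofNat (nat_lit 200000), .ofNat (nat_lit 50000), .ofNat (nat_lit 199999), .ofNat (nat_lit 50000), .ofNat (nat_lit 200000)⟩⟩, [⟨nat_lit 3, nat_lit 100, nat_lit 36, nat_lit 77, nat_lit 400942222⟩]⟩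
noncomputable def p106_l87 : Lf2 := ⟨nat_lit 0, nat_lit 30, [nat_lit 15, nat_lit 5, nat_lit 5, nat_lit 20], true, nat_lit 80, nat_lit 160, nat_lit 0, nat_lit 384, ⟨nat_lit 0, nat_lit 0, nat_lit 1000, nat_lit 5, nat_lit 185, nat_lit 1000, nat_lit 105, nat_lit 1000, nat_lit 101400, nat_lit 293, nat_lit 417, nat_lit 210, nat_lit 50382213, nat_lit 0, nat_lit 0, nat_lit 3774050, false, false⟩,
 nat_lit 0, nat_lit 0, nat_lit 0, nat_lit 1469, nat_lit 2689, nat_lit 0, nat_lit 0, nat_lit 0, nat_lit 0, nat_lit 0, nat_lit 0, nat_lit 0, nat_lit 0, nat_lit 0, nat_lit 108, nat_lit 250000, nat_lit 0, nat_lit 0, [(nat_lit 26, [(nat_lit 4, nat_lit 1000)]), (nat_lit 29, [(nat_lit 4, nat_lit 1000)])],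
 ⟨p106_k25, nat_lit 0, nat_lit 0, nat_lit 179, nat_lit 0, nat_lit 0, [nat_lit 1193600000, nat_lit 686800000], [], [nat_lit 19665548920, nat_lit 21561378348, nat_lit 21857179196, nat_lit 23798728336, nat_lit 20228753104, nat_lit 22196960304, nat_lit 22535660168, nat_lit 24318506080], nat_lit 0, nat_lit 0, nat_lit 0, nat_lit 0, nat_lit 0, nat_lit 0, [], [nat_lit 132, nat_lit 40, nat_lit 40, nat_lit 80, nat_lit 133, nat_lit 317, nat_lit 100, nat_lit 9]⟩, C1.Rw.none,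
 ⟨nat_lit 0, nat_lit 3163, ⟨.ofNat (nat_lit 309443), .ofNat (nat_lit 560951), .ofNat (nat_lit 351143), .ofNat (nat_lit 605128), .ofNat (nat_lit 342303), .ofNat (nat_lit 549998), .ofNat (nat_lit 389693), .ofNat (nat_lit 599865)⟩, ⟨.ofNat (nat_lit 184209), .ofNat (nat_lit 306113), .ofNat (nat_lit 200000), .ofNat (nat_lit 350425), .ofNat (nat_lit 199999), .ofNat (nat_lit 299996), .ofNat (nat_lit 200000), .ofNat (nat_lit 349998)⟩⟩, []⟩
noncomputable def p106_l88 : Lf2 := ⟨nat_lit 0, nat_lit 30, [nat_lit 15, nat_lit 5, nat_lit 5, nat_lit 20], true, nat_lit 160, nat_lit 248, nat_lit 0, nat_lit 384, ⟨nat_lit 0, nat_lit 0, nat_lit 1000, nat_lit 5, nat_lit 185, nat_lit 1000, nat_lit 155, nat_lit 1000, nat_lit 61175, nat_lit 275, nat_lit 417, nat_lit 210, nat_lit 46853347, nat_lit 0, nat_lit 0, nat_lit 4383527, false, false⟩,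
 nat_lit 0, nat_lit 0, nat_lit 0, nat_lit 7877, nat_lit 2521, nat_lit 0, nat_lit 0, nat_lit 0, nat_lit 0, nat_lit 0, nat_lit 0, nat_lit 0, nat_lit 0, nat_lit 0, nat_lit 108, nat_lit 250000, nat_lit 0, nat_lit 0, [(nat_lit 26, [(nat_lit 4, nat_lit 1000)]), (nat_lit 29, [(nat_lit 4, nat_lit 1000)])],
 ⟨p106_k19, nat_lit 0, nat_lit 0, nat_lit 156, nat_lit 0, nat_lit 0, [nat_lit 1207600000, nat_lit 698800001, nat_lit 686800000], [], [nat_lit 19871413832, nat_lit 22098080644, nat_lit 22417915764, nat_lit 24233730120, nat_lit 21996405319, nat_lit 23948559973, nat_lit 24151359888, nat_lit 26181160847], nat_lit 0, nat_lit 0, nat_lit 0, nat_lit 0, nat_lit 0, nat_lit 0, [], [nat_lit 81, nat_lit 40, nat_lit 40, nat_lit 80, nat_lit 13, nat_lit 345, nat_lit 125, nat_lit 9]⟩, C1.Rw.none,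
 ⟨nat_lit 0, nat_lit 3163, ⟨.ofNat (nat_lit 309443), .ofNat (nat_lit 560951), .ofNat (nat_lit 351143), .ofNat (nat_lit 605128), .ofNat (nat_lit 342303), .ofNat (nat_lit 549998), .ofNat (nat_lit 389693), .ofNat (nat_lit 599865)⟩, ⟨.ofNat (nat_lit 306113), .ofNat (nat_lit 440207), .ofNat (nat_lit 350425), .ofNat (nat_lit 484518), .ofNat (nat_lit 299996), .ofNat (nat_lit 409993), .ofNat (nat_lit 349998), .ofNat (nat_lit 459993)⟩⟩, [⟨nat_lit 4, nat_lit 100, nat_lit 44, nat_lit 87, nat_lit 405371098⟩]⟩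
noncomputable def b_V_900_500_20_13 : St := ⟨true, nat_lit 0, nat_lit 1, nat_lit 1, nat_lit 120, nat_lit 360, nat_lit 400, nat_lit 200, nat_lit 240, nat_lit 80, nat_lit 240, nat_lit 80, nat_lit 120, nat_lit 8, nat_lit 248, nat_lit 0, nat_lit 384, nat_lit 80, nat_lit 120, nat_lit 0, nat_lit 0, nat_lit 0, nat_lit 0⟩
theorem d_V_900_500_20_13 (h : EB TB.env) : Dead b_V_900_500_20_13 := chkB_sound0 h (T :=
(.spl (nat_lit 4) (nat_lit 160)
(.spl (nat_lit 4) (nat_lit 80)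
(.spl (nat_lit 0) (nat_lit 380)
(.spl (nat_lit 0) (nat_lit 370)
(.spl (nat_lit 6) (nat_lit 112)
(.leaf p106_l83)
(.leaf p106_l84))
(.trZ (nat_lit 0) (nat_lit 100) (nat_lit 53) (nat_lit 85) (nat_lit 92) (.trZ (nat_lit 3) (nat_lit 100) (nat_lit 66) (nat_lit 45) (nat_lit 12) (.leaf p106_l85))))
(.trZ (nat_lit 0) (nat_lit 100) (nat_lit 44) (nat_lit 90) (nat_lit 112) (.trZ (nat_lit 3) (nat_lit 100) (nat_lit 54) (nat_lit 57) (nat_lit 20) (.leaf p106_l86))))
(.leaf p106_l87))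
(.leaf p106_l88))) (by decide +kernel)
noncomputable def p106_l89 : Lf2 := ⟨nat_lit 0, nat_lit 26, [nat_lit 108, nat_lit 5, nat_lit 5, nat_lit 20], false, nat_lit 8, nat_lit 80, nat_lit 0, nat_lit 160, ⟨nat_lit 642, nat_lit 0, nat_lit 358, nat_lit 6, nat_lit 257, nat_lit 358, nat_lit 43, nat_lit 358, nat_lit 17067, nat_lit 247, nat_lit 187540, nat_lit 200, nat_lit 46383339, nat_lit 0, nat_lit 0, nat_lit 3533253, true, true⟩,
 nat_lit 0, nat_lit 0, nat_lit 11370, nat_lit 0, nat_lit 3227, nat_lit 4872, nat_lit 201, nat_lit 0, nat_lit 0, nat_lit 668, nat_lit 0, nat_lit 0, nat_lit 0, nat_lit 0, nat_lit 0, nat_lit 199000, nat_lit 0, nat_lit 0, [(nat_lit 26, [(nat_lit 5, nat_lit 265), (nat_lit 6, nat_lit 93)])],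
 ⟨p106_k26, nat_lit 0, nat_lit 0, nat_lit 169, nat_lit 0, nat_lit 0, [nat_lit 921132801, nat_lit 1786765801, nat_lit 2941602000], [], [nat_lit 24892673519, nat_lit 25440704638, nat_lit 28380592768, nat_lit 28882276583, nat_lit 24027813018, nat_lit 24547365660, nat_lit 27284114570, nat_lit 27717231000], nat_lit 0, nat_lit 0, nat_lit 0, nat_lit 0, nat_lit 0, nat_lit 0, [], [nat_lit 54, nat_lit 40, nat_lit 40, nat_lit 80, nat_lit 43, nat_lit 226, nat_lit 20, nat_lit 6]⟩, ⟨p106_k27, nat_lit 0, nat_lit 0, nat_lit 515, nat_lit 0, nat_lit 324565, [nat_lit 4012500000, nat_lit 6318564000, nat_lit 10528800000], [], [nat_lit 25444419268, nat_lit 25553412904, nat_lit 27336149908, nat_lit 27402225789, nat_lit 21968698872, nat_lit 22181737824, nat_lit 23935648162, nat_lit 24053143856], nat_lit 1271250, nat_lit 1271250, nat_lit 1271250, nat_lit 1271250, nat_lit 0, nat_lit 1100001, [nat_lit 1412500, nat_lit 1271250, nat_lit 1271250],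 [nat_lit 118, nat_lit 40, nat_lit 40, nat_lit 80, nat_lit 73, nat_lit 428, nat_lit 200, nat_lit 9]⟩,
 ⟨nat_lit 2738, nat_lit 3163, ⟨.ofNat (nat_lit 560952), .ofNat (nat_lit 707240), .ofNat (nat_lit 583107), .ofNat (nat_lit 729395), .ofNat (nat_lit 559060), .ofNat (nat_lit 700807), .ofNat (nat_lit 581477), .ofNat (nat_lit 723224)⟩, ⟨.ofNat (nat_lit 20000), .ofNat (nat_lit 184209), .ofNat (nat_lit 20000), .ofNat (nat_lit 200000), .ofNat (nat_lit 20000), .ofNat (nat_lit 188310), .ofNat (nat_lit 20000), .ofNat (nat_lit 200000)⟩⟩, [⟨nat_lit 3, nat_lit 100, nat_lit 65, nat_lit 50, nat_lit 26947157⟩]⟩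
noncomputable def p106_l90 : Lf2 := ⟨nat_lit 0, nat_lit 26, [nat_lit 108, nat_lit 5, nat_lit 5, nat_lit 20], false, nat_lit 8, nat_lit 80, nat_lit 160, nat_lit 336, ⟨nat_lit 332, nat_lit 0, nat_lit 668, nat_lit 6, nat_lit 257, nat_lit 668, nat_lit 43, nat_lit 668, nat_lit 17067, nat_lit 247, nat_lit 187540, nat_lit 200, nat_lit 46383339, nat_lit 0, nat_lit 0, nat_lit 3533253, true, true⟩,
 nat_lit 0, nat_lit 0, nat_lit 5714, nat_lit 766, nat_lit 2959, nat_lit 2448, nat_lit 22, nat_lit 0, nat_lit 0, nat_lit 344, nat_lit 0, nat_lit 0, nat_lit 0, nat_lit 0, nat_lit 0, nat_lit 241250, nat_lit 0, nat_lit 0, [(nat_lit 26, [(nat_lit 4, nat_lit 173), (nat_lit 5, nat_lit 495)])],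
 ⟨p106_k26, nat_lit 0, nat_lit 0, nat_lit 169, nat_lit 0, nat_lit 0, [nat_lit 798314000, nat_lit 728596401, nat_lit 77394800], [], [nat_lit 23585717668, nat_lit 24192366444, nat_lit 27570314748, nat_lit 28211955948, nat_lit 22454894531, nat_lit 22956050045, nat_lit 25961164139, nat_lit 26439141809], nat_lit 0, nat_lit 0, nat_lit 0, nat_lit 0, nat_lit 0, nat_lit 0, [], [nat_lit 54, nat_lit 40, nat_lit 40, nat_lit 80, nat_lit 43, nat_lit 226, nat_lit 20, nat_lit 6]⟩, ⟨p106_k27, nat_lit 0, nat_lit 0, nat_lit 403, nat_lit 0, nat_lit 324565, [nat_lit 2075000000, nat_lit 3267544000, nat_lit 5444800000], [], [nat_lit 9488816904, nat_lit 9594375544, nat_lit 10541489036, nat_lit 10596062279, nat_lit 10661332095, nat_lit 10715315119, nat_lit 11626495426, nat_lit 11680147683], nat_lit 1271250, nat_lit 1271250, nat_lit 1271250, nat_lit 1271250, nat_lit 1271250, nat_lit 1271250, [nat_lit 1412500, nat_lit 1271250, nat_lit 1271250],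 [nat_lit 118, nat_lit 40, nat_lit 40, nat_lit 80, nat_lit 73, nat_lit 456, nat_lit 225, nat_lit 9]⟩,
 ⟨nat_lit 2738, nat_lit 3163, ⟨.ofNat (nat_lit 560952), .ofNat (nat_lit 707240), .ofNat (nat_lit 583107), .ofNat (nat_lit 729395), .ofNat (nat_lit 559060), .ofNat (nat_lit 700807), .ofNat (nat_lit 581477), .ofNat (nat_lit 723224)⟩, ⟨.ofNat (nat_lit 20000), .ofNat (nat_lit 184209), .ofNat (nat_lit 20000), .ofNat (nat_lit 200000), .ofNat (nat_lit 20000), .ofNat (nat_lit 188310), .ofNat (nat_lit 20000), .ofNat (nat_lit 200000)⟩⟩, [⟨nat_lit 22, nat_lit 93, nat_lit 100, nat_lit 66, nat_lit 173748635⟩]⟩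
noncomputable def p106_l91 : Lf2 := ⟨nat_lit 1, nat_lit 28, [nat_lit 157, nat_lit 5, nat_lit 5, nat_lit 20], false, nat_lit 8, nat_lit 80, nat_lit 0, nat_lit 336, zbN0,
 nat_lit 0, nat_lit 0, nat_lit 0, nat_lit 0, nat_lit 0, nat_lit 0, nat_lit 0, nat_lit 0, nat_lit 0, nat_lit 0, nat_lit 0, nat_lit 0, nat_lit 0, nat_lit 0, nat_lit 0, nat_lit 0, nat_lit 0, nat_lit 0, [],
 C1.Rw.none, C1.Rw.none,
 zbF0, []⟩
noncomputable def p106_l92 : Lf2 := ⟨nat_lit 0, nat_lit 28, [nat_lit 157, nat_lit 5, nat_lit 5, nat_lit 20], false, nat_lit 8, nat_lit 80, nat_lit 0, nat_lit 160, ⟨nat_lit 860, nat_lit 0, nat_lit 140, nat_lit 6, nat_lit 271, nat_lit 140, nat_lit 43, nat_lit 140, nat_lit 17067, nat_lit 247, nat_lit 280612, nat_lit 200, nat_lit 44969086, nat_lit 0, nat_lit 0, nat_lit 3616184, true, true⟩,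
 nat_lit 0, nat_lit 0, nat_lit 14654, nat_lit 0, nat_lit 3706, nat_lit 7008, nat_lit 445, nat_lit 0, nat_lit 0, nat_lit 946, nat_lit 0, nat_lit 0, nat_lit 0, nat_lit 0, nat_lit 0, nat_lit 140000, nat_lit 0, nat_lit 0, [(nat_lit 26, [(nat_lit 6, nat_lit 140)])],
 ⟨p106_k28, nat_lit 0, nat_lit 0, nat_lit 173, nat_lit 0, nat_lit 0, [nat_lit 995904001, nat_lit 2584044001, nat_lit 5290920000], [], [nat_lit 24957338994, nat_lit 25598025827, nat_lit 30358670667, nat_lit 31039841004, nat_lit 23554378598, nat_lit 24157368206, nat_lit 28490212334, nat_lit 29035790796], nat_lit 0, nat_lit 0, nat_lit 0, nat_lit 0, nat_lit 0, nat_lit 0, [], [nat_lit 54, nat_lit 40, nat_lit 40, nat_lit 80, nat_lit 43, nat_lit 226, nat_lit 20, nat_lit 6]⟩, ⟨p106_k29, nat_lit 0, nat_lit 0, nat_lit 535, nat_lit 0, nat_lit 393044, [nat_lit 5375000000, nat_lit 8464120000, nat_lit 14104000000], [], [nat_lit 30823597234, nat_lit 31034454826, nat_lit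 33906299539, nat_lit 33949969034, nat_lit 26600467136, nat_lit 26771864304, nat_lit 28867777657, nat_lit 28913488855], nat_lit 1271250, nat_lit 1271250, nat_lit 1271250, nat_lit 1271250, nat_lit 0, nat_lit 1100001, [nat_lit 1412500, nat_lit 1271250, nat_lit 1271250], [nat_lit 118, nat_lit 40, nat_lit 40, nat_lit 80, nat_lit 73, nat_lit 428, nat_lit 200, nat_lit 9]⟩,
 ⟨nat_lit 2738, nat_lit 3163, ⟨.ofNat (nat_lit 583107), .ofNat (nat_lit 753776), .ofNat (nat_lit 605257), .ofNat (nat_lit 775931), .ofNat (nat_lit 581477), .ofNat (nat_lit 746849), .ofNat (nat_lit 603890), .ofNat (nat_lit 769266)⟩, ⟨.ofNat (nat_lit 20000), .ofNat (nat_lit 184209), .ofNat (nat_lit 20000), .ofNat (nat_lit 200000), .ofNat (nat_lit 20000), .ofNat (nat_lit 188310), .ofNat (nat_lit 20000), .ofNat (nat_lit 200000)⟩⟩, [⟨nat_lit 3, nat_lit 100, nat_lit 65, nat_lit 50, nat_lit 6322197⟩]⟩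
noncomputable def p106_l93 : Lf2 := ⟨nat_lit 0, nat_lit 28, [nat_lit 157, nat_lit 5, nat_lit 5, nat_lit 20], false, nat_lit 8, nat_lit 80, nat_lit 160, nat_lit 336, ⟨nat_lit 322, nat_lit 203, nat_lit 475, nat_lit 6, nat_lit 271, nat_lit 678, nat_lit 43, nat_lit 475, nat_lit 17067, nat_lit 247, nat_lit 280612, nat_lit 200, nat_lit 44969086, nat_lit 20840987, nat_lit 1189927, nat_lit 3616184, true, true⟩,
 nat_lit 0, nat_lit 0, nat_lit 6096, nat_lit 0, nat_lit 3122, nat_lit 2915, nat_lit 0, nat_lit 0, nat_lit 0, nat_lit 334, nat_lit 0, nat_lit 0, nat_lit 0, nat_lit 0, nat_lit 0, nat_lit 271200, nat_lit 0, nat_lit 0, [(nat_lit 26, [(nat_lit 1, nat_lit 203), (nat_lit 5, nat_lit 475)])],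
 ⟨p106_k28, nat_lit 0, nat_lit 0, nat_lit 173, nat_lit 0, nat_lit 0, [nat_lit 821199601, nat_lit 976210601, nat_lit 690185200], [], [nat_lit 24530813598, nat_lit 25152061306, nat_lit 29012707264, nat_lit 29513015519, nat_lit 23279937643, nat_lit 23792282455, nat_lit 27521780821, nat_lit 27992095669], nat_lit 0, nat_lit 0, nat_lit 0, nat_lit 0, nat_lit 0, nat_lit 0, [], [nat_lit 54, nat_lit 40, nat_lit 40, nat_lit 80, nat_lit 43, nat_lit 226, nat_lit 20, nat_lit 6]⟩, ⟨p106_k29, nat_lit 0, nat_lit 0, nat_lit 425, nat_lit 0, nat_lit 393044, [nat_lit 2012500000, nat_lit 3169124000, nat_lit 5280800000], [], [nat_lit 9185754636, nat_lit 9239143466, nat_lit 10164885228, nat_lit 10159609472, nat_lit 9927451706, nat_lit 9979416200, nat_lit 10864190101, nat_lit 10858999294], nat_lit 1271250, nat_lit 1271250, nat_lit 1271250, nat_lit 1271250, nat_lit 1100001, nat_lit 2607000, [nat_lit 1412500, nat_lit 1271250, nat_lit 1271250],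 [nat_lit 118, nat_lit 40, nat_lit 40, nat_lit 80, nat_lit 73, nat_lit 483, nat_lit 250, nat_lit 10]⟩,
 ⟨nat_lit 2738, nat_lit 3163, ⟨.ofNat (nat_lit 583107), .ofNat (nat_lit 753776), .ofNat (nat_lit 605257), .ofNat (nat_lit 775931), .ofNat (nat_lit 581477), .ofNat (nat_lit 746849), .ofNat (nat_lit 603890), .ofNat (nat_lit 769266)⟩, ⟨.ofNat (nat_lit 20000), .ofNat (nat_lit 184209), .ofNat (nat_lit 20000), .ofNat (nat_lit 200000), .ofNat (nat_lit 20000), .ofNat (nat_lit 188310), .ofNat (nat_lit 20000), .ofNat (nat_lit 200000)⟩⟩, [⟨nat_lit 22, nat_lit 90, nat_lit 100, nat_lit 70, nat_lit 149808208⟩]⟩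
noncomputable def p106_l94 : Lf2 := ⟨nat_lit 1, nat_lit 30, [nat_lit 15, nat_lit 5, nat_lit 5, nat_lit 20], false, nat_lit 8, nat_lit 80, nat_lit 0, nat_lit 336, zbN0,
 nat_lit 0, nat_lit 0, nat_lit 0, nat_lit 0, nat_lit 0, nat_lit 0, nat_lit 0, nat_lit 0, nat_lit 0, nat_lit 0, nat_lit 0, nat_lit 0, nat_lit 0, nat_lit 0, nat_lit 0, nat_lit 0, nat_lit 0, nat_lit 0, [],
 C1.Rw.none, C1.Rw.none,
 zbF0, []⟩
noncomputable def p106_l95 : Lf2 := ⟨nat_lit 0, nat_lit 30, [nat_lit 15, nat_lit 5, nat_lit 5, nat_lit 20], false, nat_lit 12, nat_lit 80, nat_lit 0, nat_lit 336, ⟨nat_lit 10, nat_lit 171, nat_lit 819, nat_lit 6, nat_lit 239, nat_lit 990, nat_lit 45, nat_lit 819, nat_lit 19267, nat_lit 249, nat_lit 9828, nat_lit 200, nat_lit 48159651, nat_lit 17509004, nat_lit 1331345, nat_lit 3438911, true, true⟩,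
 nat_lit 0, nat_lit 0, nat_lit 300, nat_lit 6213, nat_lit 2231, nat_lit 128, nat_lit 0, nat_lit 0, nat_lit 0, nat_lit 6, nat_lit 0, nat_lit 0, nat_lit 0, nat_lit 0, nat_lit 67, nat_lit 247500, nat_lit 0, nat_lit 0, [(nat_lit 26, [(nat_lit 0, nat_lit 171), (nat_lit 4, nat_lit 819)])],
 ⟨p106_k21, nat_lit 0, nat_lit 0, nat_lit 167, nat_lit 0, nat_lit 0, [nat_lit 1043514000, nat_lit 569264401, nat_lit 10573200], [], [nat_lit 22614293506, nat_lit 23133848848, nat_lit 23884512073, nat_lit 24369414157, nat_lit 22198641516, nat_lit 22694802356, nat_lit 23428048012, nat_lit 23911620104], nat_lit 0, nat_lit 0, nat_lit 0, nat_lit 0, nat_lit 0, nat_lit 0, [], [nat_lit 57, nat_lit 40, nat_lit 40, nat_lit 80, nat_lit 7, nat_lit 226, nat_lit 20, nat_lit 6]⟩, ⟨p106_k20, nat_lit 0, nat_lit 0, nat_lit 706, nat_lit 0, nat_lit 667883, [nat_lit 62500000, nat_lit 118720000, nat_lit 164000000], [], [nat_lit 447604768, nat_lit 446817016,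 nat_lit 452255824, nat_lit 451566728, nat_lit 336479028, nat_lit 335402847, nat_lit 342720332, nat_lit 341665956], nat_lit 1271250, nat_lit 1271250, nat_lit 1271250, nat_lit 1271250, nat_lit 0, nat_lit 2373000, [nat_lit 1412500, nat_lit 1271250, nat_lit 1271250], [nat_lit 104, nat_lit 40, nat_lit 40, nat_lit 80, nat_lit 76, nat_lit 456, nat_lit 225, nat_lit 10]⟩,
 ⟨nat_lit 2236, nat_lit 2739, ⟨.ofNat (nat_lit 559060), .ofNat (nat_lit 618121), .ofNat (nat_lit 581477), .ofNat (nat_lit 640539), .ofNat (nat_lit 557014), .ofNat (nat_lit 614030), .ofNat (nat_lit 579788), .ofNat (nat_lit 636804)⟩, ⟨.ofNat (nat_lit 30000), .ofNat (nat_lit 188310), .ofNat (nat_lit 30000), .ofNat (nat_lit 200000), .ofNat (nat_lit 30000), .ofNat (nat_lit 192306), .ofNat (nat_lit 30000), .ofNat (nat_lit 200000)⟩⟩, [⟨nat_lit 3, nat_lit 100, nat_lit 56, nat_lit 60, nat_lit 252883053⟩, ⟨nat_lit 22, nat_lit 100, nat_lit 97, nat_lit 67, nat_lit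 377585⟩]⟩
noncomputable def p106_l96 : Lf2 := ⟨nat_lit 0, nat_lit 25, [nat_lit 44, nat_lit 5, nat_lit 5, nat_lit 20], false, nat_lit 12, nat_lit 80, nat_lit 0, nat_lit 336, ⟨nat_lit 151, nat_lit 0, nat_lit 849, nat_lit 6, nat_lit 249, nat_lit 849, nat_lit 45, nat_lit 849, nat_lit 19267, nat_lit 249, nat_lit 54662, nat_lit 200, nat_lit 47195520, nat_lit 0, nat_lit 0, nat_lit 3506343, true, true⟩,
 nat_lit 0, nat_lit 0, nat_lit 2987, nat_lit 0, nat_lit 2225, nat_lit 1428, nat_lit 53, nat_lit 0, nat_lit 0, nat_lit 152, nat_lit 0, nat_lit 0, nat_lit 0, nat_lit 0, nat_lit 41, nat_lit 212250, nat_lit 0, nat_lit 0, [(nat_lit 26, [(nat_lit 4, nat_lit 849)])],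
 ⟨p106_k30, nat_lit 0, nat_lit 0, nat_lit 158, nat_lit 0, nat_lit 0, [nat_lit 923710001, nat_lit 699601201, nat_lit 3200400], [], [nat_lit 22512077728, nat_lit 22771600097, nat_lit 23781748035, nat_lit 24029023449, nat_lit 22100266752, nat_lit 22348108252, nat_lit 23329158352, nat_lit 23566017404], nat_lit 0, nat_lit 0, nat_lit 0, nat_lit 0, nat_lit 0, nat_lit 0, [], [nat_lit 54, nat_lit 40, nat_lit 40, nat_lit 80, nat_lit 43, nat_lit 226, nat_lit 20, nat_lit 6]⟩, ⟨p106_k29, nat_lit 0, nat_lit 0, nat_lit 632, nat_lit 0, nat_lit 504647, [nat_lit 943750000, nat_lit 1486142000, nat_lit 2476400000], [], [nat_lit 5595643908, nat_lit 5597041332, nat_lit 5679366658, nat_lit 5707151744, nat_lit 4739539094, nat_lit 4718707473, nat_lit 4765941305, nat_lit 4760935052], nat_lit 1271250, nat_lit 1271250, nat_lit 1271250, nat_lit 1271250, nat_lit 0, nat_lit 2373000, [nat_lit 1412500, nat_lit 1271250, nat_lit 1271250], [nat_lit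 118, nat_lit 40, nat_lit 40, nat_lit 80, nat_lit 73, nat_lit 456, nat_lit 225, nat_lit 9]⟩,
 ⟨nat_lit 2500, nat_lit 2739, ⟨.ofNat (nat_lit 581477), .ofNat (nat_lit 640539), .ofNat (nat_lit 603894), .ofNat (nat_lit 662956), .ofNat (nat_lit 580644), .ofNat (nat_lit 638708), .ofNat (nat_lit 603223), .ofNat (nat_lit 661289)⟩, ⟨.ofNat (nat_lit 30000), .ofNat (nat_lit 188310), .ofNat (nat_lit 30000), .ofNat (nat_lit 200000), .ofNat (nat_lit 30000), .ofNat (nat_lit 190321), .ofNat (nat_lit 30000), .ofNat (nat_lit 200000)⟩⟩, [⟨nat_lit 3, nat_lit 100, nat_lit 61, nat_lit 53, nat_lit 141204743⟩, ⟨nat_lit 22, nat_lit 100, nat_lit 97, nat_lit 67, nat_lit 21857309⟩]⟩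
noncomputable def p106_l97 : Lf2 := ⟨nat_lit 0, nat_lit 25, [nat_lit 44, nat_lit 5, nat_lit 5, nat_lit 20], false, nat_lit 16, nat_lit 80, nat_lit 0, nat_lit 336, ⟨nat_lit 111, nat_lit 238, nat_lit 651, nat_lit 6, nat_lit 248, nat_lit 889, nat_lit 47, nat_lit 651, nat_lit 20417, nat_lit 250, nat_lit 51328, nat_lit 200, nat_lit 47165199, nat_lit 18420142, nat_lit 1414659, nat_lit 3533169, true, true⟩,
 nat_lit 0, nat_lit 0, nat_lit 2198, nat_lit 0, nat_lit 2482, nat_lit 1051, nat_lit 0, nat_lit 0, nat_lit 0, nat_lit 112, nat_lit 0, nat_lit 0, nat_lit 0, nat_lit 0, nat_lit 2, nat_lit 222250, nat_lit 0, nat_lit 0, [(nat_lit 26, [(nat_lit 0, nat_lit 238), (nat_lit 4, nat_lit 651)])],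
 ⟨p106_k31, nat_lit 0, nat_lit 0, nat_lit 138, nat_lit 0, nat_lit 0, [nat_lit 768258801, nat_lit 483535601, nat_lit 26788399], [], [nat_lit 23198077185, nat_lit 23485753573, nat_lit 24556546097, nat_lit 24849969106, nat_lit 22669905466, nat_lit 22944779237, nat_lit 23985966028, nat_lit 24242002557], nat_lit 0, nat_lit 0, nat_lit 0, nat_lit 0, nat_lit 0, nat_lit 0, [], [nat_lit 20, nat_lit 40, nat_lit 40, nat_lit 80, nat_lit 16, nat_lit 226, nat_lit 20, nat_lit 7]⟩, ⟨p106_k29, nat_lit 0, nat_lit 0, nat_lit 679, nat_lit 0, nat_lit 634916, [nat_lit 693750000, nat_lit 1092462000, nat_lit 1820400000], [], [nat_lit 4106960522, nat_lit 4107937544, nat_lit 4170640616, nat_lit 4193267692, nat_lit 3482659650, nat_lit 3463391521, nat_lit 3498103601, nat_lit 3495979392], nat_lit 1271250, nat_lit 1271250, nat_lit 1271250, nat_lit 1271250, nat_lit 0, nat_lit 2373000, [nat_lit 1412500, nat_lit 1271250, nat_lit 1271250], [nat_lit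 118, nat_lit 40, nat_lit 40, nat_lit 80, nat_lit 73, nat_lit 456, nat_lit 225, nat_lit 9]⟩,
 ⟨nat_lit 2236, nat_lit 2500, ⟨.ofNat (nat_lit 580644), .ofNat (nat_lit 638708), .ofNat (nat_lit 603223), .ofNat (nat_lit 661289), .ofNat (nat_lit 579788), .ofNat (nat_lit 636804), .ofNat (nat_lit 602562), .ofNat (nat_lit 659578)⟩, ⟨.ofNat (nat_lit 40000), .ofNat (nat_lit 190321), .ofNat (nat_lit 40000), .ofNat (nat_lit 200000), .ofNat (nat_lit 40000), .ofNat (nat_lit 192306), .ofNat (nat_lit 40000), .ofNat (nat_lit 200000)⟩⟩, [⟨nat_lit 3, nat_lit 100, nat_lit 55, nat_lit 58, nat_lit 203167506⟩, ⟨nat_lit 22, nat_lit 100, nat_lit 96, nat_lit 68, nat_lit 15847388⟩]⟩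
noncomputable def p106_l98 : Lf2 := ⟨nat_lit 0, nat_lit 30, [nat_lit 15, nat_lit 5, nat_lit 5, nat_lit 20], false, nat_lit 20, nat_lit 80, nat_lit 0, nat_lit 336, ⟨nat_lit 355, nat_lit 0, nat_lit 645, nat_lit 6, nat_lit 248, nat_lit 645, nat_lit 50, nat_lit 645, nat_lit 22817, nat_lit 252, nat_lit 54662, nat_lit 200, nat_lit 47028571, nat_lit 0, nat_lit 0, nat_lit 3574569, true, true⟩,
 nat_lit 0, nat_lit 0, nat_lit 6546, nat_lit 0, nat_lit 2328, nat_lit 3130, nat_lit 204, nat_lit 0, nat_lit 0, nat_lit 339, nat_lit 0, nat_lit 0, nat_lit 0, nat_lit 0, nat_lit 0, nat_lit 161250, nat_lit 0, nat_lit 0, [(nat_lit 26, [(nat_lit 4, nat_lit 645)])],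
 ⟨p106_k32, nat_lit 0, nat_lit 0, nat_lit 156, nat_lit 0, nat_lit 0, [nat_lit 802550000, nat_lit 946326001, nat_lit 1169442000], [], [nat_lit 22678603498, nat_lit 23203598972, nat_lit 23952820728, nat_lit 24448876124, nat_lit 22268693225, nat_lit 22760946728, nat_lit 23494791456, nat_lit 23970616025], nat_lit 0, nat_lit 0, nat_lit 0, nat_lit 0, nat_lit 0, nat_lit 0, [], [nat_lit 54, nat_lit 40, nat_lit 40, nat_lit 80, nat_lit 43, nat_lit 226, nat_lit 20, nat_lit 6]⟩, ⟨p106_k29, nat_lit 0, nat_lit 0, nat_lit 530, nat_lit 0, nat_lit 381156, [nat_lit 2218750000, nat_lit 3493910000, nat_lit 5822000000], [], [nat_lit 13358718125, nat_lit 13440221375, nat_lit 13701803205, nat_lit 13758913115, nat_lit 11386599296, nat_lit 11367869107, nat_lit 11484453471, nat_lit 11503362691], nat_lit 1271250, nat_lit 1271250, nat_lit 1271250, nat_lit 1271250, nat_lit 0, nat_lit 2373000, [nat_lit 1412500, nat_lit 1271250, nat_lit 1271250],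 [nat_lit 118, nat_lit 40, nat_lit 40, nat_lit 80, nat_lit 73, nat_lit 456, nat_lit 225, nat_lit 9]⟩,
 ⟨nat_lit 2236, nat_lit 2739, ⟨.ofNat (nat_lit 581477), .ofNat (nat_lit 640539), .ofNat (nat_lit 603890), .ofNat (nat_lit 662956), .ofNat (nat_lit 579788), .ofNat (nat_lit 636804), .ofNat (nat_lit 602558), .ofNat (nat_lit 659578)⟩, ⟨.ofNat (nat_lit 50000), .ofNat (nat_lit 200000), .ofNat (nat_lit 50000), .ofNat (nat_lit 200000), .ofNat (nat_lit 50000), .ofNat (nat_lit 200000), .ofNat (nat_lit 50000), .ofNat (nat_lit 200000)⟩⟩, [⟨nat_lit 3, nat_lit 100, nat_lit 48, nat_lit 71, nat_lit 56793915⟩, ⟨nat_lit 22, nat_lit 100, nat_lit 96, nat_lit 69, nat_lit 48826266⟩]⟩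
noncomputable def p106_l99 : Lf2 := ⟨nat_lit 0, nat_lit 25, [nat_lit 44, nat_lit 5, nat_lit 5, nat_lit 20], false, nat_lit 12, nat_lit 40, nat_lit 0, nat_lit 248, ⟨nat_lit 195, nat_lit 805, nat_lit 0, nat_lit 7, nat_lit 264, nat_lit 805, nat_lit 26, nat_lit 0, nat_lit 0, nat_lit 0, nat_lit 0, nat_lit 0, nat_lit 46152829, nat_lit 20274714, nat_lit 572457, nat_lit 3355592, true, true⟩,
 nat_lit 0, nat_lit 0, nat_lit 4544, nat_lit 0, nat_lit 2472, nat_lit 1947, nat_lit 356, nat_lit 0, nat_lit 0, nat_lit 186, nat_lit 0, nat_lit 0, nat_lit 0, nat_lit 0, nat_lit 0, nat_lit 201250, nat_lit 0, nat_lit 0, [(nat_lit 26, [(nat_lit 0, nat_lit 805)])],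
 ⟨p106_k30, nat_lit 0, nat_lit 0, nat_lit 165, nat_lit 0, nat_lit 0, [nat_lit 799218001, nat_lit 1741874000, nat_lit 3576564000], [], [nat_lit 24879673244, nat_lit 25017265871, nat_lit 26357676134, nat_lit 26487911178, nat_lit 24693120150, nat_lit 24828146768, nat_lit 26147421700, nat_lit 26286827080], nat_lit 0, nat_lit 0, nat_lit 0, nat_lit 0, nat_lit 0, nat_lit 0, [], [nat_lit 54, nat_lit 40, nat_lit 40, nat_lit 80, nat_lit 43, nat_lit 215, nat_lit 10, nat_lit 6]⟩, ⟨p106_k27, nat_lit 0, nat_lit 0, nat_lit 537, nat_lit 0, nat_lit 403694, [nat_lit 1218750000, nat_lit 1919190000, nat_lit 3198000000], [], [nat_lit 8115003306, nat_lit 8102499378, nat_lit 8296787039, nat_lit 8271885671, nat_lit 6467472100, nat_lit 6469776530, nat_lit 6664723501, nat_lit 6654511956], nat_lit 1271250, nat_lit 1271250, nat_lit 1271250, nat_lit 1271250, nat_lit 0, nat_lit 1751500, [nat_lit 1412500, nat_lit 1271250, nat_lit 1271250],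 [nat_lit 118, nat_lit 40, nat_lit 40, nat_lit 80, nat_lit 73, nat_lit 428, nat_lit 200, nat_lit 9]⟩,
 ⟨nat_lit 2598, nat_lit 2739, ⟨.ofNat (nat_lit 618121), .ofNat (nat_lit 683089), .ofNat (nat_lit 640539), .ofNat (nat_lit 705506), .ofNat (nat_lit 616936), .ofNat (nat_lit 681251), .ofNat (nat_lit 639448), .ofNat (nat_lit 703763)⟩, ⟨.ofNat (nat_lit 30000), .ofNat (nat_lit 100000), .ofNat (nat_lit 30000), .ofNat (nat_lit 100000), .ofNat (nat_lit 30000), .ofNat (nat_lit 100000), .ofNat (nat_lit 30000), .ofNat (nat_lit 100000)⟩⟩, [⟨nat_lit 13, nat_lit 52, nat_lit 83, nat_lit 100, nat_lit 164182711⟩, ⟨nat_lit 3, nat_lit 100, nat_lit 62, nat_lit 52, nat_lit 115692568⟩]⟩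
noncomputable def p106_l100 : Lf2 := ⟨nat_lit 0, nat_lit 25, [nat_lit 44, nat_lit 5, nat_lit 5, nat_lit 20], false, nat_lit 12, nat_lit 40, nat_lit 0, nat_lit 248, ⟨nat_lit 167, nat_lit 833, nat_lit 0, nat_lit 7, nat_lit 263, nat_lit 833, nat_lit 26, nat_lit 0, nat_lit 0, nat_lit 0, nat_lit 0, nat_lit 0, nat_lit 46327404, nat_lit 20099178, nat_lit 573418, nat_lit 3345058, true, true⟩,
 nat_lit 0, nat_lit 0, nat_lit 3918, nat_lit 0, nat_lit 2374, nat_lit 1679, nat_lit 340, nat_lit 0, nat_lit 0, nat_lit 160, nat_lit 0, nat_lit 0, nat_lit 0, nat_lit 0, nat_lit 0, nat_lit 208250, nat_lit 0, nat_lit 0, [(nat_lit 26, [(nat_lit 0, nat_lit 833)])],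
 ⟨p106_k33, nat_lit 0, nat_lit 0, nat_lit 165, nat_lit 0, nat_lit 0, [nat_lit 794390800, nat_lit 1688304400, nat_lit 3423818400], [], [nat_lit 24779078520, nat_lit 24869524932, nat_lit 26091301403, nat_lit 26175406679, nat_lit 24613469806, nat_lit 24702241883, nat_lit 25905021618, nat_lit 25989036932], nat_lit 0, nat_lit 0, nat_lit 0, nat_lit 0, nat_lit 0, nat_lit 0, [], [nat_lit 54, nat_lit 40, nat_lit 40, nat_lit 80, nat_lit 43, nat_lit 215, nat_lit 10, nat_lit 6]⟩, ⟨p106_k27, nat_lit 0, nat_lit 0, nat_lit 616, nat_lit 0, nat_lit 466401, [nat_lit 1043750000, nat_lit 1643614000, nat_lit 2738800000], [], [nat_lit 6921686120, nat_lit 6910472816, nat_lit 7058539776, nat_lit 7037677540, nat_lit 5502586812, nat_lit 5504151419, nat_lit 5652099396, nat_lit 5643907639], nat_lit 1271250, nat_lit 1271250, nat_lit 1271250, nat_lit 1271250, nat_lit 0, nat_lit 1751500, [nat_lit 1412500, nat_lit 1271250, nat_lit 1271250],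 [nat_lit 118, nat_lit 40, nat_lit 40, nat_lit 80, nat_lit 73, nat_lit 428, nat_lit 200, nat_lit 9]⟩,
 ⟨nat_lit 2500, nat_lit 2599, ⟨.ofNat (nat_lit 616936), .ofNat (nat_lit 675404), .ofNat (nat_lit 639448), .ofNat (nat_lit 697916), .ofNat (nat_lit 616128), .ofNat (nat_lit 674192), .ofNat (nat_lit 638708), .ofNat (nat_lit 696773)⟩, ⟨.ofNat (nat_lit 30000), .ofNat (nat_lit 100000), .ofNat (nat_lit 30000), .ofNat (nat_lit 100000), .ofNat (nat_lit 30000), .ofNat (nat_lit 100000), .ofNat (nat_lit 30000), .ofNat (nat_lit 100000)⟩⟩, [⟨nat_lit 13, nat_lit 50, nat_lit 81, nat_lit 100, nat_lit 179656989⟩, ⟨nat_lit 3, nat_lit 100, nat_lit 59, nat_lit 55, nat_lit 126353769⟩]⟩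
noncomputable def p106_l101 : Lf2 := ⟨nat_lit 1, nat_lit 25, [nat_lit 44, nat_lit 5, nat_lit 5, nat_lit 20], false, nat_lit 12, nat_lit 40, nat_lit 0, nat_lit 248, zbN0,
 nat_lit 0, nat_lit 0, nat_lit 0, nat_lit 0, nat_lit 0, nat_lit 0, nat_lit 0, nat_lit 0, nat_lit 0, nat_lit 0, nat_lit 0, nat_lit 0, nat_lit 0, nat_lit 0, nat_lit 0, nat_lit 0, nat_lit 0, nat_lit 0, [],
 C1.Rw.none, C1.Rw.none,
 zbF0, []⟩
noncomputable def p106_l102 : Lf2 := ⟨nat_lit 0, nat_lit 25, [nat_lit 44, nat_lit 5, nat_lit 5, nat_lit 20], false, nat_lit 16, nat_lit 40, nat_lit 0, nat_lit 248, ⟨nat_lit 127, nat_lit 873, nat_lit 0, nat_lit 7, nat_lit 261, nat_lit 873, nat_lit 28, nat_lit 0, nat_lit 0, nat_lit 0, nat_lit 0, nat_lit 0, nat_lit 46466843, nat_lit 19891311, nat_lit 641846, nat_lit 3359507, true, true⟩,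
 nat_lit 0, nat_lit 0, nat_lit 2984, nat_lit 0, nat_lit 2695, nat_lit 1278, nat_lit 196, nat_lit 0, nat_lit 0, nat_lit 122, nat_lit 0, nat_lit 0, nat_lit 0, nat_lit 0, nat_lit 0, nat_lit 218250, nat_lit 0, nat_lit 0, [(nat_lit 26, [(nat_lit 0, nat_lit 873)])],
 ⟨p106_k31, nat_lit 0, nat_lit 0, nat_lit 145, nat_lit 0, nat_lit 0, [nat_lit 787494800, nat_lit 1611776400, nat_lit 2618320000], [], [nat_lit 25473004791, nat_lit 25723927333, nat_lit 26756303632, nat_lit 26990452280, nat_lit 25273314305, nat_lit 25520043090, nat_lit 26538375942, nat_lit 26768759827], nat_lit 0, nat_lit 0, nat_lit 0, nat_lit 0, nat_lit 0, nat_lit 0, [], [nat_lit 20, nat_lit 40, nat_lit 40, nat_lit 80, nat_lit 16, nat_lit 215, nat_lit 10, nat_lit 7]⟩, ⟨p106_k27, nat_lit 0, nat_lit 0, nat_lit 675, nat_lit 0, nat_lit 631778, [nat_lit 793750000, nat_lit 1249934000, nat_lit 2082800000], [], [nat_lit 5258112102, nat_lit 5249534192, nat_lit 5351777982,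 nat_lit 5336591063, nat_lit 4180983549, nat_lit 4182132551, nat_lit 4283323567, nat_lit 4277789934], nat_lit 1271250, nat_lit 1271250, nat_lit 1271250, nat_lit 1271250, nat_lit 0, nat_lit 1751500, [nat_lit 1412500, nat_lit 1271250, nat_lit 1271250], [nat_lit 118, nat_lit 40, nat_lit 40, nat_lit 80, nat_lit 73, nat_lit 428, nat_lit 200, nat_lit 9]⟩,
 ⟨nat_lit 2236, nat_lit 2500, ⟨.ofNat (nat_lit 616128), .ofNat (nat_lit 668386), .ofNat (nat_lit 638708), .ofNat (nat_lit 690966), .ofNat (nat_lit 614030), .ofNat (nat_lit 665344), .ofNat (nat_lit 636804), .ofNat (nat_lit 688118)⟩, ⟨.ofNat (nat_lit 40000), .ofNat (nat_lit 100000), .ofNat (nat_lit 40000), .ofNat (nat_lit 100000), .ofNat (nat_lit 40000), .ofNat (nat_lit 100000), .ofNat (nat_lit 40000), .ofNat (nat_lit 100000)⟩⟩, [⟨nat_lit 13, nat_lit 46, nat_lit 86, nat_lit 100, nat_lit 259814079⟩, ⟨nat_lit 3, nat_lit 100, nat_lit 55, nat_lit 58, nat_lit 170922617⟩]⟩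
noncomputable def p106_l103 : Lf2 := ⟨nat_lit 0, nat_lit 25, [nat_lit 44, nat_lit 5, nat_lit 5, nat_lit 20], false, nat_lit 40, nat_lit 80, nat_lit 0, nat_lit 300, ⟨nat_lit 176, nat_lit 581, nat_lit 243, nat_lit 7, nat_lit 264, nat_lit 824, nat_lit 59, nat_lit 243, nat_lit 32267, nat_lit 259, nat_lit 139762, nat_lit 200, nat_lit 45061114, nat_lit 19997053, nat_lit 1941833, nat_lit 3797204, true, true⟩,
 nat_lit 0, nat_lit 0, nat_lit 4116, nat_lit 0, nat_lit 2367, nat_lit 1764, nat_lit 261, nat_lit 0, nat_lit 0, nat_lit 145, nat_lit 0, nat_lit 0, nat_lit 0, nat_lit 0, nat_lit 0, nat_lit 206000, nat_lit 0, nat_lit 0, [(nat_lit 26, [(nat_lit 0, nat_lit 581), (nat_lit 4, nat_lit 243)])],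
 ⟨p106_k30, nat_lit 0, nat_lit 0, nat_lit 150, nat_lit 0, nat_lit 0, [nat_lit 786805601, nat_lit 1290479200, nat_lit 2237211600], [], [nat_lit 24179712962, nat_lit 24406205051, nat_lit 25645105661, nat_lit 25858621764, nat_lit 23902994816, nat_lit 24123521044, nat_lit 25335779104, nat_lit 25560349997], nat_lit 0, nat_lit 0, nat_lit 0, nat_lit 0, nat_lit 0, nat_lit 0, [], [nat_lit 54, nat_lit 40, nat_lit 40, nat_lit 80, nat_lit 43, nat_lit 226, nat_lit 20, nat_lit 6]⟩, ⟨p106_k27, nat_lit 0, nat_lit 0, nat_lit 617, nat_lit 0, nat_lit 471350, [nat_lit 1100000000, nat_lit 1732192000, nat_lit 2886400000], [], [nat_lit 7573428501, nat_lit 7561850221, nat_lit 7737512063, nat_lit 7720618185, nat_lit 5977064169, nat_lit 5951292792, nat_lit 6107443186, nat_lit 6106352377], nat_lit 1271250, nat_lit 1271250, nat_lit 1271250, nat_lit 1271250, nat_lit 0, nat_lit 2118750, [nat_lit 1412500, nat_lit 1271250, nat_lit 1271250],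 [nat_lit 118, nat_lit 40, nat_lit 40, nat_lit 80, nat_lit 73, nat_lit 456, nat_lit 225, nat_lit 9]⟩,
 ⟨nat_lit 2500, nat_lit 2739, ⟨.ofNat (nat_lit 618121), .ofNat (nat_lit 683089), .ofNat (nat_lit 640539), .ofNat (nat_lit 705506), .ofNat (nat_lit 616128), .ofNat (nat_lit 679999), .ofNat (nat_lit 638708), .ofNat (nat_lit 702579)⟩, ⟨.ofNat (nat_lit 100000), .ofNat (nat_lit 188310), .ofNat (nat_lit 100000), .ofNat (nat_lit 200000), .ofNat (nat_lit 100000), .ofNat (nat_lit 190321), .ofNat (nat_lit 100000), .ofNat (nat_lit 200000)⟩⟩, [⟨nat_lit 13, nat_lit 51, nat_lit 84, nat_lit 100, nat_lit 206678012⟩, ⟨nat_lit 22, nat_lit 89, nat_lit 100, nat_lit 74, nat_lit 7501675⟩]⟩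
noncomputable def p106_l104 : Lf2 := ⟨nat_lit 0, nat_lit 25, [nat_lit 44, nat_lit 5, nat_lit 5, nat_lit 20], true, nat_lit 40, nat_lit 80, nat_lit 0, nat_lit 300, ⟨nat_lit 0, nat_lit 756, nat_lit 244, nat_lit 7, nat_lit 261, nat_lit 1000, nat_lit 59, nat_lit 244, nat_lit 32267, nat_lit 259, nat_lit 110682, nat_lit 200, nat_lit 45386497, nat_lit 19654896, nat_lit 1958607, nat_lit 3780499, true, true⟩,
 nat_lit 0, nat_lit 0, nat_lit 0, nat_lit 7474, nat_lit 2525, nat_lit 0, nat_lit 92, nat_lit 0, nat_lit 0, nat_lit 0, nat_lit 0, nat_lit 0, nat_lit 0, nat_lit 0, nat_lit 0, nat_lit 250000, nat_lit 0, nat_lit 0, [(nat_lit 26, [(nat_lit 0, nat_lit 756), (nat_lit 4, nat_lit 244)])],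
 ⟨p106_k31, nat_lit 0, nat_lit 0, nat_lit 131, nat_lit 0, nat_lit 0, [nat_lit 756425600, nat_lit 948404267, nat_lit 1121710400], [], [nat_lit 24514356767, nat_lit 24760497567, nat_lit 25847591868, nat_lit 26107546185, nat_lit 24189611117, nat_lit 24429007167, nat_lit 25444744228, nat_lit 25685134201], nat_lit 0, nat_lit 0, nat_lit 0, nat_lit 0, nat_lit 0, nat_lit 0, [], [nat_lit 20, nat_lit 40, nat_lit 40, nat_lit 80, nat_lit 16, nat_lit 226, nat_lit 20, nat_lit 7]⟩, C1.Rw.none,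
 ⟨nat_lit 2236, nat_lit 2500, ⟨.ofNat (nat_lit 616128), .ofNat (nat_lit 668386), .ofNat (nat_lit 638708), .ofNat (nat_lit 690966), .ofNat (nat_lit 614030), .ofNat (nat_lit 665344), .ofNat (nat_lit 636804), .ofNat (nat_lit 688118)⟩, ⟨.ofNat (nat_lit 100000), .ofNat (nat_lit 190321), .ofNat (nat_lit 100000), .ofNat (nat_lit 200000), .ofNat (nat_lit 100000), .ofNat (nat_lit 192306), .ofNat (nat_lit 100000), .ofNat (nat_lit 200000)⟩⟩, [⟨nat_lit 13, nat_lit 46, nat_lit 86, nat_lit 100, nat_lit 423768104⟩]⟩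
noncomputable def p106_l105 : Lf2 := ⟨nat_lit 1, nat_lit 25, [nat_lit 44, nat_lit 5, nat_lit 5, nat_lit 20], false, nat_lit 12, nat_lit 80, nat_lit 0, nat_lit 300, zbN0,
 nat_lit 0, nat_lit 0, nat_lit 0, nat_lit 0, nat_lit 0, nat_lit 0, nat_lit 0, nat_lit 0, nat_lit 0, nat_lit 0, nat_lit 0, nat_lit 0, nat_lit 0, nat_lit 0, nat_lit 0, nat_lit 0, nat_lit 0, nat_lit 0, [],
 C1.Rw.none, C1.Rw.none,
 zbF0, []⟩
noncomputable def p106_l106 : Lf2 := ⟨nat_lit 0, nat_lit 26, [nat_lit 108, nat_lit 5, nat_lit 5, nat_lit 20], false, nat_lit 20, nat_lit 80, nat_lit 0, nat_lit 300, ⟨nat_lit 1000, nat_lit 0, nat_lit 0, nat_lit 0, nat_lit 0, nat_lit 0, nat_lit 0, nat_lit 0, nat_lit 0, nat_lit 0, nat_lit 0, nat_lit 0, nat_lit 0, nat_lit 0, nat_lit 0, nat_lit 0, false, false⟩,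
 nat_lit 0, nat_lit 0, nat_lit 26233, nat_lit 0, nat_lit 3481, nat_lit 11242, nat_lit 621, nat_lit 0, nat_lit 0, nat_lit 1133, nat_lit 0, nat_lit 0, nat_lit 0, nat_lit 0, nat_lit 0, nat_lit 0, nat_lit 0, nat_lit 0, [],
 ⟨p106_k34, nat_lit 0, nat_lit 0, nat_lit 161, nat_lit 0, nat_lit 0, [nat_lit 938000000, nat_lit 3282000000, nat_lit 7968000000], [], [nat_lit 26102487088, nat_lit 26497794156, nat_lit 28430887867, nat_lit 28785364300, nat_lit 24657405873, nat_lit 24918683584, nat_lit 26524602778, nat_lit 26842818729], nat_lit 0, nat_lit 0, nat_lit 0, nat_lit 0, nat_lit 0, nat_lit 0, [], [nat_lit 54, nat_lit 40, nat_lit 40, nat_lit 80, nat_lit 43, nat_lit 226, nat_lit 20, nat_lit 6]⟩, ⟨p106_k27, nat_lit 0, nat_lit 0, nat_lit 452, nat_lit 0, nat_lit 169064, [nat_lit 6250000000, nat_lit 9842000000, nat_lit 16400000000], [], [nat_lit 38586481721, nat_lit 38960927649, nat_lit 41520864287, nat_lit 41744208443, nat_lit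 29229701929, nat_lit 29274508314, nat_lit 30840485424, nat_lit 30784527601], nat_lit 1271250, nat_lit 1271250, nat_lit 1271250, nat_lit 1271250, nat_lit 0, nat_lit 2118750, [nat_lit 1412500, nat_lit 1271250, nat_lit 1271250], [nat_lit 118, nat_lit 40, nat_lit 40, nat_lit 80, nat_lit 73, nat_lit 456, nat_lit 225, nat_lit 9]⟩,
 zbF0, []⟩
noncomputable def p106_l107 : Lf2 := ⟨nat_lit 0, nat_lit 26, [nat_lit 108, nat_lit 5, nat_lit 5, nat_lit 20], false, nat_lit 28, nat_lit 80, nat_lit 0, nat_lit 300, ⟨nat_lit 269, nat_lit 731, nat_lit 0, nat_lit 7, nat_lit 261, nat_lit 731, nat_lit 54, nat_lit 0, nat_lit 0, nat_lit 0, nat_lit 0, nat_lit 0, nat_lit 45588021, nat_lit 19700759, nat_lit 1711220, nat_lit 3711190, true, true⟩,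
 nat_lit 0, nat_lit 0, nat_lit 6359, nat_lit 0, nat_lit 2327, nat_lit 2725, nat_lit 376, nat_lit 0, nat_lit 0, nat_lit 263, nat_lit 0, nat_lit 0, nat_lit 0, nat_lit 0, nat_lit 0, nat_lit 182750, nat_lit 0, nat_lit 0, [(nat_lit 26, [(nat_lit 0, nat_lit 731)])],
 ⟨p106_k35, nat_lit 0, nat_lit 0, nat_lit 157, nat_lit 0, nat_lit 0, [nat_lit 811975600, nat_lit 1883450800, nat_lit 3980248800], [], [nat_lit 24425451076, nat_lit 24668998639, nat_lit 25680825236, nat_lit 25909561251, nat_lit 24074122743, nat_lit 24293391670, nat_lit 25275171277, nat_lit 25527392047], nat_lit 0, nat_lit 0, nat_lit 0, nat_lit 0, nat_lit 0, nat_lit 0, [], [nat_lit 54, nat_lit 40, nat_lit 40, nat_lit 80, nat_lit 43, nat_lit 226, nat_lit 20, nat_lit 6]⟩, ⟨p106_k27, nat_lit 0, nat_lit 0, nat_lit 509, nat_lit 0, nat_lit 325608, [nat_lit 1681250000, nat_lit 2647498000, nat_lit 4411600000], [], [nat_lit 10853488975, nat_lit 10886258755, nat_lit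 11215455403, nat_lit 11227838304, nat_lit 8540248688, nat_lit 8513144290, nat_lit 8770720337, nat_lit 8774862554], nat_lit 1271250, nat_lit 1271250, nat_lit 1271250, nat_lit 1271250, nat_lit 0, nat_lit 2118750, [nat_lit 1412500, nat_lit 1271250, nat_lit 1271250], [nat_lit 118, nat_lit 40, nat_lit 40, nat_lit 80, nat_lit 73, nat_lit 456, nat_lit 225, nat_lit 9]⟩,
 ⟨nat_lit 2236, nat_lit 2500, ⟨.ofNat (nat_lit 616128), .ofNat (nat_lit 668386), .ofNat (nat_lit 638708), .ofNat (nat_lit 690966), .ofNat (nat_lit 614030), .ofNat (nat_lit 665344), .ofNat (nat_lit 636804), .ofNat (nat_lit 688118)⟩, ⟨.ofNat (nat_lit 70000), .ofNat (nat_lit 200000), .ofNat (nat_lit 70000), .ofNat (nat_lit 200000), .ofNat (nat_lit 70000), .ofNat (nat_lit 200000), .ofNat (nat_lit 70000), .ofNat (nat_lit 200000)⟩⟩, [⟨nat_lit 13, nat_lit 46, nat_lit 86, nat_lit 100, nat_lit 163003942⟩, ⟨nat_lit 3, nat_lit 100, nat_lit 52, nat_lit 66, nat_lit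 124320747⟩, ⟨nat_lit 22, nat_lit 90, nat_lit 100, nat_lit 70, nat_lit 12151291⟩]⟩
noncomputable def p106_l108 : Lf2 := ⟨nat_lit 1, nat_lit 30, [nat_lit 15, nat_lit 5, nat_lit 5, nat_lit 20], false, nat_lit 20, nat_lit 80, nat_lit 0, nat_lit 300, zbN0,
 nat_lit 0, nat_lit 0, nat_lit 0, nat_lit 0, nat_lit 0, nat_lit 0, nat_lit 0, nat_lit 0, nat_lit 0, nat_lit 0, nat_lit 0, nat_lit 0, nat_lit 0, nat_lit 0, nat_lit 0, nat_lit 0, nat_lit 0, nat_lit 0, [],
 C1.Rw.none, C1.Rw.none,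
 zbF0, []⟩
noncomputable def p106_l109 : Lf2 := ⟨nat_lit 0, nat_lit 25, [nat_lit 44, nat_lit 5, nat_lit 5, nat_lit 20], false, nat_lit 12, nat_lit 80, nat_lit 0, nat_lit 160, ⟨nat_lit 1000, nat_lit 0, nat_lit 0, nat_lit 0, nat_lit 0, nat_lit 0, nat_lit 0, nat_lit 0, nat_lit 0, nat_lit 0, nat_lit 0, nat_lit 0, nat_lit 0, nat_lit 0, nat_lit 0, nat_lit 0, false, false⟩,
 nat_lit 0, nat_lit 0, nat_lit 18537, nat_lit 0, nat_lit 3461, nat_lit 8865, nat_lit 624, nat_lit 0, nat_lit 0, nat_lit 1012, nat_lit 0, nat_lit 0, nat_lit 0, nat_lit 0, nat_lit 0, nat_lit 0, nat_lit 0, nat_lit 0, [],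
 ⟨p106_k30, nat_lit 0, nat_lit 0, nat_lit 169, nat_lit 0, nat_lit 0, [nat_lit 938000000, nat_lit 3282000000, nat_lit 7968000000], [], [nat_lit 26310297243, nat_lit 26547905719, nat_lit 29571114648, nat_lit 29775231439, nat_lit 24679060014, nat_lit 24828491714, nat_lit 27371665822, nat_lit 27568488208], nat_lit 0, nat_lit 0, nat_lit 0, nat_lit 0, nat_lit 0, nat_lit 0, [], [nat_lit 54, nat_lit 40, nat_lit 40, nat_lit 80, nat_lit 43, nat_lit 226, nat_lit 20, nat_lit 6]⟩, ⟨p106_k29, nat_lit 0, nat_lit 0, nat_lit 602, nat_lit 0, nat_lit 446511, [nat_lit 6250000000, nat_lit 9842000000, nat_lit 16400000000], [], [nat_lit 38459995510, nat_lit 38446946580, nat_lit 40367791250, nat_lit 40468536110, nat_lit 31814137640, nat_lit 31945224820, nat_lit 33536756460, nat_lit 33583679200], nat_lit 1271250, nat_lit 1271250, nat_lit 1271250, nat_lit 1271250, nat_lit 0, nat_lit 1100001, [nat_lit 1412500, nat_lit 1271250, nat_lit 1271250],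 [nat_lit 118, nat_lit 40, nat_lit 40, nat_lit 80, nat_lit 73, nat_lit 428, nat_lit 200, nat_lit 9]⟩,
 zbF0, []⟩
noncomputable def p106_l110 : Lf2 := ⟨nat_lit 0, nat_lit 25, [nat_lit 44, nat_lit 5, nat_lit 5, nat_lit 20], false, nat_lit 12, nat_lit 80, nat_lit 0, nat_lit 160, ⟨nat_lit 593, nat_lit 407, nat_lit 0, nat_lit 7, nat_lit 276, nat_lit 407, nat_lit 45, nat_lit 0, nat_lit 0, nat_lit 0, nat_lit 0, nat_lit 0, nat_lit 44331702, nat_lit 21386673, nat_lit 1281625, nat_lit 3677364, true, true⟩,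
 nat_lit 0, nat_lit 0, nat_lit 10384, nat_lit 0, nat_lit 2564, nat_lit 4966, nat_lit 485, nat_lit 0, nat_lit 0, nat_lit 591, nat_lit 0, nat_lit 0, nat_lit 0, nat_lit 0, nat_lit 0, nat_lit 101750, nat_lit 0, nat_lit 0, [(nat_lit 26, [(nat_lit 0, nat_lit 407)])],
 ⟨p106_k33, nat_lit 0, nat_lit 0, nat_lit 168, nat_lit 0, nat_lit 0, [nat_lit 867833200, nat_lit 2503327600, nat_lit 5747733600], [], [nat_lit 25445649779, nat_lit 25538581712, nat_lit 27360267123, nat_lit 27444124348, nat_lit 24932759582, nat_lit 25021454178, nat_lit 26781096187, nat_lit 26874448571], nat_lit 0, nat_lit 0, nat_lit 0, nat_lit 0, nat_lit 0, nat_lit 0, [], [nat_lit 54, nat_lit 40, nat_lit 40, nat_lit 80, nat_lit 43, nat_lit 226, nat_lit 20, nat_lit 6]⟩, ⟨p106_k29, nat_lit 0, nat_lit 0, nat_lit 620, nat_lit 0, nat_lit 496930, [nat_lit 3706250000, nat_lit 5836306000, nat_lit 9725200000], [], [nat_lit 23466612889, nat_lit 23470868524, nat_lit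 24445851413, nat_lit 24519373175, nat_lit 20082481998, nat_lit 20117899592, nat_lit 20762205162, nat_lit 20758569998], nat_lit 1271250, nat_lit 1271250, nat_lit 1271250, nat_lit 1271250, nat_lit 0, nat_lit 1100001, [nat_lit 1412500, nat_lit 1271250, nat_lit 1271250], [nat_lit 118, nat_lit 40, nat_lit 40, nat_lit 80, nat_lit 73, nat_lit 428, nat_lit 200, nat_lit 9]⟩,
 ⟨nat_lit 2500, nat_lit 2599, ⟨.ofNat (nat_lit 639448), .ofNat (nat_lit 721304), .ofNat (nat_lit 661960), .ofNat (nat_lit 743816), .ofNat (nat_lit 638708), .ofNat (nat_lit 719999), .ofNat (nat_lit 661289), .ofNat (nat_lit 742579)⟩, ⟨.ofNat (nat_lit 30000), .ofNat (nat_lit 189520), .ofNat (nat_lit 30000), .ofNat (nat_lit 200000), .ofNat (nat_lit 30000), .ofNat (nat_lit 190321), .ofNat (nat_lit 30000), .ofNat (nat_lit 200000)⟩⟩, []⟩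
noncomputable def p106_l111 : Lf2 := ⟨nat_lit 1, nat_lit 25, [nat_lit 44, nat_lit 5, nat_lit 5, nat_lit 20], false, nat_lit 12, nat_lit 80, nat_lit 0, nat_lit 160, zbN0,
 nat_lit 0, nat_lit 0, nat_lit 0, nat_lit 0, nat_lit 0, nat_lit 0, nat_lit 0, nat_lit 0, nat_lit 0, nat_lit 0, nat_lit 0, nat_lit 0, nat_lit 0, nat_lit 0, nat_lit 0, nat_lit 0, nat_lit 0, nat_lit 0, [],
 C1.Rw.none, C1.Rw.none,
 zbF0, []⟩
noncomputable def p106_l112 : Lf2 := ⟨nat_lit 0, nat_lit 25, [nat_lit 44, nat_lit 5, nat_lit 5, nat_lit 20], false, nat_lit 16, nat_lit 80, nat_lit 0, nat_lit 160, ⟨nat_lit 200, nat_lit 800, nat_lit 0, nat_lit 7, nat_lit 270, nat_lit 800, nat_lit 47, nat_lit 0, nat_lit 0, nat_lit 0, nat_lit 0, nat_lit 0, nat_lit 44912838, nat_lit 20703509, nat_lit 1383653, nat_lit 3671424, true, true⟩,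
 nat_lit 0, nat_lit 0, nat_lit 3717, nat_lit 0, nat_lit 2376, nat_lit 1777, nat_lit 307, nat_lit 0, nat_lit 0, nat_lit 193, nat_lit 0, nat_lit 0, nat_lit 0, nat_lit 0, nat_lit 0, nat_lit 200000, nat_lit 0, nat_lit 0, [(nat_lit 26, [(nat_lit 0, nat_lit 800)])],
 ⟨p106_k31, nat_lit 0, nat_lit 0, nat_lit 147, nat_lit 0, nat_lit 0, [nat_lit 800080001, nat_lit 1751440001, nat_lit 2922000000], [], [nat_lit 24853643520, nat_lit 25093019666, nat_lit 26386562695, nat_lit 26608252955, nat_lit 24495771472, nat_lit 24724715064, nat_lit 25971905392, nat_lit 26197634191], nat_lit 0, nat_lit 0, nat_lit 0, nat_lit 0, nat_lit 0, nat_lit 0, [], [nat_lit 20, nat_lit 40, nat_lit 40, nat_lit 80, nat_lit 16, nat_lit 226, nat_lit 20, nat_lit 7]⟩, ⟨p106_k29, nat_lit 0, nat_lit 0, nat_lit 650, nat_lit 0, nat_lit 581431, [nat_lit 1250000000, nat_lit 1968400000, nat_lit 3280000000], [], [nat_lit 7833040723, nat_lit 7831426514, nat_lit 8007540117,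 nat_lit 8000151373, nat_lit 6393835998, nat_lit 6407777967, nat_lit 6634319828, nat_lit 6641501798], nat_lit 1271250, nat_lit 1271250, nat_lit 1271250, nat_lit 1271250, nat_lit 0, nat_lit 1100001, [nat_lit 1412500, nat_lit 1271250, nat_lit 1271250], [nat_lit 118, nat_lit 40, nat_lit 40, nat_lit 80, nat_lit 73, nat_lit 428, nat_lit 200, nat_lit 9]⟩,
 ⟨nat_lit 2236, nat_lit 2500, ⟨.ofNat (nat_lit 638708), .ofNat (nat_lit 702579), .ofNat (nat_lit 649999), .ofNat (nat_lit 713869), .ofNat (nat_lit 636804), .ofNat (nat_lit 699521), .ofNat (nat_lit 648191), .ofNat (nat_lit 710908)⟩, ⟨.ofNat (nat_lit 40000), .ofNat (nat_lit 190321), .ofNat (nat_lit 40000), .ofNat (nat_lit 200000), .ofNat (nat_lit 40000), .ofNat (nat_lit 192306), .ofNat (nat_lit 40000), .ofNat (nat_lit 200000)⟩⟩, [⟨nat_lit 13, nat_lit 46, nat_lit 83, nat_lit 100, nat_lit 201223253⟩, ⟨nat_lit 3, nat_lit 100, nat_lit 55, nat_lit 58, nat_lit 144712730⟩]⟩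
noncomputable def p106_l113 : Lf2 := ⟨nat_lit 0, nat_lit 25, [nat_lit 44, nat_lit 5, nat_lit 5, nat_lit 20], false, nat_lit 16, nat_lit 80, nat_lit 0, nat_lit 160, ⟨nat_lit 546, nat_lit 454, nat_lit 0, nat_lit 7, nat_lit 277, nat_lit 454, nat_lit 47, nat_lit 0, nat_lit 0, nat_lit 0, nat_lit 0, nat_lit 0, nat_lit 44218364, nat_lit 21408850, nat_lit 1372786, nat_lit 3708001, true, true⟩,
 nat_lit 0, nat_lit 0, nat_lit 8719, nat_lit 0, nat_lit 2515, nat_lit 4391, nat_lit 426, nat_lit 0, nat_lit 0, nat_lit 495, nat_lit 0, nat_lit 0, nat_lit 0, nat_lit 0, nat_lit 0, nat_lit 113500, nat_lit 0, nat_lit 0, [(nat_lit 26, [(nat_lit 0, nat_lit 454)])],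
 ⟨p106_k31, nat_lit 0, nat_lit 0, nat_lit 149, nat_lit 0, nat_lit 0, [nat_lit 859730400, nat_lit 2413407201, nat_lit 4361360000], [], [nat_lit 25269495482, nat_lit 25513902816, nat_lit 27127284539, nat_lit 27348540817, nat_lit 24835528161, nat_lit 25069175791, nat_lit 26623342219, nat_lit 26840455488], nat_lit 0, nat_lit 0, nat_lit 0, nat_lit 0, nat_lit 0, nat_lit 0, [], [nat_lit 20, nat_lit 40, nat_lit 40, nat_lit 80, nat_lit 16, nat_lit 226, nat_lit 20, nat_lit 7]⟩, ⟨p106_k36, nat_lit 0, nat_lit 0, nat_lit 587, nat_lit 0, nat_lit 586193, [nat_lit 3412500000, nat_lit 5373732000, nat_lit 7675668000], [], [nat_lit 21185968991, nat_lit 21214882890, nat_lit 21880503561, nat_lit 21891205448, nat_lit 18278644000, nat_lit 18298123090, nat_lit 18834416063, nat_lit 18837782253], nat_lit 1271250, nat_lit 1271250, nat_lit 1271250, nat_lit 1271250, nat_lit 0, nat_lit 1100001, [nat_lit 1412500, nat_lit 1271250, nat_lit 1271250],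 [nat_lit 60, nat_lit 40, nat_lit 40, nat_lit 80, nat_lit 32, nat_lit 428, nat_lit 200, nat_lit 10]⟩,
 ⟨nat_lit 2236, nat_lit 2500, ⟨.ofNat (nat_lit 649999), .ofNat (nat_lit 725482), .ofNat (nat_lit 661289), .ofNat (nat_lit 736773), .ofNat (nat_lit 648191), .ofNat (nat_lit 722311), .ofNat (nat_lit 659578), .ofNat (nat_lit 733698)⟩, ⟨.ofNat (nat_lit 40000), .ofNat (nat_lit 190321), .ofNat (nat_lit 40000), .ofNat (nat_lit 200000), .ofNat (nat_lit 40000), .ofNat (nat_lit 192306), .ofNat (nat_lit 40000), .ofNat (nat_lit 200000)⟩⟩, [⟨nat_lit 3, nat_lit 100, nat_lit 55, nat_lit 58, nat_lit 10863868⟩]⟩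
noncomputable def p106_l114 : Lf2 := ⟨nat_lit 0, nat_lit 25, [nat_lit 44, nat_lit 5, nat_lit 5, nat_lit 20], false, nat_lit 12, nat_lit 80, nat_lit 160, nat_lit 300, ⟨nat_lit 280, nat_lit 720, nat_lit 0, nat_lit 7, nat_lit 278, nat_lit 720, nat_lit 45, nat_lit 0, nat_lit 0, nat_lit 0, nat_lit 0, nat_lit 0, nat_lit 44185219, nat_lit 21537935, nat_lit 1276846, nat_lit 3684084, true, true⟩,
 nat_lit 0, nat_lit 0, nat_lit 4852, nat_lit 0, nat_lit 2627, nat_lit 2320, nat_lit 383, nat_lit 0, nat_lit 0, nat_lit 290, nat_lit 0, nat_lit 0, nat_lit 0, nat_lit 0, nat_lit 0, nat_lit 180000, nat_lit 0, nat_lit 0, [(nat_lit 26, [(nat_lit 0, nat_lit 720)])],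
 ⟨p106_k30, nat_lit 0, nat_lit 0, nat_lit 169, nat_lit 0, nat_lit 0, [nat_lit 813872000, nat_lit 1904496000, nat_lit 4040256000], [], [nat_lit 24919867791, nat_lit 25154257990, nat_lit 27505393892, nat_lit 27806780314, nat_lit 24376713698, nat_lit 24600368729, nat_lit 26511012112, nat_lit 26744509357], nat_lit 0, nat_lit 0, nat_lit 0, nat_lit 0, nat_lit 0, nat_lit 0, [], [nat_lit 54, nat_lit 40, nat_lit 40, nat_lit 80, nat_lit 43, nat_lit 226, nat_lit 20, nat_lit 6]⟩, ⟨p106_k29, nat_lit 0, nat_lit 0, nat_lit 463, nat_lit 0, nat_lit 504647, [nat_lit 1750000000, nat_lit 2755760000, nat_lit 4592000000], [], [nat_lit 8543891370, nat_lit 8580273050, nat_lit 9054263800, nat_lit 9098306320, nat_lit 8931402580, nat_lit 8960145520, nat_lit 9453197880, nat_lit 9478173720], nat_lit 1271250, nat_lit 1271250, nat_lit 1271250, nat_lit 1271250, nat_lit 1100001, nat_lit 2298750, [nat_lit 1412500, nat_lit 1271250, nat_lit 1271250],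 [nat_lit 118, nat_lit 40, nat_lit 40, nat_lit 80, nat_lit 73, nat_lit 456, nat_lit 225, nat_lit 9]⟩,
 ⟨nat_lit 2500, nat_lit 2739, ⟨.ofNat (nat_lit 640539), .ofNat (nat_lit 729131), .ofNat (nat_lit 662956), .ofNat (nat_lit 751548), .ofNat (nat_lit 638708), .ofNat (nat_lit 725805), .ofNat (nat_lit 661289), .ofNat (nat_lit 748386)⟩, ⟨.ofNat (nat_lit 30000), .ofNat (nat_lit 188310), .ofNat (nat_lit 30000), .ofNat (nat_lit 200000), .ofNat (nat_lit 30000), .ofNat (nat_lit 190321), .ofNat (nat_lit 30000), .ofNat (nat_lit 200000)⟩⟩, [⟨nat_lit 22, nat_lit 84, nat_lit 100, nat_lit 68, nat_lit 131445669⟩]⟩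
noncomputable def p106_l115 : Lf2 := ⟨nat_lit 0, nat_lit 25, [nat_lit 44, nat_lit 5, nat_lit 5, nat_lit 20], false, nat_lit 16, nat_lit 80, nat_lit 160, nat_lit 300, ⟨nat_lit 210, nat_lit 790, nat_lit 0, nat_lit 7, nat_lit 275, nat_lit 790, nat_lit 47, nat_lit 0, nat_lit 0, nat_lit 0, nat_lit 0, nat_lit 0, nat_lit 44448165, nat_lit 21175389, nat_lit 1376446, nat_lit 3696205, true, true⟩,
 nat_lit 0, nat_lit 0, nat_lit 3579, nat_lit 0, nat_lit 2449, nat_lit 1711, nat_lit 285, nat_lit 0, nat_lit 0, nat_lit 212, nat_lit 0, nat_lit 0, nat_lit 0, nat_lit 0, nat_lit 0, nat_lit 197500, nat_lit 0, nat_lit 0, [(nat_lit 26, [(nat_lit 0, nat_lit 790)])],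
 ⟨p106_k31, nat_lit 0, nat_lit 0, nat_lit 149, nat_lit 0, nat_lit 0, [nat_lit 801804001, nat_lit 1770572001, nat_lit 2963600000], [], [nat_lit 25120462837, nat_lit 25362481261, nat_lit 26966067665, nat_lit 27185331919, nat_lit 24722627084, nat_lit 24954041142, nat_lit 26499093178, nat_lit 26709299864], nat_lit 0, nat_lit 0, nat_lit 0, nat_lit 0, nat_lit 0, nat_lit 0, [], [nat_lit 20, nat_lit 40, nat_lit 40, nat_lit 80, nat_lit 16, nat_lit 226, nat_lit 20, nat_lit 7]⟩, ⟨p106_k29, nat_lit 0, nat_lit 0, nat_lit 513, nat_lit 0, nat_lit 634916, [nat_lit 1312500000, nat_lit 2066820000, nat_lit 3444000000], [], [nat_lit 6530648366, nat_lit 6558873240, nat_lit 6847752970, nat_lit 6862248856, nat_lit 6805385519, nat_lit 6825826890, nat_lit 7100776023, nat_lit 7123375878], nat_lit 1271250, nat_lit 1271250, nat_lit 1271250, nat_lit 1271250, nat_lit 1100001, nat_lit 2298750, [nat_lit 1412500, nat_lit 1271250, nat_lit 1271250],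 [nat_lit 118, nat_lit 40, nat_lit 40, nat_lit 80, nat_lit 73, nat_lit 456, nat_lit 225, nat_lit 9]⟩,
 ⟨nat_lit 2236, nat_lit 2500, ⟨.ofNat (nat_lit 638708), .ofNat (nat_lit 714192), .ofNat (nat_lit 661289), .ofNat (nat_lit 736773), .ofNat (nat_lit 636804), .ofNat (nat_lit 710924), .ofNat (nat_lit 659578), .ofNat (nat_lit 733698)⟩, ⟨.ofNat (nat_lit 40000), .ofNat (nat_lit 190321), .ofNat (nat_lit 40000), .ofNat (nat_lit 200000), .ofNat (nat_lit 40000), .ofNat (nat_lit 192306), .ofNat (nat_lit 40000), .ofNat (nat_lit 200000)⟩⟩, [⟨nat_lit 13, nat_lit 47, nat_lit 82, nat_lit 100, nat_lit 72742387⟩, ⟨nat_lit 22, nat_lit 86, nat_lit 100, nat_lit 66, nat_lit 97737175⟩]⟩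
noncomputable def p106_l116 : Lf2 := ⟨nat_lit 0, nat_lit 30, [nat_lit 15, nat_lit 5, nat_lit 5, nat_lit 20], false, nat_lit 20, nat_lit 80, nat_lit 0, nat_lit 300, ⟨nat_lit 545, nat_lit 455, nat_lit 0, nat_lit 7, nat_lit 277, nat_lit 455, nat_lit 50, nat_lit 0, nat_lit 0, nat_lit 0, nat_lit 0, nat_lit 0, nat_lit 44066300, nat_lit 21435649, nat_lit 1498051, nat_lit 3748898, true, true⟩,
 nat_lit 0, nat_lit 0, nat_lit 9798, nat_lit 0, nat_lit 2789, nat_lit 4686, nat_lit 480, nat_lit 0, nat_lit 0, nat_lit 535, nat_lit 0, nat_lit 0, nat_lit 0, nat_lit 0, nat_lit 0, nat_lit 113750, nat_lit 0, nat_lit 0, [(nat_lit 26, [(nat_lit 0, nat_lit 455)])],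
 ⟨p106_k32, nat_lit 0, nat_lit 0, nat_lit 167, nat_lit 0, nat_lit 0, [nat_lit 859558001, nat_lit 2411494000, nat_lit 5485884000], [], [nat_lit 25200200267, nat_lit 25676965101, nat_lit 27718612538, nat_lit 28333912411, nat_lit 24637859488, nat_lit 25097195152, nat_lit 26951639083, nat_lit 27429177909], nat_lit 0, nat_lit 0, nat_lit 0, nat_lit 0, nat_lit 0, nat_lit 0, [], [nat_lit 54, nat_lit 40, nat_lit 40, nat_lit 80, nat_lit 43, nat_lit 226, nat_lit 20, nat_lit 6]⟩, ⟨p106_k29, nat_lit 0, nat_lit 0, nat_lit 524, nat_lit 0, nat_lit 381156, [nat_lit 3406250000, nat_lit 5363890000, nat_lit 8938000000], [], [nat_lit 20875771781, nat_lit 20966992663, nat_lit 22059729036, nat_lit 22089675809, nat_lit 17215528269, nat_lit 17199136936, nat_lit 18170399385, nat_lit 18212942771], nat_lit 1271250, nat_lit 1271250, nat_lit 1271250, nat_lit 1271250, nat_lit 0, nat_lit 2118750, [nat_lit 1412500, nat_lit 1271250, nat_lit 1271250],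 [nat_lit 118, nat_lit 40, nat_lit 40, nat_lit 80, nat_lit 73, nat_lit 456, nat_lit 225, nat_lit 9]⟩,
 ⟨nat_lit 2236, nat_lit 2739, ⟨.ofNat (nat_lit 640539), .ofNat (nat_lit 729131), .ofNat (nat_lit 662956), .ofNat (nat_lit 751548), .ofNat (nat_lit 636804), .ofNat (nat_lit 722327), .ofNat (nat_lit 659578), .ofNat (nat_lit 745101)⟩, ⟨.ofNat (nat_lit 50000), .ofNat (nat_lit 200000), .ofNat (nat_lit 50000), .ofNat (nat_lit 200000), .ofNat (nat_lit 50000), .ofNat (nat_lit 200000), .ofNat (nat_lit 50000), .ofNat (nat_lit 200000)⟩⟩, [⟨nat_lit 22, nat_lit 84, nat_lit 100, nat_lit 67, nat_lit 60254478⟩]⟩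
noncomputable def b_V_900_500_20_14 : St := ⟨true, nat_lit 0, nat_lit 1, nat_lit 1, nat_lit 120, nat_lit 360, nat_lit 380, nat_lit 200, nat_lit 240, nat_lit 240, nat_lit 352, nat_lit 80, nat_lit 120, nat_lit 8, nat_lit 80, nat_lit 0, nat_lit 336, nat_lit 80, nat_lit 120, nat_lit 0, nat_lit 0, nat_lit 0, nat_lit 0⟩
theorem d_V_900_500_20_14 (h : EB TB.env) : Dead b_V_900_500_20_14 := chkB_sound0 h (T :=
(.spl (nat_lit 0) (nat_lit 370)
(.spl (nat_lit 6) (nat_lit 112)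
(.spl (nat_lit 1) (nat_lit 220)
(.trX (nat_lit 13) (nat_lit 60) (nat_lit 74) (nat_lit 100) (nat_lit 336) (.spl (nat_lit 6) (nat_lit 104)
(.spl (nat_lit 5) (nat_lit 160)
(.leaf p106_l89)
(.leaf p106_l90))
(.leaf p106_l91)))
(.spl (nat_lit 5) (nat_lit 160)
(.leaf p106_l92)
(.leaf p106_l93)))
(.leaf p106_l94))
(.trX (nat_lit 13) (nat_lit 54) (nat_lit 74) (nat_lit 100) (nat_lit 340) (.trZ (nat_lit 3) (nat_lit 100) (nat_lit 66) (nat_lit 45) (nat_lit 12) (.spl (nat_lit 2) (nat_lit 280)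
(.spl (nat_lit 1) (nat_lit 220)
(.leaf p106_l95)
(.spl (nat_lit 3) (nat_lit 100)
(.spl (nat_lit 0) (nat_lit 375)
(.leaf p106_l96)
(.trZ (nat_lit 3) (nat_lit 100) (nat_lit 61) (nat_lit 51) (nat_lit 16) (.leaf p106_l97)))
(.trZ (nat_lit 3) (nat_lit 100) (nat_lit 61) (nat_lit 55) (nat_lit 20) (.leaf p106_l98))))
(.trX (nat_lit 22) (nat_lit 100) (nat_lit 95) (nat_lit 87) (nat_lit 300) (.spl (nat_lit 1) (nat_lit 220)
(.trX (nat_lit 13) (nat_lit 53) (nat_lit 80) (nat_lit 100) (nat_lit 324) (.spl (nat_lit 3) (nat_lit 100)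
(.spl (nat_lit 6) (nat_lit 112)
(.spl (nat_lit 4) (nat_lit 40)
(.trX (nat_lit 22) (nat_lit 94) (nat_lit 100) (nat_lit 62) (nat_lit 248) (.spl (nat_lit 0) (nat_lit 375)
(.spl (nat_lit 6) (nat_lit 104)
(.spl (nat_lit 0) (nat_lit 373)
(.leaf p106_l99)
(.trX (nat_lit 13) (nat_lit 50) (nat_lit 81) (nat_lit 100) (nat_lit 320) (.leaf p106_l100)))
(.leaf p106_l101))
(.trX (nat_lit 13) (nat_lit 49) (nat_lit 83) (nat_lit 100) (nat_lit 316) (.trZ (nat_lit 3) (nat_lit 100) (nat_lit 61) (nat_lit 51) (nat_lit 16) (.leaf p106_l102)))))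
(.spl (nat_lit 0) (nat_lit 375)
(.leaf p106_l103)
(.trX (nat_lit 13) (nat_lit 49) (nat_lit 83) (nat_lit 100) (nat_lit 316) (.leaf p106_l104))))
(.leaf p106_l105))
(.trZ (nat_lit 3) (nat_lit 100) (nat_lit 61) (nat_lit 55) (nat_lit 20) (.spl (nat_lit 6) (nat_lit 104)
(.spl (nat_lit 0) (nat_lit 375)
(.leaf p106_l106)
(.trX (nat_lit 13) (nat_lit 49) (nat_lit 83) (nat_lit 100) (nat_lit 316) (.trZ (nat_lit 3) (nat_lit 100) (nat_lit 56) (nat_lit 60) (nat_lit 28) (.leaf p106_l107))))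
(.leaf p106_l108)))))
(.spl (nat_lit 3) (nat_lit 100)
(.spl (nat_lit 5) (nat_lit 160)
(.spl (nat_lit 0) (nat_lit 375)
(.spl (nat_lit 6) (nat_lit 108)
(.spl (nat_lit 0) (nat_lit 373)
(.leaf p106_l109)
(.trX (nat_lit 13) (nat_lit 51) (nat_lit 76) (nat_lit 100) (nat_lit 336) (.leaf p106_l110)))
(.leaf p106_l111))
(.trX (nat_lit 13) (nat_lit 49) (nat_lit 78) (nat_lit 100) (nat_lit 332) (.trZ (nat_lit 3) (nat_lit 100) (nat_lit 61) (nat_lit 51) (nat_lit 16) (.spl (nat_lit 1) (nat_lit 230)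
(.trX (nat_lit 13) (nat_lit 49) (nat_lit 80) (nat_lit 100) (nat_lit 324) (.leaf p106_l112))
(.leaf p106_l113)))))
(.spl (nat_lit 0) (nat_lit 375)
(.leaf p106_l114)
(.trX (nat_lit 13) (nat_lit 49) (nat_lit 78) (nat_lit 100) (nat_lit 332) (.trZ (nat_lit 3) (nat_lit 100) (nat_lit 61) (nat_lit 51) (nat_lit 16) (.leaf p106_l115)))))
(.trZ (nat_lit 3) (nat_lit 100) (nat_lit 61) (nat_lit 55) (nat_lit 20) (.leaf p106_l116)))))))))) (by decide +kernel)
noncomputable def p106_l117 : Lf2 := ⟨nat_lit 0, nat_lit 25, [nat_lit 44, nat_lit 5, nat_lit 5, nat_lit 20], true, nat_lit 20, nat_lit 80, nat_lit 0, nat_lit 336, ⟨nat_lit 0, nat_lit 541, nat_lit 459, nat_lit 6, nat_lit 242, nat_lit 1000, nat_lit 50, nat_lit 459, nat_lit 22817, nat_lit 252, nat_lit 47904, nat_lit 200, nat_lit 47738877, nat_lit 17725182, nat_lit 1535941, nat_lit 3520521, true, true⟩,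
 nat_lit 0, nat_lit 0, nat_lit 0, nat_lit 3327, nat_lit 2407, nat_lit 0, nat_lit 0, nat_lit 0, nat_lit 0, nat_lit 0, nat_lit 0, nat_lit 0, nat_lit 0, nat_lit 0, nat_lit 12, nat_lit 250000, nat_lit 0, nat_lit 0, [(nat_lit 29, [(nat_lit 0, nat_lit 541), (nat_lit 4, nat_lit 459)])],
 ⟨p106_k37, nat_lit 0, nat_lit 0, nat_lit 152, nat_lit 0, nat_lit 0, [nat_lit 820420000, nat_lit 120163201, nat_lit 2944400], [], [nat_lit 23288119726, nat_lit 24479375966, nat_lit 24616346881, nat_lit 25948309418, nat_lit 22823625286, nat_lit 23909870720, nat_lit 24113956713, nat_lit 25203067952], nat_lit 0, nat_lit 0, nat_lit 0, nat_lit 0, nat_lit 0, nat_lit 0, [], [nat_lit 55, nat_lit 40, nat_lit 40, nat_lit 80, nat_lit 3, nat_lit 226, nat_lit 20, nat_lit 7]⟩, C1.Rw.none,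
 ⟨nat_lit 0, nat_lit 2237, ⟨.ofNat (nat_lit 557013), .ofNat (nat_lit 614026), .ofNat (nat_lit 602531), .ofNat (nat_lit 659577), .ofNat (nat_lit 549998), .ofNat (nat_lit 599995), .ofNat (nat_lit 599967), .ofNat (nat_lit 649998)⟩, ⟨.ofNat (nat_lit 50000), .ofNat (nat_lit 192306), .ofNat (nat_lit 50000), .ofNat (nat_lit 200000), .ofNat (nat_lit 50000), .ofNat (nat_lit 199999), .ofNat (nat_lit 50000), .ofNat (nat_lit 200000)⟩⟩, [⟨nat_lit 3, nat_lit 100, nat_lit 37, nat_lit 74, nat_lit 300232992⟩, ⟨nat_lit 3, nat_lit 100, nat_lit 54, nat_lit 57, nat_lit 85087197⟩]⟩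
noncomputable def p106_l118 : Lf2 := ⟨nat_lit 0, nat_lit 30, [nat_lit 15, nat_lit 5, nat_lit 5, nat_lit 20], true, nat_lit 32, nat_lit 80, nat_lit 0, nat_lit 336, ⟨nat_lit 0, nat_lit 303, nat_lit 697, nat_lit 6, nat_lit 238, nat_lit 1000, nat_lit 56, nat_lit 697, nat_lit 29400, nat_lit 257, nat_lit 8727, nat_lit 201, nat_lit 47840745, nat_lit 17313821, nat_lit 1845434, nat_lit 3582670, true, true⟩,
 nat_lit 0, nat_lit 0, nat_lit 0, nat_lit 7195, nat_lit 2278, nat_lit 0, nat_lit 0, nat_lit 0, nat_lit 0, nat_lit 0, nat_lit 0, nat_lit 0, nat_lit 0, nat_lit 0, nat_lit 70, nat_lit 250000, nat_lit 0, nat_lit 0, [(nat_lit 29, [(nat_lit 0, nat_lit 303), (nat_lit 4, nat_lit 697)])],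
 ⟨p106_k22, nat_lit 0, nat_lit 0, nat_lit 158, nat_lit 0, nat_lit 0, [nat_lit 1047660001, nat_lit 336298400, nat_lit 160791600], [], [nat_lit 23040692406, nat_lit 23557291249, nat_lit 24268732244, nat_lit 24797546338, nat_lit 22709357530, nat_lit 23209261450, nat_lit 23910119938, nat_lit 24425377516], nat_lit 0, nat_lit 0, nat_lit 0, nat_lit 0, nat_lit 0, nat_lit 0, [], [nat_lit 57, nat_lit 40, nat_lit 40, nat_lit 80, nat_lit 7, nat_lit 226, nat_lit 20, nat_lit 6]⟩, C1.Rw.none,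
 ⟨nat_lit 1581, nat_lit 2237, ⟨.ofNat (nat_lit 557014), .ofNat (nat_lit 614030), .ofNat (nat_lit 579788), .ofNat (nat_lit 636804), .ofNat (nat_lit 554634), .ofNat (nat_lit 609270), .ofNat (nat_lit 577949), .ofNat (nat_lit 632585)⟩, ⟨.ofNat (nat_lit 80000), .ofNat (nat_lit 200000), .ofNat (nat_lit 80000), .ofNat (nat_lit 200000), .ofNat (nat_lit 80000), .ofNat (nat_lit 200000), .ofNat (nat_lit 80000), .ofNat (nat_lit 200000)⟩⟩, [⟨nat_lit 3, nat_lit 100, nat_lit 43, nat_lit 73, nat_lit 10277114⟩, ⟨nat_lit 3, nat_lit 100, nat_lit 34, nat_lit 81, nat_lit 458677920⟩]⟩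
noncomputable def p106_l119 : Lf2 := ⟨nat_lit 0, nat_lit 30, [nat_lit 15, nat_lit 5, nat_lit 5, nat_lit 20], false, nat_lit 32, nat_lit 80, nat_lit 0, nat_lit 336, ⟨nat_lit 215, nat_lit 0, nat_lit 785, nat_lit 6, nat_lit 245, nat_lit 785, nat_lit 56, nat_lit 785, nat_lit 29400, nat_lit 257, nat_lit 25132, nat_lit 200, nat_lit 47101036, nat_lit 0, nat_lit 0, nat_lit 3635815, true, true⟩,
 nat_lit 0, nat_lit 0, nat_lit 4398, nat_lit 0, nat_lit 2199, nat_lit 2103, nat_lit 0, nat_lit 0, nat_lit 0, nat_lit 241, nat_lit 0, nat_lit 0, nat_lit 0, nat_lit 0, nat_lit 84, nat_lit 269900, nat_lit 0, nat_lit 0, [(nat_lit 29, [(nat_lit 4, nat_lit 294), (nat_lit 5, nat_lit 491)])],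
 ⟨p106_k38, nat_lit 0, nat_lit 0, nat_lit 151, nat_lit 0, nat_lit 0, [nat_lit 1053038000, nat_lit 532642401, nat_lit 363990800], [], [nat_lit 22851249866, nat_lit 23106251259, nat_lit 24072948153, nat_lit 24314638496, nat_lit 22555918324, nat_lit 22802724504, nat_lit 23750610688, nat_lit 23985860256], nat_lit 0, nat_lit 0, nat_lit 0, nat_lit 0, nat_lit 0, nat_lit 0, [], [nat_lit 54, nat_lit 40, nat_lit 40, nat_lit 80, nat_lit 43, nat_lit 226, nat_lit 20, nat_lit 6]⟩, ⟨p106_k29, nat_lit 0, nat_lit 0, nat_lit 617, nat_lit 0, nat_lit 462382, [nat_lit 1343750000, nat_lit 2116030000, nat_lit 3526000000], [], [nat_lit 7501781329, nat_lit 7525622463, nat_lit 7802856731, nat_lit 7844698032, nat_lit 6673451472, nat_lit 6385508765, nat_lit 6446499478, nat_lit 6443529789], nat_lit 1271250, nat_lit 1271250, nat_lit 1271250, nat_lit 1271250, nat_lit 0, nat_lit 2373000, [nat_lit 1412500, nat_lit 1271250, nat_lit 1271250], [nat_lit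 118, nat_lit 40, nat_lit 40, nat_lit 80, nat_lit 73, nat_lit 456, nat_lit 225, nat_lit 9]⟩,
 ⟨nat_lit 1936, nat_lit 2237, ⟨.ofNat (nat_lit 579788), .ofNat (nat_lit 636804), .ofNat (nat_lit 591175), .ofNat (nat_lit 648191), .ofNat (nat_lit 578898), .ofNat (nat_lit 634788), .ofNat (nat_lit 590404), .ofNat (nat_lit 646293)⟩, ⟨.ofNat (nat_lit 80000), .ofNat (nat_lit 200000), .ofNat (nat_lit 80000), .ofNat (nat_lit 200000), .ofNat (nat_lit 80000), .ofNat (nat_lit 200000), .ofNat (nat_lit 80000), .ofNat (nat_lit 200000)⟩⟩, [⟨nat_lit 3, nat_lit 100, nat_lit 41, nat_lit 76, nat_lit 196250311⟩, ⟨nat_lit 22, nat_lit 100, nat_lit 94, nat_lit 73, nat_lit 27350351⟩]⟩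
noncomputable def p106_l120 : Lf2 := ⟨nat_lit 0, nat_lit 30, [nat_lit 15, nat_lit 5, nat_lit 5, nat_lit 20], false, nat_lit 32, nat_lit 80, nat_lit 0, nat_lit 336, ⟨nat_lit 257, nat_lit 0, nat_lit 743, nat_lit 6, nat_lit 250, nat_lit 743, nat_lit 56, nat_lit 743, nat_lit 29400, nat_lit 257, nat_lit 47906, nat_lit 200, nat_lit 46632817, nat_lit 0, nat_lit 0, nat_lit 3667626, true, true⟩,
 nat_lit 0, nat_lit 0, nat_lit 4595, nat_lit 0, nat_lit 2136, nat_lit 2314, nat_lit 3, nat_lit 0, nat_lit 0, nat_lit 286, nat_lit 0, nat_lit 0, nat_lit 0, nat_lit 0, nat_lit 87, nat_lit 297200, nat_lit 0, nat_lit 0, [(nat_lit 29, [(nat_lit 5, nat_lit 743)])],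
 ⟨p106_k38, nat_lit 0, nat_lit 0, nat_lit 151, nat_lit 0, nat_lit 0, [nat_lit 1030110800, nat_lit 569986401, nat_lit 403835600], [], [nat_lit 22740962284, nat_lit 22993333603, nat_lit 23957603385, nat_lit 24193450453, nat_lit 22474342261, nat_lit 22718639781, nat_lit 23664193957, nat_lit 23892790337], nat_lit 0, nat_lit 0, nat_lit 0, nat_lit 0, nat_lit 0, nat_lit 0, [], [nat_lit 54, nat_lit 40, nat_lit 40, nat_lit 80, nat_lit 43, nat_lit 226, nat_lit 20, nat_lit 6]⟩, ⟨p106_k39, nat_lit 0, nat_lit 0, nat_lit 618, nat_lit 0, nat_lit 472449, [nat_lit 1606250000, nat_lit 2529394000, nat_lit 4214800000], [], [nat_lit 8722127945, nat_lit 8753968528, nat_lit 9049702683, nat_lit 9100728316, nat_lit 7670409696, nat_lit 7579780730, nat_lit 7653076252, nat_lit 7647428187], nat_lit 1271250, nat_lit 1271250, nat_lit 1271250, nat_lit 1271250, nat_lit 0, nat_lit 2373000, [nat_lit 1412500, nat_lit 1271250, nat_lit 1271250], [nat_lit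 118, nat_lit 40, nat_lit 40, nat_lit 80, nat_lit 73, nat_lit 456, nat_lit 225, nat_lit 9]⟩,
 ⟨nat_lit 1936, nat_lit 2237, ⟨.ofNat (nat_lit 591175), .ofNat (nat_lit 648191), .ofNat (nat_lit 602562), .ofNat (nat_lit 659578), .ofNat (nat_lit 590404), .ofNat (nat_lit 646293), .ofNat (nat_lit 601908), .ofNat (nat_lit 657798)⟩, ⟨.ofNat (nat_lit 80000), .ofNat (nat_lit 200000), .ofNat (nat_lit 80000), .ofNat (nat_lit 200000), .ofNat (nat_lit 80000), .ofNat (nat_lit 200000), .ofNat (nat_lit 80000), .ofNat (nat_lit 200000)⟩⟩, [⟨nat_lit 3, nat_lit 100, nat_lit 41, nat_lit 76, nat_lit 139851315⟩, ⟨nat_lit 22, nat_lit 100, nat_lit 94, nat_lit 73, nat_lit 37054277⟩]⟩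
noncomputable def p106_l121 : Lf2 := ⟨nat_lit 0, nat_lit 30, [nat_lit 15, nat_lit 5, nat_lit 5, nat_lit 20], false, nat_lit 40, nat_lit 80, nat_lit 0, nat_lit 336, ⟨nat_lit 97, nat_lit 438, nat_lit 465, nat_lit 6, nat_lit 247, nat_lit 903, nat_lit 60, nat_lit 465, nat_lit 33750, nat_lit 260, nat_lit 44346, nat_lit 200, nat_lit 46755286, nat_lit 18215320, nat_lit 2029394, nat_lit 3703006, true, true⟩,
 nat_lit 0, nat_lit 0, nat_lit 2435, nat_lit 0, nat_lit 2604, nat_lit 1164, nat_lit 0, nat_lit 0, nat_lit 0, nat_lit 67, nat_lit 0, nat_lit 0, nat_lit 0, nat_lit 0, nat_lit 0, nat_lit 225750, nat_lit 0, nat_lit 0, [(nat_lit 29, [(nat_lit 0, nat_lit 438), (nat_lit 4, nat_lit 465)])],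
 ⟨p106_k40, nat_lit 0, nat_lit 0, nat_lit 134, nat_lit 0, nat_lit 0, [nat_lit 787470800, nat_lit 230457201, nat_lit 169463200], [], [nat_lit 23802481855, nat_lit 24057034157, nat_lit 25041983406, nat_lit 25310147564, nat_lit 23463741157, nat_lit 23711101801, nat_lit 24624190170, nat_lit 24885013308], nat_lit 0, nat_lit 0, nat_lit 0, nat_lit 0, nat_lit 0, nat_lit 0, [], [nat_lit 55, nat_lit 40, nat_lit 40, nat_lit 80, nat_lit 3, nat_lit 226, nat_lit 20, nat_lit 7]⟩, ⟨p106_k41, nat_lit 0, nat_lit 0, nat_lit 690, nat_lit 0, nat_lit 644936, [nat_lit 606250000, nat_lit 1151584000, nat_lit 1590800000], [], [nat_lit 4001904239, nat_lit 3997068595, nat_lit 4042886933, nat_lit 4037532881, nat_lit 3077435576, nat_lit 3069108087, nat_lit 3110763806, nat_lit 3097122776], nat_lit 1271250, nat_lit 1271250, nat_lit 1271250, nat_lit 1271250, nat_lit 0, nat_lit 2373000, [nat_lit 1412500, nat_lit 1271250, nat_lit 1271250], [nat_lit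 104, nat_lit 40, nat_lit 40, nat_lit 80, nat_lit 76, nat_lit 456, nat_lit 225, nat_lit 9]⟩,
 ⟨nat_lit 1581, nat_lit 1937, ⟨.ofNat (nat_lit 578898), .ofNat (nat_lit 634788), .ofNat (nat_lit 601908), .ofNat (nat_lit 657798), .ofNat (nat_lit 577949), .ofNat (nat_lit 632585), .ofNat (nat_lit 601263), .ofNat (nat_lit 655900)⟩, ⟨.ofNat (nat_lit 100000), .ofNat (nat_lit 200000), .ofNat (nat_lit 100000), .ofNat (nat_lit 200000), .ofNat (nat_lit 100000), .ofNat (nat_lit 200000), .ofNat (nat_lit 100000), .ofNat (nat_lit 200000)⟩⟩, [⟨nat_lit 3, nat_lit 100, nat_lit 39, nat_lit 76, nat_lit 358696455⟩, ⟨nat_lit 22, nat_lit 100, nat_lit 92, nat_lit 75, nat_lit 5935401⟩]⟩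
noncomputable def p106_l122 : Lf2 := ⟨nat_lit 0, nat_lit 30, [nat_lit 15, nat_lit 5, nat_lit 5, nat_lit 20], true, nat_lit 48, nat_lit 80, nat_lit 0, nat_lit 336, ⟨nat_lit 0, nat_lit 623, nat_lit 377, nat_lit 6, nat_lit 241, nat_lit 1000, nat_lit 64, nat_lit 377, nat_lit 38400, nat_lit 263, nat_lit 40548, nat_lit 200, nat_lit 47189406, nat_lit 17564477, nat_lit 2246117, nat_lit 3715317, true, true⟩,
 nat_lit 0, nat_lit 0, nat_lit 0, nat_lit 5256, nat_lit 2608, nat_lit 0, nat_lit 0, nat_lit 0, nat_lit 0, nat_lit 0, nat_lit 0, nat_lit 0, nat_lit 0, nat_lit 0, nat_lit 0, nat_lit 250000, nat_lit 0, nat_lit 0, [(nat_lit 29, [(nat_lit 0, nat_lit 623), (nat_lit 4, nat_lit 377)])],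
 ⟨p106_k42, nat_lit 0, nat_lit 0, nat_lit 133, nat_lit 0, nat_lit 0, [nat_lit 774060000, nat_lit 186889601, nat_lit 124433200], [], [nat_lit 23880730051, nat_lit 24435172061, nat_lit 25152093535, nat_lit 25830269722, nat_lit 23602843001, nat_lit 24100123280, nat_lit 24809681016, nat_lit 25331641168], nat_lit 0, nat_lit 0, nat_lit 0, nat_lit 0, nat_lit 0, nat_lit 0, [], [nat_lit 55, nat_lit 40, nat_lit 40, nat_lit 80, nat_lit 3, nat_lit 226, nat_lit 20, nat_lit 7]⟩, C1.Rw.none,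
 ⟨nat_lit 0, nat_lit 1582, ⟨.ofNat (nat_lit 554633), .ofNat (nat_lit 609267), .ofNat (nat_lit 601257), .ofNat (nat_lit 655899), .ofNat (nat_lit 549998), .ofNat (nat_lit 599996), .ofNat (nat_lit 599992), .ofNat (nat_lit 649998)⟩, ⟨.ofNat (nat_lit 120000), .ofNat (nat_lit 200000), .ofNat (nat_lit 120000), .ofNat (nat_lit 200000), .ofNat (nat_lit 120000), .ofNat (nat_lit 200000), .ofNat (nat_lit 120000), .ofNat (nat_lit 200000)⟩⟩, [⟨nat_lit 3, nat_lit 100, nat_lit 25, nat_lit 86, nat_lit 106571481⟩, ⟨nat_lit 3, nat_lit 100, nat_lit 36, nat_lit 77, nat_lit 397080120⟩]⟩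
noncomputable def p106_l123 : Lf2 := ⟨nat_lit 0, nat_lit 25, [nat_lit 44, nat_lit 5, nat_lit 5, nat_lit 20], true, nat_lit 20, nat_lit 80, nat_lit 0, nat_lit 300, ⟨nat_lit 0, nat_lit 930, nat_lit 70, nat_lit 7, nat_lit 255, nat_lit 1000, nat_lit 50, nat_lit 70, nat_lit 22817, nat_lit 252, nat_lit 82172, nat_lit 200, nat_lit 46354009, nat_lit 19128600, nat_lit 1517391, nat_lit 3614597, true, true⟩,
 nat_lit 0, nat_lit 0, nat_lit 0, nat_lit 4719, nat_lit 2383, nat_lit 0, nat_lit 0, nat_lit 0, nat_lit 0, nat_lit 0, nat_lit 0, nat_lit 0, nat_lit 0, nat_lit 0, nat_lit 11, nat_lit 400000, nat_lit 0, nat_lit 0, [(nat_lit 29, [(nat_lit 1, nat_lit 930), (nat_lit 5, nat_lit 70)])],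
 ⟨p106_k43, nat_lit 0, nat_lit 0, nat_lit 156, nat_lit 0, nat_lit 0, [nat_lit 736928800, nat_lit 5608000], [], [nat_lit 24911260174, nat_lit 25891862042, nat_lit 25818237439, nat_lit 27064702961, nat_lit 24485542744, nat_lit 25434215264, nat_lit 25437249809, nat_lit 26352531273], nat_lit 0, nat_lit 0, nat_lit 0, nat_lit 0, nat_lit 0, nat_lit 0, [], [nat_lit 88, nat_lit 40, nat_lit 40, nat_lit 80, nat_lit 89, nat_lit 226, nat_lit 20, nat_lit 7]⟩, C1.Rw.none,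
 ⟨nat_lit 0, nat_lit 2237, ⟨.ofNat (nat_lit 614026), .ofNat (nat_lit 653935), .ofNat (nat_lit 636802), .ofNat (nat_lit 676711), .ofNat (nat_lit 599995), .ofNat (nat_lit 634993), .ofNat (nat_lit 624997), .ofNat (nat_lit 659995)⟩, ⟨.ofNat (nat_lit 50000), .ofNat (nat_lit 192306), .ofNat (nat_lit 50000), .ofNat (nat_lit 200000), .ofNat (nat_lit 50000), .ofNat (nat_lit 199999), .ofNat (nat_lit 50000), .ofNat (nat_lit 200000)⟩⟩, [⟨nat_lit 13, nat_lit 44, nat_lit 86, nat_lit 100, nat_lit 356851486⟩, ⟨nat_lit 3, nat_lit 100, nat_lit 54, nat_lit 57, nat_lit 253676227⟩]⟩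
noncomputable def p106_l124 : Lf2 := ⟨nat_lit 0, nat_lit 25, [nat_lit 44, nat_lit 5, nat_lit 5, nat_lit 20], false, nat_lit 20, nat_lit 80, nat_lit 0, nat_lit 300, ⟨nat_lit 121, nat_lit 757, nat_lit 122, nat_lit 7, nat_lit 266, nat_lit 879, nat_lit 49, nat_lit 122, nat_lit 22817, nat_lit 252, nat_lit 127760, nat_lit 200, nat_lit 45218515, nat_lit 20290071, nat_lit 1491414, nat_lit 3680756, true, true⟩,
 nat_lit 0, nat_lit 0, nat_lit 2458, nat_lit 0, nat_lit 2458, nat_lit 1175, nat_lit 0, nat_lit 0, nat_lit 0, nat_lit 132, nat_lit 0, nat_lit 0, nat_lit 0, nat_lit 0, nat_lit 0, nat_lit 351600, nat_lit 0, nat_lit 0, [(nat_lit 29, [(nat_lit 1, nat_lit 757), (nat_lit 5, nat_lit 122)])],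
 ⟨p106_k44, nat_lit 0, nat_lit 0, nat_lit 147, nat_lit 0, nat_lit 0, [nat_lit 714606000, nat_lit 440671867, nat_lit 301392800], [], [nat_lit 25130401754, nat_lit 25650593859, nat_lit 26449680683, nat_lit 26968901350, nat_lit 24683329628, nat_lit 25182110634, nat_lit 25958229672, nat_lit 26424212729], nat_lit 0, nat_lit 0, nat_lit 0, nat_lit 0, nat_lit 0, nat_lit 0, [], [nat_lit 20, nat_lit 40, nat_lit 40, nat_lit 80, nat_lit 16, nat_lit 226, nat_lit 20, nat_lit 7]⟩, ⟨p106_k29, nat_lit 0, nat_lit 0, nat_lit 767, nat_lit 0, nat_lit 856179, [nat_lit 756250000, nat_lit 1190882000, nat_lit 1984400000], [], [nat_lit 4511353586, nat_lit 4510275139, nat_lit 4678464659, nat_lit 4695502069, nat_lit 3589425270, nat_lit 3580589521, nat_lit 3655896846, nat_lit 3651069862], nat_lit 1271250, nat_lit 1271250, nat_lit 1271250, nat_lit 1271250, nat_lit 0, nat_lit 2118750, [nat_lit 1412500, nat_lit 1271250, nat_lit 1271250], [nat_lit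 118, nat_lit 40, nat_lit 40, nat_lit 80, nat_lit 73, nat_lit 456, nat_lit 225, nat_lit 9]⟩,
 ⟨nat_lit 1581, nat_lit 2237, ⟨.ofNat (nat_lit 636804), .ofNat (nat_lit 688118), .ofNat (nat_lit 648191), .ofNat (nat_lit 699505), .ofNat (nat_lit 632585), .ofNat (nat_lit 681757), .ofNat (nat_lit 644243), .ofNat (nat_lit 693415)⟩, ⟨.ofNat (nat_lit 50000), .ofNat (nat_lit 192306), .ofNat (nat_lit 50000), .ofNat (nat_lit 200000), .ofNat (nat_lit 50000), .ofNat (nat_lit 196201), .ofNat (nat_lit 50000), .ofNat (nat_lit 200000)⟩⟩, [⟨nat_lit 13, nat_lit 38, nat_lit 88, nat_lit 100, nat_lit 352281563⟩, ⟨nat_lit 3, nat_lit 100, nat_lit 45, nat_lit 67, nat_lit 238897469⟩, ⟨nat_lit 22, nat_lit 89, nat_lit 100, nat_lit 68, nat_lit 7412482⟩]⟩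
noncomputable def p106_l125 : Lf2 := ⟨nat_lit 0, nat_lit 25, [nat_lit 44, nat_lit 5, nat_lit 5, nat_lit 20], true, nat_lit 36, nat_lit 80, nat_lit 0, nat_lit 300, ⟨nat_lit 0, nat_lit 842, nat_lit 158, nat_lit 7, nat_lit 257, nat_lit 1000, nat_lit 58, nat_lit 158, nat_lit 30817, nat_lit 258, nat_lit 50012, nat_lit 200, nat_lit 45829185, nat_lit 19269307, nat_lit 1901508, nat_lit 3739094, true, true⟩,
 nat_lit 0, nat_lit 0, nat_lit 0, nat_lit 3294, nat_lit 2539, nat_lit 0, nat_lit 0, nat_lit 0, nat_lit 0, nat_lit 0, nat_lit 0, nat_lit 0, nat_lit 0, nat_lit 0, nat_lit 0, nat_lit 250000, nat_lit 0, nat_lit 0, [(nat_lit 29, [(nat_lit 0, nat_lit 842), (nat_lit 4, nat_lit 158)])],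
 ⟨p106_k45, nat_lit 0, nat_lit 0, nat_lit 122, nat_lit 0, nat_lit 0, [nat_lit 778440000, nat_lit 713947200, nat_lit 874592000], [], [nat_lit 25352286830, nat_lit 25935785956, nat_lit 25786696860, nat_lit 26444147541, nat_lit 24972810714, nat_lit 25479267540, nat_lit 25391857719, nat_lit 25887094874], nat_lit 0, nat_lit 0, nat_lit 0, nat_lit 0, nat_lit 0, nat_lit 0, [], [nat_lit 35, nat_lit 40, nat_lit 40, nat_lit 80, nat_lit 22, nat_lit 226, nat_lit 20, nat_lit 8]⟩, C1.Rw.none,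
 ⟨nat_lit 0, nat_lit 1582, ⟨.ofNat (nat_lit 632583), .ofNat (nat_lit 648973), .ofNat (nat_lit 644241), .ofNat (nat_lit 660631), .ofNat (nat_lit 624997), .ofNat (nat_lit 639996), .ofNat (nat_lit 637497), .ofNat (nat_lit 652497)⟩, ⟨.ofNat (nat_lit 90000), .ofNat (nat_lit 196201), .ofNat (nat_lit 90000), .ofNat (nat_lit 200000), .ofNat (nat_lit 90000), .ofNat (nat_lit 199999), .ofNat (nat_lit 90000), .ofNat (nat_lit 200000)⟩⟩, [⟨nat_lit 13, nat_lit 32, nat_lit 90, nat_lit 100, nat_lit 575956930⟩, ⟨nat_lit 3, nat_lit 100, nat_lit 39, nat_lit 72, nat_lit 388300501⟩]⟩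
noncomputable def p106_l126 : Lf2 := ⟨nat_lit 0, nat_lit 25, [nat_lit 44, nat_lit 5, nat_lit 5, nat_lit 20], false, nat_lit 20, nat_lit 80, nat_lit 0, nat_lit 300, ⟨nat_lit 137, nat_lit 863, nat_lit 0, nat_lit 7, nat_lit 273, nat_lit 863, nat_lit 49, nat_lit 0, nat_lit 0, nat_lit 0, nat_lit 0, nat_lit 0, nat_lit 44523306, nat_lit 20996694, nat_lit 1480000, nat_lit 3718787, true, true⟩,
 nat_lit 0, nat_lit 0, nat_lit 2485, nat_lit 0, nat_lit 2464, nat_lit 1251, nat_lit 50, nat_lit 0, nat_lit 0, nat_lit 132, nat_lit 0, nat_lit 0, nat_lit 0, nat_lit 0, nat_lit 0, nat_lit 345200, nat_lit 0, nat_lit 0, [(nat_lit 29, [(nat_lit 1, nat_lit 863)])],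
 ⟨p106_k44, nat_lit 0, nat_lit 0, nat_lit 148, nat_lit 0, nat_lit 0, [nat_lit 731225200, nat_lit 736150001, nat_lit 937372000], [], [nat_lit 25250167882, nat_lit 25770845222, nat_lit 26876060143, nat_lit 27353816116, nat_lit 24822883205, nat_lit 25299070922, nat_lit 26370757218, nat_lit 26829846371], nat_lit 0, nat_lit 0, nat_lit 0, nat_lit 0, nat_lit 0, nat_lit 0, [], [nat_lit 20, nat_lit 40, nat_lit 40, nat_lit 80, nat_lit 16, nat_lit 226, nat_lit 20, nat_lit 7]⟩, ⟨p106_k36, nat_lit 0, nat_lit 0, nat_lit 686, nat_lit 0, nat_lit 833676, [nat_lit 856250000, nat_lit 1348354000, nat_lit 1925946000], [], [nat_lit 5046996627, nat_lit 5047310628, nat_lit 5157659823, nat_lit 5154146161, nat_lit 4091225125, nat_lit 4080847471, nat_lit 4173868282, nat_lit 4181855601], nat_lit 1271250, nat_lit 1271250, nat_lit 1271250, nat_lit 1271250, nat_lit 0, nat_lit 2118750, [nat_lit 1412500, nat_lit 1271250, nat_lit 1271250], [nat_lit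 60, nat_lit 40, nat_lit 40, nat_lit 80, nat_lit 32, nat_lit 456, nat_lit 225, nat_lit 10]⟩,
 ⟨nat_lit 1581, nat_lit 2237, ⟨.ofNat (nat_lit 648191), .ofNat (nat_lit 710908), .ofNat (nat_lit 659578), .ofNat (nat_lit 722295), .ofNat (nat_lit 644243), .ofNat (nat_lit 704342), .ofNat (nat_lit 655900), .ofNat (nat_lit 715999)⟩, ⟨.ofNat (nat_lit 50000), .ofNat (nat_lit 192306), .ofNat (nat_lit 50000), .ofNat (nat_lit 200000), .ofNat (nat_lit 50000), .ofNat (nat_lit 196201), .ofNat (nat_lit 50000), .ofNat (nat_lit 200000)⟩⟩, [⟨nat_lit 13, nat_lit 39, nat_lit 86, nat_lit 100, nat_lit 301309732⟩, ⟨nat_lit 3, nat_lit 100, nat_lit 45, nat_lit 67, nat_lit 205592104⟩, ⟨nat_lit 22, nat_lit 88, nat_lit 100, nat_lit 67, nat_lit 14585849⟩]⟩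
noncomputable def p106_l127 : Lf2 := ⟨nat_lit 0, nat_lit 25, [nat_lit 44, nat_lit 5, nat_lit 5, nat_lit 20], true, nat_lit 36, nat_lit 80, nat_lit 0, nat_lit 300, ⟨nat_lit 0, nat_lit 1000, nat_lit 0, nat_lit 7, nat_lit 264, nat_lit 1000, nat_lit 58, nat_lit 0, nat_lit 0, nat_lit 0, nat_lit 0, nat_lit 0, nat_lit 45129185, nat_lit 19983161, nat_lit 1887654, nat_lit 3780778, true, true⟩,
 nat_lit 0, nat_lit 0, nat_lit 0, nat_lit 3684, nat_lit 2537, nat_lit 0, nat_lit 46, nat_lit 0, nat_lit 0, nat_lit 0, nat_lit 0, nat_lit 0, nat_lit 0, nat_lit 0, nat_lit 0, nat_lit 250000, nat_lit 0, nat_lit 0, [(nat_lit 29, [(nat_lit 0, nat_lit 1000)])],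
 ⟨p106_k45, nat_lit 0, nat_lit 0, nat_lit 124, nat_lit 0, nat_lit 0, [nat_lit 781600001, nat_lit 1046000001, nat_lit 1376400000], [], [nat_lit 25426216458, nat_lit 25948552239, nat_lit 26142047611, nat_lit 26778595256, nat_lit 25047546714, nat_lit 25553850472, nat_lit 25745827315, nat_lit 26233441298], nat_lit 0, nat_lit 0, nat_lit 0, nat_lit 0, nat_lit 0, nat_lit 0, [], [nat_lit 35, nat_lit 40, nat_lit 40, nat_lit 80, nat_lit 22, nat_lit 226, nat_lit 20, nat_lit 8]⟩, C1.Rw.none,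
 ⟨nat_lit 0, nat_lit 1582, ⟨.ofNat (nat_lit 644241), .ofNat (nat_lit 671558), .ofNat (nat_lit 655899), .ofNat (nat_lit 683216), .ofNat (nat_lit 637497), .ofNat (nat_lit 662496), .ofNat (nat_lit 649998), .ofNat (nat_lit 674997)⟩, ⟨.ofNat (nat_lit 90000), .ofNat (nat_lit 196201), .ofNat (nat_lit 90000), .ofNat (nat_lit 200000), .ofNat (nat_lit 90000), .ofNat (nat_lit 199999), .ofNat (nat_lit 90000), .ofNat (nat_lit 200000)⟩⟩, [⟨nat_lit 13, nat_lit 32, nat_lit 89, nat_lit 100, nat_lit 539701165⟩, ⟨nat_lit 3, nat_lit 100, nat_lit 39, nat_lit 72, nat_lit 377695719⟩]⟩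
noncomputable def p106_l128 : Lf2 := ⟨nat_lit 0, nat_lit 25, [nat_lit 44, nat_lit 5, nat_lit 5, nat_lit 20], true, nat_lit 32, nat_lit 60, nat_lit 0, nat_lit 276, ⟨nat_lit 0, nat_lit 879, nat_lit 121, nat_lit 7, nat_lit 257, nat_lit 1000, nat_lit 46, nat_lit 121, nat_lit 20417, nat_lit 250, nat_lit 82180, nat_lit 200, nat_lit 46281170, nat_lit 19366015, nat_lit 1352815, nat_lit 3578210, true, true⟩,
 nat_lit 0, nat_lit 0, nat_lit 0, nat_lit 7833, nat_lit 2197, nat_lit 0, nat_lit 0, nat_lit 0, nat_lit 0, nat_lit 0, nat_lit 0, nat_lit 0, nat_lit 0, nat_lit 0, nat_lit 22, nat_lit 400000, nat_lit 0, nat_lit 0, [(nat_lit 29, [(nat_lit 1, nat_lit 879), (nat_lit 5, nat_lit 121)])],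
 ⟨p106_k44, nat_lit 0, nat_lit 0, nat_lit 139, nat_lit 0, nat_lit 0, [nat_lit 773719200, nat_lit 349756934, nat_lit 922400], [], [nat_lit 24243050352, nat_lit 24748847059, nat_lit 25251548244, nat_lit 25811448079, nat_lit 24064766170, nat_lit 24561178611, nat_lit 25080309476, nat_lit 25615353437], nat_lit 0, nat_lit 0, nat_lit 0, nat_lit 0, nat_lit 0, nat_lit 0, [], [nat_lit 20, nat_lit 40, nat_lit 40, nat_lit 80, nat_lit 16, nat_lit 226, nat_lit 20, nat_lit 7]⟩, C1.Rw.none,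
 ⟨nat_lit 1581, nat_lit 2237, ⟨.ofNat (nat_lit 614030), .ofNat (nat_lit 653941), .ofNat (nat_lit 636804), .ofNat (nat_lit 676715), .ofNat (nat_lit 609270), .ofNat (nat_lit 647515), .ofNat (nat_lit 632585), .ofNat (nat_lit 670830)⟩, ⟨.ofNat (nat_lit 80000), .ofNat (nat_lit 150000), .ofNat (nat_lit 80000), .ofNat (nat_lit 150000), .ofNat (nat_lit 80000), .ofNat (nat_lit 150000), .ofNat (nat_lit 80000), .ofNat (nat_lit 150000)⟩⟩, [⟨nat_lit 13, nat_lit 44, nat_lit 86, nat_lit 100, nat_lit 411312920⟩, ⟨nat_lit 3, nat_lit 100, nat_lit 50, nat_lit 65, nat_lit 253316370⟩]⟩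
noncomputable def p106_l129 : Lf2 := ⟨nat_lit 0, nat_lit 30, [nat_lit 15, nat_lit 5, nat_lit 5, nat_lit 20], false, nat_lit 32, nat_lit 60, nat_lit 0, nat_lit 276, ⟨nat_lit 241, nat_lit 66, nat_lit 693, nat_lit 7, nat_lit 257, nat_lit 759, nat_lit 46, nat_lit 693, nat_lit 20417, nat_lit 250, nat_lit 82180, nat_lit 200, nat_lit 46281170, nat_lit 19366015, nat_lit 1352815, nat_lit 3578210, true, true⟩,
 nat_lit 0, nat_lit 0, nat_lit 5831, nat_lit 0, nat_lit 2203, nat_lit 2499, nat_lit 0, nat_lit 0, nat_lit 0, nat_lit 249, nat_lit 0, nat_lit 0, nat_lit 0, nat_lit 0, nat_lit 75, nat_lit 293700, nat_lit 0, nat_lit 0, [(nat_lit 29, [(nat_lit 0, nat_lit 66), (nat_lit 5, nat_lit 693)])],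
 ⟨p106_k38, nat_lit 0, nat_lit 0, nat_lit 157, nat_lit 0, nat_lit 0, [nat_lit 989008400, nat_lit 531751200, nat_lit 372781200], [], [nat_lit 24239742102, nat_lit 24716395980, nat_lit 25249751190, nat_lit 25824736330, nat_lit 24050640505, nat_lit 24531086519, nat_lit 25091804505, nat_lit 25627392874], nat_lit 0, nat_lit 0, nat_lit 0, nat_lit 0, nat_lit 0, nat_lit 0, [], [nat_lit 54, nat_lit 40, nat_lit 40, nat_lit 80, nat_lit 43, nat_lit 226, nat_lit 20, nat_lit 6]⟩, ⟨p106_k27, nat_lit 0, nat_lit 0, nat_lit 511, nat_lit 0, nat_lit 330646, [nat_lit 1506250000, nat_lit 2371922000, nat_lit 3952400000], [], [nat_lit 9651810754, nat_lit 9613760396, nat_lit 9804669813, nat_lit 9852159743, nat_lit 7307296114, nat_lit 7294882989, nat_lit 7503455838, nat_lit 7533492783], nat_lit 1271250, nat_lit 1271250, nat_lit 1271250, nat_lit 1271250, nat_lit 0, nat_lit 1949250, [nat_lit 1412500, nat_lit 1271250, nat_lit 1271250], [nat_lit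 118, nat_lit 40, nat_lit 40, nat_lit 80, nat_lit 73, nat_lit 456, nat_lit 225, nat_lit 9]⟩,
 ⟨nat_lit 1581, nat_lit 2237, ⟨.ofNat (nat_lit 614030), .ofNat (nat_lit 653941), .ofNat (nat_lit 636804), .ofNat (nat_lit 676715), .ofNat (nat_lit 609270), .ofNat (nat_lit 647515), .ofNat (nat_lit 632585), .ofNat (nat_lit 670830)⟩, ⟨.ofNat (nat_lit 80000), .ofNat (nat_lit 150000), .ofNat (nat_lit 80000), .ofNat (nat_lit 150000), .ofNat (nat_lit 80000), .ofNat (nat_lit 150000), .ofNat (nat_lit 80000), .ofNat (nat_lit 150000)⟩⟩, [⟨nat_lit 13, nat_lit 38, nat_lit 91, nat_lit 100, nat_lit 473053105⟩, ⟨nat_lit 3, nat_lit 100, nat_lit 43, nat_lit 73, nat_lit 224729861⟩]⟩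
noncomputable def p106_l130 : Lf2 := ⟨nat_lit 0, nat_lit 30, [nat_lit 15, nat_lit 5, nat_lit 5, nat_lit 20], true, nat_lit 48, nat_lit 60, nat_lit 0, nat_lit 276, ⟨nat_lit 0, nat_lit 476, nat_lit 524, nat_lit 7, nat_lit 248, nat_lit 1000, nat_lit 54, nat_lit 524, nat_lit 26667, nat_lit 255, nat_lit 4842, nat_lit 200, nat_lit 46935905, nat_lit 18330537, nat_lit 1733558, nat_lit 3625228, true, true⟩,
 nat_lit 0, nat_lit 0, nat_lit 0, nat_lit 6049, nat_lit 2342, nat_lit 0, nat_lit 0, nat_lit 0, nat_lit 0, nat_lit 0, nat_lit 0, nat_lit 0, nat_lit 0, nat_lit 0, nat_lit 27, nat_lit 250000, nat_lit 0, nat_lit 0, [(nat_lit 29, [(nat_lit 0, nat_lit 476), (nat_lit 4, nat_lit 524)])],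
 ⟨p106_k46, nat_lit 0, nat_lit 0, nat_lit 129, nat_lit 0, nat_lit 0, [nat_lit 879120001, nat_lit 291118934, nat_lit 16398400], [], [nat_lit 24663479920, nat_lit 25303197319, nat_lit 24826333314, nat_lit 25468446397, nat_lit 24564700814, nat_lit 25158268708, nat_lit 24726522222, nat_lit 25315396048], nat_lit 0, nat_lit 0, nat_lit 0, nat_lit 0, nat_lit 0, nat_lit 0, [], [nat_lit 20, nat_lit 40, nat_lit 40, nat_lit 80, nat_lit 16, nat_lit 226, nat_lit 20, nat_lit 7]⟩, C1.Rw.none,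
 ⟨nat_lit 0, nat_lit 1582, ⟨.ofNat (nat_lit 609267), .ofNat (nat_lit 614730), .ofNat (nat_lit 632583), .ofNat (nat_lit 638046), .ofNat (nat_lit 599996), .ofNat (nat_lit 604995), .ofNat (nat_lit 624997), .ofNat (nat_lit 629996)⟩, ⟨.ofNat (nat_lit 120000), .ofNat (nat_lit 150000), .ofNat (nat_lit 120000), .ofNat (nat_lit 150000), .ofNat (nat_lit 120000), .ofNat (nat_lit 150000), .ofNat (nat_lit 120000), .ofNat (nat_lit 150000)⟩⟩, [⟨nat_lit 13, nat_lit 31, nat_lit 92, nat_lit 100, nat_lit 771537060⟩, ⟨nat_lit 3, nat_lit 100, nat_lit 36, nat_lit 77, nat_lit 425383163⟩]⟩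
noncomputable def p106_l131 : Lf2 := ⟨nat_lit 0, nat_lit 30, [nat_lit 15, nat_lit 5, nat_lit 5, nat_lit 20], true, nat_lit 60, nat_lit 80, nat_lit 0, nat_lit 300, ⟨nat_lit 0, nat_lit 627, nat_lit 373, nat_lit 7, nat_lit 255, nat_lit 1000, nat_lit 70, nat_lit 373, nat_lit 45067, nat_lit 267, nat_lit 82172, nat_lit 200, nat_lit 45515264, nat_lit 18953049, nat_lit 2531687, nat_lit 3890562, true, true⟩,
 nat_lit 0, nat_lit 0, nat_lit 0, nat_lit 10056, nat_lit 2139, nat_lit 0, nat_lit 0, nat_lit 0, nat_lit 0, nat_lit 0, nat_lit 0, nat_lit 0, nat_lit 0, nat_lit 0, nat_lit 84, nat_lit 400000, nat_lit 0, nat_lit 0, [(nat_lit 29, [(nat_lit 1, nat_lit 627), (nat_lit 5, nat_lit 373)])],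
 ⟨p106_k38, nat_lit 0, nat_lit 0, nat_lit 145, nat_lit 0, nat_lit 0, [nat_lit 995309600, nat_lit 554760400, nat_lit 176855200], [], [nat_lit 23628274322, nat_lit 24773792268, nat_lit 24765463998, nat_lit 25848951847, nat_lit 23512326376, nat_lit 24641676936, nat_lit 24637177703, nat_lit 25705943432], nat_lit 0, nat_lit 0, nat_lit 0, nat_lit 0, nat_lit 0, nat_lit 0, [], [nat_lit 54, nat_lit 40, nat_lit 40, nat_lit 80, nat_lit 43, nat_lit 226, nat_lit 20, nat_lit 6]⟩, C1.Rw.none,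
 ⟨nat_lit 0, nat_lit 2237, ⟨.ofNat (nat_lit 614026), .ofNat (nat_lit 653935), .ofNat (nat_lit 636802), .ofNat (nat_lit 676711), .ofNat (nat_lit 599995), .ofNat (nat_lit 634993), .ofNat (nat_lit 624997), .ofNat (nat_lit 659995)⟩, ⟨.ofNat (nat_lit 150000), .ofNat (nat_lit 200000), .ofNat (nat_lit 150000), .ofNat (nat_lit 200000), .ofNat (nat_lit 150000), .ofNat (nat_lit 200000), .ofNat (nat_lit 150000), .ofNat (nat_lit 200000)⟩⟩, [⟨nat_lit 13, nat_lit 31, nat_lit 93, nat_lit 100, nat_lit 722361389⟩, ⟨nat_lit 3, nat_lit 100, nat_lit 35, nat_lit 79, nat_lit 9019453⟩]⟩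
noncomputable def p106_l132 : Lf2 := ⟨nat_lit 0, nat_lit 30, [nat_lit 15, nat_lit 5, nat_lit 5, nat_lit 20], false, nat_lit 32, nat_lit 80, nat_lit 0, nat_lit 300, ⟨nat_lit 316, nat_lit 684, nat_lit 0, nat_lit 7, nat_lit 267, nat_lit 684, nat_lit 56, nat_lit 0, nat_lit 0, nat_lit 0, nat_lit 0, nat_lit 0, nat_lit 44919454, nat_lit 20285570, nat_lit 1794976, nat_lit 3772320, true, true⟩,
 nat_lit 0, nat_lit 0, nat_lit 6033, nat_lit 0, nat_lit 2265, nat_lit 2885, nat_lit 261, nat_lit 0, nat_lit 0, nat_lit 277, nat_lit 0, nat_lit 0, nat_lit 0, nat_lit 0, nat_lit 0, nat_lit 273600, nat_lit 0, nat_lit 0, [(nat_lit 29, [(nat_lit 1, nat_lit 684)])],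
 ⟨p106_k38, nat_lit 0, nat_lit 0, nat_lit 157, nat_lit 0, nat_lit 0, [nat_lit 774113601, nat_lit 1264200000, nat_lit 2555371200], [], [nat_lit 24547836985, nat_lit 24788458730, nat_lit 25777586625, nat_lit 26004792333, nat_lit 24195193957, nat_lit 24428347907, nat_lit 25394395672, nat_lit 25618824509], nat_lit 0, nat_lit 0, nat_lit 0, nat_lit 0, nat_lit 0, nat_lit 0, [], [nat_lit 54, nat_lit 40, nat_lit 40, nat_lit 80, nat_lit 43, nat_lit 226, nat_lit 20, nat_lit 6]⟩, ⟨p106_k29, nat_lit 0, nat_lit 0, nat_lit 608, nat_lit 0, nat_lit 462382, [nat_lit 1975000000, nat_lit 3110072000, nat_lit 5182400000], [], [nat_lit 12679310375, nat_lit 12675072598, nat_lit 12897456296, nat_lit 12911182168, nat_lit 10266557298, nat_lit 10263165402, nat_lit 10457886460, nat_lit 10451261962], nat_lit 1271250, nat_lit 1271250, nat_lit 1271250, nat_lit 1271250, nat_lit 0, nat_lit 2118750, [nat_lit 1412500, nat_lit 1271250, nat_lit 1271250],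 [nat_lit 118, nat_lit 40, nat_lit 40, nat_lit 80, nat_lit 73, nat_lit 456, nat_lit 225, nat_lit 9]⟩,
 ⟨nat_lit 1936, nat_lit 2237, ⟨.ofNat (nat_lit 636804), .ofNat (nat_lit 688118), .ofNat (nat_lit 648191), .ofNat (nat_lit 699505), .ofNat (nat_lit 634788), .ofNat (nat_lit 685088), .ofNat (nat_lit 646293), .ofNat (nat_lit 696593)⟩, ⟨.ofNat (nat_lit 80000), .ofNat (nat_lit 200000), .ofNat (nat_lit 80000), .ofNat (nat_lit 200000), .ofNat (nat_lit 80000), .ofNat (nat_lit 200000), .ofNat (nat_lit 80000), .ofNat (nat_lit 200000)⟩⟩, [⟨nat_lit 13, nat_lit 38, nat_lit 89, nat_lit 100, nat_lit 88515208⟩, ⟨nat_lit 3, nat_lit 100, nat_lit 46, nat_lit 71, nat_lit 92312756⟩, ⟨nat_lit 22, nat_lit 90, nat_lit 100, nat_lit 72, nat_lit 24868774⟩]⟩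
noncomputable def p106_l133 : Lf2 := ⟨nat_lit 0, nat_lit 30, [nat_lit 15, nat_lit 5, nat_lit 5, nat_lit 20], false, nat_lit 32, nat_lit 80, nat_lit 0, nat_lit 300, ⟨nat_lit 378, nat_lit 622, nat_lit 0, nat_lit 7, nat_lit 274, nat_lit 622, nat_lit 56, nat_lit 0, nat_lit 0, nat_lit 0, nat_lit 0, nat_lit 0, nat_lit 44232217, nat_lit 20986769, nat_lit 1781014, nat_lit 3809289, true, true⟩,
 nat_lit 0, nat_lit 0, nat_lit 6576, nat_lit 0, nat_lit 2372, nat_lit 3311, nat_lit 272, nat_lit 0, nat_lit 0, nat_lit 459, nat_lit 0, nat_lit 0, nat_lit 0, nat_lit 0, nat_lit 0, nat_lit 248800, nat_lit 0, nat_lit 0, [(nat_lit 29, [(nat_lit 1, nat_lit 622)])],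
 ⟨p106_k38, nat_lit 0, nat_lit 0, nat_lit 158, nat_lit 0, nat_lit 0, [nat_lit 788968800, nat_lit 1447100000, nat_lit 3045989600], [], [nat_lit 24855572439, nat_lit 25100154575, nat_lit 26385577191, nat_lit 26610486495, nat_lit 24453797664, nat_lit 24690731924, nat_lit 25969636656, nat_lit 26232322501], nat_lit 0, nat_lit 0, nat_lit 0, nat_lit 0, nat_lit 0, nat_lit 0, [], [nat_lit 54, nat_lit 40, nat_lit 40, nat_lit 80, nat_lit 43, nat_lit 226, nat_lit 20, nat_lit 6]⟩, ⟨p106_k39, nat_lit 0, nat_lit 0, nat_lit 608, nat_lit 0, nat_lit 472449, [nat_lit 2362500000, nat_lit 3720276000, nat_lit 6199200000], [], [nat_lit 13099196723, nat_lit 13139531318, nat_lit 13644285021, nat_lit 13669649038, nat_lit 11008457079, nat_lit 11007273603, nat_lit 11288933524, nat_lit 11277964746], nat_lit 1271250, nat_lit 1271250, nat_lit 1271250, nat_lit 1271250, nat_lit 0, nat_lit 2118750, [nat_lit 1412500, nat_lit 1271250, nat_lit 1271250],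 [nat_lit 118, nat_lit 40, nat_lit 40, nat_lit 80, nat_lit 73, nat_lit 456, nat_lit 225, nat_lit 9]⟩,
 ⟨nat_lit 1936, nat_lit 2237, ⟨.ofNat (nat_lit 648191), .ofNat (nat_lit 710908), .ofNat (nat_lit 659578), .ofNat (nat_lit 722295), .ofNat (nat_lit 646293), .ofNat (nat_lit 707771), .ofNat (nat_lit 657798), .ofNat (nat_lit 719277)⟩, ⟨.ofNat (nat_lit 80000), .ofNat (nat_lit 200000), .ofNat (nat_lit 80000), .ofNat (nat_lit 200000), .ofNat (nat_lit 80000), .ofNat (nat_lit 200000), .ofNat (nat_lit 80000), .ofNat (nat_lit 200000)⟩⟩, [⟨nat_lit 13, nat_lit 38, nat_lit 87, nat_lit 100, nat_lit 6511974⟩, ⟨nat_lit 3, nat_lit 100, nat_lit 46, nat_lit 71, nat_lit 24492345⟩, ⟨nat_lit 22, nat_lit 88, nat_lit 100, nat_lit 71, nat_lit 45458669⟩]⟩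
noncomputable def p106_l134 : Lf2 := ⟨nat_lit 0, nat_lit 30, [nat_lit 15, nat_lit 5, nat_lit 5, nat_lit 20], false, nat_lit 40, nat_lit 80, nat_lit 0, nat_lit 300, ⟨nat_lit 178, nat_lit 416, nat_lit 406, nat_lit 7, nat_lit 262, nat_lit 822, nat_lit 60, nat_lit 406, nat_lit 33750, nat_lit 260, nat_lit 88404, nat_lit 200, nat_lit 45200825, nat_lit 19800869, nat_lit 1998306, nat_lit 3801029, true, true⟩,
 nat_lit 0, nat_lit 0, nat_lit 3450, nat_lit 0, nat_lit 2470, nat_lit 1649, nat_lit 0, nat_lit 0, nat_lit 0, nat_lit 161, nat_lit 0, nat_lit 0, nat_lit 0, nat_lit 0, nat_lit 0, nat_lit 266400, nat_lit 0, nat_lit 0, [(nat_lit 29, [(nat_lit 0, nat_lit 416), (nat_lit 5, nat_lit 406)])],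
 ⟨p106_k47, nat_lit 0, nat_lit 0, nat_lit 133, nat_lit 0, nat_lit 0, [nat_lit 733111201, nat_lit 327886934, nat_lit 105132800], [], [nat_lit 24939302032, nat_lit 25201998722, nat_lit 25812359512, nat_lit 26087769381, nat_lit 24573001177, nat_lit 24828566892, nat_lit 25427382110, nat_lit 25671557197], nat_lit 0, nat_lit 0, nat_lit 0, nat_lit 0, nat_lit 0, nat_lit 0, [], [nat_lit 20, nat_lit 40, nat_lit 40, nat_lit 80, nat_lit 16, nat_lit 226, nat_lit 20, nat_lit 7]⟩, ⟨p106_k29, nat_lit 0, nat_lit 0, nat_lit 657, nat_lit 0, nat_lit 598588, [nat_lit 1112500000, nat_lit 1751876000, nat_lit 2919200000], [], [nat_lit 7021434431, nat_lit 7018525792, nat_lit 7112485138, nat_lit 7121448423, nat_lit 5683113513, nat_lit 5680712320, nat_lit 5754805023, nat_lit 5750570720], nat_lit 1271250, nat_lit 1271250, nat_lit 1271250, nat_lit 1271250, nat_lit 0, nat_lit 2118750, [nat_lit 1412500, nat_lit 1271250, nat_lit 1271250], [nat_lit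 118, nat_lit 40, nat_lit 40, nat_lit 80, nat_lit 73, nat_lit 456, nat_lit 225, nat_lit 9]⟩,
 ⟨nat_lit 1581, nat_lit 1937, ⟨.ofNat (nat_lit 634788), .ofNat (nat_lit 668321), .ofNat (nat_lit 646293), .ofNat (nat_lit 679827), .ofNat (nat_lit 632585), .ofNat (nat_lit 665367), .ofNat (nat_lit 644243), .ofNat (nat_lit 677024)⟩, ⟨.ofNat (nat_lit 100000), .ofNat (nat_lit 200000), .ofNat (nat_lit 100000), .ofNat (nat_lit 200000), .ofNat (nat_lit 100000), .ofNat (nat_lit 200000), .ofNat (nat_lit 100000), .ofNat (nat_lit 200000)⟩⟩, [⟨nat_lit 13, nat_lit 35, nat_lit 89, nat_lit 100, nat_lit 361836451⟩, ⟨nat_lit 3, nat_lit 100, nat_lit 39, nat_lit 76, nat_lit 274733809⟩, ⟨nat_lit 22, nat_lit 93, nat_lit 100, nat_lit 75, nat_lit 13352753⟩]⟩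
noncomputable def p106_l135 : Lf2 := ⟨nat_lit 0, nat_lit 30, [nat_lit 15, nat_lit 5, nat_lit 5, nat_lit 20], false, nat_lit 40, nat_lit 80, nat_lit 0, nat_lit 300, ⟨nat_lit 228, nat_lit 772, nat_lit 0, nat_lit 7, nat_lit 269, nat_lit 772, nat_lit 60, nat_lit 0, nat_lit 0, nat_lit 0, nat_lit 0, nat_lit 0, nat_lit 44514634, nat_lit 20502204, nat_lit 1983162, nat_lit 3839511, true, true⟩,
 nat_lit 0, nat_lit 0, nat_lit 4103, nat_lit 0, nat_lit 2503, nat_lit 2066, nat_lit 104, nat_lit 0, nat_lit 0, nat_lit 256, nat_lit 0, nat_lit 0, nat_lit 0, nat_lit 0, nat_lit 0, nat_lit 308800, nat_lit 0, nat_lit 0, [(nat_lit 29, [(nat_lit 1, nat_lit 772)])],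
 ⟨p106_k47, nat_lit 0, nat_lit 0, nat_lit 135, nat_lit 0, nat_lit 0, [nat_lit 753028800, nat_lit 1004600001, nat_lit 1497568000], [], [nat_lit 25093242942, nat_lit 25357286098, nat_lit 26261081978, nat_lit 26509146351, nat_lit 24714261128, nat_lit 24971121581, nat_lit 25857062430, nat_lit 26098603274], nat_lit 0, nat_lit 0, nat_lit 0, nat_lit 0, nat_lit 0, nat_lit 0, [], [nat_lit 20, nat_lit 40, nat_lit 40, nat_lit 80, nat_lit 16, nat_lit 226, nat_lit 20, nat_lit 7]⟩, ⟨p106_k39, nat_lit 0, nat_lit 0, nat_lit 652, nat_lit 0, nat_lit 595248, [nat_lit 1425000000, nat_lit 2243976000, nat_lit 3739200000], [], [nat_lit 8011895272, nat_lit 8057096824, nat_lit 8405848244, nat_lit 8440699186, nat_lit 6568551264, nat_lit 6566423718, nat_lit 6687006367, nat_lit 6681352893], nat_lit 1271250, nat_lit 1271250, nat_lit 1271250, nat_lit 1271250, nat_lit 0, nat_lit 2118750, [nat_lit 1412500, nat_lit 1271250, nat_lit 1271250],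 [nat_lit 118, nat_lit 40, nat_lit 40, nat_lit 80, nat_lit 73, nat_lit 456, nat_lit 225, nat_lit 9]⟩,
 ⟨nat_lit 1581, nat_lit 1937, ⟨.ofNat (nat_lit 646293), .ofNat (nat_lit 691004), .ofNat (nat_lit 657798), .ofNat (nat_lit 702510), .ofNat (nat_lit 644243), .ofNat (nat_lit 687951), .ofNat (nat_lit 655900), .ofNat (nat_lit 699609)⟩, ⟨.ofNat (nat_lit 100000), .ofNat (nat_lit 200000), .ofNat (nat_lit 100000), .ofNat (nat_lit 200000), .ofNat (nat_lit 100000), .ofNat (nat_lit 200000), .ofNat (nat_lit 100000), .ofNat (nat_lit 200000)⟩⟩, [⟨nat_lit 13, nat_lit 35, nat_lit 88, nat_lit 100, nat_lit 224996231⟩, ⟨nat_lit 3, nat_lit 100, nat_lit 39, nat_lit 76, nat_lit 211971827⟩, ⟨nat_lit 22, nat_lit 92, nat_lit 100, nat_lit 75, nat_lit 17204946⟩]⟩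
noncomputable def p106_l136 : Lf2 := ⟨nat_lit 0, nat_lit 30, [nat_lit 15, nat_lit 5, nat_lit 5, nat_lit 20], false, nat_lit 48, nat_lit 80, nat_lit 0, nat_lit 300, ⟨nat_lit 131, nat_lit 624, nat_lit 245, nat_lit 7, nat_lit 262, nat_lit 869, nat_lit 64, nat_lit 245, nat_lit 38400, nat_lit 263, nat_lit 95182, nat_lit 200, nat_lit 45122633, nat_lit 19676055, nat_lit 2201312, nat_lit 3849640, true, true⟩,
 nat_lit 0, nat_lit 0, nat_lit 2652, nat_lit 0, nat_lit 2764, nat_lit 1268, nat_lit 52, nat_lit 0, nat_lit 0, nat_lit 135, nat_lit 0, nat_lit 0, nat_lit 0, nat_lit 0, nat_lit 0, nat_lit 217250, nat_lit 0, nat_lit 0, [(nat_lit 29, [(nat_lit 0, nat_lit 624), (nat_lit 4, nat_lit 245)])],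
 ⟨p106_k46, nat_lit 0, nat_lit 0, nat_lit 132, nat_lit 0, nat_lit 0, [nat_lit 797188401, nat_lit 834477334, nat_lit 1291073600], [], [nat_lit 25693071814, nat_lit 26262165723, nat_lit 26447758504, nat_lit 27003380911, nat_lit 25198643730, nat_lit 25733896916, nat_lit 25920594334, nat_lit 26455289052], nat_lit 0, nat_lit 0, nat_lit 0, nat_lit 0, nat_lit 0, nat_lit 0, [], [nat_lit 20, nat_lit 40, nat_lit 40, nat_lit 80, nat_lit 16, nat_lit 226, nat_lit 20, nat_lit 7]⟩, ⟨p106_k29, nat_lit 0, nat_lit 0, nat_lit 813, nat_lit 0, nat_lit 918810, [nat_lit 818750000, nat_lit 1289302000, nat_lit 2148400000], [], [nat_lit 4947541658, nat_lit 4945365384, nat_lit 5039948852, nat_lit 5083210031, nat_lit 3954531488, nat_lit 3931019948, nat_lit 3985028621, nat_lit 3992170249], nat_lit 1271250, nat_lit 1271250, nat_lit 1271250, nat_lit 1271250, nat_lit 0, nat_lit 2118750, [nat_lit 1412500, nat_lit 1271250, nat_lit 1271250], [nat_lit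 118, nat_lit 40, nat_lit 40, nat_lit 80, nat_lit 73, nat_lit 456, nat_lit 225, nat_lit 9]⟩,
 ⟨nat_lit 0, nat_lit 1582, ⟨.ofNat (nat_lit 632583), .ofNat (nat_lit 659900), .ofNat (nat_lit 655899), .ofNat (nat_lit 683216), .ofNat (nat_lit 624997), .ofNat (nat_lit 649996), .ofNat (nat_lit 649998), .ofNat (nat_lit 674997)⟩, ⟨.ofNat (nat_lit 120000), .ofNat (nat_lit 200000), .ofNat (nat_lit 120000), .ofNat (nat_lit 200000), .ofNat (nat_lit 120000), .ofNat (nat_lit 200000), .ofNat (nat_lit 120000), .ofNat (nat_lit 200000)⟩⟩, [⟨nat_lit 13, nat_lit 32, nat_lit 89, nat_lit 100, nat_lit 481929916⟩, ⟨nat_lit 3, nat_lit 100, nat_lit 36, nat_lit 77, nat_lit 431303584⟩, ⟨nat_lit 22, nat_lit 95, nat_lit 100, nat_lit 78, nat_lit 7211936⟩]⟩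
noncomputable def b_V_900_500_20_15 : St := ⟨true, nat_lit 0, nat_lit 1, nat_lit 1, nat_lit 120, nat_lit 380, nat_lit 400, nat_lit 200, nat_lit 240, nat_lit 240, nat_lit 352, nat_lit 80, nat_lit 120, nat_lit 8, nat_lit 80, nat_lit 0, nat_lit 336, nat_lit 80, nat_lit 120, nat_lit 0, nat_lit 0, nat_lit 0, nat_lit 0⟩
theorem d_V_900_500_20_15 (h : EB TB.env) : Dead b_V_900_500_20_15 := chkB_sound0 h (T :=
(.trX (nat_lit 13) (nat_lit 44) (nat_lit 81) (nat_lit 100) (nat_lit 324) (.trZ (nat_lit 3) (nat_lit 100) (nat_lit 54) (nat_lit 57) (nat_lit 20) (.spl (nat_lit 2) (nat_lit 280)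
(.spl (nat_lit 3) (nat_lit 100)
(.leaf p106_l117)
(.trZ (nat_lit 3) (nat_lit 100) (nat_lit 50) (nat_lit 65) (nat_lit 32) (.spl (nat_lit 0) (nat_lit 390)
(.spl (nat_lit 1) (nat_lit 220)
(.leaf p106_l118)
(.spl (nat_lit 0) (nat_lit 385)
(.spl (nat_lit 1) (nat_lit 230)
(.leaf p106_l119)
(.leaf p106_l120))
(.trZ (nat_lit 3) (nat_lit 100) (nat_lit 44) (nat_lit 71) (nat_lit 40) (.leaf p106_l121))))
(.trZ (nat_lit 3) (nat_lit 100) (nat_lit 36) (nat_lit 77) (nat_lit 48) (.leaf p106_l122)))))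
(.trX (nat_lit 22) (nat_lit 100) (nat_lit 95) (nat_lit 87) (nat_lit 300) (.spl (nat_lit 3) (nat_lit 100)
(.spl (nat_lit 1) (nat_lit 220)
(.trX (nat_lit 13) (nat_lit 44) (nat_lit 86) (nat_lit 100) (nat_lit 308) (.leaf p106_l123))
(.spl (nat_lit 1) (nat_lit 230)
(.trX (nat_lit 13) (nat_lit 44) (nat_lit 83) (nat_lit 100) (nat_lit 316) (.spl (nat_lit 0) (nat_lit 390)
(.leaf p106_l124)
(.trX (nat_lit 13) (nat_lit 32) (nat_lit 90) (nat_lit 100) (nat_lit 292) (.trZ (nat_lit 3) (nat_lit 100) (nat_lit 39) (nat_lit 72) (nat_lit 36) (.leaf p106_l125)))))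
(.spl (nat_lit 0) (nat_lit 390)
(.leaf p106_l126)
(.trX (nat_lit 13) (nat_lit 32) (nat_lit 89) (nat_lit 100) (nat_lit 300) (.trZ (nat_lit 3) (nat_lit 100) (nat_lit 39) (nat_lit 72) (nat_lit 36) (.leaf p106_l127))))))
(.trZ (nat_lit 3) (nat_lit 100) (nat_lit 50) (nat_lit 65) (nat_lit 32) (.spl (nat_lit 1) (nat_lit 220)
(.trX (nat_lit 13) (nat_lit 44) (nat_lit 86) (nat_lit 100) (nat_lit 308) (.spl (nat_lit 4) (nat_lit 60)
(.trX (nat_lit 22) (nat_lit 99) (nat_lit 100) (nat_lit 77) (nat_lit 276) (.spl (nat_lit 0) (nat_lit 390)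
(.spl (nat_lit 6) (nat_lit 100)
(.leaf p106_l128)
(.leaf p106_l129))
(.trX (nat_lit 13) (nat_lit 31) (nat_lit 92) (nat_lit 100) (nat_lit 284) (.trZ (nat_lit 3) (nat_lit 100) (nat_lit 36) (nat_lit 77) (nat_lit 48) (.leaf p106_l130)))))
(.leaf p106_l131)))
(.spl (nat_lit 0) (nat_lit 390)
(.spl (nat_lit 0) (nat_lit 385)
(.spl (nat_lit 1) (nat_lit 230)
(.trX (nat_lit 13) (nat_lit 44) (nat_lit 83) (nat_lit 100) (nat_lit 316) (.leaf p106_l132))
(.leaf p106_l133))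
(.trX (nat_lit 13) (nat_lit 39) (nat_lit 85) (nat_lit 100) (nat_lit 312) (.trZ (nat_lit 3) (nat_lit 100) (nat_lit 44) (nat_lit 71) (nat_lit 40) (.spl (nat_lit 1) (nat_lit 230)
(.trX (nat_lit 13) (nat_lit 38) (nat_lit 87) (nat_lit 100) (nat_lit 304) (.leaf p106_l134))
(.leaf p106_l135)))))
(.trX (nat_lit 13) (nat_lit 32) (nat_lit 89) (nat_lit 100) (nat_lit 300) (.trZ (nat_lit 3) (nat_lit 100) (nat_lit 36) (nat_lit 77) (nat_lit 48) (.leaf p106_l136)))))))))))) (by decide +kernel)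
noncomputable def p106_l137 : Lf2 := ⟨nat_lit 0, nat_lit 25, [nat_lit 44, nat_lit 5, nat_lit 5, nat_lit 20], true, nat_lit 80, nat_lit 160, nat_lit 0, nat_lit 376, ⟨nat_lit 0, nat_lit 331, nat_lit 669, nat_lit 6, nat_lit 244, nat_lit 1000, nat_lit 102, nat_lit 669, nat_lit 98817, nat_lit 292, nat_lit 61180, nat_lit 200, nat_lit 44973382, nat_lit 17544044, nat_lit 4482574, nat_lit 4238517, true, true⟩,
 nat_lit 0, nat_lit 0, nat_lit 0, nat_lit 3178, nat_lit 2962, nat_lit 0, nat_lit 0, nat_lit 0, nat_lit 0, nat_lit 0, nat_lit 0, nat_lit 0, nat_lit 0, nat_lit 0, nat_lit 29, nat_lit 232650, nat_lit 0, nat_lit 0, [(nat_lit 26, [(nat_lit 0, nat_lit 331), (nat_lit 3, nat_lit 347), (nat_lit 4, nat_lit 322)])],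
 ⟨p106_k48, nat_lit 0, nat_lit 0, nat_lit 107, nat_lit 0, nat_lit 0, [nat_lit 1017512800, nat_lit 412318801, nat_lit 5424000], [], [nat_lit 21879443224, nat_lit 23016786156, nat_lit 23229224384, nat_lit 24299690572, nat_lit 22517660200, nat_lit 23552112044, nat_lit 23754781608, nat_lit 24718174524], nat_lit 0, nat_lit 0, nat_lit 0, nat_lit 0, nat_lit 0, nat_lit 0, [], [nat_lit 57, nat_lit 40, nat_lit 40, nat_lit 80, nat_lit 7, nat_lit 249, nat_lit 40, nat_lit 7]⟩, C1.Rw.none,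
 ⟨nat_lit 2236, nat_lit 3163, ⟨.ofNat (nat_lit 560952), .ofNat (nat_lit 621905), .ofNat (nat_lit 605240), .ofNat (nat_lit 666215), .ofNat (nat_lit 557014), .ofNat (nat_lit 614030), .ofNat (nat_lit 602541), .ofNat (nat_lit 659578)⟩, ⟨.ofNat (nat_lit 184209), .ofNat (nat_lit 306116), .ofNat (nat_lit 200000), .ofNat (nat_lit 328271), .ofNat (nat_lit 192306), .ofNat (nat_lit 306337), .ofNat (nat_lit 200000), .ofNat (nat_lit 329112)⟩⟩, []⟩
noncomputable def p106_l138 : Lf2 := ⟨nat_lit 0, nat_lit 25, [nat_lit 44, nat_lit 5, nat_lit 5, nat_lit 20], true, nat_lit 80, nat_lit 160, nat_lit 0, nat_lit 364, ⟨nat_lit 0, nat_lit 429, nat_lit 571, nat_lit 7, nat_lit 263, nat_lit 1000, nat_lit 102, nat_lit 571, nat_lit 98817, nat_lit 292, nat_lit 138776, nat_lit 200, nat_lit 43192009, nat_lit 19420111, nat_lit 4387880, nat_lit 4346570, true, true⟩,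
 nat_lit 0, nat_lit 0, nat_lit 0, nat_lit 5353, nat_lit 3056, nat_lit 0, nat_lit 0, nat_lit 0, nat_lit 0, nat_lit 0, nat_lit 0, nat_lit 0, nat_lit 0, nat_lit 0, nat_lit 7, nat_lit 229350, nat_lit 0, nat_lit 0, [(nat_lit 26, [(nat_lit 0, nat_lit 429), (nat_lit 3, nat_lit 413), (nat_lit 4, nat_lit 158)])],
 ⟨p106_k49, nat_lit 0, nat_lit 0, nat_lit 127, nat_lit 0, nat_lit 0, [nat_lit 945590401, nat_lit 516436601, nat_lit 13552000], [], [nat_lit 23745127296, nat_lit 24833788736, nat_lit 25302466240, nat_lit 26311179152, nat_lit 24214123105, nat_lit 25189342913, nat_lit 25620166432, nat_lit 26538732032], nat_lit 0, nat_lit 0, nat_lit 0, nat_lit 0, nat_lit 0, nat_lit 0, [], [nat_lit 54, nat_lit 40, nat_lit 40, nat_lit 80, nat_lit 43, nat_lit 249, nat_lit 40, nat_lit 7]⟩, C1.Rw.none,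
 ⟨nat_lit 2236, nat_lit 3163, ⟨.ofNat (nat_lit 621905), .ofNat (nat_lit 682859), .ofNat (nat_lit 644060), .ofNat (nat_lit 705013), .ofNat (nat_lit 614030), .ofNat (nat_lit 671045), .ofNat (nat_lit 636804), .ofNat (nat_lit 693819)⟩, ⟨.ofNat (nat_lit 184209), .ofNat (nat_lit 306116), .ofNat (nat_lit 200000), .ofNat (nat_lit 328271), .ofNat (nat_lit 192306), .ofNat (nat_lit 306337), .ofNat (nat_lit 200000), .ofNat (nat_lit 329112)⟩⟩, [⟨nat_lit 13, nat_lit 53, nat_lit 82, nat_lit 100, nat_lit 367575211⟩]⟩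
noncomputable def p106_l139 : Lf2 := ⟨nat_lit 0, nat_lit 25, [nat_lit 44, nat_lit 5, nat_lit 5, nat_lit 20], false, nat_lit 80, nat_lit 160, nat_lit 0, nat_lit 364, ⟨nat_lit 53, nat_lit 712, nat_lit 235, nat_lit 7, nat_lit 273, nat_lit 947, nat_lit 102, nat_lit 235, nat_lit 98817, nat_lit 292, nat_lit 183086, nat_lit 200, nat_lit 42289486, nat_lit 20388532, nat_lit 4321982, nat_lit 4390816, true, true⟩,
 nat_lit 0, nat_lit 0, nat_lit 1213, nat_lit 3349, nat_lit 3530, nat_lit 580, nat_lit 0, nat_lit 0, nat_lit 0, nat_lit 32, nat_lit 0, nat_lit 0, nat_lit 0, nat_lit 0, nat_lit 0, nat_lit 345050, nat_lit 0, nat_lit 0, [(nat_lit 26, [(nat_lit 1, nat_lit 712), (nat_lit 4, nat_lit 225), (nat_lit 5, nat_lit 10)])],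
 ⟨p106_k48, nat_lit 0, nat_lit 0, nat_lit 123, nat_lit 0, nat_lit 0, [nat_lit 926198400, nat_lit 700360800, nat_lit 367662800], [], [nat_lit 24186381280, nat_lit 24766022630, nat_lit 25812509000, nat_lit 26345005900, nat_lit 24461553280, nat_lit 24989567780, nat_lit 25945553960, nat_lit 26431345210], nat_lit 0, nat_lit 0, nat_lit 0, nat_lit 0, nat_lit 0, nat_lit 0, [], [nat_lit 57, nat_lit 40, nat_lit 40, nat_lit 80, nat_lit 7, nat_lit 249, nat_lit 40, nat_lit 7]⟩, ⟨p106_k41, nat_lit 0, nat_lit 0, nat_lit 536, nat_lit 0, nat_lit 377163, [nat_lit 331250000, nat_lit 629216000, nat_lit 869200000], [], [nat_lit 2299390974, nat_lit 2299798968, nat_lit 2363747882, nat_lit 2359861984, nat_lit 1882633783, nat_lit 1874390197, nat_lit 1915528989, nat_lit 1908188952], nat_lit 1271250, nat_lit 1271250, nat_lit 1271250, nat_lit 1271250, nat_lit 0, nat_lit 2570750, [nat_lit 1412500, nat_lit 1271250, nat_lit 1271250], [nat_lit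 104, nat_lit 40, nat_lit 40, nat_lit 80, nat_lit 76, nat_lit 483, nat_lit 250, nat_lit 10]⟩,
 ⟨nat_lit 2738, nat_lit 3163, ⟨.ofNat (nat_lit 644060), .ofNat (nat_lit 705013), .ofNat (nat_lit 666215), .ofNat (nat_lit 727168), .ofNat (nat_lit 640539), .ofNat (nat_lit 699600), .ofNat (nat_lit 662956), .ofNat (nat_lit 722017)⟩, ⟨.ofNat (nat_lit 184209), .ofNat (nat_lit 306116), .ofNat (nat_lit 200000), .ofNat (nat_lit 328271), .ofNat (nat_lit 188310), .ofNat (nat_lit 306433), .ofNat (nat_lit 200000), .ofNat (nat_lit 328850)⟩⟩, [⟨nat_lit 22, nat_lit 94, nat_lit 88, nat_lit 100, nat_lit 4432506⟩]⟩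
noncomputable def p106_l140 : Lf2 := ⟨nat_lit 0, nat_lit 25, [nat_lit 44, nat_lit 5, nat_lit 5, nat_lit 20], true, nat_lit 80, nat_lit 120, nat_lit 0, nat_lit 336, ⟨nat_lit 0, nat_lit 969, nat_lit 31, nat_lit 7, nat_lit 272, nat_lit 1000, nat_lit 91, nat_lit 31, nat_lit 77067, nat_lit 283, nat_lit 172784, nat_lit 200, nat_lit 42938036, nat_lit 20418974, nat_lit 3642990, nat_lit 4248370, true, true⟩,
 nat_lit 0, nat_lit 0, nat_lit 0, nat_lit 5218, nat_lit 2764, nat_lit 0, nat_lit 230, nat_lit 0, nat_lit 0, nat_lit 0, nat_lit 0, nat_lit 0, nat_lit 0, nat_lit 0, nat_lit 0, nat_lit 248450, nat_lit 0, nat_lit 0, [(nat_lit 26, [(nat_lit 0, nat_lit 969), (nat_lit 3, nat_lit 31)])],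
 ⟨p106_k50, nat_lit 0, nat_lit 0, nat_lit 125, nat_lit 0, nat_lit 0, [nat_lit 777454400, nat_lit 1636298800, nat_lit 2372903200], [], [nat_lit 23837617204, nat_lit 24098906294, nat_lit 25312286224, nat_lit 25553428456, nat_lit 24092610714, nat_lit 24342897559, nat_lit 25508347366, nat_lit 25740999681], nat_lit 0, nat_lit 0, nat_lit 0, nat_lit 0, nat_lit 0, nat_lit 0, [], [nat_lit 57, nat_lit 40, nat_lit 40, nat_lit 80, nat_lit 7, nat_lit 238, nat_lit 30, nat_lit 6]⟩, C1.Rw.none,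
 ⟨nat_lit 2500, nat_lit 2739, ⟨.ofNat (nat_lit 640539), .ofNat (nat_lit 699600), .ofNat (nat_lit 662956), .ofNat (nat_lit 722017), .ofNat (nat_lit 638708), .ofNat (nat_lit 696773), .ofNat (nat_lit 661289), .ofNat (nat_lit 719353)⟩, ⟨.ofNat (nat_lit 188310), .ofNat (nat_lit 247372), .ofNat (nat_lit 200000), .ofNat (nat_lit 269789), .ofNat (nat_lit 190321), .ofNat (nat_lit 248386), .ofNat (nat_lit 200000), .ofNat (nat_lit 270966)⟩⟩, []⟩
noncomputable def p106_l141 : Lf2 := ⟨nat_lit 0, nat_lit 25, [nat_lit 44, nat_lit 5, nat_lit 5, nat_lit 20], true, nat_lit 120, nat_lit 160, nat_lit 0, nat_lit 364, ⟨nat_lit 0, nat_lit 1000, nat_lit 0, nat_lit 7, nat_lit 272, nat_lit 1000, nat_lit 115, nat_lit 0, nat_lit 0, nat_lit 0, nat_lit 0, nat_lit 0, nat_lit 41767977, nat_lit 20061345, nat_lit 5170678, nat_lit 4537117, true, true⟩,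
 nat_lit 0, nat_lit 0, nat_lit 0, nat_lit 4009, nat_lit 3458, nat_lit 0, nat_lit 0, nat_lit 0, nat_lit 0, nat_lit 0, nat_lit 0, nat_lit 0, nat_lit 0, nat_lit 0, nat_lit 0, nat_lit 250000, nat_lit 0, nat_lit 0, [(nat_lit 26, [(nat_lit 0, nat_lit 1000)])],
 ⟨p106_k50, nat_lit 0, nat_lit 0, nat_lit 79, nat_lit 0, nat_lit 0, [nat_lit 765600000, nat_lit 1715200000, nat_lit 2512800000], [], [nat_lit 24556064631, nat_lit 24867797309, nat_lit 26293810371, nat_lit 26623590233, nat_lit 24755804194, nat_lit 25052576787, nat_lit 26389831698, nat_lit 26662129663], nat_lit 0, nat_lit 0, nat_lit 0, nat_lit 0, nat_lit 0, nat_lit 0, [], [nat_lit 57, nat_lit 40, nat_lit 40, nat_lit 80, nat_lit 7, nat_lit 249, nat_lit 40, nat_lit 7]⟩, C1.Rw.none,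
 ⟨nat_lit 2500, nat_lit 2739, ⟨.ofNat (nat_lit 640539), .ofNat (nat_lit 699600), .ofNat (nat_lit 662956), .ofNat (nat_lit 722017), .ofNat (nat_lit 638708), .ofNat (nat_lit 696773), .ofNat (nat_lit 661289), .ofNat (nat_lit 719353)⟩, ⟨.ofNat (nat_lit 247372), .ofNat (nat_lit 306433), .ofNat (nat_lit 269789), .ofNat (nat_lit 328850), .ofNat (nat_lit 248386), .ofNat (nat_lit 306450), .ofNat (nat_lit 270966), .ofNat (nat_lit 329031)⟩⟩, []⟩
noncomputable def p106_l142 : Lf2 := ⟨nat_lit 1, nat_lit 25, [nat_lit 44, nat_lit 5, nat_lit 5, nat_lit 20], false, nat_lit 80, nat_lit 160, nat_lit 0, nat_lit 364, zbN0,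
 nat_lit 0, nat_lit 0, nat_lit 0, nat_lit 0, nat_lit 0, nat_lit 0, nat_lit 0, nat_lit 0, nat_lit 0, nat_lit 0, nat_lit 0, nat_lit 0, nat_lit 0, nat_lit 0, nat_lit 0, nat_lit 0, nat_lit 0, nat_lit 0, [],
 C1.Rw.none, C1.Rw.none,
 zbF0, []⟩
noncomputable def p106_l143 : Lf2 := ⟨nat_lit 0, nat_lit 25, [nat_lit 44, nat_lit 5, nat_lit 5, nat_lit 20], true, nat_lit 80, nat_lit 160, nat_lit 0, nat_lit 364, ⟨nat_lit 0, nat_lit 1000, nat_lit 0, nat_lit 7, nat_lit 271, nat_lit 1000, nat_lit 103, nat_lit 0, nat_lit 0, nat_lit 0, nat_lit 0, nat_lit 0, nat_lit 42467418, nat_lit 20163199, nat_lit 4369383, nat_lit 4387518, true, true⟩,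
 nat_lit 0, nat_lit 0, nat_lit 0, nat_lit 4268, nat_lit 3128, nat_lit 0, nat_lit 110, nat_lit 0, nat_lit 0, nat_lit 0, nat_lit 0, nat_lit 0, nat_lit 0, nat_lit 0, nat_lit 0, nat_lit 250000, nat_lit 0, nat_lit 0, [(nat_lit 26, [(nat_lit 0, nat_lit 1000)])],
 ⟨p106_k51, nat_lit 0, nat_lit 0, nat_lit 109, nat_lit 0, nat_lit 0, [nat_lit 765600000, nat_lit 1715200000, nat_lit 2090000000], [], [nat_lit 24669594902, nat_lit 24963369778, nat_lit 26278043526, nat_lit 26547854546, nat_lit 25100024722, nat_lit 25367840066, nat_lit 26573676534, nat_lit 26820399602], nat_lit 0, nat_lit 0, nat_lit 0, nat_lit 0, nat_lit 0, nat_lit 0, [], [nat_lit 55, nat_lit 40, nat_lit 40, nat_lit 80, nat_lit 3, nat_lit 249, nat_lit 40, nat_lit 8]⟩, C1.Rw.none,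
 ⟨nat_lit 2236, nat_lit 2500, ⟨.ofNat (nat_lit 638708), .ofNat (nat_lit 696773), .ofNat (nat_lit 661289), .ofNat (nat_lit 719353), .ofNat (nat_lit 636804), .ofNat (nat_lit 693819), .ofNat (nat_lit 659578), .ofNat (nat_lit 716594)⟩, ⟨.ofNat (nat_lit 190321), .ofNat (nat_lit 306450), .ofNat (nat_lit 200000), .ofNat (nat_lit 329031), .ofNat (nat_lit 192306), .ofNat (nat_lit 306337), .ofNat (nat_lit 200000), .ofNat (nat_lit 329112)⟩⟩, []⟩
noncomputable def p106_l144 : Lf2 := ⟨nat_lit 0, nat_lit 25, [nat_lit 44, nat_lit 5, nat_lit 5, nat_lit 20], true, nat_lit 80, nat_lit 160, nat_lit 0, nat_lit 336, ⟨nat_lit 0, nat_lit 493, nat_lit 507, nat_lit 8, nat_lit 280, nat_lit 1000, nat_lit 102, nat_lit 507, nat_lit 98817, nat_lit 292, nat_lit 187540, nat_lit 200, nat_lit 41675335, nat_lit 21026529, nat_lit 4298136, nat_lit 4421061, true, true⟩,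
 nat_lit 0, nat_lit 0, nat_lit 0, nat_lit 5939, nat_lit 3136, nat_lit 0, nat_lit 0, nat_lit 0, nat_lit 0, nat_lit 0, nat_lit 0, nat_lit 0, nat_lit 0, nat_lit 0, nat_lit 0, nat_lit 233200, nat_lit 0, nat_lit 0, [(nat_lit 26, [(nat_lit 0, nat_lit 493), (nat_lit 3, nat_lit 336), (nat_lit 4, nat_lit 171)])],
 ⟨p106_k49, nat_lit 0, nat_lit 0, nat_lit 130, nat_lit 0, nat_lit 0, [nat_lit 887656800, nat_lit 534495201, nat_lit 126930000], [], [nat_lit 25581807440, nat_lit 26594495312, nat_lit 26271027716, nat_lit 27274529277, nat_lit 25868342192, nat_lit 26795855792, nat_lit 26500408266, nat_lit 27396729629], nat_lit 0, nat_lit 0, nat_lit 0, nat_lit 0, nat_lit 0, nat_lit 0, [], [nat_lit 54, nat_lit 40, nat_lit 40, nat_lit 80, nat_lit 43, nat_lit 249, nat_lit 40, nat_lit 7]⟩, C1.Rw.none,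
 ⟨nat_lit 2236, nat_lit 3163, ⟨.ofNat (nat_lit 682859), .ofNat (nat_lit 707240), .ofNat (nat_lit 705013), .ofNat (nat_lit 729395), .ofNat (nat_lit 671045), .ofNat (nat_lit 693851), .ofNat (nat_lit 693819), .ofNat (nat_lit 716626)⟩, ⟨.ofNat (nat_lit 184209), .ofNat (nat_lit 306116), .ofNat (nat_lit 200000), .ofNat (nat_lit 328271), .ofNat (nat_lit 192306), .ofNat (nat_lit 306337), .ofNat (nat_lit 200000), .ofNat (nat_lit 329112)⟩⟩, [⟨nat_lit 13, nat_lit 53, nat_lit 82, nat_lit 100, nat_lit 423809925⟩]⟩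
noncomputable def p106_l145 : Lf2 := ⟨nat_lit 0, nat_lit 25, [nat_lit 44, nat_lit 5, nat_lit 5, nat_lit 20], false, nat_lit 80, nat_lit 160, nat_lit 0, nat_lit 336, ⟨nat_lit 339, nat_lit 661, nat_lit 0, nat_lit 8, nat_lit 296, nat_lit 661, nat_lit 102, nat_lit 0, nat_lit 0, nat_lit 0, nat_lit 0, nat_lit 0, nat_lit 40282503, nat_lit 22529136, nat_lit 4188361, nat_lit 4472573, true, true⟩,
 nat_lit 0, nat_lit 0, nat_lit 6591, nat_lit 0, nat_lit 3203, nat_lit 3152, nat_lit 265, nat_lit 0, nat_lit 0, nat_lit 353, nat_lit 0, nat_lit 0, nat_lit 0, nat_lit 0, nat_lit 0, nat_lit 264400, nat_lit 0, nat_lit 0, [(nat_lit 26, [(nat_lit 1, nat_lit 661)])],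
 ⟨p106_k49, nat_lit 0, nat_lit 0, nat_lit 129, nat_lit 0, nat_lit 0, [nat_lit 880625201, nat_lit 1794882201, nat_lit 3227572400], [], [nat_lit 25648978395, nat_lit 25904317009, nat_lit 27037367535, nat_lit 27311488718, nat_lit 25909412091, nat_lit 26143163979, nat_lit 27181972517, nat_lit 27409909901], nat_lit 0, nat_lit 0, nat_lit 0, nat_lit 0, nat_lit 0, nat_lit 0, [], [nat_lit 54, nat_lit 40, nat_lit 40, nat_lit 80, nat_lit 43, nat_lit 249, nat_lit 40, nat_lit 7]⟩, ⟨p106_k29, nat_lit 0, nat_lit 0, nat_lit 473, nat_lit 0, nat_lit 247122, [nat_lit 2118750000, nat_lit 3336438000, nat_lit 5559600000], [], [nat_lit 13238516193, nat_lit 13332797697, nat_lit 13966670361, nat_lit 14027481438, nat_lit 10915279245, nat_lit 10917441799, nat_lit 11300774176, nat_lit 11270321496], nat_lit 1271250, nat_lit 1271250, nat_lit 1271250, nat_lit 1271250, nat_lit 0, nat_lit 2373000, [nat_lit 1412500, nat_lit 1271250, nat_lit 1271250],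 [nat_lit 118, nat_lit 40, nat_lit 40, nat_lit 80, nat_lit 73, nat_lit 483, nat_lit 250, nat_lit 10]⟩,
 ⟨nat_lit 2958, nat_lit 3163, ⟨.ofNat (nat_lit 705013), .ofNat (nat_lit 753776), .ofNat (nat_lit 727168), .ofNat (nat_lit 775931), .ofNat (nat_lit 702339), .ofNat (nat_lit 750355), .ofNat (nat_lit 724616), .ofNat (nat_lit 772633)⟩, ⟨.ofNat (nat_lit 184209), .ofNat (nat_lit 306116), .ofNat (nat_lit 200000), .ofNat (nat_lit 328271), .ofNat (nat_lit 186273), .ofNat (nat_lit 306315), .ofNat (nat_lit 200000), .ofNat (nat_lit 328592)⟩⟩, [⟨nat_lit 13, nat_lit 59, nat_lit 72, nat_lit 100, nat_lit 126775189⟩, ⟨nat_lit 10, nat_lit 74, nat_lit 74, nat_lit 100, nat_lit 31131467⟩]⟩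
noncomputable def p106_l146 : Lf2 := ⟨nat_lit 0, nat_lit 25, [nat_lit 44, nat_lit 5, nat_lit 5, nat_lit 20], false, nat_lit 80, nat_lit 160, nat_lit 0, nat_lit 336, ⟨nat_lit 212, nat_lit 788, nat_lit 0, nat_lit 8, nat_lit 292, nat_lit 788, nat_lit 102, nat_lit 0, nat_lit 0, nat_lit 0, nat_lit 0, nat_lit 0, nat_lit 40593164, nat_lit 22182417, nat_lit 4224419, nat_lit 4463952, true, true⟩,
 nat_lit 0, nat_lit 0, nat_lit 4181, nat_lit 0, nat_lit 2894, nat_lit 1999, nat_lit 322, nat_lit 0, nat_lit 0, nat_lit 225, nat_lit 0, nat_lit 0, nat_lit 0, nat_lit 0, nat_lit 0, nat_lit 197000, nat_lit 0, nat_lit 0, [(nat_lit 26, [(nat_lit 0, nat_lit 788)])],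
 ⟨p106_k52, nat_lit 0, nat_lit 0, nat_lit 129, nat_lit 0, nat_lit 0, [nat_lit 802148800, nat_lit 1774398401, nat_lit 3669302400], [], [nat_lit 25440243582, nat_lit 25685589754, nat_lit 26434627121, nat_lit 26684327190, nat_lit 25800819093, nat_lit 26025930568, nat_lit 26715019890, nat_lit 26934093430], nat_lit 0, nat_lit 0, nat_lit 0, nat_lit 0, nat_lit 0, nat_lit 0, [], [nat_lit 54, nat_lit 40, nat_lit 40, nat_lit 80, nat_lit 43, nat_lit 249, nat_lit 40, nat_lit 7]⟩, ⟨p106_k29, nat_lit 0, nat_lit 0, nat_lit 516, nat_lit 0, nat_lit 369424, [nat_lit 1325000000, nat_lit 2086504000, nat_lit 3476800000], [], [nat_lit 8257043059, nat_lit 8315427689, nat_lit 8601339169, nat_lit 8643836240, nat_lit 6764566454, nat_lit 6760116313, nat_lit 6946263522, nat_lit 6932711193], nat_lit 1271250, nat_lit 1271250, nat_lit 1271250, nat_lit 1271250, nat_lit 0, nat_lit 2373000, [nat_lit 1412500, nat_lit 1271250, nat_lit 1271250],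 [nat_lit 118, nat_lit 40, nat_lit 40, nat_lit 80, nat_lit 73, nat_lit 483, nat_lit 250, nat_lit 10]⟩,
 ⟨nat_lit 2738, nat_lit 2959, ⟨.ofNat (nat_lit 702339), .ofNat (nat_lit 738351), .ofNat (nat_lit 724616), .ofNat (nat_lit 760628), .ofNat (nat_lit 699600), .ofNat (nat_lit 735037), .ofNat (nat_lit 722017), .ofNat (nat_lit 757454)⟩, ⟨.ofNat (nat_lit 186273), .ofNat (nat_lit 306315), .ofNat (nat_lit 200000), .ofNat (nat_lit 328592), .ofNat (nat_lit 188310), .ofNat (nat_lit 306433), .ofNat (nat_lit 200000), .ofNat (nat_lit 328850)⟩⟩, [⟨nat_lit 13, nat_lit 55, nat_lit 75, nat_lit 100, nat_lit 200108311⟩, ⟨nat_lit 10, nat_lit 74, nat_lit 76, nat_lit 100, nat_lit 19412648⟩]⟩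
noncomputable def p106_l147 : Lf2 := ⟨nat_lit 1, nat_lit 25, [nat_lit 44, nat_lit 5, nat_lit 5, nat_lit 20], false, nat_lit 80, nat_lit 160, nat_lit 0, nat_lit 336, zbN0,
 nat_lit 0, nat_lit 0, nat_lit 0, nat_lit 0, nat_lit 0, nat_lit 0, nat_lit 0, nat_lit 0, nat_lit 0, nat_lit 0, nat_lit 0, nat_lit 0, nat_lit 0, nat_lit 0, nat_lit 0, nat_lit 0, nat_lit 0, nat_lit 0, [],
 C1.Rw.none, C1.Rw.none,
 zbF0, []⟩
noncomputable def p106_l148 : Lf2 := ⟨nat_lit 0, nat_lit 25, [nat_lit 44, nat_lit 5, nat_lit 5, nat_lit 20], false, nat_lit 80, nat_lit 160, nat_lit 0, nat_lit 336, ⟨nat_lit 113, nat_lit 887, nat_lit 0, nat_lit 8, nat_lit 290, nat_lit 887, nat_lit 102, nat_lit 0, nat_lit 0, nat_lit 0, nat_lit 0, nat_lit 0, nat_lit 40776244, nat_lit 21975548, nat_lit 4248208, nat_lit 4458963, true, true⟩,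
 nat_lit 0, nat_lit 0, nat_lit 2237, nat_lit 2616, nat_lit 2741, nat_lit 1069, nat_lit 277, nat_lit 0, nat_lit 0, nat_lit 120, nat_lit 0, nat_lit 0, nat_lit 0, nat_lit 0, nat_lit 0, nat_lit 221750, nat_lit 0, nat_lit 0, [(nat_lit 26, [(nat_lit 0, nat_lit 887)])],
 ⟨p106_k30, nat_lit 0, nat_lit 0, nat_lit 129, nat_lit 0, nat_lit 0, [nat_lit 785081200, nat_lit 1584991600, nat_lit 3129237600], [], [nat_lit 25468774906, nat_lit 25613013981, nat_lit 26273569688, nat_lit 26411786868, nat_lit 25872690647, nat_lit 26002758215, nat_lit 26611305766, nat_lit 26738471795], nat_lit 0, nat_lit 0, nat_lit 0, nat_lit 0, nat_lit 0, nat_lit 0, [], [nat_lit 54, nat_lit 40, nat_lit 40, nat_lit 80, nat_lit 43, nat_lit 249, nat_lit 40, nat_lit 7]⟩, ⟨p106_k29, nat_lit 0, nat_lit 0, nat_lit 562, nat_lit 0, nat_lit 446511, [nat_lit 706250000, nat_lit 1112146000, nat_lit 1853200000], [], [nat_lit 4404225406, nat_lit 4435273184, nat_lit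 4557445766, nat_lit 4581416790, nat_lit 3603735471, nat_lit 3599127019, nat_lit 3684535201, nat_lit 3675774792], nat_lit 1271250, nat_lit 1271250, nat_lit 1271250, nat_lit 1271250, nat_lit 0, nat_lit 2373000, [nat_lit 1412500, nat_lit 1271250, nat_lit 1271250], [nat_lit 118, nat_lit 40, nat_lit 40, nat_lit 80, nat_lit 73, nat_lit 483, nat_lit 250, nat_lit 10]⟩,
 ⟨nat_lit 2598, nat_lit 2739, ⟨.ofNat (nat_lit 699600), .ofNat (nat_lit 729131), .ofNat (nat_lit 722017), .ofNat (nat_lit 751548), .ofNat (nat_lit 697916), .ofNat (nat_lit 727150), .ofNat (nat_lit 720428), .ofNat (nat_lit 749663)⟩, ⟨.ofNat (nat_lit 188310), .ofNat (nat_lit 306433), .ofNat (nat_lit 200000), .ofNat (nat_lit 328850), .ofNat (nat_lit 189520), .ofNat (nat_lit 306457), .ofNat (nat_lit 200000), .ofNat (nat_lit 328969)⟩⟩, [⟨nat_lit 13, nat_lit 52, nat_lit 78, nat_lit 100, nat_lit 271034694⟩, ⟨nat_lit 10, nat_lit 74, nat_lit 77, nat_lit 100, nat_lit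 10224883⟩]⟩
noncomputable def p106_l149 : Lf2 := ⟨nat_lit 0, nat_lit 25, [nat_lit 44, nat_lit 5, nat_lit 5, nat_lit 20], false, nat_lit 80, nat_lit 160, nat_lit 0, nat_lit 336, ⟨nat_lit 130, nat_lit 870, nat_lit 0, nat_lit 8, nat_lit 288, nat_lit 870, nat_lit 103, nat_lit 0, nat_lit 0, nat_lit 0, nat_lit 0, nat_lit 0, nat_lit 40930213, nat_lit 21804634, nat_lit 4265153, nat_lit 4454115, true, true⟩,
 nat_lit 0, nat_lit 0, nat_lit 2591, nat_lit 1348, nat_lit 2747, nat_lit 1239, nat_lit 275, nat_lit 0, nat_lit 0, nat_lit 140, nat_lit 0, nat_lit 0, nat_lit 0, nat_lit 0, nat_lit 0, nat_lit 217500, nat_lit 0, nat_lit 0, [(nat_lit 26, [(nat_lit 0, nat_lit 870)])],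
 ⟨p106_k33, nat_lit 0, nat_lit 0, nat_lit 129, nat_lit 0, nat_lit 0, [nat_lit 788012000, nat_lit 1617516000, nat_lit 3221976000], [], [nat_lit 25601516594, nat_lit 25697753588, nat_lit 26240949584, nat_lit 26335199231, nat_lit 25989042255, nat_lit 26077055797, nat_lit 26577736359, nat_lit 26663287839], nat_lit 0, nat_lit 0, nat_lit 0, nat_lit 0, nat_lit 0, nat_lit 0, [], [nat_lit 54, nat_lit 40, nat_lit 40, nat_lit 80, nat_lit 43, nat_lit 249, nat_lit 40, nat_lit 7]⟩, ⟨p106_k29, nat_lit 0, nat_lit 0, nat_lit 613, nat_lit 0, nat_lit 496930, [nat_lit 812500000, nat_lit 1279460000, nat_lit 2132000000], [], [nat_lit 5052694230, nat_lit 5088223004, nat_lit 5194320514, nat_lit 5223294624, nat_lit 4118723110, nat_lit 4113391783, nat_lit 4193282998, nat_lit 4185491173], nat_lit 1271250, nat_lit 1271250, nat_lit 1271250, nat_lit 1271250, nat_lit 0, nat_lit 2373000, [nat_lit 1412500, nat_lit 1271250, nat_lit 1271250], [nat_lit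 118, nat_lit 40, nat_lit 40, nat_lit 80, nat_lit 73, nat_lit 483, nat_lit 250, nat_lit 10]⟩,
 ⟨nat_lit 2500, nat_lit 2599, ⟨.ofNat (nat_lit 697916), .ofNat (nat_lit 721304), .ofNat (nat_lit 720428), .ofNat (nat_lit 743816), .ofNat (nat_lit 696773), .ofNat (nat_lit 719999), .ofNat (nat_lit 719353), .ofNat (nat_lit 742579)⟩, ⟨.ofNat (nat_lit 189520), .ofNat (nat_lit 306457), .ofNat (nat_lit 200000), .ofNat (nat_lit 328969), .ofNat (nat_lit 190321), .ofNat (nat_lit 306450), .ofNat (nat_lit 200000), .ofNat (nat_lit 329031)⟩⟩, [⟨nat_lit 13, nat_lit 51, nat_lit 76, nat_lit 100, nat_lit 266184737⟩, ⟨nat_lit 10, nat_lit 74, nat_lit 77, nat_lit 100, nat_lit 11919849⟩]⟩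
noncomputable def p106_l150 : Lf2 := ⟨nat_lit 1, nat_lit 25, [nat_lit 44, nat_lit 5, nat_lit 5, nat_lit 20], false, nat_lit 80, nat_lit 160, nat_lit 0, nat_lit 336, zbN0,
 nat_lit 0, nat_lit 0, nat_lit 0, nat_lit 0, nat_lit 0, nat_lit 0, nat_lit 0, nat_lit 0, nat_lit 0, nat_lit 0, nat_lit 0, nat_lit 0, nat_lit 0, nat_lit 0, nat_lit 0, nat_lit 0, nat_lit 0, nat_lit 0, [],
 C1.Rw.none, C1.Rw.none,
 zbF0, []⟩
noncomputable def p106_l151 : Lf2 := ⟨nat_lit 0, nat_lit 25, [nat_lit 44, nat_lit 5, nat_lit 5, nat_lit 20], true, nat_lit 80, nat_lit 160, nat_lit 0, nat_lit 336, ⟨nat_lit 0, nat_lit 1000, nat_lit 0, nat_lit 8, nat_lit 286, nat_lit 1000, nat_lit 103, nat_lit 0, nat_lit 0, nat_lit 0, nat_lit 0, nat_lit 0, nat_lit 41104591, nat_lit 21610133, nat_lit 4285276, nat_lit 4448574, true, true⟩,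
 nat_lit 0, nat_lit 0, nat_lit 0, nat_lit 4406, nat_lit 3143, nat_lit 0, nat_lit 112, nat_lit 0, nat_lit 0, nat_lit 0, nat_lit 0, nat_lit 0, nat_lit 0, nat_lit 0, nat_lit 0, nat_lit 250000, nat_lit 0, nat_lit 0, [(nat_lit 26, [(nat_lit 0, nat_lit 1000)])],
 ⟨p106_k31, nat_lit 0, nat_lit 0, nat_lit 111, nat_lit 0, nat_lit 0, [nat_lit 765600000, nat_lit 1368800000, nat_lit 2090000000], [], [nat_lit 26258749594, nat_lit 26529101026, nat_lit 26789651817, nat_lit 27075882988, nat_lit 26548501079, nat_lit 26795692612, nat_lit 27035383182, nat_lit 27276214298], nat_lit 0, nat_lit 0, nat_lit 0, nat_lit 0, nat_lit 0, nat_lit 0, [], [nat_lit 20, nat_lit 40, nat_lit 40, nat_lit 80, nat_lit 16, nat_lit 249, nat_lit 40, nat_lit 8]⟩, C1.Rw.none,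
 ⟨nat_lit 2236, nat_lit 2500, ⟨.ofNat (nat_lit 696773), .ofNat (nat_lit 714192), .ofNat (nat_lit 719353), .ofNat (nat_lit 736773), .ofNat (nat_lit 693819), .ofNat (nat_lit 710924), .ofNat (nat_lit 716594), .ofNat (nat_lit 733698)⟩, ⟨.ofNat (nat_lit 190321), .ofNat (nat_lit 306450), .ofNat (nat_lit 200000), .ofNat (nat_lit 329031), .ofNat (nat_lit 192306), .ofNat (nat_lit 306337), .ofNat (nat_lit 200000), .ofNat (nat_lit 329112)⟩⟩, [⟨nat_lit 13, nat_lit 49, nat_lit 78, nat_lit 100, nat_lit 402632385⟩]⟩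
noncomputable def b_V_900_500_20_16 : St := ⟨true, nat_lit 0, nat_lit 1, nat_lit 1, nat_lit 120, nat_lit 360, nat_lit 380, nat_lit 200, nat_lit 240, nat_lit 240, nat_lit 352, nat_lit 80, nat_lit 100, nat_lit 80, nat_lit 160, nat_lit 0, nat_lit 384, nat_lit 80, nat_lit 120, nat_lit 0, nat_lit 0, nat_lit 0, nat_lit 0⟩
theorem d_V_900_500_20_16 (h : EB TB.env) : Dead b_V_900_500_20_16 := chkB_sound0 h (T :=
(.trX (nat_lit 19) (nat_lit 100) (nat_lit 50) (nat_lit 87) (nat_lit 376) (.spl (nat_lit 2) (nat_lit 320)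
(.spl (nat_lit 2) (nat_lit 280)
(.leaf p106_l137)
(.trX (nat_lit 22) (nat_lit 94) (nat_lit 59) (nat_lit 100) (nat_lit 364) (.spl (nat_lit 1) (nat_lit 220)
(.leaf p106_l138)
(.spl (nat_lit 0) (nat_lit 370)
(.leaf p106_l139)
(.spl (nat_lit 0) (nat_lit 375)
(.spl (nat_lit 6) (nat_lit 108)
(.spl (nat_lit 4) (nat_lit 120)
(.trX (nat_lit 22) (nat_lit 100) (nat_lit 80) (nat_lit 100) (nat_lit 336) (.leaf p106_l140))
(.leaf p106_l141))
(.leaf p106_l142))
(.leaf p106_l143))))))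
(.trX (nat_lit 22) (nat_lit 82) (nat_lit 76) (nat_lit 100) (nat_lit 336) (.spl (nat_lit 1) (nat_lit 220)
(.trX (nat_lit 13) (nat_lit 60) (nat_lit 74) (nat_lit 100) (nat_lit 336) (.leaf p106_l144))
(.spl (nat_lit 0) (nat_lit 370)
(.spl (nat_lit 6) (nat_lit 104)
(.spl (nat_lit 0) (nat_lit 365)
(.leaf p106_l145)
(.trX (nat_lit 13) (nat_lit 58) (nat_lit 71) (nat_lit 100) (nat_lit 344) (.leaf p106_l146)))
(.leaf p106_l147))
(.trX (nat_lit 13) (nat_lit 54) (nat_lit 74) (nat_lit 100) (nat_lit 340) (.spl (nat_lit 0) (nat_lit 375)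
(.spl (nat_lit 6) (nat_lit 108)
(.spl (nat_lit 0) (nat_lit 373)
(.leaf p106_l148)
(.trX (nat_lit 13) (nat_lit 51) (nat_lit 76) (nat_lit 100) (nat_lit 336) (.leaf p106_l149)))
(.leaf p106_l150))
(.trX (nat_lit 13) (nat_lit 49) (nat_lit 78) (nat_lit 100) (nat_lit 332) (.leaf p106_l151)))))))))) (by decide +kernel)

end B2
end Pool.Agent.Lib.MP_6947cd_al
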