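import Pool.Agent.Lib.MP_6947cd_al.ZB.Pre

/-!
Problem MP_6947cd_al (Chollet).  Case B, second entry in [2/5, 17/20]: certificates of the tree, part P107 (generated).
-/

set_option autoImplicit false
set_option linter.all false

namespace Pool.Agent.Lib.MP_6947cd_al
namespace B2

open Ent Fr B1 PkA

noncomputable def p107_k0 : C1.Kn := ⟨[nat_lit 20, nat_lit 60, nat_lit 120], [nat_lit 0, nat_lit 0, nat_lit 3661], [(nat_lit 0, nat_lit 0, nat_lit 0), (nat_lit 0, nat_lit 0, nat_lit 0), (nat_lit 1000, nat_lit 611, nat_lit 913)], (nat_lit 61, nat_lit 100, nat_lit 90)⟩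
noncomputable def p107_k1 : C1.Kn := ⟨[nat_lit 20, nat_lit 60, nat_lit 120], [nat_lit 0, nat_lit 698, nat_lit 4166], [(nat_lit 0, nat_lit 0, nat_lit 0), (nat_lit 1000, nat_lit 782, nat_lit 272), (nat_lit 1000, nat_lit 529, nat_lit 902)], (nat_lit 53, nat_lit 100, nat_lit 87)⟩
noncomputable def p107_k2 : C1.Kn := ⟨[nat_lit 20, nat_lit 60, nat_lit 120], [nat_lit 0, nat_lit 916, nat_lit 4318], [(nat_lit 0, nat_lit 0, nat_lit 0), (nat_lit 1000, nat_lit 714, nat_lit 357), (nat_lit 1000, nat_lit 502, nat_lit 885)], (nat_lit 50, nat_lit 100, nat_lit 87)⟩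
noncomputable def p107_k3 : C1.Kn := ⟨[nat_lit 20, nat_lit 60, nat_lit 120], [nat_lit 0, nat_lit 1056, nat_lit 4422], [(nat_lit 0, nat_lit 0, nat_lit 0), (nat_lit 1000, nat_lit 671, nat_lit 411), (nat_lit 1000, nat_lit 484, nat_lit 876)], (nat_lit 48, nat_lit 100, nat_lit 89)⟩
noncomputable def p107_k4 : C1.Kn := ⟨[nat_lit 20, nat_lit 60, nat_lit 120], [nat_lit 0, nat_lit 1208, nat_lit 4518], [(nat_lit 0, nat_lit 0, nat_lit 0), (nat_lit 1000, nat_lit 622, nat_lit 472), (nat_lit 1000, nat_lit 466, nat_lit 861)], (nat_lit 47, nat_lit 100, nat_lit 89)⟩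
noncomputable def p107_k5 : C1.Kn := ⟨[nat_lit 100, nat_lit 140, nat_lit 200], [nat_lit 0, nat_lit 0, nat_lit 3647], [(nat_lit 0, nat_lit 0, nat_lit 0), (nat_lit 0, nat_lit 0, nat_lit 0), (nat_lit 726, nat_lit 1000, nat_lit 688)], (nat_lit 0, nat_lit 0, nat_lit 0)⟩
noncomputable def p107_k6 : C1.Kn := ⟨[nat_lit 20, nat_lit 80, nat_lit 120], [nat_lit 0, nat_lit 1582, nat_lit 4484], [(nat_lit 0, nat_lit 0, nat_lit 0), (nat_lit 1000, nat_lit 671, nat_lit 411), (nat_lit 1000, nat_lit 493, nat_lit 968)], (nat_lit 48, nat_lit 100, nat_lit 89)⟩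
noncomputable def p107_k7 : C1.Kn := ⟨[nat_lit 20, nat_lit 80, nat_lit 100], [nat_lit 0, nat_lit 1908, nat_lit 3481], [(nat_lit 0, nat_lit 0, nat_lit 0), (nat_lit 1000, nat_lit 603, nat_lit 496), (nat_lit 1000, nat_lit 456, nat_lit 881)], (nat_lit 46, nat_lit 100, nat_lit 89)⟩
noncomputable def p107_k8 : C1.Kn := ⟨[nat_lit 100, nat_lit 160, nat_lit 200], [nat_lit 0, nat_lit 761, nat_lit 5273], [(nat_lit 0, nat_lit 0, nat_lit 0), (nat_lit 1000, nat_lit 1000, nat_lit 198), (nat_lit 518, nat_lit 1000, nat_lit 909)], (nat_lit 0, nat_lit 0, nat_lit 0)⟩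
noncomputable def p107_k9 : C1.Kn := ⟨[nat_lit 20, nat_lit 60, nat_lit 120], [nat_lit 0, nat_lit 698, nat_lit 4166], [(nat_lit 0, nat_lit 0, nat_lit 0), (nat_lit 1000, nat_lit 782, nat_lit 272), (nat_lit 1000, nat_lit 529, nat_lit 902)], (nat_lit 53, nat_lit 100, nat_lit 89)⟩
noncomputable def p107_k10 : C1.Kn := ⟨[nat_lit 20, nat_lit 80, nat_lit 120], [nat_lit 0, nat_lit 1046, nat_lit 4184], [(nat_lit 0, nat_lit 0, nat_lit 0), (nat_lit 1000, nat_lit 782, nat_lit 272), (nat_lit 1000, nat_lit 536, nat_lit 947)], (nat_lit 53, nat_lit 100, nat_lit 89)⟩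
noncomputable def p107_k11 : C1.Kn := ⟨[nat_lit 100, nat_lit 160, nat_lit 200], [nat_lit 0, nat_lit 0, nat_lit 4782], [(nat_lit 0, nat_lit 0, nat_lit 0), (nat_lit 0, nat_lit 0, nat_lit 0), (nat_lit 475, nat_lit 1000, nat_lit 880)], (nat_lit 0, nat_lit 0, nat_lit 0)⟩
noncomputable def p107_k12 : C1.Kn := ⟨[nat_lit 20, nat_lit 80, nat_lit 120], [nat_lit 0, nat_lit 2121, nat_lit 4818], [(nat_lit 0, nat_lit 0, nat_lit 0), (nat_lit 1000, nat_lit 558, nat_lit 551), (nat_lit 1000, nat_lit 443, nat_lit 981)], (nat_lit 44, nat_lit 100, nat_lit 92)⟩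
noncomputable def p107_k13 : C1.Kn := ⟨[nat_lit 20, nat_lit 100], [nat_lit 0, nat_lit 4265], [(nat_lit 0, nat_lit 0, nat_lit 0), (nat_lit 1000, nat_lit 333, nat_lit 833)], (nat_lit 31, nat_lit 100, nat_lit 92)⟩
noncomputable def p107_k14 : C1.Kn := ⟨[nat_lit 20, nat_lit 100], [nat_lit 0, nat_lit 2826], [(nat_lit 0, nat_lit 0, nat_lit 0), (nat_lit 1000, nat_lit 558, nat_lit 551)], (nat_lit 44, nat_lit 100, nat_lit 87)⟩
noncomputable def p107_k15 : C1.Kn := ⟨[nat_lit 20, nat_lit 60, nat_lit 100], [nat_lit 0, nat_lit 1415, nat_lit 3591], [(nat_lit 0, nat_lit 0, nat_lit 0), (nat_lit 1000, nat_lit 558, nat_lit 551), (nat_lit 1000, nat_lit 439, nat_lit 849)], (nat_lit 44, nat_lit 100, nat_lit 87)⟩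
noncomputable def p107_k16 : C1.Kn := ⟨[nat_lit 20, nat_lit 80, nat_lit 100], [nat_lit 0, nat_lit 2663, nat_lit 3968], [(nat_lit 0, nat_lit 0, nat_lit 0), (nat_lit 1000, nat_lit 445, nat_lit 693), (nat_lit 1000, nat_lit 380, nat_lit 921)], (nat_lit 38, nat_lit 100, nat_lit 92)⟩
noncomputable def p107_k17 : C1.Kn := ⟨[nat_lit 20, nat_lit 80, nat_lit 100], [nat_lit 0, nat_lit 3199, nat_lit 4400], [(nat_lit 0, nat_lit 0, nat_lit 0), (nat_lit 1000, nat_lit 333, nat_lit 833), (nat_lit 1000, nat_lit 312, nat_lit 938)], (nat_lit 31, nat_lit 100, nat_lit 92)⟩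
noncomputable def p107_k18 : C1.Kn := ⟨[nat_lit 20, nat_lit 80, nat_lit 140], [nat_lit 0, nat_lit 0, nat_lit 4928], [(nat_lit 0, nat_lit 0, nat_lit 0), (nat_lit 0, nat_lit 0, nat_lit 0), (nat_lit 950, nat_lit 618, nat_lit 1000)], (nat_lit 62, nat_lit 100, nat_lit 94)⟩
noncomputable def p107_k19 : C1.Kn := ⟨[nat_lit 20, nat_lit 80, nat_lit 120], [nat_lit 0, nat_lit 0, nat_lit 3661], [(nat_lit 0, nat_lit 0, nat_lit 0), (nat_lit 0, nat_lit 0, nat_lit 0), (nat_lit 1000, nat_lit 611, nat_lit 913)], (nat_lit 60, nat_lit 100, nat_lit 87)⟩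
noncomputable def p107_k20 : C1.Kn := ⟨[nat_lit 20, nat_lit 80, nat_lit 120], [nat_lit 0, nat_lit 0, nat_lit 3661], [(nat_lit 0, nat_lit 0, nat_lit 0), (nat_lit 0, nat_lit 0, nat_lit 0), (nat_lit 1000, nat_lit 611, nat_lit 913)], (nat_lit 61, nat_lit 100, nat_lit 90)⟩
noncomputable def p107_k21 : C1.Kn := ⟨[nat_lit 20, nat_lit 140], [nat_lit 0, nat_lit 0], [(nat_lit 0, nat_lit 0, nat_lit 0), (nat_lit 0, nat_lit 0, nat_lit 0)], (nat_lit 62, nat_lit 100, nat_lit 94)⟩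
noncomputable def p107_k22 : C1.Kn := ⟨[nat_lit 20, nat_lit 80, nat_lit 120], [nat_lit 0, nat_lit 1046, nat_lit 4184], [(nat_lit 0, nat_lit 0, nat_lit 0), (nat_lit 1000, nat_lit 782, nat_lit 272), (nat_lit 1000, nat_lit 536, nat_lit 947)], (nat_lit 53, nat_lit 100, nat_lit 93)⟩
noncomputable def p107_k23 : C1.Kn := ⟨[nat_lit 20, nat_lit 80, nat_lit 120], [nat_lit 0, nat_lit 0, nat_lit 3661], [(nat_lit 0, nat_lit 0, nat_lit 0), (nat_lit 0, nat_lit 0, nat_lit 0), (nat_lit 1000, nat_lit 611, nat_lit 913)], (nat_lit 61, nat_lit 100, nat_lit 91)⟩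
noncomputable def p107_k24 : C1.Kn := ⟨[nat_lit 20, nat_lit 80, nat_lit 120], [nat_lit 0, nat_lit 1582, nat_lit 4484], [(nat_lit 0, nat_lit 0, nat_lit 0), (nat_lit 1000, nat_lit 671, nat_lit 411), (nat_lit 1000, nat_lit 493, nat_lit 968)], (nat_lit 49, nat_lit 100, nat_lit 92)⟩
noncomputable def p107_k25 : C1.Kn := ⟨[nat_lit 20, nat_lit 60, nat_lit 120], [nat_lit 0, nat_lit 0, nat_lit 3661], [(nat_lit 0, nat_lit 0, nat_lit 0), (nat_lit 0, nat_lit 0, nat_lit 0), (nat_lit 1000, nat_lit 611, nat_lit 913)], (nat_lit 61, nat_lit 100, nat_lit 91)⟩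
noncomputable def p107_k26 : C1.Kn := ⟨[nat_lit 20, nat_lit 60, nat_lit 120], [nat_lit 0, nat_lit 698, nat_lit 4166], [(nat_lit 0, nat_lit 0, nat_lit 0), (nat_lit 1000, nat_lit 782, nat_lit 272), (nat_lit 1000, nat_lit 529, nat_lit 902)], (nat_lit 53, nat_lit 100, nat_lit 93)⟩
noncomputable def p107_k27 : C1.Kn := ⟨[nat_lit 100, nat_lit 140, nat_lit 200], [nat_lit 0, nat_lit 508, nat_lit 4027], [(nat_lit 0, nat_lit 0, nat_lit 0), (nat_lit 1000, nat_lit 1000, nat_lit 198), (nat_lit 777, nat_lit 1000, nat_lit 712)], (nat_lit 0, nat_lit 0, nat_lit 0)⟩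
noncomputable def p107_k28 : C1.Kn := ⟨[nat_lit 20, nat_lit 60, nat_lit 120], [nat_lit 0, nat_lit 1056, nat_lit 4422], [(nat_lit 0, nat_lit 0, nat_lit 0), (nat_lit 1000, nat_lit 671, nat_lit 411), (nat_lit 1000, nat_lit 484, nat_lit 876)], (nat_lit 49, nat_lit 100, nat_lit 92)⟩
noncomputable def p107_k29 : C1.Kn := ⟨[nat_lit 20, nat_lit 80, nat_lit 120], [nat_lit 0, nat_lit 1046, nat_lit 4184], [(nat_lit 0, nat_lit 0, nat_lit 0), (nat_lit 1000, nat_lit 782, nat_lit 272), (nat_lit 1000, nat_lit 536, nat_lit 947)], (nat_lit 53, nat_lit 100, nat_lit 87)⟩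
noncomputable def p107_k30 : C1.Kn := ⟨[nat_lit 20, nat_lit 60, nat_lit 120], [nat_lit 0, nat_lit 698, nat_lit 4166], [(nat_lit 0, nat_lit 0, nat_lit 0), (nat_lit 1000, nat_lit 782, nat_lit 272), (nat_lit 1000, nat_lit 529, nat_lit 902)], (nat_lit 53, nat_lit 100, nat_lit 88)⟩
noncomputable def p107_k31 : C1.Kn := ⟨[nat_lit 20, nat_lit 80, nat_lit 100], [nat_lit 0, nat_lit 1582, nat_lit 3301], [(nat_lit 0, nat_lit 0, nat_lit 0), (nat_lit 1000, nat_lit 671, nat_lit 411), (nat_lit 1000, nat_lit 484, nat_lit 867)], (nat_lit 48, nat_lit 100, nat_lit 87)⟩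
noncomputable def p107_k32 : C1.Kn := ⟨[nat_lit 20, nat_lit 60, nat_lit 120], [nat_lit 0, nat_lit 0, nat_lit 3661], [(nat_lit 0, nat_lit 0, nat_lit 0), (nat_lit 0, nat_lit 0, nat_lit 0), (nat_lit 1000, nat_lit 611, nat_lit 913)], (nat_lit 60, nat_lit 100, nat_lit 87)⟩
noncomputable def p107_k33 : C1.Kn := ⟨[nat_lit 20, nat_lit 60, nat_lit 120], [nat_lit 0, nat_lit 0, nat_lit 3661], [(nat_lit 0, nat_lit 0, nat_lit 0), (nat_lit 0, nat_lit 0, nat_lit 0), (nat_lit 1000, nat_lit 611, nat_lit 913)], (nat_lit 60, nat_lit 100, nat_lit 84)⟩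
noncomputable def p107_k34 : C1.Kn := ⟨[nat_lit 100, nat_lit 140, nat_lit 180], [nat_lit 0, nat_lit 508, nat_lit 2854], [(nat_lit 0, nat_lit 0, nat_lit 0), (nat_lit 1000, nat_lit 1000, nat_lit 198), (nat_lit 777, nat_lit 1000, nat_lit 712)], (nat_lit 100, nat_lit 62, nat_lit 85)⟩
noncomputable def p107_k35 : C1.Kn := ⟨[nat_lit 20, nat_lit 100], [nat_lit 0, nat_lit 1394], [(nat_lit 0, nat_lit 0, nat_lit 0), (nat_lit 1000, nat_lit 782, nat_lit 272)], (nat_lit 53, nat_lit 100, nat_lit 84)⟩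
noncomputable def p107_k36 : C1.Kn := ⟨[nat_lit 100, nat_lit 140, nat_lit 180], [nat_lit 0, nat_lit 766, nat_lit 3056], [(nat_lit 0, nat_lit 0, nat_lit 0), (nat_lit 1000, nat_lit 1000, nat_lit 299), (nat_lit 809, nat_lit 1000, nat_lit 722)], (nat_lit 100, nat_lit 63, nat_lit 88)⟩
noncomputable def p107_k37 : C1.Kn := ⟨[nat_lit 20, nat_lit 60, nat_lit 100], [nat_lit 0, nat_lit 1056, nat_lit 3301], [(nat_lit 0, nat_lit 0, nat_lit 0), (nat_lit 1000, nat_lit 671, nat_lit 411), (nat_lit 1000, nat_lit 484, nat_lit 867)], (nat_lit 48, nat_lit 100, nat_lit 87)⟩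
noncomputable def p107_k38 : C1.Kn := ⟨[nat_lit 20, nat_lit 80, nat_lit 100], [nat_lit 0, nat_lit 2121, nat_lit 3610], [(nat_lit 0, nat_lit 0, nat_lit 0), (nat_lit 1000, nat_lit 558, nat_lit 551), (nat_lit 1000, nat_lit 436, nat_lit 895)], (nat_lit 44, nat_lit 100, nat_lit 87)⟩
noncomputable def p107_k39 : C1.Kn := ⟨[nat_lit 20, nat_lit 60, nat_lit 80], [nat_lit 0, nat_lit 2136, nat_lit 3185], [(nat_lit 0, nat_lit 0, nat_lit 0), (nat_lit 1000, nat_lit 343, nat_lit 808), (nat_lit 1000, nat_lit 338, nat_lit 820)], (nat_lit 32, nat_lit 100, nat_lit 88)⟩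
noncomputable def p107_k40 : C1.Kn := ⟨[nat_lit 20, nat_lit 60, nat_lit 120], [nat_lit 0, nat_lit 1415, nat_lit 4677], [(nat_lit 0, nat_lit 0, nat_lit 0), (nat_lit 1000, nat_lit 558, nat_lit 551), (nat_lit 1000, nat_lit 439, nat_lit 849)], (nat_lit 44, nat_lit 100, nat_lit 92)⟩
noncomputable def p107_k41 : C1.Kn := ⟨[nat_lit 20, nat_lit 80, nat_lit 100], [nat_lit 0, nat_lit 3758, nat_lit 4955], [(nat_lit 0, nat_lit 0, nat_lit 0), (nat_lit 1000, nat_lit 228, nat_lit 923), (nat_lit 1000, nat_lit 226, nat_lit 935)], (nat_lit 23, nat_lit 100, nat_lit 93)⟩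
noncomputable def p107_k42 : C1.Kn := ⟨[nat_lit 20, nat_lit 80, nat_lit 100], [nat_lit 0, nat_lit 2121, nat_lit 3610], [(nat_lit 0, nat_lit 0, nat_lit 0), (nat_lit 1000, nat_lit 558, nat_lit 551), (nat_lit 1000, nat_lit 436, nat_lit 895)], (nat_lit 44, nat_lit 100, nat_lit 90)⟩
noncomputable def p107_k43 : C1.Kn := ⟨[nat_lit 20, nat_lit 80], [nat_lit 0, nat_lit 3199], [(nat_lit 0, nat_lit 0, nat_lit 0), (nat_lit 1000, nat_lit 333, nat_lit 833)], (nat_lit 32, nat_lit 100, nat_lit 88)⟩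
noncomputable def p107_k44 : C1.Kn := ⟨[nat_lit 100, nat_lit 200], [nat_lit 0, nat_lit 0], [(nat_lit 0, nat_lit 0, nat_lit 0), (nat_lit 0, nat_lit 0, nat_lit 0)], (nat_lit 0, nat_lit 0, nat_lit 0)⟩
noncomputable def p107_l0 : Lf2 := ⟨nat_lit 0, nat_lit 27, [nat_lit 147, nat_lit 5, nat_lit 5, nat_lit 20], true, nat_lit 80, nat_lit 160, nat_lit 0, nat_lit 384, ⟨nat_lit 0, nat_lit 184, nat_lit 816, nat_lit 6, nat_lit 244, nat_lit 1000, nat_lit 108, nat_lit 816, nat_lit 109350, nat_lit 296, nat_lit 61180, nat_lit 200, nat_lit 44669424, nat_lit 17479585, nat_lit 4850991, nat_lit 4307245, true, true⟩,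
 nat_lit 0, nat_lit 0, nat_lit 0, nat_lit 6618, nat_lit 2347, nat_lit 0, nat_lit 0, nat_lit 0, nat_lit 0, nat_lit 0, nat_lit 0, nat_lit 0, nat_lit 0, nat_lit 0, nat_lit 69, nat_lit 250000, nat_lit 0, nat_lit 0, [(nat_lit 26, [(nat_lit 0, nat_lit 184), (nat_lit 4, nat_lit 816)])],
 ⟨p107_k0, nat_lit 0, nat_lit 0, nat_lit 114, nat_lit 0, nat_lit 0, [nat_lit 1010918401, nat_lit 803072001, nat_lit 19276800], [], [nat_lit 21220416645, nat_lit 22253434967, nat_lit 22511047105, nat_lit 23476890709, nat_lit 22058233101, nat_lit 23005255315, nat_lit 23249608349, nat_lit 24318010489], nat_lit 0, nat_lit 0, nat_lit 0, nat_lit 0, nat_lit 0, nat_lit 0, [], [nat_lit 54, nat_lit 40, nat_lit 40, nat_lit 80, nat_lit 43, nat_lit 249, nat_lit 40, nat_lit 7]⟩, C1.Rw.none,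
 ⟨nat_lit 2236, nat_lit 3163, ⟨.ofNat (nat_lit 560952), .ofNat (nat_lit 621905), .ofNat (nat_lit 605240), .ofNat (nat_lit 666215), .ofNat (nat_lit 557014), .ofNat (nat_lit 614030), .ofNat (nat_lit 602541), .ofNat (nat_lit 659578)⟩, ⟨.ofNat (nat_lit 200000), .ofNat (nat_lit 328271), .ofNat (nat_lit 200000), .ofNat (nat_lit 350426), .ofNat (nat_lit 200000), .ofNat (nat_lit 329112), .ofNat (nat_lit 200000), .ofNat (nat_lit 351886)⟩⟩, []⟩
noncomputable def p107_l1 : Lf2 := ⟨nat_lit 0, nat_lit 27, [nat_lit 147, nat_lit 5, nat_lit 5, nat_lit 20], true, nat_lit 80, nat_lit 160, nat_lit 0, nat_lit 364, ⟨nat_lit 0, nat_lit 1000, nat_lit 0, nat_lit 7, nat_lit 269, nat_lit 1000, nat_lit 108, nat_lit 0, nat_lit 0, nat_lit 0, nat_lit 0, nat_lit 0, nat_lit 42416184, nat_lit 19870979, nat_lit 4712837, nat_lit 4438793, true, true⟩,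
 nat_lit 0, nat_lit 0, nat_lit 0, nat_lit 11216, nat_lit 2793, nat_lit 0, nat_lit 178, nat_lit 0, nat_lit 0, nat_lit 0, nat_lit 0, nat_lit 0, nat_lit 0, nat_lit 0, nat_lit 0, nat_lit 350800, nat_lit 0, nat_lit 0, [(nat_lit 26, [(nat_lit 0, nat_lit 328), (nat_lit 1, nat_lit 672)])],
 ⟨p107_k0, nat_lit 0, nat_lit 0, nat_lit 123, nat_lit 0, nat_lit 0, [nat_lit 823123201, nat_lit 1142604801, nat_lit 1359379200], [], [nat_lit 23272783727, nat_lit 23792125373, nat_lit 24786558170, nat_lit 25279208090, nat_lit 23856873763, nat_lit 24327938600, nat_lit 25231809071, nat_lit 25677169694], nat_lit 0, nat_lit 0, nat_lit 0, nat_lit 0, nat_lit 0, nat_lit 0, [], [nat_lit 54, nat_lit 40, nat_lit 40, nat_lit 80, nat_lit 43, nat_lit 249, nat_lit 40, nat_lit 7]⟩, C1.Rw.none,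
 ⟨nat_lit 2738, nat_lit 3163, ⟨.ofNat (nat_lit 621905), .ofNat (nat_lit 682859), .ofNat (nat_lit 666215), .ofNat (nat_lit 727168), .ofNat (nat_lit 618121), .ofNat (nat_lit 677182), .ofNat (nat_lit 662956), .ofNat (nat_lit 722017)⟩, ⟨.ofNat (nat_lit 200000), .ofNat (nat_lit 328271), .ofNat (nat_lit 200000), .ofNat (nat_lit 350426), .ofNat (nat_lit 200000), .ofNat (nat_lit 328850), .ofNat (nat_lit 200000), .ofNat (nat_lit 351268)⟩⟩, []⟩
noncomputable def p107_l2 : Lf2 := ⟨nat_lit 0, nat_lit 25, [nat_lit 44, nat_lit 5, nat_lit 5, nat_lit 20], true, nat_lit 80, nat_lit 160, nat_lit 0, nat_lit 364, ⟨nat_lit 0, nat_lit 1000, nat_lit 0, nat_lit 7, nat_lit 268, nat_lit 1000, nat_lit 108, nat_lit 0, nat_lit 0, nat_lit 0, nat_lit 0, nat_lit 0, nat_lit 42518429, nat_lit 19756308, nat_lit 4725263, nat_lit 4434389, true, true⟩,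
 nat_lit 0, nat_lit 0, nat_lit 0, nat_lit 10113, nat_lit 2571, nat_lit 0, nat_lit 267, nat_lit 0, nat_lit 0, nat_lit 0, nat_lit 0, nat_lit 0, nat_lit 0, nat_lit 0, nat_lit 0, nat_lit 250000, nat_lit 0, nat_lit 0, [(nat_lit 26, [(nat_lit 0, nat_lit 1000)])],
 ⟨p107_k1, nat_lit 0, nat_lit 0, nat_lit 124, nat_lit 0, nat_lit 0, [nat_lit 765600000, nat_lit 1368800000, nat_lit 2512800000], [], [nat_lit 23569815143, nat_lit 23719299360, nat_lit 24997753754, nat_lit 25139623671, nat_lit 24189612753, nat_lit 24326742465, nat_lit 25505676457, nat_lit 25632960598], nat_lit 0, nat_lit 0, nat_lit 0, nat_lit 0, nat_lit 0, nat_lit 0, [], [nat_lit 54, nat_lit 40, nat_lit 40, nat_lit 80, nat_lit 43, nat_lit 249, nat_lit 40, nat_lit 7]⟩, C1.Rw.none,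
 ⟨nat_lit 2598, nat_lit 2739, ⟨.ofNat (nat_lit 618121), .ofNat (nat_lit 677182), .ofNat (nat_lit 662956), .ofNat (nat_lit 722017), .ofNat (nat_lit 616936), .ofNat (nat_lit 675404), .ofNat (nat_lit 661960), .ofNat (nat_lit 720428)⟩, ⟨.ofNat (nat_lit 200000), .ofNat (nat_lit 328850), .ofNat (nat_lit 200000), .ofNat (nat_lit 351268), .ofNat (nat_lit 200000), .ofNat (nat_lit 328969), .ofNat (nat_lit 200000), .ofNat (nat_lit 351481)⟩⟩, []⟩
noncomputable def p107_l3 : Lf2 := ⟨nat_lit 0, nat_lit 25, [nat_lit 44, nat_lit 5, nat_lit 5, nat_lit 20], true, nat_lit 80, nat_lit 160, nat_lit 0, nat_lit 364, ⟨nat_lit 0, nat_lit 1000, nat_lit 0, nat_lit 7, nat_lit 267, nat_lit 1000, nat_lit 108, nat_lit 0, nat_lit 0, nat_lit 0, nat_lit 0, nat_lit 0, nat_lit 42559542, nat_lit 19710810, nat_lit 4729648, nat_lit 4432514, true, true⟩,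
 nat_lit 0, nat_lit 0, nat_lit 0, nat_lit 9952, nat_lit 2479, nat_lit 0, nat_lit 268, nat_lit 0, nat_lit 0, nat_lit 0, nat_lit 0, nat_lit 0, nat_lit 0, nat_lit 0, nat_lit 0, nat_lit 250000, nat_lit 0, nat_lit 0, [(nat_lit 26, [(nat_lit 0, nat_lit 1000)])],
 ⟨p107_k2, nat_lit 0, nat_lit 0, nat_lit 125, nat_lit 0, nat_lit 0, [nat_lit 765600000, nat_lit 1368800000, nat_lit 2512800000], [], [nat_lit 23629315806, nat_lit 23727635172, nat_lit 25034130713, nat_lit 25125206390, nat_lit 24269788071, nat_lit 24360050353, nat_lit 25566205958, nat_lit 25650057835], nat_lit 0, nat_lit 0, nat_lit 0, nat_lit 0, nat_lit 0, nat_lit 0, [], [nat_lit 54, nat_lit 40, nat_lit 40, nat_lit 80, nat_lit 43, nat_lit 249, nat_lit 40, nat_lit 7]⟩, C1.Rw.none,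
 ⟨nat_lit 2500, nat_lit 2599, ⟨.ofNat (nat_lit 616936), .ofNat (nat_lit 675404), .ofNat (nat_lit 661960), .ofNat (nat_lit 720428), .ofNat (nat_lit 616128), .ofNat (nat_lit 674192), .ofNat (nat_lit 661289), .ofNat (nat_lit 719353)⟩, ⟨.ofNat (nat_lit 200000), .ofNat (nat_lit 328969), .ofNat (nat_lit 200000), .ofNat (nat_lit 351481), .ofNat (nat_lit 200000), .ofNat (nat_lit 329031), .ofNat (nat_lit 200000), .ofNat (nat_lit 351611)⟩⟩, []⟩
noncomputable def p107_l4 : Lf2 := ⟨nat_lit 1, nat_lit 27, [nat_lit 147, nat_lit 5, nat_lit 5, nat_lit 20], false, nat_lit 80, nat_lit 160, nat_lit 0, nat_lit 364, zbN0,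
 nat_lit 0, nat_lit 0, nat_lit 0, nat_lit 0, nat_lit 0, nat_lit 0, nat_lit 0, nat_lit 0, nat_lit 0, nat_lit 0, nat_lit 0, nat_lit 0, nat_lit 0, nat_lit 0, nat_lit 0, nat_lit 0, nat_lit 0, nat_lit 0, [],
 C1.Rw.none, C1.Rw.none,
 zbF0, []⟩
noncomputable def p107_l5 : Lf2 := ⟨nat_lit 0, nat_lit 27, [nat_lit 147, nat_lit 5, nat_lit 5, nat_lit 20], true, nat_lit 80, nat_lit 120, nat_lit 0, nat_lit 336, ⟨nat_lit 0, nat_lit 1000, nat_lit 0, nat_lit 7, nat_lit 267, nat_lit 1000, nat_lit 97, nat_lit 0, nat_lit 0, nat_lit 0, nat_lit 0, nat_lit 0, nat_lit 43154599, nat_lit 19834256, nat_lit 4011145, nat_lit 4293692, true, true⟩,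
 nat_lit 0, nat_lit 0, nat_lit 0, nat_lit 10856, nat_lit 2369, nat_lit 0, nat_lit 275, nat_lit 0, nat_lit 0, nat_lit 0, nat_lit 0, nat_lit 0, nat_lit 0, nat_lit 0, nat_lit 0, nat_lit 250000, nat_lit 0, nat_lit 0, [(nat_lit 26, [(nat_lit 0, nat_lit 1000)])],
 ⟨p107_k3, nat_lit 0, nat_lit 0, nat_lit 126, nat_lit 0, nat_lit 0, [nat_lit 765600000, nat_lit 1368800000, nat_lit 2512800000], [], [nat_lit 23602388987, nat_lit 23699110031, nat_lit 24985825040, nat_lit 25077065134, nat_lit 23938449432, nat_lit 24031249096, nat_lit 25329172191, nat_lit 25435254304], nat_lit 0, nat_lit 0, nat_lit 0, nat_lit 0, nat_lit 0, nat_lit 0, [], [nat_lit 54, nat_lit 40, nat_lit 40, nat_lit 80, nat_lit 43, nat_lit 238, nat_lit 30, nat_lit 6]⟩, C1.Rw.none,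
 ⟨nat_lit 2397, nat_lit 2500, ⟨.ofNat (nat_lit 616128), .ofNat (nat_lit 674192), .ofNat (nat_lit 661289), .ofNat (nat_lit 719353), .ofNat (nat_lit 615303), .ofNat (nat_lit 672955), .ofNat (nat_lit 660611), .ofNat (nat_lit 718263)⟩, ⟨.ofNat (nat_lit 200000), .ofNat (nat_lit 270966), .ofNat (nat_lit 200000), .ofNat (nat_lit 293547), .ofNat (nat_lit 200000), .ofNat (nat_lit 271424), .ofNat (nat_lit 200000), .ofNat (nat_lit 294078)⟩⟩, []⟩
noncomputable def p107_l6 : Lf2 := ⟨nat_lit 0, nat_lit 27, [nat_lit 147, nat_lit 5, nat_lit 5, nat_lit 20], false, nat_lit 80, nat_lit 120, nat_lit 0, nat_lit 336, ⟨nat_lit 223, nat_lit 777, nat_lit 0, nat_lit 7, nat_lit 267, nat_lit 777, nat_lit 97, nat_lit 0, nat_lit 0, nat_lit 0, nat_lit 0, nat_lit 0, nat_lit 43178041, nat_lit 19804912, nat_lit 4017047, nat_lit 4293170, true, true⟩,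
 nat_lit 0, nat_lit 0, nat_lit 4899, nat_lit 912, nat_lit 2489, nat_lit 2099, nat_lit 341, nat_lit 0, nat_lit 0, nat_lit 195, nat_lit 0, nat_lit 0, nat_lit 0, nat_lit 0, nat_lit 0, nat_lit 194250, nat_lit 0, nat_lit 0, [(nat_lit 26, [(nat_lit 0, nat_lit 777)])],
 ⟨p107_k4, nat_lit 0, nat_lit 0, nat_lit 126, nat_lit 0, nat_lit 0, [nat_lit 804045201, nat_lit 1795443601, nat_lit 3729309600], [], [nat_lit 23877559976, nat_lit 23926792310, nat_lit 25269153563, nat_lit 25317140505, nat_lit 24187924477, nat_lit 24235137669, nat_lit 25526035767, nat_lit 25573260512], nat_lit 0, nat_lit 0, nat_lit 0, nat_lit 0, nat_lit 0, nat_lit 0, [], [nat_lit 54, nat_lit 40, nat_lit 40, nat_lit 80, nat_lit 43, nat_lit 238, nat_lit 30, nat_lit 6]⟩, ⟨p107_k5, nat_lit 0, nat_lit 0, nat_lit 530, nat_lit 0, nat_lit 382969, [nat_lit 1393750000, nat_lit 2194766000, nat_lit 3657200000], [], [nat_lit 9318254691, nat_lit 9382103787, nat_lit 9643189467,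 nat_lit 9671735859, nat_lit 7801391281, nat_lit 7748863041, nat_lit 7938159911, nat_lit 7869515765], nat_lit 1271250, nat_lit 1271250, nat_lit 1271250, nat_lit 1271250, nat_lit 0, nat_lit 2373000, [nat_lit 1412500, nat_lit 1271250, nat_lit 1271250], [nat_lit 118, nat_lit 40, nat_lit 40, nat_lit 80, nat_lit 73, nat_lit 456, nat_lit 225, nat_lit 9]⟩,
 ⟨nat_lit 2345, nat_lit 2398, ⟨.ofNat (nat_lit 615303), .ofNat (nat_lit 672955), .ofNat (nat_lit 660611), .ofNat (nat_lit 718263), .ofNat (nat_lit 614884), .ofNat (nat_lit 672327), .ofNat (nat_lit 660269), .ofNat (nat_lit 717712)⟩, ⟨.ofNat (nat_lit 200000), .ofNat (nat_lit 271424), .ofNat (nat_lit 200000), .ofNat (nat_lit 294078), .ofNat (nat_lit 200000), .ofNat (nat_lit 271650), .ofNat (nat_lit 200000), .ofNat (nat_lit 294343)⟩⟩, [⟨nat_lit 22, nat_lit 100, nat_lit 100, nat_lit 100, nat_lit 15340881⟩]⟩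
noncomputable def p107_l7 : Lf2 := ⟨nat_lit 0, nat_lit 27, [nat_lit 147, nat_lit 5, nat_lit 5, nat_lit 20], true, nat_lit 120, nat_lit 160, nat_lit 0, nat_lit 364, ⟨nat_lit 0, nat_lit 1000, nat_lit 0, nat_lit 7, nat_lit 267, nat_lit 1000, nat_lit 125, nat_lit 0, nat_lit 0, nat_lit 0, nat_lit 0, nat_lit 0, nat_lit 41765100, nat_lit 19415824, nat_lit 5819076, nat_lit 4615575, true, true⟩,
 nat_lit 0, nat_lit 0, nat_lit 0, nat_lit 6581, nat_lit 3437, nat_lit 0, nat_lit 0, nat_lit 0, nat_lit 0, nat_lit 0, nat_lit 0, nat_lit 0, nat_lit 0, nat_lit 0, nat_lit 0, nat_lit 250000, nat_lit 0, nat_lit 0, [(nat_lit 26, [(nat_lit 0, nat_lit 1000)])],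
 ⟨p107_k6, nat_lit 0, nat_lit 0, nat_lit 80, nat_lit 0, nat_lit 0, [nat_lit 765600000, nat_lit 1715200000, nat_lit 2512800000], [], [nat_lit 24871649901, nat_lit 25058155598, nat_lit 26596875162, nat_lit 26794173600, nat_lit 25060195556, nat_lit 25237762565, nat_lit 26666706120, nat_lit 26829652814], nat_lit 0, nat_lit 0, nat_lit 0, nat_lit 0, nat_lit 0, nat_lit 0, [], [nat_lit 57, nat_lit 40, nat_lit 40, nat_lit 80, nat_lit 7, nat_lit 249, nat_lit 40, nat_lit 7]⟩, C1.Rw.none,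
 ⟨nat_lit 2345, nat_lit 2500, ⟨.ofNat (nat_lit 616128), .ofNat (nat_lit 674192), .ofNat (nat_lit 661289), .ofNat (nat_lit 719353), .ofNat (nat_lit 614884), .ofNat (nat_lit 672327), .ofNat (nat_lit 660269), .ofNat (nat_lit 717712)⟩, ⟨.ofNat (nat_lit 270966), .ofNat (nat_lit 329031), .ofNat (nat_lit 293547), .ofNat (nat_lit 351611), .ofNat (nat_lit 271650), .ofNat (nat_lit 329093), .ofNat (nat_lit 294343), .ofNat (nat_lit 351786)⟩⟩, []⟩
noncomputable def p107_l8 : Lf2 := ⟨nat_lit 0, nat_lit 27, [nat_lit 147, nat_lit 5, nat_lit 5, nat_lit 20], true, nat_lit 80, nat_lit 160, nat_lit 0, nat_lit 364, ⟨nat_lit 0, nat_lit 1000, nat_lit 0, nat_lit 7, nat_lit 259, nat_lit 1000, nat_lit 108, nat_lit 0, nat_lit 0, nat_lit 0, nat_lit 0, nat_lit 0, nat_lit 43270250, nat_lit 18952961, nat_lit 4776789, nat_lit 4394453, true, true⟩,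
 nat_lit 0, nat_lit 0, nat_lit 0, nat_lit 9611, nat_lit 2613, nat_lit 0, nat_lit 188, nat_lit 0, nat_lit 0, nat_lit 0, nat_lit 0, nat_lit 0, nat_lit 0, nat_lit 0, nat_lit 0, nat_lit 250000, nat_lit 0, nat_lit 0, [(nat_lit 26, [(nat_lit 0, nat_lit 1000)])],
 ⟨p107_k7, nat_lit 0, nat_lit 0, nat_lit 107, nat_lit 0, nat_lit 0, [nat_lit 765600000, nat_lit 1715200000, nat_lit 2090000000], [], [nat_lit 23974546700, nat_lit 24081315830, nat_lit 25170648179, nat_lit 25271313231, nat_lit 24619456161, nat_lit 24717177548, nat_lit 25735631583, nat_lit 25830616251], nat_lit 0, nat_lit 0, nat_lit 0, nat_lit 0, nat_lit 0, nat_lit 0, [], [nat_lit 55, nat_lit 40, nat_lit 40, nat_lit 80, nat_lit 3, nat_lit 249, nat_lit 40, nat_lit 8]⟩, C1.Rw.none,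
 ⟨nat_lit 2236, nat_lit 2346, ⟨.ofNat (nat_lit 614884), .ofNat (nat_lit 660838), .ofNat (nat_lit 637576), .ofNat (nat_lit 683531), .ofNat (nat_lit 614030), .ofNat (nat_lit 659642), .ofNat (nat_lit 636804), .ofNat (nat_lit 682416)⟩, ⟨.ofNat (nat_lit 200000), .ofNat (nat_lit 329093), .ofNat (nat_lit 200000), .ofNat (nat_lit 351786), .ofNat (nat_lit 200000), .ofNat (nat_lit 329112), .ofNat (nat_lit 200000), .ofNat (nat_lit 351886)⟩⟩, [⟨nat_lit 13, nat_lit 45, nat_lit 87, nat_lit 100, nat_lit 378535386⟩]⟩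
noncomputable def p107_l9 : Lf2 := ⟨nat_lit 0, nat_lit 27, [nat_lit 147, nat_lit 5, nat_lit 5, nat_lit 20], false, nat_lit 80, nat_lit 160, nat_lit 0, nat_lit 364, ⟨nat_lit 97, nat_lit 903, nat_lit 0, nat_lit 7, nat_lit 271, nat_lit 903, nat_lit 108, nat_lit 0, nat_lit 0, nat_lit 0, nat_lit 0, nat_lit 0, nat_lit 42231784, nat_lit 20057120, nat_lit 4711096, nat_lit 4449384, true, true⟩,
 nat_lit 0, nat_lit 0, nat_lit 2202, nat_lit 3754, nat_lit 2728, nat_lit 1053, nat_lit 205, nat_lit 0, nat_lit 0, nat_lit 58, nat_lit 0, nat_lit 0, nat_lit 0, nat_lit 0, nat_lit 0, nat_lit 225750, nat_lit 0, nat_lit 0, [(nat_lit 26, [(nat_lit 0, nat_lit 903)])],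
 ⟨p107_k7, nat_lit 0, nat_lit 0, nat_lit 109, nat_lit 0, nat_lit 0, [nat_lit 782322800, nat_lit 2003561600, nat_lit 2493520000], [], [nat_lit 24169639273, nat_lit 24280522503, nat_lit 25703844864, nat_lit 25806004871, nat_lit 24755122278, nat_lit 24854454263, nat_lit 26145761827, nat_lit 26237676215], nat_lit 0, nat_lit 0, nat_lit 0, nat_lit 0, nat_lit 0, nat_lit 0, [], [nat_lit 55, nat_lit 40, nat_lit 40, nat_lit 80, nat_lit 3, nat_lit 249, nat_lit 40, nat_lit 8]⟩, ⟨p107_k8, nat_lit 0, nat_lit 0, nat_lit 534, nat_lit 0, nat_lit 373034, [nat_lit 606250000, nat_lit 1151584000, nat_lit 1590800000], [], [nat_lit 4221956804, nat_lit 4223016504, nat_lit 4339509866, nat_lit 4332764628, nat_lit 3463998770, nat_lit 3449314323, nat_lit 3524341730, nat_lit 3504117397], nat_lit 1271250, nat_lit 1271250, nat_lit 1271250, nat_lit 1271250, nat_lit 0, nat_lit 2570750, [nat_lit 1412500, nat_lit 1271250, nat_lit 1271250], [nat_lit 104,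 nat_lit 40, nat_lit 40, nat_lit 80, nat_lit 76, nat_lit 483, nat_lit 250, nat_lit 10]⟩,
 ⟨nat_lit 2236, nat_lit 2346, ⟨.ofNat (nat_lit 637576), .ofNat (nat_lit 695019), .ofNat (nat_lit 660269), .ofNat (nat_lit 717712), .ofNat (nat_lit 636804), .ofNat (nat_lit 693819), .ofNat (nat_lit 659578), .ofNat (nat_lit 716594)⟩, ⟨.ofNat (nat_lit 200000), .ofNat (nat_lit 329093), .ofNat (nat_lit 200000), .ofNat (nat_lit 351786), .ofNat (nat_lit 200000), .ofNat (nat_lit 329112), .ofNat (nat_lit 200000), .ofNat (nat_lit 351886)⟩⟩, [⟨nat_lit 22, nat_lit 94, nat_lit 88, nat_lit 100, nat_lit 8043565⟩]⟩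
noncomputable def p107_l10 : Lf2 := ⟨nat_lit 0, nat_lit 27, [nat_lit 147, nat_lit 5, nat_lit 5, nat_lit 20], false, nat_lit 80, nat_lit 160, nat_lit 0, nat_lit 336, ⟨nat_lit 1000, nat_lit 0, nat_lit 0, nat_lit 0, nat_lit 0, nat_lit 0, nat_lit 0, nat_lit 0, nat_lit 0, nat_lit 0, nat_lit 0, nat_lit 0, nat_lit 0, nat_lit 0, nat_lit 0, nat_lit 0, false, false⟩,
 nat_lit 0, nat_lit 0, nat_lit 24613, nat_lit 2079, nat_lit 4590, nat_lit 10548, nat_lit 534, nat_lit 0, nat_lit 0, nat_lit 1032, nat_lit 0, nat_lit 0, nat_lit 0, nat_lit 0, nat_lit 0, nat_lit 0, nat_lit 0, nat_lit 0, [],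
 ⟨p107_k0, nat_lit 0, nat_lit 0, nat_lit 131, nat_lit 0, nat_lit 0, [nat_lit 938000000, nat_lit 3282000000, nat_lit 7968000000], [], [nat_lit 27276564850, nat_lit 27877903700, nat_lit 29195287128, nat_lit 29926246717, nat_lit 26996667730, nat_lit 27541773600, nat_lit 28684514424, nat_lit 29348636646], nat_lit 0, nat_lit 0, nat_lit 0, nat_lit 0, nat_lit 0, nat_lit 0, [], [nat_lit 54, nat_lit 40, nat_lit 40, nat_lit 80, nat_lit 43, nat_lit 249, nat_lit 40, nat_lit 7]⟩, ⟨p107_k5, nat_lit 0, nat_lit 0, nat_lit 444, nat_lit 0, nat_lit 146766, [nat_lit 6250000000, nat_lit 9842000000, nat_lit 16400000000], [], [nat_lit 41556792152, nat_lit 42061287528, nat_lit 43980789580, nat_lit 44265182133, nat_lit 33268418124, nat_lit 33093570509, nat_lit 34523290969, nat_lit 34228190824], nat_lit 1271250, nat_lit 1271250, nat_lit 1271250, nat_lit 1271250, nat_lit 0, nat_lit 2373000, [nat_lit 1412500, nat_lit 1271250, nat_lit 1271250],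 [nat_lit 118, nat_lit 40, nat_lit 40, nat_lit 80, nat_lit 73, nat_lit 483, nat_lit 250, nat_lit 10]⟩,
 zbF0, [⟨nat_lit 22, nat_lit 82, nat_lit 76, nat_lit 100, nat_lit 48708956⟩]⟩
noncomputable def p107_l11 : Lf2 := ⟨nat_lit 0, nat_lit 27, [nat_lit 147, nat_lit 5, nat_lit 5, nat_lit 20], false, nat_lit 80, nat_lit 120, nat_lit 0, nat_lit 300, ⟨nat_lit 209, nat_lit 791, nat_lit 0, nat_lit 8, nat_lit 284, nat_lit 791, nat_lit 96, nat_lit 0, nat_lit 0, nat_lit 0, nat_lit 0, nat_lit 0, nat_lit 41528514, nat_lit 21551934, nat_lit 3919552, nat_lit 4369724, true, true⟩,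
 nat_lit 0, nat_lit 0, nat_lit 4756, nat_lit 0, nat_lit 2663, nat_lit 2038, nat_lit 327, nat_lit 0, nat_lit 0, nat_lit 161, nat_lit 0, nat_lit 0, nat_lit 0, nat_lit 0, nat_lit 0, nat_lit 197750, nat_lit 0, nat_lit 0, [(nat_lit 26, [(nat_lit 0, nat_lit 791)])],
 ⟨p107_k9, nat_lit 0, nat_lit 0, nat_lit 131, nat_lit 0, nat_lit 0, [nat_lit 801631601, nat_lit 1768658800, nat_lit 3652936800], [], [nat_lit 25352714963, nat_lit 25819716999, nat_lit 26138049776, nat_lit 26693912969, nat_lit 25589182193, nat_lit 26039277302, nat_lit 26387081705, nat_lit 26870860331], nat_lit 0, nat_lit 0, nat_lit 0, nat_lit 0, nat_lit 0, nat_lit 0, [], [nat_lit 54, nat_lit 40, nat_lit 40, nat_lit 80, nat_lit 43, nat_lit 238, nat_lit 30, nat_lit 6]⟩, ⟨p107_k5, nat_lit 0, nat_lit 0, nat_lit 601, nat_lit 0, nat_lit 443026, [nat_lit 1306250000, nat_lit 2056978000, nat_lit 3427600000], [], [nat_lit 9390488497, nat_lit 9344397133, nat_lit 9507552253,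 nat_lit 9504046507, nat_lit 7464990070, nat_lit 7366926746, nat_lit 7540198991, nat_lit 7528423122], nat_lit 1271250, nat_lit 1271250, nat_lit 1271250, nat_lit 1271250, nat_lit 0, nat_lit 2118750, [nat_lit 1412500, nat_lit 1271250, nat_lit 1271250], [nat_lit 118, nat_lit 40, nat_lit 40, nat_lit 80, nat_lit 73, nat_lit 456, nat_lit 225, nat_lit 9]⟩,
 ⟨nat_lit 2236, nat_lit 2739, ⟨.ofNat (nat_lit 677182), .ofNat (nat_lit 706713), .ofNat (nat_lit 722017), .ofNat (nat_lit 751548), .ofNat (nat_lit 671045), .ofNat (nat_lit 699553), .ofNat (nat_lit 716594), .ofNat (nat_lit 745101)⟩, ⟨.ofNat (nat_lit 200000), .ofNat (nat_lit 269789), .ofNat (nat_lit 200000), .ofNat (nat_lit 292206), .ofNat (nat_lit 200000), .ofNat (nat_lit 272096), .ofNat (nat_lit 200000), .ofNat (nat_lit 294870)⟩⟩, [⟨nat_lit 13, nat_lit 49, nat_lit 83, nat_lit 100, nat_lit 320258170⟩, ⟨nat_lit 22, nat_lit 81, nat_lit 100, nat_lit 92, nat_lit 6429049⟩]⟩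
noncomputable def p107_l12 : Lf2 := ⟨nat_lit 0, nat_lit 25, [nat_lit 44, nat_lit 5, nat_lit 5, nat_lit 20], false, nat_lit 120, nat_lit 160, nat_lit 4, nat_lit 336, ⟨nat_lit 59, nat_lit 941, nat_lit 0, nat_lit 8, nat_lit 284, nat_lit 941, nat_lit 125, nat_lit 0, nat_lit 0, nat_lit 0, nat_lit 0, nat_lit 0, nat_lit 40234177, nat_lit 21086819, nat_lit 5679004, nat_lit 4684105, true, true⟩,
 nat_lit 0, nat_lit 0, nat_lit 1468, nat_lit 4680, nat_lit 2726, nat_lit 629, nat_lit 257, nat_lit 0, nat_lit 0, nat_lit 62, nat_lit 0, nat_lit 0, nat_lit 0, nat_lit 0, nat_lit 0, nat_lit 235250, nat_lit 0, nat_lit 0, [(nat_lit 26, [(nat_lit 0, nat_lit 941)])],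
 ⟨p107_k1, nat_lit 0, nat_lit 0, nat_lit 116, nat_lit 0, nat_lit 0, [nat_lit 775771601, nat_lit 1481678801, nat_lit 2834656800], [], [nat_lit 25637610069, nat_lit 26097937232, nat_lit 26409414951, nat_lit 26946460457, nat_lit 25841414993, nat_lit 26282066822, nat_lit 26581372326, nat_lit 27093705776], nat_lit 0, nat_lit 0, nat_lit 0, nat_lit 0, nat_lit 0, nat_lit 0, [], [nat_lit 54, nat_lit 40, nat_lit 40, nat_lit 80, nat_lit 43, nat_lit 249, nat_lit 40, nat_lit 6]⟩, ⟨p107_k5, nat_lit 0, nat_lit 0, nat_lit 540, nat_lit 0, nat_lit 429380, [nat_lit 368750000, nat_lit 580678000, nat_lit 967600000], [], [nat_lit 2422235184, nat_lit 2451828281, nat_lit 2512003436, nat_lit 2533427160, nat_lit 1960578471, nat_lit 1939625986, nat_lit 1995004391, nat_lit 1979864163], nat_lit 1271250, nat_lit 1271250, nat_lit 1271250, nat_lit 1271250, nat_lit 21650, nat_lit 2378850, [nat_lit 1412500, nat_lit 1271250, nat_lit 1271250], [nat_lit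 118, nat_lit 40, nat_lit 40, nat_lit 80, nat_lit 73, nat_lit 483, nat_lit 250, nat_lit 10]⟩,
 ⟨nat_lit 2236, nat_lit 2739, ⟨.ofNat (nat_lit 677182), .ofNat (nat_lit 706713), .ofNat (nat_lit 722017), .ofNat (nat_lit 751548), .ofNat (nat_lit 671045), .ofNat (nat_lit 699553), .ofNat (nat_lit 716594), .ofNat (nat_lit 745101)⟩, ⟨.ofNat (nat_lit 269789), .ofNat (nat_lit 328850), .ofNat (nat_lit 292206), .ofNat (nat_lit 351268), .ofNat (nat_lit 272096), .ofNat (nat_lit 329112), .ofNat (nat_lit 294870), .ofNat (nat_lit 351886)⟩⟩, [⟨nat_lit 13, nat_lit 49, nat_lit 83, nat_lit 100, nat_lit 388580960⟩, ⟨nat_lit 22, nat_lit 82, nat_lit 76, nat_lit 100, nat_lit 3387731⟩]⟩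
noncomputable def p107_l13 : Lf2 := ⟨nat_lit 0, nat_lit 27, [nat_lit 147, nat_lit 5, nat_lit 5, nat_lit 20], false, nat_lit 120, nat_lit 160, nat_lit 4, nat_lit 336, ⟨nat_lit 1000, nat_lit 0, nat_lit 0, nat_lit 0, nat_lit 0, nat_lit 0, nat_lit 0, nat_lit 0, nat_lit 0, nat_lit 0, nat_lit 0, nat_lit 0, nat_lit 0, nat_lit 0, nat_lit 0, nat_lit 0, false, false⟩,
 nat_lit 0, nat_lit 0, nat_lit 29278, nat_lit 0, nat_lit 4580, nat_lit 12547, nat_lit 459, nat_lit 0, nat_lit 0, nat_lit 618, nat_lit 0, nat_lit 0, nat_lit 0, nat_lit 0, nat_lit 0, nat_lit 0, nat_lit 0, nat_lit 0, [],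
 ⟨p107_k10, nat_lit 0, nat_lit 0, nat_lit 114, nat_lit 0, nat_lit 0, [nat_lit 938000000, nat_lit 4688000000, nat_lit 7968000000], [], [nat_lit 27818811770, nat_lit 28431428940, nat_lit 28890879655, nat_lit 29611714310, nat_lit 27653199260, nat_lit 28200834030, nat_lit 28639464540, nat_lit 29325321080], nat_lit 0, nat_lit 0, nat_lit 0, nat_lit 0, nat_lit 0, nat_lit 0, [], [nat_lit 57, nat_lit 40, nat_lit 40, nat_lit 80, nat_lit 7, nat_lit 249, nat_lit 40, nat_lit 6]⟩, ⟨p107_k11, nat_lit 0, nat_lit 0, nat_lit 426, nat_lit 0, nat_lit 101244, [nat_lit 6250000000, nat_lit 11872000000, nat_lit 16400000000], [], [nat_lit 45944220842, nat_lit 46310350346, nat_lit 47574561503, nat_lit 47838834673, nat_lit 35307101479, nat_lit 34941013797, nat_lit 36149634767, nat_lit 36020497079], nat_lit 1271250, nat_lit 1271250, nat_lit 1271250, nat_lit 1271250, nat_lit 21650, nat_lit 2378850, [nat_lit 1412500, nat_lit 1271250, nat_lit 1271250],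 [nat_lit 104, nat_lit 40, nat_lit 40, nat_lit 80, nat_lit 76, nat_lit 483, nat_lit 250, nat_lit 10]⟩,
 zbF0, [⟨nat_lit 13, nat_lit 49, nat_lit 83, nat_lit 100, nat_lit 256807336⟩, ⟨nat_lit 22, nat_lit 82, nat_lit 76, nat_lit 100, nat_lit 15648345⟩]⟩
noncomputable def p107_l14 : Lf2 := ⟨nat_lit 1, nat_lit 30, [nat_lit 15, nat_lit 5, nat_lit 5, nat_lit 20], false, nat_lit 80, nat_lit 160, nat_lit 0, nat_lit 384, zbN0,
 nat_lit 0, nat_lit 0, nat_lit 0, nat_lit 0, nat_lit 0, nat_lit 0, nat_lit 0, nat_lit 0, nat_lit 0, nat_lit 0, nat_lit 0, nat_lit 0, nat_lit 0, nat_lit 0, nat_lit 0, nat_lit 0, nat_lit 0, nat_lit 0, [],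
 C1.Rw.none, C1.Rw.none,
 zbF0, []⟩
noncomputable def b_V_900_500_20_17 : St := ⟨true, nat_lit 0, nat_lit 1, nat_lit 1, nat_lit 120, nat_lit 360, nat_lit 380, nat_lit 200, nat_lit 240, nat_lit 240, nat_lit 352, nat_lit 100, nat_lit 120, nat_lit 80, nat_lit 160, nat_lit 0, nat_lit 384, nat_lit 80, nat_lit 120, nat_lit 0, nat_lit 0, nat_lit 0, nat_lit 0⟩
theorem d_V_900_500_20_17 (h : EB TB.env) : Dead b_V_900_500_20_17 := chkB_sound0 h (T :=
(.spl (nat_lit 6) (nat_lit 108)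
(.spl (nat_lit 2) (nat_lit 320)
(.spl (nat_lit 2) (nat_lit 280)
(.leaf p107_l0)
(.trX (nat_lit 22) (nat_lit 94) (nat_lit 59) (nat_lit 100) (nat_lit 364) (.spl (nat_lit 0) (nat_lit 370)
(.leaf p107_l1)
(.spl (nat_lit 0) (nat_lit 375)
(.spl (nat_lit 6) (nat_lit 100)
(.spl (nat_lit 0) (nat_lit 373)
(.leaf p107_l2)
(.leaf p107_l3))
(.leaf p107_l4))
(.spl (nat_lit 0) (nat_lit 378)
(.spl (nat_lit 4) (nat_lit 120)
(.trX (nat_lit 22) (nat_lit 100) (nat_lit 80) (nat_lit 100) (nat_lit 336) (.spl (nat_lit 0) (nat_lit 377)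
(.leaf p107_l5)
(.leaf p107_l6)))
(.leaf p107_l7))
(.spl (nat_lit 1) (nat_lit 220)
(.trX (nat_lit 13) (nat_lit 46) (nat_lit 84) (nat_lit 100) (nat_lit 312) (.leaf p107_l8))
(.leaf p107_l9)))))))
(.trX (nat_lit 22) (nat_lit 82) (nat_lit 76) (nat_lit 100) (nat_lit 336) (.spl (nat_lit 0) (nat_lit 370)
(.leaf p107_l10)
(.trX (nat_lit 13) (nat_lit 54) (nat_lit 74) (nat_lit 100) (nat_lit 340) (.spl (nat_lit 4) (nat_lit 120)
(.trX (nat_lit 22) (nat_lit 87) (nat_lit 95) (nat_lit 100) (nat_lit 300) (.leaf p107_l11))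
(.trZ (nat_lit 9) (nat_lit 100) (nat_lit 87) (nat_lit 25) (nat_lit 4) (.spl (nat_lit 6) (nat_lit 100)
(.leaf p107_l12)
(.leaf p107_l13))))))))
(.leaf p107_l14))) (by decide +kernel)
noncomputable def p107_l15 : Lf2 := ⟨nat_lit 0, nat_lit 30, [nat_lit 15, nat_lit 5, nat_lit 5, nat_lit 20], true, nat_lit 80, nat_lit 160, nat_lit 0, nat_lit 384, ⟨nat_lit 0, nat_lit 348, nat_lit 652, nat_lit 6, nat_lit 243, nat_lit 1000, nat_lit 105, nat_lit 652, nat_lit 104017, nat_lit 294, nat_lit 47906, nat_lit 200, nat_lit 44973651, nat_lit 17348332, nat_lit 4678017, nat_lit 4263384, true, true⟩,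
 nat_lit 0, nat_lit 0, nat_lit 0, nat_lit 6181, nat_lit 2494, nat_lit 0, nat_lit 0, nat_lit 0, nat_lit 0, nat_lit 0, nat_lit 0, nat_lit 0, nat_lit 0, nat_lit 0, nat_lit 59, nat_lit 250000, nat_lit 0, nat_lit 0, [(nat_lit 29, [(nat_lit 0, nat_lit 348), (nat_lit 4, nat_lit 652)])],
 ⟨p107_k12, nat_lit 0, nat_lit 0, nat_lit 124, nat_lit 0, nat_lit 0, [nat_lit 1004560001, nat_lit 311174401, nat_lit 125265600], [], [nat_lit 22548713533, nat_lit 23077271255, nat_lit 23781740197, nat_lit 24324684708, nat_lit 23249625429, nat_lit 23733585443, nat_lit 24388525189, nat_lit 24892412317], nat_lit 0, nat_lit 0, nat_lit 0, nat_lit 0, nat_lit 0, nat_lit 0, [], [nat_lit 57, nat_lit 40, nat_lit 40, nat_lit 80, nat_lit 7, nat_lit 249, nat_lit 40, nat_lit 7]⟩, C1.Rw.none,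
 ⟨nat_lit 1581, nat_lit 2237, ⟨.ofNat (nat_lit 557014), .ofNat (nat_lit 614030), .ofNat (nat_lit 602558), .ofNat (nat_lit 659578), .ofNat (nat_lit 554634), .ofNat (nat_lit 609270), .ofNat (nat_lit 601260), .ofNat (nat_lit 655900)⟩, ⟨.ofNat (nat_lit 192306), .ofNat (nat_lit 306337), .ofNat (nat_lit 200000), .ofNat (nat_lit 351886), .ofNat (nat_lit 196201), .ofNat (nat_lit 305473), .ofNat (nat_lit 200000), .ofNat (nat_lit 352103)⟩⟩, []⟩
noncomputable def p107_l16 : Lf2 := ⟨nat_lit 0, nat_lit 30, [nat_lit 15, nat_lit 5, nat_lit 5, nat_lit 20], true, nat_lit 80, nat_lit 160, nat_lit 0, nat_lit 384, ⟨nat_lit 0, nat_lit 639, nat_lit 361, nat_lit 6, nat_lit 241, nat_lit 1000, nat_lit 105, nat_lit 361, nat_lit 104017, nat_lit 294, nat_lit 40548, nat_lit 200, nat_lit 45130130, nat_lit 17185636, nat_lit 4684234, nat_lit 4252409, true, true⟩,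
 nat_lit 0, nat_lit 0, nat_lit 0, nat_lit 3325, nat_lit 2714, nat_lit 0, nat_lit 0, nat_lit 0, nat_lit 0, nat_lit 0, nat_lit 0, nat_lit 0, nat_lit 0, nat_lit 0, nat_lit 0, nat_lit 250000, nat_lit 0, nat_lit 0, [(nat_lit 29, [(nat_lit 0, nat_lit 639), (nat_lit 4, nat_lit 361)])],
 ⟨p107_k13, nat_lit 0, nat_lit 0, nat_lit 106, nat_lit 0, nat_lit 0, [nat_lit 774380001, nat_lit 194967600], [], [nat_lit 23509023908, nat_lit 24079264242, nat_lit 24788617080, nat_lit 25320238272, nat_lit 24200310086, nat_lit 24720606042, nat_lit 25378679778, nat_lit 25863771914], nat_lit 0, nat_lit 0, nat_lit 0, nat_lit 0, nat_lit 0, nat_lit 0, [], [nat_lit 88, nat_lit 40, nat_lit 40, nat_lit 80, nat_lit 89, nat_lit 249, nat_lit 40, nat_lit 8]⟩, C1.Rw.none,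
 ⟨nat_lit 0, nat_lit 1582, ⟨.ofNat (nat_lit 554633), .ofNat (nat_lit 609267), .ofNat (nat_lit 601257), .ofNat (nat_lit 655899), .ofNat (nat_lit 549998), .ofNat (nat_lit 599996), .ofNat (nat_lit 599992), .ofNat (nat_lit 649998)⟩, ⟨.ofNat (nat_lit 196201), .ofNat (nat_lit 305469), .ofNat (nat_lit 200000), .ofNat (nat_lit 352101), .ofNat (nat_lit 199999), .ofNat (nat_lit 299995), .ofNat (nat_lit 200000), .ofNat (nat_lit 349997)⟩⟩, [⟨nat_lit 13, nat_lit 22, nat_lit 95, nat_lit 100, nat_lit 146465605⟩, ⟨nat_lit 3, nat_lit 100, nat_lit 26, nat_lit 85, nat_lit 81757436⟩]⟩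
noncomputable def p107_l17 : Lf2 := ⟨nat_lit 0, nat_lit 25, [nat_lit 44, nat_lit 5, nat_lit 5, nat_lit 20], true, nat_lit 80, nat_lit 160, nat_lit 0, nat_lit 364, ⟨nat_lit 0, nat_lit 1000, nat_lit 0, nat_lit 7, nat_lit 264, nat_lit 1000, nat_lit 103, nat_lit 0, nat_lit 0, nat_lit 0, nat_lit 0, nat_lit 0, nat_lit 43115785, nat_lit 19479740, nat_lit 4404475, nat_lit 4353647, true, true⟩,
 nat_lit 0, nat_lit 0, nat_lit 0, nat_lit 3968, nat_lit 3066, nat_lit 0, nat_lit 0, nat_lit 0, nat_lit 0, nat_lit 0, nat_lit 0, nat_lit 0, nat_lit 0, nat_lit 0, nat_lit 0, nat_lit 325000, nat_lit 0, nat_lit 0, [(nat_lit 29, [(nat_lit 0, nat_lit 500), (nat_lit 1, nat_lit 500)])],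
 ⟨p107_k14, nat_lit 0, nat_lit 0, nat_lit 112, nat_lit 0, nat_lit 0, [nat_lit 740000001, nat_lit 940200000], [], [nat_lit 24949672616, nat_lit 26114500704, nat_lit 26698120123, nat_lit 27827299228, nat_lit 25377169952, nat_lit 26439516224, nat_lit 26981101527, nat_lit 27951913854], nat_lit 0, nat_lit 0, nat_lit 0, nat_lit 0, nat_lit 0, nat_lit 0, [], [nat_lit 88, nat_lit 40, nat_lit 40, nat_lit 80, nat_lit 89, nat_lit 249, nat_lit 40, nat_lit 8]⟩, C1.Rw.none,
 ⟨nat_lit 0, nat_lit 2237, ⟨.ofNat (nat_lit 614026), .ofNat (nat_lit 676741), .ofNat (nat_lit 659577), .ofNat (nat_lit 722292), .ofNat (nat_lit 599995), .ofNat (nat_lit 654993), .ofNat (nat_lit 649998), .ofNat (nat_lit 704996)⟩, ⟨.ofNat (nat_lit 192306), .ofNat (nat_lit 306334), .ofNat (nat_lit 200000), .ofNat (nat_lit 329109), .ofNat (nat_lit 199999), .ofNat (nat_lit 299996), .ofNat (nat_lit 200000), .ofNat (nat_lit 324996)⟩⟩, [⟨nat_lit 13, nat_lit 44, nat_lit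 81, nat_lit 100, nat_lit 414313962⟩]⟩
noncomputable def p107_l18 : Lf2 := ⟨nat_lit 0, nat_lit 30, [nat_lit 15, nat_lit 5, nat_lit 5, nat_lit 20], true, nat_lit 80, nat_lit 160, nat_lit 0, nat_lit 364, ⟨nat_lit 0, nat_lit 491, nat_lit 509, nat_lit 7, nat_lit 258, nat_lit 1000, nat_lit 108, nat_lit 509, nat_lit 109350, nat_lit 296, nat_lit 82180, nat_lit 200, nat_lit 43438721, nat_lit 18773409, nat_lit 4787870, nat_lit 4384924, true, true⟩,
 nat_lit 0, nat_lit 0, nat_lit 0, nat_lit 8402, nat_lit 2326, nat_lit 0, nat_lit 0, nat_lit 0, nat_lit 0, nat_lit 0, nat_lit 0, nat_lit 0, nat_lit 0, nat_lit 0, nat_lit 62, nat_lit 310300, nat_lit 0, nat_lit 0, [(nat_lit 29, [(nat_lit 0, nat_lit 89), (nat_lit 1, nat_lit 402), (nat_lit 4, nat_lit 509)])],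
 ⟨p107_k12, nat_lit 0, nat_lit 0, nat_lit 127, nat_lit 0, nat_lit 0, [nat_lit 985973600, nat_lit 293673600, nat_lit 133455600], [], [nat_lit 23770716484, nat_lit 24010957097, nat_lit 24723084973, nat_lit 24962354951, nat_lit 24438961252, nat_lit 24659804419, nat_lit 25418594434, nat_lit 25676844451], nat_lit 0, nat_lit 0, nat_lit 0, nat_lit 0, nat_lit 0, nat_lit 0, [], [nat_lit 57, nat_lit 40, nat_lit 40, nat_lit 80, nat_lit 7, nat_lit 249, nat_lit 40, nat_lit 7]⟩, C1.Rw.none,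
 ⟨nat_lit 1936, nat_lit 2237, ⟨.ofNat (nat_lit 614030), .ofNat (nat_lit 653941), .ofNat (nat_lit 636804), .ofNat (nat_lit 676715), .ofNat (nat_lit 611777), .ofNat (nat_lit 650899), .ofNat (nat_lit 634788), .ofNat (nat_lit 673910)⟩, ⟨.ofNat (nat_lit 200000), .ofNat (nat_lit 329112), .ofNat (nat_lit 200000), .ofNat (nat_lit 351886), .ofNat (nat_lit 200000), .ofNat (nat_lit 329055), .ofNat (nat_lit 200000), .ofNat (nat_lit 352066)⟩⟩, [⟨nat_lit 13, nat_lit 41, nat_lit 89, nat_lit 100, nat_lit 490641697⟩]⟩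
noncomputable def p107_l19 : Lf2 := ⟨nat_lit 0, nat_lit 25, [nat_lit 44, nat_lit 5, nat_lit 5, nat_lit 20], true, nat_lit 80, nat_lit 160, nat_lit 0, nat_lit 364, ⟨nat_lit 0, nat_lit 1000, nat_lit 0, nat_lit 7, nat_lit 271, nat_lit 1000, nat_lit 108, nat_lit 0, nat_lit 0, nat_lit 0, nat_lit 0, nat_lit 0, nat_lit 42190568, nat_lit 20100222, nat_lit 4709210, nat_lit 4451518, true, true⟩,
 nat_lit 0, nat_lit 0, nat_lit 0, nat_lit 7972, nat_lit 2448, nat_lit 0, nat_lit 13, nat_lit 0, nat_lit 0, nat_lit 0, nat_lit 0, nat_lit 0, nat_lit 0, nat_lit 0, nat_lit 0, nat_lit 400000, nat_lit 0, nat_lit 0, [(nat_lit 29, [(nat_lit 1, nat_lit 1000)])],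
 ⟨p107_k15, nat_lit 0, nat_lit 0, nat_lit 111, nat_lit 0, nat_lit 0, [nat_lit 698400000, nat_lit 332000000, nat_lit 94000000], [], [nat_lit 23999751305, nat_lit 24260014153, nat_lit 25621591854, nat_lit 25860312592, nat_lit 24693843833, nat_lit 24932370157, nat_lit 26190116290, nat_lit 26409643366], nat_lit 0, nat_lit 0, nat_lit 0, nat_lit 0, nat_lit 0, nat_lit 0, [], [nat_lit 20, nat_lit 40, nat_lit 40, nat_lit 80, nat_lit 16, nat_lit 249, nat_lit 40, nat_lit 8]⟩, C1.Rw.none,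
 ⟨nat_lit 1936, nat_lit 2237, ⟨.ofNat (nat_lit 636804), .ofNat (nat_lit 699521), .ofNat (nat_lit 659578), .ofNat (nat_lit 722295), .ofNat (nat_lit 634788), .ofNat (nat_lit 696266), .ofNat (nat_lit 657798), .ofNat (nat_lit 719277)⟩, ⟨.ofNat (nat_lit 200000), .ofNat (nat_lit 329112), .ofNat (nat_lit 200000), .ofNat (nat_lit 351886), .ofNat (nat_lit 200000), .ofNat (nat_lit 329055), .ofNat (nat_lit 200000), .ofNat (nat_lit 352066)⟩⟩, [⟨nat_lit 13, nat_lit 41, nat_lit 85, nat_lit 100, nat_lit 441021738⟩]⟩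
noncomputable def p107_l20 : Lf2 := ⟨nat_lit 0, nat_lit 30, [nat_lit 15, nat_lit 5, nat_lit 5, nat_lit 20], false, nat_lit 80, nat_lit 120, nat_lit 0, nat_lit 336, ⟨nat_lit 259, nat_lit 741, nat_lit 0, nat_lit 7, nat_lit 271, nat_lit 741, nat_lit 97, nat_lit 0, nat_lit 0, nat_lit 0, nat_lit 0, nat_lit 0, nat_lit 42728509, nat_lit 20262836, nat_lit 4008655, nat_lit 4318518, true, true⟩,
 nat_lit 0, nat_lit 0, nat_lit 6119, nat_lit 0, nat_lit 2643, nat_lit 2926, nat_lit 289, nat_lit 0, nat_lit 0, nat_lit 163, nat_lit 0, nat_lit 0, nat_lit 0, nat_lit 0, nat_lit 0, nat_lit 185250, nat_lit 0, nat_lit 0, [(nat_lit 29, [(nat_lit 0, nat_lit 741)])],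
 ⟨p107_k12, nat_lit 0, nat_lit 0, nat_lit 131, nat_lit 0, nat_lit 0, [nat_lit 822107601, nat_lit 2365113201, nat_lit 3655234400], [], [nat_lit 24356056713, nat_lit 24607812510, nat_lit 25908752734, nat_lit 26174404199, nat_lit 24632194725, nat_lit 24873479745, nat_lit 26126364186, nat_lit 26364447128], nat_lit 0, nat_lit 0, nat_lit 0, nat_lit 0, nat_lit 0, nat_lit 0, [], [nat_lit 57, nat_lit 40, nat_lit 40, nat_lit 80, nat_lit 7, nat_lit 238, nat_lit 30, nat_lit 6]⟩, ⟨p107_k8, nat_lit 0, nat_lit 0, nat_lit 477, nat_lit 0, nat_lit 229812, [nat_lit 1618750000, nat_lit 3074848000, nat_lit 4247600000], [], [nat_lit 11079839848, nat_lit 11078462178, nat_lit 11486642190, nat_lit 11544175738, nat_lit 8725279390, nat_lit 8694945509, nat_lit 8948007904, nat_lit 8901916051], nat_lit 1271250, nat_lit 1271250, nat_lit 1271250, nat_lit 1271250, nat_lit 0, nat_lit 2373000, [nat_lit 1412500, nat_lit 1271250, nat_lit 1271250], [nat_lit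 104, nat_lit 40, nat_lit 40, nat_lit 80, nat_lit 76, nat_lit 456, nat_lit 225, nat_lit 9]⟩,
 ⟨nat_lit 1936, nat_lit 2237, ⟨.ofNat (nat_lit 636804), .ofNat (nat_lit 699521), .ofNat (nat_lit 659578), .ofNat (nat_lit 722295), .ofNat (nat_lit 634788), .ofNat (nat_lit 696266), .ofNat (nat_lit 657798), .ofNat (nat_lit 719277)⟩, ⟨.ofNat (nat_lit 200000), .ofNat (nat_lit 272096), .ofNat (nat_lit 200000), .ofNat (nat_lit 294870), .ofNat (nat_lit 200000), .ofNat (nat_lit 273166), .ofNat (nat_lit 200000), .ofNat (nat_lit 296177)⟩⟩, [⟨nat_lit 13, nat_lit 41, nat_lit 85, nat_lit 100, nat_lit 164920088⟩, ⟨nat_lit 22, nat_lit 99, nat_lit 100, nat_lit 99, nat_lit 9862725⟩]⟩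
noncomputable def p107_l21 : Lf2 := ⟨nat_lit 0, nat_lit 30, [nat_lit 15, nat_lit 5, nat_lit 5, nat_lit 20], true, nat_lit 120, nat_lit 140, nat_lit 0, nat_lit 352, ⟨nat_lit 0, nat_lit 1000, nat_lit 0, nat_lit 7, nat_lit 265, nat_lit 1000, nat_lit 119, nat_lit 0, nat_lit 0, nat_lit 0, nat_lit 0, nat_lit 0, nat_lit 42240114, nat_lit 19281589, nat_lit 5478297, nat_lit 4546952, true, true⟩,
 nat_lit 0, nat_lit 0, nat_lit 0, nat_lit 7294, nat_lit 3322, nat_lit 0, nat_lit 0, nat_lit 0, nat_lit 0, nat_lit 0, nat_lit 0, nat_lit 0, nat_lit 0, nat_lit 0, nat_lit 0, nat_lit 250000, nat_lit 0, nat_lit 0, [(nat_lit 29, [(nat_lit 0, nat_lit 1000)])],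
 ⟨p107_k12, nat_lit 0, nat_lit 0, nat_lit 79, nat_lit 0, nat_lit 0, [nat_lit 781600001, nat_lit 1553200001, nat_lit 2175066667], [], [nat_lit 25036717275, nat_lit 25342687123, nat_lit 25856308470, nat_lit 26182249705, nat_lit 25134023848, nat_lit 25432715291, nat_lit 25935337304, nat_lit 26221724251], nat_lit 0, nat_lit 0, nat_lit 0, nat_lit 0, nat_lit 0, nat_lit 0, [], [nat_lit 57, nat_lit 40, nat_lit 40, nat_lit 80, nat_lit 7, nat_lit 249, nat_lit 40, nat_lit 7]⟩, C1.Rw.none,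
 ⟨nat_lit 1936, nat_lit 2237, ⟨.ofNat (nat_lit 636804), .ofNat (nat_lit 665312), .ofNat (nat_lit 659578), .ofNat (nat_lit 688086), .ofNat (nat_lit 634788), .ofNat (nat_lit 662732), .ofNat (nat_lit 657798), .ofNat (nat_lit 685743)⟩, ⟨.ofNat (nat_lit 272096), .ofNat (nat_lit 300604), .ofNat (nat_lit 294870), .ofNat (nat_lit 323378), .ofNat (nat_lit 273166), .ofNat (nat_lit 301111), .ofNat (nat_lit 296177), .ofNat (nat_lit 324121)⟩⟩, []⟩
noncomputable def p107_l22 : Lf2 := ⟨nat_lit 0, nat_lit 30, [nat_lit 15, nat_lit 5, nat_lit 5, nat_lit 20], false, nat_lit 120, nat_lit 140, nat_lit 0, nat_lit 336, ⟨nat_lit 234, nat_lit 766, nat_lit 0, nat_lit 7, nat_lit 277, nat_lit 766, nat_lit 119, nat_lit 0, nat_lit 0, nat_lit 0, nat_lit 0, nat_lit 0, nat_lit 41141939, nat_lit 20465870, nat_lit 5392191, nat_lit 4600404, true, true⟩,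
 nat_lit 0, nat_lit 0, nat_lit 5618, nat_lit 0, nat_lit 2788, nat_lit 2686, nat_lit 263, nat_lit 0, nat_lit 0, nat_lit 149, nat_lit 0, nat_lit 0, nat_lit 0, nat_lit 0, nat_lit 0, nat_lit 191500, nat_lit 0, nat_lit 0, [(nat_lit 29, [(nat_lit 0, nat_lit 766)])],
 ⟨p107_k12, nat_lit 0, nat_lit 0, nat_lit 103, nat_lit 0, nat_lit 0, [nat_lit 818197600, nat_lit 2286743201, nat_lit 3512361067], [], [nat_lit 25465231109, nat_lit 25706808115, nat_lit 26307026083, nat_lit 26560430650, nat_lit 25569823890, nat_lit 25801671792, nat_lit 26389688025, nat_lit 26636293725], nat_lit 0, nat_lit 0, nat_lit 0, nat_lit 0, nat_lit 0, nat_lit 0, [], [nat_lit 57, nat_lit 40, nat_lit 40, nat_lit 80, nat_lit 7, nat_lit 249, nat_lit 40, nat_lit 6]⟩, ⟨p107_k8, nat_lit 0, nat_lit 0, nat_lit 475, nat_lit 0, nat_lit 229812, [nat_lit 1462500000, nat_lit 2778048000, nat_lit 3837600000], [], [nat_lit 10106667440, nat_lit 10103718323, nat_lit 10398057255,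 nat_lit 10449111250, nat_lit 7882491894, nat_lit 7845698475, nat_lit 8033254443, nat_lit 8008389093], nat_lit 1271250, nat_lit 1271250, nat_lit 1271250, nat_lit 1271250, nat_lit 0, nat_lit 2373000, [nat_lit 1412500, nat_lit 1271250, nat_lit 1271250], [nat_lit 104, nat_lit 40, nat_lit 40, nat_lit 80, nat_lit 76, nat_lit 456, nat_lit 225, nat_lit 9]⟩,
 ⟨nat_lit 1936, nat_lit 2237, ⟨.ofNat (nat_lit 665312), .ofNat (nat_lit 699521), .ofNat (nat_lit 688086), .ofNat (nat_lit 722295), .ofNat (nat_lit 662732), .ofNat (nat_lit 696266), .ofNat (nat_lit 685743), .ofNat (nat_lit 719277)⟩, ⟨.ofNat (nat_lit 272096), .ofNat (nat_lit 300604), .ofNat (nat_lit 294870), .ofNat (nat_lit 323378), .ofNat (nat_lit 273166), .ofNat (nat_lit 301111), .ofNat (nat_lit 296177), .ofNat (nat_lit 324121)⟩⟩, [⟨nat_lit 13, nat_lit 41, nat_lit 85, nat_lit 100, nat_lit 234272539⟩, ⟨nat_lit 22, nat_lit 88, nat_lit 87, nat_lit 100, nat_lit 9050479⟩]⟩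
noncomputable def p107_l23 : Lf2 := ⟨nat_lit 0, nat_lit 30, [nat_lit 15, nat_lit 5, nat_lit 5, nat_lit 20], true, nat_lit 140, nat_lit 160, nat_lit 0, nat_lit 364, ⟨nat_lit 0, nat_lit 1000, nat_lit 0, nat_lit 7, nat_lit 271, nat_lit 1000, nat_lit 131, nat_lit 0, nat_lit 0, nat_lit 0, nat_lit 0, nat_lit 0, nat_lit 41065914, nat_lit 19745209, nat_lit 6188877, nat_lit 4698146, true, true⟩,
 nat_lit 0, nat_lit 0, nat_lit 0, nat_lit 7294, nat_lit 3248, nat_lit 0, nat_lit 0, nat_lit 0, nat_lit 0, nat_lit 0, nat_lit 0, nat_lit 0, nat_lit 0, nat_lit 0, nat_lit 0, nat_lit 250000, nat_lit 0, nat_lit 0, [(nat_lit 29, [(nat_lit 0, nat_lit 1000)])],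
 ⟨p107_k12, nat_lit 0, nat_lit 0, nat_lit 79, nat_lit 0, nat_lit 0, [nat_lit 781600001, nat_lit 1553200001, nat_lit 2175066667], [], [nat_lit 25151209349, nat_lit 25446874848, nat_lit 26918133689, nat_lit 27220915401, nat_lit 25255261281, nat_lit 25543758089, nat_lit 26982215880, nat_lit 27244972633], nat_lit 0, nat_lit 0, nat_lit 0, nat_lit 0, nat_lit 0, nat_lit 0, [], [nat_lit 57, nat_lit 40, nat_lit 40, nat_lit 80, nat_lit 7, nat_lit 249, nat_lit 40, nat_lit 6]⟩, C1.Rw.none,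
 ⟨nat_lit 1936, nat_lit 2237, ⟨.ofNat (nat_lit 636804), .ofNat (nat_lit 699521), .ofNat (nat_lit 659578), .ofNat (nat_lit 722295), .ofNat (nat_lit 634788), .ofNat (nat_lit 696266), .ofNat (nat_lit 657798), .ofNat (nat_lit 719277)⟩, ⟨.ofNat (nat_lit 300604), .ofNat (nat_lit 329112), .ofNat (nat_lit 323378), .ofNat (nat_lit 351886), .ofNat (nat_lit 301111), .ofNat (nat_lit 329055), .ofNat (nat_lit 324121), .ofNat (nat_lit 352066)⟩⟩, [⟨nat_lit 13, nat_lit 41, nat_lit 85, nat_lit 100, nat_lit 474272106⟩]⟩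
noncomputable def p107_l24 : Lf2 := ⟨nat_lit 0, nat_lit 30, [nat_lit 15, nat_lit 5, nat_lit 5, nat_lit 20], true, nat_lit 80, nat_lit 160, nat_lit 0, nat_lit 364, ⟨nat_lit 0, nat_lit 508, nat_lit 492, nat_lit 7, nat_lit 259, nat_lit 1000, nat_lit 108, nat_lit 492, nat_lit 109350, nat_lit 296, nat_lit 100236, nat_lit 200, nat_lit 43314410, nat_lit 18905644, nat_lit 4779946, nat_lit 4392007, true, true⟩,
 nat_lit 0, nat_lit 0, nat_lit 0, nat_lit 7144, nat_lit 2374, nat_lit 0, nat_lit 0, nat_lit 0, nat_lit 0, nat_lit 0, nat_lit 0, nat_lit 0, nat_lit 0, nat_lit 0, nat_lit 20, nat_lit 250000, nat_lit 0, nat_lit 0, [(nat_lit 29, [(nat_lit 0, nat_lit 508), (nat_lit 4, nat_lit 492)])],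
 ⟨p107_k16, nat_lit 0, nat_lit 0, nat_lit 109, nat_lit 0, nat_lit 0, [nat_lit 851760000, nat_lit 144041601, nat_lit 17467200], [], [nat_lit 24036708489, nat_lit 24293984438, nat_lit 24753221978, nat_lit 25000897681, nat_lit 24735576066, nat_lit 24971511428, nat_lit 25451701815, nat_lit 25716135022], nat_lit 0, nat_lit 0, nat_lit 0, nat_lit 0, nat_lit 0, nat_lit 0, [], [nat_lit 55, nat_lit 40, nat_lit 40, nat_lit 80, nat_lit 3, nat_lit 249, nat_lit 40, nat_lit 8]⟩, C1.Rw.none,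
 ⟨nat_lit 1581, nat_lit 1937, ⟨.ofNat (nat_lit 611777), .ofNat (nat_lit 639721), .ofNat (nat_lit 657798), .ofNat (nat_lit 685743), .ofNat (nat_lit 609270), .ofNat (nat_lit 636588), .ofNat (nat_lit 655900), .ofNat (nat_lit 683218)⟩, ⟨.ofNat (nat_lit 200000), .ofNat (nat_lit 329055), .ofNat (nat_lit 200000), .ofNat (nat_lit 352066), .ofNat (nat_lit 200000), .ofNat (nat_lit 328788), .ofNat (nat_lit 200000), .ofNat (nat_lit 352103)⟩⟩, [⟨nat_lit 13, nat_lit 35, nat_lit 90, nat_lit 100, nat_lit 413221502⟩]⟩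
noncomputable def p107_l25 : Lf2 := ⟨nat_lit 0, nat_lit 30, [nat_lit 15, nat_lit 5, nat_lit 5, nat_lit 20], true, nat_lit 80, nat_lit 160, nat_lit 0, nat_lit 352, ⟨nat_lit 0, nat_lit 968, nat_lit 32, nat_lit 7, nat_lit 268, nat_lit 1000, nat_lit 108, nat_lit 32, nat_lit 109350, nat_lit 296, nat_lit 133770, nat_lit 200, nat_lit 42506444, nat_lit 19764233, nat_lit 4729323, nat_lit 4435657, true, true⟩,
 nat_lit 0, nat_lit 0, nat_lit 0, nat_lit 9073, nat_lit 2623, nat_lit 0, nat_lit 119, nat_lit 0, nat_lit 0, nat_lit 0, nat_lit 0, nat_lit 0, nat_lit 0, nat_lit 0, nat_lit 0, nat_lit 250000, nat_lit 0, nat_lit 0, [(nat_lit 29, [(nat_lit 0, nat_lit 968), (nat_lit 4, nat_lit 32)])],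
 ⟨p107_k16, nat_lit 0, nat_lit 0, nat_lit 112, nat_lit 0, nat_lit 0, [nat_lit 780960001, nat_lit 1275433600, nat_lit 1645331200], [], [nat_lit 25217779225, nat_lit 25474858476, nat_lit 25658151705, nat_lit 25909082630, nat_lit 25769766207, nat_lit 26005386764, nat_lit 26175535047, nat_lit 26405735778], nat_lit 0, nat_lit 0, nat_lit 0, nat_lit 0, nat_lit 0, nat_lit 0, [], [nat_lit 55, nat_lit 40, nat_lit 40, nat_lit 80, nat_lit 3, nat_lit 249, nat_lit 40, nat_lit 8]⟩, C1.Rw.none,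
 ⟨nat_lit 1581, nat_lit 1937, ⟨.ofNat (nat_lit 639721), .ofNat (nat_lit 656488), .ofNat (nat_lit 685743), .ofNat (nat_lit 702510), .ofNat (nat_lit 636588), .ofNat (nat_lit 652979), .ofNat (nat_lit 683218), .ofNat (nat_lit 699609)⟩, ⟨.ofNat (nat_lit 200000), .ofNat (nat_lit 329055), .ofNat (nat_lit 200000), .ofNat (nat_lit 352066), .ofNat (nat_lit 200000), .ofNat (nat_lit 328788), .ofNat (nat_lit 200000), .ofNat (nat_lit 352103)⟩⟩, [⟨nat_lit 13, nat_lit 35, nat_lit 90, nat_lit 100, nat_lit 550687713⟩]⟩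
noncomputable def p107_l26 : Lf2 := ⟨nat_lit 0, nat_lit 30, [nat_lit 15, nat_lit 5, nat_lit 5, nat_lit 20], true, nat_lit 80, nat_lit 160, nat_lit 0, nat_lit 364, ⟨nat_lit 0, nat_lit 695, nat_lit 305, nat_lit 7, nat_lit 257, nat_lit 1000, nat_lit 108, nat_lit 305, nat_lit 109350, nat_lit 296, nat_lit 95182, nat_lit 200, nat_lit 43537060, nat_lit 18690274, nat_lit 4772666, nat_lit 4376472, true, true⟩,
 nat_lit 0, nat_lit 0, nat_lit 0, nat_lit 7857, nat_lit 2492, nat_lit 0, nat_lit 44, nat_lit 0, nat_lit 0, nat_lit 0, nat_lit 0, nat_lit 0, nat_lit 0, nat_lit 0, nat_lit 0, nat_lit 250000, nat_lit 0, nat_lit 0, [(nat_lit 29, [(nat_lit 0, nat_lit 695), (nat_lit 4, nat_lit 305)])],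
 ⟨p107_k17, nat_lit 0, nat_lit 0, nat_lit 115, nat_lit 0, nat_lit 0, [nat_lit 775500001, nat_lit 414064001, nat_lit 441838000], [], [nat_lit 24467669405, nat_lit 24991747089, nat_lit 25182541099, nat_lit 25804988744, nat_lit 25105513332, nat_lit 25653402964, nat_lit 25856188502, nat_lit 26383171460], nat_lit 0, nat_lit 0, nat_lit 0, nat_lit 0, nat_lit 0, nat_lit 0, [], [nat_lit 55, nat_lit 40, nat_lit 40, nat_lit 80, nat_lit 3, nat_lit 249, nat_lit 40, nat_lit 8]⟩, C1.Rw.none,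
 ⟨nat_lit 0, nat_lit 1582, ⟨.ofNat (nat_lit 609267), .ofNat (nat_lit 636584), .ofNat (nat_lit 655899), .ofNat (nat_lit 683216), .ofNat (nat_lit 599996), .ofNat (nat_lit 624995), .ofNat (nat_lit 649998), .ofNat (nat_lit 674997)⟩, ⟨.ofNat (nat_lit 200000), .ofNat (nat_lit 328785), .ofNat (nat_lit 200000), .ofNat (nat_lit 352101), .ofNat (nat_lit 200000), .ofNat (nat_lit 324996), .ofNat (nat_lit 200000), .ofNat (nat_lit 349997)⟩⟩, [⟨nat_lit 13, nat_lit 32, nat_lit 89, nat_lit 100, nat_lit 639531800⟩]⟩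
noncomputable def b_V_900_500_20_18 : St := ⟨true, nat_lit 0, nat_lit 1, nat_lit 1, nat_lit 120, nat_lit 380, nat_lit 400, nat_lit 200, nat_lit 240, nat_lit 240, nat_lit 352, nat_lit 80, nat_lit 120, nat_lit 80, nat_lit 160, nat_lit 0, nat_lit 384, nat_lit 80, nat_lit 120, nat_lit 0, nat_lit 0, nat_lit 0, nat_lit 0⟩
theorem d_V_900_500_20_18 (h : EB TB.env) : Dead b_V_900_500_20_18 := chkB_sound0 h (T :=
(.trX (nat_lit 13) (nat_lit 44) (nat_lit 81) (nat_lit 100) (nat_lit 324) (.spl (nat_lit 2) (nat_lit 280)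
(.spl (nat_lit 0) (nat_lit 390)
(.leaf p107_l15)
(.leaf p107_l16))
(.trX (nat_lit 22) (nat_lit 94) (nat_lit 59) (nat_lit 100) (nat_lit 364) (.spl (nat_lit 3) (nat_lit 100)
(.leaf p107_l17)
(.spl (nat_lit 0) (nat_lit 390)
(.spl (nat_lit 0) (nat_lit 385)
(.spl (nat_lit 1) (nat_lit 220)
(.trX (nat_lit 13) (nat_lit 44) (nat_lit 86) (nat_lit 100) (nat_lit 308) (.leaf p107_l18))
(.spl (nat_lit 6) (nat_lit 100)
(.leaf p107_l19)
(.spl (nat_lit 4) (nat_lit 120)
(.trX (nat_lit 22) (nat_lit 100) (nat_lit 80) (nat_lit 100) (nat_lit 336) (.leaf p107_l20))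
(.spl (nat_lit 4) (nat_lit 140)
(.trX (nat_lit 22) (nat_lit 96) (nat_lit 69) (nat_lit 100) (nat_lit 352) (.spl (nat_lit 2) (nat_lit 300)
(.leaf p107_l21)
(.trX (nat_lit 22) (nat_lit 91) (nat_lit 77) (nat_lit 100) (nat_lit 336) (.leaf p107_l22))))
(.leaf p107_l23)))))
(.trX (nat_lit 13) (nat_lit 39) (nat_lit 85) (nat_lit 100) (nat_lit 312) (.spl (nat_lit 2) (nat_lit 300)
(.leaf p107_l24)
(.trX (nat_lit 22) (nat_lit 88) (nat_lit 68) (nat_lit 100) (nat_lit 352) (.leaf p107_l25)))))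
(.trX (nat_lit 13) (nat_lit 32) (nat_lit 89) (nat_lit 100) (nat_lit 300) (.leaf p107_l26)))))))) (by decide +kernel)
noncomputable def p107_l27 : Lf2 := ⟨nat_lit 0, nat_lit 30, [nat_lit 15, nat_lit 5, nat_lit 5, nat_lit 20], true, nat_lit 160, nat_lit 248, nat_lit 0, nat_lit 384, ⟨nat_lit 0, nat_lit 1000, nat_lit 0, nat_lit 6, nat_lit 244, nat_lit 1000, nat_lit 157, nat_lit 0, nat_lit 0, nat_lit 0, nat_lit 0, nat_lit 0, nat_lit 41830751, nat_lit 16809284, nat_lit 8359965, nat_lit 4836630, true, true⟩,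
 nat_lit 0, nat_lit 0, nat_lit 0, nat_lit 7376, nat_lit 3567, nat_lit 0, nat_lit 0, nat_lit 0, nat_lit 0, nat_lit 0, nat_lit 0, nat_lit 0, nat_lit 0, nat_lit 0, nat_lit 0, nat_lit 250000, nat_lit 0, nat_lit 0, [(nat_lit 26, [(nat_lit 0, nat_lit 1000)])],
 ⟨p107_k18, nat_lit 0, nat_lit 0, nat_lit 60, nat_lit 0, nat_lit 0, [nat_lit 765600000, nat_lit 1845600000, nat_lit 2928480000], [], [nat_lit 22744160304, nat_lit 24047367502, nat_lit 24240227392, nat_lit 25444499870, nat_lit 24900130015, nat_lit 26027790875, nat_lit 26175545254, nat_lit 27220989130], nat_lit 0, nat_lit 0, nat_lit 0, nat_lit 0, nat_lit 0, nat_lit 0, [], [nat_lit 81, nat_lit 40, nat_lit 40, nat_lit 80, nat_lit 13, nat_lit 373, nat_lit 150, nat_lit 9]⟩, C1.Rw.none,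
 ⟨nat_lit 2236, nat_lit 3163, ⟨.ofNat (nat_lit 560952), .ofNat (nat_lit 621905), .ofNat (nat_lit 605240), .ofNat (nat_lit 666215), .ofNat (nat_lit 557014), .ofNat (nat_lit 614030), .ofNat (nat_lit 602541), .ofNat (nat_lit 659578)⟩, ⟨.ofNat (nat_lit 306116), .ofNat (nat_lit 440213), .ofNat (nat_lit 350426), .ofNat (nat_lit 484523), .ofNat (nat_lit 306337), .ofNat (nat_lit 431772), .ofNat (nat_lit 351886), .ofNat (nat_lit 477320)⟩⟩, [⟨nat_lit 4, nat_lit 100, nat_lit 53, nat_lit 87, nat_lit 252649582⟩]⟩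
noncomputable def p107_l28 : Lf2 := ⟨nat_lit 0, nat_lit 30, [nat_lit 15, nat_lit 5, nat_lit 5, nat_lit 20], true, nat_lit 160, nat_lit 248, nat_lit 4, nat_lit 384, ⟨nat_lit 0, nat_lit 1000, nat_lit 0, nat_lit 7, nat_lit 268, nat_lit 1000, nat_lit 157, nat_lit 0, nat_lit 0, nat_lit 0, nat_lit 0, nat_lit 0, nat_lit 39917025, nat_lit 18966381, nat_lit 8116594, nat_lit 4946357, true, true⟩,
 nat_lit 0, nat_lit 0, nat_lit 0, nat_lit 7376, nat_lit 3420, nat_lit 0, nat_lit 0, nat_lit 0, nat_lit 0, nat_lit 0, nat_lit 0, nat_lit 0, nat_lit 0, nat_lit 0, nat_lit 0, nat_lit 250000, nat_lit 0, nat_lit 0, [(nat_lit 26, [(nat_lit 0, nat_lit 1000)])],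
 ⟨p107_k18, nat_lit 0, nat_lit 0, nat_lit 69, nat_lit 0, nat_lit 0, [nat_lit 765600000, nat_lit 1845600000, nat_lit 2928480000], [], [nat_lit 24310937920, nat_lit 25492038200, nat_lit 25987826320, nat_lit 27071805720, nat_lit 26251920633, nat_lit 27278841244, nat_lit 27699611896, nat_lit 28645431024], nat_lit 0, nat_lit 0, nat_lit 0, nat_lit 0, nat_lit 0, nat_lit 0, [], [nat_lit 81, nat_lit 40, nat_lit 40, nat_lit 80, nat_lit 13, nat_lit 289, nat_lit 75, nat_lit 7]⟩, C1.Rw.none,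
 ⟨nat_lit 2236, nat_lit 3163, ⟨.ofNat (nat_lit 621905), .ofNat (nat_lit 682859), .ofNat (nat_lit 666215), .ofNat (nat_lit 727168), .ofNat (nat_lit 614030), .ofNat (nat_lit 671045), .ofNat (nat_lit 659578), .ofNat (nat_lit 716594)⟩, ⟨.ofNat (nat_lit 306116), .ofNat (nat_lit 440213), .ofNat (nat_lit 350426), .ofNat (nat_lit 484523), .ofNat (nat_lit 306337), .ofNat (nat_lit 431772), .ofNat (nat_lit 351886), .ofNat (nat_lit 477320)⟩⟩, [⟨nat_lit 4, nat_lit 100, nat_lit 53, nat_lit 87, nat_lit 233107249⟩]⟩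
noncomputable def p107_l29 : Lf2 := ⟨nat_lit 0, nat_lit 30, [nat_lit 15, nat_lit 5, nat_lit 5, nat_lit 20], true, nat_lit 160, nat_lit 248, nat_lit 16, nat_lit 384, ⟨nat_lit 0, nat_lit 1000, nat_lit 0, nat_lit 8, nat_lit 289, nat_lit 1000, nat_lit 157, nat_lit 0, nat_lit 0, nat_lit 0, nat_lit 0, nat_lit 0, nat_lit 38228443, nat_lit 20887663, nat_lit 7883894, nat_lit 5017795, true, true⟩,
 nat_lit 0, nat_lit 0, nat_lit 0, nat_lit 7877, nat_lit 3359, nat_lit 0, nat_lit 0, nat_lit 0, nat_lit 0, nat_lit 0, nat_lit 0, nat_lit 0, nat_lit 0, nat_lit 0, nat_lit 0, nat_lit 250000, nat_lit 0, nat_lit 0, [(nat_lit 26, [(nat_lit 0, nat_lit 1000)])],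
 ⟨p107_k18, nat_lit 0, nat_lit 0, nat_lit 78, nat_lit 0, nat_lit 0, [nat_lit 765600000, nat_lit 1845600000, nat_lit 2928480000], [], [nat_lit 26007395364, nat_lit 27083007394, nat_lit 27469847553, nat_lit 28468765460, nat_lit 27724297450, nat_lit 28663462795, nat_lit 28997688367, nat_lit 29958149383], nat_lit 0, nat_lit 0, nat_lit 0, nat_lit 0, nat_lit 0, nat_lit 0, [], [nat_lit 81, nat_lit 40, nat_lit 40, nat_lit 80, nat_lit 13, nat_lit 289, nat_lit 75, nat_lit 7]⟩, C1.Rw.none,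
 ⟨nat_lit 2236, nat_lit 3163, ⟨.ofNat (nat_lit 682859), .ofNat (nat_lit 731621), .ofNat (nat_lit 727168), .ofNat (nat_lit 775931), .ofNat (nat_lit 671045), .ofNat (nat_lit 716658), .ofNat (nat_lit 716594), .ofNat (nat_lit 762206)⟩, ⟨.ofNat (nat_lit 306116), .ofNat (nat_lit 440213), .ofNat (nat_lit 350426), .ofNat (nat_lit 484523), .ofNat (nat_lit 306337), .ofNat (nat_lit 431772), .ofNat (nat_lit 351886), .ofNat (nat_lit 477320)⟩⟩, [⟨nat_lit 13, nat_lit 53, nat_lit 80, nat_lit 100, nat_lit 376986322⟩, ⟨nat_lit 4, nat_lit 100, nat_lit 53, nat_lit 87, nat_lit 211716707⟩]⟩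
noncomputable def p107_l30 : Lf2 := ⟨nat_lit 0, nat_lit 30, [nat_lit 15, nat_lit 5, nat_lit 5, nat_lit 20], true, nat_lit 160, nat_lit 208, nat_lit 0, nat_lit 384, ⟨nat_lit 0, nat_lit 865, nat_lit 135, nat_lit 6, nat_lit 242, nat_lit 1000, nat_lit 144, nat_lit 135, nat_lit 194400, nat_lit 323, nat_lit 47904, nat_lit 200, nat_lit 42879305, nat_lit 16760553, nat_lit 7360142, nat_lit 4687151, true, true⟩,
 nat_lit 0, nat_lit 0, nat_lit 0, nat_lit 6806, nat_lit 2971, nat_lit 0, nat_lit 0, nat_lit 0, nat_lit 0, nat_lit 0, nat_lit 0, nat_lit 0, nat_lit 0, nat_lit 0, nat_lit 0, nat_lit 242575, nat_lit 0, nat_lit 0, [(nat_lit 29, [(nat_lit 0, nat_lit 865), (nat_lit 3, nat_lit 135)])],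
 ⟨p107_k12, nat_lit 0, nat_lit 0, nat_lit 70, nat_lit 0, nat_lit 0, [nat_lit 830740001, nat_lit 1158838001, nat_lit 1522440667], [], [nat_lit 23643627643, nat_lit 24805601101, nat_lit 24950586713, nat_lit 26060800925, nat_lit 24685581551, nat_lit 25770096369, nat_lit 25901445147, nat_lit 26950587065], nat_lit 0, nat_lit 0, nat_lit 0, nat_lit 0, nat_lit 0, nat_lit 0, [], [nat_lit 57, nat_lit 40, nat_lit 40, nat_lit 80, nat_lit 7, nat_lit 272, nat_lit 60, nat_lit 7]⟩, C1.Rw.none,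
 ⟨nat_lit 0, nat_lit 2237, ⟨.ofNat (nat_lit 557013), .ofNat (nat_lit 614026), .ofNat (nat_lit 602531), .ofNat (nat_lit 659577), .ofNat (nat_lit 549998), .ofNat (nat_lit 599995), .ofNat (nat_lit 599967), .ofNat (nat_lit 649998)⟩, ⟨.ofNat (nat_lit 306334), .ofNat (nat_lit 374750), .ofNat (nat_lit 351885), .ofNat (nat_lit 420300), .ofNat (nat_lit 299996), .ofNat (nat_lit 359993), .ofNat (nat_lit 349998), .ofNat (nat_lit 409994)⟩⟩, [⟨nat_lit 4, nat_lit 100, nat_lit 32, nat_lit 88, nat_lit 452896445⟩]⟩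
noncomputable def p107_l31 : Lf2 := ⟨nat_lit 0, nat_lit 30, [nat_lit 15, nat_lit 5, nat_lit 5, nat_lit 20], true, nat_lit 160, nat_lit 208, nat_lit 4, nat_lit 384, ⟨nat_lit 0, nat_lit 1000, nat_lit 0, nat_lit 7, nat_lit 264, nat_lit 1000, nat_lit 144, nat_lit 0, nat_lit 0, nat_lit 0, nat_lit 0, nat_lit 0, nat_lit 40982479, nat_lit 18854480, nat_lit 7163041, nat_lit 4800436, true, true⟩,
 nat_lit 0, nat_lit 0, nat_lit 0, nat_lit 7376, nat_lit 3132, nat_lit 0, nat_lit 0, nat_lit 0, nat_lit 0, nat_lit 0, nat_lit 0, nat_lit 0, nat_lit 0, nat_lit 0, nat_lit 0, nat_lit 250000, nat_lit 0, nat_lit 0, [(nat_lit 29, [(nat_lit 0, nat_lit 1000)])],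
 ⟨p107_k12, nat_lit 0, nat_lit 0, nat_lit 79, nat_lit 0, nat_lit 0, [nat_lit 781600001, nat_lit 1553200001, nat_lit 2175066667], [], [nat_lit 25292774521, nat_lit 26428476209, nat_lit 27001432927, nat_lit 28036786088, nat_lit 26235811077, nat_lit 27292880072, nat_lit 27824673780, nat_lit 28807337750], nat_lit 0, nat_lit 0, nat_lit 0, nat_lit 0, nat_lit 0, nat_lit 0, [], [nat_lit 57, nat_lit 40, nat_lit 40, nat_lit 80, nat_lit 7, nat_lit 272, nat_lit 60, nat_lit 7]⟩, C1.Rw.none,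
 ⟨nat_lit 0, nat_lit 2237, ⟨.ofNat (nat_lit 614026), .ofNat (nat_lit 676741), .ofNat (nat_lit 659577), .ofNat (nat_lit 722292), .ofNat (nat_lit 599995), .ofNat (nat_lit 654993), .ofNat (nat_lit 649998), .ofNat (nat_lit 704996)⟩, ⟨.ofNat (nat_lit 306334), .ofNat (nat_lit 374750), .ofNat (nat_lit 351885), .ofNat (nat_lit 420300), .ofNat (nat_lit 299996), .ofNat (nat_lit 359993), .ofNat (nat_lit 349998), .ofNat (nat_lit 409994)⟩⟩, [⟨nat_lit 13, nat_lit 44, nat_lit 81, nat_lit 100, nat_lit 419164542⟩, ⟨nat_lit 16, nat_lit 44, nat_lit 100, nat_lit 92, nat_lit 253204359⟩]⟩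
noncomputable def b_V_900_500_20_19 : St := ⟨true, nat_lit 0, nat_lit 1, nat_lit 1, nat_lit 120, nat_lit 360, nat_lit 400, nat_lit 200, nat_lit 240, nat_lit 240, nat_lit 352, nat_lit 80, nat_lit 120, nat_lit 160, nat_lit 248, nat_lit 0, nat_lit 384, nat_lit 80, nat_lit 120, nat_lit 0, nat_lit 0, nat_lit 0, nat_lit 0⟩
theorem d_V_900_500_20_19 (h : EB TB.env) : Dead b_V_900_500_20_19 := chkB_sound0 h (T :=
(.spl (nat_lit 0) (nat_lit 380)
(.spl (nat_lit 2) (nat_lit 320)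
(.spl (nat_lit 2) (nat_lit 280)
(.leaf p107_l27)
(.trZ (nat_lit 9) (nat_lit 100) (nat_lit 94) (nat_lit 21) (nat_lit 4) (.leaf p107_l28)))
(.trZ (nat_lit 9) (nat_lit 100) (nat_lit 82) (nat_lit 44) (nat_lit 16) (.leaf p107_l29)))
(.trX (nat_lit 13) (nat_lit 44) (nat_lit 81) (nat_lit 100) (nat_lit 324) (.trX (nat_lit 16) (nat_lit 44) (nat_lit 100) (nat_lit 92) (nat_lit 208) (.spl (nat_lit 2) (nat_lit 280)
(.leaf p107_l30)
(.trZ (nat_lit 9) (nat_lit 100) (nat_lit 94) (nat_lit 21) (nat_lit 4) (.leaf p107_l31))))))) (by decide +kernel)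
noncomputable def p107_l32 : Lf2 := ⟨nat_lit 0, nat_lit 25, [nat_lit 44, nat_lit 5, nat_lit 5, nat_lit 20], false, nat_lit 8, nat_lit 80, nat_lit 0, nat_lit 376, ⟨nat_lit 88, nat_lit 0, nat_lit 912, nat_lit 5, nat_lit 185, nat_lit 912, nat_lit 43, nat_lit 912, nat_lit 17067, nat_lit 247, nat_lit 417, nat_lit 210, nat_lit 53871594, nat_lit 0, nat_lit 0, nat_lit 2880760, false, false⟩,
 nat_lit 0, nat_lit 2873, nat_lit 0, nat_lit 32, nat_lit 2502, nat_lit 1225, nat_lit 0, nat_lit 0, nat_lit 0, nat_lit 59, nat_lit 0, nat_lit 0, nat_lit 0, nat_lit 0, nat_lit 69, nat_lit 228000, nat_lit 0, nat_lit 0, [(nat_lit 26, [(nat_lit 4, nat_lit 912)])],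
 ⟨p107_k19, nat_lit 0, nat_lit 0, nat_lit 292, nat_lit 0, nat_lit 221877, [nat_lit 1065891200, nat_lit 577913601, nat_lit 11155200], [], [nat_lit 19669709689, nat_lit 20699490420, nat_lit 22400888279, nat_lit 23443569880, nat_lit 19223400552, nat_lit 20201828828, nat_lit 21994644824, nat_lit 22982906716], nat_lit 1271250, nat_lit 1271250, nat_lit 490000, nat_lit 1740000, nat_lit 43600, nat_lit 490000, [nat_lit 230000, nat_lit 1100000, nat_lit 1785000], [nat_lit 57, nat_lit 40, nat_lit 40, nat_lit 80, nat_lit 7, nat_lit 317, nat_lit 100, nat_lit 10]⟩, ⟨p107_k11, nat_lit 0, nat_lit 0, nat_lit 467, nat_lit 0, nat_lit 0, [nat_lit 550000000, nat_lit 1044736000, nat_lit 1443200000], [], [nat_lit 4209130986, nat_lit 4245873050, nat_lit 3784331934, nat_lit 3785481866, nat_lit 3621203966, nat_lit 3616272300, nat_lit 3076569262, nat_lit 3042385816], nat_lit 0, nat_lit 0, nat_lit 0, nat_lit 0, nat_lit 0, nat_lit 0, [], [nat_lit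 104, nat_lit 40, nat_lit 40, nat_lit 80, nat_lit 76, nat_lit 456, nat_lit 225, nat_lit 10]⟩,
 ⟨nat_lit 2236, nat_lit 3163, ⟨.ofNat (nat_lit 316827), .ofNat (nat_lit 560952), .ofNat (nat_lit 361011), .ofNat (nat_lit 605240), .ofNat (nat_lit 328641), .ofNat (nat_lit 557014), .ofNat (nat_lit 374063), .ofNat (nat_lit 602541)⟩, ⟨.ofNat (nat_lit 20000), .ofNat (nat_lit 184209), .ofNat (nat_lit 20000), .ofNat (nat_lit 200000), .ofNat (nat_lit 20000), .ofNat (nat_lit 192306), .ofNat (nat_lit 20000), .ofNat (nat_lit 200000)⟩⟩, [⟨nat_lit 3, nat_lit 100, nat_lit 63, nat_lit 50, nat_lit 164669347⟩, ⟨nat_lit 3, nat_lit 100, nat_lit 50, nat_lit 65, nat_lit 22577974⟩, ⟨nat_lit 22, nat_lit 100, nat_lit 65, nat_lit 64, nat_lit 12019491⟩]⟩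
noncomputable def p107_l33 : Lf2 := ⟨nat_lit 0, nat_lit 27, [nat_lit 147, nat_lit 5, nat_lit 5, nat_lit 20], true, nat_lit 16, nat_lit 80, nat_lit 0, nat_lit 384, ⟨nat_lit 0, nat_lit 208, nat_lit 792, nat_lit 5, nat_lit 185, nat_lit 1000, nat_lit 48, nat_lit 792, nat_lit 21600, nat_lit 251, nat_lit 417, nat_lit 210, nat_lit 53633929, nat_lit 11867596, nat_lit 1498475, nat_lit 2957785, false, false⟩,
 nat_lit 0, nat_lit 2847, nat_lit 0, nat_lit 1677, nat_lit 2479, nat_lit 0, nat_lit 0, nat_lit 0, nat_lit 0, nat_lit 0, nat_lit 0, nat_lit 0, nat_lit 0, nat_lit 0, nat_lit 64, nat_lit 250000, nat_lit 0, nat_lit 0, [(nat_lit 26, [(nat_lit 0, nat_lit 208), (nat_lit 4, nat_lit 792)])],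
 ⟨p107_k20, nat_lit 0, nat_lit 0, nat_lit 260, nat_lit 0, nat_lit 130450, [nat_lit 1029520000, nat_lit 565635201, nat_lit 21321600], [], [nat_lit 19093703784, nat_lit 20402001312, nat_lit 22192623646, nat_lit 23248940279, nat_lit 18682032916, nat_lit 19928665732, nat_lit 21765933828, nat_lit 22823144646], nat_lit 1271250, nat_lit 1271250, nat_lit 490000, nat_lit 1740000, nat_lit 88400, nat_lit 490000, [nat_lit 230000, nat_lit 1100000, nat_lit 1785000], [nat_lit 57, nat_lit 40, nat_lit 40, nat_lit 80, nat_lit 7, nat_lit 317, nat_lit 100, nat_lit 10]⟩, C1.Rw.none,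
 ⟨nat_lit 2236, nat_lit 3163, ⟨.ofNat (nat_lit 316827), .ofNat (nat_lit 560952), .ofNat (nat_lit 361011), .ofNat (nat_lit 605240), .ofNat (nat_lit 328641), .ofNat (nat_lit 557014), .ofNat (nat_lit 374063), .ofNat (nat_lit 602541)⟩, ⟨.ofNat (nat_lit 40000), .ofNat (nat_lit 200000), .ofNat (nat_lit 40000), .ofNat (nat_lit 200000), .ofNat (nat_lit 40000), .ofNat (nat_lit 200000), .ofNat (nat_lit 40000), .ofNat (nat_lit 200000)⟩⟩, [⟨nat_lit 3, nat_lit 100, nat_lit 59, nat_lit 58, nat_lit 189542158⟩, ⟨nat_lit 3, nat_lit 100, nat_lit 48, nat_lit 71, nat_lit 92303231⟩]⟩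
noncomputable def p107_l34 : Lf2 := ⟨nat_lit 1, nat_lit 30, [nat_lit 15, nat_lit 5, nat_lit 5, nat_lit 20], false, nat_lit 16, nat_lit 80, nat_lit 0, nat_lit 384, zbN0,
 nat_lit 0, nat_lit 0, nat_lit 0, nat_lit 0, nat_lit 0, nat_lit 0, nat_lit 0, nat_lit 0, nat_lit 0, nat_lit 0, nat_lit 0, nat_lit 0, nat_lit 0, nat_lit 0, nat_lit 0, nat_lit 0, nat_lit 0, nat_lit 0, [],
 C1.Rw.none, C1.Rw.none,
 zbF0, []⟩
noncomputable def p107_l35 : Lf2 := ⟨nat_lit 0, nat_lit 30, [nat_lit 15, nat_lit 5, nat_lit 5, nat_lit 20], true, nat_lit 80, nat_lit 160, nat_lit 0, nat_lit 384, ⟨nat_lit 0, nat_lit 0, nat_lit 1000, nat_lit 5, nat_lit 185, nat_lit 1000, nat_lit 105, nat_lit 1000, nat_lit 101400, nat_lit 293, nat_lit 417, nat_lit 210, nat_lit 50390826, nat_lit 0, nat_lit 0, nat_lit 3773242, false, false⟩,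
 nat_lit 0, nat_lit 3297, nat_lit 0, nat_lit 666, nat_lit 2871, nat_lit 0, nat_lit 0, nat_lit 0, nat_lit 0, nat_lit 0, nat_lit 0, nat_lit 0, nat_lit 0, nat_lit 0, nat_lit 108, nat_lit 250000, nat_lit 0, nat_lit 0, [(nat_lit 26, [(nat_lit 4, nat_lit 1000)])],
 ⟨p107_k21, nat_lit 0, nat_lit 0, nat_lit 289, nat_lit 0, nat_lit 231634, [nat_lit 1160000000, nat_lit 686800000], [], [nat_lit 19460305940, nat_lit 20359525402, nat_lit 21599171284, nat_lit 22655031626, nat_lit 19986858428, nat_lit 20933112104, nat_lit 22243193716, nat_lit 23134298062], nat_lit 1271250, nat_lit 1271250, nat_lit 490000, nat_lit 1740000, nat_lit 490000, nat_lit 1100001, [nat_lit 230000, nat_lit 2015000], [nat_lit 132, nat_lit 40, nat_lit 40, nat_lit 80, nat_lit 133, nat_lit 317, nat_lit 100, nat_lit 9]⟩, C1.Rw.none,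
 ⟨nat_lit 2236, nat_lit 3163, ⟨.ofNat (nat_lit 316827), .ofNat (nat_lit 560952), .ofNat (nat_lit 361011), .ofNat (nat_lit 605240), .ofNat (nat_lit 328641), .ofNat (nat_lit 557014), .ofNat (nat_lit 374063), .ofNat (nat_lit 602541)⟩, ⟨.ofNat (nat_lit 184209), .ofNat (nat_lit 306116), .ofNat (nat_lit 200000), .ofNat (nat_lit 350426), .ofNat (nat_lit 192306), .ofNat (nat_lit 306337), .ofNat (nat_lit 200000), .ofNat (nat_lit 351886)⟩⟩, []⟩
noncomputable def p107_l36 : Lf2 := ⟨nat_lit 0, nat_lit 30, [nat_lit 15, nat_lit 5, nat_lit 5, nat_lit 20], true, nat_lit 160, nat_lit 248, nat_lit 0, nat_lit 384, ⟨nat_lit 0, nat_lit 0, nat_lit 1000, nat_lit 5, nat_lit 185, nat_lit 1000, nat_lit 158, nat_lit 1000, nat_lit 61189, nat_lit 275, nat_lit 417, nat_lit 210, nat_lit 46693561, nat_lit 0, nat_lit 0, nat_lit 4407653, false, false⟩,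
 nat_lit 0, nat_lit 3288, nat_lit 0, nat_lit 3745, nat_lit 2863, nat_lit 0, nat_lit 0, nat_lit 0, nat_lit 0, nat_lit 0, nat_lit 0, nat_lit 0, nat_lit 0, nat_lit 0, nat_lit 108, nat_lit 250000, nat_lit 0, nat_lit 0, [(nat_lit 26, [(nat_lit 4, nat_lit 1000)])],
 ⟨p107_k18, nat_lit 0, nat_lit 0, nat_lit 178, nat_lit 0, nat_lit 140899, [nat_lit 1207600000, nat_lit 698800001, nat_lit 686800000], [], [nat_lit 19733918084, nat_lit 20333350198, nat_lit 22133649144, nat_lit 22599218964, nat_lit 21861903077, nat_lit 22384425278, nat_lit 24138407677, nat_lit 24730624793], nat_lit 1271250, nat_lit 1271250, nat_lit 490000, nat_lit 1740000, nat_lit 1100001, nat_lit 1853500, [nat_lit 230000, nat_lit 1100000, nat_lit 2127500], [nat_lit 81, nat_lit 40, nat_lit 40, nat_lit 80, nat_lit 13, nat_lit 345, nat_lit 125, nat_lit 9]⟩, C1.Rw.none,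
 ⟨nat_lit 2738, nat_lit 3163, ⟨.ofNat (nat_lit 317085), .ofNat (nat_lit 560952), .ofNat (nat_lit 361370), .ofNat (nat_lit 605257), .ofNat (nat_lit 322761), .ofNat (nat_lit 559060), .ofNat (nat_lit 367571), .ofNat (nat_lit 603890)⟩, ⟨.ofNat (nat_lit 306116), .ofNat (nat_lit 440213), .ofNat (nat_lit 350426), .ofNat (nat_lit 484523), .ofNat (nat_lit 306433), .ofNat (nat_lit 436368), .ofNat (nat_lit 351268), .ofNat (nat_lit 481203)⟩⟩, [⟨nat_lit 4, nat_lit 100, nat_lit 57, nat_lit 87, nat_lit 278265684⟩]⟩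
noncomputable def p107_l37 : Lf2 := ⟨nat_lit 0, nat_lit 30, [nat_lit 15, nat_lit 5, nat_lit 5, nat_lit 20], true, nat_lit 160, nat_lit 232, nat_lit 0, nat_lit 384, ⟨nat_lit 0, nat_lit 176, nat_lit 824, nat_lit 5, nat_lit 189, nat_lit 1000, nat_lit 152, nat_lit 824, nat_lit 156817, nat_lit 312, nat_lit 2958, nat_lit 211, nat_lit 46721635, nat_lit 11842610, nat_lit 8435755, nat_lit 4391551, false, false⟩,
 nat_lit 0, nat_lit 2950, nat_lit 0, nat_lit 2459, nat_lit 2661, nat_lit 0, nat_lit 0, nat_lit 0, nat_lit 0, nat_lit 0, nat_lit 0, nat_lit 0, nat_lit 0, nat_lit 0, nat_lit 70, nat_lit 250000, nat_lit 0, nat_lit 0, [(nat_lit 26, [(nat_lit 0, nat_lit 176), (nat_lit 4, nat_lit 824)])],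
 ⟨p107_k22, nat_lit 0, nat_lit 0, nat_lit 175, nat_lit 0, nat_lit 220854, [nat_lit 1053840000, nat_lit 573814401, nat_lit 2595200], [], [nat_lit 19769459167, nat_lit 20361058703, nat_lit 22363681379, nat_lit 22967403270, nat_lit 21517385743, nat_lit 22110389812, nat_lit 24153654494, nat_lit 24696907496], nat_lit 1271250, nat_lit 1271250, nat_lit 573850, nat_lit 1746750, nat_lit 1100001, nat_lit 1716500, [nat_lit 230000, nat_lit 1100000, nat_lit 1785000], [nat_lit 57, nat_lit 40, nat_lit 40, nat_lit 80, nat_lit 7, nat_lit 345, nat_lit 125, nat_lit 10]⟩, C1.Rw.none,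
 ⟨nat_lit 2236, nat_lit 2739, ⟨.ofNat (nat_lit 340439), .ofNat (nat_lit 559060), .ofNat (nat_lit 385234), .ofNat (nat_lit 603890), .ofNat (nat_lit 345963), .ofNat (nat_lit 557014), .ofNat (nat_lit 391471), .ofNat (nat_lit 602558)⟩, ⟨.ofNat (nat_lit 306433), .ofNat (nat_lit 412743), .ofNat (nat_lit 351268), .ofNat (nat_lit 457578), .ofNat (nat_lit 306337), .ofNat (nat_lit 408965), .ofNat (nat_lit 351886), .ofNat (nat_lit 454514)⟩⟩, [⟨nat_lit 4, nat_lit 100, nat_lit 48, nat_lit 87, nat_lit 307273990⟩]⟩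
noncomputable def p107_l38 : Lf2 := ⟨nat_lit 0, nat_lit 30, [nat_lit 15, nat_lit 5, nat_lit 5, nat_lit 20], false, nat_lit 20, nat_lit 80, nat_lit 0, nat_lit 384, ⟨nat_lit 132, nat_lit 0, nat_lit 868, nat_lit 5, nat_lit 196, nat_lit 868, nat_lit 49, nat_lit 868, nat_lit 22817, nat_lit 252, nat_lit 267, nat_lit 211, nat_lit 52499161, nat_lit 0, nat_lit 0, nat_lit 3096848, false, false⟩,
 nat_lit 0, nat_lit 2761, nat_lit 0, nat_lit 1138, nat_lit 2579, nat_lit 1830, nat_lit 0, nat_lit 0, nat_lit 0, nat_lit 87, nat_lit 0, nat_lit 0, nat_lit 0, nat_lit 0, nat_lit 79, nat_lit 217000, nat_lit 0, nat_lit 0, [(nat_lit 29, [(nat_lit 4, nat_lit 868)])],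
 ⟨p107_k12, nat_lit 0, nat_lit 0, nat_lit 298, nat_lit 0, nat_lit 294715, [nat_lit 1100884801, nat_lit 320763201, nat_lit 293779200], [], [nat_lit 20980029611, nat_lit 21589558641, nat_lit 23561883353, nat_lit 24119059282, nat_lit 20667392214, nat_lit 21248810811, nat_lit 23205901685, nat_lit 23695600058], nat_lit 1271250, nat_lit 1271250, nat_lit 719601, nat_lit 1758000, nat_lit 111251, nat_lit 490000, [nat_lit 230000, nat_lit 1100000, nat_lit 1785000], [nat_lit 57, nat_lit 40, nat_lit 40, nat_lit 80, nat_lit 7, nat_lit 317, nat_lit 100, nat_lit 10]⟩, ⟨p107_k11, nat_lit 0, nat_lit 0, nat_lit 445, nat_lit 0, nat_lit 0, [nat_lit 825000000, nat_lit 1567104000, nat_lit 2164800000], [], [nat_lit 6047759800, nat_lit 6097228696, nat_lit 5701202886, nat_lit 5698699950, nat_lit 5228814390, nat_lit 5209760594, nat_lit 4710291328, nat_lit 4656054730], nat_lit 0, nat_lit 0, nat_lit 0, nat_lit 0, nat_lit 0, nat_lit 0, [], [nat_lit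 104, nat_lit 40, nat_lit 40, nat_lit 80, nat_lit 76, nat_lit 456, nat_lit 225, nat_lit 10]⟩,
 ⟨nat_lit 1581, nat_lit 2237, ⟨.ofNat (nat_lit 374377), .ofNat (nat_lit 557014), .ofNat (nat_lit 419835), .ofNat (nat_lit 602558), .ofNat (nat_lit 379613), .ofNat (nat_lit 554634), .ofNat (nat_lit 426152), .ofNat (nat_lit 601260)⟩, ⟨.ofNat (nat_lit 50000), .ofNat (nat_lit 192306), .ofNat (nat_lit 50000), .ofNat (nat_lit 200000), .ofNat (nat_lit 50000), .ofNat (nat_lit 196201), .ofNat (nat_lit 50000), .ofNat (nat_lit 200000)⟩⟩, [⟨nat_lit 3, nat_lit 100, nat_lit 44, nat_lit 71, nat_lit 246354534⟩, ⟨nat_lit 22, nat_lit 100, nat_lit 67, nat_lit 67, nat_lit 19265958⟩]⟩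
noncomputable def p107_l39 : Lf2 := ⟨nat_lit 0, nat_lit 30, [nat_lit 15, nat_lit 5, nat_lit 5, nat_lit 20], true, nat_lit 36, nat_lit 80, nat_lit 0, nat_lit 384, ⟨nat_lit 0, nat_lit 450, nat_lit 550, nat_lit 5, nat_lit 203, nat_lit 1000, nat_lit 58, nat_lit 550, nat_lit 30817, nat_lit 258, nat_lit 3415, nat_lit 212, nat_lit 51376693, nat_lit 13646993, nat_lit 1976314, nat_lit 3294287, false, false⟩,
 nat_lit 0, nat_lit 2651, nat_lit 0, nat_lit 0, nat_lit 2563, nat_lit 0, nat_lit 0, nat_lit 0, nat_lit 0, nat_lit 0, nat_lit 0, nat_lit 0, nat_lit 0, nat_lit 0, nat_lit 33, nat_lit 251350, nat_lit 0, nat_lit 0, [(nat_lit 29, [(nat_lit 0, nat_lit 450), (nat_lit 4, nat_lit 541), (nat_lit 5, nat_lit 9)])],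
 ⟨p107_k17, nat_lit 0, nat_lit 0, nat_lit 267, nat_lit 0, nat_lit 362978, [nat_lit 901088001, nat_lit 158571201, nat_lit 6573600], [], [nat_lit 21530710637, nat_lit 22153977519, nat_lit 23866846167, nat_lit 24505439893, nat_lit 21314105830, nat_lit 21915549234, nat_lit 23616837354, nat_lit 24223023123], nat_lit 1271250, nat_lit 1271250, nat_lit 904401, nat_lit 1771500, nat_lit 205650, nat_lit 490000, [nat_lit 230000, nat_lit 1100000, nat_lit 1442500], [nat_lit 55, nat_lit 40, nat_lit 40, nat_lit 80, nat_lit 3, nat_lit 317, nat_lit 100, nat_lit 11]⟩, C1.Rw.none,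
 ⟨nat_lit 0, nat_lit 1582, ⟨.ofNat (nat_lit 410485), .ofNat (nat_lit 554633), .ofNat (nat_lit 455801), .ofNat (nat_lit 601257), .ofNat (nat_lit 417902), .ofNat (nat_lit 549998), .ofNat (nat_lit 466588), .ofNat (nat_lit 599992)⟩, ⟨.ofNat (nat_lit 90000), .ofNat (nat_lit 196201), .ofNat (nat_lit 90000), .ofNat (nat_lit 200000), .ofNat (nat_lit 90000), .ofNat (nat_lit 199999), .ofNat (nat_lit 90000), .ofNat (nat_lit 200000)⟩⟩, [⟨nat_lit 3, nat_lit 100, nat_lit 26, nat_lit 85, nat_lit 492702590⟩, ⟨nat_lit 3, nat_lit 100, nat_lit 39, nat_lit 72, nat_lit 28948627⟩]⟩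
noncomputable def p107_l40 : Lf2 := ⟨nat_lit 0, nat_lit 30, [nat_lit 15, nat_lit 5, nat_lit 5, nat_lit 20], true, nat_lit 80, nat_lit 208, nat_lit 0, nat_lit 384, ⟨nat_lit 0, nat_lit 369, nat_lit 631, nat_lit 5, nat_lit 196, nat_lit 1000, nat_lit 119, nat_lit 631, nat_lit 132017, nat_lit 304, nat_lit 267, nat_lit 211, nat_lit 48505426, nat_lit 12687090, nat_lit 5807484, nat_lit 4059107, false, false⟩,
 nat_lit 0, nat_lit 2998, nat_lit 0, nat_lit 0, nat_lit 2801, nat_lit 0, nat_lit 0, nat_lit 0, nat_lit 0, nat_lit 0, nat_lit 0, nat_lit 0, nat_lit 0, nat_lit 0, nat_lit 54, nat_lit 250000, nat_lit 0, nat_lit 0, [(nat_lit 29, [(nat_lit 0, nat_lit 369), (nat_lit 4, nat_lit 631)])],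
 ⟨p107_k12, nat_lit 0, nat_lit 0, nat_lit 257, nat_lit 0, nat_lit 294715, [nat_lit 984980000, nat_lit 301583200, nat_lit 111886800], [], [nat_lit 20104121969, nat_lit 20744462743, nat_lit 22626881962, nat_lit 23214045712, nat_lit 22057226624, nat_lit 22595266899, nat_lit 24308706064, nat_lit 24857213142], nat_lit 1271250, nat_lit 1271250, nat_lit 719601, nat_lit 1758000, nat_lit 490000, nat_lit 1490000, [nat_lit 230000, nat_lit 1100000, nat_lit 1785000], [nat_lit 57, nat_lit 40, nat_lit 40, nat_lit 80, nat_lit 7, nat_lit 345, nat_lit 125, nat_lit 11]⟩, C1.Rw.none,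
 ⟨nat_lit 1581, nat_lit 2237, ⟨.ofNat (nat_lit 374377), .ofNat (nat_lit 557014), .ofNat (nat_lit 419835), .ofNat (nat_lit 602558), .ofNat (nat_lit 379613), .ofNat (nat_lit 554634), .ofNat (nat_lit 426152), .ofNat (nat_lit 601260)⟩, ⟨.ofNat (nat_lit 192306), .ofNat (nat_lit 374756), .ofNat (nat_lit 200000), .ofNat (nat_lit 420305), .ofNat (nat_lit 196201), .ofNat (nat_lit 371036), .ofNat (nat_lit 200000), .ofNat (nat_lit 417666)⟩⟩, [⟨nat_lit 4, nat_lit 100, nat_lit 38, nat_lit 87, nat_lit 113217600⟩]⟩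
noncomputable def p107_l41 : Lf2 := ⟨nat_lit 0, nat_lit 30, [nat_lit 15, nat_lit 5, nat_lit 5, nat_lit 20], true, nat_lit 80, nat_lit 184, nat_lit 0, nat_lit 384, ⟨nat_lit 0, nat_lit 530, nat_lit 470, nat_lit 5, nat_lit 203, nat_lit 1000, nat_lit 111, nat_lit 470, nat_lit 117600, nat_lit 299, nat_lit 3415, nat_lit 212, nat_lit 48321456, nat_lit 13406487, nat_lit 5272057, nat_lit 4034320, false, false⟩,
 nat_lit 0, nat_lit 2824, nat_lit 0, nat_lit 0, nat_lit 2730, nat_lit 0, nat_lit 0, nat_lit 0, nat_lit 0, nat_lit 0, nat_lit 0, nat_lit 0, nat_lit 0, nat_lit 0, nat_lit 17, nat_lit 253300, nat_lit 0, nat_lit 0, [(nat_lit 29, [(nat_lit 0, nat_lit 530), (nat_lit 4, nat_lit 448), (nat_lit 5, nat_lit 22)])],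
 ⟨p107_k17, nat_lit 0, nat_lit 0, nat_lit 237, nat_lit 0, nat_lit 362978, [nat_lit 836504001, nat_lit 139865601, nat_lit 17280800], [], [nat_lit 21020867631, nat_lit 21637486165, nat_lit 23312676294, nat_lit 23857726480, nat_lit 22472687413, nat_lit 23030418735, nat_lit 24520791792, nat_lit 25003047867], nat_lit 1271250, nat_lit 1271250, nat_lit 904401, nat_lit 1771500, nat_lit 490000, nat_lit 1302500, [nat_lit 230000, nat_lit 1100000, nat_lit 1442500], [nat_lit 55, nat_lit 40, nat_lit 40, nat_lit 80, nat_lit 3, nat_lit 345, nat_lit 125, nat_lit 12]⟩, C1.Rw.none,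
 ⟨nat_lit 0, nat_lit 1582, ⟨.ofNat (nat_lit 410485), .ofNat (nat_lit 554633), .ofNat (nat_lit 455801), .ofNat (nat_lit 601257), .ofNat (nat_lit 417902), .ofNat (nat_lit 549998), .ofNat (nat_lit 466588), .ofNat (nat_lit 599992)⟩, ⟨.ofNat (nat_lit 196201), .ofNat (nat_lit 338250), .ofNat (nat_lit 200000), .ofNat (nat_lit 384882), .ofNat (nat_lit 199999), .ofNat (nat_lit 329995), .ofNat (nat_lit 200000), .ofNat (nat_lit 379997)⟩⟩, [⟨nat_lit 4, nat_lit 100, nat_lit 23, nat_lit 91, nat_lit 194095900⟩]⟩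
noncomputable def p107_l42 : Lf2 := ⟨nat_lit 0, nat_lit 30, [nat_lit 15, nat_lit 5, nat_lit 5, nat_lit 20], false, nat_lit 8, nat_lit 248, nat_lit 0, nat_lit 160, ⟨nat_lit 1000, nat_lit 0, nat_lit 0, nat_lit 0, nat_lit 0, nat_lit 0, nat_lit 0, nat_lit 0, nat_lit 0, nat_lit 0, nat_lit 0, nat_lit 0, nat_lit 0, nat_lit 0, nat_lit 0, nat_lit 0, false, false⟩,
 nat_lit 0, nat_lit 7583, nat_lit 0, nat_lit 5716, nat_lit 6604, nat_lit 7416, nat_lit 273, nat_lit 0, nat_lit 0, nat_lit 700, nat_lit 0, nat_lit 0, nat_lit 0, nat_lit 0, nat_lit 0, nat_lit 0, nat_lit 0, nat_lit 0, [],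
 ⟨p107_k18, nat_lit 0, nat_lit 0, nat_lit 309, nat_lit 0, nat_lit 231634, [nat_lit 938000000, nat_lit 4688000000, nat_lit 9842000000], [], [nat_lit 32978518511, nat_lit 34679628296, nat_lit 38279018151, nat_lit 39557677468, nat_lit 29812894456, nat_lit 30699677282, nat_lit 33218332347, nat_lit 34159998451], nat_lit 1271250, nat_lit 1271250, nat_lit 1271250, nat_lit 1271250, nat_lit 43600, nat_lit 1756600, [nat_lit 230000, nat_lit 1100000, nat_lit 2127500], [nat_lit 81, nat_lit 40, nat_lit 40, nat_lit 80, nat_lit 13, nat_lit 373, nat_lit 150, nat_lit 10]⟩, ⟨p107_k11, nat_lit 0, nat_lit 0, nat_lit 337, nat_lit 0, nat_lit 0, [nat_lit 6250000000, nat_lit 11872000000, nat_lit 16400000000], [], [nat_lit 35461842232, nat_lit 36461886744, nat_lit 41227771487, nat_lit 41903845300, nat_lit 30238075616, nat_lit 31306367008, nat_lit 35470215431, nat_lit 36066466567], nat_lit 0, nat_lit 0, nat_lit 0, nat_lit 0, nat_lit 0, nat_lit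 0, [], [nat_lit 104, nat_lit 40, nat_lit 40, nat_lit 80, nat_lit 76, nat_lit 428, nat_lit 200, nat_lit 9]⟩,
 zbF0, [⟨nat_lit 16, nat_lit 53, nat_lit 100, nat_lit 87, nat_lit 167760384⟩, ⟨nat_lit 9, nat_lit 100, nat_lit 94, nat_lit 14, nat_lit 17876884⟩]⟩
noncomputable def p107_l43 : Lf2 := ⟨nat_lit 0, nat_lit 30, [nat_lit 15, nat_lit 5, nat_lit 5, nat_lit 20], false, nat_lit 20, nat_lit 208, nat_lit 0, nat_lit 160, ⟨nat_lit 1000, nat_lit 0, nat_lit 0, nat_lit 0, nat_lit 0, nat_lit 0, nat_lit 0, nat_lit 0, nat_lit 0, nat_lit 0, nat_lit 0, nat_lit 0, nat_lit 0, nat_lit 0, nat_lit 0, nat_lit 0, false, false⟩,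
 nat_lit 0, nat_lit 4098, nat_lit 0, nat_lit 4585, nat_lit 3829, nat_lit 7416, nat_lit 481, nat_lit 0, nat_lit 0, nat_lit 734, nat_lit 0, nat_lit 0, nat_lit 0, nat_lit 0, nat_lit 0, nat_lit 0, nat_lit 0, nat_lit 0, [],
 ⟨p107_k12, nat_lit 0, nat_lit 0, nat_lit 308, nat_lit 0, nat_lit 379774, [nat_lit 938000000, nat_lit 4688000000, nat_lit 7968000000], [], [nat_lit 25962354138, nat_lit 27662577002, nat_lit 29960412239, nat_lit 31447111515, nat_lit 25386515773, nat_lit 26482087241, nat_lit 28424561577, nat_lit 29635488169], nat_lit 1271250, nat_lit 1271250, nat_lit 1271250, nat_lit 1271250, nat_lit 111251, nat_lit 1474250, [nat_lit 230000, nat_lit 1100000, nat_lit 1785000], [nat_lit 57, nat_lit 40, nat_lit 40, nat_lit 80, nat_lit 7, nat_lit 272, nat_lit 60, nat_lit 8]⟩, ⟨p107_k11, nat_lit 0, nat_lit 0, nat_lit 330, nat_lit 0, nat_lit 0, [nat_lit 6250000000, nat_lit 11872000000, nat_lit 16400000000], [], [nat_lit 34953754732,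 nat_lit 36052672032, nat_lit 39209877815, nat_lit 40093850711, nat_lit 30238075616, nat_lit 31306367008, nat_lit 33948670253, nat_lit 34668186685], nat_lit 0, nat_lit 0, nat_lit 0, nat_lit 0, nat_lit 0, nat_lit 0, [], [nat_lit 104, nat_lit 40, nat_lit 40, nat_lit 80, nat_lit 76, nat_lit 428, nat_lit 200, nat_lit 9]⟩,
 zbF0, [⟨nat_lit 13, nat_lit 31, nat_lit 92, nat_lit 100, nat_lit 80375428⟩, ⟨nat_lit 16, nat_lit 32, nat_lit 100, nat_lit 88, nat_lit 467409958⟩]⟩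
noncomputable def p107_l44 : Lf2 := ⟨nat_lit 0, nat_lit 30, [nat_lit 15, nat_lit 5, nat_lit 5, nat_lit 20], false, nat_lit 8, nat_lit 248, nat_lit 160, nat_lit 384, ⟨nat_lit 1000, nat_lit 0, nat_lit 0, nat_lit 0, nat_lit 0, nat_lit 0, nat_lit 0, nat_lit 0, nat_lit 0, nat_lit 0, nat_lit 0, nat_lit 0, nat_lit 0, nat_lit 0, nat_lit 0, nat_lit 0, false, false⟩,
 nat_lit 0, nat_lit 7583, nat_lit 0, nat_lit 6335, nat_lit 6604, nat_lit 6864, nat_lit 431, nat_lit 0, nat_lit 0, nat_lit 0, nat_lit 0, nat_lit 0, nat_lit 0, nat_lit 0, nat_lit 0, nat_lit 0, nat_lit 0, nat_lit 0, [],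
 ⟨p107_k18, nat_lit 0, nat_lit 0, nat_lit 309, nat_lit 0, nat_lit 231634, [nat_lit 938000000, nat_lit 4688000000, nat_lit 9842000000], [], [nat_lit 30545318511, nat_lit 32246428296, nat_lit 37678629640, nat_lit 39554272419, nat_lit 27379694456, nat_lit 28272034252, nat_lit 32214525457, nat_lit 33595330348], nat_lit 1271250, nat_lit 1271250, nat_lit 1271250, nat_lit 1271250, nat_lit 43600, nat_lit 1756600, [nat_lit 230000, nat_lit 1100000, nat_lit 2127500], [nat_lit 81, nat_lit 40, nat_lit 40, nat_lit 80, nat_lit 13, nat_lit 373, nat_lit 150, nat_lit 10]⟩, ⟨p107_k11, nat_lit 0, nat_lit 0, nat_lit 131, nat_lit 0, nat_lit 0, [nat_lit 6250000000, nat_lit 11872000000, nat_lit 16400000000], [], [nat_lit 14810742080, nat_lit 16978396320, nat_lit 23850612839, nat_lit 25211121063, nat_lit 28467982381, nat_lit 29351510106, nat_lit 33384165382, nat_lit 33981486920], nat_lit 0, nat_lit 0, nat_lit 0, nat_lit 0, nat_lit 0, nat_lit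 0, [], [nat_lit 104, nat_lit 40, nat_lit 40, nat_lit 80, nat_lit 76, nat_lit 483, nat_lit 250, nat_lit 10]⟩,
 zbF0, [⟨nat_lit 4, nat_lit 100, nat_lit 53, nat_lit 87, nat_lit 99187302⟩, ⟨nat_lit 19, nat_lit 100, nat_lit 59, nat_lit 87, nat_lit 520594323⟩]⟩
noncomputable def p107_l45 : Lf2 := ⟨nat_lit 0, nat_lit 30, [nat_lit 15, nat_lit 5, nat_lit 5, nat_lit 20], false, nat_lit 20, nat_lit 208, nat_lit 160, nat_lit 384, ⟨nat_lit 1000, nat_lit 0, nat_lit 0, nat_lit 0, nat_lit 0, nat_lit 0, nat_lit 0, nat_lit 0, nat_lit 0, nat_lit 0, nat_lit 0, nat_lit 0, nat_lit 0, nat_lit 0, nat_lit 0, nat_lit 0, false, false⟩,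
 nat_lit 0, nat_lit 4013, nat_lit 0, nat_lit 6176, nat_lit 3749, nat_lit 7708, nat_lit 488, nat_lit 0, nat_lit 0, nat_lit 0, nat_lit 0, nat_lit 0, nat_lit 0, nat_lit 0, nat_lit 0, nat_lit 0, nat_lit 0, nat_lit 0, [],
 ⟨p107_k12, nat_lit 0, nat_lit 0, nat_lit 308, nat_lit 0, nat_lit 379774, [nat_lit 938000000, nat_lit 4688000000, nat_lit 7968000000], [], [nat_lit 25813370628, nat_lit 27483493962, nat_lit 29771775111, nat_lit 31242659779, nat_lit 25511109404, nat_lit 26407884083, nat_lit 28341348092, nat_lit 29540435036], nat_lit 1271250, nat_lit 1271250, nat_lit 1271250, nat_lit 1271250, nat_lit 111251, nat_lit 1474250, [nat_lit 230000, nat_lit 1100000, nat_lit 1785000], [nat_lit 57, nat_lit 40, nat_lit 40, nat_lit 80, nat_lit 7, nat_lit 272, nat_lit 60, nat_lit 8]⟩, ⟨p107_k11, nat_lit 0, nat_lit 0, nat_lit 123, nat_lit 0, nat_lit 0, [nat_lit 6250000000, nat_lit 11872000000, nat_lit 16400000000], [], [nat_lit 13521295760,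 nat_lit 15811465040, nat_lit 20526101322, nat_lit 22155237754, nat_lit 28048047818, nat_lit 29194339556, nat_lit 32503737839, nat_lit 33218391042], nat_lit 0, nat_lit 0, nat_lit 0, nat_lit 0, nat_lit 0, nat_lit 0, [], [nat_lit 104, nat_lit 40, nat_lit 40, nat_lit 80, nat_lit 76, nat_lit 483, nat_lit 250, nat_lit 10]⟩,
 zbF0, [⟨nat_lit 13, nat_lit 31, nat_lit 92, nat_lit 100, nat_lit 113569877⟩, ⟨nat_lit 4, nat_lit 100, nat_lit 32, nat_lit 88, nat_lit 476917162⟩, ⟨nat_lit 19, nat_lit 100, nat_lit 40, nat_lit 92, nat_lit 551616780⟩]⟩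
noncomputable def b_V_900_500_20_20 : St := ⟨true, nat_lit 1, nat_lit 0, nat_lit 1, nat_lit 120, nat_lit 360, nat_lit 400, nat_lit 200, nat_lit 240, nat_lit 80, nat_lit 352, nat_lit 80, nat_lit 120, nat_lit 8, nat_lit 248, nat_lit 0, nat_lit 384, nat_lit 80, nat_lit 120, nat_lit 0, nat_lit 0, nat_lit 0, nat_lit 0⟩
theorem d_V_900_500_20_20 (h : EB TB.env) : Dead b_V_900_500_20_20 := chkB_sound0 h (T :=
(.spl (nat_lit 2) (nat_lit 240)
(.spl (nat_lit 0) (nat_lit 380)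
(.spl (nat_lit 4) (nat_lit 160)
(.spl (nat_lit 4) (nat_lit 80)
(.spl (nat_lit 3) (nat_lit 100)
(.trX (nat_lit 19) (nat_lit 100) (nat_lit 50) (nat_lit 87) (nat_lit 376) (.leaf p107_l32))
(.trZ (nat_lit 3) (nat_lit 100) (nat_lit 69) (nat_lit 45) (nat_lit 16) (.spl (nat_lit 6) (nat_lit 108)
(.leaf p107_l33)
(.leaf p107_l34))))
(.leaf p107_l35))
(.spl (nat_lit 0) (nat_lit 370)
(.leaf p107_l36)
(.trZ (nat_lit 0) (nat_lit 100) (nat_lit 53) (nat_lit 85) (nat_lit 92) (.trX (nat_lit 16) (nat_lit 53) (nat_lit 100) (nat_lit 93) (nat_lit 232) (.leaf p107_l37)))))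
(.trZ (nat_lit 0) (nat_lit 100) (nat_lit 44) (nat_lit 90) (nat_lit 112) (.trZ (nat_lit 3) (nat_lit 100) (nat_lit 54) (nat_lit 57) (nat_lit 20) (.trX (nat_lit 16) (nat_lit 44) (nat_lit 100) (nat_lit 92) (nat_lit 208) (.spl (nat_lit 4) (nat_lit 80)
(.spl (nat_lit 0) (nat_lit 390)
(.leaf p107_l38)
(.trZ (nat_lit 0) (nat_lit 100) (nat_lit 31) (nat_lit 95) (nat_lit 136) (.trZ (nat_lit 3) (nat_lit 100) (nat_lit 39) (nat_lit 72) (nat_lit 36) (.leaf p107_l39))))
(.spl (nat_lit 0) (nat_lit 390)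
(.leaf p107_l40)
(.trZ (nat_lit 0) (nat_lit 100) (nat_lit 31) (nat_lit 95) (nat_lit 136) (.trX (nat_lit 16) (nat_lit 31) (nat_lit 100) (nat_lit 92) (nat_lit 184) (.leaf p107_l41)))))))))
(.spl (nat_lit 5) (nat_lit 160)
(.spl (nat_lit 0) (nat_lit 380)
(.leaf p107_l42)
(.trX (nat_lit 13) (nat_lit 44) (nat_lit 81) (nat_lit 100) (nat_lit 324) (.trZ (nat_lit 3) (nat_lit 100) (nat_lit 54) (nat_lit 57) (nat_lit 20) (.trX (nat_lit 16) (nat_lit 44) (nat_lit 100) (nat_lit 92) (nat_lit 208) (.leaf p107_l43)))))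
(.spl (nat_lit 0) (nat_lit 380)
(.leaf p107_l44)
(.trX (nat_lit 13) (nat_lit 44) (nat_lit 81) (nat_lit 100) (nat_lit 324) (.trZ (nat_lit 3) (nat_lit 100) (nat_lit 54) (nat_lit 57) (nat_lit 20) (.trX (nat_lit 16) (nat_lit 44) (nat_lit 100) (nat_lit 92) (nat_lit 208) (.leaf p107_l45)))))))) (by decide +kernel)
noncomputable def p107_l46 : Lf2 := ⟨nat_lit 0, nat_lit 28, [nat_lit 157, nat_lit 5, nat_lit 5, nat_lit 20], true, nat_lit 8, nat_lit 80, nat_lit 0, nat_lit 384, ⟨nat_lit 0, nat_lit 114, nat_lit 886, nat_lit 5, nat_lit 185, nat_lit 1000, nat_lit 43, nat_lit 886, nat_lit 17067, nat_lit 247, nat_lit 417, nat_lit 210, nat_lit 53923142, nat_lit 11824142, nat_lit 1252716, nat_lit 2872884, false, false⟩,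
 nat_lit 0, nat_lit 2704, nat_lit 0, nat_lit 2842, nat_lit 2355, nat_lit 0, nat_lit 0, nat_lit 0, nat_lit 0, nat_lit 0, nat_lit 0, nat_lit 0, nat_lit 0, nat_lit 0, nat_lit 84, nat_lit 250000, nat_lit 0, nat_lit 0, [(nat_lit 26, [(nat_lit 0, nat_lit 114), (nat_lit 4, nat_lit 886)])],
 ⟨p107_k23, nat_lit 0, nat_lit 0, nat_lit 262, nat_lit 0, nat_lit 139231, [nat_lit 1110460000, nat_lit 627661601, nat_lit 23312800], [], [nat_lit 18756928792, nat_lit 19400595775, nat_lit 21889952036, nat_lit 22410159531, nat_lit 18375657220, nat_lit 18985637180, nat_lit 21488756660, nat_lit 22037035265], nat_lit 1271250, nat_lit 1271250, nat_lit 490000, nat_lit 1740000, nat_lit 43600, nat_lit 490000, [nat_lit 230000, nat_lit 1100000, nat_lit 1785000], [nat_lit 57, nat_lit 40, nat_lit 40, nat_lit 80, nat_lit 7, nat_lit 317, nat_lit 100, nat_lit 10]⟩, C1.Rw.none,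
 ⟨nat_lit 2738, nat_lit 3163, ⟨.ofNat (nat_lit 317085), .ofNat (nat_lit 560952), .ofNat (nat_lit 361370), .ofNat (nat_lit 605257), .ofNat (nat_lit 322761), .ofNat (nat_lit 559060), .ofNat (nat_lit 367571), .ofNat (nat_lit 603890)⟩, ⟨.ofNat (nat_lit 20000), .ofNat (nat_lit 184209), .ofNat (nat_lit 20000), .ofNat (nat_lit 200000), .ofNat (nat_lit 20000), .ofNat (nat_lit 188310), .ofNat (nat_lit 20000), .ofNat (nat_lit 200000)⟩⟩, [⟨nat_lit 3, nat_lit 100, nat_lit 65, nat_lit 50, nat_lit 204135161⟩]⟩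
noncomputable def p107_l47 : Lf2 := ⟨nat_lit 1, nat_lit 30, [nat_lit 15, nat_lit 5, nat_lit 5, nat_lit 20], false, nat_lit 8, nat_lit 80, nat_lit 0, nat_lit 384, zbN0,
 nat_lit 0, nat_lit 0, nat_lit 0, nat_lit 0, nat_lit 0, nat_lit 0, nat_lit 0, nat_lit 0, nat_lit 0, nat_lit 0, nat_lit 0, nat_lit 0, nat_lit 0, nat_lit 0, nat_lit 0, nat_lit 0, nat_lit 0, nat_lit 0, [],
 C1.Rw.none, C1.Rw.none,
 zbF0, []⟩
noncomputable def p107_l48 : Lf2 := ⟨nat_lit 0, nat_lit 30, [nat_lit 15, nat_lit 5, nat_lit 5, nat_lit 20], false, nat_lit 12, nat_lit 80, nat_lit 0, nat_lit 384, ⟨nat_lit 0, nat_lit 127, nat_lit 873, nat_lit 5, nat_lit 189, nat_lit 1000, nat_lit 45, nat_lit 873, nat_lit 19267, nat_lit 249, nat_lit 2967, nat_lit 211, nat_lit 53391253, nat_lit 12252423, nat_lit 1356324, nat_lit 2955713, false, false⟩,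
 nat_lit 0, nat_lit 2613, nat_lit 0, nat_lit 3474, nat_lit 2358, nat_lit 0, nat_lit 0, nat_lit 0, nat_lit 0, nat_lit 0, nat_lit 0, nat_lit 0, nat_lit 0, nat_lit 0, nat_lit 81, nat_lit 250000, nat_lit 0, nat_lit 0, [(nat_lit 26, [(nat_lit 0, nat_lit 127), (nat_lit 4, nat_lit 873)])],
 ⟨p107_k22, nat_lit 0, nat_lit 0, nat_lit 253, nat_lit 0, nat_lit 121699, [nat_lit 1098330000, nat_lit 615338801, nat_lit 17420400], [], [nat_lit 19549800774, nat_lit 19866806885, nat_lit 22449428013, nat_lit 22711077781, nat_lit 19165306573, nat_lit 19466604165, nat_lit 22044574626, nat_lit 22340545271], nat_lit 1271250, nat_lit 1271250, nat_lit 573850, nat_lit 1746750, nat_lit 65850, nat_lit 490000, [nat_lit 230000, nat_lit 1100000, nat_lit 1785000], [nat_lit 57, nat_lit 40, nat_lit 40, nat_lit 80, nat_lit 7, nat_lit 317, nat_lit 100, nat_lit 10]⟩, ⟨p107_k11, nat_lit 0, nat_lit 0, nat_lit 641, nat_lit 0, nat_lit 329597, [nat_lit 0, nat_lit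 0, nat_lit 0], [], [nat_lit 0, nat_lit 0, nat_lit 0, nat_lit 0, nat_lit 0, nat_lit 0, nat_lit 0, nat_lit 0], nat_lit 1271250, nat_lit 1271250, nat_lit 573850, nat_lit 1746750, nat_lit 0, nat_lit 2712000, [nat_lit 1412500, nat_lit 1271250, nat_lit 1271250], [nat_lit 104, nat_lit 40, nat_lit 40, nat_lit 80, nat_lit 76, nat_lit 456, nat_lit 225, nat_lit 10]⟩,
 ⟨nat_lit 2500, nat_lit 2739, ⟨.ofNat (nat_lit 340514), .ofNat (nat_lit 559060), .ofNat (nat_lit 385341), .ofNat (nat_lit 603894), .ofNat (nat_lit 343206), .ofNat (nat_lit 558063), .ofNat (nat_lit 388358), .ofNat (nat_lit 603223)⟩, ⟨.ofNat (nat_lit 30000), .ofNat (nat_lit 188310), .ofNat (nat_lit 30000), .ofNat (nat_lit 200000), .ofNat (nat_lit 30000), .ofNat (nat_lit 190321), .ofNat (nat_lit 30000), .ofNat (nat_lit 200000)⟩⟩, [⟨nat_lit 3, nat_lit 100, nat_lit 58, nat_lit 57, nat_lit 234259233⟩]⟩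
noncomputable def p107_l49 : Lf2 := ⟨nat_lit 0, nat_lit 30, [nat_lit 15, nat_lit 5, nat_lit 5, nat_lit 20], false, nat_lit 16, nat_lit 80, nat_lit 0, nat_lit 384, ⟨nat_lit 0, nat_lit 149, nat_lit 851, nat_lit 5, nat_lit 192, nat_lit 1000, nat_lit 47, nat_lit 851, nat_lit 20417, nat_lit 250, nat_lit 1551, nat_lit 211, nat_lit 53012280, nat_lit 12530393, nat_lit 1457327, nat_lit 3019104, false, false⟩,
 nat_lit 0, nat_lit 2587, nat_lit 0, nat_lit 2726, nat_lit 2375, nat_lit 0, nat_lit 0, nat_lit 0, nat_lit 0, nat_lit 0, nat_lit 0, nat_lit 0, nat_lit 0, nat_lit 0, nat_lit 76, nat_lit 250000, nat_lit 0, nat_lit 0, [(nat_lit 26, [(nat_lit 0, nat_lit 149), (nat_lit 4, nat_lit 851)])],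
 ⟨p107_k24, nat_lit 0, nat_lit 0, nat_lit 257, nat_lit 0, nat_lit 148254, [nat_lit 1078110000, nat_lit 595715601, nat_lit 9294800], [], [nat_lit 20012489982, nat_lit 20326816326, nat_lit 22780196988, nat_lit 23039705550, nat_lit 19631775332, nat_lit 19931389925, nat_lit 22378056738, nat_lit 22626158550], nat_lit 1271250, nat_lit 1271250, nat_lit 631250, nat_lit 1751250, nat_lit 88400, nat_lit 490000, [nat_lit 230000, nat_lit 1100000, nat_lit 1785000], [nat_lit 57, nat_lit 40, nat_lit 40, nat_lit 80, nat_lit 7, nat_lit 317, nat_lit 100, nat_lit 10]⟩, ⟨p107_k11, nat_lit 0, nat_lit 0, nat_lit 668, nat_lit 0, nat_lit 410350, [nat_lit 0, nat_lit 0, nat_lit 0], [], [nat_lit 0, nat_lit 0, nat_lit 0, nat_lit 0, nat_lit 0, nat_lit 0, nat_lit 0, nat_lit 0], nat_lit 1271250, nat_lit 1271250, nat_lit 631250, nat_lit 1751250, nat_lit 0, nat_lit 2712000, [nat_lit 1412500, nat_lit 1271250, nat_lit 1271250], [nat_lit 104, nat_lit 40,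 nat_lit 40, nat_lit 80, nat_lit 76, nat_lit 456, nat_lit 225, nat_lit 10]⟩,
 ⟨nat_lit 2236, nat_lit 2500, ⟨.ofNat (nat_lit 354812), .ofNat (nat_lit 558063), .ofNat (nat_lit 399962), .ofNat (nat_lit 603223), .ofNat (nat_lit 357434), .ofNat (nat_lit 557014), .ofNat (nat_lit 402972), .ofNat (nat_lit 602562)⟩, ⟨.ofNat (nat_lit 40000), .ofNat (nat_lit 190321), .ofNat (nat_lit 40000), .ofNat (nat_lit 200000), .ofNat (nat_lit 40000), .ofNat (nat_lit 192306), .ofNat (nat_lit 40000), .ofNat (nat_lit 200000)⟩⟩, [⟨nat_lit 3, nat_lit 100, nat_lit 48, nat_lit 71, nat_lit 297365337⟩]⟩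
noncomputable def p107_l50 : Lf2 := ⟨nat_lit 0, nat_lit 30, [nat_lit 15, nat_lit 5, nat_lit 5, nat_lit 20], false, nat_lit 20, nat_lit 80, nat_lit 0, nat_lit 384, ⟨nat_lit 0, nat_lit 241, nat_lit 759, nat_lit 5, nat_lit 196, nat_lit 1000, nat_lit 49, nat_lit 759, nat_lit 22817, nat_lit 252, nat_lit 267, nat_lit 211, nat_lit 52499161, nat_lit 12936316, nat_lit 1564523, nat_lit 3096848, false, false⟩,
 nat_lit 0, nat_lit 2629, nat_lit 0, nat_lit 1512, nat_lit 2456, nat_lit 0, nat_lit 0, nat_lit 0, nat_lit 0, nat_lit 0, nat_lit 0, nat_lit 0, nat_lit 0, nat_lit 0, nat_lit 84, nat_lit 250000, nat_lit 0, nat_lit 0, [(nat_lit 29, [(nat_lit 0, nat_lit 241), (nat_lit 4, nat_lit 759)])],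
 ⟨p107_k12, nat_lit 0, nat_lit 0, nat_lit 271, nat_lit 0, nat_lit 202826, [nat_lit 1102420000, nat_lit 352424801, nat_lit 182005200], [], [nat_lit 20541090464, nat_lit 21153422893, nat_lit 23143454516, nat_lit 23859886750, nat_lit 20217364820, nat_lit 20802099122, nat_lit 22819670544, nat_lit 23431012744], nat_lit 1271250, nat_lit 1271250, nat_lit 719601, nat_lit 1758000, nat_lit 111251, nat_lit 490000, [nat_lit 230000, nat_lit 1100000, nat_lit 1785000], [nat_lit 57, nat_lit 40, nat_lit 40, nat_lit 80, nat_lit 7, nat_lit 317, nat_lit 100, nat_lit 10]⟩, ⟨p107_k11, nat_lit 0, nat_lit 0, nat_lit 724, nat_lit 0, nat_lit 573598, [nat_lit 0, nat_lit 0, nat_lit 0], [], [nat_lit 0, nat_lit 0, nat_lit 0, nat_lit 0, nat_lit 0, nat_lit 0, nat_lit 0, nat_lit 0], nat_lit 1271250, nat_lit 1271250, nat_lit 719601, nat_lit 1758000, nat_lit 0, nat_lit 2712000, [nat_lit 1412500, nat_lit 1271250, nat_lit 1271250], [nat_lit 104, nat_lit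 40, nat_lit 40, nat_lit 80, nat_lit 76, nat_lit 456, nat_lit 225, nat_lit 10]⟩,
 ⟨nat_lit 1581, nat_lit 2237, ⟨.ofNat (nat_lit 374377), .ofNat (nat_lit 557014), .ofNat (nat_lit 419835), .ofNat (nat_lit 602558), .ofNat (nat_lit 379613), .ofNat (nat_lit 554634), .ofNat (nat_lit 426152), .ofNat (nat_lit 601260)⟩, ⟨.ofNat (nat_lit 50000), .ofNat (nat_lit 192306), .ofNat (nat_lit 50000), .ofNat (nat_lit 200000), .ofNat (nat_lit 50000), .ofNat (nat_lit 196201), .ofNat (nat_lit 50000), .ofNat (nat_lit 200000)⟩⟩, [⟨nat_lit 3, nat_lit 100, nat_lit 44, nat_lit 71, nat_lit 343404430⟩]⟩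
noncomputable def p107_l51 : Lf2 := ⟨nat_lit 0, nat_lit 30, [nat_lit 15, nat_lit 5, nat_lit 5, nat_lit 20], true, nat_lit 36, nat_lit 80, nat_lit 0, nat_lit 384, ⟨nat_lit 0, nat_lit 450, nat_lit 550, nat_lit 5, nat_lit 203, nat_lit 1000, nat_lit 58, nat_lit 550, nat_lit 30817, nat_lit 258, nat_lit 3415, nat_lit 212, nat_lit 51376693, nat_lit 13646993, nat_lit 1976314, nat_lit 3294287, false, false⟩,
 nat_lit 0, nat_lit 2651, nat_lit 0, nat_lit 0, nat_lit 2563, nat_lit 0, nat_lit 0, nat_lit 0, nat_lit 0, nat_lit 0, nat_lit 0, nat_lit 0, nat_lit 0, nat_lit 0, nat_lit 33, nat_lit 251350, nat_lit 0, nat_lit 0, [(nat_lit 29, [(nat_lit 0, nat_lit 450), (nat_lit 4, nat_lit 541), (nat_lit 5, nat_lit 9)])],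
 ⟨p107_k17, nat_lit 0, nat_lit 0, nat_lit 267, nat_lit 0, nat_lit 362978, [nat_lit 901088001, nat_lit 158571201, nat_lit 6573600], [], [nat_lit 21530710637, nat_lit 22153977519, nat_lit 23866846167, nat_lit 24505439893, nat_lit 21314105830, nat_lit 21915549234, nat_lit 23616837354, nat_lit 24223023123], nat_lit 1271250, nat_lit 1271250, nat_lit 904401, nat_lit 1771500, nat_lit 205650, nat_lit 490000, [nat_lit 230000, nat_lit 1100000, nat_lit 1442500], [nat_lit 55, nat_lit 40, nat_lit 40, nat_lit 80, nat_lit 3, nat_lit 317, nat_lit 100, nat_lit 11]⟩, C1.Rw.none,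
 ⟨nat_lit 0, nat_lit 1582, ⟨.ofNat (nat_lit 410485), .ofNat (nat_lit 554633), .ofNat (nat_lit 455801), .ofNat (nat_lit 601257), .ofNat (nat_lit 417902), .ofNat (nat_lit 549998), .ofNat (nat_lit 466588), .ofNat (nat_lit 599992)⟩, ⟨.ofNat (nat_lit 90000), .ofNat (nat_lit 196201), .ofNat (nat_lit 90000), .ofNat (nat_lit 200000), .ofNat (nat_lit 90000), .ofNat (nat_lit 199999), .ofNat (nat_lit 90000), .ofNat (nat_lit 200000)⟩⟩, [⟨nat_lit 3, nat_lit 100, nat_lit 26, nat_lit 85, nat_lit 492702590⟩, ⟨nat_lit 3, nat_lit 100, nat_lit 39, nat_lit 72, nat_lit 28948627⟩]⟩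
noncomputable def p107_l52 : Lf2 := ⟨nat_lit 0, nat_lit 30, [nat_lit 15, nat_lit 5, nat_lit 5, nat_lit 20], true, nat_lit 80, nat_lit 160, nat_lit 0, nat_lit 384, ⟨nat_lit 0, nat_lit 0, nat_lit 1000, nat_lit 5, nat_lit 185, nat_lit 1000, nat_lit 105, nat_lit 1000, nat_lit 101400, nat_lit 293, nat_lit 417, nat_lit 210, nat_lit 50390826, nat_lit 0, nat_lit 0, nat_lit 3773242, false, false⟩,
 nat_lit 0, nat_lit 3267, nat_lit 0, nat_lit 628, nat_lit 2845, nat_lit 0, nat_lit 6, nat_lit 0, nat_lit 0, nat_lit 0, nat_lit 0, nat_lit 0, nat_lit 0, nat_lit 0, nat_lit 108, nat_lit 250000, nat_lit 0, nat_lit 0, [(nat_lit 26, [(nat_lit 4, nat_lit 1000)])],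
 ⟨p107_k18, nat_lit 0, nat_lit 0, nat_lit 294, nat_lit 0, nat_lit 231634, [nat_lit 1207600000, nat_lit 698800001, nat_lit 686800000], [], [nat_lit 18939950240, nat_lit 20253037390, nat_lit 21572149580, nat_lit 22564316430, nat_lit 19730390920, nat_lit 20848271420, nat_lit 22201201640, nat_lit 23112316050], nat_lit 1271250, nat_lit 1271250, nat_lit 490000, nat_lit 1740000, nat_lit 490000, nat_lit 1100001, [nat_lit 230000, nat_lit 1100000, nat_lit 2127500], [nat_lit 81, nat_lit 40, nat_lit 40, nat_lit 80, nat_lit 13, nat_lit 317, nat_lit 100, nat_lit 9]⟩, C1.Rw.none,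
 ⟨nat_lit 2236, nat_lit 3163, ⟨.ofNat (nat_lit 316827), .ofNat (nat_lit 560952), .ofNat (nat_lit 361011), .ofNat (nat_lit 605240), .ofNat (nat_lit 328641), .ofNat (nat_lit 557014), .ofNat (nat_lit 374063), .ofNat (nat_lit 602541)⟩, ⟨.ofNat (nat_lit 184209), .ofNat (nat_lit 306116), .ofNat (nat_lit 200000), .ofNat (nat_lit 350426), .ofNat (nat_lit 192306), .ofNat (nat_lit 306337), .ofNat (nat_lit 200000), .ofNat (nat_lit 351886)⟩⟩, []⟩
noncomputable def p107_l53 : Lf2 := ⟨nat_lit 0, nat_lit 30, [nat_lit 15, nat_lit 5, nat_lit 5, nat_lit 20], false, nat_lit 80, nat_lit 160, nat_lit 0, nat_lit 384, ⟨nat_lit 0, nat_lit 379, nat_lit 621, nat_lit 5, nat_lit 196, nat_lit 1000, nat_lit 105, nat_lit 621, nat_lit 104017, nat_lit 294, nat_lit 267, nat_lit 211, nat_lit 49392017, nat_lit 12759842, nat_lit 4848141, nat_lit 3884353, false, false⟩,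
 nat_lit 0, nat_lit 2933, nat_lit 0, nat_lit 0, nat_lit 2740, nat_lit 0, nat_lit 0, nat_lit 0, nat_lit 0, nat_lit 0, nat_lit 0, nat_lit 0, nat_lit 0, nat_lit 0, nat_lit 52, nat_lit 250000, nat_lit 0, nat_lit 0, [(nat_lit 29, [(nat_lit 0, nat_lit 379), (nat_lit 4, nat_lit 621)])],
 ⟨p107_k12, nat_lit 0, nat_lit 0, nat_lit 252, nat_lit 0, nat_lit 261365, [nat_lit 977180000, nat_lit 303111201, nat_lit 114658800], [], [nat_lit 20234468913, nat_lit 21492104257, nat_lit 22766242680, nat_lit 23872154240, nat_lit 21108135809, nat_lit 22252171696, nat_lit 23444379160, nat_lit 24461557760], nat_lit 1271250, nat_lit 1271250, nat_lit 719601, nat_lit 1758000, nat_lit 490000, nat_lit 1100001, [nat_lit 230000, nat_lit 1100000, nat_lit 1785000], [nat_lit 57, nat_lit 40, nat_lit 40, nat_lit 80, nat_lit 7, nat_lit 317, nat_lit 100, nat_lit 10]⟩, ⟨p107_k11, nat_lit 0, nat_lit 0, nat_lit 821, nat_lit 0, nat_lit 739147, [nat_lit 0, nat_lit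 0, nat_lit 0], [], [nat_lit 0, nat_lit 0, nat_lit 0, nat_lit 0, nat_lit 0, nat_lit 0, nat_lit 0, nat_lit 0], nat_lit 1271250, nat_lit 1271250, nat_lit 719601, nat_lit 1758000, nat_lit 0, nat_lit 2712000, [nat_lit 1412500, nat_lit 1271250, nat_lit 1271250], [nat_lit 104, nat_lit 40, nat_lit 40, nat_lit 80, nat_lit 76, nat_lit 456, nat_lit 225, nat_lit 10]⟩,
 ⟨nat_lit 0, nat_lit 2237, ⟨.ofNat (nat_lit 370513), .ofNat (nat_lit 557013), .ofNat (nat_lit 414208), .ofNat (nat_lit 602531), .ofNat (nat_lit 385947), .ofNat (nat_lit 549998), .ofNat (nat_lit 434094), .ofNat (nat_lit 599967)⟩, ⟨.ofNat (nat_lit 192306), .ofNat (nat_lit 306334), .ofNat (nat_lit 200000), .ofNat (nat_lit 351885), .ofNat (nat_lit 199999), .ofNat (nat_lit 299996), .ofNat (nat_lit 200000), .ofNat (nat_lit 349998)⟩⟩, []⟩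
noncomputable def p107_l54 : Lf2 := ⟨nat_lit 0, nat_lit 30, [nat_lit 15, nat_lit 5, nat_lit 5, nat_lit 20], false, nat_lit 160, nat_lit 248, nat_lit 0, nat_lit 384, ⟨nat_lit 0, nat_lit 0, nat_lit 1000, nat_lit 5, nat_lit 185, nat_lit 1000, nat_lit 157, nat_lit 1000, nat_lit 61189, nat_lit 275, nat_lit 417, nat_lit 210, nat_lit 46688728, nat_lit 0, nat_lit 0, nat_lit 4407361, false, false⟩,
 nat_lit 0, nat_lit 3247, nat_lit 0, nat_lit 3982, nat_lit 2827, nat_lit 0, nat_lit 0, nat_lit 0, nat_lit 0, nat_lit 0, nat_lit 0, nat_lit 0, nat_lit 0, nat_lit 0, nat_lit 108, nat_lit 250000, nat_lit 0, nat_lit 0, [(nat_lit 26, [(nat_lit 4, nat_lit 1000)])],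
 ⟨p107_k18, nat_lit 0, nat_lit 0, nat_lit 189, nat_lit 0, nat_lit 158391, [nat_lit 1207600000, nat_lit 698800001, nat_lit 686800000], [], [nat_lit 19738962836, nat_lit 20931298248, nat_lit 22184607576, nat_lit 23111345136, nat_lit 21867352656, nat_lit 22907159663, nat_lit 24116635108, nat_lit 25294729458], nat_lit 1271250, nat_lit 1271250, nat_lit 490000, nat_lit 1740000, nat_lit 1100001, nat_lit 1853500, [nat_lit 230000, nat_lit 1100000, nat_lit 2127500], [nat_lit 81, nat_lit 40, nat_lit 40, nat_lit 80, nat_lit 13, nat_lit 345, nat_lit 125, nat_lit 9]⟩, ⟨p107_k11, nat_lit 0, nat_lit 0, nat_lit 680, nat_lit 0, nat_lit 410350, [nat_lit 0, nat_lit 0, nat_lit 0], [], [nat_lit 0, nat_lit 0, nat_lit 0, nat_lit 0, nat_lit 0, nat_lit 0, nat_lit 0, nat_lit 0], nat_lit 1271250, nat_lit 1271250, nat_lit 490000, nat_lit 1740000, nat_lit 0, nat_lit 2712000, [nat_lit 1412500, nat_lit 1271250, nat_lit 1271250], [nat_lit 104, nat_lit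 40, nat_lit 40, nat_lit 80, nat_lit 76, nat_lit 456, nat_lit 225, nat_lit 10]⟩,
 ⟨nat_lit 2236, nat_lit 3163, ⟨.ofNat (nat_lit 316827), .ofNat (nat_lit 560952), .ofNat (nat_lit 361011), .ofNat (nat_lit 605240), .ofNat (nat_lit 328641), .ofNat (nat_lit 557014), .ofNat (nat_lit 374063), .ofNat (nat_lit 602541)⟩, ⟨.ofNat (nat_lit 306116), .ofNat (nat_lit 440213), .ofNat (nat_lit 350426), .ofNat (nat_lit 484523), .ofNat (nat_lit 306337), .ofNat (nat_lit 431772), .ofNat (nat_lit 351886), .ofNat (nat_lit 477320)⟩⟩, [⟨nat_lit 16, nat_lit 53, nat_lit 100, nat_lit 87, nat_lit 320523588⟩]⟩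
noncomputable def p107_l55 : Lf2 := ⟨nat_lit 0, nat_lit 30, [nat_lit 15, nat_lit 5, nat_lit 5, nat_lit 20], true, nat_lit 160, nat_lit 208, nat_lit 0, nat_lit 384, ⟨nat_lit 0, nat_lit 298, nat_lit 702, nat_lit 5, nat_lit 196, nat_lit 1000, nat_lit 144, nat_lit 702, nat_lit 194400, nat_lit 323, nat_lit 267, nat_lit 211, nat_lit 46805934, nat_lit 12498140, nat_lit 7695926, nat_lit 4353378, false, false⟩,
 nat_lit 0, nat_lit 3032, nat_lit 0, nat_lit 0, nat_lit 2832, nat_lit 0, nat_lit 0, nat_lit 0, nat_lit 0, nat_lit 0, nat_lit 0, nat_lit 0, nat_lit 0, nat_lit 0, nat_lit 71, nat_lit 250000, nat_lit 0, nat_lit 0, [(nat_lit 29, [(nat_lit 0, nat_lit 298), (nat_lit 4, nat_lit 702)])],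
 ⟨p107_k12, nat_lit 0, nat_lit 0, nat_lit 262, nat_lit 0, nat_lit 379774, [nat_lit 1051560001, nat_lit 335534400, nat_lit 159405600], [], [nat_lit 20745414408, nat_lit 21936751143, nat_lit 23104572726, nat_lit 24463611040, nat_lit 21832167192, nat_lit 23193164487, nat_lit 24251278673, nat_lit 25513894509], nat_lit 1271250, nat_lit 1271250, nat_lit 719601, nat_lit 1758000, nat_lit 1100001, nat_lit 1511000, [nat_lit 230000, nat_lit 1100000, nat_lit 1785000], [nat_lit 57, nat_lit 40, nat_lit 40, nat_lit 80, nat_lit 7, nat_lit 345, nat_lit 125, nat_lit 10]⟩, C1.Rw.none,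
 ⟨nat_lit 0, nat_lit 2237, ⟨.ofNat (nat_lit 370513), .ofNat (nat_lit 557013), .ofNat (nat_lit 414208), .ofNat (nat_lit 602531), .ofNat (nat_lit 385947), .ofNat (nat_lit 549998), .ofNat (nat_lit 434094), .ofNat (nat_lit 599967)⟩, ⟨.ofNat (nat_lit 306334), .ofNat (nat_lit 374750), .ofNat (nat_lit 351885), .ofNat (nat_lit 420300), .ofNat (nat_lit 299996), .ofNat (nat_lit 359993), .ofNat (nat_lit 349998), .ofNat (nat_lit 409994)⟩⟩, [⟨nat_lit 16, nat_lit 44, nat_lit 100, nat_lit 92, nat_lit 168429785⟩, ⟨nat_lit 4, nat_lit 100, nat_lit 32, nat_lit 88, nat_lit 204010138⟩]⟩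
noncomputable def b_V_900_500_20_21 : St := ⟨true, nat_lit 1, nat_lit 1, nat_lit 1, nat_lit 120, nat_lit 360, nat_lit 400, nat_lit 200, nat_lit 240, nat_lit 80, nat_lit 240, nat_lit 80, nat_lit 120, nat_lit 8, nat_lit 248, nat_lit 0, nat_lit 384, nat_lit 80, nat_lit 120, nat_lit 0, nat_lit 0, nat_lit 0, nat_lit 0⟩
theorem d_V_900_500_20_21 (h : EB TB.env) : Dead b_V_900_500_20_21 := chkB_sound0 h (T :=
(.spl (nat_lit 4) (nat_lit 160)
(.spl (nat_lit 4) (nat_lit 80)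
(.spl (nat_lit 0) (nat_lit 380)
(.spl (nat_lit 0) (nat_lit 370)
(.spl (nat_lit 6) (nat_lit 112)
(.leaf p107_l46)
(.leaf p107_l47))
(.trZ (nat_lit 0) (nat_lit 100) (nat_lit 53) (nat_lit 85) (nat_lit 92) (.trZ (nat_lit 3) (nat_lit 100) (nat_lit 66) (nat_lit 45) (nat_lit 12) (.spl (nat_lit 0) (nat_lit 375)
(.leaf p107_l48)
(.trZ (nat_lit 0) (nat_lit 100) (nat_lit 48) (nat_lit 88) (nat_lit 100) (.trZ (nat_lit 3) (nat_lit 100) (nat_lit 61) (nat_lit 51) (nat_lit 16) (.leaf p107_l49)))))))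
(.trZ (nat_lit 0) (nat_lit 100) (nat_lit 44) (nat_lit 90) (nat_lit 112) (.trZ (nat_lit 3) (nat_lit 100) (nat_lit 54) (nat_lit 57) (nat_lit 20) (.spl (nat_lit 0) (nat_lit 390)
(.leaf p107_l50)
(.trZ (nat_lit 0) (nat_lit 100) (nat_lit 31) (nat_lit 95) (nat_lit 136) (.trZ (nat_lit 3) (nat_lit 100) (nat_lit 39) (nat_lit 72) (nat_lit 36) (.leaf p107_l51)))))))
(.spl (nat_lit 0) (nat_lit 380)
(.leaf p107_l52)
(.trZ (nat_lit 0) (nat_lit 100) (nat_lit 44) (nat_lit 90) (nat_lit 112) (.leaf p107_l53))))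
(.spl (nat_lit 0) (nat_lit 380)
(.leaf p107_l54)
(.trZ (nat_lit 0) (nat_lit 100) (nat_lit 44) (nat_lit 90) (nat_lit 112) (.trX (nat_lit 16) (nat_lit 44) (nat_lit 100) (nat_lit 92) (nat_lit 208) (.leaf p107_l55)))))) (by decide +kernel)
noncomputable def p107_l56 : Lf2 := ⟨nat_lit 0, nat_lit 28, [nat_lit 157, nat_lit 5, nat_lit 5, nat_lit 20], false, nat_lit 8, nat_lit 80, nat_lit 0, nat_lit 336, ⟨nat_lit 495, nat_lit 0, nat_lit 505, nat_lit 6, nat_lit 257, nat_lit 505, nat_lit 43, nat_lit 505, nat_lit 17067, nat_lit 247, nat_lit 187540, nat_lit 200, nat_lit 46383339, nat_lit 0, nat_lit 0, nat_lit 3533253, true, true⟩,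
 nat_lit 11329, nat_lit 0, nat_lit 0, nat_lit 0, nat_lit 3088, nat_lit 4855, nat_lit 118, nat_lit 0, nat_lit 0, nat_lit 391, nat_lit 0, nat_lit 0, nat_lit 0, nat_lit 0, nat_lit 0, nat_lit 202000, nat_lit 0, nat_lit 0, [(nat_lit 26, [(nat_lit 5, nat_lit 505)])],
 ⟨p107_k25, nat_lit 0, nat_lit 0, nat_lit 192, nat_lit 0, nat_lit 67898, [nat_lit 832556001, nat_lit 1316136001, nat_lit 1778316000], [], [nat_lit 24260716216, nat_lit 24870338453, nat_lit 28007096276, nat_lit 28534610284, nat_lit 23450136813, nat_lit 23960147661, nat_lit 26671070426, nat_lit 27097256678], nat_lit 1271250, nat_lit 1271250, nat_lit 1271250, nat_lit 1271250, nat_lit 43600, nat_lit 490000, [nat_lit 230000, nat_lit 780000, nat_lit 1762500], [nat_lit 54, nat_lit 40, nat_lit 40, nat_lit 80, nat_lit 43, nat_lit 226, nat_lit 20, nat_lit 6]⟩, ⟨p107_k5, nat_lit 0, nat_lit 0, nat_lit 460, nat_lit 0, nat_lit 175216, [nat_lit 3093750000, nat_lit 4871790000,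 nat_lit 8118000000], [], [nat_lit 20571305415, nat_lit 20673496455, nat_lit 22187236815, nat_lit 22195115605, nat_lit 17537527884, nat_lit 17277237003, nat_lit 18225117071, nat_lit 18182029533], nat_lit 1271250, nat_lit 1271250, nat_lit 1271250, nat_lit 1271250, nat_lit 0, nat_lit 2373000, [nat_lit 1412500, nat_lit 1271250, nat_lit 1271250], [nat_lit 118, nat_lit 40, nat_lit 40, nat_lit 80, nat_lit 73, nat_lit 456, nat_lit 225, nat_lit 10]⟩,
 ⟨nat_lit 2738, nat_lit 3163, ⟨.ofNat (nat_lit 560952), .ofNat (nat_lit 707240), .ofNat (nat_lit 583107), .ofNat (nat_lit 729395), .ofNat (nat_lit 559060), .ofNat (nat_lit 700807), .ofNat (nat_lit 581477), .ofNat (nat_lit 723224)⟩, ⟨.ofNat (nat_lit 20000), .ofNat (nat_lit 184209), .ofNat (nat_lit 20000), .ofNat (nat_lit 200000), .ofNat (nat_lit 20000), .ofNat (nat_lit 188310), .ofNat (nat_lit 20000), .ofNat (nat_lit 200000)⟩⟩, [⟨nat_lit 22, nat_lit 92, nat_lit 100, nat_lit 64, nat_lit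 57829622⟩]⟩
noncomputable def p107_l57 : Lf2 := ⟨nat_lit 0, nat_lit 28, [nat_lit 157, nat_lit 5, nat_lit 5, nat_lit 20], false, nat_lit 8, nat_lit 80, nat_lit 0, nat_lit 336, ⟨nat_lit 693, nat_lit 0, nat_lit 307, nat_lit 6, nat_lit 271, nat_lit 307, nat_lit 43, nat_lit 307, nat_lit 17067, nat_lit 247, nat_lit 280612, nat_lit 200, nat_lit 44969086, nat_lit 0, nat_lit 0, nat_lit 3616184, true, true⟩,
 nat_lit 17175, nat_lit 0, nat_lit 0, nat_lit 0, nat_lit 3971, nat_lit 8214, nat_lit 0, nat_lit 0, nat_lit 0, nat_lit 499, nat_lit 0, nat_lit 0, nat_lit 0, nat_lit 0, nat_lit 0, nat_lit 307000, nat_lit 0, nat_lit 0, [(nat_lit 26, [(nat_lit 6, nat_lit 307)])],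
 ⟨p107_k23, nat_lit 0, nat_lit 0, nat_lit 215, nat_lit 0, nat_lit 94736, [nat_lit 1314873200, nat_lit 1843338001, nat_lit 2097546000], [], [nat_lit 26483605169, nat_lit 27055797446, nat_lit 31189275308, nat_lit 31732664212, nat_lit 25176604609, nat_lit 25718269429, nat_lit 29069462165, nat_lit 29552115499], nat_lit 1271250, nat_lit 1271250, nat_lit 1271250, nat_lit 1271250, nat_lit 43600, nat_lit 490000, [nat_lit 230000, nat_lit 1100000, nat_lit 1785000], [nat_lit 57, nat_lit 40, nat_lit 40, nat_lit 80, nat_lit 7, nat_lit 226, nat_lit 20, nat_lit 6]⟩, ⟨p107_k8, nat_lit 0, nat_lit 0, nat_lit 475, nat_lit 0, nat_lit 209367, [nat_lit 4331250000, nat_lit 8227296000, nat_lit 11365200000], [], [nat_lit 27809737732, nat_lit 27846508162, nat_lit 31648933037, nat_lit 31720575483, nat_lit 22078265552, nat_lit 22022725969, nat_lit 24461418330, nat_lit 24454543019], nat_lit 1271250, nat_lit 1271250, nat_lit 1271250, nat_lit 1271250,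 nat_lit 0, nat_lit 2373000, [nat_lit 1412500, nat_lit 1271250, nat_lit 1271250], [nat_lit 104, nat_lit 40, nat_lit 40, nat_lit 80, nat_lit 76, nat_lit 483, nat_lit 250, nat_lit 10]⟩,
 ⟨nat_lit 2738, nat_lit 3163, ⟨.ofNat (nat_lit 583107), .ofNat (nat_lit 753776), .ofNat (nat_lit 605257), .ofNat (nat_lit 775931), .ofNat (nat_lit 581477), .ofNat (nat_lit 746849), .ofNat (nat_lit 603890), .ofNat (nat_lit 769266)⟩, ⟨.ofNat (nat_lit 20000), .ofNat (nat_lit 184209), .ofNat (nat_lit 20000), .ofNat (nat_lit 200000), .ofNat (nat_lit 20000), .ofNat (nat_lit 188310), .ofNat (nat_lit 20000), .ofNat (nat_lit 200000)⟩⟩, [⟨nat_lit 22, nat_lit 89, nat_lit 100, nat_lit 64, nat_lit 40732566⟩]⟩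
noncomputable def p107_l58 : Lf2 := ⟨nat_lit 1, nat_lit 30, [nat_lit 15, nat_lit 5, nat_lit 5, nat_lit 20], false, nat_lit 8, nat_lit 80, nat_lit 0, nat_lit 336, zbN0,
 nat_lit 0, nat_lit 0, nat_lit 0, nat_lit 0, nat_lit 0, nat_lit 0, nat_lit 0, nat_lit 0, nat_lit 0, nat_lit 0, nat_lit 0, nat_lit 0, nat_lit 0, nat_lit 0, nat_lit 0, nat_lit 0, nat_lit 0, nat_lit 0, [],
 C1.Rw.none, C1.Rw.none,
 zbF0, []⟩
noncomputable def p107_l59 : Lf2 := ⟨nat_lit 0, nat_lit 30, [nat_lit 15, nat_lit 5, nat_lit 5, nat_lit 20], false, nat_lit 12, nat_lit 80, nat_lit 0, nat_lit 160, ⟨nat_lit 695, nat_lit 0, nat_lit 305, nat_lit 6, nat_lit 252, nat_lit 305, nat_lit 45, nat_lit 305, nat_lit 19267, nat_lit 249, nat_lit 139762, nat_lit 200, nat_lit 46831262, nat_lit 0, nat_lit 0, nat_lit 3531855, true, true⟩,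
 nat_lit 12426, nat_lit 0, nat_lit 0, nat_lit 0, nat_lit 3154, nat_lit 5325, nat_lit 366, nat_lit 0, nat_lit 0, nat_lit 735, nat_lit 0, nat_lit 0, nat_lit 0, nat_lit 0, nat_lit 0, nat_lit 76250, nat_lit 0, nat_lit 0, [(nat_lit 26, [(nat_lit 4, nat_lit 305)])],
 ⟨p107_k26, nat_lit 0, nat_lit 0, nat_lit 232, nat_lit 0, nat_lit 128731, [nat_lit 873950000, nat_lit 2177534001, nat_lit 4753178000], [], [nat_lit 24782428961, nat_lit 25283141188, nat_lit 27915350430, nat_lit 28594917629, nat_lit 24047082618, nat_lit 24523287054, nat_lit 26567704412, nat_lit 26976943747], nat_lit 1271250, nat_lit 1271250, nat_lit 1271250, nat_lit 1271250, nat_lit 65850, nat_lit 490000, [nat_lit 230000, nat_lit 780000, nat_lit 1762500], [nat_lit 54, nat_lit 40, nat_lit 40, nat_lit 80, nat_lit 43, nat_lit 226, nat_lit 20, nat_lit 6]⟩, ⟨p107_k5, nat_lit 0, nat_lit 0, nat_lit 524, nat_lit 0, nat_lit 348643, [nat_lit 4343750000, nat_lit 6840190000,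 nat_lit 11398000000], [], [nat_lit 27327909695, nat_lit 27502786115, nat_lit 29097843215, nat_lit 29184430939, nat_lit 23631890060, nat_lit 23861963900, nat_lit 25436263772, nat_lit 25575856103], nat_lit 1271250, nat_lit 1271250, nat_lit 1271250, nat_lit 1271250, nat_lit 0, nat_lit 1100001, [nat_lit 1412500, nat_lit 1271250, nat_lit 1271250], [nat_lit 118, nat_lit 40, nat_lit 40, nat_lit 80, nat_lit 73, nat_lit 428, nat_lit 200, nat_lit 9]⟩,
 ⟨nat_lit 2236, nat_lit 2739, ⟨.ofNat (nat_lit 559060), .ofNat (nat_lit 683089), .ofNat (nat_lit 581477), .ofNat (nat_lit 705506), .ofNat (nat_lit 557014), .ofNat (nat_lit 676747), .ofNat (nat_lit 579788), .ofNat (nat_lit 699521)⟩, ⟨.ofNat (nat_lit 30000), .ofNat (nat_lit 188310), .ofNat (nat_lit 30000), .ofNat (nat_lit 200000), .ofNat (nat_lit 30000), .ofNat (nat_lit 192306), .ofNat (nat_lit 30000), .ofNat (nat_lit 200000)⟩⟩, []⟩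
noncomputable def p107_l60 : Lf2 := ⟨nat_lit 0, nat_lit 30, [nat_lit 15, nat_lit 5, nat_lit 5, nat_lit 20], false, nat_lit 12, nat_lit 80, nat_lit 160, nat_lit 336, ⟨nat_lit 289, nat_lit 120, nat_lit 591, nat_lit 6, nat_lit 252, nat_lit 711, nat_lit 45, nat_lit 591, nat_lit 19267, nat_lit 249, nat_lit 139762, nat_lit 200, nat_lit 46831262, nat_lit 18851948, nat_lit 1316790, nat_lit 3531855, true, true⟩,
 nat_lit 7320, nat_lit 0, nat_lit 0, nat_lit 0, nat_lit 2905, nat_lit 3137, nat_lit 73, nat_lit 0, nat_lit 0, nat_lit 314, nat_lit 0, nat_lit 0, nat_lit 0, nat_lit 0, nat_lit 0, nat_lit 177750, nat_lit 0, nat_lit 0, [(nat_lit 26, [(nat_lit 0, nat_lit 120), (nat_lit 4, nat_lit 591)])],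
 ⟨p107_k26, nat_lit 0, nat_lit 0, nat_lit 232, nat_lit 0, nat_lit 128731, [nat_lit 793202000, nat_lit 912286801, nat_lit 1083999600], [], [nat_lit 24402294334, nat_lit 25002570746, nat_lit 27473386940, nat_lit 27981569918, nat_lit 23609922281, nat_lit 24095399601, nat_lit 26304688607, nat_lit 26753703512], nat_lit 1271250, nat_lit 1271250, nat_lit 1271250, nat_lit 1271250, nat_lit 65850, nat_lit 490000, [nat_lit 230000, nat_lit 780000, nat_lit 1762500], [nat_lit 54, nat_lit 40, nat_lit 40, nat_lit 80, nat_lit 43, nat_lit 226, nat_lit 20, nat_lit 6]⟩, ⟨p107_k5, nat_lit 0, nat_lit 0, nat_lit 412, nat_lit 0, nat_lit 348643, [nat_lit 1806250000, nat_lit 2844338000, nat_lit 4739600000], [], [nat_lit 8080401930, nat_lit 8114331056, nat_lit 8728781841, nat_lit 8723445500, nat_lit 8857028635, nat_lit 8869101904, nat_lit 9459223878, nat_lit 9443364326], nat_lit 1271250, nat_lit 1271250, nat_lit 1271250, nat_lit 1271250, nat_lit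 1271250, nat_lit 1271250, [nat_lit 1412500, nat_lit 1271250, nat_lit 1271250], [nat_lit 118, nat_lit 40, nat_lit 40, nat_lit 80, nat_lit 73, nat_lit 456, nat_lit 225, nat_lit 9]⟩,
 ⟨nat_lit 2236, nat_lit 2739, ⟨.ofNat (nat_lit 559060), .ofNat (nat_lit 683089), .ofNat (nat_lit 581477), .ofNat (nat_lit 705506), .ofNat (nat_lit 557014), .ofNat (nat_lit 676747), .ofNat (nat_lit 579788), .ofNat (nat_lit 699521)⟩, ⟨.ofNat (nat_lit 30000), .ofNat (nat_lit 188310), .ofNat (nat_lit 30000), .ofNat (nat_lit 200000), .ofNat (nat_lit 30000), .ofNat (nat_lit 192306), .ofNat (nat_lit 30000), .ofNat (nat_lit 200000)⟩⟩, [⟨nat_lit 10, nat_lit 100, nat_lit 93, nat_lit 66, nat_lit 141146294⟩]⟩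
noncomputable def p107_l61 : Lf2 := ⟨nat_lit 0, nat_lit 30, [nat_lit 15, nat_lit 5, nat_lit 5, nat_lit 20], false, nat_lit 12, nat_lit 80, nat_lit 0, nat_lit 336, ⟨nat_lit 618, nat_lit 0, nat_lit 382, nat_lit 6, nat_lit 266, nat_lit 382, nat_lit 45, nat_lit 382, nat_lit 19267, nat_lit 249, nat_lit 231846, nat_lit 200, nat_lit 45380339, nat_lit 0, nat_lit 0, nat_lit 3619908, true, true⟩,
 nat_lit 11382, nat_lit 0, nat_lit 0, nat_lit 0, nat_lit 3401, nat_lit 5443, nat_lit 315, nat_lit 0, nat_lit 0, nat_lit 591, nat_lit 0, nat_lit 0, nat_lit 0, nat_lit 0, nat_lit 0, nat_lit 95500, nat_lit 0, nat_lit 0, [(nat_lit 26, [(nat_lit 4, nat_lit 382)])],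
 ⟨p107_k26, nat_lit 0, nat_lit 0, nat_lit 231, nat_lit 0, nat_lit 121699, [nat_lit 857780000, nat_lit 1898701600, nat_lit 3941567200], [], [nat_lit 24382042245, nat_lit 24810863518, nat_lit 29422501644, nat_lit 29759904337, nat_lit 22952997004, nat_lit 23198612221, nat_lit 27276725932, nat_lit 27602089298], nat_lit 1271250, nat_lit 1271250, nat_lit 1271250, nat_lit 1271250, nat_lit 65850, nat_lit 490000, [nat_lit 230000, nat_lit 780000, nat_lit 1762500], [nat_lit 54, nat_lit 40, nat_lit 40, nat_lit 80, nat_lit 43, nat_lit 226, nat_lit 20, nat_lit 6]⟩, ⟨p107_k27, nat_lit 0, nat_lit 0, nat_lit 494, nat_lit 0, nat_lit 282076, [nat_lit 3862500000, nat_lit 6082356000, nat_lit 10135200000], [], [nat_lit 23245699705, nat_lit 23387720695, nat_lit 25256292476, nat_lit 25398021163, nat_lit 19828581356, nat_lit 19787876371, nat_lit 21078844278, nat_lit 21050754387], nat_lit 1271250, nat_lit 1271250, nat_lit 1271250, nat_lit 1271250,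 nat_lit 0, nat_lit 2373000, [nat_lit 1412500, nat_lit 1271250, nat_lit 1271250], [nat_lit 118, nat_lit 40, nat_lit 40, nat_lit 80, nat_lit 73, nat_lit 483, nat_lit 250, nat_lit 10]⟩,
 ⟨nat_lit 2500, nat_lit 2739, ⟨.ofNat (nat_lit 581477), .ofNat (nat_lit 729131), .ofNat (nat_lit 603894), .ofNat (nat_lit 751548), .ofNat (nat_lit 580644), .ofNat (nat_lit 725805), .ofNat (nat_lit 603223), .ofNat (nat_lit 748386)⟩, ⟨.ofNat (nat_lit 30000), .ofNat (nat_lit 188310), .ofNat (nat_lit 30000), .ofNat (nat_lit 200000), .ofNat (nat_lit 30000), .ofNat (nat_lit 190321), .ofNat (nat_lit 30000), .ofNat (nat_lit 200000)⟩⟩, [⟨nat_lit 22, nat_lit 92, nat_lit 100, nat_lit 65, nat_lit 87559159⟩]⟩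
noncomputable def p107_l62 : Lf2 := ⟨nat_lit 0, nat_lit 30, [nat_lit 15, nat_lit 5, nat_lit 5, nat_lit 20], false, nat_lit 16, nat_lit 80, nat_lit 0, nat_lit 336, ⟨nat_lit 526, nat_lit 395, nat_lit 79, nat_lit 6, nat_lit 263, nat_lit 473, nat_lit 47, nat_lit 79, nat_lit 20417, nat_lit 250, nat_lit 202296, nat_lit 200, nat_lit 45622335, nat_lit 19983524, nat_lit 1394141, nat_lit 3631154, true, true⟩,
 nat_lit 9703, nat_lit 0, nat_lit 0, nat_lit 0, nat_lit 3160, nat_lit 4640, nat_lit 384, nat_lit 0, nat_lit 0, nat_lit 504, nat_lit 0, nat_lit 0, nat_lit 0, nat_lit 0, nat_lit 0, nat_lit 118500, nat_lit 0, nat_lit 0, [(nat_lit 26, [(nat_lit 0, nat_lit 395), (nat_lit 4, nat_lit 79)])],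
 ⟨p107_k28, nat_lit 0, nat_lit 0, nat_lit 241, nat_lit 0, nat_lit 148254, [nat_lit 853312001, nat_lit 2240211200, nat_lit 4980504400], [], [nat_lit 24314226837, nat_lit 24629960337, nat_lit 28597254443, nat_lit 28929681965, nat_lit 23201888483, nat_lit 23453086003, nat_lit 26782313540, nat_lit 27103421536], nat_lit 1271250, nat_lit 1271250, nat_lit 1271250, nat_lit 1271250, nat_lit 88400, nat_lit 490000, [nat_lit 230000, nat_lit 780000, nat_lit 1762500], [nat_lit 54, nat_lit 40, nat_lit 40, nat_lit 80, nat_lit 43, nat_lit 226, nat_lit 20, nat_lit 6]⟩, ⟨p107_k27, nat_lit 0, nat_lit 0, nat_lit 519, nat_lit 0, nat_lit 351186, [nat_lit 3287500000, nat_lit 5176892000, nat_lit 8626400000], [], [nat_lit 19768365372, nat_lit 19889074008, nat_lit 21252619631, nat_lit 21351687691, nat_lit 16868931720, nat_lit 16815407712, nat_lit 17779765839, nat_lit 17765260397], nat_lit 1271250, nat_lit 1271250, nat_lit 1271250, nat_lit 1271250,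 nat_lit 0, nat_lit 2373000, [nat_lit 1412500, nat_lit 1271250, nat_lit 1271250], [nat_lit 118, nat_lit 40, nat_lit 40, nat_lit 80, nat_lit 73, nat_lit 483, nat_lit 250, nat_lit 10]⟩,
 ⟨nat_lit 2236, nat_lit 2500, ⟨.ofNat (nat_lit 580644), .ofNat (nat_lit 714192), .ofNat (nat_lit 603223), .ofNat (nat_lit 736773), .ofNat (nat_lit 579788), .ofNat (nat_lit 710924), .ofNat (nat_lit 602562), .ofNat (nat_lit 733698)⟩, ⟨.ofNat (nat_lit 40000), .ofNat (nat_lit 190321), .ofNat (nat_lit 40000), .ofNat (nat_lit 200000), .ofNat (nat_lit 40000), .ofNat (nat_lit 192306), .ofNat (nat_lit 40000), .ofNat (nat_lit 200000)⟩⟩, [⟨nat_lit 22, nat_lit 93, nat_lit 100, nat_lit 67, nat_lit 74398266⟩]⟩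
noncomputable def p107_l63 : Lf2 := ⟨nat_lit 0, nat_lit 30, [nat_lit 15, nat_lit 5, nat_lit 5, nat_lit 20], false, nat_lit 80, nat_lit 160, nat_lit 0, nat_lit 384, ⟨nat_lit 0, nat_lit 0, nat_lit 1000, nat_lit 6, nat_lit 245, nat_lit 1000, nat_lit 104, nat_lit 1000, nat_lit 101400, nat_lit 293, nat_lit 61180, nat_lit 200, nat_lit 44814831, nat_lit 0, nat_lit 0, nat_lit 4266589, true, true⟩,
 nat_lit 0, nat_lit 3051, nat_lit 0, nat_lit 3447, nat_lit 2657, nat_lit 0, nat_lit 1, nat_lit 0, nat_lit 0, nat_lit 0, nat_lit 0, nat_lit 0, nat_lit 0, nat_lit 0, nat_lit 108, nat_lit 250000, nat_lit 0, nat_lit 0, [(nat_lit 26, [(nat_lit 4, nat_lit 1000)])],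
 ⟨p107_k18, nat_lit 0, nat_lit 0, nat_lit 165, nat_lit 0, nat_lit 96346, [nat_lit 1207600000, nat_lit 698800001, nat_lit 686800000], [], [nat_lit 21636965824, nat_lit 22141494531, nat_lit 22857737628, nat_lit 23328939218, nat_lit 22268159188, nat_lit 22730668401, nat_lit 23393173848, nat_lit 23825589174], nat_lit 1271250, nat_lit 1271250, nat_lit 1271250, nat_lit 1271250, nat_lit 490000, nat_lit 1100001, [nat_lit 230000, nat_lit 1100000, nat_lit 2127500], [nat_lit 81, nat_lit 40, nat_lit 40, nat_lit 80, nat_lit 13, nat_lit 345, nat_lit 125, nat_lit 9]⟩, ⟨p107_k11, nat_lit 0, nat_lit 0, nat_lit 497, nat_lit 0, nat_lit 249608, [nat_lit 0, nat_lit 0, nat_lit 0], [], [nat_lit 0, nat_lit 0, nat_lit 0, nat_lit 0, nat_lit 0, nat_lit 0, nat_lit 0, nat_lit 0], nat_lit 1271250, nat_lit 1271250, nat_lit 1271250, nat_lit 1271250, nat_lit 0, nat_lit 2712000, [nat_lit 1412500, nat_lit 1271250, nat_lit 1271250], [nat_lit 104, nat_lit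 40, nat_lit 40, nat_lit 80, nat_lit 76, nat_lit 483, nat_lit 250, nat_lit 10]⟩,
 ⟨nat_lit 2738, nat_lit 3163, ⟨.ofNat (nat_lit 560952), .ofNat (nat_lit 621905), .ofNat (nat_lit 605257), .ofNat (nat_lit 666215), .ofNat (nat_lit 559060), .ofNat (nat_lit 618121), .ofNat (nat_lit 603890), .ofNat (nat_lit 662956)⟩, ⟨.ofNat (nat_lit 184209), .ofNat (nat_lit 306116), .ofNat (nat_lit 200000), .ofNat (nat_lit 350426), .ofNat (nat_lit 188310), .ofNat (nat_lit 306433), .ofNat (nat_lit 200000), .ofNat (nat_lit 351268)⟩⟩, []⟩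
noncomputable def p107_l64 : Lf2 := ⟨nat_lit 0, nat_lit 30, [nat_lit 15, nat_lit 5, nat_lit 5, nat_lit 20], false, nat_lit 80, nat_lit 160, nat_lit 0, nat_lit 384, ⟨nat_lit 0, nat_lit 293, nat_lit 707, nat_lit 6, nat_lit 244, nat_lit 1000, nat_lit 105, nat_lit 707, nat_lit 104017, nat_lit 294, nat_lit 54662, nat_lit 200, nat_lit 44887392, nat_lit 17465421, nat_lit 4647187, nat_lit 4265920, true, true⟩,
 nat_lit 0, nat_lit 2965, nat_lit 0, nat_lit 2507, nat_lit 2675, nat_lit 0, nat_lit 0, nat_lit 0, nat_lit 0, nat_lit 0, nat_lit 0, nat_lit 0, nat_lit 0, nat_lit 0, nat_lit 46, nat_lit 250000, nat_lit 0, nat_lit 0, [(nat_lit 26, [(nat_lit 0, nat_lit 293), (nat_lit 4, nat_lit 707)])],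
 ⟨p107_k26, nat_lit 0, nat_lit 0, nat_lit 156, nat_lit 0, nat_lit 151516, [nat_lit 923016800, nat_lit 713244001, nat_lit 21563600], [], [nat_lit 22152253500, nat_lit 22683774500, nat_lit 23419762300, nat_lit 23915040800, nat_lit 22869129525, nat_lit 23355254750, nat_lit 24035438100, nat_lit 24489513600], nat_lit 1271250, nat_lit 1271250, nat_lit 1271250, nat_lit 1271250, nat_lit 490000, nat_lit 1100001, [nat_lit 230000, nat_lit 780000, nat_lit 1762500], [nat_lit 54, nat_lit 40, nat_lit 40, nat_lit 80, nat_lit 43, nat_lit 249, nat_lit 40, nat_lit 7]⟩, ⟨p107_k5, nat_lit 0, nat_lit 0, nat_lit 605, nat_lit 0, nat_lit 410350, [nat_lit 0, nat_lit 0, nat_lit 0], [], [nat_lit 0, nat_lit 0, nat_lit 0, nat_lit 0, nat_lit 0, nat_lit 0, nat_lit 0, nat_lit 0], nat_lit 1271250, nat_lit 1271250, nat_lit 1271250, nat_lit 1271250, nat_lit 0, nat_lit 2712000, [nat_lit 1412500, nat_lit 1271250, nat_lit 1271250], [nat_lit 118, nat_lit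 40, nat_lit 40, nat_lit 80, nat_lit 73, nat_lit 483, nat_lit 250, nat_lit 10]⟩,
 ⟨nat_lit 2236, nat_lit 2739, ⟨.ofNat (nat_lit 559060), .ofNat (nat_lit 618121), .ofNat (nat_lit 603890), .ofNat (nat_lit 662956), .ofNat (nat_lit 557014), .ofNat (nat_lit 614030), .ofNat (nat_lit 602558), .ofNat (nat_lit 659578)⟩, ⟨.ofNat (nat_lit 188310), .ofNat (nat_lit 306433), .ofNat (nat_lit 200000), .ofNat (nat_lit 351268), .ofNat (nat_lit 192306), .ofNat (nat_lit 306337), .ofNat (nat_lit 200000), .ofNat (nat_lit 351886)⟩⟩, []⟩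
noncomputable def p107_l65 : Lf2 := ⟨nat_lit 0, nat_lit 28, [nat_lit 157, nat_lit 5, nat_lit 5, nat_lit 20], true, nat_lit 80, nat_lit 160, nat_lit 0, nat_lit 364, ⟨nat_lit 0, nat_lit 382, nat_lit 618, nat_lit 7, nat_lit 264, nat_lit 1000, nat_lit 104, nat_lit 618, nat_lit 101400, nat_lit 293, nat_lit 138776, nat_lit 200, nat_lit 43001278, nat_lit 19489001, nat_lit 4509721, nat_lit 4375458, true, true⟩,
 nat_lit 0, nat_lit 3225, nat_lit 0, nat_lit 3035, nat_lit 2808, nat_lit 0, nat_lit 0, nat_lit 0, nat_lit 0, nat_lit 0, nat_lit 0, nat_lit 0, nat_lit 0, nat_lit 0, nat_lit 27, nat_lit 250000, nat_lit 0, nat_lit 0, [(nat_lit 26, [(nat_lit 0, nat_lit 382), (nat_lit 4, nat_lit 618)])],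
 ⟨p107_k23, nat_lit 0, nat_lit 0, nat_lit 150, nat_lit 0, nat_lit 97130, [nat_lit 879780000, nat_lit 451160801, nat_lit 18146400], [], [nat_lit 23312026528, nat_lit 23837882488, nat_lit 24833374720, nat_lit 25318504928, nat_lit 23911208704, nat_lit 24373415824, nat_lit 25265103808, nat_lit 25693724032], nat_lit 1271250, nat_lit 1271250, nat_lit 1271250, nat_lit 1271250, nat_lit 490000, nat_lit 1100001, [nat_lit 230000, nat_lit 1100000, nat_lit 1785000], [nat_lit 57, nat_lit 40, nat_lit 40, nat_lit 80, nat_lit 7, nat_lit 249, nat_lit 40, nat_lit 7]⟩, C1.Rw.none,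
 ⟨nat_lit 2738, nat_lit 3163, ⟨.ofNat (nat_lit 621905), .ofNat (nat_lit 682859), .ofNat (nat_lit 644060), .ofNat (nat_lit 705013), .ofNat (nat_lit 618121), .ofNat (nat_lit 677182), .ofNat (nat_lit 640539), .ofNat (nat_lit 699600)⟩, ⟨.ofNat (nat_lit 184209), .ofNat (nat_lit 306116), .ofNat (nat_lit 200000), .ofNat (nat_lit 350426), .ofNat (nat_lit 188310), .ofNat (nat_lit 306433), .ofNat (nat_lit 200000), .ofNat (nat_lit 351268)⟩⟩, []⟩
noncomputable def p107_l66 : Lf2 := ⟨nat_lit 0, nat_lit 28, [nat_lit 157, nat_lit 5, nat_lit 5, nat_lit 20], false, nat_lit 80, nat_lit 160, nat_lit 0, nat_lit 364, ⟨nat_lit 294, nat_lit 706, nat_lit 0, nat_lit 7, nat_lit 273, nat_lit 706, nat_lit 104, nat_lit 0, nat_lit 0, nat_lit 0, nat_lit 0, nat_lit 0, nat_lit 42183933, nat_lit 20355749, nat_lit 4460318, nat_lit 4416922, true, true⟩,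
 nat_lit 6689, nat_lit 0, nat_lit 0, nat_lit 0, nat_lit 4997, nat_lit 3199, nat_lit 47, nat_lit 0, nat_lit 0, nat_lit 176, nat_lit 0, nat_lit 0, nat_lit 0, nat_lit 0, nat_lit 0, nat_lit 282400, nat_lit 0, nat_lit 0, [(nat_lit 26, [(nat_lit 1, nat_lit 706)])],
 ⟨p107_k23, nat_lit 0, nat_lit 0, nat_lit 149, nat_lit 0, nat_lit 94736, [nat_lit 961439200, nat_lit 2073258400, nat_lit 2904850400], [], [nat_lit 25935612777, nat_lit 26624538292, nat_lit 27774637405, nat_lit 28466478610, nat_lit 25676796777, nat_lit 26299506127, nat_lit 27336186109, nat_lit 27904019334], nat_lit 1271250, nat_lit 1271250, nat_lit 1271250, nat_lit 1271250, nat_lit 490000, nat_lit 1100001, [nat_lit 230000, nat_lit 1100000, nat_lit 1785000], [nat_lit 57, nat_lit 40, nat_lit 40, nat_lit 80, nat_lit 7, nat_lit 249, nat_lit 40, nat_lit 7]⟩, ⟨p107_k8, nat_lit 0, nat_lit 0, nat_lit 469, nat_lit 0, nat_lit 209367, [nat_lit 1837500000, nat_lit 3490368000,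 nat_lit 4821600000], [], [nat_lit 12789969346, nat_lit 12792907820, nat_lit 13146467040, nat_lit 13125702408, nat_lit 10484408143, nat_lit 10439548738, nat_lit 10667182298, nat_lit 10605499051], nat_lit 1271250, nat_lit 1271250, nat_lit 1271250, nat_lit 1271250, nat_lit 0, nat_lit 2570750, [nat_lit 1412500, nat_lit 1271250, nat_lit 1271250], [nat_lit 104, nat_lit 40, nat_lit 40, nat_lit 80, nat_lit 76, nat_lit 483, nat_lit 250, nat_lit 10]⟩,
 ⟨nat_lit 2738, nat_lit 3163, ⟨.ofNat (nat_lit 644060), .ofNat (nat_lit 705013), .ofNat (nat_lit 666215), .ofNat (nat_lit 727168), .ofNat (nat_lit 640539), .ofNat (nat_lit 699600), .ofNat (nat_lit 662956), .ofNat (nat_lit 722017)⟩, ⟨.ofNat (nat_lit 184209), .ofNat (nat_lit 306116), .ofNat (nat_lit 200000), .ofNat (nat_lit 350426), .ofNat (nat_lit 188310), .ofNat (nat_lit 306433), .ofNat (nat_lit 200000), .ofNat (nat_lit 351268)⟩⟩, [⟨nat_lit 22, nat_lit 94, nat_lit 88, nat_lit 100,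 nat_lit 24438048⟩]⟩
noncomputable def p107_l67 : Lf2 := ⟨nat_lit 1, nat_lit 30, [nat_lit 15, nat_lit 5, nat_lit 5, nat_lit 20], false, nat_lit 80, nat_lit 160, nat_lit 0, nat_lit 364, zbN0,
 nat_lit 0, nat_lit 0, nat_lit 0, nat_lit 0, nat_lit 0, nat_lit 0, nat_lit 0, nat_lit 0, nat_lit 0, nat_lit 0, nat_lit 0, nat_lit 0, nat_lit 0, nat_lit 0, nat_lit 0, nat_lit 0, nat_lit 0, nat_lit 0, [],
 C1.Rw.none, C1.Rw.none,
 zbF0, []⟩
noncomputable def p107_l68 : Lf2 := ⟨nat_lit 0, nat_lit 30, [nat_lit 15, nat_lit 5, nat_lit 5, nat_lit 20], false, nat_lit 80, nat_lit 160, nat_lit 0, nat_lit 364, ⟨nat_lit 109, nat_lit 181, nat_lit 710, nat_lit 7, nat_lit 263, nat_lit 891, nat_lit 105, nat_lit 710, nat_lit 104017, nat_lit 294, nat_lit 127950, nat_lit 200, nat_lit 43152663, nat_lit 19296346, nat_lit 4550991, nat_lit 4371720, true, true⟩,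
 nat_lit 3122, nat_lit 0, nat_lit 0, nat_lit 2245, nat_lit 2817, nat_lit 1338, nat_lit 0, nat_lit 0, nat_lit 0, nat_lit 65, nat_lit 0, nat_lit 0, nat_lit 0, nat_lit 0, nat_lit 21, nat_lit 222750, nat_lit 0, nat_lit 0, [(nat_lit 26, [(nat_lit 0, nat_lit 181), (nat_lit 4, nat_lit 710)])],
 ⟨p107_k22, nat_lit 0, nat_lit 0, nat_lit 163, nat_lit 0, nat_lit 128731, [nat_lit 875491600, nat_lit 426711201, nat_lit 924800], [], [nat_lit 23963796087, nat_lit 24490322502, nat_lit 25445636272, nat_lit 25942499664, nat_lit 24527428076, nat_lit 24990185456, nat_lit 25848695243, nat_lit 26277793394], nat_lit 1271250, nat_lit 1271250, nat_lit 1271250, nat_lit 1271250, nat_lit 490000, nat_lit 1100001, [nat_lit 230000, nat_lit 1100000, nat_lit 1785000], [nat_lit 57, nat_lit 40, nat_lit 40, nat_lit 80, nat_lit 7, nat_lit 249, nat_lit 40, nat_lit 7]⟩, ⟨p107_k11, nat_lit 0, nat_lit 0, nat_lit 531, nat_lit 0, nat_lit 348643, [nat_lit 681250000,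 nat_lit 1294048000, nat_lit 1787600000], [], [nat_lit 4952480094, nat_lit 4947979540, nat_lit 5098545294, nat_lit 5084297884, nat_lit 3940295966, nat_lit 3916469257, nat_lit 4041983790, nat_lit 4015974657], nat_lit 1271250, nat_lit 1271250, nat_lit 1271250, nat_lit 1271250, nat_lit 0, nat_lit 2570750, [nat_lit 1412500, nat_lit 1271250, nat_lit 1271250], [nat_lit 104, nat_lit 40, nat_lit 40, nat_lit 80, nat_lit 76, nat_lit 483, nat_lit 250, nat_lit 10]⟩,
 ⟨nat_lit 2236, nat_lit 2739, ⟨.ofNat (nat_lit 618121), .ofNat (nat_lit 677182), .ofNat (nat_lit 640539), .ofNat (nat_lit 699600), .ofNat (nat_lit 614030), .ofNat (nat_lit 671045), .ofNat (nat_lit 636804), .ofNat (nat_lit 693819)⟩, ⟨.ofNat (nat_lit 188310), .ofNat (nat_lit 306433), .ofNat (nat_lit 200000), .ofNat (nat_lit 351268), .ofNat (nat_lit 192306), .ofNat (nat_lit 306337), .ofNat (nat_lit 200000), .ofNat (nat_lit 351886)⟩⟩, [⟨nat_lit 13, nat_lit 48, nat_lit 85,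 nat_lit 100, nat_lit 339253427⟩, ⟨nat_lit 22, nat_lit 94, nat_lit 88, nat_lit 100, nat_lit 7091033⟩]⟩
noncomputable def p107_l69 : Lf2 := ⟨nat_lit 0, nat_lit 30, [nat_lit 15, nat_lit 5, nat_lit 5, nat_lit 20], false, nat_lit 80, nat_lit 160, nat_lit 0, nat_lit 160, ⟨nat_lit 468, nat_lit 532, nat_lit 0, nat_lit 7, nat_lit 272, nat_lit 532, nat_lit 105, nat_lit 0, nat_lit 0, nat_lit 0, nat_lit 0, nat_lit 0, nat_lit 42323410, nat_lit 20175649, nat_lit 4500941, nat_lit 4414736, true, true⟩,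
 nat_lit 7385, nat_lit 0, nat_lit 0, nat_lit 0, nat_lit 4098, nat_lit 3531, nat_lit 288, nat_lit 0, nat_lit 0, nat_lit 276, nat_lit 0, nat_lit 0, nat_lit 0, nat_lit 0, nat_lit 0, nat_lit 133000, nat_lit 0, nat_lit 0, [(nat_lit 26, [(nat_lit 0, nat_lit 532)])],
 ⟨p107_k22, nat_lit 0, nat_lit 0, nat_lit 169, nat_lit 0, nat_lit 151516, [nat_lit 846283201, nat_lit 3106470401, nat_lit 5065833600], [], [nat_lit 25872195655, nat_lit 26406212645, nat_lit 27307584629, nat_lit 27918560016, nat_lit 25927998499, nat_lit 26413601973, nat_lit 27231507935, nat_lit 27678608605], nat_lit 1271250, nat_lit 1271250, nat_lit 1271250, nat_lit 1271250, nat_lit 490000, nat_lit 1100001, [nat_lit 230000, nat_lit 1100000, nat_lit 1785000], [nat_lit 57, nat_lit 40, nat_lit 40, nat_lit 80, nat_lit 7, nat_lit 249, nat_lit 40, nat_lit 7]⟩, ⟨p107_k8, nat_lit 0, nat_lit 0, nat_lit 525, nat_lit 0, nat_lit 351186, [nat_lit 2925000000, nat_lit 5556096000,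 nat_lit 7675200000], [], [nat_lit 20981895510, nat_lit 21044000292, nat_lit 21506774148, nat_lit 21540999168, nat_lit 18425618874, nat_lit 18497370456, nat_lit 18887971176, nat_lit 18935425704], nat_lit 1271250, nat_lit 1271250, nat_lit 1271250, nat_lit 1271250, nat_lit 0, nat_lit 1100001, [nat_lit 1412500, nat_lit 1271250, nat_lit 1271250], [nat_lit 104, nat_lit 40, nat_lit 40, nat_lit 80, nat_lit 76, nat_lit 428, nat_lit 200, nat_lit 9]⟩,
 ⟨nat_lit 2236, nat_lit 2739, ⟨.ofNat (nat_lit 640539), .ofNat (nat_lit 699600), .ofNat (nat_lit 662956), .ofNat (nat_lit 722017), .ofNat (nat_lit 636804), .ofNat (nat_lit 693819), .ofNat (nat_lit 659578), .ofNat (nat_lit 716594)⟩, ⟨.ofNat (nat_lit 188310), .ofNat (nat_lit 306433), .ofNat (nat_lit 200000), .ofNat (nat_lit 351268), .ofNat (nat_lit 192306), .ofNat (nat_lit 306337), .ofNat (nat_lit 200000), .ofNat (nat_lit 351886)⟩⟩, [⟨nat_lit 9, nat_lit 100, nat_lit 88, nat_lit 32,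 nat_lit 14416907⟩]⟩
noncomputable def p107_l70 : Lf2 := ⟨nat_lit 0, nat_lit 25, [nat_lit 44, nat_lit 5, nat_lit 5, nat_lit 20], false, nat_lit 80, nat_lit 160, nat_lit 160, nat_lit 364, ⟨nat_lit 389, nat_lit 611, nat_lit 0, nat_lit 7, nat_lit 272, nat_lit 611, nat_lit 103, nat_lit 0, nat_lit 0, nat_lit 0, nat_lit 0, nat_lit 0, nat_lit 42431415, nat_lit 20208512, nat_lit 4360073, nat_lit 4388251, true, true⟩,
 nat_lit 5857, nat_lit 0, nat_lit 0, nat_lit 0, nat_lit 4124, nat_lit 2801, nat_lit 253, nat_lit 0, nat_lit 0, nat_lit 215, nat_lit 0, nat_lit 0, nat_lit 0, nat_lit 0, nat_lit 0, nat_lit 152750, nat_lit 0, nat_lit 0, [(nat_lit 26, [(nat_lit 0, nat_lit 611)])],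
 ⟨p107_k29, nat_lit 0, nat_lit 0, nat_lit 167, nat_lit 0, nat_lit 143376, [nat_lit 832663600, nat_lit 2871619200, nat_lit 4634872800], [], [nat_lit 25746742302, nat_lit 26292072144, nat_lit 27326864584, nat_lit 27958667408, nat_lit 25793561574, nat_lit 26280501786, nat_lit 27177273028, nat_lit 27702773656], nat_lit 1271250, nat_lit 1271250, nat_lit 1271250, nat_lit 1271250, nat_lit 490000, nat_lit 1100001, [nat_lit 230000, nat_lit 1100000, nat_lit 1785000], [nat_lit 57, nat_lit 40, nat_lit 40, nat_lit 80, nat_lit 7, nat_lit 249, nat_lit 40, nat_lit 7]⟩, ⟨p107_k8, nat_lit 0, nat_lit 0, nat_lit 338, nat_lit 0, nat_lit 329417, [nat_lit 2431250000, nat_lit 4618208000, nat_lit 6379600000], [], [nat_lit 12796459107, nat_lit 12897988221, nat_lit 13313645639, nat_lit 13390244337, nat_lit 14365451413, nat_lit 14392523099, nat_lit 14724394330, nat_lit 14737836561], nat_lit 1271250, nat_lit 1271250, nat_lit 1271250, nat_lit 1271250,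 nat_lit 1100001, nat_lit 2846750, [nat_lit 1412500, nat_lit 1271250, nat_lit 1271250], [nat_lit 104, nat_lit 40, nat_lit 40, nat_lit 80, nat_lit 76, nat_lit 483, nat_lit 250, nat_lit 10]⟩,
 ⟨nat_lit 2236, nat_lit 2739, ⟨.ofNat (nat_lit 640539), .ofNat (nat_lit 699600), .ofNat (nat_lit 662956), .ofNat (nat_lit 722017), .ofNat (nat_lit 636804), .ofNat (nat_lit 693819), .ofNat (nat_lit 659578), .ofNat (nat_lit 716594)⟩, ⟨.ofNat (nat_lit 188310), .ofNat (nat_lit 306433), .ofNat (nat_lit 200000), .ofNat (nat_lit 328850), .ofNat (nat_lit 192306), .ofNat (nat_lit 306337), .ofNat (nat_lit 200000), .ofNat (nat_lit 329112)⟩⟩, [⟨nat_lit 19, nat_lit 100, nat_lit 68, nat_lit 84, nat_lit 95922112⟩, ⟨nat_lit 22, nat_lit 94, nat_lit 88, nat_lit 100, nat_lit 46632051⟩]⟩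
noncomputable def p107_l71 : Lf2 := ⟨nat_lit 0, nat_lit 30, [nat_lit 15, nat_lit 5, nat_lit 5, nat_lit 20], false, nat_lit 80, nat_lit 160, nat_lit 160, nat_lit 364, ⟨nat_lit 394, nat_lit 0, nat_lit 606, nat_lit 7, nat_lit 272, nat_lit 606, nat_lit 108, nat_lit 606, nat_lit 109350, nat_lit 296, nat_lit 172784, nat_lit 200, nat_lit 42167697, nat_lit 0, nat_lit 0, nat_lit 4452176, true, true⟩,
 nat_lit 7523, nat_lit 0, nat_lit 0, nat_lit 0, nat_lit 3584, nat_lit 3597, nat_lit 103, nat_lit 0, nat_lit 0, nat_lit 227, nat_lit 0, nat_lit 0, nat_lit 0, nat_lit 0, nat_lit 0, nat_lit 121200, nat_lit 0, nat_lit 0, [(nat_lit 26, [(nat_lit 3, nat_lit 606)])],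
 ⟨p107_k22, nat_lit 0, nat_lit 0, nat_lit 152, nat_lit 0, nat_lit 87275, [nat_lit 1065260001, nat_lit 1344092000, nat_lit 1927392000], [], [nat_lit 24973838024, nat_lit 25557502104, nat_lit 26559457144, nat_lit 27125667728, nat_lit 25177190144, nat_lit 25708690344, nat_lit 26624957848, nat_lit 27113769048], nat_lit 1271250, nat_lit 1271250, nat_lit 1271250, nat_lit 1271250, nat_lit 490000, nat_lit 1100001, [nat_lit 230000, nat_lit 1100000, nat_lit 1785000], [nat_lit 57, nat_lit 40, nat_lit 40, nat_lit 80, nat_lit 7, nat_lit 249, nat_lit 40, nat_lit 7]⟩, ⟨p107_k8, nat_lit 0, nat_lit 0, nat_lit 277, nat_lit 0, nat_lit 202287, [nat_lit 2462500000, nat_lit 4677568000, nat_lit 6461600000], [], [nat_lit 12303578293, nat_lit 12436456473, nat_lit 13047957945, nat_lit 13142257745, nat_lit 14213252637, nat_lit 14206264165, nat_lit 14581118858, nat_lit 14550030583], nat_lit 1271250, nat_lit 1271250, nat_lit 1271250, nat_lit 1271250,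 nat_lit 1100001, nat_lit 2846750, [nat_lit 1412500, nat_lit 1271250, nat_lit 1271250], [nat_lit 104, nat_lit 40, nat_lit 40, nat_lit 80, nat_lit 76, nat_lit 483, nat_lit 250, nat_lit 10]⟩,
 ⟨nat_lit 2236, nat_lit 2739, ⟨.ofNat (nat_lit 640539), .ofNat (nat_lit 699600), .ofNat (nat_lit 662956), .ofNat (nat_lit 722017), .ofNat (nat_lit 636804), .ofNat (nat_lit 693819), .ofNat (nat_lit 659578), .ofNat (nat_lit 716594)⟩, ⟨.ofNat (nat_lit 200000), .ofNat (nat_lit 328850), .ofNat (nat_lit 200000), .ofNat (nat_lit 351268), .ofNat (nat_lit 200000), .ofNat (nat_lit 329112), .ofNat (nat_lit 200000), .ofNat (nat_lit 351886)⟩⟩, [⟨nat_lit 10, nat_lit 57, nat_lit 87, nat_lit 100, nat_lit 146325665⟩]⟩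
noncomputable def p107_l72 : Lf2 := ⟨nat_lit 0, nat_lit 25, [nat_lit 44, nat_lit 5, nat_lit 5, nat_lit 20], false, nat_lit 80, nat_lit 160, nat_lit 0, nat_lit 336, ⟨nat_lit 193, nat_lit 807, nat_lit 0, nat_lit 8, nat_lit 291, nat_lit 807, nat_lit 102, nat_lit 0, nat_lit 0, nat_lit 0, nat_lit 0, nat_lit 0, nat_lit 40731605, nat_lit 22043143, nat_lit 4225252, nat_lit 4457528, true, true⟩,
 nat_lit 5458, nat_lit 0, nat_lit 0, nat_lit 0, nat_lit 3748, nat_lit 2339, nat_lit 99, nat_lit 0, nat_lit 0, nat_lit 112, nat_lit 0, nat_lit 0, nat_lit 0, nat_lit 0, nat_lit 0, nat_lit 322800, nat_lit 0, nat_lit 0, [(nat_lit 26, [(nat_lit 1, nat_lit 807)])],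
 ⟨p107_k19, nat_lit 0, nat_lit 0, nat_lit 157, nat_lit 0, nat_lit 90140, [nat_lit 964792400, nat_lit 1699194800, nat_lit 2180518800], [], [nat_lit 26507503405, nat_lit 27033118493, nat_lit 27956507073, nat_lit 28525114596, nat_lit 26600726189, nat_lit 27033294881, nat_lit 27876430791, nat_lit 28341167312], nat_lit 1271250, nat_lit 1271250, nat_lit 1271250, nat_lit 1271250, nat_lit 490000, nat_lit 1100001, [nat_lit 230000, nat_lit 1100000, nat_lit 1785000], [nat_lit 57, nat_lit 40, nat_lit 40, nat_lit 80, nat_lit 7, nat_lit 249, nat_lit 40, nat_lit 7]⟩, ⟨p107_k11, nat_lit 0, nat_lit 0, nat_lit 480, nat_lit 0, nat_lit 231183, [nat_lit 1206250000, nat_lit 2291296000, nat_lit 3165200000], [], [nat_lit 9082273412, nat_lit 9051048904, nat_lit 9477076067, nat_lit 9513922258, nat_lit 6966677892, nat_lit 6881669568, nat_lit 7199576816, nat_lit 7116467114], nat_lit 1271250, nat_lit 1271250, nat_lit 1271250, nat_lit 1271250, nat_lit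 0, nat_lit 2373000, [nat_lit 1412500, nat_lit 1271250, nat_lit 1271250], [nat_lit 104, nat_lit 40, nat_lit 40, nat_lit 80, nat_lit 76, nat_lit 483, nat_lit 250, nat_lit 10]⟩,
 ⟨nat_lit 2738, nat_lit 3163, ⟨.ofNat (nat_lit 682859), .ofNat (nat_lit 731621), .ofNat (nat_lit 727168), .ofNat (nat_lit 775931), .ofNat (nat_lit 677182), .ofNat (nat_lit 724432), .ofNat (nat_lit 722017), .ofNat (nat_lit 769266)⟩, ⟨.ofNat (nat_lit 184209), .ofNat (nat_lit 306116), .ofNat (nat_lit 200000), .ofNat (nat_lit 328271), .ofNat (nat_lit 188310), .ofNat (nat_lit 306433), .ofNat (nat_lit 200000), .ofNat (nat_lit 328850)⟩⟩, [⟨nat_lit 13, nat_lit 57, nat_lit 77, nat_lit 100, nat_lit 266769200⟩, ⟨nat_lit 10, nat_lit 74, nat_lit 74, nat_lit 100, nat_lit 1165206⟩]⟩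
noncomputable def p107_l73 : Lf2 := ⟨nat_lit 0, nat_lit 25, [nat_lit 44, nat_lit 5, nat_lit 5, nat_lit 20], false, nat_lit 80, nat_lit 160, nat_lit 0, nat_lit 336, ⟨nat_lit 143, nat_lit 857, nat_lit 0, nat_lit 8, nat_lit 284, nat_lit 857, nat_lit 103, nat_lit 0, nat_lit 0, nat_lit 0, nat_lit 0, nat_lit 0, nat_lit 41255901, nat_lit 21456229, nat_lit 4287870, nat_lit 4441339, true, true⟩,
 nat_lit 4072, nat_lit 0, nat_lit 0, nat_lit 0, nat_lit 3674, nat_lit 1745, nat_lit 180, nat_lit 0, nat_lit 0, nat_lit 84, nat_lit 0, nat_lit 0, nat_lit 0, nat_lit 0, nat_lit 0, nat_lit 214250, nat_lit 0, nat_lit 0, [(nat_lit 26, [(nat_lit 0, nat_lit 857)])],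
 ⟨p107_k29, nat_lit 0, nat_lit 0, nat_lit 172, nat_lit 0, nat_lit 143376, [nat_lit 790253201, nat_lit 2140310400, nat_lit 3292893600], [], [nat_lit 26921713184, nat_lit 27462852808, nat_lit 27808492075, nat_lit 28383762062, nat_lit 26951365178, nat_lit 27445209628, nat_lit 27761914724, nat_lit 28234790624], nat_lit 1271250, nat_lit 1271250, nat_lit 1271250, nat_lit 1271250, nat_lit 490000, nat_lit 1100001, [nat_lit 230000, nat_lit 1100000, nat_lit 1785000], [nat_lit 57, nat_lit 40, nat_lit 40, nat_lit 80, nat_lit 7, nat_lit 249, nat_lit 40, nat_lit 7]⟩, ⟨p107_k11, nat_lit 0, nat_lit 0, nat_lit 540, nat_lit 0, nat_lit 384246, [nat_lit 893750000, nat_lit 1697696000, nat_lit 2345200000], [], [nat_lit 6710852900, nat_lit 6704329120, nat_lit 6879603670, nat_lit 6919602682, nat_lit 5139766295, nat_lit 5078454017, nat_lit 5245335173, nat_lit 5184620896], nat_lit 1271250, nat_lit 1271250, nat_lit 1271250, nat_lit 1271250, nat_lit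 0, nat_lit 2373000, [nat_lit 1412500, nat_lit 1271250, nat_lit 1271250], [nat_lit 104, nat_lit 40, nat_lit 40, nat_lit 80, nat_lit 76, nat_lit 483, nat_lit 250, nat_lit 10]⟩,
 ⟨nat_lit 2236, nat_lit 2739, ⟨.ofNat (nat_lit 677182), .ofNat (nat_lit 706713), .ofNat (nat_lit 722017), .ofNat (nat_lit 751548), .ofNat (nat_lit 671045), .ofNat (nat_lit 699553), .ofNat (nat_lit 716594), .ofNat (nat_lit 745101)⟩, ⟨.ofNat (nat_lit 188310), .ofNat (nat_lit 306433), .ofNat (nat_lit 200000), .ofNat (nat_lit 328850), .ofNat (nat_lit 192306), .ofNat (nat_lit 306337), .ofNat (nat_lit 200000), .ofNat (nat_lit 329112)⟩⟩, [⟨nat_lit 13, nat_lit 49, nat_lit 83, nat_lit 100, nat_lit 337356041⟩, ⟨nat_lit 22, nat_lit 82, nat_lit 76, nat_lit 100, nat_lit 1426131⟩]⟩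
noncomputable def p107_l74 : Lf2 := ⟨nat_lit 0, nat_lit 27, [nat_lit 147, nat_lit 5, nat_lit 5, nat_lit 20], false, nat_lit 80, nat_lit 160, nat_lit 0, nat_lit 336, ⟨nat_lit 242, nat_lit 758, nat_lit 0, nat_lit 8, nat_lit 289, nat_lit 758, nat_lit 108, nat_lit 0, nat_lit 0, nat_lit 0, nat_lit 0, nat_lit 0, nat_lit 40589129, nat_lit 21818902, nat_lit 4591969, nat_lit 4519932, true, true⟩,
 nat_lit 7038, nat_lit 0, nat_lit 0, nat_lit 0, nat_lit 3674, nat_lit 3016, nat_lit 60, nat_lit 0, nat_lit 0, nat_lit 149, nat_lit 0, nat_lit 0, nat_lit 0, nat_lit 0, nat_lit 0, nat_lit 404000, nat_lit 0, nat_lit 0, [(nat_lit 26, [(nat_lit 1, nat_lit 590), (nat_lit 2, nat_lit 168)])],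
 ⟨p107_k20, nat_lit 0, nat_lit 0, nat_lit 160, nat_lit 0, nat_lit 88539, [nat_lit 1151258400, nat_lit 1419679200, nat_lit 1379984800], [], [nat_lit 26134727260, nat_lit 27264501008, nat_lit 27748630741, nat_lit 29055318695, nat_lit 26220861324, nat_lit 27211331356, nat_lit 27656383567, nat_lit 28848866185], nat_lit 1271250, nat_lit 1271250, nat_lit 1271250, nat_lit 1271250, nat_lit 490000, nat_lit 1100001, [nat_lit 230000, nat_lit 1100000, nat_lit 1785000], [nat_lit 57, nat_lit 40, nat_lit 40, nat_lit 80, nat_lit 7, nat_lit 249, nat_lit 40, nat_lit 7]⟩, ⟨p107_k11, nat_lit 0, nat_lit 0, nat_lit 479, nat_lit 0, nat_lit 228020, [nat_lit 1512500000, nat_lit 2873024000, nat_lit 3968800000], [], [nat_lit 11237031178, nat_lit 11313396626, nat_lit 11862824012, nat_lit 11904077145, nat_lit 8581924333, nat_lit 8470827884, nat_lit 8898722176, nat_lit 8883449433], nat_lit 1271250, nat_lit 1271250, nat_lit 1271250, nat_lit 1271250,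 nat_lit 0, nat_lit 2373000, [nat_lit 1412500, nat_lit 1271250, nat_lit 1271250], [nat_lit 104, nat_lit 40, nat_lit 40, nat_lit 80, nat_lit 76, nat_lit 483, nat_lit 250, nat_lit 10]⟩,
 ⟨nat_lit 2236, nat_lit 3163, ⟨.ofNat (nat_lit 682859), .ofNat (nat_lit 731621), .ofNat (nat_lit 727168), .ofNat (nat_lit 775931), .ofNat (nat_lit 671045), .ofNat (nat_lit 716658), .ofNat (nat_lit 716594), .ofNat (nat_lit 762206)⟩, ⟨.ofNat (nat_lit 200000), .ofNat (nat_lit 328271), .ofNat (nat_lit 200000), .ofNat (nat_lit 350426), .ofNat (nat_lit 200000), .ofNat (nat_lit 329112), .ofNat (nat_lit 200000), .ofNat (nat_lit 351886)⟩⟩, [⟨nat_lit 13, nat_lit 53, nat_lit 80, nat_lit 100, nat_lit 463932472⟩, ⟨nat_lit 22, nat_lit 82, nat_lit 76, nat_lit 100, nat_lit 1141629⟩]⟩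
noncomputable def p107_l75 : Lf2 := ⟨nat_lit 1, nat_lit 30, [nat_lit 15, nat_lit 5, nat_lit 5, nat_lit 20], false, nat_lit 80, nat_lit 160, nat_lit 0, nat_lit 336, zbN0,
 nat_lit 0, nat_lit 0, nat_lit 0, nat_lit 0, nat_lit 0, nat_lit 0, nat_lit 0, nat_lit 0, nat_lit 0, nat_lit 0, nat_lit 0, nat_lit 0, nat_lit 0, nat_lit 0, nat_lit 0, nat_lit 0, nat_lit 0, nat_lit 0, [],
 C1.Rw.none, C1.Rw.none,
 zbF0, []⟩
noncomputable def b_V_900_500_20_22 : St := ⟨true, nat_lit 1, nat_lit 1, nat_lit 1, nat_lit 120, nat_lit 360, nat_lit 380, nat_lit 200, nat_lit 240, nat_lit 240, nat_lit 352, nat_lit 80, nat_lit 120, nat_lit 8, nat_lit 160, nat_lit 0, nat_lit 384, nat_lit 80, nat_lit 120, nat_lit 0, nat_lit 0, nat_lit 0, nat_lit 0⟩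
theorem d_V_900_500_20_22 (h : EB TB.env) : Dead b_V_900_500_20_22 := chkB_sound0 h (T :=
(.spl (nat_lit 4) (nat_lit 80)
(.trX (nat_lit 22) (nat_lit 100) (nat_lit 76) (nat_lit 82) (nat_lit 336) (.spl (nat_lit 0) (nat_lit 370)
(.spl (nat_lit 6) (nat_lit 112)
(.spl (nat_lit 1) (nat_lit 220)
(.trX (nat_lit 13) (nat_lit 60) (nat_lit 74) (nat_lit 100) (nat_lit 336) (.leaf p107_l56))
(.leaf p107_l57))
(.leaf p107_l58))
(.trX (nat_lit 13) (nat_lit 54) (nat_lit 74) (nat_lit 100) (nat_lit 340) (.trZ (nat_lit 3) (nat_lit 100) (nat_lit 66) (nat_lit 45) (nat_lit 12) (.spl (nat_lit 1) (nat_lit 220)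
(.trX (nat_lit 13) (nat_lit 53) (nat_lit 80) (nat_lit 100) (nat_lit 324) (.spl (nat_lit 5) (nat_lit 160)
(.leaf p107_l59)
(.leaf p107_l60)))
(.spl (nat_lit 0) (nat_lit 375)
(.leaf p107_l61)
(.trX (nat_lit 13) (nat_lit 49) (nat_lit 78) (nat_lit 100) (nat_lit 332) (.trZ (nat_lit 3) (nat_lit 100) (nat_lit 61) (nat_lit 51) (nat_lit 16) (.leaf p107_l62)))))))))
(.spl (nat_lit 2) (nat_lit 320)
(.spl (nat_lit 2) (nat_lit 280)
(.spl (nat_lit 0) (nat_lit 370)
(.leaf p107_l63)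
(.leaf p107_l64))
(.trX (nat_lit 22) (nat_lit 94) (nat_lit 59) (nat_lit 100) (nat_lit 364) (.spl (nat_lit 0) (nat_lit 370)
(.spl (nat_lit 6) (nat_lit 112)
(.spl (nat_lit 1) (nat_lit 220)
(.leaf p107_l65)
(.leaf p107_l66))
(.leaf p107_l67))
(.spl (nat_lit 1) (nat_lit 220)
(.leaf p107_l68)
(.spl (nat_lit 5) (nat_lit 160)
(.leaf p107_l69)
(.spl (nat_lit 3) (nat_lit 100)
(.leaf p107_l70)
(.leaf p107_l71)))))))
(.trX (nat_lit 22) (nat_lit 82) (nat_lit 76) (nat_lit 100) (nat_lit 336) (.spl (nat_lit 3) (nat_lit 100)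
(.spl (nat_lit 0) (nat_lit 370)
(.leaf p107_l72)
(.trX (nat_lit 13) (nat_lit 54) (nat_lit 74) (nat_lit 100) (nat_lit 340) (.leaf p107_l73)))
(.spl (nat_lit 6) (nat_lit 108)
(.leaf p107_l74)
(.leaf p107_l75))))))) (by decide +kernel)
noncomputable def p107_l76 : Lf2 := ⟨nat_lit 0, nat_lit 30, [nat_lit 15, nat_lit 5, nat_lit 5, nat_lit 20], false, nat_lit 160, nat_lit 248, nat_lit 0, nat_lit 384, ⟨nat_lit 0, nat_lit 1000, nat_lit 0, nat_lit 6, nat_lit 245, nat_lit 1000, nat_lit 158, nat_lit 0, nat_lit 0, nat_lit 0, nat_lit 0, nat_lit 0, nat_lit 41762469, nat_lit 16852998, nat_lit 8384533, nat_lit 4843253, true, true⟩,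
 nat_lit 0, nat_lit 4171, nat_lit 0, nat_lit 2794, nat_lit 3632, nat_lit 0, nat_lit 0, nat_lit 0, nat_lit 0, nat_lit 0, nat_lit 0, nat_lit 0, nat_lit 0, nat_lit 0, nat_lit 0, nat_lit 250000, nat_lit 0, nat_lit 0, [(nat_lit 26, [(nat_lit 0, nat_lit 1000)])],
 ⟨p107_k18, nat_lit 0, nat_lit 0, nat_lit 79, nat_lit 0, nat_lit 96346, [nat_lit 765600000, nat_lit 1845600000, nat_lit 2928480000], [], [nat_lit 22705583584, nat_lit 23362965488, nat_lit 24208960832, nat_lit 24816220176, nat_lit 24861767223, nat_lit 25430232133, nat_lit 26141773828, nat_lit 26668591045], nat_lit 1271250, nat_lit 1271250, nat_lit 1271250, nat_lit 1271250, nat_lit 1100001, nat_lit 1853500, [nat_lit 230000, nat_lit 1100000, nat_lit 2127500], [nat_lit 81, nat_lit 40, nat_lit 40, nat_lit 80, nat_lit 13, nat_lit 373, nat_lit 150, nat_lit 9]⟩, ⟨p107_k11, nat_lit 0, nat_lit 0, nat_lit 497, nat_lit 0, nat_lit 249608, [nat_lit 0, nat_lit 0, nat_lit 0], [],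 [nat_lit 0, nat_lit 0, nat_lit 0, nat_lit 0, nat_lit 0, nat_lit 0, nat_lit 0, nat_lit 0], nat_lit 1271250, nat_lit 1271250, nat_lit 1271250, nat_lit 1271250, nat_lit 0, nat_lit 2712000, [nat_lit 1412500, nat_lit 1271250, nat_lit 1271250], [nat_lit 104, nat_lit 40, nat_lit 40, nat_lit 80, nat_lit 76, nat_lit 483, nat_lit 250, nat_lit 10]⟩,
 ⟨nat_lit 2738, nat_lit 3163, ⟨.ofNat (nat_lit 560952), .ofNat (nat_lit 621905), .ofNat (nat_lit 605257), .ofNat (nat_lit 666215), .ofNat (nat_lit 559060), .ofNat (nat_lit 618121), .ofNat (nat_lit 603890), .ofNat (nat_lit 662956)⟩, ⟨.ofNat (nat_lit 306116), .ofNat (nat_lit 440213), .ofNat (nat_lit 350426), .ofNat (nat_lit 484523), .ofNat (nat_lit 306433), .ofNat (nat_lit 436368), .ofNat (nat_lit 351268), .ofNat (nat_lit 481203)⟩⟩, [⟨nat_lit 4, nat_lit 100, nat_lit 57, nat_lit 87, nat_lit 207047861⟩]⟩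
noncomputable def p107_l77 : Lf2 := ⟨nat_lit 0, nat_lit 25, [nat_lit 44, nat_lit 5, nat_lit 5, nat_lit 20], true, nat_lit 160, nat_lit 208, nat_lit 0, nat_lit 376, ⟨nat_lit 0, nat_lit 333, nat_lit 667, nat_lit 6, nat_lit 244, nat_lit 1000, nat_lit 141, nat_lit 667, nat_lit 187267, nat_lit 321, nat_lit 54662, nat_lit 200, nat_lit 42848268, nat_lit 17004310, nat_lit 7147422, nat_lit 4672513, true, true⟩,
 nat_lit 0, nat_lit 3062, nat_lit 0, nat_lit 0, nat_lit 2763, nat_lit 0, nat_lit 0, nat_lit 0, nat_lit 0, nat_lit 0, nat_lit 0, nat_lit 0, nat_lit 0, nat_lit 0, nat_lit 37, nat_lit 250000, nat_lit 0, nat_lit 0, [(nat_lit 26, [(nat_lit 0, nat_lit 333), (nat_lit 4, nat_lit 667)])],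
 ⟨p107_k1, nat_lit 0, nat_lit 0, nat_lit 148, nat_lit 0, nat_lit 211591, [nat_lit 888520801, nat_lit 673564001, nat_lit 8971600], [], [nat_lit 22950624159, nat_lit 23442823760, nat_lit 24122669366, nat_lit 24582125186, nat_lit 23897482939, nat_lit 24357703145, nat_lit 24998813254, nat_lit 25577039328], nat_lit 1271250, nat_lit 1271250, nat_lit 1271250, nat_lit 1271250, nat_lit 1100001, nat_lit 1511000, [nat_lit 230000, nat_lit 780000, nat_lit 1762500], [nat_lit 54, nat_lit 40, nat_lit 40, nat_lit 80, nat_lit 43, nat_lit 272, nat_lit 60, nat_lit 7]⟩, C1.Rw.none,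
 ⟨nat_lit 2236, nat_lit 2739, ⟨.ofNat (nat_lit 559060), .ofNat (nat_lit 618121), .ofNat (nat_lit 603890), .ofNat (nat_lit 662956), .ofNat (nat_lit 557014), .ofNat (nat_lit 614030), .ofNat (nat_lit 602558), .ofNat (nat_lit 659578)⟩, ⟨.ofNat (nat_lit 306433), .ofNat (nat_lit 377306), .ofNat (nat_lit 328850), .ofNat (nat_lit 399724), .ofNat (nat_lit 306337), .ofNat (nat_lit 374756), .ofNat (nat_lit 329112), .ofNat (nat_lit 397530)⟩⟩, [⟨nat_lit 16, nat_lit 49, nat_lit 100, nat_lit 84, nat_lit 265616083⟩]⟩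
noncomputable def p107_l78 : Lf2 := ⟨nat_lit 0, nat_lit 27, [nat_lit 147, nat_lit 5, nat_lit 5, nat_lit 20], false, nat_lit 160, nat_lit 232, nat_lit 0, nat_lit 384, ⟨nat_lit 0, nat_lit 360, nat_lit 640, nat_lit 6, nat_lit 244, nat_lit 1000, nat_lit 157, nat_lit 640, nat_lit 156817, nat_lit 312, nat_lit 54662, nat_lit 200, nat_lit 41898205, nat_lit 16768718, nat_lit 8333077, nat_lit 4829893, true, true⟩,
 nat_lit 0, nat_lit 2964, nat_lit 0, nat_lit 3253, nat_lit 2674, nat_lit 0, nat_lit 0, nat_lit 0, nat_lit 0, nat_lit 0, nat_lit 0, nat_lit 0, nat_lit 0, nat_lit 0, nat_lit 31, nat_lit 250000, nat_lit 0, nat_lit 0, [(nat_lit 26, [(nat_lit 0, nat_lit 360), (nat_lit 4, nat_lit 640)])],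
 ⟨p107_k9, nat_lit 0, nat_lit 0, nat_lit 102, nat_lit 0, nat_lit 84716, [nat_lit 865536001, nat_lit 647680001, nat_lit 2272000], [], [nat_lit 23109228395, nat_lit 23605982989, nat_lit 24291751283, nat_lit 24755329949, nat_lit 24542408140, nat_lit 24990703978, nat_lit 25604374464, nat_lit 26023757477], nat_lit 1271250, nat_lit 1271250, nat_lit 1271250, nat_lit 1271250, nat_lit 1100001, nat_lit 1716500, [nat_lit 230000, nat_lit 780000, nat_lit 1762500], [nat_lit 54, nat_lit 40, nat_lit 40, nat_lit 80, nat_lit 43, nat_lit 272, nat_lit 60, nat_lit 7]⟩, ⟨p107_k5, nat_lit 0, nat_lit 0, nat_lit 479, nat_lit 0, nat_lit 228020, [nat_lit 0, nat_lit 0, nat_lit 0], [], [nat_lit 0, nat_lit 0, nat_lit 0, nat_lit 0, nat_lit 0, nat_lit 0, nat_lit 0, nat_lit 0], nat_lit 1271250, nat_lit 1271250, nat_lit 1271250, nat_lit 1271250, nat_lit 0, nat_lit 2712000, [nat_lit 1412500, nat_lit 1271250, nat_lit 1271250], [nat_lit 118, nat_lit 40,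 nat_lit 40, nat_lit 80, nat_lit 73, nat_lit 483, nat_lit 250, nat_lit 10]⟩,
 ⟨nat_lit 2236, nat_lit 2739, ⟨.ofNat (nat_lit 559060), .ofNat (nat_lit 618121), .ofNat (nat_lit 603890), .ofNat (nat_lit 662956), .ofNat (nat_lit 557014), .ofNat (nat_lit 614030), .ofNat (nat_lit 602558), .ofNat (nat_lit 659578)⟩, ⟨.ofNat (nat_lit 328850), .ofNat (nat_lit 435161), .ofNat (nat_lit 351268), .ofNat (nat_lit 457578), .ofNat (nat_lit 329112), .ofNat (nat_lit 431740), .ofNat (nat_lit 351886), .ofNat (nat_lit 454514)⟩⟩, [⟨nat_lit 4, nat_lit 100, nat_lit 48, nat_lit 89, nat_lit 228062712⟩]⟩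
noncomputable def p107_l79 : Lf2 := ⟨nat_lit 1, nat_lit 30, [nat_lit 15, nat_lit 5, nat_lit 5, nat_lit 20], false, nat_lit 160, nat_lit 232, nat_lit 0, nat_lit 384, zbN0,
 nat_lit 0, nat_lit 0, nat_lit 0, nat_lit 0, nat_lit 0, nat_lit 0, nat_lit 0, nat_lit 0, nat_lit 0, nat_lit 0, nat_lit 0, nat_lit 0, nat_lit 0, nat_lit 0, nat_lit 0, nat_lit 0, nat_lit 0, nat_lit 0, [],
 C1.Rw.none, C1.Rw.none,
 zbF0, []⟩
noncomputable def p107_l80 : Lf2 := ⟨nat_lit 0, nat_lit 25, [nat_lit 44, nat_lit 5, nat_lit 5, nat_lit 20], false, nat_lit 160, nat_lit 224, nat_lit 4, nat_lit 376, ⟨nat_lit 140, nat_lit 860, nat_lit 0, nat_lit 7, nat_lit 264, nat_lit 860, nat_lit 146, nat_lit 0, nat_lit 0, nat_lit 0, nat_lit 0, nat_lit 0, nat_lit 40818249, nat_lit 18842946, nat_lit 7338805, nat_lit 4826357, true, true⟩,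
 nat_lit 4297, nat_lit 0, nat_lit 0, nat_lit 2478, nat_lit 3742, nat_lit 1841, nat_lit 0, nat_lit 0, nat_lit 0, nat_lit 83, nat_lit 0, nat_lit 0, nat_lit 0, nat_lit 0, nat_lit 0, nat_lit 215000, nat_lit 0, nat_lit 0, [(nat_lit 26, [(nat_lit 0, nat_lit 860)])],
 ⟨p107_k19, nat_lit 0, nat_lit 0, nat_lit 80, nat_lit 0, nat_lit 61828, [nat_lit 789736000, nat_lit 2131392001, nat_lit 3276528000], [], [nat_lit 24441840193, nat_lit 25057769407, nat_lit 26170319433, nat_lit 26734393503, nat_lit 25777928577, nat_lit 26334473700, nat_lit 27331101667, nat_lit 27842034361], nat_lit 1271250, nat_lit 1271250, nat_lit 1271250, nat_lit 1271250, nat_lit 1100001, nat_lit 1648000, [nat_lit 230000, nat_lit 1100000, nat_lit 1785000], [nat_lit 57, nat_lit 40, nat_lit 40, nat_lit 80, nat_lit 7, nat_lit 272, nat_lit 60, nat_lit 7]⟩, ⟨p107_k11, nat_lit 0, nat_lit 0, nat_lit 450, nat_lit 0, nat_lit 157189, [nat_lit 875000000, nat_lit 1662080000,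 nat_lit 2296000000], [], [nat_lit 6266883908, nat_lit 6256672999, nat_lit 6570255585, nat_lit 6598201576, nat_lit 5129232903, nat_lit 5096443629, nat_lit 5262206815, nat_lit 5218206411], nat_lit 1271250, nat_lit 1271250, nat_lit 1271250, nat_lit 1271250, nat_lit 21650, nat_lit 2662850, [nat_lit 1412500, nat_lit 1271250, nat_lit 1271250], [nat_lit 104, nat_lit 40, nat_lit 40, nat_lit 80, nat_lit 76, nat_lit 483, nat_lit 250, nat_lit 10]⟩,
 ⟨nat_lit 2738, nat_lit 3163, ⟨.ofNat (nat_lit 621905), .ofNat (nat_lit 682859), .ofNat (nat_lit 644060), .ofNat (nat_lit 705013), .ofNat (nat_lit 618121), .ofNat (nat_lit 677182), .ofNat (nat_lit 640539), .ofNat (nat_lit 699600)⟩, ⟨.ofNat (nat_lit 306116), .ofNat (nat_lit 403641), .ofNat (nat_lit 328271), .ofNat (nat_lit 425796), .ofNat (nat_lit 306433), .ofNat (nat_lit 400931), .ofNat (nat_lit 328850), .ofNat (nat_lit 423348)⟩⟩, [⟨nat_lit 4, nat_lit 100, nat_lit 57, nat_lit 84, nat_lit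 245731015⟩, ⟨nat_lit 7, nat_lit 59, nat_lit 100, nat_lit 84, nat_lit 11088400⟩]⟩
noncomputable def p107_l81 : Lf2 := ⟨nat_lit 0, nat_lit 25, [nat_lit 44, nat_lit 5, nat_lit 5, nat_lit 20], false, nat_lit 160, nat_lit 224, nat_lit 4, nat_lit 364, ⟨nat_lit 277, nat_lit 723, nat_lit 0, nat_lit 7, nat_lit 273, nat_lit 723, nat_lit 146, nat_lit 0, nat_lit 0, nat_lit 0, nat_lit 0, nat_lit 0, nat_lit 40080392, nat_lit 19665804, nat_lit 7253804, nat_lit 4862356, true, true⟩,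
 nat_lit 6316, nat_lit 0, nat_lit 0, nat_lit 0, nat_lit 5501, nat_lit 3020, nat_lit 0, nat_lit 0, nat_lit 0, nat_lit 166, nat_lit 0, nat_lit 0, nat_lit 0, nat_lit 0, nat_lit 0, nat_lit 236700, nat_lit 0, nat_lit 0, [(nat_lit 26, [(nat_lit 0, nat_lit 350), (nat_lit 1, nat_lit 373)])],
 ⟨p107_k19, nat_lit 0, nat_lit 0, nat_lit 117, nat_lit 0, nat_lit 87250, [nat_lit 890043600, nat_lit 2266077200, nat_lit 3383673200], [], [nat_lit 26423898616, nat_lit 27079141166, nat_lit 28143544172, nat_lit 28739563597, nat_lit 27409184584, nat_lit 27996700682, nat_lit 28929508140, nat_lit 29466495277], nat_lit 1271250, nat_lit 1271250, nat_lit 1271250, nat_lit 1271250, nat_lit 1100001, nat_lit 1648000, [nat_lit 230000, nat_lit 1100000, nat_lit 1785000], [nat_lit 57, nat_lit 40, nat_lit 40, nat_lit 80, nat_lit 7, nat_lit 272, nat_lit 60, nat_lit 7]⟩, ⟨p107_k8, nat_lit 0, nat_lit 0, nat_lit 457, nat_lit 0, nat_lit 190456, [nat_lit 1731250000,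 nat_lit 3288544000, nat_lit 4542800000], [], [nat_lit 11943801432, nat_lit 11946449179, nat_lit 12278996014, nat_lit 12259329614, nat_lit 9866277342, nat_lit 9823728912, nat_lit 10038385636, nat_lit 9982258133], nat_lit 1271250, nat_lit 1271250, nat_lit 1271250, nat_lit 1271250, nat_lit 21650, nat_lit 2577650, [nat_lit 1412500, nat_lit 1271250, nat_lit 1271250], [nat_lit 104, nat_lit 40, nat_lit 40, nat_lit 80, nat_lit 76, nat_lit 483, nat_lit 250, nat_lit 10]⟩,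
 ⟨nat_lit 2738, nat_lit 3163, ⟨.ofNat (nat_lit 644060), .ofNat (nat_lit 705013), .ofNat (nat_lit 666215), .ofNat (nat_lit 727168), .ofNat (nat_lit 640539), .ofNat (nat_lit 699600), .ofNat (nat_lit 662956), .ofNat (nat_lit 722017)⟩, ⟨.ofNat (nat_lit 306116), .ofNat (nat_lit 403641), .ofNat (nat_lit 328271), .ofNat (nat_lit 425796), .ofNat (nat_lit 306433), .ofNat (nat_lit 400931), .ofNat (nat_lit 328850), .ofNat (nat_lit 423348)⟩⟩, [⟨nat_lit 4, nat_lit 100, nat_lit 57, nat_lit 84, nat_lit 241715560⟩, ⟨nat_lit 7, nat_lit 68, nat_lit 100, nat_lit 84, nat_lit 27394927⟩]⟩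
noncomputable def p107_l82 : Lf2 := ⟨nat_lit 1, nat_lit 25, [nat_lit 44, nat_lit 5, nat_lit 5, nat_lit 20], false, nat_lit 160, nat_lit 224, nat_lit 4, nat_lit 376, zbN0,
 nat_lit 0, nat_lit 0, nat_lit 0, nat_lit 0, nat_lit 0, nat_lit 0, nat_lit 0, nat_lit 0, nat_lit 0, nat_lit 0, nat_lit 0, nat_lit 0, nat_lit 0, nat_lit 0, nat_lit 0, nat_lit 0, nat_lit 0, nat_lit 0, [],
 C1.Rw.none, C1.Rw.none,
 zbF0, []⟩
noncomputable def p107_l83 : Lf2 := ⟨nat_lit 0, nat_lit 28, [nat_lit 157, nat_lit 5, nat_lit 5, nat_lit 20], true, nat_lit 160, nat_lit 248, nat_lit 4, nat_lit 384, ⟨nat_lit 0, nat_lit 1000, nat_lit 0, nat_lit 7, nat_lit 269, nat_lit 1000, nat_lit 162, nat_lit 0, nat_lit 0, nat_lit 0, nat_lit 0, nat_lit 0, nat_lit 39575531, nat_lit 18963375, nat_lit 8461094, nat_lit 4993339, true, true⟩,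
 nat_lit 0, nat_lit 3872, nat_lit 0, nat_lit 4517, nat_lit 3372, nat_lit 0, nat_lit 0, nat_lit 0, nat_lit 0, nat_lit 0, nat_lit 0, nat_lit 0, nat_lit 0, nat_lit 0, nat_lit 0, nat_lit 250000, nat_lit 0, nat_lit 0, [(nat_lit 26, [(nat_lit 0, nat_lit 1000)])],
 ⟨p107_k23, nat_lit 0, nat_lit 0, nat_lit 76, nat_lit 0, nat_lit 44715, [nat_lit 765600000, nat_lit 1715200000, nat_lit 2512800000], [], [nat_lit 24203627072, nat_lit 24790393996, nat_lit 25872824912, nat_lit 26411522532, nat_lit 26146459532, nat_lit 26656895631, nat_lit 27588636594, nat_lit 28058928276], nat_lit 1271250, nat_lit 1271250, nat_lit 1271250, nat_lit 1271250, nat_lit 1100001, nat_lit 1853500, [nat_lit 230000, nat_lit 1100000, nat_lit 1785000], [nat_lit 57, nat_lit 40, nat_lit 40, nat_lit 80, nat_lit 7, nat_lit 289, nat_lit 75, nat_lit 8]⟩, C1.Rw.none,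
 ⟨nat_lit 2738, nat_lit 3163, ⟨.ofNat (nat_lit 621905), .ofNat (nat_lit 682859), .ofNat (nat_lit 666215), .ofNat (nat_lit 727168), .ofNat (nat_lit 618121), .ofNat (nat_lit 677182), .ofNat (nat_lit 662956), .ofNat (nat_lit 722017)⟩, ⟨.ofNat (nat_lit 328271), .ofNat (nat_lit 462368), .ofNat (nat_lit 350426), .ofNat (nat_lit 484523), .ofNat (nat_lit 328850), .ofNat (nat_lit 458785), .ofNat (nat_lit 351268), .ofNat (nat_lit 481203)⟩⟩, [⟨nat_lit 4, nat_lit 100, nat_lit 57, nat_lit 90, nat_lit 184883042⟩]⟩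
noncomputable def p107_l84 : Lf2 := ⟨nat_lit 1, nat_lit 30, [nat_lit 15, nat_lit 5, nat_lit 5, nat_lit 20], false, nat_lit 160, nat_lit 248, nat_lit 4, nat_lit 384, zbN0,
 nat_lit 0, nat_lit 0, nat_lit 0, nat_lit 0, nat_lit 0, nat_lit 0, nat_lit 0, nat_lit 0, nat_lit 0, nat_lit 0, nat_lit 0, nat_lit 0, nat_lit 0, nat_lit 0, nat_lit 0, nat_lit 0, nat_lit 0, nat_lit 0, [],
 C1.Rw.none, C1.Rw.none,
 zbF0, []⟩
noncomputable def p107_l85 : Lf2 := ⟨nat_lit 0, nat_lit 25, [nat_lit 44, nat_lit 5, nat_lit 5, nat_lit 20], false, nat_lit 160, nat_lit 208, nat_lit 4, nat_lit 376, ⟨nat_lit 0, nat_lit 900, nat_lit 100, nat_lit 7, nat_lit 263, nat_lit 1000, nat_lit 141, nat_lit 100, nat_lit 187267, nat_lit 321, nat_lit 127950, nat_lit 200, nat_lit 41259461, nat_lit 18752285, nat_lit 6988254, nat_lit 4767103, true, true⟩,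
 nat_lit 0, nat_lit 3137, nat_lit 0, nat_lit 3104, nat_lit 2830, nat_lit 0, nat_lit 181, nat_lit 0, nat_lit 0, nat_lit 0, nat_lit 0, nat_lit 0, nat_lit 0, nat_lit 0, nat_lit 0, nat_lit 245000, nat_lit 0, nat_lit 0, [(nat_lit 26, [(nat_lit 0, nat_lit 900), (nat_lit 3, nat_lit 100)])],
 ⟨p107_k29, nat_lit 0, nat_lit 0, nat_lit 133, nat_lit 0, nat_lit 121404, [nat_lit 803840001, nat_lit 1460680000, nat_lit 2061520000], [], [nat_lit 24646427191, nat_lit 25128703280, nat_lit 26009999510, nat_lit 26456643260, nat_lit 25511756192, nat_lit 25962672224, nat_lit 26784302432, nat_lit 27216243442], nat_lit 1271250, nat_lit 1271250, nat_lit 1271250, nat_lit 1271250, nat_lit 1100001, nat_lit 1511000, [nat_lit 230000, nat_lit 1100000, nat_lit 1785000], [nat_lit 57, nat_lit 40, nat_lit 40, nat_lit 80, nat_lit 7, nat_lit 272, nat_lit 60, nat_lit 7]⟩, ⟨p107_k11, nat_lit 0, nat_lit 0, nat_lit 518, nat_lit 0, nat_lit 325362, [nat_lit 0,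 nat_lit 0, nat_lit 0], [], [nat_lit 0, nat_lit 0, nat_lit 0, nat_lit 0, nat_lit 0, nat_lit 0, nat_lit 0, nat_lit 0], nat_lit 1271250, nat_lit 1271250, nat_lit 1271250, nat_lit 1271250, nat_lit 21650, nat_lit 2662850, [nat_lit 1412500, nat_lit 1271250, nat_lit 1271250], [nat_lit 104, nat_lit 40, nat_lit 40, nat_lit 80, nat_lit 76, nat_lit 483, nat_lit 250, nat_lit 10]⟩,
 ⟨nat_lit 2236, nat_lit 2739, ⟨.ofNat (nat_lit 618121), .ofNat (nat_lit 677182), .ofNat (nat_lit 640539), .ofNat (nat_lit 699600), .ofNat (nat_lit 614030), .ofNat (nat_lit 671045), .ofNat (nat_lit 636804), .ofNat (nat_lit 693819)⟩, ⟨.ofNat (nat_lit 306433), .ofNat (nat_lit 377306), .ofNat (nat_lit 328850), .ofNat (nat_lit 399724), .ofNat (nat_lit 306337), .ofNat (nat_lit 374756), .ofNat (nat_lit 329112), .ofNat (nat_lit 397530)⟩⟩, [⟨nat_lit 13, nat_lit 53, nat_lit 80, nat_lit 100, nat_lit 295665026⟩, ⟨nat_lit 16, nat_lit 49, nat_lit 100, nat_lit 84, nat_lit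 213643810⟩]⟩
noncomputable def p107_l86 : Lf2 := ⟨nat_lit 0, nat_lit 26, [nat_lit 108, nat_lit 5, nat_lit 5, nat_lit 20], false, nat_lit 160, nat_lit 232, nat_lit 4, nat_lit 384, ⟨nat_lit 0, nat_lit 1000, nat_lit 0, nat_lit 7, nat_lit 263, nat_lit 1000, nat_lit 157, nat_lit 0, nat_lit 0, nat_lit 0, nat_lit 0, nat_lit 0, nat_lit 40376672, nat_lit 18480440, nat_lit 8142888, nat_lit 4920230, true, true⟩,
 nat_lit 0, nat_lit 3022, nat_lit 0, nat_lit 5933, nat_lit 2726, nat_lit 0, nat_lit 231, nat_lit 0, nat_lit 0, nat_lit 0, nat_lit 0, nat_lit 0, nat_lit 0, nat_lit 0, nat_lit 0, nat_lit 250000, nat_lit 0, nat_lit 0, [(nat_lit 26, [(nat_lit 0, nat_lit 1000)])],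
 ⟨p107_k30, nat_lit 0, nat_lit 0, nat_lit 109, nat_lit 0, nat_lit 62095, [nat_lit 765600000, nat_lit 1368800000, nat_lit 2512800000], [], [nat_lit 24514911668, nat_lit 24981761602, nat_lit 25857869972, nat_lit 26298697522, nat_lit 25822658289, nat_lit 26244764074, nat_lit 27061640325, nat_lit 27570893243], nat_lit 1271250, nat_lit 1271250, nat_lit 1271250, nat_lit 1271250, nat_lit 1100001, nat_lit 1716500, [nat_lit 230000, nat_lit 780000, nat_lit 1762500], [nat_lit 54, nat_lit 40, nat_lit 40, nat_lit 80, nat_lit 43, nat_lit 272, nat_lit 60, nat_lit 7]⟩, ⟨p107_k5, nat_lit 0, nat_lit 0, nat_lit 448, nat_lit 0, nat_lit 166775, [nat_lit 0, nat_lit 0, nat_lit 0], [], [nat_lit 0, nat_lit 0, nat_lit 0, nat_lit 0, nat_lit 0, nat_lit 0, nat_lit 0, nat_lit 0], nat_lit 1271250, nat_lit 1271250, nat_lit 1271250, nat_lit 1271250, nat_lit 21650, nat_lit 2719650, [nat_lit 1412500, nat_lit 1271250, nat_lit 1271250], [nat_lit 118, nat_lit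 40, nat_lit 40, nat_lit 80, nat_lit 73, nat_lit 483, nat_lit 250, nat_lit 10]⟩,
 ⟨nat_lit 2236, nat_lit 2739, ⟨.ofNat (nat_lit 618121), .ofNat (nat_lit 677182), .ofNat (nat_lit 640539), .ofNat (nat_lit 699600), .ofNat (nat_lit 614030), .ofNat (nat_lit 671045), .ofNat (nat_lit 636804), .ofNat (nat_lit 693819)⟩, ⟨.ofNat (nat_lit 328850), .ofNat (nat_lit 435161), .ofNat (nat_lit 351268), .ofNat (nat_lit 457578), .ofNat (nat_lit 329112), .ofNat (nat_lit 431740), .ofNat (nat_lit 351886), .ofNat (nat_lit 454514)⟩⟩, [⟨nat_lit 13, nat_lit 48, nat_lit 85, nat_lit 100, nat_lit 345356864⟩, ⟨nat_lit 4, nat_lit 100, nat_lit 48, nat_lit 89, nat_lit 223012211⟩]⟩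
noncomputable def p107_l87 : Lf2 := ⟨nat_lit 1, nat_lit 30, [nat_lit 15, nat_lit 5, nat_lit 5, nat_lit 20], false, nat_lit 160, nat_lit 232, nat_lit 4, nat_lit 384, zbN0,
 nat_lit 0, nat_lit 0, nat_lit 0, nat_lit 0, nat_lit 0, nat_lit 0, nat_lit 0, nat_lit 0, nat_lit 0, nat_lit 0, nat_lit 0, nat_lit 0, nat_lit 0, nat_lit 0, nat_lit 0, nat_lit 0, nat_lit 0, nat_lit 0, [],
 C1.Rw.none, C1.Rw.none,
 zbF0, []⟩
noncomputable def p107_l88 : Lf2 := ⟨nat_lit 0, nat_lit 30, [nat_lit 15, nat_lit 5, nat_lit 5, nat_lit 20], false, nat_lit 160, nat_lit 232, nat_lit 4, nat_lit 160, ⟨nat_lit 728, nat_lit 272, nat_lit 0, nat_lit 7, nat_lit 272, nat_lit 272, nat_lit 152, nat_lit 0, nat_lit 0, nat_lit 0, nat_lit 0, nat_lit 0, nat_lit 39891389, nat_lit 19387372, nat_lit 7721239, nat_lit 4915147, true, true⟩,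
 nat_lit 11968, nat_lit 0, nat_lit 0, nat_lit 0, nat_lit 4090, nat_lit 5723, nat_lit 403, nat_lit 0, nat_lit 0, nat_lit 456, nat_lit 0, nat_lit 0, nat_lit 0, nat_lit 0, nat_lit 0, nat_lit 68000, nat_lit 0, nat_lit 0, [(nat_lit 26, [(nat_lit 0, nat_lit 272)])],
 ⟨p107_k22, nat_lit 0, nat_lit 0, nat_lit 142, nat_lit 0, nat_lit 151516, [nat_lit 891107200, nat_lit 3879398400, nat_lit 6484185600], [], [nat_lit 25573646540, nat_lit 26137809040, nat_lit 27077545330, nat_lit 27665642460, nat_lit 26763550433, nat_lit 27335632437, nat_lit 28308884789, nat_lit 28914388230], nat_lit 1271250, nat_lit 1271250, nat_lit 1271250, nat_lit 1271250, nat_lit 1100001, nat_lit 1716500, [nat_lit 230000, nat_lit 1100000, nat_lit 1785000], [nat_lit 57, nat_lit 40, nat_lit 40, nat_lit 80, nat_lit 7, nat_lit 272, nat_lit 60, nat_lit 7]⟩, ⟨p107_k8, nat_lit 0, nat_lit 0, nat_lit 522, nat_lit 0, nat_lit 351186, [nat_lit 4550000000, nat_lit 8642816000,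 nat_lit 11939200000], [], [nat_lit 31873857625, nat_lit 31962082874, nat_lit 32892041365, nat_lit 33059270215, nat_lit 27875639050, nat_lit 27980324656, nat_lit 28599490352, nat_lit 28665108640], nat_lit 1271250, nat_lit 1271250, nat_lit 1271250, nat_lit 1271250, nat_lit 21650, nat_lit 1100001, [nat_lit 1412500, nat_lit 1271250, nat_lit 1271250], [nat_lit 104, nat_lit 40, nat_lit 40, nat_lit 80, nat_lit 76, nat_lit 428, nat_lit 200, nat_lit 9]⟩,
 ⟨nat_lit 2236, nat_lit 2739, ⟨.ofNat (nat_lit 640539), .ofNat (nat_lit 699600), .ofNat (nat_lit 662956), .ofNat (nat_lit 722017), .ofNat (nat_lit 636804), .ofNat (nat_lit 693819), .ofNat (nat_lit 659578), .ofNat (nat_lit 716594)⟩, ⟨.ofNat (nat_lit 306433), .ofNat (nat_lit 412743), .ofNat (nat_lit 351268), .ofNat (nat_lit 457578), .ofNat (nat_lit 306337), .ofNat (nat_lit 408965), .ofNat (nat_lit 351886), .ofNat (nat_lit 454514)⟩⟩, [⟨nat_lit 4, nat_lit 100, nat_lit 48, nat_lit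 87, nat_lit 543368700⟩, ⟨nat_lit 9, nat_lit 100, nat_lit 87, nat_lit 48, nat_lit 23003239⟩]⟩
noncomputable def p107_l89 : Lf2 := ⟨nat_lit 0, nat_lit 25, [nat_lit 44, nat_lit 5, nat_lit 5, nat_lit 20], false, nat_lit 160, nat_lit 208, nat_lit 160, nat_lit 364, ⟨nat_lit 314, nat_lit 686, nat_lit 0, nat_lit 7, nat_lit 272, nat_lit 686, nat_lit 141, nat_lit 0, nat_lit 0, nat_lit 0, nat_lit 0, nat_lit 0, nat_lit 40454030, nat_lit 19633860, nat_lit 6912110, nat_lit 4808301, true, true⟩,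
 nat_lit 6630, nat_lit 0, nat_lit 0, nat_lit 0, nat_lit 4234, nat_lit 3170, nat_lit 200, nat_lit 0, nat_lit 0, nat_lit 189, nat_lit 0, nat_lit 0, nat_lit 0, nat_lit 0, nat_lit 0, nat_lit 171500, nat_lit 0, nat_lit 0, [(nat_lit 26, [(nat_lit 0, nat_lit 686)])],
 ⟨p107_k29, nat_lit 0, nat_lit 0, nat_lit 130, nat_lit 0, nat_lit 114685, [nat_lit 819733601, nat_lit 2648659201, nat_lit 4225732800], [], [nat_lit 25901733844, nat_lit 26188462694, nat_lit 27421606698, nat_lit 27684187923, nat_lit 26673986162, nat_lit 26939903879, nat_lit 28074763234, nat_lit 28324205547], nat_lit 1271250, nat_lit 1271250, nat_lit 1271250, nat_lit 1271250, nat_lit 1100001, nat_lit 1511000, [nat_lit 230000, nat_lit 1100000, nat_lit 1785000], [nat_lit 57, nat_lit 40, nat_lit 40, nat_lit 80, nat_lit 7, nat_lit 272, nat_lit 60, nat_lit 7]⟩, ⟨p107_k8, nat_lit 0, nat_lit 0, nat_lit 306, nat_lit 0, nat_lit 263497, [nat_lit 1962500000, nat_lit 3727808000,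 nat_lit 5149600000], [], [nat_lit 9592228203, nat_lit 9694114471, nat_lit 10214010515, nat_lit 10282408031, nat_lit 11120281009, nat_lit 11100977407, nat_lit 11415173788, nat_lit 11431799614], nat_lit 1271250, nat_lit 1271250, nat_lit 1271250, nat_lit 1271250, nat_lit 1100001, nat_lit 2846750, [nat_lit 1412500, nat_lit 1271250, nat_lit 1271250], [nat_lit 104, nat_lit 40, nat_lit 40, nat_lit 80, nat_lit 76, nat_lit 483, nat_lit 250, nat_lit 10]⟩,
 ⟨nat_lit 2500, nat_lit 2739, ⟨.ofNat (nat_lit 640539), .ofNat (nat_lit 699600), .ofNat (nat_lit 662956), .ofNat (nat_lit 722017), .ofNat (nat_lit 638708), .ofNat (nat_lit 696773), .ofNat (nat_lit 661289), .ofNat (nat_lit 719353)⟩, ⟨.ofNat (nat_lit 306433), .ofNat (nat_lit 377306), .ofNat (nat_lit 328850), .ofNat (nat_lit 399724), .ofNat (nat_lit 306450), .ofNat (nat_lit 376128), .ofNat (nat_lit 329031), .ofNat (nat_lit 398708)⟩⟩, [⟨nat_lit 16, nat_lit 51, nat_lit 100, nat_lit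 84, nat_lit 318600716⟩, ⟨nat_lit 7, nat_lit 68, nat_lit 100, nat_lit 84, nat_lit 121604786⟩]⟩
noncomputable def p107_l90 : Lf2 := ⟨nat_lit 0, nat_lit 25, [nat_lit 44, nat_lit 5, nat_lit 5, nat_lit 20], false, nat_lit 160, nat_lit 200, nat_lit 160, nat_lit 364, ⟨nat_lit 347, nat_lit 653, nat_lit 0, nat_lit 7, nat_lit 271, nat_lit 653, nat_lit 139, nat_lit 0, nat_lit 0, nat_lit 0, nat_lit 0, nat_lit 0, nat_lit 40663400, nat_lit 19592831, nat_lit 6743769, nat_lit 4779528, true, true⟩,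
 nat_lit 5229, nat_lit 0, nat_lit 0, nat_lit 0, nat_lit 4802, nat_lit 2500, nat_lit 38, nat_lit 0, nat_lit 0, nat_lit 192, nat_lit 0, nat_lit 0, nat_lit 0, nat_lit 0, nat_lit 0, nat_lit 163250, nat_lit 0, nat_lit 0, [(nat_lit 26, [(nat_lit 0, nat_lit 653)])],
 ⟨p107_k31, nat_lit 0, nat_lit 0, nat_lit 121, nat_lit 0, nat_lit 140318, [nat_lit 825422800, nat_lit 2746761600, nat_lit 3533520000], [], [nat_lit 26566992098, nat_lit 26894984394, nat_lit 28252788256, nat_lit 28551792018, nat_lit 27239586758, nat_lit 27546851610, nat_lit 28809675243, nat_lit 29094586358], nat_lit 1271250, nat_lit 1271250, nat_lit 1271250, nat_lit 1271250, nat_lit 1100001, nat_lit 1442500, [nat_lit 230000, nat_lit 1100000, nat_lit 1442500], [nat_lit 55, nat_lit 40, nat_lit 40, nat_lit 80, nat_lit 3, nat_lit 260, nat_lit 50, nat_lit 8]⟩, ⟨p107_k8, nat_lit 0, nat_lit 0, nat_lit 338, nat_lit 0, nat_lit 329417, [nat_lit 2168750000, nat_lit 4119584000,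 nat_lit 5690800000], [], [nat_lit 11409206658, nat_lit 11499742496, nat_lit 11870631414, nat_lit 11938918396, nat_lit 12810564530, nat_lit 12834648948, nat_lit 13130760747, nat_lit 13145428417], nat_lit 1271250, nat_lit 1271250, nat_lit 1271250, nat_lit 1271250, nat_lit 1100001, nat_lit 2846750, [nat_lit 1412500, nat_lit 1271250, nat_lit 1271250], [nat_lit 104, nat_lit 40, nat_lit 40, nat_lit 80, nat_lit 76, nat_lit 483, nat_lit 250, nat_lit 10]⟩,
 ⟨nat_lit 2236, nat_lit 2500, ⟨.ofNat (nat_lit 638708), .ofNat (nat_lit 696773), .ofNat (nat_lit 661289), .ofNat (nat_lit 719353), .ofNat (nat_lit 636804), .ofNat (nat_lit 693819), .ofNat (nat_lit 659578), .ofNat (nat_lit 716594)⟩, ⟨.ofNat (nat_lit 306450), .ofNat (nat_lit 364515), .ofNat (nat_lit 329031), .ofNat (nat_lit 387095), .ofNat (nat_lit 306337), .ofNat (nat_lit 363353), .ofNat (nat_lit 329112), .ofNat (nat_lit 386127)⟩⟩, [⟨nat_lit 13, nat_lit 47, nat_lit 82, nat_lit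 100, nat_lit 17901029⟩, ⟨nat_lit 4, nat_lit 100, nat_lit 46, nat_lit 84, nat_lit 374898581⟩, ⟨nat_lit 19, nat_lit 100, nat_lit 68, nat_lit 84, nat_lit 132224103⟩]⟩
noncomputable def p107_l91 : Lf2 := ⟨nat_lit 0, nat_lit 25, [nat_lit 44, nat_lit 5, nat_lit 5, nat_lit 20], false, nat_lit 160, nat_lit 232, nat_lit 160, nat_lit 376, ⟨nat_lit 566, nat_lit 434, nat_lit 0, nat_lit 7, nat_lit 272, nat_lit 434, nat_lit 157, nat_lit 0, nat_lit 0, nat_lit 0, nat_lit 0, nat_lit 0, nat_lit 39603376, nat_lit 19343605, nat_lit 8053019, nat_lit 4959627, true, true⟩,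
 nat_lit 13998, nat_lit 0, nat_lit 0, nat_lit 0, nat_lit 4700, nat_lit 6694, nat_lit 0, nat_lit 0, nat_lit 0, nat_lit 346, nat_lit 0, nat_lit 0, nat_lit 0, nat_lit 0, nat_lit 0, nat_lit 108500, nat_lit 0, nat_lit 0, [(nat_lit 26, [(nat_lit 0, nat_lit 434)])],
 ⟨p107_k29, nat_lit 0, nat_lit 0, nat_lit 80, nat_lit 0, nat_lit 53849, [nat_lit 863178401, nat_lit 3397804801, nat_lit 5600443200], [], [nat_lit 25938867901, nat_lit 26284585851, nat_lit 27759180501, nat_lit 28074069751, nat_lit 27316679791, nat_lit 27622843686, nat_lit 28913121082, nat_lit 29192660581], nat_lit 1271250, nat_lit 1271250, nat_lit 1271250, nat_lit 1271250, nat_lit 1100001, nat_lit 1716500, [nat_lit 230000, nat_lit 1100000, nat_lit 1785000], [nat_lit 57, nat_lit 40, nat_lit 40, nat_lit 80, nat_lit 7, nat_lit 272, nat_lit 60, nat_lit 7]⟩, ⟨p107_k8, nat_lit 0, nat_lit 0, nat_lit 239, nat_lit 0, nat_lit 123721, [nat_lit 3537500000, nat_lit 6719552000,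 nat_lit 9282400000], [], [nat_lit 16944934442, nat_lit 17115630798, nat_lit 18157937570, nat_lit 18259406422, nat_lit 20077669193, nat_lit 19980746994, nat_lit 20570107680, nat_lit 20541065337], nat_lit 1271250, nat_lit 1271250, nat_lit 1271250, nat_lit 1271250, nat_lit 1100001, nat_lit 2949500, [nat_lit 1412500, nat_lit 1271250, nat_lit 1271250], [nat_lit 104, nat_lit 40, nat_lit 40, nat_lit 80, nat_lit 76, nat_lit 483, nat_lit 250, nat_lit 10]⟩,
 ⟨nat_lit 2500, nat_lit 2739, ⟨.ofNat (nat_lit 640539), .ofNat (nat_lit 699600), .ofNat (nat_lit 662956), .ofNat (nat_lit 722017), .ofNat (nat_lit 638708), .ofNat (nat_lit 696773), .ofNat (nat_lit 661289), .ofNat (nat_lit 719353)⟩, ⟨.ofNat (nat_lit 328850), .ofNat (nat_lit 435161), .ofNat (nat_lit 351268), .ofNat (nat_lit 457578), .ofNat (nat_lit 329031), .ofNat (nat_lit 433547), .ofNat (nat_lit 351611), .ofNat (nat_lit 456128)⟩⟩, [⟨nat_lit 16, nat_lit 51, nat_lit 100, nat_lit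 89, nat_lit 428098795⟩, ⟨nat_lit 7, nat_lit 59, nat_lit 100, nat_lit 90, nat_lit 208510365⟩]⟩
noncomputable def p107_l92 : Lf2 := ⟨nat_lit 0, nat_lit 25, [nat_lit 44, nat_lit 5, nat_lit 5, nat_lit 20], false, nat_lit 160, nat_lit 220, nat_lit 160, nat_lit 376, ⟨nat_lit 282, nat_lit 718, nat_lit 0, nat_lit 7, nat_lit 271, nat_lit 718, nat_lit 153, nat_lit 0, nat_lit 0, nat_lit 0, nat_lit 0, nat_lit 0, nat_lit 39877510, nat_lit 19329101, nat_lit 7793389, nat_lit 4922124, true, true⟩,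
 nat_lit 6994, nat_lit 0, nat_lit 0, nat_lit 0, nat_lit 4845, nat_lit 3344, nat_lit 0, nat_lit 0, nat_lit 0, nat_lit 169, nat_lit 0, nat_lit 0, nat_lit 0, nat_lit 0, nat_lit 0, nat_lit 179500, nat_lit 0, nat_lit 0, [(nat_lit 26, [(nat_lit 0, nat_lit 718)])],
 ⟨p107_k31, nat_lit 0, nat_lit 0, nat_lit 104, nat_lit 0, nat_lit 79917, [nat_lit 814216800, nat_lit 2553529600, nat_lit 3263120000], [], [nat_lit 26670109780, nat_lit 26999647840, nat_lit 28361355285, nat_lit 28661701980, nat_lit 27675983493, nat_lit 27974217730, nat_lit 29192521855, nat_lit 29464811138], nat_lit 1271250, nat_lit 1271250, nat_lit 1271250, nat_lit 1271250, nat_lit 1100001, nat_lit 1613750, [nat_lit 230000, nat_lit 1100000, nat_lit 1442500], [nat_lit 55, nat_lit 40, nat_lit 40, nat_lit 80, nat_lit 3, nat_lit 272, nat_lit 60, nat_lit 8]⟩, ⟨p107_k8, nat_lit 0, nat_lit 0, nat_lit 270, nat_lit 0, nat_lit 187618, [nat_lit 1762500000, nat_lit 3347904000,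 nat_lit 4624800000], [], [nat_lit 8496045599, nat_lit 8580975467, nat_lit 9101234655, nat_lit 9151593251, nat_lit 10057310147, nat_lit 10008600218, nat_lit 10302657366, nat_lit 10238459031], nat_lit 1271250, nat_lit 1271250, nat_lit 1271250, nat_lit 1271250, nat_lit 1100001, nat_lit 2949500, [nat_lit 1412500, nat_lit 1271250, nat_lit 1271250], [nat_lit 104, nat_lit 40, nat_lit 40, nat_lit 80, nat_lit 76, nat_lit 483, nat_lit 250, nat_lit 10]⟩,
 ⟨nat_lit 2236, nat_lit 2500, ⟨.ofNat (nat_lit 638708), .ofNat (nat_lit 696773), .ofNat (nat_lit 661289), .ofNat (nat_lit 719353), .ofNat (nat_lit 636804), .ofNat (nat_lit 693819), .ofNat (nat_lit 659578), .ofNat (nat_lit 716594)⟩, ⟨.ofNat (nat_lit 329031), .ofNat (nat_lit 416128), .ofNat (nat_lit 351611), .ofNat (nat_lit 438708), .ofNat (nat_lit 329112), .ofNat (nat_lit 414635), .ofNat (nat_lit 351886), .ofNat (nat_lit 437409)⟩⟩, [⟨nat_lit 13, nat_lit 47, nat_lit 82, nat_lit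 100, nat_lit 2306534⟩, ⟨nat_lit 4, nat_lit 100, nat_lit 46, nat_lit 89, nat_lit 313025921⟩, ⟨nat_lit 7, nat_lit 59, nat_lit 100, nat_lit 90, nat_lit 102348575⟩]⟩
noncomputable def p107_l93 : Lf2 := ⟨nat_lit 0, nat_lit 27, [nat_lit 147, nat_lit 5, nat_lit 5, nat_lit 20], true, nat_lit 160, nat_lit 232, nat_lit 160, nat_lit 376, ⟨nat_lit 0, nat_lit 1000, nat_lit 0, nat_lit 7, nat_lit 272, nat_lit 1000, nat_lit 157, nat_lit 0, nat_lit 0, nat_lit 0, nat_lit 0, nat_lit 0, nat_lit 39648995, nat_lit 19304060, nat_lit 8046945, nat_lit 4956500, true, true⟩,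
 nat_lit 0, nat_lit 3710, nat_lit 0, nat_lit 5544, nat_lit 3347, nat_lit 0, nat_lit 0, nat_lit 0, nat_lit 0, nat_lit 0, nat_lit 0, nat_lit 0, nat_lit 0, nat_lit 0, nat_lit 0, nat_lit 250000, nat_lit 0, nat_lit 0, [(nat_lit 26, [(nat_lit 0, nat_lit 1000)])],
 ⟨p107_k10, nat_lit 0, nat_lit 0, nat_lit 76, nat_lit 0, nat_lit 27815, [nat_lit 765600000, nat_lit 1715200000, nat_lit 2512800000], [], [nat_lit 24800449171, nat_lit 25385245670, nat_lit 26417828007, nat_lit 26954811002, nat_lit 26260853999, nat_lit 26783915314, nat_lit 27701921234, nat_lit 28183620811], nat_lit 1271250, nat_lit 1271250, nat_lit 1271250, nat_lit 1271250, nat_lit 1100001, nat_lit 1716500, [nat_lit 230000, nat_lit 1100000, nat_lit 1785000], [nat_lit 57, nat_lit 40, nat_lit 40, nat_lit 80, nat_lit 7, nat_lit 272, nat_lit 60, nat_lit 7]⟩, C1.Rw.none,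
 ⟨nat_lit 2236, nat_lit 2739, ⟨.ofNat (nat_lit 640539), .ofNat (nat_lit 699600), .ofNat (nat_lit 662956), .ofNat (nat_lit 722017), .ofNat (nat_lit 636804), .ofNat (nat_lit 693819), .ofNat (nat_lit 659578), .ofNat (nat_lit 716594)⟩, ⟨.ofNat (nat_lit 328850), .ofNat (nat_lit 435161), .ofNat (nat_lit 351268), .ofNat (nat_lit 457578), .ofNat (nat_lit 329112), .ofNat (nat_lit 431740), .ofNat (nat_lit 351886), .ofNat (nat_lit 454514)⟩⟩, [⟨nat_lit 4, nat_lit 100, nat_lit 48, nat_lit 89, nat_lit 217449648⟩]⟩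
noncomputable def p107_l94 : Lf2 := ⟨nat_lit 1, nat_lit 30, [nat_lit 15, nat_lit 5, nat_lit 5, nat_lit 20], false, nat_lit 160, nat_lit 232, nat_lit 160, nat_lit 376, zbN0,
 nat_lit 0, nat_lit 0, nat_lit 0, nat_lit 0, nat_lit 0, nat_lit 0, nat_lit 0, nat_lit 0, nat_lit 0, nat_lit 0, nat_lit 0, nat_lit 0, nat_lit 0, nat_lit 0, nat_lit 0, nat_lit 0, nat_lit 0, nat_lit 0, [],
 C1.Rw.none, C1.Rw.none,
 zbF0, []⟩
noncomputable def b_V_900_500_20_23 : St := ⟨true, nat_lit 1, nat_lit 1, nat_lit 1, nat_lit 120, nat_lit 360, nat_lit 380, nat_lit 200, nat_lit 240, nat_lit 240, nat_lit 320, nat_lit 80, nat_lit 120, nat_lit 160, nat_lit 248, nat_lit 0, nat_lit 384, nat_lit 80, nat_lit 120, nat_lit 0, nat_lit 0, nat_lit 0, nat_lit 0⟩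
theorem d_V_900_500_20_23 (h : EB TB.env) : Dead b_V_900_500_20_23 := chkB_sound0 h (T :=
(.spl (nat_lit 2) (nat_lit 280)
(.spl (nat_lit 0) (nat_lit 370)
(.leaf p107_l76)
(.trX (nat_lit 16) (nat_lit 53) (nat_lit 100) (nat_lit 93) (nat_lit 232) (.spl (nat_lit 3) (nat_lit 100)
(.trX (nat_lit 16) (nat_lit 53) (nat_lit 100) (nat_lit 87) (nat_lit 208) (.trX (nat_lit 19) (nat_lit 100) (nat_lit 50) (nat_lit 87) (nat_lit 376) (.leaf p107_l77)))
(.spl (nat_lit 6) (nat_lit 108)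
(.leaf p107_l78)
(.leaf p107_l79)))))
(.trZ (nat_lit 9) (nat_lit 100) (nat_lit 94) (nat_lit 21) (nat_lit 4) (.spl (nat_lit 0) (nat_lit 370)
(.spl (nat_lit 6) (nat_lit 112)
(.spl (nat_lit 3) (nat_lit 100)
(.trX (nat_lit 16) (nat_lit 60) (nat_lit 100) (nat_lit 87) (nat_lit 224) (.trX (nat_lit 19) (nat_lit 100) (nat_lit 50) (nat_lit 87) (nat_lit 376) (.spl (nat_lit 6) (nat_lit 104)
(.spl (nat_lit 1) (nat_lit 220)
(.leaf p107_l80)
(.trX (nat_lit 19) (nat_lit 100) (nat_lit 59) (nat_lit 87) (nat_lit 364) (.leaf p107_l81)))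
(.leaf p107_l82))))
(.leaf p107_l83))
(.leaf p107_l84))
(.trX (nat_lit 16) (nat_lit 53) (nat_lit 100) (nat_lit 93) (nat_lit 232) (.spl (nat_lit 1) (nat_lit 220)
(.spl (nat_lit 3) (nat_lit 100)
(.trX (nat_lit 16) (nat_lit 53) (nat_lit 100) (nat_lit 87) (nat_lit 208) (.trX (nat_lit 19) (nat_lit 100) (nat_lit 50) (nat_lit 87) (nat_lit 376) (.leaf p107_l85)))
(.spl (nat_lit 6) (nat_lit 104)
(.leaf p107_l86)
(.leaf p107_l87)))
(.trX (nat_lit 19) (nat_lit 100) (nat_lit 49) (nat_lit 92) (nat_lit 376) (.spl (nat_lit 5) (nat_lit 160)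
(.leaf p107_l88)
(.spl (nat_lit 3) (nat_lit 100)
(.trX (nat_lit 16) (nat_lit 53) (nat_lit 100) (nat_lit 87) (nat_lit 208) (.trX (nat_lit 19) (nat_lit 100) (nat_lit 59) (nat_lit 87) (nat_lit 364) (.spl (nat_lit 0) (nat_lit 375)
(.leaf p107_l89)
(.trX (nat_lit 16) (nat_lit 48) (nat_lit 100) (nat_lit 87) (nat_lit 200) (.leaf p107_l90)))))
(.spl (nat_lit 6) (nat_lit 108)
(.spl (nat_lit 6) (nat_lit 100)
(.spl (nat_lit 0) (nat_lit 375)
(.leaf p107_l91)
(.trX (nat_lit 16) (nat_lit 49) (nat_lit 100) (nat_lit 92) (nat_lit 220) (.leaf p107_l92)))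
(.leaf p107_l93))
(.leaf p107_l94))))))))))) (by decide +kernel)
noncomputable def p107_l95 : Lf2 := ⟨nat_lit 0, nat_lit 25, [nat_lit 44, nat_lit 5, nat_lit 5, nat_lit 20], false, nat_lit 160, nat_lit 224, nat_lit 16, nat_lit 376, ⟨nat_lit 0, nat_lit 866, nat_lit 134, nat_lit 8, nat_lit 280, nat_lit 1000, nat_lit 146, nat_lit 134, nat_lit 198017, nat_lit 324, nat_lit 187540, nat_lit 200, nat_lit 39552952, nat_lit 20279400, nat_lit 7167648, nat_lit 4883155, true, true⟩,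
 nat_lit 0, nat_lit 3485, nat_lit 0, nat_lit 3559, nat_lit 3035, nat_lit 0, nat_lit 155, nat_lit 0, nat_lit 0, nat_lit 0, nat_lit 0, nat_lit 0, nat_lit 0, nat_lit 0, nat_lit 0, nat_lit 250000, nat_lit 0, nat_lit 0, [(nat_lit 26, [(nat_lit 0, nat_lit 866), (nat_lit 4, nat_lit 134)])],
 ⟨p107_k32, nat_lit 0, nat_lit 0, nat_lit 136, nat_lit 0, nat_lit 126860, [nat_lit 760561601, nat_lit 1139928000, nat_lit 1831383200], [], [nat_lit 25841416345, nat_lit 26757633095, nat_lit 26467129761, nat_lit 27352856103, nat_lit 26889841625, nat_lit 27726845600, nat_lit 27460546632, nat_lit 28415852110], nat_lit 1271250, nat_lit 1271250, nat_lit 1271250, nat_lit 1271250, nat_lit 1100001, nat_lit 1648000, [nat_lit 230000, nat_lit 780000, nat_lit 1762500], [nat_lit 54, nat_lit 40, nat_lit 40, nat_lit 80, nat_lit 43, nat_lit 272, nat_lit 60, nat_lit 7]⟩, ⟨p107_k5, nat_lit 0, nat_lit 0, nat_lit 493, nat_lit 0, nat_lit 325362, [nat_lit 0,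 nat_lit 0, nat_lit 0], [], [nat_lit 0, nat_lit 0, nat_lit 0, nat_lit 0, nat_lit 0, nat_lit 0, nat_lit 0, nat_lit 0], nat_lit 1271250, nat_lit 1271250, nat_lit 1271250, nat_lit 1271250, nat_lit 88400, nat_lit 2684900, [nat_lit 1412500, nat_lit 1271250, nat_lit 1271250], [nat_lit 118, nat_lit 40, nat_lit 40, nat_lit 80, nat_lit 73, nat_lit 483, nat_lit 250, nat_lit 10]⟩,
 ⟨nat_lit 2236, nat_lit 3163, ⟨.ofNat (nat_lit 682859), .ofNat (nat_lit 707240), .ofNat (nat_lit 705013), .ofNat (nat_lit 729395), .ofNat (nat_lit 671045), .ofNat (nat_lit 693851), .ofNat (nat_lit 693819), .ofNat (nat_lit 716626)⟩, ⟨.ofNat (nat_lit 306116), .ofNat (nat_lit 403641), .ofNat (nat_lit 328271), .ofNat (nat_lit 425796), .ofNat (nat_lit 306337), .ofNat (nat_lit 397562), .ofNat (nat_lit 329112), .ofNat (nat_lit 420336)⟩⟩, [⟨nat_lit 13, nat_lit 53, nat_lit 82, nat_lit 100, nat_lit 435594871⟩, ⟨nat_lit 4, nat_lit 100, nat_lit 53, nat_lit 84, nat_lit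 192188800⟩]⟩
noncomputable def p107_l96 : Lf2 := ⟨nat_lit 0, nat_lit 25, [nat_lit 44, nat_lit 5, nat_lit 5, nat_lit 20], false, nat_lit 160, nat_lit 224, nat_lit 16, nat_lit 160, ⟨nat_lit 663, nat_lit 337, nat_lit 0, nat_lit 8, nat_lit 294, nat_lit 337, nat_lit 146, nat_lit 0, nat_lit 0, nat_lit 0, nat_lit 0, nat_lit 0, nat_lit 38438761, nat_lit 21529861, nat_lit 7031378, nat_lit 4924724, true, true⟩,
 nat_lit 10580, nat_lit 0, nat_lit 0, nat_lit 0, nat_lit 4406, nat_lit 5059, nat_lit 134, nat_lit 0, nat_lit 0, nat_lit 391, nat_lit 0, nat_lit 0, nat_lit 0, nat_lit 0, nat_lit 0, nat_lit 337000, nat_lit 0, nat_lit 0, [(nat_lit 26, [(nat_lit 2, nat_lit 337)])],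
 ⟨p107_k19, nat_lit 0, nat_lit 0, nat_lit 149, nat_lit 0, nat_lit 149820, [nat_lit 1326493600, nat_lit 2515158801, nat_lit 3240429200], [], [nat_lit 27091015659, nat_lit 28010744164, nat_lit 28477990322, nat_lit 29778963832, nat_lit 27880457752, nat_lit 29090649621, nat_lit 29506166902, nat_lit 30677942578], nat_lit 1271250, nat_lit 1271250, nat_lit 1271250, nat_lit 1271250, nat_lit 1100001, nat_lit 1648000, [nat_lit 230000, nat_lit 1100000, nat_lit 1785000], [nat_lit 57, nat_lit 40, nat_lit 40, nat_lit 80, nat_lit 7, nat_lit 272, nat_lit 60, nat_lit 7]⟩, ⟨p107_k8, nat_lit 0, nat_lit 0, nat_lit 498, nat_lit 0, nat_lit 329417, [nat_lit 4143750000, nat_lit 7871136000, nat_lit 10873200000], [], [nat_lit 29804845471, nat_lit 29859898705, nat_lit 30682904304, nat_lit 30795631056, nat_lit 26596587590, nat_lit 26661794538, nat_lit 27240080736, nat_lit 27276149828], nat_lit 1271250, nat_lit 1271250, nat_lit 1271250, nat_lit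 1271250, nat_lit 88400, nat_lit 1100001, [nat_lit 1412500, nat_lit 1271250, nat_lit 1271250], [nat_lit 104, nat_lit 40, nat_lit 40, nat_lit 80, nat_lit 76, nat_lit 428, nat_lit 200, nat_lit 9]⟩,
 ⟨nat_lit 2236, nat_lit 3163, ⟨.ofNat (nat_lit 705013), .ofNat (nat_lit 753776), .ofNat (nat_lit 727168), .ofNat (nat_lit 775931), .ofNat (nat_lit 693819), .ofNat (nat_lit 739432), .ofNat (nat_lit 716594), .ofNat (nat_lit 762206)⟩, ⟨.ofNat (nat_lit 306116), .ofNat (nat_lit 403641), .ofNat (nat_lit 328271), .ofNat (nat_lit 425796), .ofNat (nat_lit 306337), .ofNat (nat_lit 397562), .ofNat (nat_lit 329112), .ofNat (nat_lit 420336)⟩⟩, [⟨nat_lit 13, nat_lit 44, nat_lit 86, nat_lit 100, nat_lit 310847706⟩, ⟨nat_lit 4, nat_lit 100, nat_lit 53, nat_lit 84, nat_lit 482720063⟩, ⟨nat_lit 9, nat_lit 100, nat_lit 73, nat_lit 65, nat_lit 15588498⟩]⟩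
noncomputable def p107_l97 : Lf2 := ⟨nat_lit 0, nat_lit 25, [nat_lit 44, nat_lit 5, nat_lit 5, nat_lit 20], false, nat_lit 160, nat_lit 224, nat_lit 160, nat_lit 364, ⟨nat_lit 929, nat_lit 71, nat_lit 0, nat_lit 8, nat_lit 295, nat_lit 71, nat_lit 146, nat_lit 0, nat_lit 0, nat_lit 0, nat_lit 0, nat_lit 0, nat_lit 38320404, nat_lit 21639938, nat_lit 7039658, nat_lit 4931008, true, true⟩,
 nat_lit 13997, nat_lit 0, nat_lit 0, nat_lit 0, nat_lit 8216, nat_lit 6694, nat_lit 0, nat_lit 0, nat_lit 0, nat_lit 518, nat_lit 0, nat_lit 0, nat_lit 0, nat_lit 0, nat_lit 0, nat_lit 17750, nat_lit 0, nat_lit 0, [(nat_lit 26, [(nat_lit 0, nat_lit 71)])],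
 ⟨p107_k19, nat_lit 0, nat_lit 0, nat_lit 129, nat_lit 0, nat_lit 90140, [nat_lit 925759600, nat_lit 4476931201, nat_lit 7580680800], [], [nat_lit 31213750752, nat_lit 31961606552, nat_lit 33116922516, nat_lit 33798286175, nat_lit 31710751840, nat_lit 32374357612, nat_lit 33388153956, nat_lit 34214807124], nat_lit 1271250, nat_lit 1271250, nat_lit 1271250, nat_lit 1271250, nat_lit 1100001, nat_lit 1648000, [nat_lit 230000, nat_lit 1100000, nat_lit 1785000], [nat_lit 57, nat_lit 40, nat_lit 40, nat_lit 80, nat_lit 7, nat_lit 272, nat_lit 60, nat_lit 7]⟩, ⟨p107_k8, nat_lit 0, nat_lit 0, nat_lit 283, nat_lit 0, nat_lit 198195, [nat_lit 5806250000, nat_lit 11029088000, nat_lit 15235600000], [], [nat_lit 31713701572, nat_lit 31896495062, nat_lit 32891085929, nat_lit 33042650795, nat_lit 35088456545, nat_lit 35183505154, nat_lit 36209187611, nat_lit 36305858567], nat_lit 1271250, nat_lit 1271250, nat_lit 1271250, nat_lit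 1271250, nat_lit 1100001, nat_lit 2846750, [nat_lit 1412500, nat_lit 1271250, nat_lit 1271250], [nat_lit 104, nat_lit 40, nat_lit 40, nat_lit 80, nat_lit 76, nat_lit 483, nat_lit 250, nat_lit 9]⟩,
 ⟨nat_lit 2738, nat_lit 3163, ⟨.ofNat (nat_lit 705013), .ofNat (nat_lit 753776), .ofNat (nat_lit 727168), .ofNat (nat_lit 775931), .ofNat (nat_lit 699600), .ofNat (nat_lit 746849), .ofNat (nat_lit 722017), .ofNat (nat_lit 769266)⟩, ⟨.ofNat (nat_lit 306116), .ofNat (nat_lit 403641), .ofNat (nat_lit 328271), .ofNat (nat_lit 425796), .ofNat (nat_lit 306433), .ofNat (nat_lit 400931), .ofNat (nat_lit 328850), .ofNat (nat_lit 423348)⟩⟩, [⟨nat_lit 13, nat_lit 53, nat_lit 80, nat_lit 100, nat_lit 130518584⟩, ⟨nat_lit 4, nat_lit 100, nat_lit 57, nat_lit 84, nat_lit 459366905⟩, ⟨nat_lit 19, nat_lit 100, nat_lit 68, nat_lit 84, nat_lit 355365314⟩]⟩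
noncomputable def p107_l98 : Lf2 := ⟨nat_lit 0, nat_lit 25, [nat_lit 44, nat_lit 5, nat_lit 5, nat_lit 20], false, nat_lit 160, nat_lit 208, nat_lit 160, nat_lit 364, ⟨nat_lit 450, nat_lit 550, nat_lit 0, nat_lit 8, nat_lit 290, nat_lit 550, nat_lit 141, nat_lit 0, nat_lit 0, nat_lit 0, nat_lit 0, nat_lit 0, nat_lit 38998273, nat_lit 21253414, nat_lit 6748313, nat_lit 4868375, true, true⟩,
 nat_lit 8251, nat_lit 0, nat_lit 0, nat_lit 26, nat_lit 3537, nat_lit 3946, nat_lit 321, nat_lit 0, nat_lit 0, nat_lit 259, nat_lit 0, nat_lit 0, nat_lit 0, nat_lit 0, nat_lit 0, nat_lit 137500, nat_lit 0, nat_lit 0, [(nat_lit 26, [(nat_lit 0, nat_lit 550)])],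
 ⟨p107_k29, nat_lit 0, nat_lit 0, nat_lit 134, nat_lit 0, nat_lit 114685, [nat_lit 843180000, nat_lit 3052960000, nat_lit 4967640000], [], [nat_lit 26831733689, nat_lit 27074825052, nat_lit 27632107012, nat_lit 27864580029, nat_lit 27545031985, nat_lit 27771648840, nat_lit 28345287554, nat_lit 28589798307], nat_lit 1271250, nat_lit 1271250, nat_lit 1271250, nat_lit 1271250, nat_lit 1100001, nat_lit 1511000, [nat_lit 230000, nat_lit 1100000, nat_lit 1785000], [nat_lit 57, nat_lit 40, nat_lit 40, nat_lit 80, nat_lit 7, nat_lit 272, nat_lit 60, nat_lit 7]⟩, ⟨p107_k8, nat_lit 0, nat_lit 0, nat_lit 311, nat_lit 0, nat_lit 263497, [nat_lit 2812500000, nat_lit 5342400000, nat_lit 7380000000], [], [nat_lit 14934269365, nat_lit 15045585137, nat_lit 15432469399, nat_lit 15521287537, nat_lit 16696410634, nat_lit 16692308581, nat_lit 17030252785, nat_lit 17059033883], nat_lit 1271250, nat_lit 1271250, nat_lit 1271250, nat_lit 1271250,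 nat_lit 1100001, nat_lit 2846750, [nat_lit 1412500, nat_lit 1271250, nat_lit 1271250], [nat_lit 104, nat_lit 40, nat_lit 40, nat_lit 80, nat_lit 76, nat_lit 483, nat_lit 250, nat_lit 9]⟩,
 ⟨nat_lit 2500, nat_lit 2739, ⟨.ofNat (nat_lit 699600), .ofNat (nat_lit 729131), .ofNat (nat_lit 722017), .ofNat (nat_lit 751548), .ofNat (nat_lit 696773), .ofNat (nat_lit 725805), .ofNat (nat_lit 719353), .ofNat (nat_lit 748386)⟩, ⟨.ofNat (nat_lit 306433), .ofNat (nat_lit 377306), .ofNat (nat_lit 328850), .ofNat (nat_lit 399724), .ofNat (nat_lit 306450), .ofNat (nat_lit 376128), .ofNat (nat_lit 329031), .ofNat (nat_lit 398708)⟩⟩, [⟨nat_lit 13, nat_lit 51, nat_lit 79, nat_lit 100, nat_lit 191830919⟩, ⟨nat_lit 4, nat_lit 100, nat_lit 51, nat_lit 84, nat_lit 394821439⟩, ⟨nat_lit 19, nat_lit 100, nat_lit 68, nat_lit 84, nat_lit 170628277⟩]⟩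
noncomputable def p107_l99 : Lf2 := ⟨nat_lit 0, nat_lit 25, [nat_lit 44, nat_lit 5, nat_lit 5, nat_lit 20], false, nat_lit 160, nat_lit 200, nat_lit 160, nat_lit 360, ⟨nat_lit 356, nat_lit 644, nat_lit 0, nat_lit 8, nat_lit 286, nat_lit 644, nat_lit 139, nat_lit 0, nat_lit 0, nat_lit 0, nat_lit 0, nat_lit 0, nat_lit 39412626, nat_lit 20978472, nat_lit 6608902, nat_lit 4833010, true, true⟩,
 nat_lit 5386, nat_lit 0, nat_lit 0, nat_lit 0, nat_lit 4946, nat_lit 2575, nat_lit 14, nat_lit 0, nat_lit 0, nat_lit 198, nat_lit 0, nat_lit 0, nat_lit 0, nat_lit 0, nat_lit 0, nat_lit 161000, nat_lit 0, nat_lit 0, [(nat_lit 26, [(nat_lit 0, nat_lit 644)])],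
 ⟨p107_k31, nat_lit 0, nat_lit 0, nat_lit 124, nat_lit 0, nat_lit 140318, [nat_lit 826974401, nat_lit 2773516800, nat_lit 3570960000], [], [nat_lit 28494178888, nat_lit 28797679914, nat_lit 29070526392, nat_lit 29365104758, nat_lit 29041769703, nat_lit 29326269428, nat_lit 29580751126, nat_lit 29896295796], nat_lit 1271250, nat_lit 1271250, nat_lit 1271250, nat_lit 1271250, nat_lit 1100001, nat_lit 1442500, [nat_lit 230000, nat_lit 1100000, nat_lit 1442500], [nat_lit 55, nat_lit 40, nat_lit 40, nat_lit 80, nat_lit 3, nat_lit 260, nat_lit 50, nat_lit 8]⟩, ⟨p107_k8, nat_lit 0, nat_lit 0, nat_lit 340, nat_lit 0, nat_lit 329417, [nat_lit 2225000000, nat_lit 4226432000, nat_lit 5838400000], [], [nat_lit 12147160722, nat_lit 12216922858, nat_lit 12316611683, nat_lit 12379146188, nat_lit 13398754248, nat_lit 13412868716, nat_lit 13527432738, nat_lit 13576649080], nat_lit 1271250, nat_lit 1271250, nat_lit 1271250, nat_lit 1271250,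 nat_lit 1100001, nat_lit 2812500, [nat_lit 1412500, nat_lit 1271250, nat_lit 1271250], [nat_lit 104, nat_lit 40, nat_lit 40, nat_lit 80, nat_lit 76, nat_lit 483, nat_lit 250, nat_lit 9]⟩,
 ⟨nat_lit 2236, nat_lit 2500, ⟨.ofNat (nat_lit 696773), .ofNat (nat_lit 714192), .ofNat (nat_lit 719353), .ofNat (nat_lit 736773), .ofNat (nat_lit 693819), .ofNat (nat_lit 710924), .ofNat (nat_lit 716594), .ofNat (nat_lit 733698)⟩, ⟨.ofNat (nat_lit 306450), .ofNat (nat_lit 364515), .ofNat (nat_lit 329031), .ofNat (nat_lit 387095), .ofNat (nat_lit 306337), .ofNat (nat_lit 363353), .ofNat (nat_lit 329112), .ofNat (nat_lit 386127)⟩⟩, [⟨nat_lit 13, nat_lit 47, nat_lit 82, nat_lit 100, nat_lit 331240030⟩, ⟨nat_lit 16, nat_lit 46, nat_lit 100, nat_lit 84, nat_lit 378590037⟩, ⟨nat_lit 19, nat_lit 100, nat_lit 68, nat_lit 84, nat_lit 134772213⟩]⟩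
noncomputable def p107_l100 : Lf2 := ⟨nat_lit 0, nat_lit 27, [nat_lit 147, nat_lit 5, nat_lit 5, nat_lit 20], false, nat_lit 160, nat_lit 248, nat_lit 16, nat_lit 384, ⟨nat_lit 0, nat_lit 1000, nat_lit 0, nat_lit 8, nat_lit 280, nat_lit 1000, nat_lit 162, nat_lit 0, nat_lit 0, nat_lit 0, nat_lit 0, nat_lit 0, nat_lit 38722108, nat_lit 19968885, nat_lit 8309007, nat_lit 5029379, true, true⟩,
 nat_lit 0, nat_lit 3447, nat_lit 0, nat_lit 6958, nat_lit 3002, nat_lit 0, nat_lit 116, nat_lit 0, nat_lit 0, nat_lit 0, nat_lit 0, nat_lit 0, nat_lit 0, nat_lit 0, nat_lit 0, nat_lit 343150, nat_lit 0, nat_lit 0, [(nat_lit 26, [(nat_lit 0, nat_lit 379), (nat_lit 1, nat_lit 621)])],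
 ⟨p107_k20, nat_lit 0, nat_lit 0, nat_lit 122, nat_lit 0, nat_lit 66191, [nat_lit 893277601, nat_lit 1261373200, nat_lit 1446915600], [], [nat_lit 25916871581, nat_lit 26829354744, nat_lit 26540466840, nat_lit 27422731442, nat_lit 27433117811, nat_lit 28235617193, nat_lit 27979849997, nat_lit 28895615931], nat_lit 1271250, nat_lit 1271250, nat_lit 1271250, nat_lit 1271250, nat_lit 1100001, nat_lit 1853500, [nat_lit 230000, nat_lit 1100000, nat_lit 1785000], [nat_lit 57, nat_lit 40, nat_lit 40, nat_lit 80, nat_lit 7, nat_lit 289, nat_lit 75, nat_lit 8]⟩, ⟨p107_k11, nat_lit 0, nat_lit 0, nat_lit 442, nat_lit 0, nat_lit 170467, [nat_lit 0, nat_lit 0, nat_lit 0], [], [nat_lit 0, nat_lit 0, nat_lit 0, nat_lit 0, nat_lit 0, nat_lit 0, nat_lit 0, nat_lit 0], nat_lit 1271250, nat_lit 1271250, nat_lit 1271250, nat_lit 1271250, nat_lit 88400, nat_lit 2742600, [nat_lit 1412500, nat_lit 1271250, nat_lit 1271250], [nat_lit 104,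 nat_lit 40, nat_lit 40, nat_lit 80, nat_lit 76, nat_lit 483, nat_lit 250, nat_lit 10]⟩,
 ⟨nat_lit 2236, nat_lit 3163, ⟨.ofNat (nat_lit 682859), .ofNat (nat_lit 707240), .ofNat (nat_lit 705013), .ofNat (nat_lit 729395), .ofNat (nat_lit 671045), .ofNat (nat_lit 693851), .ofNat (nat_lit 693819), .ofNat (nat_lit 716626)⟩, ⟨.ofNat (nat_lit 328271), .ofNat (nat_lit 462368), .ofNat (nat_lit 350426), .ofNat (nat_lit 484523), .ofNat (nat_lit 329112), .ofNat (nat_lit 454546), .ofNat (nat_lit 351886), .ofNat (nat_lit 477320)⟩⟩, [⟨nat_lit 13, nat_lit 53, nat_lit 82, nat_lit 100, nat_lit 611798241⟩, ⟨nat_lit 16, nat_lit 53, nat_lit 100, nat_lit 90, nat_lit 187671400⟩]⟩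
noncomputable def p107_l101 : Lf2 := ⟨nat_lit 0, nat_lit 23, [nat_lit 114, nat_lit 5, nat_lit 5, nat_lit 20], false, nat_lit 160, nat_lit 248, nat_lit 16, nat_lit 376, ⟨nat_lit 1000, nat_lit 0, nat_lit 0, nat_lit 0, nat_lit 0, nat_lit 0, nat_lit 0, nat_lit 0, nat_lit 0, nat_lit 0, nat_lit 0, nat_lit 0, nat_lit 0, nat_lit 0, nat_lit 0, nat_lit 0, false, false⟩,
 nat_lit 27635, nat_lit 0, nat_lit 0, nat_lit 0, nat_lit 4469, nat_lit 13216, nat_lit 503, nat_lit 0, nat_lit 0, nat_lit 228, nat_lit 0, nat_lit 0, nat_lit 0, nat_lit 0, nat_lit 0, nat_lit 0, nat_lit 0, nat_lit 0, [],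
 ⟨p107_k33, nat_lit 0, nat_lit 0, nat_lit 92, nat_lit 0, nat_lit 23882, [nat_lit 938000000, nat_lit 3282000000, nat_lit 7968000000], [], [nat_lit 27401545493, nat_lit 27939850318, nat_lit 28833362642, nat_lit 29331212480, nat_lit 28729046229, nat_lit 29195331011, nat_lit 30121945283, nat_lit 30638000999], nat_lit 1271250, nat_lit 1271250, nat_lit 1271250, nat_lit 1271250, nat_lit 1100001, nat_lit 1853500, [nat_lit 230000, nat_lit 780000, nat_lit 1762500], [nat_lit 54, nat_lit 40, nat_lit 40, nat_lit 80, nat_lit 43, nat_lit 289, nat_lit 75, nat_lit 8]⟩, ⟨p107_k34, nat_lit 0, nat_lit 0, nat_lit 284, nat_lit 0, nat_lit 52323, [nat_lit 6250000000, nat_lit 9842000000, nat_lit 14058000000], [], [nat_lit 45016461480, nat_lit 45447586146, nat_lit 48173456140, nat_lit 48448544149, nat_lit 39358469191, nat_lit 39156312280, nat_lit 40682373449, nat_lit 40423654607], nat_lit 1271250, nat_lit 1271250, nat_lit 1271250, nat_lit 1271250,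 nat_lit 88400, nat_lit 2684900, [nat_lit 1412500, nat_lit 1271250, nat_lit 1271250], [nat_lit 60, nat_lit 40, nat_lit 40, nat_lit 80, nat_lit 32, nat_lit 483, nat_lit 250, nat_lit 11]⟩,
 zbF0, [⟨nat_lit 4, nat_lit 100, nat_lit 57, nat_lit 90, nat_lit 542460593⟩, ⟨nat_lit 19, nat_lit 100, nat_lit 59, nat_lit 90, nat_lit 101723660⟩]⟩
noncomputable def p107_l102 : Lf2 := ⟨nat_lit 1, nat_lit 27, [nat_lit 147, nat_lit 5, nat_lit 5, nat_lit 20], false, nat_lit 160, nat_lit 248, nat_lit 16, nat_lit 376, zbN0,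
 nat_lit 0, nat_lit 0, nat_lit 0, nat_lit 0, nat_lit 0, nat_lit 0, nat_lit 0, nat_lit 0, nat_lit 0, nat_lit 0, nat_lit 0, nat_lit 0, nat_lit 0, nat_lit 0, nat_lit 0, nat_lit 0, nat_lit 0, nat_lit 0, [],
 C1.Rw.none, C1.Rw.none,
 zbF0, []⟩
noncomputable def p107_l103 : Lf2 := ⟨nat_lit 0, nat_lit 23, [nat_lit 114, nat_lit 5, nat_lit 5, nat_lit 20], true, nat_lit 160, nat_lit 232, nat_lit 16, nat_lit 376, ⟨nat_lit 0, nat_lit 1000, nat_lit 0, nat_lit 8, nat_lit 285, nat_lit 1000, nat_lit 157, nat_lit 0, nat_lit 0, nat_lit 0, nat_lit 0, nat_lit 0, nat_lit 38570531, nat_lit 20518329, nat_lit 7911140, nat_lit 5003313, true, true⟩,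
 nat_lit 0, nat_lit 4362, nat_lit 0, nat_lit 2215, nat_lit 3936, nat_lit 0, nat_lit 0, nat_lit 0, nat_lit 0, nat_lit 0, nat_lit 0, nat_lit 0, nat_lit 0, nat_lit 0, nat_lit 0, nat_lit 250000, nat_lit 0, nat_lit 0, [(nat_lit 26, [(nat_lit 0, nat_lit 1000)])],
 ⟨p107_k35, nat_lit 0, nat_lit 0, nat_lit 97, nat_lit 0, nat_lit 55298, [nat_lit 765600000, nat_lit 2090000000], [], [nat_lit 27191656392, nat_lit 27463614108, nat_lit 27725374743, nat_lit 27989845109, nat_lit 28323551904, nat_lit 28566641746, nat_lit 28799338720, nat_lit 29035909727], nat_lit 1271250, nat_lit 1271250, nat_lit 1271250, nat_lit 1271250, nat_lit 1100001, nat_lit 1716500, [nat_lit 230000, nat_lit 1420000], [nat_lit 88, nat_lit 40, nat_lit 40, nat_lit 80, nat_lit 89, nat_lit 272, nat_lit 60, nat_lit 8]⟩, C1.Rw.none,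
 ⟨nat_lit 2500, nat_lit 2739, ⟨.ofNat (nat_lit 699600), .ofNat (nat_lit 717318), .ofNat (nat_lit 710809), .ofNat (nat_lit 728527), .ofNat (nat_lit 696773), .ofNat (nat_lit 714192), .ofNat (nat_lit 708063), .ofNat (nat_lit 725482)⟩, ⟨.ofNat (nat_lit 328850), .ofNat (nat_lit 435161), .ofNat (nat_lit 351268), .ofNat (nat_lit 457578), .ofNat (nat_lit 329031), .ofNat (nat_lit 433547), .ofNat (nat_lit 351611), .ofNat (nat_lit 456128)⟩⟩, [⟨nat_lit 13, nat_lit 51, nat_lit 80, nat_lit 100, nat_lit 379342844⟩, ⟨nat_lit 4, nat_lit 100, nat_lit 51, nat_lit 89, nat_lit 172622006⟩]⟩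
noncomputable def p107_l104 : Lf2 := ⟨nat_lit 1, nat_lit 25, [nat_lit 44, nat_lit 5, nat_lit 5, nat_lit 20], false, nat_lit 160, nat_lit 232, nat_lit 16, nat_lit 376, zbN0,
 nat_lit 0, nat_lit 0, nat_lit 0, nat_lit 0, nat_lit 0, nat_lit 0, nat_lit 0, nat_lit 0, nat_lit 0, nat_lit 0, nat_lit 0, nat_lit 0, nat_lit 0, nat_lit 0, nat_lit 0, nat_lit 0, nat_lit 0, nat_lit 0, [],
 C1.Rw.none, C1.Rw.none,
 zbF0, []⟩
noncomputable def p107_l105 : Lf2 := ⟨nat_lit 0, nat_lit 25, [nat_lit 44, nat_lit 5, nat_lit 5, nat_lit 20], true, nat_lit 160, nat_lit 220, nat_lit 16, nat_lit 372, ⟨nat_lit 0, nat_lit 1000, nat_lit 0, nat_lit 8, nat_lit 282, nat_lit 1000, nat_lit 153, nat_lit 0, nat_lit 0, nat_lit 0, nat_lit 0, nat_lit 0, nat_lit 39040080, nat_lit 20275503, nat_lit 7684417, nat_lit 4958790, true, true⟩,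
 nat_lit 0, nat_lit 4348, nat_lit 0, nat_lit 1765, nat_lit 3993, nat_lit 0, nat_lit 0, nat_lit 0, nat_lit 0, nat_lit 0, nat_lit 0, nat_lit 0, nat_lit 0, nat_lit 0, nat_lit 0, nat_lit 250000, nat_lit 0, nat_lit 0, [(nat_lit 26, [(nat_lit 0, nat_lit 1000)])],
 ⟨p107_k31, nat_lit 0, nat_lit 0, nat_lit 111, nat_lit 0, nat_lit 99653, [nat_lit 765600000, nat_lit 1715200000, nat_lit 2090000000], [], [nat_lit 27446346129, nat_lit 27720084012, nat_lit 27622699249, nat_lit 27893914348, nat_lit 28360016225, nat_lit 28609446668, nat_lit 28520384879, nat_lit 28801056494], nat_lit 1271250, nat_lit 1271250, nat_lit 1271250, nat_lit 1271250, nat_lit 1100001, nat_lit 1613750, [nat_lit 230000, nat_lit 1100000, nat_lit 1442500], [nat_lit 55, nat_lit 40, nat_lit 40, nat_lit 80, nat_lit 3, nat_lit 272, nat_lit 60, nat_lit 8]⟩, C1.Rw.none,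
 ⟨nat_lit 2236, nat_lit 2500, ⟨.ofNat (nat_lit 696773), .ofNat (nat_lit 702579), .ofNat (nat_lit 708063), .ofNat (nat_lit 713869), .ofNat (nat_lit 693819), .ofNat (nat_lit 699521), .ofNat (nat_lit 705207), .ofNat (nat_lit 710908)⟩, ⟨.ofNat (nat_lit 329031), .ofNat (nat_lit 416128), .ofNat (nat_lit 351611), .ofNat (nat_lit 438708), .ofNat (nat_lit 329112), .ofNat (nat_lit 414635), .ofNat (nat_lit 351886), .ofNat (nat_lit 437409)⟩⟩, [⟨nat_lit 13, nat_lit 49, nat_lit 80, nat_lit 100, nat_lit 805286942⟩, ⟨nat_lit 4, nat_lit 100, nat_lit 46, nat_lit 89, nat_lit 197242618⟩]⟩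
noncomputable def p107_l106 : Lf2 := ⟨nat_lit 0, nat_lit 25, [nat_lit 44, nat_lit 5, nat_lit 5, nat_lit 20], false, nat_lit 160, nat_lit 232, nat_lit 16, nat_lit 372, ⟨nat_lit 1000, nat_lit 0, nat_lit 0, nat_lit 0, nat_lit 0, nat_lit 0, nat_lit 0, nat_lit 0, nat_lit 0, nat_lit 0, nat_lit 0, nat_lit 0, nat_lit 0, nat_lit 0, nat_lit 0, nat_lit 0, false, false⟩,
 nat_lit 20691, nat_lit 0, nat_lit 0, nat_lit 0, nat_lit 3475, nat_lit 10421, nat_lit 562, nat_lit 0, nat_lit 0, nat_lit 705, nat_lit 0, nat_lit 0, nat_lit 0, nat_lit 0, nat_lit 0, nat_lit 0, nat_lit 0, nat_lit 0, [],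
 ⟨p107_k1, nat_lit 0, nat_lit 0, nat_lit 112, nat_lit 0, nat_lit 53849, [nat_lit 938000000, nat_lit 3282000000, nat_lit 7968000000], [], [nat_lit 26734895575, nat_lit 26976253263, nat_lit 27530663600, nat_lit 27761537575, nat_lit 27812867673, nat_lit 28029814109, nat_lit 28666445168, nat_lit 28934418257], nat_lit 1271250, nat_lit 1271250, nat_lit 1271250, nat_lit 1271250, nat_lit 1100001, nat_lit 1716500, [nat_lit 230000, nat_lit 780000, nat_lit 1762500], [nat_lit 54, nat_lit 40, nat_lit 40, nat_lit 80, nat_lit 43, nat_lit 272, nat_lit 60, nat_lit 7]⟩, ⟨p107_k36, nat_lit 0, nat_lit 0, nat_lit 304, nat_lit 0, nat_lit 115182, [nat_lit 6250000000, nat_lit 9842000000, nat_lit 14058000000], [], [nat_lit 38673610402, nat_lit 38895501174, nat_lit 40316013245, nat_lit 40498386186, nat_lit 35317942192, nat_lit 35284739046, nat_lit 36061706272, nat_lit 36067507567], nat_lit 1271250, nat_lit 1271250, nat_lit 1271250, nat_lit 1271250,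 nat_lit 88400, nat_lit 2656050, [nat_lit 1412500, nat_lit 1271250, nat_lit 1271250], [nat_lit 60, nat_lit 40, nat_lit 40, nat_lit 80, nat_lit 32, nat_lit 483, nat_lit 250, nat_lit 11]⟩,
 zbF0, [⟨nat_lit 4, nat_lit 100, nat_lit 51, nat_lit 89, nat_lit 608533986⟩, ⟨nat_lit 7, nat_lit 61, nat_lit 100, nat_lit 91, nat_lit 153726620⟩]⟩
noncomputable def p107_l107 : Lf2 := ⟨nat_lit 0, nat_lit 25, [nat_lit 44, nat_lit 5, nat_lit 5, nat_lit 20], false, nat_lit 160, nat_lit 220, nat_lit 16, nat_lit 372, ⟨nat_lit 613, nat_lit 387, nat_lit 0, nat_lit 8, nat_lit 288, nat_lit 387, nat_lit 153, nat_lit 0, nat_lit 0, nat_lit 0, nat_lit 0, nat_lit 0, nat_lit 38494077, nat_lit 20894598, nat_lit 7611325, nat_lit 4979676, true, true⟩,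
 nat_lit 10654, nat_lit 0, nat_lit 0, nat_lit 0, nat_lit 5846, nat_lit 5365, nat_lit 0, nat_lit 0, nat_lit 0, nat_lit 593, nat_lit 0, nat_lit 0, nat_lit 0, nat_lit 0, nat_lit 0, nat_lit 96750, nat_lit 0, nat_lit 0, [(nat_lit 26, [(nat_lit 0, nat_lit 387)])],
 ⟨p107_k37, nat_lit 0, nat_lit 0, nat_lit 106, nat_lit 0, nat_lit 79917, [nat_lit 871281200, nat_lit 2541591600, nat_lit 4640080000], [], [nat_lit 29435065338, nat_lit 29766674264, nat_lit 30056071112, nat_lit 30377478388, nat_lit 30169299948, nat_lit 30468445685, nat_lit 30786809888, nat_lit 31147851930], nat_lit 1271250, nat_lit 1271250, nat_lit 1271250, nat_lit 1271250, nat_lit 1100001, nat_lit 1613750, [nat_lit 230000, nat_lit 780000, nat_lit 1435000], [nat_lit 20, nat_lit 40, nat_lit 40, nat_lit 80, nat_lit 16, nat_lit 272, nat_lit 60, nat_lit 8]⟩, ⟨p107_k36, nat_lit 0, nat_lit 0, nat_lit 376, nat_lit 0, nat_lit 174669, [nat_lit 3831250000, nat_lit 6033146000,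 nat_lit 8617554000], [], [nat_lit 22108669838, nat_lit 22167624474, nat_lit 22457477768, nat_lit 22508221741, nat_lit 20475167400, nat_lit 20477484044, nat_lit 20732163490, nat_lit 20728003287], nat_lit 1271250, nat_lit 1271250, nat_lit 1271250, nat_lit 1271250, nat_lit 88400, nat_lit 2656050, [nat_lit 1412500, nat_lit 1271250, nat_lit 1271250], [nat_lit 60, nat_lit 40, nat_lit 40, nat_lit 80, nat_lit 32, nat_lit 483, nat_lit 250, nat_lit 11]⟩,
 ⟨nat_lit 2236, nat_lit 2500, ⟨.ofNat (nat_lit 708063), .ofNat (nat_lit 725482), .ofNat (nat_lit 719353), .ofNat (nat_lit 736773), .ofNat (nat_lit 705207), .ofNat (nat_lit 722311), .ofNat (nat_lit 716594), .ofNat (nat_lit 733698)⟩, ⟨.ofNat (nat_lit 329031), .ofNat (nat_lit 416128), .ofNat (nat_lit 351611), .ofNat (nat_lit 438708), .ofNat (nat_lit 329112), .ofNat (nat_lit 414635), .ofNat (nat_lit 351886), .ofNat (nat_lit 437409)⟩⟩, [⟨nat_lit 13, nat_lit 47, nat_lit 81, nat_lit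 100, nat_lit 85978070⟩, ⟨nat_lit 13, nat_lit 44, nat_lit 83, nat_lit 100, nat_lit 203174299⟩, ⟨nat_lit 4, nat_lit 100, nat_lit 46, nat_lit 89, nat_lit 450766325⟩, ⟨nat_lit 7, nat_lit 61, nat_lit 100, nat_lit 91, nat_lit 108641370⟩]⟩
noncomputable def p107_l108 : Lf2 := ⟨nat_lit 0, nat_lit 27, [nat_lit 147, nat_lit 5, nat_lit 5, nat_lit 20], false, nat_lit 160, nat_lit 232, nat_lit 16, nat_lit 376, ⟨nat_lit 1000, nat_lit 0, nat_lit 0, nat_lit 0, nat_lit 0, nat_lit 0, nat_lit 0, nat_lit 0, nat_lit 0, nat_lit 0, nat_lit 0, nat_lit 0, nat_lit 0, nat_lit 0, nat_lit 0, nat_lit 0, false, false⟩,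
 nat_lit 6291, nat_lit 0, nat_lit 18531, nat_lit 1923, nat_lit 5677, nat_lit 11871, nat_lit 0, nat_lit 0, nat_lit 0, nat_lit 598, nat_lit 0, nat_lit 0, nat_lit 0, nat_lit 0, nat_lit 0, nat_lit 0, nat_lit 0, nat_lit 0, [],
 ⟨p107_k10, nat_lit 0, nat_lit 0, nat_lit 79, nat_lit 0, nat_lit 18465, [nat_lit 938000000, nat_lit 4688000000, nat_lit 7968000000], [], [nat_lit 28802957737, nat_lit 29499743782, nat_lit 29913176651, nat_lit 30645753652, nat_lit 29862915216, nat_lit 30477869823, nat_lit 30891049359, nat_lit 31570356526], nat_lit 1271250, nat_lit 1271250, nat_lit 1271250, nat_lit 1271250, nat_lit 1100001, nat_lit 1716500, [nat_lit 230000, nat_lit 1100000, nat_lit 1785000], [nat_lit 57, nat_lit 40, nat_lit 40, nat_lit 80, nat_lit 7, nat_lit 272, nat_lit 60, nat_lit 7]⟩, ⟨p107_k8, nat_lit 0, nat_lit 0, nat_lit 331, nat_lit 0, nat_lit 43205, [nat_lit 6250000000, nat_lit 11872000000, nat_lit 16400000000], [], [nat_lit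 43334889680, nat_lit 43563925520, nat_lit 44876473057, nat_lit 45030073536, nat_lit 36552761359, nat_lit 36306085815, nat_lit 37687545668, nat_lit 37953511211], nat_lit 1271250, nat_lit 1271250, nat_lit 1271250, nat_lit 1271250, nat_lit 88400, nat_lit 2684900, [nat_lit 1412500, nat_lit 1271250, nat_lit 1271250], [nat_lit 104, nat_lit 40, nat_lit 40, nat_lit 80, nat_lit 76, nat_lit 483, nat_lit 250, nat_lit 10]⟩,
 zbF0, [⟨nat_lit 13, nat_lit 49, nat_lit 80, nat_lit 100, nat_lit 383471118⟩, ⟨nat_lit 4, nat_lit 100, nat_lit 48, nat_lit 89, nat_lit 794655305⟩, ⟨nat_lit 22, nat_lit 76, nat_lit 67, nat_lit 100, nat_lit 134531247⟩]⟩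
noncomputable def p107_l109 : Lf2 := ⟨nat_lit 1, nat_lit 30, [nat_lit 15, nat_lit 5, nat_lit 5, nat_lit 20], false, nat_lit 160, nat_lit 248, nat_lit 16, nat_lit 384, zbN0,
 nat_lit 0, nat_lit 0, nat_lit 0, nat_lit 0, nat_lit 0, nat_lit 0, nat_lit 0, nat_lit 0, nat_lit 0, nat_lit 0, nat_lit 0, nat_lit 0, nat_lit 0, nat_lit 0, nat_lit 0, nat_lit 0, nat_lit 0, nat_lit 0, [],
 C1.Rw.none, C1.Rw.none,
 zbF0, []⟩
noncomputable def b_V_900_500_20_24 : St := ⟨true, nat_lit 1, nat_lit 1, nat_lit 1, nat_lit 120, nat_lit 360, nat_lit 380, nat_lit 200, nat_lit 240, nat_lit 320, nat_lit 352, nat_lit 80, nat_lit 120, nat_lit 160, nat_lit 248, nat_lit 0, nat_lit 384, nat_lit 80, nat_lit 120, nat_lit 0, nat_lit 0, nat_lit 0, nat_lit 0⟩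
theorem d_V_900_500_20_24 (h : EB TB.env) : Dead b_V_900_500_20_24 := chkB_sound0 h (T :=
(.trZ (nat_lit 9) (nat_lit 100) (nat_lit 82) (nat_lit 44) (nat_lit 16) (.spl (nat_lit 3) (nat_lit 100)
(.trX (nat_lit 16) (nat_lit 60) (nat_lit 100) (nat_lit 87) (nat_lit 224) (.trX (nat_lit 19) (nat_lit 100) (nat_lit 50) (nat_lit 87) (nat_lit 376) (.spl (nat_lit 1) (nat_lit 220)
(.trX (nat_lit 13) (nat_lit 60) (nat_lit 74) (nat_lit 100) (nat_lit 336) (.leaf p107_l95))
(.trX (nat_lit 19) (nat_lit 100) (nat_lit 59) (nat_lit 87) (nat_lit 364) (.spl (nat_lit 5) (nat_lit 160)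
(.leaf p107_l96)
(.spl (nat_lit 0) (nat_lit 370)
(.leaf p107_l97)
(.trX (nat_lit 13) (nat_lit 54) (nat_lit 74) (nat_lit 100) (nat_lit 340) (.trX (nat_lit 16) (nat_lit 53) (nat_lit 100) (nat_lit 87) (nat_lit 208) (.spl (nat_lit 0) (nat_lit 375)
(.leaf p107_l98)
(.trX (nat_lit 13) (nat_lit 49) (nat_lit 78) (nat_lit 100) (nat_lit 332) (.trX (nat_lit 16) (nat_lit 48) (nat_lit 100) (nat_lit 87) (nat_lit 200) (.trX (nat_lit 22) (nat_lit 80) (nat_lit 60) (nat_lit 100) (nat_lit 360) (.leaf p107_l99)))))))))))))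
(.spl (nat_lit 6) (nat_lit 108)
(.spl (nat_lit 1) (nat_lit 220)
(.trX (nat_lit 13) (nat_lit 60) (nat_lit 74) (nat_lit 100) (nat_lit 336) (.leaf p107_l100))
(.trX (nat_lit 19) (nat_lit 100) (nat_lit 49) (nat_lit 92) (nat_lit 376) (.spl (nat_lit 0) (nat_lit 370)
(.spl (nat_lit 6) (nat_lit 92)
(.leaf p107_l101)
(.leaf p107_l102))
(.trX (nat_lit 13) (nat_lit 54) (nat_lit 74) (nat_lit 100) (nat_lit 340) (.trX (nat_lit 16) (nat_lit 53) (nat_lit 100) (nat_lit 93) (nat_lit 232) (.spl (nat_lit 6) (nat_lit 100)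
(.spl (nat_lit 1) (nat_lit 230)
(.trX (nat_lit 13) (nat_lit 53) (nat_lit 77) (nat_lit 100) (nat_lit 332) (.spl (nat_lit 0) (nat_lit 375)
(.spl (nat_lit 6) (nat_lit 92)
(.leaf p107_l103)
(.leaf p107_l104))
(.trX (nat_lit 13) (nat_lit 49) (nat_lit 80) (nat_lit 100) (nat_lit 324) (.trX (nat_lit 16) (nat_lit 49) (nat_lit 100) (nat_lit 92) (nat_lit 220) (.trX (nat_lit 22) (nat_lit 80) (nat_lit 52) (nat_lit 100) (nat_lit 372) (.leaf p107_l105))))))
(.trX (nat_lit 19) (nat_lit 100) (nat_lit 54) (nat_lit 93) (nat_lit 372) (.spl (nat_lit 0) (nat_lit 375)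
(.leaf p107_l106)
(.trX (nat_lit 13) (nat_lit 49) (nat_lit 78) (nat_lit 100) (nat_lit 332) (.trX (nat_lit 16) (nat_lit 49) (nat_lit 100) (nat_lit 92) (nat_lit 220) (.leaf p107_l107))))))
(.leaf p107_l108)))))))
(.leaf p107_l109))))) (by decide +kernel)
noncomputable def p107_l110 : Lf2 := ⟨nat_lit 0, nat_lit 25, [nat_lit 44, nat_lit 5, nat_lit 5, nat_lit 20], false, nat_lit 20, nat_lit 80, nat_lit 0, nat_lit 336, ⟨nat_lit 87, nat_lit 481, nat_lit 432, nat_lit 6, nat_lit 243, nat_lit 913, nat_lit 49, nat_lit 432, nat_lit 22817, nat_lit 252, nat_lit 47906, nat_lit 200, nat_lit 47637011, nat_lit 17837164, nat_lit 1525825, nat_lit 3525753, true, true⟩,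
 nat_lit 2682, nat_lit 0, nat_lit 0, nat_lit 0, nat_lit 2506, nat_lit 1149, nat_lit 0, nat_lit 0, nat_lit 0, nat_lit 58, nat_lit 0, nat_lit 0, nat_lit 0, nat_lit 0, nat_lit 5, nat_lit 261100, nat_lit 0, nat_lit 0, [(nat_lit 29, [(nat_lit 0, nat_lit 481), (nat_lit 4, nat_lit 213), (nat_lit 5, nat_lit 219)])],
 ⟨p107_k38, nat_lit 0, nat_lit 0, nat_lit 213, nat_lit 0, nat_lit 192932, [nat_lit 769774800, nat_lit 126722000, nat_lit 282000], [], [nat_lit 23816559425, nat_lit 24302340174, nat_lit 24993059077, nat_lit 25505398735, nat_lit 23506717352, nat_lit 23971620508, nat_lit 24634352244, nat_lit 25085151698], nat_lit 1271250, nat_lit 1271250, nat_lit 1271250, nat_lit 1271250, nat_lit 111251, nat_lit 490000, [nat_lit 230000, nat_lit 1100000, nat_lit 1442500], [nat_lit 55, nat_lit 40, nat_lit 40, nat_lit 80, nat_lit 3, nat_lit 226, nat_lit 20, nat_lit 7]⟩, ⟨p107_k11, nat_lit 0, nat_lit 0, nat_lit 656, nat_lit 0, nat_lit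 539698, [nat_lit 543750000, nat_lit 1032864000, nat_lit 1426800000], [], [nat_lit 3828937548, nat_lit 3812670960, nat_lit 3868439280, nat_lit 3849745656, nat_lit 2898066992, nat_lit 2840154485, nat_lit 2895001244, nat_lit 2864261103], nat_lit 1271250, nat_lit 1271250, nat_lit 1271250, nat_lit 1271250, nat_lit 0, nat_lit 2373000, [nat_lit 1412500, nat_lit 1271250, nat_lit 1271250], [nat_lit 104, nat_lit 40, nat_lit 40, nat_lit 80, nat_lit 76, nat_lit 456, nat_lit 225, nat_lit 10]⟩,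
 ⟨nat_lit 1581, nat_lit 2237, ⟨.ofNat (nat_lit 557014), .ofNat (nat_lit 614030), .ofNat (nat_lit 602558), .ofNat (nat_lit 659578), .ofNat (nat_lit 554634), .ofNat (nat_lit 609270), .ofNat (nat_lit 601260), .ofNat (nat_lit 655900)⟩, ⟨.ofNat (nat_lit 50000), .ofNat (nat_lit 192306), .ofNat (nat_lit 50000), .ofNat (nat_lit 200000), .ofNat (nat_lit 50000), .ofNat (nat_lit 196201), .ofNat (nat_lit 50000), .ofNat (nat_lit 200000)⟩⟩, [⟨nat_lit 3, nat_lit 100, nat_lit 45, nat_lit 67, nat_lit 267385504⟩, ⟨nat_lit 22, nat_lit 100, nat_lit 96, nat_lit 69, nat_lit 2761221⟩]⟩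
noncomputable def p107_l111 : Lf2 := ⟨nat_lit 0, nat_lit 30, [nat_lit 15, nat_lit 5, nat_lit 5, nat_lit 20], false, nat_lit 32, nat_lit 80, nat_lit 0, nat_lit 336, ⟨nat_lit 197, nat_lit 147, nat_lit 656, nat_lit 6, nat_lit 243, nat_lit 803, nat_lit 56, nat_lit 656, nat_lit 29400, nat_lit 257, nat_lit 47906, nat_lit 200, nat_lit 47335559, nat_lit 17826629, nat_lit 1837812, nat_lit 3619352, true, true⟩,
 nat_lit 5976, nat_lit 0, nat_lit 0, nat_lit 0, nat_lit 2215, nat_lit 2561, nat_lit 0, nat_lit 0, nat_lit 0, nat_lit 127, nat_lit 0, nat_lit 0, nat_lit 0, nat_lit 0, nat_lit 86, nat_lit 321200, nat_lit 0, nat_lit 0, [(nat_lit 29, [(nat_lit 1, nat_lit 147), (nat_lit 5, nat_lit 656)])],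
 ⟨p107_k12, nat_lit 0, nat_lit 0, nat_lit 185, nat_lit 0, nat_lit 111552, [nat_lit 1020852400, nat_lit 396689440, nat_lit 346794800], [], [nat_lit 22903776560, nat_lit 23153944188, nat_lit 24111102874, nat_lit 24346967846, nat_lit 22662675830, nat_lit 22904600443, nat_lit 23841619210, nat_lit 24070074873], nat_lit 1271250, nat_lit 1271250, nat_lit 1271250, nat_lit 1271250, nat_lit 181601, nat_lit 490000, [nat_lit 230000, nat_lit 1100000, nat_lit 1785000], [nat_lit 57, nat_lit 40, nat_lit 40, nat_lit 80, nat_lit 7, nat_lit 226, nat_lit 20, nat_lit 6]⟩, ⟨p107_k11, nat_lit 0, nat_lit 0, nat_lit 525, nat_lit 0, nat_lit 315472, [nat_lit 1231250000, nat_lit 2338784000, nat_lit 3230800000], [], [nat_lit 8603001018, nat_lit 8609848738, nat_lit 8764020938, nat_lit 8741247738, nat_lit 6587691505, nat_lit 6508155986, nat_lit 6630540581, nat_lit 6564757697], nat_lit 1271250, nat_lit 1271250, nat_lit 1271250, nat_lit 1271250, nat_lit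 0, nat_lit 2373000, [nat_lit 1412500, nat_lit 1271250, nat_lit 1271250], [nat_lit 104, nat_lit 40, nat_lit 40, nat_lit 80, nat_lit 76, nat_lit 456, nat_lit 225, nat_lit 10]⟩,
 ⟨nat_lit 1936, nat_lit 2237, ⟨.ofNat (nat_lit 557014), .ofNat (nat_lit 614030), .ofNat (nat_lit 602562), .ofNat (nat_lit 659578), .ofNat (nat_lit 555888), .ofNat (nat_lit 611777), .ofNat (nat_lit 601908), .ofNat (nat_lit 657798)⟩, ⟨.ofNat (nat_lit 80000), .ofNat (nat_lit 200000), .ofNat (nat_lit 80000), .ofNat (nat_lit 200000), .ofNat (nat_lit 80000), .ofNat (nat_lit 200000), .ofNat (nat_lit 80000), .ofNat (nat_lit 200000)⟩⟩, [⟨nat_lit 3, nat_lit 100, nat_lit 46, nat_lit 71, nat_lit 207619943⟩, ⟨nat_lit 22, nat_lit 100, nat_lit 94, nat_lit 73, nat_lit 6832032⟩]⟩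
noncomputable def p107_l112 : Lf2 := ⟨nat_lit 0, nat_lit 30, [nat_lit 15, nat_lit 5, nat_lit 5, nat_lit 20], false, nat_lit 40, nat_lit 80, nat_lit 0, nat_lit 336, ⟨nat_lit 150, nat_lit 426, nat_lit 424, nat_lit 6, nat_lit 242, nat_lit 850, nat_lit 60, nat_lit 424, nat_lit 33750, nat_lit 260, nat_lit 44346, nat_lit 200, nat_lit 47226697, nat_lit 17735420, nat_lit 2037883, nat_lit 3670220, true, true⟩,
 nat_lit 4608, nat_lit 0, nat_lit 0, nat_lit 0, nat_lit 2484, nat_lit 1974, nat_lit 0, nat_lit 0, nat_lit 0, nat_lit 100, nat_lit 0, nat_lit 0, nat_lit 0, nat_lit 0, nat_lit 7, nat_lit 276100, nat_lit 0, nat_lit 0, [(nat_lit 29, [(nat_lit 0, nat_lit 426), (nat_lit 5, nat_lit 424)])],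
 ⟨p107_k16, nat_lit 0, nat_lit 0, nat_lit 170, nat_lit 0, nat_lit 136762, [nat_lit 753348001, nat_lit 154138400, nat_lit 10388000], [], [nat_lit 23615698925, nat_lit 23860048500, nat_lit 24813878007, nat_lit 25073068392, nat_lit 23367791112, nat_lit 23605157494, nat_lit 24499226641, nat_lit 24749606535], nat_lit 1271250, nat_lit 1271250, nat_lit 1271250, nat_lit 1271250, nat_lit 230001, nat_lit 490000, [nat_lit 230000, nat_lit 1100000, nat_lit 1442500], [nat_lit 55, nat_lit 40, nat_lit 40, nat_lit 80, nat_lit 3, nat_lit 226, nat_lit 20, nat_lit 7]⟩, ⟨p107_k11, nat_lit 0, nat_lit 0, nat_lit 557, nat_lit 0, nat_lit 395065, [nat_lit 937500000, nat_lit 1780800000, nat_lit 2460000000], [], [nat_lit 6614577384, nat_lit 6587040192, nat_lit 6682875072, nat_lit 6634442016, nat_lit 5001051308, nat_lit 4910107690, nat_lit 5004358916, nat_lit 4945121636], nat_lit 1271250, nat_lit 1271250, nat_lit 1271250, nat_lit 1271250, nat_lit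 0, nat_lit 2373000, [nat_lit 1412500, nat_lit 1271250, nat_lit 1271250], [nat_lit 104, nat_lit 40, nat_lit 40, nat_lit 80, nat_lit 76, nat_lit 456, nat_lit 225, nat_lit 10]⟩,
 ⟨nat_lit 1581, nat_lit 1937, ⟨.ofNat (nat_lit 555888), .ofNat (nat_lit 611777), .ofNat (nat_lit 601908), .ofNat (nat_lit 657798), .ofNat (nat_lit 554634), .ofNat (nat_lit 609270), .ofNat (nat_lit 601263), .ofNat (nat_lit 655900)⟩, ⟨.ofNat (nat_lit 100000), .ofNat (nat_lit 200000), .ofNat (nat_lit 100000), .ofNat (nat_lit 200000), .ofNat (nat_lit 100000), .ofNat (nat_lit 200000), .ofNat (nat_lit 100000), .ofNat (nat_lit 200000)⟩⟩, [⟨nat_lit 3, nat_lit 100, nat_lit 39, nat_lit 76, nat_lit 295705671⟩, ⟨nat_lit 22, nat_lit 100, nat_lit 92, nat_lit 75, nat_lit 4364340⟩]⟩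
noncomputable def p107_l113 : Lf2 := ⟨nat_lit 0, nat_lit 30, [nat_lit 15, nat_lit 5, nat_lit 5, nat_lit 20], false, nat_lit 36, nat_lit 80, nat_lit 0, nat_lit 336, ⟨nat_lit 90, nat_lit 440, nat_lit 470, nat_lit 6, nat_lit 241, nat_lit 910, nat_lit 58, nat_lit 470, nat_lit 30817, nat_lit 258, nat_lit 40548, nat_lit 200, nat_lit 47461021, nat_lit 17608645, nat_lit 1930334, nat_lit 3629939, true, true⟩,
 nat_lit 2759, nat_lit 0, nat_lit 0, nat_lit 0, nat_lit 2667, nat_lit 1182, nat_lit 0, nat_lit 0, nat_lit 0, nat_lit 59, nat_lit 0, nat_lit 0, nat_lit 0, nat_lit 0, nat_lit 0, nat_lit 227500, nat_lit 0, nat_lit 0, [(nat_lit 29, [(nat_lit 0, nat_lit 440), (nat_lit 4, nat_lit 470)])],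
 ⟨p107_k17, nat_lit 0, nat_lit 0, nat_lit 224, nat_lit 0, nat_lit 250563, [nat_lit 786276000, nat_lit 191500000, nat_lit 116176000], [], [nat_lit 24364682183, nat_lit 24856398098, nat_lit 25542701813, nat_lit 26209739287, nat_lit 24064817506, nat_lit 24540672848, nat_lit 25172921111, nat_lit 25675538336], nat_lit 1271250, nat_lit 1271250, nat_lit 1271250, nat_lit 1271250, nat_lit 205650, nat_lit 490000, [nat_lit 230000, nat_lit 1100000, nat_lit 1442500], [nat_lit 55, nat_lit 40, nat_lit 40, nat_lit 80, nat_lit 3, nat_lit 226, nat_lit 20, nat_lit 7]⟩, ⟨p107_k11, nat_lit 0, nat_lit 0, nat_lit 733, nat_lit 0, nat_lit 739147, [nat_lit 562500000, nat_lit 1068480000, nat_lit 1476000000], [], [nat_lit 3973168392, nat_lit 3956819616, nat_lit 4014212256, nat_lit 3990820182, nat_lit 3002126530, nat_lit 2950598717, nat_lit 3007042954, nat_lit 2980288951], nat_lit 1271250, nat_lit 1271250, nat_lit 1271250, nat_lit 1271250, nat_lit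 0, nat_lit 2373000, [nat_lit 1412500, nat_lit 1271250, nat_lit 1271250], [nat_lit 104, nat_lit 40, nat_lit 40, nat_lit 80, nat_lit 76, nat_lit 456, nat_lit 225, nat_lit 10]⟩,
 ⟨nat_lit 0, nat_lit 1582, ⟨.ofNat (nat_lit 554633), .ofNat (nat_lit 609267), .ofNat (nat_lit 601257), .ofNat (nat_lit 655899), .ofNat (nat_lit 549998), .ofNat (nat_lit 599996), .ofNat (nat_lit 599992), .ofNat (nat_lit 649998)⟩, ⟨.ofNat (nat_lit 90000), .ofNat (nat_lit 196201), .ofNat (nat_lit 90000), .ofNat (nat_lit 200000), .ofNat (nat_lit 90000), .ofNat (nat_lit 199999), .ofNat (nat_lit 90000), .ofNat (nat_lit 200000)⟩⟩, [⟨nat_lit 3, nat_lit 100, nat_lit 26, nat_lit 85, nat_lit 514527603⟩, ⟨nat_lit 22, nat_lit 100, nat_lit 93, nat_lit 74, nat_lit 2817078⟩]⟩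
noncomputable def p107_l114 : Lf2 := ⟨nat_lit 0, nat_lit 25, [nat_lit 44, nat_lit 5, nat_lit 5, nat_lit 20], false, nat_lit 20, nat_lit 80, nat_lit 0, nat_lit 300, ⟨nat_lit 165, nat_lit 689, nat_lit 146, nat_lit 7, nat_lit 266, nat_lit 835, nat_lit 49, nat_lit 146, nat_lit 22817, nat_lit 252, nat_lit 173340, nat_lit 200, nat_lit 45225804, nat_lit 20282666, nat_lit 1491530, nat_lit 3680343, true, true⟩,
 nat_lit 3962, nat_lit 0, nat_lit 0, nat_lit 0, nat_lit 2530, nat_lit 1698, nat_lit 0, nat_lit 0, nat_lit 0, nat_lit 149, nat_lit 0, nat_lit 0, nat_lit 0, nat_lit 0, nat_lit 0, nat_lit 334000, nat_lit 0, nat_lit 0, [(nat_lit 29, [(nat_lit 1, nat_lit 689), (nat_lit 5, nat_lit 146)])],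
 ⟨p107_k15, nat_lit 0, nat_lit 0, nat_lit 218, nat_lit 0, nat_lit 192932, [nat_lit 722633200, nat_lit 521630267, nat_lit 466522400], [], [nat_lit 25420507585, nat_lit 25934730373, nat_lit 27029349595, nat_lit 27512371663, nat_lit 25059319107, nat_lit 25516698067, nat_lit 26561586067, nat_lit 27014816512], nat_lit 1271250, nat_lit 1271250, nat_lit 1271250, nat_lit 1271250, nat_lit 111251, nat_lit 490000, [nat_lit 230000, nat_lit 780000, nat_lit 1435000], [nat_lit 20, nat_lit 40, nat_lit 40, nat_lit 80, nat_lit 16, nat_lit 226, nat_lit 20, nat_lit 7]⟩, ⟨p107_k5, nat_lit 0, nat_lit 0, nat_lit 642, nat_lit 0, nat_lit 539698, [nat_lit 1031250000, nat_lit 1623930000, nat_lit 2706000000], [], [nat_lit 7098983354, nat_lit 7048232042, nat_lit 7248495561, nat_lit 7180302761, nat_lit 5449532772, nat_lit 5426721429, nat_lit 5583562571, nat_lit 5558943110], nat_lit 1271250, nat_lit 1271250, nat_lit 1271250, nat_lit 1271250, nat_lit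 0, nat_lit 2118750, [nat_lit 1412500, nat_lit 1271250, nat_lit 1271250], [nat_lit 118, nat_lit 40, nat_lit 40, nat_lit 80, nat_lit 73, nat_lit 456, nat_lit 225, nat_lit 9]⟩,
 ⟨nat_lit 1581, nat_lit 2237, ⟨.ofNat (nat_lit 614030), .ofNat (nat_lit 676747), .ofNat (nat_lit 659578), .ofNat (nat_lit 722295), .ofNat (nat_lit 609270), .ofNat (nat_lit 669369), .ofNat (nat_lit 655900), .ofNat (nat_lit 715999)⟩, ⟨.ofNat (nat_lit 50000), .ofNat (nat_lit 192306), .ofNat (nat_lit 50000), .ofNat (nat_lit 200000), .ofNat (nat_lit 50000), .ofNat (nat_lit 196201), .ofNat (nat_lit 50000), .ofNat (nat_lit 200000)⟩⟩, [⟨nat_lit 13, nat_lit 38, nat_lit 89, nat_lit 100, nat_lit 346841474⟩, ⟨nat_lit 3, nat_lit 100, nat_lit 45, nat_lit 67, nat_lit 207437574⟩, ⟨nat_lit 22, nat_lit 88, nat_lit 100, nat_lit 67, nat_lit 4812577⟩]⟩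
noncomputable def p107_l115 : Lf2 := ⟨nat_lit 0, nat_lit 25, [nat_lit 44, nat_lit 5, nat_lit 5, nat_lit 20], false, nat_lit 36, nat_lit 80, nat_lit 0, nat_lit 300, ⟨nat_lit 122, nat_lit 878, nat_lit 0, nat_lit 7, nat_lit 257, nat_lit 878, nat_lit 58, nat_lit 0, nat_lit 0, nat_lit 0, nat_lit 0, nat_lit 0, nat_lit 45861944, nat_lit 19235920, nat_lit 1902136, nat_lit 3737070, true, true⟩,
 nat_lit 3014, nat_lit 0, nat_lit 0, nat_lit 0, nat_lit 2913, nat_lit 1291, nat_lit 33, nat_lit 0, nat_lit 0, nat_lit 116, nat_lit 0, nat_lit 0, nat_lit 0, nat_lit 0, nat_lit 0, nat_lit 219500, nat_lit 0, nat_lit 0, [(nat_lit 29, [(nat_lit 0, nat_lit 878)])],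
 ⟨p107_k39, nat_lit 0, nat_lit 0, nat_lit 192, nat_lit 0, nat_lit 239073, [nat_lit 800680800, nat_lit 1318792001, nat_lit 1780415200], [], [nat_lit 26213161541, nat_lit 26740121970, nat_lit 26931309238, nat_lit 27617076835, nat_lit 25803947643, nat_lit 26313680528, nat_lit 26500306780, nat_lit 26991071250], nat_lit 1271250, nat_lit 1271250, nat_lit 1271250, nat_lit 1271250, nat_lit 205650, nat_lit 490000, [nat_lit 230000, nat_lit 780000, nat_lit 1100000], [nat_lit 35, nat_lit 40, nat_lit 40, nat_lit 80, nat_lit 22, nat_lit 226, nat_lit 20, nat_lit 8]⟩, ⟨p107_k5, nat_lit 0, nat_lit 0, nat_lit 698, nat_lit 0, nat_lit 697336, [nat_lit 762500000, nat_lit 1200724000, nat_lit 2000800000], [], [nat_lit 5112339672, nat_lit 5071105748, nat_lit 5160434074, nat_lit 5111720708, nat_lit 3917492861, nat_lit 3897711493, nat_lit 3960896298, nat_lit 3936213026], nat_lit 1271250, nat_lit 1271250, nat_lit 1271250, nat_lit 1271250, nat_lit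 0, nat_lit 2118750, [nat_lit 1412500, nat_lit 1271250, nat_lit 1271250], [nat_lit 118, nat_lit 40, nat_lit 40, nat_lit 80, nat_lit 73, nat_lit 456, nat_lit 225, nat_lit 9]⟩,
 ⟨nat_lit 0, nat_lit 1582, ⟨.ofNat (nat_lit 609267), .ofNat (nat_lit 636584), .ofNat (nat_lit 655899), .ofNat (nat_lit 683216), .ofNat (nat_lit 599996), .ofNat (nat_lit 624995), .ofNat (nat_lit 649998), .ofNat (nat_lit 674997)⟩, ⟨.ofNat (nat_lit 90000), .ofNat (nat_lit 196201), .ofNat (nat_lit 90000), .ofNat (nat_lit 200000), .ofNat (nat_lit 90000), .ofNat (nat_lit 199999), .ofNat (nat_lit 90000), .ofNat (nat_lit 200000)⟩⟩, [⟨nat_lit 13, nat_lit 32, nat_lit 89, nat_lit 100, nat_lit 426390544⟩, ⟨nat_lit 3, nat_lit 100, nat_lit 39, nat_lit 72, nat_lit 284114573⟩, ⟨nat_lit 22, nat_lit 94, nat_lit 100, nat_lit 74, nat_lit 3552273⟩]⟩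
noncomputable def p107_l116 : Lf2 := ⟨nat_lit 0, nat_lit 30, [nat_lit 15, nat_lit 5, nat_lit 5, nat_lit 20], false, nat_lit 32, nat_lit 80, nat_lit 0, nat_lit 300, ⟨nat_lit 269, nat_lit 132, nat_lit 599, nat_lit 7, nat_lit 255, nat_lit 731, nat_lit 56, nat_lit 599, nat_lit 29400, nat_lit 257, nat_lit 82172, nat_lit 200, nat_lit 46104864, nat_lit 19077876, nat_lit 1817260, nat_lit 3701827, true, true⟩,
 nat_lit 6816, nat_lit 0, nat_lit 0, nat_lit 0, nat_lit 2609, nat_lit 2921, nat_lit 0, nat_lit 0, nat_lit 0, nat_lit 263, nat_lit 0, nat_lit 0, nat_lit 0, nat_lit 0, nat_lit 38, nat_lit 272600, nat_lit 0, nat_lit 0, [(nat_lit 29, [(nat_lit 0, nat_lit 132), (nat_lit 5, nat_lit 599)])],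
 ⟨p107_k40, nat_lit 0, nat_lit 0, nat_lit 243, nat_lit 0, nat_lit 181743, [nat_lit 863059600, nat_lit 415944801, nat_lit 313322000], [], [nat_lit 25087303351, nat_lit 26170055180, nat_lit 26099548272, nat_lit 27366622132, nat_lit 24706339800, nat_lit 25644372564, nat_lit 25635465455, nat_lit 26526548108], nat_lit 1271250, nat_lit 1271250, nat_lit 1271250, nat_lit 1271250, nat_lit 181601, nat_lit 490000, [nat_lit 230000, nat_lit 780000, nat_lit 1762500], [nat_lit 54, nat_lit 40, nat_lit 40, nat_lit 80, nat_lit 43, nat_lit 226, nat_lit 20, nat_lit 6]⟩, ⟨p107_k5, nat_lit 0, nat_lit 0, nat_lit 633, nat_lit 0, nat_lit 513975, [nat_lit 1681250000, nat_lit 2647498000, nat_lit 4411600000], [], [nat_lit 11099721326, nat_lit 11050374644, nat_lit 11247808620, nat_lit 11311157572, nat_lit 8403220073, nat_lit 8387126650, nat_lit 8638205683, nat_lit 8636644279], nat_lit 1271250, nat_lit 1271250, nat_lit 1271250, nat_lit 1271250,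 nat_lit 0, nat_lit 2118750, [nat_lit 1412500, nat_lit 1271250, nat_lit 1271250], [nat_lit 118, nat_lit 40, nat_lit 40, nat_lit 80, nat_lit 73, nat_lit 456, nat_lit 225, nat_lit 9]⟩,
 ⟨nat_lit 0, nat_lit 2237, ⟨.ofNat (nat_lit 614026), .ofNat (nat_lit 653935), .ofNat (nat_lit 636802), .ofNat (nat_lit 676711), .ofNat (nat_lit 599995), .ofNat (nat_lit 634993), .ofNat (nat_lit 624997), .ofNat (nat_lit 659995)⟩, ⟨.ofNat (nat_lit 80000), .ofNat (nat_lit 200000), .ofNat (nat_lit 80000), .ofNat (nat_lit 200000), .ofNat (nat_lit 80000), .ofNat (nat_lit 200000), .ofNat (nat_lit 80000), .ofNat (nat_lit 200000)⟩⟩, [⟨nat_lit 13, nat_lit 31, nat_lit 93, nat_lit 100, nat_lit 612521383⟩, ⟨nat_lit 3, nat_lit 100, nat_lit 35, nat_lit 79, nat_lit 252075608⟩, ⟨nat_lit 22, nat_lit 92, nat_lit 100, nat_lit 72, nat_lit 6246578⟩]⟩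
noncomputable def p107_l117 : Lf2 := ⟨nat_lit 0, nat_lit 30, [nat_lit 15, nat_lit 5, nat_lit 5, nat_lit 20], false, nat_lit 32, nat_lit 80, nat_lit 0, nat_lit 300, ⟨nat_lit 359, nat_lit 383, nat_lit 258, nat_lit 7, nat_lit 269, nat_lit 641, nat_lit 56, nat_lit 258, nat_lit 29400, nat_lit 257, nat_lit 173334, nat_lit 200, nat_lit 44703884, nat_lit 20505439, nat_lit 1790677, nat_lit 3784221, true, true⟩,
 nat_lit 7571, nat_lit 0, nat_lit 0, nat_lit 0, nat_lit 2840, nat_lit 3620, nat_lit 125, nat_lit 0, nat_lit 0, nat_lit 419, nat_lit 0, nat_lit 0, nat_lit 0, nat_lit 0, nat_lit 0, nat_lit 256400, nat_lit 0, nat_lit 0, [(nat_lit 29, [(nat_lit 1, nat_lit 383), (nat_lit 5, nat_lit 258)])],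
 ⟨p107_k40, nat_lit 0, nat_lit 0, nat_lit 248, nat_lit 0, nat_lit 196620, [nat_lit 757378001, nat_lit 847908401, nat_lit 1585618000], [], [nat_lit 25558427483, nat_lit 26676681793, nat_lit 27338775757, nat_lit 28621643607, nat_lit 24840224879, nat_lit 25808933519, nat_lit 26354064707, nat_lit 27429910320], nat_lit 1271250, nat_lit 1271250, nat_lit 1271250, nat_lit 1271250, nat_lit 181601, nat_lit 490000, [nat_lit 230000, nat_lit 780000, nat_lit 1762500], [nat_lit 54, nat_lit 40, nat_lit 40, nat_lit 80, nat_lit 43, nat_lit 226, nat_lit 20, nat_lit 6]⟩, ⟨p107_k27, nat_lit 0, nat_lit 0, nat_lit 613, nat_lit 0, nat_lit 475877, [nat_lit 2243750000, nat_lit 3533278000, nat_lit 5887600000], [], [nat_lit 12929781069, nat_lit 13068414179, nat_lit 13871356066, nat_lit 13960613489, nat_lit 10074098870, nat_lit 10052337985, nat_lit 10546597227, nat_lit 10543480869], nat_lit 1271250, nat_lit 1271250, nat_lit 1271250, nat_lit 1271250,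 nat_lit 0, nat_lit 2118750, [nat_lit 1412500, nat_lit 1271250, nat_lit 1271250], [nat_lit 118, nat_lit 40, nat_lit 40, nat_lit 80, nat_lit 73, nat_lit 456, nat_lit 225, nat_lit 9]⟩,
 ⟨nat_lit 0, nat_lit 2237, ⟨.ofNat (nat_lit 636802), .ofNat (nat_lit 699516), .ofNat (nat_lit 659577), .ofNat (nat_lit 722292), .ofNat (nat_lit 624997), .ofNat (nat_lit 679994), .ofNat (nat_lit 649998), .ofNat (nat_lit 704996)⟩, ⟨.ofNat (nat_lit 80000), .ofNat (nat_lit 200000), .ofNat (nat_lit 80000), .ofNat (nat_lit 200000), .ofNat (nat_lit 80000), .ofNat (nat_lit 200000), .ofNat (nat_lit 80000), .ofNat (nat_lit 200000)⟩⟩, [⟨nat_lit 13, nat_lit 32, nat_lit 90, nat_lit 100, nat_lit 462019147⟩, ⟨nat_lit 3, nat_lit 100, nat_lit 35, nat_lit 79, nat_lit 303227861⟩, ⟨nat_lit 22, nat_lit 100, nat_lit 95, nat_lit 87, nat_lit 9022714⟩]⟩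
noncomputable def b_V_900_500_20_25 : St := ⟨true, nat_lit 1, nat_lit 1, nat_lit 1, nat_lit 120, nat_lit 380, nat_lit 400, nat_lit 200, nat_lit 240, nat_lit 240, nat_lit 324, nat_lit 80, nat_lit 120, nat_lit 20, nat_lit 80, nat_lit 0, nat_lit 384, nat_lit 80, nat_lit 120, nat_lit 0, nat_lit 0, nat_lit 0, nat_lit 0⟩
theorem d_V_900_500_20_25 (h : EB TB.env) : Dead b_V_900_500_20_25 := chkB_sound0 h (T :=
(.trX (nat_lit 22) (nat_lit 100) (nat_lit 76) (nat_lit 82) (nat_lit 336) (.spl (nat_lit 2) (nat_lit 280)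
(.spl (nat_lit 0) (nat_lit 390)
(.spl (nat_lit 3) (nat_lit 100)
(.leaf p107_l110)
(.trZ (nat_lit 3) (nat_lit 100) (nat_lit 50) (nat_lit 65) (nat_lit 32) (.spl (nat_lit 0) (nat_lit 385)
(.leaf p107_l111)
(.trZ (nat_lit 3) (nat_lit 100) (nat_lit 44) (nat_lit 71) (nat_lit 40) (.leaf p107_l112)))))
(.trZ (nat_lit 3) (nat_lit 100) (nat_lit 39) (nat_lit 72) (nat_lit 36) (.leaf p107_l113)))
(.trX (nat_lit 22) (nat_lit 100) (nat_lit 95) (nat_lit 87) (nat_lit 300) (.spl (nat_lit 3) (nat_lit 100)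
(.spl (nat_lit 0) (nat_lit 390)
(.leaf p107_l114)
(.trX (nat_lit 13) (nat_lit 32) (nat_lit 89) (nat_lit 100) (nat_lit 300) (.trZ (nat_lit 3) (nat_lit 100) (nat_lit 39) (nat_lit 72) (nat_lit 36) (.leaf p107_l115))))
(.trZ (nat_lit 3) (nat_lit 100) (nat_lit 50) (nat_lit 65) (nat_lit 32) (.spl (nat_lit 1) (nat_lit 220)
(.trX (nat_lit 13) (nat_lit 44) (nat_lit 86) (nat_lit 100) (nat_lit 308) (.leaf p107_l116))
(.leaf p107_l117)))))))) (by decide +kernel)
noncomputable def p107_l118 : Lf2 := ⟨nat_lit 0, nat_lit 30, [nat_lit 15, nat_lit 5, nat_lit 5, nat_lit 20], false, nat_lit 80, nat_lit 160, nat_lit 0, nat_lit 384, ⟨nat_lit 88, nat_lit 229, nat_lit 683, nat_lit 6, nat_lit 243, nat_lit 912, nat_lit 105, nat_lit 683, nat_lit 104017, nat_lit 294, nat_lit 47906, nat_lit 200, nat_lit 44947982, nat_lit 17380093, nat_lit 4671925, nat_lit 4264535, true, true⟩,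
 nat_lit 2807, nat_lit 144, nat_lit 0, nat_lit 1085, nat_lit 2757, nat_lit 1202, nat_lit 0, nat_lit 0, nat_lit 0, nat_lit 54, nat_lit 0, nat_lit 0, nat_lit 0, nat_lit 0, nat_lit 46, nat_lit 228000, nat_lit 0, nat_lit 0, [(nat_lit 29, [(nat_lit 0, nat_lit 229), (nat_lit 4, nat_lit 683)])],
 ⟨p107_k12, nat_lit 0, nat_lit 0, nat_lit 170, nat_lit 0, nat_lit 173838, [nat_lit 965703201, nat_lit 275100000, nat_lit 179331600], [], [nat_lit 22843248734, nat_lit 23112274474, nat_lit 24080815586, nat_lit 24364204843, nat_lit 23487651764, nat_lit 23733544484, nat_lit 24626609378, nat_lit 24856153868], nat_lit 1271250, nat_lit 1271250, nat_lit 1271250, nat_lit 1271250, nat_lit 490000, nat_lit 1100001, [nat_lit 230000, nat_lit 1100000, nat_lit 1785000], [nat_lit 57, nat_lit 40, nat_lit 40, nat_lit 80, nat_lit 7, nat_lit 249, nat_lit 40, nat_lit 7]⟩, ⟨p107_k11, nat_lit 0, nat_lit 0, nat_lit 637, nat_lit 0, nat_lit 491620, [nat_lit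 550000000, nat_lit 1044736000, nat_lit 1443200000], [], [nat_lit 3866071388, nat_lit 3865522436, nat_lit 3941917444, nat_lit 4003516500, nat_lit 3357934903, nat_lit 3164905489, nat_lit 3231641833, nat_lit 3181977067], nat_lit 1271250, nat_lit 1271250, nat_lit 1271250, nat_lit 1271250, nat_lit 0, nat_lit 2712000, [nat_lit 1412500, nat_lit 1271250, nat_lit 1271250], [nat_lit 104, nat_lit 40, nat_lit 40, nat_lit 80, nat_lit 76, nat_lit 483, nat_lit 250, nat_lit 10]⟩,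
 ⟨nat_lit 1936, nat_lit 2237, ⟨.ofNat (nat_lit 557014), .ofNat (nat_lit 614030), .ofNat (nat_lit 602562), .ofNat (nat_lit 659578), .ofNat (nat_lit 555888), .ofNat (nat_lit 611777), .ofNat (nat_lit 601908), .ofNat (nat_lit 657798)⟩, ⟨.ofNat (nat_lit 192306), .ofNat (nat_lit 306337), .ofNat (nat_lit 200000), .ofNat (nat_lit 351886), .ofNat (nat_lit 194266), .ofNat (nat_lit 306044), .ofNat (nat_lit 200000), .ofNat (nat_lit 352066)⟩⟩, [⟨nat_lit 22, nat_lit 100, nat_lit 69, nat_lit 96, nat_lit 7235326⟩]⟩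
noncomputable def p107_l119 : Lf2 := ⟨nat_lit 0, nat_lit 30, [nat_lit 15, nat_lit 5, nat_lit 5, nat_lit 20], true, nat_lit 80, nat_lit 160, nat_lit 0, nat_lit 384, ⟨nat_lit 0, nat_lit 689, nat_lit 311, nat_lit 6, nat_lit 242, nat_lit 1000, nat_lit 105, nat_lit 311, nat_lit 104017, nat_lit 294, nat_lit 44346, nat_lit 200, nat_lit 44995752, nat_lit 17318805, nat_lit 4685443, nat_lit 4262660, true, true⟩,
 nat_lit 0, nat_lit 2920, nat_lit 0, nat_lit 0, nat_lit 2775, nat_lit 0, nat_lit 0, nat_lit 0, nat_lit 0, nat_lit 0, nat_lit 0, nat_lit 0, nat_lit 0, nat_lit 0, nat_lit 0, nat_lit 272950, nat_lit 0, nat_lit 0, [(nat_lit 29, [(nat_lit 0, nat_lit 689), (nat_lit 4, nat_lit 158), (nat_lit 5, nat_lit 153)])],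
 ⟨p107_k16, nat_lit 0, nat_lit 0, nat_lit 199, nat_lit 0, nat_lit 288083, [nat_lit 749676001, nat_lit 217163201, nat_lit 156878800], [], [nat_lit 23296909191, nat_lit 23544521828, nat_lit 24470163916, nat_lit 24731617378, nat_lit 23961938778, nat_lit 24188482753, nat_lit 25092331253, nat_lit 25331470903], nat_lit 1271250, nat_lit 1271250, nat_lit 1271250, nat_lit 1271250, nat_lit 490000, nat_lit 1100001, [nat_lit 230000, nat_lit 1100000, nat_lit 1442500], [nat_lit 55, nat_lit 40, nat_lit 40, nat_lit 80, nat_lit 3, nat_lit 249, nat_lit 40, nat_lit 8]⟩, C1.Rw.none,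
 ⟨nat_lit 1581, nat_lit 1937, ⟨.ofNat (nat_lit 555888), .ofNat (nat_lit 611777), .ofNat (nat_lit 601908), .ofNat (nat_lit 657798), .ofNat (nat_lit 554634), .ofNat (nat_lit 609270), .ofNat (nat_lit 601263), .ofNat (nat_lit 655900)⟩, ⟨.ofNat (nat_lit 194266), .ofNat (nat_lit 306044), .ofNat (nat_lit 200000), .ofNat (nat_lit 352066), .ofNat (nat_lit 196201), .ofNat (nat_lit 305473), .ofNat (nat_lit 200000), .ofNat (nat_lit 352103)⟩⟩, []⟩
noncomputable def p107_l120 : Lf2 := ⟨nat_lit 0, nat_lit 30, [nat_lit 15, nat_lit 5, nat_lit 5, nat_lit 20], false, nat_lit 80, nat_lit 160, nat_lit 0, nat_lit 384, ⟨nat_lit 40, nat_lit 581, nat_lit 379, nat_lit 6, nat_lit 242, nat_lit 960, nat_lit 105, nat_lit 379, nat_lit 104017, nat_lit 294, nat_lit 40550, nat_lit 200, nat_lit 45053930, nat_lit 17250910, nat_lit 4695160, nat_lit 4259506, true, true⟩,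
 nat_lit 1219, nat_lit 1707, nat_lit 0, nat_lit 0, nat_lit 2829, nat_lit 522, nat_lit 0, nat_lit 0, nat_lit 0, nat_lit 24, nat_lit 0, nat_lit 0, nat_lit 0, nat_lit 0, nat_lit 0, nat_lit 240000, nat_lit 0, nat_lit 0, [(nat_lit 29, [(nat_lit 0, nat_lit 581), (nat_lit 4, nat_lit 379)])],
 ⟨p107_k17, nat_lit 0, nat_lit 0, nat_lit 170, nat_lit 0, nat_lit 222429, [nat_lit 780276000, nat_lit 313043201, nat_lit 294160400], [], [nat_lit 23732960428, nat_lit 23982474433, nat_lit 24890654117, nat_lit 25154401985, nat_lit 24360305931, nat_lit 24588491992, nat_lit 25472573756, nat_lit 25713493570], nat_lit 1271250, nat_lit 1271250, nat_lit 1271250, nat_lit 1271250, nat_lit 490000, nat_lit 1100001, [nat_lit 230000, nat_lit 1100000, nat_lit 1442500], [nat_lit 55, nat_lit 40, nat_lit 40, nat_lit 80, nat_lit 3, nat_lit 249, nat_lit 40, nat_lit 8]⟩, ⟨p107_k11, nat_lit 0, nat_lit 0, nat_lit 701, nat_lit 0, nat_lit 656154, [nat_lit 250000000,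 nat_lit 474880000, nat_lit 656000000], [], [nat_lit 1772893264, nat_lit 1774159256, nat_lit 1805575056, nat_lit 1803573672, nat_lit 1534788151, nat_lit 1451560101, nat_lit 1480634384, nat_lit 1460453656], nat_lit 1271250, nat_lit 1271250, nat_lit 1271250, nat_lit 1271250, nat_lit 0, nat_lit 2712000, [nat_lit 1412500, nat_lit 1271250, nat_lit 1271250], [nat_lit 104, nat_lit 40, nat_lit 40, nat_lit 80, nat_lit 76, nat_lit 483, nat_lit 250, nat_lit 10]⟩,
 ⟨nat_lit 1118, nat_lit 1582, ⟨.ofNat (nat_lit 554634), .ofNat (nat_lit 609270), .ofNat (nat_lit 601263), .ofNat (nat_lit 655900), .ofNat (nat_lit 553126), .ofNat (nat_lit 606253), .ofNat (nat_lit 600626), .ofNat (nat_lit 653755)⟩, ⟨.ofNat (nat_lit 196201), .ofNat (nat_lit 305473), .ofNat (nat_lit 200000), .ofNat (nat_lit 352103), .ofNat (nat_lit 198112), .ofNat (nat_lit 304366), .ofNat (nat_lit 200000), .ofNat (nat_lit 351868)⟩⟩, [⟨nat_lit 22, nat_lit 100, nat_lit 69,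 nat_lit 96, nat_lit 3791323⟩]⟩
noncomputable def p107_l121 : Lf2 := ⟨nat_lit 0, nat_lit 30, [nat_lit 15, nat_lit 5, nat_lit 5, nat_lit 20], false, nat_lit 80, nat_lit 160, nat_lit 0, nat_lit 384, ⟨nat_lit 43, nat_lit 576, nat_lit 381, nat_lit 6, nat_lit 241, nat_lit 957, nat_lit 105, nat_lit 381, nat_lit 104017, nat_lit 294, nat_lit 36256, nat_lit 200, nat_lit 45162684, nat_lit 17149480, nat_lit 4687836, nat_lit 4250390, true, true⟩,
 nat_lit 1307, nat_lit 1571, nat_lit 0, nat_lit 0, nat_lit 2830, nat_lit 560, nat_lit 0, nat_lit 0, nat_lit 0, nat_lit 26, nat_lit 0, nat_lit 0, nat_lit 0, nat_lit 0, nat_lit 0, nat_lit 239250, nat_lit 0, nat_lit 0, [(nat_lit 29, [(nat_lit 0, nat_lit 576), (nat_lit 4, nat_lit 381)])],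
 ⟨p107_k41, nat_lit 0, nat_lit 0, nat_lit 178, nat_lit 0, nat_lit 245423, [nat_lit 780705200, nat_lit 316667601, nat_lit 298734400], [], [nat_lit 23989604906, nat_lit 24239154121, nat_lit 25158764995, nat_lit 25500971840, nat_lit 24595309971, nat_lit 24825048440, nat_lit 25717758900, nat_lit 25958711680], nat_lit 1271250, nat_lit 1271250, nat_lit 1271250, nat_lit 1271250, nat_lit 490000, nat_lit 1100001, [nat_lit 230000, nat_lit 1100000, nat_lit 1442500], [nat_lit 55, nat_lit 40, nat_lit 40, nat_lit 80, nat_lit 3, nat_lit 249, nat_lit 40, nat_lit 8]⟩, ⟨p107_k11, nat_lit 0, nat_lit 0, nat_lit 733, nat_lit 0, nat_lit 739147, [nat_lit 268750000, nat_lit 510496000, nat_lit 705200000], [], [nat_lit 1907012656, nat_lit 1904655020, nat_lit 1938362720, nat_lit 1934703228, nat_lit 1650296308, nat_lit 1557665660, nat_lit 1588861021, nat_lit 1567279747], nat_lit 1271250, nat_lit 1271250, nat_lit 1271250, nat_lit 1271250, nat_lit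 0, nat_lit 2712000, [nat_lit 1412500, nat_lit 1271250, nat_lit 1271250], [nat_lit 104, nat_lit 40, nat_lit 40, nat_lit 80, nat_lit 76, nat_lit 483, nat_lit 250, nat_lit 10]⟩,
 ⟨nat_lit 0, nat_lit 1119, ⟨.ofNat (nat_lit 553124), .ofNat (nat_lit 606249), .ofNat (nat_lit 600626), .ofNat (nat_lit 653753), .ofNat (nat_lit 549997), .ofNat (nat_lit 599995), .ofNat (nat_lit 599998), .ofNat (nat_lit 649997)⟩, ⟨.ofNat (nat_lit 198112), .ofNat (nat_lit 304362), .ofNat (nat_lit 200000), .ofNat (nat_lit 351866), .ofNat (nat_lit 199999), .ofNat (nat_lit 299995), .ofNat (nat_lit 200000), .ofNat (nat_lit 349997)⟩⟩, [⟨nat_lit 13, nat_lit 23, nat_lit 93, nat_lit 100, nat_lit 503880096⟩, ⟨nat_lit 22, nat_lit 100, nat_lit 69, nat_lit 96, nat_lit 4065942⟩]⟩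
noncomputable def p107_l122 : Lf2 := ⟨nat_lit 0, nat_lit 30, [nat_lit 15, nat_lit 5, nat_lit 5, nat_lit 20], false, nat_lit 160, nat_lit 208, nat_lit 0, nat_lit 384, ⟨nat_lit 0, nat_lit 409, nat_lit 591, nat_lit 6, nat_lit 243, nat_lit 1000, nat_lit 145, nat_lit 591, nat_lit 198017, nat_lit 324, nat_lit 47906, nat_lit 200, nat_lit 42672817, nat_lit 16866971, nat_lit 7460212, nat_lit 4710326, true, true⟩,
 nat_lit 0, nat_lit 2795, nat_lit 0, nat_lit 2999, nat_lit 2611, nat_lit 0, nat_lit 0, nat_lit 0, nat_lit 0, nat_lit 0, nat_lit 0, nat_lit 0, nat_lit 0, nat_lit 0, nat_lit 45, nat_lit 250000, nat_lit 0, nat_lit 0, [(nat_lit 29, [(nat_lit 0, nat_lit 409), (nat_lit 4, nat_lit 591)])],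
 ⟨p107_k12, nat_lit 0, nat_lit 0, nat_lit 144, nat_lit 0, nat_lit 173838, [nat_lit 949780001, nat_lit 291695201, nat_lit 98974800], [], [nat_lit 23452898483, nat_lit 23699036729, nat_lit 24598588923, nat_lit 24828396623, nat_lit 24379350512, nat_lit 24609580839, nat_lit 25468159402, nat_lit 25728652168], nat_lit 1271250, nat_lit 1271250, nat_lit 1271250, nat_lit 1271250, nat_lit 1100001, nat_lit 1511000, [nat_lit 230000, nat_lit 1100000, nat_lit 1785000], [nat_lit 57, nat_lit 40, nat_lit 40, nat_lit 80, nat_lit 7, nat_lit 272, nat_lit 60, nat_lit 7]⟩, ⟨p107_k11, nat_lit 0, nat_lit 0, nat_lit 637, nat_lit 0, nat_lit 491620, [nat_lit 0, nat_lit 0, nat_lit 0], [], [nat_lit 0, nat_lit 0, nat_lit 0, nat_lit 0, nat_lit 0, nat_lit 0, nat_lit 0, nat_lit 0], nat_lit 1271250, nat_lit 1271250, nat_lit 1271250, nat_lit 1271250, nat_lit 0, nat_lit 2712000, [nat_lit 1412500, nat_lit 1271250, nat_lit 1271250], [nat_lit 104, nat_lit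 40, nat_lit 40, nat_lit 80, nat_lit 76, nat_lit 483, nat_lit 250, nat_lit 10]⟩,
 ⟨nat_lit 1936, nat_lit 2237, ⟨.ofNat (nat_lit 557014), .ofNat (nat_lit 614030), .ofNat (nat_lit 602562), .ofNat (nat_lit 659578), .ofNat (nat_lit 555888), .ofNat (nat_lit 611777), .ofNat (nat_lit 601908), .ofNat (nat_lit 657798)⟩, ⟨.ofNat (nat_lit 306337), .ofNat (nat_lit 374756), .ofNat (nat_lit 351886), .ofNat (nat_lit 420305), .ofNat (nat_lit 306044), .ofNat (nat_lit 373111), .ofNat (nat_lit 352066), .ofNat (nat_lit 419133)⟩⟩, [⟨nat_lit 4, nat_lit 100, nat_lit 41, nat_lit 87, nat_lit 274860243⟩]⟩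
noncomputable def p107_l123 : Lf2 := ⟨nat_lit 0, nat_lit 30, [nat_lit 15, nat_lit 5, nat_lit 5, nat_lit 20], true, nat_lit 160, nat_lit 196, nat_lit 0, nat_lit 384, ⟨nat_lit 0, nat_lit 676, nat_lit 324, nat_lit 6, nat_lit 242, nat_lit 1000, nat_lit 142, nat_lit 324, nat_lit 187267, nat_lit 321, nat_lit 44346, nat_lit 200, nat_lit 42941026, nat_lit 16862366, nat_lit 7196608, nat_lit 4669608, true, true⟩,
 nat_lit 0, nat_lit 3085, nat_lit 0, nat_lit 351, nat_lit 2932, nat_lit 0, nat_lit 0, nat_lit 0, nat_lit 0, nat_lit 0, nat_lit 0, nat_lit 0, nat_lit 0, nat_lit 0, nat_lit 0, nat_lit 250000, nat_lit 0, nat_lit 0, [(nat_lit 29, [(nat_lit 0, nat_lit 676), (nat_lit 4, nat_lit 324)])],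
 ⟨p107_k16, nat_lit 0, nat_lit 0, nat_lit 160, nat_lit 0, nat_lit 288083, [nat_lit 775120001, nat_lit 354115201, nat_lit 358078400], [], [nat_lit 23989935055, nat_lit 24221253243, nat_lit 25108897139, nat_lit 25369346976, nat_lit 24632216334, nat_lit 24881302635, nat_lit 25767192583, nat_lit 26069316567], nat_lit 1271250, nat_lit 1271250, nat_lit 1271250, nat_lit 1271250, nat_lit 1100001, nat_lit 1408250, [nat_lit 230000, nat_lit 1100000, nat_lit 1442500], [nat_lit 55, nat_lit 40, nat_lit 40, nat_lit 80, nat_lit 3, nat_lit 260, nat_lit 50, nat_lit 8]⟩, C1.Rw.none,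
 ⟨nat_lit 1581, nat_lit 1937, ⟨.ofNat (nat_lit 555888), .ofNat (nat_lit 611777), .ofNat (nat_lit 601908), .ofNat (nat_lit 657798), .ofNat (nat_lit 554634), .ofNat (nat_lit 609270), .ofNat (nat_lit 601263), .ofNat (nat_lit 655900)⟩, ⟨.ofNat (nat_lit 306044), .ofNat (nat_lit 356345), .ofNat (nat_lit 352066), .ofNat (nat_lit 402366), .ofNat (nat_lit 305473), .ofNat (nat_lit 354645), .ofNat (nat_lit 352103), .ofNat (nat_lit 401275)⟩⟩, [⟨nat_lit 16, nat_lit 38, nat_lit 100, nat_lit 92, nat_lit 297324206⟩]⟩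
noncomputable def p107_l124 : Lf2 := ⟨nat_lit 0, nat_lit 30, [nat_lit 15, nat_lit 5, nat_lit 5, nat_lit 20], true, nat_lit 160, nat_lit 184, nat_lit 0, nat_lit 384, ⟨nat_lit 0, nat_lit 662, nat_lit 338, nat_lit 6, nat_lit 241, nat_lit 1000, nat_lit 137, nat_lit 338, nat_lit 176817, nat_lit 318, nat_lit 40548, nat_lit 200, nat_lit 43322839, nat_lit 16795366, nat_lit 6881795, nat_lit 4614998, true, true⟩,
 nat_lit 0, nat_lit 3019, nat_lit 0, nat_lit 0, nat_lit 2919, nat_lit 0, nat_lit 0, nat_lit 0, nat_lit 0, nat_lit 0, nat_lit 0, nat_lit 0, nat_lit 0, nat_lit 0, nat_lit 0, nat_lit 250000, nat_lit 0, nat_lit 0, [(nat_lit 29, [(nat_lit 0, nat_lit 662), (nat_lit 4, nat_lit 338)])],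
 ⟨p107_k17, nat_lit 0, nat_lit 0, nat_lit 198, nat_lit 0, nat_lit 362978, [nat_lit 774840001, nat_lit 309942401, nat_lit 296360800], [], [nat_lit 24144302833, nat_lit 24660923095, nat_lit 25313076344, nat_lit 25950187272, nat_lit 24606615933, nat_lit 25112606476, nat_lit 25808821678, nat_lit 26423250220], nat_lit 1271250, nat_lit 1271250, nat_lit 1271250, nat_lit 1271250, nat_lit 1100001, nat_lit 1305500, [nat_lit 230000, nat_lit 1100000, nat_lit 1442500], [nat_lit 55, nat_lit 40, nat_lit 40, nat_lit 80, nat_lit 3, nat_lit 260, nat_lit 50, nat_lit 8]⟩, C1.Rw.none,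
 ⟨nat_lit 0, nat_lit 1582, ⟨.ofNat (nat_lit 554633), .ofNat (nat_lit 609267), .ofNat (nat_lit 601257), .ofNat (nat_lit 655899), .ofNat (nat_lit 549998), .ofNat (nat_lit 599996), .ofNat (nat_lit 599992), .ofNat (nat_lit 649998)⟩, ⟨.ofNat (nat_lit 305469), .ofNat (nat_lit 338250), .ofNat (nat_lit 352101), .ofNat (nat_lit 384882), .ofNat (nat_lit 299995), .ofNat (nat_lit 329995), .ofNat (nat_lit 349997), .ofNat (nat_lit 379997)⟩⟩, [⟨nat_lit 16, nat_lit 31, nat_lit 100, nat_lit 92, nat_lit 462134022⟩]⟩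
noncomputable def p107_l125 : Lf2 := ⟨nat_lit 0, nat_lit 25, [nat_lit 44, nat_lit 5, nat_lit 5, nat_lit 20], true, nat_lit 80, nat_lit 188, nat_lit 0, nat_lit 376, ⟨nat_lit 0, nat_lit 727, nat_lit 273, nat_lit 7, nat_lit 257, nat_lit 1000, nat_lit 111, nat_lit 273, nat_lit 114817, nat_lit 298, nat_lit 82180, nat_lit 200, nat_lit 43354586, nat_lit 18684144, nat_lit 4961270, nat_lit 4412599, true, true⟩,
 nat_lit 0, nat_lit 2967, nat_lit 0, nat_lit 0, nat_lit 2772, nat_lit 0, nat_lit 0, nat_lit 0, nat_lit 0, nat_lit 0, nat_lit 0, nat_lit 0, nat_lit 0, nat_lit 0, nat_lit 0, nat_lit 276100, nat_lit 0, nat_lit 0, [(nat_lit 29, [(nat_lit 0, nat_lit 728), (nat_lit 4, nat_lit 98), (nat_lit 5, nat_lit 174)])],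
 ⟨p107_k38, nat_lit 0, nat_lit 0, nat_lit 180, nat_lit 0, nat_lit 250487, [nat_lit 746928000, nat_lit 315788800, nat_lit 293324800], [], [nat_lit 24449958528, nat_lit 24912225688, nat_lit 25381741515, nat_lit 25966204053, nat_lit 25511787631, nat_lit 25969275797, nat_lit 26412900016, nat_lit 26849905075], nat_lit 1271250, nat_lit 1271250, nat_lit 1271250, nat_lit 1271250, nat_lit 490000, nat_lit 1333750, [nat_lit 230000, nat_lit 1100000, nat_lit 1442500], [nat_lit 55, nat_lit 40, nat_lit 40, nat_lit 80, nat_lit 3, nat_lit 260, nat_lit 50, nat_lit 8]⟩, C1.Rw.none,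
 ⟨nat_lit 1581, nat_lit 2237, ⟨.ofNat (nat_lit 614030), .ofNat (nat_lit 653941), .ofNat (nat_lit 636804), .ofNat (nat_lit 676715), .ofNat (nat_lit 609270), .ofNat (nat_lit 647515), .ofNat (nat_lit 632585), .ofNat (nat_lit 670830)⟩, ⟨.ofNat (nat_lit 192306), .ofNat (nat_lit 346248), .ofNat (nat_lit 200000), .ofNat (nat_lit 369022), .ofNat (nat_lit 196201), .ofNat (nat_lit 343718), .ofNat (nat_lit 200000), .ofNat (nat_lit 367033)⟩⟩, [⟨nat_lit 13, nat_lit 38, nat_lit 91, nat_lit 100, nat_lit 388461552⟩, ⟨nat_lit 13, nat_lit 44, nat_lit 86, nat_lit 100, nat_lit 64253700⟩, ⟨nat_lit 4, nat_lit 100, nat_lit 39, nat_lit 85, nat_lit 98965778⟩]⟩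
noncomputable def p107_l126 : Lf2 := ⟨nat_lit 0, nat_lit 25, [nat_lit 44, nat_lit 5, nat_lit 5, nat_lit 20], false, nat_lit 80, nat_lit 188, nat_lit 0, nat_lit 364, ⟨nat_lit 148, nat_lit 536, nat_lit 316, nat_lit 7, nat_lit 271, nat_lit 852, nat_lit 111, nat_lit 316, nat_lit 114817, nat_lit 298, nat_lit 173340, nat_lit 200, nat_lit 42112296, nat_lit 20008114, nat_lit 4879590, nat_lit 4479133, true, true⟩,
 nat_lit 3446, nat_lit 0, nat_lit 0, nat_lit 0, nat_lit 3219, nat_lit 1648, nat_lit 0, nat_lit 0, nat_lit 0, nat_lit 89, nat_lit 0, nat_lit 0, nat_lit 0, nat_lit 0, nat_lit 0, nat_lit 210525, nat_lit 0, nat_lit 0, [(nat_lit 29, [(nat_lit 0, nat_lit 536), (nat_lit 3, nat_lit 45), (nat_lit 4, nat_lit 271)])],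
 ⟨p107_k38, nat_lit 0, nat_lit 0, nat_lit 168, nat_lit 0, nat_lit 192932, [nat_lit 815707201, nat_lit 888661601, nat_lit 1081858400], [], [nat_lit 25087915444, nat_lit 25683003090, nat_lit 26861825181, nat_lit 27435537300, nat_lit 25974109773, nat_lit 26490863579, nat_lit 27528919190, nat_lit 28004445183], nat_lit 1271250, nat_lit 1271250, nat_lit 1271250, nat_lit 1271250, nat_lit 490000, nat_lit 1333750, [nat_lit 230000, nat_lit 1100000, nat_lit 1442500], [nat_lit 55, nat_lit 40, nat_lit 40, nat_lit 80, nat_lit 3, nat_lit 260, nat_lit 50, nat_lit 8]⟩, ⟨p107_k8, nat_lit 0, nat_lit 0, nat_lit 609, nat_lit 0, nat_lit 462687, [nat_lit 925000000, nat_lit 1757056000, nat_lit 2427200000], [], [nat_lit 6507423929, nat_lit 6495733857, nat_lit 6647341169, nat_lit 6637899891, nat_lit 5206409463, nat_lit 5189325530, nat_lit 5365081849, nat_lit 5342829931], nat_lit 1271250, nat_lit 1271250, nat_lit 1271250, nat_lit 1271250, nat_lit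 0, nat_lit 2570750, [nat_lit 1412500, nat_lit 1271250, nat_lit 1271250], [nat_lit 104, nat_lit 40, nat_lit 40, nat_lit 80, nat_lit 76, nat_lit 483, nat_lit 250, nat_lit 10]⟩,
 ⟨nat_lit 1581, nat_lit 2237, ⟨.ofNat (nat_lit 636804), .ofNat (nat_lit 699521), .ofNat (nat_lit 659578), .ofNat (nat_lit 722295), .ofNat (nat_lit 632585), .ofNat (nat_lit 692684), .ofNat (nat_lit 655900), .ofNat (nat_lit 715999)⟩, ⟨.ofNat (nat_lit 192306), .ofNat (nat_lit 346248), .ofNat (nat_lit 200000), .ofNat (nat_lit 369022), .ofNat (nat_lit 196201), .ofNat (nat_lit 343718), .ofNat (nat_lit 200000), .ofNat (nat_lit 367033)⟩⟩, [⟨nat_lit 13, nat_lit 38, nat_lit 87, nat_lit 100, nat_lit 384909483⟩, ⟨nat_lit 4, nat_lit 100, nat_lit 39, nat_lit 85, nat_lit 131892556⟩, ⟨nat_lit 19, nat_lit 100, nat_lit 68, nat_lit 84, nat_lit 13282548⟩]⟩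
noncomputable def p107_l127 : Lf2 := ⟨nat_lit 0, nat_lit 30, [nat_lit 15, nat_lit 5, nat_lit 5, nat_lit 20], true, nat_lit 80, nat_lit 160, nat_lit 0, nat_lit 364, ⟨nat_lit 0, nat_lit 420, nat_lit 580, nat_lit 7, nat_lit 257, nat_lit 1000, nat_lit 108, nat_lit 580, nat_lit 109350, nat_lit 296, nat_lit 82180, nat_lit 200, nat_lit 43490624, nat_lit 18719146, nat_lit 4790230, nat_lit 4381814, true, true⟩,
 nat_lit 0, nat_lit 2807, nat_lit 0, nat_lit 3464, nat_lit 2622, nat_lit 0, nat_lit 0, nat_lit 0, nat_lit 0, nat_lit 0, nat_lit 0, nat_lit 0, nat_lit 0, nat_lit 0, nat_lit 43, nat_lit 250000, nat_lit 0, nat_lit 0, [(nat_lit 29, [(nat_lit 0, nat_lit 420), (nat_lit 4, nat_lit 580)])],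
 ⟨p107_k12, nat_lit 0, nat_lit 0, nat_lit 177, nat_lit 0, nat_lit 172376, [nat_lit 942000000, nat_lit 296576001, nat_lit 106824000], [], [nat_lit 24184272464, nat_lit 24675805984, nat_lit 25147320270, nat_lit 25728993693, nat_lit 24777281696, nat_lit 25228116776, nat_lit 25689614579, nat_lit 26206550427], nat_lit 1271250, nat_lit 1271250, nat_lit 1271250, nat_lit 1271250, nat_lit 490000, nat_lit 1100001, [nat_lit 230000, nat_lit 1100000, nat_lit 1785000], [nat_lit 57, nat_lit 40, nat_lit 40, nat_lit 80, nat_lit 7, nat_lit 249, nat_lit 40, nat_lit 7]⟩, C1.Rw.none,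
 ⟨nat_lit 1581, nat_lit 2237, ⟨.ofNat (nat_lit 614030), .ofNat (nat_lit 653941), .ofNat (nat_lit 636804), .ofNat (nat_lit 676715), .ofNat (nat_lit 609270), .ofNat (nat_lit 647515), .ofNat (nat_lit 632585), .ofNat (nat_lit 670830)⟩, ⟨.ofNat (nat_lit 200000), .ofNat (nat_lit 329112), .ofNat (nat_lit 200000), .ofNat (nat_lit 351886), .ofNat (nat_lit 200000), .ofNat (nat_lit 328788), .ofNat (nat_lit 200000), .ofNat (nat_lit 352103)⟩⟩, [⟨nat_lit 13, nat_lit 38, nat_lit 91, nat_lit 100, nat_lit 542317729⟩]⟩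
noncomputable def p107_l128 : Lf2 := ⟨nat_lit 0, nat_lit 30, [nat_lit 15, nat_lit 5, nat_lit 5, nat_lit 20], false, nat_lit 80, nat_lit 160, nat_lit 0, nat_lit 364, ⟨nat_lit 157, nat_lit 146, nat_lit 697, nat_lit 7, nat_lit 265, nat_lit 843, nat_lit 108, nat_lit 697, nat_lit 109350, nat_lit 296, nat_lit 104922, nat_lit 200, nat_lit 42807054, nat_lit 19444133, nat_lit 4748813, nat_lit 4420006, true, true⟩,
 nat_lit 4201, nat_lit 0, nat_lit 0, nat_lit 1051, nat_lit 2847, nat_lit 2009, nat_lit 0, nat_lit 0, nat_lit 0, nat_lit 101, nat_lit 0, nat_lit 0, nat_lit 0, nat_lit 0, nat_lit 33, nat_lit 210750, nat_lit 0, nat_lit 0, [(nat_lit 29, [(nat_lit 0, nat_lit 146), (nat_lit 4, nat_lit 697)])],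
 ⟨p107_k12, nat_lit 0, nat_lit 0, nat_lit 157, nat_lit 0, nat_lit 111552, [nat_lit 924214801, nat_lit 236462001, nat_lit 206690400], [], [nat_lit 24407440282, nat_lit 24671820915, nat_lit 25129835603, nat_lit 25396969167, nat_lit 24870600498, nat_lit 25102896288, nat_lit 25515882177, nat_lit 25760935598], nat_lit 1271250, nat_lit 1271250, nat_lit 1271250, nat_lit 1271250, nat_lit 490000, nat_lit 1100001, [nat_lit 230000, nat_lit 1100000, nat_lit 1785000], [nat_lit 57, nat_lit 40, nat_lit 40, nat_lit 80, nat_lit 7, nat_lit 249, nat_lit 40, nat_lit 7]⟩, ⟨p107_k8, nat_lit 0, nat_lit 0, nat_lit 493, nat_lit 0, nat_lit 269987, [nat_lit 981250000, nat_lit 1863904000, nat_lit 2574800000], [], [nat_lit 6726277365, nat_lit 6782597011, nat_lit 6936034257, nat_lit 6980343405, nat_lit 5350020196, nat_lit 5321172219, nat_lit 5424945558, nat_lit 5389714008], nat_lit 1271250, nat_lit 1271250, nat_lit 1271250, nat_lit 1271250, nat_lit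 0, nat_lit 2570750, [nat_lit 1412500, nat_lit 1271250, nat_lit 1271250], [nat_lit 104, nat_lit 40, nat_lit 40, nat_lit 80, nat_lit 76, nat_lit 483, nat_lit 250, nat_lit 10]⟩,
 ⟨nat_lit 1936, nat_lit 2237, ⟨.ofNat (nat_lit 636804), .ofNat (nat_lit 665312), .ofNat (nat_lit 659578), .ofNat (nat_lit 688086), .ofNat (nat_lit 634788), .ofNat (nat_lit 662732), .ofNat (nat_lit 657798), .ofNat (nat_lit 685743)⟩, ⟨.ofNat (nat_lit 200000), .ofNat (nat_lit 329112), .ofNat (nat_lit 200000), .ofNat (nat_lit 351886), .ofNat (nat_lit 200000), .ofNat (nat_lit 329055), .ofNat (nat_lit 200000), .ofNat (nat_lit 352066)⟩⟩, [⟨nat_lit 22, nat_lit 97, nat_lit 84, nat_lit 100, nat_lit 9228783⟩]⟩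
noncomputable def p107_l129 : Lf2 := ⟨nat_lit 0, nat_lit 30, [nat_lit 15, nat_lit 5, nat_lit 5, nat_lit 20], false, nat_lit 80, nat_lit 160, nat_lit 0, nat_lit 364, ⟨nat_lit 175, nat_lit 382, nat_lit 443, nat_lit 7, nat_lit 264, nat_lit 825, nat_lit 108, nat_lit 443, nat_lit 109350, nat_lit 296, nat_lit 100236, nat_lit 200, nat_lit 42890312, nat_lit 19355998, nat_lit 4753690, nat_lit 4415497, true, true⟩,
 nat_lit 4185, nat_lit 0, nat_lit 0, nat_lit 0, nat_lit 3241, nat_lit 2001, nat_lit 0, nat_lit 0, nat_lit 0, nat_lit 109, nat_lit 0, nat_lit 0, nat_lit 0, nat_lit 0, nat_lit 0, nat_lit 181885, nat_lit 0, nat_lit 0, [(nat_lit 29, [(nat_lit 0, nat_lit 382), (nat_lit 3, nat_lit 443)])],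
 ⟨p107_k16, nat_lit 0, nat_lit 0, nat_lit 147, nat_lit 0, nat_lit 136762, [nat_lit 970222000, nat_lit 747071601, nat_lit 889268800], [], [nat_lit 25193289713, nat_lit 25491744710, nat_lit 25984447201, nat_lit 26335774288, nat_lit 25562774452, nat_lit 25823244844, nat_lit 26263219965, nat_lit 26513623594], nat_lit 1271250, nat_lit 1271250, nat_lit 1271250, nat_lit 1271250, nat_lit 490000, nat_lit 1100001, [nat_lit 230000, nat_lit 1100000, nat_lit 1442500], [nat_lit 55, nat_lit 40, nat_lit 40, nat_lit 80, nat_lit 3, nat_lit 249, nat_lit 40, nat_lit 8]⟩, ⟨p107_k8, nat_lit 0, nat_lit 0, nat_lit 520, nat_lit 0, nat_lit 338105, [nat_lit 1093750000, nat_lit 2077600000, nat_lit 2870000000], [], [nat_lit 7499432066, nat_lit 7497619434, nat_lit 7606853861, nat_lit 7597681224, nat_lit 6080287219, nat_lit 6058922037, nat_lit 6163127009, nat_lit 6135301315], nat_lit 1271250, nat_lit 1271250, nat_lit 1271250, nat_lit 1271250, nat_lit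 0, nat_lit 2570750, [nat_lit 1412500, nat_lit 1271250, nat_lit 1271250], [nat_lit 104, nat_lit 40, nat_lit 40, nat_lit 80, nat_lit 76, nat_lit 483, nat_lit 250, nat_lit 10]⟩,
 ⟨nat_lit 1581, nat_lit 1937, ⟨.ofNat (nat_lit 634788), .ofNat (nat_lit 662732), .ofNat (nat_lit 657798), .ofNat (nat_lit 685743), .ofNat (nat_lit 632585), .ofNat (nat_lit 659903), .ofNat (nat_lit 655900), .ofNat (nat_lit 683218)⟩, ⟨.ofNat (nat_lit 200000), .ofNat (nat_lit 329055), .ofNat (nat_lit 200000), .ofNat (nat_lit 352066), .ofNat (nat_lit 200000), .ofNat (nat_lit 328788), .ofNat (nat_lit 200000), .ofNat (nat_lit 352103)⟩⟩, [⟨nat_lit 13, nat_lit 35, nat_lit 88, nat_lit 100, nat_lit 247987007⟩, ⟨nat_lit 22, nat_lit 97, nat_lit 84, nat_lit 100, nat_lit 14683133⟩]⟩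
noncomputable def p107_l130 : Lf2 := ⟨nat_lit 0, nat_lit 30, [nat_lit 15, nat_lit 5, nat_lit 5, nat_lit 20], false, nat_lit 80, nat_lit 160, nat_lit 0, nat_lit 352, ⟨nat_lit 339, nat_lit 661, nat_lit 0, nat_lit 7, nat_lit 277, nat_lit 661, nat_lit 108, nat_lit 0, nat_lit 0, nat_lit 0, nat_lit 0, nat_lit 0, nat_lit 41679989, nat_lit 20644673, nat_lit 4675338, nat_lit 4475608, true, true⟩,
 nat_lit 7915, nat_lit 0, nat_lit 0, nat_lit 0, nat_lit 2952, nat_lit 3785, nat_lit 288, nat_lit 0, nat_lit 0, nat_lit 207, nat_lit 0, nat_lit 0, nat_lit 0, nat_lit 0, nat_lit 0, nat_lit 165250, nat_lit 0, nat_lit 0, [(nat_lit 29, [(nat_lit 0, nat_lit 661)])],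
 ⟨p107_k12, nat_lit 0, nat_lit 0, nat_lit 161, nat_lit 0, nat_lit 111552, [nat_lit 834619601, nat_lit 2615897201, nat_lit 4112429067], [], [nat_lit 25495694915, nat_lit 25753451613, nat_lit 26385122637, nat_lit 26673706221, nat_lit 25865397693, nat_lit 26066921301, nat_lit 26648584426, nat_lit 26901730009], nat_lit 1271250, nat_lit 1271250, nat_lit 1271250, nat_lit 1271250, nat_lit 490000, nat_lit 1100001, [nat_lit 230000, nat_lit 1100000, nat_lit 1785000], [nat_lit 57, nat_lit 40, nat_lit 40, nat_lit 80, nat_lit 7, nat_lit 249, nat_lit 40, nat_lit 7]⟩, ⟨p107_k8, nat_lit 0, nat_lit 0, nat_lit 491, nat_lit 0, nat_lit 269987, [nat_lit 2118750000, nat_lit 4024608000, nat_lit 5559600000], [], [nat_lit 14844320409, nat_lit 14830194868, nat_lit 15106215997, nat_lit 15164085491, nat_lit 11853267894, nat_lit 11794668266, nat_lit 12054539659, nat_lit 11999199630], nat_lit 1271250, nat_lit 1271250, nat_lit 1271250, nat_lit 1271250,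 nat_lit 0, nat_lit 2486000, [nat_lit 1412500, nat_lit 1271250, nat_lit 1271250], [nat_lit 104, nat_lit 40, nat_lit 40, nat_lit 80, nat_lit 76, nat_lit 483, nat_lit 250, nat_lit 10]⟩,
 ⟨nat_lit 1936, nat_lit 2237, ⟨.ofNat (nat_lit 665312), .ofNat (nat_lit 699521), .ofNat (nat_lit 688086), .ofNat (nat_lit 722295), .ofNat (nat_lit 662732), .ofNat (nat_lit 696266), .ofNat (nat_lit 685743), .ofNat (nat_lit 719277)⟩, ⟨.ofNat (nat_lit 200000), .ofNat (nat_lit 329112), .ofNat (nat_lit 200000), .ofNat (nat_lit 351886), .ofNat (nat_lit 200000), .ofNat (nat_lit 329055), .ofNat (nat_lit 200000), .ofNat (nat_lit 352066)⟩⟩, [⟨nat_lit 13, nat_lit 41, nat_lit 85, nat_lit 100, nat_lit 125439140⟩, ⟨nat_lit 22, nat_lit 88, nat_lit 68, nat_lit 100, nat_lit 23244819⟩]⟩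
noncomputable def p107_l131 : Lf2 := ⟨nat_lit 0, nat_lit 30, [nat_lit 15, nat_lit 5, nat_lit 5, nat_lit 20], false, nat_lit 80, nat_lit 160, nat_lit 0, nat_lit 352, ⟨nat_lit 188, nat_lit 394, nat_lit 418, nat_lit 7, nat_lit 272, nat_lit 812, nat_lit 108, nat_lit 418, nat_lit 109350, nat_lit 296, nat_lit 133770, nat_lit 200, nat_lit 42085755, nat_lit 20212266, nat_lit 4701979, nat_lit 4456561, true, true⟩,
 nat_lit 4425, nat_lit 0, nat_lit 0, nat_lit 0, nat_lit 3300, nat_lit 2116, nat_lit 0, nat_lit 0, nat_lit 0, nat_lit 117, nat_lit 0, nat_lit 0, nat_lit 0, nat_lit 0, nat_lit 0, nat_lit 180010, nat_lit 0, nat_lit 0, [(nat_lit 29, [(nat_lit 0, nat_lit 394), (nat_lit 3, nat_lit 418)])],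
 ⟨p107_k16, nat_lit 0, nat_lit 0, nat_lit 150, nat_lit 0, nat_lit 136762, [nat_lit 963155201, nat_lit 858342401, nat_lit 1042005600], [], [nat_lit 26139635475, nat_lit 26428088650, nat_lit 26644063560, nat_lit 26988372080, nat_lit 26386662600, nat_lit 26649709200, nat_lit 26822155201, nat_lit 27078630721], nat_lit 1271250, nat_lit 1271250, nat_lit 1271250, nat_lit 1271250, nat_lit 490000, nat_lit 1100001, [nat_lit 230000, nat_lit 1100000, nat_lit 1442500], [nat_lit 55, nat_lit 40, nat_lit 40, nat_lit 80, nat_lit 3, nat_lit 249, nat_lit 40, nat_lit 8]⟩, ⟨p107_k8, nat_lit 0, nat_lit 0, nat_lit 518, nat_lit 0, nat_lit 338105, [nat_lit 1175000000, nat_lit 2231936000, nat_lit 3083200000], [], [nat_lit 8185027034, nat_lit 8176516710, nat_lit 8253992597, nat_lit 8250248153, nat_lit 6531303942, nat_lit 6498850900, nat_lit 6579337732, nat_lit 6552186965], nat_lit 1271250, nat_lit 1271250, nat_lit 1271250, nat_lit 1271250, nat_lit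 0, nat_lit 2486000, [nat_lit 1412500, nat_lit 1271250, nat_lit 1271250], [nat_lit 104, nat_lit 40, nat_lit 40, nat_lit 80, nat_lit 76, nat_lit 483, nat_lit 250, nat_lit 10]⟩,
 ⟨nat_lit 1581, nat_lit 1937, ⟨.ofNat (nat_lit 662732), .ofNat (nat_lit 679499), .ofNat (nat_lit 685743), .ofNat (nat_lit 702510), .ofNat (nat_lit 659903), .ofNat (nat_lit 676294), .ofNat (nat_lit 683218), .ofNat (nat_lit 699609)⟩, ⟨.ofNat (nat_lit 200000), .ofNat (nat_lit 329055), .ofNat (nat_lit 200000), .ofNat (nat_lit 352066), .ofNat (nat_lit 200000), .ofNat (nat_lit 328788), .ofNat (nat_lit 200000), .ofNat (nat_lit 352103)⟩⟩, [⟨nat_lit 13, nat_lit 35, nat_lit 88, nat_lit 100, nat_lit 405496229⟩, ⟨nat_lit 22, nat_lit 88, nat_lit 68, nat_lit 100, nat_lit 13772481⟩]⟩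
noncomputable def p107_l132 : Lf2 := ⟨nat_lit 0, nat_lit 30, [nat_lit 15, nat_lit 5, nat_lit 5, nat_lit 20], true, nat_lit 160, nat_lit 208, nat_lit 4, nat_lit 384, ⟨nat_lit 0, nat_lit 514, nat_lit 486, nat_lit 7, nat_lit 257, nat_lit 1000, nat_lit 150, nat_lit 486, nat_lit 209067, nat_lit 327, nat_lit 82180, nat_lit 200, nat_lit 41240973, nat_lit 18103644, nat_lit 7655383, nat_lit 4826166, true, true⟩,
 nat_lit 0, nat_lit 3000, nat_lit 0, nat_lit 3636, nat_lit 2803, nat_lit 0, nat_lit 0, nat_lit 0, nat_lit 0, nat_lit 0, nat_lit 0, nat_lit 0, nat_lit 0, nat_lit 0, nat_lit 21, nat_lit 250000, nat_lit 0, nat_lit 0, [(nat_lit 29, [(nat_lit 0, nat_lit 514), (nat_lit 4, nat_lit 486)])],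
 ⟨p107_k12, nat_lit 0, nat_lit 0, nat_lit 150, nat_lit 0, nat_lit 172376, [nat_lit 855880000, nat_lit 259739201, nat_lit 56080800], [], [nat_lit 25024223504, nat_lit 25486124924, nat_lit 25924583624, nat_lit 26380331189, nat_lit 25859022367, nat_lit 26291459530, nat_lit 26712727271, nat_lit 27261231754], nat_lit 1271250, nat_lit 1271250, nat_lit 1271250, nat_lit 1271250, nat_lit 1100001, nat_lit 1511000, [nat_lit 230000, nat_lit 1100000, nat_lit 1785000], [nat_lit 57, nat_lit 40, nat_lit 40, nat_lit 80, nat_lit 7, nat_lit 272, nat_lit 60, nat_lit 7]⟩, C1.Rw.none,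
 ⟨nat_lit 1581, nat_lit 2237, ⟨.ofNat (nat_lit 614030), .ofNat (nat_lit 653941), .ofNat (nat_lit 636804), .ofNat (nat_lit 676715), .ofNat (nat_lit 609270), .ofNat (nat_lit 647515), .ofNat (nat_lit 632585), .ofNat (nat_lit 670830)⟩, ⟨.ofNat (nat_lit 329112), .ofNat (nat_lit 397530), .ofNat (nat_lit 351886), .ofNat (nat_lit 420305), .ofNat (nat_lit 328788), .ofNat (nat_lit 394351), .ofNat (nat_lit 352103), .ofNat (nat_lit 417666)⟩⟩, [⟨nat_lit 13, nat_lit 38, nat_lit 91, nat_lit 100, nat_lit 502217999⟩, ⟨nat_lit 4, nat_lit 100, nat_lit 38, nat_lit 90, nat_lit 270153042⟩]⟩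
noncomputable def p107_l133 : Lf2 := ⟨nat_lit 0, nat_lit 25, [nat_lit 44, nat_lit 5, nat_lit 5, nat_lit 20], true, nat_lit 160, nat_lit 208, nat_lit 4, nat_lit 376, ⟨nat_lit 0, nat_lit 714, nat_lit 286, nat_lit 7, nat_lit 266, nat_lit 1000, nat_lit 150, nat_lit 286, nat_lit 209067, nat_lit 327, nat_lit 127760, nat_lit 200, nat_lit 40486048, nat_lit 18947054, nat_lit 7566898, nat_lit 4866612, true, true⟩,
 nat_lit 0, nat_lit 3053, nat_lit 0, nat_lit 1888, nat_lit 2852, nat_lit 0, nat_lit 0, nat_lit 0, nat_lit 0, nat_lit 0, nat_lit 0, nat_lit 0, nat_lit 0, nat_lit 0, nat_lit 0, nat_lit 250000, nat_lit 0, nat_lit 0, [(nat_lit 29, [(nat_lit 0, nat_lit 714), (nat_lit 4, nat_lit 286)])],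
 ⟨p107_k38, nat_lit 0, nat_lit 0, nat_lit 135, nat_lit 0, nat_lit 177875, [nat_lit 775880000, nat_lit 474012801, nat_lit 525597600], [], [nat_lit 25133643577, nat_lit 25571611381, nat_lit 26323821146, nat_lit 26803985847, nat_lit 25946692151, nat_lit 26427752770, nat_lit 27137275661, nat_lit 27619299893], nat_lit 1271250, nat_lit 1271250, nat_lit 1271250, nat_lit 1271250, nat_lit 1100001, nat_lit 1511000, [nat_lit 230000, nat_lit 1100000, nat_lit 1442500], [nat_lit 55, nat_lit 40, nat_lit 40, nat_lit 80, nat_lit 3, nat_lit 272, nat_lit 60, nat_lit 8]⟩, C1.Rw.none,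
 ⟨nat_lit 1581, nat_lit 2237, ⟨.ofNat (nat_lit 636804), .ofNat (nat_lit 688118), .ofNat (nat_lit 648191), .ofNat (nat_lit 699505), .ofNat (nat_lit 632585), .ofNat (nat_lit 681757), .ofNat (nat_lit 644243), .ofNat (nat_lit 693415)⟩, ⟨.ofNat (nat_lit 329112), .ofNat (nat_lit 397530), .ofNat (nat_lit 351886), .ofNat (nat_lit 420305), .ofNat (nat_lit 328788), .ofNat (nat_lit 394351), .ofNat (nat_lit 352103), .ofNat (nat_lit 417666)⟩⟩, [⟨nat_lit 13, nat_lit 44, nat_lit 83, nat_lit 100, nat_lit 411825397⟩, ⟨nat_lit 4, nat_lit 100, nat_lit 38, nat_lit 90, nat_lit 270724217⟩]⟩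
noncomputable def p107_l134 : Lf2 := ⟨nat_lit 0, nat_lit 25, [nat_lit 44, nat_lit 5, nat_lit 5, nat_lit 20], false, nat_lit 160, nat_lit 208, nat_lit 4, nat_lit 372, ⟨nat_lit 151, nat_lit 849, nat_lit 0, nat_lit 7, nat_lit 273, nat_lit 849, nat_lit 150, nat_lit 0, nat_lit 0, nat_lit 0, nat_lit 0, nat_lit 0, nat_lit 39925257, nat_lit 19575647, nat_lit 7499096, nat_lit 4893658, true, true⟩,
 nat_lit 4780, nat_lit 0, nat_lit 0, nat_lit 0, nat_lit 4173, nat_lit 2407, nat_lit 0, nat_lit 0, nat_lit 0, nat_lit 0, nat_lit 0, nat_lit 0, nat_lit 0, nat_lit 0, nat_lit 0, nat_lit 212250, nat_lit 0, nat_lit 0, [(nat_lit 29, [(nat_lit 0, nat_lit 849)])],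
 ⟨p107_k15, nat_lit 0, nat_lit 0, nat_lit 121, nat_lit 0, nat_lit 132256, [nat_lit 805216400, nat_lit 1383636000, nat_lit 2460403600], [], [nat_lit 26461516656, nat_lit 27072278664, nat_lit 28218301020, nat_lit 28771803846, nat_lit 27281566757, nat_lit 27847560051, nat_lit 28902243071, nat_lit 29416037025], nat_lit 1271250, nat_lit 1271250, nat_lit 1271250, nat_lit 1271250, nat_lit 1100001, nat_lit 1511000, [nat_lit 230000, nat_lit 780000, nat_lit 1435000], [nat_lit 20, nat_lit 40, nat_lit 40, nat_lit 80, nat_lit 16, nat_lit 272, nat_lit 60, nat_lit 8]⟩, ⟨p107_k36, nat_lit 0, nat_lit 0, nat_lit 432, nat_lit 0, nat_lit 295284, [nat_lit 943750000, nat_lit 1486142000, nat_lit 2122758000], [], [nat_lit 7136878814, nat_lit 7185113820, nat_lit 7763786412, nat_lit 7793498677, nat_lit 5870007008, nat_lit 5854856338, nat_lit 6082332533, nat_lit 6057957593], nat_lit 1271250, nat_lit 1271250, nat_lit 1271250, nat_lit 1271250,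 nat_lit 21650, nat_lit 2634450, [nat_lit 1412500, nat_lit 1271250, nat_lit 1271250], [nat_lit 60, nat_lit 40, nat_lit 40, nat_lit 80, nat_lit 32, nat_lit 483, nat_lit 250, nat_lit 11]⟩,
 ⟨nat_lit 1581, nat_lit 2237, ⟨.ofNat (nat_lit 648191), .ofNat (nat_lit 710908), .ofNat (nat_lit 659578), .ofNat (nat_lit 722295), .ofNat (nat_lit 644243), .ofNat (nat_lit 704342), .ofNat (nat_lit 655900), .ofNat (nat_lit 715999)⟩, ⟨.ofNat (nat_lit 329112), .ofNat (nat_lit 397530), .ofNat (nat_lit 351886), .ofNat (nat_lit 420305), .ofNat (nat_lit 328788), .ofNat (nat_lit 394351), .ofNat (nat_lit 352103), .ofNat (nat_lit 417666)⟩⟩, [⟨nat_lit 13, nat_lit 39, nat_lit 86, nat_lit 100, nat_lit 357009007⟩, ⟨nat_lit 16, nat_lit 38, nat_lit 100, nat_lit 90, nat_lit 323360797⟩, ⟨nat_lit 19, nat_lit 100, nat_lit 61, nat_lit 91, nat_lit 7014362⟩]⟩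
noncomputable def p107_l135 : Lf2 := ⟨nat_lit 0, nat_lit 30, [nat_lit 15, nat_lit 5, nat_lit 5, nat_lit 20], false, nat_lit 160, nat_lit 208, nat_lit 4, nat_lit 160, ⟨nat_lit 1000, nat_lit 0, nat_lit 0, nat_lit 0, nat_lit 0, nat_lit 0, nat_lit 0, nat_lit 0, nat_lit 0, nat_lit 0, nat_lit 0, nat_lit 0, nat_lit 0, nat_lit 0, nat_lit 0, nat_lit 0, false, false⟩,
 nat_lit 3299, nat_lit 0, nat_lit 13845, nat_lit 0, nat_lit 3082, nat_lit 8199, nat_lit 553, nat_lit 0, nat_lit 0, nat_lit 634, nat_lit 0, nat_lit 0, nat_lit 0, nat_lit 0, nat_lit 0, nat_lit 0, nat_lit 0, nat_lit 0, [],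
 ⟨p107_k12, nat_lit 0, nat_lit 0, nat_lit 126, nat_lit 0, nat_lit 77444, [nat_lit 938000000, nat_lit 4688000000, nat_lit 7968000000], [], [nat_lit 24983679714, nat_lit 25478126232, nat_lit 26756292253, nat_lit 27347710656, nat_lit 25854695141, nat_lit 26460568052, nat_lit 27647555662, nat_lit 28197742602], nat_lit 1271250, nat_lit 1271250, nat_lit 1271250, nat_lit 1271250, nat_lit 1100001, nat_lit 1511000, [nat_lit 230000, nat_lit 1100000, nat_lit 1785000], [nat_lit 57, nat_lit 40, nat_lit 40, nat_lit 80, nat_lit 7, nat_lit 272, nat_lit 60, nat_lit 7]⟩, ⟨p107_k8, nat_lit 0, nat_lit 0, nat_lit 456, nat_lit 0, nat_lit 187436, [nat_lit 6250000000, nat_lit 11872000000, nat_lit 16400000000], [], [nat_lit 43508450604, nat_lit 43624133666, nat_lit 45130864748, nat_lit 45343431551, nat_lit 37287270782, nat_lit 37420911260, nat_lit 38541320069, nat_lit 38700116185], nat_lit 1271250, nat_lit 1271250, nat_lit 1271250, nat_lit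 1271250, nat_lit 21650, nat_lit 1100001, [nat_lit 1412500, nat_lit 1271250, nat_lit 1271250], [nat_lit 104, nat_lit 40, nat_lit 40, nat_lit 80, nat_lit 76, nat_lit 428, nat_lit 200, nat_lit 9]⟩,
 zbF0, [⟨nat_lit 4, nat_lit 100, nat_lit 38, nat_lit 90, nat_lit 875827948⟩]⟩
noncomputable def p107_l136 : Lf2 := ⟨nat_lit 0, nat_lit 28, [nat_lit 157, nat_lit 5, nat_lit 5, nat_lit 20], false, nat_lit 160, nat_lit 208, nat_lit 160, nat_lit 376, ⟨nat_lit 410, nat_lit 590, nat_lit 0, nat_lit 7, nat_lit 271, nat_lit 590, nat_lit 150, nat_lit 0, nat_lit 0, nat_lit 0, nat_lit 0, nat_lit 0, nat_lit 40059638, nat_lit 19411362, nat_lit 7529000, nat_lit 4888606, true, true⟩,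
 nat_lit 10100, nat_lit 0, nat_lit 0, nat_lit 989, nat_lit 5143, nat_lit 4830, nat_lit 0, nat_lit 0, nat_lit 0, nat_lit 243, nat_lit 0, nat_lit 0, nat_lit 0, nat_lit 0, nat_lit 0, nat_lit 147500, nat_lit 0, nat_lit 0, [(nat_lit 29, [(nat_lit 0, nat_lit 590)])],
 ⟨p107_k42, nat_lit 0, nat_lit 0, nat_lit 91, nat_lit 0, nat_lit 45675, [nat_lit 845724000, nat_lit 2734156001, nat_lit 3616476000], [], [nat_lit 27235672896, nat_lit 27575923460, nat_lit 29126393308, nat_lit 29434381841, nat_lit 27997415909, nat_lit 28311444408, nat_lit 29791343065, nat_lit 30142691267], nat_lit 1271250, nat_lit 1271250, nat_lit 1271250, nat_lit 1271250, nat_lit 1100001, nat_lit 1511000, [nat_lit 230000, nat_lit 1100000, nat_lit 1442500], [nat_lit 55, nat_lit 40, nat_lit 40, nat_lit 80, nat_lit 3, nat_lit 272, nat_lit 60, nat_lit 8]⟩, ⟨p107_k8, nat_lit 0, nat_lit 0, nat_lit 234, nat_lit 0, nat_lit 110152, [nat_lit 2562500000, nat_lit 4867520000,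 nat_lit 6724000000], [], [nat_lit 12405429645, nat_lit 12529330345, nat_lit 13389413151, nat_lit 13458052730, nat_lit 14673794644, nat_lit 14604490697, nat_lit 15083148613, nat_lit 14983581200], nat_lit 1271250, nat_lit 1271250, nat_lit 1271250, nat_lit 1271250, nat_lit 1100001, nat_lit 2949500, [nat_lit 1412500, nat_lit 1271250, nat_lit 1271250], [nat_lit 104, nat_lit 40, nat_lit 40, nat_lit 80, nat_lit 76, nat_lit 483, nat_lit 250, nat_lit 10]⟩,
 ⟨nat_lit 1936, nat_lit 2237, ⟨.ofNat (nat_lit 636804), .ofNat (nat_lit 699521), .ofNat (nat_lit 659578), .ofNat (nat_lit 722295), .ofNat (nat_lit 634788), .ofNat (nat_lit 696266), .ofNat (nat_lit 657798), .ofNat (nat_lit 719277)⟩, ⟨.ofNat (nat_lit 329112), .ofNat (nat_lit 397530), .ofNat (nat_lit 351886), .ofNat (nat_lit 420305), .ofNat (nat_lit 329055), .ofNat (nat_lit 396122), .ofNat (nat_lit 352066), .ofNat (nat_lit 419133)⟩⟩, [⟨nat_lit 13, nat_lit 41, nat_lit 85, nat_lit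 100, nat_lit 184077770⟩, ⟨nat_lit 4, nat_lit 100, nat_lit 41, nat_lit 89, nat_lit 445101492⟩, ⟨nat_lit 7, nat_lit 59, nat_lit 100, nat_lit 90, nat_lit 147804726⟩]⟩
noncomputable def p107_l137 : Lf2 := ⟨nat_lit 0, nat_lit 30, [nat_lit 15, nat_lit 5, nat_lit 5, nat_lit 20], true, nat_lit 160, nat_lit 208, nat_lit 160, nat_lit 376, ⟨nat_lit 0, nat_lit 1000, nat_lit 0, nat_lit 7, nat_lit 271, nat_lit 1000, nat_lit 150, nat_lit 0, nat_lit 0, nat_lit 0, nat_lit 0, nat_lit 0, nat_lit 40059638, nat_lit 19411362, nat_lit 7529000, nat_lit 4888606, true, true⟩,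
 nat_lit 0, nat_lit 3426, nat_lit 0, nat_lit 6905, nat_lit 3201, nat_lit 0, nat_lit 0, nat_lit 0, nat_lit 0, nat_lit 0, nat_lit 0, nat_lit 0, nat_lit 0, nat_lit 0, nat_lit 0, nat_lit 250000, nat_lit 0, nat_lit 0, [(nat_lit 29, [(nat_lit 0, nat_lit 1000)])],
 ⟨p107_k12, nat_lit 0, nat_lit 0, nat_lit 79, nat_lit 0, nat_lit 25455, [nat_lit 781600001, nat_lit 1553200001, nat_lit 2175066667], [], [nat_lit 25270460611, nat_lit 25557105220, nat_lit 26990002097, nat_lit 27251171197, nat_lit 26210098475, nat_lit 26476789584, nat_lit 27808128949, nat_lit 28051627520], nat_lit 1271250, nat_lit 1271250, nat_lit 1271250, nat_lit 1271250, nat_lit 1100001, nat_lit 1511000, [nat_lit 230000, nat_lit 1100000, nat_lit 1785000], [nat_lit 57, nat_lit 40, nat_lit 40, nat_lit 80, nat_lit 7, nat_lit 272, nat_lit 60, nat_lit 7]⟩, C1.Rw.none,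
 ⟨nat_lit 1936, nat_lit 2237, ⟨.ofNat (nat_lit 636804), .ofNat (nat_lit 699521), .ofNat (nat_lit 659578), .ofNat (nat_lit 722295), .ofNat (nat_lit 634788), .ofNat (nat_lit 696266), .ofNat (nat_lit 657798), .ofNat (nat_lit 719277)⟩, ⟨.ofNat (nat_lit 329112), .ofNat (nat_lit 397530), .ofNat (nat_lit 351886), .ofNat (nat_lit 420305), .ofNat (nat_lit 329055), .ofNat (nat_lit 396122), .ofNat (nat_lit 352066), .ofNat (nat_lit 419133)⟩⟩, [⟨nat_lit 13, nat_lit 41, nat_lit 85, nat_lit 100, nat_lit 443966835⟩, ⟨nat_lit 4, nat_lit 100, nat_lit 41, nat_lit 89, nat_lit 254240129⟩]⟩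
noncomputable def p107_l138 : Lf2 := ⟨nat_lit 0, nat_lit 30, [nat_lit 15, nat_lit 5, nat_lit 5, nat_lit 20], false, nat_lit 160, nat_lit 196, nat_lit 160, nat_lit 376, ⟨nat_lit 183, nat_lit 817, nat_lit 0, nat_lit 7, nat_lit 267, nat_lit 817, nat_lit 146, nat_lit 0, nat_lit 0, nat_lit 0, nat_lit 0, nat_lit 0, nat_lit 40613068, nat_lit 19073087, nat_lit 7313845, nat_lit 4836658, true, true⟩,
 nat_lit 4615, nat_lit 0, nat_lit 0, nat_lit 3590, nat_lit 4386, nat_lit 2207, nat_lit 0, nat_lit 0, nat_lit 0, nat_lit 111, nat_lit 0, nat_lit 0, nat_lit 0, nat_lit 0, nat_lit 0, nat_lit 204250, nat_lit 0, nat_lit 0, [(nat_lit 29, [(nat_lit 0, nat_lit 817)])],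
 ⟨p107_k16, nat_lit 0, nat_lit 0, nat_lit 106, nat_lit 0, nat_lit 75817, [nat_lit 810221200, nat_lit 1982422801, nat_lit 2603238800], [], [nat_lit 26833525720, nat_lit 27146563648, nat_lit 28096745216, nat_lit 28388162135, nat_lit 27421540357, nat_lit 27717157982, nat_lit 28609647118, nat_lit 28907487863], nat_lit 1271250, nat_lit 1271250, nat_lit 1271250, nat_lit 1271250, nat_lit 1100001, nat_lit 1408250, [nat_lit 230000, nat_lit 1100000, nat_lit 1442500], [nat_lit 55, nat_lit 40, nat_lit 40, nat_lit 80, nat_lit 3, nat_lit 260, nat_lit 50, nat_lit 8]⟩, ⟨p107_k8, nat_lit 0, nat_lit 0, nat_lit 269, nat_lit 0, nat_lit 187436, [nat_lit 1143750000, nat_lit 2172576000, nat_lit 3001200000], [], [nat_lit 5481753171, nat_lit 5536378509, nat_lit 5798718583, nat_lit 5835128887, nat_lit 6496723127, nat_lit 6463354687, nat_lit 6624088205, nat_lit 6579837645], nat_lit 1271250, nat_lit 1271250, nat_lit 1271250, nat_lit 1271250, nat_lit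 1100001, nat_lit 2949500, [nat_lit 1412500, nat_lit 1271250, nat_lit 1271250], [nat_lit 104, nat_lit 40, nat_lit 40, nat_lit 80, nat_lit 76, nat_lit 483, nat_lit 250, nat_lit 10]⟩,
 ⟨nat_lit 1581, nat_lit 1937, ⟨.ofNat (nat_lit 634788), .ofNat (nat_lit 679499), .ofNat (nat_lit 657798), .ofNat (nat_lit 702510), .ofNat (nat_lit 632585), .ofNat (nat_lit 676294), .ofNat (nat_lit 655900), .ofNat (nat_lit 699609)⟩, ⟨.ofNat (nat_lit 329055), .ofNat (nat_lit 379355), .ofNat (nat_lit 352066), .ofNat (nat_lit 402366), .ofNat (nat_lit 328788), .ofNat (nat_lit 377960), .ofNat (nat_lit 352103), .ofNat (nat_lit 401275)⟩⟩, [⟨nat_lit 13, nat_lit 35, nat_lit 88, nat_lit 100, nat_lit 359908619⟩, ⟨nat_lit 4, nat_lit 100, nat_lit 35, nat_lit 90, nat_lit 373823517⟩, ⟨nat_lit 19, nat_lit 100, nat_lit 59, nat_lit 90, nat_lit 67584830⟩]⟩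
noncomputable def p107_l139 : Lf2 := ⟨nat_lit 0, nat_lit 30, [nat_lit 15, nat_lit 5, nat_lit 5, nat_lit 20], false, nat_lit 80, nat_lit 120, nat_lit 0, nat_lit 336, ⟨nat_lit 116, nat_lit 450, nat_lit 434, nat_lit 7, nat_lit 257, nat_lit 884, nat_lit 95, nat_lit 434, nat_lit 84017, nat_lit 286, nat_lit 95182, nat_lit 200, nat_lit 44195745, nat_lit 18854504, nat_lit 3949751, nat_lit 4218592, true, true⟩,
 nat_lit 3434, nat_lit 0, nat_lit 0, nat_lit 0, nat_lit 2842, nat_lit 1471, nat_lit 0, nat_lit 0, nat_lit 0, nat_lit 71, nat_lit 0, nat_lit 0, nat_lit 0, nat_lit 0, nat_lit 0, nat_lit 221000, nat_lit 0, nat_lit 0, [(nat_lit 29, [(nat_lit 0, nat_lit 450), (nat_lit 4, nat_lit 434)])],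
 ⟨p107_k17, nat_lit 0, nat_lit 0, nat_lit 188, nat_lit 0, nat_lit 250563, [nat_lit 791062401, nat_lit 391188801, nat_lit 390932000], [], [nat_lit 25040344471, nat_lit 25533123648, nat_lit 25720130056, nat_lit 26381362444, nat_lit 25305886271, nat_lit 25797074799, nat_lit 25977836104, nat_lit 26520923158], nat_lit 1271250, nat_lit 1271250, nat_lit 1271250, nat_lit 1271250, nat_lit 490000, nat_lit 780000, [nat_lit 230000, nat_lit 1100000, nat_lit 1442500], [nat_lit 55, nat_lit 40, nat_lit 40, nat_lit 80, nat_lit 3, nat_lit 238, nat_lit 30, nat_lit 7]⟩, ⟨p107_k11, nat_lit 0, nat_lit 0, nat_lit 722, nat_lit 0, nat_lit 739147, [nat_lit 725000000, nat_lit 1377152000, nat_lit 1902400000], [], [nat_lit 5271969032, nat_lit 5239039164, nat_lit 5324338636, nat_lit 5312014624, nat_lit 3972536605, nat_lit 3935001478, nat_lit 4030144268, nat_lit 3996589756], nat_lit 1271250, nat_lit 1271250, nat_lit 1271250, nat_lit 1271250, nat_lit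 0, nat_lit 2373000, [nat_lit 1412500, nat_lit 1271250, nat_lit 1271250], [nat_lit 104, nat_lit 40, nat_lit 40, nat_lit 80, nat_lit 76, nat_lit 456, nat_lit 225, nat_lit 9]⟩,
 ⟨nat_lit 0, nat_lit 1582, ⟨.ofNat (nat_lit 609267), .ofNat (nat_lit 636584), .ofNat (nat_lit 655899), .ofNat (nat_lit 683216), .ofNat (nat_lit 599996), .ofNat (nat_lit 624995), .ofNat (nat_lit 649998), .ofNat (nat_lit 674997)⟩, ⟨.ofNat (nat_lit 196201), .ofNat (nat_lit 250836), .ofNat (nat_lit 200000), .ofNat (nat_lit 297467), .ofNat (nat_lit 199999), .ofNat (nat_lit 249998), .ofNat (nat_lit 200000), .ofNat (nat_lit 299999)⟩⟩, [⟨nat_lit 13, nat_lit 32, nat_lit 89, nat_lit 100, nat_lit 511276319⟩, ⟨nat_lit 22, nat_lit 100, nat_lit 94, nat_lit 97, nat_lit 2600129⟩]⟩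
noncomputable def p107_l140 : Lf2 := ⟨nat_lit 0, nat_lit 25, [nat_lit 44, nat_lit 5, nat_lit 5, nat_lit 20], true, nat_lit 120, nat_lit 160, nat_lit 0, nat_lit 364, ⟨nat_lit 0, nat_lit 1000, nat_lit 0, nat_lit 7, nat_lit 257, nat_lit 1000, nat_lit 115, nat_lit 0, nat_lit 0, nat_lit 0, nat_lit 0, nat_lit 0, nat_lit 43137630, nat_lit 18587212, nat_lit 5275158, nat_lit 4465376, true, true⟩,
 nat_lit 0, nat_lit 2834, nat_lit 0, nat_lit 0, nat_lit 2739, nat_lit 0, nat_lit 41, nat_lit 0, nat_lit 0, nat_lit 0, nat_lit 0, nat_lit 0, nat_lit 0, nat_lit 0, nat_lit 0, nat_lit 316300, nat_lit 0, nat_lit 0, [(nat_lit 29, [(nat_lit 0, nat_lit 558), (nat_lit 1, nat_lit 442)])],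
 ⟨p107_k43, nat_lit 0, nat_lit 0, nat_lit 177, nat_lit 0, nat_lit 350499, [nat_lit 744825600, nat_lit 855370400], [], [nat_lit 25124249675, nat_lit 25578516256, nat_lit 25754647911, nat_lit 26375075261, nat_lit 25441657409, nat_lit 25899205353, nat_lit 26082506096, nat_lit 26543998453], nat_lit 1271250, nat_lit 1271250, nat_lit 1271250, nat_lit 1271250, nat_lit 780000, nat_lit 1100001, [nat_lit 230000, nat_lit 1100000], [nat_lit 86, nat_lit 40, nat_lit 40, nat_lit 80, nat_lit 87, nat_lit 249, nat_lit 40, nat_lit 9]⟩, C1.Rw.none,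
 ⟨nat_lit 0, nat_lit 1582, ⟨.ofNat (nat_lit 609267), .ofNat (nat_lit 636584), .ofNat (nat_lit 655899), .ofNat (nat_lit 683216), .ofNat (nat_lit 599996), .ofNat (nat_lit 624995), .ofNat (nat_lit 649998), .ofNat (nat_lit 674997)⟩, ⟨.ofNat (nat_lit 250836), .ofNat (nat_lit 305469), .ofNat (nat_lit 274152), .ofNat (nat_lit 328785), .ofNat (nat_lit 249998), .ofNat (nat_lit 299995), .ofNat (nat_lit 274999), .ofNat (nat_lit 324996)⟩⟩, [⟨nat_lit 13, nat_lit 32, nat_lit 89, nat_lit 100, nat_lit 517932440⟩, ⟨nat_lit 16, nat_lit 32, nat_lit 100, nat_lit 88, nat_lit 176783516⟩]⟩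
noncomputable def p107_l141 : Lf2 := ⟨nat_lit 0, nat_lit 30, [nat_lit 15, nat_lit 5, nat_lit 5, nat_lit 20], false, nat_lit 120, nat_lit 184, nat_lit 0, nat_lit 380, ⟨nat_lit 0, nat_lit 709, nat_lit 291, nat_lit 7, nat_lit 257, nat_lit 1000, nat_lit 131, nat_lit 291, nat_lit 163350, nat_lit 314, nat_lit 95182, nat_lit 200, nat_lit 42281116, nat_lit 18357768, nat_lit 6361116, nat_lit 4640795, true, true⟩,
 nat_lit 0, nat_lit 3164, nat_lit 0, nat_lit 1883, nat_lit 3059, nat_lit 0, nat_lit 0, nat_lit 0, nat_lit 0, nat_lit 0, nat_lit 0, nat_lit 0, nat_lit 0, nat_lit 0, nat_lit 0, nat_lit 233995, nat_lit 0, nat_lit 0, [(nat_lit 29, [(nat_lit 0, nat_lit 709), (nat_lit 3, nat_lit 291)])],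
 ⟨p107_k17, nat_lit 0, nat_lit 0, nat_lit 153, nat_lit 0, nat_lit 188495, [nat_lit 887524001, nat_lit 582319201, nat_lit 683975600], [], [nat_lit 25464905101, nat_lit 26021157136, nat_lit 26197337600, nat_lit 26828194941, nat_lit 26100081392, nat_lit 26592594064, nat_lit 26757578135, nat_lit 27357662216], nat_lit 1271250, nat_lit 1271250, nat_lit 1271250, nat_lit 1271250, nat_lit 780000, nat_lit 1304000, [nat_lit 230000, nat_lit 1100000, nat_lit 1442500], [nat_lit 55, nat_lit 40, nat_lit 40, nat_lit 80, nat_lit 3, nat_lit 260, nat_lit 50, nat_lit 8]⟩, ⟨p107_k11, nat_lit 0, nat_lit 0, nat_lit 652, nat_lit 0, nat_lit 556048, [nat_lit 0, nat_lit 0, nat_lit 0], [], [nat_lit 0, nat_lit 0, nat_lit 0, nat_lit 0, nat_lit 0, nat_lit 0, nat_lit 0, nat_lit 0], nat_lit 1271250, nat_lit 1271250, nat_lit 1271250, nat_lit 1271250, nat_lit 0, nat_lit 2683750, [nat_lit 1412500, nat_lit 1271250, nat_lit 1271250], [nat_lit 104, nat_lit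 40, nat_lit 40, nat_lit 80, nat_lit 76, nat_lit 483, nat_lit 250, nat_lit 10]⟩,
 ⟨nat_lit 0, nat_lit 1582, ⟨.ofNat (nat_lit 609267), .ofNat (nat_lit 636584), .ofNat (nat_lit 655899), .ofNat (nat_lit 683216), .ofNat (nat_lit 599996), .ofNat (nat_lit 624995), .ofNat (nat_lit 649998), .ofNat (nat_lit 674997)⟩, ⟨.ofNat (nat_lit 274152), .ofNat (nat_lit 361566), .ofNat (nat_lit 297467), .ofNat (nat_lit 384882), .ofNat (nat_lit 274999), .ofNat (nat_lit 354996), .ofNat (nat_lit 299999), .ofNat (nat_lit 379997)⟩⟩, [⟨nat_lit 13, nat_lit 32, nat_lit 89, nat_lit 100, nat_lit 596570089⟩, ⟨nat_lit 16, nat_lit 31, nat_lit 100, nat_lit 92, nat_lit 170149634⟩]⟩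
noncomputable def b_V_900_500_20_26 : St := ⟨true, nat_lit 1, nat_lit 1, nat_lit 1, nat_lit 120, nat_lit 380, nat_lit 400, nat_lit 200, nat_lit 240, nat_lit 240, nat_lit 324, nat_lit 80, nat_lit 120, nat_lit 80, nat_lit 208, nat_lit 0, nat_lit 384, nat_lit 80, nat_lit 120, nat_lit 0, nat_lit 0, nat_lit 0, nat_lit 0⟩
theorem d_V_900_500_20_26 (h : EB TB.env) : Dead b_V_900_500_20_26 := chkB_sound0 h (T :=
(.spl (nat_lit 2) (nat_lit 280)
(.spl (nat_lit 4) (nat_lit 160)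
(.spl (nat_lit 0) (nat_lit 390)
(.spl (nat_lit 0) (nat_lit 385)
(.leaf p107_l118)
(.leaf p107_l119))
(.spl (nat_lit 0) (nat_lit 395)
(.leaf p107_l120)
(.leaf p107_l121)))
(.spl (nat_lit 0) (nat_lit 390)
(.spl (nat_lit 0) (nat_lit 385)
(.leaf p107_l122)
(.trX (nat_lit 16) (nat_lit 38) (nat_lit 100) (nat_lit 92) (nat_lit 196) (.leaf p107_l123)))
(.trX (nat_lit 16) (nat_lit 31) (nat_lit 100) (nat_lit 92) (nat_lit 184) (.leaf p107_l124))))
(.spl (nat_lit 0) (nat_lit 390)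
(.spl (nat_lit 3) (nat_lit 100)
(.trX (nat_lit 16) (nat_lit 44) (nat_lit 100) (nat_lit 87) (nat_lit 188) (.trX (nat_lit 19) (nat_lit 100) (nat_lit 50) (nat_lit 87) (nat_lit 376) (.spl (nat_lit 1) (nat_lit 220)
(.trX (nat_lit 13) (nat_lit 44) (nat_lit 86) (nat_lit 100) (nat_lit 308) (.leaf p107_l125))
(.trX (nat_lit 19) (nat_lit 100) (nat_lit 59) (nat_lit 87) (nat_lit 364) (.leaf p107_l126)))))
(.spl (nat_lit 4) (nat_lit 160)
(.trX (nat_lit 22) (nat_lit 94) (nat_lit 59) (nat_lit 100) (nat_lit 364) (.spl (nat_lit 1) (nat_lit 220)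
(.trX (nat_lit 13) (nat_lit 44) (nat_lit 86) (nat_lit 100) (nat_lit 308) (.leaf p107_l127))
(.spl (nat_lit 2) (nat_lit 300)
(.spl (nat_lit 0) (nat_lit 385)
(.leaf p107_l128)
(.leaf p107_l129))
(.trX (nat_lit 22) (nat_lit 88) (nat_lit 68) (nat_lit 100) (nat_lit 352) (.spl (nat_lit 0) (nat_lit 385)
(.leaf p107_l130)
(.trX (nat_lit 13) (nat_lit 39) (nat_lit 85) (nat_lit 100) (nat_lit 312) (.leaf p107_l131)))))))
(.trZ (nat_lit 9) (nat_lit 100) (nat_lit 94) (nat_lit 21) (nat_lit 4) (.spl (nat_lit 1) (nat_lit 220)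
(.trX (nat_lit 13) (nat_lit 44) (nat_lit 86) (nat_lit 100) (nat_lit 308) (.leaf p107_l132))
(.trX (nat_lit 19) (nat_lit 100) (nat_lit 49) (nat_lit 92) (nat_lit 376) (.spl (nat_lit 6) (nat_lit 100)
(.spl (nat_lit 1) (nat_lit 230)
(.trX (nat_lit 13) (nat_lit 44) (nat_lit 83) (nat_lit 100) (nat_lit 316) (.leaf p107_l133))
(.trX (nat_lit 19) (nat_lit 100) (nat_lit 54) (nat_lit 93) (nat_lit 372) (.leaf p107_l134)))
(.spl (nat_lit 5) (nat_lit 160)
(.leaf p107_l135)
(.spl (nat_lit 0) (nat_lit 385)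
(.spl (nat_lit 6) (nat_lit 112)
(.leaf p107_l136)
(.leaf p107_l137))
(.trX (nat_lit 13) (nat_lit 39) (nat_lit 85) (nat_lit 100) (nat_lit 312) (.trX (nat_lit 16) (nat_lit 38) (nat_lit 100) (nat_lit 92) (nat_lit 196) (.leaf p107_l138)))))))))))
(.trX (nat_lit 13) (nat_lit 32) (nat_lit 89) (nat_lit 100) (nat_lit 300) (.trX (nat_lit 16) (nat_lit 31) (nat_lit 100) (nat_lit 92) (nat_lit 184) (.trX (nat_lit 22) (nat_lit 92) (nat_lit 47) (nat_lit 100) (nat_lit 380) (.spl (nat_lit 4) (nat_lit 120)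
(.trX (nat_lit 22) (nat_lit 100) (nat_lit 80) (nat_lit 100) (nat_lit 336) (.leaf p107_l139))
(.spl (nat_lit 3) (nat_lit 100)
(.trX (nat_lit 16) (nat_lit 32) (nat_lit 100) (nat_lit 88) (nat_lit 160) (.trX (nat_lit 19) (nat_lit 100) (nat_lit 50) (nat_lit 87) (nat_lit 376) (.trX (nat_lit 22) (nat_lit 94) (nat_lit 59) (nat_lit 100) (nat_lit 364) (.leaf p107_l140))))
(.leaf p107_l141))))))))) (by decide +kernel)
noncomputable def p107_l142 : Lf2 := ⟨nat_lit 0, nat_lit 30, [nat_lit 15, nat_lit 5, nat_lit 5, nat_lit 20], true, nat_lit 8, nat_lit 248, nat_lit 0, nat_lit 384, ⟨nat_lit 0, nat_lit 1000, nat_lit 0, nat_lit 5, nat_lit 185, nat_lit 1000, nat_lit 94, nat_lit 0, nat_lit 0, nat_lit 0, nat_lit 0, nat_lit 0, nat_lit 0, nat_lit 0, nat_lit 0, nat_lit 5000000, false, false⟩,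
 nat_lit 0, nat_lit 4927, nat_lit 0, nat_lit 0, nat_lit 4291, nat_lit 0, nat_lit 0, nat_lit 0, nat_lit 0, nat_lit 0, nat_lit 0, nat_lit 0, nat_lit 0, nat_lit 0, nat_lit 0, nat_lit 390850, nat_lit 0, nat_lit 0, [(nat_lit 26, [(nat_lit 0, nat_lit 61), (nat_lit 1, nat_lit 939)]), (nat_lit 29, [(nat_lit 0, nat_lit 61), (nat_lit 1, nat_lit 939)])],
 ⟨p107_k21, nat_lit 0, nat_lit 0, nat_lit 440, nat_lit 0, nat_lit 417234, [nat_lit 1132786000, nat_lit 873380400], [], [nat_lit 27301484957, nat_lit 28948539327, nat_lit 27715871186, nat_lit 29505659720, nat_lit 26487525509, nat_lit 27663895914, nat_lit 29613717031, nat_lit 28139714188], nat_lit 1271250, nat_lit 1271250, nat_lit 490000, nat_lit 1740000, nat_lit 43600, nat_lit 1756600, [nat_lit 230000, nat_lit 2015000], [nat_lit 132, nat_lit 40, nat_lit 40, nat_lit 80, nat_lit 133, nat_lit 345, nat_lit 125, nat_lit 10]⟩, C1.Rw.none,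
 ⟨nat_lit 0, nat_lit 3163, ⟨.ofNat (nat_lit 309443), .ofNat (nat_lit 560951), .ofNat (nat_lit 351143), .ofNat (nat_lit 605128), .ofNat (nat_lit 342303), .ofNat (nat_lit 549998), .ofNat (nat_lit 389693), .ofNat (nat_lit 599865)⟩, ⟨.ofNat (nat_lit 20000), .ofNat (nat_lit 440207), .ofNat (nat_lit 20000), .ofNat (nat_lit 484518), .ofNat (nat_lit 20000), .ofNat (nat_lit 409993), .ofNat (nat_lit 20000), .ofNat (nat_lit 459993)⟩⟩, [⟨nat_lit 4, nat_lit 100, nat_lit 44, nat_lit 87, nat_lit 109151083⟩]⟩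
noncomputable def p107_l143 : Lf2 := ⟨nat_lit 0, nat_lit 30, [nat_lit 15, nat_lit 5, nat_lit 5, nat_lit 20], true, nat_lit 8, nat_lit 248, nat_lit 0, nat_lit 384, ⟨nat_lit 0, nat_lit 1000, nat_lit 0, nat_lit 6, nat_lit 263, nat_lit 1000, nat_lit 94, nat_lit 0, nat_lit 0, nat_lit 0, nat_lit 0, nat_lit 0, nat_lit 0, nat_lit 0, nat_lit 0, nat_lit 5000000, true, true⟩,
 nat_lit 0, nat_lit 4560, nat_lit 0, nat_lit 0, nat_lit 3971, nat_lit 0, nat_lit 0, nat_lit 0, nat_lit 0, nat_lit 0, nat_lit 0, nat_lit 0, nat_lit 0, nat_lit 0, nat_lit 0, nat_lit 368650, nat_lit 0, nat_lit 0, [(nat_lit 26, [(nat_lit 0, nat_lit 209), (nat_lit 1, nat_lit 791)]), (nat_lit 29, [(nat_lit 0, nat_lit 209), (nat_lit 1, nat_lit 791)])],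
 ⟨p107_k21, nat_lit 0, nat_lit 0, nat_lit 393, nat_lit 0, nat_lit 417234, [nat_lit 1077434001, nat_lit 1177157928], [], [nat_lit 29261060666, nat_lit 30563160630, nat_lit 31547569985, nat_lit 33846581566, nat_lit 28388783454, nat_lit 29604316308, nat_lit 30495101133, nat_lit 31714527765], nat_lit 1271250, nat_lit 1271250, nat_lit 1271250, nat_lit 1271250, nat_lit 43600, nat_lit 1756600, [nat_lit 230000, nat_lit 2015000], [nat_lit 132, nat_lit 40, nat_lit 40, nat_lit 80, nat_lit 133, nat_lit 373, nat_lit 150, nat_lit 10]⟩, C1.Rw.none,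
 ⟨nat_lit 0, nat_lit 3163, ⟨.ofNat (nat_lit 560951), .ofNat (nat_lit 731616), .ofNat (nat_lit 605128), .ofNat (nat_lit 775928), .ofNat (nat_lit 549998), .ofNat (nat_lit 689994), .ofNat (nat_lit 599865), .ofNat (nat_lit 739996)⟩, ⟨.ofNat (nat_lit 20000), .ofNat (nat_lit 440207), .ofNat (nat_lit 20000), .ofNat (nat_lit 484518), .ofNat (nat_lit 20000), .ofNat (nat_lit 409993), .ofNat (nat_lit 20000), .ofNat (nat_lit 459993)⟩⟩, [⟨nat_lit 13, nat_lit 44, nat_lit 86, nat_lit 100, nat_lit 452003221⟩, ⟨nat_lit 4, nat_lit 100, nat_lit 44, nat_lit 87, nat_lit 67397831⟩]⟩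
noncomputable def p107_l144 : Lf2 := ⟨nat_lit 0, nat_lit 30, [nat_lit 15, nat_lit 5, nat_lit 5, nat_lit 20], false, nat_lit 8, nat_lit 248, nat_lit 0, nat_lit 384, ⟨nat_lit 0, nat_lit 1000, nat_lit 0, nat_lit 5, nat_lit 218, nat_lit 1000, nat_lit 96, nat_lit 0, nat_lit 0, nat_lit 0, nat_lit 0, nat_lit 0, nat_lit 0, nat_lit 0, nat_lit 0, nat_lit 5000000, false, true⟩,
 nat_lit 0, nat_lit 5590, nat_lit 0, nat_lit 45, nat_lit 4868, nat_lit 0, nat_lit 0, nat_lit 0, nat_lit 0, nat_lit 0, nat_lit 0, nat_lit 0, nat_lit 0, nat_lit 0, nat_lit 0, nat_lit 269800, nat_lit 0, nat_lit 0, [(nat_lit 26, [(nat_lit 0, nat_lit 868), (nat_lit 1, nat_lit 132)])],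
 ⟨p107_k21, nat_lit 0, nat_lit 0, nat_lit 318, nat_lit 0, nat_lit 158391, [nat_lit 817080000, nat_lit 2636056582], [], [nat_lit 31773845993, nat_lit 32639766983, nat_lit 34016922733, nat_lit 34861884140, nat_lit 29951335894, nat_lit 30602581691, nat_lit 31997437804, nat_lit 31847998039], nat_lit 1271250, nat_lit 1271250, nat_lit 490000, nat_lit 2615000, nat_lit 43600, nat_lit 1756600, [nat_lit 230000, nat_lit 2015000], [nat_lit 132, nat_lit 40, nat_lit 40, nat_lit 80, nat_lit 133, nat_lit 373, nat_lit 150, nat_lit 11]⟩, ⟨p107_k44, nat_lit 0, nat_lit 0, nat_lit 661, nat_lit 0, nat_lit 410350, [nat_lit 0, nat_lit 0], [], [nat_lit 0, nat_lit 0, nat_lit 0, nat_lit 0, nat_lit 0, nat_lit 0, nat_lit 0, nat_lit 0], nat_lit 1271250, nat_lit 1271250, nat_lit 490000, nat_lit 2615000, nat_lit 0, nat_lit 2712000, [nat_lit 1412500, nat_lit 1271250], [nat_lit 279, nat_lit 40, nat_lit 40, nat_lit 80, nat_lit 283, nat_lit 483, nat_lit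 250, nat_lit 10]⟩,
 ⟨nat_lit 2236, nat_lit 3163, ⟨.ofNat (nat_lit 316827), .ofNat (nat_lit 731621), .ofNat (nat_lit 361011), .ofNat (nat_lit 775931), .ofNat (nat_lit 328641), .ofNat (nat_lit 716658), .ofNat (nat_lit 374063), .ofNat (nat_lit 762206)⟩, ⟨.ofNat (nat_lit 20000), .ofNat (nat_lit 440213), .ofNat (nat_lit 20000), .ofNat (nat_lit 484523), .ofNat (nat_lit 20000), .ofNat (nat_lit 431772), .ofNat (nat_lit 20000), .ofNat (nat_lit 477320)⟩⟩, [⟨nat_lit 13, nat_lit 53, nat_lit 80, nat_lit 100, nat_lit 143143050⟩]⟩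
noncomputable def p107_l145 : Lf2 := ⟨nat_lit 0, nat_lit 30, [nat_lit 15, nat_lit 5, nat_lit 5, nat_lit 20], true, nat_lit 20, nat_lit 208, nat_lit 0, nat_lit 384, ⟨nat_lit 0, nat_lit 1000, nat_lit 0, nat_lit 5, nat_lit 218, nat_lit 1000, nat_lit 88, nat_lit 0, nat_lit 0, nat_lit 0, nat_lit 0, nat_lit 0, nat_lit 0, nat_lit 0, nat_lit 0, nat_lit 5000000, false, true⟩,
 nat_lit 0, nat_lit 3128, nat_lit 0, nat_lit 1256, nat_lit 2922, nat_lit 0, nat_lit 0, nat_lit 0, nat_lit 0, nat_lit 0, nat_lit 0, nat_lit 0, nat_lit 0, nat_lit 0, nat_lit 0, nat_lit 396100, nat_lit 0, nat_lit 0, [(nat_lit 29, [(nat_lit 0, nat_lit 26), (nat_lit 1, nat_lit 974)])],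
 ⟨p107_k12, nat_lit 0, nat_lit 0, nat_lit 355, nat_lit 0, nat_lit 379774, [nat_lit 700563200, nat_lit 232845601, nat_lit 105884800], [], [nat_lit 22424050980, nat_lit 23874190106, nat_lit 27821738801, nat_lit 29129139958, nat_lit 23594088009, nat_lit 24489442938, nat_lit 27717450428, nat_lit 28557823276], nat_lit 1271250, nat_lit 1271250, nat_lit 719601, nat_lit 2439450, nat_lit 111251, nat_lit 1474250, [nat_lit 230000, nat_lit 1100000, nat_lit 1785000], [nat_lit 57, nat_lit 40, nat_lit 40, nat_lit 80, nat_lit 7, nat_lit 373, nat_lit 150, nat_lit 12]⟩, C1.Rw.none,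
 ⟨nat_lit 0, nat_lit 2237, ⟨.ofNat (nat_lit 370513), .ofNat (nat_lit 676741), .ofNat (nat_lit 414208), .ofNat (nat_lit 722292), .ofNat (nat_lit 385947), .ofNat (nat_lit 654993), .ofNat (nat_lit 434094), .ofNat (nat_lit 704996)⟩, ⟨.ofNat (nat_lit 50000), .ofNat (nat_lit 374750), .ofNat (nat_lit 50000), .ofNat (nat_lit 420300), .ofNat (nat_lit 50000), .ofNat (nat_lit 359993), .ofNat (nat_lit 50000), .ofNat (nat_lit 409994)⟩⟩, [⟨nat_lit 13, nat_lit 44, nat_lit 81, nat_lit 100, nat_lit 330816234⟩, ⟨nat_lit 16, nat_lit 44, nat_lit 100, nat_lit 92, nat_lit 103163333⟩]⟩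
noncomputable def b_V_900_500_20_27 : St := ⟨true, nat_lit 1, nat_lit 2, nat_lit 2, nat_lit 120, nat_lit 360, nat_lit 400, nat_lit 200, nat_lit 240, nat_lit 80, nat_lit 352, nat_lit 80, nat_lit 120, nat_lit 8, nat_lit 248, nat_lit 0, nat_lit 384, nat_lit 80, nat_lit 120, nat_lit 0, nat_lit 0, nat_lit 0, nat_lit 0⟩
theorem d_V_900_500_20_27 (h : EB TB.env) : Dead b_V_900_500_20_27 := chkB_sound0 h (T :=
(.st (nat_lit 1)
(.spl (nat_lit 2) (nat_lit 240)
(.leaf p107_l142)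
(.leaf p107_l143))
(.spl (nat_lit 0) (nat_lit 380)
(.leaf p107_l144)
(.trZ (nat_lit 0) (nat_lit 100) (nat_lit 44) (nat_lit 90) (nat_lit 112) (.trX (nat_lit 13) (nat_lit 44) (nat_lit 81) (nat_lit 100) (nat_lit 324) (.trZ (nat_lit 3) (nat_lit 100) (nat_lit 54) (nat_lit 57) (nat_lit 20) (.trX (nat_lit 16) (nat_lit 44) (nat_lit 100) (nat_lit 92) (nat_lit 208) (.leaf p107_l145)))))))) (by decide +kernel)
noncomputable def p107_l146 : Lf2 := ⟨nat_lit 1, nat_lit 30, [nat_lit 15, nat_lit 5, nat_lit 5, nat_lit 20], false, nat_lit 8, nat_lit 80, nat_lit 0, nat_lit 384, zbN0,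
 nat_lit 0, nat_lit 0, nat_lit 0, nat_lit 0, nat_lit 0, nat_lit 0, nat_lit 0, nat_lit 0, nat_lit 0, nat_lit 0, nat_lit 0, nat_lit 0, nat_lit 0, nat_lit 0, nat_lit 0, nat_lit 0, nat_lit 0, nat_lit 0, [],
 C1.Rw.none, C1.Rw.none,
 zbF0, []⟩
noncomputable def p107_l147 : Lf2 := ⟨nat_lit 0, nat_lit 30, [nat_lit 15, nat_lit 5, nat_lit 5, nat_lit 20], true, nat_lit 12, nat_lit 80, nat_lit 0, nat_lit 384, ⟨nat_lit 0, nat_lit 136, nat_lit 864, nat_lit 5, nat_lit 189, nat_lit 1000, nat_lit 45, nat_lit 864, nat_lit 19267, nat_lit 249, nat_lit 2958, nat_lit 211, nat_lit 53366424, nat_lit 12272745, nat_lit 1360831, nat_lit 2959455, false, false⟩,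
 nat_lit 0, nat_lit 0, nat_lit 0, nat_lit 6325, nat_lit 2248, nat_lit 0, nat_lit 0, nat_lit 0, nat_lit 0, nat_lit 0, nat_lit 0, nat_lit 0, nat_lit 0, nat_lit 0, nat_lit 79, nat_lit 250000, nat_lit 0, nat_lit 0, [(nat_lit 26, [(nat_lit 0, nat_lit 136), (nat_lit 4, nat_lit 864)])],
 ⟨p107_k22, nat_lit 0, nat_lit 0, nat_lit 184, nat_lit 0, nat_lit 0, [nat_lit 1090240000, nat_lit 608038401, nat_lit 15187200], [], [nat_lit 19417362430, nat_lit 20053401001, nat_lit 22320542991, nat_lit 22843090587, nat_lit 18997030105, nat_lit 19602541285, nat_lit 21894008128, nat_lit 22423218208], nat_lit 0, nat_lit 0, nat_lit 0, nat_lit 0, nat_lit 0, nat_lit 0, [], [nat_lit 57, nat_lit 40, nat_lit 40, nat_lit 80, nat_lit 7, nat_lit 317, nat_lit 100, nat_lit 10]⟩, C1.Rw.none,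
 ⟨nat_lit 2236, nat_lit 2739, ⟨.ofNat (nat_lit 340439), .ofNat (nat_lit 559060), .ofNat (nat_lit 385234), .ofNat (nat_lit 603890), .ofNat (nat_lit 345963), .ofNat (nat_lit 557014), .ofNat (nat_lit 391471), .ofNat (nat_lit 602558)⟩, ⟨.ofNat (nat_lit 30000), .ofNat (nat_lit 188310), .ofNat (nat_lit 30000), .ofNat (nat_lit 200000), .ofNat (nat_lit 30000), .ofNat (nat_lit 192306), .ofNat (nat_lit 30000), .ofNat (nat_lit 200000)⟩⟩, [⟨nat_lit 3, nat_lit 100, nat_lit 56, nat_lit 60, nat_lit 254212314⟩]⟩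
noncomputable def p107_l148 : Lf2 := ⟨nat_lit 1, nat_lit 30, [nat_lit 15, nat_lit 5, nat_lit 5, nat_lit 20], false, nat_lit 8, nat_lit 80, nat_lit 0, nat_lit 384, zbN0,
 nat_lit 0, nat_lit 0, nat_lit 0, nat_lit 0, nat_lit 0, nat_lit 0, nat_lit 0, nat_lit 0, nat_lit 0, nat_lit 0, nat_lit 0, nat_lit 0, nat_lit 0, nat_lit 0, nat_lit 0, nat_lit 0, nat_lit 0, nat_lit 0, [],
 C1.Rw.none, C1.Rw.none,
 zbF0, []⟩
noncomputable def p107_l149 : Lf2 := ⟨nat_lit 0, nat_lit 30, [nat_lit 15, nat_lit 5, nat_lit 5, nat_lit 20], true, nat_lit 20, nat_lit 80, nat_lit 0, nat_lit 384, ⟨nat_lit 0, nat_lit 268, nat_lit 732, nat_lit 5, nat_lit 196, nat_lit 1000, nat_lit 50, nat_lit 732, nat_lit 22817, nat_lit 252, nat_lit 267, nat_lit 211, nat_lit 52496337, nat_lit 12930068, nat_lit 1573595, nat_lit 3099011, false, false⟩,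
 nat_lit 0, nat_lit 0, nat_lit 0, nat_lit 4967, nat_lit 2364, nat_lit 0, nat_lit 0, nat_lit 0, nat_lit 0, nat_lit 0, nat_lit 0, nat_lit 0, nat_lit 0, nat_lit 0, nat_lit 78, nat_lit 250000, nat_lit 0, nat_lit 0, [(nat_lit 29, [(nat_lit 0, nat_lit 268), (nat_lit 4, nat_lit 732)])],
 ⟨p107_k12, nat_lit 0, nat_lit 0, nat_lit 185, nat_lit 0, nat_lit 0, [nat_lit 1078960001, nat_lit 346950401, nat_lit 175089600], [], [nat_lit 20304006470, nat_lit 21763595200, nat_lit 22948967957, nat_lit 24383118832, nat_lit 19854954913, nat_lit 21064870553, nat_lit 22604312189, nat_lit 23839065253], nat_lit 0, nat_lit 0, nat_lit 0, nat_lit 0, nat_lit 0, nat_lit 0, [], [nat_lit 57, nat_lit 40, nat_lit 40, nat_lit 80, nat_lit 7, nat_lit 317, nat_lit 100, nat_lit 10]⟩, C1.Rw.none,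
 ⟨nat_lit 0, nat_lit 2237, ⟨.ofNat (nat_lit 370513), .ofNat (nat_lit 557013), .ofNat (nat_lit 414208), .ofNat (nat_lit 602531), .ofNat (nat_lit 385947), .ofNat (nat_lit 549998), .ofNat (nat_lit 434094), .ofNat (nat_lit 599967)⟩, ⟨.ofNat (nat_lit 50000), .ofNat (nat_lit 192306), .ofNat (nat_lit 50000), .ofNat (nat_lit 200000), .ofNat (nat_lit 50000), .ofNat (nat_lit 199999), .ofNat (nat_lit 50000), .ofNat (nat_lit 200000)⟩⟩, [⟨nat_lit 3, nat_lit 100, nat_lit 36, nat_lit 77, nat_lit 402248663⟩]⟩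
noncomputable def p107_l150 : Lf2 := ⟨nat_lit 0, nat_lit 30, [nat_lit 15, nat_lit 5, nat_lit 5, nat_lit 20], true, nat_lit 80, nat_lit 160, nat_lit 0, nat_lit 384, ⟨nat_lit 0, nat_lit 0, nat_lit 1000, nat_lit 5, nat_lit 185, nat_lit 1000, nat_lit 105, nat_lit 1000, nat_lit 101400, nat_lit 293, nat_lit 417, nat_lit 210, nat_lit 50382213, nat_lit 0, nat_lit 0, nat_lit 3774050, false, false⟩,
 nat_lit 0, nat_lit 0, nat_lit 0, nat_lit 3548, nat_lit 2650, nat_lit 0, nat_lit 0, nat_lit 0, nat_lit 0, nat_lit 0, nat_lit 0, nat_lit 0, nat_lit 0, nat_lit 0, nat_lit 108, nat_lit 250000, nat_lit 0, nat_lit 0, [(nat_lit 26, [(nat_lit 4, nat_lit 1000)]), (nat_lit 29, [(nat_lit 4, nat_lit 1000)])],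
 ⟨p107_k18, nat_lit 0, nat_lit 0, nat_lit 182, nat_lit 0, nat_lit 0, [nat_lit 1207600000, nat_lit 698800001, nat_lit 686800000], [], [nat_lit 19048549800, nat_lit 21537091800, nat_lit 21770006800, nat_lit 23744054800, nat_lit 19912855800, nat_lit 22134996400, nat_lit 22435153200, nat_lit 24278932000], nat_lit 0, nat_lit 0, nat_lit 0, nat_lit 0, nat_lit 0, nat_lit 0, [], [nat_lit 81, nat_lit 40, nat_lit 40, nat_lit 80, nat_lit 13, nat_lit 317, nat_lit 100, nat_lit 9]⟩, C1.Rw.none,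
 ⟨nat_lit 0, nat_lit 3163, ⟨.ofNat (nat_lit 309443), .ofNat (nat_lit 560951), .ofNat (nat_lit 351143), .ofNat (nat_lit 605128), .ofNat (nat_lit 342303), .ofNat (nat_lit 549998), .ofNat (nat_lit 389693), .ofNat (nat_lit 599865)⟩, ⟨.ofNat (nat_lit 184209), .ofNat (nat_lit 306113), .ofNat (nat_lit 200000), .ofNat (nat_lit 350425), .ofNat (nat_lit 199999), .ofNat (nat_lit 299996), .ofNat (nat_lit 200000), .ofNat (nat_lit 349998)⟩⟩, []⟩
noncomputable def p107_l151 : Lf2 := ⟨nat_lit 0, nat_lit 30, [nat_lit 15, nat_lit 5, nat_lit 5, nat_lit 20], true, nat_lit 160, nat_lit 248, nat_lit 0, nat_lit 384, ⟨nat_lit 0, nat_lit 0, nat_lit 1000, nat_lit 5, nat_lit 185, nat_lit 1000, nat_lit 155, nat_lit 1000, nat_lit 61175, nat_lit 275, nat_lit 417, nat_lit 210, nat_lit 46853347, nat_lit 0, nat_lit 0, nat_lit 4383527, false, false⟩,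
 nat_lit 0, nat_lit 0, nat_lit 0, nat_lit 8682, nat_lit 2754, nat_lit 0, nat_lit 0, nat_lit 0, nat_lit 0, nat_lit 0, nat_lit 0, nat_lit 0, nat_lit 0, nat_lit 0, nat_lit 100, nat_lit 234400, nat_lit 0, nat_lit 0, [(nat_lit 26, [(nat_lit 3, nat_lit 312), (nat_lit 4, nat_lit 688)]), (nat_lit 29, [(nat_lit 3, nat_lit 312), (nat_lit 4, nat_lit 688)])],
 ⟨p107_k18, nat_lit 0, nat_lit 0, nat_lit 156, nat_lit 0, nat_lit 0, [nat_lit 1291788800, nat_lit 632950401, nat_lit 670467200], [], [nat_lit 20051273968, nat_lit 22360276456, nat_lit 22511587336, nat_lit 24386032880, nat_lit 22175210152, nat_lit 24212150901, nat_lit 24225585093, nat_lit 26404287224], nat_lit 0, nat_lit 0, nat_lit 0, nat_lit 0, nat_lit 0, nat_lit 0, [], [nat_lit 81, nat_lit 40, nat_lit 40, nat_lit 80, nat_lit 13, nat_lit 345, nat_lit 125, nat_lit 9]⟩, C1.Rw.none,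
 ⟨nat_lit 0, nat_lit 3163, ⟨.ofNat (nat_lit 309443), .ofNat (nat_lit 560951), .ofNat (nat_lit 351143), .ofNat (nat_lit 605128), .ofNat (nat_lit 342303), .ofNat (nat_lit 549998), .ofNat (nat_lit 389693), .ofNat (nat_lit 599865)⟩, ⟨.ofNat (nat_lit 306113), .ofNat (nat_lit 440207), .ofNat (nat_lit 350425), .ofNat (nat_lit 484518), .ofNat (nat_lit 299996), .ofNat (nat_lit 409993), .ofNat (nat_lit 349998), .ofNat (nat_lit 459993)⟩⟩, [⟨nat_lit 4, nat_lit 100, nat_lit 44, nat_lit 87, nat_lit 421526701⟩]⟩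
noncomputable def p107_l152 : Lf2 := ⟨nat_lit 0, nat_lit 30, [nat_lit 15, nat_lit 5, nat_lit 5, nat_lit 20], false, nat_lit 8, nat_lit 248, nat_lit 0, nat_lit 160, ⟨nat_lit 1000, nat_lit 0, nat_lit 0, nat_lit 0, nat_lit 0, nat_lit 0, nat_lit 0, nat_lit 0, nat_lit 0, nat_lit 0, nat_lit 0, nat_lit 0, nat_lit 0, nat_lit 0, nat_lit 0, nat_lit 0, false, false⟩,
 nat_lit 0, nat_lit 0, nat_lit 0, nat_lit 13276, nat_lit 6205, nat_lit 7416, nat_lit 417, nat_lit 0, nat_lit 0, nat_lit 715, nat_lit 0, nat_lit 0, nat_lit 0, nat_lit 0, nat_lit 0, nat_lit 0, nat_lit 0, nat_lit 0, [],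
 ⟨p107_k18, nat_lit 0, nat_lit 0, nat_lit 209, nat_lit 0, nat_lit 0, [nat_lit 938000000, nat_lit 4688000000, nat_lit 9842000000], [], [nat_lit 30523199259, nat_lit 33803337333, nat_lit 36670809201, nat_lit 40280750702, nat_lit 27851904141, nat_lit 29884941387, nat_lit 31814339597, nat_lit 34481877214], nat_lit 0, nat_lit 0, nat_lit 0, nat_lit 0, nat_lit 0, nat_lit 0, [], [nat_lit 81, nat_lit 40, nat_lit 40, nat_lit 80, nat_lit 13, nat_lit 373, nat_lit 150, nat_lit 10]⟩, ⟨p107_k11, nat_lit 0, nat_lit 0, nat_lit 337, nat_lit 0, nat_lit 0, [nat_lit 6250000000, nat_lit 11872000000, nat_lit 16400000000], [], [nat_lit 35237685982, nat_lit 36237730494, nat_lit 41022497620, nat_lit 41903845300, nat_lit 30238075616, nat_lit 31306367008, nat_lit 35470215431, nat_lit 36066466567], nat_lit 0, nat_lit 0, nat_lit 0, nat_lit 0, nat_lit 0, nat_lit 0, [], [nat_lit 104, nat_lit 40, nat_lit 40, nat_lit 80, nat_lit 76, nat_lit 428, nat_lit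 200, nat_lit 9]⟩,
 zbF0, [⟨nat_lit 13, nat_lit 44, nat_lit 86, nat_lit 100, nat_lit 228973755⟩, ⟨nat_lit 16, nat_lit 44, nat_lit 100, nat_lit 87, nat_lit 230685693⟩]⟩
noncomputable def p107_l153 : Lf2 := ⟨nat_lit 0, nat_lit 30, [nat_lit 15, nat_lit 5, nat_lit 5, nat_lit 20], false, nat_lit 8, nat_lit 248, nat_lit 160, nat_lit 384, ⟨nat_lit 1000, nat_lit 0, nat_lit 0, nat_lit 0, nat_lit 0, nat_lit 0, nat_lit 0, nat_lit 0, nat_lit 0, nat_lit 0, nat_lit 0, nat_lit 0, nat_lit 0, nat_lit 0, nat_lit 0, nat_lit 0, false, false⟩,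
 nat_lit 0, nat_lit 0, nat_lit 0, nat_lit 8691, nat_lit 6205, nat_lit 7708, nat_lit 417, nat_lit 0, nat_lit 0, nat_lit 0, nat_lit 0, nat_lit 0, nat_lit 0, nat_lit 0, nat_lit 0, nat_lit 0, nat_lit 0, nat_lit 0, [],
 ⟨p107_k18, nat_lit 0, nat_lit 0, nat_lit 209, nat_lit 0, nat_lit 0, [nat_lit 938000000, nat_lit 4688000000, nat_lit 9842000000], [], [nat_lit 30523199259, nat_lit 33803337333, nat_lit 36670809201, nat_lit 40280750702, nat_lit 27851904141, nat_lit 29884941387, nat_lit 31814339597, nat_lit 34481877214], nat_lit 0, nat_lit 0, nat_lit 0, nat_lit 0, nat_lit 0, nat_lit 0, [], [nat_lit 81, nat_lit 40, nat_lit 40, nat_lit 80, nat_lit 13, nat_lit 373, nat_lit 150, nat_lit 10]⟩, ⟨p107_k11, nat_lit 0, nat_lit 0, nat_lit 131, nat_lit 0, nat_lit 0, [nat_lit 6250000000, nat_lit 11872000000, nat_lit 16400000000], [], [nat_lit 13521295760, nat_lit 15811465040, nat_lit 23227154765, nat_lit 24627935293, nat_lit 28048047818,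 nat_lit 29194339556, nat_lit 34391528401, nat_lit 34948094057], nat_lit 0, nat_lit 0, nat_lit 0, nat_lit 0, nat_lit 0, nat_lit 0, [], [nat_lit 104, nat_lit 40, nat_lit 40, nat_lit 80, nat_lit 76, nat_lit 483, nat_lit 250, nat_lit 10]⟩,
 zbF0, [⟨nat_lit 16, nat_lit 44, nat_lit 100, nat_lit 87, nat_lit 519007834⟩, ⟨nat_lit 19, nat_lit 100, nat_lit 40, nat_lit 92, nat_lit 224275682⟩, ⟨nat_lit 10, nat_lit 39, nat_lit 88, nat_lit 100, nat_lit 321590080⟩]⟩
noncomputable def b_V_900_500_20_28 : St := ⟨true, nat_lit 0, nat_lit 0, nat_lit 1, nat_lit 120, nat_lit 360, nat_lit 400, nat_lit 200, nat_lit 240, nat_lit 80, nat_lit 352, nat_lit 80, nat_lit 120, nat_lit 8, nat_lit 248, nat_lit 0, nat_lit 384, nat_lit 120, nat_lit 148, nat_lit 0, nat_lit 0, nat_lit 0, nat_lit 0⟩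
theorem d_V_900_500_20_28 (h : EB TB.env) : Dead b_V_900_500_20_28 := chkB_sound0 h (T :=
(.spl (nat_lit 2) (nat_lit 240)
(.spl (nat_lit 4) (nat_lit 160)
(.spl (nat_lit 4) (nat_lit 80)
(.spl (nat_lit 0) (nat_lit 380)
(.spl (nat_lit 6) (nat_lit 128)
(.spl (nat_lit 0) (nat_lit 370)
(.leaf p107_l146)
(.trZ (nat_lit 0) (nat_lit 100) (nat_lit 53) (nat_lit 85) (nat_lit 92) (.trZ (nat_lit 3) (nat_lit 100) (nat_lit 66) (nat_lit 45) (nat_lit 12) (.leaf p107_l147))))
(.leaf p107_l148))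
(.trZ (nat_lit 0) (nat_lit 100) (nat_lit 44) (nat_lit 90) (nat_lit 112) (.trZ (nat_lit 3) (nat_lit 100) (nat_lit 54) (nat_lit 57) (nat_lit 20) (.leaf p107_l149))))
(.leaf p107_l150))
(.leaf p107_l151))
(.spl (nat_lit 5) (nat_lit 160)
(.leaf p107_l152)
(.leaf p107_l153)))) (by decide +kernel)

end B2
end Pool.Agent.Lib.MP_6947cd_al
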