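import Pool.Agent.Lib.MP_6947cd_al.ZB.Pre

/-!
Problem MP_6947cd_al (Chollet).  Case B, second entry in [2/5, 17/20]: certificates of the tree, part P108 (generated).
-/

set_option autoImplicit false
set_option linter.all false

namespace Pool.Agent.Lib.MP_6947cd_al
namespace B2

open Ent Fr B1 PkA

noncomputable def p108_k0 : C1.Kn := ⟨[nat_lit 20, nat_lit 80, nat_lit 120], [nat_lit 0, nat_lit 1046, nat_lit 4184], [(nat_lit 0, nat_lit 0, nat_lit 0), (nat_lit 1000, nat_lit 782, nat_lit 272), (nat_lit 1000, nat_lit 536, nat_lit 947)], (nat_lit 53, nat_lit 100, nat_lit 93)⟩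
noncomputable def p108_k1 : C1.Kn := ⟨[nat_lit 20, nat_lit 80, nat_lit 120], [nat_lit 0, nat_lit 2121, nat_lit 4818], [(nat_lit 0, nat_lit 0, nat_lit 0), (nat_lit 1000, nat_lit 558, nat_lit 551), (nat_lit 1000, nat_lit 443, nat_lit 981)], (nat_lit 44, nat_lit 100, nat_lit 92)⟩
noncomputable def p108_k2 : C1.Kn := ⟨[nat_lit 20, nat_lit 80, nat_lit 140], [nat_lit 0, nat_lit 0, nat_lit 4928], [(nat_lit 0, nat_lit 0, nat_lit 0), (nat_lit 0, nat_lit 0, nat_lit 0), (nat_lit 950, nat_lit 618, nat_lit 1000)], (nat_lit 62, nat_lit 100, nat_lit 94)⟩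
noncomputable def p108_k3 : C1.Kn := ⟨[nat_lit 20, nat_lit 60, nat_lit 100], [nat_lit 0, nat_lit 1415, nat_lit 3591], [(nat_lit 0, nat_lit 0, nat_lit 0), (nat_lit 1000, nat_lit 558, nat_lit 551), (nat_lit 1000, nat_lit 439, nat_lit 849)], (nat_lit 44, nat_lit 100, nat_lit 87)⟩
noncomputable def p108_k4 : C1.Kn := ⟨[nat_lit 100, nat_lit 140, nat_lit 200], [nat_lit 0, nat_lit 0, nat_lit 3647], [(nat_lit 0, nat_lit 0, nat_lit 0), (nat_lit 0, nat_lit 0, nat_lit 0), (nat_lit 726, nat_lit 1000, nat_lit 688)], (nat_lit 0, nat_lit 0, nat_lit 0)⟩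
noncomputable def p108_k5 : C1.Kn := ⟨[nat_lit 20, nat_lit 60, nat_lit 80], [nat_lit 0, nat_lit 2136, nat_lit 3185], [(nat_lit 0, nat_lit 0, nat_lit 0), (nat_lit 1000, nat_lit 343, nat_lit 808), (nat_lit 1000, nat_lit 338, nat_lit 820)], (nat_lit 32, nat_lit 100, nat_lit 88)⟩
noncomputable def p108_k6 : C1.Kn := ⟨[nat_lit 20, nat_lit 80, nat_lit 100], [nat_lit 0, nat_lit 2663, nat_lit 3968], [(nat_lit 0, nat_lit 0, nat_lit 0), (nat_lit 1000, nat_lit 445, nat_lit 693), (nat_lit 1000, nat_lit 380, nat_lit 921)], (nat_lit 38, nat_lit 100, nat_lit 92)⟩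
noncomputable def p108_k7 : C1.Kn := ⟨[nat_lit 100, nat_lit 160, nat_lit 200], [nat_lit 0, nat_lit 0, nat_lit 4782], [(nat_lit 0, nat_lit 0, nat_lit 0), (nat_lit 0, nat_lit 0, nat_lit 0), (nat_lit 475, nat_lit 1000, nat_lit 880)], (nat_lit 0, nat_lit 0, nat_lit 0)⟩
noncomputable def p108_k8 : C1.Kn := ⟨[nat_lit 20, nat_lit 80, nat_lit 100], [nat_lit 0, nat_lit 3199, nat_lit 4400], [(nat_lit 0, nat_lit 0, nat_lit 0), (nat_lit 1000, nat_lit 333, nat_lit 833), (nat_lit 1000, nat_lit 312, nat_lit 938)], (nat_lit 31, nat_lit 100, nat_lit 92)⟩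
noncomputable def p108_k9 : C1.Kn := ⟨[nat_lit 20, nat_lit 60, nat_lit 100], [nat_lit 0, nat_lit 2136, nat_lit 4235], [(nat_lit 0, nat_lit 0, nat_lit 0), (nat_lit 1000, nat_lit 343, nat_lit 808), (nat_lit 1000, nat_lit 338, nat_lit 820)], (nat_lit 31, nat_lit 100, nat_lit 92)⟩
noncomputable def p108_k10 : C1.Kn := ⟨[nat_lit 20, nat_lit 60, nat_lit 100], [nat_lit 0, nat_lit 2600, nat_lit 4863], [(nat_lit 0, nat_lit 0, nat_lit 0), (nat_lit 1000, nat_lit 245, nat_lit 872), (nat_lit 1000, nat_lit 240, nat_lit 884)], (nat_lit 23, nat_lit 100, nat_lit 93)⟩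
noncomputable def p108_k11 : C1.Kn := ⟨[nat_lit 20, nat_lit 80, nat_lit 100], [nat_lit 0, nat_lit 2121, nat_lit 3610], [(nat_lit 0, nat_lit 0, nat_lit 0), (nat_lit 1000, nat_lit 558, nat_lit 551), (nat_lit 1000, nat_lit 436, nat_lit 895)], (nat_lit 44, nat_lit 100, nat_lit 87)⟩
noncomputable def p108_k12 : C1.Kn := ⟨[nat_lit 20, nat_lit 80], [nat_lit 0, nat_lit 3199], [(nat_lit 0, nat_lit 0, nat_lit 0), (nat_lit 1000, nat_lit 333, nat_lit 833)], (nat_lit 32, nat_lit 100, nat_lit 88)⟩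
noncomputable def p108_k13 : C1.Kn := ⟨[nat_lit 100, nat_lit 160, nat_lit 200], [nat_lit 0, nat_lit 761, nat_lit 5273], [(nat_lit 0, nat_lit 0, nat_lit 0), (nat_lit 1000, nat_lit 1000, nat_lit 198), (nat_lit 518, nat_lit 1000, nat_lit 909)], (nat_lit 0, nat_lit 0, nat_lit 0)⟩
noncomputable def p108_k14 : C1.Kn := ⟨[nat_lit 20, nat_lit 140], [nat_lit 0, nat_lit 0], [(nat_lit 0, nat_lit 0, nat_lit 0), (nat_lit 0, nat_lit 0, nat_lit 0)], (nat_lit 62, nat_lit 100, nat_lit 94)⟩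
noncomputable def p108_k15 : C1.Kn := ⟨[nat_lit 20, nat_lit 80], [nat_lit 0, nat_lit 0], [(nat_lit 0, nat_lit 0, nat_lit 0), (nat_lit 0, nat_lit 0, nat_lit 0)], (nat_lit 63, nat_lit 100, nat_lit 62)⟩
noncomputable def p108_k16 : C1.Kn := ⟨[nat_lit 80, nat_lit 160], [nat_lit 0, nat_lit 0], [(nat_lit 0, nat_lit 0, nat_lit 0), (nat_lit 0, nat_lit 0, nat_lit 0)], (nat_lit 100, nat_lit 92, nat_lit 61)⟩
noncomputable def p108_k17 : C1.Kn := ⟨[nat_lit 20, nat_lit 60, nat_lit 80], [nat_lit 0, nat_lit 0, nat_lit 1613], [(nat_lit 0, nat_lit 0, nat_lit 0), (nat_lit 0, nat_lit 0, nat_lit 0), (nat_lit 1000, nat_lit 614, nat_lit 668)], (nat_lit 63, nat_lit 100, nat_lit 62)⟩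
noncomputable def p108_k18 : C1.Kn := ⟨[nat_lit 80, nat_lit 120, nat_lit 160], [nat_lit 0, nat_lit 0, nat_lit 2132], [(nat_lit 0, nat_lit 0, nat_lit 0), (nat_lit 0, nat_lit 0, nat_lit 0), (nat_lit 858, nat_lit 1000, nat_lit 713)], (nat_lit 100, nat_lit 92, nat_lit 61)⟩
noncomputable def p108_k19 : C1.Kn := ⟨[nat_lit 20, nat_lit 60, nat_lit 80], [nat_lit 0, nat_lit 698, nat_lit 2008], [(nat_lit 0, nat_lit 0, nat_lit 0), (nat_lit 1000, nat_lit 782, nat_lit 272), (nat_lit 1000, nat_lit 540, nat_lit 733)], (nat_lit 57, nat_lit 100, nat_lit 64)⟩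
noncomputable def p108_k20 : C1.Kn := ⟨[nat_lit 20, nat_lit 60], [nat_lit 0, nat_lit 1415], [(nat_lit 0, nat_lit 0, nat_lit 0), (nat_lit 1000, nat_lit 558, nat_lit 551)], (nat_lit 49, nat_lit 100, nat_lit 68)⟩
noncomputable def p108_k21 : C1.Kn := ⟨[nat_lit 20, nat_lit 60], [nat_lit 0, nat_lit 2136], [(nat_lit 0, nat_lit 0, nat_lit 0), (nat_lit 1000, nat_lit 343, nat_lit 808)], (nat_lit 38, nat_lit 100, nat_lit 73)⟩
noncomputable def p108_k22 : C1.Kn := ⟨[nat_lit 80, nat_lit 120, nat_lit 140], [nat_lit 0, nat_lit 528, nat_lit 1572], [(nat_lit 0, nat_lit 0, nat_lit 0), (nat_lit 1000, nat_lit 959, nat_lit 206), (nat_lit 966, nat_lit 1000, nat_lit 679)], (nat_lit 100, nat_lit 99, nat_lit 63)⟩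
noncomputable def p108_k23 : C1.Kn := ⟨[nat_lit 20, nat_lit 60], [nat_lit 0, nat_lit 1776], [(nat_lit 0, nat_lit 0, nat_lit 0), (nat_lit 1000, nat_lit 445, nat_lit 693)], (nat_lit 44, nat_lit 100, nat_lit 70)⟩
noncomputable def p108_k24 : C1.Kn := ⟨[nat_lit 20, nat_lit 40], [nat_lit 0, nat_lit 1518], [(nat_lit 0, nat_lit 0, nat_lit 0), (nat_lit 1000, nat_lit 282, nat_lit 802)], (nat_lit 29, nat_lit 100, nat_lit 79)⟩
noncomputable def p108_k25 : C1.Kn := ⟨[nat_lit 20, nat_lit 100], [nat_lit 0, nat_lit 0], [(nat_lit 0, nat_lit 0, nat_lit 0), (nat_lit 0, nat_lit 0, nat_lit 0)], (nat_lit 60, nat_lit 100, nat_lit 80)⟩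
noncomputable def p108_k26 : C1.Kn := ⟨[nat_lit 80, nat_lit 180], [nat_lit 0, nat_lit 0], [(nat_lit 0, nat_lit 0, nat_lit 0), (nat_lit 0, nat_lit 0, nat_lit 0)], (nat_lit 100, nat_lit 76, nat_lit 82)⟩
noncomputable def p108_k27 : C1.Kn := ⟨[nat_lit 20, nat_lit 80, nat_lit 100], [nat_lit 0, nat_lit 0, nat_lit 2559], [(nat_lit 0, nat_lit 0, nat_lit 0), (nat_lit 0, nat_lit 0, nat_lit 0), (nat_lit 1000, nat_lit 600, nat_lit 787)], (nat_lit 60, nat_lit 100, nat_lit 80)⟩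
noncomputable def p108_k28 : C1.Kn := ⟨[nat_lit 20, nat_lit 60, nat_lit 100], [nat_lit 0, nat_lit 0, nat_lit 2559], [(nat_lit 0, nat_lit 0, nat_lit 0), (nat_lit 0, nat_lit 0, nat_lit 0), (nat_lit 1000, nat_lit 600, nat_lit 787)], (nat_lit 60, nat_lit 100, nat_lit 80)⟩
noncomputable def p108_k29 : C1.Kn := ⟨[nat_lit 80, nat_lit 120, nat_lit 160], [nat_lit 0, nat_lit 528, nat_lit 2577], [(nat_lit 0, nat_lit 0, nat_lit 0), (nat_lit 1000, nat_lit 959, nat_lit 206), (nat_lit 929, nat_lit 1000, nat_lit 742)], (nat_lit 100, nat_lit 85, nat_lit 84)⟩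
noncomputable def p108_k30 : C1.Kn := ⟨[nat_lit 20, nat_lit 60, nat_lit 100], [nat_lit 0, nat_lit 1415, nat_lit 3591], [(nat_lit 0, nat_lit 0, nat_lit 0), (nat_lit 1000, nat_lit 558, nat_lit 551), (nat_lit 1000, nat_lit 439, nat_lit 849)], (nat_lit 44, nat_lit 100, nat_lit 82)⟩
noncomputable def p108_k31 : C1.Kn := ⟨[nat_lit 80, nat_lit 120, nat_lit 180], [nat_lit 0, nat_lit 0, nat_lit 3196], [(nat_lit 0, nat_lit 0, nat_lit 0), (nat_lit 0, nat_lit 0, nat_lit 0), (nat_lit 858, nat_lit 1000, nat_lit 713)], (nat_lit 100, nat_lit 76, nat_lit 82)⟩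
noncomputable def p108_k32 : C1.Kn := ⟨[nat_lit 20, nat_lit 60, nat_lit 100], [nat_lit 0, nat_lit 698, nat_lit 3028], [(nat_lit 0, nat_lit 0, nat_lit 0), (nat_lit 1000, nat_lit 782, nat_lit 272), (nat_lit 1000, nat_lit 527, nat_lit 841)], (nat_lit 53, nat_lit 100, nat_lit 80)⟩
noncomputable def p108_k33 : C1.Kn := ⟨[nat_lit 20, nat_lit 60, nat_lit 100], [nat_lit 0, nat_lit 1056, nat_lit 3301], [(nat_lit 0, nat_lit 0, nat_lit 0), (nat_lit 1000, nat_lit 671, nat_lit 411), (nat_lit 1000, nat_lit 484, nat_lit 867)], (nat_lit 49, nat_lit 100, nat_lit 81)⟩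
noncomputable def p108_k34 : C1.Kn := ⟨[nat_lit 20, nat_lit 60, nat_lit 100], [nat_lit 0, nat_lit 0, nat_lit 2559], [(nat_lit 0, nat_lit 0, nat_lit 0), (nat_lit 0, nat_lit 0, nat_lit 0), (nat_lit 1000, nat_lit 600, nat_lit 787)], (nat_lit 61, nat_lit 100, nat_lit 72)⟩
noncomputable def p108_k35 : C1.Kn := ⟨[nat_lit 80, nat_lit 120, nat_lit 160], [nat_lit 0, nat_lit 0, nat_lit 2132], [(nat_lit 0, nat_lit 0, nat_lit 0), (nat_lit 0, nat_lit 0, nat_lit 0), (nat_lit 858, nat_lit 1000, nat_lit 713)], (nat_lit 100, nat_lit 85, nat_lit 73)⟩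
noncomputable def p108_k36 : C1.Kn := ⟨[nat_lit 20, nat_lit 60, nat_lit 80], [nat_lit 0, nat_lit 698, nat_lit 2008], [(nat_lit 0, nat_lit 0, nat_lit 0), (nat_lit 1000, nat_lit 782, nat_lit 272), (nat_lit 1000, nat_lit 540, nat_lit 733)], (nat_lit 54, nat_lit 100, nat_lit 73)⟩
noncomputable def p108_k37 : C1.Kn := ⟨[nat_lit 20, nat_lit 60, nat_lit 100], [nat_lit 0, nat_lit 339, nat_lit 2783], [(nat_lit 0, nat_lit 0, nat_lit 0), (nat_lit 1000, nat_lit 894, nat_lit 132), (nat_lit 1000, nat_lit 565, nat_lit 820)], (nat_lit 57, nat_lit 100, nat_lit 80)⟩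
noncomputable def p108_k38 : C1.Kn := ⟨[nat_lit 80, nat_lit 120, nat_lit 180], [nat_lit 0, nat_lit 264, nat_lit 3394], [(nat_lit 0, nat_lit 0, nat_lit 0), (nat_lit 1000, nat_lit 979, nat_lit 103), (nat_lit 893, nat_lit 1000, nat_lit 726)], (nat_lit 100, nat_lit 81, nat_lit 83)⟩
noncomputable def p108_k39 : C1.Kn := ⟨[nat_lit 80, nat_lit 120, nat_lit 160], [nat_lit 0, nat_lit 528, nat_lit 2577], [(nat_lit 0, nat_lit 0, nat_lit 0), (nat_lit 1000, nat_lit 959, nat_lit 206), (nat_lit 929, nat_lit 1000, nat_lit 742)], (nat_lit 100, nat_lit 92, nat_lit 75)⟩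
noncomputable def p108_k40 : C1.Kn := ⟨[nat_lit 80, nat_lit 120, nat_lit 160], [nat_lit 0, nat_lit 796, nat_lit 2802], [(nat_lit 0, nat_lit 0, nat_lit 0), (nat_lit 1000, nat_lit 938, nat_lit 310), (nat_lit 969, nat_lit 1000, nat_lit 759)], (nat_lit 100, nat_lit 97, nat_lit 76)⟩
noncomputable def p108_k41 : C1.Kn := ⟨[nat_lit 20, nat_lit 60, nat_lit 100], [nat_lit 0, nat_lit 563, nat_lit 2927], [(nat_lit 0, nat_lit 0, nat_lit 0), (nat_lit 1000, nat_lit 824, nat_lit 220), (nat_lit 1000, nat_lit 543, nat_lit 833)], (nat_lit 54, nat_lit 100, nat_lit 80)⟩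
noncomputable def p108_k42 : C1.Kn := ⟨[nat_lit 80, nat_lit 120, nat_lit 160], [nat_lit 0, nat_lit 796, nat_lit 2802], [(nat_lit 0, nat_lit 0, nat_lit 0), (nat_lit 1000, nat_lit 938, nat_lit 310), (nat_lit 969, nat_lit 1000, nat_lit 759)], (nat_lit 100, nat_lit 90, nat_lit 85)⟩
noncomputable def p108_k43 : C1.Kn := ⟨[nat_lit 20, nat_lit 60, nat_lit 80], [nat_lit 0, nat_lit 2136, nat_lit 3185], [(nat_lit 0, nat_lit 0, nat_lit 0), (nat_lit 1000, nat_lit 343, nat_lit 808), (nat_lit 1000, nat_lit 338, nat_lit 820)], (nat_lit 33, nat_lit 100, nat_lit 84)⟩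
noncomputable def p108_l0 : Lf2 := ⟨nat_lit 1, nat_lit 30, [nat_lit 15, nat_lit 5, nat_lit 5, nat_lit 20], false, nat_lit 8, nat_lit 80, nat_lit 0, nat_lit 384, zbN0,
 nat_lit 0, nat_lit 0, nat_lit 0, nat_lit 0, nat_lit 0, nat_lit 0, nat_lit 0, nat_lit 0, nat_lit 0, nat_lit 0, nat_lit 0, nat_lit 0, nat_lit 0, nat_lit 0, nat_lit 0, nat_lit 0, nat_lit 0, nat_lit 0, [],
 C1.Rw.none, C1.Rw.none,
 zbF0, []⟩
noncomputable def p108_l1 : Lf2 := ⟨nat_lit 0, nat_lit 30, [nat_lit 15, nat_lit 5, nat_lit 5, nat_lit 20], true, nat_lit 12, nat_lit 80, nat_lit 0, nat_lit 384, ⟨nat_lit 0, nat_lit 136, nat_lit 864, nat_lit 5, nat_lit 189, nat_lit 1000, nat_lit 45, nat_lit 864, nat_lit 19267, nat_lit 249, nat_lit 2958, nat_lit 211, nat_lit 53366424, nat_lit 12272745, nat_lit 1360831, nat_lit 2959455, false, false⟩,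
 nat_lit 0, nat_lit 0, nat_lit 0, nat_lit 6325, nat_lit 2248, nat_lit 0, nat_lit 0, nat_lit 0, nat_lit 0, nat_lit 0, nat_lit 0, nat_lit 0, nat_lit 0, nat_lit 0, nat_lit 79, nat_lit 250000, nat_lit 0, nat_lit 0, [(nat_lit 26, [(nat_lit 0, nat_lit 136), (nat_lit 4, nat_lit 864)])],
 ⟨p108_k0, nat_lit 0, nat_lit 0, nat_lit 184, nat_lit 0, nat_lit 0, [nat_lit 1090240000, nat_lit 608038401, nat_lit 15187200], [], [nat_lit 19417362430, nat_lit 20053401001, nat_lit 22320542991, nat_lit 22843090587, nat_lit 18997030105, nat_lit 19602541285, nat_lit 21894008128, nat_lit 22423218208], nat_lit 0, nat_lit 0, nat_lit 0, nat_lit 0, nat_lit 0, nat_lit 0, [], [nat_lit 57, nat_lit 40, nat_lit 40, nat_lit 80, nat_lit 7, nat_lit 317, nat_lit 100, nat_lit 10]⟩, C1.Rw.none,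
 ⟨nat_lit 2236, nat_lit 2739, ⟨.ofNat (nat_lit 340439), .ofNat (nat_lit 559060), .ofNat (nat_lit 385234), .ofNat (nat_lit 603890), .ofNat (nat_lit 345963), .ofNat (nat_lit 557014), .ofNat (nat_lit 391471), .ofNat (nat_lit 602558)⟩, ⟨.ofNat (nat_lit 30000), .ofNat (nat_lit 188310), .ofNat (nat_lit 30000), .ofNat (nat_lit 200000), .ofNat (nat_lit 30000), .ofNat (nat_lit 192306), .ofNat (nat_lit 30000), .ofNat (nat_lit 200000)⟩⟩, [⟨nat_lit 3, nat_lit 100, nat_lit 56, nat_lit 60, nat_lit 254212314⟩]⟩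
noncomputable def p108_l2 : Lf2 := ⟨nat_lit 1, nat_lit 30, [nat_lit 15, nat_lit 5, nat_lit 5, nat_lit 20], false, nat_lit 8, nat_lit 80, nat_lit 0, nat_lit 384, zbN0,
 nat_lit 0, nat_lit 0, nat_lit 0, nat_lit 0, nat_lit 0, nat_lit 0, nat_lit 0, nat_lit 0, nat_lit 0, nat_lit 0, nat_lit 0, nat_lit 0, nat_lit 0, nat_lit 0, nat_lit 0, nat_lit 0, nat_lit 0, nat_lit 0, [],
 C1.Rw.none, C1.Rw.none,
 zbF0, []⟩
noncomputable def p108_l3 : Lf2 := ⟨nat_lit 0, nat_lit 30, [nat_lit 15, nat_lit 5, nat_lit 5, nat_lit 20], true, nat_lit 20, nat_lit 80, nat_lit 0, nat_lit 384, ⟨nat_lit 0, nat_lit 268, nat_lit 732, nat_lit 5, nat_lit 196, nat_lit 1000, nat_lit 50, nat_lit 732, nat_lit 22817, nat_lit 252, nat_lit 267, nat_lit 211, nat_lit 52496337, nat_lit 12930068, nat_lit 1573595, nat_lit 3099011, false, false⟩,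
 nat_lit 0, nat_lit 0, nat_lit 0, nat_lit 4967, nat_lit 2364, nat_lit 0, nat_lit 0, nat_lit 0, nat_lit 0, nat_lit 0, nat_lit 0, nat_lit 0, nat_lit 0, nat_lit 0, nat_lit 78, nat_lit 250000, nat_lit 0, nat_lit 0, [(nat_lit 29, [(nat_lit 0, nat_lit 268), (nat_lit 4, nat_lit 732)])],
 ⟨p108_k1, nat_lit 0, nat_lit 0, nat_lit 185, nat_lit 0, nat_lit 0, [nat_lit 1078960001, nat_lit 346950401, nat_lit 175089600], [], [nat_lit 20304006470, nat_lit 21763595200, nat_lit 22948967957, nat_lit 24383118832, nat_lit 19854954913, nat_lit 21064870553, nat_lit 22604312189, nat_lit 23839065253], nat_lit 0, nat_lit 0, nat_lit 0, nat_lit 0, nat_lit 0, nat_lit 0, [], [nat_lit 57, nat_lit 40, nat_lit 40, nat_lit 80, nat_lit 7, nat_lit 317, nat_lit 100, nat_lit 10]⟩, C1.Rw.none,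
 ⟨nat_lit 0, nat_lit 2237, ⟨.ofNat (nat_lit 370513), .ofNat (nat_lit 557013), .ofNat (nat_lit 414208), .ofNat (nat_lit 602531), .ofNat (nat_lit 385947), .ofNat (nat_lit 549998), .ofNat (nat_lit 434094), .ofNat (nat_lit 599967)⟩, ⟨.ofNat (nat_lit 50000), .ofNat (nat_lit 192306), .ofNat (nat_lit 50000), .ofNat (nat_lit 200000), .ofNat (nat_lit 50000), .ofNat (nat_lit 199999), .ofNat (nat_lit 50000), .ofNat (nat_lit 200000)⟩⟩, [⟨nat_lit 3, nat_lit 100, nat_lit 36, nat_lit 77, nat_lit 402248663⟩]⟩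
noncomputable def p108_l4 : Lf2 := ⟨nat_lit 0, nat_lit 30, [nat_lit 15, nat_lit 5, nat_lit 5, nat_lit 20], true, nat_lit 80, nat_lit 160, nat_lit 0, nat_lit 384, ⟨nat_lit 0, nat_lit 0, nat_lit 1000, nat_lit 5, nat_lit 185, nat_lit 1000, nat_lit 105, nat_lit 1000, nat_lit 101400, nat_lit 293, nat_lit 417, nat_lit 210, nat_lit 50382213, nat_lit 0, nat_lit 0, nat_lit 3774050, false, false⟩,
 nat_lit 0, nat_lit 0, nat_lit 0, nat_lit 3548, nat_lit 2650, nat_lit 0, nat_lit 0, nat_lit 0, nat_lit 0, nat_lit 0, nat_lit 0, nat_lit 0, nat_lit 0, nat_lit 0, nat_lit 108, nat_lit 250000, nat_lit 0, nat_lit 0, [(nat_lit 26, [(nat_lit 4, nat_lit 1000)]), (nat_lit 29, [(nat_lit 4, nat_lit 1000)])],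
 ⟨p108_k2, nat_lit 0, nat_lit 0, nat_lit 182, nat_lit 0, nat_lit 0, [nat_lit 1207600000, nat_lit 698800001, nat_lit 686800000], [], [nat_lit 19048549800, nat_lit 21537091800, nat_lit 21770006800, nat_lit 23744054800, nat_lit 19912855800, nat_lit 22134996400, nat_lit 22435153200, nat_lit 24278932000], nat_lit 0, nat_lit 0, nat_lit 0, nat_lit 0, nat_lit 0, nat_lit 0, [], [nat_lit 81, nat_lit 40, nat_lit 40, nat_lit 80, nat_lit 13, nat_lit 317, nat_lit 100, nat_lit 9]⟩, C1.Rw.none,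
 ⟨nat_lit 0, nat_lit 3163, ⟨.ofNat (nat_lit 309443), .ofNat (nat_lit 560951), .ofNat (nat_lit 351143), .ofNat (nat_lit 605128), .ofNat (nat_lit 342303), .ofNat (nat_lit 549998), .ofNat (nat_lit 389693), .ofNat (nat_lit 599865)⟩, ⟨.ofNat (nat_lit 184209), .ofNat (nat_lit 306113), .ofNat (nat_lit 200000), .ofNat (nat_lit 350425), .ofNat (nat_lit 199999), .ofNat (nat_lit 299996), .ofNat (nat_lit 200000), .ofNat (nat_lit 349998)⟩⟩, []⟩
noncomputable def p108_l5 : Lf2 := ⟨nat_lit 0, nat_lit 30, [nat_lit 15, nat_lit 5, nat_lit 5, nat_lit 20], true, nat_lit 160, nat_lit 248, nat_lit 0, nat_lit 384, ⟨nat_lit 0, nat_lit 0, nat_lit 1000, nat_lit 5, nat_lit 185, nat_lit 1000, nat_lit 155, nat_lit 1000, nat_lit 61175, nat_lit 275, nat_lit 417, nat_lit 210, nat_lit 46853347, nat_lit 0, nat_lit 0, nat_lit 4383527, false, false⟩,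
 nat_lit 0, nat_lit 0, nat_lit 0, nat_lit 8682, nat_lit 2754, nat_lit 0, nat_lit 0, nat_lit 0, nat_lit 0, nat_lit 0, nat_lit 0, nat_lit 0, nat_lit 0, nat_lit 0, nat_lit 100, nat_lit 234400, nat_lit 0, nat_lit 0, [(nat_lit 26, [(nat_lit 3, nat_lit 312), (nat_lit 4, nat_lit 688)]), (nat_lit 29, [(nat_lit 3, nat_lit 312), (nat_lit 4, nat_lit 688)])],
 ⟨p108_k2, nat_lit 0, nat_lit 0, nat_lit 156, nat_lit 0, nat_lit 0, [nat_lit 1291788800, nat_lit 632950401, nat_lit 670467200], [], [nat_lit 20051273968, nat_lit 22360276456, nat_lit 22511587336, nat_lit 24386032880, nat_lit 22175210152, nat_lit 24212150901, nat_lit 24225585093, nat_lit 26404287224], nat_lit 0, nat_lit 0, nat_lit 0, nat_lit 0, nat_lit 0, nat_lit 0, [], [nat_lit 81, nat_lit 40, nat_lit 40, nat_lit 80, nat_lit 13, nat_lit 345, nat_lit 125, nat_lit 9]⟩, C1.Rw.none,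
 ⟨nat_lit 0, nat_lit 3163, ⟨.ofNat (nat_lit 309443), .ofNat (nat_lit 560951), .ofNat (nat_lit 351143), .ofNat (nat_lit 605128), .ofNat (nat_lit 342303), .ofNat (nat_lit 549998), .ofNat (nat_lit 389693), .ofNat (nat_lit 599865)⟩, ⟨.ofNat (nat_lit 306113), .ofNat (nat_lit 440207), .ofNat (nat_lit 350425), .ofNat (nat_lit 484518), .ofNat (nat_lit 299996), .ofNat (nat_lit 409993), .ofNat (nat_lit 349998), .ofNat (nat_lit 459993)⟩⟩, [⟨nat_lit 4, nat_lit 100, nat_lit 44, nat_lit 87, nat_lit 421526701⟩]⟩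
noncomputable def p108_l6 : Lf2 := ⟨nat_lit 1, nat_lit 25, [nat_lit 44, nat_lit 5, nat_lit 5, nat_lit 20], false, nat_lit 8, nat_lit 160, nat_lit 0, nat_lit 376, zbN0,
 nat_lit 0, nat_lit 0, nat_lit 0, nat_lit 0, nat_lit 0, nat_lit 0, nat_lit 0, nat_lit 0, nat_lit 0, nat_lit 0, nat_lit 0, nat_lit 0, nat_lit 0, nat_lit 0, nat_lit 0, nat_lit 0, nat_lit 0, nat_lit 0, [],
 C1.Rw.none, C1.Rw.none,
 zbF0, []⟩
noncomputable def p108_l7 : Lf2 := ⟨nat_lit 1, nat_lit 30, [nat_lit 15, nat_lit 5, nat_lit 5, nat_lit 20], false, nat_lit 16, nat_lit 160, nat_lit 0, nat_lit 384, zbN0,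
 nat_lit 0, nat_lit 0, nat_lit 0, nat_lit 0, nat_lit 0, nat_lit 0, nat_lit 0, nat_lit 0, nat_lit 0, nat_lit 0, nat_lit 0, nat_lit 0, nat_lit 0, nat_lit 0, nat_lit 0, nat_lit 0, nat_lit 0, nat_lit 0, [],
 C1.Rw.none, C1.Rw.none,
 zbF0, []⟩
noncomputable def p108_l8 : Lf2 := ⟨nat_lit 1, nat_lit 30, [nat_lit 15, nat_lit 5, nat_lit 5, nat_lit 20], false, nat_lit 8, nat_lit 160, nat_lit 0, nat_lit 384, zbN0,
 nat_lit 0, nat_lit 0, nat_lit 0, nat_lit 0, nat_lit 0, nat_lit 0, nat_lit 0, nat_lit 0, nat_lit 0, nat_lit 0, nat_lit 0, nat_lit 0, nat_lit 0, nat_lit 0, nat_lit 0, nat_lit 0, nat_lit 0, nat_lit 0, [],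
 C1.Rw.none, C1.Rw.none,
 zbF0, []⟩
noncomputable def p108_l9 : Lf2 := ⟨nat_lit 0, nat_lit 25, [nat_lit 44, nat_lit 5, nat_lit 5, nat_lit 20], false, nat_lit 20, nat_lit 80, nat_lit 0, nat_lit 336, ⟨nat_lit 445, nat_lit 0, nat_lit 555, nat_lit 6, nat_lit 255, nat_lit 555, nat_lit 49, nat_lit 555, nat_lit 22817, nat_lit 252, nat_lit 173340, nat_lit 200, nat_lit 46369326, nat_lit 0, nat_lit 0, nat_lit 3611479, true, true⟩,
 nat_lit 0, nat_lit 0, nat_lit 11106, nat_lit 0, nat_lit 2496, nat_lit 4759, nat_lit 0, nat_lit 0, nat_lit 0, nat_lit 380, nat_lit 0, nat_lit 0, nat_lit 0, nat_lit 0, nat_lit 0, nat_lit 222000, nat_lit 0, nat_lit 0, [(nat_lit 29, [(nat_lit 5, nat_lit 555)])],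
 ⟨p108_k3, nat_lit 0, nat_lit 0, nat_lit 148, nat_lit 0, nat_lit 0, [nat_lit 746858000, nat_lit 515288001, nat_lit 388312000], [], [nat_lit 23975457601, nat_lit 24524979234, nat_lit 26913770389, nat_lit 27428840279, nat_lit 23608215601, nat_lit 24106880009, nat_lit 26390756952, nat_lit 26851942592], nat_lit 0, nat_lit 0, nat_lit 0, nat_lit 0, nat_lit 0, nat_lit 0, [], [nat_lit 20, nat_lit 40, nat_lit 40, nat_lit 80, nat_lit 16, nat_lit 226, nat_lit 20, nat_lit 7]⟩, ⟨p108_k4, nat_lit 0, nat_lit 0, nat_lit 430, nat_lit 0, nat_lit 95647, [nat_lit 2781250000, nat_lit 4379690000, nat_lit 7298000000], [], [nat_lit 19467847228, nat_lit 19361186064, nat_lit 20027395881, nat_lit 19816339895, nat_lit 15520257096, nat_lit 14877865339, nat_lit 15761786235, nat_lit 15667833920], nat_lit 1271250, nat_lit 1271250, nat_lit 1271250, nat_lit 1271250, nat_lit 0, nat_lit 2373000, [nat_lit 1412500, nat_lit 1271250, nat_lit 1271250],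 [nat_lit 118, nat_lit 40, nat_lit 40, nat_lit 80, nat_lit 73, nat_lit 456, nat_lit 225, nat_lit 10]⟩,
 ⟨nat_lit 1581, nat_lit 2237, ⟨.ofNat (nat_lit 557014), .ofNat (nat_lit 676747), .ofNat (nat_lit 602558), .ofNat (nat_lit 722295), .ofNat (nat_lit 554634), .ofNat (nat_lit 669369), .ofNat (nat_lit 601260), .ofNat (nat_lit 715999)⟩, ⟨.ofNat (nat_lit 50000), .ofNat (nat_lit 192306), .ofNat (nat_lit 50000), .ofNat (nat_lit 200000), .ofNat (nat_lit 50000), .ofNat (nat_lit 196201), .ofNat (nat_lit 50000), .ofNat (nat_lit 200000)⟩⟩, [⟨nat_lit 13, nat_lit 31, nat_lit 95, nat_lit 100, nat_lit 42685043⟩, ⟨nat_lit 3, nat_lit 100, nat_lit 36, nat_lit 77, nat_lit 25822101⟩, ⟨nat_lit 22, nat_lit 95, nat_lit 100, nat_lit 69, nat_lit 34494778⟩]⟩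
noncomputable def p108_l10 : Lf2 := ⟨nat_lit 0, nat_lit 25, [nat_lit 44, nat_lit 5, nat_lit 5, nat_lit 20], true, nat_lit 36, nat_lit 80, nat_lit 0, nat_lit 336, ⟨nat_lit 0, nat_lit 859, nat_lit 141, nat_lit 6, nat_lit 246, nat_lit 1000, nat_lit 58, nat_lit 141, nat_lit 30817, nat_lit 258, nat_lit 95182, nat_lit 200, nat_lit 46926504, nat_lit 18152047, nat_lit 1921449, nat_lit 3667576, true, true⟩,
 nat_lit 0, nat_lit 0, nat_lit 0, nat_lit 4681, nat_lit 2548, nat_lit 0, nat_lit 0, nat_lit 0, nat_lit 0, nat_lit 0, nat_lit 0, nat_lit 0, nat_lit 0, nat_lit 0, nat_lit 0, nat_lit 250000, nat_lit 0, nat_lit 0, [(nat_lit 29, [(nat_lit 0, nat_lit 859), (nat_lit 4, nat_lit 141)])],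
 ⟨p108_k5, nat_lit 0, nat_lit 0, nat_lit 124, nat_lit 0, nat_lit 0, [nat_lit 778780000, nat_lit 749674401, nat_lit 928584000], [], [nat_lit 24150900638, nat_lit 24713118935, nat_lit 26156430025, nat_lit 26803125302, nat_lit 23796332313, nat_lit 24340595249, nat_lit 25750131151, nat_lit 26238533785], nat_lit 0, nat_lit 0, nat_lit 0, nat_lit 0, nat_lit 0, nat_lit 0, [], [nat_lit 35, nat_lit 40, nat_lit 40, nat_lit 80, nat_lit 22, nat_lit 226, nat_lit 20, nat_lit 9]⟩, C1.Rw.none,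
 ⟨nat_lit 0, nat_lit 1582, ⟨.ofNat (nat_lit 554633), .ofNat (nat_lit 636584), .ofNat (nat_lit 601257), .ofNat (nat_lit 683216), .ofNat (nat_lit 549998), .ofNat (nat_lit 624995), .ofNat (nat_lit 599992), .ofNat (nat_lit 674997)⟩, ⟨.ofNat (nat_lit 90000), .ofNat (nat_lit 196201), .ofNat (nat_lit 90000), .ofNat (nat_lit 200000), .ofNat (nat_lit 90000), .ofNat (nat_lit 199999), .ofNat (nat_lit 90000), .ofNat (nat_lit 200000)⟩⟩, [⟨nat_lit 13, nat_lit 32, nat_lit 89, nat_lit 100, nat_lit 528299761⟩, ⟨nat_lit 3, nat_lit 100, nat_lit 39, nat_lit 72, nat_lit 373497909⟩]⟩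
noncomputable def p108_l11 : Lf2 := ⟨nat_lit 1, nat_lit 25, [nat_lit 44, nat_lit 5, nat_lit 5, nat_lit 20], false, nat_lit 20, nat_lit 80, nat_lit 0, nat_lit 336, zbN0,
 nat_lit 0, nat_lit 0, nat_lit 0, nat_lit 0, nat_lit 0, nat_lit 0, nat_lit 0, nat_lit 0, nat_lit 0, nat_lit 0, nat_lit 0, nat_lit 0, nat_lit 0, nat_lit 0, nat_lit 0, nat_lit 0, nat_lit 0, nat_lit 0, [],
 C1.Rw.none, C1.Rw.none,
 zbF0, []⟩
noncomputable def p108_l12 : Lf2 := ⟨nat_lit 1, nat_lit 30, [nat_lit 15, nat_lit 5, nat_lit 5, nat_lit 20], false, nat_lit 32, nat_lit 80, nat_lit 0, nat_lit 336, zbN0,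
 nat_lit 0, nat_lit 0, nat_lit 0, nat_lit 0, nat_lit 0, nat_lit 0, nat_lit 0, nat_lit 0, nat_lit 0, nat_lit 0, nat_lit 0, nat_lit 0, nat_lit 0, nat_lit 0, nat_lit 0, nat_lit 0, nat_lit 0, nat_lit 0, [],
 C1.Rw.none, C1.Rw.none,
 zbF0, []⟩
noncomputable def p108_l13 : Lf2 := ⟨nat_lit 0, nat_lit 30, [nat_lit 15, nat_lit 5, nat_lit 5, nat_lit 20], false, nat_lit 40, nat_lit 80, nat_lit 0, nat_lit 336, ⟨nat_lit 513, nat_lit 0, nat_lit 487, nat_lit 6, nat_lit 251, nat_lit 487, nat_lit 60, nat_lit 487, nat_lit 33750, nat_lit 260, nat_lit 133770, nat_lit 200, nat_lit 46327921, nat_lit 0, nat_lit 0, nat_lit 3731483, true, true⟩,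
 nat_lit 0, nat_lit 0, nat_lit 14662, nat_lit 0, nat_lit 2583, nat_lit 6283, nat_lit 137, nat_lit 0, nat_lit 0, nat_lit 276, nat_lit 0, nat_lit 0, nat_lit 0, nat_lit 0, nat_lit 0, nat_lit 121750, nat_lit 0, nat_lit 0, [(nat_lit 29, [(nat_lit 4, nat_lit 487)])],
 ⟨p108_k6, nat_lit 0, nat_lit 0, nat_lit 140, nat_lit 0, nat_lit 0, [nat_lit 852093200, nat_lit 1538668400, nat_lit 1929336000], [], [nat_lit 24122413783, nat_lit 24376169387, nat_lit 26420288858, nat_lit 26675744144, nat_lit 23791129387, nat_lit 24037725925, nat_lit 25985198694, nat_lit 26229558042], nat_lit 0, nat_lit 0, nat_lit 0, nat_lit 0, nat_lit 0, nat_lit 0, [], [nat_lit 55, nat_lit 40, nat_lit 40, nat_lit 80, nat_lit 3, nat_lit 226, nat_lit 20, nat_lit 7]⟩, ⟨p108_k7, nat_lit 0, nat_lit 0, nat_lit 438, nat_lit 0, nat_lit 104852, [nat_lit 3206250000, nat_lit 6090336000, nat_lit 8413200000], [], [nat_lit 23338222700, nat_lit 23380065324, nat_lit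 24309535804, nat_lit 24203239838, nat_lit 17774800127, nat_lit 17760505405, nat_lit 18636714235, nat_lit 18481146218], nat_lit 1271250, nat_lit 1271250, nat_lit 1271250, nat_lit 1271250, nat_lit 0, nat_lit 2373000, [nat_lit 1412500, nat_lit 1271250, nat_lit 1271250], [nat_lit 104, nat_lit 40, nat_lit 40, nat_lit 80, nat_lit 76, nat_lit 456, nat_lit 225, nat_lit 10]⟩,
 ⟨nat_lit 1581, nat_lit 1937, ⟨.ofNat (nat_lit 555888), .ofNat (nat_lit 656488), .ofNat (nat_lit 601908), .ofNat (nat_lit 702510), .ofNat (nat_lit 554634), .ofNat (nat_lit 652979), .ofNat (nat_lit 601263), .ofNat (nat_lit 699609)⟩, ⟨.ofNat (nat_lit 100000), .ofNat (nat_lit 200000), .ofNat (nat_lit 100000), .ofNat (nat_lit 200000), .ofNat (nat_lit 100000), .ofNat (nat_lit 200000), .ofNat (nat_lit 100000), .ofNat (nat_lit 200000)⟩⟩, [⟨nat_lit 3, nat_lit 100, nat_lit 39, nat_lit 76, nat_lit 50975575⟩, ⟨nat_lit 22, nat_lit 100, nat_lit 99, nat_lit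 77, nat_lit 15689453⟩]⟩
noncomputable def p108_l14 : Lf2 := ⟨nat_lit 1, nat_lit 30, [nat_lit 15, nat_lit 5, nat_lit 5, nat_lit 20], false, nat_lit 32, nat_lit 80, nat_lit 0, nat_lit 336, zbN0,
 nat_lit 0, nat_lit 0, nat_lit 0, nat_lit 0, nat_lit 0, nat_lit 0, nat_lit 0, nat_lit 0, nat_lit 0, nat_lit 0, nat_lit 0, nat_lit 0, nat_lit 0, nat_lit 0, nat_lit 0, nat_lit 0, nat_lit 0, nat_lit 0, [],
 C1.Rw.none, C1.Rw.none,
 zbF0, []⟩
noncomputable def p108_l15 : Lf2 := ⟨nat_lit 0, nat_lit 30, [nat_lit 15, nat_lit 5, nat_lit 5, nat_lit 20], true, nat_lit 48, nat_lit 80, nat_lit 0, nat_lit 336, ⟨nat_lit 0, nat_lit 623, nat_lit 377, nat_lit 6, nat_lit 241, nat_lit 1000, nat_lit 64, nat_lit 377, nat_lit 38400, nat_lit 263, nat_lit 40548, nat_lit 200, nat_lit 47189406, nat_lit 17564477, nat_lit 2246117, nat_lit 3715317, true, true⟩,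
 nat_lit 0, nat_lit 0, nat_lit 0, nat_lit 5256, nat_lit 2608, nat_lit 0, nat_lit 0, nat_lit 0, nat_lit 0, nat_lit 0, nat_lit 0, nat_lit 0, nat_lit 0, nat_lit 0, nat_lit 0, nat_lit 250000, nat_lit 0, nat_lit 0, [(nat_lit 29, [(nat_lit 0, nat_lit 623), (nat_lit 4, nat_lit 377)])],
 ⟨p108_k8, nat_lit 0, nat_lit 0, nat_lit 133, nat_lit 0, nat_lit 0, [nat_lit 774060000, nat_lit 186889601, nat_lit 124433200], [], [nat_lit 23880730051, nat_lit 24435172061, nat_lit 25152093535, nat_lit 25830269722, nat_lit 23602843001, nat_lit 24100123280, nat_lit 24809681016, nat_lit 25331641168], nat_lit 0, nat_lit 0, nat_lit 0, nat_lit 0, nat_lit 0, nat_lit 0, [], [nat_lit 55, nat_lit 40, nat_lit 40, nat_lit 80, nat_lit 3, nat_lit 226, nat_lit 20, nat_lit 7]⟩, C1.Rw.none,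
 ⟨nat_lit 0, nat_lit 1582, ⟨.ofNat (nat_lit 554633), .ofNat (nat_lit 609267), .ofNat (nat_lit 601257), .ofNat (nat_lit 655899), .ofNat (nat_lit 549998), .ofNat (nat_lit 599996), .ofNat (nat_lit 599992), .ofNat (nat_lit 649998)⟩, ⟨.ofNat (nat_lit 120000), .ofNat (nat_lit 200000), .ofNat (nat_lit 120000), .ofNat (nat_lit 200000), .ofNat (nat_lit 120000), .ofNat (nat_lit 200000), .ofNat (nat_lit 120000), .ofNat (nat_lit 200000)⟩⟩, [⟨nat_lit 3, nat_lit 100, nat_lit 25, nat_lit 86, nat_lit 106571481⟩, ⟨nat_lit 3, nat_lit 100, nat_lit 36, nat_lit 77, nat_lit 397080120⟩]⟩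
noncomputable def p108_l16 : Lf2 := ⟨nat_lit 0, nat_lit 30, [nat_lit 15, nat_lit 5, nat_lit 5, nat_lit 20], false, nat_lit 48, nat_lit 80, nat_lit 0, nat_lit 300, ⟨nat_lit 203, nat_lit 263, nat_lit 534, nat_lit 7, nat_lit 258, nat_lit 797, nat_lit 64, nat_lit 533, nat_lit 38400, nat_lit 263, nat_lit 95186, nat_lit 200, nat_lit 45490410, nat_lit 19299649, nat_lit 2209941, nat_lit 3827742, true, true⟩,
 nat_lit 0, nat_lit 0, nat_lit 4811, nat_lit 0, nat_lit 2636, nat_lit 2061, nat_lit 0, nat_lit 0, nat_lit 0, nat_lit 198, nat_lit 0, nat_lit 0, nat_lit 0, nat_lit 0, nat_lit 0, nat_lit 199250, nat_lit 0, nat_lit 0, [(nat_lit 29, [(nat_lit 0, nat_lit 263), (nat_lit 4, nat_lit 534)])],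
 ⟨p108_k9, nat_lit 0, nat_lit 0, nat_lit 130, nat_lit 0, nat_lit 0, [nat_lit 802669201, nat_lit 400437601, nat_lit 338425200], [], [nat_lit 25406511458, nat_lit 25674503044, nat_lit 26132421631, nat_lit 26412460869, nat_lit 25056526574, nat_lit 25318605216, nat_lit 25770005370, nat_lit 26022176490], nat_lit 0, nat_lit 0, nat_lit 0, nat_lit 0, nat_lit 0, nat_lit 0, [], [nat_lit 20, nat_lit 40, nat_lit 40, nat_lit 80, nat_lit 16, nat_lit 226, nat_lit 20, nat_lit 7]⟩, ⟨p108_k4, nat_lit 0, nat_lit 0, nat_lit 480, nat_lit 0, nat_lit 246369, [nat_lit 1268750000, nat_lit 1997926000, nat_lit 3329200000], [], [nat_lit 8402110004, nat_lit 8342600640, nat_lit 8482449114, nat_lit 8410915332, nat_lit 6442349267, nat_lit 6407014410, nat_lit 6517435842, nat_lit 6529477405], nat_lit 1271250, nat_lit 1271250, nat_lit 1271250, nat_lit 1271250, nat_lit 0, nat_lit 2118750, [nat_lit 1412500, nat_lit 1271250, nat_lit 1271250],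 [nat_lit 118, nat_lit 40, nat_lit 40, nat_lit 80, nat_lit 73, nat_lit 456, nat_lit 225, nat_lit 9]⟩,
 ⟨nat_lit 1118, nat_lit 1582, ⟨.ofNat (nat_lit 609270), .ofNat (nat_lit 636588), .ofNat (nat_lit 655900), .ofNat (nat_lit 683218), .ofNat (nat_lit 606253), .ofNat (nat_lit 632816), .ofNat (nat_lit 653755), .ofNat (nat_lit 680318)⟩, ⟨.ofNat (nat_lit 120000), .ofNat (nat_lit 200000), .ofNat (nat_lit 120000), .ofNat (nat_lit 200000), .ofNat (nat_lit 120000), .ofNat (nat_lit 200000), .ofNat (nat_lit 120000), .ofNat (nat_lit 200000)⟩⟩, [⟨nat_lit 13, nat_lit 27, nat_lit 94, nat_lit 100, nat_lit 587260388⟩, ⟨nat_lit 3, nat_lit 100, nat_lit 30, nat_lit 83, nat_lit 399647484⟩, ⟨nat_lit 22, nat_lit 95, nat_lit 100, nat_lit 78, nat_lit 5708000⟩]⟩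
noncomputable def p108_l17 : Lf2 := ⟨nat_lit 0, nat_lit 30, [nat_lit 15, nat_lit 5, nat_lit 5, nat_lit 20], true, nat_lit 64, nat_lit 80, nat_lit 0, nat_lit 300, ⟨nat_lit 0, nat_lit 651, nat_lit 349, nat_lit 7, nat_lit 252, nat_lit 1000, nat_lit 72, nat_lit 349, nat_lit 48600, nat_lit 269, nat_lit 46882, nat_lit 200, nat_lit 45728307, nat_lit 18623780, nat_lit 2647913, nat_lit 3898148, true, true⟩,
 nat_lit 0, nat_lit 0, nat_lit 0, nat_lit 3551, nat_lit 2722, nat_lit 0, nat_lit 0, nat_lit 0, nat_lit 0, nat_lit 0, nat_lit 0, nat_lit 0, nat_lit 0, nat_lit 0, nat_lit 0, nat_lit 250000, nat_lit 0, nat_lit 0, [(nat_lit 29, [(nat_lit 0, nat_lit 651), (nat_lit 4, nat_lit 349)])],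
 ⟨p108_k10, nat_lit 0, nat_lit 0, nat_lit 120, nat_lit 0, nat_lit 0, [nat_lit 774620001, nat_lit 327432267, nat_lit 247868400], [], [nat_lit 25352111616, nat_lit 25694430276, nat_lit 25526225108, nat_lit 25865559209, nat_lit 25100489305, nat_lit 25372858768, nat_lit 25242298925, nat_lit 25516608214], nat_lit 0, nat_lit 0, nat_lit 0, nat_lit 0, nat_lit 0, nat_lit 0, [], [nat_lit 20, nat_lit 40, nat_lit 40, nat_lit 80, nat_lit 16, nat_lit 226, nat_lit 20, nat_lit 7]⟩, C1.Rw.none,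
 ⟨nat_lit 0, nat_lit 1119, ⟨.ofNat (nat_lit 606249), .ofNat (nat_lit 611561), .ofNat (nat_lit 653753), .ofNat (nat_lit 659066), .ofNat (nat_lit 599995), .ofNat (nat_lit 604995), .ofNat (nat_lit 649997), .ofNat (nat_lit 654998)⟩, ⟨.ofNat (nat_lit 160000), .ofNat (nat_lit 200000), .ofNat (nat_lit 160000), .ofNat (nat_lit 200000), .ofNat (nat_lit 160000), .ofNat (nat_lit 200000), .ofNat (nat_lit 160000), .ofNat (nat_lit 200000)⟩⟩, [⟨nat_lit 13, nat_lit 23, nat_lit 93, nat_lit 100, nat_lit 904615490⟩, ⟨nat_lit 3, nat_lit 100, nat_lit 26, nat_lit 85, nat_lit 782352305⟩]⟩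
noncomputable def p108_l18 : Lf2 := ⟨nat_lit 1, nat_lit 30, [nat_lit 15, nat_lit 5, nat_lit 5, nat_lit 20], false, nat_lit 32, nat_lit 80, nat_lit 0, nat_lit 336, zbN0,
 nat_lit 0, nat_lit 0, nat_lit 0, nat_lit 0, nat_lit 0, nat_lit 0, nat_lit 0, nat_lit 0, nat_lit 0, nat_lit 0, nat_lit 0, nat_lit 0, nat_lit 0, nat_lit 0, nat_lit 0, nat_lit 0, nat_lit 0, nat_lit 0, [],
 C1.Rw.none, C1.Rw.none,
 zbF0, []⟩
noncomputable def p108_l19 : Lf2 := ⟨nat_lit 0, nat_lit 25, [nat_lit 44, nat_lit 5, nat_lit 5, nat_lit 20], true, nat_lit 80, nat_lit 160, nat_lit 0, nat_lit 376, ⟨nat_lit 0, nat_lit 746, nat_lit 254, nat_lit 6, nat_lit 253, nat_lit 1000, nat_lit 103, nat_lit 254, nat_lit 98817, nat_lit 292, nat_lit 173334, nat_lit 200, nat_lit 44109784, nat_lit 18430854, nat_lit 4459362, nat_lit 4296601, true, true⟩,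
 nat_lit 0, nat_lit 0, nat_lit 0, nat_lit 8551, nat_lit 3006, nat_lit 0, nat_lit 0, nat_lit 0, nat_lit 0, nat_lit 0, nat_lit 0, nat_lit 0, nat_lit 0, nat_lit 0, nat_lit 0, nat_lit 236030, nat_lit 0, nat_lit 0, [(nat_lit 29, [(nat_lit 0, nat_lit 746), (nat_lit 3, nat_lit 254)])],
 ⟨p108_k11, nat_lit 0, nat_lit 0, nat_lit 120, nat_lit 0, nat_lit 0, [nat_lit 874056000, nat_lit 683284801, nat_lit 824146400], [], [nat_lit 23453663656, nat_lit 24700639008, nat_lit 26573420775, nat_lit 27721797748, nat_lit 24017092288, nat_lit 25151584056, nat_lit 26880386903, nat_lit 27843817478], nat_lit 0, nat_lit 0, nat_lit 0, nat_lit 0, nat_lit 0, nat_lit 0, [], [nat_lit 55, nat_lit 40, nat_lit 40, nat_lit 80, nat_lit 3, nat_lit 249, nat_lit 40, nat_lit 8]⟩, C1.Rw.none,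
 ⟨nat_lit 0, nat_lit 2237, ⟨.ofNat (nat_lit 557013), .ofNat (nat_lit 676741), .ofNat (nat_lit 602531), .ofNat (nat_lit 722292), .ofNat (nat_lit 549998), .ofNat (nat_lit 654993), .ofNat (nat_lit 599967), .ofNat (nat_lit 704996)⟩, ⟨.ofNat (nat_lit 192306), .ofNat (nat_lit 306334), .ofNat (nat_lit 200000), .ofNat (nat_lit 329109), .ofNat (nat_lit 199999), .ofNat (nat_lit 299996), .ofNat (nat_lit 200000), .ofNat (nat_lit 324996)⟩⟩, [⟨nat_lit 13, nat_lit 31, nat_lit 92, nat_lit 100, nat_lit 575633292⟩, ⟨nat_lit 4, nat_lit 100, nat_lit 32, nat_lit 87, nat_lit 58591491⟩]⟩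
noncomputable def p108_l20 : Lf2 := ⟨nat_lit 0, nat_lit 30, [nat_lit 15, nat_lit 5, nat_lit 5, nat_lit 20], true, nat_lit 80, nat_lit 160, nat_lit 0, nat_lit 384, ⟨nat_lit 0, nat_lit 348, nat_lit 652, nat_lit 6, nat_lit 243, nat_lit 1000, nat_lit 108, nat_lit 652, nat_lit 109350, nat_lit 296, nat_lit 47906, nat_lit 200, nat_lit 44817485, nat_lit 17315820, nat_lit 4866695, nat_lit 4298185, true, true⟩,
 nat_lit 0, nat_lit 0, nat_lit 0, nat_lit 9878, nat_lit 2494, nat_lit 0, nat_lit 0, nat_lit 0, nat_lit 0, nat_lit 0, nat_lit 0, nat_lit 0, nat_lit 0, nat_lit 0, nat_lit 59, nat_lit 250000, nat_lit 0, nat_lit 0, [(nat_lit 29, [(nat_lit 0, nat_lit 348), (nat_lit 4, nat_lit 652)])],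
 ⟨p108_k1, nat_lit 0, nat_lit 0, nat_lit 124, nat_lit 0, nat_lit 0, [nat_lit 1004560001, nat_lit 311174401, nat_lit 125265600], [], [nat_lit 22548713533, nat_lit 23077271255, nat_lit 23781740197, nat_lit 24324684708, nat_lit 23249625429, nat_lit 23733585443, nat_lit 24388525189, nat_lit 24892412317], nat_lit 0, nat_lit 0, nat_lit 0, nat_lit 0, nat_lit 0, nat_lit 0, [], [nat_lit 57, nat_lit 40, nat_lit 40, nat_lit 80, nat_lit 7, nat_lit 249, nat_lit 40, nat_lit 7]⟩, C1.Rw.none,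
 ⟨nat_lit 1581, nat_lit 2237, ⟨.ofNat (nat_lit 557014), .ofNat (nat_lit 614030), .ofNat (nat_lit 602558), .ofNat (nat_lit 659578), .ofNat (nat_lit 554634), .ofNat (nat_lit 609270), .ofNat (nat_lit 601260), .ofNat (nat_lit 655900)⟩, ⟨.ofNat (nat_lit 200000), .ofNat (nat_lit 329112), .ofNat (nat_lit 200000), .ofNat (nat_lit 351886), .ofNat (nat_lit 200000), .ofNat (nat_lit 328788), .ofNat (nat_lit 200000), .ofNat (nat_lit 352103)⟩⟩, []⟩
noncomputable def p108_l21 : Lf2 := ⟨nat_lit 0, nat_lit 30, [nat_lit 15, nat_lit 5, nat_lit 5, nat_lit 20], true, nat_lit 80, nat_lit 160, nat_lit 0, nat_lit 384, ⟨nat_lit 0, nat_lit 502, nat_lit 498, nat_lit 6, nat_lit 241, nat_lit 1000, nat_lit 108, nat_lit 498, nat_lit 109350, nat_lit 296, nat_lit 40548, nat_lit 200, nat_lit 44987959, nat_lit 17156788, nat_lit 4855253, nat_lit 4284009, true, true⟩,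
 nat_lit 0, nat_lit 0, nat_lit 0, nat_lit 6892, nat_lit 2370, nat_lit 0, nat_lit 0, nat_lit 0, nat_lit 0, nat_lit 0, nat_lit 0, nat_lit 0, nat_lit 0, nat_lit 0, nat_lit 21, nat_lit 250000, nat_lit 0, nat_lit 0, [(nat_lit 29, [(nat_lit 0, nat_lit 502), (nat_lit 4, nat_lit 498)])],
 ⟨p108_k8, nat_lit 0, nat_lit 0, nat_lit 110, nat_lit 0, nat_lit 0, [nat_lit 855640001, nat_lit 141110401, nat_lit 11016800], [], [nat_lit 23003195441, nat_lit 23555355121, nat_lit 24269089491, nat_lit 24784385643, nat_lit 23776985161, nat_lit 24281991761, nat_lit 24964082473, nat_lit 25513643883], nat_lit 0, nat_lit 0, nat_lit 0, nat_lit 0, nat_lit 0, nat_lit 0, [], [nat_lit 55, nat_lit 40, nat_lit 40, nat_lit 80, nat_lit 3, nat_lit 249, nat_lit 40, nat_lit 8]⟩, C1.Rw.none,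
 ⟨nat_lit 0, nat_lit 1582, ⟨.ofNat (nat_lit 554633), .ofNat (nat_lit 609267), .ofNat (nat_lit 601257), .ofNat (nat_lit 655899), .ofNat (nat_lit 549998), .ofNat (nat_lit 599996), .ofNat (nat_lit 599992), .ofNat (nat_lit 649998)⟩, ⟨.ofNat (nat_lit 200000), .ofNat (nat_lit 328785), .ofNat (nat_lit 200000), .ofNat (nat_lit 352101), .ofNat (nat_lit 200000), .ofNat (nat_lit 324996), .ofNat (nat_lit 200000), .ofNat (nat_lit 349997)⟩⟩, [⟨nat_lit 13, nat_lit 22, nat_lit 95, nat_lit 100, nat_lit 407205453⟩]⟩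
noncomputable def p108_l22 : Lf2 := ⟨nat_lit 1, nat_lit 30, [nat_lit 15, nat_lit 5, nat_lit 5, nat_lit 20], false, nat_lit 80, nat_lit 160, nat_lit 0, nat_lit 364, zbN0,
 nat_lit 0, nat_lit 0, nat_lit 0, nat_lit 0, nat_lit 0, nat_lit 0, nat_lit 0, nat_lit 0, nat_lit 0, nat_lit 0, nat_lit 0, nat_lit 0, nat_lit 0, nat_lit 0, nat_lit 0, nat_lit 0, nat_lit 0, nat_lit 0, [],
 C1.Rw.none, C1.Rw.none,
 zbF0, []⟩
noncomputable def p108_l23 : Lf2 := ⟨nat_lit 0, nat_lit 30, [nat_lit 15, nat_lit 5, nat_lit 5, nat_lit 20], true, nat_lit 80, nat_lit 160, nat_lit 0, nat_lit 364, ⟨nat_lit 0, nat_lit 649, nat_lit 351, nat_lit 7, nat_lit 262, nat_lit 1000, nat_lit 108, nat_lit 351, nat_lit 109350, nat_lit 296, nat_lit 133770, nat_lit 200, nat_lit 43010691, nat_lit 19228095, nat_lit 4761214, nat_lit 4408960, true, true⟩,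
 nat_lit 0, nat_lit 0, nat_lit 0, nat_lit 10639, nat_lit 2674, nat_lit 0, nat_lit 0, nat_lit 0, nat_lit 0, nat_lit 0, nat_lit 0, nat_lit 0, nat_lit 0, nat_lit 0, nat_lit 0, nat_lit 250000, nat_lit 0, nat_lit 0, [(nat_lit 29, [(nat_lit 0, nat_lit 649), (nat_lit 4, nat_lit 351)])],
 ⟨p108_k6, nat_lit 0, nat_lit 0, nat_lit 112, nat_lit 0, nat_lit 0, [nat_lit 774580001, nat_lit 268924801, nat_lit 239051600], [], [nat_lit 24532246782, nat_lit 24807218340, nat_lit 25729046799, nat_lit 25986804739, nat_lit 25114733167, nat_lit 25361172429, nat_lit 26201491011, nat_lit 26433291705], nat_lit 0, nat_lit 0, nat_lit 0, nat_lit 0, nat_lit 0, nat_lit 0, [], [nat_lit 55, nat_lit 40, nat_lit 40, nat_lit 80, nat_lit 3, nat_lit 249, nat_lit 40, nat_lit 8]⟩, C1.Rw.none,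
 ⟨nat_lit 1581, nat_lit 1937, ⟨.ofNat (nat_lit 611777), .ofNat (nat_lit 656488), .ofNat (nat_lit 657798), .ofNat (nat_lit 702510), .ofNat (nat_lit 609270), .ofNat (nat_lit 652979), .ofNat (nat_lit 655900), .ofNat (nat_lit 699609)⟩, ⟨.ofNat (nat_lit 200000), .ofNat (nat_lit 329055), .ofNat (nat_lit 200000), .ofNat (nat_lit 352066), .ofNat (nat_lit 200000), .ofNat (nat_lit 328788), .ofNat (nat_lit 200000), .ofNat (nat_lit 352103)⟩⟩, [⟨nat_lit 13, nat_lit 35, nat_lit 90, nat_lit 100, nat_lit 561510075⟩]⟩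
noncomputable def p108_l24 : Lf2 := ⟨nat_lit 1, nat_lit 30, [nat_lit 15, nat_lit 5, nat_lit 5, nat_lit 20], false, nat_lit 80, nat_lit 160, nat_lit 0, nat_lit 364, zbN0,
 nat_lit 0, nat_lit 0, nat_lit 0, nat_lit 0, nat_lit 0, nat_lit 0, nat_lit 0, nat_lit 0, nat_lit 0, nat_lit 0, nat_lit 0, nat_lit 0, nat_lit 0, nat_lit 0, nat_lit 0, nat_lit 0, nat_lit 0, nat_lit 0, [],
 C1.Rw.none, C1.Rw.none,
 zbF0, []⟩
noncomputable def p108_l25 : Lf2 := ⟨nat_lit 0, nat_lit 30, [nat_lit 15, nat_lit 5, nat_lit 5, nat_lit 20], true, nat_lit 80, nat_lit 160, nat_lit 0, nat_lit 364, ⟨nat_lit 0, nat_lit 634, nat_lit 366, nat_lit 7, nat_lit 257, nat_lit 1000, nat_lit 108, nat_lit 366, nat_lit 109350, nat_lit 296, nat_lit 95182, nat_lit 200, nat_lit 43537060, nat_lit 18690274, nat_lit 4772666, nat_lit 4376472, true, true⟩,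
 nat_lit 0, nat_lit 0, nat_lit 0, nat_lit 9353, nat_lit 2622, nat_lit 0, nat_lit 0, nat_lit 0, nat_lit 0, nat_lit 0, nat_lit 0, nat_lit 0, nat_lit 0, nat_lit 0, nat_lit 0, nat_lit 250000, nat_lit 0, nat_lit 0, [(nat_lit 29, [(nat_lit 0, nat_lit 634), (nat_lit 4, nat_lit 366)])],
 ⟨p108_k8, nat_lit 0, nat_lit 0, nat_lit 115, nat_lit 0, nat_lit 0, [nat_lit 774280001, nat_lit 221596801, nat_lit 172925600], [], [nat_lit 24748084815, nat_lit 25283581568, nat_lit 25471724294, nat_lit 26019070404, nat_lit 25335435285, nat_lit 25824672457, nat_lit 26002628226, nat_lit 26473803865], nat_lit 0, nat_lit 0, nat_lit 0, nat_lit 0, nat_lit 0, nat_lit 0, [], [nat_lit 55, nat_lit 40, nat_lit 40, nat_lit 80, nat_lit 3, nat_lit 249, nat_lit 40, nat_lit 8]⟩, C1.Rw.none,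
 ⟨nat_lit 0, nat_lit 1582, ⟨.ofNat (nat_lit 609267), .ofNat (nat_lit 636584), .ofNat (nat_lit 655899), .ofNat (nat_lit 683216), .ofNat (nat_lit 599996), .ofNat (nat_lit 624995), .ofNat (nat_lit 649998), .ofNat (nat_lit 674997)⟩, ⟨.ofNat (nat_lit 200000), .ofNat (nat_lit 328785), .ofNat (nat_lit 200000), .ofNat (nat_lit 352101), .ofNat (nat_lit 200000), .ofNat (nat_lit 324996), .ofNat (nat_lit 200000), .ofNat (nat_lit 349997)⟩⟩, [⟨nat_lit 13, nat_lit 32, nat_lit 89, nat_lit 100, nat_lit 649828109⟩]⟩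
noncomputable def p108_l26 : Lf2 := ⟨nat_lit 1, nat_lit 30, [nat_lit 15, nat_lit 5, nat_lit 5, nat_lit 20], false, nat_lit 80, nat_lit 160, nat_lit 0, nat_lit 384, zbN0,
 nat_lit 0, nat_lit 0, nat_lit 0, nat_lit 0, nat_lit 0, nat_lit 0, nat_lit 0, nat_lit 0, nat_lit 0, nat_lit 0, nat_lit 0, nat_lit 0, nat_lit 0, nat_lit 0, nat_lit 0, nat_lit 0, nat_lit 0, nat_lit 0, [],
 C1.Rw.none, C1.Rw.none,
 zbF0, []⟩
noncomputable def p108_l27 : Lf2 := ⟨nat_lit 1, nat_lit 25, [nat_lit 44, nat_lit 5, nat_lit 5, nat_lit 20], false, nat_lit 160, nat_lit 224, nat_lit 0, nat_lit 376, zbN0,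
 nat_lit 0, nat_lit 0, nat_lit 0, nat_lit 0, nat_lit 0, nat_lit 0, nat_lit 0, nat_lit 0, nat_lit 0, nat_lit 0, nat_lit 0, nat_lit 0, nat_lit 0, nat_lit 0, nat_lit 0, nat_lit 0, nat_lit 0, nat_lit 0, [],
 C1.Rw.none, C1.Rw.none,
 zbF0, []⟩
noncomputable def p108_l28 : Lf2 := ⟨nat_lit 1, nat_lit 30, [nat_lit 15, nat_lit 5, nat_lit 5, nat_lit 20], false, nat_lit 160, nat_lit 248, nat_lit 0, nat_lit 384, zbN0,
 nat_lit 0, nat_lit 0, nat_lit 0, nat_lit 0, nat_lit 0, nat_lit 0, nat_lit 0, nat_lit 0, nat_lit 0, nat_lit 0, nat_lit 0, nat_lit 0, nat_lit 0, nat_lit 0, nat_lit 0, nat_lit 0, nat_lit 0, nat_lit 0, [],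
 C1.Rw.none, C1.Rw.none,
 zbF0, []⟩
noncomputable def p108_l29 : Lf2 := ⟨nat_lit 1, nat_lit 30, [nat_lit 15, nat_lit 5, nat_lit 5, nat_lit 20], false, nat_lit 160, nat_lit 248, nat_lit 0, nat_lit 384, zbN0,
 nat_lit 0, nat_lit 0, nat_lit 0, nat_lit 0, nat_lit 0, nat_lit 0, nat_lit 0, nat_lit 0, nat_lit 0, nat_lit 0, nat_lit 0, nat_lit 0, nat_lit 0, nat_lit 0, nat_lit 0, nat_lit 0, nat_lit 0, nat_lit 0, [],
 C1.Rw.none, C1.Rw.none,
 zbF0, []⟩
noncomputable def p108_l30 : Lf2 := ⟨nat_lit 0, nat_lit 30, [nat_lit 15, nat_lit 5, nat_lit 5, nat_lit 20], true, nat_lit 160, nat_lit 208, nat_lit 0, nat_lit 384, ⟨nat_lit 0, nat_lit 1000, nat_lit 0, nat_lit 6, nat_lit 255, nat_lit 1000, nat_lit 145, nat_lit 0, nat_lit 0, nat_lit 0, nat_lit 0, nat_lit 0, nat_lit 41675709, nat_lit 17984046, nat_lit 7340245, nat_lit 4771207, true, true⟩,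
 nat_lit 0, nat_lit 0, nat_lit 0, nat_lit 7920, nat_lit 3229, nat_lit 0, nat_lit 0, nat_lit 0, nat_lit 0, nat_lit 0, nat_lit 0, nat_lit 0, nat_lit 0, nat_lit 0, nat_lit 0, nat_lit 250000, nat_lit 0, nat_lit 0, [(nat_lit 29, [(nat_lit 0, nat_lit 1000)])],
 ⟨p108_k1, nat_lit 0, nat_lit 0, nat_lit 74, nat_lit 0, nat_lit 0, [nat_lit 781600001, nat_lit 1553200001, nat_lit 2175066667], [], [nat_lit 23895472075, nat_lit 24517028488, nat_lit 26985363500, nat_lit 27523736982, nat_lit 24936379345, nat_lit 25513558810, nat_lit 27801415105, nat_lit 28361525057], nat_lit 0, nat_lit 0, nat_lit 0, nat_lit 0, nat_lit 0, nat_lit 0, [], [nat_lit 57, nat_lit 40, nat_lit 40, nat_lit 80, nat_lit 7, nat_lit 272, nat_lit 60, nat_lit 7]⟩, C1.Rw.none,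
 ⟨nat_lit 1581, nat_lit 2237, ⟨.ofNat (nat_lit 557014), .ofNat (nat_lit 676747), .ofNat (nat_lit 602558), .ofNat (nat_lit 722295), .ofNat (nat_lit 554634), .ofNat (nat_lit 669369), .ofNat (nat_lit 601260), .ofNat (nat_lit 715999)⟩, ⟨.ofNat (nat_lit 306337), .ofNat (nat_lit 374756), .ofNat (nat_lit 351886), .ofNat (nat_lit 420305), .ofNat (nat_lit 305473), .ofNat (nat_lit 371036), .ofNat (nat_lit 352103), .ofNat (nat_lit 417666)⟩⟩, [⟨nat_lit 13, nat_lit 44, nat_lit 81, nat_lit 100, nat_lit 375777109⟩, ⟨nat_lit 16, nat_lit 38, nat_lit 100, nat_lit 87, nat_lit 272645783⟩]⟩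
noncomputable def p108_l31 : Lf2 := ⟨nat_lit 0, nat_lit 30, [nat_lit 15, nat_lit 5, nat_lit 5, nat_lit 20], true, nat_lit 160, nat_lit 184, nat_lit 0, nat_lit 384, ⟨nat_lit 0, nat_lit 1000, nat_lit 0, nat_lit 6, nat_lit 246, nat_lit 1000, nat_lit 137, nat_lit 0, nat_lit 0, nat_lit 0, nat_lit 0, nat_lit 0, nat_lit 42870854, nat_lit 17288035, nat_lit 6841111, nat_lit 4644942, true, true⟩,
 nat_lit 0, nat_lit 0, nat_lit 0, nat_lit 7882, nat_lit 3149, nat_lit 0, nat_lit 0, nat_lit 0, nat_lit 0, nat_lit 0, nat_lit 0, nat_lit 0, nat_lit 0, nat_lit 0, nat_lit 0, nat_lit 250000, nat_lit 0, nat_lit 0, [(nat_lit 29, [(nat_lit 0, nat_lit 1000)])],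
 ⟨p108_k8, nat_lit 0, nat_lit 0, nat_lit 74, nat_lit 0, nat_lit 0, [nat_lit 781600001, nat_lit 1376400001, nat_lit 1786400000], [], [nat_lit 24366372248, nat_lit 24980816901, nat_lit 26427720662, nat_lit 27024345184, nat_lit 24866169545, nat_lit 25458807060, nat_lit 26852919185, nat_lit 27460827866], nat_lit 0, nat_lit 0, nat_lit 0, nat_lit 0, nat_lit 0, nat_lit 0, [], [nat_lit 55, nat_lit 40, nat_lit 40, nat_lit 80, nat_lit 3, nat_lit 260, nat_lit 50, nat_lit 8]⟩, C1.Rw.none,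
 ⟨nat_lit 0, nat_lit 1582, ⟨.ofNat (nat_lit 554633), .ofNat (nat_lit 636584), .ofNat (nat_lit 601257), .ofNat (nat_lit 683216), .ofNat (nat_lit 549998), .ofNat (nat_lit 624995), .ofNat (nat_lit 599992), .ofNat (nat_lit 674997)⟩, ⟨.ofNat (nat_lit 305469), .ofNat (nat_lit 338250), .ofNat (nat_lit 352101), .ofNat (nat_lit 384882), .ofNat (nat_lit 299995), .ofNat (nat_lit 329995), .ofNat (nat_lit 349997), .ofNat (nat_lit 379997)⟩⟩, [⟨nat_lit 13, nat_lit 32, nat_lit 89, nat_lit 100, nat_lit 527370221⟩, ⟨nat_lit 16, nat_lit 31, nat_lit 100, nat_lit 92, nat_lit 382058276⟩]⟩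
noncomputable def b_V_900_500_20_29 : St := ⟨true, nat_lit 0, nat_lit 1, nat_lit 1, nat_lit 120, nat_lit 360, nat_lit 400, nat_lit 200, nat_lit 240, nat_lit 80, nat_lit 352, nat_lit 80, nat_lit 120, nat_lit 8, nat_lit 248, nat_lit 0, nat_lit 384, nat_lit 120, nat_lit 148, nat_lit 0, nat_lit 0, nat_lit 0, nat_lit 0⟩
theorem d_V_900_500_20_29 (h : EB TB.env) : Dead b_V_900_500_20_29 := chkB_sound0 h (T :=
(.spl (nat_lit 2) (nat_lit 240)
(.spl (nat_lit 4) (nat_lit 160)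
(.spl (nat_lit 4) (nat_lit 80)
(.spl (nat_lit 0) (nat_lit 380)
(.spl (nat_lit 6) (nat_lit 128)
(.spl (nat_lit 0) (nat_lit 370)
(.leaf p108_l0)
(.trZ (nat_lit 0) (nat_lit 100) (nat_lit 53) (nat_lit 85) (nat_lit 92) (.trZ (nat_lit 3) (nat_lit 100) (nat_lit 66) (nat_lit 45) (nat_lit 12) (.leaf p108_l1))))
(.leaf p108_l2))
(.trZ (nat_lit 0) (nat_lit 100) (nat_lit 44) (nat_lit 90) (nat_lit 112) (.trZ (nat_lit 3) (nat_lit 100) (nat_lit 54) (nat_lit 57) (nat_lit 20) (.leaf p108_l3))))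
(.leaf p108_l4))
(.leaf p108_l5))
(.spl (nat_lit 4) (nat_lit 160)
(.spl (nat_lit 0) (nat_lit 380)
(.spl (nat_lit 6) (nat_lit 128)
(.spl (nat_lit 3) (nat_lit 100)
(.trX (nat_lit 19) (nat_lit 100) (nat_lit 50) (nat_lit 87) (nat_lit 376) (.leaf p108_l6))
(.trZ (nat_lit 3) (nat_lit 100) (nat_lit 69) (nat_lit 45) (nat_lit 16) (.leaf p108_l7)))
(.leaf p108_l8))
(.trX (nat_lit 13) (nat_lit 44) (nat_lit 81) (nat_lit 100) (nat_lit 324) (.trZ (nat_lit 3) (nat_lit 100) (nat_lit 54) (nat_lit 57) (nat_lit 20) (.spl (nat_lit 4) (nat_lit 80)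
(.trX (nat_lit 22) (nat_lit 100) (nat_lit 76) (nat_lit 82) (nat_lit 336) (.spl (nat_lit 3) (nat_lit 100)
(.spl (nat_lit 6) (nat_lit 132)
(.spl (nat_lit 0) (nat_lit 390)
(.leaf p108_l9)
(.trX (nat_lit 13) (nat_lit 32) (nat_lit 89) (nat_lit 100) (nat_lit 300) (.trZ (nat_lit 3) (nat_lit 100) (nat_lit 39) (nat_lit 72) (nat_lit 36) (.leaf p108_l10))))
(.leaf p108_l11))
(.trZ (nat_lit 3) (nat_lit 100) (nat_lit 50) (nat_lit 65) (nat_lit 32) (.spl (nat_lit 6) (nat_lit 136)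
(.spl (nat_lit 0) (nat_lit 390)
(.spl (nat_lit 6) (nat_lit 124)
(.spl (nat_lit 0) (nat_lit 385)
(.leaf p108_l12)
(.trX (nat_lit 13) (nat_lit 39) (nat_lit 85) (nat_lit 100) (nat_lit 312) (.trZ (nat_lit 3) (nat_lit 100) (nat_lit 44) (nat_lit 71) (nat_lit 40) (.leaf p108_l13))))
(.leaf p108_l14))
(.trX (nat_lit 13) (nat_lit 32) (nat_lit 89) (nat_lit 100) (nat_lit 300) (.trZ (nat_lit 3) (nat_lit 100) (nat_lit 36) (nat_lit 77) (nat_lit 48) (.spl (nat_lit 2) (nat_lit 280)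
(.leaf p108_l15)
(.trX (nat_lit 22) (nat_lit 100) (nat_lit 95) (nat_lit 87) (nat_lit 300) (.spl (nat_lit 0) (nat_lit 395)
(.leaf p108_l16)
(.trX (nat_lit 13) (nat_lit 23) (nat_lit 93) (nat_lit 100) (nat_lit 284) (.trZ (nat_lit 3) (nat_lit 100) (nat_lit 26) (nat_lit 85) (nat_lit 64) (.leaf p108_l17)))))))))
(.leaf p108_l18)))))
(.spl (nat_lit 3) (nat_lit 100)
(.trX (nat_lit 19) (nat_lit 100) (nat_lit 50) (nat_lit 87) (nat_lit 376) (.leaf p108_l19))
(.spl (nat_lit 6) (nat_lit 136)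
(.spl (nat_lit 2) (nat_lit 280)
(.spl (nat_lit 0) (nat_lit 390)
(.leaf p108_l20)
(.leaf p108_l21))
(.trX (nat_lit 22) (nat_lit 94) (nat_lit 59) (nat_lit 100) (nat_lit 364) (.spl (nat_lit 0) (nat_lit 390)
(.spl (nat_lit 6) (nat_lit 124)
(.spl (nat_lit 0) (nat_lit 385)
(.leaf p108_l22)
(.trX (nat_lit 13) (nat_lit 39) (nat_lit 85) (nat_lit 100) (nat_lit 312) (.leaf p108_l23)))
(.leaf p108_l24))
(.trX (nat_lit 13) (nat_lit 32) (nat_lit 89) (nat_lit 100) (nat_lit 300) (.leaf p108_l25)))))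
(.leaf p108_l26)))))))
(.spl (nat_lit 0) (nat_lit 380)
(.spl (nat_lit 6) (nat_lit 128)
(.spl (nat_lit 3) (nat_lit 100)
(.trX (nat_lit 16) (nat_lit 60) (nat_lit 100) (nat_lit 87) (nat_lit 224) (.trX (nat_lit 19) (nat_lit 100) (nat_lit 50) (nat_lit 87) (nat_lit 376) (.leaf p108_l27)))
(.leaf p108_l28))
(.leaf p108_l29))
(.trX (nat_lit 13) (nat_lit 44) (nat_lit 81) (nat_lit 100) (nat_lit 324) (.trX (nat_lit 16) (nat_lit 44) (nat_lit 100) (nat_lit 92) (nat_lit 208) (.spl (nat_lit 0) (nat_lit 390)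
(.leaf p108_l30)
(.trX (nat_lit 13) (nat_lit 32) (nat_lit 89) (nat_lit 100) (nat_lit 300) (.trX (nat_lit 16) (nat_lit 31) (nat_lit 100) (nat_lit 92) (nat_lit 184) (.leaf p108_l31)))))))))) (by decide +kernel)
noncomputable def p108_l32 : Lf2 := ⟨nat_lit 1, nat_lit 25, [nat_lit 44, nat_lit 5, nat_lit 5, nat_lit 20], false, nat_lit 8, nat_lit 224, nat_lit 0, nat_lit 376, zbN0,
 nat_lit 0, nat_lit 0, nat_lit 0, nat_lit 0, nat_lit 0, nat_lit 0, nat_lit 0, nat_lit 0, nat_lit 0, nat_lit 0, nat_lit 0, nat_lit 0, nat_lit 0, nat_lit 0, nat_lit 0, nat_lit 0, nat_lit 0, nat_lit 0, [],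
 C1.Rw.none, C1.Rw.none,
 zbF0, []⟩
noncomputable def p108_l33 : Lf2 := ⟨nat_lit 1, nat_lit 30, [nat_lit 15, nat_lit 5, nat_lit 5, nat_lit 20], false, nat_lit 16, nat_lit 248, nat_lit 0, nat_lit 384, zbN0,
 nat_lit 0, nat_lit 0, nat_lit 0, nat_lit 0, nat_lit 0, nat_lit 0, nat_lit 0, nat_lit 0, nat_lit 0, nat_lit 0, nat_lit 0, nat_lit 0, nat_lit 0, nat_lit 0, nat_lit 0, nat_lit 0, nat_lit 0, nat_lit 0, [],
 C1.Rw.none, C1.Rw.none,
 zbF0, []⟩
noncomputable def p108_l34 : Lf2 := ⟨nat_lit 1, nat_lit 30, [nat_lit 15, nat_lit 5, nat_lit 5, nat_lit 20], false, nat_lit 8, nat_lit 248, nat_lit 0, nat_lit 384, zbN0,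
 nat_lit 0, nat_lit 0, nat_lit 0, nat_lit 0, nat_lit 0, nat_lit 0, nat_lit 0, nat_lit 0, nat_lit 0, nat_lit 0, nat_lit 0, nat_lit 0, nat_lit 0, nat_lit 0, nat_lit 0, nat_lit 0, nat_lit 0, nat_lit 0, [],
 C1.Rw.none, C1.Rw.none,
 zbF0, []⟩
noncomputable def p108_l35 : Lf2 := ⟨nat_lit 0, nat_lit 30, [nat_lit 15, nat_lit 5, nat_lit 5, nat_lit 20], true, nat_lit 20, nat_lit 80, nat_lit 0, nat_lit 384, ⟨nat_lit 0, nat_lit 234, nat_lit 766, nat_lit 5, nat_lit 196, nat_lit 1000, nat_lit 49, nat_lit 766, nat_lit 22817, nat_lit 252, nat_lit 267, nat_lit 211, nat_lit 52499161, nat_lit 12936316, nat_lit 1564523, nat_lit 3096848, false, false⟩,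
 nat_lit 0, nat_lit 2501, nat_lit 0, nat_lit 1134, nat_lit 2336, nat_lit 0, nat_lit 0, nat_lit 0, nat_lit 0, nat_lit 0, nat_lit 0, nat_lit 0, nat_lit 0, nat_lit 0, nat_lit 85, nat_lit 250000, nat_lit 0, nat_lit 0, [(nat_lit 29, [(nat_lit 0, nat_lit 234), (nat_lit 4, nat_lit 766)])],
 ⟨p108_k1, nat_lit 0, nat_lit 0, nat_lit 246, nat_lit 0, nat_lit 117228, [nat_lit 1106280000, nat_lit 344955200, nat_lit 170464800], [], [nat_lit 20353166245, nat_lit 20967624931, nat_lit 22970752372, nat_lit 23609157180, nat_lit 20012622077, nat_lit 20600121538, nat_lit 22637046016, nat_lit 23251357584], nat_lit 1271250, nat_lit 1271250, nat_lit 719601, nat_lit 1758000, nat_lit 111251, nat_lit 490000, [nat_lit 230000, nat_lit 1100000, nat_lit 1785000], [nat_lit 57, nat_lit 40, nat_lit 40, nat_lit 80, nat_lit 7, nat_lit 317, nat_lit 100, nat_lit 10]⟩, C1.Rw.none,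
 ⟨nat_lit 1581, nat_lit 2237, ⟨.ofNat (nat_lit 374377), .ofNat (nat_lit 557014), .ofNat (nat_lit 419835), .ofNat (nat_lit 602558), .ofNat (nat_lit 379613), .ofNat (nat_lit 554634), .ofNat (nat_lit 426152), .ofNat (nat_lit 601260)⟩, ⟨.ofNat (nat_lit 50000), .ofNat (nat_lit 192306), .ofNat (nat_lit 50000), .ofNat (nat_lit 200000), .ofNat (nat_lit 50000), .ofNat (nat_lit 196201), .ofNat (nat_lit 50000), .ofNat (nat_lit 200000)⟩⟩, [⟨nat_lit 3, nat_lit 100, nat_lit 44, nat_lit 71, nat_lit 329563194⟩]⟩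
noncomputable def p108_l36 : Lf2 := ⟨nat_lit 0, nat_lit 30, [nat_lit 15, nat_lit 5, nat_lit 5, nat_lit 20], true, nat_lit 36, nat_lit 80, nat_lit 0, nat_lit 384, ⟨nat_lit 0, nat_lit 498, nat_lit 502, nat_lit 5, nat_lit 203, nat_lit 1000, nat_lit 58, nat_lit 502, nat_lit 30817, nat_lit 258, nat_lit 3415, nat_lit 212, nat_lit 51376693, nat_lit 13646993, nat_lit 1976314, nat_lit 3294287, false, false⟩,
 nat_lit 0, nat_lit 2588, nat_lit 0, nat_lit 439, nat_lit 2502, nat_lit 0, nat_lit 0, nat_lit 0, nat_lit 0, nat_lit 0, nat_lit 0, nat_lit 0, nat_lit 0, nat_lit 0, nat_lit 22, nat_lit 250000, nat_lit 0, nat_lit 0, [(nat_lit 29, [(nat_lit 0, nat_lit 498), (nat_lit 4, nat_lit 502)])],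
 ⟨p108_k8, nat_lit 0, nat_lit 0, nat_lit 215, nat_lit 0, nat_lit 191495, [nat_lit 859560000, nat_lit 144489601, nat_lit 13383200], [], [nat_lit 21300901736, nat_lit 21974114545, nat_lit 23657893405, nat_lit 24381833470, nat_lit 20998959912, nat_lit 21618674202, nat_lit 23400486229, nat_lit 24004679048], nat_lit 1271250, nat_lit 1271250, nat_lit 904401, nat_lit 1771500, nat_lit 205650, nat_lit 490000, [nat_lit 230000, nat_lit 1100000, nat_lit 1442500], [nat_lit 55, nat_lit 40, nat_lit 40, nat_lit 80, nat_lit 3, nat_lit 317, nat_lit 100, nat_lit 11]⟩, C1.Rw.none,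
 ⟨nat_lit 0, nat_lit 1582, ⟨.ofNat (nat_lit 410485), .ofNat (nat_lit 554633), .ofNat (nat_lit 455801), .ofNat (nat_lit 601257), .ofNat (nat_lit 417902), .ofNat (nat_lit 549998), .ofNat (nat_lit 466588), .ofNat (nat_lit 599992)⟩, ⟨.ofNat (nat_lit 90000), .ofNat (nat_lit 196201), .ofNat (nat_lit 90000), .ofNat (nat_lit 200000), .ofNat (nat_lit 90000), .ofNat (nat_lit 199999), .ofNat (nat_lit 90000), .ofNat (nat_lit 200000)⟩⟩, [⟨nat_lit 3, nat_lit 100, nat_lit 26, nat_lit 85, nat_lit 550293220⟩]⟩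
noncomputable def p108_l37 : Lf2 := ⟨nat_lit 0, nat_lit 30, [nat_lit 15, nat_lit 5, nat_lit 5, nat_lit 20], true, nat_lit 80, nat_lit 208, nat_lit 0, nat_lit 384, ⟨nat_lit 0, nat_lit 312, nat_lit 688, nat_lit 5, nat_lit 196, nat_lit 1000, nat_lit 119, nat_lit 688, nat_lit 132017, nat_lit 304, nat_lit 267, nat_lit 211, nat_lit 48505426, nat_lit 12687090, nat_lit 5807484, nat_lit 4059107, false, false⟩,
 nat_lit 0, nat_lit 2808, nat_lit 0, nat_lit 783, nat_lit 2623, nat_lit 0, nat_lit 0, nat_lit 0, nat_lit 0, nat_lit 0, nat_lit 0, nat_lit 0, nat_lit 0, nat_lit 0, nat_lit 67, nat_lit 250000, nat_lit 0, nat_lit 0, [(nat_lit 29, [(nat_lit 0, nat_lit 312), (nat_lit 4, nat_lit 688)])],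
 ⟨p108_k1, nat_lit 0, nat_lit 0, nat_lit 168, nat_lit 0, nat_lit 117228, [nat_lit 1035840001, nat_lit 318473600, nat_lit 134486400], [], [nat_lit 19857450345, nat_lit 20489746910, nat_lit 22403400550, nat_lit 22979599776, nat_lit 21839376425, nat_lit 22375761603, nat_lit 24140392794, nat_lit 24701199456], nat_lit 1271250, nat_lit 1271250, nat_lit 719601, nat_lit 1758000, nat_lit 490000, nat_lit 1490000, [nat_lit 230000, nat_lit 1100000, nat_lit 1785000], [nat_lit 57, nat_lit 40, nat_lit 40, nat_lit 80, nat_lit 7, nat_lit 345, nat_lit 125, nat_lit 11]⟩, C1.Rw.none,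
 ⟨nat_lit 1581, nat_lit 2237, ⟨.ofNat (nat_lit 374377), .ofNat (nat_lit 557014), .ofNat (nat_lit 419835), .ofNat (nat_lit 602558), .ofNat (nat_lit 379613), .ofNat (nat_lit 554634), .ofNat (nat_lit 426152), .ofNat (nat_lit 601260)⟩, ⟨.ofNat (nat_lit 192306), .ofNat (nat_lit 374756), .ofNat (nat_lit 200000), .ofNat (nat_lit 420305), .ofNat (nat_lit 196201), .ofNat (nat_lit 371036), .ofNat (nat_lit 200000), .ofNat (nat_lit 417666)⟩⟩, [⟨nat_lit 4, nat_lit 100, nat_lit 38, nat_lit 87, nat_lit 108799806⟩]⟩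
noncomputable def p108_l38 : Lf2 := ⟨nat_lit 0, nat_lit 30, [nat_lit 15, nat_lit 5, nat_lit 5, nat_lit 20], true, nat_lit 80, nat_lit 184, nat_lit 0, nat_lit 384, ⟨nat_lit 0, nat_lit 520, nat_lit 480, nat_lit 5, nat_lit 203, nat_lit 1000, nat_lit 111, nat_lit 480, nat_lit 117600, nat_lit 299, nat_lit 3415, nat_lit 212, nat_lit 48321456, nat_lit 13406487, nat_lit 5272057, nat_lit 4034320, false, false⟩,
 nat_lit 0, nat_lit 2778, nat_lit 0, nat_lit 735, nat_lit 2686, nat_lit 0, nat_lit 0, nat_lit 0, nat_lit 0, nat_lit 0, nat_lit 0, nat_lit 0, nat_lit 0, nat_lit 0, nat_lit 17, nat_lit 250000, nat_lit 0, nat_lit 0, [(nat_lit 29, [(nat_lit 0, nat_lit 520), (nat_lit 4, nat_lit 480)])],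
 ⟨p108_k8, nat_lit 0, nat_lit 0, nat_lit 168, nat_lit 0, nat_lit 191495, [nat_lit 840000000, nat_lit 133904001, nat_lit 10368000], [], [nat_lit 20844899047, nat_lit 21492554349, nat_lit 23168500902, nat_lit 23794244336, nat_lit 22306671537, nat_lit 22874932576, nat_lit 24371535403, nat_lit 24861155086], nat_lit 1271250, nat_lit 1271250, nat_lit 904401, nat_lit 1771500, nat_lit 490000, nat_lit 1302500, [nat_lit 230000, nat_lit 1100000, nat_lit 1442500], [nat_lit 55, nat_lit 40, nat_lit 40, nat_lit 80, nat_lit 3, nat_lit 345, nat_lit 125, nat_lit 12]⟩, C1.Rw.none,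
 ⟨nat_lit 0, nat_lit 1582, ⟨.ofNat (nat_lit 410485), .ofNat (nat_lit 554633), .ofNat (nat_lit 455801), .ofNat (nat_lit 601257), .ofNat (nat_lit 417902), .ofNat (nat_lit 549998), .ofNat (nat_lit 466588), .ofNat (nat_lit 599992)⟩, ⟨.ofNat (nat_lit 196201), .ofNat (nat_lit 338250), .ofNat (nat_lit 200000), .ofNat (nat_lit 384882), .ofNat (nat_lit 199999), .ofNat (nat_lit 329995), .ofNat (nat_lit 200000), .ofNat (nat_lit 379997)⟩⟩, [⟨nat_lit 4, nat_lit 100, nat_lit 23, nat_lit 91, nat_lit 204986287⟩]⟩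
noncomputable def p108_l39 : Lf2 := ⟨nat_lit 0, nat_lit 30, [nat_lit 15, nat_lit 5, nat_lit 5, nat_lit 20], false, nat_lit 8, nat_lit 248, nat_lit 0, nat_lit 160, ⟨nat_lit 1000, nat_lit 0, nat_lit 0, nat_lit 0, nat_lit 0, nat_lit 0, nat_lit 0, nat_lit 0, nat_lit 0, nat_lit 0, nat_lit 0, nat_lit 0, nat_lit 0, nat_lit 0, nat_lit 0, nat_lit 0, false, false⟩,
 nat_lit 0, nat_lit 7308, nat_lit 0, nat_lit 18707, nat_lit 6365, nat_lit 7306, nat_lit 299, nat_lit 0, nat_lit 0, nat_lit 683, nat_lit 0, nat_lit 0, nat_lit 0, nat_lit 0, nat_lit 0, nat_lit 0, nat_lit 0, nat_lit 0, [],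
 ⟨p108_k2, nat_lit 0, nat_lit 0, nat_lit 214, nat_lit 0, nat_lit 38766, [nat_lit 938000000, nat_lit 4688000000, nat_lit 9842000000], [], [nat_lit 32435725275, nat_lit 34098985537, nat_lit 37655947205, nat_lit 38909432842, nat_lit 29393358221, nat_lit 30422795340, nat_lit 32928615484, nat_lit 33854557309], nat_lit 1271250, nat_lit 1271250, nat_lit 1271250, nat_lit 1271250, nat_lit 43600, nat_lit 1756600, [nat_lit 230000, nat_lit 1100000, nat_lit 2127500], [nat_lit 81, nat_lit 40, nat_lit 40, nat_lit 80, nat_lit 13, nat_lit 373, nat_lit 150, nat_lit 10]⟩, ⟨p108_k7, nat_lit 0, nat_lit 0, nat_lit 337, nat_lit 0, nat_lit 0, [nat_lit 6250000000, nat_lit 11872000000, nat_lit 16400000000], [], [nat_lit 35758274262, nat_lit 36612543254, nat_lit 41339434493, nat_lit 41817467316, nat_lit 30450752256, nat_lit 31517073328, nat_lit 35647683447, nat_lit 36247708023], nat_lit 0, nat_lit 0, nat_lit 0, nat_lit 0, nat_lit 0,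 nat_lit 0, [], [nat_lit 104, nat_lit 40, nat_lit 40, nat_lit 80, nat_lit 76, nat_lit 428, nat_lit 200, nat_lit 9]⟩,
 zbF0, [⟨nat_lit 16, nat_lit 53, nat_lit 100, nat_lit 87, nat_lit 193306354⟩, ⟨nat_lit 9, nat_lit 100, nat_lit 94, nat_lit 14, nat_lit 15944081⟩]⟩
noncomputable def p108_l40 : Lf2 := ⟨nat_lit 0, nat_lit 30, [nat_lit 15, nat_lit 5, nat_lit 5, nat_lit 20], false, nat_lit 20, nat_lit 208, nat_lit 0, nat_lit 160, ⟨nat_lit 1000, nat_lit 0, nat_lit 0, nat_lit 0, nat_lit 0, nat_lit 0, nat_lit 0, nat_lit 0, nat_lit 0, nat_lit 0, nat_lit 0, nat_lit 0, nat_lit 0, nat_lit 0, nat_lit 0, nat_lit 0, false, false⟩,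
 nat_lit 0, nat_lit 3893, nat_lit 0, nat_lit 8298, nat_lit 3637, nat_lit 7416, nat_lit 498, nat_lit 0, nat_lit 0, nat_lit 736, nat_lit 0, nat_lit 0, nat_lit 0, nat_lit 0, nat_lit 0, nat_lit 0, nat_lit 0, nat_lit 0, [],
 ⟨p108_k1, nat_lit 0, nat_lit 0, nat_lit 258, nat_lit 0, nat_lit 200403, [nat_lit 938000000, nat_lit 4688000000, nat_lit 7968000000], [], [nat_lit 25601782464, nat_lit 27232777706, nat_lit 29507683132, nat_lit 30956427348, nat_lit 25527203964, nat_lit 26307900556, nat_lit 28224849213, nat_lit 29407360650], nat_lit 1271250, nat_lit 1271250, nat_lit 1271250, nat_lit 1271250, nat_lit 111251, nat_lit 1474250, [nat_lit 230000, nat_lit 1100000, nat_lit 1785000], [nat_lit 57, nat_lit 40, nat_lit 40, nat_lit 80, nat_lit 7, nat_lit 272, nat_lit 60, nat_lit 8]⟩, ⟨p108_k7, nat_lit 0, nat_lit 0, nat_lit 330, nat_lit 0, nat_lit 0, [nat_lit 6250000000, nat_lit 11872000000, nat_lit 16400000000], [], [nat_lit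 34923867232, nat_lit 36052672032, nat_lit 39209877815, nat_lit 40093850711, nat_lit 30238075616, nat_lit 31306367008, nat_lit 33948670253, nat_lit 34668186685], nat_lit 0, nat_lit 0, nat_lit 0, nat_lit 0, nat_lit 0, nat_lit 0, [], [nat_lit 104, nat_lit 40, nat_lit 40, nat_lit 80, nat_lit 76, nat_lit 428, nat_lit 200, nat_lit 9]⟩,
 zbF0, [⟨nat_lit 13, nat_lit 31, nat_lit 92, nat_lit 100, nat_lit 174456059⟩, ⟨nat_lit 4, nat_lit 100, nat_lit 32, nat_lit 88, nat_lit 490377746⟩]⟩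
noncomputable def p108_l41 : Lf2 := ⟨nat_lit 0, nat_lit 30, [nat_lit 15, nat_lit 5, nat_lit 5, nat_lit 20], false, nat_lit 8, nat_lit 248, nat_lit 160, nat_lit 384, ⟨nat_lit 1000, nat_lit 0, nat_lit 0, nat_lit 0, nat_lit 0, nat_lit 0, nat_lit 0, nat_lit 0, nat_lit 0, nat_lit 0, nat_lit 0, nat_lit 0, nat_lit 0, nat_lit 0, nat_lit 0, nat_lit 0, false, false⟩,
 nat_lit 0, nat_lit 7400, nat_lit 0, nat_lit 1304, nat_lit 6445, nat_lit 7708, nat_lit 372, nat_lit 0, nat_lit 0, nat_lit 0, nat_lit 0, nat_lit 0, nat_lit 0, nat_lit 0, nat_lit 0, nat_lit 0, nat_lit 0, nat_lit 0, [],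
 ⟨p108_k2, nat_lit 0, nat_lit 0, nat_lit 310, nat_lit 0, nat_lit 220280, [nat_lit 938000000, nat_lit 4688000000, nat_lit 9842000000], [], [nat_lit 31359188283, nat_lit 34711047400, nat_lit 37277016984, nat_lit 40971977467, nat_lit 28722743831, nat_lit 30476546927, nat_lit 32055052896, nat_lit 34779175275], nat_lit 1271250, nat_lit 1271250, nat_lit 1271250, nat_lit 1271250, nat_lit 43600, nat_lit 1756600, [nat_lit 230000, nat_lit 1100000, nat_lit 2127500], [nat_lit 81, nat_lit 40, nat_lit 40, nat_lit 80, nat_lit 13, nat_lit 373, nat_lit 150, nat_lit 10]⟩, ⟨p108_k7, nat_lit 0, nat_lit 0, nat_lit 131, nat_lit 0, nat_lit 0, [nat_lit 6250000000, nat_lit 11872000000, nat_lit 16400000000], [], [nat_lit 13521295760, nat_lit 15811465040, nat_lit 23227154765, nat_lit 24627935293, nat_lit 28048047818, nat_lit 29194339556, nat_lit 34391528401, nat_lit 34948094057], nat_lit 0, nat_lit 0, nat_lit 0, nat_lit 0, nat_lit 0,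 nat_lit 0, [], [nat_lit 104, nat_lit 40, nat_lit 40, nat_lit 80, nat_lit 76, nat_lit 483, nat_lit 250, nat_lit 10]⟩,
 zbF0, [⟨nat_lit 16, nat_lit 44, nat_lit 100, nat_lit 87, nat_lit 479760511⟩, ⟨nat_lit 19, nat_lit 100, nat_lit 40, nat_lit 92, nat_lit 247649677⟩, ⟨nat_lit 10, nat_lit 39, nat_lit 88, nat_lit 100, nat_lit 297153632⟩]⟩
noncomputable def b_V_900_500_20_30 : St := ⟨true, nat_lit 1, nat_lit 0, nat_lit 1, nat_lit 120, nat_lit 360, nat_lit 400, nat_lit 200, nat_lit 240, nat_lit 80, nat_lit 352, nat_lit 80, nat_lit 120, nat_lit 8, nat_lit 248, nat_lit 0, nat_lit 384, nat_lit 120, nat_lit 148, nat_lit 0, nat_lit 0, nat_lit 0, nat_lit 0⟩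
theorem d_V_900_500_20_30 (h : EB TB.env) : Dead b_V_900_500_20_30 := chkB_sound0 h (T :=
(.spl (nat_lit 2) (nat_lit 240)
(.spl (nat_lit 0) (nat_lit 380)
(.spl (nat_lit 6) (nat_lit 128)
(.spl (nat_lit 3) (nat_lit 100)
(.trX (nat_lit 16) (nat_lit 60) (nat_lit 100) (nat_lit 87) (nat_lit 224) (.trX (nat_lit 19) (nat_lit 100) (nat_lit 50) (nat_lit 87) (nat_lit 376) (.leaf p108_l32)))
(.trZ (nat_lit 3) (nat_lit 100) (nat_lit 69) (nat_lit 45) (nat_lit 16) (.leaf p108_l33)))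
(.leaf p108_l34))
(.trZ (nat_lit 0) (nat_lit 100) (nat_lit 44) (nat_lit 90) (nat_lit 112) (.trZ (nat_lit 3) (nat_lit 100) (nat_lit 54) (nat_lit 57) (nat_lit 20) (.trX (nat_lit 16) (nat_lit 44) (nat_lit 100) (nat_lit 92) (nat_lit 208) (.spl (nat_lit 4) (nat_lit 80)
(.spl (nat_lit 0) (nat_lit 390)
(.leaf p108_l35)
(.trZ (nat_lit 0) (nat_lit 100) (nat_lit 31) (nat_lit 95) (nat_lit 136) (.trZ (nat_lit 3) (nat_lit 100) (nat_lit 39) (nat_lit 72) (nat_lit 36) (.leaf p108_l36))))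
(.spl (nat_lit 0) (nat_lit 390)
(.leaf p108_l37)
(.trZ (nat_lit 0) (nat_lit 100) (nat_lit 31) (nat_lit 95) (nat_lit 136) (.trX (nat_lit 16) (nat_lit 31) (nat_lit 100) (nat_lit 92) (nat_lit 184) (.leaf p108_l38)))))))))
(.spl (nat_lit 5) (nat_lit 160)
(.spl (nat_lit 0) (nat_lit 380)
(.leaf p108_l39)
(.trX (nat_lit 13) (nat_lit 44) (nat_lit 81) (nat_lit 100) (nat_lit 324) (.trZ (nat_lit 3) (nat_lit 100) (nat_lit 54) (nat_lit 57) (nat_lit 20) (.trX (nat_lit 16) (nat_lit 44) (nat_lit 100) (nat_lit 92) (nat_lit 208) (.leaf p108_l40)))))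
(.leaf p108_l41)))) (by decide +kernel)
noncomputable def p108_l42 : Lf2 := ⟨nat_lit 1, nat_lit 30, [nat_lit 15, nat_lit 5, nat_lit 5, nat_lit 20], false, nat_lit 8, nat_lit 80, nat_lit 0, nat_lit 384, zbN0,
 nat_lit 0, nat_lit 0, nat_lit 0, nat_lit 0, nat_lit 0, nat_lit 0, nat_lit 0, nat_lit 0, nat_lit 0, nat_lit 0, nat_lit 0, nat_lit 0, nat_lit 0, nat_lit 0, nat_lit 0, nat_lit 0, nat_lit 0, nat_lit 0, [],
 C1.Rw.none, C1.Rw.none,
 zbF0, []⟩
noncomputable def p108_l43 : Lf2 := ⟨nat_lit 0, nat_lit 30, [nat_lit 15, nat_lit 5, nat_lit 5, nat_lit 20], true, nat_lit 12, nat_lit 80, nat_lit 0, nat_lit 384, ⟨nat_lit 0, nat_lit 140, nat_lit 860, nat_lit 5, nat_lit 189, nat_lit 1000, nat_lit 45, nat_lit 860, nat_lit 19267, nat_lit 249, nat_lit 2958, nat_lit 211, nat_lit 53366424, nat_lit 12272745, nat_lit 1360831, nat_lit 2959455, false, false⟩,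
 nat_lit 0, nat_lit 2599, nat_lit 0, nat_lit 3632, nat_lit 2345, nat_lit 0, nat_lit 0, nat_lit 0, nat_lit 0, nat_lit 0, nat_lit 0, nat_lit 0, nat_lit 0, nat_lit 0, nat_lit 78, nat_lit 250000, nat_lit 0, nat_lit 0, [(nat_lit 26, [(nat_lit 0, nat_lit 140), (nat_lit 4, nat_lit 860)])],
 ⟨p108_k0, nat_lit 0, nat_lit 0, nat_lit 193, nat_lit 0, nat_lit 36020, [nat_lit 1086200000, nat_lit 603016001, nat_lit 11528000], [], [nat_lit 19624376849, nat_lit 20256919098, nat_lit 22527023900, nat_lit 23044984643, nat_lit 19248021758, nat_lit 19849244501, nat_lit 22130047715, nat_lit 22665031570], nat_lit 1271250, nat_lit 1271250, nat_lit 573850, nat_lit 1746750, nat_lit 65850, nat_lit 490000, [nat_lit 230000, nat_lit 1100000, nat_lit 1785000], [nat_lit 57, nat_lit 40, nat_lit 40, nat_lit 80, nat_lit 7, nat_lit 317, nat_lit 100, nat_lit 10]⟩, C1.Rw.none,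
 ⟨nat_lit 2236, nat_lit 2739, ⟨.ofNat (nat_lit 340439), .ofNat (nat_lit 559060), .ofNat (nat_lit 385234), .ofNat (nat_lit 603890), .ofNat (nat_lit 345963), .ofNat (nat_lit 557014), .ofNat (nat_lit 391471), .ofNat (nat_lit 602558)⟩, ⟨.ofNat (nat_lit 30000), .ofNat (nat_lit 188310), .ofNat (nat_lit 30000), .ofNat (nat_lit 200000), .ofNat (nat_lit 30000), .ofNat (nat_lit 192306), .ofNat (nat_lit 30000), .ofNat (nat_lit 200000)⟩⟩, [⟨nat_lit 3, nat_lit 100, nat_lit 56, nat_lit 60, nat_lit 248707643⟩]⟩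
noncomputable def p108_l44 : Lf2 := ⟨nat_lit 1, nat_lit 30, [nat_lit 15, nat_lit 5, nat_lit 5, nat_lit 20], false, nat_lit 8, nat_lit 80, nat_lit 0, nat_lit 384, zbN0,
 nat_lit 0, nat_lit 0, nat_lit 0, nat_lit 0, nat_lit 0, nat_lit 0, nat_lit 0, nat_lit 0, nat_lit 0, nat_lit 0, nat_lit 0, nat_lit 0, nat_lit 0, nat_lit 0, nat_lit 0, nat_lit 0, nat_lit 0, nat_lit 0, [],
 C1.Rw.none, C1.Rw.none,
 zbF0, []⟩
noncomputable def p108_l45 : Lf2 := ⟨nat_lit 0, nat_lit 30, [nat_lit 15, nat_lit 5, nat_lit 5, nat_lit 20], true, nat_lit 20, nat_lit 80, nat_lit 0, nat_lit 384, ⟨nat_lit 0, nat_lit 234, nat_lit 766, nat_lit 5, nat_lit 196, nat_lit 1000, nat_lit 49, nat_lit 766, nat_lit 22817, nat_lit 252, nat_lit 267, nat_lit 211, nat_lit 52499161, nat_lit 12936316, nat_lit 1564523, nat_lit 3096848, false, false⟩,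
 nat_lit 0, nat_lit 2501, nat_lit 0, nat_lit 1134, nat_lit 2336, nat_lit 0, nat_lit 0, nat_lit 0, nat_lit 0, nat_lit 0, nat_lit 0, nat_lit 0, nat_lit 0, nat_lit 0, nat_lit 85, nat_lit 250000, nat_lit 0, nat_lit 0, [(nat_lit 29, [(nat_lit 0, nat_lit 234), (nat_lit 4, nat_lit 766)])],
 ⟨p108_k1, nat_lit 0, nat_lit 0, nat_lit 246, nat_lit 0, nat_lit 117228, [nat_lit 1106280000, nat_lit 344955200, nat_lit 170464800], [], [nat_lit 20353166245, nat_lit 20967624931, nat_lit 22970752372, nat_lit 23609157180, nat_lit 20012622077, nat_lit 20600121538, nat_lit 22637046016, nat_lit 23251357584], nat_lit 1271250, nat_lit 1271250, nat_lit 719601, nat_lit 1758000, nat_lit 111251, nat_lit 490000, [nat_lit 230000, nat_lit 1100000, nat_lit 1785000], [nat_lit 57, nat_lit 40, nat_lit 40, nat_lit 80, nat_lit 7, nat_lit 317, nat_lit 100, nat_lit 10]⟩, C1.Rw.none,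
 ⟨nat_lit 1581, nat_lit 2237, ⟨.ofNat (nat_lit 374377), .ofNat (nat_lit 557014), .ofNat (nat_lit 419835), .ofNat (nat_lit 602558), .ofNat (nat_lit 379613), .ofNat (nat_lit 554634), .ofNat (nat_lit 426152), .ofNat (nat_lit 601260)⟩, ⟨.ofNat (nat_lit 50000), .ofNat (nat_lit 192306), .ofNat (nat_lit 50000), .ofNat (nat_lit 200000), .ofNat (nat_lit 50000), .ofNat (nat_lit 196201), .ofNat (nat_lit 50000), .ofNat (nat_lit 200000)⟩⟩, [⟨nat_lit 3, nat_lit 100, nat_lit 44, nat_lit 71, nat_lit 329563194⟩]⟩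
noncomputable def p108_l46 : Lf2 := ⟨nat_lit 0, nat_lit 30, [nat_lit 15, nat_lit 5, nat_lit 5, nat_lit 20], true, nat_lit 36, nat_lit 80, nat_lit 0, nat_lit 384, ⟨nat_lit 0, nat_lit 498, nat_lit 502, nat_lit 5, nat_lit 203, nat_lit 1000, nat_lit 58, nat_lit 502, nat_lit 30817, nat_lit 258, nat_lit 3415, nat_lit 212, nat_lit 51376693, nat_lit 13646993, nat_lit 1976314, nat_lit 3294287, false, false⟩,
 nat_lit 0, nat_lit 2588, nat_lit 0, nat_lit 439, nat_lit 2502, nat_lit 0, nat_lit 0, nat_lit 0, nat_lit 0, nat_lit 0, nat_lit 0, nat_lit 0, nat_lit 0, nat_lit 0, nat_lit 22, nat_lit 250000, nat_lit 0, nat_lit 0, [(nat_lit 29, [(nat_lit 0, nat_lit 498), (nat_lit 4, nat_lit 502)])],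
 ⟨p108_k8, nat_lit 0, nat_lit 0, nat_lit 215, nat_lit 0, nat_lit 191495, [nat_lit 859560000, nat_lit 144489601, nat_lit 13383200], [], [nat_lit 21300901736, nat_lit 21974114545, nat_lit 23657893405, nat_lit 24381833470, nat_lit 20998959912, nat_lit 21618674202, nat_lit 23400486229, nat_lit 24004679048], nat_lit 1271250, nat_lit 1271250, nat_lit 904401, nat_lit 1771500, nat_lit 205650, nat_lit 490000, [nat_lit 230000, nat_lit 1100000, nat_lit 1442500], [nat_lit 55, nat_lit 40, nat_lit 40, nat_lit 80, nat_lit 3, nat_lit 317, nat_lit 100, nat_lit 11]⟩, C1.Rw.none,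
 ⟨nat_lit 0, nat_lit 1582, ⟨.ofNat (nat_lit 410485), .ofNat (nat_lit 554633), .ofNat (nat_lit 455801), .ofNat (nat_lit 601257), .ofNat (nat_lit 417902), .ofNat (nat_lit 549998), .ofNat (nat_lit 466588), .ofNat (nat_lit 599992)⟩, ⟨.ofNat (nat_lit 90000), .ofNat (nat_lit 196201), .ofNat (nat_lit 90000), .ofNat (nat_lit 200000), .ofNat (nat_lit 90000), .ofNat (nat_lit 199999), .ofNat (nat_lit 90000), .ofNat (nat_lit 200000)⟩⟩, [⟨nat_lit 3, nat_lit 100, nat_lit 26, nat_lit 85, nat_lit 550293220⟩]⟩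
noncomputable def p108_l47 : Lf2 := ⟨nat_lit 0, nat_lit 30, [nat_lit 15, nat_lit 5, nat_lit 5, nat_lit 20], true, nat_lit 80, nat_lit 160, nat_lit 0, nat_lit 384, ⟨nat_lit 0, nat_lit 0, nat_lit 1000, nat_lit 5, nat_lit 185, nat_lit 1000, nat_lit 105, nat_lit 1000, nat_lit 101400, nat_lit 293, nat_lit 417, nat_lit 210, nat_lit 50390826, nat_lit 0, nat_lit 0, nat_lit 3773242, false, false⟩,
 nat_lit 0, nat_lit 3253, nat_lit 0, nat_lit 3671, nat_lit 2833, nat_lit 0, nat_lit 0, nat_lit 0, nat_lit 0, nat_lit 0, nat_lit 0, nat_lit 0, nat_lit 0, nat_lit 0, nat_lit 108, nat_lit 250000, nat_lit 0, nat_lit 0, [(nat_lit 26, [(nat_lit 4, nat_lit 1000)])],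
 ⟨p108_k2, nat_lit 0, nat_lit 0, nat_lit 180, nat_lit 0, nat_lit 38766, [nat_lit 1207600000, nat_lit 698800001, nat_lit 686800000], [], [nat_lit 19029871136, nat_lit 20340461446, nat_lit 21600415528, nat_lit 22655852198, nat_lit 19738122044, nat_lit 20931545592, nat_lit 22176114504, nat_lit 23103585744], nat_lit 1271250, nat_lit 1271250, nat_lit 490000, nat_lit 1740000, nat_lit 490000, nat_lit 1100001, [nat_lit 230000, nat_lit 1100000, nat_lit 2127500], [nat_lit 81, nat_lit 40, nat_lit 40, nat_lit 80, nat_lit 13, nat_lit 317, nat_lit 100, nat_lit 9]⟩, C1.Rw.none,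
 ⟨nat_lit 2236, nat_lit 3163, ⟨.ofNat (nat_lit 316827), .ofNat (nat_lit 560952), .ofNat (nat_lit 361011), .ofNat (nat_lit 605240), .ofNat (nat_lit 328641), .ofNat (nat_lit 557014), .ofNat (nat_lit 374063), .ofNat (nat_lit 602541)⟩, ⟨.ofNat (nat_lit 184209), .ofNat (nat_lit 306116), .ofNat (nat_lit 200000), .ofNat (nat_lit 350426), .ofNat (nat_lit 192306), .ofNat (nat_lit 306337), .ofNat (nat_lit 200000), .ofNat (nat_lit 351886)⟩⟩, []⟩
noncomputable def p108_l48 : Lf2 := ⟨nat_lit 0, nat_lit 30, [nat_lit 15, nat_lit 5, nat_lit 5, nat_lit 20], true, nat_lit 80, nat_lit 160, nat_lit 0, nat_lit 384, ⟨nat_lit 0, nat_lit 332, nat_lit 668, nat_lit 5, nat_lit 196, nat_lit 1000, nat_lit 105, nat_lit 668, nat_lit 104017, nat_lit 294, nat_lit 267, nat_lit 211, nat_lit 49392017, nat_lit 12759842, nat_lit 4848141, nat_lit 3884353, false, false⟩,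
 nat_lit 0, nat_lit 2835, nat_lit 0, nat_lit 0, nat_lit 2649, nat_lit 0, nat_lit 0, nat_lit 0, nat_lit 0, nat_lit 0, nat_lit 0, nat_lit 0, nat_lit 0, nat_lit 0, nat_lit 63, nat_lit 250000, nat_lit 0, nat_lit 0, [(nat_lit 29, [(nat_lit 0, nat_lit 332), (nat_lit 4, nat_lit 668)])],
 ⟨p108_k1, nat_lit 0, nat_lit 0, nat_lit 198, nat_lit 0, nat_lit 200403, [nat_lit 1020240000, nat_lit 321529600, nat_lit 140030400], [], [nat_lit 20110835592, nat_lit 21349857286, nat_lit 22656056138, nat_lit 23740861624, nat_lit 21010523901, nat_lit 22138378970, nat_lit 23362943886, nat_lit 24360841148], nat_lit 1271250, nat_lit 1271250, nat_lit 719601, nat_lit 1758000, nat_lit 490000, nat_lit 1100001, [nat_lit 230000, nat_lit 1100000, nat_lit 1785000], [nat_lit 57, nat_lit 40, nat_lit 40, nat_lit 80, nat_lit 7, nat_lit 317, nat_lit 100, nat_lit 10]⟩, C1.Rw.none,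
 ⟨nat_lit 0, nat_lit 2237, ⟨.ofNat (nat_lit 370513), .ofNat (nat_lit 557013), .ofNat (nat_lit 414208), .ofNat (nat_lit 602531), .ofNat (nat_lit 385947), .ofNat (nat_lit 549998), .ofNat (nat_lit 434094), .ofNat (nat_lit 599967)⟩, ⟨.ofNat (nat_lit 192306), .ofNat (nat_lit 306334), .ofNat (nat_lit 200000), .ofNat (nat_lit 351885), .ofNat (nat_lit 199999), .ofNat (nat_lit 299996), .ofNat (nat_lit 200000), .ofNat (nat_lit 349998)⟩⟩, [⟨nat_lit 4, nat_lit 100, nat_lit 32, nat_lit 88, nat_lit 54504037⟩]⟩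
noncomputable def p108_l49 : Lf2 := ⟨nat_lit 0, nat_lit 30, [nat_lit 15, nat_lit 5, nat_lit 5, nat_lit 20], true, nat_lit 160, nat_lit 248, nat_lit 0, nat_lit 384, ⟨nat_lit 0, nat_lit 0, nat_lit 1000, nat_lit 5, nat_lit 185, nat_lit 1000, nat_lit 157, nat_lit 1000, nat_lit 61189, nat_lit 275, nat_lit 417, nat_lit 210, nat_lit 46688728, nat_lit 0, nat_lit 0, nat_lit 4407361, false, false⟩,
 nat_lit 0, nat_lit 3940, nat_lit 0, nat_lit 6153, nat_lit 3431, nat_lit 0, nat_lit 0, nat_lit 0, nat_lit 0, nat_lit 0, nat_lit 0, nat_lit 0, nat_lit 0, nat_lit 0, nat_lit 84, nat_lit 200000, nat_lit 0, nat_lit 0, [(nat_lit 26, [(nat_lit 3, nat_lit 1000)])],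
 ⟨p108_k2, nat_lit 0, nat_lit 0, nat_lit 154, nat_lit 0, nat_lit 38766, [nat_lit 1484000001, nat_lit 514000001, nat_lit 680400000], [], [nat_lit 20347026553, nat_lit 21621797544, nat_lit 22556912205, nat_lit 23579313763, nat_lit 22467896468, nat_lit 23585651195, nat_lit 24481930442, nat_lit 25766393904], nat_lit 1271250, nat_lit 1271250, nat_lit 490000, nat_lit 1740000, nat_lit 1100001, nat_lit 1853500, [nat_lit 230000, nat_lit 1100000, nat_lit 2127500], [nat_lit 81, nat_lit 40, nat_lit 40, nat_lit 80, nat_lit 13, nat_lit 345, nat_lit 125, nat_lit 9]⟩, C1.Rw.none,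
 ⟨nat_lit 2236, nat_lit 3163, ⟨.ofNat (nat_lit 316827), .ofNat (nat_lit 560952), .ofNat (nat_lit 361011), .ofNat (nat_lit 605240), .ofNat (nat_lit 328641), .ofNat (nat_lit 557014), .ofNat (nat_lit 374063), .ofNat (nat_lit 602541)⟩, ⟨.ofNat (nat_lit 306116), .ofNat (nat_lit 440213), .ofNat (nat_lit 350426), .ofNat (nat_lit 484523), .ofNat (nat_lit 306337), .ofNat (nat_lit 431772), .ofNat (nat_lit 351886), .ofNat (nat_lit 477320)⟩⟩, [⟨nat_lit 4, nat_lit 100, nat_lit 53, nat_lit 87, nat_lit 320849700⟩]⟩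
noncomputable def p108_l50 : Lf2 := ⟨nat_lit 0, nat_lit 30, [nat_lit 15, nat_lit 5, nat_lit 5, nat_lit 20], true, nat_lit 160, nat_lit 208, nat_lit 0, nat_lit 384, ⟨nat_lit 0, nat_lit 283, nat_lit 717, nat_lit 5, nat_lit 196, nat_lit 1000, nat_lit 144, nat_lit 717, nat_lit 194400, nat_lit 323, nat_lit 267, nat_lit 211, nat_lit 46805934, nat_lit 12498140, nat_lit 7695926, nat_lit 4353378, false, false⟩,
 nat_lit 0, nat_lit 2834, nat_lit 0, nat_lit 2415, nat_lit 2648, nat_lit 0, nat_lit 0, nat_lit 0, nat_lit 0, nat_lit 0, nat_lit 0, nat_lit 0, nat_lit 0, nat_lit 0, nat_lit 74, nat_lit 250000, nat_lit 0, nat_lit 0, [(nat_lit 29, [(nat_lit 0, nat_lit 283), (nat_lit 4, nat_lit 717)])],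
 ⟨p108_k1, nat_lit 0, nat_lit 0, nat_lit 174, nat_lit 0, nat_lit 200403, [nat_lit 1063260000, nat_lit 333242401, nat_lit 155247600], [], [nat_lit 20555398375, nat_lit 21710907812, nat_lit 22956097360, nat_lit 24276902560, nat_lit 21661628587, nat_lit 22966227130, nat_lit 24109134170, nat_lit 25335447924], nat_lit 1271250, nat_lit 1271250, nat_lit 719601, nat_lit 1758000, nat_lit 1100001, nat_lit 1511000, [nat_lit 230000, nat_lit 1100000, nat_lit 1785000], [nat_lit 57, nat_lit 40, nat_lit 40, nat_lit 80, nat_lit 7, nat_lit 345, nat_lit 125, nat_lit 10]⟩, C1.Rw.none,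
 ⟨nat_lit 0, nat_lit 2237, ⟨.ofNat (nat_lit 370513), .ofNat (nat_lit 557013), .ofNat (nat_lit 414208), .ofNat (nat_lit 602531), .ofNat (nat_lit 385947), .ofNat (nat_lit 549998), .ofNat (nat_lit 434094), .ofNat (nat_lit 599967)⟩, ⟨.ofNat (nat_lit 306334), .ofNat (nat_lit 374750), .ofNat (nat_lit 351885), .ofNat (nat_lit 420300), .ofNat (nat_lit 299996), .ofNat (nat_lit 359993), .ofNat (nat_lit 349998), .ofNat (nat_lit 409994)⟩⟩, [⟨nat_lit 4, nat_lit 100, nat_lit 32, nat_lit 88, nat_lit 483050796⟩]⟩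
noncomputable def p108_l51 : Lf2 := ⟨nat_lit 1, nat_lit 25, [nat_lit 44, nat_lit 5, nat_lit 5, nat_lit 20], false, nat_lit 8, nat_lit 224, nat_lit 0, nat_lit 376, zbN0,
 nat_lit 0, nat_lit 0, nat_lit 0, nat_lit 0, nat_lit 0, nat_lit 0, nat_lit 0, nat_lit 0, nat_lit 0, nat_lit 0, nat_lit 0, nat_lit 0, nat_lit 0, nat_lit 0, nat_lit 0, nat_lit 0, nat_lit 0, nat_lit 0, [],
 C1.Rw.none, C1.Rw.none,
 zbF0, []⟩
noncomputable def p108_l52 : Lf2 := ⟨nat_lit 1, nat_lit 30, [nat_lit 15, nat_lit 5, nat_lit 5, nat_lit 20], false, nat_lit 16, nat_lit 248, nat_lit 0, nat_lit 384, zbN0,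
 nat_lit 0, nat_lit 0, nat_lit 0, nat_lit 0, nat_lit 0, nat_lit 0, nat_lit 0, nat_lit 0, nat_lit 0, nat_lit 0, nat_lit 0, nat_lit 0, nat_lit 0, nat_lit 0, nat_lit 0, nat_lit 0, nat_lit 0, nat_lit 0, [],
 C1.Rw.none, C1.Rw.none,
 zbF0, []⟩
noncomputable def p108_l53 : Lf2 := ⟨nat_lit 1, nat_lit 30, [nat_lit 15, nat_lit 5, nat_lit 5, nat_lit 20], false, nat_lit 8, nat_lit 248, nat_lit 0, nat_lit 384, zbN0,
 nat_lit 0, nat_lit 0, nat_lit 0, nat_lit 0, nat_lit 0, nat_lit 0, nat_lit 0, nat_lit 0, nat_lit 0, nat_lit 0, nat_lit 0, nat_lit 0, nat_lit 0, nat_lit 0, nat_lit 0, nat_lit 0, nat_lit 0, nat_lit 0, [],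
 C1.Rw.none, C1.Rw.none,
 zbF0, []⟩
noncomputable def p108_l54 : Lf2 := ⟨nat_lit 0, nat_lit 25, [nat_lit 44, nat_lit 5, nat_lit 5, nat_lit 20], false, nat_lit 20, nat_lit 80, nat_lit 0, nat_lit 336, ⟨nat_lit 254, nat_lit 94, nat_lit 652, nat_lit 6, nat_lit 253, nat_lit 746, nat_lit 50, nat_lit 652, nat_lit 22817, nat_lit 252, nat_lit 173334, nat_lit 200, nat_lit 46523343, nat_lit 18956841, nat_lit 1519816, nat_lit 3603735, true, true⟩,
 nat_lit 7096, nat_lit 0, nat_lit 0, nat_lit 0, nat_lit 2418, nat_lit 3040, nat_lit 0, nat_lit 0, nat_lit 0, nat_lit 132, nat_lit 0, nat_lit 0, nat_lit 0, nat_lit 0, nat_lit 0, nat_lit 186500, nat_lit 0, nat_lit 0, [(nat_lit 29, [(nat_lit 0, nat_lit 94), (nat_lit 4, nat_lit 652)])],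
 ⟨p108_k11, nat_lit 0, nat_lit 0, nat_lit 177, nat_lit 0, nat_lit 67874, [nat_lit 808285601, nat_lit 160356000, nat_lit 45877600], [], [nat_lit 24052233843, nat_lit 25033685890, nat_lit 26816488612, nat_lit 27842717810, nat_lit 23724116358, nat_lit 24665443917, nat_lit 26480038694, nat_lit 27398154730], nat_lit 1271250, nat_lit 1271250, nat_lit 1271250, nat_lit 1271250, nat_lit 111251, nat_lit 490000, [nat_lit 230000, nat_lit 1100000, nat_lit 1442500], [nat_lit 55, nat_lit 40, nat_lit 40, nat_lit 80, nat_lit 3, nat_lit 226, nat_lit 20, nat_lit 7]⟩, ⟨p108_k7, nat_lit 0, nat_lit 0, nat_lit 474, nat_lit 0, nat_lit 192738, [nat_lit 1587500000, nat_lit 3015488000, nat_lit 4165600000], [], [nat_lit 11646576352, nat_lit 11671702840, nat_lit 12238470709, nat_lit 12174893184, nat_lit 8986269093, nat_lit 8886299777, nat_lit 9418751793, nat_lit 9335005480], nat_lit 1271250, nat_lit 1271250, nat_lit 1271250, nat_lit 1271250,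 nat_lit 0, nat_lit 2373000, [nat_lit 1412500, nat_lit 1271250, nat_lit 1271250], [nat_lit 104, nat_lit 40, nat_lit 40, nat_lit 80, nat_lit 76, nat_lit 456, nat_lit 225, nat_lit 10]⟩,
 ⟨nat_lit 0, nat_lit 2237, ⟨.ofNat (nat_lit 557013), .ofNat (nat_lit 676741), .ofNat (nat_lit 602531), .ofNat (nat_lit 722292), .ofNat (nat_lit 549998), .ofNat (nat_lit 654993), .ofNat (nat_lit 599967), .ofNat (nat_lit 704996)⟩, ⟨.ofNat (nat_lit 50000), .ofNat (nat_lit 192306), .ofNat (nat_lit 50000), .ofNat (nat_lit 200000), .ofNat (nat_lit 50000), .ofNat (nat_lit 199999), .ofNat (nat_lit 50000), .ofNat (nat_lit 200000)⟩⟩, [⟨nat_lit 13, nat_lit 31, nat_lit 92, nat_lit 100, nat_lit 422998671⟩, ⟨nat_lit 3, nat_lit 100, nat_lit 37, nat_lit 74, nat_lit 218333551⟩, ⟨nat_lit 22, nat_lit 95, nat_lit 100, nat_lit 69, nat_lit 8944508⟩]⟩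
noncomputable def p108_l55 : Lf2 := ⟨nat_lit 0, nat_lit 30, [nat_lit 15, nat_lit 5, nat_lit 5, nat_lit 20], false, nat_lit 32, nat_lit 80, nat_lit 0, nat_lit 336, ⟨nat_lit 491, nat_lit 0, nat_lit 509, nat_lit 6, nat_lit 255, nat_lit 509, nat_lit 56, nat_lit 509, nat_lit 29400, nat_lit 257, nat_lit 173340, nat_lit 200, nat_lit 46112898, nat_lit 0, nat_lit 0, nat_lit 3701320, true, true⟩,
 nat_lit 11145, nat_lit 0, nat_lit 0, nat_lit 0, nat_lit 2543, nat_lit 4776, nat_lit 121, nat_lit 0, nat_lit 0, nat_lit 258, nat_lit 0, nat_lit 0, nat_lit 0, nat_lit 0, nat_lit 0, nat_lit 203600, nat_lit 0, nat_lit 0, [(nat_lit 29, [(nat_lit 5, nat_lit 509)])],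
 ⟨p108_k1, nat_lit 0, nat_lit 0, nat_lit 171, nat_lit 0, nat_lit 18775, [nat_lit 762700401, nat_lit 802823361, nat_lit 1355682800], [], [nat_lit 23934242972, nat_lit 24473052319, nat_lit 26782378272, nat_lit 27297669010, nat_lit 23482137420, nat_lit 24003145940, nat_lit 26218231767, nat_lit 26665091279], nat_lit 1271250, nat_lit 1271250, nat_lit 1271250, nat_lit 1271250, nat_lit 181601, nat_lit 490000, [nat_lit 230000, nat_lit 1100000, nat_lit 1785000], [nat_lit 57, nat_lit 40, nat_lit 40, nat_lit 80, nat_lit 7, nat_lit 226, nat_lit 20, nat_lit 6]⟩, ⟨p108_k7, nat_lit 0, nat_lit 0, nat_lit 417, nat_lit 0, nat_lit 54452, [nat_lit 3068750000, nat_lit 5829152000, nat_lit 8052400000], [], [nat_lit 19759765776, nat_lit 20249993496, nat_lit 22000911352, nat_lit 22252704334, nat_lit 17420594785, nat_lit 17493163626, nat_lit 18427479111, nat_lit 18368017152], nat_lit 1271250, nat_lit 1271250, nat_lit 1271250, nat_lit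 1271250, nat_lit 0, nat_lit 2373000, [nat_lit 1412500, nat_lit 1271250, nat_lit 1271250], [nat_lit 104, nat_lit 40, nat_lit 40, nat_lit 80, nat_lit 76, nat_lit 456, nat_lit 225, nat_lit 10]⟩,
 ⟨nat_lit 1581, nat_lit 2237, ⟨.ofNat (nat_lit 557014), .ofNat (nat_lit 676747), .ofNat (nat_lit 602558), .ofNat (nat_lit 722295), .ofNat (nat_lit 554634), .ofNat (nat_lit 669369), .ofNat (nat_lit 601260), .ofNat (nat_lit 715999)⟩, ⟨.ofNat (nat_lit 80000), .ofNat (nat_lit 200000), .ofNat (nat_lit 80000), .ofNat (nat_lit 200000), .ofNat (nat_lit 80000), .ofNat (nat_lit 200000), .ofNat (nat_lit 80000), .ofNat (nat_lit 200000)⟩⟩, [⟨nat_lit 3, nat_lit 100, nat_lit 34, nat_lit 81, nat_lit 1533592⟩, ⟨nat_lit 22, nat_lit 97, nat_lit 100, nat_lit 74, nat_lit 49068241⟩]⟩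
noncomputable def p108_l56 : Lf2 := ⟨nat_lit 0, nat_lit 30, [nat_lit 15, nat_lit 5, nat_lit 5, nat_lit 20], false, nat_lit 48, nat_lit 80, nat_lit 0, nat_lit 336, ⟨nat_lit 223, nat_lit 148, nat_lit 629, nat_lit 6, nat_lit 246, nat_lit 777, nat_lit 64, nat_lit 628, nat_lit 38400, nat_lit 263, nat_lit 95182, nat_lit 200, nat_lit 46660292, nat_lit 18104184, nat_lit 2235524, nat_lit 3752348, true, true⟩,
 nat_lit 6521, nat_lit 0, nat_lit 0, nat_lit 0, nat_lit 2486, nat_lit 2794, nat_lit 0, nat_lit 0, nat_lit 0, nat_lit 129, nat_lit 0, nat_lit 0, nat_lit 0, nat_lit 0, nat_lit 0, nat_lit 194250, nat_lit 0, nat_lit 0, [(nat_lit 29, [(nat_lit 0, nat_lit 148), (nat_lit 4, nat_lit 629)])],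
 ⟨p108_k8, nat_lit 0, nat_lit 0, nat_lit 156, nat_lit 0, nat_lit 69834, [nat_lit 803897200, nat_lit 130266000, nat_lit 8899200], [], [nat_lit 23894241324, nat_lit 24447518074, nat_lit 25879354759, nat_lit 26427658590, nat_lit 23651159800, nat_lit 24150188960, nat_lit 25563533418, nat_lit 26062055736], nat_lit 1271250, nat_lit 1271250, nat_lit 1271250, nat_lit 1271250, nat_lit 279600, nat_lit 490000, [nat_lit 230000, nat_lit 1100000, nat_lit 1442500], [nat_lit 55, nat_lit 40, nat_lit 40, nat_lit 80, nat_lit 3, nat_lit 226, nat_lit 20, nat_lit 7]⟩, ⟨p108_k7, nat_lit 0, nat_lit 0, nat_lit 480, nat_lit 0, nat_lit 207734, [nat_lit 1393750000, nat_lit 2647456000, nat_lit 3657200000], [], [nat_lit 9991064502, nat_lit 10005347402, nat_lit 10324364302, nat_lit 10288090798, nat_lit 7612906909, nat_lit 7565467439, nat_lit 7868273315, nat_lit 7806672206], nat_lit 1271250, nat_lit 1271250, nat_lit 1271250, nat_lit 1271250,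 nat_lit 0, nat_lit 2373000, [nat_lit 1412500, nat_lit 1271250, nat_lit 1271250], [nat_lit 104, nat_lit 40, nat_lit 40, nat_lit 80, nat_lit 76, nat_lit 456, nat_lit 225, nat_lit 10]⟩,
 ⟨nat_lit 0, nat_lit 1582, ⟨.ofNat (nat_lit 554633), .ofNat (nat_lit 636584), .ofNat (nat_lit 601257), .ofNat (nat_lit 683216), .ofNat (nat_lit 549998), .ofNat (nat_lit 624995), .ofNat (nat_lit 599992), .ofNat (nat_lit 674997)⟩, ⟨.ofNat (nat_lit 120000), .ofNat (nat_lit 200000), .ofNat (nat_lit 120000), .ofNat (nat_lit 200000), .ofNat (nat_lit 120000), .ofNat (nat_lit 200000), .ofNat (nat_lit 120000), .ofNat (nat_lit 200000)⟩⟩, [⟨nat_lit 13, nat_lit 22, nat_lit 95, nat_lit 100, nat_lit 505516131⟩, ⟨nat_lit 3, nat_lit 100, nat_lit 25, nat_lit 86, nat_lit 473083147⟩, ⟨nat_lit 22, nat_lit 100, nat_lit 95, nat_lit 78, nat_lit 6945035⟩]⟩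
noncomputable def p108_l57 : Lf2 := ⟨nat_lit 1, nat_lit 30, [nat_lit 15, nat_lit 5, nat_lit 5, nat_lit 20], false, nat_lit 32, nat_lit 80, nat_lit 0, nat_lit 336, zbN0,
 nat_lit 0, nat_lit 0, nat_lit 0, nat_lit 0, nat_lit 0, nat_lit 0, nat_lit 0, nat_lit 0, nat_lit 0, nat_lit 0, nat_lit 0, nat_lit 0, nat_lit 0, nat_lit 0, nat_lit 0, nat_lit 0, nat_lit 0, nat_lit 0, [],
 C1.Rw.none, C1.Rw.none,
 zbF0, []⟩
noncomputable def p108_l58 : Lf2 := ⟨nat_lit 0, nat_lit 25, [nat_lit 44, nat_lit 5, nat_lit 5, nat_lit 20], false, nat_lit 80, nat_lit 188, nat_lit 0, nat_lit 376, ⟨nat_lit 407, nat_lit 0, nat_lit 593, nat_lit 6, nat_lit 255, nat_lit 593, nat_lit 111, nat_lit 593, nat_lit 114817, nat_lit 298, nat_lit 173340, nat_lit 200, nat_lit 43545647, nat_lit 0, nat_lit 0, nat_lit 4401378, true, true⟩,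
 nat_lit 12052, nat_lit 0, nat_lit 0, nat_lit 0, nat_lit 3388, nat_lit 5165, nat_lit 0, nat_lit 0, nat_lit 0, nat_lit 232, nat_lit 0, nat_lit 0, nat_lit 0, nat_lit 0, nat_lit 0, nat_lit 115635, nat_lit 0, nat_lit 0, [(nat_lit 29, [(nat_lit 3, nat_lit 593)])],
 ⟨p108_k11, nat_lit 0, nat_lit 0, nat_lit 119, nat_lit 0, nat_lit 14400, [nat_lit 1061106801, nat_lit 1106042801, nat_lit 1356564000], [], [nat_lit 23940193888, nat_lit 24599377936, nat_lit 27160882971, nat_lit 27716645495, nat_lit 24945730285, nat_lit 25507101829, nat_lit 27752216695, nat_lit 28237452806], nat_lit 1271250, nat_lit 1271250, nat_lit 1271250, nat_lit 1271250, nat_lit 490000, nat_lit 1333750, [nat_lit 230000, nat_lit 1100000, nat_lit 1442500], [nat_lit 55, nat_lit 40, nat_lit 40, nat_lit 80, nat_lit 3, nat_lit 260, nat_lit 50, nat_lit 8]⟩, ⟨p108_k7, nat_lit 0, nat_lit 0, nat_lit 412, nat_lit 0, nat_lit 43647, [nat_lit 2543750000, nat_lit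 4831904000, nat_lit 6674800000], [], [nat_lit 17243218136, nat_lit 17648149984, nat_lit 19377366357, nat_lit 19533435620, nat_lit 15337482076, nat_lit 14790288430, nat_lit 15523978610, nat_lit 15283782358], nat_lit 1271250, nat_lit 1271250, nat_lit 1271250, nat_lit 1271250, nat_lit 0, nat_lit 2655500, [nat_lit 1412500, nat_lit 1271250, nat_lit 1271250], [nat_lit 104, nat_lit 40, nat_lit 40, nat_lit 80, nat_lit 76, nat_lit 483, nat_lit 250, nat_lit 10]⟩,
 ⟨nat_lit 1581, nat_lit 2237, ⟨.ofNat (nat_lit 557014), .ofNat (nat_lit 676747), .ofNat (nat_lit 602558), .ofNat (nat_lit 722295), .ofNat (nat_lit 554634), .ofNat (nat_lit 669369), .ofNat (nat_lit 601260), .ofNat (nat_lit 715999)⟩, ⟨.ofNat (nat_lit 192306), .ofNat (nat_lit 346248), .ofNat (nat_lit 200000), .ofNat (nat_lit 369022), .ofNat (nat_lit 196201), .ofNat (nat_lit 343718), .ofNat (nat_lit 200000), .ofNat (nat_lit 367033)⟩⟩, [⟨nat_lit 13, nat_lit 38,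 nat_lit 89, nat_lit 100, nat_lit 83651567⟩, ⟨nat_lit 4, nat_lit 100, nat_lit 39, nat_lit 85, nat_lit 345183414⟩, ⟨nat_lit 22, nat_lit 97, nat_lit 73, nat_lit 100, nat_lit 25364239⟩]⟩
noncomputable def p108_l59 : Lf2 := ⟨nat_lit 0, nat_lit 25, [nat_lit 44, nat_lit 5, nat_lit 5, nat_lit 20], true, nat_lit 80, nat_lit 160, nat_lit 0, nat_lit 376, ⟨nat_lit 0, nat_lit 936, nat_lit 64, nat_lit 6, nat_lit 246, nat_lit 1000, nat_lit 103, nat_lit 64, nat_lit 98817, nat_lit 292, nat_lit 95182, nat_lit 200, nat_lit 44770255, nat_lit 17726953, nat_lit 4502792, nat_lit 4255971, true, true⟩,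
 nat_lit 0, nat_lit 3246, nat_lit 0, nat_lit 911, nat_lit 3138, nat_lit 0, nat_lit 0, nat_lit 0, nat_lit 0, nat_lit 0, nat_lit 0, nat_lit 0, nat_lit 0, nat_lit 0, nat_lit 0, nat_lit 246480, nat_lit 0, nat_lit 0, [(nat_lit 29, [(nat_lit 0, nat_lit 936), (nat_lit 3, nat_lit 64)])],
 ⟨p108_k12, nat_lit 0, nat_lit 0, nat_lit 116, nat_lit 0, nat_lit 91901, [nat_lit 804896001, nat_lit 1200758400], [], [nat_lit 24190406418, nat_lit 24769340224, nat_lit 26176848584, nat_lit 26868809916, nat_lit 24756144263, nat_lit 25270907433, nat_lit 26538777218, nat_lit 27011307808], nat_lit 1271250, nat_lit 1271250, nat_lit 1271250, nat_lit 1271250, nat_lit 490000, nat_lit 1100001, [nat_lit 230000, nat_lit 1100000], [nat_lit 86, nat_lit 40, nat_lit 40, nat_lit 80, nat_lit 87, nat_lit 249, nat_lit 40, nat_lit 10]⟩, C1.Rw.none,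
 ⟨nat_lit 0, nat_lit 1582, ⟨.ofNat (nat_lit 554633), .ofNat (nat_lit 636584), .ofNat (nat_lit 601257), .ofNat (nat_lit 683216), .ofNat (nat_lit 549998), .ofNat (nat_lit 624995), .ofNat (nat_lit 599992), .ofNat (nat_lit 674997)⟩, ⟨.ofNat (nat_lit 196201), .ofNat (nat_lit 305469), .ofNat (nat_lit 200000), .ofNat (nat_lit 328785), .ofNat (nat_lit 199999), .ofNat (nat_lit 299995), .ofNat (nat_lit 200000), .ofNat (nat_lit 324996)⟩⟩, [⟨nat_lit 13, nat_lit 22, nat_lit 95, nat_lit 100, nat_lit 494915305⟩, ⟨nat_lit 13, nat_lit 32, nat_lit 89, nat_lit 100, nat_lit 136774697⟩, ⟨nat_lit 16, nat_lit 24, nat_lit 100, nat_lit 89, nat_lit 13589109⟩]⟩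
noncomputable def p108_l60 : Lf2 := ⟨nat_lit 1, nat_lit 25, [nat_lit 44, nat_lit 5, nat_lit 5, nat_lit 20], false, nat_lit 80, nat_lit 188, nat_lit 0, nat_lit 376, zbN0,
 nat_lit 0, nat_lit 0, nat_lit 0, nat_lit 0, nat_lit 0, nat_lit 0, nat_lit 0, nat_lit 0, nat_lit 0, nat_lit 0, nat_lit 0, nat_lit 0, nat_lit 0, nat_lit 0, nat_lit 0, nat_lit 0, nat_lit 0, nat_lit 0, [],
 C1.Rw.none, C1.Rw.none,
 zbF0, []⟩
noncomputable def p108_l61 : Lf2 := ⟨nat_lit 1, nat_lit 30, [nat_lit 15, nat_lit 5, nat_lit 5, nat_lit 20], false, nat_lit 80, nat_lit 208, nat_lit 0, nat_lit 384, zbN0,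
 nat_lit 0, nat_lit 0, nat_lit 0, nat_lit 0, nat_lit 0, nat_lit 0, nat_lit 0, nat_lit 0, nat_lit 0, nat_lit 0, nat_lit 0, nat_lit 0, nat_lit 0, nat_lit 0, nat_lit 0, nat_lit 0, nat_lit 0, nat_lit 0, [],
 C1.Rw.none, C1.Rw.none,
 zbF0, []⟩
noncomputable def p108_l62 : Lf2 := ⟨nat_lit 0, nat_lit 30, [nat_lit 15, nat_lit 5, nat_lit 5, nat_lit 20], true, nat_lit 80, nat_lit 160, nat_lit 0, nat_lit 384, ⟨nat_lit 0, nat_lit 540, nat_lit 460, nat_lit 6, nat_lit 242, nat_lit 1000, nat_lit 108, nat_lit 460, nat_lit 109350, nat_lit 296, nat_lit 43036, nat_lit 200, nat_lit 44863688, nat_lit 17266665, nat_lit 4869647, nat_lit 4295089, true, true⟩,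
 nat_lit 0, nat_lit 2695, nat_lit 0, nat_lit 8228, nat_lit 2561, nat_lit 0, nat_lit 0, nat_lit 0, nat_lit 0, nat_lit 0, nat_lit 0, nat_lit 0, nat_lit 0, nat_lit 0, nat_lit 10, nat_lit 244940, nat_lit 0, nat_lit 0, [(nat_lit 29, [(nat_lit 0, nat_lit 541), (nat_lit 3, nat_lit 92), (nat_lit 4, nat_lit 367)])],
 ⟨p108_k6, nat_lit 0, nat_lit 0, nat_lit 113, nat_lit 0, nat_lit 17033, [nat_lit 847748000, nat_lit 127392001, nat_lit 19984400], [], [nat_lit 22886852790, nat_lit 23171619692, nat_lit 24794722625, nat_lit 25113569999, nat_lit 23619784818, nat_lit 23879830708, nat_lit 25359374082, nat_lit 25594743319], nat_lit 1271250, nat_lit 1271250, nat_lit 1271250, nat_lit 1271250, nat_lit 490000, nat_lit 1100001, [nat_lit 230000, nat_lit 1100000, nat_lit 1442500], [nat_lit 55, nat_lit 40, nat_lit 40, nat_lit 80, nat_lit 3, nat_lit 249, nat_lit 40, nat_lit 8]⟩, C1.Rw.none,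
 ⟨nat_lit 1581, nat_lit 1937, ⟨.ofNat (nat_lit 555888), .ofNat (nat_lit 634132), .ofNat (nat_lit 578898), .ofNat (nat_lit 657143), .ofNat (nat_lit 554634), .ofNat (nat_lit 631124), .ofNat (nat_lit 577949), .ofNat (nat_lit 654439)⟩, ⟨.ofNat (nat_lit 200000), .ofNat (nat_lit 329055), .ofNat (nat_lit 200000), .ofNat (nat_lit 352066), .ofNat (nat_lit 200000), .ofNat (nat_lit 328788), .ofNat (nat_lit 200000), .ofNat (nat_lit 352103)⟩⟩, [⟨nat_lit 13, nat_lit 31, nat_lit 95, nat_lit 100, nat_lit 584404701⟩]⟩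
noncomputable def p108_l63 : Lf2 := ⟨nat_lit 0, nat_lit 30, [nat_lit 15, nat_lit 5, nat_lit 5, nat_lit 20], false, nat_lit 80, nat_lit 160, nat_lit 0, nat_lit 376, ⟨nat_lit 258, nat_lit 230, nat_lit 512, nat_lit 6, nat_lit 256, nat_lit 742, nat_lit 108, nat_lit 512, nat_lit 109350, nat_lit 296, nat_lit 133770, nat_lit 200, nat_lit 43599489, nat_lit 18603316, nat_lit 4797195, nat_lit 4375491, true, true⟩,
 nat_lit 6509, nat_lit 0, nat_lit 0, nat_lit 0, nat_lit 3271, nat_lit 3113, nat_lit 0, nat_lit 0, nat_lit 0, nat_lit 157, nat_lit 0, nat_lit 0, nat_lit 0, nat_lit 0, nat_lit 0, nat_lit 157340, nat_lit 0, nat_lit 0, [(nat_lit 29, [(nat_lit 0, nat_lit 230), (nat_lit 3, nat_lit 512)])],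
 ⟨p108_k6, nat_lit 0, nat_lit 0, nat_lit 117, nat_lit 0, nat_lit 17940, [nat_lit 1008319200, nat_lit 833647200, nat_lit 998348000], [], [nat_lit 23920157829, nat_lit 24244283262, nat_lit 26599086933, nat_lit 26941954112, nat_lit 24367627598, nat_lit 24655711388, nat_lit 26786151976, nat_lit 27041694439], nat_lit 1271250, nat_lit 1271250, nat_lit 1271250, nat_lit 1271250, nat_lit 490000, nat_lit 1100001, [nat_lit 230000, nat_lit 1100000, nat_lit 1442500], [nat_lit 55, nat_lit 40, nat_lit 40, nat_lit 80, nat_lit 3, nat_lit 249, nat_lit 40, nat_lit 8]⟩, ⟨p108_k13, nat_lit 0, nat_lit 0, nat_lit 408, nat_lit 0, nat_lit 45095, [nat_lit 1612500000, nat_lit 3062976000, nat_lit 4231200000], [], [nat_lit 10518055043, nat_lit 10646494923, nat_lit 11544113045, nat_lit 11608585037, nat_lit 9051522630, nat_lit 9021586320, nat_lit 9330184489, nat_lit 9270833002], nat_lit 1271250, nat_lit 1271250, nat_lit 1271250, nat_lit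 1271250, nat_lit 0, nat_lit 2655500, [nat_lit 1412500, nat_lit 1271250, nat_lit 1271250], [nat_lit 104, nat_lit 40, nat_lit 40, nat_lit 80, nat_lit 76, nat_lit 483, nat_lit 250, nat_lit 10]⟩,
 ⟨nat_lit 1581, nat_lit 1937, ⟨.ofNat (nat_lit 578898), .ofNat (nat_lit 679499), .ofNat (nat_lit 601908), .ofNat (nat_lit 702510), .ofNat (nat_lit 577949), .ofNat (nat_lit 676294), .ofNat (nat_lit 601263), .ofNat (nat_lit 699609)⟩, ⟨.ofNat (nat_lit 200000), .ofNat (nat_lit 329055), .ofNat (nat_lit 200000), .ofNat (nat_lit 352066), .ofNat (nat_lit 200000), .ofNat (nat_lit 328788), .ofNat (nat_lit 200000), .ofNat (nat_lit 352103)⟩⟩, [⟨nat_lit 13, nat_lit 35, nat_lit 88, nat_lit 100, nat_lit 237090380⟩, ⟨nat_lit 22, nat_lit 100, nat_lit 78, nat_lit 99, nat_lit 20499591⟩]⟩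
noncomputable def p108_l64 : Lf2 := ⟨nat_lit 0, nat_lit 30, [nat_lit 15, nat_lit 5, nat_lit 5, nat_lit 20], true, nat_lit 160, nat_lit 196, nat_lit 0, nat_lit 384, ⟨nat_lit 0, nat_lit 1000, nat_lit 0, nat_lit 6, nat_lit 251, nat_lit 1000, nat_lit 146, nat_lit 0, nat_lit 0, nat_lit 0, nat_lit 0, nat_lit 0, nat_lit 41922259, nat_lit 17619038, nat_lit 7458703, nat_lit 4764151, true, true⟩,
 nat_lit 0, nat_lit 3254, nat_lit 0, nat_lit 7739, nat_lit 3092, nat_lit 0, nat_lit 0, nat_lit 0, nat_lit 0, nat_lit 0, nat_lit 0, nat_lit 0, nat_lit 0, nat_lit 0, nat_lit 0, nat_lit 250000, nat_lit 0, nat_lit 0, [(nat_lit 29, [(nat_lit 0, nat_lit 1000)])],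
 ⟨p108_k6, nat_lit 0, nat_lit 0, nat_lit 78, nat_lit 0, nat_lit 26576, [nat_lit 781600001, nat_lit 1376400001, nat_lit 1786400000], [], [nat_lit 24080310915, nat_lit 24384999677, nat_lit 26620319507, nat_lit 26884586852, nat_lit 24847795908, nat_lit 25136333093, nat_lit 27251169957, nat_lit 27502038666], nat_lit 1271250, nat_lit 1271250, nat_lit 1271250, nat_lit 1271250, nat_lit 1100001, nat_lit 1408250, [nat_lit 230000, nat_lit 1100000, nat_lit 1442500], [nat_lit 55, nat_lit 40, nat_lit 40, nat_lit 80, nat_lit 3, nat_lit 260, nat_lit 50, nat_lit 8]⟩, C1.Rw.none,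
 ⟨nat_lit 1581, nat_lit 1937, ⟨.ofNat (nat_lit 555888), .ofNat (nat_lit 656488), .ofNat (nat_lit 601908), .ofNat (nat_lit 702510), .ofNat (nat_lit 554634), .ofNat (nat_lit 652979), .ofNat (nat_lit 601263), .ofNat (nat_lit 699609)⟩, ⟨.ofNat (nat_lit 329055), .ofNat (nat_lit 379355), .ofNat (nat_lit 352066), .ofNat (nat_lit 402366), .ofNat (nat_lit 328788), .ofNat (nat_lit 377960), .ofNat (nat_lit 352103), .ofNat (nat_lit 401275)⟩⟩, [⟨nat_lit 13, nat_lit 39, nat_lit 85, nat_lit 100, nat_lit 427288656⟩, ⟨nat_lit 16, nat_lit 35, nat_lit 100, nat_lit 90, nat_lit 305417905⟩]⟩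
noncomputable def p108_l65 : Lf2 := ⟨nat_lit 1, nat_lit 30, [nat_lit 15, nat_lit 5, nat_lit 5, nat_lit 20], false, nat_lit 80, nat_lit 208, nat_lit 0, nat_lit 384, zbN0,
 nat_lit 0, nat_lit 0, nat_lit 0, nat_lit 0, nat_lit 0, nat_lit 0, nat_lit 0, nat_lit 0, nat_lit 0, nat_lit 0, nat_lit 0, nat_lit 0, nat_lit 0, nat_lit 0, nat_lit 0, nat_lit 0, nat_lit 0, nat_lit 0, [],
 C1.Rw.none, C1.Rw.none,
 zbF0, []⟩
noncomputable def p108_l66 : Lf2 := ⟨nat_lit 0, nat_lit 30, [nat_lit 15, nat_lit 5, nat_lit 5, nat_lit 20], false, nat_lit 80, nat_lit 120, nat_lit 0, nat_lit 364, ⟨nat_lit 173, nat_lit 326, nat_lit 501, nat_lit 6, nat_lit 246, nat_lit 827, nat_lit 97, nat_lit 501, nat_lit 88817, nat_lit 288, nat_lit 95182, nat_lit 200, nat_lit 45055026, nat_lit 17787793, nat_lit 4157181, nat_lit 4188889, true, true⟩,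
 nat_lit 5041, nat_lit 0, nat_lit 0, nat_lit 0, nat_lit 2767, nat_lit 2160, nat_lit 0, nat_lit 0, nat_lit 0, nat_lit 105, nat_lit 0, nat_lit 0, nat_lit 0, nat_lit 0, nat_lit 0, nat_lit 206750, nat_lit 0, nat_lit 0, [(nat_lit 29, [(nat_lit 0, nat_lit 326), (nat_lit 4, nat_lit 501)])],
 ⟨p108_k8, nat_lit 0, nat_lit 0, nat_lit 134, nat_lit 0, nat_lit 69834, [nat_lit 798637200, nat_lit 368551601, nat_lit 349994400], [], [nat_lit 23786190001, nat_lit 24292773125, nat_lit 25668188271, nat_lit 26257853794, nat_lit 24099137679, nat_lit 24584071371, nat_lit 25925283175, nat_lit 26417587675], nat_lit 1271250, nat_lit 1271250, nat_lit 1271250, nat_lit 1271250, nat_lit 490000, nat_lit 780000, [nat_lit 230000, nat_lit 1100000, nat_lit 1442500], [nat_lit 55, nat_lit 40, nat_lit 40, nat_lit 80, nat_lit 3, nat_lit 238, nat_lit 30, nat_lit 7]⟩, ⟨p108_k7, nat_lit 0, nat_lit 0, nat_lit 480, nat_lit 0, nat_lit 207734, [nat_lit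 1081250000, nat_lit 2053856000, nat_lit 2837200000], [], [nat_lit 7679638334, nat_lit 7691187970, nat_lit 7938128070, nat_lit 7905465886, nat_lit 6325490628, nat_lit 6087839408, nat_lit 6291757445, nat_lit 6224596632], nat_lit 1271250, nat_lit 1271250, nat_lit 1271250, nat_lit 1271250, nat_lit 0, nat_lit 2570750, [nat_lit 1412500, nat_lit 1271250, nat_lit 1271250], [nat_lit 104, nat_lit 40, nat_lit 40, nat_lit 80, nat_lit 76, nat_lit 483, nat_lit 250, nat_lit 10]⟩,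
 ⟨nat_lit 0, nat_lit 1582, ⟨.ofNat (nat_lit 554633), .ofNat (nat_lit 636584), .ofNat (nat_lit 601257), .ofNat (nat_lit 683216), .ofNat (nat_lit 549998), .ofNat (nat_lit 624995), .ofNat (nat_lit 599992), .ofNat (nat_lit 674997)⟩, ⟨.ofNat (nat_lit 200000), .ofNat (nat_lit 274152), .ofNat (nat_lit 200000), .ofNat (nat_lit 297467), .ofNat (nat_lit 200000), .ofNat (nat_lit 274999), .ofNat (nat_lit 200000), .ofNat (nat_lit 299999)⟩⟩, [⟨nat_lit 13, nat_lit 22, nat_lit 95, nat_lit 100, nat_lit 510404771⟩, ⟨nat_lit 22, nat_lit 100, nat_lit 82, nat_lit 92, nat_lit 11708262⟩]⟩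
noncomputable def p108_l67 : Lf2 := ⟨nat_lit 0, nat_lit 30, [nat_lit 15, nat_lit 5, nat_lit 5, nat_lit 20], true, nat_lit 120, nat_lit 184, nat_lit 0, nat_lit 384, ⟨nat_lit 0, nat_lit 584, nat_lit 416, nat_lit 6, nat_lit 241, nat_lit 1000, nat_lit 131, nat_lit 416, nat_lit 163350, nat_lit 314, nat_lit 40548, nat_lit 200, nat_lit 43652310, nat_lit 16870205, nat_lit 6477485, nat_lit 4554757, true, true⟩,
 nat_lit 0, nat_lit 2669, nat_lit 0, nat_lit 904, nat_lit 2580, nat_lit 0, nat_lit 0, nat_lit 0, nat_lit 0, nat_lit 0, nat_lit 0, nat_lit 0, nat_lit 0, nat_lit 0, nat_lit 3, nat_lit 250000, nat_lit 0, nat_lit 0, [(nat_lit 29, [(nat_lit 0, nat_lit 584), (nat_lit 4, nat_lit 416)])],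
 ⟨p108_k8, nat_lit 0, nat_lit 0, nat_lit 125, nat_lit 0, nat_lit 100255, [nat_lit 785280001, nat_lit 111836801, nat_lit 12505600], [], [nat_lit 23610902101, nat_lit 24157329361, nat_lit 24845568211, nat_lit 25354307081, nat_lit 24442984961, nat_lit 24947415106, nat_lit 25588654855, nat_lit 26060442452], nat_lit 1271250, nat_lit 1271250, nat_lit 1271250, nat_lit 1271250, nat_lit 780000, nat_lit 1304000, [nat_lit 230000, nat_lit 1100000, nat_lit 1442500], [nat_lit 55, nat_lit 40, nat_lit 40, nat_lit 80, nat_lit 3, nat_lit 260, nat_lit 50, nat_lit 8]⟩, C1.Rw.none,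
 ⟨nat_lit 0, nat_lit 1582, ⟨.ofNat (nat_lit 554633), .ofNat (nat_lit 609267), .ofNat (nat_lit 601257), .ofNat (nat_lit 655899), .ofNat (nat_lit 549998), .ofNat (nat_lit 599996), .ofNat (nat_lit 599992), .ofNat (nat_lit 649998)⟩, ⟨.ofNat (nat_lit 274152), .ofNat (nat_lit 361566), .ofNat (nat_lit 297467), .ofNat (nat_lit 384882), .ofNat (nat_lit 274999), .ofNat (nat_lit 354996), .ofNat (nat_lit 299999), .ofNat (nat_lit 379997)⟩⟩, [⟨nat_lit 4, nat_lit 100, nat_lit 23, nat_lit 92, nat_lit 319794777⟩]⟩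
noncomputable def p108_l68 : Lf2 := ⟨nat_lit 0, nat_lit 30, [nat_lit 15, nat_lit 5, nat_lit 5, nat_lit 20], true, nat_lit 120, nat_lit 184, nat_lit 0, nat_lit 380, ⟨nat_lit 0, nat_lit 737, nat_lit 263, nat_lit 7, nat_lit 257, nat_lit 1000, nat_lit 131, nat_lit 263, nat_lit 163350, nat_lit 314, nat_lit 95182, nat_lit 200, nat_lit 42281116, nat_lit 18357768, nat_lit 6361116, nat_lit 4640795, true, true⟩,
 nat_lit 0, nat_lit 3163, nat_lit 0, nat_lit 3598, nat_lit 3058, nat_lit 0, nat_lit 0, nat_lit 0, nat_lit 0, nat_lit 0, nat_lit 0, nat_lit 0, nat_lit 0, nat_lit 0, nat_lit 0, nat_lit 235535, nat_lit 0, nat_lit 0, [(nat_lit 29, [(nat_lit 0, nat_lit 737), (nat_lit 3, nat_lit 263)])],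
 ⟨p108_k8, nat_lit 0, nat_lit 0, nat_lit 129, nat_lit 0, nat_lit 100255, [nat_lit 877332001, nat_lit 658725600, nat_lit 790050800], [], [nat_lit 25571110962, nat_lit 26127285632, nat_lit 26303481135, nat_lit 26837481466, nat_lit 26187019950, nat_lit 26698957168, nat_lit 26863524515, nat_lit 27356515930], nat_lit 1271250, nat_lit 1271250, nat_lit 1271250, nat_lit 1271250, nat_lit 780000, nat_lit 1304000, [nat_lit 230000, nat_lit 1100000, nat_lit 1442500], [nat_lit 55, nat_lit 40, nat_lit 40, nat_lit 80, nat_lit 3, nat_lit 260, nat_lit 50, nat_lit 8]⟩, C1.Rw.none,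
 ⟨nat_lit 0, nat_lit 1582, ⟨.ofNat (nat_lit 609267), .ofNat (nat_lit 636584), .ofNat (nat_lit 655899), .ofNat (nat_lit 683216), .ofNat (nat_lit 599996), .ofNat (nat_lit 624995), .ofNat (nat_lit 649998), .ofNat (nat_lit 674997)⟩, ⟨.ofNat (nat_lit 274152), .ofNat (nat_lit 361566), .ofNat (nat_lit 297467), .ofNat (nat_lit 384882), .ofNat (nat_lit 274999), .ofNat (nat_lit 354996), .ofNat (nat_lit 299999), .ofNat (nat_lit 379997)⟩⟩, [⟨nat_lit 13, nat_lit 32, nat_lit 89, nat_lit 100, nat_lit 635143730⟩, ⟨nat_lit 16, nat_lit 31, nat_lit 100, nat_lit 92, nat_lit 195126762⟩]⟩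
noncomputable def p108_l69 : Lf2 := ⟨nat_lit 1, nat_lit 30, [nat_lit 15, nat_lit 5, nat_lit 5, nat_lit 20], false, nat_lit 80, nat_lit 208, nat_lit 0, nat_lit 384, zbN0,
 nat_lit 0, nat_lit 0, nat_lit 0, nat_lit 0, nat_lit 0, nat_lit 0, nat_lit 0, nat_lit 0, nat_lit 0, nat_lit 0, nat_lit 0, nat_lit 0, nat_lit 0, nat_lit 0, nat_lit 0, nat_lit 0, nat_lit 0, nat_lit 0, [],
 C1.Rw.none, C1.Rw.none,
 zbF0, []⟩
noncomputable def b_V_900_500_20_31 : St := ⟨true, nat_lit 1, nat_lit 1, nat_lit 1, nat_lit 120, nat_lit 360, nat_lit 400, nat_lit 200, nat_lit 240, nat_lit 80, nat_lit 352, nat_lit 80, nat_lit 120, nat_lit 8, nat_lit 248, nat_lit 0, nat_lit 384, nat_lit 120, nat_lit 148, nat_lit 0, nat_lit 0, nat_lit 0, nat_lit 0⟩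
theorem d_V_900_500_20_31 (h : EB TB.env) : Dead b_V_900_500_20_31 := chkB_sound0 h (T :=
(.spl (nat_lit 2) (nat_lit 240)
(.spl (nat_lit 4) (nat_lit 160)
(.spl (nat_lit 4) (nat_lit 80)
(.spl (nat_lit 0) (nat_lit 380)
(.spl (nat_lit 6) (nat_lit 128)
(.spl (nat_lit 0) (nat_lit 370)
(.leaf p108_l42)
(.trZ (nat_lit 0) (nat_lit 100) (nat_lit 53) (nat_lit 85) (nat_lit 92) (.trZ (nat_lit 3) (nat_lit 100) (nat_lit 66) (nat_lit 45) (nat_lit 12) (.leaf p108_l43))))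
(.leaf p108_l44))
(.trZ (nat_lit 0) (nat_lit 100) (nat_lit 44) (nat_lit 90) (nat_lit 112) (.trZ (nat_lit 3) (nat_lit 100) (nat_lit 54) (nat_lit 57) (nat_lit 20) (.spl (nat_lit 0) (nat_lit 390)
(.leaf p108_l45)
(.trZ (nat_lit 0) (nat_lit 100) (nat_lit 31) (nat_lit 95) (nat_lit 136) (.trZ (nat_lit 3) (nat_lit 100) (nat_lit 39) (nat_lit 72) (nat_lit 36) (.leaf p108_l46)))))))
(.spl (nat_lit 0) (nat_lit 380)
(.leaf p108_l47)
(.trZ (nat_lit 0) (nat_lit 100) (nat_lit 44) (nat_lit 90) (nat_lit 112) (.leaf p108_l48))))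
(.spl (nat_lit 0) (nat_lit 380)
(.leaf p108_l49)
(.trZ (nat_lit 0) (nat_lit 100) (nat_lit 44) (nat_lit 90) (nat_lit 112) (.trX (nat_lit 16) (nat_lit 44) (nat_lit 100) (nat_lit 92) (nat_lit 208) (.leaf p108_l50)))))
(.spl (nat_lit 0) (nat_lit 380)
(.spl (nat_lit 6) (nat_lit 128)
(.spl (nat_lit 3) (nat_lit 100)
(.trX (nat_lit 16) (nat_lit 60) (nat_lit 100) (nat_lit 87) (nat_lit 224) (.trX (nat_lit 19) (nat_lit 100) (nat_lit 50) (nat_lit 87) (nat_lit 376) (.leaf p108_l51)))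
(.trZ (nat_lit 3) (nat_lit 100) (nat_lit 69) (nat_lit 45) (nat_lit 16) (.leaf p108_l52)))
(.leaf p108_l53))
(.trX (nat_lit 13) (nat_lit 44) (nat_lit 81) (nat_lit 100) (nat_lit 324) (.trZ (nat_lit 3) (nat_lit 100) (nat_lit 54) (nat_lit 57) (nat_lit 20) (.trX (nat_lit 16) (nat_lit 44) (nat_lit 100) (nat_lit 92) (nat_lit 208) (.spl (nat_lit 4) (nat_lit 80)
(.trX (nat_lit 22) (nat_lit 100) (nat_lit 76) (nat_lit 82) (nat_lit 336) (.spl (nat_lit 3) (nat_lit 100)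
(.leaf p108_l54)
(.trZ (nat_lit 3) (nat_lit 100) (nat_lit 50) (nat_lit 65) (nat_lit 32) (.spl (nat_lit 6) (nat_lit 136)
(.spl (nat_lit 0) (nat_lit 390)
(.leaf p108_l55)
(.trX (nat_lit 13) (nat_lit 32) (nat_lit 89) (nat_lit 100) (nat_lit 300) (.trZ (nat_lit 3) (nat_lit 100) (nat_lit 36) (nat_lit 77) (nat_lit 48) (.leaf p108_l56))))
(.leaf p108_l57)))))
(.spl (nat_lit 3) (nat_lit 100)
(.trX (nat_lit 16) (nat_lit 44) (nat_lit 100) (nat_lit 87) (nat_lit 188) (.trX (nat_lit 19) (nat_lit 100) (nat_lit 50) (nat_lit 87) (nat_lit 376) (.spl (nat_lit 6) (nat_lit 132)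
(.spl (nat_lit 0) (nat_lit 390)
(.leaf p108_l58)
(.trX (nat_lit 13) (nat_lit 32) (nat_lit 89) (nat_lit 100) (nat_lit 300) (.trX (nat_lit 16) (nat_lit 32) (nat_lit 100) (nat_lit 88) (nat_lit 160) (.leaf p108_l59))))
(.leaf p108_l60))))
(.spl (nat_lit 6) (nat_lit 136)
(.spl (nat_lit 0) (nat_lit 390)
(.spl (nat_lit 6) (nat_lit 124)
(.spl (nat_lit 0) (nat_lit 385)
(.leaf p108_l61)
(.trX (nat_lit 13) (nat_lit 39) (nat_lit 85) (nat_lit 100) (nat_lit 312) (.trX (nat_lit 16) (nat_lit 38) (nat_lit 100) (nat_lit 92) (nat_lit 196) (.spl (nat_lit 4) (nat_lit 160)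
(.spl (nat_lit 1) (nat_lit 220)
(.trX (nat_lit 13) (nat_lit 38) (nat_lit 89) (nat_lit 100) (nat_lit 296) (.leaf p108_l62))
(.trX (nat_lit 19) (nat_lit 100) (nat_lit 49) (nat_lit 92) (nat_lit 376) (.leaf p108_l63)))
(.leaf p108_l64)))))
(.leaf p108_l65))
(.trX (nat_lit 13) (nat_lit 32) (nat_lit 89) (nat_lit 100) (nat_lit 300) (.trX (nat_lit 16) (nat_lit 31) (nat_lit 100) (nat_lit 92) (nat_lit 184) (.spl (nat_lit 4) (nat_lit 120)
(.trX (nat_lit 22) (nat_lit 100) (nat_lit 59) (nat_lit 94) (nat_lit 364) (.leaf p108_l66))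
(.spl (nat_lit 2) (nat_lit 280)
(.leaf p108_l67)
(.trX (nat_lit 22) (nat_lit 92) (nat_lit 47) (nat_lit 100) (nat_lit 380) (.leaf p108_l68)))))))
(.leaf p108_l69)))))))))) (by decide +kernel)
noncomputable def p108_l70 : Lf2 := ⟨nat_lit 0, nat_lit 30, [nat_lit 15, nat_lit 5, nat_lit 5, nat_lit 20], true, nat_lit 8, nat_lit 248, nat_lit 0, nat_lit 384, ⟨nat_lit 0, nat_lit 1000, nat_lit 0, nat_lit 5, nat_lit 218, nat_lit 1000, nat_lit 96, nat_lit 0, nat_lit 0, nat_lit 0, nat_lit 0, nat_lit 0, nat_lit 0, nat_lit 0, nat_lit 0, nat_lit 5000000, false, true⟩,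
 nat_lit 0, nat_lit 4662, nat_lit 0, nat_lit 5681, nat_lit 4060, nat_lit 0, nat_lit 0, nat_lit 0, nat_lit 0, nat_lit 0, nat_lit 0, nat_lit 0, nat_lit 0, nat_lit 0, nat_lit 0, nat_lit 355600, nat_lit 0, nat_lit 0, [(nat_lit 26, [(nat_lit 0, nat_lit 296), (nat_lit 1, nat_lit 704)])],
 ⟨p108_k14, nat_lit 0, nat_lit 0, nat_lit 285, nat_lit 0, nat_lit 38766, [nat_lit 1040160001, nat_lit 1370022982], [], [nat_lit 27601909997, nat_lit 28739733249, nat_lit 31883320982, nat_lit 32677869319, nat_lit 27210926637, nat_lit 28070351988, nat_lit 31368096359, nat_lit 30902996898], nat_lit 1271250, nat_lit 1271250, nat_lit 490000, nat_lit 2615000, nat_lit 43600, nat_lit 1756600, [nat_lit 230000, nat_lit 2015000], [nat_lit 132, nat_lit 40, nat_lit 40, nat_lit 80, nat_lit 133, nat_lit 373, nat_lit 150, nat_lit 11]⟩, C1.Rw.none,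
 ⟨nat_lit 2236, nat_lit 3163, ⟨.ofNat (nat_lit 316827), .ofNat (nat_lit 731621), .ofNat (nat_lit 361011), .ofNat (nat_lit 775931), .ofNat (nat_lit 328641), .ofNat (nat_lit 716658), .ofNat (nat_lit 374063), .ofNat (nat_lit 762206)⟩, ⟨.ofNat (nat_lit 20000), .ofNat (nat_lit 440213), .ofNat (nat_lit 20000), .ofNat (nat_lit 484523), .ofNat (nat_lit 20000), .ofNat (nat_lit 431772), .ofNat (nat_lit 20000), .ofNat (nat_lit 477320)⟩⟩, [⟨nat_lit 13, nat_lit 53, nat_lit 80, nat_lit 100, nat_lit 197551653⟩, ⟨nat_lit 16, nat_lit 53, nat_lit 100, nat_lit 87, nat_lit 59751676⟩]⟩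
noncomputable def p108_l71 : Lf2 := ⟨nat_lit 0, nat_lit 30, [nat_lit 15, nat_lit 5, nat_lit 5, nat_lit 20], true, nat_lit 20, nat_lit 208, nat_lit 0, nat_lit 384, ⟨nat_lit 0, nat_lit 1000, nat_lit 0, nat_lit 5, nat_lit 218, nat_lit 1000, nat_lit 88, nat_lit 0, nat_lit 0, nat_lit 0, nat_lit 0, nat_lit 0, nat_lit 0, nat_lit 0, nat_lit 0, nat_lit 5000000, false, true⟩,
 nat_lit 0, nat_lit 2971, nat_lit 0, nat_lit 4010, nat_lit 2776, nat_lit 0, nat_lit 11, nat_lit 0, nat_lit 0, nat_lit 0, nat_lit 0, nat_lit 0, nat_lit 0, nat_lit 0, nat_lit 0, nat_lit 400000, nat_lit 0, nat_lit 0, [(nat_lit 29, [(nat_lit 1, nat_lit 1000)])],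
 ⟨p108_k1, nat_lit 0, nat_lit 0, nat_lit 276, nat_lit 0, nat_lit 200403, [nat_lit 698400000, nat_lit 197600001, nat_lit 54800000], [], [nat_lit 22095522249, nat_lit 23511275615, nat_lit 27490042300, nat_lit 28756015540, nat_lit 23207903245, nat_lit 24146541346, nat_lit 27554838721, nat_lit 28384351309], nat_lit 1271250, nat_lit 1271250, nat_lit 719601, nat_lit 2439450, nat_lit 111251, nat_lit 1474250, [nat_lit 230000, nat_lit 1100000, nat_lit 1785000], [nat_lit 57, nat_lit 40, nat_lit 40, nat_lit 80, nat_lit 7, nat_lit 373, nat_lit 150, nat_lit 12]⟩, C1.Rw.none,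
 ⟨nat_lit 0, nat_lit 2237, ⟨.ofNat (nat_lit 370513), .ofNat (nat_lit 676741), .ofNat (nat_lit 414208), .ofNat (nat_lit 722292), .ofNat (nat_lit 385947), .ofNat (nat_lit 654993), .ofNat (nat_lit 434094), .ofNat (nat_lit 704996)⟩, ⟨.ofNat (nat_lit 50000), .ofNat (nat_lit 374750), .ofNat (nat_lit 50000), .ofNat (nat_lit 420300), .ofNat (nat_lit 50000), .ofNat (nat_lit 359993), .ofNat (nat_lit 50000), .ofNat (nat_lit 409994)⟩⟩, [⟨nat_lit 13, nat_lit 31, nat_lit 92, nat_lit 100, nat_lit 486318522⟩, ⟨nat_lit 4, nat_lit 100, nat_lit 32, nat_lit 88, nat_lit 164326596⟩]⟩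
noncomputable def p108_l72 : Lf2 := ⟨nat_lit 0, nat_lit 30, [nat_lit 15, nat_lit 5, nat_lit 5, nat_lit 20], true, nat_lit 8, nat_lit 248, nat_lit 0, nat_lit 384, ⟨nat_lit 0, nat_lit 1000, nat_lit 0, nat_lit 5, nat_lit 218, nat_lit 1000, nat_lit 96, nat_lit 0, nat_lit 0, nat_lit 0, nat_lit 0, nat_lit 0, nat_lit 0, nat_lit 0, nat_lit 0, nat_lit 5000000, false, true⟩,
 nat_lit 0, nat_lit 4662, nat_lit 0, nat_lit 5681, nat_lit 4060, nat_lit 0, nat_lit 0, nat_lit 0, nat_lit 0, nat_lit 0, nat_lit 0, nat_lit 0, nat_lit 0, nat_lit 0, nat_lit 0, nat_lit 355600, nat_lit 0, nat_lit 0, [(nat_lit 26, [(nat_lit 0, nat_lit 296), (nat_lit 1, nat_lit 704)])],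
 ⟨p108_k14, nat_lit 0, nat_lit 0, nat_lit 285, nat_lit 0, nat_lit 38766, [nat_lit 1040160001, nat_lit 1370022982], [], [nat_lit 27601909997, nat_lit 28739733249, nat_lit 31883320982, nat_lit 32677869319, nat_lit 27210926637, nat_lit 28070351988, nat_lit 31368096359, nat_lit 30902996898], nat_lit 1271250, nat_lit 1271250, nat_lit 490000, nat_lit 2615000, nat_lit 43600, nat_lit 1756600, [nat_lit 230000, nat_lit 2015000], [nat_lit 132, nat_lit 40, nat_lit 40, nat_lit 80, nat_lit 133, nat_lit 373, nat_lit 150, nat_lit 11]⟩, C1.Rw.none,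
 ⟨nat_lit 2236, nat_lit 3163, ⟨.ofNat (nat_lit 316827), .ofNat (nat_lit 731621), .ofNat (nat_lit 361011), .ofNat (nat_lit 775931), .ofNat (nat_lit 328641), .ofNat (nat_lit 716658), .ofNat (nat_lit 374063), .ofNat (nat_lit 762206)⟩, ⟨.ofNat (nat_lit 20000), .ofNat (nat_lit 440213), .ofNat (nat_lit 20000), .ofNat (nat_lit 484523), .ofNat (nat_lit 20000), .ofNat (nat_lit 431772), .ofNat (nat_lit 20000), .ofNat (nat_lit 477320)⟩⟩, [⟨nat_lit 13, nat_lit 53, nat_lit 80, nat_lit 100, nat_lit 197551653⟩, ⟨nat_lit 16, nat_lit 53, nat_lit 100, nat_lit 87, nat_lit 59751676⟩]⟩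
noncomputable def p108_l73 : Lf2 := ⟨nat_lit 0, nat_lit 30, [nat_lit 15, nat_lit 5, nat_lit 5, nat_lit 20], true, nat_lit 20, nat_lit 208, nat_lit 0, nat_lit 384, ⟨nat_lit 0, nat_lit 1000, nat_lit 0, nat_lit 5, nat_lit 218, nat_lit 1000, nat_lit 88, nat_lit 0, nat_lit 0, nat_lit 0, nat_lit 0, nat_lit 0, nat_lit 0, nat_lit 0, nat_lit 0, nat_lit 5000000, false, true⟩,
 nat_lit 0, nat_lit 2971, nat_lit 0, nat_lit 4010, nat_lit 2776, nat_lit 0, nat_lit 11, nat_lit 0, nat_lit 0, nat_lit 0, nat_lit 0, nat_lit 0, nat_lit 0, nat_lit 0, nat_lit 0, nat_lit 400000, nat_lit 0, nat_lit 0, [(nat_lit 29, [(nat_lit 1, nat_lit 1000)])],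
 ⟨p108_k1, nat_lit 0, nat_lit 0, nat_lit 276, nat_lit 0, nat_lit 200403, [nat_lit 698400000, nat_lit 197600001, nat_lit 54800000], [], [nat_lit 22095522249, nat_lit 23511275615, nat_lit 27490042300, nat_lit 28756015540, nat_lit 23207903245, nat_lit 24146541346, nat_lit 27554838721, nat_lit 28384351309], nat_lit 1271250, nat_lit 1271250, nat_lit 719601, nat_lit 2439450, nat_lit 111251, nat_lit 1474250, [nat_lit 230000, nat_lit 1100000, nat_lit 1785000], [nat_lit 57, nat_lit 40, nat_lit 40, nat_lit 80, nat_lit 7, nat_lit 373, nat_lit 150, nat_lit 12]⟩, C1.Rw.none,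
 ⟨nat_lit 0, nat_lit 2237, ⟨.ofNat (nat_lit 370513), .ofNat (nat_lit 676741), .ofNat (nat_lit 414208), .ofNat (nat_lit 722292), .ofNat (nat_lit 385947), .ofNat (nat_lit 654993), .ofNat (nat_lit 434094), .ofNat (nat_lit 704996)⟩, ⟨.ofNat (nat_lit 50000), .ofNat (nat_lit 374750), .ofNat (nat_lit 50000), .ofNat (nat_lit 420300), .ofNat (nat_lit 50000), .ofNat (nat_lit 359993), .ofNat (nat_lit 50000), .ofNat (nat_lit 409994)⟩⟩, [⟨nat_lit 13, nat_lit 31, nat_lit 92, nat_lit 100, nat_lit 486318522⟩, ⟨nat_lit 4, nat_lit 100, nat_lit 32, nat_lit 88, nat_lit 164326596⟩]⟩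
noncomputable def b_V_900_500_20_32 : St := ⟨true, nat_lit 1, nat_lit 2, nat_lit 2, nat_lit 120, nat_lit 360, nat_lit 400, nat_lit 200, nat_lit 240, nat_lit 80, nat_lit 352, nat_lit 80, nat_lit 120, nat_lit 8, nat_lit 248, nat_lit 0, nat_lit 384, nat_lit 120, nat_lit 148, nat_lit 0, nat_lit 0, nat_lit 0, nat_lit 0⟩
theorem d_V_900_500_20_32 (h : EB TB.env) : Dead b_V_900_500_20_32 := chkB_sound0 h (T :=
(.st (nat_lit 1)
(.spl (nat_lit 0) (nat_lit 380)
(.leaf p108_l70)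
(.trZ (nat_lit 0) (nat_lit 100) (nat_lit 44) (nat_lit 90) (nat_lit 112) (.trX (nat_lit 13) (nat_lit 44) (nat_lit 81) (nat_lit 100) (nat_lit 324) (.trZ (nat_lit 3) (nat_lit 100) (nat_lit 54) (nat_lit 57) (nat_lit 20) (.trX (nat_lit 16) (nat_lit 44) (nat_lit 100) (nat_lit 92) (nat_lit 208) (.leaf p108_l71))))))
(.spl (nat_lit 0) (nat_lit 380)
(.leaf p108_l72)
(.trZ (nat_lit 0) (nat_lit 100) (nat_lit 44) (nat_lit 90) (nat_lit 112) (.trX (nat_lit 13) (nat_lit 44) (nat_lit 81) (nat_lit 100) (nat_lit 324) (.trZ (nat_lit 3) (nat_lit 100) (nat_lit 54) (nat_lit 57) (nat_lit 20) (.trX (nat_lit 16) (nat_lit 44) (nat_lit 100) (nat_lit 92) (nat_lit 208) (.leaf p108_l73)))))))) (by decide +kernel)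
noncomputable def p108_l74 : Lf2 := ⟨nat_lit 0, nat_lit 10, [nat_lit 0, nat_lit 5, nat_lit 5, nat_lit 20], false, nat_lit 0, nat_lit 200, nat_lit 0, nat_lit 336, ⟨nat_lit 1000, nat_lit 0, nat_lit 0, nat_lit 0, nat_lit 0, nat_lit 0, nat_lit 0, nat_lit 0, nat_lit 0, nat_lit 0, nat_lit 0, nat_lit 0, nat_lit 0, nat_lit 0, nat_lit 0, nat_lit 0, false, false⟩,
 nat_lit 0, nat_lit 0, nat_lit 0, nat_lit 0, nat_lit 6491, nat_lit 16644, nat_lit 0, nat_lit 0, nat_lit 0, nat_lit 0, nat_lit 0, nat_lit 0, nat_lit 0, nat_lit 0, nat_lit 0, nat_lit 0, nat_lit 0, nat_lit 0, [],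
 ⟨p108_k15, nat_lit 0, nat_lit 0, nat_lit 169, nat_lit 0, nat_lit 0, [nat_lit 938000000, nat_lit 4688000000], [], [nat_lit 27286023826, nat_lit 33750803981, nat_lit 40086407160, nat_lit 43521492950, nat_lit 23549453657, nat_lit 27500809472, nat_lit 33030930473, nat_lit 35814655379], nat_lit 0, nat_lit 0, nat_lit 0, nat_lit 0, nat_lit 0, nat_lit 0, [], [nat_lit 86, nat_lit 40, nat_lit 40, nat_lit 80, nat_lit 87, nat_lit 373, nat_lit 150, nat_lit 17]⟩, ⟨p108_k16, nat_lit 0, nat_lit 0, nat_lit 221, nat_lit 0, nat_lit 0, [nat_lit 4688000000, nat_lit 11872000000], [], [nat_lit 34473002468, nat_lit 39429229949, nat_lit 54175818231, nat_lit 57932506861, nat_lit 31733942587, nat_lit 33726582654, nat_lit 42471347410, nat_lit 43872148617], nat_lit 0, nat_lit 0, nat_lit 0, nat_lit 0, nat_lit 0, nat_lit 0, [], [nat_lit 116, nat_lit 40, nat_lit 40, nat_lit 80, nat_lit 65, nat_lit 483, nat_lit 250, nat_lit 12]⟩,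
 zbF0, [⟨nat_lit 0, nat_lit 96, nat_lit 44, nat_lit 100, nat_lit 146845358⟩]⟩
noncomputable def p108_l75 : Lf2 := ⟨nat_lit 0, nat_lit 10, [nat_lit 0, nat_lit 5, nat_lit 5, nat_lit 20], true, nat_lit 0, nat_lit 200, nat_lit 0, nat_lit 336, ⟨nat_lit 0, nat_lit 487, nat_lit 513, nat_lit 6, nat_lit 213, nat_lit 1000, nat_lit 67, nat_lit 513, nat_lit 41667, nat_lit 265, nat_lit 23440, nat_lit 200, nat_lit 52221722, nat_lit 14778278, nat_lit 0, nat_lit 2638149, false, false⟩,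
 nat_lit 0, nat_lit 0, nat_lit 0, nat_lit 0, nat_lit 2817, nat_lit 0, nat_lit 0, nat_lit 0, nat_lit 0, nat_lit 0, nat_lit 0, nat_lit 0, nat_lit 0, nat_lit 0, nat_lit 0, nat_lit 250000, nat_lit 0, nat_lit 0, [(nat_lit 24, [(nat_lit 0, nat_lit 487), (nat_lit 4, nat_lit 513)]), (nat_lit 27, [(nat_lit 0, nat_lit 487), (nat_lit 4, nat_lit 513)])],
 ⟨p108_k15, nat_lit 0, nat_lit 0, nat_lit 157, nat_lit 0, nat_lit 0, [nat_lit 770950400, nat_lit 288694000], [], [nat_lit 19559448988, nat_lit 23426202660, nat_lit 22723969636, nat_lit 25868486064, nat_lit 20633773085, nat_lit 22965244715, nat_lit 23075394164, nat_lit 25324187734], nat_lit 0, nat_lit 0, nat_lit 0, nat_lit 0, nat_lit 0, nat_lit 0, [], [nat_lit 86, nat_lit 40, nat_lit 40, nat_lit 80, nat_lit 87, nat_lit 345, nat_lit 125, nat_lit 16]⟩, C1.Rw.none,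
 ⟨nat_lit 0, nat_lit 3163, ⟨.ofNat (nat_lit 401957), .ofNat (nat_lit 605128), .ofNat (nat_lit 443658), .ofNat (nat_lit 646918), .ofNat (nat_lit 431745), .ofNat (nat_lit 599865), .ofNat (nat_lit 479136), .ofNat (nat_lit 647345)⟩, ⟨.ofNat (nat_lit 0), .ofNat (nat_lit 322753), .ofNat (nat_lit 0), .ofNat (nat_lit 367065), .ofNat (nat_lit 0), .ofNat (nat_lit 299993), .ofNat (nat_lit 0), .ofNat (nat_lit 349995)⟩⟩, []⟩
noncomputable def p108_l76 : Lf2 := ⟨nat_lit 0, nat_lit 10, [nat_lit 0, nat_lit 5, nat_lit 5, nat_lit 20], true, nat_lit 0, nat_lit 80, nat_lit 0, nat_lit 336, ⟨nat_lit 0, nat_lit 1000, nat_lit 0, nat_lit 6, nat_lit 272, nat_lit 1000, nat_lit 34, nat_lit 0, nat_lit 0, nat_lit 0, nat_lit 0, nat_lit 0, nat_lit 45773053, nat_lit 21226947, nat_lit 0, nat_lit 3122245, true, true⟩,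
 nat_lit 0, nat_lit 0, nat_lit 0, nat_lit 0, nat_lit 2718, nat_lit 0, nat_lit 0, nat_lit 0, nat_lit 0, nat_lit 0, nat_lit 0, nat_lit 0, nat_lit 0, nat_lit 0, nat_lit 0, nat_lit 400000, nat_lit 0, nat_lit 0, [(nat_lit 24, [(nat_lit 1, nat_lit 1000)]), (nat_lit 27, [(nat_lit 1, nat_lit 1000)])],
 ⟨p108_k15, nat_lit 0, nat_lit 0, nat_lit 157, nat_lit 0, nat_lit 0, [nat_lit 965600001, nat_lit 988400000], [], [nat_lit 23961985594, nat_lit 26165092650, nat_lit 26834603450, nat_lit 28878228808, nat_lit 23405417690, nat_lit 25481674426, nat_lit 26141397434, nat_lit 27937429818], nat_lit 0, nat_lit 0, nat_lit 0, nat_lit 0, nat_lit 0, nat_lit 0, [], [nat_lit 86, nat_lit 40, nat_lit 40, nat_lit 80, nat_lit 87, nat_lit 226, nat_lit 20, nat_lit 9]⟩, C1.Rw.none,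
 ⟨nat_lit 0, nat_lit 3163, ⟨.ofNat (nat_lit 605128), .ofNat (nat_lit 727166), .ofNat (nat_lit 646918), .ofNat (nat_lit 771478), .ofNat (nat_lit 599865), .ofNat (nat_lit 699997), .ofNat (nat_lit 647345), .ofNat (nat_lit 749999)⟩, ⟨.ofNat (nat_lit 0), .ofNat (nat_lit 139898), .ofNat (nat_lit 0), .ofNat (nat_lit 184209), .ofNat (nat_lit 0), .ofNat (nat_lit 149998), .ofNat (nat_lit 0), .ofNat (nat_lit 199999)⟩⟩, [⟨nat_lit 3, nat_lit 100, nat_lit 61, nat_lit 47, nat_lit 50188860⟩]⟩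
noncomputable def p108_l77 : Lf2 := ⟨nat_lit 0, nat_lit 10, [nat_lit 0, nat_lit 5, nat_lit 5, nat_lit 20], true, nat_lit 0, nat_lit 80, nat_lit 0, nat_lit 260, ⟨nat_lit 0, nat_lit 1000, nat_lit 0, nat_lit 8, nat_lit 306, nat_lit 1000, nat_lit 34, nat_lit 0, nat_lit 0, nat_lit 0, nat_lit 0, nat_lit 0, nat_lit 42269475, nat_lit 24730525, nat_lit 0, nat_lit 3292407, true, true⟩,
 nat_lit 0, nat_lit 0, nat_lit 0, nat_lit 0, nat_lit 2475, nat_lit 0, nat_lit 0, nat_lit 0, nat_lit 0, nat_lit 0, nat_lit 0, nat_lit 0, nat_lit 0, nat_lit 0, nat_lit 0, nat_lit 400000, nat_lit 0, nat_lit 0, [(nat_lit 24, [(nat_lit 1, nat_lit 1000)]), (nat_lit 27, [(nat_lit 1, nat_lit 1000)])],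
 ⟨p108_k17, nat_lit 0, nat_lit 0, nat_lit 167, nat_lit 0, nat_lit 0, [nat_lit 848000000, nat_lit 997333334, nat_lit 954400000], [], [nat_lit 26716236934, nat_lit 28594771534, nat_lit 28349700634, nat_lit 30079491134, nat_lit 26273309734, nat_lit 28050622534, nat_lit 27823718934, nat_lit 29465010734], nat_lit 0, nat_lit 0, nat_lit 0, nat_lit 0, nat_lit 0, nat_lit 0, [], [nat_lit 35, nat_lit 40, nat_lit 40, nat_lit 80, nat_lit 22, nat_lit 226, nat_lit 20, nat_lit 9]⟩, C1.Rw.none,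
 ⟨nat_lit 0, nat_lit 3163, ⟨.ofNat (nat_lit 727166), .ofNat (nat_lit 788118), .ofNat (nat_lit 771478), .ofNat (nat_lit 832430), .ofNat (nat_lit 699997), .ofNat (nat_lit 749995), .ofNat (nat_lit 749999), .ofNat (nat_lit 799997)⟩, ⟨.ofNat (nat_lit 0), .ofNat (nat_lit 139898), .ofNat (nat_lit 0), .ofNat (nat_lit 184209), .ofNat (nat_lit 0), .ofNat (nat_lit 149998), .ofNat (nat_lit 0), .ofNat (nat_lit 199999)⟩⟩, [⟨nat_lit 13, nat_lit 46, nat_lit 76, nat_lit 100, nat_lit 38146500⟩, ⟨nat_lit 3, nat_lit 100, nat_lit 61, nat_lit 47, nat_lit 33065227⟩]⟩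
noncomputable def p108_l78 : Lf2 := ⟨nat_lit 0, nat_lit 10, [nat_lit 0, nat_lit 5, nat_lit 5, nat_lit 20], true, nat_lit 0, nat_lit 80, nat_lit 0, nat_lit 200, ⟨nat_lit 0, nat_lit 1000, nat_lit 0, nat_lit 9, nat_lit 321, nat_lit 1000, nat_lit 34, nat_lit 0, nat_lit 0, nat_lit 0, nat_lit 0, nat_lit 0, nat_lit 40705186, nat_lit 26294814, nat_lit 0, nat_lit 3349177, true, true⟩,
 nat_lit 0, nat_lit 0, nat_lit 0, nat_lit 0, nat_lit 2552, nat_lit 0, nat_lit 0, nat_lit 0, nat_lit 0, nat_lit 0, nat_lit 0, nat_lit 0, nat_lit 0, nat_lit 0, nat_lit 0, nat_lit 400000, nat_lit 0, nat_lit 0, [(nat_lit 24, [(nat_lit 1, nat_lit 1000)]), (nat_lit 27, [(nat_lit 1, nat_lit 1000)])],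
 ⟨p108_k17, nat_lit 0, nat_lit 0, nat_lit 172, nat_lit 0, nat_lit 0, [nat_lit 848000000, nat_lit 997333334, nat_lit 954400000], [], [nat_lit 28249239350, nat_lit 30311453184, nat_lit 28948354742, nat_lit 31127013492, nat_lit 27671204726, nat_lit 29329055222, nat_lit 28334344925, nat_lit 29937188355], nat_lit 0, nat_lit 0, nat_lit 0, nat_lit 0, nat_lit 0, nat_lit 0, [], [nat_lit 35, nat_lit 40, nat_lit 40, nat_lit 80, nat_lit 22, nat_lit 226, nat_lit 20, nat_lit 8]⟩, C1.Rw.none,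
 ⟨nat_lit 0, nat_lit 3163, ⟨.ofNat (nat_lit 788118), .ofNat (nat_lit 812499), .ofNat (nat_lit 832430), .ofNat (nat_lit 856810), .ofNat (nat_lit 749995), .ofNat (nat_lit 769995), .ofNat (nat_lit 799997), .ofNat (nat_lit 819996)⟩, ⟨.ofNat (nat_lit 0), .ofNat (nat_lit 139898), .ofNat (nat_lit 0), .ofNat (nat_lit 184209), .ofNat (nat_lit 0), .ofNat (nat_lit 149998), .ofNat (nat_lit 0), .ofNat (nat_lit 199999)⟩⟩, [⟨nat_lit 13, nat_lit 65, nat_lit 54, nat_lit 100, nat_lit 312122055⟩, ⟨nat_lit 3, nat_lit 100, nat_lit 61, nat_lit 47, nat_lit 38419198⟩]⟩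
noncomputable def p108_l79 : Lf2 := ⟨nat_lit 0, nat_lit 10, [nat_lit 0, nat_lit 5, nat_lit 5, nat_lit 20], true, nat_lit 80, nat_lit 200, nat_lit 0, nat_lit 336, ⟨nat_lit 0, nat_lit 1000, nat_lit 0, nat_lit 6, nat_lit 272, nat_lit 1000, nat_lit 101, nat_lit 0, nat_lit 0, nat_lit 0, nat_lit 0, nat_lit 0, nat_lit 42446595, nat_lit 20313313, nat_lit 4240092, nat_lit 4369749, true, true⟩,
 nat_lit 0, nat_lit 0, nat_lit 0, nat_lit 0, nat_lit 3400, nat_lit 0, nat_lit 0, nat_lit 0, nat_lit 0, nat_lit 0, nat_lit 0, nat_lit 0, nat_lit 0, nat_lit 0, nat_lit 0, nat_lit 250000, nat_lit 0, nat_lit 0, [(nat_lit 24, [(nat_lit 0, nat_lit 1000)]), (nat_lit 27, [(nat_lit 0, nat_lit 1000)])],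
 ⟨p108_k15, nat_lit 0, nat_lit 0, nat_lit 95, nat_lit 0, nat_lit 0, [nat_lit 780800001, nat_lit 1705600000], [], [nat_lit 22080780800, nat_lit 24891332800, nat_lit 25537031200, nat_lit 28211474400, nat_lit 23643274400, nat_lit 26036948400, nat_lit 26595843600, nat_lit 28820092000], nat_lit 0, nat_lit 0, nat_lit 0, nat_lit 0, nat_lit 0, nat_lit 0, [], [nat_lit 86, nat_lit 40, nat_lit 40, nat_lit 80, nat_lit 87, nat_lit 260, nat_lit 50, nat_lit 10]⟩, C1.Rw.none,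
 ⟨nat_lit 0, nat_lit 3163, ⟨.ofNat (nat_lit 605128), .ofNat (nat_lit 727166), .ofNat (nat_lit 646918), .ofNat (nat_lit 771478), .ofNat (nat_lit 599865), .ofNat (nat_lit 699997), .ofNat (nat_lit 647345), .ofNat (nat_lit 749999)⟩, ⟨.ofNat (nat_lit 139898), .ofNat (nat_lit 322753), .ofNat (nat_lit 184209), .ofNat (nat_lit 367065), .ofNat (nat_lit 149998), .ofNat (nat_lit 299993), .ofNat (nat_lit 199999), .ofNat (nat_lit 349995)⟩⟩, [⟨nat_lit 16, nat_lit 60, nat_lit 100, nat_lit 80, nat_lit 107509024⟩]⟩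
noncomputable def p108_l80 : Lf2 := ⟨nat_lit 0, nat_lit 10, [nat_lit 0, nat_lit 5, nat_lit 5, nat_lit 20], true, nat_lit 80, nat_lit 200, nat_lit 0, nat_lit 336, ⟨nat_lit 0, nat_lit 1000, nat_lit 0, nat_lit 8, nat_lit 310, nat_lit 1000, nat_lit 101, nat_lit 0, nat_lit 0, nat_lit 0, nat_lit 0, nat_lit 0, nat_lit 39024641, nat_lit 23951301, nat_lit 4024058, nat_lit 4497894, true, true⟩,
 nat_lit 0, nat_lit 0, nat_lit 0, nat_lit 0, nat_lit 3182, nat_lit 0, nat_lit 0, nat_lit 0, nat_lit 0, nat_lit 0, nat_lit 0, nat_lit 0, nat_lit 0, nat_lit 0, nat_lit 0, nat_lit 304750, nat_lit 0, nat_lit 0, [(nat_lit 24, [(nat_lit 0, nat_lit 635), (nat_lit 1, nat_lit 365)]), (nat_lit 27, [(nat_lit 0, nat_lit 635), (nat_lit 1, nat_lit 365)])],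
 ⟨p108_k15, nat_lit 0, nat_lit 0, nat_lit 112, nat_lit 0, nat_lit 0, [nat_lit 848252001, nat_lit 1431412000], [], [nat_lit 25820628865, nat_lit 27833131912, nat_lit 28377810476, nat_lit 30669898285, nat_lit 26946939401, nat_lit 28635861901, nat_lit 29039494225, nat_lit 31025200837], nat_lit 0, nat_lit 0, nat_lit 0, nat_lit 0, nat_lit 0, nat_lit 0, [], [nat_lit 86, nat_lit 40, nat_lit 40, nat_lit 80, nat_lit 87, nat_lit 260, nat_lit 50, nat_lit 10]⟩, C1.Rw.none,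
 ⟨nat_lit 0, nat_lit 3163, ⟨.ofNat (nat_lit 727166), .ofNat (nat_lit 812499), .ofNat (nat_lit 771478), .ofNat (nat_lit 856810), .ofNat (nat_lit 699997), .ofNat (nat_lit 769995), .ofNat (nat_lit 749999), .ofNat (nat_lit 819996)⟩, ⟨.ofNat (nat_lit 139898), .ofNat (nat_lit 322753), .ofNat (nat_lit 184209), .ofNat (nat_lit 367065), .ofNat (nat_lit 149998), .ofNat (nat_lit 299993), .ofNat (nat_lit 199999), .ofNat (nat_lit 349995)⟩⟩, [⟨nat_lit 13, nat_lit 65, nat_lit 54, nat_lit 100, nat_lit 261998017⟩, ⟨nat_lit 16, nat_lit 60, nat_lit 100, nat_lit 80, nat_lit 80757130⟩]⟩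
noncomputable def p108_l81 : Lf2 := ⟨nat_lit 0, nat_lit 10, [nat_lit 0, nat_lit 5, nat_lit 5, nat_lit 20], true, nat_lit 0, nat_lit 200, nat_lit 0, nat_lit 336, ⟨nat_lit 0, nat_lit 1000, nat_lit 0, nat_lit 6, nat_lit 251, nat_lit 1000, nat_lit 67, nat_lit 0, nat_lit 0, nat_lit 0, nat_lit 0, nat_lit 0, nat_lit 0, nat_lit 0, nat_lit 0, nat_lit 5000000, false, false⟩,
 nat_lit 0, nat_lit 0, nat_lit 0, nat_lit 0, nat_lit 3275, nat_lit 0, nat_lit 0, nat_lit 0, nat_lit 0, nat_lit 0, nat_lit 0, nat_lit 0, nat_lit 0, nat_lit 0, nat_lit 0, nat_lit 280750, nat_lit 0, nat_lit 0, [(nat_lit 24, [(nat_lit 0, nat_lit 795), (nat_lit 1, nat_lit 205)]), (nat_lit 27, [(nat_lit 0, nat_lit 795), (nat_lit 1, nat_lit 205)])],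
 ⟨p108_k15, nat_lit 0, nat_lit 0, nat_lit 169, nat_lit 0, nat_lit 0, [nat_lit 818684001, nat_lit 1551604000], [], [nat_lit 21298328980, nat_lit 24713265100, nat_lit 30990401400, nat_lit 33402009340, nat_lit 22380507953, nat_lit 24635836134, nat_lit 29151674210, nat_lit 31159809260], nat_lit 0, nat_lit 0, nat_lit 0, nat_lit 0, nat_lit 0, nat_lit 0, [], [nat_lit 86, nat_lit 40, nat_lit 40, nat_lit 80, nat_lit 87, nat_lit 373, nat_lit 150, nat_lit 17]⟩, C1.Rw.none,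
 ⟨nat_lit 0, nat_lit 3163, ⟨.ofNat (nat_lit 401957), .ofNat (nat_lit 812499), .ofNat (nat_lit 443658), .ofNat (nat_lit 856810), .ofNat (nat_lit 431745), .ofNat (nat_lit 769995), .ofNat (nat_lit 479136), .ofNat (nat_lit 819996)⟩, ⟨.ofNat (nat_lit 0), .ofNat (nat_lit 322753), .ofNat (nat_lit 0), .ofNat (nat_lit 367065), .ofNat (nat_lit 0), .ofNat (nat_lit 299993), .ofNat (nat_lit 0), .ofNat (nat_lit 349995)⟩⟩, [⟨nat_lit 13, nat_lit 65, nat_lit 54, nat_lit 100, nat_lit 364515727⟩]⟩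
noncomputable def b_V_900_600_10_0 : St := ⟨true, nat_lit 0, nat_lit 2, nat_lit 0, nat_lit 80, nat_lit 360, nat_lit 400, nat_lit 240, nat_lit 280, nat_lit 112, nat_lit 376, nat_lit 40, nat_lit 80, nat_lit 0, nat_lit 200, nat_lit 0, nat_lit 336, nat_lit 0, nat_lit 40, nat_lit 0, nat_lit 0, nat_lit 0, nat_lit 0⟩
theorem d_V_900_600_10_0 (h : EB TB.env) : Dead b_V_900_600_10_0 := chkB_sound0 h (T :=
(.gv
(.st (nat_lit 1)
(.leaf p108_l74)
(.spl (nat_lit 2) (nat_lit 240)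
(.leaf p108_l75)
(.spl (nat_lit 4) (nat_lit 80)
(.spl (nat_lit 2) (nat_lit 320)
(.leaf p108_l76)
(.trX (nat_lit 22) (nat_lit 83) (nat_lit 100) (nat_lit 83) (nat_lit 260) (.spl (nat_lit 2) (nat_lit 360)
(.leaf p108_l77)
(.trX (nat_lit 22) (nat_lit 60) (nat_lit 100) (nat_lit 80) (nat_lit 200) (.leaf p108_l78)))))
(.spl (nat_lit 2) (nat_lit 320)
(.leaf p108_l79)
(.leaf p108_l80)))))
(.leaf p108_l81))) (by decide +kernel)
noncomputable def p108_l82 : Lf2 := ⟨nat_lit 0, nat_lit 10, [nat_lit 0, nat_lit 5, nat_lit 5, nat_lit 20], false, nat_lit 0, nat_lit 200, nat_lit 0, nat_lit 160, ⟨nat_lit 764, nat_lit 0, nat_lit 236, nat_lit 6, nat_lit 251, nat_lit 236, nat_lit 67, nat_lit 236, nat_lit 41667, nat_lit 265, nat_lit 442370, nat_lit 200, nat_lit 48094281, nat_lit 0, nat_lit 0, nat_lit 2974977, false, false⟩,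
 nat_lit 0, nat_lit 4613, nat_lit 0, nat_lit 0, nat_lit 4017, nat_lit 5417, nat_lit 129, nat_lit 0, nat_lit 0, nat_lit 1018, nat_lit 0, nat_lit 0, nat_lit 0, nat_lit 0, nat_lit 0, nat_lit 236000, nat_lit 0, nat_lit 0, [(nat_lit 24, [(nat_lit 6, nat_lit 236)]), (nat_lit 27, [(nat_lit 6, nat_lit 236)])],
 ⟨p108_k17, nat_lit 0, nat_lit 0, nat_lit 643, nat_lit 0, nat_lit 1375406, [nat_lit 1035420801, nat_lit 1979028267, nat_lit 2487347200], [], [nat_lit 30612373033, nat_lit 32028049843, nat_lit 34758225741, nat_lit 35747284748, nat_lit 30760087033, nat_lit 31909782962, nat_lit 34321032894, nat_lit 35394690754], nat_lit 1271250, nat_lit 1271250, nat_lit 719601, nat_lit 2861300, nat_lit 0, nat_lit 1412500, [nat_lit 230000, nat_lit 780000, nat_lit 1100000], [nat_lit 35, nat_lit 40, nat_lit 40, nat_lit 80, nat_lit 22, nat_lit 373, nat_lit 150, nat_lit 17]⟩, ⟨p108_k18, nat_lit 0, nat_lit 0, nat_lit 241, nat_lit 0,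 nat_lit 0, [nat_lit 3581632000, nat_lit 6087552000, nat_lit 9070208000], [], [nat_lit 17314086742, nat_lit 19495982147, nat_lit 27371810857, nat_lit 28665145494, nat_lit 14374877341, nat_lit 15918757393, nat_lit 22861203883, nat_lit 23967547868], nat_lit 0, nat_lit 0, nat_lit 0, nat_lit 0, nat_lit 0, nat_lit 0, [], [nat_lit 21, nat_lit 40, nat_lit 40, nat_lit 80, nat_lit 14, nat_lit 456, nat_lit 225, nat_lit 12]⟩,
 ⟨nat_lit 0, nat_lit 3163, ⟨.ofNat (nat_lit 401957), .ofNat (nat_lit 812499), .ofNat (nat_lit 443658), .ofNat (nat_lit 856810), .ofNat (nat_lit 431745), .ofNat (nat_lit 769995), .ofNat (nat_lit 479136), .ofNat (nat_lit 819996)⟩, ⟨.ofNat (nat_lit 0), .ofNat (nat_lit 322753), .ofNat (nat_lit 0), .ofNat (nat_lit 367065), .ofNat (nat_lit 0), .ofNat (nat_lit 299993), .ofNat (nat_lit 0), .ofNat (nat_lit 349995)⟩⟩, [⟨nat_lit 0, nat_lit 96, nat_lit 44, nat_lit 100, nat_lit 171566696⟩, ⟨nat_lit 16, nat_lit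 46, nat_lit 100, nat_lit 75, nat_lit 332357132⟩]⟩
noncomputable def p108_l83 : Lf2 := ⟨nat_lit 0, nat_lit 10, [nat_lit 0, nat_lit 5, nat_lit 5, nat_lit 20], false, nat_lit 0, nat_lit 200, nat_lit 160, nat_lit 336, ⟨nat_lit 736, nat_lit 0, nat_lit 264, nat_lit 6, nat_lit 253, nat_lit 264, nat_lit 69, nat_lit 264, nat_lit 45067, nat_lit 267, nat_lit 442376, nat_lit 200, nat_lit 47841065, nat_lit 0, nat_lit 0, nat_lit 2992445, false, false⟩,
 nat_lit 0, nat_lit 5266, nat_lit 0, nat_lit 0, nat_lit 4586, nat_lit 5000, nat_lit 125, nat_lit 0, nat_lit 0, nat_lit 0, nat_lit 0, nat_lit 0, nat_lit 0, nat_lit 0, nat_lit 0, nat_lit 264000, nat_lit 0, nat_lit 0, [(nat_lit 24, [(nat_lit 6, nat_lit 264)])],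
 ⟨p108_k17, nat_lit 0, nat_lit 0, nat_lit 526, nat_lit 0, nat_lit 1130159, [nat_lit 1046979200, nat_lit 1824438401, nat_lit 2158035200], [], [nat_lit 23394892475, nat_lit 24559149954, nat_lit 34698381360, nat_lit 35405588341, nat_lit 23426099992, nat_lit 23823510129, nat_lit 30733050131, nat_lit 31314126050], nat_lit 1271250, nat_lit 1271250, nat_lit 719601, nat_lit 2861300, nat_lit 0, nat_lit 1412500, [nat_lit 230000, nat_lit 780000, nat_lit 1100000], [nat_lit 35, nat_lit 40, nat_lit 40, nat_lit 80, nat_lit 22, nat_lit 373, nat_lit 150, nat_lit 17]⟩, ⟨p108_k18, nat_lit 0, nat_lit 0, nat_lit 85, nat_lit 0, nat_lit 0, [nat_lit 3450368000, nat_lit 5864448000, nat_lit 8737792000], [], [nat_lit 6462089005, nat_lit 9192456679, nat_lit 18993452359, nat_lit 20473726426, nat_lit 15780681178, nat_lit 17702544036, nat_lit 23829246411, nat_lit 24683875888], nat_lit 0, nat_lit 0, nat_lit 0, nat_lit 0, nat_lit 0, nat_lit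 0, [], [nat_lit 21, nat_lit 40, nat_lit 40, nat_lit 80, nat_lit 14, nat_lit 483, nat_lit 250, nat_lit 12]⟩,
 ⟨nat_lit 2738, nat_lit 3163, ⟨.ofNat (nat_lit 410148), .ofNat (nat_lit 812503), .ofNat (nat_lit 454433), .ofNat (nat_lit 856813), .ofNat (nat_lit 414835), .ofNat (nat_lit 804703), .ofNat (nat_lit 459646), .ofNat (nat_lit 849538)⟩, ⟨.ofNat (nat_lit 0), .ofNat (nat_lit 322759), .ofNat (nat_lit 0), .ofNat (nat_lit 367069), .ofNat (nat_lit 0), .ofNat (nat_lit 320659), .ofNat (nat_lit 0), .ofNat (nat_lit 365494)⟩⟩, [⟨nat_lit 4, nat_lit 100, nat_lit 57, nat_lit 73, nat_lit 100292909⟩, ⟨nat_lit 7, nat_lit 92, nat_lit 100, nat_lit 75, nat_lit 411784760⟩]⟩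
noncomputable def p108_l84 : Lf2 := ⟨nat_lit 0, nat_lit 10, [nat_lit 0, nat_lit 5, nat_lit 5, nat_lit 20], false, nat_lit 0, nat_lit 184, nat_lit 160, nat_lit 336, ⟨nat_lit 1000, nat_lit 0, nat_lit 0, nat_lit 0, nat_lit 0, nat_lit 0, nat_lit 0, nat_lit 0, nat_lit 0, nat_lit 0, nat_lit 0, nat_lit 0, nat_lit 0, nat_lit 0, nat_lit 0, nat_lit 0, false, false⟩,
 nat_lit 0, nat_lit 4773, nat_lit 0, nat_lit 0, nat_lit 4307, nat_lit 6829, nat_lit 1271, nat_lit 0, nat_lit 0, nat_lit 0, nat_lit 0, nat_lit 0, nat_lit 0, nat_lit 0, nat_lit 0, nat_lit 0, nat_lit 0, nat_lit 0, [],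
 ⟨p108_k19, nat_lit 0, nat_lit 0, nat_lit 534, nat_lit 0, nat_lit 1155160, [nat_lit 938000000, nat_lit 3282000000, nat_lit 4688000000], [], [nat_lit 23887052479, nat_lit 25091417656, nat_lit 34035852755, nat_lit 34738225497, nat_lit 21860226814, nat_lit 22414912501, nat_lit 30281315245, nat_lit 30873589819], nat_lit 1271250, nat_lit 1271250, nat_lit 841600, nat_lit 2824600, nat_lit 0, nat_lit 1299500, [nat_lit 230000, nat_lit 780000, nat_lit 1100000], [nat_lit 35, nat_lit 40, nat_lit 40, nat_lit 80, nat_lit 22, nat_lit 373, nat_lit 150, nat_lit 17]⟩, ⟨p108_k18, nat_lit 0, nat_lit 0, nat_lit 82, nat_lit 0, nat_lit 0, [nat_lit 4688000000, nat_lit 7968000000, nat_lit 11872000000], [], [nat_lit 8991599909, nat_lit 12620888479, nat_lit 24937534129, nat_lit 27035247039, nat_lit 21377387305, nat_lit 23936877549, nat_lit 31812035826, nat_lit 33026319431], nat_lit 0, nat_lit 0, nat_lit 0, nat_lit 0, nat_lit 0, nat_lit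 0, [], [nat_lit 21, nat_lit 40, nat_lit 40, nat_lit 80, nat_lit 14, nat_lit 483, nat_lit 250, nat_lit 12]⟩,
 zbF0, [⟨nat_lit 0, nat_lit 97, nat_lit 49, nat_lit 100, nat_lit 95516261⟩, ⟨nat_lit 16, nat_lit 53, nat_lit 100, nat_lit 80, nat_lit 187526154⟩, ⟨nat_lit 19, nat_lit 100, nat_lit 76, nat_lit 82, nat_lit 516714886⟩]⟩
noncomputable def p108_l85 : Lf2 := ⟨nat_lit 0, nat_lit 10, [nat_lit 0, nat_lit 5, nat_lit 5, nat_lit 20], false, nat_lit 0, nat_lit 164, nat_lit 160, nat_lit 336, ⟨nat_lit 1000, nat_lit 0, nat_lit 0, nat_lit 0, nat_lit 0, nat_lit 0, nat_lit 0, nat_lit 0, nat_lit 0, nat_lit 0, nat_lit 0, nat_lit 0, nat_lit 0, nat_lit 0, nat_lit 0, nat_lit 0, false, false⟩,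
 nat_lit 0, nat_lit 4139, nat_lit 0, nat_lit 0, nat_lit 3867, nat_lit 6838, nat_lit 601, nat_lit 0, nat_lit 0, nat_lit 0, nat_lit 0, nat_lit 0, nat_lit 0, nat_lit 0, nat_lit 0, nat_lit 0, nat_lit 0, nat_lit 0, [],
 ⟨p108_k20, nat_lit 0, nat_lit 0, nat_lit 505, nat_lit 0, nat_lit 1253980, [nat_lit 938000000, nat_lit 3282000000], [], [nat_lit 24778655492, nat_lit 26409624712, nat_lit 32463232311, nat_lit 33859807822, nat_lit 25438076335, nat_lit 26458018075, nat_lit 30506586975, nat_lit 31239637184], nat_lit 1271250, nat_lit 1271250, nat_lit 1000851, nat_lit 2724650, nat_lit 0, nat_lit 1133651, [nat_lit 230000, nat_lit 780000], [nat_lit 66, nat_lit 40, nat_lit 40, nat_lit 80, nat_lit 67, nat_lit 260, nat_lit 50, nat_lit 14]⟩, ⟨p108_k18, nat_lit 0, nat_lit 0, nat_lit 77, nat_lit 0, nat_lit 0, [nat_lit 4688000000, nat_lit 7968000000, nat_lit 11872000000], [], [nat_lit 9530774558, nat_lit 13037359937, nat_lit 23203561752,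 nat_lit 25467606114, nat_lit 21498152841, nat_lit 23978242389, nat_lit 30670711460, nat_lit 31989272981], nat_lit 0, nat_lit 0, nat_lit 0, nat_lit 0, nat_lit 0, nat_lit 0, [], [nat_lit 21, nat_lit 40, nat_lit 40, nat_lit 80, nat_lit 14, nat_lit 483, nat_lit 250, nat_lit 12]⟩,
 zbF0, [⟨nat_lit 0, nat_lit 95, nat_lit 31, nat_lit 100, nat_lit 149385542⟩, ⟨nat_lit 4, nat_lit 100, nat_lit 35, nat_lit 80, nat_lit 531490130⟩, ⟨nat_lit 19, nat_lit 100, nat_lit 76, nat_lit 82, nat_lit 537238606⟩]⟩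
noncomputable def p108_l86 : Lf2 := ⟨nat_lit 0, nat_lit 10, [nat_lit 0, nat_lit 5, nat_lit 5, nat_lit 20], false, nat_lit 0, nat_lit 80, nat_lit 0, nat_lit 160, ⟨nat_lit 209, nat_lit 232, nat_lit 559, nat_lit 6, nat_lit 213, nat_lit 791, nat_lit 33, nat_lit 559, nat_lit 10417, nat_lit 240, nat_lit 27594, nat_lit 200, nat_lit 52231216, nat_lit 14768784, nat_lit 0, nat_lit 2637254, false, false⟩,
 nat_lit 3264, nat_lit 0, nat_lit 0, nat_lit 0, nat_lit 2842, nat_lit 1727, nat_lit 83, nat_lit 0, nat_lit 0, nat_lit 151, nat_lit 0, nat_lit 0, nat_lit 0, nat_lit 0, nat_lit 0, nat_lit 281600, nat_lit 0, nat_lit 0, [(nat_lit 24, [(nat_lit 0, nat_lit 232), (nat_lit 5, nat_lit 559)])],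
 ⟨p108_k17, nat_lit 0, nat_lit 0, nat_lit 366, nat_lit 0, nat_lit 711344, [nat_lit 780503601, nat_lit 570387867, nat_lit 346036800], [], [nat_lit 20346015799, nat_lit 21556120025, nat_lit 23438924725, nat_lit 24554855457, nat_lit 20275351853, nat_lit 21459179584, nat_lit 23292260589, nat_lit 24336983581], nat_lit 1271250, nat_lit 1271250, nat_lit 719601, nat_lit 1758000, nat_lit 0, nat_lit 490000, [nat_lit 230000, nat_lit 780000, nat_lit 1100000], [nat_lit 35, nat_lit 40, nat_lit 40, nat_lit 80, nat_lit 22, nat_lit 317, nat_lit 100, nat_lit 14]⟩, ⟨p108_k18, nat_lit 0, nat_lit 0, nat_lit 900, nat_lit 0, nat_lit 1299674, [nat_lit 979792000, nat_lit 1665312000, nat_lit 2481248000], [], [nat_lit 11002598834, nat_lit 9503716410, nat_lit 9220168188, nat_lit 9271809008, nat_lit 8441520525, nat_lit 8484314116, nat_lit 8190595248, nat_lit 8218212420], nat_lit 1271250, nat_lit 1271250, nat_lit 719601, nat_lit 1758000,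 nat_lit 0, nat_lit 1100001, [nat_lit 1100000, nat_lit 1785000, nat_lit 1271250], [nat_lit 21, nat_lit 40, nat_lit 40, nat_lit 80, nat_lit 14, nat_lit 401, nat_lit 175, nat_lit 10]⟩,
 ⟨nat_lit 2236, nat_lit 3163, ⟨.ofNat (nat_lit 409856), .ofNat (nat_lit 605240), .ofNat (nat_lit 454039), .ofNat (nat_lit 649422), .ofNat (nat_lit 419758), .ofNat (nat_lit 602541), .ofNat (nat_lit 465180), .ofNat (nat_lit 647962)⟩, ⟨.ofNat (nat_lit 0), .ofNat (nat_lit 139899), .ofNat (nat_lit 0), .ofNat (nat_lit 184209), .ofNat (nat_lit 0), .ofNat (nat_lit 146758), .ofNat (nat_lit 0), .ofNat (nat_lit 192306)⟩⟩, [⟨nat_lit 0, nat_lit 92, nat_lit 44, nat_lit 100, nat_lit 21757340⟩]⟩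
noncomputable def p108_l87 : Lf2 := ⟨nat_lit 0, nat_lit 10, [nat_lit 0, nat_lit 5, nat_lit 5, nat_lit 20], false, nat_lit 0, nat_lit 80, nat_lit 160, nat_lit 336, ⟨nat_lit 172, nat_lit 382, nat_lit 446, nat_lit 6, nat_lit 213, nat_lit 828, nat_lit 33, nat_lit 446, nat_lit 10417, nat_lit 240, nat_lit 27594, nat_lit 200, nat_lit 52231216, nat_lit 14768784, nat_lit 0, nat_lit 2637254, false, false⟩,
 nat_lit 3335, nat_lit 0, nat_lit 0, nat_lit 0, nat_lit 2904, nat_lit 1765, nat_lit 110, nat_lit 0, nat_lit 0, nat_lit 175, nat_lit 0, nat_lit 0, nat_lit 0, nat_lit 0, nat_lit 0, nat_lit 273900, nat_lit 0, nat_lit 0, [(nat_lit 24, [(nat_lit 0, nat_lit 382), (nat_lit 5, nat_lit 446)])],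
 ⟨p108_k17, nat_lit 0, nat_lit 0, nat_lit 366, nat_lit 0, nat_lit 711344, [nat_lit 777923201, nat_lit 741510934, nat_lit 636521600], [], [nat_lit 20623970564, nat_lit 21714905840, nat_lit 23371397332, nat_lit 24495759904, nat_lit 20426280439, nat_lit 21471984547, nat_lit 23190772288, nat_lit 24245140992], nat_lit 1271250, nat_lit 1271250, nat_lit 719601, nat_lit 1758000, nat_lit 0, nat_lit 490000, [nat_lit 230000, nat_lit 780000, nat_lit 1100000], [nat_lit 35, nat_lit 40, nat_lit 40, nat_lit 80, nat_lit 22, nat_lit 317, nat_lit 100, nat_lit 14]⟩, ⟨p108_k18, nat_lit 0, nat_lit 0, nat_lit 807, nat_lit 0, nat_lit 1299674, [nat_lit 806336000, nat_lit 1370496000, nat_lit 2041984000], [], [nat_lit 6006919552, nat_lit 4825186321, nat_lit 7331112904, nat_lit 5667755724, nat_lit 4937747418, nat_lit 4957433221, nat_lit 4597041999, nat_lit 4791605759], nat_lit 1271250, nat_lit 1271250, nat_lit 719601, nat_lit 1758000,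 nat_lit 1271250, nat_lit 1271250, [nat_lit 1100000, nat_lit 1785000, nat_lit 1271250], [nat_lit 21, nat_lit 40, nat_lit 40, nat_lit 80, nat_lit 14, nat_lit 456, nat_lit 225, nat_lit 11]⟩,
 ⟨nat_lit 2236, nat_lit 3163, ⟨.ofNat (nat_lit 409856), .ofNat (nat_lit 605240), .ofNat (nat_lit 454039), .ofNat (nat_lit 649422), .ofNat (nat_lit 419758), .ofNat (nat_lit 602541), .ofNat (nat_lit 465180), .ofNat (nat_lit 647962)⟩, ⟨.ofNat (nat_lit 0), .ofNat (nat_lit 139899), .ofNat (nat_lit 0), .ofNat (nat_lit 184209), .ofNat (nat_lit 0), .ofNat (nat_lit 146758), .ofNat (nat_lit 0), .ofNat (nat_lit 192306)⟩⟩, [⟨nat_lit 0, nat_lit 92, nat_lit 44, nat_lit 100, nat_lit 11668728⟩, ⟨nat_lit 7, nat_lit 92, nat_lit 100, nat_lit 75, nat_lit 18792041⟩, ⟨nat_lit 22, nat_lit 100, nat_lit 98, nat_lit 12, nat_lit 2608298⟩]⟩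
noncomputable def p108_l88 : Lf2 := ⟨nat_lit 0, nat_lit 10, [nat_lit 0, nat_lit 5, nat_lit 5, nat_lit 20], false, nat_lit 0, nat_lit 80, nat_lit 0, nat_lit 336, ⟨nat_lit 153, nat_lit 847, nat_lit 0, nat_lit 6, nat_lit 224, nat_lit 847, nat_lit 34, nat_lit 0, nat_lit 0, nat_lit 0, nat_lit 0, nat_lit 0, nat_lit 50978333, nat_lit 16021667, nat_lit 0, nat_lit 2750370, false, false⟩,
 nat_lit 2754, nat_lit 171, nat_lit 0, nat_lit 0, nat_lit 2733, nat_lit 1457, nat_lit 116, nat_lit 0, nat_lit 0, nat_lit 75, nat_lit 0, nat_lit 0, nat_lit 0, nat_lit 0, nat_lit 0, nat_lit 338800, nat_lit 0, nat_lit 0, [(nat_lit 27, [(nat_lit 1, nat_lit 847)])],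
 ⟨p108_k20, nat_lit 0, nat_lit 0, nat_lit 307, nat_lit 0, nat_lit 699935, [nat_lit 734381200, nat_lit 776912800], [], [nat_lit 21776236542, nat_lit 22548451203, nat_lit 24146592970, nat_lit 24883241593, nat_lit 21720787916, nat_lit 22308728255, nat_lit 23986292496, nat_lit 24501395942], nat_lit 1271250, nat_lit 1271250, nat_lit 1000851, nat_lit 1778250, nat_lit 0, nat_lit 490000, [nat_lit 230000, nat_lit 780000], [nat_lit 66, nat_lit 40, nat_lit 40, nat_lit 80, nat_lit 67, nat_lit 226, nat_lit 20, nat_lit 12]⟩, ⟨p108_k18, nat_lit 0, nat_lit 0, nat_lit 919, nat_lit 0, nat_lit 1387485, [nat_lit 717264000, nat_lit 1219104000, nat_lit 1816416000], [], [nat_lit 7184155916, nat_lit 6103561398, nat_lit 5929394356, nat_lit 5931846720, nat_lit 5851087946, nat_lit 5010560632, nat_lit 7810431348, nat_lit 6514376230], nat_lit 1271250, nat_lit 1271250, nat_lit 1000851, nat_lit 1778250, nat_lit 0, nat_lit 2373000, [nat_lit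 1100000, nat_lit 1785000, nat_lit 1271250], [nat_lit 21, nat_lit 40, nat_lit 40, nat_lit 80, nat_lit 14, nat_lit 456, nat_lit 225, nat_lit 12]⟩,
 ⟨nat_lit 1581, nat_lit 2237, ⟨.ofNat (nat_lit 471225), .ofNat (nat_lit 602558), .ofNat (nat_lit 516683), .ofNat (nat_lit 648016), .ofNat (nat_lit 475401), .ofNat (nat_lit 601260), .ofNat (nat_lit 521940), .ofNat (nat_lit 647799)⟩, ⟨.ofNat (nat_lit 0), .ofNat (nat_lit 146758), .ofNat (nat_lit 0), .ofNat (nat_lit 192306), .ofNat (nat_lit 0), .ofNat (nat_lit 149571), .ofNat (nat_lit 0), .ofNat (nat_lit 196201)⟩⟩, [⟨nat_lit 19, nat_lit 100, nat_lit 92, nat_lit 75, nat_lit 48863226⟩]⟩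
noncomputable def p108_l89 : Lf2 := ⟨nat_lit 0, nat_lit 10, [nat_lit 0, nat_lit 5, nat_lit 5, nat_lit 20], false, nat_lit 8, nat_lit 80, nat_lit 0, nat_lit 336, ⟨nat_lit 142, nat_lit 858, nat_lit 0, nat_lit 6, nat_lit 232, nat_lit 858, nat_lit 39, nat_lit 0, nat_lit 0, nat_lit 0, nat_lit 0, nat_lit 0, nat_lit 49114182, nat_lit 16815466, nat_lit 1070352, nat_lit 3296334, true, false⟩,
 nat_lit 2697, nat_lit 205, nat_lit 0, nat_lit 0, nat_lit 2806, nat_lit 1427, nat_lit 85, nat_lit 0, nat_lit 0, nat_lit 77, nat_lit 0, nat_lit 0, nat_lit 0, nat_lit 0, nat_lit 0, nat_lit 343200, nat_lit 0, nat_lit 0, [(nat_lit 27, [(nat_lit 1, nat_lit 858)])],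
 ⟨p108_k21, nat_lit 0, nat_lit 0, nat_lit 310, nat_lit 0, nat_lit 716176, [nat_lit 731736800, nat_lit 744379200], [], [nat_lit 23078690615, nat_lit 23917791388, nat_lit 24872717221, nat_lit 25653587663, nat_lit 22982533038, nat_lit 23564009202, nat_lit 24665323266, nat_lit 25212318064], nat_lit 1271250, nat_lit 1271250, nat_lit 1236400, nat_lit 1794000, nat_lit 43600, nat_lit 490000, [nat_lit 230000, nat_lit 780000], [nat_lit 66, nat_lit 40, nat_lit 40, nat_lit 80, nat_lit 67, nat_lit 226, nat_lit 20, nat_lit 12]⟩, ⟨p108_k18, nat_lit 0, nat_lit 0, nat_lit 965, nat_lit 0, nat_lit 1476687, [nat_lit 665696000, nat_lit 1131456000, nat_lit 1685824000], [], [nat_lit 5742306084, nat_lit 5156472638, nat_lit 5056588000, nat_lit 5055574440, nat_lit 6189901988, nat_lit 4894023881, nat_lit 4263855333, nat_lit 4423898959], nat_lit 1271250, nat_lit 1271250, nat_lit 1271250, nat_lit 1271250, nat_lit 0, nat_lit 2373000, [nat_lit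 1100000, nat_lit 1785000, nat_lit 1271250], [nat_lit 21, nat_lit 40, nat_lit 40, nat_lit 80, nat_lit 14, nat_lit 456, nat_lit 225, nat_lit 12]⟩,
 ⟨nat_lit 0, nat_lit 1582, ⟨.ofNat (nat_lit 511747), .ofNat (nat_lit 601257), .ofNat (nat_lit 557064), .ofNat (nat_lit 646579), .ofNat (nat_lit 517899), .ofNat (nat_lit 599992), .ofNat (nat_lit 566585), .ofNat (nat_lit 648683)⟩, ⟨.ofNat (nat_lit 20000), .ofNat (nat_lit 149570), .ofNat (nat_lit 20000), .ofNat (nat_lit 196201), .ofNat (nat_lit 20000), .ofNat (nat_lit 149998), .ofNat (nat_lit 20000), .ofNat (nat_lit 199999)⟩⟩, [⟨nat_lit 0, nat_lit 99, nat_lit 31, nat_lit 100, nat_lit 301665296⟩, ⟨nat_lit 3, nat_lit 100, nat_lit 52, nat_lit 53, nat_lit 62410308⟩, ⟨nat_lit 19, nat_lit 100, nat_lit 92, nat_lit 75, nat_lit 23259886⟩]⟩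
noncomputable def p108_l90 : Lf2 := ⟨nat_lit 0, nat_lit 10, [nat_lit 0, nat_lit 5, nat_lit 5, nat_lit 20], false, nat_lit 80, nat_lit 200, nat_lit 0, nat_lit 160, ⟨nat_lit 194, nat_lit 158, nat_lit 648, nat_lit 6, nat_lit 213, nat_lit 806, nat_lit 102, nat_lit 648, nat_lit 96267, nat_lit 291, nat_lit 27594, nat_lit 200, nat_lit 47997780, nat_lit 14431154, nat_lit 4571066, nat_lit 3996137, false, false⟩,
 nat_lit 3132, nat_lit 406, nat_lit 0, nat_lit 0, nat_lit 3081, nat_lit 1657, nat_lit 29, nat_lit 0, nat_lit 0, nat_lit 132, nat_lit 0, nat_lit 0, nat_lit 0, nat_lit 0, nat_lit 1, nat_lit 298700, nat_lit 0, nat_lit 0, [(nat_lit 24, [(nat_lit 0, nat_lit 158), (nat_lit 5, nat_lit 648)])],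
 ⟨p108_k17, nat_lit 0, nat_lit 0, nat_lit 315, nat_lit 0, nat_lit 711344, [nat_lit 778820001, nat_lit 363087200, nat_lit 1600000], [], [nat_lit 18492600685, nat_lit 19867734407, nat_lit 21630932881, nat_lit 22804444238, nat_lit 20835746083, nat_lit 21981320317, nat_lit 23587730614, nat_lit 24625944545], nat_lit 1271250, nat_lit 1271250, nat_lit 719601, nat_lit 1758000, nat_lit 490000, nat_lit 1427500, [nat_lit 230000, nat_lit 780000, nat_lit 1100000], [nat_lit 35, nat_lit 40, nat_lit 40, nat_lit 80, nat_lit 22, nat_lit 345, nat_lit 125, nat_lit 15]⟩, ⟨p108_k18, nat_lit 0, nat_lit 0, nat_lit 900, nat_lit 0, nat_lit 1299674, [nat_lit 909472000, nat_lit 1545792000, nat_lit 2303168000], [], [nat_lit 10364847558, nat_lit 8607757574, nat_lit 8284520172, nat_lit 8321256328, nat_lit 7537281492, nat_lit 7564980144, nat_lit 7275052568, nat_lit 7297385420], nat_lit 1271250, nat_lit 1271250, nat_lit 719601, nat_lit 1758000,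 nat_lit 0, nat_lit 1100001, [nat_lit 1100000, nat_lit 1785000, nat_lit 1271250], [nat_lit 21, nat_lit 40, nat_lit 40, nat_lit 80, nat_lit 14, nat_lit 401, nat_lit 175, nat_lit 10]⟩,
 ⟨nat_lit 2236, nat_lit 3163, ⟨.ofNat (nat_lit 409856), .ofNat (nat_lit 605240), .ofNat (nat_lit 454039), .ofNat (nat_lit 649422), .ofNat (nat_lit 419758), .ofNat (nat_lit 602541), .ofNat (nat_lit 465180), .ofNat (nat_lit 647962)⟩, ⟨.ofNat (nat_lit 139899), .ofNat (nat_lit 322759), .ofNat (nat_lit 184209), .ofNat (nat_lit 367069), .ofNat (nat_lit 146758), .ofNat (nat_lit 317804), .ofNat (nat_lit 192306), .ofNat (nat_lit 363353)⟩⟩, [⟨nat_lit 0, nat_lit 92, nat_lit 44, nat_lit 100, nat_lit 16231607⟩, ⟨nat_lit 4, nat_lit 100, nat_lit 54, nat_lit 73, nat_lit 319833308⟩]⟩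
noncomputable def p108_l91 : Lf2 := ⟨nat_lit 0, nat_lit 10, [nat_lit 0, nat_lit 5, nat_lit 5, nat_lit 20], false, nat_lit 80, nat_lit 164, nat_lit 0, nat_lit 160, ⟨nat_lit 182, nat_lit 818, nat_lit 0, nat_lit 6, nat_lit 224, nat_lit 818, nat_lit 91, nat_lit 0, nat_lit 0, nat_lit 0, nat_lit 0, nat_lit 0, nat_lit 47485910, nat_lit 15648104, nat_lit 3865986, nat_lit 3956415, false, false⟩,
 nat_lit 3308, nat_lit 0, nat_lit 0, nat_lit 0, nat_lit 3090, nat_lit 1751, nat_lit 152, nat_lit 0, nat_lit 0, nat_lit 106, nat_lit 0, nat_lit 0, nat_lit 0, nat_lit 0, nat_lit 0, nat_lit 327200, nat_lit 0, nat_lit 0, [(nat_lit 27, [(nat_lit 1, nat_lit 818)])],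
 ⟨p108_k20, nat_lit 0, nat_lit 0, nat_lit 280, nat_lit 0, nat_lit 744934, [nat_lit 741352800, nat_lit 862683200], [], [nat_lit 20334566188, nat_lit 22115544904, nat_lit 22812256320, nat_lit 24377125840, nat_lit 21578729023, nat_lit 22799742422, nat_lit 23796775125, nat_lit 24860642807], nat_lit 1271250, nat_lit 1271250, nat_lit 1000851, nat_lit 1778250, nat_lit 490000, nat_lit 1133651, [nat_lit 230000, nat_lit 780000], [nat_lit 66, nat_lit 40, nat_lit 40, nat_lit 80, nat_lit 67, nat_lit 260, nat_lit 50, nat_lit 14]⟩, ⟨p108_k18, nat_lit 0, nat_lit 0, nat_lit 976, nat_lit 0, nat_lit 1476687, [nat_lit 853216000, nat_lit 1450176000, nat_lit 2160704000], [], [nat_lit 8578785087, nat_lit 7177545175, nat_lit 6950931580, nat_lit 6920882924, nat_lit 6079766185, nat_lit 6049225897, nat_lit 6554078372, nat_lit 5810087424], nat_lit 1271250, nat_lit 1271250, nat_lit 1000851, nat_lit 1778250, nat_lit 0, nat_lit 1100001,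 [nat_lit 1100000, nat_lit 1785000, nat_lit 1271250], [nat_lit 21, nat_lit 40, nat_lit 40, nat_lit 80, nat_lit 14, nat_lit 401, nat_lit 175, nat_lit 10]⟩,
 ⟨nat_lit 0, nat_lit 2237, ⟨.ofNat (nat_lit 467180), .ofNat (nat_lit 602531), .ofNat (nat_lit 510875), .ofNat (nat_lit 646249), .ofNat (nat_lit 480752), .ofNat (nat_lit 599967), .ofNat (nat_lit 528899), .ofNat (nat_lit 648136)⟩, ⟨.ofNat (nat_lit 146756), .ofNat (nat_lit 266484), .ofNat (nat_lit 192306), .ofNat (nat_lit 312035), .ofNat (nat_lit 149997), .ofNat (nat_lit 254993), .ofNat (nat_lit 199999), .ofNat (nat_lit 304995)⟩⟩, [⟨nat_lit 0, nat_lit 95, nat_lit 31, nat_lit 100, nat_lit 78349067⟩, ⟨nat_lit 16, nat_lit 35, nat_lit 100, nat_lit 80, nat_lit 368479621⟩]⟩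
noncomputable def p108_l92 : Lf2 := ⟨nat_lit 0, nat_lit 10, [nat_lit 0, nat_lit 5, nat_lit 5, nat_lit 20], false, nat_lit 80, nat_lit 200, nat_lit 160, nat_lit 336, ⟨nat_lit 175, nat_lit 267, nat_lit 558, nat_lit 6, nat_lit 213, nat_lit 825, nat_lit 101, nat_lit 558, nat_lit 96267, nat_lit 291, nat_lit 23440, nat_lit 200, nat_lit 48049562, nat_lit 14446882, nat_lit 4503556, nat_lit 3983771, false, false⟩,
 nat_lit 3553, nat_lit 0, nat_lit 0, nat_lit 0, nat_lit 3094, nat_lit 1880, nat_lit 53, nat_lit 0, nat_lit 0, nat_lit 213, nat_lit 0, nat_lit 0, nat_lit 0, nat_lit 0, nat_lit 0, nat_lit 289950, nat_lit 0, nat_lit 0, [(nat_lit 24, [(nat_lit 0, nat_lit 267), (nat_lit 5, nat_lit 558)]), (nat_lit 27, [(nat_lit 0, nat_lit 267), (nat_lit 5, nat_lit 558)])],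
 ⟨p108_k17, nat_lit 0, nat_lit 0, nat_lit 361, nat_lit 0, nat_lit 808228, [nat_lit 779294001, nat_lit 507426000, nat_lit 284340800], [], [nat_lit 19269770733, nat_lit 21813659241, nat_lit 22214050194, nat_lit 24382896944, nat_lit 21442146900, nat_lit 23670383049, nat_lit 24054693510, nat_lit 26003827671], nat_lit 1271250, nat_lit 1271250, nat_lit 719601, nat_lit 1758000, nat_lit 490000, nat_lit 1427500, [nat_lit 230000, nat_lit 780000, nat_lit 1100000], [nat_lit 35, nat_lit 40, nat_lit 40, nat_lit 80, nat_lit 22, nat_lit 345, nat_lit 125, nat_lit 15]⟩, ⟨p108_k18, nat_lit 0, nat_lit 0, nat_lit 879, nat_lit 0, nat_lit 1476687, [nat_lit 820400000, nat_lit 1394400000, nat_lit 2077600000], [], [nat_lit 6168777396, nat_lit 4607167677, nat_lit 7484789380, nat_lit 5713054820, nat_lit 4639348214, nat_lit 4766637721, nat_lit 4475234149, nat_lit 4914607449], nat_lit 1271250, nat_lit 1271250, nat_lit 719601, nat_lit 1758000,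 nat_lit 1271250, nat_lit 1271250, [nat_lit 1100000, nat_lit 1785000, nat_lit 1271250], [nat_lit 21, nat_lit 40, nat_lit 40, nat_lit 80, nat_lit 14, nat_lit 456, nat_lit 225, nat_lit 11]⟩,
 ⟨nat_lit 0, nat_lit 3163, ⟨.ofNat (nat_lit 401957), .ofNat (nat_lit 605128), .ofNat (nat_lit 443658), .ofNat (nat_lit 646918), .ofNat (nat_lit 431745), .ofNat (nat_lit 599865), .ofNat (nat_lit 479136), .ofNat (nat_lit 647345)⟩, ⟨.ofNat (nat_lit 139898), .ofNat (nat_lit 322753), .ofNat (nat_lit 184209), .ofNat (nat_lit 367065), .ofNat (nat_lit 149998), .ofNat (nat_lit 299993), .ofNat (nat_lit 199999), .ofNat (nat_lit 349995)⟩⟩, [⟨nat_lit 0, nat_lit 96, nat_lit 44, nat_lit 100, nat_lit 5910278⟩, ⟨nat_lit 4, nat_lit 100, nat_lit 46, nat_lit 75, nat_lit 340152732⟩, ⟨nat_lit 7, nat_lit 92, nat_lit 100, nat_lit 75, nat_lit 17007980⟩]⟩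
noncomputable def p108_l93 : Lf2 := ⟨nat_lit 0, nat_lit 10, [nat_lit 0, nat_lit 5, nat_lit 5, nat_lit 20], false, nat_lit 0, nat_lit 80, nat_lit 0, nat_lit 336, ⟨nat_lit 220, nat_lit 780, nat_lit 0, nat_lit 6, nat_lit 283, nat_lit 780, nat_lit 33, nat_lit 0, nat_lit 0, nat_lit 0, nat_lit 0, nat_lit 0, nat_lit 44598451, nat_lit 22401549, nat_lit 0, nat_lit 3186087, true, true⟩,
 nat_lit 3730, nat_lit 0, nat_lit 0, nat_lit 0, nat_lit 3248, nat_lit 1974, nat_lit 127, nat_lit 0, nat_lit 0, nat_lit 167, nat_lit 0, nat_lit 0, nat_lit 0, nat_lit 0, nat_lit 0, nat_lit 345600, nat_lit 0, nat_lit 0, [(nat_lit 24, [(nat_lit 1, nat_lit 724), (nat_lit 2, nat_lit 56)])],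
 ⟨p108_k17, nat_lit 0, nat_lit 0, nat_lit 339, nat_lit 0, nat_lit 626791, [nat_lit 902520000, nat_lit 1417632534, nat_lit 1605238400], [], [nat_lit 25645958217, nat_lit 26102214993, nat_lit 30159393313, nat_lit 30781233249, nat_lit 25130417705, nat_lit 25562473798, nat_lit 28972650021, nat_lit 29339591377], nat_lit 1271250, nat_lit 1271250, nat_lit 1271250, nat_lit 1271250, nat_lit 0, nat_lit 490000, [nat_lit 230000, nat_lit 780000, nat_lit 1100000], [nat_lit 35, nat_lit 40, nat_lit 40, nat_lit 80, nat_lit 22, nat_lit 226, nat_lit 20, nat_lit 9]⟩, ⟨p108_k18, nat_lit 0, nat_lit 0, nat_lit 778, nat_lit 0, nat_lit 1145190, [nat_lit 1031360000, nat_lit 1752960000, nat_lit 2611840000], [], [nat_lit 8457965628, nat_lit 8490970332, nat_lit 8954253819, nat_lit 8973710293, nat_lit 7338303773, nat_lit 7340293755, nat_lit 7495448263, nat_lit 7523602814], nat_lit 1271250, nat_lit 1271250, nat_lit 1271250, nat_lit 1271250,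 nat_lit 0, nat_lit 2373000, [nat_lit 1100000, nat_lit 1785000, nat_lit 1271250], [nat_lit 21, nat_lit 40, nat_lit 40, nat_lit 80, nat_lit 14, nat_lit 483, nat_lit 250, nat_lit 12]⟩,
 ⟨nat_lit 2738, nat_lit 3163, ⟨.ofNat (nat_lit 605257), .ofNat (nat_lit 794217), .ofNat (nat_lit 627400), .ofNat (nat_lit 816372), .ofNat (nat_lit 603890), .ofNat (nat_lit 786985), .ofNat (nat_lit 626295), .ofNat (nat_lit 809402)⟩, ⟨.ofNat (nat_lit 0), .ofNat (nat_lit 139899), .ofNat (nat_lit 0), .ofNat (nat_lit 184209), .ofNat (nat_lit 0), .ofNat (nat_lit 143475), .ofNat (nat_lit 0), .ofNat (nat_lit 188310)⟩⟩, [⟨nat_lit 10, nat_lit 100, nat_lit 70, nat_lit 61, nat_lit 46755555⟩]⟩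
noncomputable def p108_l94 : Lf2 := ⟨nat_lit 0, nat_lit 10, [nat_lit 0, nat_lit 5, nat_lit 5, nat_lit 20], false, nat_lit 0, nat_lit 80, nat_lit 0, nat_lit 320, ⟨nat_lit 548, nat_lit 452, nat_lit 0, nat_lit 6, nat_lit 296, nat_lit 452, nat_lit 33, nat_lit 0, nat_lit 0, nat_lit 0, nat_lit 0, nat_lit 0, nat_lit 43292494, nat_lit 23707506, nat_lit 0, nat_lit 3248966, true, true⟩,
 nat_lit 6637, nat_lit 0, nat_lit 0, nat_lit 0, nat_lit 4459, nat_lit 3863, nat_lit 0, nat_lit 0, nat_lit 0, nat_lit 887, nat_lit 0, nat_lit 0, nat_lit 0, nat_lit 0, nat_lit 0, nat_lit 385400, nat_lit 0, nat_lit 0, [(nat_lit 24, [(nat_lit 1, nat_lit 111), (nat_lit 2, nat_lit 341)])],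
 ⟨p108_k17, nat_lit 0, nat_lit 0, nat_lit 353, nat_lit 0, nat_lit 664114, [nat_lit 1108740001, nat_lit 1748015201, nat_lit 1961863200], [], [nat_lit 25959215372, nat_lit 26964339661, nat_lit 34339179640, nat_lit 35036282323, nat_lit 22971019372, nat_lit 23488879856, nat_lit 30635053043, nat_lit 31305175777], nat_lit 1271250, nat_lit 1271250, nat_lit 1271250, nat_lit 1271250, nat_lit 0, nat_lit 490000, [nat_lit 230000, nat_lit 780000, nat_lit 1100000], [nat_lit 35, nat_lit 40, nat_lit 40, nat_lit 80, nat_lit 22, nat_lit 226, nat_lit 20, nat_lit 9]⟩, ⟨p108_k22, nat_lit 0, nat_lit 0, nat_lit 674, nat_lit 0, nat_lit 1077763, [nat_lit 2569024000, nat_lit 4366464000, nat_lit 5393416000], [], [nat_lit 17706451632, nat_lit 17897944464, nat_lit 19350039973, nat_lit 19473978744, nat_lit 16413331380, nat_lit 16488204904, nat_lit 17668814475, nat_lit 18014156080], nat_lit 1271250, nat_lit 1271250, nat_lit 1271250, nat_lit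 1271250, nat_lit 0, nat_lit 2260000, [nat_lit 1100000, nat_lit 1785000, nat_lit 1271250], [nat_lit 29, nat_lit 40, nat_lit 40, nat_lit 80, nat_lit 17, nat_lit 483, nat_lit 250, nat_lit 14]⟩,
 ⟨nat_lit 2738, nat_lit 3163, ⟨.ofNat (nat_lit 627400), .ofNat (nat_lit 834658), .ofNat (nat_lit 649542), .ofNat (nat_lit 856813), .ofNat (nat_lit 626295), .ofNat (nat_lit 827121), .ofNat (nat_lit 648700), .ofNat (nat_lit 849538)⟩, ⟨.ofNat (nat_lit 0), .ofNat (nat_lit 139899), .ofNat (nat_lit 0), .ofNat (nat_lit 184209), .ofNat (nat_lit 0), .ofNat (nat_lit 143475), .ofNat (nat_lit 0), .ofNat (nat_lit 188310)⟩⟩, [⟨nat_lit 22, nat_lit 84, nat_lit 100, nat_lit 60, nat_lit 156689848⟩]⟩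
noncomputable def p108_l95 : Lf2 := ⟨nat_lit 0, nat_lit 10, [nat_lit 0, nat_lit 5, nat_lit 5, nat_lit 20], false, nat_lit 0, nat_lit 80, nat_lit 0, nat_lit 336, ⟨nat_lit 196, nat_lit 804, nat_lit 0, nat_lit 6, nat_lit 278, nat_lit 804, nat_lit 34, nat_lit 0, nat_lit 0, nat_lit 0, nat_lit 0, nat_lit 0, nat_lit 45145209, nat_lit 21854791, nat_lit 0, nat_lit 3157240, true, true⟩,
 nat_lit 3356, nat_lit 0, nat_lit 0, nat_lit 0, nat_lit 3028, nat_lit 1776, nat_lit 269, nat_lit 0, nat_lit 0, nat_lit 156, nat_lit 0, nat_lit 0, nat_lit 0, nat_lit 0, nat_lit 0, nat_lit 201000, nat_lit 0, nat_lit 0, [(nat_lit 24, [(nat_lit 0, nat_lit 804)])],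
 ⟨p108_k19, nat_lit 0, nat_lit 0, nat_lit 346, nat_lit 0, nat_lit 649774, [nat_lit 797460801, nat_lit 1742500801, nat_lit 2290150400], [], [nat_lit 24922414708, nat_lit 25425881504, nat_lit 29482844084, nat_lit 30106471914, nat_lit 24640599228, nat_lit 25127772719, nat_lit 28387231555, nat_lit 28791693662], nat_lit 1271250, nat_lit 1271250, nat_lit 1271250, nat_lit 1271250, nat_lit 0, nat_lit 490000, [nat_lit 230000, nat_lit 780000, nat_lit 1100000], [nat_lit 35, nat_lit 40, nat_lit 40, nat_lit 80, nat_lit 22, nat_lit 226, nat_lit 20, nat_lit 9]⟩, ⟨p108_k18, nat_lit 0, nat_lit 0, nat_lit 828, nat_lit 0, nat_lit 1237191, [nat_lit 918848000, nat_lit 1561728000, nat_lit 2326912000], [], [nat_lit 7439679040, nat_lit 7489399952, nat_lit 7842865700, nat_lit 7863043017, nat_lit 6445581332, nat_lit 6446752205, nat_lit 6555572559, nat_lit 6538024349], nat_lit 1271250, nat_lit 1271250, nat_lit 1271250, nat_lit 1271250,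 nat_lit 0, nat_lit 2373000, [nat_lit 1100000, nat_lit 1785000, nat_lit 1271250], [nat_lit 21, nat_lit 40, nat_lit 40, nat_lit 80, nat_lit 14, nat_lit 483, nat_lit 250, nat_lit 12]⟩,
 ⟨nat_lit 2236, nat_lit 2739, ⟨.ofNat (nat_lit 603890), .ofNat (nat_lit 769266), .ofNat (nat_lit 626287), .ofNat (nat_lit 791684), .ofNat (nat_lit 602558), .ofNat (nat_lit 762206), .ofNat (nat_lit 625312), .ofNat (nat_lit 784980)⟩, ⟨.ofNat (nat_lit 0), .ofNat (nat_lit 143475), .ofNat (nat_lit 0), .ofNat (nat_lit 188310), .ofNat (nat_lit 0), .ofNat (nat_lit 146758), .ofNat (nat_lit 0), .ofNat (nat_lit 192306)⟩⟩, [⟨nat_lit 13, nat_lit 50, nat_lit 75, nat_lit 100, nat_lit 56697672⟩, ⟨nat_lit 10, nat_lit 100, nat_lit 70, nat_lit 61, nat_lit 40713504⟩]⟩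
noncomputable def p108_l96 : Lf2 := ⟨nat_lit 0, nat_lit 10, [nat_lit 0, nat_lit 5, nat_lit 5, nat_lit 20], false, nat_lit 0, nat_lit 80, nat_lit 0, nat_lit 320, ⟨nat_lit 457, nat_lit 543, nat_lit 0, nat_lit 6, nat_lit 292, nat_lit 543, nat_lit 34, nat_lit 0, nat_lit 0, nat_lit 0, nat_lit 0, nat_lit 0, nat_lit 43709409, nat_lit 23290591, nat_lit 0, nat_lit 3229805, true, true⟩,
 nat_lit 5723, nat_lit 0, nat_lit 0, nat_lit 0, nat_lit 3695, nat_lit 3331, nat_lit 320, nat_lit 0, nat_lit 0, nat_lit 635, nat_lit 0, nat_lit 0, nat_lit 0, nat_lit 0, nat_lit 0, nat_lit 135750, nat_lit 0, nat_lit 0, [(nat_lit 24, [(nat_lit 0, nat_lit 543)])],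
 ⟨p108_k19, nat_lit 0, nat_lit 0, nat_lit 358, nat_lit 0, nat_lit 682590, [nat_lit 843083601, nat_lit 2242263600, nat_lit 3068556800], [], [nat_lit 25357128905, nat_lit 26260357750, nat_lit 32296304444, nat_lit 32948075069, nat_lit 23021954854, nat_lit 23536222099, nat_lit 29398435618, nat_lit 30024742740], nat_lit 1271250, nat_lit 1271250, nat_lit 1271250, nat_lit 1271250, nat_lit 0, nat_lit 490000, [nat_lit 230000, nat_lit 780000, nat_lit 1100000], [nat_lit 35, nat_lit 40, nat_lit 40, nat_lit 80, nat_lit 22, nat_lit 226, nat_lit 20, nat_lit 9]⟩, ⟨p108_k22, nat_lit 0, nat_lit 0, nat_lit 719, nat_lit 0, nat_lit 1154411, [nat_lit 2142416000, nat_lit 3641376000, nat_lit 4497794000], [], [nat_lit 15240573812, nat_lit 15362081052, nat_lit 16248266733, nat_lit 16308892149, nat_lit 13885544700, nat_lit 13921790300, nat_lit 14554416322, nat_lit 14857558731], nat_lit 1271250, nat_lit 1271250, nat_lit 1271250, nat_lit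 1271250, nat_lit 0, nat_lit 2260000, [nat_lit 1100000, nat_lit 1785000, nat_lit 1271250], [nat_lit 29, nat_lit 40, nat_lit 40, nat_lit 80, nat_lit 17, nat_lit 483, nat_lit 250, nat_lit 14]⟩,
 ⟨nat_lit 2236, nat_lit 2739, ⟨.ofNat (nat_lit 626287), .ofNat (nat_lit 815308), .ofNat (nat_lit 648684), .ofNat (nat_lit 837726), .ofNat (nat_lit 625312), .ofNat (nat_lit 807787), .ofNat (nat_lit 648065), .ofNat (nat_lit 830561)⟩, ⟨.ofNat (nat_lit 0), .ofNat (nat_lit 143475), .ofNat (nat_lit 0), .ofNat (nat_lit 188310), .ofNat (nat_lit 0), .ofNat (nat_lit 146758), .ofNat (nat_lit 0), .ofNat (nat_lit 192306)⟩⟩, [⟨nat_lit 22, nat_lit 86, nat_lit 100, nat_lit 60, nat_lit 120591482⟩]⟩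
noncomputable def p108_l97 : Lf2 := ⟨nat_lit 0, nat_lit 10, [nat_lit 0, nat_lit 5, nat_lit 5, nat_lit 20], false, nat_lit 0, nat_lit 80, nat_lit 0, nat_lit 336, ⟨nat_lit 175, nat_lit 825, nat_lit 0, nat_lit 6, nat_lit 282, nat_lit 825, nat_lit 34, nat_lit 0, nat_lit 0, nat_lit 0, nat_lit 0, nat_lit 0, nat_lit 44790969, nat_lit 22209031, nat_lit 0, nat_lit 3176101, true, true⟩,
 nat_lit 2985, nat_lit 0, nat_lit 0, nat_lit 0, nat_lit 2788, nat_lit 1580, nat_lit 85, nat_lit 0, nat_lit 0, nat_lit 131, nat_lit 0, nat_lit 0, nat_lit 0, nat_lit 0, nat_lit 0, nat_lit 330000, nat_lit 0, nat_lit 0, [(nat_lit 27, [(nat_lit 1, nat_lit 825)])],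
 ⟨p108_k20, nat_lit 0, nat_lit 0, nat_lit 313, nat_lit 0, nat_lit 677678, [nat_lit 739670000, nat_lit 841980000], [], [nat_lit 24662055073, nat_lit 24930894629, nat_lit 29432309226, nat_lit 29733444725, nat_lit 24519753361, nat_lit 24771458021, nat_lit 28330134765, nat_lit 28551640725], nat_lit 1271250, nat_lit 1271250, nat_lit 1271250, nat_lit 1271250, nat_lit 0, nat_lit 490000, [nat_lit 230000, nat_lit 780000], [nat_lit 66, nat_lit 40, nat_lit 40, nat_lit 80, nat_lit 67, nat_lit 226, nat_lit 20, nat_lit 11]⟩, ⟨p108_k18, nat_lit 0, nat_lit 0, nat_lit 869, nat_lit 0, nat_lit 1343365, [nat_lit 820400000, nat_lit 1394400000, nat_lit 2077600000], [], [nat_lit 7019274940, nat_lit 7055564600, nat_lit 7217085092, nat_lit 7213730016, nat_lit 5978447516, nat_lit 5949168740, nat_lit 5977231565, nat_lit 5950679401], nat_lit 1271250, nat_lit 1271250, nat_lit 1271250, nat_lit 1271250, nat_lit 0, nat_lit 2373000, [nat_lit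 1100000, nat_lit 1785000, nat_lit 1271250], [nat_lit 21, nat_lit 40, nat_lit 40, nat_lit 80, nat_lit 14, nat_lit 483, nat_lit 250, nat_lit 12]⟩,
 ⟨nat_lit 1936, nat_lit 2237, ⟨.ofNat (nat_lit 602562), .ofNat (nat_lit 762206), .ofNat (nat_lit 648093), .ofNat (nat_lit 807755), .ofNat (nat_lit 601908), .ofNat (nat_lit 758399), .ofNat (nat_lit 647913), .ofNat (nat_lit 804421)⟩, ⟨.ofNat (nat_lit 0), .ofNat (nat_lit 146758), .ofNat (nat_lit 0), .ofNat (nat_lit 192306), .ofNat (nat_lit 0), .ofNat (nat_lit 148244), .ofNat (nat_lit 0), .ofNat (nat_lit 194266)⟩⟩, [⟨nat_lit 13, nat_lit 43, nat_lit 78, nat_lit 100, nat_lit 74621672⟩, ⟨nat_lit 10, nat_lit 100, nat_lit 70, nat_lit 61, nat_lit 32859738⟩]⟩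
noncomputable def p108_l98 : Lf2 := ⟨nat_lit 0, nat_lit 10, [nat_lit 0, nat_lit 5, nat_lit 5, nat_lit 20], false, nat_lit 4, nat_lit 80, nat_lit 0, nat_lit 336, ⟨nat_lit 160, nat_lit 840, nat_lit 0, nat_lit 6, nat_lit 279, nat_lit 840, nat_lit 36, nat_lit 0, nat_lit 0, nat_lit 0, nat_lit 0, nat_lit 0, nat_lit 44379778, nat_lit 21687770, nat_lit 932452, nat_lit 3574646, true, true⟩,
 nat_lit 2796, nat_lit 0, nat_lit 0, nat_lit 0, nat_lit 2657, nat_lit 1480, nat_lit 54, nat_lit 0, nat_lit 0, nat_lit 117, nat_lit 0, nat_lit 0, nat_lit 0, nat_lit 0, nat_lit 0, nat_lit 336000, nat_lit 0, nat_lit 0, [(nat_lit 27, [(nat_lit 1, nat_lit 840)])],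
 ⟨p108_k23, nat_lit 0, nat_lit 0, nat_lit 313, nat_lit 0, nat_lit 686215, [nat_lit 736064000, nat_lit 797616000], [], [nat_lit 25386768312, nat_lit 25649393400, nat_lit 28958818152, nat_lit 29176351187, nat_lit 25299195044, nat_lit 25546010784, nat_lit 28688221110, nat_lit 28893820874], nat_lit 1271250, nat_lit 1271250, nat_lit 1271250, nat_lit 1271250, nat_lit 21650, nat_lit 490000, [nat_lit 230000, nat_lit 780000], [nat_lit 66, nat_lit 40, nat_lit 40, nat_lit 80, nat_lit 67, nat_lit 226, nat_lit 20, nat_lit 11]⟩, ⟨p108_k18, nat_lit 0, nat_lit 0, nat_lit 887, nat_lit 0, nat_lit 1387485, [nat_lit 750080000, nat_lit 1274880000, nat_lit 1899520000], [], [nat_lit 6232221120, nat_lit 6263561920, nat_lit 6390106081, nat_lit 6387244352, nat_lit 5238782176, nat_lit 5209053760, nat_lit 5280594624, nat_lit 5381505152], nat_lit 1271250, nat_lit 1271250, nat_lit 1271250, nat_lit 1271250, nat_lit 0, nat_lit 2373000, [nat_lit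 1100000, nat_lit 1785000, nat_lit 1271250], [nat_lit 21, nat_lit 40, nat_lit 40, nat_lit 80, nat_lit 14, nat_lit 483, nat_lit 250, nat_lit 12]⟩,
 ⟨nat_lit 1581, nat_lit 1937, ⟨.ofNat (nat_lit 601908), .ofNat (nat_lit 747221), .ofNat (nat_lit 647901), .ofNat (nat_lit 793243), .ofNat (nat_lit 601263), .ofNat (nat_lit 743317), .ofNat (nat_lit 647865), .ofNat (nat_lit 789947)⟩, ⟨.ofNat (nat_lit 10000), .ofNat (nat_lit 148244), .ofNat (nat_lit 10000), .ofNat (nat_lit 194266), .ofNat (nat_lit 10000), .ofNat (nat_lit 149571), .ofNat (nat_lit 10000), .ofNat (nat_lit 196201)⟩⟩, [⟨nat_lit 13, nat_lit 36, nat_lit 83, nat_lit 100, nat_lit 111145936⟩, ⟨nat_lit 3, nat_lit 100, nat_lit 49, nat_lit 60, nat_lit 32565205⟩, ⟨nat_lit 10, nat_lit 100, nat_lit 69, nat_lit 62, nat_lit 20317088⟩, ⟨nat_lit 22, nat_lit 90, nat_lit 100, nat_lit 32, nat_lit 23436430⟩]⟩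
noncomputable def p108_l99 : Lf2 := ⟨nat_lit 0, nat_lit 10, [nat_lit 0, nat_lit 5, nat_lit 5, nat_lit 20], false, nat_lit 8, nat_lit 80, nat_lit 0, nat_lit 336, ⟨nat_lit 158, nat_lit 842, nat_lit 0, nat_lit 6, nat_lit 276, nat_lit 842, nat_lit 39, nat_lit 0, nat_lit 0, nat_lit 0, nat_lit 0, nat_lit 0, nat_lit 44615562, nat_lit 21358736, nat_lit 1025702, nat_lit 3589564, true, true⟩,
 nat_lit 2763, nat_lit 0, nat_lit 0, nat_lit 0, nat_lit 2671, nat_lit 1462, nat_lit 44, nat_lit 0, nat_lit 0, nat_lit 121, nat_lit 0, nat_lit 0, nat_lit 0, nat_lit 0, nat_lit 0, nat_lit 336800, nat_lit 0, nat_lit 0, [(nat_lit 27, [(nat_lit 1, nat_lit 842)])],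
 ⟨p108_k21, nat_lit 0, nat_lit 0, nat_lit 313, nat_lit 0, nat_lit 694478, [nat_lit 735583200, nat_lit 791700800], [], [nat_lit 25588546369, nat_lit 25850909330, nat_lit 28813103618, nat_lit 29033891895, nat_lit 25484088752, nat_lit 25731426972, nat_lit 28553166291, nat_lit 28762334279], nat_lit 1271250, nat_lit 1271250, nat_lit 1271250, nat_lit 1271250, nat_lit 43600, nat_lit 490000, [nat_lit 230000, nat_lit 780000], [nat_lit 66, nat_lit 40, nat_lit 40, nat_lit 80, nat_lit 67, nat_lit 226, nat_lit 20, nat_lit 11]⟩, ⟨p108_k18, nat_lit 0, nat_lit 0, nat_lit 904, nat_lit 0, nat_lit 1431949, [nat_lit 740704000, nat_lit 1258944000, nat_lit 1875776000], [], [nat_lit 6151701800, nat_lit 6182624896, nat_lit 6287986634, nat_lit 6287864236, nat_lit 5170090567, nat_lit 5140691992, nat_lit 5151593777, nat_lit 5225287137], nat_lit 1271250, nat_lit 1271250, nat_lit 1271250, nat_lit 1271250, nat_lit 0, nat_lit 2373000, [nat_lit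 1100000, nat_lit 1785000, nat_lit 1271250], [nat_lit 21, nat_lit 40, nat_lit 40, nat_lit 80, nat_lit 14, nat_lit 483, nat_lit 250, nat_lit 12]⟩,
 ⟨nat_lit 1118, nat_lit 1582, ⟨.ofNat (nat_lit 601263), .ofNat (nat_lit 732390), .ofNat (nat_lit 647829), .ofNat (nat_lit 779020), .ofNat (nat_lit 600626), .ofNat (nat_lit 728133), .ofNat (nat_lit 648063), .ofNat (nat_lit 775634)⟩, ⟨.ofNat (nat_lit 20000), .ofNat (nat_lit 149571), .ofNat (nat_lit 20000), .ofNat (nat_lit 196201), .ofNat (nat_lit 20000), .ofNat (nat_lit 150610), .ofNat (nat_lit 20000), .ofNat (nat_lit 198112)⟩⟩, [⟨nat_lit 13, nat_lit 28, nat_lit 88, nat_lit 100, nat_lit 163754640⟩, ⟨nat_lit 3, nat_lit 100, nat_lit 38, nat_lit 70, nat_lit 38238399⟩, ⟨nat_lit 22, nat_lit 92, nat_lit 100, nat_lit 64, nat_lit 24519957⟩]⟩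
noncomputable def p108_l100 : Lf2 := ⟨nat_lit 0, nat_lit 10, [nat_lit 0, nat_lit 5, nat_lit 5, nat_lit 20], false, nat_lit 16, nat_lit 80, nat_lit 0, nat_lit 336, ⟨nat_lit 155, nat_lit 845, nat_lit 0, nat_lit 6, nat_lit 270, nat_lit 845, nat_lit 43, nat_lit 0, nat_lit 0, nat_lit 0, nat_lit 0, nat_lit 0, nat_lit 45017254, nat_lit 20779129, nat_lit 1203617, nat_lit 3617146, true, true⟩,
 nat_lit 2757, nat_lit 0, nat_lit 0, nat_lit 0, nat_lit 2710, nat_lit 1459, nat_lit 14, nat_lit 0, nat_lit 0, nat_lit 127, nat_lit 0, nat_lit 0, nat_lit 0, nat_lit 0, nat_lit 0, nat_lit 338000, nat_lit 0, nat_lit 0, [(nat_lit 27, [(nat_lit 1, nat_lit 845)])],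
 ⟨p108_k24, nat_lit 0, nat_lit 0, nat_lit 271, nat_lit 0, nat_lit 702445, [nat_lit 734862000, nat_lit 684056000], [], [nat_lit 25469706193, nat_lit 25753958736, nat_lit 28246606017, nat_lit 28492057369, nat_lit 25327930025, nat_lit 25597384240, nat_lit 27987976260, nat_lit 28221544120], nat_lit 1271250, nat_lit 1271250, nat_lit 1271250, nat_lit 1271250, nat_lit 88400, nat_lit 490000, [nat_lit 230000, nat_lit 490000], [nat_lit 193, nat_lit 40, nat_lit 40, nat_lit 80, nat_lit 5, nat_lit 226, nat_lit 20, nat_lit 16]⟩, ⟨p108_k18, nat_lit 0, nat_lit 0, nat_lit 923, nat_lit 0, nat_lit 1476687, [nat_lit 726640000, nat_lit 1235040000, nat_lit 1840160000], [], [nat_lit 5905328132, nat_lit 5934379360, nat_lit 5998590016, nat_lit 6002203684, nat_lit 4913125197, nat_lit 4882216732, nat_lit 4880724761, nat_lit 4955944656], nat_lit 1271250, nat_lit 1271250, nat_lit 1271250, nat_lit 1271250, nat_lit 0, nat_lit 2373000, [nat_lit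 1100000, nat_lit 1785000, nat_lit 1271250], [nat_lit 21, nat_lit 40, nat_lit 40, nat_lit 80, nat_lit 14, nat_lit 483, nat_lit 250, nat_lit 12]⟩,
 ⟨nat_lit 0, nat_lit 1119, ⟨.ofNat (nat_lit 600626), .ofNat (nat_lit 706878), .ofNat (nat_lit 647199), .ofNat (nat_lit 754382), .ofNat (nat_lit 599998), .ofNat (nat_lit 699995), .ofNat (nat_lit 649068), .ofNat (nat_lit 749998)⟩, ⟨.ofNat (nat_lit 40000), .ofNat (nat_lit 150608), .ofNat (nat_lit 40000), .ofNat (nat_lit 198112), .ofNat (nat_lit 40000), .ofNat (nat_lit 149997), .ofNat (nat_lit 40000), .ofNat (nat_lit 199999)⟩⟩, [⟨nat_lit 13, nat_lit 17, nat_lit 94, nat_lit 100, nat_lit 308595459⟩, ⟨nat_lit 22, nat_lit 96, nat_lit 100, nat_lit 68, nat_lit 21025783⟩]⟩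
noncomputable def p108_l101 : Lf2 := ⟨nat_lit 0, nat_lit 10, [nat_lit 0, nat_lit 5, nat_lit 5, nat_lit 20], false, nat_lit 80, nat_lit 200, nat_lit 0, nat_lit 336, ⟨nat_lit 223, nat_lit 777, nat_lit 0, nat_lit 6, nat_lit 274, nat_lit 777, nat_lit 102, nat_lit 0, nat_lit 0, nat_lit 0, nat_lit 0, nat_lit 0, nat_lit 42239682, nat_lit 20467202, nat_lit 4293116, nat_lit 4389377, true, true⟩,
 nat_lit 3944, nat_lit 0, nat_lit 0, nat_lit 0, nat_lit 3434, nat_lit 2087, nat_lit 95, nat_lit 0, nat_lit 0, nat_lit 185, nat_lit 0, nat_lit 0, nat_lit 0, nat_lit 0, nat_lit 0, nat_lit 386400, nat_lit 0, nat_lit 0, [(nat_lit 24, [(nat_lit 1, nat_lit 651), (nat_lit 2, nat_lit 126)])],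
 ⟨p108_k17, nat_lit 0, nat_lit 0, nat_lit 304, nat_lit 0, nat_lit 711344, [nat_lit 946190000, nat_lit 1321577200, nat_lit 1403247200], [], [nat_lit 23587880993, nat_lit 24488081337, nat_lit 25983390600, nat_lit 26896565632, nat_lit 24874709592, nat_lit 25710395732, nat_lit 27239376028, nat_lit 28108408276], nat_lit 1271250, nat_lit 1271250, nat_lit 1271250, nat_lit 1271250, nat_lit 490000, nat_lit 1427500, [nat_lit 230000, nat_lit 780000, nat_lit 1100000], [nat_lit 35, nat_lit 40, nat_lit 40, nat_lit 80, nat_lit 22, nat_lit 260, nat_lit 50, nat_lit 10]⟩, ⟨p108_k18, nat_lit 0, nat_lit 0, nat_lit 852, nat_lit 0, nat_lit 1299674, [nat_lit 1045424000, nat_lit 1776864000, nat_lit 2647456000], [], [nat_lit 8559255220, nat_lit 8601678176, nat_lit 8694413696, nat_lit 8700412820, nat_lit 7146021287, nat_lit 7102561772, nat_lit 7101196726, nat_lit 7120916205], nat_lit 1271250, nat_lit 1271250, nat_lit 1271250, nat_lit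 1271250, nat_lit 0, nat_lit 2373000, [nat_lit 1100000, nat_lit 1785000, nat_lit 1271250], [nat_lit 21, nat_lit 40, nat_lit 40, nat_lit 80, nat_lit 14, nat_lit 483, nat_lit 250, nat_lit 12]⟩,
 ⟨nat_lit 2236, nat_lit 3163, ⟨.ofNat (nat_lit 605240), .ofNat (nat_lit 727168), .ofNat (nat_lit 649422), .ofNat (nat_lit 771478), .ofNat (nat_lit 602541), .ofNat (nat_lit 716594), .ofNat (nat_lit 647962), .ofNat (nat_lit 762142)⟩, ⟨.ofNat (nat_lit 139899), .ofNat (nat_lit 322759), .ofNat (nat_lit 184209), .ofNat (nat_lit 367069), .ofNat (nat_lit 146758), .ofNat (nat_lit 317804), .ofNat (nat_lit 192306), .ofNat (nat_lit 363353)⟩⟩, [⟨nat_lit 16, nat_lit 54, nat_lit 100, nat_lit 73, nat_lit 234669530⟩, ⟨nat_lit 7, nat_lit 92, nat_lit 100, nat_lit 75, nat_lit 24924035⟩]⟩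
noncomputable def p108_l102 : Lf2 := ⟨nat_lit 0, nat_lit 10, [nat_lit 0, nat_lit 5, nat_lit 5, nat_lit 20], false, nat_lit 80, nat_lit 164, nat_lit 0, nat_lit 336, ⟨nat_lit 176, nat_lit 824, nat_lit 0, nat_lit 6, nat_lit 271, nat_lit 824, nat_lit 91, nat_lit 0, nat_lit 0, nat_lit 0, nat_lit 0, nat_lit 0, nat_lit 42983232, nat_lit 20333594, nat_lit 3683174, nat_lit 4252315, true, true⟩,
 nat_lit 3093, nat_lit 0, nat_lit 0, nat_lit 0, nat_lit 2889, nat_lit 1637, nat_lit 81, nat_lit 0, nat_lit 0, nat_lit 148, nat_lit 0, nat_lit 0, nat_lit 0, nat_lit 0, nat_lit 0, nat_lit 329600, nat_lit 0, nat_lit 0, [(nat_lit 27, [(nat_lit 1, nat_lit 824)])],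
 ⟨p108_k20, nat_lit 0, nat_lit 0, nat_lit 287, nat_lit 0, nat_lit 744934, [nat_lit 739910401, nat_lit 844937600], [], [nat_lit 23667645603, nat_lit 24719680667, nat_lit 26346456807, nat_lit 27329326003, nat_lit 24665405474, nat_lit 25620289341, nat_lit 27147953235, nat_lit 28044558492], nat_lit 1271250, nat_lit 1271250, nat_lit 1271250, nat_lit 1271250, nat_lit 490000, nat_lit 1133651, [nat_lit 230000, nat_lit 780000], [nat_lit 66, nat_lit 40, nat_lit 40, nat_lit 80, nat_lit 67, nat_lit 260, nat_lit 50, nat_lit 13]⟩, ⟨p108_k18, nat_lit 0, nat_lit 0, nat_lit 923, nat_lit 0, nat_lit 1476687, [nat_lit 825088000, nat_lit 1402368000, nat_lit 2089472000], [], [nat_lit 6808345224, nat_lit 6842353112, nat_lit 6915841524, nat_lit 6921247948, nat_lit 5704937411, nat_lit 5671484408, nat_lit 5671063105, nat_lit 5619041040], nat_lit 1271250, nat_lit 1271250, nat_lit 1271250, nat_lit 1271250, nat_lit 0, nat_lit 2373000,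 [nat_lit 1100000, nat_lit 1785000, nat_lit 1271250], [nat_lit 21, nat_lit 40, nat_lit 40, nat_lit 80, nat_lit 14, nat_lit 483, nat_lit 250, nat_lit 12]⟩,
 ⟨nat_lit 0, nat_lit 2237, ⟨.ofNat (nat_lit 602531), .ofNat (nat_lit 716590), .ofNat (nat_lit 646249), .ofNat (nat_lit 762141), .ofNat (nat_lit 599967), .ofNat (nat_lit 699995), .ofNat (nat_lit 648136), .ofNat (nat_lit 749998)⟩, ⟨.ofNat (nat_lit 146756), .ofNat (nat_lit 266484), .ofNat (nat_lit 192306), .ofNat (nat_lit 312035), .ofNat (nat_lit 149997), .ofNat (nat_lit 254993), .ofNat (nat_lit 199999), .ofNat (nat_lit 304995)⟩⟩, [⟨nat_lit 13, nat_lit 33, nat_lit 85, nat_lit 100, nat_lit 55358679⟩, ⟨nat_lit 4, nat_lit 100, nat_lit 35, nat_lit 80, nat_lit 328869223⟩, ⟨nat_lit 19, nat_lit 100, nat_lit 92, nat_lit 75, nat_lit 18579142⟩]⟩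
noncomputable def p108_l103 : Lf2 := ⟨nat_lit 0, nat_lit 10, [nat_lit 0, nat_lit 5, nat_lit 5, nat_lit 20], false, nat_lit 80, nat_lit 200, nat_lit 0, nat_lit 336, ⟨nat_lit 224, nat_lit 776, nat_lit 0, nat_lit 8, nat_lit 306, nat_lit 776, nat_lit 102, nat_lit 0, nat_lit 0, nat_lit 0, nat_lit 0, nat_lit 0, nat_lit 39350958, nat_lit 23540679, nat_lit 4108363, nat_lit 4499230, true, true⟩,
 nat_lit 3829, nat_lit 0, nat_lit 0, nat_lit 0, nat_lit 3334, nat_lit 2026, nat_lit 105, nat_lit 0, nat_lit 0, nat_lit 166, nat_lit 0, nat_lit 0, nat_lit 0, nat_lit 0, nat_lit 0, nat_lit 349400, nat_lit 0, nat_lit 0, [(nat_lit 24, [(nat_lit 1, nat_lit 711), (nat_lit 2, nat_lit 65)])],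
 ⟨p108_k17, nat_lit 0, nat_lit 0, nat_lit 301, nat_lit 0, nat_lit 677146, [nat_lit 908460000, nat_lit 1413540000, nat_lit 1592762400], [], [nat_lit 26761551856, nat_lit 27572299272, nat_lit 28309524740, nat_lit 29124849327, nat_lit 27793290068, nat_lit 28605444030, nat_lit 29368123468, nat_lit 30134119464], nat_lit 1271250, nat_lit 1271250, nat_lit 1271250, nat_lit 1271250, nat_lit 490000, nat_lit 1427500, [nat_lit 230000, nat_lit 780000, nat_lit 1100000], [nat_lit 35, nat_lit 40, nat_lit 40, nat_lit 80, nat_lit 22, nat_lit 260, nat_lit 50, nat_lit 10]⟩, ⟨p108_k18, nat_lit 0, nat_lit 0, nat_lit 811, nat_lit 0, nat_lit 1237191, [nat_lit 1050112000, nat_lit 1784832000, nat_lit 2659328000], [], [nat_lit 8802216536, nat_lit 8835450752, nat_lit 9049590526, nat_lit 9068937837, nat_lit 7438777338, nat_lit 7425342023, nat_lit 7612490059, nat_lit 7675924262], nat_lit 1271250, nat_lit 1271250, nat_lit 1271250, nat_lit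 1271250, nat_lit 0, nat_lit 2373000, [nat_lit 1100000, nat_lit 1785000, nat_lit 1271250], [nat_lit 21, nat_lit 40, nat_lit 40, nat_lit 80, nat_lit 14, nat_lit 373, nat_lit 150, nat_lit 9]⟩,
 ⟨nat_lit 2236, nat_lit 3163, ⟨.ofNat (nat_lit 727168), .ofNat (nat_lit 794217), .ofNat (nat_lit 749323), .ofNat (nat_lit 816372), .ofNat (nat_lit 716594), .ofNat (nat_lit 779311), .ofNat (nat_lit 739368), .ofNat (nat_lit 802085)⟩, ⟨.ofNat (nat_lit 139899), .ofNat (nat_lit 322759), .ofNat (nat_lit 184209), .ofNat (nat_lit 367069), .ofNat (nat_lit 146758), .ofNat (nat_lit 317804), .ofNat (nat_lit 192306), .ofNat (nat_lit 363353)⟩⟩, [⟨nat_lit 13, nat_lit 54, nat_lit 71, nat_lit 100, nat_lit 152647540⟩, ⟨nat_lit 4, nat_lit 100, nat_lit 54, nat_lit 73, nat_lit 273669685⟩, ⟨nat_lit 22, nat_lit 74, nat_lit 93, nat_lit 100, nat_lit 29094164⟩]⟩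
noncomputable def p108_l104 : Lf2 := ⟨nat_lit 0, nat_lit 10, [nat_lit 0, nat_lit 5, nat_lit 5, nat_lit 20], false, nat_lit 80, nat_lit 164, nat_lit 0, nat_lit 336, ⟨nat_lit 176, nat_lit 824, nat_lit 0, nat_lit 8, nat_lit 293, nat_lit 824, nat_lit 91, nat_lit 0, nat_lit 0, nat_lit 0, nat_lit 0, nat_lit 0, nat_lit 40923913, nat_lit 22497989, nat_lit 3578098, nat_lit 4341793, true, true⟩,
 nat_lit 3112, nat_lit 0, nat_lit 0, nat_lit 0, nat_lit 2907, nat_lit 1647, nat_lit 73, nat_lit 0, nat_lit 0, nat_lit 141, nat_lit 0, nat_lit 0, nat_lit 0, nat_lit 0, nat_lit 0, nat_lit 329600, nat_lit 0, nat_lit 0, [(nat_lit 27, [(nat_lit 1, nat_lit 824)])],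
 ⟨p108_k20, nat_lit 0, nat_lit 0, nat_lit 283, nat_lit 0, nat_lit 719247, [nat_lit 739910401, nat_lit 844937600], [], [nat_lit 26317205471, nat_lit 27355865012, nat_lit 27105914899, nat_lit 28315141482, nat_lit 27085466393, nat_lit 27984206717, nat_lit 27832932555, nat_lit 28697146520], nat_lit 1271250, nat_lit 1271250, nat_lit 1271250, nat_lit 1271250, nat_lit 490000, nat_lit 1133651, [nat_lit 230000, nat_lit 780000], [nat_lit 66, nat_lit 40, nat_lit 40, nat_lit 80, nat_lit 67, nat_lit 260, nat_lit 50, nat_lit 12]⟩, ⟨p108_k18, nat_lit 0, nat_lit 0, nat_lit 883, nat_lit 0, nat_lit 1425767, [nat_lit 825088000, nat_lit 1402368000, nat_lit 2089472000], [], [nat_lit 6862697564, nat_lit 6865069536, nat_lit 6917149000, nat_lit 6915671361, nat_lit 5605444137, nat_lit 5586513447, nat_lit 5684520115, nat_lit 5746726369], nat_lit 1271250, nat_lit 1271250, nat_lit 1271250, nat_lit 1271250, nat_lit 0, nat_lit 2373000,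 [nat_lit 1100000, nat_lit 1785000, nat_lit 1271250], [nat_lit 21, nat_lit 40, nat_lit 40, nat_lit 80, nat_lit 14, nat_lit 373, nat_lit 150, nat_lit 9]⟩,
 ⟨nat_lit 0, nat_lit 2237, ⟨.ofNat (nat_lit 716590), .ofNat (nat_lit 745097), .ofNat (nat_lit 739366), .ofNat (nat_lit 767872), .ofNat (nat_lit 699995), .ofNat (nat_lit 724995), .ofNat (nat_lit 724997), .ofNat (nat_lit 749995)⟩, ⟨.ofNat (nat_lit 146756), .ofNat (nat_lit 266484), .ofNat (nat_lit 192306), .ofNat (nat_lit 312035), .ofNat (nat_lit 149997), .ofNat (nat_lit 254993), .ofNat (nat_lit 199999), .ofNat (nat_lit 304995)⟩⟩, [⟨nat_lit 13, nat_lit 46, nat_lit 76, nat_lit 100, nat_lit 349138210⟩, ⟨nat_lit 16, nat_lit 44, nat_lit 100, nat_lit 82, nat_lit 218512438⟩, ⟨nat_lit 19, nat_lit 100, nat_lit 88, nat_lit 74, nat_lit 19280903⟩]⟩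
noncomputable def p108_l105 : Lf2 := ⟨nat_lit 0, nat_lit 10, [nat_lit 0, nat_lit 5, nat_lit 5, nat_lit 20], false, nat_lit 80, nat_lit 200, nat_lit 0, nat_lit 320, ⟨nat_lit 371, nat_lit 629, nat_lit 0, nat_lit 8, nat_lit 315, nat_lit 629, nat_lit 101, nat_lit 0, nat_lit 0, nat_lit 0, nat_lit 0, nat_lit 0, nat_lit 38612452, nat_lit 24391857, nat_lit 3995691, nat_lit 4508234, true, true⟩,
 nat_lit 4596, nat_lit 0, nat_lit 0, nat_lit 0, nat_lit 4002, nat_lit 2675, nat_lit 0, nat_lit 0, nat_lit 0, nat_lit 505, nat_lit 0, nat_lit 0, nat_lit 0, nat_lit 0, nat_lit 0, nat_lit 357800, nat_lit 0, nat_lit 0, [(nat_lit 24, [(nat_lit 1, nat_lit 452), (nat_lit 2, nat_lit 177)]), (nat_lit 27, [(nat_lit 1, nat_lit 452), (nat_lit 2, nat_lit 177)])],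
 ⟨p108_k17, nat_lit 0, nat_lit 0, nat_lit 356, nat_lit 0, nat_lit 808228, [nat_lit 991130001, nat_lit 1584731067, nat_lit 1800494400], [], [nat_lit 26284687336, nat_lit 29256255032, nat_lit 29827253628, nat_lit 32368746733, nat_lit 27004795497, nat_lit 29534027880, nat_lit 30028608073, nat_lit 32212070805], nat_lit 1271250, nat_lit 1271250, nat_lit 1271250, nat_lit 1271250, nat_lit 490000, nat_lit 1427500, [nat_lit 230000, nat_lit 780000, nat_lit 1100000], [nat_lit 35, nat_lit 40, nat_lit 40, nat_lit 80, nat_lit 22, nat_lit 260, nat_lit 50, nat_lit 10]⟩, ⟨p108_k22, nat_lit 0, nat_lit 0, nat_lit 770, nat_lit 0, nat_lit 1311640, [nat_lit 1739248000, nat_lit 2956128000, nat_lit 3651382000], [], [nat_lit 13020946750, nat_lit 13090031688, nat_lit 13478338157, nat_lit 13525106167, nat_lit 11739728110, nat_lit 11749687804, nat_lit 12019430775, nat_lit 12254280959], nat_lit 1271250, nat_lit 1271250, nat_lit 1271250,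 nat_lit 1271250, nat_lit 0, nat_lit 2260000, [nat_lit 1100000, nat_lit 1785000, nat_lit 1271250], [nat_lit 29, nat_lit 40, nat_lit 40, nat_lit 80, nat_lit 17, nat_lit 373, nat_lit 150, nat_lit 10]⟩,
 ⟨nat_lit 0, nat_lit 3163, ⟨.ofNat (nat_lit 749322), .ofNat (nat_lit 834654), .ofNat (nat_lit 771478), .ofNat (nat_lit 856810), .ofNat (nat_lit 724998), .ofNat (nat_lit 794995), .ofNat (nat_lit 749999), .ofNat (nat_lit 819996)⟩, ⟨.ofNat (nat_lit 139898), .ofNat (nat_lit 322753), .ofNat (nat_lit 184209), .ofNat (nat_lit 367065), .ofNat (nat_lit 149998), .ofNat (nat_lit 299993), .ofNat (nat_lit 199999), .ofNat (nat_lit 349995)⟩⟩, [⟨nat_lit 13, nat_lit 47, nat_lit 74, nat_lit 100, nat_lit 423106262⟩, ⟨nat_lit 4, nat_lit 100, nat_lit 46, nat_lit 75, nat_lit 294825513⟩, ⟨nat_lit 7, nat_lit 97, nat_lit 100, nat_lit 76, nat_lit 62944649⟩]⟩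
noncomputable def b_V_900_600_10_1 : St := ⟨true, nat_lit 1, nat_lit 2, nat_lit 1, nat_lit 80, nat_lit 360, nat_lit 400, nat_lit 240, nat_lit 280, nat_lit 112, nat_lit 376, nat_lit 40, nat_lit 80, nat_lit 0, nat_lit 200, nat_lit 0, nat_lit 336, nat_lit 0, nat_lit 40, nat_lit 0, nat_lit 0, nat_lit 0, nat_lit 0⟩
theorem d_V_900_600_10_1 (h : EB TB.env) : Dead b_V_900_600_10_1 := chkB_sound0 h (T :=
(.st (nat_lit 1)
(.spl (nat_lit 5) (nat_lit 160)
(.leaf p108_l82)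
(.spl (nat_lit 0) (nat_lit 380)
(.spl (nat_lit 0) (nat_lit 370)
(.leaf p108_l83)
(.trZ (nat_lit 0) (nat_lit 100) (nat_lit 54) (nat_lit 96) (nat_lit 128) (.trX (nat_lit 13) (nat_lit 57) (nat_lit 62) (nat_lit 100) (nat_lit 368) (.trX (nat_lit 16) (nat_lit 53) (nat_lit 100) (nat_lit 80) (nat_lit 184) (.leaf p108_l84)))))
(.trZ (nat_lit 0) (nat_lit 100) (nat_lit 44) (nat_lit 99) (nat_lit 148) (.trX (nat_lit 13) (nat_lit 48) (nat_lit 71) (nat_lit 100) (nat_lit 352) (.trX (nat_lit 16) (nat_lit 44) (nat_lit 100) (nat_lit 82) (nat_lit 164) (.leaf p108_l85))))))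
(.spl (nat_lit 2) (nat_lit 240)
(.spl (nat_lit 4) (nat_lit 80)
(.spl (nat_lit 0) (nat_lit 380)
(.spl (nat_lit 5) (nat_lit 160)
(.leaf p108_l86)
(.leaf p108_l87))
(.trZ (nat_lit 0) (nat_lit 100) (nat_lit 44) (nat_lit 99) (nat_lit 148) (.spl (nat_lit 0) (nat_lit 390)
(.leaf p108_l88)
(.trZ (nat_lit 0) (nat_lit 99) (nat_lit 31) (nat_lit 100) (nat_lit 176) (.trZ (nat_lit 3) (nat_lit 100) (nat_lit 52) (nat_lit 53) (nat_lit 8) (.leaf p108_l89))))))
(.spl (nat_lit 5) (nat_lit 160)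
(.spl (nat_lit 0) (nat_lit 380)
(.leaf p108_l90)
(.trZ (nat_lit 0) (nat_lit 100) (nat_lit 44) (nat_lit 99) (nat_lit 148) (.trX (nat_lit 16) (nat_lit 44) (nat_lit 100) (nat_lit 82) (nat_lit 164) (.leaf p108_l91))))
(.leaf p108_l92)))
(.spl (nat_lit 4) (nat_lit 80)
(.spl (nat_lit 0) (nat_lit 380)
(.spl (nat_lit 0) (nat_lit 370)
(.spl (nat_lit 1) (nat_lit 260)
(.trX (nat_lit 13) (nat_lit 63) (nat_lit 61) (nat_lit 100) (nat_lit 364) (.leaf p108_l93))
(.trX (nat_lit 19) (nat_lit 100) (nat_lit 85) (nat_lit 84) (nat_lit 320) (.leaf p108_l94)))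
(.trX (nat_lit 13) (nat_lit 57) (nat_lit 62) (nat_lit 100) (nat_lit 368) (.spl (nat_lit 1) (nat_lit 260)
(.trX (nat_lit 13) (nat_lit 55) (nat_lit 68) (nat_lit 100) (nat_lit 352) (.leaf p108_l95))
(.trX (nat_lit 19) (nat_lit 100) (nat_lit 85) (nat_lit 84) (nat_lit 320) (.leaf p108_l96)))))
(.trX (nat_lit 13) (nat_lit 48) (nat_lit 71) (nat_lit 100) (nat_lit 352) (.spl (nat_lit 0) (nat_lit 390)
(.spl (nat_lit 0) (nat_lit 385)
(.leaf p108_l97)
(.trX (nat_lit 13) (nat_lit 41) (nat_lit 76) (nat_lit 100) (nat_lit 344) (.trZ (nat_lit 3) (nat_lit 100) (nat_lit 63) (nat_lit 42) (nat_lit 4) (.leaf p108_l98))))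
(.trX (nat_lit 13) (nat_lit 34) (nat_lit 81) (nat_lit 100) (nat_lit 336) (.trZ (nat_lit 3) (nat_lit 100) (nat_lit 52) (nat_lit 53) (nat_lit 8) (.spl (nat_lit 0) (nat_lit 395)
(.leaf p108_l99)
(.trX (nat_lit 13) (nat_lit 24) (nat_lit 88) (nat_lit 100) (nat_lit 320) (.trZ (nat_lit 3) (nat_lit 100) (nat_lit 37) (nat_lit 68) (nat_lit 16) (.leaf p108_l100)))))))))
(.spl (nat_lit 2) (nat_lit 320)
(.spl (nat_lit 0) (nat_lit 380)
(.leaf p108_l101)
(.trX (nat_lit 16) (nat_lit 44) (nat_lit 100) (nat_lit 82) (nat_lit 164) (.leaf p108_l102)))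
(.spl (nat_lit 1) (nat_lit 260)
(.trX (nat_lit 13) (nat_lit 63) (nat_lit 61) (nat_lit 100) (nat_lit 364) (.spl (nat_lit 0) (nat_lit 380)
(.leaf p108_l103)
(.trX (nat_lit 13) (nat_lit 46) (nat_lit 76) (nat_lit 100) (nat_lit 340) (.trX (nat_lit 16) (nat_lit 44) (nat_lit 100) (nat_lit 82) (nat_lit 164) (.leaf p108_l104)))))
(.trX (nat_lit 19) (nat_lit 100) (nat_lit 85) (nat_lit 84) (nat_lit 320) (.leaf p108_l105)))))))) (by decide +kernel)
noncomputable def p108_l106 : Lf2 := ⟨nat_lit 0, nat_lit 10, [nat_lit 0, nat_lit 5, nat_lit 5, nat_lit 20], false, nat_lit 0, nat_lit 200, nat_lit 0, nat_lit 160, ⟨nat_lit 693, nat_lit 307, nat_lit 0, nat_lit 6, nat_lit 251, nat_lit 307, nat_lit 67, nat_lit 0, nat_lit 0, nat_lit 0, nat_lit 0, nat_lit 0, nat_lit 0, nat_lit 0, nat_lit 0, nat_lit 5000000, false, false⟩,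
 nat_lit 0, nat_lit 4806, nat_lit 0, nat_lit 0, nat_lit 4185, nat_lit 5220, nat_lit 124, nat_lit 0, nat_lit 0, nat_lit 1039, nat_lit 0, nat_lit 0, nat_lit 0, nat_lit 0, nat_lit 0, nat_lit 307000, nat_lit 0, nat_lit 0, [(nat_lit 24, [(nat_lit 2, nat_lit 307)]), (nat_lit 27, [(nat_lit 2, nat_lit 307)])],
 ⟨p108_k17, nat_lit 0, nat_lit 0, nat_lit 643, nat_lit 0, nat_lit 1375406, [nat_lit 1100710000, nat_lit 2129276401, nat_lit 2606785600], [], [nat_lit 31112595657, nat_lit 32550211385, nat_lit 35258922238, nat_lit 36271789831, nat_lit 31140693657, nat_lit 32314804257, nat_lit 34709236261, nat_lit 35794818761], nat_lit 1271250, nat_lit 1271250, nat_lit 719601, nat_lit 2861300, nat_lit 0, nat_lit 1412500, [nat_lit 230000, nat_lit 780000, nat_lit 1100000], [nat_lit 35, nat_lit 40, nat_lit 40, nat_lit 80, nat_lit 22, nat_lit 373, nat_lit 150, nat_lit 17]⟩, ⟨p108_k18, nat_lit 0, nat_lit 0, nat_lit 241, nat_lit 0,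 nat_lit 0, [nat_lit 3248784000, nat_lit 5521824000, nat_lit 8227296000], [], [nat_lit 15028910000, nat_lit 17075401280, nat_lit 25049779604, nat_lit 26248962046, nat_lit 11961665144, nat_lit 13825273616, nat_lit 20585653474, nat_lit 21608040363], nat_lit 0, nat_lit 0, nat_lit 0, nat_lit 0, nat_lit 0, nat_lit 0, [], [nat_lit 21, nat_lit 40, nat_lit 40, nat_lit 80, nat_lit 14, nat_lit 456, nat_lit 225, nat_lit 12]⟩,
 ⟨nat_lit 0, nat_lit 3163, ⟨.ofNat (nat_lit 401957), .ofNat (nat_lit 812499), .ofNat (nat_lit 443658), .ofNat (nat_lit 856810), .ofNat (nat_lit 431745), .ofNat (nat_lit 769995), .ofNat (nat_lit 479136), .ofNat (nat_lit 819996)⟩, ⟨.ofNat (nat_lit 0), .ofNat (nat_lit 322753), .ofNat (nat_lit 0), .ofNat (nat_lit 367065), .ofNat (nat_lit 0), .ofNat (nat_lit 299993), .ofNat (nat_lit 0), .ofNat (nat_lit 349995)⟩⟩, [⟨nat_lit 0, nat_lit 96, nat_lit 44, nat_lit 100, nat_lit 50473645⟩, ⟨nat_lit 4, nat_lit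 100, nat_lit 46, nat_lit 75, nat_lit 360338210⟩]⟩
noncomputable def p108_l107 : Lf2 := ⟨nat_lit 0, nat_lit 10, [nat_lit 0, nat_lit 5, nat_lit 5, nat_lit 20], false, nat_lit 0, nat_lit 200, nat_lit 160, nat_lit 336, ⟨nat_lit 653, nat_lit 347, nat_lit 0, nat_lit 6, nat_lit 253, nat_lit 347, nat_lit 69, nat_lit 0, nat_lit 0, nat_lit 0, nat_lit 0, nat_lit 0, nat_lit 0, nat_lit 0, nat_lit 0, nat_lit 5000000, false, false⟩,
 nat_lit 0, nat_lit 5078, nat_lit 0, nat_lit 0, nat_lit 4422, nat_lit 4219, nat_lit 145, nat_lit 0, nat_lit 0, nat_lit 0, nat_lit 0, nat_lit 0, nat_lit 0, nat_lit 0, nat_lit 0, nat_lit 347000, nat_lit 0, nat_lit 0, [(nat_lit 24, [(nat_lit 2, nat_lit 347)])],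
 ⟨p108_k17, nat_lit 0, nat_lit 0, nat_lit 569, nat_lit 0, nat_lit 1210533, [nat_lit 1121910001, nat_lit 1979084400, nat_lit 2335617600], [], [nat_lit 26133840163, nat_lit 27061318825, nat_lit 34234530320, nat_lit 35622848142, nat_lit 26500418585, nat_lit 27271446039, nat_lit 31478130997, nat_lit 32142165682], nat_lit 1271250, nat_lit 1271250, nat_lit 719601, nat_lit 2861300, nat_lit 0, nat_lit 1412500, [nat_lit 230000, nat_lit 780000, nat_lit 1100000], [nat_lit 35, nat_lit 40, nat_lit 40, nat_lit 80, nat_lit 22, nat_lit 373, nat_lit 150, nat_lit 17]⟩, ⟨p108_k18, nat_lit 0, nat_lit 0, nat_lit 85, nat_lit 0, nat_lit 0, [nat_lit 3061264000, nat_lit 5203104000, nat_lit 7752416000], [], [nat_lit 6098119845, nat_lit 8447233218, nat_lit 16688366860, nat_lit 17974518454, nat_lit 14140823517, nat_lit 15559975091, nat_lit 20919457986, nat_lit 21672427318], nat_lit 0, nat_lit 0, nat_lit 0, nat_lit 0, nat_lit 0, nat_lit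 0, [], [nat_lit 21, nat_lit 40, nat_lit 40, nat_lit 80, nat_lit 14, nat_lit 483, nat_lit 250, nat_lit 12]⟩,
 ⟨nat_lit 2236, nat_lit 3163, ⟨.ofNat (nat_lit 409856), .ofNat (nat_lit 812503), .ofNat (nat_lit 454039), .ofNat (nat_lit 856813), .ofNat (nat_lit 419758), .ofNat (nat_lit 796416), .ofNat (nat_lit 465180), .ofNat (nat_lit 841964)⟩, ⟨.ofNat (nat_lit 0), .ofNat (nat_lit 322759), .ofNat (nat_lit 0), .ofNat (nat_lit 367069), .ofNat (nat_lit 0), .ofNat (nat_lit 317804), .ofNat (nat_lit 0), .ofNat (nat_lit 363353)⟩⟩, [⟨nat_lit 0, nat_lit 92, nat_lit 44, nat_lit 100, nat_lit 16265138⟩, ⟨nat_lit 16, nat_lit 54, nat_lit 100, nat_lit 73, nat_lit 185178943⟩, ⟨nat_lit 7, nat_lit 92, nat_lit 100, nat_lit 75, nat_lit 350302827⟩]⟩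
noncomputable def p108_l108 : Lf2 := ⟨nat_lit 0, nat_lit 10, [nat_lit 0, nat_lit 5, nat_lit 5, nat_lit 20], false, nat_lit 0, nat_lit 164, nat_lit 160, nat_lit 336, ⟨nat_lit 1000, nat_lit 0, nat_lit 0, nat_lit 0, nat_lit 0, nat_lit 0, nat_lit 0, nat_lit 0, nat_lit 0, nat_lit 0, nat_lit 0, nat_lit 0, nat_lit 0, nat_lit 0, nat_lit 0, nat_lit 0, false, false⟩,
 nat_lit 0, nat_lit 4139, nat_lit 0, nat_lit 0, nat_lit 3867, nat_lit 6838, nat_lit 601, nat_lit 0, nat_lit 0, nat_lit 0, nat_lit 0, nat_lit 0, nat_lit 0, nat_lit 0, nat_lit 0, nat_lit 0, nat_lit 0, nat_lit 0, [],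
 ⟨p108_k20, nat_lit 0, nat_lit 0, nat_lit 505, nat_lit 0, nat_lit 1253980, [nat_lit 938000000, nat_lit 3282000000], [], [nat_lit 24778655492, nat_lit 26409624712, nat_lit 32463232311, nat_lit 33859807822, nat_lit 25438076335, nat_lit 26458018075, nat_lit 30506586975, nat_lit 31239637184], nat_lit 1271250, nat_lit 1271250, nat_lit 1000851, nat_lit 2724650, nat_lit 0, nat_lit 1133651, [nat_lit 230000, nat_lit 780000], [nat_lit 66, nat_lit 40, nat_lit 40, nat_lit 80, nat_lit 67, nat_lit 260, nat_lit 50, nat_lit 14]⟩, ⟨p108_k18, nat_lit 0, nat_lit 0, nat_lit 77, nat_lit 0, nat_lit 0, [nat_lit 4688000000, nat_lit 7968000000, nat_lit 11872000000], [], [nat_lit 9530774558, nat_lit 13037359937, nat_lit 23203561752, nat_lit 25467606114, nat_lit 21498152841, nat_lit 23978242389, nat_lit 30670711460, nat_lit 31989272981], nat_lit 0, nat_lit 0, nat_lit 0, nat_lit 0, nat_lit 0, nat_lit 0, [], [nat_lit 21, nat_lit 40, nat_lit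 40, nat_lit 80, nat_lit 14, nat_lit 483, nat_lit 250, nat_lit 12]⟩,
 zbF0, [⟨nat_lit 0, nat_lit 95, nat_lit 31, nat_lit 100, nat_lit 149385542⟩, ⟨nat_lit 16, nat_lit 35, nat_lit 100, nat_lit 80, nat_lit 531490130⟩, ⟨nat_lit 19, nat_lit 100, nat_lit 76, nat_lit 82, nat_lit 537238606⟩]⟩
noncomputable def p108_l109 : Lf2 := ⟨nat_lit 0, nat_lit 10, [nat_lit 0, nat_lit 5, nat_lit 5, nat_lit 20], false, nat_lit 0, nat_lit 200, nat_lit 0, nat_lit 336, ⟨nat_lit 0, nat_lit 1000, nat_lit 0, nat_lit 6, nat_lit 243, nat_lit 1000, nat_lit 67, nat_lit 0, nat_lit 0, nat_lit 0, nat_lit 0, nat_lit 0, nat_lit 0, nat_lit 0, nat_lit 0, nat_lit 5000000, false, true⟩,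
 nat_lit 0, nat_lit 3687, nat_lit 0, nat_lit 0, nat_lit 3211, nat_lit 0, nat_lit 121, nat_lit 0, nat_lit 0, nat_lit 0, nat_lit 0, nat_lit 0, nat_lit 0, nat_lit 0, nat_lit 0, nat_lit 321700, nat_lit 0, nat_lit 0, [(nat_lit 24, [(nat_lit 0, nat_lit 522), (nat_lit 1, nat_lit 478)]), (nat_lit 27, [(nat_lit 0, nat_lit 522), (nat_lit 1, nat_lit 478)])],
 ⟨p108_k17, nat_lit 0, nat_lit 0, nat_lit 409, nat_lit 0, nat_lit 780358, [nat_lit 812921600, nat_lit 1190403734, nat_lit 1346526400], [], [nat_lit 23176221274, nat_lit 25118575393, nat_lit 30058553734, nat_lit 32533445355, nat_lit 24378382205, nat_lit 26029591543, nat_lit 29776073152, nat_lit 31176391118], nat_lit 1271250, nat_lit 1271250, nat_lit 719601, nat_lit 2763950, nat_lit 0, nat_lit 1412500, [nat_lit 230000, nat_lit 780000, nat_lit 1100000], [nat_lit 35, nat_lit 40, nat_lit 40, nat_lit 80, nat_lit 22, nat_lit 373, nat_lit 150, nat_lit 17]⟩, ⟨p108_k18, nat_lit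 0, nat_lit 0, nat_lit 973, nat_lit 0, nat_lit 1425767, [nat_lit 0, nat_lit 0, nat_lit 0], [], [nat_lit 0, nat_lit 0, nat_lit 0, nat_lit 0, nat_lit 0, nat_lit 0, nat_lit 0, nat_lit 0], nat_lit 1271250, nat_lit 1271250, nat_lit 719601, nat_lit 2763950, nat_lit 0, nat_lit 2373000, [nat_lit 1100000, nat_lit 1785000, nat_lit 1271250], [nat_lit 21, nat_lit 40, nat_lit 40, nat_lit 80, nat_lit 14, nat_lit 483, nat_lit 250, nat_lit 12]⟩,
 ⟨nat_lit 0, nat_lit 3163, ⟨.ofNat (nat_lit 401957), .ofNat (nat_lit 794213), .ofNat (nat_lit 422807), .ofNat (nat_lit 816369), .ofNat (nat_lit 431745), .ofNat (nat_lit 754995), .ofNat (nat_lit 455440), .ofNat (nat_lit 779996)⟩, ⟨.ofNat (nat_lit 0), .ofNat (nat_lit 322753), .ofNat (nat_lit 0), .ofNat (nat_lit 367065), .ofNat (nat_lit 0), .ofNat (nat_lit 299993), .ofNat (nat_lit 0), .ofNat (nat_lit 349995)⟩⟩, [⟨nat_lit 13, nat_lit 45, nat_lit 79, nat_lit 100, nat_lit 187747704⟩, ⟨nat_lit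 13, nat_lit 63, nat_lit 61, nat_lit 100, nat_lit 111669897⟩, ⟨nat_lit 4, nat_lit 100, nat_lit 46, nat_lit 75, nat_lit 110514665⟩]⟩
noncomputable def p108_l110 : Lf2 := ⟨nat_lit 0, nat_lit 10, [nat_lit 0, nat_lit 5, nat_lit 5, nat_lit 20], false, nat_lit 0, nat_lit 200, nat_lit 0, nat_lit 320, ⟨nat_lit 299, nat_lit 701, nat_lit 0, nat_lit 6, nat_lit 261, nat_lit 701, nat_lit 67, nat_lit 0, nat_lit 0, nat_lit 0, nat_lit 0, nat_lit 0, nat_lit 0, nat_lit 0, nat_lit 0, nat_lit 5000000, false, false⟩,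
 nat_lit 3875, nat_lit 0, nat_lit 0, nat_lit 0, nat_lit 3374, nat_lit 2255, nat_lit 87, nat_lit 0, nat_lit 0, nat_lit 273, nat_lit 0, nat_lit 0, nat_lit 0, nat_lit 0, nat_lit 0, nat_lit 326600, nat_lit 0, nat_lit 0, [(nat_lit 24, [(nat_lit 1, nat_lit 624), (nat_lit 2, nat_lit 77)]), (nat_lit 27, [(nat_lit 1, nat_lit 624), (nat_lit 2, nat_lit 77)])],
 ⟨p108_k17, nat_lit 0, nat_lit 0, nat_lit 413, nat_lit 0, nat_lit 808228, [nat_lit 922650000, nat_lit 1567248400, nat_lit 1836235200], [], [nat_lit 25470194029, nat_lit 27408042558, nat_lit 31502196683, nat_lit 33713523295, nat_lit 26501485841, nat_lit 28071671387, nat_lit 32093452793, nat_lit 32764523240], nat_lit 1271250, nat_lit 1271250, nat_lit 872850, nat_lit 2898050, nat_lit 0, nat_lit 1412500, [nat_lit 230000, nat_lit 780000, nat_lit 1100000], [nat_lit 35, nat_lit 40, nat_lit 40, nat_lit 80, nat_lit 22, nat_lit 373, nat_lit 150, nat_lit 17]⟩, ⟨p108_k22,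 nat_lit 0, nat_lit 0, nat_lit 820, nat_lit 0, nat_lit 1311640, [nat_lit 1401712000, nat_lit 2382432000, nat_lit 2942758000], [], [nat_lit 12709552165, nat_lit 11504304275, nat_lit 11207877258, nat_lit 11325411185, nat_lit 13374607337, nat_lit 12330400273, nat_lit 9928196431, nat_lit 9973311810], nat_lit 1271250, nat_lit 1271250, nat_lit 1271250, nat_lit 1271250, nat_lit 0, nat_lit 2260000, [nat_lit 1100000, nat_lit 1785000, nat_lit 1271250], [nat_lit 29, nat_lit 40, nat_lit 40, nat_lit 80, nat_lit 17, nat_lit 483, nat_lit 250, nat_lit 14]⟩,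
 ⟨nat_lit 0, nat_lit 3163, ⟨.ofNat (nat_lit 454567), .ofNat (nat_lit 834654), .ofNat (nat_lit 475417), .ofNat (nat_lit 856810), .ofNat (nat_lit 481723), .ofNat (nat_lit 794995), .ofNat (nat_lit 505418), .ofNat (nat_lit 819996)⟩, ⟨.ofNat (nat_lit 0), .ofNat (nat_lit 322753), .ofNat (nat_lit 0), .ofNat (nat_lit 367065), .ofNat (nat_lit 0), .ofNat (nat_lit 299993), .ofNat (nat_lit 0), .ofNat (nat_lit 349995)⟩⟩, [⟨nat_lit 4, nat_lit 100, nat_lit 46, nat_lit 75, nat_lit 185954057⟩, ⟨nat_lit 7, nat_lit 97, nat_lit 100, nat_lit 76, nat_lit 45161684⟩]⟩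
noncomputable def b_V_900_600_10_2 : St := ⟨true, nat_lit 1, nat_lit 2, nat_lit 2, nat_lit 80, nat_lit 360, nat_lit 400, nat_lit 240, nat_lit 280, nat_lit 112, nat_lit 376, nat_lit 40, nat_lit 80, nat_lit 0, nat_lit 200, nat_lit 0, nat_lit 336, nat_lit 0, nat_lit 40, nat_lit 0, nat_lit 0, nat_lit 0, nat_lit 0⟩
theorem d_V_900_600_10_2 (h : EB TB.env) : Dead b_V_900_600_10_2 := chkB_sound0 h (T :=
(.st (nat_lit 1)
(.spl (nat_lit 5) (nat_lit 160)
(.leaf p108_l106)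
(.spl (nat_lit 0) (nat_lit 380)
(.leaf p108_l107)
(.trZ (nat_lit 0) (nat_lit 100) (nat_lit 44) (nat_lit 99) (nat_lit 148) (.trX (nat_lit 13) (nat_lit 48) (nat_lit 71) (nat_lit 100) (nat_lit 352) (.trX (nat_lit 16) (nat_lit 44) (nat_lit 100) (nat_lit 82) (nat_lit 164) (.leaf p108_l108))))))
(.spl (nat_lit 1) (nat_lit 260)
(.trX (nat_lit 13) (nat_lit 63) (nat_lit 61) (nat_lit 100) (nat_lit 364) (.leaf p108_l109))
(.trZ (nat_lit 0) (nat_lit 100) (nat_lit 63) (nat_lit 99) (nat_lit 132) (.trX (nat_lit 19) (nat_lit 100) (nat_lit 85) (nat_lit 84) (nat_lit 320) (.leaf p108_l110)))))) (by decide +kernel)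
noncomputable def p108_l111 : Lf2 := ⟨nat_lit 0, nat_lit 20, [nat_lit 5, nat_lit 5, nat_lit 5, nat_lit 20], false, nat_lit 0, nat_lit 200, nat_lit 0, nat_lit 336, ⟨nat_lit 314, nat_lit 0, nat_lit 686, nat_lit 6, nat_lit 213, nat_lit 686, nat_lit 67, nat_lit 686, nat_lit 41667, nat_lit 265, nat_lit 23440, nat_lit 200, nat_lit 52221722, nat_lit 0, nat_lit 0, nat_lit 2638149, false, false⟩,
 nat_lit 0, nat_lit 0, nat_lit 0, nat_lit 0, nat_lit 3951, nat_lit 5204, nat_lit 0, nat_lit 0, nat_lit 0, nat_lit 0, nat_lit 0, nat_lit 0, nat_lit 0, nat_lit 0, nat_lit 0, nat_lit 158370, nat_lit 0, nat_lit 0, [(nat_lit 25, [(nat_lit 3, nat_lit 202), (nat_lit 4, nat_lit 484)]), (nat_lit 28, [(nat_lit 3, nat_lit 202), (nat_lit 4, nat_lit 484)])],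
 ⟨p108_k25, nat_lit 0, nat_lit 0, nat_lit 187, nat_lit 0, nat_lit 0, [nat_lit 1032787361, nat_lit 791903200], [], [nat_lit 21944298162, nat_lit 26612946780, nat_lit 24958298908, nat_lit 28707786192, nat_lit 21138785548, nat_lit 24365171344, nat_lit 23426874638, nat_lit 26432448202], nat_lit 0, nat_lit 0, nat_lit 0, nat_lit 0, nat_lit 0, nat_lit 0, [], [nat_lit 88, nat_lit 40, nat_lit 40, nat_lit 80, nat_lit 89, nat_lit 345, nat_lit 125, nat_lit 13]⟩, ⟨p108_k26, nat_lit 0, nat_lit 0, nat_lit 240, nat_lit 0, nat_lit 0, [nat_lit 1472032000, nat_lit 4414212000], [], [nat_lit 14284892404, nat_lit 15523080706, nat_lit 14393140368, nat_lit 15271947592, nat_lit 12050273654, nat_lit 12517479669, nat_lit 11004591231, nat_lit 11273622911], nat_lit 0, nat_lit 0, nat_lit 0, nat_lit 0, nat_lit 0, nat_lit 0, [], [nat_lit 145, nat_lit 40, nat_lit 40, nat_lit 80, nat_lit 144, nat_lit 456, nat_lit 225, nat_lit 11]⟩,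
 ⟨nat_lit 0, nat_lit 3163, ⟨.ofNat (nat_lit 401957), .ofNat (nat_lit 605128), .ofNat (nat_lit 443658), .ofNat (nat_lit 646918), .ofNat (nat_lit 431745), .ofNat (nat_lit 599865), .ofNat (nat_lit 479136), .ofNat (nat_lit 647345)⟩, ⟨.ofNat (nat_lit 0), .ofNat (nat_lit 322753), .ofNat (nat_lit 0), .ofNat (nat_lit 367065), .ofNat (nat_lit 0), .ofNat (nat_lit 299993), .ofNat (nat_lit 0), .ofNat (nat_lit 349995)⟩⟩, [⟨nat_lit 0, nat_lit 100, nat_lit 61, nat_lit 92, nat_lit 173831073⟩]⟩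
noncomputable def p108_l112 : Lf2 := ⟨nat_lit 0, nat_lit 20, [nat_lit 5, nat_lit 5, nat_lit 5, nat_lit 20], false, nat_lit 0, nat_lit 200, nat_lit 0, nat_lit 336, ⟨nat_lit 1000, nat_lit 0, nat_lit 0, nat_lit 0, nat_lit 0, nat_lit 0, nat_lit 0, nat_lit 0, nat_lit 0, nat_lit 0, nat_lit 0, nat_lit 0, nat_lit 0, nat_lit 0, nat_lit 0, nat_lit 0, false, false⟩,
 nat_lit 0, nat_lit 0, nat_lit 0, nat_lit 0, nat_lit 6591, nat_lit 12847, nat_lit 0, nat_lit 0, nat_lit 0, nat_lit 0, nat_lit 0, nat_lit 0, nat_lit 0, nat_lit 0, nat_lit 0, nat_lit 0, nat_lit 0, nat_lit 0, [],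
 ⟨p108_k25, nat_lit 0, nat_lit 0, nat_lit 195, nat_lit 0, nat_lit 0, [nat_lit 938000000, nat_lit 6250000000], [], [nat_lit 32886397312, nat_lit 36090379332, nat_lit 40369243160, nat_lit 43836153510, nat_lit 29296366418, nat_lit 31816133068, nat_lit 34390736345, nat_lit 36197329500], nat_lit 0, nat_lit 0, nat_lit 0, nat_lit 0, nat_lit 0, nat_lit 0, [], [nat_lit 88, nat_lit 40, nat_lit 40, nat_lit 80, nat_lit 89, nat_lit 260, nat_lit 50, nat_lit 9]⟩, ⟨p108_k26, nat_lit 0, nat_lit 0, nat_lit 249, nat_lit 0, nat_lit 0, [nat_lit 4688000000, nat_lit 14058000000], [], [nat_lit 43679723952, nat_lit 46099424180, nat_lit 54626390415, nat_lit 55704899912, nat_lit 36886299567, nat_lit 37752469560, nat_lit 41899789364, nat_lit 42009015586], nat_lit 0, nat_lit 0, nat_lit 0, nat_lit 0, nat_lit 0, nat_lit 0, [], [nat_lit 145, nat_lit 40, nat_lit 40, nat_lit 80, nat_lit 144, nat_lit 483, nat_lit 250, nat_lit 11]⟩,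
 zbF0, [⟨nat_lit 4, nat_lit 100, nat_lit 46, nat_lit 75, nat_lit 51525745⟩]⟩
noncomputable def b_V_900_600_10_3 : St := ⟨true, nat_lit 0, nat_lit 0, nat_lit 1, nat_lit 80, nat_lit 360, nat_lit 400, nat_lit 240, nat_lit 280, nat_lit 112, nat_lit 376, nat_lit 40, nat_lit 80, nat_lit 0, nat_lit 200, nat_lit 0, nat_lit 336, nat_lit 40, nat_lit 80, nat_lit 0, nat_lit 0, nat_lit 0, nat_lit 0⟩
theorem d_V_900_600_10_3 (h : EB TB.env) : Dead b_V_900_600_10_3 := chkB_sound0 h (T :=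
(.spl (nat_lit 2) (nat_lit 240)
(.leaf p108_l111)
(.leaf p108_l112))) (by decide +kernel)
noncomputable def p108_l113 : Lf2 := ⟨nat_lit 0, nat_lit 20, [nat_lit 5, nat_lit 5, nat_lit 5, nat_lit 20], true, nat_lit 0, nat_lit 80, nat_lit 0, nat_lit 336, ⟨nat_lit 0, nat_lit 338, nat_lit 662, nat_lit 6, nat_lit 213, nat_lit 1000, nat_lit 34, nat_lit 662, nat_lit 10417, nat_lit 240, nat_lit 23440, nat_lit 200, nat_lit 52221722, nat_lit 14778278, nat_lit 0, nat_lit 2638149, false, false⟩,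
 nat_lit 0, nat_lit 0, nat_lit 0, nat_lit 0, nat_lit 2515, nat_lit 0, nat_lit 0, nat_lit 0, nat_lit 0, nat_lit 0, nat_lit 0, nat_lit 0, nat_lit 0, nat_lit 0, nat_lit 26, nat_lit 250000, nat_lit 0, nat_lit 0, [(nat_lit 25, [(nat_lit 0, nat_lit 338), (nat_lit 4, nat_lit 662)]), (nat_lit 28, [(nat_lit 0, nat_lit 338), (nat_lit 4, nat_lit 662)])],
 ⟨p108_k27, nat_lit 0, nat_lit 0, nat_lit 176, nat_lit 0, nat_lit 0, [nat_lit 880304001, nat_lit 314807201, nat_lit 4564000], [], [nat_lit 19368188912, nat_lit 22577528300, nat_lit 22132791863, nat_lit 25112340880, nat_lit 18994137671, nat_lit 21266198339, nat_lit 21686359203, nat_lit 23771665783], nat_lit 0, nat_lit 0, nat_lit 0, nat_lit 0, nat_lit 0, nat_lit 0, [], [nat_lit 55, nat_lit 40, nat_lit 40, nat_lit 80, nat_lit 3, nat_lit 317, nat_lit 100, nat_lit 12]⟩, C1.Rw.none,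
 ⟨nat_lit 0, nat_lit 3163, ⟨.ofNat (nat_lit 401957), .ofNat (nat_lit 605128), .ofNat (nat_lit 443658), .ofNat (nat_lit 646918), .ofNat (nat_lit 431745), .ofNat (nat_lit 599865), .ofNat (nat_lit 479136), .ofNat (nat_lit 647345)⟩, ⟨.ofNat (nat_lit 0), .ofNat (nat_lit 139898), .ofNat (nat_lit 0), .ofNat (nat_lit 184209), .ofNat (nat_lit 0), .ofNat (nat_lit 149998), .ofNat (nat_lit 0), .ofNat (nat_lit 199999)⟩⟩, [⟨nat_lit 3, nat_lit 100, nat_lit 61, nat_lit 47, nat_lit 144927023⟩]⟩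
noncomputable def p108_l114 : Lf2 := ⟨nat_lit 0, nat_lit 20, [nat_lit 5, nat_lit 5, nat_lit 5, nat_lit 20], true, nat_lit 80, nat_lit 200, nat_lit 0, nat_lit 336, ⟨nat_lit 0, nat_lit 695, nat_lit 305, nat_lit 6, nat_lit 213, nat_lit 1000, nat_lit 101, nat_lit 305, nat_lit 96267, nat_lit 291, nat_lit 23440, nat_lit 200, nat_lit 48049562, nat_lit 14446882, nat_lit 4503556, nat_lit 3983771, false, false⟩,
 nat_lit 0, nat_lit 0, nat_lit 0, nat_lit 0, nat_lit 3921, nat_lit 0, nat_lit 0, nat_lit 0, nat_lit 0, nat_lit 0, nat_lit 0, nat_lit 0, nat_lit 0, nat_lit 0, nat_lit 0, nat_lit 230175, nat_lit 0, nat_lit 0, [(nat_lit 25, [(nat_lit 0, nat_lit 695), (nat_lit 3, nat_lit 305)]), (nat_lit 28, [(nat_lit 0, nat_lit 695), (nat_lit 3, nat_lit 305)])],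
 ⟨p108_k25, nat_lit 0, nat_lit 0, nat_lit 112, nat_lit 0, nat_lit 0, [nat_lit 1021940001, nat_lit 1063798000], [], [nat_lit 19313586164, nat_lit 23194468061, nat_lit 22165420264, nat_lit 25576072696, nat_lit 21051108246, nat_lit 24328136248, nat_lit 23409548498, nat_lit 26403129142], nat_lit 0, nat_lit 0, nat_lit 0, nat_lit 0, nat_lit 0, nat_lit 0, [], [nat_lit 88, nat_lit 40, nat_lit 40, nat_lit 80, nat_lit 89, nat_lit 345, nat_lit 125, nat_lit 13]⟩, C1.Rw.none,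
 ⟨nat_lit 0, nat_lit 3163, ⟨.ofNat (nat_lit 401957), .ofNat (nat_lit 605128), .ofNat (nat_lit 443658), .ofNat (nat_lit 646918), .ofNat (nat_lit 431745), .ofNat (nat_lit 599865), .ofNat (nat_lit 479136), .ofNat (nat_lit 647345)⟩, ⟨.ofNat (nat_lit 139898), .ofNat (nat_lit 322753), .ofNat (nat_lit 184209), .ofNat (nat_lit 367065), .ofNat (nat_lit 149998), .ofNat (nat_lit 299993), .ofNat (nat_lit 199999), .ofNat (nat_lit 349995)⟩⟩, [⟨nat_lit 16, nat_lit 60, nat_lit 100, nat_lit 80, nat_lit 106857086⟩]⟩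
noncomputable def b_V_900_600_10_4 : St := ⟨true, nat_lit 0, nat_lit 1, nat_lit 1, nat_lit 80, nat_lit 360, nat_lit 400, nat_lit 240, nat_lit 280, nat_lit 112, nat_lit 240, nat_lit 40, nat_lit 80, nat_lit 0, nat_lit 200, nat_lit 0, nat_lit 336, nat_lit 40, nat_lit 80, nat_lit 0, nat_lit 0, nat_lit 0, nat_lit 0⟩
theorem d_V_900_600_10_4 (h : EB TB.env) : Dead b_V_900_600_10_4 := chkB_sound0 h (T :=
(.spl (nat_lit 4) (nat_lit 80)
(.leaf p108_l113)
(.leaf p108_l114))) (by decide +kernel)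
noncomputable def p108_l115 : Lf2 := ⟨nat_lit 0, nat_lit 20, [nat_lit 5, nat_lit 5, nat_lit 5, nat_lit 20], true, nat_lit 0, nat_lit 80, nat_lit 0, nat_lit 336, ⟨nat_lit 0, nat_lit 658, nat_lit 342, nat_lit 6, nat_lit 257, nat_lit 1000, nat_lit 34, nat_lit 342, nat_lit 10417, nat_lit 240, nat_lit 105490, nat_lit 200, nat_lit 47454114, nat_lit 19545886, nat_lit 0, nat_lit 3018464, true, true⟩,
 nat_lit 0, nat_lit 0, nat_lit 0, nat_lit 0, nat_lit 2910, nat_lit 0, nat_lit 0, nat_lit 0, nat_lit 0, nat_lit 0, nat_lit 0, nat_lit 0, nat_lit 0, nat_lit 0, nat_lit 0, nat_lit 250000, nat_lit 0, nat_lit 0, [(nat_lit 25, [(nat_lit 0, nat_lit 658), (nat_lit 4, nat_lit 342)]), (nat_lit 28, [(nat_lit 0, nat_lit 658), (nat_lit 4, nat_lit 342)])],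
 ⟨p108_k27, nat_lit 0, nat_lit 0, nat_lit 165, nat_lit 0, nat_lit 0, [nat_lit 778864001, nat_lit 777015201, nat_lit 757524000], [], [nat_lit 23691383243, nat_lit 26101338720, nat_lit 24993390123, nat_lit 27633264560, nat_lit 22984391203, nat_lit 25003319643, nat_lit 24226324443, nat_lit 26109909643], nat_lit 0, nat_lit 0, nat_lit 0, nat_lit 0, nat_lit 0, nat_lit 0, [], [nat_lit 55, nat_lit 40, nat_lit 40, nat_lit 80, nat_lit 3, nat_lit 226, nat_lit 20, nat_lit 8]⟩, C1.Rw.none,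
 ⟨nat_lit 0, nat_lit 3163, ⟨.ofNat (nat_lit 605128), .ofNat (nat_lit 666215), .ofNat (nat_lit 626068), .ofNat (nat_lit 688370), .ofNat (nat_lit 599865), .ofNat (nat_lit 649999), .ofNat (nat_lit 623650), .ofNat (nat_lit 674999)⟩, ⟨.ofNat (nat_lit 0), .ofNat (nat_lit 139898), .ofNat (nat_lit 0), .ofNat (nat_lit 184209), .ofNat (nat_lit 0), .ofNat (nat_lit 149998), .ofNat (nat_lit 0), .ofNat (nat_lit 199999)⟩⟩, [⟨nat_lit 3, nat_lit 100, nat_lit 61, nat_lit 47, nat_lit 119709651⟩]⟩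
noncomputable def p108_l116 : Lf2 := ⟨nat_lit 0, nat_lit 20, [nat_lit 5, nat_lit 5, nat_lit 5, nat_lit 20], false, nat_lit 0, nat_lit 40, nat_lit 0, nat_lit 288, ⟨nat_lit 71, nat_lit 777, nat_lit 152, nat_lit 6, nat_lit 267, nat_lit 929, nat_lit 18, nat_lit 152, nat_lit 3267, nat_lit 229, nat_lit 149710, nat_lit 200, nat_lit 46369006, nat_lit 20630994, nat_lit 0, nat_lit 3087152, true, false⟩,
 nat_lit 0, nat_lit 0, nat_lit 1055, nat_lit 0, nat_lit 2870, nat_lit 614, nat_lit 0, nat_lit 0, nat_lit 0, nat_lit 67, nat_lit 0, nat_lit 0, nat_lit 0, nat_lit 0, nat_lit 0, nat_lit 371600, nat_lit 0, nat_lit 0, [(nat_lit 25, [(nat_lit 1, nat_lit 777), (nat_lit 5, nat_lit 152)])],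
 ⟨p108_k28, nat_lit 0, nat_lit 0, nat_lit 147, nat_lit 0, nat_lit 0, [nat_lit 833420401, nat_lit 903050267, nat_lit 689375600], [], [nat_lit 23376988269, nat_lit 24643674460, nat_lit 24865019600, nat_lit 26072426640, nat_lit 23037412209, nat_lit 24123971419, nat_lit 24369200369, nat_lit 25380834609], nat_lit 0, nat_lit 0, nat_lit 0, nat_lit 0, nat_lit 0, nat_lit 0, [], [nat_lit 20, nat_lit 40, nat_lit 40, nat_lit 80, nat_lit 16, nat_lit 215, nat_lit 10, nat_lit 7]⟩, ⟨p108_k29, nat_lit 0, nat_lit 0, nat_lit 1027, nat_lit 0, nat_lit 1703542, [nat_lit 332848000, nat_lit 565728000, nat_lit 842912000], [], [nat_lit 2283538048, nat_lit 2301940272, nat_lit 2316824228, nat_lit 2331708184, nat_lit 1903867883, nat_lit 1908669109, nat_lit 1911045488, nat_lit 1917468082], nat_lit 1271250, nat_lit 1271250, nat_lit 1271250, nat_lit 1271250, nat_lit 0, nat_lit 2034000, [nat_lit 1100000, nat_lit 1785000, nat_lit 1271250],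 [nat_lit 21, nat_lit 40, nat_lit 40, nat_lit 80, nat_lit 14, nat_lit 456, nat_lit 225, nat_lit 11]⟩,
 ⟨nat_lit 2236, nat_lit 3163, ⟨.ofNat (nat_lit 627331), .ofNat (nat_lit 688370), .ofNat (nat_lit 649422), .ofNat (nat_lit 710480), .ofNat (nat_lit 625251), .ofNat (nat_lit 682352), .ofNat (nat_lit 647962), .ofNat (nat_lit 705082)⟩, ⟨.ofNat (nat_lit 0), .ofNat (nat_lit 78946), .ofNat (nat_lit 0), .ofNat (nat_lit 100000), .ofNat (nat_lit 0), .ofNat (nat_lit 89742), .ofNat (nat_lit 0), .ofNat (nat_lit 100000)⟩⟩, [⟨nat_lit 3, nat_lit 100, nat_lit 54, nat_lit 57, nat_lit 149182037⟩, ⟨nat_lit 22, nat_lit 96, nat_lit 100, nat_lit 44, nat_lit 12740419⟩]⟩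
noncomputable def p108_l117 : Lf2 := ⟨nat_lit 0, nat_lit 20, [nat_lit 5, nat_lit 5, nat_lit 5, nat_lit 20], true, nat_lit 0, nat_lit 40, nat_lit 0, nat_lit 288, ⟨nat_lit 0, nat_lit 1000, nat_lit 0, nat_lit 6, nat_lit 265, nat_lit 1000, nat_lit 19, nat_lit 0, nat_lit 0, nat_lit 0, nat_lit 0, nat_lit 0, nat_lit 46535299, nat_lit 20464701, nat_lit 0, nat_lit 3077029, true, false⟩,
 nat_lit 0, nat_lit 0, nat_lit 0, nat_lit 0, nat_lit 2141, nat_lit 0, nat_lit 83, nat_lit 0, nat_lit 0, nat_lit 0, nat_lit 0, nat_lit 0, nat_lit 0, nat_lit 0, nat_lit 0, nat_lit 400000, nat_lit 0, nat_lit 0, [(nat_lit 28, [(nat_lit 1, nat_lit 1000)])],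
 ⟨p108_k30, nat_lit 0, nat_lit 0, nat_lit 155, nat_lit 0, nat_lit 0, [nat_lit 697600000, nat_lit 324800000, nat_lit 138000000], [], [nat_lit 23042148825, nat_lit 24175922672, nat_lit 24339090817, nat_lit 25621086856, nat_lit 22884618071, nat_lit 23929578239, nat_lit 24156106984, nat_lit 25291884268], nat_lit 0, nat_lit 0, nat_lit 0, nat_lit 0, nat_lit 0, nat_lit 0, [], [nat_lit 20, nat_lit 40, nat_lit 40, nat_lit 80, nat_lit 16, nat_lit 215, nat_lit 10, nat_lit 7]⟩, C1.Rw.none,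
 ⟨nat_lit 0, nat_lit 2237, ⟨.ofNat (nat_lit 624400), .ofNat (nat_lit 682352), .ofNat (nat_lit 646249), .ofNat (nat_lit 705063), .ofNat (nat_lit 624062), .ofNat (nat_lit 674999), .ofNat (nat_lit 648136), .ofNat (nat_lit 699935)⟩, ⟨.ofNat (nat_lit 0), .ofNat (nat_lit 89742), .ofNat (nat_lit 0), .ofNat (nat_lit 100000), .ofNat (nat_lit 0), .ofNat (nat_lit 99999), .ofNat (nat_lit 0), .ofNat (nat_lit 100000)⟩⟩, [⟨nat_lit 3, nat_lit 100, nat_lit 44, nat_lit 64, nat_lit 51021245⟩]⟩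
noncomputable def p108_l118 : Lf2 := ⟨nat_lit 0, nat_lit 20, [nat_lit 5, nat_lit 5, nat_lit 5, nat_lit 20], true, nat_lit 40, nat_lit 80, nat_lit 0, nat_lit 320, ⟨nat_lit 0, nat_lit 1000, nat_lit 0, nat_lit 6, nat_lit 266, nat_lit 1000, nat_lit 53, nat_lit 0, nat_lit 0, nat_lit 0, nat_lit 0, nat_lit 0, nat_lit 45137000, nat_lit 20223660, nat_lit 1639340, nat_lit 3722179, true, false⟩,
 nat_lit 0, nat_lit 0, nat_lit 0, nat_lit 0, nat_lit 2937, nat_lit 0, nat_lit 0, nat_lit 0, nat_lit 0, nat_lit 0, nat_lit 0, nat_lit 0, nat_lit 0, nat_lit 0, nat_lit 0, nat_lit 400000, nat_lit 0, nat_lit 0, [(nat_lit 25, [(nat_lit 1, nat_lit 1000)]), (nat_lit 28, [(nat_lit 1, nat_lit 1000)])],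
 ⟨p108_k28, nat_lit 0, nat_lit 0, nat_lit 133, nat_lit 0, nat_lit 0, [nat_lit 844800000, nat_lit 1002133334, nat_lit 915200000], [], [nat_lit 23100244316, nat_lit 25504295166, nat_lit 24460760262, nat_lit 26807175042, nat_lit 22679923002, nat_lit 24861387642, nat_lit 24009751550, nat_lit 26071009328], nat_lit 0, nat_lit 0, nat_lit 0, nat_lit 0, nat_lit 0, nat_lit 0, [], [nat_lit 20, nat_lit 40, nat_lit 40, nat_lit 80, nat_lit 16, nat_lit 226, nat_lit 20, nat_lit 7]⟩, C1.Rw.none,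
 ⟨nat_lit 0, nat_lit 3163, ⟨.ofNat (nat_lit 626068), .ofNat (nat_lit 688370), .ofNat (nat_lit 646918), .ofNat (nat_lit 710256), .ofNat (nat_lit 623650), .ofNat (nat_lit 674999), .ofNat (nat_lit 647345), .ofNat (nat_lit 699730)⟩, ⟨.ofNat (nat_lit 78946), .ofNat (nat_lit 139898), .ofNat (nat_lit 100000), .ofNat (nat_lit 184209), .ofNat (nat_lit 99999), .ofNat (nat_lit 149998), .ofNat (nat_lit 100000), .ofNat (nat_lit 199999)⟩⟩, []⟩
noncomputable def p108_l119 : Lf2 := ⟨nat_lit 0, nat_lit 20, [nat_lit 5, nat_lit 5, nat_lit 5, nat_lit 20], false, nat_lit 0, nat_lit 40, nat_lit 0, nat_lit 248, ⟨nat_lit 78, nat_lit 922, nat_lit 0, nat_lit 7, nat_lit 282, nat_lit 922, nat_lit 18, nat_lit 0, nat_lit 0, nat_lit 0, nat_lit 0, nat_lit 0, nat_lit 44724575, nat_lit 22275425, nat_lit 0, nat_lit 3179566, true, true⟩,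
 nat_lit 0, nat_lit 0, nat_lit 1368, nat_lit 0, nat_lit 2840, nat_lit 724, nat_lit 0, nat_lit 0, nat_lit 0, nat_lit 43, nat_lit 0, nat_lit 0, nat_lit 0, nat_lit 0, nat_lit 0, nat_lit 368800, nat_lit 0, nat_lit 0, [(nat_lit 25, [(nat_lit 1, nat_lit 922)])],
 ⟨p108_k28, nat_lit 0, nat_lit 0, nat_lit 151, nat_lit 0, nat_lit 0, [nat_lit 852069601, nat_lit 1179962934, nat_lit 1331314400], [], [nat_lit 25735332216, nat_lit 26253436336, nat_lit 27253329496, nat_lit 27732158736, nat_lit 25374510936, nat_lit 25878209276, nat_lit 26855421416, nat_lit 27321492756], nat_lit 0, nat_lit 0, nat_lit 0, nat_lit 0, nat_lit 0, nat_lit 0, [], [nat_lit 20, nat_lit 40, nat_lit 40, nat_lit 80, nat_lit 16, nat_lit 215, nat_lit 10, nat_lit 7]⟩, ⟨p108_k31, nat_lit 0, nat_lit 0, nat_lit 1018, nat_lit 0, nat_lit 1589299, [nat_lit 365664000, nat_lit 621504000, nat_lit 1096524000], [], [nat_lit 3200347636, nat_lit 3189553980, nat_lit 3197010636,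 nat_lit 3235995668, nat_lit 2612262076, nat_lit 2596368645, nat_lit 2596164259, nat_lit 2578689372], nat_lit 1271250, nat_lit 1271250, nat_lit 1271250, nat_lit 1271250, nat_lit 0, nat_lit 1751500, [nat_lit 1100000, nat_lit 1785000, nat_lit 1271250], [nat_lit 37, nat_lit 40, nat_lit 40, nat_lit 80, nat_lit 28, nat_lit 456, nat_lit 225, nat_lit 10]⟩,
 ⟨nat_lit 2738, nat_lit 3163, ⟨.ofNat (nat_lit 666215), .ofNat (nat_lit 727168), .ofNat (nat_lit 688370), .ofNat (nat_lit 749323), .ofNat (nat_lit 662956), .ofNat (nat_lit 722017), .ofNat (nat_lit 685373), .ofNat (nat_lit 744435)⟩, ⟨.ofNat (nat_lit 0), .ofNat (nat_lit 78946), .ofNat (nat_lit 0), .ofNat (nat_lit 100000), .ofNat (nat_lit 0), .ofNat (nat_lit 84414), .ofNat (nat_lit 0), .ofNat (nat_lit 100000)⟩⟩, [⟨nat_lit 3, nat_lit 100, nat_lit 66, nat_lit 45, nat_lit 37239071⟩]⟩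
noncomputable def p108_l120 : Lf2 := ⟨nat_lit 0, nat_lit 20, [nat_lit 5, nat_lit 5, nat_lit 5, nat_lit 20], false, nat_lit 0, nat_lit 40, nat_lit 0, nat_lit 248, ⟨nat_lit 69, nat_lit 931, nat_lit 0, nat_lit 7, nat_lit 281, nat_lit 931, nat_lit 19, nat_lit 0, nat_lit 0, nat_lit 0, nat_lit 0, nat_lit 0, nat_lit 44854410, nat_lit 22145590, nat_lit 0, nat_lit 3172770, true, true⟩,
 nat_lit 0, nat_lit 0, nat_lit 1203, nat_lit 0, nat_lit 2712, nat_lit 636, nat_lit 180, nat_lit 0, nat_lit 0, nat_lit 38, nat_lit 0, nat_lit 0, nat_lit 0, nat_lit 0, nat_lit 0, nat_lit 232750, nat_lit 0, nat_lit 0, [(nat_lit 25, [(nat_lit 0, nat_lit 931)])],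
 ⟨p108_k32, nat_lit 0, nat_lit 0, nat_lit 153, nat_lit 0, nat_lit 0, [nat_lit 776006000, nat_lit 1500810800, nat_lit 2403108000], [], [nat_lit 25555180240, nat_lit 25809523948, nat_lit 27015920560, nat_lit 27251228876, nat_lit 25223560732, nat_lit 25470889838, nat_lit 26649631796, nat_lit 26878723402], nat_lit 0, nat_lit 0, nat_lit 0, nat_lit 0, nat_lit 0, nat_lit 0, [], [nat_lit 20, nat_lit 40, nat_lit 40, nat_lit 80, nat_lit 16, nat_lit 215, nat_lit 10, nat_lit 7]⟩, ⟨p108_k31, nat_lit 0, nat_lit 0, nat_lit 1090, nat_lit 0, nat_lit 1702631, [nat_lit 323472000, nat_lit 549792000, nat_lit 970002000], [], [nat_lit 2860566164, nat_lit 2851221260, nat_lit 2857919336, nat_lit 2859162128, nat_lit 2345343427, nat_lit 2331507838, nat_lit 2331463741, nat_lit 2316236804], nat_lit 1271250, nat_lit 1271250, nat_lit 1271250, nat_lit 1271250, nat_lit 0, nat_lit 1751500, [nat_lit 1100000, nat_lit 1785000, nat_lit 1271250],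 [nat_lit 37, nat_lit 40, nat_lit 40, nat_lit 80, nat_lit 28, nat_lit 456, nat_lit 225, nat_lit 10]⟩,
 ⟨nat_lit 2500, nat_lit 2739, ⟨.ofNat (nat_lit 662956), .ofNat (nat_lit 722017), .ofNat (nat_lit 685373), .ofNat (nat_lit 744435), .ofNat (nat_lit 661289), .ofNat (nat_lit 719353), .ofNat (nat_lit 683869), .ofNat (nat_lit 741934)⟩, ⟨.ofNat (nat_lit 0), .ofNat (nat_lit 84414), .ofNat (nat_lit 0), .ofNat (nat_lit 100000), .ofNat (nat_lit 0), .ofNat (nat_lit 87095), .ofNat (nat_lit 0), .ofNat (nat_lit 100000)⟩⟩, [⟨nat_lit 3, nat_lit 100, nat_lit 61, nat_lit 51, nat_lit 62381863⟩]⟩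
noncomputable def p108_l121 : Lf2 := ⟨nat_lit 0, nat_lit 20, [nat_lit 5, nat_lit 5, nat_lit 5, nat_lit 20], true, nat_lit 0, nat_lit 40, nat_lit 0, nat_lit 248, ⟨nat_lit 0, nat_lit 1000, nat_lit 0, nat_lit 7, nat_lit 280, nat_lit 1000, nat_lit 19, nat_lit 0, nat_lit 0, nat_lit 0, nat_lit 0, nat_lit 0, nat_lit 44943541, nat_lit 22056459, nat_lit 0, nat_lit 3168055, true, true⟩,
 nat_lit 0, nat_lit 0, nat_lit 0, nat_lit 0, nat_lit 2237, nat_lit 0, nat_lit 245, nat_lit 0, nat_lit 0, nat_lit 0, nat_lit 0, nat_lit 0, nat_lit 0, nat_lit 0, nat_lit 0, nat_lit 250000, nat_lit 0, nat_lit 0, [(nat_lit 25, [(nat_lit 0, nat_lit 1000)])],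
 ⟨p108_k33, nat_lit 0, nat_lit 0, nat_lit 154, nat_lit 0, nat_lit 0, [nat_lit 764000001, nat_lit 1368800000, nat_lit 2118000000], [], [nat_lit 24693973125, nat_lit 24930844433, nat_lit 26073382076, nat_lit 26337073736, nat_lit 24517862640, nat_lit 24748418071, nat_lit 25867643320, nat_lit 26115565350], nat_lit 0, nat_lit 0, nat_lit 0, nat_lit 0, nat_lit 0, nat_lit 0, [], [nat_lit 20, nat_lit 40, nat_lit 40, nat_lit 80, nat_lit 16, nat_lit 215, nat_lit 10, nat_lit 7]⟩, C1.Rw.none,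
 ⟨nat_lit 2236, nat_lit 2500, ⟨.ofNat (nat_lit 661289), .ofNat (nat_lit 719353), .ofNat (nat_lit 683869), .ofNat (nat_lit 741934), .ofNat (nat_lit 659578), .ofNat (nat_lit 716594), .ofNat (nat_lit 682352), .ofNat (nat_lit 739368)⟩, ⟨.ofNat (nat_lit 0), .ofNat (nat_lit 87095), .ofNat (nat_lit 0), .ofNat (nat_lit 100000), .ofNat (nat_lit 0), .ofNat (nat_lit 89742), .ofNat (nat_lit 0), .ofNat (nat_lit 100000)⟩⟩, [⟨nat_lit 3, nat_lit 100, nat_lit 54, nat_lit 57, nat_lit 47380767⟩]⟩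
noncomputable def p108_l122 : Lf2 := ⟨nat_lit 0, nat_lit 20, [nat_lit 5, nat_lit 5, nat_lit 5, nat_lit 20], false, nat_lit 0, nat_lit 40, nat_lit 0, nat_lit 248, ⟨nat_lit 102, nat_lit 898, nat_lit 0, nat_lit 7, nat_lit 291, nat_lit 898, nat_lit 18, nat_lit 0, nat_lit 0, nat_lit 0, nat_lit 0, nat_lit 0, nat_lit 43790656, nat_lit 23209344, nat_lit 0, nat_lit 3225972, true, true⟩,
 nat_lit 0, nat_lit 0, nat_lit 1483, nat_lit 0, nat_lit 2869, nat_lit 863, nat_lit 0, nat_lit 0, nat_lit 0, nat_lit 106, nat_lit 0, nat_lit 0, nat_lit 0, nat_lit 0, nat_lit 0, nat_lit 359200, nat_lit 0, nat_lit 0, [(nat_lit 25, [(nat_lit 1, nat_lit 898)])],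
 ⟨p108_k28, nat_lit 0, nat_lit 0, nat_lit 151, nat_lit 0, nat_lit 0, [nat_lit 854306401, nat_lit 1234679734, nat_lit 1459349600], [], [nat_lit 25884830324, nat_lit 26405067916, nat_lit 27407174472, nat_lit 27887864381, nat_lit 25514214526, nat_lit 26019961020, nat_lit 26999285694, nat_lit 27467144188], nat_lit 0, nat_lit 0, nat_lit 0, nat_lit 0, nat_lit 0, nat_lit 0, [], [nat_lit 20, nat_lit 40, nat_lit 40, nat_lit 80, nat_lit 16, nat_lit 215, nat_lit 10, nat_lit 7]⟩, ⟨p108_k29, nat_lit 0, nat_lit 0, nat_lit 921, nat_lit 0, nat_lit 1514557, [nat_lit 478176000, nat_lit 812736000, nat_lit 1210944000], [], [nat_lit 3328762286, nat_lit 3350488888, nat_lit 3401180316, nat_lit 3417683724, nat_lit 2744249759, nat_lit 2751880157, nat_lit 2783857497, nat_lit 2787599323], nat_lit 1271250, nat_lit 1271250, nat_lit 1271250, nat_lit 1271250, nat_lit 0, nat_lit 1751500, [nat_lit 1100000, nat_lit 1785000, nat_lit 1271250],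 [nat_lit 21, nat_lit 40, nat_lit 40, nat_lit 80, nat_lit 14, nat_lit 456, nat_lit 225, nat_lit 11]⟩,
 ⟨nat_lit 2738, nat_lit 3163, ⟨.ofNat (nat_lit 688370), .ofNat (nat_lit 749323), .ofNat (nat_lit 710514), .ofNat (nat_lit 771478), .ofNat (nat_lit 685373), .ofNat (nat_lit 744435), .ofNat (nat_lit 707780), .ofNat (nat_lit 766852)⟩, ⟨.ofNat (nat_lit 0), .ofNat (nat_lit 78946), .ofNat (nat_lit 0), .ofNat (nat_lit 100000), .ofNat (nat_lit 0), .ofNat (nat_lit 84414), .ofNat (nat_lit 0), .ofNat (nat_lit 100000)⟩⟩, [⟨nat_lit 22, nat_lit 94, nat_lit 100, nat_lit 14, nat_lit 20975335⟩, ⟨nat_lit 22, nat_lit 87, nat_lit 100, nat_lit 44, nat_lit 4353645⟩]⟩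
noncomputable def p108_l123 : Lf2 := ⟨nat_lit 0, nat_lit 20, [nat_lit 5, nat_lit 5, nat_lit 5, nat_lit 20], false, nat_lit 0, nat_lit 40, nat_lit 0, nat_lit 248, ⟨nat_lit 98, nat_lit 902, nat_lit 0, nat_lit 7, nat_lit 290, nat_lit 902, nat_lit 19, nat_lit 0, nat_lit 0, nat_lit 0, nat_lit 0, nat_lit 0, nat_lit 43910089, nat_lit 23089911, nat_lit 0, nat_lit 3220279, true, true⟩,
 nat_lit 0, nat_lit 0, nat_lit 1429, nat_lit 0, nat_lit 2735, nat_lit 831, nat_lit 189, nat_lit 0, nat_lit 0, nat_lit 102, nat_lit 0, nat_lit 0, nat_lit 0, nat_lit 0, nat_lit 0, nat_lit 225500, nat_lit 0, nat_lit 0, [(nat_lit 25, [(nat_lit 0, nat_lit 902)])],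
 ⟨p108_k32, nat_lit 0, nat_lit 0, nat_lit 153, nat_lit 0, nat_lit 0, [nat_lit 781052001, nat_lit 1556293600, nat_lit 2522936000], [], [nat_lit 25607559552, nat_lit 25862749292, nat_lit 27071531027, nat_lit 27307577195, nat_lit 25268104312, nat_lit 25516245617, nat_lit 26697268232, nat_lit 26927068537], nat_lit 0, nat_lit 0, nat_lit 0, nat_lit 0, nat_lit 0, nat_lit 0, [], [nat_lit 20, nat_lit 40, nat_lit 40, nat_lit 80, nat_lit 16, nat_lit 215, nat_lit 10, nat_lit 7]⟩, ⟨p108_k29, nat_lit 0, nat_lit 0, nat_lit 978, nat_lit 0, nat_lit 1608049, [nat_lit 459424000, nat_lit 780864000, nat_lit 1163456000], [], [nat_lit 3189127374, nat_lit 3209968728, nat_lit 3258695156, nat_lit 3283442794, nat_lit 2625523938, nat_lit 2632799648, nat_lit 2663514720, nat_lit 2668834709], nat_lit 1271250, nat_lit 1271250, nat_lit 1271250, nat_lit 1271250, nat_lit 0, nat_lit 1751500, [nat_lit 1100000, nat_lit 1785000, nat_lit 1271250],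 [nat_lit 21, nat_lit 40, nat_lit 40, nat_lit 80, nat_lit 14, nat_lit 456, nat_lit 225, nat_lit 11]⟩,
 ⟨nat_lit 2500, nat_lit 2739, ⟨.ofNat (nat_lit 685373), .ofNat (nat_lit 744435), .ofNat (nat_lit 707789), .ofNat (nat_lit 766852), .ofNat (nat_lit 683869), .ofNat (nat_lit 741934), .ofNat (nat_lit 706448), .ofNat (nat_lit 764515)⟩, ⟨.ofNat (nat_lit 0), .ofNat (nat_lit 84414), .ofNat (nat_lit 0), .ofNat (nat_lit 100000), .ofNat (nat_lit 0), .ofNat (nat_lit 87095), .ofNat (nat_lit 0), .ofNat (nat_lit 100000)⟩⟩, [⟨nat_lit 3, nat_lit 100, nat_lit 71, nat_lit 37, nat_lit 17369833⟩, ⟨nat_lit 22, nat_lit 87, nat_lit 100, nat_lit 44, nat_lit 11147525⟩]⟩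
noncomputable def p108_l124 : Lf2 := ⟨nat_lit 0, nat_lit 20, [nat_lit 5, nat_lit 5, nat_lit 5, nat_lit 20], false, nat_lit 0, nat_lit 40, nat_lit 0, nat_lit 248, ⟨nat_lit 92, nat_lit 908, nat_lit 0, nat_lit 7, nat_lit 289, nat_lit 908, nat_lit 19, nat_lit 0, nat_lit 0, nat_lit 0, nat_lit 0, nat_lit 0, nat_lit 43990795, nat_lit 23009205, nat_lit 0, nat_lit 3216392, true, true⟩,
 nat_lit 0, nat_lit 0, nat_lit 1336, nat_lit 0, nat_lit 2277, nat_lit 777, nat_lit 274, nat_lit 0, nat_lit 0, nat_lit 96, nat_lit 0, nat_lit 0, nat_lit 0, nat_lit 0, nat_lit 0, nat_lit 227000, nat_lit 0, nat_lit 0, [(nat_lit 25, [(nat_lit 0, nat_lit 908)])],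
 ⟨p108_k33, nat_lit 0, nat_lit 0, nat_lit 154, nat_lit 0, nat_lit 0, [nat_lit 780008001, nat_lit 1544814400, nat_lit 2498144000], [], [nat_lit 24839670560, nat_lit 25078013228, nat_lit 26222310536, nat_lit 26443663834, nat_lit 24649873875, nat_lit 24881841826, nat_lit 26001169619, nat_lit 26216857570], nat_lit 0, nat_lit 0, nat_lit 0, nat_lit 0, nat_lit 0, nat_lit 0, [], [nat_lit 20, nat_lit 40, nat_lit 40, nat_lit 80, nat_lit 16, nat_lit 215, nat_lit 10, nat_lit 7]⟩, ⟨p108_k29, nat_lit 0, nat_lit 0, nat_lit 1016, nat_lit 0, nat_lit 1703542, [nat_lit 431296000, nat_lit 733056000, nat_lit 1092224000], [], [nat_lit 3005070066, nat_lit 3024691704, nat_lit 3070396088, nat_lit 3085313540, nat_lit 2479383122, nat_lit 2486307330, nat_lit 2515155871, nat_lit 2518577820], nat_lit 1271250, nat_lit 1271250, nat_lit 1271250, nat_lit 1271250, nat_lit 0, nat_lit 1751500, [nat_lit 1100000, nat_lit 1785000, nat_lit 1271250],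 [nat_lit 21, nat_lit 40, nat_lit 40, nat_lit 80, nat_lit 14, nat_lit 456, nat_lit 225, nat_lit 11]⟩,
 ⟨nat_lit 2236, nat_lit 2500, ⟨.ofNat (nat_lit 683869), .ofNat (nat_lit 741934), .ofNat (nat_lit 706448), .ofNat (nat_lit 764515), .ofNat (nat_lit 682352), .ofNat (nat_lit 739368), .ofNat (nat_lit 705125), .ofNat (nat_lit 762142)⟩, ⟨.ofNat (nat_lit 0), .ofNat (nat_lit 87095), .ofNat (nat_lit 0), .ofNat (nat_lit 100000), .ofNat (nat_lit 0), .ofNat (nat_lit 89742), .ofNat (nat_lit 0), .ofNat (nat_lit 100000)⟩⟩, [⟨nat_lit 3, nat_lit 100, nat_lit 54, nat_lit 57, nat_lit 14991005⟩, ⟨nat_lit 22, nat_lit 87, nat_lit 100, nat_lit 44, nat_lit 10418460⟩]⟩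
noncomputable def p108_l125 : Lf2 := ⟨nat_lit 0, nat_lit 20, [nat_lit 5, nat_lit 5, nat_lit 5, nat_lit 20], true, nat_lit 40, nat_lit 80, nat_lit 0, nat_lit 300, ⟨nat_lit 0, nat_lit 1000, nat_lit 0, nat_lit 7, nat_lit 287, nat_lit 1000, nat_lit 51, nat_lit 0, nat_lit 0, nat_lit 0, nat_lit 0, nat_lit 0, nat_lit 43097521, nat_lit 22379024, nat_lit 1523455, nat_lit 3805941, true, true⟩,
 nat_lit 0, nat_lit 0, nat_lit 0, nat_lit 0, nat_lit 2665, nat_lit 0, nat_lit 0, nat_lit 0, nat_lit 0, nat_lit 0, nat_lit 0, nat_lit 0, nat_lit 0, nat_lit 0, nat_lit 0, nat_lit 250000, nat_lit 0, nat_lit 0, [(nat_lit 25, [(nat_lit 0, nat_lit 1000)])],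
 ⟨p108_k25, nat_lit 0, nat_lit 0, nat_lit 120, nat_lit 0, nat_lit 0, [nat_lit 764000001, nat_lit 2118000000], [], [nat_lit 25678010843, nat_lit 26207477703, nat_lit 27237808733, nat_lit 27751879360, nat_lit 25334789083, nat_lit 25849324238, nat_lit 26856974763, nat_lit 27333074963], nat_lit 0, nat_lit 0, nat_lit 0, nat_lit 0, nat_lit 0, nat_lit 0, [], [nat_lit 88, nat_lit 40, nat_lit 40, nat_lit 80, nat_lit 89, nat_lit 226, nat_lit 20, nat_lit 7]⟩, C1.Rw.none,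
 ⟨nat_lit 2738, nat_lit 3163, ⟨.ofNat (nat_lit 666215), .ofNat (nat_lit 727168), .ofNat (nat_lit 710514), .ofNat (nat_lit 771478), .ofNat (nat_lit 662956), .ofNat (nat_lit 722017), .ofNat (nat_lit 707780), .ofNat (nat_lit 766852)⟩, ⟨.ofNat (nat_lit 78946), .ofNat (nat_lit 139899), .ofNat (nat_lit 100000), .ofNat (nat_lit 184209), .ofNat (nat_lit 84414), .ofNat (nat_lit 143475), .ofNat (nat_lit 100000), .ofNat (nat_lit 188310)⟩⟩, []⟩
noncomputable def p108_l126 : Lf2 := ⟨nat_lit 0, nat_lit 20, [nat_lit 5, nat_lit 5, nat_lit 5, nat_lit 20], true, nat_lit 40, nat_lit 80, nat_lit 0, nat_lit 300, ⟨nat_lit 0, nat_lit 1000, nat_lit 0, nat_lit 7, nat_lit 285, nat_lit 1000, nat_lit 52, nat_lit 0, nat_lit 0, nat_lit 0, nat_lit 0, nat_lit 0, nat_lit 43212841, nat_lit 22202921, nat_lit 1584238, nat_lit 3815700, true, true⟩,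
 nat_lit 0, nat_lit 0, nat_lit 0, nat_lit 0, nat_lit 2718, nat_lit 0, nat_lit 170, nat_lit 0, nat_lit 0, nat_lit 0, nat_lit 0, nat_lit 0, nat_lit 0, nat_lit 0, nat_lit 0, nat_lit 250000, nat_lit 0, nat_lit 0, [(nat_lit 25, [(nat_lit 0, nat_lit 1000)])],
 ⟨p108_k32, nat_lit 0, nat_lit 0, nat_lit 132, nat_lit 0, nat_lit 0, [nat_lit 764000001, nat_lit 1368800000, nat_lit 2118000000], [], [nat_lit 24743908665, nat_lit 25250241437, nat_lit 26196373895, nat_lit 26691767456, nat_lit 24356718037, nat_lit 24848997749, nat_lit 25775166255, nat_lit 26231168073], nat_lit 0, nat_lit 0, nat_lit 0, nat_lit 0, nat_lit 0, nat_lit 0, [], [nat_lit 20, nat_lit 40, nat_lit 40, nat_lit 80, nat_lit 16, nat_lit 226, nat_lit 20, nat_lit 7]⟩, C1.Rw.none,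
 ⟨nat_lit 2236, nat_lit 2739, ⟨.ofNat (nat_lit 662956), .ofNat (nat_lit 722017), .ofNat (nat_lit 707780), .ofNat (nat_lit 766852), .ofNat (nat_lit 659578), .ofNat (nat_lit 716594), .ofNat (nat_lit 705116), .ofNat (nat_lit 762142)⟩, ⟨.ofNat (nat_lit 84414), .ofNat (nat_lit 143475), .ofNat (nat_lit 100000), .ofNat (nat_lit 188310), .ofNat (nat_lit 89742), .ofNat (nat_lit 146758), .ofNat (nat_lit 100000), .ofNat (nat_lit 192306)⟩⟩, []⟩
noncomputable def p108_l127 : Lf2 := ⟨nat_lit 0, nat_lit 20, [nat_lit 5, nat_lit 5, nat_lit 5, nat_lit 20], true, nat_lit 0, nat_lit 40, nat_lit 0, nat_lit 248, ⟨nat_lit 0, nat_lit 1000, nat_lit 0, nat_lit 7, nat_lit 282, nat_lit 1000, nat_lit 19, nat_lit 0, nat_lit 0, nat_lit 0, nat_lit 0, nat_lit 0, nat_lit 44738061, nat_lit 22261939, nat_lit 0, nat_lit 3178864, true, true⟩,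
 nat_lit 0, nat_lit 0, nat_lit 0, nat_lit 0, nat_lit 2069, nat_lit 0, nat_lit 63, nat_lit 0, nat_lit 0, nat_lit 0, nat_lit 0, nat_lit 0, nat_lit 0, nat_lit 0, nat_lit 0, nat_lit 400000, nat_lit 0, nat_lit 0, [(nat_lit 28, [(nat_lit 1, nat_lit 1000)])],
 ⟨p108_k30, nat_lit 0, nat_lit 0, nat_lit 164, nat_lit 0, nat_lit 0, [nat_lit 697600000, nat_lit 324800000, nat_lit 138000000], [], [nat_lit 24610201453, nat_lit 25600705071, nat_lit 26033978503, nat_lit 27062499888, nat_lit 24453165091, nat_lit 25417592283, nat_lit 25846307977, nat_lit 26848940596], nat_lit 0, nat_lit 0, nat_lit 0, nat_lit 0, nat_lit 0, nat_lit 0, [], [nat_lit 20, nat_lit 40, nat_lit 40, nat_lit 80, nat_lit 16, nat_lit 215, nat_lit 10, nat_lit 7]⟩, C1.Rw.none,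
 ⟨nat_lit 0, nat_lit 2237, ⟨.ofNat (nat_lit 659577), .ofNat (nat_lit 716590), .ofNat (nat_lit 705063), .ofNat (nat_lit 762141), .ofNat (nat_lit 649998), .ofNat (nat_lit 699995), .ofNat (nat_lit 699935), .ofNat (nat_lit 749998)⟩, ⟨.ofNat (nat_lit 0), .ofNat (nat_lit 89742), .ofNat (nat_lit 0), .ofNat (nat_lit 100000), .ofNat (nat_lit 0), .ofNat (nat_lit 99999), .ofNat (nat_lit 0), .ofNat (nat_lit 100000)⟩⟩, [⟨nat_lit 3, nat_lit 100, nat_lit 44, nat_lit 64, nat_lit 59562875⟩]⟩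
noncomputable def p108_l128 : Lf2 := ⟨nat_lit 0, nat_lit 20, [nat_lit 5, nat_lit 5, nat_lit 5, nat_lit 20], true, nat_lit 40, nat_lit 80, nat_lit 0, nat_lit 300, ⟨nat_lit 0, nat_lit 1000, nat_lit 0, nat_lit 7, nat_lit 282, nat_lit 1000, nat_lit 54, nat_lit 0, nat_lit 0, nat_lit 0, nat_lit 0, nat_lit 0, nat_lit 43451597, nat_lit 21881198, nat_lit 1667205, nat_lit 3824206, true, true⟩,
 nat_lit 0, nat_lit 0, nat_lit 0, nat_lit 0, nat_lit 2206, nat_lit 0, nat_lit 32, nat_lit 0, nat_lit 0, nat_lit 0, nat_lit 0, nat_lit 0, nat_lit 0, nat_lit 0, nat_lit 0, nat_lit 400000, nat_lit 0, nat_lit 0, [(nat_lit 28, [(nat_lit 1, nat_lit 1000)])],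
 ⟨p108_k30, nat_lit 0, nat_lit 0, nat_lit 140, nat_lit 0, nat_lit 0, [nat_lit 697600000, nat_lit 324800000, nat_lit 138000000], [], [nat_lit 24428757772, nat_lit 25436457620, nat_lit 25864694096, nat_lit 26798536008, nat_lit 24170621748, nat_lit 25151452976, nat_lit 25575986028, nat_lit 26527674096], nat_lit 0, nat_lit 0, nat_lit 0, nat_lit 0, nat_lit 0, nat_lit 0, [], [nat_lit 20, nat_lit 40, nat_lit 40, nat_lit 80, nat_lit 16, nat_lit 226, nat_lit 20, nat_lit 7]⟩, C1.Rw.none,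
 ⟨nat_lit 0, nat_lit 2237, ⟨.ofNat (nat_lit 659577), .ofNat (nat_lit 716590), .ofNat (nat_lit 705063), .ofNat (nat_lit 762141), .ofNat (nat_lit 649998), .ofNat (nat_lit 699995), .ofNat (nat_lit 699935), .ofNat (nat_lit 749998)⟩, ⟨.ofNat (nat_lit 89742), .ofNat (nat_lit 146756), .ofNat (nat_lit 100000), .ofNat (nat_lit 192306), .ofNat (nat_lit 99999), .ofNat (nat_lit 149997), .ofNat (nat_lit 100000), .ofNat (nat_lit 199999)⟩⟩, [⟨nat_lit 3, nat_lit 100, nat_lit 44, nat_lit 64, nat_lit 31007401⟩]⟩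
noncomputable def b_V_900_600_10_5 : St := ⟨true, nat_lit 0, nat_lit 1, nat_lit 1, nat_lit 80, nat_lit 360, nat_lit 400, nat_lit 240, nat_lit 280, nat_lit 240, nat_lit 320, nat_lit 40, nat_lit 80, nat_lit 0, nat_lit 80, nat_lit 0, nat_lit 336, nat_lit 40, nat_lit 80, nat_lit 0, nat_lit 0, nat_lit 0, nat_lit 0⟩
theorem d_V_900_600_10_5 (h : EB TB.env) : Dead b_V_900_600_10_5 := chkB_sound0 h (T :=
(.spl (nat_lit 2) (nat_lit 280)
(.spl (nat_lit 1) (nat_lit 260)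
(.leaf p108_l115)
(.trX (nat_lit 19) (nat_lit 100) (nat_lit 85) (nat_lit 84) (nat_lit 320) (.spl (nat_lit 4) (nat_lit 40)
(.trX (nat_lit 22) (nat_lit 100) (nat_lit 92) (nat_lit 61) (nat_lit 288) (.spl (nat_lit 0) (nat_lit 380)
(.leaf p108_l116)
(.leaf p108_l117)))
(.leaf p108_l118))))
(.trX (nat_lit 22) (nat_lit 100) (nat_lit 95) (nat_lit 87) (nat_lit 300) (.spl (nat_lit 0) (nat_lit 380)
(.spl (nat_lit 4) (nat_lit 40)
(.trX (nat_lit 22) (nat_lit 94) (nat_lit 100) (nat_lit 62) (nat_lit 248) (.spl (nat_lit 1) (nat_lit 260)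
(.spl (nat_lit 0) (nat_lit 370)
(.leaf p108_l119)
(.spl (nat_lit 0) (nat_lit 375)
(.leaf p108_l120)
(.leaf p108_l121)))
(.spl (nat_lit 0) (nat_lit 370)
(.leaf p108_l122)
(.spl (nat_lit 0) (nat_lit 375)
(.leaf p108_l123)
(.leaf p108_l124)))))
(.spl (nat_lit 0) (nat_lit 370)
(.leaf p108_l125)
(.leaf p108_l126)))
(.spl (nat_lit 4) (nat_lit 40)
(.trX (nat_lit 22) (nat_lit 94) (nat_lit 100) (nat_lit 62) (nat_lit 248) (.leaf p108_l127))
(.leaf p108_l128)))))) (by decide +kernel)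
noncomputable def p108_l129 : Lf2 := ⟨nat_lit 0, nat_lit 15, [nat_lit 30, nat_lit 5, nat_lit 5, nat_lit 20], false, nat_lit 0, nat_lit 40, nat_lit 0, nat_lit 200, ⟨nat_lit 72, nat_lit 928, nat_lit 0, nat_lit 8, nat_lit 307, nat_lit 928, nat_lit 18, nat_lit 0, nat_lit 0, nat_lit 0, nat_lit 0, nat_lit 0, nat_lit 42112912, nat_lit 24887088, nat_lit 0, nat_lit 3298611, true, true⟩,
 nat_lit 0, nat_lit 0, nat_lit 1279, nat_lit 0, nat_lit 2549, nat_lit 677, nat_lit 114, nat_lit 0, nat_lit 0, nat_lit 55, nat_lit 0, nat_lit 0, nat_lit 0, nat_lit 0, nat_lit 0, nat_lit 371200, nat_lit 0, nat_lit 0, [(nat_lit 25, [(nat_lit 1, nat_lit 928)])],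
 ⟨p108_k34, nat_lit 0, nat_lit 0, nat_lit 165, nat_lit 0, nat_lit 0, [nat_lit 851510401, nat_lit 1166283734, nat_lit 1299305600], [], [nat_lit 26702026285, nat_lit 27128026885, nat_lit 28394432137, nat_lit 28817296217, nat_lit 26352369763, nat_lit 26780217878, nat_lit 28053260923, nat_lit 28463332146], nat_lit 0, nat_lit 0, nat_lit 0, nat_lit 0, nat_lit 0, nat_lit 0, [], [nat_lit 20, nat_lit 40, nat_lit 40, nat_lit 80, nat_lit 16, nat_lit 215, nat_lit 10, nat_lit 7]⟩, ⟨p108_k35, nat_lit 0, nat_lit 0, nat_lit 952, nat_lit 0, nat_lit 1563763, [nat_lit 337536000, nat_lit 573696000, nat_lit 854784000], [], [nat_lit 2848678012, nat_lit 2842523520, nat_lit 2876161927, nat_lit 2893601552, nat_lit 2370346538, nat_lit 2360106353, nat_lit 2384025888, nat_lit 2371568637], nat_lit 1271250, nat_lit 1271250, nat_lit 1271250, nat_lit 1271250, nat_lit 0, nat_lit 1412500, [nat_lit 1100000, nat_lit 1785000, nat_lit 1271250],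 [nat_lit 21, nat_lit 40, nat_lit 40, nat_lit 80, nat_lit 14, nat_lit 345, nat_lit 125, nat_lit 8]⟩,
 ⟨nat_lit 2738, nat_lit 3163, ⟨.ofNat (nat_lit 727168), .ofNat (nat_lit 794217), .ofNat (nat_lit 749323), .ofNat (nat_lit 816372), .ofNat (nat_lit 722017), .ofNat (nat_lit 786985), .ofNat (nat_lit 744435), .ofNat (nat_lit 809402)⟩, ⟨.ofNat (nat_lit 0), .ofNat (nat_lit 78946), .ofNat (nat_lit 0), .ofNat (nat_lit 100000), .ofNat (nat_lit 0), .ofNat (nat_lit 84414), .ofNat (nat_lit 0), .ofNat (nat_lit 100000)⟩⟩, [⟨nat_lit 13, nat_lit 58, nat_lit 68, nat_lit 100, nat_lit 252916919⟩, ⟨nat_lit 3, nat_lit 100, nat_lit 85, nat_lit 18, nat_lit 20897995⟩]⟩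
noncomputable def p108_l130 : Lf2 := ⟨nat_lit 0, nat_lit 15, [nat_lit 30, nat_lit 5, nat_lit 5, nat_lit 20], true, nat_lit 0, nat_lit 40, nat_lit 0, nat_lit 200, ⟨nat_lit 0, nat_lit 1000, nat_lit 0, nat_lit 8, nat_lit 302, nat_lit 1000, nat_lit 19, nat_lit 0, nat_lit 0, nat_lit 0, nat_lit 0, nat_lit 0, nat_lit 42722979, nat_lit 24277021, nat_lit 0, nat_lit 3273772, true, true⟩,
 nat_lit 0, nat_lit 0, nat_lit 0, nat_lit 0, nat_lit 2709, nat_lit 0, nat_lit 37, nat_lit 0, nat_lit 0, nat_lit 0, nat_lit 0, nat_lit 0, nat_lit 0, nat_lit 0, nat_lit 0, nat_lit 250000, nat_lit 0, nat_lit 0, [(nat_lit 25, [(nat_lit 0, nat_lit 1000)])],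
 ⟨p108_k36, nat_lit 0, nat_lit 0, nat_lit 156, nat_lit 0, nat_lit 0, [nat_lit 764000001, nat_lit 1368800000, nat_lit 1715600000], [], [nat_lit 27273383935, nat_lit 27769859450, nat_lit 28615156300, nat_lit 29210397341, nat_lit 26914358849, nat_lit 27397487169, nat_lit 28220347007, nat_lit 28672047019], nat_lit 0, nat_lit 0, nat_lit 0, nat_lit 0, nat_lit 0, nat_lit 0, [], [nat_lit 35, nat_lit 40, nat_lit 40, nat_lit 80, nat_lit 22, nat_lit 215, nat_lit 10, nat_lit 8]⟩, C1.Rw.none,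
 ⟨nat_lit 2236, nat_lit 2739, ⟨.ofNat (nat_lit 722017), .ofNat (nat_lit 769266), .ofNat (nat_lit 744435), .ofNat (nat_lit 791684), .ofNat (nat_lit 716594), .ofNat (nat_lit 762206), .ofNat (nat_lit 739368), .ofNat (nat_lit 784980)⟩, ⟨.ofNat (nat_lit 0), .ofNat (nat_lit 84414), .ofNat (nat_lit 0), .ofNat (nat_lit 100000), .ofNat (nat_lit 0), .ofNat (nat_lit 89742), .ofNat (nat_lit 0), .ofNat (nat_lit 100000)⟩⟩, [⟨nat_lit 13, nat_lit 55, nat_lit 68, nat_lit 100, nat_lit 337393191⟩, ⟨nat_lit 3, nat_lit 100, nat_lit 73, nat_lit 33, nat_lit 66531730⟩]⟩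
noncomputable def p108_l131 : Lf2 := ⟨nat_lit 0, nat_lit 20, [nat_lit 5, nat_lit 5, nat_lit 5, nat_lit 20], false, nat_lit 0, nat_lit 40, nat_lit 0, nat_lit 200, ⟨nat_lit 141, nat_lit 859, nat_lit 0, nat_lit 8, nat_lit 305, nat_lit 859, nat_lit 20, nat_lit 0, nat_lit 0, nat_lit 0, nat_lit 0, nat_lit 0, nat_lit 42400472, nat_lit 24599528, nat_lit 0, nat_lit 3287125, true, true⟩,
 nat_lit 0, nat_lit 0, nat_lit 2327, nat_lit 0, nat_lit 2832, nat_lit 1231, nat_lit 67, nat_lit 0, nat_lit 0, nat_lit 103, nat_lit 0, nat_lit 0, nat_lit 0, nat_lit 0, nat_lit 0, nat_lit 343600, nat_lit 0, nat_lit 0, [(nat_lit 25, [(nat_lit 1, nat_lit 859)])],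
 ⟨p108_k28, nat_lit 0, nat_lit 0, nat_lit 159, nat_lit 0, nat_lit 0, [nat_lit 857941201, nat_lit 1323594534, nat_lit 1667406800], [], [nat_lit 27218214519, nat_lit 27457372495, nat_lit 28866426551, nat_lit 29085968819, nat_lit 26823059735, nat_lit 27055848901, nat_lit 28429893623, nat_lit 28643886185], nat_lit 0, nat_lit 0, nat_lit 0, nat_lit 0, nat_lit 0, nat_lit 0, [], [nat_lit 20, nat_lit 40, nat_lit 40, nat_lit 80, nat_lit 16, nat_lit 215, nat_lit 10, nat_lit 7]⟩, ⟨p108_k31, nat_lit 0, nat_lit 0, nat_lit 786, nat_lit 0, nat_lit 1070147, [nat_lit 661008000, nat_lit 1123488000, nat_lit 1982178000], [], [nat_lit 5784859656, nat_lit 5786331416, nat_lit 5875009448, nat_lit 5878471511, nat_lit 4884989450, nat_lit 4889420800, nat_lit 4983723218, nat_lit 4985063383], nat_lit 1271250, nat_lit 1271250, nat_lit 1271250, nat_lit 1271250, nat_lit 0, nat_lit 1412500, [nat_lit 1100000, nat_lit 1785000, nat_lit 1271250],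 [nat_lit 37, nat_lit 40, nat_lit 40, nat_lit 80, nat_lit 28, nat_lit 456, nat_lit 225, nat_lit 10]⟩,
 ⟨nat_lit 2958, nat_lit 3163, ⟨.ofNat (nat_lit 727168), .ofNat (nat_lit 788122), .ofNat (nat_lit 738246), .ofNat (nat_lit 799199), .ofNat (nat_lit 724616), .ofNat (nat_lit 784637), .ofNat (nat_lit 735754), .ofNat (nat_lit 795775)⟩, ⟨.ofNat (nat_lit 0), .ofNat (nat_lit 100000), .ofNat (nat_lit 0), .ofNat (nat_lit 100000), .ofNat (nat_lit 0), .ofNat (nat_lit 100000), .ofNat (nat_lit 0), .ofNat (nat_lit 100000)⟩⟩, [⟨nat_lit 13, nat_lit 60, nat_lit 68, nat_lit 100, nat_lit 223867343⟩, ⟨nat_lit 3, nat_lit 100, nat_lit 77, nat_lit 31, nat_lit 43726546⟩]⟩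
noncomputable def p108_l132 : Lf2 := ⟨nat_lit 0, nat_lit 20, [nat_lit 5, nat_lit 5, nat_lit 5, nat_lit 20], false, nat_lit 0, nat_lit 40, nat_lit 0, nat_lit 200, ⟨nat_lit 135, nat_lit 865, nat_lit 0, nat_lit 8, nat_lit 301, nat_lit 865, nat_lit 20, nat_lit 0, nat_lit 0, nat_lit 0, nat_lit 0, nat_lit 0, nat_lit 42768132, nat_lit 24231868, nat_lit 0, nat_lit 3271863, true, true⟩,
 nat_lit 0, nat_lit 0, nat_lit 2246, nat_lit 0, nat_lit 2815, nat_lit 1189, nat_lit 149, nat_lit 0, nat_lit 0, nat_lit 100, nat_lit 0, nat_lit 0, nat_lit 0, nat_lit 0, nat_lit 0, nat_lit 252700, nat_lit 0, nat_lit 0, [(nat_lit 25, [(nat_lit 0, nat_lit 622), (nat_lit 1, nat_lit 243)])],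
 ⟨p108_k37, nat_lit 0, nat_lit 0, nat_lit 159, nat_lit 0, nat_lit 0, [nat_lit 807124401, nat_lit 1537982000, nat_lit 2383539600], [], [nat_lit 27387391120, nat_lit 27626003727, nat_lit 28687782684, nat_lit 28910766903, nat_lit 26991739827, nat_lit 27224005172, nat_lit 28259785326, nat_lit 28477074803], nat_lit 0, nat_lit 0, nat_lit 0, nat_lit 0, nat_lit 0, nat_lit 0, [], [nat_lit 20, nat_lit 40, nat_lit 40, nat_lit 80, nat_lit 16, nat_lit 215, nat_lit 10, nat_lit 7]⟩, ⟨p108_k31, nat_lit 0, nat_lit 0, nat_lit 825, nat_lit 0, nat_lit 1179280, [nat_lit 632880000, nat_lit 1075680000, nat_lit 1897830000], [], [nat_lit 5480435460, nat_lit 5481659588, nat_lit 5549404497, nat_lit 5553200760, nat_lit 4623016238, nat_lit 4627100368, nat_lit 4698624859, nat_lit 4700324099], nat_lit 1271250, nat_lit 1271250, nat_lit 1271250, nat_lit 1271250, nat_lit 0, nat_lit 1412500, [nat_lit 1100000, nat_lit 1785000, nat_lit 1271250],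 [nat_lit 37, nat_lit 40, nat_lit 40, nat_lit 80, nat_lit 28, nat_lit 456, nat_lit 225, nat_lit 10]⟩,
 ⟨nat_lit 2738, nat_lit 2959, ⟨.ofNat (nat_lit 724616), .ofNat (nat_lit 772633), .ofNat (nat_lit 735754), .ofNat (nat_lit 783771), .ofNat (nat_lit 722017), .ofNat (nat_lit 769266), .ofNat (nat_lit 733226), .ofNat (nat_lit 780475)⟩, ⟨.ofNat (nat_lit 0), .ofNat (nat_lit 100000), .ofNat (nat_lit 0), .ofNat (nat_lit 100000), .ofNat (nat_lit 0), .ofNat (nat_lit 100000), .ofNat (nat_lit 0), .ofNat (nat_lit 100000)⟩⟩, [⟨nat_lit 13, nat_lit 56, nat_lit 71, nat_lit 100, nat_lit 245278028⟩, ⟨nat_lit 3, nat_lit 100, nat_lit 72, nat_lit 37, nat_lit 47856518⟩]⟩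
noncomputable def p108_l133 : Lf2 := ⟨nat_lit 0, nat_lit 20, [nat_lit 5, nat_lit 5, nat_lit 5, nat_lit 20], false, nat_lit 4, nat_lit 40, nat_lit 0, nat_lit 200, ⟨nat_lit 79, nat_lit 921, nat_lit 0, nat_lit 8, nat_lit 298, nat_lit 921, nat_lit 22, nat_lit 0, nat_lit 0, nat_lit 0, nat_lit 0, nat_lit 0, nat_lit 42759541, nat_lit 23812019, nat_lit 428440, nat_lit 3481312, true, true⟩,
 nat_lit 0, nat_lit 0, nat_lit 1339, nat_lit 0, nat_lit 2323, nat_lit 708, nat_lit 274, nat_lit 0, nat_lit 0, nat_lit 54, nat_lit 0, nat_lit 0, nat_lit 0, nat_lit 0, nat_lit 0, nat_lit 230250, nat_lit 0, nat_lit 0, [(nat_lit 25, [(nat_lit 0, nat_lit 921)])],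
 ⟨p108_k32, nat_lit 0, nat_lit 0, nat_lit 159, nat_lit 0, nat_lit 0, [nat_lit 777746001, nat_lit 1519942800, nat_lit 2444428000], [], [nat_lit 26384999854, nat_lit 26829513127, nat_lit 27445327352, nat_lit 27865841583, nat_lit 26176718586, nat_lit 26610929284, nat_lit 27214330132, nat_lit 27625443508], nat_lit 0, nat_lit 0, nat_lit 0, nat_lit 0, nat_lit 0, nat_lit 0, [], [nat_lit 20, nat_lit 40, nat_lit 40, nat_lit 80, nat_lit 16, nat_lit 215, nat_lit 10, nat_lit 7]⟩, ⟨p108_k31, nat_lit 0, nat_lit 0, nat_lit 940, nat_lit 0, nat_lit 1404750, [nat_lit 370352000, nat_lit 629472000, nat_lit 1110582000], [], [nat_lit 3248837548, nat_lit 3247691615, nat_lit 3281058520, nat_lit 3281480717, nat_lit 2754720904, nat_lit 2752935386, nat_lit 2777168392, nat_lit 2774431878], nat_lit 1271250, nat_lit 1271250, nat_lit 1271250, nat_lit 1271250, nat_lit 0, nat_lit 1412500, [nat_lit 1100000, nat_lit 1785000, nat_lit 1271250],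 [nat_lit 37, nat_lit 40, nat_lit 40, nat_lit 80, nat_lit 28, nat_lit 428, nat_lit 200, nat_lit 9]⟩,
 ⟨nat_lit 2236, nat_lit 2739, ⟨.ofNat (nat_lit 722017), .ofNat (nat_lit 763360), .ofNat (nat_lit 733226), .ofNat (nat_lit 774569), .ofNat (nat_lit 716594), .ofNat (nat_lit 756505), .ofNat (nat_lit 727981), .ofNat (nat_lit 767892)⟩, ⟨.ofNat (nat_lit 10000), .ofNat (nat_lit 100000), .ofNat (nat_lit 10000), .ofNat (nat_lit 100000), .ofNat (nat_lit 10000), .ofNat (nat_lit 100000), .ofNat (nat_lit 10000), .ofNat (nat_lit 100000)⟩⟩, [⟨nat_lit 13, nat_lit 50, nat_lit 76, nat_lit 100, nat_lit 290696417⟩, ⟨nat_lit 3, nat_lit 100, nat_lit 64, nat_lit 46, nat_lit 148334385⟩]⟩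
noncomputable def p108_l134 : Lf2 := ⟨nat_lit 0, nat_lit 20, [nat_lit 5, nat_lit 5, nat_lit 5, nat_lit 20], false, nat_lit 0, nat_lit 40, nat_lit 0, nat_lit 200, ⟨nat_lit 167, nat_lit 833, nat_lit 0, nat_lit 8, nat_lit 310, nat_lit 833, nat_lit 20, nat_lit 0, nat_lit 0, nat_lit 0, nat_lit 0, nat_lit 0, nat_lit 41825338, nat_lit 25174662, nat_lit 0, nat_lit 3309702, true, true⟩,
 nat_lit 0, nat_lit 0, nat_lit 2455, nat_lit 0, nat_lit 2852, nat_lit 1363, nat_lit 75, nat_lit 0, nat_lit 0, nat_lit 125, nat_lit 0, nat_lit 0, nat_lit 0, nat_lit 0, nat_lit 0, nat_lit 333200, nat_lit 0, nat_lit 0, [(nat_lit 25, [(nat_lit 1, nat_lit 833)])],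
 ⟨p108_k28, nat_lit 0, nat_lit 0, nat_lit 160, nat_lit 0, nat_lit 0, [nat_lit 860364401, nat_lit 1382871067, nat_lit 1806111600], [], [nat_lit 27334046132, nat_lit 27573845718, nat_lit 29162079283, nat_lit 29380215597, nat_lit 26932008108, nat_lit 27165413534, nat_lit 28714053482, nat_lit 28926698853], nat_lit 0, nat_lit 0, nat_lit 0, nat_lit 0, nat_lit 0, nat_lit 0, [], [nat_lit 20, nat_lit 40, nat_lit 40, nat_lit 80, nat_lit 16, nat_lit 215, nat_lit 10, nat_lit 7]⟩, ⟨p108_k38, nat_lit 0, nat_lit 0, nat_lit 780, nat_lit 0, nat_lit 1059426, [nat_lit 782896000, nat_lit 1330656000, nat_lit 2347686000], [], [nat_lit 6741775654, nat_lit 6745211386, nat_lit 6859384885, nat_lit 6867400201, nat_lit 5771810572, nat_lit 5778510542, nat_lit 5899576829, nat_lit 5902454396], nat_lit 1271250, nat_lit 1271250, nat_lit 1271250, nat_lit 1271250, nat_lit 0, nat_lit 1412500, [nat_lit 1100000, nat_lit 1785000, nat_lit 1271250],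 [nat_lit 37, nat_lit 40, nat_lit 40, nat_lit 80, nat_lit 28, nat_lit 456, nat_lit 225, nat_lit 10]⟩,
 ⟨nat_lit 2958, nat_lit 3163, ⟨.ofNat (nat_lit 738246), .ofNat (nat_lit 805295), .ofNat (nat_lit 749323), .ofNat (nat_lit 816372), .ofNat (nat_lit 735754), .ofNat (nat_lit 801777), .ofNat (nat_lit 746893), .ofNat (nat_lit 812916)⟩, ⟨.ofNat (nat_lit 0), .ofNat (nat_lit 100000), .ofNat (nat_lit 0), .ofNat (nat_lit 100000), .ofNat (nat_lit 0), .ofNat (nat_lit 100000), .ofNat (nat_lit 0), .ofNat (nat_lit 100000)⟩⟩, [⟨nat_lit 13, nat_lit 61, nat_lit 65, nat_lit 100, nat_lit 207557202⟩, ⟨nat_lit 3, nat_lit 100, nat_lit 77, nat_lit 31, nat_lit 32736871⟩, ⟨nat_lit 22, nat_lit 81, nat_lit 100, nat_lit 30, nat_lit 7812649⟩]⟩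
noncomputable def p108_l135 : Lf2 := ⟨nat_lit 0, nat_lit 20, [nat_lit 5, nat_lit 5, nat_lit 5, nat_lit 20], false, nat_lit 0, nat_lit 40, nat_lit 0, nat_lit 200, ⟨nat_lit 165, nat_lit 835, nat_lit 0, nat_lit 8, nat_lit 308, nat_lit 835, nat_lit 20, nat_lit 0, nat_lit 0, nat_lit 0, nat_lit 0, nat_lit 0, nat_lit 42067850, nat_lit 24932150, nat_lit 0, nat_lit 3300375, true, true⟩,
 nat_lit 0, nat_lit 0, nat_lit 2446, nat_lit 0, nat_lit 2772, nat_lit 1358, nat_lit 210, nat_lit 0, nat_lit 0, nat_lit 124, nat_lit 0, nat_lit 0, nat_lit 0, nat_lit 0, nat_lit 0, nat_lit 208750, nat_lit 0, nat_lit 0, [(nat_lit 25, [(nat_lit 0, nat_lit 835)])],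
 ⟨p108_k37, nat_lit 0, nat_lit 0, nat_lit 161, nat_lit 0, nat_lit 0, [nat_lit 792710001, nat_lit 1684478000, nat_lit 2799780000], [], [nat_lit 27374283416, nat_lit 27611516562, nat_lit 28991914320, nat_lit 29214921044, nat_lit 26993485592, nat_lit 27224425978, nat_lit 28571003781, nat_lit 28783418508], nat_lit 0, nat_lit 0, nat_lit 0, nat_lit 0, nat_lit 0, nat_lit 0, [], [nat_lit 20, nat_lit 40, nat_lit 40, nat_lit 80, nat_lit 16, nat_lit 215, nat_lit 10, nat_lit 7]⟩, ⟨p108_k38, nat_lit 0, nat_lit 0, nat_lit 815, nat_lit 0, nat_lit 1158555, [nat_lit 773520000, nat_lit 1314720000, nat_lit 2319570000], [], [nat_lit 6605449566, nat_lit 6608642392, nat_lit 6708352007, nat_lit 6729630084, nat_lit 5641462706, nat_lit 5647909416, nat_lit 5753726848, nat_lit 5756726848], nat_lit 1271250, nat_lit 1271250, nat_lit 1271250, nat_lit 1271250, nat_lit 0, nat_lit 1412500, [nat_lit 1100000, nat_lit 1785000, nat_lit 1271250],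 [nat_lit 37, nat_lit 40, nat_lit 40, nat_lit 80, nat_lit 28, nat_lit 456, nat_lit 225, nat_lit 10]⟩,
 ⟨nat_lit 2738, nat_lit 2959, ⟨.ofNat (nat_lit 735754), .ofNat (nat_lit 795775), .ofNat (nat_lit 746893), .ofNat (nat_lit 806914), .ofNat (nat_lit 733226), .ofNat (nat_lit 792287), .ofNat (nat_lit 744435), .ofNat (nat_lit 803496)⟩, ⟨.ofNat (nat_lit 0), .ofNat (nat_lit 100000), .ofNat (nat_lit 0), .ofNat (nat_lit 100000), .ofNat (nat_lit 0), .ofNat (nat_lit 100000), .ofNat (nat_lit 0), .ofNat (nat_lit 100000)⟩⟩, [⟨nat_lit 13, nat_lit 57, nat_lit 68, nat_lit 100, nat_lit 220147136⟩, ⟨nat_lit 3, nat_lit 100, nat_lit 72, nat_lit 37, nat_lit 31508744⟩, ⟨nat_lit 22, nat_lit 82, nat_lit 100, nat_lit 29, nat_lit 7700281⟩]⟩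
noncomputable def p108_l136 : Lf2 := ⟨nat_lit 0, nat_lit 20, [nat_lit 5, nat_lit 5, nat_lit 5, nat_lit 20], false, nat_lit 4, nat_lit 40, nat_lit 0, nat_lit 200, ⟨nat_lit 93, nat_lit 907, nat_lit 0, nat_lit 8, nat_lit 304, nat_lit 907, nat_lit 22, nat_lit 0, nat_lit 0, nat_lit 0, nat_lit 0, nat_lit 0, nat_lit 42123207, nat_lit 24451992, nat_lit 424801, nat_lit 3506800, true, true⟩,
 nat_lit 0, nat_lit 0, nat_lit 1395, nat_lit 0, nat_lit 2340, nat_lit 775, nat_lit 279, nat_lit 0, nat_lit 0, nat_lit 67, nat_lit 0, nat_lit 0, nat_lit 0, nat_lit 0, nat_lit 0, nat_lit 226750, nat_lit 0, nat_lit 0, [(nat_lit 25, [(nat_lit 0, nat_lit 907)])],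
 ⟨p108_k32, nat_lit 0, nat_lit 0, nat_lit 158, nat_lit 0, nat_lit 0, [nat_lit 780182001, nat_lit 1546727601, nat_lit 2502276000], [], [nat_lit 26397219305, nat_lit 26620019156, nat_lit 27611433636, nat_lit 27821024384, nat_lit 26183633573, nat_lit 26401262743, nat_lit 27371798253, nat_lit 27577135123], nat_lit 0, nat_lit 0, nat_lit 0, nat_lit 0, nat_lit 0, nat_lit 0, [], [nat_lit 20, nat_lit 40, nat_lit 40, nat_lit 80, nat_lit 16, nat_lit 215, nat_lit 10, nat_lit 7]⟩, ⟨p108_k38, nat_lit 0, nat_lit 0, nat_lit 864, nat_lit 0, nat_lit 1259760, [nat_lit 435984000, nat_lit 741024000, nat_lit 1307394000], [], [nat_lit 3722084702, nat_lit 3723713566, nat_lit 3768393222, nat_lit 3783756625, nat_lit 3143326777, nat_lit 3145072494, nat_lit 3192174465, nat_lit 3194091654], nat_lit 1271250, nat_lit 1271250, nat_lit 1271250, nat_lit 1271250, nat_lit 0, nat_lit 1412500, [nat_lit 1100000, nat_lit 1785000, nat_lit 1271250],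 [nat_lit 37, nat_lit 40, nat_lit 40, nat_lit 80, nat_lit 28, nat_lit 456, nat_lit 225, nat_lit 10]⟩,
 ⟨nat_lit 2500, nat_lit 2739, ⟨.ofNat (nat_lit 733226), .ofNat (nat_lit 780475), .ofNat (nat_lit 744435), .ofNat (nat_lit 791684), .ofNat (nat_lit 730644), .ofNat (nat_lit 777095), .ofNat (nat_lit 741934), .ofNat (nat_lit 788386)⟩, ⟨.ofNat (nat_lit 10000), .ofNat (nat_lit 100000), .ofNat (nat_lit 10000), .ofNat (nat_lit 100000), .ofNat (nat_lit 10000), .ofNat (nat_lit 100000), .ofNat (nat_lit 10000), .ofNat (nat_lit 100000)⟩⟩, [⟨nat_lit 13, nat_lit 53, nat_lit 72, nat_lit 100, nat_lit 269006101⟩, ⟨nat_lit 3, nat_lit 100, nat_lit 67, nat_lit 43, nat_lit 138478882⟩, ⟨nat_lit 22, nat_lit 85, nat_lit 100, nat_lit 26, nat_lit 164902⟩]⟩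
noncomputable def p108_l137 : Lf2 := ⟨nat_lit 0, nat_lit 20, [nat_lit 5, nat_lit 5, nat_lit 5, nat_lit 20], false, nat_lit 8, nat_lit 40, nat_lit 0, nat_lit 200, ⟨nat_lit 91, nat_lit 909, nat_lit 0, nat_lit 8, nat_lit 302, nat_lit 909, nat_lit 24, nat_lit 0, nat_lit 0, nat_lit 0, nat_lit 0, nat_lit 0, nat_lit 42317007, nat_lit 24197579, nat_lit 485414, nat_lit 3522252, true, true⟩,
 nat_lit 0, nat_lit 0, nat_lit 1382, nat_lit 0, nat_lit 2262, nat_lit 767, nat_lit 260, nat_lit 0, nat_lit 0, nat_lit 59, nat_lit 0, nat_lit 0, nat_lit 0, nat_lit 0, nat_lit 0, nat_lit 227250, nat_lit 0, nat_lit 0, [(nat_lit 25, [(nat_lit 0, nat_lit 909)])],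
 ⟨p108_k33, nat_lit 0, nat_lit 0, nat_lit 157, nat_lit 0, nat_lit 0, [nat_lit 779834001, nat_lit 1542901200, nat_lit 2494012000], [], [nat_lit 26379174014, nat_lit 26598916838, nat_lit 27417687425, nat_lit 27627212432, nat_lit 26206436854, nat_lit 26421662610, nat_lit 27225399294, nat_lit 27435043604], nat_lit 0, nat_lit 0, nat_lit 0, nat_lit 0, nat_lit 0, nat_lit 0, [], [nat_lit 20, nat_lit 40, nat_lit 40, nat_lit 80, nat_lit 16, nat_lit 215, nat_lit 10, nat_lit 7]⟩, ⟨p108_k38, nat_lit 0, nat_lit 0, nat_lit 922, nat_lit 0, nat_lit 1363142, [nat_lit 426608000, nat_lit 725088000, nat_lit 1279278000], [], [nat_lit 3756480942, nat_lit 3753945942, nat_lit 3779430196, nat_lit 3775860198, nat_lit 3191857591, nat_lit 3187009455, nat_lit 3211086793, nat_lit 3208925477], nat_lit 1271250, nat_lit 1271250, nat_lit 1271250, nat_lit 1271250, nat_lit 0, nat_lit 1412500, [nat_lit 1100000, nat_lit 1785000, nat_lit 1271250],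 [nat_lit 37, nat_lit 40, nat_lit 40, nat_lit 80, nat_lit 28, nat_lit 456, nat_lit 225, nat_lit 10]⟩,
 ⟨nat_lit 2236, nat_lit 2500, ⟨.ofNat (nat_lit 730644), .ofNat (nat_lit 771289), .ofNat (nat_lit 741934), .ofNat (nat_lit 782579), .ofNat (nat_lit 727981), .ofNat (nat_lit 767892), .ofNat (nat_lit 739368), .ofNat (nat_lit 779279)⟩, ⟨.ofNat (nat_lit 20000), .ofNat (nat_lit 100000), .ofNat (nat_lit 20000), .ofNat (nat_lit 100000), .ofNat (nat_lit 20000), .ofNat (nat_lit 100000), .ofNat (nat_lit 20000), .ofNat (nat_lit 100000)⟩⟩, [⟨nat_lit 13, nat_lit 48, nat_lit 76, nat_lit 100, nat_lit 288769228⟩, ⟨nat_lit 3, nat_lit 100, nat_lit 61, nat_lit 49, nat_lit 135211587⟩]⟩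
noncomputable def p108_l138 : Lf2 := ⟨nat_lit 0, nat_lit 20, [nat_lit 5, nat_lit 5, nat_lit 5, nat_lit 20], false, nat_lit 40, nat_lit 80, nat_lit 0, nat_lit 260, ⟨nat_lit 71, nat_lit 929, nat_lit 0, nat_lit 8, nat_lit 307, nat_lit 929, nat_lit 51, nat_lit 0, nat_lit 0, nat_lit 0, nat_lit 0, nat_lit 0, nat_lit 41062614, nat_lit 24456148, nat_lit 1481238, nat_lit 3885243, true, true⟩,
 nat_lit 0, nat_lit 0, nat_lit 1204, nat_lit 0, nat_lit 2750, nat_lit 637, nat_lit 0, nat_lit 0, nat_lit 0, nat_lit 40, nat_lit 0, nat_lit 0, nat_lit 0, nat_lit 0, nat_lit 0, nat_lit 408800, nat_lit 0, nat_lit 0, [(nat_lit 25, [(nat_lit 1, nat_lit 867), (nat_lit 2, nat_lit 62)])],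
 ⟨p108_k28, nat_lit 0, nat_lit 0, nat_lit 140, nat_lit 0, nat_lit 0, [nat_lit 890080401, nat_lit 1078253734, nat_lit 995502800], [], [nat_lit 26386050935, nat_lit 26856494185, nat_lit 28182208685, nat_lit 28611330365, nat_lit 25965678935, nat_lit 26423631185, nat_lit 27717193535, nat_lit 28134914510], nat_lit 0, nat_lit 0, nat_lit 0, nat_lit 0, nat_lit 0, nat_lit 0, [], [nat_lit 20, nat_lit 40, nat_lit 40, nat_lit 80, nat_lit 16, nat_lit 226, nat_lit 20, nat_lit 7]⟩, ⟨p108_k31, nat_lit 0, nat_lit 0, nat_lit 1008, nat_lit 0, nat_lit 1589299, [nat_lit 332848000, nat_lit 565728000, nat_lit 998118000], [], [nat_lit 3046713180, nat_lit 3036095184, nat_lit 3099030779, nat_lit 3139406982, nat_lit 2517702664, nat_lit 2505205229, nat_lit 2525243407, nat_lit 2513634558], nat_lit 1271250, nat_lit 1271250, nat_lit 1271250, nat_lit 1271250, nat_lit 0, nat_lit 1836250, [nat_lit 1100000, nat_lit 1785000, nat_lit 1271250],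 [nat_lit 37, nat_lit 40, nat_lit 40, nat_lit 80, nat_lit 28, nat_lit 456, nat_lit 225, nat_lit 10]⟩,
 ⟨nat_lit 2738, nat_lit 3163, ⟨.ofNat (nat_lit 727168), .ofNat (nat_lit 794217), .ofNat (nat_lit 749323), .ofNat (nat_lit 816372), .ofNat (nat_lit 722017), .ofNat (nat_lit 786985), .ofNat (nat_lit 744435), .ofNat (nat_lit 809402)⟩, ⟨.ofNat (nat_lit 78946), .ofNat (nat_lit 139899), .ofNat (nat_lit 100000), .ofNat (nat_lit 184209), .ofNat (nat_lit 84414), .ofNat (nat_lit 143475), .ofNat (nat_lit 100000), .ofNat (nat_lit 188310)⟩⟩, [⟨nat_lit 13, nat_lit 58, nat_lit 68, nat_lit 100, nat_lit 268005924⟩, ⟨nat_lit 22, nat_lit 70, nat_lit 100, nat_lit 71, nat_lit 226012⟩]⟩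
noncomputable def p108_l139 : Lf2 := ⟨nat_lit 0, nat_lit 20, [nat_lit 5, nat_lit 5, nat_lit 5, nat_lit 20], false, nat_lit 40, nat_lit 80, nat_lit 0, nat_lit 260, ⟨nat_lit 68, nat_lit 932, nat_lit 0, nat_lit 8, nat_lit 302, nat_lit 932, nat_lit 52, nat_lit 0, nat_lit 0, nat_lit 0, nat_lit 0, nat_lit 0, nat_lit 41601325, nat_lit 23848519, nat_lit 1550156, nat_lit 3881572, true, true⟩,
 nat_lit 0, nat_lit 0, nat_lit 1182, nat_lit 0, nat_lit 2449, nat_lit 625, nat_lit 242, nat_lit 0, nat_lit 0, nat_lit 35, nat_lit 0, nat_lit 0, nat_lit 0, nat_lit 0, nat_lit 0, nat_lit 233000, nat_lit 0, nat_lit 0, [(nat_lit 25, [(nat_lit 0, nat_lit 932)])],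
 ⟨p108_k32, nat_lit 0, nat_lit 0, nat_lit 140, nat_lit 0, nat_lit 0, [nat_lit 775832001, nat_lit 1498897600, nat_lit 2398976000], [], [nat_lit 26052906518, nat_lit 26504250415, nat_lit 27278673539, nat_lit 27701681160, nat_lit 25729676748, nat_lit 26169282747, nat_lit 26926204642, nat_lit 27386595886], nat_lit 0, nat_lit 0, nat_lit 0, nat_lit 0, nat_lit 0, nat_lit 0, [], [nat_lit 20, nat_lit 40, nat_lit 40, nat_lit 80, nat_lit 16, nat_lit 226, nat_lit 20, nat_lit 7]⟩, ⟨p108_k31, nat_lit 0, nat_lit 0, nat_lit 1123, nat_lit 0, nat_lit 1818075, [nat_lit 318784000, nat_lit 541824000, nat_lit 955944000], [], [nat_lit 2882537680, nat_lit 2867860608, nat_lit 2953398793, nat_lit 2995321895, nat_lit 2359512663, nat_lit 2341403184, nat_lit 2368813591, nat_lit 2393038338], nat_lit 1271250, nat_lit 1271250, nat_lit 1271250, nat_lit 1271250, nat_lit 0, nat_lit 1836250, [nat_lit 1100000, nat_lit 1785000, nat_lit 1271250],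 [nat_lit 37, nat_lit 40, nat_lit 40, nat_lit 80, nat_lit 28, nat_lit 456, nat_lit 225, nat_lit 10]⟩,
 ⟨nat_lit 2236, nat_lit 2739, ⟨.ofNat (nat_lit 722017), .ofNat (nat_lit 769266), .ofNat (nat_lit 744435), .ofNat (nat_lit 791684), .ofNat (nat_lit 716594), .ofNat (nat_lit 762206), .ofNat (nat_lit 739368), .ofNat (nat_lit 784980)⟩, ⟨.ofNat (nat_lit 84414), .ofNat (nat_lit 143475), .ofNat (nat_lit 100000), .ofNat (nat_lit 188310), .ofNat (nat_lit 89742), .ofNat (nat_lit 146758), .ofNat (nat_lit 100000), .ofNat (nat_lit 192306)⟩⟩, [⟨nat_lit 13, nat_lit 50, nat_lit 75, nat_lit 100, nat_lit 319326631⟩]⟩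
noncomputable def b_V_900_600_10_6 : St := ⟨true, nat_lit 0, nat_lit 1, nat_lit 1, nat_lit 80, nat_lit 360, nat_lit 380, nat_lit 240, nat_lit 260, nat_lit 320, nat_lit 376, nat_lit 40, nat_lit 80, nat_lit 0, nat_lit 80, nat_lit 0, nat_lit 260, nat_lit 40, nat_lit 80, nat_lit 0, nat_lit 0, nat_lit 0, nat_lit 0⟩
theorem d_V_900_600_10_6 (h : EB TB.env) : Dead b_V_900_600_10_6 := chkB_sound0 h (T :=
(.trX (nat_lit 13) (nat_lit 63) (nat_lit 61) (nat_lit 100) (nat_lit 364) (.spl (nat_lit 4) (nat_lit 40)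
(.trX (nat_lit 22) (nat_lit 80) (nat_lit 100) (nat_lit 60) (nat_lit 200) (.spl (nat_lit 3) (nat_lit 60)
(.spl (nat_lit 0) (nat_lit 370)
(.leaf p108_l129)
(.trX (nat_lit 13) (nat_lit 55) (nat_lit 68) (nat_lit 100) (nat_lit 352) (.leaf p108_l130)))
(.spl (nat_lit 1) (nat_lit 250)
(.trX (nat_lit 13) (nat_lit 62) (nat_lit 65) (nat_lit 100) (nat_lit 360) (.spl (nat_lit 0) (nat_lit 370)
(.spl (nat_lit 0) (nat_lit 365)
(.leaf p108_l131)
(.trX (nat_lit 13) (nat_lit 58) (nat_lit 68) (nat_lit 100) (nat_lit 352) (.leaf p108_l132)))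
(.trX (nat_lit 13) (nat_lit 54) (nat_lit 71) (nat_lit 100) (nat_lit 348) (.trZ (nat_lit 3) (nat_lit 100) (nat_lit 74) (nat_lit 33) (nat_lit 4) (.leaf p108_l133)))))
(.spl (nat_lit 0) (nat_lit 370)
(.spl (nat_lit 0) (nat_lit 365)
(.leaf p108_l134)
(.trX (nat_lit 13) (nat_lit 59) (nat_lit 65) (nat_lit 100) (nat_lit 360) (.leaf p108_l135)))
(.trX (nat_lit 13) (nat_lit 55) (nat_lit 68) (nat_lit 100) (nat_lit 352) (.trZ (nat_lit 3) (nat_lit 100) (nat_lit 74) (nat_lit 33) (nat_lit 4) (.spl (nat_lit 0) (nat_lit 375)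
(.leaf p108_l136)
(.trX (nat_lit 13) (nat_lit 51) (nat_lit 72) (nat_lit 100) (nat_lit 348) (.trZ (nat_lit 3) (nat_lit 100) (nat_lit 68) (nat_lit 40) (nat_lit 8) (.leaf p108_l137))))))))))
(.spl (nat_lit 0) (nat_lit 370)
(.leaf p108_l138)
(.trX (nat_lit 13) (nat_lit 55) (nat_lit 68) (nat_lit 100) (nat_lit 352) (.leaf p108_l139)))))) (by decide +kernel)
noncomputable def p108_l140 : Lf2 := ⟨nat_lit 0, nat_lit 15, [nat_lit 30, nat_lit 5, nat_lit 5, nat_lit 20], false, nat_lit 0, nat_lit 40, nat_lit 0, nat_lit 200, ⟨nat_lit 109, nat_lit 891, nat_lit 0, nat_lit 8, nat_lit 317, nat_lit 891, nat_lit 18, nat_lit 0, nat_lit 0, nat_lit 0, nat_lit 0, nat_lit 0, nat_lit 41195242, nat_lit 25804758, nat_lit 0, nat_lit 3332634, true, true⟩,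
 nat_lit 0, nat_lit 0, nat_lit 1475, nat_lit 0, nat_lit 2748, nat_lit 858, nat_lit 43, nat_lit 0, nat_lit 0, nat_lit 118, nat_lit 0, nat_lit 0, nat_lit 0, nat_lit 0, nat_lit 0, nat_lit 356400, nat_lit 0, nat_lit 0, [(nat_lit 25, [(nat_lit 1, nat_lit 891)])],
 ⟨p108_k34, nat_lit 0, nat_lit 0, nat_lit 170, nat_lit 0, nat_lit 0, [nat_lit 854958801, nat_lit 1250638800, nat_lit 1496693200], [], [nat_lit 27257194089, nat_lit 27730120517, nat_lit 29411043502, nat_lit 29834104451, nat_lit 26890948913, nat_lit 27351350661, nat_lit 28990957369, nat_lit 29403565650], nat_lit 0, nat_lit 0, nat_lit 0, nat_lit 0, nat_lit 0, nat_lit 0, [], [nat_lit 20, nat_lit 40, nat_lit 40, nat_lit 80, nat_lit 16, nat_lit 215, nat_lit 10, nat_lit 7]⟩, ⟨p108_k39, nat_lit 0, nat_lit 0, nat_lit 876, nat_lit 0, nat_lit 1420568, [nat_lit 510992000, nat_lit 868512000, nat_lit 1294048000], [], [nat_lit 3763570490, nat_lit 3781234041, nat_lit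 3957918765, nat_lit 3970776773, nat_lit 3221046271, nat_lit 3220788758, nat_lit 3347898089, nat_lit 3355542548], nat_lit 1271250, nat_lit 1271250, nat_lit 1271250, nat_lit 1271250, nat_lit 0, nat_lit 1412500, [nat_lit 1100000, nat_lit 1785000, nat_lit 1271250], [nat_lit 21, nat_lit 40, nat_lit 40, nat_lit 80, nat_lit 14, nat_lit 345, nat_lit 125, nat_lit 8]⟩,
 ⟨nat_lit 2738, nat_lit 3163, ⟨.ofNat (nat_lit 749323), .ofNat (nat_lit 828563), .ofNat (nat_lit 760401), .ofNat (nat_lit 839640), .ofNat (nat_lit 744435), .ofNat (nat_lit 821214), .ofNat (nat_lit 755643), .ofNat (nat_lit 832423)⟩, ⟨.ofNat (nat_lit 0), .ofNat (nat_lit 78946), .ofNat (nat_lit 0), .ofNat (nat_lit 100000), .ofNat (nat_lit 0), .ofNat (nat_lit 84414), .ofNat (nat_lit 0), .ofNat (nat_lit 100000)⟩⟩, [⟨nat_lit 13, nat_lit 55, nat_lit 68, nat_lit 100, nat_lit 273462648⟩, ⟨nat_lit 3, nat_lit 100, nat_lit 79, nat_lit 27, nat_lit 16398679⟩, ⟨nat_lit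 22, nat_lit 79, nat_lit 100, nat_lit 34, nat_lit 5875331⟩]⟩
noncomputable def p108_l141 : Lf2 := ⟨nat_lit 0, nat_lit 15, [nat_lit 30, nat_lit 5, nat_lit 5, nat_lit 20], true, nat_lit 0, nat_lit 40, nat_lit 0, nat_lit 200, ⟨nat_lit 0, nat_lit 1000, nat_lit 0, nat_lit 8, nat_lit 311, nat_lit 1000, nat_lit 19, nat_lit 0, nat_lit 0, nat_lit 0, nat_lit 0, nat_lit 0, nat_lit 41795057, nat_lit 25204943, nat_lit 0, nat_lit 3310847, true, true⟩,
 nat_lit 0, nat_lit 0, nat_lit 0, nat_lit 0, nat_lit 2404, nat_lit 0, nat_lit 156, nat_lit 0, nat_lit 0, nat_lit 0, nat_lit 0, nat_lit 0, nat_lit 0, nat_lit 0, nat_lit 0, nat_lit 250000, nat_lit 0, nat_lit 0, [(nat_lit 25, [(nat_lit 0, nat_lit 1000)])],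
 ⟨p108_k36, nat_lit 0, nat_lit 0, nat_lit 160, nat_lit 0, nat_lit 0, [nat_lit 764000001, nat_lit 1368800000, nat_lit 1715600000], [], [nat_lit 26577706150, nat_lit 27052729490, nat_lit 28193030308, nat_lit 28749479528, nat_lit 26324927356, nat_lit 26787445454, nat_lit 27902578023, nat_lit 28359956081], nat_lit 0, nat_lit 0, nat_lit 0, nat_lit 0, nat_lit 0, nat_lit 0, [], [nat_lit 35, nat_lit 40, nat_lit 40, nat_lit 80, nat_lit 22, nat_lit 215, nat_lit 10, nat_lit 8]⟩, C1.Rw.none,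
 ⟨nat_lit 2236, nat_lit 2739, ⟨.ofNat (nat_lit 744435), .ofNat (nat_lit 803496), .ofNat (nat_lit 755643), .ofNat (nat_lit 814705), .ofNat (nat_lit 739368), .ofNat (nat_lit 796384), .ofNat (nat_lit 750755), .ofNat (nat_lit 807771)⟩, ⟨.ofNat (nat_lit 0), .ofNat (nat_lit 84414), .ofNat (nat_lit 0), .ofNat (nat_lit 100000), .ofNat (nat_lit 0), .ofNat (nat_lit 89742), .ofNat (nat_lit 0), .ofNat (nat_lit 100000)⟩⟩, [⟨nat_lit 13, nat_lit 56, nat_lit 65, nat_lit 100, nat_lit 313359721⟩, ⟨nat_lit 3, nat_lit 100, nat_lit 68, nat_lit 40, nat_lit 53002528⟩]⟩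
noncomputable def p108_l142 : Lf2 := ⟨nat_lit 0, nat_lit 15, [nat_lit 30, nat_lit 5, nat_lit 5, nat_lit 20], false, nat_lit 0, nat_lit 40, nat_lit 0, nat_lit 200, ⟨nat_lit 128, nat_lit 872, nat_lit 0, nat_lit 8, nat_lit 322, nat_lit 872, nat_lit 18, nat_lit 0, nat_lit 0, nat_lit 0, nat_lit 0, nat_lit 0, nat_lit 40630953, nat_lit 26369047, nat_lit 0, nat_lit 3351585, true, true⟩,
 nat_lit 0, nat_lit 0, nat_lit 1518, nat_lit 0, nat_lit 2760, nat_lit 924, nat_lit 48, nat_lit 0, nat_lit 0, nat_lit 131, nat_lit 0, nat_lit 0, nat_lit 0, nat_lit 0, nat_lit 0, nat_lit 348800, nat_lit 0, nat_lit 0, [(nat_lit 25, [(nat_lit 1, nat_lit 872)])],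
 ⟨p108_k34, nat_lit 0, nat_lit 0, nat_lit 173, nat_lit 0, nat_lit 0, [nat_lit 856729601, nat_lit 1293956267, nat_lit 1598054400], [], [nat_lit 27351617309, nat_lit 27825313669, nat_lit 29682562238, nat_lit 30102425950, nat_lit 26981242189, nat_lit 27442383449, nat_lit 29253845341, nat_lit 29663388726], nat_lit 0, nat_lit 0, nat_lit 0, nat_lit 0, nat_lit 0, nat_lit 0, [], [nat_lit 20, nat_lit 40, nat_lit 40, nat_lit 80, nat_lit 16, nat_lit 215, nat_lit 10, nat_lit 7]⟩, ⟨p108_k40, nat_lit 0, nat_lit 0, nat_lit 863, nat_lit 0, nat_lit 1393612, [nat_lit 600064000, nat_lit 1019904000, nat_lit 1519616000], [], [nat_lit 4492176368, nat_lit 4500367348, nat_lit 4616641882, nat_lit 4621554910, nat_lit 3987097720, nat_lit 3990786788, nat_lit 4077139934, nat_lit 4078162905], nat_lit 1271250, nat_lit 1271250, nat_lit 1271250, nat_lit 1271250, nat_lit 0, nat_lit 1412500, [nat_lit 1100000, nat_lit 1785000, nat_lit 1271250],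 [nat_lit 21, nat_lit 40, nat_lit 40, nat_lit 80, nat_lit 14, nat_lit 345, nat_lit 125, nat_lit 8]⟩,
 ⟨nat_lit 2738, nat_lit 3163, ⟨.ofNat (nat_lit 760401), .ofNat (nat_lit 845735), .ofNat (nat_lit 771478), .ofNat (nat_lit 856813), .ofNat (nat_lit 755643), .ofNat (nat_lit 838329), .ofNat (nat_lit 766852), .ofNat (nat_lit 849538)⟩, ⟨.ofNat (nat_lit 0), .ofNat (nat_lit 78946), .ofNat (nat_lit 0), .ofNat (nat_lit 100000), .ofNat (nat_lit 0), .ofNat (nat_lit 84414), .ofNat (nat_lit 0), .ofNat (nat_lit 100000)⟩⟩, [⟨nat_lit 13, nat_lit 56, nat_lit 65, nat_lit 100, nat_lit 232908625⟩, ⟨nat_lit 22, nat_lit 78, nat_lit 100, nat_lit 35, nat_lit 23217172⟩]⟩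
noncomputable def p108_l143 : Lf2 := ⟨nat_lit 0, nat_lit 15, [nat_lit 30, nat_lit 5, nat_lit 5, nat_lit 20], false, nat_lit 0, nat_lit 40, nat_lit 0, nat_lit 200, ⟨nat_lit 119, nat_lit 881, nat_lit 0, nat_lit 8, nat_lit 317, nat_lit 881, nat_lit 19, nat_lit 0, nat_lit 0, nat_lit 0, nat_lit 0, nat_lit 0, nat_lit 41106462, nat_lit 25893538, nat_lit 0, nat_lit 3335715, true, true⟩,
 nat_lit 0, nat_lit 0, nat_lit 1445, nat_lit 0, nat_lit 2793, nat_lit 880, nat_lit 47, nat_lit 0, nat_lit 0, nat_lit 125, nat_lit 0, nat_lit 0, nat_lit 0, nat_lit 0, nat_lit 0, nat_lit 220250, nat_lit 0, nat_lit 0, [(nat_lit 25, [(nat_lit 0, nat_lit 881)])],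
 ⟨p108_k36, nat_lit 0, nat_lit 0, nat_lit 163, nat_lit 0, nat_lit 0, [nat_lit 784706000, nat_lit 1596470801, nat_lit 2069315600], [], [nat_lit 27855018161, nat_lit 28346356583, nat_lit 29865411478, nat_lit 30309650744, nat_lit 27515228210, nat_lit 27993032729, nat_lit 29474022246, nat_lit 29905605667], nat_lit 0, nat_lit 0, nat_lit 0, nat_lit 0, nat_lit 0, nat_lit 0, [], [nat_lit 35, nat_lit 40, nat_lit 40, nat_lit 80, nat_lit 22, nat_lit 215, nat_lit 10, nat_lit 8]⟩, ⟨p108_k40, nat_lit 0, nat_lit 0, nat_lit 937, nat_lit 0, nat_lit 1566120, [nat_lit 557872000, nat_lit 948192000, nat_lit 1412768000], [], [nat_lit 4113073390, nat_lit 4117363884, nat_lit 4189427365, nat_lit 4204856122, nat_lit 3627125876, nat_lit 3627728226, nat_lit 3679514015, nat_lit 3678257978], nat_lit 1271250, nat_lit 1271250, nat_lit 1271250, nat_lit 1271250, nat_lit 0, nat_lit 1412500, [nat_lit 1100000, nat_lit 1785000, nat_lit 1271250],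 [nat_lit 21, nat_lit 40, nat_lit 40, nat_lit 80, nat_lit 14, nat_lit 345, nat_lit 125, nat_lit 8]⟩,
 ⟨nat_lit 2236, nat_lit 2739, ⟨.ofNat (nat_lit 755643), .ofNat (nat_lit 826517), .ofNat (nat_lit 766852), .ofNat (nat_lit 837726), .ofNat (nat_lit 750755), .ofNat (nat_lit 819174), .ofNat (nat_lit 762142), .ofNat (nat_lit 830561)⟩, ⟨.ofNat (nat_lit 0), .ofNat (nat_lit 84414), .ofNat (nat_lit 0), .ofNat (nat_lit 100000), .ofNat (nat_lit 0), .ofNat (nat_lit 89742), .ofNat (nat_lit 0), .ofNat (nat_lit 100000)⟩⟩, [⟨nat_lit 13, nat_lit 47, nat_lit 74, nat_lit 100, nat_lit 304745450⟩, ⟨nat_lit 3, nat_lit 100, nat_lit 54, nat_lit 57, nat_lit 12286422⟩, ⟨nat_lit 22, nat_lit 74, nat_lit 100, nat_lit 46, nat_lit 17018723⟩]⟩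
noncomputable def p108_l144 : Lf2 := ⟨nat_lit 0, nat_lit 15, [nat_lit 30, nat_lit 5, nat_lit 5, nat_lit 20], false, nat_lit 0, nat_lit 40, nat_lit 0, nat_lit 200, ⟨nat_lit 116, nat_lit 884, nat_lit 0, nat_lit 8, nat_lit 317, nat_lit 842, nat_lit 18, nat_lit 0, nat_lit 0, nat_lit 0, nat_lit 0, nat_lit 0, nat_lit 41195242, nat_lit 25804758, nat_lit 0, nat_lit 3332634, true, true⟩,
 nat_lit 0, nat_lit 0, nat_lit 1589, nat_lit 0, nat_lit 2564, nat_lit 924, nat_lit 135, nat_lit 0, nat_lit 0, nat_lit 122, nat_lit 0, nat_lit 0, nat_lit 0, nat_lit 0, nat_lit 0, nat_lit 353600, nat_lit 0, nat_lit 0, [(nat_lit 25, [(nat_lit 1, nat_lit 884)])],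
 ⟨p108_k34, nat_lit 0, nat_lit 0, nat_lit 170, nat_lit 0, nat_lit 0, [nat_lit 855611201, nat_lit 1266597867, nat_lit 1534036800], [], [nat_lit 26825719975, nat_lit 27252551575, nat_lit 28895154351, nat_lit 29308663326, nat_lit 26484963992, nat_lit 26934026556, nat_lit 28540270126, nat_lit 28943696246], nat_lit 0, nat_lit 0, nat_lit 0, nat_lit 0, nat_lit 0, nat_lit 0, [], [nat_lit 20, nat_lit 40, nat_lit 40, nat_lit 80, nat_lit 16, nat_lit 215, nat_lit 10, nat_lit 7]⟩, ⟨p108_k39, nat_lit 0, nat_lit 0, nat_lit 736, nat_lit 0, nat_lit 1113960, [nat_lit 543808000, nat_lit 924288000, nat_lit 1377152000], [], [nat_lit 4099522088, nat_lit 4109567180, nat_lit 4243004770, nat_lit 4249209465, nat_lit 3484733816, nat_lit 3489735376, nat_lit 3589966482, nat_lit 3591877846], nat_lit 1271250, nat_lit 1271250, nat_lit 1271250, nat_lit 1271250, nat_lit 0, nat_lit 1412500, [nat_lit 1100000, nat_lit 1785000, nat_lit 1271250],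 [nat_lit 21, nat_lit 40, nat_lit 40, nat_lit 80, nat_lit 14, nat_lit 345, nat_lit 125, nat_lit 8]⟩,
 ⟨nat_lit 2738, nat_lit 3163, ⟨.ofNat (nat_lit 749323), .ofNat (nat_lit 828563), .ofNat (nat_lit 760401), .ofNat (nat_lit 839640), .ofNat (nat_lit 744435), .ofNat (nat_lit 821214), .ofNat (nat_lit 755643), .ofNat (nat_lit 832423)⟩, ⟨.ofNat (nat_lit 0), .ofNat (nat_lit 78946), .ofNat (nat_lit 0), .ofNat (nat_lit 100000), .ofNat (nat_lit 0), .ofNat (nat_lit 84414), .ofNat (nat_lit 0), .ofNat (nat_lit 100000)⟩⟩, [⟨nat_lit 13, nat_lit 55, nat_lit 68, nat_lit 100, nat_lit 253458807⟩, ⟨nat_lit 22, nat_lit 79, nat_lit 100, nat_lit 34, nat_lit 6063090⟩]⟩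
noncomputable def p108_l145 : Lf2 := ⟨nat_lit 0, nat_lit 15, [nat_lit 30, nat_lit 5, nat_lit 5, nat_lit 20], true, nat_lit 0, nat_lit 40, nat_lit 0, nat_lit 200, ⟨nat_lit 0, nat_lit 1000, nat_lit 0, nat_lit 8, nat_lit 311, nat_lit 1000, nat_lit 19, nat_lit 0, nat_lit 0, nat_lit 0, nat_lit 0, nat_lit 0, nat_lit 41795057, nat_lit 25204943, nat_lit 0, nat_lit 3310847, true, true⟩,
 nat_lit 0, nat_lit 0, nat_lit 0, nat_lit 0, nat_lit 2696, nat_lit 0, nat_lit 32, nat_lit 0, nat_lit 0, nat_lit 0, nat_lit 0, nat_lit 0, nat_lit 0, nat_lit 0, nat_lit 0, nat_lit 250000, nat_lit 0, nat_lit 0, [(nat_lit 25, [(nat_lit 0, nat_lit 1000)])],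
 ⟨p108_k36, nat_lit 0, nat_lit 0, nat_lit 160, nat_lit 0, nat_lit 0, [nat_lit 764000001, nat_lit 1368800000, nat_lit 1715600000], [], [nat_lit 27328904554, nat_lit 27824465714, nat_lit 29003878392, nat_lit 29585382672, nat_lit 26974407998, nat_lit 27456657850, nat_lit 28604420166, nat_lit 29047511578], nat_lit 0, nat_lit 0, nat_lit 0, nat_lit 0, nat_lit 0, nat_lit 0, [], [nat_lit 35, nat_lit 40, nat_lit 40, nat_lit 80, nat_lit 22, nat_lit 215, nat_lit 10, nat_lit 8]⟩, C1.Rw.none,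
 ⟨nat_lit 2236, nat_lit 2739, ⟨.ofNat (nat_lit 744435), .ofNat (nat_lit 803496), .ofNat (nat_lit 755643), .ofNat (nat_lit 814705), .ofNat (nat_lit 739368), .ofNat (nat_lit 796384), .ofNat (nat_lit 750755), .ofNat (nat_lit 807771)⟩, ⟨.ofNat (nat_lit 0), .ofNat (nat_lit 84414), .ofNat (nat_lit 0), .ofNat (nat_lit 100000), .ofNat (nat_lit 0), .ofNat (nat_lit 89742), .ofNat (nat_lit 0), .ofNat (nat_lit 100000)⟩⟩, [⟨nat_lit 13, nat_lit 56, nat_lit 65, nat_lit 100, nat_lit 325738452⟩, ⟨nat_lit 3, nat_lit 100, nat_lit 73, nat_lit 33, nat_lit 67154910⟩]⟩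
noncomputable def p108_l146 : Lf2 := ⟨nat_lit 0, nat_lit 15, [nat_lit 30, nat_lit 5, nat_lit 5, nat_lit 20], false, nat_lit 0, nat_lit 40, nat_lit 0, nat_lit 200, ⟨nat_lit 145, nat_lit 855, nat_lit 0, nat_lit 8, nat_lit 322, nat_lit 855, nat_lit 18, nat_lit 0, nat_lit 0, nat_lit 0, nat_lit 0, nat_lit 0, nat_lit 40630953, nat_lit 26369047, nat_lit 0, nat_lit 3351585, true, true⟩,
 nat_lit 0, nat_lit 0, nat_lit 1690, nat_lit 0, nat_lit 2598, nat_lit 1029, nat_lit 141, nat_lit 0, nat_lit 0, nat_lit 154, nat_lit 0, nat_lit 0, nat_lit 0, nat_lit 0, nat_lit 0, nat_lit 342000, nat_lit 0, nat_lit 0, [(nat_lit 25, [(nat_lit 1, nat_lit 855)])],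
 ⟨p108_k34, nat_lit 0, nat_lit 0, nat_lit 173, nat_lit 0, nat_lit 0, [nat_lit 858314001, nat_lit 1332714000, nat_lit 1688746000], [], [nat_lit 27010143619, nat_lit 27438858819, nat_lit 29213386754, nat_lit 29624992321, nat_lit 26643073575, nat_lit 27063534111, nat_lit 28842213813, nat_lit 29243818241], nat_lit 0, nat_lit 0, nat_lit 0, nat_lit 0, nat_lit 0, nat_lit 0, [], [nat_lit 20, nat_lit 40, nat_lit 40, nat_lit 80, nat_lit 16, nat_lit 215, nat_lit 10, nat_lit 7]⟩, ⟨p108_k40, nat_lit 0, nat_lit 0, nat_lit 731, nat_lit 0, nat_lit 1105755, [nat_lit 679760000, nat_lit 1155360000, nat_lit 1721440000], [], [nat_lit 4998240284, nat_lit 5012181100, nat_lit 5178774882, nat_lit 5188205825, nat_lit 4398189015, nat_lit 4407328620, nat_lit 4549907681, nat_lit 4557414415], nat_lit 1271250, nat_lit 1271250, nat_lit 1271250, nat_lit 1271250, nat_lit 0, nat_lit 1412500, [nat_lit 1100000, nat_lit 1785000, nat_lit 1271250],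 [nat_lit 21, nat_lit 40, nat_lit 40, nat_lit 80, nat_lit 14, nat_lit 345, nat_lit 125, nat_lit 8]⟩,
 ⟨nat_lit 2738, nat_lit 3163, ⟨.ofNat (nat_lit 760401), .ofNat (nat_lit 845735), .ofNat (nat_lit 771478), .ofNat (nat_lit 856813), .ofNat (nat_lit 755643), .ofNat (nat_lit 838329), .ofNat (nat_lit 766852), .ofNat (nat_lit 849538)⟩, ⟨.ofNat (nat_lit 0), .ofNat (nat_lit 78946), .ofNat (nat_lit 0), .ofNat (nat_lit 100000), .ofNat (nat_lit 0), .ofNat (nat_lit 84414), .ofNat (nat_lit 0), .ofNat (nat_lit 100000)⟩⟩, [⟨nat_lit 13, nat_lit 56, nat_lit 65, nat_lit 100, nat_lit 215883373⟩, ⟨nat_lit 10, nat_lit 100, nat_lit 65, nat_lit 50, nat_lit 1534119⟩, ⟨nat_lit 22, nat_lit 72, nat_lit 100, nat_lit 47, nat_lit 18562873⟩]⟩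
noncomputable def p108_l147 : Lf2 := ⟨nat_lit 0, nat_lit 15, [nat_lit 30, nat_lit 5, nat_lit 5, nat_lit 20], false, nat_lit 0, nat_lit 40, nat_lit 0, nat_lit 200, ⟨nat_lit 102, nat_lit 898, nat_lit 0, nat_lit 8, nat_lit 317, nat_lit 898, nat_lit 19, nat_lit 0, nat_lit 0, nat_lit 0, nat_lit 0, nat_lit 0, nat_lit 41106462, nat_lit 25893538, nat_lit 0, nat_lit 3335715, true, true⟩,
 nat_lit 0, nat_lit 0, nat_lit 1218, nat_lit 0, nat_lit 2786, nat_lit 741, nat_lit 39, nat_lit 0, nat_lit 0, nat_lit 110, nat_lit 0, nat_lit 0, nat_lit 0, nat_lit 0, nat_lit 0, nat_lit 224500, nat_lit 0, nat_lit 0, [(nat_lit 25, [(nat_lit 0, nat_lit 898)])],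
 ⟨p108_k36, nat_lit 0, nat_lit 0, nat_lit 163, nat_lit 0, nat_lit 0, [nat_lit 781748000, nat_lit 1563946400, nat_lit 2018784800], [], [nat_lit 27840811470, nat_lit 28331672114, nat_lit 29849542463, nat_lit 30292198660, nat_lit 27503347668, nat_lit 27980693806, nat_lit 29460548120, nat_lit 29891751880], nat_lit 0, nat_lit 0, nat_lit 0, nat_lit 0, nat_lit 0, nat_lit 0, [], [nat_lit 35, nat_lit 40, nat_lit 40, nat_lit 80, nat_lit 22, nat_lit 215, nat_lit 10, nat_lit 8]⟩, ⟨p108_k40, nat_lit 0, nat_lit 0, nat_lit 816, nat_lit 0, nat_lit 1271389, [nat_lit 478176000, nat_lit 812736000, nat_lit 1210944000], [], [nat_lit 3469977278, nat_lit 3476640428, nat_lit 3556553503, nat_lit 3574401519, nat_lit 3039531553, nat_lit 3042554648, nat_lit 3121085253, nat_lit 3126295244], nat_lit 1271250, nat_lit 1271250, nat_lit 1271250, nat_lit 1271250, nat_lit 0, nat_lit 1412500, [nat_lit 1100000, nat_lit 1785000, nat_lit 1271250],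 [nat_lit 21, nat_lit 40, nat_lit 40, nat_lit 80, nat_lit 14, nat_lit 345, nat_lit 125, nat_lit 8]⟩,
 ⟨nat_lit 2236, nat_lit 2739, ⟨.ofNat (nat_lit 755643), .ofNat (nat_lit 826517), .ofNat (nat_lit 766852), .ofNat (nat_lit 837726), .ofNat (nat_lit 750755), .ofNat (nat_lit 819174), .ofNat (nat_lit 762142), .ofNat (nat_lit 830561)⟩, ⟨.ofNat (nat_lit 0), .ofNat (nat_lit 84414), .ofNat (nat_lit 0), .ofNat (nat_lit 100000), .ofNat (nat_lit 0), .ofNat (nat_lit 89742), .ofNat (nat_lit 0), .ofNat (nat_lit 100000)⟩⟩, [⟨nat_lit 13, nat_lit 52, nat_lit 68, nat_lit 100, nat_lit 297102662⟩, ⟨nat_lit 3, nat_lit 100, nat_lit 61, nat_lit 47, nat_lit 13248209⟩, ⟨nat_lit 22, nat_lit 80, nat_lit 100, nat_lit 32, nat_lit 20086329⟩]⟩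
noncomputable def p108_l148 : Lf2 := ⟨nat_lit 0, nat_lit 20, [nat_lit 5, nat_lit 5, nat_lit 5, nat_lit 20], false, nat_lit 0, nat_lit 40, nat_lit 0, nat_lit 200, ⟨nat_lit 657, nat_lit 343, nat_lit 0, nat_lit 8, nat_lit 321, nat_lit 343, nat_lit 20, nat_lit 0, nat_lit 0, nat_lit 0, nat_lit 0, nat_lit 0, nat_lit 40791635, nat_lit 26208365, nat_lit 0, nat_lit 3346341, true, true⟩,
 nat_lit 0, nat_lit 0, nat_lit 8531, nat_lit 0, nat_lit 3275, nat_lit 4965, nat_lit 284, nat_lit 0, nat_lit 0, nat_lit 805, nat_lit 0, nat_lit 0, nat_lit 0, nat_lit 0, nat_lit 0, nat_lit 217600, nat_lit 0, nat_lit 0, [(nat_lit 25, [(nat_lit 1, nat_lit 209), (nat_lit 2, nat_lit 134)])],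
 ⟨p108_k28, nat_lit 0, nat_lit 0, nat_lit 170, nat_lit 0, nat_lit 0, [nat_lit 989594801, nat_lit 2314674801, nat_lit 3775087600], [], [nat_lit 28413969500, nat_lit 28651579350, nat_lit 30990401400, nat_lit 31291852393, nat_lit 27787439451, nat_lit 28033863878, nat_lit 30195980083, nat_lit 30431797009], nat_lit 0, nat_lit 0, nat_lit 0, nat_lit 0, nat_lit 0, nat_lit 0, [], [nat_lit 20, nat_lit 40, nat_lit 40, nat_lit 80, nat_lit 16, nat_lit 215, nat_lit 10, nat_lit 7]⟩, ⟨p108_k29, nat_lit 0, nat_lit 0, nat_lit 642, nat_lit 0, nat_lit 862329, [nat_lit 3080016000, nat_lit 5234976000, nat_lit 7799904000], [], [nat_lit 22710583824, nat_lit 22925416704, nat_lit 23963292771, nat_lit 24126211810, nat_lit 19570237893, nat_lit 19671632268, nat_lit 20484999783, nat_lit 20579213207], nat_lit 1271250, nat_lit 1271250, nat_lit 1271250, nat_lit 1271250, nat_lit 0, nat_lit 1412500, [nat_lit 1100000, nat_lit 1785000, nat_lit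 1271250], [nat_lit 21, nat_lit 40, nat_lit 40, nat_lit 80, nat_lit 14, nat_lit 345, nat_lit 125, nat_lit 8]⟩,
 ⟨nat_lit 2958, nat_lit 3163, ⟨.ofNat (nat_lit 749323), .ofNat (nat_lit 834658), .ofNat (nat_lit 771478), .ofNat (nat_lit 856813), .ofNat (nat_lit 746893), .ofNat (nat_lit 830922), .ofNat (nat_lit 769170), .ofNat (nat_lit 853199)⟩, ⟨.ofNat (nat_lit 0), .ofNat (nat_lit 100000), .ofNat (nat_lit 0), .ofNat (nat_lit 100000), .ofNat (nat_lit 0), .ofNat (nat_lit 100000), .ofNat (nat_lit 0), .ofNat (nat_lit 100000)⟩⟩, [⟨nat_lit 22, nat_lit 72, nat_lit 100, nat_lit 47, nat_lit 42021664⟩]⟩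
noncomputable def p108_l149 : Lf2 := ⟨nat_lit 0, nat_lit 20, [nat_lit 5, nat_lit 5, nat_lit 5, nat_lit 20], false, nat_lit 0, nat_lit 40, nat_lit 0, nat_lit 200, ⟨nat_lit 557, nat_lit 443, nat_lit 0, nat_lit 8, nat_lit 318, nat_lit 443, nat_lit 20, nat_lit 0, nat_lit 0, nat_lit 0, nat_lit 0, nat_lit 0, nat_lit 41007545, nat_lit 25992455, nat_lit 0, nat_lit 3339103, true, true⟩,
 nat_lit 0, nat_lit 0, nat_lit 6988, nat_lit 0, nat_lit 3028, nat_lit 4067, nat_lit 349, nat_lit 0, nat_lit 0, nat_lit 830, nat_lit 0, nat_lit 0, nat_lit 0, nat_lit 0, nat_lit 0, nat_lit 143750, nat_lit 0, nat_lit 0, [(nat_lit 25, [(nat_lit 0, nat_lit 223), (nat_lit 1, nat_lit 220)])],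
 ⟨p108_k37, nat_lit 0, nat_lit 0, nat_lit 169, nat_lit 0, nat_lit 0, [nat_lit 878694001, nat_lit 2353785734, nat_lit 4154908000], [], [nat_lit 27928110672, nat_lit 28075378125, nat_lit 30342767677, nat_lit 30519748364, nat_lit 27458882896, nat_lit 27602180005, nat_lit 29601378677, nat_lit 29732823205], nat_lit 0, nat_lit 0, nat_lit 0, nat_lit 0, nat_lit 0, nat_lit 0, [], [nat_lit 20, nat_lit 40, nat_lit 40, nat_lit 80, nat_lit 16, nat_lit 215, nat_lit 10, nat_lit 7]⟩, ⟨p108_k29, nat_lit 0, nat_lit 0, nat_lit 661, nat_lit 0, nat_lit 912719, [nat_lit 2611216000, nat_lit 4438176000, nat_lit 6612704000], [], [nat_lit 18788643946, nat_lit 18930176524, nat_lit 19690703282, nat_lit 19843491656, nat_lit 16334482889, nat_lit 16423380814, nat_lit 16939367414, nat_lit 16999308702], nat_lit 1271250, nat_lit 1271250, nat_lit 1271250, nat_lit 1271250, nat_lit 0, nat_lit 1412500, [nat_lit 1100000, nat_lit 1785000, nat_lit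 1271250], [nat_lit 21, nat_lit 40, nat_lit 40, nat_lit 80, nat_lit 14, nat_lit 345, nat_lit 125, nat_lit 8]⟩,
 ⟨nat_lit 2828, nat_lit 2959, ⟨.ofNat (nat_lit 746893), .ofNat (nat_lit 824920), .ofNat (nat_lit 769170), .ofNat (nat_lit 847197), .ofNat (nat_lit 745422), .ofNat (nat_lit 822706), .ofNat (nat_lit 767781), .ofNat (nat_lit 845065)⟩, ⟨.ofNat (nat_lit 0), .ofNat (nat_lit 100000), .ofNat (nat_lit 0), .ofNat (nat_lit 100000), .ofNat (nat_lit 0), .ofNat (nat_lit 100000), .ofNat (nat_lit 0), .ofNat (nat_lit 100000)⟩⟩, [⟨nat_lit 10, nat_lit 100, nat_lit 65, nat_lit 50, nat_lit 50425346⟩]⟩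
noncomputable def p108_l150 : Lf2 := ⟨nat_lit 0, nat_lit 20, [nat_lit 5, nat_lit 5, nat_lit 5, nat_lit 20], false, nat_lit 4, nat_lit 40, nat_lit 0, nat_lit 200, ⟨nat_lit 439, nat_lit 561, nat_lit 0, nat_lit 8, nat_lit 317, nat_lit 561, nat_lit 22, nat_lit 0, nat_lit 0, nat_lit 0, nat_lit 0, nat_lit 0, nat_lit 40898435, nat_lit 25684141, nat_lit 417424, nat_lit 3550169, true, true⟩,
 nat_lit 0, nat_lit 0, nat_lit 5472, nat_lit 0, nat_lit 2716, nat_lit 3185, nat_lit 361, nat_lit 0, nat_lit 0, nat_lit 691, nat_lit 0, nat_lit 0, nat_lit 0, nat_lit 0, nat_lit 0, nat_lit 140250, nat_lit 0, nat_lit 0, [(nat_lit 25, [(nat_lit 0, nat_lit 561)])],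
 ⟨p108_k41, nat_lit 0, nat_lit 0, nat_lit 162, nat_lit 0, nat_lit 0, [nat_lit 840386000, nat_lit 2208694800, nat_lit 3931948000], [], [nat_lit 27405082391, nat_lit 27499008175, nat_lit 29336415563, nat_lit 29423315198, nat_lit 27076414235, nat_lit 27168100178, nat_lit 28964859451, nat_lit 29047786579], nat_lit 0, nat_lit 0, nat_lit 0, nat_lit 0, nat_lit 0, nat_lit 0, [], [nat_lit 20, nat_lit 40, nat_lit 40, nat_lit 80, nat_lit 16, nat_lit 215, nat_lit 10, nat_lit 7]⟩, ⟨p108_k29, nat_lit 0, nat_lit 0, nat_lit 674, nat_lit 0, nat_lit 946755, [nat_lit 2058032000, nat_lit 3497952000, nat_lit 5211808000], [], [nat_lit 14647861822, nat_lit 14759739428, nat_lit 15273395277, nat_lit 15384791638, nat_lit 12749539666, nat_lit 12818935358, nat_lit 13168478492, nat_lit 13216501538], nat_lit 1271250, nat_lit 1271250, nat_lit 1271250, nat_lit 1271250, nat_lit 0, nat_lit 1412500, [nat_lit 1100000, nat_lit 1785000, nat_lit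 1271250], [nat_lit 21, nat_lit 40, nat_lit 40, nat_lit 80, nat_lit 14, nat_lit 345, nat_lit 125, nat_lit 8]⟩,
 ⟨nat_lit 2738, nat_lit 2829, ⟨.ofNat (nat_lit 745422), .ofNat (nat_lit 816761), .ofNat (nat_lit 767781), .ofNat (nat_lit 839120), .ofNat (nat_lit 744435), .ofNat (nat_lit 815308), .ofNat (nat_lit 766852), .ofNat (nat_lit 837726)⟩, ⟨.ofNat (nat_lit 10000), .ofNat (nat_lit 100000), .ofNat (nat_lit 10000), .ofNat (nat_lit 100000), .ofNat (nat_lit 10000), .ofNat (nat_lit 100000), .ofNat (nat_lit 10000), .ofNat (nat_lit 100000)⟩⟩, [⟨nat_lit 13, nat_lit 59, nat_lit 60, nat_lit 100, nat_lit 52590901⟩, ⟨nat_lit 22, nat_lit 80, nat_lit 100, nat_lit 32, nat_lit 55935139⟩]⟩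
noncomputable def p108_l151 : Lf2 := ⟨nat_lit 0, nat_lit 20, [nat_lit 5, nat_lit 5, nat_lit 5, nat_lit 20], false, nat_lit 4, nat_lit 40, nat_lit 0, nat_lit 200, ⟨nat_lit 217, nat_lit 783, nat_lit 0, nat_lit 8, nat_lit 311, nat_lit 783, nat_lit 22, nat_lit 0, nat_lit 0, nat_lit 0, nat_lit 0, nat_lit 0, nat_lit 41437567, nat_lit 25141702, nat_lit 420731, nat_lit 3532011, true, true⟩,
 nat_lit 0, nat_lit 0, nat_lit 2959, nat_lit 0, nat_lit 2431, nat_lit 1722, nat_lit 309, nat_lit 0, nat_lit 0, nat_lit 170, nat_lit 0, nat_lit 0, nat_lit 0, nat_lit 0, nat_lit 0, nat_lit 195750, nat_lit 0, nat_lit 0, [(nat_lit 25, [(nat_lit 0, nat_lit 783)])],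
 ⟨p108_k32, nat_lit 0, nat_lit 0, nat_lit 160, nat_lit 0, nat_lit 0, [nat_lit 801758001, nat_lit 1783964400, nat_lit 3014644000], [], [nat_lit 26738601217, nat_lit 26964308858, nat_lit 28272504745, nat_lit 28480562757, nat_lit 26496621000, nat_lit 26717054153, nat_lit 27997369878, nat_lit 28200817243], nat_lit 0, nat_lit 0, nat_lit 0, nat_lit 0, nat_lit 0, nat_lit 0, [], [nat_lit 20, nat_lit 40, nat_lit 40, nat_lit 80, nat_lit 16, nat_lit 215, nat_lit 10, nat_lit 7]⟩, ⟨p108_k29, nat_lit 0, nat_lit 0, nat_lit 681, nat_lit 0, nat_lit 967081, [nat_lit 1017296000, nat_lit 1729056000, nat_lit 2576224000], [], [nat_lit 7948431480, nat_lit 7971786581, nat_lit 8179161560, nat_lit 8196248539, nat_lit 6742876012, nat_lit 6765540297, nat_lit 6959854109, nat_lit 6976683436], nat_lit 1271250, nat_lit 1271250, nat_lit 1271250, nat_lit 1271250, nat_lit 0, nat_lit 1412500, [nat_lit 1100000, nat_lit 1785000, nat_lit 1271250],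 [nat_lit 21, nat_lit 40, nat_lit 40, nat_lit 80, nat_lit 14, nat_lit 345, nat_lit 125, nat_lit 8]⟩,
 ⟨nat_lit 2500, nat_lit 2739, ⟨.ofNat (nat_lit 744435), .ofNat (nat_lit 803496), .ofNat (nat_lit 755643), .ofNat (nat_lit 814705), .ofNat (nat_lit 741934), .ofNat (nat_lit 799999), .ofNat (nat_lit 753224), .ofNat (nat_lit 811289)⟩, ⟨.ofNat (nat_lit 10000), .ofNat (nat_lit 100000), .ofNat (nat_lit 10000), .ofNat (nat_lit 100000), .ofNat (nat_lit 10000), .ofNat (nat_lit 100000), .ofNat (nat_lit 10000), .ofNat (nat_lit 100000)⟩⟩, [⟨nat_lit 13, nat_lit 54, nat_lit 69, nat_lit 100, nat_lit 205334069⟩, ⟨nat_lit 3, nat_lit 100, nat_lit 67, nat_lit 43, nat_lit 89698799⟩, ⟨nat_lit 22, nat_lit 82, nat_lit 100, nat_lit 29, nat_lit 14157708⟩]⟩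
noncomputable def p108_l152 : Lf2 := ⟨nat_lit 0, nat_lit 20, [nat_lit 5, nat_lit 5, nat_lit 5, nat_lit 20], false, nat_lit 8, nat_lit 40, nat_lit 0, nat_lit 200, ⟨nat_lit 228, nat_lit 772, nat_lit 0, nat_lit 8, nat_lit 308, nat_lit 772, nat_lit 24, nat_lit 0, nat_lit 0, nat_lit 0, nat_lit 0, nat_lit 0, nat_lit 41745780, nat_lit 24772619, nat_lit 481601, nat_lit 3543942, true, true⟩,
 nat_lit 0, nat_lit 0, nat_lit 3208, nat_lit 0, nat_lit 2317, nat_lit 1867, nat_lit 306, nat_lit 0, nat_lit 0, nat_lit 264, nat_lit 0, nat_lit 0, nat_lit 0, nat_lit 0, nat_lit 0, nat_lit 193000, nat_lit 0, nat_lit 0, [(nat_lit 25, [(nat_lit 0, nat_lit 772)])],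
 ⟨p108_k33, nat_lit 0, nat_lit 0, nat_lit 158, nat_lit 0, nat_lit 0, [nat_lit 803672000, nat_lit 1805009601, nat_lit 3060096000], [], [nat_lit 26566881256, nat_lit 26788374565, nat_lit 27761317878, nat_lit 27969177158, nat_lit 26378833658, nat_lit 26595754129, nat_lit 27550678778, nat_lit 27755764960], nat_lit 0, nat_lit 0, nat_lit 0, nat_lit 0, nat_lit 0, nat_lit 0, [], [nat_lit 20, nat_lit 40, nat_lit 40, nat_lit 80, nat_lit 16, nat_lit 215, nat_lit 10, nat_lit 7]⟩, ⟨p108_k29, nat_lit 0, nat_lit 0, nat_lit 715, nat_lit 0, nat_lit 1057392, [nat_lit 1068864000, nat_lit 1816704000, nat_lit 2706816000], [], [nat_lit 7642415304, nat_lit 7661574090, nat_lit 7809248207, nat_lit 7823685939, nat_lit 6383022378, nat_lit 6392075858, nat_lit 6503362352, nat_lit 6508621379], nat_lit 1271250, nat_lit 1271250, nat_lit 1271250, nat_lit 1271250, nat_lit 0, nat_lit 1412500, [nat_lit 1100000, nat_lit 1785000, nat_lit 1271250],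 [nat_lit 21, nat_lit 40, nat_lit 40, nat_lit 80, nat_lit 14, nat_lit 345, nat_lit 125, nat_lit 8]⟩,
 ⟨nat_lit 2236, nat_lit 2500, ⟨.ofNat (nat_lit 741934), .ofNat (nat_lit 788386), .ofNat (nat_lit 753224), .ofNat (nat_lit 799676), .ofNat (nat_lit 739368), .ofNat (nat_lit 784980), .ofNat (nat_lit 750755), .ofNat (nat_lit 796368)⟩, ⟨.ofNat (nat_lit 20000), .ofNat (nat_lit 100000), .ofNat (nat_lit 20000), .ofNat (nat_lit 100000), .ofNat (nat_lit 20000), .ofNat (nat_lit 100000), .ofNat (nat_lit 20000), .ofNat (nat_lit 100000)⟩⟩, [⟨nat_lit 13, nat_lit 46, nat_lit 76, nat_lit 100, nat_lit 211773698⟩, ⟨nat_lit 3, nat_lit 100, nat_lit 61, nat_lit 49, nat_lit 87133291⟩, ⟨nat_lit 22, nat_lit 76, nat_lit 100, nat_lit 49, nat_lit 7352885⟩]⟩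
noncomputable def p108_l153 : Lf2 := ⟨nat_lit 0, nat_lit 20, [nat_lit 5, nat_lit 5, nat_lit 5, nat_lit 20], false, nat_lit 4, nat_lit 40, nat_lit 0, nat_lit 200, ⟨nat_lit 343, nat_lit 657, nat_lit 0, nat_lit 8, nat_lit 317, nat_lit 657, nat_lit 22, nat_lit 0, nat_lit 0, nat_lit 0, nat_lit 0, nat_lit 0, nat_lit 40819651, nat_lit 25763416, nat_lit 416933, nat_lit 3552706, true, true⟩,
 nat_lit 0, nat_lit 0, nat_lit 3916, nat_lit 0, nat_lit 2513, nat_lit 2384, nat_lit 338, nat_lit 0, nat_lit 0, nat_lit 431, nat_lit 0, nat_lit 0, nat_lit 0, nat_lit 0, nat_lit 0, nat_lit 164250, nat_lit 0, nat_lit 0, [(nat_lit 25, [(nat_lit 0, nat_lit 657)])],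
 ⟨p108_k32, nat_lit 0, nat_lit 0, nat_lit 170, nat_lit 0, nat_lit 0, [nat_lit 823682001, nat_lit 2025027600, nat_lit 3535276000], [], [nat_lit 27114507361, nat_lit 27571163059, nat_lit 28992271043, nat_lit 29408351230, nat_lit 26846940906, nat_lit 27292860544, nat_lit 28683777296, nat_lit 29131918629], nat_lit 0, nat_lit 0, nat_lit 0, nat_lit 0, nat_lit 0, nat_lit 0, [], [nat_lit 20, nat_lit 40, nat_lit 40, nat_lit 80, nat_lit 16, nat_lit 215, nat_lit 10, nat_lit 7]⟩, ⟨p108_k42, nat_lit 0, nat_lit 0, nat_lit 710, nat_lit 0, nat_lit 1048863, [nat_lit 1607984000, nat_lit 2733024000, nat_lit 4072096000], [], [nat_lit 11407696590, nat_lit 11441228428, nat_lit 11765372732, nat_lit 11790073225, nat_lit 10041033965, nat_lit 10069423670, nat_lit 10365239744, nat_lit 10394136805], nat_lit 1271250, nat_lit 1271250, nat_lit 1271250, nat_lit 1271250, nat_lit 0, nat_lit 1412500, [nat_lit 1100000, nat_lit 1785000, nat_lit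 1271250], [nat_lit 21, nat_lit 40, nat_lit 40, nat_lit 80, nat_lit 14, nat_lit 345, nat_lit 125, nat_lit 8]⟩,
 ⟨nat_lit 2236, nat_lit 2739, ⟨.ofNat (nat_lit 755643), .ofNat (nat_lit 826517), .ofNat (nat_lit 766852), .ofNat (nat_lit 837726), .ofNat (nat_lit 750755), .ofNat (nat_lit 819174), .ofNat (nat_lit 762142), .ofNat (nat_lit 830561)⟩, ⟨.ofNat (nat_lit 10000), .ofNat (nat_lit 100000), .ofNat (nat_lit 10000), .ofNat (nat_lit 100000), .ofNat (nat_lit 10000), .ofNat (nat_lit 100000), .ofNat (nat_lit 10000), .ofNat (nat_lit 100000)⟩⟩, [⟨nat_lit 13, nat_lit 47, nat_lit 74, nat_lit 100, nat_lit 119613958⟩, ⟨nat_lit 22, nat_lit 80, nat_lit 100, nat_lit 32, nat_lit 42613734⟩, ⟨nat_lit 22, nat_lit 73, nat_lit 100, nat_lit 48, nat_lit 22052671⟩]⟩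
noncomputable def p108_l154 : Lf2 := ⟨nat_lit 0, nat_lit 20, [nat_lit 5, nat_lit 5, nat_lit 5, nat_lit 20], false, nat_lit 40, nat_lit 80, nat_lit 0, nat_lit 260, ⟨nat_lit 92, nat_lit 908, nat_lit 0, nat_lit 8, nat_lit 317, nat_lit 908, nat_lit 51, nat_lit 0, nat_lit 0, nat_lit 0, nat_lit 0, nat_lit 0, nat_lit 40191173, nat_lit 25347106, nat_lit 1461721, nat_lit 3912272, true, true⟩,
 nat_lit 0, nat_lit 0, nat_lit 1258, nat_lit 0, nat_lit 2859, nat_lit 732, nat_lit 0, nat_lit 0, nat_lit 0, nat_lit 96, nat_lit 0, nat_lit 0, nat_lit 0, nat_lit 0, nat_lit 0, nat_lit 363200, nat_lit 0, nat_lit 0, [(nat_lit 25, [(nat_lit 1, nat_lit 908)])],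
 ⟨p108_k28, nat_lit 0, nat_lit 0, nat_lit 143, nat_lit 0, nat_lit 0, [nat_lit 853374401, nat_lit 1211881067, nat_lit 1406001600], [], [nat_lit 26936227207, nat_lit 27403469441, nat_lit 29063202824, nat_lit 29481350344, nat_lit 26531780049, nat_lit 26986216218, nat_lit 28603782930, nat_lit 29011254689], nat_lit 0, nat_lit 0, nat_lit 0, nat_lit 0, nat_lit 0, nat_lit 0, [], [nat_lit 20, nat_lit 40, nat_lit 40, nat_lit 80, nat_lit 16, nat_lit 226, nat_lit 20, nat_lit 7]⟩, ⟨p108_k29, nat_lit 0, nat_lit 0, nat_lit 885, nat_lit 0, nat_lit 1443898, [nat_lit 431296000, nat_lit 733056000, nat_lit 1092224000], [], [nat_lit 3261111128, nat_lit 3269087444, nat_lit 3374883922, nat_lit 3379817222, nat_lit 2761349032, nat_lit 2763391268, nat_lit 2832030714, nat_lit 2831836480], nat_lit 1271250, nat_lit 1271250, nat_lit 1271250, nat_lit 1271250, nat_lit 0, nat_lit 1836250, [nat_lit 1100000, nat_lit 1785000, nat_lit 1271250],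 [nat_lit 21, nat_lit 40, nat_lit 40, nat_lit 80, nat_lit 14, nat_lit 373, nat_lit 150, nat_lit 9]⟩,
 ⟨nat_lit 2738, nat_lit 3163, ⟨.ofNat (nat_lit 749323), .ofNat (nat_lit 828563), .ofNat (nat_lit 760401), .ofNat (nat_lit 839640), .ofNat (nat_lit 744435), .ofNat (nat_lit 821214), .ofNat (nat_lit 755643), .ofNat (nat_lit 832423)⟩, ⟨.ofNat (nat_lit 78946), .ofNat (nat_lit 139899), .ofNat (nat_lit 100000), .ofNat (nat_lit 184209), .ofNat (nat_lit 84414), .ofNat (nat_lit 143475), .ofNat (nat_lit 100000), .ofNat (nat_lit 188310)⟩⟩, [⟨nat_lit 13, nat_lit 55, nat_lit 68, nat_lit 100, nat_lit 261888394⟩, ⟨nat_lit 22, nat_lit 68, nat_lit 100, nat_lit 71, nat_lit 10571333⟩]⟩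
noncomputable def p108_l155 : Lf2 := ⟨nat_lit 0, nat_lit 20, [nat_lit 5, nat_lit 5, nat_lit 5, nat_lit 20], false, nat_lit 40, nat_lit 80, nat_lit 0, nat_lit 260, ⟨nat_lit 91, nat_lit 909, nat_lit 0, nat_lit 8, nat_lit 311, nat_lit 909, nat_lit 52, nat_lit 0, nat_lit 0, nat_lit 0, nat_lit 0, nat_lit 0, nat_lit 40722025, nat_lit 24747734, nat_lit 1530241, nat_lit 3911448, true, true⟩,
 nat_lit 0, nat_lit 0, nat_lit 1294, nat_lit 0, nat_lit 2773, nat_lit 753, nat_lit 166, nat_lit 0, nat_lit 0, nat_lit 89, nat_lit 0, nat_lit 0, nat_lit 0, nat_lit 0, nat_lit 0, nat_lit 227250, nat_lit 0, nat_lit 0, [(nat_lit 25, [(nat_lit 0, nat_lit 909)])],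
 ⟨p108_k32, nat_lit 0, nat_lit 0, nat_lit 142, nat_lit 0, nat_lit 0, [nat_lit 779834001, nat_lit 1542901200, nat_lit 2494012000], [], [nat_lit 26865845586, nat_lit 27327787984, nat_lit 28425008919, nat_lit 28849890967, nat_lit 26478408305, nat_lit 26927762648, nat_lit 27998258596, nat_lit 28412166814], nat_lit 0, nat_lit 0, nat_lit 0, nat_lit 0, nat_lit 0, nat_lit 0, [], [nat_lit 20, nat_lit 40, nat_lit 40, nat_lit 80, nat_lit 16, nat_lit 226, nat_lit 20, nat_lit 7]⟩, ⟨p108_k29, nat_lit 0, nat_lit 0, nat_lit 980, nat_lit 0, nat_lit 1637579, [nat_lit 426608000, nat_lit 725088000, nat_lit 1080352000], [], [nat_lit 3152084590, nat_lit 3159641149, nat_lit 3281949521, nat_lit 3314535310, nat_lit 2624783159, nat_lit 2626301388, nat_lit 2674826941, nat_lit 2679672032], nat_lit 1271250, nat_lit 1271250, nat_lit 1271250, nat_lit 1271250, nat_lit 0, nat_lit 1836250, [nat_lit 1100000, nat_lit 1785000, nat_lit 1271250],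 [nat_lit 21, nat_lit 40, nat_lit 40, nat_lit 80, nat_lit 14, nat_lit 373, nat_lit 150, nat_lit 9]⟩,
 ⟨nat_lit 2236, nat_lit 2739, ⟨.ofNat (nat_lit 744435), .ofNat (nat_lit 803496), .ofNat (nat_lit 755643), .ofNat (nat_lit 814705), .ofNat (nat_lit 739368), .ofNat (nat_lit 796384), .ofNat (nat_lit 750755), .ofNat (nat_lit 807771)⟩, ⟨.ofNat (nat_lit 84414), .ofNat (nat_lit 143475), .ofNat (nat_lit 100000), .ofNat (nat_lit 188310), .ofNat (nat_lit 89742), .ofNat (nat_lit 146758), .ofNat (nat_lit 100000), .ofNat (nat_lit 192306)⟩⟩, [⟨nat_lit 13, nat_lit 51, nat_lit 71, nat_lit 100, nat_lit 285198480⟩, ⟨nat_lit 22, nat_lit 71, nat_lit 100, nat_lit 71, nat_lit 6694108⟩]⟩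
noncomputable def p108_l156 : Lf2 := ⟨nat_lit 0, nat_lit 15, [nat_lit 30, nat_lit 5, nat_lit 5, nat_lit 20], false, nat_lit 40, nat_lit 80, nat_lit 0, nat_lit 260, ⟨nat_lit 97, nat_lit 903, nat_lit 0, nat_lit 8, nat_lit 321, nat_lit 903, nat_lit 49, nat_lit 0, nat_lit 0, nat_lit 0, nat_lit 0, nat_lit 0, nat_lit 39818438, nat_lit 25797371, nat_lit 1384191, nat_lit 3903492, true, true⟩,
 nat_lit 0, nat_lit 0, nat_lit 1198, nat_lit 0, nat_lit 2828, nat_lit 729, nat_lit 0, nat_lit 0, nat_lit 0, nat_lit 90, nat_lit 0, nat_lit 0, nat_lit 0, nat_lit 0, nat_lit 0, nat_lit 361200, nat_lit 0, nat_lit 0, [(nat_lit 25, [(nat_lit 1, nat_lit 903)])],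
 ⟨p108_k34, nat_lit 0, nat_lit 0, nat_lit 147, nat_lit 0, nat_lit 0, [nat_lit 853840401, nat_lit 1223280400, nat_lit 1432675600], [], [nat_lit 27021584298, nat_lit 27952247954, nat_lit 29312138444, nat_lit 30137890014, nat_lit 26627806162, nat_lit 27533014858, nat_lit 28859267295, nat_lit 29664110249], nat_lit 0, nat_lit 0, nat_lit 0, nat_lit 0, nat_lit 0, nat_lit 0, [], [nat_lit 20, nat_lit 40, nat_lit 40, nat_lit 80, nat_lit 16, nat_lit 226, nat_lit 20, nat_lit 7]⟩, ⟨p108_k40, nat_lit 0, nat_lit 0, nat_lit 937, nat_lit 0, nat_lit 1566120, [nat_lit 454736000, nat_lit 772896000, nat_lit 1151584000], [], [nat_lit 3357111496, nat_lit 3360424780, nat_lit 3565542796, nat_lit 3596504849, nat_lit 2923944233, nat_lit 2922856081, nat_lit 2965770635, nat_lit 2983146610], nat_lit 1271250, nat_lit 1271250, nat_lit 1271250, nat_lit 1271250, nat_lit 0, nat_lit 1836250, [nat_lit 1100000, nat_lit 1785000, nat_lit 1271250],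 [nat_lit 21, nat_lit 40, nat_lit 40, nat_lit 80, nat_lit 14, nat_lit 373, nat_lit 150, nat_lit 9]⟩,
 ⟨nat_lit 2236, nat_lit 3163, ⟨.ofNat (nat_lit 760401), .ofNat (nat_lit 845735), .ofNat (nat_lit 771478), .ofNat (nat_lit 856813), .ofNat (nat_lit 750755), .ofNat (nat_lit 830577), .ofNat (nat_lit 762142), .ofNat (nat_lit 841964)⟩, ⟨.ofNat (nat_lit 78946), .ofNat (nat_lit 139899), .ofNat (nat_lit 100000), .ofNat (nat_lit 162054), .ofNat (nat_lit 89742), .ofNat (nat_lit 146758), .ofNat (nat_lit 100000), .ofNat (nat_lit 169532)⟩⟩, [⟨nat_lit 13, nat_lit 57, nat_lit 64, nat_lit 100, nat_lit 252284962⟩, ⟨nat_lit 22, nat_lit 67, nat_lit 100, nat_lit 71, nat_lit 9893460⟩]⟩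
noncomputable def p108_l157 : Lf2 := ⟨nat_lit 0, nat_lit 20, [nat_lit 5, nat_lit 5, nat_lit 5, nat_lit 20], false, nat_lit 40, nat_lit 80, nat_lit 0, nat_lit 260, ⟨nat_lit 259, nat_lit 741, nat_lit 0, nat_lit 8, nat_lit 322, nat_lit 741, nat_lit 55, nat_lit 0, nat_lit 0, nat_lit 0, nat_lit 0, nat_lit 0, nat_lit 39538366, nat_lit 25837673, nat_lit 1623961, nat_lit 3977706, true, true⟩,
 nat_lit 0, nat_lit 0, nat_lit 3043, nat_lit 0, nat_lit 3057, nat_lit 1853, nat_lit 105, nat_lit 0, nat_lit 0, nat_lit 268, nat_lit 0, nat_lit 0, nat_lit 0, nat_lit 0, nat_lit 0, nat_lit 301200, nat_lit 0, nat_lit 0, [(nat_lit 25, [(nat_lit 1, nat_lit 733), (nat_lit 2, nat_lit 8)])],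
 ⟨p108_k28, nat_lit 0, nat_lit 0, nat_lit 144, nat_lit 0, nat_lit 0, [nat_lit 873927601, nat_lit 1581554267, nat_lit 2258401200], [], [nat_lit 27063681368, nat_lit 27543125550, nat_lit 29414688125, nat_lit 29839876237, nat_lit 26591090134, nat_lit 27057226321, nat_lit 28880473978, nat_lit 29293666607], nat_lit 0, nat_lit 0, nat_lit 0, nat_lit 0, nat_lit 0, nat_lit 0, [], [nat_lit 20, nat_lit 40, nat_lit 40, nat_lit 80, nat_lit 16, nat_lit 226, nat_lit 20, nat_lit 7]⟩, ⟨p108_k42, nat_lit 0, nat_lit 0, nat_lit 742, nat_lit 0, nat_lit 1135867, [nat_lit 1214192000, nat_lit 2063712000, nat_lit 3074848000], [], [nat_lit 8940443481, nat_lit 8964714400, nat_lit 9251622029, nat_lit 9268875074, nat_lit 7918251490, nat_lit 7927362776, nat_lit 8116895372, nat_lit 8120279828], nat_lit 1271250, nat_lit 1271250, nat_lit 1271250, nat_lit 1271250, nat_lit 0, nat_lit 1836250, [nat_lit 1100000, nat_lit 1785000, nat_lit 1271250],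 [nat_lit 21, nat_lit 40, nat_lit 40, nat_lit 80, nat_lit 14, nat_lit 373, nat_lit 150, nat_lit 9]⟩,
 ⟨nat_lit 2738, nat_lit 3163, ⟨.ofNat (nat_lit 760401), .ofNat (nat_lit 845735), .ofNat (nat_lit 771478), .ofNat (nat_lit 856813), .ofNat (nat_lit 755643), .ofNat (nat_lit 838329), .ofNat (nat_lit 766852), .ofNat (nat_lit 849538)⟩, ⟨.ofNat (nat_lit 100000), .ofNat (nat_lit 162054), .ofNat (nat_lit 100000), .ofNat (nat_lit 184209), .ofNat (nat_lit 100000), .ofNat (nat_lit 165893), .ofNat (nat_lit 100000), .ofNat (nat_lit 188310)⟩⟩, [⟨nat_lit 13, nat_lit 56, nat_lit 65, nat_lit 100, nat_lit 125624992⟩, ⟨nat_lit 22, nat_lit 67, nat_lit 100, nat_lit 71, nat_lit 46644356⟩]⟩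
noncomputable def p108_l158 : Lf2 := ⟨nat_lit 0, nat_lit 20, [nat_lit 5, nat_lit 5, nat_lit 5, nat_lit 20], false, nat_lit 40, nat_lit 80, nat_lit 0, nat_lit 260, ⟨nat_lit 226, nat_lit 774, nat_lit 0, nat_lit 8, nat_lit 317, nat_lit 774, nat_lit 56, nat_lit 0, nat_lit 0, nat_lit 0, nat_lit 0, nat_lit 0, nat_lit 39963814, nat_lit 25366016, nat_lit 1670170, nat_lit 3975599, true, true⟩,
 nat_lit 0, nat_lit 0, nat_lit 2750, nat_lit 0, nat_lit 2867, nat_lit 1674, nat_lit 202, nat_lit 0, nat_lit 0, nat_lit 224, nat_lit 0, nat_lit 0, nat_lit 0, nat_lit 0, nat_lit 0, nat_lit 193500, nat_lit 0, nat_lit 0, [(nat_lit 25, [(nat_lit 0, nat_lit 774)])],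
 ⟨p108_k32, nat_lit 0, nat_lit 0, nat_lit 145, nat_lit 0, nat_lit 0, [nat_lit 803324001, nat_lit 1801183200, nat_lit 3051832000], [], [nat_lit 27174994938, nat_lit 27642730180, nat_lit 29086554993, nat_lit 29508861467, nat_lit 26754968139, nat_lit 27209877036, nat_lit 28617917268, nat_lit 29029371211], nat_lit 0, nat_lit 0, nat_lit 0, nat_lit 0, nat_lit 0, nat_lit 0, [], [nat_lit 20, nat_lit 40, nat_lit 40, nat_lit 80, nat_lit 16, nat_lit 226, nat_lit 20, nat_lit 7]⟩, ⟨p108_k42, nat_lit 0, nat_lit 0, nat_lit 829, nat_lit 0, nat_lit 1305546, [nat_lit 1059488000, nat_lit 1800768000, nat_lit 2683072000], [], [nat_lit 7697961258, nat_lit 7712284920, nat_lit 8018844748, nat_lit 8094080828, nat_lit 6674924628, nat_lit 6677314704, nat_lit 6804878915, nat_lit 6807319505], nat_lit 1271250, nat_lit 1271250, nat_lit 1271250, nat_lit 1271250, nat_lit 0, nat_lit 1836250, [nat_lit 1100000, nat_lit 1785000, nat_lit 1271250],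 [nat_lit 21, nat_lit 40, nat_lit 40, nat_lit 80, nat_lit 14, nat_lit 373, nat_lit 150, nat_lit 9]⟩,
 ⟨nat_lit 2236, nat_lit 2739, ⟨.ofNat (nat_lit 755643), .ofNat (nat_lit 826517), .ofNat (nat_lit 766852), .ofNat (nat_lit 837726), .ofNat (nat_lit 750755), .ofNat (nat_lit 819174), .ofNat (nat_lit 762142), .ofNat (nat_lit 830561)⟩, ⟨.ofNat (nat_lit 100000), .ofNat (nat_lit 165893), .ofNat (nat_lit 100000), .ofNat (nat_lit 188310), .ofNat (nat_lit 100000), .ofNat (nat_lit 169532), .ofNat (nat_lit 100000), .ofNat (nat_lit 192306)⟩⟩, [⟨nat_lit 13, nat_lit 47, nat_lit 74, nat_lit 100, nat_lit 194518337⟩, ⟨nat_lit 22, nat_lit 69, nat_lit 100, nat_lit 71, nat_lit 27080896⟩]⟩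
noncomputable def b_V_900_600_10_7 : St := ⟨true, nat_lit 0, nat_lit 1, nat_lit 1, nat_lit 80, nat_lit 360, nat_lit 380, nat_lit 260, nat_lit 280, nat_lit 320, nat_lit 376, nat_lit 40, nat_lit 80, nat_lit 0, nat_lit 80, nat_lit 0, nat_lit 260, nat_lit 40, nat_lit 80, nat_lit 0, nat_lit 0, nat_lit 0, nat_lit 0⟩
theorem d_V_900_600_10_7 (h : EB TB.env) : Dead b_V_900_600_10_7 := chkB_sound0 h (T :=
(.spl (nat_lit 4) (nat_lit 40)
(.trX (nat_lit 22) (nat_lit 80) (nat_lit 100) (nat_lit 60) (nat_lit 200) (.spl (nat_lit 6) (nat_lit 60)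
(.spl (nat_lit 1) (nat_lit 270)
(.trX (nat_lit 13) (nat_lit 64) (nat_lit 58) (nat_lit 100) (nat_lit 372) (.spl (nat_lit 0) (nat_lit 370)
(.leaf p108_l140)
(.trX (nat_lit 13) (nat_lit 56) (nat_lit 65) (nat_lit 100) (nat_lit 360) (.leaf p108_l141))))
(.spl (nat_lit 0) (nat_lit 370)
(.leaf p108_l142)
(.trX (nat_lit 13) (nat_lit 57) (nat_lit 62) (nat_lit 100) (nat_lit 368) (.leaf p108_l143))))
(.spl (nat_lit 3) (nat_lit 60)
(.spl (nat_lit 1) (nat_lit 270)
(.trX (nat_lit 13) (nat_lit 64) (nat_lit 58) (nat_lit 100) (nat_lit 372) (.spl (nat_lit 0) (nat_lit 370)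
(.leaf p108_l144)
(.trX (nat_lit 13) (nat_lit 56) (nat_lit 65) (nat_lit 100) (nat_lit 360) (.leaf p108_l145))))
(.spl (nat_lit 0) (nat_lit 370)
(.leaf p108_l146)
(.trX (nat_lit 13) (nat_lit 57) (nat_lit 62) (nat_lit 100) (nat_lit 368) (.leaf p108_l147))))
(.spl (nat_lit 0) (nat_lit 370)
(.spl (nat_lit 0) (nat_lit 365)
(.leaf p108_l148)
(.trX (nat_lit 13) (nat_lit 62) (nat_lit 58) (nat_lit 100) (nat_lit 372) (.spl (nat_lit 0) (nat_lit 368)
(.leaf p108_l149)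
(.trX (nat_lit 13) (nat_lit 59) (nat_lit 60) (nat_lit 100) (nat_lit 368) (.trZ (nat_lit 3) (nat_lit 100) (nat_lit 76) (nat_lit 31) (nat_lit 4) (.leaf p108_l150))))))
(.trX (nat_lit 13) (nat_lit 57) (nat_lit 62) (nat_lit 100) (nat_lit 368) (.trZ (nat_lit 3) (nat_lit 100) (nat_lit 74) (nat_lit 33) (nat_lit 4) (.spl (nat_lit 1) (nat_lit 270)
(.trX (nat_lit 13) (nat_lit 56) (nat_lit 65) (nat_lit 100) (nat_lit 360) (.spl (nat_lit 0) (nat_lit 375)
(.leaf p108_l151)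
(.trX (nat_lit 13) (nat_lit 52) (nat_lit 69) (nat_lit 100) (nat_lit 352) (.trZ (nat_lit 3) (nat_lit 100) (nat_lit 68) (nat_lit 40) (nat_lit 8) (.leaf p108_l152)))))
(.leaf p108_l153))))))))
(.spl (nat_lit 1) (nat_lit 270)
(.trX (nat_lit 13) (nat_lit 64) (nat_lit 58) (nat_lit 100) (nat_lit 372) (.spl (nat_lit 0) (nat_lit 370)
(.leaf p108_l154)
(.trX (nat_lit 13) (nat_lit 56) (nat_lit 65) (nat_lit 100) (nat_lit 360) (.leaf p108_l155))))
(.spl (nat_lit 3) (nat_lit 60)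
(.leaf p108_l156)
(.spl (nat_lit 0) (nat_lit 370)
(.leaf p108_l157)
(.trX (nat_lit 13) (nat_lit 57) (nat_lit 62) (nat_lit 100) (nat_lit 368) (.leaf p108_l158))))))) (by decide +kernel)
noncomputable def p108_l159 : Lf2 := ⟨nat_lit 0, nat_lit 20, [nat_lit 5, nat_lit 5, nat_lit 5, nat_lit 20], true, nat_lit 0, nat_lit 80, nat_lit 0, nat_lit 260, ⟨nat_lit 0, nat_lit 1000, nat_lit 0, nat_lit 8, nat_lit 293, nat_lit 1000, nat_lit 34, nat_lit 0, nat_lit 0, nat_lit 0, nat_lit 0, nat_lit 0, nat_lit 43557728, nat_lit 23442272, nat_lit 0, nat_lit 3236875, true, true⟩,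
 nat_lit 0, nat_lit 0, nat_lit 0, nat_lit 0, nat_lit 2189, nat_lit 0, nat_lit 25, nat_lit 0, nat_lit 0, nat_lit 0, nat_lit 0, nat_lit 0, nat_lit 0, nat_lit 0, nat_lit 0, nat_lit 400000, nat_lit 0, nat_lit 0, [(nat_lit 28, [(nat_lit 1, nat_lit 1000)])],
 ⟨p108_k30, nat_lit 0, nat_lit 0, nat_lit 174, nat_lit 0, nat_lit 0, [nat_lit 697600000, nat_lit 324800000, nat_lit 138000000], [], [nat_lit 26400675193, nat_lit 27398215884, nat_lit 27179480353, nat_lit 28304110536, nat_lit 25936953181, nat_lit 26842172612, nat_lit 26680346991, nat_lit 27639460240], nat_lit 0, nat_lit 0, nat_lit 0, nat_lit 0, nat_lit 0, nat_lit 0, [], [nat_lit 20, nat_lit 40, nat_lit 40, nat_lit 80, nat_lit 16, nat_lit 226, nat_lit 20, nat_lit 7]⟩, C1.Rw.none,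
 ⟨nat_lit 0, nat_lit 2237, ⟨.ofNat (nat_lit 716590), .ofNat (nat_lit 745097), .ofNat (nat_lit 739366), .ofNat (nat_lit 767872), .ofNat (nat_lit 699995), .ofNat (nat_lit 724995), .ofNat (nat_lit 724997), .ofNat (nat_lit 749995)⟩, ⟨.ofNat (nat_lit 0), .ofNat (nat_lit 146756), .ofNat (nat_lit 0), .ofNat (nat_lit 192306), .ofNat (nat_lit 0), .ofNat (nat_lit 149997), .ofNat (nat_lit 0), .ofNat (nat_lit 199999)⟩⟩, [⟨nat_lit 13, nat_lit 46, nat_lit 76, nat_lit 100, nat_lit 389445542⟩, ⟨nat_lit 3, nat_lit 100, nat_lit 44, nat_lit 64, nat_lit 53429183⟩]⟩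
noncomputable def p108_l160 : Lf2 := ⟨nat_lit 0, nat_lit 20, [nat_lit 5, nat_lit 5, nat_lit 5, nat_lit 20], false, nat_lit 0, nat_lit 80, nat_lit 0, nat_lit 260, ⟨nat_lit 74, nat_lit 926, nat_lit 0, nat_lit 8, nat_lit 303, nat_lit 926, nat_lit 34, nat_lit 0, nat_lit 0, nat_lit 0, nat_lit 0, nat_lit 0, nat_lit 42597352, nat_lit 24402648, nat_lit 0, nat_lit 3279033, true, true⟩,
 nat_lit 0, nat_lit 0, nat_lit 1053, nat_lit 0, nat_lit 2326, nat_lit 612, nat_lit 19, nat_lit 0, nat_lit 0, nat_lit 79, nat_lit 0, nat_lit 0, nat_lit 0, nat_lit 0, nat_lit 0, nat_lit 370400, nat_lit 0, nat_lit 0, [(nat_lit 28, [(nat_lit 1, nat_lit 926)])],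
 ⟨p108_k30, nat_lit 0, nat_lit 0, nat_lit 178, nat_lit 0, nat_lit 0, [nat_lit 715389600, nat_lit 543632800, nat_lit 590288000], [], [nat_lit 27099238811, nat_lit 28035506087, nat_lit 28188095097, nat_lit 29072626580, nat_lit 26626290799, nat_lit 27513611247, nat_lit 27663641192, nat_lit 28503598730], nat_lit 0, nat_lit 0, nat_lit 0, nat_lit 0, nat_lit 0, nat_lit 0, [], [nat_lit 20, nat_lit 40, nat_lit 40, nat_lit 80, nat_lit 16, nat_lit 226, nat_lit 20, nat_lit 7]⟩, ⟨p108_k29, nat_lit 0, nat_lit 0, nat_lit 1160, nat_lit 0, nat_lit 2047493, [nat_lit 346912000, nat_lit 589632000, nat_lit 878528000], [], [nat_lit 2509963220, nat_lit 2516111906, nat_lit 2557415882, nat_lit 2575338690, nat_lit 2081544031, nat_lit 2082784348, nat_lit 2110351093, nat_lit 2114418620], nat_lit 1271250, nat_lit 1271250, nat_lit 1271250, nat_lit 1271250, nat_lit 0, nat_lit 1836250, [nat_lit 1100000, nat_lit 1785000, nat_lit 1271250],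 [nat_lit 21, nat_lit 40, nat_lit 40, nat_lit 80, nat_lit 14, nat_lit 400, nat_lit 150, nat_lit 10]⟩,
 ⟨nat_lit 0, nat_lit 2237, ⟨.ofNat (nat_lit 739366), .ofNat (nat_lit 779275), .ofNat (nat_lit 750753), .ofNat (nat_lit 790663), .ofNat (nat_lit 724997), .ofNat (nat_lit 759995), .ofNat (nat_lit 737497), .ofNat (nat_lit 772496)⟩, ⟨.ofNat (nat_lit 0), .ofNat (nat_lit 146756), .ofNat (nat_lit 0), .ofNat (nat_lit 192306), .ofNat (nat_lit 0), .ofNat (nat_lit 149997), .ofNat (nat_lit 0), .ofNat (nat_lit 199999)⟩⟩, [⟨nat_lit 13, nat_lit 33, nat_lit 84, nat_lit 100, nat_lit 72064018⟩, ⟨nat_lit 13, nat_lit 47, nat_lit 74, nat_lit 100, nat_lit 278261617⟩, ⟨nat_lit 3, nat_lit 100, nat_lit 44, nat_lit 64, nat_lit 14265268⟩, ⟨nat_lit 22, nat_lit 75, nat_lit 100, nat_lit 60, nat_lit 8966744⟩]⟩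
noncomputable def p108_l161 : Lf2 := ⟨nat_lit 0, nat_lit 20, [nat_lit 5, nat_lit 5, nat_lit 5, nat_lit 20], false, nat_lit 0, nat_lit 80, nat_lit 0, nat_lit 260, ⟨nat_lit 94, nat_lit 906, nat_lit 0, nat_lit 8, nat_lit 310, nat_lit 906, nat_lit 34, nat_lit 0, nat_lit 0, nat_lit 0, nat_lit 0, nat_lit 0, nat_lit 41809084, nat_lit 25190916, nat_lit 0, nat_lit 3310317, true, true⟩,
 nat_lit 0, nat_lit 0, nat_lit 1185, nat_lit 0, nat_lit 2191, nat_lit 721, nat_lit 62, nat_lit 0, nat_lit 0, nat_lit 93, nat_lit 0, nat_lit 0, nat_lit 0, nat_lit 0, nat_lit 0, nat_lit 362400, nat_lit 0, nat_lit 0, [(nat_lit 28, [(nat_lit 1, nat_lit 906)])],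
 ⟨p108_k30, nat_lit 0, nat_lit 0, nat_lit 173, nat_lit 0, nat_lit 0, [nat_lit 720197600, nat_lit 602776800, nat_lit 712528000], [], [nat_lit 26626791042, nat_lit 27095118998, nat_lit 27873184706, nat_lit 28311957189, nat_lit 26161596014, nat_lit 26606184694, nat_lit 27351308638, nat_lit 27780996520], nat_lit 0, nat_lit 0, nat_lit 0, nat_lit 0, nat_lit 0, nat_lit 0, [], [nat_lit 20, nat_lit 40, nat_lit 40, nat_lit 80, nat_lit 16, nat_lit 226, nat_lit 20, nat_lit 7]⟩, ⟨p108_k42, nat_lit 0, nat_lit 0, nat_lit 1032, nat_lit 0, nat_lit 1777188, [nat_lit 440672000, nat_lit 748992000, nat_lit 1115968000], [], [nat_lit 3167500596, nat_lit 3168347352, nat_lit 3246566852, nat_lit 3280944867, nat_lit 2726832771, nat_lit 2723927164, nat_lit 2739963186, nat_lit 2736255471], nat_lit 1271250, nat_lit 1271250, nat_lit 1271250, nat_lit 1271250, nat_lit 0, nat_lit 1836250, [nat_lit 1100000, nat_lit 1785000, nat_lit 1271250],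 [nat_lit 21, nat_lit 40, nat_lit 40, nat_lit 80, nat_lit 14, nat_lit 373, nat_lit 150, nat_lit 9]⟩,
 ⟨nat_lit 1581, nat_lit 2237, ⟨.ofNat (nat_lit 750755), .ofNat (nat_lit 796368), .ofNat (nat_lit 762142), .ofNat (nat_lit 807755), .ofNat (nat_lit 745508), .ofNat (nat_lit 789217), .ofNat (nat_lit 757166), .ofNat (nat_lit 800875)⟩, ⟨.ofNat (nat_lit 0), .ofNat (nat_lit 146758), .ofNat (nat_lit 0), .ofNat (nat_lit 192306), .ofNat (nat_lit 0), .ofNat (nat_lit 149571), .ofNat (nat_lit 0), .ofNat (nat_lit 196201)⟩⟩, [⟨nat_lit 13, nat_lit 41, nat_lit 77, nat_lit 100, nat_lit 267770068⟩, ⟨nat_lit 13, nat_lit 48, nat_lit 71, nat_lit 100, nat_lit 46073684⟩, ⟨nat_lit 22, nat_lit 74, nat_lit 100, nat_lit 60, nat_lit 11191565⟩]⟩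
noncomputable def p108_l162 : Lf2 := ⟨nat_lit 0, nat_lit 20, [nat_lit 5, nat_lit 5, nat_lit 5, nat_lit 20], true, nat_lit 8, nat_lit 80, nat_lit 0, nat_lit 260, ⟨nat_lit 0, nat_lit 1000, nat_lit 0, nat_lit 8, nat_lit 303, nat_lit 1000, nat_lit 39, nat_lit 0, nat_lit 0, nat_lit 0, nat_lit 0, nat_lit 0, nat_lit 41835123, nat_lit 24172208, nat_lit 992669, nat_lit 3714194, true, true⟩,
 nat_lit 0, nat_lit 0, nat_lit 0, nat_lit 0, nat_lit 2375, nat_lit 0, nat_lit 54, nat_lit 0, nat_lit 0, nat_lit 0, nat_lit 0, nat_lit 0, nat_lit 0, nat_lit 0, nat_lit 0, nat_lit 250000, nat_lit 0, nat_lit 0, [(nat_lit 28, [(nat_lit 0, nat_lit 1000)])],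
 ⟨p108_k43, nat_lit 0, nat_lit 0, nat_lit 153, nat_lit 0, nat_lit 0, [nat_lit 781600001, nat_lit 1046000001, nat_lit 1376400000], [], [nat_lit 27294158216, nat_lit 27781223403, nat_lit 27927151001, nat_lit 28509959640, nat_lit 26812609503, nat_lit 27260742753, nat_lit 27397051804, nat_lit 27862350007], nat_lit 0, nat_lit 0, nat_lit 0, nat_lit 0, nat_lit 0, nat_lit 0, [], [nat_lit 35, nat_lit 40, nat_lit 40, nat_lit 80, nat_lit 22, nat_lit 226, nat_lit 20, nat_lit 8]⟩, C1.Rw.none,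
 ⟨nat_lit 0, nat_lit 1582, ⟨.ofNat (nat_lit 745507), .ofNat (nat_lit 767360), .ofNat (nat_lit 757165), .ofNat (nat_lit 779018), .ofNat (nat_lit 737498), .ofNat (nat_lit 757496), .ofNat (nat_lit 749998), .ofNat (nat_lit 769997)⟩, ⟨.ofNat (nat_lit 20000), .ofNat (nat_lit 149570), .ofNat (nat_lit 20000), .ofNat (nat_lit 196201), .ofNat (nat_lit 20000), .ofNat (nat_lit 149998), .ofNat (nat_lit 20000), .ofNat (nat_lit 199999)⟩⟩, [⟨nat_lit 13, nat_lit 34, nat_lit 81, nat_lit 100, nat_lit 536208228⟩, ⟨nat_lit 3, nat_lit 100, nat_lit 31, nat_lit 76, nat_lit 405774177⟩]⟩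
noncomputable def b_V_900_600_10_8 : St := ⟨true, nat_lit 0, nat_lit 1, nat_lit 1, nat_lit 80, nat_lit 380, nat_lit 400, nat_lit 240, nat_lit 280, nat_lit 320, nat_lit 376, nat_lit 40, nat_lit 80, nat_lit 0, nat_lit 80, nat_lit 0, nat_lit 260, nat_lit 40, nat_lit 80, nat_lit 0, nat_lit 0, nat_lit 0, nat_lit 0⟩
theorem d_V_900_600_10_8 (h : EB TB.env) : Dead b_V_900_600_10_8 := chkB_sound0 h (T :=
(.trX (nat_lit 13) (nat_lit 48) (nat_lit 71) (nat_lit 100) (nat_lit 352) (.spl (nat_lit 1) (nat_lit 260)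
(.trX (nat_lit 13) (nat_lit 46) (nat_lit 76) (nat_lit 100) (nat_lit 340) (.leaf p108_l159))
(.spl (nat_lit 1) (nat_lit 270)
(.trX (nat_lit 13) (nat_lit 47) (nat_lit 74) (nat_lit 100) (nat_lit 348) (.leaf p108_l160))
(.spl (nat_lit 0) (nat_lit 390)
(.leaf p108_l161)
(.trX (nat_lit 13) (nat_lit 34) (nat_lit 81) (nat_lit 100) (nat_lit 336) (.trZ (nat_lit 3) (nat_lit 100) (nat_lit 52) (nat_lit 53) (nat_lit 8) (.leaf p108_l162)))))))) (by decide +kernel)

end B2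
end Pool.Agent.Lib.MP_6947cd_al
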