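import Pool.Agent.Lib.MP_6947cd_al.ZB.Pre

/-!
Problem MP_6947cd_al (Chollet).  Case B, second entry in [2/5, 17/20]: certificates of the tree, part P109 (generated).
-/

set_option autoImplicit false
set_option linter.all false

namespace Pool.Agent.Lib.MP_6947cd_al
namespace B2

open Ent Fr B1 PkA

noncomputable def p109_k0 : C1.Kn := ⟨[nat_lit 20, nat_lit 100], [nat_lit 0, nat_lit 0], [(nat_lit 0, nat_lit 0, nat_lit 0), (nat_lit 0, nat_lit 0, nat_lit 0)], (nat_lit 60, nat_lit 100, nat_lit 80)⟩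
noncomputable def p109_k1 : C1.Kn := ⟨[nat_lit 20, nat_lit 60, nat_lit 100], [nat_lit 0, nat_lit 0, nat_lit 2559], [(nat_lit 0, nat_lit 0, nat_lit 0), (nat_lit 0, nat_lit 0, nat_lit 0), (nat_lit 1000, nat_lit 600, nat_lit 787)], (nat_lit 60, nat_lit 100, nat_lit 80)⟩
noncomputable def p109_k2 : C1.Kn := ⟨[nat_lit 20, nat_lit 100], [nat_lit 0, nat_lit 2826], [(nat_lit 0, nat_lit 0, nat_lit 0), (nat_lit 1000, nat_lit 558, nat_lit 551)], (nat_lit 44, nat_lit 100, nat_lit 82)⟩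
noncomputable def p109_k3 : C1.Kn := ⟨[nat_lit 80, nat_lit 120, nat_lit 180], [nat_lit 0, nat_lit 264, nat_lit 3394], [(nat_lit 0, nat_lit 0, nat_lit 0), (nat_lit 1000, nat_lit 979, nat_lit 103), (nat_lit 893, nat_lit 1000, nat_lit 726)], (nat_lit 100, nat_lit 81, nat_lit 83)⟩
noncomputable def p109_k4 : C1.Kn := ⟨[nat_lit 80, nat_lit 120, nat_lit 160], [nat_lit 0, nat_lit 528, nat_lit 2577], [(nat_lit 0, nat_lit 0, nat_lit 0), (nat_lit 1000, nat_lit 959, nat_lit 206), (nat_lit 929, nat_lit 1000, nat_lit 742)], (nat_lit 100, nat_lit 85, nat_lit 84)⟩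
noncomputable def p109_k5 : C1.Kn := ⟨[nat_lit 80, nat_lit 120, nat_lit 160], [nat_lit 0, nat_lit 796, nat_lit 2802], [(nat_lit 0, nat_lit 0, nat_lit 0), (nat_lit 1000, nat_lit 938, nat_lit 310), (nat_lit 969, nat_lit 1000, nat_lit 759)], (nat_lit 100, nat_lit 90, nat_lit 85)⟩
noncomputable def p109_k6 : C1.Kn := ⟨[nat_lit 20, nat_lit 60, nat_lit 100], [nat_lit 0, nat_lit 698, nat_lit 3028], [(nat_lit 0, nat_lit 0, nat_lit 0), (nat_lit 1000, nat_lit 782, nat_lit 272), (nat_lit 1000, nat_lit 527, nat_lit 841)], (nat_lit 53, nat_lit 100, nat_lit 80)⟩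
noncomputable def p109_k7 : C1.Kn := ⟨[nat_lit 80, nat_lit 120, nat_lit 160], [nat_lit 0, nat_lit 929, nat_lit 2912], [(nat_lit 0, nat_lit 0, nat_lit 0), (nat_lit 1000, nat_lit 927, nat_lit 362), (nat_lit 991, nat_lit 1000, nat_lit 767)], (nat_lit 100, nat_lit 92, nat_lit 86)⟩
noncomputable def p109_k8 : C1.Kn := ⟨[nat_lit 80, nat_lit 120, nat_lit 160], [nat_lit 0, nat_lit 664, nat_lit 2688], [(nat_lit 0, nat_lit 0, nat_lit 0), (nat_lit 1000, nat_lit 948, nat_lit 259), (nat_lit 949, nat_lit 1000, nat_lit 749)], (nat_lit 100, nat_lit 87, nat_lit 85)⟩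
noncomputable def p109_k9 : C1.Kn := ⟨[nat_lit 20, nat_lit 60, nat_lit 100], [nat_lit 0, nat_lit 1415, nat_lit 3591], [(nat_lit 0, nat_lit 0, nat_lit 0), (nat_lit 1000, nat_lit 558, nat_lit 551), (nat_lit 1000, nat_lit 439, nat_lit 849)], (nat_lit 44, nat_lit 100, nat_lit 82)⟩
noncomputable def p109_k10 : C1.Kn := ⟨[nat_lit 80, nat_lit 120, nat_lit 180], [nat_lit 0, nat_lit 0, nat_lit 3196], [(nat_lit 0, nat_lit 0, nat_lit 0), (nat_lit 0, nat_lit 0, nat_lit 0), (nat_lit 858, nat_lit 1000, nat_lit 713)], (nat_lit 100, nat_lit 76, nat_lit 82)⟩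
noncomputable def p109_k11 : C1.Kn := ⟨[nat_lit 80, nat_lit 180], [nat_lit 0, nat_lit 0], [(nat_lit 0, nat_lit 0, nat_lit 0), (nat_lit 0, nat_lit 0, nat_lit 0)], (nat_lit 100, nat_lit 76, nat_lit 82)⟩
noncomputable def p109_k12 : C1.Kn := ⟨[nat_lit 20, nat_lit 60, nat_lit 100], [nat_lit 0, nat_lit 0, nat_lit 2559], [(nat_lit 0, nat_lit 0, nat_lit 0), (nat_lit 0, nat_lit 0, nat_lit 0), (nat_lit 1000, nat_lit 600, nat_lit 787)], (nat_lit 61, nat_lit 100, nat_lit 72)⟩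
noncomputable def p109_k13 : C1.Kn := ⟨[nat_lit 80, nat_lit 120, nat_lit 160], [nat_lit 0, nat_lit 0, nat_lit 2132], [(nat_lit 0, nat_lit 0, nat_lit 0), (nat_lit 0, nat_lit 0, nat_lit 0), (nat_lit 858, nat_lit 1000, nat_lit 713)], (nat_lit 100, nat_lit 85, nat_lit 73)⟩
noncomputable def p109_k14 : C1.Kn := ⟨[nat_lit 80, nat_lit 120, nat_lit 160], [nat_lit 0, nat_lit 528, nat_lit 2577], [(nat_lit 0, nat_lit 0, nat_lit 0), (nat_lit 1000, nat_lit 959, nat_lit 206), (nat_lit 929, nat_lit 1000, nat_lit 742)], (nat_lit 100, nat_lit 92, nat_lit 75)⟩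
noncomputable def p109_k15 : C1.Kn := ⟨[nat_lit 20, nat_lit 60, nat_lit 80], [nat_lit 0, nat_lit 2136, nat_lit 3185], [(nat_lit 0, nat_lit 0, nat_lit 0), (nat_lit 1000, nat_lit 343, nat_lit 808), (nat_lit 1000, nat_lit 338, nat_lit 820)], (nat_lit 33, nat_lit 100, nat_lit 84)⟩
noncomputable def p109_k16 : C1.Kn := ⟨[nat_lit 20, nat_lit 60, nat_lit 80], [nat_lit 0, nat_lit 1415, nat_lit 2514], [(nat_lit 0, nat_lit 0, nat_lit 0), (nat_lit 1000, nat_lit 558, nat_lit 551), (nat_lit 1000, nat_lit 446, nat_lit 804)], (nat_lit 46, nat_lit 100, nat_lit 75)⟩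
noncomputable def p109_k17 : C1.Kn := ⟨[nat_lit 20, nat_lit 60, nat_lit 80], [nat_lit 0, nat_lit 1776, nat_lit 2828], [(nat_lit 0, nat_lit 0, nat_lit 0), (nat_lit 1000, nat_lit 445, nat_lit 693), (nat_lit 1000, nat_lit 394, nat_lit 822)], (nat_lit 39, nat_lit 100, nat_lit 83)⟩
noncomputable def p109_k18 : C1.Kn := ⟨[nat_lit 80, nat_lit 120, nat_lit 160], [nat_lit 0, nat_lit 264, nat_lit 2353], [(nat_lit 0, nat_lit 0, nat_lit 0), (nat_lit 1000, nat_lit 979, nat_lit 103), (nat_lit 893, nat_lit 1000, nat_lit 726)], (nat_lit 100, nat_lit 88, nat_lit 74)⟩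
noncomputable def p109_k19 : C1.Kn := ⟨[nat_lit 20, nat_lit 60, nat_lit 100], [nat_lit 0, nat_lit 339, nat_lit 2783], [(nat_lit 0, nat_lit 0, nat_lit 0), (nat_lit 1000, nat_lit 894, nat_lit 132), (nat_lit 1000, nat_lit 565, nat_lit 820)], (nat_lit 57, nat_lit 100, nat_lit 73)⟩
noncomputable def p109_k20 : C1.Kn := ⟨[nat_lit 20, nat_lit 60, nat_lit 80], [nat_lit 0, nat_lit 698, nat_lit 2008], [(nat_lit 0, nat_lit 0, nat_lit 0), (nat_lit 1000, nat_lit 782, nat_lit 272), (nat_lit 1000, nat_lit 540, nat_lit 733)], (nat_lit 54, nat_lit 100, nat_lit 73)⟩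
noncomputable def p109_k21 : C1.Kn := ⟨[nat_lit 20, nat_lit 60, nat_lit 100], [nat_lit 0, nat_lit 1056, nat_lit 3301], [(nat_lit 0, nat_lit 0, nat_lit 0), (nat_lit 1000, nat_lit 671, nat_lit 411), (nat_lit 1000, nat_lit 484, nat_lit 867)], (nat_lit 49, nat_lit 100, nat_lit 81)⟩
noncomputable def p109_k22 : C1.Kn := ⟨[nat_lit 20, nat_lit 60, nat_lit 80], [nat_lit 0, nat_lit 1056, nat_lit 2244], [(nat_lit 0, nat_lit 0, nat_lit 0), (nat_lit 1000, nat_lit 671, nat_lit 411), (nat_lit 1000, nat_lit 495, nat_lit 771)], (nat_lit 50, nat_lit 100, nat_lit 74)⟩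
noncomputable def p109_k23 : C1.Kn := ⟨[nat_lit 20, nat_lit 80, nat_lit 100], [nat_lit 0, nat_lit 2121, nat_lit 3610], [(nat_lit 0, nat_lit 0, nat_lit 0), (nat_lit 1000, nat_lit 558, nat_lit 551), (nat_lit 1000, nat_lit 436, nat_lit 895)], (nat_lit 44, nat_lit 100, nat_lit 82)⟩
noncomputable def p109_k24 : C1.Kn := ⟨[nat_lit 80, nat_lit 140, nat_lit 180], [nat_lit 0, nat_lit 0, nat_lit 3656], [(nat_lit 0, nat_lit 0, nat_lit 0), (nat_lit 0, nat_lit 0, nat_lit 0), (nat_lit 637, nat_lit 1000, nat_lit 908)], (nat_lit 100, nat_lit 76, nat_lit 82)⟩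
noncomputable def p109_k25 : C1.Kn := ⟨[nat_lit 20, nat_lit 80, nat_lit 100], [nat_lit 0, nat_lit 0, nat_lit 2559], [(nat_lit 0, nat_lit 0, nat_lit 0), (nat_lit 0, nat_lit 0, nat_lit 0), (nat_lit 1000, nat_lit 600, nat_lit 787)], (nat_lit 60, nat_lit 100, nat_lit 80)⟩
noncomputable def p109_l0 : Lf2 := ⟨nat_lit 0, nat_lit 20, [nat_lit 5, nat_lit 5, nat_lit 5, nat_lit 20], true, nat_lit 80, nat_lit 200, nat_lit 0, nat_lit 336, ⟨nat_lit 0, nat_lit 1000, nat_lit 0, nat_lit 6, nat_lit 261, nat_lit 1000, nat_lit 101, nat_lit 0, nat_lit 0, nat_lit 0, nat_lit 0, nat_lit 0, nat_lit 43476567, nat_lit 19225748, nat_lit 4297685, nat_lit 4315875, true, false⟩,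
 nat_lit 0, nat_lit 0, nat_lit 0, nat_lit 0, nat_lit 4342, nat_lit 0, nat_lit 0, nat_lit 0, nat_lit 0, nat_lit 0, nat_lit 0, nat_lit 0, nat_lit 0, nat_lit 0, nat_lit 0, nat_lit 250000, nat_lit 0, nat_lit 0, [(nat_lit 25, [(nat_lit 0, nat_lit 1000)]), (nat_lit 28, [(nat_lit 0, nat_lit 1000)])],
 ⟨p109_k0, nat_lit 0, nat_lit 0, nat_lit 106, nat_lit 0, nat_lit 0, [nat_lit 781600001, nat_lit 2118000000], [], [nat_lit 23090368528, nat_lit 26183481392, nat_lit 24722766736, nat_lit 27856740416, nat_lit 24188515316, nat_lit 26814573284, nat_lit 25558500992, nat_lit 28239494924], nat_lit 0, nat_lit 0, nat_lit 0, nat_lit 0, nat_lit 0, nat_lit 0, [], [nat_lit 88, nat_lit 40, nat_lit 40, nat_lit 80, nat_lit 89, nat_lit 260, nat_lit 50, nat_lit 8]⟩, C1.Rw.none,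
 ⟨nat_lit 0, nat_lit 3163, ⟨.ofNat (nat_lit 605128), .ofNat (nat_lit 666215), .ofNat (nat_lit 646918), .ofNat (nat_lit 710256), .ofNat (nat_lit 599865), .ofNat (nat_lit 649999), .ofNat (nat_lit 647345), .ofNat (nat_lit 699730)⟩, ⟨.ofNat (nat_lit 139898), .ofNat (nat_lit 322753), .ofNat (nat_lit 184209), .ofNat (nat_lit 367065), .ofNat (nat_lit 149998), .ofNat (nat_lit 299993), .ofNat (nat_lit 199999), .ofNat (nat_lit 349995)⟩⟩, [⟨nat_lit 16, nat_lit 60, nat_lit 100, nat_lit 80, nat_lit 86082600⟩]⟩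
noncomputable def p109_l1 : Lf2 := ⟨nat_lit 0, nat_lit 20, [nat_lit 5, nat_lit 5, nat_lit 5, nat_lit 20], true, nat_lit 80, nat_lit 200, nat_lit 0, nat_lit 336, ⟨nat_lit 0, nat_lit 1000, nat_lit 0, nat_lit 7, nat_lit 286, nat_lit 1000, nat_lit 102, nat_lit 0, nat_lit 0, nat_lit 0, nat_lit 0, nat_lit 0, nat_lit 41163244, nat_lit 21609406, nat_lit 4227350, nat_lit 4436740, true, true⟩,
 nat_lit 0, nat_lit 0, nat_lit 0, nat_lit 0, nat_lit 4142, nat_lit 0, nat_lit 0, nat_lit 0, nat_lit 0, nat_lit 0, nat_lit 0, nat_lit 0, nat_lit 0, nat_lit 0, nat_lit 0, nat_lit 250000, nat_lit 0, nat_lit 0, [(nat_lit 25, [(nat_lit 0, nat_lit 1000)])],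
 ⟨p109_k1, nat_lit 0, nat_lit 0, nat_lit 108, nat_lit 0, nat_lit 0, [nat_lit 764000001, nat_lit 1368800000, nat_lit 2118000000], [], [nat_lit 24760365136, nat_lit 26103451992, nat_lit 26612136224, nat_lit 27986434064, nat_lit 25673385792, nat_lit 26816246560, nat_lit 27243454052, nat_lit 28413084218], nat_lit 0, nat_lit 0, nat_lit 0, nat_lit 0, nat_lit 0, nat_lit 0, [], [nat_lit 20, nat_lit 40, nat_lit 40, nat_lit 80, nat_lit 16, nat_lit 260, nat_lit 50, nat_lit 8]⟩, C1.Rw.none,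
 ⟨nat_lit 2236, nat_lit 3163, ⟨.ofNat (nat_lit 666215), .ofNat (nat_lit 727168), .ofNat (nat_lit 710480), .ofNat (nat_lit 771478), .ofNat (nat_lit 659578), .ofNat (nat_lit 716594), .ofNat (nat_lit 705082), .ofNat (nat_lit 762142)⟩, ⟨.ofNat (nat_lit 139899), .ofNat (nat_lit 322759), .ofNat (nat_lit 184209), .ofNat (nat_lit 367069), .ofNat (nat_lit 146758), .ofNat (nat_lit 317804), .ofNat (nat_lit 192306), .ofNat (nat_lit 363353)⟩⟩, [⟨nat_lit 16, nat_lit 60, nat_lit 100, nat_lit 80, nat_lit 70241308⟩]⟩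
noncomputable def p109_l2 : Lf2 := ⟨nat_lit 0, nat_lit 20, [nat_lit 5, nat_lit 5, nat_lit 5, nat_lit 20], true, nat_lit 80, nat_lit 164, nat_lit 0, nat_lit 336, ⟨nat_lit 0, nat_lit 1000, nat_lit 0, nat_lit 7, nat_lit 282, nat_lit 1000, nat_lit 91, nat_lit 0, nat_lit 0, nat_lit 0, nat_lit 0, nat_lit 0, nat_lit 41965293, nat_lit 21401970, nat_lit 3632737, nat_lit 4299968, true, true⟩,
 nat_lit 0, nat_lit 0, nat_lit 0, nat_lit 0, nat_lit 2723, nat_lit 0, nat_lit 0, nat_lit 0, nat_lit 0, nat_lit 0, nat_lit 0, nat_lit 0, nat_lit 0, nat_lit 0, nat_lit 0, nat_lit 393100, nat_lit 0, nat_lit 0, [(nat_lit 28, [(nat_lit 0, nat_lit 46), (nat_lit 1, nat_lit 954)])],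
 ⟨p109_k2, nat_lit 0, nat_lit 0, nat_lit 112, nat_lit 0, nat_lit 0, [nat_lit 701464001, nat_lit 203430400], [], [nat_lit 24220560148, nat_lit 25334260704, nat_lit 25797496016, nat_lit 27036530068, nat_lit 24918121353, nat_lit 25862768687, nat_lit 26250260428, nat_lit 27377299183], nat_lit 0, nat_lit 0, nat_lit 0, nat_lit 0, nat_lit 0, nat_lit 0, [], [nat_lit 88, nat_lit 40, nat_lit 40, nat_lit 80, nat_lit 89, nat_lit 260, nat_lit 50, nat_lit 8]⟩, C1.Rw.none,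
 ⟨nat_lit 0, nat_lit 2237, ⟨.ofNat (nat_lit 659577), .ofNat (nat_lit 716590), .ofNat (nat_lit 705063), .ofNat (nat_lit 762141), .ofNat (nat_lit 649998), .ofNat (nat_lit 699995), .ofNat (nat_lit 699935), .ofNat (nat_lit 749998)⟩, ⟨.ofNat (nat_lit 146756), .ofNat (nat_lit 266484), .ofNat (nat_lit 192306), .ofNat (nat_lit 312035), .ofNat (nat_lit 149997), .ofNat (nat_lit 254993), .ofNat (nat_lit 199999), .ofNat (nat_lit 304995)⟩⟩, [⟨nat_lit 16, nat_lit 44, nat_lit 100, nat_lit 82, nat_lit 124273051⟩]⟩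
noncomputable def p109_l3 : Lf2 := ⟨nat_lit 0, nat_lit 20, [nat_lit 5, nat_lit 5, nat_lit 5, nat_lit 20], true, nat_lit 80, nat_lit 160, nat_lit 0, nat_lit 336, ⟨nat_lit 0, nat_lit 1000, nat_lit 0, nat_lit 8, nat_lit 306, nat_lit 1000, nat_lit 90, nat_lit 0, nat_lit 0, nat_lit 0, nat_lit 0, nat_lit 0, nat_lit 39820369, nat_lit 23748124, nat_lit 3431507, nat_lit 4363115, true, true⟩,
 nat_lit 0, nat_lit 0, nat_lit 0, nat_lit 0, nat_lit 3894, nat_lit 0, nat_lit 0, nat_lit 0, nat_lit 0, nat_lit 0, nat_lit 0, nat_lit 0, nat_lit 0, nat_lit 0, nat_lit 0, nat_lit 250000, nat_lit 0, nat_lit 0, [(nat_lit 25, [(nat_lit 0, nat_lit 1000)])],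
 ⟨p109_k1, nat_lit 0, nat_lit 0, nat_lit 120, nat_lit 0, nat_lit 0, [nat_lit 764000001, nat_lit 1368800000, nat_lit 2118000000], [], [nat_lit 26616830368, nat_lit 27806462708, nat_lit 28848115646, nat_lit 30146990862, nat_lit 26692399840, nat_lit 27774983896, nat_lit 28710542677, nat_lit 29774294768], nat_lit 0, nat_lit 0, nat_lit 0, nat_lit 0, nat_lit 0, nat_lit 0, [], [nat_lit 20, nat_lit 40, nat_lit 40, nat_lit 80, nat_lit 16, nat_lit 249, nat_lit 40, nat_lit 8]⟩, C1.Rw.none,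
 ⟨nat_lit 2236, nat_lit 3163, ⟨.ofNat (nat_lit 727168), .ofNat (nat_lit 794217), .ofNat (nat_lit 749323), .ofNat (nat_lit 816372), .ofNat (nat_lit 716594), .ofNat (nat_lit 779311), .ofNat (nat_lit 739368), .ofNat (nat_lit 802085)⟩, ⟨.ofNat (nat_lit 139899), .ofNat (nat_lit 261806), .ofNat (nat_lit 184209), .ofNat (nat_lit 306116), .ofNat (nat_lit 146758), .ofNat (nat_lit 260789), .ofNat (nat_lit 192306), .ofNat (nat_lit 306337)⟩⟩, [⟨nat_lit 13, nat_lit 63, nat_lit 61, nat_lit 100, nat_lit 331829186⟩]⟩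
noncomputable def p109_l4 : Lf2 := ⟨nat_lit 0, nat_lit 20, [nat_lit 5, nat_lit 5, nat_lit 5, nat_lit 20], true, nat_lit 160, nat_lit 200, nat_lit 16, nat_lit 336, ⟨nat_lit 0, nat_lit 1000, nat_lit 0, nat_lit 8, nat_lit 303, nat_lit 1000, nat_lit 125, nat_lit 0, nat_lit 0, nat_lit 0, nat_lit 0, nat_lit 0, nat_lit 38641333, nat_lit 22773970, nat_lit 5584697, nat_lit 4745626, true, true⟩,
 nat_lit 0, nat_lit 0, nat_lit 0, nat_lit 0, nat_lit 3944, nat_lit 0, nat_lit 0, nat_lit 0, nat_lit 0, nat_lit 0, nat_lit 0, nat_lit 0, nat_lit 0, nat_lit 0, nat_lit 0, nat_lit 250000, nat_lit 0, nat_lit 0, [(nat_lit 25, [(nat_lit 0, nat_lit 1000)])],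
 ⟨p109_k0, nat_lit 0, nat_lit 0, nat_lit 90, nat_lit 0, nat_lit 0, [nat_lit 764000001, nat_lit 2118000000], [], [nat_lit 26672567840, nat_lit 27761398096, nat_lit 28502981568, nat_lit 29613369552, nat_lit 27333028064, nat_lit 28357613592, nat_lit 29052414544, nat_lit 30185329184], nat_lit 0, nat_lit 0, nat_lit 0, nat_lit 0, nat_lit 0, nat_lit 0, [], [nat_lit 88, nat_lit 40, nat_lit 40, nat_lit 80, nat_lit 89, nat_lit 260, nat_lit 50, nat_lit 8]⟩, C1.Rw.none,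
 ⟨nat_lit 2236, nat_lit 3163, ⟨.ofNat (nat_lit 727168), .ofNat (nat_lit 788122), .ofNat (nat_lit 738246), .ofNat (nat_lit 799199), .ofNat (nat_lit 716594), .ofNat (nat_lit 773609), .ofNat (nat_lit 727981), .ofNat (nat_lit 784996)⟩, ⟨.ofNat (nat_lit 261806), .ofNat (nat_lit 322759), .ofNat (nat_lit 306116), .ofNat (nat_lit 367069), .ofNat (nat_lit 260789), .ofNat (nat_lit 317804), .ofNat (nat_lit 306337), .ofNat (nat_lit 363353)⟩⟩, [⟨nat_lit 13, nat_lit 62, nat_lit 65, nat_lit 100, nat_lit 319017064⟩, ⟨nat_lit 16, nat_lit 60, nat_lit 100, nat_lit 80, nat_lit 178289203⟩]⟩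
noncomputable def p109_l5 : Lf2 := ⟨nat_lit 0, nat_lit 20, [nat_lit 5, nat_lit 5, nat_lit 5, nat_lit 20], false, nat_lit 160, nat_lit 200, nat_lit 16, nat_lit 328, ⟨nat_lit 99, nat_lit 901, nat_lit 0, nat_lit 8, nat_lit 308, nat_lit 901, nat_lit 125, nat_lit 0, nat_lit 0, nat_lit 0, nat_lit 0, nat_lit 0, nat_lit 38167345, nat_lit 23294607, nat_lit 5538048, nat_lit 4758455, true, true⟩,
 nat_lit 0, nat_lit 0, nat_lit 1529, nat_lit 0, nat_lit 4103, nat_lit 849, nat_lit 0, nat_lit 0, nat_lit 0, nat_lit 89, nat_lit 0, nat_lit 0, nat_lit 0, nat_lit 0, nat_lit 0, nat_lit 225250, nat_lit 0, nat_lit 0, [(nat_lit 25, [(nat_lit 0, nat_lit 901)])],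
 ⟨p109_k1, nat_lit 0, nat_lit 0, nat_lit 88, nat_lit 0, nat_lit 0, [nat_lit 781226000, nat_lit 1558206800, nat_lit 2527068000], [], [nat_lit 27018570080, nat_lit 28127263252, nat_lit 29078681622, nat_lit 30074162304, nat_lit 27670165418, nat_lit 28712747679, nat_lit 29604338983, nat_lit 30599525100], nat_lit 0, nat_lit 0, nat_lit 0, nat_lit 0, nat_lit 0, nat_lit 0, [], [nat_lit 20, nat_lit 40, nat_lit 40, nat_lit 80, nat_lit 16, nat_lit 260, nat_lit 50, nat_lit 8]⟩, ⟨p109_k3, nat_lit 0, nat_lit 0, nat_lit 1044, nat_lit 0, nat_lit 1691161, [nat_lit 464112000, nat_lit 788832000, nat_lit 1391742000], [], [nat_lit 3856349052, nat_lit 3853667025, nat_lit 3894292393, nat_lit 3889914015, nat_lit 3258349840, nat_lit 3250097496, nat_lit 3277949145, nat_lit 3291243683], nat_lit 1271250, nat_lit 1271250, nat_lit 1271250, nat_lit 1271250, nat_lit 88400, nat_lit 2338700, [nat_lit 1100000, nat_lit 1785000, nat_lit 1271250], [nat_lit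 37, nat_lit 40, nat_lit 40, nat_lit 80, nat_lit 28, nat_lit 483, nat_lit 250, nat_lit 11]⟩,
 ⟨nat_lit 2236, nat_lit 3163, ⟨.ofNat (nat_lit 738246), .ofNat (nat_lit 805295), .ofNat (nat_lit 749323), .ofNat (nat_lit 816372), .ofNat (nat_lit 727981), .ofNat (nat_lit 790698), .ofNat (nat_lit 739368), .ofNat (nat_lit 802085)⟩, ⟨.ofNat (nat_lit 261806), .ofNat (nat_lit 322759), .ofNat (nat_lit 306116), .ofNat (nat_lit 367069), .ofNat (nat_lit 260789), .ofNat (nat_lit 317804), .ofNat (nat_lit 306337), .ofNat (nat_lit 363353)⟩⟩, [⟨nat_lit 13, nat_lit 55, nat_lit 70, nat_lit 100, nat_lit 194707222⟩, ⟨nat_lit 13, nat_lit 63, nat_lit 61, nat_lit 100, nat_lit 93946174⟩, ⟨nat_lit 16, nat_lit 60, nat_lit 100, nat_lit 80, nat_lit 210091471⟩, ⟨nat_lit 19, nat_lit 100, nat_lit 81, nat_lit 83, nat_lit 11188202⟩]⟩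
noncomputable def p109_l6 : Lf2 := ⟨nat_lit 0, nat_lit 20, [nat_lit 5, nat_lit 5, nat_lit 5, nat_lit 20], false, nat_lit 80, nat_lit 160, nat_lit 0, nat_lit 320, ⟨nat_lit 61, nat_lit 939, nat_lit 0, nat_lit 8, nat_lit 315, nat_lit 939, nat_lit 90, nat_lit 0, nat_lit 0, nat_lit 0, nat_lit 0, nat_lit 0, nat_lit 39004567, nat_lit 24609896, nat_lit 3385537, nat_lit 4385348, true, true⟩,
 nat_lit 0, nat_lit 0, nat_lit 834, nat_lit 0, nat_lit 3911, nat_lit 485, nat_lit 0, nat_lit 0, nat_lit 0, nat_lit 50, nat_lit 0, nat_lit 0, nat_lit 0, nat_lit 0, nat_lit 0, nat_lit 234750, nat_lit 0, nat_lit 0, [(nat_lit 25, [(nat_lit 0, nat_lit 939)])],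
 ⟨p109_k1, nat_lit 0, nat_lit 0, nat_lit 122, nat_lit 0, nat_lit 0, [nat_lit 774614001, nat_lit 1485505201, nat_lit 2370052000], [], [nat_lit 26868560592, nat_lit 28060642802, nat_lit 29519792032, nat_lit 30674906861, nat_lit 26937708960, nat_lit 28022416724, nat_lit 29353405574, nat_lit 30309189204], nat_lit 0, nat_lit 0, nat_lit 0, nat_lit 0, nat_lit 0, nat_lit 0, [], [nat_lit 20, nat_lit 40, nat_lit 40, nat_lit 80, nat_lit 16, nat_lit 249, nat_lit 40, nat_lit 8]⟩, ⟨p109_k4, nat_lit 0, nat_lit 0, nat_lit 980, nat_lit 0, nat_lit 1637579, [nat_lit 285968000, nat_lit 486048000, nat_lit 724192000], [], [nat_lit 2276363026, nat_lit 2281655671, nat_lit 2351789326, nat_lit 2355065502, nat_lit 1962095470, nat_lit 1962037981, nat_lit 2003812462, nat_lit 2019805362], nat_lit 1271250, nat_lit 1271250, nat_lit 1271250, nat_lit 1271250, nat_lit 0, nat_lit 2260000, [nat_lit 1100000, nat_lit 1785000, nat_lit 1271250], [nat_lit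 21, nat_lit 40, nat_lit 40, nat_lit 80, nat_lit 14, nat_lit 373, nat_lit 150, nat_lit 9]⟩,
 ⟨nat_lit 2236, nat_lit 3163, ⟨.ofNat (nat_lit 749323), .ofNat (nat_lit 828563), .ofNat (nat_lit 760401), .ofNat (nat_lit 839640), .ofNat (nat_lit 739368), .ofNat (nat_lit 813488), .ofNat (nat_lit 750755), .ofNat (nat_lit 824875)⟩, ⟨.ofNat (nat_lit 139899), .ofNat (nat_lit 261806), .ofNat (nat_lit 184209), .ofNat (nat_lit 306116), .ofNat (nat_lit 146758), .ofNat (nat_lit 260789), .ofNat (nat_lit 192306), .ofNat (nat_lit 306337)⟩⟩, [⟨nat_lit 13, nat_lit 56, nat_lit 67, nat_lit 100, nat_lit 295609950⟩, ⟨nat_lit 13, nat_lit 64, nat_lit 58, nat_lit 100, nat_lit 24255658⟩, ⟨nat_lit 22, nat_lit 73, nat_lit 100, nat_lit 97, nat_lit 8253996⟩]⟩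
noncomputable def p109_l7 : Lf2 := ⟨nat_lit 0, nat_lit 20, [nat_lit 5, nat_lit 5, nat_lit 5, nat_lit 20], false, nat_lit 80, nat_lit 160, nat_lit 0, nat_lit 308, ⟨nat_lit 75, nat_lit 925, nat_lit 0, nat_lit 8, nat_lit 317, nat_lit 925, nat_lit 90, nat_lit 0, nat_lit 0, nat_lit 0, nat_lit 0, nat_lit 0, nat_lit 38828044, nat_lit 24814746, nat_lit 3357210, nat_lit 4386200, true, true⟩,
 nat_lit 0, nat_lit 0, nat_lit 905, nat_lit 0, nat_lit 4047, nat_lit 551, nat_lit 0, nat_lit 0, nat_lit 0, nat_lit 66, nat_lit 0, nat_lit 0, nat_lit 0, nat_lit 0, nat_lit 0, nat_lit 231250, nat_lit 0, nat_lit 0, [(nat_lit 25, [(nat_lit 0, nat_lit 925)])],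
 ⟨p109_k1, nat_lit 0, nat_lit 0, nat_lit 115, nat_lit 0, nat_lit 0, [nat_lit 777050001, nat_lit 1512290000, nat_lit 2427900000], [], [nat_lit 26923834384, nat_lit 27529674969, nat_lit 28956094600, nat_lit 29505169051, nat_lit 26941613920, nat_lit 27492462634, nat_lit 28790527684, nat_lit 29290409120], nat_lit 0, nat_lit 0, nat_lit 0, nat_lit 0, nat_lit 0, nat_lit 0, [], [nat_lit 20, nat_lit 40, nat_lit 40, nat_lit 80, nat_lit 16, nat_lit 249, nat_lit 40, nat_lit 8]⟩, ⟨p109_k5, nat_lit 0, nat_lit 0, nat_lit 872, nat_lit 0, nat_lit 1417006, [nat_lit 351600000, nat_lit 597600000, nat_lit 890400000], [], [nat_lit 2709803464, nat_lit 2712708716, nat_lit 2750267332, nat_lit 2751936204, nat_lit 2375479067, nat_lit 2374019688, nat_lit 2393467159, nat_lit 2391142414], nat_lit 1271250, nat_lit 1271250, nat_lit 1271250, nat_lit 1271250, nat_lit 0, nat_lit 2175250, [nat_lit 1100000, nat_lit 1785000, nat_lit 1271250], [nat_lit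 21, nat_lit 40, nat_lit 40, nat_lit 80, nat_lit 14, nat_lit 373, nat_lit 150, nat_lit 9]⟩,
 ⟨nat_lit 2738, nat_lit 3163, ⟨.ofNat (nat_lit 760401), .ofNat (nat_lit 821354), .ofNat (nat_lit 771478), .ofNat (nat_lit 832432), .ofNat (nat_lit 755643), .ofNat (nat_lit 814705), .ofNat (nat_lit 766852), .ofNat (nat_lit 825913)⟩, ⟨.ofNat (nat_lit 139899), .ofNat (nat_lit 261806), .ofNat (nat_lit 184209), .ofNat (nat_lit 306116), .ofNat (nat_lit 143475), .ofNat (nat_lit 261598), .ofNat (nat_lit 188310), .ofNat (nat_lit 306433)⟩⟩, [⟨nat_lit 7, nat_lit 99, nat_lit 100, nat_lit 77, nat_lit 10019186⟩]⟩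
noncomputable def p109_l8 : Lf2 := ⟨nat_lit 0, nat_lit 20, [nat_lit 5, nat_lit 5, nat_lit 5, nat_lit 20], false, nat_lit 80, nat_lit 160, nat_lit 0, nat_lit 308, ⟨nat_lit 72, nat_lit 928, nat_lit 0, nat_lit 8, nat_lit 314, nat_lit 928, nat_lit 90, nat_lit 0, nat_lit 0, nat_lit 0, nat_lit 0, nat_lit 0, nat_lit 39106137, nat_lit 24480166, nat_lit 3413697, nat_lit 4386966, true, true⟩,
 nat_lit 0, nat_lit 0, nat_lit 875, nat_lit 0, nat_lit 2932, nat_lit 532, nat_lit 171, nat_lit 0, nat_lit 0, nat_lit 63, nat_lit 0, nat_lit 0, nat_lit 0, nat_lit 0, nat_lit 0, nat_lit 232000, nat_lit 0, nat_lit 0, [(nat_lit 25, [(nat_lit 0, nat_lit 928)])],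
 ⟨p109_k6, nat_lit 0, nat_lit 0, nat_lit 119, nat_lit 0, nat_lit 0, [nat_lit 776528001, nat_lit 1506550400, nat_lit 2415504000], [], [nat_lit 25916991347, nat_lit 26386036679, nat_lit 27591472420, nat_lit 28167175288, nat_lit 26395360367, nat_lit 26825431919, nat_lit 27843898299, nat_lit 28283630036], nat_lit 0, nat_lit 0, nat_lit 0, nat_lit 0, nat_lit 0, nat_lit 0, [], [nat_lit 20, nat_lit 40, nat_lit 40, nat_lit 80, nat_lit 16, nat_lit 249, nat_lit 40, nat_lit 8]⟩, ⟨p109_k5, nat_lit 0, nat_lit 0, nat_lit 934, nat_lit 0, nat_lit 1562019, [nat_lit 337536000, nat_lit 573696000, nat_lit 854784000], [], [nat_lit 2585986748, nat_lit 2587288152, nat_lit 2623648424, nat_lit 2624422612, nat_lit 2275653095, nat_lit 2274902321, nat_lit 2291685424, nat_lit 2290534723], nat_lit 1271250, nat_lit 1271250, nat_lit 1271250, nat_lit 1271250, nat_lit 0, nat_lit 2175250, [nat_lit 1100000, nat_lit 1785000, nat_lit 1271250], [nat_lit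 21, nat_lit 40, nat_lit 40, nat_lit 80, nat_lit 14, nat_lit 373, nat_lit 150, nat_lit 9]⟩,
 ⟨nat_lit 2236, nat_lit 2739, ⟨.ofNat (nat_lit 755643), .ofNat (nat_lit 814705), .ofNat (nat_lit 761248), .ofNat (nat_lit 820309), .ofNat (nat_lit 750755), .ofNat (nat_lit 807771), .ofNat (nat_lit 756449), .ofNat (nat_lit 813464)⟩, ⟨.ofNat (nat_lit 143475), .ofNat (nat_lit 261598), .ofNat (nat_lit 188310), .ofNat (nat_lit 306433), .ofNat (nat_lit 146758), .ofNat (nat_lit 260789), .ofNat (nat_lit 192306), .ofNat (nat_lit 306337)⟩⟩, [⟨nat_lit 13, nat_lit 52, nat_lit 69, nat_lit 100, nat_lit 265333306⟩, ⟨nat_lit 7, nat_lit 98, nat_lit 100, nat_lit 77, nat_lit 9894242⟩]⟩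
noncomputable def p109_l9 : Lf2 := ⟨nat_lit 0, nat_lit 20, [nat_lit 5, nat_lit 5, nat_lit 5, nat_lit 20], false, nat_lit 80, nat_lit 160, nat_lit 0, nat_lit 304, ⟨nat_lit 100, nat_lit 900, nat_lit 0, nat_lit 8, nat_lit 316, nat_lit 900, nat_lit 90, nat_lit 0, nat_lit 0, nat_lit 0, nat_lit 0, nat_lit 0, nat_lit 38905085, nat_lit 24692820, nat_lit 3402095, nat_lit 4391957, true, true⟩,
 nat_lit 0, nat_lit 0, nat_lit 1172, nat_lit 0, nat_lit 2961, nat_lit 729, nat_lit 179, nat_lit 0, nat_lit 0, nat_lit 86, nat_lit 0, nat_lit 0, nat_lit 0, nat_lit 0, nat_lit 0, nat_lit 225000, nat_lit 0, nat_lit 0, [(nat_lit 25, [(nat_lit 0, nat_lit 900)])],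
 ⟨p109_k6, nat_lit 0, nat_lit 0, nat_lit 119, nat_lit 0, nat_lit 0, [nat_lit 781400001, nat_lit 1560120000, nat_lit 2531200000], [], [nat_lit 25958095334, nat_lit 26428908245, nat_lit 27638842213, nat_lit 28219384974, nat_lit 26426589419, nat_lit 26858184515, nat_lit 27879238130, nat_lit 28320470938], nat_lit 0, nat_lit 0, nat_lit 0, nat_lit 0, nat_lit 0, nat_lit 0, [], [nat_lit 20, nat_lit 40, nat_lit 40, nat_lit 80, nat_lit 16, nat_lit 249, nat_lit 40, nat_lit 8]⟩, ⟨p109_k7, nat_lit 0, nat_lit 0, nat_lit 919, nat_lit 0, nat_lit 1542834, [nat_lit 468800000, nat_lit 796800000, nat_lit 1187200000], [], [nat_lit 3519494394, nat_lit 3522508792, nat_lit 3581228081, nat_lit 3596167900, nat_lit 3130832215, nat_lit 3130729802, nat_lit 3161209192, nat_lit 3160495311], nat_lit 1271250, nat_lit 1271250, nat_lit 1271250, nat_lit 1271250, nat_lit 0, nat_lit 2147000, [nat_lit 1100000, nat_lit 1785000, nat_lit 1271250], [nat_lit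 21, nat_lit 40, nat_lit 40, nat_lit 80, nat_lit 14, nat_lit 373, nat_lit 150, nat_lit 9]⟩,
 ⟨nat_lit 2236, nat_lit 2739, ⟨.ofNat (nat_lit 761248), .ofNat (nat_lit 820309), .ofNat (nat_lit 766852), .ofNat (nat_lit 825913), .ofNat (nat_lit 756449), .ofNat (nat_lit 813464), .ofNat (nat_lit 762142), .ofNat (nat_lit 819158)⟩, ⟨.ofNat (nat_lit 143475), .ofNat (nat_lit 261598), .ofNat (nat_lit 188310), .ofNat (nat_lit 306433), .ofNat (nat_lit 146758), .ofNat (nat_lit 260789), .ofNat (nat_lit 192306), .ofNat (nat_lit 306337)⟩⟩, [⟨nat_lit 13, nat_lit 53, nat_lit 67, nat_lit 100, nat_lit 242227696⟩, ⟨nat_lit 16, nat_lit 50, nat_lit 100, nat_lit 74, nat_lit 78008660⟩, ⟨nat_lit 7, nat_lit 100, nat_lit 100, nat_lit 77, nat_lit 13471500⟩]⟩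
noncomputable def p109_l10 : Lf2 := ⟨nat_lit 0, nat_lit 20, [nat_lit 5, nat_lit 5, nat_lit 5, nat_lit 20], false, nat_lit 80, nat_lit 160, nat_lit 8, nat_lit 288, ⟨nat_lit 70, nat_lit 930, nat_lit 0, nat_lit 9, nat_lit 333, nat_lit 930, nat_lit 90, nat_lit 0, nat_lit 0, nat_lit 0, nat_lit 0, nat_lit 0, nat_lit 37471753, nat_lit 26233294, nat_lit 3294953, nat_lit 4416241, true, true⟩,
 nat_lit 0, nat_lit 0, nat_lit 855, nat_lit 0, nat_lit 3918, nat_lit 520, nat_lit 0, nat_lit 0, nat_lit 0, nat_lit 60, nat_lit 0, nat_lit 0, nat_lit 0, nat_lit 0, nat_lit 0, nat_lit 232500, nat_lit 0, nat_lit 0, [(nat_lit 25, [(nat_lit 0, nat_lit 930)])],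
 ⟨p109_k1, nat_lit 0, nat_lit 0, nat_lit 124, nat_lit 0, nat_lit 0, [nat_lit 776180001, nat_lit 1502724000, nat_lit 2407240000], [], [nat_lit 28910692400, nat_lit 29990933760, nat_lit 29774885488, nat_lit 30936746221, nat_lit 28797864296, nat_lit 29783956264, nat_lit 29586737871, nat_lit 30533355135], nat_lit 0, nat_lit 0, nat_lit 0, nat_lit 0, nat_lit 0, nat_lit 0, [], [nat_lit 20, nat_lit 40, nat_lit 40, nat_lit 80, nat_lit 16, nat_lit 249, nat_lit 40, nat_lit 7]⟩, ⟨p109_k5, nat_lit 0, nat_lit 0, nat_lit 934, nat_lit 0, nat_lit 1593632, [nat_lit 328160000, nat_lit 557760000, nat_lit 831040000], [], [nat_lit 2525562572, nat_lit 2526970745, nat_lit 2572727285, nat_lit 2594961656, nat_lit 2215140137, nat_lit 2213172536, nat_lit 2225378876, nat_lit 2237798655], nat_lit 1271250, nat_lit 1271250, nat_lit 1271250, nat_lit 1271250, nat_lit 43600, nat_lit 2042100, [nat_lit 1100000, nat_lit 1785000, nat_lit 1271250], [nat_lit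 21, nat_lit 40, nat_lit 40, nat_lit 80, nat_lit 14, nat_lit 373, nat_lit 150, nat_lit 9]⟩,
 ⟨nat_lit 2236, nat_lit 3163, ⟨.ofNat (nat_lit 821354), .ofNat (nat_lit 845735), .ofNat (nat_lit 832432), .ofNat (nat_lit 856813), .ofNat (nat_lit 807771), .ofNat (nat_lit 830577), .ofNat (nat_lit 819158), .ofNat (nat_lit 841964)⟩, ⟨.ofNat (nat_lit 139899), .ofNat (nat_lit 261806), .ofNat (nat_lit 184209), .ofNat (nat_lit 306116), .ofNat (nat_lit 146758), .ofNat (nat_lit 260789), .ofNat (nat_lit 192306), .ofNat (nat_lit 306337)⟩⟩, [⟨nat_lit 13, nat_lit 57, nat_lit 64, nat_lit 100, nat_lit 212860129⟩, ⟨nat_lit 13, nat_lit 65, nat_lit 54, nat_lit 100, nat_lit 134572145⟩, ⟨nat_lit 10, nat_lit 90, nat_lit 55, nat_lit 100, nat_lit 11018987⟩]⟩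
noncomputable def p109_l11 : Lf2 := ⟨nat_lit 0, nat_lit 20, [nat_lit 5, nat_lit 5, nat_lit 5, nat_lit 20], false, nat_lit 160, nat_lit 200, nat_lit 16, nat_lit 320, ⟨nat_lit 118, nat_lit 882, nat_lit 0, nat_lit 8, nat_lit 313, nat_lit 882, nat_lit 125, nat_lit 0, nat_lit 0, nat_lit 0, nat_lit 0, nat_lit 0, nat_lit 37790016, nat_lit 23709678, nat_lit 5500306, nat_lit 4767560, true, true⟩,
 nat_lit 0, nat_lit 0, nat_lit 1617, nat_lit 0, nat_lit 4131, nat_lit 941, nat_lit 0, nat_lit 0, nat_lit 0, nat_lit 99, nat_lit 0, nat_lit 0, nat_lit 0, nat_lit 0, nat_lit 0, nat_lit 220500, nat_lit 0, nat_lit 0, [(nat_lit 25, [(nat_lit 0, nat_lit 882)])],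
 ⟨p109_k1, nat_lit 0, nat_lit 0, nat_lit 90, nat_lit 0, nat_lit 0, [nat_lit 784532001, nat_lit 1594557600, nat_lit 2605576000], [], [nat_lit 27085972160, nat_lit 28198163204, nat_lit 29353439275, nat_lit 30341565047, nat_lit 27736006386, nat_lit 28781757883, nat_lit 29865121636, nat_lit 30853625892], nat_lit 0, nat_lit 0, nat_lit 0, nat_lit 0, nat_lit 0, nat_lit 0, [], [nat_lit 20, nat_lit 40, nat_lit 40, nat_lit 80, nat_lit 16, nat_lit 260, nat_lit 50, nat_lit 8]⟩, ⟨p109_k4, nat_lit 0, nat_lit 0, nat_lit 954, nat_lit 0, nat_lit 1606946, [nat_lit 553184000, nat_lit 940224000, nat_lit 1400896000], [], [nat_lit 4289746396, nat_lit 4294734791, nat_lit 4420919502, nat_lit 4424130079, nat_lit 3761411206, nat_lit 3761328084, nat_lit 3833125186, nat_lit 3851752181], nat_lit 1271250, nat_lit 1271250, nat_lit 1271250, nat_lit 1271250, nat_lit 88400, nat_lit 2281000, [nat_lit 1100000, nat_lit 1785000, nat_lit 1271250], [nat_lit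 21, nat_lit 40, nat_lit 40, nat_lit 80, nat_lit 14, nat_lit 373, nat_lit 150, nat_lit 9]⟩,
 ⟨nat_lit 2236, nat_lit 3163, ⟨.ofNat (nat_lit 749323), .ofNat (nat_lit 822467), .ofNat (nat_lit 754862), .ofNat (nat_lit 828006), .ofNat (nat_lit 739368), .ofNat (nat_lit 807787), .ofNat (nat_lit 745062), .ofNat (nat_lit 813480)⟩, ⟨.ofNat (nat_lit 261806), .ofNat (nat_lit 322759), .ofNat (nat_lit 306116), .ofNat (nat_lit 367069), .ofNat (nat_lit 260789), .ofNat (nat_lit 317804), .ofNat (nat_lit 306337), .ofNat (nat_lit 363353)⟩⟩, [⟨nat_lit 13, nat_lit 55, nat_lit 68, nat_lit 100, nat_lit 260366580⟩, ⟨nat_lit 13, nat_lit 63, nat_lit 59, nat_lit 100, nat_lit 30359583⟩, ⟨nat_lit 16, nat_lit 60, nat_lit 100, nat_lit 80, nat_lit 214545399⟩, ⟨nat_lit 19, nat_lit 100, nat_lit 85, nat_lit 84, nat_lit 15023607⟩]⟩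
noncomputable def p109_l12 : Lf2 := ⟨nat_lit 0, nat_lit 20, [nat_lit 5, nat_lit 5, nat_lit 5, nat_lit 20], false, nat_lit 160, nat_lit 200, nat_lit 16, nat_lit 316, ⟨nat_lit 133, nat_lit 867, nat_lit 0, nat_lit 8, nat_lit 316, nat_lit 867, nat_lit 125, nat_lit 0, nat_lit 0, nat_lit 0, nat_lit 0, nat_lit 0, nat_lit 37507536, nat_lit 24020758, nat_lit 5471706, nat_lit 4773737, true, true⟩,
 nat_lit 0, nat_lit 0, nat_lit 1686, nat_lit 0, nat_lit 4145, nat_lit 1004, nat_lit 0, nat_lit 0, nat_lit 0, nat_lit 113, nat_lit 0, nat_lit 0, nat_lit 0, nat_lit 0, nat_lit 0, nat_lit 216750, nat_lit 0, nat_lit 0, [(nat_lit 25, [(nat_lit 0, nat_lit 867)])],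
 ⟨p109_k1, nat_lit 0, nat_lit 0, nat_lit 93, nat_lit 0, nat_lit 0, [nat_lit 787142001, nat_lit 1623255600, nat_lit 2667556000], [], [nat_lit 27142399200, nat_lit 28256339180, nat_lit 29615004052, nat_lit 30594264902, nat_lit 27791652870, nat_lit 28838988985, nat_lit 30113742266, nat_lit 31090806859], nat_lit 0, nat_lit 0, nat_lit 0, nat_lit 0, nat_lit 0, nat_lit 0, [], [nat_lit 20, nat_lit 40, nat_lit 40, nat_lit 80, nat_lit 16, nat_lit 260, nat_lit 50, nat_lit 8]⟩, ⟨p109_k8, nat_lit 0, nat_lit 0, nat_lit 933, nat_lit 0, nat_lit 1583355, [nat_lit 623504000, nat_lit 1059744000, nat_lit 1578976000], [], [nat_lit 4778465653, nat_lit 4780721544, nat_lit 4883316168, nat_lit 4891232255, nat_lit 4232438059, nat_lit 4230713007, nat_lit 4333158968, nat_lit 4334937675], nat_lit 1271250, nat_lit 1271250, nat_lit 1271250, nat_lit 1271250, nat_lit 88400, nat_lit 2252150, [nat_lit 1100000, nat_lit 1785000, nat_lit 1271250], [nat_lit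 21, nat_lit 40, nat_lit 40, nat_lit 80, nat_lit 14, nat_lit 373, nat_lit 150, nat_lit 9]⟩,
 ⟨nat_lit 2236, nat_lit 3163, ⟨.ofNat (nat_lit 754862), .ofNat (nat_lit 834101), .ofNat (nat_lit 760401), .ofNat (nat_lit 839640), .ofNat (nat_lit 745062), .ofNat (nat_lit 819182), .ofNat (nat_lit 750755), .ofNat (nat_lit 824875)⟩, ⟨.ofNat (nat_lit 261806), .ofNat (nat_lit 322759), .ofNat (nat_lit 306116), .ofNat (nat_lit 367069), .ofNat (nat_lit 260789), .ofNat (nat_lit 317804), .ofNat (nat_lit 306337), .ofNat (nat_lit 363353)⟩⟩, [⟨nat_lit 13, nat_lit 56, nat_lit 66, nat_lit 100, nat_lit 289120631⟩, ⟨nat_lit 16, nat_lit 60, nat_lit 100, nat_lit 80, nat_lit 155932266⟩, ⟨nat_lit 4, nat_lit 100, nat_lit 54, nat_lit 73, nat_lit 74617582⟩, ⟨nat_lit 19, nat_lit 100, nat_lit 87, nat_lit 85, nat_lit 18534082⟩]⟩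
noncomputable def p109_l13 : Lf2 := ⟨nat_lit 0, nat_lit 20, [nat_lit 5, nat_lit 5, nat_lit 5, nat_lit 20], false, nat_lit 160, nat_lit 200, nat_lit 16, nat_lit 308, ⟨nat_lit 152, nat_lit 848, nat_lit 0, nat_lit 8, nat_lit 317, nat_lit 848, nat_lit 126, nat_lit 0, nat_lit 0, nat_lit 0, nat_lit 0, nat_lit 0, nat_lit 37413548, nat_lit 24104583, nat_lit 5481869, nat_lit 4778408, true, true⟩,
 nat_lit 0, nat_lit 0, nat_lit 1832, nat_lit 0, nat_lit 4316, nat_lit 1115, nat_lit 0, nat_lit 0, nat_lit 0, nat_lit 135, nat_lit 0, nat_lit 0, nat_lit 0, nat_lit 0, nat_lit 0, nat_lit 212000, nat_lit 0, nat_lit 0, [(nat_lit 25, [(nat_lit 0, nat_lit 848)])],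
 ⟨p109_k1, nat_lit 0, nat_lit 0, nat_lit 76, nat_lit 0, nat_lit 0, [nat_lit 790448000, nat_lit 1659606400, nat_lit 2746064000], [], [nat_lit 27153081760, nat_lit 27720732752, nat_lit 29050311152, nat_lit 29564446360, nat_lit 27792801496, nat_lit 28326147042, nat_lit 29571585216, nat_lit 30055271680], nat_lit 0, nat_lit 0, nat_lit 0, nat_lit 0, nat_lit 0, nat_lit 0, [], [nat_lit 20, nat_lit 40, nat_lit 40, nat_lit 80, nat_lit 16, nat_lit 260, nat_lit 50, nat_lit 8]⟩, ⟨p109_k5, nat_lit 0, nat_lit 0, nat_lit 861, nat_lit 0, nat_lit 1417006, [nat_lit 712576000, nat_lit 1211136000, nat_lit 1804544000], [], [nat_lit 5311817934, nat_lit 5321328646, nat_lit 5413997769, nat_lit 5420619528, nat_lit 4753076065, nat_lit 4752613029, nat_lit 4801868912, nat_lit 4799468957], nat_lit 1271250, nat_lit 1271250, nat_lit 1271250, nat_lit 1271250, nat_lit 88400, nat_lit 2194450, [nat_lit 1100000, nat_lit 1785000, nat_lit 1271250], [nat_lit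 21, nat_lit 40, nat_lit 40, nat_lit 80, nat_lit 14, nat_lit 373, nat_lit 150, nat_lit 9]⟩,
 ⟨nat_lit 2738, nat_lit 3163, ⟨.ofNat (nat_lit 760401), .ofNat (nat_lit 821354), .ofNat (nat_lit 771478), .ofNat (nat_lit 832432), .ofNat (nat_lit 755643), .ofNat (nat_lit 814705), .ofNat (nat_lit 766852), .ofNat (nat_lit 825913)⟩, ⟨.ofNat (nat_lit 261806), .ofNat (nat_lit 322759), .ofNat (nat_lit 306116), .ofNat (nat_lit 367069), .ofNat (nat_lit 261598), .ofNat (nat_lit 320659), .ofNat (nat_lit 306433), .ofNat (nat_lit 365494)⟩⟩, [⟨nat_lit 4, nat_lit 100, nat_lit 57, nat_lit 73, nat_lit 266274988⟩, ⟨nat_lit 19, nat_lit 100, nat_lit 90, nat_lit 85, nat_lit 20697698⟩]⟩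
noncomputable def p109_l14 : Lf2 := ⟨nat_lit 0, nat_lit 20, [nat_lit 5, nat_lit 5, nat_lit 5, nat_lit 20], false, nat_lit 160, nat_lit 184, nat_lit 16, nat_lit 308, ⟨nat_lit 177, nat_lit 823, nat_lit 0, nat_lit 8, nat_lit 315, nat_lit 823, nat_lit 120, nat_lit 0, nat_lit 0, nat_lit 0, nat_lit 0, nat_lit 0, nat_lit 37814941, nat_lit 24003525, nat_lit 5181534, nat_lit 4722015, true, true⟩,
 nat_lit 0, nat_lit 0, nat_lit 2155, nat_lit 0, nat_lit 2718, nat_lit 1312, nat_lit 249, nat_lit 0, nat_lit 0, nat_lit 155, nat_lit 0, nat_lit 0, nat_lit 0, nat_lit 0, nat_lit 0, nat_lit 205750, nat_lit 0, nat_lit 0, [(nat_lit 25, [(nat_lit 0, nat_lit 823)])],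
 ⟨p109_k6, nat_lit 0, nat_lit 0, nat_lit 85, nat_lit 0, nat_lit 0, [nat_lit 794798000, nat_lit 1707436401, nat_lit 2849364000], [], [nat_lit 26028211526, nat_lit 26487174240, nat_lit 27574086758, nat_lit 28003180164, nat_lit 26450916499, nat_lit 26895336168, nat_lit 27947705938, nat_lit 28405128397], nat_lit 0, nat_lit 0, nat_lit 0, nat_lit 0, nat_lit 0, nat_lit 0, [], [nat_lit 20, nat_lit 40, nat_lit 40, nat_lit 80, nat_lit 16, nat_lit 260, nat_lit 50, nat_lit 8]⟩, ⟨p109_k5, nat_lit 0, nat_lit 0, nat_lit 938, nat_lit 0, nat_lit 1593632, [nat_lit 829776000, nat_lit 1410336000, nat_lit 2101344000], [], [nat_lit 6236121067, nat_lit 6242166483, nat_lit 6325201059, nat_lit 6328475137, nat_lit 5558713722, nat_lit 5554934134, nat_lit 5597927432, nat_lit 5592176686], nat_lit 1271250, nat_lit 1271250, nat_lit 1271250, nat_lit 1271250, nat_lit 88400, nat_lit 2194450, [nat_lit 1100000, nat_lit 1785000, nat_lit 1271250], [nat_lit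 21, nat_lit 40, nat_lit 40, nat_lit 80, nat_lit 14, nat_lit 373, nat_lit 150, nat_lit 9]⟩,
 ⟨nat_lit 2236, nat_lit 2739, ⟨.ofNat (nat_lit 755643), .ofNat (nat_lit 814705), .ofNat (nat_lit 766852), .ofNat (nat_lit 825913), .ofNat (nat_lit 750755), .ofNat (nat_lit 807771), .ofNat (nat_lit 762142), .ofNat (nat_lit 819158)⟩, ⟨.ofNat (nat_lit 261598), .ofNat (nat_lit 297035), .ofNat (nat_lit 306433), .ofNat (nat_lit 341870), .ofNat (nat_lit 260789), .ofNat (nat_lit 294998), .ofNat (nat_lit 306337), .ofNat (nat_lit 340547)⟩⟩, [⟨nat_lit 13, nat_lit 52, nat_lit 68, nat_lit 100, nat_lit 151907960⟩, ⟨nat_lit 4, nat_lit 100, nat_lit 50, nat_lit 74, nat_lit 382375288⟩, ⟨nat_lit 7, nat_lit 99, nat_lit 100, nat_lit 77, nat_lit 26407980⟩]⟩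
noncomputable def p109_l15 : Lf2 := ⟨nat_lit 0, nat_lit 20, [nat_lit 5, nat_lit 5, nat_lit 5, nat_lit 20], false, nat_lit 160, nat_lit 200, nat_lit 48, nat_lit 308, ⟨nat_lit 146, nat_lit 854, nat_lit 0, nat_lit 9, nat_lit 333, nat_lit 854, nat_lit 125, nat_lit 0, nat_lit 0, nat_lit 0, nat_lit 0, nat_lit 0, nat_lit 36180634, nat_lit 25485832, nat_lit 5333534, nat_lit 4795505, true, true⟩,
 nat_lit 0, nat_lit 0, nat_lit 1774, nat_lit 0, nat_lit 4164, nat_lit 1080, nat_lit 0, nat_lit 0, nat_lit 0, nat_lit 120, nat_lit 0, nat_lit 0, nat_lit 0, nat_lit 0, nat_lit 0, nat_lit 213500, nat_lit 0, nat_lit 0, [(nat_lit 25, [(nat_lit 0, nat_lit 854)])],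
 ⟨p109_k1, nat_lit 0, nat_lit 0, nat_lit 96, nat_lit 0, nat_lit 0, [nat_lit 789404000, nat_lit 1648127200, nat_lit 2721272000], [], [nat_lit 29058507408, nat_lit 30070669472, nat_lit 29868237060, nat_lit 30839072532, nat_lit 29591287264, nat_lit 30544120176, nat_lit 30353553594, nat_lit 31335284182], nat_lit 0, nat_lit 0, nat_lit 0, nat_lit 0, nat_lit 0, nat_lit 0, [], [nat_lit 20, nat_lit 40, nat_lit 40, nat_lit 80, nat_lit 16, nat_lit 260, nat_lit 50, nat_lit 7]⟩, ⟨p109_k5, nat_lit 0, nat_lit 0, nat_lit 902, nat_lit 0, nat_lit 1593632, [nat_lit 684448000, nat_lit 1163328000, nat_lit 1733312000], [], [nat_lit 5150281513, nat_lit 5152799101, nat_lit 5187572739, nat_lit 5189130528, nat_lit 4685933893, nat_lit 4681240885, nat_lit 4756497593, nat_lit 4779992232], nat_lit 1271250, nat_lit 1271250, nat_lit 1271250, nat_lit 1271250, nat_lit 279600, nat_lit 2232850, [nat_lit 1100000, nat_lit 1785000, nat_lit 1271250], [nat_lit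 21, nat_lit 40, nat_lit 40, nat_lit 80, nat_lit 14, nat_lit 373, nat_lit 150, nat_lit 9]⟩,
 ⟨nat_lit 2236, nat_lit 3163, ⟨.ofNat (nat_lit 821354), .ofNat (nat_lit 845735), .ofNat (nat_lit 832432), .ofNat (nat_lit 856813), .ofNat (nat_lit 807771), .ofNat (nat_lit 830577), .ofNat (nat_lit 819158), .ofNat (nat_lit 841964)⟩, ⟨.ofNat (nat_lit 261806), .ofNat (nat_lit 322759), .ofNat (nat_lit 306116), .ofNat (nat_lit 367069), .ofNat (nat_lit 260789), .ofNat (nat_lit 317804), .ofNat (nat_lit 306337), .ofNat (nat_lit 363353)⟩⟩, [⟨nat_lit 13, nat_lit 65, nat_lit 54, nat_lit 100, nat_lit 269568248⟩, ⟨nat_lit 16, nat_lit 60, nat_lit 100, nat_lit 80, nat_lit 52995837⟩, ⟨nat_lit 4, nat_lit 100, nat_lit 54, nat_lit 73, nat_lit 253381318⟩, ⟨nat_lit 22, nat_lit 55, nat_lit 89, nat_lit 100, nat_lit 34992295⟩]⟩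
noncomputable def p109_l16 : Lf2 := ⟨nat_lit 0, nat_lit 20, [nat_lit 5, nat_lit 5, nat_lit 5, nat_lit 20], true, nat_lit 80, nat_lit 164, nat_lit 0, nat_lit 336, ⟨nat_lit 0, nat_lit 1000, nat_lit 0, nat_lit 8, nat_lit 301, nat_lit 1000, nat_lit 91, nat_lit 0, nat_lit 0, nat_lit 0, nat_lit 0, nat_lit 0, nat_lit 40195751, nat_lit 23266092, nat_lit 3538157, nat_lit 4366960, true, true⟩,
 nat_lit 0, nat_lit 0, nat_lit 0, nat_lit 0, nat_lit 2774, nat_lit 0, nat_lit 107, nat_lit 0, nat_lit 0, nat_lit 0, nat_lit 0, nat_lit 0, nat_lit 0, nat_lit 0, nat_lit 0, nat_lit 250000, nat_lit 0, nat_lit 0, [(nat_lit 28, [(nat_lit 0, nat_lit 1000)])],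
 ⟨p109_k9, nat_lit 0, nat_lit 0, nat_lit 124, nat_lit 0, nat_lit 0, [nat_lit 781600001, nat_lit 1083600000, nat_lit 1719333334], [], [nat_lit 26066851577, nat_lit 27125041384, nat_lit 27481411655, nat_lit 28635579848, nat_lit 26588411264, nat_lit 27489648677, nat_lit 27774994645, nat_lit 28827518388], nat_lit 0, nat_lit 0, nat_lit 0, nat_lit 0, nat_lit 0, nat_lit 0, [], [nat_lit 20, nat_lit 40, nat_lit 40, nat_lit 80, nat_lit 16, nat_lit 260, nat_lit 50, nat_lit 8]⟩, C1.Rw.none,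
 ⟨nat_lit 0, nat_lit 2237, ⟨.ofNat (nat_lit 716590), .ofNat (nat_lit 762201), .ofNat (nat_lit 762141), .ofNat (nat_lit 807752), .ofNat (nat_lit 699995), .ofNat (nat_lit 739994), .ofNat (nat_lit 749998), .ofNat (nat_lit 789996)⟩, ⟨.ofNat (nat_lit 146756), .ofNat (nat_lit 266484), .ofNat (nat_lit 192306), .ofNat (nat_lit 312035), .ofNat (nat_lit 149997), .ofNat (nat_lit 254993), .ofNat (nat_lit 199999), .ofNat (nat_lit 304995)⟩⟩, [⟨nat_lit 13, nat_lit 48, nat_lit 71, nat_lit 100, nat_lit 386686017⟩, ⟨nat_lit 16, nat_lit 44, nat_lit 100, nat_lit 82, nat_lit 102438840⟩]⟩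
noncomputable def b_V_900_600_10_9 : St := ⟨true, nat_lit 0, nat_lit 1, nat_lit 1, nat_lit 80, nat_lit 360, nat_lit 400, nat_lit 240, nat_lit 280, nat_lit 240, nat_lit 376, nat_lit 40, nat_lit 80, nat_lit 80, nat_lit 200, nat_lit 0, nat_lit 336, nat_lit 40, nat_lit 80, nat_lit 0, nat_lit 0, nat_lit 0, nat_lit 0⟩
theorem d_V_900_600_10_9 (h : EB TB.env) : Dead b_V_900_600_10_9 := chkB_sound0 h (T :=
(.spl (nat_lit 2) (nat_lit 320)
(.spl (nat_lit 2) (nat_lit 280)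
(.leaf p109_l0)
(.spl (nat_lit 0) (nat_lit 380)
(.leaf p109_l1)
(.trX (nat_lit 16) (nat_lit 44) (nat_lit 100) (nat_lit 82) (nat_lit 164) (.leaf p109_l2))))
(.spl (nat_lit 0) (nat_lit 380)
(.spl (nat_lit 1) (nat_lit 260)
(.trX (nat_lit 13) (nat_lit 63) (nat_lit 61) (nat_lit 100) (nat_lit 364) (.spl (nat_lit 4) (nat_lit 160)
(.leaf p109_l3)
(.trZ (nat_lit 9) (nat_lit 100) (nat_lit 82) (nat_lit 44) (nat_lit 16) (.spl (nat_lit 1) (nat_lit 250)
(.trX (nat_lit 13) (nat_lit 62) (nat_lit 65) (nat_lit 100) (nat_lit 360) (.leaf p109_l4))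
(.trX (nat_lit 19) (nat_lit 100) (nat_lit 81) (nat_lit 83) (nat_lit 328) (.leaf p109_l5))))))
(.trX (nat_lit 19) (nat_lit 100) (nat_lit 85) (nat_lit 84) (nat_lit 320) (.spl (nat_lit 4) (nat_lit 160)
(.spl (nat_lit 1) (nat_lit 270)
(.trX (nat_lit 13) (nat_lit 64) (nat_lit 58) (nat_lit 100) (nat_lit 372) (.leaf p109_l6))
(.trX (nat_lit 19) (nat_lit 100) (nat_lit 90) (nat_lit 85) (nat_lit 308) (.spl (nat_lit 2) (nat_lit 360)
(.spl (nat_lit 0) (nat_lit 370)
(.leaf p109_l7)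
(.spl (nat_lit 1) (nat_lit 275)
(.leaf p109_l8)
(.trX (nat_lit 19) (nat_lit 100) (nat_lit 92) (nat_lit 86) (nat_lit 304) (.leaf p109_l9))))
(.trZ (nat_lit 9) (nat_lit 100) (nat_lit 75) (nat_lit 35) (nat_lit 8) (.trX (nat_lit 22) (nat_lit 61) (nat_lit 92) (nat_lit 100) (nat_lit 288) (.leaf p109_l10))))))
(.trZ (nat_lit 9) (nat_lit 100) (nat_lit 82) (nat_lit 44) (nat_lit 16) (.spl (nat_lit 1) (nat_lit 270)
(.trX (nat_lit 13) (nat_lit 64) (nat_lit 58) (nat_lit 100) (nat_lit 372) (.spl (nat_lit 1) (nat_lit 265)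
(.trX (nat_lit 13) (nat_lit 63) (nat_lit 59) (nat_lit 100) (nat_lit 368) (.leaf p109_l11))
(.trX (nat_lit 19) (nat_lit 100) (nat_lit 87) (nat_lit 85) (nat_lit 316) (.leaf p109_l12))))
(.trX (nat_lit 19) (nat_lit 100) (nat_lit 90) (nat_lit 85) (nat_lit 308) (.spl (nat_lit 2) (nat_lit 360)
(.spl (nat_lit 0) (nat_lit 370)
(.leaf p109_l13)
(.trX (nat_lit 16) (nat_lit 53) (nat_lit 100) (nat_lit 80) (nat_lit 184) (.leaf p109_l14)))
(.trZ (nat_lit 9) (nat_lit 100) (nat_lit 61) (nat_lit 68) (nat_lit 48) (.leaf p109_l15)))))))))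
(.trX (nat_lit 13) (nat_lit 48) (nat_lit 71) (nat_lit 100) (nat_lit 352) (.trX (nat_lit 16) (nat_lit 44) (nat_lit 100) (nat_lit 82) (nat_lit 164) (.leaf p109_l16)))))) (by decide +kernel)
noncomputable def p109_l17 : Lf2 := ⟨nat_lit 0, nat_lit 20, [nat_lit 5, nat_lit 5, nat_lit 5, nat_lit 20], false, nat_lit 0, nat_lit 200, nat_lit 0, nat_lit 160, ⟨nat_lit 941, nat_lit 0, nat_lit 59, nat_lit 6, nat_lit 253, nat_lit 59, nat_lit 69, nat_lit 59, nat_lit 43350, nat_lit 266, nat_lit 442376, nat_lit 200, nat_lit 47873981, nat_lit 0, nat_lit 0, nat_lit 2990194, false, false⟩,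
 nat_lit 0, nat_lit 5710, nat_lit 0, nat_lit 0, nat_lit 4973, nat_lit 6162, nat_lit 381, nat_lit 0, nat_lit 0, nat_lit 1082, nat_lit 0, nat_lit 0, nat_lit 0, nat_lit 0, nat_lit 0, nat_lit 59000, nat_lit 0, nat_lit 0, [(nat_lit 25, [(nat_lit 6, nat_lit 59)])],
 ⟨p109_k1, nat_lit 0, nat_lit 0, nat_lit 482, nat_lit 0, nat_lit 843136, [nat_lit 962072001, nat_lit 2965012667, nat_lit 5416802000], [], [nat_lit 27736625861, nat_lit 28799970971, nat_lit 35792956680, nat_lit 37268951165, nat_lit 27055972729, nat_lit 27891534718, nat_lit 33761239625, nat_lit 32817180201], nat_lit 1271250, nat_lit 1271250, nat_lit 719601, nat_lit 2861300, nat_lit 0, nat_lit 1412500, [nat_lit 230000, nat_lit 780000, nat_lit 1435000], [nat_lit 20, nat_lit 40, nat_lit 40, nat_lit 80, nat_lit 16, nat_lit 373, nat_lit 150, nat_lit 14]⟩, ⟨p109_k10, nat_lit 0, nat_lit 0, nat_lit 271, nat_lit 0, nat_lit 0, [nat_lit 4411408000, nat_lit 7497888000, nat_lit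 13228578000], [], [nat_lit 24930883957, nat_lit 27094151920, nat_lit 33924102753, nat_lit 34893848108, nat_lit 21111733276, nat_lit 22681654759, nat_lit 28665511272, nat_lit 29786442539], nat_lit 0, nat_lit 0, nat_lit 0, nat_lit 0, nat_lit 0, nat_lit 0, [], [nat_lit 37, nat_lit 40, nat_lit 40, nat_lit 80, nat_lit 28, nat_lit 456, nat_lit 225, nat_lit 11]⟩,
 ⟨nat_lit 2236, nat_lit 3163, ⟨.ofNat (nat_lit 409856), .ofNat (nat_lit 812503), .ofNat (nat_lit 454039), .ofNat (nat_lit 856813), .ofNat (nat_lit 419758), .ofNat (nat_lit 796416), .ofNat (nat_lit 465180), .ofNat (nat_lit 841964)⟩, ⟨.ofNat (nat_lit 0), .ofNat (nat_lit 322759), .ofNat (nat_lit 0), .ofNat (nat_lit 367069), .ofNat (nat_lit 0), .ofNat (nat_lit 317804), .ofNat (nat_lit 0), .ofNat (nat_lit 363353)⟩⟩, [⟨nat_lit 0, nat_lit 92, nat_lit 44, nat_lit 100, nat_lit 267953780⟩, ⟨nat_lit 4, nat_lit 100, nat_lit 54, nat_lit 73, nat_lit 311743100⟩]⟩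
noncomputable def p109_l18 : Lf2 := ⟨nat_lit 0, nat_lit 20, [nat_lit 5, nat_lit 5, nat_lit 5, nat_lit 20], false, nat_lit 0, nat_lit 164, nat_lit 0, nat_lit 160, ⟨nat_lit 1000, nat_lit 0, nat_lit 0, nat_lit 0, nat_lit 0, nat_lit 0, nat_lit 0, nat_lit 0, nat_lit 0, nat_lit 0, nat_lit 0, nat_lit 0, nat_lit 0, nat_lit 0, nat_lit 0, nat_lit 0, false, false⟩,
 nat_lit 0, nat_lit 4129, nat_lit 0, nat_lit 0, nat_lit 3857, nat_lit 6764, nat_lit 530, nat_lit 0, nat_lit 0, nat_lit 0, nat_lit 0, nat_lit 0, nat_lit 0, nat_lit 0, nat_lit 0, nat_lit 0, nat_lit 0, nat_lit 0, [],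
 ⟨p109_k2, nat_lit 0, nat_lit 0, nat_lit 510, nat_lit 0, nat_lit 924062, [nat_lit 938000000, nat_lit 6250000000], [], [nat_lit 24983540019, nat_lit 26383580164, nat_lit 32435142199, nat_lit 33829937974, nat_lit 25357521841, nat_lit 26315066957, nat_lit 29985502617, nat_lit 30673542118], nat_lit 1271250, nat_lit 1271250, nat_lit 1000851, nat_lit 2724650, nat_lit 0, nat_lit 1133651, [nat_lit 230000, nat_lit 1420000], [nat_lit 88, nat_lit 40, nat_lit 40, nat_lit 80, nat_lit 89, nat_lit 373, nat_lit 150, nat_lit 14]⟩, ⟨p109_k11, nat_lit 0, nat_lit 0, nat_lit 243, nat_lit 0, nat_lit 0, [nat_lit 4688000000, nat_lit 14058000000], [], [nat_lit 38039280697, nat_lit 40252402145, nat_lit 46162739002, nat_lit 47333474532, nat_lit 33578912980, nat_lit 35170836890, nat_lit 40014207741, nat_lit 41025197821], nat_lit 0, nat_lit 0, nat_lit 0, nat_lit 0, nat_lit 0, nat_lit 0, [], [nat_lit 145, nat_lit 40, nat_lit 40, nat_lit 80, nat_lit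 144, nat_lit 428, nat_lit 200, nat_lit 10]⟩,
 zbF0, [⟨nat_lit 0, nat_lit 95, nat_lit 31, nat_lit 100, nat_lit 255891249⟩, ⟨nat_lit 16, nat_lit 35, nat_lit 100, nat_lit 80, nat_lit 567359317⟩]⟩
noncomputable def p109_l19 : Lf2 := ⟨nat_lit 0, nat_lit 20, [nat_lit 5, nat_lit 5, nat_lit 5, nat_lit 20], false, nat_lit 0, nat_lit 200, nat_lit 160, nat_lit 336, ⟨nat_lit 770, nat_lit 0, nat_lit 230, nat_lit 6, nat_lit 251, nat_lit 230, nat_lit 67, nat_lit 230, nat_lit 41667, nat_lit 265, nat_lit 442370, nat_lit 200, nat_lit 48094281, nat_lit 0, nat_lit 0, nat_lit 2974977, false, false⟩,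
 nat_lit 0, nat_lit 4989, nat_lit 0, nat_lit 0, nat_lit 4345, nat_lit 5229, nat_lit 205, nat_lit 0, nat_lit 0, nat_lit 0, nat_lit 0, nat_lit 0, nat_lit 0, nat_lit 0, nat_lit 0, nat_lit 230000, nat_lit 0, nat_lit 0, [(nat_lit 25, [(nat_lit 6, nat_lit 230)]), (nat_lit 28, [(nat_lit 6, nat_lit 230)])],
 ⟨p109_k1, nat_lit 0, nat_lit 0, nat_lit 553, nat_lit 0, nat_lit 1014421, [nat_lit 1031840001, nat_lit 2046286667, nat_lit 3001940000], [], [nat_lit 25946525983, nat_lit 27720157700, nat_lit 34016746600, nat_lit 36768877332, nat_lit 25821561704, nat_lit 27383074407, nat_lit 33519786003, nat_lit 32708529828], nat_lit 1271250, nat_lit 1271250, nat_lit 719601, nat_lit 2861300, nat_lit 0, nat_lit 1412500, [nat_lit 230000, nat_lit 780000, nat_lit 1435000], [nat_lit 20, nat_lit 40, nat_lit 40, nat_lit 80, nat_lit 16, nat_lit 373, nat_lit 150, nat_lit 14]⟩, ⟨p109_k10, nat_lit 0, nat_lit 0, nat_lit 85, nat_lit 0, nat_lit 0, [nat_lit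 3609760000, nat_lit 6135360000, nat_lit 10824660000], [], [nat_lit 6763932667, nat_lit 9619763239, nat_lit 19869380804, nat_lit 21417789389, nat_lit 16509944924, nat_lit 18518961539, nat_lit 24928026700, nat_lit 25822088221], nat_lit 0, nat_lit 0, nat_lit 0, nat_lit 0, nat_lit 0, nat_lit 0, [], [nat_lit 37, nat_lit 40, nat_lit 40, nat_lit 80, nat_lit 28, nat_lit 483, nat_lit 250, nat_lit 11]⟩,
 ⟨nat_lit 0, nat_lit 3163, ⟨.ofNat (nat_lit 401957), .ofNat (nat_lit 812499), .ofNat (nat_lit 443658), .ofNat (nat_lit 856810), .ofNat (nat_lit 431745), .ofNat (nat_lit 769995), .ofNat (nat_lit 479136), .ofNat (nat_lit 819996)⟩, ⟨.ofNat (nat_lit 0), .ofNat (nat_lit 322753), .ofNat (nat_lit 0), .ofNat (nat_lit 367065), .ofNat (nat_lit 0), .ofNat (nat_lit 299993), .ofNat (nat_lit 0), .ofNat (nat_lit 349995)⟩⟩, [⟨nat_lit 16, nat_lit 46, nat_lit 100, nat_lit 75, nat_lit 299587663⟩, ⟨nat_lit 19, nat_lit 100, nat_lit 76, nat_lit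 82, nat_lit 389686183⟩]⟩
noncomputable def b_V_900_600_10_10 : St := ⟨true, nat_lit 1, nat_lit 0, nat_lit 1, nat_lit 80, nat_lit 360, nat_lit 400, nat_lit 240, nat_lit 280, nat_lit 112, nat_lit 376, nat_lit 40, nat_lit 80, nat_lit 0, nat_lit 200, nat_lit 0, nat_lit 336, nat_lit 40, nat_lit 80, nat_lit 0, nat_lit 0, nat_lit 0, nat_lit 0⟩
theorem d_V_900_600_10_10 (h : EB TB.env) : Dead b_V_900_600_10_10 := chkB_sound0 h (T :=
(.spl (nat_lit 5) (nat_lit 160)
(.spl (nat_lit 0) (nat_lit 380)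
(.leaf p109_l17)
(.trZ (nat_lit 0) (nat_lit 100) (nat_lit 44) (nat_lit 99) (nat_lit 148) (.trX (nat_lit 13) (nat_lit 48) (nat_lit 71) (nat_lit 100) (nat_lit 352) (.trX (nat_lit 16) (nat_lit 44) (nat_lit 100) (nat_lit 82) (nat_lit 164) (.leaf p109_l18)))))
(.leaf p109_l19))) (by decide +kernel)
noncomputable def p109_l20 : Lf2 := ⟨nat_lit 0, nat_lit 20, [nat_lit 5, nat_lit 5, nat_lit 5, nat_lit 20], false, nat_lit 0, nat_lit 80, nat_lit 0, nat_lit 336, ⟨nat_lit 186, nat_lit 0, nat_lit 814, nat_lit 6, nat_lit 208, nat_lit 756, nat_lit 33, nat_lit 814, nat_lit 10417, nat_lit 240, nat_lit 2400, nat_lit 203, nat_lit 52753569, nat_lit 0, nat_lit 0, nat_lit 2587122, false, false⟩,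
 nat_lit 2938, nat_lit 58, nat_lit 0, nat_lit 0, nat_lit 2609, nat_lit 1555, nat_lit 60, nat_lit 0, nat_lit 0, nat_lit 0, nat_lit 0, nat_lit 0, nat_lit 0, nat_lit 0, nat_lit 18, nat_lit 203500, nat_lit 0, nat_lit 0, [(nat_lit 25, [(nat_lit 4, nat_lit 814)])],
 ⟨p109_k1, nat_lit 0, nat_lit 0, nat_lit 313, nat_lit 0, nat_lit 422466, [nat_lit 839060001, nat_lit 531892534, nat_lit 28501066], [], [nat_lit 19751327242, nat_lit 20301780869, nat_lit 22499355924, nat_lit 23072533511, nat_lit 19488771349, nat_lit 20002499013, nat_lit 22220598733, nat_lit 22769125953], nat_lit 1271250, nat_lit 1271250, nat_lit 719601, nat_lit 1758000, nat_lit 0, nat_lit 490000, [nat_lit 230000, nat_lit 780000, nat_lit 1435000], [nat_lit 20, nat_lit 40, nat_lit 40, nat_lit 80, nat_lit 16, nat_lit 317, nat_lit 100, nat_lit 12]⟩, ⟨p109_k10, nat_lit 0, nat_lit 0, nat_lit 750, nat_lit 0, nat_lit 788154, [nat_lit 871968000, nat_lit 1482048000, nat_lit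 2614788000], [], [nat_lit 9842620436, nat_lit 9005052652, nat_lit 8806159016, nat_lit 8852411000, nat_lit 8167498323, nat_lit 8185399333, nat_lit 9193175420, nat_lit 8501560558], nat_lit 1271250, nat_lit 1271250, nat_lit 719601, nat_lit 1758000, nat_lit 0, nat_lit 2373000, [nat_lit 1100000, nat_lit 1785000, nat_lit 1271250], [nat_lit 37, nat_lit 40, nat_lit 40, nat_lit 80, nat_lit 28, nat_lit 456, nat_lit 225, nat_lit 11]⟩,
 ⟨nat_lit 2738, nat_lit 3163, ⟨.ofNat (nat_lit 410148), .ofNat (nat_lit 605257), .ofNat (nat_lit 432290), .ofNat (nat_lit 627400), .ofNat (nat_lit 414835), .ofNat (nat_lit 603890), .ofNat (nat_lit 437240), .ofNat (nat_lit 626295)⟩, ⟨.ofNat (nat_lit 0), .ofNat (nat_lit 139899), .ofNat (nat_lit 0), .ofNat (nat_lit 184209), .ofNat (nat_lit 0), .ofNat (nat_lit 143475), .ofNat (nat_lit 0), .ofNat (nat_lit 188310)⟩⟩, [⟨nat_lit 10, nat_lit 74, nat_lit 100, nat_lit 59, nat_lit 39259466⟩]⟩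
noncomputable def p109_l21 : Lf2 := ⟨nat_lit 0, nat_lit 20, [nat_lit 5, nat_lit 5, nat_lit 5, nat_lit 20], false, nat_lit 0, nat_lit 80, nat_lit 0, nat_lit 336, ⟨nat_lit 194, nat_lit 0, nat_lit 806, nat_lit 6, nat_lit 213, nat_lit 806, nat_lit 34, nat_lit 806, nat_lit 10417, nat_lit 240, nat_lit 6376, nat_lit 204, nat_lit 52168016, nat_lit 0, nat_lit 0, nat_lit 2643199, false, false⟩,
 nat_lit 2860, nat_lit 0, nat_lit 0, nat_lit 0, nat_lit 2580, nat_lit 1514, nat_lit 48, nat_lit 0, nat_lit 0, nat_lit 0, nat_lit 0, nat_lit 0, nat_lit 0, nat_lit 0, nat_lit 15, nat_lit 201500, nat_lit 0, nat_lit 0, [(nat_lit 25, [(nat_lit 4, nat_lit 806)])],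
 ⟨p109_k6, nat_lit 0, nat_lit 0, nat_lit 323, nat_lit 0, nat_lit 456950, [nat_lit 828740000, nat_lit 525043467, nat_lit 31650933], [], [nat_lit 20527393038, nat_lit 21159793926, nat_lit 23198212033, nat_lit 23766047000, nat_lit 20331963292, nat_lit 20882579758, nat_lit 22872932413, nat_lit 23378386533], nat_lit 1271250, nat_lit 1271250, nat_lit 841600, nat_lit 1767000, nat_lit 0, nat_lit 490000, [nat_lit 230000, nat_lit 780000, nat_lit 1435000], [nat_lit 20, nat_lit 40, nat_lit 40, nat_lit 80, nat_lit 16, nat_lit 317, nat_lit 100, nat_lit 12]⟩, ⟨p109_k10, nat_lit 0, nat_lit 0, nat_lit 779, nat_lit 0, nat_lit 889488, [nat_lit 909472000, nat_lit 1545792000, nat_lit 2727252000], [], [nat_lit 9551278340, nat_lit 9622677567, nat_lit 9513285472, nat_lit 9563282240, nat_lit 8866884729, nat_lit 8887363445, nat_lit 9578571111, nat_lit 8905191753], nat_lit 1271250, nat_lit 1271250, nat_lit 841600, nat_lit 1767000, nat_lit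 0, nat_lit 2373000, [nat_lit 1100000, nat_lit 1785000, nat_lit 1271250], [nat_lit 37, nat_lit 40, nat_lit 40, nat_lit 80, nat_lit 28, nat_lit 456, nat_lit 225, nat_lit 11]⟩,
 ⟨nat_lit 2236, nat_lit 2739, ⟨.ofNat (nat_lit 438420), .ofNat (nat_lit 603890), .ofNat (nat_lit 460818), .ofNat (nat_lit 626287), .ofNat (nat_lit 442816), .ofNat (nat_lit 602558), .ofNat (nat_lit 465571), .ofNat (nat_lit 625312)⟩, ⟨.ofNat (nat_lit 0), .ofNat (nat_lit 143475), .ofNat (nat_lit 0), .ofNat (nat_lit 188310), .ofNat (nat_lit 0), .ofNat (nat_lit 146758), .ofNat (nat_lit 0), .ofNat (nat_lit 192306)⟩⟩, [⟨nat_lit 3, nat_lit 100, nat_lit 68, nat_lit 40, nat_lit 3534979⟩, ⟨nat_lit 22, nat_lit 100, nat_lit 75, nat_lit 60, nat_lit 43067468⟩]⟩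
noncomputable def p109_l22 : Lf2 := ⟨nat_lit 0, nat_lit 20, [nat_lit 5, nat_lit 5, nat_lit 5, nat_lit 20], false, nat_lit 0, nat_lit 80, nat_lit 0, nat_lit 320, ⟨nat_lit 217, nat_lit 0, nat_lit 783, nat_lit 6, nat_lit 223, nat_lit 783, nat_lit 33, nat_lit 783, nat_lit 10417, nat_lit 240, nat_lit 27594, nat_lit 200, nat_lit 51103906, nat_lit 0, nat_lit 0, nat_lit 2739475, false, false⟩,
 nat_lit 3073, nat_lit 0, nat_lit 0, nat_lit 0, nat_lit 2676, nat_lit 1788, nat_lit 38, nat_lit 0, nat_lit 0, nat_lit 0, nat_lit 0, nat_lit 0, nat_lit 0, nat_lit 0, nat_lit 20, nat_lit 232950, nat_lit 0, nat_lit 0, [(nat_lit 25, [(nat_lit 4, nat_lit 535), (nat_lit 5, nat_lit 248)])],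
 ⟨p109_k1, nat_lit 0, nat_lit 0, nat_lit 339, nat_lit 0, nat_lit 514794, [nat_lit 853173200, nat_lit 581358001, nat_lit 24336399], [], [nat_lit 20520269292, nat_lit 21575624785, nat_lit 22883591709, nat_lit 23980803800, nat_lit 20284664811, nat_lit 21285851038, nat_lit 22609907726, nat_lit 23650133945], nat_lit 1271250, nat_lit 1271250, nat_lit 872850, nat_lit 1769250, nat_lit 0, nat_lit 490000, [nat_lit 230000, nat_lit 780000, nat_lit 1435000], [nat_lit 20, nat_lit 40, nat_lit 40, nat_lit 80, nat_lit 16, nat_lit 317, nat_lit 100, nat_lit 12]⟩, ⟨p109_k4, nat_lit 0, nat_lit 0, nat_lit 685, nat_lit 0, nat_lit 849242, [nat_lit 1017296000, nat_lit 1729056000, nat_lit 2576224000], [], [nat_lit 9652659937, nat_lit 9749423690, nat_lit 9641151126, nat_lit 9710747528, nat_lit 8800706141, nat_lit 8835849885, nat_lit 9728103644, nat_lit 8928867644], nat_lit 1271250, nat_lit 1271250, nat_lit 872850, nat_lit 1769250, nat_lit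 0, nat_lit 2260000, [nat_lit 1100000, nat_lit 1785000, nat_lit 1271250], [nat_lit 21, nat_lit 40, nat_lit 40, nat_lit 80, nat_lit 14, nat_lit 456, nat_lit 225, nat_lit 12]⟩,
 ⟨nat_lit 2236, nat_lit 3163, ⟨.ofNat (nat_lit 462477), .ofNat (nat_lit 627331), .ofNat (nat_lit 484568), .ofNat (nat_lit 649422), .ofNat (nat_lit 471029), .ofNat (nat_lit 625251), .ofNat (nat_lit 493740), .ofNat (nat_lit 647962)⟩, ⟨.ofNat (nat_lit 0), .ofNat (nat_lit 139899), .ofNat (nat_lit 0), .ofNat (nat_lit 184209), .ofNat (nat_lit 0), .ofNat (nat_lit 146758), .ofNat (nat_lit 0), .ofNat (nat_lit 192306)⟩⟩, [⟨nat_lit 3, nat_lit 100, nat_lit 74, nat_lit 33, nat_lit 26631845⟩, ⟨nat_lit 7, nat_lit 97, nat_lit 100, nat_lit 76, nat_lit 21946934⟩, ⟨nat_lit 10, nat_lit 80, nat_lit 100, nat_lit 54, nat_lit 17125341⟩]⟩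
noncomputable def p109_l23 : Lf2 := ⟨nat_lit 0, nat_lit 20, [nat_lit 5, nat_lit 5, nat_lit 5, nat_lit 20], false, nat_lit 0, nat_lit 80, nat_lit 0, nat_lit 336, ⟨nat_lit 157, nat_lit 199, nat_lit 644, nat_lit 6, nat_lit 213, nat_lit 843, nat_lit 34, nat_lit 644, nat_lit 11267, nat_lit 241, nat_lit 4820, nat_lit 214, nat_lit 52181227, nat_lit 14818773, nat_lit 0, nat_lit 2641958, false, false⟩,
 nat_lit 2721, nat_lit 0, nat_lit 0, nat_lit 0, nat_lit 2542, nat_lit 1440, nat_lit 0, nat_lit 0, nat_lit 0, nat_lit 0, nat_lit 0, nat_lit 0, nat_lit 0, nat_lit 0, nat_lit 66, nat_lit 307350, nat_lit 0, nat_lit 0, [(nat_lit 28, [(nat_lit 0, nat_lit 199), (nat_lit 5, nat_lit 644)])],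
 ⟨p109_k9, nat_lit 0, nat_lit 0, nat_lit 359, nat_lit 0, nat_lit 569506, [nat_lit 949082801, nat_lit 382772800, nat_lit 265291200], [], [nat_lit 21428589271, nat_lit 22958722102, nat_lit 22535152972, nat_lit 23967317104, nat_lit 21307417384, nat_lit 22435827438, nat_lit 22408406090, nat_lit 23593183410], nat_lit 1271250, nat_lit 1271250, nat_lit 1000851, nat_lit 1440250, nat_lit 0, nat_lit 490000, [nat_lit 230000, nat_lit 780000, nat_lit 1435000], [nat_lit 20, nat_lit 40, nat_lit 40, nat_lit 80, nat_lit 16, nat_lit 289, nat_lit 75, nat_lit 10]⟩, ⟨p109_k10, nat_lit 0, nat_lit 0, nat_lit 903, nat_lit 0, nat_lit 1155508, [nat_lit 736016000, nat_lit 1250976000, nat_lit 2207106000], [], [nat_lit 7309963434, nat_lit 7362822396, nat_lit 7211254464, nat_lit 7250783096, nat_lit 6343026764, nat_lit 6326907511, nat_lit 7111992716, nat_lit 6168409867], nat_lit 1271250, nat_lit 1271250, nat_lit 1000851, nat_lit 1440250, nat_lit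 0, nat_lit 2373000, [nat_lit 1100000, nat_lit 1785000, nat_lit 1271250], [nat_lit 37, nat_lit 40, nat_lit 40, nat_lit 80, nat_lit 28, nat_lit 456, nat_lit 225, nat_lit 11]⟩,
 ⟨nat_lit 0, nat_lit 2237, ⟨.ofNat (nat_lit 467180), .ofNat (nat_lit 543695), .ofNat (nat_lit 510875), .ofNat (nat_lit 587391), .ofNat (nat_lit 480752), .ofNat (nat_lit 548146), .ofNat (nat_lit 528899), .ofNat (nat_lit 596294)⟩, ⟨.ofNat (nat_lit 0), .ofNat (nat_lit 146756), .ofNat (nat_lit 0), .ofNat (nat_lit 192306), .ofNat (nat_lit 0), .ofNat (nat_lit 149997), .ofNat (nat_lit 0), .ofNat (nat_lit 199999)⟩⟩, [⟨nat_lit 0, nat_lit 95, nat_lit 31, nat_lit 100, nat_lit 218743487⟩, ⟨nat_lit 3, nat_lit 100, nat_lit 44, nat_lit 64, nat_lit 48460973⟩, ⟨nat_lit 7, nat_lit 92, nat_lit 100, nat_lit 75, nat_lit 18167067⟩]⟩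
noncomputable def p109_l24 : Lf2 := ⟨nat_lit 0, nat_lit 20, [nat_lit 5, nat_lit 5, nat_lit 5, nat_lit 20], false, nat_lit 0, nat_lit 80, nat_lit 0, nat_lit 336, ⟨nat_lit 168, nat_lit 612, nat_lit 220, nat_lit 6, nat_lit 239, nat_lit 832, nat_lit 34, nat_lit 220, nat_lit 11267, nat_lit 241, nat_lit 25022, nat_lit 200, nat_lit 49414649, nat_lit 17585351, nat_lit 0, nat_lit 2878111, true, false⟩,
 nat_lit 2964, nat_lit 0, nat_lit 0, nat_lit 0, nat_lit 2769, nat_lit 1568, nat_lit 0, nat_lit 0, nat_lit 0, nat_lit 135, nat_lit 0, nat_lit 0, nat_lit 0, nat_lit 0, nat_lit 0, nat_lit 332800, nat_lit 0, nat_lit 0, [(nat_lit 28, [(nat_lit 1, nat_lit 612), (nat_lit 5, nat_lit 220)])],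
 ⟨p109_k9, nat_lit 0, nat_lit 0, nat_lit 351, nat_lit 0, nat_lit 569506, [nat_lit 715107200, nat_lit 360665601, nat_lit 332864000], [], [nat_lit 23573249493, nat_lit 24652179444, nat_lit 24622157372, nat_lit 25748304048, nat_lit 23315786281, nat_lit 24295545832, nat_lit 24285765646, nat_lit 25271453740], nat_lit 1271250, nat_lit 1271250, nat_lit 1271250, nat_lit 1271250, nat_lit 0, nat_lit 490000, [nat_lit 230000, nat_lit 780000, nat_lit 1435000], [nat_lit 20, nat_lit 40, nat_lit 40, nat_lit 80, nat_lit 16, nat_lit 226, nat_lit 20, nat_lit 8]⟩, ⟨p109_k10, nat_lit 0, nat_lit 0, nat_lit 855, nat_lit 0, nat_lit 1155508, [nat_lit 787584000, nat_lit 1338624000, nat_lit 2361744000], [], [nat_lit 6256810060, nat_lit 6297756812, nat_lit 6238739756, nat_lit 6269441472, nat_lit 6444685767, nat_lit 5332351898, nat_lit 5281841242, nat_lit 5287046457], nat_lit 1271250, nat_lit 1271250, nat_lit 1271250, nat_lit 1271250, nat_lit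 0, nat_lit 2373000, [nat_lit 1100000, nat_lit 1785000, nat_lit 1271250], [nat_lit 37, nat_lit 40, nat_lit 40, nat_lit 80, nat_lit 28, nat_lit 456, nat_lit 225, nat_lit 10]⟩,
 ⟨nat_lit 0, nat_lit 2237, ⟨.ofNat (nat_lit 543695), .ofNat (nat_lit 602531), .ofNat (nat_lit 587391), .ofNat (nat_lit 646249), .ofNat (nat_lit 548146), .ofNat (nat_lit 599967), .ofNat (nat_lit 596294), .ofNat (nat_lit 648136)⟩, ⟨.ofNat (nat_lit 0), .ofNat (nat_lit 146756), .ofNat (nat_lit 0), .ofNat (nat_lit 192306), .ofNat (nat_lit 0), .ofNat (nat_lit 149997), .ofNat (nat_lit 0), .ofNat (nat_lit 199999)⟩⟩, [⟨nat_lit 0, nat_lit 95, nat_lit 31, nat_lit 100, nat_lit 219474503⟩, ⟨nat_lit 19, nat_lit 100, nat_lit 92, nat_lit 75, nat_lit 22889437⟩]⟩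
noncomputable def p109_l25 : Lf2 := ⟨nat_lit 0, nat_lit 20, [nat_lit 5, nat_lit 5, nat_lit 5, nat_lit 20], false, nat_lit 80, nat_lit 200, nat_lit 0, nat_lit 336, ⟨nat_lit 154, nat_lit 148, nat_lit 698, nat_lit 6, nat_lit 208, nat_lit 846, nat_lit 102, nat_lit 698, nat_lit 96267, nat_lit 291, nat_lit 2400, nat_lit 203, nat_lit 48421586, nat_lit 13992647, nat_lit 4585767, nat_lit 3957111, false, false⟩,
 nat_lit 2265, nat_lit 1051, nat_lit 0, nat_lit 0, nat_lit 2887, nat_lit 1199, nat_lit 56, nat_lit 0, nat_lit 0, nat_lit 0, nat_lit 0, nat_lit 0, nat_lit 0, nat_lit 0, nat_lit 2, nat_lit 211500, nat_lit 0, nat_lit 0, [(nat_lit 25, [(nat_lit 0, nat_lit 148), (nat_lit 4, nat_lit 698)])],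
 ⟨p109_k1, nat_lit 0, nat_lit 0, nat_lit 257, nat_lit 0, nat_lit 476783, [nat_lit 773668001, nat_lit 479427467, nat_lit 27497333], [], [nat_lit 19101721786, nat_lit 20177259575, nat_lit 21535949561, nat_lit 22570392376, nat_lit 20847477093, nat_lit 21802315599, nat_lit 23163369412, nat_lit 24172535776], nat_lit 1271250, nat_lit 1271250, nat_lit 719601, nat_lit 1758000, nat_lit 490000, nat_lit 1427500, [nat_lit 230000, nat_lit 780000, nat_lit 1435000], [nat_lit 20, nat_lit 40, nat_lit 40, nat_lit 80, nat_lit 16, nat_lit 345, nat_lit 125, nat_lit 13]⟩, ⟨p109_k10, nat_lit 0, nat_lit 0, nat_lit 786, nat_lit 0, nat_lit 889488, [nat_lit 721952000, nat_lit 1227072000, nat_lit 2164932000], [], [nat_lit 7900137336, nat_lit 7689490512, nat_lit 7560412552, nat_lit 7600146840, nat_lit 7102561137, nat_lit 7120051814, nat_lit 7552919027, nat_lit 7019641715], nat_lit 1271250, nat_lit 1271250, nat_lit 719601, nat_lit 1758000, nat_lit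 0, nat_lit 2373000, [nat_lit 1100000, nat_lit 1785000, nat_lit 1271250], [nat_lit 37, nat_lit 40, nat_lit 40, nat_lit 80, nat_lit 28, nat_lit 456, nat_lit 225, nat_lit 11]⟩,
 ⟨nat_lit 2236, nat_lit 3163, ⟨.ofNat (nat_lit 409856), .ofNat (nat_lit 605240), .ofNat (nat_lit 431948), .ofNat (nat_lit 627331), .ofNat (nat_lit 419758), .ofNat (nat_lit 602541), .ofNat (nat_lit 442469), .ofNat (nat_lit 625251)⟩, ⟨.ofNat (nat_lit 139899), .ofNat (nat_lit 322759), .ofNat (nat_lit 184209), .ofNat (nat_lit 367069), .ofNat (nat_lit 146758), .ofNat (nat_lit 317804), .ofNat (nat_lit 192306), .ofNat (nat_lit 363353)⟩⟩, [⟨nat_lit 4, nat_lit 100, nat_lit 54, nat_lit 73, nat_lit 242313073⟩, ⟨nat_lit 7, nat_lit 88, nat_lit 100, nat_lit 74, nat_lit 27849622⟩]⟩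
noncomputable def p109_l26 : Lf2 := ⟨nat_lit 0, nat_lit 20, [nat_lit 5, nat_lit 5, nat_lit 5, nat_lit 20], false, nat_lit 80, nat_lit 164, nat_lit 0, nat_lit 336, ⟨nat_lit 82, nat_lit 607, nat_lit 311, nat_lit 6, nat_lit 220, nat_lit 918, nat_lit 91, nat_lit 311, nat_lit 79350, nat_lit 284, nat_lit 2526, nat_lit 204, nat_lit 47929936, nat_lit 15190103, nat_lit 3879961, nat_lit 3919225, false, false⟩,
 nat_lit 1527, nat_lit 1360, nat_lit 0, nat_lit 0, nat_lit 2697, nat_lit 808, nat_lit 0, nat_lit 0, nat_lit 0, nat_lit 0, nat_lit 0, nat_lit 0, nat_lit 0, nat_lit 0, nat_lit 34, nat_lit 367200, nat_lit 0, nat_lit 0, [(nat_lit 28, [(nat_lit 1, nat_lit 607), (nat_lit 5, nat_lit 311)])],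
 ⟨p109_k9, nat_lit 0, nat_lit 0, nat_lit 305, nat_lit 0, nat_lit 540754, [nat_lit 820968800, nat_lit 323683201, nat_lit 143106400], [], [nat_lit 20597172026, nat_lit 21775285810, nat_lit 22755579140, nat_lit 23810114872, nat_lit 21689869989, nat_lit 22756455976, nat_lit 23659706068, nat_lit 24595477173], nat_lit 1271250, nat_lit 1271250, nat_lit 1000851, nat_lit 1778250, nat_lit 490000, nat_lit 1133651, [nat_lit 230000, nat_lit 780000, nat_lit 1435000], [nat_lit 20, nat_lit 40, nat_lit 40, nat_lit 80, nat_lit 16, nat_lit 345, nat_lit 125, nat_lit 12]⟩, ⟨p109_k10, nat_lit 0, nat_lit 0, nat_lit 852, nat_lit 0, nat_lit 1097171, [nat_lit 384416000, nat_lit 653376000, nat_lit 1152756000], [], [nat_lit 3900403247, nat_lit 3609839052, nat_lit 3524323224, nat_lit 3530009008, nat_lit 3147188555, nat_lit 3195834119, nat_lit 4206156197, nat_lit 3846783330], nat_lit 1271250, nat_lit 1271250, nat_lit 1000851, nat_lit 1778250,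 nat_lit 0, nat_lit 2373000, [nat_lit 1100000, nat_lit 1785000, nat_lit 1271250], [nat_lit 37, nat_lit 40, nat_lit 40, nat_lit 80, nat_lit 28, nat_lit 456, nat_lit 225, nat_lit 11]⟩,
 ⟨nat_lit 0, nat_lit 2237, ⟨.ofNat (nat_lit 467180), .ofNat (nat_lit 602531), .ofNat (nat_lit 489028), .ofNat (nat_lit 624400), .ofNat (nat_lit 480752), .ofNat (nat_lit 599967), .ofNat (nat_lit 504825), .ofNat (nat_lit 624062)⟩, ⟨.ofNat (nat_lit 146756), .ofNat (nat_lit 266484), .ofNat (nat_lit 192306), .ofNat (nat_lit 312035), .ofNat (nat_lit 149997), .ofNat (nat_lit 254993), .ofNat (nat_lit 199999), .ofNat (nat_lit 304995)⟩⟩, [⟨nat_lit 16, nat_lit 35, nat_lit 100, nat_lit 80, nat_lit 275798448⟩, ⟨nat_lit 7, nat_lit 88, nat_lit 100, nat_lit 74, nat_lit 27422016⟩]⟩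
noncomputable def p109_l27 : Lf2 := ⟨nat_lit 0, nat_lit 20, [nat_lit 5, nat_lit 5, nat_lit 5, nat_lit 20], false, nat_lit 80, nat_lit 200, nat_lit 0, nat_lit 320, ⟨nat_lit 224, nat_lit 77, nat_lit 699, nat_lit 6, nat_lit 223, nat_lit 776, nat_lit 102, nat_lit 699, nat_lit 96267, nat_lit 291, nat_lit 27594, nat_lit 200, nat_lit 47014433, nat_lit 15451997, nat_lit 4533570, nat_lit 4081040, false, false⟩,
 nat_lit 3364, nat_lit 7, nat_lit 0, nat_lit 0, nat_lit 2935, nat_lit 1958, nat_lit 32, nat_lit 0, nat_lit 0, nat_lit 0, nat_lit 0, nat_lit 0, nat_lit 0, nat_lit 0, nat_lit 8, nat_lit 246050, nat_lit 0, nat_lit 0, [(nat_lit 25, [(nat_lit 0, nat_lit 77), (nat_lit 4, nat_lit 352), (nat_lit 5, nat_lit 347)])],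
 ⟨p109_k1, nat_lit 0, nat_lit 0, nat_lit 270, nat_lit 0, nat_lit 514794, [nat_lit 809256800, nat_lit 561199201, nat_lit 21661599], [], [nat_lit 19360872113, nat_lit 20450822323, nat_lit 21578772058, nat_lit 22627581880, nat_lit 21083991913, nat_lit 22023516820, nat_lit 23158853969, nat_lit 24141235945], nat_lit 1271250, nat_lit 1271250, nat_lit 872850, nat_lit 1769250, nat_lit 490000, nat_lit 1427500, [nat_lit 230000, nat_lit 780000, nat_lit 1435000], [nat_lit 20, nat_lit 40, nat_lit 40, nat_lit 80, nat_lit 16, nat_lit 345, nat_lit 125, nat_lit 12]⟩, ⟨p109_k4, nat_lit 0, nat_lit 0, nat_lit 685, nat_lit 0, nat_lit 849242, [nat_lit 1050112000, nat_lit 1784832000, nat_lit 2659328000], [], [nat_lit 9989251930, nat_lit 9741674529, nat_lit 9601870620, nat_lit 9672680272, nat_lit 8636507755, nat_lit 8670106342, nat_lit 10060343328, nat_lit 9185117328], nat_lit 1271250, nat_lit 1271250, nat_lit 872850, nat_lit 1769250, nat_lit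 0, nat_lit 2260000, [nat_lit 1100000, nat_lit 1785000, nat_lit 1271250], [nat_lit 21, nat_lit 40, nat_lit 40, nat_lit 80, nat_lit 14, nat_lit 456, nat_lit 225, nat_lit 12]⟩,
 ⟨nat_lit 2236, nat_lit 3163, ⟨.ofNat (nat_lit 462477), .ofNat (nat_lit 627331), .ofNat (nat_lit 484568), .ofNat (nat_lit 649422), .ofNat (nat_lit 471029), .ofNat (nat_lit 625251), .ofNat (nat_lit 493740), .ofNat (nat_lit 647962)⟩, ⟨.ofNat (nat_lit 139899), .ofNat (nat_lit 322759), .ofNat (nat_lit 184209), .ofNat (nat_lit 367069), .ofNat (nat_lit 146758), .ofNat (nat_lit 317804), .ofNat (nat_lit 192306), .ofNat (nat_lit 363353)⟩⟩, [⟨nat_lit 4, nat_lit 100, nat_lit 54, nat_lit 73, nat_lit 268233102⟩, ⟨nat_lit 19, nat_lit 100, nat_lit 85, nat_lit 84, nat_lit 29652804⟩]⟩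
noncomputable def p109_l28 : Lf2 := ⟨nat_lit 0, nat_lit 20, [nat_lit 5, nat_lit 5, nat_lit 5, nat_lit 20], false, nat_lit 80, nat_lit 164, nat_lit 0, nat_lit 320, ⟨nat_lit 198, nat_lit 470, nat_lit 332, nat_lit 6, nat_lit 234, nat_lit 802, nat_lit 91, nat_lit 332, nat_lit 79350, nat_lit 284, nat_lit 25022, nat_lit 200, nat_lit 46507569, nat_lit 16660014, nat_lit 3832417, nat_lit 4033072, false, false⟩,
 nat_lit 3238, nat_lit 0, nat_lit 0, nat_lit 0, nat_lit 3025, nat_lit 1884, nat_lit 0, nat_lit 0, nat_lit 0, nat_lit 0, nat_lit 0, nat_lit 0, nat_lit 0, nat_lit 0, nat_lit 4, nat_lit 320800, nat_lit 0, nat_lit 0, [(nat_lit 28, [(nat_lit 1, nat_lit 470), (nat_lit 5, nat_lit 332)])],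
 ⟨p109_k9, nat_lit 0, nat_lit 0, nat_lit 309, nat_lit 0, nat_lit 569506, [nat_lit 726671200, nat_lit 262719201, nat_lit 172684800], [], [nat_lit 20891168381, nat_lit 22336645780, nat_lit 22734812200, nat_lit 24283345400, nat_lit 21872240425, nat_lit 22963197385, nat_lit 23497788736, nat_lit 24746253455], nat_lit 1271250, nat_lit 1271250, nat_lit 1167600, nat_lit 1789500, nat_lit 490000, nat_lit 1133651, [nat_lit 230000, nat_lit 780000, nat_lit 1435000], [nat_lit 20, nat_lit 40, nat_lit 40, nat_lit 80, nat_lit 16, nat_lit 345, nat_lit 125, nat_lit 12]⟩, ⟨p109_k4, nat_lit 0, nat_lit 0, nat_lit 737, nat_lit 0, nat_lit 1021767, [nat_lit 928224000, nat_lit 1577664000, nat_lit 2350656000], [], [nat_lit 8258124178, nat_lit 8299854336, nat_lit 8188073820, nat_lit 8215307424, nat_lit 7839600744, nat_lit 6977521532, nat_lit 6788129304, nat_lit 6775593936], nat_lit 1271250, nat_lit 1271250, nat_lit 1271250, nat_lit 1271250,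 nat_lit 0, nat_lit 2260000, [nat_lit 1100000, nat_lit 1785000, nat_lit 1271250], [nat_lit 21, nat_lit 40, nat_lit 40, nat_lit 80, nat_lit 14, nat_lit 456, nat_lit 225, nat_lit 12]⟩,
 ⟨nat_lit 0, nat_lit 2237, ⟨.ofNat (nat_lit 518456), .ofNat (nat_lit 624400), .ofNat (nat_lit 540305), .ofNat (nat_lit 646249), .ofNat (nat_lit 530746), .ofNat (nat_lit 624062), .ofNat (nat_lit 554820), .ofNat (nat_lit 648136)⟩, ⟨.ofNat (nat_lit 146756), .ofNat (nat_lit 266484), .ofNat (nat_lit 192306), .ofNat (nat_lit 312035), .ofNat (nat_lit 149997), .ofNat (nat_lit 254993), .ofNat (nat_lit 199999), .ofNat (nat_lit 304995)⟩⟩, [⟨nat_lit 0, nat_lit 94, nat_lit 31, nat_lit 100, nat_lit 87326032⟩, ⟨nat_lit 4, nat_lit 100, nat_lit 35, nat_lit 80, nat_lit 350100416⟩, ⟨nat_lit 19, nat_lit 100, nat_lit 97, nat_lit 76, nat_lit 18613079⟩]⟩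
noncomputable def b_V_900_600_10_11 : St := ⟨true, nat_lit 1, nat_lit 1, nat_lit 1, nat_lit 80, nat_lit 360, nat_lit 400, nat_lit 240, nat_lit 280, nat_lit 112, nat_lit 240, nat_lit 40, nat_lit 80, nat_lit 0, nat_lit 200, nat_lit 0, nat_lit 336, nat_lit 40, nat_lit 80, nat_lit 0, nat_lit 0, nat_lit 0, nat_lit 0⟩
theorem d_V_900_600_10_11 (h : EB TB.env) : Dead b_V_900_600_10_11 := chkB_sound0 h (T :=
(.spl (nat_lit 4) (nat_lit 80)
(.spl (nat_lit 0) (nat_lit 380)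
(.spl (nat_lit 1) (nat_lit 260)
(.spl (nat_lit 0) (nat_lit 370)
(.leaf p109_l20)
(.trZ (nat_lit 0) (nat_lit 100) (nat_lit 54) (nat_lit 96) (nat_lit 128) (.leaf p109_l21)))
(.trZ (nat_lit 0) (nat_lit 100) (nat_lit 63) (nat_lit 99) (nat_lit 132) (.trX (nat_lit 19) (nat_lit 100) (nat_lit 85) (nat_lit 84) (nat_lit 320) (.leaf p109_l22))))
(.trZ (nat_lit 0) (nat_lit 100) (nat_lit 44) (nat_lit 99) (nat_lit 148) (.spl (nat_lit 2) (nat_lit 200)
(.leaf p109_l23)
(.leaf p109_l24))))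
(.spl (nat_lit 1) (nat_lit 260)
(.spl (nat_lit 0) (nat_lit 380)
(.leaf p109_l25)
(.trZ (nat_lit 0) (nat_lit 100) (nat_lit 44) (nat_lit 99) (nat_lit 148) (.trX (nat_lit 16) (nat_lit 44) (nat_lit 100) (nat_lit 82) (nat_lit 164) (.leaf p109_l26))))
(.trZ (nat_lit 0) (nat_lit 100) (nat_lit 63) (nat_lit 99) (nat_lit 132) (.trX (nat_lit 19) (nat_lit 100) (nat_lit 85) (nat_lit 84) (nat_lit 320) (.spl (nat_lit 0) (nat_lit 380)
(.leaf p109_l27)
(.trZ (nat_lit 0) (nat_lit 96) (nat_lit 44) (nat_lit 100) (nat_lit 168) (.trX (nat_lit 16) (nat_lit 44) (nat_lit 100) (nat_lit 82) (nat_lit 164) (.leaf p109_l28))))))))) (by decide +kernel)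
noncomputable def p109_l29 : Lf2 := ⟨nat_lit 0, nat_lit 15, [nat_lit 30, nat_lit 5, nat_lit 5, nat_lit 20], false, nat_lit 0, nat_lit 80, nat_lit 0, nat_lit 312, ⟨nat_lit 211, nat_lit 789, nat_lit 0, nat_lit 6, nat_lit 270, nat_lit 789, nat_lit 31, nat_lit 0, nat_lit 0, nat_lit 0, nat_lit 0, nat_lit 0, nat_lit 46066679, nat_lit 20933321, nat_lit 0, nat_lit 3105185, true, true⟩,
 nat_lit 3684, nat_lit 0, nat_lit 0, nat_lit 0, nat_lit 3208, nat_lit 1950, nat_lit 97, nat_lit 0, nat_lit 0, nat_lit 150, nat_lit 0, nat_lit 0, nat_lit 0, nat_lit 0, nat_lit 0, nat_lit 378600, nat_lit 0, nat_lit 0, [(nat_lit 25, [(nat_lit 1, nat_lit 684), (nat_lit 2, nat_lit 105)])],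
 ⟨p109_k12, nat_lit 0, nat_lit 0, nat_lit 317, nat_lit 0, nat_lit 459635, [nat_lit 929943201, nat_lit 1337963200, nat_lit 1535372800], [], [nat_lit 25283854475, nat_lit 26165996955, nat_lit 27547102443, nat_lit 28856166224, nat_lit 24562704683, nat_lit 25394150923, nat_lit 26795712951, nat_lit 27592072155], nat_lit 1271250, nat_lit 1271250, nat_lit 1271250, nat_lit 1271250, nat_lit 0, nat_lit 490000, [nat_lit 230000, nat_lit 780000, nat_lit 1435000], [nat_lit 20, nat_lit 40, nat_lit 40, nat_lit 80, nat_lit 16, nat_lit 226, nat_lit 20, nat_lit 8]⟩, ⟨p109_k13, nat_lit 0, nat_lit 0, nat_lit 653, nat_lit 0, nat_lit 849063, [nat_lit 989168000, nat_lit 1681248000, nat_lit 2504992000], [], [nat_lit 7798588320, nat_lit 7838417566, nat_lit 8087524224, nat_lit 8175142124, nat_lit 6415533331, nat_lit 6440821298, nat_lit 6591164331, nat_lit 6613992202], nat_lit 1271250, nat_lit 1271250, nat_lit 1271250, nat_lit 1271250, nat_lit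 0, nat_lit 2203500, [nat_lit 1100000, nat_lit 1785000, nat_lit 1271250], [nat_lit 21, nat_lit 40, nat_lit 40, nat_lit 80, nat_lit 14, nat_lit 456, nat_lit 225, nat_lit 11]⟩,
 ⟨nat_lit 2236, nat_lit 3163, ⟨.ofNat (nat_lit 605240), .ofNat (nat_lit 727168), .ofNat (nat_lit 627331), .ofNat (nat_lit 749323), .ofNat (nat_lit 602541), .ofNat (nat_lit 716594), .ofNat (nat_lit 625251), .ofNat (nat_lit 739368)⟩, ⟨.ofNat (nat_lit 0), .ofNat (nat_lit 139899), .ofNat (nat_lit 0), .ofNat (nat_lit 162054), .ofNat (nat_lit 0), .ofNat (nat_lit 146758), .ofNat (nat_lit 0), .ofNat (nat_lit 169532)⟩⟩, [⟨nat_lit 22, nat_lit 94, nat_lit 100, nat_lit 62, nat_lit 23466150⟩]⟩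
noncomputable def p109_l30 : Lf2 := ⟨nat_lit 0, nat_lit 20, [nat_lit 5, nat_lit 5, nat_lit 5, nat_lit 20], false, nat_lit 0, nat_lit 80, nat_lit 0, nat_lit 336, ⟨nat_lit 279, nat_lit 354, nat_lit 367, nat_lit 6, nat_lit 270, nat_lit 721, nat_lit 35, nat_lit 367, nat_lit 12150, nat_lit 242, nat_lit 227396, nat_lit 200, nat_lit 46066679, nat_lit 20933321, nat_lit 0, nat_lit 3105185, true, true⟩,
 nat_lit 4688, nat_lit 0, nat_lit 0, nat_lit 0, nat_lit 3166, nat_lit 2481, nat_lit 0, nat_lit 0, nat_lit 0, nat_lit 236, nat_lit 0, nat_lit 0, nat_lit 0, nat_lit 0, nat_lit 0, nat_lit 269200, nat_lit 0, nat_lit 0, [(nat_lit 25, [(nat_lit 0, nat_lit 128), (nat_lit 1, nat_lit 226), (nat_lit 5, nat_lit 367)])],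
 ⟨p109_k1, nat_lit 0, nat_lit 0, nat_lit 292, nat_lit 0, nat_lit 384306, [nat_lit 817007601, nat_lit 1055083867, nat_lit 1097788400], [], [nat_lit 25399450183, nat_lit 26277138143, nat_lit 27705228670, nat_lit 28747204448, nat_lit 24702791599, nat_lit 25530913170, nat_lit 26918126502, nat_lit 27676339070], nat_lit 1271250, nat_lit 1271250, nat_lit 1271250, nat_lit 1271250, nat_lit 0, nat_lit 490000, [nat_lit 230000, nat_lit 780000, nat_lit 1435000], [nat_lit 20, nat_lit 40, nat_lit 40, nat_lit 80, nat_lit 16, nat_lit 226, nat_lit 20, nat_lit 8]⟩, ⟨p109_k10, nat_lit 0, nat_lit 0, nat_lit 634, nat_lit 0, nat_lit 716963, [nat_lit 1307952000, nat_lit 2223072000, nat_lit 3922182000], [], [nat_lit 10004232692, nat_lit 10124048456, nat_lit 10574771804, nat_lit 10660618478, nat_lit 8644960984, nat_lit 8682475658, nat_lit 9072475009, nat_lit 9151139869], nat_lit 1271250, nat_lit 1271250, nat_lit 1271250, nat_lit 1271250,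 nat_lit 0, nat_lit 2373000, [nat_lit 1100000, nat_lit 1785000, nat_lit 1271250], [nat_lit 37, nat_lit 40, nat_lit 40, nat_lit 80, nat_lit 28, nat_lit 483, nat_lit 250, nat_lit 11]⟩,
 ⟨nat_lit 2236, nat_lit 3163, ⟨.ofNat (nat_lit 605240), .ofNat (nat_lit 727168), .ofNat (nat_lit 627331), .ofNat (nat_lit 749323), .ofNat (nat_lit 602541), .ofNat (nat_lit 716594), .ofNat (nat_lit 625251), .ofNat (nat_lit 739368)⟩, ⟨.ofNat (nat_lit 0), .ofNat (nat_lit 162054), .ofNat (nat_lit 0), .ofNat (nat_lit 184209), .ofNat (nat_lit 0), .ofNat (nat_lit 169532), .ofNat (nat_lit 0), .ofNat (nat_lit 192306)⟩⟩, [⟨nat_lit 22, nat_lit 94, nat_lit 100, nat_lit 62, nat_lit 52276229⟩]⟩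
noncomputable def p109_l31 : Lf2 := ⟨nat_lit 0, nat_lit 20, [nat_lit 5, nat_lit 5, nat_lit 5, nat_lit 20], false, nat_lit 0, nat_lit 80, nat_lit 0, nat_lit 260, ⟨nat_lit 398, nat_lit 602, nat_lit 0, nat_lit 8, nat_lit 307, nat_lit 602, nat_lit 33, nat_lit 0, nat_lit 0, nat_lit 0, nat_lit 0, nat_lit 0, nat_lit 42112912, nat_lit 24887088, nat_lit 0, nat_lit 3298611, true, true⟩,
 nat_lit 6390, nat_lit 0, nat_lit 0, nat_lit 0, nat_lit 3383, nat_lit 3382, nat_lit 82, nat_lit 0, nat_lit 0, nat_lit 297, nat_lit 0, nat_lit 0, nat_lit 0, nat_lit 0, nat_lit 0, nat_lit 381200, nat_lit 0, nat_lit 0, [(nat_lit 25, [(nat_lit 1, nat_lit 368), (nat_lit 2, nat_lit 234)])],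
 ⟨p109_k1, nat_lit 0, nat_lit 0, nat_lit 312, nat_lit 0, nat_lit 422466, [nat_lit 1027816001, nat_lit 1585882667, nat_lit 1911974400], [], [nat_lit 28664052827, nat_lit 29054394328, nat_lit 30527321503, nat_lit 31160534393, nat_lit 27721682683, nat_lit 28090619679, nat_lit 29176329877, nat_lit 29565570649], nat_lit 1271250, nat_lit 1271250, nat_lit 1271250, nat_lit 1271250, nat_lit 0, nat_lit 490000, [nat_lit 230000, nat_lit 780000, nat_lit 1435000], [nat_lit 20, nat_lit 40, nat_lit 40, nat_lit 80, nat_lit 16, nat_lit 226, nat_lit 20, nat_lit 7]⟩, ⟨p109_k10, nat_lit 0, nat_lit 0, nat_lit 646, nat_lit 0, nat_lit 788154, [nat_lit 1865824000, nat_lit 3171264000, nat_lit 5595084000], [], [nat_lit 16207846124, nat_lit 16264652648, nat_lit 16649137551, nat_lit 16681459204, nat_lit 13525166290, nat_lit 13530052642, nat_lit 13882956784, nat_lit 13915862260], nat_lit 1271250, nat_lit 1271250, nat_lit 1271250, nat_lit 1271250,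 nat_lit 0, nat_lit 1836250, [nat_lit 1100000, nat_lit 1785000, nat_lit 1271250], [nat_lit 37, nat_lit 40, nat_lit 40, nat_lit 80, nat_lit 28, nat_lit 456, nat_lit 225, nat_lit 10]⟩,
 ⟨nat_lit 2738, nat_lit 3163, ⟨.ofNat (nat_lit 727168), .ofNat (nat_lit 794217), .ofNat (nat_lit 749323), .ofNat (nat_lit 816372), .ofNat (nat_lit 722017), .ofNat (nat_lit 786985), .ofNat (nat_lit 744435), .ofNat (nat_lit 809402)⟩, ⟨.ofNat (nat_lit 0), .ofNat (nat_lit 139899), .ofNat (nat_lit 0), .ofNat (nat_lit 184209), .ofNat (nat_lit 0), .ofNat (nat_lit 143475), .ofNat (nat_lit 0), .ofNat (nat_lit 188310)⟩⟩, [⟨nat_lit 13, nat_lit 58, nat_lit 68, nat_lit 100, nat_lit 20303361⟩, ⟨nat_lit 22, nat_lit 71, nat_lit 100, nat_lit 61, nat_lit 34124887⟩]⟩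
noncomputable def p109_l32 : Lf2 := ⟨nat_lit 0, nat_lit 20, [nat_lit 5, nat_lit 5, nat_lit 5, nat_lit 20], false, nat_lit 0, nat_lit 80, nat_lit 0, nat_lit 260, ⟨nat_lit 228, nat_lit 772, nat_lit 0, nat_lit 8, nat_lit 302, nat_lit 772, nat_lit 34, nat_lit 0, nat_lit 0, nat_lit 0, nat_lit 0, nat_lit 0, nat_lit 42722979, nat_lit 24277021, nat_lit 0, nat_lit 3273772, true, true⟩,
 nat_lit 3820, nat_lit 0, nat_lit 0, nat_lit 0, nat_lit 3447, nat_lit 2022, nat_lit 88, nat_lit 0, nat_lit 0, nat_lit 169, nat_lit 0, nat_lit 0, nat_lit 0, nat_lit 0, nat_lit 0, nat_lit 193000, nat_lit 0, nat_lit 0, [(nat_lit 25, [(nat_lit 0, nat_lit 772)])],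
 ⟨p109_k6, nat_lit 0, nat_lit 0, nat_lit 321, nat_lit 0, nat_lit 456950, [nat_lit 803672000, nat_lit 1805009601, nat_lit 3060096000], [], [nat_lit 29325005419, nat_lit 29778913094, nat_lit 30738184887, nat_lit 31284935381, nat_lit 28418259901, nat_lit 28818693183, nat_lit 29493448606, nat_lit 29869050539], nat_lit 1271250, nat_lit 1271250, nat_lit 1271250, nat_lit 1271250, nat_lit 0, nat_lit 490000, [nat_lit 230000, nat_lit 780000, nat_lit 1435000], [nat_lit 20, nat_lit 40, nat_lit 40, nat_lit 80, nat_lit 16, nat_lit 226, nat_lit 20, nat_lit 7]⟩, ⟨p109_k10, nat_lit 0, nat_lit 0, nat_lit 722, nat_lit 0, nat_lit 889488, [nat_lit 1068864000, nat_lit 1816704000, nat_lit 3205224000], [], [nat_lit 9035790244, nat_lit 9066112468, nat_lit 9313673246, nat_lit 9453294569, nat_lit 7394921920, nat_lit 7394573377, nat_lit 7529186955, nat_lit 7549139700], nat_lit 1271250, nat_lit 1271250, nat_lit 1271250, nat_lit 1271250, nat_lit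 0, nat_lit 1836250, [nat_lit 1100000, nat_lit 1785000, nat_lit 1271250], [nat_lit 37, nat_lit 40, nat_lit 40, nat_lit 80, nat_lit 28, nat_lit 456, nat_lit 225, nat_lit 10]⟩,
 ⟨nat_lit 2236, nat_lit 2739, ⟨.ofNat (nat_lit 722017), .ofNat (nat_lit 769266), .ofNat (nat_lit 744435), .ofNat (nat_lit 791684), .ofNat (nat_lit 716594), .ofNat (nat_lit 762206), .ofNat (nat_lit 739368), .ofNat (nat_lit 784980)⟩, ⟨.ofNat (nat_lit 0), .ofNat (nat_lit 143475), .ofNat (nat_lit 0), .ofNat (nat_lit 188310), .ofNat (nat_lit 0), .ofNat (nat_lit 146758), .ofNat (nat_lit 0), .ofNat (nat_lit 192306)⟩⟩, [⟨nat_lit 13, nat_lit 50, nat_lit 75, nat_lit 100, nat_lit 313294084⟩, ⟨nat_lit 22, nat_lit 74, nat_lit 100, nat_lit 60, nat_lit 4733976⟩]⟩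
noncomputable def p109_l33 : Lf2 := ⟨nat_lit 0, nat_lit 15, [nat_lit 30, nat_lit 5, nat_lit 5, nat_lit 20], false, nat_lit 0, nat_lit 80, nat_lit 0, nat_lit 296, ⟨nat_lit 590, nat_lit 410, nat_lit 0, nat_lit 6, nat_lit 295, nat_lit 410, nat_lit 31, nat_lit 0, nat_lit 0, nat_lit 0, nat_lit 0, nat_lit 0, nat_lit 43382991, nat_lit 23617009, nat_lit 0, nat_lit 3244879, true, true⟩,
 nat_lit 7914, nat_lit 0, nat_lit 0, nat_lit 0, nat_lit 4212, nat_lit 4606, nat_lit 113, nat_lit 0, nat_lit 0, nat_lit 582, nat_lit 0, nat_lit 0, nat_lit 0, nat_lit 0, nat_lit 0, nat_lit 410000, nat_lit 0, nat_lit 0, [(nat_lit 25, [(nat_lit 2, nat_lit 410)])],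
 ⟨p109_k12, nat_lit 0, nat_lit 0, nat_lit 336, nat_lit 0, nat_lit 495831, [nat_lit 1155464000, nat_lit 1780197334, nat_lit 2088992000], [], [nat_lit 25472549296, nat_lit 27416912600, nat_lit 33640574720, nat_lit 34995476754, nat_lit 23475642717, nat_lit 24405924383, nat_lit 30198452484, nat_lit 31501135081], nat_lit 1271250, nat_lit 1271250, nat_lit 1271250, nat_lit 1271250, nat_lit 0, nat_lit 490000, [nat_lit 230000, nat_lit 780000, nat_lit 1435000], [nat_lit 20, nat_lit 40, nat_lit 40, nat_lit 80, nat_lit 16, nat_lit 226, nat_lit 20, nat_lit 8]⟩, ⟨p109_k14, nat_lit 0, nat_lit 0, nat_lit 619, nat_lit 0, nat_lit 811629, [nat_lit 2765920000, nat_lit 4701120000, nat_lit 7004480000], [], [nat_lit 19750027684, nat_lit 19987813728, nat_lit 22003543503, nat_lit 22150651346, nat_lit 17610922204, nat_lit 17731818186, nat_lit 18848065232, nat_lit 19216361086], nat_lit 1271250, nat_lit 1271250, nat_lit 1271250, nat_lit 1271250,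 nat_lit 0, nat_lit 2090500, [nat_lit 1100000, nat_lit 1785000, nat_lit 1271250], [nat_lit 21, nat_lit 40, nat_lit 40, nat_lit 80, nat_lit 14, nat_lit 483, nat_lit 250, nat_lit 12]⟩,
 ⟨nat_lit 2236, nat_lit 3163, ⟨.ofNat (nat_lit 627331), .ofNat (nat_lit 834658), .ofNat (nat_lit 649422), .ofNat (nat_lit 856813), .ofNat (nat_lit 625251), .ofNat (nat_lit 819190), .ofNat (nat_lit 647962), .ofNat (nat_lit 841964)⟩, ⟨.ofNat (nat_lit 0), .ofNat (nat_lit 139899), .ofNat (nat_lit 0), .ofNat (nat_lit 162054), .ofNat (nat_lit 0), .ofNat (nat_lit 146758), .ofNat (nat_lit 0), .ofNat (nat_lit 169532)⟩⟩, [⟨nat_lit 22, nat_lit 84, nat_lit 100, nat_lit 60, nat_lit 112029912⟩]⟩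
noncomputable def p109_l34 : Lf2 := ⟨nat_lit 0, nat_lit 20, [nat_lit 5, nat_lit 5, nat_lit 5, nat_lit 20], false, nat_lit 0, nat_lit 80, nat_lit 0, nat_lit 320, ⟨nat_lit 672, nat_lit 328, nat_lit 0, nat_lit 6, nat_lit 295, nat_lit 328, nat_lit 35, nat_lit 0, nat_lit 0, nat_lit 0, nat_lit 0, nat_lit 0, nat_lit 43382991, nat_lit 23617009, nat_lit 0, nat_lit 3244879, true, true⟩,
 nat_lit 9021, nat_lit 0, nat_lit 0, nat_lit 0, nat_lit 4429, nat_lit 5250, nat_lit 191, nat_lit 0, nat_lit 0, nat_lit 550, nat_lit 0, nat_lit 0, nat_lit 0, nat_lit 0, nat_lit 0, nat_lit 328000, nat_lit 0, nat_lit 0, [(nat_lit 25, [(nat_lit 2, nat_lit 328)])],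
 ⟨p109_k1, nat_lit 0, nat_lit 0, nat_lit 316, nat_lit 0, nat_lit 421733, [nat_lit 1111971200, nat_lit 2080557867, nat_lit 2921193600], [], [nat_lit 25900106132, nat_lit 27902352450, nat_lit 34254328840, nat_lit 35643760522, nat_lit 23353837800, nat_lit 24407605192, nat_lit 30582024635, nat_lit 31917707811], nat_lit 1271250, nat_lit 1271250, nat_lit 1271250, nat_lit 1271250, nat_lit 0, nat_lit 490000, [nat_lit 230000, nat_lit 780000, nat_lit 1435000], [nat_lit 20, nat_lit 40, nat_lit 40, nat_lit 80, nat_lit 16, nat_lit 226, nat_lit 20, nat_lit 8]⟩, ⟨p109_k4, nat_lit 0, nat_lit 0, nat_lit 561, nat_lit 0, nat_lit 695722, [nat_lit 3150336000, nat_lit 5354496000, nat_lit 7977984000], [], [nat_lit 22446546402, nat_lit 22797396762, nat_lit 25709574304, nat_lit 26142088439, nat_lit 20120571282, nat_lit 20269274064, nat_lit 22257393174, nat_lit 22593323189], nat_lit 1271250, nat_lit 1271250, nat_lit 1271250, nat_lit 1271250,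 nat_lit 0, nat_lit 2260000, [nat_lit 1100000, nat_lit 1785000, nat_lit 1271250], [nat_lit 21, nat_lit 40, nat_lit 40, nat_lit 80, nat_lit 14, nat_lit 483, nat_lit 250, nat_lit 12]⟩,
 ⟨nat_lit 2236, nat_lit 3163, ⟨.ofNat (nat_lit 627331), .ofNat (nat_lit 834658), .ofNat (nat_lit 649422), .ofNat (nat_lit 856813), .ofNat (nat_lit 625251), .ofNat (nat_lit 819190), .ofNat (nat_lit 647962), .ofNat (nat_lit 841964)⟩, ⟨.ofNat (nat_lit 0), .ofNat (nat_lit 162054), .ofNat (nat_lit 0), .ofNat (nat_lit 184209), .ofNat (nat_lit 0), .ofNat (nat_lit 169532), .ofNat (nat_lit 0), .ofNat (nat_lit 192306)⟩⟩, [⟨nat_lit 22, nat_lit 84, nat_lit 100, nat_lit 60, nat_lit 150087398⟩]⟩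
noncomputable def p109_l35 : Lf2 := ⟨nat_lit 0, nat_lit 20, [nat_lit 5, nat_lit 5, nat_lit 5, nat_lit 20], false, nat_lit 0, nat_lit 80, nat_lit 0, nat_lit 336, ⟨nat_lit 178, nat_lit 822, nat_lit 0, nat_lit 6, nat_lit 256, nat_lit 822, nat_lit 34, nat_lit 0, nat_lit 0, nat_lit 0, nat_lit 0, nat_lit 0, nat_lit 47542620, nat_lit 19457380, nat_lit 0, nat_lit 3012585, true, true⟩,
 nat_lit 3122, nat_lit 0, nat_lit 0, nat_lit 0, nat_lit 2917, nat_lit 1652, nat_lit 58, nat_lit 0, nat_lit 0, nat_lit 142, nat_lit 0, nat_lit 0, nat_lit 0, nat_lit 0, nat_lit 0, nat_lit 328800, nat_lit 0, nat_lit 0, [(nat_lit 28, [(nat_lit 1, nat_lit 822)])],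
 ⟨p109_k9, nat_lit 0, nat_lit 0, nat_lit 342, nat_lit 0, nat_lit 540754, [nat_lit 740391201, nat_lit 851181600, nat_lit 1225936000], [], [nat_lit 24781694017, nat_lit 26118865264, nat_lit 26184346424, nat_lit 27651580872, nat_lit 24394750343, nat_lit 25325904827, nat_lit 25512414399, nat_lit 26384085611], nat_lit 1271250, nat_lit 1271250, nat_lit 1271250, nat_lit 1271250, nat_lit 0, nat_lit 490000, [nat_lit 230000, nat_lit 780000, nat_lit 1435000], [nat_lit 20, nat_lit 40, nat_lit 40, nat_lit 80, nat_lit 16, nat_lit 226, nat_lit 20, nat_lit 7]⟩, ⟨p109_k10, nat_lit 0, nat_lit 0, nat_lit 813, nat_lit 0, nat_lit 1097171, [nat_lit 834464000, nat_lit 1418304000, nat_lit 2502324000], [], [nat_lit 6659567696, nat_lit 6674785032, nat_lit 6690002368, nat_lit 6717241304, nat_lit 5645837367, nat_lit 5645543573, nat_lit 5645249780, nat_lit 5680710323], nat_lit 1271250, nat_lit 1271250, nat_lit 1271250, nat_lit 1271250, nat_lit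 0, nat_lit 2373000, [nat_lit 1100000, nat_lit 1785000, nat_lit 1271250], [nat_lit 37, nat_lit 40, nat_lit 40, nat_lit 80, nat_lit 28, nat_lit 456, nat_lit 225, nat_lit 10]⟩,
 ⟨nat_lit 0, nat_lit 2237, ⟨.ofNat (nat_lit 602531), .ofNat (nat_lit 659577), .ofNat (nat_lit 624400), .ofNat (nat_lit 682352), .ofNat (nat_lit 599967), .ofNat (nat_lit 649998), .ofNat (nat_lit 624062), .ofNat (nat_lit 674999)⟩, ⟨.ofNat (nat_lit 0), .ofNat (nat_lit 146756), .ofNat (nat_lit 0), .ofNat (nat_lit 192306), .ofNat (nat_lit 0), .ofNat (nat_lit 149997), .ofNat (nat_lit 0), .ofNat (nat_lit 199999)⟩⟩, [⟨nat_lit 22, nat_lit 100, nat_lit 99, nat_lit 63, nat_lit 29186374⟩]⟩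
noncomputable def p109_l36 : Lf2 := ⟨nat_lit 0, nat_lit 20, [nat_lit 5, nat_lit 5, nat_lit 5, nat_lit 20], false, nat_lit 0, nat_lit 80, nat_lit 0, nat_lit 300, ⟨nat_lit 190, nat_lit 810, nat_lit 0, nat_lit 7, nat_lit 284, nat_lit 810, nat_lit 34, nat_lit 0, nat_lit 0, nat_lit 0, nat_lit 0, nat_lit 0, nat_lit 44497376, nat_lit 22502624, nat_lit 0, nat_lit 3191255, true, true⟩,
 nat_lit 3158, nat_lit 0, nat_lit 0, nat_lit 0, nat_lit 2950, nat_lit 1671, nat_lit 0, nat_lit 0, nat_lit 0, nat_lit 142, nat_lit 0, nat_lit 0, nat_lit 0, nat_lit 0, nat_lit 0, nat_lit 324000, nat_lit 0, nat_lit 0, [(nat_lit 28, [(nat_lit 1, nat_lit 810)])],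
 ⟨p109_k9, nat_lit 0, nat_lit 0, nat_lit 331, nat_lit 0, nat_lit 489209, [nat_lit 743276001, nat_lit 886668000, nat_lit 1299280000], [], [nat_lit 26895700207, nat_lit 27360988807, nat_lit 29249666750, nat_lit 29886435775, nat_lit 26429734207, nat_lit 26867428307, nat_lit 28353089507, nat_lit 28745250257], nat_lit 1271250, nat_lit 1271250, nat_lit 1271250, nat_lit 1271250, nat_lit 0, nat_lit 490000, [nat_lit 230000, nat_lit 780000, nat_lit 1435000], [nat_lit 20, nat_lit 40, nat_lit 40, nat_lit 80, nat_lit 16, nat_lit 226, nat_lit 20, nat_lit 7]⟩, ⟨p109_k10, nat_lit 0, nat_lit 0, nat_lit 766, nat_lit 0, nat_lit 992589, [nat_lit 890720000, nat_lit 1513920000, nat_lit 2671020000], [], [nat_lit 7417829408, nat_lit 7453894570, nat_lit 7655881682, nat_lit 7694093872, nat_lit 6181853036, nat_lit 6185854896, nat_lit 6351102486, nat_lit 6363142888], nat_lit 1271250, nat_lit 1271250, nat_lit 1271250, nat_lit 1271250, nat_lit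 0, nat_lit 2118750, [nat_lit 1100000, nat_lit 1785000, nat_lit 1271250], [nat_lit 37, nat_lit 40, nat_lit 40, nat_lit 80, nat_lit 28, nat_lit 456, nat_lit 225, nat_lit 10]⟩,
 ⟨nat_lit 1581, nat_lit 2237, ⟨.ofNat (nat_lit 659578), .ofNat (nat_lit 745101), .ofNat (nat_lit 682352), .ofNat (nat_lit 767876), .ofNat (nat_lit 655900), .ofNat (nat_lit 737854), .ofNat (nat_lit 679215), .ofNat (nat_lit 761169)⟩, ⟨.ofNat (nat_lit 0), .ofNat (nat_lit 146758), .ofNat (nat_lit 0), .ofNat (nat_lit 192306), .ofNat (nat_lit 0), .ofNat (nat_lit 149571), .ofNat (nat_lit 0), .ofNat (nat_lit 196201)⟩⟩, [⟨nat_lit 13, nat_lit 32, nat_lit 89, nat_lit 100, nat_lit 234865273⟩, ⟨nat_lit 22, nat_lit 84, nat_lit 100, nat_lit 60, nat_lit 23772721⟩]⟩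
noncomputable def p109_l37 : Lf2 := ⟨nat_lit 0, nat_lit 20, [nat_lit 5, nat_lit 5, nat_lit 5, nat_lit 20], false, nat_lit 8, nat_lit 80, nat_lit 0, nat_lit 300, ⟨nat_lit 155, nat_lit 845, nat_lit 0, nat_lit 7, nat_lit 276, nat_lit 845, nat_lit 39, nat_lit 0, nat_lit 0, nat_lit 0, nat_lit 0, nat_lit 0, nat_lit 44528881, nat_lit 21443884, nat_lit 1027235, nat_lit 3594812, true, true⟩,
 nat_lit 2661, nat_lit 0, nat_lit 0, nat_lit 0, nat_lit 2572, nat_lit 1408, nat_lit 54, nat_lit 0, nat_lit 0, nat_lit 111, nat_lit 0, nat_lit 0, nat_lit 0, nat_lit 0, nat_lit 0, nat_lit 338000, nat_lit 0, nat_lit 0, [(nat_lit 28, [(nat_lit 1, nat_lit 845)])],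
 ⟨p109_k15, nat_lit 0, nat_lit 0, nat_lit 295, nat_lit 0, nat_lit 519300, [nat_lit 734862000, nat_lit 783166001, nat_lit 893612000], [], [nat_lit 26298007926, nat_lit 26779529411, nat_lit 27675023414, nat_lit 28300227505, nat_lit 26068270495, nat_lit 26506523171, nat_lit 27357540381, nat_lit 27833210320], nat_lit 1271250, nat_lit 1271250, nat_lit 1271250, nat_lit 1271250, nat_lit 43600, nat_lit 490000, [nat_lit 230000, nat_lit 780000, nat_lit 1100000], [nat_lit 35, nat_lit 40, nat_lit 40, nat_lit 80, nat_lit 22, nat_lit 226, nat_lit 20, nat_lit 9]⟩, ⟨p109_k10, nat_lit 0, nat_lit 0, nat_lit 803, nat_lit 0, nat_lit 1097171, [nat_lit 726640000, nat_lit 1235040000, nat_lit 2178990000], [], [nat_lit 6081681720, nat_lit 6089579602, nat_lit 6147012080, nat_lit 6148916508, nat_lit 5023400986, nat_lit 5024602513, nat_lit 5069622745, nat_lit 5080162033], nat_lit 1271250, nat_lit 1271250, nat_lit 1271250, nat_lit 1271250, nat_lit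 0, nat_lit 2118750, [nat_lit 1100000, nat_lit 1785000, nat_lit 1271250], [nat_lit 37, nat_lit 40, nat_lit 40, nat_lit 80, nat_lit 28, nat_lit 456, nat_lit 225, nat_lit 10]⟩,
 ⟨nat_lit 0, nat_lit 1582, ⟨.ofNat (nat_lit 655899), .ofNat (nat_lit 710533), .ofNat (nat_lit 679215), .ofNat (nat_lit 733849), .ofNat (nat_lit 649998), .ofNat (nat_lit 699996), .ofNat (nat_lit 674999), .ofNat (nat_lit 724997)⟩, ⟨.ofNat (nat_lit 20000), .ofNat (nat_lit 149570), .ofNat (nat_lit 20000), .ofNat (nat_lit 196201), .ofNat (nat_lit 20000), .ofNat (nat_lit 149998), .ofNat (nat_lit 20000), .ofNat (nat_lit 199999)⟩⟩, [⟨nat_lit 13, nat_lit 23, nat_lit 92, nat_lit 100, nat_lit 438006568⟩, ⟨nat_lit 3, nat_lit 100, nat_lit 31, nat_lit 76, nat_lit 42982469⟩, ⟨nat_lit 22, nat_lit 89, nat_lit 100, nat_lit 28, nat_lit 13903217⟩, ⟨nat_lit 22, nat_lit 88, nat_lit 100, nat_lit 63, nat_lit 12135412⟩]⟩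
noncomputable def p109_l38 : Lf2 := ⟨nat_lit 0, nat_lit 20, [nat_lit 5, nat_lit 5, nat_lit 5, nat_lit 20], false, nat_lit 0, nat_lit 80, nat_lit 0, nat_lit 320, ⟨nat_lit 355, nat_lit 645, nat_lit 0, nat_lit 6, nat_lit 286, nat_lit 645, nat_lit 34, nat_lit 0, nat_lit 0, nat_lit 0, nat_lit 0, nat_lit 0, nat_lit 44351671, nat_lit 22648329, nat_lit 0, nat_lit 3198615, true, true⟩,
 nat_lit 4869, nat_lit 0, nat_lit 0, nat_lit 0, nat_lit 3496, nat_lit 2834, nat_lit 0, nat_lit 0, nat_lit 0, nat_lit 279, nat_lit 0, nat_lit 0, nat_lit 0, nat_lit 0, nat_lit 0, nat_lit 258000, nat_lit 0, nat_lit 0, [(nat_lit 28, [(nat_lit 1, nat_lit 645)])],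
 ⟨p109_k9, nat_lit 0, nat_lit 0, nat_lit 341, nat_lit 0, nat_lit 521049, [nat_lit 782942001, nat_lit 1374606001, nat_lit 2307760000], [], [nat_lit 26725660688, nat_lit 27432891208, nat_lit 31422102788, nat_lit 32086362808, nat_lit 25079397976, nat_lit 25581583072, nat_lit 29396328631, nat_lit 29920971455], nat_lit 1271250, nat_lit 1271250, nat_lit 1271250, nat_lit 1271250, nat_lit 0, nat_lit 490000, [nat_lit 230000, nat_lit 780000, nat_lit 1435000], [nat_lit 20, nat_lit 40, nat_lit 40, nat_lit 80, nat_lit 16, nat_lit 226, nat_lit 20, nat_lit 7]⟩, ⟨p109_k4, nat_lit 0, nat_lit 0, nat_lit 683, nat_lit 0, nat_lit 934830, [nat_lit 1664240000, nat_lit 2828640000, nat_lit 4214560000], [], [nat_lit 12428523291, nat_lit 12543215717, nat_lit 13240986085, nat_lit 13312898430, nat_lit 10929696622, nat_lit 10991035936, nat_lit 11424920813, nat_lit 11541223391], nat_lit 1271250, nat_lit 1271250, nat_lit 1271250, nat_lit 1271250,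 nat_lit 0, nat_lit 2260000, [nat_lit 1100000, nat_lit 1785000, nat_lit 1271250], [nat_lit 21, nat_lit 40, nat_lit 40, nat_lit 80, nat_lit 14, nat_lit 483, nat_lit 250, nat_lit 12]⟩,
 ⟨nat_lit 1581, nat_lit 2237, ⟨.ofNat (nat_lit 625287), .ofNat (nat_lit 784980), .ofNat (nat_lit 648016), .ofNat (nat_lit 807755), .ofNat (nat_lit 624529), .ofNat (nat_lit 777560), .ofNat (nat_lit 647799), .ofNat (nat_lit 800875)⟩, ⟨.ofNat (nat_lit 0), .ofNat (nat_lit 146758), .ofNat (nat_lit 0), .ofNat (nat_lit 192306), .ofNat (nat_lit 0), .ofNat (nat_lit 149571), .ofNat (nat_lit 0), .ofNat (nat_lit 196201)⟩⟩, [⟨nat_lit 22, nat_lit 89, nat_lit 100, nat_lit 61, nat_lit 70492146⟩]⟩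
noncomputable def p109_l39 : Lf2 := ⟨nat_lit 0, nat_lit 20, [nat_lit 5, nat_lit 5, nat_lit 5, nat_lit 20], false, nat_lit 8, nat_lit 80, nat_lit 0, nat_lit 320, ⟨nat_lit 229, nat_lit 771, nat_lit 0, nat_lit 6, nat_lit 280, nat_lit 771, nat_lit 39, nat_lit 0, nat_lit 0, nat_lit 0, nat_lit 0, nat_lit 0, nat_lit 44202899, nat_lit 21773723, nat_lit 1023378, nat_lit 3611367, true, true⟩,
 nat_lit 3270, nat_lit 0, nat_lit 0, nat_lit 0, nat_lit 3161, nat_lit 1903, nat_lit 0, nat_lit 0, nat_lit 0, nat_lit 198, nat_lit 0, nat_lit 0, nat_lit 0, nat_lit 0, nat_lit 0, nat_lit 192750, nat_lit 0, nat_lit 0, [(nat_lit 28, [(nat_lit 0, nat_lit 771)])],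
 ⟨p109_k15, nat_lit 0, nat_lit 0, nat_lit 309, nat_lit 0, nat_lit 546911, [nat_lit 817415600, nat_lit 1558044000, nat_lit 2134756400], [], [nat_lit 27138979522, nat_lit 27663205484, nat_lit 30264389974, nat_lit 30703524165, nat_lit 26720331277, nat_lit 27214505228, nat_lit 29692085874, nat_lit 30107941281], nat_lit 1271250, nat_lit 1271250, nat_lit 1271250, nat_lit 1271250, nat_lit 43600, nat_lit 490000, [nat_lit 230000, nat_lit 780000, nat_lit 1100000], [nat_lit 35, nat_lit 40, nat_lit 40, nat_lit 80, nat_lit 22, nat_lit 226, nat_lit 20, nat_lit 9]⟩, ⟨p109_k4, nat_lit 0, nat_lit 0, nat_lit 716, nat_lit 0, nat_lit 1021767, [nat_lit 1073552000, nat_lit 1824672000, nat_lit 2718688000], [], [nat_lit 7839555266, nat_lit 7899939900, nat_lit 8196095250, nat_lit 8238425824, nat_lit 6757472494, nat_lit 6768507572, nat_lit 7019051011, nat_lit 7114256574], nat_lit 1271250, nat_lit 1271250, nat_lit 1271250, nat_lit 1271250,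 nat_lit 0, nat_lit 2260000, [nat_lit 1100000, nat_lit 1785000, nat_lit 1271250], [nat_lit 21, nat_lit 40, nat_lit 40, nat_lit 80, nat_lit 14, nat_lit 483, nat_lit 250, nat_lit 12]⟩,
 ⟨nat_lit 0, nat_lit 1582, ⟨.ofNat (nat_lit 623921), .ofNat (nat_lit 755702), .ofNat (nat_lit 646579), .ofNat (nat_lit 779018), .ofNat (nat_lit 624340), .ofNat (nat_lit 744996), .ofNat (nat_lit 648683), .ofNat (nat_lit 769997)⟩, ⟨.ofNat (nat_lit 20000), .ofNat (nat_lit 149570), .ofNat (nat_lit 20000), .ofNat (nat_lit 196201), .ofNat (nat_lit 20000), .ofNat (nat_lit 149998), .ofNat (nat_lit 20000), .ofNat (nat_lit 199999)⟩⟩, [⟨nat_lit 13, nat_lit 24, nat_lit 89, nat_lit 100, nat_lit 104091803⟩, ⟨nat_lit 22, nat_lit 92, nat_lit 100, nat_lit 64, nat_lit 42217746⟩]⟩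
noncomputable def p109_l40 : Lf2 := ⟨nat_lit 0, nat_lit 20, [nat_lit 5, nat_lit 5, nat_lit 5, nat_lit 20], false, nat_lit 80, nat_lit 200, nat_lit 0, nat_lit 336, ⟨nat_lit 246, nat_lit 754, nat_lit 0, nat_lit 6, nat_lit 270, nat_lit 754, nat_lit 102, nat_lit 0, nat_lit 0, nat_lit 0, nat_lit 0, nat_lit 0, nat_lit 42597951, nat_lit 20095293, nat_lit 4306756, nat_lit 4370800, true, true⟩,
 nat_lit 4182, nat_lit 0, nat_lit 0, nat_lit 0, nat_lit 3642, nat_lit 2214, nat_lit 9, nat_lit 0, nat_lit 0, nat_lit 209, nat_lit 0, nat_lit 0, nat_lit 0, nat_lit 0, nat_lit 0, nat_lit 422800, nat_lit 0, nat_lit 0, [(nat_lit 25, [(nat_lit 1, nat_lit 552), (nat_lit 2, nat_lit 202)])],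
 ⟨p109_k1, nat_lit 0, nat_lit 0, nat_lit 235, nat_lit 0, nat_lit 422466, [nat_lit 993694401, nat_lit 1283601067, nat_lit 1255132800], [], [nat_lit 23500502342, nat_lit 23985054474, nat_lit 25990856588, nat_lit 26506972460, nat_lit 24570145358, nat_lit 24987548873, nat_lit 26762761724, nat_lit 27291647337], nat_lit 1271250, nat_lit 1271250, nat_lit 1271250, nat_lit 1271250, nat_lit 490000, nat_lit 1427500, [nat_lit 230000, nat_lit 780000, nat_lit 1435000], [nat_lit 20, nat_lit 40, nat_lit 40, nat_lit 80, nat_lit 16, nat_lit 260, nat_lit 50, nat_lit 8]⟩, ⟨p109_k10, nat_lit 0, nat_lit 0, nat_lit 659, nat_lit 0, nat_lit 788154, [nat_lit 1153248000, nat_lit 1960128000, nat_lit 3458268000], [], [nat_lit 9080418164, nat_lit 9139029140, nat_lit 9383195948, nat_lit 9415062296, nat_lit 7859584479, nat_lit 7890748546, nat_lit 8043289013, nat_lit 8053110613], nat_lit 1271250, nat_lit 1271250, nat_lit 1271250, nat_lit 1271250,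 nat_lit 0, nat_lit 2373000, [nat_lit 1100000, nat_lit 1785000, nat_lit 1271250], [nat_lit 37, nat_lit 40, nat_lit 40, nat_lit 80, nat_lit 28, nat_lit 483, nat_lit 250, nat_lit 11]⟩,
 ⟨nat_lit 2738, nat_lit 3163, ⟨.ofNat (nat_lit 605257), .ofNat (nat_lit 727168), .ofNat (nat_lit 627400), .ofNat (nat_lit 749323), .ofNat (nat_lit 603890), .ofNat (nat_lit 722017), .ofNat (nat_lit 626295), .ofNat (nat_lit 744435)⟩, ⟨.ofNat (nat_lit 139899), .ofNat (nat_lit 322759), .ofNat (nat_lit 184209), .ofNat (nat_lit 367069), .ofNat (nat_lit 143475), .ofNat (nat_lit 320659), .ofNat (nat_lit 188310), .ofNat (nat_lit 365494)⟩⟩, [⟨nat_lit 16, nat_lit 57, nat_lit 100, nat_lit 73, nat_lit 176514937⟩, ⟨nat_lit 7, nat_lit 88, nat_lit 100, nat_lit 74, nat_lit 35470062⟩]⟩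
noncomputable def p109_l41 : Lf2 := ⟨nat_lit 0, nat_lit 20, [nat_lit 5, nat_lit 5, nat_lit 5, nat_lit 20], false, nat_lit 80, nat_lit 184, nat_lit 0, nat_lit 336, ⟨nat_lit 218, nat_lit 782, nat_lit 0, nat_lit 6, nat_lit 269, nat_lit 782, nat_lit 97, nat_lit 0, nat_lit 0, nat_lit 0, nat_lit 0, nat_lit 0, nat_lit 42920785, nat_lit 20031879, nat_lit 4047336, nat_lit 4313168, true, true⟩,
 nat_lit 3702, nat_lit 0, nat_lit 0, nat_lit 0, nat_lit 3340, nat_lit 1959, nat_lit 199, nat_lit 0, nat_lit 0, nat_lit 185, nat_lit 0, nat_lit 0, nat_lit 0, nat_lit 0, nat_lit 0, nat_lit 195500, nat_lit 0, nat_lit 0, [(nat_lit 25, [(nat_lit 0, nat_lit 782)])],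
 ⟨p109_k6, nat_lit 0, nat_lit 0, nat_lit 247, nat_lit 0, nat_lit 456950, [nat_lit 801932001, nat_lit 1785877601, nat_lit 3018776000], [], [nat_lit 23793330164, nat_lit 24299772124, nat_lit 26321925064, nat_lit 26759159284, nat_lit 24816968060, nat_lit 25263678445, nat_lit 27043036484, nat_lit 27430781340], nat_lit 1271250, nat_lit 1271250, nat_lit 1271250, nat_lit 1271250, nat_lit 490000, nat_lit 1302500, [nat_lit 230000, nat_lit 780000, nat_lit 1435000], [nat_lit 20, nat_lit 40, nat_lit 40, nat_lit 80, nat_lit 16, nat_lit 260, nat_lit 50, nat_lit 8]⟩, ⟨p109_k10, nat_lit 0, nat_lit 0, nat_lit 738, nat_lit 0, nat_lit 889488, [nat_lit 1021984000, nat_lit 1737024000, nat_lit 3064644000], [], [nat_lit 8058117116, nat_lit 8110105740, nat_lit 8326541612, nat_lit 8354859652, nat_lit 6977603409, nat_lit 7005295695, nat_lit 7140625474, nat_lit 7149428177], nat_lit 1271250, nat_lit 1271250, nat_lit 1271250, nat_lit 1271250,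 nat_lit 0, nat_lit 2373000, [nat_lit 1100000, nat_lit 1785000, nat_lit 1271250], [nat_lit 37, nat_lit 40, nat_lit 40, nat_lit 80, nat_lit 28, nat_lit 483, nat_lit 250, nat_lit 11]⟩,
 ⟨nat_lit 2236, nat_lit 2739, ⟨.ofNat (nat_lit 603890), .ofNat (nat_lit 722017), .ofNat (nat_lit 626287), .ofNat (nat_lit 744435), .ofNat (nat_lit 602558), .ofNat (nat_lit 716594), .ofNat (nat_lit 625312), .ofNat (nat_lit 739368)⟩, ⟨.ofNat (nat_lit 143475), .ofNat (nat_lit 297035), .ofNat (nat_lit 188310), .ofNat (nat_lit 341870), .ofNat (nat_lit 146758), .ofNat (nat_lit 294998), .ofNat (nat_lit 192306), .ofNat (nat_lit 340547)⟩⟩, [⟨nat_lit 4, nat_lit 100, nat_lit 50, nat_lit 74, nat_lit 193622174⟩, ⟨nat_lit 7, nat_lit 88, nat_lit 100, nat_lit 74, nat_lit 31395138⟩]⟩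
noncomputable def p109_l42 : Lf2 := ⟨nat_lit 0, nat_lit 20, [nat_lit 5, nat_lit 5, nat_lit 5, nat_lit 20], false, nat_lit 80, nat_lit 200, nat_lit 0, nat_lit 320, ⟨nat_lit 319, nat_lit 681, nat_lit 0, nat_lit 6, nat_lit 279, nat_lit 681, nat_lit 102, nat_lit 0, nat_lit 0, nat_lit 0, nat_lit 0, nat_lit 0, nat_lit 41829053, nat_lit 20902468, nat_lit 4268479, nat_lit 4408362, true, true⟩,
 nat_lit 4540, nat_lit 0, nat_lit 0, nat_lit 0, nat_lit 3954, nat_lit 2642, nat_lit 55, nat_lit 0, nat_lit 0, nat_lit 260, nat_lit 0, nat_lit 0, nat_lit 0, nat_lit 0, nat_lit 0, nat_lit 327000, nat_lit 0, nat_lit 0, [(nat_lit 25, [(nat_lit 1, nat_lit 590), (nat_lit 2, nat_lit 91)])],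
 ⟨p109_k1, nat_lit 0, nat_lit 0, nat_lit 266, nat_lit 0, nat_lit 514794, [nat_lit 931278401, nat_lit 1603551734, nat_lit 2178927200], [], [nat_lit 24094343998, nat_lit 25101036240, nat_lit 26698872638, nat_lit 27696426768, nat_lit 25069848170, nat_lit 25911186848, nat_lit 27276637114, nat_lit 28218959366], nat_lit 1271250, nat_lit 1271250, nat_lit 1271250, nat_lit 1271250, nat_lit 490000, nat_lit 1427500, [nat_lit 230000, nat_lit 780000, nat_lit 1435000], [nat_lit 20, nat_lit 40, nat_lit 40, nat_lit 80, nat_lit 16, nat_lit 260, nat_lit 50, nat_lit 8]⟩, ⟨p109_k4, nat_lit 0, nat_lit 0, nat_lit 650, nat_lit 0, nat_lit 849242, [nat_lit 1495472000, nat_lit 2541792000, nat_lit 3787168000], [], [nat_lit 10749843666, nat_lit 10852029044, nat_lit 11206419922, nat_lit 11272843496, nat_lit 9355719430, nat_lit 9408644032, nat_lit 9685241880, nat_lit 9818655780], nat_lit 1271250, nat_lit 1271250, nat_lit 1271250, nat_lit 1271250,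 nat_lit 0, nat_lit 2260000, [nat_lit 1100000, nat_lit 1785000, nat_lit 1271250], [nat_lit 21, nat_lit 40, nat_lit 40, nat_lit 80, nat_lit 14, nat_lit 483, nat_lit 250, nat_lit 12]⟩,
 ⟨nat_lit 2236, nat_lit 3163, ⟨.ofNat (nat_lit 627331), .ofNat (nat_lit 749323), .ofNat (nat_lit 649422), .ofNat (nat_lit 771478), .ofNat (nat_lit 625251), .ofNat (nat_lit 739368), .ofNat (nat_lit 647962), .ofNat (nat_lit 762142)⟩, ⟨.ofNat (nat_lit 139899), .ofNat (nat_lit 322759), .ofNat (nat_lit 184209), .ofNat (nat_lit 367069), .ofNat (nat_lit 146758), .ofNat (nat_lit 317804), .ofNat (nat_lit 192306), .ofNat (nat_lit 363353)⟩⟩, [⟨nat_lit 4, nat_lit 100, nat_lit 54, nat_lit 73, nat_lit 234709135⟩, ⟨nat_lit 7, nat_lit 97, nat_lit 100, nat_lit 76, nat_lit 48101320⟩]⟩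
noncomputable def p109_l43 : Lf2 := ⟨nat_lit 0, nat_lit 20, [nat_lit 5, nat_lit 5, nat_lit 5, nat_lit 20], false, nat_lit 80, nat_lit 164, nat_lit 0, nat_lit 336, ⟨nat_lit 189, nat_lit 811, nat_lit 0, nat_lit 6, nat_lit 272, nat_lit 811, nat_lit 92, nat_lit 0, nat_lit 0, nat_lit 0, nat_lit 0, nat_lit 0, nat_lit 42861868, nat_lit 20426938, nat_lit 3711194, nat_lit 4263861, true, true⟩,
 nat_lit 3155, nat_lit 0, nat_lit 0, nat_lit 0, nat_lit 2948, nat_lit 1670, nat_lit 54, nat_lit 0, nat_lit 0, nat_lit 140, nat_lit 0, nat_lit 0, nat_lit 0, nat_lit 0, nat_lit 0, nat_lit 324400, nat_lit 0, nat_lit 0, [(nat_lit 28, [(nat_lit 1, nat_lit 811)])],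
 ⟨p109_k9, nat_lit 0, nat_lit 0, nat_lit 277, nat_lit 0, nat_lit 521049, [nat_lit 743035600, nat_lit 883710800, nat_lit 1293168000], [], [nat_lit 23803546020, nat_lit 24296974728, nat_lit 26323971158, nat_lit 26785800192, nat_lit 24595581559, nat_lit 25044207553, nat_lit 26926309640, nat_lit 27346931877], nat_lit 1271250, nat_lit 1271250, nat_lit 1271250, nat_lit 1271250, nat_lit 490000, nat_lit 1133651, [nat_lit 230000, nat_lit 780000, nat_lit 1435000], [nat_lit 20, nat_lit 40, nat_lit 40, nat_lit 80, nat_lit 16, nat_lit 260, nat_lit 50, nat_lit 8]⟩, ⟨p109_k10, nat_lit 0, nat_lit 0, nat_lit 799, nat_lit 0, nat_lit 1057191, [nat_lit 886032000, nat_lit 1505952000, nat_lit 2656962000], [], [nat_lit 7531280668, nat_lit 7568338804, nat_lit 7649493324, nat_lit 7655963572, nat_lit 6441622440, nat_lit 6446835658, nat_lit 6490681395, nat_lit 6471214780], nat_lit 1271250, nat_lit 1271250, nat_lit 1271250, nat_lit 1271250,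 nat_lit 0, nat_lit 2373000, [nat_lit 1100000, nat_lit 1785000, nat_lit 1271250], [nat_lit 37, nat_lit 40, nat_lit 40, nat_lit 80, nat_lit 28, nat_lit 483, nat_lit 250, nat_lit 11]⟩,
 ⟨nat_lit 1581, nat_lit 2237, ⟨.ofNat (nat_lit 602558), .ofNat (nat_lit 716594), .ofNat (nat_lit 648016), .ofNat (nat_lit 762142), .ofNat (nat_lit 601260), .ofNat (nat_lit 710536), .ofNat (nat_lit 647799), .ofNat (nat_lit 757166)⟩, ⟨.ofNat (nat_lit 146758), .ofNat (nat_lit 266490), .ofNat (nat_lit 192306), .ofNat (nat_lit 312039), .ofNat (nat_lit 149571), .ofNat (nat_lit 264306), .ofNat (nat_lit 196201), .ofNat (nat_lit 310936)⟩⟩, [⟨nat_lit 16, nat_lit 41, nat_lit 100, nat_lit 77, nat_lit 227907819⟩, ⟨nat_lit 19, nat_lit 100, nat_lit 92, nat_lit 75, nat_lit 24171721⟩]⟩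
noncomputable def p109_l44 : Lf2 := ⟨nat_lit 0, nat_lit 20, [nat_lit 5, nat_lit 5, nat_lit 5, nat_lit 20], false, nat_lit 80, nat_lit 136, nat_lit 0, nat_lit 336, ⟨nat_lit 207, nat_lit 793, nat_lit 0, nat_lit 6, nat_lit 271, nat_lit 793, nat_lit 84, nat_lit 0, nat_lit 0, nat_lit 0, nat_lit 0, nat_lit 0, nat_lit 43359917, nat_lit 20370534, nat_lit 3269549, nat_lit 4160843, true, true⟩,
 nat_lit 3459, nat_lit 0, nat_lit 0, nat_lit 0, nat_lit 3344, nat_lit 1831, nat_lit 22, nat_lit 0, nat_lit 0, nat_lit 154, nat_lit 0, nat_lit 0, nat_lit 0, nat_lit 0, nat_lit 0, nat_lit 198250, nat_lit 0, nat_lit 0, [(nat_lit 28, [(nat_lit 0, nat_lit 793)])],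
 ⟨p109_k15, nat_lit 0, nat_lit 0, nat_lit 261, nat_lit 0, nat_lit 546911, [nat_lit 813974801, nat_lit 1508852001, nat_lit 2061901200], [], [nat_lit 24879869161, nat_lit 25415867833, nat_lit 27441326913, nat_lit 28114285504, nat_lit 25331945441, nat_lit 25834397094, nat_lit 27737720152, nat_lit 28172454240], nat_lit 1271250, nat_lit 1271250, nat_lit 1271250, nat_lit 1271250, nat_lit 490000, nat_lit 904401, [nat_lit 230000, nat_lit 780000, nat_lit 1100000], [nat_lit 35, nat_lit 40, nat_lit 40, nat_lit 80, nat_lit 22, nat_lit 249, nat_lit 40, nat_lit 10]⟩, ⟨p109_k10, nat_lit 0, nat_lit 0, nat_lit 834, nat_lit 0, nat_lit 1155508, [nat_lit 970416000, nat_lit 1649376000, nat_lit 2910006000], [], [nat_lit 8233701764, nat_lit 8274179132, nat_lit 8363000412, nat_lit 8371348116, nat_lit 7044734612, nat_lit 7050308801, nat_lit 7098236763, nat_lit 7076757496], nat_lit 1271250, nat_lit 1271250, nat_lit 1271250, nat_lit 1271250,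 nat_lit 0, nat_lit 2373000, [nat_lit 1100000, nat_lit 1785000, nat_lit 1271250], [nat_lit 37, nat_lit 40, nat_lit 40, nat_lit 80, nat_lit 28, nat_lit 483, nat_lit 250, nat_lit 11]⟩,
 ⟨nat_lit 0, nat_lit 1582, ⟨.ofNat (nat_lit 601257), .ofNat (nat_lit 710533), .ofNat (nat_lit 646579), .ofNat (nat_lit 757165), .ofNat (nat_lit 599992), .ofNat (nat_lit 699996), .ofNat (nat_lit 648683), .ofNat (nat_lit 749998)⟩, ⟨.ofNat (nat_lit 149570), .ofNat (nat_lit 226057), .ofNat (nat_lit 196201), .ofNat (nat_lit 272689), .ofNat (nat_lit 149998), .ofNat (nat_lit 219995), .ofNat (nat_lit 199999), .ofNat (nat_lit 269997)⟩⟩, [⟨nat_lit 13, nat_lit 23, nat_lit 91, nat_lit 100, nat_lit 34501482⟩, ⟨nat_lit 4, nat_lit 100, nat_lit 26, nat_lit 84, nat_lit 538505420⟩, ⟨nat_lit 19, nat_lit 100, nat_lit 92, nat_lit 75, nat_lit 26501508⟩]⟩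
noncomputable def p109_l45 : Lf2 := ⟨nat_lit 0, nat_lit 15, [nat_lit 30, nat_lit 5, nat_lit 5, nat_lit 20], false, nat_lit 80, nat_lit 176, nat_lit 0, nat_lit 312, ⟨nat_lit 240, nat_lit 760, nat_lit 0, nat_lit 8, nat_lit 302, nat_lit 760, nat_lit 89, nat_lit 0, nat_lit 0, nat_lit 0, nat_lit 0, nat_lit 0, nat_lit 40193936, nat_lit 23388324, nat_lit 3417740, nat_lit 4345354, true, true⟩,
 nat_lit 4225, nat_lit 0, nat_lit 0, nat_lit 0, nat_lit 3679, nat_lit 2236, nat_lit 130, nat_lit 0, nat_lit 0, nat_lit 165, nat_lit 0, nat_lit 0, nat_lit 0, nat_lit 0, nat_lit 0, nat_lit 325600, nat_lit 0, nat_lit 0, [(nat_lit 25, [(nat_lit 1, nat_lit 724), (nat_lit 2, nat_lit 36)]), (nat_lit 28, [(nat_lit 1, nat_lit 724), (nat_lit 2, nat_lit 36)])],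
 ⟨p109_k12, nat_lit 0, nat_lit 0, nat_lit 311, nat_lit 0, nat_lit 565765, [nat_lit 889617600, nat_lit 1499510934, nat_lit 2022248000], [], [nat_lit 25891007792, nat_lit 28695683364, nat_lit 28489183380, nat_lit 31017823955, nat_lit 26314280384, nat_lit 28767269210, nat_lit 28590160808, nat_lit 30846553659], nat_lit 1271250, nat_lit 1271250, nat_lit 1271250, nat_lit 1271250, nat_lit 490000, nat_lit 1236400, [nat_lit 230000, nat_lit 780000, nat_lit 1435000], [nat_lit 20, nat_lit 40, nat_lit 40, nat_lit 80, nat_lit 16, nat_lit 260, nat_lit 50, nat_lit 8]⟩, ⟨p109_k13, nat_lit 0, nat_lit 0, nat_lit 715, nat_lit 0, nat_lit 1045112, [nat_lit 1125120000, nat_lit 1912320000, nat_lit 2849280000], [], [nat_lit 9263106632, nat_lit 9362711032, nat_lit 9788049031, nat_lit 9860524900, nat_lit 7558094572, nat_lit 7551975224, nat_lit 7983541606, nat_lit 8060040200], nat_lit 1271250, nat_lit 1271250, nat_lit 1271250, nat_lit 1271250,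 nat_lit 0, nat_lit 2203500, [nat_lit 1100000, nat_lit 1785000, nat_lit 1271250], [nat_lit 21, nat_lit 40, nat_lit 40, nat_lit 80, nat_lit 14, nat_lit 373, nat_lit 150, nat_lit 9]⟩,
 ⟨nat_lit 0, nat_lit 3163, ⟨.ofNat (nat_lit 727166), .ofNat (nat_lit 794213), .ofNat (nat_lit 749322), .ofNat (nat_lit 816369), .ofNat (nat_lit 699997), .ofNat (nat_lit 754995), .ofNat (nat_lit 724998), .ofNat (nat_lit 779996)⟩, ⟨.ofNat (nat_lit 139898), .ofNat (nat_lit 286182), .ofNat (nat_lit 162054), .ofNat (nat_lit 308338), .ofNat (nat_lit 149998), .ofNat (nat_lit 269994), .ofNat (nat_lit 174999), .ofNat (nat_lit 294995)⟩⟩, [⟨nat_lit 13, nat_lit 45, nat_lit 79, nat_lit 100, nat_lit 486330278⟩, ⟨nat_lit 4, nat_lit 100, nat_lit 47, nat_lit 72, nat_lit 231977372⟩, ⟨nat_lit 22, nat_lit 75, nat_lit 98, nat_lit 100, nat_lit 20053177⟩]⟩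
noncomputable def p109_l46 : Lf2 := ⟨nat_lit 0, nat_lit 20, [nat_lit 5, nat_lit 5, nat_lit 5, nat_lit 20], false, nat_lit 80, nat_lit 200, nat_lit 0, nat_lit 336, ⟨nat_lit 265, nat_lit 735, nat_lit 0, nat_lit 8, nat_lit 299, nat_lit 735, nat_lit 105, nat_lit 0, nat_lit 0, nat_lit 0, nat_lit 0, nat_lit 0, nat_lit 39843786, nat_lit 22782208, nat_lit 4374006, nat_lit 4521196, true, true⟩,
 nat_lit 4372, nat_lit 0, nat_lit 0, nat_lit 0, nat_lit 3807, nat_lit 2314, nat_lit 65, nat_lit 0, nat_lit 0, nat_lit 195, nat_lit 0, nat_lit 0, nat_lit 0, nat_lit 0, nat_lit 0, nat_lit 301800, nat_lit 0, nat_lit 0, [(nat_lit 25, [(nat_lit 1, nat_lit 722), (nat_lit 2, nat_lit 13)]), (nat_lit 28, [(nat_lit 1, nat_lit 722), (nat_lit 2, nat_lit 13)])],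
 ⟨p109_k1, nat_lit 0, nat_lit 0, nat_lit 272, nat_lit 0, nat_lit 480705, [nat_lit 877604800, nat_lit 1588318134, nat_lit 2266340000], [], [nat_lit 26895628180, nat_lit 28917829412, nat_lit 28512919722, nat_lit 31041960352, nat_lit 27555201758, nat_lit 29302769580, nat_lit 28925472108, nat_lit 31132137788], nat_lit 1271250, nat_lit 1271250, nat_lit 1271250, nat_lit 1271250, nat_lit 490000, nat_lit 1427500, [nat_lit 230000, nat_lit 780000, nat_lit 1435000], [nat_lit 20, nat_lit 40, nat_lit 40, nat_lit 80, nat_lit 16, nat_lit 260, nat_lit 50, nat_lit 8]⟩, ⟨p109_k10, nat_lit 0, nat_lit 0, nat_lit 724, nat_lit 0, nat_lit 896805, [nat_lit 1242320000, nat_lit 2111520000, nat_lit 3725370000], [], [nat_lit 10627652816, nat_lit 10645748547, nat_lit 10957414540, nat_lit 11034458606, nat_lit 8968227571, nat_lit 8974689273, nat_lit 9342249709, nat_lit 9368894340], nat_lit 1271250, nat_lit 1271250, nat_lit 1271250, nat_lit 1271250,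 nat_lit 0, nat_lit 2373000, [nat_lit 1100000, nat_lit 1785000, nat_lit 1271250], [nat_lit 37, nat_lit 40, nat_lit 40, nat_lit 80, nat_lit 28, nat_lit 483, nat_lit 250, nat_lit 11]⟩,
 ⟨nat_lit 0, nat_lit 3163, ⟨.ofNat (nat_lit 727166), .ofNat (nat_lit 788118), .ofNat (nat_lit 738244), .ofNat (nat_lit 799196), .ofNat (nat_lit 699997), .ofNat (nat_lit 749995), .ofNat (nat_lit 712497), .ofNat (nat_lit 762496)⟩, ⟨.ofNat (nat_lit 162054), .ofNat (nat_lit 344909), .ofNat (nat_lit 184209), .ofNat (nat_lit 367065), .ofNat (nat_lit 174999), .ofNat (nat_lit 324994), .ofNat (nat_lit 199999), .ofNat (nat_lit 349995)⟩⟩, [⟨nat_lit 13, nat_lit 45, nat_lit 80, nat_lit 100, nat_lit 433633580⟩, ⟨nat_lit 4, nat_lit 100, nat_lit 45, nat_lit 79, nat_lit 201454844⟩, ⟨nat_lit 7, nat_lit 83, nat_lit 100, nat_lit 78, nat_lit 32430386⟩]⟩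
noncomputable def p109_l47 : Lf2 := ⟨nat_lit 0, nat_lit 20, [nat_lit 5, nat_lit 5, nat_lit 5, nat_lit 20], false, nat_lit 80, nat_lit 200, nat_lit 0, nat_lit 328, ⟨nat_lit 314, nat_lit 686, nat_lit 0, nat_lit 8, nat_lit 305, nat_lit 686, nat_lit 105, nat_lit 0, nat_lit 0, nat_lit 0, nat_lit 0, nat_lit 0, nat_lit 39331531, nat_lit 23331113, nat_lit 4337356, nat_lit 4536982, true, true⟩,
 nat_lit 4832, nat_lit 0, nat_lit 0, nat_lit 0, nat_lit 3920, nat_lit 2684, nat_lit 0, nat_lit 0, nat_lit 0, nat_lit 282, nat_lit 0, nat_lit 0, nat_lit 0, nat_lit 0, nat_lit 0, nat_lit 356000, nat_lit 0, nat_lit 0, [(nat_lit 25, [(nat_lit 1, nat_lit 550), (nat_lit 2, nat_lit 136)]), (nat_lit 28, [(nat_lit 1, nat_lit 550), (nat_lit 2, nat_lit 136)])],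
 ⟨p109_k1, nat_lit 0, nat_lit 0, nat_lit 281, nat_lit 0, nat_lit 493355, [nat_lit 958874400, nat_lit 1529914401, nat_lit 1935623200], [], [nat_lit 27135145122, nat_lit 29113942720, nat_lit 28946109377, nat_lit 31497629313, nat_lit 27725851120, nat_lit 29436780800, nat_lit 29282061993, nat_lit 31487885913], nat_lit 1271250, nat_lit 1271250, nat_lit 1271250, nat_lit 1271250, nat_lit 490000, nat_lit 1427500, [nat_lit 230000, nat_lit 780000, nat_lit 1435000], [nat_lit 20, nat_lit 40, nat_lit 40, nat_lit 80, nat_lit 16, nat_lit 260, nat_lit 50, nat_lit 8]⟩, ⟨p109_k3, nat_lit 0, nat_lit 0, nat_lit 690, nat_lit 0, nat_lit 864412, [nat_lit 1472032000, nat_lit 2501952000, nat_lit 4414212000], [], [nat_lit 11453266396, nat_lit 11566744996, nat_lit 12429536745, nat_lit 12518251910, nat_lit 9900295474, nat_lit 9910383992, nat_lit 10403285766, nat_lit 10436646315], nat_lit 1271250, nat_lit 1271250, nat_lit 1271250, nat_lit 1271250,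 nat_lit 0, nat_lit 2316500, [nat_lit 1100000, nat_lit 1785000, nat_lit 1271250], [nat_lit 37, nat_lit 40, nat_lit 40, nat_lit 80, nat_lit 28, nat_lit 483, nat_lit 250, nat_lit 11]⟩,
 ⟨nat_lit 0, nat_lit 3163, ⟨.ofNat (nat_lit 738244), .ofNat (nat_lit 805291), .ofNat (nat_lit 749322), .ofNat (nat_lit 816369), .ofNat (nat_lit 712497), .ofNat (nat_lit 767495), .ofNat (nat_lit 724998), .ofNat (nat_lit 779996)⟩, ⟨.ofNat (nat_lit 162054), .ofNat (nat_lit 344909), .ofNat (nat_lit 184209), .ofNat (nat_lit 367065), .ofNat (nat_lit 174999), .ofNat (nat_lit 324994), .ofNat (nat_lit 199999), .ofNat (nat_lit 349995)⟩⟩, [⟨nat_lit 13, nat_lit 45, nat_lit 78, nat_lit 100, nat_lit 362695672⟩, ⟨nat_lit 4, nat_lit 100, nat_lit 45, nat_lit 79, nat_lit 290590751⟩, ⟨nat_lit 22, nat_lit 74, nat_lit 93, nat_lit 100, nat_lit 36589413⟩]⟩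
noncomputable def p109_l48 : Lf2 := ⟨nat_lit 0, nat_lit 20, [nat_lit 5, nat_lit 5, nat_lit 5, nat_lit 20], false, nat_lit 80, nat_lit 200, nat_lit 0, nat_lit 320, ⟨nat_lit 437, nat_lit 563, nat_lit 0, nat_lit 8, nat_lit 319, nat_lit 563, nat_lit 102, nat_lit 0, nat_lit 0, nat_lit 0, nat_lit 0, nat_lit 0, nat_lit 38258124, nat_lit 24709936, nat_lit 4031940, nat_lit 4526721, true, true⟩,
 nat_lit 5813, nat_lit 0, nat_lit 0, nat_lit 0, nat_lit 4066, nat_lit 3383, nat_lit 0, nat_lit 0, nat_lit 0, nat_lit 327, nat_lit 0, nat_lit 0, nat_lit 0, nat_lit 0, nat_lit 0, nat_lit 327800, nat_lit 0, nat_lit 0, [(nat_lit 25, [(nat_lit 1, nat_lit 392), (nat_lit 2, nat_lit 171)])],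
 ⟨p109_k1, nat_lit 0, nat_lit 0, nat_lit 289, nat_lit 0, nat_lit 514794, [nat_lit 992164001, nat_lit 1761930667, nat_lit 2423313600], [], [nat_lit 28128129431, nat_lit 28916288615, nat_lit 30305405172, nat_lit 31220860341, nat_lit 28631376215, nat_lit 29311898435, nat_lit 30498632835, nat_lit 31243981573], nat_lit 1271250, nat_lit 1271250, nat_lit 1271250, nat_lit 1271250, nat_lit 490000, nat_lit 1427500, [nat_lit 230000, nat_lit 780000, nat_lit 1435000], [nat_lit 20, nat_lit 40, nat_lit 40, nat_lit 80, nat_lit 16, nat_lit 260, nat_lit 50, nat_lit 8]⟩, ⟨p109_k4, nat_lit 0, nat_lit 0, nat_lit 630, nat_lit 0, nat_lit 849242, [nat_lit 2048656000, nat_lit 3482016000, nat_lit 5188064000], [], [nat_lit 16472402839, nat_lit 16568188881, nat_lit 17152421813, nat_lit 17216614650, nat_lit 14379332932, nat_lit 14422516252, nat_lit 14844077191, nat_lit 14864614337], nat_lit 1271250, nat_lit 1271250, nat_lit 1271250, nat_lit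 1271250, nat_lit 0, nat_lit 2260000, [nat_lit 1100000, nat_lit 1785000, nat_lit 1271250], [nat_lit 21, nat_lit 40, nat_lit 40, nat_lit 80, nat_lit 14, nat_lit 373, nat_lit 150, nat_lit 9]⟩,
 ⟨nat_lit 2236, nat_lit 3163, ⟨.ofNat (nat_lit 749323), .ofNat (nat_lit 834658), .ofNat (nat_lit 771478), .ofNat (nat_lit 856813), .ofNat (nat_lit 739368), .ofNat (nat_lit 819190), .ofNat (nat_lit 762142), .ofNat (nat_lit 841964)⟩, ⟨.ofNat (nat_lit 139899), .ofNat (nat_lit 322759), .ofNat (nat_lit 184209), .ofNat (nat_lit 367069), .ofNat (nat_lit 146758), .ofNat (nat_lit 317804), .ofNat (nat_lit 192306), .ofNat (nat_lit 363353)⟩⟩, [⟨nat_lit 13, nat_lit 46, nat_lit 76, nat_lit 100, nat_lit 140372318⟩, ⟨nat_lit 16, nat_lit 54, nat_lit 100, nat_lit 73, nat_lit 249007972⟩, ⟨nat_lit 7, nat_lit 97, nat_lit 100, nat_lit 76, nat_lit 58365959⟩]⟩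
noncomputable def p109_l49 : Lf2 := ⟨nat_lit 0, nat_lit 20, [nat_lit 5, nat_lit 5, nat_lit 5, nat_lit 20], false, nat_lit 80, nat_lit 164, nat_lit 0, nat_lit 320, ⟨nat_lit 251, nat_lit 749, nat_lit 0, nat_lit 8, nat_lit 306, nat_lit 749, nat_lit 91, nat_lit 0, nat_lit 0, nat_lit 0, nat_lit 0, nat_lit 0, nat_lit 39764153, nat_lit 23722011, nat_lit 3513836, nat_lit 4380316, true, true⟩,
 nat_lit 3475, nat_lit 0, nat_lit 0, nat_lit 0, nat_lit 3117, nat_lit 2022, nat_lit 51, nat_lit 0, nat_lit 0, nat_lit 210, nat_lit 0, nat_lit 0, nat_lit 0, nat_lit 0, nat_lit 0, nat_lit 299600, nat_lit 0, nat_lit 0, [(nat_lit 28, [(nat_lit 1, nat_lit 749)])],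
 ⟨p109_k9, nat_lit 0, nat_lit 0, nat_lit 311, nat_lit 0, nat_lit 569506, [nat_lit 757940401, nat_lit 1067057200, nat_lit 1672112000], [], [nat_lit 26692995132, nat_lit 27768651539, nat_lit 28083574386, nat_lit 29293540284, nat_lit 27226259633, nat_lit 28013170944, nat_lit 28304074154, nat_lit 29311024441], nat_lit 1271250, nat_lit 1271250, nat_lit 1271250, nat_lit 1271250, nat_lit 490000, nat_lit 1133651, [nat_lit 230000, nat_lit 780000, nat_lit 1435000], [nat_lit 20, nat_lit 40, nat_lit 40, nat_lit 80, nat_lit 16, nat_lit 260, nat_lit 50, nat_lit 8]⟩, ⟨p109_k4, nat_lit 0, nat_lit 0, nat_lit 702, nat_lit 0, nat_lit 1021767, [nat_lit 1176688000, nat_lit 1999968000, nat_lit 2979872000], [], [nat_lit 9219860222, nat_lit 9262810064, nat_lit 9403058912, nat_lit 9435752730, nat_lit 7894417852, nat_lit 7892910312, nat_lit 7982499653, nat_lit 8047738459], nat_lit 1271250, nat_lit 1271250, nat_lit 1271250, nat_lit 1271250,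 nat_lit 0, nat_lit 2260000, [nat_lit 1100000, nat_lit 1785000, nat_lit 1271250], [nat_lit 21, nat_lit 40, nat_lit 40, nat_lit 80, nat_lit 14, nat_lit 373, nat_lit 150, nat_lit 9]⟩,
 ⟨nat_lit 0, nat_lit 2237, ⟨.ofNat (nat_lit 739366), .ofNat (nat_lit 784976), .ofNat (nat_lit 762141), .ofNat (nat_lit 807752), .ofNat (nat_lit 724997), .ofNat (nat_lit 764995), .ofNat (nat_lit 749998), .ofNat (nat_lit 789996)⟩, ⟨.ofNat (nat_lit 146756), .ofNat (nat_lit 266484), .ofNat (nat_lit 192306), .ofNat (nat_lit 312035), .ofNat (nat_lit 149997), .ofNat (nat_lit 254993), .ofNat (nat_lit 199999), .ofNat (nat_lit 304995)⟩⟩, [⟨nat_lit 13, nat_lit 48, nat_lit 71, nat_lit 100, nat_lit 231481192⟩, ⟨nat_lit 4, nat_lit 100, nat_lit 35, nat_lit 80, nat_lit 364518475⟩, ⟨nat_lit 7, nat_lit 97, nat_lit 100, nat_lit 76, nat_lit 984474⟩, ⟨nat_lit 22, nat_lit 80, nat_lit 99, nat_lit 100, nat_lit 30373194⟩]⟩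
noncomputable def b_V_900_600_10_12 : St := ⟨true, nat_lit 1, nat_lit 1, nat_lit 1, nat_lit 80, nat_lit 360, nat_lit 400, nat_lit 240, nat_lit 280, nat_lit 240, nat_lit 376, nat_lit 40, nat_lit 80, nat_lit 0, nat_lit 200, nat_lit 0, nat_lit 336, nat_lit 40, nat_lit 80, nat_lit 0, nat_lit 0, nat_lit 0, nat_lit 0⟩
theorem d_V_900_600_10_12 (h : EB TB.env) : Dead b_V_900_600_10_12 := chkB_sound0 h (T :=
(.spl (nat_lit 4) (nat_lit 80)
(.spl (nat_lit 0) (nat_lit 380)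
(.spl (nat_lit 1) (nat_lit 260)
(.trX (nat_lit 13) (nat_lit 63) (nat_lit 61) (nat_lit 100) (nat_lit 364) (.spl (nat_lit 2) (nat_lit 320)
(.spl (nat_lit 3) (nat_lit 60)
(.trX (nat_lit 19) (nat_lit 100) (nat_lit 85) (nat_lit 73) (nat_lit 312) (.leaf p109_l29))
(.leaf p109_l30))
(.trX (nat_lit 22) (nat_lit 83) (nat_lit 100) (nat_lit 83) (nat_lit 260) (.spl (nat_lit 0) (nat_lit 370)
(.leaf p109_l31)
(.trX (nat_lit 13) (nat_lit 55) (nat_lit 68) (nat_lit 100) (nat_lit 352) (.leaf p109_l32))))))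
(.trX (nat_lit 19) (nat_lit 100) (nat_lit 85) (nat_lit 84) (nat_lit 320) (.spl (nat_lit 3) (nat_lit 60)
(.trX (nat_lit 19) (nat_lit 100) (nat_lit 92) (nat_lit 75) (nat_lit 296) (.leaf p109_l33))
(.leaf p109_l34))))
(.trX (nat_lit 13) (nat_lit 48) (nat_lit 71) (nat_lit 100) (nat_lit 352) (.spl (nat_lit 1) (nat_lit 260)
(.trX (nat_lit 13) (nat_lit 46) (nat_lit 76) (nat_lit 100) (nat_lit 340) (.spl (nat_lit 2) (nat_lit 280)
(.leaf p109_l35)
(.trX (nat_lit 22) (nat_lit 100) (nat_lit 95) (nat_lit 87) (nat_lit 300) (.spl (nat_lit 0) (nat_lit 390)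
(.leaf p109_l36)
(.trX (nat_lit 13) (nat_lit 33) (nat_lit 85) (nat_lit 100) (nat_lit 320) (.trZ (nat_lit 3) (nat_lit 100) (nat_lit 52) (nat_lit 53) (nat_lit 8) (.leaf p109_l37)))))))
(.trX (nat_lit 19) (nat_lit 100) (nat_lit 85) (nat_lit 84) (nat_lit 320) (.spl (nat_lit 0) (nat_lit 390)
(.leaf p109_l38)
(.trX (nat_lit 13) (nat_lit 34) (nat_lit 81) (nat_lit 100) (nat_lit 336) (.trZ (nat_lit 3) (nat_lit 100) (nat_lit 52) (nat_lit 53) (nat_lit 8) (.leaf p109_l39))))))))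
(.spl (nat_lit 2) (nat_lit 320)
(.spl (nat_lit 0) (nat_lit 380)
(.spl (nat_lit 1) (nat_lit 260)
(.spl (nat_lit 0) (nat_lit 370)
(.leaf p109_l40)
(.trX (nat_lit 16) (nat_lit 53) (nat_lit 100) (nat_lit 80) (nat_lit 184) (.leaf p109_l41)))
(.trX (nat_lit 19) (nat_lit 100) (nat_lit 85) (nat_lit 84) (nat_lit 320) (.leaf p109_l42)))
(.trX (nat_lit 16) (nat_lit 44) (nat_lit 100) (nat_lit 82) (nat_lit 164) (.spl (nat_lit 0) (nat_lit 390)
(.leaf p109_l43)
(.trX (nat_lit 16) (nat_lit 33) (nat_lit 100) (nat_lit 84) (nat_lit 136) (.leaf p109_l44)))))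
(.spl (nat_lit 1) (nat_lit 260)
(.trX (nat_lit 13) (nat_lit 63) (nat_lit 61) (nat_lit 100) (nat_lit 364) (.spl (nat_lit 3) (nat_lit 60)
(.trX (nat_lit 16) (nat_lit 61) (nat_lit 100) (nat_lit 72) (nat_lit 176) (.trX (nat_lit 19) (nat_lit 100) (nat_lit 85) (nat_lit 73) (nat_lit 312) (.leaf p109_l45)))
(.spl (nat_lit 1) (nat_lit 250)
(.trX (nat_lit 13) (nat_lit 62) (nat_lit 65) (nat_lit 100) (nat_lit 360) (.leaf p109_l46))
(.trX (nat_lit 19) (nat_lit 100) (nat_lit 81) (nat_lit 83) (nat_lit 328) (.leaf p109_l47)))))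
(.trX (nat_lit 19) (nat_lit 100) (nat_lit 85) (nat_lit 84) (nat_lit 320) (.spl (nat_lit 0) (nat_lit 380)
(.leaf p109_l48)
(.trX (nat_lit 13) (nat_lit 48) (nat_lit 71) (nat_lit 100) (nat_lit 352) (.trX (nat_lit 16) (nat_lit 44) (nat_lit 100) (nat_lit 82) (nat_lit 164) (.leaf p109_l49))))))))) (by decide +kernel)
noncomputable def p109_l50 : Lf2 := ⟨nat_lit 0, nat_lit 20, [nat_lit 5, nat_lit 5, nat_lit 5, nat_lit 20], false, nat_lit 0, nat_lit 200, nat_lit 0, nat_lit 160, ⟨nat_lit 661, nat_lit 339, nat_lit 0, nat_lit 6, nat_lit 251, nat_lit 339, nat_lit 67, nat_lit 0, nat_lit 0, nat_lit 0, nat_lit 0, nat_lit 0, nat_lit 0, nat_lit 0, nat_lit 0, nat_lit 5000000, false, false⟩,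
 nat_lit 0, nat_lit 4489, nat_lit 0, nat_lit 0, nat_lit 3909, nat_lit 4328, nat_lit 132, nat_lit 0, nat_lit 0, nat_lit 760, nat_lit 0, nat_lit 0, nat_lit 0, nat_lit 0, nat_lit 0, nat_lit 339000, nat_lit 0, nat_lit 0, [(nat_lit 25, [(nat_lit 2, nat_lit 339)]), (nat_lit 28, [(nat_lit 2, nat_lit 339)])],
 ⟨p109_k1, nat_lit 0, nat_lit 0, nat_lit 553, nat_lit 0, nat_lit 1014421, [nat_lit 1117805601, nat_lit 2040265601, nat_lit 2809556800], [], [nat_lit 29056005079, nat_lit 30668702244, nat_lit 33943401561, nat_lit 35396957291, nat_lit 29229080620, nat_lit 30589247698, nat_lit 35214858040, nat_lit 34900624341], nat_lit 1271250, nat_lit 1271250, nat_lit 719601, nat_lit 2861300, nat_lit 0, nat_lit 1412500, [nat_lit 230000, nat_lit 780000, nat_lit 1435000], [nat_lit 20, nat_lit 40, nat_lit 40, nat_lit 80, nat_lit 16, nat_lit 373, nat_lit 150, nat_lit 14]⟩, ⟨p109_k10, nat_lit 0, nat_lit 0, nat_lit 271, nat_lit 0, nat_lit 0,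 [nat_lit 3098768000, nat_lit 5266848000, nat_lit 9292338000], [], [nat_lit 17512655069, nat_lit 19032154468, nat_lit 23829716028, nat_lit 24510608635, nat_lit 14830941880, nat_lit 15933679936, nat_lit 20136647073, nat_lit 20924021016], nat_lit 0, nat_lit 0, nat_lit 0, nat_lit 0, nat_lit 0, nat_lit 0, [], [nat_lit 37, nat_lit 40, nat_lit 40, nat_lit 80, nat_lit 28, nat_lit 456, nat_lit 225, nat_lit 11]⟩,
 ⟨nat_lit 0, nat_lit 3163, ⟨.ofNat (nat_lit 401957), .ofNat (nat_lit 812499), .ofNat (nat_lit 443658), .ofNat (nat_lit 856810), .ofNat (nat_lit 431745), .ofNat (nat_lit 769995), .ofNat (nat_lit 479136), .ofNat (nat_lit 819996)⟩, ⟨.ofNat (nat_lit 0), .ofNat (nat_lit 322753), .ofNat (nat_lit 0), .ofNat (nat_lit 367065), .ofNat (nat_lit 0), .ofNat (nat_lit 299993), .ofNat (nat_lit 0), .ofNat (nat_lit 349995)⟩⟩, [⟨nat_lit 0, nat_lit 96, nat_lit 44, nat_lit 100, nat_lit 131439629⟩, ⟨nat_lit 4, nat_lit 100, nat_lit 46,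 nat_lit 75, nat_lit 360668509⟩]⟩
noncomputable def p109_l51 : Lf2 := ⟨nat_lit 0, nat_lit 20, [nat_lit 5, nat_lit 5, nat_lit 5, nat_lit 20], false, nat_lit 0, nat_lit 200, nat_lit 160, nat_lit 336, ⟨nat_lit 634, nat_lit 366, nat_lit 0, nat_lit 6, nat_lit 251, nat_lit 366, nat_lit 67, nat_lit 0, nat_lit 0, nat_lit 0, nat_lit 0, nat_lit 0, nat_lit 0, nat_lit 0, nat_lit 0, nat_lit 5000000, false, false⟩,
 nat_lit 0, nat_lit 4429, nat_lit 0, nat_lit 0, nat_lit 3857, nat_lit 4096, nat_lit 182, nat_lit 0, nat_lit 0, nat_lit 0, nat_lit 0, nat_lit 0, nat_lit 0, nat_lit 0, nat_lit 0, nat_lit 357600, nat_lit 0, nat_lit 0, [(nat_lit 25, [(nat_lit 1, nat_lit 14), (nat_lit 2, nat_lit 352)]), (nat_lit 28, [(nat_lit 1, nat_lit 14), (nat_lit 2, nat_lit 352)])],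
 ⟨p109_k1, nat_lit 0, nat_lit 0, nat_lit 553, nat_lit 0, nat_lit 1014421, [nat_lit 1123396000, nat_lit 1960729334, nat_lit 2602935200], [], [nat_lit 27811397683, nat_lit 29634451000, nat_lit 33668128137, nat_lit 35234108800, nat_lit 28435647036, nat_lit 29960734022, nat_lit 34661747808, nat_lit 35005506510], nat_lit 1271250, nat_lit 1271250, nat_lit 719601, nat_lit 2861300, nat_lit 0, nat_lit 1412500, [nat_lit 230000, nat_lit 780000, nat_lit 1435000], [nat_lit 20, nat_lit 40, nat_lit 40, nat_lit 80, nat_lit 16, nat_lit 373, nat_lit 150, nat_lit 14]⟩, ⟨p109_k10, nat_lit 0, nat_lit 0, nat_lit 85, nat_lit 0, nat_lit 0, [nat_lit 2972192000, nat_lit 5051712000, nat_lit 8912772000], [], [nat_lit 5921092501, nat_lit 8201773220, nat_lit 16202612354, nat_lit 17451311170, nat_lit 13729532051, nat_lit 15107353534, nat_lit 20310527484, nat_lit 21041582175], nat_lit 0, nat_lit 0, nat_lit 0, nat_lit 0, nat_lit 0, nat_lit 0, [],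 [nat_lit 37, nat_lit 40, nat_lit 40, nat_lit 80, nat_lit 28, nat_lit 483, nat_lit 250, nat_lit 11]⟩,
 ⟨nat_lit 0, nat_lit 3163, ⟨.ofNat (nat_lit 401957), .ofNat (nat_lit 812499), .ofNat (nat_lit 443658), .ofNat (nat_lit 856810), .ofNat (nat_lit 431745), .ofNat (nat_lit 769995), .ofNat (nat_lit 479136), .ofNat (nat_lit 819996)⟩, ⟨.ofNat (nat_lit 0), .ofNat (nat_lit 322753), .ofNat (nat_lit 0), .ofNat (nat_lit 367065), .ofNat (nat_lit 0), .ofNat (nat_lit 299993), .ofNat (nat_lit 0), .ofNat (nat_lit 349995)⟩⟩, [⟨nat_lit 0, nat_lit 96, nat_lit 44, nat_lit 100, nat_lit 17857823⟩, ⟨nat_lit 4, nat_lit 100, nat_lit 46, nat_lit 75, nat_lit 368490385⟩, ⟨nat_lit 19, nat_lit 100, nat_lit 76, nat_lit 82, nat_lit 312741643⟩]⟩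
noncomputable def p109_l52 : Lf2 := ⟨nat_lit 0, nat_lit 20, [nat_lit 5, nat_lit 5, nat_lit 5, nat_lit 20], true, nat_lit 0, nat_lit 200, nat_lit 0, nat_lit 336, ⟨nat_lit 0, nat_lit 1000, nat_lit 0, nat_lit 6, nat_lit 213, nat_lit 1000, nat_lit 67, nat_lit 0, nat_lit 0, nat_lit 0, nat_lit 0, nat_lit 0, nat_lit 0, nat_lit 0, nat_lit 0, nat_lit 5000000, false, false⟩,
 nat_lit 0, nat_lit 3843, nat_lit 0, nat_lit 0, nat_lit 3346, nat_lit 0, nat_lit 158, nat_lit 0, nat_lit 0, nat_lit 0, nat_lit 0, nat_lit 0, nat_lit 0, nat_lit 0, nat_lit 0, nat_lit 343450, nat_lit 0, nat_lit 0, [(nat_lit 25, [(nat_lit 0, nat_lit 377), (nat_lit 1, nat_lit 623)]), (nat_lit 28, [(nat_lit 0, nat_lit 377), (nat_lit 1, nat_lit 623)])],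
 ⟨p109_k1, nat_lit 0, nat_lit 0, nat_lit 553, nat_lit 0, nat_lit 1014421, [nat_lit 820973601, nat_lit 1140366667, nat_lit 1368655600], [], [nat_lit 23486502650, nat_lit 25201897268, nat_lit 25513243439, nat_lit 27199553103, nat_lit 24602626195, nat_lit 26226184914, nat_lit 26509926808, nat_lit 28048767163], nat_lit 1271250, nat_lit 1271250, nat_lit 719601, nat_lit 1758000, nat_lit 0, nat_lit 1412500, [nat_lit 230000, nat_lit 780000, nat_lit 1435000], [nat_lit 20, nat_lit 40, nat_lit 40, nat_lit 80, nat_lit 16, nat_lit 345, nat_lit 125, nat_lit 13]⟩, C1.Rw.none,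
 ⟨nat_lit 0, nat_lit 3163, ⟨.ofNat (nat_lit 401957), .ofNat (nat_lit 605128), .ofNat (nat_lit 443658), .ofNat (nat_lit 646918), .ofNat (nat_lit 431745), .ofNat (nat_lit 599865), .ofNat (nat_lit 479136), .ofNat (nat_lit 647345)⟩, ⟨.ofNat (nat_lit 0), .ofNat (nat_lit 322753), .ofNat (nat_lit 0), .ofNat (nat_lit 367065), .ofNat (nat_lit 0), .ofNat (nat_lit 299993), .ofNat (nat_lit 0), .ofNat (nat_lit 349995)⟩⟩, [⟨nat_lit 4, nat_lit 100, nat_lit 46, nat_lit 75, nat_lit 270646740⟩]⟩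
noncomputable def p109_l53 : Lf2 := ⟨nat_lit 0, nat_lit 20, [nat_lit 5, nat_lit 5, nat_lit 5, nat_lit 20], false, nat_lit 0, nat_lit 200, nat_lit 0, nat_lit 336, ⟨nat_lit 218, nat_lit 782, nat_lit 0, nat_lit 6, nat_lit 288, nat_lit 782, nat_lit 67, nat_lit 0, nat_lit 0, nat_lit 0, nat_lit 0, nat_lit 0, nat_lit 0, nat_lit 0, nat_lit 0, nat_lit 5000000, true, true⟩,
 nat_lit 3788, nat_lit 0, nat_lit 0, nat_lit 0, nat_lit 3299, nat_lit 2005, nat_lit 101, nat_lit 0, nat_lit 0, nat_lit 162, nat_lit 0, nat_lit 0, nat_lit 0, nat_lit 0, nat_lit 0, nat_lit 312800, nat_lit 0, nat_lit 0, [(nat_lit 25, [(nat_lit 1, nat_lit 782)]), (nat_lit 28, [(nat_lit 1, nat_lit 782)])],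
 ⟨p109_k1, nat_lit 0, nat_lit 0, nat_lit 384, nat_lit 0, nat_lit 619375, [nat_lit 865117600, nat_lit 1499144267, nat_lit 2078186400], [], [nat_lit 27172105931, nat_lit 28786688148, nat_lit 31058282040, nat_lit 33477527875, nat_lit 27623372184, nat_lit 28977735212, nat_lit 30829503126, nat_lit 31961251787], nat_lit 1271250, nat_lit 1271250, nat_lit 1271250, nat_lit 1271250, nat_lit 0, nat_lit 1412500, [nat_lit 230000, nat_lit 780000, nat_lit 1435000], [nat_lit 20, nat_lit 40, nat_lit 40, nat_lit 80, nat_lit 16, nat_lit 260, nat_lit 50, nat_lit 9]⟩, ⟨p109_k10, nat_lit 0, nat_lit 0, nat_lit 834, nat_lit 0, nat_lit 1155508, [nat_lit 1021984000, nat_lit 1737024000, nat_lit 3064644000], [], [nat_lit 8351506616, nat_lit 8389809048, nat_lit 9394811837, nat_lit 9623311588, nat_lit 7011477528, nat_lit 7012023752, nat_lit 7794246665, nat_lit 7861380970], nat_lit 1271250, nat_lit 1271250, nat_lit 1271250, nat_lit 1271250, nat_lit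 0, nat_lit 2373000, [nat_lit 1100000, nat_lit 1785000, nat_lit 1271250], [nat_lit 37, nat_lit 40, nat_lit 40, nat_lit 80, nat_lit 28, nat_lit 483, nat_lit 250, nat_lit 11]⟩,
 ⟨nat_lit 0, nat_lit 3163, ⟨.ofNat (nat_lit 605128), .ofNat (nat_lit 812499), .ofNat (nat_lit 646918), .ofNat (nat_lit 856810), .ofNat (nat_lit 599865), .ofNat (nat_lit 769995), .ofNat (nat_lit 647345), .ofNat (nat_lit 819996)⟩, ⟨.ofNat (nat_lit 0), .ofNat (nat_lit 322753), .ofNat (nat_lit 0), .ofNat (nat_lit 367065), .ofNat (nat_lit 0), .ofNat (nat_lit 299993), .ofNat (nat_lit 0), .ofNat (nat_lit 349995)⟩⟩, [⟨nat_lit 13, nat_lit 46, nat_lit 76, nat_lit 100, nat_lit 250993297⟩, ⟨nat_lit 16, nat_lit 46, nat_lit 100, nat_lit 75, nat_lit 152384138⟩, ⟨nat_lit 7, nat_lit 92, nat_lit 100, nat_lit 75, nat_lit 20061082⟩]⟩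
noncomputable def b_V_900_600_10_13 : St := ⟨true, nat_lit 1, nat_lit 2, nat_lit 2, nat_lit 80, nat_lit 360, nat_lit 400, nat_lit 240, nat_lit 280, nat_lit 112, nat_lit 376, nat_lit 40, nat_lit 80, nat_lit 0, nat_lit 200, nat_lit 0, nat_lit 336, nat_lit 40, nat_lit 80, nat_lit 0, nat_lit 0, nat_lit 0, nat_lit 0⟩
theorem d_V_900_600_10_13 (h : EB TB.env) : Dead b_V_900_600_10_13 := chkB_sound0 h (T :=
(.st (nat_lit 1)
(.spl (nat_lit 5) (nat_lit 160)
(.leaf p109_l50)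
(.leaf p109_l51))
(.spl (nat_lit 2) (nat_lit 240)
(.leaf p109_l52)
(.leaf p109_l53)))) (by decide +kernel)
noncomputable def p109_l54 : Lf2 := ⟨nat_lit 0, nat_lit 20, [nat_lit 5, nat_lit 5, nat_lit 5, nat_lit 20], false, nat_lit 0, nat_lit 200, nat_lit 0, nat_lit 336, ⟨nat_lit 358, nat_lit 0, nat_lit 642, nat_lit 6, nat_lit 213, nat_lit 642, nat_lit 67, nat_lit 642, nat_lit 41667, nat_lit 265, nat_lit 23440, nat_lit 200, nat_lit 52221722, nat_lit 0, nat_lit 0, nat_lit 2638149, false, false⟩,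
 nat_lit 0, nat_lit 0, nat_lit 0, nat_lit 2790, nat_lit 4183, nat_lit 6124, nat_lit 0, nat_lit 0, nat_lit 0, nat_lit 0, nat_lit 0, nat_lit 0, nat_lit 0, nat_lit 0, nat_lit 0, nat_lit 139115, nat_lit 0, nat_lit 0, [(nat_lit 25, [(nat_lit 3, nat_lit 329), (nat_lit 4, nat_lit 313)]), (nat_lit 28, [(nat_lit 3, nat_lit 329), (nat_lit 4, nat_lit 313)])],
 ⟨p109_k0, nat_lit 0, nat_lit 0, nat_lit 187, nat_lit 0, nat_lit 0, [nat_lit 1124587520, nat_lit 1214986400], [], [nat_lit 22432203813, nat_lit 27264908541, nat_lit 25415410364, nat_lit 29288665936, nat_lit 21623747965, nat_lit 24651576086, nat_lit 23560863454, nat_lit 26659182266], nat_lit 0, nat_lit 0, nat_lit 0, nat_lit 0, nat_lit 0, nat_lit 0, [], [nat_lit 88, nat_lit 40, nat_lit 40, nat_lit 80, nat_lit 89, nat_lit 345, nat_lit 125, nat_lit 13]⟩, ⟨p109_k11, nat_lit 0, nat_lit 0, nat_lit 240, nat_lit 0, nat_lit 0, [nat_lit 1678304000, nat_lit 5032764000], [], [nat_lit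 16429614247, nat_lit 17872599577, nat_lit 16520514672, nat_lit 17541873464, nat_lit 13712995610, nat_lit 14251618199, nat_lit 12452439912, nat_lit 12758689999], nat_lit 0, nat_lit 0, nat_lit 0, nat_lit 0, nat_lit 0, nat_lit 0, [], [nat_lit 145, nat_lit 40, nat_lit 40, nat_lit 80, nat_lit 144, nat_lit 456, nat_lit 225, nat_lit 11]⟩,
 ⟨nat_lit 0, nat_lit 3163, ⟨.ofNat (nat_lit 401957), .ofNat (nat_lit 605128), .ofNat (nat_lit 443658), .ofNat (nat_lit 646918), .ofNat (nat_lit 431745), .ofNat (nat_lit 599865), .ofNat (nat_lit 479136), .ofNat (nat_lit 647345)⟩, ⟨.ofNat (nat_lit 0), .ofNat (nat_lit 322753), .ofNat (nat_lit 0), .ofNat (nat_lit 367065), .ofNat (nat_lit 0), .ofNat (nat_lit 299993), .ofNat (nat_lit 0), .ofNat (nat_lit 349995)⟩⟩, [⟨nat_lit 0, nat_lit 96, nat_lit 44, nat_lit 100, nat_lit 330570255⟩]⟩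
noncomputable def p109_l55 : Lf2 := ⟨nat_lit 0, nat_lit 20, [nat_lit 5, nat_lit 5, nat_lit 5, nat_lit 20], false, nat_lit 0, nat_lit 200, nat_lit 0, nat_lit 336, ⟨nat_lit 1000, nat_lit 0, nat_lit 0, nat_lit 0, nat_lit 0, nat_lit 0, nat_lit 0, nat_lit 0, nat_lit 0, nat_lit 0, nat_lit 0, nat_lit 0, nat_lit 0, nat_lit 0, nat_lit 0, nat_lit 0, false, false⟩,
 nat_lit 0, nat_lit 0, nat_lit 0, nat_lit 2844, nat_lit 6233, nat_lit 12847, nat_lit 0, nat_lit 0, nat_lit 0, nat_lit 0, nat_lit 0, nat_lit 0, nat_lit 0, nat_lit 0, nat_lit 0, nat_lit 0, nat_lit 0, nat_lit 0, [],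
 ⟨p109_k0, nat_lit 0, nat_lit 0, nat_lit 195, nat_lit 0, nat_lit 0, [nat_lit 938000000, nat_lit 6250000000], [], [nat_lit 33130398656, nat_lit 36228333916, nat_lit 39499687684, nat_lit 42709668705, nat_lit 29928738334, nat_lit 32371839284, nat_lit 34924017298, nat_lit 36685822075], nat_lit 0, nat_lit 0, nat_lit 0, nat_lit 0, nat_lit 0, nat_lit 0, [], [nat_lit 88, nat_lit 40, nat_lit 40, nat_lit 80, nat_lit 89, nat_lit 260, nat_lit 50, nat_lit 9]⟩, ⟨p109_k11, nat_lit 0, nat_lit 0, nat_lit 249, nat_lit 0, nat_lit 0, [nat_lit 4688000000, nat_lit 14058000000], [], [nat_lit 43679723952, nat_lit 46099424180, nat_lit 54626390415, nat_lit 55704899912, nat_lit 36886299567, nat_lit 37752469560, nat_lit 41899789364, nat_lit 42009015586], nat_lit 0, nat_lit 0, nat_lit 0, nat_lit 0, nat_lit 0, nat_lit 0, [], [nat_lit 145, nat_lit 40, nat_lit 40, nat_lit 80, nat_lit 144, nat_lit 483, nat_lit 250, nat_lit 11]⟩,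
 zbF0, [⟨nat_lit 16, nat_lit 46, nat_lit 100, nat_lit 75, nat_lit 173403932⟩]⟩
noncomputable def b_V_900_600_10_14 : St := ⟨true, nat_lit 0, nat_lit 0, nat_lit 1, nat_lit 80, nat_lit 360, nat_lit 400, nat_lit 240, nat_lit 280, nat_lit 112, nat_lit 376, nat_lit 40, nat_lit 80, nat_lit 0, nat_lit 200, nat_lit 0, nat_lit 336, nat_lit 80, nat_lit 120, nat_lit 0, nat_lit 0, nat_lit 0, nat_lit 0⟩
theorem d_V_900_600_10_14 (h : EB TB.env) : Dead b_V_900_600_10_14 := chkB_sound0 h (T :=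
(.spl (nat_lit 2) (nat_lit 240)
(.leaf p109_l54)
(.leaf p109_l55))) (by decide +kernel)
noncomputable def p109_l56 : Lf2 := ⟨nat_lit 0, nat_lit 20, [nat_lit 5, nat_lit 5, nat_lit 5, nat_lit 20], true, nat_lit 0, nat_lit 80, nat_lit 0, nat_lit 336, ⟨nat_lit 0, nat_lit 294, nat_lit 706, nat_lit 6, nat_lit 208, nat_lit 1000, nat_lit 34, nat_lit 706, nat_lit 10417, nat_lit 240, nat_lit 5929, nat_lit 204, nat_lit 52703348, nat_lit 14296652, nat_lit 0, nat_lit 2592020, false, false⟩,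
 nat_lit 0, nat_lit 0, nat_lit 0, nat_lit 2392, nat_lit 2237, nat_lit 0, nat_lit 0, nat_lit 0, nat_lit 0, nat_lit 0, nat_lit 0, nat_lit 0, nat_lit 0, nat_lit 0, nat_lit 35, nat_lit 250000, nat_lit 0, nat_lit 0, [(nat_lit 25, [(nat_lit 0, nat_lit 294), (nat_lit 4, nat_lit 706)]), (nat_lit 28, [(nat_lit 0, nat_lit 294), (nat_lit 4, nat_lit 706)])],
 ⟨p109_k1, nat_lit 0, nat_lit 0, nat_lit 172, nat_lit 0, nat_lit 0, [nat_lit 907480000, nat_lit 566949334, nat_lit 35733866], [], [nat_lit 19647428656, nat_lit 21874566832, nat_lit 22291035456, nat_lit 24418132744, nat_lit 19335434603, nat_lit 21437903121, nat_lit 21920631960, nat_lit 23977754384], nat_lit 0, nat_lit 0, nat_lit 0, nat_lit 0, nat_lit 0, nat_lit 0, [], [nat_lit 20, nat_lit 40, nat_lit 40, nat_lit 80, nat_lit 16, nat_lit 317, nat_lit 100, nat_lit 12]⟩, C1.Rw.none,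
 ⟨nat_lit 0, nat_lit 3163, ⟨.ofNat (nat_lit 401957), .ofNat (nat_lit 605128), .ofNat (nat_lit 422807), .ofNat (nat_lit 626068), .ofNat (nat_lit 431745), .ofNat (nat_lit 599865), .ofNat (nat_lit 455440), .ofNat (nat_lit 623650)⟩, ⟨.ofNat (nat_lit 0), .ofNat (nat_lit 139898), .ofNat (nat_lit 0), .ofNat (nat_lit 184209), .ofNat (nat_lit 0), .ofNat (nat_lit 149998), .ofNat (nat_lit 0), .ofNat (nat_lit 199999)⟩⟩, [⟨nat_lit 3, nat_lit 100, nat_lit 61, nat_lit 47, nat_lit 142649262⟩]⟩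
noncomputable def p109_l57 : Lf2 := ⟨nat_lit 0, nat_lit 20, [nat_lit 5, nat_lit 5, nat_lit 5, nat_lit 20], false, nat_lit 0, nat_lit 80, nat_lit 0, nat_lit 320, ⟨nat_lit 69, nat_lit 269, nat_lit 662, nat_lit 6, nat_lit 223, nat_lit 931, nat_lit 33, nat_lit 662, nat_lit 10417, nat_lit 240, nat_lit 27594, nat_lit 200, nat_lit 51103906, nat_lit 15896094, nat_lit 0, nat_lit 2739475, false, false⟩,
 nat_lit 0, nat_lit 0, nat_lit 1053, nat_lit 0, nat_lit 2434, nat_lit 612, nat_lit 0, nat_lit 0, nat_lit 0, nat_lit 0, nat_lit 0, nat_lit 0, nat_lit 0, nat_lit 0, nat_lit 12, nat_lit 232750, nat_lit 0, nat_lit 0, [(nat_lit 25, [(nat_lit 0, nat_lit 269), (nat_lit 4, nat_lit 662)])],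
 ⟨p109_k1, nat_lit 0, nat_lit 0, nat_lit 146, nat_lit 0, nat_lit 0, [nat_lit 800174001, nat_lit 499109467, nat_lit 23848133], [], [nat_lit 19524851431, nat_lit 20913774452, nat_lit 22261293743, nat_lit 23439437700, nat_lit 19103959729, nat_lit 20284554308, nat_lit 21684809359, nat_lit 22775824667], nat_lit 0, nat_lit 0, nat_lit 0, nat_lit 0, nat_lit 0, nat_lit 0, [], [nat_lit 20, nat_lit 40, nat_lit 40, nat_lit 80, nat_lit 16, nat_lit 317, nat_lit 100, nat_lit 12]⟩, ⟨p109_k4, nat_lit 0, nat_lit 0, nat_lit 849, nat_lit 0, nat_lit 1204723, [nat_lit 323472000, nat_lit 549792000, nat_lit 819168000], [], [nat_lit 3348378236, nat_lit 3369522773, nat_lit 3297449202, nat_lit 3310994676, nat_lit 2945618487, nat_lit 2949607799, nat_lit 3100399788, nat_lit 2841386544], nat_lit 1271250, nat_lit 1271250, nat_lit 872850, nat_lit 1769250, nat_lit 0, nat_lit 2260000, [nat_lit 1100000, nat_lit 1785000, nat_lit 1271250], [nat_lit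 21, nat_lit 40, nat_lit 40, nat_lit 80, nat_lit 14, nat_lit 456, nat_lit 225, nat_lit 12]⟩,
 ⟨nat_lit 2236, nat_lit 3163, ⟨.ofNat (nat_lit 462477), .ofNat (nat_lit 627331), .ofNat (nat_lit 484568), .ofNat (nat_lit 649422), .ofNat (nat_lit 471029), .ofNat (nat_lit 625251), .ofNat (nat_lit 493740), .ofNat (nat_lit 647962)⟩, ⟨.ofNat (nat_lit 0), .ofNat (nat_lit 139899), .ofNat (nat_lit 0), .ofNat (nat_lit 184209), .ofNat (nat_lit 0), .ofNat (nat_lit 146758), .ofNat (nat_lit 0), .ofNat (nat_lit 192306)⟩⟩, [⟨nat_lit 3, nat_lit 100, nat_lit 74, nat_lit 33, nat_lit 84727691⟩, ⟨nat_lit 10, nat_lit 80, nat_lit 100, nat_lit 54, nat_lit 9944270⟩]⟩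
noncomputable def p109_l58 : Lf2 := ⟨nat_lit 0, nat_lit 20, [nat_lit 5, nat_lit 5, nat_lit 5, nat_lit 20], false, nat_lit 0, nat_lit 80, nat_lit 0, nat_lit 320, ⟨nat_lit 56, nat_lit 474, nat_lit 470, nat_lit 6, nat_lit 234, nat_lit 944, nat_lit 34, nat_lit 470, nat_lit 11267, nat_lit 241, nat_lit 25022, nat_lit 200, nat_lit 49878096, nat_lit 17121904, nat_lit 0, nat_lit 2841756, false, false⟩,
 nat_lit 0, nat_lit 0, nat_lit 853, nat_lit 0, nat_lit 2591, nat_lit 496, nat_lit 0, nat_lit 0, nat_lit 0, nat_lit 43, nat_lit 0, nat_lit 0, nat_lit 0, nat_lit 0, nat_lit 0, nat_lit 236000, nat_lit 0, nat_lit 0, [(nat_lit 28, [(nat_lit 0, nat_lit 474), (nat_lit 4, nat_lit 470)])],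
 ⟨p109_k9, nat_lit 0, nat_lit 0, nat_lit 153, nat_lit 0, nat_lit 0, [nat_lit 780958401, nat_lit 201098400, nat_lit 50929600], [], [nat_lit 21906264623, nat_lit 23393618444, nat_lit 23798821753, nat_lit 25302629072, nat_lit 21320589075, nat_lit 22541850283, nat_lit 23161025645, nat_lit 24253456935], nat_lit 0, nat_lit 0, nat_lit 0, nat_lit 0, nat_lit 0, nat_lit 0, [], [nat_lit 20, nat_lit 40, nat_lit 40, nat_lit 80, nat_lit 16, nat_lit 317, nat_lit 100, nat_lit 11]⟩, ⟨p109_k4, nat_lit 0, nat_lit 0, nat_lit 1009, nat_lit 0, nat_lit 1592403, [nat_lit 262528000, nat_lit 446208000, nat_lit 664832000], [], [nat_lit 2034515277, nat_lit 1941906474, nat_lit 1904773952, nat_lit 1908553874, nat_lit 2153638064, nat_lit 1926678781, nat_lit 1576373858, nat_lit 1590006249], nat_lit 1271250, nat_lit 1271250, nat_lit 1271250, nat_lit 1271250, nat_lit 0, nat_lit 2260000, [nat_lit 1100000, nat_lit 1785000, nat_lit 1271250], [nat_lit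 21, nat_lit 40, nat_lit 40, nat_lit 80, nat_lit 14, nat_lit 456, nat_lit 225, nat_lit 12]⟩,
 ⟨nat_lit 0, nat_lit 2237, ⟨.ofNat (nat_lit 518456), .ofNat (nat_lit 624400), .ofNat (nat_lit 540305), .ofNat (nat_lit 646249), .ofNat (nat_lit 530746), .ofNat (nat_lit 624062), .ofNat (nat_lit 554820), .ofNat (nat_lit 648136)⟩, ⟨.ofNat (nat_lit 0), .ofNat (nat_lit 146756), .ofNat (nat_lit 0), .ofNat (nat_lit 192306), .ofNat (nat_lit 0), .ofNat (nat_lit 149997), .ofNat (nat_lit 0), .ofNat (nat_lit 199999)⟩⟩, [⟨nat_lit 3, nat_lit 100, nat_lit 44, nat_lit 64, nat_lit 165050572⟩, ⟨nat_lit 22, nat_lit 100, nat_lit 81, nat_lit 60, nat_lit 9049365⟩]⟩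
noncomputable def p109_l59 : Lf2 := ⟨nat_lit 0, nat_lit 20, [nat_lit 5, nat_lit 5, nat_lit 5, nat_lit 20], true, nat_lit 80, nat_lit 200, nat_lit 0, nat_lit 336, ⟨nat_lit 0, nat_lit 689, nat_lit 311, nat_lit 6, nat_lit 213, nat_lit 1000, nat_lit 101, nat_lit 311, nat_lit 96267, nat_lit 291, nat_lit 23440, nat_lit 200, nat_lit 48049562, nat_lit 14446882, nat_lit 4503556, nat_lit 3983771, false, false⟩,
 nat_lit 0, nat_lit 0, nat_lit 0, nat_lit 2783, nat_lit 3466, nat_lit 0, nat_lit 0, nat_lit 0, nat_lit 0, nat_lit 0, nat_lit 0, nat_lit 0, nat_lit 0, nat_lit 0, nat_lit 0, nat_lit 229785, nat_lit 0, nat_lit 0, [(nat_lit 25, [(nat_lit 0, nat_lit 689), (nat_lit 3, nat_lit 311)]), (nat_lit 28, [(nat_lit 0, nat_lit 689), (nat_lit 3, nat_lit 311)])],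
 ⟨p109_k0, nat_lit 0, nat_lit 0, nat_lit 112, nat_lit 0, nat_lit 0, [nat_lit 1026668001, nat_lit 1043059600], [], [nat_lit 19391999544, nat_lit 22651032364, nat_lit 22284374144, nat_lit 24950265488, nat_lit 21264575710, nat_lit 24010912951, nat_lit 23722385978, nat_lit 25959504408], nat_lit 0, nat_lit 0, nat_lit 0, nat_lit 0, nat_lit 0, nat_lit 0, [], [nat_lit 88, nat_lit 40, nat_lit 40, nat_lit 80, nat_lit 89, nat_lit 345, nat_lit 125, nat_lit 13]⟩, C1.Rw.none,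
 ⟨nat_lit 0, nat_lit 3163, ⟨.ofNat (nat_lit 401957), .ofNat (nat_lit 605128), .ofNat (nat_lit 443658), .ofNat (nat_lit 646918), .ofNat (nat_lit 431745), .ofNat (nat_lit 599865), .ofNat (nat_lit 479136), .ofNat (nat_lit 647345)⟩, ⟨.ofNat (nat_lit 139898), .ofNat (nat_lit 322753), .ofNat (nat_lit 184209), .ofNat (nat_lit 367065), .ofNat (nat_lit 149998), .ofNat (nat_lit 299993), .ofNat (nat_lit 199999), .ofNat (nat_lit 349995)⟩⟩, [⟨nat_lit 16, nat_lit 46, nat_lit 100, nat_lit 75, nat_lit 171930414⟩]⟩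
noncomputable def b_V_900_600_10_15 : St := ⟨true, nat_lit 0, nat_lit 1, nat_lit 1, nat_lit 80, nat_lit 360, nat_lit 400, nat_lit 240, nat_lit 280, nat_lit 112, nat_lit 240, nat_lit 40, nat_lit 80, nat_lit 0, nat_lit 200, nat_lit 0, nat_lit 336, nat_lit 80, nat_lit 120, nat_lit 0, nat_lit 0, nat_lit 0, nat_lit 0⟩
theorem d_V_900_600_10_15 (h : EB TB.env) : Dead b_V_900_600_10_15 := chkB_sound0 h (T :=
(.spl (nat_lit 4) (nat_lit 80)
(.spl (nat_lit 1) (nat_lit 260)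
(.leaf p109_l56)
(.trZ (nat_lit 0) (nat_lit 100) (nat_lit 63) (nat_lit 99) (nat_lit 132) (.trX (nat_lit 19) (nat_lit 100) (nat_lit 85) (nat_lit 84) (nat_lit 320) (.spl (nat_lit 0) (nat_lit 380)
(.leaf p109_l57)
(.trZ (nat_lit 0) (nat_lit 96) (nat_lit 44) (nat_lit 100) (nat_lit 168) (.leaf p109_l58))))))
(.leaf p109_l59))) (by decide +kernel)
noncomputable def p109_l60 : Lf2 := ⟨nat_lit 0, nat_lit 20, [nat_lit 5, nat_lit 5, nat_lit 5, nat_lit 20], true, nat_lit 0, nat_lit 80, nat_lit 0, nat_lit 336, ⟨nat_lit 0, nat_lit 510, nat_lit 490, nat_lit 6, nat_lit 256, nat_lit 1000, nat_lit 33, nat_lit 490, nat_lit 10417, nat_lit 240, nat_lit 83334, nat_lit 200, nat_lit 47574316, nat_lit 19425684, nat_lit 0, nat_lit 3010469, true, true⟩,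
 nat_lit 0, nat_lit 0, nat_lit 0, nat_lit 3024, nat_lit 2493, nat_lit 0, nat_lit 0, nat_lit 0, nat_lit 0, nat_lit 0, nat_lit 0, nat_lit 0, nat_lit 0, nat_lit 0, nat_lit 0, nat_lit 250000, nat_lit 0, nat_lit 0, [(nat_lit 25, [(nat_lit 0, nat_lit 510), (nat_lit 4, nat_lit 490)])],
 ⟨p109_k1, nat_lit 0, nat_lit 0, nat_lit 147, nat_lit 0, nat_lit 0, [nat_lit 746360001, nat_lit 520773334, nat_lit 169954666], [], [nat_lit 22831352242, nat_lit 23887725552, nat_lit 24160130789, nat_lit 25220561335, nat_lit 22403235374, nat_lit 23400107302, nat_lit 23667543026, nat_lit 24599155450], nat_lit 0, nat_lit 0, nat_lit 0, nat_lit 0, nat_lit 0, nat_lit 0, [], [nat_lit 20, nat_lit 40, nat_lit 40, nat_lit 80, nat_lit 16, nat_lit 226, nat_lit 20, nat_lit 8]⟩, C1.Rw.none,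
 ⟨nat_lit 2236, nat_lit 3163, ⟨.ofNat (nat_lit 605240), .ofNat (nat_lit 666215), .ofNat (nat_lit 616285), .ofNat (nat_lit 677292), .ofNat (nat_lit 602541), .ofNat (nat_lit 659578), .ofNat (nat_lit 613896), .ofNat (nat_lit 670965)⟩, ⟨.ofNat (nat_lit 0), .ofNat (nat_lit 139899), .ofNat (nat_lit 0), .ofNat (nat_lit 184209), .ofNat (nat_lit 0), .ofNat (nat_lit 146758), .ofNat (nat_lit 0), .ofNat (nat_lit 192306)⟩⟩, [⟨nat_lit 3, nat_lit 100, nat_lit 54, nat_lit 57, nat_lit 131619930⟩]⟩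
noncomputable def p109_l61 : Lf2 := ⟨nat_lit 0, nat_lit 20, [nat_lit 5, nat_lit 5, nat_lit 5, nat_lit 20], false, nat_lit 0, nat_lit 80, nat_lit 0, nat_lit 328, ⟨nat_lit 83, nat_lit 397, nat_lit 520, nat_lit 6, nat_lit 260, nat_lit 917, nat_lit 33, nat_lit 520, nat_lit 10417, nat_lit 240, nat_lit 105490, nat_lit 200, nat_lit 47090803, nat_lit 19909197, nat_lit 0, nat_lit 3042159, true, true⟩,
 nat_lit 0, nat_lit 0, nat_lit 1331, nat_lit 0, nat_lit 2520, nat_lit 739, nat_lit 0, nat_lit 0, nat_lit 0, nat_lit 77, nat_lit 0, nat_lit 0, nat_lit 0, nat_lit 0, nat_lit 0, nat_lit 229250, nat_lit 0, nat_lit 0, [(nat_lit 25, [(nat_lit 0, nat_lit 397), (nat_lit 4, nat_lit 520)])],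
 ⟨p109_k1, nat_lit 0, nat_lit 0, nat_lit 147, nat_lit 0, nat_lit 0, [nat_lit 759722000, nat_lit 627648934, nat_lit 392396000], [], [nat_lit 23149422534, nat_lit 24210268934, nat_lit 24475707974, nat_lit 25465586240, nat_lit 22703327014, nat_lit 23704310934, nat_lit 23970220294, nat_lit 24905487654], nat_lit 0, nat_lit 0, nat_lit 0, nat_lit 0, nat_lit 0, nat_lit 0, [], [nat_lit 20, nat_lit 40, nat_lit 40, nat_lit 80, nat_lit 16, nat_lit 226, nat_lit 20, nat_lit 8]⟩, ⟨p109_k3, nat_lit 0, nat_lit 0, nat_lit 832, nat_lit 0, nat_lit 1154919, [nat_lit 389104000, nat_lit 661344000, nat_lit 1166814000], [], [nat_lit 2898249813, nat_lit 2908864618, nat_lit 2938602701, nat_lit 2947111174, nat_lit 2470442353, nat_lit 2471271746, nat_lit 2472418437, nat_lit 2477241362], nat_lit 1271250, nat_lit 1271250, nat_lit 1271250, nat_lit 1271250, nat_lit 0, nat_lit 2316500, [nat_lit 1100000, nat_lit 1785000, nat_lit 1271250], [nat_lit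 37, nat_lit 40, nat_lit 40, nat_lit 80, nat_lit 28, nat_lit 456, nat_lit 225, nat_lit 10]⟩,
 ⟨nat_lit 2236, nat_lit 3163, ⟨.ofNat (nat_lit 616285), .ofNat (nat_lit 677292), .ofNat (nat_lit 627331), .ofNat (nat_lit 688370), .ofNat (nat_lit 613896), .ofNat (nat_lit 670965), .ofNat (nat_lit 625251), .ofNat (nat_lit 682352)⟩, ⟨.ofNat (nat_lit 0), .ofNat (nat_lit 139899), .ofNat (nat_lit 0), .ofNat (nat_lit 184209), .ofNat (nat_lit 0), .ofNat (nat_lit 146758), .ofNat (nat_lit 0), .ofNat (nat_lit 192306)⟩⟩, [⟨nat_lit 3, nat_lit 100, nat_lit 54, nat_lit 57, nat_lit 43907675⟩, ⟨nat_lit 22, nat_lit 100, nat_lit 99, nat_lit 63, nat_lit 13297568⟩]⟩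
noncomputable def p109_l62 : Lf2 := ⟨nat_lit 0, nat_lit 20, [nat_lit 5, nat_lit 5, nat_lit 5, nat_lit 20], false, nat_lit 0, nat_lit 80, nat_lit 0, nat_lit 336, ⟨nat_lit 48, nat_lit 707, nat_lit 245, nat_lit 6, nat_lit 256, nat_lit 952, nat_lit 34, nat_lit 245, nat_lit 11267, nat_lit 241, nat_lit 93454, nat_lit 200, nat_lit 47542620, nat_lit 19457380, nat_lit 0, nat_lit 3012585, true, true⟩,
 nat_lit 0, nat_lit 0, nat_lit 852, nat_lit 0, nat_lit 2530, nat_lit 450, nat_lit 0, nat_lit 0, nat_lit 0, nat_lit 37, nat_lit 0, nat_lit 0, nat_lit 0, nat_lit 0, nat_lit 0, nat_lit 272800, nat_lit 0, nat_lit 0, [(nat_lit 28, [(nat_lit 0, nat_lit 475), (nat_lit 1, nat_lit 232), (nat_lit 4, nat_lit 245)])],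
 ⟨p109_k9, nat_lit 0, nat_lit 0, nat_lit 155, nat_lit 0, nat_lit 0, [nat_lit 764719201, nat_lit 488879600, nat_lit 531756000], [], [nat_lit 24276714103, nat_lit 25455046040, nat_lit 25613455463, nat_lit 26744761640, nat_lit 23695697002, nat_lit 24764655163, nat_lit 24965159583, nat_lit 25973681003], nat_lit 0, nat_lit 0, nat_lit 0, nat_lit 0, nat_lit 0, nat_lit 0, [], [nat_lit 20, nat_lit 40, nat_lit 40, nat_lit 80, nat_lit 16, nat_lit 226, nat_lit 20, nat_lit 7]⟩, ⟨p109_k10, nat_lit 0, nat_lit 0, nat_lit 1106, nat_lit 0, nat_lit 1712725, [nat_lit 225024000, nat_lit 382464000, nat_lit 674784000], [], [nat_lit 1902359952, nat_lit 1901314716, nat_lit 1900269480, nat_lit 1897766184, nat_lit 1564505866, nat_lit 1556354736, nat_lit 1548203607, nat_lit 1542503092], nat_lit 1271250, nat_lit 1271250, nat_lit 1271250, nat_lit 1271250, nat_lit 0, nat_lit 2373000, [nat_lit 1100000, nat_lit 1785000, nat_lit 1271250], [nat_lit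 37, nat_lit 40, nat_lit 40, nat_lit 80, nat_lit 28, nat_lit 456, nat_lit 225, nat_lit 10]⟩,
 ⟨nat_lit 0, nat_lit 2237, ⟨.ofNat (nat_lit 602531), .ofNat (nat_lit 659577), .ofNat (nat_lit 624400), .ofNat (nat_lit 682352), .ofNat (nat_lit 599967), .ofNat (nat_lit 649998), .ofNat (nat_lit 624062), .ofNat (nat_lit 674999)⟩, ⟨.ofNat (nat_lit 0), .ofNat (nat_lit 146756), .ofNat (nat_lit 0), .ofNat (nat_lit 192306), .ofNat (nat_lit 0), .ofNat (nat_lit 149997), .ofNat (nat_lit 0), .ofNat (nat_lit 199999)⟩⟩, [⟨nat_lit 3, nat_lit 100, nat_lit 44, nat_lit 64, nat_lit 112552165⟩, ⟨nat_lit 22, nat_lit 100, nat_lit 99, nat_lit 63, nat_lit 6004276⟩]⟩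
noncomputable def p109_l63 : Lf2 := ⟨nat_lit 0, nat_lit 20, [nat_lit 5, nat_lit 5, nat_lit 5, nat_lit 20], false, nat_lit 0, nat_lit 80, nat_lit 0, nat_lit 160, ⟨nat_lit 113, nat_lit 887, nat_lit 0, nat_lit 6, nat_lit 267, nat_lit 887, nat_lit 33, nat_lit 0, nat_lit 0, nat_lit 0, nat_lit 0, nat_lit 0, nat_lit 46327679, nat_lit 20672321, nat_lit 0, nat_lit 3089645, true, false⟩,
 nat_lit 0, nat_lit 0, nat_lit 1722, nat_lit 0, nat_lit 2924, nat_lit 1002, nat_lit 0, nat_lit 0, nat_lit 0, nat_lit 112, nat_lit 0, nat_lit 0, nat_lit 0, nat_lit 0, nat_lit 0, nat_lit 354800, nat_lit 0, nat_lit 0, [(nat_lit 25, [(nat_lit 1, nat_lit 887)])],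
 ⟨p109_k1, nat_lit 0, nat_lit 0, nat_lit 142, nat_lit 0, nat_lit 0, [nat_lit 855331601, nat_lit 1259758267, nat_lit 1518032400], [], [nat_lit 24404211260, nat_lit 24981272268, nat_lit 25794019548, nat_lit 26330426228, nat_lit 23572697804, nat_lit 24117041124, nat_lit 24901247100, nat_lit 25407922916], nat_lit 0, nat_lit 0, nat_lit 0, nat_lit 0, nat_lit 0, nat_lit 0, [], [nat_lit 20, nat_lit 40, nat_lit 40, nat_lit 80, nat_lit 16, nat_lit 226, nat_lit 20, nat_lit 8]⟩, ⟨p109_k4, nat_lit 0, nat_lit 0, nat_lit 716, nat_lit 0, nat_lit 1021816, [nat_lit 529744000, nat_lit 900384000, nat_lit 1341536000], [], [nat_lit 3485950864, nat_lit 3514908576, nat_lit 3538150284, nat_lit 3564209744, nat_lit 2859428048, nat_lit 2879279228, nat_lit 2894284644, nat_lit 2909290060], nat_lit 1271250, nat_lit 1271250, nat_lit 1271250, nat_lit 1271250, nat_lit 0, nat_lit 1100001, [nat_lit 1100000, nat_lit 1785000, nat_lit 1271250], [nat_lit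 21, nat_lit 40, nat_lit 40, nat_lit 80, nat_lit 14, nat_lit 428, nat_lit 200, nat_lit 11]⟩,
 ⟨nat_lit 2738, nat_lit 3163, ⟨.ofNat (nat_lit 627400), .ofNat (nat_lit 688370), .ofNat (nat_lit 649542), .ofNat (nat_lit 710514), .ofNat (nat_lit 626295), .ofNat (nat_lit 685373), .ofNat (nat_lit 648700), .ofNat (nat_lit 707780)⟩, ⟨.ofNat (nat_lit 0), .ofNat (nat_lit 139899), .ofNat (nat_lit 0), .ofNat (nat_lit 184209), .ofNat (nat_lit 0), .ofNat (nat_lit 143475), .ofNat (nat_lit 0), .ofNat (nat_lit 188310)⟩⟩, [⟨nat_lit 3, nat_lit 100, nat_lit 79, nat_lit 27, nat_lit 11720598⟩]⟩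
noncomputable def p109_l64 : Lf2 := ⟨nat_lit 0, nat_lit 20, [nat_lit 5, nat_lit 5, nat_lit 5, nat_lit 20], false, nat_lit 0, nat_lit 80, nat_lit 0, nat_lit 160, ⟨nat_lit 107, nat_lit 893, nat_lit 0, nat_lit 6, nat_lit 266, nat_lit 893, nat_lit 34, nat_lit 0, nat_lit 0, nat_lit 0, nat_lit 0, nat_lit 0, nat_lit 46407976, nat_lit 20592024, nat_lit 0, nat_lit 3084792, true, false⟩,
 nat_lit 0, nat_lit 0, nat_lit 1624, nat_lit 0, nat_lit 2787, nat_lit 945, nat_lit 209, nat_lit 0, nat_lit 0, nat_lit 105, nat_lit 0, nat_lit 0, nat_lit 0, nat_lit 0, nat_lit 0, nat_lit 223250, nat_lit 0, nat_lit 0, [(nat_lit 25, [(nat_lit 0, nat_lit 893)])],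
 ⟨p109_k6, nat_lit 0, nat_lit 0, nat_lit 147, nat_lit 0, nat_lit 0, [nat_lit 782618001, nat_lit 1573512400, nat_lit 2560124000], [], [nat_lit 24052314957, nat_lit 24604855102, nat_lit 25368399592, nat_lit 25882604608, nat_lit 23396713876, nat_lit 23917537352, nat_lit 24654057976, nat_lit 25139763284], nat_lit 0, nat_lit 0, nat_lit 0, nat_lit 0, nat_lit 0, nat_lit 0, [], [nat_lit 20, nat_lit 40, nat_lit 40, nat_lit 80, nat_lit 16, nat_lit 226, nat_lit 20, nat_lit 7]⟩, ⟨p109_k4, nat_lit 0, nat_lit 0, nat_lit 811, nat_lit 0, nat_lit 1204723, [nat_lit 501616000, nat_lit 852576000, nat_lit 1270304000], [], [nat_lit 3325493710, nat_lit 3352964436, nat_lit 3375040506, nat_lit 3397116576, nat_lit 2735538956, nat_lit 2754411428, nat_lit 2768710452, nat_lit 2783009476], nat_lit 1271250, nat_lit 1271250, nat_lit 1271250, nat_lit 1271250, nat_lit 0, nat_lit 1100001, [nat_lit 1100000, nat_lit 1785000, nat_lit 1271250], [nat_lit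 21, nat_lit 40, nat_lit 40, nat_lit 80, nat_lit 14, nat_lit 428, nat_lit 200, nat_lit 11]⟩,
 ⟨nat_lit 2236, nat_lit 2739, ⟨.ofNat (nat_lit 626287), .ofNat (nat_lit 685373), .ofNat (nat_lit 648684), .ofNat (nat_lit 707780), .ofNat (nat_lit 625312), .ofNat (nat_lit 682352), .ofNat (nat_lit 648065), .ofNat (nat_lit 705116)⟩, ⟨.ofNat (nat_lit 0), .ofNat (nat_lit 143475), .ofNat (nat_lit 0), .ofNat (nat_lit 188310), .ofNat (nat_lit 0), .ofNat (nat_lit 146758), .ofNat (nat_lit 0), .ofNat (nat_lit 192306)⟩⟩, [⟨nat_lit 3, nat_lit 100, nat_lit 68, nat_lit 40, nat_lit 1142815⟩]⟩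
noncomputable def p109_l65 : Lf2 := ⟨nat_lit 0, nat_lit 20, [nat_lit 5, nat_lit 5, nat_lit 5, nat_lit 20], false, nat_lit 0, nat_lit 80, nat_lit 160, nat_lit 320, ⟨nat_lit 87, nat_lit 347, nat_lit 566, nat_lit 6, nat_lit 265, nat_lit 913, nat_lit 33, nat_lit 566, nat_lit 10417, nat_lit 240, nat_lit 127612, nat_lit 200, nat_lit 46609021, nat_lit 20390979, nat_lit 0, nat_lit 3072495, true, false⟩,
 nat_lit 0, nat_lit 0, nat_lit 1310, nat_lit 0, nat_lit 2518, nat_lit 762, nat_lit 0, nat_lit 0, nat_lit 0, nat_lit 70, nat_lit 0, nat_lit 0, nat_lit 0, nat_lit 0, nat_lit 0, nat_lit 233050, nat_lit 0, nat_lit 0, [(nat_lit 25, [(nat_lit 0, nat_lit 347), (nat_lit 4, nat_lit 534), (nat_lit 5, nat_lit 32)])],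
 ⟨p109_k1, nat_lit 0, nat_lit 0, nat_lit 147, nat_lit 0, nat_lit 0, [nat_lit 758710801, nat_lit 544401467, nat_lit 189908133], [], [nat_lit 22864477442, nat_lit 23925847636, nat_lit 24196807656, nat_lit 25261361252, nat_lit 22419713674, nat_lit 23420393002, nat_lit 23686415426, nat_lit 24621765324], nat_lit 0, nat_lit 0, nat_lit 0, nat_lit 0, nat_lit 0, nat_lit 0, [], [nat_lit 20, nat_lit 40, nat_lit 40, nat_lit 80, nat_lit 16, nat_lit 226, nat_lit 20, nat_lit 8]⟩, ⟨p109_k4, nat_lit 0, nat_lit 0, nat_lit 666, nat_lit 0, nat_lit 1137793, [nat_lit 407856000, nat_lit 693216000, nat_lit 1032864000], [], [nat_lit 2298319236, nat_lit 2308352085, nat_lit 2334238566, nat_lit 2344458477, nat_lit 2414095086, nat_lit 2424445647, nat_lit 2494579986, nat_lit 2516776590], nat_lit 1271250, nat_lit 1271250, nat_lit 1271250, nat_lit 1271250, nat_lit 1100001, nat_lit 2470000, [nat_lit 1100000, nat_lit 1785000, nat_lit 1271250], [nat_lit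 21, nat_lit 40, nat_lit 40, nat_lit 80, nat_lit 14, nat_lit 456, nat_lit 225, nat_lit 11]⟩,
 ⟨nat_lit 2236, nat_lit 3163, ⟨.ofNat (nat_lit 627331), .ofNat (nat_lit 688370), .ofNat (nat_lit 638377), .ofNat (nat_lit 699431), .ofNat (nat_lit 625251), .ofNat (nat_lit 682352), .ofNat (nat_lit 636607), .ofNat (nat_lit 693723)⟩, ⟨.ofNat (nat_lit 0), .ofNat (nat_lit 139899), .ofNat (nat_lit 0), .ofNat (nat_lit 184209), .ofNat (nat_lit 0), .ofNat (nat_lit 146758), .ofNat (nat_lit 0), .ofNat (nat_lit 192306)⟩⟩, [⟨nat_lit 22, nat_lit 97, nat_lit 100, nat_lit 49, nat_lit 52467278⟩]⟩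
noncomputable def p109_l66 : Lf2 := ⟨nat_lit 0, nat_lit 20, [nat_lit 5, nat_lit 5, nat_lit 5, nat_lit 20], false, nat_lit 0, nat_lit 80, nat_lit 160, nat_lit 308, ⟨nat_lit 108, nat_lit 742, nat_lit 150, nat_lit 6, nat_lit 269, nat_lit 892, nat_lit 33, nat_lit 150, nat_lit 10417, nat_lit 240, nat_lit 149710, nat_lit 200, nat_lit 46129319, nat_lit 20870681, nat_lit 0, nat_lit 3101487, true, false⟩,
 nat_lit 0, nat_lit 0, nat_lit 1394, nat_lit 0, nat_lit 3119, nat_lit 848, nat_lit 0, nat_lit 0, nat_lit 0, nat_lit 115, nat_lit 0, nat_lit 0, nat_lit 0, nat_lit 0, nat_lit 0, nat_lit 241150, nat_lit 0, nat_lit 0, [(nat_lit 25, [(nat_lit 0, nat_lit 742), (nat_lit 4, nat_lit 29), (nat_lit 5, nat_lit 121)])],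
 ⟨p109_k1, nat_lit 0, nat_lit 0, nat_lit 147, nat_lit 0, nat_lit 0, [nat_lit 777198400, nat_lit 1273136801, nat_lit 1822065600], [], [nat_lit 24621892072, nat_lit 25960768382, nat_lit 26163344400, nat_lit 27399594286, nat_lit 23572191877, nat_lit 24664401101, nat_lit 24896447793, nat_lit 25912800585], nat_lit 0, nat_lit 0, nat_lit 0, nat_lit 0, nat_lit 0, nat_lit 0, [], [nat_lit 20, nat_lit 40, nat_lit 40, nat_lit 80, nat_lit 16, nat_lit 226, nat_lit 20, nat_lit 8]⟩, ⟨p109_k5, nat_lit 0, nat_lit 0, nat_lit 659, nat_lit 0, nat_lit 1126501, [nat_lit 506304000, nat_lit 860544000, nat_lit 1282176000], [], [nat_lit 2686987984, nat_lit 2701342768, nat_lit 2737271008, nat_lit 2750973344, nat_lit 2791813809, nat_lit 2802068637, nat_lit 2841186458, nat_lit 2864649619], nat_lit 1271250, nat_lit 1271250, nat_lit 1271250, nat_lit 1271250, nat_lit 1100001, nat_lit 2367250, [nat_lit 1100000, nat_lit 1785000, nat_lit 1271250],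 [nat_lit 21, nat_lit 40, nat_lit 40, nat_lit 80, nat_lit 14, nat_lit 456, nat_lit 225, nat_lit 11]⟩,
 ⟨nat_lit 2236, nat_lit 3163, ⟨.ofNat (nat_lit 638377), .ofNat (nat_lit 699431), .ofNat (nat_lit 649422), .ofNat (nat_lit 710480), .ofNat (nat_lit 636607), .ofNat (nat_lit 693723), .ofNat (nat_lit 647962), .ofNat (nat_lit 705082)⟩, ⟨.ofNat (nat_lit 0), .ofNat (nat_lit 139899), .ofNat (nat_lit 0), .ofNat (nat_lit 184209), .ofNat (nat_lit 0), .ofNat (nat_lit 146758), .ofNat (nat_lit 0), .ofNat (nat_lit 192306)⟩⟩, [⟨nat_lit 22, nat_lit 97, nat_lit 100, nat_lit 46, nat_lit 61941343⟩]⟩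
noncomputable def p109_l67 : Lf2 := ⟨nat_lit 0, nat_lit 20, [nat_lit 5, nat_lit 5, nat_lit 5, nat_lit 20], false, nat_lit 0, nat_lit 80, nat_lit 0, nat_lit 320, ⟨nat_lit 87, nat_lit 913, nat_lit 0, nat_lit 6, nat_lit 266, nat_lit 913, nat_lit 34, nat_lit 0, nat_lit 0, nat_lit 0, nat_lit 0, nat_lit 0, nat_lit 46483654, nat_lit 20516346, nat_lit 0, nat_lit 3080188, true, false⟩,
 nat_lit 0, nat_lit 0, nat_lit 1271, nat_lit 0, nat_lit 2415, nat_lit 739, nat_lit 48, nat_lit 0, nat_lit 0, nat_lit 64, nat_lit 0, nat_lit 0, nat_lit 0, nat_lit 0, nat_lit 0, nat_lit 365200, nat_lit 0, nat_lit 0, [(nat_lit 28, [(nat_lit 1, nat_lit 913)])],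
 ⟨p109_k9, nat_lit 0, nat_lit 0, nat_lit 151, nat_lit 0, nat_lit 0, [nat_lit 718514801, nat_lit 582076400, nat_lit 669744000], [], [nat_lit 23823752153, nat_lit 24386456148, nat_lit 25148727633, nat_lit 25672510948, nat_lit 23312181133, nat_lit 23843332058, nat_lit 24583806293, nat_lit 25079314698], nat_lit 0, nat_lit 0, nat_lit 0, nat_lit 0, nat_lit 0, nat_lit 0, [], [nat_lit 20, nat_lit 40, nat_lit 40, nat_lit 80, nat_lit 16, nat_lit 226, nat_lit 20, nat_lit 7]⟩, ⟨p109_k4, nat_lit 0, nat_lit 0, nat_lit 885, nat_lit 0, nat_lit 1394959, [nat_lit 407856000, nat_lit 693216000, nat_lit 1032864000], [], [nat_lit 3109473946, nat_lit 3119700544, nat_lit 3126733632, nat_lit 3133766720, nat_lit 2617274772, nat_lit 2613043708, nat_lit 2606681834, nat_lit 2609360224], nat_lit 1271250, nat_lit 1271250, nat_lit 1271250, nat_lit 1271250, nat_lit 0, nat_lit 2260000, [nat_lit 1100000, nat_lit 1785000, nat_lit 1271250], [nat_lit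 21, nat_lit 40, nat_lit 40, nat_lit 80, nat_lit 14, nat_lit 456, nat_lit 225, nat_lit 11]⟩,
 ⟨nat_lit 1581, nat_lit 2237, ⟨.ofNat (nat_lit 625287), .ofNat (nat_lit 682352), .ofNat (nat_lit 648016), .ofNat (nat_lit 705117), .ofNat (nat_lit 624529), .ofNat (nat_lit 679215), .ofNat (nat_lit 647799), .ofNat (nat_lit 702521)⟩, ⟨.ofNat (nat_lit 0), .ofNat (nat_lit 146758), .ofNat (nat_lit 0), .ofNat (nat_lit 192306), .ofNat (nat_lit 0), .ofNat (nat_lit 149571), .ofNat (nat_lit 0), .ofNat (nat_lit 196201)⟩⟩, [⟨nat_lit 22, nat_lit 100, nat_lit 99, nat_lit 63, nat_lit 12796547⟩]⟩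
noncomputable def p109_l68 : Lf2 := ⟨nat_lit 0, nat_lit 20, [nat_lit 5, nat_lit 5, nat_lit 5, nat_lit 20], true, nat_lit 8, nat_lit 80, nat_lit 0, nat_lit 320, ⟨nat_lit 0, nat_lit 1000, nat_lit 0, nat_lit 6, nat_lit 265, nat_lit 1000, nat_lit 39, nat_lit 0, nat_lit 0, nat_lit 0, nat_lit 0, nat_lit 0, nat_lit 45709996, nat_lit 20249609, nat_lit 1040395, nat_lit 3529807, true, false⟩,
 nat_lit 0, nat_lit 0, nat_lit 0, nat_lit 0, nat_lit 2691, nat_lit 0, nat_lit 16, nat_lit 0, nat_lit 0, nat_lit 0, nat_lit 0, nat_lit 0, nat_lit 0, nat_lit 0, nat_lit 0, nat_lit 250000, nat_lit 0, nat_lit 0, [(nat_lit 28, [(nat_lit 0, nat_lit 1000)])],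
 ⟨p109_k15, nat_lit 0, nat_lit 0, nat_lit 136, nat_lit 0, nat_lit 0, [nat_lit 781600001, nat_lit 1046000001, nat_lit 1376400000], [], [nat_lit 24877317489, nat_lit 25450566406, nat_lit 26178854120, nat_lit 26882643408, nat_lit 24304518888, nat_lit 24847556351, nat_lit 25551955470, nat_lit 26057964935], nat_lit 0, nat_lit 0, nat_lit 0, nat_lit 0, nat_lit 0, nat_lit 0, [], [nat_lit 35, nat_lit 40, nat_lit 40, nat_lit 80, nat_lit 22, nat_lit 226, nat_lit 20, nat_lit 9]⟩, C1.Rw.none,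
 ⟨nat_lit 0, nat_lit 1582, ⟨.ofNat (nat_lit 623921), .ofNat (nat_lit 679215), .ofNat (nat_lit 646579), .ofNat (nat_lit 702515), .ofNat (nat_lit 624340), .ofNat (nat_lit 674999), .ofNat (nat_lit 648683), .ofNat (nat_lit 699984)⟩, ⟨.ofNat (nat_lit 20000), .ofNat (nat_lit 149570), .ofNat (nat_lit 20000), .ofNat (nat_lit 196201), .ofNat (nat_lit 20000), .ofNat (nat_lit 149998), .ofNat (nat_lit 20000), .ofNat (nat_lit 199999)⟩⟩, [⟨nat_lit 3, nat_lit 100, nat_lit 31, nat_lit 76, nat_lit 440768479⟩]⟩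
noncomputable def b_V_900_600_10_16 : St := ⟨true, nat_lit 0, nat_lit 1, nat_lit 1, nat_lit 80, nat_lit 360, nat_lit 400, nat_lit 240, nat_lit 280, nat_lit 240, nat_lit 280, nat_lit 40, nat_lit 80, nat_lit 0, nat_lit 80, nat_lit 0, nat_lit 336, nat_lit 80, nat_lit 120, nat_lit 0, nat_lit 0, nat_lit 0, nat_lit 0⟩
theorem d_V_900_600_10_16 (h : EB TB.env) : Dead b_V_900_600_10_16 := chkB_sound0 h (T :=
(.spl (nat_lit 1) (nat_lit 260)
(.spl (nat_lit 0) (nat_lit 380)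
(.spl (nat_lit 1) (nat_lit 250)
(.leaf p109_l60)
(.trX (nat_lit 19) (nat_lit 100) (nat_lit 81) (nat_lit 83) (nat_lit 328) (.leaf p109_l61)))
(.leaf p109_l62))
(.trX (nat_lit 19) (nat_lit 100) (nat_lit 85) (nat_lit 84) (nat_lit 320) (.spl (nat_lit 0) (nat_lit 380)
(.spl (nat_lit 5) (nat_lit 160)
(.spl (nat_lit 0) (nat_lit 370)
(.leaf p109_l63)
(.leaf p109_l64))
(.spl (nat_lit 1) (nat_lit 270)
(.leaf p109_l65)
(.trX (nat_lit 19) (nat_lit 100) (nat_lit 90) (nat_lit 85) (nat_lit 308) (.leaf p109_l66))))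
(.spl (nat_lit 0) (nat_lit 390)
(.leaf p109_l67)
(.trZ (nat_lit 3) (nat_lit 100) (nat_lit 52) (nat_lit 53) (nat_lit 8) (.leaf p109_l68))))))) (by decide +kernel)
noncomputable def p109_l69 : Lf2 := ⟨nat_lit 0, nat_lit 15, [nat_lit 30, nat_lit 5, nat_lit 5, nat_lit 20], false, nat_lit 0, nat_lit 40, nat_lit 0, nat_lit 248, ⟨nat_lit 74, nat_lit 926, nat_lit 0, nat_lit 7, nat_lit 281, nat_lit 926, nat_lit 18, nat_lit 0, nat_lit 0, nat_lit 0, nat_lit 0, nat_lit 0, nat_lit 44813580, nat_lit 22186420, nat_lit 0, nat_lit 3174916, true, true⟩,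
 nat_lit 0, nat_lit 0, nat_lit 1298, nat_lit 0, nat_lit 2941, nat_lit 687, nat_lit 0, nat_lit 0, nat_lit 0, nat_lit 51, nat_lit 0, nat_lit 0, nat_lit 0, nat_lit 0, nat_lit 0, nat_lit 255350, nat_lit 0, nat_lit 0, [(nat_lit 25, [(nat_lit 0, nat_lit 767), (nat_lit 1, nat_lit 159)])],
 ⟨p109_k12, nat_lit 0, nat_lit 0, nat_lit 154, nat_lit 0, nat_lit 0, [nat_lit 789723201, nat_lit 1452076800, nat_lit 2232522800], [], [nat_lit 26682670008, nat_lit 27779782570, nat_lit 28267994868, nat_lit 29278747282, nat_lit 26257632712, nat_lit 27279295844, nat_lit 27753033864, nat_lit 28697624996], nat_lit 0, nat_lit 0, nat_lit 0, nat_lit 0, nat_lit 0, nat_lit 0, [], [nat_lit 20, nat_lit 40, nat_lit 40, nat_lit 80, nat_lit 16, nat_lit 215, nat_lit 10, nat_lit 7]⟩, ⟨p109_k13, nat_lit 0, nat_lit 0, nat_lit 703, nat_lit 0, nat_lit 997953, [nat_lit 346912000, nat_lit 589632000, nat_lit 878528000], [], [nat_lit 2774563936, nat_lit 2784726258,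 nat_lit 2855920740, nat_lit 2886639640, nat_lit 2218609437, nat_lit 2225234236, nat_lit 2256726385, nat_lit 2265870243], nat_lit 1271250, nat_lit 1271250, nat_lit 1271250, nat_lit 1271250, nat_lit 0, nat_lit 1751500, [nat_lit 1100000, nat_lit 1785000, nat_lit 1271250], [nat_lit 21, nat_lit 40, nat_lit 40, nat_lit 80, nat_lit 14, nat_lit 456, nat_lit 225, nat_lit 11]⟩,
 ⟨nat_lit 2236, nat_lit 3163, ⟨.ofNat (nat_lit 666215), .ofNat (nat_lit 727168), .ofNat (nat_lit 688370), .ofNat (nat_lit 749323), .ofNat (nat_lit 659578), .ofNat (nat_lit 716594), .ofNat (nat_lit 682352), .ofNat (nat_lit 739368)⟩, ⟨.ofNat (nat_lit 0), .ofNat (nat_lit 78946), .ofNat (nat_lit 0), .ofNat (nat_lit 100000), .ofNat (nat_lit 0), .ofNat (nat_lit 89742), .ofNat (nat_lit 0), .ofNat (nat_lit 100000)⟩⟩, [⟨nat_lit 3, nat_lit 100, nat_lit 61, nat_lit 47, nat_lit 85301725⟩]⟩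
noncomputable def p109_l70 : Lf2 := ⟨nat_lit 0, nat_lit 20, [nat_lit 5, nat_lit 5, nat_lit 5, nat_lit 20], false, nat_lit 0, nat_lit 40, nat_lit 0, nat_lit 248, ⟨nat_lit 112, nat_lit 888, nat_lit 0, nat_lit 7, nat_lit 280, nat_lit 888, nat_lit 20, nat_lit 0, nat_lit 0, nat_lit 0, nat_lit 0, nat_lit 0, nat_lit 44959657, nat_lit 22040343, nat_lit 0, nat_lit 3167198, true, true⟩,
 nat_lit 0, nat_lit 0, nat_lit 1738, nat_lit 0, nat_lit 2881, nat_lit 919, nat_lit 0, nat_lit 0, nat_lit 0, nat_lit 97, nat_lit 0, nat_lit 0, nat_lit 0, nat_lit 0, nat_lit 0, nat_lit 355200, nat_lit 0, nat_lit 0, [(nat_lit 25, [(nat_lit 1, nat_lit 888)])],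
 ⟨p109_k1, nat_lit 0, nat_lit 0, nat_lit 151, nat_lit 0, nat_lit 0, [nat_lit 855238401, nat_lit 1257478400, nat_lit 1512697600], [], [nat_lit 25947229614, nat_lit 26468350022, nat_lit 27471372466, nat_lit 27952832307, nat_lit 25572560912, nat_lit 26079154918, nat_lit 27059353744, nat_lit 27527951750], nat_lit 0, nat_lit 0, nat_lit 0, nat_lit 0, nat_lit 0, nat_lit 0, [], [nat_lit 20, nat_lit 40, nat_lit 40, nat_lit 80, nat_lit 16, nat_lit 215, nat_lit 10, nat_lit 7]⟩, ⟨p109_k10, nat_lit 0, nat_lit 0, nat_lit 583, nat_lit 0, nat_lit 594229, [nat_lit 525056000, nat_lit 892416000, nat_lit 1574496000], [], [nat_lit 4286872240, nat_lit 4296491941, nat_lit 4368158164, nat_lit 4380631340, nat_lit 3562338417, nat_lit 3573141653, nat_lit 3644780087, nat_lit 3657076567], nat_lit 1271250, nat_lit 1271250, nat_lit 1271250, nat_lit 1271250, nat_lit 0, nat_lit 1751500, [nat_lit 1100000, nat_lit 1785000, nat_lit 1271250], [nat_lit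 37, nat_lit 40, nat_lit 40, nat_lit 80, nat_lit 28, nat_lit 456, nat_lit 225, nat_lit 10]⟩,
 ⟨nat_lit 2738, nat_lit 3163, ⟨.ofNat (nat_lit 666215), .ofNat (nat_lit 727168), .ofNat (nat_lit 677292), .ofNat (nat_lit 738246), .ofNat (nat_lit 662956), .ofNat (nat_lit 722017), .ofNat (nat_lit 674165), .ofNat (nat_lit 733226)⟩, ⟨.ofNat (nat_lit 0), .ofNat (nat_lit 100000), .ofNat (nat_lit 0), .ofNat (nat_lit 100000), .ofNat (nat_lit 0), .ofNat (nat_lit 100000), .ofNat (nat_lit 0), .ofNat (nat_lit 100000)⟩⟩, [⟨nat_lit 3, nat_lit 100, nat_lit 74, nat_lit 34, nat_lit 41327118⟩, ⟨nat_lit 22, nat_lit 87, nat_lit 100, nat_lit 44, nat_lit 10831044⟩]⟩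
noncomputable def p109_l71 : Lf2 := ⟨nat_lit 0, nat_lit 20, [nat_lit 5, nat_lit 5, nat_lit 5, nat_lit 20], false, nat_lit 4, nat_lit 40, nat_lit 0, nat_lit 248, ⟨nat_lit 71, nat_lit 929, nat_lit 0, nat_lit 7, nat_lit 278, nat_lit 929, nat_lit 22, nat_lit 0, nat_lit 0, nat_lit 0, nat_lit 0, nat_lit 0, nat_lit 44792652, nat_lit 21768241, nat_lit 439107, nat_lit 3385894, true, true⟩,
 nat_lit 0, nat_lit 0, nat_lit 1280, nat_lit 0, nat_lit 2714, nat_lit 677, nat_lit 178, nat_lit 0, nat_lit 0, nat_lit 64, nat_lit 0, nat_lit 0, nat_lit 0, nat_lit 0, nat_lit 0, nat_lit 232250, nat_lit 0, nat_lit 0, [(nat_lit 25, [(nat_lit 0, nat_lit 929)])],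
 ⟨p109_k6, nat_lit 0, nat_lit 0, nat_lit 152, nat_lit 0, nat_lit 0, [nat_lit 776354001, nat_lit 1504637200, nat_lit 2411372000], [], [nat_lit 25555569295, nat_lit 26063000338, nat_lit 27013122457, nat_lit 27485020417, nat_lit 25256498506, nat_lit 25751297970, nat_lit 26682838514, nat_lit 27141144978], nat_lit 0, nat_lit 0, nat_lit 0, nat_lit 0, nat_lit 0, nat_lit 0, [], [nat_lit 20, nat_lit 40, nat_lit 40, nat_lit 80, nat_lit 16, nat_lit 215, nat_lit 10, nat_lit 7]⟩, ⟨p109_k10, nat_lit 0, nat_lit 0, nat_lit 658, nat_lit 0, nat_lit 807531, [nat_lit 332848000, nat_lit 565728000, nat_lit 998118000], [], [nat_lit 2595655212, nat_lit 2606161795, nat_lit 2676218504, nat_lit 2686241813, nat_lit 2030796023, nat_lit 2037306950, nat_lit 2083150782, nat_lit 2087682725], nat_lit 1271250, nat_lit 1271250, nat_lit 1271250, nat_lit 1271250, nat_lit 0, nat_lit 1751500, [nat_lit 1100000, nat_lit 1785000, nat_lit 1271250], [nat_lit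 37, nat_lit 40, nat_lit 40, nat_lit 80, nat_lit 28, nat_lit 456, nat_lit 225, nat_lit 10]⟩,
 ⟨nat_lit 2236, nat_lit 2739, ⟨.ofNat (nat_lit 662956), .ofNat (nat_lit 722017), .ofNat (nat_lit 674165), .ofNat (nat_lit 733226), .ofNat (nat_lit 659578), .ofNat (nat_lit 716594), .ofNat (nat_lit 670965), .ofNat (nat_lit 727981)⟩, ⟨.ofNat (nat_lit 10000), .ofNat (nat_lit 100000), .ofNat (nat_lit 10000), .ofNat (nat_lit 100000), .ofNat (nat_lit 10000), .ofNat (nat_lit 100000), .ofNat (nat_lit 10000), .ofNat (nat_lit 100000)⟩⟩, [⟨nat_lit 3, nat_lit 100, nat_lit 64, nat_lit 46, nat_lit 182075255⟩]⟩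
noncomputable def p109_l72 : Lf2 := ⟨nat_lit 0, nat_lit 20, [nat_lit 5, nat_lit 5, nat_lit 5, nat_lit 20], false, nat_lit 0, nat_lit 40, nat_lit 0, nat_lit 248, ⟨nat_lit 629, nat_lit 371, nat_lit 0, nat_lit 7, nat_lit 285, nat_lit 371, nat_lit 20, nat_lit 0, nat_lit 0, nat_lit 0, nat_lit 0, nat_lit 0, nat_lit 44490100, nat_lit 22509900, nat_lit 0, nat_lit 3191625, true, true⟩,
 nat_lit 0, nat_lit 0, nat_lit 9426, nat_lit 0, nat_lit 3769, nat_lit 5236, nat_lit 0, nat_lit 0, nat_lit 0, nat_lit 574, nat_lit 0, nat_lit 0, nat_lit 0, nat_lit 0, nat_lit 0, nat_lit 348200, nat_lit 0, nat_lit 0, [(nat_lit 25, [(nat_lit 1, nat_lit 38), (nat_lit 2, nat_lit 333)])],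
 ⟨p109_k1, nat_lit 0, nat_lit 0, nat_lit 151, nat_lit 0, nat_lit 0, [nat_lit 1111081600, nat_lit 1975608267, nat_lit 2667727200], [], [nat_lit 27441386000, nat_lit 28117163993, nat_lit 29308454120, nat_lit 29924624129, nat_lit 26502250057, nat_lit 27071559951, nat_lit 28238688844, nat_lit 28839678496], nat_lit 0, nat_lit 0, nat_lit 0, nat_lit 0, nat_lit 0, nat_lit 0, [], [nat_lit 20, nat_lit 40, nat_lit 40, nat_lit 80, nat_lit 16, nat_lit 215, nat_lit 10, nat_lit 7]⟩, ⟨p109_k3, nat_lit 0, nat_lit 0, nat_lit 588, nat_lit 0, nat_lit 613494, [nat_lit 2948752000, nat_lit 5011872000, nat_lit 8842482000], [], [nat_lit 22157631471, nat_lit 22271730082, nat_lit 22869338919, nat_lit 22961242194, nat_lit 18241263924, nat_lit 18301111877, nat_lit 18884635755, nat_lit 18981717298], nat_lit 1271250, nat_lit 1271250, nat_lit 1271250, nat_lit 1271250, nat_lit 0, nat_lit 1751500, [nat_lit 1100000, nat_lit 1785000, nat_lit 1271250],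 [nat_lit 37, nat_lit 40, nat_lit 40, nat_lit 80, nat_lit 28, nat_lit 456, nat_lit 225, nat_lit 10]⟩,
 ⟨nat_lit 2738, nat_lit 3163, ⟨.ofNat (nat_lit 677292), .ofNat (nat_lit 738246), .ofNat (nat_lit 688370), .ofNat (nat_lit 749323), .ofNat (nat_lit 674165), .ofNat (nat_lit 733226), .ofNat (nat_lit 685373), .ofNat (nat_lit 744435)⟩, ⟨.ofNat (nat_lit 0), .ofNat (nat_lit 100000), .ofNat (nat_lit 0), .ofNat (nat_lit 100000), .ofNat (nat_lit 0), .ofNat (nat_lit 100000), .ofNat (nat_lit 0), .ofNat (nat_lit 100000)⟩⟩, [⟨nat_lit 22, nat_lit 87, nat_lit 100, nat_lit 44, nat_lit 66333343⟩]⟩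
noncomputable def p109_l73 : Lf2 := ⟨nat_lit 0, nat_lit 20, [nat_lit 5, nat_lit 5, nat_lit 5, nat_lit 20], false, nat_lit 4, nat_lit 40, nat_lit 0, nat_lit 248, ⟨nat_lit 86, nat_lit 914, nat_lit 0, nat_lit 7, nat_lit 283, nat_lit 914, nat_lit 22, nat_lit 0, nat_lit 0, nat_lit 0, nat_lit 0, nat_lit 0, nat_lit 44322625, nat_lit 22240599, nat_lit 436776, nat_lit 3409872, true, true⟩,
 nat_lit 0, nat_lit 0, nat_lit 1324, nat_lit 0, nat_lit 2726, nat_lit 735, nat_lit 182, nat_lit 0, nat_lit 0, nat_lit 66, nat_lit 0, nat_lit 0, nat_lit 0, nat_lit 0, nat_lit 0, nat_lit 228500, nat_lit 0, nat_lit 0, [(nat_lit 25, [(nat_lit 0, nat_lit 914)])],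
 ⟨p109_k6, nat_lit 0, nat_lit 0, nat_lit 152, nat_lit 0, nat_lit 0, [nat_lit 778964000, nat_lit 1533335200, nat_lit 2473352000], [], [nat_lit 25589754912, nat_lit 26098065241, nat_lit 27048986678, nat_lit 27519254673, nat_lit 25287004736, nat_lit 25782651712, nat_lit 26714958408, nat_lit 27174004384], nat_lit 0, nat_lit 0, nat_lit 0, nat_lit 0, nat_lit 0, nat_lit 0, [], [nat_lit 20, nat_lit 40, nat_lit 40, nat_lit 80, nat_lit 16, nat_lit 215, nat_lit 10, nat_lit 7]⟩, ⟨p109_k3, nat_lit 0, nat_lit 0, nat_lit 656, nat_lit 0, nat_lit 806890, [nat_lit 403168000, nat_lit 685248000, nat_lit 1208988000], [], [nat_lit 3210173233, nat_lit 3218560542, nat_lit 3272887780, nat_lit 3287037278, nat_lit 2644051774, nat_lit 2646661604, nat_lit 2678616515, nat_lit 2679504059], nat_lit 1271250, nat_lit 1271250, nat_lit 1271250, nat_lit 1271250, nat_lit 0, nat_lit 1751500, [nat_lit 1100000, nat_lit 1785000, nat_lit 1271250], [nat_lit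 37, nat_lit 40, nat_lit 40, nat_lit 80, nat_lit 28, nat_lit 456, nat_lit 225, nat_lit 10]⟩,
 ⟨nat_lit 2236, nat_lit 2739, ⟨.ofNat (nat_lit 674165), .ofNat (nat_lit 733226), .ofNat (nat_lit 685373), .ofNat (nat_lit 744435), .ofNat (nat_lit 670965), .ofNat (nat_lit 727981), .ofNat (nat_lit 682352), .ofNat (nat_lit 739368)⟩, ⟨.ofNat (nat_lit 10000), .ofNat (nat_lit 100000), .ofNat (nat_lit 10000), .ofNat (nat_lit 100000), .ofNat (nat_lit 10000), .ofNat (nat_lit 100000), .ofNat (nat_lit 10000), .ofNat (nat_lit 100000)⟩⟩, [⟨nat_lit 3, nat_lit 100, nat_lit 64, nat_lit 46, nat_lit 169853859⟩, ⟨nat_lit 22, nat_lit 87, nat_lit 100, nat_lit 46, nat_lit 6045921⟩]⟩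
noncomputable def p109_l74 : Lf2 := ⟨nat_lit 0, nat_lit 20, [nat_lit 5, nat_lit 5, nat_lit 5, nat_lit 20], false, nat_lit 0, nat_lit 40, nat_lit 0, nat_lit 248, ⟨nat_lit 1000, nat_lit 0, nat_lit 0, nat_lit 0, nat_lit 0, nat_lit 0, nat_lit 0, nat_lit 0, nat_lit 0, nat_lit 0, nat_lit 0, nat_lit 0, nat_lit 0, nat_lit 0, nat_lit 0, nat_lit 0, false, false⟩,
 nat_lit 0, nat_lit 0, nat_lit 17769, nat_lit 0, nat_lit 4727, nat_lit 9407, nat_lit 0, nat_lit 0, nat_lit 0, nat_lit 934, nat_lit 0, nat_lit 0, nat_lit 0, nat_lit 0, nat_lit 0, nat_lit 0, nat_lit 0, nat_lit 0, [],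
 ⟨p109_k1, nat_lit 0, nat_lit 0, nat_lit 154, nat_lit 0, nat_lit 0, [nat_lit 938000000, nat_lit 3282000000, nat_lit 6250000000], [], [nat_lit 31807969176, nat_lit 33182772590, nat_lit 33699930360, nat_lit 35079727654, nat_lit 30616731900, nat_lit 31952097788, nat_lit 32435171536, nat_lit 33652912262], nat_lit 0, nat_lit 0, nat_lit 0, nat_lit 0, nat_lit 0, nat_lit 0, [], [nat_lit 20, nat_lit 40, nat_lit 40, nat_lit 80, nat_lit 16, nat_lit 215, nat_lit 10, nat_lit 7]⟩, ⟨p109_k10, nat_lit 0, nat_lit 0, nat_lit 468, nat_lit 0, nat_lit 420254, [nat_lit 4688000000, nat_lit 7968000000, nat_lit 14058000000], [], [nat_lit 35964179860, nat_lit 36261909260, nat_lit 37095807300, nat_lit 37772090122, nat_lit 27566825891, nat_lit 27939011584, nat_lit 28760246839, nat_lit 29057785611], nat_lit 1271250, nat_lit 1271250, nat_lit 1271250, nat_lit 1271250, nat_lit 0, nat_lit 1751500, [nat_lit 1100000, nat_lit 1785000, nat_lit 1271250],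 [nat_lit 37, nat_lit 40, nat_lit 40, nat_lit 80, nat_lit 28, nat_lit 456, nat_lit 225, nat_lit 10]⟩,
 zbF0, [⟨nat_lit 3, nat_lit 100, nat_lit 69, nat_lit 40, nat_lit 53043147⟩]⟩
noncomputable def p109_l75 : Lf2 := ⟨nat_lit 0, nat_lit 20, [nat_lit 5, nat_lit 5, nat_lit 5, nat_lit 20], false, nat_lit 40, nat_lit 80, nat_lit 0, nat_lit 300, ⟨nat_lit 72, nat_lit 831, nat_lit 97, nat_lit 7, nat_lit 279, nat_lit 928, nat_lit 52, nat_lit 97, nat_lit 25350, nat_lit 254, nat_lit 205242, nat_lit 200, nat_lit 43829754, nat_lit 21604046, nat_lit 1566200, nat_lit 3779011, true, true⟩,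
 nat_lit 0, nat_lit 0, nat_lit 1294, nat_lit 0, nat_lit 2995, nat_lit 685, nat_lit 0, nat_lit 0, nat_lit 0, nat_lit 65, nat_lit 0, nat_lit 0, nat_lit 0, nat_lit 0, nat_lit 0, nat_lit 225695, nat_lit 0, nat_lit 0, [(nat_lit 25, [(nat_lit 0, nat_lit 831), (nat_lit 3, nat_lit 97)])],
 ⟨p109_k1, nat_lit 0, nat_lit 0, nat_lit 132, nat_lit 0, nat_lit 0, [nat_lit 854671201, nat_lit 1353057600, nat_lit 2080233200], [], [nat_lit 25915721281, nat_lit 26968720241, nat_lit 27446918601, nat_lit 28418980270, nat_lit 25444089161, nat_lit 26467364321, nat_lit 26937923241, nat_lit 27883693731], nat_lit 0, nat_lit 0, nat_lit 0, nat_lit 0, nat_lit 0, nat_lit 0, [], [nat_lit 20, nat_lit 40, nat_lit 40, nat_lit 80, nat_lit 16, nat_lit 226, nat_lit 20, nat_lit 7]⟩, ⟨p109_k10, nat_lit 0, nat_lit 0, nat_lit 833, nat_lit 0, nat_lit 1179746, [nat_lit 337536000, nat_lit 573696000, nat_lit 1012176000], [], [nat_lit 2632115196, nat_lit 2641588120,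 nat_lit 2712584228, nat_lit 2721791015, nat_lit 2167599415, nat_lit 2167345659, nat_lit 2187806885, nat_lit 2196825168], nat_lit 1271250, nat_lit 1271250, nat_lit 1271250, nat_lit 1271250, nat_lit 0, nat_lit 2118750, [nat_lit 1100000, nat_lit 1785000, nat_lit 1271250], [nat_lit 37, nat_lit 40, nat_lit 40, nat_lit 80, nat_lit 28, nat_lit 456, nat_lit 225, nat_lit 10]⟩,
 ⟨nat_lit 2236, nat_lit 3163, ⟨.ofNat (nat_lit 666215), .ofNat (nat_lit 727168), .ofNat (nat_lit 677292), .ofNat (nat_lit 738246), .ofNat (nat_lit 659578), .ofNat (nat_lit 716594), .ofNat (nat_lit 670965), .ofNat (nat_lit 727981)⟩, ⟨.ofNat (nat_lit 78946), .ofNat (nat_lit 139899), .ofNat (nat_lit 100000), .ofNat (nat_lit 184209), .ofNat (nat_lit 89742), .ofNat (nat_lit 146758), .ofNat (nat_lit 100000), .ofNat (nat_lit 192306)⟩⟩, [⟨nat_lit 22, nat_lit 90, nat_lit 100, nat_lit 74, nat_lit 6475855⟩]⟩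
noncomputable def p109_l76 : Lf2 := ⟨nat_lit 0, nat_lit 20, [nat_lit 5, nat_lit 5, nat_lit 5, nat_lit 20], false, nat_lit 40, nat_lit 80, nat_lit 0, nat_lit 300, ⟨nat_lit 82, nat_lit 918, nat_lit 0, nat_lit 7, nat_lit 284, nat_lit 918, nat_lit 52, nat_lit 0, nat_lit 0, nat_lit 0, nat_lit 0, nat_lit 0, nat_lit 43380410, nat_lit 22062036, nat_lit 1557554, nat_lit 3800397, true, true⟩,
 nat_lit 0, nat_lit 0, nat_lit 1296, nat_lit 0, nat_lit 3157, nat_lit 719, nat_lit 0, nat_lit 0, nat_lit 0, nat_lit 74, nat_lit 0, nat_lit 0, nat_lit 0, nat_lit 0, nat_lit 0, nat_lit 229500, nat_lit 0, nat_lit 0, [(nat_lit 25, [(nat_lit 0, nat_lit 918)])],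
 ⟨p109_k1, nat_lit 0, nat_lit 0, nat_lit 132, nat_lit 0, nat_lit 0, [nat_lit 778268000, nat_lit 1525682401, nat_lit 2456824000], [], [nat_lit 26292309301, nat_lit 27392577109, nat_lit 27874200177, nat_lit 28887310243, nat_lit 25691373185, nat_lit 26761212127, nat_lit 27236034717, nat_lit 28222448995], nat_lit 0, nat_lit 0, nat_lit 0, nat_lit 0, nat_lit 0, nat_lit 0, [], [nat_lit 20, nat_lit 40, nat_lit 40, nat_lit 80, nat_lit 16, nat_lit 226, nat_lit 20, nat_lit 7]⟩, ⟨p109_k3, nat_lit 0, nat_lit 0, nat_lit 822, nat_lit 0, nat_lit 1154919, [nat_lit 384416000, nat_lit 653376000, nat_lit 1152756000], [], [nat_lit 2958611593, nat_lit 2967117566, nat_lit 3033391563, nat_lit 3042909058, nat_lit 2491672748, nat_lit 2492435902, nat_lit 2515711587, nat_lit 2515004929], nat_lit 1271250, nat_lit 1271250, nat_lit 1271250, nat_lit 1271250, nat_lit 0, nat_lit 2118750, [nat_lit 1100000, nat_lit 1785000, nat_lit 1271250], [nat_lit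 37, nat_lit 40, nat_lit 40, nat_lit 80, nat_lit 28, nat_lit 456, nat_lit 225, nat_lit 10]⟩,
 ⟨nat_lit 2236, nat_lit 3163, ⟨.ofNat (nat_lit 677292), .ofNat (nat_lit 738246), .ofNat (nat_lit 688370), .ofNat (nat_lit 749323), .ofNat (nat_lit 670965), .ofNat (nat_lit 727981), .ofNat (nat_lit 682352), .ofNat (nat_lit 739368)⟩, ⟨.ofNat (nat_lit 78946), .ofNat (nat_lit 139899), .ofNat (nat_lit 100000), .ofNat (nat_lit 184209), .ofNat (nat_lit 89742), .ofNat (nat_lit 146758), .ofNat (nat_lit 100000), .ofNat (nat_lit 192306)⟩⟩, [⟨nat_lit 22, nat_lit 90, nat_lit 100, nat_lit 74, nat_lit 8838677⟩]⟩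
noncomputable def p109_l77 : Lf2 := ⟨nat_lit 0, nat_lit 15, [nat_lit 30, nat_lit 5, nat_lit 5, nat_lit 20], false, nat_lit 0, nat_lit 40, nat_lit 0, nat_lit 248, ⟨nat_lit 99, nat_lit 901, nat_lit 0, nat_lit 7, nat_lit 290, nat_lit 901, nat_lit 18, nat_lit 0, nat_lit 0, nat_lit 0, nat_lit 0, nat_lit 0, nat_lit 43871596, nat_lit 23128404, nat_lit 0, nat_lit 3222121, true, true⟩,
 nat_lit 0, nat_lit 0, nat_lit 1418, nat_lit 0, nat_lit 2892, nat_lit 825, nat_lit 0, nat_lit 0, nat_lit 0, nat_lit 90, nat_lit 0, nat_lit 0, nat_lit 0, nat_lit 0, nat_lit 0, nat_lit 290350, nat_lit 0, nat_lit 0, [(nat_lit 25, [(nat_lit 0, nat_lit 467), (nat_lit 1, nat_lit 434)])],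
 ⟨p109_k12, nat_lit 0, nat_lit 0, nat_lit 154, nat_lit 0, nat_lit 0, [nat_lit 816293201, nat_lit 1399073467, nat_lit 2005052800], [], [nat_lit 26488979053, nat_lit 27532838365, nat_lit 28014770717, nat_lit 29003638307, nat_lit 26110595189, nat_lit 27125336973, nat_lit 27598966213, nat_lit 28537517997], nat_lit 0, nat_lit 0, nat_lit 0, nat_lit 0, nat_lit 0, nat_lit 0, [], [nat_lit 20, nat_lit 40, nat_lit 40, nat_lit 80, nat_lit 16, nat_lit 215, nat_lit 10, nat_lit 7]⟩, ⟨p109_k14, nat_lit 0, nat_lit 0, nat_lit 697, nat_lit 0, nat_lit 993427, [nat_lit 464112000, nat_lit 788832000, nat_lit 1175328000], [], [nat_lit 3278764632, nat_lit 3317212008, nat_lit 3389072148, nat_lit 3420738288, nat_lit 2760100867, nat_lit 2780509314, nat_lit 2828484153, nat_lit 2843957108], nat_lit 1271250, nat_lit 1271250, nat_lit 1271250, nat_lit 1271250, nat_lit 0, nat_lit 1751500, [nat_lit 1100000, nat_lit 1785000, nat_lit 1271250], [nat_lit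 21, nat_lit 40, nat_lit 40, nat_lit 80, nat_lit 14, nat_lit 456, nat_lit 225, nat_lit 11]⟩,
 ⟨nat_lit 2236, nat_lit 3163, ⟨.ofNat (nat_lit 688370), .ofNat (nat_lit 749323), .ofNat (nat_lit 710480), .ofNat (nat_lit 771478), .ofNat (nat_lit 682352), .ofNat (nat_lit 739368), .ofNat (nat_lit 705082), .ofNat (nat_lit 762142)⟩, ⟨.ofNat (nat_lit 0), .ofNat (nat_lit 78946), .ofNat (nat_lit 0), .ofNat (nat_lit 100000), .ofNat (nat_lit 0), .ofNat (nat_lit 89742), .ofNat (nat_lit 0), .ofNat (nat_lit 100000)⟩⟩, [⟨nat_lit 22, nat_lit 94, nat_lit 100, nat_lit 14, nat_lit 37454155⟩]⟩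
noncomputable def p109_l78 : Lf2 := ⟨nat_lit 0, nat_lit 20, [nat_lit 5, nat_lit 5, nat_lit 5, nat_lit 20], false, nat_lit 0, nat_lit 40, nat_lit 0, nat_lit 248, ⟨nat_lit 677, nat_lit 323, nat_lit 0, nat_lit 7, nat_lit 289, nat_lit 323, nat_lit 20, nat_lit 0, nat_lit 0, nat_lit 0, nat_lit 0, nat_lit 0, nat_lit 44023122, nat_lit 22976878, nat_lit 0, nat_lit 3214825, true, true⟩,
 nat_lit 0, nat_lit 0, nat_lit 9862, nat_lit 0, nat_lit 3764, nat_lit 5740, nat_lit 0, nat_lit 0, nat_lit 0, nat_lit 581, nat_lit 0, nat_lit 0, nat_lit 0, nat_lit 0, nat_lit 0, nat_lit 323000, nat_lit 0, nat_lit 0, [(nat_lit 25, [(nat_lit 2, nat_lit 323)])],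
 ⟨p109_k1, nat_lit 0, nat_lit 0, nat_lit 151, nat_lit 0, nat_lit 0, [nat_lit 1109319201, nat_lit 2098872534, nat_lit 2971937600], [], [nat_lit 27742270400, nat_lit 28417604908, nat_lit 29608441120, nat_lit 30224226324, nat_lit 26934393376, nat_lit 27503350140, nat_lit 28580317286, nat_lit 29141451976], nat_lit 0, nat_lit 0, nat_lit 0, nat_lit 0, nat_lit 0, nat_lit 0, [], [nat_lit 20, nat_lit 40, nat_lit 40, nat_lit 80, nat_lit 16, nat_lit 215, nat_lit 10, nat_lit 7]⟩, ⟨p109_k4, nat_lit 0, nat_lit 0, nat_lit 539, nat_lit 0, nat_lit 651608, [nat_lit 3173776000, nat_lit 5394336000, nat_lit 8037344000], [], [nat_lit 22603935782, nat_lit 22776102938, nat_lit 23597484098, nat_lit 23738847248, nat_lit 18059017184, nat_lit 18145581833, nat_lit 18757480925, nat_lit 18867914310], nat_lit 1271250, nat_lit 1271250, nat_lit 1271250, nat_lit 1271250, nat_lit 0, nat_lit 1751500, [nat_lit 1100000, nat_lit 1785000, nat_lit 1271250],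 [nat_lit 21, nat_lit 40, nat_lit 40, nat_lit 80, nat_lit 14, nat_lit 456, nat_lit 225, nat_lit 11]⟩,
 ⟨nat_lit 2738, nat_lit 3163, ⟨.ofNat (nat_lit 688370), .ofNat (nat_lit 749323), .ofNat (nat_lit 699442), .ofNat (nat_lit 760401), .ofNat (nat_lit 685373), .ofNat (nat_lit 744435), .ofNat (nat_lit 696577), .ofNat (nat_lit 755643)⟩, ⟨.ofNat (nat_lit 0), .ofNat (nat_lit 100000), .ofNat (nat_lit 0), .ofNat (nat_lit 100000), .ofNat (nat_lit 0), .ofNat (nat_lit 100000), .ofNat (nat_lit 0), .ofNat (nat_lit 100000)⟩⟩, [⟨nat_lit 22, nat_lit 87, nat_lit 100, nat_lit 44, nat_lit 40408497⟩]⟩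
noncomputable def p109_l79 : Lf2 := ⟨nat_lit 0, nat_lit 20, [nat_lit 5, nat_lit 5, nat_lit 5, nat_lit 20], false, nat_lit 4, nat_lit 40, nat_lit 0, nat_lit 248, ⟨nat_lit 123, nat_lit 877, nat_lit 0, nat_lit 7, nat_lit 287, nat_lit 877, nat_lit 22, nat_lit 0, nat_lit 0, nat_lit 0, nat_lit 0, nat_lit 0, nat_lit 43855120, nat_lit 22710504, nat_lit 434376, nat_lit 3432570, true, true⟩,
 nat_lit 0, nat_lit 0, nat_lit 1777, nat_lit 0, nat_lit 2755, nat_lit 1034, nat_lit 193, nat_lit 0, nat_lit 0, nat_lit 114, nat_lit 0, nat_lit 0, nat_lit 0, nat_lit 0, nat_lit 0, nat_lit 219250, nat_lit 0, nat_lit 0, [(nat_lit 25, [(nat_lit 0, nat_lit 877)])],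
 ⟨p109_k6, nat_lit 0, nat_lit 0, nat_lit 152, nat_lit 0, nat_lit 0, [nat_lit 785402001, nat_lit 1604123600, nat_lit 2626236000], [], [nat_lit 25661640060, nat_lit 26172075329, nat_lit 27124928454, nat_lit 27597049766, nat_lit 25349998032, nat_lit 25847693162, nat_lit 26781851392, nat_lit 27242684522], nat_lit 0, nat_lit 0, nat_lit 0, nat_lit 0, nat_lit 0, nat_lit 0, [], [nat_lit 20, nat_lit 40, nat_lit 40, nat_lit 80, nat_lit 16, nat_lit 215, nat_lit 10, nat_lit 7]⟩, ⟨p109_k4, nat_lit 0, nat_lit 0, nat_lit 623, nat_lit 0, nat_lit 831714, [nat_lit 576624000, nat_lit 980064000, nat_lit 1460256000], [], [nat_lit 4030861930, nat_lit 4054735313, nat_lit 4168198302, nat_lit 4187828355, nat_lit 3376673624, nat_lit 3389266459, nat_lit 3461566568, nat_lit 3471071352], nat_lit 1271250, nat_lit 1271250, nat_lit 1271250, nat_lit 1271250, nat_lit 0, nat_lit 1751500, [nat_lit 1100000, nat_lit 1785000, nat_lit 1271250], [nat_lit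 21, nat_lit 40, nat_lit 40, nat_lit 80, nat_lit 14, nat_lit 456, nat_lit 225, nat_lit 11]⟩,
 ⟨nat_lit 2236, nat_lit 2739, ⟨.ofNat (nat_lit 685373), .ofNat (nat_lit 744435), .ofNat (nat_lit 696581), .ofNat (nat_lit 755643), .ofNat (nat_lit 682352), .ofNat (nat_lit 739368), .ofNat (nat_lit 693738), .ofNat (nat_lit 750755)⟩, ⟨.ofNat (nat_lit 10000), .ofNat (nat_lit 100000), .ofNat (nat_lit 10000), .ofNat (nat_lit 100000), .ofNat (nat_lit 10000), .ofNat (nat_lit 100000), .ofNat (nat_lit 10000), .ofNat (nat_lit 100000)⟩⟩, [⟨nat_lit 3, nat_lit 100, nat_lit 64, nat_lit 46, nat_lit 147270063⟩, ⟨nat_lit 22, nat_lit 87, nat_lit 100, nat_lit 46, nat_lit 15234197⟩]⟩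
noncomputable def p109_l80 : Lf2 := ⟨nat_lit 0, nat_lit 20, [nat_lit 5, nat_lit 5, nat_lit 5, nat_lit 20], false, nat_lit 0, nat_lit 40, nat_lit 0, nat_lit 248, ⟨nat_lit 203, nat_lit 797, nat_lit 0, nat_lit 7, nat_lit 293, nat_lit 797, nat_lit 20, nat_lit 0, nat_lit 0, nat_lit 0, nat_lit 0, nat_lit 0, nat_lit 43637828, nat_lit 23362172, nat_lit 0, nat_lit 3233156, true, true⟩,
 nat_lit 0, nat_lit 0, nat_lit 2487, nat_lit 0, nat_lit 2959, nat_lit 1514, nat_lit 0, nat_lit 0, nat_lit 0, nat_lit 261, nat_lit 0, nat_lit 0, nat_lit 0, nat_lit 0, nat_lit 0, nat_lit 318800, nat_lit 0, nat_lit 0, [(nat_lit 25, [(nat_lit 1, nat_lit 797)])],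
 ⟨p109_k1, nat_lit 0, nat_lit 0, nat_lit 154, nat_lit 0, nat_lit 0, [nat_lit 863719601, nat_lit 1464946267, nat_lit 1998164400], [], [nat_lit 26555652737, nat_lit 27609370161, nat_lit 28091487165, nat_lit 29064415963, nat_lit 26154640159, nat_lit 27178845827, nat_lit 27652623807, nat_lit 28599433475], nat_lit 0, nat_lit 0, nat_lit 0, nat_lit 0, nat_lit 0, nat_lit 0, [], [nat_lit 20, nat_lit 40, nat_lit 40, nat_lit 80, nat_lit 16, nat_lit 215, nat_lit 10, nat_lit 7]⟩, ⟨p109_k5, nat_lit 0, nat_lit 0, nat_lit 627, nat_lit 0, nat_lit 839164, [nat_lit 951664000, nat_lit 1617504000, nat_lit 2410016000], [], [nat_lit 5970999946, nat_lit 6001863716, nat_lit 6157706595, nat_lit 6190988408, nat_lit 5097269921, nat_lit 5119656665, nat_lit 5230870524, nat_lit 5251045900], nat_lit 1271250, nat_lit 1271250, nat_lit 1271250, nat_lit 1271250, nat_lit 0, nat_lit 1751500, [nat_lit 1100000, nat_lit 1785000, nat_lit 1271250], [nat_lit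 21, nat_lit 40, nat_lit 40, nat_lit 80, nat_lit 14, nat_lit 456, nat_lit 225, nat_lit 11]⟩,
 ⟨nat_lit 2236, nat_lit 3163, ⟨.ofNat (nat_lit 699431), .ofNat (nat_lit 760401), .ofNat (nat_lit 710480), .ofNat (nat_lit 771478), .ofNat (nat_lit 693723), .ofNat (nat_lit 750755), .ofNat (nat_lit 705082), .ofNat (nat_lit 762142)⟩, ⟨.ofNat (nat_lit 0), .ofNat (nat_lit 100000), .ofNat (nat_lit 0), .ofNat (nat_lit 100000), .ofNat (nat_lit 0), .ofNat (nat_lit 100000), .ofNat (nat_lit 0), .ofNat (nat_lit 100000)⟩⟩, [⟨nat_lit 22, nat_lit 87, nat_lit 100, nat_lit 44, nat_lit 39502659⟩]⟩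
noncomputable def p109_l81 : Lf2 := ⟨nat_lit 0, nat_lit 20, [nat_lit 5, nat_lit 5, nat_lit 5, nat_lit 20], false, nat_lit 40, nat_lit 80, nat_lit 0, nat_lit 300, ⟨nat_lit 88, nat_lit 912, nat_lit 0, nat_lit 7, nat_lit 288, nat_lit 912, nat_lit 52, nat_lit 0, nat_lit 0, nat_lit 0, nat_lit 0, nat_lit 0, nat_lit 42933649, nat_lit 22517652, nat_lit 1548699, nat_lit 3820518, true, true⟩,
 nat_lit 0, nat_lit 0, nat_lit 1267, nat_lit 0, nat_lit 3169, nat_lit 737, nat_lit 0, nat_lit 0, nat_lit 0, nat_lit 73, nat_lit 0, nat_lit 0, nat_lit 0, nat_lit 0, nat_lit 0, nat_lit 228000, nat_lit 0, nat_lit 0, [(nat_lit 25, [(nat_lit 0, nat_lit 912)])],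
 ⟨p109_k1, nat_lit 0, nat_lit 0, nat_lit 132, nat_lit 0, nat_lit 0, [nat_lit 779312001, nat_lit 1537161601, nat_lit 2481616000], [], [nat_lit 26319216901, nat_lit 27421281637, nat_lit 27902915793, nat_lit 28917589915, nat_lit 25713768929, nat_lit 26785335943, nat_lit 27260168973, nat_lit 28248088699], nat_lit 0, nat_lit 0, nat_lit 0, nat_lit 0, nat_lit 0, nat_lit 0, [], [nat_lit 20, nat_lit 40, nat_lit 40, nat_lit 80, nat_lit 16, nat_lit 226, nat_lit 20, nat_lit 7]⟩, ⟨p109_k4, nat_lit 0, nat_lit 0, nat_lit 751, nat_lit 0, nat_lit 1137793, [nat_lit 412544000, nat_lit 701184000, nat_lit 1044736000], [], [nat_lit 3056045234, nat_lit 3065485533, nat_lit 3118565824, nat_lit 3131828416, nat_lit 2586731065, nat_lit 2588145668, nat_lit 2612478259, nat_lit 2620523041], nat_lit 1271250, nat_lit 1271250, nat_lit 1271250, nat_lit 1271250, nat_lit 0, nat_lit 2118750, [nat_lit 1100000, nat_lit 1785000, nat_lit 1271250], [nat_lit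 21, nat_lit 40, nat_lit 40, nat_lit 80, nat_lit 14, nat_lit 456, nat_lit 225, nat_lit 11]⟩,
 ⟨nat_lit 2236, nat_lit 3163, ⟨.ofNat (nat_lit 688370), .ofNat (nat_lit 749323), .ofNat (nat_lit 699431), .ofNat (nat_lit 760401), .ofNat (nat_lit 682352), .ofNat (nat_lit 739368), .ofNat (nat_lit 693723), .ofNat (nat_lit 750755)⟩, ⟨.ofNat (nat_lit 78946), .ofNat (nat_lit 139899), .ofNat (nat_lit 100000), .ofNat (nat_lit 184209), .ofNat (nat_lit 89742), .ofNat (nat_lit 146758), .ofNat (nat_lit 100000), .ofNat (nat_lit 192306)⟩⟩, [⟨nat_lit 22, nat_lit 90, nat_lit 100, nat_lit 74, nat_lit 11105570⟩]⟩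
noncomputable def p109_l82 : Lf2 := ⟨nat_lit 0, nat_lit 20, [nat_lit 5, nat_lit 5, nat_lit 5, nat_lit 20], false, nat_lit 40, nat_lit 80, nat_lit 0, nat_lit 300, ⟨nat_lit 103, nat_lit 897, nat_lit 0, nat_lit 7, nat_lit 293, nat_lit 897, nat_lit 52, nat_lit 0, nat_lit 0, nat_lit 0, nat_lit 0, nat_lit 0, nat_lit 42489720, nat_lit 22970628, nat_lit 1539652, nat_lit 3839394, true, true⟩,
 nat_lit 0, nat_lit 0, nat_lit 1281, nat_lit 0, nat_lit 3195, nat_lit 779, nat_lit 0, nat_lit 0, nat_lit 0, nat_lit 102, nat_lit 0, nat_lit 0, nat_lit 0, nat_lit 0, nat_lit 0, nat_lit 224250, nat_lit 0, nat_lit 0, [(nat_lit 25, [(nat_lit 0, nat_lit 897)])],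
 ⟨p109_k1, nat_lit 0, nat_lit 0, nat_lit 132, nat_lit 0, nat_lit 0, [nat_lit 781922001, nat_lit 1565859601, nat_lit 2543596000], [], [nat_lit 26389607101, nat_lit 27495565181, nat_lit 27977223361, nat_lit 28995286271, nat_lit 25774383441, nat_lit 26849694611, nat_lit 27324550261, nat_lit 28315731791], nat_lit 0, nat_lit 0, nat_lit 0, nat_lit 0, nat_lit 0, nat_lit 0, [], [nat_lit 20, nat_lit 40, nat_lit 40, nat_lit 80, nat_lit 16, nat_lit 226, nat_lit 20, nat_lit 7]⟩, ⟨p109_k5, nat_lit 0, nat_lit 0, nat_lit 745, nat_lit 0, nat_lit 1126501, [nat_lit 482864000, nat_lit 820704000, nat_lit 1222816000], [], [nat_lit 3390062748, nat_lit 3398499996, nat_lit 3450228997, nat_lit 3459625084, nat_lit 2919720725, nat_lit 2920957130, nat_lit 2950046570, nat_lit 2952861214], nat_lit 1271250, nat_lit 1271250, nat_lit 1271250, nat_lit 1271250, nat_lit 0, nat_lit 2118750, [nat_lit 1100000, nat_lit 1785000, nat_lit 1271250], [nat_lit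 21, nat_lit 40, nat_lit 40, nat_lit 80, nat_lit 14, nat_lit 456, nat_lit 225, nat_lit 11]⟩,
 ⟨nat_lit 2236, nat_lit 3163, ⟨.ofNat (nat_lit 699431), .ofNat (nat_lit 760401), .ofNat (nat_lit 710480), .ofNat (nat_lit 771478), .ofNat (nat_lit 693723), .ofNat (nat_lit 750755), .ofNat (nat_lit 705082), .ofNat (nat_lit 762142)⟩, ⟨.ofNat (nat_lit 78946), .ofNat (nat_lit 139899), .ofNat (nat_lit 100000), .ofNat (nat_lit 184209), .ofNat (nat_lit 89742), .ofNat (nat_lit 146758), .ofNat (nat_lit 100000), .ofNat (nat_lit 192306)⟩⟩, [⟨nat_lit 22, nat_lit 90, nat_lit 100, nat_lit 74, nat_lit 15230070⟩]⟩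
noncomputable def p109_l83 : Lf2 := ⟨nat_lit 0, nat_lit 15, [nat_lit 30, nat_lit 5, nat_lit 5, nat_lit 20], true, nat_lit 0, nat_lit 40, nat_lit 0, nat_lit 248, ⟨nat_lit 0, nat_lit 1000, nat_lit 0, nat_lit 7, nat_lit 277, nat_lit 1000, nat_lit 19, nat_lit 0, nat_lit 0, nat_lit 0, nat_lit 0, nat_lit 0, nat_lit 45242134, nat_lit 21757866, nat_lit 0, nat_lit 3151969, true, true⟩,
 nat_lit 0, nat_lit 0, nat_lit 0, nat_lit 0, nat_lit 2596, nat_lit 0, nat_lit 0, nat_lit 0, nat_lit 0, nat_lit 0, nat_lit 0, nat_lit 0, nat_lit 0, nat_lit 0, nat_lit 0, nat_lit 250000, nat_lit 0, nat_lit 0, [(nat_lit 28, [(nat_lit 0, nat_lit 1000)])],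
 ⟨p109_k16, nat_lit 0, nat_lit 0, nat_lit 155, nat_lit 0, nat_lit 0, [nat_lit 781600001, nat_lit 1046000001, nat_lit 1376400000], [], [nat_lit 26077749811, nat_lit 27134667107, nat_lit 27563073515, nat_lit 28540128835, nat_lit 25779763863, nat_lit 26807191051, nat_lit 27230376551, nat_lit 28181361355], nat_lit 0, nat_lit 0, nat_lit 0, nat_lit 0, nat_lit 0, nat_lit 0, [], [nat_lit 35, nat_lit 40, nat_lit 40, nat_lit 80, nat_lit 22, nat_lit 215, nat_lit 10, nat_lit 8]⟩, C1.Rw.none,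
 ⟨nat_lit 0, nat_lit 2237, ⟨.ofNat (nat_lit 659577), .ofNat (nat_lit 716590), .ofNat (nat_lit 682352), .ofNat (nat_lit 739366), .ofNat (nat_lit 649998), .ofNat (nat_lit 699995), .ofNat (nat_lit 674999), .ofNat (nat_lit 724997)⟩, ⟨.ofNat (nat_lit 0), .ofNat (nat_lit 89742), .ofNat (nat_lit 0), .ofNat (nat_lit 100000), .ofNat (nat_lit 0), .ofNat (nat_lit 99999), .ofNat (nat_lit 0), .ofNat (nat_lit 100000)⟩⟩, [⟨nat_lit 13, nat_lit 32, nat_lit 87, nat_lit 100, nat_lit 3588119⟩, ⟨nat_lit 3, nat_lit 100, nat_lit 47, nat_lit 60, nat_lit 87529566⟩]⟩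
noncomputable def p109_l84 : Lf2 := ⟨nat_lit 0, nat_lit 20, [nat_lit 5, nat_lit 5, nat_lit 5, nat_lit 20], false, nat_lit 8, nat_lit 40, nat_lit 0, nat_lit 248, ⟨nat_lit 77, nat_lit 923, nat_lit 0, nat_lit 7, nat_lit 279, nat_lit 923, nat_lit 24, nat_lit 0, nat_lit 0, nat_lit 0, nat_lit 0, nat_lit 0, nat_lit 44693174, nat_lit 21806939, nat_lit 499887, nat_lit 3414009, true, true⟩,
 nat_lit 0, nat_lit 0, nat_lit 1382, nat_lit 0, nat_lit 2399, nat_lit 731, nat_lit 27, nat_lit 0, nat_lit 0, nat_lit 67, nat_lit 0, nat_lit 0, nat_lit 0, nat_lit 0, nat_lit 0, nat_lit 369200, nat_lit 0, nat_lit 0, [(nat_lit 28, [(nat_lit 1, nat_lit 923)])],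
 ⟨p109_k9, nat_lit 0, nat_lit 0, nat_lit 154, nat_lit 0, nat_lit 0, [nat_lit 716110801, nat_lit 552504400, nat_lit 608624000], [], [nat_lit 25271094676, nat_lit 25790741290, nat_lit 26738013497, nat_lit 27222990737, nat_lit 25049766114, nat_lit 25558143430, nat_lit 26490658020, nat_lit 26961509522], nat_lit 0, nat_lit 0, nat_lit 0, nat_lit 0, nat_lit 0, nat_lit 0, [], [nat_lit 20, nat_lit 40, nat_lit 40, nat_lit 80, nat_lit 16, nat_lit 215, nat_lit 10, nat_lit 7]⟩, ⟨p109_k10, nat_lit 0, nat_lit 0, nat_lit 809, nat_lit 0, nat_lit 1112271, [nat_lit 360976000, nat_lit 613536000, nat_lit 1082466000], [], [nat_lit 2864534604, nat_lit 2887367846, nat_lit 2951829248, nat_lit 2968539050, nat_lit 2305019401, nat_lit 2308387002, nat_lit 2335396360, nat_lit 2335538223], nat_lit 1271250, nat_lit 1271250, nat_lit 1271250, nat_lit 1271250, nat_lit 0, nat_lit 1751500, [nat_lit 1100000, nat_lit 1785000, nat_lit 1271250], [nat_lit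 37, nat_lit 40, nat_lit 40, nat_lit 80, nat_lit 28, nat_lit 456, nat_lit 225, nat_lit 10]⟩,
 ⟨nat_lit 1581, nat_lit 2237, ⟨.ofNat (nat_lit 659578), .ofNat (nat_lit 716594), .ofNat (nat_lit 682352), .ofNat (nat_lit 739368), .ofNat (nat_lit 655900), .ofNat (nat_lit 710536), .ofNat (nat_lit 679215), .ofNat (nat_lit 733851)⟩, ⟨.ofNat (nat_lit 20000), .ofNat (nat_lit 100000), .ofNat (nat_lit 20000), .ofNat (nat_lit 100000), .ofNat (nat_lit 20000), .ofNat (nat_lit 100000), .ofNat (nat_lit 20000), .ofNat (nat_lit 100000)⟩⟩, [⟨nat_lit 3, nat_lit 100, nat_lit 50, nat_lit 60, nat_lit 197562149⟩]⟩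
noncomputable def p109_l85 : Lf2 := ⟨nat_lit 0, nat_lit 20, [nat_lit 5, nat_lit 5, nat_lit 5, nat_lit 20], true, nat_lit 20, nat_lit 40, nat_lit 0, nat_lit 248, ⟨nat_lit 0, nat_lit 1000, nat_lit 0, nat_lit 7, nat_lit 276, nat_lit 1000, nat_lit 30, nat_lit 0, nat_lit 0, nat_lit 0, nat_lit 0, nat_lit 0, nat_lit 44786085, nat_lit 21514053, nat_lit 699862, nat_lit 3478688, true, true⟩,
 nat_lit 0, nat_lit 0, nat_lit 0, nat_lit 2974, nat_lit 2771, nat_lit 0, nat_lit 0, nat_lit 0, nat_lit 0, nat_lit 0, nat_lit 0, nat_lit 0, nat_lit 0, nat_lit 0, nat_lit 0, nat_lit 250000, nat_lit 0, nat_lit 0, [(nat_lit 28, [(nat_lit 0, nat_lit 1000)])],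
 ⟨p109_k15, nat_lit 0, nat_lit 0, nat_lit 136, nat_lit 0, nat_lit 0, [nat_lit 781600001, nat_lit 1046000001, nat_lit 1376400000], [], [nat_lit 26241452740, nat_lit 26827957381, nat_lit 27904779945, nat_lit 28549841116, nat_lit 26054621970, nat_lit 26581867701, nat_lit 27490336766, nat_lit 28073172356], nat_lit 0, nat_lit 0, nat_lit 0, nat_lit 0, nat_lit 0, nat_lit 0, [], [nat_lit 35, nat_lit 40, nat_lit 40, nat_lit 80, nat_lit 22, nat_lit 215, nat_lit 10, nat_lit 8]⟩, C1.Rw.none,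
 ⟨nat_lit 0, nat_lit 1582, ⟨.ofNat (nat_lit 655899), .ofNat (nat_lit 710533), .ofNat (nat_lit 679215), .ofNat (nat_lit 733849), .ofNat (nat_lit 649998), .ofNat (nat_lit 699996), .ofNat (nat_lit 674999), .ofNat (nat_lit 724997)⟩, ⟨.ofNat (nat_lit 50000), .ofNat (nat_lit 100000), .ofNat (nat_lit 50000), .ofNat (nat_lit 100000), .ofNat (nat_lit 50000), .ofNat (nat_lit 100000), .ofNat (nat_lit 50000), .ofNat (nat_lit 100000)⟩⟩, [⟨nat_lit 13, nat_lit 33, nat_lit 85, nat_lit 100, nat_lit 535666073⟩, ⟨nat_lit 3, nat_lit 100, nat_lit 44, nat_lit 64, nat_lit 401223248⟩]⟩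
noncomputable def p109_l86 : Lf2 := ⟨nat_lit 0, nat_lit 20, [nat_lit 5, nat_lit 5, nat_lit 5, nat_lit 20], false, nat_lit 40, nat_lit 80, nat_lit 0, nat_lit 300, ⟨nat_lit 67, nat_lit 933, nat_lit 0, nat_lit 7, nat_lit 277, nat_lit 933, nat_lit 54, nat_lit 0, nat_lit 0, nat_lit 0, nat_lit 0, nat_lit 0, nat_lit 43927937, nat_lit 21395107, nat_lit 1676956, nat_lit 3801187, true, true⟩,
 nat_lit 0, nat_lit 0, nat_lit 1196, nat_lit 0, nat_lit 2396, nat_lit 632, nat_lit 29, nat_lit 0, nat_lit 0, nat_lit 56, nat_lit 0, nat_lit 0, nat_lit 0, nat_lit 0, nat_lit 0, nat_lit 373200, nat_lit 0, nat_lit 0, [(nat_lit 28, [(nat_lit 1, nat_lit 933)])],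
 ⟨p109_k9, nat_lit 0, nat_lit 0, nat_lit 140, nat_lit 0, nat_lit 0, [nat_lit 713706800, nat_lit 522932401, nat_lit 547504000], [], [nat_lit 24796612777, nat_lit 25835322145, nat_lit 26260622361, nat_lit 27223183856, nat_lit 24465762993, nat_lit 25476412441, nat_lit 25898179473, nat_lit 26834372585], nat_lit 0, nat_lit 0, nat_lit 0, nat_lit 0, nat_lit 0, nat_lit 0, [], [nat_lit 20, nat_lit 40, nat_lit 40, nat_lit 80, nat_lit 16, nat_lit 226, nat_lit 20, nat_lit 7]⟩, ⟨p109_k10, nat_lit 0, nat_lit 0, nat_lit 1094, nat_lit 0, nat_lit 1712725, [nat_lit 314096000, nat_lit 533856000, nat_lit 941886000], [], [nat_lit 2627840848, nat_lit 2624200344, nat_lit 2637956552, nat_lit 2632147780, nat_lit 2134424816, nat_lit 2122970405, nat_lit 2125837805, nat_lit 2112839781], nat_lit 1271250, nat_lit 1271250, nat_lit 1271250, nat_lit 1271250, nat_lit 0, nat_lit 2118750, [nat_lit 1100000, nat_lit 1785000, nat_lit 1271250], [nat_lit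 37, nat_lit 40, nat_lit 40, nat_lit 80, nat_lit 28, nat_lit 456, nat_lit 225, nat_lit 10]⟩,
 ⟨nat_lit 0, nat_lit 2237, ⟨.ofNat (nat_lit 659577), .ofNat (nat_lit 716590), .ofNat (nat_lit 682352), .ofNat (nat_lit 739366), .ofNat (nat_lit 649998), .ofNat (nat_lit 699995), .ofNat (nat_lit 674999), .ofNat (nat_lit 724997)⟩, ⟨.ofNat (nat_lit 89742), .ofNat (nat_lit 146756), .ofNat (nat_lit 100000), .ofNat (nat_lit 192306), .ofNat (nat_lit 99999), .ofNat (nat_lit 149997), .ofNat (nat_lit 100000), .ofNat (nat_lit 199999)⟩⟩, [⟨nat_lit 13, nat_lit 32, nat_lit 87, nat_lit 100, nat_lit 135585338⟩, ⟨nat_lit 22, nat_lit 90, nat_lit 100, nat_lit 74, nat_lit 5104796⟩]⟩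
noncomputable def p109_l87 : Lf2 := ⟨nat_lit 0, nat_lit 20, [nat_lit 5, nat_lit 5, nat_lit 5, nat_lit 20], false, nat_lit 0, nat_lit 40, nat_lit 0, nat_lit 248, ⟨nat_lit 97, nat_lit 903, nat_lit 0, nat_lit 7, nat_lit 289, nat_lit 903, nat_lit 19, nat_lit 0, nat_lit 0, nat_lit 0, nat_lit 0, nat_lit 0, nat_lit 44072993, nat_lit 22927007, nat_lit 0, nat_lit 3212399, true, true⟩,
 nat_lit 0, nat_lit 0, nat_lit 1439, nat_lit 0, nat_lit 2392, nat_lit 837, nat_lit 39, nat_lit 0, nat_lit 0, nat_lit 85, nat_lit 0, nat_lit 0, nat_lit 0, nat_lit 0, nat_lit 0, nat_lit 361200, nat_lit 0, nat_lit 0, [(nat_lit 28, [(nat_lit 1, nat_lit 903)])],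
 ⟨p109_k9, nat_lit 0, nat_lit 0, nat_lit 156, nat_lit 0, nat_lit 0, [nat_lit 720918800, nat_lit 611648401, nat_lit 730864000], [], [nat_lit 25332965979, nat_lit 25593909335, nat_lit 26805338379, nat_lit 27046729915, nat_lit 25058842763, nat_lit 25312753927, nat_lit 26498721811, nat_lit 26733905369], nat_lit 0, nat_lit 0, nat_lit 0, nat_lit 0, nat_lit 0, nat_lit 0, [], [nat_lit 20, nat_lit 40, nat_lit 40, nat_lit 80, nat_lit 16, nat_lit 215, nat_lit 10, nat_lit 7]⟩, ⟨p109_k4, nat_lit 0, nat_lit 0, nat_lit 837, nat_lit 0, nat_lit 1298871, [nat_lit 454736000, nat_lit 772896000, nat_lit 1151584000], [], [nat_lit 3281662976, nat_lit 3289120288, nat_lit 3343962122, nat_lit 3388243379, nat_lit 2683495961, nat_lit 2680637477, nat_lit 2698004710, nat_lit 2707555338], nat_lit 1271250, nat_lit 1271250, nat_lit 1271250, nat_lit 1271250, nat_lit 0, nat_lit 1751500, [nat_lit 1100000, nat_lit 1785000, nat_lit 1271250], [nat_lit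 21, nat_lit 40, nat_lit 40, nat_lit 80, nat_lit 14, nat_lit 456, nat_lit 225, nat_lit 11]⟩,
 ⟨nat_lit 1936, nat_lit 2237, ⟨.ofNat (nat_lit 682352), .ofNat (nat_lit 739368), .ofNat (nat_lit 705125), .ofNat (nat_lit 762142), .ofNat (nat_lit 680809), .ofNat (nat_lit 736698), .ofNat (nat_lit 703818), .ofNat (nat_lit 759709)⟩, ⟨.ofNat (nat_lit 0), .ofNat (nat_lit 89742), .ofNat (nat_lit 0), .ofNat (nat_lit 100000), .ofNat (nat_lit 0), .ofNat (nat_lit 92355), .ofNat (nat_lit 0), .ofNat (nat_lit 100000)⟩⟩, [⟨nat_lit 3, nat_lit 100, nat_lit 57, nat_lit 51, nat_lit 23149304⟩, ⟨nat_lit 22, nat_lit 87, nat_lit 100, nat_lit 44, nat_lit 6915973⟩]⟩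
noncomputable def p109_l88 : Lf2 := ⟨nat_lit 0, nat_lit 20, [nat_lit 5, nat_lit 5, nat_lit 5, nat_lit 20], false, nat_lit 4, nat_lit 40, nat_lit 0, nat_lit 248, ⟨nat_lit 75, nat_lit 925, nat_lit 0, nat_lit 7, nat_lit 288, nat_lit 925, nat_lit 21, nat_lit 0, nat_lit 0, nat_lit 0, nat_lit 0, nat_lit 0, nat_lit 43840688, nat_lit 22743722, nat_lit 415590, nat_lit 3425974, true, true⟩,
 nat_lit 0, nat_lit 0, nat_lit 1108, nat_lit 0, nat_lit 2400, nat_lit 644, nat_lit 96, nat_lit 0, nat_lit 0, nat_lit 66, nat_lit 0, nat_lit 0, nat_lit 0, nat_lit 0, nat_lit 0, nat_lit 231250, nat_lit 0, nat_lit 0, [(nat_lit 28, [(nat_lit 0, nat_lit 925)])],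
 ⟨p109_k17, nat_lit 0, nat_lit 0, nat_lit 141, nat_lit 0, nat_lit 0, [nat_lit 793330001, nat_lit 1213700001, nat_lit 1624770000], [], [nat_lit 25583734703, nat_lit 25839365523, nat_lit 27017585134, nat_lit 27299913441, nat_lit 25370046803, nat_lit 25619325603, nat_lit 26774471103, nat_lit 27005595003], nat_lit 0, nat_lit 0, nat_lit 0, nat_lit 0, nat_lit 0, nat_lit 0, [], [nat_lit 35, nat_lit 40, nat_lit 40, nat_lit 80, nat_lit 22, nat_lit 215, nat_lit 10, nat_lit 8]⟩, ⟨p109_k4, nat_lit 0, nat_lit 0, nat_lit 874, nat_lit 0, nat_lit 1394959, [nat_lit 351600000, nat_lit 597600000, nat_lit 890400000], [], [nat_lit 2551432482, nat_lit 2557291564, nat_lit 2582965688, nat_lit 2615395674, nat_lit 2092382680, nat_lit 2090293618, nat_lit 2103773414, nat_lit 2099462275], nat_lit 1271250, nat_lit 1271250, nat_lit 1271250, nat_lit 1271250, nat_lit 0, nat_lit 1751500, [nat_lit 1100000, nat_lit 1785000, nat_lit 1271250], [nat_lit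 21, nat_lit 40, nat_lit 40, nat_lit 80, nat_lit 14, nat_lit 456, nat_lit 225, nat_lit 11]⟩,
 ⟨nat_lit 1581, nat_lit 1937, ⟨.ofNat (nat_lit 680809), .ofNat (nat_lit 736698), .ofNat (nat_lit 703818), .ofNat (nat_lit 759709), .ofNat (nat_lit 679215), .ofNat (nat_lit 733851), .ofNat (nat_lit 702528), .ofNat (nat_lit 757166)⟩, ⟨.ofNat (nat_lit 10000), .ofNat (nat_lit 92355), .ofNat (nat_lit 10000), .ofNat (nat_lit 100000), .ofNat (nat_lit 10000), .ofNat (nat_lit 94935), .ofNat (nat_lit 10000), .ofNat (nat_lit 100000)⟩⟩, [⟨nat_lit 3, nat_lit 100, nat_lit 49, nat_lit 60, nat_lit 190641116⟩, ⟨nat_lit 22, nat_lit 87, nat_lit 100, nat_lit 46, nat_lit 5096386⟩]⟩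
noncomputable def p109_l89 : Lf2 := ⟨nat_lit 0, nat_lit 20, [nat_lit 5, nat_lit 5, nat_lit 5, nat_lit 20], false, nat_lit 40, nat_lit 80, nat_lit 0, nat_lit 300, ⟨nat_lit 93, nat_lit 907, nat_lit 0, nat_lit 7, nat_lit 288, nat_lit 907, nat_lit 53, nat_lit 0, nat_lit 0, nat_lit 0, nat_lit 0, nat_lit 0, nat_lit 42879950, nat_lit 22486418, nat_lit 1633632, nat_lit 3844726, true, true⟩,
 nat_lit 0, nat_lit 0, nat_lit 1339, nat_lit 0, nat_lit 2427, nat_lit 779, nat_lit 48, nat_lit 0, nat_lit 0, nat_lit 72, nat_lit 0, nat_lit 0, nat_lit 0, nat_lit 0, nat_lit 0, nat_lit 362800, nat_lit 0, nat_lit 0, [(nat_lit 28, [(nat_lit 1, nat_lit 907)])],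
 ⟨p109_k9, nat_lit 0, nat_lit 0, nat_lit 136, nat_lit 0, nat_lit 0, [nat_lit 719957201, nat_lit 599819600, nat_lit 706416000], [], [nat_lit 24737265876, nat_lit 25259150284, nat_lit 26205855834, nat_lit 26689445996, nat_lit 24394552268, nat_lit 24902309531, nat_lit 25831382528, nat_lit 26301601375], nat_lit 0, nat_lit 0, nat_lit 0, nat_lit 0, nat_lit 0, nat_lit 0, [], [nat_lit 20, nat_lit 40, nat_lit 40, nat_lit 80, nat_lit 16, nat_lit 226, nat_lit 20, nat_lit 7]⟩, ⟨p109_k4, nat_lit 0, nat_lit 0, nat_lit 874, nat_lit 0, nat_lit 1394959, [nat_lit 435984000, nat_lit 741024000, nat_lit 1104096000], [], [nat_lit 3365142372, nat_lit 3372983128, nat_lit 3402939038, nat_lit 3412042020, nat_lit 2821061749, nat_lit 2815977529, nat_lit 2829170576, nat_lit 2832263964], nat_lit 1271250, nat_lit 1271250, nat_lit 1271250, nat_lit 1271250, nat_lit 0, nat_lit 2118750, [nat_lit 1100000, nat_lit 1785000, nat_lit 1271250], [nat_lit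 21, nat_lit 40, nat_lit 40, nat_lit 80, nat_lit 14, nat_lit 456, nat_lit 225, nat_lit 11]⟩,
 ⟨nat_lit 1581, nat_lit 2237, ⟨.ofNat (nat_lit 682352), .ofNat (nat_lit 739368), .ofNat (nat_lit 705117), .ofNat (nat_lit 762142), .ofNat (nat_lit 679215), .ofNat (nat_lit 733851), .ofNat (nat_lit 702521), .ofNat (nat_lit 757166)⟩, ⟨.ofNat (nat_lit 89742), .ofNat (nat_lit 146758), .ofNat (nat_lit 100000), .ofNat (nat_lit 192306), .ofNat (nat_lit 94935), .ofNat (nat_lit 149571), .ofNat (nat_lit 100000), .ofNat (nat_lit 196201)⟩⟩, [⟨nat_lit 22, nat_lit 90, nat_lit 100, nat_lit 74, nat_lit 10645898⟩]⟩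
noncomputable def p109_l90 : Lf2 := ⟨nat_lit 0, nat_lit 20, [nat_lit 5, nat_lit 5, nat_lit 5, nat_lit 20], false, nat_lit 8, nat_lit 80, nat_lit 0, nat_lit 300, ⟨nat_lit 70, nat_lit 930, nat_lit 0, nat_lit 7, nat_lit 286, nat_lit 930, nat_lit 39, nat_lit 0, nat_lit 0, nat_lit 0, nat_lit 0, nat_lit 0, nat_lit 43544455, nat_lit 22440241, nat_lit 1015304, nat_lit 3643014, true, true⟩,
 nat_lit 0, nat_lit 0, nat_lit 1011, nat_lit 0, nat_lit 2419, nat_lit 588, nat_lit 75, nat_lit 0, nat_lit 0, nat_lit 51, nat_lit 0, nat_lit 0, nat_lit 0, nat_lit 0, nat_lit 0, nat_lit 232500, nat_lit 0, nat_lit 0, [(nat_lit 28, [(nat_lit 0, nat_lit 930)])],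
 ⟨p109_k15, nat_lit 0, nat_lit 0, nat_lit 145, nat_lit 0, nat_lit 0, [nat_lit 792548001, nat_lit 1202520001, nat_lit 1608212000], [], [nat_lit 25899064639, nat_lit 26410432738, nat_lit 27313460847, nat_lit 27888423109, nat_lit 25447077231, nat_lit 25932927416, nat_lit 26803885670, nat_lit 27254870736], nat_lit 0, nat_lit 0, nat_lit 0, nat_lit 0, nat_lit 0, nat_lit 0, [], [nat_lit 35, nat_lit 40, nat_lit 40, nat_lit 80, nat_lit 22, nat_lit 226, nat_lit 20, nat_lit 9]⟩, ⟨p109_k4, nat_lit 0, nat_lit 0, nat_lit 971, nat_lit 0, nat_lit 1592403, [nat_lit 328160000, nat_lit 557760000, nat_lit 831040000], [], [nat_lit 2614708432, nat_lit 2613634912, nat_lit 2626874488, nat_lit 2623737760, nat_lit 2176968066, nat_lit 2168383112, nat_lit 2171807666, nat_lit 2161750458], nat_lit 1271250, nat_lit 1271250, nat_lit 1271250, nat_lit 1271250, nat_lit 0, nat_lit 2118750, [nat_lit 1100000, nat_lit 1785000, nat_lit 1271250], [nat_lit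 21, nat_lit 40, nat_lit 40, nat_lit 80, nat_lit 14, nat_lit 456, nat_lit 225, nat_lit 11]⟩,
 ⟨nat_lit 0, nat_lit 1582, ⟨.ofNat (nat_lit 679215), .ofNat (nat_lit 733849), .ofNat (nat_lit 702515), .ofNat (nat_lit 757165), .ofNat (nat_lit 674999), .ofNat (nat_lit 724997), .ofNat (nat_lit 699984), .ofNat (nat_lit 749998)⟩, ⟨.ofNat (nat_lit 20000), .ofNat (nat_lit 149570), .ofNat (nat_lit 20000), .ofNat (nat_lit 196201), .ofNat (nat_lit 20000), .ofNat (nat_lit 149998), .ofNat (nat_lit 20000), .ofNat (nat_lit 199999)⟩⟩, [⟨nat_lit 13, nat_lit 24, nat_lit 89, nat_lit 100, nat_lit 83506781⟩, ⟨nat_lit 3, nat_lit 100, nat_lit 31, nat_lit 76, nat_lit 230013756⟩, ⟨nat_lit 22, nat_lit 88, nat_lit 100, nat_lit 63, nat_lit 8884808⟩]⟩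
noncomputable def b_V_900_600_10_17 : St := ⟨true, nat_lit 0, nat_lit 1, nat_lit 1, nat_lit 80, nat_lit 360, nat_lit 400, nat_lit 240, nat_lit 280, nat_lit 280, nat_lit 320, nat_lit 40, nat_lit 80, nat_lit 0, nat_lit 80, nat_lit 0, nat_lit 336, nat_lit 80, nat_lit 120, nat_lit 0, nat_lit 0, nat_lit 0, nat_lit 0⟩
theorem d_V_900_600_10_17 (h : EB TB.env) : Dead b_V_900_600_10_17 := chkB_sound0 h (T :=
(.trX (nat_lit 22) (nat_lit 100) (nat_lit 95) (nat_lit 87) (nat_lit 300) (.spl (nat_lit 0) (nat_lit 380)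
(.spl (nat_lit 1) (nat_lit 260)
(.spl (nat_lit 4) (nat_lit 40)
(.trX (nat_lit 22) (nat_lit 94) (nat_lit 100) (nat_lit 62) (nat_lit 248) (.spl (nat_lit 3) (nat_lit 60)
(.leaf p109_l69)
(.spl (nat_lit 6) (nat_lit 100)
(.spl (nat_lit 1) (nat_lit 250)
(.spl (nat_lit 0) (nat_lit 370)
(.leaf p109_l70)
(.trZ (nat_lit 3) (nat_lit 100) (nat_lit 74) (nat_lit 33) (nat_lit 4) (.leaf p109_l71)))
(.spl (nat_lit 0) (nat_lit 370)
(.leaf p109_l72)
(.trZ (nat_lit 3) (nat_lit 100) (nat_lit 74) (nat_lit 33) (nat_lit 4) (.leaf p109_l73))))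
(.leaf p109_l74))))
(.spl (nat_lit 1) (nat_lit 250)
(.leaf p109_l75)
(.leaf p109_l76)))
(.spl (nat_lit 4) (nat_lit 40)
(.trX (nat_lit 22) (nat_lit 94) (nat_lit 100) (nat_lit 62) (nat_lit 248) (.spl (nat_lit 3) (nat_lit 60)
(.leaf p109_l77)
(.spl (nat_lit 1) (nat_lit 270)
(.spl (nat_lit 0) (nat_lit 370)
(.leaf p109_l78)
(.trZ (nat_lit 3) (nat_lit 100) (nat_lit 74) (nat_lit 33) (nat_lit 4) (.leaf p109_l79)))
(.leaf p109_l80))))
(.spl (nat_lit 1) (nat_lit 270)
(.leaf p109_l81)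
(.leaf p109_l82))))
(.spl (nat_lit 1) (nat_lit 260)
(.spl (nat_lit 4) (nat_lit 40)
(.trX (nat_lit 22) (nat_lit 94) (nat_lit 100) (nat_lit 62) (nat_lit 248) (.spl (nat_lit 3) (nat_lit 60)
(.leaf p109_l83)
(.trZ (nat_lit 3) (nat_lit 100) (nat_lit 61) (nat_lit 47) (nat_lit 8) (.spl (nat_lit 0) (nat_lit 390)
(.leaf p109_l84)
(.trZ (nat_lit 3) (nat_lit 100) (nat_lit 44) (nat_lit 64) (nat_lit 20) (.leaf p109_l85))))))
(.leaf p109_l86))
(.spl (nat_lit 0) (nat_lit 390)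
(.spl (nat_lit 4) (nat_lit 40)
(.trX (nat_lit 22) (nat_lit 94) (nat_lit 100) (nat_lit 62) (nat_lit 248) (.spl (nat_lit 0) (nat_lit 385)
(.leaf p109_l87)
(.trZ (nat_lit 3) (nat_lit 100) (nat_lit 63) (nat_lit 42) (nat_lit 4) (.leaf p109_l88))))
(.leaf p109_l89))
(.trZ (nat_lit 3) (nat_lit 100) (nat_lit 52) (nat_lit 53) (nat_lit 8) (.leaf p109_l90))))))) (by decide +kernel)
noncomputable def p109_l91 : Lf2 := ⟨nat_lit 0, nat_lit 15, [nat_lit 30, nat_lit 5, nat_lit 5, nat_lit 20], false, nat_lit 0, nat_lit 80, nat_lit 0, nat_lit 260, ⟨nat_lit 152, nat_lit 848, nat_lit 0, nat_lit 8, nat_lit 304, nat_lit 848, nat_lit 31, nat_lit 0, nat_lit 0, nat_lit 0, nat_lit 0, nat_lit 0, nat_lit 42462700, nat_lit 24537300, nat_lit 0, nat_lit 3284588, true, true⟩,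
 nat_lit 0, nat_lit 0, nat_lit 2468, nat_lit 0, nat_lit 2741, nat_lit 1306, nat_lit 126, nat_lit 0, nat_lit 0, nat_lit 114, nat_lit 0, nat_lit 0, nat_lit 0, nat_lit 0, nat_lit 0, nat_lit 339200, nat_lit 0, nat_lit 0, [(nat_lit 25, [(nat_lit 1, nat_lit 848)])],
 ⟨p109_k12, nat_lit 0, nat_lit 0, nat_lit 161, nat_lit 0, nat_lit 0, [nat_lit 858966401, nat_lit 1348673067, nat_lit 1726089600], [], [nat_lit 27191915557, nat_lit 27628552957, nat_lit 28696796557, nat_lit 29128837857, nat_lit 26356137361, nat_lit 26770813684, nat_lit 27789858913, nat_lit 28172633184], nat_lit 0, nat_lit 0, nat_lit 0, nat_lit 0, nat_lit 0, nat_lit 0, [], [nat_lit 20, nat_lit 40, nat_lit 40, nat_lit 80, nat_lit 16, nat_lit 226, nat_lit 20, nat_lit 7]⟩, ⟨p109_k13, nat_lit 0, nat_lit 0, nat_lit 563, nat_lit 0, nat_lit 713147, [nat_lit 712576000, nat_lit 1211136000, nat_lit 1804544000], [], [nat_lit 5891887776, nat_lit 5910201358, nat_lit 6092982584,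 nat_lit 6117419670, nat_lit 4842043384, nat_lit 4855529863, nat_lit 5006537774, nat_lit 5016288851], nat_lit 1271250, nat_lit 1271250, nat_lit 1271250, nat_lit 1271250, nat_lit 0, nat_lit 1836250, [nat_lit 1100000, nat_lit 1785000, nat_lit 1271250], [nat_lit 21, nat_lit 40, nat_lit 40, nat_lit 80, nat_lit 14, nat_lit 373, nat_lit 150, nat_lit 9]⟩,
 ⟨nat_lit 2738, nat_lit 3163, ⟨.ofNat (nat_lit 727168), .ofNat (nat_lit 788122), .ofNat (nat_lit 738246), .ofNat (nat_lit 799199), .ofNat (nat_lit 722017), .ofNat (nat_lit 781079), .ofNat (nat_lit 733226), .ofNat (nat_lit 792287)⟩, ⟨.ofNat (nat_lit 0), .ofNat (nat_lit 139899), .ofNat (nat_lit 0), .ofNat (nat_lit 162054), .ofNat (nat_lit 0), .ofNat (nat_lit 143475), .ofNat (nat_lit 0), .ofNat (nat_lit 165893)⟩⟩, [⟨nat_lit 13, nat_lit 54, nat_lit 74, nat_lit 100, nat_lit 201511696⟩, ⟨nat_lit 22, nat_lit 72, nat_lit 100, nat_lit 61, nat_lit 10619066⟩]⟩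
noncomputable def p109_l92 : Lf2 := ⟨nat_lit 0, nat_lit 15, [nat_lit 30, nat_lit 5, nat_lit 5, nat_lit 20], false, nat_lit 0, nat_lit 80, nat_lit 0, nat_lit 260, ⟨nat_lit 787, nat_lit 213, nat_lit 0, nat_lit 8, nat_lit 310, nat_lit 213, nat_lit 30, nat_lit 0, nat_lit 0, nat_lit 0, nat_lit 0, nat_lit 0, nat_lit 41825338, nat_lit 25174662, nat_lit 0, nat_lit 3309702, true, true⟩,
 nat_lit 0, nat_lit 0, nat_lit 11442, nat_lit 0, nat_lit 4377, nat_lit 6356, nat_lit 0, nat_lit 0, nat_lit 0, nat_lit 630, nat_lit 0, nat_lit 0, nat_lit 0, nat_lit 0, nat_lit 0, nat_lit 213000, nat_lit 0, nat_lit 0, [(nat_lit 25, [(nat_lit 2, nat_lit 213)])],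
 ⟨p109_k12, nat_lit 0, nat_lit 0, nat_lit 160, nat_lit 0, nat_lit 0, [nat_lit 1050975200, nat_lit 2501795201, nat_lit 4088305600], [], [nat_lit 31242597960, nat_lit 31574079109, nat_lit 33683832367, nat_lit 33978654207, nat_lit 28609706477, nat_lit 28894573517, nat_lit 30907089808, nat_lit 31188172993], nat_lit 0, nat_lit 0, nat_lit 0, nat_lit 0, nat_lit 0, nat_lit 0, [], [nat_lit 20, nat_lit 40, nat_lit 40, nat_lit 80, nat_lit 16, nat_lit 226, nat_lit 20, nat_lit 7]⟩, ⟨p109_k18, nat_lit 0, nat_lit 0, nat_lit 531, nat_lit 0, nat_lit 628926, [nat_lit 3689456000, nat_lit 6270816000, nat_lit 9343264000], [], [nat_lit 29462306063, nat_lit 29560813810, nat_lit 30639199960, nat_lit 30764597782, nat_lit 24676118909, nat_lit 24750535694, nat_lit 25774987497, nat_lit 25862195626], nat_lit 1271250, nat_lit 1271250, nat_lit 1271250, nat_lit 1271250, nat_lit 0, nat_lit 1836250, [nat_lit 1100000, nat_lit 1785000, nat_lit 1271250],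 [nat_lit 21, nat_lit 40, nat_lit 40, nat_lit 80, nat_lit 14, nat_lit 373, nat_lit 150, nat_lit 9]⟩,
 ⟨nat_lit 2958, nat_lit 3163, ⟨.ofNat (nat_lit 738246), .ofNat (nat_lit 805295), .ofNat (nat_lit 749323), .ofNat (nat_lit 816372), .ofNat (nat_lit 735754), .ofNat (nat_lit 801777), .ofNat (nat_lit 746893), .ofNat (nat_lit 812916)⟩, ⟨.ofNat (nat_lit 0), .ofNat (nat_lit 139899), .ofNat (nat_lit 0), .ofNat (nat_lit 162054), .ofNat (nat_lit 0), .ofNat (nat_lit 141719), .ofNat (nat_lit 0), .ofNat (nat_lit 163996)⟩⟩, [⟨nat_lit 22, nat_lit 71, nat_lit 100, nat_lit 61, nat_lit 92828116⟩]⟩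
noncomputable def p109_l93 : Lf2 := ⟨nat_lit 0, nat_lit 15, [nat_lit 30, nat_lit 5, nat_lit 5, nat_lit 20], false, nat_lit 0, nat_lit 80, nat_lit 0, nat_lit 260, ⟨nat_lit 146, nat_lit 854, nat_lit 0, nat_lit 8, nat_lit 308, nat_lit 854, nat_lit 31, nat_lit 0, nat_lit 0, nat_lit 0, nat_lit 0, nat_lit 0, nat_lit 42067850, nat_lit 24932150, nat_lit 0, nat_lit 3300375, true, true⟩,
 nat_lit 0, nat_lit 0, nat_lit 2298, nat_lit 0, nat_lit 2698, nat_lit 1276, nat_lit 234, nat_lit 0, nat_lit 0, nat_lit 107, nat_lit 0, nat_lit 0, nat_lit 0, nat_lit 0, nat_lit 0, nat_lit 213500, nat_lit 0, nat_lit 0, [(nat_lit 25, [(nat_lit 0, nat_lit 854)])],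
 ⟨p109_k19, nat_lit 0, nat_lit 0, nat_lit 161, nat_lit 0, nat_lit 0, [nat_lit 789404000, nat_lit 1648127200, nat_lit 2721272000], [], [nat_lit 27315056068, nat_lit 27532183668, nat_lit 28796035887, nat_lit 29009432146, nat_lit 26498952227, nat_lit 26705191674, nat_lit 27915977110, nat_lit 28121038744], nat_lit 0, nat_lit 0, nat_lit 0, nat_lit 0, nat_lit 0, nat_lit 0, [], [nat_lit 20, nat_lit 40, nat_lit 40, nat_lit 80, nat_lit 16, nat_lit 226, nat_lit 20, nat_lit 7]⟩, ⟨p109_k18, nat_lit 0, nat_lit 0, nat_lit 566, nat_lit 0, nat_lit 726617, [nat_lit 684448000, nat_lit 1163328000, nat_lit 1733312000], [], [nat_lit 5480014566, nat_lit 5510441466, nat_lit 5750609470, nat_lit 5773947338, nat_lit 4449391867, nat_lit 4459134127, nat_lit 4580324150, nat_lit 4593792361], nat_lit 1271250, nat_lit 1271250, nat_lit 1271250, nat_lit 1271250, nat_lit 0, nat_lit 1836250, [nat_lit 1100000, nat_lit 1785000, nat_lit 1271250], [nat_lit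 21, nat_lit 40, nat_lit 40, nat_lit 80, nat_lit 14, nat_lit 373, nat_lit 150, nat_lit 9]⟩,
 ⟨nat_lit 2738, nat_lit 2959, ⟨.ofNat (nat_lit 735754), .ofNat (nat_lit 795775), .ofNat (nat_lit 746893), .ofNat (nat_lit 806914), .ofNat (nat_lit 733226), .ofNat (nat_lit 792287), .ofNat (nat_lit 744435), .ofNat (nat_lit 803496)⟩, ⟨.ofNat (nat_lit 0), .ofNat (nat_lit 141719), .ofNat (nat_lit 0), .ofNat (nat_lit 163996), .ofNat (nat_lit 0), .ofNat (nat_lit 143475), .ofNat (nat_lit 0), .ofNat (nat_lit 165893)⟩⟩, [⟨nat_lit 13, nat_lit 57, nat_lit 68, nat_lit 100, nat_lit 195869354⟩, ⟨nat_lit 22, nat_lit 72, nat_lit 100, nat_lit 61, nat_lit 5105826⟩]⟩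
noncomputable def p109_l94 : Lf2 := ⟨nat_lit 0, nat_lit 15, [nat_lit 30, nat_lit 5, nat_lit 5, nat_lit 20], false, nat_lit 0, nat_lit 80, nat_lit 0, nat_lit 260, ⟨nat_lit 102, nat_lit 898, nat_lit 0, nat_lit 8, nat_lit 302, nat_lit 898, nat_lit 31, nat_lit 0, nat_lit 0, nat_lit 0, nat_lit 0, nat_lit 0, nat_lit 42722979, nat_lit 24277021, nat_lit 0, nat_lit 3273772, true, true⟩,
 nat_lit 0, nat_lit 0, nat_lit 1731, nat_lit 0, nat_lit 2569, nat_lit 916, nat_lit 153, nat_lit 0, nat_lit 0, nat_lit 68, nat_lit 0, nat_lit 0, nat_lit 0, nat_lit 0, nat_lit 0, nat_lit 224500, nat_lit 0, nat_lit 0, [(nat_lit 25, [(nat_lit 0, nat_lit 898)])],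
 ⟨p109_k20, nat_lit 0, nat_lit 0, nat_lit 156, nat_lit 0, nat_lit 0, [nat_lit 781748000, nat_lit 1563946400, nat_lit 2018784800], [], [nat_lit 27094262335, nat_lit 27568556486, nat_lit 28376397767, nat_lit 28819940955, nat_lit 26378846463, nat_lit 26828707438, nat_lit 27600623839, nat_lit 28032340651], nat_lit 0, nat_lit 0, nat_lit 0, nat_lit 0, nat_lit 0, nat_lit 0, [], [nat_lit 35, nat_lit 40, nat_lit 40, nat_lit 80, nat_lit 22, nat_lit 226, nat_lit 20, nat_lit 8]⟩, ⟨p109_k13, nat_lit 0, nat_lit 0, nat_lit 697, nat_lit 0, nat_lit 997953, [nat_lit 478176000, nat_lit 812736000, nat_lit 1210944000], [], [nat_lit 4019882064, nat_lit 4029318496, nat_lit 4142972628, nat_lit 4177302245, nat_lit 3265979124, nat_lit 3270150642, nat_lit 3323683043, nat_lit 3328740321], nat_lit 1271250, nat_lit 1271250, nat_lit 1271250, nat_lit 1271250, nat_lit 0, nat_lit 1836250, [nat_lit 1100000, nat_lit 1785000, nat_lit 1271250], [nat_lit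 21, nat_lit 40, nat_lit 40, nat_lit 80, nat_lit 14, nat_lit 373, nat_lit 150, nat_lit 9]⟩,
 ⟨nat_lit 2236, nat_lit 2739, ⟨.ofNat (nat_lit 722017), .ofNat (nat_lit 769266), .ofNat (nat_lit 744435), .ofNat (nat_lit 791684), .ofNat (nat_lit 716594), .ofNat (nat_lit 762206), .ofNat (nat_lit 739368), .ofNat (nat_lit 784980)⟩, ⟨.ofNat (nat_lit 0), .ofNat (nat_lit 143475), .ofNat (nat_lit 0), .ofNat (nat_lit 165893), .ofNat (nat_lit 0), .ofNat (nat_lit 146758), .ofNat (nat_lit 0), .ofNat (nat_lit 169532)⟩⟩, [⟨nat_lit 13, nat_lit 50, nat_lit 75, nat_lit 100, nat_lit 289141755⟩, ⟨nat_lit 22, nat_lit 78, nat_lit 100, nat_lit 41, nat_lit 3794891⟩]⟩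
noncomputable def p109_l95 : Lf2 := ⟨nat_lit 0, nat_lit 20, [nat_lit 5, nat_lit 5, nat_lit 5, nat_lit 20], false, nat_lit 0, nat_lit 40, nat_lit 0, nat_lit 200, ⟨nat_lit 787, nat_lit 213, nat_lit 0, nat_lit 8, nat_lit 304, nat_lit 213, nat_lit 20, nat_lit 0, nat_lit 0, nat_lit 0, nat_lit 0, nat_lit 0, nat_lit 42462700, nat_lit 24537300, nat_lit 0, nat_lit 3284588, true, true⟩,
 nat_lit 0, nat_lit 0, nat_lit 11966, nat_lit 0, nat_lit 3429, nat_lit 6334, nat_lit 295, nat_lit 0, nat_lit 0, nat_lit 698, nat_lit 0, nat_lit 0, nat_lit 0, nat_lit 0, nat_lit 0, nat_lit 213000, nat_lit 0, nat_lit 0, [(nat_lit 25, [(nat_lit 2, nat_lit 213)])],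
 ⟨p109_k1, nat_lit 0, nat_lit 0, nat_lit 161, nat_lit 0, nat_lit 0, [nat_lit 1050975200, nat_lit 2501795201, nat_lit 4088305600], [], [nat_lit 28790556098, nat_lit 29274521150, nat_lit 30519424124, nat_lit 31040579415, nat_lit 28100855252, nat_lit 28594663608, nat_lit 29806489340, nat_lit 30265873381], nat_lit 0, nat_lit 0, nat_lit 0, nat_lit 0, nat_lit 0, nat_lit 0, [], [nat_lit 20, nat_lit 40, nat_lit 40, nat_lit 80, nat_lit 16, nat_lit 215, nat_lit 10, nat_lit 7]⟩, ⟨p109_k10, nat_lit 0, nat_lit 0, nat_lit 579, nat_lit 0, nat_lit 594229, [nat_lit 3689456000, nat_lit 6270816000, nat_lit 11063646000], [], [nat_lit 30729917320, nat_lit 30846396285, nat_lit 31845239896, nat_lit 31933600612, nat_lit 25852951180, nat_lit 25927747812, nat_lit 26896477668, nat_lit 27013037483], nat_lit 1271250, nat_lit 1271250, nat_lit 1271250, nat_lit 1271250, nat_lit 0, nat_lit 1412500, [nat_lit 1100000, nat_lit 1785000, nat_lit 1271250],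 [nat_lit 37, nat_lit 40, nat_lit 40, nat_lit 80, nat_lit 28, nat_lit 456, nat_lit 225, nat_lit 10]⟩,
 ⟨nat_lit 2738, nat_lit 3163, ⟨.ofNat (nat_lit 727168), .ofNat (nat_lit 788122), .ofNat (nat_lit 738246), .ofNat (nat_lit 799199), .ofNat (nat_lit 722017), .ofNat (nat_lit 781079), .ofNat (nat_lit 733226), .ofNat (nat_lit 792287)⟩, ⟨.ofNat (nat_lit 0), .ofNat (nat_lit 100000), .ofNat (nat_lit 0), .ofNat (nat_lit 100000), .ofNat (nat_lit 0), .ofNat (nat_lit 100000), .ofNat (nat_lit 0), .ofNat (nat_lit 100000)⟩⟩, [⟨nat_lit 13, nat_lit 54, nat_lit 74, nat_lit 100, nat_lit 24922301⟩]⟩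
noncomputable def p109_l96 : Lf2 := ⟨nat_lit 0, nat_lit 20, [nat_lit 5, nat_lit 5, nat_lit 5, nat_lit 20], false, nat_lit 0, nat_lit 40, nat_lit 0, nat_lit 200, ⟨nat_lit 1000, nat_lit 0, nat_lit 0, nat_lit 0, nat_lit 0, nat_lit 0, nat_lit 0, nat_lit 0, nat_lit 0, nat_lit 0, nat_lit 0, nat_lit 0, nat_lit 0, nat_lit 0, nat_lit 0, nat_lit 0, false, false⟩,
 nat_lit 0, nat_lit 0, nat_lit 14090, nat_lit 0, nat_lit 4035, nat_lit 7827, nat_lit 457, nat_lit 0, nat_lit 0, nat_lit 896, nat_lit 0, nat_lit 0, nat_lit 0, nat_lit 0, nat_lit 0, nat_lit 0, nat_lit 0, nat_lit 0, [],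
 ⟨p109_k1, nat_lit 0, nat_lit 0, nat_lit 165, nat_lit 0, nat_lit 0, [nat_lit 938000000, nat_lit 3282000000, nat_lit 6250000000], [], [nat_lit 30232084670, nat_lit 30768938690, nat_lit 32414149766, nat_lit 32993748102, nat_lit 29272064470, nat_lit 29780078420, nat_lit 31363286290, nat_lit 31928070338], nat_lit 0, nat_lit 0, nat_lit 0, nat_lit 0, nat_lit 0, nat_lit 0, [], [nat_lit 20, nat_lit 40, nat_lit 40, nat_lit 80, nat_lit 16, nat_lit 215, nat_lit 10, nat_lit 7]⟩, ⟨p109_k3, nat_lit 0, nat_lit 0, nat_lit 584, nat_lit 0, nat_lit 613494, [nat_lit 4688000000, nat_lit 7968000000, nat_lit 14058000000], [], [nat_lit 37480299456, nat_lit 37629821236, nat_lit 39007177994, nat_lit 39122034714, nat_lit 31483254444, nat_lit 31580818941, nat_lit 32930905475, nat_lit 33076675288], nat_lit 1271250, nat_lit 1271250, nat_lit 1271250, nat_lit 1271250, nat_lit 0, nat_lit 1412500, [nat_lit 1100000, nat_lit 1785000, nat_lit 1271250],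 [nat_lit 37, nat_lit 40, nat_lit 40, nat_lit 80, nat_lit 28, nat_lit 456, nat_lit 225, nat_lit 10]⟩,
 zbF0, [⟨nat_lit 22, nat_lit 75, nat_lit 100, nat_lit 46, nat_lit 14486632⟩]⟩
noncomputable def p109_l97 : Lf2 := ⟨nat_lit 0, nat_lit 20, [nat_lit 5, nat_lit 5, nat_lit 5, nat_lit 20], false, nat_lit 4, nat_lit 40, nat_lit 0, nat_lit 200, ⟨nat_lit 94, nat_lit 906, nat_lit 0, nat_lit 8, nat_lit 298, nat_lit 906, nat_lit 22, nat_lit 0, nat_lit 0, nat_lit 0, nat_lit 0, nat_lit 0, nat_lit 42759541, nat_lit 23812019, nat_lit 428440, nat_lit 3481312, true, true⟩,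
 nat_lit 0, nat_lit 0, nat_lit 1574, nat_lit 0, nat_lit 2685, nat_lit 833, nat_lit 168, nat_lit 0, nat_lit 0, nat_lit 83, nat_lit 0, nat_lit 0, nat_lit 0, nat_lit 0, nat_lit 0, nat_lit 226500, nat_lit 0, nat_lit 0, [(nat_lit 25, [(nat_lit 0, nat_lit 906)])],
 ⟨p109_k6, nat_lit 0, nat_lit 0, nat_lit 159, nat_lit 0, nat_lit 0, [nat_lit 780356001, nat_lit 1548640801, nat_lit 2506408000], [], [nat_lit 27309128934, nat_lit 27776776721, nat_lit 28414387913, nat_lit 28855655371, nat_lit 26987893783, nat_lit 27444413093, nat_lit 28068786682, nat_lit 28499920088], nat_lit 0, nat_lit 0, nat_lit 0, nat_lit 0, nat_lit 0, nat_lit 0, [], [nat_lit 20, nat_lit 40, nat_lit 40, nat_lit 80, nat_lit 16, nat_lit 215, nat_lit 10, nat_lit 7]⟩, ⟨p109_k10, nat_lit 0, nat_lit 0, nat_lit 653, nat_lit 0, nat_lit 807531, [nat_lit 440672000, nat_lit 748992000, nat_lit 1321452000], [], [nat_lit 3604236956, nat_lit 3615055701, nat_lit 3698827646,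 nat_lit 3708067188, nat_lit 3028109638, nat_lit 3037076204, nat_lit 3099395641, nat_lit 3106423530], nat_lit 1271250, nat_lit 1271250, nat_lit 1271250, nat_lit 1271250, nat_lit 0, nat_lit 1412500, [nat_lit 1100000, nat_lit 1785000, nat_lit 1271250], [nat_lit 37, nat_lit 40, nat_lit 40, nat_lit 80, nat_lit 28, nat_lit 428, nat_lit 200, nat_lit 9]⟩,
 ⟨nat_lit 2236, nat_lit 2739, ⟨.ofNat (nat_lit 722017), .ofNat (nat_lit 763360), .ofNat (nat_lit 733226), .ofNat (nat_lit 774569), .ofNat (nat_lit 716594), .ofNat (nat_lit 756505), .ofNat (nat_lit 727981), .ofNat (nat_lit 767892)⟩, ⟨.ofNat (nat_lit 10000), .ofNat (nat_lit 100000), .ofNat (nat_lit 10000), .ofNat (nat_lit 100000), .ofNat (nat_lit 10000), .ofNat (nat_lit 100000), .ofNat (nat_lit 10000), .ofNat (nat_lit 100000)⟩⟩, [⟨nat_lit 13, nat_lit 50, nat_lit 76, nat_lit 100, nat_lit 319204551⟩, ⟨nat_lit 3, nat_lit 100, nat_lit 64, nat_lit 46, nat_lit 168188603⟩]⟩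
noncomputable def p109_l98 : Lf2 := ⟨nat_lit 0, nat_lit 20, [nat_lit 5, nat_lit 5, nat_lit 5, nat_lit 20], false, nat_lit 4, nat_lit 40, nat_lit 0, nat_lit 200, ⟨nat_lit 752, nat_lit 248, nat_lit 0, nat_lit 8, nat_lit 304, nat_lit 248, nat_lit 22, nat_lit 0, nat_lit 0, nat_lit 0, nat_lit 0, nat_lit 0, nat_lit 42123207, nat_lit 24451992, nat_lit 424801, nat_lit 3506800, true, true⟩,
 nat_lit 0, nat_lit 0, nat_lit 10312, nat_lit 0, nat_lit 3139, nat_lit 5728, nat_lit 400, nat_lit 0, nat_lit 0, nat_lit 675, nat_lit 0, nat_lit 0, nat_lit 0, nat_lit 0, nat_lit 0, nat_lit 62000, nat_lit 0, nat_lit 0, [(nat_lit 25, [(nat_lit 0, nat_lit 248)])],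
 ⟨p109_k6, nat_lit 0, nat_lit 0, nat_lit 158, nat_lit 0, nat_lit 0, [nat_lit 894848000, nat_lit 2807526400, nat_lit 5225264000], [], [nat_lit 28363837166, nat_lit 28622514933, nat_lit 29739546150, nat_lit 29987229128, nat_lit 27842418612, nat_lit 28084667369, nat_lit 29139760251, nat_lit 29365862656], nat_lit 0, nat_lit 0, nat_lit 0, nat_lit 0, nat_lit 0, nat_lit 0, [], [nat_lit 20, nat_lit 40, nat_lit 40, nat_lit 80, nat_lit 16, nat_lit 215, nat_lit 10, nat_lit 7]⟩, ⟨p109_k3, nat_lit 0, nat_lit 0, nat_lit 617, nat_lit 0, nat_lit 709132, [nat_lit 3525376000, nat_lit 5991936000, nat_lit 10571616000], [], [nat_lit 28462197602, nat_lit 28575721202, nat_lit 29277692195, nat_lit 29370674802, nat_lit 24132830994, nat_lit 24212851064, nat_lit 24883044221, nat_lit 25001679368], nat_lit 1271250, nat_lit 1271250, nat_lit 1271250, nat_lit 1271250, nat_lit 0, nat_lit 1412500, [nat_lit 1100000, nat_lit 1785000, nat_lit 1271250],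 [nat_lit 37, nat_lit 40, nat_lit 40, nat_lit 80, nat_lit 28, nat_lit 456, nat_lit 225, nat_lit 10]⟩,
 ⟨nat_lit 2500, nat_lit 2739, ⟨.ofNat (nat_lit 733226), .ofNat (nat_lit 780475), .ofNat (nat_lit 744435), .ofNat (nat_lit 791684), .ofNat (nat_lit 730644), .ofNat (nat_lit 777095), .ofNat (nat_lit 741934), .ofNat (nat_lit 788386)⟩, ⟨.ofNat (nat_lit 10000), .ofNat (nat_lit 100000), .ofNat (nat_lit 10000), .ofNat (nat_lit 100000), .ofNat (nat_lit 10000), .ofNat (nat_lit 100000), .ofNat (nat_lit 10000), .ofNat (nat_lit 100000)⟩⟩, [⟨nat_lit 22, nat_lit 76, nat_lit 100, nat_lit 47, nat_lit 22975195⟩]⟩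
noncomputable def p109_l99 : Lf2 := ⟨nat_lit 0, nat_lit 20, [nat_lit 5, nat_lit 5, nat_lit 5, nat_lit 20], false, nat_lit 8, nat_lit 40, nat_lit 0, nat_lit 200, ⟨nat_lit 104, nat_lit 896, nat_lit 0, nat_lit 8, nat_lit 302, nat_lit 896, nat_lit 24, nat_lit 0, nat_lit 0, nat_lit 0, nat_lit 0, nat_lit 0, nat_lit 42317007, nat_lit 24197579, nat_lit 485414, nat_lit 3522252, true, true⟩,
 nat_lit 0, nat_lit 0, nat_lit 1530, nat_lit 0, nat_lit 2268, nat_lit 849, nat_lit 264, nat_lit 0, nat_lit 0, nat_lit 83, nat_lit 0, nat_lit 0, nat_lit 0, nat_lit 0, nat_lit 0, nat_lit 224000, nat_lit 0, nat_lit 0, [(nat_lit 25, [(nat_lit 0, nat_lit 896)])],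
 ⟨p109_k21, nat_lit 0, nat_lit 0, nat_lit 157, nat_lit 0, nat_lit 0, [nat_lit 782096001, nat_lit 1567772801, nat_lit 2547728000], [], [nat_lit 26401076670, nat_lit 26621010456, nat_lit 27440312115, nat_lit 27648476592, nat_lit 26226669281, nat_lit 26442079915, nat_lit 27246330126, nat_lit 27450365955], nat_lit 0, nat_lit 0, nat_lit 0, nat_lit 0, nat_lit 0, nat_lit 0, [], [nat_lit 20, nat_lit 40, nat_lit 40, nat_lit 80, nat_lit 16, nat_lit 215, nat_lit 10, nat_lit 7]⟩, ⟨p109_k3, nat_lit 0, nat_lit 0, nat_lit 650, nat_lit 0, nat_lit 806890, [nat_lit 487552000, nat_lit 828672000, nat_lit 1462032000], [], [nat_lit 4039461852, nat_lit 4047339790, nat_lit 4108988349, nat_lit 4114902448, nat_lit 3396578525, nat_lit 3400145532, nat_lit 3461776264, nat_lit 3470402967], nat_lit 1271250, nat_lit 1271250, nat_lit 1271250, nat_lit 1271250, nat_lit 0, nat_lit 1412500, [nat_lit 1100000, nat_lit 1785000, nat_lit 1271250], [nat_lit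 37, nat_lit 40, nat_lit 40, nat_lit 80, nat_lit 28, nat_lit 456, nat_lit 225, nat_lit 10]⟩,
 ⟨nat_lit 2236, nat_lit 2500, ⟨.ofNat (nat_lit 730644), .ofNat (nat_lit 771289), .ofNat (nat_lit 741934), .ofNat (nat_lit 782579), .ofNat (nat_lit 727981), .ofNat (nat_lit 767892), .ofNat (nat_lit 739368), .ofNat (nat_lit 779279)⟩, ⟨.ofNat (nat_lit 20000), .ofNat (nat_lit 100000), .ofNat (nat_lit 20000), .ofNat (nat_lit 100000), .ofNat (nat_lit 20000), .ofNat (nat_lit 100000), .ofNat (nat_lit 20000), .ofNat (nat_lit 100000)⟩⟩, [⟨nat_lit 13, nat_lit 48, nat_lit 76, nat_lit 100, nat_lit 298972346⟩, ⟨nat_lit 3, nat_lit 100, nat_lit 61, nat_lit 49, nat_lit 132700414⟩]⟩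
noncomputable def p109_l100 : Lf2 := ⟨nat_lit 0, nat_lit 20, [nat_lit 5, nat_lit 5, nat_lit 5, nat_lit 20], false, nat_lit 40, nat_lit 80, nat_lit 0, nat_lit 260, ⟨nat_lit 121, nat_lit 879, nat_lit 0, nat_lit 8, nat_lit 307, nat_lit 879, nat_lit 55, nat_lit 0, nat_lit 0, nat_lit 0, nat_lit 0, nat_lit 0, nat_lit 40936988, nat_lit 24403208, nat_lit 1659804, nat_lit 3937045, true, true⟩,
 nat_lit 0, nat_lit 0, nat_lit 1850, nat_lit 0, nat_lit 2808, nat_lit 979, nat_lit 0, nat_lit 0, nat_lit 0, nat_lit 102, nat_lit 0, nat_lit 0, nat_lit 0, nat_lit 0, nat_lit 0, nat_lit 411600, nat_lit 0, nat_lit 0, [(nat_lit 25, [(nat_lit 1, nat_lit 779), (nat_lit 2, nat_lit 100)])],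
 ⟨p109_k1, nat_lit 0, nat_lit 0, nat_lit 140, nat_lit 0, nat_lit 0, [nat_lit 918437201, nat_lit 1139690534, nat_lit 1079310800], [], [nat_lit 26497330375, nat_lit 26971453899, nat_lit 28305465647, nat_lit 28736956387, nat_lit 26055978151, nat_lit 26517465559, nat_lit 27818990811, nat_lit 28239675313], nat_lit 0, nat_lit 0, nat_lit 0, nat_lit 0, nat_lit 0, nat_lit 0, [], [nat_lit 20, nat_lit 40, nat_lit 40, nat_lit 80, nat_lit 16, nat_lit 226, nat_lit 20, nat_lit 7]⟩, ⟨p109_k10, nat_lit 0, nat_lit 0, nat_lit 602, nat_lit 0, nat_lit 659614, [nat_lit 567248000, nat_lit 964128000, nat_lit 1701018000], [], [nat_lit 4800334712, nat_lit 4815129228, nat_lit 4963693988, nat_lit 4986180883, nat_lit 4023843234, nat_lit 4039838114, nat_lit 4183782871, nat_lit 4210564539], nat_lit 1271250, nat_lit 1271250, nat_lit 1271250, nat_lit 1271250, nat_lit 0, nat_lit 1836250, [nat_lit 1100000, nat_lit 1785000, nat_lit 1271250], [nat_lit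 37, nat_lit 40, nat_lit 40, nat_lit 80, nat_lit 28, nat_lit 456, nat_lit 225, nat_lit 10]⟩,
 ⟨nat_lit 2738, nat_lit 3163, ⟨.ofNat (nat_lit 727168), .ofNat (nat_lit 794217), .ofNat (nat_lit 749323), .ofNat (nat_lit 816372), .ofNat (nat_lit 722017), .ofNat (nat_lit 786985), .ofNat (nat_lit 744435), .ofNat (nat_lit 809402)⟩, ⟨.ofNat (nat_lit 100000), .ofNat (nat_lit 162054), .ofNat (nat_lit 100000), .ofNat (nat_lit 184209), .ofNat (nat_lit 100000), .ofNat (nat_lit 165893), .ofNat (nat_lit 100000), .ofNat (nat_lit 188310)⟩⟩, [⟨nat_lit 13, nat_lit 58, nat_lit 68, nat_lit 100, nat_lit 255223765⟩, ⟨nat_lit 22, nat_lit 70, nat_lit 100, nat_lit 71, nat_lit 11481794⟩]⟩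
noncomputable def p109_l101 : Lf2 := ⟨nat_lit 0, nat_lit 20, [nat_lit 5, nat_lit 5, nat_lit 5, nat_lit 20], false, nat_lit 40, nat_lit 80, nat_lit 0, nat_lit 260, ⟨nat_lit 92, nat_lit 908, nat_lit 0, nat_lit 8, nat_lit 302, nat_lit 908, nat_lit 56, nat_lit 0, nat_lit 0, nat_lit 0, nat_lit 0, nat_lit 0, nat_lit 41487269, nat_lit 23803597, nat_lit 1709134, nat_lit 3927188, true, true⟩,
 nat_lit 0, nat_lit 0, nat_lit 1571, nat_lit 0, nat_lit 2556, nat_lit 831, nat_lit 227, nat_lit 0, nat_lit 0, nat_lit 75, nat_lit 0, nat_lit 0, nat_lit 0, nat_lit 0, nat_lit 0, nat_lit 227000, nat_lit 0, nat_lit 0, [(nat_lit 25, [(nat_lit 0, nat_lit 908)])],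
 ⟨p109_k6, nat_lit 0, nat_lit 0, nat_lit 140, nat_lit 0, nat_lit 0, [nat_lit 780008001, nat_lit 1544814400, nat_lit 2498144000], [], [nat_lit 26268639399, nat_lit 26726772767, nat_lit 27509429177, nat_lit 27940397511, nat_lit 25906437019, nat_lit 26352564775, nat_lit 27117387058, nat_lit 27535625582], nat_lit 0, nat_lit 0, nat_lit 0, nat_lit 0, nat_lit 0, nat_lit 0, [], [nat_lit 20, nat_lit 40, nat_lit 40, nat_lit 80, nat_lit 16, nat_lit 226, nat_lit 20, nat_lit 7]⟩, ⟨p109_k10, nat_lit 0, nat_lit 0, nat_lit 701, nat_lit 0, nat_lit 867653, [nat_lit 431296000, nat_lit 733056000, nat_lit 1293336000], [], [nat_lit 3645502108, nat_lit 3666351330, nat_lit 3752027443, nat_lit 3766964403, nat_lit 2906060240, nat_lit 2917663153, nat_lit 2974378293, nat_lit 2981990481], nat_lit 1271250, nat_lit 1271250, nat_lit 1271250, nat_lit 1271250, nat_lit 0, nat_lit 1836250, [nat_lit 1100000, nat_lit 1785000, nat_lit 1271250], [nat_lit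 37, nat_lit 40, nat_lit 40, nat_lit 80, nat_lit 28, nat_lit 456, nat_lit 225, nat_lit 10]⟩,
 ⟨nat_lit 2236, nat_lit 2739, ⟨.ofNat (nat_lit 722017), .ofNat (nat_lit 769266), .ofNat (nat_lit 744435), .ofNat (nat_lit 791684), .ofNat (nat_lit 716594), .ofNat (nat_lit 762206), .ofNat (nat_lit 739368), .ofNat (nat_lit 784980)⟩, ⟨.ofNat (nat_lit 100000), .ofNat (nat_lit 165893), .ofNat (nat_lit 100000), .ofNat (nat_lit 188310), .ofNat (nat_lit 100000), .ofNat (nat_lit 169532), .ofNat (nat_lit 100000), .ofNat (nat_lit 192306)⟩⟩, [⟨nat_lit 13, nat_lit 50, nat_lit 75, nat_lit 100, nat_lit 310125100⟩, ⟨nat_lit 22, nat_lit 73, nat_lit 100, nat_lit 71, nat_lit 686360⟩]⟩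
noncomputable def p109_l102 : Lf2 := ⟨nat_lit 0, nat_lit 20, [nat_lit 5, nat_lit 5, nat_lit 5, nat_lit 20], false, nat_lit 0, nat_lit 80, nat_lit 0, nat_lit 260, ⟨nat_lit 1000, nat_lit 0, nat_lit 0, nat_lit 0, nat_lit 0, nat_lit 0, nat_lit 0, nat_lit 0, nat_lit 0, nat_lit 0, nat_lit 0, nat_lit 0, nat_lit 0, nat_lit 0, nat_lit 0, nat_lit 0, false, false⟩,
 nat_lit 0, nat_lit 0, nat_lit 16934, nat_lit 0, nat_lit 3992, nat_lit 8964, nat_lit 435, nat_lit 0, nat_lit 0, nat_lit 830, nat_lit 0, nat_lit 0, nat_lit 0, nat_lit 0, nat_lit 0, nat_lit 0, nat_lit 0, nat_lit 0, [],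
 ⟨p109_k1, nat_lit 0, nat_lit 0, nat_lit 172, nat_lit 0, nat_lit 0, [nat_lit 938000000, nat_lit 3282000000, nat_lit 6250000000], [], [nat_lit 30604586654, nat_lit 31636460046, nat_lit 32523267359, nat_lit 33557655324, nat_lit 28716720574, nat_lit 29694686974, nat_lit 30541111448, nat_lit 31483016243], nat_lit 0, nat_lit 0, nat_lit 0, nat_lit 0, nat_lit 0, nat_lit 0, [], [nat_lit 20, nat_lit 40, nat_lit 40, nat_lit 80, nat_lit 16, nat_lit 226, nat_lit 20, nat_lit 7]⟩, ⟨p109_k10, nat_lit 0, nat_lit 0, nat_lit 470, nat_lit 0, nat_lit 420254, [nat_lit 4688000000, nat_lit 7968000000, nat_lit 14058000000], [], [nat_lit 39358425600, nat_lit 39586478344, nat_lit 40977188044, nat_lit 41545800223, nat_lit 30678283628, nat_lit 30785719282, nat_lit 32416485387, nat_lit 32743749697], nat_lit 1271250, nat_lit 1271250, nat_lit 1271250, nat_lit 1271250, nat_lit 0, nat_lit 1836250, [nat_lit 1100000, nat_lit 1785000, nat_lit 1271250],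 [nat_lit 37, nat_lit 40, nat_lit 40, nat_lit 80, nat_lit 28, nat_lit 456, nat_lit 225, nat_lit 10]⟩,
 zbF0, [⟨nat_lit 13, nat_lit 44, nat_lit 81, nat_lit 100, nat_lit 36760007⟩, ⟨nat_lit 22, nat_lit 71, nat_lit 100, nat_lit 61, nat_lit 3650326⟩]⟩
noncomputable def b_V_900_600_10_18 : St := ⟨true, nat_lit 0, nat_lit 1, nat_lit 1, nat_lit 80, nat_lit 360, nat_lit 380, nat_lit 240, nat_lit 260, nat_lit 320, nat_lit 376, nat_lit 40, nat_lit 80, nat_lit 0, nat_lit 80, nat_lit 0, nat_lit 260, nat_lit 80, nat_lit 120, nat_lit 0, nat_lit 0, nat_lit 0, nat_lit 0⟩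
theorem d_V_900_600_10_18 (h : EB TB.env) : Dead b_V_900_600_10_18 := chkB_sound0 h (T :=
(.trX (nat_lit 13) (nat_lit 63) (nat_lit 61) (nat_lit 100) (nat_lit 364) (.spl (nat_lit 3) (nat_lit 60)
(.spl (nat_lit 0) (nat_lit 370)
(.spl (nat_lit 1) (nat_lit 250)
(.trX (nat_lit 13) (nat_lit 62) (nat_lit 65) (nat_lit 100) (nat_lit 360) (.leaf p109_l91))
(.spl (nat_lit 0) (nat_lit 365)
(.leaf p109_l92)
(.trX (nat_lit 13) (nat_lit 59) (nat_lit 65) (nat_lit 100) (nat_lit 360) (.leaf p109_l93))))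
(.trX (nat_lit 13) (nat_lit 55) (nat_lit 68) (nat_lit 100) (nat_lit 352) (.leaf p109_l94)))
(.spl (nat_lit 6) (nat_lit 100)
(.spl (nat_lit 4) (nat_lit 40)
(.trX (nat_lit 22) (nat_lit 80) (nat_lit 100) (nat_lit 60) (nat_lit 200) (.spl (nat_lit 0) (nat_lit 370)
(.spl (nat_lit 1) (nat_lit 250)
(.trX (nat_lit 13) (nat_lit 62) (nat_lit 65) (nat_lit 100) (nat_lit 360) (.leaf p109_l95))
(.leaf p109_l96))
(.trX (nat_lit 13) (nat_lit 55) (nat_lit 68) (nat_lit 100) (nat_lit 352) (.trZ (nat_lit 3) (nat_lit 100) (nat_lit 74) (nat_lit 33) (nat_lit 4) (.spl (nat_lit 1) (nat_lit 250)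
(.trX (nat_lit 13) (nat_lit 54) (nat_lit 71) (nat_lit 100) (nat_lit 348) (.leaf p109_l97))
(.spl (nat_lit 0) (nat_lit 375)
(.leaf p109_l98)
(.trX (nat_lit 13) (nat_lit 51) (nat_lit 72) (nat_lit 100) (nat_lit 348) (.trZ (nat_lit 3) (nat_lit 100) (nat_lit 68) (nat_lit 40) (nat_lit 8) (.leaf p109_l99)))))))))
(.spl (nat_lit 0) (nat_lit 370)
(.leaf p109_l100)
(.trX (nat_lit 13) (nat_lit 55) (nat_lit 68) (nat_lit 100) (nat_lit 352) (.leaf p109_l101))))
(.leaf p109_l102))))) (by decide +kernel)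
noncomputable def p109_l103 : Lf2 := ⟨nat_lit 0, nat_lit 15, [nat_lit 30, nat_lit 5, nat_lit 5, nat_lit 20], false, nat_lit 0, nat_lit 80, nat_lit 0, nat_lit 160, ⟨nat_lit 1000, nat_lit 0, nat_lit 0, nat_lit 0, nat_lit 0, nat_lit 0, nat_lit 0, nat_lit 0, nat_lit 0, nat_lit 0, nat_lit 0, nat_lit 0, nat_lit 0, nat_lit 0, nat_lit 0, nat_lit 0, false, false⟩,
 nat_lit 0, nat_lit 0, nat_lit 13299, nat_lit 0, nat_lit 4005, nat_lit 7741, nat_lit 452, nat_lit 0, nat_lit 0, nat_lit 818, nat_lit 0, nat_lit 0, nat_lit 0, nat_lit 0, nat_lit 0, nat_lit 0, nat_lit 0, nat_lit 0, [],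
 ⟨p109_k12, nat_lit 0, nat_lit 0, nat_lit 170, nat_lit 0, nat_lit 0, [nat_lit 938000000, nat_lit 3282000000, nat_lit 6250000000], [], [nat_lit 30326453060, nat_lit 30584790530, nat_lit 33107745633, nat_lit 33387269575, nat_lit 28428859860, nat_lit 28673693360, nat_lit 30993984725, nat_lit 31259533053], nat_lit 0, nat_lit 0, nat_lit 0, nat_lit 0, nat_lit 0, nat_lit 0, [], [nat_lit 20, nat_lit 40, nat_lit 40, nat_lit 80, nat_lit 16, nat_lit 226, nat_lit 20, nat_lit 7]⟩, ⟨p109_k14, nat_lit 0, nat_lit 0, nat_lit 566, nat_lit 0, nat_lit 728147, [nat_lit 4688000000, nat_lit 7968000000, nat_lit 11872000000], [], [nat_lit 36789070334, nat_lit 37008268854, nat_lit 38604983299, nat_lit 38836516904, nat_lit 31699755780, nat_lit 31946779680, nat_lit 33286743159, nat_lit 33454874463], nat_lit 1271250, nat_lit 1271250, nat_lit 1271250, nat_lit 1271250, nat_lit 0, nat_lit 1100001, [nat_lit 1100000, nat_lit 1785000, nat_lit 1271250],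 [nat_lit 21, nat_lit 40, nat_lit 40, nat_lit 80, nat_lit 14, nat_lit 345, nat_lit 125, nat_lit 8]⟩,
 zbF0, []⟩
noncomputable def p109_l104 : Lf2 := ⟨nat_lit 0, nat_lit 15, [nat_lit 30, nat_lit 5, nat_lit 5, nat_lit 20], false, nat_lit 0, nat_lit 80, nat_lit 0, nat_lit 160, ⟨nat_lit 827, nat_lit 173, nat_lit 0, nat_lit 8, nat_lit 318, nat_lit 173, nat_lit 31, nat_lit 0, nat_lit 0, nat_lit 0, nat_lit 0, nat_lit 0, nat_lit 41031734, nat_lit 25968266, nat_lit 0, nat_lit 3338279, true, true⟩,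
 nat_lit 0, nat_lit 0, nat_lit 10633, nat_lit 0, nat_lit 3391, nat_lit 6189, nat_lit 409, nat_lit 0, nat_lit 0, nat_lit 678, nat_lit 0, nat_lit 0, nat_lit 0, nat_lit 0, nat_lit 0, nat_lit 77600, nat_lit 0, nat_lit 0, [(nat_lit 25, [(nat_lit 1, nat_lit 159), (nat_lit 2, nat_lit 14)])],
 ⟨p109_k19, nat_lit 0, nat_lit 0, nat_lit 170, nat_lit 0, nat_lit 0, [nat_lit 930606801, nat_lit 2868220134, nat_lit 5259683600], [], [nat_lit 28996567696, nat_lit 29237471250, nat_lit 31371727168, nat_lit 31681418678, nat_lit 27551390148, nat_lit 27775336784, nat_lit 29667014419, nat_lit 29895762774], nat_lit 0, nat_lit 0, nat_lit 0, nat_lit 0, nat_lit 0, nat_lit 0, [], [nat_lit 20, nat_lit 40, nat_lit 40, nat_lit 80, nat_lit 16, nat_lit 226, nat_lit 20, nat_lit 7]⟩, ⟨p109_k14, nat_lit 0, nat_lit 0, nat_lit 597, nat_lit 0, nat_lit 814675, [nat_lit 3876976000, nat_lit 6589536000, nat_lit 9818144000], [], [nat_lit 31072487448, nat_lit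 31260225296, nat_lit 32437140950, nat_lit 32638171342, nat_lit 27234355404, nat_lit 27386291252, nat_lit 28264820497, nat_lit 28413682300], nat_lit 1271250, nat_lit 1271250, nat_lit 1271250, nat_lit 1271250, nat_lit 0, nat_lit 1100001, [nat_lit 1100000, nat_lit 1785000, nat_lit 1271250], [nat_lit 21, nat_lit 40, nat_lit 40, nat_lit 80, nat_lit 14, nat_lit 345, nat_lit 125, nat_lit 8]⟩,
 ⟨nat_lit 2738, nat_lit 2959, ⟨.ofNat (nat_lit 746893), .ofNat (nat_lit 824920), .ofNat (nat_lit 769170), .ofNat (nat_lit 847197), .ofNat (nat_lit 744435), .ofNat (nat_lit 821214), .ofNat (nat_lit 766852), .ofNat (nat_lit 843632)⟩, ⟨.ofNat (nat_lit 0), .ofNat (nat_lit 141719), .ofNat (nat_lit 0), .ofNat (nat_lit 163996), .ofNat (nat_lit 0), .ofNat (nat_lit 143475), .ofNat (nat_lit 0), .ofNat (nat_lit 165893)⟩⟩, []⟩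
noncomputable def p109_l105 : Lf2 := ⟨nat_lit 0, nat_lit 15, [nat_lit 30, nat_lit 5, nat_lit 5, nat_lit 20], false, nat_lit 16, nat_lit 80, nat_lit 160, nat_lit 260, ⟨nat_lit 383, nat_lit 617, nat_lit 0, nat_lit 8, nat_lit 320, nat_lit 617, nat_lit 39, nat_lit 0, nat_lit 0, nat_lit 0, nat_lit 0, nat_lit 0, nat_lit 40199358, nat_lit 25840087, nat_lit 960555, nat_lit 3765214, true, true⟩,
 nat_lit 0, nat_lit 0, nat_lit 4718, nat_lit 0, nat_lit 3536, nat_lit 2746, nat_lit 0, nat_lit 0, nat_lit 0, nat_lit 312, nat_lit 0, nat_lit 0, nat_lit 0, nat_lit 0, nat_lit 0, nat_lit 328400, nat_lit 0, nat_lit 0, [(nat_lit 25, [(nat_lit 1, nat_lit 481), (nat_lit 2, nat_lit 136)])],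
 ⟨p109_k12, nat_lit 0, nat_lit 0, nat_lit 157, nat_lit 0, nat_lit 0, [nat_lit 965305201, nat_lit 1687225201, nat_lit 2303724400], [], [nat_lit 28359978903, nat_lit 28952373476, nat_lit 31214499700, nat_lit 31802513730, nat_lit 26883448323, nat_lit 27378351472, nat_lit 29560660176, nat_lit 30056685386], nat_lit 0, nat_lit 0, nat_lit 0, nat_lit 0, nat_lit 0, nat_lit 0, [], [nat_lit 20, nat_lit 40, nat_lit 40, nat_lit 80, nat_lit 16, nat_lit 226, nat_lit 20, nat_lit 7]⟩, ⟨p109_k14, nat_lit 0, nat_lit 0, nat_lit 501, nat_lit 0, nat_lit 814675, [nat_lit 1795504000, nat_lit 3051744000, nat_lit 4546976000], [], [nat_lit 12258335326, nat_lit 12347894748, nat_lit 12916969639, nat_lit 13003301277, nat_lit 12404282601, nat_lit 12494309499, nat_lit 13025671293, nat_lit 13110236282], nat_lit 1271250, nat_lit 1271250, nat_lit 1271250, nat_lit 1271250, nat_lit 1100001, nat_lit 1956250, [nat_lit 1100000, nat_lit 1785000, nat_lit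 1271250], [nat_lit 21, nat_lit 40, nat_lit 40, nat_lit 80, nat_lit 14, nat_lit 373, nat_lit 150, nat_lit 9]⟩,
 ⟨nat_lit 2738, nat_lit 3163, ⟨.ofNat (nat_lit 749323), .ofNat (nat_lit 834658), .ofNat (nat_lit 771478), .ofNat (nat_lit 856813), .ofNat (nat_lit 744435), .ofNat (nat_lit 827121), .ofNat (nat_lit 766852), .ofNat (nat_lit 849538)⟩, ⟨.ofNat (nat_lit 40000), .ofNat (nat_lit 139899), .ofNat (nat_lit 40000), .ofNat (nat_lit 162054), .ofNat (nat_lit 40000), .ofNat (nat_lit 143475), .ofNat (nat_lit 40000), .ofNat (nat_lit 165893)⟩⟩, [⟨nat_lit 22, nat_lit 67, nat_lit 100, nat_lit 77, nat_lit 166434333⟩]⟩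
noncomputable def p109_l106 : Lf2 := ⟨nat_lit 0, nat_lit 15, [nat_lit 30, nat_lit 5, nat_lit 5, nat_lit 20], false, nat_lit 0, nat_lit 80, nat_lit 0, nat_lit 260, ⟨nat_lit 129, nat_lit 871, nat_lit 0, nat_lit 8, nat_lit 316, nat_lit 871, nat_lit 31, nat_lit 0, nat_lit 0, nat_lit 0, nat_lit 0, nat_lit 0, nat_lit 41270812, nat_lit 25729188, nat_lit 0, nat_lit 3329983, true, true⟩,
 nat_lit 0, nat_lit 0, nat_lit 1732, nat_lit 0, nat_lit 2610, nat_lit 1008, nat_lit 156, nat_lit 0, nat_lit 0, nat_lit 106, nat_lit 0, nat_lit 0, nat_lit 0, nat_lit 0, nat_lit 0, nat_lit 217750, nat_lit 0, nat_lit 0, [(nat_lit 25, [(nat_lit 0, nat_lit 871)])],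
 ⟨p109_k20, nat_lit 0, nat_lit 0, nat_lit 161, nat_lit 0, nat_lit 0, [nat_lit 786446001, nat_lit 1615602800, nat_lit 2099039600], [], [nat_lit 27192456351, nat_lit 27430974446, nat_lit 29212301312, nat_lit 29493330989, nat_lit 26447385671, nat_lit 26673582546, nat_lit 28307415138, nat_lit 28512266217], nat_lit 0, nat_lit 0, nat_lit 0, nat_lit 0, nat_lit 0, nat_lit 0, [], [nat_lit 35, nat_lit 40, nat_lit 40, nat_lit 80, nat_lit 22, nat_lit 226, nat_lit 20, nat_lit 8]⟩, ⟨p109_k14, nat_lit 0, nat_lit 0, nat_lit 658, nat_lit 0, nat_lit 903068, [nat_lit 604752000, nat_lit 1027872000, nat_lit 1531488000], [], [nat_lit 4710050616, nat_lit 4741285032, nat_lit 4909198909, nat_lit 4940654902, nat_lit 4060686590, nat_lit 4080894072, nat_lit 4198105200, nat_lit 4210827963], nat_lit 1271250, nat_lit 1271250, nat_lit 1271250, nat_lit 1271250, nat_lit 0, nat_lit 1836250, [nat_lit 1100000, nat_lit 1785000, nat_lit 1271250], [nat_lit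 21, nat_lit 40, nat_lit 40, nat_lit 80, nat_lit 14, nat_lit 373, nat_lit 150, nat_lit 9]⟩,
 ⟨nat_lit 2500, nat_lit 2739, ⟨.ofNat (nat_lit 744435), .ofNat (nat_lit 815308), .ofNat (nat_lit 766852), .ofNat (nat_lit 837726), .ofNat (nat_lit 741934), .ofNat (nat_lit 811611), .ofNat (nat_lit 764515), .ofNat (nat_lit 834192)⟩, ⟨.ofNat (nat_lit 0), .ofNat (nat_lit 143475), .ofNat (nat_lit 0), .ofNat (nat_lit 165893), .ofNat (nat_lit 0), .ofNat (nat_lit 145160), .ofNat (nat_lit 0), .ofNat (nat_lit 167740)⟩⟩, [⟨nat_lit 13, nat_lit 54, nat_lit 67, nat_lit 100, nat_lit 232594478⟩, ⟨nat_lit 10, nat_lit 100, nat_lit 58, nat_lit 64, nat_lit 21456621⟩]⟩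
noncomputable def p109_l107 : Lf2 := ⟨nat_lit 0, nat_lit 15, [nat_lit 30, nat_lit 5, nat_lit 5, nat_lit 20], false, nat_lit 0, nat_lit 80, nat_lit 0, nat_lit 260, ⟨nat_lit 119, nat_lit 881, nat_lit 0, nat_lit 8, nat_lit 312, nat_lit 881, nat_lit 31, nat_lit 0, nat_lit 0, nat_lit 0, nat_lit 0, nat_lit 0, nat_lit 41625611, nat_lit 25374389, nat_lit 0, nat_lit 3317174, true, true⟩,
 nat_lit 0, nat_lit 0, nat_lit 1661, nat_lit 0, nat_lit 2493, nat_lit 966, nat_lit 163, nat_lit 0, nat_lit 0, nat_lit 88, nat_lit 0, nat_lit 0, nat_lit 0, nat_lit 0, nat_lit 0, nat_lit 220250, nat_lit 0, nat_lit 0, [(nat_lit 25, [(nat_lit 0, nat_lit 881)])],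
 ⟨p109_k22, nat_lit 0, nat_lit 0, nat_lit 160, nat_lit 0, nat_lit 0, [nat_lit 784706000, nat_lit 1596470801, nat_lit 2069315600], [], [nat_lit 27121392669, nat_lit 27355998342, nat_lit 28722215294, nat_lit 29004258226, nat_lit 26448924049, nat_lit 26671507086, nat_lit 27945254442, nat_lit 28152273805], nat_lit 0, nat_lit 0, nat_lit 0, nat_lit 0, nat_lit 0, nat_lit 0, [], [nat_lit 35, nat_lit 40, nat_lit 40, nat_lit 80, nat_lit 22, nat_lit 226, nat_lit 20, nat_lit 8]⟩, ⟨p109_k14, nat_lit 0, nat_lit 0, nat_lit 691, nat_lit 0, nat_lit 993427, [nat_lit 557872000, nat_lit 948192000, nat_lit 1412768000], [], [nat_lit 4401304828, nat_lit 4451134328, nat_lit 4609114332, nat_lit 4648082856, nat_lit 3656629053, nat_lit 3674364732, nat_lit 3759300590, nat_lit 3771129148], nat_lit 1271250, nat_lit 1271250, nat_lit 1271250, nat_lit 1271250, nat_lit 0, nat_lit 1836250, [nat_lit 1100000, nat_lit 1785000, nat_lit 1271250], [nat_lit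 21, nat_lit 40, nat_lit 40, nat_lit 80, nat_lit 14, nat_lit 373, nat_lit 150, nat_lit 9]⟩,
 ⟨nat_lit 2236, nat_lit 2500, ⟨.ofNat (nat_lit 741934), .ofNat (nat_lit 799999), .ofNat (nat_lit 764515), .ofNat (nat_lit 822579), .ofNat (nat_lit 739368), .ofNat (nat_lit 796384), .ofNat (nat_lit 762142), .ofNat (nat_lit 819158)⟩, ⟨.ofNat (nat_lit 0), .ofNat (nat_lit 145160), .ofNat (nat_lit 0), .ofNat (nat_lit 167740), .ofNat (nat_lit 0), .ofNat (nat_lit 146758), .ofNat (nat_lit 0), .ofNat (nat_lit 169532)⟩⟩, [⟨nat_lit 13, nat_lit 49, nat_lit 72, nat_lit 100, nat_lit 274858218⟩, ⟨nat_lit 22, nat_lit 72, nat_lit 100, nat_lit 61, nat_lit 7673175⟩]⟩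
noncomputable def p109_l108 : Lf2 := ⟨nat_lit 0, nat_lit 20, [nat_lit 5, nat_lit 5, nat_lit 5, nat_lit 20], false, nat_lit 0, nat_lit 40, nat_lit 0, nat_lit 200, ⟨nat_lit 1000, nat_lit 0, nat_lit 0, nat_lit 0, nat_lit 0, nat_lit 0, nat_lit 0, nat_lit 0, nat_lit 0, nat_lit 0, nat_lit 0, nat_lit 0, nat_lit 0, nat_lit 0, nat_lit 0, nat_lit 0, false, false⟩,
 nat_lit 0, nat_lit 0, nat_lit 12958, nat_lit 0, nat_lit 4040, nat_lit 7542, nat_lit 456, nat_lit 0, nat_lit 0, nat_lit 855, nat_lit 0, nat_lit 0, nat_lit 0, nat_lit 0, nat_lit 0, nat_lit 0, nat_lit 0, nat_lit 0, [],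
 ⟨p109_k1, nat_lit 0, nat_lit 0, nat_lit 170, nat_lit 0, nat_lit 0, [nat_lit 938000000, nat_lit 3282000000, nat_lit 6250000000], [], [nat_lit 30245678480, nat_lit 30776034360, nat_lit 32884226673, nat_lit 33547397713, nat_lit 29283787680, nat_lit 29788872940, nat_lit 31819298289, nat_lit 32372482602], nat_lit 0, nat_lit 0, nat_lit 0, nat_lit 0, nat_lit 0, nat_lit 0, [], [nat_lit 20, nat_lit 40, nat_lit 40, nat_lit 80, nat_lit 16, nat_lit 215, nat_lit 10, nat_lit 7]⟩, ⟨p109_k4, nat_lit 0, nat_lit 0, nat_lit 532, nat_lit 0, nat_lit 635065, [nat_lit 4688000000, nat_lit 7968000000, nat_lit 11872000000], [], [nat_lit 35845349182, nat_lit 35975369280, nat_lit 37760440982, nat_lit 37900409442, nat_lit 30376054779, nat_lit 30508453407, nat_lit 32229776281, nat_lit 32370253402], nat_lit 1271250, nat_lit 1271250, nat_lit 1271250, nat_lit 1271250, nat_lit 0, nat_lit 1412500, [nat_lit 1100000, nat_lit 1785000, nat_lit 1271250],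 [nat_lit 21, nat_lit 40, nat_lit 40, nat_lit 80, nat_lit 14, nat_lit 345, nat_lit 125, nat_lit 8]⟩,
 zbF0, [⟨nat_lit 22, nat_lit 80, nat_lit 100, nat_lit 60, nat_lit 37314390⟩]⟩
noncomputable def p109_l109 : Lf2 := ⟨nat_lit 0, nat_lit 20, [nat_lit 5, nat_lit 5, nat_lit 5, nat_lit 20], false, nat_lit 4, nat_lit 40, nat_lit 0, nat_lit 200, ⟨nat_lit 1000, nat_lit 0, nat_lit 0, nat_lit 0, nat_lit 0, nat_lit 0, nat_lit 0, nat_lit 0, nat_lit 0, nat_lit 0, nat_lit 0, nat_lit 0, nat_lit 0, nat_lit 0, nat_lit 0, nat_lit 0, false, false⟩,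
 nat_lit 0, nat_lit 0, nat_lit 13931, nat_lit 0, nat_lit 3293, nat_lit 8109, nat_lit 539, nat_lit 0, nat_lit 0, nat_lit 826, nat_lit 0, nat_lit 0, nat_lit 0, nat_lit 0, nat_lit 0, nat_lit 0, nat_lit 0, nat_lit 0, [],
 ⟨p109_k6, nat_lit 0, nat_lit 0, nat_lit 160, nat_lit 0, nat_lit 0, [nat_lit 938000000, nat_lit 3282000000, nat_lit 6250000000], [], [nat_lit 28253092712, nat_lit 28604890642, nat_lit 30539060022, nat_lit 30854799225, nat_lit 27588677794, nat_lit 27835671753, nat_lit 29450231257, nat_lit 29745642205], nat_lit 0, nat_lit 0, nat_lit 0, nat_lit 0, nat_lit 0, nat_lit 0, [], [nat_lit 20, nat_lit 40, nat_lit 40, nat_lit 80, nat_lit 16, nat_lit 215, nat_lit 10, nat_lit 7]⟩, ⟨p109_k4, nat_lit 0, nat_lit 0, nat_lit 563, nat_lit 0, nat_lit 721989, [nat_lit 4688000000, nat_lit 7968000000, nat_lit 11872000000], [], [nat_lit 35597718068, nat_lit 35807099118, nat_lit 37343202750, nat_lit 37506990045, nat_lit 30072884506,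 nat_lit 30175631922, nat_lit 31077382442, nat_lit 31152758447], nat_lit 1271250, nat_lit 1271250, nat_lit 1271250, nat_lit 1271250, nat_lit 0, nat_lit 1412500, [nat_lit 1100000, nat_lit 1785000, nat_lit 1271250], [nat_lit 21, nat_lit 40, nat_lit 40, nat_lit 80, nat_lit 14, nat_lit 345, nat_lit 125, nat_lit 8]⟩,
 zbF0, []⟩
noncomputable def p109_l110 : Lf2 := ⟨nat_lit 0, nat_lit 20, [nat_lit 5, nat_lit 5, nat_lit 5, nat_lit 20], false, nat_lit 8, nat_lit 40, nat_lit 0, nat_lit 200, ⟨nat_lit 505, nat_lit 495, nat_lit 0, nat_lit 8, nat_lit 308, nat_lit 495, nat_lit 24, nat_lit 0, nat_lit 0, nat_lit 0, nat_lit 0, nat_lit 0, nat_lit 41745780, nat_lit 24772619, nat_lit 481601, nat_lit 3543942, true, true⟩,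
 nat_lit 0, nat_lit 0, nat_lit 6991, nat_lit 0, nat_lit 2437, nat_lit 4069, nat_lit 404, nat_lit 0, nat_lit 0, nat_lit 436, nat_lit 0, nat_lit 0, nat_lit 0, nat_lit 0, nat_lit 0, nat_lit 123750, nat_lit 0, nat_lit 0, [(nat_lit 25, [(nat_lit 0, nat_lit 495)])],
 ⟨p109_k21, nat_lit 0, nat_lit 0, nat_lit 158, nat_lit 0, nat_lit 0, [nat_lit 851870001, nat_lit 2334966000, nat_lit 4204660000], [], [nat_lit 26868537519, nat_lit 27093850068, nat_lit 28079477746, nat_lit 28291441644, nat_lit 26647085329, nat_lit 26867703360, nat_lit 27834893977, nat_lit 28044964931], nat_lit 0, nat_lit 0, nat_lit 0, nat_lit 0, nat_lit 0, nat_lit 0, [], [nat_lit 20, nat_lit 40, nat_lit 40, nat_lit 80, nat_lit 16, nat_lit 215, nat_lit 10, nat_lit 7]⟩, ⟨p109_k4, nat_lit 0, nat_lit 0, nat_lit 595, nat_lit 0, nat_lit 810862, [nat_lit 2367440000, nat_lit 4023840000, nat_lit 5995360000], [], [nat_lit 17874611456, nat_lit 17956016064, nat_lit 18414624884,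 nat_lit 18482131706, nat_lit 15170215106, nat_lit 15222357167, nat_lit 15575480035, nat_lit 15616621949], nat_lit 1271250, nat_lit 1271250, nat_lit 1271250, nat_lit 1271250, nat_lit 0, nat_lit 1412500, [nat_lit 1100000, nat_lit 1785000, nat_lit 1271250], [nat_lit 21, nat_lit 40, nat_lit 40, nat_lit 80, nat_lit 14, nat_lit 345, nat_lit 125, nat_lit 8]⟩,
 ⟨nat_lit 2236, nat_lit 2500, ⟨.ofNat (nat_lit 741934), .ofNat (nat_lit 788386), .ofNat (nat_lit 753224), .ofNat (nat_lit 799676), .ofNat (nat_lit 739368), .ofNat (nat_lit 784980), .ofNat (nat_lit 750755), .ofNat (nat_lit 796368)⟩, ⟨.ofNat (nat_lit 20000), .ofNat (nat_lit 100000), .ofNat (nat_lit 20000), .ofNat (nat_lit 100000), .ofNat (nat_lit 20000), .ofNat (nat_lit 100000), .ofNat (nat_lit 20000), .ofNat (nat_lit 100000)⟩⟩, [⟨nat_lit 13, nat_lit 46, nat_lit 76, nat_lit 100, nat_lit 54423195⟩, ⟨nat_lit 22, nat_lit 76, nat_lit 100, nat_lit 49, nat_lit 19210827⟩]⟩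
noncomputable def p109_l111 : Lf2 := ⟨nat_lit 0, nat_lit 20, [nat_lit 5, nat_lit 5, nat_lit 5, nat_lit 20], false, nat_lit 0, nat_lit 40, nat_lit 0, nat_lit 200, ⟨nat_lit 862, nat_lit 138, nat_lit 0, nat_lit 8, nat_lit 321, nat_lit 138, nat_lit 20, nat_lit 0, nat_lit 0, nat_lit 0, nat_lit 0, nat_lit 0, nat_lit 40754774, nat_lit 26245226, nat_lit 0, nat_lit 3347555, true, true⟩,
 nat_lit 0, nat_lit 0, nat_lit 10509, nat_lit 0, nat_lit 3549, nat_lit 6400, nat_lit 355, nat_lit 0, nat_lit 0, nat_lit 857, nat_lit 0, nat_lit 0, nat_lit 0, nat_lit 0, nat_lit 0, nat_lit 138000, nat_lit 0, nat_lit 0, [(nat_lit 25, [(nat_lit 2, nat_lit 138)])],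
 ⟨p109_k1, nat_lit 0, nat_lit 0, nat_lit 180, nat_lit 0, nat_lit 0, [nat_lit 1011195200, nat_lit 2776515201, nat_lit 4849465600], [], [nat_lit 29295652538, nat_lit 30312604306, nat_lit 31954209276, nat_lit 33014775658, nat_lit 28517454658, nat_lit 29496655568, nat_lit 31080791667, nat_lit 32114908128], nat_lit 0, nat_lit 0, nat_lit 0, nat_lit 0, nat_lit 0, nat_lit 0, [], [nat_lit 20, nat_lit 40, nat_lit 40, nat_lit 80, nat_lit 16, nat_lit 215, nat_lit 10, nat_lit 7]⟩, ⟨p109_k5, nat_lit 0, nat_lit 0, nat_lit 596, nat_lit 0, nat_lit 818300, [nat_lit 4041056000, nat_lit 6868416000, nat_lit 10233664000], [], [nat_lit 28738075034, nat_lit 28879532544, nat_lit 31108508106, nat_lit 31387609306, nat_lit 24762891197, nat_lit 24830350876, nat_lit 25851965066, nat_lit 25915334817], nat_lit 1271250, nat_lit 1271250, nat_lit 1271250, nat_lit 1271250, nat_lit 0, nat_lit 1412500, [nat_lit 1100000, nat_lit 1785000, nat_lit 1271250],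 [nat_lit 21, nat_lit 40, nat_lit 40, nat_lit 80, nat_lit 14, nat_lit 345, nat_lit 125, nat_lit 8]⟩,
 ⟨nat_lit 2236, nat_lit 3163, ⟨.ofNat (nat_lit 760401), .ofNat (nat_lit 845735), .ofNat (nat_lit 771478), .ofNat (nat_lit 856813), .ofNat (nat_lit 750755), .ofNat (nat_lit 830577), .ofNat (nat_lit 762142), .ofNat (nat_lit 841964)⟩, ⟨.ofNat (nat_lit 0), .ofNat (nat_lit 100000), .ofNat (nat_lit 0), .ofNat (nat_lit 100000), .ofNat (nat_lit 0), .ofNat (nat_lit 100000), .ofNat (nat_lit 0), .ofNat (nat_lit 100000)⟩⟩, [⟨nat_lit 22, nat_lit 72, nat_lit 100, nat_lit 47, nat_lit 1359778⟩]⟩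
noncomputable def p109_l112 : Lf2 := ⟨nat_lit 0, nat_lit 20, [nat_lit 5, nat_lit 5, nat_lit 5, nat_lit 20], false, nat_lit 40, nat_lit 80, nat_lit 0, nat_lit 260, ⟨nat_lit 1000, nat_lit 0, nat_lit 0, nat_lit 0, nat_lit 0, nat_lit 0, nat_lit 0, nat_lit 0, nat_lit 0, nat_lit 0, nat_lit 0, nat_lit 0, nat_lit 0, nat_lit 0, nat_lit 0, nat_lit 0, false, false⟩,
 nat_lit 0, nat_lit 0, nat_lit 13624, nat_lit 0, nat_lit 5089, nat_lit 7930, nat_lit 0, nat_lit 0, nat_lit 0, nat_lit 809, nat_lit 0, nat_lit 0, nat_lit 0, nat_lit 0, nat_lit 0, nat_lit 0, nat_lit 0, nat_lit 0, [],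
 ⟨p109_k1, nat_lit 0, nat_lit 0, nat_lit 143, nat_lit 0, nat_lit 0, [nat_lit 938000000, nat_lit 3282000000, nat_lit 6250000000], [], [nat_lit 32365957964, nat_lit 33065298176, nat_lit 35425816792, nat_lit 36031698329, nat_lit 30831480332, nat_lit 31445876035, nat_lit 33712277568, nat_lit 34303632159], nat_lit 0, nat_lit 0, nat_lit 0, nat_lit 0, nat_lit 0, nat_lit 0, [], [nat_lit 20, nat_lit 40, nat_lit 40, nat_lit 80, nat_lit 16, nat_lit 226, nat_lit 20, nat_lit 7]⟩, ⟨p109_k4, nat_lit 0, nat_lit 0, nat_lit 532, nat_lit 0, nat_lit 635065, [nat_lit 4688000000, nat_lit 7968000000, nat_lit 11872000000], [], [nat_lit 35979613110, nat_lit 36189271610, nat_lit 38302192138, nat_lit 38453342834, nat_lit 29932677640, nat_lit 30028888083, nat_lit 31578738530, nat_lit 31684283905], nat_lit 1271250, nat_lit 1271250, nat_lit 1271250, nat_lit 1271250, nat_lit 0, nat_lit 1836250, [nat_lit 1100000, nat_lit 1785000, nat_lit 1271250],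 [nat_lit 21, nat_lit 40, nat_lit 40, nat_lit 80, nat_lit 14, nat_lit 373, nat_lit 150, nat_lit 9]⟩,
 zbF0, [⟨nat_lit 22, nat_lit 68, nat_lit 100, nat_lit 71, nat_lit 96767887⟩]⟩
noncomputable def p109_l113 : Lf2 := ⟨nat_lit 0, nat_lit 20, [nat_lit 5, nat_lit 5, nat_lit 5, nat_lit 20], false, nat_lit 40, nat_lit 80, nat_lit 0, nat_lit 260, ⟨nat_lit 119, nat_lit 881, nat_lit 0, nat_lit 8, nat_lit 311, nat_lit 881, nat_lit 56, nat_lit 0, nat_lit 0, nat_lit 0, nat_lit 0, nat_lit 0, nat_lit 40612861, nat_lit 24700014, nat_lit 1687125, nat_lit 3956532, true, true⟩,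
 nat_lit 0, nat_lit 0, nat_lit 1633, nat_lit 0, nat_lit 2796, nat_lit 950, nat_lit 175, nat_lit 0, nat_lit 0, nat_lit 101, nat_lit 0, nat_lit 0, nat_lit 0, nat_lit 0, nat_lit 0, nat_lit 220250, nat_lit 0, nat_lit 0, [(nat_lit 25, [(nat_lit 0, nat_lit 881)])],
 ⟨p109_k6, nat_lit 0, nat_lit 0, nat_lit 142, nat_lit 0, nat_lit 0, [nat_lit 784706000, nat_lit 1596470801, nat_lit 2609708000], [], [nat_lit 26907088819, nat_lit 27370448615, nat_lit 28470180609, nat_lit 28896990368, nat_lit 26511677507, nat_lit 26962390943, nat_lit 28035289839, nat_lit 28450358775], nat_lit 0, nat_lit 0, nat_lit 0, nat_lit 0, nat_lit 0, nat_lit 0, [], [nat_lit 20, nat_lit 40, nat_lit 40, nat_lit 80, nat_lit 16, nat_lit 226, nat_lit 20, nat_lit 7]⟩, ⟨p109_k4, nat_lit 0, nat_lit 0, nat_lit 595, nat_lit 0, nat_lit 810862, [nat_lit 557872000, nat_lit 948192000, nat_lit 1412768000], [], [nat_lit 4251073438, nat_lit 4270296483, nat_lit 4409619800,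 nat_lit 4428056619, nat_lit 3638939757, nat_lit 3648008005, nat_lit 3741414974, nat_lit 3747569725], nat_lit 1271250, nat_lit 1271250, nat_lit 1271250, nat_lit 1271250, nat_lit 0, nat_lit 1836250, [nat_lit 1100000, nat_lit 1785000, nat_lit 1271250], [nat_lit 21, nat_lit 40, nat_lit 40, nat_lit 80, nat_lit 14, nat_lit 373, nat_lit 150, nat_lit 9]⟩,
 ⟨nat_lit 2236, nat_lit 2739, ⟨.ofNat (nat_lit 744435), .ofNat (nat_lit 803496), .ofNat (nat_lit 755643), .ofNat (nat_lit 814705), .ofNat (nat_lit 739368), .ofNat (nat_lit 796384), .ofNat (nat_lit 750755), .ofNat (nat_lit 807771)⟩, ⟨.ofNat (nat_lit 100000), .ofNat (nat_lit 165893), .ofNat (nat_lit 100000), .ofNat (nat_lit 188310), .ofNat (nat_lit 100000), .ofNat (nat_lit 169532), .ofNat (nat_lit 100000), .ofNat (nat_lit 192306)⟩⟩, [⟨nat_lit 13, nat_lit 46, nat_lit 76, nat_lit 100, nat_lit 296539474⟩, ⟨nat_lit 22, nat_lit 71, nat_lit 100, nat_lit 71, nat_lit 14562852⟩]⟩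
noncomputable def p109_l114 : Lf2 := ⟨nat_lit 0, nat_lit 20, [nat_lit 5, nat_lit 5, nat_lit 5, nat_lit 20], false, nat_lit 40, nat_lit 80, nat_lit 0, nat_lit 260, ⟨nat_lit 1000, nat_lit 0, nat_lit 0, nat_lit 0, nat_lit 0, nat_lit 0, nat_lit 0, nat_lit 0, nat_lit 0, nat_lit 0, nat_lit 0, nat_lit 0, nat_lit 0, nat_lit 0, nat_lit 0, nat_lit 0, false, false⟩,
 nat_lit 0, nat_lit 0, nat_lit 12011, nat_lit 0, nat_lit 5127, nat_lit 7314, nat_lit 0, nat_lit 0, nat_lit 0, nat_lit 822, nat_lit 0, nat_lit 0, nat_lit 0, nat_lit 0, nat_lit 0, nat_lit 0, nat_lit 0, nat_lit 0, [],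
 ⟨p109_k1, nat_lit 0, nat_lit 0, nat_lit 144, nat_lit 0, nat_lit 0, [nat_lit 938000000, nat_lit 3282000000, nat_lit 6250000000], [], [nat_lit 32381647252, nat_lit 33083818768, nat_lit 35704520349, nat_lit 36305509293, nat_lit 30793046676, nat_lit 31409826005, nat_lit 33968033033, nat_lit 34554719150], nat_lit 0, nat_lit 0, nat_lit 0, nat_lit 0, nat_lit 0, nat_lit 0, [], [nat_lit 20, nat_lit 40, nat_lit 40, nat_lit 80, nat_lit 16, nat_lit 226, nat_lit 20, nat_lit 7]⟩, ⟨p109_k5, nat_lit 0, nat_lit 0, nat_lit 539, nat_lit 0, nat_lit 658130, [nat_lit 4688000000, nat_lit 7968000000, nat_lit 11872000000], [], [nat_lit 34798587912, nat_lit 34988215388, nat_lit 37489097124, nat_lit 37806520141, nat_lit 29875559534, nat_lit 29978732470, nat_lit 31577747728, nat_lit 31704287248], nat_lit 1271250, nat_lit 1271250, nat_lit 1271250, nat_lit 1271250, nat_lit 0, nat_lit 1836250, [nat_lit 1100000, nat_lit 1785000, nat_lit 1271250],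 [nat_lit 21, nat_lit 40, nat_lit 40, nat_lit 80, nat_lit 14, nat_lit 373, nat_lit 150, nat_lit 9]⟩,
 zbF0, [⟨nat_lit 22, nat_lit 83, nat_lit 100, nat_lit 83, nat_lit 87493786⟩]⟩
noncomputable def p109_l115 : Lf2 := ⟨nat_lit 0, nat_lit 20, [nat_lit 5, nat_lit 5, nat_lit 5, nat_lit 20], false, nat_lit 40, nat_lit 80, nat_lit 0, nat_lit 260, ⟨nat_lit 321, nat_lit 679, nat_lit 0, nat_lit 8, nat_lit 317, nat_lit 679, nat_lit 56, nat_lit 0, nat_lit 0, nat_lit 0, nat_lit 0, nat_lit 0, nat_lit 39963814, nat_lit 25366016, nat_lit 1670170, nat_lit 3975599, true, true⟩,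
 nat_lit 0, nat_lit 0, nat_lit 3792, nat_lit 0, nat_lit 2930, nat_lit 2309, nat_lit 235, nat_lit 0, nat_lit 0, nat_lit 344, nat_lit 0, nat_lit 0, nat_lit 0, nat_lit 0, nat_lit 0, nat_lit 169750, nat_lit 0, nat_lit 0, [(nat_lit 25, [(nat_lit 0, nat_lit 679)])],
 ⟨p109_k6, nat_lit 0, nat_lit 0, nat_lit 145, nat_lit 0, nat_lit 0, [nat_lit 819854001, nat_lit 1982937200, nat_lit 3444372000], [], [nat_lit 27307788892, nat_lit 27779406572, nat_lit 29232647227, nat_lit 29658154113, nat_lit 26865920182, nat_lit 27324551812, nat_lit 28741609461, nat_lit 29156134704], nat_lit 0, nat_lit 0, nat_lit 0, nat_lit 0, nat_lit 0, nat_lit 0, [], [nat_lit 20, nat_lit 40, nat_lit 40, nat_lit 80, nat_lit 16, nat_lit 226, nat_lit 20, nat_lit 7]⟩, ⟨p109_k5, nat_lit 0, nat_lit 0, nat_lit 596, nat_lit 0, nat_lit 818300, [nat_lit 1504848000, nat_lit 2557728000, nat_lit 3810912000], [], [nat_lit 10744234195, nat_lit 10785297212, nat_lit 11181419412,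 nat_lit 11222322651, nat_lit 9371917373, nat_lit 9390923749, nat_lit 9639512514, nat_lit 9651094998], nat_lit 1271250, nat_lit 1271250, nat_lit 1271250, nat_lit 1271250, nat_lit 0, nat_lit 1836250, [nat_lit 1100000, nat_lit 1785000, nat_lit 1271250], [nat_lit 21, nat_lit 40, nat_lit 40, nat_lit 80, nat_lit 14, nat_lit 373, nat_lit 150, nat_lit 9]⟩,
 ⟨nat_lit 2236, nat_lit 2739, ⟨.ofNat (nat_lit 755643), .ofNat (nat_lit 826517), .ofNat (nat_lit 766852), .ofNat (nat_lit 837726), .ofNat (nat_lit 750755), .ofNat (nat_lit 819174), .ofNat (nat_lit 762142), .ofNat (nat_lit 830561)⟩, ⟨.ofNat (nat_lit 100000), .ofNat (nat_lit 165893), .ofNat (nat_lit 100000), .ofNat (nat_lit 188310), .ofNat (nat_lit 100000), .ofNat (nat_lit 169532), .ofNat (nat_lit 100000), .ofNat (nat_lit 192306)⟩⟩, [⟨nat_lit 13, nat_lit 47, nat_lit 74, nat_lit 100, nat_lit 102214604⟩, ⟨nat_lit 22, nat_lit 69, nat_lit 100, nat_lit 71, nat_lit 49887863⟩]⟩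
noncomputable def p109_l116 : Lf2 := ⟨nat_lit 0, nat_lit 20, [nat_lit 5, nat_lit 5, nat_lit 5, nat_lit 20], false, nat_lit 0, nat_lit 80, nat_lit 0, nat_lit 260, ⟨nat_lit 1000, nat_lit 0, nat_lit 0, nat_lit 0, nat_lit 0, nat_lit 0, nat_lit 0, nat_lit 0, nat_lit 0, nat_lit 0, nat_lit 0, nat_lit 0, nat_lit 0, nat_lit 0, nat_lit 0, nat_lit 0, false, false⟩,
 nat_lit 0, nat_lit 0, nat_lit 13843, nat_lit 0, nat_lit 4173, nat_lit 8057, nat_lit 447, nat_lit 0, nat_lit 0, nat_lit 801, nat_lit 0, nat_lit 0, nat_lit 0, nat_lit 0, nat_lit 0, nat_lit 0, nat_lit 0, nat_lit 0, [],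
 ⟨p109_k1, nat_lit 0, nat_lit 0, nat_lit 180, nat_lit 0, nat_lit 0, [nat_lit 938000000, nat_lit 3282000000, nat_lit 6250000000], [], [nat_lit 30325783826, nat_lit 31412629885, nat_lit 33530268680, nat_lit 34878964925, nat_lit 28302486306, nat_lit 29299493906, nat_lit 30911326171, nat_lit 31993441464], nat_lit 0, nat_lit 0, nat_lit 0, nat_lit 0, nat_lit 0, nat_lit 0, [], [nat_lit 20, nat_lit 40, nat_lit 40, nat_lit 80, nat_lit 16, nat_lit 226, nat_lit 20, nat_lit 7]⟩, ⟨p109_k4, nat_lit 0, nat_lit 0, nat_lit 481, nat_lit 0, nat_lit 489838, [nat_lit 4688000000, nat_lit 7968000000, nat_lit 11872000000], [], [nat_lit 36031774414, nat_lit 36450697714, nat_lit 38634308199, nat_lit 39282234895, nat_lit 29623098374, nat_lit 29815727854, nat_lit 31697386882, nat_lit 32095640609], nat_lit 1271250, nat_lit 1271250, nat_lit 1271250, nat_lit 1271250, nat_lit 0, nat_lit 1836250, [nat_lit 1100000, nat_lit 1785000, nat_lit 1271250],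 [nat_lit 21, nat_lit 40, nat_lit 40, nat_lit 80, nat_lit 14, nat_lit 373, nat_lit 150, nat_lit 9]⟩,
 zbF0, [⟨nat_lit 22, nat_lit 68, nat_lit 100, nat_lit 61, nat_lit 78687089⟩]⟩
noncomputable def b_V_900_600_10_19 : St := ⟨true, nat_lit 0, nat_lit 1, nat_lit 1, nat_lit 80, nat_lit 360, nat_lit 380, nat_lit 260, nat_lit 280, nat_lit 320, nat_lit 376, nat_lit 40, nat_lit 80, nat_lit 0, nat_lit 80, nat_lit 0, nat_lit 260, nat_lit 80, nat_lit 120, nat_lit 0, nat_lit 0, nat_lit 0, nat_lit 0⟩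
theorem d_V_900_600_10_19 (h : EB TB.env) : Dead b_V_900_600_10_19 := chkB_sound0 h (T :=
(.spl (nat_lit 3) (nat_lit 60)
(.spl (nat_lit 0) (nat_lit 370)
(.spl (nat_lit 5) (nat_lit 160)
(.spl (nat_lit 0) (nat_lit 365)
(.leaf p109_l103)
(.trX (nat_lit 13) (nat_lit 62) (nat_lit 58) (nat_lit 100) (nat_lit 372) (.leaf p109_l104)))
(.trZ (nat_lit 22) (nat_lit 82) (nat_lit 100) (nat_lit 44) (nat_lit 16) (.leaf p109_l105)))
(.trX (nat_lit 13) (nat_lit 57) (nat_lit 62) (nat_lit 100) (nat_lit 368) (.spl (nat_lit 0) (nat_lit 375)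
(.leaf p109_l106)
(.trX (nat_lit 13) (nat_lit 53) (nat_lit 66) (nat_lit 100) (nat_lit 360) (.leaf p109_l107)))))
(.spl (nat_lit 6) (nat_lit 100)
(.spl (nat_lit 4) (nat_lit 40)
(.trX (nat_lit 22) (nat_lit 80) (nat_lit 100) (nat_lit 60) (nat_lit 200) (.spl (nat_lit 1) (nat_lit 270)
(.trX (nat_lit 13) (nat_lit 64) (nat_lit 58) (nat_lit 100) (nat_lit 372) (.spl (nat_lit 0) (nat_lit 370)
(.leaf p109_l108)
(.trX (nat_lit 13) (nat_lit 56) (nat_lit 65) (nat_lit 100) (nat_lit 360) (.trZ (nat_lit 3) (nat_lit 100) (nat_lit 74) (nat_lit 33) (nat_lit 4) (.spl (nat_lit 0) (nat_lit 375)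
(.leaf p109_l109)
(.trX (nat_lit 13) (nat_lit 52) (nat_lit 69) (nat_lit 100) (nat_lit 352) (.trZ (nat_lit 3) (nat_lit 100) (nat_lit 68) (nat_lit 40) (nat_lit 8) (.leaf p109_l110))))))))
(.leaf p109_l111)))
(.spl (nat_lit 1) (nat_lit 270)
(.trX (nat_lit 13) (nat_lit 64) (nat_lit 58) (nat_lit 100) (nat_lit 372) (.spl (nat_lit 0) (nat_lit 370)
(.leaf p109_l112)
(.trX (nat_lit 13) (nat_lit 56) (nat_lit 65) (nat_lit 100) (nat_lit 360) (.leaf p109_l113))))
(.spl (nat_lit 0) (nat_lit 370)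
(.leaf p109_l114)
(.trX (nat_lit 13) (nat_lit 57) (nat_lit 62) (nat_lit 100) (nat_lit 368) (.leaf p109_l115)))))
(.leaf p109_l116)))) (by decide +kernel)
noncomputable def p109_l117 : Lf2 := ⟨nat_lit 0, nat_lit 20, [nat_lit 5, nat_lit 5, nat_lit 5, nat_lit 20], false, nat_lit 0, nat_lit 80, nat_lit 0, nat_lit 260, ⟨nat_lit 83, nat_lit 917, nat_lit 0, nat_lit 8, nat_lit 289, nat_lit 917, nat_lit 34, nat_lit 0, nat_lit 0, nat_lit 0, nat_lit 0, nat_lit 0, nat_lit 44029595, nat_lit 22970405, nat_lit 0, nat_lit 3214511, true, true⟩,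
 nat_lit 0, nat_lit 0, nat_lit 1533, nat_lit 0, nat_lit 2394, nat_lit 811, nat_lit 14, nat_lit 0, nat_lit 0, nat_lit 73, nat_lit 0, nat_lit 0, nat_lit 0, nat_lit 0, nat_lit 0, nat_lit 366800, nat_lit 0, nat_lit 0, [(nat_lit 28, [(nat_lit 1, nat_lit 917)])],
 ⟨p109_k9, nat_lit 0, nat_lit 0, nat_lit 170, nat_lit 0, nat_lit 0, [nat_lit 717553200, nat_lit 570247601, nat_lit 645296000], [], [nat_lit 26989224878, nat_lit 28008876206, nat_lit 27489500153, nat_lit 28529839620, nat_lit 26374518726, nat_lit 27290686966, nat_lit 26831414683, nat_lit 27726096735], nat_lit 0, nat_lit 0, nat_lit 0, nat_lit 0, nat_lit 0, nat_lit 0, [], [nat_lit 20, nat_lit 40, nat_lit 40, nat_lit 80, nat_lit 16, nat_lit 226, nat_lit 20, nat_lit 7]⟩, ⟨p109_k10, nat_lit 0, nat_lit 0, nat_lit 1048, nat_lit 0, nat_lit 1661493, [nat_lit 389104000, nat_lit 661344000, nat_lit 1166814000], [], [nat_lit 3156644392, nat_lit 3174985259, nat_lit 3221197874,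 nat_lit 3250425256, nat_lit 2442133007, nat_lit 2447025546, nat_lit 2480773302, nat_lit 2497634091], nat_lit 1271250, nat_lit 1271250, nat_lit 1271250, nat_lit 1271250, nat_lit 0, nat_lit 1836250, [nat_lit 1100000, nat_lit 1785000, nat_lit 1271250], [nat_lit 37, nat_lit 40, nat_lit 40, nat_lit 80, nat_lit 28, nat_lit 456, nat_lit 225, nat_lit 10]⟩,
 ⟨nat_lit 0, nat_lit 2237, ⟨.ofNat (nat_lit 716590), .ofNat (nat_lit 733694), .ofNat (nat_lit 727978), .ofNat (nat_lit 745082), .ofNat (nat_lit 699995), .ofNat (nat_lit 714995), .ofNat (nat_lit 712496), .ofNat (nat_lit 727495)⟩, ⟨.ofNat (nat_lit 0), .ofNat (nat_lit 146756), .ofNat (nat_lit 0), .ofNat (nat_lit 192306), .ofNat (nat_lit 0), .ofNat (nat_lit 149997), .ofNat (nat_lit 0), .ofNat (nat_lit 199999)⟩⟩, [⟨nat_lit 13, nat_lit 45, nat_lit 79, nat_lit 100, nat_lit 525995555⟩, ⟨nat_lit 3, nat_lit 100, nat_lit 44, nat_lit 64, nat_lit 5773958⟩, ⟨nat_lit 22, nat_lit 83,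 nat_lit 100, nat_lit 34, nat_lit 906907⟩]⟩
noncomputable def p109_l118 : Lf2 := ⟨nat_lit 0, nat_lit 20, [nat_lit 5, nat_lit 5, nat_lit 5, nat_lit 20], false, nat_lit 0, nat_lit 80, nat_lit 0, nat_lit 260, ⟨nat_lit 96, nat_lit 904, nat_lit 0, nat_lit 8, nat_lit 298, nat_lit 904, nat_lit 34, nat_lit 0, nat_lit 0, nat_lit 0, nat_lit 0, nat_lit 0, nat_lit 43094185, nat_lit 23905815, nat_lit 0, nat_lit 3257782, true, true⟩,
 nat_lit 0, nat_lit 0, nat_lit 1554, nat_lit 0, nat_lit 2376, nat_lit 863, nat_lit 28, nat_lit 0, nat_lit 0, nat_lit 81, nat_lit 0, nat_lit 0, nat_lit 0, nat_lit 0, nat_lit 0, nat_lit 361600, nat_lit 0, nat_lit 0, [(nat_lit 28, [(nat_lit 1, nat_lit 904)])],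
 ⟨p109_k9, nat_lit 0, nat_lit 0, nat_lit 166, nat_lit 0, nat_lit 0, [nat_lit 720678400, nat_lit 608691200, nat_lit 724752000], [], [nat_lit 26929910412, nat_lit 27411542828, nat_lit 27726562852, nat_lit 28266455952, nat_lit 26328461404, nat_lit 26785348884, nat_lit 27088365444, nat_lit 27527434600], nat_lit 0, nat_lit 0, nat_lit 0, nat_lit 0, nat_lit 0, nat_lit 0, [], [nat_lit 20, nat_lit 40, nat_lit 40, nat_lit 80, nat_lit 16, nat_lit 226, nat_lit 20, nat_lit 7]⟩, ⟨p109_k3, nat_lit 0, nat_lit 0, nat_lit 924, nat_lit 0, nat_lit 1369507, [nat_lit 450048000, nat_lit 764928000, nat_lit 1349568000], [], [nat_lit 3661698427, nat_lit 3672619350, nat_lit 3731178028, nat_lit 3762799070, nat_lit 2880239782, nat_lit 2876306428, nat_lit 2948276772, nat_lit 2966939161], nat_lit 1271250, nat_lit 1271250, nat_lit 1271250, nat_lit 1271250, nat_lit 0, nat_lit 1836250, [nat_lit 1100000, nat_lit 1785000, nat_lit 1271250], [nat_lit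 37, nat_lit 40, nat_lit 40, nat_lit 80, nat_lit 28, nat_lit 456, nat_lit 225, nat_lit 10]⟩,
 ⟨nat_lit 1581, nat_lit 2237, ⟨.ofNat (nat_lit 727981), .ofNat (nat_lit 756489), .ofNat (nat_lit 739368), .ofNat (nat_lit 767876), .ofNat (nat_lit 722193), .ofNat (nat_lit 749511), .ofNat (nat_lit 733851), .ofNat (nat_lit 761169)⟩, ⟨.ofNat (nat_lit 0), .ofNat (nat_lit 146758), .ofNat (nat_lit 0), .ofNat (nat_lit 192306), .ofNat (nat_lit 0), .ofNat (nat_lit 149571), .ofNat (nat_lit 0), .ofNat (nat_lit 196201)⟩⟩, [⟨nat_lit 13, nat_lit 40, nat_lit 82, nat_lit 100, nat_lit 425565241⟩, ⟨nat_lit 22, nat_lit 76, nat_lit 100, nat_lit 60, nat_lit 2456205⟩]⟩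
noncomputable def p109_l119 : Lf2 := ⟨nat_lit 0, nat_lit 20, [nat_lit 5, nat_lit 5, nat_lit 5, nat_lit 20], false, nat_lit 0, nat_lit 80, nat_lit 0, nat_lit 260, ⟨nat_lit 105, nat_lit 895, nat_lit 0, nat_lit 8, nat_lit 305, nat_lit 895, nat_lit 34, nat_lit 0, nat_lit 0, nat_lit 0, nat_lit 0, nat_lit 0, nat_lit 42325914, nat_lit 24674086, nat_lit 0, nat_lit 3290141, true, true⟩,
 nat_lit 0, nat_lit 0, nat_lit 1502, nat_lit 0, nat_lit 2370, nat_lit 874, nat_lit 32, nat_lit 0, nat_lit 0, nat_lit 87, nat_lit 0, nat_lit 0, nat_lit 0, nat_lit 0, nat_lit 0, nat_lit 358000, nat_lit 0, nat_lit 0, [(nat_lit 28, [(nat_lit 1, nat_lit 895)])],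
 ⟨p109_k9, nat_lit 0, nat_lit 0, nat_lit 166, nat_lit 0, nat_lit 0, [nat_lit 722842001, nat_lit 635306001, nat_lit 779760000], [], [nat_lit 26949508443, nat_lit 27190108903, nat_lit 28064020164, nat_lit 28346562571, nat_lit 26352478483, nat_lit 26580722783, nat_lit 27415602504, nat_lit 27631394238], nat_lit 0, nat_lit 0, nat_lit 0, nat_lit 0, nat_lit 0, nat_lit 0, [], [nat_lit 20, nat_lit 40, nat_lit 40, nat_lit 80, nat_lit 16, nat_lit 226, nat_lit 20, nat_lit 7]⟩, ⟨p109_k4, nat_lit 0, nat_lit 0, nat_lit 804, nat_lit 0, nat_lit 1234350, [nat_lit 492240000, nat_lit 836640000, nat_lit 1246560000], [], [nat_lit 3744639642, nat_lit 3753299469, nat_lit 3849570709, nat_lit 3868095491, nat_lit 3130346454, nat_lit 3132008941, nat_lit 3170705665, nat_lit 3170954094], nat_lit 1271250, nat_lit 1271250, nat_lit 1271250, nat_lit 1271250, nat_lit 0, nat_lit 1836250, [nat_lit 1100000, nat_lit 1785000, nat_lit 1271250], [nat_lit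 21, nat_lit 40, nat_lit 40, nat_lit 80, nat_lit 14, nat_lit 373, nat_lit 150, nat_lit 9]⟩,
 ⟨nat_lit 1936, nat_lit 2237, ⟨.ofNat (nat_lit 739368), .ofNat (nat_lit 779279), .ofNat (nat_lit 750755), .ofNat (nat_lit 790666), .ofNat (nat_lit 736698), .ofNat (nat_lit 775821), .ofNat (nat_lit 748204), .ofNat (nat_lit 787326)⟩, ⟨.ofNat (nat_lit 0), .ofNat (nat_lit 146758), .ofNat (nat_lit 0), .ofNat (nat_lit 192306), .ofNat (nat_lit 0), .ofNat (nat_lit 148244), .ofNat (nat_lit 0), .ofNat (nat_lit 194266)⟩⟩, [⟨nat_lit 13, nat_lit 43, nat_lit 77, nat_lit 100, nat_lit 326769494⟩, ⟨nat_lit 22, nat_lit 75, nat_lit 100, nat_lit 60, nat_lit 9263419⟩]⟩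
noncomputable def p109_l120 : Lf2 := ⟨nat_lit 0, nat_lit 20, [nat_lit 5, nat_lit 5, nat_lit 5, nat_lit 20], false, nat_lit 4, nat_lit 80, nat_lit 0, nat_lit 260, ⟨nat_lit 87, nat_lit 913, nat_lit 0, nat_lit 8, nat_lit 301, nat_lit 913, nat_lit 36, nat_lit 0, nat_lit 0, nat_lit 0, nat_lit 0, nat_lit 0, nat_lit 42133354, nat_lit 23960277, nat_lit 906369, nat_lit 3674831, true, true⟩,
 nat_lit 0, nat_lit 0, nat_lit 1271, nat_lit 0, nat_lit 2383, nat_lit 739, nat_lit 95, nat_lit 0, nat_lit 0, nat_lit 75, nat_lit 0, nat_lit 0, nat_lit 0, nat_lit 0, nat_lit 0, nat_lit 228250, nat_lit 0, nat_lit 0, [(nat_lit 28, [(nat_lit 0, nat_lit 913)])],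
 ⟨p109_k17, nat_lit 0, nat_lit 0, nat_lit 150, nat_lit 0, nat_lit 0, [nat_lit 795206801, nat_lit 1240532001, nat_lit 1664509200], [], [nat_lit 27118416144, nat_lit 27354566933, nat_lit 27738833035, nat_lit 28019952572, nat_lit 26616560816, nat_lit 26840886697, nat_lit 27208427935, nat_lit 27425852857], nat_lit 0, nat_lit 0, nat_lit 0, nat_lit 0, nat_lit 0, nat_lit 0, [], [nat_lit 35, nat_lit 40, nat_lit 40, nat_lit 80, nat_lit 22, nat_lit 226, nat_lit 20, nat_lit 8]⟩, ⟨p109_k4, nat_lit 0, nat_lit 0, nat_lit 842, nat_lit 0, nat_lit 1332871, [nat_lit 407856000, nat_lit 693216000, nat_lit 1032864000], [], [nat_lit 3052852282, nat_lit 3054683039, nat_lit 3088225307, nat_lit 3108191015, nat_lit 2506820241, nat_lit 2504154672, nat_lit 2517251518, nat_lit 2525226278], nat_lit 1271250, nat_lit 1271250, nat_lit 1271250, nat_lit 1271250, nat_lit 0, nat_lit 1836250, [nat_lit 1100000, nat_lit 1785000, nat_lit 1271250], [nat_lit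 21, nat_lit 40, nat_lit 40, nat_lit 80, nat_lit 14, nat_lit 373, nat_lit 150, nat_lit 9]⟩,
 ⟨nat_lit 1581, nat_lit 1937, ⟨.ofNat (nat_lit 736698), .ofNat (nat_lit 759054), .ofNat (nat_lit 748204), .ofNat (nat_lit 770560), .ofNat (nat_lit 733851), .ofNat (nat_lit 755705), .ofNat (nat_lit 745508), .ofNat (nat_lit 767363)⟩, ⟨.ofNat (nat_lit 10000), .ofNat (nat_lit 148244), .ofNat (nat_lit 10000), .ofNat (nat_lit 194266), .ofNat (nat_lit 10000), .ofNat (nat_lit 149571), .ofNat (nat_lit 10000), .ofNat (nat_lit 196201)⟩⟩, [⟨nat_lit 13, nat_lit 41, nat_lit 78, nat_lit 100, nat_lit 347009812⟩, ⟨nat_lit 3, nat_lit 100, nat_lit 49, nat_lit 60, nat_lit 136608782⟩, ⟨nat_lit 22, nat_lit 82, nat_lit 100, nat_lit 35, nat_lit 12950425⟩]⟩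
noncomputable def p109_l121 : Lf2 := ⟨nat_lit 0, nat_lit 20, [nat_lit 5, nat_lit 5, nat_lit 5, nat_lit 20], false, nat_lit 0, nat_lit 80, nat_lit 0, nat_lit 260, ⟨nat_lit 120, nat_lit 880, nat_lit 0, nat_lit 8, nat_lit 309, nat_lit 880, nat_lit 34, nat_lit 0, nat_lit 0, nat_lit 0, nat_lit 0, nat_lit 0, nat_lit 41925866, nat_lit 25074134, nat_lit 0, nat_lit 3305870, true, true⟩,
 nat_lit 0, nat_lit 0, nat_lit 1497, nat_lit 0, nat_lit 2372, nat_lit 911, nat_lit 37, nat_lit 0, nat_lit 0, nat_lit 122, nat_lit 0, nat_lit 0, nat_lit 0, nat_lit 0, nat_lit 0, nat_lit 352000, nat_lit 0, nat_lit 0, [(nat_lit 28, [(nat_lit 1, nat_lit 880)])],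
 ⟨p109_k9, nat_lit 0, nat_lit 0, nat_lit 173, nat_lit 0, nat_lit 0, [nat_lit 726448000, nat_lit 679664001, nat_lit 871440000], [], [nat_lit 26994901489, nat_lit 27476246241, nat_lit 28268934577, nat_lit 28829013057, nat_lit 26396398513, nat_lit 26853020073, nat_lit 27611679921, nat_lit 28039823037], nat_lit 0, nat_lit 0, nat_lit 0, nat_lit 0, nat_lit 0, nat_lit 0, [], [nat_lit 20, nat_lit 40, nat_lit 40, nat_lit 80, nat_lit 16, nat_lit 226, nat_lit 20, nat_lit 7]⟩, ⟨p109_k5, nat_lit 0, nat_lit 0, nat_lit 817, nat_lit 0, nat_lit 1274464, [nat_lit 562560000, nat_lit 956160000, nat_lit 1424640000], [], [nat_lit 3973202521, nat_lit 3975357835, nat_lit 4108056820, nat_lit 4129935330, nat_lit 3372780851, nat_lit 3372093978, nat_lit 3417508980, nat_lit 3424310076], nat_lit 1271250, nat_lit 1271250, nat_lit 1271250, nat_lit 1271250, nat_lit 0, nat_lit 1836250, [nat_lit 1100000, nat_lit 1785000, nat_lit 1271250], [nat_lit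 21, nat_lit 40, nat_lit 40, nat_lit 80, nat_lit 14, nat_lit 373, nat_lit 150, nat_lit 9]⟩,
 ⟨nat_lit 1581, nat_lit 2237, ⟨.ofNat (nat_lit 750755), .ofNat (nat_lit 796368), .ofNat (nat_lit 756449), .ofNat (nat_lit 802061), .ofNat (nat_lit 745508), .ofNat (nat_lit 789217), .ofNat (nat_lit 751337), .ofNat (nat_lit 795046)⟩, ⟨.ofNat (nat_lit 0), .ofNat (nat_lit 146758), .ofNat (nat_lit 0), .ofNat (nat_lit 192306), .ofNat (nat_lit 0), .ofNat (nat_lit 149571), .ofNat (nat_lit 0), .ofNat (nat_lit 196201)⟩⟩, [⟨nat_lit 13, nat_lit 41, nat_lit 78, nat_lit 100, nat_lit 329942393⟩, ⟨nat_lit 22, nat_lit 74, nat_lit 100, nat_lit 60, nat_lit 15423771⟩]⟩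
noncomputable def p109_l122 : Lf2 := ⟨nat_lit 0, nat_lit 20, [nat_lit 5, nat_lit 5, nat_lit 5, nat_lit 20], false, nat_lit 0, nat_lit 80, nat_lit 0, nat_lit 260, ⟨nat_lit 127, nat_lit 873, nat_lit 0, nat_lit 8, nat_lit 312, nat_lit 873, nat_lit 34, nat_lit 0, nat_lit 0, nat_lit 0, nat_lit 0, nat_lit 0, nat_lit 41692521, nat_lit 25307479, nat_lit 0, nat_lit 3314692, true, true⟩,
 nat_lit 0, nat_lit 0, nat_lit 1504, nat_lit 0, nat_lit 2441, nat_lit 936, nat_lit 31, nat_lit 0, nat_lit 0, nat_lit 121, nat_lit 0, nat_lit 0, nat_lit 0, nat_lit 0, nat_lit 0, nat_lit 349200, nat_lit 0, nat_lit 0, [(nat_lit 28, [(nat_lit 1, nat_lit 873)])],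
 ⟨p109_k9, nat_lit 0, nat_lit 0, nat_lit 173, nat_lit 0, nat_lit 0, [nat_lit 728130800, nat_lit 700364400, nat_lit 914224000], [], [nat_lit 27113269357, nat_lit 27627235158, nat_lit 28457676537, nat_lit 29028974918, nat_lit 26426395739, nat_lit 26887604419, nat_lit 27651424363, nat_lit 28083622029], nat_lit 0, nat_lit 0, nat_lit 0, nat_lit 0, nat_lit 0, nat_lit 0, [], [nat_lit 20, nat_lit 40, nat_lit 40, nat_lit 80, nat_lit 16, nat_lit 226, nat_lit 20, nat_lit 7]⟩, ⟨p109_k7, nat_lit 0, nat_lit 0, nat_lit 811, nat_lit 0, nat_lit 1262345, [nat_lit 595376000, nat_lit 1011936000, nat_lit 1507744000], [], [nat_lit 4226109596, nat_lit 4228618063, nat_lit 4376826248, nat_lit 4399787220, nat_lit 3631320856, nat_lit 3632036241, nat_lit 3680010181, nat_lit 3681202487], nat_lit 1271250, nat_lit 1271250, nat_lit 1271250, nat_lit 1271250, nat_lit 0, nat_lit 1836250, [nat_lit 1100000, nat_lit 1785000, nat_lit 1271250], [nat_lit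 21, nat_lit 40, nat_lit 40, nat_lit 80, nat_lit 14, nat_lit 373, nat_lit 150, nat_lit 9]⟩,
 ⟨nat_lit 1581, nat_lit 2237, ⟨.ofNat (nat_lit 756449), .ofNat (nat_lit 802061), .ofNat (nat_lit 762142), .ofNat (nat_lit 807755), .ofNat (nat_lit 751337), .ofNat (nat_lit 795046), .ofNat (nat_lit 757166), .ofNat (nat_lit 800875)⟩, ⟨.ofNat (nat_lit 0), .ofNat (nat_lit 146758), .ofNat (nat_lit 0), .ofNat (nat_lit 192306), .ofNat (nat_lit 0), .ofNat (nat_lit 149571), .ofNat (nat_lit 0), .ofNat (nat_lit 196201)⟩⟩, [⟨nat_lit 13, nat_lit 41, nat_lit 77, nat_lit 100, nat_lit 319190964⟩, ⟨nat_lit 22, nat_lit 74, nat_lit 100, nat_lit 60, nat_lit 17747735⟩]⟩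
noncomputable def p109_l123 : Lf2 := ⟨nat_lit 0, nat_lit 20, [nat_lit 5, nat_lit 5, nat_lit 5, nat_lit 20], false, nat_lit 8, nat_lit 80, nat_lit 0, nat_lit 260, ⟨nat_lit 77, nat_lit 923, nat_lit 0, nat_lit 8, nat_lit 301, nat_lit 923, nat_lit 39, nat_lit 0, nat_lit 0, nat_lit 0, nat_lit 0, nat_lit 0, nat_lit 42074608, nat_lit 23929412, nat_lit 995980, nat_lit 3705162, true, true⟩,
 nat_lit 0, nat_lit 0, nat_lit 1123, nat_lit 0, nat_lit 2415, nat_lit 653, nat_lit 71, nat_lit 0, nat_lit 0, nat_lit 65, nat_lit 0, nat_lit 0, nat_lit 0, nat_lit 0, nat_lit 0, nat_lit 230750, nat_lit 0, nat_lit 0, [(nat_lit 28, [(nat_lit 0, nat_lit 923)])],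
 ⟨p109_k15, nat_lit 0, nat_lit 0, nat_lit 153, nat_lit 0, nat_lit 0, [nat_lit 793642801, nat_lit 1218172001, nat_lit 1631393200], [], [nat_lit 27424790215, nat_lit 27898080119, nat_lit 28037824915, nat_lit 28621392511, nat_lit 26917762898, nat_lit 27368488708, nat_lit 27504824495, nat_lit 27941629117], nat_lit 0, nat_lit 0, nat_lit 0, nat_lit 0, nat_lit 0, nat_lit 0, [], [nat_lit 35, nat_lit 40, nat_lit 40, nat_lit 80, nat_lit 22, nat_lit 226, nat_lit 20, nat_lit 8]⟩, ⟨p109_k4, nat_lit 0, nat_lit 0, nat_lit 962, nat_lit 0, nat_lit 1592403, [nat_lit 360976000, nat_lit 613536000, nat_lit 914144000], [], [nat_lit 2746811756, nat_lit 2743109908, nat_lit 2757013594, nat_lit 2792781539, nat_lit 2252508699, nat_lit 2242670805, nat_lit 2255869690, nat_lit 2266221805], nat_lit 1271250, nat_lit 1271250, nat_lit 1271250, nat_lit 1271250, nat_lit 0, nat_lit 1836250, [nat_lit 1100000, nat_lit 1785000, nat_lit 1271250], [nat_lit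 21, nat_lit 40, nat_lit 40, nat_lit 80, nat_lit 14, nat_lit 373, nat_lit 150, nat_lit 9]⟩,
 ⟨nat_lit 0, nat_lit 1582, ⟨.ofNat (nat_lit 733849), .ofNat (nat_lit 755702), .ofNat (nat_lit 757165), .ofNat (nat_lit 779018), .ofNat (nat_lit 724997), .ofNat (nat_lit 744996), .ofNat (nat_lit 749998), .ofNat (nat_lit 769997)⟩, ⟨.ofNat (nat_lit 20000), .ofNat (nat_lit 149570), .ofNat (nat_lit 20000), .ofNat (nat_lit 196201), .ofNat (nat_lit 20000), .ofNat (nat_lit 149998), .ofNat (nat_lit 20000), .ofNat (nat_lit 199999)⟩⟩, [⟨nat_lit 13, nat_lit 34, nat_lit 81, nat_lit 100, nat_lit 443702067⟩, ⟨nat_lit 3, nat_lit 100, nat_lit 52, nat_lit 53, nat_lit 115090875⟩, ⟨nat_lit 22, nat_lit 82, nat_lit 100, nat_lit 35, nat_lit 10864914⟩]⟩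
noncomputable def b_V_900_600_10_20 : St := ⟨true, nat_lit 0, nat_lit 1, nat_lit 1, nat_lit 80, nat_lit 380, nat_lit 400, nat_lit 240, nat_lit 280, nat_lit 320, nat_lit 376, nat_lit 40, nat_lit 80, nat_lit 0, nat_lit 80, nat_lit 0, nat_lit 260, nat_lit 80, nat_lit 120, nat_lit 0, nat_lit 0, nat_lit 0, nat_lit 0⟩
theorem d_V_900_600_10_20 (h : EB TB.env) : Dead b_V_900_600_10_20 := chkB_sound0 h (T :=
(.trX (nat_lit 13) (nat_lit 48) (nat_lit 71) (nat_lit 100) (nat_lit 352) (.spl (nat_lit 1) (nat_lit 260)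
(.trX (nat_lit 13) (nat_lit 46) (nat_lit 76) (nat_lit 100) (nat_lit 340) (.spl (nat_lit 1) (nat_lit 250)
(.trX (nat_lit 13) (nat_lit 45) (nat_lit 79) (nat_lit 100) (nat_lit 332) (.leaf p109_l117))
(.spl (nat_lit 0) (nat_lit 390)
(.leaf p109_l118)
(.emL (nat_lit 13) (nat_lit 33) (nat_lit 85) (nat_lit 100)))))
(.spl (nat_lit 0) (nat_lit 390)
(.spl (nat_lit 1) (nat_lit 270)
(.trX (nat_lit 13) (nat_lit 47) (nat_lit 74) (nat_lit 100) (nat_lit 348) (.spl (nat_lit 0) (nat_lit 385)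
(.leaf p109_l119)
(.trX (nat_lit 13) (nat_lit 41) (nat_lit 78) (nat_lit 100) (nat_lit 336) (.trZ (nat_lit 3) (nat_lit 100) (nat_lit 63) (nat_lit 42) (nat_lit 4) (.leaf p109_l120)))))
(.spl (nat_lit 1) (nat_lit 275)
(.leaf p109_l121)
(.leaf p109_l122)))
(.trX (nat_lit 13) (nat_lit 34) (nat_lit 81) (nat_lit 100) (nat_lit 336) (.trZ (nat_lit 3) (nat_lit 100) (nat_lit 52) (nat_lit 53) (nat_lit 8) (.leaf p109_l123))))))) (by decide +kernel)
noncomputable def p109_l124 : Lf2 := ⟨nat_lit 0, nat_lit 20, [nat_lit 5, nat_lit 5, nat_lit 5, nat_lit 20], false, nat_lit 80, nat_lit 200, nat_lit 0, nat_lit 336, ⟨nat_lit 33, nat_lit 967, nat_lit 0, nat_lit 6, nat_lit 262, nat_lit 967, nat_lit 102, nat_lit 0, nat_lit 0, nat_lit 0, nat_lit 0, nat_lit 0, nat_lit 43328707, nat_lit 19315648, nat_lit 4355645, nat_lit 4333452, true, false⟩,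
 nat_lit 0, nat_lit 0, nat_lit 570, nat_lit 1233, nat_lit 4398, nat_lit 301, nat_lit 0, nat_lit 0, nat_lit 0, nat_lit 23, nat_lit 0, nat_lit 0, nat_lit 0, nat_lit 0, nat_lit 0, nat_lit 241750, nat_lit 0, nat_lit 0, [(nat_lit 25, [(nat_lit 0, nat_lit 967)])],
 ⟨p109_k1, nat_lit 0, nat_lit 0, nat_lit 96, nat_lit 0, nat_lit 0, [nat_lit 769742001, nat_lit 1431935600, nat_lit 2254356000], [], [nat_lit 23209531632, nat_lit 24716660648, nat_lit 24848595184, nat_lit 26234093048, nat_lit 24288359204, nat_lit 25563398814, nat_lit 25662689248, nat_lit 26838984640], nat_lit 0, nat_lit 0, nat_lit 0, nat_lit 0, nat_lit 0, nat_lit 0, [], [nat_lit 20, nat_lit 40, nat_lit 40, nat_lit 80, nat_lit 16, nat_lit 260, nat_lit 50, nat_lit 8]⟩, ⟨p109_k10, nat_lit 0, nat_lit 0, nat_lit 956, nat_lit 0, nat_lit 1389506, [nat_lit 154704000, nat_lit 262944000, nat_lit 463914000], [], [nat_lit 1322601468, nat_lit 1347231076, nat_lit 1347231076,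 nat_lit 1367141512, nat_lit 1107756900, nat_lit 1101980404, nat_lit 1101980404, nat_lit 1100946829], nat_lit 1271250, nat_lit 1271250, nat_lit 1271250, nat_lit 1271250, nat_lit 0, nat_lit 2373000, [nat_lit 1100000, nat_lit 1785000, nat_lit 1271250], [nat_lit 37, nat_lit 40, nat_lit 40, nat_lit 80, nat_lit 28, nat_lit 456, nat_lit 225, nat_lit 10]⟩,
 ⟨nat_lit 2236, nat_lit 3163, ⟨.ofNat (nat_lit 605240), .ofNat (nat_lit 666215), .ofNat (nat_lit 649422), .ofNat (nat_lit 710480), .ofNat (nat_lit 602541), .ofNat (nat_lit 659578), .ofNat (nat_lit 647962), .ofNat (nat_lit 705082)⟩, ⟨.ofNat (nat_lit 139899), .ofNat (nat_lit 322759), .ofNat (nat_lit 184209), .ofNat (nat_lit 367069), .ofNat (nat_lit 146758), .ofNat (nat_lit 317804), .ofNat (nat_lit 192306), .ofNat (nat_lit 363353)⟩⟩, [⟨nat_lit 4, nat_lit 100, nat_lit 54, nat_lit 73, nat_lit 113578035⟩, ⟨nat_lit 7, nat_lit 92, nat_lit 100, nat_lit 75, nat_lit 3087811⟩]⟩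
noncomputable def p109_l125 : Lf2 := ⟨nat_lit 0, nat_lit 20, [nat_lit 5, nat_lit 5, nat_lit 5, nat_lit 20], true, nat_lit 80, nat_lit 164, nat_lit 0, nat_lit 336, ⟨nat_lit 0, nat_lit 1000, nat_lit 0, nat_lit 6, nat_lit 261, nat_lit 1000, nat_lit 91, nat_lit 0, nat_lit 0, nat_lit 0, nat_lit 0, nat_lit 0, nat_lit 43995530, nat_lit 19274229, nat_lit 3730241, nat_lit 4198124, true, false⟩,
 nat_lit 0, nat_lit 0, nat_lit 0, nat_lit 1091, nat_lit 3871, nat_lit 0, nat_lit 0, nat_lit 0, nat_lit 0, nat_lit 0, nat_lit 0, nat_lit 0, nat_lit 0, nat_lit 0, nat_lit 0, nat_lit 250000, nat_lit 0, nat_lit 0, [(nat_lit 28, [(nat_lit 0, nat_lit 1000)])],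
 ⟨p109_k9, nat_lit 0, nat_lit 0, nat_lit 109, nat_lit 0, nat_lit 0, [nat_lit 781600001, nat_lit 1083600000, nat_lit 1719333334], [], [nat_lit 24244943330, nat_lit 25653580262, nat_lit 25710835130, nat_lit 27122899808, nat_lit 24584323290, nat_lit 25851665786, nat_lit 25909202533, nat_lit 27080238190], nat_lit 0, nat_lit 0, nat_lit 0, nat_lit 0, nat_lit 0, nat_lit 0, [], [nat_lit 20, nat_lit 40, nat_lit 40, nat_lit 80, nat_lit 16, nat_lit 260, nat_lit 50, nat_lit 8]⟩, C1.Rw.none,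
 ⟨nat_lit 0, nat_lit 2237, ⟨.ofNat (nat_lit 602531), .ofNat (nat_lit 659577), .ofNat (nat_lit 646249), .ofNat (nat_lit 705063), .ofNat (nat_lit 599967), .ofNat (nat_lit 649998), .ofNat (nat_lit 648136), .ofNat (nat_lit 699935)⟩, ⟨.ofNat (nat_lit 146756), .ofNat (nat_lit 266484), .ofNat (nat_lit 192306), .ofNat (nat_lit 312035), .ofNat (nat_lit 149997), .ofNat (nat_lit 254993), .ofNat (nat_lit 199999), .ofNat (nat_lit 304995)⟩⟩, [⟨nat_lit 4, nat_lit 100, nat_lit 35, nat_lit 80, nat_lit 100132073⟩]⟩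
noncomputable def p109_l126 : Lf2 := ⟨nat_lit 0, nat_lit 20, [nat_lit 5, nat_lit 5, nat_lit 5, nat_lit 20], true, nat_lit 80, nat_lit 160, nat_lit 0, nat_lit 336, ⟨nat_lit 0, nat_lit 1000, nat_lit 0, nat_lit 7, nat_lit 281, nat_lit 1000, nat_lit 90, nat_lit 0, nat_lit 0, nat_lit 0, nat_lit 0, nat_lit 0, nat_lit 42095943, nat_lit 21353222, nat_lit 3550835, nat_lit 4279273, true, true⟩,
 nat_lit 0, nat_lit 0, nat_lit 0, nat_lit 2624, nat_lit 4036, nat_lit 0, nat_lit 0, nat_lit 0, nat_lit 0, nat_lit 0, nat_lit 0, nat_lit 0, nat_lit 0, nat_lit 0, nat_lit 0, nat_lit 250000, nat_lit 0, nat_lit 0, [(nat_lit 25, [(nat_lit 0, nat_lit 1000)])],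
 ⟨p109_k1, nat_lit 0, nat_lit 0, nat_lit 108, nat_lit 0, nat_lit 0, [nat_lit 764000001, nat_lit 1368800000, nat_lit 2118000000], [], [nat_lit 24780292288, nat_lit 26105818336, nat_lit 26614142592, nat_lit 27824238552, nat_lit 24971229280, nat_lit 26173053792, nat_lit 26636076960, nat_lit 27736400224], nat_lit 0, nat_lit 0, nat_lit 0, nat_lit 0, nat_lit 0, nat_lit 0, [], [nat_lit 20, nat_lit 40, nat_lit 40, nat_lit 80, nat_lit 16, nat_lit 249, nat_lit 40, nat_lit 8]⟩, C1.Rw.none,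
 ⟨nat_lit 2236, nat_lit 3163, ⟨.ofNat (nat_lit 666215), .ofNat (nat_lit 727168), .ofNat (nat_lit 688370), .ofNat (nat_lit 749323), .ofNat (nat_lit 659578), .ofNat (nat_lit 716594), .ofNat (nat_lit 682352), .ofNat (nat_lit 739368)⟩, ⟨.ofNat (nat_lit 139899), .ofNat (nat_lit 261806), .ofNat (nat_lit 184209), .ofNat (nat_lit 306116), .ofNat (nat_lit 146758), .ofNat (nat_lit 260789), .ofNat (nat_lit 192306), .ofNat (nat_lit 306337)⟩⟩, []⟩
noncomputable def p109_l127 : Lf2 := ⟨nat_lit 0, nat_lit 20, [nat_lit 5, nat_lit 5, nat_lit 5, nat_lit 20], false, nat_lit 80, nat_lit 160, nat_lit 0, nat_lit 320, ⟨nat_lit 71, nat_lit 929, nat_lit 0, nat_lit 7, nat_lit 290, nat_lit 929, nat_lit 90, nat_lit 0, nat_lit 0, nat_lit 0, nat_lit 0, nat_lit 0, nat_lit 41262364, nat_lit 22228930, nat_lit 3508706, nat_lit 4313770, true, true⟩,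
 nat_lit 0, nat_lit 0, nat_lit 994, nat_lit 0, nat_lit 4242, nat_lit 578, nat_lit 0, nat_lit 0, nat_lit 0, nat_lit 50, nat_lit 0, nat_lit 0, nat_lit 0, nat_lit 0, nat_lit 0, nat_lit 232250, nat_lit 0, nat_lit 0, [(nat_lit 25, [(nat_lit 0, nat_lit 929)])],
 ⟨p109_k1, nat_lit 0, nat_lit 0, nat_lit 108, nat_lit 0, nat_lit 0, [nat_lit 776354001, nat_lit 1504637200, nat_lit 2411372000], [], [nat_lit 25034937936, nat_lit 26394591592, nat_lit 26903615424, nat_lit 28143398044, nat_lit 25153872160, nat_lit 26385317824, nat_lit 26847741120, nat_lit 27973798728], nat_lit 0, nat_lit 0, nat_lit 0, nat_lit 0, nat_lit 0, nat_lit 0, [], [nat_lit 20, nat_lit 40, nat_lit 40, nat_lit 80, nat_lit 16, nat_lit 249, nat_lit 40, nat_lit 8]⟩, ⟨p109_k4, nat_lit 0, nat_lit 0, nat_lit 801, nat_lit 0, nat_lit 1204723, [nat_lit 332848000, nat_lit 565728000, nat_lit 842912000], [], [nat_lit 2638171756, nat_lit 2647325074, nat_lit 2674808646, nat_lit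 2695052420, nat_lit 2258774646, nat_lit 2260421828, nat_lit 2277647268, nat_lit 2276983672], nat_lit 1271250, nat_lit 1271250, nat_lit 1271250, nat_lit 1271250, nat_lit 0, nat_lit 2260000, [nat_lit 1100000, nat_lit 1785000, nat_lit 1271250], [nat_lit 21, nat_lit 40, nat_lit 40, nat_lit 80, nat_lit 14, nat_lit 483, nat_lit 250, nat_lit 12]⟩,
 ⟨nat_lit 2236, nat_lit 3163, ⟨.ofNat (nat_lit 688370), .ofNat (nat_lit 749323), .ofNat (nat_lit 710480), .ofNat (nat_lit 771478), .ofNat (nat_lit 682352), .ofNat (nat_lit 739368), .ofNat (nat_lit 705082), .ofNat (nat_lit 762142)⟩, ⟨.ofNat (nat_lit 139899), .ofNat (nat_lit 261806), .ofNat (nat_lit 184209), .ofNat (nat_lit 306116), .ofNat (nat_lit 146758), .ofNat (nat_lit 260789), .ofNat (nat_lit 192306), .ofNat (nat_lit 306337)⟩⟩, [⟨nat_lit 4, nat_lit 100, nat_lit 54, nat_lit 73, nat_lit 13208611⟩, ⟨nat_lit 19, nat_lit 100, nat_lit 97, nat_lit 76, nat_lit 8263281⟩]⟩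
noncomputable def p109_l128 : Lf2 := ⟨nat_lit 0, nat_lit 20, [nat_lit 5, nat_lit 5, nat_lit 5, nat_lit 20], false, nat_lit 80, nat_lit 160, nat_lit 0, nat_lit 336, ⟨nat_lit 42, nat_lit 958, nat_lit 0, nat_lit 7, nat_lit 283, nat_lit 958, nat_lit 91, nat_lit 0, nat_lit 0, nat_lit 0, nat_lit 0, nat_lit 0, nat_lit 41867803, nat_lit 21538486, nat_lit 3593711, nat_lit 4298413, true, true⟩,
 nat_lit 0, nat_lit 0, nat_lit 786, nat_lit 0, nat_lit 3688, nat_lit 416, nat_lit 0, nat_lit 0, nat_lit 0, nat_lit 19, nat_lit 0, nat_lit 0, nat_lit 0, nat_lit 0, nat_lit 0, nat_lit 239500, nat_lit 0, nat_lit 0, [(nat_lit 28, [(nat_lit 0, nat_lit 958)])],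
 ⟨p109_k23, nat_lit 0, nat_lit 0, nat_lit 114, nat_lit 0, nat_lit 0, [nat_lit 788168801, nat_lit 1691759200, nat_lit 1757363200], [], [nat_lit 25752950288, nat_lit 26386887080, nat_lit 27420038416, nat_lit 28000011256, nat_lit 25949434336, nat_lit 26525326784, nat_lit 27470320592, nat_lit 27998745448], nat_lit 0, nat_lit 0, nat_lit 0, nat_lit 0, nat_lit 0, nat_lit 0, [], [nat_lit 55, nat_lit 40, nat_lit 40, nat_lit 80, nat_lit 3, nat_lit 249, nat_lit 40, nat_lit 8]⟩, ⟨p109_k24, nat_lit 0, nat_lit 0, nat_lit 1033, nat_lit 0, nat_lit 1609271, [nat_lit 196896000, nat_lit 413364000, nat_lit 590436000], [], [nat_lit 1946224952, nat_lit 1932958608, nat_lit 1944146632, nat_lit 1928388112, nat_lit 1557589832, nat_lit 1534328610, nat_lit 1543358904, nat_lit 1518412561], nat_lit 1271250, nat_lit 1271250, nat_lit 1271250, nat_lit 1271250, nat_lit 0, nat_lit 2373000, [nat_lit 1100000, nat_lit 2127500, nat_lit 1271250], [nat_lit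 56, nat_lit 40, nat_lit 40, nat_lit 80, nat_lit 32, nat_lit 483, nat_lit 250, nat_lit 11]⟩,
 ⟨nat_lit 1581, nat_lit 2237, ⟨.ofNat (nat_lit 659578), .ofNat (nat_lit 716594), .ofNat (nat_lit 705117), .ofNat (nat_lit 762142), .ofNat (nat_lit 655900), .ofNat (nat_lit 710536), .ofNat (nat_lit 702521), .ofNat (nat_lit 757166)⟩, ⟨.ofNat (nat_lit 146758), .ofNat (nat_lit 260789), .ofNat (nat_lit 192306), .ofNat (nat_lit 306337), .ofNat (nat_lit 149571), .ofNat (nat_lit 258843), .ofNat (nat_lit 196201), .ofNat (nat_lit 305473)⟩⟩, [⟨nat_lit 4, nat_lit 100, nat_lit 41, nat_lit 77, nat_lit 85731557⟩, ⟨nat_lit 19, nat_lit 100, nat_lit 92, nat_lit 75, nat_lit 2423681⟩]⟩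
noncomputable def p109_l129 : Lf2 := ⟨nat_lit 0, nat_lit 20, [nat_lit 5, nat_lit 5, nat_lit 5, nat_lit 20], true, nat_lit 80, nat_lit 136, nat_lit 0, nat_lit 336, ⟨nat_lit 0, nat_lit 1000, nat_lit 0, nat_lit 7, nat_lit 281, nat_lit 1000, nat_lit 84, nat_lit 0, nat_lit 0, nat_lit 0, nat_lit 0, nat_lit 0, nat_lit 42353856, nat_lit 21419551, nat_lit 3226593, nat_lit 4208962, true, true⟩,
 nat_lit 0, nat_lit 0, nat_lit 0, nat_lit 0, nat_lit 2906, nat_lit 0, nat_lit 0, nat_lit 0, nat_lit 0, nat_lit 0, nat_lit 0, nat_lit 0, nat_lit 0, nat_lit 0, nat_lit 0, nat_lit 250000, nat_lit 0, nat_lit 0, [(nat_lit 28, [(nat_lit 0, nat_lit 1000)])],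
 ⟨p109_k15, nat_lit 0, nat_lit 0, nat_lit 102, nat_lit 0, nat_lit 0, [nat_lit 781600001, nat_lit 1046000001, nat_lit 1376400000], [], [nat_lit 25331089558, nat_lit 25865634362, nat_lit 26844888178, nat_lit 27398897408, nat_lit 25733872792, nat_lit 26235974526, nat_lit 27096188683, nat_lit 27616996554], nat_lit 0, nat_lit 0, nat_lit 0, nat_lit 0, nat_lit 0, nat_lit 0, [], [nat_lit 35, nat_lit 40, nat_lit 40, nat_lit 80, nat_lit 22, nat_lit 249, nat_lit 40, nat_lit 9]⟩, C1.Rw.none,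
 ⟨nat_lit 0, nat_lit 1582, ⟨.ofNat (nat_lit 655899), .ofNat (nat_lit 710533), .ofNat (nat_lit 702515), .ofNat (nat_lit 757165), .ofNat (nat_lit 649998), .ofNat (nat_lit 699996), .ofNat (nat_lit 699984), .ofNat (nat_lit 749998)⟩, ⟨.ofNat (nat_lit 149570), .ofNat (nat_lit 226057), .ofNat (nat_lit 196201), .ofNat (nat_lit 272689), .ofNat (nat_lit 149998), .ofNat (nat_lit 219995), .ofNat (nat_lit 199999), .ofNat (nat_lit 269997)⟩⟩, [⟨nat_lit 16, nat_lit 33, nat_lit 100, nat_lit 84, nat_lit 161804652⟩]⟩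
noncomputable def p109_l130 : Lf2 := ⟨nat_lit 0, nat_lit 20, [nat_lit 5, nat_lit 5, nat_lit 5, nat_lit 20], true, nat_lit 160, nat_lit 200, nat_lit 4, nat_lit 336, ⟨nat_lit 0, nat_lit 1000, nat_lit 0, nat_lit 7, nat_lit 284, nat_lit 1000, nat_lit 123, nat_lit 0, nat_lit 0, nat_lit 0, nat_lit 0, nat_lit 0, nat_lit 40376107, nat_lit 21045310, nat_lit 5578583, nat_lit 4664394, true, true⟩,
 nat_lit 0, nat_lit 0, nat_lit 0, nat_lit 3053, nat_lit 3265, nat_lit 0, nat_lit 0, nat_lit 0, nat_lit 0, nat_lit 0, nat_lit 0, nat_lit 0, nat_lit 0, nat_lit 0, nat_lit 0, nat_lit 250000, nat_lit 0, nat_lit 0, [(nat_lit 25, [(nat_lit 0, nat_lit 1000)]), (nat_lit 28, [(nat_lit 0, nat_lit 1000)])],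
 ⟨p109_k25, nat_lit 0, nat_lit 0, nat_lit 78, nat_lit 0, nat_lit 0, [nat_lit 781600001, nat_lit 1715600001, nat_lit 2118000000], [], [nat_lit 24255496641, nat_lit 26568830661, nat_lit 25907550941, nat_lit 28032987041, nat_lit 25103325941, nat_lit 27281810451, nat_lit 26655512261, nat_lit 28660172561], nat_lit 0, nat_lit 0, nat_lit 0, nat_lit 0, nat_lit 0, nat_lit 0, [], [nat_lit 55, nat_lit 40, nat_lit 40, nat_lit 80, nat_lit 3, nat_lit 260, nat_lit 50, nat_lit 8]⟩, C1.Rw.none,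
 ⟨nat_lit 0, nat_lit 3163, ⟨.ofNat (nat_lit 666215), .ofNat (nat_lit 727166), .ofNat (nat_lit 710256), .ofNat (nat_lit 771478), .ofNat (nat_lit 649999), .ofNat (nat_lit 699997), .ofNat (nat_lit 699730), .ofNat (nat_lit 749999)⟩, ⟨.ofNat (nat_lit 261802), .ofNat (nat_lit 322753), .ofNat (nat_lit 306113), .ofNat (nat_lit 367065), .ofNat (nat_lit 249995), .ofNat (nat_lit 299993), .ofNat (nat_lit 299996), .ofNat (nat_lit 349995)⟩⟩, [⟨nat_lit 16, nat_lit 60, nat_lit 100, nat_lit 80, nat_lit 78529776⟩, ⟨nat_lit 4, nat_lit 100, nat_lit 46, nat_lit 75, nat_lit 212702655⟩]⟩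
noncomputable def b_V_900_600_10_21 : St := ⟨true, nat_lit 0, nat_lit 1, nat_lit 1, nat_lit 80, nat_lit 360, nat_lit 400, nat_lit 240, nat_lit 280, nat_lit 240, nat_lit 320, nat_lit 40, nat_lit 80, nat_lit 80, nat_lit 200, nat_lit 0, nat_lit 336, nat_lit 80, nat_lit 120, nat_lit 0, nat_lit 0, nat_lit 0, nat_lit 0⟩
theorem d_V_900_600_10_21 (h : EB TB.env) : Dead b_V_900_600_10_21 := chkB_sound0 h (T :=
(.spl (nat_lit 2) (nat_lit 280)
(.spl (nat_lit 0) (nat_lit 380)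
(.leaf p109_l124)
(.trX (nat_lit 16) (nat_lit 44) (nat_lit 100) (nat_lit 82) (nat_lit 164) (.leaf p109_l125)))
(.spl (nat_lit 4) (nat_lit 160)
(.spl (nat_lit 0) (nat_lit 380)
(.spl (nat_lit 1) (nat_lit 260)
(.leaf p109_l126)
(.trX (nat_lit 19) (nat_lit 100) (nat_lit 85) (nat_lit 84) (nat_lit 320) (.leaf p109_l127)))
(.spl (nat_lit 0) (nat_lit 390)
(.leaf p109_l128)
(.trX (nat_lit 16) (nat_lit 33) (nat_lit 100) (nat_lit 84) (nat_lit 136) (.leaf p109_l129))))
(.trZ (nat_lit 9) (nat_lit 100) (nat_lit 94) (nat_lit 21) (nat_lit 4) (.leaf p109_l130))))) (by decide +kernel)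
noncomputable def p109_l131 : Lf2 := ⟨nat_lit 0, nat_lit 15, [nat_lit 30, nat_lit 5, nat_lit 5, nat_lit 20], false, nat_lit 80, nat_lit 160, nat_lit 0, nat_lit 312, ⟨nat_lit 84, nat_lit 916, nat_lit 0, nat_lit 8, nat_lit 306, nat_lit 916, nat_lit 85, nat_lit 0, nat_lit 0, nat_lit 0, nat_lit 0, nat_lit 0, nat_lit 39993250, nat_lit 23823610, nat_lit 3183140, nat_lit 4309854, true, true⟩,
 nat_lit 0, nat_lit 0, nat_lit 1427, nat_lit 0, nat_lit 3959, nat_lit 755, nat_lit 0, nat_lit 0, nat_lit 0, nat_lit 51, nat_lit 0, nat_lit 0, nat_lit 0, nat_lit 0, nat_lit 0, nat_lit 229000, nat_lit 0, nat_lit 0, [(nat_lit 25, [(nat_lit 0, nat_lit 916)])],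
 ⟨p109_k12, nat_lit 0, nat_lit 0, nat_lit 120, nat_lit 0, nat_lit 0, [nat_lit 778616001, nat_lit 1529508800, nat_lit 2465088000], [], [nat_lit 26962688048, nat_lit 28161687538, nat_lit 29193457136, nat_lit 30267470283, nat_lit 27013706240, nat_lit 28104410356, nat_lit 29044901545, nat_lit 30025392691], nat_lit 0, nat_lit 0, nat_lit 0, nat_lit 0, nat_lit 0, nat_lit 0, [], [nat_lit 20, nat_lit 40, nat_lit 40, nat_lit 80, nat_lit 16, nat_lit 249, nat_lit 40, nat_lit 8]⟩, ⟨p109_k13, nat_lit 0, nat_lit 0, nat_lit 697, nat_lit 0, nat_lit 997953, [nat_lit 393792000, nat_lit 669312000, nat_lit 997248000], [], [nat_lit 3379569032, nat_lit 3384603264, nat_lit 3529117865, nat_lit 3554855783, nat_lit 2794763994, nat_lit 2791758452, nat_lit 2877895720, nat_lit 2883024601], nat_lit 1271250, nat_lit 1271250, nat_lit 1271250, nat_lit 1271250, nat_lit 0, nat_lit 2203500, [nat_lit 1100000, nat_lit 1785000, nat_lit 1271250], [nat_lit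 21, nat_lit 40, nat_lit 40, nat_lit 80, nat_lit 14, nat_lit 373, nat_lit 150, nat_lit 9]⟩,
 ⟨nat_lit 2236, nat_lit 3163, ⟨.ofNat (nat_lit 727168), .ofNat (nat_lit 794217), .ofNat (nat_lit 749323), .ofNat (nat_lit 816372), .ofNat (nat_lit 716594), .ofNat (nat_lit 779311), .ofNat (nat_lit 739368), .ofNat (nat_lit 802085)⟩, ⟨.ofNat (nat_lit 139899), .ofNat (nat_lit 261806), .ofNat (nat_lit 162054), .ofNat (nat_lit 283961), .ofNat (nat_lit 146758), .ofNat (nat_lit 260789), .ofNat (nat_lit 169532), .ofNat (nat_lit 283563)⟩⟩, [⟨nat_lit 13, nat_lit 54, nat_lit 71, nat_lit 100, nat_lit 347714063⟩, ⟨nat_lit 4, nat_lit 100, nat_lit 55, nat_lit 69, nat_lit 27662038⟩, ⟨nat_lit 19, nat_lit 100, nat_lit 92, nat_lit 68, nat_lit 6773704⟩]⟩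
noncomputable def p109_l132 : Lf2 := ⟨nat_lit 0, nat_lit 20, [nat_lit 5, nat_lit 5, nat_lit 5, nat_lit 20], false, nat_lit 80, nat_lit 160, nat_lit 0, nat_lit 336, ⟨nat_lit 73, nat_lit 927, nat_lit 0, nat_lit 8, nat_lit 306, nat_lit 927, nat_lit 94, nat_lit 0, nat_lit 0, nat_lit 0, nat_lit 0, nat_lit 0, nat_lit 39644141, nat_lit 23670666, nat_lit 3685193, nat_lit 4415611, true, true⟩,
 nat_lit 0, nat_lit 0, nat_lit 1158, nat_lit 0, nat_lit 4017, nat_lit 613, nat_lit 0, nat_lit 0, nat_lit 0, nat_lit 51, nat_lit 0, nat_lit 0, nat_lit 0, nat_lit 0, nat_lit 0, nat_lit 231750, nat_lit 0, nat_lit 0, [(nat_lit 25, [(nat_lit 0, nat_lit 927)])],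
 ⟨p109_k1, nat_lit 0, nat_lit 0, nat_lit 120, nat_lit 0, nat_lit 0, [nat_lit 776702001, nat_lit 1508463601, nat_lit 2419636000], [], [nat_lit 26916138224, nat_lit 28123496094, nat_lit 29160550768, nat_lit 30372102142, nat_lit 26945249120, nat_lit 28043198828, nat_lit 28988091243, nat_lit 29974619841], nat_lit 0, nat_lit 0, nat_lit 0, nat_lit 0, nat_lit 0, nat_lit 0, [], [nat_lit 20, nat_lit 40, nat_lit 40, nat_lit 80, nat_lit 16, nat_lit 249, nat_lit 40, nat_lit 8]⟩, ⟨p109_k10, nat_lit 0, nat_lit 0, nat_lit 701, nat_lit 0, nat_lit 867653, [nat_lit 342224000, nat_lit 581664000, nat_lit 1026234000], [], [nat_lit 3082022952, nat_lit 3099533574, nat_lit 3197231926, nat_lit 3208653440, nat_lit 2582122066, nat_lit 2579410325, nat_lit 2633369289, nat_lit 2638000038], nat_lit 1271250, nat_lit 1271250, nat_lit 1271250, nat_lit 1271250, nat_lit 0, nat_lit 2373000, [nat_lit 1100000, nat_lit 1785000, nat_lit 1271250], [nat_lit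 37, nat_lit 40, nat_lit 40, nat_lit 80, nat_lit 28, nat_lit 483, nat_lit 250, nat_lit 11]⟩,
 ⟨nat_lit 2236, nat_lit 3163, ⟨.ofNat (nat_lit 727168), .ofNat (nat_lit 794217), .ofNat (nat_lit 749323), .ofNat (nat_lit 816372), .ofNat (nat_lit 716594), .ofNat (nat_lit 779311), .ofNat (nat_lit 739368), .ofNat (nat_lit 802085)⟩, ⟨.ofNat (nat_lit 162054), .ofNat (nat_lit 283961), .ofNat (nat_lit 184209), .ofNat (nat_lit 306116), .ofNat (nat_lit 169532), .ofNat (nat_lit 283563), .ofNat (nat_lit 192306), .ofNat (nat_lit 306337)⟩⟩, [⟨nat_lit 13, nat_lit 54, nat_lit 71, nat_lit 100, nat_lit 338045490⟩, ⟨nat_lit 22, nat_lit 76, nat_lit 100, nat_lit 98, nat_lit 7164418⟩]⟩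
noncomputable def p109_l133 : Lf2 := ⟨nat_lit 0, nat_lit 20, [nat_lit 5, nat_lit 5, nat_lit 5, nat_lit 20], false, nat_lit 80, nat_lit 160, nat_lit 0, nat_lit 336, ⟨nat_lit 137, nat_lit 863, nat_lit 0, nat_lit 8, nat_lit 306, nat_lit 863, nat_lit 94, nat_lit 0, nat_lit 0, nat_lit 0, nat_lit 0, nat_lit 0, nat_lit 39644141, nat_lit 23670666, nat_lit 3685193, nat_lit 4415611, true, true⟩,
 nat_lit 0, nat_lit 0, nat_lit 2192, nat_lit 0, nat_lit 4105, nat_lit 1160, nat_lit 0, nat_lit 0, nat_lit 0, nat_lit 106, nat_lit 0, nat_lit 0, nat_lit 0, nat_lit 0, nat_lit 0, nat_lit 215750, nat_lit 0, nat_lit 0, [(nat_lit 25, [(nat_lit 0, nat_lit 863)])],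
 ⟨p109_k1, nat_lit 0, nat_lit 0, nat_lit 120, nat_lit 0, nat_lit 0, [nat_lit 787838001, nat_lit 1630908401, nat_lit 2684084000], [], [nat_lit 27178920560, nat_lit 28398960110, nat_lit 29444033520, nat_lit 30535622410, nat_lit 27174792800, nat_lit 28283735820, nat_lit 29235305956, nat_lit 30230994826], nat_lit 0, nat_lit 0, nat_lit 0, nat_lit 0, nat_lit 0, nat_lit 0, [], [nat_lit 20, nat_lit 40, nat_lit 40, nat_lit 80, nat_lit 16, nat_lit 249, nat_lit 40, nat_lit 8]⟩, ⟨p109_k10, nat_lit 0, nat_lit 0, nat_lit 470, nat_lit 0, nat_lit 420254, [nat_lit 642256000, nat_lit 1091616000, nat_lit 1925946000], [], [nat_lit 5574570788, nat_lit 5607233504, nat_lit 5791417073, nat_lit 5812573292, nat_lit 4622846951, nat_lit 4627782689, nat_lit 4816882229, nat_lit 4844149581], nat_lit 1271250, nat_lit 1271250, nat_lit 1271250, nat_lit 1271250, nat_lit 0, nat_lit 2373000, [nat_lit 1100000, nat_lit 1785000, nat_lit 1271250], [nat_lit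 37, nat_lit 40, nat_lit 40, nat_lit 80, nat_lit 28, nat_lit 483, nat_lit 250, nat_lit 11]⟩,
 ⟨nat_lit 2236, nat_lit 3163, ⟨.ofNat (nat_lit 727168), .ofNat (nat_lit 794217), .ofNat (nat_lit 749323), .ofNat (nat_lit 816372), .ofNat (nat_lit 716594), .ofNat (nat_lit 779311), .ofNat (nat_lit 739368), .ofNat (nat_lit 802085)⟩, ⟨.ofNat (nat_lit 162054), .ofNat (nat_lit 283961), .ofNat (nat_lit 184209), .ofNat (nat_lit 306116), .ofNat (nat_lit 169532), .ofNat (nat_lit 283563), .ofNat (nat_lit 192306), .ofNat (nat_lit 306337)⟩⟩, [⟨nat_lit 13, nat_lit 54, nat_lit 71, nat_lit 100, nat_lit 349195503⟩, ⟨nat_lit 4, nat_lit 100, nat_lit 53, nat_lit 77, nat_lit 25500157⟩, ⟨nat_lit 7, nat_lit 85, nat_lit 100, nat_lit 78, nat_lit 14475215⟩]⟩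
noncomputable def p109_l134 : Lf2 := ⟨nat_lit 0, nat_lit 20, [nat_lit 5, nat_lit 5, nat_lit 5, nat_lit 20], false, nat_lit 160, nat_lit 200, nat_lit 16, nat_lit 336, ⟨nat_lit 99, nat_lit 901, nat_lit 0, nat_lit 8, nat_lit 303, nat_lit 901, nat_lit 125, nat_lit 0, nat_lit 0, nat_lit 0, nat_lit 0, nat_lit 0, nat_lit 38641333, nat_lit 22773970, nat_lit 5584697, nat_lit 4745626, true, true⟩,
 nat_lit 0, nat_lit 0, nat_lit 1665, nat_lit 0, nat_lit 4132, nat_lit 881, nat_lit 0, nat_lit 0, nat_lit 0, nat_lit 70, nat_lit 0, nat_lit 0, nat_lit 0, nat_lit 0, nat_lit 0, nat_lit 225250, nat_lit 0, nat_lit 0, [(nat_lit 25, [(nat_lit 0, nat_lit 901)])],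
 ⟨p109_k1, nat_lit 0, nat_lit 0, nat_lit 85, nat_lit 0, nat_lit 0, [nat_lit 781226000, nat_lit 1558206800, nat_lit 2527068000], [], [nat_lit 27007067520, nat_lit 28119383488, nat_lit 28871248304, nat_lit 29880019136, nat_lit 27657045992, nat_lit 28702910676, nat_lit 29406450432, nat_lit 30416984852], nat_lit 0, nat_lit 0, nat_lit 0, nat_lit 0, nat_lit 0, nat_lit 0, [], [nat_lit 20, nat_lit 40, nat_lit 40, nat_lit 80, nat_lit 16, nat_lit 260, nat_lit 50, nat_lit 8]⟩, ⟨p109_k10, nat_lit 0, nat_lit 0, nat_lit 804, nat_lit 0, nat_lit 1149651, [nat_lit 464112000, nat_lit 788832000, nat_lit 1391742000], [], [nat_lit 4027551897, nat_lit 4038834880, nat_lit 4168631315, nat_lit 4176032978, nat_lit 3365997214, nat_lit 3370167855, nat_lit 3512144769, nat_lit 3521901304], nat_lit 1271250, nat_lit 1271250, nat_lit 1271250, nat_lit 1271250, nat_lit 88400, nat_lit 2396400, [nat_lit 1100000, nat_lit 1785000, nat_lit 1271250], [nat_lit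 37, nat_lit 40, nat_lit 40, nat_lit 80, nat_lit 28, nat_lit 483, nat_lit 250, nat_lit 11]⟩,
 ⟨nat_lit 2236, nat_lit 3163, ⟨.ofNat (nat_lit 727168), .ofNat (nat_lit 788122), .ofNat (nat_lit 738246), .ofNat (nat_lit 799199), .ofNat (nat_lit 716594), .ofNat (nat_lit 773609), .ofNat (nat_lit 727981), .ofNat (nat_lit 784996)⟩, ⟨.ofNat (nat_lit 261806), .ofNat (nat_lit 322759), .ofNat (nat_lit 306116), .ofNat (nat_lit 367069), .ofNat (nat_lit 260789), .ofNat (nat_lit 317804), .ofNat (nat_lit 306337), .ofNat (nat_lit 363353)⟩⟩, [⟨nat_lit 13, nat_lit 62, nat_lit 65, nat_lit 100, nat_lit 291004721⟩, ⟨nat_lit 16, nat_lit 54, nat_lit 100, nat_lit 73, nat_lit 257524569⟩, ⟨nat_lit 19, nat_lit 100, nat_lit 86, nat_lit 73, nat_lit 11823463⟩]⟩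
noncomputable def p109_l135 : Lf2 := ⟨nat_lit 0, nat_lit 20, [nat_lit 5, nat_lit 5, nat_lit 5, nat_lit 20], false, nat_lit 160, nat_lit 200, nat_lit 16, nat_lit 328, ⟨nat_lit 121, nat_lit 879, nat_lit 0, nat_lit 8, nat_lit 310, nat_lit 879, nat_lit 126, nat_lit 0, nat_lit 0, nat_lit 0, nat_lit 0, nat_lit 0, nat_lit 38050228, nat_lit 23403400, nat_lit 5546372, nat_lit 4764082, true, true⟩,
 nat_lit 0, nat_lit 0, nat_lit 1773, nat_lit 0, nat_lit 4259, nat_lit 984, nat_lit 0, nat_lit 0, nat_lit 0, nat_lit 96, nat_lit 0, nat_lit 0, nat_lit 0, nat_lit 0, nat_lit 0, nat_lit 219750, nat_lit 0, nat_lit 0, [(nat_lit 25, [(nat_lit 0, nat_lit 879)])],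
 ⟨p109_k1, nat_lit 0, nat_lit 0, nat_lit 79, nat_lit 0, nat_lit 0, [nat_lit 785054000, nat_lit 1600297200, nat_lit 2617972000], [], [nat_lit 27047598240, nat_lit 27611688898, nat_lit 29139035705, nat_lit 29645439509, nat_lit 27690495954, nat_lit 28220615671, nat_lit 29652562569, nat_lit 30214728054], nat_lit 0, nat_lit 0, nat_lit 0, nat_lit 0, nat_lit 0, nat_lit 0, [], [nat_lit 20, nat_lit 40, nat_lit 40, nat_lit 80, nat_lit 16, nat_lit 260, nat_lit 50, nat_lit 8]⟩, ⟨p109_k3, nat_lit 0, nat_lit 0, nat_lit 720, nat_lit 0, nat_lit 924443, [nat_lit 567248000, nat_lit 964128000, nat_lit 1701018000], [], [nat_lit 4621023679, nat_lit 4630056845, nat_lit 4748679872, nat_lit 4757899884, nat_lit 4072888872, nat_lit 4077583424, nat_lit 4169659303, nat_lit 4177076960], nat_lit 1271250, nat_lit 1271250, nat_lit 1271250, nat_lit 1271250, nat_lit 88400, nat_lit 2338700, [nat_lit 1100000, nat_lit 1785000, nat_lit 1271250], [nat_lit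 37, nat_lit 40, nat_lit 40, nat_lit 80, nat_lit 28, nat_lit 483, nat_lit 250, nat_lit 11]⟩,
 ⟨nat_lit 2738, nat_lit 3163, ⟨.ofNat (nat_lit 738246), .ofNat (nat_lit 805295), .ofNat (nat_lit 749323), .ofNat (nat_lit 816372), .ofNat (nat_lit 733226), .ofNat (nat_lit 798193), .ofNat (nat_lit 744435), .ofNat (nat_lit 809402)⟩, ⟨.ofNat (nat_lit 261806), .ofNat (nat_lit 322759), .ofNat (nat_lit 306116), .ofNat (nat_lit 367069), .ofNat (nat_lit 261598), .ofNat (nat_lit 320659), .ofNat (nat_lit 306433), .ofNat (nat_lit 365494)⟩⟩, [⟨nat_lit 13, nat_lit 59, nat_lit 66, nat_lit 100, nat_lit 284298737⟩, ⟨nat_lit 16, nat_lit 57, nat_lit 100, nat_lit 73, nat_lit 251594944⟩, ⟨nat_lit 19, nat_lit 100, nat_lit 90, nat_lit 74, nat_lit 18773475⟩]⟩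
noncomputable def p109_l136 : Lf2 := ⟨nat_lit 0, nat_lit 20, [nat_lit 5, nat_lit 5, nat_lit 5, nat_lit 20], false, nat_lit 160, nat_lit 184, nat_lit 16, nat_lit 328, ⟨nat_lit 80, nat_lit 920, nat_lit 0, nat_lit 8, nat_lit 304, nat_lit 920, nat_lit 120, nat_lit 0, nat_lit 0, nat_lit 0, nat_lit 0, nat_lit 0, nat_lit 38769662, nat_lit 22960081, nat_lit 5270257, nat_lit 4697926, true, true⟩,
 nat_lit 0, nat_lit 0, nat_lit 1234, nat_lit 0, nat_lit 4188, nat_lit 685, nat_lit 0, nat_lit 0, nat_lit 0, nat_lit 76, nat_lit 0, nat_lit 0, nat_lit 0, nat_lit 0, nat_lit 0, nat_lit 230000, nat_lit 0, nat_lit 0, [(nat_lit 25, [(nat_lit 0, nat_lit 920)])],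
 ⟨p109_k6, nat_lit 0, nat_lit 0, nat_lit 79, nat_lit 0, nat_lit 0, [nat_lit 777920001, nat_lit 1521856000, nat_lit 2448560000], [], [nat_lit 27466003536, nat_lit 28025659392, nat_lit 28923552292, nat_lit 29501967538, nat_lit 27833984718, nat_lit 28373508008, nat_lit 29238332300, nat_lit 29849331518], nat_lit 0, nat_lit 0, nat_lit 0, nat_lit 0, nat_lit 0, nat_lit 0, [], [nat_lit 20, nat_lit 40, nat_lit 40, nat_lit 80, nat_lit 16, nat_lit 260, nat_lit 50, nat_lit 8]⟩, ⟨p109_k3, nat_lit 0, nat_lit 0, nat_lit 793, nat_lit 0, nat_lit 1125716, [nat_lit 375040000, nat_lit 637440000, nat_lit 1124640000], [], [nat_lit 2937717875, nat_lit 2943934807, nat_lit 2997443903, nat_lit 3001964810, nat_lit 2542728202, nat_lit 2541402444, nat_lit 2569897315, nat_lit 2582747946], nat_lit 1271250, nat_lit 1271250, nat_lit 1271250, nat_lit 1271250, nat_lit 88400, nat_lit 2338700, [nat_lit 1100000, nat_lit 1785000, nat_lit 1271250], [nat_lit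 37, nat_lit 40, nat_lit 40, nat_lit 80, nat_lit 28, nat_lit 483, nat_lit 250, nat_lit 11]⟩,
 ⟨nat_lit 2236, nat_lit 2739, ⟨.ofNat (nat_lit 733226), .ofNat (nat_lit 780475), .ofNat (nat_lit 744435), .ofNat (nat_lit 791684), .ofNat (nat_lit 727981), .ofNat (nat_lit 773593), .ofNat (nat_lit 739368), .ofNat (nat_lit 784980)⟩, ⟨.ofNat (nat_lit 261598), .ofNat (nat_lit 297035), .ofNat (nat_lit 306433), .ofNat (nat_lit 341870), .ofNat (nat_lit 260789), .ofNat (nat_lit 294998), .ofNat (nat_lit 306337), .ofNat (nat_lit 340547)⟩⟩, [⟨nat_lit 13, nat_lit 55, nat_lit 68, nat_lit 100, nat_lit 326505026⟩, ⟨nat_lit 16, nat_lit 53, nat_lit 100, nat_lit 80, nat_lit 237401224⟩, ⟨nat_lit 19, nat_lit 100, nat_lit 81, nat_lit 83, nat_lit 10144242⟩]⟩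
noncomputable def p109_l137 : Lf2 := ⟨nat_lit 0, nat_lit 20, [nat_lit 5, nat_lit 5, nat_lit 5, nat_lit 20], false, nat_lit 160, nat_lit 200, nat_lit 16, nat_lit 336, ⟨nat_lit 1000, nat_lit 0, nat_lit 0, nat_lit 0, nat_lit 0, nat_lit 0, nat_lit 0, nat_lit 0, nat_lit 0, nat_lit 0, nat_lit 0, nat_lit 0, nat_lit 0, nat_lit 0, nat_lit 0, nat_lit 0, false, false⟩,
 nat_lit 0, nat_lit 0, nat_lit 15896, nat_lit 0, nat_lit 6825, nat_lit 8415, nat_lit 0, nat_lit 0, nat_lit 0, nat_lit 791, nat_lit 0, nat_lit 0, nat_lit 0, nat_lit 0, nat_lit 0, nat_lit 0, nat_lit 0, nat_lit 0, [],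
 ⟨p109_k1, nat_lit 0, nat_lit 0, nat_lit 79, nat_lit 0, nat_lit 0, [nat_lit 938000000, nat_lit 3282000000, nat_lit 6250000000], [], [nat_lit 29661848000, nat_lit 30386216150, nat_lit 32268556740, nat_lit 32907969016, nat_lit 30161680950, nat_lit 30837019588, nat_lit 32582552471, nat_lit 33273625477], nat_lit 0, nat_lit 0, nat_lit 0, nat_lit 0, nat_lit 0, nat_lit 0, [], [nat_lit 20, nat_lit 40, nat_lit 40, nat_lit 80, nat_lit 16, nat_lit 260, nat_lit 50, nat_lit 8]⟩, ⟨p109_k10, nat_lit 0, nat_lit 0, nat_lit 551, nat_lit 0, nat_lit 547906, [nat_lit 4688000000, nat_lit 7968000000, nat_lit 14058000000], [], [nat_lit 39281809544, nat_lit 39519809959, nat_lit 40845356993, nat_lit 41000768755, nat_lit 33735323369, nat_lit 33911374462, nat_lit 35006952275, nat_lit 35207274001], nat_lit 1271250, nat_lit 1271250, nat_lit 1271250, nat_lit 1271250, nat_lit 88400, nat_lit 2396400, [nat_lit 1100000, nat_lit 1785000, nat_lit 1271250],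 [nat_lit 37, nat_lit 40, nat_lit 40, nat_lit 80, nat_lit 28, nat_lit 483, nat_lit 250, nat_lit 11]⟩,
 zbF0, [⟨nat_lit 13, nat_lit 58, nat_lit 68, nat_lit 100, nat_lit 36691447⟩, ⟨nat_lit 16, nat_lit 57, nat_lit 100, nat_lit 73, nat_lit 2691174843⟩, ⟨nat_lit 7, nat_lit 88, nat_lit 100, nat_lit 74, nat_lit 138991139⟩]⟩
noncomputable def p109_l138 : Lf2 := ⟨nat_lit 0, nat_lit 20, [nat_lit 5, nat_lit 5, nat_lit 5, nat_lit 20], false, nat_lit 160, nat_lit 184, nat_lit 16, nat_lit 336, ⟨nat_lit 1000, nat_lit 0, nat_lit 0, nat_lit 0, nat_lit 0, nat_lit 0, nat_lit 0, nat_lit 0, nat_lit 0, nat_lit 0, nat_lit 0, nat_lit 0, nat_lit 0, nat_lit 0, nat_lit 0, nat_lit 0, false, false⟩,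
 nat_lit 0, nat_lit 0, nat_lit 16400, nat_lit 0, nat_lit 6833, nat_lit 8682, nat_lit 0, nat_lit 0, nat_lit 0, nat_lit 723, nat_lit 0, nat_lit 0, nat_lit 0, nat_lit 0, nat_lit 0, nat_lit 0, nat_lit 0, nat_lit 0, [],
 ⟨p109_k6, nat_lit 0, nat_lit 0, nat_lit 79, nat_lit 0, nat_lit 0, [nat_lit 938000000, nat_lit 3282000000, nat_lit 6250000000], [], [nat_lit 30383542726, nat_lit 31108410572, nat_lit 32201103490, nat_lit 32864081862, nat_lit 30653729001, nat_lit 31349150971, nat_lit 32393051121, nat_lit 33085808640], nat_lit 0, nat_lit 0, nat_lit 0, nat_lit 0, nat_lit 0, nat_lit 0, [], [nat_lit 20, nat_lit 40, nat_lit 40, nat_lit 80, nat_lit 16, nat_lit 260, nat_lit 50, nat_lit 8]⟩, ⟨p109_k10, nat_lit 0, nat_lit 0, nat_lit 626, nat_lit 0, nat_lit 761286, [nat_lit 4688000000, nat_lit 7968000000, nat_lit 14058000000], [], [nat_lit 40487875116, nat_lit 40720325027, nat_lit 41618132589, nat_lit 41789135972, nat_lit 34060296101,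 nat_lit 34127133571, nat_lit 35089646188, nat_lit 35308536606], nat_lit 1271250, nat_lit 1271250, nat_lit 1271250, nat_lit 1271250, nat_lit 88400, nat_lit 2396400, [nat_lit 1100000, nat_lit 1785000, nat_lit 1271250], [nat_lit 37, nat_lit 40, nat_lit 40, nat_lit 80, nat_lit 28, nat_lit 483, nat_lit 250, nat_lit 11]⟩,
 zbF0, [⟨nat_lit 13, nat_lit 50, nat_lit 75, nat_lit 100, nat_lit 62946205⟩, ⟨nat_lit 4, nat_lit 100, nat_lit 50, nat_lit 74, nat_lit 4109483062⟩, ⟨nat_lit 19, nat_lit 100, nat_lit 88, nat_lit 74, nat_lit 124427215⟩]⟩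
noncomputable def p109_l139 : Lf2 := ⟨nat_lit 0, nat_lit 20, [nat_lit 5, nat_lit 5, nat_lit 5, nat_lit 20], true, nat_lit 80, nat_lit 164, nat_lit 0, nat_lit 336, ⟨nat_lit 0, nat_lit 1000, nat_lit 0, nat_lit 8, nat_lit 293, nat_lit 1000, nat_lit 91, nat_lit 0, nat_lit 0, nat_lit 0, nat_lit 0, nat_lit 0, nat_lit 40923913, nat_lit 22497989, nat_lit 3578098, nat_lit 4341793, true, true⟩,
 nat_lit 0, nat_lit 0, nat_lit 0, nat_lit 2911, nat_lit 3618, nat_lit 0, nat_lit 0, nat_lit 0, nat_lit 0, nat_lit 0, nat_lit 0, nat_lit 0, nat_lit 0, nat_lit 0, nat_lit 0, nat_lit 250000, nat_lit 0, nat_lit 0, [(nat_lit 28, [(nat_lit 0, nat_lit 1000)])],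
 ⟨p109_k9, nat_lit 0, nat_lit 0, nat_lit 121, nat_lit 0, nat_lit 0, [nat_lit 781600001, nat_lit 1083600000, nat_lit 1719333334], [], [nat_lit 27373245810, nat_lit 28589816888, nat_lit 28290988452, nat_lit 29630296668, nat_lit 27513132603, nat_lit 28555195788, nat_lit 28347269618, nat_lit 29447897164], nat_lit 0, nat_lit 0, nat_lit 0, nat_lit 0, nat_lit 0, nat_lit 0, [], [nat_lit 20, nat_lit 40, nat_lit 40, nat_lit 80, nat_lit 16, nat_lit 260, nat_lit 50, nat_lit 8]⟩, C1.Rw.none,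
 ⟨nat_lit 0, nat_lit 2237, ⟨.ofNat (nat_lit 716590), .ofNat (nat_lit 745097), .ofNat (nat_lit 739366), .ofNat (nat_lit 767872), .ofNat (nat_lit 699995), .ofNat (nat_lit 724995), .ofNat (nat_lit 724997), .ofNat (nat_lit 749995)⟩, ⟨.ofNat (nat_lit 146756), .ofNat (nat_lit 266484), .ofNat (nat_lit 192306), .ofNat (nat_lit 312035), .ofNat (nat_lit 149997), .ofNat (nat_lit 254993), .ofNat (nat_lit 199999), .ofNat (nat_lit 304995)⟩⟩, [⟨nat_lit 13, nat_lit 46, nat_lit 76, nat_lit 100, nat_lit 450366194⟩, ⟨nat_lit 16, nat_lit 44, nat_lit 100, nat_lit 82, nat_lit 21830633⟩]⟩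
noncomputable def b_V_900_600_10_22 : St := ⟨true, nat_lit 0, nat_lit 1, nat_lit 1, nat_lit 80, nat_lit 360, nat_lit 400, nat_lit 240, nat_lit 260, nat_lit 320, nat_lit 376, nat_lit 40, nat_lit 80, nat_lit 80, nat_lit 200, nat_lit 0, nat_lit 336, nat_lit 80, nat_lit 120, nat_lit 0, nat_lit 0, nat_lit 0, nat_lit 0⟩
theorem d_V_900_600_10_22 (h : EB TB.env) : Dead b_V_900_600_10_22 := chkB_sound0 h (T :=
(.trX (nat_lit 13) (nat_lit 63) (nat_lit 61) (nat_lit 100) (nat_lit 364) (.spl (nat_lit 0) (nat_lit 380)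
(.spl (nat_lit 4) (nat_lit 160)
(.spl (nat_lit 3) (nat_lit 60)
(.trX (nat_lit 19) (nat_lit 100) (nat_lit 85) (nat_lit 73) (nat_lit 312) (.leaf p109_l131))
(.spl (nat_lit 6) (nat_lit 100)
(.leaf p109_l132)
(.leaf p109_l133)))
(.trZ (nat_lit 9) (nat_lit 100) (nat_lit 82) (nat_lit 44) (nat_lit 16) (.spl (nat_lit 6) (nat_lit 100)
(.spl (nat_lit 1) (nat_lit 250)
(.trX (nat_lit 13) (nat_lit 62) (nat_lit 65) (nat_lit 100) (nat_lit 360) (.leaf p109_l134))
(.trX (nat_lit 19) (nat_lit 100) (nat_lit 81) (nat_lit 83) (nat_lit 328) (.spl (nat_lit 0) (nat_lit 370)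
(.leaf p109_l135)
(.trX (nat_lit 13) (nat_lit 55) (nat_lit 68) (nat_lit 100) (nat_lit 352) (.trX (nat_lit 16) (nat_lit 53) (nat_lit 100) (nat_lit 80) (nat_lit 184) (.leaf p109_l136))))))
(.spl (nat_lit 0) (nat_lit 370)
(.leaf p109_l137)
(.trX (nat_lit 13) (nat_lit 55) (nat_lit 68) (nat_lit 100) (nat_lit 352) (.trX (nat_lit 16) (nat_lit 53) (nat_lit 100) (nat_lit 80) (nat_lit 184) (.leaf p109_l138)))))))
(.trX (nat_lit 13) (nat_lit 46) (nat_lit 76) (nat_lit 100) (nat_lit 340) (.trX (nat_lit 16) (nat_lit 44) (nat_lit 100) (nat_lit 82) (nat_lit 164) (.leaf p109_l139)))))) (by decide +kernel)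

end B2
end Pool.Agent.Lib.MP_6947cd_al
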