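import Pool.Agent.Lib.MP_6947cd_al.ZB.Pre

/-!
Problem MP_6947cd_al (Chollet).  Case B, second entry in [2/5, 17/20]: certificates of the tree, part P110 (generated).
-/

set_option autoImplicit false
set_option linter.all false

namespace Pool.Agent.Lib.MP_6947cd_al
namespace B2

open Ent Fr B1 PkA

noncomputable def p110_k0 : C1.Kn := ⟨[nat_lit 20, nat_lit 60, nat_lit 100], [nat_lit 0, nat_lit 0, nat_lit 2559], [(nat_lit 0, nat_lit 0, nat_lit 0), (nat_lit 0, nat_lit 0, nat_lit 0), (nat_lit 1000, nat_lit 600, nat_lit 787)], (nat_lit 61, nat_lit 100, nat_lit 72)⟩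
noncomputable def p110_k1 : C1.Kn := ⟨[nat_lit 80, nat_lit 120, nat_lit 160], [nat_lit 0, nat_lit 528, nat_lit 2577], [(nat_lit 0, nat_lit 0, nat_lit 0), (nat_lit 1000, nat_lit 959, nat_lit 206), (nat_lit 929, nat_lit 1000, nat_lit 742)], (nat_lit 100, nat_lit 92, nat_lit 75)⟩
noncomputable def p110_k2 : C1.Kn := ⟨[nat_lit 80, nat_lit 120, nat_lit 160], [nat_lit 0, nat_lit 796, nat_lit 2802], [(nat_lit 0, nat_lit 0, nat_lit 0), (nat_lit 1000, nat_lit 938, nat_lit 310), (nat_lit 969, nat_lit 1000, nat_lit 759)], (nat_lit 100, nat_lit 97, nat_lit 76)⟩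
noncomputable def p110_k3 : C1.Kn := ⟨[nat_lit 20, nat_lit 60, nat_lit 80], [nat_lit 0, nat_lit 698, nat_lit 2008], [(nat_lit 0, nat_lit 0, nat_lit 0), (nat_lit 1000, nat_lit 782, nat_lit 272), (nat_lit 1000, nat_lit 540, nat_lit 733)], (nat_lit 54, nat_lit 100, nat_lit 73)⟩
noncomputable def p110_k4 : C1.Kn := ⟨[nat_lit 20, nat_lit 60, nat_lit 100], [nat_lit 0, nat_lit 0, nat_lit 2559], [(nat_lit 0, nat_lit 0, nat_lit 0), (nat_lit 0, nat_lit 0, nat_lit 0), (nat_lit 1000, nat_lit 600, nat_lit 787)], (nat_lit 60, nat_lit 100, nat_lit 80)⟩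
noncomputable def p110_k5 : C1.Kn := ⟨[nat_lit 80, nat_lit 120, nat_lit 160], [nat_lit 0, nat_lit 528, nat_lit 2577], [(nat_lit 0, nat_lit 0, nat_lit 0), (nat_lit 1000, nat_lit 959, nat_lit 206), (nat_lit 929, nat_lit 1000, nat_lit 742)], (nat_lit 100, nat_lit 85, nat_lit 84)⟩
noncomputable def p110_k6 : C1.Kn := ⟨[nat_lit 20, nat_lit 60, nat_lit 100], [nat_lit 0, nat_lit 698, nat_lit 3028], [(nat_lit 0, nat_lit 0, nat_lit 0), (nat_lit 1000, nat_lit 782, nat_lit 272), (nat_lit 1000, nat_lit 527, nat_lit 841)], (nat_lit 53, nat_lit 100, nat_lit 80)⟩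
noncomputable def p110_k7 : C1.Kn := ⟨[nat_lit 80, nat_lit 120, nat_lit 160], [nat_lit 0, nat_lit 796, nat_lit 2802], [(nat_lit 0, nat_lit 0, nat_lit 0), (nat_lit 1000, nat_lit 938, nat_lit 310), (nat_lit 969, nat_lit 1000, nat_lit 759)], (nat_lit 100, nat_lit 90, nat_lit 85)⟩
noncomputable def p110_k8 : C1.Kn := ⟨[nat_lit 80, nat_lit 120, nat_lit 160], [nat_lit 0, nat_lit 929, nat_lit 2912], [(nat_lit 0, nat_lit 0, nat_lit 0), (nat_lit 1000, nat_lit 927, nat_lit 362), (nat_lit 991, nat_lit 1000, nat_lit 767)], (nat_lit 100, nat_lit 92, nat_lit 86)⟩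
noncomputable def p110_k9 : C1.Kn := ⟨[nat_lit 80, nat_lit 120, nat_lit 160], [nat_lit 0, nat_lit 664, nat_lit 2688], [(nat_lit 0, nat_lit 0, nat_lit 0), (nat_lit 1000, nat_lit 948, nat_lit 259), (nat_lit 949, nat_lit 1000, nat_lit 749)], (nat_lit 100, nat_lit 87, nat_lit 85)⟩
noncomputable def p110_k10 : C1.Kn := ⟨[nat_lit 20, nat_lit 60, nat_lit 100], [nat_lit 0, nat_lit 1415, nat_lit 3591], [(nat_lit 0, nat_lit 0, nat_lit 0), (nat_lit 1000, nat_lit 558, nat_lit 551), (nat_lit 1000, nat_lit 439, nat_lit 849)], (nat_lit 44, nat_lit 100, nat_lit 82)⟩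
noncomputable def p110_k11 : C1.Kn := ⟨[nat_lit 20, nat_lit 60, nat_lit 80], [nat_lit 0, nat_lit 2136, nat_lit 3185], [(nat_lit 0, nat_lit 0, nat_lit 0), (nat_lit 1000, nat_lit 343, nat_lit 808), (nat_lit 1000, nat_lit 338, nat_lit 820)], (nat_lit 33, nat_lit 100, nat_lit 84)⟩
noncomputable def p110_k12 : C1.Kn := ⟨[nat_lit 20, nat_lit 100], [nat_lit 0, nat_lit 0], [(nat_lit 0, nat_lit 0, nat_lit 0), (nat_lit 0, nat_lit 0, nat_lit 0)], (nat_lit 60, nat_lit 100, nat_lit 80)⟩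
noncomputable def p110_k13 : C1.Kn := ⟨[nat_lit 80, nat_lit 180], [nat_lit 0, nat_lit 0], [(nat_lit 0, nat_lit 0, nat_lit 0), (nat_lit 0, nat_lit 0, nat_lit 0)], (nat_lit 100, nat_lit 76, nat_lit 82)⟩
noncomputable def p110_k14 : C1.Kn := ⟨[nat_lit 20, nat_lit 80, nat_lit 100], [nat_lit 0, nat_lit 0, nat_lit 2559], [(nat_lit 0, nat_lit 0, nat_lit 0), (nat_lit 0, nat_lit 0, nat_lit 0), (nat_lit 1000, nat_lit 600, nat_lit 787)], (nat_lit 60, nat_lit 100, nat_lit 80)⟩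
noncomputable def p110_k15 : C1.Kn := ⟨[nat_lit 20, nat_lit 100], [nat_lit 0, nat_lit 2826], [(nat_lit 0, nat_lit 0, nat_lit 0), (nat_lit 1000, nat_lit 558, nat_lit 551)], (nat_lit 44, nat_lit 100, nat_lit 82)⟩
noncomputable def p110_k16 : C1.Kn := ⟨[nat_lit 80, nat_lit 120, nat_lit 180], [nat_lit 0, nat_lit 0, nat_lit 3196], [(nat_lit 0, nat_lit 0, nat_lit 0), (nat_lit 0, nat_lit 0, nat_lit 0), (nat_lit 858, nat_lit 1000, nat_lit 713)], (nat_lit 100, nat_lit 76, nat_lit 82)⟩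
noncomputable def p110_k17 : C1.Kn := ⟨[nat_lit 80, nat_lit 120, nat_lit 180], [nat_lit 0, nat_lit 264, nat_lit 3394], [(nat_lit 0, nat_lit 0, nat_lit 0), (nat_lit 1000, nat_lit 979, nat_lit 103), (nat_lit 893, nat_lit 1000, nat_lit 726)], (nat_lit 100, nat_lit 81, nat_lit 83)⟩
noncomputable def p110_k18 : C1.Kn := ⟨[nat_lit 20, nat_lit 60, nat_lit 80], [nat_lit 0, nat_lit 1776, nat_lit 2828], [(nat_lit 0, nat_lit 0, nat_lit 0), (nat_lit 1000, nat_lit 445, nat_lit 693), (nat_lit 1000, nat_lit 394, nat_lit 822)], (nat_lit 39, nat_lit 100, nat_lit 83)⟩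
noncomputable def p110_k19 : C1.Kn := ⟨[nat_lit 80, nat_lit 120, nat_lit 160], [nat_lit 0, nat_lit 0, nat_lit 2132], [(nat_lit 0, nat_lit 0, nat_lit 0), (nat_lit 0, nat_lit 0, nat_lit 0), (nat_lit 858, nat_lit 1000, nat_lit 713)], (nat_lit 100, nat_lit 85, nat_lit 73)⟩
noncomputable def p110_k20 : C1.Kn := ⟨[nat_lit 20, nat_lit 80, nat_lit 100], [nat_lit 0, nat_lit 2121, nat_lit 3610], [(nat_lit 0, nat_lit 0, nat_lit 0), (nat_lit 1000, nat_lit 558, nat_lit 551), (nat_lit 1000, nat_lit 436, nat_lit 895)], (nat_lit 44, nat_lit 100, nat_lit 82)⟩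
noncomputable def p110_k21 : C1.Kn := ⟨[nat_lit 80, nat_lit 140, nat_lit 160], [nat_lit 0, nat_lit 792, nat_lit 2667], [(nat_lit 0, nat_lit 0, nat_lit 0), (nat_lit 1000, nat_lit 959, nat_lit 206), (nat_lit 846, nat_lit 1000, nat_lit 844)], (nat_lit 100, nat_lit 85, nat_lit 84)⟩
noncomputable def p110_k22 : C1.Kn := ⟨[nat_lit 20, nat_lit 60, nat_lit 80], [nat_lit 0, nat_lit 1415, nat_lit 2514], [(nat_lit 0, nat_lit 0, nat_lit 0), (nat_lit 1000, nat_lit 558, nat_lit 551), (nat_lit 1000, nat_lit 446, nat_lit 804)], (nat_lit 46, nat_lit 100, nat_lit 75)⟩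
noncomputable def p110_k23 : C1.Kn := ⟨[nat_lit 20, nat_lit 60], [nat_lit 0, nat_lit 2136], [(nat_lit 0, nat_lit 0, nat_lit 0), (nat_lit 1000, nat_lit 343, nat_lit 808)], (nat_lit 35, nat_lit 100, nat_lit 80)⟩
noncomputable def p110_k24 : C1.Kn := ⟨[nat_lit 80, nat_lit 140, nat_lit 180], [nat_lit 0, nat_lit 0, nat_lit 3656], [(nat_lit 0, nat_lit 0, nat_lit 0), (nat_lit 0, nat_lit 0, nat_lit 0), (nat_lit 637, nat_lit 1000, nat_lit 908)], (nat_lit 100, nat_lit 76, nat_lit 82)⟩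
noncomputable def p110_k25 : C1.Kn := ⟨[nat_lit 20, nat_lit 80], [nat_lit 0, nat_lit 3199], [(nat_lit 0, nat_lit 0, nat_lit 0), (nat_lit 1000, nat_lit 333, nat_lit 833)], (nat_lit 33, nat_lit 100, nat_lit 84)⟩
noncomputable def p110_k26 : C1.Kn := ⟨[nat_lit 20, nat_lit 80], [nat_lit 0, nat_lit 0], [(nat_lit 0, nat_lit 0, nat_lit 0), (nat_lit 0, nat_lit 0, nat_lit 0)], (nat_lit 63, nat_lit 100, nat_lit 62)⟩
noncomputable def p110_k27 : C1.Kn := ⟨[nat_lit 80, nat_lit 160], [nat_lit 0, nat_lit 0], [(nat_lit 0, nat_lit 0, nat_lit 0), (nat_lit 0, nat_lit 0, nat_lit 0)], (nat_lit 100, nat_lit 92, nat_lit 61)⟩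
noncomputable def p110_k28 : C1.Kn := ⟨[nat_lit 20, nat_lit 60], [nat_lit 0, nat_lit 1415], [(nat_lit 0, nat_lit 0, nat_lit 0), (nat_lit 1000, nat_lit 558, nat_lit 551)], (nat_lit 49, nat_lit 100, nat_lit 68)⟩
noncomputable def p110_k29 : C1.Kn := ⟨[nat_lit 80, nat_lit 140, nat_lit 160], [nat_lit 0, nat_lit 0, nat_lit 2151], [(nat_lit 0, nat_lit 0, nat_lit 0), (nat_lit 0, nat_lit 0, nat_lit 0), (nat_lit 823, nat_lit 1000, nat_lit 757)], (nat_lit 100, nat_lit 92, nat_lit 61)⟩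
noncomputable def p110_k30 : C1.Kn := ⟨[nat_lit 80, nat_lit 140], [nat_lit 0, nat_lit 792], [(nat_lit 0, nat_lit 0, nat_lit 0), (nat_lit 1000, nat_lit 959, nat_lit 206)], (nat_lit 100, nat_lit 99, nat_lit 63)⟩
noncomputable def p110_k31 : C1.Kn := ⟨[nat_lit 20, nat_lit 60, nat_lit 80], [nat_lit 0, nat_lit 0, nat_lit 1613], [(nat_lit 0, nat_lit 0, nat_lit 0), (nat_lit 0, nat_lit 0, nat_lit 0), (nat_lit 1000, nat_lit 614, nat_lit 668)], (nat_lit 63, nat_lit 100, nat_lit 62)⟩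
noncomputable def p110_k32 : C1.Kn := ⟨[nat_lit 80, nat_lit 120, nat_lit 160], [nat_lit 0, nat_lit 0, nat_lit 2132], [(nat_lit 0, nat_lit 0, nat_lit 0), (nat_lit 0, nat_lit 0, nat_lit 0), (nat_lit 858, nat_lit 1000, nat_lit 713)], (nat_lit 100, nat_lit 92, nat_lit 61)⟩
noncomputable def p110_k33 : C1.Kn := ⟨[nat_lit 80, nat_lit 120, nat_lit 140], [nat_lit 0, nat_lit 264, nat_lit 1360], [(nat_lit 0, nat_lit 0, nat_lit 0), (nat_lit 1000, nat_lit 979, nat_lit 103), (nat_lit 951, nat_lit 1000, nat_lit 628)], (nat_lit 100, nat_lit 95, nat_lit 62)⟩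
noncomputable def p110_k34 : C1.Kn := ⟨[nat_lit 80, nat_lit 120, nat_lit 140], [nat_lit 0, nat_lit 528, nat_lit 1572], [(nat_lit 0, nat_lit 0, nat_lit 0), (nat_lit 1000, nat_lit 959, nat_lit 206), (nat_lit 966, nat_lit 1000, nat_lit 679)], (nat_lit 100, nat_lit 99, nat_lit 63)⟩
noncomputable def p110_k35 : C1.Kn := ⟨[nat_lit 80, nat_lit 120, nat_lit 140], [nat_lit 0, nat_lit 796, nat_lit 1801], [(nat_lit 0, nat_lit 0, nat_lit 0), (nat_lit 1000, nat_lit 938, nat_lit 310), (nat_lit 982, nat_lit 1000, nat_lit 736)], (nat_lit 98, nat_lit 100, nat_lit 63)⟩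
noncomputable def p110_k36 : C1.Kn := ⟨[nat_lit 20, nat_lit 60, nat_lit 80], [nat_lit 0, nat_lit 698, nat_lit 2008], [(nat_lit 0, nat_lit 0, nat_lit 0), (nat_lit 1000, nat_lit 782, nat_lit 272), (nat_lit 1000, nat_lit 540, nat_lit 733)], (nat_lit 57, nat_lit 100, nat_lit 64)⟩
noncomputable def p110_l0 : Lf2 := ⟨nat_lit 0, nat_lit 15, [nat_lit 30, nat_lit 5, nat_lit 5, nat_lit 20], false, nat_lit 80, nat_lit 160, nat_lit 0, nat_lit 296, ⟨nat_lit 105, nat_lit 895, nat_lit 0, nat_lit 8, nat_lit 315, nat_lit 895, nat_lit 85, nat_lit 0, nat_lit 0, nat_lit 0, nat_lit 0, nat_lit 0, nat_lit 39170111, nat_lit 24689298, nat_lit 3140591, nat_lit 4332670, true, true⟩,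
 nat_lit 0, nat_lit 0, nat_lit 1427, nat_lit 0, nat_lit 3960, nat_lit 830, nat_lit 0, nat_lit 0, nat_lit 0, nat_lit 74, nat_lit 0, nat_lit 0, nat_lit 0, nat_lit 0, nat_lit 0, nat_lit 223750, nat_lit 0, nat_lit 0, [(nat_lit 25, [(nat_lit 0, nat_lit 895)])],
 ⟨p110_k0, nat_lit 0, nat_lit 0, nat_lit 122, nat_lit 0, nat_lit 0, [nat_lit 782270000, nat_lit 1569686001, nat_lit 2551860000], [], [nat_lit 27049441120, nat_lit 28248584720, nat_lit 29714600320, nat_lit 30767509561, nat_lit 27100081600, nat_lit 28190910640, nat_lit 29527694896, nat_lit 30488394696], nat_lit 0, nat_lit 0, nat_lit 0, nat_lit 0, nat_lit 0, nat_lit 0, [], [nat_lit 20, nat_lit 40, nat_lit 40, nat_lit 80, nat_lit 16, nat_lit 249, nat_lit 40, nat_lit 8]⟩, ⟨p110_k1, nat_lit 0, nat_lit 0, nat_lit 666, nat_lit 0, nat_lit 926528, [nat_lit 492240000, nat_lit 836640000, nat_lit 1246560000], [], [nat_lit 4005885340, nat_lit 4012412840, nat_lit 4199265758,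 nat_lit 4215156967, nat_lit 3384967587, nat_lit 3391161670, nat_lit 3495607591, nat_lit 3504537681], nat_lit 1271250, nat_lit 1271250, nat_lit 1271250, nat_lit 1271250, nat_lit 0, nat_lit 2090500, [nat_lit 1100000, nat_lit 1785000, nat_lit 1271250], [nat_lit 21, nat_lit 40, nat_lit 40, nat_lit 80, nat_lit 14, nat_lit 373, nat_lit 150, nat_lit 9]⟩,
 ⟨nat_lit 2236, nat_lit 3163, ⟨.ofNat (nat_lit 749323), .ofNat (nat_lit 828563), .ofNat (nat_lit 760401), .ofNat (nat_lit 839640), .ofNat (nat_lit 739368), .ofNat (nat_lit 813488), .ofNat (nat_lit 750755), .ofNat (nat_lit 824875)⟩, ⟨.ofNat (nat_lit 139899), .ofNat (nat_lit 261806), .ofNat (nat_lit 162054), .ofNat (nat_lit 283961), .ofNat (nat_lit 146758), .ofNat (nat_lit 260789), .ofNat (nat_lit 169532), .ofNat (nat_lit 283563)⟩⟩, [⟨nat_lit 13, nat_lit 56, nat_lit 67, nat_lit 100, nat_lit 320795508⟩, ⟨nat_lit 4, nat_lit 100, nat_lit 55, nat_lit 69, nat_lit 32629418⟩,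 ⟨nat_lit 7, nat_lit 98, nat_lit 100, nat_lit 70, nat_lit 9713212⟩]⟩
noncomputable def p110_l1 : Lf2 := ⟨nat_lit 0, nat_lit 15, [nat_lit 30, nat_lit 5, nat_lit 5, nat_lit 20], false, nat_lit 80, nat_lit 160, nat_lit 0, nat_lit 288, ⟨nat_lit 136, nat_lit 864, nat_lit 0, nat_lit 8, nat_lit 322, nat_lit 864, nat_lit 85, nat_lit 0, nat_lit 0, nat_lit 0, nat_lit 0, nat_lit 0, nat_lit 38562131, nat_lit 25345295, nat_lit 3092574, nat_lit 4343819, true, true⟩,
 nat_lit 0, nat_lit 0, nat_lit 1638, nat_lit 0, nat_lit 3601, nat_lit 997, nat_lit 0, nat_lit 0, nat_lit 0, nat_lit 121, nat_lit 0, nat_lit 0, nat_lit 0, nat_lit 0, nat_lit 0, nat_lit 216000, nat_lit 0, nat_lit 0, [(nat_lit 25, [(nat_lit 0, nat_lit 864)])],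
 ⟨p110_k0, nat_lit 0, nat_lit 0, nat_lit 120, nat_lit 0, nat_lit 0, [nat_lit 787664000, nat_lit 1628995201, nat_lit 2679952000], [], [nat_lit 27184328272, nat_lit 27758032327, nat_lit 29955725816, nat_lit 30455454960, nat_lit 27370567360, nat_lit 27893558022, nat_lit 29901372233, nat_lit 30359076857], nat_lit 0, nat_lit 0, nat_lit 0, nat_lit 0, nat_lit 0, nat_lit 0, [], [nat_lit 20, nat_lit 40, nat_lit 40, nat_lit 80, nat_lit 16, nat_lit 249, nat_lit 40, nat_lit 8]⟩, ⟨p110_k2, nat_lit 0, nat_lit 0, nat_lit 576, nat_lit 0, nat_lit 762026, [nat_lit 637568000, nat_lit 1083648000, nat_lit 1614592000], [], [nat_lit 4722240210, nat_lit 4739486832, nat_lit 5020121044, nat_lit 5063310785, nat_lit 4148779391, nat_lit 4155291702, nat_lit 4300194601, nat_lit 4323134572], nat_lit 1271250, nat_lit 1271250, nat_lit 1271250, nat_lit 1271250, nat_lit 0, nat_lit 2034000, [nat_lit 1100000, nat_lit 1785000, nat_lit 1271250], [nat_lit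 21, nat_lit 40, nat_lit 40, nat_lit 80, nat_lit 14, nat_lit 373, nat_lit 150, nat_lit 9]⟩,
 ⟨nat_lit 2738, nat_lit 3163, ⟨.ofNat (nat_lit 760401), .ofNat (nat_lit 845735), .ofNat (nat_lit 771478), .ofNat (nat_lit 856813), .ofNat (nat_lit 755643), .ofNat (nat_lit 838329), .ofNat (nat_lit 766852), .ofNat (nat_lit 849538)⟩, ⟨.ofNat (nat_lit 139899), .ofNat (nat_lit 261806), .ofNat (nat_lit 162054), .ofNat (nat_lit 283961), .ofNat (nat_lit 143475), .ofNat (nat_lit 261598), .ofNat (nat_lit 165893), .ofNat (nat_lit 284015)⟩⟩, [⟨nat_lit 13, nat_lit 61, nat_lit 60, nat_lit 100, nat_lit 268396436⟩, ⟨nat_lit 4, nat_lit 100, nat_lit 58, nat_lit 68, nat_lit 61244533⟩, ⟨nat_lit 7, nat_lit 100, nat_lit 98, nat_lit 70, nat_lit 16436700⟩]⟩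
noncomputable def p110_l2 : Lf2 := ⟨nat_lit 0, nat_lit 15, [nat_lit 30, nat_lit 5, nat_lit 5, nat_lit 20], false, nat_lit 80, nat_lit 160, nat_lit 0, nat_lit 288, ⟨nat_lit 122, nat_lit 878, nat_lit 0, nat_lit 8, nat_lit 317, nat_lit 878, nat_lit 86, nat_lit 0, nat_lit 0, nat_lit 0, nat_lit 0, nat_lit 0, nat_lit 38964407, nat_lit 24885648, nat_lit 3149945, nat_lit 4341694, true, true⟩,
 nat_lit 0, nat_lit 0, nat_lit 1481, nat_lit 0, nat_lit 3350, nat_lit 901, nat_lit 0, nat_lit 0, nat_lit 0, nat_lit 111, nat_lit 0, nat_lit 0, nat_lit 0, nat_lit 0, nat_lit 0, nat_lit 219500, nat_lit 0, nat_lit 0, [(nat_lit 25, [(nat_lit 0, nat_lit 878)])],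
 ⟨p110_k3, nat_lit 0, nat_lit 0, nat_lit 107, nat_lit 0, nat_lit 0, [nat_lit 785228000, nat_lit 1602210400, nat_lit 2078232800], [], [nat_lit 26617278600, nat_lit 27152213800, nat_lit 28858210800, nat_lit 29383038600, nat_lit 26972035400, nat_lit 27460298600, nat_lit 28946983851, nat_lit 29420410021], nat_lit 0, nat_lit 0, nat_lit 0, nat_lit 0, nat_lit 0, nat_lit 0, [], [nat_lit 35, nat_lit 40, nat_lit 40, nat_lit 80, nat_lit 22, nat_lit 249, nat_lit 40, nat_lit 9]⟩, ⟨p110_k2, nat_lit 0, nat_lit 0, nat_lit 665, nat_lit 0, nat_lit 929124, [nat_lit 571936000, nat_lit 972096000, nat_lit 1448384000], [], [nat_lit 4184767380, nat_lit 4204781912, nat_lit 4413167077, nat_lit 4453753369, nat_lit 3665936970, nat_lit 3674511884, nat_lit 3782048255, nat_lit 3804334426], nat_lit 1271250, nat_lit 1271250, nat_lit 1271250, nat_lit 1271250, nat_lit 0, nat_lit 2034000, [nat_lit 1100000, nat_lit 1785000, nat_lit 1271250], [nat_lit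 21, nat_lit 40, nat_lit 40, nat_lit 80, nat_lit 14, nat_lit 373, nat_lit 150, nat_lit 9]⟩,
 ⟨nat_lit 2236, nat_lit 2739, ⟨.ofNat (nat_lit 755643), .ofNat (nat_lit 826517), .ofNat (nat_lit 766852), .ofNat (nat_lit 837726), .ofNat (nat_lit 750755), .ofNat (nat_lit 819174), .ofNat (nat_lit 762142), .ofNat (nat_lit 830561)⟩, ⟨.ofNat (nat_lit 143475), .ofNat (nat_lit 261598), .ofNat (nat_lit 165893), .ofNat (nat_lit 284015), .ofNat (nat_lit 146758), .ofNat (nat_lit 260789), .ofNat (nat_lit 169532), .ofNat (nat_lit 283563)⟩⟩, [⟨nat_lit 13, nat_lit 52, nat_lit 68, nat_lit 100, nat_lit 309179271⟩, ⟨nat_lit 4, nat_lit 100, nat_lit 51, nat_lit 70, nat_lit 96136954⟩, ⟨nat_lit 7, nat_lit 100, nat_lit 98, nat_lit 70, nat_lit 15164177⟩]⟩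
noncomputable def p110_l3 : Lf2 := ⟨nat_lit 0, nat_lit 20, [nat_lit 5, nat_lit 5, nat_lit 5, nat_lit 20], false, nat_lit 80, nat_lit 160, nat_lit 0, nat_lit 320, ⟨nat_lit 91, nat_lit 909, nat_lit 0, nat_lit 8, nat_lit 317, nat_lit 909, nat_lit 94, nat_lit 0, nat_lit 0, nat_lit 0, nat_lit 0, nat_lit 0, nat_lit 38737972, nat_lit 24653121, nat_lit 3608907, nat_lit 4435876, true, true⟩,
 nat_lit 0, nat_lit 0, nat_lit 1188, nat_lit 0, nat_lit 4090, nat_lit 691, nat_lit 0, nat_lit 0, nat_lit 0, nat_lit 69, nat_lit 0, nat_lit 0, nat_lit 0, nat_lit 0, nat_lit 0, nat_lit 227250, nat_lit 0, nat_lit 0, [(nat_lit 25, [(nat_lit 0, nat_lit 909)])],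
 ⟨p110_k4, nat_lit 0, nat_lit 0, nat_lit 119, nat_lit 0, nat_lit 0, [nat_lit 779834001, nat_lit 1542901200, nat_lit 2494012000], [], [nat_lit 26989132480, nat_lit 27598071430, nat_lit 29713645188, nat_lit 30363417689, nat_lit 26990670400, nat_lit 27544204980, nat_lit 29449899384, nat_lit 29936770734], nat_lit 0, nat_lit 0, nat_lit 0, nat_lit 0, nat_lit 0, nat_lit 0, [], [nat_lit 20, nat_lit 40, nat_lit 40, nat_lit 80, nat_lit 16, nat_lit 249, nat_lit 40, nat_lit 8]⟩, ⟨p110_k5, nat_lit 0, nat_lit 0, nat_lit 532, nat_lit 0, nat_lit 635065, [nat_lit 426608000, nat_lit 725088000, nat_lit 1080352000], [], [nat_lit 3409228198, nat_lit 3421017546, nat_lit 3574373312, nat_lit 3588363656, nat_lit 2943293353, nat_lit 2949369598, nat_lit 3065593350, nat_lit 3072385435], nat_lit 1271250, nat_lit 1271250, nat_lit 1271250, nat_lit 1271250, nat_lit 0, nat_lit 2260000, [nat_lit 1100000, nat_lit 1785000, nat_lit 1271250], [nat_lit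 21, nat_lit 40, nat_lit 40, nat_lit 80, nat_lit 14, nat_lit 373, nat_lit 150, nat_lit 9]⟩,
 ⟨nat_lit 2738, nat_lit 3163, ⟨.ofNat (nat_lit 749323), .ofNat (nat_lit 828563), .ofNat (nat_lit 760401), .ofNat (nat_lit 839640), .ofNat (nat_lit 744435), .ofNat (nat_lit 821214), .ofNat (nat_lit 755643), .ofNat (nat_lit 832423)⟩, ⟨.ofNat (nat_lit 162054), .ofNat (nat_lit 283961), .ofNat (nat_lit 184209), .ofNat (nat_lit 306116), .ofNat (nat_lit 165893), .ofNat (nat_lit 284015), .ofNat (nat_lit 188310), .ofNat (nat_lit 306433)⟩⟩, [⟨nat_lit 13, nat_lit 60, nat_lit 63, nat_lit 100, nat_lit 298910255⟩, ⟨nat_lit 22, nat_lit 73, nat_lit 100, nat_lit 97, nat_lit 12290539⟩]⟩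
noncomputable def p110_l4 : Lf2 := ⟨nat_lit 0, nat_lit 20, [nat_lit 5, nat_lit 5, nat_lit 5, nat_lit 20], false, nat_lit 80, nat_lit 160, nat_lit 0, nat_lit 320, ⟨nat_lit 74, nat_lit 926, nat_lit 0, nat_lit 8, nat_lit 311, nat_lit 926, nat_lit 95, nat_lit 0, nat_lit 0, nat_lit 0, nat_lit 0, nat_lit 0, nat_lit 39235172, nat_lit 24079903, nat_lit 3684925, nat_lit 4431434, true, true⟩,
 nat_lit 0, nat_lit 0, nat_lit 996, nat_lit 0, nat_lit 4058, nat_lit 579, nat_lit 0, nat_lit 0, nat_lit 0, nat_lit 51, nat_lit 0, nat_lit 0, nat_lit 0, nat_lit 0, nat_lit 0, nat_lit 231500, nat_lit 0, nat_lit 0, [(nat_lit 25, [(nat_lit 0, nat_lit 926)])],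
 ⟨p110_k6, nat_lit 0, nat_lit 0, nat_lit 119, nat_lit 0, nat_lit 0, [nat_lit 776876001, nat_lit 1510376800, nat_lit 2423768000], [], [nat_lit 27526127366, nat_lit 28132760556, nat_lit 29524072914, nat_lit 30194351372, nat_lit 27484654676, nat_lit 28036190472, nat_lit 29284472680, nat_lit 29784936984], nat_lit 0, nat_lit 0, nat_lit 0, nat_lit 0, nat_lit 0, nat_lit 0, [], [nat_lit 20, nat_lit 40, nat_lit 40, nat_lit 80, nat_lit 16, nat_lit 249, nat_lit 40, nat_lit 8]⟩, ⟨p110_k5, nat_lit 0, nat_lit 0, nat_lit 595, nat_lit 0, nat_lit 810862, [nat_lit 346912000, nat_lit 589632000, nat_lit 878528000], [], [nat_lit 2830041752, nat_lit 2839473519, nat_lit 2937195072, nat_lit 2949446889, nat_lit 2438131599, nat_lit 2440904216, nat_lit 2490016244, nat_lit 2491983474], nat_lit 1271250, nat_lit 1271250, nat_lit 1271250, nat_lit 1271250, nat_lit 0, nat_lit 2260000, [nat_lit 1100000, nat_lit 1785000, nat_lit 1271250], [nat_lit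 21, nat_lit 40, nat_lit 40, nat_lit 80, nat_lit 14, nat_lit 373, nat_lit 150, nat_lit 9]⟩,
 ⟨nat_lit 2236, nat_lit 2739, ⟨.ofNat (nat_lit 744435), .ofNat (nat_lit 803496), .ofNat (nat_lit 755643), .ofNat (nat_lit 814705), .ofNat (nat_lit 739368), .ofNat (nat_lit 796384), .ofNat (nat_lit 750755), .ofNat (nat_lit 807771)⟩, ⟨.ofNat (nat_lit 165893), .ofNat (nat_lit 284015), .ofNat (nat_lit 188310), .ofNat (nat_lit 306433), .ofNat (nat_lit 169532), .ofNat (nat_lit 283563), .ofNat (nat_lit 192306), .ofNat (nat_lit 306337)⟩⟩, [⟨nat_lit 13, nat_lit 51, nat_lit 71, nat_lit 100, nat_lit 350968352⟩, ⟨nat_lit 22, nat_lit 77, nat_lit 100, nat_lit 99, nat_lit 8419132⟩]⟩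
noncomputable def p110_l5 : Lf2 := ⟨nat_lit 0, nat_lit 20, [nat_lit 5, nat_lit 5, nat_lit 5, nat_lit 20], false, nat_lit 80, nat_lit 160, nat_lit 0, nat_lit 308, ⟨nat_lit 94, nat_lit 906, nat_lit 0, nat_lit 8, nat_lit 319, nat_lit 906, nat_lit 94, nat_lit 0, nat_lit 0, nat_lit 0, nat_lit 0, nat_lit 0, nat_lit 38539342, nat_lit 24843500, nat_lit 3617158, nat_lit 4444208, true, true⟩,
 nat_lit 0, nat_lit 0, nat_lit 1129, nat_lit 0, nat_lit 4046, nat_lit 687, nat_lit 0, nat_lit 0, nat_lit 0, nat_lit 82, nat_lit 0, nat_lit 0, nat_lit 0, nat_lit 0, nat_lit 0, nat_lit 226500, nat_lit 0, nat_lit 0, [(nat_lit 25, [(nat_lit 0, nat_lit 906)])],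
 ⟨p110_k4, nat_lit 0, nat_lit 0, nat_lit 122, nat_lit 0, nat_lit 0, [nat_lit 780356001, nat_lit 1548640801, nat_lit 2506408000], [], [nat_lit 27002361312, nat_lit 28213898372, nat_lit 29691965152, nat_lit 30930036746, nat_lit 27020518560, nat_lit 28122091064, nat_lit 29469046850, nat_lit 30439492179], nat_lit 0, nat_lit 0, nat_lit 0, nat_lit 0, nat_lit 0, nat_lit 0, [], [nat_lit 20, nat_lit 40, nat_lit 40, nat_lit 80, nat_lit 16, nat_lit 249, nat_lit 40, nat_lit 8]⟩, ⟨p110_k7, nat_lit 0, nat_lit 0, nat_lit 585, nat_lit 0, nat_lit 787730, [nat_lit 440672000, nat_lit 748992000, nat_lit 1115968000], [], [nat_lit 3288680060, nat_lit 3294648754, nat_lit 3453281306, nat_lit 3468538592, nat_lit 2910350071, nat_lit 2913257457, nat_lit 3006783328, nat_lit 3020943378], nat_lit 1271250, nat_lit 1271250, nat_lit 1271250, nat_lit 1271250, nat_lit 0, nat_lit 2175250, [nat_lit 1100000, nat_lit 1785000, nat_lit 1271250], [nat_lit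 21, nat_lit 40, nat_lit 40, nat_lit 80, nat_lit 14, nat_lit 373, nat_lit 150, nat_lit 9]⟩,
 ⟨nat_lit 2236, nat_lit 3163, ⟨.ofNat (nat_lit 760401), .ofNat (nat_lit 839640), .ofNat (nat_lit 765939), .ofNat (nat_lit 845179), .ofNat (nat_lit 750755), .ofNat (nat_lit 824875), .ofNat (nat_lit 756449), .ofNat (nat_lit 830569)⟩, ⟨.ofNat (nat_lit 162054), .ofNat (nat_lit 283961), .ofNat (nat_lit 184209), .ofNat (nat_lit 306116), .ofNat (nat_lit 169532), .ofNat (nat_lit 283563), .ofNat (nat_lit 192306), .ofNat (nat_lit 306337)⟩⟩, [⟨nat_lit 13, nat_lit 57, nat_lit 65, nat_lit 100, nat_lit 311672073⟩, ⟨nat_lit 19, nat_lit 100, nat_lit 95, nat_lit 82, nat_lit 2553683⟩, ⟨nat_lit 10, nat_lit 86, nat_lit 69, nat_lit 100, nat_lit 11306258⟩]⟩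
noncomputable def p110_l6 : Lf2 := ⟨nat_lit 0, nat_lit 20, [nat_lit 5, nat_lit 5, nat_lit 5, nat_lit 20], false, nat_lit 80, nat_lit 160, nat_lit 0, nat_lit 304, ⟨nat_lit 1000, nat_lit 0, nat_lit 0, nat_lit 0, nat_lit 0, nat_lit 0, nat_lit 0, nat_lit 0, nat_lit 0, nat_lit 0, nat_lit 0, nat_lit 0, nat_lit 0, nat_lit 0, nat_lit 0, nat_lit 0, false, false⟩,
 nat_lit 0, nat_lit 0, nat_lit 11034, nat_lit 0, nat_lit 6695, nat_lit 6870, nat_lit 0, nat_lit 0, nat_lit 0, nat_lit 886, nat_lit 0, nat_lit 0, nat_lit 0, nat_lit 0, nat_lit 0, nat_lit 0, nat_lit 0, nat_lit 0, [],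
 ⟨p110_k4, nat_lit 0, nat_lit 0, nat_lit 120, nat_lit 0, nat_lit 0, [nat_lit 938000000, nat_lit 3282000000, nat_lit 6250000000], [], [nat_lit 30695813040, nat_lit 31492455265, nat_lit 34587437052, nat_lit 35427581201, nat_lit 29713411200, nat_lit 30429659290, nat_lit 33062247396, nat_lit 33672251076], nat_lit 0, nat_lit 0, nat_lit 0, nat_lit 0, nat_lit 0, nat_lit 0, [], [nat_lit 20, nat_lit 40, nat_lit 40, nat_lit 80, nat_lit 16, nat_lit 249, nat_lit 40, nat_lit 8]⟩, ⟨p110_k8, nat_lit 0, nat_lit 0, nat_lit 531, nat_lit 0, nat_lit 637116, [nat_lit 4688000000, nat_lit 7968000000, nat_lit 11872000000], [], [nat_lit 33832924750, nat_lit 33928352540, nat_lit 36349387269, nat_lit 36506144600, nat_lit 30705569025, nat_lit 30754459318, nat_lit 31991263781, nat_lit 32036540198], nat_lit 1271250, nat_lit 1271250, nat_lit 1271250, nat_lit 1271250, nat_lit 0, nat_lit 2147000, [nat_lit 1100000, nat_lit 1785000, nat_lit 1271250],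 [nat_lit 21, nat_lit 40, nat_lit 40, nat_lit 80, nat_lit 14, nat_lit 373, nat_lit 150, nat_lit 9]⟩,
 zbF0, [⟨nat_lit 13, nat_lit 57, nat_lit 64, nat_lit 100, nat_lit 5469715⟩, ⟨nat_lit 4, nat_lit 100, nat_lit 57, nat_lit 76, nat_lit 129758592⟩, ⟨nat_lit 19, nat_lit 100, nat_lit 97, nat_lit 82, nat_lit 131797294⟩]⟩
noncomputable def p110_l7 : Lf2 := ⟨nat_lit 0, nat_lit 20, [nat_lit 5, nat_lit 5, nat_lit 5, nat_lit 20], false, nat_lit 80, nat_lit 160, nat_lit 0, nat_lit 304, ⟨nat_lit 123, nat_lit 877, nat_lit 0, nat_lit 8, nat_lit 319, nat_lit 877, nat_lit 95, nat_lit 0, nat_lit 0, nat_lit 0, nat_lit 0, nat_lit 0, nat_lit 38531898, nat_lit 24827158, nat_lit 3640944, nat_lit 4448772, true, true⟩,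
 nat_lit 0, nat_lit 0, nat_lit 1391, nat_lit 0, nat_lit 3240, nat_lit 865, nat_lit 127, nat_lit 0, nat_lit 0, nat_lit 110, nat_lit 0, nat_lit 0, nat_lit 0, nat_lit 0, nat_lit 0, nat_lit 219250, nat_lit 0, nat_lit 0, [(nat_lit 25, [(nat_lit 0, nat_lit 877)])],
 ⟨p110_k6, nat_lit 0, nat_lit 0, nat_lit 121, nat_lit 0, nat_lit 0, [nat_lit 785402001, nat_lit 1604123600, nat_lit 2626236000], [], [nat_lit 26483399980, nat_lit 27031092180, nat_lit 28685651853, nat_lit 29178437280, nat_lit 26758742780, nat_lit 27259184660, nat_lit 28776491316, nat_lit 29225018757], nat_lit 0, nat_lit 0, nat_lit 0, nat_lit 0, nat_lit 0, nat_lit 0, [], [nat_lit 20, nat_lit 40, nat_lit 40, nat_lit 80, nat_lit 16, nat_lit 249, nat_lit 40, nat_lit 8]⟩, ⟨p110_k8, nat_lit 0, nat_lit 0, nat_lit 586, nat_lit 0, nat_lit 792130, [nat_lit 576624000, nat_lit 980064000, nat_lit 1460256000], [], [nat_lit 4239264461, nat_lit 4247211196, nat_lit 4408499052,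 nat_lit 4428731526, nat_lit 3773197374, nat_lit 3775917352, nat_lit 3865054197, nat_lit 3883903128], nat_lit 1271250, nat_lit 1271250, nat_lit 1271250, nat_lit 1271250, nat_lit 0, nat_lit 2147000, [nat_lit 1100000, nat_lit 1785000, nat_lit 1271250], [nat_lit 21, nat_lit 40, nat_lit 40, nat_lit 80, nat_lit 14, nat_lit 373, nat_lit 150, nat_lit 9]⟩,
 ⟨nat_lit 2236, nat_lit 2739, ⟨.ofNat (nat_lit 761248), .ofNat (nat_lit 832121), .ofNat (nat_lit 766852), .ofNat (nat_lit 837726), .ofNat (nat_lit 756449), .ofNat (nat_lit 824867), .ofNat (nat_lit 762142), .ofNat (nat_lit 830561)⟩, ⟨.ofNat (nat_lit 165893), .ofNat (nat_lit 284015), .ofNat (nat_lit 188310), .ofNat (nat_lit 306433), .ofNat (nat_lit 169532), .ofNat (nat_lit 283563), .ofNat (nat_lit 192306), .ofNat (nat_lit 306337)⟩⟩, [⟨nat_lit 13, nat_lit 53, nat_lit 67, nat_lit 100, nat_lit 298484039⟩, ⟨nat_lit 4, nat_lit 100, nat_lit 49, nat_lit 78, nat_lit 80798698⟩,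 ⟨nat_lit 19, nat_lit 100, nat_lit 97, nat_lit 82, nat_lit 16275610⟩]⟩
noncomputable def p110_l8 : Lf2 := ⟨nat_lit 0, nat_lit 20, [nat_lit 5, nat_lit 5, nat_lit 5, nat_lit 20], false, nat_lit 80, nat_lit 160, nat_lit 0, nat_lit 320, ⟨nat_lit 1000, nat_lit 0, nat_lit 0, nat_lit 0, nat_lit 0, nat_lit 0, nat_lit 0, nat_lit 0, nat_lit 0, nat_lit 0, nat_lit 0, nat_lit 0, nat_lit 0, nat_lit 0, nat_lit 0, nat_lit 0, false, false⟩,
 nat_lit 0, nat_lit 0, nat_lit 13010, nat_lit 0, nat_lit 6369, nat_lit 7572, nat_lit 0, nat_lit 0, nat_lit 0, nat_lit 757, nat_lit 0, nat_lit 0, nat_lit 0, nat_lit 0, nat_lit 0, nat_lit 0, nat_lit 0, nat_lit 0, [],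
 ⟨p110_k4, nat_lit 0, nat_lit 0, nat_lit 124, nat_lit 0, nat_lit 0, [nat_lit 938000000, nat_lit 3282000000, nat_lit 6250000000], [], [nat_lit 30701983568, nat_lit 32248288158, nat_lit 34327984505, nat_lit 35642904001, nat_lit 29842715840, nat_lit 31234486796, nat_lit 33105359984, nat_lit 34293273296], nat_lit 0, nat_lit 0, nat_lit 0, nat_lit 0, nat_lit 0, nat_lit 0, [], [nat_lit 20, nat_lit 40, nat_lit 40, nat_lit 80, nat_lit 16, nat_lit 249, nat_lit 40, nat_lit 8]⟩, ⟨p110_k5, nat_lit 0, nat_lit 0, nat_lit 481, nat_lit 0, nat_lit 489838, [nat_lit 4688000000, nat_lit 7968000000, nat_lit 11872000000], [], [nat_lit 37527473062, nat_lit 37786968398, nat_lit 39502505744, nat_lit 39801491087, nat_lit 32426474015, nat_lit 32560651111, nat_lit 33883935629, nat_lit 34028097905], nat_lit 1271250, nat_lit 1271250, nat_lit 1271250, nat_lit 1271250, nat_lit 0, nat_lit 2260000, [nat_lit 1100000, nat_lit 1785000, nat_lit 1271250],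 [nat_lit 21, nat_lit 40, nat_lit 40, nat_lit 80, nat_lit 14, nat_lit 373, nat_lit 150, nat_lit 9]⟩,
 zbF0, [⟨nat_lit 13, nat_lit 46, nat_lit 76, nat_lit 100, nat_lit 15958391⟩, ⟨nat_lit 16, nat_lit 53, nat_lit 100, nat_lit 77, nat_lit 200024708⟩, ⟨nat_lit 19, nat_lit 100, nat_lit 93, nat_lit 81, nat_lit 117627902⟩]⟩
noncomputable def p110_l9 : Lf2 := ⟨nat_lit 0, nat_lit 20, [nat_lit 5, nat_lit 5, nat_lit 5, nat_lit 20], false, nat_lit 160, nat_lit 200, nat_lit 16, nat_lit 320, ⟨nat_lit 140, nat_lit 860, nat_lit 0, nat_lit 8, nat_lit 313, nat_lit 860, nat_lit 125, nat_lit 0, nat_lit 0, nat_lit 0, nat_lit 0, nat_lit 0, nat_lit 37790016, nat_lit 23709678, nat_lit 5500306, nat_lit 4767560, true, true⟩,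
 nat_lit 0, nat_lit 0, nat_lit 1913, nat_lit 0, nat_lit 4205, nat_lit 1113, nat_lit 0, nat_lit 0, nat_lit 0, nat_lit 99, nat_lit 0, nat_lit 0, nat_lit 0, nat_lit 0, nat_lit 0, nat_lit 215000, nat_lit 0, nat_lit 0, [(nat_lit 25, [(nat_lit 0, nat_lit 860)])],
 ⟨p110_k4, nat_lit 0, nat_lit 0, nat_lit 90, nat_lit 0, nat_lit 0, [nat_lit 788360001, nat_lit 1636648000, nat_lit 2696480000], [], [nat_lit 27147524800, nat_lit 28268960220, nat_lit 29431420093, nat_lit 30427109553, nat_lit 27793433230, nat_lit 28847560565, nat_lit 29937195537, nat_lit 30948310016], nat_lit 0, nat_lit 0, nat_lit 0, nat_lit 0, nat_lit 0, nat_lit 0, [], [nat_lit 20, nat_lit 40, nat_lit 40, nat_lit 80, nat_lit 16, nat_lit 260, nat_lit 50, nat_lit 8]⟩, ⟨p110_k5, nat_lit 0, nat_lit 0, nat_lit 712, nat_lit 0, nat_lit 1078922, [nat_lit 656320000, nat_lit 1115520000, nat_lit 1662080000], [], [nat_lit 5283074119, nat_lit 5286204238, nat_lit 5422237444,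 nat_lit 5433049198, nat_lit 4633768318, nat_lit 4633703474, nat_lit 4712191869, nat_lit 4710712685], nat_lit 1271250, nat_lit 1271250, nat_lit 1271250, nat_lit 1271250, nat_lit 88400, nat_lit 2281000, [nat_lit 1100000, nat_lit 1785000, nat_lit 1271250], [nat_lit 21, nat_lit 40, nat_lit 40, nat_lit 80, nat_lit 14, nat_lit 373, nat_lit 150, nat_lit 9]⟩,
 ⟨nat_lit 2236, nat_lit 3163, ⟨.ofNat (nat_lit 749323), .ofNat (nat_lit 822467), .ofNat (nat_lit 754862), .ofNat (nat_lit 828006), .ofNat (nat_lit 739368), .ofNat (nat_lit 807787), .ofNat (nat_lit 745062), .ofNat (nat_lit 813480)⟩, ⟨.ofNat (nat_lit 261806), .ofNat (nat_lit 322759), .ofNat (nat_lit 306116), .ofNat (nat_lit 367069), .ofNat (nat_lit 260789), .ofNat (nat_lit 317804), .ofNat (nat_lit 306337), .ofNat (nat_lit 363353)⟩⟩, [⟨nat_lit 13, nat_lit 55, nat_lit 68, nat_lit 100, nat_lit 311249601⟩, ⟨nat_lit 16, nat_lit 54, nat_lit 100, nat_lit 73, nat_lit 313530672⟩,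 ⟨nat_lit 19, nat_lit 100, nat_lit 93, nat_lit 75, nat_lit 19424988⟩]⟩
noncomputable def p110_l10 : Lf2 := ⟨nat_lit 0, nat_lit 20, [nat_lit 5, nat_lit 5, nat_lit 5, nat_lit 20], false, nat_lit 160, nat_lit 200, nat_lit 16, nat_lit 316, ⟨nat_lit 140, nat_lit 860, nat_lit 0, nat_lit 8, nat_lit 316, nat_lit 860, nat_lit 125, nat_lit 0, nat_lit 0, nat_lit 0, nat_lit 0, nat_lit 0, nat_lit 37507536, nat_lit 24020758, nat_lit 5471706, nat_lit 4773737, true, true⟩,
 nat_lit 0, nat_lit 0, nat_lit 1796, nat_lit 0, nat_lit 4177, nat_lit 1069, nat_lit 0, nat_lit 0, nat_lit 0, nat_lit 118, nat_lit 0, nat_lit 0, nat_lit 0, nat_lit 0, nat_lit 0, nat_lit 215000, nat_lit 0, nat_lit 0, [(nat_lit 25, [(nat_lit 0, nat_lit 860)])],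
 ⟨p110_k4, nat_lit 0, nat_lit 0, nat_lit 93, nat_lit 0, nat_lit 0, [nat_lit 788360001, nat_lit 1636648000, nat_lit 2696480000], [], [nat_lit 27158630720, nat_lit 28276568268, nat_lit 29639017896, nat_lit 30622048591, nat_lit 27806100262, nat_lit 28857058361, nat_lit 30135135732, nat_lit 31132508213], nat_lit 0, nat_lit 0, nat_lit 0, nat_lit 0, nat_lit 0, nat_lit 0, [], [nat_lit 20, nat_lit 40, nat_lit 40, nat_lit 80, nat_lit 16, nat_lit 260, nat_lit 50, nat_lit 8]⟩, ⟨p110_k9, nat_lit 0, nat_lit 0, nat_lit 709, nat_lit 0, nat_lit 1072416, [nat_lit 656320000, nat_lit 1115520000, nat_lit 1662080000], [], [nat_lit 5046865477, nat_lit 5053059775, nat_lit 5214006567, nat_lit 5217991347, nat_lit 4464365771, nat_lit 4464837917, nat_lit 4552324558, nat_lit 4568376231], nat_lit 1271250, nat_lit 1271250, nat_lit 1271250, nat_lit 1271250, nat_lit 88400, nat_lit 2252150, [nat_lit 1100000, nat_lit 1785000, nat_lit 1271250],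 [nat_lit 21, nat_lit 40, nat_lit 40, nat_lit 80, nat_lit 14, nat_lit 373, nat_lit 150, nat_lit 9]⟩,
 ⟨nat_lit 2236, nat_lit 3163, ⟨.ofNat (nat_lit 754862), .ofNat (nat_lit 834101), .ofNat (nat_lit 760401), .ofNat (nat_lit 839640), .ofNat (nat_lit 745062), .ofNat (nat_lit 819182), .ofNat (nat_lit 750755), .ofNat (nat_lit 824875)⟩, ⟨.ofNat (nat_lit 261806), .ofNat (nat_lit 322759), .ofNat (nat_lit 306116), .ofNat (nat_lit 367069), .ofNat (nat_lit 260789), .ofNat (nat_lit 317804), .ofNat (nat_lit 306337), .ofNat (nat_lit 363353)⟩⟩, [⟨nat_lit 13, nat_lit 56, nat_lit 66, nat_lit 100, nat_lit 289642910⟩, ⟨nat_lit 4, nat_lit 100, nat_lit 54, nat_lit 73, nat_lit 282021809⟩, ⟨nat_lit 7, nat_lit 96, nat_lit 100, nat_lit 76, nat_lit 20173236⟩]⟩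
noncomputable def p110_l11 : Lf2 := ⟨nat_lit 0, nat_lit 20, [nat_lit 5, nat_lit 5, nat_lit 5, nat_lit 20], false, nat_lit 160, nat_lit 200, nat_lit 16, nat_lit 308, ⟨nat_lit 172, nat_lit 828, nat_lit 0, nat_lit 8, nat_lit 320, nat_lit 828, nat_lit 126, nat_lit 0, nat_lit 0, nat_lit 0, nat_lit 0, nat_lit 0, nat_lit 37209956, nat_lit 24329115, nat_lit 5460929, nat_lit 4782404, true, true⟩,
 nat_lit 0, nat_lit 0, nat_lit 2052, nat_lit 0, nat_lit 4343, nat_lit 1249, nat_lit 0, nat_lit 0, nat_lit 0, nat_lit 149, nat_lit 0, nat_lit 0, nat_lit 0, nat_lit 0, nat_lit 0, nat_lit 207000, nat_lit 0, nat_lit 0, [(nat_lit 25, [(nat_lit 0, nat_lit 828)])],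
 ⟨p110_k4, nat_lit 0, nat_lit 0, nat_lit 86, nat_lit 0, nat_lit 0, [nat_lit 793928001, nat_lit 1697870401, nat_lit 2828704000], [], [nat_lit 27225012480, nat_lit 27794349946, nat_lit 29745770457, nat_lit 30245333552, nat_lit 27863226858, nat_lit 28398100429, nat_lit 30228295085, nat_lit 30775860991], nat_lit 0, nat_lit 0, nat_lit 0, nat_lit 0, nat_lit 0, nat_lit 0, [], [nat_lit 20, nat_lit 40, nat_lit 40, nat_lit 80, nat_lit 16, nat_lit 260, nat_lit 50, nat_lit 8]⟩, ⟨p110_k7, nat_lit 0, nat_lit 0, nat_lit 642, nat_lit 0, nat_lit 898238, [nat_lit 806336000, nat_lit 1370496000, nat_lit 2041984000], [], [nat_lit 5954102738, nat_lit 5964864866, nat_lit 6212335085, nat_lit 6222803273, nat_lit 5375462561, nat_lit 5378796246, nat_lit 5539720791, nat_lit 5542763257], nat_lit 1271250, nat_lit 1271250, nat_lit 1271250, nat_lit 1271250, nat_lit 88400, nat_lit 2194450, [nat_lit 1100000, nat_lit 1785000, nat_lit 1271250], [nat_lit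 21, nat_lit 40, nat_lit 40, nat_lit 80, nat_lit 14, nat_lit 373, nat_lit 150, nat_lit 9]⟩,
 ⟨nat_lit 2738, nat_lit 3163, ⟨.ofNat (nat_lit 760401), .ofNat (nat_lit 839640), .ofNat (nat_lit 765939), .ofNat (nat_lit 845179), .ofNat (nat_lit 755643), .ofNat (nat_lit 832423), .ofNat (nat_lit 761248), .ofNat (nat_lit 838027)⟩, ⟨.ofNat (nat_lit 261806), .ofNat (nat_lit 322759), .ofNat (nat_lit 306116), .ofNat (nat_lit 367069), .ofNat (nat_lit 261598), .ofNat (nat_lit 320659), .ofNat (nat_lit 306433), .ofNat (nat_lit 365494)⟩⟩, [⟨nat_lit 13, nat_lit 61, nat_lit 61, nat_lit 100, nat_lit 253751146⟩, ⟨nat_lit 13, nat_lit 56, nat_lit 65, nat_lit 100, nat_lit 29098119⟩, ⟨nat_lit 16, nat_lit 57, nat_lit 100, nat_lit 73, nat_lit 309001629⟩, ⟨nat_lit 19, nat_lit 100, nat_lit 98, nat_lit 77, nat_lit 26392682⟩]⟩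
noncomputable def p110_l12 : Lf2 := ⟨nat_lit 0, nat_lit 20, [nat_lit 5, nat_lit 5, nat_lit 5, nat_lit 20], false, nat_lit 160, nat_lit 184, nat_lit 16, nat_lit 308, ⟨nat_lit 167, nat_lit 833, nat_lit 0, nat_lit 8, nat_lit 315, nat_lit 833, nat_lit 120, nat_lit 0, nat_lit 0, nat_lit 0, nat_lit 0, nat_lit 0, nat_lit 37812357, nat_lit 24006353, nat_lit 5181290, nat_lit 4722072, true, true⟩,
 nat_lit 0, nat_lit 0, nat_lit 2024, nat_lit 0, nat_lit 2708, nat_lit 1232, nat_lit 243, nat_lit 0, nat_lit 0, nat_lit 147, nat_lit 0, nat_lit 0, nat_lit 0, nat_lit 0, nat_lit 0, nat_lit 208250, nat_lit 0, nat_lit 0, [(nat_lit 25, [(nat_lit 0, nat_lit 833)])],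
 ⟨p110_k6, nat_lit 0, nat_lit 0, nat_lit 88, nat_lit 0, nat_lit 0, [nat_lit 793058001, nat_lit 1688304400, nat_lit 2808044000], [], [nat_lit 26049861457, nat_lit 26508214941, nat_lit 27758957544, nat_lit 28183726430, nat_lit 26472915234, nat_lit 26916759909, nat_lit 28128008701, nat_lit 28581934938], nat_lit 0, nat_lit 0, nat_lit 0, nat_lit 0, nat_lit 0, nat_lit 0, [], [nat_lit 20, nat_lit 40, nat_lit 40, nat_lit 80, nat_lit 16, nat_lit 260, nat_lit 50, nat_lit 8]⟩, ⟨p110_k7, nat_lit 0, nat_lit 0, nat_lit 706, nat_lit 0, nat_lit 1067244, [nat_lit 782896000, nat_lit 1330656000, nat_lit 1982624000], [], [nat_lit 5874764385, nat_lit 5880022999, nat_lit 6009320845, nat_lit 6014800258, nat_lit 5197796875, nat_lit 5197482157, nat_lit 5275137754, nat_lit 5274930252], nat_lit 1271250, nat_lit 1271250, nat_lit 1271250, nat_lit 1271250, nat_lit 88400, nat_lit 2194450, [nat_lit 1100000, nat_lit 1785000, nat_lit 1271250],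 [nat_lit 21, nat_lit 40, nat_lit 40, nat_lit 80, nat_lit 14, nat_lit 373, nat_lit 150, nat_lit 9]⟩,
 ⟨nat_lit 2236, nat_lit 2739, ⟨.ofNat (nat_lit 755643), .ofNat (nat_lit 820611), .ofNat (nat_lit 761248), .ofNat (nat_lit 826215), .ofNat (nat_lit 750755), .ofNat (nat_lit 813472), .ofNat (nat_lit 756449), .ofNat (nat_lit 819166)⟩, ⟨.ofNat (nat_lit 261598), .ofNat (nat_lit 297035), .ofNat (nat_lit 306433), .ofNat (nat_lit 341870), .ofNat (nat_lit 260789), .ofNat (nat_lit 294998), .ofNat (nat_lit 306337), .ofNat (nat_lit 340547)⟩⟩, [⟨nat_lit 13, nat_lit 57, nat_lit 64, nat_lit 100, nat_lit 210855724⟩, ⟨nat_lit 16, nat_lit 50, nat_lit 100, nat_lit 74, nat_lit 356236238⟩, ⟨nat_lit 7, nat_lit 98, nat_lit 100, nat_lit 77, nat_lit 24013289⟩]⟩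
noncomputable def p110_l13 : Lf2 := ⟨nat_lit 0, nat_lit 20, [nat_lit 5, nat_lit 5, nat_lit 5, nat_lit 20], false, nat_lit 160, nat_lit 200, nat_lit 16, nat_lit 304, ⟨nat_lit 904, nat_lit 96, nat_lit 0, nat_lit 8, nat_lit 323, nat_lit 96, nat_lit 126, nat_lit 0, nat_lit 0, nat_lit 0, nat_lit 0, nat_lit 0, nat_lit 36930467, nat_lit 24637593, nat_lit 5431940, nat_lit 4787431, true, true⟩,
 nat_lit 0, nat_lit 0, nat_lit 10178, nat_lit 0, nat_lit 6420, nat_lit 6337, nat_lit 0, nat_lit 0, nat_lit 0, nat_lit 782, nat_lit 0, nat_lit 0, nat_lit 0, nat_lit 0, nat_lit 0, nat_lit 24000, nat_lit 0, nat_lit 0, [(nat_lit 25, [(nat_lit 0, nat_lit 96)])],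
 ⟨p110_k4, nat_lit 0, nat_lit 0, nat_lit 89, nat_lit 0, nat_lit 0, [nat_lit 921296000, nat_lit 3098332801, nat_lit 5853328000], [], [nat_lit 29425815200, nat_lit 30124886240, nat_lit 32701943376, nat_lit 33299175548, nat_lit 29948228520, nat_lit 30600646790, nat_lit 32997867808, nat_lit 33636938219], nat_lit 0, nat_lit 0, nat_lit 0, nat_lit 0, nat_lit 0, nat_lit 0, [], [nat_lit 20, nat_lit 40, nat_lit 40, nat_lit 80, nat_lit 16, nat_lit 260, nat_lit 50, nat_lit 8]⟩, ⟨p110_k8, nat_lit 0, nat_lit 0, nat_lit 642, nat_lit 0, nat_lit 901773, [nat_lit 4237952000, nat_lit 7203072000, nat_lit 10732288000], [], [nat_lit 31011256804, nat_lit 31068755531, nat_lit 32339558627, nat_lit 32386898540, nat_lit 28145504991, nat_lit 28165666876, nat_lit 28997210332, nat_lit 29076767904], nat_lit 1271250, nat_lit 1271250, nat_lit 1271250, nat_lit 1271250, nat_lit 88400, nat_lit 2165600, [nat_lit 1100000, nat_lit 1785000, nat_lit 1271250],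 [nat_lit 21, nat_lit 40, nat_lit 40, nat_lit 80, nat_lit 14, nat_lit 373, nat_lit 150, nat_lit 9]⟩,
 ⟨nat_lit 2738, nat_lit 3163, ⟨.ofNat (nat_lit 765939), .ofNat (nat_lit 851274), .ofNat (nat_lit 771478), .ofNat (nat_lit 856813), .ofNat (nat_lit 761248), .ofNat (nat_lit 843934), .ofNat (nat_lit 766852), .ofNat (nat_lit 849538)⟩, ⟨.ofNat (nat_lit 261806), .ofNat (nat_lit 322759), .ofNat (nat_lit 306116), .ofNat (nat_lit 367069), .ofNat (nat_lit 261598), .ofNat (nat_lit 320659), .ofNat (nat_lit 306433), .ofNat (nat_lit 365494)⟩⟩, [⟨nat_lit 4, nat_lit 100, nat_lit 57, nat_lit 73, nat_lit 2049210790⟩, ⟨nat_lit 19, nat_lit 100, nat_lit 100, nat_lit 77, nat_lit 143117570⟩]⟩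
noncomputable def p110_l14 : Lf2 := ⟨nat_lit 0, nat_lit 20, [nat_lit 5, nat_lit 5, nat_lit 5, nat_lit 20], false, nat_lit 160, nat_lit 184, nat_lit 16, nat_lit 304, ⟨nat_lit 646, nat_lit 354, nat_lit 0, nat_lit 8, nat_lit 319, nat_lit 354, nat_lit 120, nat_lit 0, nat_lit 0, nat_lit 0, nat_lit 0, nat_lit 0, nat_lit 37528095, nat_lit 24317655, nat_lit 5154250, nat_lit 4728051, true, true⟩,
 nat_lit 0, nat_lit 0, nat_lit 7395, nat_lit 0, nat_lit 3034, nat_lit 4604, nat_lit 399, nat_lit 0, nat_lit 0, nat_lit 563, nat_lit 0, nat_lit 0, nat_lit 0, nat_lit 0, nat_lit 0, nat_lit 88500, nat_lit 0, nat_lit 0, [(nat_lit 25, [(nat_lit 0, nat_lit 354)])],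
 ⟨p110_k6, nat_lit 0, nat_lit 0, nat_lit 90, nat_lit 0, nat_lit 0, [nat_lit 876404001, nat_lit 2604727200, nat_lit 4787272000], [], [nat_lit 26414819448, nat_lit 26902394156, nat_lit 28389174826, nat_lit 28827174430, nat_lit 26825468049, nat_lit 27296973540, nat_lit 28734763700, nat_lit 29199985681], nat_lit 0, nat_lit 0, nat_lit 0, nat_lit 0, nat_lit 0, nat_lit 0, [], [nat_lit 20, nat_lit 40, nat_lit 40, nat_lit 80, nat_lit 16, nat_lit 260, nat_lit 50, nat_lit 8]⟩, ⟨p110_k8, nat_lit 0, nat_lit 0, nat_lit 703, nat_lit 0, nat_lit 1063363, [nat_lit 3028448000, nat_lit 5147328000, nat_lit 7669312000], [], [nat_lit 22124678232, nat_lit 22154984320, nat_lit 22782104911, nat_lit 22803911311, nat_lit 19903669417, nat_lit 19910612840, nat_lit 20402945718, nat_lit 20459407396], nat_lit 1271250, nat_lit 1271250, nat_lit 1271250, nat_lit 1271250, nat_lit 88400, nat_lit 2165600, [nat_lit 1100000, nat_lit 1785000, nat_lit 1271250],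 [nat_lit 21, nat_lit 40, nat_lit 40, nat_lit 80, nat_lit 14, nat_lit 373, nat_lit 150, nat_lit 9]⟩,
 ⟨nat_lit 2236, nat_lit 2739, ⟨.ofNat (nat_lit 761248), .ofNat (nat_lit 832121), .ofNat (nat_lit 766852), .ofNat (nat_lit 837726), .ofNat (nat_lit 756449), .ofNat (nat_lit 824867), .ofNat (nat_lit 762142), .ofNat (nat_lit 830561)⟩, ⟨.ofNat (nat_lit 261598), .ofNat (nat_lit 297035), .ofNat (nat_lit 306433), .ofNat (nat_lit 341870), .ofNat (nat_lit 260789), .ofNat (nat_lit 294998), .ofNat (nat_lit 306337), .ofNat (nat_lit 340547)⟩⟩, [⟨nat_lit 4, nat_lit 100, nat_lit 50, nat_lit 74, nat_lit 1753406804⟩, ⟨nat_lit 19, nat_lit 100, nat_lit 92, nat_lit 86, nat_lit 92199145⟩]⟩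
noncomputable def p110_l15 : Lf2 := ⟨nat_lit 0, nat_lit 20, [nat_lit 5, nat_lit 5, nat_lit 5, nat_lit 20], false, nat_lit 160, nat_lit 200, nat_lit 16, nat_lit 320, ⟨nat_lit 1000, nat_lit 0, nat_lit 0, nat_lit 0, nat_lit 0, nat_lit 0, nat_lit 0, nat_lit 0, nat_lit 0, nat_lit 0, nat_lit 0, nat_lit 0, nat_lit 0, nat_lit 0, nat_lit 0, nat_lit 0, false, false⟩,
 nat_lit 0, nat_lit 0, nat_lit 13422, nat_lit 0, nat_lit 6592, nat_lit 7812, nat_lit 0, nat_lit 0, nat_lit 0, nat_lit 691, nat_lit 0, nat_lit 0, nat_lit 0, nat_lit 0, nat_lit 0, nat_lit 0, nat_lit 0, nat_lit 0, [],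
 ⟨p110_k4, nat_lit 0, nat_lit 0, nat_lit 96, nat_lit 0, nat_lit 0, [nat_lit 938000000, nat_lit 3282000000, nat_lit 6250000000], [], [nat_lit 29754265120, nat_lit 31173894128, nat_lit 33075868858, nat_lit 34285736074, nat_lit 30267088752, nat_lit 31591393456, nat_lit 33357353821, nat_lit 34556801685], nat_lit 0, nat_lit 0, nat_lit 0, nat_lit 0, nat_lit 0, nat_lit 0, [], [nat_lit 20, nat_lit 40, nat_lit 40, nat_lit 80, nat_lit 16, nat_lit 260, nat_lit 50, nat_lit 8]⟩, ⟨p110_k5, nat_lit 0, nat_lit 0, nat_lit 575, nat_lit 0, nat_lit 787435, [nat_lit 4688000000, nat_lit 7968000000, nat_lit 11872000000], [], [nat_lit 37942351826, nat_lit 38066810022, nat_lit 39466917976, nat_lit 39759940705, nat_lit 32978665305, nat_lit 33074900016, nat_lit 34147740931, nat_lit 34442802082], nat_lit 1271250, nat_lit 1271250, nat_lit 1271250, nat_lit 1271250, nat_lit 88400, nat_lit 2281000, [nat_lit 1100000, nat_lit 1785000, nat_lit 1271250],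 [nat_lit 21, nat_lit 40, nat_lit 40, nat_lit 80, nat_lit 14, nat_lit 373, nat_lit 150, nat_lit 9]⟩,
 zbF0, [⟨nat_lit 4, nat_lit 100, nat_lit 54, nat_lit 73, nat_lit 2946255417⟩, ⟨nat_lit 19, nat_lit 100, nat_lit 97, nat_lit 76, nat_lit 134151525⟩]⟩
noncomputable def p110_l16 : Lf2 := ⟨nat_lit 0, nat_lit 20, [nat_lit 5, nat_lit 5, nat_lit 5, nat_lit 20], false, nat_lit 80, nat_lit 164, nat_lit 0, nat_lit 320, ⟨nat_lit 93, nat_lit 907, nat_lit 0, nat_lit 8, nat_lit 303, nat_lit 907, nat_lit 91, nat_lit 0, nat_lit 0, nat_lit 0, nat_lit 0, nat_lit 0, nat_lit 40076320, nat_lit 23392205, nat_lit 3531475, nat_lit 4370772, true, true⟩,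
 nat_lit 0, nat_lit 0, nat_lit 1319, nat_lit 0, nat_lit 2852, nat_lit 767, nat_lit 117, nat_lit 0, nat_lit 0, nat_lit 61, nat_lit 0, nat_lit 0, nat_lit 0, nat_lit 0, nat_lit 0, nat_lit 226750, nat_lit 0, nat_lit 0, [(nat_lit 28, [(nat_lit 0, nat_lit 907)])],
 ⟨p110_k10, nat_lit 0, nat_lit 0, nat_lit 123, nat_lit 0, nat_lit 0, [nat_lit 796145201, nat_lit 1288051200, nat_lit 2133431334], [], [nat_lit 26378495023, nat_lit 27417964743, nat_lit 27561918927, nat_lit 28594604520, nat_lit 26827812658, nat_lit 27774845950, nat_lit 27910212482, nat_lit 28802373270], nat_lit 0, nat_lit 0, nat_lit 0, nat_lit 0, nat_lit 0, nat_lit 0, [], [nat_lit 20, nat_lit 40, nat_lit 40, nat_lit 80, nat_lit 16, nat_lit 260, nat_lit 50, nat_lit 8]⟩, ⟨p110_k5, nat_lit 0, nat_lit 0, nat_lit 920, nat_lit 0, nat_lit 1535250, [nat_lit 435984000, nat_lit 741024000, nat_lit 1104096000], [], [nat_lit 3579213017, nat_lit 3578584014, nat_lit 3672067467,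 nat_lit 3688509539, nat_lit 3015922430, nat_lit 3011828481, nat_lit 3066561232, nat_lit 3075654164], nat_lit 1271250, nat_lit 1271250, nat_lit 1271250, nat_lit 1271250, nat_lit 0, nat_lit 2260000, [nat_lit 1100000, nat_lit 1785000, nat_lit 1271250], [nat_lit 21, nat_lit 40, nat_lit 40, nat_lit 80, nat_lit 14, nat_lit 373, nat_lit 150, nat_lit 9]⟩,
 ⟨nat_lit 0, nat_lit 2237, ⟨.ofNat (nat_lit 739366), .ofNat (nat_lit 779275), .ofNat (nat_lit 750753), .ofNat (nat_lit 790663), .ofNat (nat_lit 724997), .ofNat (nat_lit 759995), .ofNat (nat_lit 737497), .ofNat (nat_lit 772496)⟩, ⟨.ofNat (nat_lit 146756), .ofNat (nat_lit 266484), .ofNat (nat_lit 192306), .ofNat (nat_lit 312035), .ofNat (nat_lit 149997), .ofNat (nat_lit 254993), .ofNat (nat_lit 199999), .ofNat (nat_lit 304995)⟩⟩, [⟨nat_lit 13, nat_lit 47, nat_lit 74, nat_lit 100, nat_lit 345652455⟩, ⟨nat_lit 16, nat_lit 44, nat_lit 100, nat_lit 82, nat_lit 139412514⟩, ⟨nat_lit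 19, nat_lit 100, nat_lit 95, nat_lit 76, nat_lit 10031385⟩]⟩
noncomputable def p110_l17 : Lf2 := ⟨nat_lit 0, nat_lit 20, [nat_lit 5, nat_lit 5, nat_lit 5, nat_lit 20], false, nat_lit 80, nat_lit 164, nat_lit 0, nat_lit 308, ⟨nat_lit 117, nat_lit 883, nat_lit 0, nat_lit 8, nat_lit 310, nat_lit 883, nat_lit 92, nat_lit 0, nat_lit 0, nat_lit 0, nat_lit 0, nat_lit 0, nat_lit 39359092, nat_lit 24118198, nat_lit 3522710, nat_lit 4397657, true, true⟩,
 nat_lit 0, nat_lit 0, nat_lit 1445, nat_lit 0, nat_lit 2814, nat_lit 880, nat_lit 137, nat_lit 0, nat_lit 0, nat_lit 94, nat_lit 0, nat_lit 0, nat_lit 0, nat_lit 0, nat_lit 0, nat_lit 220750, nat_lit 0, nat_lit 0, [(nat_lit 28, [(nat_lit 0, nat_lit 883)])],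
 ⟨p110_k10, nat_lit 0, nat_lit 0, nat_lit 120, nat_lit 0, nat_lit 0, [nat_lit 799898801, nat_lit 1340812800, nat_lit 2240295334], [], [nat_lit 26256164607, nat_lit 26773161377, nat_lit 27602899273, nat_lit 28131836504, nat_lit 26762356534, nat_lit 27215323168, nat_lit 27953796817, nat_lit 28393133793], nat_lit 0, nat_lit 0, nat_lit 0, nat_lit 0, nat_lit 0, nat_lit 0, [], [nat_lit 20, nat_lit 40, nat_lit 40, nat_lit 80, nat_lit 16, nat_lit 260, nat_lit 50, nat_lit 8]⟩, ⟨p110_k7, nat_lit 0, nat_lit 0, nat_lit 829, nat_lit 0, nat_lit 1304252, [nat_lit 548496000, nat_lit 932256000, nat_lit 1389024000], [], [nat_lit 4233620078, nat_lit 4237955880, nat_lit 4295611150, nat_lit 4316205960, nat_lit 3660427558, nat_lit 3657698115, nat_lit 3697089104, nat_lit 3714725419], nat_lit 1271250, nat_lit 1271250, nat_lit 1271250, nat_lit 1271250, nat_lit 0, nat_lit 2175250, [nat_lit 1100000, nat_lit 1785000, nat_lit 1271250], [nat_lit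 21, nat_lit 40, nat_lit 40, nat_lit 80, nat_lit 14, nat_lit 373, nat_lit 150, nat_lit 9]⟩,
 ⟨nat_lit 1581, nat_lit 2237, ⟨.ofNat (nat_lit 750755), .ofNat (nat_lit 796368), .ofNat (nat_lit 762142), .ofNat (nat_lit 807755), .ofNat (nat_lit 745508), .ofNat (nat_lit 789217), .ofNat (nat_lit 757166), .ofNat (nat_lit 800875)⟩, ⟨.ofNat (nat_lit 146758), .ofNat (nat_lit 266490), .ofNat (nat_lit 192306), .ofNat (nat_lit 312039), .ofNat (nat_lit 149571), .ofNat (nat_lit 264306), .ofNat (nat_lit 196201), .ofNat (nat_lit 310936)⟩⟩, [⟨nat_lit 13, nat_lit 48, nat_lit 71, nat_lit 100, nat_lit 287644514⟩, ⟨nat_lit 4, nat_lit 100, nat_lit 41, nat_lit 77, nat_lit 148908085⟩, ⟨nat_lit 19, nat_lit 100, nat_lit 99, nat_lit 77, nat_lit 15131741⟩]⟩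
noncomputable def p110_l18 : Lf2 := ⟨nat_lit 0, nat_lit 20, [nat_lit 5, nat_lit 5, nat_lit 5, nat_lit 20], true, nat_lit 80, nat_lit 136, nat_lit 0, nat_lit 308, ⟨nat_lit 0, nat_lit 1000, nat_lit 0, nat_lit 8, nat_lit 303, nat_lit 1000, nat_lit 84, nat_lit 0, nat_lit 0, nat_lit 0, nat_lit 0, nat_lit 0, nat_lit 40314950, nat_lit 23553310, nat_lit 3131740, nat_lit 4286978, true, true⟩,
 nat_lit 0, nat_lit 0, nat_lit 0, nat_lit 0, nat_lit 2906, nat_lit 0, nat_lit 0, nat_lit 0, nat_lit 0, nat_lit 0, nat_lit 0, nat_lit 0, nat_lit 0, nat_lit 0, nat_lit 0, nat_lit 250000, nat_lit 0, nat_lit 0, [(nat_lit 28, [(nat_lit 0, nat_lit 1000)])],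
 ⟨p110_k11, nat_lit 0, nat_lit 0, nat_lit 106, nat_lit 0, nat_lit 0, [nat_lit 781600001, nat_lit 1046000001, nat_lit 1376400000], [], [nat_lit 26844888178, nat_lit 27398897408, nat_lit 27544096265, nat_lit 28121459304, nat_lit 27096188683, nat_lit 27616996554, nat_lit 27755941752, nat_lit 28258836083], nat_lit 0, nat_lit 0, nat_lit 0, nat_lit 0, nat_lit 0, nat_lit 0, [], [nat_lit 35, nat_lit 40, nat_lit 40, nat_lit 80, nat_lit 22, nat_lit 249, nat_lit 40, nat_lit 9]⟩, C1.Rw.none,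
 ⟨nat_lit 0, nat_lit 1582, ⟨.ofNat (nat_lit 745507), .ofNat (nat_lit 767360), .ofNat (nat_lit 757165), .ofNat (nat_lit 779018), .ofNat (nat_lit 737498), .ofNat (nat_lit 757496), .ofNat (nat_lit 749998), .ofNat (nat_lit 769997)⟩, ⟨.ofNat (nat_lit 149570), .ofNat (nat_lit 226057), .ofNat (nat_lit 196201), .ofNat (nat_lit 272689), .ofNat (nat_lit 149998), .ofNat (nat_lit 219995), .ofNat (nat_lit 199999), .ofNat (nat_lit 269997)⟩⟩, [⟨nat_lit 13, nat_lit 34, nat_lit 81, nat_lit 100, nat_lit 615147626⟩, ⟨nat_lit 16, nat_lit 33, nat_lit 100, nat_lit 84, nat_lit 155136204⟩]⟩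
noncomputable def b_V_900_600_10_23 : St := ⟨true, nat_lit 0, nat_lit 1, nat_lit 1, nat_lit 80, nat_lit 360, nat_lit 400, nat_lit 260, nat_lit 280, nat_lit 320, nat_lit 376, nat_lit 40, nat_lit 80, nat_lit 80, nat_lit 200, nat_lit 0, nat_lit 336, nat_lit 80, nat_lit 120, nat_lit 0, nat_lit 0, nat_lit 0, nat_lit 0⟩
theorem d_V_900_600_10_23 (h : EB TB.env) : Dead b_V_900_600_10_23 := chkB_sound0 h (T :=
(.trX (nat_lit 19) (nat_lit 100) (nat_lit 85) (nat_lit 84) (nat_lit 320) (.spl (nat_lit 0) (nat_lit 380)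
(.spl (nat_lit 4) (nat_lit 160)
(.spl (nat_lit 3) (nat_lit 60)
(.trX (nat_lit 19) (nat_lit 100) (nat_lit 92) (nat_lit 75) (nat_lit 296) (.spl (nat_lit 1) (nat_lit 270)
(.trX (nat_lit 13) (nat_lit 64) (nat_lit 58) (nat_lit 100) (nat_lit 372) (.leaf p110_l0))
(.trX (nat_lit 19) (nat_lit 100) (nat_lit 97) (nat_lit 76) (nat_lit 288) (.spl (nat_lit 0) (nat_lit 370)
(.leaf p110_l1)
(.trX (nat_lit 13) (nat_lit 57) (nat_lit 62) (nat_lit 100) (nat_lit 368) (.leaf p110_l2))))))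
(.spl (nat_lit 6) (nat_lit 100)
(.spl (nat_lit 1) (nat_lit 270)
(.trX (nat_lit 13) (nat_lit 64) (nat_lit 58) (nat_lit 100) (nat_lit 372) (.spl (nat_lit 0) (nat_lit 370)
(.leaf p110_l3)
(.trX (nat_lit 13) (nat_lit 56) (nat_lit 65) (nat_lit 100) (nat_lit 360) (.leaf p110_l4))))
(.trX (nat_lit 19) (nat_lit 100) (nat_lit 90) (nat_lit 85) (nat_lit 308) (.spl (nat_lit 1) (nat_lit 275)
(.trX (nat_lit 13) (nat_lit 65) (nat_lit 56) (nat_lit 100) (nat_lit 372) (.leaf p110_l5))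
(.trX (nat_lit 19) (nat_lit 100) (nat_lit 92) (nat_lit 86) (nat_lit 304) (.spl (nat_lit 0) (nat_lit 370)
(.leaf p110_l6)
(.trX (nat_lit 13) (nat_lit 57) (nat_lit 62) (nat_lit 100) (nat_lit 368) (.leaf p110_l7)))))))
(.leaf p110_l8)))
(.trZ (nat_lit 9) (nat_lit 100) (nat_lit 82) (nat_lit 44) (nat_lit 16) (.spl (nat_lit 6) (nat_lit 100)
(.spl (nat_lit 1) (nat_lit 270)
(.trX (nat_lit 13) (nat_lit 64) (nat_lit 58) (nat_lit 100) (nat_lit 372) (.spl (nat_lit 1) (nat_lit 265)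
(.trX (nat_lit 13) (nat_lit 63) (nat_lit 59) (nat_lit 100) (nat_lit 368) (.leaf p110_l9))
(.trX (nat_lit 19) (nat_lit 100) (nat_lit 87) (nat_lit 85) (nat_lit 316) (.leaf p110_l10))))
(.trX (nat_lit 19) (nat_lit 100) (nat_lit 90) (nat_lit 85) (nat_lit 308) (.spl (nat_lit 1) (nat_lit 275)
(.trX (nat_lit 13) (nat_lit 65) (nat_lit 56) (nat_lit 100) (nat_lit 372) (.spl (nat_lit 0) (nat_lit 370)
(.leaf p110_l11)
(.trX (nat_lit 13) (nat_lit 57) (nat_lit 64) (nat_lit 100) (nat_lit 364) (.trX (nat_lit 16) (nat_lit 53) (nat_lit 100) (nat_lit 80) (nat_lit 184) (.leaf p110_l12)))))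
(.trX (nat_lit 19) (nat_lit 100) (nat_lit 92) (nat_lit 86) (nat_lit 304) (.spl (nat_lit 0) (nat_lit 370)
(.leaf p110_l13)
(.trX (nat_lit 13) (nat_lit 57) (nat_lit 62) (nat_lit 100) (nat_lit 368) (.trX (nat_lit 16) (nat_lit 53) (nat_lit 100) (nat_lit 80) (nat_lit 184) (.leaf p110_l14))))))))
(.leaf p110_l15))))
(.trX (nat_lit 13) (nat_lit 48) (nat_lit 71) (nat_lit 100) (nat_lit 352) (.trX (nat_lit 16) (nat_lit 44) (nat_lit 100) (nat_lit 82) (nat_lit 164) (.spl (nat_lit 1) (nat_lit 270)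
(.trX (nat_lit 13) (nat_lit 47) (nat_lit 74) (nat_lit 100) (nat_lit 348) (.leaf p110_l16))
(.trX (nat_lit 19) (nat_lit 100) (nat_lit 90) (nat_lit 85) (nat_lit 308) (.spl (nat_lit 0) (nat_lit 390)
(.leaf p110_l17)
(.trX (nat_lit 13) (nat_lit 34) (nat_lit 81) (nat_lit 100) (nat_lit 336) (.trX (nat_lit 16) (nat_lit 33) (nat_lit 100) (nat_lit 84) (nat_lit 136) (.leaf p110_l18))))))))))) (by decide +kernel)
noncomputable def p110_l19 : Lf2 := ⟨nat_lit 0, nat_lit 20, [nat_lit 5, nat_lit 5, nat_lit 5, nat_lit 20], false, nat_lit 0, nat_lit 200, nat_lit 0, nat_lit 336, ⟨nat_lit 426, nat_lit 574, nat_lit 0, nat_lit 6, nat_lit 251, nat_lit 574, nat_lit 67, nat_lit 0, nat_lit 0, nat_lit 0, nat_lit 0, nat_lit 0, nat_lit 0, nat_lit 0, nat_lit 0, nat_lit 5000000, false, false⟩,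
 nat_lit 0, nat_lit 0, nat_lit 0, nat_lit 1405, nat_lit 4733, nat_lit 5210, nat_lit 0, nat_lit 0, nat_lit 0, nat_lit 0, nat_lit 0, nat_lit 0, nat_lit 0, nat_lit 0, nat_lit 0, nat_lit 143500, nat_lit 0, nat_lit 0, [(nat_lit 25, [(nat_lit 0, nat_lit 574)]), (nat_lit 28, [(nat_lit 0, nat_lit 574)])],
 ⟨p110_k12, nat_lit 0, nat_lit 0, nat_lit 195, nat_lit 0, nat_lit 0, [nat_lit 848226400, nat_lit 3878232000], [], [nat_lit 27157182448, nat_lit 30418595573, nat_lit 35120129684, nat_lit 37989760305, nat_lit 26093462006, nat_lit 28677190239, nat_lit 32414898698, nat_lit 33989042675], nat_lit 0, nat_lit 0, nat_lit 0, nat_lit 0, nat_lit 0, nat_lit 0, [], [nat_lit 88, nat_lit 40, nat_lit 40, nat_lit 80, nat_lit 89, nat_lit 373, nat_lit 150, nat_lit 14]⟩, ⟨p110_k13, nat_lit 0, nat_lit 0, nat_lit 249, nat_lit 0, nat_lit 0, [nat_lit 1997088000, nat_lit 5988708000], [], [nat_lit 17993124253, nat_lit 19369472626, nat_lit 22974948058,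 nat_lit 23432207897, nat_lit 16599174006, nat_lit 17175339469, nat_lit 17941163026, nat_lit 18002004076], nat_lit 0, nat_lit 0, nat_lit 0, nat_lit 0, nat_lit 0, nat_lit 0, [], [nat_lit 145, nat_lit 40, nat_lit 40, nat_lit 80, nat_lit 144, nat_lit 483, nat_lit 250, nat_lit 11]⟩,
 ⟨nat_lit 0, nat_lit 3163, ⟨.ofNat (nat_lit 401957), .ofNat (nat_lit 812499), .ofNat (nat_lit 443658), .ofNat (nat_lit 856810), .ofNat (nat_lit 431745), .ofNat (nat_lit 769995), .ofNat (nat_lit 479136), .ofNat (nat_lit 819996)⟩, ⟨.ofNat (nat_lit 0), .ofNat (nat_lit 322753), .ofNat (nat_lit 0), .ofNat (nat_lit 367065), .ofNat (nat_lit 0), .ofNat (nat_lit 299993), .ofNat (nat_lit 0), .ofNat (nat_lit 349995)⟩⟩, []⟩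
noncomputable def p110_l20 : Lf2 := ⟨nat_lit 0, nat_lit 20, [nat_lit 5, nat_lit 5, nat_lit 5, nat_lit 20], true, nat_lit 0, nat_lit 200, nat_lit 0, nat_lit 336, ⟨nat_lit 0, nat_lit 1000, nat_lit 0, nat_lit 6, nat_lit 253, nat_lit 1000, nat_lit 69, nat_lit 0, nat_lit 0, nat_lit 0, nat_lit 0, nat_lit 0, nat_lit 0, nat_lit 0, nat_lit 0, nat_lit 5000000, false, false⟩,
 nat_lit 0, nat_lit 0, nat_lit 0, nat_lit 3053, nat_lit 3622, nat_lit 0, nat_lit 0, nat_lit 0, nat_lit 0, nat_lit 0, nat_lit 0, nat_lit 0, nat_lit 0, nat_lit 0, nat_lit 0, nat_lit 250000, nat_lit 0, nat_lit 0, [(nat_lit 25, [(nat_lit 0, nat_lit 1000)])],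
 ⟨p110_k14, nat_lit 0, nat_lit 0, nat_lit 178, nat_lit 0, nat_lit 0, [nat_lit 764000001, nat_lit 1715600001, nat_lit 2118000000], [], [nat_lit 22872258643, nat_lit 24376813751, nat_lit 31971842320, nat_lit 33232861902, nat_lit 23127291492, nat_lit 24329166162, nat_lit 29867460693, nat_lit 30733794112], nat_lit 0, nat_lit 0, nat_lit 0, nat_lit 0, nat_lit 0, nat_lit 0, [], [nat_lit 55, nat_lit 40, nat_lit 40, nat_lit 80, nat_lit 3, nat_lit 373, nat_lit 150, nat_lit 14]⟩, C1.Rw.none,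
 ⟨nat_lit 2236, nat_lit 3163, ⟨.ofNat (nat_lit 409856), .ofNat (nat_lit 812503), .ofNat (nat_lit 454039), .ofNat (nat_lit 856813), .ofNat (nat_lit 419758), .ofNat (nat_lit 796416), .ofNat (nat_lit 465180), .ofNat (nat_lit 841964)⟩, ⟨.ofNat (nat_lit 0), .ofNat (nat_lit 322759), .ofNat (nat_lit 0), .ofNat (nat_lit 367069), .ofNat (nat_lit 0), .ofNat (nat_lit 317804), .ofNat (nat_lit 0), .ofNat (nat_lit 363353)⟩⟩, [⟨nat_lit 13, nat_lit 65, nat_lit 54, nat_lit 100, nat_lit 369175843⟩]⟩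
noncomputable def p110_l21 : Lf2 := ⟨nat_lit 0, nat_lit 20, [nat_lit 5, nat_lit 5, nat_lit 5, nat_lit 20], true, nat_lit 0, nat_lit 164, nat_lit 0, nat_lit 336, ⟨nat_lit 0, nat_lit 1000, nat_lit 0, nat_lit 6, nat_lit 254, nat_lit 1000, nat_lit 57, nat_lit 0, nat_lit 0, nat_lit 0, nat_lit 0, nat_lit 0, nat_lit 0, nat_lit 0, nat_lit 0, nat_lit 5000000, false, false⟩,
 nat_lit 0, nat_lit 0, nat_lit 0, nat_lit 3858, nat_lit 2716, nat_lit 0, nat_lit 0, nat_lit 0, nat_lit 0, nat_lit 0, nat_lit 0, nat_lit 0, nat_lit 0, nat_lit 0, nat_lit 0, nat_lit 387850, nat_lit 0, nat_lit 0, [(nat_lit 28, [(nat_lit 0, nat_lit 81), (nat_lit 1, nat_lit 919)])],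
 ⟨p110_k15, nat_lit 0, nat_lit 0, nat_lit 187, nat_lit 0, nat_lit 0, [nat_lit 704404000, nat_lit 253214400], [], [nat_lit 22640334143, nat_lit 23795430938, nat_lit 29230060420, nat_lit 30421788317, nat_lit 22920552770, nat_lit 23884327341, nat_lit 27763306569, nat_lit 28745759347], nat_lit 0, nat_lit 0, nat_lit 0, nat_lit 0, nat_lit 0, nat_lit 0, [], [nat_lit 88, nat_lit 40, nat_lit 40, nat_lit 80, nat_lit 89, nat_lit 373, nat_lit 150, nat_lit 14]⟩, C1.Rw.none,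
 ⟨nat_lit 0, nat_lit 2237, ⟨.ofNat (nat_lit 467180), .ofNat (nat_lit 762201), .ofNat (nat_lit 510875), .ofNat (nat_lit 807752), .ofNat (nat_lit 480752), .ofNat (nat_lit 739994), .ofNat (nat_lit 528899), .ofNat (nat_lit 789996)⟩, ⟨.ofNat (nat_lit 0), .ofNat (nat_lit 266484), .ofNat (nat_lit 0), .ofNat (nat_lit 312035), .ofNat (nat_lit 0), .ofNat (nat_lit 254993), .ofNat (nat_lit 0), .ofNat (nat_lit 304995)⟩⟩, [⟨nat_lit 13, nat_lit 48, nat_lit 71, nat_lit 100, nat_lit 485711991⟩]⟩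
noncomputable def b_V_900_600_10_24 : St := ⟨true, nat_lit 0, nat_lit 2, nat_lit 2, nat_lit 80, nat_lit 360, nat_lit 400, nat_lit 240, nat_lit 280, nat_lit 112, nat_lit 376, nat_lit 40, nat_lit 80, nat_lit 0, nat_lit 200, nat_lit 0, nat_lit 336, nat_lit 80, nat_lit 120, nat_lit 0, nat_lit 0, nat_lit 0, nat_lit 0⟩
theorem d_V_900_600_10_24 (h : EB TB.env) : Dead b_V_900_600_10_24 := chkB_sound0 h (T :=
(.st (nat_lit 1)
(.leaf p110_l19)
(.spl (nat_lit 0) (nat_lit 380)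
(.leaf p110_l20)
(.trZ (nat_lit 0) (nat_lit 100) (nat_lit 44) (nat_lit 99) (nat_lit 148) (.trX (nat_lit 13) (nat_lit 48) (nat_lit 71) (nat_lit 100) (nat_lit 352) (.trX (nat_lit 16) (nat_lit 44) (nat_lit 100) (nat_lit 82) (nat_lit 164) (.leaf p110_l21))))))) (by decide +kernel)
noncomputable def p110_l22 : Lf2 := ⟨nat_lit 0, nat_lit 20, [nat_lit 5, nat_lit 5, nat_lit 5, nat_lit 20], false, nat_lit 0, nat_lit 200, nat_lit 0, nat_lit 160, ⟨nat_lit 1000, nat_lit 0, nat_lit 0, nat_lit 0, nat_lit 0, nat_lit 0, nat_lit 0, nat_lit 0, nat_lit 0, nat_lit 0, nat_lit 0, nat_lit 0, nat_lit 0, nat_lit 0, nat_lit 0, nat_lit 0, false, false⟩,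
 nat_lit 0, nat_lit 6201, nat_lit 0, nat_lit 0, nat_lit 5400, nat_lit 6547, nat_lit 447, nat_lit 0, nat_lit 0, nat_lit 1149, nat_lit 0, nat_lit 0, nat_lit 0, nat_lit 0, nat_lit 0, nat_lit 0, nat_lit 0, nat_lit 0, [],
 ⟨p110_k4, nat_lit 0, nat_lit 0, nat_lit 382, nat_lit 0, nat_lit 597866, [nat_lit 938000000, nat_lit 3282000000, nat_lit 6250000000], [], [nat_lit 26664678071, nat_lit 27911460791, nat_lit 37000666400, nat_lit 38544606321, nat_lit 25583468710, nat_lit 26572540836, nat_lit 33932875995, nat_lit 32975232961], nat_lit 1271250, nat_lit 1271250, nat_lit 719601, nat_lit 2861300, nat_lit 0, nat_lit 1412500, [nat_lit 230000, nat_lit 780000, nat_lit 1435000], [nat_lit 20, nat_lit 40, nat_lit 40, nat_lit 80, nat_lit 16, nat_lit 373, nat_lit 150, nat_lit 14]⟩, ⟨p110_k16, nat_lit 0, nat_lit 0, nat_lit 271, nat_lit 0, nat_lit 0, [nat_lit 4688000000, nat_lit 7968000000, nat_lit 14058000000], [], [nat_lit 26501413132,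 nat_lit 28800094486, nat_lit 36057991155, nat_lit 37084119932, nat_lit 22445817178, nat_lit 24114041932, nat_lit 30464943188, nat_lit 31656103994], nat_lit 0, nat_lit 0, nat_lit 0, nat_lit 0, nat_lit 0, nat_lit 0, [], [nat_lit 37, nat_lit 40, nat_lit 40, nat_lit 80, nat_lit 28, nat_lit 456, nat_lit 225, nat_lit 11]⟩,
 zbF0, [⟨nat_lit 0, nat_lit 92, nat_lit 44, nat_lit 100, nat_lit 215871376⟩, ⟨nat_lit 4, nat_lit 100, nat_lit 54, nat_lit 73, nat_lit 311152877⟩]⟩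
noncomputable def p110_l23 : Lf2 := ⟨nat_lit 0, nat_lit 20, [nat_lit 5, nat_lit 5, nat_lit 5, nat_lit 20], false, nat_lit 0, nat_lit 164, nat_lit 0, nat_lit 160, ⟨nat_lit 1000, nat_lit 0, nat_lit 0, nat_lit 0, nat_lit 0, nat_lit 0, nat_lit 0, nat_lit 0, nat_lit 0, nat_lit 0, nat_lit 0, nat_lit 0, nat_lit 0, nat_lit 0, nat_lit 0, nat_lit 0, false, false⟩,
 nat_lit 0, nat_lit 3869, nat_lit 0, nat_lit 0, nat_lit 3615, nat_lit 6853, nat_lit 639, nat_lit 0, nat_lit 0, nat_lit 0, nat_lit 0, nat_lit 0, nat_lit 0, nat_lit 0, nat_lit 0, nat_lit 0, nat_lit 0, nat_lit 0, [],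
 ⟨p110_k15, nat_lit 0, nat_lit 0, nat_lit 417, nat_lit 0, nat_lit 701717, [nat_lit 938000000, nat_lit 6250000000], [], [nat_lit 24023592769, nat_lit 25753302102, nat_lit 31755361489, nat_lit 33107087653, nat_lit 24102429202, nat_lit 25120048320, nat_lit 29060566870, nat_lit 30013024484], nat_lit 1271250, nat_lit 1271250, nat_lit 1000851, nat_lit 2724650, nat_lit 0, nat_lit 1133651, [nat_lit 230000, nat_lit 1420000], [nat_lit 88, nat_lit 40, nat_lit 40, nat_lit 80, nat_lit 89, nat_lit 373, nat_lit 150, nat_lit 14]⟩, ⟨p110_k13, nat_lit 0, nat_lit 0, nat_lit 243, nat_lit 0, nat_lit 0, [nat_lit 4688000000, nat_lit 14058000000], [], [nat_lit 38093901242, nat_lit 40320397788, nat_lit 46251117284, nat_lit 47424137123, nat_lit 33437430819, nat_lit 35036901360, nat_lit 39988466022, nat_lit 41000499182], nat_lit 0, nat_lit 0, nat_lit 0, nat_lit 0, nat_lit 0, nat_lit 0, [], [nat_lit 145, nat_lit 40, nat_lit 40, nat_lit 80,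 nat_lit 144, nat_lit 428, nat_lit 200, nat_lit 10]⟩,
 zbF0, [⟨nat_lit 0, nat_lit 95, nat_lit 31, nat_lit 100, nat_lit 244385181⟩, ⟨nat_lit 4, nat_lit 100, nat_lit 35, nat_lit 80, nat_lit 508801390⟩]⟩
noncomputable def p110_l24 : Lf2 := ⟨nat_lit 0, nat_lit 20, [nat_lit 5, nat_lit 5, nat_lit 5, nat_lit 20], false, nat_lit 0, nat_lit 200, nat_lit 160, nat_lit 336, ⟨nat_lit 1000, nat_lit 0, nat_lit 0, nat_lit 0, nat_lit 0, nat_lit 0, nat_lit 0, nat_lit 0, nat_lit 0, nat_lit 0, nat_lit 0, nat_lit 0, nat_lit 0, nat_lit 0, nat_lit 0, nat_lit 0, false, false⟩,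
 nat_lit 0, nat_lit 6193, nat_lit 0, nat_lit 0, nat_lit 5393, nat_lit 6792, nat_lit 421, nat_lit 0, nat_lit 0, nat_lit 0, nat_lit 0, nat_lit 0, nat_lit 0, nat_lit 0, nat_lit 0, nat_lit 0, nat_lit 0, nat_lit 0, [],
 ⟨p110_k4, nat_lit 0, nat_lit 0, nat_lit 454, nat_lit 0, nat_lit 770932, [nat_lit 938000000, nat_lit 3282000000, nat_lit 6250000000], [], [nat_lit 28455326089, nat_lit 30671606676, nat_lit 36980867880, nat_lit 40066520001, nat_lit 27406720193, nat_lit 29161676288, nat_lit 34152986066, nat_lit 34225407544], nat_lit 1271250, nat_lit 1271250, nat_lit 719601, nat_lit 2861300, nat_lit 0, nat_lit 1412500, [nat_lit 230000, nat_lit 780000, nat_lit 1435000], [nat_lit 20, nat_lit 40, nat_lit 40, nat_lit 80, nat_lit 16, nat_lit 373, nat_lit 150, nat_lit 14]⟩, ⟨p110_k16, nat_lit 0, nat_lit 0, nat_lit 85, nat_lit 0, nat_lit 0, [nat_lit 4688000000, nat_lit 7968000000, nat_lit 14058000000], [], [nat_lit 8782495540,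 nat_lit 12491734900, nat_lit 25805210368, nat_lit 27816267207, nat_lit 21440780450, nat_lit 24051351061, nat_lit 32375178595, nat_lit 33536323990], nat_lit 0, nat_lit 0, nat_lit 0, nat_lit 0, nat_lit 0, nat_lit 0, [], [nat_lit 37, nat_lit 40, nat_lit 40, nat_lit 80, nat_lit 28, nat_lit 483, nat_lit 250, nat_lit 11]⟩,
 zbF0, [⟨nat_lit 0, nat_lit 96, nat_lit 44, nat_lit 100, nat_lit 167463831⟩, ⟨nat_lit 4, nat_lit 100, nat_lit 46, nat_lit 75, nat_lit 343434215⟩, ⟨nat_lit 19, nat_lit 100, nat_lit 76, nat_lit 82, nat_lit 506157690⟩]⟩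
noncomputable def b_V_900_600_10_25 : St := ⟨true, nat_lit 1, nat_lit 0, nat_lit 1, nat_lit 80, nat_lit 360, nat_lit 400, nat_lit 240, nat_lit 280, nat_lit 112, nat_lit 376, nat_lit 40, nat_lit 80, nat_lit 0, nat_lit 200, nat_lit 0, nat_lit 336, nat_lit 80, nat_lit 120, nat_lit 0, nat_lit 0, nat_lit 0, nat_lit 0⟩
theorem d_V_900_600_10_25 (h : EB TB.env) : Dead b_V_900_600_10_25 := chkB_sound0 h (T :=
(.spl (nat_lit 5) (nat_lit 160)
(.spl (nat_lit 0) (nat_lit 380)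
(.leaf p110_l22)
(.trZ (nat_lit 0) (nat_lit 100) (nat_lit 44) (nat_lit 99) (nat_lit 148) (.trX (nat_lit 13) (nat_lit 48) (nat_lit 71) (nat_lit 100) (nat_lit 352) (.trX (nat_lit 16) (nat_lit 44) (nat_lit 100) (nat_lit 82) (nat_lit 164) (.leaf p110_l23)))))
(.leaf p110_l24))) (by decide +kernel)
noncomputable def p110_l25 : Lf2 := ⟨nat_lit 0, nat_lit 20, [nat_lit 5, nat_lit 5, nat_lit 5, nat_lit 20], false, nat_lit 0, nat_lit 80, nat_lit 0, nat_lit 336, ⟨nat_lit 120, nat_lit 0, nat_lit 880, nat_lit 6, nat_lit 206, nat_lit 880, nat_lit 33, nat_lit 880, nat_lit 10417, nat_lit 240, nat_lit 4460, nat_lit 207, nat_lit 52957207, nat_lit 0, nat_lit 0, nat_lit 2567089, false, false⟩,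
 nat_lit 2006, nat_lit 799, nat_lit 0, nat_lit 0, nat_lit 2442, nat_lit 1062, nat_lit 0, nat_lit 0, nat_lit 0, nat_lit 0, nat_lit 0, nat_lit 0, nat_lit 0, nat_lit 0, nat_lit 45, nat_lit 220000, nat_lit 0, nat_lit 0, [(nat_lit 25, [(nat_lit 4, nat_lit 880)])],
 ⟨p110_k4, nat_lit 0, nat_lit 0, nat_lit 262, nat_lit 0, nat_lit 320351, [nat_lit 933200001, nat_lit 615397334, nat_lit 47514666], [], [nat_lit 19609024652, nat_lit 20708149111, nat_lit 22360317167, nat_lit 23460275463, nat_lit 19343792436, nat_lit 20378426319, nat_lit 22076675711, nat_lit 23152397459], nat_lit 1271250, nat_lit 1271250, nat_lit 719601, nat_lit 1758000, nat_lit 0, nat_lit 490000, [nat_lit 230000, nat_lit 780000, nat_lit 1435000], [nat_lit 20, nat_lit 40, nat_lit 40, nat_lit 80, nat_lit 16, nat_lit 317, nat_lit 100, nat_lit 12]⟩, ⟨p110_k16, nat_lit 0, nat_lit 0, nat_lit 639, nat_lit 0, nat_lit 607931, [nat_lit 562560000, nat_lit 956160000, nat_lit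 1686960000], [], [nat_lit 6707179076, nat_lit 6717757994, nat_lit 6501270120, nat_lit 6516516462, nat_lit 5953436363, nat_lit 5964055631, nat_lit 5970033020, nat_lit 5733860999], nat_lit 1271250, nat_lit 1271250, nat_lit 719601, nat_lit 1758000, nat_lit 0, nat_lit 2373000, [nat_lit 1100000, nat_lit 1785000, nat_lit 1271250], [nat_lit 37, nat_lit 40, nat_lit 40, nat_lit 80, nat_lit 28, nat_lit 456, nat_lit 225, nat_lit 11]⟩,
 ⟨nat_lit 2236, nat_lit 3163, ⟨.ofNat (nat_lit 409856), .ofNat (nat_lit 605240), .ofNat (nat_lit 420902), .ofNat (nat_lit 616285), .ofNat (nat_lit 419758), .ofNat (nat_lit 602541), .ofNat (nat_lit 431114), .ofNat (nat_lit 613896)⟩, ⟨.ofNat (nat_lit 0), .ofNat (nat_lit 139899), .ofNat (nat_lit 0), .ofNat (nat_lit 184209), .ofNat (nat_lit 0), .ofNat (nat_lit 146758), .ofNat (nat_lit 0), .ofNat (nat_lit 192306)⟩⟩, [⟨nat_lit 3, nat_lit 100, nat_lit 74, nat_lit 33, nat_lit 48118620⟩, ⟨nat_lit 10,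 nat_lit 74, nat_lit 100, nat_lit 59, nat_lit 18764794⟩]⟩
noncomputable def p110_l26 : Lf2 := ⟨nat_lit 0, nat_lit 20, [nat_lit 5, nat_lit 5, nat_lit 5, nat_lit 20], false, nat_lit 0, nat_lit 80, nat_lit 0, nat_lit 328, ⟨nat_lit 170, nat_lit 0, nat_lit 830, nat_lit 6, nat_lit 213, nat_lit 830, nat_lit 33, nat_lit 830, nat_lit 10417, nat_lit 240, nat_lit 2400, nat_lit 203, nat_lit 52217851, nat_lit 0, nat_lit 0, nat_lit 2638514, false, false⟩,
 nat_lit 2620, nat_lit 214, nat_lit 0, nat_lit 0, nat_lit 2467, nat_lit 1455, nat_lit 45, nat_lit 0, nat_lit 0, nat_lit 23, nat_lit 0, nat_lit 0, nat_lit 0, nat_lit 0, nat_lit 25, nat_lit 207500, nat_lit 0, nat_lit 0, [(nat_lit 25, [(nat_lit 4, nat_lit 830)])],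
 ⟨p110_k4, nat_lit 0, nat_lit 0, nat_lit 269, nat_lit 0, nat_lit 337303, [nat_lit 863700000, nat_lit 557590667, nat_lit 42201333], [], [nat_lit 19741812928, nat_lit 20835905792, nat_lit 22403241654, nat_lit 23513260350, nat_lit 19463614652, nat_lit 20497013749, nat_lit 22103755998, nat_lit 23173632602], nat_lit 1271250, nat_lit 1271250, nat_lit 780000, nat_lit 1762500, nat_lit 0, nat_lit 490000, [nat_lit 230000, nat_lit 780000, nat_lit 1435000], [nat_lit 20, nat_lit 40, nat_lit 40, nat_lit 80, nat_lit 16, nat_lit 317, nat_lit 100, nat_lit 12]⟩, ⟨p110_k17, nat_lit 0, nat_lit 0, nat_lit 630, nat_lit 0, nat_lit 600047, [nat_lit 796960000, nat_lit 1354560000, nat_lit 2389860000], [], [nat_lit 8949288570, nat_lit 8977835280, nat_lit 8777103570, nat_lit 8797251190, nat_lit 7934464571, nat_lit 7948938567, nat_lit 8001893999, nat_lit 7677513243], nat_lit 1271250, nat_lit 1271250, nat_lit 780000, nat_lit 1762500, nat_lit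 0, nat_lit 2316500, [nat_lit 1100000, nat_lit 1785000, nat_lit 1271250], [nat_lit 37, nat_lit 40, nat_lit 40, nat_lit 80, nat_lit 28, nat_lit 456, nat_lit 225, nat_lit 11]⟩,
 ⟨nat_lit 2236, nat_lit 3163, ⟨.ofNat (nat_lit 433114), .ofNat (nat_lit 616285), .ofNat (nat_lit 444159), .ofNat (nat_lit 627331), .ofNat (nat_lit 442538), .ofNat (nat_lit 613896), .ofNat (nat_lit 453893), .ofNat (nat_lit 625251)⟩, ⟨.ofNat (nat_lit 0), .ofNat (nat_lit 139899), .ofNat (nat_lit 0), .ofNat (nat_lit 184209), .ofNat (nat_lit 0), .ofNat (nat_lit 146758), .ofNat (nat_lit 0), .ofNat (nat_lit 192306)⟩⟩, [⟨nat_lit 3, nat_lit 100, nat_lit 74, nat_lit 33, nat_lit 30337061⟩, ⟨nat_lit 10, nat_lit 77, nat_lit 100, nat_lit 56, nat_lit 26368623⟩]⟩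
noncomputable def p110_l27 : Lf2 := ⟨nat_lit 0, nat_lit 20, [nat_lit 5, nat_lit 5, nat_lit 5, nat_lit 20], false, nat_lit 0, nat_lit 80, nat_lit 0, nat_lit 320, ⟨nat_lit 194, nat_lit 0, nat_lit 806, nat_lit 6, nat_lit 223, nat_lit 376, nat_lit 33, nat_lit 806, nat_lit 10417, nat_lit 240, nat_lit 27834, nat_lit 200, nat_lit 51137509, nat_lit 0, nat_lit 0, nat_lit 2736543, false, false⟩,
 nat_lit 2969, nat_lit 0, nat_lit 0, nat_lit 0, nat_lit 2585, nat_lit 1728, nat_lit 40, nat_lit 0, nat_lit 0, nat_lit 8, nat_lit 0, nat_lit 0, nat_lit 0, nat_lit 0, nat_lit 15, nat_lit 201500, nat_lit 0, nat_lit 0, [(nat_lit 25, [(nat_lit 4, nat_lit 806)])],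
 ⟨p110_k4, nat_lit 0, nat_lit 0, nat_lit 252, nat_lit 0, nat_lit 324087, [nat_lit 828740000, nat_lit 525043467, nat_lit 31650933], [], [nat_lit 20184607219, nat_lit 20734081382, nat_lit 22502129066, nat_lit 23022045215, nat_lit 19853075026, nat_lit 20346724591, nat_lit 22074024133, nat_lit 22593131733], nat_lit 1271250, nat_lit 1271250, nat_lit 872850, nat_lit 1769250, nat_lit 0, nat_lit 490000, [nat_lit 230000, nat_lit 780000, nat_lit 1435000], [nat_lit 20, nat_lit 40, nat_lit 40, nat_lit 80, nat_lit 16, nat_lit 317, nat_lit 100, nat_lit 12]⟩, ⟨p110_k5, nat_lit 0, nat_lit 0, nat_lit 533, nat_lit 0, nat_lit 541877, [nat_lit 909472000, nat_lit 1545792000, nat_lit 2303168000], [], [nat_lit 8961483813, nat_lit 9062037596, nat_lit 8922201880, nat_lit 8994067488, nat_lit 7975978535, nat_lit 8012227372, nat_lit 8705064568, nat_lit 7932648568], nat_lit 1271250, nat_lit 1271250, nat_lit 872850, nat_lit 1769250, nat_lit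 0, nat_lit 2260000, [nat_lit 1100000, nat_lit 1785000, nat_lit 1271250], [nat_lit 21, nat_lit 40, nat_lit 40, nat_lit 80, nat_lit 14, nat_lit 456, nat_lit 225, nat_lit 12]⟩,
 ⟨nat_lit 2738, nat_lit 3163, ⟨.ofNat (nat_lit 462776), .ofNat (nat_lit 627400), .ofNat (nat_lit 484919), .ofNat (nat_lit 649542), .ofNat (nat_lit 466780), .ofNat (nat_lit 626295), .ofNat (nat_lit 489185), .ofNat (nat_lit 648700)⟩, ⟨.ofNat (nat_lit 0), .ofNat (nat_lit 139899), .ofNat (nat_lit 0), .ofNat (nat_lit 184209), .ofNat (nat_lit 0), .ofNat (nat_lit 143475), .ofNat (nat_lit 0), .ofNat (nat_lit 188310)⟩⟩, [⟨nat_lit 7, nat_lit 97, nat_lit 100, nat_lit 76, nat_lit 25679371⟩]⟩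
noncomputable def p110_l28 : Lf2 := ⟨nat_lit 0, nat_lit 20, [nat_lit 5, nat_lit 5, nat_lit 5, nat_lit 20], false, nat_lit 0, nat_lit 80, nat_lit 0, nat_lit 320, ⟨nat_lit 219, nat_lit 0, nat_lit 781, nat_lit 6, nat_lit 228, nat_lit 781, nat_lit 34, nat_lit 781, nat_lit 10417, nat_lit 240, nat_lit 26118, nat_lit 200, nat_lit 50556675, nat_lit 0, nat_lit 0, nat_lit 2786251, false, false⟩,
 nat_lit 2849, nat_lit 0, nat_lit 0, nat_lit 0, nat_lit 2570, nat_lit 1658, nat_lit 45, nat_lit 0, nat_lit 0, nat_lit 57, nat_lit 0, nat_lit 0, nat_lit 0, nat_lit 0, nat_lit 5, nat_lit 195250, nat_lit 0, nat_lit 0, [(nat_lit 25, [(nat_lit 4, nat_lit 781)])],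
 ⟨p110_k6, nat_lit 0, nat_lit 0, nat_lit 272, nat_lit 0, nat_lit 361245, [nat_lit 793990001, nat_lit 496140134, nat_lit 28994266], [], [nat_lit 21201798483, nat_lit 21739259095, nat_lit 23201397395, nat_lit 23747066808, nat_lit 20821093017, nat_lit 21327087125, nat_lit 22954345651, nat_lit 23499457251], nat_lit 1271250, nat_lit 1271250, nat_lit 1000851, nat_lit 1778250, nat_lit 0, nat_lit 490000, [nat_lit 230000, nat_lit 780000, nat_lit 1435000], [nat_lit 20, nat_lit 40, nat_lit 40, nat_lit 80, nat_lit 16, nat_lit 317, nat_lit 100, nat_lit 12]⟩, ⟨p110_k5, nat_lit 0, nat_lit 0, nat_lit 561, nat_lit 0, nat_lit 630866, [nat_lit 1026672000, nat_lit 1744992000, nat_lit 2599968000], [], [nat_lit 9720285816, nat_lit 9827854355, nat_lit 9785495250, nat_lit 9868240998, nat_lit 8935965890, nat_lit 8980928203, nat_lit 9767251268, nat_lit 9026125268], nat_lit 1271250, nat_lit 1271250, nat_lit 1000851, nat_lit 1778250, nat_lit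 0, nat_lit 2260000, [nat_lit 1100000, nat_lit 1785000, nat_lit 1271250], [nat_lit 21, nat_lit 40, nat_lit 40, nat_lit 80, nat_lit 14, nat_lit 456, nat_lit 225, nat_lit 12]⟩,
 ⟨nat_lit 2236, nat_lit 2739, ⟨.ofNat (nat_lit 490366), .ofNat (nat_lit 626287), .ofNat (nat_lit 512763), .ofNat (nat_lit 648684), .ofNat (nat_lit 494096), .ofNat (nat_lit 625312), .ofNat (nat_lit 516850), .ofNat (nat_lit 648065)⟩, ⟨.ofNat (nat_lit 0), .ofNat (nat_lit 143475), .ofNat (nat_lit 0), .ofNat (nat_lit 188310), .ofNat (nat_lit 0), .ofNat (nat_lit 146758), .ofNat (nat_lit 0), .ofNat (nat_lit 192306)⟩⟩, [⟨nat_lit 3, nat_lit 100, nat_lit 68, nat_lit 40, nat_lit 33272192⟩, ⟨nat_lit 7, nat_lit 97, nat_lit 100, nat_lit 76, nat_lit 30733515⟩, ⟨nat_lit 10, nat_lit 80, nat_lit 100, nat_lit 58, nat_lit 7078551⟩]⟩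
noncomputable def p110_l29 : Lf2 := ⟨nat_lit 0, nat_lit 20, [nat_lit 5, nat_lit 5, nat_lit 5, nat_lit 20], false, nat_lit 0, nat_lit 80, nat_lit 0, nat_lit 336, ⟨nat_lit 149, nat_lit 331, nat_lit 520, nat_lit 6, nat_lit 219, nat_lit 851, nat_lit 34, nat_lit 520, nat_lit 11267, nat_lit 241, nat_lit 4418, nat_lit 204, nat_lit 51494337, nat_lit 15505663, nat_lit 0, nat_lit 2704978, false, false⟩,
 nat_lit 2459, nat_lit 0, nat_lit 0, nat_lit 0, nat_lit 2297, nat_lit 1301, nat_lit 0, nat_lit 0, nat_lit 0, nat_lit 9, nat_lit 0, nat_lit 0, nat_lit 0, nat_lit 0, nat_lit 58, nat_lit 340400, nat_lit 0, nat_lit 0, [(nat_lit 28, [(nat_lit 1, nat_lit 331), (nat_lit 5, nat_lit 520)])],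
 ⟨p110_k10, nat_lit 0, nat_lit 0, nat_lit 260, nat_lit 0, nat_lit 335905, [nat_lit 911339601, nat_lit 371918800, nat_lit 242256000], [], [nat_lit 20984605973, nat_lit 21285853492, nat_lit 23235898413, nat_lit 23499049831, nat_lit 20801509973, nat_lit 21084500524, nat_lit 22983705885, nat_lit 23231745445], nat_lit 1271250, nat_lit 1271250, nat_lit 1000851, nat_lit 1778250, nat_lit 0, nat_lit 490000, [nat_lit 230000, nat_lit 780000, nat_lit 1435000], [nat_lit 20, nat_lit 40, nat_lit 40, nat_lit 80, nat_lit 16, nat_lit 317, nat_lit 100, nat_lit 12]⟩, ⟨p110_k16, nat_lit 0, nat_lit 0, nat_lit 654, nat_lit 0, nat_lit 694652, [nat_lit 698512000, nat_lit 1187232000, nat_lit 2094642000], [], [nat_lit 8069798690, nat_lit 8093018021, nat_lit 7946619336, nat_lit 7958473182, nat_lit 7092668167, nat_lit 7114551955, nat_lit 7518543610, nat_lit 6955669950], nat_lit 1271250, nat_lit 1271250, nat_lit 1000851, nat_lit 1778250, nat_lit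 0, nat_lit 2373000, [nat_lit 1100000, nat_lit 1785000, nat_lit 1271250], [nat_lit 37, nat_lit 40, nat_lit 40, nat_lit 80, nat_lit 28, nat_lit 456, nat_lit 225, nat_lit 11]⟩,
 ⟨nat_lit 1936, nat_lit 2237, ⟨.ofNat (nat_lit 471389), .ofNat (nat_lit 602562), .ofNat (nat_lit 494155), .ofNat (nat_lit 625327), .ofNat (nat_lit 473327), .ofNat (nat_lit 601908), .ofNat (nat_lit 496329), .ofNat (nat_lit 624911)⟩, ⟨.ofNat (nat_lit 0), .ofNat (nat_lit 146758), .ofNat (nat_lit 0), .ofNat (nat_lit 192306), .ofNat (nat_lit 0), .ofNat (nat_lit 148244), .ofNat (nat_lit 0), .ofNat (nat_lit 194266)⟩⟩, [⟨nat_lit 3, nat_lit 100, nat_lit 47, nat_lit 64, nat_lit 963826⟩, ⟨nat_lit 22, nat_lit 100, nat_lit 78, nat_lit 60, nat_lit 22235942⟩]⟩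
noncomputable def p110_l30 : Lf2 := ⟨nat_lit 0, nat_lit 20, [nat_lit 5, nat_lit 5, nat_lit 5, nat_lit 20], false, nat_lit 4, nat_lit 80, nat_lit 0, nat_lit 336, ⟨nat_lit 136, nat_lit 414, nat_lit 450, nat_lit 6, nat_lit 223, nat_lit 864, nat_lit 36, nat_lit 450, nat_lit 12150, nat_lit 242, nat_lit 3557, nat_lit 204, nat_lit 50187994, nat_lit 15832744, nat_lit 979262, nat_lit 3181594, false, false⟩,
 nat_lit 2388, nat_lit 185, nat_lit 0, nat_lit 0, nat_lit 2445, nat_lit 1264, nat_lit 0, nat_lit 0, nat_lit 0, nat_lit 106, nat_lit 0, nat_lit 0, nat_lit 0, nat_lit 0, nat_lit 9, nat_lit 283500, nat_lit 0, nat_lit 0, [(nat_lit 28, [(nat_lit 0, nat_lit 414), (nat_lit 5, nat_lit 450)])],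
 ⟨p110_k18, nat_lit 0, nat_lit 0, nat_lit 241, nat_lit 0, nat_lit 354982, [nat_lit 754270400, nat_lit 190716001, nat_lit 21538399], [], [nat_lit 21609178907, nat_lit 21928009335, nat_lit 23826354931, nat_lit 24133479877, nat_lit 21428883814, nat_lit 21723418609, nat_lit 23594569663, nat_lit 23883659635], nat_lit 1271250, nat_lit 1271250, nat_lit 1100001, nat_lit 1785000, nat_lit 21650, nat_lit 490000, [nat_lit 230000, nat_lit 780000, nat_lit 1100000], [nat_lit 35, nat_lit 40, nat_lit 40, nat_lit 80, nat_lit 22, nat_lit 226, nat_lit 20, nat_lit 9]⟩, ⟨p110_k16, nat_lit 0, nat_lit 0, nat_lit 695, nat_lit 0, nat_lit 749557, [nat_lit 637568000, nat_lit 1083648000, nat_lit 1911888000], [], [nat_lit 5921271392, nat_lit 5273544384, nat_lit 5216707952, nat_lit 5267288352, nat_lit 6372994144, nat_lit 5796082298, nat_lit 4245808509, nat_lit 4255945013], nat_lit 1271250, nat_lit 1271250, nat_lit 1271250, nat_lit 1271250, nat_lit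 0, nat_lit 2373000, [nat_lit 1100000, nat_lit 1785000, nat_lit 1271250], [nat_lit 37, nat_lit 40, nat_lit 40, nat_lit 80, nat_lit 28, nat_lit 456, nat_lit 225, nat_lit 11]⟩,
 ⟨nat_lit 1581, nat_lit 1937, ⟨.ofNat (nat_lit 490075), .ofNat (nat_lit 601908), .ofNat (nat_lit 513071), .ofNat (nat_lit 624905), .ofNat (nat_lit 491937), .ofNat (nat_lit 601263), .ofNat (nat_lit 515237), .ofNat (nat_lit 624564)⟩, ⟨.ofNat (nat_lit 10000), .ofNat (nat_lit 148244), .ofNat (nat_lit 10000), .ofNat (nat_lit 194266), .ofNat (nat_lit 10000), .ofNat (nat_lit 149571), .ofNat (nat_lit 10000), .ofNat (nat_lit 196201)⟩⟩, [⟨nat_lit 0, nat_lit 95, nat_lit 31, nat_lit 100, nat_lit 132693563⟩, ⟨nat_lit 3, nat_lit 100, nat_lit 49, nat_lit 60, nat_lit 97212287⟩, ⟨nat_lit 19, nat_lit 100, nat_lit 88, nat_lit 74, nat_lit 14375521⟩]⟩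
noncomputable def p110_l31 : Lf2 := ⟨nat_lit 0, nat_lit 20, [nat_lit 5, nat_lit 5, nat_lit 5, nat_lit 20], false, nat_lit 0, nat_lit 80, nat_lit 0, nat_lit 320, ⟨nat_lit 188, nat_lit 511, nat_lit 301, nat_lit 6, nat_lit 234, nat_lit 812, nat_lit 34, nat_lit 301, nat_lit 11267, nat_lit 241, nat_lit 24782, nat_lit 200, nat_lit 49869786, nat_lit 17130214, nat_lit 0, nat_lit 2842419, false, false⟩,
 nat_lit 2831, nat_lit 0, nat_lit 0, nat_lit 0, nat_lit 2645, nat_lit 1647, nat_lit 0, nat_lit 0, nat_lit 0, nat_lit 104, nat_lit 0, nat_lit 0, nat_lit 0, nat_lit 0, nat_lit 1, nat_lit 324800, nat_lit 0, nat_lit 0, [(nat_lit 28, [(nat_lit 1, nat_lit 511), (nat_lit 5, nat_lit 301)])],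
 ⟨p110_k10, nat_lit 0, nat_lit 0, nat_lit 303, nat_lit 0, nat_lit 395949, [nat_lit 715491200, nat_lit 262098401, nat_lit 168794400], [], [nat_lit 22285086068, nat_lit 22891506309, nat_lit 24133683590, nat_lit 24676439805, nat_lit 21957204439, nat_lit 22525417419, nat_lit 23736328500, nat_lit 24246795030], nat_lit 1271250, nat_lit 1271250, nat_lit 1167600, nat_lit 1789500, nat_lit 0, nat_lit 490000, [nat_lit 230000, nat_lit 780000, nat_lit 1435000], [nat_lit 20, nat_lit 40, nat_lit 40, nat_lit 80, nat_lit 16, nat_lit 317, nat_lit 100, nat_lit 11]⟩, ⟨p110_k5, nat_lit 0, nat_lit 0, nat_lit 589, nat_lit 0, nat_lit 721442, [nat_lit 881344000, nat_lit 1497984000, nat_lit 2231936000], [], [nat_lit 7063123714, nat_lit 7114860408, nat_lit 7030348256, nat_lit 7069439348, nat_lit 7300267600, nat_lit 6546634658, nat_lit 5977183778, nat_lit 6021910348], nat_lit 1271250, nat_lit 1271250, nat_lit 1271250, nat_lit 1271250, nat_lit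 0, nat_lit 2260000, [nat_lit 1100000, nat_lit 1785000, nat_lit 1271250], [nat_lit 21, nat_lit 40, nat_lit 40, nat_lit 80, nat_lit 14, nat_lit 456, nat_lit 225, nat_lit 12]⟩,
 ⟨nat_lit 1581, nat_lit 2237, ⟨.ofNat (nat_lit 522505), .ofNat (nat_lit 625287), .ofNat (nat_lit 545234), .ofNat (nat_lit 648016), .ofNat (nat_lit 526032), .ofNat (nat_lit 624529), .ofNat (nat_lit 549300), .ofNat (nat_lit 647799)⟩, ⟨.ofNat (nat_lit 0), .ofNat (nat_lit 146758), .ofNat (nat_lit 0), .ofNat (nat_lit 192306), .ofNat (nat_lit 0), .ofNat (nat_lit 149571), .ofNat (nat_lit 0), .ofNat (nat_lit 196201)⟩⟩, [⟨nat_lit 0, nat_lit 92, nat_lit 31, nat_lit 100, nat_lit 138434027⟩, ⟨nat_lit 7, nat_lit 97, nat_lit 100, nat_lit 76, nat_lit 24363811⟩]⟩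
noncomputable def p110_l32 : Lf2 := ⟨nat_lit 0, nat_lit 20, [nat_lit 5, nat_lit 5, nat_lit 5, nat_lit 20], false, nat_lit 8, nat_lit 80, nat_lit 0, nat_lit 336, ⟨nat_lit 156, nat_lit 509, nat_lit 335, nat_lit 6, nat_lit 232, nat_lit 844, nat_lit 39, nat_lit 335, nat_lit 14017, nat_lit 244, nat_lit 26116, nat_lit 200, nat_lit 49114182, nat_lit 16815466, nat_lit 1070352, nat_lit 3296334, true, false⟩,
 nat_lit 2669, nat_lit 0, nat_lit 0, nat_lit 0, nat_lit 2580, nat_lit 1413, nat_lit 0, nat_lit 0, nat_lit 0, nat_lit 120, nat_lit 0, nat_lit 0, nat_lit 0, nat_lit 0, nat_lit 0, nat_lit 261250, nat_lit 0, nat_lit 0, [(nat_lit 28, [(nat_lit 0, nat_lit 509), (nat_lit 5, nat_lit 335)])],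
 ⟨p110_k11, nat_lit 0, nat_lit 0, nat_lit 264, nat_lit 0, nat_lit 428352, [nat_lit 743018401, nat_lit 451322001, nat_lit 436400399], [], [nat_lit 22872567011, nat_lit 23448625775, nat_lit 24555209409, nat_lit 25117964770, nat_lit 22688258509, nat_lit 23273866730, nat_lit 24356075589, nat_lit 24887137449], nat_lit 1271250, nat_lit 1271250, nat_lit 1236400, nat_lit 1794000, nat_lit 43600, nat_lit 490000, [nat_lit 230000, nat_lit 780000, nat_lit 1100000], [nat_lit 35, nat_lit 40, nat_lit 40, nat_lit 80, nat_lit 22, nat_lit 226, nat_lit 20, nat_lit 9]⟩, ⟨p110_k16, nat_lit 0, nat_lit 0, nat_lit 771, nat_lit 0, nat_lit 923290, [nat_lit 731328000, nat_lit 1243008000, nat_lit 2193048000], [], [nat_lit 6138158357, nat_lit 6148050761, nat_lit 6031360584, nat_lit 6147936012, nat_lit 6774731521, nat_lit 5491567005, nat_lit 4968962297, nat_lit 4989991265], nat_lit 1271250, nat_lit 1271250, nat_lit 1271250, nat_lit 1271250,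 nat_lit 0, nat_lit 2373000, [nat_lit 1100000, nat_lit 1785000, nat_lit 1271250], [nat_lit 37, nat_lit 40, nat_lit 40, nat_lit 80, nat_lit 28, nat_lit 456, nat_lit 225, nat_lit 10]⟩,
 ⟨nat_lit 0, nat_lit 1582, ⟨.ofNat (nat_lit 511747), .ofNat (nat_lit 601257), .ofNat (nat_lit 557064), .ofNat (nat_lit 646579), .ofNat (nat_lit 517899), .ofNat (nat_lit 599992), .ofNat (nat_lit 566585), .ofNat (nat_lit 648683)⟩, ⟨.ofNat (nat_lit 20000), .ofNat (nat_lit 149570), .ofNat (nat_lit 20000), .ofNat (nat_lit 196201), .ofNat (nat_lit 20000), .ofNat (nat_lit 149998), .ofNat (nat_lit 20000), .ofNat (nat_lit 199999)⟩⟩, [⟨nat_lit 0, nat_lit 96, nat_lit 22, nat_lit 100, nat_lit 207975046⟩, ⟨nat_lit 3, nat_lit 100, nat_lit 31, nat_lit 76, nat_lit 12078940⟩, ⟨nat_lit 3, nat_lit 100, nat_lit 52, nat_lit 53, nat_lit 63324124⟩, ⟨nat_lit 7, nat_lit 92, nat_lit 100, nat_lit 75, nat_lit 16369333⟩]⟩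
noncomputable def p110_l33 : Lf2 := ⟨nat_lit 0, nat_lit 20, [nat_lit 5, nat_lit 5, nat_lit 5, nat_lit 20], false, nat_lit 80, nat_lit 200, nat_lit 0, nat_lit 336, ⟨nat_lit 0, nat_lit 255, nat_lit 745, nat_lit 6, nat_lit 208, nat_lit 1000, nat_lit 102, nat_lit 745, nat_lit 96267, nat_lit 291, nat_lit 2400, nat_lit 203, nat_lit 48421586, nat_lit 13992647, nat_lit 4585767, nat_lit 3957111, false, false⟩,
 nat_lit 0, nat_lit 3053, nat_lit 0, nat_lit 0, nat_lit 2659, nat_lit 0, nat_lit 0, nat_lit 0, nat_lit 0, nat_lit 0, nat_lit 0, nat_lit 0, nat_lit 0, nat_lit 0, nat_lit 43, nat_lit 250000, nat_lit 0, nat_lit 0, [(nat_lit 25, [(nat_lit 0, nat_lit 255), (nat_lit 4, nat_lit 745)])],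
 ⟨p110_k4, nat_lit 0, nat_lit 0, nat_lit 219, nat_lit 0, nat_lit 337303, [nat_lit 909180000, nat_lit 595453334, nat_lit 45110666], [], [nat_lit 18290783825, nat_lit 19539085280, nat_lit 21206351318, nat_lit 22298901966, nat_lit 20426587664, nat_lit 21534913751, nat_lit 23121491604, nat_lit 24208043795], nat_lit 1271250, nat_lit 1271250, nat_lit 719601, nat_lit 1758000, nat_lit 490000, nat_lit 1427500, [nat_lit 230000, nat_lit 780000, nat_lit 1435000], [nat_lit 20, nat_lit 40, nat_lit 40, nat_lit 80, nat_lit 16, nat_lit 345, nat_lit 125, nat_lit 13]⟩, ⟨p110_k16, nat_lit 0, nat_lit 0, nat_lit 650, nat_lit 0, nat_lit 640101, [nat_lit 0, nat_lit 0, nat_lit 0], [], [nat_lit 0, nat_lit 0, nat_lit 0, nat_lit 0, nat_lit 0, nat_lit 0, nat_lit 0, nat_lit 0], nat_lit 1271250, nat_lit 1271250, nat_lit 719601, nat_lit 1758000, nat_lit 0, nat_lit 2373000, [nat_lit 1100000, nat_lit 1785000, nat_lit 1271250], [nat_lit 37, nat_lit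 40, nat_lit 40, nat_lit 80, nat_lit 28, nat_lit 456, nat_lit 225, nat_lit 11]⟩,
 ⟨nat_lit 2236, nat_lit 3163, ⟨.ofNat (nat_lit 409856), .ofNat (nat_lit 605240), .ofNat (nat_lit 431948), .ofNat (nat_lit 627331), .ofNat (nat_lit 419758), .ofNat (nat_lit 602541), .ofNat (nat_lit 442469), .ofNat (nat_lit 625251)⟩, ⟨.ofNat (nat_lit 139899), .ofNat (nat_lit 322759), .ofNat (nat_lit 184209), .ofNat (nat_lit 367069), .ofNat (nat_lit 146758), .ofNat (nat_lit 317804), .ofNat (nat_lit 192306), .ofNat (nat_lit 363353)⟩⟩, [⟨nat_lit 4, nat_lit 100, nat_lit 54, nat_lit 73, nat_lit 206428032⟩]⟩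
noncomputable def p110_l34 : Lf2 := ⟨nat_lit 0, nat_lit 20, [nat_lit 5, nat_lit 5, nat_lit 5, nat_lit 20], false, nat_lit 80, nat_lit 164, nat_lit 0, nat_lit 336, ⟨nat_lit 0, nat_lit 726, nat_lit 274, nat_lit 6, nat_lit 220, nat_lit 1000, nat_lit 91, nat_lit 274, nat_lit 79350, nat_lit 284, nat_lit 2526, nat_lit 204, nat_lit 47929936, nat_lit 15190103, nat_lit 3879961, nat_lit 3919225, false, false⟩,
 nat_lit 0, nat_lit 2714, nat_lit 0, nat_lit 0, nat_lit 2535, nat_lit 0, nat_lit 0, nat_lit 0, nat_lit 0, nat_lit 0, nat_lit 0, nat_lit 0, nat_lit 0, nat_lit 0, nat_lit 50, nat_lit 399100, nat_lit 0, nat_lit 0, [(nat_lit 28, [(nat_lit 0, nat_lit 6), (nat_lit 1, nat_lit 720), (nat_lit 5, nat_lit 274)])],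
 ⟨p110_k10, nat_lit 0, nat_lit 0, nat_lit 243, nat_lit 0, nat_lit 416161, [nat_lit 869608000, nat_lit 355268000, nat_lit 110376000], [], [nat_lit 20244862116, nat_lit 21423909860, nat_lit 22427677400, nat_lit 23579478620, nat_lit 21366110557, nat_lit 22434240226, nat_lit 23483161275, nat_lit 24576342147], nat_lit 1271250, nat_lit 1271250, nat_lit 1000851, nat_lit 1778250, nat_lit 490000, nat_lit 1133651, [nat_lit 230000, nat_lit 780000, nat_lit 1435000], [nat_lit 20, nat_lit 40, nat_lit 40, nat_lit 80, nat_lit 16, nat_lit 345, nat_lit 125, nat_lit 12]⟩, ⟨p110_k16, nat_lit 0, nat_lit 0, nat_lit 760, nat_lit 0, nat_lit 860623, [nat_lit 0, nat_lit 0, nat_lit 0], [], [nat_lit 0, nat_lit 0, nat_lit 0, nat_lit 0, nat_lit 0, nat_lit 0, nat_lit 0, nat_lit 0], nat_lit 1271250, nat_lit 1271250, nat_lit 1000851, nat_lit 1778250, nat_lit 0, nat_lit 2373000, [nat_lit 1100000, nat_lit 1785000, nat_lit 1271250], [nat_lit 37,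 nat_lit 40, nat_lit 40, nat_lit 80, nat_lit 28, nat_lit 456, nat_lit 225, nat_lit 11]⟩,
 ⟨nat_lit 0, nat_lit 2237, ⟨.ofNat (nat_lit 467180), .ofNat (nat_lit 602531), .ofNat (nat_lit 489028), .ofNat (nat_lit 624400), .ofNat (nat_lit 480752), .ofNat (nat_lit 599967), .ofNat (nat_lit 504825), .ofNat (nat_lit 624062)⟩, ⟨.ofNat (nat_lit 146756), .ofNat (nat_lit 266484), .ofNat (nat_lit 192306), .ofNat (nat_lit 312035), .ofNat (nat_lit 149997), .ofNat (nat_lit 254993), .ofNat (nat_lit 199999), .ofNat (nat_lit 304995)⟩⟩, [⟨nat_lit 4, nat_lit 100, nat_lit 35, nat_lit 80, nat_lit 277850757⟩]⟩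
noncomputable def p110_l35 : Lf2 := ⟨nat_lit 0, nat_lit 20, [nat_lit 5, nat_lit 5, nat_lit 5, nat_lit 20], false, nat_lit 80, nat_lit 200, nat_lit 0, nat_lit 320, ⟨nat_lit 199, nat_lit 0, nat_lit 801, nat_lit 6, nat_lit 223, nat_lit 801, nat_lit 102, nat_lit 801, nat_lit 96267, nat_lit 291, nat_lit 27594, nat_lit 200, nat_lit 47014433, nat_lit 0, nat_lit 0, nat_lit 4081040, false, false⟩,
 nat_lit 3259, nat_lit 0, nat_lit 0, nat_lit 0, nat_lit 2838, nat_lit 1897, nat_lit 23, nat_lit 0, nat_lit 0, nat_lit 0, nat_lit 0, nat_lit 0, nat_lit 0, nat_lit 0, nat_lit 13, nat_lit 200250, nat_lit 0, nat_lit 0, [(nat_lit 25, [(nat_lit 4, nat_lit 801)])],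
 ⟨p110_k4, nat_lit 0, nat_lit 0, nat_lit 225, nat_lit 0, nat_lit 377310, [nat_lit 821790000, nat_lit 519262801, nat_lit 31119599], [], [nat_lit 19273702283, nat_lit 20376163499, nat_lit 21519935836, nat_lit 22512011424, nat_lit 21020454595, nat_lit 21970849157, nat_lit 23087826098, nat_lit 24064392960], nat_lit 1271250, nat_lit 1271250, nat_lit 872850, nat_lit 1769250, nat_lit 490000, nat_lit 1427500, [nat_lit 230000, nat_lit 780000, nat_lit 1435000], [nat_lit 20, nat_lit 40, nat_lit 40, nat_lit 80, nat_lit 16, nat_lit 345, nat_lit 125, nat_lit 12]⟩, ⟨p110_k5, nat_lit 0, nat_lit 0, nat_lit 568, nat_lit 0, nat_lit 630866, [nat_lit 932912000, nat_lit 1585632000, nat_lit 2362528000], [], [nat_lit 9148646043, nat_lit 9233799258, nat_lit 9057479996, nat_lit 9153256828, nat_lit 7999658206, nat_lit 8069676483, nat_lit 8963384148, nat_lit 8115425148], nat_lit 1271250, nat_lit 1271250, nat_lit 872850, nat_lit 1769250, nat_lit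 0, nat_lit 2260000, [nat_lit 1100000, nat_lit 1785000, nat_lit 1271250], [nat_lit 21, nat_lit 40, nat_lit 40, nat_lit 80, nat_lit 14, nat_lit 456, nat_lit 225, nat_lit 12]⟩,
 ⟨nat_lit 2236, nat_lit 3163, ⟨.ofNat (nat_lit 462477), .ofNat (nat_lit 627331), .ofNat (nat_lit 484568), .ofNat (nat_lit 649422), .ofNat (nat_lit 471029), .ofNat (nat_lit 625251), .ofNat (nat_lit 493740), .ofNat (nat_lit 647962)⟩, ⟨.ofNat (nat_lit 139899), .ofNat (nat_lit 322759), .ofNat (nat_lit 184209), .ofNat (nat_lit 367069), .ofNat (nat_lit 146758), .ofNat (nat_lit 317804), .ofNat (nat_lit 192306), .ofNat (nat_lit 363353)⟩⟩, [⟨nat_lit 4, nat_lit 100, nat_lit 54, nat_lit 73, nat_lit 258991546⟩, ⟨nat_lit 7, nat_lit 97, nat_lit 100, nat_lit 76, nat_lit 24587891⟩]⟩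
noncomputable def p110_l36 : Lf2 := ⟨nat_lit 0, nat_lit 20, [nat_lit 5, nat_lit 5, nat_lit 5, nat_lit 20], false, nat_lit 80, nat_lit 164, nat_lit 0, nat_lit 320, ⟨nat_lit 179, nat_lit 234, nat_lit 587, nat_lit 6, nat_lit 234, nat_lit 821, nat_lit 91, nat_lit 587, nat_lit 79350, nat_lit 284, nat_lit 25022, nat_lit 200, nat_lit 46507569, nat_lit 16660014, nat_lit 3832417, nat_lit 4033072, false, false⟩,
 nat_lit 2930, nat_lit 0, nat_lit 0, nat_lit 0, nat_lit 2737, nat_lit 1705, nat_lit 0, nat_lit 0, nat_lit 0, nat_lit 101, nat_lit 0, nat_lit 0, nat_lit 0, nat_lit 0, nat_lit 45, nat_lit 293300, nat_lit 0, nat_lit 0, [(nat_lit 28, [(nat_lit 0, nat_lit 234), (nat_lit 5, nat_lit 587)])],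
 ⟨p110_k10, nat_lit 0, nat_lit 0, nat_lit 248, nat_lit 0, nat_lit 446464, [nat_lit 879239600, nat_lit 341815601, nat_lit 245090400], [], [nat_lit 20550044589, nat_lit 21921140347, nat_lit 22391675176, nat_lit 23867825912, nat_lit 21589207313, nat_lit 22663170119, nat_lit 23237701206, nat_lit 24455091734], nat_lit 1271250, nat_lit 1271250, nat_lit 1167600, nat_lit 1789500, nat_lit 490000, nat_lit 1133651, [nat_lit 230000, nat_lit 780000, nat_lit 1435000], [nat_lit 20, nat_lit 40, nat_lit 40, nat_lit 80, nat_lit 16, nat_lit 345, nat_lit 125, nat_lit 12]⟩, ⟨p110_k5, nat_lit 0, nat_lit 0, nat_lit 657, nat_lit 0, nat_lit 813484, [nat_lit 839152000, nat_lit 1426272000, nat_lit 2125088000], [], [nat_lit 6597070102, nat_lit 6503902022, nat_lit 6498391718, nat_lit 6607502090, nat_lit 6920310308, nat_lit 6140137772, nat_lit 5394655658, nat_lit 5434755670], nat_lit 1271250, nat_lit 1271250, nat_lit 1271250, nat_lit 1271250,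 nat_lit 0, nat_lit 2260000, [nat_lit 1100000, nat_lit 1785000, nat_lit 1271250], [nat_lit 21, nat_lit 40, nat_lit 40, nat_lit 80, nat_lit 14, nat_lit 456, nat_lit 225, nat_lit 12]⟩,
 ⟨nat_lit 0, nat_lit 2237, ⟨.ofNat (nat_lit 518456), .ofNat (nat_lit 624400), .ofNat (nat_lit 540305), .ofNat (nat_lit 646249), .ofNat (nat_lit 530746), .ofNat (nat_lit 624062), .ofNat (nat_lit 554820), .ofNat (nat_lit 648136)⟩, ⟨.ofNat (nat_lit 146756), .ofNat (nat_lit 266484), .ofNat (nat_lit 192306), .ofNat (nat_lit 312035), .ofNat (nat_lit 149997), .ofNat (nat_lit 254993), .ofNat (nat_lit 199999), .ofNat (nat_lit 304995)⟩⟩, [⟨nat_lit 0, nat_lit 94, nat_lit 31, nat_lit 100, nat_lit 87385132⟩, ⟨nat_lit 0, nat_lit 96, nat_lit 44, nat_lit 100, nat_lit 1493566⟩, ⟨nat_lit 4, nat_lit 100, nat_lit 35, nat_lit 80, nat_lit 325730934⟩, ⟨nat_lit 19, nat_lit 100, nat_lit 97, nat_lit 76, nat_lit 19582478⟩]⟩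
noncomputable def b_V_900_600_10_26 : St := ⟨true, nat_lit 1, nat_lit 1, nat_lit 1, nat_lit 80, nat_lit 360, nat_lit 400, nat_lit 240, nat_lit 280, nat_lit 112, nat_lit 240, nat_lit 40, nat_lit 80, nat_lit 0, nat_lit 200, nat_lit 0, nat_lit 336, nat_lit 80, nat_lit 120, nat_lit 0, nat_lit 0, nat_lit 0, nat_lit 0⟩
theorem d_V_900_600_10_26 (h : EB TB.env) : Dead b_V_900_600_10_26 := chkB_sound0 h (T :=
(.spl (nat_lit 4) (nat_lit 80)
(.spl (nat_lit 0) (nat_lit 380)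
(.spl (nat_lit 1) (nat_lit 260)
(.spl (nat_lit 1) (nat_lit 250)
(.leaf p110_l25)
(.trZ (nat_lit 0) (nat_lit 100) (nat_lit 62) (nat_lit 95) (nat_lit 120) (.trX (nat_lit 19) (nat_lit 100) (nat_lit 81) (nat_lit 83) (nat_lit 328) (.leaf p110_l26))))
(.trZ (nat_lit 0) (nat_lit 100) (nat_lit 63) (nat_lit 99) (nat_lit 132) (.trX (nat_lit 19) (nat_lit 100) (nat_lit 85) (nat_lit 84) (nat_lit 320) (.spl (nat_lit 0) (nat_lit 370)
(.leaf p110_l27)
(.trZ (nat_lit 0) (nat_lit 98) (nat_lit 54) (nat_lit 100) (nat_lit 148) (.leaf p110_l28))))))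
(.trZ (nat_lit 0) (nat_lit 100) (nat_lit 44) (nat_lit 99) (nat_lit 148) (.spl (nat_lit 0) (nat_lit 390)
(.spl (nat_lit 1) (nat_lit 260)
(.spl (nat_lit 0) (nat_lit 385)
(.leaf p110_l29)
(.trZ (nat_lit 0) (nat_lit 100) (nat_lit 39) (nat_lit 100) (nat_lit 160) (.trZ (nat_lit 3) (nat_lit 100) (nat_lit 63) (nat_lit 42) (nat_lit 4) (.leaf p110_l30))))
(.trZ (nat_lit 0) (nat_lit 96) (nat_lit 44) (nat_lit 100) (nat_lit 168) (.trX (nat_lit 19) (nat_lit 100) (nat_lit 85) (nat_lit 84) (nat_lit 320) (.leaf p110_l31))))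
(.trZ (nat_lit 0) (nat_lit 99) (nat_lit 31) (nat_lit 100) (nat_lit 176) (.trZ (nat_lit 3) (nat_lit 100) (nat_lit 52) (nat_lit 53) (nat_lit 8) (.leaf p110_l32))))))
(.spl (nat_lit 1) (nat_lit 260)
(.spl (nat_lit 0) (nat_lit 380)
(.leaf p110_l33)
(.trZ (nat_lit 0) (nat_lit 100) (nat_lit 44) (nat_lit 99) (nat_lit 148) (.trX (nat_lit 16) (nat_lit 44) (nat_lit 100) (nat_lit 82) (nat_lit 164) (.leaf p110_l34))))
(.trZ (nat_lit 0) (nat_lit 100) (nat_lit 63) (nat_lit 99) (nat_lit 132) (.trX (nat_lit 19) (nat_lit 100) (nat_lit 85) (nat_lit 84) (nat_lit 320) (.spl (nat_lit 0) (nat_lit 380)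
(.leaf p110_l35)
(.trZ (nat_lit 0) (nat_lit 96) (nat_lit 44) (nat_lit 100) (nat_lit 168) (.trX (nat_lit 16) (nat_lit 44) (nat_lit 100) (nat_lit 82) (nat_lit 164) (.leaf p110_l36))))))))) (by decide +kernel)
noncomputable def p110_l37 : Lf2 := ⟨nat_lit 0, nat_lit 20, [nat_lit 5, nat_lit 5, nat_lit 5, nat_lit 20], false, nat_lit 0, nat_lit 80, nat_lit 0, nat_lit 160, ⟨nat_lit 291, nat_lit 709, nat_lit 0, nat_lit 6, nat_lit 270, nat_lit 709, nat_lit 33, nat_lit 0, nat_lit 0, nat_lit 0, nat_lit 0, nat_lit 0, nat_lit 46066679, nat_lit 20933321, nat_lit 0, nat_lit 3105185, true, true⟩,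
 nat_lit 3810, nat_lit 0, nat_lit 0, nat_lit 0, nat_lit 3318, nat_lit 2017, nat_lit 111, nat_lit 0, nat_lit 0, nat_lit 255, nat_lit 0, nat_lit 0, nat_lit 0, nat_lit 0, nat_lit 0, nat_lit 322000, nat_lit 0, nat_lit 0, [(nat_lit 25, [(nat_lit 1, nat_lit 645), (nat_lit 2, nat_lit 64)])],
 ⟨p110_k4, nat_lit 0, nat_lit 0, nat_lit 262, nat_lit 0, nat_lit 337303, [nat_lit 911831601, nat_lit 1577058267, nat_lit 2159530800], [], [nat_lit 25831692611, nat_lit 26797370771, nat_lit 28283218923, nat_lit 29141542304, nat_lit 24999379923, nat_lit 25908846071, nat_lit 27325637291, nat_lit 28126617589], nat_lit 1271250, nat_lit 1271250, nat_lit 1271250, nat_lit 1271250, nat_lit 0, nat_lit 490000, [nat_lit 230000, nat_lit 780000, nat_lit 1435000], [nat_lit 20, nat_lit 40, nat_lit 40, nat_lit 80, nat_lit 16, nat_lit 226, nat_lit 20, nat_lit 8]⟩, ⟨p110_k16, nat_lit 0, nat_lit 0, nat_lit 607, nat_lit 0, nat_lit 640101, [nat_lit 1364208000,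 nat_lit 2318688000, nat_lit 4090878000], [], [nat_lit 11609067848, nat_lit 11681260284, nat_lit 11992014200, nat_lit 12082612090, nat_lit 10225315880, nat_lit 10304978630, nat_lit 10623181856, nat_lit 10719770958], nat_lit 1271250, nat_lit 1271250, nat_lit 1271250, nat_lit 1271250, nat_lit 0, nat_lit 1100001, [nat_lit 1100000, nat_lit 1785000, nat_lit 1271250], [nat_lit 37, nat_lit 40, nat_lit 40, nat_lit 80, nat_lit 28, nat_lit 428, nat_lit 200, nat_lit 10]⟩,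
 ⟨nat_lit 2236, nat_lit 3163, ⟨.ofNat (nat_lit 605240), .ofNat (nat_lit 727168), .ofNat (nat_lit 627331), .ofNat (nat_lit 749323), .ofNat (nat_lit 602541), .ofNat (nat_lit 716594), .ofNat (nat_lit 625251), .ofNat (nat_lit 739368)⟩, ⟨.ofNat (nat_lit 0), .ofNat (nat_lit 139899), .ofNat (nat_lit 0), .ofNat (nat_lit 184209), .ofNat (nat_lit 0), .ofNat (nat_lit 146758), .ofNat (nat_lit 0), .ofNat (nat_lit 192306)⟩⟩, []⟩
noncomputable def p110_l38 : Lf2 := ⟨nat_lit 0, nat_lit 20, [nat_lit 5, nat_lit 5, nat_lit 5, nat_lit 20], false, nat_lit 0, nat_lit 80, nat_lit 160, nat_lit 336, ⟨nat_lit 249, nat_lit 148, nat_lit 603, nat_lit 6, nat_lit 270, nat_lit 751, nat_lit 33, nat_lit 603, nat_lit 10417, nat_lit 240, nat_lit 227396, nat_lit 200, nat_lit 46066679, nat_lit 20933321, nat_lit 0, nat_lit 3105185, true, true⟩,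
 nat_lit 3335, nat_lit 0, nat_lit 0, nat_lit 0, nat_lit 2904, nat_lit 1765, nat_lit 35, nat_lit 0, nat_lit 0, nat_lit 230, nat_lit 0, nat_lit 0, nat_lit 0, nat_lit 0, nat_lit 0, nat_lit 242500, nat_lit 0, nat_lit 0, [(nat_lit 25, [(nat_lit 0, nat_lit 148), (nat_lit 4, nat_lit 238), (nat_lit 5, nat_lit 365)])],
 ⟨p110_k4, nat_lit 0, nat_lit 0, nat_lit 262, nat_lit 0, nat_lit 337303, [nat_lit 785034000, nat_lit 672822801, nat_lit 312773600], [], [nat_lit 23185686927, nat_lit 24490851200, nat_lit 26736369600, nat_lit 28067490512, nat_lit 22603519663, nat_lit 23519770336, nat_lit 25130542528, nat_lit 26076705168], nat_lit 1271250, nat_lit 1271250, nat_lit 1271250, nat_lit 1271250, nat_lit 0, nat_lit 490000, [nat_lit 230000, nat_lit 780000, nat_lit 1435000], [nat_lit 20, nat_lit 40, nat_lit 40, nat_lit 80, nat_lit 16, nat_lit 226, nat_lit 20, nat_lit 8]⟩, ⟨p110_k16, nat_lit 0, nat_lit 0, nat_lit 454, nat_lit 0, nat_lit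 640101, [nat_lit 1167312000, nat_lit 1984032000, nat_lit 3500442000], [], [nat_lit 7622252428, nat_lit 7702057880, nat_lit 8006839456, nat_lit 8104984628, nat_lit 8260012360, nat_lit 8336382189, nat_lit 8648724077, nat_lit 8736286348], nat_lit 1271250, nat_lit 1271250, nat_lit 1271250, nat_lit 1271250, nat_lit 1100001, nat_lit 2607000, [nat_lit 1100000, nat_lit 1785000, nat_lit 1271250], [nat_lit 37, nat_lit 40, nat_lit 40, nat_lit 80, nat_lit 28, nat_lit 483, nat_lit 250, nat_lit 10]⟩,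
 ⟨nat_lit 2236, nat_lit 3163, ⟨.ofNat (nat_lit 605240), .ofNat (nat_lit 727168), .ofNat (nat_lit 627331), .ofNat (nat_lit 749323), .ofNat (nat_lit 602541), .ofNat (nat_lit 716594), .ofNat (nat_lit 625251), .ofNat (nat_lit 739368)⟩, ⟨.ofNat (nat_lit 0), .ofNat (nat_lit 139899), .ofNat (nat_lit 0), .ofNat (nat_lit 184209), .ofNat (nat_lit 0), .ofNat (nat_lit 146758), .ofNat (nat_lit 0), .ofNat (nat_lit 192306)⟩⟩, [⟨nat_lit 22, nat_lit 94, nat_lit 100, nat_lit 63, nat_lit 126204679⟩]⟩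
noncomputable def p110_l39 : Lf2 := ⟨nat_lit 0, nat_lit 20, [nat_lit 5, nat_lit 5, nat_lit 5, nat_lit 20], false, nat_lit 0, nat_lit 80, nat_lit 0, nat_lit 260, ⟨nat_lit 864, nat_lit 136, nat_lit 0, nat_lit 8, nat_lit 307, nat_lit 136, nat_lit 33, nat_lit 0, nat_lit 0, nat_lit 0, nat_lit 0, nat_lit 0, nat_lit 42112912, nat_lit 24887088, nat_lit 0, nat_lit 3298611, true, true⟩,
 nat_lit 13989, nat_lit 0, nat_lit 0, nat_lit 0, nat_lit 4104, nat_lit 7405, nat_lit 346, nat_lit 0, nat_lit 0, nat_lit 729, nat_lit 0, nat_lit 0, nat_lit 0, nat_lit 0, nat_lit 0, nat_lit 136000, nat_lit 0, nat_lit 0, [(nat_lit 25, [(nat_lit 2, nat_lit 136)])],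
 ⟨p110_k4, nat_lit 0, nat_lit 0, nat_lit 253, nat_lit 0, nat_lit 280635, [nat_lit 1010134400, nat_lit 2783841067, nat_lit 4869763200], [], [nat_lit 29861277455, nat_lit 30393066856, nat_lit 32492330576, nat_lit 33186283463, nat_lit 28182069528, nat_lit 28646035656, nat_lit 30054378427, nat_lit 30556701112], nat_lit 1271250, nat_lit 1271250, nat_lit 1271250, nat_lit 1271250, nat_lit 0, nat_lit 490000, [nat_lit 230000, nat_lit 780000, nat_lit 1435000], [nat_lit 20, nat_lit 40, nat_lit 40, nat_lit 80, nat_lit 16, nat_lit 226, nat_lit 20, nat_lit 7]⟩, ⟨p110_k16, nat_lit 0, nat_lit 0, nat_lit 558, nat_lit 0, nat_lit 532562, [nat_lit 4050432000, nat_lit 6884352000, nat_lit 12146112000], [], [nat_lit 33910487236, nat_lit 34114612998, nat_lit 35283944383, nat_lit 35415144243, nat_lit 27440918019, nat_lit 27545694400, nat_lit 28612397941, nat_lit 28795564522], nat_lit 1271250, nat_lit 1271250, nat_lit 1271250, nat_lit 1271250,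 nat_lit 0, nat_lit 1836250, [nat_lit 1100000, nat_lit 1785000, nat_lit 1271250], [nat_lit 37, nat_lit 40, nat_lit 40, nat_lit 80, nat_lit 28, nat_lit 456, nat_lit 225, nat_lit 10]⟩,
 ⟨nat_lit 2738, nat_lit 3163, ⟨.ofNat (nat_lit 727168), .ofNat (nat_lit 794217), .ofNat (nat_lit 749323), .ofNat (nat_lit 816372), .ofNat (nat_lit 722017), .ofNat (nat_lit 786985), .ofNat (nat_lit 744435), .ofNat (nat_lit 809402)⟩, ⟨.ofNat (nat_lit 0), .ofNat (nat_lit 139899), .ofNat (nat_lit 0), .ofNat (nat_lit 184209), .ofNat (nat_lit 0), .ofNat (nat_lit 143475), .ofNat (nat_lit 0), .ofNat (nat_lit 188310)⟩⟩, [⟨nat_lit 22, nat_lit 71, nat_lit 100, nat_lit 61, nat_lit 46604324⟩]⟩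
noncomputable def p110_l40 : Lf2 := ⟨nat_lit 0, nat_lit 20, [nat_lit 5, nat_lit 5, nat_lit 5, nat_lit 20], false, nat_lit 0, nat_lit 80, nat_lit 0, nat_lit 260, ⟨nat_lit 215, nat_lit 785, nat_lit 0, nat_lit 8, nat_lit 302, nat_lit 785, nat_lit 34, nat_lit 0, nat_lit 0, nat_lit 0, nat_lit 0, nat_lit 0, nat_lit 42722979, nat_lit 24277021, nat_lit 0, nat_lit 3273772, true, true⟩,
 nat_lit 3304, nat_lit 0, nat_lit 0, nat_lit 0, nat_lit 2981, nat_lit 1749, nat_lit 224, nat_lit 0, nat_lit 0, nat_lit 182, nat_lit 0, nat_lit 0, nat_lit 0, nat_lit 0, nat_lit 0, nat_lit 196250, nat_lit 0, nat_lit 0, [(nat_lit 25, [(nat_lit 0, nat_lit 785)])],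
 ⟨p110_k6, nat_lit 0, nat_lit 0, nat_lit 268, nat_lit 0, nat_lit 322942, [nat_lit 801410000, nat_lit 1780138000, nat_lit 3006380000], [], [nat_lit 28161410752, nat_lit 28563110636, nat_lit 29355002937, nat_lit 29974448388, nat_lit 27394331782, nat_lit 27783959004, nat_lit 28450196466, nat_lit 28816529132], nat_lit 1271250, nat_lit 1271250, nat_lit 1271250, nat_lit 1271250, nat_lit 0, nat_lit 490000, [nat_lit 230000, nat_lit 780000, nat_lit 1435000], [nat_lit 20, nat_lit 40, nat_lit 40, nat_lit 80, nat_lit 16, nat_lit 226, nat_lit 20, nat_lit 7]⟩, ⟨p110_k16, nat_lit 0, nat_lit 0, nat_lit 595, nat_lit 0, nat_lit 640101, [nat_lit 1007920000, nat_lit 1713120000, nat_lit 3022470000], [], [nat_lit 8497031880, nat_lit 8523024996, nat_lit 8705765865, nat_lit 8745851680, nat_lit 7112905238, nat_lit 7147123239, nat_lit 7314379935, nat_lit 7366122412], nat_lit 1271250, nat_lit 1271250, nat_lit 1271250, nat_lit 1271250, nat_lit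 0, nat_lit 1836250, [nat_lit 1100000, nat_lit 1785000, nat_lit 1271250], [nat_lit 37, nat_lit 40, nat_lit 40, nat_lit 80, nat_lit 28, nat_lit 456, nat_lit 225, nat_lit 10]⟩,
 ⟨nat_lit 2236, nat_lit 2739, ⟨.ofNat (nat_lit 722017), .ofNat (nat_lit 769266), .ofNat (nat_lit 744435), .ofNat (nat_lit 791684), .ofNat (nat_lit 716594), .ofNat (nat_lit 762206), .ofNat (nat_lit 739368), .ofNat (nat_lit 784980)⟩, ⟨.ofNat (nat_lit 0), .ofNat (nat_lit 143475), .ofNat (nat_lit 0), .ofNat (nat_lit 188310), .ofNat (nat_lit 0), .ofNat (nat_lit 146758), .ofNat (nat_lit 0), .ofNat (nat_lit 192306)⟩⟩, [⟨nat_lit 13, nat_lit 50, nat_lit 75, nat_lit 100, nat_lit 172401812⟩, ⟨nat_lit 22, nat_lit 74, nat_lit 100, nat_lit 60, nat_lit 22808249⟩]⟩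
noncomputable def p110_l41 : Lf2 := ⟨nat_lit 0, nat_lit 15, [nat_lit 30, nat_lit 5, nat_lit 5, nat_lit 20], false, nat_lit 0, nat_lit 80, nat_lit 0, nat_lit 296, ⟨nat_lit 1000, nat_lit 0, nat_lit 0, nat_lit 0, nat_lit 0, nat_lit 0, nat_lit 0, nat_lit 0, nat_lit 0, nat_lit 0, nat_lit 0, nat_lit 0, nat_lit 0, nat_lit 0, nat_lit 0, nat_lit 0, false, false⟩,
 nat_lit 6084, nat_lit 0, nat_lit 7429, nat_lit 0, nat_lit 5298, nat_lit 7865, nat_lit 343, nat_lit 0, nat_lit 0, nat_lit 840, nat_lit 0, nat_lit 0, nat_lit 0, nat_lit 0, nat_lit 0, nat_lit 0, nat_lit 0, nat_lit 0, [],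
 ⟨p110_k0, nat_lit 0, nat_lit 0, nat_lit 270, nat_lit 0, nat_lit 305809, [nat_lit 938000000, nat_lit 3282000000, nat_lit 6250000000], [], [nat_lit 28581822982, nat_lit 29847330994, nat_lit 36712173680, nat_lit 38239883075, nat_lit 26241375182, nat_lit 27432048411, nat_lit 32118080853, nat_lit 33585918421], nat_lit 1271250, nat_lit 1271250, nat_lit 1271250, nat_lit 1271250, nat_lit 0, nat_lit 490000, [nat_lit 230000, nat_lit 780000, nat_lit 1435000], [nat_lit 20, nat_lit 40, nat_lit 40, nat_lit 80, nat_lit 16, nat_lit 226, nat_lit 20, nat_lit 8]⟩, ⟨p110_k1, nat_lit 0, nat_lit 0, nat_lit 490, nat_lit 0, nat_lit 508050, [nat_lit 4688000000, nat_lit 7968000000, nat_lit 11872000000], [], [nat_lit 33820609760, nat_lit 34196816580, nat_lit 38135329803, nat_lit 38779876300, nat_lit 29100280855, nat_lit 29349208148, nat_lit 32343732883, nat_lit 32679969969], nat_lit 1271250, nat_lit 1271250, nat_lit 1271250, nat_lit 1271250,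 nat_lit 0, nat_lit 2090500, [nat_lit 1100000, nat_lit 1785000, nat_lit 1271250], [nat_lit 21, nat_lit 40, nat_lit 40, nat_lit 80, nat_lit 14, nat_lit 483, nat_lit 250, nat_lit 12]⟩,
 zbF0, [⟨nat_lit 7, nat_lit 100, nat_lit 100, nat_lit 71, nat_lit 87433088⟩, ⟨nat_lit 22, nat_lit 84, nat_lit 100, nat_lit 60, nat_lit 28796358⟩]⟩
noncomputable def p110_l42 : Lf2 := ⟨nat_lit 0, nat_lit 20, [nat_lit 5, nat_lit 5, nat_lit 5, nat_lit 20], false, nat_lit 0, nat_lit 80, nat_lit 0, nat_lit 320, ⟨nat_lit 1000, nat_lit 0, nat_lit 0, nat_lit 0, nat_lit 0, nat_lit 0, nat_lit 0, nat_lit 0, nat_lit 0, nat_lit 0, nat_lit 0, nat_lit 0, nat_lit 0, nat_lit 0, nat_lit 0, nat_lit 0, false, false⟩,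
 nat_lit 14429, nat_lit 0, nat_lit 0, nat_lit 0, nat_lit 5725, nat_lit 8398, nat_lit 376, nat_lit 0, nat_lit 0, nat_lit 831, nat_lit 0, nat_lit 0, nat_lit 0, nat_lit 0, nat_lit 0, nat_lit 0, nat_lit 0, nat_lit 0, [],
 ⟨p110_k4, nat_lit 0, nat_lit 0, nat_lit 259, nat_lit 0, nat_lit 281069, [nat_lit 938000000, nat_lit 3282000000, nat_lit 6250000000], [], [nat_lit 28453625300, nat_lit 30801569250, nat_lit 37919883400, nat_lit 39515538231, nat_lit 24746376900, nat_lit 25984438650, nat_lit 32872851861, nat_lit 34405626051], nat_lit 1271250, nat_lit 1271250, nat_lit 1271250, nat_lit 1271250, nat_lit 0, nat_lit 490000, [nat_lit 230000, nat_lit 780000, nat_lit 1435000], [nat_lit 20, nat_lit 40, nat_lit 40, nat_lit 80, nat_lit 16, nat_lit 226, nat_lit 20, nat_lit 8]⟩, ⟨p110_k5, nat_lit 0, nat_lit 0, nat_lit 449, nat_lit 0, nat_lit 469950, [nat_lit 4688000000, nat_lit 7968000000, nat_lit 11872000000], [], [nat_lit 32950992602,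 nat_lit 33371783122, nat_lit 38721116136, nat_lit 39375046205, nat_lit 28020040558, nat_lit 28269200704, nat_lit 33541263011, nat_lit 34195193081], nat_lit 1271250, nat_lit 1271250, nat_lit 1271250, nat_lit 1271250, nat_lit 0, nat_lit 2260000, [nat_lit 1100000, nat_lit 1785000, nat_lit 1271250], [nat_lit 21, nat_lit 40, nat_lit 40, nat_lit 80, nat_lit 14, nat_lit 483, nat_lit 250, nat_lit 12]⟩,
 zbF0, [⟨nat_lit 22, nat_lit 84, nat_lit 100, nat_lit 60, nat_lit 207392836⟩]⟩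
noncomputable def p110_l43 : Lf2 := ⟨nat_lit 0, nat_lit 20, [nat_lit 5, nat_lit 5, nat_lit 5, nat_lit 20], false, nat_lit 0, nat_lit 80, nat_lit 0, nat_lit 336, ⟨nat_lit 167, nat_lit 833, nat_lit 0, nat_lit 6, nat_lit 257, nat_lit 833, nat_lit 34, nat_lit 0, nat_lit 0, nat_lit 0, nat_lit 0, nat_lit 0, nat_lit 47473610, nat_lit 19526390, nat_lit 0, nat_lit 3017173, true, true⟩,
 nat_lit 3016, nat_lit 0, nat_lit 0, nat_lit 0, nat_lit 2818, nat_lit 1596, nat_lit 55, nat_lit 0, nat_lit 0, nat_lit 164, nat_lit 0, nat_lit 0, nat_lit 0, nat_lit 0, nat_lit 0, nat_lit 333200, nat_lit 0, nat_lit 0, [(nat_lit 28, [(nat_lit 1, nat_lit 833)])],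
 ⟨p110_k10, nat_lit 0, nat_lit 0, nat_lit 274, nat_lit 0, nat_lit 362454, [nat_lit 737746801, nat_lit 818652400, nat_lit 1158704000], [], [nat_lit 24457289679, nat_lit 25096554089, nat_lit 25948600496, nat_lit 26670568192, nat_lit 23953835175, nat_lit 24438375653, nat_lit 25112274131, nat_lit 25565341155], nat_lit 1271250, nat_lit 1271250, nat_lit 1271250, nat_lit 1271250, nat_lit 0, nat_lit 490000, [nat_lit 230000, nat_lit 780000, nat_lit 1435000], [nat_lit 20, nat_lit 40, nat_lit 40, nat_lit 80, nat_lit 16, nat_lit 226, nat_lit 20, nat_lit 7]⟩, ⟨p110_k16, nat_lit 0, nat_lit 0, nat_lit 645, nat_lit 0, nat_lit 749557, [nat_lit 782896000, nat_lit 1330656000, nat_lit 2347686000], [], [nat_lit 5711135028, nat_lit 5772924706, nat_lit 5834714384, nat_lit 5889087910, nat_lit 4953971598, nat_lit 4963612654, nat_lit 4982432960, nat_lit 4999031738], nat_lit 1271250, nat_lit 1271250, nat_lit 1271250, nat_lit 1271250, nat_lit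 0, nat_lit 2373000, [nat_lit 1100000, nat_lit 1785000, nat_lit 1271250], [nat_lit 37, nat_lit 40, nat_lit 40, nat_lit 80, nat_lit 28, nat_lit 456, nat_lit 225, nat_lit 10]⟩,
 ⟨nat_lit 1581, nat_lit 2237, ⟨.ofNat (nat_lit 602558), .ofNat (nat_lit 659578), .ofNat (nat_lit 625287), .ofNat (nat_lit 682352), .ofNat (nat_lit 601260), .ofNat (nat_lit 655900), .ofNat (nat_lit 624529), .ofNat (nat_lit 679215)⟩, ⟨.ofNat (nat_lit 0), .ofNat (nat_lit 146758), .ofNat (nat_lit 0), .ofNat (nat_lit 192306), .ofNat (nat_lit 0), .ofNat (nat_lit 149571), .ofNat (nat_lit 0), .ofNat (nat_lit 196201)⟩⟩, [⟨nat_lit 19, nat_lit 100, nat_lit 88, nat_lit 74, nat_lit 8191838⟩, ⟨nat_lit 22, nat_lit 100, nat_lit 99, nat_lit 63, nat_lit 19591421⟩]⟩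
noncomputable def p110_l44 : Lf2 := ⟨nat_lit 0, nat_lit 20, [nat_lit 5, nat_lit 5, nat_lit 5, nat_lit 20], false, nat_lit 8, nat_lit 80, nat_lit 0, nat_lit 336, ⟨nat_lit 147, nat_lit 853, nat_lit 0, nat_lit 6, nat_lit 255, nat_lit 853, nat_lit 39, nat_lit 0, nat_lit 0, nat_lit 0, nat_lit 0, nat_lit 0, nat_lit 46701114, nat_lit 19248485, nat_lit 1050401, nat_lit 3469056, true, true⟩,
 nat_lit 2641, nat_lit 0, nat_lit 0, nat_lit 0, nat_lit 2553, nat_lit 1397, nat_lit 23, nat_lit 0, nat_lit 0, nat_lit 143, nat_lit 0, nat_lit 0, nat_lit 0, nat_lit 0, nat_lit 0, nat_lit 341200, nat_lit 0, nat_lit 0, [(nat_lit 28, [(nat_lit 1, nat_lit 853)])],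
 ⟨p110_k11, nat_lit 0, nat_lit 0, nat_lit 257, nat_lit 0, nat_lit 399278, [nat_lit 732938800, nat_lit 759508400, nat_lit 857688800], [], [nat_lit 24830492509, nat_lit 25350704197, nat_lit 26053104439, nat_lit 26538848048, nat_lit 24560464350, nat_lit 25052501289, nat_lit 25773710906, nat_lit 26267577640], nat_lit 1271250, nat_lit 1271250, nat_lit 1271250, nat_lit 1271250, nat_lit 43600, nat_lit 490000, [nat_lit 230000, nat_lit 780000, nat_lit 1100000], [nat_lit 35, nat_lit 40, nat_lit 40, nat_lit 80, nat_lit 22, nat_lit 226, nat_lit 20, nat_lit 9]⟩, ⟨p110_k16, nat_lit 0, nat_lit 0, nat_lit 728, nat_lit 0, nat_lit 860623, [nat_lit 689136000, nat_lit 1171296000, nat_lit 2066526000], [], [nat_lit 5057678996, nat_lit 5112126060, nat_lit 5166573124, nat_lit 5210143786, nat_lit 4385638357, nat_lit 4402402203, nat_lit 4419166049, nat_lit 4429458049], nat_lit 1271250, nat_lit 1271250, nat_lit 1271250, nat_lit 1271250,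 nat_lit 0, nat_lit 2373000, [nat_lit 1100000, nat_lit 1785000, nat_lit 1271250], [nat_lit 37, nat_lit 40, nat_lit 40, nat_lit 80, nat_lit 28, nat_lit 456, nat_lit 225, nat_lit 10]⟩,
 ⟨nat_lit 0, nat_lit 1582, ⟨.ofNat (nat_lit 601257), .ofNat (nat_lit 655899), .ofNat (nat_lit 623921), .ofNat (nat_lit 679215), .ofNat (nat_lit 599992), .ofNat (nat_lit 649998), .ofNat (nat_lit 624340), .ofNat (nat_lit 674999)⟩, ⟨.ofNat (nat_lit 20000), .ofNat (nat_lit 149570), .ofNat (nat_lit 20000), .ofNat (nat_lit 196201), .ofNat (nat_lit 20000), .ofNat (nat_lit 149998), .ofNat (nat_lit 20000), .ofNat (nat_lit 199999)⟩⟩, [⟨nat_lit 3, nat_lit 100, nat_lit 31, nat_lit 76, nat_lit 60694032⟩, ⟨nat_lit 22, nat_lit 100, nat_lit 98, nat_lit 66, nat_lit 24415612⟩]⟩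
noncomputable def p110_l45 : Lf2 := ⟨nat_lit 0, nat_lit 20, [nat_lit 5, nat_lit 5, nat_lit 5, nat_lit 20], false, nat_lit 0, nat_lit 80, nat_lit 0, nat_lit 300, ⟨nat_lit 167, nat_lit 833, nat_lit 0, nat_lit 7, nat_lit 284, nat_lit 833, nat_lit 34, nat_lit 0, nat_lit 0, nat_lit 0, nat_lit 0, nat_lit 0, nat_lit 44497376, nat_lit 22502624, nat_lit 0, nat_lit 3191255, true, true⟩,
 nat_lit 2875, nat_lit 0, nat_lit 0, nat_lit 0, nat_lit 2686, nat_lit 1522, nat_lit 67, nat_lit 0, nat_lit 0, nat_lit 143, nat_lit 0, nat_lit 0, nat_lit 0, nat_lit 0, nat_lit 0, nat_lit 333200, nat_lit 0, nat_lit 0, [(nat_lit 28, [(nat_lit 1, nat_lit 833)])],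
 ⟨p110_k10, nat_lit 0, nat_lit 0, nat_lit 292, nat_lit 0, nat_lit 362454, [nat_lit 737746801, nat_lit 818652400, nat_lit 1158704000], [], [nat_lit 26054250256, nat_lit 26525289384, nat_lit 28529341430, nat_lit 29141357947, nat_lit 25682405552, nat_lit 26116263490, nat_lit 27677140986, nat_lit 28095227652], nat_lit 1271250, nat_lit 1271250, nat_lit 1271250, nat_lit 1271250, nat_lit 0, nat_lit 490000, [nat_lit 230000, nat_lit 780000, nat_lit 1435000], [nat_lit 20, nat_lit 40, nat_lit 40, nat_lit 80, nat_lit 16, nat_lit 226, nat_lit 20, nat_lit 7]⟩, ⟨p110_k16, nat_lit 0, nat_lit 0, nat_lit 638, nat_lit 0, nat_lit 749557, [nat_lit 782896000, nat_lit 1330656000, nat_lit 2347686000], [], [nat_lit 6286898864, nat_lit 6337295446, nat_lit 6595952332, nat_lit 6631697652, nat_lit 5188053852, nat_lit 5209316592, nat_lit 5355206800, nat_lit 5378988237], nat_lit 1271250, nat_lit 1271250, nat_lit 1271250, nat_lit 1271250, nat_lit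 0, nat_lit 2118750, [nat_lit 1100000, nat_lit 1785000, nat_lit 1271250], [nat_lit 37, nat_lit 40, nat_lit 40, nat_lit 80, nat_lit 28, nat_lit 456, nat_lit 225, nat_lit 10]⟩,
 ⟨nat_lit 1581, nat_lit 2237, ⟨.ofNat (nat_lit 659578), .ofNat (nat_lit 745101), .ofNat (nat_lit 682352), .ofNat (nat_lit 767876), .ofNat (nat_lit 655900), .ofNat (nat_lit 737854), .ofNat (nat_lit 679215), .ofNat (nat_lit 761169)⟩, ⟨.ofNat (nat_lit 0), .ofNat (nat_lit 146758), .ofNat (nat_lit 0), .ofNat (nat_lit 192306), .ofNat (nat_lit 0), .ofNat (nat_lit 149571), .ofNat (nat_lit 0), .ofNat (nat_lit 196201)⟩⟩, [⟨nat_lit 13, nat_lit 32, nat_lit 89, nat_lit 100, nat_lit 293889056⟩, ⟨nat_lit 22, nat_lit 84, nat_lit 100, nat_lit 60, nat_lit 18655746⟩]⟩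
noncomputable def p110_l46 : Lf2 := ⟨nat_lit 0, nat_lit 20, [nat_lit 5, nat_lit 5, nat_lit 5, nat_lit 20], false, nat_lit 8, nat_lit 80, nat_lit 0, nat_lit 300, ⟨nat_lit 151, nat_lit 849, nat_lit 0, nat_lit 7, nat_lit 276, nat_lit 849, nat_lit 39, nat_lit 0, nat_lit 0, nat_lit 0, nat_lit 0, nat_lit 0, nat_lit 44528881, nat_lit 21443884, nat_lit 1027235, nat_lit 3594812, true, true⟩,
 nat_lit 2656, nat_lit 0, nat_lit 0, nat_lit 0, nat_lit 2568, nat_lit 1406, nat_lit 55, nat_lit 0, nat_lit 0, nat_lit 136, nat_lit 0, nat_lit 0, nat_lit 0, nat_lit 0, nat_lit 0, nat_lit 310800, nat_lit 0, nat_lit 0, [(nat_lit 28, [(nat_lit 0, nat_lit 192), (nat_lit 1, nat_lit 657)])],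
 ⟨p110_k11, nat_lit 0, nat_lit 0, nat_lit 263, nat_lit 0, nat_lit 399278, [nat_lit 750028400, nat_lit 909807601, nat_lit 1101980000], [], [nat_lit 26330059114, nat_lit 26804717696, nat_lit 27660955722, nat_lit 28289461377, nat_lit 26054515726, nat_lit 26504097334, nat_lit 27323836558, nat_lit 27742528918], nat_lit 1271250, nat_lit 1271250, nat_lit 1271250, nat_lit 1271250, nat_lit 43600, nat_lit 490000, [nat_lit 230000, nat_lit 780000, nat_lit 1100000], [nat_lit 35, nat_lit 40, nat_lit 40, nat_lit 80, nat_lit 22, nat_lit 226, nat_lit 20, nat_lit 9]⟩, ⟨p110_k16, nat_lit 0, nat_lit 0, nat_lit 714, nat_lit 0, nat_lit 860623, [nat_lit 707888000, nat_lit 1203168000, nat_lit 2122758000], [], [nat_lit 5537535592, nat_lit 5582692238, nat_lit 5708065524, nat_lit 5741440564, nat_lit 4564274436, nat_lit 4582762540, nat_lit 4653459967, nat_lit 4664474946], nat_lit 1271250, nat_lit 1271250, nat_lit 1271250, nat_lit 1271250,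 nat_lit 0, nat_lit 2118750, [nat_lit 1100000, nat_lit 1785000, nat_lit 1271250], [nat_lit 37, nat_lit 40, nat_lit 40, nat_lit 80, nat_lit 28, nat_lit 456, nat_lit 225, nat_lit 10]⟩,
 ⟨nat_lit 0, nat_lit 1582, ⟨.ofNat (nat_lit 655899), .ofNat (nat_lit 710533), .ofNat (nat_lit 679215), .ofNat (nat_lit 733849), .ofNat (nat_lit 649998), .ofNat (nat_lit 699996), .ofNat (nat_lit 674999), .ofNat (nat_lit 724997)⟩, ⟨.ofNat (nat_lit 20000), .ofNat (nat_lit 149570), .ofNat (nat_lit 20000), .ofNat (nat_lit 196201), .ofNat (nat_lit 20000), .ofNat (nat_lit 149998), .ofNat (nat_lit 20000), .ofNat (nat_lit 199999)⟩⟩, [⟨nat_lit 13, nat_lit 23, nat_lit 92, nat_lit 100, nat_lit 437765732⟩, ⟨nat_lit 3, nat_lit 100, nat_lit 31, nat_lit 76, nat_lit 83434679⟩, ⟨nat_lit 22, nat_lit 88, nat_lit 100, nat_lit 63, nat_lit 16313743⟩]⟩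
noncomputable def p110_l47 : Lf2 := ⟨nat_lit 0, nat_lit 20, [nat_lit 5, nat_lit 5, nat_lit 5, nat_lit 20], false, nat_lit 0, nat_lit 80, nat_lit 0, nat_lit 320, ⟨nat_lit 255, nat_lit 745, nat_lit 0, nat_lit 6, nat_lit 286, nat_lit 745, nat_lit 34, nat_lit 0, nat_lit 0, nat_lit 0, nat_lit 0, nat_lit 0, nat_lit 44309674, nat_lit 22690326, nat_lit 0, nat_lit 3200717, true, true⟩,
 nat_lit 3274, nat_lit 0, nat_lit 0, nat_lit 0, nat_lit 2975, nat_lit 1905, nat_lit 47, nat_lit 0, nat_lit 0, nat_lit 209, nat_lit 0, nat_lit 0, nat_lit 0, nat_lit 0, nat_lit 0, nat_lit 298000, nat_lit 0, nat_lit 0, [(nat_lit 28, [(nat_lit 1, nat_lit 745)])],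
 ⟨p110_k10, nat_lit 0, nat_lit 0, nat_lit 298, nat_lit 0, nat_lit 370971, [nat_lit 758902000, nat_lit 1078886000, nat_lit 1696560000], [], [nat_lit 25343127675, nat_lit 25586817863, nat_lit 29957594321, nat_lit 30267050086, nat_lit 24837768025, nat_lit 25067291725, nat_lit 28360765390, nat_lit 28557559365], nat_lit 1271250, nat_lit 1271250, nat_lit 1271250, nat_lit 1271250, nat_lit 0, nat_lit 490000, [nat_lit 230000, nat_lit 780000, nat_lit 1435000], [nat_lit 20, nat_lit 40, nat_lit 40, nat_lit 80, nat_lit 16, nat_lit 226, nat_lit 20, nat_lit 7]⟩, ⟨p110_k5, nat_lit 0, nat_lit 0, nat_lit 554, nat_lit 0, nat_lit 675931, [nat_lit 1195440000, nat_lit 2031840000, nat_lit 3027360000], [], [nat_lit 8910836130, nat_lit 9007325250, nat_lit 9581088282, nat_lit 9639425944, nat_lit 7905215625, nat_lit 7962708000, nat_lit 8461940191, nat_lit 8508015373], nat_lit 1271250, nat_lit 1271250, nat_lit 1271250, nat_lit 1271250, nat_lit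 0, nat_lit 2260000, [nat_lit 1100000, nat_lit 1785000, nat_lit 1271250], [nat_lit 21, nat_lit 40, nat_lit 40, nat_lit 80, nat_lit 14, nat_lit 483, nat_lit 250, nat_lit 12]⟩,
 ⟨nat_lit 1936, nat_lit 2237, ⟨.ofNat (nat_lit 625327), .ofNat (nat_lit 784980), .ofNat (nat_lit 648093), .ofNat (nat_lit 807755), .ofNat (nat_lit 624911), .ofNat (nat_lit 781410), .ofNat (nat_lit 647913), .ofNat (nat_lit 804421)⟩, ⟨.ofNat (nat_lit 0), .ofNat (nat_lit 146758), .ofNat (nat_lit 0), .ofNat (nat_lit 192306), .ofNat (nat_lit 0), .ofNat (nat_lit 148244), .ofNat (nat_lit 0), .ofNat (nat_lit 194266)⟩⟩, [⟨nat_lit 22, nat_lit 89, nat_lit 100, nat_lit 61, nat_lit 54418759⟩]⟩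
noncomputable def p110_l48 : Lf2 := ⟨nat_lit 0, nat_lit 20, [nat_lit 5, nat_lit 5, nat_lit 5, nat_lit 20], false, nat_lit 4, nat_lit 80, nat_lit 0, nat_lit 320, ⟨nat_lit 263, nat_lit 737, nat_lit 0, nat_lit 6, nat_lit 283, nat_lit 737, nat_lit 36, nat_lit 0, nat_lit 0, nat_lit 0, nat_lit 0, nat_lit 0, nat_lit 43906218, nat_lit 22166507, nat_lit 927275, nat_lit 3598039, true, true⟩,
 nat_lit 3379, nat_lit 0, nat_lit 0, nat_lit 0, nat_lit 2662, nat_lit 1966, nat_lit 49, nat_lit 0, nat_lit 0, nat_lit 217, nat_lit 0, nat_lit 0, nat_lit 0, nat_lit 0, nat_lit 0, nat_lit 294800, nat_lit 0, nat_lit 0, [(nat_lit 28, [(nat_lit 1, nat_lit 737)])],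
 ⟨p110_k18, nat_lit 0, nat_lit 0, nat_lit 263, nat_lit 0, nat_lit 387786, [nat_lit 760825200, nat_lit 1102543600, nat_lit 1378575200], [], [nat_lit 25408788108, nat_lit 25654265211, nat_lit 28880916388, nat_lit 29182070927, nat_lit 25111411180, nat_lit 25344326792, nat_lit 28408743735, nat_lit 28611238680], nat_lit 1271250, nat_lit 1271250, nat_lit 1271250, nat_lit 1271250, nat_lit 21650, nat_lit 490000, [nat_lit 230000, nat_lit 780000, nat_lit 1100000], [nat_lit 35, nat_lit 40, nat_lit 40, nat_lit 80, nat_lit 22, nat_lit 226, nat_lit 20, nat_lit 9]⟩, ⟨p110_k5, nat_lit 0, nat_lit 0, nat_lit 571, nat_lit 0, nat_lit 721442, [nat_lit 1232944000, nat_lit 2095584000, nat_lit 3122336000], [], [nat_lit 9162381250, nat_lit 9261890646, nat_lit 9790500953, nat_lit 9849299408, nat_lit 8158155576, nat_lit 8206522588, nat_lit 8661240525, nat_lit 8711624428], nat_lit 1271250, nat_lit 1271250, nat_lit 1271250, nat_lit 1271250,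 nat_lit 0, nat_lit 2260000, [nat_lit 1100000, nat_lit 1785000, nat_lit 1271250], [nat_lit 21, nat_lit 40, nat_lit 40, nat_lit 80, nat_lit 14, nat_lit 483, nat_lit 250, nat_lit 12]⟩,
 ⟨nat_lit 1581, nat_lit 1937, ⟨.ofNat (nat_lit 624905), .ofNat (nat_lit 770232), .ofNat (nat_lit 647901), .ofNat (nat_lit 793243), .ofNat (nat_lit 624564), .ofNat (nat_lit 766632), .ofNat (nat_lit 647865), .ofNat (nat_lit 789947)⟩, ⟨.ofNat (nat_lit 10000), .ofNat (nat_lit 148244), .ofNat (nat_lit 10000), .ofNat (nat_lit 194266), .ofNat (nat_lit 10000), .ofNat (nat_lit 149571), .ofNat (nat_lit 10000), .ofNat (nat_lit 196201)⟩⟩, [⟨nat_lit 22, nat_lit 90, nat_lit 100, nat_lit 62, nat_lit 55468431⟩]⟩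
noncomputable def p110_l49 : Lf2 := ⟨nat_lit 0, nat_lit 20, [nat_lit 5, nat_lit 5, nat_lit 5, nat_lit 20], false, nat_lit 8, nat_lit 80, nat_lit 0, nat_lit 320, ⟨nat_lit 193, nat_lit 807, nat_lit 0, nat_lit 6, nat_lit 280, nat_lit 807, nat_lit 39, nat_lit 0, nat_lit 0, nat_lit 0, nat_lit 0, nat_lit 0, nat_lit 44202899, nat_lit 21773723, nat_lit 1023378, nat_lit 3611367, true, true⟩,
 nat_lit 2669, nat_lit 0, nat_lit 0, nat_lit 0, nat_lit 2580, nat_lit 1553, nat_lit 23, nat_lit 0, nat_lit 0, nat_lit 163, nat_lit 0, nat_lit 0, nat_lit 0, nat_lit 0, nat_lit 0, nat_lit 322800, nat_lit 0, nat_lit 0, [(nat_lit 28, [(nat_lit 1, nat_lit 807)])],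
 ⟨p110_k11, nat_lit 0, nat_lit 0, nat_lit 273, nat_lit 0, nat_lit 428352, [nat_lit 743997200, nat_lit 895539600, nat_lit 1064247200], [], [nat_lit 25539986707, nat_lit 26048821373, nat_lit 28649977033, nat_lit 29081977948, nat_lit 25310545405, nat_lit 25791583445, nat_lit 28320953325, nat_lit 28756103816], nat_lit 1271250, nat_lit 1271250, nat_lit 1271250, nat_lit 1271250, nat_lit 43600, nat_lit 490000, [nat_lit 230000, nat_lit 780000, nat_lit 1100000], [nat_lit 35, nat_lit 40, nat_lit 40, nat_lit 80, nat_lit 22, nat_lit 226, nat_lit 20, nat_lit 9]⟩, ⟨p110_k5, nat_lit 0, nat_lit 0, nat_lit 622, nat_lit 0, nat_lit 813484, [nat_lit 904784000, nat_lit 1537824000, nat_lit 2291296000], [], [nat_lit 6571502313, nat_lit 6633743585, nat_lit 6964881605, nat_lit 7028097808, nat_lit 5815391962, nat_lit 5848457740, nat_lit 6028776509, nat_lit 6049461183], nat_lit 1271250, nat_lit 1271250, nat_lit 1271250, nat_lit 1271250,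 nat_lit 0, nat_lit 2260000, [nat_lit 1100000, nat_lit 1785000, nat_lit 1271250], [nat_lit 21, nat_lit 40, nat_lit 40, nat_lit 80, nat_lit 14, nat_lit 483, nat_lit 250, nat_lit 12]⟩,
 ⟨nat_lit 0, nat_lit 1582, ⟨.ofNat (nat_lit 623921), .ofNat (nat_lit 755702), .ofNat (nat_lit 646579), .ofNat (nat_lit 779018), .ofNat (nat_lit 624340), .ofNat (nat_lit 744996), .ofNat (nat_lit 648683), .ofNat (nat_lit 769997)⟩, ⟨.ofNat (nat_lit 20000), .ofNat (nat_lit 149570), .ofNat (nat_lit 20000), .ofNat (nat_lit 196201), .ofNat (nat_lit 20000), .ofNat (nat_lit 149998), .ofNat (nat_lit 20000), .ofNat (nat_lit 199999)⟩⟩, [⟨nat_lit 13, nat_lit 24, nat_lit 89, nat_lit 100, nat_lit 147711776⟩, ⟨nat_lit 22, nat_lit 92, nat_lit 100, nat_lit 64, nat_lit 34928527⟩]⟩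
noncomputable def b_V_900_600_10_27 : St := ⟨true, nat_lit 1, nat_lit 1, nat_lit 1, nat_lit 80, nat_lit 360, nat_lit 400, nat_lit 240, nat_lit 280, nat_lit 240, nat_lit 376, nat_lit 40, nat_lit 80, nat_lit 0, nat_lit 80, nat_lit 0, nat_lit 336, nat_lit 80, nat_lit 120, nat_lit 0, nat_lit 0, nat_lit 0, nat_lit 0⟩
theorem d_V_900_600_10_27 (h : EB TB.env) : Dead b_V_900_600_10_27 := chkB_sound0 h (T :=
(.spl (nat_lit 0) (nat_lit 380)
(.spl (nat_lit 1) (nat_lit 260)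
(.trX (nat_lit 13) (nat_lit 63) (nat_lit 61) (nat_lit 100) (nat_lit 364) (.spl (nat_lit 2) (nat_lit 320)
(.spl (nat_lit 5) (nat_lit 160)
(.leaf p110_l37)
(.leaf p110_l38))
(.trX (nat_lit 22) (nat_lit 83) (nat_lit 100) (nat_lit 83) (nat_lit 260) (.spl (nat_lit 0) (nat_lit 370)
(.leaf p110_l39)
(.trX (nat_lit 13) (nat_lit 55) (nat_lit 68) (nat_lit 100) (nat_lit 352) (.leaf p110_l40))))))
(.trX (nat_lit 19) (nat_lit 100) (nat_lit 85) (nat_lit 84) (nat_lit 320) (.spl (nat_lit 3) (nat_lit 60)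
(.trX (nat_lit 19) (nat_lit 100) (nat_lit 92) (nat_lit 75) (nat_lit 296) (.leaf p110_l41))
(.leaf p110_l42))))
(.trX (nat_lit 13) (nat_lit 48) (nat_lit 71) (nat_lit 100) (nat_lit 352) (.spl (nat_lit 1) (nat_lit 260)
(.trX (nat_lit 13) (nat_lit 46) (nat_lit 76) (nat_lit 100) (nat_lit 340) (.spl (nat_lit 2) (nat_lit 280)
(.spl (nat_lit 0) (nat_lit 390)
(.leaf p110_l43)
(.trZ (nat_lit 3) (nat_lit 100) (nat_lit 52) (nat_lit 53) (nat_lit 8) (.leaf p110_l44)))
(.trX (nat_lit 22) (nat_lit 100) (nat_lit 95) (nat_lit 87) (nat_lit 300) (.spl (nat_lit 0) (nat_lit 390)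
(.leaf p110_l45)
(.trX (nat_lit 13) (nat_lit 33) (nat_lit 85) (nat_lit 100) (nat_lit 320) (.trZ (nat_lit 3) (nat_lit 100) (nat_lit 52) (nat_lit 53) (nat_lit 8) (.leaf p110_l46)))))))
(.trX (nat_lit 19) (nat_lit 100) (nat_lit 85) (nat_lit 84) (nat_lit 320) (.spl (nat_lit 0) (nat_lit 390)
(.spl (nat_lit 0) (nat_lit 385)
(.leaf p110_l47)
(.trX (nat_lit 13) (nat_lit 41) (nat_lit 76) (nat_lit 100) (nat_lit 344) (.trZ (nat_lit 3) (nat_lit 100) (nat_lit 63) (nat_lit 42) (nat_lit 4) (.leaf p110_l48))))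
(.trX (nat_lit 13) (nat_lit 34) (nat_lit 81) (nat_lit 100) (nat_lit 336) (.trZ (nat_lit 3) (nat_lit 100) (nat_lit 52) (nat_lit 53) (nat_lit 8) (.leaf p110_l49))))))))) (by decide +kernel)
noncomputable def p110_l50 : Lf2 := ⟨nat_lit 0, nat_lit 20, [nat_lit 5, nat_lit 5, nat_lit 5, nat_lit 20], false, nat_lit 80, nat_lit 200, nat_lit 0, nat_lit 160, ⟨nat_lit 310, nat_lit 690, nat_lit 0, nat_lit 6, nat_lit 270, nat_lit 690, nat_lit 102, nat_lit 0, nat_lit 0, nat_lit 0, nat_lit 0, nat_lit 0, nat_lit 42652245, nat_lit 20030463, nat_lit 4317292, nat_lit 4369150, true, true⟩,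
 nat_lit 4207, nat_lit 0, nat_lit 0, nat_lit 0, nat_lit 3664, nat_lit 2227, nat_lit 21, nat_lit 0, nat_lit 0, nat_lit 287, nat_lit 0, nat_lit 0, nat_lit 0, nat_lit 0, nat_lit 0, nat_lit 409800, nat_lit 0, nat_lit 0, [(nat_lit 25, [(nat_lit 1, nat_lit 467), (nat_lit 2, nat_lit 223)])],
 ⟨p110_k4, nat_lit 0, nat_lit 0, nat_lit 216, nat_lit 0, nat_lit 337303, [nat_lit 1012754801, nat_lit 1400468134, nat_lit 1495466000], [], [nat_lit 23867123593, nat_lit 24838729081, nat_lit 26290205257, nat_lit 27249075088, nat_lit 24929465865, nat_lit 25766213625, nat_lit 27036041076, nat_lit 27919511456], nat_lit 1271250, nat_lit 1271250, nat_lit 1271250, nat_lit 1271250, nat_lit 490000, nat_lit 1427500, [nat_lit 230000, nat_lit 780000, nat_lit 1435000], [nat_lit 20, nat_lit 40, nat_lit 40, nat_lit 80, nat_lit 16, nat_lit 260, nat_lit 50, nat_lit 8]⟩, ⟨p110_k16, nat_lit 0, nat_lit 0, nat_lit 607, nat_lit 0, nat_lit 640101, [nat_lit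 1453280000, nat_lit 2470080000, nat_lit 4357980000], [], [nat_lit 11921236488, nat_lit 11996492772, nat_lit 12477507016, nat_lit 12572945876, nat_lit 10440879648, nat_lit 10530615640, nat_lit 11013082460, nat_lit 11115340814], nat_lit 1271250, nat_lit 1271250, nat_lit 1271250, nat_lit 1271250, nat_lit 0, nat_lit 1100001, [nat_lit 1100000, nat_lit 1785000, nat_lit 1271250], [nat_lit 37, nat_lit 40, nat_lit 40, nat_lit 80, nat_lit 28, nat_lit 428, nat_lit 200, nat_lit 10]⟩,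
 ⟨nat_lit 2236, nat_lit 3163, ⟨.ofNat (nat_lit 605240), .ofNat (nat_lit 727168), .ofNat (nat_lit 627331), .ofNat (nat_lit 749323), .ofNat (nat_lit 602541), .ofNat (nat_lit 716594), .ofNat (nat_lit 625251), .ofNat (nat_lit 739368)⟩, ⟨.ofNat (nat_lit 139899), .ofNat (nat_lit 322759), .ofNat (nat_lit 184209), .ofNat (nat_lit 367069), .ofNat (nat_lit 146758), .ofNat (nat_lit 317804), .ofNat (nat_lit 192306), .ofNat (nat_lit 363353)⟩⟩, [⟨nat_lit 16, nat_lit 54, nat_lit 100, nat_lit 73, nat_lit 214626755⟩]⟩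
noncomputable def p110_l51 : Lf2 := ⟨nat_lit 0, nat_lit 20, [nat_lit 5, nat_lit 5, nat_lit 5, nat_lit 20], false, nat_lit 80, nat_lit 200, nat_lit 160, nat_lit 336, ⟨nat_lit 320, nat_lit 680, nat_lit 0, nat_lit 6, nat_lit 270, nat_lit 680, nat_lit 102, nat_lit 0, nat_lit 0, nat_lit 0, nat_lit 0, nat_lit 0, nat_lit 42597951, nat_lit 20095293, nat_lit 4306756, nat_lit 4370800, true, true⟩,
 nat_lit 4674, nat_lit 0, nat_lit 0, nat_lit 0, nat_lit 4070, nat_lit 2474, nat_lit 106, nat_lit 0, nat_lit 0, nat_lit 287, nat_lit 0, nat_lit 0, nat_lit 0, nat_lit 0, nat_lit 0, nat_lit 272000, nat_lit 0, nat_lit 0, [(nat_lit 25, [(nat_lit 1, nat_lit 680)])],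
 ⟨p110_k4, nat_lit 0, nat_lit 0, nat_lit 191, nat_lit 0, nat_lit 280635, [nat_lit 874624001, nat_lit 1731690667, nat_lit 2622336000], [], [nat_lit 23841851220, nat_lit 24421414700, nat_lit 26627534540, nat_lit 27125916100, nat_lit 24798800360, nat_lit 25293773985, nat_lit 27156149120, nat_lit 27700771895], nat_lit 1271250, nat_lit 1271250, nat_lit 1271250, nat_lit 1271250, nat_lit 490000, nat_lit 1427500, [nat_lit 230000, nat_lit 780000, nat_lit 1435000], [nat_lit 20, nat_lit 40, nat_lit 40, nat_lit 80, nat_lit 16, nat_lit 260, nat_lit 50, nat_lit 8]⟩, ⟨p110_k16, nat_lit 0, nat_lit 0, nat_lit 413, nat_lit 0, nat_lit 532562, [nat_lit 1500160000, nat_lit 2549760000, nat_lit 4498560000], [], [nat_lit 9642191648, nat_lit 9742088708, nat_lit 10132719672, nat_lit 10197001336, nat_lit 10292934661, nat_lit 10380080841, nat_lit 10728465489, nat_lit 10837382986], nat_lit 1271250, nat_lit 1271250, nat_lit 1271250, nat_lit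 1271250, nat_lit 1100001, nat_lit 2607000, [nat_lit 1100000, nat_lit 1785000, nat_lit 1271250], [nat_lit 37, nat_lit 40, nat_lit 40, nat_lit 80, nat_lit 28, nat_lit 483, nat_lit 250, nat_lit 10]⟩,
 ⟨nat_lit 2738, nat_lit 3163, ⟨.ofNat (nat_lit 605257), .ofNat (nat_lit 727168), .ofNat (nat_lit 627400), .ofNat (nat_lit 749323), .ofNat (nat_lit 603890), .ofNat (nat_lit 722017), .ofNat (nat_lit 626295), .ofNat (nat_lit 744435)⟩, ⟨.ofNat (nat_lit 139899), .ofNat (nat_lit 322759), .ofNat (nat_lit 184209), .ofNat (nat_lit 367069), .ofNat (nat_lit 143475), .ofNat (nat_lit 320659), .ofNat (nat_lit 188310), .ofNat (nat_lit 365494)⟩⟩, [⟨nat_lit 4, nat_lit 100, nat_lit 57, nat_lit 73, nat_lit 187406051⟩, ⟨nat_lit 7, nat_lit 88, nat_lit 100, nat_lit 74, nat_lit 123222686⟩]⟩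
noncomputable def p110_l52 : Lf2 := ⟨nat_lit 0, nat_lit 20, [nat_lit 5, nat_lit 5, nat_lit 5, nat_lit 20], false, nat_lit 80, nat_lit 184, nat_lit 160, nat_lit 336, ⟨nat_lit 254, nat_lit 746, nat_lit 0, nat_lit 6, nat_lit 269, nat_lit 746, nat_lit 97, nat_lit 0, nat_lit 0, nat_lit 0, nat_lit 0, nat_lit 0, nat_lit 42920785, nat_lit 20031879, nat_lit 4047336, nat_lit 4313168, true, true⟩,
 nat_lit 4008, nat_lit 0, nat_lit 0, nat_lit 0, nat_lit 3241, nat_lit 2121, nat_lit 250, nat_lit 0, nat_lit 0, nat_lit 224, nat_lit 0, nat_lit 0, nat_lit 0, nat_lit 0, nat_lit 0, nat_lit 186500, nat_lit 0, nat_lit 0, [(nat_lit 25, [(nat_lit 0, nat_lit 746)])],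
 ⟨p110_k6, nat_lit 0, nat_lit 0, nat_lit 212, nat_lit 0, nat_lit 322942, [nat_lit 808196000, nat_lit 1854752801, nat_lit 3167528000], [], [nat_lit 23590758560, nat_lit 24113565384, nat_lit 26149687652, nat_lit 26599168252, nat_lit 24535777215, nat_lit 24988271498, nat_lit 26794370629, nat_lit 27186964194], nat_lit 1271250, nat_lit 1271250, nat_lit 1271250, nat_lit 1271250, nat_lit 490000, nat_lit 1302500, [nat_lit 230000, nat_lit 780000, nat_lit 1435000], [nat_lit 20, nat_lit 40, nat_lit 40, nat_lit 80, nat_lit 16, nat_lit 260, nat_lit 50, nat_lit 8]⟩, ⟨p110_k16, nat_lit 0, nat_lit 0, nat_lit 454, nat_lit 0, nat_lit 640101, [nat_lit 1190752000, nat_lit 2023872000, nat_lit 3570732000], [], [nat_lit 7481153540, nat_lit 7558410282, nat_lit 7867666224, nat_lit 7914829944, nat_lit 7923308053, nat_lit 7989853295, nat_lit 8263573643, nat_lit 8305276317], nat_lit 1271250, nat_lit 1271250, nat_lit 1271250, nat_lit 1271250,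 nat_lit 1100001, nat_lit 2607000, [nat_lit 1100000, nat_lit 1785000, nat_lit 1271250], [nat_lit 37, nat_lit 40, nat_lit 40, nat_lit 80, nat_lit 28, nat_lit 483, nat_lit 250, nat_lit 10]⟩,
 ⟨nat_lit 2236, nat_lit 2739, ⟨.ofNat (nat_lit 603890), .ofNat (nat_lit 722017), .ofNat (nat_lit 626287), .ofNat (nat_lit 744435), .ofNat (nat_lit 602558), .ofNat (nat_lit 716594), .ofNat (nat_lit 625312), .ofNat (nat_lit 739368)⟩, ⟨.ofNat (nat_lit 143475), .ofNat (nat_lit 297035), .ofNat (nat_lit 188310), .ofNat (nat_lit 341870), .ofNat (nat_lit 146758), .ofNat (nat_lit 294998), .ofNat (nat_lit 192306), .ofNat (nat_lit 340547)⟩⟩, [⟨nat_lit 4, nat_lit 100, nat_lit 50, nat_lit 74, nat_lit 199608435⟩, ⟨nat_lit 7, nat_lit 88, nat_lit 100, nat_lit 74, nat_lit 93349047⟩]⟩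
noncomputable def p110_l53 : Lf2 := ⟨nat_lit 0, nat_lit 20, [nat_lit 5, nat_lit 5, nat_lit 5, nat_lit 20], false, nat_lit 80, nat_lit 200, nat_lit 0, nat_lit 320, ⟨nat_lit 318, nat_lit 682, nat_lit 0, nat_lit 6, nat_lit 279, nat_lit 682, nat_lit 102, nat_lit 0, nat_lit 0, nat_lit 0, nat_lit 0, nat_lit 0, nat_lit 41829053, nat_lit 20902468, nat_lit 4268479, nat_lit 4408362, true, true⟩,
 nat_lit 4416, nat_lit 0, nat_lit 0, nat_lit 0, nat_lit 3846, nat_lit 2570, nat_lit 0, nat_lit 0, nat_lit 0, nat_lit 284, nat_lit 0, nat_lit 0, nat_lit 0, nat_lit 0, nat_lit 0, nat_lit 401800, nat_lit 0, nat_lit 0, [(nat_lit 25, [(nat_lit 1, nat_lit 467), (nat_lit 2, nat_lit 215)])],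
 ⟨p110_k4, nat_lit 0, nat_lit 0, nat_lit 226, nat_lit 0, nat_lit 377310, [nat_lit 1008511601, nat_lit 1429771600, nat_lit 1576656400], [], [nat_lit 23910221313, nat_lit 24902518745, nat_lit 26506635912, nat_lit 27529826832, nat_lit 24912166521, nat_lit 25764969411, nat_lit 27130160636, nat_lit 28107440834], nat_lit 1271250, nat_lit 1271250, nat_lit 1271250, nat_lit 1271250, nat_lit 490000, nat_lit 1427500, [nat_lit 230000, nat_lit 780000, nat_lit 1435000], [nat_lit 20, nat_lit 40, nat_lit 40, nat_lit 80, nat_lit 16, nat_lit 260, nat_lit 50, nat_lit 8]⟩, ⟨p110_k5, nat_lit 0, nat_lit 0, nat_lit 536, nat_lit 0, nat_lit 630866, [nat_lit 1490784000, nat_lit 2533824000, nat_lit 3775296000], [], [nat_lit 10322098656, nat_lit 10441351104, nat_lit 10981726352, nat_lit 11114919552, nat_lit 9103971816, nat_lit 9206422176, nat_lit 9560302588, nat_lit 9627810136], nat_lit 1271250, nat_lit 1271250, nat_lit 1271250, nat_lit 1271250,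 nat_lit 0, nat_lit 2260000, [nat_lit 1100000, nat_lit 1785000, nat_lit 1271250], [nat_lit 21, nat_lit 40, nat_lit 40, nat_lit 80, nat_lit 14, nat_lit 483, nat_lit 250, nat_lit 12]⟩,
 ⟨nat_lit 2236, nat_lit 3163, ⟨.ofNat (nat_lit 627331), .ofNat (nat_lit 749323), .ofNat (nat_lit 649422), .ofNat (nat_lit 771478), .ofNat (nat_lit 625251), .ofNat (nat_lit 739368), .ofNat (nat_lit 647962), .ofNat (nat_lit 762142)⟩, ⟨.ofNat (nat_lit 139899), .ofNat (nat_lit 322759), .ofNat (nat_lit 184209), .ofNat (nat_lit 367069), .ofNat (nat_lit 146758), .ofNat (nat_lit 317804), .ofNat (nat_lit 192306), .ofNat (nat_lit 363353)⟩⟩, [⟨nat_lit 4, nat_lit 100, nat_lit 54, nat_lit 73, nat_lit 239951049⟩, ⟨nat_lit 7, nat_lit 97, nat_lit 100, nat_lit 76, nat_lit 47063460⟩]⟩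
noncomputable def p110_l54 : Lf2 := ⟨nat_lit 0, nat_lit 20, [nat_lit 5, nat_lit 5, nat_lit 5, nat_lit 20], false, nat_lit 80, nat_lit 164, nat_lit 0, nat_lit 336, ⟨nat_lit 185, nat_lit 815, nat_lit 0, nat_lit 6, nat_lit 267, nat_lit 815, nat_lit 91, nat_lit 0, nat_lit 0, nat_lit 0, nat_lit 0, nat_lit 0, nat_lit 43424923, nat_lit 19870977, nat_lit 3704100, nat_lit 4229515, true, true⟩,
 nat_lit 3045, nat_lit 0, nat_lit 0, nat_lit 0, nat_lit 2845, nat_lit 1612, nat_lit 55, nat_lit 0, nat_lit 0, nat_lit 137, nat_lit 0, nat_lit 0, nat_lit 0, nat_lit 0, nat_lit 0, nat_lit 326000, nat_lit 0, nat_lit 0, [(nat_lit 28, [(nat_lit 1, nat_lit 815)])],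
 ⟨p110_k10, nat_lit 0, nat_lit 0, nat_lit 243, nat_lit 0, nat_lit 416161, [nat_lit 742074001, nat_lit 871882001, nat_lit 1268720000], [], [nat_lit 23756245635, nat_lit 24754812935, nat_lit 26316421890, nat_lit 27248447620, nat_lit 24568145983, nat_lit 25476268629, nat_lit 26934021315, nat_lit 27784616609], nat_lit 1271250, nat_lit 1271250, nat_lit 1271250, nat_lit 1271250, nat_lit 490000, nat_lit 1133651, [nat_lit 230000, nat_lit 780000, nat_lit 1435000], [nat_lit 20, nat_lit 40, nat_lit 40, nat_lit 80, nat_lit 16, nat_lit 260, nat_lit 50, nat_lit 8]⟩, ⟨p110_k16, nat_lit 0, nat_lit 0, nat_lit 728, nat_lit 0, nat_lit 860623, [nat_lit 867280000, nat_lit 1474080000, nat_lit 2600730000], [], [nat_lit 7363445580, nat_lit 7378269080, nat_lit 7631269740, nat_lit 7674425872, nat_lit 6165046465, nat_lit 6165761031, nat_lit 6275527200, nat_lit 6284662531], nat_lit 1271250, nat_lit 1271250, nat_lit 1271250, nat_lit 1271250,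 nat_lit 0, nat_lit 2373000, [nat_lit 1100000, nat_lit 1785000, nat_lit 1271250], [nat_lit 37, nat_lit 40, nat_lit 40, nat_lit 80, nat_lit 28, nat_lit 483, nat_lit 250, nat_lit 11]⟩,
 ⟨nat_lit 0, nat_lit 2237, ⟨.ofNat (nat_lit 602531), .ofNat (nat_lit 716590), .ofNat (nat_lit 624400), .ofNat (nat_lit 739366), .ofNat (nat_lit 599967), .ofNat (nat_lit 699995), .ofNat (nat_lit 624062), .ofNat (nat_lit 724997)⟩, ⟨.ofNat (nat_lit 146756), .ofNat (nat_lit 266484), .ofNat (nat_lit 192306), .ofNat (nat_lit 312035), .ofNat (nat_lit 149997), .ofNat (nat_lit 254993), .ofNat (nat_lit 199999), .ofNat (nat_lit 304995)⟩⟩, [⟨nat_lit 13, nat_lit 32, nat_lit 87, nat_lit 100, nat_lit 133298580⟩, ⟨nat_lit 4, nat_lit 100, nat_lit 35, nat_lit 80, nat_lit 302489670⟩, ⟨nat_lit 7, nat_lit 88, nat_lit 100, nat_lit 74, nat_lit 19378185⟩]⟩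
noncomputable def p110_l55 : Lf2 := ⟨nat_lit 0, nat_lit 20, [nat_lit 5, nat_lit 5, nat_lit 5, nat_lit 20], false, nat_lit 80, nat_lit 164, nat_lit 0, nat_lit 320, ⟨nat_lit 225, nat_lit 775, nat_lit 0, nat_lit 6, nat_lit 276, nat_lit 775, nat_lit 91, nat_lit 0, nat_lit 0, nat_lit 0, nat_lit 0, nat_lit 0, nat_lit 42543413, nat_lit 20794834, nat_lit 3661753, nat_lit 4273736, true, true⟩,
 nat_lit 3150, nat_lit 0, nat_lit 0, nat_lit 0, nat_lit 2943, nat_lit 1833, nat_lit 64, nat_lit 0, nat_lit 0, nat_lit 193, nat_lit 0, nat_lit 0, nat_lit 0, nat_lit 0, nat_lit 0, nat_lit 310000, nat_lit 0, nat_lit 0, [(nat_lit 28, [(nat_lit 1, nat_lit 775)])],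
 ⟨p110_k10, nat_lit 0, nat_lit 0, nat_lit 251, nat_lit 0, nat_lit 446464, [nat_lit 751690000, nat_lit 990170001, nat_lit 1513200000], [], [nat_lit 24031944771, nat_lit 25018118477, nat_lit 26501296385, nat_lit 27418343588, nat_lit 24825322256, nat_lit 25721989214, nat_lit 27099636750, nat_lit 27940367127], nat_lit 1271250, nat_lit 1271250, nat_lit 1271250, nat_lit 1271250, nat_lit 490000, nat_lit 1133651, [nat_lit 230000, nat_lit 780000, nat_lit 1435000], [nat_lit 20, nat_lit 40, nat_lit 40, nat_lit 80, nat_lit 16, nat_lit 260, nat_lit 50, nat_lit 8]⟩, ⟨p110_k5, nat_lit 0, nat_lit 0, nat_lit 622, nat_lit 0, nat_lit 813484, [nat_lit 1054800000, nat_lit 1792800000, nat_lit 2671200000], [], [nat_lit 7552213347, nat_lit 7624567659, nat_lit 7909616472, nat_lit 7983404466, nat_lit 6664582554, nat_lit 6702612972, nat_lit 6847654380, nat_lit 6867044244], nat_lit 1271250, nat_lit 1271250, nat_lit 1271250, nat_lit 1271250,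 nat_lit 0, nat_lit 2260000, [nat_lit 1100000, nat_lit 1785000, nat_lit 1271250], [nat_lit 21, nat_lit 40, nat_lit 40, nat_lit 80, nat_lit 14, nat_lit 483, nat_lit 250, nat_lit 12]⟩,
 ⟨nat_lit 0, nat_lit 2237, ⟨.ofNat (nat_lit 624400), .ofNat (nat_lit 739366), .ofNat (nat_lit 646249), .ofNat (nat_lit 762141), .ofNat (nat_lit 624062), .ofNat (nat_lit 724997), .ofNat (nat_lit 648136), .ofNat (nat_lit 749998)⟩, ⟨.ofNat (nat_lit 146756), .ofNat (nat_lit 266484), .ofNat (nat_lit 192306), .ofNat (nat_lit 312035), .ofNat (nat_lit 149997), .ofNat (nat_lit 254993), .ofNat (nat_lit 199999), .ofNat (nat_lit 304995)⟩⟩, [⟨nat_lit 13, nat_lit 33, nat_lit 83, nat_lit 100, nat_lit 10209253⟩, ⟨nat_lit 4, nat_lit 100, nat_lit 35, nat_lit 80, nat_lit 329503462⟩, ⟨nat_lit 7, nat_lit 97, nat_lit 100, nat_lit 76, nat_lit 31992374⟩]⟩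
noncomputable def p110_l56 : Lf2 := ⟨nat_lit 0, nat_lit 15, [nat_lit 30, nat_lit 5, nat_lit 5, nat_lit 20], false, nat_lit 80, nat_lit 176, nat_lit 0, nat_lit 312, ⟨nat_lit 288, nat_lit 712, nat_lit 0, nat_lit 8, nat_lit 302, nat_lit 712, nat_lit 89, nat_lit 0, nat_lit 0, nat_lit 0, nat_lit 0, nat_lit 0, nat_lit 40193936, nat_lit 23388324, nat_lit 3417740, nat_lit 4345354, true, true⟩,
 nat_lit 4891, nat_lit 0, nat_lit 0, nat_lit 0, nat_lit 3828, nat_lit 2589, nat_lit 56, nat_lit 0, nat_lit 0, nat_lit 211, nat_lit 0, nat_lit 0, nat_lit 0, nat_lit 0, nat_lit 0, nat_lit 313000, nat_lit 0, nat_lit 0, [(nat_lit 25, [(nat_lit 1, nat_lit 665), (nat_lit 2, nat_lit 47)]), (nat_lit 28, [(nat_lit 1, nat_lit 665), (nat_lit 2, nat_lit 47)])],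
 ⟨p110_k0, nat_lit 0, nat_lit 0, nat_lit 241, nat_lit 0, nat_lit 379413, [nat_lit 900950801, nat_lit 1593730801, nat_lit 2225364400], [], [nat_lit 26930510016, nat_lit 28954275248, nat_lit 28737931788, nat_lit 31314467101, nat_lit 27237167751, nat_lit 28950661748, nat_lit 28837089133, nat_lit 31061490653], nat_lit 1271250, nat_lit 1271250, nat_lit 1271250, nat_lit 1271250, nat_lit 490000, nat_lit 1236400, [nat_lit 230000, nat_lit 780000, nat_lit 1435000], [nat_lit 20, nat_lit 40, nat_lit 40, nat_lit 80, nat_lit 16, nat_lit 260, nat_lit 50, nat_lit 8]⟩, ⟨p110_k19, nat_lit 0, nat_lit 0, nat_lit 564, nat_lit 0, nat_lit 714188, [nat_lit 1350144000, nat_lit 2294784000, nat_lit 3419136000], [], [nat_lit 11011008544, nat_lit 11118910720, nat_lit 11618021701, nat_lit 11706260223, nat_lit 9045213284, nat_lit 9075597570, nat_lit 9539659164, nat_lit 9632582350], nat_lit 1271250, nat_lit 1271250, nat_lit 1271250, nat_lit 1271250,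 nat_lit 0, nat_lit 2203500, [nat_lit 1100000, nat_lit 1785000, nat_lit 1271250], [nat_lit 21, nat_lit 40, nat_lit 40, nat_lit 80, nat_lit 14, nat_lit 373, nat_lit 150, nat_lit 9]⟩,
 ⟨nat_lit 0, nat_lit 3163, ⟨.ofNat (nat_lit 727166), .ofNat (nat_lit 794213), .ofNat (nat_lit 749322), .ofNat (nat_lit 816369), .ofNat (nat_lit 699997), .ofNat (nat_lit 754995), .ofNat (nat_lit 724998), .ofNat (nat_lit 779996)⟩, ⟨.ofNat (nat_lit 139898), .ofNat (nat_lit 286182), .ofNat (nat_lit 162054), .ofNat (nat_lit 308338), .ofNat (nat_lit 149998), .ofNat (nat_lit 269994), .ofNat (nat_lit 174999), .ofNat (nat_lit 294995)⟩⟩, [⟨nat_lit 13, nat_lit 45, nat_lit 79, nat_lit 100, nat_lit 470534652⟩, ⟨nat_lit 16, nat_lit 47, nat_lit 100, nat_lit 72, nat_lit 265499204⟩, ⟨nat_lit 22, nat_lit 75, nat_lit 98, nat_lit 100, nat_lit 26239490⟩]⟩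
noncomputable def p110_l57 : Lf2 := ⟨nat_lit 0, nat_lit 20, [nat_lit 5, nat_lit 5, nat_lit 5, nat_lit 20], false, nat_lit 80, nat_lit 200, nat_lit 0, nat_lit 336, ⟨nat_lit 1000, nat_lit 0, nat_lit 0, nat_lit 0, nat_lit 0, nat_lit 0, nat_lit 0, nat_lit 0, nat_lit 0, nat_lit 0, nat_lit 0, nat_lit 0, nat_lit 0, nat_lit 0, nat_lit 0, nat_lit 0, false, false⟩,
 nat_lit 15356, nat_lit 0, nat_lit 0, nat_lit 0, nat_lit 6608, nat_lit 8129, nat_lit 0, nat_lit 0, nat_lit 0, nat_lit 849, nat_lit 0, nat_lit 0, nat_lit 0, nat_lit 0, nat_lit 0, nat_lit 0, nat_lit 0, nat_lit 0, [],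
 ⟨p110_k4, nat_lit 0, nat_lit 0, nat_lit 160, nat_lit 0, nat_lit 186240, [nat_lit 938000000, nat_lit 3282000000, nat_lit 6250000000], [], [nat_lit 30697459776, nat_lit 31487833216, nat_lit 33551358432, nat_lit 34247810700, nat_lit 30259850448, nat_lit 30922908296, nat_lit 32641922021, nat_lit 33228295363], nat_lit 1271250, nat_lit 1271250, nat_lit 1271250, nat_lit 1271250, nat_lit 490000, nat_lit 1427500, [nat_lit 230000, nat_lit 780000, nat_lit 1435000], [nat_lit 20, nat_lit 40, nat_lit 40, nat_lit 80, nat_lit 16, nat_lit 260, nat_lit 50, nat_lit 8]⟩, ⟨p110_k16, nat_lit 0, nat_lit 0, nat_lit 448, nat_lit 0, nat_lit 353428, [nat_lit 4688000000, nat_lit 7968000000, nat_lit 14058000000], [], [nat_lit 39328014100, nat_lit 39573479934, nat_lit 40888508139, nat_lit 41052774574, nat_lit 33270728509, nat_lit 33428010803, nat_lit 34536178994, nat_lit 34747803089], nat_lit 1271250, nat_lit 1271250, nat_lit 1271250, nat_lit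 1271250, nat_lit 0, nat_lit 2373000, [nat_lit 1100000, nat_lit 1785000, nat_lit 1271250], [nat_lit 37, nat_lit 40, nat_lit 40, nat_lit 80, nat_lit 28, nat_lit 483, nat_lit 250, nat_lit 11]⟩,
 zbF0, [⟨nat_lit 16, nat_lit 57, nat_lit 100, nat_lit 76, nat_lit 307599686⟩, ⟨nat_lit 7, nat_lit 85, nat_lit 100, nat_lit 78, nat_lit 122388667⟩]⟩
noncomputable def p110_l58 : Lf2 := ⟨nat_lit 0, nat_lit 20, [nat_lit 5, nat_lit 5, nat_lit 5, nat_lit 20], false, nat_lit 80, nat_lit 184, nat_lit 0, nat_lit 336, ⟨nat_lit 256, nat_lit 744, nat_lit 0, nat_lit 8, nat_lit 302, nat_lit 744, nat_lit 102, nat_lit 0, nat_lit 0, nat_lit 0, nat_lit 0, nat_lit 0, nat_lit 39762719, nat_lit 23096283, nat_lit 4140998, nat_lit 4487667, true, true⟩,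
 nat_lit 4092, nat_lit 0, nat_lit 0, nat_lit 0, nat_lit 3151, nat_lit 2166, nat_lit 237, nat_lit 0, nat_lit 0, nat_lit 199, nat_lit 0, nat_lit 0, nat_lit 0, nat_lit 0, nat_lit 0, nat_lit 186000, nat_lit 0, nat_lit 0, [(nat_lit 25, [(nat_lit 0, nat_lit 744)])],
 ⟨p110_k6, nat_lit 0, nat_lit 0, nat_lit 187, nat_lit 0, nat_lit 231478, [nat_lit 808544001, nat_lit 1858579200, nat_lit 3175792000], [], [nat_lit 26518047172, nat_lit 26962793772, nat_lit 27706012105, nat_lit 28140703826, nat_lit 27158074124, nat_lit 27545121295, nat_lit 28205403336, nat_lit 28580436707], nat_lit 1271250, nat_lit 1271250, nat_lit 1271250, nat_lit 1271250, nat_lit 490000, nat_lit 1302500, [nat_lit 230000, nat_lit 780000, nat_lit 1435000], [nat_lit 20, nat_lit 40, nat_lit 40, nat_lit 80, nat_lit 16, nat_lit 260, nat_lit 50, nat_lit 8]⟩, ⟨p110_k16, nat_lit 0, nat_lit 0, nat_lit 490, nat_lit 0, nat_lit 458812, [nat_lit 1200128000, nat_lit 2039808000,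 nat_lit 3598848000], [], [nat_lit 10398864544, nat_lit 10459931708, nat_lit 10688564916, nat_lit 10734055376, nat_lit 8634072267, nat_lit 8644616697, nat_lit 8866833443, nat_lit 8924131473], nat_lit 1271250, nat_lit 1271250, nat_lit 1271250, nat_lit 1271250, nat_lit 0, nat_lit 2373000, [nat_lit 1100000, nat_lit 1785000, nat_lit 1271250], [nat_lit 37, nat_lit 40, nat_lit 40, nat_lit 80, nat_lit 28, nat_lit 483, nat_lit 250, nat_lit 11]⟩,
 ⟨nat_lit 2236, nat_lit 2739, ⟨.ofNat (nat_lit 722017), .ofNat (nat_lit 769266), .ofNat (nat_lit 744435), .ofNat (nat_lit 791684), .ofNat (nat_lit 716594), .ofNat (nat_lit 762206), .ofNat (nat_lit 739368), .ofNat (nat_lit 784980)⟩, ⟨.ofNat (nat_lit 165893), .ofNat (nat_lit 319452), .ofNat (nat_lit 188310), .ofNat (nat_lit 341870), .ofNat (nat_lit 169532), .ofNat (nat_lit 317772), .ofNat (nat_lit 192306), .ofNat (nat_lit 340547)⟩⟩, [⟨nat_lit 13, nat_lit 50, nat_lit 75, nat_lit 100,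 nat_lit 140831767⟩, ⟨nat_lit 16, nat_lit 49, nat_lit 100, nat_lit 78, nat_lit 238793886⟩, ⟨nat_lit 22, nat_lit 78, nat_lit 95, nat_lit 100, nat_lit 27651308⟩]⟩
noncomputable def p110_l59 : Lf2 := ⟨nat_lit 0, nat_lit 20, [nat_lit 5, nat_lit 5, nat_lit 5, nat_lit 20], false, nat_lit 80, nat_lit 164, nat_lit 0, nat_lit 336, ⟨nat_lit 207, nat_lit 793, nat_lit 0, nat_lit 8, nat_lit 293, nat_lit 793, nat_lit 96, nat_lit 0, nat_lit 0, nat_lit 0, nat_lit 0, nat_lit 0, nat_lit 40723819, nat_lit 22421140, nat_lit 3855041, nat_lit 4398204, true, true⟩,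
 nat_lit 3318, nat_lit 0, nat_lit 0, nat_lit 0, nat_lit 3100, nat_lit 1756, nat_lit 104, nat_lit 0, nat_lit 0, nat_lit 161, nat_lit 0, nat_lit 0, nat_lit 0, nat_lit 0, nat_lit 0, nat_lit 237700, nat_lit 0, nat_lit 0, [(nat_lit 28, [(nat_lit 0, nat_lit 530), (nat_lit 1, nat_lit 263)])],
 ⟨p110_k10, nat_lit 0, nat_lit 0, nat_lit 223, nat_lit 0, nat_lit 326245, [nat_lit 791882800, nat_lit 1339104401, nat_lit 2208768533], [], [nat_lit 26630761733, nat_lit 27705970733, nat_lit 27499517633, nat_lit 28672138600, nat_lit 26979737723, nat_lit 27957698253, nat_lit 27772742508, nat_lit 28748080200], nat_lit 1271250, nat_lit 1271250, nat_lit 1271250, nat_lit 1271250, nat_lit 490000, nat_lit 1133651, [nat_lit 230000, nat_lit 780000, nat_lit 1435000], [nat_lit 20, nat_lit 40, nat_lit 40, nat_lit 80, nat_lit 16, nat_lit 260, nat_lit 50, nat_lit 8]⟩, ⟨p110_k16, nat_lit 0, nat_lit 0, nat_lit 607, nat_lit 0, nat_lit 674677, [nat_lit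 970416000, nat_lit 1649376000, nat_lit 2910006000], [], [nat_lit 8404744868, nat_lit 8454027760, nat_lit 8551282632, nat_lit 8592676375, nat_lit 6966097158, nat_lit 6975673361, nat_lit 7070926805, nat_lit 7122211291], nat_lit 1271250, nat_lit 1271250, nat_lit 1271250, nat_lit 1271250, nat_lit 0, nat_lit 2373000, [nat_lit 1100000, nat_lit 1785000, nat_lit 1271250], [nat_lit 37, nat_lit 40, nat_lit 40, nat_lit 80, nat_lit 28, nat_lit 483, nat_lit 250, nat_lit 11]⟩,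
 ⟨nat_lit 0, nat_lit 2237, ⟨.ofNat (nat_lit 716590), .ofNat (nat_lit 745097), .ofNat (nat_lit 739366), .ofNat (nat_lit 767872), .ofNat (nat_lit 699995), .ofNat (nat_lit 724995), .ofNat (nat_lit 724997), .ofNat (nat_lit 749995)⟩, ⟨.ofNat (nat_lit 169532), .ofNat (nat_lit 289260), .ofNat (nat_lit 192306), .ofNat (nat_lit 312035), .ofNat (nat_lit 174999), .ofNat (nat_lit 279994), .ofNat (nat_lit 199999), .ofNat (nat_lit 304995)⟩⟩, [⟨nat_lit 13, nat_lit 46, nat_lit 76, nat_lit 100, nat_lit 323959777⟩, ⟨nat_lit 16, nat_lit 44, nat_lit 100, nat_lit 82, nat_lit 1352804⟩, ⟨nat_lit 4, nat_lit 100, nat_lit 34, nat_lit 82, nat_lit 272652091⟩, ⟨nat_lit 22, nat_lit 83, nat_lit 97, nat_lit 100, nat_lit 20593922⟩]⟩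
noncomputable def p110_l60 : Lf2 := ⟨nat_lit 0, nat_lit 20, [nat_lit 5, nat_lit 5, nat_lit 5, nat_lit 20], false, nat_lit 80, nat_lit 200, nat_lit 0, nat_lit 160, ⟨nat_lit 612, nat_lit 388, nat_lit 0, nat_lit 8, nat_lit 315, nat_lit 388, nat_lit 101, nat_lit 0, nat_lit 0, nat_lit 0, nat_lit 0, nat_lit 0, nat_lit 38612452, nat_lit 24391857, nat_lit 3995691, nat_lit 4508234, true, true⟩,
 nat_lit 8145, nat_lit 0, nat_lit 0, nat_lit 0, nat_lit 4180, nat_lit 4740, nat_lit 8, nat_lit 0, nat_lit 0, nat_lit 501, nat_lit 0, nat_lit 0, nat_lit 0, nat_lit 0, nat_lit 0, nat_lit 388000, nat_lit 0, nat_lit 0, [(nat_lit 25, [(nat_lit 2, nat_lit 388)]), (nat_lit 28, [(nat_lit 2, nat_lit 388)])],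
 ⟨p110_k4, nat_lit 0, nat_lit 0, nat_lit 282, nat_lit 0, nat_lit 486530, [nat_lit 1143795201, nat_lit 1860781867, nat_lit 2312265600], [], [nat_lit 27754766030, nat_lit 29565176880, nat_lit 30141888848, nat_lit 32737521153, nat_lit 28293825430, nat_lit 29745125200, nat_lit 30243318152, nat_lit 32469708432], nat_lit 1271250, nat_lit 1271250, nat_lit 1271250, nat_lit 1271250, nat_lit 490000, nat_lit 1427500, [nat_lit 230000, nat_lit 780000, nat_lit 1435000], [nat_lit 20, nat_lit 40, nat_lit 40, nat_lit 80, nat_lit 16, nat_lit 260, nat_lit 50, nat_lit 8]⟩, ⟨p110_k5, nat_lit 0, nat_lit 0, nat_lit 596, nat_lit 0, nat_lit 813484, [nat_lit 2869056000, nat_lit 4876416000, nat_lit 7265664000], [], [nat_lit 22502049807, nat_lit 22637772864, nat_lit 23616122967, nat_lit 23766658340, nat_lit 19387555176, nat_lit 19538693424, nat_lit 20358937925, nat_lit 20461772948], nat_lit 1271250, nat_lit 1271250, nat_lit 1271250, nat_lit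 1271250, nat_lit 0, nat_lit 1100001, [nat_lit 1100000, nat_lit 1785000, nat_lit 1271250], [nat_lit 21, nat_lit 40, nat_lit 40, nat_lit 80, nat_lit 14, nat_lit 345, nat_lit 125, nat_lit 8]⟩,
 ⟨nat_lit 0, nat_lit 3163, ⟨.ofNat (nat_lit 749322), .ofNat (nat_lit 834654), .ofNat (nat_lit 771478), .ofNat (nat_lit 856810), .ofNat (nat_lit 724998), .ofNat (nat_lit 794995), .ofNat (nat_lit 749999), .ofNat (nat_lit 819996)⟩, ⟨.ofNat (nat_lit 139898), .ofNat (nat_lit 322753), .ofNat (nat_lit 184209), .ofNat (nat_lit 367065), .ofNat (nat_lit 149998), .ofNat (nat_lit 299993), .ofNat (nat_lit 199999), .ofNat (nat_lit 349995)⟩⟩, [⟨nat_lit 13, nat_lit 47, nat_lit 74, nat_lit 100, nat_lit 333676725⟩, ⟨nat_lit 4, nat_lit 100, nat_lit 46, nat_lit 75, nat_lit 769605822⟩]⟩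
noncomputable def p110_l61 : Lf2 := ⟨nat_lit 0, nat_lit 20, [nat_lit 5, nat_lit 5, nat_lit 5, nat_lit 20], false, nat_lit 80, nat_lit 200, nat_lit 160, nat_lit 320, ⟨nat_lit 1000, nat_lit 0, nat_lit 0, nat_lit 0, nat_lit 0, nat_lit 0, nat_lit 0, nat_lit 0, nat_lit 0, nat_lit 0, nat_lit 0, nat_lit 0, nat_lit 0, nat_lit 0, nat_lit 0, nat_lit 0, false, false⟩,
 nat_lit 11912, nat_lit 0, nat_lit 0, nat_lit 0, nat_lit 5585, nat_lit 6933, nat_lit 207, nat_lit 0, nat_lit 0, nat_lit 843, nat_lit 0, nat_lit 0, nat_lit 0, nat_lit 0, nat_lit 0, nat_lit 0, nat_lit 0, nat_lit 0, [],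
 ⟨p110_k4, nat_lit 0, nat_lit 0, nat_lit 238, nat_lit 0, nat_lit 377310, [nat_lit 938000000, nat_lit 3282000000, nat_lit 6250000000], [], [nat_lit 30522608130, nat_lit 31552311770, nat_lit 33115952422, nat_lit 34136869451, nat_lit 30430569500, nat_lit 31303653705, nat_lit 32578579364, nat_lit 33418947020], nat_lit 1271250, nat_lit 1271250, nat_lit 1271250, nat_lit 1271250, nat_lit 490000, nat_lit 1427500, [nat_lit 230000, nat_lit 780000, nat_lit 1435000], [nat_lit 20, nat_lit 40, nat_lit 40, nat_lit 80, nat_lit 16, nat_lit 260, nat_lit 50, nat_lit 8]⟩, ⟨p110_k5, nat_lit 0, nat_lit 0, nat_lit 402, nat_lit 0, nat_lit 630866, [nat_lit 4688000000, nat_lit 7968000000, nat_lit 11872000000], [], [nat_lit 30545575527, nat_lit 30869922466, nat_lit 32538635030, nat_lit 32793526088, nat_lit 32212442264, nat_lit 32450738544, nat_lit 34089240830, nat_lit 34371907190], nat_lit 1271250, nat_lit 1271250, nat_lit 1271250, nat_lit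 1271250, nat_lit 1100001, nat_lit 2470000, [nat_lit 1100000, nat_lit 1785000, nat_lit 1271250], [nat_lit 21, nat_lit 40, nat_lit 40, nat_lit 80, nat_lit 14, nat_lit 373, nat_lit 150, nat_lit 9]⟩,
 zbF0, [⟨nat_lit 4, nat_lit 100, nat_lit 54, nat_lit 73, nat_lit 430330647⟩, ⟨nat_lit 19, nat_lit 100, nat_lit 97, nat_lit 76, nat_lit 355325945⟩, ⟨nat_lit 22, nat_lit 69, nat_lit 100, nat_lit 88, nat_lit 6156162⟩]⟩
noncomputable def p110_l62 : Lf2 := ⟨nat_lit 0, nat_lit 20, [nat_lit 5, nat_lit 5, nat_lit 5, nat_lit 20], false, nat_lit 80, nat_lit 164, nat_lit 160, nat_lit 320, ⟨nat_lit 356, nat_lit 644, nat_lit 0, nat_lit 8, nat_lit 306, nat_lit 644, nat_lit 91, nat_lit 0, nat_lit 0, nat_lit 0, nat_lit 0, nat_lit 0, nat_lit 39764153, nat_lit 23722011, nat_lit 3513836, nat_lit 4380316, true, true⟩,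
 nat_lit 4784, nat_lit 0, nat_lit 0, nat_lit 0, nat_lit 3139, nat_lit 2784, nat_lit 86, nat_lit 0, nat_lit 0, nat_lit 298, nat_lit 0, nat_lit 0, nat_lit 0, nat_lit 0, nat_lit 0, nat_lit 257600, nat_lit 0, nat_lit 0, [(nat_lit 28, [(nat_lit 1, nat_lit 644)])],
 ⟨p110_k10, nat_lit 0, nat_lit 0, nat_lit 256, nat_lit 0, nat_lit 446464, [nat_lit 783182401, nat_lit 1377563201, nat_lit 2313872000], [], [nat_lit 26946783138, nat_lit 28023570338, nat_lit 28338651594, nat_lit 29342656076, nat_lit 27461844940, nat_lit 28261347430, nat_lit 28549737383, nat_lit 29465223816], nat_lit 1271250, nat_lit 1271250, nat_lit 1271250, nat_lit 1271250, nat_lit 490000, nat_lit 1133651, [nat_lit 230000, nat_lit 780000, nat_lit 1435000], [nat_lit 20, nat_lit 40, nat_lit 40, nat_lit 80, nat_lit 16, nat_lit 260, nat_lit 50, nat_lit 8]⟩, ⟨p110_k5, nat_lit 0, nat_lit 0, nat_lit 500, nat_lit 0, nat_lit 813484, [nat_lit 1668928000, nat_lit 2836608000,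 nat_lit 4226432000], [], [nat_lit 10594575558, nat_lit 10699598414, nat_lit 10953765792, nat_lit 11040308381, nat_lit 11093510152, nat_lit 11170972848, nat_lit 11395320764, nat_lit 11458317000], nat_lit 1271250, nat_lit 1271250, nat_lit 1271250, nat_lit 1271250, nat_lit 1100001, nat_lit 2470000, [nat_lit 1100000, nat_lit 1785000, nat_lit 1271250], [nat_lit 21, nat_lit 40, nat_lit 40, nat_lit 80, nat_lit 14, nat_lit 373, nat_lit 150, nat_lit 9]⟩,
 ⟨nat_lit 0, nat_lit 2237, ⟨.ofNat (nat_lit 739366), .ofNat (nat_lit 784976), .ofNat (nat_lit 762141), .ofNat (nat_lit 807752), .ofNat (nat_lit 724997), .ofNat (nat_lit 764995), .ofNat (nat_lit 749998), .ofNat (nat_lit 789996)⟩, ⟨.ofNat (nat_lit 146756), .ofNat (nat_lit 266484), .ofNat (nat_lit 192306), .ofNat (nat_lit 312035), .ofNat (nat_lit 149997), .ofNat (nat_lit 254993), .ofNat (nat_lit 199999), .ofNat (nat_lit 304995)⟩⟩, [⟨nat_lit 4, nat_lit 100, nat_lit 35, nat_lit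 80, nat_lit 718705320⟩, ⟨nat_lit 7, nat_lit 97, nat_lit 100, nat_lit 76, nat_lit 5264619⟩, ⟨nat_lit 22, nat_lit 75, nat_lit 100, nat_lit 83, nat_lit 143170201⟩]⟩
noncomputable def b_V_900_600_10_28 : St := ⟨true, nat_lit 1, nat_lit 1, nat_lit 1, nat_lit 80, nat_lit 360, nat_lit 400, nat_lit 240, nat_lit 280, nat_lit 240, nat_lit 376, nat_lit 40, nat_lit 80, nat_lit 80, nat_lit 200, nat_lit 0, nat_lit 336, nat_lit 80, nat_lit 120, nat_lit 0, nat_lit 0, nat_lit 0, nat_lit 0⟩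
theorem d_V_900_600_10_28 (h : EB TB.env) : Dead b_V_900_600_10_28 := chkB_sound0 h (T :=
(.spl (nat_lit 2) (nat_lit 320)
(.spl (nat_lit 0) (nat_lit 380)
(.spl (nat_lit 1) (nat_lit 260)
(.spl (nat_lit 5) (nat_lit 160)
(.leaf p110_l50)
(.spl (nat_lit 0) (nat_lit 370)
(.leaf p110_l51)
(.trX (nat_lit 16) (nat_lit 53) (nat_lit 100) (nat_lit 80) (nat_lit 184) (.leaf p110_l52))))
(.trX (nat_lit 19) (nat_lit 100) (nat_lit 85) (nat_lit 84) (nat_lit 320) (.leaf p110_l53)))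
(.trX (nat_lit 16) (nat_lit 44) (nat_lit 100) (nat_lit 82) (nat_lit 164) (.spl (nat_lit 1) (nat_lit 260)
(.leaf p110_l54)
(.trX (nat_lit 19) (nat_lit 100) (nat_lit 85) (nat_lit 84) (nat_lit 320) (.leaf p110_l55)))))
(.spl (nat_lit 1) (nat_lit 260)
(.trX (nat_lit 13) (nat_lit 63) (nat_lit 61) (nat_lit 100) (nat_lit 364) (.spl (nat_lit 3) (nat_lit 60)
(.trX (nat_lit 16) (nat_lit 61) (nat_lit 100) (nat_lit 72) (nat_lit 176) (.trX (nat_lit 19) (nat_lit 100) (nat_lit 85) (nat_lit 73) (nat_lit 312) (.leaf p110_l56)))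
(.spl (nat_lit 0) (nat_lit 380)
(.spl (nat_lit 0) (nat_lit 370)
(.leaf p110_l57)
(.trX (nat_lit 13) (nat_lit 55) (nat_lit 68) (nat_lit 100) (nat_lit 352) (.trX (nat_lit 16) (nat_lit 53) (nat_lit 100) (nat_lit 80) (nat_lit 184) (.leaf p110_l58))))
(.trX (nat_lit 13) (nat_lit 46) (nat_lit 76) (nat_lit 100) (nat_lit 340) (.trX (nat_lit 16) (nat_lit 44) (nat_lit 100) (nat_lit 82) (nat_lit 164) (.leaf p110_l59))))))
(.trX (nat_lit 19) (nat_lit 100) (nat_lit 85) (nat_lit 84) (nat_lit 320) (.spl (nat_lit 5) (nat_lit 160)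
(.leaf p110_l60)
(.spl (nat_lit 0) (nat_lit 380)
(.leaf p110_l61)
(.trX (nat_lit 13) (nat_lit 48) (nat_lit 71) (nat_lit 100) (nat_lit 352) (.trX (nat_lit 16) (nat_lit 44) (nat_lit 100) (nat_lit 82) (nat_lit 164) (.leaf p110_l62))))))))) (by decide +kernel)
noncomputable def p110_l63 : Lf2 := ⟨nat_lit 0, nat_lit 20, [nat_lit 5, nat_lit 5, nat_lit 5, nat_lit 20], false, nat_lit 0, nat_lit 200, nat_lit 0, nat_lit 160, ⟨nat_lit 629, nat_lit 371, nat_lit 0, nat_lit 6, nat_lit 251, nat_lit 371, nat_lit 67, nat_lit 0, nat_lit 0, nat_lit 0, nat_lit 0, nat_lit 0, nat_lit 0, nat_lit 0, nat_lit 0, nat_lit 5000000, false, false⟩,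
 nat_lit 0, nat_lit 4409, nat_lit 0, nat_lit 0, nat_lit 3840, nat_lit 4117, nat_lit 134, nat_lit 0, nat_lit 0, nat_lit 723, nat_lit 0, nat_lit 0, nat_lit 0, nat_lit 0, nat_lit 0, nat_lit 371000, nat_lit 0, nat_lit 0, [(nat_lit 25, [(nat_lit 2, nat_lit 371)]), (nat_lit 28, [(nat_lit 2, nat_lit 371)])],
 ⟨p110_k4, nat_lit 0, nat_lit 0, nat_lit 454, nat_lit 0, nat_lit 770932, [nat_lit 1134778400, nat_lit 1923051734, nat_lit 2484795200], [], [nat_lit 26357736501, nat_lit 28242068205, nat_lit 32588424800, nat_lit 35179841504, nat_lit 26835177597, nat_lit 28434863372, nat_lit 34980999316, nat_lit 33618532263], nat_lit 1271250, nat_lit 1271250, nat_lit 719601, nat_lit 2861300, nat_lit 0, nat_lit 1412500, [nat_lit 230000, nat_lit 780000, nat_lit 1435000], [nat_lit 20, nat_lit 40, nat_lit 40, nat_lit 80, nat_lit 16, nat_lit 373, nat_lit 150, nat_lit 14]⟩, ⟨p110_k16, nat_lit 0, nat_lit 0, nat_lit 271, nat_lit 0, nat_lit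 0, [nat_lit 2948752000, nat_lit 5011872000, nat_lit 8842482000], [], [nat_lit 16665805464, nat_lit 18111501672, nat_lit 22676493161, nat_lit 23322820842, nat_lit 14117202841, nat_lit 15166414344, nat_lit 19164119560, nat_lit 19913318833], nat_lit 0, nat_lit 0, nat_lit 0, nat_lit 0, nat_lit 0, nat_lit 0, [], [nat_lit 37, nat_lit 40, nat_lit 40, nat_lit 80, nat_lit 28, nat_lit 456, nat_lit 225, nat_lit 11]⟩,
 ⟨nat_lit 0, nat_lit 3163, ⟨.ofNat (nat_lit 401957), .ofNat (nat_lit 812499), .ofNat (nat_lit 443658), .ofNat (nat_lit 856810), .ofNat (nat_lit 431745), .ofNat (nat_lit 769995), .ofNat (nat_lit 479136), .ofNat (nat_lit 819996)⟩, ⟨.ofNat (nat_lit 0), .ofNat (nat_lit 322753), .ofNat (nat_lit 0), .ofNat (nat_lit 367065), .ofNat (nat_lit 0), .ofNat (nat_lit 299993), .ofNat (nat_lit 0), .ofNat (nat_lit 349995)⟩⟩, [⟨nat_lit 4, nat_lit 100, nat_lit 46, nat_lit 75, nat_lit 376101140⟩]⟩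
noncomputable def p110_l64 : Lf2 := ⟨nat_lit 0, nat_lit 20, [nat_lit 5, nat_lit 5, nat_lit 5, nat_lit 20], false, nat_lit 0, nat_lit 200, nat_lit 160, nat_lit 336, ⟨nat_lit 647, nat_lit 353, nat_lit 0, nat_lit 6, nat_lit 251, nat_lit 353, nat_lit 67, nat_lit 0, nat_lit 0, nat_lit 0, nat_lit 0, nat_lit 0, nat_lit 0, nat_lit 0, nat_lit 0, nat_lit 5000000, false, false⟩,
 nat_lit 0, nat_lit 4525, nat_lit 0, nat_lit 0, nat_lit 3941, nat_lit 3914, nat_lit 117, nat_lit 0, nat_lit 0, nat_lit 0, nat_lit 0, nat_lit 0, nat_lit 0, nat_lit 0, nat_lit 0, nat_lit 353000, nat_lit 0, nat_lit 0, [(nat_lit 25, [(nat_lit 2, nat_lit 353)]), (nat_lit 28, [(nat_lit 2, nat_lit 353)])],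
 ⟨p110_k4, nat_lit 0, nat_lit 0, nat_lit 454, nat_lit 0, nat_lit 770932, [nat_lit 1125231200, nat_lit 1988984534, nat_lit 2667473600], [], [nat_lit 26838152520, nat_lit 28693301853, nat_lit 32874089160, nat_lit 35497648670, nat_lit 27022427681, nat_lit 28576306300, nat_lit 35113996806, nat_lit 33271873738], nat_lit 1271250, nat_lit 1271250, nat_lit 719601, nat_lit 2861300, nat_lit 0, nat_lit 1412500, [nat_lit 230000, nat_lit 780000, nat_lit 1435000], [nat_lit 20, nat_lit 40, nat_lit 40, nat_lit 80, nat_lit 16, nat_lit 373, nat_lit 150, nat_lit 14]⟩, ⟨p110_k16, nat_lit 0, nat_lit 0, nat_lit 85, nat_lit 0, nat_lit 0, [nat_lit 3033136000, nat_lit 5155296000, nat_lit 9095526000], [], [nat_lit 6489330437, nat_lit 8726930684, nat_lit 16504264427, nat_lit 17575975981, nat_lit 14183303767, nat_lit 15547846819, nat_lit 20454409876, nat_lit 21193984345], nat_lit 0, nat_lit 0, nat_lit 0, nat_lit 0, nat_lit 0, nat_lit 0, [],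 [nat_lit 37, nat_lit 40, nat_lit 40, nat_lit 80, nat_lit 28, nat_lit 483, nat_lit 250, nat_lit 11]⟩,
 ⟨nat_lit 0, nat_lit 3163, ⟨.ofNat (nat_lit 401957), .ofNat (nat_lit 812499), .ofNat (nat_lit 443658), .ofNat (nat_lit 856810), .ofNat (nat_lit 431745), .ofNat (nat_lit 769995), .ofNat (nat_lit 479136), .ofNat (nat_lit 819996)⟩, ⟨.ofNat (nat_lit 0), .ofNat (nat_lit 322753), .ofNat (nat_lit 0), .ofNat (nat_lit 367065), .ofNat (nat_lit 0), .ofNat (nat_lit 299993), .ofNat (nat_lit 0), .ofNat (nat_lit 349995)⟩⟩, [⟨nat_lit 4, nat_lit 100, nat_lit 46, nat_lit 75, nat_lit 340031449⟩, ⟨nat_lit 19, nat_lit 100, nat_lit 76, nat_lit 82, nat_lit 315869460⟩]⟩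
noncomputable def p110_l65 : Lf2 := ⟨nat_lit 0, nat_lit 20, [nat_lit 5, nat_lit 5, nat_lit 5, nat_lit 20], true, nat_lit 0, nat_lit 200, nat_lit 0, nat_lit 336, ⟨nat_lit 0, nat_lit 1000, nat_lit 0, nat_lit 6, nat_lit 213, nat_lit 1000, nat_lit 67, nat_lit 0, nat_lit 0, nat_lit 0, nat_lit 0, nat_lit 0, nat_lit 0, nat_lit 0, nat_lit 0, nat_lit 5000000, false, false⟩,
 nat_lit 0, nat_lit 3679, nat_lit 0, nat_lit 0, nat_lit 3204, nat_lit 0, nat_lit 130, nat_lit 0, nat_lit 0, nat_lit 0, nat_lit 0, nat_lit 0, nat_lit 0, nat_lit 0, nat_lit 0, nat_lit 334450, nat_lit 0, nat_lit 0, [(nat_lit 25, [(nat_lit 0, nat_lit 437), (nat_lit 1, nat_lit 563)]), (nat_lit 28, [(nat_lit 0, nat_lit 437), (nat_lit 1, nat_lit 563)])],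
 ⟨p110_k4, nat_lit 0, nat_lit 0, nat_lit 454, nat_lit 0, nat_lit 770932, [nat_lit 817181601, nat_lit 1162366667, nat_lit 1440823600], [], [nat_lit 23561627128, nat_lit 25265705611, nat_lit 25399741057, nat_lit 26843988264, nat_lit 24331409581, nat_lit 25789787392, nat_lit 26052587583, nat_lit 27596119079], nat_lit 1271250, nat_lit 1271250, nat_lit 719601, nat_lit 1758000, nat_lit 0, nat_lit 1412500, [nat_lit 230000, nat_lit 780000, nat_lit 1435000], [nat_lit 20, nat_lit 40, nat_lit 40, nat_lit 80, nat_lit 16, nat_lit 345, nat_lit 125, nat_lit 13]⟩, C1.Rw.none,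
 ⟨nat_lit 0, nat_lit 3163, ⟨.ofNat (nat_lit 401957), .ofNat (nat_lit 605128), .ofNat (nat_lit 443658), .ofNat (nat_lit 646918), .ofNat (nat_lit 431745), .ofNat (nat_lit 599865), .ofNat (nat_lit 479136), .ofNat (nat_lit 647345)⟩, ⟨.ofNat (nat_lit 0), .ofNat (nat_lit 322753), .ofNat (nat_lit 0), .ofNat (nat_lit 367065), .ofNat (nat_lit 0), .ofNat (nat_lit 299993), .ofNat (nat_lit 0), .ofNat (nat_lit 349995)⟩⟩, [⟨nat_lit 4, nat_lit 100, nat_lit 46, nat_lit 75, nat_lit 263732145⟩]⟩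
noncomputable def p110_l66 : Lf2 := ⟨nat_lit 0, nat_lit 20, [nat_lit 5, nat_lit 5, nat_lit 5, nat_lit 20], false, nat_lit 0, nat_lit 200, nat_lit 0, nat_lit 336, ⟨nat_lit 223, nat_lit 777, nat_lit 0, nat_lit 6, nat_lit 288, nat_lit 777, nat_lit 67, nat_lit 0, nat_lit 0, nat_lit 0, nat_lit 0, nat_lit 0, nat_lit 0, nat_lit 0, nat_lit 0, nat_lit 5000000, true, true⟩,
 nat_lit 3797, nat_lit 0, nat_lit 0, nat_lit 0, nat_lit 3306, nat_lit 2010, nat_lit 41, nat_lit 0, nat_lit 0, nat_lit 171, nat_lit 0, nat_lit 0, nat_lit 0, nat_lit 0, nat_lit 0, nat_lit 310800, nat_lit 0, nat_lit 0, [(nat_lit 25, [(nat_lit 1, nat_lit 777)]), (nat_lit 28, [(nat_lit 1, nat_lit 777)])],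
 ⟨p110_k4, nat_lit 0, nat_lit 0, nat_lit 337, nat_lit 0, nat_lit 486530, [nat_lit 865583600, nat_lit 1510543600, nat_lit 2104860400], [], [nat_lit 27548090034, nat_lit 29289791274, nat_lit 31645956866, nat_lit 33499554114, nat_lit 27991498198, nat_lit 29451079110, nat_lit 31440848636, nat_lit 32591218273], nat_lit 1271250, nat_lit 1271250, nat_lit 1271250, nat_lit 1271250, nat_lit 0, nat_lit 1412500, [nat_lit 230000, nat_lit 780000, nat_lit 1435000], [nat_lit 20, nat_lit 40, nat_lit 40, nat_lit 80, nat_lit 16, nat_lit 260, nat_lit 50, nat_lit 9]⟩, ⟨p110_k16, nat_lit 0, nat_lit 0, nat_lit 751, nat_lit 0, nat_lit 923290, [nat_lit 1045424000, nat_lit 1776864000, nat_lit 3134934000], [], [nat_lit 8636725180, nat_lit 8803512176, nat_lit 9530268187, nat_lit 9744767236, nat_lit 7131757083, nat_lit 7168489509, nat_lit 7934559948, nat_lit 8005465735], nat_lit 1271250, nat_lit 1271250, nat_lit 1271250, nat_lit 1271250, nat_lit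 0, nat_lit 2373000, [nat_lit 1100000, nat_lit 1785000, nat_lit 1271250], [nat_lit 37, nat_lit 40, nat_lit 40, nat_lit 80, nat_lit 28, nat_lit 483, nat_lit 250, nat_lit 11]⟩,
 ⟨nat_lit 0, nat_lit 3163, ⟨.ofNat (nat_lit 605128), .ofNat (nat_lit 812499), .ofNat (nat_lit 646918), .ofNat (nat_lit 856810), .ofNat (nat_lit 599865), .ofNat (nat_lit 769995), .ofNat (nat_lit 647345), .ofNat (nat_lit 819996)⟩, ⟨.ofNat (nat_lit 0), .ofNat (nat_lit 322753), .ofNat (nat_lit 0), .ofNat (nat_lit 367065), .ofNat (nat_lit 0), .ofNat (nat_lit 299993), .ofNat (nat_lit 0), .ofNat (nat_lit 349995)⟩⟩, [⟨nat_lit 13, nat_lit 46, nat_lit 76, nat_lit 100, nat_lit 264968874⟩, ⟨nat_lit 16, nat_lit 46, nat_lit 100, nat_lit 75, nat_lit 196635293⟩, ⟨nat_lit 7, nat_lit 92, nat_lit 100, nat_lit 75, nat_lit 21647274⟩]⟩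
noncomputable def b_V_900_600_10_29 : St := ⟨true, nat_lit 1, nat_lit 2, nat_lit 2, nat_lit 80, nat_lit 360, nat_lit 400, nat_lit 240, nat_lit 280, nat_lit 112, nat_lit 376, nat_lit 40, nat_lit 80, nat_lit 0, nat_lit 200, nat_lit 0, nat_lit 336, nat_lit 80, nat_lit 120, nat_lit 0, nat_lit 0, nat_lit 0, nat_lit 0⟩
theorem d_V_900_600_10_29 (h : EB TB.env) : Dead b_V_900_600_10_29 := chkB_sound0 h (T :=
(.st (nat_lit 1)
(.spl (nat_lit 5) (nat_lit 160)
(.leaf p110_l63)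
(.leaf p110_l64))
(.spl (nat_lit 2) (nat_lit 240)
(.leaf p110_l65)
(.leaf p110_l66)))) (by decide +kernel)
noncomputable def p110_l67 : Lf2 := ⟨nat_lit 0, nat_lit 20, [nat_lit 5, nat_lit 5, nat_lit 5, nat_lit 20], false, nat_lit 0, nat_lit 200, nat_lit 0, nat_lit 336, ⟨nat_lit 405, nat_lit 0, nat_lit 595, nat_lit 6, nat_lit 213, nat_lit 595, nat_lit 67, nat_lit 595, nat_lit 41667, nat_lit 265, nat_lit 23440, nat_lit 200, nat_lit 52221722, nat_lit 0, nat_lit 0, nat_lit 2638149, false, false⟩,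
 nat_lit 0, nat_lit 0, nat_lit 0, nat_lit 5190, nat_lit 4448, nat_lit 7045, nat_lit 0, nat_lit 0, nat_lit 0, nat_lit 0, nat_lit 0, nat_lit 0, nat_lit 0, nat_lit 0, nat_lit 0, nat_lit 117940, nat_lit 0, nat_lit 0, [(nat_lit 25, [(nat_lit 3, nat_lit 474), (nat_lit 4, nat_lit 121)]), (nat_lit 28, [(nat_lit 3, nat_lit 474), (nat_lit 4, nat_lit 121)])],
 ⟨p110_k12, nat_lit 0, nat_lit 0, nat_lit 187, nat_lit 0, nat_lit 0, [nat_lit 1229179441, nat_lit 1671788400], [], [nat_lit 22989509837, nat_lit 28009606241, nat_lit 25937541984, nat_lit 29952170816, nat_lit 22124313194, nat_lit 24978719434, nat_lit 23932548370, nat_lit 26918167296], nat_lit 0, nat_lit 0, nat_lit 0, nat_lit 0, nat_lit 0, nat_lit 0, [], [nat_lit 88, nat_lit 40, nat_lit 40, nat_lit 80, nat_lit 89, nat_lit 345, nat_lit 125, nat_lit 13]⟩, ⟨p110_k13, nat_lit 0, nat_lit 0, nat_lit 240, nat_lit 0, nat_lit 0, [nat_lit 1898640000, nat_lit 5693490000], [], [nat_lit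 18674292905, nat_lit 20325913645, nat_lit 18757183800, nat_lit 19924534440, nat_lit 15497449383, nat_lit 16110433270, nat_lit 14029483316, nat_lit 14375644832], nat_lit 0, nat_lit 0, nat_lit 0, nat_lit 0, nat_lit 0, nat_lit 0, [], [nat_lit 145, nat_lit 40, nat_lit 40, nat_lit 80, nat_lit 144, nat_lit 456, nat_lit 225, nat_lit 11]⟩,
 ⟨nat_lit 0, nat_lit 3163, ⟨.ofNat (nat_lit 401957), .ofNat (nat_lit 605128), .ofNat (nat_lit 443658), .ofNat (nat_lit 646918), .ofNat (nat_lit 431745), .ofNat (nat_lit 599865), .ofNat (nat_lit 479136), .ofNat (nat_lit 647345)⟩, ⟨.ofNat (nat_lit 0), .ofNat (nat_lit 322753), .ofNat (nat_lit 0), .ofNat (nat_lit 367065), .ofNat (nat_lit 0), .ofNat (nat_lit 299993), .ofNat (nat_lit 0), .ofNat (nat_lit 349995)⟩⟩, [⟨nat_lit 0, nat_lit 96, nat_lit 44, nat_lit 100, nat_lit 412991149⟩]⟩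
noncomputable def p110_l68 : Lf2 := ⟨nat_lit 0, nat_lit 20, [nat_lit 5, nat_lit 5, nat_lit 5, nat_lit 20], false, nat_lit 0, nat_lit 200, nat_lit 0, nat_lit 336, ⟨nat_lit 1000, nat_lit 0, nat_lit 0, nat_lit 0, nat_lit 0, nat_lit 0, nat_lit 0, nat_lit 0, nat_lit 0, nat_lit 0, nat_lit 0, nat_lit 0, nat_lit 0, nat_lit 0, nat_lit 0, nat_lit 0, false, false⟩,
 nat_lit 0, nat_lit 0, nat_lit 0, nat_lit 7153, nat_lit 6233, nat_lit 12847, nat_lit 0, nat_lit 0, nat_lit 0, nat_lit 0, nat_lit 0, nat_lit 0, nat_lit 0, nat_lit 0, nat_lit 0, nat_lit 0, nat_lit 0, nat_lit 0, [],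
 ⟨p110_k12, nat_lit 0, nat_lit 0, nat_lit 195, nat_lit 0, nat_lit 0, [nat_lit 938000000, nat_lit 6250000000], [], [nat_lit 33130398656, nat_lit 36228333916, nat_lit 39499687684, nat_lit 42709668705, nat_lit 29928738334, nat_lit 32371839284, nat_lit 34924017298, nat_lit 36685822075], nat_lit 0, nat_lit 0, nat_lit 0, nat_lit 0, nat_lit 0, nat_lit 0, [], [nat_lit 88, nat_lit 40, nat_lit 40, nat_lit 80, nat_lit 89, nat_lit 260, nat_lit 50, nat_lit 9]⟩, ⟨p110_k13, nat_lit 0, nat_lit 0, nat_lit 249, nat_lit 0, nat_lit 0, [nat_lit 4688000000, nat_lit 14058000000], [], [nat_lit 43679723952, nat_lit 46099424180, nat_lit 54626390415, nat_lit 55704899912, nat_lit 36886299567, nat_lit 37752469560, nat_lit 41899789364, nat_lit 42009015586], nat_lit 0, nat_lit 0, nat_lit 0, nat_lit 0, nat_lit 0, nat_lit 0, [], [nat_lit 145, nat_lit 40, nat_lit 40, nat_lit 80, nat_lit 144, nat_lit 483, nat_lit 250, nat_lit 11]⟩,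
 zbF0, [⟨nat_lit 16, nat_lit 46, nat_lit 100, nat_lit 75, nat_lit 173403932⟩]⟩
noncomputable def b_V_900_600_10_30 : St := ⟨true, nat_lit 0, nat_lit 0, nat_lit 1, nat_lit 80, nat_lit 360, nat_lit 400, nat_lit 240, nat_lit 280, nat_lit 112, nat_lit 376, nat_lit 40, nat_lit 80, nat_lit 0, nat_lit 200, nat_lit 0, nat_lit 336, nat_lit 120, nat_lit 160, nat_lit 0, nat_lit 0, nat_lit 0, nat_lit 0⟩
theorem d_V_900_600_10_30 (h : EB TB.env) : Dead b_V_900_600_10_30 := chkB_sound0 h (T :=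
(.spl (nat_lit 2) (nat_lit 240)
(.leaf p110_l67)
(.leaf p110_l68))) (by decide +kernel)
noncomputable def p110_l69 : Lf2 := ⟨nat_lit 0, nat_lit 20, [nat_lit 5, nat_lit 5, nat_lit 5, nat_lit 20], true, nat_lit 0, nat_lit 80, nat_lit 0, nat_lit 336, ⟨nat_lit 0, nat_lit 229, nat_lit 771, nat_lit 6, nat_lit 208, nat_lit 1000, nat_lit 33, nat_lit 771, nat_lit 10417, nat_lit 240, nat_lit 2400, nat_lit 203, nat_lit 52715579, nat_lit 14284421, nat_lit 0, nat_lit 2590829, false, false⟩,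
 nat_lit 0, nat_lit 0, nat_lit 0, nat_lit 5139, nat_lit 2139, nat_lit 0, nat_lit 0, nat_lit 0, nat_lit 0, nat_lit 0, nat_lit 0, nat_lit 0, nat_lit 0, nat_lit 0, nat_lit 48, nat_lit 250000, nat_lit 0, nat_lit 0, [(nat_lit 25, [(nat_lit 0, nat_lit 229), (nat_lit 4, nat_lit 771)])],
 ⟨p110_k4, nat_lit 0, nat_lit 0, nat_lit 151, nat_lit 0, nat_lit 0, [nat_lit 928244001, nat_lit 610456001, nat_lit 44695199], [], [nat_lit 18613784116, nat_lit 19930554657, nat_lit 21671110269, nat_lit 22779507950, nat_lit 18301633589, nat_lit 19542855754, nat_lit 21314157805, nat_lit 22364549548], nat_lit 0, nat_lit 0, nat_lit 0, nat_lit 0, nat_lit 0, nat_lit 0, [], [nat_lit 20, nat_lit 40, nat_lit 40, nat_lit 80, nat_lit 16, nat_lit 317, nat_lit 100, nat_lit 12]⟩, C1.Rw.none,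
 ⟨nat_lit 2236, nat_lit 3163, ⟨.ofNat (nat_lit 409856), .ofNat (nat_lit 605240), .ofNat (nat_lit 431948), .ofNat (nat_lit 627331), .ofNat (nat_lit 419758), .ofNat (nat_lit 602541), .ofNat (nat_lit 442469), .ofNat (nat_lit 625251)⟩, ⟨.ofNat (nat_lit 0), .ofNat (nat_lit 139899), .ofNat (nat_lit 0), .ofNat (nat_lit 184209), .ofNat (nat_lit 0), .ofNat (nat_lit 146758), .ofNat (nat_lit 0), .ofNat (nat_lit 192306)⟩⟩, [⟨nat_lit 3, nat_lit 100, nat_lit 74, nat_lit 33, nat_lit 77874231⟩]⟩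
noncomputable def p110_l70 : Lf2 := ⟨nat_lit 0, nat_lit 20, [nat_lit 5, nat_lit 5, nat_lit 5, nat_lit 20], false, nat_lit 0, nat_lit 80, nat_lit 0, nat_lit 320, ⟨nat_lit 175, nat_lit 62, nat_lit 763, nat_lit 6, nat_lit 223, nat_lit 825, nat_lit 33, nat_lit 763, nat_lit 10417, nat_lit 240, nat_lit 27594, nat_lit 200, nat_lit 51103906, nat_lit 15896094, nat_lit 0, nat_lit 2739475, false, false⟩,
 nat_lit 0, nat_lit 0, nat_lit 2653, nat_lit 0, nat_lit 2463, nat_lit 1544, nat_lit 0, nat_lit 0, nat_lit 0, nat_lit 0, nat_lit 0, nat_lit 0, nat_lit 0, nat_lit 0, nat_lit 10, nat_lit 206250, nat_lit 0, nat_lit 0, [(nat_lit 25, [(nat_lit 0, nat_lit 62), (nat_lit 4, nat_lit 763)])],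
 ⟨p110_k4, nat_lit 0, nat_lit 0, nat_lit 146, nat_lit 0, nat_lit 0, [nat_lit 806982000, nat_lit 503111334, nat_lit 21122266], [], [nat_lit 19577312478, nat_lit 20975293983, nat_lit 22314339622, nat_lit 23504312150, nat_lit 19135984081, nat_lit 20322417775, nat_lit 21716274134, nat_lit 22812412640], nat_lit 0, nat_lit 0, nat_lit 0, nat_lit 0, nat_lit 0, nat_lit 0, [], [nat_lit 20, nat_lit 40, nat_lit 40, nat_lit 80, nat_lit 16, nat_lit 317, nat_lit 100, nat_lit 12]⟩, ⟨p110_k5, nat_lit 0, nat_lit 0, nat_lit 431, nat_lit 0, nat_lit 391561, [nat_lit 820400000, nat_lit 1394400000, nat_lit 2077600000], [], [nat_lit 8236680547, nat_lit 8327269121, nat_lit 8205028556, nat_lit 8269937448, nat_lit 7365253280, nat_lit 7398269030, nat_lit 7861991620, nat_lit 7178444672], nat_lit 1271250, nat_lit 1271250, nat_lit 872850, nat_lit 1769250, nat_lit 0, nat_lit 2260000, [nat_lit 1100000, nat_lit 1785000, nat_lit 1271250], [nat_lit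 21, nat_lit 40, nat_lit 40, nat_lit 80, nat_lit 14, nat_lit 456, nat_lit 225, nat_lit 12]⟩,
 ⟨nat_lit 2236, nat_lit 3163, ⟨.ofNat (nat_lit 462477), .ofNat (nat_lit 627331), .ofNat (nat_lit 484568), .ofNat (nat_lit 649422), .ofNat (nat_lit 471029), .ofNat (nat_lit 625251), .ofNat (nat_lit 493740), .ofNat (nat_lit 647962)⟩, ⟨.ofNat (nat_lit 0), .ofNat (nat_lit 139899), .ofNat (nat_lit 0), .ofNat (nat_lit 184209), .ofNat (nat_lit 0), .ofNat (nat_lit 146758), .ofNat (nat_lit 0), .ofNat (nat_lit 192306)⟩⟩, [⟨nat_lit 3, nat_lit 100, nat_lit 74, nat_lit 33, nat_lit 45464678⟩, ⟨nat_lit 10, nat_lit 80, nat_lit 100, nat_lit 54, nat_lit 28416642⟩]⟩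
noncomputable def p110_l71 : Lf2 := ⟨nat_lit 1, nat_lit 20, [nat_lit 5, nat_lit 5, nat_lit 5, nat_lit 20], false, nat_lit 0, nat_lit 80, nat_lit 0, nat_lit 336, zbN0,
 nat_lit 0, nat_lit 0, nat_lit 0, nat_lit 0, nat_lit 0, nat_lit 0, nat_lit 0, nat_lit 0, nat_lit 0, nat_lit 0, nat_lit 0, nat_lit 0, nat_lit 0, nat_lit 0, nat_lit 0, nat_lit 0, nat_lit 0, nat_lit 0, [],
 C1.Rw.none, C1.Rw.none,
 zbF0, []⟩
noncomputable def p110_l72 : Lf2 := ⟨nat_lit 0, nat_lit 20, [nat_lit 5, nat_lit 5, nat_lit 5, nat_lit 20], true, nat_lit 0, nat_lit 80, nat_lit 0, nat_lit 336, ⟨nat_lit 0, nat_lit 400, nat_lit 600, nat_lit 6, nat_lit 220, nat_lit 1000, nat_lit 34, nat_lit 600, nat_lit 11267, nat_lit 241, nat_lit 2526, nat_lit 204, nat_lit 51478934, nat_lit 15521066, nat_lit 0, nat_lit 2706357, false, false⟩,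
 nat_lit 0, nat_lit 0, nat_lit 0, nat_lit 4692, nat_lit 2242, nat_lit 0, nat_lit 0, nat_lit 0, nat_lit 0, nat_lit 0, nat_lit 0, nat_lit 0, nat_lit 0, nat_lit 0, nat_lit 39, nat_lit 250000, nat_lit 0, nat_lit 0, [(nat_lit 28, [(nat_lit 0, nat_lit 400), (nat_lit 4, nat_lit 600)])],
 ⟨p110_k10, nat_lit 0, nat_lit 0, nat_lit 156, nat_lit 0, nat_lit 0, [nat_lit 925600000, nat_lit 267840001, nat_lit 78160000], [], [nat_lit 20997854391, nat_lit 22252259639, nat_lit 23273918900, nat_lit 24428805664, nat_lit 20664162102, nat_lit 21845116589, nat_lit 22886421404, nat_lit 23982996544], nat_lit 0, nat_lit 0, nat_lit 0, nat_lit 0, nat_lit 0, nat_lit 0, [], [nat_lit 20, nat_lit 40, nat_lit 40, nat_lit 80, nat_lit 16, nat_lit 317, nat_lit 100, nat_lit 12]⟩, C1.Rw.none,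
 ⟨nat_lit 0, nat_lit 2237, ⟨.ofNat (nat_lit 467180), .ofNat (nat_lit 602531), .ofNat (nat_lit 489028), .ofNat (nat_lit 624400), .ofNat (nat_lit 480752), .ofNat (nat_lit 599967), .ofNat (nat_lit 504825), .ofNat (nat_lit 624062)⟩, ⟨.ofNat (nat_lit 0), .ofNat (nat_lit 146756), .ofNat (nat_lit 0), .ofNat (nat_lit 192306), .ofNat (nat_lit 0), .ofNat (nat_lit 149997), .ofNat (nat_lit 0), .ofNat (nat_lit 199999)⟩⟩, [⟨nat_lit 3, nat_lit 100, nat_lit 44, nat_lit 64, nat_lit 109794187⟩]⟩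
noncomputable def p110_l73 : Lf2 := ⟨nat_lit 0, nat_lit 20, [nat_lit 5, nat_lit 5, nat_lit 5, nat_lit 20], false, nat_lit 0, nat_lit 80, nat_lit 0, nat_lit 320, ⟨nat_lit 78, nat_lit 359, nat_lit 563, nat_lit 6, nat_lit 234, nat_lit 922, nat_lit 34, nat_lit 563, nat_lit 11267, nat_lit 241, nat_lit 25022, nat_lit 200, nat_lit 49878096, nat_lit 17121904, nat_lit 0, nat_lit 2841756, false, false⟩,
 nat_lit 0, nat_lit 0, nat_lit 1779, nat_lit 0, nat_lit 2334, nat_lit 1035, nat_lit 0, nat_lit 0, nat_lit 0, nat_lit 5, nat_lit 0, nat_lit 0, nat_lit 0, nat_lit 0, nat_lit 15, nat_lit 230500, nat_lit 0, nat_lit 0, [(nat_lit 28, [(nat_lit 0, nat_lit 359), (nat_lit 4, nat_lit 563)])],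
 ⟨p110_k20, nat_lit 0, nat_lit 0, nat_lit 163, nat_lit 0, nat_lit 0, [nat_lit 842539201, nat_lit 152447600, nat_lit 103453600], [], [nat_lit 21715764251, nat_lit 22902357003, nat_lit 23524601774, nat_lit 24659835138, nat_lit 21294203709, nat_lit 22349327032, nat_lit 22968980153, nat_lit 24034482556], nat_lit 0, nat_lit 0, nat_lit 0, nat_lit 0, nat_lit 0, nat_lit 0, [], [nat_lit 55, nat_lit 40, nat_lit 40, nat_lit 80, nat_lit 3, nat_lit 317, nat_lit 100, nat_lit 11]⟩, ⟨p110_k21, nat_lit 0, nat_lit 0, nat_lit 641, nat_lit 0, nat_lit 770825, [nat_lit 365664000, nat_lit 767676000, nat_lit 926016000], [], [nat_lit 4227612234, nat_lit 3673578804, nat_lit 3257468976, nat_lit 3309198030, nat_lit 3747659760, nat_lit 3280205736, nat_lit 2411756856, nat_lit 2424853905], nat_lit 1271250, nat_lit 1271250, nat_lit 1271250, nat_lit 1271250, nat_lit 0, nat_lit 2260000, [nat_lit 1100000, nat_lit 2127500, nat_lit 1271250], [nat_lit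 125, nat_lit 40, nat_lit 40, nat_lit 80, nat_lit 41, nat_lit 456, nat_lit 225, nat_lit 12]⟩,
 ⟨nat_lit 0, nat_lit 2237, ⟨.ofNat (nat_lit 518456), .ofNat (nat_lit 624400), .ofNat (nat_lit 540305), .ofNat (nat_lit 646249), .ofNat (nat_lit 530746), .ofNat (nat_lit 624062), .ofNat (nat_lit 554820), .ofNat (nat_lit 648136)⟩, ⟨.ofNat (nat_lit 0), .ofNat (nat_lit 146756), .ofNat (nat_lit 0), .ofNat (nat_lit 192306), .ofNat (nat_lit 0), .ofNat (nat_lit 149997), .ofNat (nat_lit 0), .ofNat (nat_lit 199999)⟩⟩, [⟨nat_lit 3, nat_lit 100, nat_lit 44, nat_lit 64, nat_lit 108859575⟩, ⟨nat_lit 22, nat_lit 100, nat_lit 81, nat_lit 60, nat_lit 1120705⟩]⟩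
noncomputable def p110_l74 : Lf2 := ⟨nat_lit 0, nat_lit 20, [nat_lit 5, nat_lit 5, nat_lit 5, nat_lit 20], true, nat_lit 80, nat_lit 200, nat_lit 0, nat_lit 336, ⟨nat_lit 0, nat_lit 485, nat_lit 515, nat_lit 6, nat_lit 213, nat_lit 1000, nat_lit 101, nat_lit 515, nat_lit 96267, nat_lit 291, nat_lit 23440, nat_lit 200, nat_lit 48049562, nat_lit 14446882, nat_lit 4503556, nat_lit 3983771, false, false⟩,
 nat_lit 0, nat_lit 0, nat_lit 0, nat_lit 4633, nat_lit 2970, nat_lit 0, nat_lit 0, nat_lit 0, nat_lit 0, nat_lit 0, nat_lit 0, nat_lit 0, nat_lit 0, nat_lit 0, nat_lit 0, nat_lit 230565, nat_lit 0, nat_lit 0, [(nat_lit 25, [(nat_lit 0, nat_lit 485), (nat_lit 3, nat_lit 299), (nat_lit 4, nat_lit 216)]), (nat_lit 28, [(nat_lit 0, nat_lit 485), (nat_lit 3, nat_lit 299), (nat_lit 4, nat_lit 216)])],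
 ⟨p110_k4, nat_lit 0, nat_lit 0, nat_lit 117, nat_lit 0, nat_lit 0, [nat_lit 1012892000, nat_lit 521838401, nat_lit 225288400], [], [nat_lit 18798346721, nat_lit 21741710041, nat_lit 21754888000, nat_lit 24203992720, nat_lit 20844042705, nat_lit 23348862688, nat_lit 23366931080, nat_lit 25506765780], nat_lit 0, nat_lit 0, nat_lit 0, nat_lit 0, nat_lit 0, nat_lit 0, [], [nat_lit 20, nat_lit 40, nat_lit 40, nat_lit 80, nat_lit 16, nat_lit 345, nat_lit 125, nat_lit 13]⟩, C1.Rw.none,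
 ⟨nat_lit 0, nat_lit 3163, ⟨.ofNat (nat_lit 401957), .ofNat (nat_lit 605128), .ofNat (nat_lit 443658), .ofNat (nat_lit 646918), .ofNat (nat_lit 431745), .ofNat (nat_lit 599865), .ofNat (nat_lit 479136), .ofNat (nat_lit 647345)⟩, ⟨.ofNat (nat_lit 139898), .ofNat (nat_lit 322753), .ofNat (nat_lit 184209), .ofNat (nat_lit 367065), .ofNat (nat_lit 149998), .ofNat (nat_lit 299993), .ofNat (nat_lit 199999), .ofNat (nat_lit 349995)⟩⟩, [⟨nat_lit 4, nat_lit 100, nat_lit 46, nat_lit 75, nat_lit 221730264⟩]⟩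
noncomputable def b_V_900_600_10_31 : St := ⟨true, nat_lit 0, nat_lit 1, nat_lit 1, nat_lit 80, nat_lit 360, nat_lit 400, nat_lit 240, nat_lit 280, nat_lit 112, nat_lit 240, nat_lit 40, nat_lit 80, nat_lit 0, nat_lit 200, nat_lit 0, nat_lit 336, nat_lit 120, nat_lit 160, nat_lit 0, nat_lit 0, nat_lit 0, nat_lit 0⟩
theorem d_V_900_600_10_31 (h : EB TB.env) : Dead b_V_900_600_10_31 := chkB_sound0 h (T :=
(.spl (nat_lit 4) (nat_lit 80)
(.spl (nat_lit 0) (nat_lit 380)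
(.spl (nat_lit 6) (nat_lit 152)
(.spl (nat_lit 1) (nat_lit 260)
(.leaf p110_l69)
(.trZ (nat_lit 0) (nat_lit 100) (nat_lit 63) (nat_lit 99) (nat_lit 132) (.trX (nat_lit 19) (nat_lit 100) (nat_lit 85) (nat_lit 84) (nat_lit 320) (.leaf p110_l70))))
(.leaf p110_l71))
(.trZ (nat_lit 0) (nat_lit 100) (nat_lit 44) (nat_lit 99) (nat_lit 148) (.spl (nat_lit 1) (nat_lit 260)
(.leaf p110_l72)
(.trZ (nat_lit 0) (nat_lit 96) (nat_lit 44) (nat_lit 100) (nat_lit 168) (.trX (nat_lit 19) (nat_lit 100) (nat_lit 85) (nat_lit 84) (nat_lit 320) (.leaf p110_l73))))))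
(.leaf p110_l74))) (by decide +kernel)
noncomputable def p110_l75 : Lf2 := ⟨nat_lit 0, nat_lit 15, [nat_lit 30, nat_lit 5, nat_lit 5, nat_lit 20], false, nat_lit 0, nat_lit 176, nat_lit 0, nat_lit 312, ⟨nat_lit 1000, nat_lit 0, nat_lit 0, nat_lit 0, nat_lit 0, nat_lit 0, nat_lit 0, nat_lit 0, nat_lit 0, nat_lit 0, nat_lit 0, nat_lit 0, nat_lit 0, nat_lit 0, nat_lit 0, nat_lit 0, false, false⟩,
 nat_lit 0, nat_lit 0, nat_lit 24972, nat_lit 0, nat_lit 6202, nat_lit 13220, nat_lit 0, nat_lit 0, nat_lit 0, nat_lit 0, nat_lit 0, nat_lit 0, nat_lit 0, nat_lit 0, nat_lit 0, nat_lit 0, nat_lit 0, nat_lit 0, [],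
 ⟨p110_k0, nat_lit 0, nat_lit 0, nat_lit 172, nat_lit 0, nat_lit 0, [nat_lit 938000000, nat_lit 3282000000, nat_lit 6250000000], [], [nat_lit 33151527264, nat_lit 34695903484, nat_lit 38816938648, nat_lit 39954218196, nat_lit 29619579903, nat_lit 30889098300, nat_lit 34271713276, nat_lit 35218534303], nat_lit 0, nat_lit 0, nat_lit 0, nat_lit 0, nat_lit 0, nat_lit 0, [], [nat_lit 20, nat_lit 40, nat_lit 40, nat_lit 80, nat_lit 16, nat_lit 260, nat_lit 50, nat_lit 9]⟩, ⟨p110_k19, nat_lit 0, nat_lit 0, nat_lit 359, nat_lit 0, nat_lit 232108, [nat_lit 4688000000, nat_lit 7968000000, nat_lit 11872000000], [], [nat_lit 42202116640, nat_lit 42864604360, nat_lit 48055466328, nat_lit 48657318405, nat_lit 31741918216, nat_lit 31917801237, nat_lit 35938238355, nat_lit 36271795692], nat_lit 1271250, nat_lit 1271250, nat_lit 1271250, nat_lit 1271250, nat_lit 0, nat_lit 2203500, [nat_lit 1100000, nat_lit 1785000, nat_lit 1271250],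 [nat_lit 21, nat_lit 40, nat_lit 40, nat_lit 80, nat_lit 14, nat_lit 483, nat_lit 250, nat_lit 12]⟩,
 zbF0, [⟨nat_lit 4, nat_lit 100, nat_lit 55, nat_lit 69, nat_lit 111267111⟩]⟩
noncomputable def p110_l76 : Lf2 := ⟨nat_lit 0, nat_lit 15, [nat_lit 30, nat_lit 5, nat_lit 5, nat_lit 20], false, nat_lit 0, nat_lit 176, nat_lit 0, nat_lit 296, ⟨nat_lit 1000, nat_lit 0, nat_lit 0, nat_lit 0, nat_lit 0, nat_lit 0, nat_lit 0, nat_lit 0, nat_lit 0, nat_lit 0, nat_lit 0, nat_lit 0, nat_lit 0, nat_lit 0, nat_lit 0, nat_lit 0, false, false⟩,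
 nat_lit 0, nat_lit 0, nat_lit 13114, nat_lit 0, nat_lit 6507, nat_lit 7633, nat_lit 0, nat_lit 0, nat_lit 0, nat_lit 877, nat_lit 0, nat_lit 0, nat_lit 0, nat_lit 0, nat_lit 0, nat_lit 0, nat_lit 0, nat_lit 0, [],
 ⟨p110_k0, nat_lit 0, nat_lit 0, nat_lit 180, nat_lit 0, nat_lit 0, [nat_lit 938000000, nat_lit 3282000000, nat_lit 6250000000], [], [nat_lit 32943649024, nat_lit 34533198794, nat_lit 40131660920, nat_lit 41851749780, nat_lit 29088279419, nat_lit 30392482050, nat_lit 34408434620, nat_lit 35344189768], nat_lit 0, nat_lit 0, nat_lit 0, nat_lit 0, nat_lit 0, nat_lit 0, [], [nat_lit 20, nat_lit 40, nat_lit 40, nat_lit 80, nat_lit 16, nat_lit 260, nat_lit 50, nat_lit 9]⟩, ⟨p110_k1, nat_lit 0, nat_lit 0, nat_lit 394, nat_lit 0, nat_lit 329608, [nat_lit 4688000000, nat_lit 7968000000, nat_lit 11872000000], [], [nat_lit 32560718804, nat_lit 33143167162, nat_lit 37613935464, nat_lit 38254397555, nat_lit 28257731331,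 nat_lit 28554201182, nat_lit 32187958136, nat_lit 32495269361], nat_lit 1271250, nat_lit 1271250, nat_lit 1271250, nat_lit 1271250, nat_lit 0, nat_lit 2090500, [nat_lit 1100000, nat_lit 1785000, nat_lit 1271250], [nat_lit 21, nat_lit 40, nat_lit 40, nat_lit 80, nat_lit 14, nat_lit 483, nat_lit 250, nat_lit 12]⟩,
 zbF0, [⟨nat_lit 16, nat_lit 55, nat_lit 100, nat_lit 69, nat_lit 86319496⟩, ⟨nat_lit 7, nat_lit 100, nat_lit 100, nat_lit 71, nat_lit 115932756⟩]⟩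
noncomputable def p110_l77 : Lf2 := ⟨nat_lit 1, nat_lit 15, [nat_lit 30, nat_lit 5, nat_lit 5, nat_lit 20], false, nat_lit 0, nat_lit 176, nat_lit 0, nat_lit 312, zbN0,
 nat_lit 0, nat_lit 0, nat_lit 0, nat_lit 0, nat_lit 0, nat_lit 0, nat_lit 0, nat_lit 0, nat_lit 0, nat_lit 0, nat_lit 0, nat_lit 0, nat_lit 0, nat_lit 0, nat_lit 0, nat_lit 0, nat_lit 0, nat_lit 0, [],
 C1.Rw.none, C1.Rw.none,
 zbF0, []⟩
noncomputable def p110_l78 : Lf2 := ⟨nat_lit 0, nat_lit 20, [nat_lit 5, nat_lit 5, nat_lit 5, nat_lit 20], false, nat_lit 0, nat_lit 200, nat_lit 0, nat_lit 336, ⟨nat_lit 1000, nat_lit 0, nat_lit 0, nat_lit 0, nat_lit 0, nat_lit 0, nat_lit 0, nat_lit 0, nat_lit 0, nat_lit 0, nat_lit 0, nat_lit 0, nat_lit 0, nat_lit 0, nat_lit 0, nat_lit 0, false, false⟩,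
 nat_lit 0, nat_lit 0, nat_lit 23459, nat_lit 0, nat_lit 6899, nat_lit 12419, nat_lit 0, nat_lit 0, nat_lit 0, nat_lit 306, nat_lit 0, nat_lit 0, nat_lit 0, nat_lit 0, nat_lit 0, nat_lit 0, nat_lit 0, nat_lit 0, [],
 ⟨p110_k4, nat_lit 0, nat_lit 0, nat_lit 180, nat_lit 0, nat_lit 0, [nat_lit 938000000, nat_lit 3282000000, nat_lit 6250000000], [], [nat_lit 32676474368, nat_lit 34324083258, nat_lit 41240378040, nat_lit 43022843038, nat_lit 28752314602, nat_lit 30045177027, nat_lit 33931935972, nat_lit 34964135241], nat_lit 0, nat_lit 0, nat_lit 0, nat_lit 0, nat_lit 0, nat_lit 0, [], [nat_lit 20, nat_lit 40, nat_lit 40, nat_lit 80, nat_lit 16, nat_lit 260, nat_lit 50, nat_lit 9]⟩, ⟨p110_k16, nat_lit 0, nat_lit 0, nat_lit 368, nat_lit 0, nat_lit 105635, [nat_lit 4688000000, nat_lit 7968000000, nat_lit 14058000000], [], [nat_lit 46478871992, nat_lit 47177115620, nat_lit 51088357949, nat_lit 52163308883, nat_lit 34995131572,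 nat_lit 34908696579, nat_lit 38993194612, nat_lit 39439661909], nat_lit 1271250, nat_lit 1271250, nat_lit 1271250, nat_lit 1271250, nat_lit 0, nat_lit 2373000, [nat_lit 1100000, nat_lit 1785000, nat_lit 1271250], [nat_lit 37, nat_lit 40, nat_lit 40, nat_lit 80, nat_lit 28, nat_lit 483, nat_lit 250, nat_lit 11]⟩,
 zbF0, []⟩
noncomputable def p110_l79 : Lf2 := ⟨nat_lit 1, nat_lit 20, [nat_lit 5, nat_lit 5, nat_lit 5, nat_lit 20], false, nat_lit 0, nat_lit 200, nat_lit 0, nat_lit 336, zbN0,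
 nat_lit 0, nat_lit 0, nat_lit 0, nat_lit 0, nat_lit 0, nat_lit 0, nat_lit 0, nat_lit 0, nat_lit 0, nat_lit 0, nat_lit 0, nat_lit 0, nat_lit 0, nat_lit 0, nat_lit 0, nat_lit 0, nat_lit 0, nat_lit 0, [],
 C1.Rw.none, C1.Rw.none,
 zbF0, []⟩
noncomputable def p110_l80 : Lf2 := ⟨nat_lit 0, nat_lit 15, [nat_lit 30, nat_lit 5, nat_lit 5, nat_lit 20], false, nat_lit 0, nat_lit 80, nat_lit 0, nat_lit 312, ⟨nat_lit 131, nat_lit 869, nat_lit 0, nat_lit 6, nat_lit 273, nat_lit 869, nat_lit 32, nat_lit 0, nat_lit 0, nat_lit 0, nat_lit 0, nat_lit 0, nat_lit 45678661, nat_lit 21321339, nat_lit 0, nat_lit 3127635, true, true⟩,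
 nat_lit 0, nat_lit 0, nat_lit 2201, nat_lit 0, nat_lit 2747, nat_lit 1164, nat_lit 0, nat_lit 0, nat_lit 0, nat_lit 94, nat_lit 0, nat_lit 0, nat_lit 0, nat_lit 0, nat_lit 0, nat_lit 277400, nat_lit 0, nat_lit 0, [(nat_lit 28, [(nat_lit 0, nat_lit 468), (nat_lit 1, nat_lit 401)])],
 ⟨p110_k22, nat_lit 0, nat_lit 0, nat_lit 157, nat_lit 0, nat_lit 0, [nat_lit 768404401, nat_lit 1049714801, nat_lit 1337520800], [], [nat_lit 25228562673, nat_lit 25796386241, nat_lit 28835944205, nat_lit 29313516082, nat_lit 24479964507, nat_lit 25014109732, nat_lit 27887910658, nat_lit 28330334523], nat_lit 0, nat_lit 0, nat_lit 0, nat_lit 0, nat_lit 0, nat_lit 0, [], [nat_lit 35, nat_lit 40, nat_lit 40, nat_lit 80, nat_lit 22, nat_lit 226, nat_lit 20, nat_lit 9]⟩, ⟨p110_k19, nat_lit 0, nat_lit 0, nat_lit 433, nat_lit 0, nat_lit 450201, [nat_lit 614128000, nat_lit 1043808000, nat_lit 1555232000], [], [nat_lit 4825108080, nat_lit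 4873651628, nat_lit 5163142912, nat_lit 5211235050, nat_lit 4055780280, nat_lit 4069586100, nat_lit 4234035162, nat_lit 4251217245], nat_lit 1271250, nat_lit 1271250, nat_lit 1271250, nat_lit 1271250, nat_lit 0, nat_lit 2203500, [nat_lit 1100000, nat_lit 1785000, nat_lit 1271250], [nat_lit 21, nat_lit 40, nat_lit 40, nat_lit 80, nat_lit 14, nat_lit 483, nat_lit 250, nat_lit 12]⟩,
 ⟨nat_lit 1581, nat_lit 2237, ⟨.ofNat (nat_lit 602558), .ofNat (nat_lit 745101), .ofNat (nat_lit 625287), .ofNat (nat_lit 767876), .ofNat (nat_lit 601260), .ofNat (nat_lit 737854), .ofNat (nat_lit 624529), .ofNat (nat_lit 761169)⟩, ⟨.ofNat (nat_lit 0), .ofNat (nat_lit 146758), .ofNat (nat_lit 0), .ofNat (nat_lit 169532), .ofNat (nat_lit 0), .ofNat (nat_lit 149571), .ofNat (nat_lit 0), .ofNat (nat_lit 172886)⟩⟩, [⟨nat_lit 13, nat_lit 32, nat_lit 89, nat_lit 100, nat_lit 260475866⟩, ⟨nat_lit 22, nat_lit 91, nat_lit 100, nat_lit 61, nat_lit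 15682633⟩]⟩
noncomputable def p110_l81 : Lf2 := ⟨nat_lit 0, nat_lit 15, [nat_lit 30, nat_lit 5, nat_lit 5, nat_lit 20], true, nat_lit 8, nat_lit 80, nat_lit 0, nat_lit 312, ⟨nat_lit 0, nat_lit 1000, nat_lit 0, nat_lit 6, nat_lit 266, nat_lit 1000, nat_lit 36, nat_lit 0, nat_lit 0, nat_lit 0, nat_lit 0, nat_lit 0, nat_lit 45690626, nat_lit 20365173, nat_lit 944201, nat_lit 3502905, true, true⟩,
 nat_lit 0, nat_lit 0, nat_lit 0, nat_lit 2933, nat_lit 2446, nat_lit 0, nat_lit 0, nat_lit 0, nat_lit 0, nat_lit 0, nat_lit 0, nat_lit 0, nat_lit 0, nat_lit 0, nat_lit 0, nat_lit 250000, nat_lit 0, nat_lit 0, [(nat_lit 28, [(nat_lit 0, nat_lit 1000)])],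
 ⟨p110_k23, nat_lit 0, nat_lit 0, nat_lit 129, nat_lit 0, nat_lit 0, [nat_lit 781600001, nat_lit 1046000000], [], [nat_lit 24530264519, nat_lit 25109510786, nat_lit 27345439654, nat_lit 27961094473, nat_lit 24106817724, nat_lit 24655612194, nat_lit 26811460492, nat_lit 27285424402], nat_lit 0, nat_lit 0, nat_lit 0, nat_lit 0, nat_lit 0, nat_lit 0, [], [nat_lit 66, nat_lit 40, nat_lit 40, nat_lit 80, nat_lit 67, nat_lit 226, nat_lit 20, nat_lit 11]⟩, C1.Rw.none,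
 ⟨nat_lit 0, nat_lit 1582, ⟨.ofNat (nat_lit 601257), .ofNat (nat_lit 710533), .ofNat (nat_lit 623921), .ofNat (nat_lit 733849), .ofNat (nat_lit 599992), .ofNat (nat_lit 699996), .ofNat (nat_lit 624340), .ofNat (nat_lit 724997)⟩, ⟨.ofNat (nat_lit 20000), .ofNat (nat_lit 149570), .ofNat (nat_lit 20000), .ofNat (nat_lit 172886), .ofNat (nat_lit 20000), .ofNat (nat_lit 149998), .ofNat (nat_lit 20000), .ofNat (nat_lit 174999)⟩⟩, [⟨nat_lit 13, nat_lit 33, nat_lit 85, nat_lit 100, nat_lit 403210458⟩, ⟨nat_lit 3, nat_lit 100, nat_lit 52, nat_lit 53, nat_lit 166038374⟩]⟩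
noncomputable def p110_l82 : Lf2 := ⟨nat_lit 1, nat_lit 15, [nat_lit 30, nat_lit 5, nat_lit 5, nat_lit 20], false, nat_lit 0, nat_lit 80, nat_lit 0, nat_lit 312, zbN0,
 nat_lit 0, nat_lit 0, nat_lit 0, nat_lit 0, nat_lit 0, nat_lit 0, nat_lit 0, nat_lit 0, nat_lit 0, nat_lit 0, nat_lit 0, nat_lit 0, nat_lit 0, nat_lit 0, nat_lit 0, nat_lit 0, nat_lit 0, nat_lit 0, [],
 C1.Rw.none, C1.Rw.none,
 zbF0, []⟩
noncomputable def p110_l83 : Lf2 := ⟨nat_lit 0, nat_lit 20, [nat_lit 5, nat_lit 5, nat_lit 5, nat_lit 20], false, nat_lit 8, nat_lit 80, nat_lit 0, nat_lit 336, ⟨nat_lit 1000, nat_lit 0, nat_lit 0, nat_lit 0, nat_lit 0, nat_lit 0, nat_lit 0, nat_lit 0, nat_lit 0, nat_lit 0, nat_lit 0, nat_lit 0, nat_lit 0, nat_lit 0, nat_lit 0, nat_lit 0, false, false⟩,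
 nat_lit 0, nat_lit 0, nat_lit 16792, nat_lit 0, nat_lit 3701, nat_lit 8889, nat_lit 353, nat_lit 0, nat_lit 0, nat_lit 833, nat_lit 0, nat_lit 0, nat_lit 0, nat_lit 0, nat_lit 0, nat_lit 0, nat_lit 0, nat_lit 0, [],
 ⟨p110_k10, nat_lit 0, nat_lit 0, nat_lit 158, nat_lit 0, nat_lit 0, [nat_lit 938000000, nat_lit 3282000000, nat_lit 6250000000], [], [nat_lit 26656028493, nat_lit 27379874428, nat_lit 31011785761, nat_lit 31715996548, nat_lit 24902050680, nat_lit 25523141847, nat_lit 28878572576, nat_lit 29432440984], nat_lit 0, nat_lit 0, nat_lit 0, nat_lit 0, nat_lit 0, nat_lit 0, [], [nat_lit 20, nat_lit 40, nat_lit 40, nat_lit 80, nat_lit 16, nat_lit 226, nat_lit 20, nat_lit 7]⟩, ⟨p110_k16, nat_lit 0, nat_lit 0, nat_lit 384, nat_lit 0, nat_lit 167827, [nat_lit 4688000000, nat_lit 7968000000, nat_lit 14058000000], [], [nat_lit 37460881952, nat_lit 37835751586, nat_lit 40049415510, nat_lit 40239404000, nat_lit 30885182932,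 nat_lit 30960257833, nat_lit 33435214531, nat_lit 33674888831], nat_lit 1271250, nat_lit 1271250, nat_lit 1271250, nat_lit 1271250, nat_lit 0, nat_lit 2373000, [nat_lit 1100000, nat_lit 1785000, nat_lit 1271250], [nat_lit 37, nat_lit 40, nat_lit 40, nat_lit 80, nat_lit 28, nat_lit 483, nat_lit 250, nat_lit 11]⟩,
 zbF0, [⟨nat_lit 7, nat_lit 85, nat_lit 100, nat_lit 78, nat_lit 111585312⟩]⟩
noncomputable def p110_l84 : Lf2 := ⟨nat_lit 0, nat_lit 20, [nat_lit 5, nat_lit 5, nat_lit 5, nat_lit 20], false, nat_lit 20, nat_lit 80, nat_lit 0, nat_lit 336, ⟨nat_lit 206, nat_lit 794, nat_lit 0, nat_lit 6, nat_lit 266, nat_lit 794, nat_lit 47, nat_lit 0, nat_lit 0, nat_lit 0, nat_lit 0, nat_lit 0, nat_lit 45327383, nat_lit 20279515, nat_lit 1393102, nat_lit 3649092, true, true⟩,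
 nat_lit 0, nat_lit 0, nat_lit 3247, nat_lit 0, nat_lit 2983, nat_lit 1719, nat_lit 21, nat_lit 0, nat_lit 0, nat_lit 182, nat_lit 0, nat_lit 0, nat_lit 0, nat_lit 0, nat_lit 0, nat_lit 198500, nat_lit 0, nat_lit 0, [(nat_lit 28, [(nat_lit 0, nat_lit 794)])],
 ⟨p110_k11, nat_lit 0, nat_lit 0, nat_lit 136, nat_lit 0, nat_lit 0, [nat_lit 813818401, nat_lit 1506616000, nat_lit 2058589600], [], [nat_lit 25531614450, nat_lit 26153481216, nat_lit 28506235878, nat_lit 29087744425, nat_lit 24903527282, nat_lit 25470886301, nat_lit 27604606971, nat_lit 28092147133], nat_lit 0, nat_lit 0, nat_lit 0, nat_lit 0, nat_lit 0, nat_lit 0, [], [nat_lit 35, nat_lit 40, nat_lit 40, nat_lit 80, nat_lit 22, nat_lit 226, nat_lit 20, nat_lit 9]⟩, ⟨p110_k16, nat_lit 0, nat_lit 0, nat_lit 461, nat_lit 0, nat_lit 388159, [nat_lit 965728000, nat_lit 1641408000, nat_lit 2895948000], [], [nat_lit 7557091392, nat_lit 7635132442, nat_lit 7941054044,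 nat_lit 7990693546, nat_lit 6431590283, nat_lit 6478814922, nat_lit 6700829694, nat_lit 6737034362], nat_lit 1271250, nat_lit 1271250, nat_lit 1271250, nat_lit 1271250, nat_lit 0, nat_lit 2373000, [nat_lit 1100000, nat_lit 1785000, nat_lit 1271250], [nat_lit 37, nat_lit 40, nat_lit 40, nat_lit 80, nat_lit 28, nat_lit 483, nat_lit 250, nat_lit 11]⟩,
 ⟨nat_lit 0, nat_lit 1582, ⟨.ofNat (nat_lit 601257), .ofNat (nat_lit 710533), .ofNat (nat_lit 623921), .ofNat (nat_lit 733849), .ofNat (nat_lit 599992), .ofNat (nat_lit 699996), .ofNat (nat_lit 624340), .ofNat (nat_lit 724997)⟩, ⟨.ofNat (nat_lit 50000), .ofNat (nat_lit 172886), .ofNat (nat_lit 50000), .ofNat (nat_lit 196201), .ofNat (nat_lit 50000), .ofNat (nat_lit 174999), .ofNat (nat_lit 50000), .ofNat (nat_lit 199999)⟩⟩, [⟨nat_lit 13, nat_lit 23, nat_lit 92, nat_lit 100, nat_lit 295213472⟩, ⟨nat_lit 3, nat_lit 100, nat_lit 29, nat_lit 78, nat_lit 223731040⟩, ⟨nat_lit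 22, nat_lit 96, nat_lit 100, nat_lit 69, nat_lit 30551295⟩]⟩
noncomputable def p110_l85 : Lf2 := ⟨nat_lit 1, nat_lit 20, [nat_lit 5, nat_lit 5, nat_lit 5, nat_lit 20], false, nat_lit 8, nat_lit 80, nat_lit 0, nat_lit 336, zbN0,
 nat_lit 0, nat_lit 0, nat_lit 0, nat_lit 0, nat_lit 0, nat_lit 0, nat_lit 0, nat_lit 0, nat_lit 0, nat_lit 0, nat_lit 0, nat_lit 0, nat_lit 0, nat_lit 0, nat_lit 0, nat_lit 0, nat_lit 0, nat_lit 0, [],
 C1.Rw.none, C1.Rw.none,
 zbF0, []⟩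
noncomputable def p110_l86 : Lf2 := ⟨nat_lit 0, nat_lit 15, [nat_lit 30, nat_lit 5, nat_lit 5, nat_lit 20], false, nat_lit 0, nat_lit 80, nat_lit 0, nat_lit 296, ⟨nat_lit 427, nat_lit 573, nat_lit 0, nat_lit 6, nat_lit 286, nat_lit 573, nat_lit 32, nat_lit 0, nat_lit 0, nat_lit 0, nat_lit 0, nat_lit 0, nat_lit 44351671, nat_lit 22648329, nat_lit 0, nat_lit 3198615, true, true⟩,
 nat_lit 0, nat_lit 0, nat_lit 5750, nat_lit 0, nat_lit 3119, nat_lit 3346, nat_lit 22, nat_lit 0, nat_lit 0, nat_lit 330, nat_lit 0, nat_lit 0, nat_lit 0, nat_lit 0, nat_lit 0, nat_lit 229200, nat_lit 0, nat_lit 0, [(nat_lit 28, [(nat_lit 1, nat_lit 573)])],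
 ⟨p110_k22, nat_lit 0, nat_lit 0, nat_lit 162, nat_lit 0, nat_lit 0, [nat_lit 800250800, nat_lit 1587524400, nat_lit 2115000800], [], [nat_lit 26272325014, nat_lit 26884102757, nat_lit 30517062204, nat_lit 31002029334, nat_lit 25130359162, nat_lit 25694143487, nat_lit 29176001305, nat_lit 29636997944], nat_lit 0, nat_lit 0, nat_lit 0, nat_lit 0, nat_lit 0, nat_lit 0, [], [nat_lit 35, nat_lit 40, nat_lit 40, nat_lit 80, nat_lit 22, nat_lit 226, nat_lit 20, nat_lit 9]⟩, ⟨p110_k1, nat_lit 0, nat_lit 0, nat_lit 491, nat_lit 0, nat_lit 510369, [nat_lit 2001776000, nat_lit 3402336000, nat_lit 5069344000], [], [nat_lit 14974511768, nat_lit 15135220428, nat_lit 16223728357, nat_lit 16372626875, nat_lit 12832333038, nat_lit 12897936051, nat_lit 13625314287, nat_lit 13711253548], nat_lit 1271250, nat_lit 1271250, nat_lit 1271250, nat_lit 1271250, nat_lit 0, nat_lit 2090500, [nat_lit 1100000, nat_lit 1785000, nat_lit 1271250],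 [nat_lit 21, nat_lit 40, nat_lit 40, nat_lit 80, nat_lit 14, nat_lit 483, nat_lit 250, nat_lit 12]⟩,
 ⟨nat_lit 1581, nat_lit 2237, ⟨.ofNat (nat_lit 625287), .ofNat (nat_lit 784980), .ofNat (nat_lit 648016), .ofNat (nat_lit 807755), .ofNat (nat_lit 624529), .ofNat (nat_lit 777560), .ofNat (nat_lit 647799), .ofNat (nat_lit 800875)⟩, ⟨.ofNat (nat_lit 0), .ofNat (nat_lit 146758), .ofNat (nat_lit 0), .ofNat (nat_lit 169532), .ofNat (nat_lit 0), .ofNat (nat_lit 149571), .ofNat (nat_lit 0), .ofNat (nat_lit 172886)⟩⟩, [⟨nat_lit 7, nat_lit 100, nat_lit 100, nat_lit 71, nat_lit 34878213⟩, ⟨nat_lit 22, nat_lit 89, nat_lit 100, nat_lit 61, nat_lit 12509232⟩]⟩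
noncomputable def p110_l87 : Lf2 := ⟨nat_lit 1, nat_lit 15, [nat_lit 30, nat_lit 5, nat_lit 5, nat_lit 20], false, nat_lit 0, nat_lit 80, nat_lit 0, nat_lit 296, zbN0,
 nat_lit 0, nat_lit 0, nat_lit 0, nat_lit 0, nat_lit 0, nat_lit 0, nat_lit 0, nat_lit 0, nat_lit 0, nat_lit 0, nat_lit 0, nat_lit 0, nat_lit 0, nat_lit 0, nat_lit 0, nat_lit 0, nat_lit 0, nat_lit 0, [],
 C1.Rw.none, C1.Rw.none,
 zbF0, []⟩
noncomputable def p110_l88 : Lf2 := ⟨nat_lit 0, nat_lit 15, [nat_lit 30, nat_lit 5, nat_lit 5, nat_lit 20], false, nat_lit 8, nat_lit 80, nat_lit 0, nat_lit 296, ⟨nat_lit 146, nat_lit 854, nat_lit 0, nat_lit 6, nat_lit 280, nat_lit 854, nat_lit 36, nat_lit 0, nat_lit 0, nat_lit 0, nat_lit 0, nat_lit 0, nat_lit 44275615, nat_lit 21794651, nat_lit 929734, nat_lit 3579412, true, true⟩,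
 nat_lit 0, nat_lit 0, nat_lit 1917, nat_lit 0, nat_lit 2579, nat_lit 1115, nat_lit 0, nat_lit 0, nat_lit 0, nat_lit 113, nat_lit 0, nat_lit 0, nat_lit 0, nat_lit 0, nat_lit 0, nat_lit 213500, nat_lit 0, nat_lit 0, [(nat_lit 28, [(nat_lit 0, nat_lit 854)])],
 ⟨p110_k23, nat_lit 0, nat_lit 0, nat_lit 132, nat_lit 0, nat_lit 0, [nat_lit 804434400, nat_lit 1372456000], [], [nat_lit 25087436352, nat_lit 25679585547, nat_lit 28589999211, nat_lit 29081198778, nat_lit 24580576253, nat_lit 25141333408, nat_lit 27941991012, nat_lit 28409744249], nat_lit 0, nat_lit 0, nat_lit 0, nat_lit 0, nat_lit 0, nat_lit 0, [], [nat_lit 66, nat_lit 40, nat_lit 40, nat_lit 80, nat_lit 67, nat_lit 226, nat_lit 20, nat_lit 11]⟩, ⟨p110_k1, nat_lit 0, nat_lit 0, nat_lit 565, nat_lit 0, nat_lit 705006, [nat_lit 684448000, nat_lit 1163328000, nat_lit 1733312000], [], [nat_lit 5173274782, nat_lit 5228385138, nat_lit 5487261108, nat_lit 5521242662,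 nat_lit 4477138180, nat_lit 4500347894, nat_lit 4683253602, nat_lit 4715449368], nat_lit 1271250, nat_lit 1271250, nat_lit 1271250, nat_lit 1271250, nat_lit 0, nat_lit 2090500, [nat_lit 1100000, nat_lit 1785000, nat_lit 1271250], [nat_lit 21, nat_lit 40, nat_lit 40, nat_lit 80, nat_lit 14, nat_lit 483, nat_lit 250, nat_lit 12]⟩,
 ⟨nat_lit 0, nat_lit 1582, ⟨.ofNat (nat_lit 623921), .ofNat (nat_lit 755702), .ofNat (nat_lit 646579), .ofNat (nat_lit 779018), .ofNat (nat_lit 624340), .ofNat (nat_lit 744996), .ofNat (nat_lit 648683), .ofNat (nat_lit 769997)⟩, ⟨.ofNat (nat_lit 20000), .ofNat (nat_lit 149570), .ofNat (nat_lit 20000), .ofNat (nat_lit 172886), .ofNat (nat_lit 20000), .ofNat (nat_lit 149998), .ofNat (nat_lit 20000), .ofNat (nat_lit 174999)⟩⟩, [⟨nat_lit 13, nat_lit 24, nat_lit 89, nat_lit 100, nat_lit 345382107⟩, ⟨nat_lit 3, nat_lit 100, nat_lit 34, nat_lit 72, nat_lit 87626069⟩, ⟨nat_lit 22, nat_lit 92, nat_lit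 100, nat_lit 64, nat_lit 21335955⟩]⟩
noncomputable def p110_l89 : Lf2 := ⟨nat_lit 0, nat_lit 20, [nat_lit 5, nat_lit 5, nat_lit 5, nat_lit 20], false, nat_lit 8, nat_lit 80, nat_lit 0, nat_lit 320, ⟨nat_lit 1000, nat_lit 0, nat_lit 0, nat_lit 0, nat_lit 0, nat_lit 0, nat_lit 0, nat_lit 0, nat_lit 0, nat_lit 0, nat_lit 0, nat_lit 0, nat_lit 0, nat_lit 0, nat_lit 0, nat_lit 0, false, false⟩,
 nat_lit 0, nat_lit 0, nat_lit 17722, nat_lit 0, nat_lit 3844, nat_lit 10315, nat_lit 296, nat_lit 0, nat_lit 0, nat_lit 535, nat_lit 0, nat_lit 0, nat_lit 0, nat_lit 0, nat_lit 0, nat_lit 0, nat_lit 0, nat_lit 0, [],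
 ⟨p110_k10, nat_lit 0, nat_lit 0, nat_lit 162, nat_lit 0, nat_lit 0, [nat_lit 938000000, nat_lit 3282000000, nat_lit 6250000000], [], [nat_lit 27389269984, nat_lit 28127353728, nat_lit 32212790410, nat_lit 32787415588, nat_lit 25637220920, nat_lit 26269092548, nat_lit 30113112986, nat_lit 30659825622], nat_lit 0, nat_lit 0, nat_lit 0, nat_lit 0, nat_lit 0, nat_lit 0, [], [nat_lit 20, nat_lit 40, nat_lit 40, nat_lit 80, nat_lit 16, nat_lit 226, nat_lit 20, nat_lit 7]⟩, ⟨p110_k5, nat_lit 0, nat_lit 0, nat_lit 368, nat_lit 0, nat_lit 266740, [nat_lit 4688000000, nat_lit 7968000000, nat_lit 11872000000], [], [nat_lit 36234670220, nat_lit 36855540910, nat_lit 40680800214, nat_lit 41485095373, nat_lit 29082017740, nat_lit 29291962785, nat_lit 33117222089, nat_lit 33921517248], nat_lit 1271250, nat_lit 1271250, nat_lit 1271250, nat_lit 1271250, nat_lit 0, nat_lit 2260000, [nat_lit 1100000, nat_lit 1785000, nat_lit 1271250],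 [nat_lit 21, nat_lit 40, nat_lit 40, nat_lit 80, nat_lit 14, nat_lit 483, nat_lit 250, nat_lit 12]⟩,
 zbF0, [⟨nat_lit 19, nat_lit 100, nat_lit 93, nat_lit 81, nat_lit 83090485⟩]⟩
noncomputable def p110_l90 : Lf2 := ⟨nat_lit 0, nat_lit 20, [nat_lit 5, nat_lit 5, nat_lit 5, nat_lit 20], false, nat_lit 20, nat_lit 80, nat_lit 0, nat_lit 320, ⟨nat_lit 441, nat_lit 559, nat_lit 0, nat_lit 6, nat_lit 280, nat_lit 559, nat_lit 47, nat_lit 0, nat_lit 0, nat_lit 0, nat_lit 0, nat_lit 0, nat_lit 43933405, nat_lit 21695243, nat_lit 1371352, nat_lit 3723056, true, true⟩,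
 nat_lit 0, nat_lit 0, nat_lit 6259, nat_lit 0, nat_lit 3274, nat_lit 3643, nat_lit 46, nat_lit 0, nat_lit 0, nat_lit 360, nat_lit 0, nat_lit 0, nat_lit 0, nat_lit 0, nat_lit 0, nat_lit 139750, nat_lit 0, nat_lit 0, [(nat_lit 28, [(nat_lit 0, nat_lit 559)])],
 ⟨p110_k11, nat_lit 0, nat_lit 0, nat_lit 140, nat_lit 0, nat_lit 0, [nat_lit 850572401, nat_lit 2032076001, nat_lit 2836815600], [], [nat_lit 26306754392, nat_lit 26956761849, nat_lit 30065233680, nat_lit 30648068994, nat_lit 25341723043, nat_lit 25933320325, nat_lit 28835271154, nat_lit 29346500170], nat_lit 0, nat_lit 0, nat_lit 0, nat_lit 0, nat_lit 0, nat_lit 0, [], [nat_lit 35, nat_lit 40, nat_lit 40, nat_lit 80, nat_lit 22, nat_lit 226, nat_lit 20, nat_lit 9]⟩, ⟨p110_k5, nat_lit 0, nat_lit 0, nat_lit 430, nat_lit 0, nat_lit 448987, [nat_lit 2067408000, nat_lit 3513888000, nat_lit 5235552000], [], [nat_lit 14763171444, nat_lit 14928113124, nat_lit 16037309508,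 nat_lit 16205439238, nat_lit 12594587978, nat_lit 12688034256, nat_lit 13700882508, nat_lit 13869012238], nat_lit 1271250, nat_lit 1271250, nat_lit 1271250, nat_lit 1271250, nat_lit 0, nat_lit 2260000, [nat_lit 1100000, nat_lit 1785000, nat_lit 1271250], [nat_lit 21, nat_lit 40, nat_lit 40, nat_lit 80, nat_lit 14, nat_lit 483, nat_lit 250, nat_lit 12]⟩,
 ⟨nat_lit 0, nat_lit 1582, ⟨.ofNat (nat_lit 623921), .ofNat (nat_lit 755702), .ofNat (nat_lit 646579), .ofNat (nat_lit 779018), .ofNat (nat_lit 624340), .ofNat (nat_lit 744996), .ofNat (nat_lit 648683), .ofNat (nat_lit 769997)⟩, ⟨.ofNat (nat_lit 50000), .ofNat (nat_lit 172886), .ofNat (nat_lit 50000), .ofNat (nat_lit 196201), .ofNat (nat_lit 50000), .ofNat (nat_lit 174999), .ofNat (nat_lit 50000), .ofNat (nat_lit 199999)⟩⟩, [⟨nat_lit 22, nat_lit 93, nat_lit 100, nat_lit 69, nat_lit 70571878⟩]⟩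
noncomputable def p110_l91 : Lf2 := ⟨nat_lit 1, nat_lit 20, [nat_lit 5, nat_lit 5, nat_lit 5, nat_lit 20], false, nat_lit 8, nat_lit 80, nat_lit 0, nat_lit 320, zbN0,
 nat_lit 0, nat_lit 0, nat_lit 0, nat_lit 0, nat_lit 0, nat_lit 0, nat_lit 0, nat_lit 0, nat_lit 0, nat_lit 0, nat_lit 0, nat_lit 0, nat_lit 0, nat_lit 0, nat_lit 0, nat_lit 0, nat_lit 0, nat_lit 0, [],
 C1.Rw.none, C1.Rw.none,
 zbF0, []⟩
noncomputable def p110_l92 : Lf2 := ⟨nat_lit 0, nat_lit 20, [nat_lit 5, nat_lit 5, nat_lit 5, nat_lit 20], false, nat_lit 80, nat_lit 164, nat_lit 0, nat_lit 336, ⟨nat_lit 19, nat_lit 674, nat_lit 307, nat_lit 6, nat_lit 261, nat_lit 981, nat_lit 91, nat_lit 307, nat_lit 79350, nat_lit 284, nat_lit 138876, nat_lit 200, nat_lit 43995530, nat_lit 19274229, nat_lit 3730241, nat_lit 4198124, true, false⟩,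
 nat_lit 0, nat_lit 0, nat_lit 440, nat_lit 2848, nat_lit 3143, nat_lit 232, nat_lit 0, nat_lit 0, nat_lit 0, nat_lit 5, nat_lit 0, nat_lit 0, nat_lit 0, nat_lit 0, nat_lit 0, nat_lit 223760, nat_lit 0, nat_lit 0, [(nat_lit 28, [(nat_lit 0, nat_lit 674), (nat_lit 3, nat_lit 307)])],
 ⟨p110_k10, nat_lit 0, nat_lit 0, nat_lit 109, nat_lit 0, nat_lit 0, [nat_lit 1001682001, nat_lit 571664400, nat_lit 718914134], [], [nat_lit 23347500279, nat_lit 24604553958, nat_lit 24726667802, nat_lit 25988640864, nat_lit 23993609996, nat_lit 25119206402, nat_lit 25249029366, nat_lit 26294547305], nat_lit 0, nat_lit 0, nat_lit 0, nat_lit 0, nat_lit 0, nat_lit 0, [], [nat_lit 20, nat_lit 40, nat_lit 40, nat_lit 80, nat_lit 16, nat_lit 260, nat_lit 50, nat_lit 8]⟩, ⟨p110_k16, nat_lit 0, nat_lit 0, nat_lit 739, nat_lit 0, nat_lit 890147, [nat_lit 89072000, nat_lit 151392000, nat_lit 267102000], [], [nat_lit 901051276, nat_lit 914375688,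 nat_lit 914375688, nat_lit 924219236, nat_lit 688367504, nat_lit 686921876, nat_lit 686921876, nat_lit 686096174], nat_lit 1271250, nat_lit 1271250, nat_lit 1271250, nat_lit 1271250, nat_lit 0, nat_lit 2373000, [nat_lit 1100000, nat_lit 1785000, nat_lit 1271250], [nat_lit 37, nat_lit 40, nat_lit 40, nat_lit 80, nat_lit 28, nat_lit 456, nat_lit 225, nat_lit 10]⟩,
 ⟨nat_lit 0, nat_lit 2237, ⟨.ofNat (nat_lit 602531), .ofNat (nat_lit 659577), .ofNat (nat_lit 646249), .ofNat (nat_lit 705063), .ofNat (nat_lit 599967), .ofNat (nat_lit 649998), .ofNat (nat_lit 648136), .ofNat (nat_lit 699935)⟩, ⟨.ofNat (nat_lit 146756), .ofNat (nat_lit 266484), .ofNat (nat_lit 192306), .ofNat (nat_lit 312035), .ofNat (nat_lit 149997), .ofNat (nat_lit 254993), .ofNat (nat_lit 199999), .ofNat (nat_lit 304995)⟩⟩, [⟨nat_lit 4, nat_lit 100, nat_lit 35, nat_lit 80, nat_lit 171359783⟩]⟩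
noncomputable def p110_l93 : Lf2 := ⟨nat_lit 0, nat_lit 20, [nat_lit 5, nat_lit 5, nat_lit 5, nat_lit 20], false, nat_lit 80, nat_lit 164, nat_lit 0, nat_lit 336, ⟨nat_lit 33, nat_lit 967, nat_lit 0, nat_lit 7, nat_lit 279, nat_lit 967, nat_lit 92, nat_lit 0, nat_lit 0, nat_lit 0, nat_lit 0, nat_lit 0, nat_lit 42247712, nat_lit 21071666, nat_lit 3680622, nat_lit 4293006, true, true⟩,
 nat_lit 0, nat_lit 0, nat_lit 624, nat_lit 3306, nat_lit 2719, nat_lit 330, nat_lit 0, nat_lit 0, nat_lit 0, nat_lit 16, nat_lit 0, nat_lit 0, nat_lit 0, nat_lit 0, nat_lit 0, nat_lit 241750, nat_lit 0, nat_lit 0, [(nat_lit 28, [(nat_lit 0, nat_lit 967)])],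
 ⟨p110_k20, nat_lit 0, nat_lit 0, nat_lit 114, nat_lit 0, nat_lit 0, [nat_lit 786761200, nat_lit 1663610800, nat_lit 1715156800], [], [nat_lit 25732375844, nat_lit 26286046490, nat_lit 27256530658, nat_lit 27766682203, nat_lit 26393797714, nat_lit 26887136955, nat_lit 27768380774, nat_lit 28224980000], nat_lit 0, nat_lit 0, nat_lit 0, nat_lit 0, nat_lit 0, nat_lit 0, [], [nat_lit 55, nat_lit 40, nat_lit 40, nat_lit 80, nat_lit 3, nat_lit 260, nat_lit 50, nat_lit 8]⟩, ⟨p110_k24, nat_lit 0, nat_lit 0, nat_lit 561, nat_lit 0, nat_lit 525949, [nat_lit 154704000, nat_lit 324786000, nat_lit 463914000], [], [nat_lit 1430736916, nat_lit 1437792514, nat_lit 1466049292, nat_lit 1472862076, nat_lit 1139100468, nat_lit 1140830196, nat_lit 1155304709, nat_lit 1161000868], nat_lit 1271250, nat_lit 1271250, nat_lit 1271250, nat_lit 1271250, nat_lit 0, nat_lit 2373000, [nat_lit 1100000, nat_lit 2127500, nat_lit 1271250], [nat_lit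 56, nat_lit 40, nat_lit 40, nat_lit 80, nat_lit 32, nat_lit 483, nat_lit 250, nat_lit 11]⟩,
 ⟨nat_lit 1581, nat_lit 2237, ⟨.ofNat (nat_lit 659578), .ofNat (nat_lit 716594), .ofNat (nat_lit 682352), .ofNat (nat_lit 739368), .ofNat (nat_lit 655900), .ofNat (nat_lit 710536), .ofNat (nat_lit 679215), .ofNat (nat_lit 733851)⟩, ⟨.ofNat (nat_lit 146758), .ofNat (nat_lit 266490), .ofNat (nat_lit 192306), .ofNat (nat_lit 312039), .ofNat (nat_lit 149571), .ofNat (nat_lit 264306), .ofNat (nat_lit 196201), .ofNat (nat_lit 310936)⟩⟩, [⟨nat_lit 13, nat_lit 39, nat_lit 83, nat_lit 100, nat_lit 100369290⟩, ⟨nat_lit 4, nat_lit 100, nat_lit 41, nat_lit 77, nat_lit 165517377⟩, ⟨nat_lit 19, nat_lit 100, nat_lit 88, nat_lit 74, nat_lit 2090642⟩]⟩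
noncomputable def p110_l94 : Lf2 := ⟨nat_lit 0, nat_lit 20, [nat_lit 5, nat_lit 5, nat_lit 5, nat_lit 20], true, nat_lit 80, nat_lit 136, nat_lit 0, nat_lit 336, ⟨nat_lit 0, nat_lit 1000, nat_lit 0, nat_lit 7, nat_lit 276, nat_lit 1000, nat_lit 84, nat_lit 0, nat_lit 0, nat_lit 0, nat_lit 0, nat_lit 0, nat_lit 42811108, nat_lit 20942446, nat_lit 3246446, nat_lit 4187895, true, true⟩,
 nat_lit 0, nat_lit 0, nat_lit 0, nat_lit 5035, nat_lit 2783, nat_lit 0, nat_lit 0, nat_lit 0, nat_lit 0, nat_lit 0, nat_lit 0, nat_lit 0, nat_lit 0, nat_lit 0, nat_lit 0, nat_lit 250000, nat_lit 0, nat_lit 0, [(nat_lit 28, [(nat_lit 0, nat_lit 1000)])],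
 ⟨p110_k25, nat_lit 0, nat_lit 0, nat_lit 95, nat_lit 0, nat_lit 0, [nat_lit 781600001, nat_lit 1376400000], [], [nat_lit 25308073941, nat_lit 25861852691, nat_lit 26810039789, nat_lit 27353834144, nat_lit 25764819254, nat_lit 26284951435, nat_lit 27181950193, nat_lit 27662918636], nat_lit 0, nat_lit 0, nat_lit 0, nat_lit 0, nat_lit 0, nat_lit 0, [], [nat_lit 86, nat_lit 40, nat_lit 40, nat_lit 80, nat_lit 87, nat_lit 249, nat_lit 40, nat_lit 9]⟩, C1.Rw.none,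
 ⟨nat_lit 0, nat_lit 1582, ⟨.ofNat (nat_lit 655899), .ofNat (nat_lit 710533), .ofNat (nat_lit 679215), .ofNat (nat_lit 733849), .ofNat (nat_lit 649998), .ofNat (nat_lit 699996), .ofNat (nat_lit 674999), .ofNat (nat_lit 724997)⟩, ⟨.ofNat (nat_lit 149570), .ofNat (nat_lit 226057), .ofNat (nat_lit 196201), .ofNat (nat_lit 272689), .ofNat (nat_lit 149998), .ofNat (nat_lit 219995), .ofNat (nat_lit 199999), .ofNat (nat_lit 269997)⟩⟩, [⟨nat_lit 13, nat_lit 33, nat_lit 85, nat_lit 100, nat_lit 538616357⟩, ⟨nat_lit 16, nat_lit 33, nat_lit 100, nat_lit 84, nat_lit 147080071⟩]⟩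
noncomputable def p110_l95 : Lf2 := ⟨nat_lit 0, nat_lit 20, [nat_lit 5, nat_lit 5, nat_lit 5, nat_lit 20], false, nat_lit 80, nat_lit 164, nat_lit 0, nat_lit 320, ⟨nat_lit 206, nat_lit 794, nat_lit 0, nat_lit 7, nat_lit 288, nat_lit 794, nat_lit 92, nat_lit 0, nat_lit 0, nat_lit 0, nat_lit 0, nat_lit 0, nat_lit 41393295, nat_lit 21970431, nat_lit 3636274, nat_lit 4329471, true, true⟩,
 nat_lit 0, nat_lit 0, nat_lit 2799, nat_lit 0, nat_lit 2778, nat_lit 1629, nat_lit 0, nat_lit 0, nat_lit 0, nat_lit 156, nat_lit 0, nat_lit 0, nat_lit 0, nat_lit 0, nat_lit 0, nat_lit 198500, nat_lit 0, nat_lit 0, [(nat_lit 28, [(nat_lit 0, nat_lit 794)])],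
 ⟨p110_k10, nat_lit 0, nat_lit 0, nat_lit 112, nat_lit 0, nat_lit 0, [nat_lit 813818401, nat_lit 1536470401, nat_lit 2636582667], [], [nat_lit 26652484595, nat_lit 27211042447, nat_lit 28185342263, nat_lit 28699745053, nat_lit 27291706861, nat_lit 27789139885, nat_lit 28673265557, nat_lit 29133425574], nat_lit 0, nat_lit 0, nat_lit 0, nat_lit 0, nat_lit 0, nat_lit 0, [], [nat_lit 20, nat_lit 40, nat_lit 40, nat_lit 80, nat_lit 16, nat_lit 260, nat_lit 50, nat_lit 8]⟩, ⟨p110_k5, nat_lit 0, nat_lit 0, nat_lit 513, nat_lit 0, nat_lit 579489, [nat_lit 965728000, nat_lit 1641408000, nat_lit 2445632000], [], [nat_lit 7395238056, nat_lit 7460429556, nat_lit 7595931026, nat_lit 7672555412, nat_lit 6329178226, nat_lit 6364489224, nat_lit 6457883158, nat_lit 6488530728], nat_lit 1271250, nat_lit 1271250, nat_lit 1271250, nat_lit 1271250, nat_lit 0, nat_lit 2260000, [nat_lit 1100000, nat_lit 1785000, nat_lit 1271250], [nat_lit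 21, nat_lit 40, nat_lit 40, nat_lit 80, nat_lit 14, nat_lit 483, nat_lit 250, nat_lit 12]⟩,
 ⟨nat_lit 1581, nat_lit 2237, ⟨.ofNat (nat_lit 682352), .ofNat (nat_lit 739368), .ofNat (nat_lit 705117), .ofNat (nat_lit 762142), .ofNat (nat_lit 679215), .ofNat (nat_lit 733851), .ofNat (nat_lit 702521), .ofNat (nat_lit 757166)⟩, ⟨.ofNat (nat_lit 146758), .ofNat (nat_lit 266490), .ofNat (nat_lit 192306), .ofNat (nat_lit 312039), .ofNat (nat_lit 149571), .ofNat (nat_lit 264306), .ofNat (nat_lit 196201), .ofNat (nat_lit 310936)⟩⟩, [⟨nat_lit 16, nat_lit 41, nat_lit 100, nat_lit 77, nat_lit 216153955⟩, ⟨nat_lit 7, nat_lit 97, nat_lit 100, nat_lit 76, nat_lit 25803953⟩]⟩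
noncomputable def p110_l96 : Lf2 := ⟨nat_lit 0, nat_lit 20, [nat_lit 5, nat_lit 5, nat_lit 5, nat_lit 20], false, nat_lit 80, nat_lit 136, nat_lit 0, nat_lit 320, ⟨nat_lit 180, nat_lit 820, nat_lit 0, nat_lit 7, nat_lit 286, nat_lit 820, nat_lit 84, nat_lit 0, nat_lit 0, nat_lit 0, nat_lit 0, nat_lit 0, nat_lit 41899011, nat_lit 21894676, nat_lit 3206313, nat_lit 4228604, true, true⟩,
 nat_lit 0, nat_lit 0, nat_lit 2505, nat_lit 0, nat_lit 3212, nat_lit 1457, nat_lit 0, nat_lit 0, nat_lit 0, nat_lit 131, nat_lit 0, nat_lit 0, nat_lit 0, nat_lit 0, nat_lit 0, nat_lit 205000, nat_lit 0, nat_lit 0, [(nat_lit 28, [(nat_lit 0, nat_lit 820)])],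
 ⟨p110_k11, nat_lit 0, nat_lit 0, nat_lit 102, nat_lit 0, nat_lit 0, [nat_lit 809752001, nat_lit 1448480001, nat_lit 1972488000], [], [nat_lit 26019209829, nat_lit 26590258481, nat_lit 27529687817, nat_lit 28107094016, nat_lit 26326617481, nat_lit 26862088362, nat_lit 27748033537, nat_lit 28241700661], nat_lit 0, nat_lit 0, nat_lit 0, nat_lit 0, nat_lit 0, nat_lit 0, [], [nat_lit 35, nat_lit 40, nat_lit 40, nat_lit 80, nat_lit 22, nat_lit 249, nat_lit 40, nat_lit 9]⟩, ⟨p110_k5, nat_lit 0, nat_lit 0, nat_lit 584, nat_lit 0, nat_lit 770825, [nat_lit 843840000, nat_lit 1434240000, nat_lit 2136960000], [], [nat_lit 6565714368, nat_lit 6595736318, nat_lit 6693929834, nat_lit 6769315134, nat_lit 5580015686, nat_lit 5603446504, nat_lit 5673108900, nat_lit 5688913996], nat_lit 1271250, nat_lit 1271250, nat_lit 1271250, nat_lit 1271250, nat_lit 0, nat_lit 2260000, [nat_lit 1100000, nat_lit 1785000, nat_lit 1271250], [nat_lit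 21, nat_lit 40, nat_lit 40, nat_lit 80, nat_lit 14, nat_lit 483, nat_lit 250, nat_lit 12]⟩,
 ⟨nat_lit 0, nat_lit 1582, ⟨.ofNat (nat_lit 679215), .ofNat (nat_lit 733849), .ofNat (nat_lit 702515), .ofNat (nat_lit 757165), .ofNat (nat_lit 674999), .ofNat (nat_lit 724997), .ofNat (nat_lit 699984), .ofNat (nat_lit 749998)⟩, ⟨.ofNat (nat_lit 149570), .ofNat (nat_lit 226057), .ofNat (nat_lit 196201), .ofNat (nat_lit 272689), .ofNat (nat_lit 149998), .ofNat (nat_lit 219995), .ofNat (nat_lit 199999), .ofNat (nat_lit 269997)⟩⟩, [⟨nat_lit 13, nat_lit 24, nat_lit 89, nat_lit 100, nat_lit 417160243⟩, ⟨nat_lit 4, nat_lit 100, nat_lit 26, nat_lit 84, nat_lit 306744181⟩, ⟨nat_lit 19, nat_lit 100, nat_lit 97, nat_lit 76, nat_lit 21654820⟩]⟩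
noncomputable def p110_l97 : Lf2 := ⟨nat_lit 0, nat_lit 20, [nat_lit 5, nat_lit 5, nat_lit 5, nat_lit 20], false, nat_lit 80, nat_lit 164, nat_lit 0, nat_lit 336, ⟨nat_lit 85, nat_lit 915, nat_lit 0, nat_lit 8, nat_lit 293, nat_lit 915, nat_lit 91, nat_lit 0, nat_lit 0, nat_lit 0, nat_lit 0, nat_lit 0, nat_lit 40923913, nat_lit 22497989, nat_lit 3578098, nat_lit 4341793, true, true⟩,
 nat_lit 0, nat_lit 0, nat_lit 1388, nat_lit 2957, nat_lit 3132, nat_lit 734, nat_lit 0, nat_lit 0, nat_lit 0, nat_lit 61, nat_lit 0, nat_lit 0, nat_lit 0, nat_lit 0, nat_lit 0, nat_lit 228750, nat_lit 0, nat_lit 0, [(nat_lit 28, [(nat_lit 0, nat_lit 915)])],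
 ⟨p110_k10, nat_lit 0, nat_lit 0, nat_lit 121, nat_lit 0, nat_lit 0, [nat_lit 794894001, nat_lit 1270464000, nat_lit 2097810000], [], [nat_lit 27690884024, nat_lit 28770704544, nat_lit 28562666132, nat_lit 29594546712, nat_lit 28027509485, nat_lit 29008863847, nat_lit 28822489079, nat_lit 29762412716], nat_lit 0, nat_lit 0, nat_lit 0, nat_lit 0, nat_lit 0, nat_lit 0, [], [nat_lit 20, nat_lit 40, nat_lit 40, nat_lit 80, nat_lit 16, nat_lit 260, nat_lit 50, nat_lit 8]⟩, ⟨p110_k16, nat_lit 0, nat_lit 0, nat_lit 636, nat_lit 0, nat_lit 758620, [nat_lit 398480000, nat_lit 677280000, nat_lit 1194930000], [], [nat_lit 3547909140, nat_lit 3567876284, nat_lit 3608452820, nat_lit 3625132125, nat_lit 2911842330, nat_lit 2916207272, nat_lit 2949075663, nat_lit 2969877083], nat_lit 1271250, nat_lit 1271250, nat_lit 1271250, nat_lit 1271250, nat_lit 0, nat_lit 2373000, [nat_lit 1100000, nat_lit 1785000, nat_lit 1271250], [nat_lit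 37, nat_lit 40, nat_lit 40, nat_lit 80, nat_lit 28, nat_lit 483, nat_lit 250, nat_lit 11]⟩,
 ⟨nat_lit 0, nat_lit 2237, ⟨.ofNat (nat_lit 716590), .ofNat (nat_lit 745097), .ofNat (nat_lit 739366), .ofNat (nat_lit 767872), .ofNat (nat_lit 699995), .ofNat (nat_lit 724995), .ofNat (nat_lit 724997), .ofNat (nat_lit 749995)⟩, ⟨.ofNat (nat_lit 146756), .ofNat (nat_lit 266484), .ofNat (nat_lit 192306), .ofNat (nat_lit 312035), .ofNat (nat_lit 149997), .ofNat (nat_lit 254993), .ofNat (nat_lit 199999), .ofNat (nat_lit 304995)⟩⟩, [⟨nat_lit 13, nat_lit 32, nat_lit 87, nat_lit 100, nat_lit 348389738⟩, ⟨nat_lit 13, nat_lit 46, nat_lit 76, nat_lit 100, nat_lit 170786873⟩, ⟨nat_lit 4, nat_lit 100, nat_lit 35, nat_lit 80, nat_lit 185576852⟩, ⟨nat_lit 22, nat_lit 83, nat_lit 97, nat_lit 100, nat_lit 7540257⟩]⟩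
noncomputable def p110_l98 : Lf2 := ⟨nat_lit 0, nat_lit 20, [nat_lit 5, nat_lit 5, nat_lit 5, nat_lit 20], false, nat_lit 80, nat_lit 164, nat_lit 0, nat_lit 320, ⟨nat_lit 310, nat_lit 690, nat_lit 0, nat_lit 8, nat_lit 303, nat_lit 690, nat_lit 91, nat_lit 0, nat_lit 0, nat_lit 0, nat_lit 0, nat_lit 0, nat_lit 40076320, nat_lit 23392205, nat_lit 3531475, nat_lit 4370772, true, true⟩,
 nat_lit 0, nat_lit 0, nat_lit 4247, nat_lit 0, nat_lit 3639, nat_lit 2471, nat_lit 0, nat_lit 0, nat_lit 0, nat_lit 237, nat_lit 0, nat_lit 0, nat_lit 0, nat_lit 0, nat_lit 0, nat_lit 172500, nat_lit 0, nat_lit 0, [(nat_lit 28, [(nat_lit 0, nat_lit 690)])],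
 ⟨p110_k10, nat_lit 0, nat_lit 0, nat_lit 123, nat_lit 0, nat_lit 0, [nat_lit 830084001, nat_lit 1765104000, nat_lit 3099660000], [], [nat_lit 28756201298, nat_lit 29909085588, nat_lit 30043821326, nat_lit 31121927409, nat_lit 28887611502, nat_lit 29932273443, nat_lit 30057737855, nat_lit 31036929848], nat_lit 0, nat_lit 0, nat_lit 0, nat_lit 0, nat_lit 0, nat_lit 0, [], [nat_lit 20, nat_lit 40, nat_lit 40, nat_lit 80, nat_lit 16, nat_lit 260, nat_lit 50, nat_lit 8]⟩, ⟨p110_k5, nat_lit 0, nat_lit 0, nat_lit 559, nat_lit 0, nat_lit 710747, [nat_lit 1453280000, nat_lit 2470080000, nat_lit 3680320000], [], [nat_lit 11368116382, nat_lit 11433090832, nat_lit 11744068041, nat_lit 11799289276, nat_lit 9639608074, nat_lit 9662629286, nat_lit 9972338666, nat_lit 10027559901], nat_lit 1271250, nat_lit 1271250, nat_lit 1271250, nat_lit 1271250, nat_lit 0, nat_lit 2260000, [nat_lit 1100000, nat_lit 1785000, nat_lit 1271250],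 [nat_lit 21, nat_lit 40, nat_lit 40, nat_lit 80, nat_lit 14, nat_lit 373, nat_lit 150, nat_lit 9]⟩,
 ⟨nat_lit 0, nat_lit 2237, ⟨.ofNat (nat_lit 739366), .ofNat (nat_lit 779275), .ofNat (nat_lit 750753), .ofNat (nat_lit 790663), .ofNat (nat_lit 724997), .ofNat (nat_lit 759995), .ofNat (nat_lit 737497), .ofNat (nat_lit 772496)⟩, ⟨.ofNat (nat_lit 146756), .ofNat (nat_lit 266484), .ofNat (nat_lit 192306), .ofNat (nat_lit 312035), .ofNat (nat_lit 149997), .ofNat (nat_lit 254993), .ofNat (nat_lit 199999), .ofNat (nat_lit 304995)⟩⟩, [⟨nat_lit 13, nat_lit 33, nat_lit 84, nat_lit 100, nat_lit 947235908⟩, ⟨nat_lit 4, nat_lit 100, nat_lit 35, nat_lit 80, nat_lit 261318339⟩, ⟨nat_lit 19, nat_lit 100, nat_lit 95, nat_lit 76, nat_lit 39320952⟩]⟩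
noncomputable def p110_l99 : Lf2 := ⟨nat_lit 0, nat_lit 20, [nat_lit 5, nat_lit 5, nat_lit 5, nat_lit 20], false, nat_lit 80, nat_lit 164, nat_lit 0, nat_lit 308, ⟨nat_lit 278, nat_lit 722, nat_lit 0, nat_lit 8, nat_lit 309, nat_lit 722, nat_lit 91, nat_lit 0, nat_lit 0, nat_lit 0, nat_lit 0, nat_lit 0, nat_lit 39549507, nat_lit 23948929, nat_lit 3501564, nat_lit 4386530, true, true⟩,
 nat_lit 0, nat_lit 0, nat_lit 3405, nat_lit 0, nat_lit 3492, nat_lit 2073, nat_lit 0, nat_lit 0, nat_lit 0, nat_lit 220, nat_lit 0, nat_lit 0, nat_lit 0, nat_lit 0, nat_lit 0, nat_lit 180500, nat_lit 0, nat_lit 0, [(nat_lit 28, [(nat_lit 0, nat_lit 722)])],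
 ⟨p110_k10, nat_lit 0, nat_lit 0, nat_lit 124, nat_lit 0, nat_lit 0, [nat_lit 825079201, nat_lit 1694755200, nat_lit 2957174667], [], [nat_lit 28595314211, nat_lit 29727014331, nat_lit 30044637328, nat_lit 31093415624, nat_lit 28859135672, nat_lit 29812531186, nat_lit 30104671543, nat_lit 31058530990], nat_lit 0, nat_lit 0, nat_lit 0, nat_lit 0, nat_lit 0, nat_lit 0, [], [nat_lit 20, nat_lit 40, nat_lit 40, nat_lit 80, nat_lit 16, nat_lit 260, nat_lit 50, nat_lit 8]⟩, ⟨p110_k7, nat_lit 0, nat_lit 0, nat_lit 561, nat_lit 0, nat_lit 720357, [nat_lit 1303264000, nat_lit 2215104000, nat_lit 3300416000], [], [nat_lit 9909829398, nat_lit 9968318348, nat_lit 10274917987, nat_lit 10323947856, nat_lit 8473055044, nat_lit 8497797941, nat_lit 8813480031, nat_lit 8865528846], nat_lit 1271250, nat_lit 1271250, nat_lit 1271250, nat_lit 1271250, nat_lit 0, nat_lit 2175250, [nat_lit 1100000, nat_lit 1785000, nat_lit 1271250],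 [nat_lit 21, nat_lit 40, nat_lit 40, nat_lit 80, nat_lit 14, nat_lit 373, nat_lit 150, nat_lit 9]⟩,
 ⟨nat_lit 0, nat_lit 2237, ⟨.ofNat (nat_lit 750753), .ofNat (nat_lit 796364), .ofNat (nat_lit 762141), .ofNat (nat_lit 807752), .ofNat (nat_lit 737497), .ofNat (nat_lit 777495), .ofNat (nat_lit 749998), .ofNat (nat_lit 789996)⟩, ⟨.ofNat (nat_lit 146756), .ofNat (nat_lit 266484), .ofNat (nat_lit 192306), .ofNat (nat_lit 312035), .ofNat (nat_lit 149997), .ofNat (nat_lit 254993), .ofNat (nat_lit 199999), .ofNat (nat_lit 304995)⟩⟩, [⟨nat_lit 13, nat_lit 34, nat_lit 82, nat_lit 100, nat_lit 530769627⟩, ⟨nat_lit 16, nat_lit 35, nat_lit 100, nat_lit 80, nat_lit 273982637⟩, ⟨nat_lit 19, nat_lit 100, nat_lit 99, nat_lit 77, nat_lit 34939187⟩]⟩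
noncomputable def b_V_900_600_10_32 : St := ⟨true, nat_lit 0, nat_lit 1, nat_lit 1, nat_lit 80, nat_lit 360, nat_lit 400, nat_lit 240, nat_lit 280, nat_lit 240, nat_lit 376, nat_lit 40, nat_lit 80, nat_lit 0, nat_lit 200, nat_lit 0, nat_lit 336, nat_lit 120, nat_lit 160, nat_lit 0, nat_lit 0, nat_lit 0, nat_lit 0⟩
theorem d_V_900_600_10_32 (h : EB TB.env) : Dead b_V_900_600_10_32 := chkB_sound0 h (T :=
(.spl (nat_lit 0) (nat_lit 380)
(.spl (nat_lit 6) (nat_lit 152)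
(.spl (nat_lit 3) (nat_lit 60)
(.trX (nat_lit 16) (nat_lit 61) (nat_lit 100) (nat_lit 72) (nat_lit 176) (.trX (nat_lit 19) (nat_lit 100) (nat_lit 85) (nat_lit 73) (nat_lit 312) (.spl (nat_lit 6) (nat_lit 140)
(.spl (nat_lit 1) (nat_lit 260)
(.trX (nat_lit 13) (nat_lit 63) (nat_lit 61) (nat_lit 100) (nat_lit 364) (.leaf p110_l75))
(.trX (nat_lit 19) (nat_lit 100) (nat_lit 92) (nat_lit 75) (nat_lit 296) (.leaf p110_l76)))
(.leaf p110_l77))))
(.leaf p110_l78))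
(.leaf p110_l79))
(.trX (nat_lit 13) (nat_lit 48) (nat_lit 71) (nat_lit 100) (nat_lit 352) (.trX (nat_lit 16) (nat_lit 44) (nat_lit 100) (nat_lit 82) (nat_lit 164) (.spl (nat_lit 4) (nat_lit 80)
(.spl (nat_lit 1) (nat_lit 260)
(.trX (nat_lit 13) (nat_lit 46) (nat_lit 76) (nat_lit 100) (nat_lit 340) (.spl (nat_lit 3) (nat_lit 60)
(.trX (nat_lit 19) (nat_lit 100) (nat_lit 85) (nat_lit 73) (nat_lit 312) (.spl (nat_lit 6) (nat_lit 148)
(.spl (nat_lit 0) (nat_lit 390)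
(.leaf p110_l80)
(.trX (nat_lit 13) (nat_lit 33) (nat_lit 85) (nat_lit 100) (nat_lit 320) (.trZ (nat_lit 3) (nat_lit 100) (nat_lit 52) (nat_lit 53) (nat_lit 8) (.leaf p110_l81))))
(.leaf p110_l82)))
(.trZ (nat_lit 3) (nat_lit 100) (nat_lit 61) (nat_lit 47) (nat_lit 8) (.spl (nat_lit 6) (nat_lit 148)
(.spl (nat_lit 0) (nat_lit 390)
(.leaf p110_l83)
(.trX (nat_lit 13) (nat_lit 33) (nat_lit 85) (nat_lit 100) (nat_lit 320) (.trZ (nat_lit 3) (nat_lit 100) (nat_lit 44) (nat_lit 64) (nat_lit 20) (.leaf p110_l84))))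
(.leaf p110_l85)))))
(.trX (nat_lit 19) (nat_lit 100) (nat_lit 85) (nat_lit 84) (nat_lit 320) (.spl (nat_lit 3) (nat_lit 60)
(.trX (nat_lit 19) (nat_lit 100) (nat_lit 92) (nat_lit 75) (nat_lit 296) (.spl (nat_lit 0) (nat_lit 390)
(.spl (nat_lit 6) (nat_lit 148)
(.leaf p110_l86)
(.leaf p110_l87))
(.trX (nat_lit 13) (nat_lit 34) (nat_lit 81) (nat_lit 100) (nat_lit 336) (.trZ (nat_lit 3) (nat_lit 100) (nat_lit 52) (nat_lit 53) (nat_lit 8) (.leaf p110_l88)))))
(.trZ (nat_lit 3) (nat_lit 100) (nat_lit 61) (nat_lit 47) (nat_lit 8) (.spl (nat_lit 6) (nat_lit 152)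
(.spl (nat_lit 0) (nat_lit 390)
(.leaf p110_l89)
(.trX (nat_lit 13) (nat_lit 34) (nat_lit 81) (nat_lit 100) (nat_lit 336) (.trZ (nat_lit 3) (nat_lit 100) (nat_lit 44) (nat_lit 64) (nat_lit 20) (.leaf p110_l90))))
(.leaf p110_l91))))))
(.spl (nat_lit 2) (nat_lit 320)
(.spl (nat_lit 2) (nat_lit 280)
(.leaf p110_l92)
(.spl (nat_lit 1) (nat_lit 260)
(.spl (nat_lit 0) (nat_lit 390)
(.leaf p110_l93)
(.trX (nat_lit 16) (nat_lit 33) (nat_lit 100) (nat_lit 84) (nat_lit 136) (.leaf p110_l94)))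
(.trX (nat_lit 19) (nat_lit 100) (nat_lit 85) (nat_lit 84) (nat_lit 320) (.spl (nat_lit 0) (nat_lit 390)
(.leaf p110_l95)
(.trX (nat_lit 16) (nat_lit 33) (nat_lit 100) (nat_lit 84) (nat_lit 136) (.leaf p110_l96))))))
(.spl (nat_lit 1) (nat_lit 260)
(.trX (nat_lit 13) (nat_lit 46) (nat_lit 76) (nat_lit 100) (nat_lit 340) (.leaf p110_l97))
(.trX (nat_lit 19) (nat_lit 100) (nat_lit 85) (nat_lit 84) (nat_lit 320) (.spl (nat_lit 1) (nat_lit 270)
(.trX (nat_lit 13) (nat_lit 47) (nat_lit 74) (nat_lit 100) (nat_lit 348) (.leaf p110_l98))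
(.trX (nat_lit 19) (nat_lit 100) (nat_lit 90) (nat_lit 85) (nat_lit 308) (.leaf p110_l99))))))))))) (by decide +kernel)
noncomputable def p110_l100 : Lf2 := ⟨nat_lit 0, nat_lit 20, [nat_lit 5, nat_lit 5, nat_lit 5, nat_lit 20], false, nat_lit 0, nat_lit 200, nat_lit 0, nat_lit 160, ⟨nat_lit 1000, nat_lit 0, nat_lit 0, nat_lit 0, nat_lit 0, nat_lit 0, nat_lit 0, nat_lit 0, nat_lit 0, nat_lit 0, nat_lit 0, nat_lit 0, nat_lit 0, nat_lit 0, nat_lit 0, nat_lit 0, false, false⟩,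
 nat_lit 0, nat_lit 6190, nat_lit 0, nat_lit 41, nat_lit 5391, nat_lit 6571, nat_lit 334, nat_lit 0, nat_lit 0, nat_lit 0, nat_lit 0, nat_lit 0, nat_lit 0, nat_lit 0, nat_lit 0, nat_lit 0, nat_lit 0, nat_lit 0, [],
 ⟨p110_k4, nat_lit 0, nat_lit 0, nat_lit 314, nat_lit 0, nat_lit 374528, [nat_lit 938000000, nat_lit 3282000000, nat_lit 6250000000], [], [nat_lit 27881974199, nat_lit 30659616688, nat_lit 36975211160, nat_lit 40060226790, nat_lit 26195910177, nat_lit 28405024711, nat_lit 34852197425, nat_lit 34222512739], nat_lit 1271250, nat_lit 1271250, nat_lit 719601, nat_lit 2861300, nat_lit 0, nat_lit 1412500, [nat_lit 230000, nat_lit 780000, nat_lit 1435000], [nat_lit 20, nat_lit 40, nat_lit 40, nat_lit 80, nat_lit 16, nat_lit 373, nat_lit 150, nat_lit 14]⟩, ⟨p110_k16, nat_lit 0, nat_lit 0, nat_lit 271, nat_lit 0, nat_lit 0, [nat_lit 4688000000, nat_lit 7968000000, nat_lit 14058000000], [], [nat_lit 37995042376,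 nat_lit 40297660421, nat_lit 47560648700, nat_lit 48586977022, nat_lit 33885999977, nat_lit 35556524622, nat_lit 41433341287, nat_lit 42325696614], nat_lit 0, nat_lit 0, nat_lit 0, nat_lit 0, nat_lit 0, nat_lit 0, [], [nat_lit 37, nat_lit 40, nat_lit 40, nat_lit 80, nat_lit 28, nat_lit 456, nat_lit 225, nat_lit 11]⟩,
 zbF0, [⟨nat_lit 0, nat_lit 96, nat_lit 44, nat_lit 100, nat_lit 238736125⟩, ⟨nat_lit 4, nat_lit 100, nat_lit 46, nat_lit 75, nat_lit 289430230⟩]⟩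
noncomputable def p110_l101 : Lf2 := ⟨nat_lit 0, nat_lit 20, [nat_lit 5, nat_lit 5, nat_lit 5, nat_lit 20], false, nat_lit 0, nat_lit 200, nat_lit 160, nat_lit 336, ⟨nat_lit 1000, nat_lit 0, nat_lit 0, nat_lit 0, nat_lit 0, nat_lit 0, nat_lit 0, nat_lit 0, nat_lit 0, nat_lit 0, nat_lit 0, nat_lit 0, nat_lit 0, nat_lit 0, nat_lit 0, nat_lit 0, false, false⟩,
 nat_lit 0, nat_lit 6196, nat_lit 0, nat_lit 3452, nat_lit 5396, nat_lit 6792, nat_lit 333, nat_lit 0, nat_lit 0, nat_lit 0, nat_lit 0, nat_lit 0, nat_lit 0, nat_lit 0, nat_lit 0, nat_lit 0, nat_lit 0, nat_lit 0, [],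
 ⟨p110_k4, nat_lit 0, nat_lit 0, nat_lit 314, nat_lit 0, nat_lit 374528, [nat_lit 938000000, nat_lit 3282000000, nat_lit 6250000000], [], [nat_lit 27898043808, nat_lit 30677129981, nat_lit 36989352960, nat_lit 40075959818, nat_lit 26206283674, nat_lit 28406263433, nat_lit 34851486214, nat_lit 34229749751], nat_lit 1271250, nat_lit 1271250, nat_lit 719601, nat_lit 2861300, nat_lit 0, nat_lit 1412500, [nat_lit 230000, nat_lit 780000, nat_lit 1435000], [nat_lit 20, nat_lit 40, nat_lit 40, nat_lit 80, nat_lit 16, nat_lit 373, nat_lit 150, nat_lit 14]⟩, ⟨p110_k16, nat_lit 0, nat_lit 0, nat_lit 85, nat_lit 0, nat_lit 0, [nat_lit 4688000000, nat_lit 7968000000, nat_lit 14058000000], [], [nat_lit 8782495540, nat_lit 12491734900, nat_lit 25805210368, nat_lit 27816267207, nat_lit 21440780450, nat_lit 24051351061, nat_lit 32375178595, nat_lit 33536323990], nat_lit 0, nat_lit 0, nat_lit 0, nat_lit 0, nat_lit 0, nat_lit 0,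 [], [nat_lit 37, nat_lit 40, nat_lit 40, nat_lit 80, nat_lit 28, nat_lit 483, nat_lit 250, nat_lit 11]⟩,
 zbF0, [⟨nat_lit 0, nat_lit 96, nat_lit 44, nat_lit 100, nat_lit 167418244⟩, ⟨nat_lit 4, nat_lit 100, nat_lit 46, nat_lit 75, nat_lit 288253166⟩, ⟨nat_lit 19, nat_lit 100, nat_lit 92, nat_lit 75, nat_lit 426895717⟩, ⟨nat_lit 19, nat_lit 100, nat_lit 76, nat_lit 82, nat_lit 115704291⟩]⟩
noncomputable def p110_l102 : Lf2 := ⟨nat_lit 0, nat_lit 20, [nat_lit 5, nat_lit 5, nat_lit 5, nat_lit 20], true, nat_lit 0, nat_lit 80, nat_lit 0, nat_lit 336, ⟨nat_lit 0, nat_lit 235, nat_lit 765, nat_lit 6, nat_lit 208, nat_lit 1000, nat_lit 33, nat_lit 765, nat_lit 10417, nat_lit 240, nat_lit 2400, nat_lit 203, nat_lit 52715579, nat_lit 14284421, nat_lit 0, nat_lit 2590829, false, false⟩,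
 nat_lit 0, nat_lit 2569, nat_lit 0, nat_lit 1770, nat_lit 2237, nat_lit 0, nat_lit 0, nat_lit 0, nat_lit 0, nat_lit 0, nat_lit 0, nat_lit 0, nat_lit 0, nat_lit 0, nat_lit 47, nat_lit 250000, nat_lit 0, nat_lit 0, [(nat_lit 25, [(nat_lit 0, nat_lit 235), (nat_lit 4, nat_lit 765)])],
 ⟨p110_k4, nat_lit 0, nat_lit 0, nat_lit 212, nat_lit 0, nat_lit 126840, [nat_lit 924460001, nat_lit 608840001, nat_lit 47867999], [], [nat_lit 19160676923, nat_lit 20274246011, nat_lit 21895607330, nat_lit 22998738850, nat_lit 18848682870, nat_lit 19899917129, nat_lit 21572218066, nat_lit 22615704927], nat_lit 1271250, nat_lit 1271250, nat_lit 719601, nat_lit 1758000, nat_lit 0, nat_lit 490000, [nat_lit 230000, nat_lit 780000, nat_lit 1435000], [nat_lit 20, nat_lit 40, nat_lit 40, nat_lit 80, nat_lit 16, nat_lit 317, nat_lit 100, nat_lit 12]⟩, C1.Rw.none,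
 ⟨nat_lit 2236, nat_lit 3163, ⟨.ofNat (nat_lit 409856), .ofNat (nat_lit 605240), .ofNat (nat_lit 431948), .ofNat (nat_lit 627331), .ofNat (nat_lit 419758), .ofNat (nat_lit 602541), .ofNat (nat_lit 442469), .ofNat (nat_lit 625251)⟩, ⟨.ofNat (nat_lit 0), .ofNat (nat_lit 139899), .ofNat (nat_lit 0), .ofNat (nat_lit 184209), .ofNat (nat_lit 0), .ofNat (nat_lit 146758), .ofNat (nat_lit 0), .ofNat (nat_lit 192306)⟩⟩, [⟨nat_lit 3, nat_lit 100, nat_lit 74, nat_lit 33, nat_lit 74442891⟩]⟩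
noncomputable def p110_l103 : Lf2 := ⟨nat_lit 0, nat_lit 20, [nat_lit 5, nat_lit 5, nat_lit 5, nat_lit 20], false, nat_lit 0, nat_lit 80, nat_lit 0, nat_lit 336, ⟨nat_lit 145, nat_lit 129, nat_lit 726, nat_lit 6, nat_lit 220, nat_lit 855, nat_lit 34, nat_lit 725, nat_lit 11267, nat_lit 241, nat_lit 2526, nat_lit 204, nat_lit 51478934, nat_lit 15521066, nat_lit 0, nat_lit 2706357, false, false⟩,
 nat_lit 2567, nat_lit 0, nat_lit 0, nat_lit 0, nat_lit 2398, nat_lit 1359, nat_lit 0, nat_lit 0, nat_lit 0, nat_lit 0, nat_lit 0, nat_lit 0, nat_lit 0, nat_lit 0, nat_lit 35, nat_lit 213750, nat_lit 0, nat_lit 0, [(nat_lit 28, [(nat_lit 0, nat_lit 129), (nat_lit 4, nat_lit 726)])],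
 ⟨p110_k10, nat_lit 0, nat_lit 0, nat_lit 231, nat_lit 0, nat_lit 189937, [nat_lit 929758000, nat_lit 269018400, nat_lit 203081600], [], [nat_lit 21740723228, nat_lit 22812100531, nat_lit 23701410624, nat_lit 24819397216, nat_lit 21355212190, nat_lit 22365475393, nat_lit 23299433964, nat_lit 24333314784], nat_lit 1271250, nat_lit 1271250, nat_lit 1000851, nat_lit 1778250, nat_lit 0, nat_lit 490000, [nat_lit 230000, nat_lit 780000, nat_lit 1435000], [nat_lit 20, nat_lit 40, nat_lit 40, nat_lit 80, nat_lit 16, nat_lit 317, nat_lit 100, nat_lit 12]⟩, ⟨p110_k16, nat_lit 0, nat_lit 0, nat_lit 549, nat_lit 0, nat_lit 399085, [nat_lit 679760000, nat_lit 1155360000, nat_lit 2038410000], [], [nat_lit 7842337298, nat_lit 7916156191, nat_lit 7814547412, nat_lit 7868392236, nat_lit 6934307340, nat_lit 6954642592, nat_lit 7385816575, nat_lit 6781376319], nat_lit 1271250, nat_lit 1271250, nat_lit 1000851, nat_lit 1778250, nat_lit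 0, nat_lit 2373000, [nat_lit 1100000, nat_lit 1785000, nat_lit 1271250], [nat_lit 37, nat_lit 40, nat_lit 40, nat_lit 80, nat_lit 28, nat_lit 456, nat_lit 225, nat_lit 11]⟩,
 ⟨nat_lit 0, nat_lit 2237, ⟨.ofNat (nat_lit 467180), .ofNat (nat_lit 602531), .ofNat (nat_lit 489028), .ofNat (nat_lit 624400), .ofNat (nat_lit 480752), .ofNat (nat_lit 599967), .ofNat (nat_lit 504825), .ofNat (nat_lit 624062)⟩, ⟨.ofNat (nat_lit 0), .ofNat (nat_lit 146756), .ofNat (nat_lit 0), .ofNat (nat_lit 192306), .ofNat (nat_lit 0), .ofNat (nat_lit 149997), .ofNat (nat_lit 0), .ofNat (nat_lit 199999)⟩⟩, [⟨nat_lit 3, nat_lit 100, nat_lit 44, nat_lit 64, nat_lit 131707897⟩, ⟨nat_lit 22, nat_lit 100, nat_lit 78, nat_lit 60, nat_lit 18795684⟩]⟩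
noncomputable def p110_l104 : Lf2 := ⟨nat_lit 0, nat_lit 20, [nat_lit 5, nat_lit 5, nat_lit 5, nat_lit 20], false, nat_lit 0, nat_lit 80, nat_lit 0, nat_lit 320, ⟨nat_lit 201, nat_lit 0, nat_lit 799, nat_lit 6, nat_lit 223, nat_lit 799, nat_lit 34, nat_lit 799, nat_lit 10417, nat_lit 240, nat_lit 23440, nat_lit 200, nat_lit 51107569, nat_lit 0, nat_lit 0, nat_lit 2739156, false, false⟩,
 nat_lit 3170, nat_lit 0, nat_lit 0, nat_lit 0, nat_lit 2587, nat_lit 1845, nat_lit 0, nat_lit 0, nat_lit 0, nat_lit 0, nat_lit 0, nat_lit 0, nat_lit 0, nat_lit 0, nat_lit 12, nat_lit 199750, nat_lit 0, nat_lit 0, [(nat_lit 25, [(nat_lit 4, nat_lit 799)]), (nat_lit 28, [(nat_lit 4, nat_lit 799)])],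
 ⟨p110_k4, nat_lit 0, nat_lit 0, nat_lit 247, nat_lit 0, nat_lit 243279, [nat_lit 845056401, nat_lit 514550534, nat_lit 26907066], [], [nat_lit 21016029590, nat_lit 23214621593, nat_lit 23333426775, nat_lit 25292613904, nat_lit 20679658471, nat_lit 22728818963, nat_lit 22900349427, nat_lit 24685058919], nat_lit 1271250, nat_lit 1271250, nat_lit 872850, nat_lit 1769250, nat_lit 0, nat_lit 490000, [nat_lit 230000, nat_lit 780000, nat_lit 1435000], [nat_lit 20, nat_lit 40, nat_lit 40, nat_lit 80, nat_lit 16, nat_lit 317, nat_lit 100, nat_lit 12]⟩, ⟨p110_k5, nat_lit 0, nat_lit 0, nat_lit 483, nat_lit 0, nat_lit 411362, [nat_lit 942288000, nat_lit 1601568000, nat_lit 2386272000], [], [nat_lit 9340466146, nat_lit 9445081857, nat_lit 9285763812, nat_lit 9359920188, nat_lit 8254399543, nat_lit 8290782643, nat_lit 9041808012, nat_lit 8217093012], nat_lit 1271250, nat_lit 1271250, nat_lit 872850, nat_lit 1769250, nat_lit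 0, nat_lit 2260000, [nat_lit 1100000, nat_lit 1785000, nat_lit 1271250], [nat_lit 21, nat_lit 40, nat_lit 40, nat_lit 80, nat_lit 14, nat_lit 456, nat_lit 225, nat_lit 12]⟩,
 ⟨nat_lit 0, nat_lit 3163, ⟨.ofNat (nat_lit 454567), .ofNat (nat_lit 626068), .ofNat (nat_lit 475417), .ofNat (nat_lit 646918), .ofNat (nat_lit 481723), .ofNat (nat_lit 623650), .ofNat (nat_lit 505418), .ofNat (nat_lit 647345)⟩, ⟨.ofNat (nat_lit 0), .ofNat (nat_lit 139898), .ofNat (nat_lit 0), .ofNat (nat_lit 184209), .ofNat (nat_lit 0), .ofNat (nat_lit 149998), .ofNat (nat_lit 0), .ofNat (nat_lit 199999)⟩⟩, [⟨nat_lit 0, nat_lit 94, nat_lit 44, nat_lit 100, nat_lit 22641434⟩, ⟨nat_lit 3, nat_lit 100, nat_lit 61, nat_lit 47, nat_lit 51230826⟩, ⟨nat_lit 7, nat_lit 97, nat_lit 100, nat_lit 76, nat_lit 6316566⟩, ⟨nat_lit 10, nat_lit 80, nat_lit 100, nat_lit 54, nat_lit 26982226⟩]⟩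
noncomputable def p110_l105 : Lf2 := ⟨nat_lit 0, nat_lit 20, [nat_lit 5, nat_lit 5, nat_lit 5, nat_lit 20], false, nat_lit 80, nat_lit 200, nat_lit 0, nat_lit 336, ⟨nat_lit 130, nat_lit 145, nat_lit 725, nat_lit 6, nat_lit 213, nat_lit 870, nat_lit 102, nat_lit 725, nat_lit 96267, nat_lit 291, nat_lit 27594, nat_lit 200, nat_lit 47997780, nat_lit 14431154, nat_lit 4571066, nat_lit 3996137, false, false⟩,
 nat_lit 3222, nat_lit 0, nat_lit 0, nat_lit 1208, nat_lit 2806, nat_lit 1705, nat_lit 0, nat_lit 0, nat_lit 0, nat_lit 0, nat_lit 0, nat_lit 0, nat_lit 0, nat_lit 0, nat_lit 11, nat_lit 216200, nat_lit 0, nat_lit 0, [(nat_lit 25, [(nat_lit 0, nat_lit 145), (nat_lit 3, nat_lit 20), (nat_lit 4, nat_lit 705)])],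
 ⟨p110_k4, nat_lit 0, nat_lit 0, nat_lit 133, nat_lit 0, nat_lit 127750, [nat_lit 821352000, nat_lit 497748001, nat_lit 16391999], [], [nat_lit 18319615148, nat_lit 19755055217, nat_lit 21293287415, nat_lit 22473885088, nat_lit 20438471835, nat_lit 21630877284, nat_lit 22985806615, nat_lit 24039515520], nat_lit 1271250, nat_lit 1271250, nat_lit 719601, nat_lit 1758000, nat_lit 490000, nat_lit 1427500, [nat_lit 230000, nat_lit 780000, nat_lit 1435000], [nat_lit 20, nat_lit 40, nat_lit 40, nat_lit 80, nat_lit 16, nat_lit 345, nat_lit 125, nat_lit 13]⟩, ⟨p110_k16, nat_lit 0, nat_lit 0, nat_lit 446, nat_lit 0, nat_lit 245900, [nat_lit 609440000, nat_lit 1035840000, nat_lit 1827540000], [], [nat_lit 8619944684, nat_lit 7282915513, nat_lit 6798163440, nat_lit 6887614460, nat_lit 5704239124, nat_lit 5722986086, nat_lit 6835025988, nat_lit 5318365744], nat_lit 1271250, nat_lit 1271250, nat_lit 719601, nat_lit 1758000,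 nat_lit 0, nat_lit 2373000, [nat_lit 1100000, nat_lit 1785000, nat_lit 1271250], [nat_lit 37, nat_lit 40, nat_lit 40, nat_lit 80, nat_lit 28, nat_lit 456, nat_lit 225, nat_lit 11]⟩,
 ⟨nat_lit 2236, nat_lit 3163, ⟨.ofNat (nat_lit 409856), .ofNat (nat_lit 605240), .ofNat (nat_lit 454039), .ofNat (nat_lit 649422), .ofNat (nat_lit 419758), .ofNat (nat_lit 602541), .ofNat (nat_lit 465180), .ofNat (nat_lit 647962)⟩, ⟨.ofNat (nat_lit 139899), .ofNat (nat_lit 322759), .ofNat (nat_lit 184209), .ofNat (nat_lit 367069), .ofNat (nat_lit 146758), .ofNat (nat_lit 317804), .ofNat (nat_lit 192306), .ofNat (nat_lit 363353)⟩⟩, [⟨nat_lit 4, nat_lit 100, nat_lit 54, nat_lit 73, nat_lit 228409889⟩, ⟨nat_lit 19, nat_lit 100, nat_lit 92, nat_lit 75, nat_lit 1713579⟩]⟩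
noncomputable def p110_l106 : Lf2 := ⟨nat_lit 0, nat_lit 20, [nat_lit 5, nat_lit 5, nat_lit 5, nat_lit 20], false, nat_lit 80, nat_lit 164, nat_lit 0, nat_lit 336, ⟨nat_lit 134, nat_lit 179, nat_lit 687, nat_lit 6, nat_lit 224, nat_lit 866, nat_lit 91, nat_lit 687, nat_lit 79350, nat_lit 284, nat_lit 25022, nat_lit 200, nat_lit 47485910, nat_lit 15648104, nat_lit 3865986, nat_lit 3956415, false, false⟩,
 nat_lit 2982, nat_lit 0, nat_lit 0, nat_lit 0, nat_lit 2786, nat_lit 1578, nat_lit 0, nat_lit 0, nat_lit 0, nat_lit 0, nat_lit 0, nat_lit 0, nat_lit 0, nat_lit 0, nat_lit 29, nat_lit 216500, nat_lit 0, nat_lit 0, [(nat_lit 28, [(nat_lit 0, nat_lit 179), (nat_lit 4, nat_lit 687)])],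
 ⟨p110_k10, nat_lit 0, nat_lit 0, nat_lit 167, nat_lit 0, nat_lit 222867, [nat_lit 904817601, nat_lit 256280400, nat_lit 178541600], [], [nat_lit 20537410441, nat_lit 21659433762, nat_lit 22450056128, nat_lit 23938521936, nat_lit 21377858693, nat_lit 22415366449, nat_lit 23274852807, nat_lit 24504629666], nat_lit 1271250, nat_lit 1271250, nat_lit 1000851, nat_lit 1778250, nat_lit 490000, nat_lit 1133651, [nat_lit 230000, nat_lit 780000, nat_lit 1435000], [nat_lit 20, nat_lit 40, nat_lit 40, nat_lit 80, nat_lit 16, nat_lit 345, nat_lit 125, nat_lit 12]⟩, ⟨p110_k16, nat_lit 0, nat_lit 0, nat_lit 573, nat_lit 0, nat_lit 468277, [nat_lit 628192000, nat_lit 1067712000, nat_lit 1883772000], [], [nat_lit 7180955424, nat_lit 7320404317, nat_lit 7084045304, nat_lit 7178866648, nat_lit 5918127192, nat_lit 5938664344, nat_lit 7065069853, nat_lit 5661380783], nat_lit 1271250, nat_lit 1271250, nat_lit 1000851, nat_lit 1778250,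 nat_lit 0, nat_lit 2373000, [nat_lit 1100000, nat_lit 1785000, nat_lit 1271250], [nat_lit 37, nat_lit 40, nat_lit 40, nat_lit 80, nat_lit 28, nat_lit 456, nat_lit 225, nat_lit 11]⟩,
 ⟨nat_lit 0, nat_lit 2237, ⟨.ofNat (nat_lit 467180), .ofNat (nat_lit 602531), .ofNat (nat_lit 510875), .ofNat (nat_lit 646249), .ofNat (nat_lit 480752), .ofNat (nat_lit 599967), .ofNat (nat_lit 528899), .ofNat (nat_lit 648136)⟩, ⟨.ofNat (nat_lit 146756), .ofNat (nat_lit 266484), .ofNat (nat_lit 192306), .ofNat (nat_lit 312035), .ofNat (nat_lit 149997), .ofNat (nat_lit 254993), .ofNat (nat_lit 199999), .ofNat (nat_lit 304995)⟩⟩, [⟨nat_lit 4, nat_lit 100, nat_lit 35, nat_lit 80, nat_lit 261087957⟩, ⟨nat_lit 7, nat_lit 92, nat_lit 100, nat_lit 75, nat_lit 3727231⟩]⟩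
noncomputable def p110_l107 : Lf2 := ⟨nat_lit 0, nat_lit 15, [nat_lit 30, nat_lit 5, nat_lit 5, nat_lit 20], false, nat_lit 0, nat_lit 176, nat_lit 0, nat_lit 312, ⟨nat_lit 1000, nat_lit 0, nat_lit 0, nat_lit 0, nat_lit 0, nat_lit 0, nat_lit 0, nat_lit 0, nat_lit 0, nat_lit 0, nat_lit 0, nat_lit 0, nat_lit 0, nat_lit 0, nat_lit 0, nat_lit 0, false, false⟩,
 nat_lit 24433, nat_lit 0, nat_lit 0, nat_lit 0, nat_lit 6095, nat_lit 12935, nat_lit 0, nat_lit 0, nat_lit 0, nat_lit 0, nat_lit 0, nat_lit 0, nat_lit 0, nat_lit 0, nat_lit 0, nat_lit 0, nat_lit 0, nat_lit 0, [],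
 ⟨p110_k0, nat_lit 0, nat_lit 0, nat_lit 217, nat_lit 0, nat_lit 105817, [nat_lit 938000000, nat_lit 3282000000, nat_lit 6250000000], [], [nat_lit 33224455040, nat_lit 34752983490, nat_lit 39533173660, nat_lit 40621406705, nat_lit 29815654436, nat_lit 31063321051, nat_lit 34999662860, nat_lit 35907748813], nat_lit 1271250, nat_lit 1271250, nat_lit 1271250, nat_lit 1271250, nat_lit 0, nat_lit 1236400, [nat_lit 230000, nat_lit 780000, nat_lit 1435000], [nat_lit 20, nat_lit 40, nat_lit 40, nat_lit 80, nat_lit 16, nat_lit 260, nat_lit 50, nat_lit 9]⟩, ⟨p110_k19, nat_lit 0, nat_lit 0, nat_lit 352, nat_lit 0, nat_lit 201720, [nat_lit 4688000000, nat_lit 7968000000, nat_lit 11872000000], [], [nat_lit 42401128720, nat_lit 43717938340, nat_lit 49048837776, nat_lit 50516447500, nat_lit 32287948918, nat_lit 32649347388, nat_lit 36919350329, nat_lit 38207708359], nat_lit 1271250, nat_lit 1271250, nat_lit 1271250, nat_lit 1271250,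 nat_lit 0, nat_lit 2203500, [nat_lit 1100000, nat_lit 1785000, nat_lit 1271250], [nat_lit 21, nat_lit 40, nat_lit 40, nat_lit 80, nat_lit 14, nat_lit 483, nat_lit 250, nat_lit 12]⟩,
 zbF0, [⟨nat_lit 4, nat_lit 100, nat_lit 55, nat_lit 69, nat_lit 43435509⟩]⟩
noncomputable def p110_l108 : Lf2 := ⟨nat_lit 0, nat_lit 20, [nat_lit 5, nat_lit 5, nat_lit 5, nat_lit 20], false, nat_lit 0, nat_lit 200, nat_lit 0, nat_lit 336, ⟨nat_lit 1000, nat_lit 0, nat_lit 0, nat_lit 0, nat_lit 0, nat_lit 0, nat_lit 0, nat_lit 0, nat_lit 0, nat_lit 0, nat_lit 0, nat_lit 0, nat_lit 0, nat_lit 0, nat_lit 0, nat_lit 0, false, false⟩,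
 nat_lit 16533, nat_lit 0, nat_lit 0, nat_lit 0, nat_lit 7039, nat_lit 8752, nat_lit 0, nat_lit 0, nat_lit 0, nat_lit 0, nat_lit 0, nat_lit 0, nat_lit 0, nat_lit 0, nat_lit 0, nat_lit 0, nat_lit 0, nat_lit 0, [],
 ⟨p110_k4, nat_lit 0, nat_lit 0, nat_lit 196, nat_lit 0, nat_lit 29401, [nat_lit 938000000, nat_lit 3282000000, nat_lit 6250000000], [], [nat_lit 32581054848, nat_lit 34249399138, nat_lit 41636348440, nat_lit 43441090630, nat_lit 28505018322, nat_lit 29812871247, nat_lit 33723390348, nat_lit 35149889957], nat_lit 1271250, nat_lit 1271250, nat_lit 1271250, nat_lit 1271250, nat_lit 0, nat_lit 1412500, [nat_lit 230000, nat_lit 780000, nat_lit 1435000], [nat_lit 20, nat_lit 40, nat_lit 40, nat_lit 80, nat_lit 16, nat_lit 260, nat_lit 50, nat_lit 9]⟩, ⟨p110_k16, nat_lit 0, nat_lit 0, nat_lit 289, nat_lit 0, nat_lit 56442, [nat_lit 4688000000, nat_lit 7968000000, nat_lit 14058000000], [], [nat_lit 42885569760,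 nat_lit 44239546752, nat_lit 50016095271, nat_lit 51060557300, nat_lit 39274892001, nat_lit 39785452781, nat_lit 43330936827, nat_lit 43663136127], nat_lit 1271250, nat_lit 1271250, nat_lit 1271250, nat_lit 1271250, nat_lit 0, nat_lit 2373000, [nat_lit 1100000, nat_lit 1785000, nat_lit 1271250], [nat_lit 37, nat_lit 40, nat_lit 40, nat_lit 80, nat_lit 28, nat_lit 483, nat_lit 250, nat_lit 11]⟩,
 zbF0, [⟨nat_lit 19, nat_lit 100, nat_lit 89, nat_lit 80, nat_lit 99132764⟩]⟩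
noncomputable def p110_l109 : Lf2 := ⟨nat_lit 1, nat_lit 20, [nat_lit 5, nat_lit 5, nat_lit 5, nat_lit 20], false, nat_lit 0, nat_lit 200, nat_lit 0, nat_lit 336, zbN0,
 nat_lit 0, nat_lit 0, nat_lit 0, nat_lit 0, nat_lit 0, nat_lit 0, nat_lit 0, nat_lit 0, nat_lit 0, nat_lit 0, nat_lit 0, nat_lit 0, nat_lit 0, nat_lit 0, nat_lit 0, nat_lit 0, nat_lit 0, nat_lit 0, [],
 C1.Rw.none, C1.Rw.none,
 zbF0, []⟩
noncomputable def p110_l110 : Lf2 := ⟨nat_lit 0, nat_lit 15, [nat_lit 30, nat_lit 5, nat_lit 5, nat_lit 20], false, nat_lit 0, nat_lit 140, nat_lit 0, nat_lit 312, ⟨nat_lit 1000, nat_lit 0, nat_lit 0, nat_lit 0, nat_lit 0, nat_lit 0, nat_lit 0, nat_lit 0, nat_lit 0, nat_lit 0, nat_lit 0, nat_lit 0, nat_lit 0, nat_lit 0, nat_lit 0, nat_lit 0, false, false⟩,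
 nat_lit 23622, nat_lit 0, nat_lit 0, nat_lit 0, nat_lit 5670, nat_lit 12505, nat_lit 0, nat_lit 0, nat_lit 0, nat_lit 95, nat_lit 0, nat_lit 0, nat_lit 0, nat_lit 0, nat_lit 0, nat_lit 0, nat_lit 0, nat_lit 0, [],
 ⟨p110_k22, nat_lit 0, nat_lit 0, nat_lit 197, nat_lit 0, nat_lit 149302, [nat_lit 938000000, nat_lit 3282000000, nat_lit 4688000000], [], [nat_lit 30703563020, nat_lit 31845168070, nat_lit 37527879505, nat_lit 38386610461, nat_lit 27820507470, nat_lit 28468970610, nat_lit 32045742845, nat_lit 32606225905], nat_lit 1271250, nat_lit 1271250, nat_lit 1271250, nat_lit 1271250, nat_lit 0, nat_lit 936251, [nat_lit 230000, nat_lit 780000, nat_lit 1100000], [nat_lit 35, nat_lit 40, nat_lit 40, nat_lit 80, nat_lit 22, nat_lit 249, nat_lit 40, nat_lit 10]⟩, ⟨p110_k19, nat_lit 0, nat_lit 0, nat_lit 385, nat_lit 0, nat_lit 311327, [nat_lit 4688000000, nat_lit 7968000000, nat_lit 11872000000], [], [nat_lit 41435517560,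 nat_lit 42740006820, nat_lit 46409239612, nat_lit 47007563092, nat_lit 31845909714, nat_lit 32221841324, nat_lit 34908506115, nat_lit 35551698914], nat_lit 1271250, nat_lit 1271250, nat_lit 1271250, nat_lit 1271250, nat_lit 0, nat_lit 2203500, [nat_lit 1100000, nat_lit 1785000, nat_lit 1271250], [nat_lit 21, nat_lit 40, nat_lit 40, nat_lit 80, nat_lit 14, nat_lit 483, nat_lit 250, nat_lit 12]⟩,
 zbF0, []⟩
noncomputable def p110_l111 : Lf2 := ⟨nat_lit 0, nat_lit 15, [nat_lit 30, nat_lit 5, nat_lit 5, nat_lit 20], false, nat_lit 8, nat_lit 112, nat_lit 0, nat_lit 312, ⟨nat_lit 739, nat_lit 261, nat_lit 0, nat_lit 6, nat_lit 275, nat_lit 261, nat_lit 45, nat_lit 0, nat_lit 0, nat_lit 0, nat_lit 0, nat_lit 0, nat_lit 44498570, nat_lit 21228035, nat_lit 1273395, nat_lit 3665862, true, true⟩,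
 nat_lit 9944, nat_lit 0, nat_lit 0, nat_lit 0, nat_lit 3753, nat_lit 5264, nat_lit 53, nat_lit 0, nat_lit 0, nat_lit 611, nat_lit 0, nat_lit 0, nat_lit 0, nat_lit 0, nat_lit 0, nat_lit 65250, nat_lit 0, nat_lit 0, [(nat_lit 28, [(nat_lit 0, nat_lit 261)])],
 ⟨p110_k23, nat_lit 0, nat_lit 0, nat_lit 182, nat_lit 0, nat_lit 192598, [nat_lit 897179600, nat_lit 2698404000], [], [nat_lit 27266465882, nat_lit 27931947278, nat_lit 31631849980, nat_lit 32348822026, nat_lit 26216176126, nat_lit 26790146307, nat_lit 29582069911, nat_lit 30080059872], nat_lit 1271250, nat_lit 1271250, nat_lit 1271250, nat_lit 1271250, nat_lit 43600, nat_lit 719601, [nat_lit 230000, nat_lit 780000], [nat_lit 66, nat_lit 40, nat_lit 40, nat_lit 80, nat_lit 67, nat_lit 238, nat_lit 30, nat_lit 12]⟩, ⟨p110_k19, nat_lit 0, nat_lit 0, nat_lit 421, nat_lit 0, nat_lit 418763, [nat_lit 3464432000, nat_lit 5888352000, nat_lit 8773408000], [], [nat_lit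 26191981644, nat_lit 27042044616, nat_lit 28637591290, nat_lit 29212601509, nat_lit 23947930668, nat_lit 24361307810, nat_lit 25510698225, nat_lit 25966504201], nat_lit 1271250, nat_lit 1271250, nat_lit 1271250, nat_lit 1271250, nat_lit 0, nat_lit 2203500, [nat_lit 1100000, nat_lit 1785000, nat_lit 1271250], [nat_lit 21, nat_lit 40, nat_lit 40, nat_lit 80, nat_lit 14, nat_lit 483, nat_lit 250, nat_lit 12]⟩,
 ⟨nat_lit 0, nat_lit 1582, ⟨.ofNat (nat_lit 601257), .ofNat (nat_lit 732386), .ofNat (nat_lit 646579), .ofNat (nat_lit 779018), .ofNat (nat_lit 599992), .ofNat (nat_lit 719995), .ofNat (nat_lit 648683), .ofNat (nat_lit 769997)⟩, ⟨.ofNat (nat_lit 20000), .ofNat (nat_lit 193277), .ofNat (nat_lit 20000), .ofNat (nat_lit 216593), .ofNat (nat_lit 20000), .ofNat (nat_lit 189996), .ofNat (nat_lit 20000), .ofNat (nat_lit 214997)⟩⟩, [⟨nat_lit 4, nat_lit 100, nat_lit 27, nat_lit 82, nat_lit 172543407⟩, ⟨nat_lit 7, nat_lit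 96, nat_lit 100, nat_lit 69, nat_lit 121155778⟩]⟩
noncomputable def p110_l112 : Lf2 := ⟨nat_lit 0, nat_lit 20, [nat_lit 5, nat_lit 5, nat_lit 5, nat_lit 20], false, nat_lit 8, nat_lit 164, nat_lit 0, nat_lit 336, ⟨nat_lit 1000, nat_lit 0, nat_lit 0, nat_lit 0, nat_lit 0, nat_lit 0, nat_lit 0, nat_lit 0, nat_lit 0, nat_lit 0, nat_lit 0, nat_lit 0, nat_lit 0, nat_lit 0, nat_lit 0, nat_lit 0, false, false⟩,
 nat_lit 6748, nat_lit 0, nat_lit 9785, nat_lit 0, nat_lit 6305, nat_lit 8752, nat_lit 0, nat_lit 0, nat_lit 0, nat_lit 815, nat_lit 0, nat_lit 0, nat_lit 0, nat_lit 0, nat_lit 0, nat_lit 0, nat_lit 0, nat_lit 0, [],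
 ⟨p110_k10, nat_lit 0, nat_lit 0, nat_lit 202, nat_lit 0, nat_lit 77586, [nat_lit 938000000, nat_lit 3282000000, nat_lit 6250000000], [], [nat_lit 32321688680, nat_lit 33304802135, nat_lit 38746078816, nat_lit 39657420335, nat_lit 27962510671, nat_lit 28791971784, nat_lit 32971564400, nat_lit 33601388296], nat_lit 1271250, nat_lit 1271250, nat_lit 1271250, nat_lit 1271250, nat_lit 43600, nat_lit 1133651, [nat_lit 230000, nat_lit 780000, nat_lit 1435000], [nat_lit 20, nat_lit 40, nat_lit 40, nat_lit 80, nat_lit 16, nat_lit 260, nat_lit 50, nat_lit 9]⟩, ⟨p110_k16, nat_lit 0, nat_lit 0, nat_lit 384, nat_lit 0, nat_lit 162536, [nat_lit 4688000000, nat_lit 7968000000, nat_lit 14058000000], [], [nat_lit 37878990136, nat_lit 38630727960, nat_lit 40891690809, nat_lit 41231465682, nat_lit 31493773176, nat_lit 31649021400, nat_lit 34142557068, nat_lit 34577215703], nat_lit 1271250, nat_lit 1271250, nat_lit 1271250, nat_lit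 1271250, nat_lit 0, nat_lit 2373000, [nat_lit 1100000, nat_lit 1785000, nat_lit 1271250], [nat_lit 37, nat_lit 40, nat_lit 40, nat_lit 80, nat_lit 28, nat_lit 483, nat_lit 250, nat_lit 11]⟩,
 zbF0, [⟨nat_lit 16, nat_lit 40, nat_lit 100, nat_lit 80, nat_lit 14902889⟩, ⟨nat_lit 7, nat_lit 89, nat_lit 100, nat_lit 80, nat_lit 106866568⟩]⟩
noncomputable def p110_l113 : Lf2 := ⟨nat_lit 0, nat_lit 20, [nat_lit 5, nat_lit 5, nat_lit 5, nat_lit 20], false, nat_lit 20, nat_lit 136, nat_lit 0, nat_lit 336, ⟨nat_lit 1000, nat_lit 0, nat_lit 0, nat_lit 0, nat_lit 0, nat_lit 0, nat_lit 0, nat_lit 0, nat_lit 0, nat_lit 0, nat_lit 0, nat_lit 0, nat_lit 0, nat_lit 0, nat_lit 0, nat_lit 0, false, false⟩,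
 nat_lit 16533, nat_lit 0, nat_lit 0, nat_lit 0, nat_lit 3808, nat_lit 8752, nat_lit 198, nat_lit 0, nat_lit 0, nat_lit 815, nat_lit 0, nat_lit 0, nat_lit 0, nat_lit 0, nat_lit 0, nat_lit 0, nat_lit 0, nat_lit 0, [],
 ⟨p110_k11, nat_lit 0, nat_lit 0, nat_lit 180, nat_lit 0, nat_lit 123743, [nat_lit 938000000, nat_lit 3282000000, nat_lit 4688000000], [], [nat_lit 26979411572, nat_lit 27617487554, nat_lit 31329021773, nat_lit 32046586631, nat_lit 26194289447, nat_lit 26741377766, nat_lit 29327723497, nat_lit 29791415444], nat_lit 1271250, nat_lit 1271250, nat_lit 1271250, nat_lit 1271250, nat_lit 111251, nat_lit 904401, [nat_lit 230000, nat_lit 780000, nat_lit 1100000], [nat_lit 35, nat_lit 40, nat_lit 40, nat_lit 80, nat_lit 22, nat_lit 249, nat_lit 40, nat_lit 10]⟩, ⟨p110_k16, nat_lit 0, nat_lit 0, nat_lit 419, nat_lit 0, nat_lit 270367, [nat_lit 4688000000, nat_lit 7968000000, nat_lit 14058000000], [], [nat_lit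 37878990136, nat_lit 38630727960, nat_lit 40319189305, nat_lit 40721550533, nat_lit 31493773176, nat_lit 31649021400, nat_lit 33516681164, nat_lit 34018195896], nat_lit 1271250, nat_lit 1271250, nat_lit 1271250, nat_lit 1271250, nat_lit 0, nat_lit 2373000, [nat_lit 1100000, nat_lit 1785000, nat_lit 1271250], [nat_lit 37, nat_lit 40, nat_lit 40, nat_lit 80, nat_lit 28, nat_lit 483, nat_lit 250, nat_lit 11]⟩,
 zbF0, [⟨nat_lit 0, nat_lit 96, nat_lit 22, nat_lit 100, nat_lit 280062599⟩, ⟨nat_lit 16, nat_lit 25, nat_lit 100, nat_lit 86, nat_lit 500466172⟩, ⟨nat_lit 19, nat_lit 100, nat_lit 89, nat_lit 80, nat_lit 106866568⟩]⟩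
noncomputable def p110_l114 : Lf2 := ⟨nat_lit 1, nat_lit 20, [nat_lit 5, nat_lit 5, nat_lit 5, nat_lit 20], false, nat_lit 8, nat_lit 164, nat_lit 0, nat_lit 336, zbN0,
 nat_lit 0, nat_lit 0, nat_lit 0, nat_lit 0, nat_lit 0, nat_lit 0, nat_lit 0, nat_lit 0, nat_lit 0, nat_lit 0, nat_lit 0, nat_lit 0, nat_lit 0, nat_lit 0, nat_lit 0, nat_lit 0, nat_lit 0, nat_lit 0, [],
 C1.Rw.none, C1.Rw.none,
 zbF0, []⟩
noncomputable def p110_l115 : Lf2 := ⟨nat_lit 0, nat_lit 20, [nat_lit 5, nat_lit 5, nat_lit 5, nat_lit 20], false, nat_lit 0, nat_lit 200, nat_lit 0, nat_lit 336, ⟨nat_lit 456, nat_lit 544, nat_lit 0, nat_lit 6, nat_lit 253, nat_lit 544, nat_lit 69, nat_lit 0, nat_lit 0, nat_lit 0, nat_lit 0, nat_lit 0, nat_lit 0, nat_lit 0, nat_lit 0, nat_lit 5000000, false, false⟩,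
 nat_lit 0, nat_lit 5350, nat_lit 0, nat_lit 0, nat_lit 4659, nat_lit 2817, nat_lit 0, nat_lit 0, nat_lit 0, nat_lit 0, nat_lit 0, nat_lit 0, nat_lit 0, nat_lit 0, nat_lit 0, nat_lit 136750, nat_lit 0, nat_lit 0, [(nat_lit 25, [(nat_lit 0, nat_lit 539), (nat_lit 1, nat_lit 5)])],
 ⟨p110_k4, nat_lit 0, nat_lit 0, nat_lit 238, nat_lit 0, nat_lit 196671, [nat_lit 843748001, nat_lit 2239385867, nat_lit 3996178000], [], [nat_lit 27431920304, nat_lit 29048028680, nat_lit 35373977932, nat_lit 36334327709, nat_lit 26722971274, nat_lit 27870825453, nat_lit 34364715201, nat_lit 33543464978], nat_lit 1271250, nat_lit 1271250, nat_lit 719601, nat_lit 2861300, nat_lit 0, nat_lit 1412500, [nat_lit 230000, nat_lit 780000, nat_lit 1435000], [nat_lit 20, nat_lit 40, nat_lit 40, nat_lit 80, nat_lit 16, nat_lit 373, nat_lit 150, nat_lit 14]⟩, ⟨p110_k16, nat_lit 0, nat_lit 0, nat_lit 271, nat_lit 0, nat_lit 0, [nat_lit 2137728000,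 nat_lit 3633408000, nat_lit 6410448000], [], [nat_lit 17325161470, nat_lit 18211840028, nat_lit 21485707992, nat_lit 21952222304, nat_lit 18224356223, nat_lit 18675850874, nat_lit 20169173660, nat_lit 20384576143], nat_lit 0, nat_lit 0, nat_lit 0, nat_lit 0, nat_lit 0, nat_lit 0, [], [nat_lit 37, nat_lit 40, nat_lit 40, nat_lit 80, nat_lit 28, nat_lit 483, nat_lit 250, nat_lit 11]⟩,
 ⟨nat_lit 2236, nat_lit 3163, ⟨.ofNat (nat_lit 409856), .ofNat (nat_lit 812503), .ofNat (nat_lit 454039), .ofNat (nat_lit 856813), .ofNat (nat_lit 419758), .ofNat (nat_lit 796416), .ofNat (nat_lit 465180), .ofNat (nat_lit 841964)⟩, ⟨.ofNat (nat_lit 0), .ofNat (nat_lit 322759), .ofNat (nat_lit 0), .ofNat (nat_lit 367069), .ofNat (nat_lit 0), .ofNat (nat_lit 317804), .ofNat (nat_lit 0), .ofNat (nat_lit 363353)⟩⟩, [⟨nat_lit 4, nat_lit 100, nat_lit 54, nat_lit 73, nat_lit 95467660⟩, ⟨nat_lit 7, nat_lit 92, nat_lit 100, nat_lit 75, nat_lit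 83913695⟩]⟩
noncomputable def p110_l116 : Lf2 := ⟨nat_lit 0, nat_lit 20, [nat_lit 5, nat_lit 5, nat_lit 5, nat_lit 20], true, nat_lit 0, nat_lit 164, nat_lit 0, nat_lit 336, ⟨nat_lit 0, nat_lit 1000, nat_lit 0, nat_lit 6, nat_lit 254, nat_lit 1000, nat_lit 57, nat_lit 0, nat_lit 0, nat_lit 0, nat_lit 0, nat_lit 0, nat_lit 0, nat_lit 0, nat_lit 0, nat_lit 5000000, false, false⟩,
 nat_lit 0, nat_lit 3281, nat_lit 0, nat_lit 0, nat_lit 3065, nat_lit 0, nat_lit 0, nat_lit 0, nat_lit 0, nat_lit 0, nat_lit 0, nat_lit 0, nat_lit 0, nat_lit 0, nat_lit 0, nat_lit 324700, nat_lit 0, nat_lit 0, [(nat_lit 28, [(nat_lit 0, nat_lit 502), (nat_lit 1, nat_lit 498)])],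
 ⟨p110_k15, nat_lit 0, nat_lit 0, nat_lit 293, nat_lit 0, nat_lit 340664, [nat_lit 739768001, nat_lit 868084343], [], [nat_lit 23752274965, nat_lit 24930526770, nat_lit 30210405329, nat_lit 31464246013, nat_lit 24010012200, nat_lit 24946215714, nat_lit 28634806739, nat_lit 29312739865], nat_lit 1271250, nat_lit 1271250, nat_lit 1000851, nat_lit 2724650, nat_lit 0, nat_lit 1133651, [nat_lit 230000, nat_lit 1420000], [nat_lit 88, nat_lit 40, nat_lit 40, nat_lit 80, nat_lit 89, nat_lit 373, nat_lit 150, nat_lit 14]⟩, C1.Rw.none,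
 ⟨nat_lit 0, nat_lit 2237, ⟨.ofNat (nat_lit 467180), .ofNat (nat_lit 762201), .ofNat (nat_lit 510875), .ofNat (nat_lit 807752), .ofNat (nat_lit 480752), .ofNat (nat_lit 739994), .ofNat (nat_lit 528899), .ofNat (nat_lit 789996)⟩, ⟨.ofNat (nat_lit 0), .ofNat (nat_lit 266484), .ofNat (nat_lit 0), .ofNat (nat_lit 312035), .ofNat (nat_lit 0), .ofNat (nat_lit 254993), .ofNat (nat_lit 0), .ofNat (nat_lit 304995)⟩⟩, [⟨nat_lit 13, nat_lit 33, nat_lit 85, nat_lit 100, nat_lit 96209906⟩, ⟨nat_lit 13, nat_lit 48, nat_lit 71, nat_lit 100, nat_lit 408883551⟩]⟩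
noncomputable def p110_l117 : Lf2 := ⟨nat_lit 0, nat_lit 20, [nat_lit 5, nat_lit 5, nat_lit 5, nat_lit 20], true, nat_lit 0, nat_lit 200, nat_lit 0, nat_lit 336, ⟨nat_lit 0, nat_lit 1000, nat_lit 0, nat_lit 6, nat_lit 243, nat_lit 1000, nat_lit 67, nat_lit 0, nat_lit 0, nat_lit 0, nat_lit 0, nat_lit 0, nat_lit 0, nat_lit 0, nat_lit 0, nat_lit 5000000, false, true⟩,
 nat_lit 0, nat_lit 4110, nat_lit 0, nat_lit 1379, nat_lit 3579, nat_lit 0, nat_lit 0, nat_lit 0, nat_lit 0, nat_lit 0, nat_lit 0, nat_lit 0, nat_lit 0, nat_lit 0, nat_lit 0, nat_lit 250000, nat_lit 0, nat_lit 0, [(nat_lit 25, [(nat_lit 0, nat_lit 1000)]), (nat_lit 28, [(nat_lit 0, nat_lit 1000)])],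
 ⟨p110_k4, nat_lit 0, nat_lit 0, nat_lit 290, nat_lit 0, nat_lit 311198, [nat_lit 781600001, nat_lit 1368800000, nat_lit 2118000000], [], [nat_lit 26369419148, nat_lit 28623870555, nat_lit 32191047854, nat_lit 33662915625, nat_lit 26446883542, nat_lit 28269892639, nat_lit 33000978283, nat_lit 32379593932], nat_lit 1271250, nat_lit 1271250, nat_lit 719601, nat_lit 2763950, nat_lit 0, nat_lit 1412500, [nat_lit 230000, nat_lit 780000, nat_lit 1435000], [nat_lit 20, nat_lit 40, nat_lit 40, nat_lit 80, nat_lit 16, nat_lit 373, nat_lit 150, nat_lit 14]⟩, C1.Rw.none,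
 ⟨nat_lit 0, nat_lit 3163, ⟨.ofNat (nat_lit 401957), .ofNat (nat_lit 794213), .ofNat (nat_lit 422807), .ofNat (nat_lit 816369), .ofNat (nat_lit 431745), .ofNat (nat_lit 754995), .ofNat (nat_lit 455440), .ofNat (nat_lit 779996)⟩, ⟨.ofNat (nat_lit 0), .ofNat (nat_lit 322753), .ofNat (nat_lit 0), .ofNat (nat_lit 367065), .ofNat (nat_lit 0), .ofNat (nat_lit 299993), .ofNat (nat_lit 0), .ofNat (nat_lit 349995)⟩⟩, [⟨nat_lit 13, nat_lit 45, nat_lit 79, nat_lit 100, nat_lit 316287039⟩, ⟨nat_lit 4, nat_lit 100, nat_lit 46, nat_lit 75, nat_lit 116100787⟩]⟩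
noncomputable def p110_l118 : Lf2 := ⟨nat_lit 0, nat_lit 20, [nat_lit 5, nat_lit 5, nat_lit 5, nat_lit 20], false, nat_lit 0, nat_lit 200, nat_lit 0, nat_lit 320, ⟨nat_lit 277, nat_lit 723, nat_lit 0, nat_lit 6, nat_lit 261, nat_lit 723, nat_lit 67, nat_lit 0, nat_lit 0, nat_lit 0, nat_lit 0, nat_lit 0, nat_lit 0, nat_lit 0, nat_lit 0, nat_lit 5000000, false, false⟩,
 nat_lit 5358, nat_lit 0, nat_lit 0, nat_lit 0, nat_lit 4057, nat_lit 3118, nat_lit 0, nat_lit 0, nat_lit 0, nat_lit 0, nat_lit 0, nat_lit 0, nat_lit 0, nat_lit 0, nat_lit 0, nat_lit 180750, nat_lit 0, nat_lit 0, [(nat_lit 25, [(nat_lit 0, nat_lit 723)]), (nat_lit 28, [(nat_lit 0, nat_lit 723)])],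
 ⟨p110_k4, nat_lit 0, nat_lit 0, nat_lit 254, nat_lit 0, nat_lit 243279, [nat_lit 824922800, nat_lit 1898756401, nat_lit 3262564000], [], [nat_lit 26617029069, nat_lit 29335084465, nat_lit 34052826436, nat_lit 35866303529, nat_lit 26462617529, nat_lit 28557507279, nat_lit 34722849622, nat_lit 33680111650], nat_lit 1271250, nat_lit 1271250, nat_lit 872850, nat_lit 2898050, nat_lit 0, nat_lit 1412500, [nat_lit 230000, nat_lit 780000, nat_lit 1435000], [nat_lit 20, nat_lit 40, nat_lit 40, nat_lit 80, nat_lit 16, nat_lit 373, nat_lit 150, nat_lit 14]⟩, ⟨p110_k5, nat_lit 0, nat_lit 0, nat_lit 483, nat_lit 0, nat_lit 411362, [nat_lit 1298576000, nat_lit 2207136000, nat_lit 3288544000], [], [nat_lit 13565827798, nat_lit 12489986440, nat_lit 13849673163, nat_lit 13915805196, nat_lit 13456089421, nat_lit 12012258987, nat_lit 10646137838, nat_lit 10631745322], nat_lit 1271250, nat_lit 1271250, nat_lit 1271250, nat_lit 1271250,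 nat_lit 0, nat_lit 2260000, [nat_lit 1100000, nat_lit 1785000, nat_lit 1271250], [nat_lit 21, nat_lit 40, nat_lit 40, nat_lit 80, nat_lit 14, nat_lit 483, nat_lit 250, nat_lit 12]⟩,
 ⟨nat_lit 0, nat_lit 3163, ⟨.ofNat (nat_lit 454567), .ofNat (nat_lit 834654), .ofNat (nat_lit 475417), .ofNat (nat_lit 856810), .ofNat (nat_lit 481723), .ofNat (nat_lit 794995), .ofNat (nat_lit 505418), .ofNat (nat_lit 819996)⟩, ⟨.ofNat (nat_lit 0), .ofNat (nat_lit 322753), .ofNat (nat_lit 0), .ofNat (nat_lit 367065), .ofNat (nat_lit 0), .ofNat (nat_lit 299993), .ofNat (nat_lit 0), .ofNat (nat_lit 349995)⟩⟩, [⟨nat_lit 13, nat_lit 47, nat_lit 74, nat_lit 100, nat_lit 98829512⟩, ⟨nat_lit 4, nat_lit 100, nat_lit 46, nat_lit 75, nat_lit 118136576⟩]⟩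
noncomputable def b_V_900_600_10_33 : St := ⟨true, nat_lit 1, nat_lit 2, nat_lit 0, nat_lit 80, nat_lit 360, nat_lit 400, nat_lit 240, nat_lit 280, nat_lit 112, nat_lit 376, nat_lit 40, nat_lit 80, nat_lit 0, nat_lit 200, nat_lit 0, nat_lit 336, nat_lit 120, nat_lit 160, nat_lit 0, nat_lit 0, nat_lit 0, nat_lit 0⟩
theorem d_V_900_600_10_33 (h : EB TB.env) : Dead b_V_900_600_10_33 := chkB_sound0 h (T :=
(.gv
(.st (nat_lit 1)
(.spl (nat_lit 5) (nat_lit 160)
(.leaf p110_l100)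
(.leaf p110_l101))
(.spl (nat_lit 2) (nat_lit 240)
(.spl (nat_lit 4) (nat_lit 80)
(.spl (nat_lit 1) (nat_lit 260)
(.spl (nat_lit 0) (nat_lit 380)
(.leaf p110_l102)
(.trZ (nat_lit 0) (nat_lit 100) (nat_lit 44) (nat_lit 99) (nat_lit 148) (.leaf p110_l103)))
(.trZ (nat_lit 0) (nat_lit 100) (nat_lit 63) (nat_lit 99) (nat_lit 132) (.trX (nat_lit 19) (nat_lit 100) (nat_lit 85) (nat_lit 84) (nat_lit 320) (.leaf p110_l104))))
(.spl (nat_lit 0) (nat_lit 380)
(.leaf p110_l105)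
(.trZ (nat_lit 0) (nat_lit 100) (nat_lit 44) (nat_lit 99) (nat_lit 148) (.trX (nat_lit 16) (nat_lit 44) (nat_lit 100) (nat_lit 82) (nat_lit 164) (.leaf p110_l106)))))
(.spl (nat_lit 0) (nat_lit 380)
(.spl (nat_lit 6) (nat_lit 152)
(.spl (nat_lit 3) (nat_lit 60)
(.trX (nat_lit 16) (nat_lit 61) (nat_lit 100) (nat_lit 72) (nat_lit 176) (.trX (nat_lit 19) (nat_lit 100) (nat_lit 85) (nat_lit 73) (nat_lit 312) (.leaf p110_l107)))
(.leaf p110_l108))
(.leaf p110_l109))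
(.trX (nat_lit 13) (nat_lit 48) (nat_lit 71) (nat_lit 100) (nat_lit 352) (.trX (nat_lit 16) (nat_lit 44) (nat_lit 100) (nat_lit 82) (nat_lit 164) (.spl (nat_lit 3) (nat_lit 60)
(.trX (nat_lit 16) (nat_lit 46) (nat_lit 100) (nat_lit 75) (nat_lit 140) (.trX (nat_lit 19) (nat_lit 100) (nat_lit 85) (nat_lit 73) (nat_lit 312) (.spl (nat_lit 0) (nat_lit 390)
(.leaf p110_l110)
(.trX (nat_lit 13) (nat_lit 34) (nat_lit 81) (nat_lit 100) (nat_lit 336) (.trZ (nat_lit 3) (nat_lit 100) (nat_lit 52) (nat_lit 53) (nat_lit 8) (.trX (nat_lit 16) (nat_lit 35) (nat_lit 100) (nat_lit 80) (nat_lit 112) (.leaf p110_l111)))))))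
(.trZ (nat_lit 3) (nat_lit 100) (nat_lit 61) (nat_lit 47) (nat_lit 8) (.spl (nat_lit 6) (nat_lit 152)
(.spl (nat_lit 0) (nat_lit 390)
(.leaf p110_l112)
(.trX (nat_lit 13) (nat_lit 34) (nat_lit 81) (nat_lit 100) (nat_lit 336) (.trZ (nat_lit 3) (nat_lit 100) (nat_lit 44) (nat_lit 64) (nat_lit 20) (.trX (nat_lit 16) (nat_lit 33) (nat_lit 100) (nat_lit 84) (nat_lit 136) (.leaf p110_l113)))))
(.leaf p110_l114)))))))))
(.st (nat_lit 1)
(.spl (nat_lit 0) (nat_lit 380)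
(.leaf p110_l115)
(.trZ (nat_lit 0) (nat_lit 100) (nat_lit 44) (nat_lit 99) (nat_lit 148) (.trX (nat_lit 13) (nat_lit 48) (nat_lit 71) (nat_lit 100) (nat_lit 352) (.trX (nat_lit 16) (nat_lit 44) (nat_lit 100) (nat_lit 82) (nat_lit 164) (.leaf p110_l116)))))
(.spl (nat_lit 1) (nat_lit 260)
(.trX (nat_lit 13) (nat_lit 63) (nat_lit 61) (nat_lit 100) (nat_lit 364) (.leaf p110_l117))
(.trZ (nat_lit 0) (nat_lit 100) (nat_lit 63) (nat_lit 99) (nat_lit 132) (.trX (nat_lit 19) (nat_lit 100) (nat_lit 85) (nat_lit 84) (nat_lit 320) (.leaf p110_l118))))))) (by decide +kernel)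
noncomputable def p110_l119 : Lf2 := ⟨nat_lit 1, nat_lit 20, [nat_lit 5, nat_lit 5, nat_lit 5, nat_lit 20], false, nat_lit 0, nat_lit 200, nat_lit 0, nat_lit 336, zbN0,
 nat_lit 0, nat_lit 0, nat_lit 0, nat_lit 0, nat_lit 0, nat_lit 0, nat_lit 0, nat_lit 0, nat_lit 0, nat_lit 0, nat_lit 0, nat_lit 0, nat_lit 0, nat_lit 0, nat_lit 0, nat_lit 0, nat_lit 0, nat_lit 0, [],
 C1.Rw.none, C1.Rw.none,
 zbF0, []⟩
noncomputable def p110_l120 : Lf2 := ⟨nat_lit 0, nat_lit 20, [nat_lit 5, nat_lit 5, nat_lit 5, nat_lit 20], false, nat_lit 0, nat_lit 164, nat_lit 0, nat_lit 336, ⟨nat_lit 1000, nat_lit 0, nat_lit 0, nat_lit 0, nat_lit 0, nat_lit 0, nat_lit 0, nat_lit 0, nat_lit 0, nat_lit 0, nat_lit 0, nat_lit 0, nat_lit 0, nat_lit 0, nat_lit 0, nat_lit 0, false, false⟩,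
 nat_lit 0, nat_lit 0, nat_lit 0, nat_lit 23546, nat_lit 6102, nat_lit 13673, nat_lit 0, nat_lit 0, nat_lit 0, nat_lit 0, nat_lit 0, nat_lit 0, nat_lit 0, nat_lit 0, nat_lit 0, nat_lit 0, nat_lit 0, nat_lit 0, [],
 ⟨p110_k15, nat_lit 0, nat_lit 0, nat_lit 187, nat_lit 0, nat_lit 0, [nat_lit 938000000, nat_lit 6250000000], [], [nat_lit 33066174426, nat_lit 34870764988, nat_lit 39371838165, nat_lit 40538820380, nat_lit 29490421563, nat_lit 30996747265, nat_lit 34790190652, nat_lit 35780225613], nat_lit 0, nat_lit 0, nat_lit 0, nat_lit 0, nat_lit 0, nat_lit 0, [], [nat_lit 88, nat_lit 40, nat_lit 40, nat_lit 80, nat_lit 89, nat_lit 373, nat_lit 150, nat_lit 14]⟩, ⟨p110_k13, nat_lit 0, nat_lit 0, nat_lit 243, nat_lit 0, nat_lit 0, [nat_lit 4688000000, nat_lit 14058000000], [], [nat_lit 42279430723, nat_lit 45530850509, nat_lit 53023475492, nat_lit 54371540179, nat_lit 37245890760, nat_lit 38523075467, nat_lit 40297159433,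 nat_lit 40512327294], nat_lit 0, nat_lit 0, nat_lit 0, nat_lit 0, nat_lit 0, nat_lit 0, [], [nat_lit 145, nat_lit 40, nat_lit 40, nat_lit 80, nat_lit 144, nat_lit 483, nat_lit 250, nat_lit 11]⟩,
 zbF0, [⟨nat_lit 0, nat_lit 95, nat_lit 31, nat_lit 100, nat_lit 807172674⟩, ⟨nat_lit 4, nat_lit 100, nat_lit 35, nat_lit 80, nat_lit 104756140⟩]⟩
noncomputable def p110_l121 : Lf2 := ⟨nat_lit 1, nat_lit 15, [nat_lit 30, nat_lit 5, nat_lit 5, nat_lit 20], false, nat_lit 0, nat_lit 176, nat_lit 0, nat_lit 312, zbN0,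
 nat_lit 0, nat_lit 0, nat_lit 0, nat_lit 0, nat_lit 0, nat_lit 0, nat_lit 0, nat_lit 0, nat_lit 0, nat_lit 0, nat_lit 0, nat_lit 0, nat_lit 0, nat_lit 0, nat_lit 0, nat_lit 0, nat_lit 0, nat_lit 0, [],
 C1.Rw.none, C1.Rw.none,
 zbF0, []⟩
noncomputable def p110_l122 : Lf2 := ⟨nat_lit 1, nat_lit 20, [nat_lit 5, nat_lit 5, nat_lit 5, nat_lit 20], false, nat_lit 0, nat_lit 200, nat_lit 0, nat_lit 336, zbN0,
 nat_lit 0, nat_lit 0, nat_lit 0, nat_lit 0, nat_lit 0, nat_lit 0, nat_lit 0, nat_lit 0, nat_lit 0, nat_lit 0, nat_lit 0, nat_lit 0, nat_lit 0, nat_lit 0, nat_lit 0, nat_lit 0, nat_lit 0, nat_lit 0, [],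
 C1.Rw.none, C1.Rw.none,
 zbF0, []⟩
noncomputable def p110_l123 : Lf2 := ⟨nat_lit 0, nat_lit 20, [nat_lit 5, nat_lit 5, nat_lit 5, nat_lit 20], true, nat_lit 0, nat_lit 200, nat_lit 0, nat_lit 336, ⟨nat_lit 0, nat_lit 1000, nat_lit 0, nat_lit 6, nat_lit 251, nat_lit 1000, nat_lit 67, nat_lit 0, nat_lit 0, nat_lit 0, nat_lit 0, nat_lit 0, nat_lit 0, nat_lit 0, nat_lit 0, nat_lit 5000000, false, false⟩,
 nat_lit 0, nat_lit 0, nat_lit 0, nat_lit 11594, nat_lit 3345, nat_lit 0, nat_lit 0, nat_lit 0, nat_lit 0, nat_lit 0, nat_lit 0, nat_lit 0, nat_lit 0, nat_lit 0, nat_lit 0, nat_lit 250000, nat_lit 0, nat_lit 0, [(nat_lit 25, [(nat_lit 0, nat_lit 1000)]), (nat_lit 28, [(nat_lit 0, nat_lit 1000)])],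
 ⟨p110_k4, nat_lit 0, nat_lit 0, nat_lit 192, nat_lit 0, nat_lit 0, [nat_lit 781600001, nat_lit 1368800000, nat_lit 2118000000], [], [nat_lit 24365340720, nat_lit 27079124552, nat_lit 31936466660, nat_lit 33623129149, nat_lit 24734081804, nat_lit 26918036056, nat_lit 30962015598, nat_lit 32362510782], nat_lit 0, nat_lit 0, nat_lit 0, nat_lit 0, nat_lit 0, nat_lit 0, [], [nat_lit 20, nat_lit 40, nat_lit 40, nat_lit 80, nat_lit 16, nat_lit 373, nat_lit 150, nat_lit 14]⟩, C1.Rw.none,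
 ⟨nat_lit 0, nat_lit 3163, ⟨.ofNat (nat_lit 401957), .ofNat (nat_lit 812499), .ofNat (nat_lit 443658), .ofNat (nat_lit 856810), .ofNat (nat_lit 431745), .ofNat (nat_lit 769995), .ofNat (nat_lit 479136), .ofNat (nat_lit 819996)⟩, ⟨.ofNat (nat_lit 0), .ofNat (nat_lit 322753), .ofNat (nat_lit 0), .ofNat (nat_lit 367065), .ofNat (nat_lit 0), .ofNat (nat_lit 299993), .ofNat (nat_lit 0), .ofNat (nat_lit 349995)⟩⟩, [⟨nat_lit 13, nat_lit 46, nat_lit 76, nat_lit 100, nat_lit 487861592⟩, ⟨nat_lit 4, nat_lit 100, nat_lit 46, nat_lit 75, nat_lit 117769061⟩]⟩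
noncomputable def p110_l124 : Lf2 := ⟨nat_lit 1, nat_lit 20, [nat_lit 5, nat_lit 5, nat_lit 5, nat_lit 20], false, nat_lit 0, nat_lit 200, nat_lit 0, nat_lit 336, zbN0,
 nat_lit 0, nat_lit 0, nat_lit 0, nat_lit 0, nat_lit 0, nat_lit 0, nat_lit 0, nat_lit 0, nat_lit 0, nat_lit 0, nat_lit 0, nat_lit 0, nat_lit 0, nat_lit 0, nat_lit 0, nat_lit 0, nat_lit 0, nat_lit 0, [],
 C1.Rw.none, C1.Rw.none,
 zbF0, []⟩
noncomputable def p110_l125 : Lf2 := ⟨nat_lit 0, nat_lit 20, [nat_lit 5, nat_lit 5, nat_lit 5, nat_lit 20], false, nat_lit 0, nat_lit 164, nat_lit 0, nat_lit 336, ⟨nat_lit 1000, nat_lit 0, nat_lit 0, nat_lit 0, nat_lit 0, nat_lit 0, nat_lit 0, nat_lit 0, nat_lit 0, nat_lit 0, nat_lit 0, nat_lit 0, nat_lit 0, nat_lit 0, nat_lit 0, nat_lit 0, false, false⟩,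
 nat_lit 0, nat_lit 6531, nat_lit 0, nat_lit 9416, nat_lit 6102, nat_lit 13673, nat_lit 0, nat_lit 0, nat_lit 0, nat_lit 0, nat_lit 0, nat_lit 0, nat_lit 0, nat_lit 0, nat_lit 0, nat_lit 0, nat_lit 0, nat_lit 0, [],
 ⟨p110_k15, nat_lit 0, nat_lit 0, nat_lit 209, nat_lit 0, nat_lit 85296, [nat_lit 938000000, nat_lit 6250000000], [], [nat_lit 33066174426, nat_lit 34870764988, nat_lit 39371838165, nat_lit 40538820380, nat_lit 29490421563, nat_lit 30996747265, nat_lit 34790190652, nat_lit 35780225613], nat_lit 1271250, nat_lit 1271250, nat_lit 1000851, nat_lit 2724650, nat_lit 0, nat_lit 1133651, [nat_lit 230000, nat_lit 1420000], [nat_lit 88, nat_lit 40, nat_lit 40, nat_lit 80, nat_lit 89, nat_lit 373, nat_lit 150, nat_lit 14]⟩, ⟨p110_k13, nat_lit 0, nat_lit 0, nat_lit 243, nat_lit 0, nat_lit 0, [nat_lit 4688000000, nat_lit 14058000000], [], [nat_lit 42279430723, nat_lit 45530850509, nat_lit 53023475492, nat_lit 54371540179,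 nat_lit 37245890760, nat_lit 38523075467, nat_lit 40297159433, nat_lit 40512327294], nat_lit 0, nat_lit 0, nat_lit 0, nat_lit 0, nat_lit 0, nat_lit 0, [], [nat_lit 145, nat_lit 40, nat_lit 40, nat_lit 80, nat_lit 144, nat_lit 483, nat_lit 250, nat_lit 11]⟩,
 zbF0, [⟨nat_lit 0, nat_lit 95, nat_lit 31, nat_lit 100, nat_lit 807172674⟩, ⟨nat_lit 4, nat_lit 100, nat_lit 35, nat_lit 80, nat_lit 104756140⟩]⟩
noncomputable def p110_l126 : Lf2 := ⟨nat_lit 1, nat_lit 15, [nat_lit 30, nat_lit 5, nat_lit 5, nat_lit 20], false, nat_lit 0, nat_lit 176, nat_lit 0, nat_lit 312, zbN0,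
 nat_lit 0, nat_lit 0, nat_lit 0, nat_lit 0, nat_lit 0, nat_lit 0, nat_lit 0, nat_lit 0, nat_lit 0, nat_lit 0, nat_lit 0, nat_lit 0, nat_lit 0, nat_lit 0, nat_lit 0, nat_lit 0, nat_lit 0, nat_lit 0, [],
 C1.Rw.none, C1.Rw.none,
 zbF0, []⟩
noncomputable def p110_l127 : Lf2 := ⟨nat_lit 1, nat_lit 20, [nat_lit 5, nat_lit 5, nat_lit 5, nat_lit 20], false, nat_lit 0, nat_lit 200, nat_lit 0, nat_lit 336, zbN0,
 nat_lit 0, nat_lit 0, nat_lit 0, nat_lit 0, nat_lit 0, nat_lit 0, nat_lit 0, nat_lit 0, nat_lit 0, nat_lit 0, nat_lit 0, nat_lit 0, nat_lit 0, nat_lit 0, nat_lit 0, nat_lit 0, nat_lit 0, nat_lit 0, [],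
 C1.Rw.none, C1.Rw.none,
 zbF0, []⟩
noncomputable def p110_l128 : Lf2 := ⟨nat_lit 0, nat_lit 20, [nat_lit 5, nat_lit 5, nat_lit 5, nat_lit 20], false, nat_lit 0, nat_lit 200, nat_lit 0, nat_lit 336, ⟨nat_lit 487, nat_lit 513, nat_lit 0, nat_lit 6, nat_lit 251, nat_lit 513, nat_lit 67, nat_lit 0, nat_lit 0, nat_lit 0, nat_lit 0, nat_lit 0, nat_lit 0, nat_lit 0, nat_lit 0, nat_lit 5000000, false, false⟩,
 nat_lit 0, nat_lit 5281, nat_lit 0, nat_lit 3924, nat_lit 4599, nat_lit 3012, nat_lit 0, nat_lit 0, nat_lit 0, nat_lit 0, nat_lit 0, nat_lit 0, nat_lit 0, nat_lit 0, nat_lit 0, nat_lit 128250, nat_lit 0, nat_lit 0, [(nat_lit 25, [(nat_lit 0, nat_lit 513)]), (nat_lit 28, [(nat_lit 0, nat_lit 513)])],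
 ⟨p110_k12, nat_lit 0, nat_lit 0, nat_lit 214, nat_lit 0, nat_lit 93793, [nat_lit 857766800, nat_lit 4130284000], [], [nat_lit 27731628944, nat_lit 30940172959, nat_lit 35656749052, nat_lit 37568115155, nat_lit 26806200897, nat_lit 29351334236, nat_lit 36806316098, nat_lit 34675990265], nat_lit 1271250, nat_lit 1271250, nat_lit 719601, nat_lit 2861300, nat_lit 0, nat_lit 1412500, [nat_lit 230000, nat_lit 1420000], [nat_lit 88, nat_lit 40, nat_lit 40, nat_lit 80, nat_lit 89, nat_lit 373, nat_lit 150, nat_lit 14]⟩, ⟨p110_k13, nat_lit 0, nat_lit 0, nat_lit 249, nat_lit 0, nat_lit 0, [nat_lit 2283056000, nat_lit 6846246000], [], [nat_lit 18501429307, nat_lit 19453117529, nat_lit 22950292210, nat_lit 23448550356, nat_lit 19458831361, nat_lit 19941861299, nat_lit 21539102720, nat_lit 21768958576], nat_lit 0, nat_lit 0, nat_lit 0, nat_lit 0, nat_lit 0, nat_lit 0, [], [nat_lit 145, nat_lit 40, nat_lit 40, nat_lit 80, nat_lit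 144, nat_lit 483, nat_lit 250, nat_lit 11]⟩,
 ⟨nat_lit 0, nat_lit 3163, ⟨.ofNat (nat_lit 401957), .ofNat (nat_lit 812499), .ofNat (nat_lit 443658), .ofNat (nat_lit 856810), .ofNat (nat_lit 431745), .ofNat (nat_lit 769995), .ofNat (nat_lit 479136), .ofNat (nat_lit 819996)⟩, ⟨.ofNat (nat_lit 0), .ofNat (nat_lit 322753), .ofNat (nat_lit 0), .ofNat (nat_lit 367065), .ofNat (nat_lit 0), .ofNat (nat_lit 299993), .ofNat (nat_lit 0), .ofNat (nat_lit 349995)⟩⟩, [⟨nat_lit 4, nat_lit 100, nat_lit 46, nat_lit 75, nat_lit 174720995⟩, ⟨nat_lit 7, nat_lit 92, nat_lit 100, nat_lit 75, nat_lit 89725894⟩]⟩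
noncomputable def p110_l129 : Lf2 := ⟨nat_lit 0, nat_lit 20, [nat_lit 5, nat_lit 5, nat_lit 5, nat_lit 20], false, nat_lit 0, nat_lit 200, nat_lit 0, nat_lit 336, ⟨nat_lit 0, nat_lit 1000, nat_lit 0, nat_lit 6, nat_lit 251, nat_lit 1000, nat_lit 67, nat_lit 0, nat_lit 0, nat_lit 0, nat_lit 0, nat_lit 0, nat_lit 0, nat_lit 0, nat_lit 0, nat_lit 5000000, false, false⟩,
 nat_lit 0, nat_lit 3841, nat_lit 0, nat_lit 11891, nat_lit 3345, nat_lit 0, nat_lit 0, nat_lit 0, nat_lit 0, nat_lit 0, nat_lit 0, nat_lit 0, nat_lit 0, nat_lit 0, nat_lit 0, nat_lit 250000, nat_lit 0, nat_lit 0, [(nat_lit 25, [(nat_lit 0, nat_lit 1000)]), (nat_lit 28, [(nat_lit 0, nat_lit 1000)])],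
 ⟨p110_k4, nat_lit 0, nat_lit 0, nat_lit 211, nat_lit 0, nat_lit 61411, [nat_lit 781600001, nat_lit 1368800000, nat_lit 2118000000], [], [nat_lit 24681202764, nat_lit 27124868308, nat_lit 31936466660, nat_lit 33623129149, nat_lit 25313065621, nat_lit 27235976747, nat_lit 32971702467, nat_lit 32362510782], nat_lit 1271250, nat_lit 1271250, nat_lit 719601, nat_lit 2861300, nat_lit 0, nat_lit 1412500, [nat_lit 230000, nat_lit 780000, nat_lit 1435000], [nat_lit 20, nat_lit 40, nat_lit 40, nat_lit 80, nat_lit 16, nat_lit 373, nat_lit 150, nat_lit 14]⟩, ⟨p110_k16, nat_lit 0, nat_lit 0, nat_lit 400, nat_lit 0, nat_lit 118658, [nat_lit 0, nat_lit 0, nat_lit 0], [], [nat_lit 0, nat_lit 0, nat_lit 0, nat_lit 0, nat_lit 0, nat_lit 0, nat_lit 0, nat_lit 0], nat_lit 1271250, nat_lit 1271250, nat_lit 719601, nat_lit 2861300, nat_lit 0, nat_lit 2373000, [nat_lit 1100000, nat_lit 1785000, nat_lit 1271250], [nat_lit 37, nat_lit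 40, nat_lit 40, nat_lit 80, nat_lit 28, nat_lit 483, nat_lit 250, nat_lit 11]⟩,
 ⟨nat_lit 0, nat_lit 3163, ⟨.ofNat (nat_lit 401957), .ofNat (nat_lit 812499), .ofNat (nat_lit 443658), .ofNat (nat_lit 856810), .ofNat (nat_lit 431745), .ofNat (nat_lit 769995), .ofNat (nat_lit 479136), .ofNat (nat_lit 819996)⟩, ⟨.ofNat (nat_lit 0), .ofNat (nat_lit 322753), .ofNat (nat_lit 0), .ofNat (nat_lit 367065), .ofNat (nat_lit 0), .ofNat (nat_lit 299993), .ofNat (nat_lit 0), .ofNat (nat_lit 349995)⟩⟩, [⟨nat_lit 13, nat_lit 46, nat_lit 76, nat_lit 100, nat_lit 474784919⟩, ⟨nat_lit 4, nat_lit 100, nat_lit 46, nat_lit 75, nat_lit 117769061⟩]⟩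
noncomputable def b_V_900_600_10_34 : St := ⟨true, nat_lit 2, nat_lit 2, nat_lit 0, nat_lit 80, nat_lit 360, nat_lit 400, nat_lit 240, nat_lit 280, nat_lit 112, nat_lit 376, nat_lit 40, nat_lit 80, nat_lit 0, nat_lit 200, nat_lit 0, nat_lit 336, nat_lit 160, nat_lit 172, nat_lit 0, nat_lit 0, nat_lit 0, nat_lit 0⟩
theorem d_V_900_600_10_34 (h : EB TB.env) : Dead b_V_900_600_10_34 := chkB_sound0 h (T :=
(.st (nat_lit 0)
(.gv
(.st (nat_lit 1)
(.spl (nat_lit 0) (nat_lit 380)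
(.leaf p110_l119)
(.trZ (nat_lit 0) (nat_lit 100) (nat_lit 44) (nat_lit 99) (nat_lit 148) (.trX (nat_lit 13) (nat_lit 48) (nat_lit 71) (nat_lit 100) (nat_lit 352) (.trX (nat_lit 16) (nat_lit 44) (nat_lit 100) (nat_lit 82) (nat_lit 164) (.leaf p110_l120)))))
(.spl (nat_lit 3) (nat_lit 60)
(.trX (nat_lit 16) (nat_lit 61) (nat_lit 100) (nat_lit 72) (nat_lit 176) (.trX (nat_lit 19) (nat_lit 100) (nat_lit 85) (nat_lit 73) (nat_lit 312) (.leaf p110_l121)))
(.leaf p110_l122)))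
(.leaf p110_l123))
(.gv
(.st (nat_lit 1)
(.spl (nat_lit 0) (nat_lit 380)
(.leaf p110_l124)
(.trZ (nat_lit 0) (nat_lit 100) (nat_lit 44) (nat_lit 99) (nat_lit 148) (.trX (nat_lit 13) (nat_lit 48) (nat_lit 71) (nat_lit 100) (nat_lit 352) (.trX (nat_lit 16) (nat_lit 44) (nat_lit 100) (nat_lit 82) (nat_lit 164) (.leaf p110_l125)))))
(.spl (nat_lit 3) (nat_lit 60)
(.trX (nat_lit 16) (nat_lit 61) (nat_lit 100) (nat_lit 72) (nat_lit 176) (.trX (nat_lit 19) (nat_lit 100) (nat_lit 85) (nat_lit 73) (nat_lit 312) (.leaf p110_l126)))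
(.leaf p110_l127)))
(.st (nat_lit 1)
(.leaf p110_l128)
(.leaf p110_l129))))) (by decide +kernel)
noncomputable def p110_l130 : Lf2 := ⟨nat_lit 0, nat_lit 10, [nat_lit 0, nat_lit 5, nat_lit 5, nat_lit 20], false, nat_lit 8, nat_lit 248, nat_lit 0, nat_lit 364, ⟨nat_lit 299, nat_lit 0, nat_lit 701, nat_lit 6, nat_lit 213, nat_lit 701, nat_lit 94, nat_lit 701, nat_lit 58017, nat_lit 274, nat_lit 23440, nat_lit 200, nat_lit 48456720, nat_lit 0, nat_lit 0, nat_lit 3892342, false, false⟩,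
 nat_lit 0, nat_lit 0, nat_lit 0, nat_lit 0, nat_lit 3242, nat_lit 4398, nat_lit 0, nat_lit 0, nat_lit 0, nat_lit 0, nat_lit 0, nat_lit 0, nat_lit 0, nat_lit 0, nat_lit 0, nat_lit 175250, nat_lit 0, nat_lit 0, [(nat_lit 24, [(nat_lit 4, nat_lit 701)]), (nat_lit 27, [(nat_lit 4, nat_lit 701)])],
 ⟨p110_k26, nat_lit 0, nat_lit 0, nat_lit 151, nat_lit 0, nat_lit 0, [nat_lit 814343601, nat_lit 661175600], [], [nat_lit 20218425457, nat_lit 24364553136, nat_lit 23344243987, nat_lit 26698980677, nat_lit 21816766455, nat_lit 24859656512, nat_lit 24367624452, nat_lit 26869982627], nat_lit 0, nat_lit 0, nat_lit 0, nat_lit 0, nat_lit 0, nat_lit 0, [], [nat_lit 86, nat_lit 40, nat_lit 40, nat_lit 80, nat_lit 87, nat_lit 345, nat_lit 125, nat_lit 16]⟩, ⟨p110_k27, nat_lit 0, nat_lit 0, nat_lit 197, nat_lit 0, nat_lit 0, [nat_lit 1401712000, nat_lit 3549728000], [], [nat_lit 10129805955, nat_lit 11484524518, nat_lit 10893042288,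 nat_lit 11874772296, nat_lit 10634975351, nat_lit 11097516127, nat_lit 9912296935, nat_lit 10211492935], nat_lit 0, nat_lit 0, nat_lit 0, nat_lit 0, nat_lit 0, nat_lit 0, [], [nat_lit 116, nat_lit 40, nat_lit 40, nat_lit 80, nat_lit 65, nat_lit 456, nat_lit 225, nat_lit 12]⟩,
 ⟨nat_lit 0, nat_lit 3163, ⟨.ofNat (nat_lit 401957), .ofNat (nat_lit 605128), .ofNat (nat_lit 443658), .ofNat (nat_lit 646918), .ofNat (nat_lit 431745), .ofNat (nat_lit 599865), .ofNat (nat_lit 479136), .ofNat (nat_lit 647345)⟩, ⟨.ofNat (nat_lit 20000), .ofNat (nat_lit 440207), .ofNat (nat_lit 20000), .ofNat (nat_lit 484518), .ofNat (nat_lit 20000), .ofNat (nat_lit 409993), .ofNat (nat_lit 20000), .ofNat (nat_lit 459993)⟩⟩, [⟨nat_lit 0, nat_lit 100, nat_lit 61, nat_lit 92, nat_lit 161467136⟩, ⟨nat_lit 16, nat_lit 62, nat_lit 100, nat_lit 94, nat_lit 57586133⟩, ⟨nat_lit 7, nat_lit 77, nat_lit 100, nat_lit 91, nat_lit 39351219⟩]⟩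
noncomputable def p110_l131 : Lf2 := ⟨nat_lit 0, nat_lit 10, [nat_lit 0, nat_lit 5, nat_lit 5, nat_lit 20], false, nat_lit 8, nat_lit 248, nat_lit 0, nat_lit 364, ⟨nat_lit 1000, nat_lit 0, nat_lit 0, nat_lit 0, nat_lit 0, nat_lit 0, nat_lit 0, nat_lit 0, nat_lit 0, nat_lit 0, nat_lit 0, nat_lit 0, nat_lit 0, nat_lit 0, nat_lit 0, nat_lit 0, false, false⟩,
 nat_lit 0, nat_lit 0, nat_lit 0, nat_lit 0, nat_lit 6267, nat_lit 11836, nat_lit 0, nat_lit 0, nat_lit 0, nat_lit 0, nat_lit 0, nat_lit 0, nat_lit 0, nat_lit 0, nat_lit 0, nat_lit 0, nat_lit 0, nat_lit 0, [],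
 ⟨p110_k26, nat_lit 0, nat_lit 0, nat_lit 165, nat_lit 0, nat_lit 0, [nat_lit 938000000, nat_lit 4688000000], [], [nat_lit 28992793817, nat_lit 33951994137, nat_lit 38890658912, nat_lit 42241117729, nat_lit 26864925628, nat_lit 29764935457, nat_lit 33398415862, nat_lit 35890145841], nat_lit 0, nat_lit 0, nat_lit 0, nat_lit 0, nat_lit 0, nat_lit 0, [], [nat_lit 86, nat_lit 40, nat_lit 40, nat_lit 80, nat_lit 87, nat_lit 289, nat_lit 75, nat_lit 12]⟩, ⟨p110_k27, nat_lit 0, nat_lit 0, nat_lit 221, nat_lit 0, nat_lit 0, [nat_lit 4688000000, nat_lit 11872000000], [], [nat_lit 35702875696, nat_lit 38573422208, nat_lit 48009788666, nat_lit 49438702161, nat_lit 34634921225, nat_lit 35580311401, nat_lit 40005385396, nat_lit 41035357015], nat_lit 0, nat_lit 0, nat_lit 0, nat_lit 0, nat_lit 0, nat_lit 0, [], [nat_lit 116, nat_lit 40, nat_lit 40, nat_lit 80, nat_lit 65, nat_lit 538, nat_lit 300, nat_lit 13]⟩,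
 zbF0, [⟨nat_lit 4, nat_lit 100, nat_lit 44, nat_lit 87, nat_lit 98165592⟩, ⟨nat_lit 19, nat_lit 100, nat_lit 59, nat_lit 94, nat_lit 91782708⟩]⟩
noncomputable def b_V_900_600_20_0 : St := ⟨true, nat_lit 0, nat_lit 0, nat_lit 1, nat_lit 120, nat_lit 360, nat_lit 400, nat_lit 240, nat_lit 280, nat_lit 112, nat_lit 376, nat_lit 80, nat_lit 120, nat_lit 8, nat_lit 248, nat_lit 0, nat_lit 364, nat_lit 0, nat_lit 40, nat_lit 0, nat_lit 0, nat_lit 0, nat_lit 0⟩
theorem d_V_900_600_20_0 (h : EB TB.env) : Dead b_V_900_600_20_0 := chkB_sound0 h (T :=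
(.spl (nat_lit 2) (nat_lit 240)
(.leaf p110_l130)
(.leaf p110_l131))) (by decide +kernel)
noncomputable def p110_l132 : Lf2 := ⟨nat_lit 0, nat_lit 10, [nat_lit 0, nat_lit 5, nat_lit 5, nat_lit 20], true, nat_lit 8, nat_lit 160, nat_lit 0, nat_lit 352, ⟨nat_lit 0, nat_lit 234, nat_lit 766, nat_lit 6, nat_lit 213, nat_lit 1000, nat_lit 67, nat_lit 766, nat_lit 41667, nat_lit 265, nat_lit 23440, nat_lit 200, nat_lit 49910576, nat_lit 14636845, nat_lit 2452579, nat_lit 3523165, false, false⟩,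
 nat_lit 0, nat_lit 0, nat_lit 0, nat_lit 0, nat_lit 2365, nat_lit 0, nat_lit 0, nat_lit 0, nat_lit 0, nat_lit 0, nat_lit 0, nat_lit 0, nat_lit 0, nat_lit 0, nat_lit 26, nat_lit 250000, nat_lit 0, nat_lit 0, [(nat_lit 24, [(nat_lit 0, nat_lit 234), (nat_lit 4, nat_lit 766)]), (nat_lit 27, [(nat_lit 0, nat_lit 234), (nat_lit 4, nat_lit 766)])],
 ⟨p110_k26, nat_lit 0, nat_lit 0, nat_lit 151, nat_lit 0, nat_lit 0, [nat_lit 870092801, nat_lit 19690000], [], [nat_lit 18477422970, nat_lit 22000048880, nat_lit 21708751638, nat_lit 24596206197, nat_lit 19570301276, nat_lit 21982058161, nat_lit 22491411625, nat_lit 24742407985], nat_lit 0, nat_lit 0, nat_lit 0, nat_lit 0, nat_lit 0, nat_lit 0, [], [nat_lit 86, nat_lit 40, nat_lit 40, nat_lit 80, nat_lit 87, nat_lit 317, nat_lit 100, nat_lit 14]⟩, C1.Rw.none,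
 ⟨nat_lit 0, nat_lit 3163, ⟨.ofNat (nat_lit 401957), .ofNat (nat_lit 605128), .ofNat (nat_lit 443658), .ofNat (nat_lit 646918), .ofNat (nat_lit 431745), .ofNat (nat_lit 599865), .ofNat (nat_lit 479136), .ofNat (nat_lit 647345)⟩, ⟨.ofNat (nat_lit 20000), .ofNat (nat_lit 306113), .ofNat (nat_lit 20000), .ofNat (nat_lit 328269), .ofNat (nat_lit 20000), .ofNat (nat_lit 299996), .ofNat (nat_lit 20000), .ofNat (nat_lit 324997)⟩⟩, [⟨nat_lit 3, nat_lit 100, nat_lit 52, nat_lit 61, nat_lit 11287089⟩, ⟨nat_lit 3, nat_lit 100, nat_lit 75, nat_lit 35, nat_lit 63350981⟩]⟩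
noncomputable def p110_l133 : Lf2 := ⟨nat_lit 0, nat_lit 10, [nat_lit 0, nat_lit 5, nat_lit 5, nat_lit 20], true, nat_lit 16, nat_lit 160, nat_lit 0, nat_lit 364, ⟨nat_lit 0, nat_lit 395, nat_lit 605, nat_lit 6, nat_lit 213, nat_lit 1000, nat_lit 76, nat_lit 605, nat_lit 54150, nat_lit 272, nat_lit 27594, nat_lit 200, nat_lit 49451595, nat_lit 14586095, nat_lit 2962310, nat_lit 3649405, false, false⟩,
 nat_lit 0, nat_lit 0, nat_lit 0, nat_lit 0, nat_lit 2452, nat_lit 0, nat_lit 0, nat_lit 0, nat_lit 0, nat_lit 0, nat_lit 0, nat_lit 0, nat_lit 0, nat_lit 0, nat_lit 0, nat_lit 250000, nat_lit 0, nat_lit 0, [(nat_lit 24, [(nat_lit 0, nat_lit 395), (nat_lit 4, nat_lit 605)])],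
 ⟨p110_k26, nat_lit 0, nat_lit 0, nat_lit 121, nat_lit 0, nat_lit 0, [nat_lit 777478000, nat_lit 35340400], [], [nat_lit 18777992882, nat_lit 20282335071, nat_lit 21733363821, nat_lit 23194186180, nat_lit 19584521466, nat_lit 20696604365, nat_lit 22370276304, nat_lit 23402363264], nat_lit 0, nat_lit 0, nat_lit 0, nat_lit 0, nat_lit 0, nat_lit 0, [], [nat_lit 86, nat_lit 40, nat_lit 40, nat_lit 80, nat_lit 87, nat_lit 317, nat_lit 100, nat_lit 14]⟩, C1.Rw.none,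
 ⟨nat_lit 2236, nat_lit 3163, ⟨.ofNat (nat_lit 409856), .ofNat (nat_lit 605240), .ofNat (nat_lit 454039), .ofNat (nat_lit 649422), .ofNat (nat_lit 419758), .ofNat (nat_lit 602541), .ofNat (nat_lit 465180), .ofNat (nat_lit 647962)⟩, ⟨.ofNat (nat_lit 40000), .ofNat (nat_lit 328271), .ofNat (nat_lit 40000), .ofNat (nat_lit 350426), .ofNat (nat_lit 40000), .ofNat (nat_lit 329112), .ofNat (nat_lit 40000), .ofNat (nat_lit 351886)⟩⟩, [⟨nat_lit 3, nat_lit 100, nat_lit 59, nat_lit 58, nat_lit 127881805⟩]⟩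
noncomputable def p110_l134 : Lf2 := ⟨nat_lit 0, nat_lit 10, [nat_lit 0, nat_lit 5, nat_lit 5, nat_lit 20], true, nat_lit 32, nat_lit 160, nat_lit 0, nat_lit 364, ⟨nat_lit 0, nat_lit 1000, nat_lit 0, nat_lit 6, nat_lit 224, nat_lit 1000, nat_lit 84, nat_lit 0, nat_lit 0, nat_lit 0, nat_lit 0, nat_lit 0, nat_lit 47896004, nat_lit 15703928, nat_lit 3400068, nat_lit 3855615, false, false⟩,
 nat_lit 0, nat_lit 0, nat_lit 0, nat_lit 0, nat_lit 2205, nat_lit 0, nat_lit 0, nat_lit 0, nat_lit 0, nat_lit 0, nat_lit 0, nat_lit 0, nat_lit 0, nat_lit 0, nat_lit 0, nat_lit 400000, nat_lit 0, nat_lit 0, [(nat_lit 27, [(nat_lit 1, nat_lit 1000)])],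
 ⟨p110_k28, nat_lit 0, nat_lit 0, nat_lit 103, nat_lit 0, nat_lit 0, [nat_lit 697600000, nat_lit 324400000], [], [nat_lit 19979191007, nat_lit 21563701040, nat_lit 22459557064, nat_lit 23841806849, nat_lit 20997844032, nat_lit 22187758008, nat_lit 23271948410, nat_lit 24312056220], nat_lit 0, nat_lit 0, nat_lit 0, nat_lit 0, nat_lit 0, nat_lit 0, [], [nat_lit 66, nat_lit 40, nat_lit 40, nat_lit 80, nat_lit 67, nat_lit 249, nat_lit 40, nat_lit 13]⟩, C1.Rw.none,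
 ⟨nat_lit 0, nat_lit 2237, ⟨.ofNat (nat_lit 467180), .ofNat (nat_lit 602531), .ofNat (nat_lit 510875), .ofNat (nat_lit 646249), .ofNat (nat_lit 480752), .ofNat (nat_lit 599967), .ofNat (nat_lit 528899), .ofNat (nat_lit 648136)⟩, ⟨.ofNat (nat_lit 80000), .ofNat (nat_lit 329109), .ofNat (nat_lit 80000), .ofNat (nat_lit 351885), .ofNat (nat_lit 80000), .ofNat (nat_lit 324996), .ofNat (nat_lit 80000), .ofNat (nat_lit 349998)⟩⟩, [⟨nat_lit 3, nat_lit 100, nat_lit 50, nat_lit 65, nat_lit 115101872⟩]⟩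
noncomputable def p110_l135 : Lf2 := ⟨nat_lit 0, nat_lit 10, [nat_lit 0, nat_lit 5, nat_lit 5, nat_lit 20], true, nat_lit 160, nat_lit 248, nat_lit 0, nat_lit 364, ⟨nat_lit 0, nat_lit 1000, nat_lit 0, nat_lit 6, nat_lit 213, nat_lit 1000, nat_lit 155, nat_lit 0, nat_lit 0, nat_lit 0, nat_lit 0, nat_lit 0, nat_lit 44587332, nat_lit 13947209, nat_lit 8465459, nat_lit 4612048, false, false⟩,
 nat_lit 0, nat_lit 0, nat_lit 0, nat_lit 0, nat_lit 3730, nat_lit 0, nat_lit 0, nat_lit 0, nat_lit 0, nat_lit 0, nat_lit 0, nat_lit 0, nat_lit 0, nat_lit 0, nat_lit 0, nat_lit 250000, nat_lit 0, nat_lit 0, [(nat_lit 24, [(nat_lit 0, nat_lit 1000)]), (nat_lit 27, [(nat_lit 0, nat_lit 1000)])],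
 ⟨p110_k26, nat_lit 0, nat_lit 0, nat_lit 78, nat_lit 0, nat_lit 0, [nat_lit 780800001, nat_lit 1705600000], [], [nat_lit 19669573336, nat_lit 23050489536, nat_lit 22507421760, nat_lit 25374829600, nat_lit 22376551391, nat_lit 25472832689, nat_lit 24663927936, nat_lit 27337003117], nat_lit 0, nat_lit 0, nat_lit 0, nat_lit 0, nat_lit 0, nat_lit 0, [], [nat_lit 86, nat_lit 40, nat_lit 40, nat_lit 80, nat_lit 87, nat_lit 272, nat_lit 60, nat_lit 11]⟩, C1.Rw.none,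
 ⟨nat_lit 0, nat_lit 3163, ⟨.ofNat (nat_lit 401957), .ofNat (nat_lit 605128), .ofNat (nat_lit 443658), .ofNat (nat_lit 646918), .ofNat (nat_lit 431745), .ofNat (nat_lit 599865), .ofNat (nat_lit 479136), .ofNat (nat_lit 647345)⟩, ⟨.ofNat (nat_lit 306113), .ofNat (nat_lit 440207), .ofNat (nat_lit 350425), .ofNat (nat_lit 484518), .ofNat (nat_lit 299996), .ofNat (nat_lit 409993), .ofNat (nat_lit 349998), .ofNat (nat_lit 459993)⟩⟩, [⟨nat_lit 16, nat_lit 62, nat_lit 100, nat_lit 94, nat_lit 214238074⟩]⟩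
noncomputable def b_V_900_600_20_1 : St := ⟨true, nat_lit 0, nat_lit 1, nat_lit 1, nat_lit 120, nat_lit 360, nat_lit 400, nat_lit 240, nat_lit 280, nat_lit 112, nat_lit 240, nat_lit 80, nat_lit 120, nat_lit 8, nat_lit 248, nat_lit 0, nat_lit 364, nat_lit 0, nat_lit 40, nat_lit 0, nat_lit 0, nat_lit 0, nat_lit 0⟩
theorem d_V_900_600_20_1 (h : EB TB.env) : Dead b_V_900_600_20_1 := chkB_sound0 h (T :=
(.spl (nat_lit 4) (nat_lit 160)
(.spl (nat_lit 3) (nat_lit 100)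
(.trX (nat_lit 19) (nat_lit 100) (nat_lit 68) (nat_lit 88) (nat_lit 352) (.leaf p110_l132))
(.trZ (nat_lit 3) (nat_lit 100) (nat_lit 69) (nat_lit 45) (nat_lit 16) (.spl (nat_lit 0) (nat_lit 380)
(.leaf p110_l133)
(.trZ (nat_lit 0) (nat_lit 100) (nat_lit 44) (nat_lit 99) (nat_lit 148) (.trZ (nat_lit 3) (nat_lit 100) (nat_lit 50) (nat_lit 65) (nat_lit 32) (.leaf p110_l134))))))
(.leaf p110_l135))) (by decide +kernel)
noncomputable def p110_l136 : Lf2 := ⟨nat_lit 0, nat_lit 10, [nat_lit 0, nat_lit 5, nat_lit 5, nat_lit 20], false, nat_lit 8, nat_lit 40, nat_lit 0, nat_lit 288, ⟨nat_lit 44, nat_lit 956, nat_lit 0, nat_lit 6, nat_lit 270, nat_lit 956, nat_lit 24, nat_lit 0, nat_lit 0, nat_lit 0, nat_lit 0, nat_lit 0, nat_lit 45657706, nat_lit 20837221, nat_lit 505073, nat_lit 3361554, true, true⟩,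
 nat_lit 0, nat_lit 0, nat_lit 911, nat_lit 0, nat_lit 2948, nat_lit 482, nat_lit 0, nat_lit 0, nat_lit 0, nat_lit 19, nat_lit 0, nat_lit 0, nat_lit 0, nat_lit 0, nat_lit 0, nat_lit 382400, nat_lit 0, nat_lit 0, [(nat_lit 24, [(nat_lit 1, nat_lit 956)])],
 ⟨p110_k26, nat_lit 0, nat_lit 0, nat_lit 139, nat_lit 0, nat_lit 0, [nat_lit 964385601, nat_lit 1140886400], [], [nat_lit 23605209533, nat_lit 24765625695, nat_lit 26643626007, nat_lit 27977934772, nat_lit 23275413609, nat_lit 24409120277, nat_lit 26188590513, nat_lit 27163110080], nat_lit 0, nat_lit 0, nat_lit 0, nat_lit 0, nat_lit 0, nat_lit 0, [], [nat_lit 86, nat_lit 40, nat_lit 40, nat_lit 80, nat_lit 87, nat_lit 215, nat_lit 10, nat_lit 8]⟩, ⟨p110_k29, nat_lit 0, nat_lit 0, nat_lit 1241, nat_lit 0, nat_lit 2154459, [nat_lit 206272000, nat_lit 433048000, nat_lit 522368000], [], [nat_lit 1789892016, nat_lit 1783232276, nat_lit 1796951824, nat_lit 1799162968,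 nat_lit 1403411053, nat_lit 1357266564, nat_lit 1374124559, nat_lit 1378073947], nat_lit 1271250, nat_lit 1271250, nat_lit 1271250, nat_lit 1271250, nat_lit 0, nat_lit 2034000, [nat_lit 1100000, nat_lit 2127500, nat_lit 1271250], [nat_lit 125, nat_lit 40, nat_lit 40, nat_lit 80, nat_lit 41, nat_lit 456, nat_lit 225, nat_lit 11]⟩,
 ⟨nat_lit 2236, nat_lit 3163, ⟨.ofNat (nat_lit 605240), .ofNat (nat_lit 727168), .ofNat (nat_lit 627331), .ofNat (nat_lit 749323), .ofNat (nat_lit 602541), .ofNat (nat_lit 716594), .ofNat (nat_lit 625251), .ofNat (nat_lit 739368)⟩, ⟨.ofNat (nat_lit 20000), .ofNat (nat_lit 100000), .ofNat (nat_lit 20000), .ofNat (nat_lit 100000), .ofNat (nat_lit 20000), .ofNat (nat_lit 100000), .ofNat (nat_lit 20000), .ofNat (nat_lit 100000)⟩⟩, [⟨nat_lit 3, nat_lit 100, nat_lit 61, nat_lit 55, nat_lit 317503917⟩, ⟨nat_lit 10, nat_lit 100, nat_lit 74, nat_lit 49, nat_lit 1290017⟩]⟩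
noncomputable def p110_l137 : Lf2 := ⟨nat_lit 0, nat_lit 10, [nat_lit 0, nat_lit 5, nat_lit 5, nat_lit 20], false, nat_lit 8, nat_lit 40, nat_lit 0, nat_lit 288, ⟨nat_lit 101, nat_lit 899, nat_lit 0, nat_lit 6, nat_lit 279, nat_lit 899, nat_lit 24, nat_lit 0, nat_lit 0, nat_lit 0, nat_lit 0, nat_lit 0, nat_lit 44719787, nat_lit 21780177, nat_lit 500036, nat_lit 3412629, true, true⟩,
 nat_lit 0, nat_lit 0, nat_lit 1329, nat_lit 0, nat_lit 3029, nat_lit 773, nat_lit 0, nat_lit 0, nat_lit 0, nat_lit 178, nat_lit 0, nat_lit 0, nat_lit 0, nat_lit 0, nat_lit 0, nat_lit 383600, nat_lit 0, nat_lit 0, [(nat_lit 24, [(nat_lit 1, nat_lit 859), (nat_lit 2, nat_lit 40)])],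
 ⟨p110_k26, nat_lit 0, nat_lit 0, nat_lit 139, nat_lit 0, nat_lit 0, [nat_lit 1008828401, nat_lit 1222249600], [], [nat_lit 23721595909, nat_lit 24895909549, nat_lit 26828854928, nat_lit 28179556278, nat_lit 23369243235, nat_lit 24516407324, nat_lit 26303245077, nat_lit 27330655340], nat_lit 0, nat_lit 0, nat_lit 0, nat_lit 0, nat_lit 0, nat_lit 0, [], [nat_lit 86, nat_lit 40, nat_lit 40, nat_lit 80, nat_lit 87, nat_lit 215, nat_lit 10, nat_lit 8]⟩, ⟨p110_k30, nat_lit 0, nat_lit 0, nat_lit 1090, nat_lit 0, nat_lit 1990375, [nat_lit 473488000, nat_lit 994042000], [], [nat_lit 3442834002, nat_lit 3444528072, nat_lit 3458938050, nat_lit 3456141732, nat_lit 2990016603, nat_lit 2987292224, nat_lit 2988023223, nat_lit 2982715016], nat_lit 1271250, nat_lit 1271250, nat_lit 1271250, nat_lit 1271250, nat_lit 0, nat_lit 2034000, [nat_lit 1100000, nat_lit 2127500], [nat_lit 70, nat_lit 40, nat_lit 40, nat_lit 80, nat_lit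 13, nat_lit 456, nat_lit 225, nat_lit 13]⟩,
 ⟨nat_lit 2236, nat_lit 3163, ⟨.ofNat (nat_lit 627331), .ofNat (nat_lit 749323), .ofNat (nat_lit 649422), .ofNat (nat_lit 771478), .ofNat (nat_lit 625251), .ofNat (nat_lit 739368), .ofNat (nat_lit 647962), .ofNat (nat_lit 762142)⟩, ⟨.ofNat (nat_lit 20000), .ofNat (nat_lit 100000), .ofNat (nat_lit 20000), .ofNat (nat_lit 100000), .ofNat (nat_lit 20000), .ofNat (nat_lit 100000), .ofNat (nat_lit 20000), .ofNat (nat_lit 100000)⟩⟩, [⟨nat_lit 3, nat_lit 100, nat_lit 61, nat_lit 55, nat_lit 67639780⟩, ⟨nat_lit 3, nat_lit 100, nat_lit 48, nat_lit 71, nat_lit 264869829⟩, ⟨nat_lit 10, nat_lit 100, nat_lit 74, nat_lit 49, nat_lit 26750194⟩]⟩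
noncomputable def p110_l138 : Lf2 := ⟨nat_lit 0, nat_lit 10, [nat_lit 0, nat_lit 5, nat_lit 5, nat_lit 20], true, nat_lit 20, nat_lit 40, nat_lit 0, nat_lit 288, ⟨nat_lit 0, nat_lit 1000, nat_lit 0, nat_lit 6, nat_lit 271, nat_lit 1000, nat_lit 30, nat_lit 0, nat_lit 0, nat_lit 0, nat_lit 0, nat_lit 0, nat_lit 45325550, nat_lit 20970487, nat_lit 703963, nat_lit 3449540, true, true⟩,
 nat_lit 0, nat_lit 0, nat_lit 0, nat_lit 0, nat_lit 2276, nat_lit 0, nat_lit 0, nat_lit 0, nat_lit 0, nat_lit 0, nat_lit 0, nat_lit 0, nat_lit 0, nat_lit 0, nat_lit 0, nat_lit 371050, nat_lit 0, nat_lit 0, [(nat_lit 27, [(nat_lit 0, nat_lit 193), (nat_lit 1, nat_lit 807)])],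
 ⟨p110_k28, nat_lit 0, nat_lit 0, nat_lit 124, nat_lit 0, nat_lit 0, [nat_lit 713657600, nat_lit 463051200], [], [nat_lit 22915948770, nat_lit 24186127488, nat_lit 26105678744, nat_lit 27296404096, nat_lit 22840759420, nat_lit 23999740048, nat_lit 25774392408, nat_lit 26951187536], nat_lit 0, nat_lit 0, nat_lit 0, nat_lit 0, nat_lit 0, nat_lit 0, [], [nat_lit 66, nat_lit 40, nat_lit 40, nat_lit 80, nat_lit 67, nat_lit 215, nat_lit 10, nat_lit 10]⟩, C1.Rw.none,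
 ⟨nat_lit 0, nat_lit 2237, ⟨.ofNat (nat_lit 602531), .ofNat (nat_lit 716590), .ofNat (nat_lit 646249), .ofNat (nat_lit 762141), .ofNat (nat_lit 599967), .ofNat (nat_lit 699995), .ofNat (nat_lit 648136), .ofNat (nat_lit 749998)⟩, ⟨.ofNat (nat_lit 50000), .ofNat (nat_lit 100000), .ofNat (nat_lit 50000), .ofNat (nat_lit 100000), .ofNat (nat_lit 50000), .ofNat (nat_lit 100000), .ofNat (nat_lit 50000), .ofNat (nat_lit 100000)⟩⟩, [⟨nat_lit 3, nat_lit 100, nat_lit 54, nat_lit 57, nat_lit 827831385⟩]⟩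
noncomputable def p110_l139 : Lf2 := ⟨nat_lit 0, nat_lit 10, [nat_lit 0, nat_lit 5, nat_lit 5, nat_lit 20], true, nat_lit 40, nat_lit 80, nat_lit 0, nat_lit 336, ⟨nat_lit 0, nat_lit 1000, nat_lit 0, nat_lit 6, nat_lit 274, nat_lit 1000, nat_lit 59, nat_lit 0, nat_lit 0, nat_lit 0, nat_lit 0, nat_lit 0, nat_lit 44074343, nat_lit 21010708, nat_lit 1914949, nat_lit 3849451, true, true⟩,
 nat_lit 0, nat_lit 0, nat_lit 0, nat_lit 0, nat_lit 2554, nat_lit 0, nat_lit 0, nat_lit 0, nat_lit 0, nat_lit 0, nat_lit 0, nat_lit 0, nat_lit 0, nat_lit 0, nat_lit 0, nat_lit 461800, nat_lit 0, nat_lit 0, [(nat_lit 24, [(nat_lit 1, nat_lit 897), (nat_lit 2, nat_lit 103)])],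
 ⟨p110_k31, nat_lit 0, nat_lit 0, nat_lit 117, nat_lit 0, nat_lit 0, [nat_lit 911860000, nat_lit 845909601, nat_lit 640703200], [], [nat_lit 22370556549, nat_lit 23492805281, nat_lit 25317146733, nat_lit 26349752846, nat_lit 22095078793, nat_lit 23184637649, nat_lit 24973344313, nat_lit 25949930789], nat_lit 0, nat_lit 0, nat_lit 0, nat_lit 0, nat_lit 0, nat_lit 0, [], [nat_lit 35, nat_lit 40, nat_lit 40, nat_lit 80, nat_lit 22, nat_lit 226, nat_lit 20, nat_lit 9]⟩, C1.Rw.none,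
 ⟨nat_lit 2236, nat_lit 3163, ⟨.ofNat (nat_lit 605240), .ofNat (nat_lit 727168), .ofNat (nat_lit 649422), .ofNat (nat_lit 771478), .ofNat (nat_lit 602541), .ofNat (nat_lit 716594), .ofNat (nat_lit 647962), .ofNat (nat_lit 762142)⟩, ⟨.ofNat (nat_lit 100000), .ofNat (nat_lit 184209), .ofNat (nat_lit 100000), .ofNat (nat_lit 200000), .ofNat (nat_lit 100000), .ofNat (nat_lit 192306), .ofNat (nat_lit 100000), .ofNat (nat_lit 200000)⟩⟩, []⟩
noncomputable def p110_l140 : Lf2 := ⟨nat_lit 0, nat_lit 10, [nat_lit 0, nat_lit 5, nat_lit 5, nat_lit 20], true, nat_lit 40, nat_lit 80, nat_lit 0, nat_lit 336, ⟨nat_lit 0, nat_lit 1000, nat_lit 0, nat_lit 6, nat_lit 271, nat_lit 1000, nat_lit 60, nat_lit 0, nat_lit 0, nat_lit 0, nat_lit 0, nat_lit 0, nat_lit 44328235, nat_lit 20712008, nat_lit 1959757, nat_lit 3845149, true, true⟩,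
 nat_lit 0, nat_lit 0, nat_lit 0, nat_lit 0, nat_lit 2276, nat_lit 0, nat_lit 0, nat_lit 0, nat_lit 0, nat_lit 0, nat_lit 0, nat_lit 0, nat_lit 0, nat_lit 0, nat_lit 0, nat_lit 371050, nat_lit 0, nat_lit 0, [(nat_lit 27, [(nat_lit 0, nat_lit 193), (nat_lit 1, nat_lit 807)])],
 ⟨p110_k28, nat_lit 0, nat_lit 0, nat_lit 113, nat_lit 0, nat_lit 0, [nat_lit 713657600, nat_lit 463051200], [], [nat_lit 22840759420, nat_lit 23999740048, nat_lit 25774392408, nat_lit 26951187536, nat_lit 22690380720, nat_lit 23814449792, nat_lit 25557709608, nat_lit 26552929216], nat_lit 0, nat_lit 0, nat_lit 0, nat_lit 0, nat_lit 0, nat_lit 0, [], [nat_lit 66, nat_lit 40, nat_lit 40, nat_lit 80, nat_lit 67, nat_lit 226, nat_lit 20, nat_lit 11]⟩, C1.Rw.none,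
 ⟨nat_lit 0, nat_lit 2237, ⟨.ofNat (nat_lit 602531), .ofNat (nat_lit 716590), .ofNat (nat_lit 646249), .ofNat (nat_lit 762141), .ofNat (nat_lit 599967), .ofNat (nat_lit 699995), .ofNat (nat_lit 648136), .ofNat (nat_lit 749998)⟩, ⟨.ofNat (nat_lit 100000), .ofNat (nat_lit 192306), .ofNat (nat_lit 100000), .ofNat (nat_lit 200000), .ofNat (nat_lit 100000), .ofNat (nat_lit 199999), .ofNat (nat_lit 100000), .ofNat (nat_lit 200000)⟩⟩, [⟨nat_lit 3, nat_lit 100, nat_lit 54, nat_lit 57, nat_lit 237920297⟩]⟩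
noncomputable def p110_l141 : Lf2 := ⟨nat_lit 0, nat_lit 10, [nat_lit 0, nat_lit 5, nat_lit 5, nat_lit 20], false, nat_lit 8, nat_lit 80, nat_lit 0, nat_lit 260, ⟨nat_lit 73, nat_lit 927, nat_lit 0, nat_lit 8, nat_lit 303, nat_lit 927, nat_lit 43, nat_lit 0, nat_lit 0, nat_lit 0, nat_lit 0, nat_lit 0, nat_lit 41761917, nat_lit 24086952, nat_lit 1151131, nat_lit 3764670, true, true⟩,
 nat_lit 0, nat_lit 0, nat_lit 1338, nat_lit 0, nat_lit 2512, nat_lit 708, nat_lit 8, nat_lit 0, nat_lit 0, nat_lit 71, nat_lit 0, nat_lit 0, nat_lit 0, nat_lit 0, nat_lit 0, nat_lit 449400, nat_lit 0, nat_lit 0, [(nat_lit 24, [(nat_lit 1, nat_lit 796), (nat_lit 2, nat_lit 131)])],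
 ⟨p110_k31, nat_lit 0, nat_lit 0, nat_lit 151, nat_lit 0, nat_lit 0, [nat_lit 935790000, nat_lit 971526534, nat_lit 827979200], [], [nat_lit 26267114347, nat_lit 27227232037, nat_lit 27932858968, nat_lit 28898698898, nat_lit 25767439646, nat_lit 26681465182, nat_lit 27358093566, nat_lit 28279459542], nat_lit 0, nat_lit 0, nat_lit 0, nat_lit 0, nat_lit 0, nat_lit 0, [], [nat_lit 35, nat_lit 40, nat_lit 40, nat_lit 80, nat_lit 22, nat_lit 226, nat_lit 20, nat_lit 8]⟩, ⟨p110_k32, nat_lit 0, nat_lit 0, nat_lit 1187, nat_lit 0, nat_lit 2096053, [nat_lit 342224000, nat_lit 581664000, nat_lit 866656000], [], [nat_lit 2804822924, nat_lit 2796323313, nat_lit 2798971720, nat_lit 2796606502, nat_lit 2231228069, nat_lit 2220807009, nat_lit 2213956325, nat_lit 2202923054], nat_lit 1271250, nat_lit 1271250, nat_lit 1271250, nat_lit 1271250, nat_lit 0, nat_lit 1836250, [nat_lit 1100000, nat_lit 1785000, nat_lit 1271250], [nat_lit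 21, nat_lit 40, nat_lit 40, nat_lit 80, nat_lit 14, nat_lit 406, nat_lit 150, nat_lit 10]⟩,
 ⟨nat_lit 2236, nat_lit 3163, ⟨.ofNat (nat_lit 727168), .ofNat (nat_lit 788122), .ofNat (nat_lit 738246), .ofNat (nat_lit 799199), .ofNat (nat_lit 716594), .ofNat (nat_lit 773609), .ofNat (nat_lit 727981), .ofNat (nat_lit 784996)⟩, ⟨.ofNat (nat_lit 20000), .ofNat (nat_lit 184209), .ofNat (nat_lit 20000), .ofNat (nat_lit 200000), .ofNat (nat_lit 20000), .ofNat (nat_lit 192306), .ofNat (nat_lit 20000), .ofNat (nat_lit 200000)⟩⟩, [⟨nat_lit 13, nat_lit 54, nat_lit 73, nat_lit 100, nat_lit 264268929⟩, ⟨nat_lit 3, nat_lit 100, nat_lit 61, nat_lit 55, nat_lit 216075710⟩, ⟨nat_lit 22, nat_lit 72, nat_lit 100, nat_lit 63, nat_lit 373070⟩]⟩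
noncomputable def p110_l142 : Lf2 := ⟨nat_lit 0, nat_lit 10, [nat_lit 0, nat_lit 5, nat_lit 5, nat_lit 20], false, nat_lit 8, nat_lit 80, nat_lit 0, nat_lit 260, ⟨nat_lit 101, nat_lit 899, nat_lit 0, nat_lit 8, nat_lit 308, nat_lit 899, nat_lit 43, nat_lit 0, nat_lit 0, nat_lit 0, nat_lit 0, nat_lit 0, nat_lit 41205752, nat_lit 24652280, nat_lit 1141968, nat_lit 3784320, true, true⟩,
 nat_lit 0, nat_lit 0, nat_lit 1515, nat_lit 0, nat_lit 2593, nat_lit 841, nat_lit 0, nat_lit 0, nat_lit 0, nat_lit 192, nat_lit 0, nat_lit 0, nat_lit 0, nat_lit 0, nat_lit 0, nat_lit 401000, nat_lit 0, nat_lit 0, [(nat_lit 24, [(nat_lit 1, nat_lit 830), (nat_lit 2, nat_lit 69)])],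
 ⟨p110_k31, nat_lit 0, nat_lit 0, nat_lit 153, nat_lit 0, nat_lit 0, [nat_lit 899870000, nat_lit 1126645467, nat_lit 1121347200], [], [nat_lit 26590299167, nat_lit 27561721686, nat_lit 28451266231, nat_lit 29336901560, nat_lit 26040237735, nat_lit 26964763139, nat_lit 27835600333, nat_lit 28741918607], nat_lit 0, nat_lit 0, nat_lit 0, nat_lit 0, nat_lit 0, nat_lit 0, [], [nat_lit 35, nat_lit 40, nat_lit 40, nat_lit 80, nat_lit 22, nat_lit 226, nat_lit 20, nat_lit 8]⟩, ⟨p110_k33, nat_lit 0, nat_lit 0, nat_lit 1079, nat_lit 0, nat_lit 2004064, [nat_lit 473488000, nat_lit 804768000, nat_lit 994042000], [], [nat_lit 3490816061, nat_lit 3499142594, nat_lit 3597480387, nat_lit 3602883992, nat_lit 2906320838, nat_lit 2907914876, nat_lit 2971095418, nat_lit 2970960135], nat_lit 1271250, nat_lit 1271250, nat_lit 1271250, nat_lit 1271250, nat_lit 0, nat_lit 1836250, [nat_lit 1100000, nat_lit 1785000, nat_lit 1271250], [nat_lit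 29, nat_lit 40, nat_lit 40, nat_lit 80, nat_lit 17, nat_lit 381, nat_lit 150, nat_lit 10]⟩,
 ⟨nat_lit 2236, nat_lit 3163, ⟨.ofNat (nat_lit 738246), .ofNat (nat_lit 805295), .ofNat (nat_lit 749323), .ofNat (nat_lit 816372), .ofNat (nat_lit 727981), .ofNat (nat_lit 790698), .ofNat (nat_lit 739368), .ofNat (nat_lit 802085)⟩, ⟨.ofNat (nat_lit 20000), .ofNat (nat_lit 184209), .ofNat (nat_lit 20000), .ofNat (nat_lit 200000), .ofNat (nat_lit 20000), .ofNat (nat_lit 192306), .ofNat (nat_lit 20000), .ofNat (nat_lit 200000)⟩⟩, [⟨nat_lit 13, nat_lit 55, nat_lit 70, nat_lit 100, nat_lit 258458737⟩, ⟨nat_lit 3, nat_lit 100, nat_lit 61, nat_lit 55, nat_lit 126191208⟩, ⟨nat_lit 3, nat_lit 100, nat_lit 48, nat_lit 71, nat_lit 84415107⟩, ⟨nat_lit 22, nat_lit 71, nat_lit 100, nat_lit 63, nat_lit 11892725⟩]⟩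
noncomputable def p110_l143 : Lf2 := ⟨nat_lit 0, nat_lit 10, [nat_lit 0, nat_lit 5, nat_lit 5, nat_lit 20], true, nat_lit 20, nat_lit 80, nat_lit 0, nat_lit 260, ⟨nat_lit 0, nat_lit 1000, nat_lit 0, nat_lit 8, nat_lit 293, nat_lit 1000, nat_lit 50, nat_lit 0, nat_lit 0, nat_lit 0, nat_lit 0, nat_lit 0, nat_lit 42477828, nat_lit 23070917, nat_lit 1451255, nat_lit 3816769, true, true⟩,
 nat_lit 0, nat_lit 0, nat_lit 0, nat_lit 0, nat_lit 2186, nat_lit 0, nat_lit 0, nat_lit 0, nat_lit 0, nat_lit 0, nat_lit 0, nat_lit 0, nat_lit 0, nat_lit 0, nat_lit 0, nat_lit 363400, nat_lit 0, nat_lit 0, [(nat_lit 27, [(nat_lit 0, nat_lit 244), (nat_lit 1, nat_lit 756)])],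
 ⟨p110_k28, nat_lit 0, nat_lit 0, nat_lit 128, nat_lit 0, nat_lit 0, [nat_lit 717900801, nat_lit 499689600], [], [nat_lit 26018446792, nat_lit 27068506456, nat_lit 26848015623, nat_lit 27966894107, nat_lit 25741725592, nat_lit 26698407900, nat_lit 26541165010, nat_lit 27460378912], nat_lit 0, nat_lit 0, nat_lit 0, nat_lit 0, nat_lit 0, nat_lit 0, [], [nat_lit 66, nat_lit 40, nat_lit 40, nat_lit 80, nat_lit 67, nat_lit 226, nat_lit 20, nat_lit 11]⟩, C1.Rw.none,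
 ⟨nat_lit 0, nat_lit 2237, ⟨.ofNat (nat_lit 716590), .ofNat (nat_lit 745097), .ofNat (nat_lit 739366), .ofNat (nat_lit 767872), .ofNat (nat_lit 699995), .ofNat (nat_lit 724995), .ofNat (nat_lit 724997), .ofNat (nat_lit 749995)⟩, ⟨.ofNat (nat_lit 50000), .ofNat (nat_lit 192306), .ofNat (nat_lit 50000), .ofNat (nat_lit 200000), .ofNat (nat_lit 50000), .ofNat (nat_lit 199999), .ofNat (nat_lit 50000), .ofNat (nat_lit 200000)⟩⟩, [⟨nat_lit 13, nat_lit 46, nat_lit 76, nat_lit 100, nat_lit 424453405⟩, ⟨nat_lit 3, nat_lit 100, nat_lit 54, nat_lit 57, nat_lit 232706994⟩]⟩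
noncomputable def p110_l144 : Lf2 := ⟨nat_lit 0, nat_lit 10, [nat_lit 0, nat_lit 5, nat_lit 5, nat_lit 20], false, nat_lit 8, nat_lit 80, nat_lit 0, nat_lit 260, ⟨nat_lit 131, nat_lit 869, nat_lit 0, nat_lit 8, nat_lit 317, nat_lit 869, nat_lit 43, nat_lit 0, nat_lit 0, nat_lit 0, nat_lit 0, nat_lit 0, nat_lit 40424265, nat_lit 25455014, nat_lit 1120721, nat_lit 3806798, true, true⟩,
 nat_lit 0, nat_lit 0, nat_lit 1694, nat_lit 0, nat_lit 2536, nat_lit 986, nat_lit 84, nat_lit 0, nat_lit 0, nat_lit 168, nat_lit 0, nat_lit 0, nat_lit 0, nat_lit 0, nat_lit 0, nat_lit 387800, nat_lit 0, nat_lit 0, [(nat_lit 24, [(nat_lit 1, nat_lit 802), (nat_lit 2, nat_lit 67)])],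
 ⟨p110_k31, nat_lit 0, nat_lit 0, nat_lit 152, nat_lit 0, nat_lit 0, [nat_lit 901330000, nat_lit 1198125734, nat_lit 1239446400], [], [nat_lit 26425384473, nat_lit 26907118107, nat_lit 28627455280, nat_lit 29058709408, nat_lit 25910780370, nat_lit 26369348674, nat_lit 28013199558, nat_lit 28425163361], nat_lit 0, nat_lit 0, nat_lit 0, nat_lit 0, nat_lit 0, nat_lit 0, [], [nat_lit 35, nat_lit 40, nat_lit 40, nat_lit 80, nat_lit 22, nat_lit 226, nat_lit 20, nat_lit 8]⟩, ⟨p110_k34, nat_lit 0, nat_lit 0, nat_lit 953, nat_lit 0, nat_lit 1733471, [nat_lit 614128000, nat_lit 1043808000, nat_lit 1289302000], [], [nat_lit 4602222130, nat_lit 4606343289, nat_lit 4692195505, nat_lit 4693692825, nat_lit 4044511670, nat_lit 4042828124, nat_lit 4094416094, nat_lit 4090744850], nat_lit 1271250, nat_lit 1271250, nat_lit 1271250, nat_lit 1271250, nat_lit 0, nat_lit 1836250, [nat_lit 1100000, nat_lit 1785000, nat_lit 1271250], [nat_lit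 29, nat_lit 40, nat_lit 40, nat_lit 80, nat_lit 17, nat_lit 373, nat_lit 150, nat_lit 10]⟩,
 ⟨nat_lit 2738, nat_lit 3163, ⟨.ofNat (nat_lit 749323), .ofNat (nat_lit 828563), .ofNat (nat_lit 760401), .ofNat (nat_lit 839640), .ofNat (nat_lit 744435), .ofNat (nat_lit 821214), .ofNat (nat_lit 755643), .ofNat (nat_lit 832423)⟩, ⟨.ofNat (nat_lit 20000), .ofNat (nat_lit 184209), .ofNat (nat_lit 20000), .ofNat (nat_lit 200000), .ofNat (nat_lit 20000), .ofNat (nat_lit 188310), .ofNat (nat_lit 20000), .ofNat (nat_lit 200000)⟩⟩, [⟨nat_lit 13, nat_lit 55, nat_lit 68, nat_lit 100, nat_lit 211670327⟩, ⟨nat_lit 3, nat_lit 100, nat_lit 57, nat_lit 62, nat_lit 174324417⟩, ⟨nat_lit 22, nat_lit 69, nat_lit 100, nat_lit 63, nat_lit 24570844⟩]⟩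
noncomputable def p110_l145 : Lf2 := ⟨nat_lit 0, nat_lit 10, [nat_lit 0, nat_lit 5, nat_lit 5, nat_lit 20], false, nat_lit 8, nat_lit 80, nat_lit 0, nat_lit 260, ⟨nat_lit 139, nat_lit 861, nat_lit 0, nat_lit 8, nat_lit 322, nat_lit 861, nat_lit 43, nat_lit 0, nat_lit 0, nat_lit 0, nat_lit 0, nat_lit 0, nat_lit 39881756, nat_lit 26007004, nat_lit 1111240, nat_lit 3822166, true, true⟩,
 nat_lit 0, nat_lit 0, nat_lit 1669, nat_lit 0, nat_lit 2587, nat_lit 1016, nat_lit 109, nat_lit 0, nat_lit 0, nat_lit 158, nat_lit 0, nat_lit 0, nat_lit 0, nat_lit 0, nat_lit 0, nat_lit 344400, nat_lit 0, nat_lit 0, [(nat_lit 24, [(nat_lit 1, nat_lit 861)])],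
 ⟨p110_k31, nat_lit 0, nat_lit 0, nat_lit 155, nat_lit 0, nat_lit 0, [nat_lit 860510000, nat_lit 1314902000, nat_lit 1473370400], [], [nat_lit 26509377968, nat_lit 26994670531, nat_lit 28959186175, nat_lit 29421617510, nat_lit 25963048887, nat_lit 26424922705, nat_lit 28385624688, nat_lit 28826520532], nat_lit 0, nat_lit 0, nat_lit 0, nat_lit 0, nat_lit 0, nat_lit 0, [], [nat_lit 35, nat_lit 40, nat_lit 40, nat_lit 80, nat_lit 22, nat_lit 226, nat_lit 20, nat_lit 8]⟩, ⟨p110_k35, nat_lit 0, nat_lit 0, nat_lit 931, nat_lit 0, nat_lit 1685455, [nat_lit 651632000, nat_lit 1107552000, nat_lit 1368038000], [], [nat_lit 4900145419, nat_lit 4908020456, nat_lit 5022814276, nat_lit 5027425649, nat_lit 4369651296, nat_lit 4371062712, nat_lit 4458234090, nat_lit 4459124197], nat_lit 1271250, nat_lit 1271250, nat_lit 1271250, nat_lit 1271250, nat_lit 0, nat_lit 1836250, [nat_lit 1100000, nat_lit 1785000, nat_lit 1271250], [nat_lit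 29, nat_lit 40, nat_lit 40, nat_lit 80, nat_lit 17, nat_lit 373, nat_lit 150, nat_lit 10]⟩,
 ⟨nat_lit 2738, nat_lit 3163, ⟨.ofNat (nat_lit 760401), .ofNat (nat_lit 845735), .ofNat (nat_lit 771478), .ofNat (nat_lit 856813), .ofNat (nat_lit 755643), .ofNat (nat_lit 838329), .ofNat (nat_lit 766852), .ofNat (nat_lit 849538)⟩, ⟨.ofNat (nat_lit 20000), .ofNat (nat_lit 184209), .ofNat (nat_lit 20000), .ofNat (nat_lit 200000), .ofNat (nat_lit 20000), .ofNat (nat_lit 188310), .ofNat (nat_lit 20000), .ofNat (nat_lit 200000)⟩⟩, [⟨nat_lit 13, nat_lit 56, nat_lit 65, nat_lit 100, nat_lit 223709747⟩, ⟨nat_lit 3, nat_lit 100, nat_lit 57, nat_lit 62, nat_lit 167091628⟩, ⟨nat_lit 10, nat_lit 100, nat_lit 55, nat_lit 67, nat_lit 34754417⟩]⟩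
noncomputable def p110_l146 : Lf2 := ⟨nat_lit 0, nat_lit 10, [nat_lit 0, nat_lit 5, nat_lit 5, nat_lit 20], false, nat_lit 12, nat_lit 80, nat_lit 0, nat_lit 260, ⟨nat_lit 118, nat_lit 882, nat_lit 0, nat_lit 8, nat_lit 315, nat_lit 882, nat_lit 45, nat_lit 0, nat_lit 0, nat_lit 0, nat_lit 0, nat_lit 0, nat_lit 40491013, nat_lit 25290403, nat_lit 1218584, nat_lit 3833307, true, true⟩,
 nat_lit 0, nat_lit 0, nat_lit 1571, nat_lit 0, nat_lit 2373, nat_lit 914, nat_lit 253, nat_lit 0, nat_lit 0, nat_lit 128, nat_lit 0, nat_lit 0, nat_lit 0, nat_lit 0, nat_lit 0, nat_lit 220500, nat_lit 0, nat_lit 0, [(nat_lit 24, [(nat_lit 0, nat_lit 882)])],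
 ⟨p110_k36, nat_lit 0, nat_lit 0, nat_lit 151, nat_lit 0, nat_lit 0, [nat_lit 783826401, nat_lit 1593146400, nat_lit 2057523200], [], [nat_lit 26389790756, nat_lit 26880993840, nat_lit 28411762180, nat_lit 28855410205, nat_lit 25974698187, nat_lit 26443545892, nat_lit 27911928630, nat_lit 28336734728], nat_lit 0, nat_lit 0, nat_lit 0, nat_lit 0, nat_lit 0, nat_lit 0, [], [nat_lit 35, nat_lit 40, nat_lit 40, nat_lit 80, nat_lit 22, nat_lit 226, nat_lit 20, nat_lit 8]⟩, ⟨p110_k34, nat_lit 0, nat_lit 0, nat_lit 1070, nat_lit 0, nat_lit 1990375, [nat_lit 553184000, nat_lit 940224000, nat_lit 1161356000], [], [nat_lit 4223202404, nat_lit 4220336408, nat_lit 4265918185, nat_lit 4278167007, nat_lit 3658491168, nat_lit 3647383596, nat_lit 3674744899, nat_lit 3660966359], nat_lit 1271250, nat_lit 1271250, nat_lit 1271250, nat_lit 1271250, nat_lit 0, nat_lit 1836250, [nat_lit 1100000, nat_lit 1785000, nat_lit 1271250], [nat_lit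 29, nat_lit 40, nat_lit 40, nat_lit 80, nat_lit 17, nat_lit 381, nat_lit 150, nat_lit 10]⟩,
 ⟨nat_lit 2236, nat_lit 2739, ⟨.ofNat (nat_lit 744435), .ofNat (nat_lit 815308), .ofNat (nat_lit 766852), .ofNat (nat_lit 837726), .ofNat (nat_lit 739368), .ofNat (nat_lit 807787), .ofNat (nat_lit 762142), .ofNat (nat_lit 830561)⟩, ⟨.ofNat (nat_lit 30000), .ofNat (nat_lit 188310), .ofNat (nat_lit 30000), .ofNat (nat_lit 200000), .ofNat (nat_lit 30000), .ofNat (nat_lit 192306), .ofNat (nat_lit 30000), .ofNat (nat_lit 200000)⟩⟩, [⟨nat_lit 13, nat_lit 52, nat_lit 69, nat_lit 100, nat_lit 247665473⟩, ⟨nat_lit 3, nat_lit 100, nat_lit 56, nat_lit 60, nat_lit 82251596⟩, ⟨nat_lit 3, nat_lit 100, nat_lit 48, nat_lit 71, nat_lit 109813391⟩, ⟨nat_lit 22, nat_lit 70, nat_lit 100, nat_lit 64, nat_lit 17430285⟩]⟩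
noncomputable def p110_l147 : Lf2 := ⟨nat_lit 0, nat_lit 10, [nat_lit 0, nat_lit 5, nat_lit 5, nat_lit 20], true, nat_lit 20, nat_lit 80, nat_lit 0, nat_lit 260, ⟨nat_lit 0, nat_lit 1000, nat_lit 0, nat_lit 8, nat_lit 306, nat_lit 1000, nat_lit 50, nat_lit 0, nat_lit 0, nat_lit 0, nat_lit 0, nat_lit 0, nat_lit 41227840, nat_lit 24346132, nat_lit 1426028, nat_lit 3863798, true, true⟩,
 nat_lit 0, nat_lit 0, nat_lit 0, nat_lit 0, nat_lit 2178, nat_lit 0, nat_lit 0, nat_lit 0, nat_lit 0, nat_lit 0, nat_lit 0, nat_lit 0, nat_lit 0, nat_lit 0, nat_lit 0, nat_lit 356350, nat_lit 0, nat_lit 0, [(nat_lit 27, [(nat_lit 0, nat_lit 291), (nat_lit 1, nat_lit 709)])],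
 ⟨p110_k28, nat_lit 0, nat_lit 0, nat_lit 130, nat_lit 0, nat_lit 0, [nat_lit 721811200, nat_lit 533454400], [], [nat_lit 26075151124, nat_lit 27070901402, nat_lit 27400985126, nat_lit 28484168285, nat_lit 25802723524, nat_lit 26758186808, nat_lit 27080495227, nat_lit 27976146930], nat_lit 0, nat_lit 0, nat_lit 0, nat_lit 0, nat_lit 0, nat_lit 0, [], [nat_lit 66, nat_lit 40, nat_lit 40, nat_lit 80, nat_lit 67, nat_lit 226, nat_lit 20, nat_lit 11]⟩, C1.Rw.none,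
 ⟨nat_lit 0, nat_lit 2237, ⟨.ofNat (nat_lit 739366), .ofNat (nat_lit 784976), .ofNat (nat_lit 762141), .ofNat (nat_lit 807752), .ofNat (nat_lit 724997), .ofNat (nat_lit 764995), .ofNat (nat_lit 749998), .ofNat (nat_lit 789996)⟩, ⟨.ofNat (nat_lit 50000), .ofNat (nat_lit 192306), .ofNat (nat_lit 50000), .ofNat (nat_lit 200000), .ofNat (nat_lit 50000), .ofNat (nat_lit 199999), .ofNat (nat_lit 50000), .ofNat (nat_lit 200000)⟩⟩, [⟨nat_lit 13, nat_lit 48, nat_lit 71, nat_lit 100, nat_lit 401294354⟩, ⟨nat_lit 3, nat_lit 100, nat_lit 54, nat_lit 57, nat_lit 231637089⟩]⟩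
noncomputable def p110_l148 : Lf2 := ⟨nat_lit 0, nat_lit 10, [nat_lit 0, nat_lit 5, nat_lit 5, nat_lit 20], true, nat_lit 80, nat_lit 160, nat_lit 0, nat_lit 364, ⟨nat_lit 0, nat_lit 1000, nat_lit 0, nat_lit 6, nat_lit 272, nat_lit 1000, nat_lit 105, nat_lit 0, nat_lit 0, nat_lit 0, nat_lit 0, nat_lit 0, nat_lit 42264268, nat_lit 20257445, nat_lit 4478287, nat_lit 4414912, true, true⟩,
 nat_lit 0, nat_lit 0, nat_lit 0, nat_lit 0, nat_lit 2757, nat_lit 0, nat_lit 0, nat_lit 0, nat_lit 0, nat_lit 0, nat_lit 0, nat_lit 0, nat_lit 0, nat_lit 0, nat_lit 0, nat_lit 250000, nat_lit 0, nat_lit 0, [(nat_lit 24, [(nat_lit 0, nat_lit 1000)]), (nat_lit 27, [(nat_lit 0, nat_lit 1000)])],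
 ⟨p110_k26, nat_lit 0, nat_lit 0, nat_lit 95, nat_lit 0, nat_lit 0, [nat_lit 780800001, nat_lit 1705600000], [], [nat_lit 22547713923, nat_lit 24922509715, nat_lit 25637843471, nat_lit 27674384039, nat_lit 23475043767, nat_lit 25638330487, nat_lit 26306301643, nat_lit 28172082387], nat_lit 0, nat_lit 0, nat_lit 0, nat_lit 0, nat_lit 0, nat_lit 0, [], [nat_lit 86, nat_lit 40, nat_lit 40, nat_lit 80, nat_lit 87, nat_lit 249, nat_lit 40, nat_lit 10]⟩, C1.Rw.none,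
 ⟨nat_lit 0, nat_lit 3163, ⟨.ofNat (nat_lit 605128), .ofNat (nat_lit 727166), .ofNat (nat_lit 646918), .ofNat (nat_lit 771478), .ofNat (nat_lit 599865), .ofNat (nat_lit 699997), .ofNat (nat_lit 647345), .ofNat (nat_lit 749999)⟩, ⟨.ofNat (nat_lit 184209), .ofNat (nat_lit 306113), .ofNat (nat_lit 200000), .ofNat (nat_lit 350425), .ofNat (nat_lit 199999), .ofNat (nat_lit 299996), .ofNat (nat_lit 200000), .ofNat (nat_lit 349998)⟩⟩, [⟨nat_lit 13, nat_lit 46, nat_lit 76, nat_lit 100, nat_lit 20291332⟩]⟩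
noncomputable def p110_l149 : Lf2 := ⟨nat_lit 0, nat_lit 10, [nat_lit 0, nat_lit 5, nat_lit 5, nat_lit 20], true, nat_lit 80, nat_lit 160, nat_lit 0, nat_lit 336, ⟨nat_lit 0, nat_lit 1000, nat_lit 0, nat_lit 8, nat_lit 310, nat_lit 1000, nat_lit 105, nat_lit 0, nat_lit 0, nat_lit 0, nat_lit 0, nat_lit 0, nat_lit 38870900, nat_lit 23879734, nat_lit 4249366, nat_lit 4540936, true, true⟩,
 nat_lit 0, nat_lit 0, nat_lit 0, nat_lit 0, nat_lit 2704, nat_lit 0, nat_lit 0, nat_lit 0, nat_lit 0, nat_lit 0, nat_lit 0, nat_lit 0, nat_lit 0, nat_lit 0, nat_lit 0, nat_lit 400000, nat_lit 0, nat_lit 0, [(nat_lit 24, [(nat_lit 1, nat_lit 1000)]), (nat_lit 27, [(nat_lit 1, nat_lit 1000)])],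
 ⟨p110_k31, nat_lit 0, nat_lit 0, nat_lit 116, nat_lit 0, nat_lit 0, [nat_lit 848000000, nat_lit 997333334, nat_lit 954400000], [], [nat_lit 25168509046, nat_lit 27088866358, nat_lit 27535570333, nat_lit 29679593946, nat_lit 25815879574, nat_lit 27577519606, nat_lit 27991453002, nat_lit 29753142100], nat_lit 0, nat_lit 0, nat_lit 0, nat_lit 0, nat_lit 0, nat_lit 0, [], [nat_lit 35, nat_lit 40, nat_lit 40, nat_lit 80, nat_lit 22, nat_lit 249, nat_lit 40, nat_lit 9]⟩, C1.Rw.none,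
 ⟨nat_lit 0, nat_lit 3163, ⟨.ofNat (nat_lit 727166), .ofNat (nat_lit 812499), .ofNat (nat_lit 771478), .ofNat (nat_lit 856810), .ofNat (nat_lit 699997), .ofNat (nat_lit 769995), .ofNat (nat_lit 749999), .ofNat (nat_lit 819996)⟩, ⟨.ofNat (nat_lit 184209), .ofNat (nat_lit 306113), .ofNat (nat_lit 200000), .ofNat (nat_lit 350425), .ofNat (nat_lit 199999), .ofNat (nat_lit 299996), .ofNat (nat_lit 200000), .ofNat (nat_lit 349998)⟩⟩, [⟨nat_lit 13, nat_lit 65, nat_lit 54, nat_lit 100, nat_lit 303607987⟩]⟩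
noncomputable def b_V_900_600_20_2 : St := ⟨true, nat_lit 0, nat_lit 1, nat_lit 1, nat_lit 120, nat_lit 360, nat_lit 400, nat_lit 240, nat_lit 280, nat_lit 240, nat_lit 376, nat_lit 80, nat_lit 120, nat_lit 8, nat_lit 160, nat_lit 0, nat_lit 364, nat_lit 0, nat_lit 40, nat_lit 0, nat_lit 0, nat_lit 0, nat_lit 0⟩
theorem d_V_900_600_20_2 (h : EB TB.env) : Dead b_V_900_600_20_2 := chkB_sound0 h (T :=
(.spl (nat_lit 4) (nat_lit 80)
(.trX (nat_lit 22) (nat_lit 100) (nat_lit 76) (nat_lit 82) (nat_lit 336) (.spl (nat_lit 2) (nat_lit 320)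
(.spl (nat_lit 4) (nat_lit 40)
(.trX (nat_lit 22) (nat_lit 100) (nat_lit 92) (nat_lit 61) (nat_lit 288) (.spl (nat_lit 0) (nat_lit 380)
(.spl (nat_lit 1) (nat_lit 260)
(.leaf p110_l136)
(.leaf p110_l137))
(.trZ (nat_lit 3) (nat_lit 100) (nat_lit 54) (nat_lit 57) (nat_lit 20) (.leaf p110_l138))))
(.spl (nat_lit 0) (nat_lit 380)
(.leaf p110_l139)
(.leaf p110_l140)))
(.trX (nat_lit 22) (nat_lit 83) (nat_lit 100) (nat_lit 83) (nat_lit 260) (.spl (nat_lit 1) (nat_lit 260)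
(.trX (nat_lit 13) (nat_lit 63) (nat_lit 61) (nat_lit 100) (nat_lit 364) (.spl (nat_lit 0) (nat_lit 380)
(.spl (nat_lit 1) (nat_lit 250)
(.trX (nat_lit 13) (nat_lit 62) (nat_lit 65) (nat_lit 100) (nat_lit 360) (.leaf p110_l141))
(.leaf p110_l142))
(.trX (nat_lit 13) (nat_lit 46) (nat_lit 76) (nat_lit 100) (nat_lit 340) (.trZ (nat_lit 3) (nat_lit 100) (nat_lit 54) (nat_lit 57) (nat_lit 20) (.leaf p110_l143)))))
(.spl (nat_lit 0) (nat_lit 380)
(.spl (nat_lit 0) (nat_lit 370)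
(.spl (nat_lit 1) (nat_lit 270)
(.trX (nat_lit 13) (nat_lit 64) (nat_lit 58) (nat_lit 100) (nat_lit 372) (.leaf p110_l144))
(.leaf p110_l145))
(.trX (nat_lit 13) (nat_lit 57) (nat_lit 62) (nat_lit 100) (nat_lit 368) (.trZ (nat_lit 3) (nat_lit 100) (nat_lit 66) (nat_lit 45) (nat_lit 12) (.leaf p110_l146))))
(.trX (nat_lit 13) (nat_lit 48) (nat_lit 71) (nat_lit 100) (nat_lit 352) (.trZ (nat_lit 3) (nat_lit 100) (nat_lit 54) (nat_lit 57) (nat_lit 20) (.leaf p110_l147))))))))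
(.spl (nat_lit 2) (nat_lit 320)
(.leaf p110_l148)
(.trX (nat_lit 22) (nat_lit 82) (nat_lit 76) (nat_lit 100) (nat_lit 336) (.leaf p110_l149))))) (by decide +kernel)

end B2
end Pool.Agent.Lib.MP_6947cd_al
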