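import Pool.Agent.Lib.MP_6947cd_al.ZB.P092
import Pool.Agent.Lib.MP_6947cd_al.ZB.P093
import Pool.Agent.Lib.MP_6947cd_al.ZB.P094
import Pool.Agent.Lib.MP_6947cd_al.ZB.P095
import Pool.Agent.Lib.MP_6947cd_al.ZB.P096
import Pool.Agent.Lib.MP_6947cd_al.ZB.P097
import Pool.Agent.Lib.MP_6947cd_al.ZB.P098
import Pool.Agent.Lib.MP_6947cd_al.ZB.P099
import Pool.Agent.Lib.MP_6947cd_al.ZB.P100
import Pool.Agent.Lib.MP_6947cd_al.ZB.P101
import Pool.Agent.Lib.MP_6947cd_al.ZB.P102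
import Pool.Agent.Lib.MP_6947cd_al.ZB.P103
import Pool.Agent.Lib.MP_6947cd_al.ZB.P104
import Pool.Agent.Lib.MP_6947cd_al.ZB.P105
import Pool.Agent.Lib.MP_6947cd_al.ZB.P106
import Pool.Agent.Lib.MP_6947cd_al.ZB.P107
import Pool.Agent.Lib.MP_6947cd_al.ZB.P108
import Pool.Agent.Lib.MP_6947cd_al.ZB.P109
import Pool.Agent.Lib.MP_6947cd_al.ZB.P110

/-!
Problem MP_6947cd_al (Chollet).  Case B, second entry in [2/5, 17/20]: certificates of the tree, part T07 (generated).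
-/

set_option autoImplicit false
set_option linter.all false

namespace Pool.Agent.Lib.MP_6947cd_al
namespace B2

open Ent Fr B1 PkA

noncomputable def t07_k0 : C1.Kn := ⟨[nat_lit 40, nat_lit 80, nat_lit 100], [nat_lit 0, nat_lit 0, nat_lit 1280], [(nat_lit 0, nat_lit 0, nat_lit 0), (nat_lit 0, nat_lit 0, nat_lit 0), (nat_lit 1000, nat_lit 800, nat_lit 600)], (nat_lit 82, nat_lit 100, nat_lit 44)⟩
noncomputable def t07_k1 : C1.Kn := ⟨[nat_lit 60, nat_lit 100, nat_lit 120], [nat_lit 0, nat_lit 0, nat_lit 1164], [(nat_lit 0, nat_lit 0, nat_lit 0), (nat_lit 0, nat_lit 0, nat_lit 0), (nat_lit 1000, nat_lit 933, nat_lit 572)], (nat_lit 92, nat_lit 100, nat_lit 44)⟩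
noncomputable def t07_k2 : C1.Kn := ⟨[nat_lit 40, nat_lit 80, nat_lit 140], [nat_lit 0, nat_lit 0, nat_lit 3199], [(nat_lit 0, nat_lit 0, nat_lit 0), (nat_lit 0, nat_lit 0, nat_lit 0), (nat_lit 1000, nat_lit 833, nat_lit 833)], (nat_lit 83, nat_lit 100, nat_lit 83)⟩
noncomputable def t07_k3 : C1.Kn := ⟨[nat_lit 60, nat_lit 100, nat_lit 160], [nat_lit 0, nat_lit 0, nat_lit 3069], [(nat_lit 0, nat_lit 0, nat_lit 0), (nat_lit 0, nat_lit 0, nat_lit 0), (nat_lit 1000, nat_lit 999, nat_lit 798)], (nat_lit 100, nat_lit 95, nat_lit 87)⟩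
noncomputable def t07_k4 : C1.Kn := ⟨[nat_lit 40, nat_lit 100], [nat_lit 0, nat_lit 0], [(nat_lit 0, nat_lit 0, nat_lit 0), (nat_lit 0, nat_lit 0, nat_lit 0)], (nat_lit 80, nat_lit 100, nat_lit 60)⟩
noncomputable def t07_k5 : C1.Kn := ⟨[nat_lit 40, nat_lit 140], [nat_lit 0, nat_lit 0], [(nat_lit 0, nat_lit 0, nat_lit 0), (nat_lit 0, nat_lit 0, nat_lit 0)], (nat_lit 83, nat_lit 100, nat_lit 83)⟩
noncomputable def t07_k6 : C1.Kn := ⟨[nat_lit 40, nat_lit 80, nat_lit 100], [nat_lit 0, nat_lit 0, nat_lit 1280], [(nat_lit 0, nat_lit 0, nat_lit 0), (nat_lit 0, nat_lit 0, nat_lit 0), (nat_lit 1000, nat_lit 800, nat_lit 600)], (nat_lit 80, nat_lit 100, nat_lit 60)⟩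
noncomputable def t07_k7 : C1.Kn := ⟨[nat_lit 40, nat_lit 60], [nat_lit 0, nat_lit 0], [(nat_lit 0, nat_lit 0, nat_lit 0), (nat_lit 0, nat_lit 0, nat_lit 0)], (nat_lit 89, nat_lit 100, nat_lit 22)⟩
noncomputable def t07_k8 : C1.Kn := ⟨[nat_lit 40, nat_lit 80], [nat_lit 0, nat_lit 0], [(nat_lit 0, nat_lit 0, nat_lit 0), (nat_lit 0, nat_lit 0, nat_lit 0)], (nat_lit 85, nat_lit 100, nat_lit 30)⟩
noncomputable def t07_k9 : C1.Kn := ⟨[nat_lit 40, nat_lit 60, nat_lit 80], [nat_lit 0, nat_lit 0, nat_lit 615], [(nat_lit 0, nat_lit 0, nat_lit 0), (nat_lit 0, nat_lit 0, nat_lit 0), (nat_lit 1000, nat_lit 819, nat_lit 426)], (nat_lit 85, nat_lit 100, nat_lit 30)⟩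
noncomputable def t07_k10 : C1.Kn := ⟨[nat_lit 40, nat_lit 80], [nat_lit 0, nat_lit 79], [(nat_lit 0, nat_lit 0, nat_lit 0), (nat_lit 1000, nat_lit 981, nat_lit 31)], (nat_lit 85, nat_lit 100, nat_lit 30)⟩
noncomputable def t07_k11 : C1.Kn := ⟨[nat_lit 40, nat_lit 80, nat_lit 100], [nat_lit 0, nat_lit 192, nat_lit 1404], [(nat_lit 0, nat_lit 0, nat_lit 0), (nat_lit 1000, nat_lit 955, nat_lit 75), (nat_lit 1000, nat_lit 781, nat_lit 625)], (nat_lit 78, nat_lit 100, nat_lit 60)⟩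
noncomputable def t07_k12 : C1.Kn := ⟨[nat_lit 40, nat_lit 80, nat_lit 100], [nat_lit 0, nat_lit 395, nat_lit 1536], [(nat_lit 0, nat_lit 0, nat_lit 0), (nat_lit 1000, nat_lit 908, nat_lit 154), (nat_lit 1000, nat_lit 760, nat_lit 642)], (nat_lit 76, nat_lit 100, nat_lit 60)⟩
noncomputable def t07_k13 : C1.Kn := ⟨[nat_lit 40, nat_lit 80, nat_lit 100], [nat_lit 0, nat_lit 795, nat_lit 1829], [(nat_lit 0, nat_lit 0, nat_lit 0), (nat_lit 1000, nat_lit 814, nat_lit 310), (nat_lit 1000, nat_lit 714, nat_lit 692)], (nat_lit 72, nat_lit 100, nat_lit 61)⟩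
noncomputable def t07_k14 : C1.Kn := ⟨[nat_lit 20, nat_lit 80], [nat_lit 0, nat_lit 0], [(nat_lit 0, nat_lit 0, nat_lit 0), (nat_lit 0, nat_lit 0, nat_lit 0)], (nat_lit 63, nat_lit 100, nat_lit 62)⟩
noncomputable def t07_k15 : C1.Kn := ⟨[nat_lit 20, nat_lit 60, nat_lit 80], [nat_lit 0, nat_lit 0, nat_lit 1613], [(nat_lit 0, nat_lit 0, nat_lit 0), (nat_lit 0, nat_lit 0, nat_lit 0), (nat_lit 1000, nat_lit 614, nat_lit 668)], (nat_lit 63, nat_lit 100, nat_lit 62)⟩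
noncomputable def t07_k16 : C1.Kn := ⟨[nat_lit 20, nat_lit 100], [nat_lit 0, nat_lit 0], [(nat_lit 0, nat_lit 0, nat_lit 0), (nat_lit 0, nat_lit 0, nat_lit 0)], (nat_lit 60, nat_lit 100, nat_lit 80)⟩
noncomputable def t07_k17 : C1.Kn := ⟨[nat_lit 20, nat_lit 140], [nat_lit 0, nat_lit 0], [(nat_lit 0, nat_lit 0, nat_lit 0), (nat_lit 0, nat_lit 0, nat_lit 0)], (nat_lit 62, nat_lit 100, nat_lit 94)⟩
noncomputable def t07_k18 : C1.Kn := ⟨[nat_lit 20, nat_lit 60, nat_lit 100], [nat_lit 0, nat_lit 0, nat_lit 2559], [(nat_lit 0, nat_lit 0, nat_lit 0), (nat_lit 0, nat_lit 0, nat_lit 0), (nat_lit 1000, nat_lit 600, nat_lit 787)], (nat_lit 60, nat_lit 100, nat_lit 80)⟩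
theorem t_V_800_700_20 (h : EB TB.env) : RC.Tail ⟨true, 120, 320, 360, 280, 320, 80, 120, [140]⟩ := RC.tail_chk h (b := ⟨nat_lit 60, nat_lit 70, nat_lit 5, nat_lit 5, nat_lit 20, nat_lit 238, nat_lit 30, nat_lit 12, nat_lit 15⟩) (by decide +kernel)
noncomputable def t07_l0 : Lf2 := ⟨nat_lit 0, nat_lit 5, [nat_lit 4, nat_lit 5, nat_lit 5, nat_lit 20], false, nat_lit 240, nat_lit 280, nat_lit 64, nat_lit 320, ⟨nat_lit 114, nat_lit 886, nat_lit 0, nat_lit 8, nat_lit 329, nat_lit 886, nat_lit 192, nat_lit 0, nat_lit 0, nat_lit 0, nat_lit 0, nat_lit 0, nat_lit 33728696, nat_lit 23471647, nat_lit 9799657, nat_lit 5356237, true, true⟩,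
 nat_lit 0, nat_lit 0, nat_lit 1484, nat_lit 0, nat_lit 3510, nat_lit 944, nat_lit 0, nat_lit 0, nat_lit 0, nat_lit 61, nat_lit 0, nat_lit 0, nat_lit 0, nat_lit 0, nat_lit 0, nat_lit 507400, nat_lit 0, nat_lit 0, [(nat_lit 18, [(nat_lit 1, nat_lit 631), (nat_lit 2, nat_lit 255)])],
 ⟨t07_k0, nat_lit 0, nat_lit 0, nat_lit 62, nat_lit 0, nat_lit 0, [nat_lit 1547846134, nat_lit 2041958667, nat_lit 1836748800], [], [nat_lit 25910580481, nat_lit 26769371441, nat_lit 27628162401, nat_lit 28447637607, nat_lit 27148314661, nat_lit 27948824877, nat_lit 28785144727, nat_lit 29544282900], nat_lit 0, nat_lit 0, nat_lit 0, nat_lit 0, nat_lit 0, nat_lit 0, [], [nat_lit 6, nat_lit 40, nat_lit 40, nat_lit 80, nat_lit 3, nat_lit 203, nat_lit 0, nat_lit 5]⟩, ⟨t07_k1, nat_lit 0, nat_lit 0, nat_lit 560, nat_lit 0, nat_lit 1098400, [nat_lit 374148000, nat_lit 712500000, nat_lit 908352000], [], [nat_lit 3503029772,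 nat_lit 3515233670, nat_lit 3649033162, nat_lit 3660648705, nat_lit 3363754392, nat_lit 3370306251, nat_lit 3448450960, nat_lit 3456812421], nat_lit 1271250, nat_lit 1271250, nat_lit 1271250, nat_lit 1271250, nat_lit 382400, nat_lit 2344000, [nat_lit 780000, nat_lit 1435000, nat_lit 1271250], [nat_lit 18, nat_lit 40, nat_lit 40, nat_lit 80, nat_lit 2, nat_lit 317, nat_lit 100, nat_lit 9]⟩,
 ⟨nat_lit 3872, nat_lit 4473, ⟨.ofNat (nat_lit 790153), .ofNat (nat_lit 858139), .ofNat (nat_lit 795540), .ofNat (nat_lit 863526), .ofNat (nat_lit 780691), .ofNat (nat_lit 845220), .ofNat (nat_lit 786134), .ofNat (nat_lit 850663)⟩, ⟨.ofNat (nat_lit 438578), .ofNat (nat_lit 506556), .ofNat (nat_lit 460144), .ofNat (nat_lit 528122), .ofNat (nat_lit 433760), .ofNat (nat_lit 498282), .ofNat (nat_lit 455554), .ofNat (nat_lit 520075)⟩⟩, [⟨nat_lit 16, nat_lit 79, nat_lit 100, nat_lit 87, nat_lit 121645100⟩, ⟨nat_lit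 16, nat_lit 87, nat_lit 100, nat_lit 94, nat_lit 103825007⟩, ⟨nat_lit 19, nat_lit 100, nat_lit 88, nat_lit 94, nat_lit 20129879⟩]⟩
noncomputable def t07_l1 : Lf2 := ⟨nat_lit 0, nat_lit 5, [nat_lit 4, nat_lit 5, nat_lit 5, nat_lit 20], false, nat_lit 240, nat_lit 300, nat_lit 64, nat_lit 336, ⟨nat_lit 111, nat_lit 889, nat_lit 0, nat_lit 8, nat_lit 322, nat_lit 889, nat_lit 207, nat_lit 0, nat_lit 0, nat_lit 0, nat_lit 0, nat_lit 0, nat_lit 33486911, nat_lit 22520900, nat_lit 10992189, nat_lit 5450501, true, true⟩,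
 nat_lit 0, nat_lit 0, nat_lit 1424, nat_lit 0, nat_lit 3556, nat_lit 905, nat_lit 0, nat_lit 0, nat_lit 0, nat_lit 60, nat_lit 0, nat_lit 0, nat_lit 0, nat_lit 0, nat_lit 0, nat_lit 491800, nat_lit 0, nat_lit 0, [(nat_lit 18, [(nat_lit 1, nat_lit 662), (nat_lit 2, nat_lit 227)])],
 ⟨t07_k0, nat_lit 0, nat_lit 0, nat_lit 59, nat_lit 0, nat_lit 0, [nat_lit 1537440001, nat_lit 2059592000, nat_lit 1891193200], [], [nat_lit 25855927009, nat_lit 26718797985, nat_lit 26718797985, nat_lit 27583857672, nat_lit 27754205160, nat_lit 28559979374, nat_lit 28559979374, nat_lit 29331035545], nat_lit 0, nat_lit 0, nat_lit 0, nat_lit 0, nat_lit 0, nat_lit 0, [], [nat_lit 6, nat_lit 40, nat_lit 40, nat_lit 80, nat_lit 3, nat_lit 203, nat_lit 0, nat_lit 5]⟩, ⟨t07_k1, nat_lit 0, nat_lit 0, nat_lit 508, nat_lit 0, nat_lit 967213, [nat_lit 364302000, nat_lit 693750000, nat_lit 884448000], [], [nat_lit 3324088324,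 nat_lit 3340406598, nat_lit 3411586219, nat_lit 3426744398, nat_lit 3319283881, nat_lit 3328143255, nat_lit 3372522103, nat_lit 3380581210], nat_lit 1271250, nat_lit 1271250, nat_lit 1271250, nat_lit 1271250, nat_lit 382400, nat_lit 2466600, [nat_lit 780000, nat_lit 1435000, nat_lit 1271250], [nat_lit 18, nat_lit 40, nat_lit 40, nat_lit 80, nat_lit 2, nat_lit 317, nat_lit 100, nat_lit 9]⟩,
 ⟨nat_lit 3872, nat_lit 4473, ⟨.ofNat (nat_lit 790153), .ofNat (nat_lit 824146), .ofNat (nat_lit 795540), .ofNat (nat_lit 829533), .ofNat (nat_lit 780691), .ofNat (nat_lit 812955), .ofNat (nat_lit 786134), .ofNat (nat_lit 818399)⟩, ⟨.ofNat (nat_lit 460144), .ofNat (nat_lit 562111), .ofNat (nat_lit 481711), .ofNat (nat_lit 583678), .ofNat (nat_lit 455554), .ofNat (nat_lit 552336), .ofNat (nat_lit 477347), .ofNat (nat_lit 574129)⟩⟩, [⟨nat_lit 16, nat_lit 87, nat_lit 95, nat_lit 100, nat_lit 199134594⟩, ⟨nat_lit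 19, nat_lit 100, nat_lit 80, nat_lit 100, nat_lit 21777995⟩]⟩
noncomputable def t07_l2 : Lf2 := ⟨nat_lit 0, nat_lit 5, [nat_lit 4, nat_lit 5, nat_lit 5, nat_lit 20], false, nat_lit 240, nat_lit 300, nat_lit 88, nat_lit 240, ⟨nat_lit 164, nat_lit 836, nat_lit 0, nat_lit 8, nat_lit 335, nat_lit 836, nat_lit 207, nat_lit 0, nat_lit 0, nat_lit 0, nat_lit 0, nat_lit 0, nat_lit 32627577, nat_lit 23605098, nat_lit 10767325, nat_lit 5460332, true, true⟩,
 nat_lit 0, nat_lit 0, nat_lit 2233, nat_lit 0, nat_lit 3363, nat_lit 1421, nat_lit 0, nat_lit 0, nat_lit 0, nat_lit 98, nat_lit 0, nat_lit 0, nat_lit 0, nat_lit 0, nat_lit 0, nat_lit 836000, nat_lit 0, nat_lit 0, [(nat_lit 18, [(nat_lit 2, nat_lit 836)])],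
 ⟨t07_k0, nat_lit 0, nat_lit 0, nat_lit 63, nat_lit 0, nat_lit 0, [nat_lit 1756008534, nat_lit 1642730667, nat_lit 654484800], [], [nat_lit 26763016633, nat_lit 27570887644, nat_lit 27608769281, nat_lit 28378758655, nat_lit 28511884702, nat_lit 29232813283, nat_lit 29265850268, nat_lit 30010617519], nat_lit 0, nat_lit 0, nat_lit 0, nat_lit 0, nat_lit 0, nat_lit 0, [], [nat_lit 6, nat_lit 40, nat_lit 40, nat_lit 80, nat_lit 3, nat_lit 203, nat_lit 0, nat_lit 5]⟩, ⟨t07_k1, nat_lit 0, nat_lit 0, nat_lit 495, nat_lit 0, nat_lit 967213, [nat_lit 538248000, nat_lit 1025000000, nat_lit 1306752000], [], [nat_lit 4572750468, nat_lit 4597325704, nat_lit 4714068570, nat_lit 4736754185, nat_lit 4380020004, nat_lit 4397390252, nat_lit 4486091776, nat_lit 4501961953], nat_lit 1271250, nat_lit 1271250, nat_lit 1271250, nat_lit 1271250, nat_lit 545600, nat_lit 1744500, [nat_lit 780000, nat_lit 1435000, nat_lit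 1271250], [nat_lit 18, nat_lit 40, nat_lit 40, nat_lit 80, nat_lit 2, nat_lit 272, nat_lit 60, nat_lit 8]⟩,
 ⟨nat_lit 3872, nat_lit 4473, ⟨.ofNat (nat_lit 824146), .ofNat (nat_lit 858139), .ofNat (nat_lit 829533), .ofNat (nat_lit 863526), .ofNat (nat_lit 812955), .ofNat (nat_lit 845220), .ofNat (nat_lit 818399), .ofNat (nat_lit 850663)⟩, ⟨.ofNat (nat_lit 460144), .ofNat (nat_lit 562111), .ofNat (nat_lit 481711), .ofNat (nat_lit 583678), .ofNat (nat_lit 455554), .ofNat (nat_lit 552336), .ofNat (nat_lit 477347), .ofNat (nat_lit 574129)⟩⟩, [⟨nat_lit 4, nat_lit 100, nat_lit 82, nat_lit 97, nat_lit 226330784⟩]⟩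
noncomputable def t07_l3 : Lf2 := ⟨nat_lit 0, nat_lit 20, [nat_lit 5, nat_lit 5, nat_lit 5, nat_lit 20], false, nat_lit 160, nat_lit 300, nat_lit 160, nat_lit 240, ⟨nat_lit 1000, nat_lit 0, nat_lit 0, nat_lit 0, nat_lit 0, nat_lit 0, nat_lit 0, nat_lit 0, nat_lit 0, nat_lit 0, nat_lit 0, nat_lit 0, nat_lit 0, nat_lit 0, nat_lit 0, nat_lit 0, false, false⟩,
 nat_lit 18547, nat_lit 0, nat_lit 0, nat_lit 0, nat_lit 7489, nat_lit 11802, nat_lit 757, nat_lit 0, nat_lit 0, nat_lit 1276, nat_lit 0, nat_lit 0, nat_lit 0, nat_lit 0, nat_lit 0, nat_lit 0, nat_lit 0, nat_lit 0, [],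
 ⟨t07_k2, nat_lit 0, nat_lit 0, nat_lit 203, nat_lit 0, nat_lit 280172, [nat_lit 2032000001, nat_lit 4688000000, nat_lit 9842000000], [], [nat_lit 19623793743, nat_lit 21436479334, nat_lit 19443870045, nat_lit 21090765399, nat_lit 24862803780, nat_lit 26941052465, nat_lit 24382603414, nat_lit 26284230693], nat_lit 1271250, nat_lit 1271250, nat_lit 631250, nat_lit 1100001, nat_lit 1100001, nat_lit 2298750, [nat_lit 490000, nat_lit 1100000, nat_lit 2127500], [nat_lit 27, nat_lit 40, nat_lit 40, nat_lit 80, nat_lit 13, nat_lit 345, nat_lit 125, nat_lit 9]⟩, ⟨t07_k3, nat_lit 0, nat_lit 0, nat_lit 323, nat_lit 0, nat_lit 345877, [nat_lit 3282000000, nat_lit 6250000000, nat_lit 11872000000], [], [nat_lit 14507527608, nat_lit 16480376804, nat_lit 13464651612, nat_lit 15245444676, nat_lit 16852761380, nat_lit 18477957872, nat_lit 15449608892, nat_lit 17868925416], nat_lit 1271250, nat_lit 1271250, nat_lit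 631250, nat_lit 1100001, nat_lit 1100001, nat_lit 1785000, [nat_lit 780000, nat_lit 1435000, nat_lit 1271250], [nat_lit 23, nat_lit 40, nat_lit 40, nat_lit 80, nat_lit 12, nat_lit 401, nat_lit 175, nat_lit 10]⟩,
 zbF0, [⟨nat_lit 0, nat_lit 97, nat_lit 82, nat_lit 100, nat_lit 785778450⟩, ⟨nat_lit 4, nat_lit 100, nat_lit 81, nat_lit 92, nat_lit 543580141⟩]⟩
theorem r_V_800_700_20 (h : EB TB.env) : Dead (RC.box ⟨true, 120, 320, 360, 280, 320, 80, 120, [140]⟩ 0 140) := chkB_sound h (refs := [b_V_800_700_20_0, b_V_800_700_20_1, b_V_800_700_20_2, b_V_800_700_20_3, b_V_800_700_20_4, b_V_800_700_20_5, b_V_800_700_20_6, b_V_800_700_20_7, b_V_800_700_20_8, b_V_800_700_20_9, b_V_800_700_20_10, b_V_800_700_20_11, b_V_800_700_20_12, b_V_800_700_20_13, b_V_800_700_20_14, b_V_800_700_20_15, b_V_800_700_20_16, b_V_800_700_20_17, b_V_800_700_20_18, b_V_800_700_20_19, b_V_800_700_20_20, b_V_800_700_20_21, b_V_800_700_20_22,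 b_V_800_700_20_23, b_V_800_700_20_24, b_V_800_700_20_25, b_V_800_700_20_26, b_V_800_700_20_27, b_V_800_700_20_28, b_V_800_700_20_29, b_V_800_700_20_30, b_V_800_700_20_31, b_V_800_700_20_32, b_V_800_700_20_33, b_V_800_700_20_34, b_V_800_700_20_35, b_V_800_700_20_36, b_V_800_700_20_37, b_V_800_700_20_38, b_V_800_700_20_39, b_V_800_700_20_40, b_V_800_700_20_41, b_V_800_700_20_42, b_V_800_700_20_43, b_V_800_700_20_44, b_V_800_700_20_45, b_V_800_700_20_46, b_V_800_700_20_47, b_V_800_700_20_48, b_V_800_700_20_49, b_V_800_700_20_50, b_V_800_700_20_51, b_V_800_700_20_52, b_V_800_700_20_53, b_V_800_700_20_54, b_V_800_700_20_55, b_V_800_700_20_56, b_V_800_700_20_57]) (refs_cons (d_V_800_700_20_0 h) (refs_cons (d_V_800_700_20_1 h) (refs_cons (d_V_800_700_20_2 h) (refs_cons (d_V_800_700_20_3 h) (refs_cons (d_V_800_700_20_4 h) (refs_cons (d_V_800_700_20_5 h) (refs_cons (d_V_800_700_20_6 h) (refs_cons (d_V_800_700_20_7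 h) (refs_cons (d_V_800_700_20_8 h) (refs_cons (d_V_800_700_20_9 h) (refs_cons (d_V_800_700_20_10 h) (refs_cons (d_V_800_700_20_11 h) (refs_cons (d_V_800_700_20_12 h) (refs_cons (d_V_800_700_20_13 h) (refs_cons (d_V_800_700_20_14 h) (refs_cons (d_V_800_700_20_15 h) (refs_cons (d_V_800_700_20_16 h) (refs_cons (d_V_800_700_20_17 h) (refs_cons (d_V_800_700_20_18 h) (refs_cons (d_V_800_700_20_19 h) (refs_cons (d_V_800_700_20_20 h) (refs_cons (d_V_800_700_20_21 h) (refs_cons (d_V_800_700_20_22 h) (refs_cons (d_V_800_700_20_23 h) (refs_cons (d_V_800_700_20_24 h) (refs_cons (d_V_800_700_20_25 h) (refs_cons (d_V_800_700_20_26 h) (refs_cons (d_V_800_700_20_27 h) (refs_cons (d_V_800_700_20_28 h) (refs_cons (d_V_800_700_20_29 h) (refs_cons (d_V_800_700_20_30 h) (refs_cons (d_V_800_700_20_31 h) (refs_cons (d_V_800_700_20_32 h) (refs_cons (d_V_800_700_20_33 h) (refs_cons (d_V_800_700_20_34 h) (refs_cons (d_V_800_700_20_35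 h) (refs_cons (d_V_800_700_20_36 h) (refs_cons (d_V_800_700_20_37 h) (refs_cons (d_V_800_700_20_38 h) (refs_cons (d_V_800_700_20_39 h) (refs_cons (d_V_800_700_20_40 h) (refs_cons (d_V_800_700_20_41 h) (refs_cons (d_V_800_700_20_42 h) (refs_cons (d_V_800_700_20_43 h) (refs_cons (d_V_800_700_20_44 h) (refs_cons (d_V_800_700_20_45 h) (refs_cons (d_V_800_700_20_46 h) (refs_cons (d_V_800_700_20_47 h) (refs_cons (d_V_800_700_20_48 h) (refs_cons (d_V_800_700_20_49 h) (refs_cons (d_V_800_700_20_50 h) (refs_cons (d_V_800_700_20_51 h) (refs_cons (d_V_800_700_20_52 h) (refs_cons (d_V_800_700_20_53 h) (refs_cons (d_V_800_700_20_54 h) (refs_cons (d_V_800_700_20_55 h) (refs_cons (d_V_800_700_20_56 h) (refs_cons (d_V_800_700_20_57 h) (refs_nil))))))))))))))))))))))))))))))))))))))))))))))))))))))))))) (T :=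
(.trZ (nat_lit 0) (nat_lit 100) (nat_lit 87) (nat_lit 95) (nat_lit 100) (.trX (nat_lit 16) (nat_lit 87) (nat_lit 95) (nat_lit 100) (nat_lit 300) (.trX (nat_lit 19) (nat_lit 100) (nat_lit 80) (nat_lit 100) (nat_lit 336) (.spl (nat_lit 6) (nat_lit 40)
(.st (nat_lit 0)
(.gv
(.st (nat_lit 1)
(.ref (nat_lit 0))
(.spl (nat_lit 4) (nat_lit 160)
(.spl (nat_lit 2) (nat_lit 240)
(.ref (nat_lit 1))
(.spl (nat_lit 4) (nat_lit 80)
(.ref (nat_lit 2))
(.ref (nat_lit 3))))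
(.spl (nat_lit 2) (nat_lit 240)
(.ref (nat_lit 4))
(.spl (nat_lit 2) (nat_lit 320)
(.ref (nat_lit 5))
(.trZ (nat_lit 9) (nat_lit 100) (nat_lit 82) (nat_lit 44) (nat_lit 16) (.spl (nat_lit 1) (nat_lit 300)
(.spl (nat_lit 8) (nat_lit 800)
(.ref (nat_lit 6))
(.spl (nat_lit 2) (nat_lit 360)
(.spl (nat_lit 4) (nat_lit 240)
(.ref (nat_lit 7))
(.trZ (nat_lit 9) (nat_lit 100) (nat_lit 82) (nat_lit 76) (nat_lit 64) (.spl (nat_lit 1) (nat_lit 290)
(.spl (nat_lit 6) (nat_lit 20)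
(.spl (nat_lit 1) (nat_lit 285)
(.spl (nat_lit 0) (nat_lit 340)
(.spl (nat_lit 3) (nat_lit 100)
(.trX (nat_lit 16) (nat_lit 87) (nat_lit 100) (nat_lit 94) (nat_lit 280) (.trX (nat_lit 19) (nat_lit 100) (nat_lit 88) (nat_lit 94) (nat_lit 320) (.leaf t07_l0)))
(.spl (nat_lit 2) (nat_lit 340)
(.leaf t07_l1)
(.trZ (nat_lit 9) (nat_lit 100) (nat_lit 73) (nat_lit 85) (nat_lit 88) (.spl (nat_lit 5) (nat_lit 240)
(.leaf t07_l2)
(.spl (nat_lit 5) (nat_lit 280)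
(.ref (nat_lit 8))
(.spl (nat_lit 6) (nat_lit 8)
(.ref (nat_lit 9))
(.ref (nat_lit 10))))))))
(.ref (nat_lit 11)))
(.ref (nat_lit 12)))
(.ref (nat_lit 13)))
(.ref (nat_lit 14)))))
(.trZ (nat_lit 9) (nat_lit 100) (nat_lit 61) (nat_lit 68) (nat_lit 48) (.spl (nat_lit 4) (nat_lit 240)
(.ref (nat_lit 15))
(.ref (nat_lit 16))))))
(.ref (nat_lit 17))))))))
(.ref (nat_lit 18)))
(.gv
(.st (nat_lit 1)
(.spl (nat_lit 2) (nat_lit 240)
(.spl (nat_lit 5) (nat_lit 160)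
(.ref (nat_lit 19))
(.ref (nat_lit 20)))
(.ref (nat_lit 21)))
(.spl (nat_lit 2) (nat_lit 240)
(.ref (nat_lit 22))
(.ref (nat_lit 23))))
(.st (nat_lit 1)
(.spl (nat_lit 2) (nat_lit 240)
(.ref (nat_lit 24))
(.ref (nat_lit 25)))
(.ref (nat_lit 26)))))
(.spl (nat_lit 6) (nat_lit 80)
(.st (nat_lit 0)
(.gv
(.st (nat_lit 1)
(.ref (nat_lit 27))
(.spl (nat_lit 2) (nat_lit 240)
(.spl (nat_lit 4) (nat_lit 160)
(.ref (nat_lit 28))
(.ref (nat_lit 29)))
(.spl (nat_lit 4) (nat_lit 160)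
(.ref (nat_lit 30))
(.ref (nat_lit 31)))))
(.ref (nat_lit 32)))
(.gv
(.st (nat_lit 1)
(.ref (nat_lit 33))
(.spl (nat_lit 2) (nat_lit 240)
(.spl (nat_lit 4) (nat_lit 160)
(.ref (nat_lit 34))
(.spl (nat_lit 5) (nat_lit 160)
(.ref (nat_lit 35))
(.spl (nat_lit 2) (nat_lit 160)
(.spl (nat_lit 1) (nat_lit 300)
(.spl (nat_lit 0) (nat_lit 340)
(.spl (nat_lit 5) (nat_lit 240)
(.leaf t07_l3)
(.spl (nat_lit 6) (nat_lit 60)
(.ref (nat_lit 36))
(.ref (nat_lit 37))))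
(.ref (nat_lit 38)))
(.ref (nat_lit 39)))
(.ref (nat_lit 40)))))
(.ref (nat_lit 41))))
(.ref (nat_lit 42))))
(.spl (nat_lit 6) (nat_lit 120)
(.st (nat_lit 0)
(.gv
(.st (nat_lit 1)
(.ref (nat_lit 43))
(.spl (nat_lit 2) (nat_lit 240)
(.spl (nat_lit 4) (nat_lit 160)
(.ref (nat_lit 44))
(.ref (nat_lit 45)))
(.ref (nat_lit 46))))
(.ref (nat_lit 47)))
(.gv
(.st (nat_lit 1)
(.ref (nat_lit 48))
(.spl (nat_lit 2) (nat_lit 240)
(.spl (nat_lit 4) (nat_lit 160)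
(.ref (nat_lit 49))
(.ref (nat_lit 50)))
(.ref (nat_lit 51))))
(.ref (nat_lit 52))))
(.st (nat_lit 0)
(.gv
(.ref (nat_lit 53))
(.ref (nat_lit 54)))
(.gv
(.st (nat_lit 1)
(.ref (nat_lit 55))
(.ref (nat_lit 56)))
(.ref (nat_lit 57))))))))))) (by decide +kernel)
theorem done_V_800_700_20 (h : EB TB.env) : RC.Done ⟨true, 120, 320, 360, 280, 320, 80, 120, [140]⟩ := RC.done1 (r_V_800_700_20 h) (t_V_800_700_20 h)
theorem t_V_800_800_10 (h : EB TB.env) : RC.Tail ⟨true, 80, 320, 360, 320, 340, 40, 80, [168]⟩ := RC.tail_chk h (b := ⟨nat_lit 40, nat_lit 84, nat_lit 5, nat_lit 5, nat_lit 20, nat_lit 226, nat_lit 20, nat_lit 16, nat_lit 5⟩) (by decide +kernel)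
noncomputable def t07_l4 : Lf2 := ⟨nat_lit 0, nat_lit 10, [nat_lit 0, nat_lit 5, nat_lit 5, nat_lit 20], false, nat_lit 0, nat_lit 260, nat_lit 0, nat_lit 260, ⟨nat_lit 1000, nat_lit 0, nat_lit 0, nat_lit 0, nat_lit 0, nat_lit 0, nat_lit 0, nat_lit 0, nat_lit 0, nat_lit 0, nat_lit 0, nat_lit 0, nat_lit 0, nat_lit 0, nat_lit 0, nat_lit 0, false, false⟩,
 nat_lit 0, nat_lit 0, nat_lit 0, nat_lit 0, nat_lit 7735, nat_lit 8309, nat_lit 0, nat_lit 0, nat_lit 0, nat_lit 0, nat_lit 0, nat_lit 0, nat_lit 0, nat_lit 0, nat_lit 0, nat_lit 0, nat_lit 0, nat_lit 0, [],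
 ⟨t07_k4, nat_lit 0, nat_lit 0, nat_lit 187, nat_lit 0, nat_lit 0, [nat_lit 2032000001, nat_lit 6250000000], [], [nat_lit 26207342940, nat_lit 30205743110, nat_lit 42914570660, nat_lit 46038188620, nat_lit 24903403125, nat_lit 27594149660, nat_lit 34950287050, nat_lit 37154046155], nat_lit 0, nat_lit 0, nat_lit 0, nat_lit 0, nat_lit 0, nat_lit 0, [], [nat_lit 69, nat_lit 40, nat_lit 40, nat_lit 80, nat_lit 64, nat_lit 401, nat_lit 175, nat_lit 15]⟩, ⟨t07_k4, nat_lit 0, nat_lit 0, nat_lit 180, nat_lit 0, nat_lit 0, [nat_lit 2032000000, nat_lit 6250000000], [], [nat_lit 25655386836, nat_lit 27752976835, nat_lit 44520482604, nat_lit 46150177416, nat_lit 23853427975, nat_lit 25257056790, nat_lit 35599383470, nat_lit 36742058064], nat_lit 0, nat_lit 0, nat_lit 0, nat_lit 0, nat_lit 0, nat_lit 0, [], [nat_lit 69, nat_lit 40, nat_lit 40, nat_lit 80, nat_lit 64, nat_lit 401, nat_lit 175, nat_lit 15]⟩,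
 zbF0, []⟩
noncomputable def t07_l5 : Lf2 := ⟨nat_lit 0, nat_lit 20, [nat_lit 5, nat_lit 5, nat_lit 5, nat_lit 20], false, nat_lit 0, nat_lit 260, nat_lit 0, nat_lit 260, ⟨nat_lit 1000, nat_lit 0, nat_lit 0, nat_lit 0, nat_lit 0, nat_lit 0, nat_lit 0, nat_lit 0, nat_lit 0, nat_lit 0, nat_lit 0, nat_lit 0, nat_lit 0, nat_lit 0, nat_lit 0, nat_lit 0, false, false⟩,
 nat_lit 0, nat_lit 0, nat_lit 0, nat_lit 0, nat_lit 9262, nat_lit 11639, nat_lit 0, nat_lit 0, nat_lit 0, nat_lit 0, nat_lit 0, nat_lit 0, nat_lit 0, nat_lit 0, nat_lit 0, nat_lit 0, nat_lit 0, nat_lit 0, [],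
 ⟨t07_k5, nat_lit 0, nat_lit 0, nat_lit 231, nat_lit 0, nat_lit 0, [nat_lit 2032000001, nat_lit 9842000000], [], [nat_lit 39461473328, nat_lit 42518797848, nat_lit 47407434616, nat_lit 50671552504, nat_lit 33706843802, nat_lit 35745090901, nat_lit 38143980070, nat_lit 39097875926], nat_lit 0, nat_lit 0, nat_lit 0, nat_lit 0, nat_lit 0, nat_lit 0, [], [nat_lit 94, nat_lit 40, nat_lit 40, nat_lit 80, nat_lit 95, nat_lit 401, nat_lit 175, nat_lit 11]⟩, ⟨t07_k5, nat_lit 0, nat_lit 0, nat_lit 225, nat_lit 0, nat_lit 0, [nat_lit 2032000000, nat_lit 9842000000], [], [nat_lit 38011370216, nat_lit 39784221686, nat_lit 53837010084, nat_lit 55860537336, nat_lit 29546906019, nat_lit 30701119827, nat_lit 39365047370, nat_lit 40744390059], nat_lit 0, nat_lit 0, nat_lit 0, nat_lit 0, nat_lit 0, nat_lit 0, [], [nat_lit 94, nat_lit 40, nat_lit 40, nat_lit 80, nat_lit 95, nat_lit 401, nat_lit 175, nat_lit 11]⟩,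
 zbF0, []⟩
theorem r_V_800_800_10 (h : EB TB.env) : Dead (RC.box ⟨true, 80, 320, 360, 320, 340, 40, 80, [168]⟩ 0 168) := chkB_sound h (refs := [b_V_800_800_10_0, b_V_800_800_10_1, b_V_800_800_10_2, b_V_800_800_10_3, b_V_800_800_10_4, b_V_800_800_10_5, b_V_800_800_10_6, b_V_800_800_10_7, b_V_800_800_10_8, b_V_800_800_10_9, b_V_800_800_10_10, b_V_800_800_10_11, b_V_800_800_10_12, b_V_800_800_10_13, b_V_800_800_10_14, b_V_800_800_10_15, b_V_800_800_10_16, b_V_800_800_10_17, b_V_800_800_10_18, b_V_800_800_10_19, b_V_800_800_10_20, b_V_800_800_10_21, b_V_800_800_10_22, b_V_800_800_10_23]) (refs_cons (d_V_800_800_10_0 h) (refs_cons (d_V_800_800_10_1 h) (refs_cons (d_V_800_800_10_2 h) (refs_cons (d_V_800_800_10_3 h) (refs_cons (d_V_800_800_10_4 h) (refs_cons (d_V_800_800_10_5 h) (refs_cons (d_V_800_800_10_6 h) (refs_cons (d_V_800_800_10_7 h) (refs_cons (d_V_800_800_10_8 h) (refs_cons (d_V_800_800_10_9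 h) (refs_cons (d_V_800_800_10_10 h) (refs_cons (d_V_800_800_10_11 h) (refs_cons (d_V_800_800_10_12 h) (refs_cons (d_V_800_800_10_13 h) (refs_cons (d_V_800_800_10_14 h) (refs_cons (d_V_800_800_10_15 h) (refs_cons (d_V_800_800_10_16 h) (refs_cons (d_V_800_800_10_17 h) (refs_cons (d_V_800_800_10_18 h) (refs_cons (d_V_800_800_10_19 h) (refs_cons (d_V_800_800_10_20 h) (refs_cons (d_V_800_800_10_21 h) (refs_cons (d_V_800_800_10_22 h) (refs_cons (d_V_800_800_10_23 h) (refs_nil))))))))))))))))))))))))) (T :=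
(.trZ (nat_lit 0) (nat_lit 83) (nat_lit 83) (nat_lit 100) (nat_lit 140) (.trX (nat_lit 16) (nat_lit 83) (nat_lit 100) (nat_lit 83) (nat_lit 260) (.trX (nat_lit 19) (nat_lit 83) (nat_lit 100) (nat_lit 83) (nat_lit 260) (.spl (nat_lit 6) (nat_lit 40)
(.st (nat_lit 0)
(.gv
(.st (nat_lit 1)
(.leaf t07_l4)
(.spl (nat_lit 4) (nat_lit 160)
(.spl (nat_lit 2) (nat_lit 240)
(.ref (nat_lit 0))
(.spl (nat_lit 1) (nat_lit 330)
(.ref (nat_lit 1))
(.ref (nat_lit 2))))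
(.ref (nat_lit 3))))
(.ref (nat_lit 4)))
(.gv
(.st (nat_lit 1)
(.spl (nat_lit 0) (nat_lit 340)
(.spl (nat_lit 0) (nat_lit 330)
(.ord (.spl (nat_lit 5) (nat_lit 160)
(.ref (nat_lit 5))
(.ref (nat_lit 6))))
(.ref (nat_lit 7)))
(.ref (nat_lit 8)))
(.ref (nat_lit 9)))
(.st (nat_lit 1)
(.spl (nat_lit 0) (nat_lit 340)
(.spl (nat_lit 0) (nat_lit 330)
(.ord (.spl (nat_lit 5) (nat_lit 160)
(.ref (nat_lit 10))
(.ref (nat_lit 11))))
(.ref (nat_lit 12)))
(.ref (nat_lit 13)))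
(.ref (nat_lit 14)))))
(.spl (nat_lit 6) (nat_lit 80)
(.st (nat_lit 0)
(.gv
(.st (nat_lit 1)
(.leaf t07_l5)
(.spl (nat_lit 2) (nat_lit 240)
(.ref (nat_lit 15))
(.ref (nat_lit 16))))
(.ref (nat_lit 17)))
(.gv
(.ref (nat_lit 18))
(.ref (nat_lit 19))))
(.spl (nat_lit 6) (nat_lit 120)
(.st (nat_lit 0)
(.ref (nat_lit 20))
(.gv
(.ref (nat_lit 21))
(.ref (nat_lit 22))))
(.ref (nat_lit 23))))))))) (by decide +kernel)
theorem done_V_800_800_10 (h : EB TB.env) : RC.Done ⟨true, 80, 320, 360, 320, 340, 40, 80, [168]⟩ := RC.done1 (r_V_800_800_10 h) (t_V_800_800_10 h)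
theorem t_V_800_800_20 (h : EB TB.env) : RC.Tail ⟨true, 120, 320, 360, 320, 340, 80, 120, [152]⟩ := RC.tail_chk h (b := ⟨nat_lit 60, nat_lit 76, nat_lit 5, nat_lit 5, nat_lit 20, nat_lit 238, nat_lit 30, nat_lit 11, nat_lit 15⟩) (by decide +kernel)
noncomputable def t07_l6 : Lf2 := ⟨nat_lit 0, nat_lit 10, [nat_lit 0, nat_lit 5, nat_lit 5, nat_lit 20], false, nat_lit 0, nat_lit 300, nat_lit 0, nat_lit 300, ⟨nat_lit 1000, nat_lit 0, nat_lit 0, nat_lit 0, nat_lit 0, nat_lit 0, nat_lit 0, nat_lit 0, nat_lit 0, nat_lit 0, nat_lit 0, nat_lit 0, nat_lit 0, nat_lit 0, nat_lit 0, nat_lit 0, false, false⟩,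
 nat_lit 0, nat_lit 0, nat_lit 0, nat_lit 0, nat_lit 8232, nat_lit 8459, nat_lit 0, nat_lit 0, nat_lit 0, nat_lit 0, nat_lit 0, nat_lit 0, nat_lit 0, nat_lit 0, nat_lit 0, nat_lit 0, nat_lit 0, nat_lit 0, [],
 ⟨t07_k4, nat_lit 0, nat_lit 0, nat_lit 187, nat_lit 0, nat_lit 0, [nat_lit 2032000001, nat_lit 6250000000], [], [nat_lit 25729429728, nat_lit 30528852208, nat_lit 44305055392, nat_lit 47546231744, nat_lit 25890958900, nat_lit 28996087672, nat_lit 36837985576, nat_lit 38867902296], nat_lit 0, nat_lit 0, nat_lit 0, nat_lit 0, nat_lit 0, nat_lit 0, [], [nat_lit 69, nat_lit 40, nat_lit 40, nat_lit 80, nat_lit 64, nat_lit 401, nat_lit 175, nat_lit 15]⟩, ⟨t07_k4, nat_lit 0, nat_lit 0, nat_lit 180, nat_lit 0, nat_lit 0, [nat_lit 2032000000, nat_lit 6250000000], [], [nat_lit 25511147436, nat_lit 27634449085, nat_lit 44940146004, nat_lit 46587581016, nat_lit 25499798175, nat_lit 27074709615, nat_lit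 37103625062, nat_lit 38131872570], nat_lit 0, nat_lit 0, nat_lit 0, nat_lit 0, nat_lit 0, nat_lit 0, [], [nat_lit 69, nat_lit 40, nat_lit 40, nat_lit 80, nat_lit 64, nat_lit 401, nat_lit 175, nat_lit 15]⟩,
 zbF0, [⟨nat_lit 0, nat_lit 76, nat_lit 72, nat_lit 100, nat_lit 16123872⟩, ⟨nat_lit 4, nat_lit 100, nat_lit 74, nat_lit 90, nat_lit 57967166⟩, ⟨nat_lit 19, nat_lit 87, nat_lit 95, nat_lit 100, nat_lit 46096798⟩]⟩
noncomputable def t07_l7 : Lf2 := ⟨nat_lit 0, nat_lit 10, [nat_lit 0, nat_lit 5, nat_lit 5, nat_lit 20], false, nat_lit 160, nat_lit 300, nat_lit 0, nat_lit 300, ⟨nat_lit 1000, nat_lit 0, nat_lit 0, nat_lit 0, nat_lit 0, nat_lit 0, nat_lit 0, nat_lit 0, nat_lit 0, nat_lit 0, nat_lit 0, nat_lit 0, nat_lit 0, nat_lit 0, nat_lit 0, nat_lit 0, false, false⟩,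
 nat_lit 0, nat_lit 0, nat_lit 2381, nat_lit 0, nat_lit 5960, nat_lit 1785, nat_lit 437, nat_lit 0, nat_lit 0, nat_lit 183, nat_lit 0, nat_lit 337, nat_lit 0, nat_lit 1134740911460, nat_lit 0, nat_lit 0, nat_lit 0, nat_lit 0, [],
 ⟨t07_k6, nat_lit 0, nat_lit 0, nat_lit 100, nat_lit 0, nat_lit 0, [nat_lit 2032000001, nat_lit 4688000000, nat_lit 6250000000], [], [nat_lit 21671321760, nat_lit 24691876480, nat_lit 31387226240, nat_lit 33759205600, nat_lit 26357942840, nat_lit 28600615360, nat_lit 34179250280, nat_lit 35943149880], nat_lit 0, nat_lit 0, nat_lit 0, nat_lit 0, nat_lit 0, nat_lit 0, [], [nat_lit 6, nat_lit 40, nat_lit 40, nat_lit 80, nat_lit 3, nat_lit 289, nat_lit 75, nat_lit 9]⟩, ⟨t07_k6, nat_lit 0, nat_lit 0, nat_lit 0, nat_lit 0, nat_lit 1431917, [nat_lit 2032000000, nat_lit 4688000000, nat_lit 6250000000], [], [nat_lit 20557295700, nat_lit 20847981745, nat_lit 26267922460, nat_lit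 26696979650, nat_lit 23953245055, nat_lit 24197064719, nat_lit 29293590130, nat_lit 29612357562], nat_lit 1271250, nat_lit 1271250, nat_lit 1271250, nat_lit 1271250, nat_lit 0, nat_lit 2118750, [nat_lit 490000, nat_lit 1100000, nat_lit 1442500], [nat_lit 6, nat_lit 40, nat_lit 40, nat_lit 80]⟩,
 zbF0, [⟨nat_lit 16, nat_lit 87, nat_lit 95, nat_lit 100, nat_lit 342090711⟩, ⟨nat_lit 19, nat_lit 87, nat_lit 95, nat_lit 100, nat_lit 69975714⟩]⟩
noncomputable def t07_l8 : Lf2 := ⟨nat_lit 0, nat_lit 1, [nat_lit 19, nat_lit 5, nat_lit 5, nat_lit 20], false, nat_lit 160, nat_lit 300, nat_lit 160, nat_lit 300, ⟨nat_lit 1000, nat_lit 0, nat_lit 0, nat_lit 0, nat_lit 0, nat_lit 0, nat_lit 0, nat_lit 0, nat_lit 0, nat_lit 0, nat_lit 0, nat_lit 0, nat_lit 0, nat_lit 0, nat_lit 0, nat_lit 0, false, false⟩,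
 nat_lit 0, nat_lit 8115, nat_lit 0, nat_lit 0, nat_lit 6086, nat_lit 3785, nat_lit 0, nat_lit 0, nat_lit 0, nat_lit 0, nat_lit 0, nat_lit 0, nat_lit 0, nat_lit 0, nat_lit 0, nat_lit 0, nat_lit 0, nat_lit 0, [],
 ⟨t07_k7, nat_lit 0, nat_lit 0, nat_lit 311, nat_lit 0, nat_lit 962543, [nat_lit 2032000001, nat_lit 3282000000], [], [nat_lit 19631880233, nat_lit 19810909631, nat_lit 21671264625, nat_lit 21821631996, nat_lit 23700134310, nat_lit 23846057176, nat_lit 25710796750, nat_lit 25925292579], nat_lit 1271250, nat_lit 1271250, nat_lit 936251, nat_lit 1773750, nat_lit 1100001, nat_lit 2298750, [nat_lit 490000, nat_lit 780000], [nat_lit 112, nat_lit 40, nat_lit 40, nat_lit 80, nat_lit 113, nat_lit 203, nat_lit 0, nat_lit 10]⟩, ⟨t07_k7, nat_lit 0, nat_lit 0, nat_lit 28, nat_lit 0, nat_lit 0, [nat_lit 2032000000, nat_lit 3282000000], [], [nat_lit 16171092270, nat_lit 16424028737, nat_lit 19477871420,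 nat_lit 19689523085, nat_lit 22278019223, nat_lit 22467899332, nat_lit 24545918130, nat_lit 24708594592], nat_lit 0, nat_lit 0, nat_lit 0, nat_lit 0, nat_lit 0, nat_lit 0, [], [nat_lit 112, nat_lit 40, nat_lit 40, nat_lit 80, nat_lit 113, nat_lit 203, nat_lit 0, nat_lit 10]⟩,
 zbF0, [⟨nat_lit 0, nat_lit 81, nat_lit 81, nat_lit 100, nat_lit 400836513⟩, ⟨nat_lit 16, nat_lit 87, nat_lit 95, nat_lit 100, nat_lit 418095525⟩, ⟨nat_lit 19, nat_lit 87, nat_lit 95, nat_lit 100, nat_lit 458486025⟩]⟩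
noncomputable def t07_l9 : Lf2 := ⟨nat_lit 0, nat_lit 2, [nat_lit 10, nat_lit 5, nat_lit 5, nat_lit 20], false, nat_lit 160, nat_lit 280, nat_lit 160, nat_lit 280, ⟨nat_lit 1000, nat_lit 0, nat_lit 0, nat_lit 0, nat_lit 0, nat_lit 0, nat_lit 0, nat_lit 0, nat_lit 0, nat_lit 0, nat_lit 0, nat_lit 0, nat_lit 0, nat_lit 0, nat_lit 0, nat_lit 0, false, false⟩,
 nat_lit 0, nat_lit 10127, nat_lit 0, nat_lit 0, nat_lit 7595, nat_lit 3841, nat_lit 0, nat_lit 0, nat_lit 0, nat_lit 0, nat_lit 0, nat_lit 0, nat_lit 0, nat_lit 0, nat_lit 0, nat_lit 0, nat_lit 0, nat_lit 0, [],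
 ⟨t07_k8, nat_lit 0, nat_lit 0, nat_lit 322, nat_lit 0, nat_lit 870351, [nat_lit 2032000001, nat_lit 4688000000], [], [nat_lit 19957996760, nat_lit 20152362763, nat_lit 21633090580, nat_lit 21794205841, nat_lit 23072645720, nat_lit 23224132781, nat_lit 25237779390, nat_lit 25496150602], nat_lit 1271250, nat_lit 1271250, nat_lit 936251, nat_lit 1773750, nat_lit 1100001, nat_lit 2127500, [nat_lit 490000, nat_lit 1100000], [nat_lit 24, nat_lit 40, nat_lit 40, nat_lit 80, nat_lit 33, nat_lit 272, nat_lit 60, nat_lit 11]⟩, ⟨t07_k8, nat_lit 0, nat_lit 0, nat_lit 23, nat_lit 0, nat_lit 0, [nat_lit 2032000000, nat_lit 4688000000], [], [nat_lit 16126618302, nat_lit 16381579555, nat_lit 19441248092, nat_lit 19654476101, nat_lit 21211182815, nat_lit 21411842847, nat_lit 23646226042, nat_lit 23824878624], nat_lit 0, nat_lit 0, nat_lit 0, nat_lit 0, nat_lit 0, nat_lit 0, [], [nat_lit 24, nat_lit 40, nat_lit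 40, nat_lit 80, nat_lit 33, nat_lit 272, nat_lit 60, nat_lit 11]⟩,
 zbF0, [⟨nat_lit 0, nat_lit 81, nat_lit 81, nat_lit 100, nat_lit 372921929⟩, ⟨nat_lit 16, nat_lit 87, nat_lit 100, nat_lit 94, nat_lit 419101762⟩, ⟨nat_lit 19, nat_lit 87, nat_lit 100, nat_lit 94, nat_lit 475115397⟩]⟩
noncomputable def t07_l10 : Lf2 := ⟨nat_lit 0, nat_lit 2, [nat_lit 10, nat_lit 5, nat_lit 5, nat_lit 20], false, nat_lit 160, nat_lit 240, nat_lit 160, nat_lit 300, ⟨nat_lit 1000, nat_lit 0, nat_lit 0, nat_lit 0, nat_lit 0, nat_lit 0, nat_lit 0, nat_lit 0, nat_lit 0, nat_lit 0, nat_lit 0, nat_lit 0, nat_lit 0, nat_lit 0, nat_lit 0, nat_lit 0, false, false⟩,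
 nat_lit 0, nat_lit 9516, nat_lit 0, nat_lit 0, nat_lit 7136, nat_lit 3797, nat_lit 0, nat_lit 0, nat_lit 0, nat_lit 0, nat_lit 0, nat_lit 0, nat_lit 0, nat_lit 0, nat_lit 0, nat_lit 0, nat_lit 0, nat_lit 0, [],
 ⟨t07_k8, nat_lit 0, nat_lit 0, nat_lit 262, nat_lit 0, nat_lit 753785, [nat_lit 2032000001, nat_lit 4688000000], [], [nat_lit 19634511760, nat_lit 19785774341, nat_lit 19814751392, nat_lit 19961205825, nat_lit 21748212224, nat_lit 21877662440, nat_lit 21832524512, nat_lit 21957909225], nat_lit 1271250, nat_lit 1271250, nat_lit 936251, nat_lit 1100001, nat_lit 1100001, nat_lit 1785000, [nat_lit 490000, nat_lit 1100000], [nat_lit 24, nat_lit 40, nat_lit 40, nat_lit 80, nat_lit 33, nat_lit 249, nat_lit 40, nat_lit 10]⟩, ⟨t07_k8, nat_lit 0, nat_lit 0, nat_lit 28, nat_lit 0, nat_lit 0, [nat_lit 2032000000, nat_lit 4688000000], [], [nat_lit 16161562134, nat_lit 16330475701, nat_lit 16580062204,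 nat_lit 16743930909, nat_lit 22274639285, nat_lit 22408160308, nat_lit 22520869748, nat_lit 22644164335], nat_lit 0, nat_lit 0, nat_lit 0, nat_lit 0, nat_lit 0, nat_lit 0, [], [nat_lit 24, nat_lit 40, nat_lit 40, nat_lit 80, nat_lit 33, nat_lit 249, nat_lit 40, nat_lit 10]⟩,
 zbF0, [⟨nat_lit 0, nat_lit 82, nat_lit 82, nat_lit 100, nat_lit 629786305⟩, ⟨nat_lit 19, nat_lit 89, nat_lit 100, nat_lit 99, nat_lit 488635548⟩]⟩
noncomputable def t07_l11 : Lf2 := ⟨nat_lit 0, nat_lit 2, [nat_lit 10, nat_lit 5, nat_lit 5, nat_lit 20], false, nat_lit 240, nat_lit 300, nat_lit 160, nat_lit 240, ⟨nat_lit 1000, nat_lit 0, nat_lit 0, nat_lit 0, nat_lit 0, nat_lit 0, nat_lit 0, nat_lit 0, nat_lit 0, nat_lit 0, nat_lit 0, nat_lit 0, nat_lit 0, nat_lit 0, nat_lit 0, nat_lit 0, false, false⟩,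
 nat_lit 0, nat_lit 7612, nat_lit 0, nat_lit 0, nat_lit 5708, nat_lit 3987, nat_lit 0, nat_lit 0, nat_lit 0, nat_lit 0, nat_lit 0, nat_lit 0, nat_lit 0, nat_lit 13012681193365, nat_lit 0, nat_lit 0, nat_lit 0, nat_lit 0, [],
 ⟨t07_k8, nat_lit 0, nat_lit 0, nat_lit 272, nat_lit 0, nat_lit 753785, [nat_lit 2032000001, nat_lit 4688000000], [], [nat_lit 25651752282, nat_lit 25751553129, nat_lit 25786928706, nat_lit 25883811114, nat_lit 28002760112, nat_lit 28102875324, nat_lit 28075817972, nat_lit 28173007039], nat_lit 1271250, nat_lit 1271250, nat_lit 936251, nat_lit 1100001, nat_lit 1271250, nat_lit 1271250, [nat_lit 490000, nat_lit 1100000], [nat_lit 24, nat_lit 40, nat_lit 40, nat_lit 80, nat_lit 33, nat_lit 249, nat_lit 40, nat_lit 10]⟩, ⟨t07_k8, nat_lit 0, nat_lit 0, nat_lit 12, nat_lit 0, nat_lit 0, [nat_lit 2032000000, nat_lit 4688000000], [], [nat_lit 16010668314, nat_lit 16184161755, nat_lit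 16424477284, nat_lit 16592742285, nat_lit 19030539210, nat_lit 19188579932, nat_lit 19345765844, nat_lit 19490657686], nat_lit 0, nat_lit 0, nat_lit 0, nat_lit 0, nat_lit 0, nat_lit 0, [], [nat_lit 24, nat_lit 40, nat_lit 40, nat_lit 80, nat_lit 33, nat_lit 249, nat_lit 40, nat_lit 10]⟩,
 zbF0, [⟨nat_lit 0, nat_lit 82, nat_lit 82, nat_lit 100, nat_lit 611051006⟩, ⟨nat_lit 16, nat_lit 87, nat_lit 95, nat_lit 100, nat_lit 494242000⟩]⟩
noncomputable def t07_l12 : Lf2 := ⟨nat_lit 0, nat_lit 2, [nat_lit 10, nat_lit 5, nat_lit 5, nat_lit 20], false, nat_lit 240, nat_lit 280, nat_lit 240, nat_lit 300, ⟨nat_lit 1000, nat_lit 0, nat_lit 0, nat_lit 0, nat_lit 0, nat_lit 0, nat_lit 0, nat_lit 0, nat_lit 0, nat_lit 0, nat_lit 0, nat_lit 0, nat_lit 0, nat_lit 0, nat_lit 0, nat_lit 0, false, false⟩,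
 nat_lit 0, nat_lit 9803, nat_lit 0, nat_lit 0, nat_lit 7352, nat_lit 3797, nat_lit 0, nat_lit 0, nat_lit 0, nat_lit 0, nat_lit 0, nat_lit 0, nat_lit 0, nat_lit 0, nat_lit 0, nat_lit 0, nat_lit 0, nat_lit 0, [],
 ⟨t07_k8, nat_lit 0, nat_lit 0, nat_lit 268, nat_lit 0, nat_lit 753785, [nat_lit 2032000001, nat_lit 4688000000], [], [nat_lit 21162179168, nat_lit 21293871680, nat_lit 21236708384, nat_lit 21364235169, nat_lit 22918767208, nat_lit 23038553457, nat_lit 22931673840, nat_lit 23047688241], nat_lit 1271250, nat_lit 1271250, nat_lit 936251, nat_lit 1100001, nat_lit 1271250, nat_lit 1271250, [nat_lit 490000, nat_lit 1100000], [nat_lit 24, nat_lit 40, nat_lit 40, nat_lit 80, nat_lit 33, nat_lit 249, nat_lit 40, nat_lit 10]⟩, ⟨t07_k8, nat_lit 0, nat_lit 0, nat_lit 28, nat_lit 0, nat_lit 0, [nat_lit 2032000000, nat_lit 4688000000], [], [nat_lit 19136117496, nat_lit 19281624225, nat_lit 19470023564,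 nat_lit 19611349866, nat_lit 22274639285, nat_lit 22408160308, nat_lit 22520869748, nat_lit 22644164335], nat_lit 0, nat_lit 0, nat_lit 0, nat_lit 0, nat_lit 0, nat_lit 0, [], [nat_lit 24, nat_lit 40, nat_lit 40, nat_lit 80, nat_lit 33, nat_lit 249, nat_lit 40, nat_lit 10]⟩,
 zbF0, [⟨nat_lit 0, nat_lit 83, nat_lit 83, nat_lit 100, nat_lit 640502147⟩, ⟨nat_lit 19, nat_lit 87, nat_lit 95, nat_lit 100, nat_lit 567086612⟩]⟩
noncomputable def t07_l13 : Lf2 := ⟨nat_lit 0, nat_lit 2, [nat_lit 10, nat_lit 5, nat_lit 5, nat_lit 20], false, nat_lit 280, nat_lit 300, nat_lit 240, nat_lit 280, ⟨nat_lit 1000, nat_lit 0, nat_lit 0, nat_lit 0, nat_lit 0, nat_lit 0, nat_lit 0, nat_lit 0, nat_lit 0, nat_lit 0, nat_lit 0, nat_lit 0, nat_lit 0, nat_lit 0, nat_lit 0, nat_lit 0, false, false⟩,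
 nat_lit 0, nat_lit 7674, nat_lit 0, nat_lit 0, nat_lit 5755, nat_lit 3847, nat_lit 0, nat_lit 0, nat_lit 0, nat_lit 0, nat_lit 0, nat_lit 0, nat_lit 0, nat_lit 11351403242408, nat_lit 0, nat_lit 0, nat_lit 0, nat_lit 0, [],
 ⟨t07_k8, nat_lit 0, nat_lit 0, nat_lit 272, nat_lit 0, nat_lit 753785, [nat_lit 2032000001, nat_lit 4688000000], [], [nat_lit 27086691270, nat_lit 27192067549, nat_lit 27182616350, nat_lit 27284887927, nat_lit 27882524195, nat_lit 27983031585, nat_lit 27952981545, nat_lit 28050544243], nat_lit 1271250, nat_lit 1271250, nat_lit 936251, nat_lit 1100001, nat_lit 1271250, nat_lit 1271250, [nat_lit 490000, nat_lit 1100000], [nat_lit 24, nat_lit 40, nat_lit 40, nat_lit 80, nat_lit 33, nat_lit 249, nat_lit 40, nat_lit 9]⟩, ⟨t07_k8, nat_lit 0, nat_lit 0, nat_lit 23, nat_lit 0, nat_lit 0, [nat_lit 2032000000, nat_lit 4688000000], [], [nat_lit 19105365896, nat_lit 19251850475, nat_lit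 19437324164, nat_lit 19579588766, nat_lit 21208826105, nat_lit 21343442646, nat_lit 21481804020, nat_lit 21611929879], nat_lit 0, nat_lit 0, nat_lit 0, nat_lit 0, nat_lit 0, nat_lit 0, [], [nat_lit 24, nat_lit 40, nat_lit 40, nat_lit 80, nat_lit 33, nat_lit 249, nat_lit 40, nat_lit 10]⟩,
 zbF0, [⟨nat_lit 0, nat_lit 82, nat_lit 82, nat_lit 100, nat_lit 624584511⟩, ⟨nat_lit 16, nat_lit 87, nat_lit 95, nat_lit 100, nat_lit 506086467⟩]⟩
noncomputable def t07_l14 : Lf2 := ⟨nat_lit 0, nat_lit 2, [nat_lit 10, nat_lit 5, nat_lit 5, nat_lit 20], false, nat_lit 280, nat_lit 300, nat_lit 280, nat_lit 300, ⟨nat_lit 1000, nat_lit 0, nat_lit 0, nat_lit 0, nat_lit 0, nat_lit 0, nat_lit 0, nat_lit 0, nat_lit 0, nat_lit 0, nat_lit 0, nat_lit 0, nat_lit 0, nat_lit 0, nat_lit 0, nat_lit 0, false, false⟩,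
 nat_lit 0, nat_lit 0, nat_lit 0, nat_lit 0, nat_lit 0, nat_lit 3797, nat_lit 0, nat_lit 0, nat_lit 468, nat_lit 0, nat_lit 0, nat_lit 0, nat_lit 0, nat_lit 0, nat_lit 0, nat_lit 0, nat_lit 0, nat_lit 0, [],
 ⟨t07_k8, nat_lit 0, nat_lit 0, nat_lit 0, nat_lit 0, nat_lit 753785, [nat_lit 2032000001, nat_lit 4688000000], [], [nat_lit 19687769000, nat_lit 19746223750, nat_lit 19940049200, nat_lit 19998010000, nat_lit 20230061500, nat_lit 20287354475, nat_lit 20478019000, nat_lit 20534838920], nat_lit 1271250, nat_lit 1271250, nat_lit 936251, nat_lit 1033601, nat_lit 1271250, nat_lit 1271250, [nat_lit 490000, nat_lit 1100000], [nat_lit 24, nat_lit 40, nat_lit 40, nat_lit 80]⟩, ⟨t07_k8, nat_lit 0, nat_lit 0, nat_lit 28, nat_lit 0, nat_lit 0, [nat_lit 2032000000, nat_lit 4688000000], [], [nat_lit 21228465355, nat_lit 21361485854, nat_lit 21393738754, nat_lit 21524530049, nat_lit 22274639285, nat_lit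 22408160308, nat_lit 22422377563, nat_lit 22547065268], nat_lit 0, nat_lit 0, nat_lit 0, nat_lit 0, nat_lit 0, nat_lit 0, [], [nat_lit 24, nat_lit 40, nat_lit 40, nat_lit 80, nat_lit 33, nat_lit 249, nat_lit 40, nat_lit 9]⟩,
 zbF0, [⟨nat_lit 0, nat_lit 83, nat_lit 83, nat_lit 100, nat_lit 499410858⟩, ⟨nat_lit 16, nat_lit 87, nat_lit 95, nat_lit 100, nat_lit 171413391⟩, ⟨nat_lit 19, nat_lit 87, nat_lit 95, nat_lit 100, nat_lit 581652800⟩]⟩
noncomputable def t07_l15 : Lf2 := ⟨nat_lit 0, nat_lit 2, [nat_lit 10, nat_lit 5, nat_lit 5, nat_lit 20], true, nat_lit 280, nat_lit 300, nat_lit 280, nat_lit 300, ⟨nat_lit 0, nat_lit 0, nat_lit 1000, nat_lit 8, nat_lit 216, nat_lit 1000, nat_lit 222, nat_lit 1000, nat_lit 1169, nat_lit 218, nat_lit 5917, nat_lit 232, nat_lit 39781128, nat_lit 0, nat_lit 0, nat_lit 5166614, false, false⟩,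
 nat_lit 0, nat_lit 100000, nat_lit 0, nat_lit 0, nat_lit 75000, nat_lit 0, nat_lit 0, nat_lit 4962, nat_lit 0, nat_lit 0, nat_lit 0, nat_lit 0, nat_lit 0, nat_lit 0, nat_lit 0, nat_lit 1000000, nat_lit 0, nat_lit 0, [(nat_lit 18, [(nat_lit 6, nat_lit 1000)])],
 ⟨t07_k8, nat_lit 0, nat_lit 0, nat_lit 272, nat_lit 0, nat_lit 753785, [nat_lit 40755733334, nat_lit 78152266666], [], [nat_lit 64271623666, nat_lit 64873461417, nat_lit 62253241066, nat_lit 62838557726, nat_lit 68121444832, nat_lit 68738673632, nat_lit 65929266533, nat_lit 66529606923], nat_lit 1271250, nat_lit 1271250, nat_lit 936251, nat_lit 1033601, nat_lit 1271250, nat_lit 1271250, [nat_lit 490000, nat_lit 1100000], [nat_lit 24, nat_lit 40, nat_lit 40, nat_lit 80, nat_lit 33, nat_lit 249, nat_lit 40, nat_lit 9]⟩, C1.Rw.none,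
 ⟨nat_lit 4415, nat_lit 4473, ⟨.ofNat (nat_lit 527429), .ofNat (nat_lit 547823), .ofNat (nat_lit 529586), .ofNat (nat_lit 549980), .ofNat (nat_lit 528055), .ofNat (nat_lit 548345), .ofNat (nat_lit 530213), .ofNat (nat_lit 550503)⟩, ⟨.ofNat (nat_lit 528122), .ofNat (nat_lit 562111), .ofNat (nat_lit 549689), .ofNat (nat_lit 583678), .ofNat (nat_lit 527343), .ofNat (nat_lit 561160), .ofNat (nat_lit 548928), .ofNat (nat_lit 582745)⟩⟩, [⟨nat_lit 0, nat_lit 82, nat_lit 82, nat_lit 100, nat_lit 1350394018⟩, ⟨nat_lit 16, nat_lit 89, nat_lit 100, nat_lit 99, nat_lit 8150223013⟩]⟩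
noncomputable def t07_l16 : Lf2 := ⟨nat_lit 3, nat_lit 2, [nat_lit 10, nat_lit 5, nat_lit 5, nat_lit 20], false, nat_lit 280, nat_lit 300, nat_lit 280, nat_lit 300, zbN0,
 nat_lit 0, nat_lit 0, nat_lit 0, nat_lit 0, nat_lit 0, nat_lit 0, nat_lit 0, nat_lit 0, nat_lit 0, nat_lit 0, nat_lit 0, nat_lit 0, nat_lit 0, nat_lit 0, nat_lit 0, nat_lit 0, nat_lit 0, nat_lit 0, [],
 C1.Rw.none, ⟨t07_k8, nat_lit 0, nat_lit 0, nat_lit 0, nat_lit 0, nat_lit 0, [], [], [], nat_lit 0, nat_lit 0, nat_lit 0, nat_lit 0, nat_lit 0, nat_lit 0, [], [nat_lit 24, nat_lit 40, nat_lit 40, nat_lit 80]⟩,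
 zbF0, []⟩
noncomputable def t07_l17 : Lf2 := ⟨nat_lit 3, nat_lit 2, [nat_lit 10, nat_lit 5, nat_lit 5, nat_lit 20], false, nat_lit 280, nat_lit 300, nat_lit 280, nat_lit 300, zbN0,
 nat_lit 0, nat_lit 0, nat_lit 0, nat_lit 0, nat_lit 0, nat_lit 0, nat_lit 0, nat_lit 0, nat_lit 0, nat_lit 0, nat_lit 0, nat_lit 0, nat_lit 0, nat_lit 0, nat_lit 0, nat_lit 0, nat_lit 0, nat_lit 0, [],
 C1.Rw.none, ⟨t07_k8, nat_lit 0, nat_lit 0, nat_lit 28, nat_lit 0, nat_lit 0, [], [], [], nat_lit 0, nat_lit 0, nat_lit 0, nat_lit 0, nat_lit 0, nat_lit 0, [], [nat_lit 24, nat_lit 40, nat_lit 40, nat_lit 80, nat_lit 33, nat_lit 249, nat_lit 40, nat_lit 9]⟩,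
 zbF0, []⟩
noncomputable def t07_l18 : Lf2 := ⟨nat_lit 0, nat_lit 2, [nat_lit 10, nat_lit 5, nat_lit 5, nat_lit 20], false, nat_lit 280, nat_lit 300, nat_lit 280, nat_lit 300, ⟨nat_lit 1000, nat_lit 0, nat_lit 0, nat_lit 0, nat_lit 0, nat_lit 0, nat_lit 0, nat_lit 0, nat_lit 0, nat_lit 0, nat_lit 0, nat_lit 0, nat_lit 0, nat_lit 0, nat_lit 0, nat_lit 0, false, false⟩,
 nat_lit 0, nat_lit 7833, nat_lit 0, nat_lit 0, nat_lit 5874, nat_lit 3804, nat_lit 828, nat_lit 0, nat_lit 0, nat_lit 0, nat_lit 0, nat_lit 0, nat_lit 0, nat_lit 9721239881843, nat_lit 0, nat_lit 0, nat_lit 0, nat_lit 0, [],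
 ⟨t07_k9, nat_lit 0, nat_lit 0, nat_lit 274, nat_lit 0, nat_lit 753785, [nat_lit 2032000001, nat_lit 3282000000, nat_lit 4688000000], [], [nat_lit 22795314468, nat_lit 22899917071, nat_lit 22842233728, nat_lit 22945576386, nat_lit 23588976151, nat_lit 23688882103, nat_lit 23628260398, nat_lit 23732859807], nat_lit 1271250, nat_lit 1271250, nat_lit 1033601, nat_lit 1100001, nat_lit 1271250, nat_lit 1271250, [nat_lit 490000, nat_lit 780000, nat_lit 1100000], [nat_lit 78, nat_lit 40, nat_lit 40, nat_lit 80, nat_lit 22, nat_lit 249, nat_lit 40, nat_lit 9]⟩, ⟨t07_k9, nat_lit 0, nat_lit 0, nat_lit 32, nat_lit 0, nat_lit 0, [nat_lit 2032000000, nat_lit 3282000000, nat_lit 4688000000], [], [nat_lit 21390781128, nat_lit 21521689271, nat_lit 21500824640, nat_lit 21630244696, nat_lit 22420175544, nat_lit 22544971732, nat_lit 22518514136, nat_lit 22641915389], nat_lit 0, nat_lit 0, nat_lit 0, nat_lit 0,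 nat_lit 0, nat_lit 0, [], [nat_lit 78, nat_lit 40, nat_lit 40, nat_lit 80, nat_lit 22, nat_lit 249, nat_lit 40, nat_lit 9]⟩,
 zbF0, [⟨nat_lit 16, nat_lit 87, nat_lit 95, nat_lit 100, nat_lit 512760295⟩, ⟨nat_lit 19, nat_lit 87, nat_lit 95, nat_lit 100, nat_lit 580138391⟩]⟩
noncomputable def t07_l19 : Lf2 := ⟨nat_lit 0, nat_lit 2, [nat_lit 10, nat_lit 5, nat_lit 5, nat_lit 20], false, nat_lit 160, nat_lit 300, nat_lit 160, nat_lit 300, ⟨nat_lit 1000, nat_lit 0, nat_lit 0, nat_lit 0, nat_lit 0, nat_lit 0, nat_lit 0, nat_lit 0, nat_lit 0, nat_lit 0, nat_lit 0, nat_lit 0, nat_lit 0, nat_lit 0, nat_lit 0, nat_lit 0, false, false⟩,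
 nat_lit 0, nat_lit 8373, nat_lit 0, nat_lit 0, nat_lit 6328, nat_lit 3802, nat_lit 3491, nat_lit 0, nat_lit 0, nat_lit 0, nat_lit 0, nat_lit 0, nat_lit 0, nat_lit 0, nat_lit 0, nat_lit 0, nat_lit 0, nat_lit 0, [],
 ⟨t07_k10, nat_lit 0, nat_lit 0, nat_lit 273, nat_lit 0, nat_lit 761049, [nat_lit 2032000001, nat_lit 4688000000], [], [nat_lit 19450497395, nat_lit 19520474796, nat_lit 19613816478, nat_lit 19682049445, nat_lit 23943552538, nat_lit 24001297533, nat_lit 23972018496, nat_lit 24046953240], nat_lit 1271250, nat_lit 1271250, nat_lit 968401, nat_lit 1100001, nat_lit 1100001, nat_lit 2298750, [nat_lit 490000, nat_lit 1100000], [nat_lit 24, nat_lit 40, nat_lit 40, nat_lit 80, nat_lit 33, nat_lit 249, nat_lit 40, nat_lit 10]⟩, ⟨t07_k8, nat_lit 0, nat_lit 0, nat_lit 28, nat_lit 0, nat_lit 0, [nat_lit 2032000000, nat_lit 4688000000], [], [nat_lit 16241266569, nat_lit 16493302795, nat_lit 16575967864,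 nat_lit 16821944460, nat_lit 22322422216, nat_lit 22521585198, nat_lit 22519187168, nat_lit 22704243332], nat_lit 0, nat_lit 0, nat_lit 0, nat_lit 0, nat_lit 0, nat_lit 0, [], [nat_lit 24, nat_lit 40, nat_lit 40, nat_lit 80, nat_lit 33, nat_lit 249, nat_lit 40, nat_lit 10]⟩,
 zbF0, [⟨nat_lit 0, nat_lit 83, nat_lit 82, nat_lit 100, nat_lit 636834618⟩, ⟨nat_lit 16, nat_lit 86, nat_lit 96, nat_lit 100, nat_lit 436373314⟩, ⟨nat_lit 19, nat_lit 87, nat_lit 95, nat_lit 100, nat_lit 496423878⟩]⟩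
noncomputable def t07_l20 : Lf2 := ⟨nat_lit 0, nat_lit 2, [nat_lit 10, nat_lit 5, nat_lit 5, nat_lit 20], false, nat_lit 160, nat_lit 300, nat_lit 160, nat_lit 300, ⟨nat_lit 1000, nat_lit 0, nat_lit 0, nat_lit 0, nat_lit 0, nat_lit 0, nat_lit 0, nat_lit 0, nat_lit 0, nat_lit 0, nat_lit 0, nat_lit 0, nat_lit 0, nat_lit 0, nat_lit 0, nat_lit 0, false, false⟩,
 nat_lit 0, nat_lit 7276, nat_lit 0, nat_lit 0, nat_lit 5456, nat_lit 3811, nat_lit 0, nat_lit 0, nat_lit 0, nat_lit 0, nat_lit 0, nat_lit 0, nat_lit 0, nat_lit 0, nat_lit 0, nat_lit 0, nat_lit 0, nat_lit 0, [],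
 ⟨t07_k8, nat_lit 0, nat_lit 0, nat_lit 272, nat_lit 0, nat_lit 769289, [nat_lit 2032000001, nat_lit 4688000000], [], [nat_lit 25026342626, nat_lit 25190075441, nat_lit 25765497858, nat_lit 25918724342, nat_lit 28753014090, nat_lit 28878167724, nat_lit 29227690424, nat_lit 29361313515], nat_lit 1271250, nat_lit 1271250, nat_lit 1100001, nat_lit 1442500, nat_lit 1100001, nat_lit 2298750, [nat_lit 490000, nat_lit 1100000], [nat_lit 24, nat_lit 40, nat_lit 40, nat_lit 80, nat_lit 33, nat_lit 203, nat_lit 0, nat_lit 8]⟩, ⟨t07_k8, nat_lit 0, nat_lit 0, nat_lit 26, nat_lit 0, nat_lit 0, [nat_lit 2032000000, nat_lit 4688000000], [], [nat_lit 16568598052, nat_lit 16814887016, nat_lit 17836853584, nat_lit 18066645238, nat_lit 22516158524, nat_lit 22701420401, nat_lit 23374319169, nat_lit 23548081448], nat_lit 0, nat_lit 0, nat_lit 0, nat_lit 0, nat_lit 0, nat_lit 0, [], [nat_lit 24, nat_lit 40, nat_lit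 40, nat_lit 80, nat_lit 33, nat_lit 203, nat_lit 0, nat_lit 8]⟩,
 zbF0, [⟨nat_lit 16, nat_lit 87, nat_lit 95, nat_lit 100, nat_lit 403845667⟩, ⟨nat_lit 19, nat_lit 87, nat_lit 95, nat_lit 100, nat_lit 494102339⟩]⟩
noncomputable def t07_l21 : Lf2 := ⟨nat_lit 0, nat_lit 2, [nat_lit 10, nat_lit 5, nat_lit 5, nat_lit 20], false, nat_lit 160, nat_lit 300, nat_lit 160, nat_lit 300, ⟨nat_lit 1000, nat_lit 0, nat_lit 0, nat_lit 0, nat_lit 0, nat_lit 0, nat_lit 0, nat_lit 0, nat_lit 0, nat_lit 0, nat_lit 0, nat_lit 0, nat_lit 0, nat_lit 0, nat_lit 0, nat_lit 0, false, false⟩,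
 nat_lit 0, nat_lit 7773, nat_lit 0, nat_lit 0, nat_lit 5829, nat_lit 3815, nat_lit 0, nat_lit 0, nat_lit 0, nat_lit 0, nat_lit 0, nat_lit 0, nat_lit 0, nat_lit 0, nat_lit 0, nat_lit 0, nat_lit 0, nat_lit 0, [],
 ⟨t07_k8, nat_lit 0, nat_lit 0, nat_lit 268, nat_lit 0, nat_lit 769289, [nat_lit 2032000001, nat_lit 4688000000], [], [nat_lit 24308289806, nat_lit 24466638400, nat_lit 25437763768, nat_lit 25606398558, nat_lit 28230653591, nat_lit 28368242642, nat_lit 28989914068, nat_lit 29117315792], nat_lit 1271250, nat_lit 1271250, nat_lit 1271250, nat_lit 1271250, nat_lit 1100001, nat_lit 2298750, [nat_lit 490000, nat_lit 1100000], [nat_lit 24, nat_lit 40, nat_lit 40, nat_lit 80, nat_lit 33, nat_lit 203, nat_lit 0, nat_lit 7]⟩, ⟨t07_k8, nat_lit 0, nat_lit 0, nat_lit 26, nat_lit 0, nat_lit 0, [nat_lit 2032000000, nat_lit 4688000000], [], [nat_lit 17833753360, nat_lit 18063671121, nat_lit 19458251780,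 nat_lit 19670747915, nat_lit 23372851885, nat_lit 23546696925, nat_lit 24554573875, nat_lit 24724457669], nat_lit 0, nat_lit 0, nat_lit 0, nat_lit 0, nat_lit 0, nat_lit 0, [], [nat_lit 24, nat_lit 40, nat_lit 40, nat_lit 80, nat_lit 33, nat_lit 203, nat_lit 0, nat_lit 7]⟩,
 zbF0, [⟨nat_lit 16, nat_lit 87, nat_lit 95, nat_lit 100, nat_lit 412640814⟩, ⟨nat_lit 19, nat_lit 87, nat_lit 95, nat_lit 100, nat_lit 477541330⟩]⟩
noncomputable def t07_l22 : Lf2 := ⟨nat_lit 0, nat_lit 10, [nat_lit 0, nat_lit 5, nat_lit 5, nat_lit 20], false, nat_lit 160, nat_lit 300, nat_lit 160, nat_lit 300, ⟨nat_lit 1000, nat_lit 0, nat_lit 0, nat_lit 0, nat_lit 0, nat_lit 0, nat_lit 0, nat_lit 0, nat_lit 0, nat_lit 0, nat_lit 0, nat_lit 0, nat_lit 0, nat_lit 0, nat_lit 0, nat_lit 0, false, false⟩,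
 nat_lit 0, nat_lit 9533, nat_lit 0, nat_lit 0, nat_lit 7149, nat_lit 3785, nat_lit 493, nat_lit 0, nat_lit 0, nat_lit 0, nat_lit 0, nat_lit 0, nat_lit 0, nat_lit 0, nat_lit 0, nat_lit 0, nat_lit 0, nat_lit 0, [],
 ⟨t07_k6, nat_lit 0, nat_lit 0, nat_lit 306, nat_lit 0, nat_lit 702090, [nat_lit 2032000001, nat_lit 4688000000, nat_lit 6250000000], [], [nat_lit 20390539568, nat_lit 20586877971, nat_lit 22072720132, nat_lit 22235664409, nat_lit 24329686728, nat_lit 24486190322, nat_lit 26251996625, nat_lit 26487374265], nat_lit 1271250, nat_lit 1271250, nat_lit 936251, nat_lit 1773750, nat_lit 1100001, nat_lit 2298750, [nat_lit 490000, nat_lit 1100000, nat_lit 1442500], [nat_lit 6, nat_lit 40, nat_lit 40, nat_lit 80, nat_lit 3, nat_lit 373, nat_lit 150, nat_lit 13]⟩, ⟨t07_k6, nat_lit 0, nat_lit 0, nat_lit 41, nat_lit 0, nat_lit 0, [nat_lit 2032000000, nat_lit 4688000000, nat_lit 6250000000], [],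 [nat_lit 16171092270, nat_lit 16424028737, nat_lit 19477871420, nat_lit 19689523085, nat_lit 22278019223, nat_lit 22467899332, nat_lit 24545918130, nat_lit 24708594592], nat_lit 0, nat_lit 0, nat_lit 0, nat_lit 0, nat_lit 0, nat_lit 0, [], [nat_lit 6, nat_lit 40, nat_lit 40, nat_lit 80, nat_lit 3, nat_lit 373, nat_lit 150, nat_lit 13]⟩,
 zbF0, [⟨nat_lit 0, nat_lit 81, nat_lit 81, nat_lit 100, nat_lit 406493115⟩, ⟨nat_lit 16, nat_lit 87, nat_lit 95, nat_lit 100, nat_lit 412582857⟩, ⟨nat_lit 19, nat_lit 87, nat_lit 95, nat_lit 100, nat_lit 458486025⟩]⟩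
noncomputable def t07_l23 : Lf2 := ⟨nat_lit 0, nat_lit 10, [nat_lit 0, nat_lit 5, nat_lit 5, nat_lit 20], false, nat_lit 160, nat_lit 296, nat_lit 160, nat_lit 300, ⟨nat_lit 1000, nat_lit 0, nat_lit 0, nat_lit 0, nat_lit 0, nat_lit 0, nat_lit 0, nat_lit 0, nat_lit 0, nat_lit 0, nat_lit 0, nat_lit 0, nat_lit 0, nat_lit 0, nat_lit 0, nat_lit 0, false, false⟩,
 nat_lit 0, nat_lit 7712, nat_lit 0, nat_lit 0, nat_lit 5897, nat_lit 3768, nat_lit 2673, nat_lit 0, nat_lit 0, nat_lit 0, nat_lit 0, nat_lit 0, nat_lit 0, nat_lit 850907662084, nat_lit 0, nat_lit 0, nat_lit 0, nat_lit 0, [],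
 ⟨t07_k11, nat_lit 0, nat_lit 0, nat_lit 471, nat_lit 0, nat_lit 1100573, [nat_lit 2032000001, nat_lit 4688000000, nat_lit 6250000000], [], [nat_lit 21362383015, nat_lit 21578134669, nat_lit 22563116883, nat_lit 22747245805, nat_lit 23933069730, nat_lit 24099367819, nat_lit 25750384536, nat_lit 26105532988], nat_lit 1271250, nat_lit 1271250, nat_lit 1000851, nat_lit 1778250, nat_lit 1100001, nat_lit 2264500, [nat_lit 490000, nat_lit 1100000, nat_lit 1442500], [nat_lit 6, nat_lit 40, nat_lit 40, nat_lit 80, nat_lit 3, nat_lit 373, nat_lit 150, nat_lit 13]⟩, ⟨t07_k6, nat_lit 0, nat_lit 0, nat_lit 43, nat_lit 0, nat_lit 0, [nat_lit 2032000000, nat_lit 4688000000, nat_lit 6250000000], [], [nat_lit 16352279728, nat_lit 17183318709, nat_lit 19488989216, nat_lit 20192899656, nat_lit 22381935966, nat_lit 23006591315, nat_lit 24551541424, nat_lit 25093846716], nat_lit 0, nat_lit 0, nat_lit 0, nat_lit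 0, nat_lit 0, nat_lit 0, [], [nat_lit 6, nat_lit 40, nat_lit 40, nat_lit 80, nat_lit 3, nat_lit 373, nat_lit 150, nat_lit 13]⟩,
 zbF0, [⟨nat_lit 0, nat_lit 77, nat_lit 77, nat_lit 100, nat_lit 415164920⟩, ⟨nat_lit 16, nat_lit 85, nat_lit 97, nat_lit 100, nat_lit 366284454⟩, ⟨nat_lit 19, nat_lit 87, nat_lit 95, nat_lit 100, nat_lit 453632908⟩]⟩
noncomputable def t07_l24 : Lf2 := ⟨nat_lit 0, nat_lit 10, [nat_lit 0, nat_lit 5, nat_lit 5, nat_lit 20], false, nat_lit 160, nat_lit 288, nat_lit 160, nat_lit 300, ⟨nat_lit 1000, nat_lit 0, nat_lit 0, nat_lit 0, nat_lit 0, nat_lit 0, nat_lit 0, nat_lit 0, nat_lit 0, nat_lit 0, nat_lit 0, nat_lit 0, nat_lit 0, nat_lit 0, nat_lit 0, nat_lit 0, false, false⟩,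
 nat_lit 0, nat_lit 6678, nat_lit 0, nat_lit 0, nat_lit 5205, nat_lit 3769, nat_lit 2275, nat_lit 0, nat_lit 0, nat_lit 0, nat_lit 0, nat_lit 0, nat_lit 0, nat_lit 0, nat_lit 0, nat_lit 0, nat_lit 0, nat_lit 0, [],
 ⟨t07_k12, nat_lit 0, nat_lit 0, nat_lit 536, nat_lit 0, nat_lit 1234683, [nat_lit 2032000001, nat_lit 4688000000, nat_lit 6250000000], [], [nat_lit 20811002968, nat_lit 21257021645, nat_lit 22275529112, nat_lit 22663802647, nat_lit 23577835515, nat_lit 24040258917, nat_lit 25317764215, nat_lit 25995919252], nat_lit 1271250, nat_lit 1271250, nat_lit 1066650, nat_lit 1782750, nat_lit 1100001, nat_lit 2196000, [nat_lit 490000, nat_lit 1100000, nat_lit 1442500], [nat_lit 6, nat_lit 40, nat_lit 40, nat_lit 80, nat_lit 3, nat_lit 373, nat_lit 150, nat_lit 13]⟩, ⟨t07_k6, nat_lit 0, nat_lit 0, nat_lit 47, nat_lit 0, nat_lit 0, [nat_lit 2032000000, nat_lit 4688000000, nat_lit 6250000000],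 [], [nat_lit 16519152231, nat_lit 18161396142, nat_lit 19488335228, nat_lit 20896343768, nat_lit 22480738919, nat_lit 23741229427, nat_lit 24551210642, nat_lit 25657688519], nat_lit 0, nat_lit 0, nat_lit 0, nat_lit 0, nat_lit 0, nat_lit 0, [], [nat_lit 6, nat_lit 40, nat_lit 40, nat_lit 80, nat_lit 3, nat_lit 373, nat_lit 150, nat_lit 13]⟩,
 zbF0, [⟨nat_lit 0, nat_lit 77, nat_lit 74, nat_lit 100, nat_lit 398252530⟩, ⟨nat_lit 16, nat_lit 83, nat_lit 98, nat_lit 100, nat_lit 391313713⟩, ⟨nat_lit 19, nat_lit 87, nat_lit 95, nat_lit 100, nat_lit 451964858⟩]⟩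
noncomputable def t07_l25 : Lf2 := ⟨nat_lit 0, nat_lit 10, [nat_lit 0, nat_lit 5, nat_lit 5, nat_lit 20], false, nat_lit 160, nat_lit 276, nat_lit 160, nat_lit 300, ⟨nat_lit 1000, nat_lit 0, nat_lit 0, nat_lit 0, nat_lit 0, nat_lit 0, nat_lit 0, nat_lit 0, nat_lit 0, nat_lit 0, nat_lit 0, nat_lit 0, nat_lit 0, nat_lit 0, nat_lit 0, nat_lit 0, false, false⟩,
 nat_lit 0, nat_lit 6500, nat_lit 0, nat_lit 0, nat_lit 5261, nat_lit 3824, nat_lit 1266, nat_lit 0, nat_lit 0, nat_lit 0, nat_lit 0, nat_lit 0, nat_lit 0, nat_lit 0, nat_lit 0, nat_lit 0, nat_lit 0, nat_lit 0, [],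
 ⟨t07_k13, nat_lit 0, nat_lit 0, nat_lit 568, nat_lit 0, nat_lit 1317316, [nat_lit 2032000001, nat_lit 4688000000, nat_lit 6250000000], [], [nat_lit 21453391282, nat_lit 22462795714, nat_lit 22980752968, nat_lit 23874694446, nat_lit 24179572982, nat_lit 25185413821, nat_lit 25445820621, nat_lit 26851892468], nat_lit 1271250, nat_lit 1271250, nat_lit 1167600, nat_lit 1789500, nat_lit 1100001, nat_lit 2093250, [nat_lit 490000, nat_lit 1100000, nat_lit 1442500], [nat_lit 6, nat_lit 40, nat_lit 40, nat_lit 80, nat_lit 3, nat_lit 373, nat_lit 150, nat_lit 13]⟩, ⟨t07_k6, nat_lit 0, nat_lit 0, nat_lit 45, nat_lit 0, nat_lit 0, [nat_lit 2032000000, nat_lit 4688000000, nat_lit 6250000000], [], [nat_lit 16811717786, nat_lit 18434600653, nat_lit 19452365888, nat_lit 20870695728, nat_lit 22683337152, nat_lit 23970629793, nat_lit 24559156000, nat_lit 25692893276], nat_lit 0, nat_lit 0, nat_lit 0, nat_lit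 0, nat_lit 0, nat_lit 0, [], [nat_lit 6, nat_lit 40, nat_lit 40, nat_lit 80, nat_lit 3, nat_lit 373, nat_lit 150, nat_lit 13]⟩,
 zbF0, [⟨nat_lit 0, nat_lit 76, nat_lit 66, nat_lit 100, nat_lit 210221199⟩, ⟨nat_lit 0, nat_lit 81, nat_lit 72, nat_lit 100, nat_lit 173684287⟩, ⟨nat_lit 16, nat_lit 77, nat_lit 100, nat_lit 99, nat_lit 434622720⟩, ⟨nat_lit 19, nat_lit 87, nat_lit 95, nat_lit 100, nat_lit 462087216⟩]⟩
theorem r_V_800_800_20 (h : EB TB.env) : Dead (RC.box ⟨true, 120, 320, 360, 320, 340, 80, 120, [152]⟩ 0 152) := chkB_sound h (refs := [b_V_800_800_20_0, b_V_800_800_20_1, b_V_800_800_20_2, b_V_800_800_20_3, b_V_800_800_20_4, b_V_800_800_20_5, b_V_800_800_20_6, b_V_800_800_20_7, b_V_800_800_20_8, b_V_800_800_20_9, b_V_800_800_20_10, b_V_800_800_20_11, b_V_800_800_20_12, b_V_800_800_20_13, b_V_800_800_20_14, b_V_800_800_20_15, b_V_800_800_20_16, b_V_800_800_20_17, b_V_800_800_20_18, b_V_800_800_20_19,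 b_V_800_800_20_20, b_V_800_800_20_21, b_V_800_800_20_22, b_V_800_800_20_23, b_V_800_800_20_24, b_V_800_800_20_25, b_V_800_800_20_26, b_V_800_800_20_27, b_V_800_800_20_28]) (refs_cons (d_V_800_800_20_0 h) (refs_cons (d_V_800_800_20_1 h) (refs_cons (d_V_800_800_20_2 h) (refs_cons (d_V_800_800_20_3 h) (refs_cons (d_V_800_800_20_4 h) (refs_cons (d_V_800_800_20_5 h) (refs_cons (d_V_800_800_20_6 h) (refs_cons (d_V_800_800_20_7 h) (refs_cons (d_V_800_800_20_8 h) (refs_cons (d_V_800_800_20_9 h) (refs_cons (d_V_800_800_20_10 h) (refs_cons (d_V_800_800_20_11 h) (refs_cons (d_V_800_800_20_12 h) (refs_cons (d_V_800_800_20_13 h) (refs_cons (d_V_800_800_20_14 h) (refs_cons (d_V_800_800_20_15 h) (refs_cons (d_V_800_800_20_16 h) (refs_cons (d_V_800_800_20_17 h) (refs_cons (d_V_800_800_20_18 h) (refs_cons (d_V_800_800_20_19 h) (refs_cons (d_V_800_800_20_20 h) (refs_cons (d_V_800_800_20_21 h) (refs_cons (d_V_800_800_20_22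 h) (refs_cons (d_V_800_800_20_23 h) (refs_cons (d_V_800_800_20_24 h) (refs_cons (d_V_800_800_20_25 h) (refs_cons (d_V_800_800_20_26 h) (refs_cons (d_V_800_800_20_27 h) (refs_cons (d_V_800_800_20_28 h) (refs_nil)))))))))))))))))))))))))))))) (T :=
(.trZ (nat_lit 0) (nat_lit 83) (nat_lit 83) (nat_lit 100) (nat_lit 140) (.trX (nat_lit 16) (nat_lit 87) (nat_lit 95) (nat_lit 100) (nat_lit 300) (.trX (nat_lit 19) (nat_lit 87) (nat_lit 95) (nat_lit 100) (nat_lit 300) (.spl (nat_lit 6) (nat_lit 40)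
(.st (nat_lit 0)
(.gv
(.st (nat_lit 1)
(.leaf t07_l6)
(.spl (nat_lit 4) (nat_lit 160)
(.ref (nat_lit 0))
(.spl (nat_lit 2) (nat_lit 240)
(.ref (nat_lit 1))
(.spl (nat_lit 1) (nat_lit 330)
(.spl (nat_lit 8) (nat_lit 800)
(.leaf t07_l7)
(.spl (nat_lit 0) (nat_lit 340)
(.ref (nat_lit 2))
(.trX (nat_lit 16) (nat_lit 77) (nat_lit 100) (nat_lit 99) (nat_lit 276) (.spl (nat_lit 2) (nat_lit 320)
(.ref (nat_lit 3))
(.trZ (nat_lit 9) (nat_lit 100) (nat_lit 82) (nat_lit 44) (nat_lit 16) (.spl (nat_lit 5) (nat_lit 160)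
(.ref (nat_lit 4))
(.ref (nat_lit 5))))))))
(.ref (nat_lit 6))))))
(.ref (nat_lit 7)))
(.gv
(.st (nat_lit 1)
(.spl (nat_lit 2) (nat_lit 240)
(.spl (nat_lit 5) (nat_lit 160)
(.ref (nat_lit 8))
(.spl (nat_lit 4) (nat_lit 160)
(.ref (nat_lit 9))
(.spl (nat_lit 0) (nat_lit 340)
(.spl (nat_lit 0) (nat_lit 330)
(.ord (.spl (nat_lit 0) (nat_lit 325)
(.ord (.spl (nat_lit 0) (nat_lit 323)
(.ord (.spl (nat_lit 6) (nat_lit 20)
(.spl (nat_lit 6) (nat_lit 8)
(.spl (nat_lit 6) (nat_lit 4)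
(.leaf t07_l8)
(.spl (nat_lit 3) (nat_lit 100)
(.trX (nat_lit 16) (nat_lit 87) (nat_lit 100) (nat_lit 94) (nat_lit 280) (.trX (nat_lit 19) (nat_lit 87) (nat_lit 100) (nat_lit 94) (nat_lit 280) (.leaf t07_l9)))
(.spl (nat_lit 2) (nat_lit 200)
(.spl (nat_lit 2) (nat_lit 160)
(.spl (nat_lit 0) (nat_lit 322)
(.ord (.spl (nat_lit 4) (nat_lit 240)
(.leaf t07_l10)
(.spl (nat_lit 5) (nat_lit 240)
(.leaf t07_l11)
(.spl (nat_lit 4) (nat_lit 280)
(.leaf t07_l12)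
(.spl (nat_lit 5) (nat_lit 280)
(.leaf t07_l13)
(.spl (nat_lit 2) (nat_lit 152)
(.spl (nat_lit 7) (nat_lit 600)
(.leaf t07_l14)
(.spl (nat_lit 8) (nat_lit 800)
(.spl (nat_lit 8) (nat_lit 400)
(.spl (nat_lit 7) (nat_lit 900)
(.ref (nat_lit 10))
(.leaf t07_l15))
(.leaf t07_l16))
(.leaf t07_l17)))
(.leaf t07_l18)))))))
(.trZ (nat_lit 0) (nat_lit 83) (nat_lit 82) (nat_lit 100) (nat_lit 144) (.leaf t07_l19)))
(.leaf t07_l20))
(.leaf t07_l21))))
(.ref (nat_lit 11)))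
(.leaf t07_l22)))
(.ref (nat_lit 12))))
(.trZ (nat_lit 0) (nat_lit 83) (nat_lit 81) (nat_lit 100) (nat_lit 148) (.trX (nat_lit 16) (nat_lit 85) (nat_lit 97) (nat_lit 100) (nat_lit 296) (.leaf t07_l23)))))
(.trZ (nat_lit 0) (nat_lit 82) (nat_lit 78) (nat_lit 100) (nat_lit 156) (.trX (nat_lit 16) (nat_lit 83) (nat_lit 98) (nat_lit 100) (nat_lit 288) (.leaf t07_l24))))
(.trZ (nat_lit 0) (nat_lit 81) (nat_lit 72) (nat_lit 100) (nat_lit 168) (.trX (nat_lit 16) (nat_lit 77) (nat_lit 100) (nat_lit 99) (nat_lit 276) (.leaf t07_l25))))))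
(.ref (nat_lit 13)))
(.ref (nat_lit 14)))
(.st (nat_lit 1)
(.spl (nat_lit 2) (nat_lit 240)
(.spl (nat_lit 5) (nat_lit 160)
(.ref (nat_lit 15))
(.ref (nat_lit 16)))
(.ref (nat_lit 17)))
(.ref (nat_lit 18)))))
(.spl (nat_lit 6) (nat_lit 80)
(.st (nat_lit 0)
(.gv
(.ref (nat_lit 19))
(.ref (nat_lit 20)))
(.gv
(.ref (nat_lit 21))
(.ref (nat_lit 22))))
(.spl (nat_lit 6) (nat_lit 120)
(.st (nat_lit 0)
(.ref (nat_lit 23))
(.gv
(.ref (nat_lit 24))
(.ref (nat_lit 25))))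
(.st (nat_lit 0)
(.ref (nat_lit 26))
(.gv
(.ref (nat_lit 27))
(.ref (nat_lit 28))))))))))) (by decide +kernel)
theorem done_V_800_800_20 (h : EB TB.env) : RC.Done ⟨true, 120, 320, 360, 320, 340, 80, 120, [152]⟩ := RC.done1 (r_V_800_800_20 h) (t_V_800_800_20 h)
theorem t_V_900_400_10 (h : EB TB.env) : RC.Tail ⟨true, 80, 360, 400, 160, 200, 40, 80, [160]⟩ := RC.tail_chk h (b := ⟨nat_lit 40, nat_lit 80, nat_lit 5, nat_lit 5, nat_lit 20, nat_lit 226, nat_lit 20, nat_lit 17, nat_lit 5⟩) (by decide +kernel)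
noncomputable def t07_l26 : Lf2 := ⟨nat_lit 0, nat_lit 10, [nat_lit 0, nat_lit 5, nat_lit 5, nat_lit 20], true, nat_lit 0, nat_lit 200, nat_lit 0, nat_lit 384, ⟨nat_lit 0, nat_lit 1000, nat_lit 0, nat_lit 4, nat_lit 180, nat_lit 1000, nat_lit 67, nat_lit 0, nat_lit 0, nat_lit 0, nat_lit 0, nat_lit 0, nat_lit 0, nat_lit 0, nat_lit 0, nat_lit 5000000, false, true⟩,
 nat_lit 0, nat_lit 4092, nat_lit 0, nat_lit 0, nat_lit 3563, nat_lit 0, nat_lit 0, nat_lit 0, nat_lit 0, nat_lit 0, nat_lit 0, nat_lit 0, nat_lit 0, nat_lit 0, nat_lit 0, nat_lit 333550, nat_lit 0, nat_lit 0, [(nat_lit 24, [(nat_lit 0, nat_lit 443), (nat_lit 1, nat_lit 557)]), (nat_lit 27, [(nat_lit 0, nat_lit 443), (nat_lit 1, nat_lit 557)])],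
 ⟨t07_k14, nat_lit 0, nat_lit 0, nat_lit 576, nat_lit 0, nat_lit 1152834, [nat_lit 883733601, nat_lit 1289372480], [], [nat_lit 26660411236, nat_lit 28074189771, nat_lit 29827019149, nat_lit 31242332628, nat_lit 26981153571, nat_lit 28339443873, nat_lit 30776620315, nat_lit 31623505312], nat_lit 1271250, nat_lit 1271250, nat_lit 279600, nat_lit 2323000, nat_lit 0, nat_lit 1412500, [nat_lit 230000, nat_lit 1100000], [nat_lit 86, nat_lit 40, nat_lit 40, nat_lit 80, nat_lit 87, nat_lit 373, nat_lit 150, nat_lit 18]⟩, C1.Rw.none,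
 ⟨nat_lit 0, nat_lit 3163, ⟨.ofNat (nat_lit 216927), .ofNat (nat_lit 638543), .ofNat (nat_lit 258627), .ofNat (nat_lit 682855), .ofNat (nat_lit 252860), .ofNat (nat_lit 599993), .ofNat (nat_lit 300250), .ofNat (nat_lit 649995)⟩, ⟨.ofNat (nat_lit 0), .ofNat (nat_lit 322753), .ofNat (nat_lit 0), .ofNat (nat_lit 367065), .ofNat (nat_lit 0), .ofNat (nat_lit 299993), .ofNat (nat_lit 0), .ofNat (nat_lit 349995)⟩⟩, [⟨nat_lit 13, nat_lit 44, nat_lit 94, nat_lit 100, nat_lit 265393160⟩, ⟨nat_lit 4, nat_lit 100, nat_lit 46, nat_lit 75, nat_lit 237504034⟩]⟩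
theorem r_V_900_400_10 (h : EB TB.env) : Dead (RC.box ⟨true, 80, 360, 400, 160, 200, 40, 80, [160]⟩ 0 160) := chkB_sound h (refs := [b_V_900_400_10_0, b_V_900_400_10_1, b_V_900_400_10_2, b_V_900_400_10_3, b_V_900_400_10_4, b_V_900_400_10_5, b_V_900_400_10_6, b_V_900_400_10_7, b_V_900_400_10_8]) (refs_cons (d_V_900_400_10_0 h) (refs_cons (d_V_900_400_10_1 h) (refs_cons (d_V_900_400_10_2 h) (refs_cons (d_V_900_400_10_3 h) (refs_cons (d_V_900_400_10_4 h) (refs_cons (d_V_900_400_10_5 h) (refs_cons (d_V_900_400_10_6 h) (refs_cons (d_V_900_400_10_7 h) (refs_cons (d_V_900_400_10_8 h) (refs_nil)))))))))) (T :=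
(.trZ (nat_lit 0) (nat_lit 100) (nat_lit 61) (nat_lit 68) (nat_lit 48) (.trX (nat_lit 13) (nat_lit 60) (nat_lit 80) (nat_lit 100) (nat_lit 320) (.trX (nat_lit 16) (nat_lit 60) (nat_lit 100) (nat_lit 80) (nat_lit 200) (.trX (nat_lit 19) (nat_lit 100) (nat_lit 44) (nat_lit 82) (nat_lit 384) (.spl (nat_lit 6) (nat_lit 40)
(.st (nat_lit 0)
(.ref (nat_lit 0))
(.gv
(.st (nat_lit 1)
(.spl (nat_lit 0) (nat_lit 380)
(.ref (nat_lit 1))
(.ref (nat_lit 2)))
(.ref (nat_lit 3)))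
(.leaf t07_l26)))
(.spl (nat_lit 6) (nat_lit 80)
(.st (nat_lit 0)
(.ref (nat_lit 4))
(.ref (nat_lit 5)))
(.spl (nat_lit 6) (nat_lit 120)
(.st (nat_lit 0)
(.ref (nat_lit 6))
(.ref (nat_lit 7)))
(.ref (nat_lit 8)))))))))) (by decide +kernel)
theorem done_V_900_400_10 (h : EB TB.env) : RC.Done ⟨true, 80, 360, 400, 160, 200, 40, 80, [160]⟩ := RC.done1 (r_V_900_400_10 h) (t_V_900_400_10 h)
theorem t_V_900_400_20 (h : EB TB.env) : RC.Tail ⟨true, 120, 360, 400, 160, 200, 80, 120, [144]⟩ := RC.tail_chk h (b := ⟨nat_lit 60, nat_lit 72, nat_lit 5, nat_lit 5, nat_lit 20, nat_lit 238, nat_lit 30, nat_lit 12, nat_lit 15⟩) (by decide +kernel)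
noncomputable def t07_l27 : Lf2 := ⟨nat_lit 0, nat_lit 10, [nat_lit 0, nat_lit 5, nat_lit 5, nat_lit 20], true, nat_lit 8, nat_lit 248, nat_lit 0, nat_lit 396, ⟨nat_lit 0, nat_lit 1000, nat_lit 0, nat_lit 4, nat_lit 180, nat_lit 1000, nat_lit 94, nat_lit 0, nat_lit 0, nat_lit 0, nat_lit 0, nat_lit 0, nat_lit 0, nat_lit 0, nat_lit 0, nat_lit 5000000, false, true⟩,
 nat_lit 0, nat_lit 3877, nat_lit 0, nat_lit 0, nat_lit 3376, nat_lit 0, nat_lit 245, nat_lit 0, nat_lit 0, nat_lit 0, nat_lit 0, nat_lit 0, nat_lit 0, nat_lit 0, nat_lit 0, nat_lit 323650, nat_lit 0, nat_lit 0, [(nat_lit 24, [(nat_lit 0, nat_lit 509), (nat_lit 1, nat_lit 491)]), (nat_lit 27, [(nat_lit 0, nat_lit 509), (nat_lit 1, nat_lit 491)])],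
 ⟨t07_k15, nat_lit 0, nat_lit 0, nat_lit 499, nat_lit 0, nat_lit 955035, [nat_lit 813795201, nat_lit 1185595467, nat_lit 1336760800], [], [nat_lit 23142016675, nat_lit 25921478464, nat_lit 27622366477, nat_lit 30464219233, nat_lit 25318574242, nat_lit 26822177091, nat_lit 30433061290, nat_lit 30567038522], nat_lit 1271250, nat_lit 1271250, nat_lit 279600, nat_lit 2323000, nat_lit 43600, nat_lit 1756600, [nat_lit 230000, nat_lit 780000, nat_lit 1100000], [nat_lit 35, nat_lit 40, nat_lit 40, nat_lit 80, nat_lit 22, nat_lit 373, nat_lit 150, nat_lit 18]⟩, C1.Rw.none,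
 ⟨nat_lit 0, nat_lit 3163, ⟨.ofNat (nat_lit 216927), .ofNat (nat_lit 638543), .ofNat (nat_lit 258627), .ofNat (nat_lit 682855), .ofNat (nat_lit 252860), .ofNat (nat_lit 599993), .ofNat (nat_lit 300250), .ofNat (nat_lit 649995)⟩, ⟨.ofNat (nat_lit 20000), .ofNat (nat_lit 440207), .ofNat (nat_lit 20000), .ofNat (nat_lit 484518), .ofNat (nat_lit 20000), .ofNat (nat_lit 409993), .ofNat (nat_lit 20000), .ofNat (nat_lit 459993)⟩⟩, [⟨nat_lit 13, nat_lit 44, nat_lit 94, nat_lit 100, nat_lit 294286116⟩, ⟨nat_lit 16, nat_lit 44, nat_lit 100, nat_lit 87, nat_lit 171256857⟩]⟩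
noncomputable def t07_l28 : Lf2 := ⟨nat_lit 0, nat_lit 20, [nat_lit 5, nat_lit 5, nat_lit 5, nat_lit 20], true, nat_lit 8, nat_lit 248, nat_lit 0, nat_lit 396, ⟨nat_lit 0, nat_lit 1000, nat_lit 0, nat_lit 4, nat_lit 180, nat_lit 1000, nat_lit 94, nat_lit 0, nat_lit 0, nat_lit 0, nat_lit 0, nat_lit 0, nat_lit 0, nat_lit 0, nat_lit 0, nat_lit 5000000, false, true⟩,
 nat_lit 0, nat_lit 4527, nat_lit 0, nat_lit 0, nat_lit 3942, nat_lit 0, nat_lit 0, nat_lit 0, nat_lit 0, nat_lit 0, nat_lit 0, nat_lit 0, nat_lit 0, nat_lit 0, nat_lit 0, nat_lit 255700, nat_lit 0, nat_lit 0, [(nat_lit 25, [(nat_lit 0, nat_lit 962), (nat_lit 1, nat_lit 38)]), (nat_lit 28, [(nat_lit 0, nat_lit 962), (nat_lit 1, nat_lit 38)])],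
 ⟨t07_k16, nat_lit 0, nat_lit 0, nat_lit 419, nat_lit 0, nat_lit 602952, [nat_lit 789570881, nat_lit 2072293600], [], [nat_lit 27505191467, nat_lit 29519782181, nat_lit 30614339419, nat_lit 31987626345, nat_lit 28035550109, nat_lit 29556906199, nat_lit 33057395326, nat_lit 31106682289], nat_lit 1271250, nat_lit 1271250, nat_lit 279600, nat_lit 2323000, nat_lit 43600, nat_lit 1756600, [nat_lit 230000, nat_lit 1420000], [nat_lit 88, nat_lit 40, nat_lit 40, nat_lit 80, nat_lit 89, nat_lit 373, nat_lit 150, nat_lit 14]⟩, C1.Rw.none,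
 ⟨nat_lit 0, nat_lit 3163, ⟨.ofNat (nat_lit 216927), .ofNat (nat_lit 638543), .ofNat (nat_lit 258627), .ofNat (nat_lit 682855), .ofNat (nat_lit 252860), .ofNat (nat_lit 599993), .ofNat (nat_lit 300250), .ofNat (nat_lit 649995)⟩, ⟨.ofNat (nat_lit 20000), .ofNat (nat_lit 440207), .ofNat (nat_lit 20000), .ofNat (nat_lit 484518), .ofNat (nat_lit 20000), .ofNat (nat_lit 409993), .ofNat (nat_lit 20000), .ofNat (nat_lit 459993)⟩⟩, [⟨nat_lit 13, nat_lit 44, nat_lit 94, nat_lit 100, nat_lit 202540081⟩, ⟨nat_lit 4, nat_lit 100, nat_lit 44, nat_lit 87, nat_lit 135901454⟩]⟩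
noncomputable def t07_l29 : Lf2 := ⟨nat_lit 0, nat_lit 30, [nat_lit 15, nat_lit 5, nat_lit 5, nat_lit 20], true, nat_lit 8, nat_lit 248, nat_lit 0, nat_lit 396, ⟨nat_lit 0, nat_lit 1000, nat_lit 0, nat_lit 4, nat_lit 180, nat_lit 1000, nat_lit 94, nat_lit 0, nat_lit 0, nat_lit 0, nat_lit 0, nat_lit 0, nat_lit 0, nat_lit 0, nat_lit 0, nat_lit 5000000, false, true⟩,
 nat_lit 0, nat_lit 5351, nat_lit 0, nat_lit 0, nat_lit 4660, nat_lit 0, nat_lit 0, nat_lit 0, nat_lit 0, nat_lit 0, nat_lit 0, nat_lit 0, nat_lit 0, nat_lit 0, nat_lit 0, nat_lit 295600, nat_lit 0, nat_lit 0, [(nat_lit 26, [(nat_lit 0, nat_lit 696), (nat_lit 1, nat_lit 304)]), (nat_lit 29, [(nat_lit 0, nat_lit 696), (nat_lit 1, nat_lit 304)])],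
 ⟨t07_k17, nat_lit 0, nat_lit 0, nat_lit 455, nat_lit 0, nat_lit 389058, [nat_lit 895296001, nat_lit 2254348800], [], [nat_lit 32459362529, nat_lit 33697874010, nat_lit 32538847344, nat_lit 33920146321, nat_lit 30475096282, nat_lit 31414006218, nat_lit 33509048104, nat_lit 31341771777], nat_lit 1271250, nat_lit 1271250, nat_lit 279600, nat_lit 2323000, nat_lit 43600, nat_lit 1756600, [nat_lit 230000, nat_lit 2015000], [nat_lit 132, nat_lit 40, nat_lit 40, nat_lit 80, nat_lit 133, nat_lit 373, nat_lit 150, nat_lit 11]⟩, C1.Rw.none,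
 ⟨nat_lit 0, nat_lit 3163, ⟨.ofNat (nat_lit 216927), .ofNat (nat_lit 638543), .ofNat (nat_lit 258627), .ofNat (nat_lit 682855), .ofNat (nat_lit 252860), .ofNat (nat_lit 599993), .ofNat (nat_lit 300250), .ofNat (nat_lit 649995)⟩, ⟨.ofNat (nat_lit 20000), .ofNat (nat_lit 440207), .ofNat (nat_lit 20000), .ofNat (nat_lit 484518), .ofNat (nat_lit 20000), .ofNat (nat_lit 409993), .ofNat (nat_lit 20000), .ofNat (nat_lit 459993)⟩⟩, [⟨nat_lit 13, nat_lit 44, nat_lit 94, nat_lit 100, nat_lit 133324585⟩, ⟨nat_lit 4, nat_lit 100, nat_lit 44, nat_lit 87, nat_lit 43783047⟩]⟩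
theorem r_V_900_400_20 (h : EB TB.env) : Dead (RC.box ⟨true, 120, 360, 400, 160, 200, 80, 120, [144]⟩ 0 144) := chkB_sound h (refs := [b_V_900_400_20_0, b_V_900_400_20_1, b_V_900_400_20_2, b_V_900_400_20_3, b_V_900_400_20_4, b_V_900_400_20_5, b_V_900_400_20_6, b_V_900_400_20_7, b_V_900_400_20_8, b_V_900_400_20_9, b_V_900_400_20_10]) (refs_cons (d_V_900_400_20_0 h) (refs_cons (d_V_900_400_20_1 h) (refs_cons (d_V_900_400_20_2 h) (refs_cons (d_V_900_400_20_3 h) (refs_cons (d_V_900_400_20_4 h) (refs_cons (d_V_900_400_20_5 h) (refs_cons (d_V_900_400_20_6 h) (refs_cons (d_V_900_400_20_7 h) (refs_cons (d_V_900_400_20_8 h) (refs_cons (d_V_900_400_20_9 h) (refs_cons (d_V_900_400_20_10 h) (refs_nil)))))))))))) (T :=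
(.trZ (nat_lit 0) (nat_lit 100) (nat_lit 61) (nat_lit 68) (nat_lit 48) (.trX (nat_lit 13) (nat_lit 60) (nat_lit 80) (nat_lit 100) (nat_lit 320) (.trZ (nat_lit 3) (nat_lit 100) (nat_lit 75) (nat_lit 35) (nat_lit 8) (.trX (nat_lit 16) (nat_lit 62) (nat_lit 100) (nat_lit 94) (nat_lit 248) (.trX (nat_lit 19) (nat_lit 100) (nat_lit 21) (nat_lit 94) (nat_lit 396) (.spl (nat_lit 6) (nat_lit 40)
(.st (nat_lit 0)
(.ref (nat_lit 0))
(.gv
(.st (nat_lit 1)
(.spl (nat_lit 0) (nat_lit 380)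
(.ref (nat_lit 1))
(.ref (nat_lit 2)))
(.ref (nat_lit 3)))
(.leaf t07_l27)))
(.spl (nat_lit 6) (nat_lit 80)
(.st (nat_lit 0)
(.ref (nat_lit 4))
(.gv
(.st (nat_lit 1)
(.ref (nat_lit 5))
(.ref (nat_lit 6)))
(.leaf t07_l28)))
(.spl (nat_lit 6) (nat_lit 120)
(.st (nat_lit 0)
(.ref (nat_lit 7))
(.gv
(.st (nat_lit 1)
(.ref (nat_lit 8))
(.ref (nat_lit 9)))
(.leaf t07_l29)))
(.ref (nat_lit 10))))))))))) (by decide +kernel)
theorem done_V_900_400_20 (h : EB TB.env) : RC.Done ⟨true, 120, 360, 400, 160, 200, 80, 120, [144]⟩ := RC.done1 (r_V_900_400_20 h) (t_V_900_400_20 h)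
theorem t_V_900_500_10 (h : EB TB.env) : RC.Tail ⟨true, 80, 360, 400, 200, 240, 40, 80, [160]⟩ := RC.tail_chk h (b := ⟨nat_lit 40, nat_lit 80, nat_lit 5, nat_lit 5, nat_lit 20, nat_lit 226, nat_lit 20, nat_lit 17, nat_lit 5⟩) (by decide +kernel)
noncomputable def t07_l30 : Lf2 := ⟨nat_lit 0, nat_lit 20, [nat_lit 5, nat_lit 5, nat_lit 5, nat_lit 20], true, nat_lit 0, nat_lit 200, nat_lit 0, nat_lit 360, ⟨nat_lit 0, nat_lit 1000, nat_lit 0, nat_lit 5, nat_lit 217, nat_lit 1000, nat_lit 67, nat_lit 0, nat_lit 0, nat_lit 0, nat_lit 0, nat_lit 0, nat_lit 0, nat_lit 0, nat_lit 0, nat_lit 5000000, false, true⟩,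
 nat_lit 0, nat_lit 0, nat_lit 0, nat_lit 3863, nat_lit 3559, nat_lit 0, nat_lit 0, nat_lit 0, nat_lit 0, nat_lit 0, nat_lit 0, nat_lit 0, nat_lit 0, nat_lit 0, nat_lit 0, nat_lit 345700, nat_lit 0, nat_lit 0, [(nat_lit 25, [(nat_lit 0, nat_lit 362), (nat_lit 1, nat_lit 638)]), (nat_lit 28, [(nat_lit 0, nat_lit 362), (nat_lit 1, nat_lit 638)])],
 ⟨t07_k16, nat_lit 0, nat_lit 0, nat_lit 203, nat_lit 0, nat_lit 0, [nat_lit 915426880, nat_lit 1350613600], [], [nat_lit 22632275488, nat_lit 25845397468, nat_lit 30256297219, nat_lit 32939816504, nat_lit 22829470264, nat_lit 25113518488, nat_lit 28243637416, nat_lit 30437204057], nat_lit 0, nat_lit 0, nat_lit 0, nat_lit 0, nat_lit 0, nat_lit 0, [], [nat_lit 88, nat_lit 40, nat_lit 40, nat_lit 80, nat_lit 89, nat_lit 373, nat_lit 150, nat_lit 14]⟩, C1.Rw.none,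
 ⟨nat_lit 0, nat_lit 3163, ⟨.ofNat (nat_lit 309443), .ofNat (nat_lit 731616), .ofNat (nat_lit 351143), .ofNat (nat_lit 775928), .ofNat (nat_lit 342303), .ofNat (nat_lit 689994), .ofNat (nat_lit 389693), .ofNat (nat_lit 739996)⟩, ⟨.ofNat (nat_lit 0), .ofNat (nat_lit 322753), .ofNat (nat_lit 0), .ofNat (nat_lit 367065), .ofNat (nat_lit 0), .ofNat (nat_lit 299993), .ofNat (nat_lit 0), .ofNat (nat_lit 349995)⟩⟩, [⟨nat_lit 13, nat_lit 44, nat_lit 86, nat_lit 100, nat_lit 337504009⟩]⟩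
noncomputable def t07_l31 : Lf2 := ⟨nat_lit 0, nat_lit 20, [nat_lit 5, nat_lit 5, nat_lit 5, nat_lit 20], true, nat_lit 0, nat_lit 200, nat_lit 0, nat_lit 360, ⟨nat_lit 0, nat_lit 1000, nat_lit 0, nat_lit 5, nat_lit 217, nat_lit 1000, nat_lit 67, nat_lit 0, nat_lit 0, nat_lit 0, nat_lit 0, nat_lit 0, nat_lit 0, nat_lit 0, nat_lit 0, nat_lit 5000000, false, true⟩,
 nat_lit 0, nat_lit 3620, nat_lit 0, nat_lit 0, nat_lit 3152, nat_lit 0, nat_lit 0, nat_lit 0, nat_lit 0, nat_lit 0, nat_lit 0, nat_lit 0, nat_lit 0, nat_lit 0, nat_lit 0, nat_lit 332800, nat_lit 0, nat_lit 0, [(nat_lit 25, [(nat_lit 0, nat_lit 448), (nat_lit 1, nat_lit 552)]), (nat_lit 28, [(nat_lit 0, nat_lit 448), (nat_lit 1, nat_lit 552)])],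
 ⟨t07_k18, nat_lit 0, nat_lit 0, nat_lit 427, nat_lit 0, nat_lit 643142, [nat_lit 816486401, nat_lit 1166400000, nat_lit 1454054400], [], [nat_lit 25115848130, nat_lit 27009272898, nat_lit 30327028128, nat_lit 31730363507, nat_lit 26078803986, nat_lit 27620774082, nat_lit 33560866234, nat_lit 31631812903], nat_lit 1271250, nat_lit 1271250, nat_lit 490000, nat_lit 2615000, nat_lit 0, nat_lit 1412500, [nat_lit 230000, nat_lit 780000, nat_lit 1435000], [nat_lit 20, nat_lit 40, nat_lit 40, nat_lit 80, nat_lit 16, nat_lit 373, nat_lit 150, nat_lit 14]⟩, C1.Rw.none,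
 ⟨nat_lit 0, nat_lit 3163, ⟨.ofNat (nat_lit 309443), .ofNat (nat_lit 731616), .ofNat (nat_lit 351143), .ofNat (nat_lit 775928), .ofNat (nat_lit 342303), .ofNat (nat_lit 689994), .ofNat (nat_lit 389693), .ofNat (nat_lit 739996)⟩, ⟨.ofNat (nat_lit 0), .ofNat (nat_lit 322753), .ofNat (nat_lit 0), .ofNat (nat_lit 367065), .ofNat (nat_lit 0), .ofNat (nat_lit 299993), .ofNat (nat_lit 0), .ofNat (nat_lit 349995)⟩⟩, [⟨nat_lit 13, nat_lit 61, nat_lit 68, nat_lit 100, nat_lit 241044857⟩, ⟨nat_lit 4, nat_lit 100, nat_lit 46, nat_lit 75, nat_lit 401198045⟩]⟩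
theorem r_V_900_500_10 (h : EB TB.env) : Dead (RC.box ⟨true, 80, 360, 400, 200, 240, 40, 80, [160]⟩ 0 160) := chkB_sound h (refs := [b_V_900_500_10_0, b_V_900_500_10_1, b_V_900_500_10_2, b_V_900_500_10_3, b_V_900_500_10_4, b_V_900_500_10_5, b_V_900_500_10_6, b_V_900_500_10_7, b_V_900_500_10_8, b_V_900_500_10_9, b_V_900_500_10_10, b_V_900_500_10_11, b_V_900_500_10_12, b_V_900_500_10_13, b_V_900_500_10_14]) (refs_cons (d_V_900_500_10_0 h) (refs_cons (d_V_900_500_10_1 h) (refs_cons (d_V_900_500_10_2 h) (refs_cons (d_V_900_500_10_3 h) (refs_cons (d_V_900_500_10_4 h) (refs_cons (d_V_900_500_10_5 h) (refs_cons (d_V_900_500_10_6 h) (refs_cons (d_V_900_500_10_7 h) (refs_cons (d_V_900_500_10_8 h) (refs_cons (d_V_900_500_10_9 h) (refs_cons (d_V_900_500_10_10 h) (refs_cons (d_V_900_500_10_11 h) (refs_cons (d_V_900_500_10_12 h) (refs_cons (d_V_900_500_10_13 h) (refs_cons (d_V_900_500_10_14 h) (refs_nil))))))))))))))))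 (T :=
(.trZ (nat_lit 0) (nat_lit 100) (nat_lit 60) (nat_lit 80) (nat_lit 80) (.trX (nat_lit 13) (nat_lit 61) (nat_lit 68) (nat_lit 100) (nat_lit 352) (.trX (nat_lit 16) (nat_lit 60) (nat_lit 100) (nat_lit 80) (nat_lit 200) (.trX (nat_lit 19) (nat_lit 100) (nat_lit 60) (nat_lit 80) (nat_lit 360) (.spl (nat_lit 6) (nat_lit 40)
(.st (nat_lit 0)
(.ref (nat_lit 0))
(.gv
(.ref (nat_lit 1))
(.ref (nat_lit 2))))
(.spl (nat_lit 6) (nat_lit 80)
(.st (nat_lit 0)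
(.ref (nat_lit 3))
(.gv
(.st (nat_lit 1)
(.ref (nat_lit 4))
(.ref (nat_lit 5)))
(.ref (nat_lit 6))))
(.spl (nat_lit 6) (nat_lit 120)
(.st (nat_lit 0)
(.gv
(.st (nat_lit 1)
(.ref (nat_lit 7))
(.spl (nat_lit 2) (nat_lit 240)
(.ref (nat_lit 8))
(.spl (nat_lit 4) (nat_lit 80)
(.ref (nat_lit 9))
(.ref (nat_lit 10)))))
(.leaf t07_l30))
(.gv
(.st (nat_lit 1)
(.ref (nat_lit 11))
(.ref (nat_lit 12)))
(.leaf t07_l31)))
(.st (nat_lit 0)
(.ref (nat_lit 13))
(.ref (nat_lit 14))))))))))) (by decide +kernel)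
theorem done_V_900_500_10 (h : EB TB.env) : RC.Done ⟨true, 80, 360, 400, 200, 240, 40, 80, [160]⟩ := RC.done1 (r_V_900_500_10 h) (t_V_900_500_10 h)
theorem t_V_900_500_20 (h : EB TB.env) : RC.Tail ⟨true, 120, 360, 400, 200, 240, 80, 120, [148]⟩ := RC.tail_chk h (b := ⟨nat_lit 60, nat_lit 74, nat_lit 5, nat_lit 5, nat_lit 20, nat_lit 238, nat_lit 30, nat_lit 12, nat_lit 15⟩) (by decide +kernel)
noncomputable def t07_l32 : Lf2 := ⟨nat_lit 0, nat_lit 20, [nat_lit 5, nat_lit 5, nat_lit 5, nat_lit 20], true, nat_lit 8, nat_lit 248, nat_lit 0, nat_lit 384, ⟨nat_lit 0, nat_lit 1000, nat_lit 0, nat_lit 5, nat_lit 217, nat_lit 1000, nat_lit 94, nat_lit 0, nat_lit 0, nat_lit 0, nat_lit 0, nat_lit 0, nat_lit 0, nat_lit 0, nat_lit 0, nat_lit 5000000, false, true⟩,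
 nat_lit 0, nat_lit 0, nat_lit 0, nat_lit 4313, nat_lit 4042, nat_lit 0, nat_lit 0, nat_lit 0, nat_lit 0, nat_lit 0, nat_lit 0, nat_lit 0, nat_lit 0, nat_lit 0, nat_lit 0, nat_lit 250000, nat_lit 0, nat_lit 0, [(nat_lit 25, [(nat_lit 0, nat_lit 1000)]), (nat_lit 28, [(nat_lit 0, nat_lit 1000)])],
 ⟨t07_k16, nat_lit 0, nat_lit 0, nat_lit 197, nat_lit 0, nat_lit 0, [nat_lit 781600001, nat_lit 2118000000], [], [nat_lit 23808372391, nat_lit 26969986311, nat_lit 31207361562, nat_lit 34051069484, nat_lit 24846139352, nat_lit 27122311988, nat_lit 29645966538, nat_lit 31802478441], nat_lit 0, nat_lit 0, nat_lit 0, nat_lit 0, nat_lit 0, nat_lit 0, [], [nat_lit 88, nat_lit 40, nat_lit 40, nat_lit 80, nat_lit 89, nat_lit 373, nat_lit 150, nat_lit 14]⟩, C1.Rw.none,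
 ⟨nat_lit 0, nat_lit 3163, ⟨.ofNat (nat_lit 309443), .ofNat (nat_lit 731616), .ofNat (nat_lit 351143), .ofNat (nat_lit 775928), .ofNat (nat_lit 342303), .ofNat (nat_lit 689994), .ofNat (nat_lit 389693), .ofNat (nat_lit 739996)⟩, ⟨.ofNat (nat_lit 20000), .ofNat (nat_lit 440207), .ofNat (nat_lit 20000), .ofNat (nat_lit 484518), .ofNat (nat_lit 20000), .ofNat (nat_lit 409993), .ofNat (nat_lit 20000), .ofNat (nat_lit 459993)⟩⟩, [⟨nat_lit 13, nat_lit 44, nat_lit 86, nat_lit 100, nat_lit 311830538⟩, ⟨nat_lit 4, nat_lit 100, nat_lit 44, nat_lit 87, nat_lit 27701651⟩]⟩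
noncomputable def t07_l33 : Lf2 := ⟨nat_lit 0, nat_lit 30, [nat_lit 15, nat_lit 5, nat_lit 5, nat_lit 20], true, nat_lit 8, nat_lit 248, nat_lit 0, nat_lit 384, ⟨nat_lit 0, nat_lit 1000, nat_lit 0, nat_lit 5, nat_lit 217, nat_lit 1000, nat_lit 94, nat_lit 0, nat_lit 0, nat_lit 0, nat_lit 0, nat_lit 0, nat_lit 0, nat_lit 0, nat_lit 0, nat_lit 5000000, false, true⟩,
 nat_lit 0, nat_lit 0, nat_lit 0, nat_lit 7010, nat_lit 3732, nat_lit 0, nat_lit 0, nat_lit 0, nat_lit 0, nat_lit 0, nat_lit 0, nat_lit 0, nat_lit 0, nat_lit 0, nat_lit 0, nat_lit 377950, nat_lit 0, nat_lit 0, [(nat_lit 26, [(nat_lit 0, nat_lit 147), (nat_lit 1, nat_lit 853)]), (nat_lit 29, [(nat_lit 0, nat_lit 147), (nat_lit 1, nat_lit 853)])],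
 ⟨t07_k17, nat_lit 0, nat_lit 0, nat_lit 284, nat_lit 0, nat_lit 0, [nat_lit 1100622001, nat_lit 1045070800], [], [nat_lit 27009573831, nat_lit 29199471820, nat_lit 31417609295, nat_lit 33158234913, nat_lit 27151956498, nat_lit 28749080726, nat_lit 30368219464, nat_lit 31463268949], nat_lit 0, nat_lit 0, nat_lit 0, nat_lit 0, nat_lit 0, nat_lit 0, [], [nat_lit 132, nat_lit 40, nat_lit 40, nat_lit 80, nat_lit 133, nat_lit 373, nat_lit 150, nat_lit 11]⟩, C1.Rw.none,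
 ⟨nat_lit 0, nat_lit 3163, ⟨.ofNat (nat_lit 309443), .ofNat (nat_lit 731616), .ofNat (nat_lit 351143), .ofNat (nat_lit 775928), .ofNat (nat_lit 342303), .ofNat (nat_lit 689994), .ofNat (nat_lit 389693), .ofNat (nat_lit 739996)⟩, ⟨.ofNat (nat_lit 20000), .ofNat (nat_lit 440207), .ofNat (nat_lit 20000), .ofNat (nat_lit 484518), .ofNat (nat_lit 20000), .ofNat (nat_lit 409993), .ofNat (nat_lit 20000), .ofNat (nat_lit 459993)⟩⟩, [⟨nat_lit 13, nat_lit 44, nat_lit 86, nat_lit 100, nat_lit 249046008⟩, ⟨nat_lit 16, nat_lit 44, nat_lit 100, nat_lit 87, nat_lit 59242038⟩]⟩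
noncomputable def t07_l34 : Lf2 := ⟨nat_lit 0, nat_lit 30, [nat_lit 15, nat_lit 5, nat_lit 5, nat_lit 20], true, nat_lit 8, nat_lit 248, nat_lit 0, nat_lit 384, ⟨nat_lit 0, nat_lit 1000, nat_lit 0, nat_lit 5, nat_lit 217, nat_lit 1000, nat_lit 94, nat_lit 0, nat_lit 0, nat_lit 0, nat_lit 0, nat_lit 0, nat_lit 0, nat_lit 0, nat_lit 0, nat_lit 5000000, false, true⟩,
 nat_lit 0, nat_lit 0, nat_lit 0, nat_lit 7010, nat_lit 3732, nat_lit 0, nat_lit 0, nat_lit 0, nat_lit 0, nat_lit 0, nat_lit 0, nat_lit 0, nat_lit 0, nat_lit 0, nat_lit 0, nat_lit 377950, nat_lit 0, nat_lit 0, [(nat_lit 26, [(nat_lit 0, nat_lit 147), (nat_lit 1, nat_lit 853)]), (nat_lit 29, [(nat_lit 0, nat_lit 147), (nat_lit 1, nat_lit 853)])],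
 ⟨t07_k17, nat_lit 0, nat_lit 0, nat_lit 284, nat_lit 0, nat_lit 0, [nat_lit 1100622001, nat_lit 1045070800], [], [nat_lit 27009573831, nat_lit 29199471820, nat_lit 31417609295, nat_lit 33158234913, nat_lit 27151956498, nat_lit 28749080726, nat_lit 30368219464, nat_lit 31463268949], nat_lit 0, nat_lit 0, nat_lit 0, nat_lit 0, nat_lit 0, nat_lit 0, [], [nat_lit 132, nat_lit 40, nat_lit 40, nat_lit 80, nat_lit 133, nat_lit 373, nat_lit 150, nat_lit 11]⟩, C1.Rw.none,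
 ⟨nat_lit 0, nat_lit 3163, ⟨.ofNat (nat_lit 309443), .ofNat (nat_lit 731616), .ofNat (nat_lit 351143), .ofNat (nat_lit 775928), .ofNat (nat_lit 342303), .ofNat (nat_lit 689994), .ofNat (nat_lit 389693), .ofNat (nat_lit 739996)⟩, ⟨.ofNat (nat_lit 20000), .ofNat (nat_lit 440207), .ofNat (nat_lit 20000), .ofNat (nat_lit 484518), .ofNat (nat_lit 20000), .ofNat (nat_lit 409993), .ofNat (nat_lit 20000), .ofNat (nat_lit 459993)⟩⟩, [⟨nat_lit 13, nat_lit 44, nat_lit 86, nat_lit 100, nat_lit 249046008⟩, ⟨nat_lit 4, nat_lit 100, nat_lit 44, nat_lit 87, nat_lit 59242038⟩]⟩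
theorem r_V_900_500_20 (h : EB TB.env) : Dead (RC.box ⟨true, 120, 360, 400, 200, 240, 80, 120, [148]⟩ 0 148) := chkB_sound h (refs := [b_V_900_500_20_0, b_V_900_500_20_1, b_V_900_500_20_2, b_V_900_500_20_3, b_V_900_500_20_4, b_V_900_500_20_5, b_V_900_500_20_6, b_V_900_500_20_7, b_V_900_500_20_8, b_V_900_500_20_9, b_V_900_500_20_10, b_V_900_500_20_11, b_V_900_500_20_12, b_V_900_500_20_13, b_V_900_500_20_14, b_V_900_500_20_15, b_V_900_500_20_16, b_V_900_500_20_17, b_V_900_500_20_18, b_V_900_500_20_19, b_V_900_500_20_20, b_V_900_500_20_21, b_V_900_500_20_22, b_V_900_500_20_23, b_V_900_500_20_24, b_V_900_500_20_25, b_V_900_500_20_26, b_V_900_500_20_27, b_V_900_500_20_28, b_V_900_500_20_29, b_V_900_500_20_30, b_V_900_500_20_31, b_V_900_500_20_32]) (refs_cons (d_V_900_500_20_0 h) (refs_cons (d_V_900_500_20_1 h) (refs_cons (d_V_900_500_20_2 h) (refs_cons (d_V_900_500_20_3 h) (refs_cons (d_V_900_500_20_4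 h) (refs_cons (d_V_900_500_20_5 h) (refs_cons (d_V_900_500_20_6 h) (refs_cons (d_V_900_500_20_7 h) (refs_cons (d_V_900_500_20_8 h) (refs_cons (d_V_900_500_20_9 h) (refs_cons (d_V_900_500_20_10 h) (refs_cons (d_V_900_500_20_11 h) (refs_cons (d_V_900_500_20_12 h) (refs_cons (d_V_900_500_20_13 h) (refs_cons (d_V_900_500_20_14 h) (refs_cons (d_V_900_500_20_15 h) (refs_cons (d_V_900_500_20_16 h) (refs_cons (d_V_900_500_20_17 h) (refs_cons (d_V_900_500_20_18 h) (refs_cons (d_V_900_500_20_19 h) (refs_cons (d_V_900_500_20_20 h) (refs_cons (d_V_900_500_20_21 h) (refs_cons (d_V_900_500_20_22 h) (refs_cons (d_V_900_500_20_23 h) (refs_cons (d_V_900_500_20_24 h) (refs_cons (d_V_900_500_20_25 h) (refs_cons (d_V_900_500_20_26 h) (refs_cons (d_V_900_500_20_27 h) (refs_cons (d_V_900_500_20_28 h) (refs_cons (d_V_900_500_20_29 h) (refs_cons (d_V_900_500_20_30 h) (refs_cons (d_V_900_500_20_31 h) (refs_cons (d_V_900_500_20_32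 h) (refs_nil)))))))))))))))))))))))))))))))))) (T :=
(.trZ (nat_lit 0) (nat_lit 100) (nat_lit 60) (nat_lit 80) (nat_lit 80) (.trX (nat_lit 13) (nat_lit 61) (nat_lit 68) (nat_lit 100) (nat_lit 352) (.trZ (nat_lit 3) (nat_lit 100) (nat_lit 75) (nat_lit 35) (nat_lit 8) (.trX (nat_lit 16) (nat_lit 62) (nat_lit 100) (nat_lit 94) (nat_lit 248) (.trX (nat_lit 19) (nat_lit 100) (nat_lit 40) (nat_lit 92) (nat_lit 384) (.spl (nat_lit 6) (nat_lit 40)
(.st (nat_lit 0)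
(.ref (nat_lit 0))
(.gv
(.st (nat_lit 1)
(.ref (nat_lit 1))
(.ref (nat_lit 2)))
(.ref (nat_lit 3))))
(.spl (nat_lit 6) (nat_lit 80)
(.st (nat_lit 0)
(.gv
(.st (nat_lit 1)
(.ref (nat_lit 4))
(.spl (nat_lit 2) (nat_lit 240)
(.ref (nat_lit 5))
(.spl (nat_lit 4) (nat_lit 160)
(.ref (nat_lit 6))
(.ref (nat_lit 7)))))
(.leaf t07_l32))
(.gv
(.st (nat_lit 1)
(.ref (nat_lit 8))
(.spl (nat_lit 2) (nat_lit 240)
(.ref (nat_lit 9))
(.ref (nat_lit 10))))
(.ref (nat_lit 11))))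
(.spl (nat_lit 6) (nat_lit 120)
(.st (nat_lit 0)
(.gv
(.st (nat_lit 1)
(.ref (nat_lit 12))
(.spl (nat_lit 2) (nat_lit 240)
(.ref (nat_lit 13))
(.spl (nat_lit 4) (nat_lit 160)
(.spl (nat_lit 4) (nat_lit 80)
(.trX (nat_lit 22) (nat_lit 100) (nat_lit 76) (nat_lit 82) (nat_lit 336) (.spl (nat_lit 0) (nat_lit 380)
(.ref (nat_lit 14))
(.ref (nat_lit 15))))
(.spl (nat_lit 0) (nat_lit 380)
(.spl (nat_lit 3) (nat_lit 100)
(.ref (nat_lit 16))
(.ref (nat_lit 17)))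
(.ref (nat_lit 18))))
(.ref (nat_lit 19)))))
(.leaf t07_l33))
(.gv
(.st (nat_lit 1)
(.ref (nat_lit 20))
(.spl (nat_lit 2) (nat_lit 240)
(.ref (nat_lit 21))
(.spl (nat_lit 0) (nat_lit 380)
(.spl (nat_lit 4) (nat_lit 160)
(.ref (nat_lit 22))
(.spl (nat_lit 2) (nat_lit 320)
(.ref (nat_lit 23))
(.ref (nat_lit 24))))
(.trX (nat_lit 13) (nat_lit 44) (nat_lit 81) (nat_lit 100) (nat_lit 324) (.trZ (nat_lit 3) (nat_lit 100) (nat_lit 54) (nat_lit 57) (nat_lit 20) (.trX (nat_lit 16) (nat_lit 44) (nat_lit 100) (nat_lit 92) (nat_lit 208) (.spl (nat_lit 4) (nat_lit 80)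
(.ref (nat_lit 25))
(.ref (nat_lit 26)))))))))
(.ref (nat_lit 27))))
(.st (nat_lit 0)
(.gv
(.st (nat_lit 1)
(.ref (nat_lit 28))
(.ref (nat_lit 29)))
(.leaf t07_l34))
(.gv
(.st (nat_lit 1)
(.ref (nat_lit 30))
(.ref (nat_lit 31)))
(.ref (nat_lit 32))))))))))))) (by decide +kernel)
theorem done_V_900_500_20 (h : EB TB.env) : RC.Done ⟨true, 120, 360, 400, 200, 240, 80, 120, [148]⟩ := RC.done1 (r_V_900_500_20 h) (t_V_900_500_20 h)
theorem t_V_900_600_10 (h : EB TB.env) : RC.Tail ⟨true, 80, 360, 400, 240, 280, 40, 80, [172]⟩ := RC.tail_chk h (b := ⟨nat_lit 40, nat_lit 86, nat_lit 5, nat_lit 5, nat_lit 20, nat_lit 226, nat_lit 20, nat_lit 16, nat_lit 5⟩) (by decide +kernel)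
noncomputable def t07_l35 : Lf2 := ⟨nat_lit 0, nat_lit 20, [nat_lit 5, nat_lit 5, nat_lit 5, nat_lit 20], true, nat_lit 0, nat_lit 200, nat_lit 0, nat_lit 336, ⟨nat_lit 0, nat_lit 1000, nat_lit 0, nat_lit 6, nat_lit 251, nat_lit 1000, nat_lit 67, nat_lit 0, nat_lit 0, nat_lit 0, nat_lit 0, nat_lit 0, nat_lit 0, nat_lit 0, nat_lit 0, nat_lit 5000000, false, false⟩,
 nat_lit 0, nat_lit 0, nat_lit 0, nat_lit 0, nat_lit 3457, nat_lit 0, nat_lit 0, nat_lit 0, nat_lit 0, nat_lit 0, nat_lit 0, nat_lit 0, nat_lit 0, nat_lit 0, nat_lit 0, nat_lit 343300, nat_lit 0, nat_lit 0, [(nat_lit 25, [(nat_lit 0, nat_lit 378), (nat_lit 1, nat_lit 622)]), (nat_lit 28, [(nat_lit 0, nat_lit 378), (nat_lit 1, nat_lit 622)])],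
 ⟨t07_k16, nat_lit 0, nat_lit 0, nat_lit 195, nat_lit 0, nat_lit 0, [nat_lit 912070720, nat_lit 1369858400], [], [nat_lit 22810263792, nat_lit 25568236732, nat_lit 31505162920, nat_lit 33974691560, nat_lit 23213320100, nat_lit 25324755600, nat_lit 29371209235, nat_lit 31423236497], nat_lit 0, nat_lit 0, nat_lit 0, nat_lit 0, nat_lit 0, nat_lit 0, [], [nat_lit 88, nat_lit 40, nat_lit 40, nat_lit 80, nat_lit 89, nat_lit 373, nat_lit 150, nat_lit 14]⟩, C1.Rw.none,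
 ⟨nat_lit 0, nat_lit 3163, ⟨.ofNat (nat_lit 401957), .ofNat (nat_lit 812499), .ofNat (nat_lit 443658), .ofNat (nat_lit 856810), .ofNat (nat_lit 431745), .ofNat (nat_lit 769995), .ofNat (nat_lit 479136), .ofNat (nat_lit 819996)⟩, ⟨.ofNat (nat_lit 0), .ofNat (nat_lit 322753), .ofNat (nat_lit 0), .ofNat (nat_lit 367065), .ofNat (nat_lit 0), .ofNat (nat_lit 299993), .ofNat (nat_lit 0), .ofNat (nat_lit 349995)⟩⟩, [⟨nat_lit 13, nat_lit 65, nat_lit 54, nat_lit 100, nat_lit 344930099⟩]⟩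
noncomputable def t07_l36 : Lf2 := ⟨nat_lit 0, nat_lit 20, [nat_lit 5, nat_lit 5, nat_lit 5, nat_lit 20], true, nat_lit 0, nat_lit 200, nat_lit 0, nat_lit 336, ⟨nat_lit 0, nat_lit 1000, nat_lit 0, nat_lit 6, nat_lit 251, nat_lit 1000, nat_lit 67, nat_lit 0, nat_lit 0, nat_lit 0, nat_lit 0, nat_lit 0, nat_lit 0, nat_lit 0, nat_lit 0, nat_lit 5000000, false, false⟩,
 nat_lit 0, nat_lit 0, nat_lit 0, nat_lit 5259, nat_lit 3734, nat_lit 0, nat_lit 0, nat_lit 0, nat_lit 0, nat_lit 0, nat_lit 0, nat_lit 0, nat_lit 0, nat_lit 0, nat_lit 0, nat_lit 250000, nat_lit 0, nat_lit 0, [(nat_lit 25, [(nat_lit 0, nat_lit 1000)]), (nat_lit 28, [(nat_lit 0, nat_lit 1000)])],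
 ⟨t07_k18, nat_lit 0, nat_lit 0, nat_lit 192, nat_lit 0, nat_lit 0, [nat_lit 781600001, nat_lit 1368800000, nat_lit 2118000000], [], [nat_lit 24161137504, nat_lit 27028399575, nat_lit 32288618640, nat_lit 34846301311, nat_lit 24128417829, nat_lit 26424412484, nat_lit 30382556686, nat_lit 31831718571], nat_lit 0, nat_lit 0, nat_lit 0, nat_lit 0, nat_lit 0, nat_lit 0, [], [nat_lit 20, nat_lit 40, nat_lit 40, nat_lit 80, nat_lit 16, nat_lit 373, nat_lit 150, nat_lit 14]⟩, C1.Rw.none,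
 ⟨nat_lit 0, nat_lit 3163, ⟨.ofNat (nat_lit 401957), .ofNat (nat_lit 812499), .ofNat (nat_lit 443658), .ofNat (nat_lit 856810), .ofNat (nat_lit 431745), .ofNat (nat_lit 769995), .ofNat (nat_lit 479136), .ofNat (nat_lit 819996)⟩, ⟨.ofNat (nat_lit 0), .ofNat (nat_lit 322753), .ofNat (nat_lit 0), .ofNat (nat_lit 367065), .ofNat (nat_lit 0), .ofNat (nat_lit 299993), .ofNat (nat_lit 0), .ofNat (nat_lit 349995)⟩⟩, [⟨nat_lit 13, nat_lit 65, nat_lit 54, nat_lit 100, nat_lit 349840323⟩, ⟨nat_lit 4, nat_lit 100, nat_lit 46, nat_lit 75, nat_lit 11674058⟩]⟩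
theorem r_V_900_600_10 (h : EB TB.env) : Dead (RC.box ⟨true, 80, 360, 400, 240, 280, 40, 80, [172]⟩ 0 172) := chkB_sound h (refs := [b_V_900_600_10_0, b_V_900_600_10_1, b_V_900_600_10_2, b_V_900_600_10_3, b_V_900_600_10_4, b_V_900_600_10_5, b_V_900_600_10_6, b_V_900_600_10_7, b_V_900_600_10_8, b_V_900_600_10_9, b_V_900_600_10_10, b_V_900_600_10_11, b_V_900_600_10_12, b_V_900_600_10_13, b_V_900_600_10_14, b_V_900_600_10_15, b_V_900_600_10_16, b_V_900_600_10_17, b_V_900_600_10_18, b_V_900_600_10_19, b_V_900_600_10_20, b_V_900_600_10_21, b_V_900_600_10_22, b_V_900_600_10_23, b_V_900_600_10_24, b_V_900_600_10_25, b_V_900_600_10_26, b_V_900_600_10_27, b_V_900_600_10_28, b_V_900_600_10_29, b_V_900_600_10_30, b_V_900_600_10_31, b_V_900_600_10_32, b_V_900_600_10_33, b_V_900_600_10_34]) (refs_cons (d_V_900_600_10_0 h) (refs_cons (d_V_900_600_10_1 h) (refs_cons (d_V_900_600_10_2 h) (refs_cons (d_V_900_600_10_3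 h) (refs_cons (d_V_900_600_10_4 h) (refs_cons (d_V_900_600_10_5 h) (refs_cons (d_V_900_600_10_6 h) (refs_cons (d_V_900_600_10_7 h) (refs_cons (d_V_900_600_10_8 h) (refs_cons (d_V_900_600_10_9 h) (refs_cons (d_V_900_600_10_10 h) (refs_cons (d_V_900_600_10_11 h) (refs_cons (d_V_900_600_10_12 h) (refs_cons (d_V_900_600_10_13 h) (refs_cons (d_V_900_600_10_14 h) (refs_cons (d_V_900_600_10_15 h) (refs_cons (d_V_900_600_10_16 h) (refs_cons (d_V_900_600_10_17 h) (refs_cons (d_V_900_600_10_18 h) (refs_cons (d_V_900_600_10_19 h) (refs_cons (d_V_900_600_10_20 h) (refs_cons (d_V_900_600_10_21 h) (refs_cons (d_V_900_600_10_22 h) (refs_cons (d_V_900_600_10_23 h) (refs_cons (d_V_900_600_10_24 h) (refs_cons (d_V_900_600_10_25 h) (refs_cons (d_V_900_600_10_26 h) (refs_cons (d_V_900_600_10_27 h) (refs_cons (d_V_900_600_10_28 h) (refs_cons (d_V_900_600_10_29 h) (refs_cons (d_V_900_600_10_30 h) (refs_cons (d_V_900_600_10_31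 h) (refs_cons (d_V_900_600_10_32 h) (refs_cons (d_V_900_600_10_33 h) (refs_cons (d_V_900_600_10_34 h) (refs_nil)))))))))))))))))))))))))))))))))))) (T :=
(.trZ (nat_lit 0) (nat_lit 100) (nat_lit 61) (nat_lit 92) (nat_lit 112) (.trX (nat_lit 13) (nat_lit 65) (nat_lit 54) (nat_lit 100) (nat_lit 376) (.trX (nat_lit 16) (nat_lit 60) (nat_lit 100) (nat_lit 80) (nat_lit 200) (.trX (nat_lit 19) (nat_lit 100) (nat_lit 76) (nat_lit 82) (nat_lit 336) (.spl (nat_lit 6) (nat_lit 40)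
(.st (nat_lit 0)
(.ref (nat_lit 0))
(.gv
(.ref (nat_lit 1))
(.ref (nat_lit 2))))
(.spl (nat_lit 6) (nat_lit 80)
(.st (nat_lit 0)
(.gv
(.st (nat_lit 1)
(.ref (nat_lit 3))
(.spl (nat_lit 2) (nat_lit 240)
(.ref (nat_lit 4))
(.spl (nat_lit 4) (nat_lit 80)
(.spl (nat_lit 2) (nat_lit 320)
(.ref (nat_lit 5))
(.trX (nat_lit 22) (nat_lit 83) (nat_lit 100) (nat_lit 83) (nat_lit 260) (.spl (nat_lit 0) (nat_lit 380)
(.spl (nat_lit 1) (nat_lit 260)
(.ref (nat_lit 6))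
(.ref (nat_lit 7)))
(.ref (nat_lit 8)))))
(.ref (nat_lit 9)))))
(.leaf t07_l35))
(.gv
(.st (nat_lit 1)
(.ref (nat_lit 10))
(.spl (nat_lit 2) (nat_lit 240)
(.ref (nat_lit 11))
(.ref (nat_lit 12))))
(.ref (nat_lit 13))))
(.spl (nat_lit 6) (nat_lit 120)
(.st (nat_lit 0)
(.gv
(.st (nat_lit 1)
(.ref (nat_lit 14))
(.spl (nat_lit 2) (nat_lit 240)
(.ref (nat_lit 15))
(.spl (nat_lit 4) (nat_lit 80)
(.spl (nat_lit 2) (nat_lit 320)
(.spl (nat_lit 2) (nat_lit 280)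
(.ref (nat_lit 16))
(.ref (nat_lit 17)))
(.trX (nat_lit 22) (nat_lit 83) (nat_lit 100) (nat_lit 83) (nat_lit 260) (.spl (nat_lit 0) (nat_lit 380)
(.spl (nat_lit 1) (nat_lit 260)
(.ref (nat_lit 18))
(.ref (nat_lit 19)))
(.ref (nat_lit 20)))))
(.spl (nat_lit 2) (nat_lit 320)
(.ref (nat_lit 21))
(.spl (nat_lit 1) (nat_lit 260)
(.ref (nat_lit 22))
(.ref (nat_lit 23)))))))
(.ref (nat_lit 24)))
(.gv
(.st (nat_lit 1)
(.ref (nat_lit 25))
(.spl (nat_lit 2) (nat_lit 240)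
(.ref (nat_lit 26))
(.spl (nat_lit 4) (nat_lit 80)
(.ref (nat_lit 27))
(.ref (nat_lit 28)))))
(.ref (nat_lit 29))))
(.spl (nat_lit 6) (nat_lit 160)
(.st (nat_lit 0)
(.gv
(.st (nat_lit 1)
(.ref (nat_lit 30))
(.spl (nat_lit 2) (nat_lit 240)
(.ref (nat_lit 31))
(.ref (nat_lit 32))))
(.leaf t07_l36))
(.ref (nat_lit 33)))
(.ref (nat_lit 34))))))))))) (by decide +kernel)
theorem done_V_900_600_10 (h : EB TB.env) : RC.Done ⟨true, 80, 360, 400, 240, 280, 40, 80, [172]⟩ := RC.done1 (r_V_900_600_10 h) (t_V_900_600_10 h)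

end B2
end Pool.Agent.Lib.MP_6947cd_al
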