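import Pool.Agent.Lib.MP_6947cd_al.ZB.Pre

/-!
Problem MP_6947cd_al (Chollet).  Case B, second entry in [2/5, 17/20]: certificates of the tree, part P111 (generated).
-/

set_option autoImplicit false
set_option linter.all false

namespace Pool.Agent.Lib.MP_6947cd_al
namespace B2

open Ent Fr B1 PkA

noncomputable def p111_k0 : C1.Kn := ⟨[nat_lit 20, nat_lit 80], [nat_lit 0, nat_lit 0], [(nat_lit 0, nat_lit 0, nat_lit 0), (nat_lit 0, nat_lit 0, nat_lit 0)], (nat_lit 63, nat_lit 100, nat_lit 62)⟩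
noncomputable def p111_k1 : C1.Kn := ⟨[nat_lit 20, nat_lit 60, nat_lit 80], [nat_lit 0, nat_lit 0, nat_lit 1613], [(nat_lit 0, nat_lit 0, nat_lit 0), (nat_lit 0, nat_lit 0, nat_lit 0), (nat_lit 1000, nat_lit 614, nat_lit 668)], (nat_lit 63, nat_lit 100, nat_lit 62)⟩
noncomputable def p111_k2 : C1.Kn := ⟨[nat_lit 80, nat_lit 120, nat_lit 140], [nat_lit 0, nat_lit 796, nat_lit 1801], [(nat_lit 0, nat_lit 0, nat_lit 0), (nat_lit 1000, nat_lit 938, nat_lit 310), (nat_lit 982, nat_lit 1000, nat_lit 736)], (nat_lit 98, nat_lit 100, nat_lit 63)⟩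
noncomputable def p111_k3 : C1.Kn := ⟨[nat_lit 80, nat_lit 140, nat_lit 160], [nat_lit 0, nat_lit 0, nat_lit 2151], [(nat_lit 0, nat_lit 0, nat_lit 0), (nat_lit 0, nat_lit 0, nat_lit 0), (nat_lit 823, nat_lit 1000, nat_lit 757)], (nat_lit 100, nat_lit 92, nat_lit 61)⟩
noncomputable def p111_k4 : C1.Kn := ⟨[nat_lit 80, nat_lit 120, nat_lit 160], [nat_lit 0, nat_lit 0, nat_lit 2132], [(nat_lit 0, nat_lit 0, nat_lit 0), (nat_lit 0, nat_lit 0, nat_lit 0), (nat_lit 858, nat_lit 1000, nat_lit 713)], (nat_lit 100, nat_lit 92, nat_lit 61)⟩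
noncomputable def p111_k5 : C1.Kn := ⟨[nat_lit 20, nat_lit 60], [nat_lit 0, nat_lit 1415], [(nat_lit 0, nat_lit 0, nat_lit 0), (nat_lit 1000, nat_lit 558, nat_lit 551)], (nat_lit 49, nat_lit 100, nat_lit 68)⟩
noncomputable def p111_k6 : C1.Kn := ⟨[nat_lit 20, nat_lit 60, nat_lit 80], [nat_lit 0, nat_lit 698, nat_lit 2008], [(nat_lit 0, nat_lit 0, nat_lit 0), (nat_lit 1000, nat_lit 782, nat_lit 272), (nat_lit 1000, nat_lit 540, nat_lit 733)], (nat_lit 57, nat_lit 100, nat_lit 64)⟩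
noncomputable def p111_k7 : C1.Kn := ⟨[nat_lit 80, nat_lit 160], [nat_lit 0, nat_lit 0], [(nat_lit 0, nat_lit 0, nat_lit 0), (nat_lit 0, nat_lit 0, nat_lit 0)], (nat_lit 100, nat_lit 92, nat_lit 61)⟩
noncomputable def p111_k8 : C1.Kn := ⟨[nat_lit 80, nat_lit 140], [nat_lit 0, nat_lit 792], [(nat_lit 0, nat_lit 0, nat_lit 0), (nat_lit 1000, nat_lit 959, nat_lit 206)], (nat_lit 100, nat_lit 99, nat_lit 63)⟩
noncomputable def p111_k9 : C1.Kn := ⟨[nat_lit 80, nat_lit 120, nat_lit 140], [nat_lit 0, nat_lit 528, nat_lit 1572], [(nat_lit 0, nat_lit 0, nat_lit 0), (nat_lit 1000, nat_lit 959, nat_lit 206), (nat_lit 966, nat_lit 1000, nat_lit 679)], (nat_lit 100, nat_lit 99, nat_lit 63)⟩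
noncomputable def p111_k10 : C1.Kn := ⟨[nat_lit 20, nat_lit 60], [nat_lit 0, nat_lit 1776], [(nat_lit 0, nat_lit 0, nat_lit 0), (nat_lit 1000, nat_lit 445, nat_lit 693)], (nat_lit 44, nat_lit 100, nat_lit 70)⟩
noncomputable def p111_k11 : C1.Kn := ⟨[nat_lit 20, nat_lit 60], [nat_lit 0, nat_lit 2136], [(nat_lit 0, nat_lit 0, nat_lit 0), (nat_lit 1000, nat_lit 343, nat_lit 808)], (nat_lit 38, nat_lit 100, nat_lit 73)⟩
noncomputable def p111_k12 : C1.Kn := ⟨[nat_lit 20, nat_lit 40], [nat_lit 0, nat_lit 1518], [(nat_lit 0, nat_lit 0, nat_lit 0), (nat_lit 1000, nat_lit 282, nat_lit 802)], (nat_lit 29, nat_lit 100, nat_lit 79)⟩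
noncomputable def p111_k13 : C1.Kn := ⟨[nat_lit 80, nat_lit 120, nat_lit 140], [nat_lit 0, nat_lit 264, nat_lit 1360], [(nat_lit 0, nat_lit 0, nat_lit 0), (nat_lit 1000, nat_lit 979, nat_lit 103), (nat_lit 951, nat_lit 1000, nat_lit 628)], (nat_lit 100, nat_lit 95, nat_lit 62)⟩
noncomputable def p111_k14 : C1.Kn := ⟨[nat_lit 20, nat_lit 80, nat_lit 100], [nat_lit 0, nat_lit 0, nat_lit 2559], [(nat_lit 0, nat_lit 0, nat_lit 0), (nat_lit 0, nat_lit 0, nat_lit 0), (nat_lit 1000, nat_lit 600, nat_lit 787)], (nat_lit 60, nat_lit 100, nat_lit 80)⟩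
noncomputable def p111_k15 : C1.Kn := ⟨[nat_lit 80, nat_lit 140, nat_lit 180], [nat_lit 0, nat_lit 0, nat_lit 3656], [(nat_lit 0, nat_lit 0, nat_lit 0), (nat_lit 0, nat_lit 0, nat_lit 0), (nat_lit 637, nat_lit 1000, nat_lit 908)], (nat_lit 100, nat_lit 76, nat_lit 82)⟩
noncomputable def p111_k16 : C1.Kn := ⟨[nat_lit 20, nat_lit 60, nat_lit 100], [nat_lit 0, nat_lit 0, nat_lit 2559], [(nat_lit 0, nat_lit 0, nat_lit 0), (nat_lit 0, nat_lit 0, nat_lit 0), (nat_lit 1000, nat_lit 600, nat_lit 787)], (nat_lit 60, nat_lit 100, nat_lit 80)⟩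
noncomputable def p111_k17 : C1.Kn := ⟨[nat_lit 80, nat_lit 120, nat_lit 180], [nat_lit 0, nat_lit 0, nat_lit 3196], [(nat_lit 0, nat_lit 0, nat_lit 0), (nat_lit 0, nat_lit 0, nat_lit 0), (nat_lit 858, nat_lit 1000, nat_lit 713)], (nat_lit 100, nat_lit 76, nat_lit 82)⟩
noncomputable def p111_k18 : C1.Kn := ⟨[nat_lit 80, nat_lit 120, nat_lit 160], [nat_lit 0, nat_lit 528, nat_lit 2577], [(nat_lit 0, nat_lit 0, nat_lit 0), (nat_lit 1000, nat_lit 959, nat_lit 206), (nat_lit 929, nat_lit 1000, nat_lit 742)], (nat_lit 100, nat_lit 85, nat_lit 84)⟩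
noncomputable def p111_k19 : C1.Kn := ⟨[nat_lit 20, nat_lit 60, nat_lit 100], [nat_lit 0, nat_lit 1415, nat_lit 3591], [(nat_lit 0, nat_lit 0, nat_lit 0), (nat_lit 1000, nat_lit 558, nat_lit 551), (nat_lit 1000, nat_lit 439, nat_lit 849)], (nat_lit 44, nat_lit 100, nat_lit 82)⟩
noncomputable def p111_k20 : C1.Kn := ⟨[nat_lit 20, nat_lit 100], [nat_lit 0, nat_lit 0], [(nat_lit 0, nat_lit 0, nat_lit 0), (nat_lit 0, nat_lit 0, nat_lit 0)], (nat_lit 60, nat_lit 100, nat_lit 80)⟩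
noncomputable def p111_k21 : C1.Kn := ⟨[nat_lit 20, nat_lit 100], [nat_lit 0, nat_lit 2826], [(nat_lit 0, nat_lit 0, nat_lit 0), (nat_lit 1000, nat_lit 558, nat_lit 551)], (nat_lit 44, nat_lit 100, nat_lit 82)⟩
noncomputable def p111_k22 : C1.Kn := ⟨[nat_lit 20, nat_lit 60, nat_lit 100], [nat_lit 0, nat_lit 698, nat_lit 3028], [(nat_lit 0, nat_lit 0, nat_lit 0), (nat_lit 1000, nat_lit 782, nat_lit 272), (nat_lit 1000, nat_lit 527, nat_lit 841)], (nat_lit 53, nat_lit 100, nat_lit 80)⟩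
noncomputable def p111_k23 : C1.Kn := ⟨[nat_lit 80, nat_lit 120, nat_lit 180], [nat_lit 0, nat_lit 264, nat_lit 3394], [(nat_lit 0, nat_lit 0, nat_lit 0), (nat_lit 1000, nat_lit 979, nat_lit 103), (nat_lit 893, nat_lit 1000, nat_lit 726)], (nat_lit 100, nat_lit 81, nat_lit 83)⟩
noncomputable def p111_k24 : C1.Kn := ⟨[nat_lit 80, nat_lit 120, nat_lit 160], [nat_lit 0, nat_lit 796, nat_lit 2802], [(nat_lit 0, nat_lit 0, nat_lit 0), (nat_lit 1000, nat_lit 938, nat_lit 310), (nat_lit 969, nat_lit 1000, nat_lit 759)], (nat_lit 100, nat_lit 90, nat_lit 85)⟩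
noncomputable def p111_k25 : C1.Kn := ⟨[nat_lit 20, nat_lit 60, nat_lit 100], [nat_lit 0, nat_lit 339, nat_lit 2783], [(nat_lit 0, nat_lit 0, nat_lit 0), (nat_lit 1000, nat_lit 894, nat_lit 132), (nat_lit 1000, nat_lit 565, nat_lit 820)], (nat_lit 57, nat_lit 100, nat_lit 80)⟩
noncomputable def p111_k26 : C1.Kn := ⟨[nat_lit 20, nat_lit 60, nat_lit 100], [nat_lit 0, nat_lit 563, nat_lit 2927], [(nat_lit 0, nat_lit 0, nat_lit 0), (nat_lit 1000, nat_lit 824, nat_lit 220), (nat_lit 1000, nat_lit 543, nat_lit 833)], (nat_lit 54, nat_lit 100, nat_lit 80)⟩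
noncomputable def p111_k27 : C1.Kn := ⟨[nat_lit 20, nat_lit 60, nat_lit 100], [nat_lit 0, nat_lit 1056, nat_lit 3301], [(nat_lit 0, nat_lit 0, nat_lit 0), (nat_lit 1000, nat_lit 671, nat_lit 411), (nat_lit 1000, nat_lit 484, nat_lit 867)], (nat_lit 49, nat_lit 100, nat_lit 81)⟩
noncomputable def p111_k28 : C1.Kn := ⟨[nat_lit 20, nat_lit 60, nat_lit 80], [nat_lit 0, nat_lit 2136, nat_lit 3185], [(nat_lit 0, nat_lit 0, nat_lit 0), (nat_lit 1000, nat_lit 343, nat_lit 808), (nat_lit 1000, nat_lit 338, nat_lit 820)], (nat_lit 33, nat_lit 100, nat_lit 84)⟩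
noncomputable def p111_k29 : C1.Kn := ⟨[nat_lit 20, nat_lit 80, nat_lit 100], [nat_lit 0, nat_lit 2121, nat_lit 3610], [(nat_lit 0, nat_lit 0, nat_lit 0), (nat_lit 1000, nat_lit 558, nat_lit 551), (nat_lit 1000, nat_lit 436, nat_lit 895)], (nat_lit 44, nat_lit 100, nat_lit 82)⟩
noncomputable def p111_l0 : Lf2 := ⟨nat_lit 0, nat_lit 10, [nat_lit 0, nat_lit 5, nat_lit 5, nat_lit 20], true, nat_lit 160, nat_lit 248, nat_lit 0, nat_lit 364, ⟨nat_lit 0, nat_lit 1000, nat_lit 0, nat_lit 6, nat_lit 272, nat_lit 1000, nat_lit 155, nat_lit 0, nat_lit 0, nat_lit 0, nat_lit 0, nat_lit 0, nat_lit 39688994, nat_lit 19412901, nat_lit 7898105, nat_lit 4941852, true, true⟩,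
 nat_lit 0, nat_lit 0, nat_lit 0, nat_lit 0, nat_lit 3420, nat_lit 0, nat_lit 0, nat_lit 0, nat_lit 0, nat_lit 0, nat_lit 0, nat_lit 0, nat_lit 0, nat_lit 0, nat_lit 0, nat_lit 250000, nat_lit 0, nat_lit 0, [(nat_lit 24, [(nat_lit 0, nat_lit 1000)]), (nat_lit 27, [(nat_lit 0, nat_lit 1000)])],
 ⟨p111_k0, nat_lit 0, nat_lit 0, nat_lit 77, nat_lit 0, nat_lit 0, [nat_lit 780800001, nat_lit 1705600000], [], [nat_lit 22691403040, nat_lit 25245546000, nat_lit 25847826320, nat_lit 28184936480, nat_lit 24846888944, nat_lit 27060286441, nat_lit 27559611896, nat_lit 29729913312], nat_lit 0, nat_lit 0, nat_lit 0, nat_lit 0, nat_lit 0, nat_lit 0, [], [nat_lit 86, nat_lit 40, nat_lit 40, nat_lit 80, nat_lit 87, nat_lit 203, nat_lit 0, nat_lit 7]⟩, C1.Rw.none,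
 ⟨nat_lit 0, nat_lit 3163, ⟨.ofNat (nat_lit 605128), .ofNat (nat_lit 727166), .ofNat (nat_lit 646918), .ofNat (nat_lit 771478), .ofNat (nat_lit 599865), .ofNat (nat_lit 699997), .ofNat (nat_lit 647345), .ofNat (nat_lit 749999)⟩, ⟨.ofNat (nat_lit 306113), .ofNat (nat_lit 440207), .ofNat (nat_lit 350425), .ofNat (nat_lit 484518), .ofNat (nat_lit 299996), .ofNat (nat_lit 409993), .ofNat (nat_lit 349998), .ofNat (nat_lit 459993)⟩⟩, [⟨nat_lit 16, nat_lit 62, nat_lit 100, nat_lit 94, nat_lit 181579472⟩]⟩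
noncomputable def p111_l1 : Lf2 := ⟨nat_lit 0, nat_lit 10, [nat_lit 0, nat_lit 5, nat_lit 5, nat_lit 20], true, nat_lit 160, nat_lit 200, nat_lit 16, nat_lit 360, ⟨nat_lit 0, nat_lit 1000, nat_lit 0, nat_lit 8, nat_lit 306, nat_lit 1000, nat_lit 142, nat_lit 0, nat_lit 0, nat_lit 0, nat_lit 0, nat_lit 0, nat_lit 37644470, nat_lit 22724099, nat_lit 6631431, nat_lit 4915052, true, true⟩,
 nat_lit 0, nat_lit 0, nat_lit 0, nat_lit 0, nat_lit 2925, nat_lit 0, nat_lit 0, nat_lit 0, nat_lit 0, nat_lit 0, nat_lit 0, nat_lit 0, nat_lit 0, nat_lit 0, nat_lit 0, nat_lit 300550, nat_lit 0, nat_lit 0, [(nat_lit 24, [(nat_lit 0, nat_lit 663), (nat_lit 1, nat_lit 337)]), (nat_lit 27, [(nat_lit 0, nat_lit 663), (nat_lit 1, nat_lit 337)])],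
 ⟨p111_k0, nat_lit 0, nat_lit 0, nat_lit 85, nat_lit 0, nat_lit 0, [nat_lit 843077601, nat_lit 1452445600], [], [nat_lit 25812920102, nat_lit 27785630400, nat_lit 27494646600, nat_lit 29352871000, nat_lit 26575355102, nat_lit 28437442800, nat_lit 28161814452, nat_lit 29930779700], nat_lit 0, nat_lit 0, nat_lit 0, nat_lit 0, nat_lit 0, nat_lit 0, [], [nat_lit 86, nat_lit 40, nat_lit 40, nat_lit 80, nat_lit 87, nat_lit 203, nat_lit 0, nat_lit 6]⟩, C1.Rw.none,
 ⟨nat_lit 0, nat_lit 3163, ⟨.ofNat (nat_lit 727166), .ofNat (nat_lit 788118), .ofNat (nat_lit 771478), .ofNat (nat_lit 832430), .ofNat (nat_lit 699997), .ofNat (nat_lit 749995), .ofNat (nat_lit 749999), .ofNat (nat_lit 799997)⟩, ⟨.ofNat (nat_lit 306113), .ofNat (nat_lit 367065), .ofNat (nat_lit 350425), .ofNat (nat_lit 411376), .ofNat (nat_lit 299996), .ofNat (nat_lit 349995), .ofNat (nat_lit 349998), .ofNat (nat_lit 399996)⟩⟩, [⟨nat_lit 13, nat_lit 46, nat_lit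 76, nat_lit 100, nat_lit 93501076⟩]⟩
noncomputable def p111_l2 : Lf2 := ⟨nat_lit 0, nat_lit 10, [nat_lit 0, nat_lit 5, nat_lit 5, nat_lit 20], true, nat_lit 200, nat_lit 220, nat_lit 40, nat_lit 364, ⟨nat_lit 0, nat_lit 1000, nat_lit 0, nat_lit 8, nat_lit 306, nat_lit 1000, nat_lit 158, nat_lit 0, nat_lit 0, nat_lit 0, nat_lit 0, nat_lit 0, nat_lit 36879831, nat_lit 22360311, nat_lit 7759858, nat_lit 5065647, true, true⟩,
 nat_lit 0, nat_lit 0, nat_lit 0, nat_lit 0, nat_lit 2921, nat_lit 0, nat_lit 0, nat_lit 0, nat_lit 0, nat_lit 0, nat_lit 0, nat_lit 0, nat_lit 0, nat_lit 0, nat_lit 0, nat_lit 298450, nat_lit 0, nat_lit 0, [(nat_lit 24, [(nat_lit 0, nat_lit 677), (nat_lit 1, nat_lit 323)]), (nat_lit 27, [(nat_lit 0, nat_lit 677), (nat_lit 1, nat_lit 323)])],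
 ⟨p111_k0, nat_lit 0, nat_lit 0, nat_lit 81, nat_lit 0, nat_lit 0, [nat_lit 840490401, nat_lit 1462962400], [], [nat_lit 26585736878, nat_lit 28448435184, nat_lit 28172804568, nat_lit 29930670350, nat_lit 26967036538, nat_lit 28774486248, nat_lit 28506816291, nat_lit 30224372266], nat_lit 0, nat_lit 0, nat_lit 0, nat_lit 0, nat_lit 0, nat_lit 0, [], [nat_lit 86, nat_lit 40, nat_lit 40, nat_lit 80, nat_lit 87, nat_lit 203, nat_lit 0, nat_lit 6]⟩, C1.Rw.none,
 ⟨nat_lit 0, nat_lit 3163, ⟨.ofNat (nat_lit 727166), .ofNat (nat_lit 788118), .ofNat (nat_lit 771478), .ofNat (nat_lit 832430), .ofNat (nat_lit 699997), .ofNat (nat_lit 749995), .ofNat (nat_lit 749999), .ofNat (nat_lit 799997)⟩, ⟨.ofNat (nat_lit 367065), .ofNat (nat_lit 397541), .ofNat (nat_lit 411376), .ofNat (nat_lit 441852), .ofNat (nat_lit 349995), .ofNat (nat_lit 374994), .ofNat (nat_lit 399996), .ofNat (nat_lit 424995)⟩⟩, [⟨nat_lit 16, nat_lit 44, nat_lit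 100, nat_lit 87, nat_lit 95749716⟩]⟩
noncomputable def p111_l3 : Lf2 := ⟨nat_lit 0, nat_lit 10, [nat_lit 0, nat_lit 5, nat_lit 5, nat_lit 20], true, nat_lit 220, nat_lit 248, nat_lit 52, nat_lit 364, ⟨nat_lit 0, nat_lit 1000, nat_lit 0, nat_lit 8, nat_lit 304, nat_lit 1000, nat_lit 175, nat_lit 0, nat_lit 0, nat_lit 0, nat_lit 0, nat_lit 0, nat_lit 36262678, nat_lit 21775847, nat_lit 8961475, nat_lit 5198873, true, true⟩,
 nat_lit 0, nat_lit 0, nat_lit 0, nat_lit 0, nat_lit 3331, nat_lit 0, nat_lit 0, nat_lit 0, nat_lit 0, nat_lit 0, nat_lit 0, nat_lit 0, nat_lit 0, nat_lit 0, nat_lit 0, nat_lit 250000, nat_lit 0, nat_lit 0, [(nat_lit 24, [(nat_lit 0, nat_lit 1000)])],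
 ⟨p111_k0, nat_lit 0, nat_lit 0, nat_lit 65, nat_lit 0, nat_lit 0, [nat_lit 763200001, nat_lit 1705600000], [], [nat_lit 26993655768, nat_lit 27973591848, nat_lit 27825523620, nat_lit 28843269990, nat_lit 27595628523, nat_lit 28557067668, nat_lit 28389364112, nat_lit 29413128743], nat_lit 0, nat_lit 0, nat_lit 0, nat_lit 0, nat_lit 0, nat_lit 0, [], [nat_lit 86, nat_lit 40, nat_lit 40, nat_lit 80, nat_lit 87, nat_lit 203, nat_lit 0, nat_lit 6]⟩, C1.Rw.none,
 ⟨nat_lit 2236, nat_lit 3163, ⟨.ofNat (nat_lit 727168), .ofNat (nat_lit 757645), .ofNat (nat_lit 771478), .ofNat (nat_lit 801955), .ofNat (nat_lit 716594), .ofNat (nat_lit 745101), .ofNat (nat_lit 762142), .ofNat (nat_lit 790650)⟩, ⟨.ofNat (nat_lit 397546), .ofNat (nat_lit 440213), .ofNat (nat_lit 441856), .ofNat (nat_lit 484523), .ofNat (nat_lit 391861), .ofNat (nat_lit 431772), .ofNat (nat_lit 437409), .ofNat (nat_lit 477320)⟩⟩, [⟨nat_lit 16, nat_lit 62, nat_lit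 100, nat_lit 94, nat_lit 200182837⟩]⟩
noncomputable def p111_l4 : Lf2 := ⟨nat_lit 0, nat_lit 10, [nat_lit 0, nat_lit 5, nat_lit 5, nat_lit 20], true, nat_lit 220, nat_lit 224, nat_lit 68, nat_lit 352, ⟨nat_lit 0, nat_lit 1000, nat_lit 0, nat_lit 8, nat_lit 315, nat_lit 1000, nat_lit 164, nat_lit 0, nat_lit 0, nat_lit 0, nat_lit 0, nat_lit 0, nat_lit 35925638, nat_lit 23072390, nat_lit 8001972, nat_lit 5125408, true, true⟩,
 nat_lit 0, nat_lit 0, nat_lit 0, nat_lit 0, nat_lit 3278, nat_lit 0, nat_lit 0, nat_lit 0, nat_lit 0, nat_lit 0, nat_lit 0, nat_lit 0, nat_lit 0, nat_lit 0, nat_lit 0, nat_lit 250000, nat_lit 0, nat_lit 0, [(nat_lit 24, [(nat_lit 0, nat_lit 1000)])],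
 ⟨p111_k0, nat_lit 0, nat_lit 0, nat_lit 71, nat_lit 0, nat_lit 0, [nat_lit 763200001, nat_lit 1705600000], [], [nat_lit 27841820060, nat_lit 28785142001, nat_lit 28669236336, nat_lit 29678311125, nat_lit 27911321075, nat_lit 28853609140, nat_lit 28733503479, nat_lit 29741038019], nat_lit 0, nat_lit 0, nat_lit 0, nat_lit 0, nat_lit 0, nat_lit 0, [], [nat_lit 86, nat_lit 40, nat_lit 40, nat_lit 80, nat_lit 87, nat_lit 203, nat_lit 0, nat_lit 6]⟩, C1.Rw.none,
 ⟨nat_lit 2236, nat_lit 3163, ⟨.ofNat (nat_lit 757645), .ofNat (nat_lit 788122), .ofNat (nat_lit 801955), .ofNat (nat_lit 832432), .ofNat (nat_lit 745101), .ofNat (nat_lit 773609), .ofNat (nat_lit 790650), .ofNat (nat_lit 819158)⟩, ⟨.ofNat (nat_lit 397546), .ofNat (nat_lit 403641), .ofNat (nat_lit 419701), .ofNat (nat_lit 425796), .ofNat (nat_lit 391861), .ofNat (nat_lit 397562), .ofNat (nat_lit 414635), .ofNat (nat_lit 420336)⟩⟩, [⟨nat_lit 16, nat_lit 60, nat_lit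 100, nat_lit 87, nat_lit 183337439⟩]⟩
noncomputable def p111_l5 : Lf2 := ⟨nat_lit 0, nat_lit 10, [nat_lit 0, nat_lit 5, nat_lit 5, nat_lit 20], true, nat_lit 220, nat_lit 248, nat_lit 68, nat_lit 364, ⟨nat_lit 0, nat_lit 1000, nat_lit 0, nat_lit 8, nat_lit 311, nat_lit 1000, nat_lit 180, nat_lit 0, nat_lit 0, nat_lit 0, nat_lit 0, nat_lit 0, nat_lit 35518404, nat_lit 22300719, nat_lit 9180877, nat_lit 5246168, true, true⟩,
 nat_lit 0, nat_lit 0, nat_lit 0, nat_lit 0, nat_lit 3245, nat_lit 0, nat_lit 0, nat_lit 0, nat_lit 0, nat_lit 0, nat_lit 0, nat_lit 0, nat_lit 0, nat_lit 0, nat_lit 0, nat_lit 250000, nat_lit 0, nat_lit 0, [(nat_lit 24, [(nat_lit 0, nat_lit 1000)])],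
 ⟨p111_k0, nat_lit 0, nat_lit 0, nat_lit 71, nat_lit 0, nat_lit 0, [nat_lit 763200001, nat_lit 1705600000], [], [nat_lit 27851966900, nat_lit 28780095452, nat_lit 28676611440, nat_lit 29639018438, nat_lit 28417613082, nat_lit 29321138559, nat_lit 29204795059, nat_lit 30169860437], nat_lit 0, nat_lit 0, nat_lit 0, nat_lit 0, nat_lit 0, nat_lit 0, [], [nat_lit 86, nat_lit 40, nat_lit 40, nat_lit 80, nat_lit 87, nat_lit 203, nat_lit 0, nat_lit 6]⟩, C1.Rw.none,
 ⟨nat_lit 2236, nat_lit 3163, ⟨.ofNat (nat_lit 757645), .ofNat (nat_lit 788122), .ofNat (nat_lit 779800), .ofNat (nat_lit 810277), .ofNat (nat_lit 745101), .ofNat (nat_lit 773609), .ofNat (nat_lit 767876), .ofNat (nat_lit 796384)⟩, ⟨.ofNat (nat_lit 419701), .ofNat (nat_lit 462368), .ofNat (nat_lit 441856), .ofNat (nat_lit 484523), .ofNat (nat_lit 414635), .ofNat (nat_lit 454546), .ofNat (nat_lit 437409), .ofNat (nat_lit 477320)⟩⟩, [⟨nat_lit 16, nat_lit 62, nat_lit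 100, nat_lit 94, nat_lit 183007604⟩]⟩
noncomputable def p111_l6 : Lf2 := ⟨nat_lit 0, nat_lit 10, [nat_lit 0, nat_lit 5, nat_lit 5, nat_lit 20], true, nat_lit 220, nat_lit 248, nat_lit 68, nat_lit 352, ⟨nat_lit 0, nat_lit 1000, nat_lit 0, nat_lit 8, nat_lit 318, nat_lit 1000, nat_lit 180, nat_lit 0, nat_lit 0, nat_lit 0, nat_lit 0, nat_lit 0, nat_lit 35035674, nat_lit 22877397, nat_lit 9086929, nat_lit 5255694, true, true⟩,
 nat_lit 0, nat_lit 0, nat_lit 0, nat_lit 0, nat_lit 3245, nat_lit 0, nat_lit 0, nat_lit 0, nat_lit 0, nat_lit 0, nat_lit 0, nat_lit 0, nat_lit 0, nat_lit 0, nat_lit 0, nat_lit 250000, nat_lit 0, nat_lit 0, [(nat_lit 24, [(nat_lit 0, nat_lit 1000)])],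
 ⟨p111_k0, nat_lit 0, nat_lit 0, nat_lit 71, nat_lit 0, nat_lit 0, [nat_lit 763200001, nat_lit 1705600000], [], [nat_lit 27851966900, nat_lit 28780095452, nat_lit 28676611440, nat_lit 29639018438, nat_lit 28417613082, nat_lit 29321138559, nat_lit 29204795059, nat_lit 30169860437], nat_lit 0, nat_lit 0, nat_lit 0, nat_lit 0, nat_lit 0, nat_lit 0, [], [nat_lit 86, nat_lit 40, nat_lit 40, nat_lit 80, nat_lit 87, nat_lit 203, nat_lit 0, nat_lit 6]⟩, C1.Rw.none,
 ⟨nat_lit 2236, nat_lit 3163, ⟨.ofNat (nat_lit 779800), .ofNat (nat_lit 810277), .ofNat (nat_lit 790877), .ofNat (nat_lit 821354), .ofNat (nat_lit 767876), .ofNat (nat_lit 796384), .ofNat (nat_lit 779263), .ofNat (nat_lit 807771)⟩, ⟨.ofNat (nat_lit 419701), .ofNat (nat_lit 462368), .ofNat (nat_lit 441856), .ofNat (nat_lit 484523), .ofNat (nat_lit 414635), .ofNat (nat_lit 454546), .ofNat (nat_lit 437409), .ofNat (nat_lit 477320)⟩⟩, [⟨nat_lit 16, nat_lit 62, nat_lit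 100, nat_lit 94, nat_lit 184591789⟩]⟩
noncomputable def p111_l7 : Lf2 := ⟨nat_lit 0, nat_lit 10, [nat_lit 0, nat_lit 5, nat_lit 5, nat_lit 20], false, nat_lit 220, nat_lit 248, nat_lit 68, nat_lit 344, ⟨nat_lit 87, nat_lit 913, nat_lit 0, nat_lit 8, nat_lit 322, nat_lit 913, nat_lit 180, nat_lit 0, nat_lit 0, nat_lit 0, nat_lit 0, nat_lit 0, nat_lit 34716323, nat_lit 23259617, nat_lit 9024060, nat_lit 5260925, true, true⟩,
 nat_lit 0, nat_lit 0, nat_lit 1035, nat_lit 0, nat_lit 2759, nat_lit 630, nat_lit 102, nat_lit 0, nat_lit 0, nat_lit 61, nat_lit 0, nat_lit 0, nat_lit 0, nat_lit 0, nat_lit 0, nat_lit 281650, nat_lit 0, nat_lit 0, [(nat_lit 24, [(nat_lit 0, nat_lit 557), (nat_lit 1, nat_lit 356)])],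
 ⟨p111_k1, nat_lit 0, nat_lit 0, nat_lit 67, nat_lit 0, nat_lit 0, [nat_lit 808596401, nat_lit 1402115067, nat_lit 1697641600], [], [nat_lit 27492392938, nat_lit 28354404888, nat_lit 28263184299, nat_lit 29100997054, nat_lit 28066494644, nat_lit 28893753719, nat_lit 28805296906, nat_lit 29609380271], nat_lit 0, nat_lit 0, nat_lit 0, nat_lit 0, nat_lit 0, nat_lit 0, [], [nat_lit 35, nat_lit 40, nat_lit 40, nat_lit 80, nat_lit 22, nat_lit 203, nat_lit 0, nat_lit 6]⟩, ⟨p111_k2, nat_lit 0, nat_lit 0, nat_lit 871, nat_lit 0, nat_lit 1657785, [nat_lit 407856000, nat_lit 693216000, nat_lit 856254000], [], [nat_lit 3065469344, nat_lit 3069364901, nat_lit 3090660491, nat_lit 3093843515, nat_lit 2921894843, nat_lit 2920288741, nat_lit 2933090458, nat_lit 2930988613], nat_lit 1271250, nat_lit 1271250, nat_lit 1271250, nat_lit 1271250, nat_lit 408851, nat_lit 2534050, [nat_lit 1100000, nat_lit 1785000, nat_lit 1271250], [nat_lit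 29, nat_lit 40, nat_lit 40, nat_lit 80, nat_lit 17, nat_lit 401, nat_lit 175, nat_lit 11]⟩,
 ⟨nat_lit 2236, nat_lit 3163, ⟨.ofNat (nat_lit 790877), .ofNat (nat_lit 821354), .ofNat (nat_lit 801955), .ofNat (nat_lit 832432), .ofNat (nat_lit 779263), .ofNat (nat_lit 807771), .ofNat (nat_lit 790650), .ofNat (nat_lit 819158)⟩, ⟨.ofNat (nat_lit 419701), .ofNat (nat_lit 462368), .ofNat (nat_lit 441856), .ofNat (nat_lit 484523), .ofNat (nat_lit 414635), .ofNat (nat_lit 454546), .ofNat (nat_lit 437409), .ofNat (nat_lit 477320)⟩⟩, [⟨nat_lit 16, nat_lit 62, nat_lit 100, nat_lit 94, nat_lit 220831262⟩, ⟨nat_lit 19, nat_lit 100, nat_lit 81, nat_lit 96, nat_lit 15673452⟩]⟩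
noncomputable def p111_l8 : Lf2 := ⟨nat_lit 0, nat_lit 10, [nat_lit 0, nat_lit 5, nat_lit 5, nat_lit 20], true, nat_lit 160, nat_lit 200, nat_lit 48, nat_lit 320, ⟨nat_lit 0, nat_lit 1000, nat_lit 0, nat_lit 9, nat_lit 321, nat_lit 1000, nat_lit 142, nat_lit 0, nat_lit 0, nat_lit 0, nat_lit 0, nat_lit 0, nat_lit 36412485, nat_lit 24110995, nat_lit 6476520, nat_lit 4941392, true, true⟩,
 nat_lit 0, nat_lit 0, nat_lit 0, nat_lit 0, nat_lit 3024, nat_lit 0, nat_lit 0, nat_lit 0, nat_lit 0, nat_lit 0, nat_lit 0, nat_lit 0, nat_lit 0, nat_lit 0, nat_lit 0, nat_lit 304000, nat_lit 0, nat_lit 0, [(nat_lit 24, [(nat_lit 0, nat_lit 640), (nat_lit 1, nat_lit 360)]), (nat_lit 27, [(nat_lit 0, nat_lit 640), (nat_lit 1, nat_lit 360)])],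
 ⟨p111_k0, nat_lit 0, nat_lit 0, nat_lit 89, nat_lit 0, nat_lit 0, [nat_lit 847328001, nat_lit 1435168000], [], [nat_lit 27465429600, nat_lit 29477460640, nat_lit 28217959149, nat_lit 30250001236, nat_lit 28126236483, nat_lit 30065626016, nat_lit 28848908874, nat_lit 30796511258], nat_lit 0, nat_lit 0, nat_lit 0, nat_lit 0, nat_lit 0, nat_lit 0, [], [nat_lit 86, nat_lit 40, nat_lit 40, nat_lit 80, nat_lit 87, nat_lit 203, nat_lit 0, nat_lit 6]⟩, C1.Rw.none,
 ⟨nat_lit 0, nat_lit 3163, ⟨.ofNat (nat_lit 788118), .ofNat (nat_lit 812499), .ofNat (nat_lit 832430), .ofNat (nat_lit 856810), .ofNat (nat_lit 749995), .ofNat (nat_lit 769995), .ofNat (nat_lit 799997), .ofNat (nat_lit 819996)⟩, ⟨.ofNat (nat_lit 306113), .ofNat (nat_lit 367065), .ofNat (nat_lit 350425), .ofNat (nat_lit 411376), .ofNat (nat_lit 299996), .ofNat (nat_lit 349995), .ofNat (nat_lit 349998), .ofNat (nat_lit 399996)⟩⟩, [⟨nat_lit 13, nat_lit 65, nat_lit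 54, nat_lit 100, nat_lit 336326563⟩]⟩
noncomputable def p111_l9 : Lf2 := ⟨nat_lit 0, nat_lit 10, [nat_lit 0, nat_lit 5, nat_lit 5, nat_lit 20], true, nat_lit 200, nat_lit 220, nat_lit 80, nat_lit 336, ⟨nat_lit 0, nat_lit 1000, nat_lit 0, nat_lit 9, nat_lit 321, nat_lit 1000, nat_lit 158, nat_lit 0, nat_lit 0, nat_lit 0, nat_lit 0, nat_lit 0, nat_lit 35699762, nat_lit 23721962, nat_lit 7578276, nat_lit 5089949, true, true⟩,
 nat_lit 0, nat_lit 0, nat_lit 0, nat_lit 0, nat_lit 2967, nat_lit 0, nat_lit 0, nat_lit 0, nat_lit 0, nat_lit 0, nat_lit 0, nat_lit 0, nat_lit 0, nat_lit 0, nat_lit 0, nat_lit 315250, nat_lit 0, nat_lit 0, [(nat_lit 24, [(nat_lit 0, nat_lit 565), (nat_lit 1, nat_lit 435)]), (nat_lit 27, [(nat_lit 0, nat_lit 565), (nat_lit 1, nat_lit 435)])],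
 ⟨p111_k0, nat_lit 0, nat_lit 0, nat_lit 84, nat_lit 0, nat_lit 0, [nat_lit 861188001, nat_lit 1378828000], [], [nat_lit 28079967336, nat_lit 29987987228, nat_lit 28786998662, nat_lit 30714009321, nat_lit 28412548305, nat_lit 30284813782, nat_lit 29112646019, nat_lit 30990264881], nat_lit 0, nat_lit 0, nat_lit 0, nat_lit 0, nat_lit 0, nat_lit 0, [], [nat_lit 86, nat_lit 40, nat_lit 40, nat_lit 80, nat_lit 87, nat_lit 203, nat_lit 0, nat_lit 6]⟩, C1.Rw.none,
 ⟨nat_lit 0, nat_lit 3163, ⟨.ofNat (nat_lit 788118), .ofNat (nat_lit 812499), .ofNat (nat_lit 832430), .ofNat (nat_lit 856810), .ofNat (nat_lit 749995), .ofNat (nat_lit 769995), .ofNat (nat_lit 799997), .ofNat (nat_lit 819996)⟩, ⟨.ofNat (nat_lit 367065), .ofNat (nat_lit 397541), .ofNat (nat_lit 411376), .ofNat (nat_lit 441852), .ofNat (nat_lit 349995), .ofNat (nat_lit 374994), .ofNat (nat_lit 399996), .ofNat (nat_lit 424995)⟩⟩, [⟨nat_lit 13, nat_lit 65, nat_lit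 54, nat_lit 100, nat_lit 327582868⟩]⟩
noncomputable def p111_l10 : Lf2 := ⟨nat_lit 0, nat_lit 10, [nat_lit 0, nat_lit 5, nat_lit 5, nat_lit 20], true, nat_lit 220, nat_lit 224, nat_lit 96, nat_lit 340, ⟨nat_lit 0, nat_lit 1000, nat_lit 0, nat_lit 9, nat_lit 326, nat_lit 1000, nat_lit 164, nat_lit 0, nat_lit 0, nat_lit 0, nat_lit 0, nat_lit 0, nat_lit 35138000, nat_lit 23990688, nat_lit 7871312, nat_lit 5138245, true, true⟩,
 nat_lit 0, nat_lit 0, nat_lit 0, nat_lit 0, nat_lit 2986, nat_lit 0, nat_lit 0, nat_lit 0, nat_lit 0, nat_lit 0, nat_lit 0, nat_lit 0, nat_lit 0, nat_lit 0, nat_lit 0, nat_lit 308500, nat_lit 0, nat_lit 0, [(nat_lit 24, [(nat_lit 0, nat_lit 922), (nat_lit 2, nat_lit 78)])],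
 ⟨p111_k0, nat_lit 0, nat_lit 0, nat_lit 77, nat_lit 0, nat_lit 0, [nat_lit 868718401, nat_lit 1409449600], [], [nat_lit 28438344432, nat_lit 29330630375, nat_lit 29134800699, nat_lit 30075783021, nat_lit 28504614461, nat_lit 29395782241, nat_lit 29201146461, nat_lit 30136481440], nat_lit 0, nat_lit 0, nat_lit 0, nat_lit 0, nat_lit 0, nat_lit 0, [], [nat_lit 86, nat_lit 40, nat_lit 40, nat_lit 80, nat_lit 87, nat_lit 203, nat_lit 0, nat_lit 6]⟩, C1.Rw.none,
 ⟨nat_lit 2236, nat_lit 3163, ⟨.ofNat (nat_lit 788122), .ofNat (nat_lit 812503), .ofNat (nat_lit 832432), .ofNat (nat_lit 856813), .ofNat (nat_lit 773609), .ofNat (nat_lit 796416), .ofNat (nat_lit 819158), .ofNat (nat_lit 841964)⟩, ⟨.ofNat (nat_lit 397546), .ofNat (nat_lit 403641), .ofNat (nat_lit 419701), .ofNat (nat_lit 425796), .ofNat (nat_lit 391861), .ofNat (nat_lit 397562), .ofNat (nat_lit 414635), .ofNat (nat_lit 420336)⟩⟩, [⟨nat_lit 13, nat_lit 65, nat_lit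 54, nat_lit 100, nat_lit 321819873⟩, ⟨nat_lit 16, nat_lit 60, nat_lit 100, nat_lit 87, nat_lit 181179500⟩]⟩
noncomputable def p111_l11 : Lf2 := ⟨nat_lit 0, nat_lit 10, [nat_lit 0, nat_lit 5, nat_lit 5, nat_lit 20], true, nat_lit 220, nat_lit 248, nat_lit 96, nat_lit 356, ⟨nat_lit 0, nat_lit 1000, nat_lit 0, nat_lit 9, nat_lit 318, nat_lit 1000, nat_lit 180, nat_lit 0, nat_lit 0, nat_lit 0, nat_lit 0, nat_lit 0, nat_lit 35011526, nat_lit 22906279, nat_lit 9082195, nat_lit 5256120, true, true⟩,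
 nat_lit 0, nat_lit 0, nat_lit 0, nat_lit 0, nat_lit 3227, nat_lit 0, nat_lit 0, nat_lit 0, nat_lit 0, nat_lit 0, nat_lit 0, nat_lit 0, nat_lit 0, nat_lit 0, nat_lit 0, nat_lit 250000, nat_lit 0, nat_lit 0, [(nat_lit 24, [(nat_lit 0, nat_lit 1000)])],
 ⟨p111_k0, nat_lit 0, nat_lit 0, nat_lit 72, nat_lit 0, nat_lit 0, [nat_lit 763200001, nat_lit 1705600000], [], [nat_lit 28680634224, nat_lit 29617586063, nat_lit 28857571037, nat_lit 29809279312, nat_lit 29209335947, nat_lit 30149070566, nat_lit 29378646417, nat_lit 30332302913], nat_lit 0, nat_lit 0, nat_lit 0, nat_lit 0, nat_lit 0, nat_lit 0, [], [nat_lit 86, nat_lit 40, nat_lit 40, nat_lit 80, nat_lit 87, nat_lit 203, nat_lit 0, nat_lit 6]⟩, C1.Rw.none,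
 ⟨nat_lit 2236, nat_lit 3163, ⟨.ofNat (nat_lit 788122), .ofNat (nat_lit 794217), .ofNat (nat_lit 810277), .ofNat (nat_lit 816372), .ofNat (nat_lit 773609), .ofNat (nat_lit 779311), .ofNat (nat_lit 796384), .ofNat (nat_lit 802085)⟩, ⟨.ofNat (nat_lit 419701), .ofNat (nat_lit 462368), .ofNat (nat_lit 441856), .ofNat (nat_lit 484523), .ofNat (nat_lit 414635), .ofNat (nat_lit 454546), .ofNat (nat_lit 437409), .ofNat (nat_lit 477320)⟩⟩, [⟨nat_lit 13, nat_lit 63, nat_lit 61, nat_lit 100, nat_lit 329377551⟩, ⟨nat_lit 16, nat_lit 62, nat_lit 100, nat_lit 94, nat_lit 182494295⟩]⟩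
noncomputable def p111_l12 : Lf2 := ⟨nat_lit 0, nat_lit 10, [nat_lit 0, nat_lit 5, nat_lit 5, nat_lit 20], true, nat_lit 220, nat_lit 248, nat_lit 96, nat_lit 352, ⟨nat_lit 0, nat_lit 1000, nat_lit 0, nat_lit 9, nat_lit 327, nat_lit 1000, nat_lit 180, nat_lit 0, nat_lit 0, nat_lit 0, nat_lit 0, nat_lit 0, nat_lit 34367211, nat_lit 23678100, nat_lit 8954689, nat_lit 5265674, true, true⟩,
 nat_lit 0, nat_lit 0, nat_lit 0, nat_lit 0, nat_lit 2978, nat_lit 0, nat_lit 0, nat_lit 0, nat_lit 0, nat_lit 0, nat_lit 0, nat_lit 0, nat_lit 0, nat_lit 0, nat_lit 0, nat_lit 307750, nat_lit 0, nat_lit 0, [(nat_lit 24, [(nat_lit 0, nat_lit 923), (nat_lit 2, nat_lit 77)])],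
 ⟨p111_k0, nat_lit 0, nat_lit 0, nat_lit 75, nat_lit 0, nat_lit 0, [nat_lit 867365601, nat_lit 1413246400], [], [nat_lit 28446999804, nat_lit 29321104875, nat_lit 28959795913, nat_lit 29879431094, nat_lit 28980508572, nat_lit 29861477359, nat_lit 29487370713, nat_lit 30395748926], nat_lit 0, nat_lit 0, nat_lit 0, nat_lit 0, nat_lit 0, nat_lit 0, [], [nat_lit 86, nat_lit 40, nat_lit 40, nat_lit 80, nat_lit 87, nat_lit 203, nat_lit 0, nat_lit 6]⟩, C1.Rw.none,
 ⟨nat_lit 2236, nat_lit 3163, ⟨.ofNat (nat_lit 810277), .ofNat (nat_lit 828563), .ofNat (nat_lit 821354), .ofNat (nat_lit 839640), .ofNat (nat_lit 796384), .ofNat (nat_lit 813488), .ofNat (nat_lit 807771), .ofNat (nat_lit 824875)⟩, ⟨.ofNat (nat_lit 419701), .ofNat (nat_lit 462368), .ofNat (nat_lit 441856), .ofNat (nat_lit 484523), .ofNat (nat_lit 414635), .ofNat (nat_lit 454546), .ofNat (nat_lit 437409), .ofNat (nat_lit 477320)⟩⟩, [⟨nat_lit 13, nat_lit 64, nat_lit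 58, nat_lit 100, nat_lit 311654408⟩, ⟨nat_lit 16, nat_lit 62, nat_lit 100, nat_lit 94, nat_lit 182532231⟩]⟩
noncomputable def p111_l13 : Lf2 := ⟨nat_lit 0, nat_lit 10, [nat_lit 0, nat_lit 5, nat_lit 5, nat_lit 20], false, nat_lit 220, nat_lit 248, nat_lit 96, nat_lit 344, ⟨nat_lit 112, nat_lit 888, nat_lit 0, nat_lit 9, nat_lit 333, nat_lit 888, nat_lit 180, nat_lit 0, nat_lit 0, nat_lit 0, nat_lit 0, nat_lit 0, nat_lit 33969795, nat_lit 24155289, nat_lit 8874916, nat_lit 5269854, true, true⟩,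
 nat_lit 0, nat_lit 0, nat_lit 1326, nat_lit 0, nat_lit 2786, nat_lit 807, nat_lit 98, nat_lit 0, nat_lit 0, nat_lit 75, nat_lit 0, nat_lit 0, nat_lit 0, nat_lit 0, nat_lit 0, nat_lit 291600, nat_lit 0, nat_lit 0, [(nat_lit 24, [(nat_lit 0, nat_lit 424), (nat_lit 1, nat_lit 464)])],
 ⟨p111_k1, nat_lit 0, nat_lit 0, nat_lit 75, nat_lit 0, nat_lit 0, [nat_lit 822124800, nat_lit 1410039467, nat_lit 1691072000], [], [nat_lit 28271828742, nat_lit 29111256439, nat_lit 28943141788, nat_lit 29819703321, nat_lit 28812421505, nat_lit 29639718741, nat_lit 29457735672, nat_lit 30336221707], nat_lit 0, nat_lit 0, nat_lit 0, nat_lit 0, nat_lit 0, nat_lit 0, [], [nat_lit 35, nat_lit 40, nat_lit 40, nat_lit 80, nat_lit 22, nat_lit 203, nat_lit 0, nat_lit 6]⟩, ⟨p111_k2, nat_lit 0, nat_lit 0, nat_lit 852, nat_lit 0, nat_lit 1657785, [nat_lit 525056000, nat_lit 892416000, nat_lit 1102304000], [], [nat_lit 3957591916, nat_lit 3961297073,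 nat_lit 3987955590, nat_lit 3990929964, nat_lit 3826476827, nat_lit 3823859707, nat_lit 3843056488, nat_lit 3857522283], nat_lit 1271250, nat_lit 1271250, nat_lit 1271250, nat_lit 1271250, nat_lit 602400, nat_lit 2577100, [nat_lit 1100000, nat_lit 1785000, nat_lit 1271250], [nat_lit 29, nat_lit 40, nat_lit 40, nat_lit 80, nat_lit 17, nat_lit 401, nat_lit 175, nat_lit 10]⟩,
 ⟨nat_lit 2236, nat_lit 3163, ⟨.ofNat (nat_lit 821354), .ofNat (nat_lit 845735), .ofNat (nat_lit 832432), .ofNat (nat_lit 856813), .ofNat (nat_lit 807771), .ofNat (nat_lit 830577), .ofNat (nat_lit 819158), .ofNat (nat_lit 841964)⟩, ⟨.ofNat (nat_lit 419701), .ofNat (nat_lit 462368), .ofNat (nat_lit 441856), .ofNat (nat_lit 484523), .ofNat (nat_lit 414635), .ofNat (nat_lit 454546), .ofNat (nat_lit 437409), .ofNat (nat_lit 477320)⟩⟩, [⟨nat_lit 13, nat_lit 65, nat_lit 54, nat_lit 100, nat_lit 238718197⟩, ⟨nat_lit 16, nat_lit 62, nat_lit 100, nat_lit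 94, nat_lit 223475336⟩, ⟨nat_lit 19, nat_lit 100, nat_lit 81, nat_lit 96, nat_lit 21969097⟩]⟩
noncomputable def b_V_900_600_20_3 : St := ⟨true, nat_lit 0, nat_lit 1, nat_lit 1, nat_lit 120, nat_lit 360, nat_lit 400, nat_lit 240, nat_lit 280, nat_lit 240, nat_lit 376, nat_lit 80, nat_lit 120, nat_lit 160, nat_lit 248, nat_lit 0, nat_lit 364, nat_lit 0, nat_lit 40, nat_lit 0, nat_lit 0, nat_lit 0, nat_lit 0⟩
theorem d_V_900_600_20_3 (h : EB TB.env) : Dead b_V_900_600_20_3 := chkB_sound0 h (T :=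
(.spl (nat_lit 2) (nat_lit 320)
(.leaf p111_l0)
(.trZ (nat_lit 9) (nat_lit 100) (nat_lit 82) (nat_lit 44) (nat_lit 16) (.spl (nat_lit 2) (nat_lit 360)
(.spl (nat_lit 4) (nat_lit 200)
(.trX (nat_lit 22) (nat_lit 80) (nat_lit 60) (nat_lit 100) (nat_lit 360) (.leaf p111_l1))
(.trZ (nat_lit 9) (nat_lit 100) (nat_lit 80) (nat_lit 60) (nat_lit 40) (.spl (nat_lit 4) (nat_lit 220)
(.leaf p111_l2)
(.trZ (nat_lit 9) (nat_lit 100) (nat_lit 80) (nat_lit 68) (nat_lit 52) (.spl (nat_lit 0) (nat_lit 380)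
(.spl (nat_lit 2) (nat_lit 340)
(.leaf p111_l3)
(.trZ (nat_lit 9) (nat_lit 100) (nat_lit 72) (nat_lit 77) (nat_lit 68) (.spl (nat_lit 3) (nat_lit 100)
(.trX (nat_lit 16) (nat_lit 60) (nat_lit 100) (nat_lit 87) (nat_lit 224) (.trX (nat_lit 19) (nat_lit 100) (nat_lit 68) (nat_lit 88) (nat_lit 352) (.leaf p111_l4)))
(.spl (nat_lit 1) (nat_lit 260)
(.leaf p111_l5)
(.trX (nat_lit 19) (nat_lit 100) (nat_lit 69) (nat_lit 96) (nat_lit 352) (.spl (nat_lit 1) (nat_lit 270)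
(.leaf p111_l6)
(.trX (nat_lit 19) (nat_lit 100) (nat_lit 74) (nat_lit 98) (nat_lit 344) (.leaf p111_l7))))))))
(.trX (nat_lit 13) (nat_lit 48) (nat_lit 71) (nat_lit 100) (nat_lit 352) (.emL (nat_lit 16) (nat_lit 44) (nat_lit 100) (nat_lit 92))))))))
(.trZ (nat_lit 9) (nat_lit 100) (nat_lit 61) (nat_lit 68) (nat_lit 48) (.trX (nat_lit 22) (nat_lit 62) (nat_lit 65) (nat_lit 100) (nat_lit 356) (.spl (nat_lit 4) (nat_lit 200)
(.trX (nat_lit 22) (nat_lit 60) (nat_lit 80) (nat_lit 100) (nat_lit 320) (.leaf p111_l8))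
(.trZ (nat_lit 9) (nat_lit 100) (nat_lit 60) (nat_lit 80) (nat_lit 80) (.spl (nat_lit 4) (nat_lit 220)
(.trX (nat_lit 22) (nat_lit 60) (nat_lit 74) (nat_lit 100) (nat_lit 336) (.leaf p111_l9))
(.trZ (nat_lit 9) (nat_lit 100) (nat_lit 60) (nat_lit 86) (nat_lit 96) (.spl (nat_lit 0) (nat_lit 380)
(.spl (nat_lit 3) (nat_lit 100)
(.trX (nat_lit 16) (nat_lit 60) (nat_lit 100) (nat_lit 87) (nat_lit 224) (.trX (nat_lit 19) (nat_lit 100) (nat_lit 68) (nat_lit 88) (nat_lit 352) (.trX (nat_lit 22) (nat_lit 60) (nat_lit 73) (nat_lit 100) (nat_lit 340) (.leaf p111_l10))))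
(.spl (nat_lit 1) (nat_lit 260)
(.trX (nat_lit 13) (nat_lit 63) (nat_lit 61) (nat_lit 100) (nat_lit 364) (.leaf p111_l11))
(.trX (nat_lit 19) (nat_lit 100) (nat_lit 69) (nat_lit 96) (nat_lit 352) (.spl (nat_lit 1) (nat_lit 270)
(.trX (nat_lit 13) (nat_lit 64) (nat_lit 58) (nat_lit 100) (nat_lit 372) (.leaf p111_l12))
(.trX (nat_lit 19) (nat_lit 100) (nat_lit 74) (nat_lit 98) (nat_lit 344) (.leaf p111_l13))))))
(.emL (nat_lit 13) (nat_lit 48) (nat_lit 71) (nat_lit 100))))))))))))) (by decide +kernel)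
noncomputable def p111_l14 : Lf2 := ⟨nat_lit 0, nat_lit 10, [nat_lit 0, nat_lit 5, nat_lit 5, nat_lit 20], false, nat_lit 8, nat_lit 248, nat_lit 0, nat_lit 160, ⟨nat_lit 739, nat_lit 0, nat_lit 261, nat_lit 6, nat_lit 213, nat_lit 261, nat_lit 94, nat_lit 261, nat_lit 58017, nat_lit 274, nat_lit 23440, nat_lit 200, nat_lit 48456720, nat_lit 0, nat_lit 0, nat_lit 3892342, false, false⟩,
 nat_lit 0, nat_lit 5634, nat_lit 0, nat_lit 0, nat_lit 4907, nat_lit 5658, nat_lit 0, nat_lit 0, nat_lit 0, nat_lit 663, nat_lit 0, nat_lit 0, nat_lit 0, nat_lit 0, nat_lit 0, nat_lit 261000, nat_lit 0, nat_lit 0, [(nat_lit 24, [(nat_lit 6, nat_lit 261)]), (nat_lit 27, [(nat_lit 6, nat_lit 261)])],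
 ⟨p111_k0, nat_lit 0, nat_lit 0, nat_lit 546, nat_lit 0, nat_lit 1152489, [nat_lit 1203071600, nat_lit 2254227200], [], [nat_lit 26276868468, nat_lit 28853606256, nat_lit 27241466210, nat_lit 30691135193, nat_lit 26101221519, nat_lit 27471055646, nat_lit 27020680545, nat_lit 28463402945], nat_lit 1271250, nat_lit 1271250, nat_lit 719601, nat_lit 1758000, nat_lit 43600, nat_lit 1756600, [nat_lit 230000, nat_lit 1100000], [nat_lit 86, nat_lit 40, nat_lit 40, nat_lit 80, nat_lit 87, nat_lit 345, nat_lit 125, nat_lit 16]⟩, ⟨p111_k3, nat_lit 0, nat_lit 0, nat_lit 232, nat_lit 0, nat_lit 0, [nat_lit 3464432000, nat_lit 7273238000, nat_lit 8773408000], [], [nat_lit 18979819038, nat_lit 21182269825, nat_lit 21534912528, nat_lit 23488144176, nat_lit 15944453864, nat_lit 17723344818, nat_lit 17986546520, nat_lit 19372915744], nat_lit 0, nat_lit 0, nat_lit 0, nat_lit 0, nat_lit 0, nat_lit 0, [], [nat_lit 125, nat_lit 40, nat_lit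 40, nat_lit 80, nat_lit 41, nat_lit 401, nat_lit 175, nat_lit 10]⟩,
 ⟨nat_lit 0, nat_lit 3163, ⟨.ofNat (nat_lit 401957), .ofNat (nat_lit 605128), .ofNat (nat_lit 443658), .ofNat (nat_lit 646918), .ofNat (nat_lit 431745), .ofNat (nat_lit 599865), .ofNat (nat_lit 479136), .ofNat (nat_lit 647345)⟩, ⟨.ofNat (nat_lit 20000), .ofNat (nat_lit 440207), .ofNat (nat_lit 20000), .ofNat (nat_lit 484518), .ofNat (nat_lit 20000), .ofNat (nat_lit 409993), .ofNat (nat_lit 20000), .ofNat (nat_lit 459993)⟩⟩, [⟨nat_lit 0, nat_lit 96, nat_lit 44, nat_lit 100, nat_lit 580378577⟩, ⟨nat_lit 4, nat_lit 100, nat_lit 44, nat_lit 87, nat_lit 194140085⟩]⟩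
noncomputable def p111_l15 : Lf2 := ⟨nat_lit 0, nat_lit 10, [nat_lit 0, nat_lit 5, nat_lit 5, nat_lit 20], false, nat_lit 8, nat_lit 160, nat_lit 160, nat_lit 364, ⟨nat_lit 692, nat_lit 0, nat_lit 308, nat_lit 6, nat_lit 213, nat_lit 308, nat_lit 70, nat_lit 308, nat_lit 45067, nat_lit 267, nat_lit 27594, nat_lit 200, nat_lit 49778353, nat_lit 0, nat_lit 0, nat_lit 3561615, false, false⟩,
 nat_lit 0, nat_lit 4945, nat_lit 0, nat_lit 0, nat_lit 4306, nat_lit 4395, nat_lit 103, nat_lit 0, nat_lit 0, nat_lit 0, nat_lit 0, nat_lit 0, nat_lit 0, nat_lit 0, nat_lit 0, nat_lit 308000, nat_lit 0, nat_lit 0, [(nat_lit 24, [(nat_lit 6, nat_lit 308)])],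
 ⟨p111_k1, nat_lit 0, nat_lit 0, nat_lit 467, nat_lit 0, nat_lit 985099, [nat_lit 1065142401, nat_lit 1581511467, nat_lit 1736374400], [], [nat_lit 22339071089, nat_lit 24786152208, nat_lit 25331039696, nat_lit 27290581479, nat_lit 21630677903, nat_lit 22540553830, nat_lit 23850571761, nat_lit 24867600729], nat_lit 1271250, nat_lit 1271250, nat_lit 719601, nat_lit 1758000, nat_lit 43600, nat_lit 1100001, [nat_lit 230000, nat_lit 780000, nat_lit 1100000], [nat_lit 35, nat_lit 40, nat_lit 40, nat_lit 80, nat_lit 22, nat_lit 317, nat_lit 100, nat_lit 14]⟩, ⟨p111_k4, nat_lit 0, nat_lit 0, nat_lit 92, nat_lit 0, nat_lit 0, [nat_lit 3244096000, nat_lit 5513856000, nat_lit 8215424000], [], [nat_lit 6589958558, nat_lit 9053707677, nat_lit 10200727456, nat_lit 12090963380, nat_lit 16848685638, nat_lit 18386934839, nat_lit 18223681534, nat_lit 19418954776], nat_lit 0, nat_lit 0, nat_lit 0, nat_lit 0, nat_lit 0, nat_lit 0, [],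 [nat_lit 21, nat_lit 40, nat_lit 40, nat_lit 80, nat_lit 14, nat_lit 456, nat_lit 225, nat_lit 11]⟩,
 ⟨nat_lit 2236, nat_lit 3163, ⟨.ofNat (nat_lit 409856), .ofNat (nat_lit 605240), .ofNat (nat_lit 454039), .ofNat (nat_lit 649422), .ofNat (nat_lit 419758), .ofNat (nat_lit 602541), .ofNat (nat_lit 465180), .ofNat (nat_lit 647962)⟩, ⟨.ofNat (nat_lit 20000), .ofNat (nat_lit 306116), .ofNat (nat_lit 20000), .ofNat (nat_lit 350426), .ofNat (nat_lit 20000), .ofNat (nat_lit 306337), .ofNat (nat_lit 20000), .ofNat (nat_lit 351886)⟩⟩, [⟨nat_lit 0, nat_lit 92, nat_lit 44, nat_lit 100, nat_lit 489136524⟩, ⟨nat_lit 19, nat_lit 100, nat_lit 59, nat_lit 94, nat_lit 382346183⟩]⟩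
noncomputable def p111_l16 : Lf2 := ⟨nat_lit 0, nat_lit 10, [nat_lit 0, nat_lit 5, nat_lit 5, nat_lit 20], false, nat_lit 20, nat_lit 160, nat_lit 160, nat_lit 364, ⟨nat_lit 1000, nat_lit 0, nat_lit 0, nat_lit 0, nat_lit 0, nat_lit 0, nat_lit 0, nat_lit 0, nat_lit 0, nat_lit 0, nat_lit 0, nat_lit 0, nat_lit 0, nat_lit 0, nat_lit 0, nat_lit 0, false, false⟩,
 nat_lit 0, nat_lit 4389, nat_lit 0, nat_lit 0, nat_lit 4100, nat_lit 6415, nat_lit 586, nat_lit 0, nat_lit 0, nat_lit 0, nat_lit 0, nat_lit 0, nat_lit 0, nat_lit 0, nat_lit 0, nat_lit 0, nat_lit 0, nat_lit 0, [],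
 ⟨p111_k5, nat_lit 0, nat_lit 0, nat_lit 423, nat_lit 0, nat_lit 1049832, [nat_lit 938000000, nat_lit 3282000000], [], [nat_lit 23930129365, nat_lit 26170075550, nat_lit 26378676950, nat_lit 28269220800, nat_lit 21829688610, nat_lit 23679412441, nat_lit 24110405000, nat_lit 25750276000], nat_lit 1271250, nat_lit 1271250, nat_lit 1000851, nat_lit 1778250, nat_lit 111251, nat_lit 1100001, [nat_lit 230000, nat_lit 780000], [nat_lit 66, nat_lit 40, nat_lit 40, nat_lit 80, nat_lit 67, nat_lit 249, nat_lit 40, nat_lit 14]⟩, ⟨p111_k4, nat_lit 0, nat_lit 0, nat_lit 78, nat_lit 0, nat_lit 0, [nat_lit 4688000000, nat_lit 7968000000, nat_lit 11872000000], [], [nat_lit 10249153259, nat_lit 13623830995, nat_lit 14649550960, nat_lit 17395917300, nat_lit 24317819760, nat_lit 26439891716, nat_lit 26375090047, nat_lit 28108594111], nat_lit 0, nat_lit 0, nat_lit 0, nat_lit 0, nat_lit 0, nat_lit 0, [], [nat_lit 21, nat_lit 40, nat_lit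 40, nat_lit 80, nat_lit 14, nat_lit 456, nat_lit 225, nat_lit 11]⟩,
 zbF0, [⟨nat_lit 0, nat_lit 95, nat_lit 31, nat_lit 100, nat_lit 803160185⟩, ⟨nat_lit 0, nat_lit 100, nat_lit 44, nat_lit 99, nat_lit 43581958⟩, ⟨nat_lit 19, nat_lit 100, nat_lit 59, nat_lit 94, nat_lit 556013211⟩]⟩
noncomputable def p111_l17 : Lf2 := ⟨nat_lit 0, nat_lit 10, [nat_lit 0, nat_lit 5, nat_lit 5, nat_lit 20], false, nat_lit 160, nat_lit 248, nat_lit 160, nat_lit 364, ⟨nat_lit 419, nat_lit 0, nat_lit 581, nat_lit 6, nat_lit 188, nat_lit 581, nat_lit 158, nat_lit 581, nat_lit 61189, nat_lit 275, nat_lit 12660, nat_lit 242, nat_lit 46414200, nat_lit 0, nat_lit 0, nat_lit 4438848, false, false⟩,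
 nat_lit 0, nat_lit 3995, nat_lit 0, nat_lit 0, nat_lit 3479, nat_lit 2662, nat_lit 99, nat_lit 0, nat_lit 0, nat_lit 0, nat_lit 0, nat_lit 0, nat_lit 0, nat_lit 0, nat_lit 0, nat_lit 232400, nat_lit 0, nat_lit 0, [(nat_lit 24, [(nat_lit 5, nat_lit 581)])],
 ⟨p111_k1, nat_lit 0, nat_lit 0, nat_lit 356, nat_lit 0, nat_lit 903536, [nat_lit 816454800, nat_lit 925386534, nat_lit 894302400], [], [nat_lit 19987270394, nat_lit 20490030648, nat_lit 20565572198, nat_lit 21055040663, nat_lit 22036093573, nat_lit 22792093104, nat_lit 22632577640, nat_lit 23215044618], nat_lit 1271250, nat_lit 1271250, nat_lit 719601, nat_lit 1100001, nat_lit 1100001, nat_lit 1853500, [nat_lit 230000, nat_lit 780000, nat_lit 1100000], [nat_lit 35, nat_lit 40, nat_lit 40, nat_lit 80, nat_lit 22, nat_lit 249, nat_lit 40, nat_lit 10]⟩, ⟨p111_k4, nat_lit 0, nat_lit 0, nat_lit 92, nat_lit 0, nat_lit 0, [nat_lit 1964272000, nat_lit 3338592000, nat_lit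 4974368000], [], [nat_lit 3988708651, nat_lit 5480779765, nat_lit 4477478956, nat_lit 5853636088, nat_lit 10201398210, nat_lit 11133971694, nat_lit 10220676778, nat_lit 11052943455], nat_lit 0, nat_lit 0, nat_lit 0, nat_lit 0, nat_lit 0, nat_lit 0, [], [nat_lit 21, nat_lit 40, nat_lit 40, nat_lit 80, nat_lit 14, nat_lit 456, nat_lit 225, nat_lit 11]⟩,
 ⟨nat_lit 2738, nat_lit 3163, ⟨.ofNat (nat_lit 410148), .ofNat (nat_lit 483313), .ofNat (nat_lit 454433), .ofNat (nat_lit 527599), .ofNat (nat_lit 414835), .ofNat (nat_lit 485730), .ofNat (nat_lit 459646), .ofNat (nat_lit 530541)⟩, ⟨.ofNat (nat_lit 306116), .ofNat (nat_lit 440213), .ofNat (nat_lit 350426), .ofNat (nat_lit 484523), .ofNat (nat_lit 306433), .ofNat (nat_lit 436368), .ofNat (nat_lit 351268), .ofNat (nat_lit 481203)⟩⟩, [⟨nat_lit 0, nat_lit 100, nat_lit 61, nat_lit 92, nat_lit 303167968⟩, ⟨nat_lit 16, nat_lit 62, nat_lit 100, nat_lit 94, nat_lit 359214501⟩,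 ⟨nat_lit 19, nat_lit 100, nat_lit 59, nat_lit 94, nat_lit 240413217⟩]⟩
noncomputable def p111_l18 : Lf2 := ⟨nat_lit 0, nat_lit 10, [nat_lit 0, nat_lit 5, nat_lit 5, nat_lit 20], false, nat_lit 160, nat_lit 232, nat_lit 160, nat_lit 364, ⟨nat_lit 1000, nat_lit 0, nat_lit 0, nat_lit 0, nat_lit 0, nat_lit 0, nat_lit 0, nat_lit 0, nat_lit 0, nat_lit 0, nat_lit 0, nat_lit 0, nat_lit 0, nat_lit 0, nat_lit 0, nat_lit 0, false, false⟩,
 nat_lit 0, nat_lit 4209, nat_lit 0, nat_lit 0, nat_lit 3798, nat_lit 6396, nat_lit 1106, nat_lit 0, nat_lit 0, nat_lit 0, nat_lit 0, nat_lit 0, nat_lit 0, nat_lit 0, nat_lit 0, nat_lit 0, nat_lit 0, nat_lit 0, [],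
 ⟨p111_k6, nat_lit 0, nat_lit 0, nat_lit 368, nat_lit 0, nat_lit 939622, [nat_lit 938000000, nat_lit 3282000000, nat_lit 4688000000], [], [nat_lit 20694801044, nat_lit 21315133833, nat_lit 21199932306, nat_lit 21794316728, nat_lit 22516992762, nat_lit 23349514090, nat_lit 22937811714, nat_lit 23647648830], nat_lit 1271250, nat_lit 1271250, nat_lit 841600, nat_lit 1100001, nat_lit 1100001, nat_lit 1716500, [nat_lit 230000, nat_lit 780000, nat_lit 1100000], [nat_lit 35, nat_lit 40, nat_lit 40, nat_lit 80, nat_lit 22, nat_lit 249, nat_lit 40, nat_lit 10]⟩, ⟨p111_k4, nat_lit 0, nat_lit 0, nat_lit 85, nat_lit 0, nat_lit 0, [nat_lit 4688000000, nat_lit 7968000000, nat_lit 11872000000], [], [nat_lit 9727930612, nat_lit 13215705082, nat_lit 10613515008, nat_lit 13910854816, nat_lit 24257001847, nat_lit 26443909910, nat_lit 24369776918, nat_lit 26412549550], nat_lit 0, nat_lit 0, nat_lit 0, nat_lit 0, nat_lit 0, nat_lit 0,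 [], [nat_lit 21, nat_lit 40, nat_lit 40, nat_lit 80, nat_lit 14, nat_lit 456, nat_lit 225, nat_lit 11]⟩,
 zbF0, [⟨nat_lit 0, nat_lit 100, nat_lit 54, nat_lit 96, nat_lit 828186100⟩, ⟨nat_lit 16, nat_lit 53, nat_lit 100, nat_lit 93, nat_lit 656801539⟩, ⟨nat_lit 19, nat_lit 100, nat_lit 59, nat_lit 94, nat_lit 608935349⟩]⟩
noncomputable def p111_l19 : Lf2 := ⟨nat_lit 0, nat_lit 10, [nat_lit 0, nat_lit 5, nat_lit 5, nat_lit 20], false, nat_lit 160, nat_lit 248, nat_lit 160, nat_lit 364, ⟨nat_lit 686, nat_lit 0, nat_lit 314, nat_lit 6, nat_lit 227, nat_lit 314, nat_lit 157, nat_lit 314, nat_lit 61189, nat_lit 275, nat_lit 27594, nat_lit 200, nat_lit 43266497, nat_lit 0, nat_lit 0, nat_lit 4733223, false, false⟩,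
 nat_lit 0, nat_lit 4762, nat_lit 0, nat_lit 0, nat_lit 4147, nat_lit 4406, nat_lit 105, nat_lit 0, nat_lit 0, nat_lit 0, nat_lit 0, nat_lit 0, nat_lit 0, nat_lit 0, nat_lit 0, nat_lit 314000, nat_lit 0, nat_lit 0, [(nat_lit 24, [(nat_lit 6, nat_lit 314)])],
 ⟨p111_k1, nat_lit 0, nat_lit 0, nat_lit 376, nat_lit 0, nat_lit 985099, [nat_lit 1067619201, nat_lit 1548385067, nat_lit 1678875200], [], [nat_lit 21751580679, nat_lit 22694657587, nat_lit 23264783469, nat_lit 24258732671, nat_lit 23507718445, nat_lit 24508599046, nat_lit 25105002340, nat_lit 26325519306], nat_lit 1271250, nat_lit 1271250, nat_lit 1100001, nat_lit 1785000, nat_lit 1100001, nat_lit 1853500, [nat_lit 230000, nat_lit 780000, nat_lit 1100000], [nat_lit 35, nat_lit 40, nat_lit 40, nat_lit 80, nat_lit 22, nat_lit 203, nat_lit 0, nat_lit 7]⟩, ⟨p111_k4, nat_lit 0, nat_lit 0, nat_lit 74, nat_lit 0, nat_lit 0, [nat_lit 3215968000, nat_lit 5466048000, nat_lit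 8144192000], [], [nat_lit 7249742408, nat_lit 9517272960, nat_lit 10041991352, nat_lit 11927230560, nat_lit 16707698480, nat_lit 18133249853, nat_lit 18096662767, nat_lit 19286364763], nat_lit 0, nat_lit 0, nat_lit 0, nat_lit 0, nat_lit 0, nat_lit 0, [], [nat_lit 21, nat_lit 40, nat_lit 40, nat_lit 80, nat_lit 14, nat_lit 456, nat_lit 225, nat_lit 11]⟩,
 ⟨nat_lit 2236, nat_lit 3163, ⟨.ofNat (nat_lit 483125), .ofNat (nat_lit 605240), .ofNat (nat_lit 527308), .ofNat (nat_lit 649422), .ofNat (nat_lit 488302), .ofNat (nat_lit 602541), .ofNat (nat_lit 533723), .ofNat (nat_lit 647962)⟩, ⟨.ofNat (nat_lit 306116), .ofNat (nat_lit 440213), .ofNat (nat_lit 350426), .ofNat (nat_lit 484523), .ofNat (nat_lit 306337), .ofNat (nat_lit 431772), .ofNat (nat_lit 351886), .ofNat (nat_lit 477320)⟩⟩, [⟨nat_lit 16, nat_lit 53, nat_lit 100, nat_lit 87, nat_lit 549030378⟩, ⟨nat_lit 19, nat_lit 100, nat_lit 59, nat_lit 94, nat_lit 396647184⟩]⟩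
noncomputable def p111_l20 : Lf2 := ⟨nat_lit 0, nat_lit 10, [nat_lit 0, nat_lit 5, nat_lit 5, nat_lit 20], false, nat_lit 160, nat_lit 208, nat_lit 160, nat_lit 364, ⟨nat_lit 1000, nat_lit 0, nat_lit 0, nat_lit 0, nat_lit 0, nat_lit 0, nat_lit 0, nat_lit 0, nat_lit 0, nat_lit 0, nat_lit 0, nat_lit 0, nat_lit 0, nat_lit 0, nat_lit 0, nat_lit 0, false, false⟩,
 nat_lit 0, nat_lit 4193, nat_lit 0, nat_lit 0, nat_lit 3918, nat_lit 6415, nat_lit 594, nat_lit 0, nat_lit 0, nat_lit 0, nat_lit 0, nat_lit 0, nat_lit 0, nat_lit 0, nat_lit 0, nat_lit 0, nat_lit 0, nat_lit 0, [],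
 ⟨p111_k5, nat_lit 0, nat_lit 0, nat_lit 365, nat_lit 0, nat_lit 1049832, [nat_lit 938000000, nat_lit 3282000000], [], [nat_lit 21773157913, nat_lit 23482231384, nat_lit 23965662220, nat_lit 25565596960, nat_lit 22957513329, nat_lit 24686887079, nat_lit 25091675428, nat_lit 26567117292], nat_lit 1271250, nat_lit 1271250, nat_lit 1000851, nat_lit 1778250, nat_lit 1100001, nat_lit 1511000, [nat_lit 230000, nat_lit 780000], [nat_lit 66, nat_lit 40, nat_lit 40, nat_lit 80, nat_lit 67, nat_lit 203, nat_lit 0, nat_lit 9]⟩, ⟨p111_k4, nat_lit 0, nat_lit 0, nat_lit 78, nat_lit 0, nat_lit 0, [nat_lit 4688000000, nat_lit 7968000000, nat_lit 11872000000], [], [nat_lit 10249153259, nat_lit 13623830995, nat_lit 14649550960, nat_lit 17395917300, nat_lit 24317819760, nat_lit 26439891716, nat_lit 26375090047, nat_lit 28108594111], nat_lit 0, nat_lit 0, nat_lit 0, nat_lit 0, nat_lit 0, nat_lit 0, [], [nat_lit 21, nat_lit 40, nat_lit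 40, nat_lit 80, nat_lit 14, nat_lit 456, nat_lit 225, nat_lit 11]⟩,
 zbF0, [⟨nat_lit 0, nat_lit 100, nat_lit 44, nat_lit 99, nat_lit 600187063⟩, ⟨nat_lit 16, nat_lit 44, nat_lit 100, nat_lit 92, nat_lit 776909652⟩, ⟨nat_lit 19, nat_lit 100, nat_lit 59, nat_lit 94, nat_lit 556013211⟩]⟩
noncomputable def p111_l21 : Lf2 := ⟨nat_lit 0, nat_lit 10, [nat_lit 0, nat_lit 5, nat_lit 5, nat_lit 20], false, nat_lit 8, nat_lit 248, nat_lit 0, nat_lit 160, ⟨nat_lit 784, nat_lit 0, nat_lit 216, nat_lit 6, nat_lit 291, nat_lit 216, nat_lit 96, nat_lit 216, nat_lit 58017, nat_lit 274, nat_lit 442376, nat_lit 200, nat_lit 40998454, nat_lit 0, nat_lit 0, nat_lit 4383250, true, true⟩,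
 nat_lit 0, nat_lit 5057, nat_lit 0, nat_lit 0, nat_lit 4404, nat_lit 5350, nat_lit 0, nat_lit 0, nat_lit 0, nat_lit 500, nat_lit 0, nat_lit 0, nat_lit 0, nat_lit 0, nat_lit 0, nat_lit 216000, nat_lit 0, nat_lit 0, [(nat_lit 24, [(nat_lit 6, nat_lit 216)])],
 ⟨p111_k0, nat_lit 0, nat_lit 0, nat_lit 458, nat_lit 0, nat_lit 985099, [nat_lit 1213184000, nat_lit 2618028800], [], [nat_lit 31112754989, nat_lit 31832570383, nat_lit 34332933247, nat_lit 35199137663, nat_lit 31024698549, nat_lit 31569558524, nat_lit 33448396110, nat_lit 34029096222], nat_lit 1271250, nat_lit 1271250, nat_lit 1271250, nat_lit 1271250, nat_lit 43600, nat_lit 1756600, [nat_lit 230000, nat_lit 1100000], [nat_lit 86, nat_lit 40, nat_lit 40, nat_lit 80, nat_lit 87, nat_lit 289, nat_lit 75, nat_lit 12]⟩, ⟨p111_k3, nat_lit 0, nat_lit 0, nat_lit 253, nat_lit 0, nat_lit 0, [nat_lit 3675392000, nat_lit 7716128000, nat_lit 9307648000], [], [nat_lit 23633473660,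 nat_lit 25319355332, nat_lit 30715945109, nat_lit 31866780192, nat_lit 20414381292, nat_lit 21775274392, nat_lit 26154245572, nat_lit 27142472004], nat_lit 0, nat_lit 0, nat_lit 0, nat_lit 0, nat_lit 0, nat_lit 0, [], [nat_lit 125, nat_lit 40, nat_lit 40, nat_lit 80, nat_lit 41, nat_lit 456, nat_lit 225, nat_lit 11]⟩,
 ⟨nat_lit 2236, nat_lit 3163, ⟨.ofNat (nat_lit 605240), .ofNat (nat_lit 812503), .ofNat (nat_lit 649422), .ofNat (nat_lit 856813), .ofNat (nat_lit 602541), .ofNat (nat_lit 796416), .ofNat (nat_lit 647962), .ofNat (nat_lit 841964)⟩, ⟨.ofNat (nat_lit 20000), .ofNat (nat_lit 440213), .ofNat (nat_lit 20000), .ofNat (nat_lit 484523), .ofNat (nat_lit 20000), .ofNat (nat_lit 431772), .ofNat (nat_lit 20000), .ofNat (nat_lit 477320)⟩⟩, [⟨nat_lit 4, nat_lit 100, nat_lit 53, nat_lit 87, nat_lit 226541863⟩]⟩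
noncomputable def p111_l22 : Lf2 := ⟨nat_lit 0, nat_lit 10, [nat_lit 0, nat_lit 5, nat_lit 5, nat_lit 20], false, nat_lit 8, nat_lit 248, nat_lit 160, nat_lit 364, ⟨nat_lit 776, nat_lit 0, nat_lit 224, nat_lit 6, nat_lit 291, nat_lit 224, nat_lit 96, nat_lit 224, nat_lit 58017, nat_lit 274, nat_lit 442376, nat_lit 200, nat_lit 40998454, nat_lit 0, nat_lit 0, nat_lit 4383250, true, true⟩,
 nat_lit 0, nat_lit 4966, nat_lit 0, nat_lit 0, nat_lit 4325, nat_lit 4361, nat_lit 132, nat_lit 0, nat_lit 0, nat_lit 0, nat_lit 0, nat_lit 0, nat_lit 0, nat_lit 0, nat_lit 0, nat_lit 224000, nat_lit 0, nat_lit 0, [(nat_lit 24, [(nat_lit 6, nat_lit 224)])],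
 ⟨p111_k1, nat_lit 0, nat_lit 0, nat_lit 455, nat_lit 0, nat_lit 985099, [nat_lit 1030467201, nat_lit 2045281067, nat_lit 2541363200], [], [nat_lit 27079263614, nat_lit 27925456208, nat_lit 33603980742, nat_lit 34971562084, nat_lit 27613024980, nat_lit 28283186171, nat_lit 31199573623, nat_lit 32240876410], nat_lit 1271250, nat_lit 1271250, nat_lit 1271250, nat_lit 1271250, nat_lit 43600, nat_lit 1756600, [nat_lit 230000, nat_lit 780000, nat_lit 1100000], [nat_lit 35, nat_lit 40, nat_lit 40, nat_lit 80, nat_lit 22, nat_lit 289, nat_lit 75, nat_lit 12]⟩, ⟨p111_k4, nat_lit 0, nat_lit 0, nat_lit 93, nat_lit 0, nat_lit 0, [nat_lit 3637888000, nat_lit 6183168000, nat_lit 9212672000], [], [nat_lit 12251267792, nat_lit 14239297260, nat_lit 19945352504, nat_lit 21198345909, nat_lit 20633419048, nat_lit 21742044838, nat_lit 25431191487, nat_lit 26204993644], nat_lit 0, nat_lit 0, nat_lit 0, nat_lit 0, nat_lit 0, nat_lit 0,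 [], [nat_lit 21, nat_lit 40, nat_lit 40, nat_lit 80, nat_lit 14, nat_lit 538, nat_lit 300, nat_lit 13]⟩,
 ⟨nat_lit 2236, nat_lit 3163, ⟨.ofNat (nat_lit 605240), .ofNat (nat_lit 812503), .ofNat (nat_lit 649422), .ofNat (nat_lit 856813), .ofNat (nat_lit 602541), .ofNat (nat_lit 796416), .ofNat (nat_lit 647962), .ofNat (nat_lit 841964)⟩, ⟨.ofNat (nat_lit 20000), .ofNat (nat_lit 440213), .ofNat (nat_lit 20000), .ofNat (nat_lit 484523), .ofNat (nat_lit 20000), .ofNat (nat_lit 431772), .ofNat (nat_lit 20000), .ofNat (nat_lit 477320)⟩⟩, [⟨nat_lit 16, nat_lit 53, nat_lit 100, nat_lit 87, nat_lit 137215384⟩, ⟨nat_lit 19, nat_lit 100, nat_lit 59, nat_lit 94, nat_lit 328506212⟩]⟩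
noncomputable def p111_l23 : Lf2 := ⟨nat_lit 0, nat_lit 10, [nat_lit 0, nat_lit 5, nat_lit 5, nat_lit 20], false, nat_lit 20, nat_lit 208, nat_lit 0, nat_lit 364, ⟨nat_lit 1000, nat_lit 0, nat_lit 0, nat_lit 0, nat_lit 0, nat_lit 0, nat_lit 0, nat_lit 0, nat_lit 0, nat_lit 0, nat_lit 0, nat_lit 0, nat_lit 0, nat_lit 0, nat_lit 0, nat_lit 0, false, false⟩,
 nat_lit 0, nat_lit 3775, nat_lit 0, nat_lit 0, nat_lit 3527, nat_lit 13983, nat_lit 572, nat_lit 0, nat_lit 0, nat_lit 0, nat_lit 0, nat_lit 0, nat_lit 0, nat_lit 0, nat_lit 0, nat_lit 0, nat_lit 0, nat_lit 0, [],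
 ⟨p111_k5, nat_lit 0, nat_lit 0, nat_lit 426, nat_lit 0, nat_lit 1049832, [nat_lit 938000000, nat_lit 3282000000], [], [nat_lit 26948508118, nat_lit 27958687536, nat_lit 30830688180, nat_lit 32153180644, nat_lit 28314063914, nat_lit 29200775124, nat_lit 31556643014, nat_lit 32284231354], nat_lit 1271250, nat_lit 1271250, nat_lit 1271250, nat_lit 1271250, nat_lit 111251, nat_lit 1474250, [nat_lit 230000, nat_lit 780000], [nat_lit 66, nat_lit 40, nat_lit 40, nat_lit 80, nat_lit 67, nat_lit 272, nat_lit 60, nat_lit 14]⟩, ⟨p111_k7, nat_lit 0, nat_lit 0, nat_lit 214, nat_lit 0, nat_lit 0, [nat_lit 4688000000, nat_lit 11872000000], [], [nat_lit 36247432188, nat_lit 39426485424, nat_lit 47071097130, nat_lit 48881750234, nat_lit 33526364580, nat_lit 34478578350, nat_lit 39967295081, nat_lit 41273861861], nat_lit 0, nat_lit 0, nat_lit 0, nat_lit 0, nat_lit 0, nat_lit 0, [], [nat_lit 116, nat_lit 40, nat_lit 40, nat_lit 80,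 nat_lit 65, nat_lit 483, nat_lit 250, nat_lit 12]⟩,
 zbF0, [⟨nat_lit 4, nat_lit 100, nat_lit 32, nat_lit 88, nat_lit 596562277⟩, ⟨nat_lit 19, nat_lit 100, nat_lit 59, nat_lit 94, nat_lit 97578307⟩]⟩
noncomputable def b_V_900_600_20_4 : St := ⟨true, nat_lit 1, nat_lit 0, nat_lit 1, nat_lit 120, nat_lit 360, nat_lit 400, nat_lit 240, nat_lit 280, nat_lit 112, nat_lit 376, nat_lit 80, nat_lit 120, nat_lit 8, nat_lit 248, nat_lit 0, nat_lit 364, nat_lit 0, nat_lit 40, nat_lit 0, nat_lit 0, nat_lit 0, nat_lit 0⟩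
theorem d_V_900_600_20_4 (h : EB TB.env) : Dead b_V_900_600_20_4 := chkB_sound0 h (T :=
(.spl (nat_lit 2) (nat_lit 240)
(.spl (nat_lit 5) (nat_lit 160)
(.leaf p111_l14)
(.spl (nat_lit 4) (nat_lit 160)
(.spl (nat_lit 0) (nat_lit 380)
(.leaf p111_l15)
(.trZ (nat_lit 0) (nat_lit 100) (nat_lit 44) (nat_lit 99) (nat_lit 148) (.trZ (nat_lit 3) (nat_lit 100) (nat_lit 54) (nat_lit 57) (nat_lit 20) (.leaf p111_l16))))
(.spl (nat_lit 0) (nat_lit 380)
(.spl (nat_lit 2) (nat_lit 160)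
(.spl (nat_lit 0) (nat_lit 370)
(.leaf p111_l17)
(.trZ (nat_lit 0) (nat_lit 100) (nat_lit 54) (nat_lit 96) (nat_lit 128) (.trX (nat_lit 16) (nat_lit 53) (nat_lit 100) (nat_lit 93) (nat_lit 232) (.leaf p111_l18))))
(.leaf p111_l19))
(.trZ (nat_lit 0) (nat_lit 100) (nat_lit 44) (nat_lit 99) (nat_lit 148) (.trX (nat_lit 16) (nat_lit 44) (nat_lit 100) (nat_lit 92) (nat_lit 208) (.leaf p111_l20))))))
(.spl (nat_lit 0) (nat_lit 380)
(.spl (nat_lit 5) (nat_lit 160)
(.leaf p111_l21)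
(.leaf p111_l22))
(.trX (nat_lit 13) (nat_lit 48) (nat_lit 71) (nat_lit 100) (nat_lit 352) (.trZ (nat_lit 3) (nat_lit 100) (nat_lit 54) (nat_lit 57) (nat_lit 20) (.trX (nat_lit 16) (nat_lit 44) (nat_lit 100) (nat_lit 92) (nat_lit 208) (.leaf p111_l23))))))) (by decide +kernel)
noncomputable def p111_l24 : Lf2 := ⟨nat_lit 0, nat_lit 10, [nat_lit 0, nat_lit 5, nat_lit 5, nat_lit 20], false, nat_lit 8, nat_lit 80, nat_lit 0, nat_lit 160, ⟨nat_lit 212, nat_lit 114, nat_lit 674, nat_lit 6, nat_lit 213, nat_lit 788, nat_lit 43, nat_lit 674, nat_lit 17067, nat_lit 247, nat_lit 27594, nat_lit 200, nat_lit 51034814, nat_lit 14710133, nat_lit 1255053, nat_lit 3175039, false, false⟩,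
 nat_lit 3163, nat_lit 0, nat_lit 0, nat_lit 0, nat_lit 2754, nat_lit 1674, nat_lit 1, nat_lit 0, nat_lit 0, nat_lit 160, nat_lit 0, nat_lit 0, nat_lit 0, nat_lit 0, nat_lit 4, nat_lit 298100, nat_lit 0, nat_lit 0, [(nat_lit 24, [(nat_lit 0, nat_lit 114), (nat_lit 5, nat_lit 674)])],
 ⟨p111_k1, nat_lit 0, nat_lit 0, nat_lit 327, nat_lit 0, nat_lit 601472, [nat_lit 793072001, nat_lit 377878934, nat_lit 11056000], [], [nat_lit 19889070331, nat_lit 21147320592, nat_lit 22969492359, nat_lit 24095112858, nat_lit 19817579198, nat_lit 20971435909, nat_lit 22831811791, nat_lit 23892760283], nat_lit 1271250, nat_lit 1271250, nat_lit 719601, nat_lit 1758000, nat_lit 43600, nat_lit 490000, [nat_lit 230000, nat_lit 780000, nat_lit 1100000], [nat_lit 35, nat_lit 40, nat_lit 40, nat_lit 80, nat_lit 22, nat_lit 317, nat_lit 100, nat_lit 14]⟩, ⟨p111_k4, nat_lit 0, nat_lit 0, nat_lit 831, nat_lit 0, nat_lit 1122108, [nat_lit 993856000,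 nat_lit 1689216000, nat_lit 2516864000], [], [nat_lit 10941485612, nat_lit 9387805509, nat_lit 9118545480, nat_lit 9195450840, nat_lit 8298159925, nat_lit 8391636861, nat_lit 8149065912, nat_lit 8204323784], nat_lit 1271250, nat_lit 1271250, nat_lit 719601, nat_lit 1758000, nat_lit 0, nat_lit 1100001, [nat_lit 1100000, nat_lit 1785000, nat_lit 1271250], [nat_lit 21, nat_lit 40, nat_lit 40, nat_lit 80, nat_lit 14, nat_lit 401, nat_lit 175, nat_lit 10]⟩,
 ⟨nat_lit 2236, nat_lit 3163, ⟨.ofNat (nat_lit 409856), .ofNat (nat_lit 605240), .ofNat (nat_lit 454039), .ofNat (nat_lit 649422), .ofNat (nat_lit 419758), .ofNat (nat_lit 602541), .ofNat (nat_lit 465180), .ofNat (nat_lit 647962)⟩, ⟨.ofNat (nat_lit 20000), .ofNat (nat_lit 184209), .ofNat (nat_lit 20000), .ofNat (nat_lit 200000), .ofNat (nat_lit 20000), .ofNat (nat_lit 192306), .ofNat (nat_lit 20000), .ofNat (nat_lit 200000)⟩⟩, [⟨nat_lit 0, nat_lit 92, nat_lit 44, nat_lit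 100, nat_lit 11832499⟩, ⟨nat_lit 3, nat_lit 100, nat_lit 48, nat_lit 71, nat_lit 169809247⟩]⟩
noncomputable def p111_l25 : Lf2 := ⟨nat_lit 0, nat_lit 10, [nat_lit 0, nat_lit 5, nat_lit 5, nat_lit 20], false, nat_lit 8, nat_lit 80, nat_lit 160, nat_lit 364, ⟨nat_lit 168, nat_lit 341, nat_lit 491, nat_lit 6, nat_lit 212, nat_lit 832, nat_lit 43, nat_lit 491, nat_lit 17067, nat_lit 247, nat_lit 27834, nat_lit 200, nat_lit 51082537, nat_lit 14670992, nat_lit 1246471, nat_lit 3168478, false, false⟩,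
 nat_lit 3198, nat_lit 0, nat_lit 0, nat_lit 0, nat_lit 2785, nat_lit 1693, nat_lit 113, nat_lit 0, nat_lit 0, nat_lit 187, nat_lit 0, nat_lit 0, nat_lit 0, nat_lit 0, nat_lit 0, nat_lit 281650, nat_lit 0, nat_lit 0, [(nat_lit 24, [(nat_lit 0, nat_lit 341), (nat_lit 5, nat_lit 491)])],
 ⟨p111_k1, nat_lit 0, nat_lit 0, nat_lit 293, nat_lit 0, nat_lit 551672, [nat_lit 775676001, nat_lit 637491734, nat_lit 464968000], [], [nat_lit 19637875774, nat_lit 20263793840, nat_lit 22728503133, nat_lit 23310027678, nat_lit 19446796263, nat_lit 20033315075, nat_lit 22522004342, nat_lit 23070340937], nat_lit 1271250, nat_lit 1271250, nat_lit 719601, nat_lit 1758000, nat_lit 43600, nat_lit 490000, [nat_lit 230000, nat_lit 780000, nat_lit 1100000], [nat_lit 35, nat_lit 40, nat_lit 40, nat_lit 80, nat_lit 22, nat_lit 317, nat_lit 100, nat_lit 14]⟩, ⟨p111_k4, nat_lit 0, nat_lit 0, nat_lit 672, nat_lit 0, nat_lit 1029201, [nat_lit 787584000,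 nat_lit 1338624000, nat_lit 1994496000], [], [nat_lit 5846241642, nat_lit 4561482238, nat_lit 7151136024, nat_lit 5555632508, nat_lit 5055098220, nat_lit 5111508981, nat_lit 4819301355, nat_lit 5170575828], nat_lit 1271250, nat_lit 1271250, nat_lit 719601, nat_lit 1758000, nat_lit 1271250, nat_lit 1271250, [nat_lit 1100000, nat_lit 1785000, nat_lit 1271250], [nat_lit 21, nat_lit 40, nat_lit 40, nat_lit 80, nat_lit 14, nat_lit 456, nat_lit 225, nat_lit 11]⟩,
 ⟨nat_lit 2738, nat_lit 3163, ⟨.ofNat (nat_lit 410148), .ofNat (nat_lit 605257), .ofNat (nat_lit 454433), .ofNat (nat_lit 649542), .ofNat (nat_lit 414835), .ofNat (nat_lit 603890), .ofNat (nat_lit 459646), .ofNat (nat_lit 648700)⟩, ⟨.ofNat (nat_lit 20000), .ofNat (nat_lit 184209), .ofNat (nat_lit 20000), .ofNat (nat_lit 200000), .ofNat (nat_lit 20000), .ofNat (nat_lit 188310), .ofNat (nat_lit 20000), .ofNat (nat_lit 200000)⟩⟩, [⟨nat_lit 0, nat_lit 93, nat_lit 53,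 nat_lit 100, nat_lit 18156101⟩, ⟨nat_lit 3, nat_lit 100, nat_lit 57, nat_lit 62, nat_lit 109504951⟩, ⟨nat_lit 22, nat_lit 100, nat_lit 70, nat_lit 63, nat_lit 47875362⟩]⟩
noncomputable def p111_l26 : Lf2 := ⟨nat_lit 0, nat_lit 10, [nat_lit 0, nat_lit 5, nat_lit 5, nat_lit 20], false, nat_lit 12, nat_lit 80, nat_lit 160, nat_lit 364, ⟨nat_lit 182, nat_lit 818, nat_lit 0, nat_lit 6, nat_lit 218, nat_lit 818, nat_lit 45, nat_lit 0, nat_lit 0, nat_lit 0, nat_lit 0, nat_lit 0, nat_lit 50410405, nat_lit 15239560, nat_lit 1350035, nat_lit 3255329, false, false⟩,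
 nat_lit 3294, nat_lit 0, nat_lit 0, nat_lit 0, nat_lit 2972, nat_lit 1743, nat_lit 284, nat_lit 0, nat_lit 0, nat_lit 173, nat_lit 0, nat_lit 0, nat_lit 0, nat_lit 0, nat_lit 0, nat_lit 204500, nat_lit 0, nat_lit 0, [(nat_lit 24, [(nat_lit 0, nat_lit 818)])],
 ⟨p111_k6, nat_lit 0, nat_lit 0, nat_lit 300, nat_lit 0, nat_lit 576452, [nat_lit 795013601, nat_lit 1715693600, nat_lit 2248396800], [], [nat_lit 21032095346, nat_lit 21666338757, nat_lit 23767213935, nat_lit 24347274829, nat_lit 20773229509, nat_lit 21373658061, nat_lit 23506545101, nat_lit 24054677129], nat_lit 1271250, nat_lit 1271250, nat_lit 841600, nat_lit 1767000, nat_lit 65850, nat_lit 490000, [nat_lit 230000, nat_lit 780000, nat_lit 1100000], [nat_lit 35, nat_lit 40, nat_lit 40, nat_lit 80, nat_lit 22, nat_lit 317, nat_lit 100, nat_lit 14]⟩, ⟨p111_k4, nat_lit 0, nat_lit 0, nat_lit 702, nat_lit 0, nat_lit 1122108, [nat_lit 853216000, nat_lit 1450176000,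 nat_lit 2160704000], [], [nat_lit 8646683999, nat_lit 6780635171, nat_lit 5270683348, nat_lit 5182605736, nat_lit 5744685561, nat_lit 5805461468, nat_lit 5514182378, nat_lit 5539777763], nat_lit 1271250, nat_lit 1271250, nat_lit 841600, nat_lit 1767000, nat_lit 1271250, nat_lit 1271250, [nat_lit 1100000, nat_lit 1785000, nat_lit 1271250], [nat_lit 21, nat_lit 40, nat_lit 40, nat_lit 80, nat_lit 14, nat_lit 456, nat_lit 225, nat_lit 11]⟩,
 ⟨nat_lit 2236, nat_lit 2739, ⟨.ofNat (nat_lit 438420), .ofNat (nat_lit 603890), .ofNat (nat_lit 483215), .ofNat (nat_lit 648684), .ofNat (nat_lit 442816), .ofNat (nat_lit 602558), .ofNat (nat_lit 488325), .ofNat (nat_lit 648065)⟩, ⟨.ofNat (nat_lit 30000), .ofNat (nat_lit 188310), .ofNat (nat_lit 30000), .ofNat (nat_lit 200000), .ofNat (nat_lit 30000), .ofNat (nat_lit 192306), .ofNat (nat_lit 30000), .ofNat (nat_lit 200000)⟩⟩, [⟨nat_lit 0, nat_lit 92, nat_lit 44, nat_lit 100, nat_lit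 69111838⟩, ⟨nat_lit 3, nat_lit 100, nat_lit 48, nat_lit 71, nat_lit 183610306⟩, ⟨nat_lit 19, nat_lit 100, nat_lit 77, nat_lit 91, nat_lit 742581⟩]⟩
noncomputable def p111_l27 : Lf2 := ⟨nat_lit 0, nat_lit 10, [nat_lit 0, nat_lit 5, nat_lit 5, nat_lit 20], false, nat_lit 20, nat_lit 80, nat_lit 0, nat_lit 364, ⟨nat_lit 0, nat_lit 1000, nat_lit 0, nat_lit 6, nat_lit 220, nat_lit 1000, nat_lit 50, nat_lit 0, nat_lit 0, nat_lit 0, nat_lit 0, nat_lit 0, nat_lit 50024177, nat_lit 15416238, nat_lit 1559585, nat_lit 3338021, false, false⟩,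
 nat_lit 0, nat_lit 2797, nat_lit 0, nat_lit 0, nat_lit 2613, nat_lit 0, nat_lit 36, nat_lit 0, nat_lit 0, nat_lit 0, nat_lit 0, nat_lit 0, nat_lit 0, nat_lit 0, nat_lit 0, nat_lit 400000, nat_lit 0, nat_lit 0, [(nat_lit 27, [(nat_lit 1, nat_lit 1000)])],
 ⟨p111_k5, nat_lit 0, nat_lit 0, nat_lit 274, nat_lit 0, nat_lit 619572, [nat_lit 697600000, nat_lit 324400000], [], [nat_lit 21245019270, nat_lit 22707696423, nat_lit 23644885381, nat_lit 24940514794, nat_lit 21209382732, nat_lit 22397374811, nat_lit 23508219730, nat_lit 24632121456], nat_lit 1271250, nat_lit 1271250, nat_lit 1000851, nat_lit 1778250, nat_lit 111251, nat_lit 490000, [nat_lit 230000, nat_lit 780000], [nat_lit 66, nat_lit 40, nat_lit 40, nat_lit 80, nat_lit 67, nat_lit 226, nat_lit 20, nat_lit 12]⟩, ⟨p111_k4, nat_lit 0, nat_lit 0, nat_lit 868, nat_lit 0, nat_lit 1257091, [nat_lit 0, nat_lit 0, nat_lit 0], [], [nat_lit 0, nat_lit 0, nat_lit 0, nat_lit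 0, nat_lit 0, nat_lit 0, nat_lit 0, nat_lit 0], nat_lit 1271250, nat_lit 1271250, nat_lit 1000851, nat_lit 1778250, nat_lit 0, nat_lit 2570750, [nat_lit 1100000, nat_lit 1785000, nat_lit 1271250], [nat_lit 21, nat_lit 40, nat_lit 40, nat_lit 80, nat_lit 14, nat_lit 456, nat_lit 225, nat_lit 12]⟩,
 ⟨nat_lit 0, nat_lit 2237, ⟨.ofNat (nat_lit 467180), .ofNat (nat_lit 602531), .ofNat (nat_lit 489028), .ofNat (nat_lit 624400), .ofNat (nat_lit 480752), .ofNat (nat_lit 599967), .ofNat (nat_lit 504825), .ofNat (nat_lit 624062)⟩, ⟨.ofNat (nat_lit 50000), .ofNat (nat_lit 192306), .ofNat (nat_lit 50000), .ofNat (nat_lit 200000), .ofNat (nat_lit 50000), .ofNat (nat_lit 199999), .ofNat (nat_lit 50000), .ofNat (nat_lit 200000)⟩⟩, [⟨nat_lit 3, nat_lit 100, nat_lit 36, nat_lit 77, nat_lit 330566914⟩]⟩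
noncomputable def p111_l28 : Lf2 := ⟨nat_lit 0, nat_lit 10, [nat_lit 0, nat_lit 5, nat_lit 5, nat_lit 20], false, nat_lit 20, nat_lit 80, nat_lit 0, nat_lit 352, ⟨nat_lit 125, nat_lit 875, nat_lit 0, nat_lit 6, nat_lit 234, nat_lit 875, nat_lit 50, nat_lit 0, nat_lit 0, nat_lit 0, nat_lit 0, nat_lit 0, nat_lit 48495356, nat_lit 16959863, nat_lit 1544781, nat_lit 3463968, false, false⟩,
 nat_lit 1763, nat_lit 1357, nat_lit 0, nat_lit 0, nat_lit 2915, nat_lit 1026, nat_lit 0, nat_lit 0, nat_lit 0, nat_lit 208, nat_lit 0, nat_lit 0, nat_lit 0, nat_lit 0, nat_lit 0, nat_lit 350000, nat_lit 0, nat_lit 0, [(nat_lit 27, [(nat_lit 1, nat_lit 875)])],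
 ⟨p111_k5, nat_lit 0, nat_lit 0, nat_lit 282, nat_lit 0, nat_lit 647019, [nat_lit 727650000, nat_lit 694100000], [], [nat_lit 21907716763, nat_lit 23704897353, nat_lit 24037532293, nat_lit 25616553270, nat_lit 21783876707, nat_lit 22962174520, nat_lit 23652920980, nat_lit 24709001020], nat_lit 1271250, nat_lit 1271250, nat_lit 1167600, nat_lit 1789500, nat_lit 111251, nat_lit 490000, [nat_lit 230000, nat_lit 780000], [nat_lit 66, nat_lit 40, nat_lit 40, nat_lit 80, nat_lit 67, nat_lit 226, nat_lit 20, nat_lit 12]⟩, ⟨p111_k8, nat_lit 0, nat_lit 0, nat_lit 735, nat_lit 0, nat_lit 1160836, [nat_lit 586000000, nat_lit 1230250000], [], [nat_lit 5111133013, nat_lit 4561917265, nat_lit 3748156710, nat_lit 3850675756, nat_lit 5653690235, nat_lit 5194980081, nat_lit 4020151722, nat_lit 3633851851], nat_lit 1271250, nat_lit 1271250, nat_lit 1271250, nat_lit 1271250, nat_lit 0, nat_lit 2486000, [nat_lit 1100000, nat_lit 2127500],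 [nat_lit 70, nat_lit 40, nat_lit 40, nat_lit 80, nat_lit 13, nat_lit 456, nat_lit 225, nat_lit 13]⟩,
 ⟨nat_lit 0, nat_lit 2237, ⟨.ofNat (nat_lit 518456), .ofNat (nat_lit 624400), .ofNat (nat_lit 540305), .ofNat (nat_lit 646249), .ofNat (nat_lit 530746), .ofNat (nat_lit 624062), .ofNat (nat_lit 554820), .ofNat (nat_lit 648136)⟩, ⟨.ofNat (nat_lit 50000), .ofNat (nat_lit 192306), .ofNat (nat_lit 50000), .ofNat (nat_lit 200000), .ofNat (nat_lit 50000), .ofNat (nat_lit 199999), .ofNat (nat_lit 50000), .ofNat (nat_lit 200000)⟩⟩, [⟨nat_lit 0, nat_lit 96, nat_lit 44, nat_lit 100, nat_lit 232433625⟩, ⟨nat_lit 3, nat_lit 100, nat_lit 36, nat_lit 77, nat_lit 134142968⟩, ⟨nat_lit 3, nat_lit 100, nat_lit 54, nat_lit 57, nat_lit 26425039⟩, ⟨nat_lit 22, nat_lit 100, nat_lit 76, nat_lit 66, nat_lit 32020793⟩]⟩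
noncomputable def p111_l29 : Lf2 := ⟨nat_lit 0, nat_lit 10, [nat_lit 0, nat_lit 5, nat_lit 5, nat_lit 20], false, nat_lit 80, nat_lit 160, nat_lit 0, nat_lit 364, ⟨nat_lit 76, nat_lit 326, nat_lit 598, nat_lit 6, nat_lit 189, nat_lit 924, nat_lit 105, nat_lit 598, nat_lit 101400, nat_lit 293, nat_lit 15023, nat_lit 241, nat_lit 50042022, nat_lit 12124355, nat_lit 4833623, nat_lit 3812023, false, false⟩,
 nat_lit 1879, nat_lit 1573, nat_lit 0, nat_lit 0, nat_lit 3006, nat_lit 994, nat_lit 0, nat_lit 0, nat_lit 0, nat_lit 42, nat_lit 0, nat_lit 0, nat_lit 0, nat_lit 0, nat_lit 12, nat_lit 320700, nat_lit 0, nat_lit 0, [(nat_lit 24, [(nat_lit 0, nat_lit 326), (nat_lit 5, nat_lit 598)])],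
 ⟨p111_k1, nat_lit 0, nat_lit 0, nat_lit 272, nat_lit 0, nat_lit 601472, [nat_lit 803913600, nat_lit 376207467, nat_lit 4132533], [], [nat_lit 17868252234, nat_lit 19767490697, nat_lit 18575394560, nat_lit 20353315536, nat_lit 18894355578, nat_lit 20438987232, nat_lit 19717800811, nat_lit 21032827440], nat_lit 1271250, nat_lit 1271250, nat_lit 719601, nat_lit 1100001, nat_lit 490000, nat_lit 1100001, [nat_lit 230000, nat_lit 780000, nat_lit 1100000], [nat_lit 35, nat_lit 40, nat_lit 40, nat_lit 80, nat_lit 22, nat_lit 317, nat_lit 100, nat_lit 14]⟩, ⟨p111_k4, nat_lit 0, nat_lit 0, nat_lit 831, nat_lit 0, nat_lit 1122108, [nat_lit 356288000, nat_lit 605568000, nat_lit 902272000], [], [nat_lit 5031554476, nat_lit 3960760421, nat_lit 3747273872, nat_lit 2696142728, nat_lit 2728628396, nat_lit 2557616631, nat_lit 3289257196, nat_lit 2412821353], nat_lit 1271250, nat_lit 1271250, nat_lit 719601, nat_lit 1100001, nat_lit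 0, nat_lit 2570750, [nat_lit 1100000, nat_lit 1785000, nat_lit 1271250], [nat_lit 21, nat_lit 40, nat_lit 40, nat_lit 80, nat_lit 14, nat_lit 456, nat_lit 225, nat_lit 12]⟩,
 ⟨nat_lit 2236, nat_lit 3163, ⟨.ofNat (nat_lit 409856), .ofNat (nat_lit 483125), .ofNat (nat_lit 454039), .ofNat (nat_lit 527308), .ofNat (nat_lit 419758), .ofNat (nat_lit 488302), .ofNat (nat_lit 465180), .ofNat (nat_lit 533723)⟩, ⟨.ofNat (nat_lit 184209), .ofNat (nat_lit 306116), .ofNat (nat_lit 200000), .ofNat (nat_lit 350426), .ofNat (nat_lit 192306), .ofNat (nat_lit 306337), .ofNat (nat_lit 200000), .ofNat (nat_lit 351886)⟩⟩, [⟨nat_lit 0, nat_lit 98, nat_lit 54, nat_lit 100, nat_lit 282060476⟩, ⟨nat_lit 7, nat_lit 77, nat_lit 100, nat_lit 91, nat_lit 11904170⟩]⟩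
noncomputable def p111_l30 : Lf2 := ⟨nat_lit 0, nat_lit 10, [nat_lit 0, nat_lit 5, nat_lit 5, nat_lit 20], false, nat_lit 80, nat_lit 160, nat_lit 0, nat_lit 364, ⟨nat_lit 140, nat_lit 439, nat_lit 421, nat_lit 6, nat_lit 227, nat_lit 860, nat_lit 105, nat_lit 421, nat_lit 101400, nat_lit 293, nat_lit 27594, nat_lit 200, nat_lit 46493195, nat_lit 15799880, nat_lit 4706925, nat_lit 4145990, false, false⟩,
 nat_lit 2902, nat_lit 633, nat_lit 0, nat_lit 0, nat_lit 3078, nat_lit 1536, nat_lit 97, nat_lit 0, nat_lit 0, nat_lit 163, nat_lit 0, nat_lit 0, nat_lit 0, nat_lit 0, nat_lit 0, nat_lit 278150, nat_lit 0, nat_lit 0, [(nat_lit 24, [(nat_lit 0, nat_lit 439), (nat_lit 5, nat_lit 421)])],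
 ⟨p111_k1, nat_lit 0, nat_lit 0, nat_lit 262, nat_lit 0, nat_lit 601472, [nat_lit 773189601, nat_lit 733770667, nat_lit 629764800], [], [nat_lit 19285371153, nat_lit 20435917968, nat_lit 21282273455, nat_lit 22797958944, nat_lit 20220329631, nat_lit 21314579507, nat_lit 22228352066, nat_lit 23300869258], nat_lit 1271250, nat_lit 1271250, nat_lit 1100001, nat_lit 1785000, nat_lit 490000, nat_lit 1100001, [nat_lit 230000, nat_lit 780000, nat_lit 1100000], [nat_lit 35, nat_lit 40, nat_lit 40, nat_lit 80, nat_lit 22, nat_lit 249, nat_lit 40, nat_lit 10]⟩, ⟨p111_k4, nat_lit 0, nat_lit 0, nat_lit 809, nat_lit 0, nat_lit 1122108, [nat_lit 656320000, nat_lit 1115520000, nat_lit 1662080000], [], [nat_lit 6453259920, nat_lit 4828976784, nat_lit 4194110528, nat_lit 4266199028, nat_lit 7030384752, nat_lit 5640927140, nat_lit 4269267159, nat_lit 4400017559], nat_lit 1271250, nat_lit 1271250, nat_lit 1271250, nat_lit 1271250, nat_lit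 0, nat_lit 2570750, [nat_lit 1100000, nat_lit 1785000, nat_lit 1271250], [nat_lit 21, nat_lit 40, nat_lit 40, nat_lit 80, nat_lit 14, nat_lit 456, nat_lit 225, nat_lit 12]⟩,
 ⟨nat_lit 2236, nat_lit 3163, ⟨.ofNat (nat_lit 483125), .ofNat (nat_lit 605240), .ofNat (nat_lit 527308), .ofNat (nat_lit 649422), .ofNat (nat_lit 488302), .ofNat (nat_lit 602541), .ofNat (nat_lit 533723), .ofNat (nat_lit 647962)⟩, ⟨.ofNat (nat_lit 184209), .ofNat (nat_lit 306116), .ofNat (nat_lit 200000), .ofNat (nat_lit 350426), .ofNat (nat_lit 192306), .ofNat (nat_lit 306337), .ofNat (nat_lit 200000), .ofNat (nat_lit 351886)⟩⟩, [⟨nat_lit 0, nat_lit 92, nat_lit 44, nat_lit 100, nat_lit 106924996⟩, ⟨nat_lit 19, nat_lit 100, nat_lit 77, nat_lit 91, nat_lit 32266000⟩]⟩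
noncomputable def p111_l31 : Lf2 := ⟨nat_lit 0, nat_lit 10, [nat_lit 0, nat_lit 5, nat_lit 5, nat_lit 20], false, nat_lit 80, nat_lit 160, nat_lit 0, nat_lit 364, ⟨nat_lit 59, nat_lit 941, nat_lit 0, nat_lit 6, nat_lit 224, nat_lit 941, nat_lit 105, nat_lit 0, nat_lit 0, nat_lit 0, nat_lit 0, nat_lit 0, nat_lit 46715835, nat_lit 15535508, nat_lit 4748657, nat_lit 4131727, false, false⟩,
 nat_lit 1686, nat_lit 1319, nat_lit 0, nat_lit 0, nat_lit 2807, nat_lit 892, nat_lit 73, nat_lit 0, nat_lit 0, nat_lit 0, nat_lit 0, nat_lit 0, nat_lit 0, nat_lit 0, nat_lit 0, nat_lit 376400, nat_lit 0, nat_lit 0, [(nat_lit 27, [(nat_lit 1, nat_lit 941)])],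
 ⟨p111_k5, nat_lit 0, nat_lit 0, nat_lit 249, nat_lit 0, nat_lit 647019, [nat_lit 711783601, nat_lit 498898400], [], [nat_lit 20230071913, nat_lit 21690941440, nat_lit 22677517999, nat_lit 23968820232, nat_lit 21360943414, nat_lit 22608097469, nat_lit 23655728237, nat_lit 24741969977], nat_lit 1271250, nat_lit 1271250, nat_lit 1000851, nat_lit 1778250, nat_lit 490000, nat_lit 1100001, [nat_lit 230000, nat_lit 780000], [nat_lit 66, nat_lit 40, nat_lit 40, nat_lit 80, nat_lit 67, nat_lit 249, nat_lit 40, nat_lit 13]⟩, ⟨p111_k7, nat_lit 0, nat_lit 0, nat_lit 876, nat_lit 0, nat_lit 1312780, [nat_lit 276592000, nat_lit 700448000], [], [nat_lit 3527083206, nat_lit 2579425974, nat_lit 2411702660, nat_lit 2493085808, nat_lit 4601386861, nat_lit 3811868134, nat_lit 2799222583, nat_lit 2032586639], nat_lit 1271250, nat_lit 1271250, nat_lit 1271250, nat_lit 1271250, nat_lit 0, nat_lit 2570750, [nat_lit 1100000, nat_lit 2470000],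 [nat_lit 116, nat_lit 40, nat_lit 40, nat_lit 80, nat_lit 65, nat_lit 456, nat_lit 225, nat_lit 12]⟩,
 ⟨nat_lit 0, nat_lit 2237, ⟨.ofNat (nat_lit 467180), .ofNat (nat_lit 602531), .ofNat (nat_lit 510875), .ofNat (nat_lit 646249), .ofNat (nat_lit 480752), .ofNat (nat_lit 599967), .ofNat (nat_lit 528899), .ofNat (nat_lit 648136)⟩, ⟨.ofNat (nat_lit 192306), .ofNat (nat_lit 306334), .ofNat (nat_lit 200000), .ofNat (nat_lit 351885), .ofNat (nat_lit 199999), .ofNat (nat_lit 299996), .ofNat (nat_lit 200000), .ofNat (nat_lit 349998)⟩⟩, [⟨nat_lit 0, nat_lit 95, nat_lit 31, nat_lit 100, nat_lit 209394679⟩, ⟨nat_lit 4, nat_lit 100, nat_lit 32, nat_lit 88, nat_lit 69368855⟩, ⟨nat_lit 7, nat_lit 77, nat_lit 100, nat_lit 91, nat_lit 5770902⟩]⟩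
noncomputable def p111_l32 : Lf2 := ⟨nat_lit 0, nat_lit 10, [nat_lit 0, nat_lit 5, nat_lit 5, nat_lit 20], false, nat_lit 160, nat_lit 248, nat_lit 0, nat_lit 364, ⟨nat_lit 0, nat_lit 541, nat_lit 459, nat_lit 6, nat_lit 185, nat_lit 1000, nat_lit 157, nat_lit 459, nat_lit 61189, nat_lit 275, nat_lit 26724, nat_lit 254, nat_lit 46748457, nat_lit 11383710, nat_lit 8867833, nat_lit 4400604, false, false⟩,
 nat_lit 0, nat_lit 3404, nat_lit 0, nat_lit 0, nat_lit 2964, nat_lit 0, nat_lit 23, nat_lit 0, nat_lit 0, nat_lit 0, nat_lit 0, nat_lit 0, nat_lit 0, nat_lit 0, nat_lit 0, nat_lit 318850, nat_lit 0, nat_lit 0, [(nat_lit 24, [(nat_lit 0, nat_lit 541), (nat_lit 5, nat_lit 459)])],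
 ⟨p111_k1, nat_lit 0, nat_lit 0, nat_lit 240, nat_lit 0, nat_lit 564999, [nat_lit 747410401, nat_lit 384328000, nat_lit 79620800], [], [nat_lit 19215923778, nat_lit 20399126208, nat_lit 19951344222, nat_lit 21141185127, nat_lit 21667772371, nat_lit 23053955193, nat_lit 22346631356, nat_lit 23529854466], nat_lit 1271250, nat_lit 1271250, nat_lit 719601, nat_lit 1100001, nat_lit 1100001, nat_lit 1853500, [nat_lit 230000, nat_lit 780000, nat_lit 1100000], [nat_lit 35, nat_lit 40, nat_lit 40, nat_lit 80, nat_lit 22, nat_lit 249, nat_lit 40, nat_lit 10]⟩, ⟨p111_k4, nat_lit 0, nat_lit 0, nat_lit 805, nat_lit 0, nat_lit 1054064, [nat_lit 0, nat_lit 0, nat_lit 0], [], [nat_lit 0, nat_lit 0, nat_lit 0, nat_lit 0, nat_lit 0, nat_lit 0, nat_lit 0, nat_lit 0], nat_lit 1271250, nat_lit 1271250, nat_lit 719601, nat_lit 1100001, nat_lit 0, nat_lit 2570750, [nat_lit 1100000, nat_lit 1785000, nat_lit 1271250], [nat_lit 21, nat_lit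 40, nat_lit 40, nat_lit 80, nat_lit 14, nat_lit 428, nat_lit 200, nat_lit 11]⟩,
 ⟨nat_lit 2236, nat_lit 3163, ⟨.ofNat (nat_lit 409856), .ofNat (nat_lit 483125), .ofNat (nat_lit 431948), .ofNat (nat_lit 505217), .ofNat (nat_lit 419758), .ofNat (nat_lit 488302), .ofNat (nat_lit 442469), .ofNat (nat_lit 511013)⟩, ⟨.ofNat (nat_lit 306116), .ofNat (nat_lit 440213), .ofNat (nat_lit 350426), .ofNat (nat_lit 484523), .ofNat (nat_lit 306337), .ofNat (nat_lit 431772), .ofNat (nat_lit 351886), .ofNat (nat_lit 477320)⟩⟩, [⟨nat_lit 16, nat_lit 53, nat_lit 100, nat_lit 87, nat_lit 303163286⟩]⟩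
noncomputable def p111_l33 : Lf2 := ⟨nat_lit 0, nat_lit 10, [nat_lit 0, nat_lit 5, nat_lit 5, nat_lit 20], false, nat_lit 160, nat_lit 248, nat_lit 0, nat_lit 364, ⟨nat_lit 43, nat_lit 862, nat_lit 95, nat_lit 6, nat_lit 222, nat_lit 957, nat_lit 157, nat_lit 95, nat_lit 61189, nat_lit 275, nat_lit 2400, nat_lit 203, nat_lit 43635576, nat_lit 14796892, nat_lit 8567532, nat_lit 4703593, false, false⟩,
 nat_lit 790, nat_lit 2782, nat_lit 0, nat_lit 0, nat_lit 3110, nat_lit 418, nat_lit 105, nat_lit 0, nat_lit 0, nat_lit 43, nat_lit 0, nat_lit 0, nat_lit 0, nat_lit 0, nat_lit 0, nat_lit 382800, nat_lit 0, nat_lit 0, [(nat_lit 24, [(nat_lit 1, nat_lit 862), (nat_lit 5, nat_lit 95)])],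
 ⟨p111_k1, nat_lit 0, nat_lit 0, nat_lit 218, nat_lit 0, nat_lit 564999, [nat_lit 840546000, nat_lit 927284667, nat_lit 849324800], [], [nat_lit 20510933269, nat_lit 21632930681, nat_lit 22445477201, nat_lit 23526877127, nat_lit 22717295595, nat_lit 23800135824, nat_lit 24550467691, nat_lit 25520000415], nat_lit 1271250, nat_lit 1271250, nat_lit 1100001, nat_lit 1785000, nat_lit 1100001, nat_lit 1853500, [nat_lit 230000, nat_lit 780000, nat_lit 1100000], [nat_lit 35, nat_lit 40, nat_lit 40, nat_lit 80, nat_lit 22, nat_lit 203, nat_lit 0, nat_lit 7]⟩, ⟨p111_k4, nat_lit 0, nat_lit 0, nat_lit 756, nat_lit 0, nat_lit 1054064, [nat_lit 201584000, nat_lit 342624000, nat_lit 510496000], [], [nat_lit 1900133636, nat_lit 1679121152, nat_lit 1513376800, nat_lit 1523906936, nat_lit 2122633352, nat_lit 1933573039, nat_lit 1371235466, nat_lit 1282594454], nat_lit 1271250, nat_lit 1271250, nat_lit 1271250, nat_lit 1271250, nat_lit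 0, nat_lit 2570750, [nat_lit 1100000, nat_lit 1785000, nat_lit 1271250], [nat_lit 21, nat_lit 40, nat_lit 40, nat_lit 80, nat_lit 14, nat_lit 456, nat_lit 225, nat_lit 12]⟩,
 ⟨nat_lit 2236, nat_lit 3163, ⟨.ofNat (nat_lit 483125), .ofNat (nat_lit 605240), .ofNat (nat_lit 505217), .ofNat (nat_lit 627331), .ofNat (nat_lit 488302), .ofNat (nat_lit 602541), .ofNat (nat_lit 511013), .ofNat (nat_lit 625251)⟩, ⟨.ofNat (nat_lit 306116), .ofNat (nat_lit 440213), .ofNat (nat_lit 350426), .ofNat (nat_lit 484523), .ofNat (nat_lit 306337), .ofNat (nat_lit 431772), .ofNat (nat_lit 351886), .ofNat (nat_lit 477320)⟩⟩, [⟨nat_lit 4, nat_lit 100, nat_lit 53, nat_lit 87, nat_lit 294760482⟩, ⟨nat_lit 7, nat_lit 72, nat_lit 100, nat_lit 89, nat_lit 5684740⟩]⟩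
noncomputable def p111_l34 : Lf2 := ⟨nat_lit 0, nat_lit 10, [nat_lit 0, nat_lit 5, nat_lit 5, nat_lit 20], false, nat_lit 160, nat_lit 208, nat_lit 0, nat_lit 364, ⟨nat_lit 0, nat_lit 1000, nat_lit 0, nat_lit 6, nat_lit 220, nat_lit 1000, nat_lit 144, nat_lit 0, nat_lit 0, nat_lit 0, nat_lit 0, nat_lit 0, nat_lit 44758896, nat_lit 14707090, nat_lit 7534014, nat_lit 4544872, false, false⟩,
 nat_lit 0, nat_lit 2990, nat_lit 0, nat_lit 0, nat_lit 2793, nat_lit 0, nat_lit 31, nat_lit 0, nat_lit 0, nat_lit 0, nat_lit 0, nat_lit 0, nat_lit 0, nat_lit 0, nat_lit 0, nat_lit 400000, nat_lit 0, nat_lit 0, [(nat_lit 27, [(nat_lit 1, nat_lit 1000)])],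
 ⟨p111_k5, nat_lit 0, nat_lit 0, nat_lit 220, nat_lit 0, nat_lit 619572, [nat_lit 697600000, nat_lit 324400000], [], [nat_lit 20926829243, nat_lit 22263392434, nat_lit 23252791646, nat_lit 24424036960, nat_lit 22211893719, nat_lit 23481906149, nat_lit 24360948959, nat_lit 25476071592], nat_lit 1271250, nat_lit 1271250, nat_lit 1000851, nat_lit 1778250, nat_lit 1100001, nat_lit 1511000, [nat_lit 230000, nat_lit 780000], [nat_lit 66, nat_lit 40, nat_lit 40, nat_lit 80, nat_lit 67, nat_lit 203, nat_lit 0, nat_lit 9]⟩, ⟨p111_k7, nat_lit 0, nat_lit 0, nat_lit 858, nat_lit 0, nat_lit 1257091, [nat_lit 0, nat_lit 0], [], [nat_lit 0, nat_lit 0, nat_lit 0, nat_lit 0, nat_lit 0, nat_lit 0, nat_lit 0, nat_lit 0], nat_lit 1271250, nat_lit 1271250, nat_lit 1271250, nat_lit 1271250, nat_lit 0, nat_lit 2570750, [nat_lit 1100000, nat_lit 2470000], [nat_lit 116, nat_lit 40, nat_lit 40, nat_lit 80, nat_lit 65, nat_lit 456, nat_lit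 225, nat_lit 12]⟩,
 ⟨nat_lit 0, nat_lit 2237, ⟨.ofNat (nat_lit 467180), .ofNat (nat_lit 602531), .ofNat (nat_lit 489028), .ofNat (nat_lit 624400), .ofNat (nat_lit 480752), .ofNat (nat_lit 599967), .ofNat (nat_lit 504825), .ofNat (nat_lit 624062)⟩, ⟨.ofNat (nat_lit 306334), .ofNat (nat_lit 374750), .ofNat (nat_lit 351885), .ofNat (nat_lit 420300), .ofNat (nat_lit 299996), .ofNat (nat_lit 359993), .ofNat (nat_lit 349998), .ofNat (nat_lit 409994)⟩⟩, [⟨nat_lit 16, nat_lit 44, nat_lit 100, nat_lit 92, nat_lit 316403991⟩]⟩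
noncomputable def p111_l35 : Lf2 := ⟨nat_lit 0, nat_lit 10, [nat_lit 0, nat_lit 5, nat_lit 5, nat_lit 20], false, nat_lit 160, nat_lit 248, nat_lit 0, nat_lit 160, ⟨nat_lit 393, nat_lit 0, nat_lit 607, nat_lit 6, nat_lit 223, nat_lit 607, nat_lit 157, nat_lit 607, nat_lit 61189, nat_lit 275, nat_lit 27594, nat_lit 200, nat_lit 43578875, nat_lit 0, nat_lit 0, nat_lit 4708228, false, false⟩,
 nat_lit 4251, nat_lit 0, nat_lit 0, nat_lit 0, nat_lit 3702, nat_lit 2474, nat_lit 0, nat_lit 0, nat_lit 0, nat_lit 590, nat_lit 0, nat_lit 0, nat_lit 0, nat_lit 0, nat_lit 0, nat_lit 195550, nat_lit 0, nat_lit 0, [(nat_lit 24, [(nat_lit 4, nat_lit 315), (nat_lit 5, nat_lit 292)])],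
 ⟨p111_k0, nat_lit 0, nat_lit 0, nat_lit 245, nat_lit 0, nat_lit 601472, [nat_lit 921557600, nat_lit 959270800], [], [nat_lit 20224505575, nat_lit 21305327933, nat_lit 22269333536, nat_lit 23793879580, nat_lit 22300527204, nat_lit 23888439271, nat_lit 24645829508, nat_lit 25978018183], nat_lit 1271250, nat_lit 1271250, nat_lit 872850, nat_lit 1769250, nat_lit 1100001, nat_lit 1853500, [nat_lit 230000, nat_lit 1100000], [nat_lit 86, nat_lit 40, nat_lit 40, nat_lit 80, nat_lit 87, nat_lit 272, nat_lit 60, nat_lit 11]⟩, ⟨p111_k8, nat_lit 0, nat_lit 0, nat_lit 665, nat_lit 0, nat_lit 992233, [nat_lit 1842384000, nat_lit 3867906000], [], [nat_lit 15852192761, nat_lit 14785441993, nat_lit 14847130334, nat_lit 14979735356, nat_lit 13557639392, nat_lit 13694495261, nat_lit 14160489492, nat_lit 13796116488], nat_lit 1271250, nat_lit 1271250, nat_lit 872850, nat_lit 1769250, nat_lit 0, nat_lit 1100001, [nat_lit 1100000, nat_lit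 2127500], [nat_lit 70, nat_lit 40, nat_lit 40, nat_lit 80, nat_lit 13, nat_lit 401, nat_lit 175, nat_lit 12]⟩,
 ⟨nat_lit 2236, nat_lit 3163, ⟨.ofNat (nat_lit 462477), .ofNat (nat_lit 627331), .ofNat (nat_lit 484568), .ofNat (nat_lit 649422), .ofNat (nat_lit 471029), .ofNat (nat_lit 625251), .ofNat (nat_lit 493740), .ofNat (nat_lit 647962)⟩, ⟨.ofNat (nat_lit 306116), .ofNat (nat_lit 440213), .ofNat (nat_lit 350426), .ofNat (nat_lit 484523), .ofNat (nat_lit 306337), .ofNat (nat_lit 431772), .ofNat (nat_lit 351886), .ofNat (nat_lit 477320)⟩⟩, [⟨nat_lit 0, nat_lit 96, nat_lit 54, nat_lit 100, nat_lit 34015252⟩, ⟨nat_lit 0, nat_lit 100, nat_lit 63, nat_lit 99, nat_lit 109674692⟩, ⟨nat_lit 16, nat_lit 62, nat_lit 100, nat_lit 94, nat_lit 340346256⟩]⟩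
noncomputable def p111_l36 : Lf2 := ⟨nat_lit 0, nat_lit 10, [nat_lit 0, nat_lit 5, nat_lit 5, nat_lit 20], false, nat_lit 160, nat_lit 248, nat_lit 160, nat_lit 352, ⟨nat_lit 253, nat_lit 129, nat_lit 618, nat_lit 6, nat_lit 223, nat_lit 747, nat_lit 157, nat_lit 618, nat_lit 61189, nat_lit 275, nat_lit 27594, nat_lit 200, nat_lit 43578875, nat_lit 14859765, nat_lit 8561360, nat_lit 4708228, false, false⟩,
 nat_lit 3574, nat_lit 0, nat_lit 0, nat_lit 0, nat_lit 3112, nat_lit 2080, nat_lit 0, nat_lit 0, nat_lit 0, nat_lit 381, nat_lit 0, nat_lit 0, nat_lit 0, nat_lit 0, nat_lit 0, nat_lit 279450, nat_lit 0, nat_lit 0, [(nat_lit 24, [(nat_lit 0, nat_lit 129), (nat_lit 5, nat_lit 618)])],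
 ⟨p111_k1, nat_lit 0, nat_lit 0, nat_lit 247, nat_lit 0, nat_lit 601472, [nat_lit 786165200, nat_lit 528300400, nat_lit 267977600], [], [nat_lit 19640339847, nat_lit 20777082301, nat_lit 22004632128, nat_lit 23324658480, nat_lit 21886684085, nat_lit 23341194058, nat_lit 24289001284, nat_lit 25517286357], nat_lit 1271250, nat_lit 1271250, nat_lit 872850, nat_lit 1769250, nat_lit 1100001, nat_lit 1853500, [nat_lit 230000, nat_lit 780000, nat_lit 1100000], [nat_lit 35, nat_lit 40, nat_lit 40, nat_lit 80, nat_lit 22, nat_lit 272, nat_lit 60, nat_lit 11]⟩, ⟨p111_k9, nat_lit 0, nat_lit 0, nat_lit 571, nat_lit 0, nat_lit 992233, [nat_lit 1186064000, nat_lit 2015904000, nat_lit 2490026000], [], [nat_lit 9867503453, nat_lit 8755789213, nat_lit 6502737236, nat_lit 5834609920, nat_lit 6738246471, nat_lit 6833993083, nat_lit 6900650181, nat_lit 7157465234], nat_lit 1271250, nat_lit 1271250, nat_lit 872850, nat_lit 1769250, nat_lit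 1271250, nat_lit 1271250, [nat_lit 1100000, nat_lit 1785000, nat_lit 1271250], [nat_lit 29, nat_lit 40, nat_lit 40, nat_lit 80, nat_lit 17, nat_lit 456, nat_lit 225, nat_lit 13]⟩,
 ⟨nat_lit 2236, nat_lit 3163, ⟨.ofNat (nat_lit 462477), .ofNat (nat_lit 627331), .ofNat (nat_lit 484568), .ofNat (nat_lit 649422), .ofNat (nat_lit 471029), .ofNat (nat_lit 625251), .ofNat (nat_lit 493740), .ofNat (nat_lit 647962)⟩, ⟨.ofNat (nat_lit 306116), .ofNat (nat_lit 440213), .ofNat (nat_lit 350426), .ofNat (nat_lit 484523), .ofNat (nat_lit 306337), .ofNat (nat_lit 431772), .ofNat (nat_lit 351886), .ofNat (nat_lit 477320)⟩⟩, [⟨nat_lit 0, nat_lit 96, nat_lit 54, nat_lit 100, nat_lit 29496215⟩, ⟨nat_lit 16, nat_lit 62, nat_lit 100, nat_lit 94, nat_lit 207840700⟩, ⟨nat_lit 4, nat_lit 100, nat_lit 53, nat_lit 87, nat_lit 142406988⟩]⟩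
noncomputable def p111_l37 : Lf2 := ⟨nat_lit 0, nat_lit 10, [nat_lit 0, nat_lit 5, nat_lit 5, nat_lit 20], false, nat_lit 160, nat_lit 208, nat_lit 0, nat_lit 352, ⟨nat_lit 54, nat_lit 946, nat_lit 0, nat_lit 6, nat_lit 234, nat_lit 946, nat_lit 144, nat_lit 0, nat_lit 0, nat_lit 0, nat_lit 0, nat_lit 0, nat_lit 43500591, nat_lit 16079312, nat_lit 7420097, nat_lit 4643522, false, false⟩,
 nat_lit 691, nat_lit 2483, nat_lit 0, nat_lit 0, nat_lit 2965, nat_lit 402, nat_lit 33, nat_lit 0, nat_lit 0, nat_lit 148, nat_lit 0, nat_lit 0, nat_lit 0, nat_lit 0, nat_lit 0, nat_lit 378400, nat_lit 0, nat_lit 0, [(nat_lit 27, [(nat_lit 1, nat_lit 946)])],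
 ⟨p111_k5, nat_lit 0, nat_lit 0, nat_lit 226, nat_lit 0, nat_lit 647019, [nat_lit 710581601, nat_lit 484110400], [], [nat_lit 21346256958, nat_lit 22765825128, nat_lit 23207750850, nat_lit 24598568800, nat_lit 22501785654, nat_lit 23953561630, nat_lit 24354200191, nat_lit 25642880357], nat_lit 1271250, nat_lit 1271250, nat_lit 1167600, nat_lit 1789500, nat_lit 1100001, nat_lit 1511000, [nat_lit 230000, nat_lit 780000], [nat_lit 66, nat_lit 40, nat_lit 40, nat_lit 80, nat_lit 67, nat_lit 203, nat_lit 0, nat_lit 9]⟩, ⟨p111_k8, nat_lit 0, nat_lit 0, nat_lit 735, nat_lit 0, nat_lit 1160836, [nat_lit 253152000, nat_lit 531468000], [], [nat_lit 1987921054, nat_lit 1772731258, nat_lit 1500959460, nat_lit 1527835704, nat_lit 2279831357, nat_lit 2100102817, nat_lit 1639789952, nat_lit 1502178461], nat_lit 1271250, nat_lit 1271250, nat_lit 1271250, nat_lit 1271250, nat_lit 0, nat_lit 2486000, [nat_lit 1100000, nat_lit 2127500],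 [nat_lit 70, nat_lit 40, nat_lit 40, nat_lit 80, nat_lit 13, nat_lit 456, nat_lit 225, nat_lit 13]⟩,
 ⟨nat_lit 0, nat_lit 2237, ⟨.ofNat (nat_lit 518456), .ofNat (nat_lit 624400), .ofNat (nat_lit 540305), .ofNat (nat_lit 646249), .ofNat (nat_lit 530746), .ofNat (nat_lit 624062), .ofNat (nat_lit 554820), .ofNat (nat_lit 648136)⟩, ⟨.ofNat (nat_lit 306334), .ofNat (nat_lit 374750), .ofNat (nat_lit 351885), .ofNat (nat_lit 420300), .ofNat (nat_lit 299996), .ofNat (nat_lit 359993), .ofNat (nat_lit 349998), .ofNat (nat_lit 409994)⟩⟩, [⟨nat_lit 16, nat_lit 44, nat_lit 100, nat_lit 92, nat_lit 353818576⟩, ⟨nat_lit 19, nat_lit 100, nat_lit 82, nat_lit 92, nat_lit 10949269⟩]⟩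
noncomputable def b_V_900_600_20_5 : St := ⟨true, nat_lit 1, nat_lit 1, nat_lit 1, nat_lit 120, nat_lit 360, nat_lit 400, nat_lit 240, nat_lit 280, nat_lit 112, nat_lit 240, nat_lit 80, nat_lit 120, nat_lit 8, nat_lit 248, nat_lit 0, nat_lit 364, nat_lit 0, nat_lit 40, nat_lit 0, nat_lit 0, nat_lit 0, nat_lit 0⟩
theorem d_V_900_600_20_5 (h : EB TB.env) : Dead b_V_900_600_20_5 := chkB_sound0 h (T :=
(.spl (nat_lit 4) (nat_lit 160)
(.spl (nat_lit 4) (nat_lit 80)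
(.spl (nat_lit 0) (nat_lit 380)
(.spl (nat_lit 5) (nat_lit 160)
(.leaf p111_l24)
(.spl (nat_lit 0) (nat_lit 370)
(.leaf p111_l25)
(.trZ (nat_lit 0) (nat_lit 100) (nat_lit 54) (nat_lit 96) (nat_lit 128) (.trZ (nat_lit 3) (nat_lit 100) (nat_lit 66) (nat_lit 45) (nat_lit 12) (.leaf p111_l26)))))
(.trZ (nat_lit 0) (nat_lit 100) (nat_lit 44) (nat_lit 99) (nat_lit 148) (.trZ (nat_lit 3) (nat_lit 100) (nat_lit 54) (nat_lit 57) (nat_lit 20) (.spl (nat_lit 1) (nat_lit 260)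
(.leaf p111_l27)
(.trZ (nat_lit 0) (nat_lit 96) (nat_lit 44) (nat_lit 100) (nat_lit 168) (.trX (nat_lit 19) (nat_lit 100) (nat_lit 69) (nat_lit 96) (nat_lit 352) (.leaf p111_l28)))))))
(.spl (nat_lit 0) (nat_lit 380)
(.spl (nat_lit 2) (nat_lit 160)
(.leaf p111_l29)
(.leaf p111_l30))
(.trZ (nat_lit 0) (nat_lit 100) (nat_lit 44) (nat_lit 99) (nat_lit 148) (.leaf p111_l31))))
(.spl (nat_lit 1) (nat_lit 260)
(.spl (nat_lit 0) (nat_lit 380)
(.spl (nat_lit 2) (nat_lit 160)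
(.leaf p111_l32)
(.leaf p111_l33))
(.trZ (nat_lit 0) (nat_lit 100) (nat_lit 44) (nat_lit 99) (nat_lit 148) (.trX (nat_lit 16) (nat_lit 44) (nat_lit 100) (nat_lit 92) (nat_lit 208) (.leaf p111_l34))))
(.trZ (nat_lit 0) (nat_lit 100) (nat_lit 63) (nat_lit 99) (nat_lit 132) (.trX (nat_lit 19) (nat_lit 100) (nat_lit 69) (nat_lit 96) (nat_lit 352) (.spl (nat_lit 0) (nat_lit 380)
(.spl (nat_lit 5) (nat_lit 160)
(.leaf p111_l35)
(.leaf p111_l36))
(.trZ (nat_lit 0) (nat_lit 96) (nat_lit 44) (nat_lit 100) (nat_lit 168) (.trX (nat_lit 16) (nat_lit 44) (nat_lit 100) (nat_lit 92) (nat_lit 208) (.leaf p111_l37))))))))) (by decide +kernel)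
noncomputable def p111_l38 : Lf2 := ⟨nat_lit 0, nat_lit 10, [nat_lit 0, nat_lit 5, nat_lit 5, nat_lit 20], false, nat_lit 8, nat_lit 80, nat_lit 0, nat_lit 336, ⟨nat_lit 245, nat_lit 755, nat_lit 0, nat_lit 6, nat_lit 283, nat_lit 755, nat_lit 43, nat_lit 0, nat_lit 0, nat_lit 0, nat_lit 0, nat_lit 0, nat_lit 43695031, nat_lit 22132467, nat_lit 1172502, nat_lit 3681049, true, true⟩,
 nat_lit 4107, nat_lit 0, nat_lit 0, nat_lit 0, nat_lit 3072, nat_lit 2174, nat_lit 125, nat_lit 0, nat_lit 0, nat_lit 191, nat_lit 0, nat_lit 0, nat_lit 0, nat_lit 0, nat_lit 0, nat_lit 380000, nat_lit 0, nat_lit 0, [(nat_lit 24, [(nat_lit 1, nat_lit 625), (nat_lit 2, nat_lit 130)])],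
 ⟨p111_k1, nat_lit 0, nat_lit 0, nat_lit 293, nat_lit 0, nat_lit 511934, [nat_lit 950650000, nat_lit 1365959334, nat_lit 1473204000], [], [nat_lit 25352338338, nat_lit 25838804872, nat_lit 29652646402, nat_lit 30065877823, nat_lit 24955157941, nat_lit 25429681864, nat_lit 29067583977, nat_lit 29480755760], nat_lit 1271250, nat_lit 1271250, nat_lit 1271250, nat_lit 1271250, nat_lit 43600, nat_lit 490000, [nat_lit 230000, nat_lit 780000, nat_lit 1100000], [nat_lit 35, nat_lit 40, nat_lit 40, nat_lit 80, nat_lit 22, nat_lit 226, nat_lit 20, nat_lit 9]⟩, ⟨p111_k4, nat_lit 0, nat_lit 0, nat_lit 694, nat_lit 0, nat_lit 955065, [nat_lit 1148560000, nat_lit 1952160000, nat_lit 2908640000], [], [nat_lit 9051199920, nat_lit 9128350006, nat_lit 9765933419, nat_lit 9822942431, nat_lit 7957894692, nat_lit 7989710672, nat_lit 8338772649, nat_lit 8355115698], nat_lit 1271250, nat_lit 1271250, nat_lit 1271250, nat_lit 1271250, nat_lit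 0, nat_lit 2373000, [nat_lit 1100000, nat_lit 1785000, nat_lit 1271250], [nat_lit 21, nat_lit 40, nat_lit 40, nat_lit 80, nat_lit 14, nat_lit 483, nat_lit 250, nat_lit 12]⟩,
 ⟨nat_lit 2738, nat_lit 3163, ⟨.ofNat (nat_lit 605257), .ofNat (nat_lit 794217), .ofNat (nat_lit 627400), .ofNat (nat_lit 816372), .ofNat (nat_lit 603890), .ofNat (nat_lit 786985), .ofNat (nat_lit 626295), .ofNat (nat_lit 809402)⟩, ⟨.ofNat (nat_lit 20000), .ofNat (nat_lit 184209), .ofNat (nat_lit 20000), .ofNat (nat_lit 200000), .ofNat (nat_lit 20000), .ofNat (nat_lit 188310), .ofNat (nat_lit 20000), .ofNat (nat_lit 200000)⟩⟩, [⟨nat_lit 13, nat_lit 58, nat_lit 68, nat_lit 100, nat_lit 4635768⟩, ⟨nat_lit 3, nat_lit 100, nat_lit 57, nat_lit 62, nat_lit 80479658⟩, ⟨nat_lit 10, nat_lit 100, nat_lit 68, nat_lit 63, nat_lit 56953268⟩]⟩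
noncomputable def p111_l39 : Lf2 := ⟨nat_lit 0, nat_lit 10, [nat_lit 0, nat_lit 5, nat_lit 5, nat_lit 20], false, nat_lit 8, nat_lit 80, nat_lit 0, nat_lit 336, ⟨nat_lit 740, nat_lit 260, nat_lit 0, nat_lit 6, nat_lit 296, nat_lit 260, nat_lit 43, nat_lit 0, nat_lit 0, nat_lit 0, nat_lit 0, nat_lit 0, nat_lit 42440004, nat_lit 23406222, nat_lit 1153774, nat_lit 3736116, true, true⟩,
 nat_lit 9157, nat_lit 0, nat_lit 0, nat_lit 0, nat_lit 4844, nat_lit 5330, nat_lit 158, nat_lit 0, nat_lit 0, nat_lit 1526, nat_lit 0, nat_lit 0, nat_lit 0, nat_lit 0, nat_lit 0, nat_lit 260000, nat_lit 0, nat_lit 0, [(nat_lit 24, [(nat_lit 2, nat_lit 260)])],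
 ⟨p111_k1, nat_lit 0, nat_lit 0, nat_lit 312, nat_lit 0, nat_lit 551672, [nat_lit 1075800000, nat_lit 2305752001, nat_lit 2925408000], [], [nat_lit 26335641285, nat_lit 27386751139, nat_lit 35016846844, nat_lit 35741747028, nat_lit 23360851942, nat_lit 23899206696, nat_lit 31315584279, nat_lit 32014981720], nat_lit 1271250, nat_lit 1271250, nat_lit 1271250, nat_lit 1271250, nat_lit 43600, nat_lit 490000, [nat_lit 230000, nat_lit 780000, nat_lit 1100000], [nat_lit 35, nat_lit 40, nat_lit 40, nat_lit 80, nat_lit 22, nat_lit 226, nat_lit 20, nat_lit 9]⟩, ⟨p111_k9, nat_lit 0, nat_lit 0, nat_lit 604, nat_lit 0, nat_lit 910079, [nat_lit 3469120000, nat_lit 5896320000, nat_lit 7283080000], [], [nat_lit 21745419480, nat_lit 22003464240, nat_lit 25697773804, nat_lit 26562004368, nat_lit 20413699737, nat_lit 20582461921, nat_lit 24702404731, nat_lit 25135725045], nat_lit 1271250, nat_lit 1271250, nat_lit 1271250, nat_lit 1271250,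 nat_lit 0, nat_lit 2373000, [nat_lit 1100000, nat_lit 1785000, nat_lit 1271250], [nat_lit 29, nat_lit 40, nat_lit 40, nat_lit 80, nat_lit 17, nat_lit 483, nat_lit 250, nat_lit 14]⟩,
 ⟨nat_lit 2738, nat_lit 3163, ⟨.ofNat (nat_lit 627400), .ofNat (nat_lit 834658), .ofNat (nat_lit 649542), .ofNat (nat_lit 856813), .ofNat (nat_lit 626295), .ofNat (nat_lit 827121), .ofNat (nat_lit 648700), .ofNat (nat_lit 849538)⟩, ⟨.ofNat (nat_lit 20000), .ofNat (nat_lit 184209), .ofNat (nat_lit 20000), .ofNat (nat_lit 200000), .ofNat (nat_lit 20000), .ofNat (nat_lit 188310), .ofNat (nat_lit 20000), .ofNat (nat_lit 200000)⟩⟩, [⟨nat_lit 22, nat_lit 85, nat_lit 100, nat_lit 63, nat_lit 222274152⟩]⟩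
noncomputable def p111_l40 : Lf2 := ⟨nat_lit 0, nat_lit 10, [nat_lit 0, nat_lit 5, nat_lit 5, nat_lit 20], false, nat_lit 12, nat_lit 80, nat_lit 0, nat_lit 336, ⟨nat_lit 209, nat_lit 791, nat_lit 0, nat_lit 6, nat_lit 278, nat_lit 791, nat_lit 45, nat_lit 0, nat_lit 0, nat_lit 0, nat_lit 0, nat_lit 0, nat_lit 44142302, nat_lit 21577244, nat_lit 1280454, nat_lit 3687394, true, true⟩,
 nat_lit 3580, nat_lit 0, nat_lit 0, nat_lit 0, nat_lit 2763, nat_lit 1895, nat_lit 341, nat_lit 0, nat_lit 0, nat_lit 166, nat_lit 0, nat_lit 0, nat_lit 0, nat_lit 0, nat_lit 0, nat_lit 197750, nat_lit 0, nat_lit 0, [(nat_lit 24, [(nat_lit 0, nat_lit 791)])],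
 ⟨p111_k6, nat_lit 0, nat_lit 0, nat_lit 299, nat_lit 0, nat_lit 541496, [nat_lit 799733201, nat_lit 1767393200, nat_lit 2328921600], [], [nat_lit 24617283884, nat_lit 25150401270, nat_lit 28648310342, nat_lit 29081535357, nat_lit 24428093601, nat_lit 24932727331, nat_lit 28272935790, nat_lit 28697627472], nat_lit 1271250, nat_lit 1271250, nat_lit 1271250, nat_lit 1271250, nat_lit 65850, nat_lit 490000, [nat_lit 230000, nat_lit 780000, nat_lit 1100000], [nat_lit 35, nat_lit 40, nat_lit 40, nat_lit 80, nat_lit 22, nat_lit 226, nat_lit 20, nat_lit 9]⟩, ⟨p111_k4, nat_lit 0, nat_lit 0, nat_lit 732, nat_lit 0, nat_lit 1054064, [nat_lit 979792000, nat_lit 1665312000, nat_lit 2481248000], [], [nat_lit 7928084648, nat_lit 7981087330, nat_lit 8358002196, nat_lit 8379485100, nat_lit 6866695440, nat_lit 6867902183, nat_lit 6983813300, nat_lit 6968034932], nat_lit 1271250, nat_lit 1271250, nat_lit 1271250, nat_lit 1271250, nat_lit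 0, nat_lit 2373000, [nat_lit 1100000, nat_lit 1785000, nat_lit 1271250], [nat_lit 21, nat_lit 40, nat_lit 40, nat_lit 80, nat_lit 14, nat_lit 483, nat_lit 250, nat_lit 12]⟩,
 ⟨nat_lit 2236, nat_lit 2739, ⟨.ofNat (nat_lit 603890), .ofNat (nat_lit 769266), .ofNat (nat_lit 626287), .ofNat (nat_lit 791684), .ofNat (nat_lit 602558), .ofNat (nat_lit 762206), .ofNat (nat_lit 625312), .ofNat (nat_lit 784980)⟩, ⟨.ofNat (nat_lit 30000), .ofNat (nat_lit 188310), .ofNat (nat_lit 30000), .ofNat (nat_lit 200000), .ofNat (nat_lit 30000), .ofNat (nat_lit 192306), .ofNat (nat_lit 30000), .ofNat (nat_lit 200000)⟩⟩, [⟨nat_lit 13, nat_lit 50, nat_lit 75, nat_lit 100, nat_lit 53000232⟩, ⟨nat_lit 3, nat_lit 100, nat_lit 48, nat_lit 71, nat_lit 117760175⟩, ⟨nat_lit 10, nat_lit 100, nat_lit 67, nat_lit 65, nat_lit 42585812⟩]⟩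
noncomputable def p111_l41 : Lf2 := ⟨nat_lit 0, nat_lit 10, [nat_lit 0, nat_lit 5, nat_lit 5, nat_lit 20], false, nat_lit 12, nat_lit 80, nat_lit 0, nat_lit 336, ⟨nat_lit 677, nat_lit 323, nat_lit 0, nat_lit 6, nat_lit 292, nat_lit 323, nat_lit 45, nat_lit 0, nat_lit 0, nat_lit 0, nat_lit 0, nat_lit 0, nat_lit 42767177, nat_lit 22974111, nat_lit 1258712, nat_lit 3750901, true, true⟩,
 nat_lit 8392, nat_lit 0, nat_lit 0, nat_lit 0, nat_lit 3814, nat_lit 4884, nat_lit 376, nat_lit 0, nat_lit 0, nat_lit 1324, nat_lit 0, nat_lit 0, nat_lit 0, nat_lit 0, nat_lit 0, nat_lit 80750, nat_lit 0, nat_lit 0, [(nat_lit 24, [(nat_lit 0, nat_lit 323)])],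
 ⟨p111_k6, nat_lit 0, nat_lit 0, nat_lit 321, nat_lit 0, nat_lit 576452, [nat_lit 881539600, nat_lit 2663519600, nat_lit 3724684800], [], [nat_lit 25186564077, nat_lit 26098811396, nat_lit 32180925299, nat_lit 32838648518, nat_lit 23139148650, nat_lit 23676675924, nat_lit 29610385614, nat_lit 30246084168], nat_lit 1271250, nat_lit 1271250, nat_lit 1271250, nat_lit 1271250, nat_lit 65850, nat_lit 490000, [nat_lit 230000, nat_lit 780000, nat_lit 1100000], [nat_lit 35, nat_lit 40, nat_lit 40, nat_lit 80, nat_lit 22, nat_lit 226, nat_lit 20, nat_lit 9]⟩, ⟨p111_k9, nat_lit 0, nat_lit 0, nat_lit 638, nat_lit 0, nat_lit 992233, [nat_lit 3173776000, nat_lit 5394336000, nat_lit 6663034000], [], [nat_lit 20213977154, nat_lit 20450016252, nat_lit 22820251222, nat_lit 23647590580, nat_lit 18790638962, nat_lit 18906925697, nat_lit 22205497987, nat_lit 22620529398], nat_lit 1271250, nat_lit 1271250, nat_lit 1271250, nat_lit 1271250,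 nat_lit 0, nat_lit 2373000, [nat_lit 1100000, nat_lit 1785000, nat_lit 1271250], [nat_lit 29, nat_lit 40, nat_lit 40, nat_lit 80, nat_lit 17, nat_lit 483, nat_lit 250, nat_lit 14]⟩,
 ⟨nat_lit 2236, nat_lit 2739, ⟨.ofNat (nat_lit 626287), .ofNat (nat_lit 815308), .ofNat (nat_lit 648684), .ofNat (nat_lit 837726), .ofNat (nat_lit 625312), .ofNat (nat_lit 807787), .ofNat (nat_lit 648065), .ofNat (nat_lit 830561)⟩, ⟨.ofNat (nat_lit 30000), .ofNat (nat_lit 188310), .ofNat (nat_lit 30000), .ofNat (nat_lit 200000), .ofNat (nat_lit 30000), .ofNat (nat_lit 192306), .ofNat (nat_lit 30000), .ofNat (nat_lit 200000)⟩⟩, [⟨nat_lit 22, nat_lit 86, nat_lit 100, nat_lit 64, nat_lit 103237473⟩, ⟨nat_lit 22, nat_lit 100, nat_lit 76, nat_lit 82, nat_lit 59130424⟩]⟩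
noncomputable def p111_l42 : Lf2 := ⟨nat_lit 0, nat_lit 10, [nat_lit 0, nat_lit 5, nat_lit 5, nat_lit 20], false, nat_lit 80, nat_lit 160, nat_lit 0, nat_lit 364, ⟨nat_lit 237, nat_lit 763, nat_lit 0, nat_lit 6, nat_lit 283, nat_lit 763, nat_lit 104, nat_lit 0, nat_lit 0, nat_lit 0, nat_lit 0, nat_lit 0, nat_lit 41265845, nat_lit 21332130, nat_lit 4402025, nat_lit 4458036, true, true⟩,
 nat_lit 3835, nat_lit 0, nat_lit 0, nat_lit 0, nat_lit 3340, nat_lit 2030, nat_lit 124, nat_lit 0, nat_lit 0, nat_lit 178, nat_lit 0, nat_lit 0, nat_lit 0, nat_lit 0, nat_lit 0, nat_lit 345400, nat_lit 0, nat_lit 0, [(nat_lit 24, [(nat_lit 1, nat_lit 696), (nat_lit 2, nat_lit 67)])],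
 ⟨p111_k1, nat_lit 0, nat_lit 0, nat_lit 251, nat_lit 0, nat_lit 511934, [nat_lit 910870000, nat_lit 1440300401, nat_lit 1635208000], [], [nat_lit 23448943783, nat_lit 23943687783, nat_lit 27923239016, nat_lit 28528157019, nat_lit 24113528423, nat_lit 24566674924, nat_lit 28105439941, nat_lit 28480968075], nat_lit 1271250, nat_lit 1271250, nat_lit 1271250, nat_lit 1271250, nat_lit 490000, nat_lit 1100001, [nat_lit 230000, nat_lit 780000, nat_lit 1100000], [nat_lit 35, nat_lit 40, nat_lit 40, nat_lit 80, nat_lit 22, nat_lit 249, nat_lit 40, nat_lit 10]⟩, ⟨p111_k4, nat_lit 0, nat_lit 0, nat_lit 694, nat_lit 0, nat_lit 955065, [nat_lit 1111056000, nat_lit 1888416000, nat_lit 2813664000], [], [nat_lit 9027733604, nat_lit 9103035194, nat_lit 9696276674, nat_lit 9728181299, nat_lit 8182357687, nat_lit 8205929937, nat_lit 8498393604, nat_lit 8492372915], nat_lit 1271250, nat_lit 1271250, nat_lit 1271250, nat_lit 1271250,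 nat_lit 0, nat_lit 2570750, [nat_lit 1100000, nat_lit 1785000, nat_lit 1271250], [nat_lit 21, nat_lit 40, nat_lit 40, nat_lit 80, nat_lit 14, nat_lit 483, nat_lit 250, nat_lit 12]⟩,
 ⟨nat_lit 2738, nat_lit 3163, ⟨.ofNat (nat_lit 605257), .ofNat (nat_lit 794217), .ofNat (nat_lit 627400), .ofNat (nat_lit 816372), .ofNat (nat_lit 603890), .ofNat (nat_lit 786985), .ofNat (nat_lit 626295), .ofNat (nat_lit 809402)⟩, ⟨.ofNat (nat_lit 184209), .ofNat (nat_lit 306116), .ofNat (nat_lit 200000), .ofNat (nat_lit 350426), .ofNat (nat_lit 188310), .ofNat (nat_lit 306433), .ofNat (nat_lit 200000), .ofNat (nat_lit 351268)⟩⟩, [⟨nat_lit 13, nat_lit 58, nat_lit 68, nat_lit 100, nat_lit 16759099⟩, ⟨nat_lit 22, nat_lit 94, nat_lit 89, nat_lit 100, nat_lit 31417631⟩]⟩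
noncomputable def p111_l43 : Lf2 := ⟨nat_lit 0, nat_lit 10, [nat_lit 0, nat_lit 5, nat_lit 5, nat_lit 20], false, nat_lit 80, nat_lit 160, nat_lit 0, nat_lit 352, ⟨nat_lit 679, nat_lit 321, nat_lit 0, nat_lit 6, nat_lit 296, nat_lit 321, nat_lit 104, nat_lit 0, nat_lit 0, nat_lit 0, nat_lit 0, nat_lit 0, nat_lit 40145029, nat_lit 22527917, nat_lit 4327054, nat_lit 4500571, true, true⟩,
 nat_lit 7613, nat_lit 0, nat_lit 0, nat_lit 0, nat_lit 4658, nat_lit 4431, nat_lit 0, nat_lit 0, nat_lit 0, nat_lit 1259, nat_lit 0, nat_lit 0, nat_lit 0, nat_lit 0, nat_lit 0, nat_lit 321000, nat_lit 0, nat_lit 0, [(nat_lit 24, [(nat_lit 2, nat_lit 321)])],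
 ⟨p111_k1, nat_lit 0, nat_lit 0, nat_lit 266, nat_lit 0, nat_lit 551672, [nat_lit 1108130000, nat_lit 2076709201, nat_lit 2511876800], [], [nat_lit 22944156811, nat_lit 23700970872, nat_lit 30986808149, nat_lit 31672062485, nat_lit 23291148611, nat_lit 23799669037, nat_lit 30290872341, nat_lit 30914926306], nat_lit 1271250, nat_lit 1271250, nat_lit 1271250, nat_lit 1271250, nat_lit 490000, nat_lit 1100001, [nat_lit 230000, nat_lit 780000, nat_lit 1100000], [nat_lit 35, nat_lit 40, nat_lit 40, nat_lit 80, nat_lit 22, nat_lit 249, nat_lit 40, nat_lit 10]⟩, ⟨p111_k9, nat_lit 0, nat_lit 0, nat_lit 604, nat_lit 0, nat_lit 910079, [nat_lit 3183152000, nat_lit 5410272000, nat_lit 6682718000], [], [nat_lit 22838039902, nat_lit 23077001268, nat_lit 24856363984, nat_lit 24990722868, nat_lit 22019693663, nat_lit 22102776840, nat_lit 23126918051, nat_lit 23196945566], nat_lit 1271250, nat_lit 1271250, nat_lit 1271250, nat_lit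 1271250, nat_lit 0, nat_lit 2486000, [nat_lit 1100000, nat_lit 1785000, nat_lit 1271250], [nat_lit 29, nat_lit 40, nat_lit 40, nat_lit 80, nat_lit 17, nat_lit 538, nat_lit 300, nat_lit 15]⟩,
 ⟨nat_lit 2738, nat_lit 3163, ⟨.ofNat (nat_lit 627400), .ofNat (nat_lit 834658), .ofNat (nat_lit 649542), .ofNat (nat_lit 856813), .ofNat (nat_lit 626295), .ofNat (nat_lit 827121), .ofNat (nat_lit 648700), .ofNat (nat_lit 849538)⟩, ⟨.ofNat (nat_lit 184209), .ofNat (nat_lit 306116), .ofNat (nat_lit 200000), .ofNat (nat_lit 350426), .ofNat (nat_lit 188310), .ofNat (nat_lit 306433), .ofNat (nat_lit 200000), .ofNat (nat_lit 351268)⟩⟩, [⟨nat_lit 7, nat_lit 82, nat_lit 100, nat_lit 92, nat_lit 114956509⟩]⟩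
noncomputable def p111_l44 : Lf2 := ⟨nat_lit 0, nat_lit 10, [nat_lit 0, nat_lit 5, nat_lit 5, nat_lit 20], false, nat_lit 80, nat_lit 160, nat_lit 0, nat_lit 364, ⟨nat_lit 203, nat_lit 797, nat_lit 0, nat_lit 6, nat_lit 278, nat_lit 797, nat_lit 105, nat_lit 0, nat_lit 0, nat_lit 0, nat_lit 0, nat_lit 0, nat_lit 41712228, nat_lit 20825299, nat_lit 4462473, nat_lit 4443399, true, true⟩,
 nat_lit 3369, nat_lit 0, nat_lit 0, nat_lit 0, nat_lit 3040, nat_lit 1783, nat_lit 335, nat_lit 0, nat_lit 0, nat_lit 147, nat_lit 0, nat_lit 0, nat_lit 0, nat_lit 0, nat_lit 0, nat_lit 199250, nat_lit 0, nat_lit 0, [(nat_lit 24, [(nat_lit 0, nat_lit 797)])],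
 ⟨p111_k6, nat_lit 0, nat_lit 0, nat_lit 260, nat_lit 0, nat_lit 541496, [nat_lit 798684401, nat_lit 1755904401, nat_lit 2311027200], [], [nat_lit 23016531588, nat_lit 23556904188, nat_lit 27346965497, nat_lit 27946588624, nat_lit 23885474748, nat_lit 24377979148, nat_lit 27624056123, nat_lit 28045252603], nat_lit 1271250, nat_lit 1271250, nat_lit 1271250, nat_lit 1271250, nat_lit 490000, nat_lit 1100001, [nat_lit 230000, nat_lit 780000, nat_lit 1100000], [nat_lit 35, nat_lit 40, nat_lit 40, nat_lit 80, nat_lit 22, nat_lit 249, nat_lit 40, nat_lit 10]⟩, ⟨p111_k4, nat_lit 0, nat_lit 0, nat_lit 732, nat_lit 0, nat_lit 1054064, [nat_lit 951664000, nat_lit 1617504000, nat_lit 2410016000], [], [nat_lit 8013797404, nat_lit 8045136562, nat_lit 8359800882, nat_lit 8382231463, nat_lit 7076579627, nat_lit 7073749950, nat_lit 7163585982, nat_lit 7143472037], nat_lit 1271250, nat_lit 1271250, nat_lit 1271250, nat_lit 1271250,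 nat_lit 0, nat_lit 2570750, [nat_lit 1100000, nat_lit 1785000, nat_lit 1271250], [nat_lit 21, nat_lit 40, nat_lit 40, nat_lit 80, nat_lit 14, nat_lit 483, nat_lit 250, nat_lit 12]⟩,
 ⟨nat_lit 2236, nat_lit 2739, ⟨.ofNat (nat_lit 603890), .ofNat (nat_lit 769266), .ofNat (nat_lit 626287), .ofNat (nat_lit 791684), .ofNat (nat_lit 602558), .ofNat (nat_lit 762206), .ofNat (nat_lit 625312), .ofNat (nat_lit 784980)⟩, ⟨.ofNat (nat_lit 188310), .ofNat (nat_lit 306433), .ofNat (nat_lit 200000), .ofNat (nat_lit 351268), .ofNat (nat_lit 192306), .ofNat (nat_lit 306337), .ofNat (nat_lit 200000), .ofNat (nat_lit 351886)⟩⟩, [⟨nat_lit 13, nat_lit 50, nat_lit 75, nat_lit 100, nat_lit 108329966⟩, ⟨nat_lit 7, nat_lit 72, nat_lit 100, nat_lit 89, nat_lit 25138897⟩, ⟨nat_lit 22, nat_lit 96, nat_lit 86, nat_lit 100, nat_lit 465955⟩]⟩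
noncomputable def p111_l45 : Lf2 := ⟨nat_lit 0, nat_lit 10, [nat_lit 0, nat_lit 5, nat_lit 5, nat_lit 20], false, nat_lit 80, nat_lit 160, nat_lit 0, nat_lit 352, ⟨nat_lit 377, nat_lit 623, nat_lit 0, nat_lit 6, nat_lit 292, nat_lit 623, nat_lit 105, nat_lit 0, nat_lit 0, nat_lit 0, nat_lit 0, nat_lit 0, nat_lit 40481460, nat_lit 22137401, nat_lit 4381139, nat_lit 4493453, true, true⟩,
 nat_lit 4354, nat_lit 0, nat_lit 0, nat_lit 0, nat_lit 3561, nat_lit 2534, nat_lit 103, nat_lit 0, nat_lit 0, nat_lit 601, nat_lit 0, nat_lit 0, nat_lit 0, nat_lit 0, nat_lit 0, nat_lit 155750, nat_lit 0, nat_lit 0, [(nat_lit 24, [(nat_lit 0, nat_lit 623)])],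
 ⟨p111_k6, nat_lit 0, nat_lit 0, nat_lit 274, nat_lit 0, nat_lit 576452, [nat_lit 829099600, nat_lit 2089079600, nat_lit 2829964800], [], [nat_lit 24006647140, nat_lit 24558256358, nat_lit 29159769237, nat_lit 29775501132, nat_lit 24696894360, nat_lit 25198463950, nat_lit 29098948246, nat_lit 29547858165], nat_lit 1271250, nat_lit 1271250, nat_lit 1271250, nat_lit 1271250, nat_lit 490000, nat_lit 1100001, [nat_lit 230000, nat_lit 780000, nat_lit 1100000], [nat_lit 35, nat_lit 40, nat_lit 40, nat_lit 80, nat_lit 22, nat_lit 249, nat_lit 40, nat_lit 10]⟩, ⟨p111_k9, nat_lit 0, nat_lit 0, nat_lit 638, nat_lit 0, nat_lit 992233, [nat_lit 1767376000, nat_lit 3003936000, nat_lit 3710434000], [], [nat_lit 12814648554, nat_lit 12946975452, nat_lit 13851400275, nat_lit 13927952871, nat_lit 12284615955, nat_lit 12328477271, nat_lit 12734676099, nat_lit 12763177346], nat_lit 1271250, nat_lit 1271250, nat_lit 1271250, nat_lit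 1271250, nat_lit 0, nat_lit 2486000, [nat_lit 1100000, nat_lit 1785000, nat_lit 1271250], [nat_lit 29, nat_lit 40, nat_lit 40, nat_lit 80, nat_lit 17, nat_lit 483, nat_lit 250, nat_lit 14]⟩,
 ⟨nat_lit 2236, nat_lit 2739, ⟨.ofNat (nat_lit 626287), .ofNat (nat_lit 815308), .ofNat (nat_lit 648684), .ofNat (nat_lit 837726), .ofNat (nat_lit 625312), .ofNat (nat_lit 807787), .ofNat (nat_lit 648065), .ofNat (nat_lit 830561)⟩, ⟨.ofNat (nat_lit 188310), .ofNat (nat_lit 306433), .ofNat (nat_lit 200000), .ofNat (nat_lit 351268), .ofNat (nat_lit 192306), .ofNat (nat_lit 306337), .ofNat (nat_lit 200000), .ofNat (nat_lit 351886)⟩⟩, [⟨nat_lit 19, nat_lit 100, nat_lit 82, nat_lit 92, nat_lit 61034390⟩]⟩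
noncomputable def p111_l46 : Lf2 := ⟨nat_lit 0, nat_lit 10, [nat_lit 0, nat_lit 5, nat_lit 5, nat_lit 20], false, nat_lit 20, nat_lit 80, nat_lit 0, nat_lit 336, ⟨nat_lit 167, nat_lit 833, nat_lit 0, nat_lit 6, nat_lit 272, nat_lit 833, nat_lit 50, nat_lit 0, nat_lit 0, nat_lit 0, nat_lit 0, nat_lit 0, nat_lit 44630776, nat_lit 20878821, nat_lit 1490403, nat_lit 3715278, true, true⟩,
 nat_lit 2901, nat_lit 0, nat_lit 0, nat_lit 0, nat_lit 2710, nat_lit 1535, nat_lit 79, nat_lit 0, nat_lit 0, nat_lit 137, nat_lit 0, nat_lit 0, nat_lit 0, nat_lit 0, nat_lit 0, nat_lit 333200, nat_lit 0, nat_lit 0, [(nat_lit 27, [(nat_lit 1, nat_lit 833)])],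
 ⟨p111_k5, nat_lit 0, nat_lit 0, nat_lit 289, nat_lit 0, nat_lit 619572, [nat_lit 737746801, nat_lit 818319200], [], [nat_lit 24424057890, nat_lit 25500119125, nat_lit 28139237095, nat_lit 29355205645, nat_lit 24312943605, nat_lit 25337130565, nat_lit 27694213945, nat_lit 28616184691], nat_lit 1271250, nat_lit 1271250, nat_lit 1271250, nat_lit 1271250, nat_lit 111251, nat_lit 490000, [nat_lit 230000, nat_lit 780000], [nat_lit 66, nat_lit 40, nat_lit 40, nat_lit 80, nat_lit 67, nat_lit 226, nat_lit 20, nat_lit 11]⟩, ⟨p111_k4, nat_lit 0, nat_lit 0, nat_lit 836, nat_lit 0, nat_lit 1257091, [nat_lit 782896000, nat_lit 1330656000, nat_lit 1982624000], [], [nat_lit 6247718024, nat_lit 6289792090, nat_lit 6541496338, nat_lit 6560951375, nat_lit 5376175200, nat_lit 5376417057, nat_lit 5446483834, nat_lit 5440923277], nat_lit 1271250, nat_lit 1271250, nat_lit 1271250, nat_lit 1271250, nat_lit 0, nat_lit 2373000, [nat_lit 1100000,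 nat_lit 1785000, nat_lit 1271250], [nat_lit 21, nat_lit 40, nat_lit 40, nat_lit 80, nat_lit 14, nat_lit 483, nat_lit 250, nat_lit 12]⟩,
 ⟨nat_lit 0, nat_lit 2237, ⟨.ofNat (nat_lit 602531), .ofNat (nat_lit 745097), .ofNat (nat_lit 624400), .ofNat (nat_lit 767872), .ofNat (nat_lit 599967), .ofNat (nat_lit 724995), .ofNat (nat_lit 624062), .ofNat (nat_lit 749995)⟩, ⟨.ofNat (nat_lit 50000), .ofNat (nat_lit 192306), .ofNat (nat_lit 50000), .ofNat (nat_lit 200000), .ofNat (nat_lit 50000), .ofNat (nat_lit 199999), .ofNat (nat_lit 50000), .ofNat (nat_lit 200000)⟩⟩, [⟨nat_lit 13, nat_lit 32, nat_lit 87, nat_lit 100, nat_lit 165215812⟩, ⟨nat_lit 3, nat_lit 100, nat_lit 36, nat_lit 77, nat_lit 282009954⟩, ⟨nat_lit 22, nat_lit 92, nat_lit 100, nat_lit 68, nat_lit 24209283⟩]⟩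
noncomputable def p111_l47 : Lf2 := ⟨nat_lit 0, nat_lit 10, [nat_lit 0, nat_lit 5, nat_lit 5, nat_lit 20], false, nat_lit 20, nat_lit 80, nat_lit 0, nat_lit 336, ⟨nat_lit 278, nat_lit 722, nat_lit 0, nat_lit 6, nat_lit 285, nat_lit 722, nat_lit 50, nat_lit 0, nat_lit 0, nat_lit 0, nat_lit 0, nat_lit 0, nat_lit 43364068, nat_lit 22167876, nat_lit 1468056, nat_lit 3778180, true, true⟩,
 nat_lit 3474, nat_lit 0, nat_lit 0, nat_lit 0, nat_lit 3037, nat_lit 2022, nat_lit 0, nat_lit 0, nat_lit 0, nat_lit 388, nat_lit 0, nat_lit 0, nat_lit 0, nat_lit 0, nat_lit 0, nat_lit 288800, nat_lit 0, nat_lit 0, [(nat_lit 27, [(nat_lit 1, nat_lit 722)])],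
 ⟨p111_k5, nat_lit 0, nat_lit 0, nat_lit 301, nat_lit 0, nat_lit 647019, [nat_lit 764431200, nat_lit 1146612800], [], [nat_lit 24647161230, nat_lit 25889654906, nat_lit 29584150328, nat_lit 30820477860, nat_lit 24445262664, nat_lit 25489252024, nat_lit 28298520286, nat_lit 29148041662], nat_lit 1271250, nat_lit 1271250, nat_lit 1271250, nat_lit 1271250, nat_lit 111251, nat_lit 490000, [nat_lit 230000, nat_lit 780000], [nat_lit 66, nat_lit 40, nat_lit 40, nat_lit 80, nat_lit 67, nat_lit 226, nat_lit 20, nat_lit 11]⟩, ⟨p111_k9, nat_lit 0, nat_lit 0, nat_lit 721, nat_lit 0, nat_lit 1160836, [nat_lit 1303264000, nat_lit 2215104000, nat_lit 2736076000], [], [nat_lit 9286462008, nat_lit 9360431448, nat_lit 9797959219, nat_lit 9839794161, nat_lit 8535919474, nat_lit 8554412277, nat_lit 8818435951, nat_lit 9004331425], nat_lit 1271250, nat_lit 1271250, nat_lit 1271250, nat_lit 1271250, nat_lit 0, nat_lit 2373000, [nat_lit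 1100000, nat_lit 1785000, nat_lit 1271250], [nat_lit 29, nat_lit 40, nat_lit 40, nat_lit 80, nat_lit 17, nat_lit 483, nat_lit 250, nat_lit 14]⟩,
 ⟨nat_lit 0, nat_lit 2237, ⟨.ofNat (nat_lit 624400), .ofNat (nat_lit 784976), .ofNat (nat_lit 646249), .ofNat (nat_lit 807752), .ofNat (nat_lit 624062), .ofNat (nat_lit 764995), .ofNat (nat_lit 648136), .ofNat (nat_lit 789996)⟩, ⟨.ofNat (nat_lit 50000), .ofNat (nat_lit 192306), .ofNat (nat_lit 50000), .ofNat (nat_lit 200000), .ofNat (nat_lit 50000), .ofNat (nat_lit 199999), .ofNat (nat_lit 50000), .ofNat (nat_lit 200000)⟩⟩, [⟨nat_lit 13, nat_lit 33, nat_lit 83, nat_lit 100, nat_lit 16975538⟩, ⟨nat_lit 3, nat_lit 100, nat_lit 36, nat_lit 77, nat_lit 325090864⟩, ⟨nat_lit 22, nat_lit 90, nat_lit 100, nat_lit 68, nat_lit 66237589⟩]⟩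
noncomputable def p111_l48 : Lf2 := ⟨nat_lit 0, nat_lit 10, [nat_lit 0, nat_lit 5, nat_lit 5, nat_lit 20], false, nat_lit 80, nat_lit 160, nat_lit 0, nat_lit 364, ⟨nat_lit 185, nat_lit 815, nat_lit 0, nat_lit 6, nat_lit 282, nat_lit 815, nat_lit 105, nat_lit 0, nat_lit 0, nat_lit 0, nat_lit 0, nat_lit 0, nat_lit 41393967, nat_lit 21143494, nat_lit 4462539, nat_lit 4460354, true, true⟩,
 nat_lit 3038, nat_lit 0, nat_lit 0, nat_lit 0, nat_lit 2838, nat_lit 1608, nat_lit 120, nat_lit 0, nat_lit 0, nat_lit 128, nat_lit 0, nat_lit 0, nat_lit 0, nat_lit 0, nat_lit 0, nat_lit 326000, nat_lit 0, nat_lit 0, [(nat_lit 27, [(nat_lit 1, nat_lit 815)])],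
 ⟨p111_k5, nat_lit 0, nat_lit 0, nat_lit 241, nat_lit 0, nat_lit 576235, [nat_lit 742074001, nat_lit 871556000], [], [nat_lit 22884278180, nat_lit 23162717828, nat_lit 27593333933, nat_lit 27884587444, nat_lit 23833909761, nat_lit 24106747551, nat_lit 27834049770, nat_lit 28054973857], nat_lit 1271250, nat_lit 1271250, nat_lit 1271250, nat_lit 1271250, nat_lit 490000, nat_lit 1100001, [nat_lit 230000, nat_lit 780000], [nat_lit 66, nat_lit 40, nat_lit 40, nat_lit 80, nat_lit 67, nat_lit 249, nat_lit 40, nat_lit 12]⟩, ⟨p111_k4, nat_lit 0, nat_lit 0, nat_lit 801, nat_lit 0, nat_lit 1169162, [nat_lit 867280000, nat_lit 1474080000, nat_lit 2196320000], [], [nat_lit 7414201196, nat_lit 7472099432, nat_lit 7689473888, nat_lit 7731275327, nat_lit 6538919728, nat_lit 6535029086, nat_lit 6620852390, nat_lit 6602280330], nat_lit 1271250, nat_lit 1271250, nat_lit 1271250, nat_lit 1271250, nat_lit 0, nat_lit 2570750, [nat_lit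 1100000, nat_lit 1785000, nat_lit 1271250], [nat_lit 21, nat_lit 40, nat_lit 40, nat_lit 80, nat_lit 14, nat_lit 483, nat_lit 250, nat_lit 12]⟩,
 ⟨nat_lit 1936, nat_lit 2237, ⟨.ofNat (nat_lit 602562), .ofNat (nat_lit 762206), .ofNat (nat_lit 648093), .ofNat (nat_lit 807755), .ofNat (nat_lit 601908), .ofNat (nat_lit 758399), .ofNat (nat_lit 647913), .ofNat (nat_lit 804421)⟩, ⟨.ofNat (nat_lit 192306), .ofNat (nat_lit 306337), .ofNat (nat_lit 200000), .ofNat (nat_lit 351886), .ofNat (nat_lit 194266), .ofNat (nat_lit 306044), .ofNat (nat_lit 200000), .ofNat (nat_lit 352066)⟩⟩, [⟨nat_lit 13, nat_lit 43, nat_lit 78, nat_lit 100, nat_lit 150021401⟩, ⟨nat_lit 4, nat_lit 100, nat_lit 41, nat_lit 87, nat_lit 8181394⟩, ⟨nat_lit 19, nat_lit 100, nat_lit 77, nat_lit 91, nat_lit 22677065⟩]⟩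
noncomputable def p111_l49 : Lf2 := ⟨nat_lit 0, nat_lit 10, [nat_lit 0, nat_lit 5, nat_lit 5, nat_lit 20], false, nat_lit 80, nat_lit 160, nat_lit 0, nat_lit 364, ⟨nat_lit 185, nat_lit 815, nat_lit 0, nat_lit 6, nat_lit 279, nat_lit 815, nat_lit 105, nat_lit 0, nat_lit 0, nat_lit 0, nat_lit 0, nat_lit 0, nat_lit 41660443, nat_lit 20849138, nat_lit 4490419, nat_lit 4450264, true, true⟩,
 nat_lit 3061, nat_lit 0, nat_lit 0, nat_lit 0, nat_lit 2909, nat_lit 1620, nat_lit 87, nat_lit 0, nat_lit 0, nat_lit 144, nat_lit 0, nat_lit 0, nat_lit 0, nat_lit 0, nat_lit 0, nat_lit 326000, nat_lit 0, nat_lit 0, [(nat_lit 27, [(nat_lit 1, nat_lit 815)])],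
 ⟨p111_k10, nat_lit 0, nat_lit 0, nat_lit 243, nat_lit 0, nat_lit 587571, [nat_lit 742074001, nat_lit 871556000], [], [nat_lit 23363559945, nat_lit 23635074490, nat_lit 27609606340, nat_lit 27909984864, nat_lit 24250631534, nat_lit 24518721795, nat_lit 27832684787, nat_lit 28053769492], nat_lit 1271250, nat_lit 1271250, nat_lit 1271250, nat_lit 1271250, nat_lit 490000, nat_lit 1100001, [nat_lit 230000, nat_lit 780000], [nat_lit 66, nat_lit 40, nat_lit 40, nat_lit 80, nat_lit 67, nat_lit 249, nat_lit 40, nat_lit 12]⟩, ⟨p111_k4, nat_lit 0, nat_lit 0, nat_lit 820, nat_lit 0, nat_lit 1216681, [nat_lit 867280000, nat_lit 1474080000, nat_lit 2196320000], [], [nat_lit 7258032080, nat_lit 7353394200, nat_lit 7602877053, nat_lit 7648075772, nat_lit 6475147741, nat_lit 6470357607, nat_lit 6542057319, nat_lit 6519528337], nat_lit 1271250, nat_lit 1271250, nat_lit 1271250, nat_lit 1271250, nat_lit 0, nat_lit 2570750, [nat_lit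 1100000, nat_lit 1785000, nat_lit 1271250], [nat_lit 21, nat_lit 40, nat_lit 40, nat_lit 80, nat_lit 14, nat_lit 483, nat_lit 250, nat_lit 12]⟩,
 ⟨nat_lit 1581, nat_lit 1937, ⟨.ofNat (nat_lit 601908), .ofNat (nat_lit 747221), .ofNat (nat_lit 647901), .ofNat (nat_lit 793243), .ofNat (nat_lit 601263), .ofNat (nat_lit 743317), .ofNat (nat_lit 647865), .ofNat (nat_lit 789947)⟩, ⟨.ofNat (nat_lit 194266), .ofNat (nat_lit 306044), .ofNat (nat_lit 200000), .ofNat (nat_lit 352066), .ofNat (nat_lit 196201), .ofNat (nat_lit 305473), .ofNat (nat_lit 200000), .ofNat (nat_lit 352103)⟩⟩, [⟨nat_lit 13, nat_lit 36, nat_lit 83, nat_lit 100, nat_lit 165270371⟩, ⟨nat_lit 4, nat_lit 100, nat_lit 35, nat_lit 88, nat_lit 10836593⟩, ⟨nat_lit 7, nat_lit 77, nat_lit 100, nat_lit 91, nat_lit 22739812⟩]⟩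
noncomputable def p111_l50 : Lf2 := ⟨nat_lit 0, nat_lit 10, [nat_lit 0, nat_lit 5, nat_lit 5, nat_lit 20], false, nat_lit 80, nat_lit 160, nat_lit 0, nat_lit 364, ⟨nat_lit 179, nat_lit 821, nat_lit 0, nat_lit 6, nat_lit 276, nat_lit 821, nat_lit 105, nat_lit 0, nat_lit 0, nat_lit 0, nat_lit 0, nat_lit 0, nat_lit 41926637, nat_lit 20559417, nat_lit 4513946, nat_lit 4439081, true, true⟩,
 nat_lit 3007, nat_lit 0, nat_lit 0, nat_lit 0, nat_lit 2907, nat_lit 1591, nat_lit 67, nat_lit 0, nat_lit 0, nat_lit 128, nat_lit 0, nat_lit 0, nat_lit 0, nat_lit 0, nat_lit 0, nat_lit 328400, nat_lit 0, nat_lit 0, [(nat_lit 27, [(nat_lit 1, nat_lit 821)])],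
 ⟨p111_k11, nat_lit 0, nat_lit 0, nat_lit 246, nat_lit 0, nat_lit 598536, [nat_lit 740631600, nat_lit 853810400], [], [nat_lit 23646836863, nat_lit 23918270410, nat_lit 27510476365, nat_lit 27816881277, nat_lit 24510891055, nat_lit 24778902070, nat_lit 27744653822, nat_lit 27969306503], nat_lit 1271250, nat_lit 1271250, nat_lit 1271250, nat_lit 1271250, nat_lit 490000, nat_lit 1100001, [nat_lit 230000, nat_lit 780000], [nat_lit 66, nat_lit 40, nat_lit 40, nat_lit 80, nat_lit 67, nat_lit 249, nat_lit 40, nat_lit 12]⟩, ⟨p111_k4, nat_lit 0, nat_lit 0, nat_lit 839, nat_lit 0, nat_lit 1264580, [nat_lit 839152000, nat_lit 1426272000, nat_lit 2125088000], [], [nat_lit 7311141380, nat_lit 7349563648, nat_lit 7471087269, nat_lit 7475478534, nat_lit 6329616528, nat_lit 6293508056, nat_lit 6299118740, nat_lit 6241978015], nat_lit 1271250, nat_lit 1271250, nat_lit 1271250, nat_lit 1271250, nat_lit 0, nat_lit 2570750, [nat_lit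 1100000, nat_lit 1785000, nat_lit 1271250], [nat_lit 21, nat_lit 40, nat_lit 40, nat_lit 80, nat_lit 14, nat_lit 483, nat_lit 250, nat_lit 12]⟩,
 ⟨nat_lit 1118, nat_lit 1582, ⟨.ofNat (nat_lit 601263), .ofNat (nat_lit 732390), .ofNat (nat_lit 647829), .ofNat (nat_lit 779020), .ofNat (nat_lit 600626), .ofNat (nat_lit 728133), .ofNat (nat_lit 648063), .ofNat (nat_lit 775634)⟩, ⟨.ofNat (nat_lit 196201), .ofNat (nat_lit 305473), .ofNat (nat_lit 200000), .ofNat (nat_lit 352103), .ofNat (nat_lit 198112), .ofNat (nat_lit 304366), .ofNat (nat_lit 200000), .ofNat (nat_lit 351868)⟩⟩, [⟨nat_lit 13, nat_lit 28, nat_lit 88, nat_lit 100, nat_lit 198337128⟩, ⟨nat_lit 4, nat_lit 100, nat_lit 28, nat_lit 89, nat_lit 16619669⟩, ⟨nat_lit 7, nat_lit 77, nat_lit 100, nat_lit 91, nat_lit 19980941⟩]⟩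
noncomputable def p111_l51 : Lf2 := ⟨nat_lit 0, nat_lit 10, [nat_lit 0, nat_lit 5, nat_lit 5, nat_lit 20], false, nat_lit 80, nat_lit 160, nat_lit 0, nat_lit 364, ⟨nat_lit 170, nat_lit 830, nat_lit 0, nat_lit 6, nat_lit 270, nat_lit 830, nat_lit 105, nat_lit 0, nat_lit 0, nat_lit 0, nat_lit 0, nat_lit 0, nat_lit 42413218, nat_lit 20054692, nat_lit 4532090, nat_lit 4413925, true, true⟩,
 nat_lit 2901, nat_lit 0, nat_lit 0, nat_lit 0, nat_lit 2852, nat_lit 1535, nat_lit 1, nat_lit 0, nat_lit 0, nat_lit 128, nat_lit 0, nat_lit 0, nat_lit 0, nat_lit 0, nat_lit 0, nat_lit 332000, nat_lit 0, nat_lit 0, [(nat_lit 27, [(nat_lit 1, nat_lit 830)])],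
 ⟨p111_k12, nat_lit 0, nat_lit 0, nat_lit 214, nat_lit 0, nat_lit 609109, [nat_lit 738468001, nat_lit 707984000], [], [nat_lit 24052740625, nat_lit 24333976771, nat_lit 26944431320, nat_lit 27260411632, nat_lit 24937622257, nat_lit 25202233434, nat_lit 27521244850, nat_lit 27751436330], nat_lit 1271250, nat_lit 1271250, nat_lit 1271250, nat_lit 1271250, nat_lit 490000, nat_lit 1100001, [nat_lit 230000, nat_lit 490000], [nat_lit 193, nat_lit 40, nat_lit 40, nat_lit 80, nat_lit 5, nat_lit 203, nat_lit 0, nat_lit 13]⟩, ⟨p111_k4, nat_lit 0, nat_lit 0, nat_lit 858, nat_lit 0, nat_lit 1312780, [nat_lit 796960000, nat_lit 1354560000, nat_lit 2018240000], [], [nat_lit 6817976640, nat_lit 6853222040, nat_lit 6925563060, nat_lit 6933845380, nat_lit 5857062478, nat_lit 5820663915, nat_lit 5814941026, nat_lit 5770676216], nat_lit 1271250, nat_lit 1271250, nat_lit 1271250, nat_lit 1271250, nat_lit 0, nat_lit 2570750, [nat_lit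 1100000, nat_lit 1785000, nat_lit 1271250], [nat_lit 21, nat_lit 40, nat_lit 40, nat_lit 80, nat_lit 14, nat_lit 483, nat_lit 250, nat_lit 12]⟩,
 ⟨nat_lit 0, nat_lit 1119, ⟨.ofNat (nat_lit 600626), .ofNat (nat_lit 706878), .ofNat (nat_lit 647199), .ofNat (nat_lit 754382), .ofNat (nat_lit 599998), .ofNat (nat_lit 699995), .ofNat (nat_lit 649068), .ofNat (nat_lit 749998)⟩, ⟨.ofNat (nat_lit 198112), .ofNat (nat_lit 304362), .ofNat (nat_lit 200000), .ofNat (nat_lit 351866), .ofNat (nat_lit 199999), .ofNat (nat_lit 299995), .ofNat (nat_lit 200000), .ofNat (nat_lit 349997)⟩⟩, [⟨nat_lit 13, nat_lit 17, nat_lit 94, nat_lit 100, nat_lit 257441758⟩, ⟨nat_lit 4, nat_lit 100, nat_lit 17, nat_lit 93, nat_lit 121595627⟩, ⟨nat_lit 7, nat_lit 77, nat_lit 100, nat_lit 91, nat_lit 19014000⟩]⟩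
noncomputable def p111_l52 : Lf2 := ⟨nat_lit 0, nat_lit 10, [nat_lit 0, nat_lit 5, nat_lit 5, nat_lit 20], false, nat_lit 160, nat_lit 248, nat_lit 0, nat_lit 364, ⟨nat_lit 223, nat_lit 777, nat_lit 0, nat_lit 6, nat_lit 270, nat_lit 777, nat_lit 158, nat_lit 0, nat_lit 0, nat_lit 0, nat_lit 0, nat_lit 0, nat_lit 39709293, nat_lit 19170089, nat_lit 8120618, nat_lit 4958965, true, true⟩,
 nat_lit 3795, nat_lit 0, nat_lit 0, nat_lit 0, nat_lit 3305, nat_lit 2009, nat_lit 113, nat_lit 0, nat_lit 0, nat_lit 182, nat_lit 0, nat_lit 0, nat_lit 0, nat_lit 0, nat_lit 0, nat_lit 388200, nat_lit 0, nat_lit 0, [(nat_lit 24, [(nat_lit 1, nat_lit 648), (nat_lit 2, nat_lit 129)])],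
 ⟨p111_k1, nat_lit 0, nat_lit 0, nat_lit 207, nat_lit 0, nat_lit 511934, [nat_lit 948050000, nat_lit 1317166800, nat_lit 1394110400], [], [nat_lit 23249952000, nat_lit 23760797835, nat_lit 25885405400, nat_lit 26326948425, nat_lit 25155374958, nat_lit 25603251653, nat_lit 27570411567, nat_lit 28000235675], nat_lit 1271250, nat_lit 1271250, nat_lit 1271250, nat_lit 1271250, nat_lit 1100001, nat_lit 1853500, [nat_lit 230000, nat_lit 780000, nat_lit 1100000], [nat_lit 35, nat_lit 40, nat_lit 40, nat_lit 80, nat_lit 22, nat_lit 203, nat_lit 0, nat_lit 7]⟩, ⟨p111_k4, nat_lit 0, nat_lit 0, nat_lit 694, nat_lit 0, nat_lit 955065, [nat_lit 1045424000, nat_lit 1776864000, nat_lit 2647456000], [], [nat_lit 8090178896, nat_lit 8160123652, nat_lit 8433134296, nat_lit 8502106652, nat_lit 7288332571, nat_lit 7304986931, nat_lit 7415896375, nat_lit 7417064868], nat_lit 1271250, nat_lit 1271250, nat_lit 1271250, nat_lit 1271250,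 nat_lit 0, nat_lit 2570750, [nat_lit 1100000, nat_lit 1785000, nat_lit 1271250], [nat_lit 21, nat_lit 40, nat_lit 40, nat_lit 80, nat_lit 14, nat_lit 483, nat_lit 250, nat_lit 12]⟩,
 ⟨nat_lit 2738, nat_lit 3163, ⟨.ofNat (nat_lit 605257), .ofNat (nat_lit 727168), .ofNat (nat_lit 627400), .ofNat (nat_lit 749323), .ofNat (nat_lit 603890), .ofNat (nat_lit 722017), .ofNat (nat_lit 626295), .ofNat (nat_lit 744435)⟩, ⟨.ofNat (nat_lit 306116), .ofNat (nat_lit 440213), .ofNat (nat_lit 350426), .ofNat (nat_lit 484523), .ofNat (nat_lit 306433), .ofNat (nat_lit 436368), .ofNat (nat_lit 351268), .ofNat (nat_lit 481203)⟩⟩, [⟨nat_lit 4, nat_lit 100, nat_lit 57, nat_lit 87, nat_lit 302302565⟩, ⟨nat_lit 7, nat_lit 72, nat_lit 100, nat_lit 89, nat_lit 32351206⟩]⟩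
noncomputable def p111_l53 : Lf2 := ⟨nat_lit 0, nat_lit 10, [nat_lit 0, nat_lit 5, nat_lit 5, nat_lit 20], false, nat_lit 160, nat_lit 232, nat_lit 0, nat_lit 364, ⟨nat_lit 197, nat_lit 803, nat_lit 0, nat_lit 6, nat_lit 269, nat_lit 803, nat_lit 152, nat_lit 0, nat_lit 0, nat_lit 0, nat_lit 0, nat_lit 0, nat_lit 40100457, nat_lit 19151986, nat_lit 7747557, nat_lit 4905166, true, true⟩,
 nat_lit 3373, nat_lit 0, nat_lit 0, nat_lit 0, nat_lit 3043, nat_lit 1785, nat_lit 299, nat_lit 0, nat_lit 0, nat_lit 158, nat_lit 0, nat_lit 0, nat_lit 0, nat_lit 0, nat_lit 0, nat_lit 200750, nat_lit 0, nat_lit 0, [(nat_lit 24, [(nat_lit 0, nat_lit 803)])],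
 ⟨p111_k6, nat_lit 0, nat_lit 0, nat_lit 219, nat_lit 0, nat_lit 541496, [nat_lit 797635601, nat_lit 1744415600, nat_lit 2293132800], [], [nat_lit 23638739034, nat_lit 24145067099, nat_lit 26233952896, nat_lit 26672544879, nat_lit 25161764252, nat_lit 25618206046, nat_lit 27491119742, nat_lit 27888328187], nat_lit 1271250, nat_lit 1271250, nat_lit 1271250, nat_lit 1271250, nat_lit 1100001, nat_lit 1716500, [nat_lit 230000, nat_lit 780000, nat_lit 1100000], [nat_lit 35, nat_lit 40, nat_lit 40, nat_lit 80, nat_lit 22, nat_lit 203, nat_lit 0, nat_lit 7]⟩, ⟨p111_k4, nat_lit 0, nat_lit 0, nat_lit 732, nat_lit 0, nat_lit 1054064, [nat_lit 923536000, nat_lit 1569696000, nat_lit 2338784000], [], [nat_lit 7477892984, nat_lit 7527868390, nat_lit 7727724152, nat_lit 7756878722, nat_lit 6576728285, nat_lit 6571932166, nat_lit 6598265278, nat_lit 6581090483], nat_lit 1271250, nat_lit 1271250, nat_lit 1271250, nat_lit 1271250,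 nat_lit 0, nat_lit 2570750, [nat_lit 1100000, nat_lit 1785000, nat_lit 1271250], [nat_lit 21, nat_lit 40, nat_lit 40, nat_lit 80, nat_lit 14, nat_lit 483, nat_lit 250, nat_lit 12]⟩,
 ⟨nat_lit 2236, nat_lit 2739, ⟨.ofNat (nat_lit 603890), .ofNat (nat_lit 722017), .ofNat (nat_lit 626287), .ofNat (nat_lit 744435), .ofNat (nat_lit 602558), .ofNat (nat_lit 716594), .ofNat (nat_lit 625312), .ofNat (nat_lit 739368)⟩, ⟨.ofNat (nat_lit 306433), .ofNat (nat_lit 412743), .ofNat (nat_lit 351268), .ofNat (nat_lit 457578), .ofNat (nat_lit 306337), .ofNat (nat_lit 408965), .ofNat (nat_lit 351886), .ofNat (nat_lit 454514)⟩⟩, [⟨nat_lit 16, nat_lit 48, nat_lit 100, nat_lit 87, nat_lit 331040597⟩, ⟨nat_lit 7, nat_lit 72, nat_lit 100, nat_lit 89, nat_lit 25144675⟩]⟩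
noncomputable def p111_l54 : Lf2 := ⟨nat_lit 0, nat_lit 10, [nat_lit 0, nat_lit 5, nat_lit 5, nat_lit 20], false, nat_lit 160, nat_lit 248, nat_lit 0, nat_lit 352, ⟨nat_lit 331, nat_lit 669, nat_lit 0, nat_lit 6, nat_lit 279, nat_lit 669, nat_lit 157, nat_lit 0, nat_lit 0, nat_lit 0, nat_lit 0, nat_lit 0, nat_lit 39065978, nat_lit 19932709, nat_lit 8001313, nat_lit 4985265, true, true⟩,
 nat_lit 4227, nat_lit 0, nat_lit 0, nat_lit 0, nat_lit 3681, nat_lit 2460, nat_lit 0, nat_lit 0, nat_lit 0, nat_lit 402, nat_lit 0, nat_lit 0, nat_lit 0, nat_lit 0, nat_lit 0, nat_lit 405000, nat_lit 0, nat_lit 0, [(nat_lit 24, [(nat_lit 1, nat_lit 440), (nat_lit 2, nat_lit 229)])],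
 ⟨p111_k1, nat_lit 0, nat_lit 0, nat_lit 246, nat_lit 0, nat_lit 601472, [nat_lit 1019770001, nat_lit 1416897467, nat_lit 1492779200], [], [nat_lit 23457221650, nat_lit 24415600777, nat_lit 26027398236, nat_lit 27218976014, nat_lit 25245109467, nat_lit 26160578288, nat_lit 27781179134, nat_lit 28901577498], nat_lit 1271250, nat_lit 1271250, nat_lit 1271250, nat_lit 1271250, nat_lit 1100001, nat_lit 1853500, [nat_lit 230000, nat_lit 780000, nat_lit 1100000], [nat_lit 35, nat_lit 40, nat_lit 40, nat_lit 80, nat_lit 22, nat_lit 203, nat_lit 0, nat_lit 7]⟩, ⟨p111_k9, nat_lit 0, nat_lit 0, nat_lit 638, nat_lit 0, nat_lit 992233, [nat_lit 1551728000, nat_lit 2637408000, nat_lit 3257702000], [], [nat_lit 10754487166, nat_lit 10869548580, nat_lit 11251342888, nat_lit 11333948560, nat_lit 10047945676, nat_lit 10080736906, nat_lit 10400834394, nat_lit 10461952686], nat_lit 1271250, nat_lit 1271250, nat_lit 1271250, nat_lit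 1271250, nat_lit 0, nat_lit 2486000, [nat_lit 1100000, nat_lit 1785000, nat_lit 1271250], [nat_lit 29, nat_lit 40, nat_lit 40, nat_lit 80, nat_lit 17, nat_lit 483, nat_lit 250, nat_lit 14]⟩,
 ⟨nat_lit 2236, nat_lit 3163, ⟨.ofNat (nat_lit 627331), .ofNat (nat_lit 749323), .ofNat (nat_lit 649422), .ofNat (nat_lit 771478), .ofNat (nat_lit 625251), .ofNat (nat_lit 739368), .ofNat (nat_lit 647962), .ofNat (nat_lit 762142)⟩, ⟨.ofNat (nat_lit 306116), .ofNat (nat_lit 440213), .ofNat (nat_lit 350426), .ofNat (nat_lit 484523), .ofNat (nat_lit 306337), .ofNat (nat_lit 431772), .ofNat (nat_lit 351886), .ofNat (nat_lit 477320)⟩⟩, [⟨nat_lit 4, nat_lit 100, nat_lit 53, nat_lit 87, nat_lit 383910087⟩, ⟨nat_lit 7, nat_lit 82, nat_lit 100, nat_lit 92, nat_lit 56077929⟩]⟩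
noncomputable def p111_l55 : Lf2 := ⟨nat_lit 0, nat_lit 10, [nat_lit 0, nat_lit 5, nat_lit 5, nat_lit 20], false, nat_lit 160, nat_lit 208, nat_lit 0, nat_lit 364, ⟨nat_lit 183, nat_lit 817, nat_lit 0, nat_lit 6, nat_lit 271, nat_lit 817, nat_lit 144, nat_lit 0, nat_lit 0, nat_lit 0, nat_lit 0, nat_lit 0, nat_lit 40386099, nat_lit 19516948, nat_lit 7096953, nat_lit 4830045, true, true⟩,
 nat_lit 3111, nat_lit 0, nat_lit 0, nat_lit 0, nat_lit 2906, nat_lit 1646, nat_lit 63, nat_lit 0, nat_lit 0, nat_lit 137, nat_lit 0, nat_lit 0, nat_lit 0, nat_lit 0, nat_lit 0, nat_lit 326800, nat_lit 0, nat_lit 0, [(nat_lit 27, [(nat_lit 1, nat_lit 817)])],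
 ⟨p111_k5, nat_lit 0, nat_lit 0, nat_lit 235, nat_lit 0, nat_lit 647019, [nat_lit 741593200, nat_lit 865640800], [], [nat_lit 23817806303, nat_lit 24835668203, nat_lit 26390913615, nat_lit 27536914064, nat_lit 24839371307, nat_lit 25790931285, nat_lit 27293601517, nat_lit 28373702356], nat_lit 1271250, nat_lit 1271250, nat_lit 1271250, nat_lit 1271250, nat_lit 1100001, nat_lit 1511000, [nat_lit 230000, nat_lit 780000], [nat_lit 66, nat_lit 40, nat_lit 40, nat_lit 80, nat_lit 67, nat_lit 203, nat_lit 0, nat_lit 9]⟩, ⟨p111_k4, nat_lit 0, nat_lit 0, nat_lit 858, nat_lit 0, nat_lit 1312780, [nat_lit 857904000, nat_lit 1458144000, nat_lit 2172576000], [], [nat_lit 7372750892, nat_lit 7411022696, nat_lit 7489083292, nat_lit 7498421784, nat_lit 6345999632, nat_lit 6307377725, nat_lit 6301658550, nat_lit 6245229675], nat_lit 1271250, nat_lit 1271250, nat_lit 1271250, nat_lit 1271250, nat_lit 0, nat_lit 2570750, [nat_lit 1100000,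 nat_lit 1785000, nat_lit 1271250], [nat_lit 21, nat_lit 40, nat_lit 40, nat_lit 80, nat_lit 14, nat_lit 483, nat_lit 250, nat_lit 12]⟩,
 ⟨nat_lit 0, nat_lit 2237, ⟨.ofNat (nat_lit 602531), .ofNat (nat_lit 716590), .ofNat (nat_lit 646249), .ofNat (nat_lit 762141), .ofNat (nat_lit 599967), .ofNat (nat_lit 699995), .ofNat (nat_lit 648136), .ofNat (nat_lit 749998)⟩, ⟨.ofNat (nat_lit 306334), .ofNat (nat_lit 374750), .ofNat (nat_lit 351885), .ofNat (nat_lit 420300), .ofNat (nat_lit 299996), .ofNat (nat_lit 359993), .ofNat (nat_lit 349998), .ofNat (nat_lit 409994)⟩⟩, [⟨nat_lit 16, nat_lit 32, nat_lit 100, nat_lit 88, nat_lit 295499545⟩, ⟨nat_lit 16, nat_lit 44, nat_lit 100, nat_lit 92, nat_lit 151746501⟩, ⟨nat_lit 19, nat_lit 100, nat_lit 77, nat_lit 91, nat_lit 20389604⟩]⟩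
noncomputable def p111_l56 : Lf2 := ⟨nat_lit 0, nat_lit 10, [nat_lit 0, nat_lit 5, nat_lit 5, nat_lit 20], false, nat_lit 160, nat_lit 248, nat_lit 16, nat_lit 364, ⟨nat_lit 229, nat_lit 771, nat_lit 0, nat_lit 8, nat_lit 303, nat_lit 771, nat_lit 157, nat_lit 0, nat_lit 0, nat_lit 0, nat_lit 0, nat_lit 0, nat_lit 37168597, nat_lit 22101474, nat_lit 7729929, nat_lit 5050941, true, true⟩,
 nat_lit 3751, nat_lit 0, nat_lit 0, nat_lit 0, nat_lit 3266, nat_lit 1985, nat_lit 89, nat_lit 0, nat_lit 0, nat_lit 175, nat_lit 0, nat_lit 0, nat_lit 0, nat_lit 0, nat_lit 0, nat_lit 378000, nat_lit 0, nat_lit 0, [(nat_lit 24, [(nat_lit 1, nat_lit 655), (nat_lit 2, nat_lit 116)])],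
 ⟨p111_k1, nat_lit 0, nat_lit 0, nat_lit 237, nat_lit 0, nat_lit 549682, [nat_lit 940530000, nat_lit 1349986534, nat_lit 1456104800], [], [nat_lit 26445558240, nat_lit 27260087272, nat_lit 27902599286, nat_lit 28774656850, nat_lit 27990990787, nat_lit 28826158090, nat_lit 29427113460, nat_lit 30197231702], nat_lit 1271250, nat_lit 1271250, nat_lit 1271250, nat_lit 1271250, nat_lit 1100001, nat_lit 1853500, [nat_lit 230000, nat_lit 780000, nat_lit 1100000], [nat_lit 35, nat_lit 40, nat_lit 40, nat_lit 80, nat_lit 22, nat_lit 203, nat_lit 0, nat_lit 6]⟩, ⟨p111_k4, nat_lit 0, nat_lit 0, nat_lit 696, nat_lit 0, nat_lit 1025489, [nat_lit 1073552000, nat_lit 1824672000, nat_lit 2718688000], [], [nat_lit 8786416769, nat_lit 8808916022, nat_lit 9045591719, nat_lit 9064964944, nat_lit 7948686913, nat_lit 7950698592, nat_lit 8092278693, nat_lit 8090180979], nat_lit 1271250, nat_lit 1271250, nat_lit 1271250, nat_lit 1271250,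 nat_lit 88400, nat_lit 2598350, [nat_lit 1100000, nat_lit 1785000, nat_lit 1271250], [nat_lit 21, nat_lit 40, nat_lit 40, nat_lit 80, nat_lit 14, nat_lit 401, nat_lit 175, nat_lit 10]⟩,
 ⟨nat_lit 2236, nat_lit 3163, ⟨.ofNat (nat_lit 727168), .ofNat (nat_lit 788122), .ofNat (nat_lit 738246), .ofNat (nat_lit 799199), .ofNat (nat_lit 716594), .ofNat (nat_lit 773609), .ofNat (nat_lit 727981), .ofNat (nat_lit 784996)⟩, ⟨.ofNat (nat_lit 306116), .ofNat (nat_lit 440213), .ofNat (nat_lit 350426), .ofNat (nat_lit 484523), .ofNat (nat_lit 306337), .ofNat (nat_lit 431772), .ofNat (nat_lit 351886), .ofNat (nat_lit 477320)⟩⟩, [⟨nat_lit 13, nat_lit 54, nat_lit 73, nat_lit 100, nat_lit 172200737⟩, ⟨nat_lit 16, nat_lit 53, nat_lit 100, nat_lit 87, nat_lit 309777396⟩, ⟨nat_lit 19, nat_lit 100, nat_lit 59, nat_lit 94, nat_lit 33861366⟩]⟩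
noncomputable def p111_l57 : Lf2 := ⟨nat_lit 0, nat_lit 10, [nat_lit 0, nat_lit 5, nat_lit 5, nat_lit 20], false, nat_lit 160, nat_lit 248, nat_lit 16, nat_lit 360, ⟨nat_lit 294, nat_lit 706, nat_lit 0, nat_lit 8, nat_lit 308, nat_lit 706, nat_lit 157, nat_lit 0, nat_lit 0, nat_lit 0, nat_lit 0, nat_lit 0, nat_lit 36731669, nat_lit 22603556, nat_lit 7664775, nat_lit 5062039, true, true⟩,
 nat_lit 4105, nat_lit 0, nat_lit 0, nat_lit 0, nat_lit 3575, nat_lit 2280, nat_lit 6, nat_lit 0, nat_lit 0, nat_lit 408, nat_lit 0, nat_lit 0, nat_lit 0, nat_lit 0, nat_lit 0, nat_lit 384400, nat_lit 0, nat_lit 0, [(nat_lit 24, [(nat_lit 1, nat_lit 536), (nat_lit 2, nat_lit 170)])],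
 ⟨p111_k1, nat_lit 0, nat_lit 0, nat_lit 244, nat_lit 0, nat_lit 564999, [nat_lit 979860000, nat_lit 1419102667, nat_lit 1534326400], [], [nat_lit 26177737184, nat_lit 27103214050, nat_lit 28205657231, nat_lit 29346401311, nat_lit 27703190988, nat_lit 28797240236, nat_lit 29748500629, nat_lit 30741426573], nat_lit 1271250, nat_lit 1271250, nat_lit 1271250, nat_lit 1271250, nat_lit 1100001, nat_lit 1853500, [nat_lit 230000, nat_lit 780000, nat_lit 1100000], [nat_lit 35, nat_lit 40, nat_lit 40, nat_lit 80, nat_lit 22, nat_lit 203, nat_lit 0, nat_lit 6]⟩, ⟨p111_k13, nat_lit 0, nat_lit 0, nat_lit 619, nat_lit 0, nat_lit 989940, [nat_lit 1378272000, nat_lit 2342592000, nat_lit 2893548000], [], [nat_lit 10751160477, nat_lit 10798217124, nat_lit 11188303150, nat_lit 11224709291, nat_lit 9987961887, nat_lit 9996038178, nat_lit 10195983534, nat_lit 10197671975], nat_lit 1271250, nat_lit 1271250, nat_lit 1271250, nat_lit 1271250,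 nat_lit 88400, nat_lit 2569500, [nat_lit 1100000, nat_lit 1785000, nat_lit 1271250], [nat_lit 29, nat_lit 40, nat_lit 40, nat_lit 80, nat_lit 17, nat_lit 401, nat_lit 175, nat_lit 11]⟩,
 ⟨nat_lit 2236, nat_lit 3163, ⟨.ofNat (nat_lit 738246), .ofNat (nat_lit 805295), .ofNat (nat_lit 749323), .ofNat (nat_lit 816372), .ofNat (nat_lit 727981), .ofNat (nat_lit 790698), .ofNat (nat_lit 739368), .ofNat (nat_lit 802085)⟩, ⟨.ofNat (nat_lit 306116), .ofNat (nat_lit 440213), .ofNat (nat_lit 350426), .ofNat (nat_lit 484523), .ofNat (nat_lit 306337), .ofNat (nat_lit 431772), .ofNat (nat_lit 351886), .ofNat (nat_lit 477320)⟩⟩, [⟨nat_lit 13, nat_lit 55, nat_lit 70, nat_lit 100, nat_lit 228884319⟩, ⟨nat_lit 4, nat_lit 100, nat_lit 53, nat_lit 87, nat_lit 335569146⟩, ⟨nat_lit 19, nat_lit 100, nat_lit 64, nat_lit 95, nat_lit 45843598⟩]⟩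
noncomputable def p111_l58 : Lf2 := ⟨nat_lit 0, nat_lit 10, [nat_lit 0, nat_lit 5, nat_lit 5, nat_lit 20], false, nat_lit 160, nat_lit 208, nat_lit 16, nat_lit 364, ⟨nat_lit 183, nat_lit 817, nat_lit 0, nat_lit 8, nat_lit 293, nat_lit 817, nat_lit 144, nat_lit 0, nat_lit 0, nat_lit 0, nat_lit 0, nat_lit 0, nat_lit 38564741, nat_lit 21551398, nat_lit 6883861, nat_lit 4903340, true, true⟩,
 nat_lit 3074, nat_lit 0, nat_lit 0, nat_lit 0, nat_lit 2871, nat_lit 1627, nat_lit 55, nat_lit 0, nat_lit 0, nat_lit 137, nat_lit 0, nat_lit 0, nat_lit 0, nat_lit 0, nat_lit 0, nat_lit 326800, nat_lit 0, nat_lit 0, [(nat_lit 27, [(nat_lit 1, nat_lit 817)])],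
 ⟨p111_k5, nat_lit 0, nat_lit 0, nat_lit 230, nat_lit 0, nat_lit 619572, [nat_lit 741593200, nat_lit 865640800], [], [nat_lit 26538764965, nat_lit 27492788024, nat_lit 27270863351, nat_lit 28373559792, nat_lit 27393045869, nat_lit 28332718084, nat_lit 28128537339, nat_lit 29155262185], nat_lit 1271250, nat_lit 1271250, nat_lit 1271250, nat_lit 1271250, nat_lit 1100001, nat_lit 1511000, [nat_lit 230000, nat_lit 780000], [nat_lit 66, nat_lit 40, nat_lit 40, nat_lit 80, nat_lit 67, nat_lit 203, nat_lit 0, nat_lit 8]⟩, ⟨p111_k4, nat_lit 0, nat_lit 0, nat_lit 807, nat_lit 0, nat_lit 1257091, [nat_lit 857904000, nat_lit 1458144000, nat_lit 2172576000], [], [nat_lit 7163065848, nat_lit 7190111277, nat_lit 7251520957, nat_lit 7273562890, nat_lit 6298887752, nat_lit 6284274217, nat_lit 6330979457, nat_lit 6313539387], nat_lit 1271250, nat_lit 1271250, nat_lit 1271250, nat_lit 1271250, nat_lit 88400, nat_lit 2598350, [nat_lit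 1100000, nat_lit 1785000, nat_lit 1271250], [nat_lit 21, nat_lit 40, nat_lit 40, nat_lit 80, nat_lit 14, nat_lit 401, nat_lit 175, nat_lit 10]⟩,
 ⟨nat_lit 0, nat_lit 2237, ⟨.ofNat (nat_lit 716590), .ofNat (nat_lit 745097), .ofNat (nat_lit 739366), .ofNat (nat_lit 767872), .ofNat (nat_lit 699995), .ofNat (nat_lit 724995), .ofNat (nat_lit 724997), .ofNat (nat_lit 749995)⟩, ⟨.ofNat (nat_lit 306334), .ofNat (nat_lit 374750), .ofNat (nat_lit 351885), .ofNat (nat_lit 420300), .ofNat (nat_lit 299996), .ofNat (nat_lit 359993), .ofNat (nat_lit 349998), .ofNat (nat_lit 409994)⟩⟩, [⟨nat_lit 13, nat_lit 46, nat_lit 76, nat_lit 100, nat_lit 212232143⟩, ⟨nat_lit 16, nat_lit 44, nat_lit 100, nat_lit 92, nat_lit 389517467⟩, ⟨nat_lit 22, nat_lit 76, nat_lit 71, nat_lit 100, nat_lit 30012490⟩]⟩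
noncomputable def p111_l59 : Lf2 := ⟨nat_lit 0, nat_lit 10, [nat_lit 0, nat_lit 5, nat_lit 5, nat_lit 20], false, nat_lit 160, nat_lit 248, nat_lit 16, nat_lit 352, ⟨nat_lit 387, nat_lit 613, nat_lit 0, nat_lit 8, nat_lit 315, nat_lit 613, nat_lit 155, nat_lit 0, nat_lit 0, nat_lit 0, nat_lit 0, nat_lit 0, nat_lit 36329668, nat_lit 23242732, nat_lit 7427600, nat_lit 5052532, true, true⟩,
 nat_lit 4615, nat_lit 0, nat_lit 0, nat_lit 0, nat_lit 3848, nat_lit 2686, nat_lit 0, nat_lit 0, nat_lit 0, nat_lit 501, nat_lit 0, nat_lit 0, nat_lit 0, nat_lit 0, nat_lit 0, nat_lit 373600, nat_lit 0, nat_lit 0, [(nat_lit 24, [(nat_lit 1, nat_lit 399), (nat_lit 2, nat_lit 214)]), (nat_lit 27, [(nat_lit 1, nat_lit 399), (nat_lit 2, nat_lit 214)])],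
 ⟨p111_k1, nat_lit 0, nat_lit 0, nat_lit 290, nat_lit 0, nat_lit 703676, [nat_lit 1015510000, nat_lit 1566890800, nat_lit 1747544800], [], [nat_lit 26505640384, nat_lit 28724534912, nat_lit 29248695885, nat_lit 31529413511, nat_lit 27923064672, nat_lit 30208851133, nat_lit 30659487243, nat_lit 32641602428], nat_lit 1271250, nat_lit 1271250, nat_lit 1271250, nat_lit 1271250, nat_lit 1100001, nat_lit 1853500, [nat_lit 230000, nat_lit 780000, nat_lit 1100000], [nat_lit 35, nat_lit 40, nat_lit 40, nat_lit 80, nat_lit 22, nat_lit 203, nat_lit 0, nat_lit 6]⟩, ⟨p111_k9, nat_lit 0, nat_lit 0, nat_lit 693, nat_lit 0, nat_lit 1160836, [nat_lit 1814256000, nat_lit 3083616000, nat_lit 3808854000], [], [nat_lit 14098404616, nat_lit 14171140089, nat_lit 14565568849, nat_lit 14616028148, nat_lit 13163165138, nat_lit 13169412912, nat_lit 13390075706, nat_lit 13397331958], nat_lit 1271250, nat_lit 1271250, nat_lit 1271250, nat_lit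 1271250, nat_lit 88400, nat_lit 2511800, [nat_lit 1100000, nat_lit 1785000, nat_lit 1271250], [nat_lit 29, nat_lit 40, nat_lit 40, nat_lit 80, nat_lit 17, nat_lit 401, nat_lit 175, nat_lit 11]⟩,
 ⟨nat_lit 0, nat_lit 3163, ⟨.ofNat (nat_lit 749322), .ofNat (nat_lit 834654), .ofNat (nat_lit 771478), .ofNat (nat_lit 856810), .ofNat (nat_lit 724998), .ofNat (nat_lit 794995), .ofNat (nat_lit 749999), .ofNat (nat_lit 819996)⟩, ⟨.ofNat (nat_lit 306113), .ofNat (nat_lit 440207), .ofNat (nat_lit 350425), .ofNat (nat_lit 484518), .ofNat (nat_lit 299996), .ofNat (nat_lit 409993), .ofNat (nat_lit 349998), .ofNat (nat_lit 459993)⟩⟩, [⟨nat_lit 13, nat_lit 47, nat_lit 74, nat_lit 100, nat_lit 76485237⟩, ⟨nat_lit 4, nat_lit 100, nat_lit 44, nat_lit 87, nat_lit 551421982⟩, ⟨nat_lit 22, nat_lit 67, nat_lit 73, nat_lit 100, nat_lit 86612243⟩]⟩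
noncomputable def b_V_900_600_20_6 : St := ⟨true, nat_lit 1, nat_lit 1, nat_lit 1, nat_lit 120, nat_lit 360, nat_lit 400, nat_lit 240, nat_lit 280, nat_lit 240, nat_lit 376, nat_lit 80, nat_lit 120, nat_lit 8, nat_lit 248, nat_lit 0, nat_lit 364, nat_lit 0, nat_lit 40, nat_lit 0, nat_lit 0, nat_lit 0, nat_lit 0⟩
theorem d_V_900_600_20_6 (h : EB TB.env) : Dead b_V_900_600_20_6 := chkB_sound0 h (T :=
(.spl (nat_lit 4) (nat_lit 160)
(.spl (nat_lit 0) (nat_lit 380)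
(.spl (nat_lit 4) (nat_lit 80)
(.trX (nat_lit 22) (nat_lit 100) (nat_lit 76) (nat_lit 82) (nat_lit 336) (.spl (nat_lit 0) (nat_lit 370)
(.spl (nat_lit 1) (nat_lit 260)
(.trX (nat_lit 13) (nat_lit 63) (nat_lit 61) (nat_lit 100) (nat_lit 364) (.leaf p111_l38))
(.leaf p111_l39))
(.trX (nat_lit 13) (nat_lit 57) (nat_lit 62) (nat_lit 100) (nat_lit 368) (.trZ (nat_lit 3) (nat_lit 100) (nat_lit 66) (nat_lit 45) (nat_lit 12) (.spl (nat_lit 1) (nat_lit 260)
(.trX (nat_lit 13) (nat_lit 55) (nat_lit 68) (nat_lit 100) (nat_lit 352) (.leaf p111_l40))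
(.leaf p111_l41))))))
(.spl (nat_lit 0) (nat_lit 370)
(.spl (nat_lit 1) (nat_lit 260)
(.trX (nat_lit 13) (nat_lit 63) (nat_lit 61) (nat_lit 100) (nat_lit 364) (.leaf p111_l42))
(.trX (nat_lit 19) (nat_lit 100) (nat_lit 69) (nat_lit 96) (nat_lit 352) (.leaf p111_l43)))
(.trX (nat_lit 13) (nat_lit 57) (nat_lit 62) (nat_lit 100) (nat_lit 368) (.spl (nat_lit 1) (nat_lit 260)
(.trX (nat_lit 13) (nat_lit 55) (nat_lit 68) (nat_lit 100) (nat_lit 352) (.leaf p111_l44))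
(.trX (nat_lit 19) (nat_lit 100) (nat_lit 69) (nat_lit 96) (nat_lit 352) (.leaf p111_l45))))))
(.trX (nat_lit 13) (nat_lit 48) (nat_lit 71) (nat_lit 100) (nat_lit 352) (.trZ (nat_lit 3) (nat_lit 100) (nat_lit 54) (nat_lit 57) (nat_lit 20) (.spl (nat_lit 4) (nat_lit 80)
(.trX (nat_lit 22) (nat_lit 100) (nat_lit 76) (nat_lit 82) (nat_lit 336) (.spl (nat_lit 1) (nat_lit 260)
(.trX (nat_lit 13) (nat_lit 46) (nat_lit 76) (nat_lit 100) (nat_lit 340) (.leaf p111_l46))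
(.leaf p111_l47)))
(.spl (nat_lit 0) (nat_lit 390)
(.spl (nat_lit 0) (nat_lit 385)
(.leaf p111_l48)
(.trX (nat_lit 13) (nat_lit 41) (nat_lit 76) (nat_lit 100) (nat_lit 344) (.leaf p111_l49)))
(.trX (nat_lit 13) (nat_lit 34) (nat_lit 81) (nat_lit 100) (nat_lit 336) (.spl (nat_lit 0) (nat_lit 395)
(.leaf p111_l50)
(.trX (nat_lit 13) (nat_lit 24) (nat_lit 88) (nat_lit 100) (nat_lit 320) (.leaf p111_l51)))))))))
(.spl (nat_lit 2) (nat_lit 320)
(.spl (nat_lit 0) (nat_lit 380)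
(.spl (nat_lit 1) (nat_lit 260)
(.spl (nat_lit 0) (nat_lit 370)
(.leaf p111_l52)
(.trX (nat_lit 16) (nat_lit 53) (nat_lit 100) (nat_lit 93) (nat_lit 232) (.leaf p111_l53)))
(.trX (nat_lit 19) (nat_lit 100) (nat_lit 69) (nat_lit 96) (nat_lit 352) (.leaf p111_l54)))
(.trX (nat_lit 16) (nat_lit 44) (nat_lit 100) (nat_lit 92) (nat_lit 208) (.leaf p111_l55)))
(.trZ (nat_lit 9) (nat_lit 100) (nat_lit 82) (nat_lit 44) (nat_lit 16) (.spl (nat_lit 1) (nat_lit 260)
(.trX (nat_lit 13) (nat_lit 63) (nat_lit 61) (nat_lit 100) (nat_lit 364) (.spl (nat_lit 0) (nat_lit 380)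
(.spl (nat_lit 1) (nat_lit 250)
(.trX (nat_lit 13) (nat_lit 62) (nat_lit 65) (nat_lit 100) (nat_lit 360) (.leaf p111_l56))
(.trX (nat_lit 19) (nat_lit 100) (nat_lit 64) (nat_lit 95) (nat_lit 360) (.leaf p111_l57)))
(.trX (nat_lit 13) (nat_lit 46) (nat_lit 76) (nat_lit 100) (nat_lit 340) (.trX (nat_lit 16) (nat_lit 44) (nat_lit 100) (nat_lit 92) (nat_lit 208) (.leaf p111_l58)))))
(.trX (nat_lit 19) (nat_lit 100) (nat_lit 69) (nat_lit 96) (nat_lit 352) (.leaf p111_l59))))))) (by decide +kernel)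
noncomputable def p111_l60 : Lf2 := ⟨nat_lit 0, nat_lit 10, [nat_lit 0, nat_lit 5, nat_lit 5, nat_lit 20], false, nat_lit 8, nat_lit 248, nat_lit 0, nat_lit 160, ⟨nat_lit 687, nat_lit 313, nat_lit 0, nat_lit 6, nat_lit 251, nat_lit 313, nat_lit 94, nat_lit 0, nat_lit 0, nat_lit 0, nat_lit 0, nat_lit 0, nat_lit 0, nat_lit 0, nat_lit 0, nat_lit 5000000, false, false⟩,
 nat_lit 0, nat_lit 4620, nat_lit 0, nat_lit 0, nat_lit 4023, nat_lit 4903, nat_lit 128, nat_lit 0, nat_lit 0, nat_lit 927, nat_lit 0, nat_lit 0, nat_lit 0, nat_lit 0, nat_lit 0, nat_lit 313000, nat_lit 0, nat_lit 0, [(nat_lit 24, [(nat_lit 2, nat_lit 313)]), (nat_lit 27, [(nat_lit 2, nat_lit 313)])],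
 ⟨p111_k1, nat_lit 0, nat_lit 0, nat_lit 540, nat_lit 0, nat_lit 1152489, [nat_lit 1103890001, nat_lit 2106747601, nat_lit 2566110400], [], [nat_lit 29215425972, nat_lit 30919287423, nat_lit 34258583449, nat_lit 35432248251, nat_lit 30392728349, nat_lit 31691273771, nat_lit 34650557260, nat_lit 35519570845], nat_lit 1271250, nat_lit 1271250, nat_lit 719601, nat_lit 2861300, nat_lit 43600, nat_lit 1756600, [nat_lit 230000, nat_lit 780000, nat_lit 1100000], [nat_lit 35, nat_lit 40, nat_lit 40, nat_lit 80, nat_lit 22, nat_lit 401, nat_lit 175, nat_lit 19]⟩, ⟨p111_k4, nat_lit 0, nat_lit 0, nat_lit 241, nat_lit 0, nat_lit 0, [nat_lit 3220656000, nat_lit 5474016000, nat_lit 8156064000], [], [nat_lit 15501609323, nat_lit 17470626670, nat_lit 24636251903, nat_lit 25801952938, nat_lit 12792600566, nat_lit 14250336251, nat_lit 20541381137, nat_lit 21538188430], nat_lit 0, nat_lit 0, nat_lit 0, nat_lit 0, nat_lit 0, nat_lit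 0, [], [nat_lit 21, nat_lit 40, nat_lit 40, nat_lit 80, nat_lit 14, nat_lit 456, nat_lit 225, nat_lit 12]⟩,
 ⟨nat_lit 0, nat_lit 3163, ⟨.ofNat (nat_lit 401957), .ofNat (nat_lit 812499), .ofNat (nat_lit 443658), .ofNat (nat_lit 856810), .ofNat (nat_lit 431745), .ofNat (nat_lit 769995), .ofNat (nat_lit 479136), .ofNat (nat_lit 819996)⟩, ⟨.ofNat (nat_lit 20000), .ofNat (nat_lit 440207), .ofNat (nat_lit 20000), .ofNat (nat_lit 484518), .ofNat (nat_lit 20000), .ofNat (nat_lit 409993), .ofNat (nat_lit 20000), .ofNat (nat_lit 459993)⟩⟩, [⟨nat_lit 0, nat_lit 96, nat_lit 44, nat_lit 100, nat_lit 73831931⟩, ⟨nat_lit 4, nat_lit 100, nat_lit 44, nat_lit 87, nat_lit 365767474⟩]⟩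
noncomputable def p111_l61 : Lf2 := ⟨nat_lit 0, nat_lit 10, [nat_lit 0, nat_lit 5, nat_lit 5, nat_lit 20], true, nat_lit 8, nat_lit 248, nat_lit 160, nat_lit 364, ⟨nat_lit 0, nat_lit 1000, nat_lit 0, nat_lit 6, nat_lit 213, nat_lit 1000, nat_lit 96, nat_lit 0, nat_lit 0, nat_lit 0, nat_lit 0, nat_lit 0, nat_lit 0, nat_lit 0, nat_lit 0, nat_lit 5000000, false, false⟩,
 nat_lit 0, nat_lit 4011, nat_lit 0, nat_lit 0, nat_lit 3493, nat_lit 0, nat_lit 104, nat_lit 0, nat_lit 0, nat_lit 0, nat_lit 0, nat_lit 0, nat_lit 0, nat_lit 0, nat_lit 0, nat_lit 313450, nat_lit 0, nat_lit 0, [(nat_lit 24, [(nat_lit 0, nat_lit 577), (nat_lit 1, nat_lit 423)])],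
 ⟨p111_k1, nat_lit 0, nat_lit 0, nat_lit 467, nat_lit 0, nat_lit 985099, [nat_lit 799070400, nat_lit 1210746400, nat_lit 1387842400], [], [nat_lit 22799894277, nat_lit 23722265657, nat_lit 24784732701, nat_lit 25561942013, nat_lit 24574009355, nat_lit 25309501401, nat_lit 26057649837, nat_lit 26682901996], nat_lit 1271250, nat_lit 1271250, nat_lit 719601, nat_lit 1758000, nat_lit 43600, nat_lit 1756600, [nat_lit 230000, nat_lit 780000, nat_lit 1100000], [nat_lit 35, nat_lit 40, nat_lit 40, nat_lit 80, nat_lit 22, nat_lit 345, nat_lit 125, nat_lit 16]⟩, C1.Rw.none,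
 ⟨nat_lit 2236, nat_lit 3163, ⟨.ofNat (nat_lit 409856), .ofNat (nat_lit 605240), .ofNat (nat_lit 454039), .ofNat (nat_lit 649422), .ofNat (nat_lit 419758), .ofNat (nat_lit 602541), .ofNat (nat_lit 465180), .ofNat (nat_lit 647962)⟩, ⟨.ofNat (nat_lit 20000), .ofNat (nat_lit 440213), .ofNat (nat_lit 20000), .ofNat (nat_lit 484523), .ofNat (nat_lit 20000), .ofNat (nat_lit 431772), .ofNat (nat_lit 20000), .ofNat (nat_lit 477320)⟩⟩, [⟨nat_lit 16, nat_lit 53, nat_lit 100, nat_lit 87, nat_lit 184623879⟩]⟩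
noncomputable def p111_l62 : Lf2 := ⟨nat_lit 0, nat_lit 10, [nat_lit 0, nat_lit 5, nat_lit 5, nat_lit 20], false, nat_lit 8, nat_lit 248, nat_lit 160, nat_lit 364, ⟨nat_lit 684, nat_lit 316, nat_lit 0, nat_lit 6, nat_lit 291, nat_lit 316, nat_lit 96, nat_lit 0, nat_lit 0, nat_lit 0, nat_lit 0, nat_lit 0, nat_lit 0, nat_lit 0, nat_lit 0, nat_lit 5000000, true, true⟩,
 nat_lit 0, nat_lit 4925, nat_lit 0, nat_lit 0, nat_lit 4289, nat_lit 3795, nat_lit 120, nat_lit 0, nat_lit 0, nat_lit 0, nat_lit 0, nat_lit 0, nat_lit 0, nat_lit 0, nat_lit 0, nat_lit 316000, nat_lit 0, nat_lit 0, [(nat_lit 24, [(nat_lit 2, nat_lit 316)])],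
 ⟨p111_k1, nat_lit 0, nat_lit 0, nat_lit 455, nat_lit 0, nat_lit 985099, [nat_lit 1105480000, nat_lit 2095483201, nat_lit 2545772800], [], [nat_lit 27692600622, nat_lit 28557309206, nat_lit 33505978470, nat_lit 34867856758, nat_lit 28423982831, nat_lit 29084973653, nat_lit 31598176851, nat_lit 32200849967], nat_lit 1271250, nat_lit 1271250, nat_lit 1271250, nat_lit 1271250, nat_lit 43600, nat_lit 1756600, [nat_lit 230000, nat_lit 780000, nat_lit 1100000], [nat_lit 35, nat_lit 40, nat_lit 40, nat_lit 80, nat_lit 22, nat_lit 289, nat_lit 75, nat_lit 12]⟩, ⟨p111_k4, nat_lit 0, nat_lit 0, nat_lit 93, nat_lit 0, nat_lit 0, [nat_lit 3206592000, nat_lit 5450112000, nat_lit 8120448000], [], [nat_lit 10868898432, nat_lit 12609871860, nat_lit 17602797068, nat_lit 18702521727, nat_lit 18214918906, nat_lit 19188600079, nat_lit 22359166014, nat_lit 23040970293], nat_lit 0, nat_lit 0, nat_lit 0, nat_lit 0, nat_lit 0, nat_lit 0,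 [], [nat_lit 21, nat_lit 40, nat_lit 40, nat_lit 80, nat_lit 14, nat_lit 538, nat_lit 300, nat_lit 13]⟩,
 ⟨nat_lit 2236, nat_lit 3163, ⟨.ofNat (nat_lit 605240), .ofNat (nat_lit 812503), .ofNat (nat_lit 649422), .ofNat (nat_lit 856813), .ofNat (nat_lit 602541), .ofNat (nat_lit 796416), .ofNat (nat_lit 647962), .ofNat (nat_lit 841964)⟩, ⟨.ofNat (nat_lit 20000), .ofNat (nat_lit 440213), .ofNat (nat_lit 20000), .ofNat (nat_lit 484523), .ofNat (nat_lit 20000), .ofNat (nat_lit 431772), .ofNat (nat_lit 20000), .ofNat (nat_lit 477320)⟩⟩, [⟨nat_lit 16, nat_lit 53, nat_lit 100, nat_lit 87, nat_lit 167096560⟩, ⟨nat_lit 7, nat_lit 77, nat_lit 100, nat_lit 91, nat_lit 293645915⟩]⟩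
noncomputable def p111_l63 : Lf2 := ⟨nat_lit 0, nat_lit 10, [nat_lit 0, nat_lit 5, nat_lit 5, nat_lit 20], false, nat_lit 20, nat_lit 208, nat_lit 160, nat_lit 364, ⟨nat_lit 806, nat_lit 194, nat_lit 0, nat_lit 6, nat_lit 254, nat_lit 194, nat_lit 88, nat_lit 0, nat_lit 0, nat_lit 0, nat_lit 0, nat_lit 0, nat_lit 0, nat_lit 0, nat_lit 0, nat_lit 5000000, false, false⟩,
 nat_lit 0, nat_lit 3903, nat_lit 0, nat_lit 0, nat_lit 3647, nat_lit 5168, nat_lit 477, nat_lit 0, nat_lit 0, nat_lit 0, nat_lit 0, nat_lit 0, nat_lit 0, nat_lit 0, nat_lit 0, nat_lit 77600, nat_lit 0, nat_lit 0, [(nat_lit 27, [(nat_lit 1, nat_lit 194)])],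
 ⟨p111_k5, nat_lit 0, nat_lit 0, nat_lit 426, nat_lit 0, nat_lit 1049832, [nat_lit 891362400, nat_lit 2708225600], [], [nat_lit 23314541368, nat_lit 25115295628, nat_lit 31135962756, nat_lit 32479556836, nat_lit 25065432584, nat_lit 26089850783, nat_lit 30142040316, nat_lit 30878404391], nat_lit 1271250, nat_lit 1271250, nat_lit 1000851, nat_lit 2724650, nat_lit 111251, nat_lit 1474250, [nat_lit 230000, nat_lit 780000], [nat_lit 66, nat_lit 40, nat_lit 40, nat_lit 80, nat_lit 67, nat_lit 272, nat_lit 60, nat_lit 15]⟩, ⟨p111_k7, nat_lit 0, nat_lit 0, nat_lit 65, nat_lit 0, nat_lit 0, [nat_lit 3778528000, nat_lit 9568832000], [], [nat_lit 8265046281, nat_lit 10984260058, nat_lit 18714921991, nat_lit 20303398850, nat_lit 19601429548, nat_lit 21308510657, nat_lit 25908357924, nat_lit 26824493701], nat_lit 0, nat_lit 0, nat_lit 0, nat_lit 0, nat_lit 0, nat_lit 0, [], [nat_lit 116, nat_lit 40, nat_lit 40, nat_lit 80, nat_lit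 65, nat_lit 483, nat_lit 250, nat_lit 12]⟩,
 ⟨nat_lit 0, nat_lit 2237, ⟨.ofNat (nat_lit 467180), .ofNat (nat_lit 762201), .ofNat (nat_lit 510875), .ofNat (nat_lit 807752), .ofNat (nat_lit 480752), .ofNat (nat_lit 739994), .ofNat (nat_lit 528899), .ofNat (nat_lit 789996)⟩, ⟨.ofNat (nat_lit 50000), .ofNat (nat_lit 374750), .ofNat (nat_lit 50000), .ofNat (nat_lit 420300), .ofNat (nat_lit 50000), .ofNat (nat_lit 359993), .ofNat (nat_lit 50000), .ofNat (nat_lit 409994)⟩⟩, [⟨nat_lit 4, nat_lit 100, nat_lit 32, nat_lit 88, nat_lit 591205751⟩, ⟨nat_lit 19, nat_lit 100, nat_lit 59, nat_lit 94, nat_lit 389221528⟩]⟩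
noncomputable def p111_l64 : Lf2 := ⟨nat_lit 0, nat_lit 10, [nat_lit 0, nat_lit 5, nat_lit 5, nat_lit 20], false, nat_lit 8, nat_lit 248, nat_lit 0, nat_lit 364, ⟨nat_lit 0, nat_lit 1000, nat_lit 0, nat_lit 6, nat_lit 213, nat_lit 1000, nat_lit 94, nat_lit 0, nat_lit 0, nat_lit 0, nat_lit 0, nat_lit 0, nat_lit 0, nat_lit 0, nat_lit 0, nat_lit 5000000, false, false⟩,
 nat_lit 0, nat_lit 3642, nat_lit 0, nat_lit 0, nat_lit 3172, nat_lit 0, nat_lit 146, nat_lit 0, nat_lit 0, nat_lit 0, nat_lit 0, nat_lit 0, nat_lit 0, nat_lit 0, nat_lit 0, nat_lit 343900, nat_lit 0, nat_lit 0, [(nat_lit 24, [(nat_lit 0, nat_lit 374), (nat_lit 1, nat_lit 626)]), (nat_lit 27, [(nat_lit 0, nat_lit 374), (nat_lit 1, nat_lit 626)])],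
 ⟨p111_k1, nat_lit 0, nat_lit 0, nat_lit 369, nat_lit 0, nat_lit 703676, [nat_lit 822867200, nat_lit 1135663467, nat_lit 1235348800], [], [nat_lit 21706433744, nat_lit 24175824176, nat_lit 24268028255, nat_lit 26531142349, nat_lit 24416037138, nat_lit 26247100521, nat_lit 26482568798, nat_lit 28051513357], nat_lit 1271250, nat_lit 1271250, nat_lit 719601, nat_lit 1758000, nat_lit 43600, nat_lit 1756600, [nat_lit 230000, nat_lit 780000, nat_lit 1100000], [nat_lit 35, nat_lit 40, nat_lit 40, nat_lit 80, nat_lit 22, nat_lit 345, nat_lit 125, nat_lit 16]⟩, ⟨p111_k4, nat_lit 0, nat_lit 0, nat_lit 906, nat_lit 0, nat_lit 1312780, [nat_lit 0, nat_lit 0, nat_lit 0], [], [nat_lit 0, nat_lit 0, nat_lit 0, nat_lit 0, nat_lit 0, nat_lit 0, nat_lit 0, nat_lit 0], nat_lit 1271250, nat_lit 1271250, nat_lit 719601, nat_lit 1758000, nat_lit 0, nat_lit 2570750, [nat_lit 1100000, nat_lit 1785000, nat_lit 1271250], [nat_lit 21, nat_lit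 40, nat_lit 40, nat_lit 80, nat_lit 14, nat_lit 456, nat_lit 225, nat_lit 12]⟩,
 ⟨nat_lit 0, nat_lit 3163, ⟨.ofNat (nat_lit 401957), .ofNat (nat_lit 605128), .ofNat (nat_lit 443658), .ofNat (nat_lit 646918), .ofNat (nat_lit 431745), .ofNat (nat_lit 599865), .ofNat (nat_lit 479136), .ofNat (nat_lit 647345)⟩, ⟨.ofNat (nat_lit 20000), .ofNat (nat_lit 440207), .ofNat (nat_lit 20000), .ofNat (nat_lit 484518), .ofNat (nat_lit 20000), .ofNat (nat_lit 409993), .ofNat (nat_lit 20000), .ofNat (nat_lit 459993)⟩⟩, [⟨nat_lit 4, nat_lit 100, nat_lit 44, nat_lit 87, nat_lit 232748456⟩]⟩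
noncomputable def p111_l65 : Lf2 := ⟨nat_lit 0, nat_lit 10, [nat_lit 0, nat_lit 5, nat_lit 5, nat_lit 20], false, nat_lit 8, nat_lit 248, nat_lit 0, nat_lit 364, ⟨nat_lit 246, nat_lit 754, nat_lit 0, nat_lit 6, nat_lit 291, nat_lit 754, nat_lit 96, nat_lit 0, nat_lit 0, nat_lit 0, nat_lit 0, nat_lit 0, nat_lit 0, nat_lit 0, nat_lit 0, nat_lit 5000000, true, true⟩,
 nat_lit 3940, nat_lit 0, nat_lit 0, nat_lit 0, nat_lit 3431, nat_lit 2085, nat_lit 117, nat_lit 0, nat_lit 0, nat_lit 160, nat_lit 0, nat_lit 0, nat_lit 0, nat_lit 0, nat_lit 0, nat_lit 317200, nat_lit 0, nat_lit 0, [(nat_lit 24, [(nat_lit 1, nat_lit 728), (nat_lit 2, nat_lit 26)])],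
 ⟨p111_k1, nat_lit 0, nat_lit 0, nat_lit 333, nat_lit 0, nat_lit 601472, [nat_lit 886260000, nat_lit 1521137867, nat_lit 1793680000], [], [nat_lit 25530799559, nat_lit 26458340531, nat_lit 31170257631, nat_lit 32396213138, nat_lit 27059793937, nat_lit 27800867823, nat_lit 30548990616, nat_lit 31134870511], nat_lit 1271250, nat_lit 1271250, nat_lit 1271250, nat_lit 1271250, nat_lit 43600, nat_lit 1756600, [nat_lit 230000, nat_lit 780000, nat_lit 1100000], [nat_lit 35, nat_lit 40, nat_lit 40, nat_lit 80, nat_lit 22, nat_lit 289, nat_lit 75, nat_lit 12]⟩, ⟨p111_k4, nat_lit 0, nat_lit 0, nat_lit 758, nat_lit 0, nat_lit 1122108, [nat_lit 1153248000, nat_lit 1960128000, nat_lit 2920512000], [], [nat_lit 10151143796, nat_lit 10230580676, nat_lit 10644508770, nat_lit 10652820572, nat_lit 8977747162, nat_lit 8976561820, nat_lit 9164552638, nat_lit 9128423331], nat_lit 1271250, nat_lit 1271250, nat_lit 1271250, nat_lit 1271250,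 nat_lit 0, nat_lit 2570750, [nat_lit 1100000, nat_lit 1785000, nat_lit 1271250], [nat_lit 21, nat_lit 40, nat_lit 40, nat_lit 80, nat_lit 14, nat_lit 538, nat_lit 300, nat_lit 13]⟩,
 ⟨nat_lit 2236, nat_lit 3163, ⟨.ofNat (nat_lit 605240), .ofNat (nat_lit 812503), .ofNat (nat_lit 649422), .ofNat (nat_lit 856813), .ofNat (nat_lit 602541), .ofNat (nat_lit 796416), .ofNat (nat_lit 647962), .ofNat (nat_lit 841964)⟩, ⟨.ofNat (nat_lit 20000), .ofNat (nat_lit 440213), .ofNat (nat_lit 20000), .ofNat (nat_lit 484523), .ofNat (nat_lit 20000), .ofNat (nat_lit 431772), .ofNat (nat_lit 20000), .ofNat (nat_lit 477320)⟩⟩, [⟨nat_lit 13, nat_lit 55, nat_lit 68, nat_lit 100, nat_lit 162547667⟩, ⟨nat_lit 4, nat_lit 100, nat_lit 53, nat_lit 87, nat_lit 119220435⟩, ⟨nat_lit 19, nat_lit 100, nat_lit 77, nat_lit 91, nat_lit 29875773⟩]⟩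
noncomputable def p111_l66 : Lf2 := ⟨nat_lit 0, nat_lit 10, [nat_lit 0, nat_lit 5, nat_lit 5, nat_lit 20], false, nat_lit 20, nat_lit 208, nat_lit 0, nat_lit 364, ⟨nat_lit 198, nat_lit 802, nat_lit 0, nat_lit 6, nat_lit 280, nat_lit 802, nat_lit 88, nat_lit 0, nat_lit 0, nat_lit 0, nat_lit 0, nat_lit 0, nat_lit 0, nat_lit 0, nat_lit 0, nat_lit 5000000, true, true⟩,
 nat_lit 3270, nat_lit 0, nat_lit 0, nat_lit 0, nat_lit 3055, nat_lit 1731, nat_lit 102, nat_lit 0, nat_lit 0, nat_lit 133, nat_lit 0, nat_lit 0, nat_lit 0, nat_lit 0, nat_lit 0, nat_lit 320800, nat_lit 0, nat_lit 0, [(nat_lit 27, [(nat_lit 1, nat_lit 802)])],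
 ⟨p111_k5, nat_lit 0, nat_lit 0, nat_lit 301, nat_lit 0, nat_lit 647019, [nat_lit 745199200, nat_lit 910004800], [], [nat_lit 24314123223, nat_lit 25929948590, nat_lit 29629941515, nat_lit 30869434288, nat_lit 25315145314, nat_lit 26279451497, nat_lit 28867392984, nat_lit 29889545079], nat_lit 1271250, nat_lit 1271250, nat_lit 1271250, nat_lit 1271250, nat_lit 111251, nat_lit 1474250, [nat_lit 230000, nat_lit 780000], [nat_lit 66, nat_lit 40, nat_lit 40, nat_lit 80, nat_lit 67, nat_lit 272, nat_lit 60, nat_lit 14]⟩, ⟨p111_k4, nat_lit 0, nat_lit 0, nat_lit 858, nat_lit 0, nat_lit 1312780, [nat_lit 928224000, nat_lit 1577664000, nat_lit 2350656000], [], [nat_lit 8255106272, nat_lit 8282300376, nat_lit 8467127777, nat_lit 8467437080, nat_lit 7187180375, nat_lit 7149773235, nat_lit 7170120455, nat_lit 7105626635], nat_lit 1271250, nat_lit 1271250, nat_lit 1271250, nat_lit 1271250, nat_lit 0, nat_lit 2570750, [nat_lit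 1100000, nat_lit 1785000, nat_lit 1271250], [nat_lit 21, nat_lit 40, nat_lit 40, nat_lit 80, nat_lit 14, nat_lit 483, nat_lit 250, nat_lit 12]⟩,
 ⟨nat_lit 0, nat_lit 2237, ⟨.ofNat (nat_lit 602531), .ofNat (nat_lit 762201), .ofNat (nat_lit 646249), .ofNat (nat_lit 807752), .ofNat (nat_lit 599967), .ofNat (nat_lit 739994), .ofNat (nat_lit 648136), .ofNat (nat_lit 789996)⟩, ⟨.ofNat (nat_lit 50000), .ofNat (nat_lit 374750), .ofNat (nat_lit 50000), .ofNat (nat_lit 420300), .ofNat (nat_lit 50000), .ofNat (nat_lit 359993), .ofNat (nat_lit 50000), .ofNat (nat_lit 409994)⟩⟩, [⟨nat_lit 13, nat_lit 33, nat_lit 85, nat_lit 100, nat_lit 68453710⟩, ⟨nat_lit 13, nat_lit 48, nat_lit 71, nat_lit 100, nat_lit 231017184⟩, ⟨nat_lit 4, nat_lit 100, nat_lit 32, nat_lit 88, nat_lit 158232884⟩, ⟨nat_lit 19, nat_lit 100, nat_lit 77, nat_lit 91, nat_lit 22019065⟩]⟩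
noncomputable def b_V_900_600_20_7 : St := ⟨true, nat_lit 1, nat_lit 2, nat_lit 2, nat_lit 120, nat_lit 360, nat_lit 400, nat_lit 240, nat_lit 280, nat_lit 112, nat_lit 376, nat_lit 80, nat_lit 120, nat_lit 8, nat_lit 248, nat_lit 0, nat_lit 364, nat_lit 0, nat_lit 40, nat_lit 0, nat_lit 0, nat_lit 0, nat_lit 0⟩
theorem d_V_900_600_20_7 (h : EB TB.env) : Dead b_V_900_600_20_7 := chkB_sound0 h (T :=
(.st (nat_lit 1)
(.spl (nat_lit 5) (nat_lit 160)
(.leaf p111_l60)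
(.spl (nat_lit 0) (nat_lit 380)
(.spl (nat_lit 2) (nat_lit 240)
(.leaf p111_l61)
(.leaf p111_l62))
(.trZ (nat_lit 0) (nat_lit 100) (nat_lit 44) (nat_lit 99) (nat_lit 148) (.trX (nat_lit 13) (nat_lit 48) (nat_lit 71) (nat_lit 100) (nat_lit 352) (.trZ (nat_lit 3) (nat_lit 100) (nat_lit 54) (nat_lit 57) (nat_lit 20) (.trX (nat_lit 16) (nat_lit 44) (nat_lit 100) (nat_lit 92) (nat_lit 208) (.leaf p111_l63)))))))
(.spl (nat_lit 2) (nat_lit 240)
(.leaf p111_l64)
(.spl (nat_lit 0) (nat_lit 380)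
(.leaf p111_l65)
(.trX (nat_lit 13) (nat_lit 48) (nat_lit 71) (nat_lit 100) (nat_lit 352) (.trZ (nat_lit 3) (nat_lit 100) (nat_lit 54) (nat_lit 57) (nat_lit 20) (.trX (nat_lit 16) (nat_lit 44) (nat_lit 100) (nat_lit 92) (nat_lit 208) (.leaf p111_l66)))))))) (by decide +kernel)
noncomputable def p111_l67 : Lf2 := ⟨nat_lit 0, nat_lit 20, [nat_lit 5, nat_lit 5, nat_lit 5, nat_lit 20], false, nat_lit 8, nat_lit 160, nat_lit 0, nat_lit 364, ⟨nat_lit 314, nat_lit 0, nat_lit 686, nat_lit 6, nat_lit 213, nat_lit 686, nat_lit 69, nat_lit 686, nat_lit 45067, nat_lit 267, nat_lit 23440, nat_lit 200, nat_lit 49790652, nat_lit 0, nat_lit 0, nat_lit 3556602, false, false⟩,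
 nat_lit 0, nat_lit 0, nat_lit 0, nat_lit 415, nat_lit 3186, nat_lit 3666, nat_lit 0, nat_lit 0, nat_lit 0, nat_lit 256, nat_lit 0, nat_lit 0, nat_lit 0, nat_lit 0, nat_lit 0, nat_lit 197750, nat_lit 0, nat_lit 0, [(nat_lit 25, [(nat_lit 4, nat_lit 651), (nat_lit 6, nat_lit 35)]), (nat_lit 28, [(nat_lit 4, nat_lit 651), (nat_lit 6, nat_lit 35)])],
 ⟨p111_k14, nat_lit 0, nat_lit 0, nat_lit 171, nat_lit 0, nat_lit 0, [nat_lit 874683601, nat_lit 639547201, nat_lit 476120000], [], [nat_lit 20266431560, nat_lit 24213569968, nat_lit 23239675792, nat_lit 26564710015, nat_lit 20426265083, nat_lit 22715862672, nat_lit 22813217179, nat_lit 24822821920], nat_lit 0, nat_lit 0, nat_lit 0, nat_lit 0, nat_lit 0, nat_lit 0, [], [nat_lit 55, nat_lit 40, nat_lit 40, nat_lit 80, nat_lit 3, nat_lit 317, nat_lit 100, nat_lit 12]⟩, ⟨p111_k15, nat_lit 0, nat_lit 0, nat_lit 287, nat_lit 0, nat_lit 0, [nat_lit 1472032000, nat_lit 3090388000,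 nat_lit 4414212000], [], [nat_lit 10207121476, nat_lit 11193033484, nat_lit 10577506160, nat_lit 11299861872, nat_lit 10074324489, nat_lit 10419003610, nat_lit 9649630772, nat_lit 10029624602], nat_lit 0, nat_lit 0, nat_lit 0, nat_lit 0, nat_lit 0, nat_lit 0, [], [nat_lit 56, nat_lit 40, nat_lit 40, nat_lit 80, nat_lit 32, nat_lit 456, nat_lit 225, nat_lit 11]⟩,
 ⟨nat_lit 0, nat_lit 3163, ⟨.ofNat (nat_lit 401957), .ofNat (nat_lit 605128), .ofNat (nat_lit 443658), .ofNat (nat_lit 646918), .ofNat (nat_lit 431745), .ofNat (nat_lit 599865), .ofNat (nat_lit 479136), .ofNat (nat_lit 647345)⟩, ⟨.ofNat (nat_lit 20000), .ofNat (nat_lit 306113), .ofNat (nat_lit 20000), .ofNat (nat_lit 350425), .ofNat (nat_lit 20000), .ofNat (nat_lit 299996), .ofNat (nat_lit 20000), .ofNat (nat_lit 349998)⟩⟩, [⟨nat_lit 0, nat_lit 100, nat_lit 61, nat_lit 92, nat_lit 115074967⟩, ⟨nat_lit 3, nat_lit 100, nat_lit 50, nat_lit 65, nat_lit 20041541⟩,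 ⟨nat_lit 7, nat_lit 77, nat_lit 100, nat_lit 91, nat_lit 48560572⟩]⟩
noncomputable def p111_l68 : Lf2 := ⟨nat_lit 0, nat_lit 20, [nat_lit 5, nat_lit 5, nat_lit 5, nat_lit 20], true, nat_lit 160, nat_lit 248, nat_lit 0, nat_lit 364, ⟨nat_lit 0, nat_lit 1000, nat_lit 0, nat_lit 6, nat_lit 213, nat_lit 1000, nat_lit 155, nat_lit 0, nat_lit 0, nat_lit 0, nat_lit 0, nat_lit 0, nat_lit 44587332, nat_lit 13947209, nat_lit 8465459, nat_lit 4612048, false, false⟩,
 nat_lit 0, nat_lit 0, nat_lit 0, nat_lit 2621, nat_lit 3739, nat_lit 0, nat_lit 0, nat_lit 0, nat_lit 0, nat_lit 0, nat_lit 0, nat_lit 0, nat_lit 0, nat_lit 0, nat_lit 0, nat_lit 250000, nat_lit 0, nat_lit 0, [(nat_lit 25, [(nat_lit 0, nat_lit 1000)]), (nat_lit 28, [(nat_lit 0, nat_lit 1000)])],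
 ⟨p111_k14, nat_lit 0, nat_lit 0, nat_lit 79, nat_lit 0, nat_lit 0, [nat_lit 781600001, nat_lit 1715600001, nat_lit 2118000000], [], [nat_lit 19675001186, nat_lit 23061651725, nat_lit 22512080369, nat_lit 25383962080, nat_lit 22382864348, nat_lit 25484141266, nat_lit 24668616166, nat_lit 27345616199], nat_lit 0, nat_lit 0, nat_lit 0, nat_lit 0, nat_lit 0, nat_lit 0, [], [nat_lit 55, nat_lit 40, nat_lit 40, nat_lit 80, nat_lit 3, nat_lit 345, nat_lit 125, nat_lit 12]⟩, C1.Rw.none,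
 ⟨nat_lit 0, nat_lit 3163, ⟨.ofNat (nat_lit 401957), .ofNat (nat_lit 605128), .ofNat (nat_lit 443658), .ofNat (nat_lit 646918), .ofNat (nat_lit 431745), .ofNat (nat_lit 599865), .ofNat (nat_lit 479136), .ofNat (nat_lit 647345)⟩, ⟨.ofNat (nat_lit 306113), .ofNat (nat_lit 440207), .ofNat (nat_lit 350425), .ofNat (nat_lit 484518), .ofNat (nat_lit 299996), .ofNat (nat_lit 409993), .ofNat (nat_lit 349998), .ofNat (nat_lit 459993)⟩⟩, [⟨nat_lit 16, nat_lit 62, nat_lit 100, nat_lit 94, nat_lit 214240759⟩]⟩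
noncomputable def p111_l69 : Lf2 := ⟨nat_lit 0, nat_lit 20, [nat_lit 5, nat_lit 5, nat_lit 5, nat_lit 20], false, nat_lit 8, nat_lit 248, nat_lit 0, nat_lit 364, ⟨nat_lit 1000, nat_lit 0, nat_lit 0, nat_lit 0, nat_lit 0, nat_lit 0, nat_lit 0, nat_lit 0, nat_lit 0, nat_lit 0, nat_lit 0, nat_lit 0, nat_lit 0, nat_lit 0, nat_lit 0, nat_lit 0, false, false⟩,
 nat_lit 0, nat_lit 0, nat_lit 0, nat_lit 0, nat_lit 6642, nat_lit 9907, nat_lit 0, nat_lit 0, nat_lit 0, nat_lit 719, nat_lit 0, nat_lit 0, nat_lit 0, nat_lit 0, nat_lit 0, nat_lit 0, nat_lit 0, nat_lit 0, [],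
 ⟨p111_k14, nat_lit 0, nat_lit 0, nat_lit 180, nat_lit 0, nat_lit 0, [nat_lit 938000000, nat_lit 4688000000, nat_lit 6250000000], [], [nat_lit 30508924020, nat_lit 34851128037, nat_lit 39911515922, nat_lit 43380788359, nat_lit 28175556764, nat_lit 30870484379, nat_lit 33823012072, nat_lit 36393743931], nat_lit 0, nat_lit 0, nat_lit 0, nat_lit 0, nat_lit 0, nat_lit 0, [], [nat_lit 55, nat_lit 40, nat_lit 40, nat_lit 80, nat_lit 3, nat_lit 289, nat_lit 75, nat_lit 10]⟩, ⟨p111_k15, nat_lit 0, nat_lit 0, nat_lit 284, nat_lit 0, nat_lit 0, [nat_lit 4688000000, nat_lit 9842000000, nat_lit 14058000000], [], [nat_lit 33762253912, nat_lit 35882885580, nat_lit 43101859927, nat_lit 44155925088, nat_lit 31790015789, nat_lit 32950566634, nat_lit 37760765657, nat_lit 38780557557], nat_lit 0, nat_lit 0, nat_lit 0, nat_lit 0, nat_lit 0, nat_lit 0, [], [nat_lit 56, nat_lit 40, nat_lit 40, nat_lit 80, nat_lit 32, nat_lit 538, nat_lit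 300, nat_lit 12]⟩,
 zbF0, [⟨nat_lit 4, nat_lit 100, nat_lit 44, nat_lit 87, nat_lit 63488819⟩, ⟨nat_lit 19, nat_lit 100, nat_lit 59, nat_lit 94, nat_lit 130710425⟩]⟩
noncomputable def b_V_900_600_20_8 : St := ⟨true, nat_lit 0, nat_lit 0, nat_lit 1, nat_lit 120, nat_lit 360, nat_lit 400, nat_lit 240, nat_lit 280, nat_lit 112, nat_lit 376, nat_lit 80, nat_lit 120, nat_lit 8, nat_lit 248, nat_lit 0, nat_lit 364, nat_lit 40, nat_lit 80, nat_lit 0, nat_lit 0, nat_lit 0, nat_lit 0⟩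
theorem d_V_900_600_20_8 (h : EB TB.env) : Dead b_V_900_600_20_8 := chkB_sound0 h (T :=
(.spl (nat_lit 2) (nat_lit 240)
(.spl (nat_lit 4) (nat_lit 160)
(.leaf p111_l67)
(.leaf p111_l68))
(.leaf p111_l69))) (by decide +kernel)
noncomputable def p111_l70 : Lf2 := ⟨nat_lit 0, nat_lit 20, [nat_lit 5, nat_lit 5, nat_lit 5, nat_lit 20], false, nat_lit 8, nat_lit 80, nat_lit 0, nat_lit 160, ⟨nat_lit 78, nat_lit 77, nat_lit 845, nat_lit 6, nat_lit 213, nat_lit 922, nat_lit 43, nat_lit 845, nat_lit 17067, nat_lit 247, nat_lit 27594, nat_lit 200, nat_lit 51034814, nat_lit 14710133, nat_lit 1255053, nat_lit 3175039, false, false⟩,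
 nat_lit 0, nat_lit 0, nat_lit 1421, nat_lit 0, nat_lit 2187, nat_lit 752, nat_lit 0, nat_lit 0, nat_lit 0, nat_lit 55, nat_lit 0, nat_lit 0, nat_lit 0, nat_lit 0, nat_lit 47, nat_lit 230500, nat_lit 0, nat_lit 0, [(nat_lit 25, [(nat_lit 0, nat_lit 77), (nat_lit 4, nat_lit 845)])],
 ⟨p111_k16, nat_lit 0, nat_lit 0, nat_lit 146, nat_lit 0, nat_lit 0, [nat_lit 935152001, nat_lit 619616267, nat_lit 53362133], [], [nat_lit 18610051123, nat_lit 19931322280, nat_lit 21659411288, nat_lit 22771835593, nat_lit 18296277393, nat_lit 19548725951, nat_lit 21306005667, nat_lit 22367088556], nat_lit 0, nat_lit 0, nat_lit 0, nat_lit 0, nat_lit 0, nat_lit 0, [], [nat_lit 20, nat_lit 40, nat_lit 40, nat_lit 80, nat_lit 16, nat_lit 317, nat_lit 100, nat_lit 12]⟩, ⟨p111_k17, nat_lit 0, nat_lit 0, nat_lit 1006, nat_lit 0, nat_lit 1389506, [nat_lit 365664000, nat_lit 621504000, nat_lit 1096524000], [], [nat_lit 4408865282, nat_lit 3598767567,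 nat_lit 2897853420, nat_lit 2892293936, nat_lit 2561401387, nat_lit 2559230339, nat_lit 2820910736, nat_lit 2407661216], nat_lit 1271250, nat_lit 1271250, nat_lit 719601, nat_lit 1758000, nat_lit 0, nat_lit 1100001, [nat_lit 1100000, nat_lit 1785000, nat_lit 1271250], [nat_lit 37, nat_lit 40, nat_lit 40, nat_lit 80, nat_lit 28, nat_lit 401, nat_lit 175, nat_lit 9]⟩,
 ⟨nat_lit 2236, nat_lit 3163, ⟨.ofNat (nat_lit 409856), .ofNat (nat_lit 605240), .ofNat (nat_lit 454039), .ofNat (nat_lit 649422), .ofNat (nat_lit 419758), .ofNat (nat_lit 602541), .ofNat (nat_lit 465180), .ofNat (nat_lit 647962)⟩, ⟨.ofNat (nat_lit 20000), .ofNat (nat_lit 184209), .ofNat (nat_lit 20000), .ofNat (nat_lit 200000), .ofNat (nat_lit 20000), .ofNat (nat_lit 192306), .ofNat (nat_lit 20000), .ofNat (nat_lit 200000)⟩⟩, [⟨nat_lit 3, nat_lit 100, nat_lit 61, nat_lit 55, nat_lit 105502757⟩, ⟨nat_lit 3, nat_lit 100, nat_lit 48, nat_lit 71, nat_lit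 132009074⟩]⟩
noncomputable def p111_l71 : Lf2 := ⟨nat_lit 0, nat_lit 20, [nat_lit 5, nat_lit 5, nat_lit 5, nat_lit 20], true, nat_lit 8, nat_lit 80, nat_lit 160, nat_lit 364, ⟨nat_lit 0, nat_lit 228, nat_lit 772, nat_lit 6, nat_lit 208, nat_lit 1000, nat_lit 43, nat_lit 772, nat_lit 17067, nat_lit 247, nat_lit 2400, nat_lit 203, nat_lit 51502790, nat_lit 14240024, nat_lit 1257186, nat_lit 3130691, false, false⟩,
 nat_lit 0, nat_lit 0, nat_lit 0, nat_lit 3604, nat_lit 2166, nat_lit 0, nat_lit 0, nat_lit 0, nat_lit 0, nat_lit 0, nat_lit 0, nat_lit 0, nat_lit 0, nat_lit 0, nat_lit 48, nat_lit 250000, nat_lit 0, nat_lit 0, [(nat_lit 25, [(nat_lit 0, nat_lit 228), (nat_lit 4, nat_lit 772)])],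
 ⟨p111_k16, nat_lit 0, nat_lit 0, nat_lit 146, nat_lit 0, nat_lit 0, [nat_lit 928208001, nat_lit 608725334, nat_lit 40833066], [], [nat_lit 18565696938, nat_lit 19881693835, nat_lit 21616582139, nat_lit 22728002442, nat_lit 18266289945, nat_lit 19513826956, nat_lit 21277241444, nat_lit 22341290740], nat_lit 0, nat_lit 0, nat_lit 0, nat_lit 0, nat_lit 0, nat_lit 0, [], [nat_lit 20, nat_lit 40, nat_lit 40, nat_lit 80, nat_lit 16, nat_lit 317, nat_lit 100, nat_lit 12]⟩, C1.Rw.none,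
 ⟨nat_lit 2236, nat_lit 3163, ⟨.ofNat (nat_lit 409856), .ofNat (nat_lit 605240), .ofNat (nat_lit 431948), .ofNat (nat_lit 627331), .ofNat (nat_lit 419758), .ofNat (nat_lit 602541), .ofNat (nat_lit 442469), .ofNat (nat_lit 625251)⟩, ⟨.ofNat (nat_lit 20000), .ofNat (nat_lit 184209), .ofNat (nat_lit 20000), .ofNat (nat_lit 200000), .ofNat (nat_lit 20000), .ofNat (nat_lit 192306), .ofNat (nat_lit 20000), .ofNat (nat_lit 200000)⟩⟩, [⟨nat_lit 3, nat_lit 100, nat_lit 61, nat_lit 55, nat_lit 239020487⟩]⟩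
noncomputable def p111_l72 : Lf2 := ⟨nat_lit 0, nat_lit 20, [nat_lit 5, nat_lit 5, nat_lit 5, nat_lit 20], false, nat_lit 8, nat_lit 80, nat_lit 160, nat_lit 352, ⟨nat_lit 114, nat_lit 4, nat_lit 882, nat_lit 6, nat_lit 223, nat_lit 886, nat_lit 43, nat_lit 881, nat_lit 17067, nat_lit 247, nat_lit 27594, nat_lit 200, nat_lit 49946903, nat_lit 15804418, nat_lit 1248679, nat_lit 3272138, false, false⟩,
 nat_lit 0, nat_lit 0, nat_lit 1645, nat_lit 0, nat_lit 2196, nat_lit 957, nat_lit 0, nat_lit 0, nat_lit 0, nat_lit 112, nat_lit 0, nat_lit 0, nat_lit 0, nat_lit 0, nat_lit 46, nat_lit 221500, nat_lit 0, nat_lit 0, [(nat_lit 25, [(nat_lit 0, nat_lit 4), (nat_lit 4, nat_lit 882)])],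
 ⟨p111_k16, nat_lit 0, nat_lit 0, nat_lit 142, nat_lit 0, nat_lit 0, [nat_lit 936084001, nat_lit 612456801, nat_lit 35600799], [], [nat_lit 18928451892, nat_lit 20220661901, nat_lit 21666547704, nat_lit 22791028001, nat_lit 18617987083, nat_lit 19843087125, nat_lit 21307114257, nat_lit 22379111620], nat_lit 0, nat_lit 0, nat_lit 0, nat_lit 0, nat_lit 0, nat_lit 0, [], [nat_lit 20, nat_lit 40, nat_lit 40, nat_lit 80, nat_lit 16, nat_lit 317, nat_lit 100, nat_lit 12]⟩, ⟨p111_k18, nat_lit 0, nat_lit 0, nat_lit 729, nat_lit 0, nat_lit 1204723, [nat_lit 534432000, nat_lit 908352000, nat_lit 1353408000], [], [nat_lit 4480642335, nat_lit 3969146889, nat_lit 3166056996, nat_lit 3187152792, nat_lit 3397908063, nat_lit 3406949700, nat_lit 3262590144, nat_lit 3279034726], nat_lit 1271250, nat_lit 1271250, nat_lit 872850, nat_lit 1769250, nat_lit 1271250, nat_lit 1271250, [nat_lit 1100000, nat_lit 1785000, nat_lit 1271250], [nat_lit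 21, nat_lit 40, nat_lit 40, nat_lit 80, nat_lit 14, nat_lit 456, nat_lit 225, nat_lit 11]⟩,
 ⟨nat_lit 2236, nat_lit 3163, ⟨.ofNat (nat_lit 462477), .ofNat (nat_lit 627331), .ofNat (nat_lit 484568), .ofNat (nat_lit 649422), .ofNat (nat_lit 471029), .ofNat (nat_lit 625251), .ofNat (nat_lit 493740), .ofNat (nat_lit 647962)⟩, ⟨.ofNat (nat_lit 20000), .ofNat (nat_lit 184209), .ofNat (nat_lit 20000), .ofNat (nat_lit 200000), .ofNat (nat_lit 20000), .ofNat (nat_lit 192306), .ofNat (nat_lit 20000), .ofNat (nat_lit 200000)⟩⟩, [⟨nat_lit 3, nat_lit 100, nat_lit 48, nat_lit 71, nat_lit 180295490⟩, ⟨nat_lit 10, nat_lit 100, nat_lit 96, nat_lit 65, nat_lit 11923646⟩, ⟨nat_lit 22, nat_lit 100, nat_lit 74, nat_lit 63, nat_lit 33669009⟩]⟩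
noncomputable def p111_l73 : Lf2 := ⟨nat_lit 0, nat_lit 20, [nat_lit 5, nat_lit 5, nat_lit 5, nat_lit 20], true, nat_lit 20, nat_lit 80, nat_lit 0, nat_lit 364, ⟨nat_lit 0, nat_lit 1000, nat_lit 0, nat_lit 6, nat_lit 224, nat_lit 1000, nat_lit 50, nat_lit 0, nat_lit 0, nat_lit 0, nat_lit 0, nat_lit 0, nat_lit 49547263, nat_lit 15897309, nat_lit 1555428, nat_lit 3379024, false, false⟩,
 nat_lit 0, nat_lit 0, nat_lit 0, nat_lit 0, nat_lit 2398, nat_lit 0, nat_lit 45, nat_lit 0, nat_lit 0, nat_lit 0, nat_lit 0, nat_lit 0, nat_lit 0, nat_lit 0, nat_lit 0, nat_lit 400000, nat_lit 0, nat_lit 0, [(nat_lit 28, [(nat_lit 1, nat_lit 1000)])],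
 ⟨p111_k19, nat_lit 0, nat_lit 0, nat_lit 145, nat_lit 0, nat_lit 0, [nat_lit 697600000, nat_lit 324800000, nat_lit 138000000], [], [nat_lit 20757297462, nat_lit 22207083435, nat_lit 23016121501, nat_lit 24459229124, nat_lit 20319079996, nat_lit 21563957411, nat_lit 22553460629, nat_lit 23638116105], nat_lit 0, nat_lit 0, nat_lit 0, nat_lit 0, nat_lit 0, nat_lit 0, [], [nat_lit 20, nat_lit 40, nat_lit 40, nat_lit 80, nat_lit 16, nat_lit 317, nat_lit 100, nat_lit 11]⟩, C1.Rw.none,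
 ⟨nat_lit 0, nat_lit 2237, ⟨.ofNat (nat_lit 467180), .ofNat (nat_lit 602531), .ofNat (nat_lit 510875), .ofNat (nat_lit 646249), .ofNat (nat_lit 480752), .ofNat (nat_lit 599967), .ofNat (nat_lit 528899), .ofNat (nat_lit 648136)⟩, ⟨.ofNat (nat_lit 50000), .ofNat (nat_lit 192306), .ofNat (nat_lit 50000), .ofNat (nat_lit 200000), .ofNat (nat_lit 50000), .ofNat (nat_lit 199999), .ofNat (nat_lit 50000), .ofNat (nat_lit 200000)⟩⟩, [⟨nat_lit 3, nat_lit 100, nat_lit 54, nat_lit 57, nat_lit 269607903⟩]⟩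
noncomputable def p111_l74 : Lf2 := ⟨nat_lit 0, nat_lit 20, [nat_lit 5, nat_lit 5, nat_lit 5, nat_lit 20], true, nat_lit 80, nat_lit 160, nat_lit 0, nat_lit 364, ⟨nat_lit 0, nat_lit 473, nat_lit 527, nat_lit 6, nat_lit 213, nat_lit 1000, nat_lit 105, nat_lit 527, nat_lit 101400, nat_lit 293, nat_lit 23440, nat_lit 200, nat_lit 47820470, nat_lit 14419373, nat_lit 4760157, nat_lit 4033284, false, false⟩,
 nat_lit 0, nat_lit 0, nat_lit 0, nat_lit 0, nat_lit 2975, nat_lit 0, nat_lit 0, nat_lit 0, nat_lit 0, nat_lit 0, nat_lit 0, nat_lit 0, nat_lit 0, nat_lit 0, nat_lit 0, nat_lit 250000, nat_lit 0, nat_lit 0, [(nat_lit 25, [(nat_lit 0, nat_lit 473), (nat_lit 4, nat_lit 527)]), (nat_lit 28, [(nat_lit 0, nat_lit 473), (nat_lit 4, nat_lit 527)])],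
 ⟨p111_k20, nat_lit 0, nat_lit 0, nat_lit 112, nat_lit 0, nat_lit 0, [nat_lit 828313281, nat_lit 46425173], [], [nat_lit 18502361874, nat_lit 21614969701, nat_lit 21438798835, nat_lit 24211206600, nat_lit 19483867956, nat_lit 22144931253, nat_lit 22203812635, nat_lit 24608716000], nat_lit 0, nat_lit 0, nat_lit 0, nat_lit 0, nat_lit 0, nat_lit 0, [], [nat_lit 88, nat_lit 40, nat_lit 40, nat_lit 80, nat_lit 89, nat_lit 317, nat_lit 100, nat_lit 11]⟩, C1.Rw.none,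
 ⟨nat_lit 0, nat_lit 3163, ⟨.ofNat (nat_lit 401957), .ofNat (nat_lit 605128), .ofNat (nat_lit 443658), .ofNat (nat_lit 646918), .ofNat (nat_lit 431745), .ofNat (nat_lit 599865), .ofNat (nat_lit 479136), .ofNat (nat_lit 647345)⟩, ⟨.ofNat (nat_lit 184209), .ofNat (nat_lit 306113), .ofNat (nat_lit 200000), .ofNat (nat_lit 350425), .ofNat (nat_lit 199999), .ofNat (nat_lit 299996), .ofNat (nat_lit 200000), .ofNat (nat_lit 349998)⟩⟩, []⟩
noncomputable def p111_l75 : Lf2 := ⟨nat_lit 0, nat_lit 20, [nat_lit 5, nat_lit 5, nat_lit 5, nat_lit 20], true, nat_lit 160, nat_lit 248, nat_lit 0, nat_lit 364, ⟨nat_lit 0, nat_lit 1000, nat_lit 0, nat_lit 6, nat_lit 213, nat_lit 1000, nat_lit 157, nat_lit 0, nat_lit 0, nat_lit 0, nat_lit 0, nat_lit 0, nat_lit 44435603, nat_lit 13912318, nat_lit 8652079, nat_lit 4634943, false, false⟩,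
 nat_lit 0, nat_lit 0, nat_lit 0, nat_lit 3936, nat_lit 3093, nat_lit 0, nat_lit 0, nat_lit 0, nat_lit 0, nat_lit 0, nat_lit 0, nat_lit 0, nat_lit 0, nat_lit 0, nat_lit 0, nat_lit 250000, nat_lit 0, nat_lit 0, [(nat_lit 25, [(nat_lit 0, nat_lit 1000)])],
 ⟨p111_k16, nat_lit 0, nat_lit 0, nat_lit 56, nat_lit 0, nat_lit 0, [nat_lit 764000001, nat_lit 1368800000, nat_lit 2118000000], [], [nat_lit 18969895416, nat_lit 20534695214, nat_lit 22012187560, nat_lit 23309547970, nat_lit 21749389789, nat_lit 23185858292, nat_lit 24278303497, nat_lit 25502449231], nat_lit 0, nat_lit 0, nat_lit 0, nat_lit 0, nat_lit 0, nat_lit 0, [], [nat_lit 20, nat_lit 40, nat_lit 40, nat_lit 80, nat_lit 16, nat_lit 345, nat_lit 125, nat_lit 12]⟩, C1.Rw.none,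
 ⟨nat_lit 2236, nat_lit 3163, ⟨.ofNat (nat_lit 409856), .ofNat (nat_lit 605240), .ofNat (nat_lit 454039), .ofNat (nat_lit 649422), .ofNat (nat_lit 419758), .ofNat (nat_lit 602541), .ofNat (nat_lit 465180), .ofNat (nat_lit 647962)⟩, ⟨.ofNat (nat_lit 306116), .ofNat (nat_lit 440213), .ofNat (nat_lit 350426), .ofNat (nat_lit 484523), .ofNat (nat_lit 306337), .ofNat (nat_lit 431772), .ofNat (nat_lit 351886), .ofNat (nat_lit 477320)⟩⟩, [⟨nat_lit 16, nat_lit 62, nat_lit 100, nat_lit 94, nat_lit 220376897⟩]⟩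
noncomputable def p111_l76 : Lf2 := ⟨nat_lit 0, nat_lit 20, [nat_lit 5, nat_lit 5, nat_lit 5, nat_lit 20], true, nat_lit 160, nat_lit 208, nat_lit 0, nat_lit 364, ⟨nat_lit 0, nat_lit 1000, nat_lit 0, nat_lit 6, nat_lit 224, nat_lit 1000, nat_lit 144, nat_lit 0, nat_lit 0, nat_lit 0, nat_lit 0, nat_lit 0, nat_lit 44365899, nat_lit 15134551, nat_lit 7499550, nat_lit 4577190, false, false⟩,
 nat_lit 0, nat_lit 0, nat_lit 0, nat_lit 0, nat_lit 4142, nat_lit 0, nat_lit 0, nat_lit 0, nat_lit 0, nat_lit 0, nat_lit 0, nat_lit 0, nat_lit 0, nat_lit 0, nat_lit 0, nat_lit 250000, nat_lit 0, nat_lit 0, [(nat_lit 28, [(nat_lit 0, nat_lit 1000)])],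
 ⟨p111_k21, nat_lit 0, nat_lit 0, nat_lit 77, nat_lit 0, nat_lit 0, [nat_lit 781600001, nat_lit 1671657143], [], [nat_lit 22336550108, nat_lit 23875959580, nat_lit 24330389487, nat_lit 25792894240, nat_lit 23479993401, nat_lit 24926812171, nat_lit 25265685162, nat_lit 26784356613], nat_lit 0, nat_lit 0, nat_lit 0, nat_lit 0, nat_lit 0, nat_lit 0, [], [nat_lit 88, nat_lit 40, nat_lit 40, nat_lit 80, nat_lit 89, nat_lit 345, nat_lit 125, nat_lit 12]⟩, C1.Rw.none,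
 ⟨nat_lit 0, nat_lit 2237, ⟨.ofNat (nat_lit 467180), .ofNat (nat_lit 602531), .ofNat (nat_lit 510875), .ofNat (nat_lit 646249), .ofNat (nat_lit 480752), .ofNat (nat_lit 599967), .ofNat (nat_lit 528899), .ofNat (nat_lit 648136)⟩, ⟨.ofNat (nat_lit 306334), .ofNat (nat_lit 374750), .ofNat (nat_lit 351885), .ofNat (nat_lit 420300), .ofNat (nat_lit 299996), .ofNat (nat_lit 359993), .ofNat (nat_lit 349998), .ofNat (nat_lit 409994)⟩⟩, [⟨nat_lit 16, nat_lit 44, nat_lit 100, nat_lit 92, nat_lit 272856577⟩]⟩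
noncomputable def b_V_900_600_20_9 : St := ⟨true, nat_lit 0, nat_lit 1, nat_lit 1, nat_lit 120, nat_lit 360, nat_lit 400, nat_lit 240, nat_lit 280, nat_lit 112, nat_lit 240, nat_lit 80, nat_lit 120, nat_lit 8, nat_lit 248, nat_lit 0, nat_lit 364, nat_lit 40, nat_lit 80, nat_lit 0, nat_lit 0, nat_lit 0, nat_lit 0⟩
theorem d_V_900_600_20_9 (h : EB TB.env) : Dead b_V_900_600_20_9 := chkB_sound0 h (T :=
(.spl (nat_lit 4) (nat_lit 160)
(.spl (nat_lit 4) (nat_lit 80)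
(.spl (nat_lit 0) (nat_lit 380)
(.spl (nat_lit 5) (nat_lit 160)
(.leaf p111_l70)
(.spl (nat_lit 1) (nat_lit 260)
(.leaf p111_l71)
(.trZ (nat_lit 0) (nat_lit 100) (nat_lit 63) (nat_lit 99) (nat_lit 132) (.trX (nat_lit 19) (nat_lit 100) (nat_lit 69) (nat_lit 96) (nat_lit 352) (.leaf p111_l72)))))
(.trZ (nat_lit 0) (nat_lit 100) (nat_lit 44) (nat_lit 99) (nat_lit 148) (.trZ (nat_lit 3) (nat_lit 100) (nat_lit 54) (nat_lit 57) (nat_lit 20) (.leaf p111_l73))))
(.leaf p111_l74))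
(.spl (nat_lit 0) (nat_lit 380)
(.leaf p111_l75)
(.trZ (nat_lit 0) (nat_lit 100) (nat_lit 44) (nat_lit 99) (nat_lit 148) (.trX (nat_lit 16) (nat_lit 44) (nat_lit 100) (nat_lit 92) (nat_lit 208) (.leaf p111_l76)))))) (by decide +kernel)
noncomputable def p111_l77 : Lf2 := ⟨nat_lit 0, nat_lit 20, [nat_lit 5, nat_lit 5, nat_lit 5, nat_lit 20], false, nat_lit 8, nat_lit 80, nat_lit 0, nat_lit 336, ⟨nat_lit 119, nat_lit 562, nat_lit 319, nat_lit 6, nat_lit 258, nat_lit 881, nat_lit 43, nat_lit 319, nat_lit 17067, nat_lit 247, nat_lit 105490, nat_lit 200, nat_lit 46277127, nat_lit 19516856, nat_lit 1206017, nat_lit 3539890, true, true⟩,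
 nat_lit 0, nat_lit 0, nat_lit 2197, nat_lit 0, nat_lit 2588, nat_lit 1163, nat_lit 26, nat_lit 0, nat_lit 0, nat_lit 128, nat_lit 0, nat_lit 0, nat_lit 0, nat_lit 0, nat_lit 0, nat_lit 352400, nat_lit 0, nat_lit 0, [(nat_lit 25, [(nat_lit 1, nat_lit 562), (nat_lit 5, nat_lit 319)])],
 ⟨p111_k16, nat_lit 0, nat_lit 0, nat_lit 138, nat_lit 0, nat_lit 0, [nat_lit 818121201, nat_lit 725778267, nat_lit 288147333], [], [nat_lit 22662788008, nat_lit 23208126179, nat_lit 24010712874, nat_lit 24548826960, nat_lit 22126784483, nat_lit 22644691323, nat_lit 23422270035, nat_lit 23905464827], nat_lit 0, nat_lit 0, nat_lit 0, nat_lit 0, nat_lit 0, nat_lit 0, [], [nat_lit 20, nat_lit 40, nat_lit 40, nat_lit 80, nat_lit 16, nat_lit 226, nat_lit 20, nat_lit 7]⟩, ⟨p111_k17, nat_lit 0, nat_lit 0, nat_lit 786, nat_lit 0, nat_lit 1020304, [nat_lit 557872000, nat_lit 948192000, nat_lit 1672902000], [], [nat_lit 4162178792, nat_lit 4191237586,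 nat_lit 4220296380, nat_lit 4242829022, nat_lit 3497030909, nat_lit 3460956028, nat_lit 3458726686, nat_lit 3452417617], nat_lit 1271250, nat_lit 1271250, nat_lit 1271250, nat_lit 1271250, nat_lit 0, nat_lit 2373000, [nat_lit 1100000, nat_lit 1785000, nat_lit 1271250], [nat_lit 37, nat_lit 40, nat_lit 40, nat_lit 80, nat_lit 28, nat_lit 456, nat_lit 225, nat_lit 10]⟩,
 ⟨nat_lit 2738, nat_lit 3163, ⟨.ofNat (nat_lit 605257), .ofNat (nat_lit 666215), .ofNat (nat_lit 627400), .ofNat (nat_lit 688370), .ofNat (nat_lit 603890), .ofNat (nat_lit 662956), .ofNat (nat_lit 626295), .ofNat (nat_lit 685373)⟩, ⟨.ofNat (nat_lit 20000), .ofNat (nat_lit 184209), .ofNat (nat_lit 20000), .ofNat (nat_lit 200000), .ofNat (nat_lit 20000), .ofNat (nat_lit 188310), .ofNat (nat_lit 20000), .ofNat (nat_lit 200000)⟩⟩, [⟨nat_lit 3, nat_lit 100, nat_lit 65, nat_lit 50, nat_lit 160811745⟩, ⟨nat_lit 22, nat_lit 100, nat_lit 98, nat_lit 66, nat_lit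 16186264⟩]⟩
noncomputable def p111_l78 : Lf2 := ⟨nat_lit 0, nat_lit 20, [nat_lit 5, nat_lit 5, nat_lit 5, nat_lit 20], false, nat_lit 12, nat_lit 80, nat_lit 0, nat_lit 336, ⟨nat_lit 101, nat_lit 513, nat_lit 386, nat_lit 6, nat_lit 257, nat_lit 899, nat_lit 45, nat_lit 386, nat_lit 19267, nat_lit 249, nat_lit 99496, nat_lit 200, nat_lit 46282081, nat_lit 19407835, nat_lit 1310084, nat_lit 3567099, true, true⟩,
 nat_lit 0, nat_lit 0, nat_lit 1755, nat_lit 0, nat_lit 2482, nat_lit 929, nat_lit 104, nat_lit 0, nat_lit 0, nat_lit 79, nat_lit 0, nat_lit 0, nat_lit 0, nat_lit 0, nat_lit 0, nat_lit 224750, nat_lit 0, nat_lit 0, [(nat_lit 25, [(nat_lit 0, nat_lit 513), (nat_lit 4, nat_lit 386)])],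
 ⟨p111_k22, nat_lit 0, nat_lit 0, nat_lit 140, nat_lit 0, nat_lit 0, [nat_lit 767678000, nat_lit 893995867, nat_lit 999824000], [], [nat_lit 23108670164, nat_lit 23643544045, nat_lit 24406080204, nat_lit 24924600106, nat_lit 22640409675, nat_lit 23149976435, nat_lit 23891684731, nat_lit 24367471819], nat_lit 0, nat_lit 0, nat_lit 0, nat_lit 0, nat_lit 0, nat_lit 0, [], [nat_lit 20, nat_lit 40, nat_lit 40, nat_lit 80, nat_lit 16, nat_lit 226, nat_lit 20, nat_lit 7]⟩, ⟨p111_k17, nat_lit 0, nat_lit 0, nat_lit 901, nat_lit 0, nat_lit 1242176, [nat_lit 473488000, nat_lit 804768000, nat_lit 1419858000], [], [nat_lit 3829548832, nat_lit 3838419444, nat_lit 3847290056, nat_lit 3852069956, nat_lit 3248022413, nat_lit 3248146240, nat_lit 3248270067, nat_lit 3245097203], nat_lit 1271250, nat_lit 1271250, nat_lit 1271250, nat_lit 1271250, nat_lit 0, nat_lit 2373000, [nat_lit 1100000, nat_lit 1785000, nat_lit 1271250], [nat_lit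 37, nat_lit 40, nat_lit 40, nat_lit 80, nat_lit 28, nat_lit 456, nat_lit 225, nat_lit 10]⟩,
 ⟨nat_lit 2236, nat_lit 2739, ⟨.ofNat (nat_lit 603890), .ofNat (nat_lit 662956), .ofNat (nat_lit 626287), .ofNat (nat_lit 685373), .ofNat (nat_lit 602558), .ofNat (nat_lit 659578), .ofNat (nat_lit 625312), .ofNat (nat_lit 682352)⟩, ⟨.ofNat (nat_lit 30000), .ofNat (nat_lit 188310), .ofNat (nat_lit 30000), .ofNat (nat_lit 200000), .ofNat (nat_lit 30000), .ofNat (nat_lit 192306), .ofNat (nat_lit 30000), .ofNat (nat_lit 200000)⟩⟩, [⟨nat_lit 3, nat_lit 100, nat_lit 56, nat_lit 60, nat_lit 190583060⟩, ⟨nat_lit 22, nat_lit 100, nat_lit 97, nat_lit 67, nat_lit 15129391⟩]⟩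
noncomputable def p111_l79 : Lf2 := ⟨nat_lit 0, nat_lit 20, [nat_lit 5, nat_lit 5, nat_lit 5, nat_lit 20], false, nat_lit 8, nat_lit 40, nat_lit 0, nat_lit 288, ⟨nat_lit 119, nat_lit 606, nat_lit 275, nat_lit 6, nat_lit 267, nat_lit 881, nat_lit 24, nat_lit 275, nat_lit 5400, nat_lit 233, nat_lit 149710, nat_lit 200, nat_lit 45955050, nat_lit 20538365, nat_lit 506585, nat_lit 3344362, true, false⟩,
 nat_lit 0, nat_lit 0, nat_lit 1759, nat_lit 0, nat_lit 2700, nat_lit 1023, nat_lit 0, nat_lit 0, nat_lit 0, nat_lit 112, nat_lit 0, nat_lit 0, nat_lit 0, nat_lit 0, nat_lit 0, nat_lit 352400, nat_lit 0, nat_lit 0, [(nat_lit 25, [(nat_lit 1, nat_lit 606), (nat_lit 5, nat_lit 275)])],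
 ⟨p111_k16, nat_lit 0, nat_lit 0, nat_lit 142, nat_lit 0, nat_lit 0, [nat_lit 823330801, nat_lit 801317467, nat_lit 458409733], [], [nat_lit 23004810521, nat_lit 24170597794, nat_lit 24406058694, nat_lit 25562207674, nat_lit 22735126201, nat_lit 23819789601, nat_lit 24071264801, nat_lit 25081309401], nat_lit 0, nat_lit 0, nat_lit 0, nat_lit 0, nat_lit 0, nat_lit 0, [], [nat_lit 20, nat_lit 40, nat_lit 40, nat_lit 80, nat_lit 16, nat_lit 215, nat_lit 10, nat_lit 7]⟩, ⟨p111_k18, nat_lit 0, nat_lit 0, nat_lit 811, nat_lit 0, nat_lit 1204723, [nat_lit 557872000, nat_lit 948192000, nat_lit 1412768000], [], [nat_lit 3855399706, nat_lit 3886324140, nat_lit 3911380422, nat_lit 3936436704, nat_lit 3225826510, nat_lit 3234058131, nat_lit 3238244886, nat_lit 3242431641], nat_lit 1271250, nat_lit 1271250, nat_lit 1271250, nat_lit 1271250, nat_lit 0, nat_lit 2034000, [nat_lit 1100000, nat_lit 1785000, nat_lit 1271250], [nat_lit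 21, nat_lit 40, nat_lit 40, nat_lit 80, nat_lit 14, nat_lit 456, nat_lit 225, nat_lit 11]⟩,
 ⟨nat_lit 2236, nat_lit 3163, ⟨.ofNat (nat_lit 627331), .ofNat (nat_lit 688370), .ofNat (nat_lit 649422), .ofNat (nat_lit 710480), .ofNat (nat_lit 625251), .ofNat (nat_lit 682352), .ofNat (nat_lit 647962), .ofNat (nat_lit 705082)⟩, ⟨.ofNat (nat_lit 20000), .ofNat (nat_lit 100000), .ofNat (nat_lit 20000), .ofNat (nat_lit 100000), .ofNat (nat_lit 20000), .ofNat (nat_lit 100000), .ofNat (nat_lit 20000), .ofNat (nat_lit 100000)⟩⟩, [⟨nat_lit 3, nat_lit 100, nat_lit 61, nat_lit 55, nat_lit 198021351⟩, ⟨nat_lit 22, nat_lit 97, nat_lit 100, nat_lit 48, nat_lit 19269492⟩]⟩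
noncomputable def p111_l80 : Lf2 := ⟨nat_lit 0, nat_lit 20, [nat_lit 5, nat_lit 5, nat_lit 5, nat_lit 20], false, nat_lit 40, nat_lit 80, nat_lit 0, nat_lit 336, ⟨nat_lit 167, nat_lit 570, nat_lit 263, nat_lit 6, nat_lit 267, nat_lit 833, nat_lit 59, nat_lit 263, nat_lit 32267, nat_lit 259, nat_lit 149710, nat_lit 200, nat_lit 44806083, nat_lit 20262779, nat_lit 1931138, nat_lit 3810397, true, false⟩,
 nat_lit 0, nat_lit 0, nat_lit 2381, nat_lit 0, nat_lit 2769, nat_lit 1385, nat_lit 36, nat_lit 0, nat_lit 0, nat_lit 162, nat_lit 0, nat_lit 0, nat_lit 0, nat_lit 0, nat_lit 0, nat_lit 360200, nat_lit 0, nat_lit 0, [(nat_lit 25, [(nat_lit 1, nat_lit 570), (nat_lit 5, nat_lit 218), (nat_lit 6, nat_lit 45)])],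
 ⟨p111_k16, nat_lit 0, nat_lit 0, nat_lit 124, nat_lit 0, nat_lit 0, [nat_lit 857107201, nat_lit 869432667, nat_lit 543889733], [], [nat_lit 22543205035, nat_lit 23639185953, nat_lit 23886440837, nat_lit 24935570886, nat_lit 22181872217, nat_lit 23246168057, nat_lit 23495168893, nat_lit 24486856485], nat_lit 0, nat_lit 0, nat_lit 0, nat_lit 0, nat_lit 0, nat_lit 0, [], [nat_lit 20, nat_lit 40, nat_lit 40, nat_lit 80, nat_lit 16, nat_lit 226, nat_lit 20, nat_lit 7]⟩, ⟨p111_k18, nat_lit 0, nat_lit 0, nat_lit 811, nat_lit 0, nat_lit 1204723, [nat_lit 782896000, nat_lit 1330656000, nat_lit 1982624000], [], [nat_lit 5583465790, nat_lit 5627538756, nat_lit 5663614586, nat_lit 5699690416, nat_lit 4842279117, nat_lit 4847727113, nat_lit 4848155720, nat_lit 4848584328], nat_lit 1271250, nat_lit 1271250, nat_lit 1271250, nat_lit 1271250, nat_lit 0, nat_lit 2373000, [nat_lit 1100000, nat_lit 1785000, nat_lit 1271250], [nat_lit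 21, nat_lit 40, nat_lit 40, nat_lit 80, nat_lit 14, nat_lit 456, nat_lit 225, nat_lit 11]⟩,
 ⟨nat_lit 2236, nat_lit 3163, ⟨.ofNat (nat_lit 627331), .ofNat (nat_lit 688370), .ofNat (nat_lit 649422), .ofNat (nat_lit 710480), .ofNat (nat_lit 625251), .ofNat (nat_lit 682352), .ofNat (nat_lit 647962), .ofNat (nat_lit 705082)⟩, ⟨.ofNat (nat_lit 100000), .ofNat (nat_lit 184209), .ofNat (nat_lit 100000), .ofNat (nat_lit 200000), .ofNat (nat_lit 100000), .ofNat (nat_lit 192306), .ofNat (nat_lit 100000), .ofNat (nat_lit 200000)⟩⟩, [⟨nat_lit 22, nat_lit 100, nat_lit 92, nat_lit 75, nat_lit 25200668⟩]⟩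
noncomputable def p111_l81 : Lf2 := ⟨nat_lit 0, nat_lit 20, [nat_lit 5, nat_lit 5, nat_lit 5, nat_lit 20], true, nat_lit 20, nat_lit 80, nat_lit 0, nat_lit 336, ⟨nat_lit 0, nat_lit 1000, nat_lit 0, nat_lit 6, nat_lit 256, nat_lit 1000, nat_lit 50, nat_lit 0, nat_lit 0, nat_lit 0, nat_lit 0, nat_lit 0, nat_lit 46269564, nat_lit 19214270, nat_lit 1516166, nat_lit 3619947, true, true⟩,
 nat_lit 0, nat_lit 0, nat_lit 0, nat_lit 0, nat_lit 2462, nat_lit 0, nat_lit 16, nat_lit 0, nat_lit 0, nat_lit 0, nat_lit 0, nat_lit 0, nat_lit 0, nat_lit 0, nat_lit 0, nat_lit 400000, nat_lit 0, nat_lit 0, [(nat_lit 28, [(nat_lit 1, nat_lit 1000)])],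
 ⟨p111_k19, nat_lit 0, nat_lit 0, nat_lit 145, nat_lit 0, nat_lit 0, [nat_lit 697600000, nat_lit 324800000, nat_lit 138000000], [], [nat_lit 23416768186, nat_lit 24602495556, nat_lit 24733123006, nat_lit 26077667988, nat_lit 23007809044, nat_lit 24078156824, nat_lit 24283875892, nat_lit 25282046760], nat_lit 0, nat_lit 0, nat_lit 0, nat_lit 0, nat_lit 0, nat_lit 0, [], [nat_lit 20, nat_lit 40, nat_lit 40, nat_lit 80, nat_lit 16, nat_lit 226, nat_lit 20, nat_lit 7]⟩, C1.Rw.none,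
 ⟨nat_lit 0, nat_lit 2237, ⟨.ofNat (nat_lit 602531), .ofNat (nat_lit 659577), .ofNat (nat_lit 624400), .ofNat (nat_lit 682352), .ofNat (nat_lit 599967), .ofNat (nat_lit 649998), .ofNat (nat_lit 624062), .ofNat (nat_lit 674999)⟩, ⟨.ofNat (nat_lit 50000), .ofNat (nat_lit 192306), .ofNat (nat_lit 50000), .ofNat (nat_lit 200000), .ofNat (nat_lit 50000), .ofNat (nat_lit 199999), .ofNat (nat_lit 50000), .ofNat (nat_lit 200000)⟩⟩, [⟨nat_lit 3, nat_lit 100, nat_lit 54, nat_lit 57, nat_lit 263032211⟩]⟩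
noncomputable def p111_l82 : Lf2 := ⟨nat_lit 0, nat_lit 20, [nat_lit 5, nat_lit 5, nat_lit 5, nat_lit 20], false, nat_lit 20, nat_lit 80, nat_lit 0, nat_lit 336, ⟨nat_lit 98, nat_lit 902, nat_lit 0, nat_lit 6, nat_lit 265, nat_lit 902, nat_lit 50, nat_lit 0, nat_lit 0, nat_lit 0, nat_lit 0, nat_lit 0, nat_lit 45310644, nat_lit 20187816, nat_lit 1501540, nat_lit 3677674, true, false⟩,
 nat_lit 0, nat_lit 0, nat_lit 1402, nat_lit 0, nat_lit 2567, nat_lit 815, nat_lit 34, nat_lit 0, nat_lit 0, nat_lit 95, nat_lit 0, nat_lit 0, nat_lit 0, nat_lit 0, nat_lit 0, nat_lit 360800, nat_lit 0, nat_lit 0, [(nat_lit 28, [(nat_lit 1, nat_lit 902)])],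
 ⟨p111_k19, nat_lit 0, nat_lit 0, nat_lit 145, nat_lit 0, nat_lit 0, [nat_lit 721159201, nat_lit 614605600, nat_lit 736976000], [], [nat_lit 23823422968, nat_lit 25035809781, nat_lit 25194897922, nat_lit 26324625258, nat_lit 23336599202, nat_lit 24409679137, nat_lit 24607346175, nat_lit 25621499513], nat_lit 0, nat_lit 0, nat_lit 0, nat_lit 0, nat_lit 0, nat_lit 0, [], [nat_lit 20, nat_lit 40, nat_lit 40, nat_lit 80, nat_lit 16, nat_lit 226, nat_lit 20, nat_lit 7]⟩, ⟨p111_k18, nat_lit 0, nat_lit 0, nat_lit 983, nat_lit 0, nat_lit 1592403, [nat_lit 459424000, nat_lit 780864000, nat_lit 1163456000], [], [nat_lit 3267634510, nat_lit 3293467764, nat_lit 3314597534, nat_lit 3335727304, nat_lit 2830108972, nat_lit 2833228064, nat_lit 2833395230, nat_lit 2837526537], nat_lit 1271250, nat_lit 1271250, nat_lit 1271250, nat_lit 1271250, nat_lit 0, nat_lit 2373000, [nat_lit 1100000, nat_lit 1785000, nat_lit 1271250], [nat_lit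 21, nat_lit 40, nat_lit 40, nat_lit 80, nat_lit 14, nat_lit 456, nat_lit 225, nat_lit 11]⟩,
 ⟨nat_lit 0, nat_lit 2237, ⟨.ofNat (nat_lit 624400), .ofNat (nat_lit 682352), .ofNat (nat_lit 646249), .ofNat (nat_lit 705063), .ofNat (nat_lit 624062), .ofNat (nat_lit 674999), .ofNat (nat_lit 648136), .ofNat (nat_lit 699935)⟩, ⟨.ofNat (nat_lit 50000), .ofNat (nat_lit 192306), .ofNat (nat_lit 50000), .ofNat (nat_lit 200000), .ofNat (nat_lit 50000), .ofNat (nat_lit 199999), .ofNat (nat_lit 50000), .ofNat (nat_lit 200000)⟩⟩, [⟨nat_lit 3, nat_lit 100, nat_lit 36, nat_lit 77, nat_lit 316655239⟩, ⟨nat_lit 22, nat_lit 100, nat_lit 96, nat_lit 69, nat_lit 16124755⟩]⟩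
noncomputable def p111_l83 : Lf2 := ⟨nat_lit 0, nat_lit 20, [nat_lit 5, nat_lit 5, nat_lit 5, nat_lit 20], false, nat_lit 8, nat_lit 40, nat_lit 0, nat_lit 248, ⟨nat_lit 128, nat_lit 872, nat_lit 0, nat_lit 7, nat_lit 282, nat_lit 872, nat_lit 24, nat_lit 0, nat_lit 0, nat_lit 0, nat_lit 0, nat_lit 0, nat_lit 44337845, nat_lit 22164283, nat_lit 497872, nat_lit 3432065, true, true⟩,
 nat_lit 0, nat_lit 0, nat_lit 2223, nat_lit 0, nat_lit 2929, nat_lit 1176, nat_lit 84, nat_lit 0, nat_lit 0, nat_lit 85, nat_lit 0, nat_lit 0, nat_lit 0, nat_lit 0, nat_lit 0, nat_lit 348800, nat_lit 0, nat_lit 0, [(nat_lit 25, [(nat_lit 1, nat_lit 872)])],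
 ⟨p111_k16, nat_lit 0, nat_lit 0, nat_lit 146, nat_lit 0, nat_lit 0, [nat_lit 856729601, nat_lit 1293956267, nat_lit 1598054400], [], [nat_lit 25259687614, nat_lit 25781405762, nat_lit 26783493646, nat_lit 27265436512, nat_lit 24946983359, nat_lit 25456967413, nat_lit 26440662847, nat_lit 26912218901], nat_lit 0, nat_lit 0, nat_lit 0, nat_lit 0, nat_lit 0, nat_lit 0, [], [nat_lit 20, nat_lit 40, nat_lit 40, nat_lit 80, nat_lit 16, nat_lit 215, nat_lit 10, nat_lit 7]⟩, ⟨p111_k17, nat_lit 0, nat_lit 0, nat_lit 776, nat_lit 0, nat_lit 1020304, [nat_lit 600064000, nat_lit 1019904000, nat_lit 1799424000], [], [nat_lit 5032493988, nat_lit 5038594484, nat_lit 5086021348, nat_lit 5155774260, nat_lit 4090763553, nat_lit 4082959505, nat_lit 4109712501, nat_lit 4097725683], nat_lit 1271250, nat_lit 1271250, nat_lit 1271250, nat_lit 1271250, nat_lit 0, nat_lit 1751500, [nat_lit 1100000, nat_lit 1785000, nat_lit 1271250], [nat_lit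 37, nat_lit 40, nat_lit 40, nat_lit 80, nat_lit 28, nat_lit 456, nat_lit 225, nat_lit 10]⟩,
 ⟨nat_lit 2738, nat_lit 3163, ⟨.ofNat (nat_lit 666215), .ofNat (nat_lit 727168), .ofNat (nat_lit 688370), .ofNat (nat_lit 749323), .ofNat (nat_lit 662956), .ofNat (nat_lit 722017), .ofNat (nat_lit 685373), .ofNat (nat_lit 744435)⟩, ⟨.ofNat (nat_lit 20000), .ofNat (nat_lit 100000), .ofNat (nat_lit 20000), .ofNat (nat_lit 100000), .ofNat (nat_lit 20000), .ofNat (nat_lit 100000), .ofNat (nat_lit 20000), .ofNat (nat_lit 100000)⟩⟩, [⟨nat_lit 3, nat_lit 100, nat_lit 65, nat_lit 50, nat_lit 161735237⟩]⟩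
noncomputable def p111_l84 : Lf2 := ⟨nat_lit 0, nat_lit 20, [nat_lit 5, nat_lit 5, nat_lit 5, nat_lit 20], false, nat_lit 12, nat_lit 40, nat_lit 0, nat_lit 248, ⟨nat_lit 103, nat_lit 897, nat_lit 0, nat_lit 7, nat_lit 281, nat_lit 897, nat_lit 26, nat_lit 0, nat_lit 0, nat_lit 0, nat_lit 0, nat_lit 0, nat_lit 44460511, nat_lit 21977178, nat_lit 562311, nat_lit 3449000, true, true⟩,
 nat_lit 0, nat_lit 0, nat_lit 1781, nat_lit 0, nat_lit 2764, nat_lit 942, nat_lit 189, nat_lit 0, nat_lit 0, nat_lit 68, nat_lit 0, nat_lit 0, nat_lit 0, nat_lit 0, nat_lit 0, nat_lit 224250, nat_lit 0, nat_lit 0, [(nat_lit 25, [(nat_lit 0, nat_lit 897)])],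
 ⟨p111_k22, nat_lit 0, nat_lit 0, nat_lit 148, nat_lit 0, nat_lit 0, [nat_lit 781922001, nat_lit 1565859601, nat_lit 2543596000], [], [nat_lit 25499131011, nat_lit 26007389306, nat_lit 26956681971, nat_lit 27427753247, nat_lit 25254596457, nat_lit 25752927221, nat_lit 26687660065, nat_lit 27149047829], nat_lit 0, nat_lit 0, nat_lit 0, nat_lit 0, nat_lit 0, nat_lit 0, [], [nat_lit 20, nat_lit 40, nat_lit 40, nat_lit 80, nat_lit 16, nat_lit 215, nat_lit 10, nat_lit 7]⟩, ⟨p111_k17, nat_lit 0, nat_lit 0, nat_lit 875, nat_lit 0, nat_lit 1242176, [nat_lit 482864000, nat_lit 820704000, nat_lit 1447974000], [], [nat_lit 4071887868, nat_lit 4076933938, nat_lit 4115098148, nat_lit 4149060996, nat_lit 3319102014, nat_lit 3312995700, nat_lit 3334582722, nat_lit 3325122989], nat_lit 1271250, nat_lit 1271250, nat_lit 1271250, nat_lit 1271250, nat_lit 0, nat_lit 1751500, [nat_lit 1100000, nat_lit 1785000, nat_lit 1271250], [nat_lit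 37, nat_lit 40, nat_lit 40, nat_lit 80, nat_lit 28, nat_lit 456, nat_lit 225, nat_lit 10]⟩,
 ⟨nat_lit 2236, nat_lit 2739, ⟨.ofNat (nat_lit 662956), .ofNat (nat_lit 722017), .ofNat (nat_lit 685373), .ofNat (nat_lit 744435), .ofNat (nat_lit 659578), .ofNat (nat_lit 716594), .ofNat (nat_lit 682352), .ofNat (nat_lit 739368)⟩, ⟨.ofNat (nat_lit 30000), .ofNat (nat_lit 100000), .ofNat (nat_lit 30000), .ofNat (nat_lit 100000), .ofNat (nat_lit 30000), .ofNat (nat_lit 100000), .ofNat (nat_lit 30000), .ofNat (nat_lit 100000)⟩⟩, [⟨nat_lit 3, nat_lit 100, nat_lit 56, nat_lit 60, nat_lit 182279507⟩]⟩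
noncomputable def p111_l85 : Lf2 := ⟨nat_lit 0, nat_lit 20, [nat_lit 5, nat_lit 5, nat_lit 5, nat_lit 20], false, nat_lit 40, nat_lit 80, nat_lit 0, nat_lit 300, ⟨nat_lit 148, nat_lit 852, nat_lit 0, nat_lit 7, nat_lit 282, nat_lit 852, nat_lit 59, nat_lit 0, nat_lit 0, nat_lit 0, nat_lit 0, nat_lit 0, nat_lit 43271393, nat_lit 21842154, nat_lit 1886453, nat_lit 3886355, true, true⟩,
 nat_lit 0, nat_lit 0, nat_lit 2545, nat_lit 0, nat_lit 2948, nat_lit 1347, nat_lit 30, nat_lit 0, nat_lit 0, nat_lit 108, nat_lit 0, nat_lit 0, nat_lit 0, nat_lit 0, nat_lit 0, nat_lit 434400, nat_lit 0, nat_lit 0, [(nat_lit 25, [(nat_lit 1, nat_lit 696), (nat_lit 2, nat_lit 156)])],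
 ⟨p111_k16, nat_lit 0, nat_lit 0, nat_lit 128, nat_lit 0, nat_lit 0, [nat_lit 955875201, nat_lit 1123795200, nat_lit 953766400], [], [nat_lit 24478717063, nat_lit 25001794755, nat_lit 26002989591, nat_lit 26507481656, nat_lit 24023797015, nat_lit 24532150047, nat_lit 25510995447, nat_lit 25981015995], nat_lit 0, nat_lit 0, nat_lit 0, nat_lit 0, nat_lit 0, nat_lit 0, [], [nat_lit 20, nat_lit 40, nat_lit 40, nat_lit 80, nat_lit 16, nat_lit 226, nat_lit 20, nat_lit 7]⟩, ⟨p111_k17, nat_lit 0, nat_lit 0, nat_lit 776, nat_lit 0, nat_lit 1020304, [nat_lit 693824000, nat_lit 1179264000, nat_lit 2080584000], [], [nat_lit 5775928888, nat_lit 5783387858, nat_lit 5838226368, nat_lit 5853342586, nat_lit 4782679329, nat_lit 4783737550, nat_lit 4826708095, nat_lit 4829289779], nat_lit 1271250, nat_lit 1271250, nat_lit 1271250, nat_lit 1271250, nat_lit 0, nat_lit 2118750, [nat_lit 1100000, nat_lit 1785000, nat_lit 1271250], [nat_lit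 37, nat_lit 40, nat_lit 40, nat_lit 80, nat_lit 28, nat_lit 456, nat_lit 225, nat_lit 10]⟩,
 ⟨nat_lit 2738, nat_lit 3163, ⟨.ofNat (nat_lit 666215), .ofNat (nat_lit 727168), .ofNat (nat_lit 688370), .ofNat (nat_lit 749323), .ofNat (nat_lit 662956), .ofNat (nat_lit 722017), .ofNat (nat_lit 685373), .ofNat (nat_lit 744435)⟩, ⟨.ofNat (nat_lit 100000), .ofNat (nat_lit 184209), .ofNat (nat_lit 100000), .ofNat (nat_lit 200000), .ofNat (nat_lit 100000), .ofNat (nat_lit 188310), .ofNat (nat_lit 100000), .ofNat (nat_lit 200000)⟩⟩, [⟨nat_lit 22, nat_lit 90, nat_lit 100, nat_lit 74, nat_lit 14637817⟩]⟩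
noncomputable def p111_l86 : Lf2 := ⟨nat_lit 0, nat_lit 20, [nat_lit 5, nat_lit 5, nat_lit 5, nat_lit 20], false, nat_lit 40, nat_lit 80, nat_lit 0, nat_lit 300, ⟨nat_lit 136, nat_lit 864, nat_lit 0, nat_lit 7, nat_lit 281, nat_lit 864, nat_lit 59, nat_lit 0, nat_lit 0, nat_lit 0, nat_lit 0, nat_lit 0, nat_lit 43420618, nat_lit 21669625, nat_lit 1909757, nat_lit 3883973, true, true⟩,
 nat_lit 0, nat_lit 0, nat_lit 2341, nat_lit 0, nat_lit 2621, nat_lit 1239, nat_lit 266, nat_lit 0, nat_lit 0, nat_lit 99, nat_lit 0, nat_lit 0, nat_lit 0, nat_lit 0, nat_lit 0, nat_lit 216000, nat_lit 0, nat_lit 0, [(nat_lit 25, [(nat_lit 0, nat_lit 864)])],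
 ⟨p111_k22, nat_lit 0, nat_lit 0, nat_lit 132, nat_lit 0, nat_lit 0, [nat_lit 787664000, nat_lit 1628995201, nat_lit 2679952000], [], [nat_lit 24583377909, nat_lit 25082648693, nat_lit 26022458594, nat_lit 26486723660, nat_lit 24230961393, nat_lit 24716462357, nat_lit 25636581264, nat_lit 26086670835], nat_lit 0, nat_lit 0, nat_lit 0, nat_lit 0, nat_lit 0, nat_lit 0, [], [nat_lit 20, nat_lit 40, nat_lit 40, nat_lit 80, nat_lit 16, nat_lit 226, nat_lit 20, nat_lit 7]⟩, ⟨p111_k17, nat_lit 0, nat_lit 0, nat_lit 875, nat_lit 0, nat_lit 1242176, [nat_lit 637568000, nat_lit 1083648000, nat_lit 1911888000], [], [nat_lit 5304872116, nat_lit 5311687646, nat_lit 5362079676, nat_lit 5382221662, nat_lit 4388379573, nat_lit 4389310132, nat_lit 4428788815, nat_lit 4439524385], nat_lit 1271250, nat_lit 1271250, nat_lit 1271250, nat_lit 1271250, nat_lit 0, nat_lit 2118750, [nat_lit 1100000, nat_lit 1785000, nat_lit 1271250], [nat_lit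 37, nat_lit 40, nat_lit 40, nat_lit 80, nat_lit 28, nat_lit 456, nat_lit 225, nat_lit 10]⟩,
 ⟨nat_lit 2236, nat_lit 2739, ⟨.ofNat (nat_lit 662956), .ofNat (nat_lit 722017), .ofNat (nat_lit 685373), .ofNat (nat_lit 744435), .ofNat (nat_lit 659578), .ofNat (nat_lit 716594), .ofNat (nat_lit 682352), .ofNat (nat_lit 739368)⟩, ⟨.ofNat (nat_lit 100000), .ofNat (nat_lit 188310), .ofNat (nat_lit 100000), .ofNat (nat_lit 200000), .ofNat (nat_lit 100000), .ofNat (nat_lit 192306), .ofNat (nat_lit 100000), .ofNat (nat_lit 200000)⟩⟩, [⟨nat_lit 22, nat_lit 90, nat_lit 100, nat_lit 74, nat_lit 13463132⟩]⟩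
noncomputable def p111_l87 : Lf2 := ⟨nat_lit 0, nat_lit 20, [nat_lit 5, nat_lit 5, nat_lit 5, nat_lit 20], false, nat_lit 8, nat_lit 40, nat_lit 0, nat_lit 248, ⟨nat_lit 363, nat_lit 637, nat_lit 0, nat_lit 7, nat_lit 291, nat_lit 637, nat_lit 24, nat_lit 0, nat_lit 0, nat_lit 0, nat_lit 0, nat_lit 0, nat_lit 43419471, nat_lit 23088113, nat_lit 492416, nat_lit 3475678, true, true⟩,
 nat_lit 0, nat_lit 0, nat_lit 4759, nat_lit 0, nat_lit 2911, nat_lit 2770, nat_lit 146, nat_lit 0, nat_lit 0, nat_lit 659, nat_lit 0, nat_lit 0, nat_lit 0, nat_lit 0, nat_lit 0, nat_lit 429400, nat_lit 0, nat_lit 0, [(nat_lit 25, [(nat_lit 1, nat_lit 346), (nat_lit 2, nat_lit 291)])],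
 ⟨p111_k16, nat_lit 0, nat_lit 0, nat_lit 146, nat_lit 0, nat_lit 0, [nat_lit 1060099201, nat_lit 1427252534, nat_lit 1450858400], [], [nat_lit 25181353766, nat_lit 25701758282, nat_lit 26702484854, nat_lit 27224633036, nat_lit 24873512996, nat_lit 25382225782, nat_lit 26364609988, nat_lit 26882138796], nat_lit 0, nat_lit 0, nat_lit 0, nat_lit 0, nat_lit 0, nat_lit 0, [], [nat_lit 20, nat_lit 40, nat_lit 40, nat_lit 80, nat_lit 16, nat_lit 215, nat_lit 10, nat_lit 7]⟩, ⟨p111_k18, nat_lit 0, nat_lit 0, nat_lit 708, nat_lit 0, nat_lit 1021816, [nat_lit 1701744000, nat_lit 2892384000, nat_lit 4309536000], [], [nat_lit 10826222588, nat_lit 10885107604, nat_lit 11056435278, nat_lit 11168883816, nat_lit 9136628235, nat_lit 9183787272, nat_lit 9318318963, nat_lit 9412437842], nat_lit 1271250, nat_lit 1271250, nat_lit 1271250, nat_lit 1271250, nat_lit 0, nat_lit 1751500, [nat_lit 1100000, nat_lit 1785000, nat_lit 1271250],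 [nat_lit 21, nat_lit 40, nat_lit 40, nat_lit 80, nat_lit 14, nat_lit 456, nat_lit 225, nat_lit 11]⟩,
 ⟨nat_lit 2738, nat_lit 3163, ⟨.ofNat (nat_lit 688370), .ofNat (nat_lit 749323), .ofNat (nat_lit 710514), .ofNat (nat_lit 771478), .ofNat (nat_lit 685373), .ofNat (nat_lit 744435), .ofNat (nat_lit 707780), .ofNat (nat_lit 766852)⟩, ⟨.ofNat (nat_lit 20000), .ofNat (nat_lit 100000), .ofNat (nat_lit 20000), .ofNat (nat_lit 100000), .ofNat (nat_lit 20000), .ofNat (nat_lit 100000), .ofNat (nat_lit 20000), .ofNat (nat_lit 100000)⟩⟩, [⟨nat_lit 3, nat_lit 100, nat_lit 65, nat_lit 50, nat_lit 835110⟩, ⟨nat_lit 22, nat_lit 87, nat_lit 100, nat_lit 48, nat_lit 61216225⟩]⟩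
noncomputable def p111_l88 : Lf2 := ⟨nat_lit 0, nat_lit 20, [nat_lit 5, nat_lit 5, nat_lit 5, nat_lit 20], false, nat_lit 12, nat_lit 40, nat_lit 0, nat_lit 248, ⟨nat_lit 208, nat_lit 792, nat_lit 0, nat_lit 7, nat_lit 290, nat_lit 792, nat_lit 26, nat_lit 0, nat_lit 0, nat_lit 0, nat_lit 0, nat_lit 0, nat_lit 43529533, nat_lit 22914344, nat_lit 556123, nat_lit 3493816, true, true⟩,
 nat_lit 0, nat_lit 0, nat_lit 3022, nat_lit 0, nat_lit 2518, nat_lit 1759, nat_lit 322, nat_lit 0, nat_lit 0, nat_lit 236, nat_lit 0, nat_lit 0, nat_lit 0, nat_lit 0, nat_lit 0, nat_lit 198000, nat_lit 0, nat_lit 0, [(nat_lit 25, [(nat_lit 0, nat_lit 792)])],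
 ⟨p111_k22, nat_lit 0, nat_lit 0, nat_lit 148, nat_lit 0, nat_lit 0, [nat_lit 800192001, nat_lit 1766745601, nat_lit 2977456000], [], [nat_lit 24948876220, nat_lit 25439253907, nat_lit 26372311630, nat_lit 26828357617, nat_lit 24763007451, nat_lit 25243964219, nat_lit 26162990947, nat_lit 26610852196], nat_lit 0, nat_lit 0, nat_lit 0, nat_lit 0, nat_lit 0, nat_lit 0, [], [nat_lit 20, nat_lit 40, nat_lit 40, nat_lit 80, nat_lit 16, nat_lit 215, nat_lit 10, nat_lit 7]⟩, ⟨p111_k18, nat_lit 0, nat_lit 0, nat_lit 801, nat_lit 0, nat_lit 1204723, [nat_lit 975104000, nat_lit 1657344000, nat_lit 2469376000], [], [nat_lit 6627926974, nat_lit 6672247400, nat_lit 6775607680, nat_lit 6809281084, nat_lit 5436900685, nat_lit 5452486082, nat_lit 5524102483, nat_lit 5556513539], nat_lit 1271250, nat_lit 1271250, nat_lit 1271250, nat_lit 1271250, nat_lit 0, nat_lit 1751500, [nat_lit 1100000, nat_lit 1785000, nat_lit 1271250], [nat_lit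 21, nat_lit 40, nat_lit 40, nat_lit 80, nat_lit 14, nat_lit 456, nat_lit 225, nat_lit 11]⟩,
 ⟨nat_lit 2236, nat_lit 2739, ⟨.ofNat (nat_lit 685373), .ofNat (nat_lit 744435), .ofNat (nat_lit 707780), .ofNat (nat_lit 766852), .ofNat (nat_lit 682352), .ofNat (nat_lit 739368), .ofNat (nat_lit 705116), .ofNat (nat_lit 762142)⟩, ⟨.ofNat (nat_lit 30000), .ofNat (nat_lit 100000), .ofNat (nat_lit 30000), .ofNat (nat_lit 100000), .ofNat (nat_lit 30000), .ofNat (nat_lit 100000), .ofNat (nat_lit 30000), .ofNat (nat_lit 100000)⟩⟩, [⟨nat_lit 3, nat_lit 100, nat_lit 56, nat_lit 60, nat_lit 90589808⟩, ⟨nat_lit 22, nat_lit 87, nat_lit 100, nat_lit 49, nat_lit 22639640⟩]⟩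
noncomputable def p111_l89 : Lf2 := ⟨nat_lit 0, nat_lit 20, [nat_lit 5, nat_lit 5, nat_lit 5, nat_lit 20], false, nat_lit 40, nat_lit 80, nat_lit 0, nat_lit 300, ⟨nat_lit 196, nat_lit 804, nat_lit 0, nat_lit 7, nat_lit 291, nat_lit 804, nat_lit 59, nat_lit 0, nat_lit 0, nat_lit 0, nat_lit 0, nat_lit 0, nat_lit 42395569, nat_lit 22739491, nat_lit 1864940, nat_lit 3924777, true, true⟩,
 nat_lit 0, nat_lit 0, nat_lit 2805, nat_lit 0, nat_lit 3005, nat_lit 1632, nat_lit 30, nat_lit 0, nat_lit 0, nat_lit 195, nat_lit 0, nat_lit 0, nat_lit 0, nat_lit 0, nat_lit 0, nat_lit 438000, nat_lit 0, nat_lit 0, [(nat_lit 25, [(nat_lit 1, nat_lit 610), (nat_lit 2, nat_lit 194)])],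
 ⟨p111_k16, nat_lit 0, nat_lit 0, nat_lit 128, nat_lit 0, nat_lit 0, [nat_lit 984045601, nat_lit 1180672267, nat_lit 1026904800], [], [nat_lit 24567257138, nat_lit 25094484658, nat_lit 26099927818, nat_lit 26619735860, nat_lit 24092069258, nat_lit 24604405678, nat_lit 25587315178, nat_lit 26060809933], nat_lit 0, nat_lit 0, nat_lit 0, nat_lit 0, nat_lit 0, nat_lit 0, [], [nat_lit 20, nat_lit 40, nat_lit 40, nat_lit 80, nat_lit 16, nat_lit 226, nat_lit 20, nat_lit 7]⟩, ⟨p111_k18, nat_lit 0, nat_lit 0, nat_lit 708, nat_lit 0, nat_lit 1021816, [nat_lit 918848000, nat_lit 1561728000, nat_lit 2326912000], [], [nat_lit 6579480048, nat_lit 6621703536, nat_lit 6718783672, nat_lit 6751101424, nat_lit 5545196492, nat_lit 5551824880, nat_lit 5602961598, nat_lit 5636948732], nat_lit 1271250, nat_lit 1271250, nat_lit 1271250, nat_lit 1271250, nat_lit 0, nat_lit 2118750, [nat_lit 1100000, nat_lit 1785000, nat_lit 1271250], [nat_lit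 21, nat_lit 40, nat_lit 40, nat_lit 80, nat_lit 14, nat_lit 456, nat_lit 225, nat_lit 11]⟩,
 ⟨nat_lit 2738, nat_lit 3163, ⟨.ofNat (nat_lit 688370), .ofNat (nat_lit 749323), .ofNat (nat_lit 710514), .ofNat (nat_lit 771478), .ofNat (nat_lit 685373), .ofNat (nat_lit 744435), .ofNat (nat_lit 707780), .ofNat (nat_lit 766852)⟩, ⟨.ofNat (nat_lit 100000), .ofNat (nat_lit 184209), .ofNat (nat_lit 100000), .ofNat (nat_lit 200000), .ofNat (nat_lit 100000), .ofNat (nat_lit 188310), .ofNat (nat_lit 100000), .ofNat (nat_lit 200000)⟩⟩, [⟨nat_lit 22, nat_lit 90, nat_lit 100, nat_lit 74, nat_lit 24793119⟩]⟩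
noncomputable def p111_l90 : Lf2 := ⟨nat_lit 0, nat_lit 20, [nat_lit 5, nat_lit 5, nat_lit 5, nat_lit 20], false, nat_lit 40, nat_lit 80, nat_lit 0, nat_lit 300, ⟨nat_lit 202, nat_lit 798, nat_lit 0, nat_lit 7, nat_lit 290, nat_lit 798, nat_lit 59, nat_lit 0, nat_lit 0, nat_lit 0, nat_lit 0, nat_lit 0, nat_lit 42531460, nat_lit 22580658, nat_lit 1887882, nat_lit 3923754, true, true⟩,
 nat_lit 0, nat_lit 0, nat_lit 2887, nat_lit 0, nat_lit 2559, nat_lit 1680, nat_lit 317, nat_lit 0, nat_lit 0, nat_lit 196, nat_lit 0, nat_lit 0, nat_lit 0, nat_lit 0, nat_lit 0, nat_lit 199500, nat_lit 0, nat_lit 0, [(nat_lit 25, [(nat_lit 0, nat_lit 798)])],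
 ⟨p111_k22, nat_lit 0, nat_lit 0, nat_lit 132, nat_lit 0, nat_lit 0, [nat_lit 799148001, nat_lit 1755266400, nat_lit 2952664000], [], [nat_lit 24471255083, nat_lit 24966012019, nat_lit 25901780698, nat_lit 26360104425, nat_lit 24141065319, nat_lit 24622233475, nat_lit 25538485628, nat_lit 25984796237], nat_lit 0, nat_lit 0, nat_lit 0, nat_lit 0, nat_lit 0, nat_lit 0, [], [nat_lit 20, nat_lit 40, nat_lit 40, nat_lit 80, nat_lit 16, nat_lit 226, nat_lit 20, nat_lit 7]⟩, ⟨p111_k18, nat_lit 0, nat_lit 0, nat_lit 801, nat_lit 0, nat_lit 1204723, [nat_lit 946976000, nat_lit 1609536000, nat_lit 2398144000], [], [nat_lit 6830182416, nat_lit 6873733776, nat_lit 6973761412, nat_lit 7007113552, nat_lit 5766507110, nat_lit 5773405840, nat_lit 5826126963, nat_lit 5840276316], nat_lit 1271250, nat_lit 1271250, nat_lit 1271250, nat_lit 1271250, nat_lit 0, nat_lit 2118750, [nat_lit 1100000, nat_lit 1785000, nat_lit 1271250], [nat_lit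 21, nat_lit 40, nat_lit 40, nat_lit 80, nat_lit 14, nat_lit 456, nat_lit 225, nat_lit 11]⟩,
 ⟨nat_lit 2236, nat_lit 2739, ⟨.ofNat (nat_lit 685373), .ofNat (nat_lit 744435), .ofNat (nat_lit 707780), .ofNat (nat_lit 766852), .ofNat (nat_lit 682352), .ofNat (nat_lit 739368), .ofNat (nat_lit 705116), .ofNat (nat_lit 762142)⟩, ⟨.ofNat (nat_lit 100000), .ofNat (nat_lit 188310), .ofNat (nat_lit 100000), .ofNat (nat_lit 200000), .ofNat (nat_lit 100000), .ofNat (nat_lit 192306), .ofNat (nat_lit 100000), .ofNat (nat_lit 200000)⟩⟩, [⟨nat_lit 22, nat_lit 90, nat_lit 100, nat_lit 74, nat_lit 25372283⟩]⟩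
noncomputable def p111_l91 : Lf2 := ⟨nat_lit 0, nat_lit 20, [nat_lit 5, nat_lit 5, nat_lit 5, nat_lit 20], false, nat_lit 20, nat_lit 80, nat_lit 0, nat_lit 300, ⟨nat_lit 88, nat_lit 912, nat_lit 0, nat_lit 7, nat_lit 275, nat_lit 912, nat_lit 50, nat_lit 0, nat_lit 0, nat_lit 0, nat_lit 0, nat_lit 0, nat_lit 44321215, nat_lit 21193655, nat_lit 1485130, nat_lit 3731504, true, true⟩,
 nat_lit 0, nat_lit 0, nat_lit 1533, nat_lit 0, nat_lit 2174, nat_lit 811, nat_lit 107, nat_lit 0, nat_lit 0, nat_lit 54, nat_lit 0, nat_lit 0, nat_lit 0, nat_lit 0, nat_lit 0, nat_lit 364800, nat_lit 0, nat_lit 0, [(nat_lit 28, [(nat_lit 1, nat_lit 912)])],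
 ⟨p111_k19, nat_lit 0, nat_lit 0, nat_lit 151, nat_lit 0, nat_lit 0, [nat_lit 718755200, nat_lit 585033600, nat_lit 675856000], [], [nat_lit 24552146237, nat_lit 25546594867, nat_lit 25976101265, nat_lit 27039973132, nat_lit 24259498259, nat_lit 25213831495, nat_lit 25636595471, nat_lit 26658607984], nat_lit 0, nat_lit 0, nat_lit 0, nat_lit 0, nat_lit 0, nat_lit 0, [], [nat_lit 20, nat_lit 40, nat_lit 40, nat_lit 80, nat_lit 16, nat_lit 226, nat_lit 20, nat_lit 7]⟩, ⟨p111_k17, nat_lit 0, nat_lit 0, nat_lit 1068, nat_lit 0, nat_lit 1661493, [nat_lit 412544000, nat_lit 701184000, nat_lit 1237104000], [], [nat_lit 3593816084, nat_lit 3587859987, nat_lit 3590449340, nat_lit 3583597346, nat_lit 2947220559, nat_lit 2940144793, nat_lit 2937337104, nat_lit 2952620735], nat_lit 1271250, nat_lit 1271250, nat_lit 1271250, nat_lit 1271250, nat_lit 0, nat_lit 2118750, [nat_lit 1100000, nat_lit 1785000, nat_lit 1271250], [nat_lit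 37, nat_lit 40, nat_lit 40, nat_lit 80, nat_lit 28, nat_lit 456, nat_lit 225, nat_lit 10]⟩,
 ⟨nat_lit 0, nat_lit 2237, ⟨.ofNat (nat_lit 659577), .ofNat (nat_lit 716590), .ofNat (nat_lit 670965), .ofNat (nat_lit 727978), .ofNat (nat_lit 649998), .ofNat (nat_lit 699995), .ofNat (nat_lit 662499), .ofNat (nat_lit 712496)⟩, ⟨.ofNat (nat_lit 50000), .ofNat (nat_lit 192306), .ofNat (nat_lit 50000), .ofNat (nat_lit 200000), .ofNat (nat_lit 50000), .ofNat (nat_lit 199999), .ofNat (nat_lit 50000), .ofNat (nat_lit 200000)⟩⟩, [⟨nat_lit 13, nat_lit 45, nat_lit 79, nat_lit 100, nat_lit 256735887⟩, ⟨nat_lit 3, nat_lit 100, nat_lit 36, nat_lit 77, nat_lit 276662107⟩, ⟨nat_lit 22, nat_lit 88, nat_lit 100, nat_lit 67, nat_lit 9669372⟩]⟩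
noncomputable def p111_l92 : Lf2 := ⟨nat_lit 0, nat_lit 20, [nat_lit 5, nat_lit 5, nat_lit 5, nat_lit 20], false, nat_lit 20, nat_lit 80, nat_lit 0, nat_lit 300, ⟨nat_lit 94, nat_lit 906, nat_lit 0, nat_lit 7, nat_lit 280, nat_lit 906, nat_lit 50, nat_lit 0, nat_lit 0, nat_lit 0, nat_lit 0, nat_lit 0, nat_lit 43839737, nat_lit 21683579, nat_lit 1476684, nat_lit 3755639, true, true⟩,
 nat_lit 0, nat_lit 0, nat_lit 1532, nat_lit 0, nat_lit 2177, nat_lit 850, nat_lit 97, nat_lit 0, nat_lit 0, nat_lit 103, nat_lit 0, nat_lit 0, nat_lit 0, nat_lit 0, nat_lit 0, nat_lit 362400, nat_lit 0, nat_lit 0, [(nat_lit 28, [(nat_lit 1, nat_lit 906)])],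
 ⟨p111_k19, nat_lit 0, nat_lit 0, nat_lit 151, nat_lit 0, nat_lit 0, [nat_lit 720197600, nat_lit 602776800, nat_lit 712528000], [], [nat_lit 24702875726, nat_lit 25697809591, nat_lit 26127273470, nat_lit 27050084148, nat_lit 24408596507, nat_lit 25363386385, nat_lit 25786110533, nat_lit 26673426453], nat_lit 0, nat_lit 0, nat_lit 0, nat_lit 0, nat_lit 0, nat_lit 0, [], [nat_lit 20, nat_lit 40, nat_lit 40, nat_lit 80, nat_lit 16, nat_lit 226, nat_lit 20, nat_lit 7]⟩, ⟨p111_k23, nat_lit 0, nat_lit 0, nat_lit 1016, nat_lit 0, nat_lit 1592068, [nat_lit 440672000, nat_lit 748992000, nat_lit 1321452000], [], [nat_lit 3323212296, nat_lit 3321351152, nat_lit 3337792256, nat_lit 3334461376, nat_lit 2668915052, nat_lit 2661738022, nat_lit 2669272793, nat_lit 2672285389], nat_lit 1271250, nat_lit 1271250, nat_lit 1271250, nat_lit 1271250, nat_lit 0, nat_lit 2118750, [nat_lit 1100000, nat_lit 1785000, nat_lit 1271250], [nat_lit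 37, nat_lit 40, nat_lit 40, nat_lit 80, nat_lit 28, nat_lit 456, nat_lit 225, nat_lit 10]⟩,
 ⟨nat_lit 0, nat_lit 2237, ⟨.ofNat (nat_lit 670965), .ofNat (nat_lit 727978), .ofNat (nat_lit 682352), .ofNat (nat_lit 739366), .ofNat (nat_lit 662499), .ofNat (nat_lit 712496), .ofNat (nat_lit 674999), .ofNat (nat_lit 724997)⟩, ⟨.ofNat (nat_lit 50000), .ofNat (nat_lit 192306), .ofNat (nat_lit 50000), .ofNat (nat_lit 200000), .ofNat (nat_lit 50000), .ofNat (nat_lit 199999), .ofNat (nat_lit 50000), .ofNat (nat_lit 200000)⟩⟩, [⟨nat_lit 13, nat_lit 32, nat_lit 86, nat_lit 100, nat_lit 156866769⟩, ⟨nat_lit 3, nat_lit 100, nat_lit 36, nat_lit 77, nat_lit 274333117⟩, ⟨nat_lit 22, nat_lit 88, nat_lit 100, nat_lit 67, nat_lit 10418464⟩]⟩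
noncomputable def p111_l93 : Lf2 := ⟨nat_lit 0, nat_lit 20, [nat_lit 5, nat_lit 5, nat_lit 5, nat_lit 20], false, nat_lit 20, nat_lit 80, nat_lit 0, nat_lit 300, ⟨nat_lit 104, nat_lit 896, nat_lit 0, nat_lit 7, nat_lit 285, nat_lit 896, nat_lit 50, nat_lit 0, nat_lit 0, nat_lit 0, nat_lit 0, nat_lit 0, nat_lit 43360884, nat_lit 22171118, nat_lit 1467998, nat_lit 3778326, true, true⟩,
 nat_lit 0, nat_lit 0, nat_lit 1488, nat_lit 0, nat_lit 2432, nat_lit 866, nat_lit 33, nat_lit 0, nat_lit 0, nat_lit 100, nat_lit 0, nat_lit 0, nat_lit 0, nat_lit 0, nat_lit 0, nat_lit 358400, nat_lit 0, nat_lit 0, [(nat_lit 28, [(nat_lit 1, nat_lit 896)])],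
 ⟨p111_k19, nat_lit 0, nat_lit 0, nat_lit 151, nat_lit 0, nat_lit 0, [nat_lit 722601600, nat_lit 632348801, nat_lit 773648000], [], [nat_lit 25277888541, nat_lit 26314067381, nat_lit 26739917145, nat_lit 27698711893, nat_lit 24862968603, nat_lit 25838558285, nat_lit 26257897053, nat_lit 27179117773], nat_lit 0, nat_lit 0, nat_lit 0, nat_lit 0, nat_lit 0, nat_lit 0, [], [nat_lit 20, nat_lit 40, nat_lit 40, nat_lit 80, nat_lit 16, nat_lit 226, nat_lit 20, nat_lit 7]⟩, ⟨p111_k18, nat_lit 0, nat_lit 0, nat_lit 937, nat_lit 0, nat_lit 1535250, [nat_lit 487552000, nat_lit 828672000, nat_lit 1234688000], [], [nat_lit 3519602372, nat_lit 3530804154, nat_lit 3593518352, nat_lit 3602091980, nat_lit 2970751561, nat_lit 2972509411, nat_lit 3001400633, nat_lit 3001370345], nat_lit 1271250, nat_lit 1271250, nat_lit 1271250, nat_lit 1271250, nat_lit 0, nat_lit 2118750, [nat_lit 1100000, nat_lit 1785000, nat_lit 1271250], [nat_lit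 21, nat_lit 40, nat_lit 40, nat_lit 80, nat_lit 14, nat_lit 456, nat_lit 225, nat_lit 11]⟩,
 ⟨nat_lit 0, nat_lit 2237, ⟨.ofNat (nat_lit 682352), .ofNat (nat_lit 739366), .ofNat (nat_lit 693740), .ofNat (nat_lit 750753), .ofNat (nat_lit 674999), .ofNat (nat_lit 724997), .ofNat (nat_lit 687499), .ofNat (nat_lit 737497)⟩, ⟨.ofNat (nat_lit 50000), .ofNat (nat_lit 192306), .ofNat (nat_lit 50000), .ofNat (nat_lit 200000), .ofNat (nat_lit 50000), .ofNat (nat_lit 199999), .ofNat (nat_lit 50000), .ofNat (nat_lit 200000)⟩⟩, [⟨nat_lit 13, nat_lit 33, nat_lit 84, nat_lit 100, nat_lit 93190667⟩, ⟨nat_lit 3, nat_lit 100, nat_lit 36, nat_lit 77, nat_lit 298316028⟩, ⟨nat_lit 22, nat_lit 88, nat_lit 100, nat_lit 67, nat_lit 14761247⟩]⟩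
noncomputable def p111_l94 : Lf2 := ⟨nat_lit 0, nat_lit 20, [nat_lit 5, nat_lit 5, nat_lit 5, nat_lit 20], false, nat_lit 20, nat_lit 80, nat_lit 0, nat_lit 300, ⟨nat_lit 126, nat_lit 874, nat_lit 0, nat_lit 7, nat_lit 289, nat_lit 874, nat_lit 50, nat_lit 0, nat_lit 0, nat_lit 0, nat_lit 0, nat_lit 0, nat_lit 42885445, nat_lit 22655457, nat_lit 1459098, nat_lit 3799567, true, true⟩,
 nat_lit 0, nat_lit 0, nat_lit 1578, nat_lit 0, nat_lit 2443, nat_lit 960, nat_lit 44, nat_lit 0, nat_lit 0, nat_lit 127, nat_lit 0, nat_lit 0, nat_lit 0, nat_lit 0, nat_lit 0, nat_lit 349600, nat_lit 0, nat_lit 0, [(nat_lit 28, [(nat_lit 1, nat_lit 874)])],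
 ⟨p111_k19, nat_lit 0, nat_lit 0, nat_lit 151, nat_lit 0, nat_lit 0, [nat_lit 727890400, nat_lit 697407201, nat_lit 908112000], [], [nat_lit 25295653959, nat_lit 26333611994, nat_lit 26759305855, nat_lit 27719652857, nat_lit 24880735649, nat_lit 25852016840, nat_lit 26271209572, nat_lit 27193892852], nat_lit 0, nat_lit 0, nat_lit 0, nat_lit 0, nat_lit 0, nat_lit 0, [], [nat_lit 20, nat_lit 40, nat_lit 40, nat_lit 80, nat_lit 16, nat_lit 226, nat_lit 20, nat_lit 7]⟩, ⟨p111_k24, nat_lit 0, nat_lit 0, nat_lit 908, nat_lit 0, nat_lit 1488708, [nat_lit 590688000, nat_lit 1003968000, nat_lit 1495872000], [], [nat_lit 4116267670, nat_lit 4122657400, nat_lit 4164720028, nat_lit 4169055232, nat_lit 3550397152, nat_lit 3553470970, nat_lit 3582879004, nat_lit 3584247082], nat_lit 1271250, nat_lit 1271250, nat_lit 1271250, nat_lit 1271250, nat_lit 0, nat_lit 2118750, [nat_lit 1100000, nat_lit 1785000, nat_lit 1271250], [nat_lit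 21, nat_lit 40, nat_lit 40, nat_lit 80, nat_lit 14, nat_lit 456, nat_lit 225, nat_lit 11]⟩,
 ⟨nat_lit 0, nat_lit 2237, ⟨.ofNat (nat_lit 693740), .ofNat (nat_lit 750753), .ofNat (nat_lit 705063), .ofNat (nat_lit 762141), .ofNat (nat_lit 687499), .ofNat (nat_lit 737497), .ofNat (nat_lit 699935), .ofNat (nat_lit 749998)⟩, ⟨.ofNat (nat_lit 50000), .ofNat (nat_lit 192306), .ofNat (nat_lit 50000), .ofNat (nat_lit 200000), .ofNat (nat_lit 50000), .ofNat (nat_lit 199999), .ofNat (nat_lit 50000), .ofNat (nat_lit 200000)⟩⟩, [⟨nat_lit 13, nat_lit 34, nat_lit 82, nat_lit 100, nat_lit 115683655⟩, ⟨nat_lit 3, nat_lit 100, nat_lit 36, nat_lit 77, nat_lit 266330595⟩, ⟨nat_lit 22, nat_lit 88, nat_lit 100, nat_lit 67, nat_lit 21947340⟩]⟩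
noncomputable def b_V_900_600_20_10 : St := ⟨true, nat_lit 0, nat_lit 1, nat_lit 1, nat_lit 120, nat_lit 360, nat_lit 400, nat_lit 240, nat_lit 280, nat_lit 240, nat_lit 320, nat_lit 80, nat_lit 120, nat_lit 8, nat_lit 80, nat_lit 0, nat_lit 336, nat_lit 40, nat_lit 80, nat_lit 0, nat_lit 0, nat_lit 0, nat_lit 0⟩
theorem d_V_900_600_20_10 (h : EB TB.env) : Dead b_V_900_600_20_10 := chkB_sound0 h (T :=
(.spl (nat_lit 2) (nat_lit 280)
(.spl (nat_lit 0) (nat_lit 380)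
(.spl (nat_lit 1) (nat_lit 260)
(.spl (nat_lit 0) (nat_lit 370)
(.leaf p111_l77)
(.trZ (nat_lit 3) (nat_lit 100) (nat_lit 66) (nat_lit 45) (nat_lit 12) (.leaf p111_l78)))
(.spl (nat_lit 4) (nat_lit 40)
(.trX (nat_lit 22) (nat_lit 100) (nat_lit 92) (nat_lit 61) (nat_lit 288) (.leaf p111_l79))
(.leaf p111_l80)))
(.trZ (nat_lit 3) (nat_lit 100) (nat_lit 54) (nat_lit 57) (nat_lit 20) (.spl (nat_lit 1) (nat_lit 260)
(.leaf p111_l81)
(.leaf p111_l82))))
(.trX (nat_lit 22) (nat_lit 100) (nat_lit 95) (nat_lit 87) (nat_lit 300) (.spl (nat_lit 0) (nat_lit 380)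
(.spl (nat_lit 1) (nat_lit 260)
(.spl (nat_lit 4) (nat_lit 40)
(.trX (nat_lit 22) (nat_lit 94) (nat_lit 100) (nat_lit 62) (nat_lit 248) (.spl (nat_lit 0) (nat_lit 370)
(.leaf p111_l83)
(.trZ (nat_lit 3) (nat_lit 100) (nat_lit 66) (nat_lit 45) (nat_lit 12) (.leaf p111_l84))))
(.spl (nat_lit 0) (nat_lit 370)
(.leaf p111_l85)
(.leaf p111_l86)))
(.spl (nat_lit 4) (nat_lit 40)
(.trX (nat_lit 22) (nat_lit 94) (nat_lit 100) (nat_lit 62) (nat_lit 248) (.spl (nat_lit 0) (nat_lit 370)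
(.leaf p111_l87)
(.trZ (nat_lit 3) (nat_lit 100) (nat_lit 66) (nat_lit 45) (nat_lit 12) (.leaf p111_l88))))
(.spl (nat_lit 0) (nat_lit 370)
(.leaf p111_l89)
(.leaf p111_l90))))
(.trZ (nat_lit 3) (nat_lit 100) (nat_lit 54) (nat_lit 57) (nat_lit 20) (.spl (nat_lit 1) (nat_lit 260)
(.spl (nat_lit 1) (nat_lit 250)
(.leaf p111_l91)
(.leaf p111_l92))
(.spl (nat_lit 1) (nat_lit 270)
(.leaf p111_l93)
(.leaf p111_l94)))))))) (by decide +kernel)
noncomputable def p111_l95 : Lf2 := ⟨nat_lit 0, nat_lit 20, [nat_lit 5, nat_lit 5, nat_lit 5, nat_lit 20], false, nat_lit 8, nat_lit 40, nat_lit 0, nat_lit 200, ⟨nat_lit 180, nat_lit 820, nat_lit 0, nat_lit 8, nat_lit 308, nat_lit 820, nat_lit 24, nat_lit 0, nat_lit 0, nat_lit 0, nat_lit 0, nat_lit 0, nat_lit 41708520, nat_lit 24810132, nat_lit 481348, nat_lit 3545301, true, true⟩,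
 nat_lit 0, nat_lit 0, nat_lit 2897, nat_lit 0, nat_lit 2623, nat_lit 1533, nat_lit 134, nat_lit 0, nat_lit 0, nat_lit 147, nat_lit 0, nat_lit 0, nat_lit 0, nat_lit 0, nat_lit 0, nat_lit 400600, nat_lit 0, nat_lit 0, [(nat_lit 25, [(nat_lit 1, nat_lit 699), (nat_lit 2, nat_lit 121)])],
 ⟨p111_k16, nat_lit 0, nat_lit 0, nat_lit 156, nat_lit 0, nat_lit 0, [nat_lit 937031601, nat_lit 1245158267, nat_lit 1292970000], [], [nat_lit 26563657346, nat_lit 26794889717, nat_lit 28334937308, nat_lit 28568699468, nat_lit 26305077405, nat_lit 26531426654, nat_lit 28041123137, nat_lit 28272312129], nat_lit 0, nat_lit 0, nat_lit 0, nat_lit 0, nat_lit 0, nat_lit 0, [], [nat_lit 20, nat_lit 40, nat_lit 40, nat_lit 80, nat_lit 16, nat_lit 215, nat_lit 10, nat_lit 7]⟩, ⟨p111_k17, nat_lit 0, nat_lit 0, nat_lit 730, nat_lit 0, nat_lit 912654, [nat_lit 843840000, nat_lit 1434240000, nat_lit 2530440000], [], [nat_lit 7192922652, nat_lit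 7218523416, nat_lit 7392591511, nat_lit 7416510839, nat_lit 6054709938, nat_lit 6090264282, nat_lit 6270497990, nat_lit 6294737349], nat_lit 1271250, nat_lit 1271250, nat_lit 1271250, nat_lit 1271250, nat_lit 0, nat_lit 1412500, [nat_lit 1100000, nat_lit 1785000, nat_lit 1271250], [nat_lit 37, nat_lit 40, nat_lit 40, nat_lit 80, nat_lit 28, nat_lit 456, nat_lit 225, nat_lit 10]⟩,
 ⟨nat_lit 2958, nat_lit 3163, ⟨.ofNat (nat_lit 727168), .ofNat (nat_lit 794217), .ofNat (nat_lit 749323), .ofNat (nat_lit 816372), .ofNat (nat_lit 724616), .ofNat (nat_lit 790639), .ofNat (nat_lit 746893), .ofNat (nat_lit 812916)⟩, ⟨.ofNat (nat_lit 20000), .ofNat (nat_lit 100000), .ofNat (nat_lit 20000), .ofNat (nat_lit 100000), .ofNat (nat_lit 20000), .ofNat (nat_lit 100000), .ofNat (nat_lit 20000), .ofNat (nat_lit 100000)⟩⟩, [⟨nat_lit 13, nat_lit 60, nat_lit 66, nat_lit 100, nat_lit 202085511⟩, ⟨nat_lit 3, nat_lit 100, nat_lit 67, nat_lit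 48, nat_lit 124194584⟩, ⟨nat_lit 22, nat_lit 74, nat_lit 100, nat_lit 50, nat_lit 628692⟩]⟩
noncomputable def p111_l96 : Lf2 := ⟨nat_lit 0, nat_lit 20, [nat_lit 5, nat_lit 5, nat_lit 5, nat_lit 20], false, nat_lit 8, nat_lit 40, nat_lit 0, nat_lit 200, ⟨nat_lit 167, nat_lit 833, nat_lit 0, nat_lit 8, nat_lit 306, nat_lit 833, nat_lit 24, nat_lit 0, nat_lit 0, nat_lit 0, nat_lit 0, nat_lit 0, nat_lit 41924873, nat_lit 24592317, nat_lit 482810, nat_lit 3537314, true, true⟩,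
 nat_lit 0, nat_lit 0, nat_lit 2692, nat_lit 0, nat_lit 2543, nat_lit 1425, nat_lit 190, nat_lit 0, nat_lit 0, nat_lit 136, nat_lit 0, nat_lit 0, nat_lit 0, nat_lit 0, nat_lit 0, nat_lit 333200, nat_lit 0, nat_lit 0, [(nat_lit 25, [(nat_lit 1, nat_lit 833)])],
 ⟨p111_k25, nat_lit 0, nat_lit 0, nat_lit 156, nat_lit 0, nat_lit 0, [nat_lit 860364401, nat_lit 1382871067, nat_lit 1806111600], [], [nat_lit 26605348379, nat_lit 26742560106, nat_lit 28173446082, nat_lit 28301835278, nat_lit 26363992804, nat_lit 26498323330, nat_lit 27901363114, nat_lit 28026434451], nat_lit 0, nat_lit 0, nat_lit 0, nat_lit 0, nat_lit 0, nat_lit 0, [], [nat_lit 20, nat_lit 40, nat_lit 40, nat_lit 80, nat_lit 16, nat_lit 215, nat_lit 10, nat_lit 7]⟩, ⟨p111_k17, nat_lit 0, nat_lit 0, nat_lit 753, nat_lit 0, nat_lit 977087, [nat_lit 782896000, nat_lit 1330656000, nat_lit 2347686000], [], [nat_lit 6668894524, nat_lit 6692575026, nat_lit 6834222728,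 nat_lit 6848559006, nat_lit 5606218500, nat_lit 5639151914, nat_lit 5785381600, nat_lit 5808779473], nat_lit 1271250, nat_lit 1271250, nat_lit 1271250, nat_lit 1271250, nat_lit 0, nat_lit 1412500, [nat_lit 1100000, nat_lit 1785000, nat_lit 1271250], [nat_lit 37, nat_lit 40, nat_lit 40, nat_lit 80, nat_lit 28, nat_lit 456, nat_lit 225, nat_lit 10]⟩,
 ⟨nat_lit 2828, nat_lit 2959, ⟨.ofNat (nat_lit 724616), .ofNat (nat_lit 784637), .ofNat (nat_lit 746893), .ofNat (nat_lit 806914), .ofNat (nat_lit 723063), .ofNat (nat_lit 782512), .ofNat (nat_lit 745422), .ofNat (nat_lit 804871)⟩, ⟨.ofNat (nat_lit 20000), .ofNat (nat_lit 100000), .ofNat (nat_lit 20000), .ofNat (nat_lit 100000), .ofNat (nat_lit 20000), .ofNat (nat_lit 100000), .ofNat (nat_lit 20000), .ofNat (nat_lit 100000)⟩⟩, [⟨nat_lit 13, nat_lit 59, nat_lit 65, nat_lit 100, nat_lit 211268911⟩, ⟨nat_lit 3, nat_lit 100, nat_lit 64, nat_lit 51, nat_lit 69416276⟩, ⟨nat_lit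 3, nat_lit 100, nat_lit 71, nat_lit 40, nat_lit 54976205⟩]⟩
noncomputable def p111_l97 : Lf2 := ⟨nat_lit 0, nat_lit 20, [nat_lit 5, nat_lit 5, nat_lit 5, nat_lit 20], false, nat_lit 12, nat_lit 40, nat_lit 0, nat_lit 200, ⟨nat_lit 153, nat_lit 847, nat_lit 0, nat_lit 8, nat_lit 304, nat_lit 847, nat_lit 26, nat_lit 0, nat_lit 0, nat_lit 0, nat_lit 0, nat_lit 0, nat_lit 42060090, nat_lit 24394362, nat_lit 545548, nat_lit 3555364, true, true⟩,
 nat_lit 0, nat_lit 0, nat_lit 2522, nat_lit 0, nat_lit 2505, nat_lit 1335, nat_lit 289, nat_lit 0, nat_lit 0, nat_lit 112, nat_lit 0, nat_lit 0, nat_lit 0, nat_lit 0, nat_lit 0, nat_lit 211750, nat_lit 0, nat_lit 0, [(nat_lit 25, [(nat_lit 0, nat_lit 847)])],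
 ⟨p111_k26, nat_lit 0, nat_lit 0, nat_lit 154, nat_lit 0, nat_lit 0, [nat_lit 790622001, nat_lit 1661519600, nat_lit 2750196000], [], [nat_lit 26542796091, nat_lit 26633548632, nat_lit 27934815951, nat_lit 28025242285, nat_lit 26338297567, nat_lit 26427382892, nat_lit 27706582186, nat_lit 27793142880], nat_lit 0, nat_lit 0, nat_lit 0, nat_lit 0, nat_lit 0, nat_lit 0, [], [nat_lit 20, nat_lit 40, nat_lit 40, nat_lit 80, nat_lit 16, nat_lit 215, nat_lit 10, nat_lit 7]⟩, ⟨p111_k17, nat_lit 0, nat_lit 0, nat_lit 768, nat_lit 0, nat_lit 1020304, [nat_lit 717264000, nat_lit 1219104000, nat_lit 2150874000], [], [nat_lit 6278129548, nat_lit 6281350876, nat_lit 6366176246, nat_lit 6377917519, nat_lit 5304724314, nat_lit 5314364694, nat_lit 5401148723, nat_lit 5404754277], nat_lit 1271250, nat_lit 1271250, nat_lit 1271250, nat_lit 1271250, nat_lit 0, nat_lit 1412500, [nat_lit 1100000, nat_lit 1785000, nat_lit 1271250], [nat_lit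 37, nat_lit 40, nat_lit 40, nat_lit 80, nat_lit 28, nat_lit 456, nat_lit 225, nat_lit 10]⟩,
 ⟨nat_lit 2738, nat_lit 2829, ⟨.ofNat (nat_lit 723063), .ofNat (nat_lit 776567), .ofNat (nat_lit 745422), .ofNat (nat_lit 798926), .ofNat (nat_lit 722017), .ofNat (nat_lit 775172), .ofNat (nat_lit 744435), .ofNat (nat_lit 797590)⟩, ⟨.ofNat (nat_lit 30000), .ofNat (nat_lit 100000), .ofNat (nat_lit 30000), .ofNat (nat_lit 100000), .ofNat (nat_lit 30000), .ofNat (nat_lit 100000), .ofNat (nat_lit 30000), .ofNat (nat_lit 100000)⟩⟩, [⟨nat_lit 13, nat_lit 57, nat_lit 67, nat_lit 100, nat_lit 219389989⟩, ⟨nat_lit 3, nat_lit 100, nat_lit 68, nat_lit 43, nat_lit 114242045⟩]⟩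
noncomputable def p111_l98 : Lf2 := ⟨nat_lit 0, nat_lit 20, [nat_lit 5, nat_lit 5, nat_lit 5, nat_lit 20], false, nat_lit 12, nat_lit 40, nat_lit 0, nat_lit 200, ⟨nat_lit 151, nat_lit 849, nat_lit 0, nat_lit 8, nat_lit 302, nat_lit 849, nat_lit 26, nat_lit 0, nat_lit 0, nat_lit 0, nat_lit 0, nat_lit 0, nat_lit 42262679, nat_lit 24190259, nat_lit 547062, nat_lit 3547536, true, true⟩,
 nat_lit 0, nat_lit 0, nat_lit 2497, nat_lit 0, nat_lit 2418, nat_lit 1321, nat_lit 294, nat_lit 0, nat_lit 0, nat_lit 111, nat_lit 0, nat_lit 0, nat_lit 0, nat_lit 0, nat_lit 0, nat_lit 212250, nat_lit 0, nat_lit 0, [(nat_lit 25, [(nat_lit 0, nat_lit 849)])],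
 ⟨p111_k22, nat_lit 0, nat_lit 0, nat_lit 154, nat_lit 0, nat_lit 0, [nat_lit 790274001, nat_lit 1657693200, nat_lit 2741932000], [], [nat_lit 26453014639, nat_lit 26677138068, nat_lit 27672414281, nat_lit 27882584466, nat_lit 26267962746, nat_lit 26487995330, nat_lit 27466785502, nat_lit 27673276420], nat_lit 0, nat_lit 0, nat_lit 0, nat_lit 0, nat_lit 0, nat_lit 0, [], [nat_lit 20, nat_lit 40, nat_lit 40, nat_lit 80, nat_lit 16, nat_lit 215, nat_lit 10, nat_lit 7]⟩, ⟨p111_k17, nat_lit 0, nat_lit 0, nat_lit 807, nat_lit 0, nat_lit 1130200, [nat_lit 707888000, nat_lit 1203168000, nat_lit 2122758000], [], [nat_lit 6176654816, nat_lit 6179711056, nat_lit 6253868282, nat_lit 6257324351, nat_lit 5217399910, nat_lit 5226808810, nat_lit 5301984365, nat_lit 5306087680], nat_lit 1271250, nat_lit 1271250, nat_lit 1271250, nat_lit 1271250, nat_lit 0, nat_lit 1412500, [nat_lit 1100000, nat_lit 1785000, nat_lit 1271250], [nat_lit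 37, nat_lit 40, nat_lit 40, nat_lit 80, nat_lit 28, nat_lit 456, nat_lit 225, nat_lit 10]⟩,
 ⟨nat_lit 2500, nat_lit 2739, ⟨.ofNat (nat_lit 722017), .ofNat (nat_lit 769266), .ofNat (nat_lit 744435), .ofNat (nat_lit 791684), .ofNat (nat_lit 719353), .ofNat (nat_lit 765805), .ofNat (nat_lit 741934), .ofNat (nat_lit 788386)⟩, ⟨.ofNat (nat_lit 30000), .ofNat (nat_lit 100000), .ofNat (nat_lit 30000), .ofNat (nat_lit 100000), .ofNat (nat_lit 30000), .ofNat (nat_lit 100000), .ofNat (nat_lit 30000), .ofNat (nat_lit 100000)⟩⟩, [⟨nat_lit 13, nat_lit 52, nat_lit 73, nat_lit 100, nat_lit 241895219⟩, ⟨nat_lit 3, nat_lit 100, nat_lit 58, nat_lit 57, nat_lit 129748203⟩]⟩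
noncomputable def p111_l99 : Lf2 := ⟨nat_lit 0, nat_lit 20, [nat_lit 5, nat_lit 5, nat_lit 5, nat_lit 20], false, nat_lit 16, nat_lit 40, nat_lit 0, nat_lit 200, ⟨nat_lit 144, nat_lit 856, nat_lit 0, nat_lit 8, nat_lit 300, nat_lit 856, nat_lit 28, nat_lit 0, nat_lit 0, nat_lit 0, nat_lit 0, nat_lit 0, nat_lit 42454118, nat_lit 23932768, nat_lit 613114, nat_lit 3563242, true, true⟩,
 nat_lit 0, nat_lit 0, nat_lit 2397, nat_lit 0, nat_lit 2314, nat_lit 1269, nat_lit 278, nat_lit 0, nat_lit 0, nat_lit 106, nat_lit 0, nat_lit 0, nat_lit 0, nat_lit 0, nat_lit 0, nat_lit 214000, nat_lit 0, nat_lit 0, [(nat_lit 25, [(nat_lit 0, nat_lit 856)])],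
 ⟨p111_k27, nat_lit 0, nat_lit 0, nat_lit 153, nat_lit 0, nat_lit 0, [nat_lit 789056001, nat_lit 1644300800, nat_lit 2713008000], [], [nat_lit 26367660058, nat_lit 26587915437, nat_lit 27407492149, nat_lit 27621904437, nat_lit 26227250696, nat_lit 26444078728, nat_lit 27252265974, nat_lit 27465074167], nat_lit 0, nat_lit 0, nat_lit 0, nat_lit 0, nat_lit 0, nat_lit 0, [], [nat_lit 20, nat_lit 40, nat_lit 40, nat_lit 80, nat_lit 16, nat_lit 215, nat_lit 10, nat_lit 7]⟩, ⟨p111_k17, nat_lit 0, nat_lit 0, nat_lit 856, nat_lit 0, nat_lit 1242176, [nat_lit 675072000, nat_lit 1147392000, nat_lit 2024352000], [], [nat_lit 5849316904, nat_lit 5851902244, nat_lit 5913682946, nat_lit 5929819464, nat_lit 4927396230, nat_lit 4936086630, nat_lit 4997963211, nat_lit 5002199694], nat_lit 1271250, nat_lit 1271250, nat_lit 1271250, nat_lit 1271250, nat_lit 0, nat_lit 1412500, [nat_lit 1100000, nat_lit 1785000, nat_lit 1271250], [nat_lit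 37, nat_lit 40, nat_lit 40, nat_lit 80, nat_lit 28, nat_lit 456, nat_lit 225, nat_lit 10]⟩,
 ⟨nat_lit 2236, nat_lit 2500, ⟨.ofNat (nat_lit 719353), .ofNat (nat_lit 759999), .ofNat (nat_lit 741934), .ofNat (nat_lit 782579), .ofNat (nat_lit 716594), .ofNat (nat_lit 756505), .ofNat (nat_lit 739368), .ofNat (nat_lit 779279)⟩, ⟨.ofNat (nat_lit 40000), .ofNat (nat_lit 100000), .ofNat (nat_lit 40000), .ofNat (nat_lit 100000), .ofNat (nat_lit 40000), .ofNat (nat_lit 100000), .ofNat (nat_lit 40000), .ofNat (nat_lit 100000)⟩⟩, [⟨nat_lit 13, nat_lit 48, nat_lit 77, nat_lit 100, nat_lit 266155957⟩, ⟨nat_lit 3, nat_lit 100, nat_lit 53, nat_lit 62, nat_lit 136355077⟩]⟩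
noncomputable def p111_l100 : Lf2 := ⟨nat_lit 0, nat_lit 20, [nat_lit 5, nat_lit 5, nat_lit 5, nat_lit 20], false, nat_lit 40, nat_lit 80, nat_lit 0, nat_lit 260, ⟨nat_lit 133, nat_lit 867, nat_lit 0, nat_lit 8, nat_lit 303, nat_lit 867, nat_lit 59, nat_lit 0, nat_lit 0, nat_lit 0, nat_lit 0, nat_lit 0, nat_lit 41265612, nat_lit 23889411, nat_lit 1844977, nat_lit 3970179, true, true⟩,
 nat_lit 0, nat_lit 0, nat_lit 2256, nat_lit 0, nat_lit 2915, nat_lit 1194, nat_lit 60, nat_lit 0, nat_lit 0, nat_lit 89, nat_lit 0, nat_lit 0, nat_lit 0, nat_lit 0, nat_lit 0, nat_lit 346800, nat_lit 0, nat_lit 0, [(nat_lit 25, [(nat_lit 1, nat_lit 867)])],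
 ⟨p111_k16, nat_lit 0, nat_lit 0, nat_lit 142, nat_lit 0, nat_lit 0, [nat_lit 857195601, nat_lit 1305355600, nat_lit 1624728400], [], [nat_lit 26692526232, nat_lit 27633912812, nat_lit 28314286342, nat_lit 29178987277, nat_lit 26268806002, nat_lit 27184296532, nat_lit 27848553682, nat_lit 28690702462], nat_lit 0, nat_lit 0, nat_lit 0, nat_lit 0, nat_lit 0, nat_lit 0, [], [nat_lit 20, nat_lit 40, nat_lit 40, nat_lit 80, nat_lit 16, nat_lit 226, nat_lit 20, nat_lit 7]⟩, ⟨p111_k17, nat_lit 0, nat_lit 0, nat_lit 825, nat_lit 0, nat_lit 1179746, [nat_lit 623504000, nat_lit 1059744000, nat_lit 1869714000], [], [nat_lit 5397500528, nat_lit 5398303570, nat_lit 5621645252, nat_lit 5660475462, nat_lit 4413768355, nat_lit 4407596274, nat_lit 4493849092, nat_lit 4516300257], nat_lit 1271250, nat_lit 1271250, nat_lit 1271250, nat_lit 1271250, nat_lit 0, nat_lit 1836250, [nat_lit 1100000, nat_lit 1785000, nat_lit 1271250], [nat_lit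 37, nat_lit 40, nat_lit 40, nat_lit 80, nat_lit 28, nat_lit 456, nat_lit 225, nat_lit 10]⟩,
 ⟨nat_lit 2236, nat_lit 3163, ⟨.ofNat (nat_lit 727168), .ofNat (nat_lit 788122), .ofNat (nat_lit 738246), .ofNat (nat_lit 799199), .ofNat (nat_lit 716594), .ofNat (nat_lit 773609), .ofNat (nat_lit 727981), .ofNat (nat_lit 784996)⟩, ⟨.ofNat (nat_lit 100000), .ofNat (nat_lit 184209), .ofNat (nat_lit 100000), .ofNat (nat_lit 200000), .ofNat (nat_lit 100000), .ofNat (nat_lit 192306), .ofNat (nat_lit 100000), .ofNat (nat_lit 200000)⟩⟩, [⟨nat_lit 13, nat_lit 54, nat_lit 73, nat_lit 100, nat_lit 274673983⟩, ⟨nat_lit 22, nat_lit 71, nat_lit 100, nat_lit 71, nat_lit 1170070⟩]⟩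
noncomputable def p111_l101 : Lf2 := ⟨nat_lit 0, nat_lit 20, [nat_lit 5, nat_lit 5, nat_lit 5, nat_lit 20], false, nat_lit 40, nat_lit 80, nat_lit 0, nat_lit 260, ⟨nat_lit 192, nat_lit 808, nat_lit 0, nat_lit 8, nat_lit 310, nat_lit 808, nat_lit 59, nat_lit 0, nat_lit 0, nat_lit 0, nat_lit 0, nat_lit 0, nat_lit 40609677, nat_lit 24572703, nat_lit 1817620, nat_lit 3989580, true, true⟩,
 nat_lit 0, nat_lit 0, nat_lit 2771, nat_lit 0, nat_lit 2769, nat_lit 1539, nat_lit 46, nat_lit 0, nat_lit 0, nat_lit 160, nat_lit 0, nat_lit 0, nat_lit 0, nat_lit 0, nat_lit 0, nat_lit 436000, nat_lit 0, nat_lit 0, [(nat_lit 25, [(nat_lit 1, nat_lit 620), (nat_lit 2, nat_lit 188)])],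
 ⟨p111_k16, nat_lit 0, nat_lit 0, nat_lit 140, nat_lit 0, nat_lit 0, [nat_lit 979931201, nat_lit 1179851200, nat_lit 1034449600], [], [nat_lit 26228173871, nat_lit 26699822728, nat_lit 28028255292, nat_lit 28483746352, nat_lit 25800929039, nat_lit 26260039358, nat_lit 27579015293, nat_lit 28053708135], nat_lit 0, nat_lit 0, nat_lit 0, nat_lit 0, nat_lit 0, nat_lit 0, [], [nat_lit 20, nat_lit 40, nat_lit 40, nat_lit 80, nat_lit 16, nat_lit 226, nat_lit 20, nat_lit 7]⟩, ⟨p111_k23, nat_lit 0, nat_lit 0, nat_lit 740, nat_lit 0, nat_lit 948741, [nat_lit 900096000, nat_lit 1529856000, nat_lit 2699136000], [], [nat_lit 7456720222, nat_lit 7471636684, nat_lit 7661568135, nat_lit 7677592347, nat_lit 6377692724, nat_lit 6392245851, nat_lit 6568230771, nat_lit 6577582207], nat_lit 1271250, nat_lit 1271250, nat_lit 1271250, nat_lit 1271250, nat_lit 0, nat_lit 1836250, [nat_lit 1100000, nat_lit 1785000, nat_lit 1271250], [nat_lit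 37, nat_lit 40, nat_lit 40, nat_lit 80, nat_lit 28, nat_lit 456, nat_lit 225, nat_lit 10]⟩,
 ⟨nat_lit 2738, nat_lit 3163, ⟨.ofNat (nat_lit 738246), .ofNat (nat_lit 805295), .ofNat (nat_lit 749323), .ofNat (nat_lit 816372), .ofNat (nat_lit 733226), .ofNat (nat_lit 798193), .ofNat (nat_lit 744435), .ofNat (nat_lit 809402)⟩, ⟨.ofNat (nat_lit 100000), .ofNat (nat_lit 184209), .ofNat (nat_lit 100000), .ofNat (nat_lit 200000), .ofNat (nat_lit 100000), .ofNat (nat_lit 188310), .ofNat (nat_lit 100000), .ofNat (nat_lit 200000)⟩⟩, [⟨nat_lit 13, nat_lit 59, nat_lit 66, nat_lit 100, nat_lit 124498457⟩, ⟨nat_lit 13, nat_lit 54, nat_lit 71, nat_lit 100, nat_lit 68276968⟩, ⟨nat_lit 22, nat_lit 70, nat_lit 100, nat_lit 71, nat_lit 23743505⟩]⟩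
noncomputable def p111_l102 : Lf2 := ⟨nat_lit 0, nat_lit 20, [nat_lit 5, nat_lit 5, nat_lit 5, nat_lit 20], false, nat_lit 40, nat_lit 80, nat_lit 0, nat_lit 260, ⟨nat_lit 162, nat_lit 838, nat_lit 0, nat_lit 8, nat_lit 304, nat_lit 838, nat_lit 59, nat_lit 0, nat_lit 0, nat_lit 0, nat_lit 0, nat_lit 0, nat_lit 41163650, nat_lit 23984421, nat_lit 1851929, nat_lit 3976091, true, true⟩,
 nat_lit 0, nat_lit 0, nat_lit 2478, nat_lit 0, nat_lit 2501, nat_lit 1376, nat_lit 279, nat_lit 0, nat_lit 0, nat_lit 111, nat_lit 0, nat_lit 0, nat_lit 0, nat_lit 0, nat_lit 0, nat_lit 209500, nat_lit 0, nat_lit 0, [(nat_lit 25, [(nat_lit 0, nat_lit 838)])],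
 ⟨p111_k22, nat_lit 0, nat_lit 0, nat_lit 140, nat_lit 0, nat_lit 0, [nat_lit 792188000, nat_lit 1678738400, nat_lit 2787384000], [], [nat_lit 26154117083, nat_lit 26608760536, nat_lit 27387184883, nat_lit 27815894747, nat_lit 25811947353, nat_lit 26254722804, nat_lit 27015484140, nat_lit 27484463329], nat_lit 0, nat_lit 0, nat_lit 0, nat_lit 0, nat_lit 0, nat_lit 0, [], [nat_lit 20, nat_lit 40, nat_lit 40, nat_lit 80, nat_lit 16, nat_lit 226, nat_lit 20, nat_lit 7]⟩, ⟨p111_k23, nat_lit 0, nat_lit 0, nat_lit 814, nat_lit 0, nat_lit 1154919, [nat_lit 759456000, nat_lit 1290816000, nat_lit 2277396000], [], [nat_lit 6451267550, nat_lit 6453641658, nat_lit 6628557306, nat_lit 6677770231, nat_lit 5339425753, nat_lit 5333625005, nat_lit 5402336417, nat_lit 5408052295], nat_lit 1271250, nat_lit 1271250, nat_lit 1271250, nat_lit 1271250, nat_lit 0, nat_lit 1836250, [nat_lit 1100000, nat_lit 1785000, nat_lit 1271250], [nat_lit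 37, nat_lit 40, nat_lit 40, nat_lit 80, nat_lit 28, nat_lit 456, nat_lit 225, nat_lit 10]⟩,
 ⟨nat_lit 2236, nat_lit 2739, ⟨.ofNat (nat_lit 733226), .ofNat (nat_lit 780475), .ofNat (nat_lit 744435), .ofNat (nat_lit 791684), .ofNat (nat_lit 727981), .ofNat (nat_lit 773593), .ofNat (nat_lit 739368), .ofNat (nat_lit 784980)⟩, ⟨.ofNat (nat_lit 100000), .ofNat (nat_lit 188310), .ofNat (nat_lit 100000), .ofNat (nat_lit 200000), .ofNat (nat_lit 100000), .ofNat (nat_lit 192306), .ofNat (nat_lit 100000), .ofNat (nat_lit 200000)⟩⟩, [⟨nat_lit 13, nat_lit 45, nat_lit 79, nat_lit 100, nat_lit 269406397⟩, ⟨nat_lit 22, nat_lit 73, nat_lit 100, nat_lit 71, nat_lit 6352357⟩]⟩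
noncomputable def p111_l103 : Lf2 := ⟨nat_lit 0, nat_lit 20, [nat_lit 5, nat_lit 5, nat_lit 5, nat_lit 20], false, nat_lit 20, nat_lit 80, nat_lit 0, nat_lit 260, ⟨nat_lit 95, nat_lit 905, nat_lit 0, nat_lit 8, nat_lit 293, nat_lit 905, nat_lit 50, nat_lit 0, nat_lit 0, nat_lit 0, nat_lit 0, nat_lit 0, nat_lit 42477828, nat_lit 23070917, nat_lit 1451255, nat_lit 3816769, true, true⟩,
 nat_lit 0, nat_lit 0, nat_lit 1658, nat_lit 0, nat_lit 2156, nat_lit 877, nat_lit 101, nat_lit 0, nat_lit 0, nat_lit 53, nat_lit 0, nat_lit 0, nat_lit 0, nat_lit 0, nat_lit 0, nat_lit 362000, nat_lit 0, nat_lit 0, [(nat_lit 28, [(nat_lit 1, nat_lit 905)])],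
 ⟨p111_k19, nat_lit 0, nat_lit 0, nat_lit 155, nat_lit 0, nat_lit 0, [nat_lit 720438000, nat_lit 605734000, nat_lit 718640000], [], [nat_lit 26103539385, nat_lit 27052076808, nat_lit 26870401175, nat_lit 27889439152, nat_lit 25773976449, nat_lit 26681173296, nat_lit 26514456689, nat_lit 27490329664], nat_lit 0, nat_lit 0, nat_lit 0, nat_lit 0, nat_lit 0, nat_lit 0, [], [nat_lit 20, nat_lit 40, nat_lit 40, nat_lit 80, nat_lit 16, nat_lit 226, nat_lit 20, nat_lit 7]⟩, ⟨p111_k17, nat_lit 0, nat_lit 0, nat_lit 1082, nat_lit 0, nat_lit 1712725, [nat_lit 445360000, nat_lit 756960000, nat_lit 1335510000], [], [nat_lit 3919128544, nat_lit 3930882602, nat_lit 4003306322, nat_lit 4066283124, nat_lit 3182593100, nat_lit 3165259973, nat_lit 3208876948, nat_lit 3245678810], nat_lit 1271250, nat_lit 1271250, nat_lit 1271250, nat_lit 1271250, nat_lit 0, nat_lit 1836250, [nat_lit 1100000, nat_lit 1785000, nat_lit 1271250], [nat_lit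 37, nat_lit 40, nat_lit 40, nat_lit 80, nat_lit 28, nat_lit 456, nat_lit 225, nat_lit 10]⟩,
 ⟨nat_lit 0, nat_lit 2237, ⟨.ofNat (nat_lit 716590), .ofNat (nat_lit 745097), .ofNat (nat_lit 739366), .ofNat (nat_lit 767872), .ofNat (nat_lit 699995), .ofNat (nat_lit 724995), .ofNat (nat_lit 724997), .ofNat (nat_lit 749995)⟩, ⟨.ofNat (nat_lit 50000), .ofNat (nat_lit 192306), .ofNat (nat_lit 50000), .ofNat (nat_lit 200000), .ofNat (nat_lit 50000), .ofNat (nat_lit 199999), .ofNat (nat_lit 50000), .ofNat (nat_lit 200000)⟩⟩, [⟨nat_lit 13, nat_lit 46, nat_lit 76, nat_lit 100, nat_lit 371031265⟩, ⟨nat_lit 3, nat_lit 100, nat_lit 36, nat_lit 77, nat_lit 211528497⟩, ⟨nat_lit 3, nat_lit 100, nat_lit 54, nat_lit 57, nat_lit 37181890⟩, ⟨nat_lit 22, nat_lit 76, nat_lit 100, nat_lit 66, nat_lit 850395⟩]⟩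
noncomputable def p111_l104 : Lf2 := ⟨nat_lit 0, nat_lit 20, [nat_lit 5, nat_lit 5, nat_lit 5, nat_lit 20], false, nat_lit 8, nat_lit 80, nat_lit 0, nat_lit 260, ⟨nat_lit 410, nat_lit 590, nat_lit 0, nat_lit 8, nat_lit 321, nat_lit 590, nat_lit 43, nat_lit 0, nat_lit 0, nat_lit 0, nat_lit 0, nat_lit 0, nat_lit 40038918, nat_lit 25851078, nat_lit 1110004, nat_lit 3816664, true, true⟩,
 nat_lit 0, nat_lit 0, nat_lit 4931, nat_lit 0, nat_lit 2832, nat_lit 2870, nat_lit 141, nat_lit 0, nat_lit 0, nat_lit 690, nat_lit 0, nat_lit 0, nat_lit 0, nat_lit 0, nat_lit 0, nat_lit 407000, nat_lit 0, nat_lit 0, [(nat_lit 25, [(nat_lit 1, nat_lit 305), (nat_lit 2, nat_lit 285)])],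
 ⟨p111_k16, nat_lit 0, nat_lit 0, nat_lit 160, nat_lit 0, nat_lit 0, [nat_lit 1060738001, nat_lit 1542704667, nat_lit 1730478000], [], [nat_lit 27235189746, nat_lit 27473073960, nat_lit 29592590480, nat_lit 29824853737, nat_lit 26523911134, nat_lit 26750331490, nat_lit 28767242591, nat_lit 28992878509], nat_lit 0, nat_lit 0, nat_lit 0, nat_lit 0, nat_lit 0, nat_lit 0, [], [nat_lit 20, nat_lit 40, nat_lit 40, nat_lit 80, nat_lit 16, nat_lit 226, nat_lit 20, nat_lit 7]⟩, ⟨p111_k18, nat_lit 0, nat_lit 0, nat_lit 669, nat_lit 0, nat_lit 933218, [nat_lit 1922080000, nat_lit 3266880000, nat_lit 4867520000], [], [nat_lit 13829222180, nat_lit 13934271560, nat_lit 14442271372, nat_lit 14522794992, nat_lit 12333660670, nat_lit 12383987760, nat_lit 12738533907, nat_lit 12768063707], nat_lit 1271250, nat_lit 1271250, nat_lit 1271250, nat_lit 1271250, nat_lit 0, nat_lit 1836250, [nat_lit 1100000, nat_lit 1785000, nat_lit 1271250],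 [nat_lit 21, nat_lit 40, nat_lit 40, nat_lit 80, nat_lit 14, nat_lit 373, nat_lit 150, nat_lit 9]⟩,
 ⟨nat_lit 2958, nat_lit 3163, ⟨.ofNat (nat_lit 749323), .ofNat (nat_lit 834658), .ofNat (nat_lit 771478), .ofNat (nat_lit 856813), .ofNat (nat_lit 746893), .ofNat (nat_lit 830922), .ofNat (nat_lit 769170), .ofNat (nat_lit 853199)⟩, ⟨.ofNat (nat_lit 20000), .ofNat (nat_lit 184209), .ofNat (nat_lit 20000), .ofNat (nat_lit 200000), .ofNat (nat_lit 20000), .ofNat (nat_lit 186273), .ofNat (nat_lit 20000), .ofNat (nat_lit 200000)⟩⟩, [⟨nat_lit 22, nat_lit 68, nat_lit 100, nat_lit 63, nat_lit 85020191⟩]⟩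
noncomputable def p111_l105 : Lf2 := ⟨nat_lit 0, nat_lit 20, [nat_lit 5, nat_lit 5, nat_lit 5, nat_lit 20], false, nat_lit 8, nat_lit 80, nat_lit 0, nat_lit 260, ⟨nat_lit 410, nat_lit 590, nat_lit 0, nat_lit 8, nat_lit 318, nat_lit 590, nat_lit 43, nat_lit 0, nat_lit 0, nat_lit 0, nat_lit 0, nat_lit 0, nat_lit 40264332, nat_lit 25613638, nat_lit 1122030, nat_lit 3812711, true, true⟩,
 nat_lit 0, nat_lit 0, nat_lit 4890, nat_lit 0, nat_lit 2788, nat_lit 2846, nat_lit 271, nat_lit 0, nat_lit 0, nat_lit 756, nat_lit 0, nat_lit 0, nat_lit 0, nat_lit 0, nat_lit 0, nat_lit 236000, nat_lit 0, nat_lit 0, [(nat_lit 25, [(nat_lit 1, nat_lit 590)])],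
 ⟨p111_k25, nat_lit 0, nat_lit 0, nat_lit 160, nat_lit 0, nat_lit 0, [nat_lit 883012001, nat_lit 1936878667, nat_lit 3102468000], [], [nat_lit 27419676286, nat_lit 27656160112, nat_lit 29547833282, nat_lit 29759348709, nat_lit 26724291833, nat_lit 26949412187, nat_lit 28756684696, nat_lit 28958720367], nat_lit 0, nat_lit 0, nat_lit 0, nat_lit 0, nat_lit 0, nat_lit 0, [], [nat_lit 20, nat_lit 40, nat_lit 40, nat_lit 80, nat_lit 16, nat_lit 226, nat_lit 20, nat_lit 7]⟩, ⟨p111_k18, nat_lit 0, nat_lit 0, nat_lit 702, nat_lit 0, nat_lit 1021816, [nat_lit 1922080000, nat_lit 3266880000, nat_lit 4867520000], [], [nat_lit 13810839324, nat_lit 13868869408, nat_lit 14230387072, nat_lit 14287397227, nat_lit 12146448418, nat_lit 12197471736, nat_lit 12537493330, nat_lit 12587838858], nat_lit 1271250, nat_lit 1271250, nat_lit 1271250, nat_lit 1271250, nat_lit 0, nat_lit 1836250, [nat_lit 1100000, nat_lit 1785000, nat_lit 1271250],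 [nat_lit 21, nat_lit 40, nat_lit 40, nat_lit 80, nat_lit 14, nat_lit 373, nat_lit 150, nat_lit 9]⟩,
 ⟨nat_lit 2738, nat_lit 2959, ⟨.ofNat (nat_lit 746893), .ofNat (nat_lit 824920), .ofNat (nat_lit 769170), .ofNat (nat_lit 847197), .ofNat (nat_lit 744435), .ofNat (nat_lit 821214), .ofNat (nat_lit 766852), .ofNat (nat_lit 843632)⟩, ⟨.ofNat (nat_lit 20000), .ofNat (nat_lit 186273), .ofNat (nat_lit 20000), .ofNat (nat_lit 200000), .ofNat (nat_lit 20000), .ofNat (nat_lit 188310), .ofNat (nat_lit 20000), .ofNat (nat_lit 200000)⟩⟩, [⟨nat_lit 10, nat_lit 100, nat_lit 55, nat_lit 67, nat_lit 5735259⟩, ⟨nat_lit 22, nat_lit 69, nat_lit 100, nat_lit 63, nat_lit 81129205⟩]⟩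
noncomputable def p111_l106 : Lf2 := ⟨nat_lit 0, nat_lit 20, [nat_lit 5, nat_lit 5, nat_lit 5, nat_lit 20], false, nat_lit 12, nat_lit 80, nat_lit 0, nat_lit 260, ⟨nat_lit 216, nat_lit 784, nat_lit 0, nat_lit 8, nat_lit 311, nat_lit 784, nat_lit 45, nat_lit 0, nat_lit 0, nat_lit 0, nat_lit 0, nat_lit 0, nat_lit 40933621, nat_lit 24839611, nat_lit 1226768, nat_lit 3819455, true, true⟩,
 nat_lit 0, nat_lit 0, nat_lit 3007, nat_lit 0, nat_lit 2448, nat_lit 1750, nat_lit 306, nat_lit 0, nat_lit 0, nat_lit 240, nat_lit 0, nat_lit 0, nat_lit 0, nat_lit 0, nat_lit 0, nat_lit 196000, nat_lit 0, nat_lit 0, [(nat_lit 25, [(nat_lit 0, nat_lit 784)])],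
 ⟨p111_k22, nat_lit 0, nat_lit 0, nat_lit 158, nat_lit 0, nat_lit 0, [nat_lit 801584000, nat_lit 1782051200, nat_lit 3010512000], [], [nat_lit 26693120514, nat_lit 27143269388, nat_lit 28222646086, nat_lit 28638514240, nat_lit 26226027228, nat_lit 26656176996, nat_lit 27692718244, nat_lit 28090225012], nat_lit 0, nat_lit 0, nat_lit 0, nat_lit 0, nat_lit 0, nat_lit 0, [], [nat_lit 20, nat_lit 40, nat_lit 40, nat_lit 80, nat_lit 16, nat_lit 226, nat_lit 20, nat_lit 7]⟩, ⟨p111_k18, nat_lit 0, nat_lit 0, nat_lit 745, nat_lit 0, nat_lit 1137793, [nat_lit 1012608000, nat_lit 1721088000, nat_lit 2564352000], [], [nat_lit 7402960176, nat_lit 7421326116, nat_lit 7600199584, nat_lit 7613023480, nat_lit 6193861777, nat_lit 6198112589, nat_lit 6313275964, nat_lit 6331769804], nat_lit 1271250, nat_lit 1271250, nat_lit 1271250, nat_lit 1271250, nat_lit 0, nat_lit 1836250, [nat_lit 1100000, nat_lit 1785000, nat_lit 1271250], [nat_lit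 21, nat_lit 40, nat_lit 40, nat_lit 80, nat_lit 14, nat_lit 373, nat_lit 150, nat_lit 9]⟩,
 ⟨nat_lit 2236, nat_lit 2739, ⟨.ofNat (nat_lit 744435), .ofNat (nat_lit 803496), .ofNat (nat_lit 755643), .ofNat (nat_lit 814705), .ofNat (nat_lit 739368), .ofNat (nat_lit 796384), .ofNat (nat_lit 750755), .ofNat (nat_lit 807771)⟩, ⟨.ofNat (nat_lit 30000), .ofNat (nat_lit 188310), .ofNat (nat_lit 30000), .ofNat (nat_lit 200000), .ofNat (nat_lit 30000), .ofNat (nat_lit 192306), .ofNat (nat_lit 30000), .ofNat (nat_lit 200000)⟩⟩, [⟨nat_lit 13, nat_lit 46, nat_lit 76, nat_lit 100, nat_lit 204048435⟩, ⟨nat_lit 3, nat_lit 100, nat_lit 56, nat_lit 60, nat_lit 93028450⟩, ⟨nat_lit 22, nat_lit 76, nat_lit 100, nat_lit 43, nat_lit 38365703⟩]⟩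
noncomputable def p111_l107 : Lf2 := ⟨nat_lit 0, nat_lit 20, [nat_lit 5, nat_lit 5, nat_lit 5, nat_lit 20], false, nat_lit 12, nat_lit 80, nat_lit 0, nat_lit 260, ⟨nat_lit 302, nat_lit 698, nat_lit 0, nat_lit 8, nat_lit 317, nat_lit 698, nat_lit 45, nat_lit 0, nat_lit 0, nat_lit 0, nat_lit 0, nat_lit 0, nat_lit 40273934, nat_lit 25511560, nat_lit 1214506, nat_lit 3839723, true, true⟩,
 nat_lit 0, nat_lit 0, nat_lit 3527, nat_lit 0, nat_lit 2472, nat_lit 2148, nat_lit 352, nat_lit 0, nat_lit 0, nat_lit 343, nat_lit 0, nat_lit 0, nat_lit 0, nat_lit 0, nat_lit 0, nat_lit 174500, nat_lit 0, nat_lit 0, [(nat_lit 25, [(nat_lit 0, nat_lit 698)])],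
 ⟨p111_k22, nat_lit 0, nat_lit 0, nat_lit 160, nat_lit 0, nat_lit 0, [nat_lit 816548001, nat_lit 1946586401, nat_lit 3365864000], [], [nat_lit 26678741518, nat_lit 27130739978, nat_lit 28680093690, nat_lit 29129893711, nat_lit 26197502995, nat_lit 26633425364, nat_lit 28119159733, nat_lit 28549719057], nat_lit 0, nat_lit 0, nat_lit 0, nat_lit 0, nat_lit 0, nat_lit 0, [], [nat_lit 20, nat_lit 40, nat_lit 40, nat_lit 80, nat_lit 16, nat_lit 226, nat_lit 20, nat_lit 7]⟩, ⟨p111_k24, nat_lit 0, nat_lit 0, nat_lit 739, nat_lit 0, nat_lit 1126501, [nat_lit 1415776000, nat_lit 2406336000, nat_lit 3585344000], [], [nat_lit 10164728052, nat_lit 10193709832, nat_lit 10480633375, nat_lit 10502580133, nat_lit 9043243819, nat_lit 9060781456, nat_lit 9276534035, nat_lit 9287743110], nat_lit 1271250, nat_lit 1271250, nat_lit 1271250, nat_lit 1271250, nat_lit 0, nat_lit 1836250, [nat_lit 1100000, nat_lit 1785000, nat_lit 1271250],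 [nat_lit 21, nat_lit 40, nat_lit 40, nat_lit 80, nat_lit 14, nat_lit 373, nat_lit 150, nat_lit 9]⟩,
 ⟨nat_lit 2236, nat_lit 2739, ⟨.ofNat (nat_lit 755643), .ofNat (nat_lit 826517), .ofNat (nat_lit 766852), .ofNat (nat_lit 837726), .ofNat (nat_lit 750755), .ofNat (nat_lit 819174), .ofNat (nat_lit 762142), .ofNat (nat_lit 830561)⟩, ⟨.ofNat (nat_lit 30000), .ofNat (nat_lit 188310), .ofNat (nat_lit 30000), .ofNat (nat_lit 200000), .ofNat (nat_lit 30000), .ofNat (nat_lit 192306), .ofNat (nat_lit 30000), .ofNat (nat_lit 200000)⟩⟩, [⟨nat_lit 13, nat_lit 47, nat_lit 74, nat_lit 100, nat_lit 140950633⟩, ⟨nat_lit 3, nat_lit 100, nat_lit 56, nat_lit 60, nat_lit 1714909⟩, ⟨nat_lit 22, nat_lit 74, nat_lit 100, nat_lit 46, nat_lit 82684174⟩]⟩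
noncomputable def p111_l108 : Lf2 := ⟨nat_lit 0, nat_lit 20, [nat_lit 5, nat_lit 5, nat_lit 5, nat_lit 20], false, nat_lit 20, nat_lit 80, nat_lit 0, nat_lit 260, ⟨nat_lit 157, nat_lit 843, nat_lit 0, nat_lit 8, nat_lit 303, nat_lit 843, nat_lit 50, nat_lit 0, nat_lit 0, nat_lit 0, nat_lit 0, nat_lit 0, nat_lit 41564229, nat_lit 24002784, nat_lit 1432987, nat_lit 3851983, true, true⟩,
 nat_lit 0, nat_lit 0, nat_lit 2289, nat_lit 0, nat_lit 2175, nat_lit 1332, nat_lit 115, nat_lit 0, nat_lit 0, nat_lit 157, nat_lit 0, nat_lit 0, nat_lit 0, nat_lit 0, nat_lit 0, nat_lit 337200, nat_lit 0, nat_lit 0, [(nat_lit 28, [(nat_lit 1, nat_lit 843)])],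
 ⟨p111_k19, nat_lit 0, nat_lit 0, nat_lit 157, nat_lit 0, nat_lit 0, [nat_lit 735342801, nat_lit 789080400, nat_lit 1097584000], [], [nat_lit 26357135153, nat_lit 27279663603, nat_lit 27433232816, nat_lit 28305353059, nat_lit 26017076978, nat_lit 26904126978, nat_lit 27056097829, nat_lit 27895971469], nat_lit 0, nat_lit 0, nat_lit 0, nat_lit 0, nat_lit 0, nat_lit 0, [], [nat_lit 20, nat_lit 40, nat_lit 40, nat_lit 80, nat_lit 16, nat_lit 226, nat_lit 20, nat_lit 7]⟩, ⟨p111_k18, nat_lit 0, nat_lit 0, nat_lit 920, nat_lit 0, nat_lit 1535250, [nat_lit 736016000, nat_lit 1250976000, nat_lit 1863904000], [], [nat_lit 5270446018, nat_lit 5283105109, nat_lit 5515938575, nat_lit 5576397070, nat_lit 4323280675, nat_lit 4325330440, nat_lit 4443495872, nat_lit 4480669122], nat_lit 1271250, nat_lit 1271250, nat_lit 1271250, nat_lit 1271250, nat_lit 0, nat_lit 1836250, [nat_lit 1100000, nat_lit 1785000, nat_lit 1271250], [nat_lit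 21, nat_lit 40, nat_lit 40, nat_lit 80, nat_lit 14, nat_lit 373, nat_lit 150, nat_lit 9]⟩,
 ⟨nat_lit 0, nat_lit 2237, ⟨.ofNat (nat_lit 739366), .ofNat (nat_lit 779275), .ofNat (nat_lit 750753), .ofNat (nat_lit 790663), .ofNat (nat_lit 724997), .ofNat (nat_lit 759995), .ofNat (nat_lit 737497), .ofNat (nat_lit 772496)⟩, ⟨.ofNat (nat_lit 50000), .ofNat (nat_lit 192306), .ofNat (nat_lit 50000), .ofNat (nat_lit 200000), .ofNat (nat_lit 50000), .ofNat (nat_lit 199999), .ofNat (nat_lit 50000), .ofNat (nat_lit 200000)⟩⟩, [⟨nat_lit 13, nat_lit 33, nat_lit 84, nat_lit 100, nat_lit 441355209⟩, ⟨nat_lit 3, nat_lit 100, nat_lit 36, nat_lit 77, nat_lit 206850139⟩, ⟨nat_lit 22, nat_lit 74, nat_lit 100, nat_lit 66, nat_lit 11527194⟩]⟩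
noncomputable def p111_l109 : Lf2 := ⟨nat_lit 0, nat_lit 20, [nat_lit 5, nat_lit 5, nat_lit 5, nat_lit 20], false, nat_lit 20, nat_lit 80, nat_lit 0, nat_lit 260, ⟨nat_lit 212, nat_lit 788, nat_lit 0, nat_lit 8, nat_lit 309, nat_lit 788, nat_lit 50, nat_lit 0, nat_lit 0, nat_lit 0, nat_lit 0, nat_lit 0, nat_lit 40996570, nat_lit 24582257, nat_lit 1421173, nat_lit 3871565, true, true⟩,
 nat_lit 0, nat_lit 0, nat_lit 2712, nat_lit 0, nat_lit 2195, nat_lit 1651, nat_lit 152, nat_lit 0, nat_lit 0, nat_lit 218, nat_lit 0, nat_lit 0, nat_lit 0, nat_lit 0, nat_lit 0, nat_lit 315200, nat_lit 0, nat_lit 0, [(nat_lit 28, [(nat_lit 1, nat_lit 788)])],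
 ⟨p111_k19, nat_lit 0, nat_lit 0, nat_lit 158, nat_lit 0, nat_lit 0, [nat_lit 748564800, nat_lit 951726400, nat_lit 1433744000], [], [nat_lit 26304113475, nat_lit 27229464205, nat_lit 27536936255, nat_lit 28531406998, nat_lit 25953007680, nat_lit 26842716880, nat_lit 27143285360, nat_lit 28092350057], nat_lit 0, nat_lit 0, nat_lit 0, nat_lit 0, nat_lit 0, nat_lit 0, [], [nat_lit 20, nat_lit 40, nat_lit 40, nat_lit 80, nat_lit 16, nat_lit 226, nat_lit 20, nat_lit 7]⟩, ⟨p111_k24, nat_lit 0, nat_lit 0, nat_lit 899, nat_lit 0, nat_lit 1488708, [nat_lit 993856000, nat_lit 1689216000, nat_lit 2516864000], [], [nat_lit 6781201296, nat_lit 6871935388, nat_lit 7270392448, nat_lit 7348268972, nat_lit 5705541904, nat_lit 5713647206, nat_lit 6022234194, nat_lit 6120480272], nat_lit 1271250, nat_lit 1271250, nat_lit 1271250, nat_lit 1271250, nat_lit 0, nat_lit 1836250, [nat_lit 1100000, nat_lit 1785000, nat_lit 1271250], [nat_lit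 21, nat_lit 40, nat_lit 40, nat_lit 80, nat_lit 14, nat_lit 373, nat_lit 150, nat_lit 9]⟩,
 ⟨nat_lit 0, nat_lit 2237, ⟨.ofNat (nat_lit 750753), .ofNat (nat_lit 796364), .ofNat (nat_lit 762141), .ofNat (nat_lit 807752), .ofNat (nat_lit 737497), .ofNat (nat_lit 777495), .ofNat (nat_lit 749998), .ofNat (nat_lit 789996)⟩, ⟨.ofNat (nat_lit 50000), .ofNat (nat_lit 192306), .ofNat (nat_lit 50000), .ofNat (nat_lit 200000), .ofNat (nat_lit 50000), .ofNat (nat_lit 199999), .ofNat (nat_lit 50000), .ofNat (nat_lit 200000)⟩⟩, [⟨nat_lit 13, nat_lit 34, nat_lit 82, nat_lit 100, nat_lit 536205863⟩, ⟨nat_lit 3, nat_lit 100, nat_lit 36, nat_lit 77, nat_lit 144370145⟩, ⟨nat_lit 22, nat_lit 73, nat_lit 100, nat_lit 66, nat_lit 26055219⟩]⟩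
noncomputable def b_V_900_600_20_11 : St := ⟨true, nat_lit 0, nat_lit 1, nat_lit 1, nat_lit 120, nat_lit 360, nat_lit 400, nat_lit 240, nat_lit 280, nat_lit 320, nat_lit 376, nat_lit 80, nat_lit 120, nat_lit 8, nat_lit 80, nat_lit 0, nat_lit 336, nat_lit 40, nat_lit 80, nat_lit 0, nat_lit 0, nat_lit 0, nat_lit 0⟩
theorem d_V_900_600_20_11 (h : EB TB.env) : Dead b_V_900_600_20_11 := chkB_sound0 h (T :=
(.trX (nat_lit 22) (nat_lit 83) (nat_lit 100) (nat_lit 83) (nat_lit 260) (.spl (nat_lit 1) (nat_lit 260)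
(.trX (nat_lit 13) (nat_lit 63) (nat_lit 61) (nat_lit 100) (nat_lit 364) (.spl (nat_lit 0) (nat_lit 380)
(.spl (nat_lit 4) (nat_lit 40)
(.trX (nat_lit 22) (nat_lit 80) (nat_lit 100) (nat_lit 60) (nat_lit 200) (.spl (nat_lit 0) (nat_lit 370)
(.spl (nat_lit 0) (nat_lit 365)
(.leaf p111_l95)
(.trX (nat_lit 13) (nat_lit 59) (nat_lit 65) (nat_lit 100) (nat_lit 360) (.spl (nat_lit 0) (nat_lit 368)
(.leaf p111_l96)
(.trX (nat_lit 13) (nat_lit 57) (nat_lit 67) (nat_lit 100) (nat_lit 356) (.trZ (nat_lit 3) (nat_lit 100) (nat_lit 68) (nat_lit 43) (nat_lit 12) (.leaf p111_l97))))))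
(.trX (nat_lit 13) (nat_lit 55) (nat_lit 68) (nat_lit 100) (nat_lit 352) (.trZ (nat_lit 3) (nat_lit 100) (nat_lit 66) (nat_lit 45) (nat_lit 12) (.spl (nat_lit 0) (nat_lit 375)
(.leaf p111_l98)
(.trX (nat_lit 13) (nat_lit 51) (nat_lit 72) (nat_lit 100) (nat_lit 348) (.trZ (nat_lit 3) (nat_lit 100) (nat_lit 61) (nat_lit 51) (nat_lit 16) (.leaf p111_l99))))))))
(.spl (nat_lit 1) (nat_lit 250)
(.trX (nat_lit 13) (nat_lit 62) (nat_lit 65) (nat_lit 100) (nat_lit 360) (.leaf p111_l100))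
(.spl (nat_lit 0) (nat_lit 370)
(.leaf p111_l101)
(.trX (nat_lit 13) (nat_lit 55) (nat_lit 68) (nat_lit 100) (nat_lit 352) (.leaf p111_l102)))))
(.trX (nat_lit 13) (nat_lit 46) (nat_lit 76) (nat_lit 100) (nat_lit 340) (.trZ (nat_lit 3) (nat_lit 100) (nat_lit 54) (nat_lit 57) (nat_lit 20) (.leaf p111_l103)))))
(.spl (nat_lit 0) (nat_lit 380)
(.spl (nat_lit 0) (nat_lit 370)
(.spl (nat_lit 0) (nat_lit 365)
(.leaf p111_l104)
(.trX (nat_lit 13) (nat_lit 62) (nat_lit 58) (nat_lit 100) (nat_lit 372) (.leaf p111_l105)))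
(.trX (nat_lit 13) (nat_lit 57) (nat_lit 62) (nat_lit 100) (nat_lit 368) (.trZ (nat_lit 3) (nat_lit 100) (nat_lit 66) (nat_lit 45) (nat_lit 12) (.spl (nat_lit 1) (nat_lit 270)
(.trX (nat_lit 13) (nat_lit 56) (nat_lit 65) (nat_lit 100) (nat_lit 360) (.leaf p111_l106))
(.leaf p111_l107)))))
(.trX (nat_lit 13) (nat_lit 48) (nat_lit 71) (nat_lit 100) (nat_lit 352) (.trZ (nat_lit 3) (nat_lit 100) (nat_lit 54) (nat_lit 57) (nat_lit 20) (.spl (nat_lit 1) (nat_lit 270)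
(.trX (nat_lit 13) (nat_lit 47) (nat_lit 74) (nat_lit 100) (nat_lit 348) (.leaf p111_l108))
(.leaf p111_l109)))))))) (by decide +kernel)
noncomputable def p111_l110 : Lf2 := ⟨nat_lit 0, nat_lit 20, [nat_lit 5, nat_lit 5, nat_lit 5, nat_lit 20], true, nat_lit 80, nat_lit 160, nat_lit 0, nat_lit 364, ⟨nat_lit 0, nat_lit 1000, nat_lit 0, nat_lit 6, nat_lit 261, nat_lit 1000, nat_lit 105, nat_lit 0, nat_lit 0, nat_lit 0, nat_lit 0, nat_lit 0, nat_lit 43285557, nat_lit 19174923, nat_lit 4539520, nat_lit 4361751, true, false⟩,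
 nat_lit 0, nat_lit 0, nat_lit 0, nat_lit 0, nat_lit 3602, nat_lit 0, nat_lit 0, nat_lit 0, nat_lit 0, nat_lit 0, nat_lit 0, nat_lit 0, nat_lit 0, nat_lit 0, nat_lit 0, nat_lit 332950, nat_lit 0, nat_lit 0, [(nat_lit 25, [(nat_lit 0, nat_lit 447), (nat_lit 1, nat_lit 553)]), (nat_lit 28, [(nat_lit 0, nat_lit 447), (nat_lit 1, nat_lit 553)])],
 ⟨p111_k16, nat_lit 0, nat_lit 0, nat_lit 109, nat_lit 0, nat_lit 0, [nat_lit 816549601, nat_lit 1166033334, nat_lit 1452851600], [], [nat_lit 22652411968, nat_lit 25369137936, nat_lit 24196732416, nat_lit 26703984688, nat_lit 23133955576, nat_lit 25596885752, nat_lit 24539364560, nat_lit 26818202128], nat_lit 0, nat_lit 0, nat_lit 0, nat_lit 0, nat_lit 0, nat_lit 0, [], [nat_lit 20, nat_lit 40, nat_lit 40, nat_lit 80, nat_lit 16, nat_lit 249, nat_lit 40, nat_lit 8]⟩, C1.Rw.none,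
 ⟨nat_lit 0, nat_lit 3163, ⟨.ofNat (nat_lit 605128), .ofNat (nat_lit 666215), .ofNat (nat_lit 646918), .ofNat (nat_lit 710256), .ofNat (nat_lit 599865), .ofNat (nat_lit 649999), .ofNat (nat_lit 647345), .ofNat (nat_lit 699730)⟩, ⟨.ofNat (nat_lit 184209), .ofNat (nat_lit 306113), .ofNat (nat_lit 200000), .ofNat (nat_lit 350425), .ofNat (nat_lit 199999), .ofNat (nat_lit 299996), .ofNat (nat_lit 200000), .ofNat (nat_lit 349998)⟩⟩, []⟩
noncomputable def p111_l111 : Lf2 := ⟨nat_lit 0, nat_lit 20, [nat_lit 5, nat_lit 5, nat_lit 5, nat_lit 20], false, nat_lit 80, nat_lit 160, nat_lit 0, nat_lit 364, ⟨nat_lit 78, nat_lit 922, nat_lit 0, nat_lit 7, nat_lit 281, nat_lit 922, nat_lit 105, nat_lit 0, nat_lit 0, nat_lit 0, nat_lit 0, nat_lit 0, nat_lit 41440065, nat_lit 21132028, nat_lit 4427907, nat_lit 4452833, true, true⟩,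
 nat_lit 0, nat_lit 0, nat_lit 1346, nat_lit 0, nat_lit 2937, nat_lit 712, nat_lit 0, nat_lit 0, nat_lit 0, nat_lit 59, nat_lit 0, nat_lit 0, nat_lit 0, nat_lit 0, nat_lit 0, nat_lit 368800, nat_lit 0, nat_lit 0, [(nat_lit 25, [(nat_lit 1, nat_lit 922)])],
 ⟨p111_k16, nat_lit 0, nat_lit 0, nat_lit 108, nat_lit 0, nat_lit 0, [nat_lit 852069601, nat_lit 1179962934, nat_lit 1331314400], [], [nat_lit 24200209896, nat_lit 25343666812, nat_lit 25848258864, nat_lit 26899977934, nat_lit 24791247029, nat_lit 25819075264, nat_lit 26285298720, nat_lit 27248330508], nat_lit 0, nat_lit 0, nat_lit 0, nat_lit 0, nat_lit 0, nat_lit 0, [], [nat_lit 20, nat_lit 40, nat_lit 40, nat_lit 80, nat_lit 16, nat_lit 249, nat_lit 40, nat_lit 8]⟩, ⟨p111_k17, nat_lit 0, nat_lit 0, nat_lit 875, nat_lit 0, nat_lit 1242176, [nat_lit 365664000, nat_lit 621504000, nat_lit 1096524000], [], [nat_lit 3014386068, nat_lit 3018250568, nat_lit 3047151748,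 nat_lit 3065884716, nat_lit 2611613759, nat_lit 2634249357, nat_lit 2697429177, nat_lit 2714128159], nat_lit 1271250, nat_lit 1271250, nat_lit 1271250, nat_lit 1271250, nat_lit 0, nat_lit 2570750, [nat_lit 1100000, nat_lit 1785000, nat_lit 1271250], [nat_lit 37, nat_lit 40, nat_lit 40, nat_lit 80, nat_lit 28, nat_lit 483, nat_lit 250, nat_lit 11]⟩,
 ⟨nat_lit 2236, nat_lit 3163, ⟨.ofNat (nat_lit 666215), .ofNat (nat_lit 727168), .ofNat (nat_lit 688370), .ofNat (nat_lit 749323), .ofNat (nat_lit 659578), .ofNat (nat_lit 716594), .ofNat (nat_lit 682352), .ofNat (nat_lit 739368)⟩, ⟨.ofNat (nat_lit 184209), .ofNat (nat_lit 306116), .ofNat (nat_lit 200000), .ofNat (nat_lit 350426), .ofNat (nat_lit 192306), .ofNat (nat_lit 306337), .ofNat (nat_lit 200000), .ofNat (nat_lit 351886)⟩⟩, [⟨nat_lit 22, nat_lit 94, nat_lit 88, nat_lit 100, nat_lit 11271773⟩]⟩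
noncomputable def p111_l112 : Lf2 := ⟨nat_lit 0, nat_lit 20, [nat_lit 5, nat_lit 5, nat_lit 5, nat_lit 20], false, nat_lit 80, nat_lit 160, nat_lit 0, nat_lit 352, ⟨nat_lit 130, nat_lit 870, nat_lit 0, nat_lit 7, nat_lit 291, nat_lit 870, nat_lit 104, nat_lit 0, nat_lit 0, nat_lit 0, nat_lit 0, nat_lit 0, nat_lit 40572632, nat_lit 22071232, nat_lit 4356136, nat_lit 4485325, true, true⟩,
 nat_lit 0, nat_lit 0, nat_lit 1780, nat_lit 0, nat_lit 4361, nat_lit 1036, nat_lit 0, nat_lit 0, nat_lit 0, nat_lit 110, nat_lit 0, nat_lit 0, nat_lit 0, nat_lit 0, nat_lit 0, nat_lit 245550, nat_lit 0, nat_lit 0, [(nat_lit 25, [(nat_lit 0, nat_lit 683), (nat_lit 1, nat_lit 187)])],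
 ⟨p111_k16, nat_lit 0, nat_lit 0, nat_lit 104, nat_lit 0, nat_lit 0, [nat_lit 801729601, nat_lit 1548949334, nat_lit 2430236400], [], [nat_lit 25031431288, nat_lit 25721115362, nat_lit 26920227392, nat_lit 27548693247, nat_lit 25108771680, nat_lit 25733050136, nat_lit 26819405360, nat_lit 27389867142], nat_lit 0, nat_lit 0, nat_lit 0, nat_lit 0, nat_lit 0, nat_lit 0, [], [nat_lit 20, nat_lit 40, nat_lit 40, nat_lit 80, nat_lit 16, nat_lit 249, nat_lit 40, nat_lit 8]⟩, ⟨p111_k18, nat_lit 0, nat_lit 0, nat_lit 708, nat_lit 0, nat_lit 1021816, [nat_lit 609440000, nat_lit 1035840000, nat_lit 1543360000], [], [nat_lit 4720064680, nat_lit 4748907344, nat_lit 4812720148, nat_lit 4835223904, nat_lit 4166344456, nat_lit 4166356959, nat_lit 4193774079, nat_lit 4189881767], nat_lit 1271250, nat_lit 1271250, nat_lit 1271250, nat_lit 1271250, nat_lit 0, nat_lit 2486000, [nat_lit 1100000, nat_lit 1785000, nat_lit 1271250], [nat_lit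 21, nat_lit 40, nat_lit 40, nat_lit 80, nat_lit 14, nat_lit 483, nat_lit 250, nat_lit 12]⟩,
 ⟨nat_lit 2738, nat_lit 3163, ⟨.ofNat (nat_lit 688370), .ofNat (nat_lit 749323), .ofNat (nat_lit 710514), .ofNat (nat_lit 771478), .ofNat (nat_lit 685373), .ofNat (nat_lit 744435), .ofNat (nat_lit 707780), .ofNat (nat_lit 766852)⟩, ⟨.ofNat (nat_lit 184209), .ofNat (nat_lit 306116), .ofNat (nat_lit 200000), .ofNat (nat_lit 350426), .ofNat (nat_lit 188310), .ofNat (nat_lit 306433), .ofNat (nat_lit 200000), .ofNat (nat_lit 351268)⟩⟩, [⟨nat_lit 22, nat_lit 94, nat_lit 88, nat_lit 100, nat_lit 16895372⟩]⟩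
noncomputable def p111_l113 : Lf2 := ⟨nat_lit 0, nat_lit 20, [nat_lit 5, nat_lit 5, nat_lit 5, nat_lit 20], false, nat_lit 80, nat_lit 160, nat_lit 0, nat_lit 352, ⟨nat_lit 101, nat_lit 899, nat_lit 0, nat_lit 7, nat_lit 290, nat_lit 899, nat_lit 105, nat_lit 0, nat_lit 0, nat_lit 0, nat_lit 0, nat_lit 0, nat_lit 40688389, nat_lit 21916446, nat_lit 4395165, nat_lit 4485745, true, true⟩,
 nat_lit 0, nat_lit 0, nat_lit 1391, nat_lit 0, nat_lit 3035, nat_lit 809, nat_lit 202, nat_lit 0, nat_lit 0, nat_lit 86, nat_lit 0, nat_lit 0, nat_lit 0, nat_lit 0, nat_lit 0, nat_lit 224750, nat_lit 0, nat_lit 0, [(nat_lit 25, [(nat_lit 0, nat_lit 899)])],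
 ⟨p111_k22, nat_lit 0, nat_lit 0, nat_lit 108, nat_lit 0, nat_lit 0, [nat_lit 781574001, nat_lit 1562033200, nat_lit 2535332000], [], [nat_lit 24054225470, nat_lit 24634071660, nat_lit 25671917445, nat_lit 26278784720, nat_lit 24544138160, nat_lit 25073082520, nat_lit 26026657770, nat_lit 26514294940], nat_lit 0, nat_lit 0, nat_lit 0, nat_lit 0, nat_lit 0, nat_lit 0, [], [nat_lit 20, nat_lit 40, nat_lit 40, nat_lit 80, nat_lit 16, nat_lit 249, nat_lit 40, nat_lit 8]⟩, ⟨p111_k18, nat_lit 0, nat_lit 0, nat_lit 801, nat_lit 0, nat_lit 1204723, [nat_lit 473488000, nat_lit 804768000, nat_lit 1199072000], [], [nat_lit 3645299018, nat_lit 3667633504, nat_lit 3717262178, nat_lit 3734651372, nat_lit 3210198603, nat_lit 3210047933, nat_lit 3231286646, nat_lit 3242277501], nat_lit 1271250, nat_lit 1271250, nat_lit 1271250, nat_lit 1271250, nat_lit 0, nat_lit 2486000, [nat_lit 1100000, nat_lit 1785000, nat_lit 1271250], [nat_lit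 21, nat_lit 40, nat_lit 40, nat_lit 80, nat_lit 14, nat_lit 483, nat_lit 250, nat_lit 12]⟩,
 ⟨nat_lit 2236, nat_lit 2739, ⟨.ofNat (nat_lit 685373), .ofNat (nat_lit 744435), .ofNat (nat_lit 707780), .ofNat (nat_lit 766852), .ofNat (nat_lit 682352), .ofNat (nat_lit 739368), .ofNat (nat_lit 705116), .ofNat (nat_lit 762142)⟩, ⟨.ofNat (nat_lit 188310), .ofNat (nat_lit 306433), .ofNat (nat_lit 200000), .ofNat (nat_lit 351268), .ofNat (nat_lit 192306), .ofNat (nat_lit 306337), .ofNat (nat_lit 200000), .ofNat (nat_lit 351886)⟩⟩, [⟨nat_lit 22, nat_lit 94, nat_lit 88, nat_lit 100, nat_lit 13198895⟩]⟩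
noncomputable def p111_l114 : Lf2 := ⟨nat_lit 0, nat_lit 20, [nat_lit 5, nat_lit 5, nat_lit 5, nat_lit 20], true, nat_lit 80, nat_lit 160, nat_lit 0, nat_lit 364, ⟨nat_lit 0, nat_lit 1000, nat_lit 0, nat_lit 7, nat_lit 283, nat_lit 1000, nat_lit 105, nat_lit 0, nat_lit 0, nat_lit 0, nat_lit 0, nat_lit 0, nat_lit 41227061, nat_lit 21316833, nat_lit 4456106, nat_lit 4468063, true, true⟩,
 nat_lit 0, nat_lit 0, nat_lit 0, nat_lit 0, nat_lit 2300, nat_lit 0, nat_lit 42, nat_lit 0, nat_lit 0, nat_lit 0, nat_lit 0, nat_lit 0, nat_lit 0, nat_lit 0, nat_lit 0, nat_lit 400000, nat_lit 0, nat_lit 0, [(nat_lit 28, [(nat_lit 1, nat_lit 1000)])],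
 ⟨p111_k19, nat_lit 0, nat_lit 0, nat_lit 112, nat_lit 0, nat_lit 0, [nat_lit 697600000, nat_lit 324800000, nat_lit 138000000], [], [nat_lit 23791456250, nat_lit 24300034350, nat_lit 25232932850, nat_lit 25724965100, nat_lit 24537780050, nat_lit 25004468850, nat_lit 25956284600, nat_lit 26447667700], nat_lit 0, nat_lit 0, nat_lit 0, nat_lit 0, nat_lit 0, nat_lit 0, [], [nat_lit 20, nat_lit 40, nat_lit 40, nat_lit 80, nat_lit 16, nat_lit 249, nat_lit 40, nat_lit 8]⟩, C1.Rw.none,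
 ⟨nat_lit 1581, nat_lit 2237, ⟨.ofNat (nat_lit 659578), .ofNat (nat_lit 716594), .ofNat (nat_lit 705117), .ofNat (nat_lit 762142), .ofNat (nat_lit 655900), .ofNat (nat_lit 710536), .ofNat (nat_lit 702521), .ofNat (nat_lit 757166)⟩, ⟨.ofNat (nat_lit 192306), .ofNat (nat_lit 306337), .ofNat (nat_lit 200000), .ofNat (nat_lit 351886), .ofNat (nat_lit 196201), .ofNat (nat_lit 305473), .ofNat (nat_lit 200000), .ofNat (nat_lit 352103)⟩⟩, []⟩
noncomputable def p111_l115 : Lf2 := ⟨nat_lit 0, nat_lit 20, [nat_lit 5, nat_lit 5, nat_lit 5, nat_lit 20], true, nat_lit 80, nat_lit 160, nat_lit 0, nat_lit 364, ⟨nat_lit 0, nat_lit 1000, nat_lit 0, nat_lit 7, nat_lit 281, nat_lit 1000, nat_lit 105, nat_lit 0, nat_lit 0, nat_lit 0, nat_lit 0, nat_lit 0, nat_lit 41424368, nat_lit 21108327, nat_lit 4467305, nat_lit 4459460, true, true⟩,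
 nat_lit 0, nat_lit 0, nat_lit 0, nat_lit 0, nat_lit 2664, nat_lit 0, nat_lit 38, nat_lit 0, nat_lit 0, nat_lit 0, nat_lit 0, nat_lit 0, nat_lit 0, nat_lit 0, nat_lit 0, nat_lit 250000, nat_lit 0, nat_lit 0, [(nat_lit 28, [(nat_lit 0, nat_lit 1000)])],
 ⟨p111_k28, nat_lit 0, nat_lit 0, nat_lit 102, nat_lit 0, nat_lit 0, [nat_lit 781600001, nat_lit 1046000001, nat_lit 1376400000], [], [nat_lit 25014903516, nat_lit 25530927092, nat_lit 26428110988, nat_lit 26939227748, nat_lit 25669497796, nat_lit 26141660436, nat_lit 26970491876, nat_lit 27436784228], nat_lit 0, nat_lit 0, nat_lit 0, nat_lit 0, nat_lit 0, nat_lit 0, [], [nat_lit 35, nat_lit 40, nat_lit 40, nat_lit 80, nat_lit 22, nat_lit 249, nat_lit 40, nat_lit 9]⟩, C1.Rw.none,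
 ⟨nat_lit 0, nat_lit 1582, ⟨.ofNat (nat_lit 655899), .ofNat (nat_lit 710533), .ofNat (nat_lit 702515), .ofNat (nat_lit 757165), .ofNat (nat_lit 649998), .ofNat (nat_lit 699996), .ofNat (nat_lit 699984), .ofNat (nat_lit 749998)⟩, ⟨.ofNat (nat_lit 196201), .ofNat (nat_lit 305469), .ofNat (nat_lit 200000), .ofNat (nat_lit 352101), .ofNat (nat_lit 199999), .ofNat (nat_lit 299995), .ofNat (nat_lit 200000), .ofNat (nat_lit 349997)⟩⟩, [⟨nat_lit 13, nat_lit 23, nat_lit 91, nat_lit 100, nat_lit 11400197⟩, ⟨nat_lit 3, nat_lit 100, nat_lit 26, nat_lit 85, nat_lit 58015691⟩]⟩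
noncomputable def p111_l116 : Lf2 := ⟨nat_lit 0, nat_lit 20, [nat_lit 5, nat_lit 5, nat_lit 5, nat_lit 20], false, nat_lit 80, nat_lit 160, nat_lit 0, nat_lit 336, ⟨nat_lit 119, nat_lit 881, nat_lit 0, nat_lit 8, nat_lit 307, nat_lit 881, nat_lit 104, nat_lit 0, nat_lit 0, nat_lit 0, nat_lit 0, nat_lit 0, nat_lit 39131977, nat_lit 23612142, nat_lit 4255881, nat_lit 4531925, true, true⟩,
 nat_lit 0, nat_lit 0, nat_lit 1946, nat_lit 0, nat_lit 3494, nat_lit 1030, nat_lit 0, nat_lit 0, nat_lit 0, nat_lit 85, nat_lit 0, nat_lit 0, nat_lit 0, nat_lit 0, nat_lit 0, nat_lit 346850, nat_lit 0, nat_lit 0, [(nat_lit 25, [(nat_lit 0, nat_lit 37), (nat_lit 1, nat_lit 844)])],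
 ⟨p111_k16, nat_lit 0, nat_lit 0, nat_lit 117, nat_lit 0, nat_lit 0, [nat_lit 852901201, nat_lit 1287004134, nat_lit 1594544800], [], [nat_lit 26100946368, nat_lit 26666940538, nat_lit 28222332576, nat_lit 28797628174, nat_lit 26327600640, nat_lit 26843907868, nat_lit 28265420597, nat_lit 28731464315], nat_lit 0, nat_lit 0, nat_lit 0, nat_lit 0, nat_lit 0, nat_lit 0, [], [nat_lit 20, nat_lit 40, nat_lit 40, nat_lit 80, nat_lit 16, nat_lit 249, nat_lit 40, nat_lit 8]⟩, ⟨p111_k17, nat_lit 0, nat_lit 0, nat_lit 768, nat_lit 0, nat_lit 1020304, [nat_lit 557872000, nat_lit 948192000, nat_lit 1672902000], [], [nat_lit 4939747704, nat_lit 4942550148, nat_lit 5025724911, nat_lit 5042398634, nat_lit 4203406475, nat_lit 4198151104, nat_lit 4260543386, nat_lit 4269277869], nat_lit 1271250, nat_lit 1271250, nat_lit 1271250, nat_lit 1271250, nat_lit 0, nat_lit 2373000, [nat_lit 1100000, nat_lit 1785000, nat_lit 1271250], [nat_lit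 37, nat_lit 40, nat_lit 40, nat_lit 80, nat_lit 28, nat_lit 483, nat_lit 250, nat_lit 11]⟩,
 ⟨nat_lit 2738, nat_lit 3163, ⟨.ofNat (nat_lit 727168), .ofNat (nat_lit 794217), .ofNat (nat_lit 749323), .ofNat (nat_lit 816372), .ofNat (nat_lit 722017), .ofNat (nat_lit 786985), .ofNat (nat_lit 744435), .ofNat (nat_lit 809402)⟩, ⟨.ofNat (nat_lit 184209), .ofNat (nat_lit 306116), .ofNat (nat_lit 200000), .ofNat (nat_lit 350426), .ofNat (nat_lit 188310), .ofNat (nat_lit 306433), .ofNat (nat_lit 200000), .ofNat (nat_lit 351268)⟩⟩, [⟨nat_lit 13, nat_lit 58, nat_lit 68, nat_lit 100, nat_lit 252378523⟩, ⟨nat_lit 22, nat_lit 76, nat_lit 100, nat_lit 98, nat_lit 14979504⟩]⟩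
noncomputable def p111_l117 : Lf2 := ⟨nat_lit 0, nat_lit 20, [nat_lit 5, nat_lit 5, nat_lit 5, nat_lit 20], false, nat_lit 80, nat_lit 160, nat_lit 0, nat_lit 336, ⟨nat_lit 89, nat_lit 911, nat_lit 0, nat_lit 8, nat_lit 302, nat_lit 911, nat_lit 105, nat_lit 0, nat_lit 0, nat_lit 0, nat_lit 0, nat_lit 0, nat_lit 39635501, nat_lit 23042120, nat_lit 4322379, nat_lit 4522032, true, true⟩,
 nat_lit 0, nat_lit 0, nat_lit 1494, nat_lit 0, nat_lit 3066, nat_lit 790, nat_lit 155, nat_lit 0, nat_lit 0, nat_lit 64, nat_lit 0, nat_lit 0, nat_lit 0, nat_lit 0, nat_lit 0, nat_lit 227750, nat_lit 0, nat_lit 0, [(nat_lit 25, [(nat_lit 0, nat_lit 911)])],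
 ⟨p111_k22, nat_lit 0, nat_lit 0, nat_lit 117, nat_lit 0, nat_lit 0, [nat_lit 779486001, nat_lit 1539074801, nat_lit 2485748000], [], [nat_lit 26068717882, nat_lit 26603872512, nat_lit 27491364745, nat_lit 27992057050, nat_lit 26457467960, nat_lit 26901025244, nat_lit 27716284639, nat_lit 28172519504], nat_lit 0, nat_lit 0, nat_lit 0, nat_lit 0, nat_lit 0, nat_lit 0, [], [nat_lit 20, nat_lit 40, nat_lit 40, nat_lit 80, nat_lit 16, nat_lit 249, nat_lit 40, nat_lit 8]⟩, ⟨p111_k17, nat_lit 0, nat_lit 0, nat_lit 856, nat_lit 0, nat_lit 1242176, [nat_lit 417232000, nat_lit 709152000, nat_lit 1251162000], [], [nat_lit 3605975724, nat_lit 3607370928, nat_lit 3655974451, nat_lit 3710484875, nat_lit 3036915779, nat_lit 3032551498, nat_lit 3119464270, nat_lit 3138559658], nat_lit 1271250, nat_lit 1271250, nat_lit 1271250, nat_lit 1271250, nat_lit 0, nat_lit 2373000, [nat_lit 1100000, nat_lit 1785000, nat_lit 1271250], [nat_lit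 37, nat_lit 40, nat_lit 40, nat_lit 80, nat_lit 28, nat_lit 483, nat_lit 250, nat_lit 11]⟩,
 ⟨nat_lit 2236, nat_lit 2739, ⟨.ofNat (nat_lit 722017), .ofNat (nat_lit 769266), .ofNat (nat_lit 744435), .ofNat (nat_lit 791684), .ofNat (nat_lit 716594), .ofNat (nat_lit 762206), .ofNat (nat_lit 739368), .ofNat (nat_lit 784980)⟩, ⟨.ofNat (nat_lit 188310), .ofNat (nat_lit 306433), .ofNat (nat_lit 200000), .ofNat (nat_lit 351268), .ofNat (nat_lit 192306), .ofNat (nat_lit 306337), .ofNat (nat_lit 200000), .ofNat (nat_lit 351886)⟩⟩, [⟨nat_lit 13, nat_lit 50, nat_lit 75, nat_lit 100, nat_lit 331932897⟩, ⟨nat_lit 22, nat_lit 80, nat_lit 100, nat_lit 100, nat_lit 10422835⟩]⟩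
noncomputable def p111_l118 : Lf2 := ⟨nat_lit 0, nat_lit 20, [nat_lit 5, nat_lit 5, nat_lit 5, nat_lit 20], true, nat_lit 80, nat_lit 160, nat_lit 0, nat_lit 336, ⟨nat_lit 0, nat_lit 1000, nat_lit 0, nat_lit 8, nat_lit 293, nat_lit 1000, nat_lit 105, nat_lit 0, nat_lit 0, nat_lit 0, nat_lit 0, nat_lit 0, nat_lit 40342734, nat_lit 22272937, nat_lit 4384329, nat_lit 4500407, true, true⟩,
 nat_lit 0, nat_lit 0, nat_lit 0, nat_lit 0, nat_lit 2520, nat_lit 0, nat_lit 1, nat_lit 0, nat_lit 0, nat_lit 0, nat_lit 0, nat_lit 0, nat_lit 0, nat_lit 0, nat_lit 0, nat_lit 400000, nat_lit 0, nat_lit 0, [(nat_lit 28, [(nat_lit 1, nat_lit 1000)])],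
 ⟨p111_k19, nat_lit 0, nat_lit 0, nat_lit 121, nat_lit 0, nat_lit 0, [nat_lit 697600000, nat_lit 324800000, nat_lit 138000000], [], [nat_lit 25670697885, nat_lit 26684220320, nat_lit 26457839885, nat_lit 27599297520, nat_lit 26257626765, nat_lit 27133532845, nat_lit 26983650685, nat_lit 27896357040], nat_lit 0, nat_lit 0, nat_lit 0, nat_lit 0, nat_lit 0, nat_lit 0, [], [nat_lit 20, nat_lit 40, nat_lit 40, nat_lit 80, nat_lit 16, nat_lit 249, nat_lit 40, nat_lit 8]⟩, C1.Rw.none,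
 ⟨nat_lit 0, nat_lit 2237, ⟨.ofNat (nat_lit 716590), .ofNat (nat_lit 745097), .ofNat (nat_lit 739366), .ofNat (nat_lit 767872), .ofNat (nat_lit 699995), .ofNat (nat_lit 724995), .ofNat (nat_lit 724997), .ofNat (nat_lit 749995)⟩, ⟨.ofNat (nat_lit 192306), .ofNat (nat_lit 306334), .ofNat (nat_lit 200000), .ofNat (nat_lit 351885), .ofNat (nat_lit 199999), .ofNat (nat_lit 299996), .ofNat (nat_lit 200000), .ofNat (nat_lit 349998)⟩⟩, [⟨nat_lit 13, nat_lit 46, nat_lit 76, nat_lit 100, nat_lit 427599715⟩]⟩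
noncomputable def p111_l119 : Lf2 := ⟨nat_lit 0, nat_lit 20, [nat_lit 5, nat_lit 5, nat_lit 5, nat_lit 20], false, nat_lit 80, nat_lit 160, nat_lit 0, nat_lit 336, ⟨nat_lit 145, nat_lit 855, nat_lit 0, nat_lit 8, nat_lit 317, nat_lit 855, nat_lit 104, nat_lit 0, nat_lit 0, nat_lit 0, nat_lit 0, nat_lit 0, nat_lit 38343103, nat_lit 24458571, nat_lit 4198326, nat_lit 4551762, true, true⟩,
 nat_lit 0, nat_lit 0, nat_lit 1920, nat_lit 0, nat_lit 3913, nat_lit 1117, nat_lit 0, nat_lit 0, nat_lit 0, nat_lit 115, nat_lit 0, nat_lit 0, nat_lit 0, nat_lit 0, nat_lit 0, nat_lit 276450, nat_lit 0, nat_lit 0, [(nat_lit 25, [(nat_lit 0, nat_lit 437), (nat_lit 1, nat_lit 418)])],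
 ⟨p111_k16, nat_lit 0, nat_lit 0, nat_lit 119, nat_lit 0, nat_lit 0, [nat_lit 823004400, nat_lit 1492947334, nat_lit 2214369600], [], [nat_lit 26712840336, nat_lit 27309025551, nat_lit 29406569092, nat_lit 30042627828, nat_lit 26781233280, nat_lit 27323712086, nat_lit 29197416289, nat_lit 29675408434], nat_lit 0, nat_lit 0, nat_lit 0, nat_lit 0, nat_lit 0, nat_lit 0, [], [nat_lit 20, nat_lit 40, nat_lit 40, nat_lit 80, nat_lit 16, nat_lit 249, nat_lit 40, nat_lit 8]⟩, ⟨p111_k18, nat_lit 0, nat_lit 0, nat_lit 675, nat_lit 0, nat_lit 950154, [nat_lit 679760000, nat_lit 1155360000, nat_lit 1721440000], [], [nat_lit 5398438403, nat_lit 5414385508, nat_lit 5616132659, nat_lit 5633462241, nat_lit 4798143787, nat_lit 4804140665, nat_lit 4931801360, nat_lit 4933886499], nat_lit 1271250, nat_lit 1271250, nat_lit 1271250, nat_lit 1271250, nat_lit 0, nat_lit 2373000, [nat_lit 1100000, nat_lit 1785000, nat_lit 1271250], [nat_lit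 21, nat_lit 40, nat_lit 40, nat_lit 80, nat_lit 14, nat_lit 401, nat_lit 175, nat_lit 10]⟩,
 ⟨nat_lit 2738, nat_lit 3163, ⟨.ofNat (nat_lit 749323), .ofNat (nat_lit 828563), .ofNat (nat_lit 760401), .ofNat (nat_lit 839640), .ofNat (nat_lit 744435), .ofNat (nat_lit 821214), .ofNat (nat_lit 755643), .ofNat (nat_lit 832423)⟩, ⟨.ofNat (nat_lit 184209), .ofNat (nat_lit 306116), .ofNat (nat_lit 200000), .ofNat (nat_lit 350426), .ofNat (nat_lit 188310), .ofNat (nat_lit 306433), .ofNat (nat_lit 200000), .ofNat (nat_lit 351268)⟩⟩, [⟨nat_lit 13, nat_lit 55, nat_lit 68, nat_lit 100, nat_lit 262373111⟩, ⟨nat_lit 22, nat_lit 73, nat_lit 100, nat_lit 97, nat_lit 23930592⟩]⟩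
noncomputable def p111_l120 : Lf2 := ⟨nat_lit 0, nat_lit 20, [nat_lit 5, nat_lit 5, nat_lit 5, nat_lit 20], false, nat_lit 80, nat_lit 160, nat_lit 0, nat_lit 336, ⟨nat_lit 105, nat_lit 895, nat_lit 0, nat_lit 8, nat_lit 311, nat_lit 895, nat_lit 105, nat_lit 0, nat_lit 0, nat_lit 0, nat_lit 0, nat_lit 0, nat_lit 38839143, nat_lit 23895814, nat_lit 4265043, nat_lit 4544680, true, true⟩,
 nat_lit 0, nat_lit 0, nat_lit 1471, nat_lit 0, nat_lit 3115, nat_lit 856, nat_lit 147, nat_lit 0, nat_lit 0, nat_lit 81, nat_lit 0, nat_lit 0, nat_lit 0, nat_lit 0, nat_lit 0, nat_lit 223750, nat_lit 0, nat_lit 0, [(nat_lit 25, [(nat_lit 0, nat_lit 895)])],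
 ⟨p111_k22, nat_lit 0, nat_lit 0, nat_lit 119, nat_lit 0, nat_lit 0, [nat_lit 782270000, nat_lit 1569686001, nat_lit 2551860000], [], [nat_lit 26213133105, nat_lit 26751818430, nat_lit 28001238400, nat_lit 28496636410, nat_lit 26579452321, nat_lit 27029523160, nat_lit 28176266900, nat_lit 28626763520], nat_lit 0, nat_lit 0, nat_lit 0, nat_lit 0, nat_lit 0, nat_lit 0, [], [nat_lit 20, nat_lit 40, nat_lit 40, nat_lit 80, nat_lit 16, nat_lit 249, nat_lit 40, nat_lit 8]⟩, ⟨p111_k18, nat_lit 0, nat_lit 0, nat_lit 745, nat_lit 0, nat_lit 1137793, [nat_lit 492240000, nat_lit 836640000, nat_lit 1246560000], [], [nat_lit 3870425658, nat_lit 3879292521, nat_lit 3966398200, nat_lit 3987960893, nat_lit 3325069752, nat_lit 3331965830, nat_lit 3486165791, nat_lit 3508743780], nat_lit 1271250, nat_lit 1271250, nat_lit 1271250, nat_lit 1271250, nat_lit 0, nat_lit 2373000, [nat_lit 1100000, nat_lit 1785000, nat_lit 1271250], [nat_lit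 21, nat_lit 40, nat_lit 40, nat_lit 80, nat_lit 14, nat_lit 401, nat_lit 175, nat_lit 10]⟩,
 ⟨nat_lit 2236, nat_lit 2739, ⟨.ofNat (nat_lit 744435), .ofNat (nat_lit 803496), .ofNat (nat_lit 755643), .ofNat (nat_lit 814705), .ofNat (nat_lit 739368), .ofNat (nat_lit 796384), .ofNat (nat_lit 750755), .ofNat (nat_lit 807771)⟩, ⟨.ofNat (nat_lit 188310), .ofNat (nat_lit 306433), .ofNat (nat_lit 200000), .ofNat (nat_lit 351268), .ofNat (nat_lit 192306), .ofNat (nat_lit 306337), .ofNat (nat_lit 200000), .ofNat (nat_lit 351886)⟩⟩, [⟨nat_lit 13, nat_lit 46, nat_lit 76, nat_lit 100, nat_lit 345023599⟩, ⟨nat_lit 22, nat_lit 77, nat_lit 100, nat_lit 99, nat_lit 15320411⟩]⟩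
noncomputable def p111_l121 : Lf2 := ⟨nat_lit 0, nat_lit 20, [nat_lit 5, nat_lit 5, nat_lit 5, nat_lit 20], false, nat_lit 80, nat_lit 160, nat_lit 0, nat_lit 336, ⟨nat_lit 216, nat_lit 784, nat_lit 0, nat_lit 8, nat_lit 322, nat_lit 784, nat_lit 104, nat_lit 0, nat_lit 0, nat_lit 0, nat_lit 0, nat_lit 0, nat_lit 37857588, nat_lit 24980402, nat_lit 4162010, nat_lit 4562003, true, true⟩,
 nat_lit 0, nat_lit 0, nat_lit 2533, nat_lit 0, nat_lit 3413, nat_lit 1542, nat_lit 67, nat_lit 0, nat_lit 0, nat_lit 173, nat_lit 0, nat_lit 0, nat_lit 0, nat_lit 0, nat_lit 0, nat_lit 313600, nat_lit 0, nat_lit 0, [(nat_lit 25, [(nat_lit 1, nat_lit 784)])],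
 ⟨p111_k16, nat_lit 0, nat_lit 0, nat_lit 120, nat_lit 0, nat_lit 0, [nat_lit 864931201, nat_lit 1494584534, nat_lit 2067516800], [], [nat_lit 26039660911, nat_lit 26599818626, nat_lit 28786129217, nat_lit 29376715994, nat_lit 26342338413, nat_lit 26808157661, nat_lit 28778008882, nat_lit 29230255303], nat_lit 0, nat_lit 0, nat_lit 0, nat_lit 0, nat_lit 0, nat_lit 0, [], [nat_lit 20, nat_lit 40, nat_lit 40, nat_lit 80, nat_lit 16, nat_lit 249, nat_lit 40, nat_lit 8]⟩, ⟨p111_k24, nat_lit 0, nat_lit 0, nat_lit 675, nat_lit 0, nat_lit 955572, [nat_lit 1012608000, nat_lit 1721088000, nat_lit 2564352000], [], [nat_lit 7961643404, nat_lit 7982309216, nat_lit 8230821704, nat_lit 8244737255, nat_lit 7163201455, nat_lit 7165311570, nat_lit 7305032141, nat_lit 7322453642], nat_lit 1271250, nat_lit 1271250, nat_lit 1271250, nat_lit 1271250, nat_lit 0, nat_lit 2373000, [nat_lit 1100000, nat_lit 1785000, nat_lit 1271250], [nat_lit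 21, nat_lit 40, nat_lit 40, nat_lit 80, nat_lit 14, nat_lit 401, nat_lit 175, nat_lit 10]⟩,
 ⟨nat_lit 2738, nat_lit 3163, ⟨.ofNat (nat_lit 760401), .ofNat (nat_lit 845735), .ofNat (nat_lit 771478), .ofNat (nat_lit 856813), .ofNat (nat_lit 755643), .ofNat (nat_lit 838329), .ofNat (nat_lit 766852), .ofNat (nat_lit 849538)⟩, ⟨.ofNat (nat_lit 184209), .ofNat (nat_lit 306116), .ofNat (nat_lit 200000), .ofNat (nat_lit 350426), .ofNat (nat_lit 188310), .ofNat (nat_lit 306433), .ofNat (nat_lit 200000), .ofNat (nat_lit 351268)⟩⟩, [⟨nat_lit 13, nat_lit 56, nat_lit 65, nat_lit 100, nat_lit 163643860⟩, ⟨nat_lit 22, nat_lit 71, nat_lit 100, nat_lit 97, nat_lit 39252982⟩]⟩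
noncomputable def p111_l122 : Lf2 := ⟨nat_lit 0, nat_lit 20, [nat_lit 5, nat_lit 5, nat_lit 5, nat_lit 20], false, nat_lit 80, nat_lit 160, nat_lit 0, nat_lit 336, ⟨nat_lit 135, nat_lit 865, nat_lit 0, nat_lit 8, nat_lit 309, nat_lit 865, nat_lit 105, nat_lit 0, nat_lit 0, nat_lit 0, nat_lit 0, nat_lit 0, nat_lit 38950920, nat_lit 23775874, nat_lit 4273206, nat_lit 4541748, true, true⟩,
 nat_lit 0, nat_lit 0, nat_lit 1622, nat_lit 0, nat_lit 2716, nat_lit 987, nat_lit 247, nat_lit 0, nat_lit 0, nat_lit 119, nat_lit 0, nat_lit 0, nat_lit 0, nat_lit 0, nat_lit 0, nat_lit 216250, nat_lit 0, nat_lit 0, [(nat_lit 25, [(nat_lit 0, nat_lit 865)])],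
 ⟨p111_k22, nat_lit 0, nat_lit 0, nat_lit 113, nat_lit 0, nat_lit 0, [nat_lit 787490001, nat_lit 1627082000, nat_lit 2675820000], [], [nat_lit 25369645432, nat_lit 25879580812, nat_lit 26223811446, nat_lit 26782500508, nat_lit 25867871513, nat_lit 26326712381, nat_lit 26640642605, nat_lit 27082215556], nat_lit 0, nat_lit 0, nat_lit 0, nat_lit 0, nat_lit 0, nat_lit 0, [], [nat_lit 20, nat_lit 40, nat_lit 40, nat_lit 80, nat_lit 16, nat_lit 249, nat_lit 40, nat_lit 8]⟩, ⟨p111_k24, nat_lit 0, nat_lit 0, nat_lit 739, nat_lit 0, nat_lit 1126501, [nat_lit 632880000, nat_lit 1075680000, nat_lit 1602720000], [], [nat_lit 4752751652, nat_lit 4765410500, nat_lit 4810077488, nat_lit 4821211820, nat_lit 4226125308, nat_lit 4231069943, nat_lit 4268769773, nat_lit 4273894069], nat_lit 1271250, nat_lit 1271250, nat_lit 1271250, nat_lit 1271250, nat_lit 0, nat_lit 2373000, [nat_lit 1100000, nat_lit 1785000, nat_lit 1271250], [nat_lit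 21, nat_lit 40, nat_lit 40, nat_lit 80, nat_lit 14, nat_lit 401, nat_lit 175, nat_lit 10]⟩,
 ⟨nat_lit 2236, nat_lit 2739, ⟨.ofNat (nat_lit 755643), .ofNat (nat_lit 785174), .ofNat (nat_lit 766852), .ofNat (nat_lit 796383), .ofNat (nat_lit 750755), .ofNat (nat_lit 779263), .ofNat (nat_lit 762142), .ofNat (nat_lit 790650)⟩, ⟨.ofNat (nat_lit 188310), .ofNat (nat_lit 306433), .ofNat (nat_lit 200000), .ofNat (nat_lit 351268), .ofNat (nat_lit 192306), .ofNat (nat_lit 306337), .ofNat (nat_lit 200000), .ofNat (nat_lit 351886)⟩⟩, [⟨nat_lit 7, nat_lit 85, nat_lit 100, nat_lit 93, nat_lit 18752425⟩]⟩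
noncomputable def p111_l123 : Lf2 := ⟨nat_lit 0, nat_lit 20, [nat_lit 5, nat_lit 5, nat_lit 5, nat_lit 20], false, nat_lit 80, nat_lit 160, nat_lit 0, nat_lit 312, ⟨nat_lit 126, nat_lit 874, nat_lit 0, nat_lit 8, nat_lit 323, nat_lit 874, nat_lit 105, nat_lit 0, nat_lit 0, nat_lit 0, nat_lit 0, nat_lit 0, nat_lit 37750894, nat_lit 25065440, nat_lit 4183666, nat_lit 4569063, true, true⟩,
 nat_lit 0, nat_lit 0, nat_lit 1538, nat_lit 0, nat_lit 3033, nat_lit 936, nat_lit 172, nat_lit 0, nat_lit 0, nat_lit 105, nat_lit 0, nat_lit 0, nat_lit 0, nat_lit 0, nat_lit 0, nat_lit 218500, nat_lit 0, nat_lit 0, [(nat_lit 25, [(nat_lit 0, nat_lit 874)])],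
 ⟨p111_k22, nat_lit 0, nat_lit 0, nat_lit 121, nat_lit 0, nat_lit 0, [nat_lit 785924001, nat_lit 1609863201, nat_lit 2638632000], [], [nat_lit 26944841586, nat_lit 27454182783, nat_lit 28219352450, nat_lit 28793414796, nat_lit 27277683798, nat_lit 27695723685, nat_lit 28388645858, nat_lit 28826594356], nat_lit 0, nat_lit 0, nat_lit 0, nat_lit 0, nat_lit 0, nat_lit 0, [], [nat_lit 20, nat_lit 40, nat_lit 40, nat_lit 80, nat_lit 16, nat_lit 249, nat_lit 40, nat_lit 8]⟩, ⟨p111_k24, nat_lit 0, nat_lit 0, nat_lit 736, nat_lit 0, nat_lit 1126501, [nat_lit 590688000, nat_lit 1003968000, nat_lit 1495872000], [], [nat_lit 4480670337, nat_lit 4499318256, nat_lit 4647296701, nat_lit 4689270818, nat_lit 3934713462, nat_lit 3940717035, nat_lit 4053941335, nat_lit 4074884458], nat_lit 1271250, nat_lit 1271250, nat_lit 1271250, nat_lit 1271250, nat_lit 0, nat_lit 2203500, [nat_lit 1100000, nat_lit 1785000, nat_lit 1271250], [nat_lit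 21, nat_lit 40, nat_lit 40, nat_lit 80, nat_lit 14, nat_lit 373, nat_lit 150, nat_lit 9]⟩,
 ⟨nat_lit 2236, nat_lit 2739, ⟨.ofNat (nat_lit 785174), .ofNat (nat_lit 826517), .ofNat (nat_lit 796383), .ofNat (nat_lit 837726), .ofNat (nat_lit 779263), .ofNat (nat_lit 819174), .ofNat (nat_lit 790650), .ofNat (nat_lit 830561)⟩, ⟨.ofNat (nat_lit 188310), .ofNat (nat_lit 306433), .ofNat (nat_lit 200000), .ofNat (nat_lit 351268), .ofNat (nat_lit 192306), .ofNat (nat_lit 306337), .ofNat (nat_lit 200000), .ofNat (nat_lit 351886)⟩⟩, [⟨nat_lit 13, nat_lit 47, nat_lit 74, nat_lit 100, nat_lit 340799500⟩, ⟨nat_lit 10, nat_lit 83, nat_lit 64, nat_lit 100, nat_lit 20528894⟩]⟩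
noncomputable def p111_l124 : Lf2 := ⟨nat_lit 0, nat_lit 20, [nat_lit 5, nat_lit 5, nat_lit 5, nat_lit 20], false, nat_lit 80, nat_lit 160, nat_lit 0, nat_lit 336, ⟨nat_lit 97, nat_lit 903, nat_lit 0, nat_lit 8, nat_lit 308, nat_lit 903, nat_lit 105, nat_lit 0, nat_lit 0, nat_lit 0, nat_lit 0, nat_lit 0, nat_lit 39036044, nat_lit 23660343, nat_lit 4303613, nat_lit 4543353, true, true⟩,
 nat_lit 0, nat_lit 0, nat_lit 1328, nat_lit 0, nat_lit 2712, nat_lit 773, nat_lit 75, nat_lit 0, nat_lit 0, nat_lit 77, nat_lit 0, nat_lit 0, nat_lit 0, nat_lit 0, nat_lit 0, nat_lit 302550, nat_lit 0, nat_lit 0, [(nat_lit 28, [(nat_lit 0, nat_lit 391), (nat_lit 1, nat_lit 512)])],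
 ⟨p111_k19, nat_lit 0, nat_lit 0, nat_lit 120, nat_lit 0, nat_lit 0, [nat_lit 753762801, nat_lit 908339201, nat_lit 1309718800], [], [nat_lit 26008575759, nat_lit 26518222919, nat_lit 27372986948, nat_lit 27944817586, nat_lit 26487021761, nat_lit 26936351185, nat_lit 27672244085, nat_lit 28151476273], nat_lit 0, nat_lit 0, nat_lit 0, nat_lit 0, nat_lit 0, nat_lit 0, [], [nat_lit 20, nat_lit 40, nat_lit 40, nat_lit 80, nat_lit 16, nat_lit 249, nat_lit 40, nat_lit 8]⟩, ⟨p111_k18, nat_lit 0, nat_lit 0, nat_lit 866, nat_lit 0, nat_lit 1394959, [nat_lit 454736000, nat_lit 772896000, nat_lit 1151584000], [], [nat_lit 3632979466, nat_lit 3649771084, nat_lit 3703660348, nat_lit 3716523443, nat_lit 3151120392, nat_lit 3149542406, nat_lit 3182827277, nat_lit 3210078093], nat_lit 1271250, nat_lit 1271250, nat_lit 1271250, nat_lit 1271250, nat_lit 0, nat_lit 2373000, [nat_lit 1100000, nat_lit 1785000, nat_lit 1271250], [nat_lit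 21, nat_lit 40, nat_lit 40, nat_lit 80, nat_lit 14, nat_lit 401, nat_lit 175, nat_lit 10]⟩,
 ⟨nat_lit 1581, nat_lit 2237, ⟨.ofNat (nat_lit 739368), .ofNat (nat_lit 784980), .ofNat (nat_lit 762142), .ofNat (nat_lit 807755), .ofNat (nat_lit 733851), .ofNat (nat_lit 777560), .ofNat (nat_lit 757166), .ofNat (nat_lit 800875)⟩, ⟨.ofNat (nat_lit 192306), .ofNat (nat_lit 306337), .ofNat (nat_lit 200000), .ofNat (nat_lit 351886), .ofNat (nat_lit 196201), .ofNat (nat_lit 305473), .ofNat (nat_lit 200000), .ofNat (nat_lit 352103)⟩⟩, [⟨nat_lit 13, nat_lit 41, nat_lit 78, nat_lit 100, nat_lit 340414142⟩, ⟨nat_lit 22, nat_lit 80, nat_lit 100, nat_lit 100, nat_lit 13614269⟩]⟩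
noncomputable def p111_l125 : Lf2 := ⟨nat_lit 0, nat_lit 20, [nat_lit 5, nat_lit 5, nat_lit 5, nat_lit 20], true, nat_lit 80, nat_lit 160, nat_lit 0, nat_lit 336, ⟨nat_lit 0, nat_lit 1000, nat_lit 0, nat_lit 8, nat_lit 301, nat_lit 1000, nat_lit 105, nat_lit 0, nat_lit 0, nat_lit 0, nat_lit 0, nat_lit 0, nat_lit 39685606, nat_lit 22965706, nat_lit 4348688, nat_lit 4524047, true, true⟩,
 nat_lit 0, nat_lit 0, nat_lit 0, nat_lit 0, nat_lit 2658, nat_lit 0, nat_lit 39, nat_lit 0, nat_lit 0, nat_lit 0, nat_lit 0, nat_lit 0, nat_lit 0, nat_lit 0, nat_lit 0, nat_lit 250000, nat_lit 0, nat_lit 0, [(nat_lit 28, [(nat_lit 0, nat_lit 1000)])],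
 ⟨p111_k28, nat_lit 0, nat_lit 0, nat_lit 106, nat_lit 0, nat_lit 0, [nat_lit 781600001, nat_lit 1046000001, nat_lit 1376400000], [], [nat_lit 26419639767, nat_lit 26932775239, nat_lit 27078141052, nat_lit 27668392072, nat_lit 26963011405, nat_lit 27432582799, nat_lit 27567792314, nat_lit 28022990070], nat_lit 0, nat_lit 0, nat_lit 0, nat_lit 0, nat_lit 0, nat_lit 0, [], [nat_lit 35, nat_lit 40, nat_lit 40, nat_lit 80, nat_lit 22, nat_lit 249, nat_lit 40, nat_lit 9]⟩, C1.Rw.none,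
 ⟨nat_lit 0, nat_lit 1582, ⟨.ofNat (nat_lit 733849), .ofNat (nat_lit 755702), .ofNat (nat_lit 757165), .ofNat (nat_lit 779018), .ofNat (nat_lit 724997), .ofNat (nat_lit 744996), .ofNat (nat_lit 749998), .ofNat (nat_lit 769997)⟩, ⟨.ofNat (nat_lit 196201), .ofNat (nat_lit 305469), .ofNat (nat_lit 200000), .ofNat (nat_lit 352101), .ofNat (nat_lit 199999), .ofNat (nat_lit 299995), .ofNat (nat_lit 200000), .ofNat (nat_lit 349997)⟩⟩, [⟨nat_lit 13, nat_lit 34, nat_lit 81, nat_lit 100, nat_lit 623579632⟩]⟩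
noncomputable def b_V_900_600_20_12 : St := ⟨true, nat_lit 0, nat_lit 1, nat_lit 1, nat_lit 120, nat_lit 360, nat_lit 400, nat_lit 240, nat_lit 280, nat_lit 240, nat_lit 376, nat_lit 80, nat_lit 120, nat_lit 80, nat_lit 160, nat_lit 0, nat_lit 364, nat_lit 40, nat_lit 80, nat_lit 0, nat_lit 0, nat_lit 0, nat_lit 0⟩
theorem d_V_900_600_20_12 (h : EB TB.env) : Dead b_V_900_600_20_12 := chkB_sound0 h (T :=
(.spl (nat_lit 2) (nat_lit 320)
(.spl (nat_lit 2) (nat_lit 280)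
(.leaf p111_l110)
(.spl (nat_lit 0) (nat_lit 380)
(.spl (nat_lit 1) (nat_lit 260)
(.leaf p111_l111)
(.trX (nat_lit 19) (nat_lit 100) (nat_lit 69) (nat_lit 96) (nat_lit 352) (.spl (nat_lit 0) (nat_lit 370)
(.leaf p111_l112)
(.leaf p111_l113))))
(.spl (nat_lit 0) (nat_lit 390)
(.leaf p111_l114)
(.leaf p111_l115))))
(.trX (nat_lit 22) (nat_lit 82) (nat_lit 76) (nat_lit 100) (nat_lit 336) (.spl (nat_lit 1) (nat_lit 260)
(.trX (nat_lit 13) (nat_lit 63) (nat_lit 61) (nat_lit 100) (nat_lit 364) (.spl (nat_lit 0) (nat_lit 380)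
(.spl (nat_lit 0) (nat_lit 370)
(.leaf p111_l116)
(.trX (nat_lit 13) (nat_lit 55) (nat_lit 68) (nat_lit 100) (nat_lit 352) (.leaf p111_l117)))
(.trX (nat_lit 13) (nat_lit 46) (nat_lit 76) (nat_lit 100) (nat_lit 340) (.leaf p111_l118))))
(.spl (nat_lit 0) (nat_lit 380)
(.spl (nat_lit 1) (nat_lit 270)
(.trX (nat_lit 13) (nat_lit 64) (nat_lit 58) (nat_lit 100) (nat_lit 372) (.spl (nat_lit 0) (nat_lit 370)
(.leaf p111_l119)
(.trX (nat_lit 13) (nat_lit 56) (nat_lit 65) (nat_lit 100) (nat_lit 360) (.leaf p111_l120))))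
(.spl (nat_lit 0) (nat_lit 370)
(.leaf p111_l121)
(.trX (nat_lit 13) (nat_lit 57) (nat_lit 62) (nat_lit 100) (nat_lit 368) (.spl (nat_lit 2) (nat_lit 340)
(.leaf p111_l122)
(.trX (nat_lit 22) (nat_lit 73) (nat_lit 85) (nat_lit 100) (nat_lit 312) (.leaf p111_l123))))))
(.trX (nat_lit 13) (nat_lit 48) (nat_lit 71) (nat_lit 100) (nat_lit 352) (.spl (nat_lit 0) (nat_lit 390)
(.leaf p111_l124)
(.trX (nat_lit 13) (nat_lit 34) (nat_lit 81) (nat_lit 100) (nat_lit 336) (.leaf p111_l125))))))))) (by decide +kernel)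
noncomputable def p111_l126 : Lf2 := ⟨nat_lit 0, nat_lit 20, [nat_lit 5, nat_lit 5, nat_lit 5, nat_lit 20], true, nat_lit 160, nat_lit 248, nat_lit 0, nat_lit 364, ⟨nat_lit 0, nat_lit 1000, nat_lit 0, nat_lit 6, nat_lit 262, nat_lit 1000, nat_lit 157, nat_lit 0, nat_lit 0, nat_lit 0, nat_lit 0, nat_lit 0, nat_lit 40371639, nat_lit 18451917, nat_lit 8176444, nat_lit 4923113, true, false⟩,
 nat_lit 0, nat_lit 0, nat_lit 0, nat_lit 4068, nat_lit 3002, nat_lit 0, nat_lit 0, nat_lit 0, nat_lit 0, nat_lit 0, nat_lit 0, nat_lit 0, nat_lit 0, nat_lit 0, nat_lit 0, nat_lit 250000, nat_lit 0, nat_lit 0, [(nat_lit 25, [(nat_lit 0, nat_lit 1000)])],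
 ⟨p111_k16, nat_lit 0, nat_lit 0, nat_lit 50, nat_lit 0, nat_lit 0, [nat_lit 764000001, nat_lit 1368800000, nat_lit 2118000000], [], [nat_lit 22055965840, nat_lit 23322643844, nat_lit 23561704296, nat_lit 24751948928, nat_lit 24319976510, nat_lit 25431387203, nat_lit 25617134764, nat_lit 26736189217], nat_lit 0, nat_lit 0, nat_lit 0, nat_lit 0, nat_lit 0, nat_lit 0, [], [nat_lit 20, nat_lit 40, nat_lit 40, nat_lit 80, nat_lit 16, nat_lit 289, nat_lit 75, nat_lit 9]⟩, C1.Rw.none,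
 ⟨nat_lit 2236, nat_lit 3163, ⟨.ofNat (nat_lit 605240), .ofNat (nat_lit 666215), .ofNat (nat_lit 649422), .ofNat (nat_lit 710480), .ofNat (nat_lit 602541), .ofNat (nat_lit 659578), .ofNat (nat_lit 647962), .ofNat (nat_lit 705082)⟩, ⟨.ofNat (nat_lit 306116), .ofNat (nat_lit 440213), .ofNat (nat_lit 350426), .ofNat (nat_lit 484523), .ofNat (nat_lit 306337), .ofNat (nat_lit 431772), .ofNat (nat_lit 351886), .ofNat (nat_lit 477320)⟩⟩, [⟨nat_lit 16, nat_lit 62, nat_lit 100, nat_lit 94, nat_lit 208803963⟩]⟩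
noncomputable def p111_l127 : Lf2 := ⟨nat_lit 0, nat_lit 20, [nat_lit 5, nat_lit 5, nat_lit 5, nat_lit 20], true, nat_lit 160, nat_lit 208, nat_lit 0, nat_lit 364, ⟨nat_lit 0, nat_lit 1000, nat_lit 0, nat_lit 6, nat_lit 261, nat_lit 1000, nat_lit 144, nat_lit 0, nat_lit 0, nat_lit 0, nat_lit 0, nat_lit 0, nat_lit 41280681, nat_lit 18523948, nat_lit 7195371, nat_lit 4784569, true, false⟩,
 nat_lit 0, nat_lit 0, nat_lit 0, nat_lit 0, nat_lit 2753, nat_lit 0, nat_lit 0, nat_lit 0, nat_lit 0, nat_lit 0, nat_lit 0, nat_lit 0, nat_lit 0, nat_lit 0, nat_lit 0, nat_lit 250000, nat_lit 0, nat_lit 0, [(nat_lit 28, [(nat_lit 0, nat_lit 1000)])],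
 ⟨p111_k19, nat_lit 0, nat_lit 0, nat_lit 60, nat_lit 0, nat_lit 0, [nat_lit 781600001, nat_lit 1083600000, nat_lit 1719333334], [], [nat_lit 23217175526, nat_lit 24383448160, nat_lit 24566681246, nat_lit 25765979064, nat_lit 24314596243, nat_lit 25437278856, nat_lit 25569946840, nat_lit 26723054187], nat_lit 0, nat_lit 0, nat_lit 0, nat_lit 0, nat_lit 0, nat_lit 0, [], [nat_lit 20, nat_lit 40, nat_lit 40, nat_lit 80, nat_lit 16, nat_lit 272, nat_lit 60, nat_lit 8]⟩, C1.Rw.none,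
 ⟨nat_lit 0, nat_lit 2237, ⟨.ofNat (nat_lit 602531), .ofNat (nat_lit 659577), .ofNat (nat_lit 646249), .ofNat (nat_lit 705063), .ofNat (nat_lit 599967), .ofNat (nat_lit 649998), .ofNat (nat_lit 648136), .ofNat (nat_lit 699935)⟩, ⟨.ofNat (nat_lit 306334), .ofNat (nat_lit 374750), .ofNat (nat_lit 351885), .ofNat (nat_lit 420300), .ofNat (nat_lit 299996), .ofNat (nat_lit 359993), .ofNat (nat_lit 349998), .ofNat (nat_lit 409994)⟩⟩, [⟨nat_lit 16, nat_lit 44, nat_lit 100, nat_lit 92, nat_lit 298648023⟩]⟩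
noncomputable def p111_l128 : Lf2 := ⟨nat_lit 0, nat_lit 20, [nat_lit 5, nat_lit 5, nat_lit 5, nat_lit 20], false, nat_lit 160, nat_lit 248, nat_lit 4, nat_lit 364, ⟨nat_lit 96, nat_lit 904, nat_lit 0, nat_lit 7, nat_lit 287, nat_lit 904, nat_lit 158, nat_lit 0, nat_lit 0, nat_lit 0, nat_lit 0, nat_lit 0, nat_lit 38401623, nat_lit 20658848, nat_lit 7939529, nat_lit 5014306, true, true⟩,
 nat_lit 0, nat_lit 0, nat_lit 1631, nat_lit 0, nat_lit 3022, nat_lit 863, nat_lit 0, nat_lit 0, nat_lit 0, nat_lit 84, nat_lit 0, nat_lit 0, nat_lit 0, nat_lit 0, nat_lit 0, nat_lit 226000, nat_lit 0, nat_lit 0, [(nat_lit 25, [(nat_lit 0, nat_lit 904)])],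
 ⟨p111_k16, nat_lit 0, nat_lit 0, nat_lit 55, nat_lit 0, nat_lit 0, [nat_lit 780704001, nat_lit 1552467200, nat_lit 2514672000], [], [nat_lit 23738294456, nat_lit 24326378756, nat_lit 25432809424, nat_lit 25973211680, nat_lit 25793297596, nat_lit 26305884744, nat_lit 27263918328, nat_lit 27737099106], nat_lit 0, nat_lit 0, nat_lit 0, nat_lit 0, nat_lit 0, nat_lit 0, [], [nat_lit 20, nat_lit 40, nat_lit 40, nat_lit 80, nat_lit 16, nat_lit 289, nat_lit 75, nat_lit 9]⟩, ⟨p111_k17, nat_lit 0, nat_lit 0, nat_lit 830, nat_lit 0, nat_lit 1178283, [nat_lit 450048000, nat_lit 764928000, nat_lit 1349568000], [], [nat_lit 3702428626, nat_lit 3741262721, nat_lit 3775145150, nat_lit 3803675887, nat_lit 3237133060, nat_lit 3227175514, nat_lit 3252670529, nat_lit 3255203457], nat_lit 1271250, nat_lit 1271250, nat_lit 1271250, nat_lit 1271250, nat_lit 21650, nat_lit 2577650, [nat_lit 1100000, nat_lit 1785000, nat_lit 1271250], [nat_lit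 37, nat_lit 40, nat_lit 40, nat_lit 80, nat_lit 28, nat_lit 483, nat_lit 250, nat_lit 11]⟩,
 ⟨nat_lit 2738, nat_lit 3163, ⟨.ofNat (nat_lit 666215), .ofNat (nat_lit 727168), .ofNat (nat_lit 710514), .ofNat (nat_lit 771478), .ofNat (nat_lit 662956), .ofNat (nat_lit 722017), .ofNat (nat_lit 707780), .ofNat (nat_lit 766852)⟩, ⟨.ofNat (nat_lit 306116), .ofNat (nat_lit 440213), .ofNat (nat_lit 350426), .ofNat (nat_lit 484523), .ofNat (nat_lit 306433), .ofNat (nat_lit 436368), .ofNat (nat_lit 351268), .ofNat (nat_lit 481203)⟩⟩, [⟨nat_lit 16, nat_lit 62, nat_lit 100, nat_lit 94, nat_lit 223911228⟩, ⟨nat_lit 19, nat_lit 100, nat_lit 77, nat_lit 91, nat_lit 12246099⟩]⟩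
noncomputable def p111_l129 : Lf2 := ⟨nat_lit 0, nat_lit 20, [nat_lit 5, nat_lit 5, nat_lit 5, nat_lit 20], false, nat_lit 160, nat_lit 232, nat_lit 4, nat_lit 364, ⟨nat_lit 66, nat_lit 934, nat_lit 0, nat_lit 7, nat_lit 285, nat_lit 934, nat_lit 152, nat_lit 0, nat_lit 0, nat_lit 0, nat_lit 0, nat_lit 0, nat_lit 38798393, nat_lit 20621866, nat_lit 7579741, nat_lit 4961596, true, true⟩,
 nat_lit 0, nat_lit 0, nat_lit 1122, nat_lit 0, nat_lit 2948, nat_lit 593, nat_lit 0, nat_lit 0, nat_lit 0, nat_lit 57, nat_lit 0, nat_lit 0, nat_lit 0, nat_lit 0, nat_lit 0, nat_lit 233500, nat_lit 0, nat_lit 0, [(nat_lit 25, [(nat_lit 0, nat_lit 934)])],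
 ⟨p111_k22, nat_lit 0, nat_lit 0, nat_lit 59, nat_lit 0, nat_lit 0, [nat_lit 775484000, nat_lit 1495071200, nat_lit 2390712000], [], [nat_lit 24288866704, nat_lit 24870649904, nat_lit 25923412520, nat_lit 26458327824, nat_lit 25846848115, nat_lit 26368262332, nat_lit 27309544298, nat_lit 27790512598], nat_lit 0, nat_lit 0, nat_lit 0, nat_lit 0, nat_lit 0, nat_lit 0, [], [nat_lit 20, nat_lit 40, nat_lit 40, nat_lit 80, nat_lit 16, nat_lit 272, nat_lit 60, nat_lit 8]⟩, ⟨p111_k17, nat_lit 0, nat_lit 0, nat_lit 941, nat_lit 0, nat_lit 1389506, [nat_lit 309408000, nat_lit 525888000, nat_lit 927828000], [], [nat_lit 2663712559, nat_lit 2672359550, nat_lit 2691716752, nat_lit 2695025295, nat_lit 2278959617, nat_lit 2261986225, nat_lit 2276941176, nat_lit 2256651330], nat_lit 1271250, nat_lit 1271250, nat_lit 1271250, nat_lit 1271250, nat_lit 21650, nat_lit 2577650, [nat_lit 1100000, nat_lit 1785000, nat_lit 1271250], [nat_lit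 37, nat_lit 40, nat_lit 40, nat_lit 80, nat_lit 28, nat_lit 483, nat_lit 250, nat_lit 11]⟩,
 ⟨nat_lit 2236, nat_lit 2739, ⟨.ofNat (nat_lit 662956), .ofNat (nat_lit 722017), .ofNat (nat_lit 707780), .ofNat (nat_lit 766852), .ofNat (nat_lit 659578), .ofNat (nat_lit 716594), .ofNat (nat_lit 705116), .ofNat (nat_lit 762142)⟩, ⟨.ofNat (nat_lit 306433), .ofNat (nat_lit 412743), .ofNat (nat_lit 351268), .ofNat (nat_lit 457578), .ofNat (nat_lit 306337), .ofNat (nat_lit 408965), .ofNat (nat_lit 351886), .ofNat (nat_lit 454514)⟩⟩, [⟨nat_lit 16, nat_lit 53, nat_lit 100, nat_lit 93, nat_lit 246480214⟩, ⟨nat_lit 19, nat_lit 100, nat_lit 77, nat_lit 91, nat_lit 7541351⟩]⟩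
noncomputable def p111_l130 : Lf2 := ⟨nat_lit 0, nat_lit 20, [nat_lit 5, nat_lit 5, nat_lit 5, nat_lit 20], true, nat_lit 160, nat_lit 208, nat_lit 4, nat_lit 364, ⟨nat_lit 0, nat_lit 1000, nat_lit 0, nat_lit 7, nat_lit 283, nat_lit 1000, nat_lit 145, nat_lit 0, nat_lit 0, nat_lit 0, nat_lit 0, nat_lit 0, nat_lit 39312225, nat_lit 20615548, nat_lit 7072227, nat_lit 4886330, true, true⟩,
 nat_lit 0, nat_lit 0, nat_lit 0, nat_lit 0, nat_lit 3252, nat_lit 0, nat_lit 0, nat_lit 0, nat_lit 0, nat_lit 0, nat_lit 0, nat_lit 0, nat_lit 0, nat_lit 0, nat_lit 0, nat_lit 250000, nat_lit 0, nat_lit 0, [(nat_lit 28, [(nat_lit 0, nat_lit 1000)])],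
 ⟨p111_k29, nat_lit 0, nat_lit 0, nat_lit 73, nat_lit 0, nat_lit 0, [nat_lit 781600001, nat_lit 1560400000, nat_lit 1560400000], [], [nat_lit 25261167720, nat_lit 25838476604, nat_lit 26817456232, nat_lit 27361799588, nat_lit 26198293508, nat_lit 26735258821, nat_lit 27643476780, nat_lit 28210837156], nat_lit 0, nat_lit 0, nat_lit 0, nat_lit 0, nat_lit 0, nat_lit 0, [], [nat_lit 55, nat_lit 40, nat_lit 40, nat_lit 80, nat_lit 3, nat_lit 272, nat_lit 60, nat_lit 8]⟩, C1.Rw.none,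
 ⟨nat_lit 1581, nat_lit 2237, ⟨.ofNat (nat_lit 659578), .ofNat (nat_lit 716594), .ofNat (nat_lit 705117), .ofNat (nat_lit 762142), .ofNat (nat_lit 655900), .ofNat (nat_lit 710536), .ofNat (nat_lit 702521), .ofNat (nat_lit 757166)⟩, ⟨.ofNat (nat_lit 306337), .ofNat (nat_lit 374756), .ofNat (nat_lit 351886), .ofNat (nat_lit 420305), .ofNat (nat_lit 305473), .ofNat (nat_lit 371036), .ofNat (nat_lit 352103), .ofNat (nat_lit 417666)⟩⟩, [⟨nat_lit 16, nat_lit 44, nat_lit 100, nat_lit 92, nat_lit 255685246⟩]⟩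
noncomputable def p111_l131 : Lf2 := ⟨nat_lit 0, nat_lit 20, [nat_lit 5, nat_lit 5, nat_lit 5, nat_lit 20], true, nat_lit 160, nat_lit 184, nat_lit 4, nat_lit 364, ⟨nat_lit 0, nat_lit 1000, nat_lit 0, nat_lit 7, nat_lit 281, nat_lit 1000, nat_lit 137, nat_lit 0, nat_lit 0, nat_lit 0, nat_lit 0, nat_lit 0, nat_lit 39890338, nat_lit 20564120, nat_lit 6545542, nat_lit 4801687, true, true⟩,
 nat_lit 0, nat_lit 0, nat_lit 0, nat_lit 0, nat_lit 2698, nat_lit 0, nat_lit 49, nat_lit 0, nat_lit 0, nat_lit 0, nat_lit 0, nat_lit 0, nat_lit 0, nat_lit 0, nat_lit 0, nat_lit 250000, nat_lit 0, nat_lit 0, [(nat_lit 28, [(nat_lit 0, nat_lit 1000)])],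
 ⟨p111_k28, nat_lit 0, nat_lit 0, nat_lit 75, nat_lit 0, nat_lit 0, [nat_lit 781600001, nat_lit 1046000001, nat_lit 1376400000], [], [nat_lit 25321794978, nat_lit 25844441988, nat_lit 26739957673, nat_lit 27274679312, nat_lit 25786321571, nat_lit 26291701023, nat_lit 27156906064, nat_lit 27702408997], nat_lit 0, nat_lit 0, nat_lit 0, nat_lit 0, nat_lit 0, nat_lit 0, [], [nat_lit 35, nat_lit 40, nat_lit 40, nat_lit 80, nat_lit 22, nat_lit 203, nat_lit 0, nat_lit 6]⟩, C1.Rw.none,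
 ⟨nat_lit 0, nat_lit 1582, ⟨.ofNat (nat_lit 655899), .ofNat (nat_lit 710533), .ofNat (nat_lit 702515), .ofNat (nat_lit 757165), .ofNat (nat_lit 649998), .ofNat (nat_lit 699996), .ofNat (nat_lit 699984), .ofNat (nat_lit 749998)⟩, ⟨.ofNat (nat_lit 305469), .ofNat (nat_lit 338250), .ofNat (nat_lit 352101), .ofNat (nat_lit 384882), .ofNat (nat_lit 299995), .ofNat (nat_lit 329995), .ofNat (nat_lit 349997), .ofNat (nat_lit 379997)⟩⟩, [⟨nat_lit 16, nat_lit 31, nat_lit 100, nat_lit 92, nat_lit 387492197⟩]⟩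
noncomputable def b_V_900_600_20_13 : St := ⟨true, nat_lit 0, nat_lit 1, nat_lit 1, nat_lit 120, nat_lit 360, nat_lit 400, nat_lit 240, nat_lit 280, nat_lit 240, nat_lit 320, nat_lit 80, nat_lit 120, nat_lit 160, nat_lit 248, nat_lit 0, nat_lit 364, nat_lit 40, nat_lit 80, nat_lit 0, nat_lit 0, nat_lit 0, nat_lit 0⟩
theorem d_V_900_600_20_13 (h : EB TB.env) : Dead b_V_900_600_20_13 := chkB_sound0 h (T :=
(.spl (nat_lit 2) (nat_lit 280)
(.spl (nat_lit 0) (nat_lit 380)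
(.leaf p111_l126)
(.trX (nat_lit 16) (nat_lit 44) (nat_lit 100) (nat_lit 92) (nat_lit 208) (.leaf p111_l127)))
(.trZ (nat_lit 9) (nat_lit 100) (nat_lit 94) (nat_lit 21) (nat_lit 4) (.spl (nat_lit 0) (nat_lit 380)
(.spl (nat_lit 0) (nat_lit 370)
(.leaf p111_l128)
(.trX (nat_lit 16) (nat_lit 53) (nat_lit 100) (nat_lit 93) (nat_lit 232) (.leaf p111_l129)))
(.trX (nat_lit 16) (nat_lit 44) (nat_lit 100) (nat_lit 92) (nat_lit 208) (.spl (nat_lit 0) (nat_lit 390)
(.leaf p111_l130)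
(.trX (nat_lit 16) (nat_lit 31) (nat_lit 100) (nat_lit 92) (nat_lit 184) (.leaf p111_l131)))))))) (by decide +kernel)

end B2
end Pool.Agent.Lib.MP_6947cd_al
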