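import Pool.Agent.Lib.MP_6947cd_al.ZB.Pre

/-!
Problem MP_6947cd_al (Chollet).  Case B, second entry in [2/5, 17/20]: certificates of the tree, part P112 (generated).
-/

set_option autoImplicit false
set_option linter.all false

namespace Pool.Agent.Lib.MP_6947cd_al
namespace B2

open Ent Fr B1 PkA

noncomputable def p112_k0 : C1.Kn := ⟨[nat_lit 20, nat_lit 60, nat_lit 100], [nat_lit 0, nat_lit 0, nat_lit 2559], [(nat_lit 0, nat_lit 0, nat_lit 0), (nat_lit 0, nat_lit 0, nat_lit 0), (nat_lit 1000, nat_lit 600, nat_lit 787)], (nat_lit 60, nat_lit 100, nat_lit 80)⟩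
noncomputable def p112_k1 : C1.Kn := ⟨[nat_lit 80, nat_lit 120, nat_lit 180], [nat_lit 0, nat_lit 0, nat_lit 3196], [(nat_lit 0, nat_lit 0, nat_lit 0), (nat_lit 0, nat_lit 0, nat_lit 0), (nat_lit 858, nat_lit 1000, nat_lit 713)], (nat_lit 100, nat_lit 76, nat_lit 82)⟩
noncomputable def p112_k2 : C1.Kn := ⟨[nat_lit 80, nat_lit 120, nat_lit 180], [nat_lit 0, nat_lit 264, nat_lit 3394], [(nat_lit 0, nat_lit 0, nat_lit 0), (nat_lit 1000, nat_lit 979, nat_lit 103), (nat_lit 893, nat_lit 1000, nat_lit 726)], (nat_lit 100, nat_lit 81, nat_lit 83)⟩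
noncomputable def p112_k3 : C1.Kn := ⟨[nat_lit 20, nat_lit 60, nat_lit 100], [nat_lit 0, nat_lit 698, nat_lit 3028], [(nat_lit 0, nat_lit 0, nat_lit 0), (nat_lit 1000, nat_lit 782, nat_lit 272), (nat_lit 1000, nat_lit 527, nat_lit 841)], (nat_lit 53, nat_lit 100, nat_lit 80)⟩
noncomputable def p112_k4 : C1.Kn := ⟨[nat_lit 20, nat_lit 60, nat_lit 100], [nat_lit 0, nat_lit 1056, nat_lit 3301], [(nat_lit 0, nat_lit 0, nat_lit 0), (nat_lit 1000, nat_lit 671, nat_lit 411), (nat_lit 1000, nat_lit 484, nat_lit 867)], (nat_lit 49, nat_lit 100, nat_lit 81)⟩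
noncomputable def p112_k5 : C1.Kn := ⟨[nat_lit 20, nat_lit 60, nat_lit 100], [nat_lit 0, nat_lit 339, nat_lit 2783], [(nat_lit 0, nat_lit 0, nat_lit 0), (nat_lit 1000, nat_lit 894, nat_lit 132), (nat_lit 1000, nat_lit 565, nat_lit 820)], (nat_lit 57, nat_lit 100, nat_lit 80)⟩
noncomputable def p112_k6 : C1.Kn := ⟨[nat_lit 80, nat_lit 120, nat_lit 180], [nat_lit 0, nat_lit 395, nat_lit 3498], [(nat_lit 0, nat_lit 0, nat_lit 0), (nat_lit 1000, nat_lit 969, nat_lit 154), (nat_lit 910, nat_lit 1000, nat_lit 734)], (nat_lit 100, nat_lit 83, nat_lit 83)⟩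
noncomputable def p112_k7 : C1.Kn := ⟨[nat_lit 20, nat_lit 60, nat_lit 100], [nat_lit 0, nat_lit 1273, nat_lit 3475], [(nat_lit 0, nat_lit 0, nat_lit 0), (nat_lit 1000, nat_lit 603, nat_lit 496), (nat_lit 1000, nat_lit 457, nat_lit 859)], (nat_lit 46, nat_lit 100, nat_lit 81)⟩
noncomputable def p112_k8 : C1.Kn := ⟨[nat_lit 20, nat_lit 80, nat_lit 100], [nat_lit 0, nat_lit 0, nat_lit 2559], [(nat_lit 0, nat_lit 0, nat_lit 0), (nat_lit 0, nat_lit 0, nat_lit 0), (nat_lit 1000, nat_lit 600, nat_lit 787)], (nat_lit 60, nat_lit 100, nat_lit 80)⟩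
noncomputable def p112_k9 : C1.Kn := ⟨[nat_lit 80, nat_lit 140, nat_lit 180], [nat_lit 0, nat_lit 0, nat_lit 3656], [(nat_lit 0, nat_lit 0, nat_lit 0), (nat_lit 0, nat_lit 0, nat_lit 0), (nat_lit 637, nat_lit 1000, nat_lit 908)], (nat_lit 100, nat_lit 76, nat_lit 82)⟩
noncomputable def p112_k10 : C1.Kn := ⟨[nat_lit 20, nat_lit 80, nat_lit 100], [nat_lit 0, nat_lit 0, nat_lit 2559], [(nat_lit 0, nat_lit 0, nat_lit 0), (nat_lit 0, nat_lit 0, nat_lit 0), (nat_lit 1000, nat_lit 600, nat_lit 787)], (nat_lit 61, nat_lit 100, nat_lit 72)⟩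
noncomputable def p112_k11 : C1.Kn := ⟨[nat_lit 80, nat_lit 140, nat_lit 160], [nat_lit 0, nat_lit 0, nat_lit 2151], [(nat_lit 0, nat_lit 0, nat_lit 0), (nat_lit 0, nat_lit 0, nat_lit 0), (nat_lit 823, nat_lit 1000, nat_lit 757)], (nat_lit 100, nat_lit 85, nat_lit 73)⟩
noncomputable def p112_k12 : C1.Kn := ⟨[nat_lit 80, nat_lit 140, nat_lit 160], [nat_lit 0, nat_lit 395, nat_lit 2402], [(nat_lit 0, nat_lit 0, nat_lit 0), (nat_lit 1000, nat_lit 979, nat_lit 103), (nat_lit 833, nat_lit 1000, nat_lit 799)], (nat_lit 100, nat_lit 88, nat_lit 74)⟩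
noncomputable def p112_k13 : C1.Kn := ⟨[nat_lit 80, nat_lit 140, nat_lit 160], [nat_lit 0, nat_lit 592, nat_lit 2533], [(nat_lit 0, nat_lit 0, nat_lit 0), (nat_lit 1000, nat_lit 969, nat_lit 154), (nat_lit 838, nat_lit 1000, nat_lit 823)], (nat_lit 100, nat_lit 90, nat_lit 74)⟩
noncomputable def p112_k14 : C1.Kn := ⟨[nat_lit 20, nat_lit 80], [nat_lit 0, nat_lit 1046], [(nat_lit 0, nat_lit 0, nat_lit 0), (nat_lit 1000, nat_lit 782, nat_lit 272)], (nat_lit 54, nat_lit 100, nat_lit 73)⟩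
noncomputable def p112_k15 : C1.Kn := ⟨[nat_lit 20, nat_lit 80, nat_lit 100], [nat_lit 0, nat_lit 1046, nat_lit 3028], [(nat_lit 0, nat_lit 0, nat_lit 0), (nat_lit 1000, nat_lit 782, nat_lit 272), (nat_lit 1000, nat_lit 527, nat_lit 841)], (nat_lit 53, nat_lit 100, nat_lit 80)⟩
noncomputable def p112_k16 : C1.Kn := ⟨[nat_lit 80, nat_lit 140, nat_lit 180], [nat_lit 0, nat_lit 395, nat_lit 3941], [(nat_lit 0, nat_lit 0, nat_lit 0), (nat_lit 1000, nat_lit 979, nat_lit 103), (nat_lit 672, nat_lit 1000, nat_lit 927)], (nat_lit 100, nat_lit 81, nat_lit 83)⟩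
noncomputable def p112_k17 : C1.Kn := ⟨[nat_lit 20, nat_lit 80, nat_lit 100], [nat_lit 0, nat_lit 508, nat_lit 2783], [(nat_lit 0, nat_lit 0, nat_lit 0), (nat_lit 1000, nat_lit 894, nat_lit 132), (nat_lit 1000, nat_lit 565, nat_lit 820)], (nat_lit 57, nat_lit 100, nat_lit 80)⟩
noncomputable def p112_k18 : C1.Kn := ⟨[nat_lit 80, nat_lit 120, nat_lit 160], [nat_lit 0, nat_lit 528, nat_lit 2577], [(nat_lit 0, nat_lit 0, nat_lit 0), (nat_lit 1000, nat_lit 959, nat_lit 206), (nat_lit 929, nat_lit 1000, nat_lit 742)], (nat_lit 100, nat_lit 85, nat_lit 84)⟩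
noncomputable def p112_k19 : C1.Kn := ⟨[nat_lit 80, nat_lit 120, nat_lit 160], [nat_lit 0, nat_lit 796, nat_lit 2802], [(nat_lit 0, nat_lit 0, nat_lit 0), (nat_lit 1000, nat_lit 938, nat_lit 310), (nat_lit 969, nat_lit 1000, nat_lit 759)], (nat_lit 100, nat_lit 90, nat_lit 85)⟩
noncomputable def p112_k20 : C1.Kn := ⟨[nat_lit 80, nat_lit 120, nat_lit 160], [nat_lit 0, nat_lit 664, nat_lit 2688], [(nat_lit 0, nat_lit 0, nat_lit 0), (nat_lit 1000, nat_lit 948, nat_lit 259), (nat_lit 949, nat_lit 1000, nat_lit 749)], (nat_lit 100, nat_lit 87, nat_lit 85)⟩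
noncomputable def p112_k21 : C1.Kn := ⟨[nat_lit 80, nat_lit 140, nat_lit 160], [nat_lit 0, nat_lit 792, nat_lit 2667], [(nat_lit 0, nat_lit 0, nat_lit 0), (nat_lit 1000, nat_lit 959, nat_lit 206), (nat_lit 846, nat_lit 1000, nat_lit 844)], (nat_lit 100, nat_lit 85, nat_lit 84)⟩
noncomputable def p112_k22 : C1.Kn := ⟨[nat_lit 80, nat_lit 140, nat_lit 160], [nat_lit 0, nat_lit 792, nat_lit 2667], [(nat_lit 0, nat_lit 0, nat_lit 0), (nat_lit 1000, nat_lit 959, nat_lit 206), (nat_lit 846, nat_lit 1000, nat_lit 844)], (nat_lit 100, nat_lit 92, nat_lit 75)⟩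
noncomputable def p112_k23 : C1.Kn := ⟨[nat_lit 20, nat_lit 60, nat_lit 100], [nat_lit 0, nat_lit 0, nat_lit 2559], [(nat_lit 0, nat_lit 0, nat_lit 0), (nat_lit 0, nat_lit 0, nat_lit 0), (nat_lit 1000, nat_lit 600, nat_lit 787)], (nat_lit 61, nat_lit 100, nat_lit 72)⟩
noncomputable def p112_k24 : C1.Kn := ⟨[nat_lit 80, nat_lit 120, nat_lit 160], [nat_lit 0, nat_lit 664, nat_lit 2688], [(nat_lit 0, nat_lit 0, nat_lit 0), (nat_lit 1000, nat_lit 948, nat_lit 259), (nat_lit 949, nat_lit 1000, nat_lit 749)], (nat_lit 100, nat_lit 95, nat_lit 76)⟩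
noncomputable def p112_k25 : C1.Kn := ⟨[nat_lit 20, nat_lit 60, nat_lit 100], [nat_lit 0, nat_lit 339, nat_lit 2783], [(nat_lit 0, nat_lit 0, nat_lit 0), (nat_lit 1000, nat_lit 894, nat_lit 132), (nat_lit 1000, nat_lit 565, nat_lit 820)], (nat_lit 57, nat_lit 100, nat_lit 73)⟩
noncomputable def p112_k26 : C1.Kn := ⟨[nat_lit 80, nat_lit 140, nat_lit 160], [nat_lit 0, nat_lit 995, nat_lit 2805], [(nat_lit 0, nat_lit 0, nat_lit 0), (nat_lit 1000, nat_lit 948, nat_lit 259), (nat_lit 854, nat_lit 1000, nat_lit 867)], (nat_lit 100, nat_lit 87, nat_lit 85)⟩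
noncomputable def p112_k27 : C1.Kn := ⟨[nat_lit 80, nat_lit 140, nat_lit 160], [nat_lit 0, nat_lit 1118, nat_lit 2890], [(nat_lit 0, nat_lit 0, nat_lit 0), (nat_lit 1000, nat_lit 942, nat_lit 291), (nat_lit 858, nat_lit 1000, nat_lit 883)], (nat_lit 100, nat_lit 89, nat_lit 85)⟩
noncomputable def p112_k28 : C1.Kn := ⟨[nat_lit 80, nat_lit 140, nat_lit 160], [nat_lit 0, nat_lit 1192, nat_lit 2947], [(nat_lit 0, nat_lit 0, nat_lit 0), (nat_lit 1000, nat_lit 938, nat_lit 310), (nat_lit 863, nat_lit 1000, nat_lit 890)], (nat_lit 100, nat_lit 90, nat_lit 85)⟩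
noncomputable def p112_k29 : C1.Kn := ⟨[nat_lit 20, nat_lit 80, nat_lit 100], [nat_lit 0, nat_lit 845, nat_lit 2927], [(nat_lit 0, nat_lit 0, nat_lit 0), (nat_lit 1000, nat_lit 824, nat_lit 220), (nat_lit 1000, nat_lit 543, nat_lit 833)], (nat_lit 54, nat_lit 100, nat_lit 80)⟩
noncomputable def p112_k30 : C1.Kn := ⟨[nat_lit 80, nat_lit 140, nat_lit 160], [nat_lit 0, nat_lit 1317, nat_lit 3034], [(nat_lit 0, nat_lit 0, nat_lit 0), (nat_lit 1000, nat_lit 931, nat_lit 343), (nat_lit 867, nat_lit 1000, nat_lit 907)], (nat_lit 100, nat_lit 91, nat_lit 86)⟩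
noncomputable def p112_k31 : C1.Kn := ⟨[nat_lit 80, nat_lit 140, nat_lit 160], [nat_lit 0, nat_lit 1393, nat_lit 3093], [(nat_lit 0, nat_lit 0, nat_lit 0), (nat_lit 1000, nat_lit 927, nat_lit 362), (nat_lit 870, nat_lit 1000, nat_lit 917)], (nat_lit 100, nat_lit 92, nat_lit 86)⟩
noncomputable def p112_k32 : C1.Kn := ⟨[nat_lit 80, nat_lit 120, nat_lit 160], [nat_lit 0, nat_lit 929, nat_lit 2912], [(nat_lit 0, nat_lit 0, nat_lit 0), (nat_lit 1000, nat_lit 927, nat_lit 362), (nat_lit 991, nat_lit 1000, nat_lit 767)], (nat_lit 100, nat_lit 92, nat_lit 86)⟩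
noncomputable def p112_k33 : C1.Kn := ⟨[nat_lit 20, nat_lit 60, nat_lit 80], [nat_lit 0, nat_lit 698, nat_lit 2008], [(nat_lit 0, nat_lit 0, nat_lit 0), (nat_lit 1000, nat_lit 782, nat_lit 272), (nat_lit 1000, nat_lit 540, nat_lit 733)], (nat_lit 54, nat_lit 100, nat_lit 73)⟩
noncomputable def p112_k34 : C1.Kn := ⟨[nat_lit 80, nat_lit 120, nat_lit 160], [nat_lit 0, nat_lit 796, nat_lit 2802], [(nat_lit 0, nat_lit 0, nat_lit 0), (nat_lit 1000, nat_lit 938, nat_lit 310), (nat_lit 969, nat_lit 1000, nat_lit 759)], (nat_lit 100, nat_lit 97, nat_lit 76)⟩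
noncomputable def p112_k35 : C1.Kn := ⟨[nat_lit 80, nat_lit 120, nat_lit 140], [nat_lit 0, nat_lit 929, nat_lit 1922], [(nat_lit 0, nat_lit 0, nat_lit 0), (nat_lit 1000, nat_lit 927, nat_lit 362), (nat_lit 993, nat_lit 1000, nat_lit 764)], (nat_lit 100, nat_lit 99, nat_lit 77)⟩
noncomputable def p112_k36 : C1.Kn := ⟨[nat_lit 20, nat_lit 80, nat_lit 100], [nat_lit 0, nat_lit 2121, nat_lit 3610], [(nat_lit 0, nat_lit 0, nat_lit 0), (nat_lit 1000, nat_lit 558, nat_lit 551), (nat_lit 1000, nat_lit 436, nat_lit 895)], (nat_lit 44, nat_lit 100, nat_lit 82)⟩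
noncomputable def p112_k37 : C1.Kn := ⟨[nat_lit 20, nat_lit 60, nat_lit 100], [nat_lit 0, nat_lit 1415, nat_lit 3591], [(nat_lit 0, nat_lit 0, nat_lit 0), (nat_lit 1000, nat_lit 558, nat_lit 551), (nat_lit 1000, nat_lit 439, nat_lit 849)], (nat_lit 44, nat_lit 100, nat_lit 82)⟩
noncomputable def p112_k38 : C1.Kn := ⟨[nat_lit 20, nat_lit 60, nat_lit 80], [nat_lit 0, nat_lit 1776, nat_lit 2828], [(nat_lit 0, nat_lit 0, nat_lit 0), (nat_lit 1000, nat_lit 445, nat_lit 693), (nat_lit 1000, nat_lit 394, nat_lit 822)], (nat_lit 39, nat_lit 100, nat_lit 83)⟩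
noncomputable def p112_k39 : C1.Kn := ⟨[nat_lit 20, nat_lit 60, nat_lit 80], [nat_lit 0, nat_lit 2136, nat_lit 3185], [(nat_lit 0, nat_lit 0, nat_lit 0), (nat_lit 1000, nat_lit 343, nat_lit 808), (nat_lit 1000, nat_lit 338, nat_lit 820)], (nat_lit 33, nat_lit 100, nat_lit 84)⟩
noncomputable def p112_k40 : C1.Kn := ⟨[nat_lit 80, nat_lit 120, nat_lit 160], [nat_lit 0, nat_lit 878, nat_lit 2865], [(nat_lit 0, nat_lit 0, nat_lit 0), (nat_lit 1000, nat_lit 931, nat_lit 343), (nat_lit 983, nat_lit 1000, nat_lit 762)], (nat_lit 100, nat_lit 91, nat_lit 86)⟩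
noncomputable def p112_k41 : C1.Kn := ⟨[nat_lit 80, nat_lit 120, nat_lit 160], [nat_lit 0, nat_lit 1008, nat_lit 2981], [(nat_lit 0, nat_lit 0, nat_lit 0), (nat_lit 1000, nat_lit 921, nat_lit 392), (nat_lit 1000, nat_lit 996, nat_lit 770)], (nat_lit 100, nat_lit 94, nat_lit 87)⟩
noncomputable def p112_k42 : C1.Kn := ⟨[nat_lit 20, nat_lit 100], [nat_lit 0, nat_lit 0], [(nat_lit 0, nat_lit 0, nat_lit 0), (nat_lit 0, nat_lit 0, nat_lit 0)], (nat_lit 60, nat_lit 100, nat_lit 80)⟩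
noncomputable def p112_l0 : Lf2 := ⟨nat_lit 0, nat_lit 20, [nat_lit 5, nat_lit 5, nat_lit 5, nat_lit 20], false, nat_lit 160, nat_lit 248, nat_lit 16, nat_lit 160, ⟨nat_lit 135, nat_lit 865, nat_lit 0, nat_lit 8, nat_lit 303, nat_lit 865, nat_lit 157, nat_lit 0, nat_lit 0, nat_lit 0, nat_lit 0, nat_lit 0, nat_lit 37168597, nat_lit 22101474, nat_lit 7729929, nat_lit 5050941, true, true⟩,
 nat_lit 0, nat_lit 0, nat_lit 2259, nat_lit 0, nat_lit 3809, nat_lit 1195, nat_lit 0, nat_lit 0, nat_lit 0, nat_lit 97, nat_lit 0, nat_lit 0, nat_lit 0, nat_lit 0, nat_lit 0, nat_lit 281800, nat_lit 0, nat_lit 0, [(nat_lit 25, [(nat_lit 0, nat_lit 428), (nat_lit 1, nat_lit 437)])],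
 ⟨p112_k0, nat_lit 0, nat_lit 0, nat_lit 85, nat_lit 0, nat_lit 0, [nat_lit 822799601, nat_lit 1466848667, nat_lit 2150196400], [], [nat_lit 26758310640, nat_lit 27830276156, nat_lit 28564476748, nat_lit 29539017332, nat_lit 28314501359, nat_lit 29247582187, nat_lit 29880013953, nat_lit 30821276376], nat_lit 0, nat_lit 0, nat_lit 0, nat_lit 0, nat_lit 0, nat_lit 0, [], [nat_lit 20, nat_lit 40, nat_lit 40, nat_lit 80, nat_lit 16, nat_lit 289, nat_lit 75, nat_lit 9]⟩, ⟨p112_k1, nat_lit 0, nat_lit 0, nat_lit 815, nat_lit 0, nat_lit 1179746, [nat_lit 632880000, nat_lit 1075680000, nat_lit 1897830000], [], [nat_lit 5372797277, nat_lit 5373751119, nat_lit 5457464941, nat_lit 5481215600, nat_lit 4641059640, nat_lit 4639135585, nat_lit 4736925120, nat_lit 4739701910], nat_lit 1271250, nat_lit 1271250, nat_lit 1271250, nat_lit 1271250, nat_lit 88400, nat_lit 1100001, [nat_lit 1100000, nat_lit 1785000, nat_lit 1271250], [nat_lit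 37, nat_lit 40, nat_lit 40, nat_lit 80, nat_lit 28, nat_lit 428, nat_lit 200, nat_lit 9]⟩,
 ⟨nat_lit 2236, nat_lit 3163, ⟨.ofNat (nat_lit 727168), .ofNat (nat_lit 788122), .ofNat (nat_lit 738246), .ofNat (nat_lit 799199), .ofNat (nat_lit 716594), .ofNat (nat_lit 773609), .ofNat (nat_lit 727981), .ofNat (nat_lit 784996)⟩, ⟨.ofNat (nat_lit 306116), .ofNat (nat_lit 440213), .ofNat (nat_lit 350426), .ofNat (nat_lit 484523), .ofNat (nat_lit 306337), .ofNat (nat_lit 431772), .ofNat (nat_lit 351886), .ofNat (nat_lit 477320)⟩⟩, [⟨nat_lit 13, nat_lit 54, nat_lit 73, nat_lit 100, nat_lit 248286913⟩, ⟨nat_lit 4, nat_lit 100, nat_lit 53, nat_lit 87, nat_lit 231636684⟩, ⟨nat_lit 21, nat_lit 73, nat_lit 100, nat_lit 85, nat_lit 7096376⟩]⟩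
noncomputable def p112_l1 : Lf2 := ⟨nat_lit 0, nat_lit 20, [nat_lit 5, nat_lit 5, nat_lit 5, nat_lit 20], false, nat_lit 160, nat_lit 248, nat_lit 16, nat_lit 160, ⟨nat_lit 180, nat_lit 820, nat_lit 0, nat_lit 8, nat_lit 308, nat_lit 820, nat_lit 157, nat_lit 0, nat_lit 0, nat_lit 0, nat_lit 0, nat_lit 0, nat_lit 36731669, nat_lit 22603556, nat_lit 7664775, nat_lit 5062039, true, true⟩,
 nat_lit 0, nat_lit 0, nat_lit 2876, nat_lit 0, nat_lit 2866, nat_lit 1597, nat_lit 198, nat_lit 0, nat_lit 0, nat_lit 225, nat_lit 0, nat_lit 0, nat_lit 0, nat_lit 0, nat_lit 0, nat_lit 268000, nat_lit 0, nat_lit 0, [(nat_lit 25, [(nat_lit 0, nat_lit 400), (nat_lit 1, nat_lit 420)])],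
 ⟨p112_k0, nat_lit 0, nat_lit 0, nat_lit 88, nat_lit 0, nat_lit 0, [nat_lit 829256001, nat_lit 1559176000, nat_lit 2356584000], [], [nat_lit 25757254495, nat_lit 26709510694, nat_lit 27567061546, nat_lit 28433777950, nat_lit 27409642508, nat_lit 28250080165, nat_lit 29066976106, nat_lit 29909851364], nat_lit 0, nat_lit 0, nat_lit 0, nat_lit 0, nat_lit 0, nat_lit 0, [], [nat_lit 20, nat_lit 40, nat_lit 40, nat_lit 80, nat_lit 16, nat_lit 289, nat_lit 75, nat_lit 9]⟩, ⟨p112_k2, nat_lit 0, nat_lit 0, nat_lit 803, nat_lit 0, nat_lit 1154919, [nat_lit 843840000, nat_lit 1434240000, nat_lit 2530440000], [], [nat_lit 6145252039, nat_lit 6158591773, nat_lit 6334675065, nat_lit 6342596607, nat_lit 5237136374, nat_lit 5245009868, nat_lit 5389504003, nat_lit 5392711008], nat_lit 1271250, nat_lit 1271250, nat_lit 1271250, nat_lit 1271250, nat_lit 88400, nat_lit 1100001, [nat_lit 1100000, nat_lit 1785000, nat_lit 1271250], [nat_lit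 37, nat_lit 40, nat_lit 40, nat_lit 80, nat_lit 28, nat_lit 428, nat_lit 200, nat_lit 9]⟩,
 ⟨nat_lit 2236, nat_lit 3163, ⟨.ofNat (nat_lit 738246), .ofNat (nat_lit 805295), .ofNat (nat_lit 749323), .ofNat (nat_lit 816372), .ofNat (nat_lit 727981), .ofNat (nat_lit 790698), .ofNat (nat_lit 739368), .ofNat (nat_lit 802085)⟩, ⟨.ofNat (nat_lit 306116), .ofNat (nat_lit 440213), .ofNat (nat_lit 350426), .ofNat (nat_lit 484523), .ofNat (nat_lit 306337), .ofNat (nat_lit 431772), .ofNat (nat_lit 351886), .ofNat (nat_lit 477320)⟩⟩, [⟨nat_lit 13, nat_lit 55, nat_lit 70, nat_lit 100, nat_lit 207147995⟩, ⟨nat_lit 4, nat_lit 100, nat_lit 53, nat_lit 87, nat_lit 276250351⟩, ⟨nat_lit 9, nat_lit 100, nat_lit 70, nat_lit 72, nat_lit 8594341⟩]⟩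
noncomputable def p112_l2 : Lf2 := ⟨nat_lit 0, nat_lit 20, [nat_lit 5, nat_lit 5, nat_lit 5, nat_lit 20], false, nat_lit 160, nat_lit 200, nat_lit 160, nat_lit 360, ⟨nat_lit 102, nat_lit 898, nat_lit 0, nat_lit 8, nat_lit 304, nat_lit 898, nat_lit 143, nat_lit 0, nat_lit 0, nat_lit 0, nat_lit 0, nat_lit 0, nat_lit 37719667, nat_lit 22518020, nat_lit 6762313, nat_lit 4926863, true, true⟩,
 nat_lit 0, nat_lit 0, nat_lit 1654, nat_lit 0, nat_lit 4170, nat_lit 875, nat_lit 0, nat_lit 0, nat_lit 0, nat_lit 89, nat_lit 0, nat_lit 0, nat_lit 0, nat_lit 0, nat_lit 0, nat_lit 224500, nat_lit 0, nat_lit 0, [(nat_lit 25, [(nat_lit 0, nat_lit 898)])],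
 ⟨p112_k0, nat_lit 0, nat_lit 0, nat_lit 76, nat_lit 0, nat_lit 0, [nat_lit 781748000, nat_lit 1563946400, nat_lit 2539464000], [], [nat_lit 27004391200, nat_lit 27562922740, nat_lit 28875397240, nat_lit 29381796200, nat_lit 27652251020, nat_lit 28177333915, nat_lit 29407722920, nat_lit 29884426350], nat_lit 0, nat_lit 0, nat_lit 0, nat_lit 0, nat_lit 0, nat_lit 0, [], [nat_lit 20, nat_lit 40, nat_lit 40, nat_lit 80, nat_lit 16, nat_lit 260, nat_lit 50, nat_lit 8]⟩, ⟨p112_k1, nat_lit 0, nat_lit 0, nat_lit 611, nat_lit 0, nat_lit 952314, [nat_lit 478176000, nat_lit 812736000, nat_lit 1433916000], [], [nat_lit 3221544672, nat_lit 3232528295, nat_lit 3343478936, nat_lit 3351211665, nat_lit 3465360270, nat_lit 3472486394, nat_lit 3566319084, nat_lit 3570576853], nat_lit 1271250, nat_lit 1271250, nat_lit 1271250, nat_lit 1271250, nat_lit 1100001, nat_lit 2812500, [nat_lit 1100000, nat_lit 1785000, nat_lit 1271250], [nat_lit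 37, nat_lit 40, nat_lit 40, nat_lit 80, nat_lit 28, nat_lit 483, nat_lit 250, nat_lit 10]⟩,
 ⟨nat_lit 2738, nat_lit 3163, ⟨.ofNat (nat_lit 727168), .ofNat (nat_lit 788122), .ofNat (nat_lit 738246), .ofNat (nat_lit 799199), .ofNat (nat_lit 722017), .ofNat (nat_lit 781079), .ofNat (nat_lit 733226), .ofNat (nat_lit 792287)⟩, ⟨.ofNat (nat_lit 306116), .ofNat (nat_lit 367069), .ofNat (nat_lit 350426), .ofNat (nat_lit 411379), .ofNat (nat_lit 306433), .ofNat (nat_lit 365494), .ofNat (nat_lit 351268), .ofNat (nat_lit 410329)⟩⟩, [⟨nat_lit 13, nat_lit 62, nat_lit 65, nat_lit 100, nat_lit 230884813⟩, ⟨nat_lit 22, nat_lit 72, nat_lit 77, nat_lit 100, nat_lit 40730604⟩]⟩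
noncomputable def p112_l3 : Lf2 := ⟨nat_lit 0, nat_lit 20, [nat_lit 5, nat_lit 5, nat_lit 5, nat_lit 20], false, nat_lit 160, nat_lit 200, nat_lit 160, nat_lit 360, ⟨nat_lit 79, nat_lit 921, nat_lit 0, nat_lit 8, nat_lit 298, nat_lit 921, nat_lit 143, nat_lit 0, nat_lit 0, nat_lit 0, nat_lit 0, nat_lit 0, nat_lit 38209384, nat_lit 21984176, nat_lit 6806440, nat_lit 4910988, true, true⟩,
 nat_lit 0, nat_lit 0, nat_lit 1331, nat_lit 0, nat_lit 4106, nat_lit 704, nat_lit 0, nat_lit 0, nat_lit 0, nat_lit 68, nat_lit 0, nat_lit 0, nat_lit 0, nat_lit 0, nat_lit 0, nat_lit 230250, nat_lit 0, nat_lit 0, [(nat_lit 25, [(nat_lit 0, nat_lit 921)])],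
 ⟨p112_k3, nat_lit 0, nat_lit 0, nat_lit 77, nat_lit 0, nat_lit 0, [nat_lit 777746001, nat_lit 1519942800, nat_lit 2444428000], [], [nat_lit 27489274132, nat_lit 28043808104, nat_lit 28754863372, nat_lit 29273328973, nat_lit 28107629147, nat_lit 28629090058, nat_lit 29295833286, nat_lit 29783821221], nat_lit 0, nat_lit 0, nat_lit 0, nat_lit 0, nat_lit 0, nat_lit 0, [], [nat_lit 20, nat_lit 40, nat_lit 40, nat_lit 80, nat_lit 16, nat_lit 260, nat_lit 50, nat_lit 8]⟩, ⟨p112_k1, nat_lit 0, nat_lit 0, nat_lit 733, nat_lit 0, nat_lit 1179746, [nat_lit 370352000, nat_lit 629472000, nat_lit 1110582000], [], [nat_lit 2538161296, nat_lit 2547174429, nat_lit 2603812770, nat_lit 2611087176, nat_lit 2653337390, nat_lit 2653876094, nat_lit 2721718008, nat_lit 2728517629], nat_lit 1271250, nat_lit 1271250, nat_lit 1271250, nat_lit 1271250, nat_lit 1100001, nat_lit 2812500, [nat_lit 1100000, nat_lit 1785000, nat_lit 1271250], [nat_lit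 37, nat_lit 40, nat_lit 40, nat_lit 80, nat_lit 28, nat_lit 483, nat_lit 250, nat_lit 10]⟩,
 ⟨nat_lit 2236, nat_lit 2739, ⟨.ofNat (nat_lit 722017), .ofNat (nat_lit 763360), .ofNat (nat_lit 733226), .ofNat (nat_lit 774569), .ofNat (nat_lit 716594), .ofNat (nat_lit 756505), .ofNat (nat_lit 727981), .ofNat (nat_lit 767892)⟩, ⟨.ofNat (nat_lit 306433), .ofNat (nat_lit 365494), .ofNat (nat_lit 351268), .ofNat (nat_lit 410329), .ofNat (nat_lit 306337), .ofNat (nat_lit 363353), .ofNat (nat_lit 351886), .ofNat (nat_lit 408901)⟩⟩, [⟨nat_lit 13, nat_lit 50, nat_lit 76, nat_lit 100, nat_lit 330347436⟩, ⟨nat_lit 22, nat_lit 75, nat_lit 74, nat_lit 100, nat_lit 28149781⟩]⟩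
noncomputable def p112_l4 : Lf2 := ⟨nat_lit 0, nat_lit 20, [nat_lit 5, nat_lit 5, nat_lit 5, nat_lit 20], false, nat_lit 160, nat_lit 200, nat_lit 160, nat_lit 344, ⟨nat_lit 117, nat_lit 883, nat_lit 0, nat_lit 8, nat_lit 310, nat_lit 883, nat_lit 139, nat_lit 0, nat_lit 0, nat_lit 0, nat_lit 0, nat_lit 0, nat_lit 37466664, nat_lit 23122590, nat_lit 6410746, nat_lit 4896133, true, true⟩,
 nat_lit 0, nat_lit 0, nat_lit 1706, nat_lit 0, nat_lit 4185, nat_lit 947, nat_lit 0, nat_lit 0, nat_lit 0, nat_lit 105, nat_lit 0, nat_lit 0, nat_lit 0, nat_lit 0, nat_lit 0, nat_lit 220750, nat_lit 0, nat_lit 0, [(nat_lit 25, [(nat_lit 0, nat_lit 883)])],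
 ⟨p112_k0, nat_lit 0, nat_lit 0, nat_lit 79, nat_lit 0, nat_lit 0, [nat_lit 784358001, nat_lit 1592644400, nat_lit 2601444000], [], [nat_lit 27060421600, nat_lit 27619890070, nat_lit 29136999332, nat_lit 29639007527, nat_lit 27707445110, nat_lit 28233376908, nat_lit 29656280407, nat_lit 30128878391], nat_lit 0, nat_lit 0, nat_lit 0, nat_lit 0, nat_lit 0, nat_lit 0, [], [nat_lit 20, nat_lit 40, nat_lit 40, nat_lit 80, nat_lit 16, nat_lit 260, nat_lit 50, nat_lit 8]⟩, ⟨p112_k2, nat_lit 0, nat_lit 0, nat_lit 599, nat_lit 0, nat_lit 924443, [nat_lit 548496000, nat_lit 932256000, nat_lit 1644786000], [], [nat_lit 3604277046, nat_lit 3617425046, nat_lit 3757521612, nat_lit 3776842054, nat_lit 3841933668, nat_lit 3852247849, nat_lit 3974299990, nat_lit 3981022697], nat_lit 1271250, nat_lit 1271250, nat_lit 1271250, nat_lit 1271250, nat_lit 1100001, nat_lit 2675500, [nat_lit 1100000, nat_lit 1785000, nat_lit 1271250], [nat_lit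 37, nat_lit 40, nat_lit 40, nat_lit 80, nat_lit 28, nat_lit 483, nat_lit 250, nat_lit 10]⟩,
 ⟨nat_lit 2738, nat_lit 3163, ⟨.ofNat (nat_lit 738246), .ofNat (nat_lit 805295), .ofNat (nat_lit 749323), .ofNat (nat_lit 816372), .ofNat (nat_lit 733226), .ofNat (nat_lit 798193), .ofNat (nat_lit 744435), .ofNat (nat_lit 809402)⟩, ⟨.ofNat (nat_lit 306116), .ofNat (nat_lit 367069), .ofNat (nat_lit 328271), .ofNat (nat_lit 389224), .ofNat (nat_lit 306433), .ofNat (nat_lit 365494), .ofNat (nat_lit 328850), .ofNat (nat_lit 387912)⟩⟩, [⟨nat_lit 13, nat_lit 59, nat_lit 66, nat_lit 100, nat_lit 189169335⟩, ⟨nat_lit 13, nat_lit 54, nat_lit 71, nat_lit 100, nat_lit 114318383⟩, ⟨nat_lit 16, nat_lit 57, nat_lit 100, nat_lit 84, nat_lit 55220220⟩, ⟨nat_lit 19, nat_lit 100, nat_lit 79, nat_lit 87, nat_lit 37253774⟩]⟩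
noncomputable def p112_l5 : Lf2 := ⟨nat_lit 0, nat_lit 20, [nat_lit 5, nat_lit 5, nat_lit 5, nat_lit 20], false, nat_lit 160, nat_lit 200, nat_lit 160, nat_lit 344, ⟨nat_lit 173, nat_lit 827, nat_lit 0, nat_lit 8, nat_lit 304, nat_lit 827, nat_lit 139, nat_lit 0, nat_lit 0, nat_lit 0, nat_lit 0, nat_lit 0, nat_lit 37904676, nat_lit 22645279, nat_lit 6450045, nat_lit 4883499, true, true⟩,
 nat_lit 0, nat_lit 0, nat_lit 2614, nat_lit 0, nat_lit 2863, nat_lit 1452, nat_lit 228, nat_lit 0, nat_lit 0, nat_lit 157, nat_lit 0, nat_lit 0, nat_lit 0, nat_lit 0, nat_lit 0, nat_lit 206750, nat_lit 0, nat_lit 0, [(nat_lit 25, [(nat_lit 0, nat_lit 827)])],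
 ⟨p112_k3, nat_lit 0, nat_lit 0, nat_lit 75, nat_lit 0, nat_lit 0, [nat_lit 794102001, nat_lit 1699783601, nat_lit 2832836000], [], [nat_lit 26135615386, nat_lit 26374062239, nat_lit 27412817862, nat_lit 27635364690, nat_lit 26830567169, nat_lit 27056124764, nat_lit 28038454326, nat_lit 28249242216], nat_lit 0, nat_lit 0, nat_lit 0, nat_lit 0, nat_lit 0, nat_lit 0, [], [nat_lit 20, nat_lit 40, nat_lit 40, nat_lit 80, nat_lit 16, nat_lit 260, nat_lit 50, nat_lit 8]⟩, ⟨p112_k2, nat_lit 0, nat_lit 0, nat_lit 635, nat_lit 0, nat_lit 1024126, [nat_lit 811024000, nat_lit 1378464000, nat_lit 2432034000], [], [nat_lit 5422462143, nat_lit 5442921614, nat_lit 5579650057, nat_lit 5595970334, nat_lit 5621167201, nat_lit 5625551737, nat_lit 5747694967, nat_lit 5765826655], nat_lit 1271250, nat_lit 1271250, nat_lit 1271250, nat_lit 1271250, nat_lit 1100001, nat_lit 2675500, [nat_lit 1100000, nat_lit 1785000, nat_lit 1271250], [nat_lit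 37, nat_lit 40, nat_lit 40, nat_lit 80, nat_lit 28, nat_lit 483, nat_lit 250, nat_lit 10]⟩,
 ⟨nat_lit 2500, nat_lit 2739, ⟨.ofNat (nat_lit 733226), .ofNat (nat_lit 780475), .ofNat (nat_lit 744435), .ofNat (nat_lit 791684), .ofNat (nat_lit 730644), .ofNat (nat_lit 777095), .ofNat (nat_lit 741934), .ofNat (nat_lit 788386)⟩, ⟨.ofNat (nat_lit 306433), .ofNat (nat_lit 365494), .ofNat (nat_lit 328850), .ofNat (nat_lit 387912), .ofNat (nat_lit 306450), .ofNat (nat_lit 364515), .ofNat (nat_lit 329031), .ofNat (nat_lit 387095)⟩⟩, [⟨nat_lit 13, nat_lit 53, nat_lit 72, nat_lit 100, nat_lit 254066247⟩, ⟨nat_lit 4, nat_lit 100, nat_lit 51, nat_lit 84, nat_lit 287285905⟩, ⟨nat_lit 7, nat_lit 79, nat_lit 100, nat_lit 87, nat_lit 51394746⟩]⟩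
noncomputable def p112_l6 : Lf2 := ⟨nat_lit 0, nat_lit 20, [nat_lit 5, nat_lit 5, nat_lit 5, nat_lit 20], false, nat_lit 160, nat_lit 200, nat_lit 160, nat_lit 344, ⟨nat_lit 154, nat_lit 846, nat_lit 0, nat_lit 8, nat_lit 302, nat_lit 846, nat_lit 139, nat_lit 0, nat_lit 0, nat_lit 0, nat_lit 0, nat_lit 0, nat_lit 38103540, nat_lit 22436568, nat_lit 6459892, nat_lit 4876426, true, true⟩,
 nat_lit 0, nat_lit 0, nat_lit 2357, nat_lit 0, nat_lit 2759, nat_lit 1309, nat_lit 215, nat_lit 0, nat_lit 0, nat_lit 141, nat_lit 0, nat_lit 0, nat_lit 0, nat_lit 0, nat_lit 0, nat_lit 211500, nat_lit 0, nat_lit 0, [(nat_lit 25, [(nat_lit 0, nat_lit 846)])],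
 ⟨p112_k4, nat_lit 0, nat_lit 0, nat_lit 77, nat_lit 0, nat_lit 0, [nat_lit 790796001, nat_lit 1663432800, nat_lit 2754328000], [], [nat_lit 26266651352, nat_lit 26501850181, nat_lit 27358249804, nat_lit 27579880965, nat_lit 26955562335, nat_lit 27178042512, nat_lit 27988738657, nat_lit 28203119643], nat_lit 0, nat_lit 0, nat_lit 0, nat_lit 0, nat_lit 0, nat_lit 0, [], [nat_lit 20, nat_lit 40, nat_lit 40, nat_lit 80, nat_lit 16, nat_lit 260, nat_lit 50, nat_lit 8]⟩, ⟨p112_k2, nat_lit 0, nat_lit 0, nat_lit 692, nat_lit 0, nat_lit 1125716, [nat_lit 721952000, nat_lit 1227072000, nat_lit 2164932000], [], [nat_lit 4756243404, nat_lit 4774323312, nat_lit 4879122037, nat_lit 4893943798, nat_lit 4929026492, nat_lit 4937277375, nat_lit 5074142768, nat_lit 5101474320], nat_lit 1271250, nat_lit 1271250, nat_lit 1271250, nat_lit 1271250, nat_lit 1100001, nat_lit 2675500, [nat_lit 1100000, nat_lit 1785000, nat_lit 1271250], [nat_lit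 37, nat_lit 40, nat_lit 40, nat_lit 80, nat_lit 28, nat_lit 483, nat_lit 250, nat_lit 10]⟩,
 ⟨nat_lit 2236, nat_lit 2500, ⟨.ofNat (nat_lit 730644), .ofNat (nat_lit 771289), .ofNat (nat_lit 741934), .ofNat (nat_lit 782579), .ofNat (nat_lit 727981), .ofNat (nat_lit 767892), .ofNat (nat_lit 739368), .ofNat (nat_lit 779279)⟩, ⟨.ofNat (nat_lit 306450), .ofNat (nat_lit 364515), .ofNat (nat_lit 329031), .ofNat (nat_lit 387095), .ofNat (nat_lit 306337), .ofNat (nat_lit 363353), .ofNat (nat_lit 329112), .ofNat (nat_lit 386127)⟩⟩, [⟨nat_lit 13, nat_lit 48, nat_lit 76, nat_lit 100, nat_lit 217786232⟩, ⟨nat_lit 16, nat_lit 48, nat_lit 100, nat_lit 87, nat_lit 362215263⟩, ⟨nat_lit 22, nat_lit 75, nat_lit 74, nat_lit 100, nat_lit 53180061⟩]⟩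
noncomputable def p112_l7 : Lf2 := ⟨nat_lit 0, nat_lit 20, [nat_lit 5, nat_lit 5, nat_lit 5, nat_lit 20], false, nat_lit 160, nat_lit 200, nat_lit 160, nat_lit 360, ⟨nat_lit 233, nat_lit 767, nat_lit 0, nat_lit 8, nat_lit 310, nat_lit 767, nat_lit 148, nat_lit 0, nat_lit 0, nat_lit 0, nat_lit 0, nat_lit 0, nat_lit 37019793, nat_lit 22981415, nat_lit 6998792, nat_lit 4980780, true, true⟩,
 nat_lit 0, nat_lit 0, nat_lit 3197, nat_lit 0, nat_lit 2922, nat_lit 1776, nat_lit 177, nat_lit 0, nat_lit 0, nat_lit 202, nat_lit 0, nat_lit 0, nat_lit 0, nat_lit 0, nat_lit 0, nat_lit 303800, nat_lit 0, nat_lit 0, [(nat_lit 25, [(nat_lit 0, nat_lit 20), (nat_lit 1, nat_lit 747)])],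
 ⟨p112_k0, nat_lit 0, nat_lit 0, nat_lit 75, nat_lit 0, nat_lit 0, [nat_lit 864899601, nat_lit 1540675600, nat_lit 2182264400], [], [nat_lit 25738665574, nat_lit 25974361077, nat_lit 27549709684, nat_lit 27767846101, nat_lit 26456716958, nat_lit 26679711245, nat_lit 28167201133, nat_lit 28375117928], nat_lit 0, nat_lit 0, nat_lit 0, nat_lit 0, nat_lit 0, nat_lit 0, [], [nat_lit 20, nat_lit 40, nat_lit 40, nat_lit 80, nat_lit 16, nat_lit 260, nat_lit 50, nat_lit 8]⟩, ⟨p112_k2, nat_lit 0, nat_lit 0, nat_lit 446, nat_lit 0, nat_lit 635019, [nat_lit 1092304000, nat_lit 1856544000, nat_lit 3275514000], [], [nat_lit 7170662491, nat_lit 7216314794, nat_lit 7585951394, nat_lit 7621550602, nat_lit 7822170642, nat_lit 7838003317, nat_lit 8150609516, nat_lit 8174594623], nat_lit 1271250, nat_lit 1271250, nat_lit 1271250, nat_lit 1271250, nat_lit 1100001, nat_lit 2812500, [nat_lit 1100000, nat_lit 1785000, nat_lit 1271250], [nat_lit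 37, nat_lit 40, nat_lit 40, nat_lit 80, nat_lit 28, nat_lit 483, nat_lit 250, nat_lit 10]⟩,
 ⟨nat_lit 2958, nat_lit 3163, ⟨.ofNat (nat_lit 738246), .ofNat (nat_lit 805295), .ofNat (nat_lit 749323), .ofNat (nat_lit 816372), .ofNat (nat_lit 735754), .ofNat (nat_lit 801777), .ofNat (nat_lit 746893), .ofNat (nat_lit 812916)⟩, ⟨.ofNat (nat_lit 328271), .ofNat (nat_lit 389224), .ofNat (nat_lit 350426), .ofNat (nat_lit 411379), .ofNat (nat_lit 328592), .ofNat (nat_lit 388613), .ofNat (nat_lit 350869), .ofNat (nat_lit 410890)⟩⟩, [⟨nat_lit 13, nat_lit 61, nat_lit 65, nat_lit 100, nat_lit 81201537⟩, ⟨nat_lit 22, nat_lit 71, nat_lit 78, nat_lit 100, nat_lit 96221010⟩]⟩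
noncomputable def p112_l8 : Lf2 := ⟨nat_lit 0, nat_lit 20, [nat_lit 5, nat_lit 5, nat_lit 5, nat_lit 20], false, nat_lit 160, nat_lit 200, nat_lit 160, nat_lit 360, ⟨nat_lit 188, nat_lit 812, nat_lit 0, nat_lit 8, nat_lit 308, nat_lit 812, nat_lit 148, nat_lit 0, nat_lit 0, nat_lit 0, nat_lit 0, nat_lit 0, nat_lit 37209761, nat_lit 22769409, nat_lit 7020830, nat_lit 4975899, true, true⟩,
 nat_lit 0, nat_lit 0, nat_lit 2706, nat_lit 0, nat_lit 2845, nat_lit 1503, nat_lit 256, nat_lit 0, nat_lit 0, nat_lit 165, nat_lit 0, nat_lit 0, nat_lit 0, nat_lit 0, nat_lit 0, nat_lit 203000, nat_lit 0, nat_lit 0, [(nat_lit 25, [(nat_lit 0, nat_lit 812)])],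
 ⟨p112_k5, nat_lit 0, nat_lit 0, nat_lit 76, nat_lit 0, nat_lit 0, [nat_lit 796712001, nat_lit 1728481600, nat_lit 2894816000], [], [nat_lit 25896775895, nat_lit 26134660590, nat_lit 27510006270, nat_lit 27728101200, nat_lit 26605673324, nat_lit 26830721578, nat_lit 28131199223, nat_lit 28337864225], nat_lit 0, nat_lit 0, nat_lit 0, nat_lit 0, nat_lit 0, nat_lit 0, [], [nat_lit 20, nat_lit 40, nat_lit 40, nat_lit 80, nat_lit 16, nat_lit 260, nat_lit 50, nat_lit 8]⟩, ⟨p112_k2, nat_lit 0, nat_lit 0, nat_lit 480, nat_lit 0, nat_lit 730931, [nat_lit 881344000, nat_lit 1497984000, nat_lit 2642904000], [], [nat_lit 5890988479, nat_lit 5912296124, nat_lit 6105569223, nat_lit 6121224356, nat_lit 6330117951, nat_lit 6344698211, nat_lit 6508854300, nat_lit 6518445307], nat_lit 1271250, nat_lit 1271250, nat_lit 1271250, nat_lit 1271250, nat_lit 1100001, nat_lit 2812500, [nat_lit 1100000, nat_lit 1785000, nat_lit 1271250], [nat_lit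 37, nat_lit 40, nat_lit 40, nat_lit 80, nat_lit 28, nat_lit 483, nat_lit 250, nat_lit 10]⟩,
 ⟨nat_lit 2738, nat_lit 2959, ⟨.ofNat (nat_lit 735754), .ofNat (nat_lit 795775), .ofNat (nat_lit 746893), .ofNat (nat_lit 806914), .ofNat (nat_lit 733226), .ofNat (nat_lit 792287), .ofNat (nat_lit 744435), .ofNat (nat_lit 803496)⟩, ⟨.ofNat (nat_lit 328592), .ofNat (nat_lit 388613), .ofNat (nat_lit 350869), .ofNat (nat_lit 410890), .ofNat (nat_lit 328850), .ofNat (nat_lit 387912), .ofNat (nat_lit 351268), .ofNat (nat_lit 410329)⟩⟩, [⟨nat_lit 13, nat_lit 57, nat_lit 68, nat_lit 100, nat_lit 119061286⟩, ⟨nat_lit 22, nat_lit 72, nat_lit 77, nat_lit 100, nat_lit 75042781⟩]⟩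
noncomputable def p112_l9 : Lf2 := ⟨nat_lit 0, nat_lit 20, [nat_lit 5, nat_lit 5, nat_lit 5, nat_lit 20], false, nat_lit 160, nat_lit 200, nat_lit 160, nat_lit 360, ⟨nat_lit 110, nat_lit 890, nat_lit 0, nat_lit 8, nat_lit 303, nat_lit 890, nat_lit 148, nat_lit 0, nat_lit 0, nat_lit 0, nat_lit 0, nat_lit 0, nat_lit 37633969, nat_lit 22299779, nat_lit 7066252, nat_lit 4963709, true, true⟩,
 nat_lit 0, nat_lit 0, nat_lit 1624, nat_lit 0, nat_lit 4172, nat_lit 902, nat_lit 0, nat_lit 0, nat_lit 0, nat_lit 98, nat_lit 0, nat_lit 0, nat_lit 0, nat_lit 0, nat_lit 0, nat_lit 222500, nat_lit 0, nat_lit 0, [(nat_lit 25, [(nat_lit 0, nat_lit 890)])],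
 ⟨p112_k3, nat_lit 0, nat_lit 0, nat_lit 79, nat_lit 0, nat_lit 0, [nat_lit 783140001, nat_lit 1579252001, nat_lit 2572520000], [], [nat_lit 27595310384, nat_lit 28153966848, nat_lit 29050681373, nat_lit 29567616615, nat_lit 28209598314, nat_lit 28734794396, nat_lit 29575513711, nat_lit 30061992198], nat_lit 0, nat_lit 0, nat_lit 0, nat_lit 0, nat_lit 0, nat_lit 0, [], [nat_lit 20, nat_lit 40, nat_lit 40, nat_lit 80, nat_lit 16, nat_lit 260, nat_lit 50, nat_lit 8]⟩, ⟨p112_k2, nat_lit 0, nat_lit 0, nat_lit 590, nat_lit 0, nat_lit 899857, [nat_lit 515680000, nat_lit 876480000, nat_lit 1546380000], [], [nat_lit 3363768216, nat_lit 3369892422, nat_lit 3464896637, nat_lit 3469669982, nat_lit 3630580096, nat_lit 3636775715, nat_lit 3749873543, nat_lit 3755404975], nat_lit 1271250, nat_lit 1271250, nat_lit 1271250, nat_lit 1271250, nat_lit 1100001, nat_lit 2812500, [nat_lit 1100000, nat_lit 1785000, nat_lit 1271250], [nat_lit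 37, nat_lit 40, nat_lit 40, nat_lit 80, nat_lit 28, nat_lit 483, nat_lit 250, nat_lit 10]⟩,
 ⟨nat_lit 2236, nat_lit 2739, ⟨.ofNat (nat_lit 733226), .ofNat (nat_lit 780475), .ofNat (nat_lit 738830), .ofNat (nat_lit 786079), .ofNat (nat_lit 727981), .ofNat (nat_lit 773593), .ofNat (nat_lit 733674), .ofNat (nat_lit 779287)⟩, ⟨.ofNat (nat_lit 328850), .ofNat (nat_lit 387912), .ofNat (nat_lit 351268), .ofNat (nat_lit 410329), .ofNat (nat_lit 329112), .ofNat (nat_lit 386127), .ofNat (nat_lit 351886), .ofNat (nat_lit 408901)⟩⟩, [⟨nat_lit 13, nat_lit 50, nat_lit 74, nat_lit 100, nat_lit 327492008⟩, ⟨nat_lit 19, nat_lit 100, nat_lit 69, nat_lit 93, nat_lit 16801959⟩, ⟨nat_lit 22, nat_lit 74, nat_lit 75, nat_lit 100, nat_lit 22710625⟩]⟩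
noncomputable def p112_l10 : Lf2 := ⟨nat_lit 0, nat_lit 20, [nat_lit 5, nat_lit 5, nat_lit 5, nat_lit 20], false, nat_lit 160, nat_lit 200, nat_lit 160, nat_lit 356, ⟨nat_lit 198, nat_lit 802, nat_lit 0, nat_lit 8, nat_lit 306, nat_lit 802, nat_lit 148, nat_lit 0, nat_lit 0, nat_lit 0, nat_lit 0, nat_lit 0, nat_lit 37404196, nat_lit 22554782, nat_lit 7041022, nat_lit 4970393, true, true⟩,
 nat_lit 0, nat_lit 0, nat_lit 2728, nat_lit 0, nat_lit 2785, nat_lit 1551, nat_lit 251, nat_lit 0, nat_lit 0, nat_lit 181, nat_lit 0, nat_lit 0, nat_lit 0, nat_lit 0, nat_lit 0, nat_lit 200500, nat_lit 0, nat_lit 0, [(nat_lit 25, [(nat_lit 0, nat_lit 802)])],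
 ⟨p112_k3, nat_lit 0, nat_lit 0, nat_lit 75, nat_lit 0, nat_lit 0, [nat_lit 798452000, nat_lit 1747613600, nat_lit 2936136000], [], [nat_lit 26047343770, nat_lit 26283354605, nat_lit 27313929634, nat_lit 27534336033, nat_lit 26747161805, nat_lit 26970452557, nat_lit 27945572762, nat_lit 28157610731], nat_lit 0, nat_lit 0, nat_lit 0, nat_lit 0, nat_lit 0, nat_lit 0, [], [nat_lit 20, nat_lit 40, nat_lit 40, nat_lit 80, nat_lit 16, nat_lit 260, nat_lit 50, nat_lit 8]⟩, ⟨p112_k6, nat_lit 0, nat_lit 0, nat_lit 552, nat_lit 0, nat_lit 800161, [nat_lit 928224000, nat_lit 1577664000, nat_lit 2783484000], [], [nat_lit 6012423345, nat_lit 6023798626, nat_lit 6194948313, nat_lit 6212559556, nat_lit 6509826939, nat_lit 6518002213, nat_lit 6660089372, nat_lit 6666177799], nat_lit 1271250, nat_lit 1271250, nat_lit 1271250, nat_lit 1271250, nat_lit 1100001, nat_lit 2778250, [nat_lit 1100000, nat_lit 1785000, nat_lit 1271250], [nat_lit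 37, nat_lit 40, nat_lit 40, nat_lit 80, nat_lit 28, nat_lit 483, nat_lit 250, nat_lit 10]⟩,
 ⟨nat_lit 2500, nat_lit 2739, ⟨.ofNat (nat_lit 738830), .ofNat (nat_lit 786079), .ofNat (nat_lit 744435), .ofNat (nat_lit 791684), .ofNat (nat_lit 736289), .ofNat (nat_lit 782740), .ofNat (nat_lit 741934), .ofNat (nat_lit 788386)⟩, ⟨.ofNat (nat_lit 328850), .ofNat (nat_lit 387912), .ofNat (nat_lit 351268), .ofNat (nat_lit 410329), .ofNat (nat_lit 329031), .ofNat (nat_lit 387095), .ofNat (nat_lit 351611), .ofNat (nat_lit 409676)⟩⟩, [⟨nat_lit 13, nat_lit 53, nat_lit 71, nat_lit 100, nat_lit 230587004⟩, ⟨nat_lit 4, nat_lit 100, nat_lit 51, nat_lit 89, nat_lit 94460190⟩, ⟨nat_lit 19, nat_lit 100, nat_lit 72, nat_lit 93, nat_lit 62046532⟩]⟩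
noncomputable def p112_l11 : Lf2 := ⟨nat_lit 0, nat_lit 20, [nat_lit 5, nat_lit 5, nat_lit 5, nat_lit 20], false, nat_lit 160, nat_lit 200, nat_lit 160, nat_lit 356, ⟨nat_lit 187, nat_lit 813, nat_lit 0, nat_lit 8, nat_lit 303, nat_lit 813, nat_lit 148, nat_lit 0, nat_lit 0, nat_lit 0, nat_lit 0, nat_lit 0, nat_lit 37574145, nat_lit 22368692, nat_lit 7057163, nat_lit 4965213, true, true⟩,
 nat_lit 0, nat_lit 0, nat_lit 2603, nat_lit 0, nat_lit 2766, nat_lit 1480, nat_lit 228, nat_lit 0, nat_lit 0, nat_lit 171, nat_lit 0, nat_lit 0, nat_lit 0, nat_lit 0, nat_lit 0, nat_lit 203250, nat_lit 0, nat_lit 0, [(nat_lit 25, [(nat_lit 0, nat_lit 813)])],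
 ⟨p112_k4, nat_lit 0, nat_lit 0, nat_lit 75, nat_lit 0, nat_lit 0, [nat_lit 796538001, nat_lit 1726568400, nat_lit 2890684000], [], [nat_lit 26268327372, nat_lit 26408034066, nat_lit 27359192515, nat_lit 27492288455, nat_lit 26957789080, nat_lit 27089001497, nat_lit 27989136970, nat_lit 28115249093], nat_lit 0, nat_lit 0, nat_lit 0, nat_lit 0, nat_lit 0, nat_lit 0, [], [nat_lit 20, nat_lit 40, nat_lit 40, nat_lit 80, nat_lit 16, nat_lit 260, nat_lit 50, nat_lit 8]⟩, ⟨p112_k6, nat_lit 0, nat_lit 0, nat_lit 573, nat_lit 0, nat_lit 857927, [nat_lit 876656000, nat_lit 1490016000, nat_lit 2628846000], [], [nat_lit 5633781832, nat_lit 5644451678, nat_lit 5780838749, nat_lit 5793858511, nat_lit 6101055884, nat_lit 6108679371, nat_lit 6248181701, nat_lit 6257805770], nat_lit 1271250, nat_lit 1271250, nat_lit 1271250, nat_lit 1271250, nat_lit 1100001, nat_lit 2778250, [nat_lit 1100000, nat_lit 1785000, nat_lit 1271250], [nat_lit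 37, nat_lit 40, nat_lit 40, nat_lit 80, nat_lit 28, nat_lit 483, nat_lit 250, nat_lit 10]⟩,
 ⟨nat_lit 2345, nat_lit 2500, ⟨.ofNat (nat_lit 736289), .ofNat (nat_lit 776934), .ofNat (nat_lit 741934), .ofNat (nat_lit 782579), .ofNat (nat_lit 734731), .ofNat (nat_lit 774941), .ofNat (nat_lit 740404), .ofNat (nat_lit 780614)⟩, ⟨.ofNat (nat_lit 329031), .ofNat (nat_lit 387095), .ofNat (nat_lit 351611), .ofNat (nat_lit 409676), .ofNat (nat_lit 329093), .ofNat (nat_lit 386536), .ofNat (nat_lit 351786), .ofNat (nat_lit 409228)⟩⟩, [⟨nat_lit 13, nat_lit 49, nat_lit 74, nat_lit 100, nat_lit 267995150⟩, ⟨nat_lit 16, nat_lit 47, nat_lit 100, nat_lit 89, nat_lit 102970630⟩, ⟨nat_lit 19, nat_lit 100, nat_lit 72, nat_lit 93, nat_lit 59646239⟩]⟩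
noncomputable def p112_l12 : Lf2 := ⟨nat_lit 0, nat_lit 20, [nat_lit 5, nat_lit 5, nat_lit 5, nat_lit 20], false, nat_lit 160, nat_lit 200, nat_lit 160, nat_lit 356, ⟨nat_lit 183, nat_lit 817, nat_lit 0, nat_lit 8, nat_lit 302, nat_lit 817, nat_lit 148, nat_lit 0, nat_lit 0, nat_lit 0, nat_lit 0, nat_lit 0, nat_lit 37715136, nat_lit 22214308, nat_lit 7070556, nat_lit 4960771, true, true⟩,
 nat_lit 0, nat_lit 0, nat_lit 2555, nat_lit 0, nat_lit 2731, nat_lit 1453, nat_lit 221, nat_lit 0, nat_lit 0, nat_lit 169, nat_lit 0, nat_lit 0, nat_lit 0, nat_lit 0, nat_lit 0, nat_lit 204250, nat_lit 0, nat_lit 0, [(nat_lit 25, [(nat_lit 0, nat_lit 817)])],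
 ⟨p112_k7, nat_lit 0, nat_lit 0, nat_lit 74, nat_lit 0, nat_lit 0, [nat_lit 795842001, nat_lit 1718915600, nat_lit 2874156000], [], [nat_lit 26367776514, nat_lit 26459727456, nat_lit 27279441155, nat_lit 27368550960, nat_lit 27052078991, nat_lit 27139167416, nat_lit 27915079335, nat_lit 27998019895], nat_lit 0, nat_lit 0, nat_lit 0, nat_lit 0, nat_lit 0, nat_lit 0, [], [nat_lit 20, nat_lit 40, nat_lit 40, nat_lit 80, nat_lit 16, nat_lit 260, nat_lit 50, nat_lit 8]⟩, ⟨p112_k6, nat_lit 0, nat_lit 0, nat_lit 587, nat_lit 0, nat_lit 896752, [nat_lit 857904000, nat_lit 1458144000, nat_lit 2572614000], [], [nat_lit 5477585454, nat_lit 5488004504, nat_lit 5604515367, nat_lit 5621474160, nat_lit 5950007396, nat_lit 5957437838, nat_lit 6069901231, nat_lit 6079624006], nat_lit 1271250, nat_lit 1271250, nat_lit 1271250, nat_lit 1271250, nat_lit 1100001, nat_lit 2778250, [nat_lit 1100000, nat_lit 1785000, nat_lit 1271250], [nat_lit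 37, nat_lit 40, nat_lit 40, nat_lit 80, nat_lit 28, nat_lit 483, nat_lit 250, nat_lit 10]⟩,
 ⟨nat_lit 2236, nat_lit 2346, ⟨.ofNat (nat_lit 734731), .ofNat (nat_lit 769197), .ofNat (nat_lit 740404), .ofNat (nat_lit 774870), .ofNat (nat_lit 733674), .ofNat (nat_lit 767884), .ofNat (nat_lit 739368), .ofNat (nat_lit 773577)⟩, ⟨.ofNat (nat_lit 329093), .ofNat (nat_lit 386536), .ofNat (nat_lit 351786), .ofNat (nat_lit 409228), .ofNat (nat_lit 329112), .ofNat (nat_lit 386127), .ofNat (nat_lit 351886), .ofNat (nat_lit 408901)⟩⟩, [⟨nat_lit 13, nat_lit 47, nat_lit 76, nat_lit 100, nat_lit 277552375⟩, ⟨nat_lit 16, nat_lit 45, nat_lit 100, nat_lit 89, nat_lit 108012828⟩, ⟨nat_lit 19, nat_lit 100, nat_lit 72, nat_lit 93, nat_lit 58609257⟩]⟩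
noncomputable def p112_l13 : Lf2 := ⟨nat_lit 0, nat_lit 20, [nat_lit 5, nat_lit 5, nat_lit 5, nat_lit 20], false, nat_lit 200, nat_lit 224, nat_lit 160, nat_lit 352, ⟨nat_lit 83, nat_lit 917, nat_lit 0, nat_lit 8, nat_lit 306, nat_lit 917, nat_lit 158, nat_lit 0, nat_lit 0, nat_lit 0, nat_lit 0, nat_lit 0, nat_lit 36893821, nat_lit 22400011, nat_lit 7706168, nat_lit 5059791, true, true⟩,
 nat_lit 0, nat_lit 0, nat_lit 1573, nat_lit 0, nat_lit 3362, nat_lit 832, nat_lit 0, nat_lit 0, nat_lit 0, nat_lit 49, nat_lit 0, nat_lit 0, nat_lit 0, nat_lit 0, nat_lit 0, nat_lit 229250, nat_lit 0, nat_lit 0, [(nat_lit 25, [(nat_lit 0, nat_lit 917)])],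
 ⟨p112_k8, nat_lit 0, nat_lit 0, nat_lit 77, nat_lit 0, nat_lit 0, [nat_lit 778442001, nat_lit 1962309201, nat_lit 2460956000], [], [nat_lit 26866533609, nat_lit 27880941229, nat_lit 28773815638, nat_lit 29690485273, nat_lit 27312568483, nat_lit 28290006551, nat_lit 29149408896, nat_lit 30033873737], nat_lit 0, nat_lit 0, nat_lit 0, nat_lit 0, nat_lit 0, nat_lit 0, [], [nat_lit 55, nat_lit 40, nat_lit 40, nat_lit 80, nat_lit 3, nat_lit 203, nat_lit 0, nat_lit 5]⟩, ⟨p112_k9, nat_lit 0, nat_lit 0, nat_lit 746, nat_lit 0, nat_lit 1210488, [nat_lit 389104000, nat_lit 816886000, nat_lit 1166814000], [], [nat_lit 3004431028, nat_lit 3005771588, nat_lit 3073174058, nat_lit 3069739585, nat_lit 2954696189, nat_lit 2942024098, nat_lit 3005020780, nat_lit 3026765489], nat_lit 1271250, nat_lit 1271250, nat_lit 1271250, nat_lit 1271250, nat_lit 1100001, nat_lit 2744000, [nat_lit 1100000, nat_lit 2127500, nat_lit 1271250], [nat_lit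 56, nat_lit 40, nat_lit 40, nat_lit 80, nat_lit 32, nat_lit 483, nat_lit 250, nat_lit 10]⟩,
 ⟨nat_lit 2236, nat_lit 3163, ⟨.ofNat (nat_lit 727168), .ofNat (nat_lit 794217), .ofNat (nat_lit 749323), .ofNat (nat_lit 816372), .ofNat (nat_lit 716594), .ofNat (nat_lit 779311), .ofNat (nat_lit 739368), .ofNat (nat_lit 802085)⟩, ⟨.ofNat (nat_lit 367069), .ofNat (nat_lit 403641), .ofNat (nat_lit 389224), .ofNat (nat_lit 425796), .ofNat (nat_lit 363353), .ofNat (nat_lit 397562), .ofNat (nat_lit 386127), .ofNat (nat_lit 420336)⟩⟩, [⟨nat_lit 13, nat_lit 63, nat_lit 61, nat_lit 100, nat_lit 269745573⟩, ⟨nat_lit 16, nat_lit 60, nat_lit 100, nat_lit 87, nat_lit 205180578⟩, ⟨nat_lit 7, nat_lit 77, nat_lit 100, nat_lit 86, nat_lit 20636622⟩]⟩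
noncomputable def p112_l14 : Lf2 := ⟨nat_lit 0, nat_lit 20, [nat_lit 5, nat_lit 5, nat_lit 5, nat_lit 20], false, nat_lit 200, nat_lit 248, nat_lit 160, nat_lit 240, ⟨nat_lit 104, nat_lit 896, nat_lit 0, nat_lit 8, nat_lit 306, nat_lit 896, nat_lit 174, nat_lit 0, nat_lit 0, nat_lit 0, nat_lit 0, nat_lit 0, nat_lit 36139518, nat_lit 22033017, nat_lit 8827465, nat_lit 5192689, true, true⟩,
 nat_lit 0, nat_lit 0, nat_lit 2149, nat_lit 0, nat_lit 3380, nat_lit 1137, nat_lit 0, nat_lit 0, nat_lit 0, nat_lit 70, nat_lit 0, nat_lit 0, nat_lit 0, nat_lit 0, nat_lit 0, nat_lit 224000, nat_lit 0, nat_lit 0, [(nat_lit 25, [(nat_lit 0, nat_lit 896)])],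
 ⟨p112_k8, nat_lit 0, nat_lit 0, nat_lit 77, nat_lit 0, nat_lit 0, [nat_lit 782096001, nat_lit 2024729600, nat_lit 2547728000], [], [nat_lit 26922331520, nat_lit 27938980320, nat_lit 28833210636, nat_lit 29751746685, nat_lit 27894928744, nat_lit 28836384737, nat_lit 29661994195, nat_lit 30514582753], nat_lit 0, nat_lit 0, nat_lit 0, nat_lit 0, nat_lit 0, nat_lit 0, [], [nat_lit 55, nat_lit 40, nat_lit 40, nat_lit 80, nat_lit 3, nat_lit 203, nat_lit 0, nat_lit 5]⟩, ⟨p112_k9, nat_lit 0, nat_lit 0, nat_lit 636, nat_lit 0, nat_lit 999147, [nat_lit 487552000, nat_lit 1023568000, nat_lit 1462032000], [], [nat_lit 3366227376, nat_lit 3364861384, nat_lit 3452463875, nat_lit 3452113788, nat_lit 3236270072, nat_lit 3228011468, nat_lit 3337618493, nat_lit 3348423151], nat_lit 1271250, nat_lit 1271250, nat_lit 1271250, nat_lit 1271250, nat_lit 1100001, nat_lit 1785000, [nat_lit 1100000, nat_lit 2127500, nat_lit 1271250], [nat_lit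 56, nat_lit 40, nat_lit 40, nat_lit 80, nat_lit 32, nat_lit 456, nat_lit 225, nat_lit 10]⟩,
 ⟨nat_lit 2236, nat_lit 3163, ⟨.ofNat (nat_lit 727168), .ofNat (nat_lit 794217), .ofNat (nat_lit 749323), .ofNat (nat_lit 816372), .ofNat (nat_lit 716594), .ofNat (nat_lit 779311), .ofNat (nat_lit 739368), .ofNat (nat_lit 802085)⟩, ⟨.ofNat (nat_lit 389224), .ofNat (nat_lit 462368), .ofNat (nat_lit 411379), .ofNat (nat_lit 484523), .ofNat (nat_lit 386127), .ofNat (nat_lit 454546), .ofNat (nat_lit 408901), .ofNat (nat_lit 477320)⟩⟩, [⟨nat_lit 13, nat_lit 54, nat_lit 71, nat_lit 100, nat_lit 312313228⟩, ⟨nat_lit 4, nat_lit 100, nat_lit 53, nat_lit 90, nat_lit 255152300⟩]⟩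
noncomputable def p112_l15 : Lf2 := ⟨nat_lit 0, nat_lit 15, [nat_lit 30, nat_lit 5, nat_lit 5, nat_lit 20], false, nat_lit 200, nat_lit 248, nat_lit 240, nat_lit 364, ⟨nat_lit 73, nat_lit 927, nat_lit 0, nat_lit 8, nat_lit 303, nat_lit 927, nat_lit 174, nat_lit 0, nat_lit 0, nat_lit 0, nat_lit 0, nat_lit 0, nat_lit 36392261, nat_lit 21735071, nat_lit 8872668, nat_lit 5186186, true, true⟩,
 nat_lit 0, nat_lit 0, nat_lit 1400, nat_lit 0, nat_lit 3387, nat_lit 741, nat_lit 0, nat_lit 0, nat_lit 0, nat_lit 30, nat_lit 0, nat_lit 0, nat_lit 0, nat_lit 0, nat_lit 0, nat_lit 231750, nat_lit 0, nat_lit 0, [(nat_lit 25, [(nat_lit 0, nat_lit 927)])],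
 ⟨p112_k10, nat_lit 0, nat_lit 0, nat_lit 75, nat_lit 0, nat_lit 0, [nat_lit 776702001, nat_lit 1932585201, nat_lit 2419636000], [], [nat_lit 26827611709, nat_lit 27845132079, nat_lit 28554263897, nat_lit 29498987657, nat_lit 27799951577, nat_lit 28742171118, nat_lit 29395957692, nat_lit 30333869414], nat_lit 0, nat_lit 0, nat_lit 0, nat_lit 0, nat_lit 0, nat_lit 0, [], [nat_lit 55, nat_lit 40, nat_lit 40, nat_lit 80, nat_lit 3, nat_lit 203, nat_lit 0, nat_lit 5]⟩, ⟨p112_k11, nat_lit 0, nat_lit 0, nat_lit 529, nat_lit 0, nat_lit 932210, [nat_lit 342224000, nat_lit 718466000, nat_lit 866656000], [], [nat_lit 2435110204, nat_lit 2439633599, nat_lit 2513781664, nat_lit 2515878531, nat_lit 2566997208, nat_lit 2569221542, nat_lit 2685361633, nat_lit 2695433484], nat_lit 1271250, nat_lit 1271250, nat_lit 1271250, nat_lit 1271250, nat_lit 1271250, nat_lit 1271250, [nat_lit 1100000, nat_lit 2127500, nat_lit 1271250], [nat_lit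 125, nat_lit 40, nat_lit 40, nat_lit 80, nat_lit 41, nat_lit 401, nat_lit 175, nat_lit 9]⟩,
 ⟨nat_lit 2236, nat_lit 3163, ⟨.ofNat (nat_lit 727168), .ofNat (nat_lit 788122), .ofNat (nat_lit 738246), .ofNat (nat_lit 799199), .ofNat (nat_lit 716594), .ofNat (nat_lit 773609), .ofNat (nat_lit 727981), .ofNat (nat_lit 784996)⟩, ⟨.ofNat (nat_lit 389224), .ofNat (nat_lit 462368), .ofNat (nat_lit 411379), .ofNat (nat_lit 484523), .ofNat (nat_lit 386127), .ofNat (nat_lit 454546), .ofNat (nat_lit 408901), .ofNat (nat_lit 477320)⟩⟩, [⟨nat_lit 13, nat_lit 62, nat_lit 65, nat_lit 100, nat_lit 280515959⟩, ⟨nat_lit 16, nat_lit 62, nat_lit 100, nat_lit 94, nat_lit 192235702⟩, ⟨nat_lit 19, nat_lit 100, nat_lit 66, nat_lit 92, nat_lit 25793109⟩]⟩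
noncomputable def p112_l16 : Lf2 := ⟨nat_lit 0, nat_lit 15, [nat_lit 30, nat_lit 5, nat_lit 5, nat_lit 20], false, nat_lit 200, nat_lit 248, nat_lit 240, nat_lit 360, ⟨nat_lit 79, nat_lit 921, nat_lit 0, nat_lit 8, nat_lit 306, nat_lit 921, nat_lit 174, nat_lit 0, nat_lit 0, nat_lit 0, nat_lit 0, nat_lit 0, nat_lit 36143673, nat_lit 22028116, nat_lit 8828211, nat_lit 5192587, true, true⟩,
 nat_lit 0, nat_lit 0, nat_lit 1352, nat_lit 0, nat_lit 3421, nat_lit 751, nat_lit 0, nat_lit 0, nat_lit 0, nat_lit 39, nat_lit 0, nat_lit 0, nat_lit 0, nat_lit 0, nat_lit 0, nat_lit 230250, nat_lit 0, nat_lit 0, [(nat_lit 25, [(nat_lit 0, nat_lit 921)])],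
 ⟨p112_k10, nat_lit 0, nat_lit 0, nat_lit 75, nat_lit 0, nat_lit 0, [nat_lit 777746001, nat_lit 1950419601, nat_lit 2444428000], [], [nat_lit 26832936965, nat_lit 27854690675, nat_lit 28565665769, nat_lit 29540882831, nat_lit 27804026816, nat_lit 28749955023, nat_lit 29405214858, nat_lit 30373139169], nat_lit 0, nat_lit 0, nat_lit 0, nat_lit 0, nat_lit 0, nat_lit 0, [], [nat_lit 55, nat_lit 40, nat_lit 40, nat_lit 80, nat_lit 3, nat_lit 203, nat_lit 0, nat_lit 5]⟩, ⟨p112_k12, nat_lit 0, nat_lit 0, nat_lit 511, nat_lit 0, nat_lit 893423, [nat_lit 370352000, nat_lit 777518000, nat_lit 937888000], [], [nat_lit 2659026018, nat_lit 2661779619, nat_lit 2740339374, nat_lit 2741850951, nat_lit 2791132129, nat_lit 2790833347, nat_lit 2846803619, nat_lit 2849658525], nat_lit 1271250, nat_lit 1271250, nat_lit 1271250, nat_lit 1271250, nat_lit 1271250, nat_lit 1271250, [nat_lit 1100000, nat_lit 2127500, nat_lit 1271250], [nat_lit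 125, nat_lit 40, nat_lit 40, nat_lit 80, nat_lit 41, nat_lit 401, nat_lit 175, nat_lit 9]⟩,
 ⟨nat_lit 2236, nat_lit 3163, ⟨.ofNat (nat_lit 738246), .ofNat (nat_lit 799199), .ofNat (nat_lit 743785), .ofNat (nat_lit 804738), .ofNat (nat_lit 727981), .ofNat (nat_lit 784996), .ofNat (nat_lit 733674), .ofNat (nat_lit 790690)⟩, ⟨.ofNat (nat_lit 389224), .ofNat (nat_lit 462368), .ofNat (nat_lit 411379), .ofNat (nat_lit 484523), .ofNat (nat_lit 386127), .ofNat (nat_lit 454546), .ofNat (nat_lit 408901), .ofNat (nat_lit 477320)⟩⟩, [⟨nat_lit 13, nat_lit 62, nat_lit 63, nat_lit 100, nat_lit 262081844⟩, ⟨nat_lit 16, nat_lit 62, nat_lit 100, nat_lit 94, nat_lit 194657248⟩, ⟨nat_lit 19, nat_lit 100, nat_lit 64, nat_lit 95, nat_lit 25774699⟩]⟩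
noncomputable def p112_l17 : Lf2 := ⟨nat_lit 0, nat_lit 15, [nat_lit 30, nat_lit 5, nat_lit 5, nat_lit 20], false, nat_lit 200, nat_lit 248, nat_lit 240, nat_lit 356, ⟨nat_lit 82, nat_lit 918, nat_lit 0, nat_lit 8, nat_lit 311, nat_lit 918, nat_lit 174, nat_lit 0, nat_lit 0, nat_lit 0, nat_lit 0, nat_lit 0, nat_lit 35774349, nat_lit 22419531, nat_lit 8806120, nat_lit 5205017, true, true⟩,
 nat_lit 0, nat_lit 0, nat_lit 1327, nat_lit 0, nat_lit 3422, nat_lit 754, nat_lit 0, nat_lit 0, nat_lit 0, nat_lit 41, nat_lit 0, nat_lit 0, nat_lit 0, nat_lit 0, nat_lit 0, nat_lit 229500, nat_lit 0, nat_lit 0, [(nat_lit 25, [(nat_lit 0, nat_lit 918)])],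
 ⟨p112_k10, nat_lit 0, nat_lit 0, nat_lit 73, nat_lit 0, nat_lit 0, [nat_lit 778268000, nat_lit 1959336801, nat_lit 2456824000], [], [nat_lit 26841486249, nat_lit 27352425359, nat_lit 28760758570, nat_lit 29222204075, nat_lit 27812539335, nat_lit 28285557977, nat_lit 29586778935, nat_lit 30073627274], nat_lit 0, nat_lit 0, nat_lit 0, nat_lit 0, nat_lit 0, nat_lit 0, [], [nat_lit 55, nat_lit 40, nat_lit 40, nat_lit 80, nat_lit 3, nat_lit 203, nat_lit 0, nat_lit 5]⟩, ⟨p112_k13, nat_lit 0, nat_lit 0, nat_lit 416, nat_lit 0, nat_lit 703318, [nat_lit 384416000, nat_lit 807044000, nat_lit 973504000], [], [nat_lit 2614245224, nat_lit 2620425539, nat_lit 2752034750, nat_lit 2757802259, nat_lit 2848413083, nat_lit 2851914558, nat_lit 2954066404, nat_lit 2956007455], nat_lit 1271250, nat_lit 1271250, nat_lit 1271250, nat_lit 1271250, nat_lit 1271250, nat_lit 1271250, [nat_lit 1100000, nat_lit 2127500, nat_lit 1271250], [nat_lit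 125, nat_lit 40, nat_lit 40, nat_lit 80, nat_lit 41, nat_lit 401, nat_lit 175, nat_lit 9]⟩,
 ⟨nat_lit 2738, nat_lit 3163, ⟨.ofNat (nat_lit 743785), .ofNat (nat_lit 810833), .ofNat (nat_lit 749323), .ofNat (nat_lit 816372), .ofNat (nat_lit 738830), .ofNat (nat_lit 803798), .ofNat (nat_lit 744435), .ofNat (nat_lit 809402)⟩, ⟨.ofNat (nat_lit 389224), .ofNat (nat_lit 462368), .ofNat (nat_lit 411379), .ofNat (nat_lit 484523), .ofNat (nat_lit 387912), .ofNat (nat_lit 458785), .ofNat (nat_lit 410329), .ofNat (nat_lit 481203)⟩⟩, [⟨nat_lit 13, nat_lit 63, nat_lit 61, nat_lit 100, nat_lit 264326390⟩, ⟨nat_lit 16, nat_lit 62, nat_lit 100, nat_lit 94, nat_lit 193539428⟩, ⟨nat_lit 19, nat_lit 100, nat_lit 66, nat_lit 95, nat_lit 30704557⟩]⟩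
noncomputable def p112_l18 : Lf2 := ⟨nat_lit 0, nat_lit 15, [nat_lit 30, nat_lit 5, nat_lit 5, nat_lit 20], true, nat_lit 200, nat_lit 232, nat_lit 240, nat_lit 356, ⟨nat_lit 0, nat_lit 1000, nat_lit 0, nat_lit 8, nat_lit 305, nat_lit 1000, nat_lit 169, nat_lit 0, nat_lit 0, nat_lit 0, nat_lit 0, nat_lit 0, nat_lit 36478454, nat_lit 22037227, nat_lit 8484319, nat_lit 5149383, true, true⟩,
 nat_lit 0, nat_lit 0, nat_lit 0, nat_lit 0, nat_lit 3265, nat_lit 0, nat_lit 0, nat_lit 0, nat_lit 0, nat_lit 0, nat_lit 0, nat_lit 0, nat_lit 0, nat_lit 0, nat_lit 0, nat_lit 250000, nat_lit 0, nat_lit 0, [(nat_lit 25, [(nat_lit 0, nat_lit 1000)])],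
 ⟨p112_k14, nat_lit 0, nat_lit 0, nat_lit 72, nat_lit 0, nat_lit 0, [nat_lit 764000001, nat_lit 1715600000], [], [nat_lit 27156677335, nat_lit 27657842410, nat_lit 28485723290, nat_lit 28980428820, nat_lit 27730891232, nat_lit 28207901146, nat_lit 28995317299, nat_lit 29501427492], nat_lit 0, nat_lit 0, nat_lit 0, nat_lit 0, nat_lit 0, nat_lit 0, [], [nat_lit 86, nat_lit 40, nat_lit 40, nat_lit 80, nat_lit 87, nat_lit 203, nat_lit 0, nat_lit 6]⟩, C1.Rw.none,
 ⟨nat_lit 2236, nat_lit 2739, ⟨.ofNat (nat_lit 738830), .ofNat (nat_lit 786079), .ofNat (nat_lit 744435), .ofNat (nat_lit 791684), .ofNat (nat_lit 733674), .ofNat (nat_lit 779287), .ofNat (nat_lit 739368), .ofNat (nat_lit 784980)⟩, ⟨.ofNat (nat_lit 387912), .ofNat (nat_lit 435161), .ofNat (nat_lit 410329), .ofNat (nat_lit 457578), .ofNat (nat_lit 386127), .ofNat (nat_lit 431740), .ofNat (nat_lit 408901), .ofNat (nat_lit 454514)⟩⟩, [⟨nat_lit 13, nat_lit 55, nat_lit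 68, nat_lit 100, nat_lit 347407645⟩, ⟨nat_lit 16, nat_lit 53, nat_lit 100, nat_lit 93, nat_lit 190724219⟩]⟩
noncomputable def p112_l19 : Lf2 := ⟨nat_lit 0, nat_lit 20, [nat_lit 5, nat_lit 5, nat_lit 5, nat_lit 20], false, nat_lit 200, nat_lit 248, nat_lit 240, nat_lit 364, ⟨nat_lit 185, nat_lit 815, nat_lit 0, nat_lit 8, nat_lit 304, nat_lit 815, nat_lit 174, nat_lit 0, nat_lit 0, nat_lit 0, nat_lit 0, nat_lit 0, nat_lit 36271205, nat_lit 21832658, nat_lit 8896137, nat_lit 5193126, true, true⟩,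
 nat_lit 0, nat_lit 0, nat_lit 3493, nat_lit 0, nat_lit 3630, nat_lit 1849, nat_lit 0, nat_lit 0, nat_lit 0, nat_lit 107, nat_lit 0, nat_lit 0, nat_lit 0, nat_lit 0, nat_lit 0, nat_lit 203750, nat_lit 0, nat_lit 0, [(nat_lit 25, [(nat_lit 0, nat_lit 815)])],
 ⟨p112_k8, nat_lit 0, nat_lit 0, nat_lit 72, nat_lit 0, nat_lit 0, [nat_lit 796190001, nat_lit 2265494000, nat_lit 2882420000], [], [nat_lit 27071116920, nat_lit 27595005070, nat_lit 28841199040, nat_lit 29318090405, nat_lit 28034522844, nat_lit 28518885641, nat_lit 29667564493, nat_lit 30109839287], nat_lit 0, nat_lit 0, nat_lit 0, nat_lit 0, nat_lit 0, nat_lit 0, [], [nat_lit 55, nat_lit 40, nat_lit 40, nat_lit 80, nat_lit 3, nat_lit 203, nat_lit 0, nat_lit 5]⟩, ⟨p112_k9, nat_lit 0, nat_lit 0, nat_lit 304, nat_lit 0, nat_lit 413840, [nat_lit 867280000, nat_lit 1820770000, nat_lit 2600730000], [], [nat_lit 5949232192, nat_lit 5968154690, nat_lit 6202636832, nat_lit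 6221793577, nat_lit 6521074578, nat_lit 6533615873, nat_lit 6782714813, nat_lit 6799817687], nat_lit 1271250, nat_lit 1271250, nat_lit 1271250, nat_lit 1271250, nat_lit 1271250, nat_lit 1271250, [nat_lit 1100000, nat_lit 2127500, nat_lit 1271250], [nat_lit 56, nat_lit 40, nat_lit 40, nat_lit 80, nat_lit 32, nat_lit 483, nat_lit 250, nat_lit 10]⟩,
 ⟨nat_lit 2738, nat_lit 3163, ⟨.ofNat (nat_lit 727168), .ofNat (nat_lit 788122), .ofNat (nat_lit 738246), .ofNat (nat_lit 799199), .ofNat (nat_lit 722017), .ofNat (nat_lit 781079), .ofNat (nat_lit 733226), .ofNat (nat_lit 792287)⟩, ⟨.ofNat (nat_lit 389224), .ofNat (nat_lit 462368), .ofNat (nat_lit 411379), .ofNat (nat_lit 484523), .ofNat (nat_lit 387912), .ofNat (nat_lit 458785), .ofNat (nat_lit 410329), .ofNat (nat_lit 481203)⟩⟩, [⟨nat_lit 13, nat_lit 58, nat_lit 69, nat_lit 100, nat_lit 258606687⟩, ⟨nat_lit 4, nat_lit 100, nat_lit 57, nat_lit 90, nat_lit 262760616⟩, ⟨nat_lit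 19, nat_lit 100, nat_lit 66, nat_lit 92, nat_lit 76164943⟩]⟩
noncomputable def p112_l20 : Lf2 := ⟨nat_lit 0, nat_lit 20, [nat_lit 5, nat_lit 5, nat_lit 5, nat_lit 20], false, nat_lit 200, nat_lit 232, nat_lit 240, nat_lit 364, ⟨nat_lit 113, nat_lit 887, nat_lit 0, nat_lit 8, nat_lit 298, nat_lit 887, nat_lit 169, nat_lit 0, nat_lit 0, nat_lit 0, nat_lit 0, nat_lit 0, nat_lit 36989939, nat_lit 21439907, nat_lit 8570154, nat_lit 5135248, true, true⟩,
 nat_lit 0, nat_lit 0, nat_lit 2159, nat_lit 0, nat_lit 3490, nat_lit 1143, nat_lit 0, nat_lit 0, nat_lit 0, nat_lit 67, nat_lit 0, nat_lit 0, nat_lit 0, nat_lit 0, nat_lit 0, nat_lit 221750, nat_lit 0, nat_lit 0, [(nat_lit 25, [(nat_lit 0, nat_lit 887)])],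
 ⟨p112_k15, nat_lit 0, nat_lit 0, nat_lit 72, nat_lit 0, nat_lit 0, [nat_lit 783662001, nat_lit 2051481201, nat_lit 2584916000], [], [nat_lit 27423784811, nat_lit 27938957261, nat_lit 28613357605, nat_lit 29096560316, nat_lit 27988379148, nat_lit 28478257037, nat_lit 29118801781, nat_lit 29578729245], nat_lit 0, nat_lit 0, nat_lit 0, nat_lit 0, nat_lit 0, nat_lit 0, [], [nat_lit 55, nat_lit 40, nat_lit 40, nat_lit 80, nat_lit 3, nat_lit 203, nat_lit 0, nat_lit 5]⟩, ⟨p112_k9, nat_lit 0, nat_lit 0, nat_lit 427, nat_lit 0, nat_lit 623449, [nat_lit 529744000, nat_lit 1112146000, nat_lit 1588554000], [], [nat_lit 3589647416, nat_lit 3601075118, nat_lit 3698462444, nat_lit 3714580403, nat_lit 3957450259, nat_lit 3964940816, nat_lit 4069319711, nat_lit 4076736109], nat_lit 1271250, nat_lit 1271250, nat_lit 1271250, nat_lit 1271250, nat_lit 1271250, nat_lit 1271250, [nat_lit 1100000, nat_lit 2127500, nat_lit 1271250], [nat_lit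 56, nat_lit 40, nat_lit 40, nat_lit 80, nat_lit 32, nat_lit 483, nat_lit 250, nat_lit 10]⟩,
 ⟨nat_lit 2236, nat_lit 2739, ⟨.ofNat (nat_lit 722017), .ofNat (nat_lit 763360), .ofNat (nat_lit 733226), .ofNat (nat_lit 774569), .ofNat (nat_lit 716594), .ofNat (nat_lit 756505), .ofNat (nat_lit 727981), .ofNat (nat_lit 767892)⟩, ⟨.ofNat (nat_lit 387912), .ofNat (nat_lit 435161), .ofNat (nat_lit 410329), .ofNat (nat_lit 457578), .ofNat (nat_lit 386127), .ofNat (nat_lit 431740), .ofNat (nat_lit 408901), .ofNat (nat_lit 454514)⟩⟩, [⟨nat_lit 13, nat_lit 50, nat_lit 76, nat_lit 100, nat_lit 270816217⟩, ⟨nat_lit 16, nat_lit 53, nat_lit 100, nat_lit 93, nat_lit 286718243⟩, ⟨nat_lit 22, nat_lit 74, nat_lit 61, nat_lit 100, nat_lit 58506362⟩]⟩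
noncomputable def p112_l21 : Lf2 := ⟨nat_lit 0, nat_lit 20, [nat_lit 5, nat_lit 5, nat_lit 5, nat_lit 20], false, nat_lit 200, nat_lit 248, nat_lit 240, nat_lit 360, ⟨nat_lit 1000, nat_lit 0, nat_lit 0, nat_lit 0, nat_lit 0, nat_lit 0, nat_lit 0, nat_lit 0, nat_lit 0, nat_lit 0, nat_lit 0, nat_lit 0, nat_lit 0, nat_lit 0, nat_lit 0, nat_lit 0, false, false⟩,
 nat_lit 0, nat_lit 0, nat_lit 11193, nat_lit 0, nat_lit 5546, nat_lit 6218, nat_lit 0, nat_lit 0, nat_lit 0, nat_lit 578, nat_lit 0, nat_lit 0, nat_lit 0, nat_lit 0, nat_lit 0, nat_lit 0, nat_lit 0, nat_lit 0, [],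
 ⟨p112_k8, nat_lit 0, nat_lit 0, nat_lit 72, nat_lit 0, nat_lit 0, [nat_lit 938000000, nat_lit 4688000000, nat_lit 6250000000], [], [nat_lit 28788695864, nat_lit 29110280229, nat_lit 31132424522, nat_lit 31418206452, nat_lit 29681659665, nat_lit 29976089617, nat_lit 31845738921, nat_lit 32148958775], nat_lit 0, nat_lit 0, nat_lit 0, nat_lit 0, nat_lit 0, nat_lit 0, [], [nat_lit 55, nat_lit 40, nat_lit 40, nat_lit 80, nat_lit 3, nat_lit 203, nat_lit 0, nat_lit 5]⟩, ⟨p112_k16, nat_lit 0, nat_lit 0, nat_lit 279, nat_lit 0, nat_lit 352758, [nat_lit 4688000000, nat_lit 9842000000, nat_lit 14058000000], [], [nat_lit 32826013430, nat_lit 33050596610, nat_lit 34546890874, nat_lit 34734268233, nat_lit 36152052697, nat_lit 36294230024, nat_lit 37552445276, nat_lit 37661869829], nat_lit 1271250, nat_lit 1271250, nat_lit 1271250, nat_lit 1271250, nat_lit 1271250, nat_lit 1271250, [nat_lit 1100000, nat_lit 2127500, nat_lit 1271250],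 [nat_lit 56, nat_lit 40, nat_lit 40, nat_lit 80, nat_lit 32, nat_lit 483, nat_lit 250, nat_lit 10]⟩,
 zbF0, [⟨nat_lit 16, nat_lit 59, nat_lit 100, nat_lit 90, nat_lit 571090542⟩, ⟨nat_lit 7, nat_lit 71, nat_lit 100, nat_lit 93, nat_lit 403960306⟩]⟩
noncomputable def p112_l22 : Lf2 := ⟨nat_lit 0, nat_lit 20, [nat_lit 5, nat_lit 5, nat_lit 5, nat_lit 20], false, nat_lit 200, nat_lit 240, nat_lit 240, nat_lit 360, ⟨nat_lit 149, nat_lit 851, nat_lit 0, nat_lit 8, nat_lit 308, nat_lit 851, nat_lit 172, nat_lit 0, nat_lit 0, nat_lit 0, nat_lit 0, nat_lit 0, nat_lit 36109013, nat_lit 22229672, nat_lit 8661315, nat_lit 5179620, true, true⟩,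
 nat_lit 0, nat_lit 0, nat_lit 2511, nat_lit 0, nat_lit 3565, nat_lit 1394, nat_lit 0, nat_lit 0, nat_lit 0, nat_lit 89, nat_lit 0, nat_lit 0, nat_lit 0, nat_lit 0, nat_lit 0, nat_lit 212750, nat_lit 0, nat_lit 0, [(nat_lit 25, [(nat_lit 0, nat_lit 851)])],
 ⟨p112_k17, nat_lit 0, nat_lit 0, nat_lit 72, nat_lit 0, nat_lit 0, [nat_lit 789926000, nat_lit 2158487600, nat_lit 2733668000], [], [nat_lit 27247945848, nat_lit 27507866635, nat_lit 28983220274, nat_lit 29219950428, nat_lit 27965727093, nat_lit 28209601405, nat_lit 29591991658, nat_lit 29814507675], nat_lit 0, nat_lit 0, nat_lit 0, nat_lit 0, nat_lit 0, nat_lit 0, [], [nat_lit 55, nat_lit 40, nat_lit 40, nat_lit 80, nat_lit 3, nat_lit 203, nat_lit 0, nat_lit 5]⟩, ⟨p112_k16, nat_lit 0, nat_lit 0, nat_lit 315, nat_lit 0, nat_lit 444821, [nat_lit 698512000, nat_lit 1466458000, nat_lit 2094642000], [], [nat_lit 4764219364, nat_lit 4780371420, nat_lit 4971730428, nat_lit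 4993219666, nat_lit 5201477167, nat_lit 5213342969, nat_lit 5373223370, nat_lit 5379926809], nat_lit 1271250, nat_lit 1271250, nat_lit 1271250, nat_lit 1271250, nat_lit 1271250, nat_lit 1271250, [nat_lit 1100000, nat_lit 2127500, nat_lit 1271250], [nat_lit 56, nat_lit 40, nat_lit 40, nat_lit 80, nat_lit 32, nat_lit 483, nat_lit 250, nat_lit 10]⟩,
 ⟨nat_lit 2738, nat_lit 2959, ⟨.ofNat (nat_lit 735754), .ofNat (nat_lit 795775), .ofNat (nat_lit 746893), .ofNat (nat_lit 806914), .ofNat (nat_lit 733226), .ofNat (nat_lit 792287), .ofNat (nat_lit 744435), .ofNat (nat_lit 803496)⟩, ⟨.ofNat (nat_lit 388613), .ofNat (nat_lit 448634), .ofNat (nat_lit 410890), .ofNat (nat_lit 470911), .ofNat (nat_lit 387912), .ofNat (nat_lit 446973), .ofNat (nat_lit 410329), .ofNat (nat_lit 469390)⟩⟩, [⟨nat_lit 13, nat_lit 57, nat_lit 68, nat_lit 100, nat_lit 272473817⟩, ⟨nat_lit 4, nat_lit 100, nat_lit 55, nat_lit 90, nat_lit 240168875⟩, ⟨nat_lit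 19, nat_lit 100, nat_lit 71, nat_lit 93, nat_lit 57906311⟩]⟩
noncomputable def p112_l23 : Lf2 := ⟨nat_lit 0, nat_lit 20, [nat_lit 5, nat_lit 5, nat_lit 5, nat_lit 20], false, nat_lit 200, nat_lit 232, nat_lit 240, nat_lit 360, ⟨nat_lit 113, nat_lit 887, nat_lit 0, nat_lit 8, nat_lit 304, nat_lit 887, nat_lit 169, nat_lit 0, nat_lit 0, nat_lit 0, nat_lit 0, nat_lit 0, nat_lit 36563007, nat_lit 21938385, nat_lit 8498608, nat_lit 5147194, true, true⟩,
 nat_lit 0, nat_lit 0, nat_lit 1926, nat_lit 0, nat_lit 3475, nat_lit 1069, nat_lit 0, nat_lit 0, nat_lit 0, nat_lit 69, nat_lit 0, nat_lit 0, nat_lit 0, nat_lit 0, nat_lit 0, nat_lit 221750, nat_lit 0, nat_lit 0, [(nat_lit 25, [(nat_lit 0, nat_lit 887)])],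
 ⟨p112_k15, nat_lit 0, nat_lit 0, nat_lit 73, nat_lit 0, nat_lit 0, [nat_lit 783662001, nat_lit 2051481201, nat_lit 2584916000], [], [nat_lit 27428369726, nat_lit 27942608351, nat_lit 28785850437, nat_lit 29263665852, nat_lit 27993605367, nat_lit 28482625391, nat_lit 29283684581, nat_lit 29738646038], nat_lit 0, nat_lit 0, nat_lit 0, nat_lit 0, nat_lit 0, nat_lit 0, [], [nat_lit 55, nat_lit 40, nat_lit 40, nat_lit 80, nat_lit 3, nat_lit 203, nat_lit 0, nat_lit 5]⟩, ⟨p112_k16, nat_lit 0, nat_lit 0, nat_lit 429, nat_lit 0, nat_lit 634775, [nat_lit 529744000, nat_lit 1112146000, nat_lit 1588554000], [], [nat_lit 3570589138, nat_lit 3582725612, nat_lit 3705673777, nat_lit 3722931981, nat_lit 3918527517, nat_lit 3927383280, nat_lit 4023032732, nat_lit 4028726992], nat_lit 1271250, nat_lit 1271250, nat_lit 1271250, nat_lit 1271250, nat_lit 1271250, nat_lit 1271250, [nat_lit 1100000, nat_lit 2127500, nat_lit 1271250], [nat_lit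 56, nat_lit 40, nat_lit 40, nat_lit 80, nat_lit 32, nat_lit 483, nat_lit 250, nat_lit 10]⟩,
 ⟨nat_lit 2236, nat_lit 2739, ⟨.ofNat (nat_lit 733226), .ofNat (nat_lit 780475), .ofNat (nat_lit 744435), .ofNat (nat_lit 791684), .ofNat (nat_lit 727981), .ofNat (nat_lit 773593), .ofNat (nat_lit 739368), .ofNat (nat_lit 784980)⟩, ⟨.ofNat (nat_lit 387912), .ofNat (nat_lit 435161), .ofNat (nat_lit 410329), .ofNat (nat_lit 457578), .ofNat (nat_lit 386127), .ofNat (nat_lit 431740), .ofNat (nat_lit 408901), .ofNat (nat_lit 454514)⟩⟩, [⟨nat_lit 13, nat_lit 50, nat_lit 74, nat_lit 100, nat_lit 101328614⟩, ⟨nat_lit 13, nat_lit 55, nat_lit 68, nat_lit 100, nat_lit 208959262⟩, ⟨nat_lit 16, nat_lit 53, nat_lit 100, nat_lit 93, nat_lit 232251913⟩, ⟨nat_lit 7, nat_lit 71, nat_lit 100, nat_lit 93, nat_lit 44548392⟩]⟩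
noncomputable def b_V_900_600_20_14 : St := ⟨true, nat_lit 0, nat_lit 1, nat_lit 1, nat_lit 120, nat_lit 360, nat_lit 380, nat_lit 240, nat_lit 260, nat_lit 320, nat_lit 376, nat_lit 80, nat_lit 120, nat_lit 160, nat_lit 248, nat_lit 16, nat_lit 364, nat_lit 40, nat_lit 80, nat_lit 0, nat_lit 0, nat_lit 0, nat_lit 0⟩
theorem d_V_900_600_20_14 (h : EB TB.env) : Dead b_V_900_600_20_14 := chkB_sound0 h (T :=
(.trX (nat_lit 13) (nat_lit 63) (nat_lit 61) (nat_lit 100) (nat_lit 364) (.spl (nat_lit 5) (nat_lit 160)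
(.spl (nat_lit 1) (nat_lit 250)
(.trX (nat_lit 13) (nat_lit 62) (nat_lit 65) (nat_lit 100) (nat_lit 360) (.leaf p112_l0))
(.leaf p112_l1))
(.spl (nat_lit 4) (nat_lit 200)
(.trX (nat_lit 22) (nat_lit 80) (nat_lit 60) (nat_lit 100) (nat_lit 360) (.spl (nat_lit 1) (nat_lit 250)
(.trX (nat_lit 13) (nat_lit 62) (nat_lit 65) (nat_lit 100) (nat_lit 360) (.spl (nat_lit 0) (nat_lit 370)
(.leaf p112_l2)
(.trX (nat_lit 13) (nat_lit 54) (nat_lit 71) (nat_lit 100) (nat_lit 348) (.leaf p112_l3))))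
(.spl (nat_lit 3) (nat_lit 100)
(.trX (nat_lit 19) (nat_lit 100) (nat_lit 72) (nat_lit 89) (nat_lit 344) (.spl (nat_lit 0) (nat_lit 370)
(.leaf p112_l4)
(.trX (nat_lit 13) (nat_lit 55) (nat_lit 68) (nat_lit 100) (nat_lit 352) (.spl (nat_lit 0) (nat_lit 375)
(.leaf p112_l5)
(.trX (nat_lit 13) (nat_lit 51) (nat_lit 72) (nat_lit 100) (nat_lit 348) (.leaf p112_l6))))))
(.spl (nat_lit 0) (nat_lit 370)
(.spl (nat_lit 0) (nat_lit 365)
(.leaf p112_l7)
(.trX (nat_lit 13) (nat_lit 59) (nat_lit 65) (nat_lit 100) (nat_lit 360) (.leaf p112_l8)))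
(.trX (nat_lit 13) (nat_lit 55) (nat_lit 68) (nat_lit 100) (nat_lit 352) (.spl (nat_lit 1) (nat_lit 255)
(.leaf p112_l9)
(.trX (nat_lit 19) (nat_lit 100) (nat_lit 66) (nat_lit 95) (nat_lit 356) (.spl (nat_lit 0) (nat_lit 375)
(.leaf p112_l10)
(.trX (nat_lit 13) (nat_lit 51) (nat_lit 72) (nat_lit 100) (nat_lit 348) (.spl (nat_lit 0) (nat_lit 378)
(.leaf p112_l11)
(.trX (nat_lit 13) (nat_lit 48) (nat_lit 75) (nat_lit 100) (nat_lit 344) (.leaf p112_l12))))))))))))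
(.spl (nat_lit 3) (nat_lit 100)
(.trX (nat_lit 16) (nat_lit 60) (nat_lit 100) (nat_lit 87) (nat_lit 224) (.trX (nat_lit 19) (nat_lit 100) (nat_lit 68) (nat_lit 88) (nat_lit 352) (.leaf p112_l13)))
(.spl (nat_lit 5) (nat_lit 240)
(.leaf p112_l14)
(.spl (nat_lit 6) (nat_lit 60)
(.spl (nat_lit 1) (nat_lit 250)
(.trX (nat_lit 13) (nat_lit 62) (nat_lit 65) (nat_lit 100) (nat_lit 360) (.leaf p112_l15))
(.trX (nat_lit 19) (nat_lit 100) (nat_lit 64) (nat_lit 95) (nat_lit 360) (.spl (nat_lit 1) (nat_lit 255)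
(.trX (nat_lit 13) (nat_lit 62) (nat_lit 63) (nat_lit 100) (nat_lit 360) (.leaf p112_l16))
(.trX (nat_lit 19) (nat_lit 100) (nat_lit 66) (nat_lit 95) (nat_lit 356) (.spl (nat_lit 0) (nat_lit 370)
(.leaf p112_l17)
(.trX (nat_lit 13) (nat_lit 55) (nat_lit 68) (nat_lit 100) (nat_lit 352) (.trX (nat_lit 16) (nat_lit 53) (nat_lit 100) (nat_lit 93) (nat_lit 232) (.leaf p112_l18))))))))
(.spl (nat_lit 1) (nat_lit 250)
(.trX (nat_lit 13) (nat_lit 62) (nat_lit 65) (nat_lit 100) (nat_lit 360) (.spl (nat_lit 0) (nat_lit 370)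
(.leaf p112_l19)
(.trX (nat_lit 13) (nat_lit 54) (nat_lit 71) (nat_lit 100) (nat_lit 348) (.trX (nat_lit 16) (nat_lit 53) (nat_lit 100) (nat_lit 93) (nat_lit 232) (.leaf p112_l20)))))
(.trX (nat_lit 19) (nat_lit 100) (nat_lit 64) (nat_lit 95) (nat_lit 360) (.spl (nat_lit 0) (nat_lit 370)
(.spl (nat_lit 0) (nat_lit 365)
(.leaf p112_l21)
(.trX (nat_lit 13) (nat_lit 59) (nat_lit 65) (nat_lit 100) (nat_lit 360) (.trX (nat_lit 16) (nat_lit 58) (nat_lit 100) (nat_lit 93) (nat_lit 240) (.leaf p112_l22))))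
(.trX (nat_lit 13) (nat_lit 55) (nat_lit 68) (nat_lit 100) (nat_lit 352) (.trX (nat_lit 16) (nat_lit 53) (nat_lit 100) (nat_lit 93) (nat_lit 232) (.leaf p112_l23))))))))))))) (by decide +kernel)
noncomputable def p112_l24 : Lf2 := ⟨nat_lit 0, nat_lit 20, [nat_lit 5, nat_lit 5, nat_lit 5, nat_lit 20], false, nat_lit 160, nat_lit 248, nat_lit 16, nat_lit 160, ⟨nat_lit 273, nat_lit 727, nat_lit 0, nat_lit 8, nat_lit 320, nat_lit 727, nat_lit 158, nat_lit 0, nat_lit 0, nat_lit 0, nat_lit 0, nat_lit 0, nat_lit 35835765, nat_lit 23606512, nat_lit 7557723, nat_lit 5083298, true, true⟩,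
 nat_lit 0, nat_lit 0, nat_lit 3501, nat_lit 0, nat_lit 2944, nat_lit 2037, nat_lit 187, nat_lit 0, nat_lit 0, nat_lit 382, nat_lit 0, nat_lit 0, nat_lit 0, nat_lit 0, nat_lit 0, nat_lit 290800, nat_lit 0, nat_lit 0, [(nat_lit 25, [(nat_lit 1, nat_lit 727)])],
 ⟨p112_k0, nat_lit 0, nat_lit 0, nat_lit 89, nat_lit 0, nat_lit 0, [nat_lit 870243601, nat_lit 1624536934, nat_lit 2371600400], [], [nat_lit 25834579672, nat_lit 26309345743, nat_lit 28184491419, nat_lit 28609855875, nat_lit 27479403308, nat_lit 27896997839, nat_lit 29642731308, nat_lit 30083844310], nat_lit 0, nat_lit 0, nat_lit 0, nat_lit 0, nat_lit 0, nat_lit 0, [], [nat_lit 20, nat_lit 40, nat_lit 40, nat_lit 80, nat_lit 16, nat_lit 289, nat_lit 75, nat_lit 9]⟩, ⟨p112_k18, nat_lit 0, nat_lit 0, nat_lit 691, nat_lit 0, nat_lit 1021816, [nat_lit 1279824000, nat_lit 2175264000, nat_lit 3241056000], [], [nat_lit 9092450791, nat_lit 9141631186, nat_lit 9526813698,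 nat_lit 9599784207, nat_lit 8086792878, nat_lit 8120991420, nat_lit 8371252310, nat_lit 8392358242], nat_lit 1271250, nat_lit 1271250, nat_lit 1271250, nat_lit 1271250, nat_lit 88400, nat_lit 1100001, [nat_lit 1100000, nat_lit 1785000, nat_lit 1271250], [nat_lit 21, nat_lit 40, nat_lit 40, nat_lit 80, nat_lit 14, nat_lit 345, nat_lit 125, nat_lit 8]⟩,
 ⟨nat_lit 2738, nat_lit 3163, ⟨.ofNat (nat_lit 749323), .ofNat (nat_lit 834658), .ofNat (nat_lit 771478), .ofNat (nat_lit 856813), .ofNat (nat_lit 744435), .ofNat (nat_lit 827121), .ofNat (nat_lit 766852), .ofNat (nat_lit 849538)⟩, ⟨.ofNat (nat_lit 306116), .ofNat (nat_lit 440213), .ofNat (nat_lit 350426), .ofNat (nat_lit 484523), .ofNat (nat_lit 306433), .ofNat (nat_lit 436368), .ofNat (nat_lit 351268), .ofNat (nat_lit 481203)⟩⟩, [⟨nat_lit 13, nat_lit 60, nat_lit 61, nat_lit 100, nat_lit 174989922⟩, ⟨nat_lit 16, nat_lit 57, nat_lit 100, nat_lit 87, nat_lit 294460024⟩, ⟨nat_lit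 9, nat_lit 100, nat_lit 58, nat_lit 83, nat_lit 880550⟩]⟩
noncomputable def p112_l25 : Lf2 := ⟨nat_lit 0, nat_lit 20, [nat_lit 5, nat_lit 5, nat_lit 5, nat_lit 20], false, nat_lit 160, nat_lit 232, nat_lit 16, nat_lit 160, ⟨nat_lit 197, nat_lit 803, nat_lit 0, nat_lit 8, nat_lit 315, nat_lit 803, nat_lit 152, nat_lit 0, nat_lit 0, nat_lit 0, nat_lit 0, nat_lit 0, nat_lit 36436558, nat_lit 23310493, nat_lit 7252949, nat_lit 5030023, true, true⟩,
 nat_lit 0, nat_lit 0, nat_lit 2734, nat_lit 0, nat_lit 2698, nat_lit 1591, nat_lit 254, nat_lit 0, nat_lit 0, nat_lit 209, nat_lit 0, nat_lit 0, nat_lit 0, nat_lit 0, nat_lit 0, nat_lit 200750, nat_lit 0, nat_lit 0, [(nat_lit 25, [(nat_lit 0, nat_lit 803)])],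
 ⟨p112_k3, nat_lit 0, nat_lit 0, nat_lit 90, nat_lit 0, nat_lit 0, [nat_lit 798278001, nat_lit 1745700400, nat_lit 2932004000], [], [nat_lit 26082888887, nat_lit 26540633141, nat_lit 27954809767, nat_lit 28368358843, nat_lit 27353096630, nat_lit 27767417166, nat_lit 29088978341, nat_lit 29543744137], nat_lit 0, nat_lit 0, nat_lit 0, nat_lit 0, nat_lit 0, nat_lit 0, [], [nat_lit 20, nat_lit 40, nat_lit 40, nat_lit 80, nat_lit 16, nat_lit 272, nat_lit 60, nat_lit 8]⟩, ⟨p112_k18, nat_lit 0, nat_lit 0, nat_lit 759, nat_lit 0, nat_lit 1204723, [nat_lit 923536000, nat_lit 1569696000, nat_lit 2338784000], [], [nat_lit 6713965937, nat_lit 6746812883, nat_lit 6933429132, nat_lit 6975508213, nat_lit 5837175534, nat_lit 5858800288, nat_lit 6016027899, nat_lit 6027314472], nat_lit 1271250, nat_lit 1271250, nat_lit 1271250, nat_lit 1271250, nat_lit 88400, nat_lit 1100001, [nat_lit 1100000, nat_lit 1785000, nat_lit 1271250], [nat_lit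 21, nat_lit 40, nat_lit 40, nat_lit 80, nat_lit 14, nat_lit 345, nat_lit 125, nat_lit 8]⟩,
 ⟨nat_lit 2236, nat_lit 2739, ⟨.ofNat (nat_lit 744435), .ofNat (nat_lit 815308), .ofNat (nat_lit 766852), .ofNat (nat_lit 837726), .ofNat (nat_lit 739368), .ofNat (nat_lit 807787), .ofNat (nat_lit 762142), .ofNat (nat_lit 830561)⟩, ⟨.ofNat (nat_lit 306433), .ofNat (nat_lit 412743), .ofNat (nat_lit 351268), .ofNat (nat_lit 457578), .ofNat (nat_lit 306337), .ofNat (nat_lit 408965), .ofNat (nat_lit 351886), .ofNat (nat_lit 454514)⟩⟩, [⟨nat_lit 13, nat_lit 52, nat_lit 69, nat_lit 100, nat_lit 256193439⟩, ⟨nat_lit 4, nat_lit 100, nat_lit 48, nat_lit 87, nat_lit 338282189⟩, ⟨nat_lit 9, nat_lit 100, nat_lit 69, nat_lit 71, nat_lit 1618561⟩]⟩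
noncomputable def b_V_900_600_20_15 : St := ⟨true, nat_lit 0, nat_lit 1, nat_lit 1, nat_lit 120, nat_lit 360, nat_lit 380, nat_lit 260, nat_lit 280, nat_lit 320, nat_lit 376, nat_lit 80, nat_lit 120, nat_lit 160, nat_lit 248, nat_lit 16, nat_lit 160, nat_lit 40, nat_lit 80, nat_lit 0, nat_lit 0, nat_lit 0, nat_lit 0⟩
theorem d_V_900_600_20_15 (h : EB TB.env) : Dead b_V_900_600_20_15 := chkB_sound0 h (T :=
(.spl (nat_lit 0) (nat_lit 370)
(.leaf p112_l24)
(.trX (nat_lit 13) (nat_lit 57) (nat_lit 62) (nat_lit 100) (nat_lit 368) (.trX (nat_lit 16) (nat_lit 53) (nat_lit 100) (nat_lit 93) (nat_lit 232) (.leaf p112_l25))))) (by decide +kernel)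
noncomputable def p112_l26 : Lf2 := ⟨nat_lit 0, nat_lit 20, [nat_lit 5, nat_lit 5, nat_lit 5, nat_lit 20], false, nat_lit 160, nat_lit 248, nat_lit 160, nat_lit 240, ⟨nat_lit 226, nat_lit 774, nat_lit 0, nat_lit 8, nat_lit 317, nat_lit 774, nat_lit 158, nat_lit 0, nat_lit 0, nat_lit 0, nat_lit 0, nat_lit 0, nat_lit 36094958, nat_lit 23307253, nat_lit 7597789, nat_lit 5078653, true, true⟩,
 nat_lit 0, nat_lit 0, nat_lit 3197, nat_lit 0, nat_lit 2879, nat_lit 1860, nat_lit 173, nat_lit 0, nat_lit 0, nat_lit 223, nat_lit 0, nat_lit 0, nat_lit 0, nat_lit 0, nat_lit 0, nat_lit 309600, nat_lit 0, nat_lit 0, [(nat_lit 25, [(nat_lit 1, nat_lit 774)])],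
 ⟨p112_k0, nat_lit 0, nat_lit 0, nat_lit 86, nat_lit 0, nat_lit 0, [nat_lit 865863201, nat_lit 1517383200, nat_lit 2120864800], [], [nat_lit 25746956962, nat_lit 26215728279, nat_lit 27879111556, nat_lit 28305233091, nat_lit 27398084246, nat_lit 27821222870, nat_lit 29403616878, nat_lit 29826399910], nat_lit 0, nat_lit 0, nat_lit 0, nat_lit 0, nat_lit 0, nat_lit 0, [], [nat_lit 20, nat_lit 40, nat_lit 40, nat_lit 80, nat_lit 16, nat_lit 289, nat_lit 75, nat_lit 9]⟩, ⟨p112_k18, nat_lit 0, nat_lit 0, nat_lit 552, nat_lit 0, nat_lit 950154, [nat_lit 1059488000, nat_lit 1800768000, nat_lit 2683072000], [], [nat_lit 6203626608, nat_lit 6250800612, nat_lit 6687017296, nat_lit 6722355886, nat_lit 6260818292, nat_lit 6297069642, nat_lit 6670512143, nat_lit 6696424315], nat_lit 1271250, nat_lit 1271250, nat_lit 1271250, nat_lit 1271250, nat_lit 1100001, nat_lit 1785000, [nat_lit 1100000, nat_lit 1785000, nat_lit 1271250], [nat_lit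 21, nat_lit 40, nat_lit 40, nat_lit 80, nat_lit 14, nat_lit 373, nat_lit 150, nat_lit 9]⟩,
 ⟨nat_lit 2738, nat_lit 3163, ⟨.ofNat (nat_lit 749323), .ofNat (nat_lit 828563), .ofNat (nat_lit 760401), .ofNat (nat_lit 839640), .ofNat (nat_lit 744435), .ofNat (nat_lit 821214), .ofNat (nat_lit 755643), .ofNat (nat_lit 832423)⟩, ⟨.ofNat (nat_lit 306116), .ofNat (nat_lit 440213), .ofNat (nat_lit 350426), .ofNat (nat_lit 484523), .ofNat (nat_lit 306433), .ofNat (nat_lit 436368), .ofNat (nat_lit 351268), .ofNat (nat_lit 481203)⟩⟩, [⟨nat_lit 13, nat_lit 60, nat_lit 63, nat_lit 100, nat_lit 210466072⟩, ⟨nat_lit 4, nat_lit 100, nat_lit 57, nat_lit 87, nat_lit 279634516⟩]⟩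
noncomputable def p112_l27 : Lf2 := ⟨nat_lit 0, nat_lit 20, [nat_lit 5, nat_lit 5, nat_lit 5, nat_lit 20], false, nat_lit 160, nat_lit 232, nat_lit 160, nat_lit 240, ⟨nat_lit 191, nat_lit 809, nat_lit 0, nat_lit 8, nat_lit 311, nat_lit 809, nat_lit 152, nat_lit 0, nat_lit 0, nat_lit 0, nat_lit 0, nat_lit 0, nat_lit 36790476, nat_lit 22905869, nat_lit 7303655, nat_lit 5022493, true, true⟩,
 nat_lit 0, nat_lit 0, nat_lit 2757, nat_lit 0, nat_lit 2641, nat_lit 1604, nat_lit 270, nat_lit 0, nat_lit 0, nat_lit 196, nat_lit 0, nat_lit 0, nat_lit 0, nat_lit 0, nat_lit 0, nat_lit 202250, nat_lit 0, nat_lit 0, [(nat_lit 25, [(nat_lit 0, nat_lit 809)])],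
 ⟨p112_k3, nat_lit 0, nat_lit 0, nat_lit 85, nat_lit 0, nat_lit 0, [nat_lit 797234001, nat_lit 1734221201, nat_lit 2907212000], [], [nat_lit 25950881988, nat_lit 26405153631, nat_lit 27483934872, nat_lit 27901848211, nat_lit 27227054279, nat_lit 27638487639, nat_lit 28694713875, nat_lit 29123894150], nat_lit 0, nat_lit 0, nat_lit 0, nat_lit 0, nat_lit 0, nat_lit 0, [], [nat_lit 20, nat_lit 40, nat_lit 40, nat_lit 80, nat_lit 16, nat_lit 272, nat_lit 60, nat_lit 8]⟩, ⟨p112_k18, nat_lit 0, nat_lit 0, nat_lit 651, nat_lit 0, nat_lit 1137793, [nat_lit 895408000, nat_lit 1521888000, nat_lit 2267552000], [], [nat_lit 5283896538, nat_lit 5306477295, nat_lit 5495145558, nat_lit 5512011251, nat_lit 5241831878, nat_lit 5257421735, nat_lit 5417226104, nat_lit 5447334861], nat_lit 1271250, nat_lit 1271250, nat_lit 1271250, nat_lit 1271250, nat_lit 1100001, nat_lit 1785000, [nat_lit 1100000, nat_lit 1785000, nat_lit 1271250], [nat_lit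 21, nat_lit 40, nat_lit 40, nat_lit 80, nat_lit 14, nat_lit 373, nat_lit 150, nat_lit 9]⟩,
 ⟨nat_lit 2236, nat_lit 2739, ⟨.ofNat (nat_lit 744435), .ofNat (nat_lit 803496), .ofNat (nat_lit 755643), .ofNat (nat_lit 814705), .ofNat (nat_lit 739368), .ofNat (nat_lit 796384), .ofNat (nat_lit 750755), .ofNat (nat_lit 807771)⟩, ⟨.ofNat (nat_lit 306433), .ofNat (nat_lit 412743), .ofNat (nat_lit 351268), .ofNat (nat_lit 457578), .ofNat (nat_lit 306337), .ofNat (nat_lit 408965), .ofNat (nat_lit 351886), .ofNat (nat_lit 454514)⟩⟩, [⟨nat_lit 13, nat_lit 51, nat_lit 71, nat_lit 100, nat_lit 97188424⟩, ⟨nat_lit 13, nat_lit 46, nat_lit 76, nat_lit 100, nat_lit 177008101⟩, ⟨nat_lit 4, nat_lit 100, nat_lit 48, nat_lit 87, nat_lit 336032681⟩]⟩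
noncomputable def p112_l28 : Lf2 := ⟨nat_lit 0, nat_lit 20, [nat_lit 5, nat_lit 5, nat_lit 5, nat_lit 20], false, nat_lit 160, nat_lit 248, nat_lit 160, nat_lit 240, ⟨nat_lit 269, nat_lit 731, nat_lit 0, nat_lit 8, nat_lit 321, nat_lit 731, nat_lit 157, nat_lit 0, nat_lit 0, nat_lit 0, nat_lit 0, nat_lit 0, nat_lit 35779041, nat_lit 23701505, nat_lit 7519454, nat_lit 5081120, true, true⟩,
 nat_lit 0, nat_lit 0, nat_lit 3187, nat_lit 0, nat_lit 2913, nat_lit 1940, nat_lit 186, nat_lit 0, nat_lit 0, nat_lit 296, nat_lit 0, nat_lit 0, nat_lit 0, nat_lit 0, nat_lit 0, nat_lit 287750, nat_lit 0, nat_lit 0, [(nat_lit 25, [(nat_lit 0, nat_lit 31), (nat_lit 1, nat_lit 700)])],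
 ⟨p112_k0, nat_lit 0, nat_lit 0, nat_lit 96, nat_lit 0, nat_lit 0, [nat_lit 867366001, nat_lit 1626784134, nat_lit 2387548000], [], [nat_lit 25882133443, nat_lit 26823818841, nat_lit 28212535557, nat_lit 29062660331, nat_lit 27529963434, nat_lit 28359325211, nat_lit 29649463170, nat_lit 30493395942], nat_lit 0, nat_lit 0, nat_lit 0, nat_lit 0, nat_lit 0, nat_lit 0, [], [nat_lit 20, nat_lit 40, nat_lit 40, nat_lit 80, nat_lit 16, nat_lit 289, nat_lit 75, nat_lit 9]⟩, ⟨p112_k19, nat_lit 0, nat_lit 0, nat_lit 644, nat_lit 0, nat_lit 1126501, [nat_lit 1261072000, nat_lit 2143392000, nat_lit 3193568000], [], [nat_lit 7755444018, nat_lit 7780963284, nat_lit 8091194702, nat_lit 8108238444, nat_lit 7709230165, nat_lit 7727248560, nat_lit 7992020798, nat_lit 8002496221], nat_lit 1271250, nat_lit 1271250, nat_lit 1271250, nat_lit 1271250, nat_lit 1100001, nat_lit 1785000, [nat_lit 1100000, nat_lit 1785000, nat_lit 1271250], [nat_lit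 21, nat_lit 40, nat_lit 40, nat_lit 80, nat_lit 14, nat_lit 373, nat_lit 150, nat_lit 8]⟩,
 ⟨nat_lit 2236, nat_lit 3163, ⟨.ofNat (nat_lit 760401), .ofNat (nat_lit 845735), .ofNat (nat_lit 771478), .ofNat (nat_lit 856813), .ofNat (nat_lit 750755), .ofNat (nat_lit 830577), .ofNat (nat_lit 762142), .ofNat (nat_lit 841964)⟩, ⟨.ofNat (nat_lit 306116), .ofNat (nat_lit 440213), .ofNat (nat_lit 350426), .ofNat (nat_lit 484523), .ofNat (nat_lit 306337), .ofNat (nat_lit 431772), .ofNat (nat_lit 351886), .ofNat (nat_lit 477320)⟩⟩, [⟨nat_lit 13, nat_lit 57, nat_lit 64, nat_lit 100, nat_lit 152390660⟩, ⟨nat_lit 13, nat_lit 47, nat_lit 74, nat_lit 100, nat_lit 66768039⟩, ⟨nat_lit 4, nat_lit 100, nat_lit 53, nat_lit 87, nat_lit 332747044⟩]⟩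
noncomputable def b_V_900_600_20_16 : St := ⟨true, nat_lit 0, nat_lit 1, nat_lit 1, nat_lit 120, nat_lit 360, nat_lit 380, nat_lit 260, nat_lit 280, nat_lit 320, nat_lit 376, nat_lit 80, nat_lit 120, nat_lit 160, nat_lit 248, nat_lit 160, nat_lit 240, nat_lit 40, nat_lit 80, nat_lit 0, nat_lit 0, nat_lit 0, nat_lit 0⟩
theorem d_V_900_600_20_16 (h : EB TB.env) : Dead b_V_900_600_20_16 := chkB_sound0 h (T :=
(.spl (nat_lit 1) (nat_lit 270)
(.trX (nat_lit 13) (nat_lit 64) (nat_lit 58) (nat_lit 100) (nat_lit 372) (.spl (nat_lit 0) (nat_lit 370)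
(.leaf p112_l26)
(.trX (nat_lit 13) (nat_lit 56) (nat_lit 65) (nat_lit 100) (nat_lit 360) (.trX (nat_lit 16) (nat_lit 53) (nat_lit 100) (nat_lit 93) (nat_lit 232) (.leaf p112_l27)))))
(.leaf p112_l28))) (by decide +kernel)
noncomputable def p112_l29 : Lf2 := ⟨nat_lit 0, nat_lit 20, [nat_lit 5, nat_lit 5, nat_lit 5, nat_lit 20], false, nat_lit 160, nat_lit 224, nat_lit 240, nat_lit 336, ⟨nat_lit 132, nat_lit 868, nat_lit 0, nat_lit 8, nat_lit 313, nat_lit 868, nat_lit 146, nat_lit 0, nat_lit 0, nat_lit 0, nat_lit 0, nat_lit 0, nat_lit 36900179, nat_lit 23266395, nat_lit 6833426, nat_lit 4966667, true, true⟩,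
 nat_lit 0, nat_lit 0, nat_lit 1765, nat_lit 0, nat_lit 5157, nat_lit 1027, nat_lit 0, nat_lit 0, nat_lit 0, nat_lit 107, nat_lit 0, nat_lit 0, nat_lit 0, nat_lit 0, nat_lit 0, nat_lit 217000, nat_lit 0, nat_lit 0, [(nat_lit 25, [(nat_lit 0, nat_lit 868)])],
 ⟨p112_k0, nat_lit 0, nat_lit 0, nat_lit 0, nat_lit 0, nat_lit 0, [nat_lit 786968001, nat_lit 1621342401, nat_lit 2663424000], [], [nat_lit 26736867520, nat_lit 27977230588, nat_lit 29232109097, nat_lit 30325104381, nat_lit 27685396516, nat_lit 28800188849, nat_lit 29919763109, nat_lit 30904637338], nat_lit 0, nat_lit 0, nat_lit 0, nat_lit 0, nat_lit 0, nat_lit 0, [], [nat_lit 20, nat_lit 40, nat_lit 40, nat_lit 80]⟩, ⟨p112_k18, nat_lit 0, nat_lit 0, nat_lit 578, nat_lit 0, nat_lit 1078922, [nat_lit 618816000, nat_lit 1051776000, nat_lit 1567104000], [], [nat_lit 4155939528, nat_lit 4161795441, nat_lit 4304251751, nat_lit 4308132602, nat_lit 4308986874, nat_lit 4311632784,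 nat_lit 4419576058, nat_lit 4423950428], nat_lit 1271250, nat_lit 1271250, nat_lit 1271250, nat_lit 1271250, nat_lit 1271250, nat_lit 1271250, [nat_lit 1100000, nat_lit 1785000, nat_lit 1271250], [nat_lit 21, nat_lit 40, nat_lit 40, nat_lit 80, nat_lit 14, nat_lit 401, nat_lit 175, nat_lit 9]⟩,
 ⟨nat_lit 2236, nat_lit 3163, ⟨.ofNat (nat_lit 749323), .ofNat (nat_lit 822467), .ofNat (nat_lit 754862), .ofNat (nat_lit 828006), .ofNat (nat_lit 739368), .ofNat (nat_lit 807787), .ofNat (nat_lit 745062), .ofNat (nat_lit 813480)⟩, ⟨.ofNat (nat_lit 306116), .ofNat (nat_lit 403641), .ofNat (nat_lit 328271), .ofNat (nat_lit 425796), .ofNat (nat_lit 306337), .ofNat (nat_lit 397562), .ofNat (nat_lit 329112), .ofNat (nat_lit 420336)⟩⟩, [⟨nat_lit 13, nat_lit 55, nat_lit 68, nat_lit 100, nat_lit 317583742⟩, ⟨nat_lit 4, nat_lit 100, nat_lit 53, nat_lit 84, nat_lit 198451237⟩, ⟨nat_lit 19, nat_lit 100, nat_lit 77, nat_lit 91, nat_lit 42436332⟩]⟩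
noncomputable def p112_l30 : Lf2 := ⟨nat_lit 0, nat_lit 20, [nat_lit 5, nat_lit 5, nat_lit 5, nat_lit 20], false, nat_lit 160, nat_lit 224, nat_lit 240, nat_lit 332, ⟨nat_lit 224, nat_lit 776, nat_lit 0, nat_lit 8, nat_lit 318, nat_lit 776, nat_lit 146, nat_lit 0, nat_lit 0, nat_lit 0, nat_lit 0, nat_lit 0, nat_lit 36520341, nat_lit 23674443, nat_lit 6805216, nat_lit 4976905, true, true⟩,
 nat_lit 0, nat_lit 0, nat_lit 2773, nat_lit 0, nat_lit 3775, nat_lit 1651, nat_lit 209, nat_lit 0, nat_lit 0, nat_lit 188, nat_lit 0, nat_lit 0, nat_lit 0, nat_lit 0, nat_lit 0, nat_lit 194000, nat_lit 0, nat_lit 0, [(nat_lit 25, [(nat_lit 0, nat_lit 776)])],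
 ⟨p112_k0, nat_lit 0, nat_lit 0, nat_lit 0, nat_lit 0, nat_lit 0, [nat_lit 802976001, nat_lit 1797356800, nat_lit 3043568000], [], [nat_lit 25993821125, nat_lit 26527680175, nat_lit 28376442865, nat_lit 28847512240, nat_lit 27065633365, nat_lit 27549683475, nat_lit 29222900993, nat_lit 29651324376], nat_lit 0, nat_lit 0, nat_lit 0, nat_lit 0, nat_lit 0, nat_lit 0, [], [nat_lit 20, nat_lit 40, nat_lit 40, nat_lit 80]⟩, ⟨p112_k20, nat_lit 0, nat_lit 0, nat_lit 507, nat_lit 0, nat_lit 895317, [nat_lit 1050112000, nat_lit 1784832000, nat_lit 2659328000], [], [nat_lit 6755426881, nat_lit 6769594230, nat_lit 7133440595, nat_lit 7147170201, nat_lit 7142192633, nat_lit 7153961845, nat_lit 7443510506, nat_lit 7460853686], nat_lit 1271250, nat_lit 1271250, nat_lit 1271250, nat_lit 1271250, nat_lit 1271250, nat_lit 1271250, [nat_lit 1100000, nat_lit 1785000, nat_lit 1271250], [nat_lit 21, nat_lit 40, nat_lit 40, nat_lit 80, nat_lit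 14, nat_lit 401, nat_lit 175, nat_lit 9]⟩,
 ⟨nat_lit 2738, nat_lit 3163, ⟨.ofNat (nat_lit 754862), .ofNat (nat_lit 834101), .ofNat (nat_lit 760401), .ofNat (nat_lit 839640), .ofNat (nat_lit 750039), .ofNat (nat_lit 826819), .ofNat (nat_lit 755643), .ofNat (nat_lit 832423)⟩, ⟨.ofNat (nat_lit 306116), .ofNat (nat_lit 403641), .ofNat (nat_lit 328271), .ofNat (nat_lit 425796), .ofNat (nat_lit 306433), .ofNat (nat_lit 400931), .ofNat (nat_lit 328850), .ofNat (nat_lit 423348)⟩⟩, [⟨nat_lit 13, nat_lit 56, nat_lit 67, nat_lit 100, nat_lit 235119293⟩, ⟨nat_lit 16, nat_lit 57, nat_lit 100, nat_lit 84, nat_lit 250269288⟩, ⟨nat_lit 19, nat_lit 100, nat_lit 80, nat_lit 92, nat_lit 78179035⟩]⟩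
noncomputable def p112_l31 : Lf2 := ⟨nat_lit 0, nat_lit 20, [nat_lit 5, nat_lit 5, nat_lit 5, nat_lit 20], false, nat_lit 160, nat_lit 208, nat_lit 240, nat_lit 332, ⟨nat_lit 160, nat_lit 840, nat_lit 0, nat_lit 8, nat_lit 312, nat_lit 840, nat_lit 141, nat_lit 0, nat_lit 0, nat_lit 0, nat_lit 0, nat_lit 0, nat_lit 37214170, nat_lit 23261046, nat_lit 6524784, nat_lit 4919222, true, true⟩,
 nat_lit 0, nat_lit 0, nat_lit 2026, nat_lit 0, nat_lit 4787, nat_lit 1206, nat_lit 60, nat_lit 0, nat_lit 0, nat_lit 135, nat_lit 0, nat_lit 0, nat_lit 0, nat_lit 0, nat_lit 0, nat_lit 210000, nat_lit 0, nat_lit 0, [(nat_lit 25, [(nat_lit 0, nat_lit 840)])],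
 ⟨p112_k3, nat_lit 0, nat_lit 0, nat_lit 0, nat_lit 0, nat_lit 0, [nat_lit 791840000, nat_lit 1674912000, nat_lit 2779120000], [], [nat_lit 27028640914, nat_lit 27625711508, nat_lit 28952489520, nat_lit 29491582076, nat_lit 27720309026, nat_lit 28272896208, nat_lit 29495780658, nat_lit 29998363842], nat_lit 0, nat_lit 0, nat_lit 0, nat_lit 0, nat_lit 0, nat_lit 0, [], [nat_lit 20, nat_lit 40, nat_lit 40, nat_lit 80]⟩, ⟨p112_k20, nat_lit 0, nat_lit 0, nat_lit 574, nat_lit 0, nat_lit 1072416, [nat_lit 750080000, nat_lit 1274880000, nat_lit 1899520000], [], [nat_lit 4944968182, nat_lit 4952289676, nat_lit 5087565700, nat_lit 5092951880, nat_lit 5116969202, nat_lit 5120666756, nat_lit 5224512634, nat_lit 5226578238], nat_lit 1271250, nat_lit 1271250, nat_lit 1271250, nat_lit 1271250, nat_lit 1271250, nat_lit 1271250, [nat_lit 1100000, nat_lit 1785000, nat_lit 1271250], [nat_lit 21, nat_lit 40, nat_lit 40, nat_lit 80, nat_lit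 14, nat_lit 401, nat_lit 175, nat_lit 9]⟩,
 ⟨nat_lit 2236, nat_lit 2739, ⟨.ofNat (nat_lit 750039), .ofNat (nat_lit 809100), .ofNat (nat_lit 755643), .ofNat (nat_lit 814705), .ofNat (nat_lit 745062), .ofNat (nat_lit 802077), .ofNat (nat_lit 750755), .ofNat (nat_lit 807771)⟩, ⟨.ofNat (nat_lit 306433), .ofNat (nat_lit 377306), .ofNat (nat_lit 328850), .ofNat (nat_lit 399724), .ofNat (nat_lit 306337), .ofNat (nat_lit 374756), .ofNat (nat_lit 329112), .ofNat (nat_lit 397530)⟩⟩, [⟨nat_lit 13, nat_lit 51, nat_lit 70, nat_lit 100, nat_lit 318497171⟩, ⟨nat_lit 16, nat_lit 49, nat_lit 100, nat_lit 84, nat_lit 245044725⟩, ⟨nat_lit 19, nat_lit 100, nat_lit 80, nat_lit 92, nat_lit 50754459⟩]⟩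
noncomputable def p112_l32 : Lf2 := ⟨nat_lit 0, nat_lit 20, [nat_lit 5, nat_lit 5, nat_lit 5, nat_lit 20], false, nat_lit 160, nat_lit 200, nat_lit 240, nat_lit 352, ⟨nat_lit 134, nat_lit 866, nat_lit 0, nat_lit 8, nat_lit 317, nat_lit 866, nat_lit 148, nat_lit 0, nat_lit 0, nat_lit 0, nat_lit 0, nat_lit 0, nat_lit 36532632, nat_lit 23536888, nat_lit 6930480, nat_lit 4990851, true, true⟩,
 nat_lit 0, nat_lit 0, nat_lit 1721, nat_lit 0, nat_lit 5305, nat_lit 1001, nat_lit 0, nat_lit 0, nat_lit 0, nat_lit 105, nat_lit 0, nat_lit 0, nat_lit 0, nat_lit 0, nat_lit 0, nat_lit 216500, nat_lit 0, nat_lit 0, [(nat_lit 25, [(nat_lit 0, nat_lit 866)])],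
 ⟨p112_k0, nat_lit 0, nat_lit 0, nat_lit 0, nat_lit 0, nat_lit 0, [nat_lit 787316001, nat_lit 1625168800, nat_lit 2671688000], [], [nat_lit 26686428800, nat_lit 27315854710, nat_lit 29441142868, nat_lit 29988964694, nat_lit 27271007830, nat_lit 27860324348, nat_lit 29844892394, nat_lit 30358481160], nat_lit 0, nat_lit 0, nat_lit 0, nat_lit 0, nat_lit 0, nat_lit 0, [], [nat_lit 20, nat_lit 40, nat_lit 40, nat_lit 80]⟩, ⟨p112_k18, nat_lit 0, nat_lit 0, nat_lit 422, nat_lit 0, nat_lit 745131, [nat_lit 628192000, nat_lit 1067712000, nat_lit 1590848000], [], [nat_lit 4209104503, nat_lit 4224158825, nat_lit 4399212505, nat_lit 4415238266, nat_lit 4480583514, nat_lit 4492649028, nat_lit 4652065503, nat_lit 4659640724], nat_lit 1271250, nat_lit 1271250, nat_lit 1271250, nat_lit 1271250, nat_lit 1271250, nat_lit 1271250, [nat_lit 1100000, nat_lit 1785000, nat_lit 1271250], [nat_lit 21, nat_lit 40, nat_lit 40, nat_lit 80, nat_lit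 14, nat_lit 401, nat_lit 175, nat_lit 9]⟩,
 ⟨nat_lit 2738, nat_lit 3163, ⟨.ofNat (nat_lit 749323), .ofNat (nat_lit 828563), .ofNat (nat_lit 760401), .ofNat (nat_lit 839640), .ofNat (nat_lit 744435), .ofNat (nat_lit 821214), .ofNat (nat_lit 755643), .ofNat (nat_lit 832423)⟩, ⟨.ofNat (nat_lit 328271), .ofNat (nat_lit 389224), .ofNat (nat_lit 350426), .ofNat (nat_lit 411379), .ofNat (nat_lit 328850), .ofNat (nat_lit 387912), .ofNat (nat_lit 351268), .ofNat (nat_lit 410329)⟩⟩, [⟨nat_lit 13, nat_lit 60, nat_lit 63, nat_lit 100, nat_lit 165287147⟩, ⟨nat_lit 13, nat_lit 55, nat_lit 68, nat_lit 100, nat_lit 78349250⟩, ⟨nat_lit 22, nat_lit 69, nat_lit 80, nat_lit 100, nat_lit 64560040⟩]⟩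
noncomputable def p112_l33 : Lf2 := ⟨nat_lit 0, nat_lit 20, [nat_lit 5, nat_lit 5, nat_lit 5, nat_lit 20], false, nat_lit 160, nat_lit 200, nat_lit 240, nat_lit 352, ⟨nat_lit 92, nat_lit 908, nat_lit 0, nat_lit 8, nat_lit 311, nat_lit 908, nat_lit 148, nat_lit 0, nat_lit 0, nat_lit 0, nat_lit 0, nat_lit 0, nat_lit 37005029, nat_lit 23012337, nat_lit 6982634, nat_lit 4979548, true, true⟩,
 nat_lit 0, nat_lit 0, nat_lit 1473, nat_lit 0, nat_lit 4198, nat_lit 857, nat_lit 0, nat_lit 0, nat_lit 0, nat_lit 44, nat_lit 0, nat_lit 0, nat_lit 0, nat_lit 0, nat_lit 0, nat_lit 227000, nat_lit 0, nat_lit 0, [(nat_lit 25, [(nat_lit 0, nat_lit 908)])],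
 ⟨p112_k15, nat_lit 0, nat_lit 0, nat_lit 0, nat_lit 0, nat_lit 0, [nat_lit 780008001, nat_lit 1989060801, nat_lit 2498144000], [], [nat_lit 26477050439, nat_lit 27072399269, nat_lit 28416550737, nat_lit 28955363473, nat_lit 27144956423, nat_lit 27704205413, nat_lit 28964178314, nat_lit 29471051843], nat_lit 0, nat_lit 0, nat_lit 0, nat_lit 0, nat_lit 0, nat_lit 0, [], [nat_lit 55, nat_lit 40, nat_lit 40, nat_lit 80]⟩, ⟨p112_k21, nat_lit 0, nat_lit 0, nat_lit 522, nat_lit 0, nat_lit 925084, [nat_lit 431296000, nat_lit 905464000, nat_lit 1092224000], [], [nat_lit 3001102198, nat_lit 3007727039, nat_lit 3092538550, nat_lit 3096319595, nat_lit 3133262765, nat_lit 3135822287, nat_lit 3272969753, nat_lit 3284930155], nat_lit 1271250, nat_lit 1271250, nat_lit 1271250, nat_lit 1271250, nat_lit 1271250, nat_lit 1271250, [nat_lit 1100000, nat_lit 2127500, nat_lit 1271250], [nat_lit 125, nat_lit 40, nat_lit 40, nat_lit 80, nat_lit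 41, nat_lit 401, nat_lit 175, nat_lit 9]⟩,
 ⟨nat_lit 2236, nat_lit 2739, ⟨.ofNat (nat_lit 744435), .ofNat (nat_lit 803496), .ofNat (nat_lit 755643), .ofNat (nat_lit 814705), .ofNat (nat_lit 739368), .ofNat (nat_lit 796384), .ofNat (nat_lit 750755), .ofNat (nat_lit 807771)⟩, ⟨.ofNat (nat_lit 328850), .ofNat (nat_lit 387912), .ofNat (nat_lit 351268), .ofNat (nat_lit 410329), .ofNat (nat_lit 329112), .ofNat (nat_lit 386127), .ofNat (nat_lit 351886), .ofNat (nat_lit 408901)⟩⟩, [⟨nat_lit 13, nat_lit 46, nat_lit 76, nat_lit 100, nat_lit 381555623⟩, ⟨nat_lit 7, nat_lit 76, nat_lit 100, nat_lit 94, nat_lit 4332024⟩, ⟨nat_lit 22, nat_lit 72, nat_lit 77, nat_lit 100, nat_lit 34380653⟩]⟩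
noncomputable def p112_l34 : Lf2 := ⟨nat_lit 0, nat_lit 20, [nat_lit 5, nat_lit 5, nat_lit 5, nat_lit 20], false, nat_lit 200, nat_lit 248, nat_lit 240, nat_lit 352, ⟨nat_lit 96, nat_lit 904, nat_lit 0, nat_lit 8, nat_lit 306, nat_lit 904, nat_lit 174, nat_lit 0, nat_lit 0, nat_lit 0, nat_lit 0, nat_lit 0, nat_lit 36164457, nat_lit 22003601, nat_lit 8831942, nat_lit 5192071, true, true⟩,
 nat_lit 0, nat_lit 0, nat_lit 1520, nat_lit 0, nat_lit 4247, nat_lit 884, nat_lit 0, nat_lit 0, nat_lit 0, nat_lit 52, nat_lit 0, nat_lit 0, nat_lit 0, nat_lit 0, nat_lit 0, nat_lit 226000, nat_lit 0, nat_lit 0, [(nat_lit 25, [(nat_lit 0, nat_lit 904)])],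
 ⟨p112_k8, nat_lit 0, nat_lit 0, nat_lit 0, nat_lit 0, nat_lit 0, [nat_lit 780704001, nat_lit 2000950401, nat_lit 2514672000], [], [nat_lit 26579569149, nat_lit 27704168119, nat_lit 27519746563, nat_lit 28591506067, nat_lit 27520290945, nat_lit 28556317910, nat_lit 28383830131, nat_lit 29372048662], nat_lit 0, nat_lit 0, nat_lit 0, nat_lit 0, nat_lit 0, nat_lit 0, [], [nat_lit 55, nat_lit 40, nat_lit 40, nat_lit 80]⟩, ⟨p112_k21, nat_lit 0, nat_lit 0, nat_lit 522, nat_lit 0, nat_lit 925084, [nat_lit 450048000, nat_lit 944832000, nat_lit 1139712000], [], [nat_lit 3119428696, nat_lit 3126464940, nat_lit 3167028152, nat_lit 3172594980, nat_lit 3258053287, nat_lit 3258377634, nat_lit 3298164454, nat_lit 3305040651], nat_lit 1271250, nat_lit 1271250, nat_lit 1271250, nat_lit 1271250, nat_lit 1271250, nat_lit 1271250, [nat_lit 1100000, nat_lit 2127500, nat_lit 1271250], [nat_lit 125, nat_lit 40, nat_lit 40, nat_lit 80, nat_lit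 41, nat_lit 401, nat_lit 175, nat_lit 9]⟩,
 ⟨nat_lit 2236, nat_lit 3163, ⟨.ofNat (nat_lit 749323), .ofNat (nat_lit 779800), .ofNat (nat_lit 760401), .ofNat (nat_lit 790877), .ofNat (nat_lit 739368), .ofNat (nat_lit 767876), .ofNat (nat_lit 750755), .ofNat (nat_lit 779263)⟩, ⟨.ofNat (nat_lit 389224), .ofNat (nat_lit 462368), .ofNat (nat_lit 411379), .ofNat (nat_lit 484523), .ofNat (nat_lit 386127), .ofNat (nat_lit 454546), .ofNat (nat_lit 408901), .ofNat (nat_lit 477320)⟩⟩, [⟨nat_lit 16, nat_lit 53, nat_lit 100, nat_lit 90, nat_lit 253668218⟩, ⟨nat_lit 7, nat_lit 76, nat_lit 100, nat_lit 94, nat_lit 32112121⟩]⟩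
noncomputable def p112_l35 : Lf2 := ⟨nat_lit 0, nat_lit 15, [nat_lit 30, nat_lit 5, nat_lit 5, nat_lit 20], false, nat_lit 200, nat_lit 248, nat_lit 240, nat_lit 352, ⟨nat_lit 86, nat_lit 914, nat_lit 0, nat_lit 8, nat_lit 318, nat_lit 914, nat_lit 174, nat_lit 0, nat_lit 0, nat_lit 0, nat_lit 0, nat_lit 0, nat_lit 35263322, nat_lit 23024568, nat_lit 8712110, nat_lit 5215122, true, true⟩,
 nat_lit 0, nat_lit 0, nat_lit 1329, nat_lit 0, nat_lit 4151, nat_lit 773, nat_lit 0, nat_lit 0, nat_lit 0, nat_lit 45, nat_lit 0, nat_lit 0, nat_lit 0, nat_lit 0, nat_lit 0, nat_lit 228500, nat_lit 0, nat_lit 0, [(nat_lit 25, [(nat_lit 0, nat_lit 914)])],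
 ⟨p112_k10, nat_lit 0, nat_lit 0, nat_lit 0, nat_lit 0, nat_lit 0, [nat_lit 778964000, nat_lit 1971226401, nat_lit 2473352000], [], [nat_lit 27516763747, nat_lit 28047121555, nat_lit 28448362409, nat_lit 28952755020, nat_lit 28385639865, nat_lit 28874922832, nat_lit 29241863390, nat_lit 29707651604], nat_lit 0, nat_lit 0, nat_lit 0, nat_lit 0, nat_lit 0, nat_lit 0, [], [nat_lit 55, nat_lit 40, nat_lit 40, nat_lit 80]⟩, ⟨p112_k22, nat_lit 0, nat_lit 0, nat_lit 417, nat_lit 0, nat_lit 709581, [nat_lit 403168000, nat_lit 846412000, nat_lit 1020992000], [], [nat_lit 2778404329, nat_lit 2784077406, nat_lit 2846121602, nat_lit 2852423637, nat_lit 2998649464, nat_lit 3001852522, nat_lit 3047818701, nat_lit 3050286791], nat_lit 1271250, nat_lit 1271250, nat_lit 1271250, nat_lit 1271250, nat_lit 1271250, nat_lit 1271250, [nat_lit 1100000, nat_lit 2127500, nat_lit 1271250], [nat_lit 125, nat_lit 40, nat_lit 40, nat_lit 80, nat_lit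 41, nat_lit 401, nat_lit 175, nat_lit 9]⟩,
 ⟨nat_lit 2738, nat_lit 3163, ⟨.ofNat (nat_lit 779800), .ofNat (nat_lit 810277), .ofNat (nat_lit 785339), .ofNat (nat_lit 815815), .ofNat (nat_lit 773965), .ofNat (nat_lit 803496), .ofNat (nat_lit 779570), .ofNat (nat_lit 809100)⟩, ⟨.ofNat (nat_lit 389224), .ofNat (nat_lit 462368), .ofNat (nat_lit 411379), .ofNat (nat_lit 484523), .ofNat (nat_lit 387912), .ofNat (nat_lit 458785), .ofNat (nat_lit 410329), .ofNat (nat_lit 481203)⟩⟩, [⟨nat_lit 13, nat_lit 59, nat_lit 64, nat_lit 100, nat_lit 157569800⟩, ⟨nat_lit 4, nat_lit 100, nat_lit 57, nat_lit 90, nat_lit 216500411⟩, ⟨nat_lit 19, nat_lit 100, nat_lit 69, nat_lit 96, nat_lit 31577255⟩]⟩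
noncomputable def p112_l36 : Lf2 := ⟨nat_lit 0, nat_lit 15, [nat_lit 30, nat_lit 5, nat_lit 5, nat_lit 20], false, nat_lit 200, nat_lit 248, nat_lit 240, nat_lit 348, ⟨nat_lit 297, nat_lit 703, nat_lit 0, nat_lit 8, nat_lit 321, nat_lit 703, nat_lit 175, nat_lit 0, nat_lit 0, nat_lit 0, nat_lit 0, nat_lit 0, nat_lit 35046532, nat_lit 23262952, nat_lit 8690516, nat_lit 5220464, true, true⟩,
 nat_lit 0, nat_lit 0, nat_lit 3233, nat_lit 0, nat_lit 3521, nat_lit 1925, nat_lit 168, nat_lit 0, nat_lit 0, nat_lit 400, nat_lit 0, nat_lit 0, nat_lit 0, nat_lit 0, nat_lit 0, nat_lit 281200, nat_lit 0, nat_lit 0, [(nat_lit 25, [(nat_lit 1, nat_lit 703)])],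
 ⟨p112_k23, nat_lit 0, nat_lit 0, nat_lit 0, nat_lit 0, nat_lit 0, [nat_lit 872480401, nat_lit 1679253734, nat_lit 2499635600], [], [nat_lit 27388474361, nat_lit 27621978392, nat_lit 28214397396, nat_lit 28437228601, nat_lit 28227825517, nat_lit 28444290584, nat_lit 28991108636, nat_lit 29197887506], nat_lit 0, nat_lit 0, nat_lit 0, nat_lit 0, nat_lit 0, nat_lit 0, [], [nat_lit 20, nat_lit 40, nat_lit 40, nat_lit 80]⟩, ⟨p112_k24, nat_lit 0, nat_lit 0, nat_lit 380, nat_lit 0, nat_lit 634327, [nat_lit 1392336000, nat_lit 2366496000, nat_lit 3525984000], [], [nat_lit 8754317210, nat_lit 8782833852, nat_lit 8967174305, nat_lit 8993242710, nat_lit 9486834338, nat_lit 9505108262, nat_lit 9647952811, nat_lit 9669038240], nat_lit 1271250, nat_lit 1271250, nat_lit 1271250, nat_lit 1271250, nat_lit 1271250, nat_lit 1271250, [nat_lit 1100000, nat_lit 1785000, nat_lit 1271250], [nat_lit 21, nat_lit 40, nat_lit 40, nat_lit 80, nat_lit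 14, nat_lit 401, nat_lit 175, nat_lit 9]⟩,
 ⟨nat_lit 2958, nat_lit 3163, ⟨.ofNat (nat_lit 785339), .ofNat (nat_lit 815815), .ofNat (nat_lit 790877), .ofNat (nat_lit 821354), .ofNat (nat_lit 782473), .ofNat (nat_lit 812483), .ofNat (nat_lit 788042), .ofNat (nat_lit 818052)⟩, ⟨.ofNat (nat_lit 389224), .ofNat (nat_lit 462368), .ofNat (nat_lit 411379), .ofNat (nat_lit 484523), .ofNat (nat_lit 388613), .ofNat (nat_lit 460638), .ofNat (nat_lit 410890), .ofNat (nat_lit 482915)⟩⟩, [⟨nat_lit 4, nat_lit 100, nat_lit 59, nat_lit 90, nat_lit 288571859⟩, ⟨nat_lit 19, nat_lit 100, nat_lit 71, nat_lit 97, nat_lit 108865975⟩]⟩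
noncomputable def p112_l37 : Lf2 := ⟨nat_lit 0, nat_lit 15, [nat_lit 30, nat_lit 5, nat_lit 5, nat_lit 20], false, nat_lit 200, nat_lit 240, nat_lit 240, nat_lit 348, ⟨nat_lit 207, nat_lit 793, nat_lit 0, nat_lit 8, nat_lit 319, nat_lit 793, nat_lit 172, nat_lit 0, nat_lit 0, nat_lit 0, nat_lit 0, nat_lit 0, nat_lit 35263185, nat_lit 23226574, nat_lit 8510241, nat_lit 5196718, true, true⟩,
 nat_lit 0, nat_lit 0, nat_lit 2398, nat_lit 0, nat_lit 3367, nat_lit 1427, nat_lit 233, nat_lit 0, nat_lit 0, nat_lit 171, nat_lit 0, nat_lit 0, nat_lit 0, nat_lit 0, nat_lit 0, nat_lit 198250, nat_lit 0, nat_lit 0, [(nat_lit 25, [(nat_lit 0, nat_lit 793)])],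
 ⟨p112_k25, nat_lit 0, nat_lit 0, nat_lit 0, nat_lit 0, nat_lit 0, [nat_lit 800018001, nat_lit 1764832401, nat_lit 2973324000], [], [nat_lit 27466123737, nat_lit 27695607501, nat_lit 28269416789, nat_lit 28488565160, nat_lit 28095421389, nat_lit 28311332880, nat_lit 28849749930, nat_lit 29056754665], nat_lit 0, nat_lit 0, nat_lit 0, nat_lit 0, nat_lit 0, nat_lit 0, [], [nat_lit 20, nat_lit 40, nat_lit 40, nat_lit 80]⟩, ⟨p112_k24, nat_lit 0, nat_lit 0, nat_lit 410, nat_lit 0, nat_lit 716644, [nat_lit 970416000, nat_lit 1649376000, nat_lit 2457504000], [], [nat_lit 6410461257, nat_lit 6426155536, nat_lit 6543951797, nat_lit 6560089939, nat_lit 6879117892, nat_lit 6894188949, nat_lit 7014700779, nat_lit 7028527261], nat_lit 1271250, nat_lit 1271250, nat_lit 1271250, nat_lit 1271250, nat_lit 1271250, nat_lit 1271250, [nat_lit 1100000, nat_lit 1785000, nat_lit 1271250], [nat_lit 21, nat_lit 40, nat_lit 40, nat_lit 80, nat_lit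 14, nat_lit 401, nat_lit 175, nat_lit 9]⟩,
 ⟨nat_lit 2738, nat_lit 2959, ⟨.ofNat (nat_lit 782473), .ofNat (nat_lit 812483), .ofNat (nat_lit 788042), .ofNat (nat_lit 818052), .ofNat (nat_lit 779570), .ofNat (nat_lit 809100), .ofNat (nat_lit 785174), .ofNat (nat_lit 814705)⟩, ⟨.ofNat (nat_lit 388613), .ofNat (nat_lit 448634), .ofNat (nat_lit 410890), .ofNat (nat_lit 470911), .ofNat (nat_lit 387912), .ofNat (nat_lit 446973), .ofNat (nat_lit 410329), .ofNat (nat_lit 469390)⟩⟩, [⟨nat_lit 13, nat_lit 56, nat_lit 67, nat_lit 100, nat_lit 235550164⟩, ⟨nat_lit 4, nat_lit 100, nat_lit 55, nat_lit 90, nat_lit 259449727⟩, ⟨nat_lit 19, nat_lit 100, nat_lit 71, nat_lit 97, nat_lit 75818382⟩]⟩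
noncomputable def p112_l38 : Lf2 := ⟨nat_lit 0, nat_lit 20, [nat_lit 5, nat_lit 5, nat_lit 5, nat_lit 20], false, nat_lit 200, nat_lit 248, nat_lit 240, nat_lit 352, ⟨nat_lit 1000, nat_lit 0, nat_lit 0, nat_lit 0, nat_lit 0, nat_lit 0, nat_lit 0, nat_lit 0, nat_lit 0, nat_lit 0, nat_lit 0, nat_lit 0, nat_lit 0, nat_lit 0, nat_lit 0, nat_lit 0, false, false⟩,
 nat_lit 0, nat_lit 0, nat_lit 11365, nat_lit 0, nat_lit 9362, nat_lit 6615, nat_lit 0, nat_lit 0, nat_lit 0, nat_lit 792, nat_lit 0, nat_lit 0, nat_lit 0, nat_lit 0, nat_lit 0, nat_lit 0, nat_lit 0, nat_lit 0, [],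
 ⟨p112_k0, nat_lit 0, nat_lit 0, nat_lit 0, nat_lit 0, nat_lit 0, [nat_lit 938000000, nat_lit 3282000000, nat_lit 6250000000], [], [nat_lit 30306196642, nat_lit 31078170615, nat_lit 31598435912, nat_lit 32323467510, nat_lit 30794546921, nat_lit 31493126904, nat_lit 32019609846, nat_lit 32837773614], nat_lit 0, nat_lit 0, nat_lit 0, nat_lit 0, nat_lit 0, nat_lit 0, [], [nat_lit 20, nat_lit 40, nat_lit 40, nat_lit 80]⟩, ⟨p112_k18, nat_lit 0, nat_lit 0, nat_lit 322, nat_lit 0, nat_lit 476858, [nat_lit 4688000000, nat_lit 7968000000, nat_lit 11872000000], [], [nat_lit 32452555530, nat_lit 32593438445, nat_lit 33052095310, nat_lit 33178801575, nat_lit 34791847527, nat_lit 34894001319, nat_lit 35317937596, nat_lit 35407761725], nat_lit 1271250, nat_lit 1271250, nat_lit 1271250, nat_lit 1271250, nat_lit 1271250, nat_lit 1271250, [nat_lit 1100000, nat_lit 1785000, nat_lit 1271250], [nat_lit 21, nat_lit 40, nat_lit 40, nat_lit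 80, nat_lit 14, nat_lit 401, nat_lit 175, nat_lit 9]⟩,
 zbF0, [⟨nat_lit 13, nat_lit 55, nat_lit 68, nat_lit 100, nat_lit 64551203⟩, ⟨nat_lit 4, nat_lit 100, nat_lit 57, nat_lit 90, nat_lit 526916789⟩, ⟨nat_lit 7, nat_lit 76, nat_lit 100, nat_lit 94, nat_lit 373701434⟩]⟩
noncomputable def p112_l39 : Lf2 := ⟨nat_lit 0, nat_lit 20, [nat_lit 5, nat_lit 5, nat_lit 5, nat_lit 20], false, nat_lit 200, nat_lit 248, nat_lit 240, nat_lit 352, ⟨nat_lit 148, nat_lit 852, nat_lit 0, nat_lit 9, nat_lit 326, nat_lit 852, nat_lit 174, nat_lit 0, nat_lit 0, nat_lit 0, nat_lit 0, nat_lit 0, nat_lit 34659134, nat_lit 23741724, nat_lit 8599142, nat_lit 5224315, true, true⟩,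
 nat_lit 0, nat_lit 0, nat_lit 2296, nat_lit 0, nat_lit 4375, nat_lit 1336, nat_lit 0, nat_lit 0, nat_lit 0, nat_lit 78, nat_lit 0, nat_lit 0, nat_lit 0, nat_lit 0, nat_lit 0, nat_lit 213000, nat_lit 0, nat_lit 0, [(nat_lit 25, [(nat_lit 0, nat_lit 852)])],
 ⟨p112_k8, nat_lit 0, nat_lit 0, nat_lit 0, nat_lit 0, nat_lit 0, [nat_lit 789752001, nat_lit 2155515200, nat_lit 2729536000], [], [nat_lit 28590272200, nat_lit 29106488763, nat_lit 29003245450, nat_lit 29508736088, nat_lit 29369643351, nat_lit 29845737513, nat_lit 29750518680, nat_lit 30264126539], nat_lit 0, nat_lit 0, nat_lit 0, nat_lit 0, nat_lit 0, nat_lit 0, [], [nat_lit 55, nat_lit 40, nat_lit 40, nat_lit 80]⟩, ⟨p112_k21, nat_lit 0, nat_lit 0, nat_lit 419, nat_lit 0, nat_lit 712594, [nat_lit 693824000, nat_lit 1456616000, nat_lit 1757056000], [], [nat_lit 4884337024, nat_lit 4895164196, nat_lit 4940134191, nat_lit 4950295072, nat_lit 5231463980, nat_lit 5235669609,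 nat_lit 5291216967, nat_lit 5312748928], nat_lit 1271250, nat_lit 1271250, nat_lit 1271250, nat_lit 1271250, nat_lit 1271250, nat_lit 1271250, [nat_lit 1100000, nat_lit 2127500, nat_lit 1271250], [nat_lit 125, nat_lit 40, nat_lit 40, nat_lit 80, nat_lit 41, nat_lit 401, nat_lit 175, nat_lit 9]⟩,
 ⟨nat_lit 2738, nat_lit 3163, ⟨.ofNat (nat_lit 810277), .ofNat (nat_lit 822467), .ofNat (nat_lit 815815), .ofNat (nat_lit 828006), .ofNat (nat_lit 803496), .ofNat (nat_lit 815308), .ofNat (nat_lit 809100), .ofNat (nat_lit 820913)⟩, ⟨.ofNat (nat_lit 389224), .ofNat (nat_lit 462368), .ofNat (nat_lit 411379), .ofNat (nat_lit 484523), .ofNat (nat_lit 387912), .ofNat (nat_lit 458785), .ofNat (nat_lit 410329), .ofNat (nat_lit 481203)⟩⟩, [⟨nat_lit 13, nat_lit 59, nat_lit 64, nat_lit 100, nat_lit 437777873⟩, ⟨nat_lit 16, nat_lit 57, nat_lit 100, nat_lit 90, nat_lit 240531765⟩, ⟨nat_lit 19, nat_lit 100, nat_lit 69, nat_lit 96, nat_lit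 54575121⟩]⟩
noncomputable def p112_l40 : Lf2 := ⟨nat_lit 0, nat_lit 20, [nat_lit 5, nat_lit 5, nat_lit 5, nat_lit 20], false, nat_lit 200, nat_lit 248, nat_lit 240, nat_lit 348, ⟨nat_lit 148, nat_lit 852, nat_lit 0, nat_lit 9, nat_lit 330, nat_lit 852, nat_lit 174, nat_lit 0, nat_lit 0, nat_lit 0, nat_lit 0, nat_lit 0, nat_lit 34414662, nat_lit 24032453, nat_lit 8552885, nat_lit 5227193, true, true⟩,
 nat_lit 0, nat_lit 0, nat_lit 2170, nat_lit 0, nat_lit 4375, nat_lit 1292, nat_lit 0, nat_lit 0, nat_lit 0, nat_lit 77, nat_lit 0, nat_lit 0, nat_lit 0, nat_lit 0, nat_lit 0, nat_lit 213000, nat_lit 0, nat_lit 0, [(nat_lit 25, [(nat_lit 0, nat_lit 852)])],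
 ⟨p112_k8, nat_lit 0, nat_lit 0, nat_lit 0, nat_lit 0, nat_lit 0, [nat_lit 789752001, nat_lit 2155515200, nat_lit 2729536000], [], [nat_lit 28590272200, nat_lit 29106488763, nat_lit 29209732075, nat_lit 29709859750, nat_lit 29369643351, nat_lit 29845737513, nat_lit 29952207701, nat_lit 30473990195], nat_lit 0, nat_lit 0, nat_lit 0, nat_lit 0, nat_lit 0, nat_lit 0, [], [nat_lit 55, nat_lit 40, nat_lit 40, nat_lit 80]⟩, ⟨p112_k26, nat_lit 0, nat_lit 0, nat_lit 422, nat_lit 0, nat_lit 720337, [nat_lit 693824000, nat_lit 1456616000, nat_lit 1757056000], [], [nat_lit 4891601908, nat_lit 4900067408, nat_lit 4967557598, nat_lit 4977553229, nat_lit 5208972415, nat_lit 5213745255, nat_lit 5286561087, nat_lit 5295082364], nat_lit 1271250, nat_lit 1271250, nat_lit 1271250, nat_lit 1271250, nat_lit 1271250, nat_lit 1271250, [nat_lit 1100000, nat_lit 2127500, nat_lit 1271250], [nat_lit 125, nat_lit 40, nat_lit 40, nat_lit 80, nat_lit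 41, nat_lit 401, nat_lit 175, nat_lit 9]⟩,
 ⟨nat_lit 2738, nat_lit 3163, ⟨.ofNat (nat_lit 815815), .ofNat (nat_lit 834101), .ofNat (nat_lit 821354), .ofNat (nat_lit 839640), .ofNat (nat_lit 809100), .ofNat (nat_lit 826819), .ofNat (nat_lit 814705), .ofNat (nat_lit 832423)⟩, ⟨.ofNat (nat_lit 389224), .ofNat (nat_lit 462368), .ofNat (nat_lit 411379), .ofNat (nat_lit 484523), .ofNat (nat_lit 387912), .ofNat (nat_lit 458785), .ofNat (nat_lit 410329), .ofNat (nat_lit 481203)⟩⟩, [⟨nat_lit 13, nat_lit 60, nat_lit 62, nat_lit 100, nat_lit 391735052⟩, ⟨nat_lit 4, nat_lit 100, nat_lit 57, nat_lit 90, nat_lit 241440883⟩, ⟨nat_lit 19, nat_lit 100, nat_lit 71, nat_lit 97, nat_lit 53373065⟩]⟩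
noncomputable def p112_l41 : Lf2 := ⟨nat_lit 0, nat_lit 20, [nat_lit 5, nat_lit 5, nat_lit 5, nat_lit 20], false, nat_lit 200, nat_lit 232, nat_lit 240, nat_lit 352, ⟨nat_lit 105, nat_lit 895, nat_lit 0, nat_lit 8, nat_lit 314, nat_lit 895, nat_lit 169, nat_lit 0, nat_lit 0, nat_lit 0, nat_lit 0, nat_lit 0, nat_lit 35792793, nat_lit 22840187, nat_lit 8367020, nat_lit 5164996, true, true⟩,
 nat_lit 0, nat_lit 0, nat_lit 1638, nat_lit 0, nat_lit 4283, nat_lit 953, nat_lit 0, nat_lit 0, nat_lit 0, nat_lit 56, nat_lit 0, nat_lit 0, nat_lit 0, nat_lit 0, nat_lit 0, nat_lit 223750, nat_lit 0, nat_lit 0, [(nat_lit 25, [(nat_lit 0, nat_lit 895)])],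
 ⟨p112_k15, nat_lit 0, nat_lit 0, nat_lit 0, nat_lit 0, nat_lit 0, [nat_lit 782270000, nat_lit 2027702000, nat_lit 2551860000], [], [nat_lit 28074420699, nat_lit 28612371180, nat_lit 28807864109, nat_lit 29330709695, nat_lit 28556296387, nat_lit 29066627448, nat_lit 29250687761, nat_lit 29792908482], nat_lit 0, nat_lit 0, nat_lit 0, nat_lit 0, nat_lit 0, nat_lit 0, [], [nat_lit 55, nat_lit 40, nat_lit 40, nat_lit 80]⟩, ⟨p112_k21, nat_lit 0, nat_lit 0, nat_lit 509, nat_lit 0, nat_lit 894858, [nat_lit 492240000, nat_lit 1033410000, nat_lit 1246560000], [], [nat_lit 3514966700, nat_lit 3518104140, nat_lit 3556501051, nat_lit 3559003358, nat_lit 3649700181, nat_lit 3649368607, nat_lit 3686401206, nat_lit 3689528166], nat_lit 1271250, nat_lit 1271250, nat_lit 1271250, nat_lit 1271250, nat_lit 1271250, nat_lit 1271250, [nat_lit 1100000, nat_lit 2127500, nat_lit 1271250], [nat_lit 125, nat_lit 40, nat_lit 40, nat_lit 80, nat_lit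 41, nat_lit 401, nat_lit 175, nat_lit 9]⟩,
 ⟨nat_lit 2236, nat_lit 2739, ⟨.ofNat (nat_lit 773965), .ofNat (nat_lit 797590), .ofNat (nat_lit 779570), .ofNat (nat_lit 803194), .ofNat (nat_lit 767876), .ofNat (nat_lit 790682), .ofNat (nat_lit 773569), .ofNat (nat_lit 796376)⟩, ⟨.ofNat (nat_lit 387912), .ofNat (nat_lit 435161), .ofNat (nat_lit 410329), .ofNat (nat_lit 457578), .ofNat (nat_lit 386127), .ofNat (nat_lit 431740), .ofNat (nat_lit 408901), .ofNat (nat_lit 454514)⟩⟩, [⟨nat_lit 13, nat_lit 56, nat_lit 67, nat_lit 100, nat_lit 268738050⟩, ⟨nat_lit 16, nat_lit 53, nat_lit 100, nat_lit 93, nat_lit 259126655⟩, ⟨nat_lit 22, nat_lit 67, nat_lit 69, nat_lit 100, nat_lit 48159260⟩]⟩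
noncomputable def p112_l42 : Lf2 := ⟨nat_lit 0, nat_lit 20, [nat_lit 5, nat_lit 5, nat_lit 5, nat_lit 20], false, nat_lit 200, nat_lit 232, nat_lit 240, nat_lit 348, ⟨nat_lit 110, nat_lit 890, nat_lit 0, nat_lit 8, nat_lit 317, nat_lit 890, nat_lit 169, nat_lit 0, nat_lit 0, nat_lit 0, nat_lit 0, nat_lit 0, nat_lit 35573975, nat_lit 23096965, nat_lit 8329060, nat_lit 5169182, true, true⟩,
 nat_lit 0, nat_lit 0, nat_lit 1625, nat_lit 0, nat_lit 4281, nat_lit 967, nat_lit 0, nat_lit 0, nat_lit 0, nat_lit 60, nat_lit 0, nat_lit 0, nat_lit 0, nat_lit 0, nat_lit 0, nat_lit 222500, nat_lit 0, nat_lit 0, [(nat_lit 25, [(nat_lit 0, nat_lit 890)])],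
 ⟨p112_k15, nat_lit 0, nat_lit 0, nat_lit 0, nat_lit 0, nat_lit 0, [nat_lit 783140001, nat_lit 2042564001, nat_lit 2572520000], [], [nat_lit 28089724768, nat_lit 28627560208, nat_lit 29006359775, nat_lit 29531969396, nat_lit 28571702520, nat_lit 29081928041, nat_lit 29439539040, nat_lit 29983438140], nat_lit 0, nat_lit 0, nat_lit 0, nat_lit 0, nat_lit 0, nat_lit 0, [], [nat_lit 55, nat_lit 40, nat_lit 40, nat_lit 80]⟩, ⟨p112_k26, nat_lit 0, nat_lit 0, nat_lit 503, nat_lit 0, nat_lit 882567, [nat_lit 515680000, nat_lit 1082620000, nat_lit 1305920000], [], [nat_lit 3662475291, nat_lit 3664573707, nat_lit 3715730054, nat_lit 3717342561, nat_lit 3794216266, nat_lit 3794271910, nat_lit 3841458785, nat_lit 3843843162], nat_lit 1271250, nat_lit 1271250, nat_lit 1271250, nat_lit 1271250, nat_lit 1271250, nat_lit 1271250, [nat_lit 1100000, nat_lit 2127500, nat_lit 1271250], [nat_lit 125, nat_lit 40, nat_lit 40, nat_lit 80, nat_lit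 41, nat_lit 401, nat_lit 175, nat_lit 9]⟩,
 ⟨nat_lit 2236, nat_lit 2739, ⟨.ofNat (nat_lit 779570), .ofNat (nat_lit 809100), .ofNat (nat_lit 782932), .ofNat (nat_lit 812463), .ofNat (nat_lit 773569), .ofNat (nat_lit 802077), .ofNat (nat_lit 776985), .ofNat (nat_lit 805493)⟩, ⟨.ofNat (nat_lit 387912), .ofNat (nat_lit 435161), .ofNat (nat_lit 410329), .ofNat (nat_lit 457578), .ofNat (nat_lit 386127), .ofNat (nat_lit 431740), .ofNat (nat_lit 408901), .ofNat (nat_lit 454514)⟩⟩, [⟨nat_lit 13, nat_lit 56, nat_lit 66, nat_lit 100, nat_lit 260340450⟩, ⟨nat_lit 16, nat_lit 53, nat_lit 100, nat_lit 93, nat_lit 261266837⟩, ⟨nat_lit 22, nat_lit 66, nat_lit 70, nat_lit 100, nat_lit 50793188⟩]⟩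
noncomputable def p112_l43 : Lf2 := ⟨nat_lit 0, nat_lit 20, [nat_lit 5, nat_lit 5, nat_lit 5, nat_lit 20], false, nat_lit 200, nat_lit 232, nat_lit 240, nat_lit 348, ⟨nat_lit 160, nat_lit 840, nat_lit 0, nat_lit 8, nat_lit 318, nat_lit 840, nat_lit 169, nat_lit 0, nat_lit 0, nat_lit 0, nat_lit 0, nat_lit 0, nat_lit 35490926, nat_lit 23194487, nat_lit 8314587, nat_lit 5170670, true, true⟩,
 nat_lit 0, nat_lit 0, nat_lit 1967, nat_lit 0, nat_lit 4385, nat_lit 1187, nat_lit 0, nat_lit 0, nat_lit 0, nat_lit 168, nat_lit 0, nat_lit 0, nat_lit 0, nat_lit 0, nat_lit 0, nat_lit 210000, nat_lit 0, nat_lit 0, [(nat_lit 25, [(nat_lit 0, nat_lit 840)])],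
 ⟨p112_k15, nat_lit 0, nat_lit 0, nat_lit 0, nat_lit 0, nat_lit 0, [nat_lit 791840000, nat_lit 2191184000, nat_lit 2779120000], [], [nat_lit 28215357257, nat_lit 28759174803, nat_lit 29140793498, nat_lit 29657537915, nat_lit 28692027660, nat_lit 29207741225, nat_lit 29567804440, nat_lit 30058232448], nat_lit 0, nat_lit 0, nat_lit 0, nat_lit 0, nat_lit 0, nat_lit 0, [], [nat_lit 55, nat_lit 40, nat_lit 40, nat_lit 80]⟩, ⟨p112_k27, nat_lit 0, nat_lit 0, nat_lit 499, nat_lit 0, nat_lit 876529, [nat_lit 750080000, nat_lit 1574720000, nat_lit 1899520000], [], [nat_lit 5090532955, nat_lit 5093156911, nat_lit 5165254485, nat_lit 5167468465, nat_lit 5299086832, nat_lit 5299982345, nat_lit 5379514119, nat_lit 5382993557], nat_lit 1271250, nat_lit 1271250, nat_lit 1271250, nat_lit 1271250, nat_lit 1271250, nat_lit 1271250, [nat_lit 1100000, nat_lit 2127500, nat_lit 1271250], [nat_lit 125, nat_lit 40, nat_lit 40, nat_lit 80, nat_lit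 41, nat_lit 401, nat_lit 175, nat_lit 9]⟩,
 ⟨nat_lit 2236, nat_lit 2739, ⟨.ofNat (nat_lit 782932), .ofNat (nat_lit 812463), .ofNat (nat_lit 785174), .ofNat (nat_lit 814705), .ofNat (nat_lit 776985), .ofNat (nat_lit 805493), .ofNat (nat_lit 779263), .ofNat (nat_lit 807771)⟩, ⟨.ofNat (nat_lit 387912), .ofNat (nat_lit 435161), .ofNat (nat_lit 410329), .ofNat (nat_lit 457578), .ofNat (nat_lit 386127), .ofNat (nat_lit 431740), .ofNat (nat_lit 408901), .ofNat (nat_lit 454514)⟩⟩, [⟨nat_lit 13, nat_lit 52, nat_lit 70, nat_lit 100, nat_lit 328145528⟩, ⟨nat_lit 16, nat_lit 53, nat_lit 100, nat_lit 93, nat_lit 231952695⟩, ⟨nat_lit 19, nat_lit 100, nat_lit 73, nat_lit 97, nat_lit 51290292⟩]⟩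
noncomputable def b_V_900_600_20_17 : St := ⟨true, nat_lit 0, nat_lit 1, nat_lit 1, nat_lit 120, nat_lit 360, nat_lit 380, nat_lit 260, nat_lit 270, nat_lit 320, nat_lit 376, nat_lit 80, nat_lit 120, nat_lit 160, nat_lit 248, nat_lit 240, nat_lit 352, nat_lit 40, nat_lit 80, nat_lit 300, nat_lit 460, nat_lit 0, nat_lit 0⟩
theorem d_V_900_600_20_17 (h : EB TB.env) : Dead b_V_900_600_20_17 := chkB_sound0 h (T :=
(.trX (nat_lit 13) (nat_lit 64) (nat_lit 58) (nat_lit 100) (nat_lit 372) (.spl (nat_lit 3) (nat_lit 100)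
(.trX (nat_lit 16) (nat_lit 60) (nat_lit 100) (nat_lit 87) (nat_lit 224) (.trX (nat_lit 19) (nat_lit 100) (nat_lit 77) (nat_lit 91) (nat_lit 336) (.spl (nat_lit 1) (nat_lit 265)
(.trX (nat_lit 13) (nat_lit 63) (nat_lit 59) (nat_lit 100) (nat_lit 368) (.leaf p112_l29))
(.trX (nat_lit 19) (nat_lit 100) (nat_lit 80) (nat_lit 92) (nat_lit 332) (.spl (nat_lit 0) (nat_lit 370)
(.leaf p112_l30)
(.trX (nat_lit 13) (nat_lit 56) (nat_lit 65) (nat_lit 100) (nat_lit 360) (.trX (nat_lit 16) (nat_lit 53) (nat_lit 100) (nat_lit 87) (nat_lit 208) (.leaf p112_l31))))))))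
(.spl (nat_lit 4) (nat_lit 200)
(.spl (nat_lit 0) (nat_lit 370)
(.leaf p112_l32)
(.trX (nat_lit 13) (nat_lit 56) (nat_lit 65) (nat_lit 100) (nat_lit 360) (.leaf p112_l33)))
(.spl (nat_lit 2) (nat_lit 340)
(.leaf p112_l34)
(.spl (nat_lit 0) (nat_lit 370)
(.spl (nat_lit 2) (nat_lit 360)
(.spl (nat_lit 6) (nat_lit 60)
(.spl (nat_lit 1) (nat_lit 265)
(.leaf p112_l35)
(.trX (nat_lit 19) (nat_lit 100) (nat_lit 71) (nat_lit 97) (nat_lit 348) (.spl (nat_lit 0) (nat_lit 365)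
(.leaf p112_l36)
(.trX (nat_lit 16) (nat_lit 58) (nat_lit 100) (nat_lit 93) (nat_lit 240) (.leaf p112_l37)))))
(.leaf p112_l38))
(.spl (nat_lit 1) (nat_lit 265)
(.trX (nat_lit 13) (nat_lit 63) (nat_lit 59) (nat_lit 100) (nat_lit 368) (.leaf p112_l39))
(.trX (nat_lit 19) (nat_lit 100) (nat_lit 71) (nat_lit 97) (nat_lit 348) (.leaf p112_l40))))
(.trX (nat_lit 13) (nat_lit 56) (nat_lit 65) (nat_lit 100) (nat_lit 360) (.trX (nat_lit 16) (nat_lit 53) (nat_lit 100) (nat_lit 93) (nat_lit 232) (.spl (nat_lit 1) (nat_lit 265)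
(.trX (nat_lit 13) (nat_lit 56) (nat_lit 67) (nat_lit 100) (nat_lit 356) (.leaf p112_l41))
(.trX (nat_lit 19) (nat_lit 100) (nat_lit 71) (nat_lit 97) (nat_lit 348) (.spl (nat_lit 1) (nat_lit 268)
(.leaf p112_l42)
(.leaf p112_l43)))))))))))) (by decide +kernel)
noncomputable def p112_l44 : Lf2 := ⟨nat_lit 0, nat_lit 20, [nat_lit 5, nat_lit 5, nat_lit 5, nat_lit 20], false, nat_lit 160, nat_lit 224, nat_lit 240, nat_lit 328, ⟨nat_lit 209, nat_lit 791, nat_lit 0, nat_lit 8, nat_lit 316, nat_lit 791, nat_lit 146, nat_lit 0, nat_lit 0, nat_lit 0, nat_lit 0, nat_lit 0, nat_lit 36644869, nat_lit 23555598, nat_lit 6799533, nat_lit 4971924, true, true⟩,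
 nat_lit 0, nat_lit 0, nat_lit 2295, nat_lit 0, nat_lit 4573, nat_lit 1397, nat_lit 0, nat_lit 0, nat_lit 0, nat_lit 273, nat_lit 0, nat_lit 0, nat_lit 0, nat_lit 0, nat_lit 0, nat_lit 197750, nat_lit 0, nat_lit 0, [(nat_lit 25, [(nat_lit 0, nat_lit 791)])],
 ⟨p112_k8, nat_lit 0, nat_lit 0, nat_lit 0, nat_lit 0, nat_lit 0, [nat_lit 800366001, nat_lit 2336831600, nat_lit 2981588000], [], [nat_lit 26109170908, nat_lit 27351307318, nat_lit 28180283800, nat_lit 29301658272, nat_lit 27207313027, nat_lit 28326333949, nat_lit 29066435455, nat_lit 30078948665], nat_lit 0, nat_lit 0, nat_lit 0, nat_lit 0, nat_lit 0, nat_lit 0, [], [nat_lit 55, nat_lit 40, nat_lit 40, nat_lit 80]⟩, ⟨p112_k28, nat_lit 0, nat_lit 0, nat_lit 592, nat_lit 0, nat_lit 1098494, [nat_lit 979792000, nat_lit 2056978000, nat_lit 2481248000], [], [nat_lit 6481055066, nat_lit 6492371536, nat_lit 6609855573, nat_lit 6617580004, nat_lit 6611233256, nat_lit 6616095387,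 nat_lit 6732778558, nat_lit 6741055076], nat_lit 1271250, nat_lit 1271250, nat_lit 1271250, nat_lit 1271250, nat_lit 1271250, nat_lit 1271250, [nat_lit 1100000, nat_lit 2127500, nat_lit 1271250], [nat_lit 125, nat_lit 40, nat_lit 40, nat_lit 80, nat_lit 41, nat_lit 401, nat_lit 175, nat_lit 9]⟩,
 ⟨nat_lit 2236, nat_lit 3163, ⟨.ofNat (nat_lit 760401), .ofNat (nat_lit 821354), .ofNat (nat_lit 771478), .ofNat (nat_lit 832432), .ofNat (nat_lit 750755), .ofNat (nat_lit 807771), .ofNat (nat_lit 762142), .ofNat (nat_lit 819158)⟩, ⟨.ofNat (nat_lit 306116), .ofNat (nat_lit 403641), .ofNat (nat_lit 328271), .ofNat (nat_lit 425796), .ofNat (nat_lit 306337), .ofNat (nat_lit 397562), .ofNat (nat_lit 329112), .ofNat (nat_lit 420336)⟩⟩, [⟨nat_lit 13, nat_lit 57, nat_lit 64, nat_lit 100, nat_lit 12721247⟩, ⟨nat_lit 13, nat_lit 47, nat_lit 74, nat_lit 100, nat_lit 300842858⟩, ⟨nat_lit 16, nat_lit 53, nat_lit 100, nat_lit 84, nat_lit 269098383⟩,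 ⟨nat_lit 19, nat_lit 100, nat_lit 89, nat_lit 90, nat_lit 65043940⟩]⟩
noncomputable def p112_l45 : Lf2 := ⟨nat_lit 0, nat_lit 20, [nat_lit 5, nat_lit 5, nat_lit 5, nat_lit 20], false, nat_lit 160, nat_lit 224, nat_lit 240, nat_lit 328, ⟨nat_lit 231, nat_lit 769, nat_lit 0, nat_lit 9, nat_lit 333, nat_lit 769, nat_lit 146, nat_lit 0, nat_lit 0, nat_lit 0, nat_lit 0, nat_lit 0, nat_lit 35369413, nat_lit 25004609, nat_lit 6625978, nat_lit 4991051, true, true⟩,
 nat_lit 0, nat_lit 0, nat_lit 2757, nat_lit 0, nat_lit 3805, nat_lit 1678, nat_lit 211, nat_lit 0, nat_lit 0, nat_lit 197, nat_lit 0, nat_lit 0, nat_lit 0, nat_lit 0, nat_lit 0, nat_lit 192250, nat_lit 0, nat_lit 0, [(nat_lit 25, [(nat_lit 0, nat_lit 769)])],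
 ⟨p112_k0, nat_lit 0, nat_lit 0, nat_lit 0, nat_lit 0, nat_lit 0, [nat_lit 804194000, nat_lit 1810749201, nat_lit 3072492000], [], [nat_lit 27800299835, nat_lit 28774416515, nat_lit 28579593179, nat_lit 29515085819, nat_lit 28696227388, nat_lit 29581824923, nat_lit 29404320744, nat_lit 30383778847], nat_lit 0, nat_lit 0, nat_lit 0, nat_lit 0, nat_lit 0, nat_lit 0, [], [nat_lit 20, nat_lit 40, nat_lit 40, nat_lit 80]⟩, ⟨p112_k19, nat_lit 0, nat_lit 0, nat_lit 580, nat_lit 0, nat_lit 1098494, [nat_lit 1082928000, nat_lit 1840608000, nat_lit 2742432000], [], [nat_lit 7290872858, nat_lit 7301563120, nat_lit 7373766305, nat_lit 7387979857, nat_lit 7461732897, nat_lit 7482912454, nat_lit 7681284548, nat_lit 7751755797], nat_lit 1271250, nat_lit 1271250, nat_lit 1271250, nat_lit 1271250, nat_lit 1271250, nat_lit 1271250, [nat_lit 1100000, nat_lit 1785000, nat_lit 1271250], [nat_lit 21, nat_lit 40, nat_lit 40, nat_lit 80, nat_lit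 14, nat_lit 401, nat_lit 175, nat_lit 9]⟩,
 ⟨nat_lit 2236, nat_lit 3163, ⟨.ofNat (nat_lit 821354), .ofNat (nat_lit 845735), .ofNat (nat_lit 832432), .ofNat (nat_lit 856813), .ofNat (nat_lit 807771), .ofNat (nat_lit 830577), .ofNat (nat_lit 819158), .ofNat (nat_lit 841964)⟩, ⟨.ofNat (nat_lit 306116), .ofNat (nat_lit 403641), .ofNat (nat_lit 328271), .ofNat (nat_lit 425796), .ofNat (nat_lit 306337), .ofNat (nat_lit 397562), .ofNat (nat_lit 329112), .ofNat (nat_lit 420336)⟩⟩, [⟨nat_lit 13, nat_lit 57, nat_lit 64, nat_lit 100, nat_lit 435931787⟩, ⟨nat_lit 16, nat_lit 53, nat_lit 100, nat_lit 84, nat_lit 282124653⟩, ⟨nat_lit 7, nat_lit 89, nat_lit 100, nat_lit 90, nat_lit 73732443⟩]⟩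
noncomputable def p112_l46 : Lf2 := ⟨nat_lit 0, nat_lit 20, [nat_lit 5, nat_lit 5, nat_lit 5, nat_lit 20], false, nat_lit 160, nat_lit 248, nat_lit 240, nat_lit 280, ⟨nat_lit 407, nat_lit 593, nat_lit 0, nat_lit 8, nat_lit 322, nat_lit 593, nat_lit 162, nat_lit 0, nat_lit 0, nat_lit 0, nat_lit 0, nat_lit 0, nat_lit 35474632, nat_lit 23693090, nat_lit 7832278, nat_lit 5123671, true, true⟩,
 nat_lit 0, nat_lit 0, nat_lit 4390, nat_lit 0, nat_lit 3610, nat_lit 2673, nat_lit 87, nat_lit 0, nat_lit 0, nat_lit 625, nat_lit 0, nat_lit 0, nat_lit 0, nat_lit 0, nat_lit 0, nat_lit 338000, nat_lit 0, nat_lit 0, [(nat_lit 25, [(nat_lit 1, nat_lit 425), (nat_lit 2, nat_lit 168)])],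
 ⟨p112_k8, nat_lit 0, nat_lit 0, nat_lit 0, nat_lit 0, nat_lit 0, [nat_lit 1146859600, nat_lit 2006899600, nat_lit 2277711600], [], [nat_lit 26269029075, nat_lit 26792581895, nat_lit 28802213483, nat_lit 29260361123, nat_lit 27845841527, nat_lit 28302543959, nat_lit 30119451536, nat_lit 30543481804], nat_lit 0, nat_lit 0, nat_lit 0, nat_lit 0, nat_lit 0, nat_lit 0, [], [nat_lit 55, nat_lit 40, nat_lit 40, nat_lit 80]⟩, ⟨p112_k28, nat_lit 0, nat_lit 0, nat_lit 437, nat_lit 0, nat_lit 761686, [nat_lit 1908016000, nat_lit 4005694000, nat_lit 4831904000], [], [nat_lit 11628750985, nat_lit 11679744884, nat_lit 12245937701, nat_lit 12303111673, nat_lit 11847986045, nat_lit 11891126384, nat_lit 12490147298, nat_lit 12538932076], nat_lit 1271250, nat_lit 1271250, nat_lit 1271250, nat_lit 1271250, nat_lit 1271250, nat_lit 1271250, [nat_lit 1100000, nat_lit 2127500, nat_lit 1271250], [nat_lit 125, nat_lit 40, nat_lit 40, nat_lit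 80, nat_lit 41, nat_lit 373, nat_lit 150, nat_lit 8]⟩,
 ⟨nat_lit 2738, nat_lit 3163, ⟨.ofNat (nat_lit 760401), .ofNat (nat_lit 845735), .ofNat (nat_lit 771478), .ofNat (nat_lit 856813), .ofNat (nat_lit 755643), .ofNat (nat_lit 838329), .ofNat (nat_lit 766852), .ofNat (nat_lit 849538)⟩, ⟨.ofNat (nat_lit 328271), .ofNat (nat_lit 462368), .ofNat (nat_lit 350426), .ofNat (nat_lit 484523), .ofNat (nat_lit 328850), .ofNat (nat_lit 458785), .ofNat (nat_lit 351268), .ofNat (nat_lit 481203)⟩⟩, [⟨nat_lit 13, nat_lit 56, nat_lit 65, nat_lit 100, nat_lit 161422593⟩, ⟨nat_lit 4, nat_lit 100, nat_lit 57, nat_lit 90, nat_lit 315993614⟩]⟩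
noncomputable def p112_l47 : Lf2 := ⟨nat_lit 0, nat_lit 20, [nat_lit 5, nat_lit 5, nat_lit 5, nat_lit 20], false, nat_lit 160, nat_lit 232, nat_lit 240, nat_lit 280, ⟨nat_lit 297, nat_lit 703, nat_lit 0, nat_lit 8, nat_lit 317, nat_lit 703, nat_lit 157, nat_lit 0, nat_lit 0, nat_lit 0, nat_lit 0, nat_lit 0, nat_lit 36064129, nat_lit 23404015, nat_lit 7531856, nat_lit 5072833, true, true⟩,
 nat_lit 0, nat_lit 0, nat_lit 3418, nat_lit 0, nat_lit 2868, nat_lit 2081, nat_lit 299, nat_lit 0, nat_lit 0, nat_lit 328, nat_lit 0, nat_lit 0, nat_lit 0, nat_lit 0, nat_lit 0, nat_lit 175750, nat_lit 0, nat_lit 0, [(nat_lit 25, [(nat_lit 0, nat_lit 703)])],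
 ⟨p112_k3, nat_lit 0, nat_lit 0, nat_lit 0, nat_lit 0, nat_lit 0, [nat_lit 815678001, nat_lit 1937020401, nat_lit 3345204000], [], [nat_lit 25974474996, nat_lit 26451681012, nat_lit 27913863072, nat_lit 28343379080, nat_lit 27224833603, nat_lit 27655585474, nat_lit 29046566618, nat_lit 29474898280], nat_lit 0, nat_lit 0, nat_lit 0, nat_lit 0, nat_lit 0, nat_lit 0, [], [nat_lit 20, nat_lit 40, nat_lit 40, nat_lit 80]⟩, ⟨p112_k19, nat_lit 0, nat_lit 0, nat_lit 517, nat_lit 0, nat_lit 925583, [nat_lit 1392336000, nat_lit 2366496000, nat_lit 3525984000], [], [nat_lit 8522124977, nat_lit 8560157948, nat_lit 8895322049, nat_lit 8924526521, nat_lit 8684683470, nat_lit 8716780112, nat_lit 9033728233, nat_lit 9065602536], nat_lit 1271250, nat_lit 1271250, nat_lit 1271250, nat_lit 1271250, nat_lit 1271250, nat_lit 1271250, [nat_lit 1100000, nat_lit 1785000, nat_lit 1271250], [nat_lit 21, nat_lit 40, nat_lit 40, nat_lit 80, nat_lit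 14, nat_lit 373, nat_lit 150, nat_lit 8]⟩,
 ⟨nat_lit 2236, nat_lit 2739, ⟨.ofNat (nat_lit 755643), .ofNat (nat_lit 826517), .ofNat (nat_lit 766852), .ofNat (nat_lit 837726), .ofNat (nat_lit 750755), .ofNat (nat_lit 819174), .ofNat (nat_lit 762142), .ofNat (nat_lit 830561)⟩, ⟨.ofNat (nat_lit 328850), .ofNat (nat_lit 435161), .ofNat (nat_lit 351268), .ofNat (nat_lit 457578), .ofNat (nat_lit 329112), .ofNat (nat_lit 431740), .ofNat (nat_lit 351886), .ofNat (nat_lit 454514)⟩⟩, [⟨nat_lit 13, nat_lit 47, nat_lit 74, nat_lit 100, nat_lit 230858373⟩, ⟨nat_lit 16, nat_lit 48, nat_lit 100, nat_lit 89, nat_lit 347488471⟩]⟩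
noncomputable def p112_l48 : Lf2 := ⟨nat_lit 0, nat_lit 20, [nat_lit 5, nat_lit 5, nat_lit 5, nat_lit 20], false, nat_lit 160, nat_lit 248, nat_lit 280, nat_lit 344, ⟨nat_lit 662, nat_lit 338, nat_lit 0, nat_lit 8, nat_lit 321, nat_lit 338, nat_lit 162, nat_lit 0, nat_lit 0, nat_lit 0, nat_lit 0, nat_lit 0, nat_lit 35595837, nat_lit 23541113, nat_lit 7863050, nat_lit 5122848, true, true⟩,
 nat_lit 0, nat_lit 0, nat_lit 6915, nat_lit 0, nat_lit 6159, nat_lit 4211, nat_lit 0, nat_lit 0, nat_lit 0, nat_lit 896, nat_lit 0, nat_lit 0, nat_lit 0, nat_lit 0, nat_lit 0, nat_lit 84500, nat_lit 0, nat_lit 0, [(nat_lit 25, [(nat_lit 0, nat_lit 338)])],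
 ⟨p112_k8, nat_lit 0, nat_lit 0, nat_lit 0, nat_lit 0, nat_lit 0, [nat_lit 879188001, nat_lit 3683328801, nat_lit 4853384000], [], [nat_lit 26946872965, nat_lit 27311794973, nat_lit 30119351547, nat_lit 30434568251, nat_lit 28428918891, nat_lit 28740065107, nat_lit 31117212837, nat_lit 31387513520], nat_lit 0, nat_lit 0, nat_lit 0, nat_lit 0, nat_lit 0, nat_lit 0, [], [nat_lit 55, nat_lit 40, nat_lit 40, nat_lit 80]⟩, ⟨p112_k28, nat_lit 0, nat_lit 0, nat_lit 386, nat_lit 0, nat_lit 648123, [nat_lit 3103456000, nat_lit 6515404000, nat_lit 7859264000], [], [nat_lit 20238952175, nat_lit 20284554080, nat_lit 21187463578, nat_lit 21223674857, nat_lit 21112581226, nat_lit 21152773009, nat_lit 21970435924, nat_lit 22006248691], nat_lit 1271250, nat_lit 1271250, nat_lit 1271250, nat_lit 1271250, nat_lit 1271250, nat_lit 1271250, [nat_lit 1100000, nat_lit 2127500, nat_lit 1271250], [nat_lit 125, nat_lit 40, nat_lit 40, nat_lit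 80, nat_lit 41, nat_lit 401, nat_lit 175, nat_lit 9]⟩,
 ⟨nat_lit 2958, nat_lit 3163, ⟨.ofNat (nat_lit 760401), .ofNat (nat_lit 839640), .ofNat (nat_lit 765939), .ofNat (nat_lit 845179), .ofNat (nat_lit 758031), .ofNat (nat_lit 836059), .ofNat (nat_lit 763601), .ofNat (nat_lit 841628)⟩, ⟨.ofNat (nat_lit 328271), .ofNat (nat_lit 462368), .ofNat (nat_lit 350426), .ofNat (nat_lit 484523), .ofNat (nat_lit 328592), .ofNat (nat_lit 460638), .ofNat (nat_lit 350869), .ofNat (nat_lit 482915)⟩⟩, [⟨nat_lit 13, nat_lit 60, nat_lit 61, nat_lit 100, nat_lit 104403363⟩, ⟨nat_lit 4, nat_lit 100, nat_lit 59, nat_lit 90, nat_lit 363151427⟩, ⟨nat_lit 19, nat_lit 100, nat_lit 80, nat_lit 96, nat_lit 242367309⟩]⟩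
noncomputable def p112_l49 : Lf2 := ⟨nat_lit 0, nat_lit 20, [nat_lit 5, nat_lit 5, nat_lit 5, nat_lit 20], false, nat_lit 160, nat_lit 240, nat_lit 280, nat_lit 344, ⟨nat_lit 274, nat_lit 726, nat_lit 0, nat_lit 8, nat_lit 318, nat_lit 726, nat_lit 160, nat_lit 0, nat_lit 0, nat_lit 0, nat_lit 0, nat_lit 0, nat_lit 35904431, nat_lit 23378076, nat_lit 7717493, nat_lit 5097605, true, true⟩,
 nat_lit 0, nat_lit 0, nat_lit 2873, nat_lit 0, nat_lit 4814, nat_lit 1749, nat_lit 0, nat_lit 0, nat_lit 0, nat_lit 384, nat_lit 0, nat_lit 0, nat_lit 0, nat_lit 0, nat_lit 0, nat_lit 181500, nat_lit 0, nat_lit 0, [(nat_lit 25, [(nat_lit 0, nat_lit 726)])],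
 ⟨p112_k17, nat_lit 0, nat_lit 0, nat_lit 0, nat_lit 0, nat_lit 0, [nat_lit 811676001, nat_lit 2530037600, nat_lit 3250168000], [], [nat_lit 26543861739, nat_lit 26735140896, nat_lit 29085371217, nat_lit 29254061109, nat_lit 27853832283, nat_lit 28021111969, nat_lit 30068967980, nat_lit 30216980611], nat_lit 0, nat_lit 0, nat_lit 0, nat_lit 0, nat_lit 0, nat_lit 0, [], [nat_lit 55, nat_lit 40, nat_lit 40, nat_lit 80]⟩, ⟨p112_k28, nat_lit 0, nat_lit 0, nat_lit 400, nat_lit 0, nat_lit 683322, [nat_lit 1284512000, nat_lit 2696708000, nat_lit 3252928000], [], [nat_lit 8451130836, nat_lit 8460015518, nat_lit 8751540815, nat_lit 8758262597, nat_lit 8743429819, nat_lit 8749751491, nat_lit 8994932371, nat_lit 8999347732], nat_lit 1271250, nat_lit 1271250, nat_lit 1271250, nat_lit 1271250, nat_lit 1271250, nat_lit 1271250, [nat_lit 1100000, nat_lit 2127500, nat_lit 1271250], [nat_lit 125, nat_lit 40, nat_lit 40, nat_lit 80, nat_lit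 41, nat_lit 401, nat_lit 175, nat_lit 9]⟩,
 ⟨nat_lit 2828, nat_lit 2959, ⟨.ofNat (nat_lit 758031), .ofNat (nat_lit 830057), .ofNat (nat_lit 761373), .ofNat (nat_lit 833398), .ofNat (nat_lit 756601), .ofNat (nat_lit 827940), .ofNat (nat_lit 759955), .ofNat (nat_lit 831294)⟩, ⟨.ofNat (nat_lit 328592), .ofNat (nat_lit 448634), .ofNat (nat_lit 350869), .ofNat (nat_lit 470911), .ofNat (nat_lit 328755), .ofNat (nat_lit 447653), .ofNat (nat_lit 351114), .ofNat (nat_lit 470012)⟩⟩, [⟨nat_lit 13, nat_lit 59, nat_lit 62, nat_lit 100, nat_lit 229231802⟩, ⟨nat_lit 16, nat_lit 58, nat_lit 100, nat_lit 93, nat_lit 230144088⟩, ⟨nat_lit 19, nat_lit 100, nat_lit 74, nat_lit 98, nat_lit 91801278⟩]⟩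
noncomputable def p112_l50 : Lf2 := ⟨nat_lit 0, nat_lit 20, [nat_lit 5, nat_lit 5, nat_lit 5, nat_lit 20], false, nat_lit 160, nat_lit 236, nat_lit 280, nat_lit 344, ⟨nat_lit 247, nat_lit 753, nat_lit 0, nat_lit 8, nat_lit 316, nat_lit 753, nat_lit 159, nat_lit 0, nat_lit 0, nat_lit 0, nat_lit 0, nat_lit 0, nat_lit 36096604, nat_lit 23253947, nat_lit 7649449, nat_lit 5083941, true, true⟩,
 nat_lit 0, nat_lit 0, nat_lit 2603, nat_lit 0, nat_lit 4744, nat_lit 1585, nat_lit 0, nat_lit 0, nat_lit 0, nat_lit 348, nat_lit 0, nat_lit 0, nat_lit 0, nat_lit 0, nat_lit 0, nat_lit 188250, nat_lit 0, nat_lit 0, [(nat_lit 25, [(nat_lit 0, nat_lit 753)])],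
 ⟨p112_k29, nat_lit 0, nat_lit 0, nat_lit 0, nat_lit 0, nat_lit 0, [nat_lit 806978001, nat_lit 2449782800, nat_lit 3138604000], [], [nat_lit 26673501616, nat_lit 26800060864, nat_lit 28952485467, nat_lit 29065387533, nat_lit 27902113543, nat_lit 28013641503, nat_lit 29903450126, nat_lit 30004517264], nat_lit 0, nat_lit 0, nat_lit 0, nat_lit 0, nat_lit 0, nat_lit 0, [], [nat_lit 55, nat_lit 40, nat_lit 40, nat_lit 80]⟩, ⟨p112_k28, nat_lit 0, nat_lit 0, nat_lit 412, nat_lit 0, nat_lit 715777, [nat_lit 1157936000, nat_lit 2430974000, nat_lit 2932384000], [], [nat_lit 7571443629, nat_lit 7579424422, nat_lit 7816825740, nat_lit 7823015597, nat_lit 7834772562, nat_lit 7840433440, nat_lit 8042683072, nat_lit 8056028294], nat_lit 1271250, nat_lit 1271250, nat_lit 1271250, nat_lit 1271250, nat_lit 1271250, nat_lit 1271250, [nat_lit 1100000, nat_lit 2127500, nat_lit 1271250], [nat_lit 125, nat_lit 40, nat_lit 40, nat_lit 80, nat_lit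 41, nat_lit 401, nat_lit 175, nat_lit 9]⟩,
 ⟨nat_lit 2738, nat_lit 2829, ⟨.ofNat (nat_lit 756601), .ofNat (nat_lit 821995), .ofNat (nat_lit 759955), .ofNat (nat_lit 825349), .ofNat (nat_lit 755643), .ofNat (nat_lit 820611), .ofNat (nat_lit 759006), .ofNat (nat_lit 823973)⟩, ⟨.ofNat (nat_lit 328755), .ofNat (nat_lit 441709), .ofNat (nat_lit 351114), .ofNat (nat_lit 464067), .ofNat (nat_lit 328850), .ofNat (nat_lit 441067), .ofNat (nat_lit 351268), .ofNat (nat_lit 463484)⟩⟩, [⟨nat_lit 13, nat_lit 57, nat_lit 64, nat_lit 100, nat_lit 247797210⟩, ⟨nat_lit 16, nat_lit 55, nat_lit 100, nat_lit 93, nat_lit 236132735⟩, ⟨nat_lit 19, nat_lit 100, nat_lit 74, nat_lit 98, nat_lit 83195589⟩]⟩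
noncomputable def p112_l51 : Lf2 := ⟨nat_lit 0, nat_lit 20, [nat_lit 5, nat_lit 5, nat_lit 5, nat_lit 20], false, nat_lit 160, nat_lit 240, nat_lit 280, nat_lit 344, ⟨nat_lit 248, nat_lit 752, nat_lit 0, nat_lit 8, nat_lit 319, nat_lit 752, nat_lit 160, nat_lit 0, nat_lit 0, nat_lit 0, nat_lit 0, nat_lit 0, nat_lit 35840571, nat_lit 23455974, nat_lit 7703455, nat_lit 5098336, true, true⟩,
 nat_lit 0, nat_lit 0, nat_lit 2562, nat_lit 0, nat_lit 4704, nat_lit 1581, nat_lit 0, nat_lit 0, nat_lit 0, nat_lit 314, nat_lit 0, nat_lit 0, nat_lit 0, nat_lit 0, nat_lit 0, nat_lit 188000, nat_lit 0, nat_lit 0, [(nat_lit 25, [(nat_lit 0, nat_lit 752)])],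
 ⟨p112_k17, nat_lit 0, nat_lit 0, nat_lit 0, nat_lit 0, nat_lit 0, [nat_lit 807152001, nat_lit 2452755201, nat_lit 3142736000], [], [nat_lit 26498095605, nat_lit 26813122025, nat_lit 29013125113, nat_lit 29291178443, nat_lit 27819127089, nat_lit 28094850689, nat_lit 30013381827, nat_lit 30257566584], nat_lit 0, nat_lit 0, nat_lit 0, nat_lit 0, nat_lit 0, nat_lit 0, [], [nat_lit 55, nat_lit 40, nat_lit 40, nat_lit 80]⟩, ⟨p112_k30, nat_lit 0, nat_lit 0, nat_lit 411, nat_lit 0, nat_lit 714380, [nat_lit 1162624000, nat_lit 2440816000, nat_lit 2944256000], [], [nat_lit 7670074295, nat_lit 7675439985, nat_lit 7939971561, nat_lit 7944033461, nat_lit 7932360096, nat_lit 7936180790, nat_lit 8158267764, nat_lit 8160939327], nat_lit 1271250, nat_lit 1271250, nat_lit 1271250, nat_lit 1271250, nat_lit 1271250, nat_lit 1271250, [nat_lit 1100000, nat_lit 2127500, nat_lit 1271250], [nat_lit 125, nat_lit 40, nat_lit 40, nat_lit 80, nat_lit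 41, nat_lit 401, nat_lit 175, nat_lit 9]⟩,
 ⟨nat_lit 2738, nat_lit 2959, ⟨.ofNat (nat_lit 761373), .ofNat (nat_lit 833398), .ofNat (nat_lit 763601), .ofNat (nat_lit 835626), .ofNat (nat_lit 759006), .ofNat (nat_lit 829880), .ofNat (nat_lit 761248), .ofNat (nat_lit 832121)⟩, ⟨.ofNat (nat_lit 328592), .ofNat (nat_lit 448634), .ofNat (nat_lit 350869), .ofNat (nat_lit 470911), .ofNat (nat_lit 328850), .ofNat (nat_lit 446973), .ofNat (nat_lit 351268), .ofNat (nat_lit 469390)⟩⟩, [⟨nat_lit 13, nat_lit 57, nat_lit 64, nat_lit 100, nat_lit 247195088⟩, ⟨nat_lit 4, nat_lit 100, nat_lit 55, nat_lit 90, nat_lit 243081941⟩, ⟨nat_lit 19, nat_lit 100, nat_lit 76, nat_lit 98, nat_lit 82943939⟩]⟩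
noncomputable def p112_l52 : Lf2 := ⟨nat_lit 0, nat_lit 20, [nat_lit 5, nat_lit 5, nat_lit 5, nat_lit 20], false, nat_lit 160, nat_lit 248, nat_lit 280, nat_lit 340, ⟨nat_lit 232, nat_lit 768, nat_lit 0, nat_lit 8, nat_lit 319, nat_lit 768, nat_lit 162, nat_lit 0, nat_lit 0, nat_lit 0, nat_lit 0, nat_lit 0, nat_lit 35749169, nat_lit 23373685, nat_lit 7877146, nat_lit 5119133, true, true⟩,
 nat_lit 0, nat_lit 0, nat_lit 2400, nat_lit 0, nat_lit 4680, nat_lit 1494, nat_lit 0, nat_lit 0, nat_lit 0, nat_lit 284, nat_lit 0, nat_lit 0, nat_lit 0, nat_lit 0, nat_lit 0, nat_lit 192000, nat_lit 0, nat_lit 0, [(nat_lit 25, [(nat_lit 0, nat_lit 768)])],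
 ⟨p112_k8, nat_lit 0, nat_lit 0, nat_lit 0, nat_lit 0, nat_lit 0, [nat_lit 804368000, nat_lit 2405196800, nat_lit 3076624000], [], [nat_lit 26143210080, nat_lit 26771616880, nat_lit 28235744800, nat_lit 28802673560, nat_lit 27749310384, nat_lit 28290939341, nat_lit 29542382113, nat_lit 30033020348], nat_lit 0, nat_lit 0, nat_lit 0, nat_lit 0, nat_lit 0, nat_lit 0, [], [nat_lit 55, nat_lit 40, nat_lit 40, nat_lit 80]⟩, ⟨p112_k31, nat_lit 0, nat_lit 0, nat_lit 420, nat_lit 0, nat_lit 737287, [nat_lit 1087616000, nat_lit 2283344000, nat_lit 2754304000], [], [nat_lit 7065775210, nat_lit 7078238968, nat_lit 7269719787, nat_lit 7279634192, nat_lit 7289376132, nat_lit 7298437750, nat_lit 7476279406, nat_lit 7502756524], nat_lit 1271250, nat_lit 1271250, nat_lit 1271250, nat_lit 1271250, nat_lit 1271250, nat_lit 1271250, [nat_lit 1100000, nat_lit 2127500, nat_lit 1271250], [nat_lit 125, nat_lit 40, nat_lit 40, nat_lit 80, nat_lit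 41, nat_lit 401, nat_lit 175, nat_lit 9]⟩,
 ⟨nat_lit 2738, nat_lit 3163, ⟨.ofNat (nat_lit 765939), .ofNat (nat_lit 826893), .ofNat (nat_lit 771478), .ofNat (nat_lit 832432), .ofNat (nat_lit 761248), .ofNat (nat_lit 820309), .ofNat (nat_lit 766852), .ofNat (nat_lit 825913)⟩, ⟨.ofNat (nat_lit 328271), .ofNat (nat_lit 462368), .ofNat (nat_lit 350426), .ofNat (nat_lit 484523), .ofNat (nat_lit 328850), .ofNat (nat_lit 458785), .ofNat (nat_lit 351268), .ofNat (nat_lit 481203)⟩⟩, [⟨nat_lit 16, nat_lit 57, nat_lit 100, nat_lit 90, nat_lit 248989146⟩, ⟨nat_lit 19, nat_lit 100, nat_lit 77, nat_lit 99, nat_lit 78039466⟩]⟩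
noncomputable def p112_l53 : Lf2 := ⟨nat_lit 0, nat_lit 20, [nat_lit 5, nat_lit 5, nat_lit 5, nat_lit 20], false, nat_lit 160, nat_lit 248, nat_lit 280, nat_lit 340, ⟨nat_lit 411, nat_lit 589, nat_lit 0, nat_lit 9, nat_lit 335, nat_lit 589, nat_lit 162, nat_lit 0, nat_lit 0, nat_lit 0, nat_lit 0, nat_lit 0, nat_lit 34510091, nat_lit 24818163, nat_lit 7671746, nat_lit 5134993, true, true⟩,
 nat_lit 0, nat_lit 0, nat_lit 4258, nat_lit 0, nat_lit 3223, nat_lit 2651, nat_lit 142, nat_lit 0, nat_lit 0, nat_lit 436, nat_lit 0, nat_lit 0, nat_lit 0, nat_lit 0, nat_lit 0, nat_lit 350200, nat_lit 0, nat_lit 0, [(nat_lit 25, [(nat_lit 1, nat_lit 398), (nat_lit 2, nat_lit 191)])],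
 ⟨p112_k0, nat_lit 0, nat_lit 0, nat_lit 0, nat_lit 0, nat_lit 0, [nat_lit 1002212801, nat_lit 1674992801, nat_lit 2188328800], [], [nat_lit 27594231306, nat_lit 28050450630, nat_lit 28324182225, nat_lit 28763280177, nat_lit 29001733550, nat_lit 29429048425, nat_lit 29693508159, nat_lit 30140581178], nat_lit 0, nat_lit 0, nat_lit 0, nat_lit 0, nat_lit 0, nat_lit 0, [], [nat_lit 20, nat_lit 40, nat_lit 40, nat_lit 80]⟩, ⟨p112_k32, nat_lit 0, nat_lit 0, nat_lit 411, nat_lit 0, nat_lit 737287, [nat_lit 1926768000, nat_lit 3274848000, nat_lit 4879392000], [], [nat_lit 12937851202, nat_lit 12956748294, nat_lit 13111400639, nat_lit 13128401785, nat_lit 13292860156, nat_lit 13306107118, nat_lit 13669622208, nat_lit 13727738513], nat_lit 1271250, nat_lit 1271250, nat_lit 1271250, nat_lit 1271250, nat_lit 1271250, nat_lit 1271250, [nat_lit 1100000, nat_lit 1785000, nat_lit 1271250], [nat_lit 21, nat_lit 40, nat_lit 40, nat_lit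 80, nat_lit 14, nat_lit 401, nat_lit 175, nat_lit 9]⟩,
 ⟨nat_lit 2738, nat_lit 3163, ⟨.ofNat (nat_lit 826893), .ofNat (nat_lit 851274), .ofNat (nat_lit 832432), .ofNat (nat_lit 856813), .ofNat (nat_lit 820309), .ofNat (nat_lit 843934), .ofNat (nat_lit 825913), .ofNat (nat_lit 849538)⟩, ⟨.ofNat (nat_lit 328271), .ofNat (nat_lit 462368), .ofNat (nat_lit 350426), .ofNat (nat_lit 484523), .ofNat (nat_lit 328850), .ofNat (nat_lit 458785), .ofNat (nat_lit 351268), .ofNat (nat_lit 481203)⟩⟩, [⟨nat_lit 13, nat_lit 57, nat_lit 64, nat_lit 100, nat_lit 340686799⟩, ⟨nat_lit 4, nat_lit 100, nat_lit 57, nat_lit 90, nat_lit 332059986⟩, ⟨nat_lit 19, nat_lit 100, nat_lit 77, nat_lit 99, nat_lit 136718823⟩]⟩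
noncomputable def p112_l54 : Lf2 := ⟨nat_lit 0, nat_lit 15, [nat_lit 30, nat_lit 5, nat_lit 5, nat_lit 20], false, nat_lit 160, nat_lit 232, nat_lit 280, nat_lit 344, ⟨nat_lit 181, nat_lit 819, nat_lit 0, nat_lit 8, nat_lit 315, nat_lit 819, nat_lit 157, nat_lit 0, nat_lit 0, nat_lit 0, nat_lit 0, nat_lit 0, nat_lit 36238151, nat_lit 23203472, nat_lit 7558377, nat_lit 5069510, true, true⟩,
 nat_lit 0, nat_lit 0, nat_lit 2007, nat_lit 0, nat_lit 3678, nat_lit 1222, nat_lit 94, nat_lit 0, nat_lit 0, nat_lit 181, nat_lit 0, nat_lit 0, nat_lit 0, nat_lit 0, nat_lit 0, nat_lit 204750, nat_lit 0, nat_lit 0, [(nat_lit 25, [(nat_lit 0, nat_lit 819)])],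
 ⟨p112_k33, nat_lit 0, nat_lit 0, nat_lit 0, nat_lit 0, nat_lit 0, [nat_lit 795494001, nat_lit 1715089200, nat_lit 2253604400], [], [nat_lit 26282897918, nat_lit 26842582548, nat_lit 28321947219, nat_lit 28825358799, nat_lit 27535150402, nat_lit 28035780200, nat_lit 29356801072, nat_lit 29808563802], nat_lit 0, nat_lit 0, nat_lit 0, nat_lit 0, nat_lit 0, nat_lit 0, [], [nat_lit 35, nat_lit 40, nat_lit 40, nat_lit 80]⟩, ⟨p112_k34, nat_lit 0, nat_lit 0, nat_lit 496, nat_lit 0, nat_lit 886426, [nat_lit 848528000, nat_lit 1442208000, nat_lit 2148832000], [], [nat_lit 5621781615, nat_lit 5631853465, nat_lit 5808867009, nat_lit 5816614803, nat_lit 5821899423, nat_lit 5828957796, nat_lit 5977480781, nat_lit 5982493817], nat_lit 1271250, nat_lit 1271250, nat_lit 1271250, nat_lit 1271250, nat_lit 1271250, nat_lit 1271250, [nat_lit 1100000, nat_lit 1785000, nat_lit 1271250], [nat_lit 21, nat_lit 40, nat_lit 40, nat_lit 80, nat_lit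 14, nat_lit 401, nat_lit 175, nat_lit 9]⟩,
 ⟨nat_lit 2236, nat_lit 2739, ⟨.ofNat (nat_lit 755643), .ofNat (nat_lit 820611), .ofNat (nat_lit 761248), .ofNat (nat_lit 826215), .ofNat (nat_lit 750755), .ofNat (nat_lit 813472), .ofNat (nat_lit 756449), .ofNat (nat_lit 819166)⟩, ⟨.ofNat (nat_lit 328850), .ofNat (nat_lit 435161), .ofNat (nat_lit 351268), .ofNat (nat_lit 457578), .ofNat (nat_lit 329112), .ofNat (nat_lit 431740), .ofNat (nat_lit 351886), .ofNat (nat_lit 454514)⟩⟩, [⟨nat_lit 13, nat_lit 52, nat_lit 69, nat_lit 100, nat_lit 276691401⟩, ⟨nat_lit 16, nat_lit 53, nat_lit 100, nat_lit 93, nat_lit 239397121⟩, ⟨nat_lit 19, nat_lit 100, nat_lit 74, nat_lit 98, nat_lit 61113627⟩]⟩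
noncomputable def p112_l55 : Lf2 := ⟨nat_lit 0, nat_lit 15, [nat_lit 30, nat_lit 5, nat_lit 5, nat_lit 20], false, nat_lit 160, nat_lit 232, nat_lit 280, nat_lit 340, ⟨nat_lit 226, nat_lit 774, nat_lit 0, nat_lit 8, nat_lit 319, nat_lit 774, nat_lit 157, nat_lit 0, nat_lit 0, nat_lit 0, nat_lit 0, nat_lit 0, nat_lit 35978505, nat_lit 23502741, nat_lit 7518754, nat_lit 5074384, true, true⟩,
 nat_lit 0, nat_lit 0, nat_lit 2386, nat_lit 0, nat_lit 3065, nat_lit 1485, nat_lit 188, nat_lit 0, nat_lit 0, nat_lit 217, nat_lit 0, nat_lit 0, nat_lit 0, nat_lit 0, nat_lit 0, nat_lit 193500, nat_lit 0, nat_lit 0, [(nat_lit 25, [(nat_lit 0, nat_lit 774)])],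
 ⟨p112_k33, nat_lit 0, nat_lit 0, nat_lit 0, nat_lit 0, nat_lit 0, [nat_lit 803324001, nat_lit 1801183200, nat_lit 2387362400], [], [nat_lit 25981416165, nat_lit 26499058190, nat_lit 28074988752, nat_lit 28538820039, nat_lit 27292636552, nat_lit 27758208266, nat_lit 29176107218, nat_lit 29595009633], nat_lit 0, nat_lit 0, nat_lit 0, nat_lit 0, nat_lit 0, nat_lit 0, [], [nat_lit 35, nat_lit 40, nat_lit 40, nat_lit 80]⟩, ⟨p112_k35, nat_lit 0, nat_lit 0, nat_lit 447, nat_lit 0, nat_lit 887186, [nat_lit 1059488000, nat_lit 1800768000, nat_lit 2224292000], [], [nat_lit 6995581913, nat_lit 7008369751, nat_lit 7249270125, nat_lit 7258953274, nat_lit 7222214455, nat_lit 7231560345, nat_lit 7437756873, nat_lit 7457667214], nat_lit 1271250, nat_lit 1271250, nat_lit 1271250, nat_lit 1271250, nat_lit 1271250, nat_lit 1271250, [nat_lit 1100000, nat_lit 1785000, nat_lit 1271250], [nat_lit 29, nat_lit 40, nat_lit 40, nat_lit 80, nat_lit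 17, nat_lit 289, nat_lit 75, nat_lit 7]⟩,
 ⟨nat_lit 2236, nat_lit 2739, ⟨.ofNat (nat_lit 761248), .ofNat (nat_lit 832121), .ofNat (nat_lit 766852), .ofNat (nat_lit 837726), .ofNat (nat_lit 756449), .ofNat (nat_lit 824867), .ofNat (nat_lit 762142), .ofNat (nat_lit 830561)⟩, ⟨.ofNat (nat_lit 328850), .ofNat (nat_lit 435161), .ofNat (nat_lit 351268), .ofNat (nat_lit 457578), .ofNat (nat_lit 329112), .ofNat (nat_lit 431740), .ofNat (nat_lit 351886), .ofNat (nat_lit 454514)⟩⟩, [⟨nat_lit 13, nat_lit 53, nat_lit 67, nat_lit 100, nat_lit 231596900⟩, ⟨nat_lit 4, nat_lit 100, nat_lit 48, nat_lit 89, nat_lit 312434810⟩, ⟨nat_lit 19, nat_lit 100, nat_lit 77, nat_lit 99, nat_lit 74673108⟩]⟩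
noncomputable def p112_l56 : Lf2 := ⟨nat_lit 0, nat_lit 20, [nat_lit 5, nat_lit 5, nat_lit 5, nat_lit 20], false, nat_lit 160, nat_lit 232, nat_lit 280, nat_lit 344, ⟨nat_lit 931, nat_lit 69, nat_lit 0, nat_lit 8, nat_lit 318, nat_lit 69, nat_lit 157, nat_lit 0, nat_lit 0, nat_lit 0, nat_lit 0, nat_lit 0, nat_lit 36011132, nat_lit 23453738, nat_lit 7535130, nat_lit 5074998, true, true⟩,
 nat_lit 0, nat_lit 0, nat_lit 10173, nat_lit 0, nat_lit 4263, nat_lit 6195, nat_lit 442, nat_lit 0, nat_lit 0, nat_lit 798, nat_lit 0, nat_lit 0, nat_lit 0, nat_lit 0, nat_lit 0, nat_lit 17250, nat_lit 0, nat_lit 0, [(nat_lit 25, [(nat_lit 0, nat_lit 69)])],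
 ⟨p112_k3, nat_lit 0, nat_lit 0, nat_lit 0, nat_lit 0, nat_lit 0, [nat_lit 925994001, nat_lit 3149989200, nat_lit 5964892000], [], [nat_lit 26774847186, nat_lit 27057017439, nat_lit 29008086990, nat_lit 29261063254, nat_lit 27870471695, nat_lit 28122046974, nat_lit 29993472660, nat_lit 30261874636], nat_lit 0, nat_lit 0, nat_lit 0, nat_lit 0, nat_lit 0, nat_lit 0, [], [nat_lit 20, nat_lit 40, nat_lit 40, nat_lit 80]⟩, ⟨p112_k19, nat_lit 0, nat_lit 0, nat_lit 358, nat_lit 0, nat_lit 587335, [nat_lit 4364528000, nat_lit 7418208000, nat_lit 11052832000], [], [nat_lit 28487735651, nat_lit 28610748334, nat_lit 29921445904, nat_lit 30055741114, nat_lit 29944575980, nat_lit 30072603101, nat_lit 31391299187, nat_lit 31514575598], nat_lit 1271250, nat_lit 1271250, nat_lit 1271250, nat_lit 1271250, nat_lit 1271250, nat_lit 1271250, [nat_lit 1100000, nat_lit 1785000, nat_lit 1271250], [nat_lit 21, nat_lit 40, nat_lit 40, nat_lit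 80, nat_lit 14, nat_lit 401, nat_lit 175, nat_lit 9]⟩,
 ⟨nat_lit 2500, nat_lit 2739, ⟨.ofNat (nat_lit 755643), .ofNat (nat_lit 826517), .ofNat (nat_lit 766852), .ofNat (nat_lit 837726), .ofNat (nat_lit 753224), .ofNat (nat_lit 822902), .ofNat (nat_lit 764515), .ofNat (nat_lit 834192)⟩, ⟨.ofNat (nat_lit 328850), .ofNat (nat_lit 435161), .ofNat (nat_lit 351268), .ofNat (nat_lit 457578), .ofNat (nat_lit 329031), .ofNat (nat_lit 433547), .ofNat (nat_lit 351611), .ofNat (nat_lit 456128)⟩⟩, [⟨nat_lit 4, nat_lit 100, nat_lit 51, nat_lit 89, nat_lit 570996481⟩, ⟨nat_lit 7, nat_lit 81, nat_lit 100, nat_lit 96, nat_lit 370556867⟩]⟩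
noncomputable def p112_l57 : Lf2 := ⟨nat_lit 0, nat_lit 20, [nat_lit 5, nat_lit 5, nat_lit 5, nat_lit 20], false, nat_lit 160, nat_lit 220, nat_lit 280, nat_lit 344, ⟨nat_lit 609, nat_lit 391, nat_lit 0, nat_lit 8, nat_lit 312, nat_lit 391, nat_lit 153, nat_lit 0, nat_lit 0, nat_lit 0, nat_lit 0, nat_lit 0, nat_lit 36619851, nat_lit 23031327, nat_lit 7348822, nat_lit 5033659, true, true⟩,
 nat_lit 0, nat_lit 0, nat_lit 6505, nat_lit 0, nat_lit 2881, nat_lit 3961, nat_lit 392, nat_lit 0, nat_lit 0, nat_lit 501, nat_lit 0, nat_lit 0, nat_lit 0, nat_lit 0, nat_lit 0, nat_lit 97750, nat_lit 0, nat_lit 0, [(nat_lit 25, [(nat_lit 0, nat_lit 391)])],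
 ⟨p112_k4, nat_lit 0, nat_lit 0, nat_lit 0, nat_lit 0, nat_lit 0, [nat_lit 869966001, nat_lit 2533938800, nat_lit 4634388000], [], [nat_lit 26305948250, nat_lit 26540394831, nat_lit 27705530946, nat_lit 27926575690, nat_lit 27329620554, nat_lit 27545190771, nat_lit 28615249029, nat_lit 28815304864], nat_lit 0, nat_lit 0, nat_lit 0, nat_lit 0, nat_lit 0, nat_lit 0, [], [nat_lit 20, nat_lit 40, nat_lit 40, nat_lit 80]⟩, ⟨p112_k19, nat_lit 0, nat_lit 0, nat_lit 375, nat_lit 0, nat_lit 636478, [nat_lit 2854992000, nat_lit 4852512000, nat_lit 7230048000], [], [nat_lit 19142661790, nat_lit 19183303427, nat_lit 19722345098, nat_lit 19758315356, nat_lit 19964729239, nat_lit 20001986963, nat_lit 20554244654, nat_lit 20589243718], nat_lit 1271250, nat_lit 1271250, nat_lit 1271250, nat_lit 1271250, nat_lit 1271250, nat_lit 1271250, [nat_lit 1100000, nat_lit 1785000, nat_lit 1271250], [nat_lit 21, nat_lit 40, nat_lit 40, nat_lit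 80, nat_lit 14, nat_lit 401, nat_lit 175, nat_lit 9]⟩,
 ⟨nat_lit 2236, nat_lit 2500, ⟨.ofNat (nat_lit 753224), .ofNat (nat_lit 805482), .ofNat (nat_lit 758869), .ofNat (nat_lit 811128), .ofNat (nat_lit 750755), .ofNat (nat_lit 802069), .ofNat (nat_lit 756449), .ofNat (nat_lit 807763)⟩, ⟨.ofNat (nat_lit 329031), .ofNat (nat_lit 416128), .ofNat (nat_lit 351611), .ofNat (nat_lit 438708), .ofNat (nat_lit 329112), .ofNat (nat_lit 414635), .ofNat (nat_lit 351886), .ofNat (nat_lit 437409)⟩⟩, [⟨nat_lit 13, nat_lit 47, nat_lit 74, nat_lit 100, nat_lit 26150197⟩, ⟨nat_lit 4, nat_lit 100, nat_lit 46, nat_lit 89, nat_lit 494543151⟩, ⟨nat_lit 7, nat_lit 80, nat_lit 100, nat_lit 96, nat_lit 231363382⟩]⟩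
noncomputable def p112_l58 : Lf2 := ⟨nat_lit 0, nat_lit 20, [nat_lit 5, nat_lit 5, nat_lit 5, nat_lit 20], false, nat_lit 160, nat_lit 220, nat_lit 280, nat_lit 340, ⟨nat_lit 722, nat_lit 278, nat_lit 0, nat_lit 8, nat_lit 316, nat_lit 278, nat_lit 153, nat_lit 0, nat_lit 0, nat_lit 0, nat_lit 0, nat_lit 0, nat_lit 36356799, nat_lit 23332596, nat_lit 7310605, nat_lit 5039079, true, true⟩,
 nat_lit 0, nat_lit 0, nat_lit 7532, nat_lit 0, nat_lit 2911, nat_lit 4689, nat_lit 444, nat_lit 0, nat_lit 0, nat_lit 606, nat_lit 0, nat_lit 0, nat_lit 0, nat_lit 0, nat_lit 0, nat_lit 69500, nat_lit 0, nat_lit 0, [(nat_lit 25, [(nat_lit 0, nat_lit 278)])],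
 ⟨p112_k4, nat_lit 0, nat_lit 0, nat_lit 0, nat_lit 0, nat_lit 0, [nat_lit 889628000, nat_lit 2750130401, nat_lit 5101304000], [], [nat_lit 26233222804, nat_lit 26468583230, nat_lit 27791823576, nat_lit 28014582646, nat_lit 27254150693, nat_lit 27470506370, nat_lit 28779621384, nat_lit 29018481045], nat_lit 0, nat_lit 0, nat_lit 0, nat_lit 0, nat_lit 0, nat_lit 0, [], [nat_lit 20, nat_lit 40, nat_lit 40, nat_lit 80]⟩, ⟨p112_k32, nat_lit 0, nat_lit 0, nat_lit 377, nat_lit 0, nat_lit 645507, [nat_lit 3384736000, nat_lit 5752896000, nat_lit 8571584000], [], [nat_lit 22167957655, nat_lit 22216171460, nat_lit 22940481636, nat_lit 22995239490, nat_lit 23080124330, nat_lit 23131269623, nat_lit 23863831793, nat_lit 23908070756], nat_lit 1271250, nat_lit 1271250, nat_lit 1271250, nat_lit 1271250, nat_lit 1271250, nat_lit 1271250, [nat_lit 1100000, nat_lit 1785000, nat_lit 1271250], [nat_lit 21, nat_lit 40, nat_lit 40, nat_lit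 80, nat_lit 14, nat_lit 401, nat_lit 175, nat_lit 9]⟩,
 ⟨nat_lit 2236, nat_lit 2500, ⟨.ofNat (nat_lit 758869), .ofNat (nat_lit 816934), .ofNat (nat_lit 764515), .ofNat (nat_lit 822579), .ofNat (nat_lit 756449), .ofNat (nat_lit 813464), .ofNat (nat_lit 762142), .ofNat (nat_lit 819158)⟩, ⟨.ofNat (nat_lit 329031), .ofNat (nat_lit 416128), .ofNat (nat_lit 351611), .ofNat (nat_lit 438708), .ofNat (nat_lit 329112), .ofNat (nat_lit 414635), .ofNat (nat_lit 351886), .ofNat (nat_lit 437409)⟩⟩, [⟨nat_lit 4, nat_lit 100, nat_lit 46, nat_lit 89, nat_lit 565439404⟩, ⟨nat_lit 7, nat_lit 83, nat_lit 100, nat_lit 97, nat_lit 270869590⟩]⟩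
noncomputable def b_V_900_600_20_18 : St := ⟨true, nat_lit 0, nat_lit 1, nat_lit 1, nat_lit 120, nat_lit 360, nat_lit 380, nat_lit 270, nat_lit 280, nat_lit 320, nat_lit 376, nat_lit 80, nat_lit 120, nat_lit 160, nat_lit 248, nat_lit 240, nat_lit 352, nat_lit 40, nat_lit 80, nat_lit 300, nat_lit 460, nat_lit 0, nat_lit 0⟩
theorem d_V_900_600_20_18 (h : EB TB.env) : Dead b_V_900_600_20_18 := chkB_sound0 h (T :=
(.trX (nat_lit 19) (nat_lit 100) (nat_lit 74) (nat_lit 98) (nat_lit 344) (.spl (nat_lit 3) (nat_lit 100)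
(.trX (nat_lit 16) (nat_lit 60) (nat_lit 100) (nat_lit 87) (nat_lit 224) (.trX (nat_lit 19) (nat_lit 100) (nat_lit 82) (nat_lit 92) (nat_lit 328) (.spl (nat_lit 2) (nat_lit 360)
(.leaf p112_l44)
(.leaf p112_l45))))
(.spl (nat_lit 5) (nat_lit 280)
(.spl (nat_lit 0) (nat_lit 370)
(.leaf p112_l46)
(.trX (nat_lit 13) (nat_lit 57) (nat_lit 62) (nat_lit 100) (nat_lit 368) (.trX (nat_lit 16) (nat_lit 53) (nat_lit 100) (nat_lit 93) (nat_lit 232) (.leaf p112_l47))))
(.spl (nat_lit 0) (nat_lit 370)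
(.spl (nat_lit 1) (nat_lit 275)
(.trX (nat_lit 13) (nat_lit 65) (nat_lit 56) (nat_lit 100) (nat_lit 372) (.spl (nat_lit 0) (nat_lit 365)
(.leaf p112_l48)
(.trX (nat_lit 13) (nat_lit 61) (nat_lit 60) (nat_lit 100) (nat_lit 368) (.trX (nat_lit 16) (nat_lit 58) (nat_lit 100) (nat_lit 93) (nat_lit 240) (.spl (nat_lit 1) (nat_lit 273)
(.spl (nat_lit 0) (nat_lit 368)
(.leaf p112_l49)
(.trX (nat_lit 13) (nat_lit 58) (nat_lit 63) (nat_lit 100) (nat_lit 364) (.trX (nat_lit 16) (nat_lit 55) (nat_lit 100) (nat_lit 93) (nat_lit 236) (.leaf p112_l50))))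
(.leaf p112_l51))))))
(.trX (nat_lit 19) (nat_lit 100) (nat_lit 77) (nat_lit 99) (nat_lit 340) (.spl (nat_lit 2) (nat_lit 360)
(.leaf p112_l52)
(.leaf p112_l53))))
(.trX (nat_lit 13) (nat_lit 57) (nat_lit 62) (nat_lit 100) (nat_lit 368) (.trX (nat_lit 16) (nat_lit 53) (nat_lit 100) (nat_lit 93) (nat_lit 232) (.spl (nat_lit 6) (nat_lit 60)
(.spl (nat_lit 1) (nat_lit 275)
(.trX (nat_lit 13) (nat_lit 57) (nat_lit 64) (nat_lit 100) (nat_lit 364) (.leaf p112_l54))
(.trX (nat_lit 19) (nat_lit 100) (nat_lit 77) (nat_lit 99) (nat_lit 340) (.leaf p112_l55)))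
(.spl (nat_lit 0) (nat_lit 375)
(.leaf p112_l56)
(.trX (nat_lit 13) (nat_lit 53) (nat_lit 66) (nat_lit 100) (nat_lit 360) (.trX (nat_lit 16) (nat_lit 49) (nat_lit 100) (nat_lit 92) (nat_lit 220) (.spl (nat_lit 1) (nat_lit 275)
(.trX (nat_lit 13) (nat_lit 52) (nat_lit 68) (nat_lit 100) (nat_lit 356) (.leaf p112_l57))
(.trX (nat_lit 19) (nat_lit 100) (nat_lit 77) (nat_lit 99) (nat_lit 340) (.leaf p112_l58)))))))))))))) (by decide +kernel)
noncomputable def p112_l59 : Lf2 := ⟨nat_lit 0, nat_lit 20, [nat_lit 5, nat_lit 5, nat_lit 5, nat_lit 20], true, nat_lit 160, nat_lit 208, nat_lit 16, nat_lit 364, ⟨nat_lit 0, nat_lit 1000, nat_lit 0, nat_lit 8, nat_lit 296, nat_lit 1000, nat_lit 145, nat_lit 0, nat_lit 0, nat_lit 0, nat_lit 0, nat_lit 0, nat_lit 38326090, nat_lit 21721985, nat_lit 6951925, nat_lit 4921489, true, true⟩,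
 nat_lit 0, nat_lit 0, nat_lit 0, nat_lit 0, nat_lit 3167, nat_lit 0, nat_lit 0, nat_lit 0, nat_lit 0, nat_lit 0, nat_lit 0, nat_lit 0, nat_lit 0, nat_lit 0, nat_lit 0, nat_lit 250000, nat_lit 0, nat_lit 0, [(nat_lit 28, [(nat_lit 0, nat_lit 1000)])],
 ⟨p112_k36, nat_lit 0, nat_lit 0, nat_lit 79, nat_lit 0, nat_lit 0, [nat_lit 781600001, nat_lit 1560400000, nat_lit 1560400000], [], [nat_lit 26833065122, nat_lit 27357702817, nat_lit 27681912905, nat_lit 28200257038, nat_lit 27665182414, nat_lit 28154331777, nat_lit 28456677714, nat_lit 28991466474], nat_lit 0, nat_lit 0, nat_lit 0, nat_lit 0, nat_lit 0, nat_lit 0, [], [nat_lit 55, nat_lit 40, nat_lit 40, nat_lit 80, nat_lit 3, nat_lit 272, nat_lit 60, nat_lit 8]⟩, C1.Rw.none,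
 ⟨nat_lit 1581, nat_lit 2237, ⟨.ofNat (nat_lit 716594), .ofNat (nat_lit 745101), .ofNat (nat_lit 739368), .ofNat (nat_lit 767876), .ofNat (nat_lit 710536), .ofNat (nat_lit 737854), .ofNat (nat_lit 733851), .ofNat (nat_lit 761169)⟩, ⟨.ofNat (nat_lit 306337), .ofNat (nat_lit 374756), .ofNat (nat_lit 351886), .ofNat (nat_lit 420305), .ofNat (nat_lit 305473), .ofNat (nat_lit 371036), .ofNat (nat_lit 352103), .ofNat (nat_lit 417666)⟩⟩, [⟨nat_lit 13, nat_lit 46, nat_lit 76, nat_lit 100, nat_lit 434874113⟩, ⟨nat_lit 16, nat_lit 44, nat_lit 100, nat_lit 92, nat_lit 245771552⟩]⟩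
noncomputable def p112_l60 : Lf2 := ⟨nat_lit 0, nat_lit 20, [nat_lit 5, nat_lit 5, nat_lit 5, nat_lit 20], false, nat_lit 160, nat_lit 208, nat_lit 16, nat_lit 352, ⟨nat_lit 158, nat_lit 842, nat_lit 0, nat_lit 8, nat_lit 300, nat_lit 842, nat_lit 144, nat_lit 0, nat_lit 0, nat_lit 0, nat_lit 0, nat_lit 0, nat_lit 37995934, nat_lit 22190050, nat_lit 6814016, nat_lit 4921059, true, true⟩,
 nat_lit 0, nat_lit 0, nat_lit 2180, nat_lit 0, nat_lit 2784, nat_lit 1268, nat_lit 172, nat_lit 0, nat_lit 0, nat_lit 125, nat_lit 0, nat_lit 0, nat_lit 0, nat_lit 0, nat_lit 0, nat_lit 210500, nat_lit 0, nat_lit 0, [(nat_lit 28, [(nat_lit 0, nat_lit 842)])],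
 ⟨p112_k37, nat_lit 0, nat_lit 0, nat_lit 92, nat_lit 0, nat_lit 0, [nat_lit 806311200, nat_lit 1430947200, nat_lit 2422854667], [], [nat_lit 26451280823, nat_lit 27395199239, nat_lit 27377717169, nat_lit 28429713863, nat_lit 27261096216, nat_lit 28230842893, nat_lit 28199828667, nat_lit 29208925265], nat_lit 0, nat_lit 0, nat_lit 0, nat_lit 0, nat_lit 0, nat_lit 0, [], [nat_lit 20, nat_lit 40, nat_lit 40, nat_lit 80, nat_lit 16, nat_lit 272, nat_lit 60, nat_lit 8]⟩, ⟨p112_k18, nat_lit 0, nat_lit 0, nat_lit 899, nat_lit 0, nat_lit 1508924, [nat_lit 740704000, nat_lit 1258944000, nat_lit 1875776000], [], [nat_lit 5771388533, nat_lit 5778021291, nat_lit 5856519919, nat_lit 5861961816, nat_lit 5120197176, nat_lit 5118921435, nat_lit 5235529628, nat_lit 5247223018], nat_lit 1271250, nat_lit 1271250, nat_lit 1271250, nat_lit 1271250, nat_lit 88400, nat_lit 2511800, [nat_lit 1100000, nat_lit 1785000, nat_lit 1271250], [nat_lit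 21, nat_lit 40, nat_lit 40, nat_lit 80, nat_lit 14, nat_lit 401, nat_lit 175, nat_lit 10]⟩,
 ⟨nat_lit 0, nat_lit 2237, ⟨.ofNat (nat_lit 739366), .ofNat (nat_lit 773574), .ofNat (nat_lit 745060), .ofNat (nat_lit 779268), .ofNat (nat_lit 724997), .ofNat (nat_lit 754996), .ofNat (nat_lit 731247), .ofNat (nat_lit 761246)⟩, ⟨.ofNat (nat_lit 306334), .ofNat (nat_lit 374750), .ofNat (nat_lit 351885), .ofNat (nat_lit 420300), .ofNat (nat_lit 299996), .ofNat (nat_lit 359993), .ofNat (nat_lit 349998), .ofNat (nat_lit 409994)⟩⟩, [⟨nat_lit 13, nat_lit 46, nat_lit 75, nat_lit 100, nat_lit 306697789⟩, ⟨nat_lit 16, nat_lit 44, nat_lit 100, nat_lit 92, nat_lit 362048803⟩, ⟨nat_lit 10, nat_lit 65, nat_lit 75, nat_lit 100, nat_lit 28323873⟩]⟩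
noncomputable def p112_l61 : Lf2 := ⟨nat_lit 0, nat_lit 20, [nat_lit 5, nat_lit 5, nat_lit 5, nat_lit 20], false, nat_lit 160, nat_lit 208, nat_lit 16, nat_lit 348, ⟨nat_lit 194, nat_lit 806, nat_lit 0, nat_lit 8, nat_lit 307, nat_lit 806, nat_lit 145, nat_lit 0, nat_lit 0, nat_lit 0, nat_lit 0, nat_lit 0, nat_lit 37441484, nat_lit 22703596, nat_lit 6854920, nat_lit 4948438, true, true⟩,
 nat_lit 0, nat_lit 0, nat_lit 2454, nat_lit 0, nat_lit 2755, nat_lit 1461, nat_lit 181, nat_lit 0, nat_lit 0, nat_lit 163, nat_lit 0, nat_lit 0, nat_lit 0, nat_lit 0, nat_lit 0, nat_lit 201500, nat_lit 0, nat_lit 0, [(nat_lit 28, [(nat_lit 0, nat_lit 806)])],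
 ⟨p112_k37, nat_lit 0, nat_lit 0, nat_lit 81, nat_lit 0, nat_lit 0, [nat_lit 811941600, nat_lit 1510089601, nat_lit 2583150667], [], [nat_lit 26536002542, nat_lit 26766610975, nat_lit 27596247673, nat_lit 27817560137, nat_lit 27349491902, nat_lit 27565430617, nat_lit 28342644372, nat_lit 28587663553], nat_lit 0, nat_lit 0, nat_lit 0, nat_lit 0, nat_lit 0, nat_lit 0, [], [nat_lit 20, nat_lit 40, nat_lit 40, nat_lit 80, nat_lit 16, nat_lit 272, nat_lit 60, nat_lit 8]⟩, ⟨p112_k20, nat_lit 0, nat_lit 0, nat_lit 754, nat_lit 0, nat_lit 1193182, [nat_lit 909472000, nat_lit 1545792000, nat_lit 2303168000], [], [nat_lit 6840789965, nat_lit 6849451649, nat_lit 6990146969, nat_lit 7003597852, nat_lit 6276320385, nat_lit 6279990805, nat_lit 6362160792, nat_lit 6370582509], nat_lit 1271250, nat_lit 1271250, nat_lit 1271250, nat_lit 1271250, nat_lit 88400, nat_lit 2482950, [nat_lit 1100000, nat_lit 1785000, nat_lit 1271250], [nat_lit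 21, nat_lit 40, nat_lit 40, nat_lit 80, nat_lit 14, nat_lit 401, nat_lit 175, nat_lit 10]⟩,
 ⟨nat_lit 1936, nat_lit 2237, ⟨.ofNat (nat_lit 745062), .ofNat (nat_lit 784972), .ofNat (nat_lit 750755), .ofNat (nat_lit 790666), .ofNat (nat_lit 742451), .ofNat (nat_lit 781574), .ofNat (nat_lit 748204), .ofNat (nat_lit 787326)⟩, ⟨.ofNat (nat_lit 306337), .ofNat (nat_lit 374756), .ofNat (nat_lit 351886), .ofNat (nat_lit 420305), .ofNat (nat_lit 306044), .ofNat (nat_lit 373111), .ofNat (nat_lit 352066), .ofNat (nat_lit 419133)⟩⟩, [⟨nat_lit 13, nat_lit 43, nat_lit 77, nat_lit 100, nat_lit 260935462⟩, ⟨nat_lit 16, nat_lit 44, nat_lit 100, nat_lit 92, nat_lit 326160374⟩, ⟨nat_lit 19, nat_lit 100, nat_lit 71, nat_lit 97, nat_lit 29350723⟩]⟩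
noncomputable def p112_l62 : Lf2 := ⟨nat_lit 0, nat_lit 20, [nat_lit 5, nat_lit 5, nat_lit 5, nat_lit 20], true, nat_lit 160, nat_lit 196, nat_lit 16, nat_lit 348, ⟨nat_lit 0, nat_lit 1000, nat_lit 0, nat_lit 8, nat_lit 302, nat_lit 1000, nat_lit 142, nat_lit 0, nat_lit 0, nat_lit 0, nat_lit 0, nat_lit 0, nat_lit 37973125, nat_lit 22372101, nat_lit 6654774, nat_lit 4904247, true, true⟩,
 nat_lit 0, nat_lit 0, nat_lit 0, nat_lit 0, nat_lit 3026, nat_lit 0, nat_lit 0, nat_lit 0, nat_lit 0, nat_lit 0, nat_lit 0, nat_lit 0, nat_lit 0, nat_lit 0, nat_lit 0, nat_lit 250000, nat_lit 0, nat_lit 0, [(nat_lit 28, [(nat_lit 0, nat_lit 1000)])],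
 ⟨p112_k38, nat_lit 0, nat_lit 0, nat_lit 75, nat_lit 0, nat_lit 0, [nat_lit 781600001, nat_lit 1046000001, nat_lit 1376400000], [], [nat_lit 26932441121, nat_lit 27189924726, nat_lit 27592480465, nat_lit 27841060154, nat_lit 27551207671, nat_lit 27795784790, nat_lit 28178429935, nat_lit 28447598929], nat_lit 0, nat_lit 0, nat_lit 0, nat_lit 0, nat_lit 0, nat_lit 0, [], [nat_lit 35, nat_lit 40, nat_lit 40, nat_lit 80, nat_lit 22, nat_lit 203, nat_lit 0, nat_lit 6]⟩, C1.Rw.none,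
 ⟨nat_lit 1581, nat_lit 1937, ⟨.ofNat (nat_lit 742451), .ofNat (nat_lit 764807), .ofNat (nat_lit 748204), .ofNat (nat_lit 770560), .ofNat (nat_lit 739680), .ofNat (nat_lit 761534), .ofNat (nat_lit 745508), .ofNat (nat_lit 767363)⟩, ⟨.ofNat (nat_lit 306044), .ofNat (nat_lit 356345), .ofNat (nat_lit 352066), .ofNat (nat_lit 402366), .ofNat (nat_lit 305473), .ofNat (nat_lit 354645), .ofNat (nat_lit 352103), .ofNat (nat_lit 401275)⟩⟩, [⟨nat_lit 13, nat_lit 41, nat_lit 78, nat_lit 100, nat_lit 483348423⟩, ⟨nat_lit 16, nat_lit 38, nat_lit 100, nat_lit 92, nat_lit 295162052⟩]⟩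
noncomputable def p112_l63 : Lf2 := ⟨nat_lit 0, nat_lit 20, [nat_lit 5, nat_lit 5, nat_lit 5, nat_lit 20], true, nat_lit 160, nat_lit 184, nat_lit 16, nat_lit 348, ⟨nat_lit 0, nat_lit 1000, nat_lit 0, nat_lit 8, nat_lit 297, nat_lit 1000, nat_lit 137, nat_lit 0, nat_lit 0, nat_lit 0, nat_lit 0, nat_lit 0, nat_lit 38548612, nat_lit 22053046, nat_lit 6398342, nat_lit 4850124, true, true⟩,
 nat_lit 0, nat_lit 0, nat_lit 0, nat_lit 0, nat_lit 2698, nat_lit 0, nat_lit 45, nat_lit 0, nat_lit 0, nat_lit 0, nat_lit 0, nat_lit 0, nat_lit 0, nat_lit 0, nat_lit 0, nat_lit 250000, nat_lit 0, nat_lit 0, [(nat_lit 28, [(nat_lit 0, nat_lit 1000)])],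
 ⟨p112_k39, nat_lit 0, nat_lit 0, nat_lit 79, nat_lit 0, nat_lit 0, [nat_lit 781600001, nat_lit 1046000001, nat_lit 1376400000], [], [nat_lit 26779770173, nat_lit 27274679312, nat_lit 27094222296, nat_lit 27620150506, nat_lit 27196717252, nat_lit 27702408997, nat_lit 27501146331, nat_lit 28036680416], nat_lit 0, nat_lit 0, nat_lit 0, nat_lit 0, nat_lit 0, nat_lit 0, [], [nat_lit 35, nat_lit 40, nat_lit 40, nat_lit 80, nat_lit 22, nat_lit 203, nat_lit 0, nat_lit 6]⟩, C1.Rw.none,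
 ⟨nat_lit 0, nat_lit 1582, ⟨.ofNat (nat_lit 739678), .ofNat (nat_lit 750605), .ofNat (nat_lit 745507), .ofNat (nat_lit 756434), .ofNat (nat_lit 731247), .ofNat (nat_lit 741247), .ofNat (nat_lit 737498), .ofNat (nat_lit 747497)⟩, ⟨.ofNat (nat_lit 305469), .ofNat (nat_lit 338250), .ofNat (nat_lit 352101), .ofNat (nat_lit 384882), .ofNat (nat_lit 299995), .ofNat (nat_lit 329995), .ofNat (nat_lit 349997), .ofNat (nat_lit 379997)⟩⟩, [⟨nat_lit 13, nat_lit 33, nat_lit 83, nat_lit 100, nat_lit 600507888⟩, ⟨nat_lit 16, nat_lit 31, nat_lit 100, nat_lit 92, nat_lit 385908012⟩]⟩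
noncomputable def p112_l64 : Lf2 := ⟨nat_lit 0, nat_lit 20, [nat_lit 5, nat_lit 5, nat_lit 5, nat_lit 20], false, nat_lit 160, nat_lit 208, nat_lit 16, nat_lit 344, ⟨nat_lit 218, nat_lit 782, nat_lit 0, nat_lit 8, nat_lit 308, nat_lit 782, nat_lit 145, nat_lit 0, nat_lit 0, nat_lit 0, nat_lit 0, nat_lit 0, nat_lit 37354727, nat_lit 22816368, nat_lit 6828905, nat_lit 4948946, true, true⟩,
 nat_lit 0, nat_lit 0, nat_lit 2647, nat_lit 0, nat_lit 2549, nat_lit 1611, nat_lit 227, nat_lit 0, nat_lit 0, nat_lit 182, nat_lit 0, nat_lit 0, nat_lit 0, nat_lit 0, nat_lit 0, nat_lit 195500, nat_lit 0, nat_lit 0, [(nat_lit 28, [(nat_lit 0, nat_lit 782)])],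
 ⟨p112_k37, nat_lit 0, nat_lit 0, nat_lit 86, nat_lit 0, nat_lit 0, [nat_lit 815695201, nat_lit 1562851200, nat_lit 2690014667], [], [nat_lit 26281323313, nat_lit 26729990040, nat_lit 27318874248, nat_lit 27757596609, nat_lit 27110593922, nat_lit 27531331736, nat_lit 28100755699, nat_lit 28584421408], nat_lit 0, nat_lit 0, nat_lit 0, nat_lit 0, nat_lit 0, nat_lit 0, [], [nat_lit 20, nat_lit 40, nat_lit 40, nat_lit 80, nat_lit 16, nat_lit 272, nat_lit 60, nat_lit 8]⟩, ⟨p112_k19, nat_lit 0, nat_lit 0, nat_lit 802, nat_lit 0, nat_lit 1263089, [nat_lit 1021984000, nat_lit 1737024000, nat_lit 2588096000], [], [nat_lit 7663893230, nat_lit 7667936264, nat_lit 7766443698, nat_lit 7769611471, nat_lit 6888196075, nat_lit 6887190458, nat_lit 7079568080, nat_lit 7092236873], nat_lit 1271250, nat_lit 1271250, nat_lit 1271250, nat_lit 1271250, nat_lit 88400, nat_lit 2454100, [nat_lit 1100000, nat_lit 1785000, nat_lit 1271250], [nat_lit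 21, nat_lit 40, nat_lit 40, nat_lit 80, nat_lit 14, nat_lit 401, nat_lit 175, nat_lit 10]⟩,
 ⟨nat_lit 1581, nat_lit 2237, ⟨.ofNat (nat_lit 750755), .ofNat (nat_lit 790666), .ofNat (nat_lit 754171), .ofNat (nat_lit 794082), .ofNat (nat_lit 745508), .ofNat (nat_lit 783753), .ofNat (nat_lit 749006), .ofNat (nat_lit 787251)⟩, ⟨.ofNat (nat_lit 306337), .ofNat (nat_lit 374756), .ofNat (nat_lit 351886), .ofNat (nat_lit 420305), .ofNat (nat_lit 305473), .ofNat (nat_lit 371036), .ofNat (nat_lit 352103), .ofNat (nat_lit 417666)⟩⟩, [⟨nat_lit 13, nat_lit 41, nat_lit 78, nat_lit 100, nat_lit 294864462⟩, ⟨nat_lit 16, nat_lit 44, nat_lit 100, nat_lit 92, nat_lit 342059482⟩, ⟨nat_lit 19, nat_lit 100, nat_lit 74, nat_lit 98, nat_lit 31277455⟩]⟩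
noncomputable def p112_l65 : Lf2 := ⟨nat_lit 0, nat_lit 20, [nat_lit 5, nat_lit 5, nat_lit 5, nat_lit 20], false, nat_lit 160, nat_lit 208, nat_lit 16, nat_lit 344, ⟨nat_lit 229, nat_lit 771, nat_lit 0, nat_lit 8, nat_lit 310, nat_lit 771, nat_lit 145, nat_lit 0, nat_lit 0, nat_lit 0, nat_lit 0, nat_lit 0, nat_lit 37174994, nat_lit 23019338, nat_lit 6805668, nat_lit 4953256, true, true⟩,
 nat_lit 0, nat_lit 0, nat_lit 2693, nat_lit 0, nat_lit 2547, nat_lit 1661, nat_lit 229, nat_lit 0, nat_lit 0, nat_lit 189, nat_lit 0, nat_lit 0, nat_lit 0, nat_lit 0, nat_lit 0, nat_lit 192750, nat_lit 0, nat_lit 0, [(nat_lit 28, [(nat_lit 0, nat_lit 771)])],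
 ⟨p112_k37, nat_lit 0, nat_lit 0, nat_lit 88, nat_lit 0, nat_lit 0, [nat_lit 817415600, nat_lit 1587033601, nat_lit 2738994000], [], [nat_lit 26311044435, nat_lit 26759589316, nat_lit 27496565124, nat_lit 27929595658, nat_lit 27140468259, nat_lit 27561097922, nat_lit 28267057203, nat_lit 28745357911], nat_lit 0, nat_lit 0, nat_lit 0, nat_lit 0, nat_lit 0, nat_lit 0, [], [nat_lit 20, nat_lit 40, nat_lit 40, nat_lit 80, nat_lit 16, nat_lit 272, nat_lit 60, nat_lit 8]⟩, ⟨p112_k40, nat_lit 0, nat_lit 0, nat_lit 790, nat_lit 0, nat_lit 1249641, [nat_lit 1073552000, nat_lit 1824672000, nat_lit 2718688000], [], [nat_lit 7873078988, nat_lit 7877225641, nat_lit 8019419532, nat_lit 8022791652, nat_lit 7205806870, nat_lit 7214300933, nat_lit 7479158299, nat_lit 7493869258], nat_lit 1271250, nat_lit 1271250, nat_lit 1271250, nat_lit 1271250, nat_lit 88400, nat_lit 2454100, [nat_lit 1100000, nat_lit 1785000, nat_lit 1271250], [nat_lit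 21, nat_lit 40, nat_lit 40, nat_lit 80, nat_lit 14, nat_lit 401, nat_lit 175, nat_lit 10]⟩,
 ⟨nat_lit 1581, nat_lit 2237, ⟨.ofNat (nat_lit 754171), .ofNat (nat_lit 799784), .ofNat (nat_lit 756449), .ofNat (nat_lit 802061), .ofNat (nat_lit 749006), .ofNat (nat_lit 792714), .ofNat (nat_lit 751337), .ofNat (nat_lit 795046)⟩, ⟨.ofNat (nat_lit 306337), .ofNat (nat_lit 374756), .ofNat (nat_lit 351886), .ofNat (nat_lit 420305), .ofNat (nat_lit 305473), .ofNat (nat_lit 371036), .ofNat (nat_lit 352103), .ofNat (nat_lit 417666)⟩⟩, [⟨nat_lit 13, nat_lit 41, nat_lit 77, nat_lit 100, nat_lit 298259990⟩, ⟨nat_lit 16, nat_lit 44, nat_lit 100, nat_lit 92, nat_lit 345253424⟩, ⟨nat_lit 19, nat_lit 100, nat_lit 76, nat_lit 98, nat_lit 35170731⟩]⟩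
noncomputable def p112_l66 : Lf2 := ⟨nat_lit 0, nat_lit 20, [nat_lit 5, nat_lit 5, nat_lit 5, nat_lit 20], false, nat_lit 160, nat_lit 208, nat_lit 16, nat_lit 340, ⟨nat_lit 248, nat_lit 752, nat_lit 0, nat_lit 8, nat_lit 311, nat_lit 752, nat_lit 145, nat_lit 0, nat_lit 0, nat_lit 0, nat_lit 0, nat_lit 0, nat_lit 37083938, nat_lit 23122222, nat_lit 6793840, nat_lit 4955348, true, true⟩,
 nat_lit 0, nat_lit 0, nat_lit 2837, nat_lit 0, nat_lit 2412, nat_lit 1766, nat_lit 141, nat_lit 0, nat_lit 0, nat_lit 207, nat_lit 0, nat_lit 0, nat_lit 0, nat_lit 0, nat_lit 0, nat_lit 300800, nat_lit 0, nat_lit 0, [(nat_lit 28, [(nat_lit 1, nat_lit 752)])],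
 ⟨p112_k37, nat_lit 0, nat_lit 0, nat_lit 88, nat_lit 0, nat_lit 0, [nat_lit 757219200, nat_lit 1058185600, nat_lit 1653776000], [], [nat_lit 26252051985, nat_lit 26692372261, nat_lit 27420575634, nat_lit 27833484447, nat_lit 27091817889, nat_lit 27505147319, nat_lit 28189621874, nat_lit 28577927146], nat_lit 0, nat_lit 0, nat_lit 0, nat_lit 0, nat_lit 0, nat_lit 0, [], [nat_lit 20, nat_lit 40, nat_lit 40, nat_lit 80, nat_lit 16, nat_lit 272, nat_lit 60, nat_lit 8]⟩, ⟨p112_k32, nat_lit 0, nat_lit 0, nat_lit 790, nat_lit 0, nat_lit 1250813, [nat_lit 1162624000, nat_lit 1976064000, nat_lit 2944256000], [], [nat_lit 8600271276, nat_lit 8607115460, nat_lit 8757672596, nat_lit 8763277012, nat_lit 7886662594, nat_lit 7887315486, nat_lit 8033648996, nat_lit 8045486006], nat_lit 1271250, nat_lit 1271250, nat_lit 1271250, nat_lit 1271250, nat_lit 88400, nat_lit 2425250, [nat_lit 1100000, nat_lit 1785000, nat_lit 1271250], [nat_lit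 21, nat_lit 40, nat_lit 40, nat_lit 80, nat_lit 14, nat_lit 401, nat_lit 175, nat_lit 10]⟩,
 ⟨nat_lit 1581, nat_lit 2237, ⟨.ofNat (nat_lit 756449), .ofNat (nat_lit 802061), .ofNat (nat_lit 759865), .ofNat (nat_lit 805477), .ofNat (nat_lit 751337), .ofNat (nat_lit 795046), .ofNat (nat_lit 754834), .ofNat (nat_lit 798543)⟩, ⟨.ofNat (nat_lit 306337), .ofNat (nat_lit 374756), .ofNat (nat_lit 351886), .ofNat (nat_lit 420305), .ofNat (nat_lit 305473), .ofNat (nat_lit 371036), .ofNat (nat_lit 352103), .ofNat (nat_lit 417666)⟩⟩, [⟨nat_lit 13, nat_lit 41, nat_lit 77, nat_lit 100, nat_lit 230426943⟩, ⟨nat_lit 16, nat_lit 44, nat_lit 100, nat_lit 92, nat_lit 269028538⟩, ⟨nat_lit 4, nat_lit 100, nat_lit 38, nat_lit 87, nat_lit 107583090⟩, ⟨nat_lit 19, nat_lit 100, nat_lit 77, nat_lit 99, nat_lit 37463163⟩]⟩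
noncomputable def p112_l67 : Lf2 := ⟨nat_lit 0, nat_lit 20, [nat_lit 5, nat_lit 5, nat_lit 5, nat_lit 20], false, nat_lit 160, nat_lit 208, nat_lit 16, nat_lit 340, ⟨nat_lit 262, nat_lit 738, nat_lit 0, nat_lit 8, nat_lit 312, nat_lit 738, nat_lit 145, nat_lit 0, nat_lit 0, nat_lit 0, nat_lit 0, nat_lit 0, nat_lit 36993026, nat_lit 23224979, nat_lit 6781995, nat_lit 4957377, true, true⟩,
 nat_lit 0, nat_lit 0, nat_lit 2900, nat_lit 0, nat_lit 2418, nat_lit 1829, nat_lit 148, nat_lit 0, nat_lit 0, nat_lit 218, nat_lit 0, nat_lit 0, nat_lit 0, nat_lit 0, nat_lit 0, nat_lit 295200, nat_lit 0, nat_lit 0, [(nat_lit 28, [(nat_lit 1, nat_lit 738)])],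
 ⟨p112_k37, nat_lit 0, nat_lit 0, nat_lit 88, nat_lit 0, nat_lit 0, [nat_lit 760584800, nat_lit 1099586400, nat_lit 1739344000], [], [nat_lit 26258037040, nat_lit 26698722854, nat_lit 27427316113, nat_lit 27840546573, nat_lit 27097343296, nat_lit 27510997181, nat_lit 28195798489, nat_lit 28586425547], nat_lit 0, nat_lit 0, nat_lit 0, nat_lit 0, nat_lit 0, nat_lit 0, [], [nat_lit 20, nat_lit 40, nat_lit 40, nat_lit 80, nat_lit 16, nat_lit 272, nat_lit 60, nat_lit 8]⟩, ⟨p112_k41, nat_lit 0, nat_lit 0, nat_lit 778, nat_lit 0, nat_lit 1238213, [nat_lit 1228256000, nat_lit 2087616000, nat_lit 3110464000], [], [nat_lit 9147354134, nat_lit 9152255119, nat_lit 9312080991, nat_lit 9316122543, nat_lit 8425412811, nat_lit 8426016018, nat_lit 8504789676, nat_lit 8504829496], nat_lit 1271250, nat_lit 1271250, nat_lit 1271250, nat_lit 1271250, nat_lit 88400, nat_lit 2425250, [nat_lit 1100000, nat_lit 1785000, nat_lit 1271250], [nat_lit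 21, nat_lit 40, nat_lit 40, nat_lit 80, nat_lit 14, nat_lit 401, nat_lit 175, nat_lit 10]⟩,
 ⟨nat_lit 1581, nat_lit 2237, ⟨.ofNat (nat_lit 759865), .ofNat (nat_lit 805477), .ofNat (nat_lit 762142), .ofNat (nat_lit 807755), .ofNat (nat_lit 754834), .ofNat (nat_lit 798543), .ofNat (nat_lit 757166), .ofNat (nat_lit 800875)⟩, ⟨.ofNat (nat_lit 306337), .ofNat (nat_lit 374756), .ofNat (nat_lit 351886), .ofNat (nat_lit 420305), .ofNat (nat_lit 305473), .ofNat (nat_lit 371036), .ofNat (nat_lit 352103), .ofNat (nat_lit 417666)⟩⟩, [⟨nat_lit 13, nat_lit 41, nat_lit 76, nat_lit 100, nat_lit 187524536⟩, ⟨nat_lit 16, nat_lit 44, nat_lit 100, nat_lit 92, nat_lit 49145293⟩, ⟨nat_lit 4, nat_lit 100, nat_lit 38, nat_lit 87, nat_lit 384176183⟩, ⟨nat_lit 19, nat_lit 100, nat_lit 79, nat_lit 100, nat_lit 38279009⟩]⟩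
noncomputable def p112_l68 : Lf2 := ⟨nat_lit 0, nat_lit 20, [nat_lit 5, nat_lit 5, nat_lit 5, nat_lit 20], true, nat_lit 160, nat_lit 184, nat_lit 16, nat_lit 344, ⟨nat_lit 0, nat_lit 1000, nat_lit 0, nat_lit 8, nat_lit 303, nat_lit 1000, nat_lit 137, nat_lit 0, nat_lit 0, nat_lit 0, nat_lit 0, nat_lit 0, nat_lit 38081121, nat_lit 22573718, nat_lit 6345161, nat_lit 4863891, true, true⟩,
 nat_lit 0, nat_lit 0, nat_lit 0, nat_lit 0, nat_lit 2677, nat_lit 0, nat_lit 44, nat_lit 0, nat_lit 0, nat_lit 0, nat_lit 0, nat_lit 0, nat_lit 0, nat_lit 0, nat_lit 0, nat_lit 250000, nat_lit 0, nat_lit 0, [(nat_lit 28, [(nat_lit 0, nat_lit 1000)])],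
 ⟨p112_k39, nat_lit 0, nat_lit 0, nat_lit 82, nat_lit 0, nat_lit 0, [nat_lit 781600001, nat_lit 1046000001, nat_lit 1376400000], [], [nat_lit 26800843422, nat_lit 27283170372, nat_lit 27419620233, nat_lit 27937486101, nat_lit 27219685076, nat_lit 27685766723, nat_lit 27819348362, nat_lit 28343866986], nat_lit 0, nat_lit 0, nat_lit 0, nat_lit 0, nat_lit 0, nat_lit 0, [], [nat_lit 35, nat_lit 40, nat_lit 40, nat_lit 80, nat_lit 22, nat_lit 203, nat_lit 0, nat_lit 6]⟩, C1.Rw.none,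
 ⟨nat_lit 0, nat_lit 1582, ⟨.ofNat (nat_lit 745507), .ofNat (nat_lit 767360), .ofNat (nat_lit 757165), .ofNat (nat_lit 779018), .ofNat (nat_lit 737498), .ofNat (nat_lit 757496), .ofNat (nat_lit 749998), .ofNat (nat_lit 769997)⟩, ⟨.ofNat (nat_lit 305469), .ofNat (nat_lit 338250), .ofNat (nat_lit 352101), .ofNat (nat_lit 384882), .ofNat (nat_lit 299995), .ofNat (nat_lit 329995), .ofNat (nat_lit 349997), .ofNat (nat_lit 379997)⟩⟩, [⟨nat_lit 13, nat_lit 34, nat_lit 81, nat_lit 100, nat_lit 573676488⟩, ⟨nat_lit 16, nat_lit 31, nat_lit 100, nat_lit 92, nat_lit 381335789⟩]⟩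
noncomputable def b_V_900_600_20_19 : St := ⟨true, nat_lit 0, nat_lit 1, nat_lit 1, nat_lit 120, nat_lit 380, nat_lit 400, nat_lit 240, nat_lit 280, nat_lit 320, nat_lit 376, nat_lit 80, nat_lit 120, nat_lit 160, nat_lit 248, nat_lit 16, nat_lit 364, nat_lit 40, nat_lit 80, nat_lit 0, nat_lit 0, nat_lit 0, nat_lit 0⟩
theorem d_V_900_600_20_19 (h : EB TB.env) : Dead b_V_900_600_20_19 := chkB_sound0 h (T :=
(.trX (nat_lit 13) (nat_lit 48) (nat_lit 71) (nat_lit 100) (nat_lit 352) (.trX (nat_lit 16) (nat_lit 44) (nat_lit 100) (nat_lit 92) (nat_lit 208) (.spl (nat_lit 1) (nat_lit 260)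
(.trX (nat_lit 13) (nat_lit 46) (nat_lit 76) (nat_lit 100) (nat_lit 340) (.spl (nat_lit 0) (nat_lit 390)
(.leaf p112_l59)
(.emL (nat_lit 13) (nat_lit 33) (nat_lit 85) (nat_lit 100))))
(.trX (nat_lit 19) (nat_lit 100) (nat_lit 69) (nat_lit 96) (nat_lit 352) (.spl (nat_lit 1) (nat_lit 270)
(.trX (nat_lit 13) (nat_lit 47) (nat_lit 74) (nat_lit 100) (nat_lit 348) (.spl (nat_lit 1) (nat_lit 265)
(.trX (nat_lit 13) (nat_lit 46) (nat_lit 75) (nat_lit 100) (nat_lit 344) (.leaf p112_l60))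
(.trX (nat_lit 19) (nat_lit 100) (nat_lit 71) (nat_lit 97) (nat_lit 348) (.spl (nat_lit 0) (nat_lit 390)
(.spl (nat_lit 0) (nat_lit 385)
(.leaf p112_l61)
(.trX (nat_lit 13) (nat_lit 41) (nat_lit 78) (nat_lit 100) (nat_lit 336) (.trX (nat_lit 16) (nat_lit 38) (nat_lit 100) (nat_lit 92) (nat_lit 196) (.leaf p112_l62))))
(.trX (nat_lit 13) (nat_lit 33) (nat_lit 83) (nat_lit 100) (nat_lit 328) (.trX (nat_lit 16) (nat_lit 31) (nat_lit 100) (nat_lit 92) (nat_lit 184) (.leaf p112_l63)))))))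
(.trX (nat_lit 19) (nat_lit 100) (nat_lit 74) (nat_lit 98) (nat_lit 344) (.spl (nat_lit 0) (nat_lit 390)
(.spl (nat_lit 1) (nat_lit 275)
(.spl (nat_lit 1) (nat_lit 273)
(.trX (nat_lit 13) (nat_lit 47) (nat_lit 73) (nat_lit 100) (nat_lit 348) (.leaf p112_l64))
(.leaf p112_l65))
(.trX (nat_lit 19) (nat_lit 100) (nat_lit 77) (nat_lit 99) (nat_lit 340) (.spl (nat_lit 1) (nat_lit 278)
(.leaf p112_l66)
(.leaf p112_l67))))
(.trX (nat_lit 13) (nat_lit 34) (nat_lit 81) (nat_lit 100) (nat_lit 336) (.trX (nat_lit 16) (nat_lit 31) (nat_lit 100) (nat_lit 92) (nat_lit 184) (.leaf p112_l68))))))))))) (by decide +kernel)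
noncomputable def p112_l69 : Lf2 := ⟨nat_lit 0, nat_lit 20, [nat_lit 5, nat_lit 5, nat_lit 5, nat_lit 20], false, nat_lit 8, nat_lit 248, nat_lit 0, nat_lit 364, ⟨nat_lit 436, nat_lit 564, nat_lit 0, nat_lit 6, nat_lit 251, nat_lit 564, nat_lit 94, nat_lit 0, nat_lit 0, nat_lit 0, nat_lit 0, nat_lit 0, nat_lit 0, nat_lit 0, nat_lit 0, nat_lit 5000000, false, false⟩,
 nat_lit 0, nat_lit 0, nat_lit 0, nat_lit 1361, nat_lit 4765, nat_lit 4068, nat_lit 0, nat_lit 0, nat_lit 0, nat_lit 251, nat_lit 0, nat_lit 0, nat_lit 0, nat_lit 0, nat_lit 0, nat_lit 141000, nat_lit 0, nat_lit 0, [(nat_lit 25, [(nat_lit 0, nat_lit 564)]), (nat_lit 28, [(nat_lit 0, nat_lit 564)])],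
 ⟨p112_k8, nat_lit 0, nat_lit 0, nat_lit 180, nat_lit 0, nat_lit 0, [nat_lit 849790400, nat_lit 3011566400, nat_lit 3919552000], [], [nat_lit 25157498326, nat_lit 28734093289, nat_lit 34801786301, nat_lit 37676356966, nat_lit 25758085206, nat_lit 28292641251, nat_lit 32044735114, nat_lit 33873067624], nat_lit 0, nat_lit 0, nat_lit 0, nat_lit 0, nat_lit 0, nat_lit 0, [], [nat_lit 55, nat_lit 40, nat_lit 40, nat_lit 80, nat_lit 3, nat_lit 401, nat_lit 175, nat_lit 15]⟩, ⟨p112_k9, nat_lit 0, nat_lit 0, nat_lit 287, nat_lit 0, nat_lit 0, [nat_lit 2043968000, nat_lit 4291112000, nat_lit 6129288000], [], [nat_lit 14600032629, nat_lit 15801307960, nat_lit 19223197116, nat_lit 19680678853, nat_lit 15183397784, nat_lit 15648570736, nat_lit 16400525029, nat_lit 16615045551], nat_lit 0, nat_lit 0, nat_lit 0, nat_lit 0, nat_lit 0, nat_lit 0, [], [nat_lit 56, nat_lit 40, nat_lit 40, nat_lit 80, nat_lit 32, nat_lit 538, nat_lit 300,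 nat_lit 12]⟩,
 ⟨nat_lit 0, nat_lit 3163, ⟨.ofNat (nat_lit 401957), .ofNat (nat_lit 812499), .ofNat (nat_lit 443658), .ofNat (nat_lit 856810), .ofNat (nat_lit 431745), .ofNat (nat_lit 769995), .ofNat (nat_lit 479136), .ofNat (nat_lit 819996)⟩, ⟨.ofNat (nat_lit 20000), .ofNat (nat_lit 440207), .ofNat (nat_lit 20000), .ofNat (nat_lit 484518), .ofNat (nat_lit 20000), .ofNat (nat_lit 409993), .ofNat (nat_lit 20000), .ofNat (nat_lit 459993)⟩⟩, [⟨nat_lit 16, nat_lit 62, nat_lit 100, nat_lit 94, nat_lit 46725058⟩, ⟨nat_lit 19, nat_lit 100, nat_lit 59, nat_lit 94, nat_lit 46176112⟩]⟩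
noncomputable def p112_l70 : Lf2 := ⟨nat_lit 0, nat_lit 20, [nat_lit 5, nat_lit 5, nat_lit 5, nat_lit 20], true, nat_lit 8, nat_lit 248, nat_lit 0, nat_lit 364, ⟨nat_lit 0, nat_lit 1000, nat_lit 0, nat_lit 6, nat_lit 213, nat_lit 1000, nat_lit 94, nat_lit 0, nat_lit 0, nat_lit 0, nat_lit 0, nat_lit 0, nat_lit 0, nat_lit 0, nat_lit 0, nat_lit 5000000, false, false⟩,
 nat_lit 0, nat_lit 0, nat_lit 0, nat_lit 0, nat_lit 4615, nat_lit 0, nat_lit 0, nat_lit 0, nat_lit 0, nat_lit 0, nat_lit 0, nat_lit 0, nat_lit 0, nat_lit 0, nat_lit 0, nat_lit 250000, nat_lit 0, nat_lit 0, [(nat_lit 25, [(nat_lit 0, nat_lit 1000)]), (nat_lit 28, [(nat_lit 0, nat_lit 1000)])],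
 ⟨p112_k42, nat_lit 0, nat_lit 0, nat_lit 178, nat_lit 0, nat_lit 0, [nat_lit 781600001, nat_lit 2118000000], [], [nat_lit 23479260735, nat_lit 28066336880, nat_lit 25908032058, nat_lit 29991009597, nat_lit 23923621461, nat_lit 26584842765, nat_lit 25417765149, nat_lit 28183956259], nat_lit 0, nat_lit 0, nat_lit 0, nat_lit 0, nat_lit 0, nat_lit 0, [], [nat_lit 88, nat_lit 40, nat_lit 40, nat_lit 80, nat_lit 89, nat_lit 345, nat_lit 125, nat_lit 13]⟩, C1.Rw.none,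
 ⟨nat_lit 0, nat_lit 3163, ⟨.ofNat (nat_lit 401957), .ofNat (nat_lit 605128), .ofNat (nat_lit 443658), .ofNat (nat_lit 646918), .ofNat (nat_lit 431745), .ofNat (nat_lit 599865), .ofNat (nat_lit 479136), .ofNat (nat_lit 647345)⟩, ⟨.ofNat (nat_lit 20000), .ofNat (nat_lit 440207), .ofNat (nat_lit 20000), .ofNat (nat_lit 484518), .ofNat (nat_lit 20000), .ofNat (nat_lit 409993), .ofNat (nat_lit 20000), .ofNat (nat_lit 459993)⟩⟩, [⟨nat_lit 4, nat_lit 100, nat_lit 44, nat_lit 87, nat_lit 51731163⟩]⟩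
noncomputable def p112_l71 : Lf2 := ⟨nat_lit 0, nat_lit 20, [nat_lit 5, nat_lit 5, nat_lit 5, nat_lit 20], true, nat_lit 8, nat_lit 248, nat_lit 0, nat_lit 364, ⟨nat_lit 0, nat_lit 1000, nat_lit 0, nat_lit 6, nat_lit 288, nat_lit 1000, nat_lit 94, nat_lit 0, nat_lit 0, nat_lit 0, nat_lit 0, nat_lit 0, nat_lit 0, nat_lit 0, nat_lit 0, nat_lit 5000000, true, true⟩,
 nat_lit 0, nat_lit 0, nat_lit 0, nat_lit 3237, nat_lit 3895, nat_lit 0, nat_lit 0, nat_lit 0, nat_lit 0, nat_lit 0, nat_lit 0, nat_lit 0, nat_lit 0, nat_lit 0, nat_lit 0, nat_lit 250000, nat_lit 0, nat_lit 0, [(nat_lit 25, [(nat_lit 0, nat_lit 1000)]), (nat_lit 28, [(nat_lit 0, nat_lit 1000)])],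
 ⟨p112_k0, nat_lit 0, nat_lit 0, nat_lit 183, nat_lit 0, nat_lit 0, [nat_lit 781600001, nat_lit 1368800000, nat_lit 2118000000], [], [nat_lit 26291498668, nat_lit 28683367191, nat_lit 32433398038, nat_lit 35032321104, nat_lit 26712688605, nat_lit 28509644588, nat_lit 30713677455, nat_lit 32704720055], nat_lit 0, nat_lit 0, nat_lit 0, nat_lit 0, nat_lit 0, nat_lit 0, [], [nat_lit 20, nat_lit 40, nat_lit 40, nat_lit 80, nat_lit 16, nat_lit 289, nat_lit 75, nat_lit 10]⟩, C1.Rw.none,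
 ⟨nat_lit 0, nat_lit 3163, ⟨.ofNat (nat_lit 605128), .ofNat (nat_lit 812499), .ofNat (nat_lit 646918), .ofNat (nat_lit 856810), .ofNat (nat_lit 599865), .ofNat (nat_lit 769995), .ofNat (nat_lit 647345), .ofNat (nat_lit 819996)⟩, ⟨.ofNat (nat_lit 20000), .ofNat (nat_lit 440207), .ofNat (nat_lit 20000), .ofNat (nat_lit 484518), .ofNat (nat_lit 20000), .ofNat (nat_lit 409993), .ofNat (nat_lit 20000), .ofNat (nat_lit 459993)⟩⟩, [⟨nat_lit 13, nat_lit 65, nat_lit 54, nat_lit 100, nat_lit 340973420⟩, ⟨nat_lit 16, nat_lit 62, nat_lit 100, nat_lit 94, nat_lit 15372498⟩]⟩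
noncomputable def b_V_900_600_20_20 : St := ⟨true, nat_lit 0, nat_lit 2, nat_lit 2, nat_lit 120, nat_lit 360, nat_lit 400, nat_lit 240, nat_lit 280, nat_lit 112, nat_lit 376, nat_lit 80, nat_lit 120, nat_lit 8, nat_lit 248, nat_lit 0, nat_lit 364, nat_lit 40, nat_lit 80, nat_lit 0, nat_lit 0, nat_lit 0, nat_lit 0⟩
theorem d_V_900_600_20_20 (h : EB TB.env) : Dead b_V_900_600_20_20 := chkB_sound0 h (T :=
(.st (nat_lit 1)
(.leaf p112_l69)
(.spl (nat_lit 2) (nat_lit 240)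
(.leaf p112_l70)
(.leaf p112_l71)))) (by decide +kernel)
noncomputable def p112_l72 : Lf2 := ⟨nat_lit 0, nat_lit 20, [nat_lit 5, nat_lit 5, nat_lit 5, nat_lit 20], false, nat_lit 8, nat_lit 160, nat_lit 0, nat_lit 364, ⟨nat_lit 225, nat_lit 0, nat_lit 775, nat_lit 6, nat_lit 208, nat_lit 775, nat_lit 70, nat_lit 775, nat_lit 45067, nat_lit 267, nat_lit 2400, nat_lit 203, nat_lit 50265111, nat_lit 0, nat_lit 0, nat_lit 3515769, false, false⟩,
 nat_lit 0, nat_lit 3336, nat_lit 0, nat_lit 0, nat_lit 2905, nat_lit 2717, nat_lit 65, nat_lit 0, nat_lit 0, nat_lit 192, nat_lit 0, nat_lit 0, nat_lit 0, nat_lit 0, nat_lit 2, nat_lit 193750, nat_lit 0, nat_lit 0, [(nat_lit 25, [(nat_lit 4, nat_lit 775)])],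
 ⟨p112_k8, nat_lit 0, nat_lit 0, nat_lit 313, nat_lit 0, nat_lit 432963, [nat_lit 818590000, nat_lit 289480001, nat_lit 4750000], [], [nat_lit 19940341496, nat_lit 20531248359, nat_lit 22714967526, nat_lit 23508965398, nat_lit 20615919942, nat_lit 21123492028, nat_lit 23166570641, nat_lit 23664666336], nat_lit 1271250, nat_lit 1271250, nat_lit 719601, nat_lit 1758000, nat_lit 43600, nat_lit 1100001, [nat_lit 230000, nat_lit 1100000, nat_lit 1442500], [nat_lit 55, nat_lit 40, nat_lit 40, nat_lit 80, nat_lit 3, nat_lit 317, nat_lit 100, nat_lit 12]⟩, ⟨p112_k9, nat_lit 0, nat_lit 0, nat_lit 282, nat_lit 0, nat_lit 0, [nat_lit 1054800000, nat_lit 2214450000, nat_lit 3163050000], [], [nat_lit 7283752233, nat_lit 7644373647, nat_lit 7533800472, nat_lit 7797188376, nat_lit 7120941803, nat_lit 7245025066, nat_lit 6860635794, nat_lit 6996745173], nat_lit 0, nat_lit 0, nat_lit 0, nat_lit 0, nat_lit 0, nat_lit 0, [], [nat_lit 56,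 nat_lit 40, nat_lit 40, nat_lit 80, nat_lit 32, nat_lit 456, nat_lit 225, nat_lit 11]⟩,
 ⟨nat_lit 2738, nat_lit 3163, ⟨.ofNat (nat_lit 410148), .ofNat (nat_lit 605257), .ofNat (nat_lit 432290), .ofNat (nat_lit 627400), .ofNat (nat_lit 414835), .ofNat (nat_lit 603890), .ofNat (nat_lit 437240), .ofNat (nat_lit 626295)⟩, ⟨.ofNat (nat_lit 20000), .ofNat (nat_lit 306116), .ofNat (nat_lit 20000), .ofNat (nat_lit 350426), .ofNat (nat_lit 20000), .ofNat (nat_lit 306433), .ofNat (nat_lit 20000), .ofNat (nat_lit 351268)⟩⟩, [⟨nat_lit 0, nat_lit 98, nat_lit 54, nat_lit 100, nat_lit 23858547⟩, ⟨nat_lit 7, nat_lit 72, nat_lit 100, nat_lit 89, nat_lit 37250740⟩]⟩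
noncomputable def p112_l73 : Lf2 := ⟨nat_lit 0, nat_lit 20, [nat_lit 5, nat_lit 5, nat_lit 5, nat_lit 20], false, nat_lit 12, nat_lit 160, nat_lit 0, nat_lit 364, ⟨nat_lit 317, nat_lit 0, nat_lit 683, nat_lit 6, nat_lit 213, nat_lit 683, nat_lit 72, nat_lit 683, nat_lit 48600, nat_lit 269, nat_lit 6376, nat_lit 204, nat_lit 49613504, nat_lit 0, nat_lit 0, nat_lit 3596013, false, false⟩,
 nat_lit 0, nat_lit 3420, nat_lit 0, nat_lit 0, nat_lit 3086, nat_lit 3833, nat_lit 90, nat_lit 0, nat_lit 0, nat_lit 267, nat_lit 0, nat_lit 0, nat_lit 0, nat_lit 0, nat_lit 0, nat_lit 170750, nat_lit 0, nat_lit 0, [(nat_lit 25, [(nat_lit 4, nat_lit 683)])],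
 ⟨p112_k15, nat_lit 0, nat_lit 0, nat_lit 332, nat_lit 0, nat_lit 496266, [nat_lit 825714800, nat_lit 783425600, nat_lit 710870000], [], [nat_lit 21170788936, nat_lit 21880181518, nat_lit 23768423899, nat_lit 24584418735, nat_lit 21478679297, nat_lit 21948333517, nat_lit 23804036494, nat_lit 24300984384], nat_lit 1271250, nat_lit 1271250, nat_lit 841600, nat_lit 1767000, nat_lit 65850, nat_lit 1100001, [nat_lit 230000, nat_lit 1100000, nat_lit 1442500], [nat_lit 55, nat_lit 40, nat_lit 40, nat_lit 80, nat_lit 3, nat_lit 317, nat_lit 100, nat_lit 12]⟩, ⟨p112_k9, nat_lit 0, nat_lit 0, nat_lit 273, nat_lit 0, nat_lit 0, [nat_lit 1486096000, nat_lit 3119914000, nat_lit 4456386000], [], [nat_lit 10138638103, nat_lit 10634531285, nat_lit 10657275840, nat_lit 11028616928, nat_lit 9841117706, nat_lit 10011751445, nat_lit 9662852330, nat_lit 9859048833], nat_lit 0, nat_lit 0, nat_lit 0, nat_lit 0, nat_lit 0, nat_lit 0, [], [nat_lit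 56, nat_lit 40, nat_lit 40, nat_lit 80, nat_lit 32, nat_lit 456, nat_lit 225, nat_lit 11]⟩,
 ⟨nat_lit 2236, nat_lit 2739, ⟨.ofNat (nat_lit 438420), .ofNat (nat_lit 603890), .ofNat (nat_lit 460818), .ofNat (nat_lit 626287), .ofNat (nat_lit 442816), .ofNat (nat_lit 602558), .ofNat (nat_lit 465571), .ofNat (nat_lit 625312)⟩, ⟨.ofNat (nat_lit 30000), .ofNat (nat_lit 306433), .ofNat (nat_lit 30000), .ofNat (nat_lit 351268), .ofNat (nat_lit 30000), .ofNat (nat_lit 306337), .ofNat (nat_lit 30000), .ofNat (nat_lit 351886)⟩⟩, [⟨nat_lit 0, nat_lit 96, nat_lit 44, nat_lit 100, nat_lit 99640901⟩, ⟨nat_lit 19, nat_lit 100, nat_lit 72, nat_lit 89, nat_lit 51847546⟩]⟩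
noncomputable def p112_l74 : Lf2 := ⟨nat_lit 0, nat_lit 20, [nat_lit 5, nat_lit 5, nat_lit 5, nat_lit 20], false, nat_lit 8, nat_lit 160, nat_lit 0, nat_lit 352, ⟨nat_lit 690, nat_lit 0, nat_lit 310, nat_lit 6, nat_lit 223, nat_lit 310, nat_lit 70, nat_lit 310, nat_lit 45067, nat_lit 267, nat_lit 27594, nat_lit 200, nat_lit 48733060, nat_lit 0, nat_lit 0, nat_lit 3653503, false, false⟩,
 nat_lit 0, nat_lit 5240, nat_lit 0, nat_lit 0, nat_lit 4563, nat_lit 7850, nat_lit 82, nat_lit 0, nat_lit 0, nat_lit 499, nat_lit 0, nat_lit 0, nat_lit 0, nat_lit 0, nat_lit 0, nat_lit 310000, nat_lit 0, nat_lit 0, [(nat_lit 25, [(nat_lit 6, nat_lit 310)])],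
 ⟨p112_k8, nat_lit 0, nat_lit 0, nat_lit 368, nat_lit 0, nat_lit 597866, [nat_lit 1325128000, nat_lit 1793344000, nat_lit 1872180000], [], [nat_lit 22863282040, nat_lit 25332479639, nat_lit 25810933020, nat_lit 27838631358, nat_lit 21763319600, nat_lit 22765826071, nat_lit 23706478592, nat_lit 24864909788], nat_lit 1271250, nat_lit 1271250, nat_lit 872850, nat_lit 1769250, nat_lit 43600, nat_lit 1100001, [nat_lit 230000, nat_lit 1100000, nat_lit 1442500], [nat_lit 55, nat_lit 40, nat_lit 40, nat_lit 80, nat_lit 3, nat_lit 317, nat_lit 100, nat_lit 12]⟩, ⟨p112_k21, nat_lit 0, nat_lit 0, nat_lit 221, nat_lit 0, nat_lit 0, [nat_lit 3234720000, nat_lit 6790980000, nat_lit 8191680000], [], [nat_lit 19557737932, nat_lit 20825974216, nat_lit 21363343935, nat_lit 22330918795, nat_lit 20045850634, nat_lit 20553421713, nat_lit 20089777941, nat_lit 20910111168], nat_lit 0, nat_lit 0, nat_lit 0, nat_lit 0, nat_lit 0, nat_lit 0, [],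 [nat_lit 125, nat_lit 40, nat_lit 40, nat_lit 80, nat_lit 41, nat_lit 456, nat_lit 225, nat_lit 12]⟩,
 ⟨nat_lit 2236, nat_lit 3163, ⟨.ofNat (nat_lit 462477), .ofNat (nat_lit 627331), .ofNat (nat_lit 484568), .ofNat (nat_lit 649422), .ofNat (nat_lit 471029), .ofNat (nat_lit 625251), .ofNat (nat_lit 493740), .ofNat (nat_lit 647962)⟩, ⟨.ofNat (nat_lit 20000), .ofNat (nat_lit 306116), .ofNat (nat_lit 20000), .ofNat (nat_lit 350426), .ofNat (nat_lit 20000), .ofNat (nat_lit 306337), .ofNat (nat_lit 20000), .ofNat (nat_lit 351886)⟩⟩, [⟨nat_lit 0, nat_lit 92, nat_lit 44, nat_lit 100, nat_lit 518249087⟩, ⟨nat_lit 19, nat_lit 100, nat_lit 82, nat_lit 92, nat_lit 123111969⟩]⟩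
noncomputable def p112_l75 : Lf2 := ⟨nat_lit 0, nat_lit 20, [nat_lit 5, nat_lit 5, nat_lit 5, nat_lit 20], false, nat_lit 20, nat_lit 160, nat_lit 0, nat_lit 364, ⟨nat_lit 529, nat_lit 0, nat_lit 471, nat_lit 6, nat_lit 224, nat_lit 471, nat_lit 75, nat_lit 471, nat_lit 54150, nat_lit 272, nat_lit 25022, nat_lit 200, nat_lit 48333352, nat_lit 0, nat_lit 0, nat_lit 3741539, false, false⟩,
 nat_lit 0, nat_lit 3470, nat_lit 0, nat_lit 0, nat_lit 3242, nat_lit 6618, nat_lit 166, nat_lit 0, nat_lit 0, nat_lit 404, nat_lit 0, nat_lit 0, nat_lit 0, nat_lit 0, nat_lit 0, nat_lit 188400, nat_lit 0, nat_lit 0, [(nat_lit 28, [(nat_lit 5, nat_lit 471)])],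
 ⟨p112_k36, nat_lit 0, nat_lit 0, nat_lit 413, nat_lit 0, nat_lit 701717, [nat_lit 775787600, nat_lit 1096267040, nat_lit 1590114400], [], [nat_lit 22213179431, nat_lit 24172280465, nat_lit 24683569679, nat_lit 26348555196, nat_lit 21731139618, nat_lit 22793356330, nat_lit 23602970824, nat_lit 24879646240], nat_lit 1271250, nat_lit 1271250, nat_lit 1000851, nat_lit 1778250, nat_lit 111251, nat_lit 1100001, [nat_lit 230000, nat_lit 1100000, nat_lit 1442500], [nat_lit 55, nat_lit 40, nat_lit 40, nat_lit 80, nat_lit 3, nat_lit 317, nat_lit 100, nat_lit 11]⟩, ⟨p112_k9, nat_lit 0, nat_lit 0, nat_lit 270, nat_lit 0, nat_lit 0, [nat_lit 2479952000, nat_lit 5206418000, nat_lit 7436682000], [], [nat_lit 17372674309, nat_lit 19000249391, nat_lit 18387737032, nat_lit 19649645172, nat_lit 16503398099, nat_lit 17037774476, nat_lit 15997653580, nat_lit 17218995915], nat_lit 0, nat_lit 0, nat_lit 0, nat_lit 0, nat_lit 0, nat_lit 0,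 [], [nat_lit 56, nat_lit 40, nat_lit 40, nat_lit 80, nat_lit 32, nat_lit 456, nat_lit 225, nat_lit 11]⟩,
 ⟨nat_lit 0, nat_lit 2237, ⟨.ofNat (nat_lit 467180), .ofNat (nat_lit 602531), .ofNat (nat_lit 510875), .ofNat (nat_lit 646249), .ofNat (nat_lit 480752), .ofNat (nat_lit 599967), .ofNat (nat_lit 528899), .ofNat (nat_lit 648136)⟩, ⟨.ofNat (nat_lit 50000), .ofNat (nat_lit 306334), .ofNat (nat_lit 50000), .ofNat (nat_lit 351885), .ofNat (nat_lit 50000), .ofNat (nat_lit 299996), .ofNat (nat_lit 50000), .ofNat (nat_lit 349998)⟩⟩, [⟨nat_lit 0, nat_lit 95, nat_lit 31, nat_lit 100, nat_lit 527942864⟩, ⟨nat_lit 19, nat_lit 100, nat_lit 77, nat_lit 91, nat_lit 76353665⟩, ⟨nat_lit 19, nat_lit 100, nat_lit 59, nat_lit 94, nat_lit 1037053⟩]⟩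
noncomputable def p112_l76 : Lf2 := ⟨nat_lit 0, nat_lit 20, [nat_lit 5, nat_lit 5, nat_lit 5, nat_lit 20], true, nat_lit 160, nat_lit 248, nat_lit 0, nat_lit 364, ⟨nat_lit 0, nat_lit 207, nat_lit 793, nat_lit 6, nat_lit 185, nat_lit 1000, nat_lit 157, nat_lit 793, nat_lit 61189, nat_lit 275, nat_lit 26724, nat_lit 254, nat_lit 46748457, nat_lit 11383710, nat_lit 8867833, nat_lit 4400604, false, false⟩,
 nat_lit 0, nat_lit 3351, nat_lit 0, nat_lit 0, nat_lit 2918, nat_lit 0, nat_lit 0, nat_lit 0, nat_lit 0, nat_lit 0, nat_lit 0, nat_lit 0, nat_lit 0, nat_lit 0, nat_lit 52, nat_lit 250000, nat_lit 0, nat_lit 0, [(nat_lit 25, [(nat_lit 0, nat_lit 207), (nat_lit 4, nat_lit 793)])],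
 ⟨p112_k8, nat_lit 0, nat_lit 0, nat_lit 258, nat_lit 0, nat_lit 520390, [nat_lit 979612801, nat_lit 371290801, nat_lit 3446000], [], [nat_lit 19008253569, nat_lit 20355468896, nat_lit 19736171349, nat_lit 21059751955, nat_lit 21625075699, nat_lit 23006919980, nat_lit 22344031440, nat_lit 23494897774], nat_lit 1271250, nat_lit 1271250, nat_lit 719601, nat_lit 1100001, nat_lit 1100001, nat_lit 1853500, [nat_lit 230000, nat_lit 1100000, nat_lit 1442500], [nat_lit 55, nat_lit 40, nat_lit 40, nat_lit 80, nat_lit 3, nat_lit 345, nat_lit 125, nat_lit 12]⟩, C1.Rw.none,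
 ⟨nat_lit 2236, nat_lit 3163, ⟨.ofNat (nat_lit 409856), .ofNat (nat_lit 483125), .ofNat (nat_lit 431948), .ofNat (nat_lit 505217), .ofNat (nat_lit 419758), .ofNat (nat_lit 488302), .ofNat (nat_lit 442469), .ofNat (nat_lit 511013)⟩, ⟨.ofNat (nat_lit 306116), .ofNat (nat_lit 440213), .ofNat (nat_lit 350426), .ofNat (nat_lit 484523), .ofNat (nat_lit 306337), .ofNat (nat_lit 431772), .ofNat (nat_lit 351886), .ofNat (nat_lit 477320)⟩⟩, [⟨nat_lit 0, nat_lit 96, nat_lit 44, nat_lit 100, nat_lit 126863250⟩, ⟨nat_lit 4, nat_lit 100, nat_lit 53, nat_lit 87, nat_lit 345338061⟩]⟩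
noncomputable def p112_l77 : Lf2 := ⟨nat_lit 0, nat_lit 20, [nat_lit 5, nat_lit 5, nat_lit 5, nat_lit 20], false, nat_lit 160, nat_lit 248, nat_lit 0, nat_lit 364, ⟨nat_lit 226, nat_lit 0, nat_lit 774, nat_lit 6, nat_lit 222, nat_lit 774, nat_lit 157, nat_lit 774, nat_lit 61189, nat_lit 275, nat_lit 2400, nat_lit 203, nat_lit 43635576, nat_lit 0, nat_lit 0, nat_lit 4703593, false, false⟩,
 nat_lit 0, nat_lit 3439, nat_lit 0, nat_lit 0, nat_lit 2995, nat_lit 2728, nat_lit 0, nat_lit 0, nat_lit 0, nat_lit 184, nat_lit 0, nat_lit 0, nat_lit 0, nat_lit 0, nat_lit 2, nat_lit 193500, nat_lit 0, nat_lit 0, [(nat_lit 25, [(nat_lit 4, nat_lit 774)])],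
 ⟨p112_k8, nat_lit 0, nat_lit 0, nat_lit 245, nat_lit 0, nat_lit 520390, [nat_lit 818754401, nat_lit 295196801, nat_lit 12860000], [], [nat_lit 21105710802, nat_lit 21994079492, nat_lit 22668185422, nat_lit 23551985662, nat_lit 22897071329, nat_lit 23791388637, nat_lit 24518526965, nat_lit 25428889600], nat_lit 1271250, nat_lit 1271250, nat_lit 1100001, nat_lit 1785000, nat_lit 1100001, nat_lit 1853500, [nat_lit 230000, nat_lit 1100000, nat_lit 1442500], [nat_lit 55, nat_lit 40, nat_lit 40, nat_lit 80, nat_lit 3, nat_lit 345, nat_lit 125, nat_lit 12]⟩, ⟨p112_k9, nat_lit 0, nat_lit 0, nat_lit 259, nat_lit 0, nat_lit 0, [nat_lit 1059488000, nat_lit 2224292000, nat_lit 3177108000], [], [nat_lit 7190602888, nat_lit 7523024976, nat_lit 7667810384, nat_lit 7932314196, nat_lit 6846512553, nat_lit 6956641959, nat_lit 6891771111, nat_lit 7028473355], nat_lit 0, nat_lit 0, nat_lit 0, nat_lit 0, nat_lit 0, nat_lit 0, [], [nat_lit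 56, nat_lit 40, nat_lit 40, nat_lit 80, nat_lit 32, nat_lit 456, nat_lit 225, nat_lit 11]⟩,
 ⟨nat_lit 2236, nat_lit 3163, ⟨.ofNat (nat_lit 483125), .ofNat (nat_lit 605240), .ofNat (nat_lit 505217), .ofNat (nat_lit 627331), .ofNat (nat_lit 488302), .ofNat (nat_lit 602541), .ofNat (nat_lit 511013), .ofNat (nat_lit 625251)⟩, ⟨.ofNat (nat_lit 306116), .ofNat (nat_lit 440213), .ofNat (nat_lit 350426), .ofNat (nat_lit 484523), .ofNat (nat_lit 306337), .ofNat (nat_lit 431772), .ofNat (nat_lit 351886), .ofNat (nat_lit 477320)⟩⟩, [⟨nat_lit 4, nat_lit 100, nat_lit 53, nat_lit 87, nat_lit 350282703⟩, ⟨nat_lit 19, nat_lit 100, nat_lit 72, nat_lit 89, nat_lit 35777687⟩]⟩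
noncomputable def p112_l78 : Lf2 := ⟨nat_lit 0, nat_lit 20, [nat_lit 5, nat_lit 5, nat_lit 5, nat_lit 20], false, nat_lit 160, nat_lit 248, nat_lit 0, nat_lit 352, ⟨nat_lit 338, nat_lit 0, nat_lit 662, nat_lit 6, nat_lit 199, nat_lit 662, nat_lit 157, nat_lit 662, nat_lit 61189, nat_lit 275, nat_lit 15023, nat_lit 241, nat_lit 45527630, nat_lit 0, nat_lit 0, nat_lit 4531141, false, false⟩,
 nat_lit 0, nat_lit 4013, nat_lit 0, nat_lit 0, nat_lit 3495, nat_lit 3964, nat_lit 58, nat_lit 0, nat_lit 0, nat_lit 246, nat_lit 0, nat_lit 0, nat_lit 0, nat_lit 0, nat_lit 0, nat_lit 194300, nat_lit 0, nat_lit 0, [(nat_lit 25, [(nat_lit 4, nat_lit 470), (nat_lit 5, nat_lit 192)])],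
 ⟨p112_k8, nat_lit 0, nat_lit 0, nat_lit 278, nat_lit 0, nat_lit 597866, [nat_lit 881621600, nat_lit 765737600, nat_lit 650319200], [], [nat_lit 20523514264, nat_lit 21463298215, nat_lit 20815720360, nat_lit 21723322630, nat_lit 22216501061, nat_lit 23696439679, nat_lit 22491243547, nat_lit 23967913748], nat_lit 1271250, nat_lit 1271250, nat_lit 872850, nat_lit 1100001, nat_lit 1100001, nat_lit 1853500, [nat_lit 230000, nat_lit 1100000, nat_lit 1442500], [nat_lit 55, nat_lit 40, nat_lit 40, nat_lit 80, nat_lit 3, nat_lit 345, nat_lit 125, nat_lit 12]⟩, ⟨p112_k21, nat_lit 0, nat_lit 0, nat_lit 221, nat_lit 0, nat_lit 0, [nat_lit 1584544000, nat_lit 3326596000, nat_lit 4012736000], [], [nat_lit 9608087572, nat_lit 10241834659, nat_lit 9550811186, nat_lit 10151757326, nat_lit 9769480996, nat_lit 10020656831, nat_lit 9516422848, nat_lit 9751299131], nat_lit 0, nat_lit 0, nat_lit 0, nat_lit 0, nat_lit 0, nat_lit 0, [], [nat_lit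 125, nat_lit 40, nat_lit 40, nat_lit 80, nat_lit 41, nat_lit 428, nat_lit 200, nat_lit 11]⟩,
 ⟨nat_lit 2236, nat_lit 3163, ⟨.ofNat (nat_lit 462477), .ofNat (nat_lit 505217), .ofNat (nat_lit 484568), .ofNat (nat_lit 527308), .ofNat (nat_lit 471029), .ofNat (nat_lit 511013), .ofNat (nat_lit 493740), .ofNat (nat_lit 533723)⟩, ⟨.ofNat (nat_lit 306116), .ofNat (nat_lit 440213), .ofNat (nat_lit 350426), .ofNat (nat_lit 484523), .ofNat (nat_lit 306337), .ofNat (nat_lit 431772), .ofNat (nat_lit 351886), .ofNat (nat_lit 477320)⟩⟩, [⟨nat_lit 0, nat_lit 96, nat_lit 54, nat_lit 100, nat_lit 49842911⟩, ⟨nat_lit 0, nat_lit 100, nat_lit 63, nat_lit 99, nat_lit 267639742⟩, ⟨nat_lit 16, nat_lit 62, nat_lit 100, nat_lit 94, nat_lit 296028269⟩, ⟨nat_lit 19, nat_lit 100, nat_lit 69, nat_lit 96, nat_lit 62054567⟩]⟩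
noncomputable def p112_l79 : Lf2 := ⟨nat_lit 0, nat_lit 20, [nat_lit 5, nat_lit 5, nat_lit 5, nat_lit 20], false, nat_lit 160, nat_lit 248, nat_lit 0, nat_lit 352, ⟨nat_lit 710, nat_lit 0, nat_lit 290, nat_lit 6, nat_lit 231, nat_lit 290, nat_lit 157, nat_lit 290, nat_lit 61189, nat_lit 275, nat_lit 27594, nat_lit 200, nat_lit 42897846, nat_lit 0, nat_lit 0, nat_lit 4761557, false, false⟩,
 nat_lit 0, nat_lit 4682, nat_lit 0, nat_lit 0, nat_lit 4077, nat_lit 12366, nat_lit 173, nat_lit 0, nat_lit 0, nat_lit 0, nat_lit 0, nat_lit 0, nat_lit 0, nat_lit 0, nat_lit 0, nat_lit 290000, nat_lit 0, nat_lit 0, [(nat_lit 25, [(nat_lit 6, nat_lit 290)])],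
 ⟨p112_k0, nat_lit 0, nat_lit 0, nat_lit 262, nat_lit 0, nat_lit 597866, [nat_lit 1056320000, nat_lit 1723926667, nat_lit 2154620000], [], [nat_lit 20998893465, nat_lit 22019504325, nat_lit 22522395539, nat_lit 24092113330, nat_lit 22840524817, nat_lit 24448046521, nat_lit 24872627108, nat_lit 26270856208], nat_lit 1271250, nat_lit 1271250, nat_lit 1100001, nat_lit 1785000, nat_lit 1100001, nat_lit 1853500, [nat_lit 230000, nat_lit 780000, nat_lit 1435000], [nat_lit 20, nat_lit 40, nat_lit 40, nat_lit 80, nat_lit 16, nat_lit 345, nat_lit 125, nat_lit 12]⟩, ⟨p112_k18, nat_lit 0, nat_lit 0, nat_lit 200, nat_lit 0, nat_lit 0, [nat_lit 3328480000, nat_lit 5657280000, nat_lit 8429120000], [], [nat_lit 25462645428, nat_lit 27121432656, nat_lit 27657788652, nat_lit 28961518128, nat_lit 22588942646, nat_lit 23154891066, nat_lit 23173196176, nat_lit 24253524340], nat_lit 0, nat_lit 0, nat_lit 0, nat_lit 0, nat_lit 0, nat_lit 0,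 [], [nat_lit 21, nat_lit 40, nat_lit 40, nat_lit 80, nat_lit 14, nat_lit 456, nat_lit 225, nat_lit 12]⟩,
 ⟨nat_lit 2236, nat_lit 3163, ⟨.ofNat (nat_lit 505217), .ofNat (nat_lit 627331), .ofNat (nat_lit 527308), .ofNat (nat_lit 649422), .ofNat (nat_lit 511013), .ofNat (nat_lit 625251), .ofNat (nat_lit 533723), .ofNat (nat_lit 647962)⟩, ⟨.ofNat (nat_lit 306116), .ofNat (nat_lit 440213), .ofNat (nat_lit 350426), .ofNat (nat_lit 484523), .ofNat (nat_lit 306337), .ofNat (nat_lit 431772), .ofNat (nat_lit 351886), .ofNat (nat_lit 477320)⟩⟩, [⟨nat_lit 0, nat_lit 96, nat_lit 54, nat_lit 100, nat_lit 257816590⟩, ⟨nat_lit 4, nat_lit 100, nat_lit 53, nat_lit 87, nat_lit 534828426⟩, ⟨nat_lit 19, nat_lit 100, nat_lit 69, nat_lit 96, nat_lit 76685137⟩]⟩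
noncomputable def p112_l80 : Lf2 := ⟨nat_lit 0, nat_lit 20, [nat_lit 5, nat_lit 5, nat_lit 5, nat_lit 20], false, nat_lit 160, nat_lit 208, nat_lit 0, nat_lit 364, ⟨nat_lit 430, nat_lit 0, nat_lit 570, nat_lit 6, nat_lit 224, nat_lit 570, nat_lit 144, nat_lit 570, nat_lit 194400, nat_lit 323, nat_lit 25022, nat_lit 200, nat_lit 44365899, nat_lit 0, nat_lit 0, nat_lit 4577190, false, false⟩,
 nat_lit 0, nat_lit 3549, nat_lit 0, nat_lit 0, nat_lit 3316, nat_lit 5016, nat_lit 0, nat_lit 0, nat_lit 0, nat_lit 303, nat_lit 0, nat_lit 0, nat_lit 0, nat_lit 0, nat_lit 0, nat_lit 228000, nat_lit 0, nat_lit 0, [(nat_lit 28, [(nat_lit 5, nat_lit 570)])],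
 ⟨p112_k36, nat_lit 0, nat_lit 0, nat_lit 333, nat_lit 0, nat_lit 701717, [nat_lit 741692000, nat_lit 341316800, nat_lit 610648000], [], [nat_lit 21823293370, nat_lit 22992575128, nat_lit 23657656512, nat_lit 24954735520, nat_lit 22771965377, nat_lit 24042088395, nat_lit 24626889884, nat_lit 25983286615], nat_lit 1271250, nat_lit 1271250, nat_lit 1000851, nat_lit 1778250, nat_lit 1100001, nat_lit 1511000, [nat_lit 230000, nat_lit 1100000, nat_lit 1442500], [nat_lit 55, nat_lit 40, nat_lit 40, nat_lit 80, nat_lit 3, nat_lit 345, nat_lit 125, nat_lit 12]⟩, ⟨p112_k9, nat_lit 0, nat_lit 0, nat_lit 270, nat_lit 0, nat_lit 0, [nat_lit 2015840000, nat_lit 4232060000, nat_lit 6044940000], [], [nat_lit 14188505680, nat_lit 15456864212, nat_lit 15026142936, nat_lit 16014916880, nat_lit 13767680838, nat_lit 14199629979, nat_lit 13438793235, nat_lit 13733327281], nat_lit 0, nat_lit 0, nat_lit 0, nat_lit 0, nat_lit 0, nat_lit 0, [],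 [nat_lit 56, nat_lit 40, nat_lit 40, nat_lit 80, nat_lit 32, nat_lit 456, nat_lit 225, nat_lit 11]⟩,
 ⟨nat_lit 0, nat_lit 2237, ⟨.ofNat (nat_lit 467180), .ofNat (nat_lit 602531), .ofNat (nat_lit 510875), .ofNat (nat_lit 646249), .ofNat (nat_lit 480752), .ofNat (nat_lit 599967), .ofNat (nat_lit 528899), .ofNat (nat_lit 648136)⟩, ⟨.ofNat (nat_lit 306334), .ofNat (nat_lit 374750), .ofNat (nat_lit 351885), .ofNat (nat_lit 420300), .ofNat (nat_lit 299996), .ofNat (nat_lit 359993), .ofNat (nat_lit 349998), .ofNat (nat_lit 409994)⟩⟩, [⟨nat_lit 0, nat_lit 100, nat_lit 44, nat_lit 99, nat_lit 294702890⟩, ⟨nat_lit 16, nat_lit 44, nat_lit 100, nat_lit 92, nat_lit 458940251⟩, ⟨nat_lit 7, nat_lit 77, nat_lit 100, nat_lit 91, nat_lit 58214580⟩]⟩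
noncomputable def p112_l81 : Lf2 := ⟨nat_lit 0, nat_lit 20, [nat_lit 5, nat_lit 5, nat_lit 5, nat_lit 20], false, nat_lit 8, nat_lit 248, nat_lit 0, nat_lit 160, ⟨nat_lit 858, nat_lit 0, nat_lit 142, nat_lit 6, nat_lit 288, nat_lit 142, nat_lit 94, nat_lit 142, nat_lit 58017, nat_lit 274, nat_lit 442370, nat_lit 200, nat_lit 41330714, nat_lit 0, nat_lit 0, nat_lit 4350421, true, true⟩,
 nat_lit 0, nat_lit 5314, nat_lit 0, nat_lit 0, nat_lit 4628, nat_lit 5525, nat_lit 134, nat_lit 0, nat_lit 0, nat_lit 641, nat_lit 0, nat_lit 0, nat_lit 0, nat_lit 0, nat_lit 0, nat_lit 142000, nat_lit 0, nat_lit 0, [(nat_lit 25, [(nat_lit 6, nat_lit 142)]), (nat_lit 28, [(nat_lit 6, nat_lit 142)])],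
 ⟨p112_k8, nat_lit 0, nat_lit 0, nat_lit 434, nat_lit 0, nat_lit 770932, [nat_lit 1115329600, nat_lit 3362060800, nat_lit 4244676000], [], [nat_lit 32593938785, nat_lit 34129015928, nat_lit 35977157771, nat_lit 37283032145, nat_lit 32185294678, nat_lit 33368611266, nat_lit 34877848229, nat_lit 35869463330], nat_lit 1271250, nat_lit 1271250, nat_lit 1271250, nat_lit 1271250, nat_lit 43600, nat_lit 1756600, [nat_lit 230000, nat_lit 1100000, nat_lit 1442500], [nat_lit 55, nat_lit 40, nat_lit 40, nat_lit 80, nat_lit 3, nat_lit 289, nat_lit 75, nat_lit 10]⟩, ⟨p112_k9, nat_lit 0, nat_lit 0, nat_lit 284, nat_lit 0, nat_lit 0, [nat_lit 4022304000, nat_lit 8444436000, nat_lit 12061764000], [], [nat_lit 26969407288, nat_lit 28486259404, nat_lit 33356484525, nat_lit 34587724184, nat_lit 23279921904, nat_lit 24469254004, nat_lit 28910351247, nat_lit 29833080639], nat_lit 0, nat_lit 0, nat_lit 0, nat_lit 0, nat_lit 0, nat_lit 0, [],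 [nat_lit 56, nat_lit 40, nat_lit 40, nat_lit 80, nat_lit 32, nat_lit 456, nat_lit 225, nat_lit 10]⟩,
 ⟨nat_lit 0, nat_lit 3163, ⟨.ofNat (nat_lit 605128), .ofNat (nat_lit 812499), .ofNat (nat_lit 646918), .ofNat (nat_lit 856810), .ofNat (nat_lit 599865), .ofNat (nat_lit 769995), .ofNat (nat_lit 647345), .ofNat (nat_lit 819996)⟩, ⟨.ofNat (nat_lit 20000), .ofNat (nat_lit 440207), .ofNat (nat_lit 20000), .ofNat (nat_lit 484518), .ofNat (nat_lit 20000), .ofNat (nat_lit 409993), .ofNat (nat_lit 20000), .ofNat (nat_lit 459993)⟩⟩, [⟨nat_lit 4, nat_lit 100, nat_lit 44, nat_lit 87, nat_lit 332344246⟩]⟩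
noncomputable def p112_l82 : Lf2 := ⟨nat_lit 0, nat_lit 20, [nat_lit 5, nat_lit 5, nat_lit 5, nat_lit 20], false, nat_lit 8, nat_lit 248, nat_lit 160, nat_lit 364, ⟨nat_lit 772, nat_lit 0, nat_lit 228, nat_lit 6, nat_lit 288, nat_lit 228, nat_lit 94, nat_lit 228, nat_lit 58017, nat_lit 274, nat_lit 442370, nat_lit 200, nat_lit 41330714, nat_lit 0, nat_lit 0, nat_lit 4350421, true, true⟩,
 nat_lit 0, nat_lit 5316, nat_lit 0, nat_lit 0, nat_lit 4630, nat_lit 4200, nat_lit 83, nat_lit 0, nat_lit 0, nat_lit 0, nat_lit 0, nat_lit 0, nat_lit 0, nat_lit 0, nat_lit 0, nat_lit 228000, nat_lit 0, nat_lit 0, [(nat_lit 25, [(nat_lit 6, nat_lit 228)]), (nat_lit 28, [(nat_lit 6, nat_lit 228)])],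
 ⟨p112_k8, nat_lit 0, nat_lit 0, nat_lit 434, nat_lit 0, nat_lit 770932, [nat_lit 1222726400, nat_lit 2559027201, nat_lit 3030184000], [], [nat_lit 28777763861, nat_lit 30313102165, nat_lit 34434277777, nat_lit 37266075539, nat_lit 28367314850, nat_lit 29560272907, nat_lit 31544911873, nat_lit 33691772312], nat_lit 1271250, nat_lit 1271250, nat_lit 1271250, nat_lit 1271250, nat_lit 43600, nat_lit 1756600, [nat_lit 230000, nat_lit 1100000, nat_lit 1442500], [nat_lit 55, nat_lit 40, nat_lit 40, nat_lit 80, nat_lit 3, nat_lit 289, nat_lit 75, nat_lit 10]⟩, ⟨p112_k9, nat_lit 0, nat_lit 0, nat_lit 107, nat_lit 0, nat_lit 0, [nat_lit 3619136000, nat_lit 7598024000, nat_lit 10852776000], [], [nat_lit 12386392016, nat_lit 14332037680, nat_lit 19905049226, nat_lit 21138239380, nat_lit 20605493697, nat_lit 21698478229, nat_lit 25138917742, nat_lit 25908000227], nat_lit 0, nat_lit 0, nat_lit 0, nat_lit 0, nat_lit 0, nat_lit 0, [],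 [nat_lit 56, nat_lit 40, nat_lit 40, nat_lit 80, nat_lit 32, nat_lit 538, nat_lit 300, nat_lit 12]⟩,
 ⟨nat_lit 0, nat_lit 3163, ⟨.ofNat (nat_lit 605128), .ofNat (nat_lit 812499), .ofNat (nat_lit 646918), .ofNat (nat_lit 856810), .ofNat (nat_lit 599865), .ofNat (nat_lit 769995), .ofNat (nat_lit 647345), .ofNat (nat_lit 819996)⟩, ⟨.ofNat (nat_lit 20000), .ofNat (nat_lit 440207), .ofNat (nat_lit 20000), .ofNat (nat_lit 484518), .ofNat (nat_lit 20000), .ofNat (nat_lit 409993), .ofNat (nat_lit 20000), .ofNat (nat_lit 459993)⟩⟩, [⟨nat_lit 16, nat_lit 44, nat_lit 100, nat_lit 87, nat_lit 162975559⟩, ⟨nat_lit 19, nat_lit 100, nat_lit 59, nat_lit 94, nat_lit 298122922⟩, ⟨nat_lit 10, nat_lit 57, nat_lit 84, nat_lit 100, nat_lit 26736195⟩]⟩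
noncomputable def b_V_900_600_20_21 : St := ⟨true, nat_lit 1, nat_lit 0, nat_lit 1, nat_lit 120, nat_lit 360, nat_lit 400, nat_lit 240, nat_lit 280, nat_lit 112, nat_lit 376, nat_lit 80, nat_lit 120, nat_lit 8, nat_lit 248, nat_lit 0, nat_lit 364, nat_lit 40, nat_lit 80, nat_lit 0, nat_lit 0, nat_lit 0, nat_lit 0⟩
theorem d_V_900_600_20_21 (h : EB TB.env) : Dead b_V_900_600_20_21 := chkB_sound0 h (T :=
(.spl (nat_lit 2) (nat_lit 240)
(.spl (nat_lit 4) (nat_lit 160)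
(.spl (nat_lit 0) (nat_lit 380)
(.spl (nat_lit 1) (nat_lit 260)
(.spl (nat_lit 0) (nat_lit 370)
(.leaf p112_l72)
(.trZ (nat_lit 0) (nat_lit 100) (nat_lit 54) (nat_lit 96) (nat_lit 128) (.trZ (nat_lit 3) (nat_lit 100) (nat_lit 66) (nat_lit 45) (nat_lit 12) (.leaf p112_l73))))
(.trZ (nat_lit 0) (nat_lit 100) (nat_lit 63) (nat_lit 99) (nat_lit 132) (.trX (nat_lit 19) (nat_lit 100) (nat_lit 69) (nat_lit 96) (nat_lit 352) (.leaf p112_l74))))
(.trZ (nat_lit 0) (nat_lit 100) (nat_lit 44) (nat_lit 99) (nat_lit 148) (.trZ (nat_lit 3) (nat_lit 100) (nat_lit 54) (nat_lit 57) (nat_lit 20) (.leaf p112_l75))))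
(.spl (nat_lit 0) (nat_lit 380)
(.spl (nat_lit 1) (nat_lit 260)
(.spl (nat_lit 2) (nat_lit 160)
(.leaf p112_l76)
(.leaf p112_l77))
(.trZ (nat_lit 0) (nat_lit 100) (nat_lit 63) (nat_lit 99) (nat_lit 132) (.trX (nat_lit 19) (nat_lit 100) (nat_lit 69) (nat_lit 96) (nat_lit 352) (.spl (nat_lit 2) (nat_lit 160)
(.leaf p112_l78)
(.leaf p112_l79)))))
(.trZ (nat_lit 0) (nat_lit 100) (nat_lit 44) (nat_lit 99) (nat_lit 148) (.trX (nat_lit 16) (nat_lit 44) (nat_lit 100) (nat_lit 92) (nat_lit 208) (.leaf p112_l80)))))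
(.spl (nat_lit 5) (nat_lit 160)
(.leaf p112_l81)
(.leaf p112_l82)))) (by decide +kernel)
noncomputable def p112_l83 : Lf2 := ⟨nat_lit 0, nat_lit 20, [nat_lit 5, nat_lit 5, nat_lit 5, nat_lit 20], false, nat_lit 8, nat_lit 80, nat_lit 0, nat_lit 364, ⟨nat_lit 139, nat_lit 0, nat_lit 861, nat_lit 6, nat_lit 208, nat_lit 861, nat_lit 43, nat_lit 861, nat_lit 17067, nat_lit 247, nat_lit 2400, nat_lit 203, nat_lit 51547894, nat_lit 0, nat_lit 0, nat_lit 3124247, false, false⟩,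
 nat_lit 1878, nat_lit 979, nat_lit 0, nat_lit 0, nat_lit 2487, nat_lit 994, nat_lit 0, nat_lit 0, nat_lit 0, nat_lit 0, nat_lit 0, nat_lit 0, nat_lit 0, nat_lit 0, nat_lit 37, nat_lit 215250, nat_lit 0, nat_lit 0, [(nat_lit 25, [(nat_lit 4, nat_lit 861)])],
 ⟨p112_k0, nat_lit 0, nat_lit 0, nat_lit 241, nat_lit 0, nat_lit 280635, [nat_lit 905190001, nat_lit 588630801, nat_lit 37495599], [], [nat_lit 19500899542, nat_lit 20064910731, nat_lit 22107518201, nat_lit 22673011587, nat_lit 19156357469, nat_lit 19690756235, nat_lit 21748653839, nat_lit 22272963004], nat_lit 1271250, nat_lit 1271250, nat_lit 719601, nat_lit 1758000, nat_lit 43600, nat_lit 490000, [nat_lit 230000, nat_lit 780000, nat_lit 1435000], [nat_lit 20, nat_lit 40, nat_lit 40, nat_lit 80, nat_lit 16, nat_lit 317, nat_lit 100, nat_lit 12]⟩, ⟨p112_k1, nat_lit 0, nat_lit 0, nat_lit 612, nat_lit 0, nat_lit 532562, [nat_lit 651632000, nat_lit 1107552000, nat_lit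 1954062000], [], [nat_lit 6882243232, nat_lit 6645460089, nat_lit 6612320920, nat_lit 6672039252, nat_lit 6466779911, nat_lit 6495759184, nat_lit 7036873672, nat_lit 6598655751], nat_lit 1271250, nat_lit 1271250, nat_lit 719601, nat_lit 1758000, nat_lit 0, nat_lit 2570750, [nat_lit 1100000, nat_lit 1785000, nat_lit 1271250], [nat_lit 37, nat_lit 40, nat_lit 40, nat_lit 80, nat_lit 28, nat_lit 456, nat_lit 225, nat_lit 11]⟩,
 ⟨nat_lit 2738, nat_lit 3163, ⟨.ofNat (nat_lit 410148), .ofNat (nat_lit 605257), .ofNat (nat_lit 432290), .ofNat (nat_lit 627400), .ofNat (nat_lit 414835), .ofNat (nat_lit 603890), .ofNat (nat_lit 437240), .ofNat (nat_lit 626295)⟩, ⟨.ofNat (nat_lit 20000), .ofNat (nat_lit 184209), .ofNat (nat_lit 20000), .ofNat (nat_lit 200000), .ofNat (nat_lit 20000), .ofNat (nat_lit 188310), .ofNat (nat_lit 20000), .ofNat (nat_lit 200000)⟩⟩, [⟨nat_lit 3, nat_lit 100, nat_lit 57, nat_lit 62, nat_lit 148368267⟩, ⟨nat_lit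 22, nat_lit 100, nat_lit 70, nat_lit 63, nat_lit 41719701⟩]⟩
noncomputable def p112_l84 : Lf2 := ⟨nat_lit 0, nat_lit 20, [nat_lit 5, nat_lit 5, nat_lit 5, nat_lit 20], false, nat_lit 12, nat_lit 80, nat_lit 0, nat_lit 364, ⟨nat_lit 177, nat_lit 0, nat_lit 823, nat_lit 6, nat_lit 213, nat_lit 823, nat_lit 45, nat_lit 823, nat_lit 19267, nat_lit 249, nat_lit 6376, nat_lit 204, nat_lit 50881614, nat_lit 0, nat_lit 0, nat_lit 3212510, false, false⟩,
 nat_lit 2394, nat_lit 412, nat_lit 0, nat_lit 0, nat_lit 2531, nat_lit 1267, nat_lit 36, nat_lit 0, nat_lit 0, nat_lit 0, nat_lit 0, nat_lit 0, nat_lit 0, nat_lit 0, nat_lit 22, nat_lit 205750, nat_lit 0, nat_lit 0, [(nat_lit 25, [(nat_lit 4, nat_lit 823)])],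
 ⟨p112_k3, nat_lit 0, nat_lit 0, nat_lit 251, nat_lit 0, nat_lit 322942, [nat_lit 853170000, nat_lit 547097734, nat_lit 37457466], [], [nat_lit 20183749930, nat_lit 20821915312, nat_lit 22862296541, nat_lit 23429902351, nat_lit 19934696421, nat_lit 20538952288, nat_lit 22546128946, nat_lit 23060918706], nat_lit 1271250, nat_lit 1271250, nat_lit 841600, nat_lit 1767000, nat_lit 65850, nat_lit 490000, [nat_lit 230000, nat_lit 780000, nat_lit 1435000], [nat_lit 20, nat_lit 40, nat_lit 40, nat_lit 80, nat_lit 16, nat_lit 317, nat_lit 100, nat_lit 12]⟩, ⟨p112_k1, nat_lit 0, nat_lit 0, nat_lit 643, nat_lit 0, nat_lit 640101, [nat_lit 829776000, nat_lit 1410336000, nat_lit 2488266000], [], [nat_lit 8427508858, nat_lit 8493314172, nat_lit 8445151412, nat_lit 8493689336, nat_lit 8177141032, nat_lit 8212551102, nat_lit 9013654664, nat_lit 8455081117], nat_lit 1271250, nat_lit 1271250, nat_lit 841600, nat_lit 1767000, nat_lit 0,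 nat_lit 2570750, [nat_lit 1100000, nat_lit 1785000, nat_lit 1271250], [nat_lit 37, nat_lit 40, nat_lit 40, nat_lit 80, nat_lit 28, nat_lit 456, nat_lit 225, nat_lit 11]⟩,
 ⟨nat_lit 2236, nat_lit 2739, ⟨.ofNat (nat_lit 438420), .ofNat (nat_lit 603890), .ofNat (nat_lit 460818), .ofNat (nat_lit 626287), .ofNat (nat_lit 442816), .ofNat (nat_lit 602558), .ofNat (nat_lit 465571), .ofNat (nat_lit 625312)⟩, ⟨.ofNat (nat_lit 30000), .ofNat (nat_lit 188310), .ofNat (nat_lit 30000), .ofNat (nat_lit 200000), .ofNat (nat_lit 30000), .ofNat (nat_lit 192306), .ofNat (nat_lit 30000), .ofNat (nat_lit 200000)⟩⟩, [⟨nat_lit 3, nat_lit 100, nat_lit 48, nat_lit 71, nat_lit 137163095⟩, ⟨nat_lit 22, nat_lit 100, nat_lit 72, nat_lit 64, nat_lit 53444351⟩]⟩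
noncomputable def p112_l85 : Lf2 := ⟨nat_lit 0, nat_lit 20, [nat_lit 5, nat_lit 5, nat_lit 5, nat_lit 20], false, nat_lit 20, nat_lit 80, nat_lit 0, nat_lit 364, ⟨nat_lit 46, nat_lit 443, nat_lit 511, nat_lit 6, nat_lit 220, nat_lit 954, nat_lit 50, nat_lit 511, nat_lit 22817, nat_lit 252, nat_lit 2526, nat_lit 204, nat_lit 50024177, nat_lit 15416238, nat_lit 1559585, nat_lit 3338021, false, false⟩,
 nat_lit 988, nat_lit 1701, nat_lit 0, nat_lit 0, nat_lit 2512, nat_lit 523, nat_lit 0, nat_lit 0, nat_lit 0, nat_lit 24, nat_lit 0, nat_lit 0, nat_lit 0, nat_lit 0, nat_lit 52, nat_lit 315150, nat_lit 0, nat_lit 0, [(nat_lit 28, [(nat_lit 0, nat_lit 443), (nat_lit 5, nat_lit 511)])],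
 ⟨p112_k36, nat_lit 0, nat_lit 0, nat_lit 306, nat_lit 0, nat_lit 416161, [nat_lit 900726401, nat_lit 237709840, nat_lit 156877600], [], [nat_lit 20960995466, nat_lit 22472524740, nat_lit 23241345544, nat_lit 24714422456, nat_lit 20781773544, nat_lit 21924610566, nat_lit 22939482246, nat_lit 24105791816], nat_lit 1271250, nat_lit 1271250, nat_lit 1000851, nat_lit 1778250, nat_lit 111251, nat_lit 490000, [nat_lit 230000, nat_lit 1100000, nat_lit 1442500], [nat_lit 55, nat_lit 40, nat_lit 40, nat_lit 80, nat_lit 3, nat_lit 317, nat_lit 100, nat_lit 11]⟩, ⟨p112_k9, nat_lit 0, nat_lit 0, nat_lit 763, nat_lit 0, nat_lit 860623, [nat_lit 215648000, nat_lit 452732000, nat_lit 646668000], [], [nat_lit 2902482030, nat_lit 2620337023, nat_lit 1793614344, nat_lit 1805704702, nat_lit 2857044942, nat_lit 2622614402, nat_lit 1786928136, nat_lit 1559230934], nat_lit 1271250, nat_lit 1271250, nat_lit 1271250, nat_lit 1271250, nat_lit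 0, nat_lit 2570750, [nat_lit 1100000, nat_lit 2127500, nat_lit 1271250], [nat_lit 56, nat_lit 40, nat_lit 40, nat_lit 80, nat_lit 32, nat_lit 456, nat_lit 225, nat_lit 11]⟩,
 ⟨nat_lit 0, nat_lit 2237, ⟨.ofNat (nat_lit 467180), .ofNat (nat_lit 602531), .ofNat (nat_lit 489028), .ofNat (nat_lit 624400), .ofNat (nat_lit 480752), .ofNat (nat_lit 599967), .ofNat (nat_lit 504825), .ofNat (nat_lit 624062)⟩, ⟨.ofNat (nat_lit 50000), .ofNat (nat_lit 192306), .ofNat (nat_lit 50000), .ofNat (nat_lit 200000), .ofNat (nat_lit 50000), .ofNat (nat_lit 199999), .ofNat (nat_lit 50000), .ofNat (nat_lit 200000)⟩⟩, [⟨nat_lit 3, nat_lit 100, nat_lit 36, nat_lit 77, nat_lit 367411348⟩, ⟨nat_lit 22, nat_lit 100, nat_lit 73, nat_lit 66, nat_lit 8536518⟩]⟩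
noncomputable def p112_l86 : Lf2 := ⟨nat_lit 0, nat_lit 20, [nat_lit 5, nat_lit 5, nat_lit 5, nat_lit 20], false, nat_lit 8, nat_lit 80, nat_lit 0, nat_lit 352, ⟨nat_lit 227, nat_lit 0, nat_lit 773, nat_lit 6, nat_lit 223, nat_lit 773, nat_lit 43, nat_lit 773, nat_lit 17067, nat_lit 247, nat_lit 27834, nat_lit 200, nat_lit 49987301, nat_lit 0, nat_lit 0, nat_lit 3266517, false, false⟩,
 nat_lit 3048, nat_lit 0, nat_lit 0, nat_lit 0, nat_lit 2654, nat_lit 1774, nat_lit 0, nat_lit 0, nat_lit 0, nat_lit 0, nat_lit 0, nat_lit 0, nat_lit 0, nat_lit 0, nat_lit 29, nat_lit 261200, nat_lit 0, nat_lit 0, [(nat_lit 25, [(nat_lit 4, nat_lit 320), (nat_lit 5, nat_lit 453)])],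
 ⟨p112_k0, nat_lit 0, nat_lit 0, nat_lit 247, nat_lit 0, nat_lit 324087, [nat_lit 890945201, nat_lit 653472667, nat_lit 44489733], [], [nat_lit 19875057652, nat_lit 20440993241, nat_lit 22367682463, nat_lit 23006993134, nat_lit 19446821610, nat_lit 20012665512, nat_lit 21991482218, nat_lit 22516107058], nat_lit 1271250, nat_lit 1271250, nat_lit 872850, nat_lit 1769250, nat_lit 43600, nat_lit 490000, [nat_lit 230000, nat_lit 780000, nat_lit 1435000], [nat_lit 20, nat_lit 40, nat_lit 40, nat_lit 80, nat_lit 16, nat_lit 317, nat_lit 100, nat_lit 12]⟩, ⟨p112_k18, nat_lit 0, nat_lit 0, nat_lit 533, nat_lit 0, nat_lit 541877, [nat_lit 1064176000, nat_lit 1808736000, nat_lit 2694944000], [], [nat_lit 9757022129, nat_lit 9681256890, nat_lit 9690552782, nat_lit 9809074704, nat_lit 9259663192, nat_lit 9319308205, nat_lit 10716667718, nat_lit 9931607435], nat_lit 1271250, nat_lit 1271250, nat_lit 872850, nat_lit 1769250, nat_lit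 0, nat_lit 2486000, [nat_lit 1100000, nat_lit 1785000, nat_lit 1271250], [nat_lit 21, nat_lit 40, nat_lit 40, nat_lit 80, nat_lit 14, nat_lit 456, nat_lit 225, nat_lit 12]⟩,
 ⟨nat_lit 2738, nat_lit 3163, ⟨.ofNat (nat_lit 462776), .ofNat (nat_lit 627400), .ofNat (nat_lit 484919), .ofNat (nat_lit 649542), .ofNat (nat_lit 466780), .ofNat (nat_lit 626295), .ofNat (nat_lit 489185), .ofNat (nat_lit 648700)⟩, ⟨.ofNat (nat_lit 20000), .ofNat (nat_lit 184209), .ofNat (nat_lit 20000), .ofNat (nat_lit 200000), .ofNat (nat_lit 20000), .ofNat (nat_lit 188310), .ofNat (nat_lit 20000), .ofNat (nat_lit 200000)⟩⟩, [⟨nat_lit 3, nat_lit 100, nat_lit 57, nat_lit 62, nat_lit 92428470⟩, ⟨nat_lit 22, nat_lit 100, nat_lit 74, nat_lit 63, nat_lit 61348842⟩]⟩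
noncomputable def p112_l87 : Lf2 := ⟨nat_lit 0, nat_lit 20, [nat_lit 5, nat_lit 5, nat_lit 5, nat_lit 20], false, nat_lit 12, nat_lit 80, nat_lit 0, nat_lit 352, ⟨nat_lit 238, nat_lit 0, nat_lit 762, nat_lit 6, nat_lit 228, nat_lit 762, nat_lit 45, nat_lit 762, nat_lit 19267, nat_lit 249, nat_lit 26118, nat_lit 200, nat_lit 49331642, nat_lit 0, nat_lit 0, nat_lit 3347547, false, false⟩,
 nat_lit 3001, nat_lit 0, nat_lit 0, nat_lit 0, nat_lit 2708, nat_lit 1746, nat_lit 69, nat_lit 0, nat_lit 0, nat_lit 0, nat_lit 0, nat_lit 0, nat_lit 0, nat_lit 0, nat_lit 0, nat_lit 190500, nat_lit 0, nat_lit 0, [(nat_lit 25, [(nat_lit 4, nat_lit 762)])],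
 ⟨p112_k3, nat_lit 0, nat_lit 0, nat_lit 257, nat_lit 0, nat_lit 361245, [nat_lit 777980001, nat_lit 505373601, nat_lit 79115733], [], [nat_lit 20453252785, nat_lit 21320322576, nat_lit 23032081883, nat_lit 23798099468, nat_lit 20154155266, nat_lit 20713501010, nat_lit 22367178878, nat_lit 22896121558], nat_lit 1271250, nat_lit 1271250, nat_lit 1000851, nat_lit 1778250, nat_lit 65850, nat_lit 490000, [nat_lit 230000, nat_lit 780000, nat_lit 1435000], [nat_lit 20, nat_lit 40, nat_lit 40, nat_lit 80, nat_lit 16, nat_lit 317, nat_lit 100, nat_lit 12]⟩, ⟨p112_k18, nat_lit 0, nat_lit 0, nat_lit 561, nat_lit 0, nat_lit 630866, [nat_lit 1115744000, nat_lit 1896384000, nat_lit 2825536000], [], [nat_lit 10224892172, nat_lit 10351472479, nat_lit 10386928908, nat_lit 10510078696, nat_lit 9975531396, nat_lit 10037279689, nat_lit 11266161591, nat_lit 10493492338], nat_lit 1271250, nat_lit 1271250, nat_lit 1000851, nat_lit 1778250,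 nat_lit 0, nat_lit 2486000, [nat_lit 1100000, nat_lit 1785000, nat_lit 1271250], [nat_lit 21, nat_lit 40, nat_lit 40, nat_lit 80, nat_lit 14, nat_lit 456, nat_lit 225, nat_lit 12]⟩,
 ⟨nat_lit 2236, nat_lit 2739, ⟨.ofNat (nat_lit 490366), .ofNat (nat_lit 626287), .ofNat (nat_lit 512763), .ofNat (nat_lit 648684), .ofNat (nat_lit 494096), .ofNat (nat_lit 625312), .ofNat (nat_lit 516850), .ofNat (nat_lit 648065)⟩, ⟨.ofNat (nat_lit 30000), .ofNat (nat_lit 188310), .ofNat (nat_lit 30000), .ofNat (nat_lit 200000), .ofNat (nat_lit 30000), .ofNat (nat_lit 192306), .ofNat (nat_lit 30000), .ofNat (nat_lit 200000)⟩⟩, [⟨nat_lit 3, nat_lit 100, nat_lit 48, nat_lit 71, nat_lit 164212901⟩, ⟨nat_lit 22, nat_lit 100, nat_lit 75, nat_lit 64, nat_lit 64856606⟩]⟩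
noncomputable def p112_l88 : Lf2 := ⟨nat_lit 0, nat_lit 20, [nat_lit 5, nat_lit 5, nat_lit 5, nat_lit 20], false, nat_lit 20, nat_lit 80, nat_lit 0, nat_lit 352, ⟨nat_lit 196, nat_lit 515, nat_lit 289, nat_lit 6, nat_lit 234, nat_lit 804, nat_lit 50, nat_lit 289, nat_lit 22817, nat_lit 252, nat_lit 25022, nat_lit 200, nat_lit 48495356, nat_lit 16959863, nat_lit 1544781, nat_lit 3463968, false, false⟩,
 nat_lit 3091, nat_lit 0, nat_lit 0, nat_lit 0, nat_lit 2888, nat_lit 1799, nat_lit 0, nat_lit 0, nat_lit 0, nat_lit 0, nat_lit 0, nat_lit 0, nat_lit 0, nat_lit 0, nat_lit 0, nat_lit 321600, nat_lit 0, nat_lit 0, [(nat_lit 28, [(nat_lit 1, nat_lit 515), (nat_lit 5, nat_lit 289)])],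
 ⟨p112_k37, nat_lit 0, nat_lit 0, nat_lit 310, nat_lit 0, nat_lit 446464, [nat_lit 714662400, nat_lit 298898400, nat_lit 243069600], [], [nat_lit 21990363061, nat_lit 23643892522, nat_lit 23984189756, nat_lit 25556112744, nat_lit 21427640810, nat_lit 22609628109, nat_lit 23214433760, nat_lit 24272844224], nat_lit 1271250, nat_lit 1271250, nat_lit 1167600, nat_lit 1789500, nat_lit 111251, nat_lit 490000, [nat_lit 230000, nat_lit 780000, nat_lit 1435000], [nat_lit 20, nat_lit 40, nat_lit 40, nat_lit 80, nat_lit 16, nat_lit 317, nat_lit 100, nat_lit 11]⟩, ⟨p112_k18, nat_lit 0, nat_lit 0, nat_lit 657, nat_lit 0, nat_lit 813484, [nat_lit 918848000, nat_lit 1561728000, nat_lit 2326912000], [], [nat_lit 8107465638, nat_lit 8187364344, nat_lit 8134219758, nat_lit 8195390504, nat_lit 8276879833, nat_lit 7462121368, nat_lit 7093739716, nat_lit 7102966971], nat_lit 1271250, nat_lit 1271250, nat_lit 1271250, nat_lit 1271250, nat_lit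 0, nat_lit 2486000, [nat_lit 1100000, nat_lit 1785000, nat_lit 1271250], [nat_lit 21, nat_lit 40, nat_lit 40, nat_lit 80, nat_lit 14, nat_lit 456, nat_lit 225, nat_lit 12]⟩,
 ⟨nat_lit 0, nat_lit 2237, ⟨.ofNat (nat_lit 518456), .ofNat (nat_lit 624400), .ofNat (nat_lit 540305), .ofNat (nat_lit 646249), .ofNat (nat_lit 530746), .ofNat (nat_lit 624062), .ofNat (nat_lit 554820), .ofNat (nat_lit 648136)⟩, ⟨.ofNat (nat_lit 50000), .ofNat (nat_lit 192306), .ofNat (nat_lit 50000), .ofNat (nat_lit 200000), .ofNat (nat_lit 50000), .ofNat (nat_lit 199999), .ofNat (nat_lit 50000), .ofNat (nat_lit 200000)⟩⟩, [⟨nat_lit 0, nat_lit 94, nat_lit 31, nat_lit 100, nat_lit 176589175⟩, ⟨nat_lit 3, nat_lit 100, nat_lit 36, nat_lit 77, nat_lit 251376920⟩, ⟨nat_lit 22, nat_lit 100, nat_lit 76, nat_lit 66, nat_lit 33840142⟩]⟩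
noncomputable def p112_l89 : Lf2 := ⟨nat_lit 0, nat_lit 20, [nat_lit 5, nat_lit 5, nat_lit 5, nat_lit 20], false, nat_lit 80, nat_lit 160, nat_lit 0, nat_lit 364, ⟨nat_lit 0, nat_lit 384, nat_lit 616, nat_lit 6, nat_lit 208, nat_lit 1000, nat_lit 105, nat_lit 616, nat_lit 101400, nat_lit 293, nat_lit 2400, nat_lit 203, nat_lit 48248345, nat_lit 13973728, nat_lit 4777927, nat_lit 3994143, false, false⟩,
 nat_lit 0, nat_lit 3168, nat_lit 0, nat_lit 0, nat_lit 2758, nat_lit 0, nat_lit 40, nat_lit 0, nat_lit 0, nat_lit 0, nat_lit 0, nat_lit 0, nat_lit 0, nat_lit 0, nat_lit 17, nat_lit 250000, nat_lit 0, nat_lit 0, [(nat_lit 25, [(nat_lit 0, nat_lit 384), (nat_lit 4, nat_lit 616)])],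
 ⟨p112_k0, nat_lit 0, nat_lit 0, nat_lit 219, nat_lit 0, nat_lit 337303, [nat_lit 809824001, nat_lit 506709334, nat_lit 23325866], [], [nat_lit 18484815967, nat_lit 19628148646, nat_lit 21201884494, nat_lit 22416695584, nat_lit 19389866236, nat_lit 20556639700, nat_lit 22075584862, nat_lit 23095736186], nat_lit 1271250, nat_lit 1271250, nat_lit 719601, nat_lit 1758000, nat_lit 490000, nat_lit 1100001, [nat_lit 230000, nat_lit 780000, nat_lit 1435000], [nat_lit 20, nat_lit 40, nat_lit 40, nat_lit 80, nat_lit 16, nat_lit 317, nat_lit 100, nat_lit 11]⟩, ⟨p112_k1, nat_lit 0, nat_lit 0, nat_lit 650, nat_lit 0, nat_lit 640101, [nat_lit 0, nat_lit 0, nat_lit 0], [], [nat_lit 0, nat_lit 0, nat_lit 0, nat_lit 0, nat_lit 0, nat_lit 0, nat_lit 0, nat_lit 0], nat_lit 1271250, nat_lit 1271250, nat_lit 719601, nat_lit 1758000, nat_lit 0, nat_lit 2570750, [nat_lit 1100000, nat_lit 1785000, nat_lit 1271250], [nat_lit 37, nat_lit 40,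 nat_lit 40, nat_lit 80, nat_lit 28, nat_lit 456, nat_lit 225, nat_lit 11]⟩,
 ⟨nat_lit 2236, nat_lit 3163, ⟨.ofNat (nat_lit 409856), .ofNat (nat_lit 605240), .ofNat (nat_lit 431948), .ofNat (nat_lit 627331), .ofNat (nat_lit 419758), .ofNat (nat_lit 602541), .ofNat (nat_lit 442469), .ofNat (nat_lit 625251)⟩, ⟨.ofNat (nat_lit 184209), .ofNat (nat_lit 306116), .ofNat (nat_lit 200000), .ofNat (nat_lit 350426), .ofNat (nat_lit 192306), .ofNat (nat_lit 306337), .ofNat (nat_lit 200000), .ofNat (nat_lit 351886)⟩⟩, []⟩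
noncomputable def p112_l90 : Lf2 := ⟨nat_lit 0, nat_lit 20, [nat_lit 5, nat_lit 5, nat_lit 5, nat_lit 20], false, nat_lit 80, nat_lit 160, nat_lit 0, nat_lit 364, ⟨nat_lit 77, nat_lit 452, nat_lit 471, nat_lit 6, nat_lit 220, nat_lit 923, nat_lit 105, nat_lit 470, nat_lit 104017, nat_lit 294, nat_lit 2526, nat_lit 204, nat_lit 47147354, nat_lit 15085465, nat_lit 4767181, nat_lit 4095854, false, false⟩,
 nat_lit 1794, nat_lit 1085, nat_lit 0, nat_lit 0, nat_lit 2690, nat_lit 949, nat_lit 0, nat_lit 0, nat_lit 0, nat_lit 44, nat_lit 0, nat_lit 0, nat_lit 0, nat_lit 0, nat_lit 33, nat_lit 301400, nat_lit 0, nat_lit 0, [(nat_lit 28, [(nat_lit 0, nat_lit 452), (nat_lit 5, nat_lit 471)])],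
 ⟨p112_k36, nat_lit 0, nat_lit 0, nat_lit 251, nat_lit 0, nat_lit 416161, [nat_lit 837094801, nat_lit 210591840, nat_lit 130415200], [], [nat_lit 20453426356, nat_lit 21642900845, nat_lit 22616406805, nat_lit 23800015440, nat_lit 21424073558, nat_lit 22524714293, nat_lit 23431117505, nat_lit 24401608207], nat_lit 1271250, nat_lit 1271250, nat_lit 1000851, nat_lit 1778250, nat_lit 490000, nat_lit 1100001, [nat_lit 230000, nat_lit 1100000, nat_lit 1442500], [nat_lit 55, nat_lit 40, nat_lit 40, nat_lit 80, nat_lit 3, nat_lit 317, nat_lit 100, nat_lit 11]⟩, ⟨p112_k9, nat_lit 0, nat_lit 0, nat_lit 763, nat_lit 0, nat_lit 860623, [nat_lit 360976000, nat_lit 757834000, nat_lit 1082466000], [], [nat_lit 5073613613, nat_lit 4561652597, nat_lit 2873873220, nat_lit 2928456096, nat_lit 4886823997, nat_lit 4461442386, nat_lit 2945063291, nat_lit 2531899534], nat_lit 1271250, nat_lit 1271250, nat_lit 1271250, nat_lit 1271250, nat_lit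 0, nat_lit 2570750, [nat_lit 1100000, nat_lit 2127500, nat_lit 1271250], [nat_lit 56, nat_lit 40, nat_lit 40, nat_lit 80, nat_lit 32, nat_lit 456, nat_lit 225, nat_lit 11]⟩,
 ⟨nat_lit 0, nat_lit 2237, ⟨.ofNat (nat_lit 467180), .ofNat (nat_lit 602531), .ofNat (nat_lit 489028), .ofNat (nat_lit 624400), .ofNat (nat_lit 480752), .ofNat (nat_lit 599967), .ofNat (nat_lit 504825), .ofNat (nat_lit 624062)⟩, ⟨.ofNat (nat_lit 192306), .ofNat (nat_lit 306334), .ofNat (nat_lit 200000), .ofNat (nat_lit 351885), .ofNat (nat_lit 199999), .ofNat (nat_lit 299996), .ofNat (nat_lit 200000), .ofNat (nat_lit 349998)⟩⟩, [⟨nat_lit 0, nat_lit 97, nat_lit 31, nat_lit 100, nat_lit 159240965⟩, ⟨nat_lit 4, nat_lit 100, nat_lit 32, nat_lit 88, nat_lit 30904870⟩, ⟨nat_lit 7, nat_lit 72, nat_lit 100, nat_lit 89, nat_lit 10964382⟩]⟩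
noncomputable def p112_l91 : Lf2 := ⟨nat_lit 0, nat_lit 20, [nat_lit 5, nat_lit 5, nat_lit 5, nat_lit 20], false, nat_lit 80, nat_lit 160, nat_lit 0, nat_lit 352, ⟨nat_lit 231, nat_lit 91, nat_lit 678, nat_lit 6, nat_lit 223, nat_lit 769, nat_lit 105, nat_lit 678, nat_lit 101400, nat_lit 293, nat_lit 27594, nat_lit 200, nat_lit 46849759, nat_lit 15427675, nat_lit 4722566, nat_lit 4117155, false, false⟩,
 nat_lit 2948, nat_lit 334, nat_lit 0, nat_lit 0, nat_lit 2858, nat_lit 1715, nat_lit 68, nat_lit 0, nat_lit 0, nat_lit 0, nat_lit 0, nat_lit 0, nat_lit 0, nat_lit 0, nat_lit 2, nat_lit 242650, nat_lit 0, nat_lit 0, [(nat_lit 25, [(nat_lit 0, nat_lit 91), (nat_lit 4, nat_lit 342), (nat_lit 5, nat_lit 336)])],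
 ⟨p112_k0, nat_lit 0, nat_lit 0, nat_lit 225, nat_lit 0, nat_lit 377310, [nat_lit 787248400, nat_lit 542816401, nat_lit 23800399], [], [nat_lit 18999461935, nat_lit 20061091081, nat_lit 21237045852, nat_lit 22535840384, nat_lit 19831152998, nat_lit 20858918567, nat_lit 22071856891, nat_lit 23124376257], nat_lit 1271250, nat_lit 1271250, nat_lit 872850, nat_lit 1769250, nat_lit 490000, nat_lit 1100001, [nat_lit 230000, nat_lit 780000, nat_lit 1435000], [nat_lit 20, nat_lit 40, nat_lit 40, nat_lit 80, nat_lit 16, nat_lit 317, nat_lit 100, nat_lit 11]⟩, ⟨p112_k18, nat_lit 0, nat_lit 0, nat_lit 568, nat_lit 0, nat_lit 630866, [nat_lit 1082928000, nat_lit 1840608000, nat_lit 2742432000], [], [nat_lit 9886275633, nat_lit 10013411106, nat_lit 10040928646, nat_lit 10160655596, nat_lit 9674306543, nat_lit 9736461077, nat_lit 10872845648, nat_lit 10113895036], nat_lit 1271250, nat_lit 1271250, nat_lit 872850, nat_lit 1769250, nat_lit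 0, nat_lit 2486000, [nat_lit 1100000, nat_lit 1785000, nat_lit 1271250], [nat_lit 21, nat_lit 40, nat_lit 40, nat_lit 80, nat_lit 14, nat_lit 456, nat_lit 225, nat_lit 12]⟩,
 ⟨nat_lit 2236, nat_lit 3163, ⟨.ofNat (nat_lit 462477), .ofNat (nat_lit 627331), .ofNat (nat_lit 484568), .ofNat (nat_lit 649422), .ofNat (nat_lit 471029), .ofNat (nat_lit 625251), .ofNat (nat_lit 493740), .ofNat (nat_lit 647962)⟩, ⟨.ofNat (nat_lit 184209), .ofNat (nat_lit 306116), .ofNat (nat_lit 200000), .ofNat (nat_lit 350426), .ofNat (nat_lit 192306), .ofNat (nat_lit 306337), .ofNat (nat_lit 200000), .ofNat (nat_lit 351886)⟩⟩, [⟨nat_lit 7, nat_lit 82, nat_lit 100, nat_lit 92, nat_lit 45091857⟩]⟩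
noncomputable def p112_l92 : Lf2 := ⟨nat_lit 0, nat_lit 20, [nat_lit 5, nat_lit 5, nat_lit 5, nat_lit 20], false, nat_lit 80, nat_lit 160, nat_lit 0, nat_lit 352, ⟨nat_lit 188, nat_lit 577, nat_lit 235, nat_lit 6, nat_lit 234, nat_lit 812, nat_lit 105, nat_lit 235, nat_lit 104017, nat_lit 294, nat_lit 25022, nat_lit 200, nat_lit 45765297, nat_lit 16529929, nat_lit 4704774, nat_lit 4205570, false, false⟩,
 nat_lit 3170, nat_lit 0, nat_lit 0, nat_lit 0, nat_lit 2962, nat_lit 1845, nat_lit 13, nat_lit 0, nat_lit 0, nat_lit 0, nat_lit 0, nat_lit 0, nat_lit 0, nat_lit 0, nat_lit 0, nat_lit 324800, nat_lit 0, nat_lit 0, [(nat_lit 28, [(nat_lit 1, nat_lit 577), (nat_lit 5, nat_lit 235)])],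
 ⟨p112_k37, nat_lit 0, nat_lit 0, nat_lit 248, nat_lit 0, nat_lit 446464, [nat_lit 718355200, nat_lit 388381600, nat_lit 398380000], [], [nat_lit 21040116284, nat_lit 22408545120, nat_lit 22887298337, nat_lit 24192450512, nat_lit 21933143253, nat_lit 23050186334, nat_lit 23592283765, nat_lit 24595524640], nat_lit 1271250, nat_lit 1271250, nat_lit 1167600, nat_lit 1789500, nat_lit 490000, nat_lit 1100001, [nat_lit 230000, nat_lit 780000, nat_lit 1435000], [nat_lit 20, nat_lit 40, nat_lit 40, nat_lit 80, nat_lit 16, nat_lit 317, nat_lit 100, nat_lit 11]⟩, ⟨p112_k18, nat_lit 0, nat_lit 0, nat_lit 657, nat_lit 0, nat_lit 813484, [nat_lit 881344000, nat_lit 1497984000, nat_lit 2231936000], [], [nat_lit 7419823460, nat_lit 7496383987, nat_lit 7429764906, nat_lit 7487341816, nat_lit 7936952691, nat_lit 7101361047, nat_lit 6651011654, nat_lit 6746668208], nat_lit 1271250, nat_lit 1271250, nat_lit 1271250, nat_lit 1271250, nat_lit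 0, nat_lit 2486000, [nat_lit 1100000, nat_lit 1785000, nat_lit 1271250], [nat_lit 21, nat_lit 40, nat_lit 40, nat_lit 80, nat_lit 14, nat_lit 456, nat_lit 225, nat_lit 12]⟩,
 ⟨nat_lit 0, nat_lit 2237, ⟨.ofNat (nat_lit 518456), .ofNat (nat_lit 624400), .ofNat (nat_lit 540305), .ofNat (nat_lit 646249), .ofNat (nat_lit 530746), .ofNat (nat_lit 624062), .ofNat (nat_lit 554820), .ofNat (nat_lit 648136)⟩, ⟨.ofNat (nat_lit 192306), .ofNat (nat_lit 306334), .ofNat (nat_lit 200000), .ofNat (nat_lit 351885), .ofNat (nat_lit 199999), .ofNat (nat_lit 299996), .ofNat (nat_lit 200000), .ofNat (nat_lit 349998)⟩⟩, [⟨nat_lit 0, nat_lit 94, nat_lit 31, nat_lit 100, nat_lit 210618393⟩, ⟨nat_lit 4, nat_lit 100, nat_lit 32, nat_lit 88, nat_lit 55106307⟩, ⟨nat_lit 7, nat_lit 82, nat_lit 100, nat_lit 92, nat_lit 28123475⟩]⟩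
noncomputable def p112_l93 : Lf2 := ⟨nat_lit 0, nat_lit 20, [nat_lit 5, nat_lit 5, nat_lit 5, nat_lit 20], false, nat_lit 160, nat_lit 248, nat_lit 0, nat_lit 364, ⟨nat_lit 0, nat_lit 522, nat_lit 478, nat_lit 6, nat_lit 208, nat_lit 1000, nat_lit 158, nat_lit 478, nat_lit 61189, nat_lit 275, nat_lit 2400, nat_lit 203, nat_lit 44806968, nat_lit 13469123, nat_lit 8723909, nat_lit 4602392, false, false⟩,
 nat_lit 0, nat_lit 3378, nat_lit 0, nat_lit 0, nat_lit 2942, nat_lit 0, nat_lit 9, nat_lit 0, nat_lit 0, nat_lit 0, nat_lit 0, nat_lit 0, nat_lit 0, nat_lit 0, nat_lit 0, nat_lit 250000, nat_lit 0, nat_lit 0, [(nat_lit 25, [(nat_lit 0, nat_lit 522), (nat_lit 4, nat_lit 478)])],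
 ⟨p112_k0, nat_lit 0, nat_lit 0, nat_lit 149, nat_lit 0, nat_lit 280635, [nat_lit 746792001, nat_lit 541541334, nat_lit 216516000], [], [nat_lit 19689623817, nat_lit 20271091725, nat_lit 22287272496, nat_lit 22812381518, nat_lit 21996767857, nat_lit 22584654812, nat_lit 24264788329, nat_lit 24785359745], nat_lit 1271250, nat_lit 1271250, nat_lit 719601, nat_lit 1758000, nat_lit 1100001, nat_lit 1853500, [nat_lit 230000, nat_lit 780000, nat_lit 1435000], [nat_lit 20, nat_lit 40, nat_lit 40, nat_lit 80, nat_lit 16, nat_lit 345, nat_lit 125, nat_lit 12]⟩, ⟨p112_k1, nat_lit 0, nat_lit 0, nat_lit 612, nat_lit 0, nat_lit 532562, [nat_lit 0, nat_lit 0, nat_lit 0], [], [nat_lit 0, nat_lit 0, nat_lit 0, nat_lit 0, nat_lit 0, nat_lit 0, nat_lit 0, nat_lit 0], nat_lit 1271250, nat_lit 1271250, nat_lit 719601, nat_lit 1758000, nat_lit 0, nat_lit 2570750, [nat_lit 1100000, nat_lit 1785000, nat_lit 1271250], [nat_lit 37, nat_lit 40,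 nat_lit 40, nat_lit 80, nat_lit 28, nat_lit 456, nat_lit 225, nat_lit 11]⟩,
 ⟨nat_lit 2738, nat_lit 3163, ⟨.ofNat (nat_lit 410148), .ofNat (nat_lit 605257), .ofNat (nat_lit 432290), .ofNat (nat_lit 627400), .ofNat (nat_lit 414835), .ofNat (nat_lit 603890), .ofNat (nat_lit 437240), .ofNat (nat_lit 626295)⟩, ⟨.ofNat (nat_lit 306116), .ofNat (nat_lit 440213), .ofNat (nat_lit 350426), .ofNat (nat_lit 484523), .ofNat (nat_lit 306433), .ofNat (nat_lit 436368), .ofNat (nat_lit 351268), .ofNat (nat_lit 481203)⟩⟩, [⟨nat_lit 16, nat_lit 62, nat_lit 100, nat_lit 94, nat_lit 200268103⟩]⟩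
noncomputable def p112_l94 : Lf2 := ⟨nat_lit 0, nat_lit 20, [nat_lit 5, nat_lit 5, nat_lit 5, nat_lit 20], false, nat_lit 160, nat_lit 232, nat_lit 0, nat_lit 364, ⟨nat_lit 0, nat_lit 564, nat_lit 436, nat_lit 6, nat_lit 213, nat_lit 1000, nat_lit 152, nat_lit 436, nat_lit 156817, nat_lit 312, nat_lit 6376, nat_lit 204, nat_lit 44718252, nat_lit 14021464, nat_lit 8260284, nat_lit 4589755, false, false⟩,
 nat_lit 0, nat_lit 3222, nat_lit 0, nat_lit 0, nat_lit 2907, nat_lit 0, nat_lit 26, nat_lit 0, nat_lit 0, nat_lit 0, nat_lit 0, nat_lit 0, nat_lit 0, nat_lit 0, nat_lit 0, nat_lit 250000, nat_lit 0, nat_lit 0, [(nat_lit 25, [(nat_lit 0, nat_lit 564), (nat_lit 4, nat_lit 436)])],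
 ⟨p112_k3, nat_lit 0, nat_lit 0, nat_lit 160, nat_lit 0, nat_lit 322942, [nat_lit 748304001, nat_lit 614229334, nat_lit 383592000], [], [nat_lit 20539169204, nat_lit 21106721272, nat_lit 22874426318, nat_lit 23396936905, nat_lit 22258856455, nat_lit 22814025894, nat_lit 24386620170, nat_lit 24883163668], nat_lit 1271250, nat_lit 1271250, nat_lit 841600, nat_lit 1767000, nat_lit 1100001, nat_lit 1716500, [nat_lit 230000, nat_lit 780000, nat_lit 1435000], [nat_lit 20, nat_lit 40, nat_lit 40, nat_lit 80, nat_lit 16, nat_lit 345, nat_lit 125, nat_lit 12]⟩, ⟨p112_k1, nat_lit 0, nat_lit 0, nat_lit 643, nat_lit 0, nat_lit 640101, [nat_lit 0, nat_lit 0, nat_lit 0], [], [nat_lit 0, nat_lit 0, nat_lit 0, nat_lit 0, nat_lit 0, nat_lit 0, nat_lit 0, nat_lit 0], nat_lit 1271250, nat_lit 1271250, nat_lit 841600, nat_lit 1767000, nat_lit 0, nat_lit 2570750, [nat_lit 1100000, nat_lit 1785000, nat_lit 1271250], [nat_lit 37, nat_lit 40,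 nat_lit 40, nat_lit 80, nat_lit 28, nat_lit 456, nat_lit 225, nat_lit 11]⟩,
 ⟨nat_lit 2236, nat_lit 2739, ⟨.ofNat (nat_lit 438420), .ofNat (nat_lit 603890), .ofNat (nat_lit 460818), .ofNat (nat_lit 626287), .ofNat (nat_lit 442816), .ofNat (nat_lit 602558), .ofNat (nat_lit 465571), .ofNat (nat_lit 625312)⟩, ⟨.ofNat (nat_lit 306433), .ofNat (nat_lit 412743), .ofNat (nat_lit 351268), .ofNat (nat_lit 457578), .ofNat (nat_lit 306337), .ofNat (nat_lit 408965), .ofNat (nat_lit 351886), .ofNat (nat_lit 454514)⟩⟩, [⟨nat_lit 4, nat_lit 100, nat_lit 48, nat_lit 87, nat_lit 262373351⟩]⟩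
noncomputable def p112_l95 : Lf2 := ⟨nat_lit 0, nat_lit 20, [nat_lit 5, nat_lit 5, nat_lit 5, nat_lit 20], false, nat_lit 160, nat_lit 208, nat_lit 0, nat_lit 364, ⟨nat_lit 28, nat_lit 615, nat_lit 357, nat_lit 6, nat_lit 220, nat_lit 972, nat_lit 144, nat_lit 357, nat_lit 194400, nat_lit 323, nat_lit 2526, nat_lit 204, nat_lit 44758896, nat_lit 14707090, nat_lit 7534014, nat_lit 4544872, false, false⟩,
 nat_lit 711, nat_lit 2390, nat_lit 0, nat_lit 0, nat_lit 2897, nat_lit 376, nat_lit 0, nat_lit 0, nat_lit 0, nat_lit 18, nat_lit 0, nat_lit 0, nat_lit 0, nat_lit 0, nat_lit 4, nat_lit 283500, nat_lit 0, nat_lit 0, [(nat_lit 28, [(nat_lit 0, nat_lit 615), (nat_lit 4, nat_lit 87), (nat_lit 5, nat_lit 270)])],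
 ⟨p112_k36, nat_lit 0, nat_lit 0, nat_lit 225, nat_lit 0, nat_lit 416161, [nat_lit 749479200, nat_lit 205114800, nat_lit 38604000], [], [nat_lit 21530949854, nat_lit 22555522275, nat_lit 23335846790, nat_lit 24529567840, nat_lit 22532505191, nat_lit 23593299942, nat_lit 24301578663, nat_lit 25576932705], nat_lit 1271250, nat_lit 1271250, nat_lit 1000851, nat_lit 1778250, nat_lit 1100001, nat_lit 1511000, [nat_lit 230000, nat_lit 1100000, nat_lit 1442500], [nat_lit 55, nat_lit 40, nat_lit 40, nat_lit 80, nat_lit 3, nat_lit 345, nat_lit 125, nat_lit 12]⟩, ⟨p112_k9, nat_lit 0, nat_lit 0, nat_lit 763, nat_lit 0, nat_lit 860623, [nat_lit 131264000, nat_lit 275576000, nat_lit 393624000], [], [nat_lit 1935357988, nat_lit 1732515688, nat_lit 1026814224, nat_lit 1061518264, nat_lit 1820895737, nat_lit 1652356764, nat_lit 1051557460, nat_lit 896284037], nat_lit 1271250, nat_lit 1271250, nat_lit 1271250, nat_lit 1271250, nat_lit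 0, nat_lit 2570750, [nat_lit 1100000, nat_lit 2127500, nat_lit 1271250], [nat_lit 56, nat_lit 40, nat_lit 40, nat_lit 80, nat_lit 32, nat_lit 456, nat_lit 225, nat_lit 11]⟩,
 ⟨nat_lit 0, nat_lit 2237, ⟨.ofNat (nat_lit 467180), .ofNat (nat_lit 602531), .ofNat (nat_lit 489028), .ofNat (nat_lit 624400), .ofNat (nat_lit 480752), .ofNat (nat_lit 599967), .ofNat (nat_lit 504825), .ofNat (nat_lit 624062)⟩, ⟨.ofNat (nat_lit 306334), .ofNat (nat_lit 374750), .ofNat (nat_lit 351885), .ofNat (nat_lit 420300), .ofNat (nat_lit 299996), .ofNat (nat_lit 359993), .ofNat (nat_lit 349998), .ofNat (nat_lit 409994)⟩⟩, [⟨nat_lit 16, nat_lit 44, nat_lit 100, nat_lit 92, nat_lit 30273058⟩, ⟨nat_lit 4, nat_lit 100, nat_lit 32, nat_lit 88, nat_lit 365721614⟩, ⟨nat_lit 7, nat_lit 72, nat_lit 100, nat_lit 89, nat_lit 3564457⟩]⟩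
noncomputable def p112_l96 : Lf2 := ⟨nat_lit 0, nat_lit 20, [nat_lit 5, nat_lit 5, nat_lit 5, nat_lit 20], true, nat_lit 160, nat_lit 248, nat_lit 0, nat_lit 352, ⟨nat_lit 0, nat_lit 264, nat_lit 736, nat_lit 6, nat_lit 197, nat_lit 1000, nat_lit 158, nat_lit 736, nat_lit 61189, nat_lit 275, nat_lit 21902, nat_lit 249, nat_lit 45739029, nat_lit 12447201, nat_lit 8813770, nat_lit 4510801, false, false⟩,
 nat_lit 0, nat_lit 3202, nat_lit 0, nat_lit 0, nat_lit 2788, nat_lit 0, nat_lit 0, nat_lit 0, nat_lit 0, nat_lit 0, nat_lit 0, nat_lit 0, nat_lit 0, nat_lit 0, nat_lit 41, nat_lit 250000, nat_lit 0, nat_lit 0, [(nat_lit 25, [(nat_lit 0, nat_lit 264), (nat_lit 4, nat_lit 736)])],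
 ⟨p112_k0, nat_lit 0, nat_lit 0, nat_lit 225, nat_lit 0, nat_lit 471226, [nat_lit 901504001, nat_lit 587029334, nat_lit 39869866], [], [nat_lit 19475270451, nat_lit 19996207324, nat_lit 19873372014, nat_lit 20438334038, nat_lit 21725627159, nat_lit 22350044030, nat_lit 22143245496, nat_lit 22722516034], nat_lit 1271250, nat_lit 1271250, nat_lit 872850, nat_lit 1100001, nat_lit 1100001, nat_lit 1853500, [nat_lit 230000, nat_lit 780000, nat_lit 1435000], [nat_lit 20, nat_lit 40, nat_lit 40, nat_lit 80, nat_lit 16, nat_lit 345, nat_lit 125, nat_lit 12]⟩, C1.Rw.none,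
 ⟨nat_lit 2738, nat_lit 3163, ⟨.ofNat (nat_lit 462776), .ofNat (nat_lit 505456), .ofNat (nat_lit 473847), .ofNat (nat_lit 516527), .ofNat (nat_lit 466780), .ofNat (nat_lit 508135), .ofNat (nat_lit 477982), .ofNat (nat_lit 519338)⟩, ⟨.ofNat (nat_lit 306116), .ofNat (nat_lit 440213), .ofNat (nat_lit 350426), .ofNat (nat_lit 484523), .ofNat (nat_lit 306433), .ofNat (nat_lit 436368), .ofNat (nat_lit 351268), .ofNat (nat_lit 481203)⟩⟩, [⟨nat_lit 0, nat_lit 96, nat_lit 54, nat_lit 100, nat_lit 86187916⟩, ⟨nat_lit 4, nat_lit 100, nat_lit 57, nat_lit 87, nat_lit 287192235⟩]⟩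
noncomputable def p112_l97 : Lf2 := ⟨nat_lit 0, nat_lit 20, [nat_lit 5, nat_lit 5, nat_lit 5, nat_lit 20], false, nat_lit 160, nat_lit 248, nat_lit 0, nat_lit 352, ⟨nat_lit 90, nat_lit 279, nat_lit 631, nat_lit 6, nat_lit 229, nat_lit 910, nat_lit 158, nat_lit 631, nat_lit 61189, nat_lit 275, nat_lit 5692, nat_lit 200, nat_lit 43070435, nat_lit 15391108, nat_lit 8538457, nat_lit 4750316, false, false⟩,
 nat_lit 2434, nat_lit 869, nat_lit 0, nat_lit 0, nat_lit 2876, nat_lit 1416, nat_lit 13, nat_lit 0, nat_lit 0, nat_lit 0, nat_lit 0, nat_lit 0, nat_lit 0, nat_lit 0, nat_lit 2, nat_lit 227500, nat_lit 0, nat_lit 0, [(nat_lit 25, [(nat_lit 0, nat_lit 279), (nat_lit 4, nat_lit 631)])],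
 ⟨p112_k0, nat_lit 0, nat_lit 0, nat_lit 144, nat_lit 0, nat_lit 301359, [nat_lit 764944000, nat_lit 472937334, nat_lit 28237866], [], [nat_lit 20030202971, nat_lit 20632815087, nat_lit 22048729835, nat_lit 22581443739, nat_lit 22323852914, nat_lit 22857200083, nat_lit 24146269994, nat_lit 24739631810], nat_lit 1271250, nat_lit 1271250, nat_lit 1100001, nat_lit 1785000, nat_lit 1100001, nat_lit 1853500, [nat_lit 230000, nat_lit 780000, nat_lit 1435000], [nat_lit 20, nat_lit 40, nat_lit 40, nat_lit 80, nat_lit 16, nat_lit 345, nat_lit 125, nat_lit 12]⟩, ⟨p112_k18, nat_lit 0, nat_lit 0, nat_lit 507, nat_lit 0, nat_lit 503875, [nat_lit 421920000, nat_lit 717120000, nat_lit 1068480000], [], [nat_lit 4052905512, nat_lit 3678559008, nat_lit 3456599472, nat_lit 3533787120, nat_lit 4045785605, nat_lit 3724308860, nat_lit 2885177384, nat_lit 2913376136], nat_lit 1271250, nat_lit 1271250, nat_lit 1271250, nat_lit 1271250, nat_lit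 0, nat_lit 2486000, [nat_lit 1100000, nat_lit 1785000, nat_lit 1271250], [nat_lit 21, nat_lit 40, nat_lit 40, nat_lit 80, nat_lit 14, nat_lit 456, nat_lit 225, nat_lit 12]⟩,
 ⟨nat_lit 2738, nat_lit 3163, ⟨.ofNat (nat_lit 505456), .ofNat (nat_lit 627400), .ofNat (nat_lit 516527), .ofNat (nat_lit 638471), .ofNat (nat_lit 508135), .ofNat (nat_lit 626295), .ofNat (nat_lit 519338), .ofNat (nat_lit 637498)⟩, ⟨.ofNat (nat_lit 306116), .ofNat (nat_lit 440213), .ofNat (nat_lit 350426), .ofNat (nat_lit 484523), .ofNat (nat_lit 306433), .ofNat (nat_lit 436368), .ofNat (nat_lit 351268), .ofNat (nat_lit 481203)⟩⟩, [⟨nat_lit 16, nat_lit 62, nat_lit 100, nat_lit 94, nat_lit 261045386⟩, ⟨nat_lit 19, nat_lit 100, nat_lit 69, nat_lit 96, nat_lit 8954682⟩]⟩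
noncomputable def p112_l98 : Lf2 := ⟨nat_lit 0, nat_lit 20, [nat_lit 5, nat_lit 5, nat_lit 5, nat_lit 20], false, nat_lit 160, nat_lit 232, nat_lit 0, nat_lit 352, ⟨nat_lit 0, nat_lit 627, nat_lit 373, nat_lit 6, nat_lit 226, nat_lit 1000, nat_lit 152, nat_lit 373, nat_lit 156817, nat_lit 312, nat_lit 3750, nat_lit 200, nat_lit 43666754, nat_lit 15177289, nat_lit 8155957, nat_lit 4678225, false, false⟩,
 nat_lit 0, nat_lit 3239, nat_lit 0, nat_lit 0, nat_lit 2922, nat_lit 0, nat_lit 50, nat_lit 0, nat_lit 0, nat_lit 0, nat_lit 0, nat_lit 0, nat_lit 0, nat_lit 0, nat_lit 0, nat_lit 250000, nat_lit 0, nat_lit 0, [(nat_lit 25, [(nat_lit 0, nat_lit 627), (nat_lit 4, nat_lit 373)])],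
 ⟨p112_k3, nat_lit 0, nat_lit 0, nat_lit 163, nat_lit 0, nat_lit 341176, [nat_lit 750572001, nat_lit 723261334, nat_lit 634206000], [], [nat_lit 20883846221, nat_lit 21438480114, nat_lit 22877107493, nat_lit 23400731695, nat_lit 22538477391, nat_lit 23064604241, nat_lit 24388744740, nat_lit 24894610528], nat_lit 1271250, nat_lit 1271250, nat_lit 1000851, nat_lit 1778250, nat_lit 1100001, nat_lit 1716500, [nat_lit 230000, nat_lit 780000, nat_lit 1435000], [nat_lit 20, nat_lit 40, nat_lit 40, nat_lit 80, nat_lit 16, nat_lit 345, nat_lit 125, nat_lit 12]⟩, ⟨p112_k18, nat_lit 0, nat_lit 0, nat_lit 548, nat_lit 0, nat_lit 595817, [nat_lit 0, nat_lit 0, nat_lit 0], [], [nat_lit 0, nat_lit 0, nat_lit 0, nat_lit 0, nat_lit 0, nat_lit 0, nat_lit 0, nat_lit 0], nat_lit 1271250, nat_lit 1271250, nat_lit 1000851, nat_lit 1778250, nat_lit 0, nat_lit 2486000, [nat_lit 1100000, nat_lit 1785000, nat_lit 1271250], [nat_lit 21, nat_lit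 40, nat_lit 40, nat_lit 80, nat_lit 14, nat_lit 456, nat_lit 225, nat_lit 12]⟩,
 ⟨nat_lit 2236, nat_lit 2739, ⟨.ofNat (nat_lit 490366), .ofNat (nat_lit 626287), .ofNat (nat_lit 501564), .ofNat (nat_lit 637486), .ofNat (nat_lit 494096), .ofNat (nat_lit 625312), .ofNat (nat_lit 505473), .ofNat (nat_lit 636689)⟩, ⟨.ofNat (nat_lit 306433), .ofNat (nat_lit 412743), .ofNat (nat_lit 351268), .ofNat (nat_lit 457578), .ofNat (nat_lit 306337), .ofNat (nat_lit 408965), .ofNat (nat_lit 351886), .ofNat (nat_lit 454514)⟩⟩, [⟨nat_lit 4, nat_lit 100, nat_lit 48, nat_lit 87, nat_lit 264238785⟩]⟩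
noncomputable def p112_l99 : Lf2 := ⟨nat_lit 0, nat_lit 20, [nat_lit 5, nat_lit 5, nat_lit 5, nat_lit 20], false, nat_lit 160, nat_lit 248, nat_lit 0, nat_lit 344, ⟨nat_lit 120, nat_lit 162, nat_lit 718, nat_lit 6, nat_lit 215, nat_lit 880, nat_lit 158, nat_lit 718, nat_lit 61189, nat_lit 275, nat_lit 2332, nat_lit 216, nat_lit 44186088, nat_lit 14153704, nat_lit 8660208, nat_lit 4658600, false, false⟩,
 nat_lit 3305, nat_lit 0, nat_lit 0, nat_lit 0, nat_lit 2878, nat_lit 2012, nat_lit 0, nat_lit 0, nat_lit 0, nat_lit 0, nat_lit 0, nat_lit 0, nat_lit 0, nat_lit 0, nat_lit 13, nat_lit 220000, nat_lit 0, nat_lit 0, [(nat_lit 25, [(nat_lit 0, nat_lit 162), (nat_lit 4, nat_lit 718)])],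
 ⟨p112_k0, nat_lit 0, nat_lit 0, nat_lit 154, nat_lit 0, nat_lit 324087, [nat_lit 811032001, nat_lit 511765334, nat_lit 33180266], [], [nat_lit 19751390985, nat_lit 20354792152, nat_lit 20972785829, nat_lit 21527563741, nat_lit 22078449095, nat_lit 22604659264, nat_lit 23104736670, nat_lit 23627021417], nat_lit 1271250, nat_lit 1271250, nat_lit 936251, nat_lit 1438750, nat_lit 1100001, nat_lit 1853500, [nat_lit 230000, nat_lit 780000, nat_lit 1435000], [nat_lit 20, nat_lit 40, nat_lit 40, nat_lit 80, nat_lit 16, nat_lit 345, nat_lit 125, nat_lit 12]⟩, ⟨p112_k19, nat_lit 0, nat_lit 0, nat_lit 517, nat_lit 0, nat_lit 510526, [nat_lit 562560000, nat_lit 956160000, nat_lit 1424640000], [], [nat_lit 6063301692, nat_lit 5527266664, nat_lit 4508460704, nat_lit 4631182976, nat_lit 3906672195, nat_lit 3959676175, nat_lit 4453500726, nat_lit 4001435109], nat_lit 1271250, nat_lit 1271250, nat_lit 936251, nat_lit 1438750, nat_lit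 0, nat_lit 2429500, [nat_lit 1100000, nat_lit 1785000, nat_lit 1271250], [nat_lit 21, nat_lit 40, nat_lit 40, nat_lit 80, nat_lit 14, nat_lit 456, nat_lit 225, nat_lit 12]⟩,
 ⟨nat_lit 2738, nat_lit 3163, ⟨.ofNat (nat_lit 486042), .ofNat (nat_lit 577499), .ofNat (nat_lit 497113), .ofNat (nat_lit 588571), .ofNat (nat_lit 489799), .ofNat (nat_lit 578418), .ofNat (nat_lit 501001), .ofNat (nat_lit 589621)⟩, ⟨.ofNat (nat_lit 306116), .ofNat (nat_lit 440213), .ofNat (nat_lit 350426), .ofNat (nat_lit 484523), .ofNat (nat_lit 306433), .ofNat (nat_lit 436368), .ofNat (nat_lit 351268), .ofNat (nat_lit 481203)⟩⟩, [⟨nat_lit 16, nat_lit 62, nat_lit 100, nat_lit 94, nat_lit 263230807⟩]⟩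
noncomputable def p112_l100 : Lf2 := ⟨nat_lit 0, nat_lit 20, [nat_lit 5, nat_lit 5, nat_lit 5, nat_lit 20], false, nat_lit 160, nat_lit 248, nat_lit 0, nat_lit 344, ⟨nat_lit 297, nat_lit 703, nat_lit 0, nat_lit 6, nat_lit 245, nat_lit 703, nat_lit 158, nat_lit 0, nat_lit 0, nat_lit 0, nat_lit 0, nat_lit 0, nat_lit 41721806, nat_lit 16898631, nat_lit 8379563, nat_lit 4845897, true, false⟩,
 nat_lit 5240, nat_lit 0, nat_lit 0, nat_lit 0, nat_lit 4563, nat_lit 3191, nat_lit 57, nat_lit 0, nat_lit 0, nat_lit 221, nat_lit 0, nat_lit 0, nat_lit 0, nat_lit 0, nat_lit 0, nat_lit 281200, nat_lit 0, nat_lit 0, [(nat_lit 25, [(nat_lit 1, nat_lit 703)])],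
 ⟨p112_k0, nat_lit 0, nat_lit 0, nat_lit 148, nat_lit 0, nat_lit 324087, [nat_lit 872480401, nat_lit 1679253734, nat_lit 2499635600], [], [nat_lit 21909157245, nat_lit 22656278258, nat_lit 23117169769, nat_lit 23810908605, nat_lit 24114348695, nat_lit 24754915728, nat_lit 25166556797, nat_lit 25908465543], nat_lit 1271250, nat_lit 1271250, nat_lit 1271250, nat_lit 1271250, nat_lit 1100001, nat_lit 1853500, [nat_lit 230000, nat_lit 780000, nat_lit 1435000], [nat_lit 20, nat_lit 40, nat_lit 40, nat_lit 80, nat_lit 16, nat_lit 289, nat_lit 75, nat_lit 9]⟩, ⟨p112_k19, nat_lit 0, nat_lit 0, nat_lit 498, nat_lit 0, nat_lit 510526, [nat_lit 1392336000, nat_lit 2366496000, nat_lit 3525984000], [], [nat_lit 8681293541, nat_lit 8908285202, nat_lit 9190836317, nat_lit 9392324854, nat_lit 8746097971, nat_lit 8305501314, nat_lit 8431835701, nat_lit 8610738834], nat_lit 1271250, nat_lit 1271250, nat_lit 1271250, nat_lit 1271250, nat_lit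 0, nat_lit 2429500, [nat_lit 1100000, nat_lit 1785000, nat_lit 1271250], [nat_lit 21, nat_lit 40, nat_lit 40, nat_lit 80, nat_lit 14, nat_lit 456, nat_lit 225, nat_lit 11]⟩,
 ⟨nat_lit 2738, nat_lit 3163, ⟨.ofNat (nat_lit 577499), .ofNat (nat_lit 638471), .ofNat (nat_lit 588571), .ofNat (nat_lit 649542), .ofNat (nat_lit 578418), .ofNat (nat_lit 637498), .ofNat (nat_lit 589621), .ofNat (nat_lit 648700)⟩, ⟨.ofNat (nat_lit 306116), .ofNat (nat_lit 440213), .ofNat (nat_lit 350426), .ofNat (nat_lit 484523), .ofNat (nat_lit 306433), .ofNat (nat_lit 436368), .ofNat (nat_lit 351268), .ofNat (nat_lit 481203)⟩⟩, [⟨nat_lit 16, nat_lit 62, nat_lit 100, nat_lit 94, nat_lit 320201256⟩, ⟨nat_lit 19, nat_lit 100, nat_lit 74, nat_lit 98, nat_lit 46388514⟩]⟩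
noncomputable def p112_l101 : Lf2 := ⟨nat_lit 0, nat_lit 20, [nat_lit 5, nat_lit 5, nat_lit 5, nat_lit 20], false, nat_lit 160, nat_lit 232, nat_lit 0, nat_lit 344, ⟨nat_lit 126, nat_lit 395, nat_lit 479, nat_lit 6, nat_lit 234, nat_lit 874, nat_lit 152, nat_lit 479, nat_lit 156817, nat_lit 312, nat_lit 26118, nat_lit 200, nat_lit 42999599, nat_lit 15914661, nat_lit 8085740, nat_lit 4729092, false, false⟩,
 nat_lit 3269, nat_lit 0, nat_lit 0, nat_lit 0, nat_lit 2950, nat_lit 1990, nat_lit 99, nat_lit 0, nat_lit 0, nat_lit 0, nat_lit 0, nat_lit 0, nat_lit 0, nat_lit 0, nat_lit 0, nat_lit 218500, nat_lit 0, nat_lit 0, [(nat_lit 25, [(nat_lit 0, nat_lit 395), (nat_lit 4, nat_lit 479)])],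
 ⟨p112_k3, nat_lit 0, nat_lit 0, nat_lit 175, nat_lit 0, nat_lit 361245, [nat_lit 768680000, nat_lit 780873867, nat_lit 733170000], [], [nat_lit 20618262417, nat_lit 21177680800, nat_lit 22515144250, nat_lit 23195821500, nat_lit 22321965480, nat_lit 22975197550, nat_lit 24298554190, nat_lit 24915978000], nat_lit 1271250, nat_lit 1271250, nat_lit 1100001, nat_lit 1785000, nat_lit 1100001, nat_lit 1716500, [nat_lit 230000, nat_lit 780000, nat_lit 1435000], [nat_lit 20, nat_lit 40, nat_lit 40, nat_lit 80, nat_lit 16, nat_lit 345, nat_lit 125, nat_lit 12]⟩, ⟨p112_k19, nat_lit 0, nat_lit 0, nat_lit 541, nat_lit 0, nat_lit 594365, [nat_lit 590688000, nat_lit 1003968000, nat_lit 1495872000], [], [nat_lit 5155536182, nat_lit 4737653264, nat_lit 4950048646, nat_lit 5058384368, nat_lit 5094623999, nat_lit 4641659801, nat_lit 3983544117, nat_lit 4020824723], nat_lit 1271250, nat_lit 1271250, nat_lit 1271250, nat_lit 1271250, nat_lit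 0, nat_lit 2429500, [nat_lit 1100000, nat_lit 1785000, nat_lit 1271250], [nat_lit 21, nat_lit 40, nat_lit 40, nat_lit 80, nat_lit 14, nat_lit 456, nat_lit 225, nat_lit 12]⟩,
 ⟨nat_lit 2236, nat_lit 2739, ⟨.ofNat (nat_lit 519293), .ofNat (nat_lit 637486), .ofNat (nat_lit 530492), .ofNat (nat_lit 648684), .ofNat (nat_lit 522587), .ofNat (nat_lit 636689), .ofNat (nat_lit 533965), .ofNat (nat_lit 648065)⟩, ⟨.ofNat (nat_lit 306433), .ofNat (nat_lit 412743), .ofNat (nat_lit 351268), .ofNat (nat_lit 457578), .ofNat (nat_lit 306337), .ofNat (nat_lit 408965), .ofNat (nat_lit 351886), .ofNat (nat_lit 454514)⟩⟩, [⟨nat_lit 16, nat_lit 53, nat_lit 100, nat_lit 93, nat_lit 301137824⟩, ⟨nat_lit 19, nat_lit 100, nat_lit 74, nat_lit 98, nat_lit 9219658⟩]⟩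
noncomputable def p112_l102 : Lf2 := ⟨nat_lit 0, nat_lit 20, [nat_lit 5, nat_lit 5, nat_lit 5, nat_lit 20], false, nat_lit 160, nat_lit 208, nat_lit 0, nat_lit 352, ⟨nat_lit 148, nat_lit 490, nat_lit 362, nat_lit 6, nat_lit 234, nat_lit 852, nat_lit 144, nat_lit 362, nat_lit 194400, nat_lit 323, nat_lit 25022, nat_lit 200, nat_lit 43500591, nat_lit 16079312, nat_lit 7420097, nat_lit 4643522, false, false⟩,
 nat_lit 3147, nat_lit 0, nat_lit 0, nat_lit 0, nat_lit 2940, nat_lit 1831, nat_lit 0, nat_lit 0, nat_lit 0, nat_lit 0, nat_lit 0, nat_lit 0, nat_lit 0, nat_lit 0, nat_lit 8, nat_lit 307950, nat_lit 0, nat_lit 0, [(nat_lit 28, [(nat_lit 0, nat_lit 219), (nat_lit 1, nat_lit 271), (nat_lit 5, nat_lit 362)])],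
 ⟨p112_k37, nat_lit 0, nat_lit 0, nat_lit 226, nat_lit 0, nat_lit 446464, [nat_lit 745927200, nat_lit 266180400, nat_lit 145142400], [], [nat_lit 21511654456, nat_lit 22742091121, nat_lit 23208896480, nat_lit 24573200800, nat_lit 22604834277, nat_lit 23928276394, nat_lit 24334854041, nat_lit 25618634897], nat_lit 1271250, nat_lit 1271250, nat_lit 1167600, nat_lit 1789500, nat_lit 1100001, nat_lit 1511000, [nat_lit 230000, nat_lit 780000, nat_lit 1435000], [nat_lit 20, nat_lit 40, nat_lit 40, nat_lit 80, nat_lit 16, nat_lit 345, nat_lit 125, nat_lit 12]⟩, ⟨p112_k18, nat_lit 0, nat_lit 0, nat_lit 657, nat_lit 0, nat_lit 813484, [nat_lit 693824000, nat_lit 1179264000, nat_lit 1757056000], [], [nat_lit 5785348779, nat_lit 5399788748, nat_lit 5522247654, nat_lit 5740363472, nat_lit 6241597834, nat_lit 5412346722, nat_lit 5023575789, nat_lit 5100796424], nat_lit 1271250, nat_lit 1271250, nat_lit 1271250, nat_lit 1271250, nat_lit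 0, nat_lit 2486000, [nat_lit 1100000, nat_lit 1785000, nat_lit 1271250], [nat_lit 21, nat_lit 40, nat_lit 40, nat_lit 80, nat_lit 14, nat_lit 456, nat_lit 225, nat_lit 12]⟩,
 ⟨nat_lit 0, nat_lit 2237, ⟨.ofNat (nat_lit 518456), .ofNat (nat_lit 624400), .ofNat (nat_lit 540305), .ofNat (nat_lit 646249), .ofNat (nat_lit 530746), .ofNat (nat_lit 624062), .ofNat (nat_lit 554820), .ofNat (nat_lit 648136)⟩, ⟨.ofNat (nat_lit 306334), .ofNat (nat_lit 374750), .ofNat (nat_lit 351885), .ofNat (nat_lit 420300), .ofNat (nat_lit 299996), .ofNat (nat_lit 359993), .ofNat (nat_lit 349998), .ofNat (nat_lit 409994)⟩⟩, [⟨nat_lit 0, nat_lit 94, nat_lit 31, nat_lit 100, nat_lit 21963399⟩, ⟨nat_lit 16, nat_lit 44, nat_lit 100, nat_lit 92, nat_lit 373690582⟩, ⟨nat_lit 7, nat_lit 82, nat_lit 100, nat_lit 92, nat_lit 21243492⟩]⟩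
noncomputable def b_V_900_600_20_22 : St := ⟨true, nat_lit 1, nat_lit 1, nat_lit 1, nat_lit 120, nat_lit 360, nat_lit 400, nat_lit 240, nat_lit 280, nat_lit 112, nat_lit 240, nat_lit 80, nat_lit 120, nat_lit 8, nat_lit 248, nat_lit 0, nat_lit 364, nat_lit 40, nat_lit 80, nat_lit 0, nat_lit 0, nat_lit 0, nat_lit 0⟩
theorem d_V_900_600_20_22 (h : EB TB.env) : Dead b_V_900_600_20_22 := chkB_sound0 h (T :=
(.spl (nat_lit 4) (nat_lit 160)
(.spl (nat_lit 4) (nat_lit 80)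
(.spl (nat_lit 1) (nat_lit 260)
(.spl (nat_lit 0) (nat_lit 380)
(.spl (nat_lit 0) (nat_lit 370)
(.leaf p112_l83)
(.trZ (nat_lit 0) (nat_lit 100) (nat_lit 54) (nat_lit 96) (nat_lit 128) (.trZ (nat_lit 3) (nat_lit 100) (nat_lit 66) (nat_lit 45) (nat_lit 12) (.leaf p112_l84))))
(.trZ (nat_lit 0) (nat_lit 100) (nat_lit 44) (nat_lit 99) (nat_lit 148) (.trZ (nat_lit 3) (nat_lit 100) (nat_lit 54) (nat_lit 57) (nat_lit 20) (.leaf p112_l85))))
(.trZ (nat_lit 0) (nat_lit 100) (nat_lit 63) (nat_lit 99) (nat_lit 132) (.trX (nat_lit 19) (nat_lit 100) (nat_lit 69) (nat_lit 96) (nat_lit 352) (.spl (nat_lit 0) (nat_lit 380)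
(.spl (nat_lit 0) (nat_lit 370)
(.leaf p112_l86)
(.trZ (nat_lit 0) (nat_lit 98) (nat_lit 54) (nat_lit 100) (nat_lit 148) (.trZ (nat_lit 3) (nat_lit 100) (nat_lit 66) (nat_lit 45) (nat_lit 12) (.leaf p112_l87))))
(.trZ (nat_lit 0) (nat_lit 96) (nat_lit 44) (nat_lit 100) (nat_lit 168) (.trZ (nat_lit 3) (nat_lit 100) (nat_lit 54) (nat_lit 57) (nat_lit 20) (.leaf p112_l88)))))))
(.spl (nat_lit 1) (nat_lit 260)
(.spl (nat_lit 0) (nat_lit 380)
(.leaf p112_l89)
(.trZ (nat_lit 0) (nat_lit 100) (nat_lit 44) (nat_lit 99) (nat_lit 148) (.leaf p112_l90)))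
(.trZ (nat_lit 0) (nat_lit 100) (nat_lit 63) (nat_lit 99) (nat_lit 132) (.trX (nat_lit 19) (nat_lit 100) (nat_lit 69) (nat_lit 96) (nat_lit 352) (.spl (nat_lit 0) (nat_lit 380)
(.leaf p112_l91)
(.trZ (nat_lit 0) (nat_lit 96) (nat_lit 44) (nat_lit 100) (nat_lit 168) (.leaf p112_l92)))))))
(.spl (nat_lit 1) (nat_lit 260)
(.spl (nat_lit 0) (nat_lit 380)
(.spl (nat_lit 0) (nat_lit 370)
(.leaf p112_l93)
(.trZ (nat_lit 0) (nat_lit 100) (nat_lit 54) (nat_lit 96) (nat_lit 128) (.trX (nat_lit 16) (nat_lit 53) (nat_lit 100) (nat_lit 93) (nat_lit 232) (.leaf p112_l94))))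
(.trZ (nat_lit 0) (nat_lit 100) (nat_lit 44) (nat_lit 99) (nat_lit 148) (.trX (nat_lit 16) (nat_lit 44) (nat_lit 100) (nat_lit 92) (nat_lit 208) (.leaf p112_l95))))
(.trZ (nat_lit 0) (nat_lit 100) (nat_lit 63) (nat_lit 99) (nat_lit 132) (.trX (nat_lit 19) (nat_lit 100) (nat_lit 69) (nat_lit 96) (nat_lit 352) (.spl (nat_lit 0) (nat_lit 380)
(.spl (nat_lit 1) (nat_lit 270)
(.spl (nat_lit 0) (nat_lit 370)
(.spl (nat_lit 2) (nat_lit 160)
(.leaf p112_l96)
(.leaf p112_l97))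
(.trZ (nat_lit 0) (nat_lit 98) (nat_lit 54) (nat_lit 100) (nat_lit 148) (.trX (nat_lit 16) (nat_lit 53) (nat_lit 100) (nat_lit 93) (nat_lit 232) (.leaf p112_l98))))
(.trZ (nat_lit 0) (nat_lit 98) (nat_lit 63) (nat_lit 100) (nat_lit 140) (.trX (nat_lit 19) (nat_lit 100) (nat_lit 74) (nat_lit 98) (nat_lit 344) (.spl (nat_lit 0) (nat_lit 370)
(.spl (nat_lit 2) (nat_lit 200)
(.leaf p112_l99)
(.leaf p112_l100))
(.trZ (nat_lit 0) (nat_lit 96) (nat_lit 54) (nat_lit 100) (nat_lit 160) (.trX (nat_lit 16) (nat_lit 53) (nat_lit 100) (nat_lit 93) (nat_lit 232) (.leaf p112_l101)))))))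
(.trZ (nat_lit 0) (nat_lit 96) (nat_lit 44) (nat_lit 100) (nat_lit 168) (.trX (nat_lit 16) (nat_lit 44) (nat_lit 100) (nat_lit 92) (nat_lit 208) (.leaf p112_l102))))))))) (by decide +kernel)
noncomputable def p112_l103 : Lf2 := ⟨nat_lit 0, nat_lit 20, [nat_lit 5, nat_lit 5, nat_lit 5, nat_lit 20], false, nat_lit 8, nat_lit 80, nat_lit 0, nat_lit 336, ⟨nat_lit 557, nat_lit 443, nat_lit 0, nat_lit 6, nat_lit 283, nat_lit 443, nat_lit 43, nat_lit 0, nat_lit 0, nat_lit 0, nat_lit 0, nat_lit 0, nat_lit 43695031, nat_lit 22132467, nat_lit 1172502, nat_lit 3681049, true, true⟩,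
 nat_lit 8776, nat_lit 0, nat_lit 0, nat_lit 0, nat_lit 3844, nat_lit 4645, nat_lit 199, nat_lit 0, nat_lit 0, nat_lit 470, nat_lit 0, nat_lit 0, nat_lit 0, nat_lit 0, nat_lit 0, nat_lit 366800, nat_lit 0, nat_lit 0, [(nat_lit 25, [(nat_lit 1, nat_lit 127), (nat_lit 2, nat_lit 316)])],
 ⟨p112_k0, nat_lit 0, nat_lit 0, nat_lit 249, nat_lit 0, nat_lit 280635, [nat_lit 1093770001, nat_lit 1834970001, nat_lit 2365459600], [], [nat_lit 24468352085, nat_lit 25386861639, nat_lit 31481819625, nat_lit 32151206063, nat_lit 23050168185, nat_lit 23578373517, nat_lit 28764643026, nat_lit 29410062619], nat_lit 1271250, nat_lit 1271250, nat_lit 1271250, nat_lit 1271250, nat_lit 43600, nat_lit 490000, [nat_lit 230000, nat_lit 780000, nat_lit 1435000], [nat_lit 20, nat_lit 40, nat_lit 40, nat_lit 80, nat_lit 16, nat_lit 226, nat_lit 20, nat_lit 7]⟩, ⟨p112_k1, nat_lit 0, nat_lit 0, nat_lit 569, nat_lit 0, nat_lit 532562, [nat_lit 2611216000,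 nat_lit 4438176000, nat_lit 7830306000], [], [nat_lit 20561812908, nat_lit 20801047032, nat_lit 22583132173, nat_lit 22700580406, nat_lit 18215432964, nat_lit 18286031357, nat_lit 19588696420, nat_lit 19654745282], nat_lit 1271250, nat_lit 1271250, nat_lit 1271250, nat_lit 1271250, nat_lit 0, nat_lit 2373000, [nat_lit 1100000, nat_lit 1785000, nat_lit 1271250], [nat_lit 37, nat_lit 40, nat_lit 40, nat_lit 80, nat_lit 28, nat_lit 483, nat_lit 250, nat_lit 11]⟩,
 ⟨nat_lit 2738, nat_lit 3163, ⟨.ofNat (nat_lit 605257), .ofNat (nat_lit 794217), .ofNat (nat_lit 627400), .ofNat (nat_lit 816372), .ofNat (nat_lit 603890), .ofNat (nat_lit 786985), .ofNat (nat_lit 626295), .ofNat (nat_lit 809402)⟩, ⟨.ofNat (nat_lit 20000), .ofNat (nat_lit 184209), .ofNat (nat_lit 20000), .ofNat (nat_lit 200000), .ofNat (nat_lit 20000), .ofNat (nat_lit 188310), .ofNat (nat_lit 20000), .ofNat (nat_lit 200000)⟩⟩, [⟨nat_lit 22, nat_lit 87, nat_lit 100,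 nat_lit 63, nat_lit 109632132⟩]⟩
noncomputable def p112_l104 : Lf2 := ⟨nat_lit 0, nat_lit 20, [nat_lit 5, nat_lit 5, nat_lit 5, nat_lit 20], false, nat_lit 12, nat_lit 80, nat_lit 0, nat_lit 336, ⟨nat_lit 422, nat_lit 578, nat_lit 0, nat_lit 6, nat_lit 278, nat_lit 578, nat_lit 45, nat_lit 0, nat_lit 0, nat_lit 0, nat_lit 0, nat_lit 0, nat_lit 44142302, nat_lit 21577244, nat_lit 1280454, nat_lit 3687394, true, true⟩,
 nat_lit 6767, nat_lit 0, nat_lit 0, nat_lit 0, nat_lit 3153, nat_lit 3582, nat_lit 389, nat_lit 0, nat_lit 0, nat_lit 356, nat_lit 0, nat_lit 0, nat_lit 0, nat_lit 0, nat_lit 0, nat_lit 144500, nat_lit 0, nat_lit 0, [(nat_lit 25, [(nat_lit 0, nat_lit 578)])],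
 ⟨p112_k3, nat_lit 0, nat_lit 0, nat_lit 257, nat_lit 0, nat_lit 322942, [nat_lit 837428001, nat_lit 2176170400, nat_lit 3861704000], [], [nat_lit 24568635823, nat_lit 25050105212, nat_lit 29479670576, nat_lit 30110588777, nat_lit 23990469860, nat_lit 24447591201, nat_lit 27702919123, nat_lit 28144201397], nat_lit 1271250, nat_lit 1271250, nat_lit 1271250, nat_lit 1271250, nat_lit 65850, nat_lit 490000, [nat_lit 230000, nat_lit 780000, nat_lit 1435000], [nat_lit 20, nat_lit 40, nat_lit 40, nat_lit 80, nat_lit 16, nat_lit 226, nat_lit 20, nat_lit 7]⟩, ⟨p112_k1, nat_lit 0, nat_lit 0, nat_lit 607, nat_lit 0, nat_lit 640101, [nat_lit 1978336000, nat_lit 3362496000, nat_lit 5932476000], [], [nat_lit 15461350280, nat_lit 15642594736, nat_lit 16806472684, nat_lit 16903997723, nat_lit 13608789471, nat_lit 13659942360, nat_lit 14503212194, nat_lit 14558964879], nat_lit 1271250, nat_lit 1271250, nat_lit 1271250, nat_lit 1271250,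 nat_lit 0, nat_lit 2373000, [nat_lit 1100000, nat_lit 1785000, nat_lit 1271250], [nat_lit 37, nat_lit 40, nat_lit 40, nat_lit 80, nat_lit 28, nat_lit 483, nat_lit 250, nat_lit 11]⟩,
 ⟨nat_lit 2236, nat_lit 2739, ⟨.ofNat (nat_lit 603890), .ofNat (nat_lit 769266), .ofNat (nat_lit 626287), .ofNat (nat_lit 791684), .ofNat (nat_lit 602558), .ofNat (nat_lit 762206), .ofNat (nat_lit 625312), .ofNat (nat_lit 784980)⟩, ⟨.ofNat (nat_lit 30000), .ofNat (nat_lit 188310), .ofNat (nat_lit 30000), .ofNat (nat_lit 200000), .ofNat (nat_lit 30000), .ofNat (nat_lit 192306), .ofNat (nat_lit 30000), .ofNat (nat_lit 200000)⟩⟩, [⟨nat_lit 22, nat_lit 89, nat_lit 100, nat_lit 65, nat_lit 77857559⟩]⟩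
noncomputable def p112_l105 : Lf2 := ⟨nat_lit 0, nat_lit 20, [nat_lit 5, nat_lit 5, nat_lit 5, nat_lit 20], false, nat_lit 80, nat_lit 160, nat_lit 0, nat_lit 364, ⟨nat_lit 292, nat_lit 708, nat_lit 0, nat_lit 6, nat_lit 270, nat_lit 708, nat_lit 105, nat_lit 0, nat_lit 0, nat_lit 0, nat_lit 0, nat_lit 0, nat_lit 42514852, nat_lit 19989713, nat_lit 4495435, nat_lit 4402791, true, true⟩,
 nat_lit 4895, nat_lit 0, nat_lit 0, nat_lit 0, nat_lit 4263, nat_lit 2591, nat_lit 49, nat_lit 0, nat_lit 0, nat_lit 268, nat_lit 0, nat_lit 0, nat_lit 0, nat_lit 0, nat_lit 0, nat_lit 283200, nat_lit 0, nat_lit 0, [(nat_lit 25, [(nat_lit 1, nat_lit 708)])],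
 ⟨p112_k0, nat_lit 0, nat_lit 0, nat_lit 216, nat_lit 0, nat_lit 337303, [nat_lit 872014401, nat_lit 1667854400, nat_lit 2472961600], [], [nat_lit 24181978498, nat_lit 25367532562, nat_lit 27003381486, nat_lit 28173087696, nat_lit 24385291610, nat_lit 25459912534, nat_lit 26936169282, nat_lit 27854574722], nat_lit 1271250, nat_lit 1271250, nat_lit 1271250, nat_lit 1271250, nat_lit 490000, nat_lit 1100001, [nat_lit 230000, nat_lit 780000, nat_lit 1435000], [nat_lit 20, nat_lit 40, nat_lit 40, nat_lit 80, nat_lit 16, nat_lit 249, nat_lit 40, nat_lit 8]⟩, ⟨p112_k1, nat_lit 0, nat_lit 0, nat_lit 607, nat_lit 0, nat_lit 640101, [nat_lit 1368896000, nat_lit 2326656000, nat_lit 4104936000], [], [nat_lit 10271110044, nat_lit 10396509204, nat_lit 10868044556, nat_lit 10951173596, nat_lit 9587645850, nat_lit 9409981928, nat_lit 9693142649, nat_lit 9729797714], nat_lit 1271250, nat_lit 1271250, nat_lit 1271250, nat_lit 1271250,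 nat_lit 0, nat_lit 2570750, [nat_lit 1100000, nat_lit 1785000, nat_lit 1271250], [nat_lit 37, nat_lit 40, nat_lit 40, nat_lit 80, nat_lit 28, nat_lit 483, nat_lit 250, nat_lit 11]⟩,
 ⟨nat_lit 2236, nat_lit 3163, ⟨.ofNat (nat_lit 605240), .ofNat (nat_lit 727168), .ofNat (nat_lit 627331), .ofNat (nat_lit 749323), .ofNat (nat_lit 602541), .ofNat (nat_lit 716594), .ofNat (nat_lit 625251), .ofNat (nat_lit 739368)⟩, ⟨.ofNat (nat_lit 184209), .ofNat (nat_lit 306116), .ofNat (nat_lit 200000), .ofNat (nat_lit 350426), .ofNat (nat_lit 192306), .ofNat (nat_lit 306337), .ofNat (nat_lit 200000), .ofNat (nat_lit 351886)⟩⟩, [⟨nat_lit 19, nat_lit 100, nat_lit 72, nat_lit 89, nat_lit 45409490⟩]⟩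
noncomputable def p112_l106 : Lf2 := ⟨nat_lit 0, nat_lit 20, [nat_lit 5, nat_lit 5, nat_lit 5, nat_lit 20], false, nat_lit 80, nat_lit 160, nat_lit 0, nat_lit 336, ⟨nat_lit 299, nat_lit 701, nat_lit 0, nat_lit 8, nat_lit 306, nat_lit 701, nat_lit 105, nat_lit 0, nat_lit 0, nat_lit 0, nat_lit 0, nat_lit 0, nat_lit 39234184, nat_lit 23488520, nat_lit 4277296, nat_lit 4531326, true, true⟩,
 nat_lit 4795, nat_lit 0, nat_lit 0, nat_lit 0, nat_lit 4176, nat_lit 2538, nat_lit 68, nat_lit 0, nat_lit 0, nat_lit 232, nat_lit 0, nat_lit 0, nat_lit 0, nat_lit 0, nat_lit 0, nat_lit 280400, nat_lit 0, nat_lit 0, [(nat_lit 25, [(nat_lit 1, nat_lit 701)])],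
 ⟨p112_k0, nat_lit 0, nat_lit 0, nat_lit 225, nat_lit 0, nat_lit 337303, [nat_lit 872666801, nat_lit 1683813467, nat_lit 2510305200], [], [nat_lit 26881043272, nat_lit 28038882192, nat_lit 29318901223, nat_lit 30663099649, nat_lit 26844690664, nat_lit 27759562544, nat_lit 28927323847, nat_lit 30152557949], nat_lit 1271250, nat_lit 1271250, nat_lit 1271250, nat_lit 1271250, nat_lit 490000, nat_lit 1100001, [nat_lit 230000, nat_lit 780000, nat_lit 1435000], [nat_lit 20, nat_lit 40, nat_lit 40, nat_lit 80, nat_lit 16, nat_lit 249, nat_lit 40, nat_lit 8]⟩, ⟨p112_k1, nat_lit 0, nat_lit 0, nat_lit 595, nat_lit 0, nat_lit 640101, [nat_lit 1401712000, nat_lit 2382432000, nat_lit 4203342000], [], [nat_lit 11764243600, nat_lit 11850944810, nat_lit 12263497391, nat_lit 12432300183, nat_lit 10062783287, nat_lit 10073527268, nat_lit 10503798329, nat_lit 10563152480], nat_lit 1271250, nat_lit 1271250, nat_lit 1271250, nat_lit 1271250,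 nat_lit 0, nat_lit 2373000, [nat_lit 1100000, nat_lit 1785000, nat_lit 1271250], [nat_lit 37, nat_lit 40, nat_lit 40, nat_lit 80, nat_lit 28, nat_lit 483, nat_lit 250, nat_lit 11]⟩,
 ⟨nat_lit 2236, nat_lit 3163, ⟨.ofNat (nat_lit 727168), .ofNat (nat_lit 794217), .ofNat (nat_lit 749323), .ofNat (nat_lit 816372), .ofNat (nat_lit 716594), .ofNat (nat_lit 779311), .ofNat (nat_lit 739368), .ofNat (nat_lit 802085)⟩, ⟨.ofNat (nat_lit 184209), .ofNat (nat_lit 306116), .ofNat (nat_lit 200000), .ofNat (nat_lit 350426), .ofNat (nat_lit 192306), .ofNat (nat_lit 306337), .ofNat (nat_lit 200000), .ofNat (nat_lit 351886)⟩⟩, [⟨nat_lit 13, nat_lit 44, nat_lit 81, nat_lit 100, nat_lit 396328337⟩, ⟨nat_lit 10, nat_lit 73, nat_lit 70, nat_lit 100, nat_lit 41177114⟩]⟩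
noncomputable def p112_l107 : Lf2 := ⟨nat_lit 0, nat_lit 20, [nat_lit 5, nat_lit 5, nat_lit 5, nat_lit 20], false, nat_lit 8, nat_lit 160, nat_lit 0, nat_lit 336, ⟨nat_lit 721, nat_lit 279, nat_lit 0, nat_lit 6, nat_lit 295, nat_lit 279, nat_lit 67, nat_lit 0, nat_lit 0, nat_lit 0, nat_lit 0, nat_lit 0, nat_lit 41699402, nat_lit 23015271, nat_lit 2285327, nat_lit 4053504, true, true⟩,
 nat_lit 9230, nat_lit 0, nat_lit 0, nat_lit 0, nat_lit 4616, nat_lit 5372, nat_lit 229, nat_lit 0, nat_lit 0, nat_lit 621, nat_lit 0, nat_lit 0, nat_lit 0, nat_lit 0, nat_lit 0, nat_lit 279000, nat_lit 0, nat_lit 0, [(nat_lit 25, [(nat_lit 2, nat_lit 279)])],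
 ⟨p112_k0, nat_lit 0, nat_lit 0, nat_lit 291, nat_lit 0, nat_lit 361556, [nat_lit 1085981600, nat_lit 2260041601, nat_lit 3418484800], [], [nat_lit 25909899348, nat_lit 27951653317, nat_lit 34396165782, nat_lit 35809846809, nat_lit 23564515252, nat_lit 24520774640, nat_lit 30236833562, nat_lit 31479354500], nat_lit 1271250, nat_lit 1271250, nat_lit 1271250, nat_lit 1271250, nat_lit 43600, nat_lit 1100001, [nat_lit 230000, nat_lit 780000, nat_lit 1435000], [nat_lit 20, nat_lit 40, nat_lit 40, nat_lit 80, nat_lit 16, nat_lit 249, nat_lit 40, nat_lit 8]⟩, ⟨p112_k18, nat_lit 0, nat_lit 0, nat_lit 525, nat_lit 0, nat_lit 600663, [nat_lit 3380048000, nat_lit 5744928000, nat_lit 8559712000], [], [nat_lit 24251526361, nat_lit 24625406727, nat_lit 27416361595, nat_lit 27614058741, nat_lit 22576029245, nat_lit 22793687769, nat_lit 24602593042, nat_lit 24694905498], nat_lit 1271250, nat_lit 1271250, nat_lit 1271250, nat_lit 1271250,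 nat_lit 0, nat_lit 2373000, [nat_lit 1100000, nat_lit 1785000, nat_lit 1271250], [nat_lit 21, nat_lit 40, nat_lit 40, nat_lit 80, nat_lit 14, nat_lit 483, nat_lit 250, nat_lit 12]⟩,
 ⟨nat_lit 2236, nat_lit 3163, ⟨.ofNat (nat_lit 627331), .ofNat (nat_lit 834658), .ofNat (nat_lit 649422), .ofNat (nat_lit 856813), .ofNat (nat_lit 625251), .ofNat (nat_lit 819190), .ofNat (nat_lit 647962), .ofNat (nat_lit 841964)⟩, ⟨.ofNat (nat_lit 20000), .ofNat (nat_lit 306116), .ofNat (nat_lit 20000), .ofNat (nat_lit 328271), .ofNat (nat_lit 20000), .ofNat (nat_lit 306337), .ofNat (nat_lit 20000), .ofNat (nat_lit 329112)⟩⟩, [⟨nat_lit 7, nat_lit 86, nat_lit 100, nat_lit 89, nat_lit 67209870⟩, ⟨nat_lit 22, nat_lit 91, nat_lit 100, nat_lit 88, nat_lit 41411395⟩]⟩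
noncomputable def p112_l108 : Lf2 := ⟨nat_lit 0, nat_lit 20, [nat_lit 5, nat_lit 5, nat_lit 5, nat_lit 20], false, nat_lit 16, nat_lit 160, nat_lit 0, nat_lit 352, ⟨nat_lit 662, nat_lit 338, nat_lit 0, nat_lit 6, nat_lit 295, nat_lit 338, nat_lit 76, nat_lit 0, nat_lit 0, nat_lit 0, nat_lit 0, nat_lit 0, nat_lit 41381902, nat_lit 22895825, nat_lit 2722273, nat_lit 4160162, true, true⟩,
 nat_lit 8334, nat_lit 0, nat_lit 0, nat_lit 0, nat_lit 4496, nat_lit 4851, nat_lit 141, nat_lit 0, nat_lit 0, nat_lit 561, nat_lit 0, nat_lit 0, nat_lit 0, nat_lit 0, nat_lit 0, nat_lit 338000, nat_lit 0, nat_lit 0, [(nat_lit 25, [(nat_lit 2, nat_lit 338)])],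
 ⟨p112_k0, nat_lit 0, nat_lit 0, nat_lit 257, nat_lit 0, nat_lit 310014, [nat_lit 1117275201, nat_lit 2043928534, nat_lit 2819705600], [], [nat_lit 25339532519, nat_lit 27339274282, nat_lit 33695154118, nat_lit 35084402904, nat_lit 23412452500, nat_lit 24425339840, nat_lit 30082437050, nat_lit 31308995156], nat_lit 1271250, nat_lit 1271250, nat_lit 1271250, nat_lit 1271250, nat_lit 88400, nat_lit 1100001, [nat_lit 230000, nat_lit 780000, nat_lit 1435000], [nat_lit 20, nat_lit 40, nat_lit 40, nat_lit 80, nat_lit 16, nat_lit 249, nat_lit 40, nat_lit 8]⟩, ⟨p112_k18, nat_lit 0, nat_lit 0, nat_lit 494, nat_lit 0, nat_lit 518347, [nat_lit 3103456000, nat_lit 5274816000, nat_lit 7859264000], [], [nat_lit 22533257367, nat_lit 22875746015, nat_lit 25424778557, nat_lit 25607439761, nat_lit 21392863412, nat_lit 21576658892, nat_lit 23136912256, nat_lit 23211371950], nat_lit 1271250, nat_lit 1271250, nat_lit 1271250, nat_lit 1271250,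 nat_lit 0, nat_lit 2486000, [nat_lit 1100000, nat_lit 1785000, nat_lit 1271250], [nat_lit 21, nat_lit 40, nat_lit 40, nat_lit 80, nat_lit 14, nat_lit 538, nat_lit 300, nat_lit 13]⟩,
 ⟨nat_lit 2236, nat_lit 3163, ⟨.ofNat (nat_lit 627331), .ofNat (nat_lit 834658), .ofNat (nat_lit 649422), .ofNat (nat_lit 856813), .ofNat (nat_lit 625251), .ofNat (nat_lit 819190), .ofNat (nat_lit 647962), .ofNat (nat_lit 841964)⟩, ⟨.ofNat (nat_lit 40000), .ofNat (nat_lit 328271), .ofNat (nat_lit 40000), .ofNat (nat_lit 350426), .ofNat (nat_lit 40000), .ofNat (nat_lit 329112), .ofNat (nat_lit 40000), .ofNat (nat_lit 351886)⟩⟩, [⟨nat_lit 19, nat_lit 100, nat_lit 78, nat_lit 95, nat_lit 58406836⟩, ⟨nat_lit 22, nat_lit 92, nat_lit 100, nat_lit 90, nat_lit 46393201⟩]⟩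
noncomputable def p112_l109 : Lf2 := ⟨nat_lit 0, nat_lit 20, [nat_lit 5, nat_lit 5, nat_lit 5, nat_lit 20], false, nat_lit 20, nat_lit 80, nat_lit 0, nat_lit 336, ⟨nat_lit 316, nat_lit 684, nat_lit 0, nat_lit 6, nat_lit 273, nat_lit 684, nat_lit 49, nat_lit 0, nat_lit 0, nat_lit 0, nat_lit 0, nat_lit 0, nat_lit 44502152, nat_lit 21018205, nat_lit 1479643, nat_lit 3719900, true, true⟩,
 nat_lit 5241, nat_lit 0, nat_lit 0, nat_lit 0, nat_lit 2609, nat_lit 2774, nat_lit 160, nat_lit 0, nat_lit 0, nat_lit 235, nat_lit 0, nat_lit 0, nat_lit 0, nat_lit 0, nat_lit 0, nat_lit 273600, nat_lit 0, nat_lit 0, [(nat_lit 28, [(nat_lit 1, nat_lit 684)])],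
 ⟨p112_k37, nat_lit 0, nat_lit 0, nat_lit 267, nat_lit 0, nat_lit 362454, [nat_lit 773566400, nat_lit 1259275201, nat_lit 2069392000], [], [nat_lit 24718649820, nat_lit 25210965976, nat_lit 28049596784, nat_lit 28491521771, nat_lit 24471703711, nat_lit 24941954650, nat_lit 27641642636, nat_lit 28065497499], nat_lit 1271250, nat_lit 1271250, nat_lit 1271250, nat_lit 1271250, nat_lit 111251, nat_lit 490000, [nat_lit 230000, nat_lit 780000, nat_lit 1435000], [nat_lit 20, nat_lit 40, nat_lit 40, nat_lit 80, nat_lit 16, nat_lit 226, nat_lit 20, nat_lit 7]⟩, ⟨p112_k1, nat_lit 0, nat_lit 0, nat_lit 645, nat_lit 0, nat_lit 749557, [nat_lit 1481408000, nat_lit 2517888000, nat_lit 4442328000], [], [nat_lit 12211637804, nat_lit 12288065740, nat_lit 12760376576, nat_lit 12803278092, nat_lit 10432803120, nat_lit 10433257989, nat_lit 10862281228, nat_lit 10938713231], nat_lit 1271250, nat_lit 1271250, nat_lit 1271250, nat_lit 1271250,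 nat_lit 0, nat_lit 2373000, [nat_lit 1100000, nat_lit 1785000, nat_lit 1271250], [nat_lit 37, nat_lit 40, nat_lit 40, nat_lit 80, nat_lit 28, nat_lit 483, nat_lit 250, nat_lit 11]⟩,
 ⟨nat_lit 1581, nat_lit 2237, ⟨.ofNat (nat_lit 602558), .ofNat (nat_lit 745101), .ofNat (nat_lit 625287), .ofNat (nat_lit 767876), .ofNat (nat_lit 601260), .ofNat (nat_lit 737854), .ofNat (nat_lit 624529), .ofNat (nat_lit 761169)⟩, ⟨.ofNat (nat_lit 50000), .ofNat (nat_lit 192306), .ofNat (nat_lit 50000), .ofNat (nat_lit 200000), .ofNat (nat_lit 50000), .ofNat (nat_lit 196201), .ofNat (nat_lit 50000), .ofNat (nat_lit 200000)⟩⟩, [⟨nat_lit 22, nat_lit 92, nat_lit 100, nat_lit 68, nat_lit 51445854⟩]⟩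
noncomputable def p112_l110 : Lf2 := ⟨nat_lit 0, nat_lit 20, [nat_lit 5, nat_lit 5, nat_lit 5, nat_lit 20], false, nat_lit 36, nat_lit 80, nat_lit 0, nat_lit 336, ⟨nat_lit 189, nat_lit 811, nat_lit 0, nat_lit 6, nat_lit 266, nat_lit 811, nat_lit 58, nat_lit 0, nat_lit 0, nat_lit 0, nat_lit 0, nat_lit 0, nat_lit 44932867, nat_lit 20183516, nat_lit 1883617, nat_lit 3791928, true, true⟩,
 nat_lit 3209, nat_lit 0, nat_lit 0, nat_lit 0, nat_lit 3102, nat_lit 1698, nat_lit 9, nat_lit 0, nat_lit 0, nat_lit 151, nat_lit 0, nat_lit 0, nat_lit 0, nat_lit 0, nat_lit 0, nat_lit 202750, nat_lit 0, nat_lit 0, [(nat_lit 28, [(nat_lit 0, nat_lit 811)])],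
 ⟨p112_k39, nat_lit 0, nat_lit 0, nat_lit 246, nat_lit 0, nat_lit 399278, [nat_lit 811159601, nat_lit 1468604001, nat_lit 2002292400], [], [nat_lit 25788870133, nat_lit 26341316424, nat_lit 28435358277, nat_lit 28936362705, nat_lit 25442900631, nat_lit 25975982457, nat_lit 28014113619, nat_lit 28474445969], nat_lit 1271250, nat_lit 1271250, nat_lit 1271250, nat_lit 1271250, nat_lit 205650, nat_lit 490000, [nat_lit 230000, nat_lit 780000, nat_lit 1100000], [nat_lit 35, nat_lit 40, nat_lit 40, nat_lit 80, nat_lit 22, nat_lit 226, nat_lit 20, nat_lit 9]⟩, ⟨p112_k1, nat_lit 0, nat_lit 0, nat_lit 728, nat_lit 0, nat_lit 860623, [nat_lit 886032000, nat_lit 1505952000, nat_lit 2656962000], [], [nat_lit 7081162180, nat_lit 7126241380, nat_lit 7313893360, nat_lit 7338454798, nat_lit 6051067028, nat_lit 6075085501, nat_lit 6226505421, nat_lit 6279519216], nat_lit 1271250, nat_lit 1271250, nat_lit 1271250, nat_lit 1271250, nat_lit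 0, nat_lit 2373000, [nat_lit 1100000, nat_lit 1785000, nat_lit 1271250], [nat_lit 37, nat_lit 40, nat_lit 40, nat_lit 80, nat_lit 28, nat_lit 483, nat_lit 250, nat_lit 11]⟩,
 ⟨nat_lit 0, nat_lit 1582, ⟨.ofNat (nat_lit 601257), .ofNat (nat_lit 710533), .ofNat (nat_lit 623921), .ofNat (nat_lit 733849), .ofNat (nat_lit 599992), .ofNat (nat_lit 699996), .ofNat (nat_lit 624340), .ofNat (nat_lit 724997)⟩, ⟨.ofNat (nat_lit 90000), .ofNat (nat_lit 196201), .ofNat (nat_lit 90000), .ofNat (nat_lit 200000), .ofNat (nat_lit 90000), .ofNat (nat_lit 199999), .ofNat (nat_lit 90000), .ofNat (nat_lit 200000)⟩⟩, [⟨nat_lit 13, nat_lit 23, nat_lit 92, nat_lit 100, nat_lit 190727297⟩, ⟨nat_lit 3, nat_lit 100, nat_lit 26, nat_lit 85, nat_lit 293109398⟩, ⟨nat_lit 22, nat_lit 98, nat_lit 100, nat_lit 76, nat_lit 27044025⟩]⟩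
noncomputable def p112_l111 : Lf2 := ⟨nat_lit 0, nat_lit 20, [nat_lit 5, nat_lit 5, nat_lit 5, nat_lit 20], false, nat_lit 20, nat_lit 80, nat_lit 0, nat_lit 336, ⟨nat_lit 437, nat_lit 563, nat_lit 0, nat_lit 6, nat_lit 285, nat_lit 563, nat_lit 50, nat_lit 0, nat_lit 0, nat_lit 0, nat_lit 0, nat_lit 0, nat_lit 43364068, nat_lit 22167876, nat_lit 1468056, nat_lit 3778180, true, true⟩,
 nat_lit 5985, nat_lit 0, nat_lit 0, nat_lit 0, nat_lit 3252, nat_lit 3483, nat_lit 187, nat_lit 0, nat_lit 0, nat_lit 349, nat_lit 0, nat_lit 0, nat_lit 0, nat_lit 0, nat_lit 0, nat_lit 225200, nat_lit 0, nat_lit 0, [(nat_lit 28, [(nat_lit 1, nat_lit 563)])],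
 ⟨p112_k37, nat_lit 0, nat_lit 0, nat_lit 312, nat_lit 0, nat_lit 446464, [nat_lit 802654800, nat_lit 1617096401, nat_lit 2808944000], [], [nat_lit 24703326174, nat_lit 26370940576, nat_lit 30131100610, nat_lit 31405235204, nat_lit 23621421247, nat_lit 24622211391, nat_lit 28317331172, nat_lit 29552504304], nat_lit 1271250, nat_lit 1271250, nat_lit 1271250, nat_lit 1271250, nat_lit 111251, nat_lit 490000, [nat_lit 230000, nat_lit 780000, nat_lit 1435000], [nat_lit 20, nat_lit 40, nat_lit 40, nat_lit 80, nat_lit 16, nat_lit 226, nat_lit 20, nat_lit 7]⟩, ⟨p112_k18, nat_lit 0, nat_lit 0, nat_lit 622, nat_lit 0, nat_lit 813484, [nat_lit 2048656000, nat_lit 3482016000, nat_lit 5188064000], [], [nat_lit 15244613571, nat_lit 15385849903, nat_lit 16244710208, nat_lit 16356170788, nat_lit 13616074784, nat_lit 13682737542, nat_lit 14307549298, nat_lit 14444700581], nat_lit 1271250, nat_lit 1271250, nat_lit 1271250, nat_lit 1271250,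 nat_lit 0, nat_lit 2373000, [nat_lit 1100000, nat_lit 1785000, nat_lit 1271250], [nat_lit 21, nat_lit 40, nat_lit 40, nat_lit 80, nat_lit 14, nat_lit 483, nat_lit 250, nat_lit 12]⟩,
 ⟨nat_lit 0, nat_lit 2237, ⟨.ofNat (nat_lit 624400), .ofNat (nat_lit 784976), .ofNat (nat_lit 646249), .ofNat (nat_lit 807752), .ofNat (nat_lit 624062), .ofNat (nat_lit 764995), .ofNat (nat_lit 648136), .ofNat (nat_lit 789996)⟩, ⟨.ofNat (nat_lit 50000), .ofNat (nat_lit 192306), .ofNat (nat_lit 50000), .ofNat (nat_lit 200000), .ofNat (nat_lit 50000), .ofNat (nat_lit 199999), .ofNat (nat_lit 50000), .ofNat (nat_lit 200000)⟩⟩, [⟨nat_lit 3, nat_lit 100, nat_lit 36, nat_lit 77, nat_lit 205118074⟩, ⟨nat_lit 22, nat_lit 90, nat_lit 100, nat_lit 68, nat_lit 88947454⟩]⟩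
noncomputable def p112_l112 : Lf2 := ⟨nat_lit 0, nat_lit 20, [nat_lit 5, nat_lit 5, nat_lit 5, nat_lit 20], false, nat_lit 80, nat_lit 160, nat_lit 0, nat_lit 364, ⟨nat_lit 185, nat_lit 815, nat_lit 0, nat_lit 6, nat_lit 273, nat_lit 815, nat_lit 105, nat_lit 0, nat_lit 0, nat_lit 0, nat_lit 0, nat_lit 0, nat_lit 42150983, nat_lit 20333364, nat_lit 4515653, nat_lit 4426713, true, true⟩,
 nat_lit 3126, nat_lit 0, nat_lit 0, nat_lit 0, nat_lit 2921, nat_lit 1654, nat_lit 49, nat_lit 0, nat_lit 0, nat_lit 144, nat_lit 0, nat_lit 0, nat_lit 0, nat_lit 0, nat_lit 0, nat_lit 326000, nat_lit 0, nat_lit 0, [(nat_lit 28, [(nat_lit 1, nat_lit 815)])],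
 ⟨p112_k37, nat_lit 0, nat_lit 0, nat_lit 229, nat_lit 0, nat_lit 362454, [nat_lit 742074001, nat_lit 871882001, nat_lit 1268720000], [], [nat_lit 23647500039, nat_lit 24152177409, nat_lit 27137336796, nat_lit 27733094035, nat_lit 24363974161, nat_lit 24825102486, nat_lit 27469457878, nat_lit 27884979994], nat_lit 1271250, nat_lit 1271250, nat_lit 1271250, nat_lit 1271250, nat_lit 490000, nat_lit 1100001, [nat_lit 230000, nat_lit 780000, nat_lit 1435000], [nat_lit 20, nat_lit 40, nat_lit 40, nat_lit 80, nat_lit 16, nat_lit 249, nat_lit 40, nat_lit 8]⟩, ⟨p112_k1, nat_lit 0, nat_lit 0, nat_lit 645, nat_lit 0, nat_lit 749557, [nat_lit 867280000, nat_lit 1474080000, nat_lit 2600730000], [], [nat_lit 6993834488, nat_lit 7038090840, nat_lit 7338252054, nat_lit 7459969528, nat_lit 6097055990, nat_lit 6113456693, nat_lit 6501967484, nat_lit 6535039885], nat_lit 1271250, nat_lit 1271250, nat_lit 1271250, nat_lit 1271250, nat_lit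 0, nat_lit 2570750, [nat_lit 1100000, nat_lit 1785000, nat_lit 1271250], [nat_lit 37, nat_lit 40, nat_lit 40, nat_lit 80, nat_lit 28, nat_lit 483, nat_lit 250, nat_lit 11]⟩,
 ⟨nat_lit 1581, nat_lit 2237, ⟨.ofNat (nat_lit 602558), .ofNat (nat_lit 745101), .ofNat (nat_lit 625287), .ofNat (nat_lit 767876), .ofNat (nat_lit 601260), .ofNat (nat_lit 737854), .ofNat (nat_lit 624529), .ofNat (nat_lit 761169)⟩, ⟨.ofNat (nat_lit 192306), .ofNat (nat_lit 306337), .ofNat (nat_lit 200000), .ofNat (nat_lit 351886), .ofNat (nat_lit 196201), .ofNat (nat_lit 305473), .ofNat (nat_lit 200000), .ofNat (nat_lit 352103)⟩⟩, [⟨nat_lit 13, nat_lit 32, nat_lit 89, nat_lit 100, nat_lit 239440074⟩, ⟨nat_lit 4, nat_lit 100, nat_lit 38, nat_lit 87, nat_lit 5545433⟩, ⟨nat_lit 19, nat_lit 100, nat_lit 72, nat_lit 89, nat_lit 26417856⟩]⟩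
noncomputable def p112_l113 : Lf2 := ⟨nat_lit 0, nat_lit 20, [nat_lit 5, nat_lit 5, nat_lit 5, nat_lit 20], false, nat_lit 80, nat_lit 160, nat_lit 0, nat_lit 364, ⟨nat_lit 194, nat_lit 806, nat_lit 0, nat_lit 6, nat_lit 266, nat_lit 806, nat_lit 105, nat_lit 0, nat_lit 0, nat_lit 0, nat_lit 0, nat_lit 0, nat_lit 42823321, nat_lit 19621394, nat_lit 4555285, nat_lit 4392690, true, true⟩,
 nat_lit 3385, nat_lit 0, nat_lit 0, nat_lit 0, nat_lit 3272, nat_lit 1791, nat_lit 34, nat_lit 0, nat_lit 0, nat_lit 172, nat_lit 0, nat_lit 0, nat_lit 0, nat_lit 0, nat_lit 0, nat_lit 201500, nat_lit 0, nat_lit 0, [(nat_lit 28, [(nat_lit 0, nat_lit 806)])],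
 ⟨p112_k39, nat_lit 0, nat_lit 0, nat_lit 211, nat_lit 0, nat_lit 399278, [nat_lit 811941600, nat_lit 1479784000, nat_lit 2018850400], [], [nat_lit 24350003190, nat_lit 24910939110, nat_lit 27316853688, nat_lit 27989328352, nat_lit 24990522246, nat_lit 25500981030, nat_lit 27465666822, nat_lit 27998346368], nat_lit 1271250, nat_lit 1271250, nat_lit 1271250, nat_lit 1271250, nat_lit 490000, nat_lit 1100001, [nat_lit 230000, nat_lit 780000, nat_lit 1100000], [nat_lit 35, nat_lit 40, nat_lit 40, nat_lit 80, nat_lit 22, nat_lit 249, nat_lit 40, nat_lit 10]⟩, ⟨p112_k1, nat_lit 0, nat_lit 0, nat_lit 728, nat_lit 0, nat_lit 860623, [nat_lit 909472000, nat_lit 1545792000, nat_lit 2727252000], [], [nat_lit 6952311736, nat_lit 6997801160, nat_lit 7247011000, nat_lit 7390452258, nat_lit 6292283154, nat_lit 6172986749, nat_lit 6448811103, nat_lit 6489904713], nat_lit 1271250, nat_lit 1271250, nat_lit 1271250, nat_lit 1271250, nat_lit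 0, nat_lit 2570750, [nat_lit 1100000, nat_lit 1785000, nat_lit 1271250], [nat_lit 37, nat_lit 40, nat_lit 40, nat_lit 80, nat_lit 28, nat_lit 483, nat_lit 250, nat_lit 11]⟩,
 ⟨nat_lit 0, nat_lit 1582, ⟨.ofNat (nat_lit 601257), .ofNat (nat_lit 710533), .ofNat (nat_lit 623921), .ofNat (nat_lit 733849), .ofNat (nat_lit 599992), .ofNat (nat_lit 699996), .ofNat (nat_lit 624340), .ofNat (nat_lit 724997)⟩, ⟨.ofNat (nat_lit 196201), .ofNat (nat_lit 305469), .ofNat (nat_lit 200000), .ofNat (nat_lit 352101), .ofNat (nat_lit 199999), .ofNat (nat_lit 299995), .ofNat (nat_lit 200000), .ofNat (nat_lit 349997)⟩⟩, [⟨nat_lit 13, nat_lit 23, nat_lit 92, nat_lit 100, nat_lit 278391467⟩, ⟨nat_lit 4, nat_lit 100, nat_lit 23, nat_lit 91, nat_lit 128745929⟩, ⟨nat_lit 22, nat_lit 100, nat_lit 80, nat_lit 100, nat_lit 25611041⟩]⟩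
noncomputable def p112_l114 : Lf2 := ⟨nat_lit 0, nat_lit 20, [nat_lit 5, nat_lit 5, nat_lit 5, nat_lit 20], false, nat_lit 80, nat_lit 160, nat_lit 0, nat_lit 352, ⟨nat_lit 451, nat_lit 549, nat_lit 0, nat_lit 6, nat_lit 286, nat_lit 549, nat_lit 105, nat_lit 0, nat_lit 0, nat_lit 0, nat_lit 0, nat_lit 0, nat_lit 41014522, nat_lit 21543484, nat_lit 4441994, nat_lit 4476758, true, true⟩,
 nat_lit 5895, nat_lit 0, nat_lit 0, nat_lit 0, nat_lit 3278, nat_lit 3431, nat_lit 140, nat_lit 0, nat_lit 0, nat_lit 366, nat_lit 0, nat_lit 0, nat_lit 0, nat_lit 0, nat_lit 0, nat_lit 219600, nat_lit 0, nat_lit 0, [(nat_lit 28, [(nat_lit 1, nat_lit 549)])],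
 ⟨p112_k37, nat_lit 0, nat_lit 0, nat_lit 240, nat_lit 0, nat_lit 395949, [nat_lit 806020400, nat_lit 1658497201, nat_lit 2894512000], [], [nat_lit 23940386713, nat_lit 24569198016, nat_lit 28362799597, nat_lit 28982589227, nat_lit 24559286309, nat_lit 25042307659, nat_lit 28446553326, nat_lit 28914423345], nat_lit 1271250, nat_lit 1271250, nat_lit 1271250, nat_lit 1271250, nat_lit 490000, nat_lit 1100001, [nat_lit 230000, nat_lit 780000, nat_lit 1435000], [nat_lit 20, nat_lit 40, nat_lit 40, nat_lit 80, nat_lit 16, nat_lit 249, nat_lit 40, nat_lit 8]⟩, ⟨p112_k18, nat_lit 0, nat_lit 0, nat_lit 571, nat_lit 0, nat_lit 721442, [nat_lit 2114288000, nat_lit 3593568000, nat_lit 5354272000], [], [nat_lit 15283967416, nat_lit 15518529174, nat_lit 16830610811, nat_lit 16973654424, nat_lit 14268075992, nat_lit 14391406898, nat_lit 15166442557, nat_lit 15227360510], nat_lit 1271250, nat_lit 1271250, nat_lit 1271250, nat_lit 1271250,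 nat_lit 0, nat_lit 2486000, [nat_lit 1100000, nat_lit 1785000, nat_lit 1271250], [nat_lit 21, nat_lit 40, nat_lit 40, nat_lit 80, nat_lit 14, nat_lit 483, nat_lit 250, nat_lit 12]⟩,
 ⟨nat_lit 1581, nat_lit 2237, ⟨.ofNat (nat_lit 625287), .ofNat (nat_lit 784980), .ofNat (nat_lit 648016), .ofNat (nat_lit 807755), .ofNat (nat_lit 624529), .ofNat (nat_lit 777560), .ofNat (nat_lit 647799), .ofNat (nat_lit 800875)⟩, ⟨.ofNat (nat_lit 192306), .ofNat (nat_lit 306337), .ofNat (nat_lit 200000), .ofNat (nat_lit 351886), .ofNat (nat_lit 196201), .ofNat (nat_lit 305473), .ofNat (nat_lit 200000), .ofNat (nat_lit 352103)⟩⟩, [⟨nat_lit 4, nat_lit 100, nat_lit 38, nat_lit 87, nat_lit 176813672⟩, ⟨nat_lit 7, nat_lit 82, nat_lit 100, nat_lit 92, nat_lit 67812286⟩]⟩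
noncomputable def p112_l115 : Lf2 := ⟨nat_lit 0, nat_lit 20, [nat_lit 5, nat_lit 5, nat_lit 5, nat_lit 20], false, nat_lit 80, nat_lit 160, nat_lit 0, nat_lit 352, ⟨nat_lit 266, nat_lit 734, nat_lit 0, nat_lit 6, nat_lit 280, nat_lit 734, nat_lit 105, nat_lit 0, nat_lit 0, nat_lit 0, nat_lit 0, nat_lit 0, nat_lit 41572880, nat_lit 20950148, nat_lit 4476972, nat_lit 4453007, true, true⟩,
 nat_lit 3674, nat_lit 0, nat_lit 0, nat_lit 0, nat_lit 3552, nat_lit 2138, nat_lit 12, nat_lit 0, nat_lit 0, nat_lit 209, nat_lit 0, nat_lit 0, nat_lit 0, nat_lit 0, nat_lit 0, nat_lit 183500, nat_lit 0, nat_lit 0, [(nat_lit 28, [(nat_lit 0, nat_lit 734)])],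
 ⟨p112_k39, nat_lit 0, nat_lit 0, nat_lit 223, nat_lit 0, nat_lit 428352, [nat_lit 823202401, nat_lit 1640776000, nat_lit 2257285600], [], [nat_lit 24638156588, nat_lit 25343385284, nat_lit 28630381093, nat_lit 29301626369, nat_lit 25153385969, nat_lit 25668455017, nat_lit 28577643708, nat_lit 29109802701], nat_lit 1271250, nat_lit 1271250, nat_lit 1271250, nat_lit 1271250, nat_lit 490000, nat_lit 1100001, [nat_lit 230000, nat_lit 780000, nat_lit 1100000], [nat_lit 35, nat_lit 40, nat_lit 40, nat_lit 80, nat_lit 22, nat_lit 249, nat_lit 40, nat_lit 10]⟩, ⟨p112_k18, nat_lit 0, nat_lit 0, nat_lit 622, nat_lit 0, nat_lit 813484, [nat_lit 1247008000, nat_lit 2119488000, nat_lit 3157952000], [], [nat_lit 9268129899, nat_lit 9353935291, nat_lit 9763525414, nat_lit 9814020564, nat_lit 8341497734, nat_lit 8376124761, nat_lit 8741310003, nat_lit 8824422902], nat_lit 1271250, nat_lit 1271250, nat_lit 1271250, nat_lit 1271250, nat_lit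 0, nat_lit 2486000, [nat_lit 1100000, nat_lit 1785000, nat_lit 1271250], [nat_lit 21, nat_lit 40, nat_lit 40, nat_lit 80, nat_lit 14, nat_lit 483, nat_lit 250, nat_lit 12]⟩,
 ⟨nat_lit 0, nat_lit 1582, ⟨.ofNat (nat_lit 623921), .ofNat (nat_lit 755702), .ofNat (nat_lit 646579), .ofNat (nat_lit 779018), .ofNat (nat_lit 624340), .ofNat (nat_lit 744996), .ofNat (nat_lit 648683), .ofNat (nat_lit 769997)⟩, ⟨.ofNat (nat_lit 196201), .ofNat (nat_lit 305469), .ofNat (nat_lit 200000), .ofNat (nat_lit 352101), .ofNat (nat_lit 199999), .ofNat (nat_lit 299995), .ofNat (nat_lit 200000), .ofNat (nat_lit 349997)⟩⟩, [⟨nat_lit 13, nat_lit 24, nat_lit 89, nat_lit 100, nat_lit 156349005⟩, ⟨nat_lit 4, nat_lit 100, nat_lit 23, nat_lit 91, nat_lit 183191022⟩, ⟨nat_lit 22, nat_lit 98, nat_lit 83, nat_lit 100, nat_lit 38203955⟩]⟩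
noncomputable def b_V_900_600_20_23 : St := ⟨true, nat_lit 1, nat_lit 1, nat_lit 1, nat_lit 120, nat_lit 360, nat_lit 400, nat_lit 240, nat_lit 280, nat_lit 240, nat_lit 376, nat_lit 80, nat_lit 120, nat_lit 8, nat_lit 160, nat_lit 0, nat_lit 364, nat_lit 40, nat_lit 80, nat_lit 0, nat_lit 0, nat_lit 0, nat_lit 0⟩
theorem d_V_900_600_20_23 (h : EB TB.env) : Dead b_V_900_600_20_23 := chkB_sound0 h (T :=
(.spl (nat_lit 0) (nat_lit 380)
(.spl (nat_lit 1) (nat_lit 260)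
(.trX (nat_lit 13) (nat_lit 63) (nat_lit 61) (nat_lit 100) (nat_lit 364) (.spl (nat_lit 4) (nat_lit 80)
(.trX (nat_lit 22) (nat_lit 100) (nat_lit 76) (nat_lit 82) (nat_lit 336) (.spl (nat_lit 0) (nat_lit 370)
(.leaf p112_l103)
(.trX (nat_lit 13) (nat_lit 55) (nat_lit 68) (nat_lit 100) (nat_lit 352) (.trZ (nat_lit 3) (nat_lit 100) (nat_lit 66) (nat_lit 45) (nat_lit 12) (.leaf p112_l104)))))
(.spl (nat_lit 2) (nat_lit 320)
(.leaf p112_l105)
(.trX (nat_lit 22) (nat_lit 82) (nat_lit 76) (nat_lit 100) (nat_lit 336) (.leaf p112_l106)))))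
(.trX (nat_lit 19) (nat_lit 100) (nat_lit 69) (nat_lit 96) (nat_lit 352) (.spl (nat_lit 3) (nat_lit 100)
(.trX (nat_lit 19) (nat_lit 100) (nat_lit 77) (nat_lit 91) (nat_lit 336) (.leaf p112_l107))
(.trZ (nat_lit 3) (nat_lit 100) (nat_lit 69) (nat_lit 45) (nat_lit 16) (.leaf p112_l108)))))
(.trX (nat_lit 13) (nat_lit 48) (nat_lit 71) (nat_lit 100) (nat_lit 352) (.trZ (nat_lit 3) (nat_lit 100) (nat_lit 54) (nat_lit 57) (nat_lit 20) (.spl (nat_lit 4) (nat_lit 80)
(.trX (nat_lit 22) (nat_lit 100) (nat_lit 76) (nat_lit 82) (nat_lit 336) (.spl (nat_lit 1) (nat_lit 260)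
(.trX (nat_lit 13) (nat_lit 46) (nat_lit 76) (nat_lit 100) (nat_lit 340) (.spl (nat_lit 0) (nat_lit 390)
(.leaf p112_l109)
(.trX (nat_lit 13) (nat_lit 33) (nat_lit 85) (nat_lit 100) (nat_lit 320) (.trZ (nat_lit 3) (nat_lit 100) (nat_lit 39) (nat_lit 72) (nat_lit 36) (.leaf p112_l110)))))
(.leaf p112_l111)))
(.spl (nat_lit 1) (nat_lit 260)
(.trX (nat_lit 13) (nat_lit 46) (nat_lit 76) (nat_lit 100) (nat_lit 340) (.spl (nat_lit 0) (nat_lit 390)
(.leaf p112_l112)
(.trX (nat_lit 13) (nat_lit 33) (nat_lit 85) (nat_lit 100) (nat_lit 320) (.leaf p112_l113))))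
(.trX (nat_lit 19) (nat_lit 100) (nat_lit 69) (nat_lit 96) (nat_lit 352) (.spl (nat_lit 0) (nat_lit 390)
(.leaf p112_l114)
(.trX (nat_lit 13) (nat_lit 34) (nat_lit 81) (nat_lit 100) (nat_lit 336) (.leaf p112_l115)))))))))) (by decide +kernel)
noncomputable def p112_l116 : Lf2 := ⟨nat_lit 0, nat_lit 20, [nat_lit 5, nat_lit 5, nat_lit 5, nat_lit 20], false, nat_lit 160, nat_lit 248, nat_lit 0, nat_lit 364, ⟨nat_lit 346, nat_lit 654, nat_lit 0, nat_lit 6, nat_lit 270, nat_lit 654, nat_lit 158, nat_lit 0, nat_lit 0, nat_lit 0, nat_lit 0, nat_lit 0, nat_lit 39709293, nat_lit 19170089, nat_lit 8120618, nat_lit 4958965, true, true⟩,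
 nat_lit 5844, nat_lit 0, nat_lit 0, nat_lit 0, nat_lit 4135, nat_lit 3093, nat_lit 61, nat_lit 0, nat_lit 0, nat_lit 322, nat_lit 0, nat_lit 0, nat_lit 0, nat_lit 0, nat_lit 0, nat_lit 261600, nat_lit 0, nat_lit 0, [(nat_lit 25, [(nat_lit 1, nat_lit 654)])],
 ⟨p112_k0, nat_lit 0, nat_lit 0, nat_lit 149, nat_lit 0, nat_lit 280635, [nat_lit 877047201, nat_lit 1790967200, nat_lit 2761040800], [], [nat_lit 23617259805, nat_lit 24276257025, nat_lit 26752041025, nat_lit 27308386395, nat_lit 25611312600, nat_lit 26179777232, nat_lit 28274449407, nat_lit 28757679927], nat_lit 1271250, nat_lit 1271250, nat_lit 1271250, nat_lit 1271250, nat_lit 1100001, nat_lit 1853500, [nat_lit 230000, nat_lit 780000, nat_lit 1435000], [nat_lit 20, nat_lit 40, nat_lit 40, nat_lit 80, nat_lit 16, nat_lit 289, nat_lit 75, nat_lit 9]⟩, ⟨p112_k1, nat_lit 0, nat_lit 0, nat_lit 569, nat_lit 0, nat_lit 532562, [nat_lit 1622048000, nat_lit 2756928000,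 nat_lit 4864068000], [], [nat_lit 12083405932, nat_lit 12231992972, nat_lit 12791502508, nat_lit 12941723726, nat_lit 11335231997, nat_lit 11080712625, nat_lit 11415722788, nat_lit 11469045814], nat_lit 1271250, nat_lit 1271250, nat_lit 1271250, nat_lit 1271250, nat_lit 0, nat_lit 2570750, [nat_lit 1100000, nat_lit 1785000, nat_lit 1271250], [nat_lit 37, nat_lit 40, nat_lit 40, nat_lit 80, nat_lit 28, nat_lit 483, nat_lit 250, nat_lit 11]⟩,
 ⟨nat_lit 2738, nat_lit 3163, ⟨.ofNat (nat_lit 605257), .ofNat (nat_lit 727168), .ofNat (nat_lit 627400), .ofNat (nat_lit 749323), .ofNat (nat_lit 603890), .ofNat (nat_lit 722017), .ofNat (nat_lit 626295), .ofNat (nat_lit 744435)⟩, ⟨.ofNat (nat_lit 306116), .ofNat (nat_lit 440213), .ofNat (nat_lit 350426), .ofNat (nat_lit 484523), .ofNat (nat_lit 306433), .ofNat (nat_lit 436368), .ofNat (nat_lit 351268), .ofNat (nat_lit 481203)⟩⟩, [⟨nat_lit 4, nat_lit 100, nat_lit 57, nat_lit 87, nat_lit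 325375898⟩, ⟨nat_lit 19, nat_lit 100, nat_lit 72, nat_lit 89, nat_lit 53597075⟩]⟩
noncomputable def p112_l117 : Lf2 := ⟨nat_lit 0, nat_lit 20, [nat_lit 5, nat_lit 5, nat_lit 5, nat_lit 20], false, nat_lit 160, nat_lit 232, nat_lit 0, nat_lit 364, ⟨nat_lit 342, nat_lit 658, nat_lit 0, nat_lit 6, nat_lit 269, nat_lit 658, nat_lit 152, nat_lit 0, nat_lit 0, nat_lit 0, nat_lit 0, nat_lit 0, nat_lit 40100457, nat_lit 19151986, nat_lit 7747557, nat_lit 4905166, true, true⟩,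
 nat_lit 5776, nat_lit 0, nat_lit 0, nat_lit 0, nat_lit 3488, nat_lit 3057, nat_lit 223, nat_lit 0, nat_lit 0, nat_lit 319, nat_lit 0, nat_lit 0, nat_lit 0, nat_lit 0, nat_lit 0, nat_lit 164500, nat_lit 0, nat_lit 0, [(nat_lit 25, [(nat_lit 0, nat_lit 658)])],
 ⟨p112_k3, nat_lit 0, nat_lit 0, nat_lit 168, nat_lit 0, nat_lit 322942, [nat_lit 823508000, nat_lit 2023114400, nat_lit 3531144000], [], [nat_lit 23988885094, nat_lit 24536685414, nat_lit 26672374636, nat_lit 27188307092, nat_lit 25401074475, nat_lit 25891831715, nat_lit 27853962533, nat_lit 28321438097], nat_lit 1271250, nat_lit 1271250, nat_lit 1271250, nat_lit 1271250, nat_lit 1100001, nat_lit 1716500, [nat_lit 230000, nat_lit 780000, nat_lit 1435000], [nat_lit 20, nat_lit 40, nat_lit 40, nat_lit 80, nat_lit 16, nat_lit 272, nat_lit 60, nat_lit 9]⟩, ⟨p112_k1, nat_lit 0, nat_lit 0, nat_lit 607, nat_lit 0, nat_lit 640101, [nat_lit 1603296000, nat_lit 2725056000,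 nat_lit 4807836000], [], [nat_lit 11936952160, nat_lit 12083821456, nat_lit 12636854464, nat_lit 12784683418, nat_lit 11204459570, nat_lit 10953350258, nat_lit 11284492955, nat_lit 11336236932], nat_lit 1271250, nat_lit 1271250, nat_lit 1271250, nat_lit 1271250, nat_lit 0, nat_lit 2570750, [nat_lit 1100000, nat_lit 1785000, nat_lit 1271250], [nat_lit 37, nat_lit 40, nat_lit 40, nat_lit 80, nat_lit 28, nat_lit 483, nat_lit 250, nat_lit 11]⟩,
 ⟨nat_lit 2236, nat_lit 2739, ⟨.ofNat (nat_lit 603890), .ofNat (nat_lit 722017), .ofNat (nat_lit 626287), .ofNat (nat_lit 744435), .ofNat (nat_lit 602558), .ofNat (nat_lit 716594), .ofNat (nat_lit 625312), .ofNat (nat_lit 739368)⟩, ⟨.ofNat (nat_lit 306433), .ofNat (nat_lit 412743), .ofNat (nat_lit 351268), .ofNat (nat_lit 457578), .ofNat (nat_lit 306337), .ofNat (nat_lit 408965), .ofNat (nat_lit 351886), .ofNat (nat_lit 454514)⟩⟩, [⟨nat_lit 4, nat_lit 100, nat_lit 48, nat_lit 87, nat_lit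 381378243⟩, ⟨nat_lit 7, nat_lit 72, nat_lit 100, nat_lit 89, nat_lit 52978126⟩]⟩
noncomputable def p112_l118 : Lf2 := ⟨nat_lit 0, nat_lit 20, [nat_lit 5, nat_lit 5, nat_lit 5, nat_lit 20], false, nat_lit 160, nat_lit 208, nat_lit 0, nat_lit 364, ⟨nat_lit 248, nat_lit 752, nat_lit 0, nat_lit 6, nat_lit 268, nat_lit 752, nat_lit 145, nat_lit 0, nat_lit 0, nat_lit 0, nat_lit 0, nat_lit 0, nat_lit 40613787, nat_lit 19162695, nat_lit 7223518, nat_lit 4828420, true, true⟩,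
 nat_lit 4232, nat_lit 0, nat_lit 0, nat_lit 0, nat_lit 3059, nat_lit 2240, nat_lit 176, nat_lit 0, nat_lit 0, nat_lit 228, nat_lit 0, nat_lit 0, nat_lit 0, nat_lit 0, nat_lit 0, nat_lit 188000, nat_lit 0, nat_lit 0, [(nat_lit 28, [(nat_lit 0, nat_lit 752)])],
 ⟨p112_k37, nat_lit 0, nat_lit 0, nat_lit 201, nat_lit 0, nat_lit 362454, [nat_lit 820387201, nat_lit 1628803200, nat_lit 2823594667], [], [nat_lit 24328672012, nat_lit 24810360943, nat_lit 26772580165, nat_lit 27222008164, nat_lit 25227372912, nat_lit 25677673247, nat_lit 27556929293, nat_lit 27999342429], nat_lit 1271250, nat_lit 1271250, nat_lit 1271250, nat_lit 1271250, nat_lit 1100001, nat_lit 1511000, [nat_lit 230000, nat_lit 780000, nat_lit 1435000], [nat_lit 20, nat_lit 40, nat_lit 40, nat_lit 80, nat_lit 16, nat_lit 272, nat_lit 60, nat_lit 8]⟩, ⟨p112_k1, nat_lit 0, nat_lit 0, nat_lit 645, nat_lit 0, nat_lit 749557, [nat_lit 1162624000, nat_lit 1976064000,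 nat_lit 3486384000], [], [nat_lit 8957100688, nat_lit 9016058000, nat_lit 9359512416, nat_lit 9437245456, nat_lit 8098969632, nat_lit 8099629041, nat_lit 8222614517, nat_lit 8241359210], nat_lit 1271250, nat_lit 1271250, nat_lit 1271250, nat_lit 1271250, nat_lit 0, nat_lit 2570750, [nat_lit 1100000, nat_lit 1785000, nat_lit 1271250], [nat_lit 37, nat_lit 40, nat_lit 40, nat_lit 80, nat_lit 28, nat_lit 483, nat_lit 250, nat_lit 11]⟩,
 ⟨nat_lit 1581, nat_lit 2237, ⟨.ofNat (nat_lit 602558), .ofNat (nat_lit 716594), .ofNat (nat_lit 625287), .ofNat (nat_lit 739368), .ofNat (nat_lit 601260), .ofNat (nat_lit 710536), .ofNat (nat_lit 624529), .ofNat (nat_lit 733851)⟩, ⟨.ofNat (nat_lit 306337), .ofNat (nat_lit 374756), .ofNat (nat_lit 351886), .ofNat (nat_lit 420305), .ofNat (nat_lit 305473), .ofNat (nat_lit 371036), .ofNat (nat_lit 352103), .ofNat (nat_lit 417666)⟩⟩, [⟨nat_lit 13, nat_lit 32, nat_lit 89, nat_lit 100, nat_lit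 53334657⟩, ⟨nat_lit 16, nat_lit 38, nat_lit 100, nat_lit 87, nat_lit 438596618⟩, ⟨nat_lit 7, nat_lit 72, nat_lit 100, nat_lit 89, nat_lit 36074974⟩]⟩
noncomputable def p112_l119 : Lf2 := ⟨nat_lit 0, nat_lit 20, [nat_lit 5, nat_lit 5, nat_lit 5, nat_lit 20], false, nat_lit 160, nat_lit 184, nat_lit 0, nat_lit 364, ⟨nat_lit 226, nat_lit 774, nat_lit 0, nat_lit 6, nat_lit 266, nat_lit 774, nat_lit 137, nat_lit 0, nat_lit 0, nat_lit 0, nat_lit 0, nat_lit 0, nat_lit 41186385, nat_lit 19133963, nat_lit 6679652, nat_lit 4742041, true, true⟩,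
 nat_lit 3851, nat_lit 0, nat_lit 0, nat_lit 0, nat_lit 3126, nat_lit 2038, nat_lit 69, nat_lit 0, nat_lit 0, nat_lit 208, nat_lit 0, nat_lit 0, nat_lit 0, nat_lit 0, nat_lit 0, nat_lit 193500, nat_lit 0, nat_lit 0, [(nat_lit 28, [(nat_lit 0, nat_lit 774)])],
 ⟨p112_k39, nat_lit 0, nat_lit 0, nat_lit 187, nat_lit 0, nat_lit 399278, [nat_lit 816946401, nat_lit 1551336001, nat_lit 2124821600], [], [nat_lit 24784360191, nat_lit 25298239115, nat_lit 27240075801, nat_lit 27814277744, nat_lit 25245384766, nat_lit 25742164725, nat_lit 27643166836, nat_lit 28222797762], nat_lit 1271250, nat_lit 1271250, nat_lit 1271250, nat_lit 1271250, nat_lit 1100001, nat_lit 1305500, [nat_lit 230000, nat_lit 780000, nat_lit 1100000], [nat_lit 35, nat_lit 40, nat_lit 40, nat_lit 80, nat_lit 22, nat_lit 203, nat_lit 0, nat_lit 7]⟩, ⟨p112_k1, nat_lit 0, nat_lit 0, nat_lit 728, nat_lit 0, nat_lit 860623, [nat_lit 1059488000, nat_lit 1800768000,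 nat_lit 3177108000], [], [nat_lit 8170278912, nat_lit 8224059680, nat_lit 8539463952, nat_lit 8610331544, nat_lit 7384181690, nat_lit 7394958163, nat_lit 7507237445, nat_lit 7508350286], nat_lit 1271250, nat_lit 1271250, nat_lit 1271250, nat_lit 1271250, nat_lit 0, nat_lit 2570750, [nat_lit 1100000, nat_lit 1785000, nat_lit 1271250], [nat_lit 37, nat_lit 40, nat_lit 40, nat_lit 80, nat_lit 28, nat_lit 483, nat_lit 250, nat_lit 11]⟩,
 ⟨nat_lit 0, nat_lit 1582, ⟨.ofNat (nat_lit 601257), .ofNat (nat_lit 710533), .ofNat (nat_lit 623921), .ofNat (nat_lit 733849), .ofNat (nat_lit 599992), .ofNat (nat_lit 699996), .ofNat (nat_lit 624340), .ofNat (nat_lit 724997)⟩, ⟨.ofNat (nat_lit 305469), .ofNat (nat_lit 338250), .ofNat (nat_lit 352101), .ofNat (nat_lit 384882), .ofNat (nat_lit 299995), .ofNat (nat_lit 329995), .ofNat (nat_lit 349997), .ofNat (nat_lit 379997)⟩⟩, [⟨nat_lit 13, nat_lit 33, nat_lit 85, nat_lit 100, nat_lit 113140269⟩,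 ⟨nat_lit 16, nat_lit 31, nat_lit 100, nat_lit 92, nat_lit 503960615⟩, ⟨nat_lit 7, nat_lit 72, nat_lit 100, nat_lit 89, nat_lit 32825921⟩]⟩
noncomputable def p112_l120 : Lf2 := ⟨nat_lit 0, nat_lit 20, [nat_lit 5, nat_lit 5, nat_lit 5, nat_lit 20], false, nat_lit 160, nat_lit 248, nat_lit 0, nat_lit 352, ⟨nat_lit 523, nat_lit 477, nat_lit 0, nat_lit 6, nat_lit 279, nat_lit 477, nat_lit 157, nat_lit 0, nat_lit 0, nat_lit 0, nat_lit 0, nat_lit 0, nat_lit 39065978, nat_lit 19932709, nat_lit 8001313, nat_lit 4985265, true, true⟩,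
 nat_lit 7326, nat_lit 0, nat_lit 0, nat_lit 0, nat_lit 4109, nat_lit 4264, nat_lit 195, nat_lit 0, nat_lit 0, nat_lit 431, nat_lit 0, nat_lit 0, nat_lit 0, nat_lit 0, nat_lit 0, nat_lit 267000, nat_lit 0, nat_lit 0, [(nat_lit 25, [(nat_lit 1, nat_lit 350), (nat_lit 2, nat_lit 127)])],
 ⟨p112_k0, nat_lit 0, nat_lit 0, nat_lit 202, nat_lit 0, nat_lit 377310, [nat_lit 972740801, nat_lit 2018854134, nat_lit 3093922400], [], [nat_lit 23571374575, nat_lit 24634673245, nat_lit 26319195396, nat_lit 27686392246, nat_lit 25265641074, nat_lit 26295845053, nat_lit 28144813926, nat_lit 29322863805], nat_lit 1271250, nat_lit 1271250, nat_lit 1271250, nat_lit 1271250, nat_lit 1100001, nat_lit 1853500, [nat_lit 230000, nat_lit 780000, nat_lit 1435000], [nat_lit 20, nat_lit 40, nat_lit 40, nat_lit 80, nat_lit 16, nat_lit 289, nat_lit 75, nat_lit 9]⟩, ⟨p112_k18, nat_lit 0, nat_lit 0, nat_lit 536, nat_lit 0, nat_lit 630866, [nat_lit 2451824000,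 nat_lit 4167264000, nat_lit 6209056000], [], [nat_lit 17081729843, nat_lit 17356530365, nat_lit 18262990897, nat_lit 18458913917, nat_lit 15639815845, nat_lit 15780570425, nat_lit 16667589934, nat_lit 16853264904], nat_lit 1271250, nat_lit 1271250, nat_lit 1271250, nat_lit 1271250, nat_lit 0, nat_lit 2486000, [nat_lit 1100000, nat_lit 1785000, nat_lit 1271250], [nat_lit 21, nat_lit 40, nat_lit 40, nat_lit 80, nat_lit 14, nat_lit 483, nat_lit 250, nat_lit 12]⟩,
 ⟨nat_lit 2236, nat_lit 3163, ⟨.ofNat (nat_lit 627331), .ofNat (nat_lit 749323), .ofNat (nat_lit 649422), .ofNat (nat_lit 771478), .ofNat (nat_lit 625251), .ofNat (nat_lit 739368), .ofNat (nat_lit 647962), .ofNat (nat_lit 762142)⟩, ⟨.ofNat (nat_lit 306116), .ofNat (nat_lit 440213), .ofNat (nat_lit 350426), .ofNat (nat_lit 484523), .ofNat (nat_lit 306337), .ofNat (nat_lit 431772), .ofNat (nat_lit 351886), .ofNat (nat_lit 477320)⟩⟩, [⟨nat_lit 16, nat_lit 53, nat_lit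 100, nat_lit 87, nat_lit 456402020⟩, ⟨nat_lit 19, nat_lit 100, nat_lit 82, nat_lit 92, nat_lit 84991491⟩]⟩
noncomputable def p112_l121 : Lf2 := ⟨nat_lit 0, nat_lit 20, [nat_lit 5, nat_lit 5, nat_lit 5, nat_lit 20], false, nat_lit 160, nat_lit 208, nat_lit 0, nat_lit 352, ⟨nat_lit 406, nat_lit 594, nat_lit 0, nat_lit 6, nat_lit 276, nat_lit 594, nat_lit 144, nat_lit 0, nat_lit 0, nat_lit 0, nat_lit 0, nat_lit 0, nat_lit 39997312, nat_lit 19949823, nat_lit 7052865, nat_lit 4847840, true, true⟩,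
 nat_lit 5752, nat_lit 0, nat_lit 0, nat_lit 0, nat_lit 3275, nat_lit 3348, nat_lit 130, nat_lit 0, nat_lit 0, nat_lit 329, nat_lit 0, nat_lit 0, nat_lit 0, nat_lit 0, nat_lit 0, nat_lit 237600, nat_lit 0, nat_lit 0, [(nat_lit 28, [(nat_lit 1, nat_lit 594)])],
 ⟨p112_k37, nat_lit 0, nat_lit 0, nat_lit 226, nat_lit 0, nat_lit 446464, [nat_lit 795202400, nat_lit 1525423200, nat_lit 2619472000], [], [nat_lit 24273155450, nat_lit 25405288150, nat_lit 26985804350, nat_lit 28002128600, nat_lit 25197827481, nat_lit 26293165510, nat_lit 27755444720, nat_lit 28805793681], nat_lit 1271250, nat_lit 1271250, nat_lit 1271250, nat_lit 1271250, nat_lit 1100001, nat_lit 1511000, [nat_lit 230000, nat_lit 780000, nat_lit 1435000], [nat_lit 20, nat_lit 40, nat_lit 40, nat_lit 80, nat_lit 16, nat_lit 272, nat_lit 60, nat_lit 8]⟩, ⟨p112_k18, nat_lit 0, nat_lit 0, nat_lit 622, nat_lit 0, nat_lit 813484, [nat_lit 1903328000, nat_lit 3235008000,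 nat_lit 4820032000], [], [nat_lit 13751804319, nat_lit 13881992051, nat_lit 14333172063, nat_lit 14418006139, nat_lit 12308511342, nat_lit 12359055904, nat_lit 12964254709, nat_lit 13115470415], nat_lit 1271250, nat_lit 1271250, nat_lit 1271250, nat_lit 1271250, nat_lit 0, nat_lit 2486000, [nat_lit 1100000, nat_lit 1785000, nat_lit 1271250], [nat_lit 21, nat_lit 40, nat_lit 40, nat_lit 80, nat_lit 14, nat_lit 483, nat_lit 250, nat_lit 12]⟩,
 ⟨nat_lit 0, nat_lit 2237, ⟨.ofNat (nat_lit 624400), .ofNat (nat_lit 739366), .ofNat (nat_lit 646249), .ofNat (nat_lit 762141), .ofNat (nat_lit 624062), .ofNat (nat_lit 724997), .ofNat (nat_lit 648136), .ofNat (nat_lit 749998)⟩, ⟨.ofNat (nat_lit 306334), .ofNat (nat_lit 374750), .ofNat (nat_lit 351885), .ofNat (nat_lit 420300), .ofNat (nat_lit 299996), .ofNat (nat_lit 359993), .ofNat (nat_lit 349998), .ofNat (nat_lit 409994)⟩⟩, [⟨nat_lit 4, nat_lit 100, nat_lit 32, nat_lit 88, nat_lit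 664024570⟩, ⟨nat_lit 7, nat_lit 82, nat_lit 100, nat_lit 92, nat_lit 61847468⟩]⟩
noncomputable def p112_l122 : Lf2 := ⟨nat_lit 0, nat_lit 20, [nat_lit 5, nat_lit 5, nat_lit 5, nat_lit 20], false, nat_lit 160, nat_lit 248, nat_lit 16, nat_lit 364, ⟨nat_lit 495, nat_lit 505, nat_lit 0, nat_lit 8, nat_lit 308, nat_lit 505, nat_lit 158, nat_lit 0, nat_lit 0, nat_lit 0, nat_lit 0, nat_lit 0, nat_lit 36733718, nat_lit 22559097, nat_lit 7707185, nat_lit 5066202, true, true⟩,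
 nat_lit 7898, nat_lit 0, nat_lit 0, nat_lit 0, nat_lit 3720, nat_lit 4181, nat_lit 85, nat_lit 0, nat_lit 0, nat_lit 418, nat_lit 0, nat_lit 0, nat_lit 0, nat_lit 0, nat_lit 0, nat_lit 312400, nat_lit 0, nat_lit 0, [(nat_lit 25, [(nat_lit 1, nat_lit 321), (nat_lit 2, nat_lit 184)])],
 ⟨p112_k0, nat_lit 0, nat_lit 0, nat_lit 151, nat_lit 0, nat_lit 252658, [nat_lit 1005676401, nat_lit 1876183067, nat_lit 2670150000], [], [nat_lit 26790949734, nat_lit 27021381914, nat_lit 28617033209, nat_lit 28855936380, nat_lit 28245550471, nat_lit 28447542128, nat_lit 29921449768, nat_lit 30155064365], nat_lit 1271250, nat_lit 1271250, nat_lit 1271250, nat_lit 1271250, nat_lit 1100001, nat_lit 1853500, [nat_lit 230000, nat_lit 780000, nat_lit 1435000], [nat_lit 20, nat_lit 40, nat_lit 40, nat_lit 80, nat_lit 16, nat_lit 289, nat_lit 75, nat_lit 9]⟩, ⟨p112_k1, nat_lit 0, nat_lit 0, nat_lit 478, nat_lit 0, nat_lit 479470, [nat_lit 2320560000,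 nat_lit 3944160000, nat_lit 6958710000], [], [nat_lit 18714872557, nat_lit 18856821917, nat_lit 19502242484, nat_lit 19604116486, nat_lit 17079204180, nat_lit 17147037220, nat_lit 17618430619, nat_lit 17658452189], nat_lit 1271250, nat_lit 1271250, nat_lit 1271250, nat_lit 1271250, nat_lit 88400, nat_lit 2598350, [nat_lit 1100000, nat_lit 1785000, nat_lit 1271250], [nat_lit 37, nat_lit 40, nat_lit 40, nat_lit 80, nat_lit 28, nat_lit 483, nat_lit 250, nat_lit 11]⟩,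
 ⟨nat_lit 2958, nat_lit 3163, ⟨.ofNat (nat_lit 727168), .ofNat (nat_lit 794217), .ofNat (nat_lit 749323), .ofNat (nat_lit 816372), .ofNat (nat_lit 724616), .ofNat (nat_lit 790639), .ofNat (nat_lit 746893), .ofNat (nat_lit 812916)⟩, ⟨.ofNat (nat_lit 306116), .ofNat (nat_lit 440213), .ofNat (nat_lit 350426), .ofNat (nat_lit 484523), .ofNat (nat_lit 306315), .ofNat (nat_lit 438361), .ofNat (nat_lit 350869), .ofNat (nat_lit 482915)⟩⟩, [⟨nat_lit 13, nat_lit 60, nat_lit 66, nat_lit 100, nat_lit 65515477⟩, ⟨nat_lit 4, nat_lit 100, nat_lit 59, nat_lit 87, nat_lit 343109499⟩, ⟨nat_lit 7, nat_lit 72, nat_lit 100, nat_lit 89, nat_lit 79904813⟩]⟩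
noncomputable def p112_l123 : Lf2 := ⟨nat_lit 0, nat_lit 20, [nat_lit 5, nat_lit 5, nat_lit 5, nat_lit 20], false, nat_lit 160, nat_lit 240, nat_lit 16, nat_lit 364, ⟨nat_lit 420, nat_lit 580, nat_lit 0, nat_lit 8, nat_lit 306, nat_lit 580, nat_lit 155, nat_lit 0, nat_lit 0, nat_lit 0, nat_lit 0, nat_lit 0, nat_lit 37042889, nat_lit 22406521, nat_lit 7550590, nat_lit 5038258, true, true⟩,
 nat_lit 6735, nat_lit 0, nat_lit 0, nat_lit 0, nat_lit 3485, nat_lit 3565, nat_lit 162, nat_lit 0, nat_lit 0, nat_lit 358, nat_lit 0, nat_lit 0, nat_lit 0, nat_lit 0, nat_lit 0, nat_lit 243400, nat_lit 0, nat_lit 0, [(nat_lit 25, [(nat_lit 1, nat_lit 561), (nat_lit 2, nat_lit 19)])],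
 ⟨p112_k5, nat_lit 0, nat_lit 0, nat_lit 157, nat_lit 0, nat_lit 274558, [nat_lit 895792401, nat_lit 1933399067, nat_lit 3064350000], [], [nat_lit 26870090122, nat_lit 27104633797, nat_lit 28446499560, nat_lit 28661218432, nat_lit 28138530047, nat_lit 28346998347, nat_lit 29535701777, nat_lit 29727069667], nat_lit 1271250, nat_lit 1271250, nat_lit 1271250, nat_lit 1271250, nat_lit 1100001, nat_lit 1785000, [nat_lit 230000, nat_lit 780000, nat_lit 1435000], [nat_lit 20, nat_lit 40, nat_lit 40, nat_lit 80, nat_lit 16, nat_lit 272, nat_lit 60, nat_lit 8]⟩, ⟨p112_k1, nat_lit 0, nat_lit 0, nat_lit 546, nat_lit 0, nat_lit 532562, [nat_lit 1968960000, nat_lit 3346560000, nat_lit 5904360000], [], [nat_lit 15811460809, nat_lit 15931659441, nat_lit 16410960768, nat_lit 16500197554, nat_lit 14437873909, nat_lit 14494957896, nat_lit 14846326162, nat_lit 14880217494], nat_lit 1271250, nat_lit 1271250, nat_lit 1271250, nat_lit 1271250,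 nat_lit 88400, nat_lit 2598350, [nat_lit 1100000, nat_lit 1785000, nat_lit 1271250], [nat_lit 37, nat_lit 40, nat_lit 40, nat_lit 80, nat_lit 28, nat_lit 483, nat_lit 250, nat_lit 11]⟩,
 ⟨nat_lit 2738, nat_lit 2959, ⟨.ofNat (nat_lit 724616), .ofNat (nat_lit 784637), .ofNat (nat_lit 746893), .ofNat (nat_lit 806914), .ofNat (nat_lit 722017), .ofNat (nat_lit 781079), .ofNat (nat_lit 744435), .ofNat (nat_lit 803496)⟩, ⟨.ofNat (nat_lit 306315), .ofNat (nat_lit 426357), .ofNat (nat_lit 350869), .ofNat (nat_lit 470911), .ofNat (nat_lit 306433), .ofNat (nat_lit 424556), .ofNat (nat_lit 351268), .ofNat (nat_lit 469390)⟩⟩, [⟨nat_lit 13, nat_lit 56, nat_lit 70, nat_lit 100, nat_lit 77555043⟩, ⟨nat_lit 16, nat_lit 58, nat_lit 100, nat_lit 93, nat_lit 299443125⟩, ⟨nat_lit 7, nat_lit 72, nat_lit 100, nat_lit 89, nat_lit 68258320⟩]⟩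
noncomputable def p112_l124 : Lf2 := ⟨nat_lit 0, nat_lit 20, [nat_lit 5, nat_lit 5, nat_lit 5, nat_lit 20], false, nat_lit 160, nat_lit 232, nat_lit 16, nat_lit 364, ⟨nat_lit 343, nat_lit 657, nat_lit 0, nat_lit 8, nat_lit 302, nat_lit 657, nat_lit 152, nat_lit 0, nat_lit 0, nat_lit 0, nat_lit 0, nat_lit 0, nat_lit 37500228, nat_lit 22096235, nat_lit 7403537, nat_lit 5004523, true, true⟩,
 nat_lit 5605, nat_lit 0, nat_lit 0, nat_lit 0, nat_lit 3344, nat_lit 2967, nat_lit 219, nat_lit 0, nat_lit 0, nat_lit 294, nat_lit 0, nat_lit 0, nat_lit 0, nat_lit 0, nat_lit 0, nat_lit 164250, nat_lit 0, nat_lit 0, [(nat_lit 25, [(nat_lit 0, nat_lit 657)])],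
 ⟨p112_k3, nat_lit 0, nat_lit 0, nat_lit 183, nat_lit 0, nat_lit 322942, [nat_lit 823682001, nat_lit 2025027600, nat_lit 3535276000], [], [nat_lit 26899197513, nat_lit 27342911982, nat_lit 28110276626, nat_lit 28576642129, nat_lit 28015462171, nat_lit 28431022710, nat_lit 29164621523, nat_lit 29590666850], nat_lit 1271250, nat_lit 1271250, nat_lit 1271250, nat_lit 1271250, nat_lit 1100001, nat_lit 1716500, [nat_lit 230000, nat_lit 780000, nat_lit 1435000], [nat_lit 20, nat_lit 40, nat_lit 40, nat_lit 80, nat_lit 16, nat_lit 272, nat_lit 60, nat_lit 8]⟩, ⟨p112_k1, nat_lit 0, nat_lit 0, nat_lit 584, nat_lit 0, nat_lit 640101, [nat_lit 1607984000, nat_lit 2733024000, nat_lit 4821894000], [], [nat_lit 12786600593, nat_lit 12883989533, nat_lit 13181043711, nat_lit 13304516710, nat_lit 11620627840, nat_lit 11665748130, nat_lit 11965910363, nat_lit 12022318321], nat_lit 1271250, nat_lit 1271250, nat_lit 1271250, nat_lit 1271250,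 nat_lit 88400, nat_lit 2598350, [nat_lit 1100000, nat_lit 1785000, nat_lit 1271250], [nat_lit 37, nat_lit 40, nat_lit 40, nat_lit 80, nat_lit 28, nat_lit 483, nat_lit 250, nat_lit 11]⟩,
 ⟨nat_lit 2236, nat_lit 2739, ⟨.ofNat (nat_lit 722017), .ofNat (nat_lit 769266), .ofNat (nat_lit 744435), .ofNat (nat_lit 791684), .ofNat (nat_lit 716594), .ofNat (nat_lit 762206), .ofNat (nat_lit 739368), .ofNat (nat_lit 784980)⟩, ⟨.ofNat (nat_lit 306433), .ofNat (nat_lit 412743), .ofNat (nat_lit 351268), .ofNat (nat_lit 457578), .ofNat (nat_lit 306337), .ofNat (nat_lit 408965), .ofNat (nat_lit 351886), .ofNat (nat_lit 454514)⟩⟩, [⟨nat_lit 13, nat_lit 50, nat_lit 75, nat_lit 100, nat_lit 99274113⟩, ⟨nat_lit 4, nat_lit 100, nat_lit 48, nat_lit 87, nat_lit 450944676⟩, ⟨nat_lit 22, nat_lit 73, nat_lit 69, nat_lit 100, nat_lit 68716842⟩]⟩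
noncomputable def p112_l125 : Lf2 := ⟨nat_lit 0, nat_lit 20, [nat_lit 5, nat_lit 5, nat_lit 5, nat_lit 20], false, nat_lit 160, nat_lit 208, nat_lit 16, nat_lit 364, ⟨nat_lit 297, nat_lit 703, nat_lit 0, nat_lit 8, nat_lit 293, nat_lit 703, nat_lit 144, nat_lit 0, nat_lit 0, nat_lit 0, nat_lit 0, nat_lit 0, nat_lit 38564741, nat_lit 21551398, nat_lit 6883861, nat_lit 4903340, true, true⟩,
 nat_lit 4976, nat_lit 0, nat_lit 0, nat_lit 0, nat_lit 3183, nat_lit 2634, nat_lit 180, nat_lit 0, nat_lit 0, nat_lit 257, nat_lit 0, nat_lit 0, nat_lit 0, nat_lit 0, nat_lit 0, nat_lit 175750, nat_lit 0, nat_lit 0, [(nat_lit 28, [(nat_lit 0, nat_lit 703)])],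
 ⟨p112_k37, nat_lit 0, nat_lit 0, nat_lit 221, nat_lit 0, nat_lit 416161, [nat_lit 828050801, nat_lit 1736524800, nat_lit 3041775334], [], [nat_lit 26873484291, nat_lit 27886140152, nat_lit 27676094562, nat_lit 28797740016, nat_lit 27649103183, nat_lit 28698063594, nat_lit 28473517401, nat_lit 29547416233], nat_lit 1271250, nat_lit 1271250, nat_lit 1271250, nat_lit 1271250, nat_lit 1100001, nat_lit 1511000, [nat_lit 230000, nat_lit 780000, nat_lit 1435000], [nat_lit 20, nat_lit 40, nat_lit 40, nat_lit 80, nat_lit 16, nat_lit 272, nat_lit 60, nat_lit 8]⟩, ⟨p112_k1, nat_lit 0, nat_lit 0, nat_lit 660, nat_lit 0, nat_lit 860623, [nat_lit 1392336000, nat_lit 2366496000, nat_lit 4175226000], [], [nat_lit 11135449871, nat_lit 11197500875, nat_lit 11319136203, nat_lit 11400133017, nat_lit 10054664630, nat_lit 10057727967, nat_lit 10188221979, nat_lit 10241861714], nat_lit 1271250, nat_lit 1271250, nat_lit 1271250, nat_lit 1271250,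 nat_lit 88400, nat_lit 2598350, [nat_lit 1100000, nat_lit 1785000, nat_lit 1271250], [nat_lit 37, nat_lit 40, nat_lit 40, nat_lit 80, nat_lit 28, nat_lit 483, nat_lit 250, nat_lit 11]⟩,
 ⟨nat_lit 0, nat_lit 2237, ⟨.ofNat (nat_lit 716590), .ofNat (nat_lit 745097), .ofNat (nat_lit 739366), .ofNat (nat_lit 767872), .ofNat (nat_lit 699995), .ofNat (nat_lit 724995), .ofNat (nat_lit 724997), .ofNat (nat_lit 749995)⟩, ⟨.ofNat (nat_lit 306334), .ofNat (nat_lit 374750), .ofNat (nat_lit 351885), .ofNat (nat_lit 420300), .ofNat (nat_lit 299996), .ofNat (nat_lit 359993), .ofNat (nat_lit 349998), .ofNat (nat_lit 409994)⟩⟩, [⟨nat_lit 13, nat_lit 46, nat_lit 76, nat_lit 100, nat_lit 197850735⟩, ⟨nat_lit 16, nat_lit 44, nat_lit 100, nat_lit 92, nat_lit 203694813⟩, ⟨nat_lit 4, nat_lit 100, nat_lit 32, nat_lit 88, nat_lit 359905872⟩, ⟨nat_lit 22, nat_lit 76, nat_lit 71, nat_lit 100, nat_lit 56402748⟩]⟩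
noncomputable def p112_l126 : Lf2 := ⟨nat_lit 0, nat_lit 20, [nat_lit 5, nat_lit 5, nat_lit 5, nat_lit 20], false, nat_lit 160, nat_lit 248, nat_lit 16, nat_lit 352, ⟨nat_lit 758, nat_lit 242, nat_lit 0, nat_lit 8, nat_lit 319, nat_lit 242, nat_lit 157, nat_lit 0, nat_lit 0, nat_lit 0, nat_lit 0, nat_lit 0, nat_lit 35948643, nat_lit 23505709, nat_lit 7545648, nat_lit 5078233, true, true⟩,
 nat_lit 9670, nat_lit 0, nat_lit 0, nat_lit 0, nat_lit 4144, nat_lit 5628, nat_lit 240, nat_lit 0, nat_lit 0, nat_lit 582, nat_lit 0, nat_lit 0, nat_lit 0, nat_lit 0, nat_lit 0, nat_lit 242000, nat_lit 0, nat_lit 0, [(nat_lit 25, [(nat_lit 2, nat_lit 242)])],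
 ⟨p112_k0, nat_lit 0, nat_lit 0, nat_lit 212, nat_lit 0, nat_lit 377310, [nat_lit 1066356801, nat_lit 2395570134, nat_lit 3793990400], [], [nat_lit 27276145463, nat_lit 28087246300, nat_lit 29629540615, nat_lit 30809274413, nat_lit 28488346880, nat_lit 29357314788, nat_lit 30994635185, nat_lit 32016872186], nat_lit 1271250, nat_lit 1271250, nat_lit 1271250, nat_lit 1271250, nat_lit 1100001, nat_lit 1853500, [nat_lit 230000, nat_lit 780000, nat_lit 1435000], [nat_lit 20, nat_lit 40, nat_lit 40, nat_lit 80, nat_lit 16, nat_lit 289, nat_lit 75, nat_lit 9]⟩, ⟨p112_k18, nat_lit 0, nat_lit 0, nat_lit 519, nat_lit 0, nat_lit 630866, [nat_lit 3553504000, nat_lit 6039744000, nat_lit 8998976000], [], [nat_lit 27429020583, nat_lit 27712553345, nat_lit 29053410526, nat_lit 29258900058, nat_lit 25511245649, nat_lit 25648612012, nat_lit 26565273691, nat_lit 26650967913], nat_lit 1271250, nat_lit 1271250, nat_lit 1271250, nat_lit 1271250,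 nat_lit 88400, nat_lit 2511800, [nat_lit 1100000, nat_lit 1785000, nat_lit 1271250], [nat_lit 21, nat_lit 40, nat_lit 40, nat_lit 80, nat_lit 14, nat_lit 401, nat_lit 175, nat_lit 10]⟩,
 ⟨nat_lit 2236, nat_lit 3163, ⟨.ofNat (nat_lit 749323), .ofNat (nat_lit 834658), .ofNat (nat_lit 771478), .ofNat (nat_lit 856813), .ofNat (nat_lit 739368), .ofNat (nat_lit 819190), .ofNat (nat_lit 762142), .ofNat (nat_lit 841964)⟩, ⟨.ofNat (nat_lit 306116), .ofNat (nat_lit 440213), .ofNat (nat_lit 350426), .ofNat (nat_lit 484523), .ofNat (nat_lit 306337), .ofNat (nat_lit 431772), .ofNat (nat_lit 351886), .ofNat (nat_lit 477320)⟩⟩, [⟨nat_lit 13, nat_lit 46, nat_lit 76, nat_lit 100, nat_lit 57363373⟩, ⟨nat_lit 4, nat_lit 100, nat_lit 53, nat_lit 87, nat_lit 501628267⟩, ⟨nat_lit 19, nat_lit 100, nat_lit 82, nat_lit 92, nat_lit 120228513⟩]⟩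
noncomputable def p112_l127 : Lf2 := ⟨nat_lit 0, nat_lit 20, [nat_lit 5, nat_lit 5, nat_lit 5, nat_lit 20], false, nat_lit 160, nat_lit 208, nat_lit 16, nat_lit 352, ⟨nat_lit 506, nat_lit 494, nat_lit 0, nat_lit 8, nat_lit 306, nat_lit 494, nat_lit 144, nat_lit 0, nat_lit 0, nat_lit 0, nat_lit 0, nat_lit 0, nat_lit 37537520, nat_lit 22705841, nat_lit 6756639, nat_lit 4933584, true, true⟩,
 nat_lit 6751, nat_lit 0, nat_lit 0, nat_lit 0, nat_lit 3162, nat_lit 3929, nat_lit 208, nat_lit 0, nat_lit 0, nat_lit 397, nat_lit 0, nat_lit 0, nat_lit 0, nat_lit 0, nat_lit 0, nat_lit 197600, nat_lit 0, nat_lit 0, [(nat_lit 28, [(nat_lit 1, nat_lit 494)])],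
 ⟨p112_k37, nat_lit 0, nat_lit 0, nat_lit 231, nat_lit 0, nat_lit 446464, [nat_lit 819242401, nat_lit 1821143200, nat_lit 3230672000], [], [nat_lit 26753500733, nat_lit 27859664528, nat_lit 28198306083, nat_lit 29314904362, nat_lit 27550952312, nat_lit 28673473031, nat_lit 28989486990, nat_lit 30029550179], nat_lit 1271250, nat_lit 1271250, nat_lit 1271250, nat_lit 1271250, nat_lit 1100001, nat_lit 1511000, [nat_lit 230000, nat_lit 780000, nat_lit 1435000], [nat_lit 20, nat_lit 40, nat_lit 40, nat_lit 80, nat_lit 16, nat_lit 272, nat_lit 60, nat_lit 8]⟩, ⟨p112_k18, nat_lit 0, nat_lit 0, nat_lit 585, nat_lit 0, nat_lit 813484, [nat_lit 2372128000, nat_lit 4031808000, nat_lit 6007232000], [], [nat_lit 18417399309, nat_lit 18526199532, nat_lit 18839917879, nat_lit 18928059556, nat_lit 16799455348, nat_lit 16831481291, nat_lit 17054112089, nat_lit 17157888188], nat_lit 1271250, nat_lit 1271250, nat_lit 1271250, nat_lit 1271250,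 nat_lit 88400, nat_lit 2511800, [nat_lit 1100000, nat_lit 1785000, nat_lit 1271250], [nat_lit 21, nat_lit 40, nat_lit 40, nat_lit 80, nat_lit 14, nat_lit 401, nat_lit 175, nat_lit 10]⟩,
 ⟨nat_lit 0, nat_lit 2237, ⟨.ofNat (nat_lit 739366), .ofNat (nat_lit 784976), .ofNat (nat_lit 762141), .ofNat (nat_lit 807752), .ofNat (nat_lit 724997), .ofNat (nat_lit 764995), .ofNat (nat_lit 749998), .ofNat (nat_lit 789996)⟩, ⟨.ofNat (nat_lit 306334), .ofNat (nat_lit 374750), .ofNat (nat_lit 351885), .ofNat (nat_lit 420300), .ofNat (nat_lit 299996), .ofNat (nat_lit 359993), .ofNat (nat_lit 349998), .ofNat (nat_lit 409994)⟩⟩, [⟨nat_lit 13, nat_lit 33, nat_lit 83, nat_lit 100, nat_lit 3650944⟩, ⟨nat_lit 4, nat_lit 100, nat_lit 32, nat_lit 88, nat_lit 880717649⟩, ⟨nat_lit 22, nat_lit 74, nat_lit 74, nat_lit 100, nat_lit 99214707⟩]⟩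
noncomputable def b_V_900_600_20_24 : St := ⟨true, nat_lit 1, nat_lit 1, nat_lit 1, nat_lit 120, nat_lit 360, nat_lit 400, nat_lit 240, nat_lit 280, nat_lit 240, nat_lit 376, nat_lit 80, nat_lit 120, nat_lit 160, nat_lit 248, nat_lit 0, nat_lit 364, nat_lit 40, nat_lit 80, nat_lit 0, nat_lit 0, nat_lit 0, nat_lit 0⟩
theorem d_V_900_600_20_24 (h : EB TB.env) : Dead b_V_900_600_20_24 := chkB_sound0 h (T :=
(.spl (nat_lit 2) (nat_lit 320)
(.spl (nat_lit 1) (nat_lit 260)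
(.spl (nat_lit 0) (nat_lit 380)
(.spl (nat_lit 0) (nat_lit 370)
(.leaf p112_l116)
(.trX (nat_lit 16) (nat_lit 53) (nat_lit 100) (nat_lit 93) (nat_lit 232) (.leaf p112_l117)))
(.trX (nat_lit 16) (nat_lit 44) (nat_lit 100) (nat_lit 92) (nat_lit 208) (.spl (nat_lit 0) (nat_lit 390)
(.leaf p112_l118)
(.trX (nat_lit 16) (nat_lit 31) (nat_lit 100) (nat_lit 92) (nat_lit 184) (.leaf p112_l119)))))
(.trX (nat_lit 19) (nat_lit 100) (nat_lit 69) (nat_lit 96) (nat_lit 352) (.spl (nat_lit 0) (nat_lit 380)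
(.leaf p112_l120)
(.trX (nat_lit 16) (nat_lit 44) (nat_lit 100) (nat_lit 92) (nat_lit 208) (.leaf p112_l121)))))
(.trZ (nat_lit 9) (nat_lit 100) (nat_lit 82) (nat_lit 44) (nat_lit 16) (.spl (nat_lit 1) (nat_lit 260)
(.trX (nat_lit 13) (nat_lit 63) (nat_lit 61) (nat_lit 100) (nat_lit 364) (.spl (nat_lit 0) (nat_lit 380)
(.spl (nat_lit 0) (nat_lit 370)
(.spl (nat_lit 0) (nat_lit 365)
(.leaf p112_l122)
(.trX (nat_lit 13) (nat_lit 59) (nat_lit 65) (nat_lit 100) (nat_lit 360) (.trX (nat_lit 16) (nat_lit 58) (nat_lit 100) (nat_lit 93) (nat_lit 240) (.leaf p112_l123))))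
(.trX (nat_lit 13) (nat_lit 55) (nat_lit 68) (nat_lit 100) (nat_lit 352) (.trX (nat_lit 16) (nat_lit 53) (nat_lit 100) (nat_lit 93) (nat_lit 232) (.leaf p112_l124))))
(.trX (nat_lit 13) (nat_lit 46) (nat_lit 76) (nat_lit 100) (nat_lit 340) (.trX (nat_lit 16) (nat_lit 44) (nat_lit 100) (nat_lit 92) (nat_lit 208) (.leaf p112_l125)))))
(.trX (nat_lit 19) (nat_lit 100) (nat_lit 69) (nat_lit 96) (nat_lit 352) (.spl (nat_lit 0) (nat_lit 380)
(.leaf p112_l126)
(.trX (nat_lit 13) (nat_lit 48) (nat_lit 71) (nat_lit 100) (nat_lit 352) (.trX (nat_lit 16) (nat_lit 44) (nat_lit 100) (nat_lit 92) (nat_lit 208) (.leaf p112_l127))))))))) (by decide +kernel)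
noncomputable def p112_l128 : Lf2 := ⟨nat_lit 0, nat_lit 20, [nat_lit 5, nat_lit 5, nat_lit 5, nat_lit 20], true, nat_lit 8, nat_lit 248, nat_lit 0, nat_lit 364, ⟨nat_lit 0, nat_lit 1000, nat_lit 0, nat_lit 6, nat_lit 213, nat_lit 1000, nat_lit 94, nat_lit 0, nat_lit 0, nat_lit 0, nat_lit 0, nat_lit 0, nat_lit 0, nat_lit 0, nat_lit 0, nat_lit 5000000, false, false⟩,
 nat_lit 0, nat_lit 4234, nat_lit 0, nat_lit 0, nat_lit 3687, nat_lit 0, nat_lit 0, nat_lit 0, nat_lit 0, nat_lit 0, nat_lit 0, nat_lit 0, nat_lit 0, nat_lit 0, nat_lit 0, nat_lit 400000, nat_lit 0, nat_lit 0, [(nat_lit 25, [(nat_lit 1, nat_lit 1000)]), (nat_lit 28, [(nat_lit 1, nat_lit 1000)])],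
 ⟨p112_k42, nat_lit 0, nat_lit 0, nat_lit 455, nat_lit 0, nat_lit 770932, [nat_lit 991360000, nat_lit 973440000], [], [nat_lit 24523102617, nat_lit 26222360159, nat_lit 26182739952, nat_lit 27771089707, nat_lit 25748548192, nat_lit 27182715527, nat_lit 27973982330, nat_lit 28418065961], nat_lit 1271250, nat_lit 1271250, nat_lit 719601, nat_lit 1758000, nat_lit 43600, nat_lit 1756600, [nat_lit 230000, nat_lit 1420000], [nat_lit 88, nat_lit 40, nat_lit 40, nat_lit 80, nat_lit 89, nat_lit 345, nat_lit 125, nat_lit 13]⟩, C1.Rw.none,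
 ⟨nat_lit 0, nat_lit 3163, ⟨.ofNat (nat_lit 401957), .ofNat (nat_lit 605128), .ofNat (nat_lit 443658), .ofNat (nat_lit 646918), .ofNat (nat_lit 431745), .ofNat (nat_lit 599865), .ofNat (nat_lit 479136), .ofNat (nat_lit 647345)⟩, ⟨.ofNat (nat_lit 20000), .ofNat (nat_lit 440207), .ofNat (nat_lit 20000), .ofNat (nat_lit 484518), .ofNat (nat_lit 20000), .ofNat (nat_lit 409993), .ofNat (nat_lit 20000), .ofNat (nat_lit 459993)⟩⟩, [⟨nat_lit 4, nat_lit 100, nat_lit 44, nat_lit 87, nat_lit 218676939⟩]⟩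
noncomputable def p112_l129 : Lf2 := ⟨nat_lit 0, nat_lit 20, [nat_lit 5, nat_lit 5, nat_lit 5, nat_lit 20], false, nat_lit 8, nat_lit 248, nat_lit 0, nat_lit 160, ⟨nat_lit 750, nat_lit 250, nat_lit 0, nat_lit 6, nat_lit 288, nat_lit 250, nat_lit 94, nat_lit 0, nat_lit 0, nat_lit 0, nat_lit 0, nat_lit 0, nat_lit 0, nat_lit 0, nat_lit 0, nat_lit 5000000, true, true⟩,
 nat_lit 0, nat_lit 5082, nat_lit 0, nat_lit 0, nat_lit 4426, nat_lit 4794, nat_lit 107, nat_lit 0, nat_lit 0, nat_lit 533, nat_lit 0, nat_lit 0, nat_lit 0, nat_lit 0, nat_lit 0, nat_lit 250000, nat_lit 0, nat_lit 0, [(nat_lit 25, [(nat_lit 2, nat_lit 250)]), (nat_lit 28, [(nat_lit 2, nat_lit 250)])],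
 ⟨p112_k8, nat_lit 0, nat_lit 0, nat_lit 434, nat_lit 0, nat_lit 770932, [nat_lit 1227300000, nat_lit 3038550001, nat_lit 3712800000], [], [nat_lit 32080489095, nat_lit 33589188916, nat_lit 35427539171, nat_lit 36652210536, nat_lit 31854140373, nat_lit 32994757538, nat_lit 34486054115, nat_lit 35468579814], nat_lit 1271250, nat_lit 1271250, nat_lit 1271250, nat_lit 1271250, nat_lit 43600, nat_lit 1756600, [nat_lit 230000, nat_lit 1100000, nat_lit 1442500], [nat_lit 55, nat_lit 40, nat_lit 40, nat_lit 80, nat_lit 3, nat_lit 289, nat_lit 75, nat_lit 10]⟩, ⟨p112_k9, nat_lit 0, nat_lit 0, nat_lit 284, nat_lit 0, nat_lit 0, [nat_lit 3516000000, nat_lit 7381500000, nat_lit 10543500000], [], [nat_lit 23866138504, nat_lit 25188442360, nat_lit 29429818149, nat_lit 30203120338, nat_lit 20720818768, nat_lit 21673993072, nat_lit 25325771948, nat_lit 26112168687], nat_lit 0, nat_lit 0, nat_lit 0, nat_lit 0, nat_lit 0, nat_lit 0, [],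 [nat_lit 56, nat_lit 40, nat_lit 40, nat_lit 80, nat_lit 32, nat_lit 456, nat_lit 225, nat_lit 10]⟩,
 ⟨nat_lit 0, nat_lit 3163, ⟨.ofNat (nat_lit 605128), .ofNat (nat_lit 812499), .ofNat (nat_lit 646918), .ofNat (nat_lit 856810), .ofNat (nat_lit 599865), .ofNat (nat_lit 769995), .ofNat (nat_lit 647345), .ofNat (nat_lit 819996)⟩, ⟨.ofNat (nat_lit 20000), .ofNat (nat_lit 440207), .ofNat (nat_lit 20000), .ofNat (nat_lit 484518), .ofNat (nat_lit 20000), .ofNat (nat_lit 409993), .ofNat (nat_lit 20000), .ofNat (nat_lit 459993)⟩⟩, [⟨nat_lit 4, nat_lit 100, nat_lit 44, nat_lit 87, nat_lit 319559437⟩]⟩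
noncomputable def p112_l130 : Lf2 := ⟨nat_lit 0, nat_lit 20, [nat_lit 5, nat_lit 5, nat_lit 5, nat_lit 20], false, nat_lit 8, nat_lit 248, nat_lit 160, nat_lit 364, ⟨nat_lit 701, nat_lit 299, nat_lit 0, nat_lit 6, nat_lit 288, nat_lit 299, nat_lit 94, nat_lit 0, nat_lit 0, nat_lit 0, nat_lit 0, nat_lit 0, nat_lit 0, nat_lit 0, nat_lit 0, nat_lit 5000000, true, true⟩,
 nat_lit 0, nat_lit 5246, nat_lit 0, nat_lit 0, nat_lit 4569, nat_lit 3811, nat_lit 92, nat_lit 0, nat_lit 0, nat_lit 0, nat_lit 0, nat_lit 0, nat_lit 0, nat_lit 0, nat_lit 0, nat_lit 299000, nat_lit 0, nat_lit 0, [(nat_lit 25, [(nat_lit 2, nat_lit 299)]), (nat_lit 28, [(nat_lit 2, nat_lit 299)])],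
 ⟨p112_k8, nat_lit 0, nat_lit 0, nat_lit 434, nat_lit 0, nat_lit 770932, [nat_lit 1284002800, nat_lit 2715257800, nat_lit 3215508800], [], [nat_lit 29856946101, nat_lit 31384318976, nat_lit 34268218370, nat_lit 37080689116, nat_lit 29504052335, nat_lit 30758983886, nat_lit 32419879193, nat_lit 33611877354], nat_lit 1271250, nat_lit 1271250, nat_lit 1271250, nat_lit 1271250, nat_lit 43600, nat_lit 1756600, [nat_lit 230000, nat_lit 1100000, nat_lit 1442500], [nat_lit 55, nat_lit 40, nat_lit 40, nat_lit 80, nat_lit 3, nat_lit 289, nat_lit 75, nat_lit 10]⟩, ⟨p112_k9, nat_lit 0, nat_lit 0, nat_lit 107, nat_lit 0, nat_lit 0, [nat_lit 3286288000, nat_lit 6899242000, nat_lit 9854658000], [], [nat_lit 11251137492, nat_lit 13017210760, nat_lit 18075635684, nat_lit 19195147629, nat_lit 18711974953, nat_lit 19704243208, nat_lit 22824967162, nat_lit 23522077885], nat_lit 0, nat_lit 0, nat_lit 0, nat_lit 0, nat_lit 0, nat_lit 0, [],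 [nat_lit 56, nat_lit 40, nat_lit 40, nat_lit 80, nat_lit 32, nat_lit 538, nat_lit 300, nat_lit 12]⟩,
 ⟨nat_lit 0, nat_lit 3163, ⟨.ofNat (nat_lit 605128), .ofNat (nat_lit 812499), .ofNat (nat_lit 646918), .ofNat (nat_lit 856810), .ofNat (nat_lit 599865), .ofNat (nat_lit 769995), .ofNat (nat_lit 647345), .ofNat (nat_lit 819996)⟩, ⟨.ofNat (nat_lit 20000), .ofNat (nat_lit 440207), .ofNat (nat_lit 20000), .ofNat (nat_lit 484518), .ofNat (nat_lit 20000), .ofNat (nat_lit 409993), .ofNat (nat_lit 20000), .ofNat (nat_lit 459993)⟩⟩, [⟨nat_lit 4, nat_lit 100, nat_lit 44, nat_lit 87, nat_lit 167032944⟩, ⟨nat_lit 19, nat_lit 100, nat_lit 59, nat_lit 94, nat_lit 39357678⟩, ⟨nat_lit 7, nat_lit 77, nat_lit 100, nat_lit 91, nat_lit 263235669⟩]⟩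
noncomputable def p112_l131 : Lf2 := ⟨nat_lit 0, nat_lit 20, [nat_lit 5, nat_lit 5, nat_lit 5, nat_lit 20], true, nat_lit 8, nat_lit 248, nat_lit 0, nat_lit 364, ⟨nat_lit 0, nat_lit 1000, nat_lit 0, nat_lit 6, nat_lit 213, nat_lit 1000, nat_lit 94, nat_lit 0, nat_lit 0, nat_lit 0, nat_lit 0, nat_lit 0, nat_lit 0, nat_lit 0, nat_lit 0, nat_lit 5000000, false, false⟩,
 nat_lit 0, nat_lit 4234, nat_lit 0, nat_lit 0, nat_lit 3687, nat_lit 0, nat_lit 0, nat_lit 0, nat_lit 0, nat_lit 0, nat_lit 0, nat_lit 0, nat_lit 0, nat_lit 0, nat_lit 0, nat_lit 400000, nat_lit 0, nat_lit 0, [(nat_lit 25, [(nat_lit 1, nat_lit 1000)]), (nat_lit 28, [(nat_lit 1, nat_lit 1000)])],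
 ⟨p112_k42, nat_lit 0, nat_lit 0, nat_lit 455, nat_lit 0, nat_lit 770932, [nat_lit 991360000, nat_lit 973440000], [], [nat_lit 24523102617, nat_lit 26222360159, nat_lit 26182739952, nat_lit 27771089707, nat_lit 25748548192, nat_lit 27182715527, nat_lit 27973982330, nat_lit 28418065961], nat_lit 1271250, nat_lit 1271250, nat_lit 719601, nat_lit 1758000, nat_lit 43600, nat_lit 1756600, [nat_lit 230000, nat_lit 1420000], [nat_lit 88, nat_lit 40, nat_lit 40, nat_lit 80, nat_lit 89, nat_lit 345, nat_lit 125, nat_lit 13]⟩, C1.Rw.none,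
 ⟨nat_lit 0, nat_lit 3163, ⟨.ofNat (nat_lit 401957), .ofNat (nat_lit 605128), .ofNat (nat_lit 443658), .ofNat (nat_lit 646918), .ofNat (nat_lit 431745), .ofNat (nat_lit 599865), .ofNat (nat_lit 479136), .ofNat (nat_lit 647345)⟩, ⟨.ofNat (nat_lit 20000), .ofNat (nat_lit 440207), .ofNat (nat_lit 20000), .ofNat (nat_lit 484518), .ofNat (nat_lit 20000), .ofNat (nat_lit 409993), .ofNat (nat_lit 20000), .ofNat (nat_lit 459993)⟩⟩, [⟨nat_lit 4, nat_lit 100, nat_lit 44, nat_lit 87, nat_lit 218676939⟩]⟩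
noncomputable def p112_l132 : Lf2 := ⟨nat_lit 0, nat_lit 20, [nat_lit 5, nat_lit 5, nat_lit 5, nat_lit 20], false, nat_lit 8, nat_lit 248, nat_lit 0, nat_lit 364, ⟨nat_lit 231, nat_lit 769, nat_lit 0, nat_lit 6, nat_lit 291, nat_lit 769, nat_lit 96, nat_lit 0, nat_lit 0, nat_lit 0, nat_lit 0, nat_lit 0, nat_lit 0, nat_lit 0, nat_lit 0, nat_lit 5000000, true, true⟩,
 nat_lit 4196, nat_lit 0, nat_lit 0, nat_lit 0, nat_lit 3654, nat_lit 2221, nat_lit 54, nat_lit 0, nat_lit 0, nat_lit 119, nat_lit 0, nat_lit 0, nat_lit 0, nat_lit 0, nat_lit 0, nat_lit 307600, nat_lit 0, nat_lit 0, [(nat_lit 25, [(nat_lit 1, nat_lit 769)])],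
 ⟨p112_k8, nat_lit 0, nat_lit 0, nat_lit 299, nat_lit 0, nat_lit 377310, [nat_lit 964146000, nat_lit 1842392400, nat_lit 2147538800], [], [nat_lit 26719455152, nat_lit 27647296474, nat_lit 31777327266, nat_lit 33038610023, nat_lit 27616119458, nat_lit 28322560372, nat_lit 30851995889, nat_lit 31410451910], nat_lit 1271250, nat_lit 1271250, nat_lit 1271250, nat_lit 1271250, nat_lit 43600, nat_lit 1756600, [nat_lit 230000, nat_lit 1100000, nat_lit 1442500], [nat_lit 55, nat_lit 40, nat_lit 40, nat_lit 80, nat_lit 3, nat_lit 289, nat_lit 75, nat_lit 10]⟩, ⟨p112_k9, nat_lit 0, nat_lit 0, nat_lit 642, nat_lit 0, nat_lit 716021, [nat_lit 1082928000, nat_lit 2273502000, nat_lit 3247398000], [], [nat_lit 9790000980, nat_lit 9921741208, nat_lit 10541897185, nat_lit 10661436142, nat_lit 9227583450, nat_lit 8431191542, nat_lit 8827743546, nat_lit 8879388477], nat_lit 1271250, nat_lit 1271250, nat_lit 1271250, nat_lit 1271250, nat_lit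 0, nat_lit 2570750, [nat_lit 1100000, nat_lit 2127500, nat_lit 1271250], [nat_lit 56, nat_lit 40, nat_lit 40, nat_lit 80, nat_lit 32, nat_lit 538, nat_lit 300, nat_lit 12]⟩,
 ⟨nat_lit 2236, nat_lit 3163, ⟨.ofNat (nat_lit 605240), .ofNat (nat_lit 812503), .ofNat (nat_lit 649422), .ofNat (nat_lit 856813), .ofNat (nat_lit 602541), .ofNat (nat_lit 796416), .ofNat (nat_lit 647962), .ofNat (nat_lit 841964)⟩, ⟨.ofNat (nat_lit 20000), .ofNat (nat_lit 440213), .ofNat (nat_lit 20000), .ofNat (nat_lit 484523), .ofNat (nat_lit 20000), .ofNat (nat_lit 431772), .ofNat (nat_lit 20000), .ofNat (nat_lit 477320)⟩⟩, [⟨nat_lit 13, nat_lit 55, nat_lit 68, nat_lit 100, nat_lit 179433765⟩, ⟨nat_lit 4, nat_lit 100, nat_lit 53, nat_lit 87, nat_lit 98838236⟩, ⟨nat_lit 19, nat_lit 100, nat_lit 77, nat_lit 91, nat_lit 22835157⟩]⟩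
noncomputable def p112_l133 : Lf2 := ⟨nat_lit 0, nat_lit 20, [nat_lit 5, nat_lit 5, nat_lit 5, nat_lit 20], true, nat_lit 20, nat_lit 208, nat_lit 0, nat_lit 364, ⟨nat_lit 0, nat_lit 1000, nat_lit 0, nat_lit 6, nat_lit 280, nat_lit 1000, nat_lit 88, nat_lit 0, nat_lit 0, nat_lit 0, nat_lit 0, nat_lit 0, nat_lit 0, nat_lit 0, nat_lit 0, nat_lit 5000000, true, true⟩,
 nat_lit 0, nat_lit 3033, nat_lit 0, nat_lit 0, nat_lit 2834, nat_lit 0, nat_lit 6, nat_lit 0, nat_lit 0, nat_lit 0, nat_lit 0, nat_lit 0, nat_lit 0, nat_lit 0, nat_lit 0, nat_lit 400000, nat_lit 0, nat_lit 0, [(nat_lit 28, [(nat_lit 1, nat_lit 1000)])],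
 ⟨p112_k37, nat_lit 0, nat_lit 0, nat_lit 401, nat_lit 0, nat_lit 701717, [nat_lit 697600000, nat_lit 324800000, nat_lit 138000000], [], [nat_lit 24605686075, nat_lit 25593674712, nat_lit 29067727504, nat_lit 30268358135, nat_lit 26099945254, nat_lit 26908861685, nat_lit 29121167484, nat_lit 29886566217], nat_lit 1271250, nat_lit 1271250, nat_lit 1271250, nat_lit 1271250, nat_lit 111251, nat_lit 1474250, [nat_lit 230000, nat_lit 780000, nat_lit 1435000], [nat_lit 20, nat_lit 40, nat_lit 40, nat_lit 80, nat_lit 16, nat_lit 272, nat_lit 60, nat_lit 9]⟩, C1.Rw.none,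
 ⟨nat_lit 0, nat_lit 2237, ⟨.ofNat (nat_lit 602531), .ofNat (nat_lit 762201), .ofNat (nat_lit 646249), .ofNat (nat_lit 807752), .ofNat (nat_lit 599967), .ofNat (nat_lit 739994), .ofNat (nat_lit 648136), .ofNat (nat_lit 789996)⟩, ⟨.ofNat (nat_lit 50000), .ofNat (nat_lit 374750), .ofNat (nat_lit 50000), .ofNat (nat_lit 420300), .ofNat (nat_lit 50000), .ofNat (nat_lit 359993), .ofNat (nat_lit 50000), .ofNat (nat_lit 409994)⟩⟩, [⟨nat_lit 13, nat_lit 48, nat_lit 71, nat_lit 100, nat_lit 435662478⟩, ⟨nat_lit 4, nat_lit 100, nat_lit 32, nat_lit 88, nat_lit 158342017⟩]⟩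
noncomputable def b_V_900_600_20_25 : St := ⟨true, nat_lit 1, nat_lit 2, nat_lit 2, nat_lit 120, nat_lit 360, nat_lit 400, nat_lit 240, nat_lit 280, nat_lit 112, nat_lit 376, nat_lit 80, nat_lit 120, nat_lit 8, nat_lit 248, nat_lit 0, nat_lit 364, nat_lit 40, nat_lit 80, nat_lit 0, nat_lit 0, nat_lit 0, nat_lit 0⟩
theorem d_V_900_600_20_25 (h : EB TB.env) : Dead b_V_900_600_20_25 := chkB_sound0 h (T :=
(.st (nat_lit 1)
(.spl (nat_lit 2) (nat_lit 240)
(.leaf p112_l128)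
(.spl (nat_lit 5) (nat_lit 160)
(.leaf p112_l129)
(.leaf p112_l130)))
(.spl (nat_lit 2) (nat_lit 240)
(.leaf p112_l131)
(.spl (nat_lit 0) (nat_lit 380)
(.leaf p112_l132)
(.trX (nat_lit 13) (nat_lit 48) (nat_lit 71) (nat_lit 100) (nat_lit 352) (.trZ (nat_lit 3) (nat_lit 100) (nat_lit 54) (nat_lit 57) (nat_lit 20) (.trX (nat_lit 16) (nat_lit 44) (nat_lit 100) (nat_lit 92) (nat_lit 208) (.leaf p112_l133)))))))) (by decide +kernel)

end B2
end Pool.Agent.Lib.MP_6947cd_al
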