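import Pool.Agent.Lib.MP_6947cd_al.ZB.Pre

/-!
Problem MP_6947cd_al (Chollet).  Case B, second entry in [2/5, 17/20]: certificates of the tree, part P113 (generated).
-/

set_option autoImplicit false
set_option linter.all false

namespace Pool.Agent.Lib.MP_6947cd_al
namespace B2

open Ent Fr B1 PkA

noncomputable def p113_k0 : C1.Kn := ⟨[nat_lit 20, nat_lit 120], [nat_lit 0, nat_lit 0], [(nat_lit 0, nat_lit 0, nat_lit 0), (nat_lit 0, nat_lit 0, nat_lit 0)], (nat_lit 60, nat_lit 100, nat_lit 87)⟩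
noncomputable def p113_k1 : C1.Kn := ⟨[nat_lit 80, nat_lit 180], [nat_lit 0, nat_lit 0], [(nat_lit 0, nat_lit 0, nat_lit 0), (nat_lit 0, nat_lit 0, nat_lit 0)], (nat_lit 100, nat_lit 68, nat_lit 88)⟩
noncomputable def p113_k2 : C1.Kn := ⟨[nat_lit 20, nat_lit 120], [nat_lit 0, nat_lit 0], [(nat_lit 0, nat_lit 0, nat_lit 0), (nat_lit 0, nat_lit 0, nat_lit 0)], (nat_lit 61, nat_lit 100, nat_lit 89)⟩
noncomputable def p113_k3 : C1.Kn := ⟨[nat_lit 80, nat_lit 180], [nat_lit 0, nat_lit 0], [(nat_lit 0, nat_lit 0, nat_lit 0), (nat_lit 0, nat_lit 0, nat_lit 0)], (nat_lit 100, nat_lit 66, nat_lit 90)⟩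
noncomputable def p113_k4 : C1.Kn := ⟨[nat_lit 20, nat_lit 80, nat_lit 120], [nat_lit 0, nat_lit 1046, nat_lit 4184], [(nat_lit 0, nat_lit 0, nat_lit 0), (nat_lit 1000, nat_lit 782, nat_lit 272), (nat_lit 1000, nat_lit 536, nat_lit 947)], (nat_lit 53, nat_lit 100, nat_lit 93)⟩
noncomputable def p113_k5 : C1.Kn := ⟨[nat_lit 80, nat_lit 140, nat_lit 200], [nat_lit 0, nat_lit 0, nat_lit 5481], [(nat_lit 0, nat_lit 0, nat_lit 0), (nat_lit 0, nat_lit 0, nat_lit 0), (nat_lit 637, nat_lit 1000, nat_lit 908)], (nat_lit 0, nat_lit 0, nat_lit 0)⟩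
noncomputable def p113_k6 : C1.Kn := ⟨[nat_lit 20, nat_lit 80, nat_lit 120], [nat_lit 0, nat_lit 2121, nat_lit 4818], [(nat_lit 0, nat_lit 0, nat_lit 0), (nat_lit 1000, nat_lit 558, nat_lit 551), (nat_lit 1000, nat_lit 443, nat_lit 981)], (nat_lit 44, nat_lit 100, nat_lit 92)⟩
noncomputable def p113_k7 : C1.Kn := ⟨[nat_lit 20, nat_lit 140], [nat_lit 0, nat_lit 0], [(nat_lit 0, nat_lit 0, nat_lit 0), (nat_lit 0, nat_lit 0, nat_lit 0)], (nat_lit 62, nat_lit 100, nat_lit 94)⟩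
noncomputable def p113_k8 : C1.Kn := ⟨[nat_lit 80, nat_lit 180], [nat_lit 0, nat_lit 1319], [(nat_lit 0, nat_lit 0, nat_lit 0), (nat_lit 1000, nat_lit 959, nat_lit 206)], (nat_lit 100, nat_lit 69, nat_lit 96)⟩
noncomputable def p113_k9 : C1.Kn := ⟨[nat_lit 20, nat_lit 80, nat_lit 140], [nat_lit 0, nat_lit 0, nat_lit 4928], [(nat_lit 0, nat_lit 0, nat_lit 0), (nat_lit 0, nat_lit 0, nat_lit 0), (nat_lit 950, nat_lit 618, nat_lit 1000)], (nat_lit 62, nat_lit 100, nat_lit 94)⟩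
noncomputable def p113_k10 : C1.Kn := ⟨[nat_lit 20, nat_lit 120], [nat_lit 0, nat_lit 1743], [(nat_lit 0, nat_lit 0, nat_lit 0), (nat_lit 1000, nat_lit 782, nat_lit 272)], (nat_lit 53, nat_lit 100, nat_lit 93)⟩
noncomputable def p113_k11 : C1.Kn := ⟨[nat_lit 20, nat_lit 80, nat_lit 120], [nat_lit 0, nat_lit 508, nat_lit 3912], [(nat_lit 0, nat_lit 0, nat_lit 0), (nat_lit 1000, nat_lit 894, nat_lit 132), (nat_lit 1000, nat_lit 576, nat_lit 936)], (nat_lit 58, nat_lit 100, nat_lit 93)⟩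
noncomputable def p113_k12 : C1.Kn := ⟨[nat_lit 20, nat_lit 60, nat_lit 120], [nat_lit 0, nat_lit 698, nat_lit 4166], [(nat_lit 0, nat_lit 0, nat_lit 0), (nat_lit 1000, nat_lit 782, nat_lit 272), (nat_lit 1000, nat_lit 529, nat_lit 902)], (nat_lit 53, nat_lit 100, nat_lit 93)⟩
noncomputable def p113_k13 : C1.Kn := ⟨[nat_lit 80, nat_lit 120, nat_lit 180], [nat_lit 0, nat_lit 264, nat_lit 3394], [(nat_lit 0, nat_lit 0, nat_lit 0), (nat_lit 1000, nat_lit 979, nat_lit 103), (nat_lit 893, nat_lit 1000, nat_lit 726)], (nat_lit 100, nat_lit 64, nat_lit 95)⟩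
noncomputable def p113_k14 : C1.Kn := ⟨[nat_lit 20, nat_lit 60, nat_lit 140], [nat_lit 0, nat_lit 0, nat_lit 4874], [(nat_lit 0, nat_lit 0, nat_lit 0), (nat_lit 0, nat_lit 0, nat_lit 0), (nat_lit 1000, nat_lit 619, nat_lit 951)], (nat_lit 62, nat_lit 100, nat_lit 94)⟩
noncomputable def p113_k15 : C1.Kn := ⟨[nat_lit 80, nat_lit 120, nat_lit 180], [nat_lit 0, nat_lit 528, nat_lit 3600], [(nat_lit 0, nat_lit 0, nat_lit 0), (nat_lit 1000, nat_lit 959, nat_lit 206), (nat_lit 929, nat_lit 1000, nat_lit 742)], (nat_lit 100, nat_lit 69, nat_lit 96)⟩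
noncomputable def p113_k16 : C1.Kn := ⟨[nat_lit 20, nat_lit 60, nat_lit 120], [nat_lit 0, nat_lit 0, nat_lit 3661], [(nat_lit 0, nat_lit 0, nat_lit 0), (nat_lit 0, nat_lit 0, nat_lit 0), (nat_lit 1000, nat_lit 611, nat_lit 913)], (nat_lit 60, nat_lit 100, nat_lit 87)⟩
noncomputable def p113_k17 : C1.Kn := ⟨[nat_lit 80, nat_lit 120, nat_lit 180], [nat_lit 0, nat_lit 528, nat_lit 3600], [(nat_lit 0, nat_lit 0, nat_lit 0), (nat_lit 1000, nat_lit 959, nat_lit 206), (nat_lit 929, nat_lit 1000, nat_lit 742)], (nat_lit 100, nat_lit 77, nat_lit 91)⟩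
noncomputable def p113_k18 : C1.Kn := ⟨[nat_lit 20, nat_lit 60, nat_lit 120], [nat_lit 0, nat_lit 698, nat_lit 4166], [(nat_lit 0, nat_lit 0, nat_lit 0), (nat_lit 1000, nat_lit 782, nat_lit 272), (nat_lit 1000, nat_lit 529, nat_lit 902)], (nat_lit 53, nat_lit 100, nat_lit 87)⟩
noncomputable def p113_k19 : C1.Kn := ⟨[nat_lit 20, nat_lit 80, nat_lit 120], [nat_lit 0, nat_lit 0, nat_lit 3661], [(nat_lit 0, nat_lit 0, nat_lit 0), (nat_lit 0, nat_lit 0, nat_lit 0), (nat_lit 1000, nat_lit 611, nat_lit 913)], (nat_lit 61, nat_lit 100, nat_lit 90)⟩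
noncomputable def p113_k20 : C1.Kn := ⟨[nat_lit 80, nat_lit 140, nat_lit 180], [nat_lit 0, nat_lit 792, nat_lit 4228], [(nat_lit 0, nat_lit 0, nat_lit 0), (nat_lit 1000, nat_lit 959, nat_lit 206), (nat_lit 709, nat_lit 1000, nat_lit 949)], (nat_lit 100, nat_lit 74, nat_lit 93)⟩
noncomputable def p113_k21 : C1.Kn := ⟨[nat_lit 80, nat_lit 140, nat_lit 180], [nat_lit 0, nat_lit 792, nat_lit 4228], [(nat_lit 0, nat_lit 0, nat_lit 0), (nat_lit 1000, nat_lit 959, nat_lit 206), (nat_lit 709, nat_lit 1000, nat_lit 949)], (nat_lit 100, nat_lit 69, nat_lit 96)⟩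
noncomputable def p113_k22 : C1.Kn := ⟨[nat_lit 20, nat_lit 120], [nat_lit 0, nat_lit 3531], [(nat_lit 0, nat_lit 0, nat_lit 0), (nat_lit 1000, nat_lit 558, nat_lit 551)], (nat_lit 44, nat_lit 100, nat_lit 92)⟩
noncomputable def p113_k23 : C1.Kn := ⟨[nat_lit 80, nat_lit 140, nat_lit 180], [nat_lit 0, nat_lit 395, nat_lit 3941], [(nat_lit 0, nat_lit 0, nat_lit 0), (nat_lit 1000, nat_lit 979, nat_lit 103), (nat_lit 672, nat_lit 1000, nat_lit 927)], (nat_lit 100, nat_lit 64, nat_lit 95)⟩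
noncomputable def p113_k24 : C1.Kn := ⟨[nat_lit 20, nat_lit 80, nat_lit 100], [nat_lit 0, nat_lit 3199, nat_lit 4400], [(nat_lit 0, nat_lit 0, nat_lit 0), (nat_lit 1000, nat_lit 333, nat_lit 833), (nat_lit 1000, nat_lit 312, nat_lit 938)], (nat_lit 31, nat_lit 100, nat_lit 92)⟩
noncomputable def p113_k25 : C1.Kn := ⟨[nat_lit 20, nat_lit 80, nat_lit 100], [nat_lit 0, nat_lit 2121, nat_lit 3610], [(nat_lit 0, nat_lit 0, nat_lit 0), (nat_lit 1000, nat_lit 558, nat_lit 551), (nat_lit 1000, nat_lit 436, nat_lit 895)], (nat_lit 44, nat_lit 100, nat_lit 87)⟩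
noncomputable def p113_k26 : C1.Kn := ⟨[nat_lit 80, nat_lit 140, nat_lit 180], [nat_lit 0, nat_lit 792, nat_lit 4228], [(nat_lit 0, nat_lit 0, nat_lit 0), (nat_lit 1000, nat_lit 959, nat_lit 206), (nat_lit 709, nat_lit 1000, nat_lit 949)], (nat_lit 100, nat_lit 77, nat_lit 91)⟩
noncomputable def p113_k27 : C1.Kn := ⟨[nat_lit 20, nat_lit 60, nat_lit 120], [nat_lit 0, nat_lit 1415, nat_lit 4677], [(nat_lit 0, nat_lit 0, nat_lit 0), (nat_lit 1000, nat_lit 558, nat_lit 551), (nat_lit 1000, nat_lit 439, nat_lit 849)], (nat_lit 44, nat_lit 100, nat_lit 92)⟩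
noncomputable def p113_k28 : C1.Kn := ⟨[nat_lit 80, nat_lit 120, nat_lit 180], [nat_lit 0, nat_lit 796, nat_lit 3804], [(nat_lit 0, nat_lit 0, nat_lit 0), (nat_lit 1000, nat_lit 938, nat_lit 310), (nat_lit 969, nat_lit 1000, nat_lit 759)], (nat_lit 100, nat_lit 74, nat_lit 98)⟩
noncomputable def p113_k29 : C1.Kn := ⟨[nat_lit 20, nat_lit 60, nat_lit 100], [nat_lit 0, nat_lit 1776, nat_lit 3880], [(nat_lit 0, nat_lit 0, nat_lit 0), (nat_lit 1000, nat_lit 445, nat_lit 693), (nat_lit 1000, nat_lit 394, nat_lit 822)], (nat_lit 38, nat_lit 100, nat_lit 92)⟩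
noncomputable def p113_k30 : C1.Kn := ⟨[nat_lit 20, nat_lit 60, nat_lit 100], [nat_lit 0, nat_lit 2136, nat_lit 4235], [(nat_lit 0, nat_lit 0, nat_lit 0), (nat_lit 1000, nat_lit 343, nat_lit 808), (nat_lit 1000, nat_lit 338, nat_lit 820)], (nat_lit 31, nat_lit 100, nat_lit 92)⟩
noncomputable def p113_k31 : C1.Kn := ⟨[nat_lit 20, nat_lit 100], [nat_lit 0, nat_lit 3550], [(nat_lit 0, nat_lit 0, nat_lit 0), (nat_lit 1000, nat_lit 445, nat_lit 693)], (nat_lit 38, nat_lit 100, nat_lit 92)⟩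
noncomputable def p113_k32 : C1.Kn := ⟨[nat_lit 20, nat_lit 100], [nat_lit 0, nat_lit 4265], [(nat_lit 0, nat_lit 0, nat_lit 0), (nat_lit 1000, nat_lit 333, nat_lit 833)], (nat_lit 31, nat_lit 100, nat_lit 92)⟩
noncomputable def p113_k33 : C1.Kn := ⟨[nat_lit 80, nat_lit 120, nat_lit 200], [nat_lit 0, nat_lit 0, nat_lit 4259], [(nat_lit 0, nat_lit 0, nat_lit 0), (nat_lit 0, nat_lit 0, nat_lit 0), (nat_lit 858, nat_lit 1000, nat_lit 713)], (nat_lit 0, nat_lit 0, nat_lit 0)⟩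
noncomputable def p113_k34 : C1.Kn := ⟨[nat_lit 20, nat_lit 60, nat_lit 120], [nat_lit 0, nat_lit 339, nat_lit 3911], [(nat_lit 0, nat_lit 0, nat_lit 0), (nat_lit 1000, nat_lit 894, nat_lit 132), (nat_lit 1000, nat_lit 574, nat_lit 928)], (nat_lit 57, nat_lit 100, nat_lit 87)⟩
noncomputable def p113_k35 : C1.Kn := ⟨[nat_lit 80, nat_lit 120, nat_lit 180], [nat_lit 0, nat_lit 0, nat_lit 3196], [(nat_lit 0, nat_lit 0, nat_lit 0), (nat_lit 0, nat_lit 0, nat_lit 0), (nat_lit 858, nat_lit 1000, nat_lit 713)], (nat_lit 100, nat_lit 68, nat_lit 88)⟩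
noncomputable def p113_k36 : C1.Kn := ⟨[nat_lit 20, nat_lit 60, nat_lit 100], [nat_lit 0, nat_lit 1056, nat_lit 3301], [(nat_lit 0, nat_lit 0, nat_lit 0), (nat_lit 1000, nat_lit 671, nat_lit 411), (nat_lit 1000, nat_lit 484, nat_lit 867)], (nat_lit 48, nat_lit 100, nat_lit 87)⟩
noncomputable def p113_k37 : C1.Kn := ⟨[nat_lit 80, nat_lit 120, nat_lit 180], [nat_lit 0, nat_lit 264, nat_lit 3394], [(nat_lit 0, nat_lit 0, nat_lit 0), (nat_lit 1000, nat_lit 979, nat_lit 103), (nat_lit 893, nat_lit 1000, nat_lit 726)], (nat_lit 100, nat_lit 72, nat_lit 89)⟩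
noncomputable def p113_k38 : C1.Kn := ⟨[nat_lit 20, nat_lit 60, nat_lit 100], [nat_lit 0, nat_lit 1273, nat_lit 3475], [(nat_lit 0, nat_lit 0, nat_lit 0), (nat_lit 1000, nat_lit 603, nat_lit 496), (nat_lit 1000, nat_lit 457, nat_lit 859)], (nat_lit 46, nat_lit 100, nat_lit 87)⟩
noncomputable def p113_k39 : C1.Kn := ⟨[nat_lit 20, nat_lit 60, nat_lit 120], [nat_lit 0, nat_lit 339, nat_lit 3911], [(nat_lit 0, nat_lit 0, nat_lit 0), (nat_lit 1000, nat_lit 894, nat_lit 132), (nat_lit 1000, nat_lit 574, nat_lit 928)], (nat_lit 58, nat_lit 100, nat_lit 93)⟩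
noncomputable def p113_k40 : C1.Kn := ⟨[nat_lit 20, nat_lit 60, nat_lit 120], [nat_lit 0, nat_lit 1056, nat_lit 4422], [(nat_lit 0, nat_lit 0, nat_lit 0), (nat_lit 1000, nat_lit 671, nat_lit 411), (nat_lit 1000, nat_lit 484, nat_lit 876)], (nat_lit 49, nat_lit 100, nat_lit 92)⟩
noncomputable def p113_k41 : C1.Kn := ⟨[nat_lit 80, nat_lit 120, nat_lit 180], [nat_lit 0, nat_lit 796, nat_lit 3804], [(nat_lit 0, nat_lit 0, nat_lit 0), (nat_lit 1000, nat_lit 938, nat_lit 310), (nat_lit 969, nat_lit 1000, nat_lit 759)], (nat_lit 100, nat_lit 82, nat_lit 92)⟩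
noncomputable def p113_k42 : C1.Kn := ⟨[nat_lit 20, nat_lit 80, nat_lit 120], [nat_lit 0, nat_lit 1046, nat_lit 4184], [(nat_lit 0, nat_lit 0, nat_lit 0), (nat_lit 1000, nat_lit 782, nat_lit 272), (nat_lit 1000, nat_lit 536, nat_lit 947)], (nat_lit 53, nat_lit 100, nat_lit 87)⟩
noncomputable def p113_k43 : C1.Kn := ⟨[nat_lit 20, nat_lit 60, nat_lit 120], [nat_lit 0, nat_lit 0, nat_lit 3661], [(nat_lit 0, nat_lit 0, nat_lit 0), (nat_lit 0, nat_lit 0, nat_lit 0), (nat_lit 1000, nat_lit 611, nat_lit 913)], (nat_lit 61, nat_lit 100, nat_lit 89)⟩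
noncomputable def p113_k44 : C1.Kn := ⟨[nat_lit 80, nat_lit 120, nat_lit 180], [nat_lit 0, nat_lit 0, nat_lit 3196], [(nat_lit 0, nat_lit 0, nat_lit 0), (nat_lit 0, nat_lit 0, nat_lit 0), (nat_lit 858, nat_lit 1000, nat_lit 713)], (nat_lit 100, nat_lit 66, nat_lit 90)⟩
noncomputable def p113_k45 : C1.Kn := ⟨[nat_lit 80, nat_lit 140, nat_lit 180], [nat_lit 0, nat_lit 592, nat_lit 4084], [(nat_lit 0, nat_lit 0, nat_lit 0), (nat_lit 1000, nat_lit 969, nat_lit 154), (nat_lit 690, nat_lit 1000, nat_lit 938)], (nat_lit 100, nat_lit 66, nat_lit 95)⟩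
noncomputable def p113_k46 : C1.Kn := ⟨[nat_lit 80, nat_lit 120, nat_lit 180], [nat_lit 0, nat_lit 395, nat_lit 3498], [(nat_lit 0, nat_lit 0, nat_lit 0), (nat_lit 1000, nat_lit 969, nat_lit 154), (nat_lit 910, nat_lit 1000, nat_lit 734)], (nat_lit 100, nat_lit 75, nat_lit 90)⟩
noncomputable def p113_k47 : C1.Kn := ⟨[nat_lit 20, nat_lit 80, nat_lit 120], [nat_lit 0, nat_lit 1582, nat_lit 4484], [(nat_lit 0, nat_lit 0, nat_lit 0), (nat_lit 1000, nat_lit 671, nat_lit 411), (nat_lit 1000, nat_lit 493, nat_lit 968)], (nat_lit 49, nat_lit 100, nat_lit 92)⟩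
noncomputable def p113_k48 : C1.Kn := ⟨[nat_lit 80, nat_lit 120, nat_lit 180], [nat_lit 0, nat_lit 664, nat_lit 3698], [(nat_lit 0, nat_lit 0, nat_lit 0), (nat_lit 1000, nat_lit 948, nat_lit 259), (nat_lit 949, nat_lit 1000, nat_lit 749)], (nat_lit 100, nat_lit 80, nat_lit 92)⟩
noncomputable def p113_k49 : C1.Kn := ⟨[nat_lit 80, nat_lit 120, nat_lit 180], [nat_lit 0, nat_lit 929, nat_lit 3903], [(nat_lit 0, nat_lit 0, nat_lit 0), (nat_lit 1000, nat_lit 927, nat_lit 362), (nat_lit 991, nat_lit 1000, nat_lit 767)], (nat_lit 100, nat_lit 85, nat_lit 93)⟩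
noncomputable def p113_l0 : Lf2 := ⟨nat_lit 0, nat_lit 25, [nat_lit 44, nat_lit 5, nat_lit 5, nat_lit 20], false, nat_lit 8, nat_lit 80, nat_lit 0, nat_lit 352, ⟨nat_lit 133, nat_lit 0, nat_lit 867, nat_lit 6, nat_lit 208, nat_lit 867, nat_lit 43, nat_lit 867, nat_lit 17067, nat_lit 247, nat_lit 2400, nat_lit 203, nat_lit 51547894, nat_lit 0, nat_lit 0, nat_lit 3124247, false, false⟩,
 nat_lit 0, nat_lit 0, nat_lit 0, nat_lit 5590, nat_lit 2977, nat_lit 2593, nat_lit 0, nat_lit 0, nat_lit 0, nat_lit 0, nat_lit 0, nat_lit 0, nat_lit 0, nat_lit 0, nat_lit 49, nat_lit 216750, nat_lit 0, nat_lit 0, [(nat_lit 26, [(nat_lit 4, nat_lit 867)])],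
 ⟨p113_k0, nat_lit 0, nat_lit 0, nat_lit 176, nat_lit 0, nat_lit 0, [nat_lit 1276188000, nat_lit 5473200], [], [nat_lit 20438187353, nat_lit 20984417202, nat_lit 23031469347, nat_lit 23652957442, nat_lit 19614078059, nat_lit 20170413913, nat_lit 22234849164, nat_lit 22777536219], nat_lit 0, nat_lit 0, nat_lit 0, nat_lit 0, nat_lit 0, nat_lit 0, [], [nat_lit 141, nat_lit 40, nat_lit 40, nat_lit 80, nat_lit 142, nat_lit 317, nat_lit 100, nat_lit 10]⟩, ⟨p113_k1, nat_lit 0, nat_lit 0, nat_lit 236, nat_lit 0, nat_lit 0, [nat_lit 623504000, nat_lit 1869714000], [], [nat_lit 6342042031, nat_lit 6636153559, nat_lit 6321632376, nat_lit 6527522200, nat_lit 5310403221, nat_lit 5401021928, nat_lit 4665175510, nat_lit 4710151666], nat_lit 0, nat_lit 0, nat_lit 0, nat_lit 0, nat_lit 0, nat_lit 0, [], [nat_lit 145, nat_lit 40, nat_lit 40, nat_lit 80, nat_lit 144, nat_lit 456, nat_lit 225, nat_lit 11]⟩,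
 ⟨nat_lit 2738, nat_lit 3163, ⟨.ofNat (nat_lit 410148), .ofNat (nat_lit 605257), .ofNat (nat_lit 432290), .ofNat (nat_lit 627400), .ofNat (nat_lit 414835), .ofNat (nat_lit 603890), .ofNat (nat_lit 437240), .ofNat (nat_lit 626295)⟩, ⟨.ofNat (nat_lit 20000), .ofNat (nat_lit 184209), .ofNat (nat_lit 20000), .ofNat (nat_lit 200000), .ofNat (nat_lit 20000), .ofNat (nat_lit 188310), .ofNat (nat_lit 20000), .ofNat (nat_lit 200000)⟩⟩, [⟨nat_lit 3, nat_lit 100, nat_lit 61, nat_lit 55, nat_lit 221710038⟩]⟩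
noncomputable def p113_l1 : Lf2 := ⟨nat_lit 0, nat_lit 26, [nat_lit 108, nat_lit 5, nat_lit 5, nat_lit 20], false, nat_lit 16, nat_lit 80, nat_lit 0, nat_lit 364, ⟨nat_lit 129, nat_lit 0, nat_lit 871, nat_lit 6, nat_lit 208, nat_lit 871, nat_lit 48, nat_lit 871, nat_lit 21600, nat_lit 251, nat_lit 2400, nat_lit 203, nat_lit 51316207, nat_lit 0, nat_lit 0, nat_lit 3202290, false, false⟩,
 nat_lit 0, nat_lit 0, nat_lit 0, nat_lit 6532, nat_lit 2990, nat_lit 2550, nat_lit 0, nat_lit 0, nat_lit 0, nat_lit 0, nat_lit 0, nat_lit 0, nat_lit 0, nat_lit 0, nat_lit 51, nat_lit 217750, nat_lit 0, nat_lit 0, [(nat_lit 26, [(nat_lit 4, nat_lit 871)])],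
 ⟨p113_k2, nat_lit 0, nat_lit 0, nat_lit 164, nat_lit 0, nat_lit 0, [nat_lit 1284844000, nat_lit 11311600], [], [nat_lit 20249421074, nat_lit 20826797232, nat_lit 22889349337, nat_lit 23483876801, nat_lit 19509508409, nat_lit 20112060041, nat_lit 22173896280, nat_lit 22717587130], nat_lit 0, nat_lit 0, nat_lit 0, nat_lit 0, nat_lit 0, nat_lit 0, [], [nat_lit 141, nat_lit 40, nat_lit 40, nat_lit 80, nat_lit 142, nat_lit 317, nat_lit 100, nat_lit 10]⟩, ⟨p113_k3, nat_lit 0, nat_lit 0, nat_lit 236, nat_lit 0, nat_lit 0, [nat_lit 604752000, nat_lit 1813482000], [], [nat_lit 6177530612, nat_lit 6465665951, nat_lit 6151771944, nat_lit 6353248998, nat_lit 5339043521, nat_lit 5416699886, nat_lit 4653459474, nat_lit 4688413694], nat_lit 0, nat_lit 0, nat_lit 0, nat_lit 0, nat_lit 0, nat_lit 0, [], [nat_lit 145, nat_lit 40, nat_lit 40, nat_lit 80, nat_lit 144, nat_lit 456, nat_lit 225, nat_lit 11]⟩,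
 ⟨nat_lit 2738, nat_lit 3163, ⟨.ofNat (nat_lit 410148), .ofNat (nat_lit 605257), .ofNat (nat_lit 432290), .ofNat (nat_lit 627400), .ofNat (nat_lit 414835), .ofNat (nat_lit 603890), .ofNat (nat_lit 437240), .ofNat (nat_lit 626295)⟩, ⟨.ofNat (nat_lit 40000), .ofNat (nat_lit 200000), .ofNat (nat_lit 40000), .ofNat (nat_lit 200000), .ofNat (nat_lit 40000), .ofNat (nat_lit 200000), .ofNat (nat_lit 40000), .ofNat (nat_lit 200000)⟩⟩, [⟨nat_lit 3, nat_lit 100, nat_lit 57, nat_lit 62, nat_lit 255800431⟩, ⟨nat_lit 22, nat_lit 100, nat_lit 68, nat_lit 65, nat_lit 3693828⟩]⟩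
noncomputable def p113_l2 : Lf2 := ⟨nat_lit 1, nat_lit 30, [nat_lit 15, nat_lit 5, nat_lit 5, nat_lit 20], false, nat_lit 16, nat_lit 80, nat_lit 0, nat_lit 364, zbN0,
 nat_lit 0, nat_lit 0, nat_lit 0, nat_lit 0, nat_lit 0, nat_lit 0, nat_lit 0, nat_lit 0, nat_lit 0, nat_lit 0, nat_lit 0, nat_lit 0, nat_lit 0, nat_lit 0, nat_lit 0, nat_lit 0, nat_lit 0, nat_lit 0, [],
 C1.Rw.none, C1.Rw.none,
 zbF0, []⟩
noncomputable def p113_l3 : Lf2 := ⟨nat_lit 0, nat_lit 30, [nat_lit 15, nat_lit 5, nat_lit 5, nat_lit 20], false, nat_lit 12, nat_lit 80, nat_lit 0, nat_lit 364, ⟨nat_lit 158, nat_lit 0, nat_lit 842, nat_lit 6, nat_lit 213, nat_lit 842, nat_lit 45, nat_lit 842, nat_lit 19267, nat_lit 249, nat_lit 6376, nat_lit 204, nat_lit 50881614, nat_lit 0, nat_lit 0, nat_lit 3212510, false, false⟩,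
 nat_lit 0, nat_lit 0, nat_lit 0, nat_lit 6933, nat_lit 2550, nat_lit 1912, nat_lit 22, nat_lit 0, nat_lit 0, nat_lit 124, nat_lit 0, nat_lit 0, nat_lit 0, nat_lit 0, nat_lit 38, nat_lit 210500, nat_lit 0, nat_lit 0, [(nat_lit 26, [(nat_lit 4, nat_lit 842)])],
 ⟨p113_k4, nat_lit 0, nat_lit 0, nat_lit 172, nat_lit 0, nat_lit 0, [nat_lit 953259200, nat_lit 482117601, nat_lit 4983200], [], [nat_lit 20424058368, nat_lit 21091612158, nat_lit 22921869301, nat_lit 23469426336, nat_lit 19834588680, nat_lit 20447533601, nat_lit 22302003400, nat_lit 22823569400], nat_lit 0, nat_lit 0, nat_lit 0, nat_lit 0, nat_lit 0, nat_lit 0, [], [nat_lit 57, nat_lit 40, nat_lit 40, nat_lit 80, nat_lit 7, nat_lit 317, nat_lit 100, nat_lit 10]⟩, ⟨p113_k5, nat_lit 0, nat_lit 0, nat_lit 423, nat_lit 0, nat_lit 0, [nat_lit 740704000, nat_lit 1555036000, nat_lit 2591200000], [], [nat_lit 5952866694, nat_lit 6143438250, nat_lit 5985639164, nat_lit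 6126335872, nat_lit 5228730059, nat_lit 5285784607, nat_lit 4876052999, nat_lit 4915024766], nat_lit 0, nat_lit 0, nat_lit 0, nat_lit 0, nat_lit 0, nat_lit 0, [], [nat_lit 83, nat_lit 40, nat_lit 40, nat_lit 80, nat_lit 73, nat_lit 456, nat_lit 225, nat_lit 10]⟩,
 ⟨nat_lit 2236, nat_lit 2739, ⟨.ofNat (nat_lit 438420), .ofNat (nat_lit 603890), .ofNat (nat_lit 460818), .ofNat (nat_lit 626287), .ofNat (nat_lit 442816), .ofNat (nat_lit 602558), .ofNat (nat_lit 465571), .ofNat (nat_lit 625312)⟩, ⟨.ofNat (nat_lit 30000), .ofNat (nat_lit 188310), .ofNat (nat_lit 30000), .ofNat (nat_lit 200000), .ofNat (nat_lit 30000), .ofNat (nat_lit 192306), .ofNat (nat_lit 30000), .ofNat (nat_lit 200000)⟩⟩, [⟨nat_lit 3, nat_lit 100, nat_lit 56, nat_lit 60, nat_lit 188377320⟩, ⟨nat_lit 22, nat_lit 100, nat_lit 72, nat_lit 64, nat_lit 22397025⟩]⟩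
noncomputable def p113_l4 : Lf2 := ⟨nat_lit 0, nat_lit 30, [nat_lit 15, nat_lit 5, nat_lit 5, nat_lit 20], false, nat_lit 20, nat_lit 80, nat_lit 0, nat_lit 364, ⟨nat_lit 171, nat_lit 0, nat_lit 829, nat_lit 6, nat_lit 220, nat_lit 829, nat_lit 50, nat_lit 829, nat_lit 22817, nat_lit 252, nat_lit 2526, nat_lit 204, nat_lit 50024177, nat_lit 0, nat_lit 0, nat_lit 3338021, false, false⟩,
 nat_lit 0, nat_lit 0, nat_lit 0, nat_lit 5660, nat_lit 2423, nat_lit 2062, nat_lit 0, nat_lit 0, nat_lit 0, nat_lit 134, nat_lit 0, nat_lit 0, nat_lit 0, nat_lit 0, nat_lit 61, nat_lit 207250, nat_lit 0, nat_lit 0, [(nat_lit 29, [(nat_lit 4, nat_lit 829)])],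
 ⟨p113_k6, nat_lit 0, nat_lit 0, nat_lit 175, nat_lit 0, nat_lit 0, [nat_lit 1035764401, nat_lit 285779601, nat_lit 291777600], [], [nat_lit 21344463237, nat_lit 22566846559, nat_lit 23453376529, nat_lit 24519414497, nat_lit 20875843612, nat_lit 22046027609, nat_lit 22956605350, nat_lit 23979508790], nat_lit 0, nat_lit 0, nat_lit 0, nat_lit 0, nat_lit 0, nat_lit 0, [], [nat_lit 57, nat_lit 40, nat_lit 40, nat_lit 80, nat_lit 7, nat_lit 317, nat_lit 100, nat_lit 10]⟩, ⟨p113_k5, nat_lit 0, nat_lit 0, nat_lit 414, nat_lit 0, nat_lit 0, [nat_lit 801648000, nat_lit 1682982000, nat_lit 2804400000], [], [nat_lit 6347574818, nat_lit 6545878205, nat_lit 6474720830, nat_lit 6626774824, nat_lit 5527956427, nat_lit 5585791034, nat_lit 5282550570, nat_lit 5319240877], nat_lit 0, nat_lit 0, nat_lit 0, nat_lit 0, nat_lit 0, nat_lit 0, [], [nat_lit 83, nat_lit 40, nat_lit 40, nat_lit 80, nat_lit 73, nat_lit 456, nat_lit 225, nat_lit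 10]⟩,
 ⟨nat_lit 0, nat_lit 2237, ⟨.ofNat (nat_lit 467180), .ofNat (nat_lit 602531), .ofNat (nat_lit 489028), .ofNat (nat_lit 624400), .ofNat (nat_lit 480752), .ofNat (nat_lit 599967), .ofNat (nat_lit 504825), .ofNat (nat_lit 624062)⟩, ⟨.ofNat (nat_lit 50000), .ofNat (nat_lit 192306), .ofNat (nat_lit 50000), .ofNat (nat_lit 200000), .ofNat (nat_lit 50000), .ofNat (nat_lit 199999), .ofNat (nat_lit 50000), .ofNat (nat_lit 200000)⟩⟩, [⟨nat_lit 3, nat_lit 100, nat_lit 36, nat_lit 77, nat_lit 295904660⟩, ⟨nat_lit 22, nat_lit 100, nat_lit 73, nat_lit 66, nat_lit 23428325⟩]⟩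
noncomputable def p113_l5 : Lf2 := ⟨nat_lit 0, nat_lit 30, [nat_lit 15, nat_lit 5, nat_lit 5, nat_lit 20], false, nat_lit 8, nat_lit 80, nat_lit 0, nat_lit 160, ⟨nat_lit 563, nat_lit 0, nat_lit 437, nat_lit 6, nat_lit 223, nat_lit 437, nat_lit 43, nat_lit 437, nat_lit 17067, nat_lit 247, nat_lit 23440, nat_lit 200, nat_lit 49935015, nat_lit 0, nat_lit 0, nat_lit 3277318, false, false⟩,
 nat_lit 0, nat_lit 0, nat_lit 0, nat_lit 8441, nat_lit 4366, nat_lit 3703, nat_lit 0, nat_lit 0, nat_lit 0, nat_lit 0, nat_lit 0, nat_lit 0, nat_lit 0, nat_lit 0, nat_lit 15, nat_lit 437000, nat_lit 0, nat_lit 0, [(nat_lit 26, [(nat_lit 6, nat_lit 437)]), (nat_lit 29, [(nat_lit 6, nat_lit 437)])],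
 ⟨p113_k7, nat_lit 0, nat_lit 0, nat_lit 249, nat_lit 0, nat_lit 0, [nat_lit 1458947601, nat_lit 1121708000], [], [nat_lit 25975941023, nat_lit 28196133075, nat_lit 27227928984, nat_lit 29402426320, nat_lit 24227556766, nat_lit 26247404723, nat_lit 25503414258, nat_lit 27223935066], nat_lit 0, nat_lit 0, nat_lit 0, nat_lit 0, nat_lit 0, nat_lit 0, [], [nat_lit 132, nat_lit 40, nat_lit 40, nat_lit 80, nat_lit 133, nat_lit 317, nat_lit 100, nat_lit 9]⟩, ⟨p113_k8, nat_lit 0, nat_lit 0, nat_lit 235, nat_lit 0, nat_lit 0, [nat_lit 2639344000, nat_lit 7914654000], [], [nat_lit 21959591853, nat_lit 22590419697, nat_lit 23048742440, nat_lit 23550352264, nat_lit 19500793870, nat_lit 19956831114, nat_lit 20312349692, nat_lit 20672684924], nat_lit 0, nat_lit 0, nat_lit 0, nat_lit 0, nat_lit 0, nat_lit 0, [], [nat_lit 145, nat_lit 40, nat_lit 40, nat_lit 80, nat_lit 144, nat_lit 401, nat_lit 175, nat_lit 9]⟩,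
 ⟨nat_lit 0, nat_lit 3163, ⟨.ofNat (nat_lit 454567), .ofNat (nat_lit 626068), .ofNat (nat_lit 475417), .ofNat (nat_lit 646918), .ofNat (nat_lit 481723), .ofNat (nat_lit 623650), .ofNat (nat_lit 505418), .ofNat (nat_lit 647345)⟩, ⟨.ofNat (nat_lit 20000), .ofNat (nat_lit 184209), .ofNat (nat_lit 20000), .ofNat (nat_lit 200000), .ofNat (nat_lit 20000), .ofNat (nat_lit 199999), .ofNat (nat_lit 20000), .ofNat (nat_lit 200000)⟩⟩, [⟨nat_lit 0, nat_lit 94, nat_lit 44, nat_lit 100, nat_lit 197414028⟩, ⟨nat_lit 0, nat_lit 100, nat_lit 63, nat_lit 99, nat_lit 155664260⟩, ⟨nat_lit 3, nat_lit 100, nat_lit 75, nat_lit 35, nat_lit 124007582⟩]⟩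
noncomputable def p113_l6 : Lf2 := ⟨nat_lit 0, nat_lit 30, [nat_lit 15, nat_lit 5, nat_lit 5, nat_lit 20], false, nat_lit 8, nat_lit 80, nat_lit 160, nat_lit 352, ⟨nat_lit 579, nat_lit 0, nat_lit 421, nat_lit 6, nat_lit 223, nat_lit 421, nat_lit 43, nat_lit 421, nat_lit 17067, nat_lit 247, nat_lit 23440, nat_lit 200, nat_lit 49935015, nat_lit 0, nat_lit 0, nat_lit 3277318, false, false⟩,
 nat_lit 0, nat_lit 0, nat_lit 0, nat_lit 12537, nat_lit 4595, nat_lit 3726, nat_lit 0, nat_lit 0, nat_lit 0, nat_lit 0, nat_lit 0, nat_lit 0, nat_lit 0, nat_lit 0, nat_lit 3, nat_lit 421000, nat_lit 0, nat_lit 0, [(nat_lit 26, [(nat_lit 6, nat_lit 421)]), (nat_lit 29, [(nat_lit 6, nat_lit 421)])],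
 ⟨p113_k7, nat_lit 0, nat_lit 0, nat_lit 249, nat_lit 0, nat_lit 0, [nat_lit 1394070801, nat_lit 1120364000], [], [nat_lit 26542308427, nat_lit 28817297834, nat_lit 27741013795, nat_lit 29946049400, nat_lit 24417228991, nat_lit 26581303345, nat_lit 25645756122, nat_lit 27455364980], nat_lit 0, nat_lit 0, nat_lit 0, nat_lit 0, nat_lit 0, nat_lit 0, [], [nat_lit 132, nat_lit 40, nat_lit 40, nat_lit 80, nat_lit 133, nat_lit 317, nat_lit 100, nat_lit 9]⟩, ⟨p113_k8, nat_lit 0, nat_lit 0, nat_lit 51, nat_lit 0, nat_lit 0, [nat_lit 2714352000, nat_lit 8139582000], [], [nat_lit 6664444226, nat_lit 7670941592, nat_lit 9261753408, nat_lit 10058185380, nat_lit 13976132311, nat_lit 14641764903, nat_lit 15189258260, nat_lit 15720025656], nat_lit 0, nat_lit 0, nat_lit 0, nat_lit 0, nat_lit 0, nat_lit 0, [], [nat_lit 145, nat_lit 40, nat_lit 40, nat_lit 80, nat_lit 144, nat_lit 456, nat_lit 225, nat_lit 10]⟩,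
 ⟨nat_lit 0, nat_lit 3163, ⟨.ofNat (nat_lit 454567), .ofNat (nat_lit 626068), .ofNat (nat_lit 475417), .ofNat (nat_lit 646918), .ofNat (nat_lit 481723), .ofNat (nat_lit 623650), .ofNat (nat_lit 505418), .ofNat (nat_lit 647345)⟩, ⟨.ofNat (nat_lit 20000), .ofNat (nat_lit 184209), .ofNat (nat_lit 20000), .ofNat (nat_lit 200000), .ofNat (nat_lit 20000), .ofNat (nat_lit 199999), .ofNat (nat_lit 20000), .ofNat (nat_lit 200000)⟩⟩, [⟨nat_lit 0, nat_lit 94, nat_lit 44, nat_lit 100, nat_lit 388826290⟩, ⟨nat_lit 3, nat_lit 100, nat_lit 50, nat_lit 65, nat_lit 250164389⟩, ⟨nat_lit 19, nat_lit 100, nat_lit 69, nat_lit 96, nat_lit 300889699⟩]⟩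
noncomputable def p113_l7 : Lf2 := ⟨nat_lit 0, nat_lit 30, [nat_lit 15, nat_lit 5, nat_lit 5, nat_lit 20], false, nat_lit 80, nat_lit 160, nat_lit 0, nat_lit 364, ⟨nat_lit 114, nat_lit 0, nat_lit 886, nat_lit 6, nat_lit 208, nat_lit 886, nat_lit 105, nat_lit 886, nat_lit 101400, nat_lit 293, nat_lit 2400, nat_lit 203, nat_lit 48248345, nat_lit 0, nat_lit 0, nat_lit 3994143, false, false⟩,
 nat_lit 0, nat_lit 0, nat_lit 0, nat_lit 7111, nat_lit 3512, nat_lit 1372, nat_lit 75, nat_lit 0, nat_lit 0, nat_lit 89, nat_lit 0, nat_lit 0, nat_lit 0, nat_lit 0, nat_lit 38, nat_lit 177200, nat_lit 0, nat_lit 0, [(nat_lit 26, [(nat_lit 3, nat_lit 886)])],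
 ⟨p113_k9, nat_lit 0, nat_lit 0, nat_lit 157, nat_lit 0, nat_lit 0, [nat_lit 1276060000, nat_lit 407052000, nat_lit 704950400], [], [nat_lit 20016512020, nat_lit 21417591524, nat_lit 22307739392, nat_lit 23464340272, nat_lit 20491936704, nat_lit 21762942039, nat_lit 22610501408, nat_lit 23643168592], nat_lit 0, nat_lit 0, nat_lit 0, nat_lit 0, nat_lit 0, nat_lit 0, [], [nat_lit 81, nat_lit 40, nat_lit 40, nat_lit 80, nat_lit 13, nat_lit 317, nat_lit 100, nat_lit 9]⟩, ⟨p113_k5, nat_lit 0, nat_lit 0, nat_lit 432, nat_lit 0, nat_lit 0, [nat_lit 534432000, nat_lit 1121988000, nat_lit 1869600000], [], [nat_lit 4373864410, nat_lit 4514344527, nat_lit 4319683571, nat_lit 4420973071, nat_lit 3871977324, nat_lit 3914970769, nat_lit 3528078330, nat_lit 3550465010], nat_lit 0, nat_lit 0, nat_lit 0, nat_lit 0, nat_lit 0, nat_lit 0, [], [nat_lit 83, nat_lit 40, nat_lit 40, nat_lit 80, nat_lit 73, nat_lit 456, nat_lit 225, nat_lit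 10]⟩,
 ⟨nat_lit 2236, nat_lit 3163, ⟨.ofNat (nat_lit 409856), .ofNat (nat_lit 605240), .ofNat (nat_lit 431948), .ofNat (nat_lit 627331), .ofNat (nat_lit 419758), .ofNat (nat_lit 602541), .ofNat (nat_lit 442469), .ofNat (nat_lit 625251)⟩, ⟨.ofNat (nat_lit 184209), .ofNat (nat_lit 306116), .ofNat (nat_lit 200000), .ofNat (nat_lit 350426), .ofNat (nat_lit 192306), .ofNat (nat_lit 306337), .ofNat (nat_lit 200000), .ofNat (nat_lit 351886)⟩⟩, [⟨nat_lit 7, nat_lit 72, nat_lit 100, nat_lit 89, nat_lit 11558356⟩]⟩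
noncomputable def p113_l8 : Lf2 := ⟨nat_lit 0, nat_lit 30, [nat_lit 15, nat_lit 5, nat_lit 5, nat_lit 20], true, nat_lit 80, nat_lit 160, nat_lit 0, nat_lit 364, ⟨nat_lit 0, nat_lit 281, nat_lit 719, nat_lit 6, nat_lit 220, nat_lit 1000, nat_lit 105, nat_lit 719, nat_lit 104017, nat_lit 294, nat_lit 2526, nat_lit 204, nat_lit 47147354, nat_lit 15085465, nat_lit 4767181, nat_lit 4095854, false, false⟩,
 nat_lit 0, nat_lit 0, nat_lit 0, nat_lit 1396, nat_lit 2381, nat_lit 0, nat_lit 0, nat_lit 0, nat_lit 0, nat_lit 0, nat_lit 0, nat_lit 0, nat_lit 0, nat_lit 0, nat_lit 75, nat_lit 250000, nat_lit 0, nat_lit 0, [(nat_lit 29, [(nat_lit 0, nat_lit 281), (nat_lit 4, nat_lit 719)])],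
 ⟨p113_k6, nat_lit 0, nat_lit 0, nat_lit 133, nat_lit 0, nat_lit 0, [nat_lit 1067220001, nat_lit 342536801, nat_lit 169093200], [], [nat_lit 20184141007, nat_lit 21373284945, nat_lit 22272043019, nat_lit 23355690771, nat_lit 21071041731, nat_lit 22156159649, nat_lit 23012088623, nat_lit 24184287307], nat_lit 0, nat_lit 0, nat_lit 0, nat_lit 0, nat_lit 0, nat_lit 0, [], [nat_lit 57, nat_lit 40, nat_lit 40, nat_lit 80, nat_lit 7, nat_lit 317, nat_lit 100, nat_lit 10]⟩, C1.Rw.none,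
 ⟨nat_lit 0, nat_lit 2237, ⟨.ofNat (nat_lit 467180), .ofNat (nat_lit 602531), .ofNat (nat_lit 489028), .ofNat (nat_lit 624400), .ofNat (nat_lit 480752), .ofNat (nat_lit 599967), .ofNat (nat_lit 504825), .ofNat (nat_lit 624062)⟩, ⟨.ofNat (nat_lit 192306), .ofNat (nat_lit 306334), .ofNat (nat_lit 200000), .ofNat (nat_lit 351885), .ofNat (nat_lit 199999), .ofNat (nat_lit 299996), .ofNat (nat_lit 200000), .ofNat (nat_lit 349998)⟩⟩, []⟩
noncomputable def p113_l9 : Lf2 := ⟨nat_lit 0, nat_lit 30, [nat_lit 15, nat_lit 5, nat_lit 5, nat_lit 20], false, nat_lit 80, nat_lit 160, nat_lit 0, nat_lit 160, ⟨nat_lit 1000, nat_lit 0, nat_lit 0, nat_lit 0, nat_lit 0, nat_lit 0, nat_lit 0, nat_lit 0, nat_lit 0, nat_lit 0, nat_lit 0, nat_lit 0, nat_lit 0, nat_lit 0, nat_lit 0, nat_lit 0, false, false⟩,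
 nat_lit 0, nat_lit 0, nat_lit 0, nat_lit 8373, nat_lit 12247, nat_lit 6720, nat_lit 0, nat_lit 0, nat_lit 0, nat_lit 0, nat_lit 0, nat_lit 0, nat_lit 0, nat_lit 0, nat_lit 0, nat_lit 0, nat_lit 0, nat_lit 0, [],
 ⟨p113_k7, nat_lit 0, nat_lit 0, nat_lit 154, nat_lit 0, nat_lit 0, [nat_lit 938000000, nat_lit 9842000000], [], [nat_lit 31056267151, nat_lit 37133153338, nat_lit 32173737752, nat_lit 37588625672, nat_lit 28552881511, nat_lit 33942463410, nat_lit 29275921752, nat_lit 34017199840], nat_lit 0, nat_lit 0, nat_lit 0, nat_lit 0, nat_lit 0, nat_lit 0, [], [nat_lit 132, nat_lit 40, nat_lit 40, nat_lit 80, nat_lit 133, nat_lit 317, nat_lit 100, nat_lit 9]⟩, ⟨p113_k8, nat_lit 0, nat_lit 0, nat_lit 235, nat_lit 0, nat_lit 0, [nat_lit 4688000000, nat_lit 14058000000], [], [nat_lit 39110598200, nat_lit 40242265681, nat_lit 41029086160, nat_lit 41927304800, nat_lit 34422990208, nat_lit 35239420912, nat_lit 35844713600,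 nat_lit 36488267360], nat_lit 0, nat_lit 0, nat_lit 0, nat_lit 0, nat_lit 0, nat_lit 0, [], [nat_lit 145, nat_lit 40, nat_lit 40, nat_lit 80, nat_lit 144, nat_lit 401, nat_lit 175, nat_lit 9]⟩,
 zbF0, [⟨nat_lit 0, nat_lit 94, nat_lit 44, nat_lit 100, nat_lit 878943368⟩]⟩
noncomputable def p113_l10 : Lf2 := ⟨nat_lit 0, nat_lit 30, [nat_lit 15, nat_lit 5, nat_lit 5, nat_lit 20], false, nat_lit 80, nat_lit 160, nat_lit 160, nat_lit 352, ⟨nat_lit 1000, nat_lit 0, nat_lit 0, nat_lit 0, nat_lit 0, nat_lit 0, nat_lit 0, nat_lit 0, nat_lit 0, nat_lit 0, nat_lit 0, nat_lit 0, nat_lit 0, nat_lit 0, nat_lit 0, nat_lit 0, false, false⟩,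
 nat_lit 0, nat_lit 0, nat_lit 0, nat_lit 8724, nat_lit 11833, nat_lit 6437, nat_lit 0, nat_lit 0, nat_lit 0, nat_lit 0, nat_lit 0, nat_lit 0, nat_lit 0, nat_lit 0, nat_lit 0, nat_lit 0, nat_lit 0, nat_lit 0, [],
 ⟨p113_k7, nat_lit 0, nat_lit 0, nat_lit 154, nat_lit 0, nat_lit 0, [nat_lit 938000000, nat_lit 9842000000], [], [nat_lit 31077843506, nat_lit 36996276327, nat_lit 32244359528, nat_lit 37037052868, nat_lit 28715171002, nat_lit 33966890735, nat_lit 29497239528, nat_lit 33753132128], nat_lit 0, nat_lit 0, nat_lit 0, nat_lit 0, nat_lit 0, nat_lit 0, [], [nat_lit 132, nat_lit 40, nat_lit 40, nat_lit 80, nat_lit 133, nat_lit 317, nat_lit 100, nat_lit 9]⟩, ⟨p113_k8, nat_lit 0, nat_lit 0, nat_lit 51, nat_lit 0, nat_lit 0, [nat_lit 4688000000, nat_lit 14058000000], [], [nat_lit 11507548662, nat_lit 13246172155, nat_lit 15993795814, nat_lit 17369530940, nat_lit 24137506280, nat_lit 25289366979, nat_lit 26234637117,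 nat_lit 27151431151], nat_lit 0, nat_lit 0, nat_lit 0, nat_lit 0, nat_lit 0, nat_lit 0, [], [nat_lit 145, nat_lit 40, nat_lit 40, nat_lit 80, nat_lit 144, nat_lit 456, nat_lit 225, nat_lit 10]⟩,
 zbF0, [⟨nat_lit 0, nat_lit 94, nat_lit 44, nat_lit 100, nat_lit 869172300⟩, ⟨nat_lit 19, nat_lit 100, nat_lit 69, nat_lit 96, nat_lit 519793262⟩]⟩
noncomputable def p113_l11 : Lf2 := ⟨nat_lit 0, nat_lit 30, [nat_lit 15, nat_lit 5, nat_lit 5, nat_lit 20], true, nat_lit 160, nat_lit 248, nat_lit 0, nat_lit 364, ⟨nat_lit 0, nat_lit 444, nat_lit 556, nat_lit 6, nat_lit 189, nat_lit 1000, nat_lit 157, nat_lit 556, nat_lit 61189, nat_lit 275, nat_lit 15023, nat_lit 241, nat_lit 46381514, nat_lit 11781859, nat_lit 8836627, nat_lit 4441502, false, false⟩,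
 nat_lit 0, nat_lit 0, nat_lit 0, nat_lit 6945, nat_lit 2901, nat_lit 0, nat_lit 0, nat_lit 0, nat_lit 0, nat_lit 0, nat_lit 0, nat_lit 0, nat_lit 0, nat_lit 0, nat_lit 0, nat_lit 222200, nat_lit 0, nat_lit 0, [(nat_lit 26, [(nat_lit 0, nat_lit 444), (nat_lit 3, nat_lit 556)])],
 ⟨p113_k9, nat_lit 0, nat_lit 0, nat_lit 66, nat_lit 0, nat_lit 0, [nat_lit 978214401, nat_lit 357966400, nat_lit 290702400], [], [nat_lit 18908745220, nat_lit 20339334672, nat_lit 19657872089, nat_lit 20974416245, nat_lit 21547887709, nat_lit 22989537401, nat_lit 22124077135, nat_lit 23477881331], nat_lit 0, nat_lit 0, nat_lit 0, nat_lit 0, nat_lit 0, nat_lit 0, [], [nat_lit 81, nat_lit 40, nat_lit 40, nat_lit 80, nat_lit 13, nat_lit 345, nat_lit 125, nat_lit 9]⟩, C1.Rw.none,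
 ⟨nat_lit 2236, nat_lit 3163, ⟨.ofNat (nat_lit 409856), .ofNat (nat_lit 483125), .ofNat (nat_lit 454039), .ofNat (nat_lit 527308), .ofNat (nat_lit 419758), .ofNat (nat_lit 488302), .ofNat (nat_lit 465180), .ofNat (nat_lit 533723)⟩, ⟨.ofNat (nat_lit 306116), .ofNat (nat_lit 440213), .ofNat (nat_lit 350426), .ofNat (nat_lit 484523), .ofNat (nat_lit 306337), .ofNat (nat_lit 431772), .ofNat (nat_lit 351886), .ofNat (nat_lit 477320)⟩⟩, [⟨nat_lit 0, nat_lit 98, nat_lit 54, nat_lit 100, nat_lit 96866874⟩, ⟨nat_lit 16, nat_lit 62, nat_lit 100, nat_lit 94, nat_lit 249114696⟩]⟩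
noncomputable def p113_l12 : Lf2 := ⟨nat_lit 0, nat_lit 30, [nat_lit 15, nat_lit 5, nat_lit 5, nat_lit 20], true, nat_lit 160, nat_lit 208, nat_lit 0, nat_lit 364, ⟨nat_lit 0, nat_lit 558, nat_lit 442, nat_lit 6, nat_lit 202, nat_lit 1000, nat_lit 144, nat_lit 442, nat_lit 194400, nat_lit 323, nat_lit 8210, nat_lit 235, nat_lit 46260996, nat_lit 13083169, nat_lit 7655835, nat_lit 4408258, false, false⟩,
 nat_lit 0, nat_lit 0, nat_lit 0, nat_lit 6973, nat_lit 2895, nat_lit 0, nat_lit 0, nat_lit 0, nat_lit 0, nat_lit 0, nat_lit 0, nat_lit 0, nat_lit 0, nat_lit 0, nat_lit 0, nat_lit 225690, nat_lit 0, nat_lit 0, [(nat_lit 29, [(nat_lit 0, nat_lit 558), (nat_lit 3, nat_lit 442)])],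
 ⟨p113_k6, nat_lit 0, nat_lit 0, nat_lit 70, nat_lit 0, nat_lit 0, [nat_lit 942488001, nat_lit 262029601, nat_lit 94248000], [], [nat_lit 20883289212, nat_lit 22373900499, nat_lit 21070169403, nat_lit 22522952360, nat_lit 22111302543, nat_lit 23591157754, nat_lit 22271460167, nat_lit 23725703984], nat_lit 0, nat_lit 0, nat_lit 0, nat_lit 0, nat_lit 0, nat_lit 0, [], [nat_lit 57, nat_lit 40, nat_lit 40, nat_lit 80, nat_lit 7, nat_lit 317, nat_lit 100, nat_lit 9]⟩, C1.Rw.none,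
 ⟨nat_lit 0, nat_lit 2237, ⟨.ofNat (nat_lit 467180), .ofNat (nat_lit 484837), .ofNat (nat_lit 510875), .ofNat (nat_lit 528532), .ofNat (nat_lit 480752), .ofNat (nat_lit 496304), .ofNat (nat_lit 528899), .ofNat (nat_lit 544451)⟩, ⟨.ofNat (nat_lit 306334), .ofNat (nat_lit 374750), .ofNat (nat_lit 351885), .ofNat (nat_lit 420300), .ofNat (nat_lit 299996), .ofNat (nat_lit 359993), .ofNat (nat_lit 349998), .ofNat (nat_lit 409994)⟩⟩, [⟨nat_lit 0, nat_lit 100, nat_lit 44, nat_lit 99, nat_lit 757850251⟩, ⟨nat_lit 16, nat_lit 44, nat_lit 100, nat_lit 92, nat_lit 328538967⟩]⟩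
noncomputable def p113_l13 : Lf2 := ⟨nat_lit 0, nat_lit 30, [nat_lit 15, nat_lit 5, nat_lit 5, nat_lit 20], false, nat_lit 160, nat_lit 248, nat_lit 0, nat_lit 364, ⟨nat_lit 127, nat_lit 873, nat_lit 0, nat_lit 6, nat_lit 227, nat_lit 873, nat_lit 157, nat_lit 0, nat_lit 0, nat_lit 0, nat_lit 0, nat_lit 0, nat_lit 43266497, nat_lit 15206566, nat_lit 8526937, nat_lit 4733223, false, false⟩,
 nat_lit 0, nat_lit 0, nat_lit 0, nat_lit 8662, nat_lit 4126, nat_lit 1485, nat_lit 0, nat_lit 0, nat_lit 0, nat_lit 96, nat_lit 0, nat_lit 0, nat_lit 0, nat_lit 0, nat_lit 0, nat_lit 218250, nat_lit 0, nat_lit 0, [(nat_lit 26, [(nat_lit 0, nat_lit 873)])],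
 ⟨p113_k9, nat_lit 0, nat_lit 0, nat_lit 55, nat_lit 0, nat_lit 0, [nat_lit 787494800, nat_lit 2206584800, nat_lit 3791638040], [], [nat_lit 20538665024, nat_lit 22150901668, nat_lit 22773385312, nat_lit 24175979356, nat_lit 23108279131, nat_lit 24488695912, nat_lit 24931194804, nat_lit 26309120377], nat_lit 0, nat_lit 0, nat_lit 0, nat_lit 0, nat_lit 0, nat_lit 0, [], [nat_lit 81, nat_lit 40, nat_lit 40, nat_lit 80, nat_lit 13, nat_lit 345, nat_lit 125, nat_lit 9]⟩, ⟨p113_k5, nat_lit 0, nat_lit 0, nat_lit 408, nat_lit 0, nat_lit 0, [nat_lit 595376000, nat_lit 1249934000, nat_lit 2082800000], [], [nat_lit 4687279548, nat_lit 4970684696, nat_lit 4825373904, nat_lit 5048452212, nat_lit 4108123925, nat_lit 4191404204, nat_lit 3995236753, nat_lit 4058210886], nat_lit 0, nat_lit 0, nat_lit 0, nat_lit 0, nat_lit 0, nat_lit 0, [], [nat_lit 83, nat_lit 40, nat_lit 40, nat_lit 80, nat_lit 73, nat_lit 456, nat_lit 225, nat_lit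 10]⟩,
 ⟨nat_lit 2236, nat_lit 3163, ⟨.ofNat (nat_lit 483125), .ofNat (nat_lit 605240), .ofNat (nat_lit 527308), .ofNat (nat_lit 649422), .ofNat (nat_lit 488302), .ofNat (nat_lit 602541), .ofNat (nat_lit 533723), .ofNat (nat_lit 647962)⟩, ⟨.ofNat (nat_lit 306116), .ofNat (nat_lit 440213), .ofNat (nat_lit 350426), .ofNat (nat_lit 484523), .ofNat (nat_lit 306337), .ofNat (nat_lit 431772), .ofNat (nat_lit 351886), .ofNat (nat_lit 477320)⟩⟩, [⟨nat_lit 16, nat_lit 53, nat_lit 100, nat_lit 87, nat_lit 346193038⟩, ⟨nat_lit 7, nat_lit 77, nat_lit 100, nat_lit 91, nat_lit 12354151⟩]⟩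
noncomputable def p113_l14 : Lf2 := ⟨nat_lit 0, nat_lit 30, [nat_lit 15, nat_lit 5, nat_lit 5, nat_lit 20], false, nat_lit 160, nat_lit 208, nat_lit 0, nat_lit 364, ⟨nat_lit 171, nat_lit 452, nat_lit 377, nat_lit 6, nat_lit 228, nat_lit 829, nat_lit 144, nat_lit 377, nat_lit 194400, nat_lit 323, nat_lit 25022, nat_lit 200, nat_lit 44081924, nat_lit 15444068, nat_lit 7474008, nat_lit 4599684, false, false⟩,
 nat_lit 0, nat_lit 0, nat_lit 0, nat_lit 6664, nat_lit 3157, nat_lit 2000, nat_lit 0, nat_lit 0, nat_lit 0, nat_lit 129, nat_lit 0, nat_lit 0, nat_lit 0, nat_lit 0, nat_lit 0, nat_lit 186515, nat_lit 0, nat_lit 0, [(nat_lit 29, [(nat_lit 0, nat_lit 452), (nat_lit 3, nat_lit 377)])],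
 ⟨p113_k6, nat_lit 0, nat_lit 0, nat_lit 67, nat_lit 0, nat_lit 0, [nat_lit 945572401, nat_lit 987958401, nat_lit 1394564400], [], [nat_lit 21343886310, nat_lit 22795161976, nat_lit 23360446530, nat_lit 24793395040, nat_lit 22552699905, nat_lit 23994101815, nat_lit 24502778622, nat_lit 25829085489], nat_lit 0, nat_lit 0, nat_lit 0, nat_lit 0, nat_lit 0, nat_lit 0, [], [nat_lit 57, nat_lit 40, nat_lit 40, nat_lit 80, nat_lit 7, nat_lit 345, nat_lit 125, nat_lit 10]⟩, ⟨p113_k5, nat_lit 0, nat_lit 0, nat_lit 408, nat_lit 0, nat_lit 0, [nat_lit 801648000, nat_lit 1682982000, nat_lit 2804400000], [], [nat_lit 6316188879, nat_lit 6697830243, nat_lit 6502088647, nat_lit 6802484571, nat_lit 5535841576, nat_lit 5647964831, nat_lit 5383735562, nat_lit 5464578147], nat_lit 0, nat_lit 0, nat_lit 0, nat_lit 0, nat_lit 0, nat_lit 0, [], [nat_lit 83, nat_lit 40, nat_lit 40, nat_lit 80, nat_lit 73, nat_lit 456, nat_lit 225, nat_lit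 10]⟩,
 ⟨nat_lit 0, nat_lit 2237, ⟨.ofNat (nat_lit 484837), .ofNat (nat_lit 602531), .ofNat (nat_lit 528532), .ofNat (nat_lit 646249), .ofNat (nat_lit 496304), .ofNat (nat_lit 599967), .ofNat (nat_lit 544451), .ofNat (nat_lit 648136)⟩, ⟨.ofNat (nat_lit 306334), .ofNat (nat_lit 374750), .ofNat (nat_lit 351885), .ofNat (nat_lit 420300), .ofNat (nat_lit 299996), .ofNat (nat_lit 359993), .ofNat (nat_lit 349998), .ofNat (nat_lit 409994)⟩⟩, [⟨nat_lit 16, nat_lit 44, nat_lit 100, nat_lit 92, nat_lit 395869985⟩, ⟨nat_lit 19, nat_lit 100, nat_lit 77, nat_lit 91, nat_lit 16640255⟩]⟩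
noncomputable def p113_l15 : Lf2 := ⟨nat_lit 0, nat_lit 30, [nat_lit 15, nat_lit 5, nat_lit 5, nat_lit 20], false, nat_lit 8, nat_lit 248, nat_lit 0, nat_lit 160, ⟨nat_lit 1000, nat_lit 0, nat_lit 0, nat_lit 0, nat_lit 0, nat_lit 0, nat_lit 0, nat_lit 0, nat_lit 0, nat_lit 0, nat_lit 0, nat_lit 0, nat_lit 0, nat_lit 0, nat_lit 0, nat_lit 0, false, false⟩,
 nat_lit 0, nat_lit 0, nat_lit 0, nat_lit 4229, nat_lit 6205, nat_lit 6158, nat_lit 244, nat_lit 0, nat_lit 0, nat_lit 767, nat_lit 0, nat_lit 0, nat_lit 0, nat_lit 0, nat_lit 0, nat_lit 0, nat_lit 0, nat_lit 0, [],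
 ⟨p113_k9, nat_lit 0, nat_lit 0, nat_lit 214, nat_lit 0, nat_lit 0, [nat_lit 938000000, nat_lit 4688000000, nat_lit 9842000000], [], [nat_lit 33187399259, nat_lit 36463242600, nat_lit 39755246183, nat_lit 42055022052, nat_lit 30516104141, nat_lit 32549141387, nat_lit 34883269322, nat_lit 36591870749], nat_lit 0, nat_lit 0, nat_lit 0, nat_lit 0, nat_lit 0, nat_lit 0, [], [nat_lit 81, nat_lit 40, nat_lit 40, nat_lit 80, nat_lit 13, nat_lit 401, nat_lit 175, nat_lit 11]⟩, ⟨p113_k5, nat_lit 0, nat_lit 0, nat_lit 317, nat_lit 0, nat_lit 0, [nat_lit 4688000000, nat_lit 9842000000, nat_lit 16400000000], [], [nat_lit 32602865797, nat_lit 34028001573, nat_lit 38811953486, nat_lit 40067380404, nat_lit 27915240813, nat_lit 29063577528, nat_lit 34126383111, nat_lit 35169877165], nat_lit 0, nat_lit 0, nat_lit 0, nat_lit 0, nat_lit 0, nat_lit 0, [], [nat_lit 83, nat_lit 40, nat_lit 40, nat_lit 80, nat_lit 73, nat_lit 456, nat_lit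 225, nat_lit 9]⟩,
 zbF0, [⟨nat_lit 4, nat_lit 100, nat_lit 44, nat_lit 87, nat_lit 214102653⟩]⟩
noncomputable def p113_l16 : Lf2 := ⟨nat_lit 0, nat_lit 30, [nat_lit 15, nat_lit 5, nat_lit 5, nat_lit 20], false, nat_lit 8, nat_lit 248, nat_lit 160, nat_lit 364, ⟨nat_lit 1000, nat_lit 0, nat_lit 0, nat_lit 0, nat_lit 0, nat_lit 0, nat_lit 0, nat_lit 0, nat_lit 0, nat_lit 0, nat_lit 0, nat_lit 0, nat_lit 0, nat_lit 0, nat_lit 0, nat_lit 0, false, false⟩,
 nat_lit 0, nat_lit 0, nat_lit 0, nat_lit 3308, nat_lit 6205, nat_lit 6218, nat_lit 244, nat_lit 0, nat_lit 0, nat_lit 0, nat_lit 0, nat_lit 0, nat_lit 0, nat_lit 0, nat_lit 0, nat_lit 0, nat_lit 0, nat_lit 0, [],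
 ⟨p113_k9, nat_lit 0, nat_lit 0, nat_lit 214, nat_lit 0, nat_lit 0, [nat_lit 938000000, nat_lit 4688000000, nat_lit 9842000000], [], [nat_lit 33187399259, nat_lit 36463242600, nat_lit 39755246183, nat_lit 42055022052, nat_lit 30516104141, nat_lit 32549141387, nat_lit 34883269322, nat_lit 36591870749], nat_lit 0, nat_lit 0, nat_lit 0, nat_lit 0, nat_lit 0, nat_lit 0, [], [nat_lit 81, nat_lit 40, nat_lit 40, nat_lit 80, nat_lit 13, nat_lit 401, nat_lit 175, nat_lit 11]⟩, ⟨p113_k5, nat_lit 0, nat_lit 0, nat_lit 107, nat_lit 0, nat_lit 0, [nat_lit 4688000000, nat_lit 9842000000, nat_lit 16400000000], [], [nat_lit 14931532032, nat_lit 17632195160, nat_lit 25432854890, nat_lit 27313087786, nat_lit 26250773287, nat_lit 27965047422, nat_lit 33468177674, nat_lit 34468501984], nat_lit 0, nat_lit 0, nat_lit 0, nat_lit 0, nat_lit 0, nat_lit 0, [], [nat_lit 83, nat_lit 40, nat_lit 40, nat_lit 80, nat_lit 73, nat_lit 538, nat_lit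 300, nat_lit 11]⟩,
 zbF0, [⟨nat_lit 16, nat_lit 44, nat_lit 100, nat_lit 87, nat_lit 159229591⟩, ⟨nat_lit 19, nat_lit 100, nat_lit 59, nat_lit 94, nat_lit 459754611⟩]⟩
noncomputable def b_V_900_600_20_26 : St := ⟨true, nat_lit 0, nat_lit 0, nat_lit 1, nat_lit 120, nat_lit 360, nat_lit 400, nat_lit 240, nat_lit 280, nat_lit 112, nat_lit 376, nat_lit 80, nat_lit 120, nat_lit 8, nat_lit 248, nat_lit 0, nat_lit 364, nat_lit 80, nat_lit 120, nat_lit 0, nat_lit 0, nat_lit 0, nat_lit 0⟩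
theorem d_V_900_600_20_26 (h : EB TB.env) : Dead b_V_900_600_20_26 := chkB_sound0 h (T :=
(.spl (nat_lit 2) (nat_lit 240)
(.spl (nat_lit 4) (nat_lit 160)
(.spl (nat_lit 4) (nat_lit 80)
(.spl (nat_lit 1) (nat_lit 260)
(.spl (nat_lit 0) (nat_lit 380)
(.spl (nat_lit 0) (nat_lit 370)
(.spl (nat_lit 3) (nat_lit 100)
(.trX (nat_lit 19) (nat_lit 100) (nat_lit 68) (nat_lit 88) (nat_lit 352) (.leaf p113_l0))
(.trZ (nat_lit 3) (nat_lit 100) (nat_lit 69) (nat_lit 45) (nat_lit 16) (.spl (nat_lit 6) (nat_lit 104)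
(.leaf p113_l1)
(.leaf p113_l2))))
(.trZ (nat_lit 0) (nat_lit 100) (nat_lit 54) (nat_lit 96) (nat_lit 128) (.trZ (nat_lit 3) (nat_lit 100) (nat_lit 66) (nat_lit 45) (nat_lit 12) (.leaf p113_l3))))
(.trZ (nat_lit 0) (nat_lit 100) (nat_lit 44) (nat_lit 99) (nat_lit 148) (.trZ (nat_lit 3) (nat_lit 100) (nat_lit 54) (nat_lit 57) (nat_lit 20) (.leaf p113_l4))))
(.trZ (nat_lit 0) (nat_lit 100) (nat_lit 63) (nat_lit 99) (nat_lit 132) (.trX (nat_lit 19) (nat_lit 100) (nat_lit 69) (nat_lit 96) (nat_lit 352) (.spl (nat_lit 5) (nat_lit 160)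
(.leaf p113_l5)
(.leaf p113_l6)))))
(.spl (nat_lit 1) (nat_lit 260)
(.spl (nat_lit 0) (nat_lit 380)
(.leaf p113_l7)
(.trZ (nat_lit 0) (nat_lit 100) (nat_lit 44) (nat_lit 99) (nat_lit 148) (.leaf p113_l8)))
(.trZ (nat_lit 0) (nat_lit 100) (nat_lit 63) (nat_lit 99) (nat_lit 132) (.trX (nat_lit 19) (nat_lit 100) (nat_lit 69) (nat_lit 96) (nat_lit 352) (.spl (nat_lit 5) (nat_lit 160)
(.leaf p113_l9)
(.leaf p113_l10))))))
(.spl (nat_lit 2) (nat_lit 160)
(.spl (nat_lit 0) (nat_lit 380)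
(.leaf p113_l11)
(.trZ (nat_lit 0) (nat_lit 100) (nat_lit 44) (nat_lit 99) (nat_lit 148) (.trX (nat_lit 16) (nat_lit 44) (nat_lit 100) (nat_lit 92) (nat_lit 208) (.leaf p113_l12))))
(.spl (nat_lit 0) (nat_lit 380)
(.leaf p113_l13)
(.trX (nat_lit 16) (nat_lit 44) (nat_lit 100) (nat_lit 92) (nat_lit 208) (.leaf p113_l14)))))
(.spl (nat_lit 5) (nat_lit 160)
(.leaf p113_l15)
(.leaf p113_l16)))) (by decide +kernel)
noncomputable def p113_l17 : Lf2 := ⟨nat_lit 0, nat_lit 25, [nat_lit 44, nat_lit 5, nat_lit 5, nat_lit 20], true, nat_lit 8, nat_lit 80, nat_lit 0, nat_lit 352, ⟨nat_lit 0, nat_lit 0, nat_lit 1000, nat_lit 6, nat_lit 189, nat_lit 1000, nat_lit 43, nat_lit 1000, nat_lit 17067, nat_lit 247, nat_lit 15023, nat_lit 241, nat_lit 53487445, nat_lit 0, nat_lit 0, nat_lit 2924313, false, false⟩,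
 nat_lit 0, nat_lit 0, nat_lit 0, nat_lit 2919, nat_lit 2993, nat_lit 0, nat_lit 0, nat_lit 0, nat_lit 0, nat_lit 0, nat_lit 0, nat_lit 0, nat_lit 0, nat_lit 0, nat_lit 84, nat_lit 200000, nat_lit 0, nat_lit 0, [(nat_lit 26, [(nat_lit 3, nat_lit 1000)])],
 ⟨p113_k0, nat_lit 0, nat_lit 0, nat_lit 190, nat_lit 0, nat_lit 0, [nat_lit 1484000001, nat_lit 16000000], [], [nat_lit 19722146545, nat_lit 21707681905, nat_lit 20312721944, nat_lit 22170454237, nat_lit 18867332921, nat_lit 20176718302, nat_lit 19561054083, nat_lit 20882536358], nat_lit 0, nat_lit 0, nat_lit 0, nat_lit 0, nat_lit 0, nat_lit 0, [], [nat_lit 141, nat_lit 40, nat_lit 40, nat_lit 80, nat_lit 142, nat_lit 272, nat_lit 60, nat_lit 9]⟩, C1.Rw.none,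
 ⟨nat_lit 2236, nat_lit 3163, ⟨.ofNat (nat_lit 409856), .ofNat (nat_lit 483125), .ofNat (nat_lit 454039), .ofNat (nat_lit 527308), .ofNat (nat_lit 419758), .ofNat (nat_lit 488302), .ofNat (nat_lit 465180), .ofNat (nat_lit 533723)⟩, ⟨.ofNat (nat_lit 20000), .ofNat (nat_lit 184209), .ofNat (nat_lit 20000), .ofNat (nat_lit 200000), .ofNat (nat_lit 20000), .ofNat (nat_lit 192306), .ofNat (nat_lit 20000), .ofNat (nat_lit 200000)⟩⟩, [⟨nat_lit 0, nat_lit 98, nat_lit 54, nat_lit 100, nat_lit 84028845⟩, ⟨nat_lit 3, nat_lit 100, nat_lit 63, nat_lit 50, nat_lit 275356875⟩]⟩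
noncomputable def p113_l18 : Lf2 := ⟨nat_lit 0, nat_lit 30, [nat_lit 15, nat_lit 5, nat_lit 5, nat_lit 20], true, nat_lit 16, nat_lit 80, nat_lit 0, nat_lit 364, ⟨nat_lit 0, nat_lit 0, nat_lit 1000, nat_lit 6, nat_lit 189, nat_lit 1000, nat_lit 48, nat_lit 1000, nat_lit 21600, nat_lit 251, nat_lit 15023, nat_lit 241, nat_lit 53252013, nat_lit 0, nat_lit 0, nat_lit 3001038, false, false⟩,
 nat_lit 0, nat_lit 0, nat_lit 0, nat_lit 9217, nat_lit 2241, nat_lit 0, nat_lit 114, nat_lit 0, nat_lit 0, nat_lit 0, nat_lit 0, nat_lit 0, nat_lit 0, nat_lit 0, nat_lit 108, nat_lit 250000, nat_lit 0, nat_lit 0, [(nat_lit 26, [(nat_lit 4, nat_lit 1000)])],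
 ⟨p113_k9, nat_lit 0, nat_lit 0, nat_lit 202, nat_lit 0, nat_lit 0, [nat_lit 1207600000, nat_lit 698800001, nat_lit 686800000], [], [nat_lit 18290455226, nat_lit 19811255374, nat_lit 18979739204, nat_lit 20458573956, nat_lit 17894654040, nat_lit 19231689411, nat_lit 18694525296, nat_lit 20101788098], nat_lit 0, nat_lit 0, nat_lit 0, nat_lit 0, nat_lit 0, nat_lit 0, [], [nat_lit 81, nat_lit 40, nat_lit 40, nat_lit 80, nat_lit 13, nat_lit 272, nat_lit 60, nat_lit 8]⟩, C1.Rw.none,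
 ⟨nat_lit 2236, nat_lit 3163, ⟨.ofNat (nat_lit 409856), .ofNat (nat_lit 483125), .ofNat (nat_lit 454039), .ofNat (nat_lit 527308), .ofNat (nat_lit 419758), .ofNat (nat_lit 488302), .ofNat (nat_lit 465180), .ofNat (nat_lit 533723)⟩, ⟨.ofNat (nat_lit 40000), .ofNat (nat_lit 200000), .ofNat (nat_lit 40000), .ofNat (nat_lit 200000), .ofNat (nat_lit 40000), .ofNat (nat_lit 200000), .ofNat (nat_lit 40000), .ofNat (nat_lit 200000)⟩⟩, [⟨nat_lit 0, nat_lit 98, nat_lit 54, nat_lit 100, nat_lit 352620808⟩, ⟨nat_lit 3, nat_lit 100, nat_lit 69, nat_lit 45, nat_lit 214192159⟩]⟩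
noncomputable def p113_l19 : Lf2 := ⟨nat_lit 0, nat_lit 30, [nat_lit 15, nat_lit 5, nat_lit 5, nat_lit 20], true, nat_lit 8, nat_lit 80, nat_lit 0, nat_lit 364, ⟨nat_lit 0, nat_lit 0, nat_lit 1000, nat_lit 6, nat_lit 210, nat_lit 1000, nat_lit 43, nat_lit 1000, nat_lit 17067, nat_lit 247, nat_lit 4984, nat_lit 225, nat_lit 51297218, nat_lit 0, nat_lit 0, nat_lit 3148268, false, false⟩,
 nat_lit 0, nat_lit 0, nat_lit 0, nat_lit 6900, nat_lit 2300, nat_lit 0, nat_lit 78, nat_lit 0, nat_lit 0, nat_lit 0, nat_lit 0, nat_lit 0, nat_lit 0, nat_lit 0, nat_lit 108, nat_lit 250000, nat_lit 0, nat_lit 0, [(nat_lit 26, [(nat_lit 4, nat_lit 1000)])],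
 ⟨p113_k9, nat_lit 0, nat_lit 0, nat_lit 189, nat_lit 0, nat_lit 0, [nat_lit 1207600000, nat_lit 698800001, nat_lit 686800000], [], [nat_lit 19553473280, nat_lit 20105599410, nat_lit 20404539961, nat_lit 20932012091, nat_lit 19084919600, nat_lit 19610406900, nat_lit 19924566000, nat_lit 20429348200], nat_lit 0, nat_lit 0, nat_lit 0, nat_lit 0, nat_lit 0, nat_lit 0, [], [nat_lit 81, nat_lit 40, nat_lit 40, nat_lit 80, nat_lit 13, nat_lit 289, nat_lit 75, nat_lit 8]⟩, C1.Rw.none,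
 ⟨nat_lit 2738, nat_lit 3163, ⟨.ofNat (nat_lit 483313), .ofNat (nat_lit 544285), .ofNat (nat_lit 505456), .ofNat (nat_lit 566428), .ofNat (nat_lit 485730), .ofNat (nat_lit 544810), .ofNat (nat_lit 508135), .ofNat (nat_lit 567215)⟩, ⟨.ofNat (nat_lit 20000), .ofNat (nat_lit 184209), .ofNat (nat_lit 20000), .ofNat (nat_lit 200000), .ofNat (nat_lit 20000), .ofNat (nat_lit 188310), .ofNat (nat_lit 20000), .ofNat (nat_lit 200000)⟩⟩, [⟨nat_lit 3, nat_lit 100, nat_lit 65, nat_lit 50, nat_lit 218058834⟩]⟩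
noncomputable def p113_l20 : Lf2 := ⟨nat_lit 0, nat_lit 30, [nat_lit 15, nat_lit 5, nat_lit 5, nat_lit 20], true, nat_lit 12, nat_lit 80, nat_lit 0, nat_lit 364, ⟨nat_lit 0, nat_lit 69, nat_lit 931, nat_lit 6, nat_lit 211, nat_lit 1000, nat_lit 45, nat_lit 931, nat_lit 19267, nat_lit 249, nat_lit 1657, nat_lit 224, nat_lit 51123755, nat_lit 14522046, nat_lit 1354199, nat_lit 3189889, false, false⟩,
 nat_lit 0, nat_lit 0, nat_lit 0, nat_lit 5671, nat_lit 2855, nat_lit 0, nat_lit 0, nat_lit 0, nat_lit 0, nat_lit 0, nat_lit 0, nat_lit 0, nat_lit 0, nat_lit 0, nat_lit 71, nat_lit 203450, nat_lit 0, nat_lit 0, [(nat_lit 26, [(nat_lit 0, nat_lit 69), (nat_lit 3, nat_lit 931)])],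
 ⟨p113_k10, nat_lit 0, nat_lit 0, nat_lit 159, nat_lit 0, nat_lit 0, [nat_lit 1405614401, nat_lit 15383200], [], [nat_lit 21279101251, nat_lit 21913925927, nat_lit 22160680766, nat_lit 22759028092, nat_lit 20619907423, nat_lit 21222775643, nat_lit 21487151688, nat_lit 22055964413], nat_lit 0, nat_lit 0, nat_lit 0, nat_lit 0, nat_lit 0, nat_lit 0, [], [nat_lit 141, nat_lit 40, nat_lit 40, nat_lit 80, nat_lit 142, nat_lit 289, nat_lit 75, nat_lit 9]⟩, C1.Rw.none,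
 ⟨nat_lit 2236, nat_lit 2739, ⟨.ofNat (nat_lit 485697), .ofNat (nat_lit 544794), .ofNat (nat_lit 508094), .ofNat (nat_lit 567191), .ofNat (nat_lit 488457), .ofNat (nat_lit 545508), .ofNat (nat_lit 511211), .ofNat (nat_lit 568262)⟩, ⟨.ofNat (nat_lit 30000), .ofNat (nat_lit 188310), .ofNat (nat_lit 30000), .ofNat (nat_lit 200000), .ofNat (nat_lit 30000), .ofNat (nat_lit 192306), .ofNat (nat_lit 30000), .ofNat (nat_lit 200000)⟩⟩, [⟨nat_lit 3, nat_lit 100, nat_lit 56, nat_lit 60, nat_lit 292225087⟩]⟩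
noncomputable def p113_l21 : Lf2 := ⟨nat_lit 0, nat_lit 30, [nat_lit 15, nat_lit 5, nat_lit 5, nat_lit 20], false, nat_lit 8, nat_lit 80, nat_lit 0, nat_lit 160, ⟨nat_lit 230, nat_lit 0, nat_lit 770, nat_lit 6, nat_lit 234, nat_lit 770, nat_lit 43, nat_lit 770, nat_lit 17067, nat_lit 247, nat_lit 2400, nat_lit 203, nat_lit 48781614, nat_lit 0, nat_lit 0, nat_lit 3365001, true, false⟩,
 nat_lit 0, nat_lit 0, nat_lit 4608, nat_lit 0, nat_lit 2530, nat_lit 2439, nat_lit 207, nat_lit 0, nat_lit 0, nat_lit 159, nat_lit 0, nat_lit 0, nat_lit 0, nat_lit 0, nat_lit 8, nat_lit 192500, nat_lit 0, nat_lit 0, [(nat_lit 26, [(nat_lit 4, nat_lit 770)])],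
 ⟨p113_k9, nat_lit 0, nat_lit 0, nat_lit 185, nat_lit 0, nat_lit 0, [nat_lit 844952000, nat_lit 413756001, nat_lit 688016000], [], [nat_lit 21325834041, nat_lit 21806082566, nat_lit 22281409849, nat_lit 22761081874, nat_lit 20777524521, nat_lit 21234856741, nat_lit 21731867442, nat_lit 22248723192], nat_lit 0, nat_lit 0, nat_lit 0, nat_lit 0, nat_lit 0, nat_lit 0, [], [nat_lit 81, nat_lit 40, nat_lit 40, nat_lit 80, nat_lit 13, nat_lit 317, nat_lit 100, nat_lit 9]⟩, ⟨p113_k5, nat_lit 0, nat_lit 0, nat_lit 626, nat_lit 0, nat_lit 468718, [nat_lit 1078240000, nat_lit 2263660000, nat_lit 3772000000], [], [nat_lit 8998548213, nat_lit 9050178035, nat_lit 8982065841, nat_lit 9032661698, nat_lit 7011422020, nat_lit 7107740810, nat_lit 7084552456, nat_lit 7165534854], nat_lit 1271250, nat_lit 1271250, nat_lit 1271250, nat_lit 1271250, nat_lit 0, nat_lit 1100001, [nat_lit 1100000, nat_lit 2127500, nat_lit 1271250], [nat_lit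 83, nat_lit 40, nat_lit 40, nat_lit 80, nat_lit 73, nat_lit 401, nat_lit 175, nat_lit 8]⟩,
 ⟨nat_lit 2738, nat_lit 3163, ⟨.ofNat (nat_lit 544285), .ofNat (nat_lit 605257), .ofNat (nat_lit 566428), .ofNat (nat_lit 627400), .ofNat (nat_lit 544810), .ofNat (nat_lit 603890), .ofNat (nat_lit 567215), .ofNat (nat_lit 626295)⟩, ⟨.ofNat (nat_lit 20000), .ofNat (nat_lit 184209), .ofNat (nat_lit 20000), .ofNat (nat_lit 200000), .ofNat (nat_lit 20000), .ofNat (nat_lit 188310), .ofNat (nat_lit 20000), .ofNat (nat_lit 200000)⟩⟩, [⟨nat_lit 3, nat_lit 100, nat_lit 65, nat_lit 50, nat_lit 134841392⟩]⟩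
noncomputable def p113_l22 : Lf2 := ⟨nat_lit 0, nat_lit 30, [nat_lit 15, nat_lit 5, nat_lit 5, nat_lit 20], false, nat_lit 8, nat_lit 80, nat_lit 160, nat_lit 360, ⟨nat_lit 195, nat_lit 0, nat_lit 805, nat_lit 6, nat_lit 234, nat_lit 805, nat_lit 43, nat_lit 805, nat_lit 17067, nat_lit 247, nat_lit 2400, nat_lit 203, nat_lit 48782129, nat_lit 0, nat_lit 0, nat_lit 3363833, true, false⟩,
 nat_lit 0, nat_lit 0, nat_lit 4321, nat_lit 3029, nat_lit 2498, nat_lit 2287, nat_lit 201, nat_lit 0, nat_lit 0, nat_lit 159, nat_lit 0, nat_lit 0, nat_lit 0, nat_lit 0, nat_lit 23, nat_lit 201250, nat_lit 0, nat_lit 0, [(nat_lit 26, [(nat_lit 4, nat_lit 805)])],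
 ⟨p113_k9, nat_lit 0, nat_lit 0, nat_lit 182, nat_lit 0, nat_lit 0, [nat_lit 899268000, nat_lit 453654000, nat_lit 681744000], [], [nat_lit 20863876198, nat_lit 21133455236, nat_lit 21954980822, nat_lit 22324995597, nat_lit 20292123032, nat_lit 20519755958, nat_lit 21427124880, nat_lit 21711857816], nat_lit 0, nat_lit 0, nat_lit 0, nat_lit 0, nat_lit 0, nat_lit 0, [], [nat_lit 81, nat_lit 40, nat_lit 40, nat_lit 80, nat_lit 13, nat_lit 317, nat_lit 100, nat_lit 9]⟩, ⟨p113_k5, nat_lit 0, nat_lit 0, nat_lit 419, nat_lit 0, nat_lit 364632, [nat_lit 914160000, nat_lit 1919190000, nat_lit 3198000000], [], [nat_lit 5880736808, nat_lit 4967601051, nat_lit 4923059625, nat_lit 4999877823, nat_lit 5913521064, nat_lit 5977062751, nat_lit 5923836266, nat_lit 6040610697], nat_lit 1271250, nat_lit 1271250, nat_lit 1271250, nat_lit 1271250, nat_lit 1271250, nat_lit 1271250, [nat_lit 1100000, nat_lit 2127500, nat_lit 1271250], [nat_lit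 83, nat_lit 40, nat_lit 40, nat_lit 80, nat_lit 73, nat_lit 456, nat_lit 225, nat_lit 9]⟩,
 ⟨nat_lit 2958, nat_lit 3163, ⟨.ofNat (nat_lit 544304), .ofNat (nat_lit 605261), .ofNat (nat_lit 566456), .ofNat (nat_lit 627413), .ofNat (nat_lit 544549), .ofNat (nat_lit 604573), .ofNat (nat_lit 566823), .ofNat (nat_lit 626848)⟩, ⟨.ofNat (nat_lit 20000), .ofNat (nat_lit 184209), .ofNat (nat_lit 20000), .ofNat (nat_lit 200000), .ofNat (nat_lit 20000), .ofNat (nat_lit 186273), .ofNat (nat_lit 20000), .ofNat (nat_lit 200000)⟩⟩, [⟨nat_lit 22, nat_lit 100, nat_lit 96, nat_lit 40, nat_lit 16068851⟩, ⟨nat_lit 22, nat_lit 100, nat_lit 84, nat_lit 63, nat_lit 102027787⟩]⟩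
noncomputable def p113_l23 : Lf2 := ⟨nat_lit 0, nat_lit 30, [nat_lit 15, nat_lit 5, nat_lit 5, nat_lit 20], false, nat_lit 8, nat_lit 80, nat_lit 160, nat_lit 360, ⟨nat_lit 177, nat_lit 0, nat_lit 823, nat_lit 6, nat_lit 234, nat_lit 823, nat_lit 43, nat_lit 823, nat_lit 17067, nat_lit 247, nat_lit 7518, nat_lit 204, nat_lit 48780386, nat_lit 0, nat_lit 0, nat_lit 3366239, true, false⟩,
 nat_lit 0, nat_lit 0, nat_lit 3906, nat_lit 845, nat_lit 2581, nat_lit 2067, nat_lit 47, nat_lit 0, nat_lit 0, nat_lit 141, nat_lit 0, nat_lit 0, nat_lit 0, nat_lit 0, nat_lit 30, nat_lit 205750, nat_lit 0, nat_lit 0, [(nat_lit 26, [(nat_lit 4, nat_lit 823)])],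
 ⟨p113_k11, nat_lit 0, nat_lit 0, nat_lit 160, nat_lit 0, nat_lit 0, [nat_lit 924344800, nat_lit 462744400, nat_lit 13250800], [], [nat_lit 21455668651, nat_lit 21749638155, nat_lit 22589344998, nat_lit 22864759522, nat_lit 20823654872, nat_lit 21102901027, nat_lit 21925400896, nat_lit 22187418316], nat_lit 0, nat_lit 0, nat_lit 0, nat_lit 0, nat_lit 0, nat_lit 0, [], [nat_lit 57, nat_lit 40, nat_lit 40, nat_lit 80, nat_lit 7, nat_lit 317, nat_lit 100, nat_lit 10]⟩, ⟨p113_k5, nat_lit 0, nat_lit 0, nat_lit 460, nat_lit 0, nat_lit 468718, [nat_lit 829776000, nat_lit 1742034000, nat_lit 2902800000], [], [nat_lit 5333752512, nat_lit 4579402209, nat_lit 4539436371, nat_lit 4599832863, nat_lit 5425099251, nat_lit 5475291012, nat_lit 5405886549, nat_lit 5488398813], nat_lit 1271250, nat_lit 1271250, nat_lit 1271250, nat_lit 1271250, nat_lit 1271250, nat_lit 1271250, [nat_lit 1100000, nat_lit 2127500, nat_lit 1271250], [nat_lit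 83, nat_lit 40, nat_lit 40, nat_lit 80, nat_lit 73, nat_lit 456, nat_lit 225, nat_lit 9]⟩,
 ⟨nat_lit 2738, nat_lit 2959, ⟨.ofNat (nat_lit 544547), .ofNat (nat_lit 604573), .ofNat (nat_lit 566821), .ofNat (nat_lit 626847), .ofNat (nat_lit 544827), .ofNat (nat_lit 603893), .ofNat (nat_lit 567242), .ofNat (nat_lit 626308)⟩, ⟨.ofNat (nat_lit 20000), .ofNat (nat_lit 186273), .ofNat (nat_lit 20000), .ofNat (nat_lit 200000), .ofNat (nat_lit 20000), .ofNat (nat_lit 188310), .ofNat (nat_lit 20000), .ofNat (nat_lit 200000)⟩⟩, [⟨nat_lit 22, nat_lit 100, nat_lit 96, nat_lit 40, nat_lit 58017004⟩, ⟨nat_lit 22, nat_lit 100, nat_lit 84, nat_lit 63, nat_lit 64578071⟩]⟩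
noncomputable def p113_l24 : Lf2 := ⟨nat_lit 0, nat_lit 30, [nat_lit 15, nat_lit 5, nat_lit 5, nat_lit 20], true, nat_lit 12, nat_lit 80, nat_lit 0, nat_lit 360, ⟨nat_lit 0, nat_lit 136, nat_lit 864, nat_lit 6, nat_lit 232, nat_lit 1000, nat_lit 45, nat_lit 864, nat_lit 19267, nat_lit 249, nat_lit 1983, nat_lit 207, nat_lit 48933298, nat_lit 16728039, nat_lit 1338663, nat_lit 3379611, true, false⟩,
 nat_lit 0, nat_lit 0, nat_lit 0, nat_lit 6236, nat_lit 2248, nat_lit 0, nat_lit 0, nat_lit 0, nat_lit 0, nat_lit 0, nat_lit 0, nat_lit 0, nat_lit 0, nat_lit 0, nat_lit 79, nat_lit 250000, nat_lit 0, nat_lit 0, [(nat_lit 26, [(nat_lit 0, nat_lit 136), (nat_lit 4, nat_lit 864)])],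
 ⟨p113_k4, nat_lit 0, nat_lit 0, nat_lit 162, nat_lit 0, nat_lit 0, [nat_lit 1090240000, nat_lit 608038401, nat_lit 15187200], [], [nat_lit 21218701991, nat_lit 21773555153, nat_lit 22320542991, nat_lit 22843090587, nat_lit 20820569416, nat_lit 21349647504, nat_lit 21894008128, nat_lit 22423218208], nat_lit 0, nat_lit 0, nat_lit 0, nat_lit 0, nat_lit 0, nat_lit 0, [], [nat_lit 57, nat_lit 40, nat_lit 40, nat_lit 80, nat_lit 7, nat_lit 317, nat_lit 100, nat_lit 10]⟩, C1.Rw.none,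
 ⟨nat_lit 2236, nat_lit 2739, ⟨.ofNat (nat_lit 544794), .ofNat (nat_lit 603890), .ofNat (nat_lit 555992), .ofNat (nat_lit 615088), .ofNat (nat_lit 545508), .ofNat (nat_lit 602558), .ofNat (nat_lit 556884), .ofNat (nat_lit 613935)⟩, ⟨.ofNat (nat_lit 30000), .ofNat (nat_lit 188310), .ofNat (nat_lit 30000), .ofNat (nat_lit 200000), .ofNat (nat_lit 30000), .ofNat (nat_lit 192306), .ofNat (nat_lit 30000), .ofNat (nat_lit 200000)⟩⟩, [⟨nat_lit 3, nat_lit 100, nat_lit 56, nat_lit 60, nat_lit 253772160⟩]⟩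
noncomputable def p113_l25 : Lf2 := ⟨nat_lit 0, nat_lit 30, [nat_lit 15, nat_lit 5, nat_lit 5, nat_lit 20], false, nat_lit 12, nat_lit 80, nat_lit 0, nat_lit 360, ⟨nat_lit 90, nat_lit 0, nat_lit 910, nat_lit 6, nat_lit 236, nat_lit 910, nat_lit 45, nat_lit 910, nat_lit 19267, nat_lit 249, nat_lit 6376, nat_lit 204, nat_lit 48461681, nat_lit 0, nat_lit 0, nat_lit 3416222, true, false⟩,
 nat_lit 0, nat_lit 0, nat_lit 1473, nat_lit 2987, nat_lit 2330, nat_lit 818, nat_lit 0, nat_lit 0, nat_lit 0, nat_lit 100, nat_lit 0, nat_lit 0, nat_lit 0, nat_lit 0, nat_lit 68, nat_lit 227500, nat_lit 0, nat_lit 0, [(nat_lit 26, [(nat_lit 4, nat_lit 910)])],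
 ⟨p113_k12, nat_lit 0, nat_lit 0, nat_lit 156, nat_lit 0, nat_lit 0, [nat_lit 1018900001, nat_lit 802708001, nat_lit 8236000], [], [nat_lit 21380516036, nat_lit 21943113623, nat_lit 22485208603, nat_lit 23013188885, nat_lit 20930013112, nat_lit 21466334342, nat_lit 22006179882, nat_lit 22510225082], nat_lit 0, nat_lit 0, nat_lit 0, nat_lit 0, nat_lit 0, nat_lit 0, [], [nat_lit 54, nat_lit 40, nat_lit 40, nat_lit 80, nat_lit 43, nat_lit 317, nat_lit 100, nat_lit 10]⟩, ⟨p113_k13, nat_lit 0, nat_lit 0, nat_lit 613, nat_lit 0, nat_lit 635062, [nat_lit 421920000, nat_lit 717120000, nat_lit 1265220000], [], [nat_lit 2812328630, nat_lit 2751551960, nat_lit 2756869148, nat_lit 2773672672, nat_lit 3369584971, nat_lit 3186730478, nat_lit 2640480303, nat_lit 2582210030], nat_lit 1271250, nat_lit 1271250, nat_lit 1271250, nat_lit 1271250, nat_lit 0, nat_lit 2542500, [nat_lit 1100000, nat_lit 1785000, nat_lit 1271250], [nat_lit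 37, nat_lit 40, nat_lit 40, nat_lit 80, nat_lit 28, nat_lit 456, nat_lit 225, nat_lit 10]⟩,
 ⟨nat_lit 2236, nat_lit 2739, ⟨.ofNat (nat_lit 555992), .ofNat (nat_lit 615088), .ofNat (nat_lit 567191), .ofNat (nat_lit 626287), .ofNat (nat_lit 556884), .ofNat (nat_lit 613935), .ofNat (nat_lit 568262), .ofNat (nat_lit 625312)⟩, ⟨.ofNat (nat_lit 30000), .ofNat (nat_lit 188310), .ofNat (nat_lit 30000), .ofNat (nat_lit 200000), .ofNat (nat_lit 30000), .ofNat (nat_lit 192306), .ofNat (nat_lit 30000), .ofNat (nat_lit 200000)⟩⟩, [⟨nat_lit 3, nat_lit 100, nat_lit 56, nat_lit 60, nat_lit 79117021⟩, ⟨nat_lit 3, nat_lit 100, nat_lit 48, nat_lit 71, nat_lit 151423360⟩, ⟨nat_lit 22, nat_lit 100, nat_lit 83, nat_lit 64, nat_lit 23397320⟩]⟩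
noncomputable def p113_l26 : Lf2 := ⟨nat_lit 0, nat_lit 30, [nat_lit 15, nat_lit 5, nat_lit 5, nat_lit 20], false, nat_lit 8, nat_lit 80, nat_lit 0, nat_lit 160, ⟨nat_lit 410, nat_lit 0, nat_lit 590, nat_lit 6, nat_lit 231, nat_lit 590, nat_lit 43, nat_lit 590, nat_lit 17067, nat_lit 247, nat_lit 27834, nat_lit 200, nat_lit 49106095, nat_lit 0, nat_lit 0, nat_lit 3339442, false, false⟩,
 nat_lit 0, nat_lit 0, nat_lit 5107, nat_lit 0, nat_lit 2626, nat_lit 2972, nat_lit 311, nat_lit 0, nat_lit 0, nat_lit 328, nat_lit 0, nat_lit 0, nat_lit 0, nat_lit 0, nat_lit 0, nat_lit 236000, nat_lit 0, nat_lit 0, [(nat_lit 26, [(nat_lit 5, nat_lit 590)])],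
 ⟨p113_k14, nat_lit 0, nat_lit 0, nat_lit 181, nat_lit 0, nat_lit 0, [nat_lit 814808001, nat_lit 891949334, nat_lit 1478632000], [], [nat_lit 19999590738, nat_lit 20539451440, nat_lit 22193993840, nat_lit 22950996227, nat_lit 19401467009, nat_lit 19914582293, nat_lit 21544184085, nat_lit 22123403411], nat_lit 0, nat_lit 0, nat_lit 0, nat_lit 0, nat_lit 0, nat_lit 0, [], [nat_lit 93, nat_lit 40, nat_lit 40, nat_lit 80, nat_lit 63, nat_lit 317, nat_lit 100, nat_lit 9]⟩, ⟨p113_k15, nat_lit 0, nat_lit 0, nat_lit 592, nat_lit 0, nat_lit 543346, [nat_lit 1922080000, nat_lit 3266880000, nat_lit 5763780000], [], [nat_lit 15001608064, nat_lit 14794617040, nat_lit 14832606744, nat_lit 15008750176, nat_lit 12738168780, nat_lit 12879848664, nat_lit 13203747448, nat_lit 12946628264], nat_lit 1271250, nat_lit 1271250, nat_lit 1100001, nat_lit 1785000, nat_lit 0, nat_lit 1100001, [nat_lit 1100000, nat_lit 1785000, nat_lit 1271250],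 [nat_lit 37, nat_lit 40, nat_lit 40, nat_lit 80, nat_lit 28, nat_lit 401, nat_lit 175, nat_lit 9]⟩,
 ⟨nat_lit 2738, nat_lit 3163, ⟨.ofNat (nat_lit 505456), .ofNat (nat_lit 627400), .ofNat (nat_lit 527599), .ofNat (nat_lit 649542), .ofNat (nat_lit 508135), .ofNat (nat_lit 626295), .ofNat (nat_lit 530541), .ofNat (nat_lit 648700)⟩, ⟨.ofNat (nat_lit 20000), .ofNat (nat_lit 184209), .ofNat (nat_lit 20000), .ofNat (nat_lit 200000), .ofNat (nat_lit 20000), .ofNat (nat_lit 188310), .ofNat (nat_lit 20000), .ofNat (nat_lit 200000)⟩⟩, [⟨nat_lit 0, nat_lit 93, nat_lit 53, nat_lit 100, nat_lit 64464977⟩, ⟨nat_lit 3, nat_lit 100, nat_lit 65, nat_lit 50, nat_lit 82414184⟩]⟩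
noncomputable def p113_l27 : Lf2 := ⟨nat_lit 0, nat_lit 30, [nat_lit 15, nat_lit 5, nat_lit 5, nat_lit 20], false, nat_lit 12, nat_lit 80, nat_lit 0, nat_lit 160, ⟨nat_lit 228, nat_lit 0, nat_lit 772, nat_lit 6, nat_lit 232, nat_lit 772, nat_lit 45, nat_lit 772, nat_lit 19267, nat_lit 249, nat_lit 26118, nat_lit 200, nat_lit 48967463, nat_lit 0, nat_lit 0, nat_lit 3376903, false, false⟩,
 nat_lit 0, nat_lit 0, nat_lit 3273, nat_lit 0, nat_lit 2251, nat_lit 1905, nat_lit 131, nat_lit 0, nat_lit 0, nat_lit 218, nat_lit 0, nat_lit 0, nat_lit 0, nat_lit 0, nat_lit 9, nat_lit 193000, nat_lit 0, nat_lit 0, [(nat_lit 26, [(nat_lit 4, nat_lit 772)])],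
 ⟨p113_k12, nat_lit 0, nat_lit 0, nat_lit 158, nat_lit 0, nat_lit 0, [nat_lit 811880001, nat_lit 594433601, nat_lit 46811200], [], [nat_lit 20328060073, nat_lit 20915525964, nat_lit 22328611358, nat_lit 22849868708, nat_lit 19940210204, nat_lit 20499802784, nat_lit 21900155988, nat_lit 22427209900], nat_lit 0, nat_lit 0, nat_lit 0, nat_lit 0, nat_lit 0, nat_lit 0, [], [nat_lit 54, nat_lit 40, nat_lit 40, nat_lit 80, nat_lit 43, nat_lit 317, nat_lit 100, nat_lit 10]⟩, ⟨p113_k15, nat_lit 0, nat_lit 0, nat_lit 654, nat_lit 0, nat_lit 719903, [nat_lit 1068864000, nat_lit 1816704000, nat_lit 3205224000], [], [nat_lit 8593400046, nat_lit 7586154156, nat_lit 7323197400, nat_lit 7379911752, nat_lit 6042148752, nat_lit 6109302480, nat_lit 7096705518, nat_lit 6199058088], nat_lit 1271250, nat_lit 1271250, nat_lit 1100001, nat_lit 1785000, nat_lit 0, nat_lit 1100001, [nat_lit 1100000, nat_lit 1785000, nat_lit 1271250], [nat_lit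 37, nat_lit 40, nat_lit 40, nat_lit 80, nat_lit 28, nat_lit 401, nat_lit 175, nat_lit 9]⟩,
 ⟨nat_lit 2236, nat_lit 2739, ⟨.ofNat (nat_lit 508094), .ofNat (nat_lit 626287), .ofNat (nat_lit 530492), .ofNat (nat_lit 648684), .ofNat (nat_lit 511211), .ofNat (nat_lit 625312), .ofNat (nat_lit 533965), .ofNat (nat_lit 648065)⟩, ⟨.ofNat (nat_lit 30000), .ofNat (nat_lit 188310), .ofNat (nat_lit 30000), .ofNat (nat_lit 200000), .ofNat (nat_lit 30000), .ofNat (nat_lit 192306), .ofNat (nat_lit 30000), .ofNat (nat_lit 200000)⟩⟩, [⟨nat_lit 3, nat_lit 100, nat_lit 56, nat_lit 60, nat_lit 157868453⟩]⟩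
noncomputable def p113_l28 : Lf2 := ⟨nat_lit 0, nat_lit 25, [nat_lit 44, nat_lit 5, nat_lit 5, nat_lit 20], false, nat_lit 8, nat_lit 80, nat_lit 160, nat_lit 336, ⟨nat_lit 171, nat_lit 0, nat_lit 829, nat_lit 6, nat_lit 231, nat_lit 829, nat_lit 43, nat_lit 829, nat_lit 17067, nat_lit 247, nat_lit 27834, nat_lit 200, nat_lit 49106095, nat_lit 0, nat_lit 0, nat_lit 3339442, false, false⟩,
 nat_lit 0, nat_lit 0, nat_lit 2385, nat_lit 408, nat_lit 2497, nat_lit 1388, nat_lit 55, nat_lit 0, nat_lit 0, nat_lit 125, nat_lit 0, nat_lit 0, nat_lit 0, nat_lit 0, nat_lit 33, nat_lit 207250, nat_lit 0, nat_lit 0, [(nat_lit 26, [(nat_lit 4, nat_lit 829)])],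
 ⟨p113_k16, nat_lit 0, nat_lit 0, nat_lit 154, nat_lit 0, nat_lit 0, [nat_lit 895910000, nat_lit 676025201, nat_lit 22008400], [], [nat_lit 20083291663, nat_lit 20697900694, nat_lit 22157794104, nat_lit 22701447739, nat_lit 19536570009, nat_lit 20119921269, nat_lit 21563698837, nat_lit 22081043917], nat_lit 0, nat_lit 0, nat_lit 0, nat_lit 0, nat_lit 0, nat_lit 0, [], [nat_lit 54, nat_lit 40, nat_lit 40, nat_lit 80, nat_lit 43, nat_lit 317, nat_lit 100, nat_lit 10]⟩, ⟨p113_k17, nat_lit 0, nat_lit 0, nat_lit 426, nat_lit 0, nat_lit 522824, [nat_lit 801648000, nat_lit 1362528000, nat_lit 2403918000], [], [nat_lit 5602851628, nat_lit 4868963284, nat_lit 4836129822, nat_lit 4929254104, nat_lit 5354258202, nat_lit 5415179146, nat_lit 5375745223, nat_lit 5450820921], nat_lit 1271250, nat_lit 1271250, nat_lit 1100001, nat_lit 1785000, nat_lit 1271250, nat_lit 1271250, [nat_lit 1100000, nat_lit 1785000, nat_lit 1271250],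 [nat_lit 37, nat_lit 40, nat_lit 40, nat_lit 80, nat_lit 28, nat_lit 456, nat_lit 225, nat_lit 10]⟩,
 ⟨nat_lit 2738, nat_lit 3163, ⟨.ofNat (nat_lit 505456), .ofNat (nat_lit 627400), .ofNat (nat_lit 527599), .ofNat (nat_lit 649542), .ofNat (nat_lit 508135), .ofNat (nat_lit 626295), .ofNat (nat_lit 530541), .ofNat (nat_lit 648700)⟩, ⟨.ofNat (nat_lit 20000), .ofNat (nat_lit 184209), .ofNat (nat_lit 20000), .ofNat (nat_lit 200000), .ofNat (nat_lit 20000), .ofNat (nat_lit 188310), .ofNat (nat_lit 20000), .ofNat (nat_lit 200000)⟩⟩, [⟨nat_lit 3, nat_lit 100, nat_lit 61, nat_lit 55, nat_lit 65437270⟩, ⟨nat_lit 22, nat_lit 100, nat_lit 78, nat_lit 63, nat_lit 85563245⟩]⟩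
noncomputable def p113_l29 : Lf2 := ⟨nat_lit 0, nat_lit 25, [nat_lit 44, nat_lit 5, nat_lit 5, nat_lit 20], false, nat_lit 12, nat_lit 80, nat_lit 160, nat_lit 336, ⟨nat_lit 149, nat_lit 0, nat_lit 851, nat_lit 6, nat_lit 232, nat_lit 851, nat_lit 45, nat_lit 851, nat_lit 19267, nat_lit 249, nat_lit 26118, nat_lit 200, nat_lit 48967463, nat_lit 0, nat_lit 0, nat_lit 3376903, false, false⟩,
 nat_lit 0, nat_lit 0, nat_lit 2025, nat_lit 0, nat_lit 2235, nat_lit 1178, nat_lit 68, nat_lit 0, nat_lit 0, nat_lit 136, nat_lit 0, nat_lit 0, nat_lit 0, nat_lit 0, nat_lit 42, nat_lit 212750, nat_lit 0, nat_lit 0, [(nat_lit 26, [(nat_lit 4, nat_lit 851)])],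
 ⟨p113_k18, nat_lit 0, nat_lit 0, nat_lit 158, nat_lit 0, nat_lit 0, [nat_lit 927290000, nat_lit 704358801, nat_lit 6119600], [], [nat_lit 20289767992, nat_lit 20875581422, nat_lit 22290277726, nat_lit 22814160280, nat_lit 19912195820, nat_lit 20470243120, nat_lit 21872065060, nat_lit 22374547560], nat_lit 0, nat_lit 0, nat_lit 0, nat_lit 0, nat_lit 0, nat_lit 0, [], [nat_lit 54, nat_lit 40, nat_lit 40, nat_lit 80, nat_lit 43, nat_lit 317, nat_lit 100, nat_lit 10]⟩, ⟨p113_k17, nat_lit 0, nat_lit 0, nat_lit 549, nat_lit 0, nat_lit 695311, [nat_lit 698512000, nat_lit 1187232000, nat_lit 2094642000], [], [nat_lit 4850743944, nat_lit 4227890580, nat_lit 4123426918, nat_lit 4174058604, nat_lit 4420035296, nat_lit 4450463748, nat_lit 4417911721, nat_lit 4462074608], nat_lit 1271250, nat_lit 1271250, nat_lit 1100001, nat_lit 1785000, nat_lit 1271250, nat_lit 1271250, [nat_lit 1100000, nat_lit 1785000, nat_lit 1271250], [nat_lit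 37, nat_lit 40, nat_lit 40, nat_lit 80, nat_lit 28, nat_lit 456, nat_lit 225, nat_lit 10]⟩,
 ⟨nat_lit 2236, nat_lit 2739, ⟨.ofNat (nat_lit 508094), .ofNat (nat_lit 626287), .ofNat (nat_lit 530492), .ofNat (nat_lit 648684), .ofNat (nat_lit 511211), .ofNat (nat_lit 625312), .ofNat (nat_lit 533965), .ofNat (nat_lit 648065)⟩, ⟨.ofNat (nat_lit 30000), .ofNat (nat_lit 188310), .ofNat (nat_lit 30000), .ofNat (nat_lit 200000), .ofNat (nat_lit 30000), .ofNat (nat_lit 192306), .ofNat (nat_lit 30000), .ofNat (nat_lit 200000)⟩⟩, [⟨nat_lit 3, nat_lit 100, nat_lit 58, nat_lit 56, nat_lit 77499945⟩, ⟨nat_lit 10, nat_lit 100, nat_lit 93, nat_lit 66, nat_lit 68779485⟩]⟩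
noncomputable def p113_l30 : Lf2 := ⟨nat_lit 0, nat_lit 27, [nat_lit 147, nat_lit 5, nat_lit 5, nat_lit 20], false, nat_lit 16, nat_lit 80, nat_lit 160, nat_lit 352, ⟨nat_lit 319, nat_lit 0, nat_lit 681, nat_lit 6, nat_lit 231, nat_lit 681, nat_lit 48, nat_lit 681, nat_lit 21600, nat_lit 251, nat_lit 27880, nat_lit 200, nat_lit 48900505, nat_lit 0, nat_lit 0, nat_lit 3414633, false, false⟩,
 nat_lit 0, nat_lit 0, nat_lit 3356, nat_lit 5493, nat_lit 2554, nat_lit 1953, nat_lit 168, nat_lit 0, nat_lit 0, nat_lit 216, nat_lit 0, nat_lit 0, nat_lit 0, nat_lit 0, nat_lit 0, nat_lit 170250, nat_lit 0, nat_lit 0, [(nat_lit 26, [(nat_lit 4, nat_lit 681)])],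
 ⟨p113_k19, nat_lit 0, nat_lit 0, nat_lit 152, nat_lit 0, nat_lit 0, [nat_lit 827405600, nat_lit 794586801, nat_lit 789987600], [], [nat_lit 20260966208, nat_lit 20576279427, nat_lit 22526298910, nat_lit 22827733272, nat_lit 19809992441, nat_lit 20135672362, nat_lit 22105669841, nat_lit 22393022569], nat_lit 0, nat_lit 0, nat_lit 0, nat_lit 0, nat_lit 0, nat_lit 0, [], [nat_lit 57, nat_lit 40, nat_lit 40, nat_lit 80, nat_lit 7, nat_lit 317, nat_lit 100, nat_lit 10]⟩, ⟨p113_k20, nat_lit 0, nat_lit 0, nat_lit 255, nat_lit 0, nat_lit 248043, [nat_lit 1495472000, nat_lit 3139598000, nat_lit 4484502000], [], [nat_lit 9818910034, nat_lit 8786284720, nat_lit 9838052638, nat_lit 9093826844, nat_lit 10183863139, nat_lit 10322883432, nat_lit 10434438109, nat_lit 10586772695], nat_lit 1271250, nat_lit 1271250, nat_lit 1100001, nat_lit 1785000, nat_lit 1271250, nat_lit 1271250, [nat_lit 1100000, nat_lit 2127500, nat_lit 1271250],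 [nat_lit 56, nat_lit 40, nat_lit 40, nat_lit 80, nat_lit 32, nat_lit 456, nat_lit 225, nat_lit 10]⟩,
 ⟨nat_lit 2958, nat_lit 3163, ⟨.ofNat (nat_lit 505499), .ofNat (nat_lit 627413), .ofNat (nat_lit 527651), .ofNat (nat_lit 649565), .ofNat (nat_lit 506798), .ofNat (nat_lit 626848), .ofNat (nat_lit 529072), .ofNat (nat_lit 649122)⟩, ⟨.ofNat (nat_lit 40000), .ofNat (nat_lit 200000), .ofNat (nat_lit 40000), .ofNat (nat_lit 200000), .ofNat (nat_lit 40000), .ofNat (nat_lit 200000), .ofNat (nat_lit 40000), .ofNat (nat_lit 200000)⟩⟩, [⟨nat_lit 3, nat_lit 100, nat_lit 65, nat_lit 52, nat_lit 119633448⟩, ⟨nat_lit 19, nat_lit 100, nat_lit 78, nat_lit 95, nat_lit 107287439⟩]⟩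
noncomputable def p113_l31 : Lf2 := ⟨nat_lit 1, nat_lit 30, [nat_lit 15, nat_lit 5, nat_lit 5, nat_lit 20], false, nat_lit 16, nat_lit 80, nat_lit 160, nat_lit 352, zbN0,
 nat_lit 0, nat_lit 0, nat_lit 0, nat_lit 0, nat_lit 0, nat_lit 0, nat_lit 0, nat_lit 0, nat_lit 0, nat_lit 0, nat_lit 0, nat_lit 0, nat_lit 0, nat_lit 0, nat_lit 0, nat_lit 0, nat_lit 0, nat_lit 0, [],
 C1.Rw.none, C1.Rw.none,
 zbF0, []⟩
noncomputable def p113_l32 : Lf2 := ⟨nat_lit 0, nat_lit 30, [nat_lit 15, nat_lit 5, nat_lit 5, nat_lit 20], false, nat_lit 16, nat_lit 80, nat_lit 160, nat_lit 352, ⟨nat_lit 217, nat_lit 0, nat_lit 783, nat_lit 6, nat_lit 231, nat_lit 783, nat_lit 48, nat_lit 783, nat_lit 21600, nat_lit 251, nat_lit 26992, nat_lit 200, nat_lit 48881481, nat_lit 0, nat_lit 0, nat_lit 3416145, false, false⟩,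
 nat_lit 0, nat_lit 0, nat_lit 2302, nat_lit 5733, nat_lit 2510, nat_lit 1339, nat_lit 112, nat_lit 0, nat_lit 0, nat_lit 148, nat_lit 0, nat_lit 0, nat_lit 0, nat_lit 0, nat_lit 13, nat_lit 195750, nat_lit 0, nat_lit 0, [(nat_lit 26, [(nat_lit 4, nat_lit 783)])],
 ⟨p113_k11, nat_lit 0, nat_lit 0, nat_lit 156, nat_lit 0, nat_lit 0, [nat_lit 862840800, nat_lit 419432401, nat_lit 26866800], [], [nat_lit 20040257253, nat_lit 20353245587, nat_lit 22204720153, nat_lit 22573748801, nat_lit 19417704725, nat_lit 19720987631, nat_lit 21651658721, nat_lit 21936953041], nat_lit 0, nat_lit 0, nat_lit 0, nat_lit 0, nat_lit 0, nat_lit 0, [], [nat_lit 57, nat_lit 40, nat_lit 40, nat_lit 80, nat_lit 7, nat_lit 317, nat_lit 100, nat_lit 10]⟩, ⟨p113_k21, nat_lit 0, nat_lit 0, nat_lit 291, nat_lit 0, nat_lit 335371, [nat_lit 1017296000, nat_lit 2135714000, nat_lit 3050586000], [], [nat_lit 6689740182, nat_lit 5981760000, nat_lit 6687608634,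 nat_lit 6155089972, nat_lit 6898623025, nat_lit 7002729862, nat_lit 7077185566, nat_lit 7180870884], nat_lit 1271250, nat_lit 1271250, nat_lit 1100001, nat_lit 1785000, nat_lit 1271250, nat_lit 1271250, [nat_lit 1100000, nat_lit 2127500, nat_lit 1271250], [nat_lit 56, nat_lit 40, nat_lit 40, nat_lit 80, nat_lit 32, nat_lit 456, nat_lit 225, nat_lit 10]⟩,
 ⟨nat_lit 2738, nat_lit 2959, ⟨.ofNat (nat_lit 506794), .ofNat (nat_lit 626847), .ofNat (nat_lit 529068), .ofNat (nat_lit 649121), .ofNat (nat_lit 508175), .ofNat (nat_lit 626308), .ofNat (nat_lit 530589), .ofNat (nat_lit 648722)⟩, ⟨.ofNat (nat_lit 40000), .ofNat (nat_lit 200000), .ofNat (nat_lit 40000), .ofNat (nat_lit 200000), .ofNat (nat_lit 40000), .ofNat (nat_lit 200000), .ofNat (nat_lit 40000), .ofNat (nat_lit 200000)⟩⟩, [⟨nat_lit 3, nat_lit 100, nat_lit 57, nat_lit 62, nat_lit 95884138⟩, ⟨nat_lit 7, nat_lit 78, nat_lit 100, nat_lit 95, nat_lit 22818435⟩, ⟨nat_lit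 22, nat_lit 100, nat_lit 76, nat_lit 65, nat_lit 85364350⟩]⟩
noncomputable def p113_l33 : Lf2 := ⟨nat_lit 0, nat_lit 30, [nat_lit 15, nat_lit 5, nat_lit 5, nat_lit 20], false, nat_lit 20, nat_lit 80, nat_lit 160, nat_lit 352, ⟨nat_lit 121, nat_lit 0, nat_lit 879, nat_lit 6, nat_lit 220, nat_lit 879, nat_lit 50, nat_lit 879, nat_lit 22817, nat_lit 252, nat_lit 5345, nat_lit 216, nat_lit 49970792, nat_lit 0, nat_lit 0, nat_lit 3346744, false, false⟩,
 nat_lit 0, nat_lit 0, nat_lit 2068, nat_lit 1677, nat_lit 2510, nat_lit 1203, nat_lit 17, nat_lit 0, nat_lit 0, nat_lit 52, nat_lit 0, nat_lit 0, nat_lit 0, nat_lit 0, nat_lit 55, nat_lit 219750, nat_lit 0, nat_lit 0, [(nat_lit 26, [(nat_lit 4, nat_lit 879)])],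
 ⟨p113_k12, nat_lit 0, nat_lit 0, nat_lit 153, nat_lit 0, nat_lit 0, [nat_lit 973410000, nat_lit 758965201, nat_lit 22988400], [], [nat_lit 20454472893, nat_lit 21077711105, nat_lit 21343422080, nat_lit 21919798830, nat_lit 19965455170, nat_lit 20550061970, nat_lit 20844484820, nat_lit 21396705630], nat_lit 0, nat_lit 0, nat_lit 0, nat_lit 0, nat_lit 0, nat_lit 0, [], [nat_lit 54, nat_lit 40, nat_lit 40, nat_lit 80, nat_lit 43, nat_lit 289, nat_lit 75, nat_lit 9]⟩, ⟨p113_k15, nat_lit 0, nat_lit 0, nat_lit 419, nat_lit 0, nat_lit 504435, [nat_lit 567248000, nat_lit 964128000, nat_lit 1701018000], [], [nat_lit 4184357158, nat_lit 3548285344, nat_lit 3435173204, nat_lit 3513608564, nat_lit 4224990371, nat_lit 4288286521, nat_lit 4186551834, nat_lit 4242320187], nat_lit 1271250, nat_lit 1271250, nat_lit 1100001, nat_lit 1442500, nat_lit 1271250, nat_lit 1271250, [nat_lit 1100000, nat_lit 1785000, nat_lit 1271250], [nat_lit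 37, nat_lit 40, nat_lit 40, nat_lit 80, nat_lit 28, nat_lit 456, nat_lit 225, nat_lit 10]⟩,
 ⟨nat_lit 2236, nat_lit 2739, ⟨.ofNat (nat_lit 508094), .ofNat (nat_lit 567191), .ofNat (nat_lit 530492), .ofNat (nat_lit 589588), .ofNat (nat_lit 511211), .ofNat (nat_lit 568262), .ofNat (nat_lit 533965), .ofNat (nat_lit 591016)⟩, ⟨.ofNat (nat_lit 50000), .ofNat (nat_lit 200000), .ofNat (nat_lit 50000), .ofNat (nat_lit 200000), .ofNat (nat_lit 50000), .ofNat (nat_lit 200000), .ofNat (nat_lit 50000), .ofNat (nat_lit 200000)⟩⟩, [⟨nat_lit 3, nat_lit 100, nat_lit 54, nat_lit 63, nat_lit 162738678⟩, ⟨nat_lit 22, nat_lit 100, nat_lit 68, nat_lit 66, nat_lit 71390892⟩]⟩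
noncomputable def p113_l34 : Lf2 := ⟨nat_lit 0, nat_lit 30, [nat_lit 15, nat_lit 5, nat_lit 5, nat_lit 20], false, nat_lit 20, nat_lit 80, nat_lit 160, nat_lit 352, ⟨nat_lit 190, nat_lit 0, nat_lit 810, nat_lit 6, nat_lit 243, nat_lit 810, nat_lit 50, nat_lit 810, nat_lit 22817, nat_lit 252, nat_lit 26118, nat_lit 200, nat_lit 47561541, nat_lit 0, nat_lit 0, nat_lit 3537501, true, false⟩,
 nat_lit 0, nat_lit 0, nat_lit 3261, nat_lit 0, nat_lit 2421, nat_lit 1898, nat_lit 78, nat_lit 0, nat_lit 0, nat_lit 141, nat_lit 0, nat_lit 0, nat_lit 0, nat_lit 0, nat_lit 25, nat_lit 202500, nat_lit 0, nat_lit 0, [(nat_lit 26, [(nat_lit 4, nat_lit 810)])],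
 ⟨p113_k4, nat_lit 0, nat_lit 0, nat_lit 157, nat_lit 0, nat_lit 0, [nat_lit 906456000, nat_lit 457068001, nat_lit 30276000], [], [nat_lit 21428974353, nat_lit 21997009578, nat_lit 22533459361, nat_lit 23066309429, nat_lit 20980190907, nat_lit 21524550258, nat_lit 22059385156, nat_lit 22570677596], nat_lit 0, nat_lit 0, nat_lit 0, nat_lit 0, nat_lit 0, nat_lit 0, [], [nat_lit 57, nat_lit 40, nat_lit 40, nat_lit 80, nat_lit 7, nat_lit 317, nat_lit 100, nat_lit 10]⟩, ⟨p113_k21, nat_lit 0, nat_lit 0, nat_lit 414, nat_lit 0, nat_lit 504435, [nat_lit 890720000, nat_lit 1869980000, nat_lit 2671020000], [], [nat_lit 4804295528, nat_lit 4909152372, nat_lit 4888251392, nat_lit 4978690924, nat_lit 5650315861, nat_lit 5718784338, nat_lit 5676402696, nat_lit 5744880996], nat_lit 1271250, nat_lit 1271250, nat_lit 1271250, nat_lit 1271250, nat_lit 1271250, nat_lit 1271250, [nat_lit 1100000, nat_lit 2127500, nat_lit 1271250], [nat_lit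 56, nat_lit 40, nat_lit 40, nat_lit 80, nat_lit 32, nat_lit 456, nat_lit 225, nat_lit 10]⟩,
 ⟨nat_lit 2236, nat_lit 2739, ⟨.ofNat (nat_lit 567191), .ofNat (nat_lit 626287), .ofNat (nat_lit 589588), .ofNat (nat_lit 648684), .ofNat (nat_lit 568262), .ofNat (nat_lit 625312), .ofNat (nat_lit 591016), .ofNat (nat_lit 648065)⟩, ⟨.ofNat (nat_lit 50000), .ofNat (nat_lit 200000), .ofNat (nat_lit 50000), .ofNat (nat_lit 200000), .ofNat (nat_lit 50000), .ofNat (nat_lit 200000), .ofNat (nat_lit 50000), .ofNat (nat_lit 200000)⟩⟩, [⟨nat_lit 3, nat_lit 100, nat_lit 48, nat_lit 71, nat_lit 76829080⟩, ⟨nat_lit 22, nat_lit 100, nat_lit 82, nat_lit 66, nat_lit 97038490⟩]⟩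
noncomputable def b_V_900_600_20_27 : St := ⟨true, nat_lit 0, nat_lit 1, nat_lit 1, nat_lit 120, nat_lit 360, nat_lit 380, nat_lit 240, nat_lit 280, nat_lit 112, nat_lit 240, nat_lit 80, nat_lit 120, nat_lit 8, nat_lit 80, nat_lit 0, nat_lit 364, nat_lit 80, nat_lit 120, nat_lit 0, nat_lit 0, nat_lit 0, nat_lit 0⟩
theorem d_V_900_600_20_27 (h : EB TB.env) : Dead b_V_900_600_20_27 := chkB_sound0 h (T :=
(.spl (nat_lit 2) (nat_lit 160)
(.spl (nat_lit 3) (nat_lit 100)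
(.trX (nat_lit 19) (nat_lit 100) (nat_lit 68) (nat_lit 88) (nat_lit 352) (.leaf p113_l17))
(.trZ (nat_lit 3) (nat_lit 100) (nat_lit 69) (nat_lit 45) (nat_lit 16) (.leaf p113_l18)))
(.spl (nat_lit 1) (nat_lit 260)
(.spl (nat_lit 2) (nat_lit 200)
(.spl (nat_lit 0) (nat_lit 370)
(.leaf p113_l19)
(.trZ (nat_lit 3) (nat_lit 100) (nat_lit 66) (nat_lit 45) (nat_lit 12) (.leaf p113_l20)))
(.trX (nat_lit 22) (nat_lit 100) (nat_lit 60) (nat_lit 80) (nat_lit 360) (.spl (nat_lit 0) (nat_lit 370)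
(.spl (nat_lit 5) (nat_lit 160)
(.leaf p113_l21)
(.spl (nat_lit 0) (nat_lit 365)
(.leaf p113_l22)
(.leaf p113_l23)))
(.trZ (nat_lit 3) (nat_lit 100) (nat_lit 66) (nat_lit 45) (nat_lit 12) (.spl (nat_lit 1) (nat_lit 250)
(.leaf p113_l24)
(.leaf p113_l25))))))
(.trX (nat_lit 19) (nat_lit 100) (nat_lit 69) (nat_lit 96) (nat_lit 352) (.spl (nat_lit 5) (nat_lit 160)
(.spl (nat_lit 0) (nat_lit 370)
(.leaf p113_l26)
(.trZ (nat_lit 3) (nat_lit 100) (nat_lit 66) (nat_lit 45) (nat_lit 12) (.leaf p113_l27)))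
(.spl (nat_lit 3) (nat_lit 100)
(.trX (nat_lit 19) (nat_lit 100) (nat_lit 77) (nat_lit 91) (nat_lit 336) (.spl (nat_lit 0) (nat_lit 370)
(.leaf p113_l28)
(.trZ (nat_lit 3) (nat_lit 100) (nat_lit 66) (nat_lit 45) (nat_lit 12) (.leaf p113_l29))))
(.trZ (nat_lit 3) (nat_lit 100) (nat_lit 69) (nat_lit 45) (nat_lit 16) (.spl (nat_lit 0) (nat_lit 370)
(.spl (nat_lit 0) (nat_lit 365)
(.spl (nat_lit 6) (nat_lit 108)
(.leaf p113_l30)
(.leaf p113_l31))
(.leaf p113_l32))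
(.trZ (nat_lit 3) (nat_lit 100) (nat_lit 61) (nat_lit 55) (nat_lit 20) (.spl (nat_lit 2) (nat_lit 200)
(.leaf p113_l33)
(.leaf p113_l34))))))))))) (by decide +kernel)
noncomputable def p113_l35 : Lf2 := ⟨nat_lit 0, nat_lit 30, [nat_lit 15, nat_lit 5, nat_lit 5, nat_lit 20], true, nat_lit 20, nat_lit 80, nat_lit 0, nat_lit 364, ⟨nat_lit 0, nat_lit 116, nat_lit 884, nat_lit 6, nat_lit 209, nat_lit 1000, nat_lit 50, nat_lit 884, nat_lit 22817, nat_lit 252, nat_lit 4801, nat_lit 223, nat_lit 51171570, nat_lit 14260694, nat_lit 1567736, nat_lit 3232751, false, false⟩,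
 nat_lit 0, nat_lit 0, nat_lit 0, nat_lit 5116, nat_lit 2263, nat_lit 0, nat_lit 0, nat_lit 0, nat_lit 0, nat_lit 0, nat_lit 0, nat_lit 0, nat_lit 0, nat_lit 0, nat_lit 113, nat_lit 250000, nat_lit 0, nat_lit 0, [(nat_lit 29, [(nat_lit 0, nat_lit 116), (nat_lit 4, nat_lit 884)])],
 ⟨p113_k22, nat_lit 0, nat_lit 0, nat_lit 180, nat_lit 0, nat_lit 0, [nat_lit 1215920000, nat_lit 243355200], [], [nat_lit 20317840156, nat_lit 21892745048, nat_lit 21439997970, nat_lit 22952505833, nat_lit 20026485424, nat_lit 21237482022, nat_lit 21086980872, nat_lit 22417094072], nat_lit 0, nat_lit 0, nat_lit 0, nat_lit 0, nat_lit 0, nat_lit 0, [], [nat_lit 141, nat_lit 40, nat_lit 40, nat_lit 80, nat_lit 142, nat_lit 289, nat_lit 75, nat_lit 9]⟩, C1.Rw.none,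
 ⟨nat_lit 0, nat_lit 2237, ⟨.ofNat (nat_lit 467180), .ofNat (nat_lit 543695), .ofNat (nat_lit 489028), .ofNat (nat_lit 565543), .ofNat (nat_lit 480752), .ofNat (nat_lit 548146), .ofNat (nat_lit 504825), .ofNat (nat_lit 572220)⟩, ⟨.ofNat (nat_lit 50000), .ofNat (nat_lit 192306), .ofNat (nat_lit 50000), .ofNat (nat_lit 200000), .ofNat (nat_lit 50000), .ofNat (nat_lit 199999), .ofNat (nat_lit 50000), .ofNat (nat_lit 200000)⟩⟩, [⟨nat_lit 3, nat_lit 100, nat_lit 36, nat_lit 77, nat_lit 261255234⟩, ⟨nat_lit 3, nat_lit 100, nat_lit 54, nat_lit 57, nat_lit 99131173⟩]⟩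
noncomputable def p113_l36 : Lf2 := ⟨nat_lit 0, nat_lit 30, [nat_lit 15, nat_lit 5, nat_lit 5, nat_lit 20], true, nat_lit 20, nat_lit 80, nat_lit 0, nat_lit 360, ⟨nat_lit 0, nat_lit 174, nat_lit 826, nat_lit 6, nat_lit 232, nat_lit 1000, nat_lit 50, nat_lit 826, nat_lit 22817, nat_lit 252, nat_lit 4783, nat_lit 208, nat_lit 48768002, nat_lit 16684268, nat_lit 1547730, nat_lit 3442665, true, false⟩,
 nat_lit 0, nat_lit 0, nat_lit 0, nat_lit 5022, nat_lit 2264, nat_lit 0, nat_lit 0, nat_lit 0, nat_lit 0, nat_lit 0, nat_lit 0, nat_lit 0, nat_lit 0, nat_lit 0, nat_lit 99, nat_lit 250000, nat_lit 0, nat_lit 0, [(nat_lit 29, [(nat_lit 0, nat_lit 174), (nat_lit 4, nat_lit 826)])],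
 ⟨p113_k22, nat_lit 0, nat_lit 0, nat_lit 166, nat_lit 0, nat_lit 0, [nat_lit 1161080000, nat_lit 201832800], [], [nat_lit 21670700692, nat_lit 22954712224, nat_lit 22752764148, nat_lit 24159265032, nat_lit 21368243968, nat_lit 22421047616, nat_lit 22399717168, nat_lit 23616343552], nat_lit 0, nat_lit 0, nat_lit 0, nat_lit 0, nat_lit 0, nat_lit 0, [], [nat_lit 141, nat_lit 40, nat_lit 40, nat_lit 80, nat_lit 142, nat_lit 317, nat_lit 100, nat_lit 10]⟩, C1.Rw.none,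
 ⟨nat_lit 0, nat_lit 2237, ⟨.ofNat (nat_lit 543695), .ofNat (nat_lit 602531), .ofNat (nat_lit 554619), .ofNat (nat_lit 613477), .ofNat (nat_lit 548146), .ofNat (nat_lit 599967), .ofNat (nat_lit 560183), .ofNat (nat_lit 612026)⟩, ⟨.ofNat (nat_lit 50000), .ofNat (nat_lit 192306), .ofNat (nat_lit 50000), .ofNat (nat_lit 200000), .ofNat (nat_lit 50000), .ofNat (nat_lit 199999), .ofNat (nat_lit 50000), .ofNat (nat_lit 200000)⟩⟩, [⟨nat_lit 3, nat_lit 100, nat_lit 36, nat_lit 77, nat_lit 351916361⟩, ⟨nat_lit 3, nat_lit 100, nat_lit 54, nat_lit 57, nat_lit 33018035⟩]⟩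
noncomputable def p113_l37 : Lf2 := ⟨nat_lit 0, nat_lit 30, [nat_lit 15, nat_lit 5, nat_lit 5, nat_lit 20], false, nat_lit 20, nat_lit 80, nat_lit 0, nat_lit 360, ⟨nat_lit 90, nat_lit 44, nat_lit 866, nat_lit 6, nat_lit 236, nat_lit 910, nat_lit 50, nat_lit 866, nat_lit 22817, nat_lit 252, nat_lit 2526, nat_lit 204, nat_lit 48291184, nat_lit 17166326, nat_lit 1542490, nat_lit 3479600, true, false⟩,
 nat_lit 0, nat_lit 0, nat_lit 1740, nat_lit 0, nat_lit 2292, nat_lit 966, nat_lit 0, nat_lit 0, nat_lit 0, nat_lit 23, nat_lit 0, nat_lit 0, nat_lit 0, nat_lit 0, nat_lit 88, nat_lit 227500, nat_lit 0, nat_lit 0, [(nat_lit 29, [(nat_lit 0, nat_lit 44), (nat_lit 4, nat_lit 866)])],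
 ⟨p113_k6, nat_lit 0, nat_lit 0, nat_lit 168, nat_lit 0, nat_lit 0, [nat_lit 1130356001, nat_lit 339807200, nat_lit 270100800], [], [nat_lit 21749886058, nat_lit 23016491172, nat_lit 22815918210, nat_lit 24221944096, nat_lit 21350817418, nat_lit 22454930852, nat_lit 22402013636, nat_lit 23651806660], nat_lit 0, nat_lit 0, nat_lit 0, nat_lit 0, nat_lit 0, nat_lit 0, [], [nat_lit 57, nat_lit 40, nat_lit 40, nat_lit 80, nat_lit 7, nat_lit 317, nat_lit 100, nat_lit 10]⟩, ⟨p113_k23, nat_lit 0, nat_lit 0, nat_lit 816, nat_lit 0, nat_lit 1058256, [nat_lit 421920000, nat_lit 885780000, nat_lit 1265220000], [], [nat_lit 3874039441, nat_lit 3861129754, nat_lit 3831572992, nat_lit 3838205139, nat_lit 4108693156, nat_lit 3895486813, nat_lit 3281262730, nat_lit 3297460795], nat_lit 1271250, nat_lit 1271250, nat_lit 1271250, nat_lit 1271250, nat_lit 0, nat_lit 2542500, [nat_lit 1100000, nat_lit 2127500, nat_lit 1271250], [nat_lit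 56, nat_lit 40, nat_lit 40, nat_lit 80, nat_lit 32, nat_lit 456, nat_lit 225, nat_lit 10]⟩,
 ⟨nat_lit 0, nat_lit 2237, ⟨.ofNat (nat_lit 554619), .ofNat (nat_lit 613477), .ofNat (nat_lit 565543), .ofNat (nat_lit 624400), .ofNat (nat_lit 560183), .ofNat (nat_lit 612026), .ofNat (nat_lit 572220), .ofNat (nat_lit 624062)⟩, ⟨.ofNat (nat_lit 50000), .ofNat (nat_lit 192306), .ofNat (nat_lit 50000), .ofNat (nat_lit 200000), .ofNat (nat_lit 50000), .ofNat (nat_lit 199999), .ofNat (nat_lit 50000), .ofNat (nat_lit 200000)⟩⟩, [⟨nat_lit 3, nat_lit 100, nat_lit 36, nat_lit 77, nat_lit 346082441⟩, ⟨nat_lit 22, nat_lit 100, nat_lit 82, nat_lit 66, nat_lit 15180222⟩]⟩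
noncomputable def p113_l38 : Lf2 := ⟨nat_lit 0, nat_lit 30, [nat_lit 15, nat_lit 5, nat_lit 5, nat_lit 20], false, nat_lit 20, nat_lit 80, nat_lit 0, nat_lit 352, ⟨nat_lit 89, nat_lit 0, nat_lit 911, nat_lit 6, nat_lit 223, nat_lit 911, nat_lit 49, nat_lit 911, nat_lit 22817, nat_lit 252, nat_lit 3868, nat_lit 215, nat_lit 49656810, nat_lit 0, nat_lit 0, nat_lit 3367726, false, false⟩,
 nat_lit 0, nat_lit 0, nat_lit 1685, nat_lit 280, nat_lit 2299, nat_lit 980, nat_lit 0, nat_lit 0, nat_lit 0, nat_lit 0, nat_lit 0, nat_lit 0, nat_lit 0, nat_lit 0, nat_lit 98, nat_lit 227750, nat_lit 0, nat_lit 0, [(nat_lit 29, [(nat_lit 4, nat_lit 911)])],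
 ⟨p113_k6, nat_lit 0, nat_lit 0, nat_lit 165, nat_lit 0, nat_lit 0, [nat_lit 1169299600, nat_lit 345796400, nat_lit 275678400], [], [nat_lit 20819505655, nat_lit 21511356263, nat_lit 21510018982, nat_lit 22270171121, nat_lit 20423452275, nat_lit 20981551605, nat_lit 21106967902, nat_lit 21776336256], nat_lit 0, nat_lit 0, nat_lit 0, nat_lit 0, nat_lit 0, nat_lit 0, [], [nat_lit 57, nat_lit 40, nat_lit 40, nat_lit 80, nat_lit 7, nat_lit 289, nat_lit 75, nat_lit 9]⟩, ⟨p113_k21, nat_lit 0, nat_lit 0, nat_lit 766, nat_lit 0, nat_lit 903674, [nat_lit 417232000, nat_lit 875938000, nat_lit 1251162000], [], [nat_lit 4466629012, nat_lit 4167513628, nat_lit 4105732870, nat_lit 4112601128, nat_lit 4504851980, nat_lit 4066707779, nat_lit 3806496140, nat_lit 3514256670], nat_lit 1271250, nat_lit 1271250, nat_lit 1271250, nat_lit 1271250, nat_lit 0, nat_lit 2486000, [nat_lit 1100000, nat_lit 2127500, nat_lit 1271250], [nat_lit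 56, nat_lit 40, nat_lit 40, nat_lit 80, nat_lit 32, nat_lit 456, nat_lit 225, nat_lit 10]⟩,
 ⟨nat_lit 1581, nat_lit 2237, ⟨.ofNat (nat_lit 522505), .ofNat (nat_lit 568186), .ofNat (nat_lit 545234), .ofNat (nat_lit 590915), .ofNat (nat_lit 526032), .ofNat (nat_lit 569808), .ofNat (nat_lit 549300), .ofNat (nat_lit 593078)⟩, ⟨.ofNat (nat_lit 50000), .ofNat (nat_lit 192306), .ofNat (nat_lit 50000), .ofNat (nat_lit 200000), .ofNat (nat_lit 50000), .ofNat (nat_lit 196201), .ofNat (nat_lit 50000), .ofNat (nat_lit 200000)⟩⟩, [⟨nat_lit 0, nat_lit 96, nat_lit 44, nat_lit 100, nat_lit 83991591⟩, ⟨nat_lit 3, nat_lit 100, nat_lit 44, nat_lit 71, nat_lit 288524052⟩, ⟨nat_lit 22, nat_lit 100, nat_lit 70, nat_lit 66, nat_lit 13249132⟩]⟩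
noncomputable def p113_l39 : Lf2 := ⟨nat_lit 0, nat_lit 30, [nat_lit 15, nat_lit 5, nat_lit 5, nat_lit 20], true, nat_lit 36, nat_lit 80, nat_lit 0, nat_lit 352, ⟨nat_lit 0, nat_lit 396, nat_lit 604, nat_lit 6, nat_lit 232, nat_lit 1000, nat_lit 58, nat_lit 604, nat_lit 30817, nat_lit 258, nat_lit 1153, nat_lit 213, nat_lit 48405907, nat_lit 16649468, nat_lit 1944625, nat_lit 3558786, true, false⟩,
 nat_lit 0, nat_lit 0, nat_lit 0, nat_lit 4539, nat_lit 2313, nat_lit 0, nat_lit 0, nat_lit 0, nat_lit 0, nat_lit 0, nat_lit 0, nat_lit 0, nat_lit 0, nat_lit 0, nat_lit 44, nat_lit 250000, nat_lit 0, nat_lit 0, [(nat_lit 29, [(nat_lit 0, nat_lit 396), (nat_lit 4, nat_lit 604)])],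
 ⟨p113_k24, nat_lit 0, nat_lit 0, nat_lit 137, nat_lit 0, nat_lit 0, [nat_lit 945520000, nat_lit 174659201, nat_lit 3726400], [], [nat_lit 21944699776, nat_lit 22702039946, nat_lit 22037349976, nat_lit 22792525965, nat_lit 21644024657, nat_lit 22308309715, nat_lit 21733854672, nat_lit 22405171272], nat_lit 0, nat_lit 0, nat_lit 0, nat_lit 0, nat_lit 0, nat_lit 0, [], [nat_lit 55, nat_lit 40, nat_lit 40, nat_lit 80, nat_lit 3, nat_lit 289, nat_lit 75, nat_lit 10]⟩, C1.Rw.none,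
 ⟨nat_lit 0, nat_lit 1582, ⟨.ofNat (nat_lit 562380), .ofNat (nat_lit 567974), .ofNat (nat_lit 585037), .ofNat (nat_lit 590632), .ofNat (nat_lit 567898), .ofNat (nat_lit 573029), .ofNat (nat_lit 592241), .ofNat (nat_lit 597372)⟩, ⟨.ofNat (nat_lit 90000), .ofNat (nat_lit 196201), .ofNat (nat_lit 90000), .ofNat (nat_lit 200000), .ofNat (nat_lit 90000), .ofNat (nat_lit 199999), .ofNat (nat_lit 90000), .ofNat (nat_lit 200000)⟩⟩, [⟨nat_lit 0, nat_lit 95, nat_lit 31, nat_lit 100, nat_lit 904353539⟩, ⟨nat_lit 3, nat_lit 100, nat_lit 39, nat_lit 72, nat_lit 395220990⟩]⟩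
noncomputable def p113_l40 : Lf2 := ⟨nat_lit 0, nat_lit 25, [nat_lit 44, nat_lit 5, nat_lit 5, nat_lit 20], false, nat_lit 20, nat_lit 80, nat_lit 0, nat_lit 336, ⟨nat_lit 81, nat_lit 252, nat_lit 667, nat_lit 6, nat_lit 243, nat_lit 919, nat_lit 50, nat_lit 667, nat_lit 22817, nat_lit 252, nat_lit 25022, nat_lit 200, nat_lit 47577439, nat_lit 17888628, nat_lit 1533933, nat_lit 3532111, true, false⟩,
 nat_lit 0, nat_lit 0, nat_lit 1362, nat_lit 0, nat_lit 2244, nat_lit 792, nat_lit 0, nat_lit 0, nat_lit 0, nat_lit 56, nat_lit 0, nat_lit 0, nat_lit 0, nat_lit 0, nat_lit 40, nat_lit 229750, nat_lit 0, nat_lit 0, [(nat_lit 29, [(nat_lit 0, nat_lit 252), (nat_lit 4, nat_lit 667)])],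
 ⟨p113_k25, nat_lit 0, nat_lit 0, nat_lit 148, nat_lit 0, nat_lit 0, [nat_lit 940928401, nat_lit 180121201, nat_lit 7548800], [], [nat_lit 21690222652, nat_lit 22910584404, nat_lit 22827325994, nat_lit 24116488284, nat_lit 21343990546, nat_lit 22498170340, nat_lit 22455565514, nat_lit 23692337796], nat_lit 0, nat_lit 0, nat_lit 0, nat_lit 0, nat_lit 0, nat_lit 0, [], [nat_lit 55, nat_lit 40, nat_lit 40, nat_lit 80, nat_lit 3, nat_lit 226, nat_lit 20, nat_lit 8]⟩, ⟨p113_k26, nat_lit 0, nat_lit 0, nat_lit 814, nat_lit 0, nat_lit 1061582, [nat_lit 379728000, nat_lit 797202000, nat_lit 1138698000], [], [nat_lit 3066723756, nat_lit 3040411752, nat_lit 3013132410, nat_lit 3013684308, nat_lit 3236793747, nat_lit 2884537174, nat_lit 2536712950, nat_lit 2441425336], nat_lit 1271250, nat_lit 1271250, nat_lit 1271250, nat_lit 1271250, nat_lit 0, nat_lit 2373000, [nat_lit 1100000, nat_lit 2127500, nat_lit 1271250], [nat_lit 56,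 nat_lit 40, nat_lit 40, nat_lit 80, nat_lit 32, nat_lit 456, nat_lit 225, nat_lit 10]⟩,
 ⟨nat_lit 0, nat_lit 2237, ⟨.ofNat (nat_lit 565543), .ofNat (nat_lit 624400), .ofNat (nat_lit 587391), .ofNat (nat_lit 646249), .ofNat (nat_lit 572220), .ofNat (nat_lit 624062), .ofNat (nat_lit 596294), .ofNat (nat_lit 648136)⟩, ⟨.ofNat (nat_lit 50000), .ofNat (nat_lit 192306), .ofNat (nat_lit 50000), .ofNat (nat_lit 200000), .ofNat (nat_lit 50000), .ofNat (nat_lit 199999), .ofNat (nat_lit 50000), .ofNat (nat_lit 200000)⟩⟩, [⟨nat_lit 3, nat_lit 100, nat_lit 37, nat_lit 74, nat_lit 319599155⟩, ⟨nat_lit 22, nat_lit 100, nat_lit 82, nat_lit 66, nat_lit 10613057⟩]⟩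
noncomputable def p113_l41 : Lf2 := ⟨nat_lit 0, nat_lit 30, [nat_lit 15, nat_lit 5, nat_lit 5, nat_lit 20], false, nat_lit 32, nat_lit 80, nat_lit 0, nat_lit 352, ⟨nat_lit 201, nat_lit 0, nat_lit 799, nat_lit 6, nat_lit 241, nat_lit 799, nat_lit 56, nat_lit 799, nat_lit 29400, nat_lit 257, nat_lit 8419, nat_lit 201, nat_lit 47535184, nat_lit 0, nat_lit 0, nat_lit 3605057, true, false⟩,
 nat_lit 0, nat_lit 0, nat_lit 2743, nat_lit 0, nat_lit 2184, nat_lit 1596, nat_lit 0, nat_lit 0, nat_lit 0, nat_lit 136, nat_lit 0, nat_lit 0, nat_lit 0, nat_lit 0, nat_lit 95, nat_lit 280150, nat_lit 0, nat_lit 0, [(nat_lit 29, [(nat_lit 4, nat_lit 263), (nat_lit 5, nat_lit 536)])],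
 ⟨p113_k27, nat_lit 0, nat_lit 0, nat_lit 149, nat_lit 0, nat_lit 0, [nat_lit 1087008401, nat_lit 571624001, nat_lit 385198400], [], [nat_lit 21538169459, nat_lit 22079512359, nat_lit 22596867052, nat_lit 23110126729, nat_lit 21268069234, nat_lit 21791494138, nat_lit 22308371586, nat_lit 22821771092], nat_lit 0, nat_lit 0, nat_lit 0, nat_lit 0, nat_lit 0, nat_lit 0, [], [nat_lit 54, nat_lit 40, nat_lit 40, nat_lit 80, nat_lit 43, nat_lit 317, nat_lit 100, nat_lit 10]⟩, ⟨p113_k15, nat_lit 0, nat_lit 0, nat_lit 606, nat_lit 0, nat_lit 620516, [nat_lit 942288000, nat_lit 1601568000, nat_lit 2825658000], [], [nat_lit 7279251180, nat_lit 7328392188, nat_lit 7371815268, nat_lit 7414984662, nat_lit 7115952147, nat_lit 6758270033, nat_lit 6643728122, nat_lit 6661726190], nat_lit 1271250, nat_lit 1271250, nat_lit 1271250, nat_lit 1271250, nat_lit 0, nat_lit 2486000, [nat_lit 1100000, nat_lit 1785000, nat_lit 1271250], [nat_lit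 37, nat_lit 40, nat_lit 40, nat_lit 80, nat_lit 28, nat_lit 456, nat_lit 225, nat_lit 10]⟩,
 ⟨nat_lit 1581, nat_lit 2237, ⟨.ofNat (nat_lit 568186), .ofNat (nat_lit 625287), .ofNat (nat_lit 579550), .ofNat (nat_lit 636651), .ofNat (nat_lit 569808), .ofNat (nat_lit 624529), .ofNat (nat_lit 581443), .ofNat (nat_lit 636164)⟩, ⟨.ofNat (nat_lit 80000), .ofNat (nat_lit 200000), .ofNat (nat_lit 80000), .ofNat (nat_lit 200000), .ofNat (nat_lit 80000), .ofNat (nat_lit 200000), .ofNat (nat_lit 80000), .ofNat (nat_lit 200000)⟩⟩, [⟨nat_lit 3, nat_lit 100, nat_lit 43, nat_lit 73, nat_lit 171599282⟩, ⟨nat_lit 22, nat_lit 100, nat_lit 79, nat_lit 70, nat_lit 40215734⟩]⟩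
noncomputable def p113_l42 : Lf2 := ⟨nat_lit 0, nat_lit 30, [nat_lit 15, nat_lit 5, nat_lit 5, nat_lit 20], false, nat_lit 32, nat_lit 80, nat_lit 0, nat_lit 344, ⟨nat_lit 256, nat_lit 0, nat_lit 744, nat_lit 6, nat_lit 246, nat_lit 744, nat_lit 56, nat_lit 744, nat_lit 29400, nat_lit 257, nat_lit 24936, nat_lit 200, nat_lit 47070103, nat_lit 0, nat_lit 0, nat_lit 3637960, true, false⟩,
 nat_lit 0, nat_lit 0, nat_lit 3164, nat_lit 0, nat_lit 2278, nat_lit 1926, nat_lit 0, nat_lit 0, nat_lit 0, nat_lit 191, nat_lit 0, nat_lit 0, nat_lit 0, nat_lit 0, nat_lit 88, nat_lit 297600, nat_lit 0, nat_lit 0, [(nat_lit 29, [(nat_lit 5, nat_lit 744)])],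
 ⟨p113_k27, nat_lit 0, nat_lit 0, nat_lit 147, nat_lit 0, nat_lit 0, [nat_lit 1033766400, nat_lit 576931200, nat_lit 414844800], [], [nat_lit 21629893853, nat_lit 21904919674, nat_lit 22690958404, nat_lit 22949257825, nat_lit 21317010844, nat_lit 21582874853, nat_lit 22359623528, nat_lit 22609575488], nat_lit 0, nat_lit 0, nat_lit 0, nat_lit 0, nat_lit 0, nat_lit 0, [], [nat_lit 54, nat_lit 40, nat_lit 40, nat_lit 80, nat_lit 43, nat_lit 317, nat_lit 100, nat_lit 10]⟩, ⟨p113_k28, nat_lit 0, nat_lit 0, nat_lit 581, nat_lit 0, nat_lit 553134, [nat_lit 1200128000, nat_lit 2039808000, nat_lit 3598848000], [], [nat_lit 8828134178, nat_lit 8890404676, nat_lit 8943587572, nat_lit 8998575036, nat_lit 8371220747, nat_lit 8085000552, nat_lit 8112319744, nat_lit 8166223235], nat_lit 1271250, nat_lit 1271250, nat_lit 1271250, nat_lit 1271250, nat_lit 0, nat_lit 2429500, [nat_lit 1100000, nat_lit 1785000, nat_lit 1271250], [nat_lit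 37, nat_lit 40, nat_lit 40, nat_lit 80, nat_lit 28, nat_lit 456, nat_lit 225, nat_lit 10]⟩,
 ⟨nat_lit 1936, nat_lit 2237, ⟨.ofNat (nat_lit 579679), .ofNat (nat_lit 636710), .ofNat (nat_lit 591062), .ofNat (nat_lit 648093), .ofNat (nat_lit 580507), .ofNat (nat_lit 636412), .ofNat (nat_lit 592008), .ofNat (nat_lit 647913)⟩, ⟨.ofNat (nat_lit 80000), .ofNat (nat_lit 200000), .ofNat (nat_lit 80000), .ofNat (nat_lit 200000), .ofNat (nat_lit 80000), .ofNat (nat_lit 200000), .ofNat (nat_lit 80000), .ofNat (nat_lit 200000)⟩⟩, [⟨nat_lit 3, nat_lit 100, nat_lit 46, nat_lit 71, nat_lit 113404688⟩, ⟨nat_lit 22, nat_lit 100, nat_lit 79, nat_lit 70, nat_lit 52722679⟩]⟩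
noncomputable def p113_l43 : Lf2 := ⟨nat_lit 0, nat_lit 30, [nat_lit 15, nat_lit 5, nat_lit 5, nat_lit 20], false, nat_lit 40, nat_lit 80, nat_lit 0, nat_lit 344, ⟨nat_lit 222, nat_lit 0, nat_lit 778, nat_lit 6, nat_lit 246, nat_lit 778, nat_lit 60, nat_lit 778, nat_lit 33750, nat_lit 260, nat_lit 24552, nat_lit 200, nat_lit 46884833, nat_lit 0, nat_lit 0, nat_lit 3694140, true, false⟩,
 nat_lit 0, nat_lit 0, nat_lit 2616, nat_lit 0, nat_lit 2391, nat_lit 1593, nat_lit 0, nat_lit 0, nat_lit 0, nat_lit 195, nat_lit 0, nat_lit 0, nat_lit 0, nat_lit 0, nat_lit 33, nat_lit 194500, nat_lit 0, nat_lit 0, [(nat_lit 29, [(nat_lit 4, nat_lit 778)])],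
 ⟨p113_k29, nat_lit 0, nat_lit 0, nat_lit 124, nat_lit 0, nat_lit 0, [nat_lit 932760801, nat_lit 336541867, nat_lit 10323111], [], [nat_lit 21950534519, nat_lit 22247957627, nat_lit 23066691240, nat_lit 23373293702, nat_lit 21655461479, nat_lit 21944256429, nat_lit 22755258742, nat_lit 23042965616], nat_lit 0, nat_lit 0, nat_lit 0, nat_lit 0, nat_lit 0, nat_lit 0, [], [nat_lit 20, nat_lit 40, nat_lit 40, nat_lit 80, nat_lit 16, nat_lit 226, nat_lit 20, nat_lit 7]⟩, ⟨p113_k28, nat_lit 0, nat_lit 0, nat_lit 610, nat_lit 0, nat_lit 636283, [nat_lit 1040736000, nat_lit 1768896000, nat_lit 3120876000], [], [nat_lit 7301467809, nat_lit 7355238636, nat_lit 7405325184, nat_lit 7453013640, nat_lit 7264438225, nat_lit 6906515498, nat_lit 6738470309, nat_lit 6769078148], nat_lit 1271250, nat_lit 1271250, nat_lit 1271250, nat_lit 1271250, nat_lit 0, nat_lit 2429500, [nat_lit 1100000, nat_lit 1785000, nat_lit 1271250], [nat_lit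 37, nat_lit 40, nat_lit 40, nat_lit 80, nat_lit 28, nat_lit 456, nat_lit 225, nat_lit 10]⟩,
 ⟨nat_lit 1581, nat_lit 1937, ⟨.ofNat (nat_lit 580486), .ofNat (nat_lit 636404), .ofNat (nat_lit 591984), .ofNat (nat_lit 647901), .ofNat (nat_lit 581551), .ofNat (nat_lit 636215), .ofNat (nat_lit 593201), .ofNat (nat_lit 647865)⟩, ⟨.ofNat (nat_lit 100000), .ofNat (nat_lit 200000), .ofNat (nat_lit 100000), .ofNat (nat_lit 200000), .ofNat (nat_lit 100000), .ofNat (nat_lit 200000), .ofNat (nat_lit 100000), .ofNat (nat_lit 200000)⟩⟩, [⟨nat_lit 3, nat_lit 100, nat_lit 39, nat_lit 76, nat_lit 194403438⟩, ⟨nat_lit 22, nat_lit 100, nat_lit 77, nat_lit 72, nat_lit 45178448⟩]⟩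
noncomputable def p113_l44 : Lf2 := ⟨nat_lit 0, nat_lit 30, [nat_lit 15, nat_lit 5, nat_lit 5, nat_lit 20], false, nat_lit 48, nat_lit 80, nat_lit 0, nat_lit 352, ⟨nat_lit 113, nat_lit 359, nat_lit 528, nat_lit 6, nat_lit 244, nat_lit 887, nat_lit 64, nat_lit 528, nat_lit 38400, nat_lit 263, nat_lit 26116, nat_lit 200, nat_lit 46928865, nat_lit 17830155, nat_lit 2240980, nat_lit 3733784, true, false⟩,
 nat_lit 0, nat_lit 0, nat_lit 1528, nat_lit 0, nat_lit 2666, nat_lit 889, nat_lit 0, nat_lit 0, nat_lit 0, nat_lit 86, nat_lit 0, nat_lit 0, nat_lit 0, nat_lit 0, nat_lit 2, nat_lit 221750, nat_lit 0, nat_lit 0, [(nat_lit 29, [(nat_lit 0, nat_lit 359), (nat_lit 4, nat_lit 528)])],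
 ⟨p113_k30, nat_lit 0, nat_lit 0, nat_lit 125, nat_lit 0, nat_lit 0, [nat_lit 796713200, nat_lit 235551201, nat_lit 3151600], [], [nat_lit 22588129525, nat_lit 23236250866, nat_lit 23711510710, nat_lit 24455398679, nat_lit 22261035616, nat_lit 22865548016, nat_lit 23351789714, nat_lit 23917790160], nat_lit 0, nat_lit 0, nat_lit 0, nat_lit 0, nat_lit 0, nat_lit 0, [], [nat_lit 20, nat_lit 40, nat_lit 40, nat_lit 80, nat_lit 16, nat_lit 226, nat_lit 20, nat_lit 7]⟩, ⟨p113_k15, nat_lit 0, nat_lit 0, nat_lit 737, nat_lit 0, nat_lit 864111, [nat_lit 529744000, nat_lit 900384000, nat_lit 1588554000], [], [nat_lit 4133733208, nat_lit 4167691856, nat_lit 4155335040, nat_lit 4184340784, nat_lit 3990868226, nat_lit 3681640603, nat_lit 3652856889, nat_lit 3664126657], nat_lit 1271250, nat_lit 1271250, nat_lit 1271250, nat_lit 1271250, nat_lit 0, nat_lit 2486000, [nat_lit 1100000, nat_lit 1785000, nat_lit 1271250], [nat_lit 37,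 nat_lit 40, nat_lit 40, nat_lit 80, nat_lit 28, nat_lit 456, nat_lit 225, nat_lit 10]⟩,
 ⟨nat_lit 0, nat_lit 1582, ⟨.ofNat (nat_lit 567974), .ofNat (nat_lit 623921), .ofNat (nat_lit 590632), .ofNat (nat_lit 646579), .ofNat (nat_lit 573029), .ofNat (nat_lit 624340), .ofNat (nat_lit 597372), .ofNat (nat_lit 648683)⟩, ⟨.ofNat (nat_lit 120000), .ofNat (nat_lit 200000), .ofNat (nat_lit 120000), .ofNat (nat_lit 200000), .ofNat (nat_lit 120000), .ofNat (nat_lit 200000), .ofNat (nat_lit 120000), .ofNat (nat_lit 200000)⟩⟩, [⟨nat_lit 3, nat_lit 100, nat_lit 25, nat_lit 86, nat_lit 115241764⟩, ⟨nat_lit 3, nat_lit 100, nat_lit 36, nat_lit 77, nat_lit 282493561⟩, ⟨nat_lit 22, nat_lit 100, nat_lit 75, nat_lit 74, nat_lit 19456647⟩]⟩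
noncomputable def b_V_900_600_20_28 : St := ⟨true, nat_lit 0, nat_lit 1, nat_lit 1, nat_lit 120, nat_lit 380, nat_lit 400, nat_lit 240, nat_lit 280, nat_lit 112, nat_lit 240, nat_lit 80, nat_lit 120, nat_lit 8, nat_lit 80, nat_lit 0, nat_lit 364, nat_lit 80, nat_lit 120, nat_lit 0, nat_lit 0, nat_lit 0, nat_lit 0⟩
theorem d_V_900_600_20_28 (h : EB TB.env) : Dead b_V_900_600_20_28 := chkB_sound0 h (T :=
(.trZ (nat_lit 0) (nat_lit 100) (nat_lit 44) (nat_lit 99) (nat_lit 148) (.trZ (nat_lit 3) (nat_lit 100) (nat_lit 54) (nat_lit 57) (nat_lit 20) (.spl (nat_lit 1) (nat_lit 260)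
(.spl (nat_lit 2) (nat_lit 200)
(.leaf p113_l35)
(.trX (nat_lit 22) (nat_lit 100) (nat_lit 60) (nat_lit 80) (nat_lit 360) (.spl (nat_lit 1) (nat_lit 250)
(.leaf p113_l36)
(.leaf p113_l37))))
(.trZ (nat_lit 0) (nat_lit 96) (nat_lit 44) (nat_lit 100) (nat_lit 168) (.trX (nat_lit 19) (nat_lit 100) (nat_lit 69) (nat_lit 96) (nat_lit 352) (.spl (nat_lit 2) (nat_lit 200)
(.spl (nat_lit 0) (nat_lit 390)
(.leaf p113_l38)
(.trZ (nat_lit 0) (nat_lit 95) (nat_lit 31) (nat_lit 100) (nat_lit 196) (.trZ (nat_lit 3) (nat_lit 100) (nat_lit 39) (nat_lit 72) (nat_lit 36) (.leaf p113_l39))))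
(.spl (nat_lit 3) (nat_lit 100)
(.trX (nat_lit 19) (nat_lit 100) (nat_lit 77) (nat_lit 91) (nat_lit 336) (.leaf p113_l40))
(.trZ (nat_lit 3) (nat_lit 100) (nat_lit 50) (nat_lit 65) (nat_lit 32) (.spl (nat_lit 0) (nat_lit 390)
(.spl (nat_lit 1) (nat_lit 270)
(.leaf p113_l41)
(.trX (nat_lit 19) (nat_lit 100) (nat_lit 74) (nat_lit 98) (nat_lit 344) (.spl (nat_lit 0) (nat_lit 385)
(.leaf p113_l42)
(.trZ (nat_lit 3) (nat_lit 100) (nat_lit 44) (nat_lit 71) (nat_lit 40) (.leaf p113_l43)))))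
(.trZ (nat_lit 3) (nat_lit 100) (nat_lit 36) (nat_lit 77) (nat_lit 48) (.leaf p113_l44)))))))))))) (by decide +kernel)
noncomputable def p113_l45 : Lf2 := ⟨nat_lit 0, nat_lit 30, [nat_lit 15, nat_lit 5, nat_lit 5, nat_lit 20], true, nat_lit 80, nat_lit 160, nat_lit 0, nat_lit 364, ⟨nat_lit 0, nat_lit 0, nat_lit 1000, nat_lit 6, nat_lit 188, nat_lit 1000, nat_lit 104, nat_lit 1000, nat_lit 101400, nat_lit 293, nat_lit 12660, nat_lit 242, nat_lit 50126717, nat_lit 0, nat_lit 0, nat_lit 3801307, false, false⟩,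
 nat_lit 0, nat_lit 0, nat_lit 0, nat_lit 7281, nat_lit 3684, nat_lit 0, nat_lit 0, nat_lit 0, nat_lit 0, nat_lit 0, nat_lit 0, nat_lit 0, nat_lit 0, nat_lit 0, nat_lit 106, nat_lit 246150, nat_lit 0, nat_lit 0, [(nat_lit 26, [(nat_lit 3, nat_lit 77), (nat_lit 4, nat_lit 923)])],
 ⟨p113_k7, nat_lit 0, nat_lit 0, nat_lit 146, nat_lit 0, nat_lit 0, [nat_lit 1184340000, nat_lit 682051200], [], [nat_lit 19249738695, nat_lit 19967318659, nat_lit 19670120912, nat_lit 20343999664, nat_lit 19666526928, nat_lit 20316865559, nat_lit 20052398784, nat_lit 20663756612], nat_lit 0, nat_lit 0, nat_lit 0, nat_lit 0, nat_lit 0, nat_lit 0, [], [nat_lit 132, nat_lit 40, nat_lit 40, nat_lit 80, nat_lit 133, nat_lit 317, nat_lit 100, nat_lit 9]⟩, C1.Rw.none,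
 ⟨nat_lit 2738, nat_lit 3163, ⟨.ofNat (nat_lit 410148), .ofNat (nat_lit 483313), .ofNat (nat_lit 454433), .ofNat (nat_lit 527599), .ofNat (nat_lit 414835), .ofNat (nat_lit 485730), .ofNat (nat_lit 459646), .ofNat (nat_lit 530541)⟩, ⟨.ofNat (nat_lit 184209), .ofNat (nat_lit 306116), .ofNat (nat_lit 200000), .ofNat (nat_lit 350426), .ofNat (nat_lit 188310), .ofNat (nat_lit 306433), .ofNat (nat_lit 200000), .ofNat (nat_lit 351268)⟩⟩, [⟨nat_lit 0, nat_lit 93, nat_lit 53, nat_lit 100, nat_lit 309386211⟩]⟩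
noncomputable def p113_l46 : Lf2 := ⟨nat_lit 0, nat_lit 30, [nat_lit 15, nat_lit 5, nat_lit 5, nat_lit 20], true, nat_lit 80, nat_lit 160, nat_lit 0, nat_lit 364, ⟨nat_lit 0, nat_lit 1000, nat_lit 0, nat_lit 6, nat_lit 227, nat_lit 1000, nat_lit 104, nat_lit 0, nat_lit 0, nat_lit 0, nat_lit 0, nat_lit 0, nat_lit 46520448, nat_lit 15786953, nat_lit 4692599, nat_lit 4142024, false, false⟩,
 nat_lit 0, nat_lit 0, nat_lit 0, nat_lit 6861, nat_lit 3853, nat_lit 0, nat_lit 0, nat_lit 0, nat_lit 0, nat_lit 0, nat_lit 0, nat_lit 0, nat_lit 0, nat_lit 0, nat_lit 0, nat_lit 250000, nat_lit 0, nat_lit 0, [(nat_lit 26, [(nat_lit 0, nat_lit 1000)])],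
 ⟨p113_k9, nat_lit 0, nat_lit 0, nat_lit 69, nat_lit 0, nat_lit 0, [nat_lit 765600000, nat_lit 1845600000, nat_lit 2928480000], [], [nat_lit 19651094700, nat_lit 20513595410, nat_lit 22094544196, nat_lit 22843496916, nat_lit 20351793072, nat_lit 21128441863, nat_lit 22574422736, nat_lit 23251450877], nat_lit 0, nat_lit 0, nat_lit 0, nat_lit 0, nat_lit 0, nat_lit 0, [], [nat_lit 81, nat_lit 40, nat_lit 40, nat_lit 80, nat_lit 13, nat_lit 317, nat_lit 100, nat_lit 8]⟩, C1.Rw.none,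
 ⟨nat_lit 2738, nat_lit 3163, ⟨.ofNat (nat_lit 483313), .ofNat (nat_lit 605257), .ofNat (nat_lit 527599), .ofNat (nat_lit 649542), .ofNat (nat_lit 485730), .ofNat (nat_lit 603890), .ofNat (nat_lit 530541), .ofNat (nat_lit 648700)⟩, ⟨.ofNat (nat_lit 184209), .ofNat (nat_lit 306116), .ofNat (nat_lit 200000), .ofNat (nat_lit 350426), .ofNat (nat_lit 188310), .ofNat (nat_lit 306433), .ofNat (nat_lit 200000), .ofNat (nat_lit 351268)⟩⟩, []⟩
noncomputable def p113_l47 : Lf2 := ⟨nat_lit 0, nat_lit 30, [nat_lit 15, nat_lit 5, nat_lit 5, nat_lit 20], true, nat_lit 80, nat_lit 160, nat_lit 0, nat_lit 364, ⟨nat_lit 0, nat_lit 229, nat_lit 771, nat_lit 6, nat_lit 213, nat_lit 1000, nat_lit 105, nat_lit 771, nat_lit 104017, nat_lit 294, nat_lit 6376, nat_lit 204, nat_lit 47756428, nat_lit 14465674, nat_lit 4777898, nat_lit 4041188, false, false⟩,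
 nat_lit 0, nat_lit 0, nat_lit 0, nat_lit 6539, nat_lit 3001, nat_lit 0, nat_lit 0, nat_lit 0, nat_lit 0, nat_lit 0, nat_lit 0, nat_lit 0, nat_lit 0, nat_lit 0, nat_lit 45, nat_lit 220350, nat_lit 0, nat_lit 0, [(nat_lit 26, [(nat_lit 0, nat_lit 229), (nat_lit 3, nat_lit 593), (nat_lit 4, nat_lit 178)])],
 ⟨p113_k4, nat_lit 0, nat_lit 0, nat_lit 122, nat_lit 0, nat_lit 0, [nat_lit 1174143201, nat_lit 437393201, nat_lit 11544000], [], [nat_lit 19707031380, nat_lit 20382262547, nat_lit 22135534416, nat_lit 22706217448, nat_lit 20475660105, nat_lit 21088652699, nat_lit 22710978982, nat_lit 23237905967], nat_lit 0, nat_lit 0, nat_lit 0, nat_lit 0, nat_lit 0, nat_lit 0, [], [nat_lit 57, nat_lit 40, nat_lit 40, nat_lit 80, nat_lit 7, nat_lit 317, nat_lit 100, nat_lit 10]⟩, C1.Rw.none,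
 ⟨nat_lit 2236, nat_lit 2739, ⟨.ofNat (nat_lit 438420), .ofNat (nat_lit 603890), .ofNat (nat_lit 460818), .ofNat (nat_lit 626287), .ofNat (nat_lit 442816), .ofNat (nat_lit 602558), .ofNat (nat_lit 465571), .ofNat (nat_lit 625312)⟩, ⟨.ofNat (nat_lit 188310), .ofNat (nat_lit 306433), .ofNat (nat_lit 200000), .ofNat (nat_lit 351268), .ofNat (nat_lit 192306), .ofNat (nat_lit 306337), .ofNat (nat_lit 200000), .ofNat (nat_lit 351886)⟩⟩, []⟩
noncomputable def p113_l48 : Lf2 := ⟨nat_lit 0, nat_lit 30, [nat_lit 15, nat_lit 5, nat_lit 5, nat_lit 20], true, nat_lit 80, nat_lit 160, nat_lit 0, nat_lit 352, ⟨nat_lit 0, nat_lit 1000, nat_lit 0, nat_lit 6, nat_lit 228, nat_lit 1000, nat_lit 105, nat_lit 0, nat_lit 0, nat_lit 0, nat_lit 0, nat_lit 0, nat_lit 46361686, nat_lit 15919218, nat_lit 4719096, nat_lit 4158476, false, false⟩,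
 nat_lit 0, nat_lit 0, nat_lit 0, nat_lit 6688, nat_lit 3648, nat_lit 0, nat_lit 0, nat_lit 0, nat_lit 0, nat_lit 0, nat_lit 0, nat_lit 0, nat_lit 0, nat_lit 0, nat_lit 0, nat_lit 250000, nat_lit 0, nat_lit 0, [(nat_lit 26, [(nat_lit 0, nat_lit 1000)])],
 ⟨p113_k4, nat_lit 0, nat_lit 0, nat_lit 76, nat_lit 0, nat_lit 0, [nat_lit 765600000, nat_lit 1715200000, nat_lit 2512800000], [], [nat_lit 20251069742, nat_lit 21102940841, nat_lit 22749264656, nat_lit 23477258176, nat_lit 20939865782, nat_lit 21707451180, nat_lit 23224492032, nat_lit 23883296288], nat_lit 0, nat_lit 0, nat_lit 0, nat_lit 0, nat_lit 0, nat_lit 0, [], [nat_lit 57, nat_lit 40, nat_lit 40, nat_lit 80, nat_lit 7, nat_lit 317, nat_lit 100, nat_lit 10]⟩, C1.Rw.none,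
 ⟨nat_lit 2236, nat_lit 2739, ⟨.ofNat (nat_lit 490366), .ofNat (nat_lit 626287), .ofNat (nat_lit 512763), .ofNat (nat_lit 648684), .ofNat (nat_lit 494096), .ofNat (nat_lit 625312), .ofNat (nat_lit 516850), .ofNat (nat_lit 648065)⟩, ⟨.ofNat (nat_lit 188310), .ofNat (nat_lit 306433), .ofNat (nat_lit 200000), .ofNat (nat_lit 351268), .ofNat (nat_lit 192306), .ofNat (nat_lit 306337), .ofNat (nat_lit 200000), .ofNat (nat_lit 351886)⟩⟩, []⟩
noncomputable def p113_l49 : Lf2 := ⟨nat_lit 0, nat_lit 30, [nat_lit 15, nat_lit 5, nat_lit 5, nat_lit 20], true, nat_lit 80, nat_lit 160, nat_lit 0, nat_lit 364, ⟨nat_lit 0, nat_lit 146, nat_lit 854, nat_lit 6, nat_lit 213, nat_lit 1000, nat_lit 105, nat_lit 854, nat_lit 104017, nat_lit 294, nat_lit 4820, nat_lit 214, nat_lit 47755959, nat_lit 14452290, nat_lit 4791751, nat_lit 4042698, false, false⟩,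
 nat_lit 0, nat_lit 0, nat_lit 0, nat_lit 4168, nat_lit 2437, nat_lit 0, nat_lit 0, nat_lit 0, nat_lit 0, nat_lit 0, nat_lit 0, nat_lit 0, nat_lit 0, nat_lit 0, nat_lit 106, nat_lit 250000, nat_lit 0, nat_lit 0, [(nat_lit 29, [(nat_lit 0, nat_lit 146), (nat_lit 4, nat_lit 854)])],
 ⟨p113_k22, nat_lit 0, nat_lit 0, nat_lit 128, nat_lit 0, nat_lit 0, [nat_lit 1188520001, nat_lit 227671200], [], [nat_lit 19663592573, nat_lit 21135806168, nat_lit 20718098737, nat_lit 22223128436, nat_lit 20564806457, nat_lit 21923836910, nat_lit 21740178507, nat_lit 23019026263], nat_lit 0, nat_lit 0, nat_lit 0, nat_lit 0, nat_lit 0, nat_lit 0, [], [nat_lit 141, nat_lit 40, nat_lit 40, nat_lit 80, nat_lit 142, nat_lit 317, nat_lit 100, nat_lit 10]⟩, C1.Rw.none,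
 ⟨nat_lit 0, nat_lit 2237, ⟨.ofNat (nat_lit 467180), .ofNat (nat_lit 543695), .ofNat (nat_lit 510875), .ofNat (nat_lit 587391), .ofNat (nat_lit 480752), .ofNat (nat_lit 548146), .ofNat (nat_lit 528899), .ofNat (nat_lit 596294)⟩, ⟨.ofNat (nat_lit 192306), .ofNat (nat_lit 306334), .ofNat (nat_lit 200000), .ofNat (nat_lit 351885), .ofNat (nat_lit 199999), .ofNat (nat_lit 299996), .ofNat (nat_lit 200000), .ofNat (nat_lit 349998)⟩⟩, [⟨nat_lit 0, nat_lit 95, nat_lit 31, nat_lit 100, nat_lit 187061652⟩]⟩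
noncomputable def p113_l50 : Lf2 := ⟨nat_lit 0, nat_lit 30, [nat_lit 15, nat_lit 5, nat_lit 5, nat_lit 20], true, nat_lit 80, nat_lit 160, nat_lit 0, nat_lit 364, ⟨nat_lit 0, nat_lit 778, nat_lit 222, nat_lit 6, nat_lit 239, nat_lit 1000, nat_lit 105, nat_lit 222, nat_lit 104017, nat_lit 294, nat_lit 24936, nat_lit 200, nat_lit 45347241, nat_lit 16960432, nat_lit 4692327, nat_lit 4236839, true, false⟩,
 nat_lit 0, nat_lit 0, nat_lit 0, nat_lit 5297, nat_lit 2965, nat_lit 0, nat_lit 0, nat_lit 0, nat_lit 0, nat_lit 0, nat_lit 0, nat_lit 0, nat_lit 0, nat_lit 0, nat_lit 0, nat_lit 237790, nat_lit 0, nat_lit 0, [(nat_lit 29, [(nat_lit 0, nat_lit 778), (nat_lit 3, nat_lit 222)])],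
 ⟨p113_k6, nat_lit 0, nat_lit 0, nat_lit 79, nat_lit 0, nat_lit 0, [nat_lit 862408001, nat_lit 904693601, nat_lit 1101859467], [], [nat_lit 21518248163, nat_lit 21854959058, nat_lit 22732365483, nat_lit 23046688700, nat_lit 22346483433, nat_lit 22651927591, nat_lit 23460698203, nat_lit 23746447988], nat_lit 0, nat_lit 0, nat_lit 0, nat_lit 0, nat_lit 0, nat_lit 0, [], [nat_lit 57, nat_lit 40, nat_lit 40, nat_lit 80, nat_lit 7, nat_lit 317, nat_lit 100, nat_lit 9]⟩, C1.Rw.none,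
 ⟨nat_lit 1936, nat_lit 2237, ⟨.ofNat (nat_lit 545531), .ofNat (nat_lit 602562), .ofNat (nat_lit 591062), .ofNat (nat_lit 648093), .ofNat (nat_lit 546004), .ofNat (nat_lit 601908), .ofNat (nat_lit 592008), .ofNat (nat_lit 647913)⟩, ⟨.ofNat (nat_lit 192306), .ofNat (nat_lit 306337), .ofNat (nat_lit 200000), .ofNat (nat_lit 351886), .ofNat (nat_lit 194266), .ofNat (nat_lit 306044), .ofNat (nat_lit 200000), .ofNat (nat_lit 352066)⟩⟩, []⟩
noncomputable def p113_l51 : Lf2 := ⟨nat_lit 0, nat_lit 30, [nat_lit 15, nat_lit 5, nat_lit 5, nat_lit 20], true, nat_lit 80, nat_lit 160, nat_lit 0, nat_lit 364, ⟨nat_lit 0, nat_lit 571, nat_lit 429, nat_lit 6, nat_lit 239, nat_lit 1000, nat_lit 105, nat_lit 429, nat_lit 104017, nat_lit 294, nat_lit 24552, nat_lit 200, nat_lit 45330701, nat_lit 16966721, nat_lit 4702578, nat_lit 4239366, true, false⟩,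
 nat_lit 0, nat_lit 0, nat_lit 0, nat_lit 0, nat_lit 2782, nat_lit 0, nat_lit 0, nat_lit 0, nat_lit 0, nat_lit 0, nat_lit 0, nat_lit 0, nat_lit 0, nat_lit 0, nat_lit 6, nat_lit 250000, nat_lit 0, nat_lit 0, [(nat_lit 29, [(nat_lit 0, nat_lit 571), (nat_lit 4, nat_lit 429)])],
 ⟨p113_k31, nat_lit 0, nat_lit 0, nat_lit 98, nat_lit 0, nat_lit 0, [nat_lit 797020001, nat_lit 15196400], [], [nat_lit 21739044434, nat_lit 22046978834, nat_lit 22853362459, nat_lit 23189020584, nat_lit 22521983731, nat_lit 22802184224, nat_lit 23547807480, nat_lit 23810561694], nat_lit 0, nat_lit 0, nat_lit 0, nat_lit 0, nat_lit 0, nat_lit 0, [], [nat_lit 88, nat_lit 40, nat_lit 40, nat_lit 80, nat_lit 89, nat_lit 249, nat_lit 40, nat_lit 8]⟩, C1.Rw.none,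
 ⟨nat_lit 1581, nat_lit 1937, ⟨.ofNat (nat_lit 545992), .ofNat (nat_lit 601908), .ofNat (nat_lit 591984), .ofNat (nat_lit 647901), .ofNat (nat_lit 546601), .ofNat (nat_lit 601263), .ofNat (nat_lit 593201), .ofNat (nat_lit 647865)⟩, ⟨.ofNat (nat_lit 194266), .ofNat (nat_lit 306044), .ofNat (nat_lit 200000), .ofNat (nat_lit 352066), .ofNat (nat_lit 196201), .ofNat (nat_lit 305473), .ofNat (nat_lit 200000), .ofNat (nat_lit 352103)⟩⟩, []⟩
noncomputable def p113_l52 : Lf2 := ⟨nat_lit 0, nat_lit 30, [nat_lit 15, nat_lit 5, nat_lit 5, nat_lit 20], true, nat_lit 80, nat_lit 160, nat_lit 0, nat_lit 364, ⟨nat_lit 0, nat_lit 578, nat_lit 422, nat_lit 6, nat_lit 239, nat_lit 1000, nat_lit 105, nat_lit 422, nat_lit 104017, nat_lit 294, nat_lit 26116, nat_lit 200, nat_lit 45328828, nat_lit 16976847, nat_lit 4694325, nat_lit 4238500, true, false⟩,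
 nat_lit 0, nat_lit 0, nat_lit 0, nat_lit 0, nat_lit 2768, nat_lit 0, nat_lit 0, nat_lit 0, nat_lit 0, nat_lit 0, nat_lit 0, nat_lit 0, nat_lit 0, nat_lit 0, nat_lit 4, nat_lit 250000, nat_lit 0, nat_lit 0, [(nat_lit 29, [(nat_lit 0, nat_lit 578), (nat_lit 4, nat_lit 422)])],
 ⟨p113_k32, nat_lit 0, nat_lit 0, nat_lit 103, nat_lit 0, nat_lit 0, [nat_lit 789160000, nat_lit 6055200], [], [nat_lit 22091962568, nat_lit 22721266272, nat_lit 23186016672, nat_lit 23912551968, nat_lit 22851519928, nat_lit 23410730592, nat_lit 23859665208, nat_lit 24398668960], nat_lit 0, nat_lit 0, nat_lit 0, nat_lit 0, nat_lit 0, nat_lit 0, [], [nat_lit 88, nat_lit 40, nat_lit 40, nat_lit 80, nat_lit 89, nat_lit 249, nat_lit 40, nat_lit 8]⟩, C1.Rw.none,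
 ⟨nat_lit 0, nat_lit 1582, ⟨.ofNat (nat_lit 545316), .ofNat (nat_lit 601257), .ofNat (nat_lit 590632), .ofNat (nat_lit 646579), .ofNat (nat_lit 548686), .ofNat (nat_lit 599992), .ofNat (nat_lit 597372), .ofNat (nat_lit 648683)⟩, ⟨.ofNat (nat_lit 196201), .ofNat (nat_lit 305469), .ofNat (nat_lit 200000), .ofNat (nat_lit 352101), .ofNat (nat_lit 199999), .ofNat (nat_lit 299995), .ofNat (nat_lit 200000), .ofNat (nat_lit 349997)⟩⟩, []⟩
noncomputable def b_V_900_600_20_29 : St := ⟨true, nat_lit 0, nat_lit 1, nat_lit 1, nat_lit 120, nat_lit 360, nat_lit 400, nat_lit 240, nat_lit 280, nat_lit 112, nat_lit 240, nat_lit 80, nat_lit 120, nat_lit 80, nat_lit 160, nat_lit 0, nat_lit 364, nat_lit 80, nat_lit 120, nat_lit 0, nat_lit 0, nat_lit 0, nat_lit 0⟩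
theorem d_V_900_600_20_29 (h : EB TB.env) : Dead b_V_900_600_20_29 := chkB_sound0 h (T :=
(.spl (nat_lit 0) (nat_lit 380)
(.spl (nat_lit 0) (nat_lit 370)
(.spl (nat_lit 2) (nat_lit 160)
(.leaf p113_l45)
(.leaf p113_l46))
(.trZ (nat_lit 0) (nat_lit 100) (nat_lit 54) (nat_lit 96) (nat_lit 128) (.spl (nat_lit 1) (nat_lit 260)
(.leaf p113_l47)
(.trZ (nat_lit 0) (nat_lit 98) (nat_lit 54) (nat_lit 100) (nat_lit 148) (.trX (nat_lit 19) (nat_lit 100) (nat_lit 69) (nat_lit 96) (nat_lit 352) (.leaf p113_l48))))))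
(.trZ (nat_lit 0) (nat_lit 100) (nat_lit 44) (nat_lit 99) (nat_lit 148) (.spl (nat_lit 2) (nat_lit 200)
(.leaf p113_l49)
(.spl (nat_lit 0) (nat_lit 390)
(.spl (nat_lit 0) (nat_lit 385)
(.leaf p113_l50)
(.leaf p113_l51))
(.leaf p113_l52)))))) (by decide +kernel)
noncomputable def p113_l53 : Lf2 := ⟨nat_lit 0, nat_lit 30, [nat_lit 15, nat_lit 5, nat_lit 5, nat_lit 20], true, nat_lit 160, nat_lit 248, nat_lit 0, nat_lit 364, ⟨nat_lit 0, nat_lit 0, nat_lit 1000, nat_lit 6, nat_lit 189, nat_lit 1000, nat_lit 157, nat_lit 1000, nat_lit 61189, nat_lit 275, nat_lit 15023, nat_lit 241, nat_lit 46381514, nat_lit 0, nat_lit 0, nat_lit 4441502, false, false⟩,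
 nat_lit 0, nat_lit 0, nat_lit 0, nat_lit 6574, nat_lit 3681, nat_lit 0, nat_lit 0, nat_lit 0, nat_lit 0, nat_lit 0, nat_lit 0, nat_lit 0, nat_lit 0, nat_lit 0, nat_lit 84, nat_lit 200000, nat_lit 0, nat_lit 0, [(nat_lit 26, [(nat_lit 3, nat_lit 1000)])],
 ⟨p113_k7, nat_lit 0, nat_lit 0, nat_lit 109, nat_lit 0, nat_lit 0, [nat_lit 1484000001, nat_lit 680400000], [], [nat_lit 20281809052, nat_lit 21581968780, nat_lit 20668190656, nat_lit 21890433410, nat_lit 22338304482, nat_lit 23787091020, nat_lit 22599115368, nat_lit 24121358243], nat_lit 0, nat_lit 0, nat_lit 0, nat_lit 0, nat_lit 0, nat_lit 0, [], [nat_lit 132, nat_lit 40, nat_lit 40, nat_lit 80, nat_lit 133, nat_lit 345, nat_lit 125, nat_lit 9]⟩, C1.Rw.none,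
 ⟨nat_lit 2236, nat_lit 3163, ⟨.ofNat (nat_lit 409856), .ofNat (nat_lit 483125), .ofNat (nat_lit 454039), .ofNat (nat_lit 527308), .ofNat (nat_lit 419758), .ofNat (nat_lit 488302), .ofNat (nat_lit 465180), .ofNat (nat_lit 533723)⟩, ⟨.ofNat (nat_lit 306116), .ofNat (nat_lit 440213), .ofNat (nat_lit 350426), .ofNat (nat_lit 484523), .ofNat (nat_lit 306337), .ofNat (nat_lit 431772), .ofNat (nat_lit 351886), .ofNat (nat_lit 477320)⟩⟩, [⟨nat_lit 0, nat_lit 98, nat_lit 54, nat_lit 100, nat_lit 164383378⟩, ⟨nat_lit 16, nat_lit 62, nat_lit 100, nat_lit 94, nat_lit 207058217⟩]⟩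
noncomputable def p113_l54 : Lf2 := ⟨nat_lit 0, nat_lit 30, [nat_lit 15, nat_lit 5, nat_lit 5, nat_lit 20], true, nat_lit 160, nat_lit 248, nat_lit 0, nat_lit 364, ⟨nat_lit 0, nat_lit 746, nat_lit 254, nat_lit 6, nat_lit 215, nat_lit 1000, nat_lit 157, nat_lit 254, nat_lit 61189, nat_lit 275, nat_lit 4971, nat_lit 216, nat_lit 44240629, nat_lit 14127453, nat_lit 8631918, nat_lit 4652239, false, false⟩,
 nat_lit 0, nat_lit 0, nat_lit 0, nat_lit 6802, nat_lit 3226, nat_lit 0, nat_lit 0, nat_lit 0, nat_lit 0, nat_lit 0, nat_lit 0, nat_lit 0, nat_lit 0, nat_lit 0, nat_lit 0, nat_lit 237300, nat_lit 0, nat_lit 0, [(nat_lit 26, [(nat_lit 0, nat_lit 746), (nat_lit 3, nat_lit 254)])],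
 ⟨p113_k9, nat_lit 0, nat_lit 0, nat_lit 55, nat_lit 0, nat_lit 0, [nat_lit 862729601, nat_lit 1165997600, nat_lit 1717306400], [], [nat_lit 20072076224, nat_lit 21490008268, nat_lit 21034706648, nat_lit 22366943036, nat_lit 22577289571, nat_lit 23801347912, nat_lit 23376934936, nat_lit 24530229788], nat_lit 0, nat_lit 0, nat_lit 0, nat_lit 0, nat_lit 0, nat_lit 0, [], [nat_lit 81, nat_lit 40, nat_lit 40, nat_lit 80, nat_lit 13, nat_lit 345, nat_lit 125, nat_lit 9]⟩, C1.Rw.none,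
 ⟨nat_lit 2236, nat_lit 3163, ⟨.ofNat (nat_lit 483125), .ofNat (nat_lit 544182), .ofNat (nat_lit 527308), .ofNat (nat_lit 588366), .ofNat (nat_lit 488302), .ofNat (nat_lit 545421), .ofNat (nat_lit 533723), .ofNat (nat_lit 590843)⟩, ⟨.ofNat (nat_lit 306116), .ofNat (nat_lit 440213), .ofNat (nat_lit 350426), .ofNat (nat_lit 484523), .ofNat (nat_lit 306337), .ofNat (nat_lit 431772), .ofNat (nat_lit 351886), .ofNat (nat_lit 477320)⟩⟩, [⟨nat_lit 4, nat_lit 100, nat_lit 53, nat_lit 87, nat_lit 300214460⟩]⟩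
noncomputable def p113_l55 : Lf2 := ⟨nat_lit 0, nat_lit 30, [nat_lit 15, nat_lit 5, nat_lit 5, nat_lit 20], true, nat_lit 160, nat_lit 248, nat_lit 0, nat_lit 364, ⟨nat_lit 0, nat_lit 1000, nat_lit 0, nat_lit 6, nat_lit 239, nat_lit 1000, nat_lit 157, nat_lit 0, nat_lit 0, nat_lit 0, nat_lit 0, nat_lit 0, nat_lit 42295353, nat_lit 16289116, nat_lit 8415531, nat_lit 4805198, true, false⟩,
 nat_lit 0, nat_lit 0, nat_lit 0, nat_lit 7005, nat_lit 3693, nat_lit 0, nat_lit 0, nat_lit 0, nat_lit 0, nat_lit 0, nat_lit 0, nat_lit 0, nat_lit 0, nat_lit 0, nat_lit 0, nat_lit 250000, nat_lit 0, nat_lit 0, [(nat_lit 26, [(nat_lit 0, nat_lit 1000)])],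
 ⟨p113_k9, nat_lit 0, nat_lit 0, nat_lit 53, nat_lit 0, nat_lit 0, [nat_lit 765600000, nat_lit 1845600000, nat_lit 2928480000], [], [nat_lit 21411108364, nat_lit 22835501598, nat_lit 22669380816, nat_lit 23994990058, nat_lit 23772211484, nat_lit 24999573470, nat_lit 24825765218, nat_lit 25971393602], nat_lit 0, nat_lit 0, nat_lit 0, nat_lit 0, nat_lit 0, nat_lit 0, [], [nat_lit 81, nat_lit 40, nat_lit 40, nat_lit 80, nat_lit 13, nat_lit 345, nat_lit 125, nat_lit 9]⟩, C1.Rw.none,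
 ⟨nat_lit 2236, nat_lit 3163, ⟨.ofNat (nat_lit 544182), .ofNat (nat_lit 605240), .ofNat (nat_lit 588366), .ofNat (nat_lit 649422), .ofNat (nat_lit 545421), .ofNat (nat_lit 602541), .ofNat (nat_lit 590843), .ofNat (nat_lit 647962)⟩, ⟨.ofNat (nat_lit 306116), .ofNat (nat_lit 440213), .ofNat (nat_lit 350426), .ofNat (nat_lit 484523), .ofNat (nat_lit 306337), .ofNat (nat_lit 431772), .ofNat (nat_lit 351886), .ofNat (nat_lit 477320)⟩⟩, [⟨nat_lit 16, nat_lit 53, nat_lit 100, nat_lit 87, nat_lit 276040937⟩]⟩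
noncomputable def p113_l56 : Lf2 := ⟨nat_lit 0, nat_lit 30, [nat_lit 15, nat_lit 5, nat_lit 5, nat_lit 20], true, nat_lit 160, nat_lit 208, nat_lit 0, nat_lit 364, ⟨nat_lit 0, nat_lit 413, nat_lit 587, nat_lit 6, nat_lit 220, nat_lit 1000, nat_lit 144, nat_lit 587, nat_lit 194400, nat_lit 323, nat_lit 2526, nat_lit 204, nat_lit 44758896, nat_lit 14707090, nat_lit 7534014, nat_lit 4544872, false, false⟩,
 nat_lit 0, nat_lit 0, nat_lit 0, nat_lit 6283, nat_lit 3370, nat_lit 0, nat_lit 0, nat_lit 0, nat_lit 0, nat_lit 0, nat_lit 0, nat_lit 0, nat_lit 0, nat_lit 0, nat_lit 25, nat_lit 217715, nat_lit 0, nat_lit 0, [(nat_lit 29, [(nat_lit 0, nat_lit 413), (nat_lit 3, nat_lit 587)])],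
 ⟨p113_k22, nat_lit 0, nat_lit 0, nat_lit 93, nat_lit 0, nat_lit 0, [nat_lit 1095268000, nat_lit 62628000], [], [nat_lit 21615428396, nat_lit 22904356064, nat_lit 23529843300, nat_lit 25009530400, nat_lit 22668909559, nat_lit 24099927480, nat_lit 24667607821, nat_lit 26035656809], nat_lit 0, nat_lit 0, nat_lit 0, nat_lit 0, nat_lit 0, nat_lit 0, [], [nat_lit 141, nat_lit 40, nat_lit 40, nat_lit 80, nat_lit 142, nat_lit 345, nat_lit 125, nat_lit 10]⟩, C1.Rw.none,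
 ⟨nat_lit 0, nat_lit 2237, ⟨.ofNat (nat_lit 467180), .ofNat (nat_lit 602531), .ofNat (nat_lit 489028), .ofNat (nat_lit 624400), .ofNat (nat_lit 480752), .ofNat (nat_lit 599967), .ofNat (nat_lit 504825), .ofNat (nat_lit 624062)⟩, ⟨.ofNat (nat_lit 306334), .ofNat (nat_lit 374750), .ofNat (nat_lit 351885), .ofNat (nat_lit 420300), .ofNat (nat_lit 299996), .ofNat (nat_lit 359993), .ofNat (nat_lit 349998), .ofNat (nat_lit 409994)⟩⟩, [⟨nat_lit 4, nat_lit 100, nat_lit 32, nat_lit 88, nat_lit 447306110⟩]⟩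
noncomputable def p113_l57 : Lf2 := ⟨nat_lit 0, nat_lit 30, [nat_lit 15, nat_lit 5, nat_lit 5, nat_lit 20], false, nat_lit 160, nat_lit 208, nat_lit 0, nat_lit 352, ⟨nat_lit 45, nat_lit 955, nat_lit 0, nat_lit 6, nat_lit 234, nat_lit 955, nat_lit 144, nat_lit 0, nat_lit 0, nat_lit 0, nat_lit 0, nat_lit 0, nat_lit 43500591, nat_lit 16079312, nat_lit 7420097, nat_lit 4643522, false, false⟩,
 nat_lit 0, nat_lit 0, nat_lit 1415, nat_lit 1177, nat_lit 3654, nat_lit 823, nat_lit 0, nat_lit 0, nat_lit 0, nat_lit 5, nat_lit 0, nat_lit 0, nat_lit 0, nat_lit 0, nat_lit 0, nat_lit 238750, nat_lit 0, nat_lit 0, [(nat_lit 29, [(nat_lit 0, nat_lit 955)])],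
 ⟨p113_k6, nat_lit 0, nat_lit 0, nat_lit 67, nat_lit 0, nat_lit 0, [nat_lit 788638001, nat_lit 1694266001, nat_lit 2432238667], [], [nat_lit 22010527388, nat_lit 23502134539, nat_lit 23859868125, nat_lit 25297710880, nat_lit 23206834639, nat_lit 24650422734, nat_lit 24888548145, nat_lit 26311085234], nat_lit 0, nat_lit 0, nat_lit 0, nat_lit 0, nat_lit 0, nat_lit 0, [], [nat_lit 57, nat_lit 40, nat_lit 40, nat_lit 80, nat_lit 7, nat_lit 345, nat_lit 125, nat_lit 10]⟩, ⟨p113_k21, nat_lit 0, nat_lit 0, nat_lit 840, nat_lit 0, nat_lit 1094530, [nat_lit 210960000, nat_lit 442890000, nat_lit 632610000], [], [nat_lit 2851125565, nat_lit 2410575311, nat_lit 2108264984, nat_lit 2175163580, nat_lit 2413541972, nat_lit 2045590260, nat_lit 1551764147, nat_lit 1567273378], nat_lit 1271250, nat_lit 1271250, nat_lit 1271250, nat_lit 1271250, nat_lit 0, nat_lit 2486000, [nat_lit 1100000, nat_lit 2127500, nat_lit 1271250], [nat_lit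 56, nat_lit 40, nat_lit 40, nat_lit 80, nat_lit 32, nat_lit 456, nat_lit 225, nat_lit 10]⟩,
 ⟨nat_lit 0, nat_lit 2237, ⟨.ofNat (nat_lit 518456), .ofNat (nat_lit 624400), .ofNat (nat_lit 540305), .ofNat (nat_lit 646249), .ofNat (nat_lit 530746), .ofNat (nat_lit 624062), .ofNat (nat_lit 554820), .ofNat (nat_lit 648136)⟩, ⟨.ofNat (nat_lit 306334), .ofNat (nat_lit 374750), .ofNat (nat_lit 351885), .ofNat (nat_lit 420300), .ofNat (nat_lit 299996), .ofNat (nat_lit 359993), .ofNat (nat_lit 349998), .ofNat (nat_lit 409994)⟩⟩, [⟨nat_lit 16, nat_lit 44, nat_lit 100, nat_lit 92, nat_lit 319345739⟩]⟩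
noncomputable def b_V_900_600_20_30 : St := ⟨true, nat_lit 0, nat_lit 1, nat_lit 1, nat_lit 120, nat_lit 360, nat_lit 400, nat_lit 240, nat_lit 280, nat_lit 112, nat_lit 240, nat_lit 80, nat_lit 120, nat_lit 160, nat_lit 248, nat_lit 0, nat_lit 364, nat_lit 80, nat_lit 120, nat_lit 0, nat_lit 0, nat_lit 0, nat_lit 0⟩
theorem d_V_900_600_20_30 (h : EB TB.env) : Dead b_V_900_600_20_30 := chkB_sound0 h (T :=
(.spl (nat_lit 0) (nat_lit 380)
(.spl (nat_lit 2) (nat_lit 160)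
(.leaf p113_l53)
(.spl (nat_lit 2) (nat_lit 200)
(.leaf p113_l54)
(.leaf p113_l55)))
(.trZ (nat_lit 0) (nat_lit 100) (nat_lit 44) (nat_lit 99) (nat_lit 148) (.trX (nat_lit 16) (nat_lit 44) (nat_lit 100) (nat_lit 92) (nat_lit 208) (.spl (nat_lit 1) (nat_lit 260)
(.leaf p113_l56)
(.trZ (nat_lit 0) (nat_lit 96) (nat_lit 44) (nat_lit 100) (nat_lit 168) (.trX (nat_lit 19) (nat_lit 100) (nat_lit 69) (nat_lit 96) (nat_lit 352) (.leaf p113_l57)))))))) (by decide +kernel)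
noncomputable def p113_l58 : Lf2 := ⟨nat_lit 0, nat_lit 30, [nat_lit 15, nat_lit 5, nat_lit 5, nat_lit 20], false, nat_lit 8, nat_lit 80, nat_lit 0, nat_lit 160, ⟨nat_lit 1000, nat_lit 0, nat_lit 0, nat_lit 0, nat_lit 0, nat_lit 0, nat_lit 0, nat_lit 0, nat_lit 0, nat_lit 0, nat_lit 0, nat_lit 0, nat_lit 0, nat_lit 0, nat_lit 0, nat_lit 0, false, false⟩,
 nat_lit 0, nat_lit 0, nat_lit 14944, nat_lit 0, nat_lit 4080, nat_lit 7911, nat_lit 667, nat_lit 0, nat_lit 0, nat_lit 1144, nat_lit 0, nat_lit 0, nat_lit 0, nat_lit 0, nat_lit 0, nat_lit 0, nat_lit 0, nat_lit 0, [],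
 ⟨p113_k14, nat_lit 0, nat_lit 0, nat_lit 196, nat_lit 0, nat_lit 0, [nat_lit 938000000, nat_lit 3282000000, nat_lit 9842000000], [], [nat_lit 26337709899, nat_lit 26928266954, nat_lit 32210765013, nat_lit 32790398517, nat_lit 24602527610, nat_lit 25166540920, nat_lit 30286849456, nat_lit 30839631668], nat_lit 0, nat_lit 0, nat_lit 0, nat_lit 0, nat_lit 0, nat_lit 0, [], [nat_lit 93, nat_lit 40, nat_lit 40, nat_lit 80, nat_lit 63, nat_lit 345, nat_lit 125, nat_lit 9]⟩, ⟨p113_k33, nat_lit 0, nat_lit 0, nat_lit 612, nat_lit 0, nat_lit 468718, [nat_lit 4688000000, nat_lit 7968000000, nat_lit 16400000000], [], [nat_lit 35475327528, nat_lit 35809915014, nat_lit 40277199466, nat_lit 40697252545, nat_lit 30671482064, nat_lit 31118567680, nat_lit 34695965988, nat_lit 35027831716], nat_lit 1271250, nat_lit 1271250, nat_lit 1271250, nat_lit 1271250, nat_lit 0, nat_lit 1100001, [nat_lit 1100000, nat_lit 1785000, nat_lit 1271250],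 [nat_lit 122, nat_lit 40, nat_lit 40, nat_lit 80, nat_lit 111, nat_lit 428, nat_lit 200, nat_lit 9]⟩,
 zbF0, []⟩
noncomputable def p113_l59 : Lf2 := ⟨nat_lit 0, nat_lit 25, [nat_lit 44, nat_lit 5, nat_lit 5, nat_lit 20], false, nat_lit 8, nat_lit 80, nat_lit 160, nat_lit 336, ⟨nat_lit 624, nat_lit 0, nat_lit 376, nat_lit 6, nat_lit 284, nat_lit 376, nat_lit 43, nat_lit 376, nat_lit 17067, nat_lit 247, nat_lit 361494, nat_lit 200, nat_lit 43655660, nat_lit 0, nat_lit 0, nat_lit 3681714, true, true⟩,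
 nat_lit 0, nat_lit 0, nat_lit 7291, nat_lit 0, nat_lit 5448, nat_lit 3859, nat_lit 0, nat_lit 0, nat_lit 0, nat_lit 0, nat_lit 0, nat_lit 0, nat_lit 0, nat_lit 0, nat_lit 0, nat_lit 304000, nat_lit 0, nat_lit 0, [(nat_lit 26, [(nat_lit 5, nat_lit 120), (nat_lit 6, nat_lit 256)])],
 ⟨p113_k0, nat_lit 0, nat_lit 0, nat_lit 191, nat_lit 0, nat_lit 0, [nat_lit 1829779201, nat_lit 1601952000], [], [nat_lit 27463483962, nat_lit 28029084179, nat_lit 35683978569, nat_lit 36085924075, nat_lit 23530829380, nat_lit 24003564996, nat_lit 31442444676, nat_lit 31829603433], nat_lit 0, nat_lit 0, nat_lit 0, nat_lit 0, nat_lit 0, nat_lit 0, [], [nat_lit 141, nat_lit 40, nat_lit 40, nat_lit 80, nat_lit 142, nat_lit 226, nat_lit 20, nat_lit 6]⟩, ⟨p113_k1, nat_lit 0, nat_lit 0, nat_lit 259, nat_lit 0, nat_lit 343384, [nat_lit 2925312000, nat_lit 8772192000], [], [nat_lit 22521942160, nat_lit 22915260316, nat_lit 25475005249, nat_lit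 25768604384, nat_lit 25116890829, nat_lit 25348742500, nat_lit 27302085528, nat_lit 27461514968], nat_lit 1271250, nat_lit 1271250, nat_lit 1271250, nat_lit 1271250, nat_lit 1271250, nat_lit 1271250, [nat_lit 1100000, nat_lit 2812500], [nat_lit 145, nat_lit 40, nat_lit 40, nat_lit 80, nat_lit 144, nat_lit 483, nat_lit 250, nat_lit 10]⟩,
 ⟨nat_lit 2958, nat_lit 3163, ⟨.ofNat (nat_lit 605261), .ofNat (nat_lit 794217), .ofNat (nat_lit 627413), .ofNat (nat_lit 816372), .ofNat (nat_lit 604573), .ofNat (nat_lit 790639), .ofNat (nat_lit 626848), .ofNat (nat_lit 812916)⟩, ⟨.ofNat (nat_lit 20000), .ofNat (nat_lit 184209), .ofNat (nat_lit 20000), .ofNat (nat_lit 200000), .ofNat (nat_lit 20000), .ofNat (nat_lit 186273), .ofNat (nat_lit 20000), .ofNat (nat_lit 200000)⟩⟩, [⟨nat_lit 10, nat_lit 100, nat_lit 93, nat_lit 64, nat_lit 111432331⟩, ⟨nat_lit 22, nat_lit 100, nat_lit 76, nat_lit 82, nat_lit 177077231⟩]⟩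
noncomputable def p113_l60 : Lf2 := ⟨nat_lit 0, nat_lit 25, [nat_lit 44, nat_lit 5, nat_lit 5, nat_lit 20], false, nat_lit 8, nat_lit 80, nat_lit 160, nat_lit 336, ⟨nat_lit 368, nat_lit 632, nat_lit 0, nat_lit 6, nat_lit 282, nat_lit 632, nat_lit 43, nat_lit 0, nat_lit 0, nat_lit 0, nat_lit 0, nat_lit 0, nat_lit 43854042, nat_lit 21966904, nat_lit 1179054, nat_lit 3674660, true, true⟩,
 nat_lit 0, nat_lit 0, nat_lit 4966, nat_lit 0, nat_lit 3395, nat_lit 2628, nat_lit 374, nat_lit 0, nat_lit 0, nat_lit 352, nat_lit 0, nat_lit 0, nat_lit 0, nat_lit 0, nat_lit 0, nat_lit 227750, nat_lit 0, nat_lit 0, [(nat_lit 26, [(nat_lit 0, nat_lit 167), (nat_lit 1, nat_lit 465)])],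
 ⟨p113_k34, nat_lit 0, nat_lit 0, nat_lit 174, nat_lit 0, nat_lit 0, [nat_lit 868847200, nat_lit 1916338601, nat_lit 3722187600], [], [nat_lit 24059425244, nat_lit 24488911253, nat_lit 30369423319, nat_lit 30688892428, nat_lit 22088285086, nat_lit 22357089317, nat_lit 28076663338, nat_lit 28384685535], nat_lit 0, nat_lit 0, nat_lit 0, nat_lit 0, nat_lit 0, nat_lit 0, [], [nat_lit 54, nat_lit 40, nat_lit 40, nat_lit 80, nat_lit 43, nat_lit 226, nat_lit 20, nat_lit 6]⟩, ⟨p113_k35, nat_lit 0, nat_lit 0, nat_lit 380, nat_lit 0, nat_lit 443960, [nat_lit 1725184000, nat_lit 2932224000, nat_lit 5173344000], [], [nat_lit 10992936912, nat_lit 11110629976, nat_lit 12267416912, nat_lit 12385109976, nat_lit 12010708785, nat_lit 12116485884, nat_lit 13285188785, nat_lit 13389033504], nat_lit 1271250, nat_lit 1271250, nat_lit 1271250, nat_lit 1271250, nat_lit 1100001, nat_lit 2607000, [nat_lit 1100000, nat_lit 1785000, nat_lit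 1271250], [nat_lit 37, nat_lit 40, nat_lit 40, nat_lit 80, nat_lit 28, nat_lit 483, nat_lit 250, nat_lit 10]⟩,
 ⟨nat_lit 2738, nat_lit 2959, ⟨.ofNat (nat_lit 604573), .ofNat (nat_lit 784637), .ofNat (nat_lit 626847), .ofNat (nat_lit 806914), .ofNat (nat_lit 603893), .ofNat (nat_lit 781079), .ofNat (nat_lit 626308), .ofNat (nat_lit 803496)⟩, ⟨.ofNat (nat_lit 20000), .ofNat (nat_lit 186273), .ofNat (nat_lit 20000), .ofNat (nat_lit 200000), .ofNat (nat_lit 20000), .ofNat (nat_lit 188310), .ofNat (nat_lit 20000), .ofNat (nat_lit 200000)⟩⟩, [⟨nat_lit 10, nat_lit 100, nat_lit 93, nat_lit 64, nat_lit 65459444⟩, ⟨nat_lit 22, nat_lit 89, nat_lit 100, nat_lit 71, nat_lit 116415918⟩]⟩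
noncomputable def p113_l61 : Lf2 := ⟨nat_lit 1, nat_lit 25, [nat_lit 44, nat_lit 5, nat_lit 5, nat_lit 20], false, nat_lit 8, nat_lit 80, nat_lit 160, nat_lit 336, zbN0,
 nat_lit 0, nat_lit 0, nat_lit 0, nat_lit 0, nat_lit 0, nat_lit 0, nat_lit 0, nat_lit 0, nat_lit 0, nat_lit 0, nat_lit 0, nat_lit 0, nat_lit 0, nat_lit 0, nat_lit 0, nat_lit 0, nat_lit 0, nat_lit 0, [],
 C1.Rw.none, C1.Rw.none,
 zbF0, []⟩
noncomputable def p113_l62 : Lf2 := ⟨nat_lit 0, nat_lit 30, [nat_lit 15, nat_lit 5, nat_lit 5, nat_lit 20], false, nat_lit 16, nat_lit 80, nat_lit 160, nat_lit 336, ⟨nat_lit 1000, nat_lit 0, nat_lit 0, nat_lit 0, nat_lit 0, nat_lit 0, nat_lit 0, nat_lit 0, nat_lit 0, nat_lit 0, nat_lit 0, nat_lit 0, nat_lit 0, nat_lit 0, nat_lit 0, nat_lit 0, false, false⟩,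
 nat_lit 0, nat_lit 0, nat_lit 13120, nat_lit 2282, nat_lit 6562, nat_lit 6945, nat_lit 534, nat_lit 0, nat_lit 0, nat_lit 717, nat_lit 0, nat_lit 0, nat_lit 0, nat_lit 0, nat_lit 0, nat_lit 0, nat_lit 0, nat_lit 0, [],
 ⟨p113_k9, nat_lit 0, nat_lit 0, nat_lit 199, nat_lit 0, nat_lit 0, [nat_lit 938000000, nat_lit 4688000000, nat_lit 9842000000], [], [nat_lit 28984515165, nat_lit 30256746001, nat_lit 38013522153, nat_lit 38907109838, nat_lit 25030450216, nat_lit 25730743894, nat_lit 33302214649, nat_lit 34166053538], nat_lit 0, nat_lit 0, nat_lit 0, nat_lit 0, nat_lit 0, nat_lit 0, [], [nat_lit 81, nat_lit 40, nat_lit 40, nat_lit 80, nat_lit 13, nat_lit 345, nat_lit 125, nat_lit 9]⟩, ⟨p113_k5, nat_lit 0, nat_lit 0, nat_lit 286, nat_lit 0, nat_lit 233831, [nat_lit 4688000000, nat_lit 9842000000, nat_lit 16400000000], [], [nat_lit 28111135915, nat_lit 28746183705, nat_lit 33090799824, nat_lit 33466240187, nat_lit 32103260707,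 nat_lit 32455977842, nat_lit 36670688349, nat_lit 37040846849], nat_lit 1271250, nat_lit 1271250, nat_lit 1271250, nat_lit 1271250, nat_lit 1271250, nat_lit 1271250, [nat_lit 1100000, nat_lit 2127500, nat_lit 1271250], [nat_lit 83, nat_lit 40, nat_lit 40, nat_lit 80, nat_lit 73, nat_lit 483, nat_lit 250, nat_lit 10]⟩,
 zbF0, [⟨nat_lit 22, nat_lit 100, nat_lit 76, nat_lit 82, nat_lit 406826568⟩]⟩
noncomputable def p113_l63 : Lf2 := ⟨nat_lit 0, nat_lit 25, [nat_lit 44, nat_lit 5, nat_lit 5, nat_lit 20], false, nat_lit 12, nat_lit 80, nat_lit 0, nat_lit 160, ⟨nat_lit 1000, nat_lit 0, nat_lit 0, nat_lit 0, nat_lit 0, nat_lit 0, nat_lit 0, nat_lit 0, nat_lit 0, nat_lit 0, nat_lit 0, nat_lit 0, nat_lit 0, nat_lit 0, nat_lit 0, nat_lit 0, false, false⟩,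
 nat_lit 0, nat_lit 0, nat_lit 14787, nat_lit 0, nat_lit 3523, nat_lit 7828, nat_lit 645, nat_lit 0, nat_lit 0, nat_lit 1062, nat_lit 0, nat_lit 0, nat_lit 0, nat_lit 0, nat_lit 0, nat_lit 0, nat_lit 0, nat_lit 0, [],
 ⟨p113_k18, nat_lit 0, nat_lit 0, nat_lit 171, nat_lit 0, nat_lit 0, [nat_lit 938000000, nat_lit 3282000000, nat_lit 7968000000], [], [nat_lit 24619697605, nat_lit 25056583989, nat_lit 30193209245, nat_lit 30528771551, nat_lit 23014220618, nat_lit 23288754109, nat_lit 27923725329, nat_lit 28247508546], nat_lit 0, nat_lit 0, nat_lit 0, nat_lit 0, nat_lit 0, nat_lit 0, [], [nat_lit 54, nat_lit 40, nat_lit 40, nat_lit 80, nat_lit 43, nat_lit 226, nat_lit 20, nat_lit 6]⟩, ⟨p113_k35, nat_lit 0, nat_lit 0, nat_lit 553, nat_lit 0, nat_lit 488155, [nat_lit 4688000000, nat_lit 7968000000, nat_lit 14058000000], [], [nat_lit 35694753928, nat_lit 35909532872, nat_lit 39619283911, nat_lit 39847966741, nat_lit 30997321472,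 nat_lit 31220671056, nat_lit 34257483064, nat_lit 34439238230], nat_lit 1271250, nat_lit 1271250, nat_lit 1271250, nat_lit 1271250, nat_lit 0, nat_lit 1100001, [nat_lit 1100000, nat_lit 1785000, nat_lit 1271250], [nat_lit 37, nat_lit 40, nat_lit 40, nat_lit 80, nat_lit 28, nat_lit 428, nat_lit 200, nat_lit 10]⟩,
 zbF0, []⟩
noncomputable def p113_l64 : Lf2 := ⟨nat_lit 0, nat_lit 25, [nat_lit 44, nat_lit 5, nat_lit 5, nat_lit 20], false, nat_lit 16, nat_lit 80, nat_lit 0, nat_lit 160, ⟨nat_lit 552, nat_lit 448, nat_lit 0, nat_lit 6, nat_lit 272, nat_lit 448, nat_lit 47, nat_lit 0, nat_lit 0, nat_lit 0, nat_lit 0, nat_lit 0, nat_lit 44692329, nat_lit 20927405, nat_lit 1380266, nat_lit 3683340, true, true⟩,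
 nat_lit 0, nat_lit 0, nat_lit 7517, nat_lit 0, nat_lit 2479, nat_lit 3979, nat_lit 451, nat_lit 0, nat_lit 0, nat_lit 516, nat_lit 0, nat_lit 0, nat_lit 0, nat_lit 0, nat_lit 0, nat_lit 112000, nat_lit 0, nat_lit 0, [(nat_lit 26, [(nat_lit 0, nat_lit 448)])],
 ⟨p113_k36, nat_lit 0, nat_lit 0, nat_lit 151, nat_lit 0, nat_lit 0, [nat_lit 860764801, nat_lit 2424886400, nat_lit 4386320000], [], [nat_lit 23757566252, nat_lit 24018114028, nat_lit 27401546490, nat_lit 27652453164, nat_lit 23386942081, nat_lit 23635627027, nat_lit 26915277425, nat_lit 27155453613], nat_lit 0, nat_lit 0, nat_lit 0, nat_lit 0, nat_lit 0, nat_lit 0, [], [nat_lit 20, nat_lit 40, nat_lit 40, nat_lit 80, nat_lit 16, nat_lit 226, nat_lit 20, nat_lit 7]⟩, ⟨p113_k35, nat_lit 0, nat_lit 0, nat_lit 591, nat_lit 0, nat_lit 596793, [nat_lit 2587776000, nat_lit 4398336000, nat_lit 7760016000], [], [nat_lit 21104517776, nat_lit 21171377902, nat_lit 22520025758,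 nat_lit 22595895191, nat_lit 18490497380, nat_lit 18575849352, nat_lit 19920193556, nat_lit 20002895450], nat_lit 1271250, nat_lit 1271250, nat_lit 1271250, nat_lit 1271250, nat_lit 0, nat_lit 1100001, [nat_lit 1100000, nat_lit 1785000, nat_lit 1271250], [nat_lit 37, nat_lit 40, nat_lit 40, nat_lit 80, nat_lit 28, nat_lit 428, nat_lit 200, nat_lit 10]⟩,
 ⟨nat_lit 2236, nat_lit 2500, ⟨.ofNat (nat_lit 603223), .ofNat (nat_lit 748386), .ofNat (nat_lit 614511), .ofNat (nat_lit 759676), .ofNat (nat_lit 602562), .ofNat (nat_lit 745101), .ofNat (nat_lit 613946), .ofNat (nat_lit 756489)⟩, ⟨.ofNat (nat_lit 40000), .ofNat (nat_lit 190321), .ofNat (nat_lit 40000), .ofNat (nat_lit 200000), .ofNat (nat_lit 40000), .ofNat (nat_lit 192306), .ofNat (nat_lit 40000), .ofNat (nat_lit 200000)⟩⟩, []⟩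
noncomputable def p113_l65 : Lf2 := ⟨nat_lit 0, nat_lit 30, [nat_lit 15, nat_lit 5, nat_lit 5, nat_lit 20], false, nat_lit 20, nat_lit 80, nat_lit 0, nat_lit 160, ⟨nat_lit 1000, nat_lit 0, nat_lit 0, nat_lit 0, nat_lit 0, nat_lit 0, nat_lit 0, nat_lit 0, nat_lit 0, nat_lit 0, nat_lit 0, nat_lit 0, nat_lit 0, nat_lit 0, nat_lit 0, nat_lit 0, false, false⟩,
 nat_lit 0, nat_lit 0, nat_lit 16666, nat_lit 0, nat_lit 3379, nat_lit 8823, nat_lit 641, nat_lit 0, nat_lit 0, nat_lit 1197, nat_lit 0, nat_lit 0, nat_lit 0, nat_lit 0, nat_lit 0, nat_lit 0, nat_lit 0, nat_lit 0, [],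
 ⟨p113_k12, nat_lit 0, nat_lit 0, nat_lit 168, nat_lit 0, nat_lit 0, [nat_lit 938000000, nat_lit 3282000000, nat_lit 7968000000], [], [nat_lit 24239819202, nat_lit 24954233661, nat_lit 29576593307, nat_lit 30232060802, nat_lit 23359166314, nat_lit 23889153148, nat_lit 27688024386, nat_lit 28323178121], nat_lit 0, nat_lit 0, nat_lit 0, nat_lit 0, nat_lit 0, nat_lit 0, [], [nat_lit 54, nat_lit 40, nat_lit 40, nat_lit 80, nat_lit 43, nat_lit 226, nat_lit 20, nat_lit 6]⟩, ⟨p113_k33, nat_lit 0, nat_lit 0, nat_lit 512, nat_lit 0, nat_lit 379040, [nat_lit 4688000000, nat_lit 7968000000, nat_lit 16400000000], [], [nat_lit 33198416029, nat_lit 33361070428, nat_lit 37716472393, nat_lit 37951836622, nat_lit 27532678260, nat_lit 27822471748, nat_lit 31367742374, nat_lit 31546777110], nat_lit 1271250, nat_lit 1271250, nat_lit 1271250, nat_lit 1271250, nat_lit 0, nat_lit 1100001, [nat_lit 1100000, nat_lit 1785000, nat_lit 1271250],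 [nat_lit 122, nat_lit 40, nat_lit 40, nat_lit 80, nat_lit 111, nat_lit 428, nat_lit 200, nat_lit 9]⟩,
 zbF0, []⟩
noncomputable def p113_l66 : Lf2 := ⟨nat_lit 0, nat_lit 30, [nat_lit 15, nat_lit 5, nat_lit 5, nat_lit 20], false, nat_lit 12, nat_lit 80, nat_lit 0, nat_lit 160, ⟨nat_lit 779, nat_lit 221, nat_lit 0, nat_lit 6, nat_lit 281, nat_lit 221, nat_lit 45, nat_lit 0, nat_lit 0, nat_lit 0, nat_lit 0, nat_lit 0, nat_lit 43913667, nat_lit 21809355, nat_lit 1276978, nat_lit 3698686, true, true⟩,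
 nat_lit 0, nat_lit 0, nat_lit 10123, nat_lit 0, nat_lit 3159, nat_lit 5623, nat_lit 572, nat_lit 0, nat_lit 0, nat_lit 745, nat_lit 0, nat_lit 0, nat_lit 0, nat_lit 0, nat_lit 0, nat_lit 55250, nat_lit 0, nat_lit 0, [(nat_lit 26, [(nat_lit 0, nat_lit 221)])],
 ⟨p113_k12, nat_lit 0, nat_lit 0, nat_lit 173, nat_lit 0, nat_lit 0, [nat_lit 899899601, nat_lit 2859182801, nat_lit 6762400800], [], [nat_lit 23942056127, nat_lit 24736274043, nat_lit 29495040348, nat_lit 30126488641, nat_lit 23137460597, nat_lit 23656257062, nat_lit 27544987732, nat_lit 28154694111], nat_lit 0, nat_lit 0, nat_lit 0, nat_lit 0, nat_lit 0, nat_lit 0, [], [nat_lit 54, nat_lit 40, nat_lit 40, nat_lit 80, nat_lit 43, nat_lit 226, nat_lit 20, nat_lit 6]⟩, ⟨p113_k13, nat_lit 0, nat_lit 0, nat_lit 603, nat_lit 0, nat_lit 635062, [nat_lit 3651952000, nat_lit 6207072000, nat_lit 10951182000], [], [nat_lit 27995894732, nat_lit 28163232230, nat_lit 30327172435,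 nat_lit 30426537729, nat_lit 24340712634, nat_lit 24513596132, nat_lit 26654940523, nat_lit 26764583657], nat_lit 1271250, nat_lit 1271250, nat_lit 1271250, nat_lit 1271250, nat_lit 0, nat_lit 1100001, [nat_lit 1100000, nat_lit 1785000, nat_lit 1271250], [nat_lit 37, nat_lit 40, nat_lit 40, nat_lit 80, nat_lit 28, nat_lit 428, nat_lit 200, nat_lit 10]⟩,
 ⟨nat_lit 2236, nat_lit 2739, ⟨.ofNat (nat_lit 615088), .ofNat (nat_lit 780475), .ofNat (nat_lit 626287), .ofNat (nat_lit 791684), .ofNat (nat_lit 613935), .ofNat (nat_lit 773593), .ofNat (nat_lit 625312), .ofNat (nat_lit 784980)⟩, ⟨.ofNat (nat_lit 30000), .ofNat (nat_lit 188310), .ofNat (nat_lit 30000), .ofNat (nat_lit 200000), .ofNat (nat_lit 30000), .ofNat (nat_lit 192306), .ofNat (nat_lit 30000), .ofNat (nat_lit 200000)⟩⟩, []⟩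
noncomputable def p113_l67 : Lf2 := ⟨nat_lit 0, nat_lit 25, [nat_lit 44, nat_lit 5, nat_lit 5, nat_lit 20], false, nat_lit 12, nat_lit 80, nat_lit 160, nat_lit 336, ⟨nat_lit 342, nat_lit 658, nat_lit 0, nat_lit 6, nat_lit 275, nat_lit 658, nat_lit 45, nat_lit 0, nat_lit 0, nat_lit 0, nat_lit 0, nat_lit 0, nat_lit 44451391, nat_lit 21267815, nat_lit 1280794, nat_lit 3670502, true, true⟩,
 nat_lit 0, nat_lit 0, nat_lit 4971, nat_lit 0, nat_lit 3032, nat_lit 2631, nat_lit 435, nat_lit 0, nat_lit 0, nat_lit 333, nat_lit 0, nat_lit 0, nat_lit 0, nat_lit 0, nat_lit 0, nat_lit 164500, nat_lit 0, nat_lit 0, [(nat_lit 26, [(nat_lit 0, nat_lit 658)])],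
 ⟨p113_k18, nat_lit 0, nat_lit 0, nat_lit 171, nat_lit 0, nat_lit 0, [nat_lit 824560800, nat_lit 2023114400, nat_lit 4378478400], [], [nat_lit 23663232182, nat_lit 24067659797, nat_lit 28949319567, nat_lit 29262806282, nat_lit 22099792912, nat_lit 22356456964, nat_lit 27120050588, nat_lit 27422671876], nat_lit 0, nat_lit 0, nat_lit 0, nat_lit 0, nat_lit 0, nat_lit 0, [], [nat_lit 54, nat_lit 40, nat_lit 40, nat_lit 80, nat_lit 43, nat_lit 226, nat_lit 20, nat_lit 6]⟩, ⟨p113_k35, nat_lit 0, nat_lit 0, nat_lit 396, nat_lit 0, nat_lit 488155, [nat_lit 1603296000, nat_lit 2725056000, nat_lit 4807836000], [], [nat_lit 9801043236, nat_lit 9854510469, nat_lit 10875267735, nat_lit 10932781253, nat_lit 10761909697, nat_lit 10810291579, nat_lit 11850124609, nat_lit 11900564691], nat_lit 1271250, nat_lit 1271250, nat_lit 1271250, nat_lit 1271250, nat_lit 1100001, nat_lit 2607000, [nat_lit 1100000, nat_lit 1785000, nat_lit 1271250],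 [nat_lit 37, nat_lit 40, nat_lit 40, nat_lit 80, nat_lit 28, nat_lit 483, nat_lit 250, nat_lit 10]⟩,
 ⟨nat_lit 2500, nat_lit 2739, ⟨.ofNat (nat_lit 603894), .ofNat (nat_lit 763360), .ofNat (nat_lit 615101), .ofNat (nat_lit 774569), .ofNat (nat_lit 603223), .ofNat (nat_lit 759999), .ofNat (nat_lit 614512), .ofNat (nat_lit 771289)⟩, ⟨.ofNat (nat_lit 30000), .ofNat (nat_lit 188310), .ofNat (nat_lit 30000), .ofNat (nat_lit 200000), .ofNat (nat_lit 30000), .ofNat (nat_lit 190321), .ofNat (nat_lit 30000), .ofNat (nat_lit 200000)⟩⟩, [⟨nat_lit 22, nat_lit 91, nat_lit 100, nat_lit 69, nat_lit 167328634⟩]⟩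
noncomputable def p113_l68 : Lf2 := ⟨nat_lit 0, nat_lit 25, [nat_lit 44, nat_lit 5, nat_lit 5, nat_lit 20], false, nat_lit 12, nat_lit 80, nat_lit 160, nat_lit 336, ⟨nat_lit 349, nat_lit 651, nat_lit 0, nat_lit 6, nat_lit 281, nat_lit 651, nat_lit 45, nat_lit 0, nat_lit 0, nat_lit 0, nat_lit 0, nat_lit 0, nat_lit 43876432, nat_lit 21851399, nat_lit 1272169, nat_lit 3699339, true, true⟩,
 nat_lit 0, nat_lit 0, nat_lit 4574, nat_lit 0, nat_lit 3207, nat_lit 2540, nat_lit 403, nat_lit 0, nat_lit 0, nat_lit 341, nat_lit 0, nat_lit 0, nat_lit 0, nat_lit 0, nat_lit 0, nat_lit 162750, nat_lit 0, nat_lit 0, [(nat_lit 26, [(nat_lit 0, nat_lit 651)])],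
 ⟨p113_k18, nat_lit 0, nat_lit 0, nat_lit 172, nat_lit 0, nat_lit 0, [nat_lit 825767601, nat_lit 2036506801, nat_lit 4416664800], [], [nat_lit 24004131264, nat_lit 24420127686, nat_lit 29617998521, nat_lit 29935843037, nat_lit 22294869365, nat_lit 22553959226, nat_lit 27624862247, nat_lit 27931749033], nat_lit 0, nat_lit 0, nat_lit 0, nat_lit 0, nat_lit 0, nat_lit 0, [], [nat_lit 54, nat_lit 40, nat_lit 40, nat_lit 80, nat_lit 43, nat_lit 226, nat_lit 20, nat_lit 6]⟩, ⟨p113_k37, nat_lit 0, nat_lit 0, nat_lit 405, nat_lit 0, nat_lit 513362, [nat_lit 1636112000, nat_lit 2780832000, nat_lit 4906242000], [], [nat_lit 9840270929, nat_lit 9895770430, nat_lit 10940652831, nat_lit 10998782350, nat_lit 10789132466, nat_lit 10837975770, nat_lit 11898441603, nat_lit 11949730477], nat_lit 1271250, nat_lit 1271250, nat_lit 1271250, nat_lit 1271250, nat_lit 1100001, nat_lit 2607000, [nat_lit 1100000, nat_lit 1785000, nat_lit 1271250],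 [nat_lit 37, nat_lit 40, nat_lit 40, nat_lit 80, nat_lit 28, nat_lit 483, nat_lit 250, nat_lit 10]⟩,
 ⟨nat_lit 2500, nat_lit 2739, ⟨.ofNat (nat_lit 615101), .ofNat (nat_lit 780475), .ofNat (nat_lit 626307), .ofNat (nat_lit 791684), .ofNat (nat_lit 614512), .ofNat (nat_lit 777095), .ofNat (nat_lit 625800), .ofNat (nat_lit 788386)⟩, ⟨.ofNat (nat_lit 30000), .ofNat (nat_lit 188310), .ofNat (nat_lit 30000), .ofNat (nat_lit 200000), .ofNat (nat_lit 30000), .ofNat (nat_lit 190321), .ofNat (nat_lit 30000), .ofNat (nat_lit 200000)⟩⟩, [⟨nat_lit 10, nat_lit 100, nat_lit 93, nat_lit 66, nat_lit 34640545⟩, ⟨nat_lit 22, nat_lit 90, nat_lit 100, nat_lit 70, nat_lit 135356276⟩]⟩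
noncomputable def p113_l69 : Lf2 := ⟨nat_lit 0, nat_lit 25, [nat_lit 44, nat_lit 5, nat_lit 5, nat_lit 20], false, nat_lit 16, nat_lit 80, nat_lit 160, nat_lit 336, ⟨nat_lit 249, nat_lit 751, nat_lit 0, nat_lit 6, nat_lit 277, nat_lit 751, nat_lit 47, nat_lit 0, nat_lit 0, nat_lit 0, nat_lit 0, nat_lit 0, nat_lit 44213817, nat_lit 21415207, nat_lit 1370976, nat_lit 3707772, true, true⟩,
 nat_lit 0, nat_lit 0, nat_lit 3112, nat_lit 0, nat_lit 3024, nat_lit 1647, nat_lit 171, nat_lit 0, nat_lit 0, nat_lit 224, nat_lit 0, nat_lit 0, nat_lit 0, nat_lit 0, nat_lit 0, nat_lit 187750, nat_lit 0, nat_lit 0, [(nat_lit 26, [(nat_lit 0, nat_lit 751)])],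
 ⟨p113_k36, nat_lit 0, nat_lit 0, nat_lit 152, nat_lit 0, nat_lit 0, [nat_lit 808527600, nat_lit 1845186801, nat_lit 3125840000], [], [nat_lit 24867330367, nat_lit 25044904174, nat_lit 29169710789, nat_lit 29325255373, nat_lit 24187567250, nat_lit 24349228416, nat_lit 27939210358, nat_lit 28070567903], nat_lit 0, nat_lit 0, nat_lit 0, nat_lit 0, nat_lit 0, nat_lit 0, [], [nat_lit 20, nat_lit 40, nat_lit 40, nat_lit 80, nat_lit 16, nat_lit 226, nat_lit 20, nat_lit 7]⟩, ⟨p113_k35, nat_lit 0, nat_lit 0, nat_lit 445, nat_lit 0, nat_lit 615549, [nat_lit 1167312000, nat_lit 1984032000, nat_lit 3500442000], [], [nat_lit 7928460772, nat_lit 8009794324, nat_lit 8550142468, nat_lit 8620386989, nat_lit 8507433313, nat_lit 8582742718, nat_lit 9138655110, nat_lit 9200630450], nat_lit 1271250, nat_lit 1271250, nat_lit 1271250, nat_lit 1271250, nat_lit 1100001, nat_lit 2607000, [nat_lit 1100000, nat_lit 1785000, nat_lit 1271250],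 [nat_lit 37, nat_lit 40, nat_lit 40, nat_lit 80, nat_lit 28, nat_lit 483, nat_lit 250, nat_lit 10]⟩,
 ⟨nat_lit 2345, nat_lit 2500, ⟨.ofNat (nat_lit 603224), .ofNat (nat_lit 759999), .ofNat (nat_lit 625803), .ofNat (nat_lit 782579), .ofNat (nat_lit 602826), .ofNat (nat_lit 757922), .ofNat (nat_lit 625517), .ofNat (nat_lit 780614)⟩, ⟨.ofNat (nat_lit 40000), .ofNat (nat_lit 190321), .ofNat (nat_lit 40000), .ofNat (nat_lit 200000), .ofNat (nat_lit 40000), .ofNat (nat_lit 191515), .ofNat (nat_lit 40000), .ofNat (nat_lit 200000)⟩⟩, [⟨nat_lit 10, nat_lit 100, nat_lit 92, nat_lit 67, nat_lit 118998883⟩]⟩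
noncomputable def p113_l70 : Lf2 := ⟨nat_lit 0, nat_lit 25, [nat_lit 44, nat_lit 5, nat_lit 5, nat_lit 20], false, nat_lit 20, nat_lit 80, nat_lit 160, nat_lit 336, ⟨nat_lit 226, nat_lit 774, nat_lit 0, nat_lit 6, nat_lit 275, nat_lit 774, nat_lit 49, nat_lit 0, nat_lit 0, nat_lit 0, nat_lit 0, nat_lit 0, nat_lit 44297728, nat_lit 21236655, nat_lit 1465617, nat_lit 3727812, true, true⟩,
 nat_lit 0, nat_lit 0, nat_lit 2950, nat_lit 0, nat_lit 2779, nat_lit 1561, nat_lit 194, nat_lit 0, nat_lit 0, nat_lit 199, nat_lit 0, nat_lit 0, nat_lit 0, nat_lit 0, nat_lit 0, nat_lit 193500, nat_lit 0, nat_lit 0, [(nat_lit 26, [(nat_lit 0, nat_lit 774)])],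
 ⟨p113_k38, nat_lit 0, nat_lit 0, nat_lit 149, nat_lit 0, nat_lit 0, [nat_lit 804562400, nat_lit 1801183200, nat_lit 3030160000], [], [nat_lit 24632181379, nat_lit 24740973713, nat_lit 28411211823, nat_lit 28515449974, nat_lit 24125518042, nat_lit 24229560900, nat_lit 27621228017, nat_lit 27706910049], nat_lit 0, nat_lit 0, nat_lit 0, nat_lit 0, nat_lit 0, nat_lit 0, [], [nat_lit 20, nat_lit 40, nat_lit 40, nat_lit 80, nat_lit 16, nat_lit 226, nat_lit 20, nat_lit 7]⟩, ⟨p113_k35, nat_lit 0, nat_lit 0, nat_lit 461, nat_lit 0, nat_lit 658011, [nat_lit 1059488000, nat_lit 1800768000, nat_lit 3177108000], [], [nat_lit 7177746364, nat_lit 7250710762, nat_lit 7680298714, nat_lit 7726066610, nat_lit 7654713591, nat_lit 7724474990, nat_lit 8123662916, nat_lit 8194392693], nat_lit 1271250, nat_lit 1271250, nat_lit 1271250, nat_lit 1271250, nat_lit 1100001, nat_lit 2607000, [nat_lit 1100000, nat_lit 1785000, nat_lit 1271250],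 [nat_lit 37, nat_lit 40, nat_lit 40, nat_lit 80, nat_lit 28, nat_lit 483, nat_lit 250, nat_lit 10]⟩,
 ⟨nat_lit 2236, nat_lit 2346, ⟨.ofNat (nat_lit 602826), .ofNat (nat_lit 752177), .ofNat (nat_lit 625518), .ofNat (nat_lit 774870), .ofNat (nat_lit 602562), .ofNat (nat_lit 750803), .ofNat (nat_lit 625336), .ofNat (nat_lit 773577)⟩, ⟨.ofNat (nat_lit 50000), .ofNat (nat_lit 191515), .ofNat (nat_lit 50000), .ofNat (nat_lit 200000), .ofNat (nat_lit 50000), .ofNat (nat_lit 192306), .ofNat (nat_lit 50000), .ofNat (nat_lit 200000)⟩⟩, [⟨nat_lit 22, nat_lit 92, nat_lit 100, nat_lit 68, nat_lit 103581387⟩]⟩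
noncomputable def p113_l71 : Lf2 := ⟨nat_lit 0, nat_lit 30, [nat_lit 15, nat_lit 5, nat_lit 5, nat_lit 20], false, nat_lit 20, nat_lit 80, nat_lit 160, nat_lit 336, ⟨nat_lit 484, nat_lit 239, nat_lit 277, nat_lit 6, nat_lit 275, nat_lit 516, nat_lit 50, nat_lit 277, nat_lit 22817, nat_lit 252, nat_lit 277888, nat_lit 200, nat_lit 44319382, nat_lit 21178112, nat_lit 1502506, nat_lit 3736039, true, true⟩,
 nat_lit 0, nat_lit 0, nat_lit 7728, nat_lit 0, nat_lit 3144, nat_lit 4091, nat_lit 350, nat_lit 0, nat_lit 0, nat_lit 506, nat_lit 0, nat_lit 0, nat_lit 0, nat_lit 0, nat_lit 0, nat_lit 129000, nat_lit 0, nat_lit 0, [(nat_lit 26, [(nat_lit 0, nat_lit 239), (nat_lit 4, nat_lit 277)])],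
 ⟨p113_k12, nat_lit 0, nat_lit 0, nat_lit 168, nat_lit 0, nat_lit 0, [nat_lit 838626400, nat_lit 1821672801, nat_lit 3744516400], [], [nat_lit 23670344806, nat_lit 24489956028, nat_lit 29006036431, nat_lit 29640475397, nat_lit 22363518305, nat_lit 22877373329, nat_lit 27303373543, nat_lit 27918270442], nat_lit 0, nat_lit 0, nat_lit 0, nat_lit 0, nat_lit 0, nat_lit 0, [], [nat_lit 54, nat_lit 40, nat_lit 40, nat_lit 80, nat_lit 43, nat_lit 226, nat_lit 20, nat_lit 6]⟩, ⟨p113_k33, nat_lit 0, nat_lit 0, nat_lit 414, nat_lit 0, nat_lit 379040, [nat_lit 2268992000, nat_lit 3856512000, nat_lit 7937600000], [], [nat_lit 13396306666, nat_lit 13500897455, nat_lit 14889939915, nat_lit 14947586870, nat_lit 14543922943, nat_lit 14589420767, nat_lit 16096411113, nat_lit 16165156972], nat_lit 1271250, nat_lit 1271250, nat_lit 1271250, nat_lit 1271250, nat_lit 1100001, nat_lit 2607000, [nat_lit 1100000, nat_lit 1785000, nat_lit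 1271250], [nat_lit 122, nat_lit 40, nat_lit 40, nat_lit 80, nat_lit 111, nat_lit 483, nat_lit 250, nat_lit 10]⟩,
 ⟨nat_lit 2236, nat_lit 2739, ⟨.ofNat (nat_lit 603890), .ofNat (nat_lit 763360), .ofNat (nat_lit 615088), .ofNat (nat_lit 774569), .ofNat (nat_lit 602558), .ofNat (nat_lit 756505), .ofNat (nat_lit 613935), .ofNat (nat_lit 767892)⟩, ⟨.ofNat (nat_lit 50000), .ofNat (nat_lit 200000), .ofNat (nat_lit 50000), .ofNat (nat_lit 200000), .ofNat (nat_lit 50000), .ofNat (nat_lit 200000), .ofNat (nat_lit 50000), .ofNat (nat_lit 200000)⟩⟩, [⟨nat_lit 22, nat_lit 100, nat_lit 76, nat_lit 82, nat_lit 172533401⟩]⟩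
noncomputable def p113_l72 : Lf2 := ⟨nat_lit 0, nat_lit 30, [nat_lit 15, nat_lit 5, nat_lit 5, nat_lit 20], false, nat_lit 20, nat_lit 80, nat_lit 160, nat_lit 336, ⟨nat_lit 478, nat_lit 421, nat_lit 101, nat_lit 6, nat_lit 281, nat_lit 522, nat_lit 50, nat_lit 101, nat_lit 22817, nat_lit 252, nat_lit 312118, nat_lit 200, nat_lit 43747737, nat_lit 21759936, nat_lit 1492327, nat_lit 3764562, true, true⟩,
 nat_lit 0, nat_lit 0, nat_lit 7126, nat_lit 0, nat_lit 3242, nat_lit 3958, nat_lit 407, nat_lit 0, nat_lit 0, nat_lit 473, nat_lit 0, nat_lit 0, nat_lit 0, nat_lit 0, nat_lit 0, nat_lit 130500, nat_lit 0, nat_lit 0, [(nat_lit 26, [(nat_lit 0, nat_lit 421), (nat_lit 4, nat_lit 101)])],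
 ⟨p113_k12, nat_lit 0, nat_lit 0, nat_lit 169, nat_lit 0, nat_lit 0, [nat_lit 844209600, nat_lit 2110801601, nat_lit 4606780400], [], [nat_lit 23851076921, nat_lit 24683569679, nat_lit 29469472999, nat_lit 30105661062, nat_lit 22466300573, nat_lit 22993356416, nat_lit 27683104081, nat_lit 28299843316], nat_lit 0, nat_lit 0, nat_lit 0, nat_lit 0, nat_lit 0, nat_lit 0, [], [nat_lit 54, nat_lit 40, nat_lit 40, nat_lit 80, nat_lit 43, nat_lit 226, nat_lit 20, nat_lit 6]⟩, ⟨p113_k13, nat_lit 0, nat_lit 0, nat_lit 365, nat_lit 0, nat_lit 408637, [nat_lit 2240864000, nat_lit 3808704000, nat_lit 6719724000], [], [nat_lit 12591320664, nat_lit 12664231836, nat_lit 14148457858, nat_lit 14225377107, nat_lit 13837500326, nat_lit 13902444831, nat_lit 15429877165, nat_lit 15594894154], nat_lit 1271250, nat_lit 1271250, nat_lit 1271250, nat_lit 1271250, nat_lit 1100001, nat_lit 2607000, [nat_lit 1100000, nat_lit 1785000, nat_lit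 1271250], [nat_lit 37, nat_lit 40, nat_lit 40, nat_lit 80, nat_lit 28, nat_lit 483, nat_lit 250, nat_lit 10]⟩,
 ⟨nat_lit 2236, nat_lit 2739, ⟨.ofNat (nat_lit 615088), .ofNat (nat_lit 780475), .ofNat (nat_lit 626287), .ofNat (nat_lit 791684), .ofNat (nat_lit 613935), .ofNat (nat_lit 773593), .ofNat (nat_lit 625312), .ofNat (nat_lit 784980)⟩, ⟨.ofNat (nat_lit 50000), .ofNat (nat_lit 200000), .ofNat (nat_lit 50000), .ofNat (nat_lit 200000), .ofNat (nat_lit 50000), .ofNat (nat_lit 200000), .ofNat (nat_lit 50000), .ofNat (nat_lit 200000)⟩⟩, [⟨nat_lit 22, nat_lit 100, nat_lit 76, nat_lit 82, nat_lit 176085117⟩]⟩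
noncomputable def b_V_900_600_20_31 : St := ⟨true, nat_lit 0, nat_lit 1, nat_lit 1, nat_lit 120, nat_lit 360, nat_lit 380, nat_lit 240, nat_lit 260, nat_lit 240, nat_lit 376, nat_lit 80, nat_lit 120, nat_lit 8, nat_lit 80, nat_lit 0, nat_lit 336, nat_lit 80, nat_lit 120, nat_lit 0, nat_lit 0, nat_lit 0, nat_lit 0⟩
theorem d_V_900_600_20_31 (h : EB TB.env) : Dead b_V_900_600_20_31 := chkB_sound0 h (T :=
(.trX (nat_lit 13) (nat_lit 63) (nat_lit 61) (nat_lit 100) (nat_lit 364) (.spl (nat_lit 0) (nat_lit 370)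
(.spl (nat_lit 5) (nat_lit 160)
(.leaf p113_l58)
(.spl (nat_lit 3) (nat_lit 100)
(.spl (nat_lit 6) (nat_lit 112)
(.spl (nat_lit 0) (nat_lit 365)
(.leaf p113_l59)
(.trX (nat_lit 13) (nat_lit 59) (nat_lit 65) (nat_lit 100) (nat_lit 360) (.leaf p113_l60)))
(.leaf p113_l61))
(.trZ (nat_lit 3) (nat_lit 100) (nat_lit 69) (nat_lit 45) (nat_lit 16) (.leaf p113_l62))))
(.trX (nat_lit 13) (nat_lit 55) (nat_lit 68) (nat_lit 100) (nat_lit 352) (.trZ (nat_lit 3) (nat_lit 100) (nat_lit 66) (nat_lit 45) (nat_lit 12) (.spl (nat_lit 5) (nat_lit 160)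
(.spl (nat_lit 1) (nat_lit 250)
(.trX (nat_lit 13) (nat_lit 54) (nat_lit 71) (nat_lit 100) (nat_lit 348) (.spl (nat_lit 3) (nat_lit 100)
(.spl (nat_lit 0) (nat_lit 375)
(.leaf p113_l63)
(.trX (nat_lit 13) (nat_lit 50) (nat_lit 75) (nat_lit 100) (nat_lit 340) (.trZ (nat_lit 3) (nat_lit 100) (nat_lit 61) (nat_lit 51) (nat_lit 16) (.leaf p113_l64))))
(.trZ (nat_lit 3) (nat_lit 100) (nat_lit 61) (nat_lit 55) (nat_lit 20) (.leaf p113_l65))))
(.leaf p113_l66))
(.spl (nat_lit 3) (nat_lit 100)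
(.spl (nat_lit 0) (nat_lit 375)
(.spl (nat_lit 1) (nat_lit 250)
(.trX (nat_lit 13) (nat_lit 54) (nat_lit 71) (nat_lit 100) (nat_lit 348) (.leaf p113_l67))
(.leaf p113_l68))
(.trX (nat_lit 13) (nat_lit 51) (nat_lit 72) (nat_lit 100) (nat_lit 348) (.trZ (nat_lit 3) (nat_lit 100) (nat_lit 61) (nat_lit 51) (nat_lit 16) (.spl (nat_lit 0) (nat_lit 378)
(.leaf p113_l69)
(.trX (nat_lit 13) (nat_lit 48) (nat_lit 75) (nat_lit 100) (nat_lit 344) (.trZ (nat_lit 3) (nat_lit 100) (nat_lit 57) (nat_lit 55) (nat_lit 20) (.leaf p113_l70)))))))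
(.trZ (nat_lit 3) (nat_lit 100) (nat_lit 61) (nat_lit 55) (nat_lit 20) (.spl (nat_lit 1) (nat_lit 250)
(.trX (nat_lit 13) (nat_lit 54) (nat_lit 71) (nat_lit 100) (nat_lit 348) (.leaf p113_l71))
(.leaf p113_l72)))))))))) (by decide +kernel)
noncomputable def p113_l73 : Lf2 := ⟨nat_lit 0, nat_lit 30, [nat_lit 15, nat_lit 5, nat_lit 5, nat_lit 20], false, nat_lit 8, nat_lit 80, nat_lit 0, nat_lit 160, ⟨nat_lit 1000, nat_lit 0, nat_lit 0, nat_lit 0, nat_lit 0, nat_lit 0, nat_lit 0, nat_lit 0, nat_lit 0, nat_lit 0, nat_lit 0, nat_lit 0, nat_lit 0, nat_lit 0, nat_lit 0, nat_lit 0, false, false⟩,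
 nat_lit 0, nat_lit 0, nat_lit 12755, nat_lit 0, nat_lit 4029, nat_lit 7424, nat_lit 667, nat_lit 0, nat_lit 0, nat_lit 1016, nat_lit 0, nat_lit 0, nat_lit 0, nat_lit 0, nat_lit 0, nat_lit 0, nat_lit 0, nat_lit 0, [],
 ⟨p113_k14, nat_lit 0, nat_lit 0, nat_lit 199, nat_lit 0, nat_lit 0, [nat_lit 938000000, nat_lit 3282000000, nat_lit 9842000000], [], [nat_lit 26361573533, nat_lit 26948593193, nat_lit 32901941867, nat_lit 33459710193, nat_lit 24660958718, nat_lit 25219268596, nat_lit 30982176360, nat_lit 31514696016], nat_lit 0, nat_lit 0, nat_lit 0, nat_lit 0, nat_lit 0, nat_lit 0, [], [nat_lit 93, nat_lit 40, nat_lit 40, nat_lit 80, nat_lit 63, nat_lit 345, nat_lit 125, nat_lit 9]⟩, ⟨p113_k15, nat_lit 0, nat_lit 0, nat_lit 569, nat_lit 0, nat_lit 543346, [nat_lit 4688000000, nat_lit 7968000000, nat_lit 14058000000], [], [nat_lit 32705748128, nat_lit 33135348032, nat_lit 37607696378, nat_lit 38124406631, nat_lit 27998953120,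 nat_lit 28443771264, nat_lit 31915278570, nat_lit 32228910074], nat_lit 1271250, nat_lit 1271250, nat_lit 1271250, nat_lit 1271250, nat_lit 0, nat_lit 1100001, [nat_lit 1100000, nat_lit 1785000, nat_lit 1271250], [nat_lit 37, nat_lit 40, nat_lit 40, nat_lit 80, nat_lit 28, nat_lit 456, nat_lit 225, nat_lit 10]⟩,
 zbF0, []⟩
noncomputable def p113_l74 : Lf2 := ⟨nat_lit 0, nat_lit 30, [nat_lit 15, nat_lit 5, nat_lit 5, nat_lit 20], false, nat_lit 8, nat_lit 80, nat_lit 160, nat_lit 336, ⟨nat_lit 1000, nat_lit 0, nat_lit 0, nat_lit 0, nat_lit 0, nat_lit 0, nat_lit 0, nat_lit 0, nat_lit 0, nat_lit 0, nat_lit 0, nat_lit 0, nat_lit 0, nat_lit 0, nat_lit 0, nat_lit 0, false, false⟩,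
 nat_lit 0, nat_lit 0, nat_lit 13060, nat_lit 0, nat_lit 5120, nat_lit 7602, nat_lit 670, nat_lit 0, nat_lit 0, nat_lit 990, nat_lit 0, nat_lit 0, nat_lit 0, nat_lit 0, nat_lit 0, nat_lit 0, nat_lit 0, nat_lit 0, [],
 ⟨p113_k14, nat_lit 0, nat_lit 0, nat_lit 197, nat_lit 0, nat_lit 0, [nat_lit 938000000, nat_lit 3282000000, nat_lit 9842000000], [], [nat_lit 26851013104, nat_lit 27394866872, nat_lit 35453693143, nat_lit 35832011496, nat_lit 23365297540, nat_lit 23679630500, nat_lit 31500585184, nat_lit 31865373068], nat_lit 0, nat_lit 0, nat_lit 0, nat_lit 0, nat_lit 0, nat_lit 0, [], [nat_lit 93, nat_lit 40, nat_lit 40, nat_lit 80, nat_lit 63, nat_lit 345, nat_lit 125, nat_lit 9]⟩, ⟨p113_k15, nat_lit 0, nat_lit 0, nat_lit 298, nat_lit 0, nat_lit 383908, [nat_lit 4688000000, nat_lit 7968000000, nat_lit 14058000000], [], [nat_lit 25836172152, nat_lit 26105549676, nat_lit 30309485928, nat_lit 30537380350, nat_lit 28860457911,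 nat_lit 29002264826, nat_lit 33489403818, nat_lit 33791757082], nat_lit 1271250, nat_lit 1271250, nat_lit 1271250, nat_lit 1271250, nat_lit 1100001, nat_lit 2607000, [nat_lit 1100000, nat_lit 1785000, nat_lit 1271250], [nat_lit 37, nat_lit 40, nat_lit 40, nat_lit 80, nat_lit 28, nat_lit 483, nat_lit 250, nat_lit 10]⟩,
 zbF0, [⟨nat_lit 7, nat_lit 80, nat_lit 100, nat_lit 92, nat_lit 185790041⟩, ⟨nat_lit 22, nat_lit 100, nat_lit 76, nat_lit 82, nat_lit 170287409⟩]⟩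
noncomputable def p113_l75 : Lf2 := ⟨nat_lit 0, nat_lit 30, [nat_lit 15, nat_lit 5, nat_lit 5, nat_lit 20], false, nat_lit 8, nat_lit 80, nat_lit 160, nat_lit 336, ⟨nat_lit 502, nat_lit 367, nat_lit 131, nat_lit 6, nat_lit 290, nat_lit 498, nat_lit 43, nat_lit 131, nat_lit 17067, nat_lit 247, nat_lit 376858, nat_lit 200, nat_lit 43058339, nat_lit 22774228, nat_lit 1167433, nat_lit 3711279, true, true⟩,
 nat_lit 0, nat_lit 0, nat_lit 6556, nat_lit 0, nat_lit 3556, nat_lit 3816, nat_lit 370, nat_lit 0, nat_lit 0, nat_lit 497, nat_lit 0, nat_lit 0, nat_lit 0, nat_lit 0, nat_lit 0, nat_lit 179550, nat_lit 0, nat_lit 0, [(nat_lit 26, [(nat_lit 1, nat_lit 367), (nat_lit 4, nat_lit 131)])],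
 ⟨p113_k39, nat_lit 0, nat_lit 0, nat_lit 175, nat_lit 0, nat_lit 0, [nat_lit 878634400, nat_lit 1981946200, nat_lit 3955230400], [], [nat_lit 24370733129, nat_lit 24810893462, nat_lit 31049935267, nat_lit 31372553262, nat_lit 22235328204, nat_lit 22526476904, nat_lit 28594978648, nat_lit 28906116562], nat_lit 0, nat_lit 0, nat_lit 0, nat_lit 0, nat_lit 0, nat_lit 0, [], [nat_lit 54, nat_lit 40, nat_lit 40, nat_lit 80, nat_lit 43, nat_lit 226, nat_lit 20, nat_lit 6]⟩, ⟨p113_k15, nat_lit 0, nat_lit 0, nat_lit 388, nat_lit 0, nat_lit 471585, [nat_lit 2353376000, nat_lit 3999936000, nat_lit 7057116000], [], [nat_lit 12969855324, nat_lit 13105081686, nat_lit 15000829384, nat_lit 15090844520, nat_lit 14488064621, nat_lit 14559465839, nat_lit 16503984847, nat_lit 16662934007], nat_lit 1271250, nat_lit 1271250, nat_lit 1271250, nat_lit 1271250, nat_lit 1100001, nat_lit 2607000, [nat_lit 1100000, nat_lit 1785000, nat_lit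 1271250], [nat_lit 37, nat_lit 40, nat_lit 40, nat_lit 80, nat_lit 28, nat_lit 483, nat_lit 250, nat_lit 10]⟩,
 ⟨nat_lit 2738, nat_lit 2959, ⟨.ofNat (nat_lit 626847), .ofNat (nat_lit 812916), .ofNat (nat_lit 637983), .ofNat (nat_lit 824054), .ofNat (nat_lit 626308), .ofNat (nat_lit 809402), .ofNat (nat_lit 637515), .ofNat (nat_lit 820611)⟩, ⟨.ofNat (nat_lit 20000), .ofNat (nat_lit 186273), .ofNat (nat_lit 20000), .ofNat (nat_lit 200000), .ofNat (nat_lit 20000), .ofNat (nat_lit 188310), .ofNat (nat_lit 20000), .ofNat (nat_lit 200000)⟩⟩, [⟨nat_lit 22, nat_lit 100, nat_lit 76, nat_lit 82, nat_lit 190108836⟩]⟩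
noncomputable def p113_l76 : Lf2 := ⟨nat_lit 0, nat_lit 30, [nat_lit 15, nat_lit 5, nat_lit 5, nat_lit 20], false, nat_lit 8, nat_lit 80, nat_lit 160, nat_lit 336, ⟨nat_lit 1000, nat_lit 0, nat_lit 0, nat_lit 0, nat_lit 0, nat_lit 0, nat_lit 0, nat_lit 0, nat_lit 0, nat_lit 0, nat_lit 0, nat_lit 0, nat_lit 0, nat_lit 0, nat_lit 0, nat_lit 0, false, false⟩,
 nat_lit 0, nat_lit 0, nat_lit 11397, nat_lit 0, nat_lit 4893, nat_lit 6941, nat_lit 664, nat_lit 0, nat_lit 0, nat_lit 981, nat_lit 0, nat_lit 0, nat_lit 0, nat_lit 0, nat_lit 0, nat_lit 0, nat_lit 0, nat_lit 0, [],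
 ⟨p113_k14, nat_lit 0, nat_lit 0, nat_lit 199, nat_lit 0, nat_lit 0, [nat_lit 938000000, nat_lit 3282000000, nat_lit 9842000000], [], [nat_lit 26427138456, nat_lit 27484745724, nat_lit 35150238827, nat_lit 35879020255, nat_lit 23716760756, nat_lit 24330730469, nat_lit 31402197345, nat_lit 32105320658], nat_lit 0, nat_lit 0, nat_lit 0, nat_lit 0, nat_lit 0, nat_lit 0, [], [nat_lit 93, nat_lit 40, nat_lit 40, nat_lit 80, nat_lit 63, nat_lit 345, nat_lit 125, nat_lit 9]⟩, ⟨p113_k28, nat_lit 0, nat_lit 0, nat_lit 401, nat_lit 0, nat_lit 507914, [nat_lit 4688000000, nat_lit 7968000000, nat_lit 14058000000], [], [nat_lit 26098250916, nat_lit 26315345760, nat_lit 30372807328, nat_lit 30595646706, nat_lit 28880131675, nat_lit 29022898067, nat_lit 33401448796, nat_lit 33692641273], nat_lit 1271250, nat_lit 1271250, nat_lit 1271250, nat_lit 1271250, nat_lit 1100001, nat_lit 2607000, [nat_lit 1100000, nat_lit 1785000, nat_lit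 1271250], [nat_lit 37, nat_lit 40, nat_lit 40, nat_lit 80, nat_lit 28, nat_lit 483, nat_lit 250, nat_lit 10]⟩,
 zbF0, [⟨nat_lit 19, nat_lit 100, nat_lit 85, nat_lit 93, nat_lit 266069222⟩, ⟨nat_lit 10, nat_lit 100, nat_lit 93, nat_lit 64, nat_lit 97249301⟩]⟩
noncomputable def p113_l77 : Lf2 := ⟨nat_lit 0, nat_lit 30, [nat_lit 15, nat_lit 5, nat_lit 5, nat_lit 20], false, nat_lit 12, nat_lit 80, nat_lit 0, nat_lit 160, ⟨nat_lit 1000, nat_lit 0, nat_lit 0, nat_lit 0, nat_lit 0, nat_lit 0, nat_lit 0, nat_lit 0, nat_lit 0, nat_lit 0, nat_lit 0, nat_lit 0, nat_lit 0, nat_lit 0, nat_lit 0, nat_lit 0, false, false⟩,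
 nat_lit 0, nat_lit 0, nat_lit 12556, nat_lit 0, nat_lit 3523, nat_lit 7308, nat_lit 645, nat_lit 0, nat_lit 0, nat_lit 992, nat_lit 0, nat_lit 0, nat_lit 0, nat_lit 0, nat_lit 0, nat_lit 0, nat_lit 0, nat_lit 0, [],
 ⟨p113_k12, nat_lit 0, nat_lit 0, nat_lit 176, nat_lit 0, nat_lit 0, [nat_lit 938000000, nat_lit 3282000000, nat_lit 7968000000], [], [nat_lit 24619697605, nat_lit 25056583989, nat_lit 31400113174, nat_lit 31717026518, nat_lit 23014220618, nat_lit 23288754109, nat_lit 29092087726, nat_lit 29398454201], nat_lit 0, nat_lit 0, nat_lit 0, nat_lit 0, nat_lit 0, nat_lit 0, [], [nat_lit 54, nat_lit 40, nat_lit 40, nat_lit 80, nat_lit 43, nat_lit 226, nat_lit 20, nat_lit 6]⟩, ⟨p113_k15, nat_lit 0, nat_lit 0, nat_lit 600, nat_lit 0, nat_lit 630650, [nat_lit 4688000000, nat_lit 7968000000, nat_lit 14058000000], [], [nat_lit 33272451376, nat_lit 33702063344, nat_lit 37190756322, nat_lit 37732497943, nat_lit 28572603040,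 nat_lit 29016881088, nat_lit 32021505186, nat_lit 32351246298], nat_lit 1271250, nat_lit 1271250, nat_lit 1271250, nat_lit 1271250, nat_lit 0, nat_lit 1100001, [nat_lit 1100000, nat_lit 1785000, nat_lit 1271250], [nat_lit 37, nat_lit 40, nat_lit 40, nat_lit 80, nat_lit 28, nat_lit 456, nat_lit 225, nat_lit 10]⟩,
 zbF0, []⟩
noncomputable def p113_l78 : Lf2 := ⟨nat_lit 0, nat_lit 30, [nat_lit 15, nat_lit 5, nat_lit 5, nat_lit 20], false, nat_lit 16, nat_lit 80, nat_lit 0, nat_lit 160, ⟨nat_lit 1000, nat_lit 0, nat_lit 0, nat_lit 0, nat_lit 0, nat_lit 0, nat_lit 0, nat_lit 0, nat_lit 0, nat_lit 0, nat_lit 0, nat_lit 0, nat_lit 0, nat_lit 0, nat_lit 0, nat_lit 0, false, false⟩,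
 nat_lit 0, nat_lit 0, nat_lit 13537, nat_lit 0, nat_lit 3090, nat_lit 7879, nat_lit 664, nat_lit 0, nat_lit 0, nat_lit 982, nat_lit 0, nat_lit 0, nat_lit 0, nat_lit 0, nat_lit 0, nat_lit 0, nat_lit 0, nat_lit 0, [],
 ⟨p113_k40, nat_lit 0, nat_lit 0, nat_lit 173, nat_lit 0, nat_lit 0, [nat_lit 938000000, nat_lit 3282000000, nat_lit 7968000000], [], [nat_lit 24080746032, nat_lit 24488005265, nat_lit 29955715028, nat_lit 30260949117, nat_lit 22560855010, nat_lit 22815929080, nat_lit 28156080515, nat_lit 28451628060], nat_lit 0, nat_lit 0, nat_lit 0, nat_lit 0, nat_lit 0, nat_lit 0, [], [nat_lit 54, nat_lit 40, nat_lit 40, nat_lit 80, nat_lit 43, nat_lit 226, nat_lit 20, nat_lit 6]⟩, ⟨p113_k15, nat_lit 0, nat_lit 0, nat_lit 631, nat_lit 0, nat_lit 719903, [nat_lit 4688000000, nat_lit 7968000000, nat_lit 14058000000], [], [nat_lit 33227711026, nat_lit 33679596812, nat_lit 37342661742, nat_lit 37915614404, nat_lit 28727227794,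 nat_lit 28992708708, nat_lit 31145794284, nat_lit 31333824704], nat_lit 1271250, nat_lit 1271250, nat_lit 1271250, nat_lit 1271250, nat_lit 0, nat_lit 1100001, [nat_lit 1100000, nat_lit 1785000, nat_lit 1271250], [nat_lit 37, nat_lit 40, nat_lit 40, nat_lit 80, nat_lit 28, nat_lit 428, nat_lit 200, nat_lit 10]⟩,
 zbF0, []⟩
noncomputable def p113_l79 : Lf2 := ⟨nat_lit 0, nat_lit 30, [nat_lit 15, nat_lit 5, nat_lit 5, nat_lit 20], false, nat_lit 12, nat_lit 80, nat_lit 160, nat_lit 336, ⟨nat_lit 299, nat_lit 87, nat_lit 614, nat_lit 6, nat_lit 264, nat_lit 701, nat_lit 45, nat_lit 614, nat_lit 19267, nat_lit 249, nat_lit 121912, nat_lit 200, nat_lit 45583768, nat_lit 20115221, nat_lit 1301011, nat_lit 3609302, true, false⟩,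
 nat_lit 0, nat_lit 0, nat_lit 3736, nat_lit 0, nat_lit 2795, nat_lit 2174, nat_lit 129, nat_lit 0, nat_lit 0, nat_lit 295, nat_lit 0, nat_lit 0, nat_lit 0, nat_lit 0, nat_lit 0, nat_lit 175250, nat_lit 0, nat_lit 0, [(nat_lit 26, [(nat_lit 0, nat_lit 87), (nat_lit 4, nat_lit 614)])],
 ⟨p113_k12, nat_lit 0, nat_lit 0, nat_lit 160, nat_lit 0, nat_lit 0, [nat_lit 794061200, nat_lit 892134801, nat_lit 1021592000], [], [nat_lit 23551273857, nat_lit 24141731394, nat_lit 24906540738, nat_lit 25620849388, nat_lit 22554956270, nat_lit 23096034070, nat_lit 23832762990, nat_lit 24336520690], nat_lit 0, nat_lit 0, nat_lit 0, nat_lit 0, nat_lit 0, nat_lit 0, [], [nat_lit 54, nat_lit 40, nat_lit 40, nat_lit 80, nat_lit 43, nat_lit 226, nat_lit 20, nat_lit 6]⟩, ⟨p113_k15, nat_lit 0, nat_lit 0, nat_lit 457, nat_lit 0, nat_lit 652883, [nat_lit 1401712000, nat_lit 2382432000, nat_lit 4203342000], [], [nat_lit 7959427330, nat_lit 8011066435,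 nat_lit 8209593476, nat_lit 8279270026, nat_lit 8826187924, nat_lit 8871743510, nat_lit 9063505415, nat_lit 9125930542], nat_lit 1271250, nat_lit 1271250, nat_lit 1271250, nat_lit 1271250, nat_lit 1100001, nat_lit 2607000, [nat_lit 1100000, nat_lit 1785000, nat_lit 1271250], [nat_lit 37, nat_lit 40, nat_lit 40, nat_lit 80, nat_lit 28, nat_lit 456, nat_lit 225, nat_lit 10]⟩,
 ⟨nat_lit 2236, nat_lit 2739, ⟨.ofNat (nat_lit 626287), .ofNat (nat_lit 685373), .ofNat (nat_lit 637486), .ofNat (nat_lit 696581), .ofNat (nat_lit 625312), .ofNat (nat_lit 682352), .ofNat (nat_lit 636689), .ofNat (nat_lit 693738)⟩, ⟨.ofNat (nat_lit 30000), .ofNat (nat_lit 188310), .ofNat (nat_lit 30000), .ofNat (nat_lit 200000), .ofNat (nat_lit 30000), .ofNat (nat_lit 192306), .ofNat (nat_lit 30000), .ofNat (nat_lit 200000)⟩⟩, [⟨nat_lit 22, nat_lit 100, nat_lit 97, nat_lit 67, nat_lit 137641882⟩]⟩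
noncomputable def p113_l80 : Lf2 := ⟨nat_lit 0, nat_lit 30, [nat_lit 15, nat_lit 5, nat_lit 5, nat_lit 20], false, nat_lit 12, nat_lit 80, nat_lit 160, nat_lit 336, ⟨nat_lit 289, nat_lit 0, nat_lit 711, nat_lit 6, nat_lit 269, nat_lit 711, nat_lit 45, nat_lit 711, nat_lit 19267, nat_lit 249, nat_lit 144310, nat_lit 200, nat_lit 45120531, nat_lit 0, nat_lit 0, nat_lit 3635709, true, false⟩,
 nat_lit 0, nat_lit 0, nat_lit 3377, nat_lit 0, nat_lit 2815, nat_lit 2056, nat_lit 72, nat_lit 0, nat_lit 0, nat_lit 290, nat_lit 0, nat_lit 0, nat_lit 0, nat_lit 0, nat_lit 0, nat_lit 177750, nat_lit 0, nat_lit 0, [(nat_lit 26, [(nat_lit 4, nat_lit 711)])],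
 ⟨p113_k12, nat_lit 0, nat_lit 0, nat_lit 160, nat_lit 0, nat_lit 0, [nat_lit 788690000, nat_lit 707326801, nat_lit 473775600], [], [nat_lit 23756355821, nat_lit 24348598608, nat_lit 25105415801, nat_lit 25665338160, nat_lit 22716466940, nat_lit 23259137540, nat_lit 24003489065, nat_lit 24529866490], nat_lit 0, nat_lit 0, nat_lit 0, nat_lit 0, nat_lit 0, nat_lit 0, [], [nat_lit 54, nat_lit 40, nat_lit 40, nat_lit 80, nat_lit 43, nat_lit 226, nat_lit 20, nat_lit 6]⟩, ⟨p113_k28, nat_lit 0, nat_lit 0, nat_lit 463, nat_lit 0, nat_lit 672893, [nat_lit 1354832000, nat_lit 2302752000, nat_lit 4062762000], [], [nat_lit 7418843587, nat_lit 7468907764, nat_lit 7619161412, nat_lit 7688593588, nat_lit 8248273132, nat_lit 8292551548, nat_lit 8448911917, nat_lit 8503451077], nat_lit 1271250, nat_lit 1271250, nat_lit 1271250, nat_lit 1271250, nat_lit 1100001, nat_lit 2607000, [nat_lit 1100000, nat_lit 1785000, nat_lit 1271250],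 [nat_lit 37, nat_lit 40, nat_lit 40, nat_lit 80, nat_lit 28, nat_lit 456, nat_lit 225, nat_lit 10]⟩,
 ⟨nat_lit 2236, nat_lit 2739, ⟨.ofNat (nat_lit 637486), .ofNat (nat_lit 696581), .ofNat (nat_lit 648684), .ofNat (nat_lit 707780), .ofNat (nat_lit 636689), .ofNat (nat_lit 693738), .ofNat (nat_lit 648065), .ofNat (nat_lit 705116)⟩, ⟨.ofNat (nat_lit 30000), .ofNat (nat_lit 188310), .ofNat (nat_lit 30000), .ofNat (nat_lit 200000), .ofNat (nat_lit 30000), .ofNat (nat_lit 192306), .ofNat (nat_lit 30000), .ofNat (nat_lit 200000)⟩⟩, [⟨nat_lit 19, nat_lit 100, nat_lit 85, nat_lit 93, nat_lit 3173264⟩, ⟨nat_lit 22, nat_lit 100, nat_lit 97, nat_lit 67, nat_lit 122247392⟩, ⟨nat_lit 22, nat_lit 100, nat_lit 76, nat_lit 82, nat_lit 5422487⟩]⟩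
noncomputable def p113_l81 : Lf2 := ⟨nat_lit 0, nat_lit 30, [nat_lit 15, nat_lit 5, nat_lit 5, nat_lit 20], false, nat_lit 12, nat_lit 80, nat_lit 160, nat_lit 300, ⟨nat_lit 452, nat_lit 548, nat_lit 0, nat_lit 7, nat_lit 290, nat_lit 548, nat_lit 45, nat_lit 0, nat_lit 0, nat_lit 0, nat_lit 0, nat_lit 0, nat_lit 42962466, nat_lit 22779803, nat_lit 1257731, nat_lit 3741357, true, true⟩,
 nat_lit 0, nat_lit 0, nat_lit 5392, nat_lit 0, nat_lit 3248, nat_lit 3138, nat_lit 412, nat_lit 0, nat_lit 0, nat_lit 433, nat_lit 0, nat_lit 0, nat_lit 0, nat_lit 0, nat_lit 0, nat_lit 137000, nat_lit 0, nat_lit 0, [(nat_lit 26, [(nat_lit 0, nat_lit 548)])],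
 ⟨p113_k12, nat_lit 0, nat_lit 0, nat_lit 165, nat_lit 0, nat_lit 0, [nat_lit 843524801, nat_lit 2233566400, nat_lit 4978550400], [], [nat_lit 25861348090, nat_lit 26244934082, nat_lit 27911060468, nat_lit 28259056217, nat_lit 24080183954, nat_lit 24322750298, nat_lit 25937197240, nat_lit 26272277028], nat_lit 0, nat_lit 0, nat_lit 0, nat_lit 0, nat_lit 0, nat_lit 0, [], [nat_lit 54, nat_lit 40, nat_lit 40, nat_lit 80, nat_lit 43, nat_lit 226, nat_lit 20, nat_lit 6]⟩, ⟨p113_k15, nat_lit 0, nat_lit 0, nat_lit 444, nat_lit 0, nat_lit 630650, [nat_lit 2118976000, nat_lit 3601536000, nat_lit 6354216000], [], [nat_lit 12852025572, nat_lit 13043738936, nat_lit 13407223588, nat_lit 13585722720, nat_lit 13601722943, nat_lit 13732933002, nat_lit 14038552915, nat_lit 14214395028], nat_lit 1271250, nat_lit 1271250, nat_lit 1271250, nat_lit 1271250, nat_lit 1100001, nat_lit 2298750, [nat_lit 1100000, nat_lit 1785000, nat_lit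 1271250], [nat_lit 37, nat_lit 40, nat_lit 40, nat_lit 80, nat_lit 28, nat_lit 456, nat_lit 225, nat_lit 10]⟩,
 ⟨nat_lit 2500, nat_lit 2739, ⟨.ofNat (nat_lit 685373), .ofNat (nat_lit 744435), .ofNat (nat_lit 707789), .ofNat (nat_lit 766852), .ofNat (nat_lit 683869), .ofNat (nat_lit 741934), .ofNat (nat_lit 706448), .ofNat (nat_lit 764515)⟩, ⟨.ofNat (nat_lit 30000), .ofNat (nat_lit 188310), .ofNat (nat_lit 30000), .ofNat (nat_lit 200000), .ofNat (nat_lit 30000), .ofNat (nat_lit 190321), .ofNat (nat_lit 30000), .ofNat (nat_lit 200000)⟩⟩, [⟨nat_lit 22, nat_lit 100, nat_lit 95, nat_lit 87, nat_lit 142309563⟩]⟩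
noncomputable def p113_l82 : Lf2 := ⟨nat_lit 0, nat_lit 30, [nat_lit 15, nat_lit 5, nat_lit 5, nat_lit 20], false, nat_lit 16, nat_lit 80, nat_lit 160, nat_lit 300, ⟨nat_lit 334, nat_lit 666, nat_lit 0, nat_lit 7, nat_lit 289, nat_lit 666, nat_lit 47, nat_lit 0, nat_lit 0, nat_lit 0, nat_lit 0, nat_lit 0, nat_lit 42970165, nat_lit 22677999, nat_lit 1351836, nat_lit 3766830, true, true⟩,
 nat_lit 0, nat_lit 0, nat_lit 4526, nat_lit 0, nat_lit 2952, nat_lit 2634, nat_lit 349, nat_lit 0, nat_lit 0, nat_lit 314, nat_lit 0, nat_lit 0, nat_lit 0, nat_lit 0, nat_lit 0, nat_lit 166500, nat_lit 0, nat_lit 0, [(nat_lit 26, [(nat_lit 0, nat_lit 666)])],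
 ⟨p113_k40, nat_lit 0, nat_lit 0, nat_lit 164, nat_lit 0, nat_lit 0, [nat_lit 823181600, nat_lit 2007808800, nat_lit 4334836800], [], [nat_lit 25505420681, nat_lit 25870884682, nat_lit 27451426749, nat_lit 27783764522, nat_lit 24255126554, nat_lit 24502575562, nat_lit 25829946172, nat_lit 26150749584], nat_lit 0, nat_lit 0, nat_lit 0, nat_lit 0, nat_lit 0, nat_lit 0, [], [nat_lit 54, nat_lit 40, nat_lit 40, nat_lit 80, nat_lit 43, nat_lit 226, nat_lit 20, nat_lit 6]⟩, ⟨p113_k15, nat_lit 0, nat_lit 0, nat_lit 477, nat_lit 0, nat_lit 719903, [nat_lit 1565792000, nat_lit 2661312000, nat_lit 4695372000], [], [nat_lit 9338239800, nat_lit 9433723968, nat_lit 9632797552, nat_lit 9725541744, nat_lit 9745263584, nat_lit 9845799876, nat_lit 10048312871, nat_lit 10133444306], nat_lit 1271250, nat_lit 1271250, nat_lit 1271250, nat_lit 1271250, nat_lit 1100001, nat_lit 2298750, [nat_lit 1100000, nat_lit 1785000, nat_lit 1271250],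 [nat_lit 37, nat_lit 40, nat_lit 40, nat_lit 80, nat_lit 28, nat_lit 456, nat_lit 225, nat_lit 10]⟩,
 ⟨nat_lit 2236, nat_lit 2500, ⟨.ofNat (nat_lit 683869), .ofNat (nat_lit 741934), .ofNat (nat_lit 706448), .ofNat (nat_lit 764515), .ofNat (nat_lit 682352), .ofNat (nat_lit 739368), .ofNat (nat_lit 705125), .ofNat (nat_lit 762142)⟩, ⟨.ofNat (nat_lit 40000), .ofNat (nat_lit 190321), .ofNat (nat_lit 40000), .ofNat (nat_lit 200000), .ofNat (nat_lit 40000), .ofNat (nat_lit 192306), .ofNat (nat_lit 40000), .ofNat (nat_lit 200000)⟩⟩, [⟨nat_lit 22, nat_lit 88, nat_lit 100, nat_lit 66, nat_lit 151401719⟩]⟩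
noncomputable def p113_l83 : Lf2 := ⟨nat_lit 0, nat_lit 30, [nat_lit 15, nat_lit 5, nat_lit 5, nat_lit 20], false, nat_lit 16, nat_lit 80, nat_lit 160, nat_lit 260, ⟨nat_lit 463, nat_lit 537, nat_lit 0, nat_lit 8, nat_lit 315, nat_lit 537, nat_lit 47, nat_lit 0, nat_lit 0, nat_lit 0, nat_lit 0, nat_lit 0, nat_lit 40435112, nat_lit 25264935, nat_lit 1299953, nat_lit 3858668, true, true⟩,
 nat_lit 0, nat_lit 0, nat_lit 6099, nat_lit 0, nat_lit 3186, nat_lit 3549, nat_lit 384, nat_lit 0, nat_lit 0, nat_lit 416, nat_lit 0, nat_lit 0, nat_lit 0, nat_lit 0, nat_lit 0, nat_lit 134250, nat_lit 0, nat_lit 0, [(nat_lit 26, [(nat_lit 0, nat_lit 537)])],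
 ⟨p113_k12, nat_lit 0, nat_lit 0, nat_lit 175, nat_lit 0, nat_lit 0, [nat_lit 845421201, nat_lit 2254611600, nat_lit 5038557600], [], [nat_lit 27653385200, nat_lit 28341616029, nat_lit 30377990519, nat_lit 30982965828, nat_lit 26068146156, nat_lit 26513625550, nat_lit 28491859587, nat_lit 29077996632], nat_lit 0, nat_lit 0, nat_lit 0, nat_lit 0, nat_lit 0, nat_lit 0, [], [nat_lit 54, nat_lit 40, nat_lit 40, nat_lit 80, nat_lit 43, nat_lit 226, nat_lit 20, nat_lit 6]⟩, ⟨p113_k15, nat_lit 0, nat_lit 0, nat_lit 475, nat_lit 0, nat_lit 719903, [nat_lit 2170544000, nat_lit 3689184000, nat_lit 6508854000], [], [nat_lit 13930199848, nat_lit 14038107200, nat_lit 14566719073, nat_lit 14717803722, nat_lit 14011194283, nat_lit 14149946919, nat_lit 14722940334, nat_lit 14826244324], nat_lit 1271250, nat_lit 1271250, nat_lit 1271250, nat_lit 1271250, nat_lit 1100001, nat_lit 1956250, [nat_lit 1100000, nat_lit 1785000, nat_lit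 1271250], [nat_lit 37, nat_lit 40, nat_lit 40, nat_lit 80, nat_lit 28, nat_lit 483, nat_lit 250, nat_lit 10]⟩,
 ⟨nat_lit 2236, nat_lit 2739, ⟨.ofNat (nat_lit 744435), .ofNat (nat_lit 815308), .ofNat (nat_lit 766852), .ofNat (nat_lit 837726), .ofNat (nat_lit 739368), .ofNat (nat_lit 807787), .ofNat (nat_lit 762142), .ofNat (nat_lit 830561)⟩, ⟨.ofNat (nat_lit 40000), .ofNat (nat_lit 188310), .ofNat (nat_lit 40000), .ofNat (nat_lit 200000), .ofNat (nat_lit 40000), .ofNat (nat_lit 192306), .ofNat (nat_lit 40000), .ofNat (nat_lit 200000)⟩⟩, [⟨nat_lit 22, nat_lit 69, nat_lit 100, nat_lit 75, nat_lit 198189429⟩]⟩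
noncomputable def b_V_900_600_20_32 : St := ⟨true, nat_lit 0, nat_lit 1, nat_lit 1, nat_lit 120, nat_lit 360, nat_lit 380, nat_lit 260, nat_lit 280, nat_lit 240, nat_lit 376, nat_lit 80, nat_lit 120, nat_lit 8, nat_lit 80, nat_lit 0, nat_lit 336, nat_lit 80, nat_lit 120, nat_lit 0, nat_lit 0, nat_lit 0, nat_lit 0⟩
theorem d_V_900_600_20_32 (h : EB TB.env) : Dead b_V_900_600_20_32 := chkB_sound0 h (T :=
(.spl (nat_lit 0) (nat_lit 370)
(.spl (nat_lit 5) (nat_lit 160)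
(.leaf p113_l73)
(.spl (nat_lit 1) (nat_lit 270)
(.trX (nat_lit 13) (nat_lit 64) (nat_lit 58) (nat_lit 100) (nat_lit 372) (.spl (nat_lit 0) (nat_lit 365)
(.leaf p113_l74)
(.trX (nat_lit 13) (nat_lit 60) (nat_lit 61) (nat_lit 100) (nat_lit 364) (.leaf p113_l75))))
(.leaf p113_l76)))
(.trX (nat_lit 13) (nat_lit 57) (nat_lit 62) (nat_lit 100) (nat_lit 368) (.trZ (nat_lit 3) (nat_lit 100) (nat_lit 66) (nat_lit 45) (nat_lit 12) (.spl (nat_lit 5) (nat_lit 160)
(.spl (nat_lit 0) (nat_lit 375)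
(.leaf p113_l77)
(.trX (nat_lit 13) (nat_lit 53) (nat_lit 66) (nat_lit 100) (nat_lit 360) (.trZ (nat_lit 3) (nat_lit 100) (nat_lit 61) (nat_lit 51) (nat_lit 16) (.leaf p113_l78))))
(.spl (nat_lit 2) (nat_lit 320)
(.spl (nat_lit 2) (nat_lit 280)
(.spl (nat_lit 1) (nat_lit 270)
(.leaf p113_l79)
(.leaf p113_l80))
(.trX (nat_lit 22) (nat_lit 100) (nat_lit 95) (nat_lit 87) (nat_lit 300) (.spl (nat_lit 0) (nat_lit 375)
(.leaf p113_l81)
(.trZ (nat_lit 3) (nat_lit 100) (nat_lit 61) (nat_lit 51) (nat_lit 16) (.leaf p113_l82)))))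
(.trZ (nat_lit 22) (nat_lit 82) (nat_lit 100) (nat_lit 44) (nat_lit 16) (.trX (nat_lit 22) (nat_lit 83) (nat_lit 100) (nat_lit 83) (nat_lit 260) (.leaf p113_l83))))))))) (by decide +kernel)
noncomputable def p113_l84 : Lf2 := ⟨nat_lit 0, nat_lit 25, [nat_lit 44, nat_lit 5, nat_lit 5, nat_lit 20], true, nat_lit 80, nat_lit 160, nat_lit 0, nat_lit 352, ⟨nat_lit 0, nat_lit 329, nat_lit 671, nat_lit 6, nat_lit 258, nat_lit 1000, nat_lit 102, nat_lit 671, nat_lit 98817, nat_lit 292, nat_lit 105490, nat_lit 200, nat_lit 43714667, nat_lit 18868421, nat_lit 4416912, nat_lit 4317213, true, true⟩,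
 nat_lit 0, nat_lit 0, nat_lit 0, nat_lit 3139, nat_lit 2976, nat_lit 0, nat_lit 0, nat_lit 0, nat_lit 0, nat_lit 0, nat_lit 0, nat_lit 0, nat_lit 0, nat_lit 0, nat_lit 28, nat_lit 230100, nat_lit 0, nat_lit 0, [(nat_lit 26, [(nat_lit 0, nat_lit 329), (nat_lit 3, nat_lit 398), (nat_lit 4, nat_lit 273)])],
 ⟨p113_k16, nat_lit 0, nat_lit 0, nat_lit 114, nat_lit 0, nat_lit 0, [nat_lit 1019530401, nat_lit 596223601, nat_lit 446000], [], [nat_lit 21894154353, nat_lit 23034419888, nat_lit 23245282033, nat_lit 24318410256, nat_lit 22527827601, nat_lit 23564269713, nat_lit 23765990385, nat_lit 24731144753], nat_lit 0, nat_lit 0, nat_lit 0, nat_lit 0, nat_lit 0, nat_lit 0, [], [nat_lit 54, nat_lit 40, nat_lit 40, nat_lit 80, nat_lit 43, nat_lit 249, nat_lit 40, nat_lit 7]⟩, C1.Rw.none,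
 ⟨nat_lit 2236, nat_lit 3163, ⟨.ofNat (nat_lit 605240), .ofNat (nat_lit 666215), .ofNat (nat_lit 627331), .ofNat (nat_lit 688370), .ofNat (nat_lit 602541), .ofNat (nat_lit 659578), .ofNat (nat_lit 625251), .ofNat (nat_lit 682352)⟩, ⟨.ofNat (nat_lit 184209), .ofNat (nat_lit 306116), .ofNat (nat_lit 200000), .ofNat (nat_lit 328271), .ofNat (nat_lit 192306), .ofNat (nat_lit 306337), .ofNat (nat_lit 200000), .ofNat (nat_lit 329112)⟩⟩, []⟩
noncomputable def p113_l85 : Lf2 := ⟨nat_lit 0, nat_lit 25, [nat_lit 44, nat_lit 5, nat_lit 5, nat_lit 20], false, nat_lit 80, nat_lit 120, nat_lit 0, nat_lit 336, ⟨nat_lit 130, nat_lit 78, nat_lit 792, nat_lit 6, nat_lit 265, nat_lit 870, nat_lit 91, nat_lit 792, nat_lit 77067, nat_lit 283, nat_lit 127612, nat_lit 200, nat_lit 43656562, nat_lit 19681545, nat_lit 3661893, nat_lit 4208605, true, false⟩,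
 nat_lit 0, nat_lit 0, nat_lit 1707, nat_lit 0, nat_lit 3040, nat_lit 993, nat_lit 0, nat_lit 0, nat_lit 0, nat_lit 109, nat_lit 0, nat_lit 0, nat_lit 0, nat_lit 0, nat_lit 25, nat_lit 196800, nat_lit 0, nat_lit 0, [(nat_lit 26, [(nat_lit 0, nat_lit 78), (nat_lit 3, nat_lit 414), (nat_lit 4, nat_lit 378)])],
 ⟨p113_k16, nat_lit 0, nat_lit 0, nat_lit 114, nat_lit 0, nat_lit 0, [nat_lit 1032112801, nat_lit 603778801, nat_lit 31471200], [], [nat_lit 21974546081, nat_lit 23131098720, nat_lit 23333775840, nat_lit 24420053440, nat_lit 22280997041, nat_lit 23377076801, nat_lit 23581100321, nat_lit 24600065640], nat_lit 0, nat_lit 0, nat_lit 0, nat_lit 0, nat_lit 0, nat_lit 0, [], [nat_lit 54, nat_lit 40, nat_lit 40, nat_lit 80, nat_lit 43, nat_lit 238, nat_lit 30, nat_lit 7]⟩, ⟨p113_k17, nat_lit 0, nat_lit 0, nat_lit 599, nat_lit 0, nat_lit 629803, [nat_lit 609440000, nat_lit 1035840000, nat_lit 1827540000], [], [nat_lit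 4535285476, nat_lit 4563208020, nat_lit 4638890950, nat_lit 4662771143, nat_lit 4059210187, nat_lit 4068603236, nat_lit 4091868368, nat_lit 4098804409], nat_lit 1271250, nat_lit 1271250, nat_lit 1271250, nat_lit 1271250, nat_lit 0, nat_lit 2373000, [nat_lit 1100000, nat_lit 1785000, nat_lit 1271250], [nat_lit 37, nat_lit 40, nat_lit 40, nat_lit 80, nat_lit 28, nat_lit 456, nat_lit 225, nat_lit 10]⟩,
 ⟨nat_lit 2236, nat_lit 3163, ⟨.ofNat (nat_lit 627331), .ofNat (nat_lit 688370), .ofNat (nat_lit 638377), .ofNat (nat_lit 699431), .ofNat (nat_lit 625251), .ofNat (nat_lit 682352), .ofNat (nat_lit 636607), .ofNat (nat_lit 693723)⟩, ⟨.ofNat (nat_lit 184209), .ofNat (nat_lit 245162), .ofNat (nat_lit 200000), .ofNat (nat_lit 267317), .ofNat (nat_lit 192306), .ofNat (nat_lit 249322), .ofNat (nat_lit 200000), .ofNat (nat_lit 272096)⟩⟩, [⟨nat_lit 7, nat_lit 84, nat_lit 100, nat_lit 88, nat_lit 18328285⟩]⟩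
noncomputable def p113_l86 : Lf2 := ⟨nat_lit 0, nat_lit 25, [nat_lit 44, nat_lit 5, nat_lit 5, nat_lit 20], false, nat_lit 80, nat_lit 120, nat_lit 0, nat_lit 328, ⟨nat_lit 134, nat_lit 87, nat_lit 779, nat_lit 6, nat_lit 269, nat_lit 866, nat_lit 91, nat_lit 779, nat_lit 77067, nat_lit 283, nat_lit 149710, nat_lit 200, nat_lit 43232392, nat_lit 20125213, nat_lit 3642395, nat_lit 4231095, true, false⟩,
 nat_lit 0, nat_lit 0, nat_lit 1612, nat_lit 0, nat_lit 3173, nat_lit 981, nat_lit 0, nat_lit 0, nat_lit 0, nat_lit 132, nat_lit 0, nat_lit 0, nat_lit 0, nat_lit 0, nat_lit 18, nat_lit 188550, nat_lit 0, nat_lit 0, [(nat_lit 26, [(nat_lit 0, nat_lit 87), (nat_lit 3, nat_lit 559), (nat_lit 4, nat_lit 220)])],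
 ⟨p113_k16, nat_lit 0, nat_lit 0, nat_lit 114, nat_lit 0, nat_lit 0, [nat_lit 1066191201, nat_lit 563294601, nat_lit 34397600], [], [nat_lit 22109430397, nat_lit 23288836574, nat_lit 23482014568, nat_lit 24588107838, nat_lit 22394298649, nat_lit 23510733261, nat_lit 23705744435, nat_lit 24743673070], nat_lit 0, nat_lit 0, nat_lit 0, nat_lit 0, nat_lit 0, nat_lit 0, [], [nat_lit 54, nat_lit 40, nat_lit 40, nat_lit 80, nat_lit 43, nat_lit 238, nat_lit 30, nat_lit 7]⟩, ⟨p113_k41, nat_lit 0, nat_lit 0, nat_lit 605, nat_lit 0, nat_lit 650033, [nat_lit 628192000, nat_lit 1067712000, nat_lit 1883772000], [], [nat_lit 4192304748, nat_lit 4221088660, nat_lit 4295361103, nat_lit 4322187560, nat_lit 3821867824, nat_lit 3841089262, nat_lit 3894929158, nat_lit 3912875790], nat_lit 1271250, nat_lit 1271250, nat_lit 1271250, nat_lit 1271250, nat_lit 0, nat_lit 2316500, [nat_lit 1100000, nat_lit 1785000, nat_lit 1271250], [nat_lit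 37, nat_lit 40, nat_lit 40, nat_lit 80, nat_lit 28, nat_lit 456, nat_lit 225, nat_lit 10]⟩,
 ⟨nat_lit 2236, nat_lit 3163, ⟨.ofNat (nat_lit 638377), .ofNat (nat_lit 699431), .ofNat (nat_lit 649422), .ofNat (nat_lit 710480), .ofNat (nat_lit 636607), .ofNat (nat_lit 693723), .ofNat (nat_lit 647962), .ofNat (nat_lit 705082)⟩, ⟨.ofNat (nat_lit 184209), .ofNat (nat_lit 245162), .ofNat (nat_lit 200000), .ofNat (nat_lit 267317), .ofNat (nat_lit 192306), .ofNat (nat_lit 249322), .ofNat (nat_lit 200000), .ofNat (nat_lit 272096)⟩⟩, [⟨nat_lit 7, nat_lit 89, nat_lit 100, nat_lit 90, nat_lit 21002850⟩]⟩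
noncomputable def p113_l87 : Lf2 := ⟨nat_lit 0, nat_lit 25, [nat_lit 44, nat_lit 5, nat_lit 5, nat_lit 20], true, nat_lit 120, nat_lit 160, nat_lit 0, nat_lit 336, ⟨nat_lit 0, nat_lit 1000, nat_lit 0, nat_lit 6, nat_lit 267, nat_lit 1000, nat_lit 115, nat_lit 0, nat_lit 0, nat_lit 0, nat_lit 0, nat_lit 0, nat_lit 42246031, nat_lit 19560571, nat_lit 5193398, nat_lit 4511802, true, false⟩,
 nat_lit 0, nat_lit 0, nat_lit 0, nat_lit 3282, nat_lit 2986, nat_lit 0, nat_lit 0, nat_lit 0, nat_lit 0, nat_lit 0, nat_lit 0, nat_lit 0, nat_lit 0, nat_lit 0, nat_lit 0, nat_lit 250000, nat_lit 0, nat_lit 0, [(nat_lit 26, [(nat_lit 0, nat_lit 1000)])],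
 ⟨p113_k16, nat_lit 0, nat_lit 0, nat_lit 60, nat_lit 0, nat_lit 0, [nat_lit 765600000, nat_lit 1368800000, nat_lit 2512800000], [], [nat_lit 21666785372, nat_lit 22994773158, nat_lit 23240051736, nat_lit 24533187740, nat_lit 22063663120, nat_lit 23327269092, nat_lit 23567365928, nat_lit 24737403728], nat_lit 0, nat_lit 0, nat_lit 0, nat_lit 0, nat_lit 0, nat_lit 0, [], [nat_lit 54, nat_lit 40, nat_lit 40, nat_lit 80, nat_lit 43, nat_lit 249, nat_lit 40, nat_lit 7]⟩, C1.Rw.none,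
 ⟨nat_lit 2236, nat_lit 3163, ⟨.ofNat (nat_lit 627331), .ofNat (nat_lit 688370), .ofNat (nat_lit 649422), .ofNat (nat_lit 710480), .ofNat (nat_lit 625251), .ofNat (nat_lit 682352), .ofNat (nat_lit 647962), .ofNat (nat_lit 705082)⟩, ⟨.ofNat (nat_lit 245162), .ofNat (nat_lit 306116), .ofNat (nat_lit 267317), .ofNat (nat_lit 328271), .ofNat (nat_lit 249322), .ofNat (nat_lit 306337), .ofNat (nat_lit 272096), .ofNat (nat_lit 329112)⟩⟩, []⟩
noncomputable def p113_l88 : Lf2 := ⟨nat_lit 0, nat_lit 25, [nat_lit 44, nat_lit 5, nat_lit 5, nat_lit 20], false, nat_lit 80, nat_lit 160, nat_lit 0, nat_lit 352, ⟨nat_lit 197, nat_lit 803, nat_lit 0, nat_lit 7, nat_lit 280, nat_lit 803, nat_lit 102, nat_lit 0, nat_lit 0, nat_lit 0, nat_lit 0, nat_lit 0, nat_lit 41678337, nat_lit 21036676, nat_lit 4284987, nat_lit 4418923, true, true⟩,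
 nat_lit 0, nat_lit 0, nat_lit 3065, nat_lit 0, nat_lit 5375, nat_lit 1622, nat_lit 54, nat_lit 0, nat_lit 0, nat_lit 171, nat_lit 0, nat_lit 0, nat_lit 0, nat_lit 0, nat_lit 0, nat_lit 200750, nat_lit 0, nat_lit 0, [(nat_lit 26, [(nat_lit 0, nat_lit 803)])],
 ⟨p113_k16, nat_lit 0, nat_lit 0, nat_lit 123, nat_lit 0, nat_lit 0, [nat_lit 799562800, nat_lit 1745700400, nat_lit 3587474400], [], [nat_lit 26473671650, nat_lit 27190756275, nat_lit 28367553150, nat_lit 29018706650, nat_lit 26077263650, nat_lit 26724372900, nat_lit 27781845150, nat_lit 28370818025], nat_lit 0, nat_lit 0, nat_lit 0, nat_lit 0, nat_lit 0, nat_lit 0, [], [nat_lit 54, nat_lit 40, nat_lit 40, nat_lit 80, nat_lit 43, nat_lit 249, nat_lit 40, nat_lit 7]⟩, ⟨p113_k35, nat_lit 0, nat_lit 0, nat_lit 454, nat_lit 0, nat_lit 378001, [nat_lit 923536000, nat_lit 1569696000, nat_lit 2769426000], [], [nat_lit 7446764224, nat_lit 7477685705, nat_lit 7664165028,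 nat_lit 7688128752, nat_lit 6428272457, nat_lit 6446364717, nat_lit 6576892525, nat_lit 6589630898], nat_lit 1271250, nat_lit 1271250, nat_lit 1271250, nat_lit 1271250, nat_lit 0, nat_lit 2486000, [nat_lit 1100000, nat_lit 1785000, nat_lit 1271250], [nat_lit 37, nat_lit 40, nat_lit 40, nat_lit 80, nat_lit 28, nat_lit 483, nat_lit 250, nat_lit 11]⟩,
 ⟨nat_lit 2738, nat_lit 3163, ⟨.ofNat (nat_lit 666215), .ofNat (nat_lit 727168), .ofNat (nat_lit 677292), .ofNat (nat_lit 738246), .ofNat (nat_lit 662956), .ofNat (nat_lit 722017), .ofNat (nat_lit 674165), .ofNat (nat_lit 733226)⟩, ⟨.ofNat (nat_lit 184209), .ofNat (nat_lit 306116), .ofNat (nat_lit 200000), .ofNat (nat_lit 328271), .ofNat (nat_lit 188310), .ofNat (nat_lit 306433), .ofNat (nat_lit 200000), .ofNat (nat_lit 328850)⟩⟩, [⟨nat_lit 22, nat_lit 94, nat_lit 88, nat_lit 100, nat_lit 23874697⟩]⟩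
noncomputable def p113_l89 : Lf2 := ⟨nat_lit 0, nat_lit 25, [nat_lit 44, nat_lit 5, nat_lit 5, nat_lit 20], false, nat_lit 80, nat_lit 160, nat_lit 0, nat_lit 344, ⟨nat_lit 245, nat_lit 755, nat_lit 0, nat_lit 7, nat_lit 285, nat_lit 755, nat_lit 102, nat_lit 0, nat_lit 0, nat_lit 0, nat_lit 0, nat_lit 0, nat_lit 41273441, nat_lit 21466766, nat_lit 4259793, nat_lit 4436162, true, true⟩,
 nat_lit 0, nat_lit 0, nat_lit 3418, nat_lit 0, nat_lit 4788, nat_lit 1898, nat_lit 155, nat_lit 0, nat_lit 0, nat_lit 218, nat_lit 0, nat_lit 0, nat_lit 0, nat_lit 0, nat_lit 0, nat_lit 188750, nat_lit 0, nat_lit 0, [(nat_lit 26, [(nat_lit 0, nat_lit 755)])],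
 ⟨p113_k16, nat_lit 0, nat_lit 0, nat_lit 123, nat_lit 0, nat_lit 0, [nat_lit 807838000, nat_lit 1837534000, nat_lit 3849324000], [], [nat_lit 25680150933, nat_lit 26353506993, nat_lit 27488844645, nat_lit 28164237440, nat_lit 25497410933, nat_lit 26106629333, nat_lit 27131813061, nat_lit 27687957961], nat_lit 0, nat_lit 0, nat_lit 0, nat_lit 0, nat_lit 0, nat_lit 0, [], [nat_lit 54, nat_lit 40, nat_lit 40, nat_lit 80, nat_lit 43, nat_lit 249, nat_lit 40, nat_lit 7]⟩, ⟨p113_k37, nat_lit 0, nat_lit 0, nat_lit 465, nat_lit 0, nat_lit 412765, [nat_lit 1148560000, nat_lit 1952160000, nat_lit 3444210000], [], [nat_lit 8572266663, nat_lit 8641956418, nat_lit 8968175094, nat_lit 9026699992, nat_lit 7801990209, nat_lit 7827551312, nat_lit 7988382356, nat_lit 8009912441], nat_lit 1271250, nat_lit 1271250, nat_lit 1271250, nat_lit 1271250, nat_lit 0, nat_lit 2429500, [nat_lit 1100000, nat_lit 1785000, nat_lit 1271250], [nat_lit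 37, nat_lit 40, nat_lit 40, nat_lit 80, nat_lit 28, nat_lit 483, nat_lit 250, nat_lit 11]⟩,
 ⟨nat_lit 2738, nat_lit 3163, ⟨.ofNat (nat_lit 677292), .ofNat (nat_lit 738246), .ofNat (nat_lit 688370), .ofNat (nat_lit 749323), .ofNat (nat_lit 674165), .ofNat (nat_lit 733226), .ofNat (nat_lit 685373), .ofNat (nat_lit 744435)⟩, ⟨.ofNat (nat_lit 184209), .ofNat (nat_lit 306116), .ofNat (nat_lit 200000), .ofNat (nat_lit 328271), .ofNat (nat_lit 188310), .ofNat (nat_lit 306433), .ofNat (nat_lit 200000), .ofNat (nat_lit 328850)⟩⟩, [⟨nat_lit 19, nat_lit 100, nat_lit 79, nat_lit 87, nat_lit 36833076⟩]⟩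
noncomputable def p113_l90 : Lf2 := ⟨nat_lit 1, nat_lit 25, [nat_lit 44, nat_lit 5, nat_lit 5, nat_lit 20], false, nat_lit 80, nat_lit 160, nat_lit 0, nat_lit 352, zbN0,
 nat_lit 0, nat_lit 0, nat_lit 0, nat_lit 0, nat_lit 0, nat_lit 0, nat_lit 0, nat_lit 0, nat_lit 0, nat_lit 0, nat_lit 0, nat_lit 0, nat_lit 0, nat_lit 0, nat_lit 0, nat_lit 0, nat_lit 0, nat_lit 0, [],
 C1.Rw.none, C1.Rw.none,
 zbF0, []⟩
noncomputable def p113_l91 : Lf2 := ⟨nat_lit 0, nat_lit 25, [nat_lit 44, nat_lit 5, nat_lit 5, nat_lit 20], false, nat_lit 80, nat_lit 120, nat_lit 0, nat_lit 336, ⟨nat_lit 213, nat_lit 787, nat_lit 0, nat_lit 7, nat_lit 281, nat_lit 787, nat_lit 91, nat_lit 0, nat_lit 0, nat_lit 0, nat_lit 0, nat_lit 0, nat_lit 42095134, nat_lit 21303102, nat_lit 3601764, nat_lit 4287948, true, true⟩,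
 nat_lit 0, nat_lit 0, nat_lit 3410, nat_lit 0, nat_lit 2729, nat_lit 1805, nat_lit 335, nat_lit 0, nat_lit 0, nat_lit 165, nat_lit 0, nat_lit 0, nat_lit 0, nat_lit 0, nat_lit 0, nat_lit 196750, nat_lit 0, nat_lit 0, [(nat_lit 26, [(nat_lit 0, nat_lit 787)])],
 ⟨p113_k18, nat_lit 0, nat_lit 0, nat_lit 125, nat_lit 0, nat_lit 0, [nat_lit 802321200, nat_lit 1776311600, nat_lit 3674757600], [], [nat_lit 23793330057, nat_lit 24048788897, nat_lit 25258736814, nat_lit 25498747216, nat_lit 24075097752, nat_lit 24319297312, nat_lit 25466237845, nat_lit 25696195617], nat_lit 0, nat_lit 0, nat_lit 0, nat_lit 0, nat_lit 0, nat_lit 0, [], [nat_lit 54, nat_lit 40, nat_lit 40, nat_lit 80, nat_lit 43, nat_lit 238, nat_lit 30, nat_lit 6]⟩, ⟨p113_k35, nat_lit 0, nat_lit 0, nat_lit 569, nat_lit 0, nat_lit 552238, [nat_lit 998544000, nat_lit 1697184000, nat_lit 2994354000], [], [nat_lit 8437501952, nat_lit 8492345454, nat_lit 8662471112,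 nat_lit 8713222086, nat_lit 7076136716, nat_lit 7093108538, nat_lit 7180658698, nat_lit 7188277840], nat_lit 1271250, nat_lit 1271250, nat_lit 1271250, nat_lit 1271250, nat_lit 0, nat_lit 2373000, [nat_lit 1100000, nat_lit 1785000, nat_lit 1271250], [nat_lit 37, nat_lit 40, nat_lit 40, nat_lit 80, nat_lit 28, nat_lit 483, nat_lit 250, nat_lit 11]⟩,
 ⟨nat_lit 2500, nat_lit 2739, ⟨.ofNat (nat_lit 662956), .ofNat (nat_lit 722017), .ofNat (nat_lit 685373), .ofNat (nat_lit 744435), .ofNat (nat_lit 661289), .ofNat (nat_lit 719353), .ofNat (nat_lit 683869), .ofNat (nat_lit 741934)⟩, ⟨.ofNat (nat_lit 188310), .ofNat (nat_lit 247372), .ofNat (nat_lit 200000), .ofNat (nat_lit 269789), .ofNat (nat_lit 190321), .ofNat (nat_lit 248386), .ofNat (nat_lit 200000), .ofNat (nat_lit 270966)⟩⟩, [⟨nat_lit 22, nat_lit 100, nat_lit 100, nat_lit 100, nat_lit 17567810⟩]⟩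
noncomputable def p113_l92 : Lf2 := ⟨nat_lit 0, nat_lit 25, [nat_lit 44, nat_lit 5, nat_lit 5, nat_lit 20], true, nat_lit 120, nat_lit 160, nat_lit 0, nat_lit 352, ⟨nat_lit 0, nat_lit 1000, nat_lit 0, nat_lit 7, nat_lit 281, nat_lit 1000, nat_lit 115, nat_lit 0, nat_lit 0, nat_lit 0, nat_lit 0, nat_lit 0, nat_lit 40969566, nat_lit 20920190, nat_lit 5110244, nat_lit 4573215, true, true⟩,
 nat_lit 0, nat_lit 0, nat_lit 0, nat_lit 3326, nat_lit 3458, nat_lit 0, nat_lit 0, nat_lit 0, nat_lit 0, nat_lit 0, nat_lit 0, nat_lit 0, nat_lit 0, nat_lit 0, nat_lit 0, nat_lit 250000, nat_lit 0, nat_lit 0, [(nat_lit 26, [(nat_lit 0, nat_lit 1000)])],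
 ⟨p113_k42, nat_lit 0, nat_lit 0, nat_lit 79, nat_lit 0, nat_lit 0, [nat_lit 765600000, nat_lit 1715200000, nat_lit 2512800000], [], [nat_lit 24556064631, nat_lit 24867797309, nat_lit 26293810371, nat_lit 26623590233, nat_lit 24755804194, nat_lit 25052576787, nat_lit 26389831698, nat_lit 26662129663], nat_lit 0, nat_lit 0, nat_lit 0, nat_lit 0, nat_lit 0, nat_lit 0, [], [nat_lit 57, nat_lit 40, nat_lit 40, nat_lit 80, nat_lit 7, nat_lit 249, nat_lit 40, nat_lit 7]⟩, C1.Rw.none,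
 ⟨nat_lit 2500, nat_lit 2739, ⟨.ofNat (nat_lit 662956), .ofNat (nat_lit 722017), .ofNat (nat_lit 685373), .ofNat (nat_lit 744435), .ofNat (nat_lit 661289), .ofNat (nat_lit 719353), .ofNat (nat_lit 683869), .ofNat (nat_lit 741934)⟩, ⟨.ofNat (nat_lit 247372), .ofNat (nat_lit 306433), .ofNat (nat_lit 269789), .ofNat (nat_lit 328850), .ofNat (nat_lit 248386), .ofNat (nat_lit 306450), .ofNat (nat_lit 270966), .ofNat (nat_lit 329031)⟩⟩, []⟩
noncomputable def p113_l93 : Lf2 := ⟨nat_lit 0, nat_lit 25, [nat_lit 44, nat_lit 5, nat_lit 5, nat_lit 20], false, nat_lit 80, nat_lit 160, nat_lit 0, nat_lit 352, ⟨nat_lit 113, nat_lit 887, nat_lit 0, nat_lit 7, nat_lit 280, nat_lit 887, nat_lit 103, nat_lit 0, nat_lit 0, nat_lit 0, nat_lit 0, nat_lit 0, nat_lit 41638376, nat_lit 21042664, nat_lit 4318960, nat_lit 4426151, true, true⟩,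
 nat_lit 0, nat_lit 0, nat_lit 1777, nat_lit 0, nat_lit 4351, nat_lit 940, nat_lit 0, nat_lit 0, nat_lit 0, nat_lit 82, nat_lit 0, nat_lit 0, nat_lit 0, nat_lit 0, nat_lit 0, nat_lit 221750, nat_lit 0, nat_lit 0, [(nat_lit 26, [(nat_lit 0, nat_lit 887)])],
 ⟨p113_k36, nat_lit 0, nat_lit 0, nat_lit 108, nat_lit 0, nat_lit 0, [nat_lit 785081200, nat_lit 1584991600, nat_lit 2560080000], [], [nat_lit 26196438409, nat_lit 26540866276, nat_lit 27991878230, nat_lit 28308835792, nat_lit 26179329724, nat_lit 26491109472, nat_lit 27807971103, nat_lit 28092889684], nat_lit 0, nat_lit 0, nat_lit 0, nat_lit 0, nat_lit 0, nat_lit 0, [], [nat_lit 20, nat_lit 40, nat_lit 40, nat_lit 80, nat_lit 16, nat_lit 249, nat_lit 40, nat_lit 8]⟩, ⟨p113_k35, nat_lit 0, nat_lit 0, nat_lit 606, nat_lit 0, nat_lit 658011, [nat_lit 529744000, nat_lit 900384000, nat_lit 1588554000], [], [nat_lit 4618791632, nat_lit 4637871254, nat_lit 4713500212,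 nat_lit 4740791096, nat_lit 3914267685, nat_lit 3917662671, nat_lit 3960219148, nat_lit 3961531271], nat_lit 1271250, nat_lit 1271250, nat_lit 1271250, nat_lit 1271250, nat_lit 0, nat_lit 2486000, [nat_lit 1100000, nat_lit 1785000, nat_lit 1271250], [nat_lit 37, nat_lit 40, nat_lit 40, nat_lit 80, nat_lit 28, nat_lit 483, nat_lit 250, nat_lit 11]⟩,
 ⟨nat_lit 2236, nat_lit 2500, ⟨.ofNat (nat_lit 661289), .ofNat (nat_lit 719353), .ofNat (nat_lit 683869), .ofNat (nat_lit 741934), .ofNat (nat_lit 659578), .ofNat (nat_lit 716594), .ofNat (nat_lit 682352), .ofNat (nat_lit 739368)⟩, ⟨.ofNat (nat_lit 190321), .ofNat (nat_lit 306450), .ofNat (nat_lit 200000), .ofNat (nat_lit 329031), .ofNat (nat_lit 192306), .ofNat (nat_lit 306337), .ofNat (nat_lit 200000), .ofNat (nat_lit 329112)⟩⟩, [⟨nat_lit 22, nat_lit 94, nat_lit 88, nat_lit 100, nat_lit 11262707⟩]⟩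
noncomputable def p113_l94 : Lf2 := ⟨nat_lit 0, nat_lit 25, [nat_lit 44, nat_lit 5, nat_lit 5, nat_lit 20], false, nat_lit 80, nat_lit 160, nat_lit 0, nat_lit 160, ⟨nat_lit 513, nat_lit 487, nat_lit 0, nat_lit 7, nat_lit 290, nat_lit 487, nat_lit 102, nat_lit 0, nat_lit 0, nat_lit 0, nat_lit 0, nat_lit 0, nat_lit 40730949, nat_lit 22030697, nat_lit 4238354, nat_lit 4459601, true, true⟩,
 nat_lit 0, nat_lit 0, nat_lit 6603, nat_lit 0, nat_lit 3599, nat_lit 3843, nat_lit 339, nat_lit 0, nat_lit 0, nat_lit 512, nat_lit 0, nat_lit 0, nat_lit 0, nat_lit 0, nat_lit 0, nat_lit 194800, nat_lit 0, nat_lit 0, [(nat_lit 26, [(nat_lit 1, nat_lit 487)])],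
 ⟨p113_k16, nat_lit 0, nat_lit 0, nat_lit 127, nat_lit 0, nat_lit 0, [nat_lit 895728401, nat_lit 2186347401, nat_lit 4475430800], [], [nat_lit 24404007109, nat_lit 25573570119, nat_lit 26040148385, nat_lit 27148806608, nat_lit 24654063109, nat_lit 25719000009, nat_lit 26146313153, nat_lit 27131042713], nat_lit 0, nat_lit 0, nat_lit 0, nat_lit 0, nat_lit 0, nat_lit 0, [], [nat_lit 54, nat_lit 40, nat_lit 40, nat_lit 80, nat_lit 43, nat_lit 249, nat_lit 40, nat_lit 7]⟩, ⟨p113_k17, nat_lit 0, nat_lit 0, nat_lit 615, nat_lit 0, nat_lit 695311, [nat_lit 2404944000, nat_lit 4087584000, nat_lit 7211754000], [], [nat_lit 17256716124, nat_lit 17445691860, nat_lit 17807572986, nat_lit 17963345616, nat_lit 14999674302, nat_lit 15153091200, nat_lit 15438005874, nat_lit 15565564404], nat_lit 1271250, nat_lit 1271250, nat_lit 1271250, nat_lit 1271250, nat_lit 0, nat_lit 1100001, [nat_lit 1100000, nat_lit 1785000, nat_lit 1271250],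 [nat_lit 37, nat_lit 40, nat_lit 40, nat_lit 80, nat_lit 28, nat_lit 428, nat_lit 200, nat_lit 10]⟩,
 ⟨nat_lit 2236, nat_lit 3163, ⟨.ofNat (nat_lit 688370), .ofNat (nat_lit 749323), .ofNat (nat_lit 710480), .ofNat (nat_lit 771478), .ofNat (nat_lit 682352), .ofNat (nat_lit 739368), .ofNat (nat_lit 705082), .ofNat (nat_lit 762142)⟩, ⟨.ofNat (nat_lit 184209), .ofNat (nat_lit 306116), .ofNat (nat_lit 200000), .ofNat (nat_lit 328271), .ofNat (nat_lit 192306), .ofNat (nat_lit 306337), .ofNat (nat_lit 200000), .ofNat (nat_lit 329112)⟩⟩, []⟩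
noncomputable def p113_l95 : Lf2 := ⟨nat_lit 0, nat_lit 25, [nat_lit 44, nat_lit 5, nat_lit 5, nat_lit 20], false, nat_lit 80, nat_lit 160, nat_lit 160, nat_lit 336, ⟨nat_lit 1000, nat_lit 0, nat_lit 0, nat_lit 0, nat_lit 0, nat_lit 0, nat_lit 0, nat_lit 0, nat_lit 0, nat_lit 0, nat_lit 0, nat_lit 0, nat_lit 0, nat_lit 0, nat_lit 0, nat_lit 0, false, false⟩,
 nat_lit 0, nat_lit 0, nat_lit 12693, nat_lit 0, nat_lit 9323, nat_lit 7388, nat_lit 0, nat_lit 0, nat_lit 0, nat_lit 938, nat_lit 0, nat_lit 0, nat_lit 0, nat_lit 0, nat_lit 0, nat_lit 0, nat_lit 0, nat_lit 0, [],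
 ⟨p113_k16, nat_lit 0, nat_lit 0, nat_lit 121, nat_lit 0, nat_lit 0, [nat_lit 938000000, nat_lit 3282000000, nat_lit 7968000000], [], [nat_lit 30798525368, nat_lit 31304120811, nat_lit 33466270764, nat_lit 34094353877, nat_lit 28965045368, nat_lit 29416021693, nat_lit 31141633956, nat_lit 31695666900], nat_lit 0, nat_lit 0, nat_lit 0, nat_lit 0, nat_lit 0, nat_lit 0, [], [nat_lit 54, nat_lit 40, nat_lit 40, nat_lit 80, nat_lit 43, nat_lit 249, nat_lit 40, nat_lit 7]⟩, ⟨p113_k17, nat_lit 0, nat_lit 0, nat_lit 373, nat_lit 0, nat_lit 439357, [nat_lit 4688000000, nat_lit 7968000000, nat_lit 14058000000], [], [nat_lit 27882096552, nat_lit 28348588304, nat_lit 29173719704, nat_lit 29566634240, nat_lit 30429857792, nat_lit 30664098884, nat_lit 31422081588, nat_lit 31771085543], nat_lit 1271250, nat_lit 1271250, nat_lit 1271250, nat_lit 1271250, nat_lit 1100001, nat_lit 2607000, [nat_lit 1100000, nat_lit 1785000, nat_lit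 1271250], [nat_lit 37, nat_lit 40, nat_lit 40, nat_lit 80, nat_lit 28, nat_lit 483, nat_lit 250, nat_lit 10]⟩,
 zbF0, [⟨nat_lit 7, nat_lit 86, nat_lit 100, nat_lit 89, nat_lit 326841901⟩]⟩
noncomputable def p113_l96 : Lf2 := ⟨nat_lit 0, nat_lit 25, [nat_lit 44, nat_lit 5, nat_lit 5, nat_lit 20], false, nat_lit 80, nat_lit 160, nat_lit 160, nat_lit 336, ⟨nat_lit 391, nat_lit 609, nat_lit 0, nat_lit 7, nat_lit 291, nat_lit 609, nat_lit 102, nat_lit 0, nat_lit 0, nat_lit 0, nat_lit 0, nat_lit 0, nat_lit 40698739, nat_lit 22069979, nat_lit 4231282, nat_lit 4460035, true, true⟩,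
 nat_lit 0, nat_lit 0, nat_lit 4504, nat_lit 0, nat_lit 3221, nat_lit 2621, nat_lit 385, nat_lit 0, nat_lit 0, nat_lit 350, nat_lit 0, nat_lit 0, nat_lit 0, nat_lit 0, nat_lit 0, nat_lit 152250, nat_lit 0, nat_lit 0, [(nat_lit 26, [(nat_lit 0, nat_lit 609)])],
 ⟨p113_k34, nat_lit 0, nat_lit 0, nat_lit 123, nat_lit 0, nat_lit 0, [nat_lit 833008400, nat_lit 2116861200, nat_lit 4645783200], [], [nat_lit 24090101459, nat_lit 24368412656, nat_lit 25648995363, nat_lit 25904916061, nat_lit 24453472536, nat_lit 24707506811, nat_lit 25880751350, nat_lit 26115006562], nat_lit 0, nat_lit 0, nat_lit 0, nat_lit 0, nat_lit 0, nat_lit 0, [], [nat_lit 54, nat_lit 40, nat_lit 40, nat_lit 80, nat_lit 43, nat_lit 249, nat_lit 40, nat_lit 7]⟩, ⟨p113_k17, nat_lit 0, nat_lit 0, nat_lit 404, nat_lit 0, nat_lit 522824, [nat_lit 1833008000, nat_lit 3115488000, nat_lit 5496678000], [], [nat_lit 11690502796, nat_lit 11838832376, nat_lit 12099522032,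 nat_lit 12226085420, nat_lit 12613746467, nat_lit 12709350301, nat_lit 12914645650, nat_lit 12991480404], nat_lit 1271250, nat_lit 1271250, nat_lit 1271250, nat_lit 1271250, nat_lit 1100001, nat_lit 2607000, [nat_lit 1100000, nat_lit 1785000, nat_lit 1271250], [nat_lit 37, nat_lit 40, nat_lit 40, nat_lit 80, nat_lit 28, nat_lit 483, nat_lit 250, nat_lit 10]⟩,
 ⟨nat_lit 2738, nat_lit 2959, ⟨.ofNat (nat_lit 686872), .ofNat (nat_lit 746893), .ofNat (nat_lit 709147), .ofNat (nat_lit 769170), .ofNat (nat_lit 685373), .ofNat (nat_lit 744435), .ofNat (nat_lit 707788), .ofNat (nat_lit 766852)⟩, ⟨.ofNat (nat_lit 186273), .ofNat (nat_lit 306315), .ofNat (nat_lit 200000), .ofNat (nat_lit 328592), .ofNat (nat_lit 188310), .ofNat (nat_lit 306433), .ofNat (nat_lit 200000), .ofNat (nat_lit 328850)⟩⟩, [⟨nat_lit 7, nat_lit 86, nat_lit 100, nat_lit 89, nat_lit 124719378⟩]⟩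
noncomputable def p113_l97 : Lf2 := ⟨nat_lit 0, nat_lit 25, [nat_lit 44, nat_lit 5, nat_lit 5, nat_lit 20], false, nat_lit 80, nat_lit 160, nat_lit 160, nat_lit 336, ⟨nat_lit 329, nat_lit 671, nat_lit 0, nat_lit 7, nat_lit 288, nat_lit 671, nat_lit 102, nat_lit 0, nat_lit 0, nat_lit 0, nat_lit 0, nat_lit 0, nat_lit 40960031, nat_lit 21777192, nat_lit 4262777, nat_lit 4452286, true, true⟩,
 nat_lit 0, nat_lit 0, nat_lit 4081, nat_lit 0, nat_lit 2819, nat_lit 2375, nat_lit 373, nat_lit 0, nat_lit 0, nat_lit 298, nat_lit 0, nat_lit 0, nat_lit 0, nat_lit 0, nat_lit 0, nat_lit 167750, nat_lit 0, nat_lit 0, [(nat_lit 26, [(nat_lit 0, nat_lit 671)])],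
 ⟨p113_k18, nat_lit 0, nat_lit 0, nat_lit 125, nat_lit 0, nat_lit 0, [nat_lit 822319601, nat_lit 1998242801, nat_lit 4307560800], [], [nat_lit 23918246159, nat_lit 24181583862, nat_lit 25400356954, nat_lit 25643277776, nat_lit 24431703918, nat_lit 24668054154, nat_lit 25774805574, nat_lit 25993713356], nat_lit 0, nat_lit 0, nat_lit 0, nat_lit 0, nat_lit 0, nat_lit 0, [], [nat_lit 54, nat_lit 40, nat_lit 40, nat_lit 80, nat_lit 43, nat_lit 249, nat_lit 40, nat_lit 7]⟩, ⟨p113_k17, nat_lit 0, nat_lit 0, nat_lit 410, nat_lit 0, nat_lit 540406, [nat_lit 1542352000, nat_lit 2621472000, nat_lit 4625082000], [], [nat_lit 9405961130, nat_lit 9482597347, nat_lit 9828083368, nat_lit 9892842414, nat_lit 10252025406, nat_lit 10290389750, nat_lit 10504063306, nat_lit 10536001972], nat_lit 1271250, nat_lit 1271250, nat_lit 1271250, nat_lit 1271250, nat_lit 1100001, nat_lit 2607000, [nat_lit 1100000, nat_lit 1785000, nat_lit 1271250],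 [nat_lit 37, nat_lit 40, nat_lit 40, nat_lit 80, nat_lit 28, nat_lit 483, nat_lit 250, nat_lit 10]⟩,
 ⟨nat_lit 2500, nat_lit 2739, ⟨.ofNat (nat_lit 685373), .ofNat (nat_lit 744435), .ofNat (nat_lit 696581), .ofNat (nat_lit 755643), .ofNat (nat_lit 683869), .ofNat (nat_lit 741934), .ofNat (nat_lit 695159), .ofNat (nat_lit 753224)⟩, ⟨.ofNat (nat_lit 188310), .ofNat (nat_lit 306433), .ofNat (nat_lit 200000), .ofNat (nat_lit 328850), .ofNat (nat_lit 190321), .ofNat (nat_lit 306450), .ofNat (nat_lit 200000), .ofNat (nat_lit 329031)⟩⟩, [⟨nat_lit 7, nat_lit 84, nat_lit 100, nat_lit 88, nat_lit 105989961⟩]⟩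
noncomputable def p113_l98 : Lf2 := ⟨nat_lit 0, nat_lit 25, [nat_lit 44, nat_lit 5, nat_lit 5, nat_lit 20], false, nat_lit 80, nat_lit 160, nat_lit 160, nat_lit 328, ⟨nat_lit 417, nat_lit 583, nat_lit 0, nat_lit 7, nat_lit 292, nat_lit 583, nat_lit 102, nat_lit 0, nat_lit 0, nat_lit 0, nat_lit 0, nat_lit 0, nat_lit 40555447, nat_lit 22208025, nat_lit 4236528, nat_lit 4467617, true, true⟩,
 nat_lit 0, nat_lit 0, nat_lit 4594, nat_lit 0, nat_lit 2858, nat_lit 2797, nat_lit 406, nat_lit 0, nat_lit 0, nat_lit 385, nat_lit 0, nat_lit 0, nat_lit 0, nat_lit 0, nat_lit 0, nat_lit 145750, nat_lit 0, nat_lit 0, [(nat_lit 26, [(nat_lit 0, nat_lit 583)])],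
 ⟨p113_k18, nat_lit 0, nat_lit 0, nat_lit 125, nat_lit 0, nat_lit 0, [nat_lit 837490800, nat_lit 2166604400, nat_lit 4787618400], [], [nat_lit 23964937538, nat_lit 24229727893, nat_lit 25452325228, nat_lit 25696507232, nat_lit 24461238694, nat_lit 24698815655, nat_lit 25808592286, nat_lit 26031597861], nat_lit 0, nat_lit 0, nat_lit 0, nat_lit 0, nat_lit 0, nat_lit 0, [], [nat_lit 54, nat_lit 40, nat_lit 40, nat_lit 80, nat_lit 43, nat_lit 249, nat_lit 40, nat_lit 7]⟩, ⟨p113_k41, nat_lit 0, nat_lit 0, nat_lit 420, nat_lit 0, nat_lit 568533, [nat_lit 1954896000, nat_lit 3322656000, nat_lit 5862186000], [], [nat_lit 11823131832, nat_lit 11902224312, nat_lit 12247468744, nat_lit 12317052140, nat_lit 12679752924, nat_lit 12733124489, nat_lit 13000864256, nat_lit 13067499451], nat_lit 1271250, nat_lit 1271250, nat_lit 1271250, nat_lit 1271250, nat_lit 1100001, nat_lit 2538500, [nat_lit 1100000, nat_lit 1785000, nat_lit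 1271250], [nat_lit 37, nat_lit 40, nat_lit 40, nat_lit 80, nat_lit 28, nat_lit 483, nat_lit 250, nat_lit 10]⟩,
 ⟨nat_lit 2500, nat_lit 2739, ⟨.ofNat (nat_lit 696581), .ofNat (nat_lit 755643), .ofNat (nat_lit 707789), .ofNat (nat_lit 766852), .ofNat (nat_lit 695159), .ofNat (nat_lit 753224), .ofNat (nat_lit 706448), .ofNat (nat_lit 764515)⟩, ⟨.ofNat (nat_lit 188310), .ofNat (nat_lit 306433), .ofNat (nat_lit 200000), .ofNat (nat_lit 328850), .ofNat (nat_lit 190321), .ofNat (nat_lit 306450), .ofNat (nat_lit 200000), .ofNat (nat_lit 329031)⟩⟩, [⟨nat_lit 19, nat_lit 100, nat_lit 89, nat_lit 90, nat_lit 129783977⟩]⟩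
noncomputable def p113_l99 : Lf2 := ⟨nat_lit 0, nat_lit 25, [nat_lit 44, nat_lit 5, nat_lit 5, nat_lit 20], false, nat_lit 80, nat_lit 160, nat_lit 160, nat_lit 336, ⟨nat_lit 172, nat_lit 828, nat_lit 0, nat_lit 7, nat_lit 287, nat_lit 828, nat_lit 103, nat_lit 0, nat_lit 0, nat_lit 0, nat_lit 0, nat_lit 0, nat_lit 41022105, nat_lit 21697907, nat_lit 4279988, nat_lit 4451870, true, true⟩,
 nat_lit 0, nat_lit 0, nat_lit 2137, nat_lit 0, nat_lit 4560, nat_lit 1243, nat_lit 0, nat_lit 0, nat_lit 0, nat_lit 156, nat_lit 0, nat_lit 0, nat_lit 0, nat_lit 0, nat_lit 0, nat_lit 207000, nat_lit 0, nat_lit 0, [(nat_lit 26, [(nat_lit 0, nat_lit 828)])],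
 ⟨p113_k36, nat_lit 0, nat_lit 0, nat_lit 108, nat_lit 0, nat_lit 0, [nat_lit 795252800, nat_lit 1697870401, nat_lit 2805520000], [], [nat_lit 26428556540, nat_lit 26781640560, nat_lit 28255951520, nat_lit 28631237520, nat_lit 26334967440, nat_lit 26654260320, nat_lit 27990095180, nat_lit 28281541040], nat_lit 0, nat_lit 0, nat_lit 0, nat_lit 0, nat_lit 0, nat_lit 0, [], [nat_lit 20, nat_lit 40, nat_lit 40, nat_lit 80, nat_lit 16, nat_lit 249, nat_lit 40, nat_lit 8]⟩, ⟨p113_k17, nat_lit 0, nat_lit 0, nat_lit 444, nat_lit 0, nat_lit 629803, [nat_lit 806336000, nat_lit 1370496000, nat_lit 2417976000], [], [nat_lit 4912392562, nat_lit 4952460179, nat_lit 5133145418, nat_lit 5166998169, nat_lit 5354520213, nat_lit 5374562070, nat_lit 5486275509, nat_lit 5504919862], nat_lit 1271250, nat_lit 1271250, nat_lit 1271250, nat_lit 1271250, nat_lit 1100001, nat_lit 2607000, [nat_lit 1100000, nat_lit 1785000, nat_lit 1271250],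 [nat_lit 37, nat_lit 40, nat_lit 40, nat_lit 80, nat_lit 28, nat_lit 483, nat_lit 250, nat_lit 10]⟩,
 ⟨nat_lit 2236, nat_lit 2500, ⟨.ofNat (nat_lit 683869), .ofNat (nat_lit 741934), .ofNat (nat_lit 695160), .ofNat (nat_lit 753224), .ofNat (nat_lit 682352), .ofNat (nat_lit 739368), .ofNat (nat_lit 693740), .ofNat (nat_lit 750755)⟩, ⟨.ofNat (nat_lit 190321), .ofNat (nat_lit 306450), .ofNat (nat_lit 200000), .ofNat (nat_lit 329031), .ofNat (nat_lit 192306), .ofNat (nat_lit 306337), .ofNat (nat_lit 200000), .ofNat (nat_lit 329112)⟩⟩, [⟨nat_lit 19, nat_lit 100, nat_lit 84, nat_lit 88, nat_lit 55492000⟩]⟩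
noncomputable def p113_l100 : Lf2 := ⟨nat_lit 0, nat_lit 25, [nat_lit 44, nat_lit 5, nat_lit 5, nat_lit 20], false, nat_lit 80, nat_lit 160, nat_lit 160, nat_lit 328, ⟨nat_lit 204, nat_lit 796, nat_lit 0, nat_lit 7, nat_lit 292, nat_lit 796, nat_lit 103, nat_lit 0, nat_lit 0, nat_lit 0, nat_lit 0, nat_lit 0, nat_lit 40614098, nat_lit 22132391, nat_lit 4253511, nat_lit 4467511, true, true⟩,
 nat_lit 0, nat_lit 0, nat_lit 2303, nat_lit 0, nat_lit 4733, nat_lit 1402, nat_lit 0, nat_lit 0, nat_lit 0, nat_lit 193, nat_lit 0, nat_lit 0, nat_lit 0, nat_lit 0, nat_lit 0, nat_lit 199000, nat_lit 0, nat_lit 0, [(nat_lit 26, [(nat_lit 0, nat_lit 796)])],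
 ⟨p113_k36, nat_lit 0, nat_lit 0, nat_lit 108, nat_lit 0, nat_lit 0, [nat_lit 800769600, nat_lit 1759092800, nat_lit 2938640000], [], [nat_lit 26550649347, nat_lit 26910898508, nat_lit 28491403113, nat_lit 28898105936, nat_lit 26393753492, nat_lit 26719265376, nat_lit 28070805349, nat_lit 28367858902], nat_lit 0, nat_lit 0, nat_lit 0, nat_lit 0, nat_lit 0, nat_lit 0, [], [nat_lit 20, nat_lit 40, nat_lit 40, nat_lit 80, nat_lit 16, nat_lit 249, nat_lit 40, nat_lit 8]⟩, ⟨p113_k41, nat_lit 0, nat_lit 0, nat_lit 450, nat_lit 0, nat_lit 650033, [nat_lit 956352000, nat_lit 1625472000, nat_lit 2867832000], [], [nat_lit 5713709828, nat_lit 5744436272, nat_lit 5884415174, nat_lit 5913022512, nat_lit 6135802496, nat_lit 6163976651, nat_lit 6294566892, nat_lit 6320327854], nat_lit 1271250, nat_lit 1271250, nat_lit 1271250, nat_lit 1271250, nat_lit 1100001, nat_lit 2538500, [nat_lit 1100000, nat_lit 1785000, nat_lit 1271250],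 [nat_lit 37, nat_lit 40, nat_lit 40, nat_lit 80, nat_lit 28, nat_lit 483, nat_lit 250, nat_lit 10]⟩,
 ⟨nat_lit 2236, nat_lit 2500, ⟨.ofNat (nat_lit 695160), .ofNat (nat_lit 753224), .ofNat (nat_lit 706448), .ofNat (nat_lit 764515), .ofNat (nat_lit 693740), .ofNat (nat_lit 750755), .ofNat (nat_lit 705125), .ofNat (nat_lit 762142)⟩, ⟨.ofNat (nat_lit 190321), .ofNat (nat_lit 306450), .ofNat (nat_lit 200000), .ofNat (nat_lit 329031), .ofNat (nat_lit 192306), .ofNat (nat_lit 306337), .ofNat (nat_lit 200000), .ofNat (nat_lit 329112)⟩⟩, [⟨nat_lit 7, nat_lit 89, nat_lit 100, nat_lit 90, nat_lit 64811299⟩]⟩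
noncomputable def b_V_900_600_20_33 : St := ⟨true, nat_lit 0, nat_lit 1, nat_lit 1, nat_lit 120, nat_lit 360, nat_lit 380, nat_lit 240, nat_lit 280, nat_lit 240, nat_lit 320, nat_lit 80, nat_lit 100, nat_lit 80, nat_lit 160, nat_lit 0, nat_lit 364, nat_lit 80, nat_lit 120, nat_lit 0, nat_lit 0, nat_lit 0, nat_lit 0⟩
theorem d_V_900_600_20_33 (h : EB TB.env) : Dead b_V_900_600_20_33 := chkB_sound0 h (T :=
(.trX (nat_lit 19) (nat_lit 100) (nat_lit 68) (nat_lit 88) (nat_lit 352) (.spl (nat_lit 2) (nat_lit 280)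
(.spl (nat_lit 1) (nat_lit 260)
(.leaf p113_l84)
(.trX (nat_lit 19) (nat_lit 100) (nat_lit 77) (nat_lit 91) (nat_lit 336) (.spl (nat_lit 4) (nat_lit 120)
(.spl (nat_lit 1) (nat_lit 270)
(.leaf p113_l85)
(.trX (nat_lit 19) (nat_lit 100) (nat_lit 82) (nat_lit 92) (nat_lit 328) (.leaf p113_l86)))
(.leaf p113_l87))))
(.spl (nat_lit 1) (nat_lit 260)
(.spl (nat_lit 0) (nat_lit 370)
(.spl (nat_lit 6) (nat_lit 112)
(.spl (nat_lit 1) (nat_lit 250)
(.leaf p113_l88)
(.trX (nat_lit 19) (nat_lit 100) (nat_lit 72) (nat_lit 89) (nat_lit 344) (.leaf p113_l89)))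
(.leaf p113_l90))
(.spl (nat_lit 0) (nat_lit 375)
(.spl (nat_lit 4) (nat_lit 120)
(.trX (nat_lit 22) (nat_lit 100) (nat_lit 80) (nat_lit 100) (nat_lit 336) (.leaf p113_l91))
(.leaf p113_l92))
(.leaf p113_l93)))
(.trX (nat_lit 19) (nat_lit 100) (nat_lit 77) (nat_lit 91) (nat_lit 336) (.spl (nat_lit 5) (nat_lit 160)
(.leaf p113_l94)
(.spl (nat_lit 0) (nat_lit 370)
(.spl (nat_lit 0) (nat_lit 365)
(.leaf p113_l95)
(.leaf p113_l96))
(.spl (nat_lit 0) (nat_lit 375)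
(.spl (nat_lit 1) (nat_lit 270)
(.leaf p113_l97)
(.trX (nat_lit 19) (nat_lit 100) (nat_lit 82) (nat_lit 92) (nat_lit 328) (.leaf p113_l98)))
(.spl (nat_lit 1) (nat_lit 270)
(.leaf p113_l99)
(.trX (nat_lit 19) (nat_lit 100) (nat_lit 82) (nat_lit 92) (nat_lit 328) (.leaf p113_l100))))))))))) (by decide +kernel)
noncomputable def p113_l101 : Lf2 := ⟨nat_lit 0, nat_lit 26, [nat_lit 108, nat_lit 5, nat_lit 5, nat_lit 20], false, nat_lit 80, nat_lit 160, nat_lit 0, nat_lit 364, ⟨nat_lit 452, nat_lit 548, nat_lit 0, nat_lit 6, nat_lit 270, nat_lit 548, nat_lit 108, nat_lit 0, nat_lit 0, nat_lit 0, nat_lit 0, nat_lit 0, nat_lit 42291832, nat_lit 20003368, nat_lit 4704800, nat_lit 4445017, true, true⟩,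
 nat_lit 0, nat_lit 0, nat_lit 7073, nat_lit 0, nat_lit 5707, nat_lit 3744, nat_lit 144, nat_lit 0, nat_lit 0, nat_lit 394, nat_lit 0, nat_lit 0, nat_lit 0, nat_lit 0, nat_lit 0, nat_lit 137000, nat_lit 0, nat_lit 0, [(nat_lit 26, [(nat_lit 0, nat_lit 548)])],
 ⟨p113_k43, nat_lit 0, nat_lit 0, nat_lit 123, nat_lit 0, nat_lit 0, [nat_lit 843524801, nat_lit 2233566400, nat_lit 4978550400], [], [nat_lit 25146427148, nat_lit 25956345007, nat_lit 28720520180, nat_lit 29493230910, nat_lit 24802290780, nat_lit 25530799436, nat_lit 28005475604, nat_lit 28613208683], nat_lit 0, nat_lit 0, nat_lit 0, nat_lit 0, nat_lit 0, nat_lit 0, [], [nat_lit 54, nat_lit 40, nat_lit 40, nat_lit 80, nat_lit 43, nat_lit 249, nat_lit 40, nat_lit 7]⟩, ⟨p113_k44, nat_lit 0, nat_lit 0, nat_lit 402, nat_lit 0, nat_lit 224516, [nat_lit 2118976000, nat_lit 3601536000, nat_lit 6354216000], [], [nat_lit 16700118592, nat_lit 16871556968, nat_lit 17542340448,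 nat_lit 17651837648, nat_lit 15138576778, nat_lit 14786100328, nat_lit 15261379238, nat_lit 15366492399], nat_lit 1271250, nat_lit 1271250, nat_lit 1271250, nat_lit 1271250, nat_lit 0, nat_lit 2570750, [nat_lit 1100000, nat_lit 1785000, nat_lit 1271250], [nat_lit 37, nat_lit 40, nat_lit 40, nat_lit 80, nat_lit 28, nat_lit 483, nat_lit 250, nat_lit 11]⟩,
 ⟨nat_lit 2738, nat_lit 3163, ⟨.ofNat (nat_lit 605257), .ofNat (nat_lit 727168), .ofNat (nat_lit 627400), .ofNat (nat_lit 749323), .ofNat (nat_lit 603890), .ofNat (nat_lit 722017), .ofNat (nat_lit 626295), .ofNat (nat_lit 744435)⟩, ⟨.ofNat (nat_lit 200000), .ofNat (nat_lit 328271), .ofNat (nat_lit 200000), .ofNat (nat_lit 350426), .ofNat (nat_lit 200000), .ofNat (nat_lit 328850), .ofNat (nat_lit 200000), .ofNat (nat_lit 351268)⟩⟩, [⟨nat_lit 7, nat_lit 68, nat_lit 100, nat_lit 92, nat_lit 62333148⟩]⟩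
noncomputable def p113_l102 : Lf2 := ⟨nat_lit 1, nat_lit 30, [nat_lit 15, nat_lit 5, nat_lit 5, nat_lit 20], false, nat_lit 80, nat_lit 160, nat_lit 0, nat_lit 364, zbN0,
 nat_lit 0, nat_lit 0, nat_lit 0, nat_lit 0, nat_lit 0, nat_lit 0, nat_lit 0, nat_lit 0, nat_lit 0, nat_lit 0, nat_lit 0, nat_lit 0, nat_lit 0, nat_lit 0, nat_lit 0, nat_lit 0, nat_lit 0, nat_lit 0, [],
 C1.Rw.none, C1.Rw.none,
 zbF0, []⟩
noncomputable def p113_l103 : Lf2 := ⟨nat_lit 0, nat_lit 30, [nat_lit 15, nat_lit 5, nat_lit 5, nat_lit 20], true, nat_lit 80, nat_lit 160, nat_lit 0, nat_lit 364, ⟨nat_lit 0, nat_lit 185, nat_lit 815, nat_lit 6, nat_lit 255, nat_lit 1000, nat_lit 108, nat_lit 815, nat_lit 109350, nat_lit 296, nat_lit 77080, nat_lit 200, nat_lit 43669848, nat_lit 18531793, nat_lit 4798359, nat_lit 4370935, true, true⟩,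
 nat_lit 0, nat_lit 0, nat_lit 0, nat_lit 7290, nat_lit 2349, nat_lit 0, nat_lit 0, nat_lit 0, nat_lit 0, nat_lit 0, nat_lit 0, nat_lit 0, nat_lit 0, nat_lit 0, nat_lit 68, nat_lit 250000, nat_lit 0, nat_lit 0, [(nat_lit 26, [(nat_lit 0, nat_lit 185), (nat_lit 4, nat_lit 815)])],
 ⟨p113_k12, nat_lit 0, nat_lit 0, nat_lit 114, nat_lit 0, nat_lit 0, [nat_lit 1006956001, nat_lit 792780001, nat_lit 362000], [], [nat_lit 21740737036, nat_lit 22257410123, nat_lit 22997038968, nat_lit 23479191167, nat_lit 22534884570, nat_lit 23008537839, nat_lit 23769268608, nat_lit 24316935965], nat_lit 0, nat_lit 0, nat_lit 0, nat_lit 0, nat_lit 0, nat_lit 0, [], [nat_lit 54, nat_lit 40, nat_lit 40, nat_lit 80, nat_lit 43, nat_lit 249, nat_lit 40, nat_lit 7]⟩, C1.Rw.none,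
 ⟨nat_lit 2236, nat_lit 2739, ⟨.ofNat (nat_lit 603890), .ofNat (nat_lit 662956), .ofNat (nat_lit 615088), .ofNat (nat_lit 674165), .ofNat (nat_lit 602558), .ofNat (nat_lit 659578), .ofNat (nat_lit 613935), .ofNat (nat_lit 670965)⟩, ⟨.ofNat (nat_lit 200000), .ofNat (nat_lit 328850), .ofNat (nat_lit 200000), .ofNat (nat_lit 351268), .ofNat (nat_lit 200000), .ofNat (nat_lit 329112), .ofNat (nat_lit 200000), .ofNat (nat_lit 351886)⟩⟩, []⟩
noncomputable def p113_l104 : Lf2 := ⟨nat_lit 0, nat_lit 30, [nat_lit 15, nat_lit 5, nat_lit 5, nat_lit 20], false, nat_lit 80, nat_lit 160, nat_lit 0, nat_lit 360, ⟨nat_lit 180, nat_lit 0, nat_lit 820, nat_lit 6, nat_lit 259, nat_lit 820, nat_lit 108, nat_lit 820, nat_lit 109350, nat_lit 296, nat_lit 88288, nat_lit 200, nat_lit 43358545, nat_lit 0, nat_lit 0, nat_lit 4389094, true, true⟩,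
 nat_lit 0, nat_lit 0, nat_lit 3302, nat_lit 0, nat_lit 3199, nat_lit 1834, nat_lit 0, nat_lit 0, nat_lit 0, nat_lit 121, nat_lit 0, nat_lit 0, nat_lit 0, nat_lit 0, nat_lit 17, nat_lit 178600, nat_lit 0, nat_lit 0, [(nat_lit 26, [(nat_lit 3, nat_lit 528), (nat_lit 4, nat_lit 292)])],
 ⟨p113_k4, nat_lit 0, nat_lit 0, nat_lit 107, nat_lit 0, nat_lit 0, [nat_lit 1069459200, nat_lit 377073600, nat_lit 35099200], [], [nat_lit 22712057699, nat_lit 23310959962, nat_lit 24057264489, nat_lit 24613581484, nat_lit 23217588819, nat_lit 23751660938, nat_lit 24434873007, nat_lit 24932295336], nat_lit 0, nat_lit 0, nat_lit 0, nat_lit 0, nat_lit 0, nat_lit 0, [], [nat_lit 57, nat_lit 40, nat_lit 40, nat_lit 80, nat_lit 7, nat_lit 249, nat_lit 40, nat_lit 7]⟩, ⟨p113_k23, nat_lit 0, nat_lit 0, nat_lit 469, nat_lit 0, nat_lit 379528, [nat_lit 843840000, nat_lit 1771560000, nat_lit 2530440000], [], [nat_lit 6551104834, nat_lit 6578088639,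 nat_lit 6758096526, nat_lit 6780640957, nat_lit 6509746326, nat_lit 6309881133, nat_lit 5807625747, nat_lit 5817081844], nat_lit 1271250, nat_lit 1271250, nat_lit 1271250, nat_lit 1271250, nat_lit 0, nat_lit 2542500, [nat_lit 1100000, nat_lit 2127500, nat_lit 1271250], [nat_lit 56, nat_lit 40, nat_lit 40, nat_lit 80, nat_lit 32, nat_lit 456, nat_lit 225, nat_lit 10]⟩,
 ⟨nat_lit 2236, nat_lit 2739, ⟨.ofNat (nat_lit 615088), .ofNat (nat_lit 674165), .ofNat (nat_lit 620688), .ofNat (nat_lit 679769), .ofNat (nat_lit 613935), .ofNat (nat_lit 670965), .ofNat (nat_lit 619624), .ofNat (nat_lit 676659)⟩, ⟨.ofNat (nat_lit 200000), .ofNat (nat_lit 328850), .ofNat (nat_lit 200000), .ofNat (nat_lit 351268), .ofNat (nat_lit 200000), .ofNat (nat_lit 329112), .ofNat (nat_lit 200000), .ofNat (nat_lit 351886)⟩⟩, [⟨nat_lit 7, nat_lit 69, nat_lit 100, nat_lit 93, nat_lit 14533172⟩, ⟨nat_lit 22, nat_lit 100, nat_lit 69, nat_lit 96, nat_lit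 8601954⟩]⟩
noncomputable def p113_l105 : Lf2 := ⟨nat_lit 0, nat_lit 30, [nat_lit 15, nat_lit 5, nat_lit 5, nat_lit 20], false, nat_lit 80, nat_lit 160, nat_lit 0, nat_lit 356, ⟨nat_lit 182, nat_lit 0, nat_lit 818, nat_lit 6, nat_lit 261, nat_lit 818, nat_lit 108, nat_lit 818, nat_lit 109350, nat_lit 296, nat_lit 99496, nat_lit 200, nat_lit 43151477, nat_lit 0, nat_lit 0, nat_lit 4400786, true, true⟩,
 nat_lit 0, nat_lit 0, nat_lit 3212, nat_lit 0, nat_lit 3144, nat_lit 1826, nat_lit 0, nat_lit 0, nat_lit 0, nat_lit 128, nat_lit 0, nat_lit 0, nat_lit 0, nat_lit 0, nat_lit 19, nat_lit 184200, nat_lit 0, nat_lit 0, [(nat_lit 26, [(nat_lit 3, nat_lit 406), (nat_lit 4, nat_lit 412)])],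
 ⟨p113_k4, nat_lit 0, nat_lit 0, nat_lit 107, nat_lit 0, nat_lit 0, [nat_lit 1032351201, nat_lit 396205601, nat_lit 34347200], [], [nat_lit 22673387144, nat_lit 23267661872, nat_lit 24013797384, nat_lit 24564683664, nat_lit 23178245865, nat_lit 23708408529, nat_lit 24391888393, nat_lit 24885034289], nat_lit 0, nat_lit 0, nat_lit 0, nat_lit 0, nat_lit 0, nat_lit 0, [], [nat_lit 57, nat_lit 40, nat_lit 40, nat_lit 80, nat_lit 7, nat_lit 249, nat_lit 40, nat_lit 7]⟩, ⟨p113_k45, nat_lit 0, nat_lit 0, nat_lit 474, nat_lit 0, nat_lit 394387, [nat_lit 853216000, nat_lit 1791244000, nat_lit 2558556000], [], [nat_lit 6456244430, nat_lit 6483438736, nat_lit 6660509088, nat_lit 6683273464, nat_lit 6254519068, nat_lit 6055277588, nat_lit 5733784959, nat_lit 5743885106], nat_lit 1271250, nat_lit 1271250, nat_lit 1271250, nat_lit 1271250, nat_lit 0, nat_lit 2514250, [nat_lit 1100000, nat_lit 2127500, nat_lit 1271250], [nat_lit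 56, nat_lit 40, nat_lit 40, nat_lit 80, nat_lit 32, nat_lit 456, nat_lit 225, nat_lit 10]⟩,
 ⟨nat_lit 2236, nat_lit 2739, ⟨.ofNat (nat_lit 620688), .ofNat (nat_lit 679769), .ofNat (nat_lit 626287), .ofNat (nat_lit 685373), .ofNat (nat_lit 619624), .ofNat (nat_lit 676659), .ofNat (nat_lit 625312), .ofNat (nat_lit 682352)⟩, ⟨.ofNat (nat_lit 200000), .ofNat (nat_lit 328850), .ofNat (nat_lit 200000), .ofNat (nat_lit 351268), .ofNat (nat_lit 200000), .ofNat (nat_lit 329112), .ofNat (nat_lit 200000), .ofNat (nat_lit 351886)⟩⟩, [⟨nat_lit 7, nat_lit 72, nat_lit 100, nat_lit 93, nat_lit 15599297⟩, ⟨nat_lit 22, nat_lit 100, nat_lit 69, nat_lit 96, nat_lit 7942333⟩]⟩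
noncomputable def p113_l106 : Lf2 := ⟨nat_lit 0, nat_lit 30, [nat_lit 15, nat_lit 5, nat_lit 5, nat_lit 20], false, nat_lit 80, nat_lit 160, nat_lit 0, nat_lit 160, ⟨nat_lit 900, nat_lit 100, nat_lit 0, nat_lit 7, nat_lit 281, nat_lit 100, nat_lit 108, nat_lit 0, nat_lit 0, nat_lit 0, nat_lit 0, nat_lit 0, nat_lit 41351868, nat_lit 20998360, nat_lit 4649772, nat_lit 4489671, true, true⟩,
 nat_lit 0, nat_lit 0, nat_lit 14560, nat_lit 0, nat_lit 3281, nat_lit 7708, nat_lit 578, nat_lit 0, nat_lit 0, nat_lit 1006, nat_lit 0, nat_lit 0, nat_lit 0, nat_lit 0, nat_lit 0, nat_lit 25000, nat_lit 0, nat_lit 0, [(nat_lit 26, [(nat_lit 0, nat_lit 100)])],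
 ⟨p113_k12, nat_lit 0, nat_lit 0, nat_lit 127, nat_lit 0, nat_lit 0, [nat_lit 920760000, nat_lit 3090680000, nat_lit 7422480000], [], [nat_lit 24319928491, nat_lit 24881020586, nat_lit 25984919530, nat_lit 26658262352, nat_lit 24636585946, nat_lit 25148527496, nat_lit 26224073040, nat_lit 26783679628], nat_lit 0, nat_lit 0, nat_lit 0, nat_lit 0, nat_lit 0, nat_lit 0, [], [nat_lit 54, nat_lit 40, nat_lit 40, nat_lit 80, nat_lit 43, nat_lit 249, nat_lit 40, nat_lit 7]⟩, ⟨p113_k33, nat_lit 0, nat_lit 0, nat_lit 558, nat_lit 0, nat_lit 439698, [nat_lit 4219200000, nat_lit 7171200000, nat_lit 14760000000], [], [nat_lit 31818801150, nat_lit 32059827926, nat_lit 33088286496, nat_lit 33569363494, nat_lit 26528203152, nat_lit 26976562216, nat_lit 27831597632, nat_lit 28207394416], nat_lit 1271250, nat_lit 1271250, nat_lit 1271250, nat_lit 1271250, nat_lit 0, nat_lit 1100001, [nat_lit 1100000, nat_lit 1785000, nat_lit 1271250],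 [nat_lit 122, nat_lit 40, nat_lit 40, nat_lit 80, nat_lit 111, nat_lit 428, nat_lit 200, nat_lit 9]⟩,
 ⟨nat_lit 2236, nat_lit 2739, ⟨.ofNat (nat_lit 662956), .ofNat (nat_lit 722017), .ofNat (nat_lit 685373), .ofNat (nat_lit 744435), .ofNat (nat_lit 659578), .ofNat (nat_lit 716594), .ofNat (nat_lit 682352), .ofNat (nat_lit 739368)⟩, ⟨.ofNat (nat_lit 200000), .ofNat (nat_lit 328850), .ofNat (nat_lit 200000), .ofNat (nat_lit 351268), .ofNat (nat_lit 200000), .ofNat (nat_lit 329112), .ofNat (nat_lit 200000), .ofNat (nat_lit 351886)⟩⟩, [⟨nat_lit 9, nat_lit 100, nat_lit 88, nat_lit 32, nat_lit 30465967⟩]⟩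
noncomputable def p113_l107 : Lf2 := ⟨nat_lit 0, nat_lit 25, [nat_lit 44, nat_lit 5, nat_lit 5, nat_lit 20], false, nat_lit 80, nat_lit 160, nat_lit 160, nat_lit 364, ⟨nat_lit 532, nat_lit 468, nat_lit 0, nat_lit 7, nat_lit 281, nat_lit 468, nat_lit 108, nat_lit 0, nat_lit 0, nat_lit 0, nat_lit 0, nat_lit 0, nat_lit 41314295, nat_lit 21039675, nat_lit 4646030, nat_lit 4491121, true, true⟩,
 nat_lit 0, nat_lit 0, nat_lit 6271, nat_lit 2103, nat_lit 2943, nat_lit 3319, nat_lit 445, nat_lit 0, nat_lit 0, nat_lit 504, nat_lit 0, nat_lit 0, nat_lit 0, nat_lit 0, nat_lit 0, nat_lit 117000, nat_lit 0, nat_lit 0, [(nat_lit 26, [(nat_lit 0, nat_lit 468)])],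
 ⟨p113_k18, nat_lit 0, nat_lit 0, nat_lit 125, nat_lit 0, nat_lit 0, [nat_lit 857316800, nat_lit 2386622400, nat_lit 5414966400], [], [nat_lit 24076386723, nat_lit 24344343116, nat_lit 25575275338, nat_lit 25822206072, nat_lit 24522055849, nat_lit 24764499413, nat_lit 25896098521, nat_lit 26122623244], nat_lit 0, nat_lit 0, nat_lit 0, nat_lit 0, nat_lit 0, nat_lit 0, [], [nat_lit 54, nat_lit 40, nat_lit 40, nat_lit 80, nat_lit 43, nat_lit 249, nat_lit 40, nat_lit 7]⟩, ⟨p113_k35, nat_lit 0, nat_lit 0, nat_lit 263, nat_lit 0, nat_lit 318970, [nat_lit 2494016000, nat_lit 4238976000, nat_lit 7478856000], [], [nat_lit 14791591512, nat_lit 15090025656, nat_lit 15605625392, nat_lit 15864590340, nat_lit 17436773248, nat_lit 17614026482, nat_lit 17988919967, nat_lit 18137353298], nat_lit 1271250, nat_lit 1271250, nat_lit 1271250, nat_lit 1271250, nat_lit 1100001, nat_lit 2846750, [nat_lit 1100000, nat_lit 1785000, nat_lit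 1271250], [nat_lit 37, nat_lit 40, nat_lit 40, nat_lit 80, nat_lit 28, nat_lit 483, nat_lit 250, nat_lit 10]⟩,
 ⟨nat_lit 2500, nat_lit 2739, ⟨.ofNat (nat_lit 662956), .ofNat (nat_lit 722017), .ofNat (nat_lit 685373), .ofNat (nat_lit 744435), .ofNat (nat_lit 661289), .ofNat (nat_lit 719353), .ofNat (nat_lit 683869), .ofNat (nat_lit 741934)⟩, ⟨.ofNat (nat_lit 200000), .ofNat (nat_lit 328850), .ofNat (nat_lit 200000), .ofNat (nat_lit 351268), .ofNat (nat_lit 200000), .ofNat (nat_lit 329031), .ofNat (nat_lit 200000), .ofNat (nat_lit 351611)⟩⟩, [⟨nat_lit 19, nat_lit 100, nat_lit 68, nat_lit 92, nat_lit 196500526⟩]⟩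
noncomputable def p113_l108 : Lf2 := ⟨nat_lit 0, nat_lit 25, [nat_lit 44, nat_lit 5, nat_lit 5, nat_lit 20], false, nat_lit 80, nat_lit 160, nat_lit 160, nat_lit 364, ⟨nat_lit 156, nat_lit 844, nat_lit 0, nat_lit 7, nat_lit 280, nat_lit 844, nat_lit 108, nat_lit 0, nat_lit 0, nat_lit 0, nat_lit 0, nat_lit 0, nat_lit 41388089, nat_lit 20957939, nat_lit 4653972, nat_lit 4488349, true, true⟩,
 nat_lit 0, nat_lit 0, nat_lit 2382, nat_lit 0, nat_lit 4251, nat_lit 1261, nat_lit 44, nat_lit 0, nat_lit 0, nat_lit 132, nat_lit 0, nat_lit 0, nat_lit 0, nat_lit 0, nat_lit 0, nat_lit 211000, nat_lit 0, nat_lit 0, [(nat_lit 26, [(nat_lit 0, nat_lit 844)])],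
 ⟨p113_k36, nat_lit 0, nat_lit 0, nat_lit 108, nat_lit 0, nat_lit 0, [nat_lit 792494400, nat_lit 1667259200, nat_lit 2738960000], [], [nat_lit 25927805009, nat_lit 26268091176, nat_lit 27771121111, nat_lit 28154576592, nat_lit 25947289824, nat_lit 26255474772, nat_lit 27563258303, nat_lit 27845053784], nat_lit 0, nat_lit 0, nat_lit 0, nat_lit 0, nat_lit 0, nat_lit 0, [], [nat_lit 20, nat_lit 40, nat_lit 40, nat_lit 80, nat_lit 16, nat_lit 249, nat_lit 40, nat_lit 8]⟩, ⟨p113_k35, nat_lit 0, nat_lit 0, nat_lit 368, nat_lit 0, nat_lit 420563, [nat_lit 731328000, nat_lit 1243008000, nat_lit 2193048000], [], [nat_lit 4867854200, nat_lit 4907143424, nat_lit 5010016272, nat_lit 5040005504, nat_lit 5232022973, nat_lit 5258107072, nat_lit 5342814446, nat_lit 5360801782], nat_lit 1271250, nat_lit 1271250, nat_lit 1271250, nat_lit 1271250, nat_lit 1100001, nat_lit 2846750, [nat_lit 1100000, nat_lit 1785000, nat_lit 1271250],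 [nat_lit 37, nat_lit 40, nat_lit 40, nat_lit 80, nat_lit 28, nat_lit 483, nat_lit 250, nat_lit 10]⟩,
 ⟨nat_lit 2236, nat_lit 2500, ⟨.ofNat (nat_lit 661289), .ofNat (nat_lit 719353), .ofNat (nat_lit 683869), .ofNat (nat_lit 741934), .ofNat (nat_lit 659578), .ofNat (nat_lit 716594), .ofNat (nat_lit 682352), .ofNat (nat_lit 739368)⟩, ⟨.ofNat (nat_lit 200000), .ofNat (nat_lit 329031), .ofNat (nat_lit 200000), .ofNat (nat_lit 351611), .ofNat (nat_lit 200000), .ofNat (nat_lit 329112), .ofNat (nat_lit 200000), .ofNat (nat_lit 351886)⟩⟩, [⟨nat_lit 22, nat_lit 94, nat_lit 88, nat_lit 100, nat_lit 47297277⟩]⟩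
noncomputable def p113_l109 : Lf2 := ⟨nat_lit 0, nat_lit 30, [nat_lit 15, nat_lit 5, nat_lit 5, nat_lit 20], false, nat_lit 80, nat_lit 160, nat_lit 160, nat_lit 364, ⟨nat_lit 1000, nat_lit 0, nat_lit 0, nat_lit 0, nat_lit 0, nat_lit 0, nat_lit 0, nat_lit 0, nat_lit 0, nat_lit 0, nat_lit 0, nat_lit 0, nat_lit 0, nat_lit 0, nat_lit 0, nat_lit 0, false, false⟩,
 nat_lit 0, nat_lit 0, nat_lit 15568, nat_lit 0, nat_lit 8914, nat_lit 8241, nat_lit 0, nat_lit 0, nat_lit 0, nat_lit 687, nat_lit 0, nat_lit 0, nat_lit 0, nat_lit 0, nat_lit 0, nat_lit 0, nat_lit 0, nat_lit 0, [],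
 ⟨p113_k4, nat_lit 0, nat_lit 0, nat_lit 128, nat_lit 0, nat_lit 0, [nat_lit 938000000, nat_lit 4688000000, nat_lit 7968000000], [], [nat_lit 31849016654, nat_lit 32829739084, nat_lit 34155811424, nat_lit 35347683088, nat_lit 30059241924, nat_lit 30934793624, nat_lit 32098271858, nat_lit 32933903916], nat_lit 0, nat_lit 0, nat_lit 0, nat_lit 0, nat_lit 0, nat_lit 0, [], [nat_lit 57, nat_lit 40, nat_lit 40, nat_lit 80, nat_lit 7, nat_lit 249, nat_lit 40, nat_lit 7]⟩, ⟨p113_k5, nat_lit 0, nat_lit 0, nat_lit 239, nat_lit 0, nat_lit 140622, [nat_lit 4688000000, nat_lit 9842000000, nat_lit 16400000000], [], [nat_lit 29536881581, nat_lit 29822394403, nat_lit 31252688077, nat_lit 31489818035, nat_lit 34039301977, nat_lit 34150272522, nat_lit 35395085650, nat_lit 35591932367], nat_lit 1271250, nat_lit 1271250, nat_lit 1271250, nat_lit 1271250, nat_lit 1100001, nat_lit 2846750, [nat_lit 1100000, nat_lit 2127500, nat_lit 1271250],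 [nat_lit 83, nat_lit 40, nat_lit 40, nat_lit 80, nat_lit 73, nat_lit 483, nat_lit 250, nat_lit 9]⟩,
 zbF0, [⟨nat_lit 19, nat_lit 100, nat_lit 66, nat_lit 92, nat_lit 364813201⟩]⟩
noncomputable def p113_l110 : Lf2 := ⟨nat_lit 0, nat_lit 30, [nat_lit 15, nat_lit 5, nat_lit 5, nat_lit 20], false, nat_lit 80, nat_lit 160, nat_lit 160, nat_lit 360, ⟨nat_lit 1000, nat_lit 0, nat_lit 0, nat_lit 0, nat_lit 0, nat_lit 0, nat_lit 0, nat_lit 0, nat_lit 0, nat_lit 0, nat_lit 0, nat_lit 0, nat_lit 0, nat_lit 0, nat_lit 0, nat_lit 0, false, false⟩,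
 nat_lit 0, nat_lit 0, nat_lit 12035, nat_lit 0, nat_lit 9181, nat_lit 6686, nat_lit 0, nat_lit 0, nat_lit 0, nat_lit 614, nat_lit 0, nat_lit 0, nat_lit 0, nat_lit 0, nat_lit 0, nat_lit 0, nat_lit 0, nat_lit 0, [],
 ⟨p113_k4, nat_lit 0, nat_lit 0, nat_lit 128, nat_lit 0, nat_lit 0, [nat_lit 938000000, nat_lit 4688000000, nat_lit 7968000000], [], [nat_lit 31823360891, nat_lit 32823973486, nat_lit 34517086530, nat_lit 35759555152, nat_lit 29933742846, nat_lit 30826529396, nat_lit 32114198189, nat_lit 33225493014], nat_lit 0, nat_lit 0, nat_lit 0, nat_lit 0, nat_lit 0, nat_lit 0, [], [nat_lit 57, nat_lit 40, nat_lit 40, nat_lit 80, nat_lit 7, nat_lit 249, nat_lit 40, nat_lit 7]⟩, ⟨p113_k23, nat_lit 0, nat_lit 0, nat_lit 217, nat_lit 0, nat_lit 184956, [nat_lit 4688000000, nat_lit 9842000000, nat_lit 14058000000], [], [nat_lit 29265391610, nat_lit 29579832986, nat_lit 31055671662, nat_lit 31347074282, nat_lit 34479794382,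 nat_lit 34646948834, nat_lit 35514981019, nat_lit 35652245048], nat_lit 1271250, nat_lit 1271250, nat_lit 1271250, nat_lit 1271250, nat_lit 1100001, nat_lit 2812500, [nat_lit 1100000, nat_lit 2127500, nat_lit 1271250], [nat_lit 56, nat_lit 40, nat_lit 40, nat_lit 80, nat_lit 32, nat_lit 483, nat_lit 250, nat_lit 10]⟩,
 zbF0, [⟨nat_lit 19, nat_lit 100, nat_lit 71, nat_lit 93, nat_lit 367611989⟩]⟩
noncomputable def p113_l111 : Lf2 := ⟨nat_lit 0, nat_lit 30, [nat_lit 15, nat_lit 5, nat_lit 5, nat_lit 20], false, nat_lit 80, nat_lit 160, nat_lit 0, nat_lit 352, ⟨nat_lit 1000, nat_lit 0, nat_lit 0, nat_lit 0, nat_lit 0, nat_lit 0, nat_lit 0, nat_lit 0, nat_lit 0, nat_lit 0, nat_lit 0, nat_lit 0, nat_lit 0, nat_lit 0, nat_lit 0, nat_lit 0, false, false⟩,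
 nat_lit 0, nat_lit 0, nat_lit 16560, nat_lit 0, nat_lit 6421, nat_lit 9639, nat_lit 546, nat_lit 0, nat_lit 0, nat_lit 686, nat_lit 0, nat_lit 0, nat_lit 0, nat_lit 0, nat_lit 0, nat_lit 0, nat_lit 0, nat_lit 0, [],
 ⟨p113_k9, nat_lit 0, nat_lit 0, nat_lit 144, nat_lit 0, nat_lit 0, [nat_lit 938000000, nat_lit 4688000000, nat_lit 9842000000], [], [nat_lit 24759160136, nat_lit 25156663334, nat_lit 29549534228, nat_lit 30037650979, nat_lit 23982008136, nat_lit 24345403371, nat_lit 28454197924, nat_lit 28893476837], nat_lit 0, nat_lit 0, nat_lit 0, nat_lit 0, nat_lit 0, nat_lit 0, [], [nat_lit 81, nat_lit 40, nat_lit 40, nat_lit 80, nat_lit 13, nat_lit 345, nat_lit 125, nat_lit 9]⟩, ⟨p113_k21, nat_lit 0, nat_lit 0, nat_lit 418, nat_lit 0, nat_lit 253470, [nat_lit 4688000000, nat_lit 9842000000, nat_lit 14058000000], [], [nat_lit 35383057774, nat_lit 35975774784, nat_lit 38235985194, nat_lit 38985245500, nat_lit 32950898293,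 nat_lit 31126487937, nat_lit 32711206234, nat_lit 33496229687], nat_lit 1271250, nat_lit 1271250, nat_lit 1271250, nat_lit 1271250, nat_lit 0, nat_lit 2486000, [nat_lit 1100000, nat_lit 2127500, nat_lit 1271250], [nat_lit 56, nat_lit 40, nat_lit 40, nat_lit 80, nat_lit 32, nat_lit 483, nat_lit 250, nat_lit 11]⟩,
 zbF0, [⟨nat_lit 7, nat_lit 78, nat_lit 100, nat_lit 95, nat_lit 121458590⟩]⟩
noncomputable def p113_l112 : Lf2 := ⟨nat_lit 0, nat_lit 30, [nat_lit 15, nat_lit 5, nat_lit 5, nat_lit 20], false, nat_lit 80, nat_lit 160, nat_lit 0, nat_lit 352, ⟨nat_lit 548, nat_lit 452, nat_lit 0, nat_lit 6, nat_lit 279, nat_lit 452, nat_lit 108, nat_lit 0, nat_lit 0, nat_lit 0, nat_lit 0, nat_lit 0, nat_lit 41509779, nat_lit 20834758, nat_lit 4655463, nat_lit 4482054, true, true⟩,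
 nat_lit 0, nat_lit 0, nat_lit 7000, nat_lit 0, nat_lit 6633, nat_lit 4074, nat_lit 86, nat_lit 0, nat_lit 0, nat_lit 524, nat_lit 0, nat_lit 0, nat_lit 0, nat_lit 0, nat_lit 0, nat_lit 113000, nat_lit 0, nat_lit 0, [(nat_lit 26, [(nat_lit 0, nat_lit 452)])],
 ⟨p113_k39, nat_lit 0, nat_lit 0, nat_lit 123, nat_lit 0, nat_lit 0, [nat_lit 860075200, nat_lit 2417233601, nat_lit 5502249600], [], [nat_lit 26462763723, nat_lit 26906678083, nat_lit 30334005567, nat_lit 30832347290, nat_lit 25755870602, nat_lit 26153927634, nat_lit 29098185415, nat_lit 29546402777], nat_lit 0, nat_lit 0, nat_lit 0, nat_lit 0, nat_lit 0, nat_lit 0, [], [nat_lit 54, nat_lit 40, nat_lit 40, nat_lit 80, nat_lit 43, nat_lit 249, nat_lit 40, nat_lit 7]⟩, ⟨p113_k15, nat_lit 0, nat_lit 0, nat_lit 440, nat_lit 0, nat_lit 335371, [nat_lit 2569024000, nat_lit 4366464000, nat_lit 7703784000], [], [nat_lit 17585562376, nat_lit 17940847928, nat_lit 19098111600,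 nat_lit 19368443272, nat_lit 16532534711, nat_lit 16673145429, nat_lit 17487908548, nat_lit 17662500748], nat_lit 1271250, nat_lit 1271250, nat_lit 1271250, nat_lit 1271250, nat_lit 0, nat_lit 2486000, [nat_lit 1100000, nat_lit 1785000, nat_lit 1271250], [nat_lit 37, nat_lit 40, nat_lit 40, nat_lit 80, nat_lit 28, nat_lit 483, nat_lit 250, nat_lit 11]⟩,
 ⟨nat_lit 2738, nat_lit 2959, ⟨.ofNat (nat_lit 626847), .ofNat (nat_lit 746893), .ofNat (nat_lit 649121), .ofNat (nat_lit 769170), .ofNat (nat_lit 626308), .ofNat (nat_lit 744435), .ofNat (nat_lit 648722), .ofNat (nat_lit 766852)⟩, ⟨.ofNat (nat_lit 200000), .ofNat (nat_lit 328592), .ofNat (nat_lit 200000), .ofNat (nat_lit 350869), .ofNat (nat_lit 200000), .ofNat (nat_lit 328850), .ofNat (nat_lit 200000), .ofNat (nat_lit 351268)⟩⟩, [⟨nat_lit 7, nat_lit 78, nat_lit 100, nat_lit 95, nat_lit 86140366⟩]⟩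
noncomputable def p113_l113 : Lf2 := ⟨nat_lit 0, nat_lit 30, [nat_lit 15, nat_lit 5, nat_lit 5, nat_lit 20], false, nat_lit 80, nat_lit 160, nat_lit 0, nat_lit 160, ⟨nat_lit 1000, nat_lit 0, nat_lit 0, nat_lit 0, nat_lit 0, nat_lit 0, nat_lit 0, nat_lit 0, nat_lit 0, nat_lit 0, nat_lit 0, nat_lit 0, nat_lit 0, nat_lit 0, nat_lit 0, nat_lit 0, false, false⟩,
 nat_lit 0, nat_lit 0, nat_lit 13726, nat_lit 0, nat_lit 3580, nat_lit 7989, nat_lit 629, nat_lit 0, nat_lit 0, nat_lit 1111, nat_lit 0, nat_lit 0, nat_lit 0, nat_lit 0, nat_lit 0, nat_lit 0, nat_lit 0, nat_lit 0, [],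
 ⟨p113_k12, nat_lit 0, nat_lit 0, nat_lit 127, nat_lit 0, nat_lit 0, [nat_lit 938000000, nat_lit 3282000000, nat_lit 7968000000], [], [nat_lit 22794327830, nat_lit 23425286290, nat_lit 26417312400, nat_lit 27119497360, nat_lit 23120364090, nat_lit 23696854200, nat_lit 26469684020, nat_lit 27108674520], nat_lit 0, nat_lit 0, nat_lit 0, nat_lit 0, nat_lit 0, nat_lit 0, [], [nat_lit 54, nat_lit 40, nat_lit 40, nat_lit 80, nat_lit 43, nat_lit 249, nat_lit 40, nat_lit 7]⟩, ⟨p113_k15, nat_lit 0, nat_lit 0, nat_lit 555, nat_lit 0, nat_lit 504435, [nat_lit 4688000000, nat_lit 7968000000, nat_lit 14058000000], [], [nat_lit 30264107308, nat_lit 30693648452, nat_lit 33383254294, nat_lit 34092495500, nat_lit 25313270320, nat_lit 25760719104, nat_lit 27550103628, nat_lit 27967512900], nat_lit 1271250, nat_lit 1271250, nat_lit 1271250, nat_lit 1271250, nat_lit 0, nat_lit 1100001, [nat_lit 1100000, nat_lit 1785000, nat_lit 1271250],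 [nat_lit 37, nat_lit 40, nat_lit 40, nat_lit 80, nat_lit 28, nat_lit 428, nat_lit 200, nat_lit 10]⟩,
 zbF0, []⟩
noncomputable def p113_l114 : Lf2 := ⟨nat_lit 0, nat_lit 25, [nat_lit 44, nat_lit 5, nat_lit 5, nat_lit 20], false, nat_lit 80, nat_lit 160, nat_lit 160, nat_lit 352, ⟨nat_lit 327, nat_lit 673, nat_lit 0, nat_lit 6, nat_lit 278, nat_lit 673, nat_lit 108, nat_lit 0, nat_lit 0, nat_lit 0, nat_lit 0, nat_lit 0, nat_lit 41558359, nat_lit 20778995, nat_lit 4662646, nat_lit 4480449, true, true⟩,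
 nat_lit 0, nat_lit 0, nat_lit 4179, nat_lit 0, nat_lit 2890, nat_lit 2432, nat_lit 365, nat_lit 0, nat_lit 0, nat_lit 308, nat_lit 0, nat_lit 0, nat_lit 0, nat_lit 0, nat_lit 0, nat_lit 168250, nat_lit 0, nat_lit 0, [(nat_lit 26, [(nat_lit 0, nat_lit 673)])],
 ⟨p113_k18, nat_lit 0, nat_lit 0, nat_lit 125, nat_lit 0, nat_lit 0, [nat_lit 821974800, nat_lit 1994416401, nat_lit 4296650400], [], [nat_lit 22686404540, nat_lit 22972856505, nat_lit 25496380890, nat_lit 25741597710, nat_lit 23262098540, nat_lit 23518152585, nat_lit 25838314980, nat_lit 26064726535], nat_lit 0, nat_lit 0, nat_lit 0, nat_lit 0, nat_lit 0, nat_lit 0, [], [nat_lit 54, nat_lit 40, nat_lit 40, nat_lit 80, nat_lit 43, nat_lit 249, nat_lit 40, nat_lit 7]⟩, ⟨p113_k17, nat_lit 0, nat_lit 0, nat_lit 362, nat_lit 0, nat_lit 401836, [nat_lit 1532976000, nat_lit 2605536000, nat_lit 4596966000], [], [nat_lit 8745036390, nat_lit 8920599448, nat_lit 9496379490,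 nat_lit 9624790340, nat_lit 9923807174, nat_lit 10005587901, nat_lit 10457618311, nat_lit 10553087279], nat_lit 1271250, nat_lit 1271250, nat_lit 1271250, nat_lit 1271250, nat_lit 1100001, nat_lit 2744000, [nat_lit 1100000, nat_lit 1785000, nat_lit 1271250], [nat_lit 37, nat_lit 40, nat_lit 40, nat_lit 80, nat_lit 28, nat_lit 483, nat_lit 250, nat_lit 10]⟩,
 ⟨nat_lit 2500, nat_lit 2739, ⟨.ofNat (nat_lit 626307), .ofNat (nat_lit 744435), .ofNat (nat_lit 648720), .ofNat (nat_lit 766852), .ofNat (nat_lit 625800), .ofNat (nat_lit 741934), .ofNat (nat_lit 648376), .ofNat (nat_lit 764515)⟩, ⟨.ofNat (nat_lit 200000), .ofNat (nat_lit 328850), .ofNat (nat_lit 200000), .ofNat (nat_lit 351268), .ofNat (nat_lit 200000), .ofNat (nat_lit 329031), .ofNat (nat_lit 200000), .ofNat (nat_lit 351611)⟩⟩, [⟨nat_lit 19, nat_lit 100, nat_lit 78, nat_lit 95, nat_lit 105235761⟩]⟩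
noncomputable def p113_l115 : Lf2 := ⟨nat_lit 0, nat_lit 25, [nat_lit 44, nat_lit 5, nat_lit 5, nat_lit 20], false, nat_lit 80, nat_lit 160, nat_lit 160, nat_lit 352, ⟨nat_lit 300, nat_lit 700, nat_lit 0, nat_lit 6, nat_lit 276, nat_lit 700, nat_lit 108, nat_lit 0, nat_lit 0, nat_lit 0, nat_lit 0, nat_lit 0, nat_lit 41812082, nat_lit 20505312, nat_lit 4682606, nat_lit 4469327, true, true⟩,
 nat_lit 0, nat_lit 0, nat_lit 3675, nat_lit 0, nat_lit 2804, nat_lit 2139, nat_lit 294, nat_lit 0, nat_lit 0, nat_lit 266, nat_lit 0, nat_lit 0, nat_lit 0, nat_lit 0, nat_lit 0, nat_lit 175000, nat_lit 0, nat_lit 0, [(nat_lit 26, [(nat_lit 0, nat_lit 700)])],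
 ⟨p113_k36, nat_lit 0, nat_lit 0, nat_lit 108, nat_lit 0, nat_lit 0, [nat_lit 817320000, nat_lit 1942760000, nat_lit 3338000000], [], [nat_lit 22656682762, nat_lit 22958988554, nat_lit 25608780744, nat_lit 25922445968, nat_lit 23359301282, nat_lit 23628943242, nat_lit 26026598924, nat_lit 26261209576], nat_lit 0, nat_lit 0, nat_lit 0, nat_lit 0, nat_lit 0, nat_lit 0, [], [nat_lit 20, nat_lit 40, nat_lit 40, nat_lit 80, nat_lit 16, nat_lit 249, nat_lit 40, nat_lit 8]⟩, ⟨p113_k17, nat_lit 0, nat_lit 0, nat_lit 370, nat_lit 0, nat_lit 421941, [nat_lit 1406400000, nat_lit 2390400000, nat_lit 4217400000], [], [nat_lit 8408411688, nat_lit 8477108082, nat_lit 9080346762, nat_lit 9139457241, nat_lit 9484046494, nat_lit 9522468207, nat_lit 9838400686, nat_lit 9863263848], nat_lit 1271250, nat_lit 1271250, nat_lit 1271250, nat_lit 1271250, nat_lit 1100001, nat_lit 2744000, [nat_lit 1100000, nat_lit 1785000, nat_lit 1271250],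 [nat_lit 37, nat_lit 40, nat_lit 40, nat_lit 80, nat_lit 28, nat_lit 483, nat_lit 250, nat_lit 10]⟩,
 ⟨nat_lit 2236, nat_lit 2500, ⟨.ofNat (nat_lit 625799), .ofNat (nat_lit 741934), .ofNat (nat_lit 637086), .ofNat (nat_lit 753224), .ofNat (nat_lit 625331), .ofNat (nat_lit 739368), .ofNat (nat_lit 636714), .ofNat (nat_lit 750755)⟩, ⟨.ofNat (nat_lit 200000), .ofNat (nat_lit 329031), .ofNat (nat_lit 200000), .ofNat (nat_lit 351611), .ofNat (nat_lit 200000), .ofNat (nat_lit 329112), .ofNat (nat_lit 200000), .ofNat (nat_lit 351886)⟩⟩, [⟨nat_lit 7, nat_lit 76, nat_lit 100, nat_lit 94, nat_lit 94226049⟩]⟩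
noncomputable def p113_l116 : Lf2 := ⟨nat_lit 0, nat_lit 25, [nat_lit 44, nat_lit 5, nat_lit 5, nat_lit 20], false, nat_lit 80, nat_lit 160, nat_lit 160, nat_lit 344, ⟨nat_lit 529, nat_lit 471, nat_lit 0, nat_lit 6, nat_lit 280, nat_lit 471, nat_lit 108, nat_lit 0, nat_lit 0, nat_lit 0, nat_lit 0, nat_lit 0, nat_lit 41403493, nat_lit 20941484, nat_lit 4655023, nat_lit 4487679, true, true⟩,
 nat_lit 0, nat_lit 0, nat_lit 5985, nat_lit 0, nat_lit 5724, nat_lit 3644, nat_lit 0, nat_lit 0, nat_lit 0, nat_lit 514, nat_lit 0, nat_lit 0, nat_lit 0, nat_lit 0, nat_lit 0, nat_lit 117750, nat_lit 0, nat_lit 0, [(nat_lit 26, [(nat_lit 0, nat_lit 471)])],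
 ⟨p113_k36, nat_lit 0, nat_lit 0, nat_lit 108, nat_lit 0, nat_lit 0, [nat_lit 856799600, nat_lit 2380882801, nat_lit 4290640000], [], [nat_lit 26154923272, nat_lit 26593660224, nat_lit 29972314864, nat_lit 30426814608, nat_lit 25811735004, nat_lit 26205724768, nat_lit 29122584872, nat_lit 29450383616], nat_lit 0, nat_lit 0, nat_lit 0, nat_lit 0, nat_lit 0, nat_lit 0, [], [nat_lit 20, nat_lit 40, nat_lit 40, nat_lit 80, nat_lit 16, nat_lit 249, nat_lit 40, nat_lit 8]⟩, ⟨p113_k41, nat_lit 0, nat_lit 0, nat_lit 381, nat_lit 0, nat_lit 453617, [nat_lit 2479952000, nat_lit 4215072000, nat_lit 7436682000], [], [nat_lit 13953106297, nat_lit 14067924904, nat_lit 14992040025, nat_lit 15096557580, nat_lit 15542077279, nat_lit 15617269542, nat_lit 16456850651, nat_lit 16546604074], nat_lit 1271250, nat_lit 1271250, nat_lit 1271250, nat_lit 1271250, nat_lit 1100001, nat_lit 2675500, [nat_lit 1100000, nat_lit 1785000, nat_lit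 1271250], [nat_lit 37, nat_lit 40, nat_lit 40, nat_lit 80, nat_lit 28, nat_lit 483, nat_lit 250, nat_lit 10]⟩,
 ⟨nat_lit 2236, nat_lit 2500, ⟨.ofNat (nat_lit 637086), .ofNat (nat_lit 753224), .ofNat (nat_lit 648374), .ofNat (nat_lit 764515), .ofNat (nat_lit 636714), .ofNat (nat_lit 750755), .ofNat (nat_lit 648099), .ofNat (nat_lit 762142)⟩, ⟨.ofNat (nat_lit 200000), .ofNat (nat_lit 329031), .ofNat (nat_lit 200000), .ofNat (nat_lit 351611), .ofNat (nat_lit 200000), .ofNat (nat_lit 329112), .ofNat (nat_lit 200000), .ofNat (nat_lit 351886)⟩⟩, [⟨nat_lit 7, nat_lit 81, nat_lit 100, nat_lit 96, nat_lit 167935788⟩]⟩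
noncomputable def p113_l117 : Lf2 := ⟨nat_lit 0, nat_lit 30, [nat_lit 15, nat_lit 5, nat_lit 5, nat_lit 20], false, nat_lit 80, nat_lit 160, nat_lit 160, nat_lit 352, ⟨nat_lit 1000, nat_lit 0, nat_lit 0, nat_lit 0, nat_lit 0, nat_lit 0, nat_lit 0, nat_lit 0, nat_lit 0, nat_lit 0, nat_lit 0, nat_lit 0, nat_lit 0, nat_lit 0, nat_lit 0, nat_lit 0, false, false⟩,
 nat_lit 0, nat_lit 0, nat_lit 10382, nat_lit 0, nat_lit 9451, nat_lit 6043, nat_lit 41, nat_lit 0, nat_lit 0, nat_lit 634, nat_lit 0, nat_lit 0, nat_lit 0, nat_lit 0, nat_lit 0, nat_lit 0, nat_lit 0, nat_lit 0, [],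
 ⟨p113_k4, nat_lit 0, nat_lit 0, nat_lit 128, nat_lit 0, nat_lit 0, [nat_lit 938000000, nat_lit 4688000000, nat_lit 7968000000], [], [nat_lit 29370898151, nat_lit 30495824938, nat_lit 34907541630, nat_lit 36176054992, nat_lit 27622398948, nat_lit 28624249556, nat_lit 32386295819, nat_lit 33520358394], nat_lit 0, nat_lit 0, nat_lit 0, nat_lit 0, nat_lit 0, nat_lit 0, [], [nat_lit 57, nat_lit 40, nat_lit 40, nat_lit 80, nat_lit 7, nat_lit 249, nat_lit 40, nat_lit 7]⟩, ⟨p113_k21, nat_lit 0, nat_lit 0, nat_lit 264, nat_lit 0, nat_lit 292010, [nat_lit 4688000000, nat_lit 9842000000, nat_lit 14058000000], [], [nat_lit 28578146740, nat_lit 29204973184, nat_lit 31203459892, nat_lit 31689007760, nat_lit 33086036186, nat_lit 33432449370, nat_lit 34986585832, nat_lit 35348797874], nat_lit 1271250, nat_lit 1271250, nat_lit 1271250, nat_lit 1271250, nat_lit 1100001, nat_lit 2744000, [nat_lit 1100000, nat_lit 2127500, nat_lit 1271250],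 [nat_lit 56, nat_lit 40, nat_lit 40, nat_lit 80, nat_lit 32, nat_lit 483, nat_lit 250, nat_lit 10]⟩,
 zbF0, [⟨nat_lit 19, nat_lit 100, nat_lit 78, nat_lit 95, nat_lit 344875629⟩]⟩
noncomputable def b_V_900_600_20_34 : St := ⟨true, nat_lit 0, nat_lit 1, nat_lit 1, nat_lit 120, nat_lit 360, nat_lit 380, nat_lit 240, nat_lit 280, nat_lit 240, nat_lit 320, nat_lit 100, nat_lit 120, nat_lit 80, nat_lit 160, nat_lit 0, nat_lit 364, nat_lit 80, nat_lit 120, nat_lit 0, nat_lit 0, nat_lit 0, nat_lit 0⟩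
theorem d_V_900_600_20_34 (h : EB TB.env) : Dead b_V_900_600_20_34 := chkB_sound0 h (T :=
(.spl (nat_lit 1) (nat_lit 260)
(.spl (nat_lit 0) (nat_lit 370)
(.spl (nat_lit 6) (nat_lit 104)
(.leaf p113_l101)
(.leaf p113_l102))
(.spl (nat_lit 2) (nat_lit 280)
(.spl (nat_lit 1) (nat_lit 250)
(.leaf p113_l103)
(.trX (nat_lit 19) (nat_lit 100) (nat_lit 64) (nat_lit 95) (nat_lit 360) (.spl (nat_lit 1) (nat_lit 255)
(.leaf p113_l104)
(.trX (nat_lit 19) (nat_lit 100) (nat_lit 66) (nat_lit 95) (nat_lit 356) (.leaf p113_l105)))))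
(.spl (nat_lit 5) (nat_lit 160)
(.leaf p113_l106)
(.spl (nat_lit 6) (nat_lit 100)
(.spl (nat_lit 0) (nat_lit 375)
(.leaf p113_l107)
(.leaf p113_l108))
(.spl (nat_lit 1) (nat_lit 250)
(.leaf p113_l109)
(.trX (nat_lit 19) (nat_lit 100) (nat_lit 64) (nat_lit 95) (nat_lit 360) (.leaf p113_l110)))))))
(.trX (nat_lit 19) (nat_lit 100) (nat_lit 69) (nat_lit 96) (nat_lit 352) (.spl (nat_lit 0) (nat_lit 370)
(.spl (nat_lit 0) (nat_lit 365)
(.leaf p113_l111)
(.leaf p113_l112))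
(.spl (nat_lit 5) (nat_lit 160)
(.leaf p113_l113)
(.spl (nat_lit 6) (nat_lit 100)
(.spl (nat_lit 0) (nat_lit 375)
(.leaf p113_l114)
(.spl (nat_lit 1) (nat_lit 270)
(.leaf p113_l115)
(.trX (nat_lit 19) (nat_lit 100) (nat_lit 74) (nat_lit 98) (nat_lit 344) (.leaf p113_l116))))
(.leaf p113_l117))))))) (by decide +kernel)
noncomputable def p113_l118 : Lf2 := ⟨nat_lit 0, nat_lit 25, [nat_lit 44, nat_lit 5, nat_lit 5, nat_lit 20], false, nat_lit 80, nat_lit 160, nat_lit 0, nat_lit 160, ⟨nat_lit 192, nat_lit 808, nat_lit 0, nat_lit 8, nat_lit 303, nat_lit 808, nat_lit 102, nat_lit 0, nat_lit 0, nat_lit 0, nat_lit 0, nat_lit 0, nat_lit 39628285, nat_lit 23206709, nat_lit 4165006, nat_lit 4497185, true, true⟩,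
 nat_lit 0, nat_lit 0, nat_lit 3071, nat_lit 0, nat_lit 3371, nat_lit 1625, nat_lit 128, nat_lit 0, nat_lit 0, nat_lit 174, nat_lit 0, nat_lit 0, nat_lit 0, nat_lit 0, nat_lit 0, nat_lit 323200, nat_lit 0, nat_lit 0, [(nat_lit 26, [(nat_lit 1, nat_lit 808)])],
 ⟨p113_k16, nat_lit 0, nat_lit 0, nat_lit 136, nat_lit 0, nat_lit 0, [nat_lit 867865601, nat_lit 1464161601, nat_lit 2173347200], [], [nat_lit 26157841540, nat_lit 27200927132, nat_lit 27924510108, nat_lit 28957521914, nat_lit 26352827812, nat_lit 27306626162, nat_lit 27969945336, nat_lit 28859726718], nat_lit 0, nat_lit 0, nat_lit 0, nat_lit 0, nat_lit 0, nat_lit 0, [], [nat_lit 54, nat_lit 40, nat_lit 40, nat_lit 80, nat_lit 43, nat_lit 249, nat_lit 40, nat_lit 7]⟩, ⟨p113_k35, nat_lit 0, nat_lit 0, nat_lit 580, nat_lit 0, nat_lit 596793, [nat_lit 900096000, nat_lit 1529856000, nat_lit 2699136000], [], [nat_lit 7313125948, nat_lit 7340995728, nat_lit 7590308200,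 nat_lit 7614524309, nat_lit 6062949412, nat_lit 6083838195, nat_lit 6320817880, nat_lit 6353015865], nat_lit 1271250, nat_lit 1271250, nat_lit 1271250, nat_lit 1271250, nat_lit 0, nat_lit 1100001, [nat_lit 1100000, nat_lit 1785000, nat_lit 1271250], [nat_lit 37, nat_lit 40, nat_lit 40, nat_lit 80, nat_lit 28, nat_lit 428, nat_lit 200, nat_lit 9]⟩,
 ⟨nat_lit 2236, nat_lit 3163, ⟨.ofNat (nat_lit 727168), .ofNat (nat_lit 788122), .ofNat (nat_lit 738246), .ofNat (nat_lit 799199), .ofNat (nat_lit 716594), .ofNat (nat_lit 773609), .ofNat (nat_lit 727981), .ofNat (nat_lit 784996)⟩, ⟨.ofNat (nat_lit 184209), .ofNat (nat_lit 306116), .ofNat (nat_lit 200000), .ofNat (nat_lit 328271), .ofNat (nat_lit 192306), .ofNat (nat_lit 306337), .ofNat (nat_lit 200000), .ofNat (nat_lit 329112)⟩⟩, [⟨nat_lit 13, nat_lit 54, nat_lit 73, nat_lit 100, nat_lit 251291015⟩, ⟨nat_lit 9, nat_lit 100, nat_lit 73, nat_lit 55, nat_lit 15249473⟩]⟩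
noncomputable def p113_l119 : Lf2 := ⟨nat_lit 0, nat_lit 25, [nat_lit 44, nat_lit 5, nat_lit 5, nat_lit 20], false, nat_lit 80, nat_lit 160, nat_lit 0, nat_lit 160, ⟨nat_lit 269, nat_lit 731, nat_lit 0, nat_lit 8, nat_lit 308, nat_lit 731, nat_lit 102, nat_lit 0, nat_lit 0, nat_lit 0, nat_lit 0, nat_lit 0, nat_lit 39128828, nat_lit 23740592, nat_lit 4130580, nat_lit 4511623, true, true⟩,
 nat_lit 0, nat_lit 0, nat_lit 3458, nat_lit 0, nat_lit 3379, nat_lit 1921, nat_lit 128, nat_lit 0, nat_lit 0, nat_lit 253, nat_lit 0, nat_lit 0, nat_lit 0, nat_lit 0, nat_lit 0, nat_lit 336200, nat_lit 0, nat_lit 0, [(nat_lit 26, [(nat_lit 1, nat_lit 658), (nat_lit 2, nat_lit 73)])],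
 ⟨p113_k16, nat_lit 0, nat_lit 0, nat_lit 137, nat_lit 0, nat_lit 0, [nat_lit 919371201, nat_lit 1557373601, nat_lit 2225014000], [], [nat_lit 26230071281, nat_lit 27253425068, nat_lit 28167706240, nat_lit 29204451768, nat_lit 26504126026, nat_lit 27356896592, nat_lit 28194048097, nat_lit 29083494986], nat_lit 0, nat_lit 0, nat_lit 0, nat_lit 0, nat_lit 0, nat_lit 0, [], [nat_lit 54, nat_lit 40, nat_lit 40, nat_lit 80, nat_lit 43, nat_lit 249, nat_lit 40, nat_lit 7]⟩, ⟨p113_k37, nat_lit 0, nat_lit 0, nat_lit 583, nat_lit 0, nat_lit 611656, [nat_lit 1261072000, nat_lit 2143392000, nat_lit 3781602000], [], [nat_lit 10276320609, nat_lit 10317807384, nat_lit 10674381353, nat_lit 10706693290, nat_lit 9019204671, nat_lit 9063618238, nat_lit 9402055208, nat_lit 9437635951], nat_lit 1271250, nat_lit 1271250, nat_lit 1271250, nat_lit 1271250, nat_lit 0, nat_lit 1100001, [nat_lit 1100000, nat_lit 1785000, nat_lit 1271250],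 [nat_lit 37, nat_lit 40, nat_lit 40, nat_lit 80, nat_lit 28, nat_lit 428, nat_lit 200, nat_lit 9]⟩,
 ⟨nat_lit 2236, nat_lit 3163, ⟨.ofNat (nat_lit 738246), .ofNat (nat_lit 805295), .ofNat (nat_lit 749323), .ofNat (nat_lit 816372), .ofNat (nat_lit 727981), .ofNat (nat_lit 790698), .ofNat (nat_lit 739368), .ofNat (nat_lit 802085)⟩, ⟨.ofNat (nat_lit 184209), .ofNat (nat_lit 306116), .ofNat (nat_lit 200000), .ofNat (nat_lit 328271), .ofNat (nat_lit 192306), .ofNat (nat_lit 306337), .ofNat (nat_lit 200000), .ofNat (nat_lit 329112)⟩⟩, [⟨nat_lit 13, nat_lit 45, nat_lit 79, nat_lit 100, nat_lit 278577846⟩]⟩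
noncomputable def p113_l120 : Lf2 := ⟨nat_lit 0, nat_lit 25, [nat_lit 44, nat_lit 5, nat_lit 5, nat_lit 20], false, nat_lit 80, nat_lit 160, nat_lit 160, nat_lit 336, ⟨nat_lit 261, nat_lit 739, nat_lit 0, nat_lit 8, nat_lit 304, nat_lit 739, nat_lit 102, nat_lit 0, nat_lit 0, nat_lit 0, nat_lit 0, nat_lit 0, nat_lit 39524545, nat_lit 23330430, nat_lit 4145025, nat_lit 4498218, true, true⟩,
 nat_lit 0, nat_lit 0, nat_lit 4140, nat_lit 0, nat_lit 3487, nat_lit 2191, nat_lit 167, nat_lit 0, nat_lit 0, nat_lit 232, nat_lit 0, nat_lit 0, nat_lit 0, nat_lit 0, nat_lit 0, nat_lit 295600, nat_lit 0, nat_lit 0, [(nat_lit 26, [(nat_lit 1, nat_lit 739)])],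
 ⟨p113_k16, nat_lit 0, nat_lit 0, nat_lit 133, nat_lit 0, nat_lit 0, [nat_lit 873854800, nat_lit 1619397801, nat_lit 2668187600], [], [nat_lit 26203544205, nat_lit 26732589417, nat_lit 27991743301, nat_lit 28542790571, nat_lit 26396214038, nat_lit 26836750228, nat_lit 27988698417, nat_lit 28442104309], nat_lit 0, nat_lit 0, nat_lit 0, nat_lit 0, nat_lit 0, nat_lit 0, [], [nat_lit 54, nat_lit 40, nat_lit 40, nat_lit 80, nat_lit 43, nat_lit 249, nat_lit 40, nat_lit 7]⟩, ⟨p113_k35, nat_lit 0, nat_lit 0, nat_lit 294, nat_lit 0, nat_lit 378001, [nat_lit 1223568000, nat_lit 2079648000, nat_lit 3669138000], [], [nat_lit 7914194460, nat_lit 7964881550, nat_lit 8360210644, nat_lit 8399828808, nat_lit 8451759536, nat_lit 8472597613, nat_lit 8836589784, nat_lit 8864218905], nat_lit 1271250, nat_lit 1271250, nat_lit 1271250, nat_lit 1271250, nat_lit 1100001, nat_lit 2607000, [nat_lit 1100000, nat_lit 1785000, nat_lit 1271250],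 [nat_lit 37, nat_lit 40, nat_lit 40, nat_lit 80, nat_lit 28, nat_lit 483, nat_lit 250, nat_lit 10]⟩,
 ⟨nat_lit 2738, nat_lit 3163, ⟨.ofNat (nat_lit 727168), .ofNat (nat_lit 788122), .ofNat (nat_lit 738246), .ofNat (nat_lit 799199), .ofNat (nat_lit 722017), .ofNat (nat_lit 781079), .ofNat (nat_lit 733226), .ofNat (nat_lit 792287)⟩, ⟨.ofNat (nat_lit 184209), .ofNat (nat_lit 306116), .ofNat (nat_lit 200000), .ofNat (nat_lit 328271), .ofNat (nat_lit 188310), .ofNat (nat_lit 306433), .ofNat (nat_lit 200000), .ofNat (nat_lit 328850)⟩⟩, [⟨nat_lit 13, nat_lit 54, nat_lit 74, nat_lit 100, nat_lit 101947021⟩, ⟨nat_lit 10, nat_lit 73, nat_lit 71, nat_lit 100, nat_lit 102561660⟩]⟩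
noncomputable def p113_l121 : Lf2 := ⟨nat_lit 0, nat_lit 25, [nat_lit 44, nat_lit 5, nat_lit 5, nat_lit 20], false, nat_lit 80, nat_lit 160, nat_lit 160, nat_lit 336, ⟨nat_lit 299, nat_lit 701, nat_lit 0, nat_lit 8, nat_lit 310, nat_lit 701, nat_lit 102, nat_lit 0, nat_lit 0, nat_lit 0, nat_lit 0, nat_lit 0, nat_lit 39027134, nat_lit 23862167, nat_lit 4110699, nat_lit 4512253, true, true⟩,
 nat_lit 0, nat_lit 0, nat_lit 4038, nat_lit 0, nat_lit 3455, nat_lit 2243, nat_lit 129, nat_lit 0, nat_lit 0, nat_lit 254, nat_lit 0, nat_lit 0, nat_lit 0, nat_lit 0, nat_lit 0, nat_lit 343400, nat_lit 0, nat_lit 0, [(nat_lit 26, [(nat_lit 1, nat_lit 596), (nat_lit 2, nat_lit 105)])],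
 ⟨p113_k16, nat_lit 0, nat_lit 0, nat_lit 134, nat_lit 0, nat_lit 0, [nat_lit 941623201, nat_lit 1589789201, nat_lit 2220744400], [], [nat_lit 26191659475, nat_lit 26718635055, nat_lit 28165833518, nat_lit 28729385479, nat_lit 26407047657, nat_lit 26837051906, nat_lit 28160182353, nat_lit 28623501158], nat_lit 0, nat_lit 0, nat_lit 0, nat_lit 0, nat_lit 0, nat_lit 0, [], [nat_lit 54, nat_lit 40, nat_lit 40, nat_lit 80, nat_lit 43, nat_lit 249, nat_lit 40, nat_lit 7]⟩, ⟨p113_k37, nat_lit 0, nat_lit 0, nat_lit 368, nat_lit 0, nat_lit 412765, [nat_lit 1401712000, nat_lit 2382432000, nat_lit 4203342000], [], [nat_lit 9321802528, nat_lit 9380467152, nat_lit 9851215879, nat_lit 9897148257, nat_lit 9951923454, nat_lit 9978017572, nat_lit 10293832622, nat_lit 10311453918], nat_lit 1271250, nat_lit 1271250, nat_lit 1271250, nat_lit 1271250, nat_lit 1100001, nat_lit 2607000, [nat_lit 1100000, nat_lit 1785000, nat_lit 1271250],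 [nat_lit 37, nat_lit 40, nat_lit 40, nat_lit 80, nat_lit 28, nat_lit 483, nat_lit 250, nat_lit 10]⟩,
 ⟨nat_lit 2738, nat_lit 3163, ⟨.ofNat (nat_lit 738246), .ofNat (nat_lit 805295), .ofNat (nat_lit 749323), .ofNat (nat_lit 816372), .ofNat (nat_lit 733226), .ofNat (nat_lit 798193), .ofNat (nat_lit 744435), .ofNat (nat_lit 809402)⟩, ⟨.ofNat (nat_lit 184209), .ofNat (nat_lit 306116), .ofNat (nat_lit 200000), .ofNat (nat_lit 328271), .ofNat (nat_lit 188310), .ofNat (nat_lit 306433), .ofNat (nat_lit 200000), .ofNat (nat_lit 328850)⟩⟩, [⟨nat_lit 22, nat_lit 76, nat_lit 100, nat_lit 98, nat_lit 107277062⟩]⟩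
noncomputable def p113_l122 : Lf2 := ⟨nat_lit 1, nat_lit 25, [nat_lit 44, nat_lit 5, nat_lit 5, nat_lit 20], false, nat_lit 80, nat_lit 160, nat_lit 160, nat_lit 336, zbN0,
 nat_lit 0, nat_lit 0, nat_lit 0, nat_lit 0, nat_lit 0, nat_lit 0, nat_lit 0, nat_lit 0, nat_lit 0, nat_lit 0, nat_lit 0, nat_lit 0, nat_lit 0, nat_lit 0, nat_lit 0, nat_lit 0, nat_lit 0, nat_lit 0, [],
 C1.Rw.none, C1.Rw.none,
 zbF0, []⟩
noncomputable def p113_l123 : Lf2 := ⟨nat_lit 0, nat_lit 25, [nat_lit 44, nat_lit 5, nat_lit 5, nat_lit 20], false, nat_lit 80, nat_lit 160, nat_lit 160, nat_lit 336, ⟨nat_lit 215, nat_lit 785, nat_lit 0, nat_lit 8, nat_lit 299, nat_lit 785, nat_lit 102, nat_lit 0, nat_lit 0, nat_lit 0, nat_lit 0, nat_lit 0, nat_lit 39982985, nat_lit 22818501, nat_lit 4198514, nat_lit 4487477, true, true⟩,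
 nat_lit 0, nat_lit 0, nat_lit 3410, nat_lit 0, nat_lit 2776, nat_lit 1805, nat_lit 308, nat_lit 0, nat_lit 0, nat_lit 191, nat_lit 0, nat_lit 0, nat_lit 0, nat_lit 0, nat_lit 0, nat_lit 196250, nat_lit 0, nat_lit 0, [(nat_lit 26, [(nat_lit 0, nat_lit 785)])],
 ⟨p113_k18, nat_lit 0, nat_lit 0, nat_lit 132, nat_lit 0, nat_lit 0, [nat_lit 802666001, nat_lit 1780138000, nat_lit 3685668000], [], [nat_lit 25622996616, nat_lit 25864526904, nat_lit 26754015014, nat_lit 26992614468, nat_lit 26014565193, nat_lit 26232299569, nat_lit 27051724878, nat_lit 27260984611], nat_lit 0, nat_lit 0, nat_lit 0, nat_lit 0, nat_lit 0, nat_lit 0, [], [nat_lit 54, nat_lit 40, nat_lit 40, nat_lit 80, nat_lit 43, nat_lit 249, nat_lit 40, nat_lit 7]⟩, ⟨p113_k35, nat_lit 0, nat_lit 0, nat_lit 393, nat_lit 0, nat_lit 483268, [nat_lit 1007920000, nat_lit 1713120000, nat_lit 3022470000], [], [nat_lit 6616360200, nat_lit 6636202610, nat_lit 6794280853,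 nat_lit 6812774980, nat_lit 6963004348, nat_lit 6980380911, nat_lit 7180929740, nat_lit 7206015345], nat_lit 1271250, nat_lit 1271250, nat_lit 1271250, nat_lit 1271250, nat_lit 1100001, nat_lit 2607000, [nat_lit 1100000, nat_lit 1785000, nat_lit 1271250], [nat_lit 37, nat_lit 40, nat_lit 40, nat_lit 80, nat_lit 28, nat_lit 483, nat_lit 250, nat_lit 10]⟩,
 ⟨nat_lit 2500, nat_lit 2739, ⟨.ofNat (nat_lit 722017), .ofNat (nat_lit 763360), .ofNat (nat_lit 733226), .ofNat (nat_lit 774569), .ofNat (nat_lit 719353), .ofNat (nat_lit 759999), .ofNat (nat_lit 730644), .ofNat (nat_lit 771289)⟩, ⟨.ofNat (nat_lit 188310), .ofNat (nat_lit 306433), .ofNat (nat_lit 200000), .ofNat (nat_lit 328850), .ofNat (nat_lit 190321), .ofNat (nat_lit 306450), .ofNat (nat_lit 200000), .ofNat (nat_lit 329031)⟩⟩, [⟨nat_lit 13, nat_lit 52, nat_lit 75, nat_lit 100, nat_lit 133697761⟩, ⟨nat_lit 10, nat_lit 74, nat_lit 75, nat_lit 100, nat_lit 78584698⟩]⟩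
noncomputable def p113_l124 : Lf2 := ⟨nat_lit 1, nat_lit 25, [nat_lit 44, nat_lit 5, nat_lit 5, nat_lit 20], false, nat_lit 80, nat_lit 160, nat_lit 160, nat_lit 336, zbN0,
 nat_lit 0, nat_lit 0, nat_lit 0, nat_lit 0, nat_lit 0, nat_lit 0, nat_lit 0, nat_lit 0, nat_lit 0, nat_lit 0, nat_lit 0, nat_lit 0, nat_lit 0, nat_lit 0, nat_lit 0, nat_lit 0, nat_lit 0, nat_lit 0, [],
 C1.Rw.none, C1.Rw.none,
 zbF0, []⟩
noncomputable def p113_l125 : Lf2 := ⟨nat_lit 0, nat_lit 25, [nat_lit 44, nat_lit 5, nat_lit 5, nat_lit 20], false, nat_lit 80, nat_lit 160, nat_lit 160, nat_lit 336, ⟨nat_lit 253, nat_lit 747, nat_lit 0, nat_lit 8, nat_lit 303, nat_lit 747, nat_lit 102, nat_lit 0, nat_lit 0, nat_lit 0, nat_lit 0, nat_lit 0, nat_lit 39580175, nat_lit 23248657, nat_lit 4171168, nat_lit 4500176, true, true⟩,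
 nat_lit 0, nat_lit 0, nat_lit 3463, nat_lit 0, nat_lit 3079, nat_lit 1923, nat_lit 287, nat_lit 0, nat_lit 0, nat_lit 219, nat_lit 0, nat_lit 0, nat_lit 0, nat_lit 0, nat_lit 0, nat_lit 186750, nat_lit 0, nat_lit 0, [(nat_lit 26, [(nat_lit 0, nat_lit 747)])],
 ⟨p113_k18, nat_lit 0, nat_lit 0, nat_lit 133, nat_lit 0, nat_lit 0, [nat_lit 809217200, nat_lit 1852839600, nat_lit 3892965600], [], [nat_lit 26115570414, nat_lit 26366899116, nat_lit 27450762972, nat_lit 27713327401, nat_lit 26408665007, nat_lit 26614811099, nat_lit 27608387879, nat_lit 27823274339], nat_lit 0, nat_lit 0, nat_lit 0, nat_lit 0, nat_lit 0, nat_lit 0, [], [nat_lit 54, nat_lit 40, nat_lit 40, nat_lit 80, nat_lit 43, nat_lit 249, nat_lit 40, nat_lit 7]⟩, ⟨p113_k37, nat_lit 0, nat_lit 0, nat_lit 390, nat_lit 0, nat_lit 477930, [nat_lit 1186064000, nat_lit 2015904000, nat_lit 3556674000], [], [nat_lit 7799151060, nat_lit 7823942635, nat_lit 8122622288,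 nat_lit 8143462312, nat_lit 8327640249, nat_lit 8338507576, nat_lit 8534803629, nat_lit 8542853028], nat_lit 1271250, nat_lit 1271250, nat_lit 1271250, nat_lit 1271250, nat_lit 1100001, nat_lit 2607000, [nat_lit 1100000, nat_lit 1785000, nat_lit 1271250], [nat_lit 37, nat_lit 40, nat_lit 40, nat_lit 80, nat_lit 28, nat_lit 483, nat_lit 250, nat_lit 10]⟩,
 ⟨nat_lit 2500, nat_lit 2739, ⟨.ofNat (nat_lit 733226), .ofNat (nat_lit 780475), .ofNat (nat_lit 738830), .ofNat (nat_lit 786079), .ofNat (nat_lit 730644), .ofNat (nat_lit 777095), .ofNat (nat_lit 736289), .ofNat (nat_lit 782740)⟩, ⟨.ofNat (nat_lit 188310), .ofNat (nat_lit 306433), .ofNat (nat_lit 200000), .ofNat (nat_lit 328850), .ofNat (nat_lit 190321), .ofNat (nat_lit 306450), .ofNat (nat_lit 200000), .ofNat (nat_lit 329031)⟩⟩, [⟨nat_lit 13, nat_lit 50, nat_lit 75, nat_lit 100, nat_lit 80506573⟩, ⟨nat_lit 10, nat_lit 74, nat_lit 74, nat_lit 100, nat_lit 93295593⟩]⟩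
noncomputable def p113_l126 : Lf2 := ⟨nat_lit 1, nat_lit 25, [nat_lit 44, nat_lit 5, nat_lit 5, nat_lit 20], false, nat_lit 80, nat_lit 160, nat_lit 160, nat_lit 336, zbN0,
 nat_lit 0, nat_lit 0, nat_lit 0, nat_lit 0, nat_lit 0, nat_lit 0, nat_lit 0, nat_lit 0, nat_lit 0, nat_lit 0, nat_lit 0, nat_lit 0, nat_lit 0, nat_lit 0, nat_lit 0, nat_lit 0, nat_lit 0, nat_lit 0, [],
 C1.Rw.none, C1.Rw.none,
 zbF0, []⟩
noncomputable def p113_l127 : Lf2 := ⟨nat_lit 0, nat_lit 25, [nat_lit 44, nat_lit 5, nat_lit 5, nat_lit 20], false, nat_lit 80, nat_lit 160, nat_lit 160, nat_lit 336, ⟨nat_lit 287, nat_lit 713, nat_lit 0, nat_lit 8, nat_lit 306, nat_lit 713, nat_lit 102, nat_lit 0, nat_lit 0, nat_lit 0, nat_lit 0, nat_lit 0, nat_lit 39381781, nat_lit 23460698, nat_lit 4157521, nat_lit 4506047, true, true⟩,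
 nat_lit 0, nat_lit 0, nat_lit 3699, nat_lit 0, nat_lit 3114, nat_lit 2103, nat_lit 298, nat_lit 0, nat_lit 0, nat_lit 249, nat_lit 0, nat_lit 0, nat_lit 0, nat_lit 0, nat_lit 0, nat_lit 178250, nat_lit 0, nat_lit 0, [(nat_lit 26, [(nat_lit 0, nat_lit 713)])],
 ⟨p113_k18, nat_lit 0, nat_lit 0, nat_lit 133, nat_lit 0, nat_lit 0, [nat_lit 815078800, nat_lit 1917888401, nat_lit 4078442400], [], [nat_lit 26159213524, nat_lit 26411674056, nat_lit 27499326886, nat_lit 27773052066, nat_lit 26436848363, nat_lit 26643816552, nat_lit 27642249448, nat_lit 27859945043], nat_lit 0, nat_lit 0, nat_lit 0, nat_lit 0, nat_lit 0, nat_lit 0, [], [nat_lit 54, nat_lit 40, nat_lit 40, nat_lit 80, nat_lit 43, nat_lit 249, nat_lit 40, nat_lit 7]⟩, ⟨p113_k46, nat_lit 0, nat_lit 0, nat_lit 395, nat_lit 0, nat_lit 495522, [nat_lit 1345456000, nat_lit 2286816000, nat_lit 4034646000], [], [nat_lit 8817217955, nat_lit 8845429003, nat_lit 9174412897,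 nat_lit 9198274242, nat_lit 9416053504, nat_lit 9428920722, nat_lit 9646429059, nat_lit 9656192668], nat_lit 1271250, nat_lit 1271250, nat_lit 1271250, nat_lit 1271250, nat_lit 1100001, nat_lit 2607000, [nat_lit 1100000, nat_lit 1785000, nat_lit 1271250], [nat_lit 37, nat_lit 40, nat_lit 40, nat_lit 80, nat_lit 28, nat_lit 483, nat_lit 250, nat_lit 10]⟩,
 ⟨nat_lit 2500, nat_lit 2739, ⟨.ofNat (nat_lit 738830), .ofNat (nat_lit 786079), .ofNat (nat_lit 744435), .ofNat (nat_lit 791684), .ofNat (nat_lit 736289), .ofNat (nat_lit 782740), .ofNat (nat_lit 741934), .ofNat (nat_lit 788386)⟩, ⟨.ofNat (nat_lit 188310), .ofNat (nat_lit 306433), .ofNat (nat_lit 200000), .ofNat (nat_lit 328850), .ofNat (nat_lit 190321), .ofNat (nat_lit 306450), .ofNat (nat_lit 200000), .ofNat (nat_lit 329031)⟩⟩, [⟨nat_lit 13, nat_lit 50, nat_lit 74, nat_lit 100, nat_lit 42427279⟩, ⟨nat_lit 10, nat_lit 74, nat_lit 74, nat_lit 100, nat_lit 105970766⟩]⟩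
noncomputable def p113_l128 : Lf2 := ⟨nat_lit 0, nat_lit 25, [nat_lit 44, nat_lit 5, nat_lit 5, nat_lit 20], false, nat_lit 80, nat_lit 160, nat_lit 160, nat_lit 336, ⟨nat_lit 135, nat_lit 865, nat_lit 0, nat_lit 8, nat_lit 295, nat_lit 865, nat_lit 103, nat_lit 0, nat_lit 0, nat_lit 0, nat_lit 0, nat_lit 0, nat_lit 40286947, nat_lit 22481150, nat_lit 4231903, nat_lit 4479262, true, true⟩,
 nat_lit 0, nat_lit 0, nat_lit 2101, nat_lit 0, nat_lit 4373, nat_lit 1112, nat_lit 0, nat_lit 0, nat_lit 0, nat_lit 117, nat_lit 0, nat_lit 0, nat_lit 0, nat_lit 0, nat_lit 0, nat_lit 216250, nat_lit 0, nat_lit 0, [(nat_lit 26, [(nat_lit 0, nat_lit 865)])],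
 ⟨p113_k36, nat_lit 0, nat_lit 0, nat_lit 113, nat_lit 0, nat_lit 0, [nat_lit 788874000, nat_lit 1627082000, nat_lit 2651600000], [], [nat_lit 28085359629, nat_lit 28400024886, nat_lit 29183433425, nat_lit 29552114699, nat_lit 27892826269, nat_lit 28178431932, nat_lit 28806018056, nat_lit 29078109768], nat_lit 0, nat_lit 0, nat_lit 0, nat_lit 0, nat_lit 0, nat_lit 0, [], [nat_lit 20, nat_lit 40, nat_lit 40, nat_lit 80, nat_lit 16, nat_lit 249, nat_lit 40, nat_lit 8]⟩, ⟨p113_k35, nat_lit 0, nat_lit 0, nat_lit 433, nat_lit 0, nat_lit 596793, [nat_lit 632880000, nat_lit 1075680000, nat_lit 1897830000], [], [nat_lit 4247129736, nat_lit 4259851202, nat_lit 4326527864, nat_lit 4337103469, nat_lit 4440817775, nat_lit 4451233684, nat_lit 4512956660, nat_lit 4522779468], nat_lit 1271250, nat_lit 1271250, nat_lit 1271250, nat_lit 1271250, nat_lit 1100001, nat_lit 2607000, [nat_lit 1100000, nat_lit 1785000, nat_lit 1271250],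 [nat_lit 37, nat_lit 40, nat_lit 40, nat_lit 80, nat_lit 28, nat_lit 483, nat_lit 250, nat_lit 10]⟩,
 ⟨nat_lit 2236, nat_lit 2500, ⟨.ofNat (nat_lit 719353), .ofNat (nat_lit 748386), .ofNat (nat_lit 730644), .ofNat (nat_lit 759676), .ofNat (nat_lit 716594), .ofNat (nat_lit 745101), .ofNat (nat_lit 727981), .ofNat (nat_lit 756489)⟩, ⟨.ofNat (nat_lit 190321), .ofNat (nat_lit 306450), .ofNat (nat_lit 200000), .ofNat (nat_lit 329031), .ofNat (nat_lit 192306), .ofNat (nat_lit 306337), .ofNat (nat_lit 200000), .ofNat (nat_lit 329112)⟩⟩, [⟨nat_lit 13, nat_lit 47, nat_lit 78, nat_lit 100, nat_lit 317275395⟩, ⟨nat_lit 10, nat_lit 74, nat_lit 77, nat_lit 100, nat_lit 47172414⟩]⟩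
noncomputable def p113_l129 : Lf2 := ⟨nat_lit 0, nat_lit 25, [nat_lit 44, nat_lit 5, nat_lit 5, nat_lit 20], false, nat_lit 80, nat_lit 160, nat_lit 160, nat_lit 336, ⟨nat_lit 147, nat_lit 853, nat_lit 0, nat_lit 8, nat_lit 302, nat_lit 853, nat_lit 103, nat_lit 0, nat_lit 0, nat_lit 0, nat_lit 0, nat_lit 0, nat_lit 39679417, nat_lit 23129683, nat_lit 4190900, nat_lit 4499233, true, true⟩,
 nat_lit 0, nat_lit 0, nat_lit 2015, nat_lit 0, nat_lit 4352, nat_lit 1119, nat_lit 0, nat_lit 0, nat_lit 0, nat_lit 127, nat_lit 0, nat_lit 0, nat_lit 0, nat_lit 0, nat_lit 0, nat_lit 213250, nat_lit 0, nat_lit 0, [(nat_lit 26, [(nat_lit 0, nat_lit 853)])],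
 ⟨p113_k36, nat_lit 0, nat_lit 0, nat_lit 116, nat_lit 0, nat_lit 0, [nat_lit 790942800, nat_lit 1650040400, nat_lit 2701520000], [], [nat_lit 28133407384, nat_lit 28447316064, nat_lit 29640155387, nat_lit 29999668213, nat_lit 27949108156, nat_lit 28234057968, nat_lit 29225145263, nat_lit 29491245178], nat_lit 0, nat_lit 0, nat_lit 0, nat_lit 0, nat_lit 0, nat_lit 0, [], [nat_lit 20, nat_lit 40, nat_lit 40, nat_lit 80, nat_lit 16, nat_lit 249, nat_lit 40, nat_lit 8]⟩, ⟨p113_k37, nat_lit 0, nat_lit 0, nat_lit 437, nat_lit 0, nat_lit 611656, [nat_lit 689136000, nat_lit 1171296000, nat_lit 2066526000], [], [nat_lit 4637170838, nat_lit 4652150216, nat_lit 4752734435, nat_lit 4764646948, nat_lit 4838260840, nat_lit 4850866112, nat_lit 4943611176, nat_lit 4953347687], nat_lit 1271250, nat_lit 1271250, nat_lit 1271250, nat_lit 1271250, nat_lit 1100001, nat_lit 2607000, [nat_lit 1100000, nat_lit 1785000, nat_lit 1271250],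 [nat_lit 37, nat_lit 40, nat_lit 40, nat_lit 80, nat_lit 28, nat_lit 483, nat_lit 250, nat_lit 10]⟩,
 ⟨nat_lit 2236, nat_lit 2500, ⟨.ofNat (nat_lit 730644), .ofNat (nat_lit 771289), .ofNat (nat_lit 741934), .ofNat (nat_lit 782579), .ofNat (nat_lit 727981), .ofNat (nat_lit 767892), .ofNat (nat_lit 739368), .ofNat (nat_lit 779279)⟩, ⟨.ofNat (nat_lit 190321), .ofNat (nat_lit 306450), .ofNat (nat_lit 200000), .ofNat (nat_lit 329031), .ofNat (nat_lit 192306), .ofNat (nat_lit 306337), .ofNat (nat_lit 200000), .ofNat (nat_lit 329112)⟩⟩, [⟨nat_lit 13, nat_lit 48, nat_lit 76, nat_lit 100, nat_lit 290139672⟩, ⟨nat_lit 10, nat_lit 74, nat_lit 75, nat_lit 100, nat_lit 52017291⟩]⟩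
noncomputable def p113_l130 : Lf2 := ⟨nat_lit 0, nat_lit 30, [nat_lit 15, nat_lit 5, nat_lit 5, nat_lit 20], false, nat_lit 80, nat_lit 160, nat_lit 0, nat_lit 336, ⟨nat_lit 1000, nat_lit 0, nat_lit 0, nat_lit 0, nat_lit 0, nat_lit 0, nat_lit 0, nat_lit 0, nat_lit 0, nat_lit 0, nat_lit 0, nat_lit 0, nat_lit 0, nat_lit 0, nat_lit 0, nat_lit 0, false, false⟩,
 nat_lit 0, nat_lit 0, nat_lit 16280, nat_lit 885, nat_lit 5104, nat_lit 8618, nat_lit 552, nat_lit 0, nat_lit 0, nat_lit 1004, nat_lit 0, nat_lit 0, nat_lit 0, nat_lit 0, nat_lit 0, nat_lit 0, nat_lit 0, nat_lit 0, [],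
 ⟨p113_k14, nat_lit 0, nat_lit 0, nat_lit 155, nat_lit 0, nat_lit 0, [nat_lit 938000000, nat_lit 3282000000, nat_lit 9842000000], [], [nat_lit 28081044336, nat_lit 28664337280, nat_lit 30868153050, nat_lit 31614826621, nat_lit 27526141328, nat_lit 28005532368, nat_lit 30041644346, nat_lit 30719491631], nat_lit 0, nat_lit 0, nat_lit 0, nat_lit 0, nat_lit 0, nat_lit 0, [], [nat_lit 93, nat_lit 40, nat_lit 40, nat_lit 80, nat_lit 63, nat_lit 249, nat_lit 40, nat_lit 6]⟩, ⟨p113_k33, nat_lit 0, nat_lit 0, nat_lit 457, nat_lit 0, nat_lit 233831, [nat_lit 4688000000, nat_lit 7968000000, nat_lit 16400000000], [], [nat_lit 38315757548, nat_lit 38873520124, nat_lit 41051138648, nat_lit 41472084349, nat_lit 32135374088, nat_lit 32327216129, nat_lit 33611161695, nat_lit 33858913930], nat_lit 1271250, nat_lit 1271250, nat_lit 1271250, nat_lit 1271250, nat_lit 0, nat_lit 2373000, [nat_lit 1100000, nat_lit 1785000, nat_lit 1271250],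 [nat_lit 122, nat_lit 40, nat_lit 40, nat_lit 80, nat_lit 111, nat_lit 483, nat_lit 250, nat_lit 10]⟩,
 zbF0, [⟨nat_lit 22, nat_lit 82, nat_lit 76, nat_lit 100, nat_lit 92720937⟩]⟩
noncomputable def p113_l131 : Lf2 := ⟨nat_lit 0, nat_lit 25, [nat_lit 44, nat_lit 5, nat_lit 5, nat_lit 20], false, nat_lit 80, nat_lit 160, nat_lit 0, nat_lit 336, ⟨nat_lit 504, nat_lit 496, nat_lit 0, nat_lit 8, nat_lit 302, nat_lit 496, nat_lit 108, nat_lit 0, nat_lit 0, nat_lit 0, nat_lit 0, nat_lit 0, nat_lit 39445941, nat_lit 23042003, nat_lit 4512056, nat_lit 4559509, true, true⟩,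
 nat_lit 0, nat_lit 0, nat_lit 7867, nat_lit 0, nat_lit 3259, nat_lit 4164, nat_lit 372, nat_lit 0, nat_lit 0, nat_lit 438, nat_lit 0, nat_lit 0, nat_lit 0, nat_lit 0, nat_lit 0, nat_lit 124000, nat_lit 0, nat_lit 0, [(nat_lit 26, [(nat_lit 0, nat_lit 496)])],
 ⟨p113_k18, nat_lit 0, nat_lit 0, nat_lit 133, nat_lit 0, nat_lit 0, [nat_lit 852489600, nat_lit 2333052801, nat_lit 5262220800], [], [nat_lit 26444578667, nat_lit 26679064560, nat_lit 27745790294, nat_lit 28020482821, nat_lit 26704217115, nat_lit 26918971030, nat_lit 27848687617, nat_lit 28049467292], nat_lit 0, nat_lit 0, nat_lit 0, nat_lit 0, nat_lit 0, nat_lit 0, [], [nat_lit 54, nat_lit 40, nat_lit 40, nat_lit 80, nat_lit 43, nat_lit 249, nat_lit 40, nat_lit 7]⟩, ⟨p113_k35, nat_lit 0, nat_lit 0, nat_lit 436, nat_lit 0, nat_lit 318970, [nat_lit 2362752000, nat_lit 4015872000, nat_lit 7085232000], [], [nat_lit 19591485696, nat_lit 19713803592, nat_lit 20157228557,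 nat_lit 20249479445, nat_lit 16543943112, nat_lit 16621370391, nat_lit 17035436242, nat_lit 17156525638], nat_lit 1271250, nat_lit 1271250, nat_lit 1271250, nat_lit 1271250, nat_lit 0, nat_lit 2373000, [nat_lit 1100000, nat_lit 1785000, nat_lit 1271250], [nat_lit 37, nat_lit 40, nat_lit 40, nat_lit 80, nat_lit 28, nat_lit 483, nat_lit 250, nat_lit 11]⟩,
 ⟨nat_lit 2500, nat_lit 2739, ⟨.ofNat (nat_lit 722017), .ofNat (nat_lit 769266), .ofNat (nat_lit 744435), .ofNat (nat_lit 791684), .ofNat (nat_lit 719353), .ofNat (nat_lit 765805), .ofNat (nat_lit 741934), .ofNat (nat_lit 788386)⟩, ⟨.ofNat (nat_lit 200000), .ofNat (nat_lit 328850), .ofNat (nat_lit 200000), .ofNat (nat_lit 351268), .ofNat (nat_lit 200000), .ofNat (nat_lit 329031), .ofNat (nat_lit 200000), .ofNat (nat_lit 351611)⟩⟩, [⟨nat_lit 10, nat_lit 74, nat_lit 74, nat_lit 100, nat_lit 66628404⟩]⟩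
noncomputable def p113_l132 : Lf2 := ⟨nat_lit 0, nat_lit 25, [nat_lit 44, nat_lit 5, nat_lit 5, nat_lit 20], false, nat_lit 80, nat_lit 160, nat_lit 0, nat_lit 336, ⟨nat_lit 182, nat_lit 818, nat_lit 0, nat_lit 8, nat_lit 300, nat_lit 818, nat_lit 108, nat_lit 0, nat_lit 0, nat_lit 0, nat_lit 0, nat_lit 0, nat_lit 39650936, nat_lit 22818925, nat_lit 4530139, nat_lit 4553569, true, true⟩,
 nat_lit 0, nat_lit 0, nat_lit 2903, nat_lit 0, nat_lit 2988, nat_lit 1536, nat_lit 200, nat_lit 0, nat_lit 0, nat_lit 141, nat_lit 0, nat_lit 0, nat_lit 0, nat_lit 0, nat_lit 0, nat_lit 204500, nat_lit 0, nat_lit 0, [(nat_lit 26, [(nat_lit 0, nat_lit 818)])],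
 ⟨p113_k36, nat_lit 0, nat_lit 0, nat_lit 116, nat_lit 0, nat_lit 0, [nat_lit 796976800, nat_lit 1717002400, nat_lit 2847120000], [], [nat_lit 26094275646, nat_lit 26359042816, nat_lit 27348755759, nat_lit 27649480664, nat_lit 26446254728, nat_lit 26687153592, nat_lit 27562915096, nat_lit 27790938815], nat_lit 0, nat_lit 0, nat_lit 0, nat_lit 0, nat_lit 0, nat_lit 0, [], [nat_lit 20, nat_lit 40, nat_lit 40, nat_lit 80, nat_lit 16, nat_lit 249, nat_lit 40, nat_lit 8]⟩, ⟨p113_k35, nat_lit 0, nat_lit 0, nat_lit 469, nat_lit 0, nat_lit 420563, [nat_lit 853216000, nat_lit 1450176000, nat_lit 2558556000], [], [nat_lit 7404088768, nat_lit 7447584840, nat_lit 7584146498, nat_lit 7617973114, nat_lit 6155315054, nat_lit 6162055501, nat_lit 6282016464, nat_lit 6324313973], nat_lit 1271250, nat_lit 1271250, nat_lit 1271250, nat_lit 1271250, nat_lit 0, nat_lit 2373000, [nat_lit 1100000, nat_lit 1785000, nat_lit 1271250], [nat_lit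 37, nat_lit 40, nat_lit 40, nat_lit 80, nat_lit 28, nat_lit 483, nat_lit 250, nat_lit 11]⟩,
 ⟨nat_lit 2236, nat_lit 2500, ⟨.ofNat (nat_lit 719353), .ofNat (nat_lit 759999), .ofNat (nat_lit 741934), .ofNat (nat_lit 782579), .ofNat (nat_lit 716594), .ofNat (nat_lit 756505), .ofNat (nat_lit 739368), .ofNat (nat_lit 779279)⟩, ⟨.ofNat (nat_lit 200000), .ofNat (nat_lit 329031), .ofNat (nat_lit 200000), .ofNat (nat_lit 351611), .ofNat (nat_lit 200000), .ofNat (nat_lit 329112), .ofNat (nat_lit 200000), .ofNat (nat_lit 351886)⟩⟩, [⟨nat_lit 13, nat_lit 48, nat_lit 77, nat_lit 100, nat_lit 280107939⟩, ⟨nat_lit 10, nat_lit 74, nat_lit 75, nat_lit 100, nat_lit 20343028⟩]⟩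
noncomputable def p113_l133 : Lf2 := ⟨nat_lit 0, nat_lit 30, [nat_lit 15, nat_lit 5, nat_lit 5, nat_lit 20], false, nat_lit 80, nat_lit 160, nat_lit 0, nat_lit 336, ⟨nat_lit 1000, nat_lit 0, nat_lit 0, nat_lit 0, nat_lit 0, nat_lit 0, nat_lit 0, nat_lit 0, nat_lit 0, nat_lit 0, nat_lit 0, nat_lit 0, nat_lit 0, nat_lit 0, nat_lit 0, nat_lit 0, false, false⟩,
 nat_lit 0, nat_lit 0, nat_lit 16593, nat_lit 3881, nat_lit 8511, nat_lit 8784, nat_lit 0, nat_lit 0, nat_lit 0, nat_lit 1034, nat_lit 0, nat_lit 0, nat_lit 0, nat_lit 0, nat_lit 0, nat_lit 0, nat_lit 0, nat_lit 0, [],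
 ⟨p113_k12, nat_lit 0, nat_lit 0, nat_lit 133, nat_lit 0, nat_lit 0, [nat_lit 938000000, nat_lit 3282000000, nat_lit 7968000000], [], [nat_lit 34140007376, nat_lit 34566996094, nat_lit 36450996177, nat_lit 36982595409, nat_lit 32242990367, nat_lit 32625167205, nat_lit 34114729678, nat_lit 34517534746], nat_lit 0, nat_lit 0, nat_lit 0, nat_lit 0, nat_lit 0, nat_lit 0, [], [nat_lit 54, nat_lit 40, nat_lit 40, nat_lit 80, nat_lit 43, nat_lit 249, nat_lit 40, nat_lit 7]⟩, ⟨p113_k33, nat_lit 0, nat_lit 0, nat_lit 415, nat_lit 0, nat_lit 99534, [nat_lit 4688000000, nat_lit 7968000000, nat_lit 16400000000], [], [nat_lit 38100924874, nat_lit 38659954362, nat_lit 40086546353, nat_lit 40544701038, nat_lit 31680238884, nat_lit 31871244090, nat_lit 32808483636, nat_lit 33079610288], nat_lit 1271250, nat_lit 1271250, nat_lit 1271250, nat_lit 1271250, nat_lit 0, nat_lit 2373000, [nat_lit 1100000, nat_lit 1785000, nat_lit 1271250],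 [nat_lit 122, nat_lit 40, nat_lit 40, nat_lit 80, nat_lit 111, nat_lit 483, nat_lit 250, nat_lit 10]⟩,
 zbF0, [⟨nat_lit 22, nat_lit 82, nat_lit 76, nat_lit 100, nat_lit 95422032⟩]⟩
noncomputable def p113_l134 : Lf2 := ⟨nat_lit 0, nat_lit 30, [nat_lit 15, nat_lit 5, nat_lit 5, nat_lit 20], false, nat_lit 80, nat_lit 160, nat_lit 0, nat_lit 336, ⟨nat_lit 1000, nat_lit 0, nat_lit 0, nat_lit 0, nat_lit 0, nat_lit 0, nat_lit 0, nat_lit 0, nat_lit 0, nat_lit 0, nat_lit 0, nat_lit 0, nat_lit 0, nat_lit 0, nat_lit 0, nat_lit 0, false, false⟩,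
 nat_lit 0, nat_lit 0, nat_lit 19841, nat_lit 0, nat_lit 3793, nat_lit 10503, nat_lit 506, nat_lit 0, nat_lit 0, nat_lit 680, nat_lit 0, nat_lit 0, nat_lit 0, nat_lit 0, nat_lit 0, nat_lit 0, nat_lit 0, nat_lit 0, [],
 ⟨p113_k47, nat_lit 0, nat_lit 0, nat_lit 135, nat_lit 0, nat_lit 0, [nat_lit 938000000, nat_lit 4688000000, nat_lit 7968000000], [], [nat_lit 27139079322, nat_lit 27448069456, nat_lit 28701084718, nat_lit 29036504841, nat_lit 27097163084, nat_lit 27347412846, nat_lit 28486949890, nat_lit 28792723079], nat_lit 0, nat_lit 0, nat_lit 0, nat_lit 0, nat_lit 0, nat_lit 0, [], [nat_lit 57, nat_lit 40, nat_lit 40, nat_lit 80, nat_lit 7, nat_lit 249, nat_lit 40, nat_lit 7]⟩, ⟨p113_k5, nat_lit 0, nat_lit 0, nat_lit 451, nat_lit 0, nat_lit 199015, [nat_lit 4688000000, nat_lit 9842000000, nat_lit 16400000000], [], [nat_lit 42125736408, nat_lit 42697885304, nat_lit 44049272020, nat_lit 44518467983, nat_lit 33216616392,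 nat_lit 33363376648, nat_lit 34200370834, nat_lit 34412929378], nat_lit 1271250, nat_lit 1271250, nat_lit 1271250, nat_lit 1271250, nat_lit 0, nat_lit 2373000, [nat_lit 1100000, nat_lit 2127500, nat_lit 1271250], [nat_lit 83, nat_lit 40, nat_lit 40, nat_lit 80, nat_lit 73, nat_lit 483, nat_lit 250, nat_lit 10]⟩,
 zbF0, [⟨nat_lit 22, nat_lit 82, nat_lit 76, nat_lit 100, nat_lit 47540738⟩]⟩
noncomputable def b_V_900_600_20_35 : St := ⟨true, nat_lit 0, nat_lit 1, nat_lit 1, nat_lit 120, nat_lit 360, nat_lit 380, nat_lit 240, nat_lit 260, nat_lit 320, nat_lit 376, nat_lit 80, nat_lit 120, nat_lit 80, nat_lit 160, nat_lit 0, nat_lit 336, nat_lit 80, nat_lit 120, nat_lit 0, nat_lit 0, nat_lit 0, nat_lit 0⟩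
theorem d_V_900_600_20_35 (h : EB TB.env) : Dead b_V_900_600_20_35 := chkB_sound0 h (T :=
(.trX (nat_lit 13) (nat_lit 63) (nat_lit 61) (nat_lit 100) (nat_lit 364) (.spl (nat_lit 3) (nat_lit 100)
(.spl (nat_lit 5) (nat_lit 160)
(.spl (nat_lit 1) (nat_lit 250)
(.trX (nat_lit 13) (nat_lit 62) (nat_lit 65) (nat_lit 100) (nat_lit 360) (.leaf p113_l118))
(.leaf p113_l119))
(.spl (nat_lit 0) (nat_lit 370)
(.spl (nat_lit 6) (nat_lit 112)
(.spl (nat_lit 1) (nat_lit 250)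
(.trX (nat_lit 13) (nat_lit 62) (nat_lit 65) (nat_lit 100) (nat_lit 360) (.leaf p113_l120))
(.leaf p113_l121))
(.leaf p113_l122))
(.trX (nat_lit 13) (nat_lit 55) (nat_lit 68) (nat_lit 100) (nat_lit 352) (.spl (nat_lit 0) (nat_lit 375)
(.spl (nat_lit 1) (nat_lit 250)
(.trX (nat_lit 13) (nat_lit 54) (nat_lit 71) (nat_lit 100) (nat_lit 348) (.spl (nat_lit 6) (nat_lit 112)
(.leaf p113_l123)
(.leaf p113_l124)))
(.spl (nat_lit 1) (nat_lit 255)
(.spl (nat_lit 6) (nat_lit 112)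
(.leaf p113_l125)
(.leaf p113_l126))
(.leaf p113_l127)))
(.trX (nat_lit 13) (nat_lit 51) (nat_lit 72) (nat_lit 100) (nat_lit 348) (.spl (nat_lit 1) (nat_lit 250)
(.trX (nat_lit 13) (nat_lit 50) (nat_lit 75) (nat_lit 100) (nat_lit 340) (.leaf p113_l128))
(.leaf p113_l129)))))))
(.spl (nat_lit 0) (nat_lit 370)
(.leaf p113_l130)
(.trX (nat_lit 13) (nat_lit 55) (nat_lit 68) (nat_lit 100) (nat_lit 352) (.spl (nat_lit 6) (nat_lit 100)
(.spl (nat_lit 0) (nat_lit 375)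
(.leaf p113_l131)
(.trX (nat_lit 13) (nat_lit 51) (nat_lit 72) (nat_lit 100) (nat_lit 348) (.leaf p113_l132)))
(.spl (nat_lit 0) (nat_lit 375)
(.leaf p113_l133)
(.trX (nat_lit 13) (nat_lit 51) (nat_lit 72) (nat_lit 100) (nat_lit 348) (.leaf p113_l134))))))))) (by decide +kernel)
noncomputable def p113_l135 : Lf2 := ⟨nat_lit 0, nat_lit 25, [nat_lit 44, nat_lit 5, nat_lit 5, nat_lit 20], false, nat_lit 80, nat_lit 160, nat_lit 0, nat_lit 160, ⟨nat_lit 1000, nat_lit 0, nat_lit 0, nat_lit 0, nat_lit 0, nat_lit 0, nat_lit 0, nat_lit 0, nat_lit 0, nat_lit 0, nat_lit 0, nat_lit 0, nat_lit 0, nat_lit 0, nat_lit 0, nat_lit 0, false, false⟩,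
 nat_lit 0, nat_lit 0, nat_lit 12120, nat_lit 0, nat_lit 5196, nat_lit 7054, nat_lit 389, nat_lit 0, nat_lit 0, nat_lit 929, nat_lit 0, nat_lit 0, nat_lit 0, nat_lit 0, nat_lit 0, nat_lit 0, nat_lit 0, nat_lit 0, [],
 ⟨p113_k16, nat_lit 0, nat_lit 0, nat_lit 138, nat_lit 0, nat_lit 0, [nat_lit 938000000, nat_lit 3282000000, nat_lit 7968000000], [], [nat_lit 28920026715, nat_lit 29559603211, nat_lit 31945769013, nat_lit 32663947153, nat_lit 28460519771, nat_lit 28983720291, nat_lit 31143465362, nat_lit 31642920683], nat_lit 0, nat_lit 0, nat_lit 0, nat_lit 0, nat_lit 0, nat_lit 0, [], [nat_lit 54, nat_lit 40, nat_lit 40, nat_lit 80, nat_lit 43, nat_lit 249, nat_lit 40, nat_lit 7]⟩, ⟨p113_k17, nat_lit 0, nat_lit 0, nat_lit 551, nat_lit 0, nat_lit 522824, [nat_lit 4688000000, nat_lit 7968000000, nat_lit 14058000000], [], [nat_lit 36528333672, nat_lit 36837982792, nat_lit 38413082629, nat_lit 38687660924, nat_lit 31762149548,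 nat_lit 32093072096, nat_lit 33570902546, nat_lit 33818741135], nat_lit 1271250, nat_lit 1271250, nat_lit 1271250, nat_lit 1271250, nat_lit 0, nat_lit 1100001, [nat_lit 1100000, nat_lit 1785000, nat_lit 1271250], [nat_lit 37, nat_lit 40, nat_lit 40, nat_lit 80, nat_lit 28, nat_lit 456, nat_lit 225, nat_lit 10]⟩,
 zbF0, [⟨nat_lit 9, nat_lit 100, nat_lit 69, nat_lit 60, nat_lit 2736743⟩]⟩
noncomputable def p113_l136 : Lf2 := ⟨nat_lit 0, nat_lit 25, [nat_lit 44, nat_lit 5, nat_lit 5, nat_lit 20], false, nat_lit 80, nat_lit 160, nat_lit 0, nat_lit 160, ⟨nat_lit 1000, nat_lit 0, nat_lit 0, nat_lit 0, nat_lit 0, nat_lit 0, nat_lit 0, nat_lit 0, nat_lit 0, nat_lit 0, nat_lit 0, nat_lit 0, nat_lit 0, nat_lit 0, nat_lit 0, nat_lit 0, false, false⟩,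
 nat_lit 0, nat_lit 0, nat_lit 12255, nat_lit 0, nat_lit 3968, nat_lit 7133, nat_lit 526, nat_lit 0, nat_lit 0, nat_lit 915, nat_lit 0, nat_lit 0, nat_lit 0, nat_lit 0, nat_lit 0, nat_lit 0, nat_lit 0, nat_lit 0, [],
 ⟨p113_k18, nat_lit 0, nat_lit 0, nat_lit 138, nat_lit 0, nat_lit 0, [nat_lit 938000000, nat_lit 3282000000, nat_lit 7968000000], [], [nat_lit 27113986588, nat_lit 27718023056, nat_lit 29884673844, nat_lit 30532526016, nat_lit 27074071728, nat_lit 27537873888, nat_lit 29510790298, nat_lit 30102174893], nat_lit 0, nat_lit 0, nat_lit 0, nat_lit 0, nat_lit 0, nat_lit 0, [], [nat_lit 54, nat_lit 40, nat_lit 40, nat_lit 80, nat_lit 43, nat_lit 249, nat_lit 40, nat_lit 7]⟩, ⟨p113_k17, nat_lit 0, nat_lit 0, nat_lit 610, nat_lit 0, nat_lit 695311, [nat_lit 4688000000, nat_lit 7968000000, nat_lit 14058000000], [], [nat_lit 36585494044, nat_lit 36894059284, nat_lit 38178443973, nat_lit 38408984408, nat_lit 32209934750,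 nat_lit 32464104284, nat_lit 33474288391, nat_lit 33668201984], nat_lit 1271250, nat_lit 1271250, nat_lit 1271250, nat_lit 1271250, nat_lit 0, nat_lit 1100001, [nat_lit 1100000, nat_lit 1785000, nat_lit 1271250], [nat_lit 37, nat_lit 40, nat_lit 40, nat_lit 80, nat_lit 28, nat_lit 456, nat_lit 225, nat_lit 10]⟩,
 zbF0, []⟩
noncomputable def p113_l137 : Lf2 := ⟨nat_lit 0, nat_lit 25, [nat_lit 44, nat_lit 5, nat_lit 5, nat_lit 20], false, nat_lit 80, nat_lit 160, nat_lit 160, nat_lit 336, ⟨nat_lit 1000, nat_lit 0, nat_lit 0, nat_lit 0, nat_lit 0, nat_lit 0, nat_lit 0, nat_lit 0, nat_lit 0, nat_lit 0, nat_lit 0, nat_lit 0, nat_lit 0, nat_lit 0, nat_lit 0, nat_lit 0, false, false⟩,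
 nat_lit 0, nat_lit 0, nat_lit 12415, nat_lit 0, nat_lit 5196, nat_lit 7226, nat_lit 395, nat_lit 0, nat_lit 0, nat_lit 905, nat_lit 0, nat_lit 0, nat_lit 0, nat_lit 0, nat_lit 0, nat_lit 0, nat_lit 0, nat_lit 0, [],
 ⟨p113_k16, nat_lit 0, nat_lit 0, nat_lit 137, nat_lit 0, nat_lit 0, [nat_lit 938000000, nat_lit 3282000000, nat_lit 7968000000], [], [nat_lit 28851382965, nat_lit 29490959461, nat_lit 31647040481, nat_lit 32367901232, nat_lit 28391876021, nat_lit 28915076541, nat_lit 30865990074, nat_lit 31374090405], nat_lit 0, nat_lit 0, nat_lit 0, nat_lit 0, nat_lit 0, nat_lit 0, [], [nat_lit 54, nat_lit 40, nat_lit 40, nat_lit 80, nat_lit 43, nat_lit 249, nat_lit 40, nat_lit 7]⟩, ⟨p113_k17, nat_lit 0, nat_lit 0, nat_lit 381, nat_lit 0, nat_lit 452716, [nat_lit 4688000000, nat_lit 7968000000, nat_lit 14058000000], [], [nat_lit 29870614508, nat_lit 30067434494, nat_lit 31921115956, nat_lit 32068969573, nat_lit 31923844184,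 nat_lit 32014907902, nat_lit 33729306921, nat_lit 33853955420], nat_lit 1271250, nat_lit 1271250, nat_lit 1271250, nat_lit 1271250, nat_lit 1100001, nat_lit 2607000, [nat_lit 1100000, nat_lit 1785000, nat_lit 1271250], [nat_lit 37, nat_lit 40, nat_lit 40, nat_lit 80, nat_lit 28, nat_lit 483, nat_lit 250, nat_lit 10]⟩,
 zbF0, [⟨nat_lit 19, nat_lit 100, nat_lit 84, nat_lit 88, nat_lit 309322622⟩, ⟨nat_lit 10, nat_lit 73, nat_lit 68, nat_lit 100, nat_lit 10216306⟩]⟩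
noncomputable def p113_l138 : Lf2 := ⟨nat_lit 0, nat_lit 25, [nat_lit 44, nat_lit 5, nat_lit 5, nat_lit 20], false, nat_lit 80, nat_lit 160, nat_lit 160, nat_lit 328, ⟨nat_lit 1000, nat_lit 0, nat_lit 0, nat_lit 0, nat_lit 0, nat_lit 0, nat_lit 0, nat_lit 0, nat_lit 0, nat_lit 0, nat_lit 0, nat_lit 0, nat_lit 0, nat_lit 0, nat_lit 0, nat_lit 0, false, false⟩,
 nat_lit 0, nat_lit 0, nat_lit 11067, nat_lit 0, nat_lit 5196, nat_lit 6740, nat_lit 389, nat_lit 0, nat_lit 0, nat_lit 937, nat_lit 0, nat_lit 0, nat_lit 0, nat_lit 0, nat_lit 0, nat_lit 0, nat_lit 0, nat_lit 0, [],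
 ⟨p113_k16, nat_lit 0, nat_lit 0, nat_lit 138, nat_lit 0, nat_lit 0, [nat_lit 938000000, nat_lit 3282000000, nat_lit 7968000000], [], [nat_lit 28920026715, nat_lit 29559603211, nat_lit 31945769013, nat_lit 32663947153, nat_lit 28460519771, nat_lit 28983720291, nat_lit 31143465362, nat_lit 31642920683], nat_lit 0, nat_lit 0, nat_lit 0, nat_lit 0, nat_lit 0, nat_lit 0, [], [nat_lit 54, nat_lit 40, nat_lit 40, nat_lit 80, nat_lit 43, nat_lit 249, nat_lit 40, nat_lit 7]⟩, ⟨p113_k41, nat_lit 0, nat_lit 0, nat_lit 393, nat_lit 0, nat_lit 488828, [nat_lit 4688000000, nat_lit 7968000000, nat_lit 14058000000], [], [nat_lit 29087232060, nat_lit 29285140200, nat_lit 31200953445, nat_lit 31348964456, nat_lit 31010603335, nat_lit 31159053537, nat_lit 32975372366, nat_lit 33093587112], nat_lit 1271250, nat_lit 1271250, nat_lit 1271250, nat_lit 1271250, nat_lit 1100001, nat_lit 2538500, [nat_lit 1100000, nat_lit 1785000, nat_lit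 1271250], [nat_lit 37, nat_lit 40, nat_lit 40, nat_lit 80, nat_lit 28, nat_lit 483, nat_lit 250, nat_lit 10]⟩,
 zbF0, [⟨nat_lit 7, nat_lit 89, nat_lit 100, nat_lit 90, nat_lit 300202631⟩, ⟨nat_lit 10, nat_lit 77, nat_lit 67, nat_lit 100, nat_lit 12150849⟩]⟩
noncomputable def p113_l139 : Lf2 := ⟨nat_lit 0, nat_lit 25, [nat_lit 44, nat_lit 5, nat_lit 5, nat_lit 20], false, nat_lit 80, nat_lit 160, nat_lit 160, nat_lit 336, ⟨nat_lit 307, nat_lit 693, nat_lit 0, nat_lit 8, nat_lit 309, nat_lit 693, nat_lit 102, nat_lit 0, nat_lit 0, nat_lit 0, nat_lit 0, nat_lit 0, nat_lit 39081366, nat_lit 23781997, nat_lit 4136637, nat_lit 4514456, true, true⟩,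
 nat_lit 0, nat_lit 0, nat_lit 3717, nat_lit 0, nat_lit 3141, nat_lit 2163, nat_lit 300, nat_lit 0, nat_lit 0, nat_lit 268, nat_lit 0, nat_lit 0, nat_lit 0, nat_lit 0, nat_lit 0, nat_lit 173250, nat_lit 0, nat_lit 0, [(nat_lit 26, [(nat_lit 0, nat_lit 693)])],
 ⟨p113_k18, nat_lit 0, nat_lit 0, nat_lit 134, nat_lit 0, nat_lit 0, [nat_lit 818526801, nat_lit 1956152401, nat_lit 4187546400], [], [nat_lit 26243338856, nat_lit 26496672514, nat_lit 27755236943, nat_lit 28032468502, nat_lit 26510204255, nat_lit 26717806634, nat_lit 27873020788, nat_lit 28088875514], nat_lit 0, nat_lit 0, nat_lit 0, nat_lit 0, nat_lit 0, nat_lit 0, [], [nat_lit 54, nat_lit 40, nat_lit 40, nat_lit 80, nat_lit 43, nat_lit 249, nat_lit 40, nat_lit 7]⟩, ⟨p113_k17, nat_lit 0, nat_lit 0, nat_lit 400, nat_lit 0, nat_lit 508642, [nat_lit 1439216000, nat_lit 2446176000, nat_lit 4315806000], [], [nat_lit 9389861948, nat_lit 9420135816, nat_lit 9808104322,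 nat_lit 9833308752, nat_lit 10031199267, nat_lit 10045558493, nat_lit 10303036121, nat_lit 10318522427], nat_lit 1271250, nat_lit 1271250, nat_lit 1271250, nat_lit 1271250, nat_lit 1100001, nat_lit 2607000, [nat_lit 1100000, nat_lit 1785000, nat_lit 1271250], [nat_lit 37, nat_lit 40, nat_lit 40, nat_lit 80, nat_lit 28, nat_lit 483, nat_lit 250, nat_lit 10]⟩,
 ⟨nat_lit 2500, nat_lit 2739, ⟨.ofNat (nat_lit 744435), .ofNat (nat_lit 797590), .ofNat (nat_lit 750039), .ofNat (nat_lit 803194), .ofNat (nat_lit 741934), .ofNat (nat_lit 794192), .ofNat (nat_lit 747579), .ofNat (nat_lit 799837)⟩, ⟨.ofNat (nat_lit 188310), .ofNat (nat_lit 306433), .ofNat (nat_lit 200000), .ofNat (nat_lit 328850), .ofNat (nat_lit 190321), .ofNat (nat_lit 306450), .ofNat (nat_lit 200000), .ofNat (nat_lit 329031)⟩⟩, [⟨nat_lit 22, nat_lit 79, nat_lit 100, nat_lit 99, nat_lit 50713548⟩, ⟨nat_lit 10, nat_lit 73, nat_lit 73, nat_lit 100, nat_lit 60531475⟩]⟩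
noncomputable def p113_l140 : Lf2 := ⟨nat_lit 0, nat_lit 25, [nat_lit 44, nat_lit 5, nat_lit 5, nat_lit 20], false, nat_lit 80, nat_lit 160, nat_lit 160, nat_lit 332, ⟨nat_lit 368, nat_lit 632, nat_lit 0, nat_lit 8, nat_lit 312, nat_lit 632, nat_lit 102, nat_lit 0, nat_lit 0, nat_lit 0, nat_lit 0, nat_lit 0, nat_lit 38782493, nat_lit 24101907, nat_lit 4115600, nat_lit 4522251, true, true⟩,
 nat_lit 0, nat_lit 0, nat_lit 4047, nat_lit 0, nat_lit 3170, nat_lit 2410, nat_lit 319, nat_lit 0, nat_lit 0, nat_lit 330, nat_lit 0, nat_lit 0, nat_lit 0, nat_lit 0, nat_lit 0, nat_lit 158000, nat_lit 0, nat_lit 0, [(nat_lit 26, [(nat_lit 0, nat_lit 632)])],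
 ⟨p113_k18, nat_lit 0, nat_lit 0, nat_lit 135, nat_lit 0, nat_lit 0, [nat_lit 829043200, nat_lit 2072857601, nat_lit 4520313600], [], [nat_lit 26334034781, nat_lit 26584158530, nat_lit 28014870380, nat_lit 28296835195, nat_lit 26630847011, nat_lit 26839130556, nat_lit 28106517700, nat_lit 28321604525], nat_lit 0, nat_lit 0, nat_lit 0, nat_lit 0, nat_lit 0, nat_lit 0, [], [nat_lit 54, nat_lit 40, nat_lit 40, nat_lit 80, nat_lit 43, nat_lit 249, nat_lit 40, nat_lit 7]⟩, ⟨p113_k48, nat_lit 0, nat_lit 0, nat_lit 404, nat_lit 0, nat_lit 522356, [nat_lit 1725184000, nat_lit 2932224000, nat_lit 5173344000], [], [nat_lit 11322659242, nat_lit 11352461560, nat_lit 11779638761, nat_lit 11809767802, nat_lit 11990452025, nat_lit 12010911834, nat_lit 12403873629, nat_lit 12425872644], nat_lit 1271250, nat_lit 1271250, nat_lit 1271250, nat_lit 1271250, nat_lit 1100001, nat_lit 2572750, [nat_lit 1100000, nat_lit 1785000, nat_lit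 1271250], [nat_lit 37, nat_lit 40, nat_lit 40, nat_lit 80, nat_lit 28, nat_lit 483, nat_lit 250, nat_lit 10]⟩,
 ⟨nat_lit 2500, nat_lit 2739, ⟨.ofNat (nat_lit 750039), .ofNat (nat_lit 809100), .ofNat (nat_lit 755643), .ofNat (nat_lit 814705), .ofNat (nat_lit 747579), .ofNat (nat_lit 805644), .ofNat (nat_lit 753224), .ofNat (nat_lit 811289)⟩, ⟨.ofNat (nat_lit 188310), .ofNat (nat_lit 306433), .ofNat (nat_lit 200000), .ofNat (nat_lit 328850), .ofNat (nat_lit 190321), .ofNat (nat_lit 306450), .ofNat (nat_lit 200000), .ofNat (nat_lit 329031)⟩⟩, [⟨nat_lit 19, nat_lit 100, nat_lit 85, nat_lit 89, nat_lit 26903477⟩, ⟨nat_lit 10, nat_lit 75, nat_lit 72, nat_lit 100, nat_lit 107620768⟩]⟩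
noncomputable def p113_l141 : Lf2 := ⟨nat_lit 0, nat_lit 25, [nat_lit 44, nat_lit 5, nat_lit 5, nat_lit 20], false, nat_lit 80, nat_lit 160, nat_lit 160, nat_lit 328, ⟨nat_lit 1000, nat_lit 0, nat_lit 0, nat_lit 0, nat_lit 0, nat_lit 0, nat_lit 0, nat_lit 0, nat_lit 0, nat_lit 0, nat_lit 0, nat_lit 0, nat_lit 0, nat_lit 0, nat_lit 0, nat_lit 0, false, false⟩,
 nat_lit 0, nat_lit 0, nat_lit 10680, nat_lit 0, nat_lit 4014, nat_lit 6504, nat_lit 516, nat_lit 0, nat_lit 0, nat_lit 896, nat_lit 0, nat_lit 0, nat_lit 0, nat_lit 0, nat_lit 0, nat_lit 0, nat_lit 0, nat_lit 0, [],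
 ⟨p113_k18, nat_lit 0, nat_lit 0, nat_lit 137, nat_lit 0, nat_lit 0, [nat_lit 938000000, nat_lit 3282000000, nat_lit 7968000000], [], [nat_lit 27245978024, nat_lit 27527542756, nat_lit 29966604094, nat_lit 30292345331, nat_lit 27164820244, nat_lit 27397833834, nat_lit 29570517995, nat_lit 29867798015], nat_lit 0, nat_lit 0, nat_lit 0, nat_lit 0, nat_lit 0, nat_lit 0, [], [nat_lit 54, nat_lit 40, nat_lit 40, nat_lit 80, nat_lit 43, nat_lit 249, nat_lit 40, nat_lit 7]⟩, ⟨p113_k41, nat_lit 0, nat_lit 0, nat_lit 420, nat_lit 0, nat_lit 568533, [nat_lit 4688000000, nat_lit 7968000000, nat_lit 14058000000], [], [nat_lit 30314711488, nat_lit 30476937600, nat_lit 31832506396, nat_lit 31989499213, nat_lit 31954260895, nat_lit 32060441031, nat_lit 33309360192, nat_lit 33426347519], nat_lit 1271250, nat_lit 1271250, nat_lit 1271250, nat_lit 1271250, nat_lit 1100001, nat_lit 2538500, [nat_lit 1100000, nat_lit 1785000, nat_lit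 1271250], [nat_lit 37, nat_lit 40, nat_lit 40, nat_lit 80, nat_lit 28, nat_lit 483, nat_lit 250, nat_lit 10]⟩,
 zbF0, [⟨nat_lit 7, nat_lit 89, nat_lit 100, nat_lit 90, nat_lit 299160633⟩]⟩
noncomputable def p113_l142 : Lf2 := ⟨nat_lit 0, nat_lit 25, [nat_lit 44, nat_lit 5, nat_lit 5, nat_lit 20], false, nat_lit 80, nat_lit 160, nat_lit 160, nat_lit 336, ⟨nat_lit 177, nat_lit 823, nat_lit 0, nat_lit 8, nat_lit 307, nat_lit 823, nat_lit 103, nat_lit 0, nat_lit 0, nat_lit 0, nat_lit 0, nat_lit 0, nat_lit 39278140, nat_lit 23558651, nat_lit 4163209, nat_lit 4511116, true, true⟩,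
 nat_lit 0, nat_lit 0, nat_lit 2143, nat_lit 0, nat_lit 4411, nat_lit 1247, nat_lit 0, nat_lit 0, nat_lit 0, nat_lit 155, nat_lit 0, nat_lit 0, nat_lit 0, nat_lit 0, nat_lit 0, nat_lit 205750, nat_lit 0, nat_lit 0, [(nat_lit 26, [(nat_lit 0, nat_lit 823)])],
 ⟨p113_k36, nat_lit 0, nat_lit 0, nat_lit 117, nat_lit 0, nat_lit 0, [nat_lit 796114800, nat_lit 1707436401, nat_lit 2826320000], [], [nat_lit 28263467500, nat_lit 28579501802, nat_lit 29986277509, nat_lit 30344173682, nat_lit 28056034283, nat_lit 28342826724, nat_lit 29522169332, nat_lit 29787195448], nat_lit 0, nat_lit 0, nat_lit 0, nat_lit 0, nat_lit 0, nat_lit 0, [], [nat_lit 20, nat_lit 40, nat_lit 40, nat_lit 80, nat_lit 16, nat_lit 249, nat_lit 40, nat_lit 8]⟩, ⟨p113_k17, nat_lit 0, nat_lit 0, nat_lit 432, nat_lit 0, nat_lit 599334, [nat_lit 829776000, nat_lit 1410336000, nat_lit 2488266000], [], [nat_lit 5407557960, nat_lit 5425012355, nat_lit 5621896812,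 nat_lit 5636753310, nat_lit 5777333444, nat_lit 5785612708, nat_lit 5916644919, nat_lit 5923317049], nat_lit 1271250, nat_lit 1271250, nat_lit 1271250, nat_lit 1271250, nat_lit 1100001, nat_lit 2607000, [nat_lit 1100000, nat_lit 1785000, nat_lit 1271250], [nat_lit 37, nat_lit 40, nat_lit 40, nat_lit 80, nat_lit 28, nat_lit 483, nat_lit 250, nat_lit 10]⟩,
 ⟨nat_lit 2236, nat_lit 2500, ⟨.ofNat (nat_lit 741934), .ofNat (nat_lit 788386), .ofNat (nat_lit 747579), .ofNat (nat_lit 794031), .ofNat (nat_lit 739368), .ofNat (nat_lit 784980), .ofNat (nat_lit 745062), .ofNat (nat_lit 790674)⟩, ⟨.ofNat (nat_lit 190321), .ofNat (nat_lit 306450), .ofNat (nat_lit 200000), .ofNat (nat_lit 329031), .ofNat (nat_lit 192306), .ofNat (nat_lit 306337), .ofNat (nat_lit 200000), .ofNat (nat_lit 329112)⟩⟩, [⟨nat_lit 13, nat_lit 46, nat_lit 76, nat_lit 100, nat_lit 264800389⟩, ⟨nat_lit 10, nat_lit 74, nat_lit 74, nat_lit 100, nat_lit 65453235⟩]⟩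
noncomputable def p113_l143 : Lf2 := ⟨nat_lit 0, nat_lit 25, [nat_lit 44, nat_lit 5, nat_lit 5, nat_lit 20], false, nat_lit 80, nat_lit 160, nat_lit 160, nat_lit 332, ⟨nat_lit 204, nat_lit 796, nat_lit 0, nat_lit 8, nat_lit 309, nat_lit 796, nat_lit 103, nat_lit 0, nat_lit 0, nat_lit 0, nat_lit 0, nat_lit 0, nat_lit 39079246, nat_lit 23771447, nat_lit 4149307, nat_lit 4516623, true, true⟩,
 nat_lit 0, nat_lit 0, nat_lit 2258, nat_lit 0, nat_lit 4491, nat_lit 1344, nat_lit 0, nat_lit 0, nat_lit 0, nat_lit 181, nat_lit 0, nat_lit 0, nat_lit 0, nat_lit 0, nat_lit 0, nat_lit 199000, nat_lit 0, nat_lit 0, [(nat_lit 26, [(nat_lit 0, nat_lit 796)])],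
 ⟨p113_k36, nat_lit 0, nat_lit 0, nat_lit 117, nat_lit 0, nat_lit 0, [nat_lit 800769600, nat_lit 1759092800, nat_lit 2938640000], [], [nat_lit 28382919860, nat_lit 28701836362, nat_lit 30122791029, nat_lit 30484076530, nat_lit 28144118523, nat_lit 28433409444, nat_lit 29620839236, nat_lit 29888060664], nat_lit 0, nat_lit 0, nat_lit 0, nat_lit 0, nat_lit 0, nat_lit 0, [], [nat_lit 20, nat_lit 40, nat_lit 40, nat_lit 80, nat_lit 16, nat_lit 249, nat_lit 40, nat_lit 8]⟩, ⟨p113_k48, nat_lit 0, nat_lit 0, nat_lit 434, nat_lit 0, nat_lit 608752, [nat_lit 956352000, nat_lit 1625472000, nat_lit 2867832000], [], [nat_lit 6281305938, nat_lit 6297803838, nat_lit 6484067189, nat_lit 6501452246, nat_lit 6658147118, nat_lit 6668597615, nat_lit 6817139194, nat_lit 6826992008], nat_lit 1271250, nat_lit 1271250, nat_lit 1271250, nat_lit 1271250, nat_lit 1100001, nat_lit 2572750, [nat_lit 1100000, nat_lit 1785000, nat_lit 1271250],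 [nat_lit 37, nat_lit 40, nat_lit 40, nat_lit 80, nat_lit 28, nat_lit 483, nat_lit 250, nat_lit 10]⟩,
 ⟨nat_lit 2236, nat_lit 2500, ⟨.ofNat (nat_lit 747579), .ofNat (nat_lit 794031), .ofNat (nat_lit 753224), .ofNat (nat_lit 799676), .ofNat (nat_lit 745062), .ofNat (nat_lit 790674), .ofNat (nat_lit 750755), .ofNat (nat_lit 796368)⟩, ⟨.ofNat (nat_lit 190321), .ofNat (nat_lit 306450), .ofNat (nat_lit 200000), .ofNat (nat_lit 329031), .ofNat (nat_lit 192306), .ofNat (nat_lit 306337), .ofNat (nat_lit 200000), .ofNat (nat_lit 329112)⟩⟩, [⟨nat_lit 13, nat_lit 46, nat_lit 75, nat_lit 100, nat_lit 231628525⟩, ⟨nat_lit 10, nat_lit 76, nat_lit 74, nat_lit 100, nat_lit 75331255⟩]⟩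
noncomputable def p113_l144 : Lf2 := ⟨nat_lit 0, nat_lit 25, [nat_lit 44, nat_lit 5, nat_lit 5, nat_lit 20], false, nat_lit 80, nat_lit 160, nat_lit 160, nat_lit 328, ⟨nat_lit 335, nat_lit 665, nat_lit 0, nat_lit 8, nat_lit 312, nat_lit 665, nat_lit 103, nat_lit 0, nat_lit 0, nat_lit 0, nat_lit 0, nat_lit 0, nat_lit 38780705, nat_lit 24091069, nat_lit 4128226, nat_lit 4524415, true, true⟩,
 nat_lit 0, nat_lit 0, nat_lit 3617, nat_lit 0, nat_lit 3105, nat_lit 2202, nat_lit 240, nat_lit 0, nat_lit 0, nat_lit 303, nat_lit 0, nat_lit 0, nat_lit 0, nat_lit 0, nat_lit 0, nat_lit 166250, nat_lit 0, nat_lit 0, [(nat_lit 26, [(nat_lit 0, nat_lit 665)])],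
 ⟨p113_k36, nat_lit 0, nat_lit 0, nat_lit 118, nat_lit 0, nat_lit 0, [nat_lit 823354000, nat_lit 2009722001, nat_lit 3483600000], [], [nat_lit 26328561723, nat_lit 26597544110, nat_lit 27970083157, nat_lit 28269446380, nat_lit 26659529881, nat_lit 26879217820, nat_lit 28088202660, nat_lit 28317874269], nat_lit 0, nat_lit 0, nat_lit 0, nat_lit 0, nat_lit 0, nat_lit 0, [], [nat_lit 20, nat_lit 40, nat_lit 40, nat_lit 80, nat_lit 16, nat_lit 249, nat_lit 40, nat_lit 8]⟩, ⟨p113_k41, nat_lit 0, nat_lit 0, nat_lit 437, nat_lit 0, nat_lit 618674, [nat_lit 1570480000, nat_lit 2669280000, nat_lit 4709430000], [], [nat_lit 10051715194, nat_lit 10078821807, nat_lit 10428820487, nat_lit 10456802590, nat_lit 10619993986, nat_lit 10637627131, nat_lit 10951608658, nat_lit 10972491918], nat_lit 1271250, nat_lit 1271250, nat_lit 1271250, nat_lit 1271250, nat_lit 1100001, nat_lit 2538500, [nat_lit 1100000, nat_lit 1785000, nat_lit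 1271250], [nat_lit 37, nat_lit 40, nat_lit 40, nat_lit 80, nat_lit 28, nat_lit 483, nat_lit 250, nat_lit 10]⟩,
 ⟨nat_lit 2236, nat_lit 2500, ⟨.ofNat (nat_lit 753224), .ofNat (nat_lit 805482), .ofNat (nat_lit 758869), .ofNat (nat_lit 811128), .ofNat (nat_lit 750755), .ofNat (nat_lit 802069), .ofNat (nat_lit 756449), .ofNat (nat_lit 807763)⟩, ⟨.ofNat (nat_lit 190321), .ofNat (nat_lit 306450), .ofNat (nat_lit 200000), .ofNat (nat_lit 329031), .ofNat (nat_lit 192306), .ofNat (nat_lit 306337), .ofNat (nat_lit 200000), .ofNat (nat_lit 329112)⟩⟩, [⟨nat_lit 13, nat_lit 47, nat_lit 74, nat_lit 100, nat_lit 22574578⟩, ⟨nat_lit 10, nat_lit 77, nat_lit 73, nat_lit 100, nat_lit 124819084⟩]⟩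
noncomputable def p113_l145 : Lf2 := ⟨nat_lit 0, nat_lit 25, [nat_lit 44, nat_lit 5, nat_lit 5, nat_lit 20], false, nat_lit 80, nat_lit 160, nat_lit 160, nat_lit 324, ⟨nat_lit 443, nat_lit 557, nat_lit 0, nat_lit 8, nat_lit 316, nat_lit 557, nat_lit 103, nat_lit 0, nat_lit 0, nat_lit 0, nat_lit 0, nat_lit 0, nat_lit 38483728, nat_lit 24409270, nat_lit 4107002, nat_lit 4531605, true, true⟩,
 nat_lit 0, nat_lit 0, nat_lit 4753, nat_lit 0, nat_lit 3204, nat_lit 2959, nat_lit 267, nat_lit 0, nat_lit 0, nat_lit 433, nat_lit 0, nat_lit 0, nat_lit 0, nat_lit 0, nat_lit 0, nat_lit 139250, nat_lit 0, nat_lit 0, [(nat_lit 26, [(nat_lit 0, nat_lit 557)])],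
 ⟨p113_k36, nat_lit 0, nat_lit 0, nat_lit 119, nat_lit 0, nat_lit 0, [nat_lit 841973201, nat_lit 2216347600, nat_lit 3932880000], [], [nat_lit 26508146143, nat_lit 26780695253, nat_lit 28356655934, nat_lit 28656866136, nat_lit 26799167950, nat_lit 27023076061, nat_lit 28407009241, nat_lit 28640078632], nat_lit 0, nat_lit 0, nat_lit 0, nat_lit 0, nat_lit 0, nat_lit 0, [], [nat_lit 20, nat_lit 40, nat_lit 40, nat_lit 80, nat_lit 16, nat_lit 249, nat_lit 40, nat_lit 8]⟩, ⟨p113_k49, nat_lit 0, nat_lit 0, nat_lit 440, nat_lit 0, nat_lit 629116, [nat_lit 2076784000, nat_lit 3529824000, nat_lit 6227694000], [], [nat_lit 12686133157, nat_lit 12731971454, nat_lit 13295853549, nat_lit 13334547982, nat_lit 13553664658, nat_lit 13580043590, nat_lit 13976116289, nat_lit 14005778706], nat_lit 1271250, nat_lit 1271250, nat_lit 1271250, nat_lit 1271250, nat_lit 1100001, nat_lit 2504250, [nat_lit 1100000, nat_lit 1785000, nat_lit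 1271250], [nat_lit 37, nat_lit 40, nat_lit 40, nat_lit 80, nat_lit 28, nat_lit 483, nat_lit 250, nat_lit 10]⟩,
 ⟨nat_lit 2236, nat_lit 2500, ⟨.ofNat (nat_lit 758869), .ofNat (nat_lit 816934), .ofNat (nat_lit 764515), .ofNat (nat_lit 822579), .ofNat (nat_lit 756449), .ofNat (nat_lit 813464), .ofNat (nat_lit 762142), .ofNat (nat_lit 819158)⟩, ⟨.ofNat (nat_lit 190321), .ofNat (nat_lit 306450), .ofNat (nat_lit 200000), .ofNat (nat_lit 329031), .ofNat (nat_lit 192306), .ofNat (nat_lit 306337), .ofNat (nat_lit 200000), .ofNat (nat_lit 329112)⟩⟩, [⟨nat_lit 13, nat_lit 47, nat_lit 72, nat_lit 100, nat_lit 153697770⟩, ⟨nat_lit 7, nat_lit 90, nat_lit 100, nat_lit 91, nat_lit 132042345⟩]⟩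
noncomputable def p113_l146 : Lf2 := ⟨nat_lit 0, nat_lit 30, [nat_lit 15, nat_lit 5, nat_lit 5, nat_lit 20], false, nat_lit 80, nat_lit 160, nat_lit 0, nat_lit 336, ⟨nat_lit 1000, nat_lit 0, nat_lit 0, nat_lit 0, nat_lit 0, nat_lit 0, nat_lit 0, nat_lit 0, nat_lit 0, nat_lit 0, nat_lit 0, nat_lit 0, nat_lit 0, nat_lit 0, nat_lit 0, nat_lit 0, false, false⟩,
 nat_lit 0, nat_lit 0, nat_lit 12356, nat_lit 0, nat_lit 5104, nat_lit 7192, nat_lit 552, nat_lit 0, nat_lit 0, nat_lit 896, nat_lit 0, nat_lit 0, nat_lit 0, nat_lit 0, nat_lit 0, nat_lit 0, nat_lit 0, nat_lit 0, [],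
 ⟨p113_k14, nat_lit 0, nat_lit 0, nat_lit 158, nat_lit 0, nat_lit 0, [nat_lit 938000000, nat_lit 3282000000, nat_lit 9842000000], [], [nat_lit 28081044336, nat_lit 28664337280, nat_lit 31775163815, nat_lit 32494331188, nat_lit 27526141328, nat_lit 28005532368, nat_lit 30864712711, nat_lit 31518430938], nat_lit 0, nat_lit 0, nat_lit 0, nat_lit 0, nat_lit 0, nat_lit 0, [], [nat_lit 93, nat_lit 40, nat_lit 40, nat_lit 80, nat_lit 63, nat_lit 249, nat_lit 40, nat_lit 6]⟩, ⟨p113_k15, nat_lit 0, nat_lit 0, nat_lit 440, nat_lit 0, nat_lit 335371, [nat_lit 4688000000, nat_lit 7968000000, nat_lit 14058000000], [], [nat_lit 35759314528, nat_lit 36235486112, nat_lit 38695538141, nat_lit 39211283924, nat_lit 32103612135, nat_lit 32286675047, nat_lit 34004706573, nat_lit 34228484621], nat_lit 1271250, nat_lit 1271250, nat_lit 1271250, nat_lit 1271250, nat_lit 0, nat_lit 2373000, [nat_lit 1100000, nat_lit 1785000, nat_lit 1271250],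 [nat_lit 37, nat_lit 40, nat_lit 40, nat_lit 80, nat_lit 28, nat_lit 483, nat_lit 250, nat_lit 11]⟩,
 zbF0, [⟨nat_lit 7, nat_lit 78, nat_lit 100, nat_lit 95, nat_lit 23150196⟩, ⟨nat_lit 22, nat_lit 82, nat_lit 76, nat_lit 100, nat_lit 113774512⟩]⟩
noncomputable def p113_l147 : Lf2 := ⟨nat_lit 0, nat_lit 30, [nat_lit 15, nat_lit 5, nat_lit 5, nat_lit 20], false, nat_lit 80, nat_lit 160, nat_lit 0, nat_lit 160, ⟨nat_lit 1000, nat_lit 0, nat_lit 0, nat_lit 0, nat_lit 0, nat_lit 0, nat_lit 0, nat_lit 0, nat_lit 0, nat_lit 0, nat_lit 0, nat_lit 0, nat_lit 0, nat_lit 0, nat_lit 0, nat_lit 0, false, false⟩,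
 nat_lit 0, nat_lit 0, nat_lit 12309, nat_lit 0, nat_lit 4087, nat_lit 7164, nat_lit 473, nat_lit 0, nat_lit 0, nat_lit 958, nat_lit 0, nat_lit 0, nat_lit 0, nat_lit 0, nat_lit 0, nat_lit 0, nat_lit 0, nat_lit 0, [],
 ⟨p113_k12, nat_lit 0, nat_lit 0, nat_lit 138, nat_lit 0, nat_lit 0, [nat_lit 938000000, nat_lit 3282000000, nat_lit 7968000000], [], [nat_lit 27808647042, nat_lit 28376497854, nat_lit 30096623839, nat_lit 30753867444, nat_lit 27721216802, nat_lit 28190774992, nat_lit 29722599508, nat_lit 30264902586], nat_lit 0, nat_lit 0, nat_lit 0, nat_lit 0, nat_lit 0, nat_lit 0, [], [nat_lit 54, nat_lit 40, nat_lit 40, nat_lit 80, nat_lit 43, nat_lit 249, nat_lit 40, nat_lit 7]⟩, ⟨p113_k15, nat_lit 0, nat_lit 0, nat_lit 544, nat_lit 0, nat_lit 504435, [nat_lit 4688000000, nat_lit 7968000000, nat_lit 14058000000], [], [nat_lit 35902341152, nat_lit 36210481072, nat_lit 37546471234, nat_lit 37958610282, nat_lit 31191069368,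 nat_lit 31521096736, nat_lit 32725120661, nat_lit 32983208740], nat_lit 1271250, nat_lit 1271250, nat_lit 1271250, nat_lit 1271250, nat_lit 0, nat_lit 1100001, [nat_lit 1100000, nat_lit 1785000, nat_lit 1271250], [nat_lit 37, nat_lit 40, nat_lit 40, nat_lit 80, nat_lit 28, nat_lit 456, nat_lit 225, nat_lit 10]⟩,
 zbF0, []⟩
noncomputable def p113_l148 : Lf2 := ⟨nat_lit 0, nat_lit 30, [nat_lit 15, nat_lit 5, nat_lit 5, nat_lit 20], false, nat_lit 80, nat_lit 160, nat_lit 160, nat_lit 336, ⟨nat_lit 1000, nat_lit 0, nat_lit 0, nat_lit 0, nat_lit 0, nat_lit 0, nat_lit 0, nat_lit 0, nat_lit 0, nat_lit 0, nat_lit 0, nat_lit 0, nat_lit 0, nat_lit 0, nat_lit 0, nat_lit 0, false, false⟩,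
 nat_lit 0, nat_lit 0, nat_lit 10197, nat_lit 0, nat_lit 5212, nat_lit 5935, nat_lit 401, nat_lit 0, nat_lit 0, nat_lit 957, nat_lit 0, nat_lit 0, nat_lit 0, nat_lit 0, nat_lit 0, nat_lit 0, nat_lit 0, nat_lit 0, [],
 ⟨p113_k12, nat_lit 0, nat_lit 0, nat_lit 135, nat_lit 0, nat_lit 0, [nat_lit 938000000, nat_lit 3282000000, nat_lit 7968000000], [], [nat_lit 28790115042, nat_lit 29207202032, nat_lit 31507259996, nat_lit 31889598402, nat_lit 28207152414, nat_lit 28502667478, nat_lit 30587498884, nat_lit 30934307790], nat_lit 0, nat_lit 0, nat_lit 0, nat_lit 0, nat_lit 0, nat_lit 0, [], [nat_lit 54, nat_lit 40, nat_lit 40, nat_lit 80, nat_lit 43, nat_lit 249, nat_lit 40, nat_lit 7]⟩, ⟨p113_k15, nat_lit 0, nat_lit 0, nat_lit 284, nat_lit 0, nat_lit 351899, [nat_lit 4688000000, nat_lit 7968000000, nat_lit 14058000000], [], [nat_lit 28978198140, nat_lit 29220633170, nat_lit 30626377830, nat_lit 30831989205, nat_lit 31888798371,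 nat_lit 32057189904, nat_lit 33361764433, nat_lit 33548529424], nat_lit 1271250, nat_lit 1271250, nat_lit 1271250, nat_lit 1271250, nat_lit 1100001, nat_lit 2607000, [nat_lit 1100000, nat_lit 1785000, nat_lit 1271250], [nat_lit 37, nat_lit 40, nat_lit 40, nat_lit 80, nat_lit 28, nat_lit 483, nat_lit 250, nat_lit 10]⟩,
 zbF0, [⟨nat_lit 22, nat_lit 82, nat_lit 76, nat_lit 100, nat_lit 376672371⟩]⟩
noncomputable def p113_l149 : Lf2 := ⟨nat_lit 0, nat_lit 30, [nat_lit 15, nat_lit 5, nat_lit 5, nat_lit 20], false, nat_lit 80, nat_lit 160, nat_lit 160, nat_lit 336, ⟨nat_lit 497, nat_lit 503, nat_lit 0, nat_lit 8, nat_lit 308, nat_lit 503, nat_lit 108, nat_lit 0, nat_lit 0, nat_lit 0, nat_lit 0, nat_lit 0, nat_lit 38957538, nat_lit 23564532, nat_lit 4477930, nat_lit 4574007, true, true⟩,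
 nat_lit 0, nat_lit 0, nat_lit 6171, nat_lit 0, nat_lit 2968, nat_lit 3591, nat_lit 398, nat_lit 0, nat_lit 0, nat_lit 450, nat_lit 0, nat_lit 0, nat_lit 0, nat_lit 0, nat_lit 0, nat_lit 125750, nat_lit 0, nat_lit 0, [(nat_lit 26, [(nat_lit 0, nat_lit 503)])],
 ⟨p113_k40, nat_lit 0, nat_lit 0, nat_lit 134, nat_lit 0, nat_lit 0, [nat_lit 851282800, nat_lit 2319660400, nat_lit 5224034400], [], [nat_lit 25926544172, nat_lit 26175431056, nat_lit 27523914892, nat_lit 27820676061, nat_lit 26225662124, nat_lit 26444220476, nat_lit 27679843487, nat_lit 27951804794], nat_lit 0, nat_lit 0, nat_lit 0, nat_lit 0, nat_lit 0, nat_lit 0, [], [nat_lit 54, nat_lit 40, nat_lit 40, nat_lit 80, nat_lit 43, nat_lit 249, nat_lit 40, nat_lit 7]⟩, ⟨p113_k15, nat_lit 0, nat_lit 0, nat_lit 375, nat_lit 0, nat_lit 439695, [nat_lit 2329936000, nat_lit 3960096000, nat_lit 6986826000], [], [nat_lit 14843460952, nat_lit 14941281206, nat_lit 15451163208,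 nat_lit 15534090722, nat_lit 15863980033, nat_lit 15910505073, nat_lit 16382860900, nat_lit 16454837709], nat_lit 1271250, nat_lit 1271250, nat_lit 1271250, nat_lit 1271250, nat_lit 1100001, nat_lit 2607000, [nat_lit 1100000, nat_lit 1785000, nat_lit 1271250], [nat_lit 37, nat_lit 40, nat_lit 40, nat_lit 80, nat_lit 28, nat_lit 483, nat_lit 250, nat_lit 10]⟩,
 ⟨nat_lit 2236, nat_lit 2500, ⟨.ofNat (nat_lit 741934), .ofNat (nat_lit 788386), .ofNat (nat_lit 753224), .ofNat (nat_lit 799676), .ofNat (nat_lit 739368), .ofNat (nat_lit 784980), .ofNat (nat_lit 750755), .ofNat (nat_lit 796368)⟩, ⟨.ofNat (nat_lit 200000), .ofNat (nat_lit 329031), .ofNat (nat_lit 200000), .ofNat (nat_lit 351611), .ofNat (nat_lit 200000), .ofNat (nat_lit 329112), .ofNat (nat_lit 200000), .ofNat (nat_lit 351886)⟩⟩, [⟨nat_lit 19, nat_lit 100, nat_lit 76, nat_lit 94, nat_lit 14326822⟩, ⟨nat_lit 22, nat_lit 82, nat_lit 76, nat_lit 100, nat_lit 153871612⟩]⟩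
noncomputable def p113_l150 : Lf2 := ⟨nat_lit 0, nat_lit 30, [nat_lit 15, nat_lit 5, nat_lit 5, nat_lit 20], false, nat_lit 80, nat_lit 160, nat_lit 160, nat_lit 336, ⟨nat_lit 1000, nat_lit 0, nat_lit 0, nat_lit 0, nat_lit 0, nat_lit 0, nat_lit 0, nat_lit 0, nat_lit 0, nat_lit 0, nat_lit 0, nat_lit 0, nat_lit 0, nat_lit 0, nat_lit 0, nat_lit 0, false, false⟩,
 nat_lit 0, nat_lit 0, nat_lit 10990, nat_lit 0, nat_lit 3968, nat_lit 6693, nat_lit 526, nat_lit 0, nat_lit 0, nat_lit 927, nat_lit 0, nat_lit 0, nat_lit 0, nat_lit 0, nat_lit 0, nat_lit 0, nat_lit 0, nat_lit 0, [],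
 ⟨p113_k12, nat_lit 0, nat_lit 0, nat_lit 138, nat_lit 0, nat_lit 0, [nat_lit 938000000, nat_lit 3282000000, nat_lit 7968000000], [], [nat_lit 27113986588, nat_lit 27718023056, nat_lit 29884673844, nat_lit 30532526016, nat_lit 27074071728, nat_lit 27537873888, nat_lit 29510790298, nat_lit 30102174893], nat_lit 0, nat_lit 0, nat_lit 0, nat_lit 0, nat_lit 0, nat_lit 0, [], [nat_lit 54, nat_lit 40, nat_lit 40, nat_lit 80, nat_lit 43, nat_lit 249, nat_lit 40, nat_lit 7]⟩, ⟨p113_k28, nat_lit 0, nat_lit 0, nat_lit 386, nat_lit 0, nat_lit 471495, [nat_lit 4688000000, nat_lit 7968000000, nat_lit 14058000000], [], [nat_lit 29355880046, nat_lit 29517024700, nat_lit 31088667519, nat_lit 31244272018, nat_lit 31450787480, nat_lit 31593771795, nat_lit 33058023227, nat_lit 33178293336], nat_lit 1271250, nat_lit 1271250, nat_lit 1271250, nat_lit 1271250, nat_lit 1100001, nat_lit 2607000, [nat_lit 1100000, nat_lit 1785000, nat_lit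 1271250], [nat_lit 37, nat_lit 40, nat_lit 40, nat_lit 80, nat_lit 28, nat_lit 483, nat_lit 250, nat_lit 10]⟩,
 zbF0, [⟨nat_lit 19, nat_lit 100, nat_lit 81, nat_lit 96, nat_lit 256527519⟩, ⟨nat_lit 22, nat_lit 82, nat_lit 76, nat_lit 100, nat_lit 45121047⟩]⟩
noncomputable def b_V_900_600_20_36 : St := ⟨true, nat_lit 0, nat_lit 1, nat_lit 1, nat_lit 120, nat_lit 360, nat_lit 380, nat_lit 260, nat_lit 280, nat_lit 320, nat_lit 376, nat_lit 80, nat_lit 120, nat_lit 80, nat_lit 160, nat_lit 0, nat_lit 336, nat_lit 80, nat_lit 120, nat_lit 0, nat_lit 0, nat_lit 0, nat_lit 0⟩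
theorem d_V_900_600_20_36 (h : EB TB.env) : Dead b_V_900_600_20_36 := chkB_sound0 h (T :=
(.spl (nat_lit 3) (nat_lit 100)
(.spl (nat_lit 5) (nat_lit 160)
(.spl (nat_lit 0) (nat_lit 370)
(.leaf p113_l135)
(.trX (nat_lit 13) (nat_lit 57) (nat_lit 62) (nat_lit 100) (nat_lit 368) (.leaf p113_l136)))
(.spl (nat_lit 0) (nat_lit 370)
(.spl (nat_lit 1) (nat_lit 270)
(.trX (nat_lit 13) (nat_lit 64) (nat_lit 58) (nat_lit 100) (nat_lit 372) (.leaf p113_l137))
(.trX (nat_lit 19) (nat_lit 100) (nat_lit 82) (nat_lit 92) (nat_lit 328) (.leaf p113_l138)))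
(.trX (nat_lit 13) (nat_lit 57) (nat_lit 62) (nat_lit 100) (nat_lit 368) (.spl (nat_lit 0) (nat_lit 375)
(.spl (nat_lit 1) (nat_lit 270)
(.trX (nat_lit 13) (nat_lit 56) (nat_lit 65) (nat_lit 100) (nat_lit 360) (.spl (nat_lit 1) (nat_lit 265)
(.trX (nat_lit 13) (nat_lit 56) (nat_lit 67) (nat_lit 100) (nat_lit 356) (.leaf p113_l139))
(.trX (nat_lit 19) (nat_lit 100) (nat_lit 80) (nat_lit 92) (nat_lit 332) (.leaf p113_l140))))
(.trX (nat_lit 19) (nat_lit 100) (nat_lit 82) (nat_lit 92) (nat_lit 328) (.leaf p113_l141)))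
(.trX (nat_lit 13) (nat_lit 53) (nat_lit 66) (nat_lit 100) (nat_lit 360) (.spl (nat_lit 1) (nat_lit 270)
(.trX (nat_lit 13) (nat_lit 52) (nat_lit 69) (nat_lit 100) (nat_lit 352) (.spl (nat_lit 1) (nat_lit 265)
(.leaf p113_l142)
(.trX (nat_lit 19) (nat_lit 100) (nat_lit 80) (nat_lit 92) (nat_lit 332) (.leaf p113_l143))))
(.trX (nat_lit 19) (nat_lit 100) (nat_lit 82) (nat_lit 92) (nat_lit 328) (.spl (nat_lit 1) (nat_lit 275)
(.trX (nat_lit 13) (nat_lit 52) (nat_lit 68) (nat_lit 100) (nat_lit 356) (.leaf p113_l144))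
(.trX (nat_lit 19) (nat_lit 100) (nat_lit 85) (nat_lit 93) (nat_lit 324) (.leaf p113_l145))))))))))
(.spl (nat_lit 0) (nat_lit 370)
(.leaf p113_l146)
(.trX (nat_lit 13) (nat_lit 57) (nat_lit 62) (nat_lit 100) (nat_lit 368) (.spl (nat_lit 5) (nat_lit 160)
(.leaf p113_l147)
(.spl (nat_lit 1) (nat_lit 270)
(.trX (nat_lit 13) (nat_lit 56) (nat_lit 65) (nat_lit 100) (nat_lit 360) (.spl (nat_lit 0) (nat_lit 375)
(.leaf p113_l148)
(.trX (nat_lit 13) (nat_lit 52) (nat_lit 69) (nat_lit 100) (nat_lit 352) (.leaf p113_l149))))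
(.leaf p113_l150))))))) (by decide +kernel)

end B2
end Pool.Agent.Lib.MP_6947cd_al
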