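import Pool.Agent.Lib.MP_6947cd_al.ZB.Pre

/-!
Problem MP_6947cd_al (Chollet).  Case B, second entry in [2/5, 17/20]: certificates of the tree, part P114 (generated).
-/

set_option autoImplicit false
set_option linter.all false

namespace Pool.Agent.Lib.MP_6947cd_al
namespace B2

open Ent Fr B1 PkA

noncomputable def p114_k0 : C1.Kn := ⟨[nat_lit 20, nat_lit 60, nat_lit 100], [nat_lit 0, nat_lit 1415, nat_lit 3591], [(nat_lit 0, nat_lit 0, nat_lit 0), (nat_lit 1000, nat_lit 558, nat_lit 551), (nat_lit 1000, nat_lit 439, nat_lit 849)], (nat_lit 44, nat_lit 100, nat_lit 87)⟩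
noncomputable def p114_k1 : C1.Kn := ⟨[nat_lit 80, nat_lit 120, nat_lit 180], [nat_lit 0, nat_lit 0, nat_lit 3196], [(nat_lit 0, nat_lit 0, nat_lit 0), (nat_lit 0, nat_lit 0, nat_lit 0), (nat_lit 858, nat_lit 1000, nat_lit 713)], (nat_lit 100, nat_lit 68, nat_lit 88)⟩
noncomputable def p114_k2 : C1.Kn := ⟨[nat_lit 20, nat_lit 60, nat_lit 80], [nat_lit 0, nat_lit 2136, nat_lit 3185], [(nat_lit 0, nat_lit 0, nat_lit 0), (nat_lit 1000, nat_lit 343, nat_lit 808), (nat_lit 1000, nat_lit 338, nat_lit 820)], (nat_lit 32, nat_lit 100, nat_lit 88)⟩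
noncomputable def p114_k3 : C1.Kn := ⟨[nat_lit 80, nat_lit 120, nat_lit 180], [nat_lit 0, nat_lit 528, nat_lit 3600], [(nat_lit 0, nat_lit 0, nat_lit 0), (nat_lit 1000, nat_lit 959, nat_lit 206), (nat_lit 929, nat_lit 1000, nat_lit 742)], (nat_lit 100, nat_lit 77, nat_lit 91)⟩
noncomputable def p114_k4 : C1.Kn := ⟨[nat_lit 20, nat_lit 60, nat_lit 120], [nat_lit 0, nat_lit 1415, nat_lit 4677], [(nat_lit 0, nat_lit 0, nat_lit 0), (nat_lit 1000, nat_lit 558, nat_lit 551), (nat_lit 1000, nat_lit 439, nat_lit 849)], (nat_lit 44, nat_lit 100, nat_lit 92)⟩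
noncomputable def p114_k5 : C1.Kn := ⟨[nat_lit 80, nat_lit 120, nat_lit 200], [nat_lit 0, nat_lit 0, nat_lit 4259], [(nat_lit 0, nat_lit 0, nat_lit 0), (nat_lit 0, nat_lit 0, nat_lit 0), (nat_lit 858, nat_lit 1000, nat_lit 713)], (nat_lit 0, nat_lit 0, nat_lit 0)⟩
noncomputable def p114_k6 : C1.Kn := ⟨[nat_lit 80, nat_lit 120, nat_lit 180], [nat_lit 0, nat_lit 264, nat_lit 3394], [(nat_lit 0, nat_lit 0, nat_lit 0), (nat_lit 1000, nat_lit 979, nat_lit 103), (nat_lit 893, nat_lit 1000, nat_lit 726)], (nat_lit 100, nat_lit 64, nat_lit 95)⟩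
noncomputable def p114_k7 : C1.Kn := ⟨[nat_lit 20, nat_lit 60, nat_lit 100], [nat_lit 0, nat_lit 2136, nat_lit 4235], [(nat_lit 0, nat_lit 0, nat_lit 0), (nat_lit 1000, nat_lit 343, nat_lit 808), (nat_lit 1000, nat_lit 338, nat_lit 820)], (nat_lit 31, nat_lit 100, nat_lit 92)⟩
noncomputable def p114_k8 : C1.Kn := ⟨[nat_lit 80, nat_lit 120, nat_lit 180], [nat_lit 0, nat_lit 528, nat_lit 3600], [(nat_lit 0, nat_lit 0, nat_lit 0), (nat_lit 1000, nat_lit 959, nat_lit 206), (nat_lit 929, nat_lit 1000, nat_lit 742)], (nat_lit 100, nat_lit 69, nat_lit 96)⟩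
noncomputable def p114_k9 : C1.Kn := ⟨[nat_lit 80, nat_lit 120, nat_lit 180], [nat_lit 0, nat_lit 796, nat_lit 3804], [(nat_lit 0, nat_lit 0, nat_lit 0), (nat_lit 1000, nat_lit 938, nat_lit 310), (nat_lit 969, nat_lit 1000, nat_lit 759)], (nat_lit 100, nat_lit 74, nat_lit 98)⟩
noncomputable def p114_k10 : C1.Kn := ⟨[nat_lit 20, nat_lit 60, nat_lit 100], [nat_lit 0, nat_lit 1776, nat_lit 3880], [(nat_lit 0, nat_lit 0, nat_lit 0), (nat_lit 1000, nat_lit 445, nat_lit 693), (nat_lit 1000, nat_lit 394, nat_lit 822)], (nat_lit 38, nat_lit 100, nat_lit 92)⟩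
noncomputable def p114_k11 : C1.Kn := ⟨[nat_lit 20, nat_lit 60, nat_lit 100], [nat_lit 0, nat_lit 1990, nat_lit 4061], [(nat_lit 0, nat_lit 0, nat_lit 0), (nat_lit 1000, nat_lit 380, nat_lit 773), (nat_lit 1000, nat_lit 365, nat_lit 809)], (nat_lit 34, nat_lit 100, nat_lit 92)⟩
noncomputable def p114_k12 : C1.Kn := ⟨[nat_lit 80, nat_lit 120, nat_lit 180], [nat_lit 0, nat_lit 264, nat_lit 3394], [(nat_lit 0, nat_lit 0, nat_lit 0), (nat_lit 1000, nat_lit 979, nat_lit 103), (nat_lit 893, nat_lit 1000, nat_lit 726)], (nat_lit 100, nat_lit 72, nat_lit 89)⟩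
noncomputable def p114_k13 : C1.Kn := ⟨[nat_lit 80, nat_lit 120, nat_lit 180], [nat_lit 0, nat_lit 796, nat_lit 3804], [(nat_lit 0, nat_lit 0, nat_lit 0), (nat_lit 1000, nat_lit 938, nat_lit 310), (nat_lit 969, nat_lit 1000, nat_lit 759)], (nat_lit 100, nat_lit 82, nat_lit 92)⟩
noncomputable def p114_k14 : C1.Kn := ⟨[nat_lit 20, nat_lit 80, nat_lit 120], [nat_lit 0, nat_lit 2121, nat_lit 4818], [(nat_lit 0, nat_lit 0, nat_lit 0), (nat_lit 1000, nat_lit 558, nat_lit 551), (nat_lit 1000, nat_lit 443, nat_lit 981)], (nat_lit 44, nat_lit 100, nat_lit 92)⟩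
noncomputable def p114_k15 : C1.Kn := ⟨[nat_lit 80, nat_lit 140, nat_lit 180], [nat_lit 0, nat_lit 395, nat_lit 3941], [(nat_lit 0, nat_lit 0, nat_lit 0), (nat_lit 1000, nat_lit 979, nat_lit 103), (nat_lit 672, nat_lit 1000, nat_lit 927)], (nat_lit 100, nat_lit 64, nat_lit 95)⟩
noncomputable def p114_k16 : C1.Kn := ⟨[nat_lit 80, nat_lit 140, nat_lit 180], [nat_lit 0, nat_lit 592, nat_lit 4084], [(nat_lit 0, nat_lit 0, nat_lit 0), (nat_lit 1000, nat_lit 969, nat_lit 154), (nat_lit 690, nat_lit 1000, nat_lit 938)], (nat_lit 100, nat_lit 66, nat_lit 95)⟩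
noncomputable def p114_k17 : C1.Kn := ⟨[nat_lit 20, nat_lit 80, nat_lit 100], [nat_lit 0, nat_lit 2663, nat_lit 3968], [(nat_lit 0, nat_lit 0, nat_lit 0), (nat_lit 1000, nat_lit 445, nat_lit 693), (nat_lit 1000, nat_lit 380, nat_lit 921)], (nat_lit 38, nat_lit 100, nat_lit 92)⟩
noncomputable def p114_k18 : C1.Kn := ⟨[nat_lit 80, nat_lit 140, nat_lit 200], [nat_lit 0, nat_lit 0, nat_lit 5481], [(nat_lit 0, nat_lit 0, nat_lit 0), (nat_lit 0, nat_lit 0, nat_lit 0), (nat_lit 637, nat_lit 1000, nat_lit 908)], (nat_lit 0, nat_lit 0, nat_lit 0)⟩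
noncomputable def p114_k19 : C1.Kn := ⟨[nat_lit 80, nat_lit 140, nat_lit 180], [nat_lit 0, nat_lit 792, nat_lit 4228], [(nat_lit 0, nat_lit 0, nat_lit 0), (nat_lit 1000, nat_lit 959, nat_lit 206), (nat_lit 709, nat_lit 1000, nat_lit 949)], (nat_lit 100, nat_lit 69, nat_lit 96)⟩
noncomputable def p114_k20 : C1.Kn := ⟨[nat_lit 80, nat_lit 140, nat_lit 180], [nat_lit 0, nat_lit 1192, nat_lit 4513], [(nat_lit 0, nat_lit 0, nat_lit 0), (nat_lit 1000, nat_lit 938, nat_lit 310), (nat_lit 752, nat_lit 1000, nat_lit 973)], (nat_lit 100, nat_lit 74, nat_lit 98)⟩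
noncomputable def p114_k21 : C1.Kn := ⟨[nat_lit 20, nat_lit 80, nat_lit 100], [nat_lit 0, nat_lit 3199, nat_lit 4400], [(nat_lit 0, nat_lit 0, nat_lit 0), (nat_lit 1000, nat_lit 333, nat_lit 833), (nat_lit 1000, nat_lit 312, nat_lit 938)], (nat_lit 31, nat_lit 100, nat_lit 92)⟩
noncomputable def p114_k22 : C1.Kn := ⟨[nat_lit 20, nat_lit 80, nat_lit 100], [nat_lit 0, nat_lit 3758, nat_lit 4955], [(nat_lit 0, nat_lit 0, nat_lit 0), (nat_lit 1000, nat_lit 228, nat_lit 923), (nat_lit 1000, nat_lit 226, nat_lit 935)], (nat_lit 23, nat_lit 100, nat_lit 93)⟩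
noncomputable def p114_k23 : C1.Kn := ⟨[nat_lit 20, nat_lit 80], [nat_lit 0, nat_lit 4248], [(nat_lit 0, nat_lit 0, nat_lit 0), (nat_lit 1000, nat_lit 144, nat_lit 959)], (nat_lit 15, nat_lit 100, nat_lit 95)⟩
noncomputable def p114_k24 : C1.Kn := ⟨[nat_lit 80, nat_lit 140, nat_lit 180], [nat_lit 0, nat_lit 995, nat_lit 4368], [(nat_lit 0, nat_lit 0, nat_lit 0), (nat_lit 1000, nat_lit 948, nat_lit 259), (nat_lit 732, nat_lit 1000, nat_lit 960)], (nat_lit 100, nat_lit 71, nat_lit 97)⟩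
noncomputable def p114_k25 : C1.Kn := ⟨[nat_lit 20, nat_lit 80, nat_lit 100], [nat_lit 0, nat_lit 2121, nat_lit 3610], [(nat_lit 0, nat_lit 0, nat_lit 0), (nat_lit 1000, nat_lit 558, nat_lit 551), (nat_lit 1000, nat_lit 436, nat_lit 895)], (nat_lit 44, nat_lit 100, nat_lit 87)⟩
noncomputable def p114_k26 : C1.Kn := ⟨[nat_lit 80, nat_lit 140, nat_lit 180], [nat_lit 0, nat_lit 995, nat_lit 4368], [(nat_lit 0, nat_lit 0, nat_lit 0), (nat_lit 1000, nat_lit 948, nat_lit 259), (nat_lit 732, nat_lit 1000, nat_lit 960)], (nat_lit 100, nat_lit 80, nat_lit 92)⟩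
noncomputable def p114_k27 : C1.Kn := ⟨[nat_lit 80, nat_lit 120, nat_lit 180], [nat_lit 0, nat_lit 929, nat_lit 3903], [(nat_lit 0, nat_lit 0, nat_lit 0), (nat_lit 1000, nat_lit 927, nat_lit 362), (nat_lit 991, nat_lit 1000, nat_lit 767)], (nat_lit 100, nat_lit 85, nat_lit 93)⟩
noncomputable def p114_k28 : C1.Kn := ⟨[nat_lit 80, nat_lit 140, nat_lit 180], [nat_lit 0, nat_lit 0, nat_lit 3656], [(nat_lit 0, nat_lit 0, nat_lit 0), (nat_lit 0, nat_lit 0, nat_lit 0), (nat_lit 637, nat_lit 1000, nat_lit 908)], (nat_lit 100, nat_lit 68, nat_lit 88)⟩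
noncomputable def p114_k29 : C1.Kn := ⟨[nat_lit 20, nat_lit 80, nat_lit 100], [nat_lit 0, nat_lit 2121, nat_lit 3610], [(nat_lit 0, nat_lit 0, nat_lit 0), (nat_lit 1000, nat_lit 558, nat_lit 551), (nat_lit 1000, nat_lit 436, nat_lit 895)], (nat_lit 44, nat_lit 100, nat_lit 90)⟩
noncomputable def p114_k30 : C1.Kn := ⟨[nat_lit 80, nat_lit 140, nat_lit 180], [nat_lit 0, nat_lit 0, nat_lit 3656], [(nat_lit 0, nat_lit 0, nat_lit 0), (nat_lit 0, nat_lit 0, nat_lit 0), (nat_lit 637, nat_lit 1000, nat_lit 908)], (nat_lit 100, nat_lit 62, nat_lit 92)⟩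
noncomputable def p114_k31 : C1.Kn := ⟨[nat_lit 20, nat_lit 80, nat_lit 120], [nat_lit 0, nat_lit 2451, nat_lit 5041], [(nat_lit 0, nat_lit 0, nat_lit 0), (nat_lit 1000, nat_lit 489, nat_lit 638), (nat_lit 1000, nat_lit 411, nat_lit 993)], (nat_lit 40, nat_lit 100, nat_lit 92)⟩
noncomputable def p114_k32 : C1.Kn := ⟨[nat_lit 20, nat_lit 60, nat_lit 100], [nat_lit 0, nat_lit 1634, nat_lit 3761], [(nat_lit 0, nat_lit 0, nat_lit 0), (nat_lit 1000, nat_lit 489, nat_lit 638), (nat_lit 1000, nat_lit 412, nat_lit 830)], (nat_lit 41, nat_lit 100, nat_lit 87)⟩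
noncomputable def p114_k33 : C1.Kn := ⟨[nat_lit 80, nat_lit 120, nat_lit 180], [nat_lit 0, nat_lit 664, nat_lit 3698], [(nat_lit 0, nat_lit 0, nat_lit 0), (nat_lit 1000, nat_lit 948, nat_lit 259), (nat_lit 949, nat_lit 1000, nat_lit 749)], (nat_lit 100, nat_lit 71, nat_lit 97)⟩
noncomputable def p114_k34 : C1.Kn := ⟨[nat_lit 80, nat_lit 140, nat_lit 180], [nat_lit 0, nat_lit 511, nat_lit 4028], [(nat_lit 0, nat_lit 0, nat_lit 0), (nat_lit 1000, nat_lit 973, nat_lit 133), (nat_lit 682, nat_lit 1000, nat_lit 934)], (nat_lit 100, nat_lit 65, nat_lit 95)⟩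
noncomputable def p114_k35 : C1.Kn := ⟨[nat_lit 20, nat_lit 80, nat_lit 100], [nat_lit 0, nat_lit 3413, nat_lit 4586], [(nat_lit 0, nat_lit 0, nat_lit 0), (nat_lit 1000, nat_lit 289, nat_lit 888), (nat_lit 1000, nat_lit 283, nat_lit 916)], (nat_lit 28, nat_lit 100, nat_lit 92)⟩
noncomputable def p114_k36 : C1.Kn := ⟨[nat_lit 80, nat_lit 140, nat_lit 180], [nat_lit 0, nat_lit 711, nat_lit 4171], [(nat_lit 0, nat_lit 0, nat_lit 0), (nat_lit 1000, nat_lit 963, nat_lit 185), (nat_lit 701, nat_lit 1000, nat_lit 945)], (nat_lit 100, nat_lit 68, nat_lit 96)⟩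
noncomputable def p114_k37 : C1.Kn := ⟨[nat_lit 20, nat_lit 80, nat_lit 100], [nat_lit 0, nat_lit 3520, nat_lit 4692], [(nat_lit 0, nat_lit 0, nat_lit 0), (nat_lit 1000, nat_lit 268, nat_lit 908), (nat_lit 1000, nat_lit 267, nat_lit 916)], (nat_lit 27, nat_lit 100, nat_lit 93)⟩
noncomputable def p114_k38 : C1.Kn := ⟨[nat_lit 80, nat_lit 140, nat_lit 180], [nat_lit 0, nat_lit 1393, nat_lit 4654], [(nat_lit 0, nat_lit 0, nat_lit 0), (nat_lit 1000, nat_lit 927, nat_lit 362), (nat_lit 777, nat_lit 1000, nat_lit 985)], (nat_lit 100, nat_lit 77, nat_lit 99)⟩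
noncomputable def p114_k39 : C1.Kn := ⟨[nat_lit 20, nat_lit 80, nat_lit 100], [nat_lit 0, nat_lit 3199, nat_lit 4400], [(nat_lit 0, nat_lit 0, nat_lit 0), (nat_lit 1000, nat_lit 333, nat_lit 833), (nat_lit 1000, nat_lit 312, nat_lit 938)], (nat_lit 32, nat_lit 100, nat_lit 91)⟩
noncomputable def p114_k40 : C1.Kn := ⟨[nat_lit 80, nat_lit 140, nat_lit 180], [nat_lit 0, nat_lit 792, nat_lit 4228], [(nat_lit 0, nat_lit 0, nat_lit 0), (nat_lit 1000, nat_lit 959, nat_lit 206), (nat_lit 709, nat_lit 1000, nat_lit 949)], (nat_lit 100, nat_lit 72, nat_lit 94)⟩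
noncomputable def p114_k41 : C1.Kn := ⟨[nat_lit 20, nat_lit 80, nat_lit 100], [nat_lit 0, nat_lit 3520, nat_lit 4692], [(nat_lit 0, nat_lit 0, nat_lit 0), (nat_lit 1000, nat_lit 268, nat_lit 908), (nat_lit 1000, nat_lit 267, nat_lit 916)], (nat_lit 27, nat_lit 100, nat_lit 91)⟩
noncomputable def p114_k42 : C1.Kn := ⟨[nat_lit 80, nat_lit 140, nat_lit 180], [nat_lit 0, nat_lit 995, nat_lit 4368], [(nat_lit 0, nat_lit 0, nat_lit 0), (nat_lit 1000, nat_lit 948, nat_lit 259), (nat_lit 732, nat_lit 1000, nat_lit 960)], (nat_lit 100, nat_lit 75, nat_lit 95)⟩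
noncomputable def p114_k43 : C1.Kn := ⟨[nat_lit 80, nat_lit 140, nat_lit 180], [nat_lit 0, nat_lit 1118, nat_lit 4456], [(nat_lit 0, nat_lit 0, nat_lit 0), (nat_lit 1000, nat_lit 942, nat_lit 291), (nat_lit 743, nat_lit 1000, nat_lit 968)], (nat_lit 100, nat_lit 76, nat_lit 95)⟩
noncomputable def p114_k44 : C1.Kn := ⟨[nat_lit 80, nat_lit 140, nat_lit 180], [nat_lit 0, nat_lit 1118, nat_lit 4456], [(nat_lit 0, nat_lit 0, nat_lit 0), (nat_lit 1000, nat_lit 942, nat_lit 291), (nat_lit 743, nat_lit 1000, nat_lit 968)], (nat_lit 100, nat_lit 73, nat_lit 97)⟩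
noncomputable def p114_k45 : C1.Kn := ⟨[nat_lit 20, nat_lit 60, nat_lit 100], [nat_lit 0, nat_lit 2136, nat_lit 4235], [(nat_lit 0, nat_lit 0, nat_lit 0), (nat_lit 1000, nat_lit 343, nat_lit 808), (nat_lit 1000, nat_lit 338, nat_lit 820)], (nat_lit 32, nat_lit 100, nat_lit 91)⟩
noncomputable def p114_k46 : C1.Kn := ⟨[nat_lit 80, nat_lit 120, nat_lit 180], [nat_lit 0, nat_lit 796, nat_lit 3804], [(nat_lit 0, nat_lit 0, nat_lit 0), (nat_lit 1000, nat_lit 938, nat_lit 310), (nat_lit 969, nat_lit 1000, nat_lit 759)], (nat_lit 100, nat_lit 78, nat_lit 96)⟩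
noncomputable def p114_k47 : C1.Kn := ⟨[nat_lit 20, nat_lit 60, nat_lit 100], [nat_lit 0, nat_lit 2391, nat_lit 4579], [(nat_lit 0, nat_lit 0, nat_lit 0), (nat_lit 1000, nat_lit 288, nat_lit 845), (nat_lit 1000, nat_lit 284, nat_lit 855)], (nat_lit 27, nat_lit 100, nat_lit 91)⟩
noncomputable def p114_k48 : C1.Kn := ⟨[nat_lit 20, nat_lit 60, nat_lit 100], [nat_lit 0, nat_lit 2600, nat_lit 4863], [(nat_lit 0, nat_lit 0, nat_lit 0), (nat_lit 1000, nat_lit 245, nat_lit 872), (nat_lit 1000, nat_lit 240, nat_lit 884)], (nat_lit 23, nat_lit 100, nat_lit 93)⟩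
noncomputable def p114_k49 : C1.Kn := ⟨[nat_lit 20, nat_lit 60, nat_lit 80], [nat_lit 0, nat_lit 3038, nat_lit 4229], [(nat_lit 0, nat_lit 0, nat_lit 0), (nat_lit 1000, nat_lit 155, nat_lit 926), (nat_lit 1000, nat_lit 153, nat_lit 931)], (nat_lit 15, nat_lit 100, nat_lit 95)⟩
noncomputable def p114_k50 : C1.Kn := ⟨[nat_lit 80, nat_lit 120, nat_lit 180], [nat_lit 0, nat_lit 929, nat_lit 3903], [(nat_lit 0, nat_lit 0, nat_lit 0), (nat_lit 1000, nat_lit 927, nat_lit 362), (nat_lit 991, nat_lit 1000, nat_lit 767)], (nat_lit 100, nat_lit 77, nat_lit 99)⟩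
noncomputable def p114_k51 : C1.Kn := ⟨[nat_lit 20, nat_lit 60, nat_lit 100], [nat_lit 0, nat_lit 2391, nat_lit 4579], [(nat_lit 0, nat_lit 0, nat_lit 0), (nat_lit 1000, nat_lit 288, nat_lit 845), (nat_lit 1000, nat_lit 284, nat_lit 855)], (nat_lit 27, nat_lit 100, nat_lit 93)⟩
noncomputable def p114_l0 : Lf2 := ⟨nat_lit 0, nat_lit 25, [nat_lit 44, nat_lit 5, nat_lit 5, nat_lit 20], false, nat_lit 20, nat_lit 80, nat_lit 0, nat_lit 336, ⟨nat_lit 95, nat_lit 539, nat_lit 366, nat_lit 6, nat_lit 257, nat_lit 905, nat_lit 49, nat_lit 366, nat_lit 22817, nat_lit 252, nat_lit 93454, nat_lit 200, nat_lit 46211013, nat_lit 19282418, nat_lit 1506569, nat_lit 3621485, true, true⟩,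
 nat_lit 0, nat_lit 0, nat_lit 1608, nat_lit 0, nat_lit 2410, nat_lit 851, nat_lit 0, nat_lit 0, nat_lit 0, nat_lit 72, nat_lit 0, nat_lit 0, nat_lit 0, nat_lit 0, nat_lit 2, nat_lit 281150, nat_lit 0, nat_lit 0, [(nat_lit 29, [(nat_lit 0, nat_lit 539), (nat_lit 5, nat_lit 366)])],
 ⟨p114_k0, nat_lit 0, nat_lit 0, nat_lit 140, nat_lit 0, nat_lit 0, [nat_lit 735650000, nat_lit 276261601, nat_lit 18574000], [], [nat_lit 23412781380, nat_lit 23979785630, nat_lit 24741184240, nat_lit 25289035935, nat_lit 22946580180, nat_lit 23489967890, nat_lit 24236872780, nat_lit 24743296070], nat_lit 0, nat_lit 0, nat_lit 0, nat_lit 0, nat_lit 0, nat_lit 0, [], [nat_lit 20, nat_lit 40, nat_lit 40, nat_lit 80, nat_lit 16, nat_lit 226, nat_lit 20, nat_lit 7]⟩, ⟨p114_k1, nat_lit 0, nat_lit 0, nat_lit 734, nat_lit 0, nat_lit 876385, [nat_lit 445360000, nat_lit 756960000, nat_lit 1335510000], [], [nat_lit 3698507868, nat_lit 3734072744, nat_lit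 3769637620, nat_lit 3798510690, nat_lit 3064716424, nat_lit 3071436550, nat_lit 3078156676, nat_lit 3085140386], nat_lit 1271250, nat_lit 1271250, nat_lit 1271250, nat_lit 1271250, nat_lit 0, nat_lit 2373000, [nat_lit 1100000, nat_lit 1785000, nat_lit 1271250], [nat_lit 37, nat_lit 40, nat_lit 40, nat_lit 80, nat_lit 28, nat_lit 456, nat_lit 225, nat_lit 10]⟩,
 ⟨nat_lit 1581, nat_lit 2237, ⟨.ofNat (nat_lit 602558), .ofNat (nat_lit 659578), .ofNat (nat_lit 625287), .ofNat (nat_lit 682352), .ofNat (nat_lit 601260), .ofNat (nat_lit 655900), .ofNat (nat_lit 624529), .ofNat (nat_lit 679215)⟩, ⟨.ofNat (nat_lit 50000), .ofNat (nat_lit 192306), .ofNat (nat_lit 50000), .ofNat (nat_lit 200000), .ofNat (nat_lit 50000), .ofNat (nat_lit 196201), .ofNat (nat_lit 50000), .ofNat (nat_lit 200000)⟩⟩, [⟨nat_lit 3, nat_lit 100, nat_lit 45, nat_lit 67, nat_lit 261692813⟩, ⟨nat_lit 22, nat_lit 100, nat_lit 96, nat_lit 69, nat_lit 10644763⟩]⟩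
noncomputable def p114_l1 : Lf2 := ⟨nat_lit 0, nat_lit 25, [nat_lit 44, nat_lit 5, nat_lit 5, nat_lit 20], true, nat_lit 36, nat_lit 80, nat_lit 0, nat_lit 336, ⟨nat_lit 0, nat_lit 1000, nat_lit 0, nat_lit 6, nat_lit 255, nat_lit 1000, nat_lit 58, nat_lit 0, nat_lit 0, nat_lit 0, nat_lit 0, nat_lit 0, nat_lit 45990415, nat_lit 19105008, nat_lit 1904577, nat_lit 3729063, true, true⟩,
 nat_lit 0, nat_lit 0, nat_lit 0, nat_lit 3653, nat_lit 2592, nat_lit 0, nat_lit 45, nat_lit 0, nat_lit 0, nat_lit 0, nat_lit 0, nat_lit 0, nat_lit 0, nat_lit 0, nat_lit 0, nat_lit 250000, nat_lit 0, nat_lit 0, [(nat_lit 29, [(nat_lit 0, nat_lit 1000)])],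
 ⟨p114_k2, nat_lit 0, nat_lit 0, nat_lit 120, nat_lit 0, nat_lit 0, [nat_lit 781600001, nat_lit 1046000001, nat_lit 1376400000], [], [nat_lit 24105932972, nat_lit 24672115392, nat_lit 25393740614, nat_lit 26049219757, nat_lit 23733797625, nat_lit 24281848169, nat_lit 24992428769, nat_lit 25502941897], nat_lit 0, nat_lit 0, nat_lit 0, nat_lit 0, nat_lit 0, nat_lit 0, [], [nat_lit 35, nat_lit 40, nat_lit 40, nat_lit 80, nat_lit 22, nat_lit 226, nat_lit 20, nat_lit 9]⟩, C1.Rw.none,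
 ⟨nat_lit 0, nat_lit 1582, ⟨.ofNat (nat_lit 601257), .ofNat (nat_lit 655899), .ofNat (nat_lit 623921), .ofNat (nat_lit 679215), .ofNat (nat_lit 599992), .ofNat (nat_lit 649998), .ofNat (nat_lit 624340), .ofNat (nat_lit 674999)⟩, ⟨.ofNat (nat_lit 90000), .ofNat (nat_lit 196201), .ofNat (nat_lit 90000), .ofNat (nat_lit 200000), .ofNat (nat_lit 90000), .ofNat (nat_lit 199999), .ofNat (nat_lit 90000), .ofNat (nat_lit 200000)⟩⟩, [⟨nat_lit 3, nat_lit 100, nat_lit 39, nat_lit 72, nat_lit 381415727⟩]⟩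
noncomputable def p114_l2 : Lf2 := ⟨nat_lit 0, nat_lit 25, [nat_lit 44, nat_lit 5, nat_lit 5, nat_lit 20], false, nat_lit 20, nat_lit 80, nat_lit 0, nat_lit 160, ⟨nat_lit 218, nat_lit 782, nat_lit 0, nat_lit 6, nat_lit 266, nat_lit 782, nat_lit 49, nat_lit 0, nat_lit 0, nat_lit 0, nat_lit 0, nat_lit 0, nat_lit 45268384, nat_lit 20239408, nat_lit 1492208, nat_lit 3677919, true, false⟩,
 nat_lit 0, nat_lit 0, nat_lit 3029, nat_lit 0, nat_lit 2456, nat_lit 1763, nat_lit 122, nat_lit 0, nat_lit 0, nat_lit 200, nat_lit 0, nat_lit 0, nat_lit 0, nat_lit 0, nat_lit 0, nat_lit 312800, nat_lit 0, nat_lit 0, [(nat_lit 29, [(nat_lit 1, nat_lit 782)])],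
 ⟨p114_k0, nat_lit 0, nat_lit 0, nat_lit 140, nat_lit 0, nat_lit 0, [nat_lit 750632801, nat_lit 975100000, nat_lit 1436008000], [], [nat_lit 23525217060, nat_lit 24096532660, nat_lit 24858284136, nat_lit 25391888646, nat_lit 23032845540, nat_lit 23580296476, nat_lit 24327566100, nat_lit 24837598964], nat_lit 0, nat_lit 0, nat_lit 0, nat_lit 0, nat_lit 0, nat_lit 0, [], [nat_lit 20, nat_lit 40, nat_lit 40, nat_lit 80, nat_lit 16, nat_lit 226, nat_lit 20, nat_lit 7]⟩, ⟨p114_k3, nat_lit 0, nat_lit 0, nat_lit 728, nat_lit 0, nat_lit 874936, [nat_lit 1021984000, nat_lit 1737024000, nat_lit 3064644000], [], [nat_lit 7317561080, nat_lit 7372739016, nat_lit 7417373466, nat_lit 7462007916, nat_lit 6132989130, nat_lit 6203904120, nat_lit 6268766402, nat_lit 6333628684], nat_lit 1271250, nat_lit 1271250, nat_lit 1271250, nat_lit 1271250, nat_lit 0, nat_lit 1100001, [nat_lit 1100000, nat_lit 1785000, nat_lit 1271250], [nat_lit 37,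 nat_lit 40, nat_lit 40, nat_lit 80, nat_lit 28, nat_lit 428, nat_lit 200, nat_lit 10]⟩,
 ⟨nat_lit 1581, nat_lit 2237, ⟨.ofNat (nat_lit 625287), .ofNat (nat_lit 682352), .ofNat (nat_lit 648016), .ofNat (nat_lit 705117), .ofNat (nat_lit 624529), .ofNat (nat_lit 679215), .ofNat (nat_lit 647799), .ofNat (nat_lit 702521)⟩, ⟨.ofNat (nat_lit 50000), .ofNat (nat_lit 192306), .ofNat (nat_lit 50000), .ofNat (nat_lit 200000), .ofNat (nat_lit 50000), .ofNat (nat_lit 196201), .ofNat (nat_lit 50000), .ofNat (nat_lit 200000)⟩⟩, [⟨nat_lit 3, nat_lit 100, nat_lit 36, nat_lit 77, nat_lit 260148896⟩]⟩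
noncomputable def p114_l3 : Lf2 := ⟨nat_lit 0, nat_lit 25, [nat_lit 44, nat_lit 5, nat_lit 5, nat_lit 20], false, nat_lit 20, nat_lit 80, nat_lit 160, nat_lit 336, ⟨nat_lit 128, nat_lit 872, nat_lit 0, nat_lit 6, nat_lit 266, nat_lit 872, nat_lit 49, nat_lit 0, nat_lit 0, nat_lit 0, nat_lit 0, nat_lit 0, nat_lit 45268384, nat_lit 20239408, nat_lit 1492208, nat_lit 3677919, true, false⟩,
 nat_lit 0, nat_lit 0, nat_lit 1757, nat_lit 0, nat_lit 2413, nat_lit 1022, nat_lit 78, nat_lit 0, nat_lit 0, nat_lit 126, nat_lit 0, nat_lit 0, nat_lit 0, nat_lit 0, nat_lit 0, nat_lit 348800, nat_lit 0, nat_lit 0, [(nat_lit 29, [(nat_lit 1, nat_lit 872)])],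
 ⟨p114_k0, nat_lit 0, nat_lit 0, nat_lit 140, nat_lit 0, nat_lit 0, [nat_lit 729068801, nat_lit 709600000, nat_lit 881968000], [], [nat_lit 23442278786, nat_lit 24009564211, nat_lit 24770985834, nat_lit 25298769414, nat_lit 22974370826, nat_lit 23518023529, nat_lit 24264952206, nat_lit 24771610903], nat_lit 0, nat_lit 0, nat_lit 0, nat_lit 0, nat_lit 0, nat_lit 0, [], [nat_lit 20, nat_lit 40, nat_lit 40, nat_lit 80, nat_lit 16, nat_lit 226, nat_lit 20, nat_lit 7]⟩, ⟨p114_k3, nat_lit 0, nat_lit 0, nat_lit 592, nat_lit 0, nat_lit 874936, [nat_lit 600064000, nat_lit 1019904000, nat_lit 1799424000], [], [nat_lit 3379957132, nat_lit 3423373416, nat_lit 3459796904, nat_lit 3500641168, nat_lit 3718884723, nat_lit 3756702423, nat_lit 3788001570, nat_lit 3819300717], nat_lit 1271250, nat_lit 1271250, nat_lit 1271250, nat_lit 1271250, nat_lit 1100001, nat_lit 2607000, [nat_lit 1100000, nat_lit 1785000, nat_lit 1271250], [nat_lit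 37, nat_lit 40, nat_lit 40, nat_lit 80, nat_lit 28, nat_lit 456, nat_lit 225, nat_lit 10]⟩,
 ⟨nat_lit 1581, nat_lit 2237, ⟨.ofNat (nat_lit 625287), .ofNat (nat_lit 682352), .ofNat (nat_lit 648016), .ofNat (nat_lit 705117), .ofNat (nat_lit 624529), .ofNat (nat_lit 679215), .ofNat (nat_lit 647799), .ofNat (nat_lit 702521)⟩, ⟨.ofNat (nat_lit 50000), .ofNat (nat_lit 192306), .ofNat (nat_lit 50000), .ofNat (nat_lit 200000), .ofNat (nat_lit 50000), .ofNat (nat_lit 196201), .ofNat (nat_lit 50000), .ofNat (nat_lit 200000)⟩⟩, [⟨nat_lit 3, nat_lit 100, nat_lit 45, nat_lit 67, nat_lit 90892463⟩, ⟨nat_lit 3, nat_lit 100, nat_lit 36, nat_lit 77, nat_lit 792086⟩, ⟨nat_lit 22, nat_lit 98, nat_lit 100, nat_lit 54, nat_lit 72466589⟩]⟩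
noncomputable def p114_l4 : Lf2 := ⟨nat_lit 0, nat_lit 25, [nat_lit 44, nat_lit 5, nat_lit 5, nat_lit 20], false, nat_lit 36, nat_lit 80, nat_lit 0, nat_lit 336, ⟨nat_lit 92, nat_lit 908, nat_lit 0, nat_lit 6, nat_lit 265, nat_lit 908, nat_lit 58, nat_lit 0, nat_lit 0, nat_lit 0, nat_lit 0, nat_lit 0, nat_lit 45026741, nat_lit 20087704, nat_lit 1885555, nat_lit 3786626, true, false⟩,
 nat_lit 0, nat_lit 0, nat_lit 1266, nat_lit 0, nat_lit 2591, nat_lit 736, nat_lit 78, nat_lit 0, nat_lit 0, nat_lit 74, nat_lit 0, nat_lit 0, nat_lit 0, nat_lit 0, nat_lit 0, nat_lit 227000, nat_lit 0, nat_lit 0, [(nat_lit 29, [(nat_lit 0, nat_lit 908)])],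
 ⟨p114_k2, nat_lit 0, nat_lit 0, nat_lit 120, nat_lit 0, nat_lit 0, [nat_lit 795988801, nat_lit 1251712000, nat_lit 1681067200], [], [nat_lit 24082965201, nat_lit 24649057528, nat_lit 25370214921, nat_lit 26047079497, nat_lit 23711229105, nat_lit 24259193567, nat_lit 24969773117, nat_lit 25480209711], nat_lit 0, nat_lit 0, nat_lit 0, nat_lit 0, nat_lit 0, nat_lit 0, [], [nat_lit 35, nat_lit 40, nat_lit 40, nat_lit 80, nat_lit 22, nat_lit 226, nat_lit 20, nat_lit 9]⟩, ⟨p114_k3, nat_lit 0, nat_lit 0, nat_lit 796, nat_lit 0, nat_lit 1061582, [nat_lit 431296000, nat_lit 733056000, nat_lit 1293336000], [], [nat_lit 3359385088, nat_lit 3370573392, nat_lit 3378430744, nat_lit 3386288096, nat_lit 2937771457, nat_lit 2941709645, nat_lit 2942959778, nat_lit 2944209911], nat_lit 1271250, nat_lit 1271250, nat_lit 1271250, nat_lit 1271250, nat_lit 0, nat_lit 2373000, [nat_lit 1100000, nat_lit 1785000, nat_lit 1271250], [nat_lit 37,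 nat_lit 40, nat_lit 40, nat_lit 80, nat_lit 28, nat_lit 456, nat_lit 225, nat_lit 10]⟩,
 ⟨nat_lit 0, nat_lit 1582, ⟨.ofNat (nat_lit 623921), .ofNat (nat_lit 679215), .ofNat (nat_lit 646579), .ofNat (nat_lit 702515), .ofNat (nat_lit 624340), .ofNat (nat_lit 674999), .ofNat (nat_lit 648683), .ofNat (nat_lit 699984)⟩, ⟨.ofNat (nat_lit 90000), .ofNat (nat_lit 196201), .ofNat (nat_lit 90000), .ofNat (nat_lit 200000), .ofNat (nat_lit 90000), .ofNat (nat_lit 199999), .ofNat (nat_lit 90000), .ofNat (nat_lit 200000)⟩⟩, [⟨nat_lit 3, nat_lit 100, nat_lit 27, nat_lit 83, nat_lit 309466471⟩, ⟨nat_lit 3, nat_lit 100, nat_lit 39, nat_lit 72, nat_lit 57885765⟩, ⟨nat_lit 22, nat_lit 100, nat_lit 93, nat_lit 74, nat_lit 14652975⟩]⟩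
noncomputable def p114_l5 : Lf2 := ⟨nat_lit 0, nat_lit 30, [nat_lit 15, nat_lit 5, nat_lit 5, nat_lit 20], false, nat_lit 32, nat_lit 80, nat_lit 0, nat_lit 160, ⟨nat_lit 290, nat_lit 635, nat_lit 75, nat_lit 6, nat_lit 257, nat_lit 710, nat_lit 56, nat_lit 75, nat_lit 29400, nat_lit 257, nat_lit 93454, nat_lit 200, nat_lit 45956181, nat_lit 19229225, nat_lit 1814594, nat_lit 3711144, true, true⟩,
 nat_lit 0, nat_lit 0, nat_lit 4306, nat_lit 0, nat_lit 2260, nat_lit 2279, nat_lit 237, nat_lit 0, nat_lit 0, nat_lit 319, nat_lit 0, nat_lit 0, nat_lit 0, nat_lit 0, nat_lit 0, nat_lit 284000, nat_lit 0, nat_lit 0, [(nat_lit 29, [(nat_lit 1, nat_lit 635), (nat_lit 5, nat_lit 75)])],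
 ⟨p114_k4, nat_lit 0, nat_lit 0, nat_lit 153, nat_lit 0, nat_lit 0, [nat_lit 760024000, nat_lit 1029610000, nat_lit 1968808000], [], [nat_lit 23059696220, nat_lit 23574792163, nat_lit 24286291147, nat_lit 24767164508, nat_lit 22736564635, nat_lit 23235035035, nat_lit 23935943995, nat_lit 24405844040], nat_lit 0, nat_lit 0, nat_lit 0, nat_lit 0, nat_lit 0, nat_lit 0, [], [nat_lit 54, nat_lit 40, nat_lit 40, nat_lit 80, nat_lit 43, nat_lit 226, nat_lit 20, nat_lit 6]⟩, ⟨p114_k5, nat_lit 0, nat_lit 0, nat_lit 674, nat_lit 0, nat_lit 654036, [nat_lit 1359520000, nat_lit 2310720000, nat_lit 4756000000], [], [nat_lit 10483847287, nat_lit 10581032201, nat_lit 10678217115, nat_lit 10759141583, nat_lit 9117619472, nat_lit 9217839692, nat_lit 9318059912, nat_lit 9403726702], nat_lit 1271250, nat_lit 1271250, nat_lit 1271250, nat_lit 1271250, nat_lit 0, nat_lit 1100001, [nat_lit 1100000, nat_lit 1785000, nat_lit 1271250], [nat_lit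 122, nat_lit 40, nat_lit 40, nat_lit 80, nat_lit 111, nat_lit 401, nat_lit 175, nat_lit 8]⟩,
 ⟨nat_lit 1581, nat_lit 2237, ⟨.ofNat (nat_lit 602558), .ofNat (nat_lit 659578), .ofNat (nat_lit 625287), .ofNat (nat_lit 682352), .ofNat (nat_lit 601260), .ofNat (nat_lit 655900), .ofNat (nat_lit 624529), .ofNat (nat_lit 679215)⟩, ⟨.ofNat (nat_lit 80000), .ofNat (nat_lit 200000), .ofNat (nat_lit 80000), .ofNat (nat_lit 200000), .ofNat (nat_lit 80000), .ofNat (nat_lit 200000), .ofNat (nat_lit 80000), .ofNat (nat_lit 200000)⟩⟩, [⟨nat_lit 3, nat_lit 100, nat_lit 34, nat_lit 81, nat_lit 210945881⟩]⟩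
noncomputable def p114_l6 : Lf2 := ⟨nat_lit 0, nat_lit 30, [nat_lit 15, nat_lit 5, nat_lit 5, nat_lit 20], false, nat_lit 32, nat_lit 80, nat_lit 160, nat_lit 336, ⟨nat_lit 226, nat_lit 78, nat_lit 696, nat_lit 6, nat_lit 254, nat_lit 774, nat_lit 56, nat_lit 696, nat_lit 29400, nat_lit 257, nat_lit 70680, nat_lit 200, nat_lit 46190491, nat_lit 18990732, nat_lit 1818777, nat_lit 3696399, true, true⟩,
 nat_lit 0, nat_lit 0, nat_lit 3523, nat_lit 0, nat_lit 2120, nat_lit 1865, nat_lit 0, nat_lit 0, nat_lit 0, nat_lit 226, nat_lit 0, nat_lit 0, nat_lit 0, nat_lit 0, nat_lit 86, nat_lit 309600, nat_lit 0, nat_lit 0, [(nat_lit 29, [(nat_lit 1, nat_lit 78), (nat_lit 5, nat_lit 696)])],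
 ⟨p114_k4, nat_lit 0, nat_lit 0, nat_lit 153, nat_lit 0, nat_lit 0, [nat_lit 1023608801, nat_lit 565480800, nat_lit 373173600], [], [nat_lit 22782176531, nat_lit 23285583258, nat_lit 23997533266, nat_lit 24469203505, nat_lit 22522848322, nat_lit 23010169122, nat_lit 23711470642, nat_lit 24169820684], nat_lit 0, nat_lit 0, nat_lit 0, nat_lit 0, nat_lit 0, nat_lit 0, [], [nat_lit 54, nat_lit 40, nat_lit 40, nat_lit 80, nat_lit 43, nat_lit 226, nat_lit 20, nat_lit 6]⟩, ⟨p114_k5, nat_lit 0, nat_lit 0, nat_lit 491, nat_lit 0, nat_lit 598899, [nat_lit 1059488000, nat_lit 1800768000, nat_lit 3706400000], [], [nat_lit 6462711746, nat_lit 6511558329, nat_lit 6658098078, nat_lit 6699381546, nat_lit 7005201969, nat_lit 7025992802, nat_lit 7088365302, nat_lit 7110505449], nat_lit 1271250, nat_lit 1271250, nat_lit 1271250, nat_lit 1271250, nat_lit 1100001, nat_lit 2607000, [nat_lit 1100000, nat_lit 1785000, nat_lit 1271250], [nat_lit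 122, nat_lit 40, nat_lit 40, nat_lit 80, nat_lit 111, nat_lit 456, nat_lit 225, nat_lit 9]⟩,
 ⟨nat_lit 1581, nat_lit 2237, ⟨.ofNat (nat_lit 602558), .ofNat (nat_lit 659578), .ofNat (nat_lit 613923), .ofNat (nat_lit 670965), .ofNat (nat_lit 601260), .ofNat (nat_lit 655900), .ofNat (nat_lit 612895), .ofNat (nat_lit 667558)⟩, ⟨.ofNat (nat_lit 80000), .ofNat (nat_lit 200000), .ofNat (nat_lit 80000), .ofNat (nat_lit 200000), .ofNat (nat_lit 80000), .ofNat (nat_lit 200000), .ofNat (nat_lit 80000), .ofNat (nat_lit 200000)⟩⟩, [⟨nat_lit 3, nat_lit 100, nat_lit 34, nat_lit 81, nat_lit 49909221⟩, ⟨nat_lit 22, nat_lit 100, nat_lit 94, nat_lit 73, nat_lit 86553255⟩]⟩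
noncomputable def p114_l7 : Lf2 := ⟨nat_lit 0, nat_lit 30, [nat_lit 15, nat_lit 5, nat_lit 5, nat_lit 20], false, nat_lit 32, nat_lit 80, nat_lit 160, nat_lit 336, ⟨nat_lit 224, nat_lit 80, nat_lit 696, nat_lit 6, nat_lit 259, nat_lit 776, nat_lit 56, nat_lit 696, nat_lit 29400, nat_lit 257, nat_lit 93454, nat_lit 200, nat_lit 45722242, nat_lit 19467434, nat_lit 1810324, nat_lit 3725524, true, true⟩,
 nat_lit 0, nat_lit 0, nat_lit 3343, nat_lit 0, nat_lit 2114, nat_lit 1857, nat_lit 0, nat_lit 0, nat_lit 0, nat_lit 220, nat_lit 0, nat_lit 0, nat_lit 0, nat_lit 0, nat_lit 87, nat_lit 310400, nat_lit 0, nat_lit 0, [(nat_lit 29, [(nat_lit 1, nat_lit 80), (nat_lit 5, nat_lit 696)])],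
 ⟨p114_k4, nat_lit 0, nat_lit 0, nat_lit 153, nat_lit 0, nat_lit 0, [nat_lit 1027129601, nat_lit 571580800, nat_lit 381347200], [], [nat_lit 22768779244, nat_lit 23271685006, nat_lit 23983654343, nat_lit 24457249934, nat_lit 22512185466, nat_lit 22999028426, nat_lit 23700346770, nat_lit 24171574060], nat_lit 0, nat_lit 0, nat_lit 0, nat_lit 0, nat_lit 0, nat_lit 0, [], [nat_lit 54, nat_lit 40, nat_lit 40, nat_lit 80, nat_lit 43, nat_lit 226, nat_lit 20, nat_lit 6]⟩, ⟨p114_k6, nat_lit 0, nat_lit 0, nat_lit 441, nat_lit 0, nat_lit 607774, [nat_lit 1050112000, nat_lit 1784832000, nat_lit 3148992000], [], [nat_lit 5932185593, nat_lit 5966338894, nat_lit 6062423912, nat_lit 6092608958, nat_lit 6499448855, nat_lit 6531435260, nat_lit 6670910767, nat_lit 6714753973], nat_lit 1271250, nat_lit 1271250, nat_lit 1271250, nat_lit 1271250, nat_lit 1100001, nat_lit 2607000, [nat_lit 1100000, nat_lit 1785000, nat_lit 1271250], [nat_lit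 37, nat_lit 40, nat_lit 40, nat_lit 80, nat_lit 28, nat_lit 456, nat_lit 225, nat_lit 10]⟩,
 ⟨nat_lit 1581, nat_lit 2237, ⟨.ofNat (nat_lit 613923), .ofNat (nat_lit 670965), .ofNat (nat_lit 625287), .ofNat (nat_lit 682352), .ofNat (nat_lit 612895), .ofNat (nat_lit 667558), .ofNat (nat_lit 624529), .ofNat (nat_lit 679215)⟩, ⟨.ofNat (nat_lit 80000), .ofNat (nat_lit 200000), .ofNat (nat_lit 80000), .ofNat (nat_lit 200000), .ofNat (nat_lit 80000), .ofNat (nat_lit 200000), .ofNat (nat_lit 80000), .ofNat (nat_lit 200000)⟩⟩, [⟨nat_lit 3, nat_lit 100, nat_lit 34, nat_lit 81, nat_lit 29719233⟩, ⟨nat_lit 22, nat_lit 100, nat_lit 94, nat_lit 73, nat_lit 91862649⟩]⟩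
noncomputable def p114_l8 : Lf2 := ⟨nat_lit 0, nat_lit 30, [nat_lit 15, nat_lit 5, nat_lit 5, nat_lit 20], false, nat_lit 48, nat_lit 80, nat_lit 0, nat_lit 336, ⟨nat_lit 134, nat_lit 436, nat_lit 430, nat_lit 6, nat_lit 253, nat_lit 866, nat_lit 64, nat_lit 430, nat_lit 38400, nat_lit 263, nat_lit 63864, nat_lit 200, nat_lit 45973299, nat_lit 18805849, nat_lit 2220852, nat_lit 3797690, true, true⟩,
 nat_lit 0, nat_lit 0, nat_lit 2244, nat_lit 0, nat_lit 2780, nat_lit 1188, nat_lit 0, nat_lit 0, nat_lit 0, nat_lit 118, nat_lit 0, nat_lit 0, nat_lit 0, nat_lit 0, nat_lit 0, nat_lit 216500, nat_lit 0, nat_lit 0, [(nat_lit 29, [(nat_lit 0, nat_lit 436), (nat_lit 4, nat_lit 430)])],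
 ⟨p114_k7, nat_lit 0, nat_lit 0, nat_lit 129, nat_lit 0, nat_lit 0, [nat_lit 793957601, nat_lit 460282667, nat_lit 488910400], [], [nat_lit 24253571672, nat_lit 24869175040, nat_lit 25585637272, nat_lit 26171083456, nat_lit 23778988222, nat_lit 24355058402, nat_lit 25064283662, nat_lit 25622214720], nat_lit 0, nat_lit 0, nat_lit 0, nat_lit 0, nat_lit 0, nat_lit 0, [], [nat_lit 20, nat_lit 40, nat_lit 40, nat_lit 80, nat_lit 16, nat_lit 226, nat_lit 20, nat_lit 7]⟩, ⟨p114_k5, nat_lit 0, nat_lit 0, nat_lit 754, nat_lit 0, nat_lit 827183, [nat_lit 628192000, nat_lit 1067712000, nat_lit 2197600000], [], [nat_lit 5106732782, nat_lit 5117737386, nat_lit 5150751198, nat_lit 5158635352, nat_lit 4356871764, nat_lit 4365585582, nat_lit 4391727037, nat_lit 4397653981], nat_lit 1271250, nat_lit 1271250, nat_lit 1271250, nat_lit 1271250, nat_lit 0, nat_lit 2373000, [nat_lit 1100000, nat_lit 1785000, nat_lit 1271250], [nat_lit 122,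 nat_lit 40, nat_lit 40, nat_lit 80, nat_lit 111, nat_lit 456, nat_lit 225, nat_lit 9]⟩,
 ⟨nat_lit 0, nat_lit 1582, ⟨.ofNat (nat_lit 601257), .ofNat (nat_lit 655899), .ofNat (nat_lit 612591), .ofNat (nat_lit 667557), .ofNat (nat_lit 599992), .ofNat (nat_lit 649998), .ofNat (nat_lit 612168), .ofNat (nat_lit 662498)⟩, ⟨.ofNat (nat_lit 120000), .ofNat (nat_lit 200000), .ofNat (nat_lit 120000), .ofNat (nat_lit 200000), .ofNat (nat_lit 120000), .ofNat (nat_lit 200000), .ofNat (nat_lit 120000), .ofNat (nat_lit 200000)⟩⟩, [⟨nat_lit 3, nat_lit 100, nat_lit 25, nat_lit 86, nat_lit 596510032⟩, ⟨nat_lit 22, nat_lit 100, nat_lit 91, nat_lit 77, nat_lit 18243849⟩]⟩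
noncomputable def p114_l9 : Lf2 := ⟨nat_lit 0, nat_lit 30, [nat_lit 15, nat_lit 5, nat_lit 5, nat_lit 20], false, nat_lit 48, nat_lit 80, nat_lit 0, nat_lit 336, ⟨nat_lit 151, nat_lit 525, nat_lit 324, nat_lit 6, nat_lit 258, nat_lit 849, nat_lit 64, nat_lit 324, nat_lit 38400, nat_lit 263, nat_lit 87180, nat_lit 200, nat_lit 45494566, nat_lit 19295397, nat_lit 2210037, nat_lit 3827490, true, true⟩,
 nat_lit 0, nat_lit 0, nat_lit 2293, nat_lit 0, nat_lit 2791, nat_lit 1273, nat_lit 39, nat_lit 0, nat_lit 0, nat_lit 117, nat_lit 0, nat_lit 0, nat_lit 0, nat_lit 0, nat_lit 0, nat_lit 212250, nat_lit 0, nat_lit 0, [(nat_lit 29, [(nat_lit 0, nat_lit 525), (nat_lit 4, nat_lit 324)])],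
 ⟨p114_k7, nat_lit 0, nat_lit 0, nat_lit 129, nat_lit 0, nat_lit 0, [nat_lit 798736401, nat_lit 716541601, nat_lit 1032082000], [], [nat_lit 24284126194, nat_lit 24900787383, nat_lit 25617165294, nat_lit 26192879684, nat_lit 23805054516, nat_lit 24382096337, nat_lit 25091300334, nat_lit 25650822479], nat_lit 0, nat_lit 0, nat_lit 0, nat_lit 0, nat_lit 0, nat_lit 0, [], [nat_lit 20, nat_lit 40, nat_lit 40, nat_lit 80, nat_lit 16, nat_lit 226, nat_lit 20, nat_lit 7]⟩, ⟨p114_k6, nat_lit 0, nat_lit 0, nat_lit 681, nat_lit 0, nat_lit 814604, [nat_lit 707888000, nat_lit 1203168000, nat_lit 2122758000], [], [nat_lit 5745396236, nat_lit 5773951408, nat_lit 5854557775, nat_lit 5878053798, nat_lit 4826851540, nat_lit 4833524047, nat_lit 4850441659, nat_lit 4857481893], nat_lit 1271250, nat_lit 1271250, nat_lit 1271250, nat_lit 1271250, nat_lit 0, nat_lit 2373000, [nat_lit 1100000, nat_lit 1785000, nat_lit 1271250], [nat_lit 37,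 nat_lit 40, nat_lit 40, nat_lit 80, nat_lit 28, nat_lit 456, nat_lit 225, nat_lit 10]⟩,
 ⟨nat_lit 0, nat_lit 1582, ⟨.ofNat (nat_lit 612591), .ofNat (nat_lit 667557), .ofNat (nat_lit 623921), .ofNat (nat_lit 679215), .ofNat (nat_lit 612168), .ofNat (nat_lit 662498), .ofNat (nat_lit 624340), .ofNat (nat_lit 674999)⟩, ⟨.ofNat (nat_lit 120000), .ofNat (nat_lit 200000), .ofNat (nat_lit 120000), .ofNat (nat_lit 200000), .ofNat (nat_lit 120000), .ofNat (nat_lit 200000), .ofNat (nat_lit 120000), .ofNat (nat_lit 200000)⟩⟩, [⟨nat_lit 3, nat_lit 100, nat_lit 25, nat_lit 86, nat_lit 581525780⟩, ⟨nat_lit 22, nat_lit 100, nat_lit 91, nat_lit 77, nat_lit 17215839⟩]⟩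
noncomputable def p114_l10 : Lf2 := ⟨nat_lit 0, nat_lit 30, [nat_lit 15, nat_lit 5, nat_lit 5, nat_lit 20], false, nat_lit 32, nat_lit 80, nat_lit 0, nat_lit 336, ⟨nat_lit 378, nat_lit 622, nat_lit 0, nat_lit 6, nat_lit 264, nat_lit 622, nat_lit 56, nat_lit 0, nat_lit 0, nat_lit 0, nat_lit 0, nat_lit 0, nat_lit 45236595, nat_lit 19962239, nat_lit 1801166, nat_lit 3754303, true, false⟩,
 nat_lit 0, nat_lit 0, nat_lit 5228, nat_lit 0, nat_lit 2383, nat_lit 3043, nat_lit 327, nat_lit 0, nat_lit 0, nat_lit 364, nat_lit 0, nat_lit 0, nat_lit 0, nat_lit 0, nat_lit 0, nat_lit 248800, nat_lit 0, nat_lit 0, [(nat_lit 29, [(nat_lit 1, nat_lit 622)])],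
 ⟨p114_k4, nat_lit 0, nat_lit 0, nat_lit 151, nat_lit 0, nat_lit 0, [nat_lit 788968800, nat_lit 1447100000, nat_lit 3045989600], [], [nat_lit 22809917141, nat_lit 23140361814, nat_lit 24357103197, nat_lit 24686426026, nat_lit 22430729733, nat_lit 22684862793, nat_lit 23857182472, nat_lit 24151783552], nat_lit 0, nat_lit 0, nat_lit 0, nat_lit 0, nat_lit 0, nat_lit 0, [], [nat_lit 54, nat_lit 40, nat_lit 40, nat_lit 80, nat_lit 43, nat_lit 226, nat_lit 20, nat_lit 6]⟩, ⟨p114_k8, nat_lit 0, nat_lit 0, nat_lit 564, nat_lit 0, nat_lit 529281, [nat_lit 1772064000, nat_lit 3011904000, nat_lit 5313924000], [], [nat_lit 12210599564, nat_lit 12291781636, nat_lit 12510793594, nat_lit 12579708537, nat_lit 10945423251, nat_lit 11001113309, nat_lit 11214980486, nat_lit 11284847300], nat_lit 1271250, nat_lit 1271250, nat_lit 1271250, nat_lit 1271250, nat_lit 0, nat_lit 2373000, [nat_lit 1100000, nat_lit 1785000, nat_lit 1271250], [nat_lit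 37, nat_lit 40, nat_lit 40, nat_lit 80, nat_lit 28, nat_lit 456, nat_lit 225, nat_lit 10]⟩,
 ⟨nat_lit 1936, nat_lit 2237, ⟨.ofNat (nat_lit 625327), .ofNat (nat_lit 682352), .ofNat (nat_lit 636710), .ofNat (nat_lit 693740), .ofNat (nat_lit 624911), .ofNat (nat_lit 680809), .ofNat (nat_lit 636412), .ofNat (nat_lit 692315)⟩, ⟨.ofNat (nat_lit 80000), .ofNat (nat_lit 200000), .ofNat (nat_lit 80000), .ofNat (nat_lit 200000), .ofNat (nat_lit 80000), .ofNat (nat_lit 200000), .ofNat (nat_lit 80000), .ofNat (nat_lit 200000)⟩⟩, [⟨nat_lit 22, nat_lit 100, nat_lit 94, nat_lit 73, nat_lit 71615991⟩]⟩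
noncomputable def p114_l11 : Lf2 := ⟨nat_lit 0, nat_lit 30, [nat_lit 15, nat_lit 5, nat_lit 5, nat_lit 20], false, nat_lit 32, nat_lit 80, nat_lit 0, nat_lit 336, ⟨nat_lit 445, nat_lit 555, nat_lit 0, nat_lit 6, nat_lit 268, nat_lit 555, nat_lit 56, nat_lit 0, nat_lit 0, nat_lit 0, nat_lit 0, nat_lit 0, nat_lit 44774595, nat_lit 20433310, nat_lit 1792095, nat_lit 3780348, true, false⟩,
 nat_lit 0, nat_lit 0, nat_lit 5563, nat_lit 0, nat_lit 2838, nat_lit 3387, nat_lit 299, nat_lit 0, nat_lit 0, nat_lit 502, nat_lit 0, nat_lit 0, nat_lit 0, nat_lit 0, nat_lit 0, nat_lit 222000, nat_lit 0, nat_lit 0, [(nat_lit 29, [(nat_lit 1, nat_lit 555)])],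
 ⟨p114_k4, nat_lit 0, nat_lit 0, nat_lit 151, nat_lit 0, nat_lit 0, [nat_lit 805022000, nat_lit 1644750000, nat_lit 3576174000], [], [nat_lit 23707187563, nat_lit 24000546208, nat_lit 25250290765, nat_lit 25605791928, nat_lit 22938010613, nat_lit 23210261773, nat_lit 24199046353, nat_lit 24476900062], nat_lit 0, nat_lit 0, nat_lit 0, nat_lit 0, nat_lit 0, nat_lit 0, [], [nat_lit 54, nat_lit 40, nat_lit 40, nat_lit 80, nat_lit 43, nat_lit 226, nat_lit 20, nat_lit 6]⟩, ⟨p114_k9, nat_lit 0, nat_lit 0, nat_lit 571, nat_lit 0, nat_lit 553134, [nat_lit 2086160000, nat_lit 3545760000, nat_lit 6255810000], [], [nat_lit 12750246858, nat_lit 12960186440, nat_lit 13511135873, nat_lit 13694785684, nat_lit 11930995442, nat_lit 11997734204, nat_lit 12393823250, nat_lit 12599919529], nat_lit 1271250, nat_lit 1271250, nat_lit 1271250, nat_lit 1271250, nat_lit 0, nat_lit 2373000, [nat_lit 1100000, nat_lit 1785000, nat_lit 1271250], [nat_lit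 37, nat_lit 40, nat_lit 40, nat_lit 80, nat_lit 28, nat_lit 456, nat_lit 225, nat_lit 10]⟩,
 ⟨nat_lit 1936, nat_lit 2237, ⟨.ofNat (nat_lit 636710), .ofNat (nat_lit 693740), .ofNat (nat_lit 648093), .ofNat (nat_lit 705125), .ofNat (nat_lit 636412), .ofNat (nat_lit 692315), .ofNat (nat_lit 647913), .ofNat (nat_lit 703818)⟩, ⟨.ofNat (nat_lit 80000), .ofNat (nat_lit 200000), .ofNat (nat_lit 80000), .ofNat (nat_lit 200000), .ofNat (nat_lit 80000), .ofNat (nat_lit 200000), .ofNat (nat_lit 80000), .ofNat (nat_lit 200000)⟩⟩, [⟨nat_lit 22, nat_lit 100, nat_lit 94, nat_lit 73, nat_lit 61284423⟩, ⟨nat_lit 22, nat_lit 100, nat_lit 76, nat_lit 82, nat_lit 28306041⟩]⟩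
noncomputable def p114_l12 : Lf2 := ⟨nat_lit 0, nat_lit 30, [nat_lit 15, nat_lit 5, nat_lit 5, nat_lit 20], false, nat_lit 40, nat_lit 80, nat_lit 0, nat_lit 336, ⟨nat_lit 285, nat_lit 715, nat_lit 0, nat_lit 6, nat_lit 266, nat_lit 715, nat_lit 60, nat_lit 0, nat_lit 0, nat_lit 0, nat_lit 0, nat_lit 0, nat_lit 44876899, nat_lit 20131840, nat_lit 1991261, nat_lit 3819554, true, false⟩,
 nat_lit 0, nat_lit 0, nat_lit 3800, nat_lit 0, nat_lit 2566, nat_lit 2211, nat_lit 145, nat_lit 0, nat_lit 0, nat_lit 245, nat_lit 0, nat_lit 0, nat_lit 0, nat_lit 0, nat_lit 0, nat_lit 286000, nat_lit 0, nat_lit 0, [(nat_lit 29, [(nat_lit 1, nat_lit 715)])],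
 ⟨p114_k10, nat_lit 0, nat_lit 0, nat_lit 128, nat_lit 0, nat_lit 0, [nat_lit 766686000, nat_lit 1172750000, nat_lit 1848460000], [], [nat_lit 23630113289, nat_lit 23802155094, nat_lit 24941240774, nat_lit 25101208984, nat_lit 23251992141, nat_lit 23419142345, nat_lit 24538049855, nat_lit 24693649192], nat_lit 0, nat_lit 0, nat_lit 0, nat_lit 0, nat_lit 0, nat_lit 0, [], [nat_lit 20, nat_lit 40, nat_lit 40, nat_lit 80, nat_lit 16, nat_lit 226, nat_lit 20, nat_lit 7]⟩, ⟨p114_k8, nat_lit 0, nat_lit 0, nat_lit 605, nat_lit 0, nat_lit 644931, [nat_lit 1336080000, nat_lit 2270880000, nat_lit 4006530000], [], [nat_lit 9791058552, nat_lit 9913484628, nat_lit 10017962100, nat_lit 10122439572, nat_lit 8705812984, nat_lit 8746029168, nat_lit 8829032318, nat_lit 8935078505], nat_lit 1271250, nat_lit 1271250, nat_lit 1271250, nat_lit 1271250, nat_lit 0, nat_lit 2373000, [nat_lit 1100000, nat_lit 1785000, nat_lit 1271250], [nat_lit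 37, nat_lit 40, nat_lit 40, nat_lit 80, nat_lit 28, nat_lit 456, nat_lit 225, nat_lit 10]⟩,
 ⟨nat_lit 1732, nat_lit 1937, ⟨.ofNat (nat_lit 624916), .ofNat (nat_lit 680809), .ofNat (nat_lit 647923), .ofNat (nat_lit 703819), .ofNat (nat_lit 624700), .ofNat (nat_lit 679862), .ofNat (nat_lit 647878), .ofNat (nat_lit 703043)⟩, ⟨.ofNat (nat_lit 100000), .ofNat (nat_lit 200000), .ofNat (nat_lit 100000), .ofNat (nat_lit 200000), .ofNat (nat_lit 100000), .ofNat (nat_lit 200000), .ofNat (nat_lit 100000), .ofNat (nat_lit 200000)⟩⟩, [⟨nat_lit 3, nat_lit 100, nat_lit 40, nat_lit 75, nat_lit 95096143⟩, ⟨nat_lit 22, nat_lit 100, nat_lit 92, nat_lit 75, nat_lit 48484539⟩]⟩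
noncomputable def p114_l13 : Lf2 := ⟨nat_lit 0, nat_lit 30, [nat_lit 15, nat_lit 5, nat_lit 5, nat_lit 20], false, nat_lit 44, nat_lit 80, nat_lit 0, nat_lit 336, ⟨nat_lit 270, nat_lit 730, nat_lit 0, nat_lit 6, nat_lit 265, nat_lit 730, nat_lit 62, nat_lit 0, nat_lit 0, nat_lit 0, nat_lit 0, nat_lit 0, nat_lit 44813553, nat_lit 20095454, nat_lit 2090993, nat_lit 3845326, true, false⟩,
 nat_lit 0, nat_lit 0, nat_lit 3565, nat_lit 0, nat_lit 2694, nat_lit 2075, nat_lit 214, nat_lit 0, nat_lit 0, nat_lit 232, nat_lit 0, nat_lit 0, nat_lit 0, nat_lit 0, nat_lit 0, nat_lit 182500, nat_lit 0, nat_lit 0, [(nat_lit 29, [(nat_lit 0, nat_lit 730)])],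
 ⟨p114_k11, nat_lit 0, nat_lit 0, nat_lit 126, nat_lit 0, nat_lit 0, [nat_lit 823828001, nat_lit 1649720000, nat_lit 2991572000], [], [nat_lit 23982903173, nat_lit 24099615728, nat_lit 25291165729, nat_lit 25400048221, nat_lit 23594167236, nat_lit 23707861978, nat_lit 24879985493, nat_lit 24985727190], nat_lit 0, nat_lit 0, nat_lit 0, nat_lit 0, nat_lit 0, nat_lit 0, [], [nat_lit 20, nat_lit 40, nat_lit 40, nat_lit 80, nat_lit 16, nat_lit 226, nat_lit 20, nat_lit 7]⟩, ⟨p114_k8, nat_lit 0, nat_lit 0, nat_lit 617, nat_lit 0, nat_lit 680798, [nat_lit 1265760000, nat_lit 2151360000, nat_lit 3795660000], [], [nat_lit 9314081020, nat_lit 9430065660, nat_lit 9529175810, nat_lit 9628285960, nat_lit 8309912890, nat_lit 8348571140, nat_lit 8409550400, nat_lit 8476962705], nat_lit 1271250, nat_lit 1271250, nat_lit 1271250, nat_lit 1271250, nat_lit 0, nat_lit 2373000, [nat_lit 1100000, nat_lit 1785000, nat_lit 1271250], [nat_lit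 37, nat_lit 40, nat_lit 40, nat_lit 80, nat_lit 28, nat_lit 456, nat_lit 225, nat_lit 10]⟩,
 ⟨nat_lit 1581, nat_lit 1733, ⟨.ofNat (nat_lit 624702), .ofNat (nat_lit 679862), .ofNat (nat_lit 647882), .ofNat (nat_lit 703044), .ofNat (nat_lit 624577), .ofNat (nat_lit 679215), .ofNat (nat_lit 647890), .ofNat (nat_lit 702530)⟩, ⟨.ofNat (nat_lit 110000), .ofNat (nat_lit 200000), .ofNat (nat_lit 110000), .ofNat (nat_lit 200000), .ofNat (nat_lit 110000), .ofNat (nat_lit 200000), .ofNat (nat_lit 110000), .ofNat (nat_lit 200000)⟩⟩, [⟨nat_lit 3, nat_lit 100, nat_lit 37, nat_lit 78, nat_lit 144044947⟩, ⟨nat_lit 22, nat_lit 100, nat_lit 92, nat_lit 76, nat_lit 44788880⟩]⟩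
noncomputable def p114_l14 : Lf2 := ⟨nat_lit 0, nat_lit 30, [nat_lit 15, nat_lit 5, nat_lit 5, nat_lit 20], false, nat_lit 48, nat_lit 80, nat_lit 0, nat_lit 160, ⟨nat_lit 236, nat_lit 764, nat_lit 0, nat_lit 6, nat_lit 265, nat_lit 764, nat_lit 64, nat_lit 0, nat_lit 0, nat_lit 0, nat_lit 0, nat_lit 0, nat_lit 44779978, nat_lit 20026992, nat_lit 2193030, nat_lit 3869279, true, false⟩,
 nat_lit 0, nat_lit 0, nat_lit 3274, nat_lit 0, nat_lit 2808, nat_lit 1905, nat_lit 190, nat_lit 0, nat_lit 0, nat_lit 216, nat_lit 0, nat_lit 0, nat_lit 0, nat_lit 0, nat_lit 0, nat_lit 191000, nat_lit 0, nat_lit 0, [(nat_lit 29, [(nat_lit 0, nat_lit 764)])],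
 ⟨p114_k7, nat_lit 0, nat_lit 0, nat_lit 129, nat_lit 0, nat_lit 0, [nat_lit 818510401, nat_lit 1573696000, nat_lit 2839809600], [], [nat_lit 24098908650, nat_lit 24720538580, nat_lit 25525634895, nat_lit 26226564762, nat_lit 23637677784, nat_lit 24216221232, nat_lit 24925392368, nat_lit 25466694784], nat_lit 0, nat_lit 0, nat_lit 0, nat_lit 0, nat_lit 0, nat_lit 0, [], [nat_lit 20, nat_lit 40, nat_lit 40, nat_lit 80, nat_lit 16, nat_lit 226, nat_lit 20, nat_lit 7]⟩, ⟨p114_k8, nat_lit 0, nat_lit 0, nat_lit 725, nat_lit 0, nat_lit 864111, [nat_lit 1106368000, nat_lit 1880448000, nat_lit 3317688000], [], [nat_lit 7941007000, nat_lit 8000798984, nat_lit 8049194142, nat_lit 8097589300, nat_lit 6660268254, nat_lit 6734006944, nat_lit 6804261950, nat_lit 6874516956], nat_lit 1271250, nat_lit 1271250, nat_lit 1271250, nat_lit 1271250, nat_lit 0, nat_lit 1100001, [nat_lit 1100000, nat_lit 1785000, nat_lit 1271250], [nat_lit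 37, nat_lit 40, nat_lit 40, nat_lit 80, nat_lit 28, nat_lit 428, nat_lit 200, nat_lit 10]⟩,
 ⟨nat_lit 0, nat_lit 1582, ⟨.ofNat (nat_lit 623921), .ofNat (nat_lit 679215), .ofNat (nat_lit 646579), .ofNat (nat_lit 702515), .ofNat (nat_lit 624340), .ofNat (nat_lit 674999), .ofNat (nat_lit 648683), .ofNat (nat_lit 699984)⟩, ⟨.ofNat (nat_lit 120000), .ofNat (nat_lit 200000), .ofNat (nat_lit 120000), .ofNat (nat_lit 200000), .ofNat (nat_lit 120000), .ofNat (nat_lit 200000), .ofNat (nat_lit 120000), .ofNat (nat_lit 200000)⟩⟩, [⟨nat_lit 3, nat_lit 100, nat_lit 25, nat_lit 86, nat_lit 709697931⟩]⟩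
noncomputable def p114_l15 : Lf2 := ⟨nat_lit 0, nat_lit 30, [nat_lit 15, nat_lit 5, nat_lit 5, nat_lit 20], false, nat_lit 48, nat_lit 80, nat_lit 160, nat_lit 336, ⟨nat_lit 174, nat_lit 323, nat_lit 503, nat_lit 6, nat_lit 263, nat_lit 826, nat_lit 64, nat_lit 503, nat_lit 38400, nat_lit 263, nat_lit 110496, nat_lit 200, nat_lit 45017593, nat_lit 19783609, nat_lit 2198798, nat_lit 3855738, true, false⟩,
 nat_lit 0, nat_lit 0, nat_lit 2290, nat_lit 0, nat_lit 2766, nat_lit 1332, nat_lit 0, nat_lit 0, nat_lit 0, nat_lit 146, nat_lit 0, nat_lit 0, nat_lit 0, nat_lit 0, nat_lit 0, nat_lit 206500, nat_lit 0, nat_lit 0, [(nat_lit 29, [(nat_lit 0, nat_lit 323), (nat_lit 4, nat_lit 503)])],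
 ⟨p114_k7, nat_lit 0, nat_lit 0, nat_lit 129, nat_lit 0, nat_lit 0, [nat_lit 798753601, nat_lit 399420534, nat_lit 345641200], [], [nat_lit 24105817959, nat_lit 24720075008, nat_lit 25447191209, nat_lit 26143342804, nat_lit 23658703016, nat_lit 24233536562, nat_lit 24942788884, nat_lit 25477147138], nat_lit 0, nat_lit 0, nat_lit 0, nat_lit 0, nat_lit 0, nat_lit 0, [], [nat_lit 20, nat_lit 40, nat_lit 40, nat_lit 80, nat_lit 16, nat_lit 226, nat_lit 20, nat_lit 7]⟩, ⟨p114_k8, nat_lit 0, nat_lit 0, nat_lit 567, nat_lit 0, nat_lit 808619, [nat_lit 815712000, nat_lit 1386432000, nat_lit 2446092000], [], [nat_lit 5127710292, nat_lit 5157446574, nat_lit 5237467728, nat_lit 5262610164, nat_lit 5422529108, nat_lit 5435059966, nat_lit 5466064035, nat_lit 5475300640], nat_lit 1271250, nat_lit 1271250, nat_lit 1271250, nat_lit 1271250, nat_lit 1100001, nat_lit 2607000, [nat_lit 1100000, nat_lit 1785000, nat_lit 1271250], [nat_lit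 37, nat_lit 40, nat_lit 40, nat_lit 80, nat_lit 28, nat_lit 456, nat_lit 225, nat_lit 10]⟩,
 ⟨nat_lit 0, nat_lit 1582, ⟨.ofNat (nat_lit 623921), .ofNat (nat_lit 679215), .ofNat (nat_lit 635250), .ofNat (nat_lit 690873), .ofNat (nat_lit 624340), .ofNat (nat_lit 674999), .ofNat (nat_lit 636512), .ofNat (nat_lit 687499)⟩, ⟨.ofNat (nat_lit 120000), .ofNat (nat_lit 200000), .ofNat (nat_lit 120000), .ofNat (nat_lit 200000), .ofNat (nat_lit 120000), .ofNat (nat_lit 200000), .ofNat (nat_lit 120000), .ofNat (nat_lit 200000)⟩⟩, [⟨nat_lit 3, nat_lit 100, nat_lit 25, nat_lit 86, nat_lit 493434771⟩, ⟨nat_lit 22, nat_lit 100, nat_lit 91, nat_lit 77, nat_lit 59432794⟩]⟩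
noncomputable def p114_l16 : Lf2 := ⟨nat_lit 0, nat_lit 30, [nat_lit 15, nat_lit 5, nat_lit 5, nat_lit 20], false, nat_lit 48, nat_lit 80, nat_lit 160, nat_lit 336, ⟨nat_lit 191, nat_lit 809, nat_lit 0, nat_lit 6, nat_lit 267, nat_lit 809, nat_lit 64, nat_lit 0, nat_lit 0, nat_lit 0, nat_lit 0, nat_lit 0, nat_lit 44542704, nat_lit 20270135, nat_lit 2187161, nat_lit 3882451, true, false⟩,
 nat_lit 0, nat_lit 0, nat_lit 2264, nat_lit 0, nat_lit 2793, nat_lit 1378, nat_lit 176, nat_lit 0, nat_lit 0, nat_lit 179, nat_lit 0, nat_lit 0, nat_lit 0, nat_lit 0, nat_lit 0, nat_lit 202250, nat_lit 0, nat_lit 0, [(nat_lit 29, [(nat_lit 0, nat_lit 809)])],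
 ⟨p114_k7, nat_lit 0, nat_lit 0, nat_lit 129, nat_lit 0, nat_lit 0, [nat_lit 811472401, nat_lit 1473076000, nat_lit 2638947600], [], [nat_lit 24078523064, nat_lit 24695376584, nat_lit 25497619293, nat_lit 26196842634, nat_lit 23622369599, nat_lit 24199588082, nat_lit 24908788213, nat_lit 25445265130], nat_lit 0, nat_lit 0, nat_lit 0, nat_lit 0, nat_lit 0, nat_lit 0, [], [nat_lit 20, nat_lit 40, nat_lit 40, nat_lit 80, nat_lit 16, nat_lit 226, nat_lit 20, nat_lit 7]⟩, ⟨p114_k9, nat_lit 0, nat_lit 0, nat_lit 565, nat_lit 0, nat_lit 807535, [nat_lit 895408000, nat_lit 1521888000, nat_lit 2685078000], [], [nat_lit 5235405295, nat_lit 5261145232, nat_lit 5335310926, nat_lit 5363476560, nat_lit 5640868462, nat_lit 5663225238, nat_lit 5730568159, nat_lit 5760592315], nat_lit 1271250, nat_lit 1271250, nat_lit 1271250, nat_lit 1271250, nat_lit 1100001, nat_lit 2607000, [nat_lit 1100000, nat_lit 1785000, nat_lit 1271250], [nat_lit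 37, nat_lit 40, nat_lit 40, nat_lit 80, nat_lit 28, nat_lit 456, nat_lit 225, nat_lit 10]⟩,
 ⟨nat_lit 0, nat_lit 1582, ⟨.ofNat (nat_lit 635250), .ofNat (nat_lit 690873), .ofNat (nat_lit 646579), .ofNat (nat_lit 702515), .ofNat (nat_lit 636512), .ofNat (nat_lit 687499), .ofNat (nat_lit 648683), .ofNat (nat_lit 699984)⟩, ⟨.ofNat (nat_lit 120000), .ofNat (nat_lit 200000), .ofNat (nat_lit 120000), .ofNat (nat_lit 200000), .ofNat (nat_lit 120000), .ofNat (nat_lit 200000), .ofNat (nat_lit 120000), .ofNat (nat_lit 200000)⟩⟩, [⟨nat_lit 3, nat_lit 100, nat_lit 25, nat_lit 86, nat_lit 467641350⟩, ⟨nat_lit 22, nat_lit 100, nat_lit 91, nat_lit 77, nat_lit 71229723⟩]⟩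
noncomputable def b_V_900_600_20_37 : St := ⟨true, nat_lit 0, nat_lit 1, nat_lit 1, nat_lit 120, nat_lit 380, nat_lit 400, nat_lit 240, nat_lit 280, nat_lit 240, nat_lit 280, nat_lit 80, nat_lit 120, nat_lit 20, nat_lit 80, nat_lit 0, nat_lit 336, nat_lit 80, nat_lit 120, nat_lit 0, nat_lit 0, nat_lit 0, nat_lit 0⟩
theorem d_V_900_600_20_37 (h : EB TB.env) : Dead b_V_900_600_20_37 := chkB_sound0 h (T :=
(.spl (nat_lit 3) (nat_lit 100)
(.spl (nat_lit 1) (nat_lit 260)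
(.spl (nat_lit 0) (nat_lit 390)
(.leaf p114_l0)
(.trZ (nat_lit 3) (nat_lit 100) (nat_lit 39) (nat_lit 72) (nat_lit 36) (.leaf p114_l1)))
(.spl (nat_lit 0) (nat_lit 390)
(.spl (nat_lit 5) (nat_lit 160)
(.leaf p114_l2)
(.leaf p114_l3))
(.trZ (nat_lit 3) (nat_lit 100) (nat_lit 39) (nat_lit 72) (nat_lit 36) (.leaf p114_l4))))
(.trZ (nat_lit 3) (nat_lit 100) (nat_lit 50) (nat_lit 65) (nat_lit 32) (.spl (nat_lit 1) (nat_lit 260)
(.spl (nat_lit 0) (nat_lit 390)
(.spl (nat_lit 5) (nat_lit 160)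
(.leaf p114_l5)
(.spl (nat_lit 1) (nat_lit 250)
(.leaf p114_l6)
(.leaf p114_l7)))
(.trZ (nat_lit 3) (nat_lit 100) (nat_lit 36) (nat_lit 77) (nat_lit 48) (.spl (nat_lit 1) (nat_lit 250)
(.leaf p114_l8)
(.leaf p114_l9))))
(.spl (nat_lit 0) (nat_lit 390)
(.spl (nat_lit 0) (nat_lit 385)
(.spl (nat_lit 1) (nat_lit 270)
(.leaf p114_l10)
(.leaf p114_l11))
(.trZ (nat_lit 3) (nat_lit 100) (nat_lit 44) (nat_lit 71) (nat_lit 40) (.spl (nat_lit 0) (nat_lit 388)
(.leaf p114_l12)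
(.trZ (nat_lit 3) (nat_lit 100) (nat_lit 39) (nat_lit 74) (nat_lit 44) (.leaf p114_l13)))))
(.trZ (nat_lit 3) (nat_lit 100) (nat_lit 36) (nat_lit 77) (nat_lit 48) (.spl (nat_lit 5) (nat_lit 160)
(.leaf p114_l14)
(.spl (nat_lit 1) (nat_lit 270)
(.leaf p114_l15)
(.leaf p114_l16))))))))) (by decide +kernel)
noncomputable def p114_l17 : Lf2 := ⟨nat_lit 0, nat_lit 25, [nat_lit 44, nat_lit 5, nat_lit 5, nat_lit 20], false, nat_lit 20, nat_lit 40, nat_lit 0, nat_lit 248, ⟨nat_lit 137, nat_lit 863, nat_lit 0, nat_lit 7, nat_lit 277, nat_lit 863, nat_lit 30, nat_lit 0, nat_lit 0, nat_lit 0, nat_lit 0, nat_lit 0, nat_lit 44776665, nat_lit 21523546, nat_lit 699789, nat_lit 3479182, true, true⟩,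
 nat_lit 0, nat_lit 0, nat_lit 2459, nat_lit 0, nat_lit 2537, nat_lit 1301, nat_lit 42, nat_lit 0, nat_lit 0, nat_lit 123, nat_lit 0, nat_lit 0, nat_lit 0, nat_lit 0, nat_lit 0, nat_lit 345200, nat_lit 0, nat_lit 0, [(nat_lit 29, [(nat_lit 1, nat_lit 863)])],
 ⟨p114_k0, nat_lit 0, nat_lit 0, nat_lit 147, nat_lit 0, nat_lit 0, [nat_lit 731225200, nat_lit 736150001, nat_lit 937372000], [], [nat_lit 25286727987, nat_lit 25846254168, nat_lit 26827792889, nat_lit 27343067816, nat_lit 25116047618, nat_lit 25635366126, nat_lit 26576907296, nat_lit 27057308122], nat_lit 0, nat_lit 0, nat_lit 0, nat_lit 0, nat_lit 0, nat_lit 0, [], [nat_lit 20, nat_lit 40, nat_lit 40, nat_lit 80, nat_lit 16, nat_lit 215, nat_lit 10, nat_lit 7]⟩, ⟨p114_k1, nat_lit 0, nat_lit 0, nat_lit 667, nat_lit 0, nat_lit 820426, [nat_lit 642256000, nat_lit 1091616000, nat_lit 1925946000], [], [nat_lit 5020717924, nat_lit 5041027925, nat_lit 5176043688, nat_lit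 5190904839, nat_lit 3941040743, nat_lit 3953654446, nat_lit 4042077493, nat_lit 4050885644], nat_lit 1271250, nat_lit 1271250, nat_lit 1271250, nat_lit 1271250, nat_lit 0, nat_lit 1751500, [nat_lit 1100000, nat_lit 1785000, nat_lit 1271250], [nat_lit 37, nat_lit 40, nat_lit 40, nat_lit 80, nat_lit 28, nat_lit 456, nat_lit 225, nat_lit 10]⟩,
 ⟨nat_lit 1581, nat_lit 2237, ⟨.ofNat (nat_lit 659578), .ofNat (nat_lit 716594), .ofNat (nat_lit 670965), .ofNat (nat_lit 727981), .ofNat (nat_lit 655900), .ofNat (nat_lit 710536), .ofNat (nat_lit 667558), .ofNat (nat_lit 722193)⟩, ⟨.ofNat (nat_lit 50000), .ofNat (nat_lit 100000), .ofNat (nat_lit 50000), .ofNat (nat_lit 100000), .ofNat (nat_lit 50000), .ofNat (nat_lit 100000), .ofNat (nat_lit 50000), .ofNat (nat_lit 100000)⟩⟩, [⟨nat_lit 13, nat_lit 39, nat_lit 84, nat_lit 100, nat_lit 275268784⟩, ⟨nat_lit 13, nat_lit 32, nat_lit 89, nat_lit 100, nat_lit 62161515⟩, ⟨nat_lit 3, nat_lit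 100, nat_lit 45, nat_lit 67, nat_lit 261358922⟩]⟩
noncomputable def p114_l18 : Lf2 := ⟨nat_lit 0, nat_lit 25, [nat_lit 44, nat_lit 5, nat_lit 5, nat_lit 20], false, nat_lit 40, nat_lit 80, nat_lit 0, nat_lit 300, ⟨nat_lit 138, nat_lit 862, nat_lit 0, nat_lit 7, nat_lit 277, nat_lit 862, nat_lit 59, nat_lit 0, nat_lit 0, nat_lit 0, nat_lit 0, nat_lit 0, nat_lit 43809217, nat_lit 21252440, nat_lit 1938343, nat_lit 3869601, true, true⟩,
 nat_lit 0, nat_lit 0, nat_lit 2347, nat_lit 0, nat_lit 2451, nat_lit 1242, nat_lit 66, nat_lit 0, nat_lit 0, nat_lit 106, nat_lit 0, nat_lit 0, nat_lit 0, nat_lit 0, nat_lit 0, nat_lit 344800, nat_lit 0, nat_lit 0, [(nat_lit 29, [(nat_lit 1, nat_lit 862)])],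
 ⟨p114_k0, nat_lit 0, nat_lit 0, nat_lit 136, nat_lit 0, nat_lit 0, [nat_lit 731464800, nat_lit 739100000, nat_lit 943528000], [], [nat_lit 24781816812, nat_lit 25305659716, nat_lit 26253952866, nat_lit 26741467148, nat_lit 24429918308, nat_lit 24939558827, nat_lit 25870165688, nat_lit 26342027599], nat_lit 0, nat_lit 0, nat_lit 0, nat_lit 0, nat_lit 0, nat_lit 0, [], [nat_lit 20, nat_lit 40, nat_lit 40, nat_lit 80, nat_lit 16, nat_lit 226, nat_lit 20, nat_lit 7]⟩, ⟨p114_k1, nat_lit 0, nat_lit 0, nat_lit 667, nat_lit 0, nat_lit 820426, [nat_lit 646944000, nat_lit 1099584000, nat_lit 1940004000], [], [nat_lit 5445151016, nat_lit 5466081890, nat_lit 5599972112, nat_lit 5615655950, nat_lit 4353853356, nat_lit 4362832706, nat_lit 4436044914, nat_lit 4441704191], nat_lit 1271250, nat_lit 1271250, nat_lit 1271250, nat_lit 1271250, nat_lit 0, nat_lit 2118750, [nat_lit 1100000, nat_lit 1785000, nat_lit 1271250], [nat_lit 37,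 nat_lit 40, nat_lit 40, nat_lit 80, nat_lit 28, nat_lit 456, nat_lit 225, nat_lit 10]⟩,
 ⟨nat_lit 1581, nat_lit 2237, ⟨.ofNat (nat_lit 659578), .ofNat (nat_lit 716594), .ofNat (nat_lit 670965), .ofNat (nat_lit 727981), .ofNat (nat_lit 655900), .ofNat (nat_lit 710536), .ofNat (nat_lit 667558), .ofNat (nat_lit 722193)⟩, ⟨.ofNat (nat_lit 100000), .ofNat (nat_lit 192306), .ofNat (nat_lit 100000), .ofNat (nat_lit 200000), .ofNat (nat_lit 100000), .ofNat (nat_lit 196201), .ofNat (nat_lit 100000), .ofNat (nat_lit 200000)⟩⟩, [⟨nat_lit 13, nat_lit 39, nat_lit 84, nat_lit 100, nat_lit 299666581⟩, ⟨nat_lit 22, nat_lit 90, nat_lit 100, nat_lit 74, nat_lit 7715681⟩]⟩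
noncomputable def p114_l19 : Lf2 := ⟨nat_lit 0, nat_lit 25, [nat_lit 44, nat_lit 5, nat_lit 5, nat_lit 20], false, nat_lit 20, nat_lit 80, nat_lit 0, nat_lit 160, ⟨nat_lit 186, nat_lit 814, nat_lit 0, nat_lit 7, nat_lit 281, nat_lit 814, nat_lit 49, nat_lit 0, nat_lit 0, nat_lit 0, nat_lit 0, nat_lit 0, nat_lit 43706428, nat_lit 21827781, nat_lit 1465791, nat_lit 3759881, true, true⟩,
 nat_lit 0, nat_lit 0, nat_lit 2737, nat_lit 0, nat_lit 2493, nat_lit 1520, nat_lit 76, nat_lit 0, nat_lit 0, nat_lit 164, nat_lit 0, nat_lit 0, nat_lit 0, nat_lit 0, nat_lit 0, nat_lit 325600, nat_lit 0, nat_lit 0, [(nat_lit 29, [(nat_lit 1, nat_lit 814)])],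
 ⟨p114_k0, nat_lit 0, nat_lit 0, nat_lit 147, nat_lit 0, nat_lit 0, [nat_lit 742965601, nat_lit 880700001, nat_lit 1239016000], [], [nat_lit 25271209212, nat_lit 25794231855, nat_lit 26742239708, nat_lit 27228740935, nat_lit 24832429651, nat_lit 25306550692, nat_lit 26226524375, nat_lit 26691190015], nat_lit 0, nat_lit 0, nat_lit 0, nat_lit 0, nat_lit 0, nat_lit 0, [], [nat_lit 20, nat_lit 40, nat_lit 40, nat_lit 80, nat_lit 16, nat_lit 226, nat_lit 20, nat_lit 7]⟩, ⟨p114_k12, nat_lit 0, nat_lit 0, nat_lit 659, nat_lit 0, nat_lit 814560, [nat_lit 871968000, nat_lit 1482048000, nat_lit 2614788000], [], [nat_lit 6879883648, nat_lit 6898758392, nat_lit 7015970710, nat_lit 7035704652, nat_lit 5841879472, nat_lit 5869467960, nat_lit 6011985006, nat_lit 6034312828], nat_lit 1271250, nat_lit 1271250, nat_lit 1271250, nat_lit 1271250, nat_lit 0, nat_lit 1100001, [nat_lit 1100000, nat_lit 1785000, nat_lit 1271250], [nat_lit 37,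 nat_lit 40, nat_lit 40, nat_lit 80, nat_lit 28, nat_lit 428, nat_lit 200, nat_lit 10]⟩,
 ⟨nat_lit 1581, nat_lit 2237, ⟨.ofNat (nat_lit 670965), .ofNat (nat_lit 727981), .ofNat (nat_lit 682352), .ofNat (nat_lit 739368), .ofNat (nat_lit 667558), .ofNat (nat_lit 722193), .ofNat (nat_lit 679215), .ofNat (nat_lit 733851)⟩, ⟨.ofNat (nat_lit 50000), .ofNat (nat_lit 192306), .ofNat (nat_lit 50000), .ofNat (nat_lit 200000), .ofNat (nat_lit 50000), .ofNat (nat_lit 196201), .ofNat (nat_lit 50000), .ofNat (nat_lit 200000)⟩⟩, [⟨nat_lit 13, nat_lit 32, nat_lit 87, nat_lit 100, nat_lit 332093455⟩, ⟨nat_lit 3, nat_lit 100, nat_lit 36, nat_lit 77, nat_lit 272248833⟩]⟩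
noncomputable def p114_l20 : Lf2 := ⟨nat_lit 0, nat_lit 25, [nat_lit 44, nat_lit 5, nat_lit 5, nat_lit 20], false, nat_lit 20, nat_lit 80, nat_lit 160, nat_lit 300, ⟨nat_lit 177, nat_lit 823, nat_lit 0, nat_lit 7, nat_lit 281, nat_lit 823, nat_lit 49, nat_lit 0, nat_lit 0, nat_lit 0, nat_lit 0, nat_lit 0, nat_lit 43706428, nat_lit 21827781, nat_lit 1465791, nat_lit 3759881, true, true⟩,
 nat_lit 0, nat_lit 0, nat_lit 2734, nat_lit 0, nat_lit 2488, nat_lit 1518, nat_lit 71, nat_lit 0, nat_lit 0, nat_lit 166, nat_lit 0, nat_lit 0, nat_lit 0, nat_lit 0, nat_lit 0, nat_lit 329200, nat_lit 0, nat_lit 0, [(nat_lit 29, [(nat_lit 1, nat_lit 823)])],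
 ⟨p114_k0, nat_lit 0, nat_lit 0, nat_lit 147, nat_lit 0, nat_lit 0, [nat_lit 740809201, nat_lit 854150000, nat_lit 1183612000], [], [nat_lit 25269592822, nat_lit 25792211102, nat_lit 26739885458, nat_lit 27223234024, nat_lit 24833586920, nat_lit 25307272502, nat_lit 26226932030, nat_lit 26691265270], nat_lit 0, nat_lit 0, nat_lit 0, nat_lit 0, nat_lit 0, nat_lit 0, [], [nat_lit 20, nat_lit 40, nat_lit 40, nat_lit 80, nat_lit 16, nat_lit 226, nat_lit 20, nat_lit 7]⟩, ⟨p114_k12, nat_lit 0, nat_lit 0, nat_lit 564, nat_lit 0, nat_lit 814560, [nat_lit 829776000, nat_lit 1410336000, nat_lit 2488266000], [], [nat_lit 4955887630, nat_lit 4980365356, nat_lit 5118435289, nat_lit 5137498810, nat_lit 5167259861, nat_lit 5193195882, nat_lit 5334788279, nat_lit 5355240762], nat_lit 1271250, nat_lit 1271250, nat_lit 1271250, nat_lit 1271250, nat_lit 1100001, nat_lit 2298750, [nat_lit 1100000, nat_lit 1785000, nat_lit 1271250], [nat_lit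 37, nat_lit 40, nat_lit 40, nat_lit 80, nat_lit 28, nat_lit 456, nat_lit 225, nat_lit 10]⟩,
 ⟨nat_lit 1581, nat_lit 2237, ⟨.ofNat (nat_lit 670965), .ofNat (nat_lit 727981), .ofNat (nat_lit 682352), .ofNat (nat_lit 739368), .ofNat (nat_lit 667558), .ofNat (nat_lit 722193), .ofNat (nat_lit 679215), .ofNat (nat_lit 733851)⟩, ⟨.ofNat (nat_lit 50000), .ofNat (nat_lit 192306), .ofNat (nat_lit 50000), .ofNat (nat_lit 200000), .ofNat (nat_lit 50000), .ofNat (nat_lit 196201), .ofNat (nat_lit 50000), .ofNat (nat_lit 200000)⟩⟩, [⟨nat_lit 13, nat_lit 32, nat_lit 87, nat_lit 100, nat_lit 188085097⟩, ⟨nat_lit 3, nat_lit 100, nat_lit 36, nat_lit 77, nat_lit 71366548⟩, ⟨nat_lit 22, nat_lit 88, nat_lit 100, nat_lit 63, nat_lit 84437981⟩]⟩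
noncomputable def p114_l21 : Lf2 := ⟨nat_lit 0, nat_lit 25, [nat_lit 44, nat_lit 5, nat_lit 5, nat_lit 20], false, nat_lit 36, nat_lit 80, nat_lit 0, nat_lit 300, ⟨nat_lit 82, nat_lit 918, nat_lit 0, nat_lit 7, nat_lit 276, nat_lit 918, nat_lit 58, nat_lit 0, nat_lit 0, nat_lit 0, nat_lit 0, nat_lit 0, nat_lit 43878552, nat_lit 21260604, nat_lit 1860844, nat_lit 3847835, true, true⟩,
 nat_lit 0, nat_lit 0, nat_lit 1415, nat_lit 0, nat_lit 2559, nat_lit 748, nat_lit 73, nat_lit 0, nat_lit 0, nat_lit 60, nat_lit 0, nat_lit 0, nat_lit 0, nat_lit 0, nat_lit 0, nat_lit 229500, nat_lit 0, nat_lit 0, [(nat_lit 29, [(nat_lit 0, nat_lit 918)])],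
 ⟨p114_k2, nat_lit 0, nat_lit 0, nat_lit 128, nat_lit 0, nat_lit 0, [nat_lit 794424801, nat_lit 1229352001, nat_lit 1647951200], [], [nat_lit 25640662862, nat_lit 26152977998, nat_lit 27058297747, nat_lit 27676719532, nat_lit 25310829461, nat_lit 25807055746, nat_lit 26685499240, nat_lit 27145558266], nat_lit 0, nat_lit 0, nat_lit 0, nat_lit 0, nat_lit 0, nat_lit 0, [], [nat_lit 35, nat_lit 40, nat_lit 40, nat_lit 80, nat_lit 22, nat_lit 226, nat_lit 20, nat_lit 8]⟩, ⟨p114_k1, nat_lit 0, nat_lit 0, nat_lit 806, nat_lit 0, nat_lit 1103169, [nat_lit 384416000, nat_lit 653376000, nat_lit 1152756000], [], [nat_lit 3290739824, nat_lit 3315476196, nat_lit 3382974168, nat_lit 3401404392, nat_lit 2640814336, nat_lit 2641342508, nat_lit 2667749180, nat_lit 2673191944], nat_lit 1271250, nat_lit 1271250, nat_lit 1271250, nat_lit 1271250, nat_lit 0, nat_lit 2118750, [nat_lit 1100000, nat_lit 1785000, nat_lit 1271250], [nat_lit 37,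 nat_lit 40, nat_lit 40, nat_lit 80, nat_lit 28, nat_lit 456, nat_lit 225, nat_lit 10]⟩,
 ⟨nat_lit 0, nat_lit 1582, ⟨.ofNat (nat_lit 655899), .ofNat (nat_lit 710533), .ofNat (nat_lit 679215), .ofNat (nat_lit 733849), .ofNat (nat_lit 649998), .ofNat (nat_lit 699996), .ofNat (nat_lit 674999), .ofNat (nat_lit 724997)⟩, ⟨.ofNat (nat_lit 90000), .ofNat (nat_lit 196201), .ofNat (nat_lit 90000), .ofNat (nat_lit 200000), .ofNat (nat_lit 90000), .ofNat (nat_lit 199999), .ofNat (nat_lit 90000), .ofNat (nat_lit 200000)⟩⟩, [⟨nat_lit 13, nat_lit 33, nat_lit 85, nat_lit 100, nat_lit 411328040⟩, ⟨nat_lit 3, nat_lit 100, nat_lit 39, nat_lit 72, nat_lit 289085863⟩, ⟨nat_lit 22, nat_lit 90, nat_lit 100, nat_lit 73, nat_lit 4076103⟩]⟩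
noncomputable def p114_l22 : Lf2 := ⟨nat_lit 0, nat_lit 25, [nat_lit 44, nat_lit 5, nat_lit 5, nat_lit 20], false, nat_lit 20, nat_lit 80, nat_lit 0, nat_lit 160, ⟨nat_lit 229, nat_lit 771, nat_lit 0, nat_lit 7, nat_lit 288, nat_lit 771, nat_lit 49, nat_lit 0, nat_lit 0, nat_lit 0, nat_lit 0, nat_lit 0, nat_lit 43015448, nat_lit 22531424, nat_lit 1453128, nat_lit 3791669, true, true⟩,
 nat_lit 0, nat_lit 0, nat_lit 2939, nat_lit 0, nat_lit 2514, nat_lit 1710, nat_lit 96, nat_lit 0, nat_lit 0, nat_lit 201, nat_lit 0, nat_lit 0, nat_lit 0, nat_lit 0, nat_lit 0, nat_lit 308400, nat_lit 0, nat_lit 0, [(nat_lit 29, [(nat_lit 1, nat_lit 771)])],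
 ⟨p114_k0, nat_lit 0, nat_lit 0, nat_lit 147, nat_lit 0, nat_lit 0, [nat_lit 753268401, nat_lit 1007550000, nat_lit 1503724000], [], [nat_lit 25324968885, nat_lit 25849689850, nat_lit 26799098393, nat_lit 27284281441, nat_lit 24893055906, nat_lit 25360283482, nat_lit 26271783059, nat_lit 26737844779], nat_lit 0, nat_lit 0, nat_lit 0, nat_lit 0, nat_lit 0, nat_lit 0, [], [nat_lit 20, nat_lit 40, nat_lit 40, nat_lit 80, nat_lit 16, nat_lit 226, nat_lit 20, nat_lit 7]⟩, ⟨p114_k3, nat_lit 0, nat_lit 0, nat_lit 715, nat_lit 0, nat_lit 874936, [nat_lit 1073552000, nat_lit 1824672000, nat_lit 3219282000], [], [nat_lit 8378635188, nat_lit 8428516880, nat_lit 8541721282, nat_lit 8580599936, nat_lit 7312676520, nat_lit 7364992584, nat_lit 7472383272, nat_lit 7514538244], nat_lit 1271250, nat_lit 1271250, nat_lit 1271250, nat_lit 1271250, nat_lit 0, nat_lit 1100001, [nat_lit 1100000, nat_lit 1785000, nat_lit 1271250], [nat_lit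 37, nat_lit 40, nat_lit 40, nat_lit 80, nat_lit 28, nat_lit 428, nat_lit 200, nat_lit 10]⟩,
 ⟨nat_lit 1581, nat_lit 2237, ⟨.ofNat (nat_lit 682352), .ofNat (nat_lit 739368), .ofNat (nat_lit 705117), .ofNat (nat_lit 762142), .ofNat (nat_lit 679215), .ofNat (nat_lit 733851), .ofNat (nat_lit 702521), .ofNat (nat_lit 757166)⟩, ⟨.ofNat (nat_lit 50000), .ofNat (nat_lit 192306), .ofNat (nat_lit 50000), .ofNat (nat_lit 200000), .ofNat (nat_lit 50000), .ofNat (nat_lit 196201), .ofNat (nat_lit 50000), .ofNat (nat_lit 200000)⟩⟩, [⟨nat_lit 3, nat_lit 100, nat_lit 36, nat_lit 77, nat_lit 246392389⟩]⟩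
noncomputable def p114_l23 : Lf2 := ⟨nat_lit 0, nat_lit 25, [nat_lit 44, nat_lit 5, nat_lit 5, nat_lit 20], false, nat_lit 20, nat_lit 80, nat_lit 160, nat_lit 300, ⟨nat_lit 226, nat_lit 774, nat_lit 0, nat_lit 7, nat_lit 288, nat_lit 774, nat_lit 49, nat_lit 0, nat_lit 0, nat_lit 0, nat_lit 0, nat_lit 0, nat_lit 43015448, nat_lit 22531424, nat_lit 1453128, nat_lit 3791669, true, true⟩,
 nat_lit 0, nat_lit 0, nat_lit 2972, nat_lit 0, nat_lit 2512, nat_lit 1729, nat_lit 95, nat_lit 0, nat_lit 0, nat_lit 211, nat_lit 0, nat_lit 0, nat_lit 0, nat_lit 0, nat_lit 0, nat_lit 309600, nat_lit 0, nat_lit 0, [(nat_lit 29, [(nat_lit 1, nat_lit 774)])],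
 ⟨p114_k0, nat_lit 0, nat_lit 0, nat_lit 147, nat_lit 0, nat_lit 0, [nat_lit 752549600, nat_lit 998700001, nat_lit 1485256000], [], [nat_lit 25317225331, nat_lit 25841784551, nat_lit 26791059695, nat_lit 27276101629, nat_lit 24883626183, nat_lit 25350718391, nat_lit 26264849123, nat_lit 26730777883], nat_lit 0, nat_lit 0, nat_lit 0, nat_lit 0, nat_lit 0, nat_lit 0, [], [nat_lit 20, nat_lit 40, nat_lit 40, nat_lit 80, nat_lit 16, nat_lit 226, nat_lit 20, nat_lit 7]⟩, ⟨p114_k3, nat_lit 0, nat_lit 0, nat_lit 584, nat_lit 0, nat_lit 874936, [nat_lit 1059488000, nat_lit 1800768000, nat_lit 3177108000], [], [nat_lit 6494892748, nat_lit 6560219684, nat_lit 6693752510, nat_lit 6746489096, nat_lit 6768917866, nat_lit 6837558915, nat_lit 6973343899, nat_lit 7029235852], nat_lit 1271250, nat_lit 1271250, nat_lit 1271250, nat_lit 1271250, nat_lit 1100001, nat_lit 2298750, [nat_lit 1100000, nat_lit 1785000, nat_lit 1271250], [nat_lit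 37, nat_lit 40, nat_lit 40, nat_lit 80, nat_lit 28, nat_lit 456, nat_lit 225, nat_lit 10]⟩,
 ⟨nat_lit 1581, nat_lit 2237, ⟨.ofNat (nat_lit 682352), .ofNat (nat_lit 739368), .ofNat (nat_lit 705117), .ofNat (nat_lit 762142), .ofNat (nat_lit 679215), .ofNat (nat_lit 733851), .ofNat (nat_lit 702521), .ofNat (nat_lit 757166)⟩, ⟨.ofNat (nat_lit 50000), .ofNat (nat_lit 192306), .ofNat (nat_lit 50000), .ofNat (nat_lit 200000), .ofNat (nat_lit 50000), .ofNat (nat_lit 196201), .ofNat (nat_lit 50000), .ofNat (nat_lit 200000)⟩⟩, [⟨nat_lit 10, nat_lit 100, nat_lit 85, nat_lit 67, nat_lit 104949112⟩]⟩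
noncomputable def p114_l24 : Lf2 := ⟨nat_lit 0, nat_lit 25, [nat_lit 44, nat_lit 5, nat_lit 5, nat_lit 20], false, nat_lit 36, nat_lit 80, nat_lit 0, nat_lit 300, ⟨nat_lit 91, nat_lit 909, nat_lit 0, nat_lit 7, nat_lit 286, nat_lit 909, nat_lit 58, nat_lit 0, nat_lit 0, nat_lit 0, nat_lit 0, nat_lit 0, nat_lit 42921651, nat_lit 22239695, nat_lit 1838654, nat_lit 3892882, true, true⟩,
 nat_lit 0, nat_lit 0, nat_lit 1253, nat_lit 0, nat_lit 2522, nat_lit 729, nat_lit 78, nat_lit 0, nat_lit 0, nat_lit 69, nat_lit 0, nat_lit 0, nat_lit 0, nat_lit 0, nat_lit 0, nat_lit 227250, nat_lit 0, nat_lit 0, [(nat_lit 29, [(nat_lit 0, nat_lit 909)])],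
 ⟨p114_k2, nat_lit 0, nat_lit 0, nat_lit 128, nat_lit 0, nat_lit 0, [nat_lit 795832400, nat_lit 1249476000, nat_lit 1677755600], [], [nat_lit 25659478462, nat_lit 26168920636, nat_lit 27065265513, nat_lit 27590888857, nat_lit 25343815764, nat_lit 25837299794, nat_lit 26713765046, nat_lit 27171425954], nat_lit 0, nat_lit 0, nat_lit 0, nat_lit 0, nat_lit 0, nat_lit 0, [], [nat_lit 35, nat_lit 40, nat_lit 40, nat_lit 80, nat_lit 22, nat_lit 226, nat_lit 20, nat_lit 8]⟩, ⟨p114_k3, nat_lit 0, nat_lit 0, nat_lit 786, nat_lit 0, nat_lit 1061582, [nat_lit 426608000, nat_lit 725088000, nat_lit 1279278000], [], [nat_lit 3412320356, nat_lit 3420060516, nat_lit 3450280948, nat_lit 3465321224, nat_lit 2907028222, nat_lit 2911093990, nat_lit 2935114437, nat_lit 2941119821], nat_lit 1271250, nat_lit 1271250, nat_lit 1271250, nat_lit 1271250, nat_lit 0, nat_lit 2118750, [nat_lit 1100000, nat_lit 1785000, nat_lit 1271250], [nat_lit 37,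 nat_lit 40, nat_lit 40, nat_lit 80, nat_lit 28, nat_lit 456, nat_lit 225, nat_lit 10]⟩,
 ⟨nat_lit 0, nat_lit 1582, ⟨.ofNat (nat_lit 679215), .ofNat (nat_lit 733849), .ofNat (nat_lit 702515), .ofNat (nat_lit 757165), .ofNat (nat_lit 674999), .ofNat (nat_lit 724997), .ofNat (nat_lit 699984), .ofNat (nat_lit 749998)⟩, ⟨.ofNat (nat_lit 90000), .ofNat (nat_lit 196201), .ofNat (nat_lit 90000), .ofNat (nat_lit 200000), .ofNat (nat_lit 90000), .ofNat (nat_lit 199999), .ofNat (nat_lit 90000), .ofNat (nat_lit 200000)⟩⟩, [⟨nat_lit 3, nat_lit 100, nat_lit 27, nat_lit 83, nat_lit 379484983⟩, ⟨nat_lit 22, nat_lit 90, nat_lit 100, nat_lit 73, nat_lit 11795971⟩]⟩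
noncomputable def p114_l25 : Lf2 := ⟨nat_lit 0, nat_lit 30, [nat_lit 15, nat_lit 5, nat_lit 5, nat_lit 20], false, nat_lit 32, nat_lit 80, nat_lit 0, nat_lit 160, ⟨nat_lit 302, nat_lit 698, nat_lit 0, nat_lit 7, nat_lit 279, nat_lit 698, nat_lit 56, nat_lit 0, nat_lit 0, nat_lit 0, nat_lit 0, nat_lit 0, nat_lit 43706318, nat_lit 21523843, nat_lit 1769839, nat_lit 3835686, true, true⟩,
 nat_lit 0, nat_lit 0, nat_lit 4330, nat_lit 0, nat_lit 2359, nat_lit 2292, nat_lit 229, nat_lit 0, nat_lit 0, nat_lit 315, nat_lit 0, nat_lit 0, nat_lit 0, nat_lit 0, nat_lit 0, nat_lit 279200, nat_lit 0, nat_lit 0, [(nat_lit 29, [(nat_lit 1, nat_lit 698)])],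
 ⟨p114_k4, nat_lit 0, nat_lit 0, nat_lit 159, nat_lit 0, nat_lit 0, [nat_lit 770759201, nat_lit 1222900000, nat_lit 2444586400], [], [nat_lit 24852517982, nat_lit 25340719916, nat_lit 26230846275, nat_lit 26686383802, nat_lit 24456712485, nat_lit 24929662425, nat_lit 25800569495, nat_lit 26244502403], nat_lit 0, nat_lit 0, nat_lit 0, nat_lit 0, nat_lit 0, nat_lit 0, [], [nat_lit 54, nat_lit 40, nat_lit 40, nat_lit 80, nat_lit 43, nat_lit 226, nat_lit 20, nat_lit 6]⟩, ⟨p114_k5, nat_lit 0, nat_lit 0, nat_lit 665, nat_lit 0, nat_lit 654036, [nat_lit 1415776000, nat_lit 2406336000, nat_lit 4952800000], [], [nat_lit 11490748187, nat_lit 11576316255, nat_lit 11778749211, nat_lit 11848834732, nat_lit 10090726376, nat_lit 10180746968, nat_lit 10364473216, nat_lit 10439109496], nat_lit 1271250, nat_lit 1271250, nat_lit 1271250, nat_lit 1271250, nat_lit 0, nat_lit 1100001, [nat_lit 1100000, nat_lit 1785000, nat_lit 1271250], [nat_lit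 122, nat_lit 40, nat_lit 40, nat_lit 80, nat_lit 111, nat_lit 428, nat_lit 200, nat_lit 9]⟩,
 ⟨nat_lit 1581, nat_lit 2237, ⟨.ofNat (nat_lit 659578), .ofNat (nat_lit 716594), .ofNat (nat_lit 682352), .ofNat (nat_lit 739368), .ofNat (nat_lit 655900), .ofNat (nat_lit 710536), .ofNat (nat_lit 679215), .ofNat (nat_lit 733851)⟩, ⟨.ofNat (nat_lit 80000), .ofNat (nat_lit 200000), .ofNat (nat_lit 80000), .ofNat (nat_lit 200000), .ofNat (nat_lit 80000), .ofNat (nat_lit 200000), .ofNat (nat_lit 80000), .ofNat (nat_lit 200000)⟩⟩, [⟨nat_lit 13, nat_lit 32, nat_lit 89, nat_lit 100, nat_lit 193947027⟩, ⟨nat_lit 3, nat_lit 100, nat_lit 34, nat_lit 81, nat_lit 223503534⟩]⟩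
noncomputable def p114_l26 : Lf2 := ⟨nat_lit 0, nat_lit 30, [nat_lit 15, nat_lit 5, nat_lit 5, nat_lit 20], false, nat_lit 32, nat_lit 80, nat_lit 160, nat_lit 300, ⟨nat_lit 319, nat_lit 681, nat_lit 0, nat_lit 7, nat_lit 279, nat_lit 681, nat_lit 56, nat_lit 0, nat_lit 0, nat_lit 0, nat_lit 0, nat_lit 0, nat_lit 43659059, nat_lit 21572127, nat_lit 1768814, nat_lit 3837979, true, true⟩,
 nat_lit 0, nat_lit 0, nat_lit 5093, nat_lit 0, nat_lit 2495, nat_lit 2696, nat_lit 251, nat_lit 0, nat_lit 0, nat_lit 324, nat_lit 0, nat_lit 0, nat_lit 0, nat_lit 0, nat_lit 0, nat_lit 272400, nat_lit 0, nat_lit 0, [(nat_lit 29, [(nat_lit 1, nat_lit 681)])],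
 ⟨p114_k4, nat_lit 0, nat_lit 0, nat_lit 157, nat_lit 0, nat_lit 0, [nat_lit 774832401, nat_lit 1273050000, nat_lit 2579110800], [], [nat_lit 24607778491, nat_lit 24912731478, nat_lit 26382160232, nat_lit 26688852800, nat_lit 24149525167, nat_lit 24390805017, nat_lit 25606065865, nat_lit 25876206630], nat_lit 0, nat_lit 0, nat_lit 0, nat_lit 0, nat_lit 0, nat_lit 0, [], [nat_lit 54, nat_lit 40, nat_lit 40, nat_lit 80, nat_lit 43, nat_lit 226, nat_lit 20, nat_lit 6]⟩, ⟨p114_k5, nat_lit 0, nat_lit 0, nat_lit 467, nat_lit 0, nat_lit 545745, [nat_lit 1495472000, nat_lit 2541792000, nat_lit 5231600000], [], [nat_lit 9232095052, nat_lit 9348191296, nat_lit 9611745160, nat_lit 9704682752, nat_lit 9562080324, nat_lit 9620952041, nat_lit 9881353894, nat_lit 9971381723], nat_lit 1271250, nat_lit 1271250, nat_lit 1271250, nat_lit 1271250, nat_lit 1100001, nat_lit 2298750, [nat_lit 1100000, nat_lit 1785000, nat_lit 1271250], [nat_lit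 122, nat_lit 40, nat_lit 40, nat_lit 80, nat_lit 111, nat_lit 456, nat_lit 225, nat_lit 9]⟩,
 ⟨nat_lit 1936, nat_lit 2237, ⟨.ofNat (nat_lit 659578), .ofNat (nat_lit 716594), .ofNat (nat_lit 682352), .ofNat (nat_lit 739368), .ofNat (nat_lit 657798), .ofNat (nat_lit 713688), .ofNat (nat_lit 680809), .ofNat (nat_lit 736698)⟩, ⟨.ofNat (nat_lit 80000), .ofNat (nat_lit 200000), .ofNat (nat_lit 80000), .ofNat (nat_lit 200000), .ofNat (nat_lit 80000), .ofNat (nat_lit 200000), .ofNat (nat_lit 80000), .ofNat (nat_lit 200000)⟩⟩, [⟨nat_lit 22, nat_lit 89, nat_lit 100, nat_lit 72, nat_lit 124324677⟩]⟩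
noncomputable def p114_l27 : Lf2 := ⟨nat_lit 0, nat_lit 30, [nat_lit 15, nat_lit 5, nat_lit 5, nat_lit 20], false, nat_lit 40, nat_lit 80, nat_lit 160, nat_lit 300, ⟨nat_lit 221, nat_lit 779, nat_lit 0, nat_lit 7, nat_lit 278, nat_lit 779, nat_lit 60, nat_lit 0, nat_lit 0, nat_lit 0, nat_lit 0, nat_lit 0, nat_lit 43603297, nat_lit 21434912, nat_lit 1961791, nat_lit 3886217, true, true⟩,
 nat_lit 0, nat_lit 0, nat_lit 3737, nat_lit 0, nat_lit 2241, nat_lit 1978, nat_lit 150, nat_lit 0, nat_lit 0, nat_lit 218, nat_lit 0, nat_lit 0, nat_lit 0, nat_lit 0, nat_lit 0, nat_lit 311600, nat_lit 0, nat_lit 0, [(nat_lit 29, [(nat_lit 1, nat_lit 779)])],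
 ⟨p114_k10, nat_lit 0, nat_lit 0, nat_lit 136, nat_lit 0, nat_lit 0, [nat_lit 751351601, nat_lit 983950001, nat_lit 1454476000], [], [nat_lit 24626632176, nat_lit 24879985208, nat_lit 26049092041, nat_lit 26287863753, nat_lit 24348329495, nat_lit 24594910509, nat_lit 25740838611, nat_lit 25969581161], nat_lit 0, nat_lit 0, nat_lit 0, nat_lit 0, nat_lit 0, nat_lit 0, [], [nat_lit 20, nat_lit 40, nat_lit 40, nat_lit 80, nat_lit 16, nat_lit 226, nat_lit 20, nat_lit 7]⟩, ⟨p114_k5, nat_lit 0, nat_lit 0, nat_lit 504, nat_lit 0, nat_lit 654036, [nat_lit 1036048000, nat_lit 1760928000, nat_lit 3624400000], [], [nat_lit 6472521610, nat_lit 6514615262, nat_lit 6643587006, nat_lit 6680997726, nat_lit 6673463199, nat_lit 6737278506, nat_lit 6891500886, nat_lit 6947065362], nat_lit 1271250, nat_lit 1271250, nat_lit 1271250, nat_lit 1271250, nat_lit 1100001, nat_lit 2298750, [nat_lit 1100000, nat_lit 1785000, nat_lit 1271250], [nat_lit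 122, nat_lit 40, nat_lit 40, nat_lit 80, nat_lit 111, nat_lit 456, nat_lit 225, nat_lit 9]⟩,
 ⟨nat_lit 1581, nat_lit 1937, ⟨.ofNat (nat_lit 657798), .ofNat (nat_lit 713688), .ofNat (nat_lit 680809), .ofNat (nat_lit 736698), .ofNat (nat_lit 655900), .ofNat (nat_lit 710536), .ofNat (nat_lit 679215), .ofNat (nat_lit 733851)⟩, ⟨.ofNat (nat_lit 100000), .ofNat (nat_lit 200000), .ofNat (nat_lit 100000), .ofNat (nat_lit 200000), .ofNat (nat_lit 100000), .ofNat (nat_lit 200000), .ofNat (nat_lit 100000), .ofNat (nat_lit 200000)⟩⟩, [⟨nat_lit 13, nat_lit 36, nat_lit 85, nat_lit 100, nat_lit 68099177⟩, ⟨nat_lit 3, nat_lit 100, nat_lit 39, nat_lit 76, nat_lit 18710298⟩, ⟨nat_lit 10, nat_lit 100, nat_lit 81, nat_lit 72, nat_lit 99714090⟩]⟩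
noncomputable def p114_l28 : Lf2 := ⟨nat_lit 0, nat_lit 30, [nat_lit 15, nat_lit 5, nat_lit 5, nat_lit 20], false, nat_lit 48, nat_lit 80, nat_lit 0, nat_lit 300, ⟨nat_lit 188, nat_lit 812, nat_lit 0, nat_lit 7, nat_lit 271, nat_lit 812, nat_lit 64, nat_lit 0, nat_lit 0, nat_lit 0, nat_lit 0, nat_lit 0, nat_lit 44192711, nat_lit 20628983, nat_lit 2178306, nat_lit 3901248, true, true⟩,
 nat_lit 0, nat_lit 0, nat_lit 3108, nat_lit 0, nat_lit 2677, nat_lit 1645, nat_lit 158, nat_lit 0, nat_lit 0, nat_lit 151, nat_lit 0, nat_lit 0, nat_lit 0, nat_lit 0, nat_lit 0, nat_lit 203000, nat_lit 0, nat_lit 0, [(nat_lit 29, [(nat_lit 0, nat_lit 812)])],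
 ⟨p114_k7, nat_lit 0, nat_lit 0, nat_lit 133, nat_lit 0, nat_lit 0, [nat_lit 811003200, nat_lit 1466368000, nat_lit 2625556800], [], [nat_lit 25596258232, nat_lit 26150827034, nat_lit 26637194611, nat_lit 27167688212, nat_lit 25233617829, nat_lit 25760992342, nat_lit 26236287220, nat_lit 26735633442], nat_lit 0, nat_lit 0, nat_lit 0, nat_lit 0, nat_lit 0, nat_lit 0, [], [nat_lit 20, nat_lit 40, nat_lit 40, nat_lit 80, nat_lit 16, nat_lit 226, nat_lit 20, nat_lit 7]⟩, ⟨p114_k5, nat_lit 0, nat_lit 0, nat_lit 725, nat_lit 0, nat_lit 827183, [nat_lit 881344000, nat_lit 1497984000, nat_lit 3083200000], [], [nat_lit 7485383423, nat_lit 7496747177, nat_lit 7616734192, nat_lit 7672639907, nat_lit 6156300644, nat_lit 6152363008, nat_lit 6268250278, nat_lit 6294404841], nat_lit 1271250, nat_lit 1271250, nat_lit 1271250, nat_lit 1271250, nat_lit 0, nat_lit 2118750, [nat_lit 1100000, nat_lit 1785000, nat_lit 1271250], [nat_lit 122,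 nat_lit 40, nat_lit 40, nat_lit 80, nat_lit 111, nat_lit 456, nat_lit 225, nat_lit 9]⟩,
 ⟨nat_lit 0, nat_lit 1582, ⟨.ofNat (nat_lit 655899), .ofNat (nat_lit 694143), .ofNat (nat_lit 667557), .ofNat (nat_lit 705801), .ofNat (nat_lit 649998), .ofNat (nat_lit 684997), .ofNat (nat_lit 662498), .ofNat (nat_lit 697497)⟩, ⟨.ofNat (nat_lit 120000), .ofNat (nat_lit 200000), .ofNat (nat_lit 120000), .ofNat (nat_lit 200000), .ofNat (nat_lit 120000), .ofNat (nat_lit 200000), .ofNat (nat_lit 120000), .ofNat (nat_lit 200000)⟩⟩, [⟨nat_lit 13, nat_lit 23, nat_lit 92, nat_lit 100, nat_lit 484758583⟩, ⟨nat_lit 3, nat_lit 100, nat_lit 25, nat_lit 86, nat_lit 427847743⟩, ⟨nat_lit 22, nat_lit 93, nat_lit 100, nat_lit 78, nat_lit 15065648⟩]⟩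
noncomputable def p114_l29 : Lf2 := ⟨nat_lit 0, nat_lit 30, [nat_lit 15, nat_lit 5, nat_lit 5, nat_lit 20], false, nat_lit 48, nat_lit 80, nat_lit 0, nat_lit 300, ⟨nat_lit 197, nat_lit 803, nat_lit 0, nat_lit 7, nat_lit 279, nat_lit 803, nat_lit 64, nat_lit 0, nat_lit 0, nat_lit 0, nat_lit 0, nat_lit 0, nat_lit 43405870, nat_lit 21436561, nat_lit 2157569, nat_lit 3940787, true, true⟩,
 nat_lit 0, nat_lit 0, nat_lit 3052, nat_lit 0, nat_lit 2557, nat_lit 1695, nat_lit 174, nat_lit 0, nat_lit 0, nat_lit 158, nat_lit 0, nat_lit 0, nat_lit 0, nat_lit 0, nat_lit 0, nat_lit 200750, nat_lit 0, nat_lit 0, [(nat_lit 29, [(nat_lit 0, nat_lit 803)])],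
 ⟨p114_k7, nat_lit 0, nat_lit 0, nat_lit 135, nat_lit 0, nat_lit 0, [nat_lit 812410801, nat_lit 1486492001, nat_lit 2665729200], [], [nat_lit 25494876050, nat_lit 26024462039, nat_lit 26935929076, nat_lit 27425261777, nat_lit 25169276191, nat_lit 25687234424, nat_lit 26585776395, nat_lit 27064895172], nat_lit 0, nat_lit 0, nat_lit 0, nat_lit 0, nat_lit 0, nat_lit 0, [], [nat_lit 20, nat_lit 40, nat_lit 40, nat_lit 80, nat_lit 16, nat_lit 226, nat_lit 20, nat_lit 7]⟩, ⟨p114_k6, nat_lit 0, nat_lit 0, nat_lit 659, nat_lit 0, nat_lit 814604, [nat_lit 923536000, nat_lit 1569696000, nat_lit 2769426000], [], [nat_lit 7509064545, nat_lit 7539482326, nat_lit 7720996281, nat_lit 7744198834, nat_lit 6039123994, nat_lit 6052906850, nat_lit 6203398588, nat_lit 6238966264], nat_lit 1271250, nat_lit 1271250, nat_lit 1271250, nat_lit 1271250, nat_lit 0, nat_lit 2118750, [nat_lit 1100000, nat_lit 1785000, nat_lit 1271250], [nat_lit 37,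 nat_lit 40, nat_lit 40, nat_lit 80, nat_lit 28, nat_lit 456, nat_lit 225, nat_lit 10]⟩,
 ⟨nat_lit 0, nat_lit 1582, ⟨.ofNat (nat_lit 667557), .ofNat (nat_lit 722191), .ofNat (nat_lit 679215), .ofNat (nat_lit 733849), .ofNat (nat_lit 662498), .ofNat (nat_lit 712497), .ofNat (nat_lit 674999), .ofNat (nat_lit 724997)⟩, ⟨.ofNat (nat_lit 120000), .ofNat (nat_lit 200000), .ofNat (nat_lit 120000), .ofNat (nat_lit 200000), .ofNat (nat_lit 120000), .ofNat (nat_lit 200000), .ofNat (nat_lit 120000), .ofNat (nat_lit 200000)⟩⟩, [⟨nat_lit 13, nat_lit 23, nat_lit 91, nat_lit 100, nat_lit 460463331⟩, ⟨nat_lit 3, nat_lit 100, nat_lit 25, nat_lit 86, nat_lit 385999466⟩, ⟨nat_lit 22, nat_lit 91, nat_lit 100, nat_lit 77, nat_lit 14904170⟩]⟩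
noncomputable def p114_l30 : Lf2 := ⟨nat_lit 0, nat_lit 30, [nat_lit 15, nat_lit 5, nat_lit 5, nat_lit 20], false, nat_lit 32, nat_lit 80, nat_lit 0, nat_lit 300, ⟨nat_lit 397, nat_lit 603, nat_lit 0, nat_lit 7, nat_lit 289, nat_lit 603, nat_lit 56, nat_lit 0, nat_lit 0, nat_lit 0, nat_lit 0, nat_lit 0, nat_lit 42752318, nat_lit 22499158, nat_lit 1748524, nat_lit 3879459, true, true⟩,
 nat_lit 0, nat_lit 0, nat_lit 5246, nat_lit 0, nat_lit 2400, nat_lit 3053, nat_lit 284, nat_lit 0, nat_lit 0, nat_lit 343, nat_lit 0, nat_lit 0, nat_lit 0, nat_lit 0, nat_lit 0, nat_lit 241200, nat_lit 0, nat_lit 0, [(nat_lit 29, [(nat_lit 1, nat_lit 603)])],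
 ⟨p114_k4, nat_lit 0, nat_lit 0, nat_lit 157, nat_lit 0, nat_lit 0, [nat_lit 793521200, nat_lit 1503150000, nat_lit 3196340400], [], [nat_lit 24826079780, nat_lit 25071698280, nat_lit 26209615861, nat_lit 26477625981, nat_lit 24411448100, nat_lit 24649371600, nat_lit 25790403200, nat_lit 26056492500], nat_lit 0, nat_lit 0, nat_lit 0, nat_lit 0, nat_lit 0, nat_lit 0, [], [nat_lit 54, nat_lit 40, nat_lit 40, nat_lit 80, nat_lit 43, nat_lit 226, nat_lit 20, nat_lit 6]⟩, ⟨p114_k8, nat_lit 0, nat_lit 0, nat_lit 579, nat_lit 0, nat_lit 591805, [nat_lit 1861136000, nat_lit 3163296000, nat_lit 5581026000], [], [nat_lit 13980421176, nat_lit 14126136532, nat_lit 14408842282, nat_lit 14533162208, nat_lit 12039686448, nat_lit 12098197860, nat_lit 12337091290, nat_lit 12434997019], nat_lit 1271250, nat_lit 1271250, nat_lit 1271250, nat_lit 1271250, nat_lit 0, nat_lit 2118750, [nat_lit 1100000, nat_lit 1785000, nat_lit 1271250], [nat_lit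 37, nat_lit 40, nat_lit 40, nat_lit 80, nat_lit 28, nat_lit 456, nat_lit 225, nat_lit 10]⟩,
 ⟨nat_lit 1936, nat_lit 2237, ⟨.ofNat (nat_lit 682352), .ofNat (nat_lit 739368), .ofNat (nat_lit 705125), .ofNat (nat_lit 762142), .ofNat (nat_lit 680809), .ofNat (nat_lit 736698), .ofNat (nat_lit 703818), .ofNat (nat_lit 759709)⟩, ⟨.ofNat (nat_lit 80000), .ofNat (nat_lit 200000), .ofNat (nat_lit 80000), .ofNat (nat_lit 200000), .ofNat (nat_lit 80000), .ofNat (nat_lit 200000), .ofNat (nat_lit 80000), .ofNat (nat_lit 200000)⟩⟩, [⟨nat_lit 22, nat_lit 89, nat_lit 100, nat_lit 72, nat_lit 56919887⟩]⟩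
noncomputable def p114_l31 : Lf2 := ⟨nat_lit 0, nat_lit 30, [nat_lit 15, nat_lit 5, nat_lit 5, nat_lit 20], false, nat_lit 40, nat_lit 80, nat_lit 0, nat_lit 300, ⟨nat_lit 370, nat_lit 630, nat_lit 0, nat_lit 7, nat_lit 288, nat_lit 630, nat_lit 60, nat_lit 0, nat_lit 0, nat_lit 0, nat_lit 0, nat_lit 0, nat_lit 42690895, nat_lit 22370076, nat_lit 1939029, nat_lit 3928048, true, true⟩,
 nat_lit 0, nat_lit 0, nat_lit 4842, nat_lit 0, nat_lit 2306, nat_lit 2818, nat_lit 218, nat_lit 0, nat_lit 0, nat_lit 307, nat_lit 0, nat_lit 0, nat_lit 0, nat_lit 0, nat_lit 0, nat_lit 252000, nat_lit 0, nat_lit 0, [(nat_lit 29, [(nat_lit 1, nat_lit 630)])],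
 ⟨p114_k10, nat_lit 0, nat_lit 0, nat_lit 136, nat_lit 0, nat_lit 0, [nat_lit 787052000, nat_lit 1423500000, nat_lit 2371720000], [], [nat_lit 24756643134, nat_lit 25012648296, nat_lit 26188366474, nat_lit 26429255401, nat_lit 24453362805, nat_lit 24702494062, nat_lit 25854801361, nat_lit 26085768894], nat_lit 0, nat_lit 0, nat_lit 0, nat_lit 0, nat_lit 0, nat_lit 0, [], [nat_lit 20, nat_lit 40, nat_lit 40, nat_lit 80, nat_lit 16, nat_lit 226, nat_lit 20, nat_lit 7]⟩, ⟨p114_k8, nat_lit 0, nat_lit 0, nat_lit 610, nat_lit 0, nat_lit 680798, [nat_lit 1734560000, nat_lit 2948160000, nat_lit 5201460000], [], [nat_lit 13265493920, nat_lit 13401482456, nat_lit 13664042004, nat_lit 13775758144, nat_lit 11491358976, nat_lit 11546385756, nat_lit 11700754810, nat_lit 11739683196], nat_lit 1271250, nat_lit 1271250, nat_lit 1271250, nat_lit 1271250, nat_lit 0, nat_lit 2118750, [nat_lit 1100000, nat_lit 1785000, nat_lit 1271250],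 [nat_lit 37, nat_lit 40, nat_lit 40, nat_lit 80, nat_lit 28, nat_lit 456, nat_lit 225, nat_lit 10]⟩,
 ⟨nat_lit 1581, nat_lit 1937, ⟨.ofNat (nat_lit 680809), .ofNat (nat_lit 736698), .ofNat (nat_lit 703818), .ofNat (nat_lit 759709), .ofNat (nat_lit 679215), .ofNat (nat_lit 733851), .ofNat (nat_lit 702528), .ofNat (nat_lit 757166)⟩, ⟨.ofNat (nat_lit 100000), .ofNat (nat_lit 200000), .ofNat (nat_lit 100000), .ofNat (nat_lit 200000), .ofNat (nat_lit 100000), .ofNat (nat_lit 200000), .ofNat (nat_lit 100000), .ofNat (nat_lit 200000)⟩⟩, [⟨nat_lit 3, nat_lit 100, nat_lit 39, nat_lit 76, nat_lit 27301665⟩, ⟨nat_lit 22, nat_lit 90, nat_lit 100, nat_lit 74, nat_lit 49378755⟩]⟩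
noncomputable def p114_l32 : Lf2 := ⟨nat_lit 0, nat_lit 30, [nat_lit 15, nat_lit 5, nat_lit 5, nat_lit 20], false, nat_lit 48, nat_lit 80, nat_lit 0, nat_lit 300, ⟨nat_lit 227, nat_lit 773, nat_lit 0, nat_lit 7, nat_lit 284, nat_lit 773, nat_lit 64, nat_lit 0, nat_lit 0, nat_lit 0, nat_lit 0, nat_lit 0, nat_lit 42932273, nat_lit 21923178, nat_lit 2144549, nat_lit 3962794, true, true⟩,
 nat_lit 0, nat_lit 0, nat_lit 3097, nat_lit 0, nat_lit 2636, nat_lit 1802, nat_lit 170, nat_lit 0, nat_lit 0, nat_lit 181, nat_lit 0, nat_lit 0, nat_lit 0, nat_lit 0, nat_lit 0, nat_lit 193250, nat_lit 0, nat_lit 0, [(nat_lit 29, [(nat_lit 0, nat_lit 773)])],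
 ⟨p114_k7, nat_lit 0, nat_lit 0, nat_lit 135, nat_lit 0, nat_lit 0, [nat_lit 817102801, nat_lit 1553572000, nat_lit 2799637200], [], [nat_lit 25646746908, nat_lit 26182730080, nat_lit 27098567255, nat_lit 27593476803, nat_lit 25296762024, nat_lit 25820919308, nat_lit 26723719616, nat_lit 27208246812], nat_lit 0, nat_lit 0, nat_lit 0, nat_lit 0, nat_lit 0, nat_lit 0, [], [nat_lit 20, nat_lit 40, nat_lit 40, nat_lit 80, nat_lit 16, nat_lit 226, nat_lit 20, nat_lit 7]⟩, ⟨p114_k8, nat_lit 0, nat_lit 0, nat_lit 654, nat_lit 0, nat_lit 808619, [nat_lit 1064176000, nat_lit 1808736000, nat_lit 3191166000], [], [nat_lit 8269800924, nat_lit 8293395894, nat_lit 8430498350, nat_lit 8449440448, nat_lit 7026793582, nat_lit 7044544047, nat_lit 7162170488, nat_lit 7203808503], nat_lit 1271250, nat_lit 1271250, nat_lit 1271250, nat_lit 1271250, nat_lit 0, nat_lit 2118750, [nat_lit 1100000, nat_lit 1785000, nat_lit 1271250], [nat_lit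 37, nat_lit 40, nat_lit 40, nat_lit 80, nat_lit 28, nat_lit 456, nat_lit 225, nat_lit 10]⟩,
 ⟨nat_lit 0, nat_lit 1582, ⟨.ofNat (nat_lit 679215), .ofNat (nat_lit 733849), .ofNat (nat_lit 690873), .ofNat (nat_lit 745507), .ofNat (nat_lit 674999), .ofNat (nat_lit 724997), .ofNat (nat_lit 687499), .ofNat (nat_lit 737498)⟩, ⟨.ofNat (nat_lit 120000), .ofNat (nat_lit 200000), .ofNat (nat_lit 120000), .ofNat (nat_lit 200000), .ofNat (nat_lit 120000), .ofNat (nat_lit 200000), .ofNat (nat_lit 120000), .ofNat (nat_lit 200000)⟩⟩, [⟨nat_lit 13, nat_lit 23, nat_lit 90, nat_lit 100, nat_lit 381755908⟩, ⟨nat_lit 3, nat_lit 100, nat_lit 25, nat_lit 86, nat_lit 325395690⟩, ⟨nat_lit 22, nat_lit 91, nat_lit 100, nat_lit 77, nat_lit 28931624⟩]⟩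
noncomputable def p114_l33 : Lf2 := ⟨nat_lit 0, nat_lit 30, [nat_lit 15, nat_lit 5, nat_lit 5, nat_lit 20], false, nat_lit 48, nat_lit 80, nat_lit 0, nat_lit 300, ⟨nat_lit 306, nat_lit 694, nat_lit 0, nat_lit 7, nat_lit 289, nat_lit 694, nat_lit 64, nat_lit 0, nat_lit 0, nat_lit 0, nat_lit 0, nat_lit 0, nat_lit 42461575, nat_lit 22407202, nat_lit 2131223, nat_lit 3983351, true, true⟩,
 nat_lit 0, nat_lit 0, nat_lit 3822, nat_lit 0, nat_lit 2789, nat_lit 2327, nat_lit 195, nat_lit 0, nat_lit 0, nat_lit 327, nat_lit 0, nat_lit 0, nat_lit 0, nat_lit 0, nat_lit 0, nat_lit 173500, nat_lit 0, nat_lit 0, [(nat_lit 29, [(nat_lit 0, nat_lit 694)])],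
 ⟨p114_k7, nat_lit 0, nat_lit 0, nat_lit 135, nat_lit 0, nat_lit 0, [nat_lit 829458401, nat_lit 1730216000, nat_lit 3152261600], [], [nat_lit 25671964749, nat_lit 26243188138, nat_lit 27284316819, nat_lit 27921392268, nat_lit 25210101780, nat_lit 25746264821, nat_lit 26657312288, nat_lit 27152314017], nat_lit 0, nat_lit 0, nat_lit 0, nat_lit 0, nat_lit 0, nat_lit 0, [], [nat_lit 20, nat_lit 40, nat_lit 40, nat_lit 80, nat_lit 16, nat_lit 226, nat_lit 20, nat_lit 7]⟩, ⟨p114_k9, nat_lit 0, nat_lit 0, nat_lit 652, nat_lit 0, nat_lit 807535, [nat_lit 1434528000, nat_lit 2438208000, nat_lit 4301748000], [], [nat_lit 9505598589, nat_lit 9631844916, nat_lit 10158691627, nat_lit 10265778984, nat_lit 8290637538, nat_lit 8315828338, nat_lit 8621956253, nat_lit 8678526963], nat_lit 1271250, nat_lit 1271250, nat_lit 1271250, nat_lit 1271250, nat_lit 0, nat_lit 2118750, [nat_lit 1100000, nat_lit 1785000, nat_lit 1271250], [nat_lit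 37, nat_lit 40, nat_lit 40, nat_lit 80, nat_lit 28, nat_lit 456, nat_lit 225, nat_lit 10]⟩,
 ⟨nat_lit 0, nat_lit 1582, ⟨.ofNat (nat_lit 690873), .ofNat (nat_lit 745507), .ofNat (nat_lit 702515), .ofNat (nat_lit 757165), .ofNat (nat_lit 687499), .ofNat (nat_lit 737498), .ofNat (nat_lit 699984), .ofNat (nat_lit 749998)⟩, ⟨.ofNat (nat_lit 120000), .ofNat (nat_lit 200000), .ofNat (nat_lit 120000), .ofNat (nat_lit 200000), .ofNat (nat_lit 120000), .ofNat (nat_lit 200000), .ofNat (nat_lit 120000), .ofNat (nat_lit 200000)⟩⟩, [⟨nat_lit 13, nat_lit 24, nat_lit 89, nat_lit 100, nat_lit 315713660⟩, ⟨nat_lit 3, nat_lit 100, nat_lit 25, nat_lit 86, nat_lit 489736562⟩, ⟨nat_lit 22, nat_lit 91, nat_lit 100, nat_lit 77, nat_lit 40982083⟩]⟩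
noncomputable def b_V_900_600_20_38 : St := ⟨true, nat_lit 0, nat_lit 1, nat_lit 1, nat_lit 120, nat_lit 380, nat_lit 400, nat_lit 240, nat_lit 280, nat_lit 280, nat_lit 320, nat_lit 80, nat_lit 120, nat_lit 20, nat_lit 80, nat_lit 0, nat_lit 336, nat_lit 80, nat_lit 120, nat_lit 0, nat_lit 0, nat_lit 0, nat_lit 0⟩
theorem d_V_900_600_20_38 (h : EB TB.env) : Dead b_V_900_600_20_38 := chkB_sound0 h (T :=
(.trX (nat_lit 22) (nat_lit 100) (nat_lit 95) (nat_lit 87) (nat_lit 300) (.spl (nat_lit 3) (nat_lit 100)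
(.spl (nat_lit 1) (nat_lit 260)
(.spl (nat_lit 0) (nat_lit 390)
(.spl (nat_lit 1) (nat_lit 250)
(.spl (nat_lit 4) (nat_lit 40)
(.trX (nat_lit 22) (nat_lit 94) (nat_lit 100) (nat_lit 62) (nat_lit 248) (.leaf p114_l17))
(.leaf p114_l18))
(.spl (nat_lit 5) (nat_lit 160)
(.leaf p114_l19)
(.leaf p114_l20)))
(.trZ (nat_lit 3) (nat_lit 100) (nat_lit 39) (nat_lit 72) (nat_lit 36) (.leaf p114_l21)))
(.spl (nat_lit 0) (nat_lit 390)
(.spl (nat_lit 5) (nat_lit 160)
(.leaf p114_l22)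
(.leaf p114_l23))
(.trZ (nat_lit 3) (nat_lit 100) (nat_lit 39) (nat_lit 72) (nat_lit 36) (.leaf p114_l24))))
(.trZ (nat_lit 3) (nat_lit 100) (nat_lit 50) (nat_lit 65) (nat_lit 32) (.spl (nat_lit 1) (nat_lit 260)
(.spl (nat_lit 0) (nat_lit 390)
(.spl (nat_lit 5) (nat_lit 160)
(.leaf p114_l25)
(.spl (nat_lit 0) (nat_lit 385)
(.leaf p114_l26)
(.trZ (nat_lit 3) (nat_lit 100) (nat_lit 44) (nat_lit 71) (nat_lit 40) (.leaf p114_l27))))
(.trZ (nat_lit 3) (nat_lit 100) (nat_lit 36) (nat_lit 77) (nat_lit 48) (.spl (nat_lit 1) (nat_lit 250)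
(.trX (nat_lit 13) (nat_lit 32) (nat_lit 87) (nat_lit 100) (nat_lit 308) (.leaf p114_l28))
(.leaf p114_l29))))
(.spl (nat_lit 0) (nat_lit 390)
(.spl (nat_lit 0) (nat_lit 385)
(.leaf p114_l30)
(.trZ (nat_lit 3) (nat_lit 100) (nat_lit 44) (nat_lit 71) (nat_lit 40) (.leaf p114_l31)))
(.trZ (nat_lit 3) (nat_lit 100) (nat_lit 36) (nat_lit 77) (nat_lit 48) (.spl (nat_lit 1) (nat_lit 270)
(.leaf p114_l32)
(.leaf p114_l33))))))))) (by decide +kernel)
noncomputable def p114_l34 : Lf2 := ⟨nat_lit 0, nat_lit 25, [nat_lit 44, nat_lit 5, nat_lit 5, nat_lit 20], false, nat_lit 20, nat_lit 80, nat_lit 0, nat_lit 260, ⟨nat_lit 147, nat_lit 853, nat_lit 0, nat_lit 8, nat_lit 289, nat_lit 853, nat_lit 50, nat_lit 0, nat_lit 0, nat_lit 0, nat_lit 0, nat_lit 0, nat_lit 42926690, nat_lit 22613429, nat_lit 1459881, nat_lit 3797775, true, true⟩,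
 nat_lit 0, nat_lit 0, nat_lit 2674, nat_lit 0, nat_lit 2493, nat_lit 1415, nat_lit 45, nat_lit 0, nat_lit 0, nat_lit 129, nat_lit 0, nat_lit 0, nat_lit 0, nat_lit 0, nat_lit 0, nat_lit 341200, nat_lit 0, nat_lit 0, [(nat_lit 29, [(nat_lit 1, nat_lit 853)])],
 ⟨p114_k0, nat_lit 0, nat_lit 0, nat_lit 154, nat_lit 0, nat_lit 0, [nat_lit 733621200, nat_lit 765650000, nat_lit 998932000], [], [nat_lit 26822000630, nat_lit 27845890628, nat_lit 27323523317, nat_lit 28406521314, nat_lit 26306285297, nat_lit 27235616577, nat_lit 26768425680, nat_lit 27675697681], nat_lit 0, nat_lit 0, nat_lit 0, nat_lit 0, nat_lit 0, nat_lit 0, [], [nat_lit 20, nat_lit 40, nat_lit 40, nat_lit 80, nat_lit 16, nat_lit 226, nat_lit 20, nat_lit 7]⟩, ⟨p114_k1, nat_lit 0, nat_lit 0, nat_lit 780, nat_lit 0, nat_lit 1052857, [nat_lit 689136000, nat_lit 1171296000, nat_lit 2066526000], [], [nat_lit 5605385528, nat_lit 5621132941, nat_lit 5688809346, nat_lit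 5740360319, nat_lit 4360200408, nat_lit 4359210976, nat_lit 4407270193, nat_lit 4437173636], nat_lit 1271250, nat_lit 1271250, nat_lit 1271250, nat_lit 1271250, nat_lit 0, nat_lit 1836250, [nat_lit 1100000, nat_lit 1785000, nat_lit 1271250], [nat_lit 37, nat_lit 40, nat_lit 40, nat_lit 80, nat_lit 28, nat_lit 456, nat_lit 225, nat_lit 10]⟩,
 ⟨nat_lit 0, nat_lit 2237, ⟨.ofNat (nat_lit 716590), .ofNat (nat_lit 733694), .ofNat (nat_lit 727978), .ofNat (nat_lit 745082), .ofNat (nat_lit 699995), .ofNat (nat_lit 714995), .ofNat (nat_lit 712496), .ofNat (nat_lit 727495)⟩, ⟨.ofNat (nat_lit 50000), .ofNat (nat_lit 192306), .ofNat (nat_lit 50000), .ofNat (nat_lit 200000), .ofNat (nat_lit 50000), .ofNat (nat_lit 199999), .ofNat (nat_lit 50000), .ofNat (nat_lit 200000)⟩⟩, [⟨nat_lit 13, nat_lit 45, nat_lit 79, nat_lit 100, nat_lit 754624587⟩, ⟨nat_lit 3, nat_lit 100, nat_lit 54, nat_lit 57, nat_lit 185518584⟩, ⟨nat_lit 22, nat_lit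 78, nat_lit 100, nat_lit 66, nat_lit 1525514⟩]⟩
noncomputable def p114_l35 : Lf2 := ⟨nat_lit 0, nat_lit 25, [nat_lit 44, nat_lit 5, nat_lit 5, nat_lit 20], false, nat_lit 20, nat_lit 80, nat_lit 0, nat_lit 260, ⟨nat_lit 167, nat_lit 833, nat_lit 0, nat_lit 8, nat_lit 298, nat_lit 833, nat_lit 49, nat_lit 0, nat_lit 0, nat_lit 0, nat_lit 0, nat_lit 0, nat_lit 42042841, nat_lit 23522805, nat_lit 1434354, nat_lit 3831880, true, true⟩,
 nat_lit 0, nat_lit 0, nat_lit 2647, nat_lit 0, nat_lit 2483, nat_lit 1470, nat_lit 67, nat_lit 0, nat_lit 0, nat_lit 145, nat_lit 0, nat_lit 0, nat_lit 0, nat_lit 0, nat_lit 0, nat_lit 333200, nat_lit 0, nat_lit 0, [(nat_lit 29, [(nat_lit 1, nat_lit 833)])],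
 ⟨p114_k0, nat_lit 0, nat_lit 0, nat_lit 152, nat_lit 0, nat_lit 0, [nat_lit 738413200, nat_lit 824650000, nat_lit 1122052000], [], [nat_lit 26719434530, nat_lit 27204422985, nat_lit 27579853594, nat_lit 28166817101, nat_lit 26209243007, nat_lit 26673243847, nat_lit 26978594077, nat_lit 27424260425], nat_lit 0, nat_lit 0, nat_lit 0, nat_lit 0, nat_lit 0, nat_lit 0, [], [nat_lit 20, nat_lit 40, nat_lit 40, nat_lit 80, nat_lit 16, nat_lit 226, nat_lit 20, nat_lit 7]⟩, ⟨p114_k12, nat_lit 0, nat_lit 0, nat_lit 653, nat_lit 0, nat_lit 814560, [nat_lit 782896000, nat_lit 1330656000, nat_lit 2347686000], [], [nat_lit 6296386816, nat_lit 6315710624, nat_lit 6417818647, nat_lit 6472558558, nat_lit 4970340469, nat_lit 4981352925, nat_lit 5100457249, nat_lit 5133013212], nat_lit 1271250, nat_lit 1271250, nat_lit 1271250, nat_lit 1271250, nat_lit 0, nat_lit 1836250, [nat_lit 1100000, nat_lit 1785000, nat_lit 1271250], [nat_lit 37,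 nat_lit 40, nat_lit 40, nat_lit 80, nat_lit 28, nat_lit 456, nat_lit 225, nat_lit 10]⟩,
 ⟨nat_lit 1581, nat_lit 2237, ⟨.ofNat (nat_lit 727981), .ofNat (nat_lit 756489), .ofNat (nat_lit 739368), .ofNat (nat_lit 767876), .ofNat (nat_lit 722193), .ofNat (nat_lit 749511), .ofNat (nat_lit 733851), .ofNat (nat_lit 761169)⟩, ⟨.ofNat (nat_lit 50000), .ofNat (nat_lit 192306), .ofNat (nat_lit 50000), .ofNat (nat_lit 200000), .ofNat (nat_lit 50000), .ofNat (nat_lit 196201), .ofNat (nat_lit 50000), .ofNat (nat_lit 200000)⟩⟩, [⟨nat_lit 13, nat_lit 40, nat_lit 82, nat_lit 100, nat_lit 524368809⟩, ⟨nat_lit 3, nat_lit 100, nat_lit 45, nat_lit 67, nat_lit 205416111⟩, ⟨nat_lit 22, nat_lit 76, nat_lit 100, nat_lit 66, nat_lit 5467360⟩]⟩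
noncomputable def p114_l36 : Lf2 := ⟨nat_lit 0, nat_lit 30, [nat_lit 15, nat_lit 5, nat_lit 5, nat_lit 20], false, nat_lit 32, nat_lit 80, nat_lit 0, nat_lit 260, ⟨nat_lit 582, nat_lit 418, nat_lit 0, nat_lit 8, nat_lit 289, nat_lit 418, nat_lit 56, nat_lit 0, nat_lit 0, nat_lit 0, nat_lit 0, nat_lit 0, nat_lit 42711445, nat_lit 22540973, nat_lit 1747582, nat_lit 3881218, true, true⟩,
 nat_lit 0, nat_lit 0, nat_lit 9588, nat_lit 0, nat_lit 2482, nat_lit 5076, nat_lit 392, nat_lit 0, nat_lit 0, nat_lit 468, nat_lit 0, nat_lit 0, nat_lit 0, nat_lit 0, nat_lit 0, nat_lit 167200, nat_lit 0, nat_lit 0, [(nat_lit 29, [(nat_lit 1, nat_lit 418)])],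
 ⟨p114_k4, nat_lit 0, nat_lit 0, nat_lit 165, nat_lit 0, nat_lit 0, [nat_lit 837847200, nat_lit 2048900000, nat_lit 4660282400], [], [nat_lit 26366166404, nat_lit 27578083321, nat_lit 26945673466, nat_lit 28135257237, nat_lit 25944100272, nat_lit 27011923312, nat_lit 26466926852, nat_lit 27517960610], nat_lit 0, nat_lit 0, nat_lit 0, nat_lit 0, nat_lit 0, nat_lit 0, [], [nat_lit 54, nat_lit 40, nat_lit 40, nat_lit 80, nat_lit 43, nat_lit 226, nat_lit 20, nat_lit 6]⟩, ⟨p114_k5, nat_lit 0, nat_lit 0, nat_lit 715, nat_lit 0, nat_lit 827183, [nat_lit 2728416000, nat_lit 4637376000, nat_lit 9544800000], [], [nat_lit 23915052036, nat_lit 24077591142, nat_lit 24346730103, nat_lit 24498327686, nat_lit 19207914390, nat_lit 19195366085, nat_lit 19377030398, nat_lit 19464201110], nat_lit 1271250, nat_lit 1271250, nat_lit 1271250, nat_lit 1271250, nat_lit 0, nat_lit 1836250, [nat_lit 1100000, nat_lit 1785000, nat_lit 1271250], [nat_lit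 122, nat_lit 40, nat_lit 40, nat_lit 80, nat_lit 111, nat_lit 456, nat_lit 225, nat_lit 9]⟩,
 ⟨nat_lit 0, nat_lit 2237, ⟨.ofNat (nat_lit 716590), .ofNat (nat_lit 733694), .ofNat (nat_lit 727978), .ofNat (nat_lit 745082), .ofNat (nat_lit 699995), .ofNat (nat_lit 714995), .ofNat (nat_lit 712496), .ofNat (nat_lit 727495)⟩, ⟨.ofNat (nat_lit 80000), .ofNat (nat_lit 200000), .ofNat (nat_lit 80000), .ofNat (nat_lit 200000), .ofNat (nat_lit 80000), .ofNat (nat_lit 200000), .ofNat (nat_lit 80000), .ofNat (nat_lit 200000)⟩⟩, [⟨nat_lit 13, nat_lit 45, nat_lit 79, nat_lit 100, nat_lit 2945428654⟩, ⟨nat_lit 22, nat_lit 78, nat_lit 100, nat_lit 70, nat_lit 9323475⟩]⟩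
noncomputable def p114_l37 : Lf2 := ⟨nat_lit 0, nat_lit 30, [nat_lit 15, nat_lit 5, nat_lit 5, nat_lit 20], false, nat_lit 32, nat_lit 80, nat_lit 0, nat_lit 260, ⟨nat_lit 523, nat_lit 477, nat_lit 0, nat_lit 8, nat_lit 296, nat_lit 477, nat_lit 56, nat_lit 0, nat_lit 0, nat_lit 0, nat_lit 0, nat_lit 0, nat_lit 42033721, nat_lit 23234659, nat_lit 1731620, nat_lit 3908988, true, true⟩,
 nat_lit 0, nat_lit 0, nat_lit 8353, nat_lit 0, nat_lit 2411, nat_lit 4640, nat_lit 364, nat_lit 0, nat_lit 0, nat_lit 471, nat_lit 0, nat_lit 0, nat_lit 0, nat_lit 0, nat_lit 0, nat_lit 190800, nat_lit 0, nat_lit 0, [(nat_lit 29, [(nat_lit 1, nat_lit 477)])],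
 ⟨p114_k4, nat_lit 0, nat_lit 0, nat_lit 166, nat_lit 0, nat_lit 0, [nat_lit 823710801, nat_lit 1874850001, nat_lit 4193403600], [], [nat_lit 26323393197, nat_lit 27412348399, nat_lit 27216772671, nat_lit 28329951673, nat_lit 25932686459, nat_lit 26997060381, nat_lit 26811424486, nat_lit 27832998889], nat_lit 0, nat_lit 0, nat_lit 0, nat_lit 0, nat_lit 0, nat_lit 0, [], [nat_lit 54, nat_lit 40, nat_lit 40, nat_lit 80, nat_lit 43, nat_lit 226, nat_lit 20, nat_lit 6]⟩, ⟨p114_k6, nat_lit 0, nat_lit 0, nat_lit 653, nat_lit 0, nat_lit 814604, [nat_lit 2451824000, nat_lit 4167264000, nat_lit 7352334000], [], [nat_lit 19344595634, nat_lit 19404733716, nat_lit 19953941083, nat_lit 20125683122, nat_lit 15355760459, nat_lit 15389793301, nat_lit 15776500520, nat_lit 15878351199], nat_lit 1271250, nat_lit 1271250, nat_lit 1271250, nat_lit 1271250, nat_lit 0, nat_lit 1836250, [nat_lit 1100000, nat_lit 1785000, nat_lit 1271250], [nat_lit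 37, nat_lit 40, nat_lit 40, nat_lit 80, nat_lit 28, nat_lit 456, nat_lit 225, nat_lit 10]⟩,
 ⟨nat_lit 0, nat_lit 2237, ⟨.ofNat (nat_lit 727978), .ofNat (nat_lit 756485), .ofNat (nat_lit 739366), .ofNat (nat_lit 767872), .ofNat (nat_lit 712496), .ofNat (nat_lit 737495), .ofNat (nat_lit 724997), .ofNat (nat_lit 749995)⟩, ⟨.ofNat (nat_lit 80000), .ofNat (nat_lit 200000), .ofNat (nat_lit 80000), .ofNat (nat_lit 200000), .ofNat (nat_lit 80000), .ofNat (nat_lit 200000), .ofNat (nat_lit 80000), .ofNat (nat_lit 200000)⟩⟩, [⟨nat_lit 13, nat_lit 32, nat_lit 86, nat_lit 100, nat_lit 2213068936⟩, ⟨nat_lit 22, nat_lit 76, nat_lit 100, nat_lit 70, nat_lit 22822546⟩]⟩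
noncomputable def p114_l38 : Lf2 := ⟨nat_lit 0, nat_lit 25, [nat_lit 44, nat_lit 5, nat_lit 5, nat_lit 20], false, nat_lit 20, nat_lit 80, nat_lit 0, nat_lit 260, ⟨nat_lit 201, nat_lit 799, nat_lit 0, nat_lit 8, nat_lit 305, nat_lit 799, nat_lit 49, nat_lit 0, nat_lit 0, nat_lit 0, nat_lit 0, nat_lit 0, nat_lit 41374147, nat_lit 24205024, nat_lit 1420829, nat_lit 3856500, true, true⟩,
 nat_lit 0, nat_lit 0, nat_lit 2750, nat_lit 0, nat_lit 2439, nat_lit 1600, nat_lit 77, nat_lit 0, nat_lit 0, nat_lit 156, nat_lit 0, nat_lit 0, nat_lit 0, nat_lit 0, nat_lit 0, nat_lit 319600, nat_lit 0, nat_lit 0, [(nat_lit 29, [(nat_lit 1, nat_lit 799)])],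
 ⟨p114_k0, nat_lit 0, nat_lit 0, nat_lit 154, nat_lit 0, nat_lit 0, [nat_lit 746559601, nat_lit 924950001, nat_lit 1331356000], [], [nat_lit 26870963243, nat_lit 27350854516, nat_lit 27981674870, nat_lit 28437072565, nat_lit 26385076484, nat_lit 26846152204, nat_lit 27456729319, nat_lit 27892433908], nat_lit 0, nat_lit 0, nat_lit 0, nat_lit 0, nat_lit 0, nat_lit 0, [], [nat_lit 20, nat_lit 40, nat_lit 40, nat_lit 80, nat_lit 16, nat_lit 226, nat_lit 20, nat_lit 7]⟩, ⟨p114_k3, nat_lit 0, nat_lit 0, nat_lit 651, nat_lit 0, nat_lit 814141, [nat_lit 942288000, nat_lit 1601568000, nat_lit 2825658000], [], [nat_lit 7520386578, nat_lit 7536148481, nat_lit 7830598591, nat_lit 7892325370, nat_lit 6273404159, nat_lit 6277831961, nat_lit 6428521727, nat_lit 6466337350], nat_lit 1271250, nat_lit 1271250, nat_lit 1271250, nat_lit 1271250, nat_lit 0, nat_lit 1836250, [nat_lit 1100000, nat_lit 1785000, nat_lit 1271250], [nat_lit 37,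 nat_lit 40, nat_lit 40, nat_lit 80, nat_lit 28, nat_lit 456, nat_lit 225, nat_lit 10]⟩,
 ⟨nat_lit 1581, nat_lit 2237, ⟨.ofNat (nat_lit 739368), .ofNat (nat_lit 779279), .ofNat (nat_lit 750755), .ofNat (nat_lit 790666), .ofNat (nat_lit 733851), .ofNat (nat_lit 772096), .ofNat (nat_lit 745508), .ofNat (nat_lit 783753)⟩, ⟨.ofNat (nat_lit 50000), .ofNat (nat_lit 192306), .ofNat (nat_lit 50000), .ofNat (nat_lit 200000), .ofNat (nat_lit 50000), .ofNat (nat_lit 196201), .ofNat (nat_lit 50000), .ofNat (nat_lit 200000)⟩⟩, [⟨nat_lit 13, nat_lit 33, nat_lit 85, nat_lit 100, nat_lit 495319453⟩, ⟨nat_lit 3, nat_lit 100, nat_lit 45, nat_lit 67, nat_lit 165270039⟩, ⟨nat_lit 22, nat_lit 74, nat_lit 100, nat_lit 66, nat_lit 20736417⟩]⟩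
noncomputable def p114_l39 : Lf2 := ⟨nat_lit 0, nat_lit 25, [nat_lit 44, nat_lit 5, nat_lit 5, nat_lit 20], false, nat_lit 36, nat_lit 80, nat_lit 0, nat_lit 260, ⟨nat_lit 165, nat_lit 835, nat_lit 0, nat_lit 8, nat_lit 296, nat_lit 835, nat_lit 58, nat_lit 0, nat_lit 0, nat_lit 0, nat_lit 0, nat_lit 0, nat_lit 41929517, nat_lit 23256276, nat_lit 1814207, nat_lit 3933999, true, true⟩,
 nat_lit 0, nat_lit 0, nat_lit 2273, nat_lit 0, nat_lit 2571, nat_lit 1323, nat_lit 97, nat_lit 0, nat_lit 0, nat_lit 128, nat_lit 0, nat_lit 0, nat_lit 0, nat_lit 0, nat_lit 0, nat_lit 208750, nat_lit 0, nat_lit 0, [(nat_lit 29, [(nat_lit 0, nat_lit 835)])],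
 ⟨p114_k2, nat_lit 0, nat_lit 0, nat_lit 129, nat_lit 0, nat_lit 0, [nat_lit 807406001, nat_lit 1414940000, nat_lit 1922814000], [], [nat_lit 27124385688, nat_lit 27704556508, nat_lit 27471700439, nat_lit 28079554918, nat_lit 26753811655, nat_lit 27214648449, nat_lit 27052450081, nat_lit 27506944003], nat_lit 0, nat_lit 0, nat_lit 0, nat_lit 0, nat_lit 0, nat_lit 0, [], [nat_lit 35, nat_lit 40, nat_lit 40, nat_lit 80, nat_lit 22, nat_lit 226, nat_lit 20, nat_lit 8]⟩, ⟨p114_k3, nat_lit 0, nat_lit 0, nat_lit 758, nat_lit 0, nat_lit 1005590, [nat_lit 773520000, nat_lit 1314720000, nat_lit 2319570000], [], [nat_lit 6144699126, nat_lit 6193238769, nat_lit 6221397914, nat_lit 6277731180, nat_lit 5109180666, nat_lit 5112991701, nat_lit 5128922055, nat_lit 5159619916], nat_lit 1271250, nat_lit 1271250, nat_lit 1271250, nat_lit 1271250, nat_lit 0, nat_lit 1836250, [nat_lit 1100000, nat_lit 1785000, nat_lit 1271250], [nat_lit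 37, nat_lit 40, nat_lit 40, nat_lit 80, nat_lit 28, nat_lit 456, nat_lit 225, nat_lit 10]⟩,
 ⟨nat_lit 0, nat_lit 1582, ⟨.ofNat (nat_lit 733849), .ofNat (nat_lit 744776), .ofNat (nat_lit 745507), .ofNat (nat_lit 756434), .ofNat (nat_lit 724997), .ofNat (nat_lit 734997), .ofNat (nat_lit 737498), .ofNat (nat_lit 747497)⟩, ⟨.ofNat (nat_lit 90000), .ofNat (nat_lit 196201), .ofNat (nat_lit 90000), .ofNat (nat_lit 200000), .ofNat (nat_lit 90000), .ofNat (nat_lit 199999), .ofNat (nat_lit 90000), .ofNat (nat_lit 200000)⟩⟩, [⟨nat_lit 13, nat_lit 33, nat_lit 83, nat_lit 100, nat_lit 560233699⟩, ⟨nat_lit 3, nat_lit 100, nat_lit 39, nat_lit 72, nat_lit 222284569⟩, ⟨nat_lit 22, nat_lit 79, nat_lit 100, nat_lit 71, nat_lit 11770335⟩]⟩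
noncomputable def p114_l40 : Lf2 := ⟨nat_lit 0, nat_lit 25, [nat_lit 44, nat_lit 5, nat_lit 5, nat_lit 20], false, nat_lit 20, nat_lit 80, nat_lit 0, nat_lit 260, ⟨nat_lit 260, nat_lit 740, nat_lit 0, nat_lit 8, nat_lit 309, nat_lit 740, nat_lit 50, nat_lit 0, nat_lit 0, nat_lit 0, nat_lit 0, nat_lit 0, nat_lit 40996570, nat_lit 24582257, nat_lit 1421173, nat_lit 3871565, true, true⟩,
 nat_lit 0, nat_lit 0, nat_lit 3239, nat_lit 0, nat_lit 2510, nat_lit 1972, nat_lit 105, nat_lit 0, nat_lit 0, nat_lit 291, nat_lit 0, nat_lit 0, nat_lit 0, nat_lit 0, nat_lit 0, nat_lit 296000, nat_lit 0, nat_lit 0, [(nat_lit 29, [(nat_lit 1, nat_lit 740)])],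
 ⟨p114_k0, nat_lit 0, nat_lit 0, nat_lit 158, nat_lit 0, nat_lit 0, [nat_lit 760696000, nat_lit 1099000000, nat_lit 1694560000], [], [nat_lit 26913947975, nat_lit 27888937960, nat_lit 28243486149, nat_lit 29387142416, nat_lit 26389077270, nat_lit 27320433765, nat_lit 27623618005, nat_lit 28496122437], nat_lit 0, nat_lit 0, nat_lit 0, nat_lit 0, nat_lit 0, nat_lit 0, [], [nat_lit 20, nat_lit 40, nat_lit 40, nat_lit 80, nat_lit 16, nat_lit 226, nat_lit 20, nat_lit 7]⟩, ⟨p114_k13, nat_lit 0, nat_lit 0, nat_lit 750, nat_lit 0, nat_lit 992261, [nat_lit 1218880000, nat_lit 2071680000, nat_lit 3655080000], [], [nat_lit 8470643816, nat_lit 8561570140, nat_lit 8987319759, nat_lit 9064786614, nat_lit 6973868241, nat_lit 6996451304, nat_lit 7351190847, nat_lit 7470409092], nat_lit 1271250, nat_lit 1271250, nat_lit 1271250, nat_lit 1271250, nat_lit 0, nat_lit 1836250, [nat_lit 1100000, nat_lit 1785000, nat_lit 1271250], [nat_lit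 37, nat_lit 40, nat_lit 40, nat_lit 80, nat_lit 28, nat_lit 456, nat_lit 225, nat_lit 10]⟩,
 ⟨nat_lit 0, nat_lit 2237, ⟨.ofNat (nat_lit 750753), .ofNat (nat_lit 796364), .ofNat (nat_lit 762141), .ofNat (nat_lit 807752), .ofNat (nat_lit 737497), .ofNat (nat_lit 777495), .ofNat (nat_lit 749998), .ofNat (nat_lit 789996)⟩, ⟨.ofNat (nat_lit 50000), .ofNat (nat_lit 192306), .ofNat (nat_lit 50000), .ofNat (nat_lit 200000), .ofNat (nat_lit 50000), .ofNat (nat_lit 199999), .ofNat (nat_lit 50000), .ofNat (nat_lit 200000)⟩⟩, [⟨nat_lit 13, nat_lit 34, nat_lit 82, nat_lit 100, nat_lit 610712012⟩, ⟨nat_lit 3, nat_lit 100, nat_lit 37, nat_lit 74, nat_lit 171072636⟩, ⟨nat_lit 22, nat_lit 73, nat_lit 100, nat_lit 66, nat_lit 29936022⟩]⟩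
noncomputable def p114_l41 : Lf2 := ⟨nat_lit 0, nat_lit 30, [nat_lit 15, nat_lit 5, nat_lit 5, nat_lit 20], false, nat_lit 32, nat_lit 80, nat_lit 0, nat_lit 260, ⟨nat_lit 766, nat_lit 234, nat_lit 0, nat_lit 8, nat_lit 308, nat_lit 234, nat_lit 56, nat_lit 0, nat_lit 0, nat_lit 0, nat_lit 0, nat_lit 0, nat_lit 40840143, nat_lit 24457843, nat_lit 1702014, nat_lit 3951624, true, true⟩,
 nat_lit 0, nat_lit 0, nat_lit 10087, nat_lit 0, nat_lit 2712, nat_lit 5871, nat_lit 475, nat_lit 0, nat_lit 0, nat_lit 660, nat_lit 0, nat_lit 0, nat_lit 0, nat_lit 0, nat_lit 0, nat_lit 93600, nat_lit 0, nat_lit 0, [(nat_lit 29, [(nat_lit 1, nat_lit 234)])],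
 ⟨p114_k4, nat_lit 0, nat_lit 0, nat_lit 165, nat_lit 0, nat_lit 0, [nat_lit 881933600, nat_lit 2591700001, nat_lit 6116311200], [], [nat_lit 26853838724, nat_lit 27488839922, nat_lit 28480489404, nat_lit 29066526460, nat_lit 26032158477, nat_lit 26492742664, nat_lit 27399324842, nat_lit 27944817586], nat_lit 0, nat_lit 0, nat_lit 0, nat_lit 0, nat_lit 0, nat_lit 0, [], [nat_lit 54, nat_lit 40, nat_lit 40, nat_lit 80, nat_lit 43, nat_lit 226, nat_lit 20, nat_lit 6]⟩, ⟨p114_k8, nat_lit 0, nat_lit 0, nat_lit 605, nat_lit 0, nat_lit 680798, [nat_lit 3591008000, nat_lit 6103488000, nat_lit 10768428000], [], [nat_lit 27864254312, nat_lit 28095029572, nat_lit 29077859318, nat_lit 29535103059, nat_lit 23442324838, nat_lit 23552842312, nat_lit 24087444685, nat_lit 24285845812], nat_lit 1271250, nat_lit 1271250, nat_lit 1271250, nat_lit 1271250, nat_lit 0, nat_lit 1836250, [nat_lit 1100000, nat_lit 1785000, nat_lit 1271250],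 [nat_lit 37, nat_lit 40, nat_lit 40, nat_lit 80, nat_lit 28, nat_lit 456, nat_lit 225, nat_lit 10]⟩,
 ⟨nat_lit 1581, nat_lit 2237, ⟨.ofNat (nat_lit 739368), .ofNat (nat_lit 784980), .ofNat (nat_lit 762142), .ofNat (nat_lit 807755), .ofNat (nat_lit 733851), .ofNat (nat_lit 777560), .ofNat (nat_lit 757166), .ofNat (nat_lit 800875)⟩, ⟨.ofNat (nat_lit 80000), .ofNat (nat_lit 200000), .ofNat (nat_lit 80000), .ofNat (nat_lit 200000), .ofNat (nat_lit 80000), .ofNat (nat_lit 200000), .ofNat (nat_lit 80000), .ofNat (nat_lit 200000)⟩⟩, [⟨nat_lit 22, nat_lit 83, nat_lit 100, nat_lit 83, nat_lit 43598175⟩]⟩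
noncomputable def p114_l42 : Lf2 := ⟨nat_lit 0, nat_lit 30, [nat_lit 15, nat_lit 5, nat_lit 5, nat_lit 20], false, nat_lit 48, nat_lit 80, nat_lit 0, nat_lit 260, ⟨nat_lit 242, nat_lit 758, nat_lit 0, nat_lit 8, nat_lit 301, nat_lit 758, nat_lit 64, nat_lit 0, nat_lit 0, nat_lit 0, nat_lit 0, nat_lit 0, nat_lit 41282627, nat_lit 23621155, nat_lit 2096218, nat_lit 4029171, true, true⟩,
 nat_lit 0, nat_lit 0, nat_lit 3318, nat_lit 0, nat_lit 2453, nat_lit 1931, nat_lit 209, nat_lit 0, nat_lit 0, nat_lit 186, nat_lit 0, nat_lit 0, nat_lit 0, nat_lit 0, nat_lit 0, nat_lit 189500, nat_lit 0, nat_lit 0, [(nat_lit 29, [(nat_lit 0, nat_lit 758)])],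
 ⟨p114_k7, nat_lit 0, nat_lit 0, nat_lit 139, nat_lit 0, nat_lit 0, [nat_lit 819448800, nat_lit 1587112000, nat_lit 2866591200], [], [nat_lit 26731885436, nat_lit 27232608252, nat_lit 27387512417, nat_lit 27930935468, nat_lit 26414242572, nat_lit 26942730648, nat_lit 27096378452, nat_lit 27615010396], nat_lit 0, nat_lit 0, nat_lit 0, nat_lit 0, nat_lit 0, nat_lit 0, [], [nat_lit 20, nat_lit 40, nat_lit 40, nat_lit 80, nat_lit 16, nat_lit 226, nat_lit 20, nat_lit 7]⟩, ⟨p114_k8, nat_lit 0, nat_lit 0, nat_lit 683, nat_lit 0, nat_lit 864111, [nat_lit 1134496000, nat_lit 1928256000, nat_lit 3402036000], [], [nat_lit 9069505808, nat_lit 9180515788, nat_lit 9262654905, nat_lit 9421161437, nat_lit 7562414067, nat_lit 7570052191, nat_lit 7627664274, nat_lit 7725426682], nat_lit 1271250, nat_lit 1271250, nat_lit 1271250, nat_lit 1271250, nat_lit 0, nat_lit 1836250, [nat_lit 1100000, nat_lit 1785000, nat_lit 1271250], [nat_lit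 37, nat_lit 40, nat_lit 40, nat_lit 80, nat_lit 28, nat_lit 456, nat_lit 225, nat_lit 10]⟩,
 ⟨nat_lit 0, nat_lit 1582, ⟨.ofNat (nat_lit 733849), .ofNat (nat_lit 755702), .ofNat (nat_lit 757165), .ofNat (nat_lit 779018), .ofNat (nat_lit 724997), .ofNat (nat_lit 744996), .ofNat (nat_lit 749998), .ofNat (nat_lit 769997)⟩, ⟨.ofNat (nat_lit 120000), .ofNat (nat_lit 200000), .ofNat (nat_lit 120000), .ofNat (nat_lit 200000), .ofNat (nat_lit 120000), .ofNat (nat_lit 200000), .ofNat (nat_lit 120000), .ofNat (nat_lit 200000)⟩⟩, [⟨nat_lit 13, nat_lit 24, nat_lit 89, nat_lit 100, nat_lit 671897243⟩, ⟨nat_lit 3, nat_lit 100, nat_lit 36, nat_lit 77, nat_lit 222679227⟩, ⟨nat_lit 22, nat_lit 77, nat_lit 100, nat_lit 74, nat_lit 15206753⟩]⟩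
noncomputable def b_V_900_600_20_39 : St := ⟨true, nat_lit 0, nat_lit 1, nat_lit 1, nat_lit 120, nat_lit 380, nat_lit 400, nat_lit 240, nat_lit 280, nat_lit 320, nat_lit 352, nat_lit 80, nat_lit 120, nat_lit 20, nat_lit 80, nat_lit 0, nat_lit 336, nat_lit 80, nat_lit 120, nat_lit 0, nat_lit 0, nat_lit 0, nat_lit 0⟩
theorem d_V_900_600_20_39 (h : EB TB.env) : Dead b_V_900_600_20_39 := chkB_sound0 h (T :=
(.trX (nat_lit 22) (nat_lit 83) (nat_lit 100) (nat_lit 83) (nat_lit 260) (.spl (nat_lit 1) (nat_lit 260)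
(.trX (nat_lit 13) (nat_lit 46) (nat_lit 76) (nat_lit 100) (nat_lit 340) (.spl (nat_lit 3) (nat_lit 100)
(.spl (nat_lit 1) (nat_lit 250)
(.trX (nat_lit 13) (nat_lit 45) (nat_lit 79) (nat_lit 100) (nat_lit 332) (.leaf p114_l34))
(.spl (nat_lit 0) (nat_lit 390)
(.leaf p114_l35)
(.emL (nat_lit 13) (nat_lit 33) (nat_lit 85) (nat_lit 100))))
(.trZ (nat_lit 3) (nat_lit 100) (nat_lit 50) (nat_lit 65) (nat_lit 32) (.spl (nat_lit 1) (nat_lit 250)
(.trX (nat_lit 13) (nat_lit 45) (nat_lit 79) (nat_lit 100) (nat_lit 332) (.leaf p114_l36))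
(.leaf p114_l37)))))
(.spl (nat_lit 3) (nat_lit 100)
(.spl (nat_lit 1) (nat_lit 270)
(.trX (nat_lit 13) (nat_lit 47) (nat_lit 74) (nat_lit 100) (nat_lit 348) (.spl (nat_lit 0) (nat_lit 390)
(.leaf p114_l38)
(.trX (nat_lit 13) (nat_lit 33) (nat_lit 83) (nat_lit 100) (nat_lit 328) (.trZ (nat_lit 3) (nat_lit 100) (nat_lit 39) (nat_lit 72) (nat_lit 36) (.leaf p114_l39)))))
(.leaf p114_l40))
(.trZ (nat_lit 3) (nat_lit 100) (nat_lit 50) (nat_lit 65) (nat_lit 32) (.spl (nat_lit 0) (nat_lit 390)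
(.leaf p114_l41)
(.trX (nat_lit 13) (nat_lit 34) (nat_lit 81) (nat_lit 100) (nat_lit 336) (.trZ (nat_lit 3) (nat_lit 100) (nat_lit 36) (nat_lit 77) (nat_lit 48) (.leaf p114_l42))))))))) (by decide +kernel)
noncomputable def p114_l43 : Lf2 := ⟨nat_lit 0, nat_lit 25, [nat_lit 44, nat_lit 5, nat_lit 5, nat_lit 20], false, nat_lit 80, nat_lit 160, nat_lit 0, nat_lit 352, ⟨nat_lit 56, nat_lit 766, nat_lit 178, nat_lit 6, nat_lit 261, nat_lit 944, nat_lit 103, nat_lit 178, nat_lit 98817, nat_lit 292, nat_lit 138984, nat_lit 200, nat_lit 43379252, nat_lit 19183349, nat_lit 4437399, nat_lit 4341714, true, false⟩,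
 nat_lit 0, nat_lit 0, nat_lit 943, nat_lit 0, nat_lit 3649, nat_lit 499, nat_lit 0, nat_lit 0, nat_lit 0, nat_lit 39, nat_lit 0, nat_lit 0, nat_lit 0, nat_lit 0, nat_lit 0, nat_lit 226210, nat_lit 0, nat_lit 0, [(nat_lit 29, [(nat_lit 0, nat_lit 766), (nat_lit 3, nat_lit 178)])],
 ⟨p114_k0, nat_lit 0, nat_lit 0, nat_lit 104, nat_lit 0, nat_lit 0, [nat_lit 855150401, nat_lit 849771734, nat_lit 1362026400], [], [nat_lit 23914303924, nat_lit 24597877378, nat_lit 25358484124, nat_lit 25995833418, nat_lit 24252502268, nat_lit 24872049896, nat_lit 25569452928, nat_lit 26142541432], nat_lit 0, nat_lit 0, nat_lit 0, nat_lit 0, nat_lit 0, nat_lit 0, [], [nat_lit 20, nat_lit 40, nat_lit 40, nat_lit 80, nat_lit 16, nat_lit 249, nat_lit 40, nat_lit 8]⟩, ⟨p114_k1, nat_lit 0, nat_lit 0, nat_lit 782, nat_lit 0, nat_lit 1009777, [nat_lit 262528000, nat_lit 446208000, nat_lit 787248000], [], [nat_lit 2260616600, nat_lit 2292026092,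 nat_lit 2292026092, nat_lit 2326138844, nat_lit 1904904638, nat_lit 1910270946, nat_lit 1910270946, nat_lit 1915682983], nat_lit 1271250, nat_lit 1271250, nat_lit 1271250, nat_lit 1271250, nat_lit 0, nat_lit 2486000, [nat_lit 1100000, nat_lit 1785000, nat_lit 1271250], [nat_lit 37, nat_lit 40, nat_lit 40, nat_lit 80, nat_lit 28, nat_lit 483, nat_lit 250, nat_lit 11]⟩,
 ⟨nat_lit 1581, nat_lit 2237, ⟨.ofNat (nat_lit 602558), .ofNat (nat_lit 659578), .ofNat (nat_lit 648016), .ofNat (nat_lit 705117), .ofNat (nat_lit 601260), .ofNat (nat_lit 655900), .ofNat (nat_lit 647799), .ofNat (nat_lit 702521)⟩, ⟨.ofNat (nat_lit 192306), .ofNat (nat_lit 306337), .ofNat (nat_lit 200000), .ofNat (nat_lit 329112), .ofNat (nat_lit 196201), .ofNat (nat_lit 305473), .ofNat (nat_lit 200000), .ofNat (nat_lit 328788)⟩⟩, [⟨nat_lit 7, nat_lit 81, nat_lit 100, nat_lit 88, nat_lit 5725308⟩]⟩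
noncomputable def p114_l44 : Lf2 := ⟨nat_lit 0, nat_lit 25, [nat_lit 44, nat_lit 5, nat_lit 5, nat_lit 20], true, nat_lit 80, nat_lit 160, nat_lit 0, nat_lit 352, ⟨nat_lit 0, nat_lit 1000, nat_lit 0, nat_lit 6, nat_lit 260, nat_lit 1000, nat_lit 103, nat_lit 0, nat_lit 0, nat_lit 0, nat_lit 0, nat_lit 0, nat_lit 43468844, nat_lit 19097858, nat_lit 4433298, nat_lit 4335420, true, false⟩,
 nat_lit 0, nat_lit 0, nat_lit 0, nat_lit 0, nat_lit 3120, nat_lit 0, nat_lit 0, nat_lit 0, nat_lit 0, nat_lit 0, nat_lit 0, nat_lit 0, nat_lit 0, nat_lit 0, nat_lit 0, nat_lit 250000, nat_lit 0, nat_lit 0, [(nat_lit 29, [(nat_lit 0, nat_lit 1000)])],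
 ⟨p114_k2, nat_lit 0, nat_lit 0, nat_lit 94, nat_lit 0, nat_lit 0, [nat_lit 781600001, nat_lit 1046000001, nat_lit 1376400000], [], [nat_lit 23851640240, nat_lit 24525651040, nat_lit 25279713240, nat_lit 25952805760, nat_lit 24375849360, nat_lit 24987716000, nat_lit 25686760240, nat_lit 26253665280], nat_lit 0, nat_lit 0, nat_lit 0, nat_lit 0, nat_lit 0, nat_lit 0, [], [nat_lit 35, nat_lit 40, nat_lit 40, nat_lit 80, nat_lit 22, nat_lit 249, nat_lit 40, nat_lit 10]⟩, C1.Rw.none,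
 ⟨nat_lit 0, nat_lit 1582, ⟨.ofNat (nat_lit 601257), .ofNat (nat_lit 655899), .ofNat (nat_lit 646579), .ofNat (nat_lit 702515), .ofNat (nat_lit 599992), .ofNat (nat_lit 649998), .ofNat (nat_lit 648683), .ofNat (nat_lit 699984)⟩, ⟨.ofNat (nat_lit 196201), .ofNat (nat_lit 305469), .ofNat (nat_lit 200000), .ofNat (nat_lit 328785), .ofNat (nat_lit 199999), .ofNat (nat_lit 299995), .ofNat (nat_lit 200000), .ofNat (nat_lit 324996)⟩⟩, [⟨nat_lit 4, nat_lit 100, nat_lit 24, nat_lit 89, nat_lit 27611913⟩]⟩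
noncomputable def b_V_900_600_20_40 : St := ⟨true, nat_lit 0, nat_lit 1, nat_lit 1, nat_lit 120, nat_lit 380, nat_lit 400, nat_lit 240, nat_lit 280, nat_lit 240, nat_lit 280, nat_lit 80, nat_lit 100, nat_lit 80, nat_lit 160, nat_lit 0, nat_lit 364, nat_lit 80, nat_lit 120, nat_lit 0, nat_lit 0, nat_lit 0, nat_lit 0⟩
theorem d_V_900_600_20_40 (h : EB TB.env) : Dead b_V_900_600_20_40 := chkB_sound0 h (T :=
(.trX (nat_lit 19) (nat_lit 100) (nat_lit 68) (nat_lit 88) (nat_lit 352) (.spl (nat_lit 0) (nat_lit 390)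
(.leaf p114_l43)
(.leaf p114_l44)))) (by decide +kernel)
noncomputable def p114_l45 : Lf2 := ⟨nat_lit 0, nat_lit 25, [nat_lit 44, nat_lit 5, nat_lit 5, nat_lit 20], true, nat_lit 80, nat_lit 120, nat_lit 0, nat_lit 364, ⟨nat_lit 0, nat_lit 612, nat_lit 388, nat_lit 6, nat_lit 256, nat_lit 1000, nat_lit 97, nat_lit 388, nat_lit 88817, nat_lit 288, nat_lit 93454, nat_lit 200, nat_lit 44158733, nat_lit 18741489, nat_lit 4099778, nat_lit 4243062, true, true⟩,
 nat_lit 0, nat_lit 0, nat_lit 0, nat_lit 0, nat_lit 2640, nat_lit 0, nat_lit 0, nat_lit 0, nat_lit 0, nat_lit 0, nat_lit 0, nat_lit 0, nat_lit 0, nat_lit 0, nat_lit 0, nat_lit 250000, nat_lit 0, nat_lit 0, [(nat_lit 29, [(nat_lit 0, nat_lit 612), (nat_lit 4, nat_lit 388)])],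
 ⟨p114_k0, nat_lit 0, nat_lit 0, nat_lit 109, nat_lit 0, nat_lit 0, [nat_lit 773840001, nat_lit 247133867, nat_lit 75940800], [], [nat_lit 22776971921, nat_lit 23930411841, nat_lit 24107095201, nat_lit 25204942720, nat_lit 23142709721, nat_lit 24245760881, nat_lit 24420261721, nat_lit 25446784641], nat_lit 0, nat_lit 0, nat_lit 0, nat_lit 0, nat_lit 0, nat_lit 0, [], [nat_lit 20, nat_lit 40, nat_lit 40, nat_lit 80, nat_lit 16, nat_lit 238, nat_lit 30, nat_lit 8]⟩, C1.Rw.none,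
 ⟨nat_lit 0, nat_lit 2237, ⟨.ofNat (nat_lit 602531), .ofNat (nat_lit 659577), .ofNat (nat_lit 624400), .ofNat (nat_lit 682352), .ofNat (nat_lit 599967), .ofNat (nat_lit 649998), .ofNat (nat_lit 624062), .ofNat (nat_lit 674999)⟩, ⟨.ofNat (nat_lit 200000), .ofNat (nat_lit 272096), .ofNat (nat_lit 200000), .ofNat (nat_lit 294870), .ofNat (nat_lit 200000), .ofNat (nat_lit 274999), .ofNat (nat_lit 200000), .ofNat (nat_lit 299999)⟩⟩, []⟩
noncomputable def p114_l46 : Lf2 := ⟨nat_lit 0, nat_lit 25, [nat_lit 44, nat_lit 5, nat_lit 5, nat_lit 20], false, nat_lit 80, nat_lit 120, nat_lit 0, nat_lit 352, ⟨nat_lit 146, nat_lit 854, nat_lit 0, nat_lit 6, nat_lit 266, nat_lit 854, nat_lit 97, nat_lit 0, nat_lit 0, nat_lit 0, nat_lit 0, nat_lit 0, nat_lit 43242848, nat_lit 19714243, nat_lit 4042909, nat_lit 4293137, true, false⟩,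
 nat_lit 0, nat_lit 0, nat_lit 1991, nat_lit 0, nat_lit 2600, nat_lit 1158, nat_lit 96, nat_lit 0, nat_lit 0, nat_lit 145, nat_lit 0, nat_lit 0, nat_lit 0, nat_lit 0, nat_lit 0, nat_lit 341600, nat_lit 0, nat_lit 0, [(nat_lit 29, [(nat_lit 1, nat_lit 854)])],
 ⟨p114_k0, nat_lit 0, nat_lit 0, nat_lit 104, nat_lit 0, nat_lit 0, [nat_lit 733381600, nat_lit 762700000, nat_lit 992776000], [], [nat_lit 22599928400, nat_lit 23179312200, nat_lit 23935351600, nat_lit 24479165000, nat_lit 22972293400, nat_lit 23520420100, nat_lit 24246380400, nat_lit 24756626800], nat_lit 0, nat_lit 0, nat_lit 0, nat_lit 0, nat_lit 0, nat_lit 0, [], [nat_lit 20, nat_lit 40, nat_lit 40, nat_lit 80, nat_lit 16, nat_lit 238, nat_lit 30, nat_lit 8]⟩, ⟨p114_k3, nat_lit 0, nat_lit 0, nat_lit 609, nat_lit 0, nat_lit 657544, [nat_lit 684448000, nat_lit 1163328000, nat_lit 2052468000], [], [nat_lit 4684645952, nat_lit 4747359832, nat_lit 4800711848, nat_lit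 4855148168, nat_lit 4342827213, nat_lit 4382046490, nat_lit 4414164997, nat_lit 4446529381], nat_lit 1271250, nat_lit 1271250, nat_lit 1271250, nat_lit 1271250, nat_lit 0, nat_lit 2486000, [nat_lit 1100000, nat_lit 1785000, nat_lit 1271250], [nat_lit 37, nat_lit 40, nat_lit 40, nat_lit 80, nat_lit 28, nat_lit 483, nat_lit 250, nat_lit 11]⟩,
 ⟨nat_lit 1581, nat_lit 2237, ⟨.ofNat (nat_lit 625287), .ofNat (nat_lit 682352), .ofNat (nat_lit 648016), .ofNat (nat_lit 705117), .ofNat (nat_lit 624529), .ofNat (nat_lit 679215), .ofNat (nat_lit 647799), .ofNat (nat_lit 702521)⟩, ⟨.ofNat (nat_lit 200000), .ofNat (nat_lit 272096), .ofNat (nat_lit 200000), .ofNat (nat_lit 294870), .ofNat (nat_lit 200000), .ofNat (nat_lit 274152), .ofNat (nat_lit 200000), .ofNat (nat_lit 297467)⟩⟩, [⟨nat_lit 22, nat_lit 100, nat_lit 77, nat_lit 91, nat_lit 24666784⟩]⟩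
noncomputable def p114_l47 : Lf2 := ⟨nat_lit 0, nat_lit 25, [nat_lit 44, nat_lit 5, nat_lit 5, nat_lit 20], true, nat_lit 80, nat_lit 120, nat_lit 0, nat_lit 352, ⟨nat_lit 0, nat_lit 1000, nat_lit 0, nat_lit 6, nat_lit 265, nat_lit 1000, nat_lit 97, nat_lit 0, nat_lit 0, nat_lit 0, nat_lit 0, nat_lit 0, nat_lit 43291814, nat_lit 19637164, nat_lit 4071022, nat_lit 4294356, true, false⟩,
 nat_lit 0, nat_lit 0, nat_lit 0, nat_lit 0, nat_lit 2645, nat_lit 0, nat_lit 0, nat_lit 0, nat_lit 0, nat_lit 0, nat_lit 0, nat_lit 0, nat_lit 0, nat_lit 0, nat_lit 0, nat_lit 250000, nat_lit 0, nat_lit 0, [(nat_lit 29, [(nat_lit 0, nat_lit 1000)])],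
 ⟨p114_k2, nat_lit 0, nat_lit 0, nat_lit 94, nat_lit 0, nat_lit 0, [nat_lit 781600001, nat_lit 1046000001, nat_lit 1376400000], [], [nat_lit 23853442426, nat_lit 24465230121, nat_lit 25217244546, nat_lit 25796724100, nat_lit 24221742759, nat_lit 24806310391, nat_lit 25532183701, nat_lit 26075284081], nat_lit 0, nat_lit 0, nat_lit 0, nat_lit 0, nat_lit 0, nat_lit 0, [], [nat_lit 35, nat_lit 40, nat_lit 40, nat_lit 80, nat_lit 22, nat_lit 238, nat_lit 30, nat_lit 9]⟩, C1.Rw.none,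
 ⟨nat_lit 0, nat_lit 1582, ⟨.ofNat (nat_lit 623921), .ofNat (nat_lit 679215), .ofNat (nat_lit 646579), .ofNat (nat_lit 702515), .ofNat (nat_lit 624340), .ofNat (nat_lit 674999), .ofNat (nat_lit 648683), .ofNat (nat_lit 699984)⟩, ⟨.ofNat (nat_lit 200000), .ofNat (nat_lit 274152), .ofNat (nat_lit 200000), .ofNat (nat_lit 297467), .ofNat (nat_lit 200000), .ofNat (nat_lit 274999), .ofNat (nat_lit 200000), .ofNat (nat_lit 299999)⟩⟩, []⟩
noncomputable def p114_l48 : Lf2 := ⟨nat_lit 0, nat_lit 25, [nat_lit 44, nat_lit 5, nat_lit 5, nat_lit 20], true, nat_lit 120, nat_lit 160, nat_lit 0, nat_lit 364, ⟨nat_lit 0, nat_lit 1000, nat_lit 0, nat_lit 6, nat_lit 261, nat_lit 1000, nat_lit 125, nat_lit 0, nat_lit 0, nat_lit 0, nat_lit 0, nat_lit 0, nat_lit 42297251, nat_lit 18818357, nat_lit 5884392, nat_lit 4589774, true, false⟩,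
 nat_lit 0, nat_lit 0, nat_lit 0, nat_lit 0, nat_lit 3928, nat_lit 0, nat_lit 0, nat_lit 0, nat_lit 0, nat_lit 0, nat_lit 0, nat_lit 0, nat_lit 0, nat_lit 0, nat_lit 0, nat_lit 250000, nat_lit 0, nat_lit 0, [(nat_lit 29, [(nat_lit 0, nat_lit 1000)])],
 ⟨p114_k0, nat_lit 0, nat_lit 0, nat_lit 91, nat_lit 0, nat_lit 0, [nat_lit 781600001, nat_lit 1046000001, nat_lit 1786400000], [], [nat_lit 24425444912, nat_lit 25777284416, nat_lit 25830302872, nat_lit 27140785504, nat_lit 24545726896, nat_lit 25830116128, nat_lit 25883976416, nat_lit 27070271392], nat_lit 0, nat_lit 0, nat_lit 0, nat_lit 0, nat_lit 0, nat_lit 0, [], [nat_lit 20, nat_lit 40, nat_lit 40, nat_lit 80, nat_lit 16, nat_lit 249, nat_lit 40, nat_lit 8]⟩, C1.Rw.none,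
 ⟨nat_lit 0, nat_lit 2237, ⟨.ofNat (nat_lit 602531), .ofNat (nat_lit 659577), .ofNat (nat_lit 646249), .ofNat (nat_lit 705063), .ofNat (nat_lit 599967), .ofNat (nat_lit 649998), .ofNat (nat_lit 648136), .ofNat (nat_lit 699935)⟩, ⟨.ofNat (nat_lit 272096), .ofNat (nat_lit 329109), .ofNat (nat_lit 294870), .ofNat (nat_lit 351885), .ofNat (nat_lit 274999), .ofNat (nat_lit 324996), .ofNat (nat_lit 299999), .ofNat (nat_lit 349998)⟩⟩, []⟩
noncomputable def b_V_900_600_20_41 : St := ⟨true, nat_lit 0, nat_lit 1, nat_lit 1, nat_lit 120, nat_lit 380, nat_lit 400, nat_lit 240, nat_lit 280, nat_lit 240, nat_lit 280, nat_lit 100, nat_lit 120, nat_lit 80, nat_lit 160, nat_lit 0, nat_lit 364, nat_lit 80, nat_lit 100, nat_lit 0, nat_lit 0, nat_lit 0, nat_lit 0⟩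
theorem d_V_900_600_20_41 (h : EB TB.env) : Dead b_V_900_600_20_41 := chkB_sound0 h (T :=
(.spl (nat_lit 4) (nat_lit 120)
(.spl (nat_lit 1) (nat_lit 260)
(.leaf p114_l45)
(.trX (nat_lit 19) (nat_lit 100) (nat_lit 69) (nat_lit 96) (nat_lit 352) (.spl (nat_lit 0) (nat_lit 390)
(.leaf p114_l46)
(.leaf p114_l47))))
(.leaf p114_l48))) (by decide +kernel)
noncomputable def p114_l49 : Lf2 := ⟨nat_lit 0, nat_lit 30, [nat_lit 15, nat_lit 5, nat_lit 5, nat_lit 20], true, nat_lit 80, nat_lit 160, nat_lit 0, nat_lit 364, ⟨nat_lit 0, nat_lit 298, nat_lit 702, nat_lit 6, nat_lit 254, nat_lit 1000, nat_lit 108, nat_lit 702, nat_lit 109350, nat_lit 296, nat_lit 70680, nat_lit 200, nat_lit 43730117, nat_lit 18464529, nat_lit 4805354, nat_lit 4367774, true, true⟩,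
 nat_lit 0, nat_lit 0, nat_lit 0, nat_lit 7290, nat_lit 2397, nat_lit 0, nat_lit 0, nat_lit 0, nat_lit 0, nat_lit 0, nat_lit 0, nat_lit 0, nat_lit 0, nat_lit 0, nat_lit 71, nat_lit 250000, nat_lit 0, nat_lit 0, [(nat_lit 29, [(nat_lit 0, nat_lit 298), (nat_lit 4, nat_lit 702)])],
 ⟨p114_k14, nat_lit 0, nat_lit 0, nat_lit 122, nat_lit 0, nat_lit 0, [nat_lit 1051560001, nat_lit 335534400, nat_lit 159405600], [], [nat_lit 22349514267, nat_lit 22609817923, nat_lit 23575017999, nat_lit 23864509079, nat_lit 23084018815, nat_lit 23322551394, nat_lit 24386252189, nat_lit 24662250500], nat_lit 0, nat_lit 0, nat_lit 0, nat_lit 0, nat_lit 0, nat_lit 0, [], [nat_lit 57, nat_lit 40, nat_lit 40, nat_lit 80, nat_lit 7, nat_lit 249, nat_lit 40, nat_lit 7]⟩, C1.Rw.none,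
 ⟨nat_lit 1936, nat_lit 2237, ⟨.ofNat (nat_lit 602562), .ofNat (nat_lit 659578), .ofNat (nat_lit 613945), .ofNat (nat_lit 670965), .ofNat (nat_lit 601908), .ofNat (nat_lit 657798), .ofNat (nat_lit 613410), .ofNat (nat_lit 669304)⟩, ⟨.ofNat (nat_lit 200000), .ofNat (nat_lit 329112), .ofNat (nat_lit 200000), .ofNat (nat_lit 351886), .ofNat (nat_lit 200000), .ofNat (nat_lit 329055), .ofNat (nat_lit 200000), .ofNat (nat_lit 352066)⟩⟩, []⟩
noncomputable def p114_l50 : Lf2 := ⟨nat_lit 0, nat_lit 30, [nat_lit 15, nat_lit 5, nat_lit 5, nat_lit 20], false, nat_lit 80, nat_lit 160, nat_lit 0, nat_lit 360, ⟨nat_lit 180, nat_lit 53, nat_lit 767, nat_lit 6, nat_lit 258, nat_lit 820, nat_lit 108, nat_lit 767, nat_lit 109350, nat_lit 296, nat_lit 82068, nat_lit 200, nat_lit 43414514, nat_lit 18799083, nat_lit 4786403, nat_lit 4386321, true, true⟩,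
 nat_lit 0, nat_lit 0, nat_lit 3451, nat_lit 0, nat_lit 2857, nat_lit 1916, nat_lit 0, nat_lit 0, nat_lit 0, nat_lit 126, nat_lit 0, nat_lit 0, nat_lit 0, nat_lit 0, nat_lit 41, nat_lit 199940, nat_lit 0, nat_lit 0, [(nat_lit 29, [(nat_lit 0, nat_lit 53), (nat_lit 3, nat_lit 92), (nat_lit 4, nat_lit 675)])],
 ⟨p114_k14, nat_lit 0, nat_lit 0, nat_lit 122, nat_lit 0, nat_lit 0, [nat_lit 993740000, nat_lit 241573601, nat_lit 246450000], [], [nat_lit 22980224166, nat_lit 23265287871, nat_lit 24254983942, nat_lit 24519737050, nat_lit 23529979734, nat_lit 23784860943, nat_lit 24689948014, nat_lit 24934751640], nat_lit 0, nat_lit 0, nat_lit 0, nat_lit 0, nat_lit 0, nat_lit 0, [], [nat_lit 57, nat_lit 40, nat_lit 40, nat_lit 80, nat_lit 7, nat_lit 249, nat_lit 40, nat_lit 7]⟩, ⟨p114_k15, nat_lit 0, nat_lit 0, nat_lit 418, nat_lit 0, nat_lit 252661, [nat_lit 843840000, nat_lit 1771560000, nat_lit 2530440000], [], [nat_lit 6431954856,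 nat_lit 6459196756, nat_lit 6640671664, nat_lit 6663304368, nat_lit 6432229244, nat_lit 6223427875, nat_lit 5706420732, nat_lit 5718982213], nat_lit 1271250, nat_lit 1271250, nat_lit 1271250, nat_lit 1271250, nat_lit 0, nat_lit 2542500, [nat_lit 1100000, nat_lit 2127500, nat_lit 1271250], [nat_lit 56, nat_lit 40, nat_lit 40, nat_lit 80, nat_lit 32, nat_lit 456, nat_lit 225, nat_lit 10]⟩,
 ⟨nat_lit 1936, nat_lit 2237, ⟨.ofNat (nat_lit 613945), .ofNat (nat_lit 670965), .ofNat (nat_lit 619636), .ofNat (nat_lit 676659), .ofNat (nat_lit 613410), .ofNat (nat_lit 669304), .ofNat (nat_lit 619161), .ofNat (nat_lit 675057)⟩, ⟨.ofNat (nat_lit 200000), .ofNat (nat_lit 329112), .ofNat (nat_lit 200000), .ofNat (nat_lit 351886), .ofNat (nat_lit 200000), .ofNat (nat_lit 329055), .ofNat (nat_lit 200000), .ofNat (nat_lit 352066)⟩⟩, [⟨nat_lit 7, nat_lit 69, nat_lit 100, nat_lit 93, nat_lit 23710947⟩]⟩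
noncomputable def p114_l51 : Lf2 := ⟨nat_lit 0, nat_lit 30, [nat_lit 15, nat_lit 5, nat_lit 5, nat_lit 20], false, nat_lit 80, nat_lit 160, nat_lit 0, nat_lit 356, ⟨nat_lit 182, nat_lit 51, nat_lit 767, nat_lit 6, nat_lit 260, nat_lit 818, nat_lit 108, nat_lit 767, nat_lit 109350, nat_lit 296, nat_lit 93454, nat_lit 200, nat_lit 43204596, nat_lit 19021827, nat_lit 4773577, nat_lit 4398260, true, true⟩,
 nat_lit 0, nat_lit 0, nat_lit 3207, nat_lit 0, nat_lit 2870, nat_lit 1824, nat_lit 0, nat_lit 0, nat_lit 0, nat_lit 128, nat_lit 0, nat_lit 0, nat_lit 0, nat_lit 0, nat_lit 40, nat_lit 198615, nat_lit 0, nat_lit 0, [(nat_lit 29, [(nat_lit 0, nat_lit 51), (nat_lit 3, nat_lit 107), (nat_lit 4, nat_lit 660)])],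
 ⟨p114_k14, nat_lit 0, nat_lit 0, nat_lit 122, nat_lit 0, nat_lit 0, [nat_lit 995812801, nat_lit 238317200, nat_lit 245164800], [], [nat_lit 23001649860, nat_lit 23287260455, nat_lit 24277418020, nat_lit 24542655345, nat_lit 23546805541, nat_lit 23802148776, nat_lit 24707528341, nat_lit 24947283900], nat_lit 0, nat_lit 0, nat_lit 0, nat_lit 0, nat_lit 0, nat_lit 0, [], [nat_lit 57, nat_lit 40, nat_lit 40, nat_lit 80, nat_lit 7, nat_lit 249, nat_lit 40, nat_lit 7]⟩, ⟨p114_k16, nat_lit 0, nat_lit 0, nat_lit 425, nat_lit 0, nat_lit 269832, [nat_lit 853216000, nat_lit 1791244000, nat_lit 2558556000], [], [nat_lit 6457491793, nat_lit 6484679804, nat_lit 6661718517, nat_lit 6684480740, nat_lit 6256528528, nat_lit 6057505276, nat_lit 5737630133, nat_lit 5747739061], nat_lit 1271250, nat_lit 1271250, nat_lit 1271250, nat_lit 1271250, nat_lit 0, nat_lit 2514250, [nat_lit 1100000, nat_lit 2127500, nat_lit 1271250], [nat_lit 56,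 nat_lit 40, nat_lit 40, nat_lit 80, nat_lit 32, nat_lit 456, nat_lit 225, nat_lit 10]⟩,
 ⟨nat_lit 1936, nat_lit 2237, ⟨.ofNat (nat_lit 619636), .ofNat (nat_lit 676659), .ofNat (nat_lit 625327), .ofNat (nat_lit 682352), .ofNat (nat_lit 619161), .ofNat (nat_lit 675057), .ofNat (nat_lit 624911), .ofNat (nat_lit 680809)⟩, ⟨.ofNat (nat_lit 200000), .ofNat (nat_lit 329112), .ofNat (nat_lit 200000), .ofNat (nat_lit 351886), .ofNat (nat_lit 200000), .ofNat (nat_lit 329055), .ofNat (nat_lit 200000), .ofNat (nat_lit 352066)⟩⟩, [⟨nat_lit 19, nat_lit 100, nat_lit 72, nat_lit 93, nat_lit 23761995⟩]⟩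
noncomputable def p114_l52 : Lf2 := ⟨nat_lit 0, nat_lit 30, [nat_lit 15, nat_lit 5, nat_lit 5, nat_lit 20], false, nat_lit 80, nat_lit 160, nat_lit 0, nat_lit 364, ⟨nat_lit 104, nat_lit 408, nat_lit 488, nat_lit 6, nat_lit 256, nat_lit 896, nat_lit 108, nat_lit 487, nat_lit 109350, nat_lit 296, nat_lit 90368, nat_lit 200, nat_lit 43560730, nat_lit 18644400, nat_lit 4794870, nat_lit 4377771, true, true⟩,
 nat_lit 0, nat_lit 0, nat_lit 2143, nat_lit 0, nat_lit 2736, nat_lit 1134, nat_lit 0, nat_lit 0, nat_lit 0, nat_lit 75, nat_lit 0, nat_lit 0, nat_lit 0, nat_lit 0, nat_lit 0, nat_lit 224000, nat_lit 0, nat_lit 0, [(nat_lit 29, [(nat_lit 0, nat_lit 408), (nat_lit 4, nat_lit 488)])],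
 ⟨p114_k17, nat_lit 0, nat_lit 0, nat_lit 105, nat_lit 0, nat_lit 0, [nat_lit 788105600, nat_lit 181068801, nat_lit 99315200], [], [nat_lit 23060394564, nat_lit 23359523192, nat_lit 24393694148, nat_lit 24674830152, nat_lit 23723922368, nat_lit 23990879008, nat_lit 24937837924, nat_lit 25186447992], nat_lit 0, nat_lit 0, nat_lit 0, nat_lit 0, nat_lit 0, nat_lit 0, [], [nat_lit 55, nat_lit 40, nat_lit 40, nat_lit 80, nat_lit 3, nat_lit 249, nat_lit 40, nat_lit 8]⟩, ⟨p114_k18, nat_lit 0, nat_lit 0, nat_lit 534, nat_lit 0, nat_lit 404606, [nat_lit 487552000, nat_lit 1023568000, nat_lit 1705600000], [], [nat_lit 3972000448, nat_lit 4025144121, nat_lit 4114026633, nat_lit 4188915509, nat_lit 4070371657, nat_lit 3576664912, nat_lit 3399427597, nat_lit 3417942782], nat_lit 1271250, nat_lit 1271250, nat_lit 1271250, nat_lit 1271250, nat_lit 0, nat_lit 2570750, [nat_lit 1100000, nat_lit 2127500, nat_lit 1271250], [nat_lit 83,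 nat_lit 40, nat_lit 40, nat_lit 80, nat_lit 73, nat_lit 483, nat_lit 250, nat_lit 10]⟩,
 ⟨nat_lit 1581, nat_lit 1937, ⟨.ofNat (nat_lit 601908), .ofNat (nat_lit 657798), .ofNat (nat_lit 624905), .ofNat (nat_lit 680809), .ofNat (nat_lit 601263), .ofNat (nat_lit 655900), .ofNat (nat_lit 624564), .ofNat (nat_lit 679215)⟩, ⟨.ofNat (nat_lit 200000), .ofNat (nat_lit 329055), .ofNat (nat_lit 200000), .ofNat (nat_lit 352066), .ofNat (nat_lit 200000), .ofNat (nat_lit 328788), .ofNat (nat_lit 200000), .ofNat (nat_lit 352103)⟩⟩, [⟨nat_lit 22, nat_lit 100, nat_lit 69, nat_lit 96, nat_lit 10258276⟩]⟩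
noncomputable def p114_l53 : Lf2 := ⟨nat_lit 0, nat_lit 30, [nat_lit 15, nat_lit 5, nat_lit 5, nat_lit 20], false, nat_lit 80, nat_lit 120, nat_lit 0, nat_lit 352, ⟨nat_lit 231, nat_lit 769, nat_lit 0, nat_lit 6, nat_lit 264, nat_lit 769, nat_lit 97, nat_lit 0, nat_lit 0, nat_lit 0, nat_lit 0, nat_lit 0, nat_lit 43446018, nat_lit 19507874, nat_lit 4046108, nat_lit 4281095, true, false⟩,
 nat_lit 0, nat_lit 0, nat_lit 3837, nat_lit 0, nat_lit 2754, nat_lit 2233, nat_lit 293, nat_lit 0, nat_lit 0, nat_lit 163, nat_lit 0, nat_lit 0, nat_lit 0, nat_lit 0, nat_lit 0, nat_lit 192250, nat_lit 0, nat_lit 0, [(nat_lit 29, [(nat_lit 0, nat_lit 769)])],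
 ⟨p114_k14, nat_lit 0, nat_lit 0, nat_lit 122, nat_lit 0, nat_lit 0, [nat_lit 817728401, nat_lit 2277338801, nat_lit 3495216267], [], [nat_lit 22823157630, nat_lit 23098091681, nat_lit 24078493141, nat_lit 24360030946, nat_lit 23128592498, nat_lit 23391669792, nat_lit 24332183190, nat_lit 24597744263], nat_lit 0, nat_lit 0, nat_lit 0, nat_lit 0, nat_lit 0, nat_lit 0, [], [nat_lit 57, nat_lit 40, nat_lit 40, nat_lit 80, nat_lit 7, nat_lit 238, nat_lit 30, nat_lit 7]⟩, ⟨p114_k19, nat_lit 0, nat_lit 0, nat_lit 442, nat_lit 0, nat_lit 315088, [nat_lit 1082928000, nat_lit 2273502000, nat_lit 3247398000], [], [nat_lit 8098393388, nat_lit 8166892434, nat_lit 8350600112, nat_lit 8408204428, nat_lit 7593152235, nat_lit 7120113969, nat_lit 7209809143, nat_lit 7237196426], nat_lit 1271250, nat_lit 1271250, nat_lit 1271250, nat_lit 1271250, nat_lit 0, nat_lit 2486000, [nat_lit 1100000, nat_lit 2127500, nat_lit 1271250], [nat_lit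 56, nat_lit 40, nat_lit 40, nat_lit 80, nat_lit 32, nat_lit 483, nat_lit 250, nat_lit 11]⟩,
 ⟨nat_lit 1936, nat_lit 2237, ⟨.ofNat (nat_lit 625327), .ofNat (nat_lit 682352), .ofNat (nat_lit 636710), .ofNat (nat_lit 693740), .ofNat (nat_lit 624911), .ofNat (nat_lit 680809), .ofNat (nat_lit 636412), .ofNat (nat_lit 692315)⟩, ⟨.ofNat (nat_lit 200000), .ofNat (nat_lit 272096), .ofNat (nat_lit 200000), .ofNat (nat_lit 294870), .ofNat (nat_lit 200000), .ofNat (nat_lit 273166), .ofNat (nat_lit 200000), .ofNat (nat_lit 296177)⟩⟩, [⟨nat_lit 19, nat_lit 100, nat_lit 76, nat_lit 94, nat_lit 4967172⟩, ⟨nat_lit 22, nat_lit 100, nat_lit 77, nat_lit 91, nat_lit 25634792⟩]⟩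
noncomputable def p114_l54 : Lf2 := ⟨nat_lit 0, nat_lit 30, [nat_lit 15, nat_lit 5, nat_lit 5, nat_lit 20], false, nat_lit 80, nat_lit 120, nat_lit 0, nat_lit 344, ⟨nat_lit 271, nat_lit 729, nat_lit 0, nat_lit 6, nat_lit 268, nat_lit 729, nat_lit 97, nat_lit 0, nat_lit 0, nat_lit 0, nat_lit 0, nat_lit 0, nat_lit 43018154, nat_lit 19957868, nat_lit 4023978, nat_lit 4303832, true, false⟩,
 nat_lit 0, nat_lit 0, nat_lit 4001, nat_lit 0, nat_lit 2797, nat_lit 2436, nat_lit 303, nat_lit 0, nat_lit 0, nat_lit 196, nat_lit 0, nat_lit 0, nat_lit 0, nat_lit 0, nat_lit 0, nat_lit 182250, nat_lit 0, nat_lit 0, [(nat_lit 29, [(nat_lit 0, nat_lit 729)])],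
 ⟨p114_k14, nat_lit 0, nat_lit 0, nat_lit 122, nat_lit 0, nat_lit 0, [nat_lit 823984400, nat_lit 2402730801, nat_lit 3723813600], [], [nat_lit 22885493736, nat_lit 23168033331, nat_lit 24155599432, nat_lit 24419856803, nat_lit 23180763190, nat_lit 23445485707, nat_lit 24387269196, nat_lit 24648383622], nat_lit 0, nat_lit 0, nat_lit 0, nat_lit 0, nat_lit 0, nat_lit 0, [], [nat_lit 57, nat_lit 40, nat_lit 40, nat_lit 80, nat_lit 7, nat_lit 238, nat_lit 30, nat_lit 7]⟩, ⟨p114_k20, nat_lit 0, nat_lit 0, nat_lit 456, nat_lit 0, nat_lit 350989, [nat_lit 1270448000, nat_lit 2667182000, nat_lit 3809718000], [], [nat_lit 9199419557, nat_lit 9278623728, nat_lit 9480174693, nat_lit 9547358348, nat_lit 8139833562, nat_lit 8142205919, nat_lit 8249874040, nat_lit 8285763414], nat_lit 1271250, nat_lit 1271250, nat_lit 1271250, nat_lit 1271250, nat_lit 0, nat_lit 2429500, [nat_lit 1100000, nat_lit 2127500, nat_lit 1271250], [nat_lit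 56, nat_lit 40, nat_lit 40, nat_lit 80, nat_lit 32, nat_lit 483, nat_lit 250, nat_lit 11]⟩,
 ⟨nat_lit 1936, nat_lit 2237, ⟨.ofNat (nat_lit 636710), .ofNat (nat_lit 693740), .ofNat (nat_lit 648093), .ofNat (nat_lit 705125), .ofNat (nat_lit 636412), .ofNat (nat_lit 692315), .ofNat (nat_lit 647913), .ofNat (nat_lit 703818)⟩, ⟨.ofNat (nat_lit 200000), .ofNat (nat_lit 272096), .ofNat (nat_lit 200000), .ofNat (nat_lit 294870), .ofNat (nat_lit 200000), .ofNat (nat_lit 273166), .ofNat (nat_lit 200000), .ofNat (nat_lit 296177)⟩⟩, [⟨nat_lit 7, nat_lit 81, nat_lit 100, nat_lit 96, nat_lit 34825503⟩]⟩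
noncomputable def p114_l55 : Lf2 := ⟨nat_lit 0, nat_lit 30, [nat_lit 15, nat_lit 5, nat_lit 5, nat_lit 20], false, nat_lit 80, nat_lit 120, nat_lit 0, nat_lit 352, ⟨nat_lit 141, nat_lit 401, nat_lit 458, nat_lit 6, nat_lit 266, nat_lit 859, nat_lit 97, nat_lit 458, nat_lit 88817, nat_lit 288, nat_lit 136386, nat_lit 200, nat_lit 43252257, nat_lit 19696786, nat_lit 4050957, nat_lit 4293773, true, false⟩,
 nat_lit 0, nat_lit 0, nat_lit 2264, nat_lit 0, nat_lit 2730, nat_lit 1317, nat_lit 25, nat_lit 0, nat_lit 0, nat_lit 92, nat_lit 0, nat_lit 0, nat_lit 0, nat_lit 0, nat_lit 0, nat_lit 214750, nat_lit 0, nat_lit 0, [(nat_lit 29, [(nat_lit 0, nat_lit 401), (nat_lit 4, nat_lit 458)])],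
 ⟨p114_k17, nat_lit 0, nat_lit 0, nat_lit 105, nat_lit 0, nat_lit 0, [nat_lit 794492400, nat_lit 398254001, nat_lit 396720400], [], [nat_lit 23048240170, nat_lit 23347088460, nat_lit 24380984790, nat_lit 24666148860, nat_lit 23385087770, nat_lit 23664674300, nat_lit 24650872163, nat_lit 24910894835], nat_lit 0, nat_lit 0, nat_lit 0, nat_lit 0, nat_lit 0, nat_lit 0, [], [nat_lit 55, nat_lit 40, nat_lit 40, nat_lit 80, nat_lit 3, nat_lit 238, nat_lit 30, nat_lit 7]⟩, ⟨p114_k19, nat_lit 0, nat_lit 0, nat_lit 500, nat_lit 0, nat_lit 460881, [nat_lit 661008000, nat_lit 1387722000, nat_lit 1982178000], [], [nat_lit 5248373078, nat_lit 5289071384, nat_lit 5336808012, nat_lit 5391892428, nat_lit 4705752410, nat_lit 4543468872, nat_lit 4550381250, nat_lit 4561080476], nat_lit 1271250, nat_lit 1271250, nat_lit 1271250, nat_lit 1271250, nat_lit 0, nat_lit 2486000, [nat_lit 1100000, nat_lit 2127500, nat_lit 1271250], [nat_lit 56,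 nat_lit 40, nat_lit 40, nat_lit 80, nat_lit 32, nat_lit 483, nat_lit 250, nat_lit 11]⟩,
 ⟨nat_lit 1581, nat_lit 1937, ⟨.ofNat (nat_lit 624905), .ofNat (nat_lit 680809), .ofNat (nat_lit 647901), .ofNat (nat_lit 703818), .ofNat (nat_lit 624564), .ofNat (nat_lit 679215), .ofNat (nat_lit 647865), .ofNat (nat_lit 702528)⟩, ⟨.ofNat (nat_lit 200000), .ofNat (nat_lit 273166), .ofNat (nat_lit 200000), .ofNat (nat_lit 296177), .ofNat (nat_lit 200000), .ofNat (nat_lit 274152), .ofNat (nat_lit 200000), .ofNat (nat_lit 297467)⟩⟩, [⟨nat_lit 22, nat_lit 100, nat_lit 77, nat_lit 91, nat_lit 16994810⟩]⟩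
noncomputable def p114_l56 : Lf2 := ⟨nat_lit 0, nat_lit 30, [nat_lit 15, nat_lit 5, nat_lit 5, nat_lit 20], true, nat_lit 120, nat_lit 160, nat_lit 0, nat_lit 352, ⟨nat_lit 0, nat_lit 1000, nat_lit 0, nat_lit 6, nat_lit 266, nat_lit 1000, nat_lit 125, nat_lit 0, nat_lit 0, nat_lit 0, nat_lit 0, nat_lit 0, nat_lit 41836594, nat_lit 19307991, nat_lit 5855415, nat_lit 4615343, true, false⟩,
 nat_lit 0, nat_lit 0, nat_lit 0, nat_lit 553, nat_lit 3395, nat_lit 0, nat_lit 0, nat_lit 0, nat_lit 0, nat_lit 0, nat_lit 0, nat_lit 0, nat_lit 0, nat_lit 0, nat_lit 0, nat_lit 250000, nat_lit 0, nat_lit 0, [(nat_lit 29, [(nat_lit 0, nat_lit 1000)])],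
 ⟨p114_k14, nat_lit 0, nat_lit 0, nat_lit 77, nat_lit 0, nat_lit 0, [nat_lit 781600001, nat_lit 1553200001, nat_lit 2175066667], [], [nat_lit 23580247306, nat_lit 24249467364, nat_lit 25026418216, nat_lit 25711693955, nat_lit 23826466871, nat_lit 24462780186, nat_lit 25207722951, nat_lit 25796302666], nat_lit 0, nat_lit 0, nat_lit 0, nat_lit 0, nat_lit 0, nat_lit 0, [], [nat_lit 57, nat_lit 40, nat_lit 40, nat_lit 80, nat_lit 7, nat_lit 249, nat_lit 40, nat_lit 7]⟩, C1.Rw.none,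
 ⟨nat_lit 1581, nat_lit 2237, ⟨.ofNat (nat_lit 625287), .ofNat (nat_lit 682352), .ofNat (nat_lit 648016), .ofNat (nat_lit 705117), .ofNat (nat_lit 624529), .ofNat (nat_lit 679215), .ofNat (nat_lit 647799), .ofNat (nat_lit 702521)⟩, ⟨.ofNat (nat_lit 272096), .ofNat (nat_lit 329112), .ofNat (nat_lit 294870), .ofNat (nat_lit 351886), .ofNat (nat_lit 274152), .ofNat (nat_lit 328788), .ofNat (nat_lit 297467), .ofNat (nat_lit 352103)⟩⟩, []⟩
noncomputable def p114_l57 : Lf2 := ⟨nat_lit 0, nat_lit 30, [nat_lit 15, nat_lit 5, nat_lit 5, nat_lit 20], false, nat_lit 80, nat_lit 100, nat_lit 0, nat_lit 352, ⟨nat_lit 94, nat_lit 429, nat_lit 477, nat_lit 6, nat_lit 255, nat_lit 906, nat_lit 90, nat_lit 477, nat_lit 74817, nat_lit 282, nat_lit 87180, nat_lit 200, nat_lit 44554991, nat_lit 18785844, nat_lit 3659165, nat_lit 4150413, true, true⟩,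
 nat_lit 0, nat_lit 0, nat_lit 1889, nat_lit 0, nat_lit 2645, nat_lit 1000, nat_lit 0, nat_lit 0, nat_lit 0, nat_lit 65, nat_lit 0, nat_lit 0, nat_lit 0, nat_lit 0, nat_lit 0, nat_lit 226500, nat_lit 0, nat_lit 0, [(nat_lit 29, [(nat_lit 0, nat_lit 429), (nat_lit 4, nat_lit 477)])],
 ⟨p114_k21, nat_lit 0, nat_lit 0, nat_lit 110, nat_lit 0, nat_lit 0, [nat_lit 786761600, nat_lit 182660001, nat_lit 103171600], [], [nat_lit 23391314140, nat_lit 23968488920, nat_lit 24681178565, nat_lit 25217607480, nat_lit 23561156670, nat_lit 24125719280, nat_lit 24825925397, nat_lit 25350959025], nat_lit 0, nat_lit 0, nat_lit 0, nat_lit 0, nat_lit 0, nat_lit 0, [], [nat_lit 55, nat_lit 40, nat_lit 40, nat_lit 80, nat_lit 3, nat_lit 232, nat_lit 25, nat_lit 7]⟩, ⟨p114_k18, nat_lit 0, nat_lit 0, nat_lit 667, nat_lit 0, nat_lit 618355, [nat_lit 440672000, nat_lit 925148000, nat_lit 1541600000], [], [nat_lit 3664967675, nat_lit 3687276071,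 nat_lit 3741252819, nat_lit 3808460931, nat_lit 3586926728, nat_lit 3149928728, nat_lit 3091170320, nat_lit 3091821380], nat_lit 1271250, nat_lit 1271250, nat_lit 1271250, nat_lit 1271250, nat_lit 0, nat_lit 2486000, [nat_lit 1100000, nat_lit 2127500, nat_lit 1271250], [nat_lit 83, nat_lit 40, nat_lit 40, nat_lit 80, nat_lit 73, nat_lit 456, nat_lit 225, nat_lit 9]⟩,
 ⟨nat_lit 0, nat_lit 1582, ⟨.ofNat (nat_lit 601257), .ofNat (nat_lit 655899), .ofNat (nat_lit 623921), .ofNat (nat_lit 679215), .ofNat (nat_lit 599992), .ofNat (nat_lit 649998), .ofNat (nat_lit 624340), .ofNat (nat_lit 674999)⟩, ⟨.ofNat (nat_lit 200000), .ofNat (nat_lit 246834), .ofNat (nat_lit 200000), .ofNat (nat_lit 250000), .ofNat (nat_lit 200000), .ofNat (nat_lit 249999), .ofNat (nat_lit 200000), .ofNat (nat_lit 250000)⟩⟩, [⟨nat_lit 3, nat_lit 100, nat_lit 25, nat_lit 86, nat_lit 259640709⟩, ⟨nat_lit 22, nat_lit 100, nat_lit 81, nat_lit 88, nat_lit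 8907771⟩]⟩
noncomputable def p114_l58 : Lf2 := ⟨nat_lit 0, nat_lit 30, [nat_lit 15, nat_lit 5, nat_lit 5, nat_lit 20], true, nat_lit 100, nat_lit 120, nat_lit 0, nat_lit 364, ⟨nat_lit 0, nat_lit 613, nat_lit 387, nat_lit 6, nat_lit 255, nat_lit 1000, nat_lit 107, nat_lit 387, nat_lit 106667, nat_lit 295, nat_lit 87180, nat_lit 200, nat_lit 43685715, nat_lit 18574848, nat_lit 4739437, nat_lit 4362274, true, true⟩,
 nat_lit 0, nat_lit 0, nat_lit 0, nat_lit 0, nat_lit 2641, nat_lit 0, nat_lit 0, nat_lit 0, nat_lit 0, nat_lit 0, nat_lit 0, nat_lit 0, nat_lit 0, nat_lit 0, nat_lit 0, nat_lit 250000, nat_lit 0, nat_lit 0, [(nat_lit 29, [(nat_lit 0, nat_lit 613), (nat_lit 4, nat_lit 387)])],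
 ⟨p114_k21, nat_lit 0, nat_lit 0, nat_lit 104, nat_lit 0, nat_lit 0, [nat_lit 773860001, nat_lit 155337601, nat_lit 80349200], [], [nat_lit 23527800127, nat_lit 24092010865, nat_lit 24792240465, nat_lit 25316961886, nat_lit 23697986001, nat_lit 24249596553, nat_lit 24937350911, nat_lit 25450687747], nat_lit 0, nat_lit 0, nat_lit 0, nat_lit 0, nat_lit 0, nat_lit 0, [], [nat_lit 55, nat_lit 40, nat_lit 40, nat_lit 80, nat_lit 3, nat_lit 238, nat_lit 30, nat_lit 7]⟩, C1.Rw.none,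
 ⟨nat_lit 0, nat_lit 1582, ⟨.ofNat (nat_lit 601257), .ofNat (nat_lit 655899), .ofNat (nat_lit 623921), .ofNat (nat_lit 679215), .ofNat (nat_lit 599992), .ofNat (nat_lit 649998), .ofNat (nat_lit 624340), .ofNat (nat_lit 674999)⟩, ⟨.ofNat (nat_lit 246834), .ofNat (nat_lit 274152), .ofNat (nat_lit 250000), .ofNat (nat_lit 297467), .ofNat (nat_lit 249999), .ofNat (nat_lit 274999), .ofNat (nat_lit 250000), .ofNat (nat_lit 299999)⟩⟩, []⟩
noncomputable def p114_l59 : Lf2 := ⟨nat_lit 0, nat_lit 30, [nat_lit 15, nat_lit 5, nat_lit 5, nat_lit 20], true, nat_lit 120, nat_lit 160, nat_lit 0, nat_lit 364, ⟨nat_lit 0, nat_lit 670, nat_lit 330, nat_lit 6, nat_lit 255, nat_lit 1000, nat_lit 125, nat_lit 330, nat_lit 147267, nat_lit 309, nat_lit 87180, nat_lit 200, nat_lit 42734147, nat_lit 18329729, nat_lit 5936124, nat_lit 4566780, true, true⟩,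
 nat_lit 0, nat_lit 0, nat_lit 0, nat_lit 0, nat_lit 3010, nat_lit 0, nat_lit 0, nat_lit 0, nat_lit 0, nat_lit 0, nat_lit 0, nat_lit 0, nat_lit 0, nat_lit 0, nat_lit 0, nat_lit 231850, nat_lit 0, nat_lit 0, [(nat_lit 29, [(nat_lit 0, nat_lit 670), (nat_lit 3, nat_lit 330)])],
 ⟨p114_k21, nat_lit 0, nat_lit 0, nat_lit 87, nat_lit 0, nat_lit 0, [nat_lit 901720001, nat_lit 475896001, nat_lit 536228000], [], [nat_lit 24041941130, nat_lit 24637711220, nat_lit 25323559890, nat_lit 25916294680, nat_lit 24308678281, nat_lit 24864232081, nat_lit 25522576221, nat_lit 26051168880], nat_lit 0, nat_lit 0, nat_lit 0, nat_lit 0, nat_lit 0, nat_lit 0, [], [nat_lit 55, nat_lit 40, nat_lit 40, nat_lit 80, nat_lit 3, nat_lit 249, nat_lit 40, nat_lit 8]⟩, C1.Rw.none,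
 ⟨nat_lit 0, nat_lit 1582, ⟨.ofNat (nat_lit 601257), .ofNat (nat_lit 655899), .ofNat (nat_lit 623921), .ofNat (nat_lit 679215), .ofNat (nat_lit 599992), .ofNat (nat_lit 649998), .ofNat (nat_lit 624340), .ofNat (nat_lit 674999)⟩, ⟨.ofNat (nat_lit 274152), .ofNat (nat_lit 328785), .ofNat (nat_lit 297467), .ofNat (nat_lit 352101), .ofNat (nat_lit 274999), .ofNat (nat_lit 324996), .ofNat (nat_lit 299999), .ofNat (nat_lit 349997)⟩⟩, [⟨nat_lit 4, nat_lit 100, nat_lit 23, nat_lit 92, nat_lit 31009361⟩]⟩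
noncomputable def p114_l60 : Lf2 := ⟨nat_lit 0, nat_lit 30, [nat_lit 15, nat_lit 5, nat_lit 5, nat_lit 20], false, nat_lit 80, nat_lit 160, nat_lit 0, nat_lit 160, ⟨nat_lit 290, nat_lit 710, nat_lit 0, nat_lit 6, nat_lit 265, nat_lit 710, nat_lit 108, nat_lit 0, nat_lit 0, nat_lit 0, nat_lit 0, nat_lit 0, nat_lit 42779722, nat_lit 19494124, nat_lit 4726154, nat_lit 4418654, true, false⟩,
 nat_lit 0, nat_lit 0, nat_lit 3797, nat_lit 0, nat_lit 2729, nat_lit 2209, nat_lit 216, nat_lit 0, nat_lit 0, nat_lit 306, nat_lit 0, nat_lit 0, nat_lit 0, nat_lit 0, nat_lit 0, nat_lit 177500, nat_lit 0, nat_lit 0, [(nat_lit 29, [(nat_lit 0, nat_lit 710)])],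
 ⟨p114_k7, nat_lit 0, nat_lit 0, nat_lit 109, nat_lit 0, nat_lit 0, [nat_lit 826956001, nat_lit 1694440000, nat_lit 3080844000], [], [nat_lit 23508049589, nat_lit 24092865345, nat_lit 24805235874, nat_lit 25348445857, nat_lit 24158578813, nat_lit 24691939233, nat_lit 25353679539, nat_lit 25850409493], nat_lit 0, nat_lit 0, nat_lit 0, nat_lit 0, nat_lit 0, nat_lit 0, [], [nat_lit 20, nat_lit 40, nat_lit 40, nat_lit 80, nat_lit 16, nat_lit 249, nat_lit 40, nat_lit 8]⟩, ⟨p114_k8, nat_lit 0, nat_lit 0, nat_lit 602, nat_lit 0, nat_lit 636554, [nat_lit 1359520000, nat_lit 2310720000, nat_lit 4076820000], [], [nat_lit 9214302388, nat_lit 9338880532, nat_lit 9445464150, nat_lit 9559615484, nat_lit 7843724840, nat_lit 7972983024, nat_lit 8085297652, nat_lit 8197612280], nat_lit 1271250, nat_lit 1271250, nat_lit 1271250, nat_lit 1271250, nat_lit 0, nat_lit 1100001, [nat_lit 1100000, nat_lit 1785000, nat_lit 1271250], [nat_lit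 37, nat_lit 40, nat_lit 40, nat_lit 80, nat_lit 28, nat_lit 428, nat_lit 200, nat_lit 10]⟩,
 ⟨nat_lit 0, nat_lit 1582, ⟨.ofNat (nat_lit 623921), .ofNat (nat_lit 679215), .ofNat (nat_lit 646579), .ofNat (nat_lit 702515), .ofNat (nat_lit 624340), .ofNat (nat_lit 674999), .ofNat (nat_lit 648683), .ofNat (nat_lit 699984)⟩, ⟨.ofNat (nat_lit 200000), .ofNat (nat_lit 328785), .ofNat (nat_lit 200000), .ofNat (nat_lit 352101), .ofNat (nat_lit 200000), .ofNat (nat_lit 324996), .ofNat (nat_lit 200000), .ofNat (nat_lit 349997)⟩⟩, [⟨nat_lit 4, nat_lit 100, nat_lit 23, nat_lit 92, nat_lit 309845234⟩]⟩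
noncomputable def p114_l61 : Lf2 := ⟨nat_lit 0, nat_lit 30, [nat_lit 15, nat_lit 5, nat_lit 5, nat_lit 20], false, nat_lit 80, nat_lit 120, nat_lit 160, nat_lit 352, ⟨nat_lit 133, nat_lit 379, nat_lit 488, nat_lit 6, nat_lit 263, nat_lit 867, nat_lit 97, nat_lit 487, nat_lit 88817, nat_lit 288, nat_lit 110496, nat_lit 200, nat_lit 43491203, nat_lit 19431534, nat_lit 4077263, nat_lit 4282915, true, false⟩,
 nat_lit 0, nat_lit 0, nat_lit 2046, nat_lit 0, nat_lit 2867, nat_lit 1190, nat_lit 0, nat_lit 0, nat_lit 0, nat_lit 77, nat_lit 0, nat_lit 0, nat_lit 0, nat_lit 0, nat_lit 0, nat_lit 206465, nat_lit 0, nat_lit 0, [(nat_lit 29, [(nat_lit 0, nat_lit 380), (nat_lit 3, nat_lit 187), (nat_lit 4, nat_lit 300)])],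
 ⟨p114_k21, nat_lit 0, nat_lit 0, nat_lit 108, nat_lit 0, nat_lit 0, [nat_lit 864469201, nat_lit 359997201, nat_lit 349108000], [], [nat_lit 23605821174, nat_lit 23911070515, nat_lit 24928953170, nat_lit 25211918209, nat_lit 23904193801, nat_lit 24189600913, nat_lit 25160967378, nat_lit 25426153341], nat_lit 0, nat_lit 0, nat_lit 0, nat_lit 0, nat_lit 0, nat_lit 0, [], [nat_lit 55, nat_lit 40, nat_lit 40, nat_lit 80, nat_lit 3, nat_lit 238, nat_lit 30, nat_lit 7]⟩, ⟨p114_k19, nat_lit 0, nat_lit 0, nat_lit 400, nat_lit 0, nat_lit 491981, [nat_lit 623504000, nat_lit 1308986000, nat_lit 1869714000], [], [nat_lit 4001244520, nat_lit 4032645134, nat_lit 4116898758, nat_lit 4143325263, nat_lit 4383596919, nat_lit 4394640981, nat_lit 4421112078, nat_lit 4436144785], nat_lit 1271250, nat_lit 1271250, nat_lit 1271250, nat_lit 1271250, nat_lit 1100001, nat_lit 2744000, [nat_lit 1100000, nat_lit 2127500, nat_lit 1271250], [nat_lit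 56, nat_lit 40, nat_lit 40, nat_lit 80, nat_lit 32, nat_lit 483, nat_lit 250, nat_lit 10]⟩,
 ⟨nat_lit 1118, nat_lit 1582, ⟨.ofNat (nat_lit 624546), .ofNat (nat_lit 679215), .ofNat (nat_lit 636188), .ofNat (nat_lit 690873), .ofNat (nat_lit 624345), .ofNat (nat_lit 677505), .ofNat (nat_lit 636205), .ofNat (nat_lit 689381)⟩, ⟨.ofNat (nat_lit 200000), .ofNat (nat_lit 274152), .ofNat (nat_lit 200000), .ofNat (nat_lit 297467), .ofNat (nat_lit 200000), .ofNat (nat_lit 274990), .ofNat (nat_lit 200000), .ofNat (nat_lit 298741)⟩⟩, [⟨nat_lit 22, nat_lit 100, nat_lit 77, nat_lit 91, nat_lit 42242581⟩]⟩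
noncomputable def p114_l62 : Lf2 := ⟨nat_lit 0, nat_lit 30, [nat_lit 15, nat_lit 5, nat_lit 5, nat_lit 20], false, nat_lit 80, nat_lit 120, nat_lit 160, nat_lit 344, ⟨nat_lit 193, nat_lit 807, nat_lit 0, nat_lit 6, nat_lit 268, nat_lit 807, nat_lit 97, nat_lit 0, nat_lit 0, nat_lit 0, nat_lit 0, nat_lit 0, nat_lit 43051758, nat_lit 19893814, nat_lit 4054428, nat_lit 4306437, true, false⟩,
 nat_lit 0, nat_lit 0, nat_lit 2857, nat_lit 0, nat_lit 2756, nat_lit 1739, nat_lit 181, nat_lit 0, nat_lit 0, nat_lit 140, nat_lit 0, nat_lit 0, nat_lit 0, nat_lit 0, nat_lit 0, nat_lit 201750, nat_lit 0, nat_lit 0, [(nat_lit 29, [(nat_lit 0, nat_lit 807)])],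
 ⟨p114_k21, nat_lit 0, nat_lit 0, nat_lit 108, nat_lit 0, nat_lit 0, [nat_lit 811785200, nat_lit 2015538801, nat_lit 2647874800], [], [nat_lit 23418799232, nat_lit 23718862320, nat_lit 24732253360, nat_lit 25044722040, nat_lit 23736751300, nat_lit 24017442466, nat_lit 24984974602, nat_lit 25251694666], nat_lit 0, nat_lit 0, nat_lit 0, nat_lit 0, nat_lit 0, nat_lit 0, [], [nat_lit 55, nat_lit 40, nat_lit 40, nat_lit 80, nat_lit 3, nat_lit 238, nat_lit 30, nat_lit 7]⟩, ⟨p114_k20, nat_lit 0, nat_lit 0, nat_lit 408, nat_lit 0, nat_lit 512083, [nat_lit 904784000, nat_lit 1899506000, nat_lit 2713194000], [], [nat_lit 5087870683, nat_lit 5133459200, nat_lit 5248443254, nat_lit 5286771272, nat_lit 5756013752, nat_lit 5787612047, nat_lit 5864196193, nat_lit 5896652830], nat_lit 1271250, nat_lit 1271250, nat_lit 1271250, nat_lit 1271250, nat_lit 1100001, nat_lit 2675500, [nat_lit 1100000, nat_lit 2127500, nat_lit 1271250], [nat_lit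 56, nat_lit 40, nat_lit 40, nat_lit 80, nat_lit 32, nat_lit 483, nat_lit 250, nat_lit 10]⟩,
 ⟨nat_lit 1118, nat_lit 1582, ⟨.ofNat (nat_lit 636188), .ofNat (nat_lit 690873), .ofNat (nat_lit 647829), .ofNat (nat_lit 702528), .ofNat (nat_lit 636205), .ofNat (nat_lit 689381), .ofNat (nat_lit 648063), .ofNat (nat_lit 701254)⟩, ⟨.ofNat (nat_lit 200000), .ofNat (nat_lit 274152), .ofNat (nat_lit 200000), .ofNat (nat_lit 297467), .ofNat (nat_lit 200000), .ofNat (nat_lit 274990), .ofNat (nat_lit 200000), .ofNat (nat_lit 298741)⟩⟩, [⟨nat_lit 19, nat_lit 100, nat_lit 81, nat_lit 96, nat_lit 63358644⟩]⟩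
noncomputable def p114_l63 : Lf2 := ⟨nat_lit 0, nat_lit 30, [nat_lit 15, nat_lit 5, nat_lit 5, nat_lit 20], false, nat_lit 80, nat_lit 120, nat_lit 160, nat_lit 352, ⟨nat_lit 127, nat_lit 873, nat_lit 0, nat_lit 6, nat_lit 263, nat_lit 873, nat_lit 97, nat_lit 0, nat_lit 0, nat_lit 0, nat_lit 0, nat_lit 0, nat_lit 43508053, nat_lit 19403591, nat_lit 4088356, nat_lit 4283503, true, false⟩,
 nat_lit 0, nat_lit 0, nat_lit 1943, nat_lit 0, nat_lit 2726, nat_lit 1131, nat_lit 140, nat_lit 0, nat_lit 0, nat_lit 73, nat_lit 0, nat_lit 0, nat_lit 0, nat_lit 0, nat_lit 0, nat_lit 218250, nat_lit 0, nat_lit 0, [(nat_lit 29, [(nat_lit 0, nat_lit 873)])],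
 ⟨p114_k22, nat_lit 0, nat_lit 0, nat_lit 109, nat_lit 0, nat_lit 0, [nat_lit 801462800, nat_lit 1796973201, nat_lit 2353277200], [], [nat_lit 23744600870, nat_lit 23923797709, nat_lit 25033903202, nat_lit 25203220145, nat_lit 24052516386, nat_lit 24220166338, nat_lit 25278884137, nat_lit 25434807289], nat_lit 0, nat_lit 0, nat_lit 0, nat_lit 0, nat_lit 0, nat_lit 0, [], [nat_lit 55, nat_lit 40, nat_lit 40, nat_lit 80, nat_lit 3, nat_lit 238, nat_lit 30, nat_lit 7]⟩, ⟨p114_k19, nat_lit 0, nat_lit 0, nat_lit 423, nat_lit 0, nat_lit 546507, [nat_lit 595376000, nat_lit 1249934000, nat_lit 1785366000], [], [nat_lit 3838162214, nat_lit 3868136547, nat_lit 3948597224, nat_lit 3973840396, nat_lit 4203898626, nat_lit 4214509995, nat_lit 4240007733, nat_lit 4248951449], nat_lit 1271250, nat_lit 1271250, nat_lit 1271250, nat_lit 1271250, nat_lit 1100001, nat_lit 2744000, [nat_lit 1100000, nat_lit 2127500, nat_lit 1271250], [nat_lit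 56, nat_lit 40, nat_lit 40, nat_lit 80, nat_lit 32, nat_lit 483, nat_lit 250, nat_lit 10]⟩,
 ⟨nat_lit 707, nat_lit 1119, ⟨.ofNat (nat_lit 624340), .ofNat (nat_lit 677505), .ofNat (nat_lit 636196), .ofNat (nat_lit 689381), .ofNat (nat_lit 624388), .ofNat (nat_lit 676323), .ofNat (nat_lit 636457), .ofNat (nat_lit 688411)⟩, ⟨.ofNat (nat_lit 200000), .ofNat (nat_lit 274990), .ofNat (nat_lit 200000), .ofNat (nat_lit 298741), .ofNat (nat_lit 200000), .ofNat (nat_lit 275321), .ofNat (nat_lit 200000), .ofNat (nat_lit 299497)⟩⟩, [⟨nat_lit 22, nat_lit 100, nat_lit 77, nat_lit 91, nat_lit 40125411⟩]⟩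
noncomputable def p114_l64 : Lf2 := ⟨nat_lit 0, nat_lit 30, [nat_lit 15, nat_lit 5, nat_lit 5, nat_lit 20], true, nat_lit 80, nat_lit 120, nat_lit 160, nat_lit 352, ⟨nat_lit 0, nat_lit 1000, nat_lit 0, nat_lit 6, nat_lit 262, nat_lit 1000, nat_lit 97, nat_lit 0, nat_lit 0, nat_lit 0, nat_lit 0, nat_lit 0, nat_lit 43522775, nat_lit 19384060, nat_lit 4093165, nat_lit 4283289, true, false⟩,
 nat_lit 0, nat_lit 0, nat_lit 0, nat_lit 0, nat_lit 2767, nat_lit 0, nat_lit 33, nat_lit 0, nat_lit 0, nat_lit 0, nat_lit 0, nat_lit 0, nat_lit 0, nat_lit 0, nat_lit 0, nat_lit 250000, nat_lit 0, nat_lit 0, [(nat_lit 29, [(nat_lit 0, nat_lit 1000)])],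
 ⟨p114_k23, nat_lit 0, nat_lit 0, nat_lit 90, nat_lit 0, nat_lit 0, [nat_lit 781600001, nat_lit 1376400000], [], [nat_lit 23913998948, nat_lit 24041582964, nat_lit 25267658455, nat_lit 25402814816, nat_lit 24246242778, nat_lit 24362674340, nat_lit 25517784032, nat_lit 25629953004], nat_lit 0, nat_lit 0, nat_lit 0, nat_lit 0, nat_lit 0, nat_lit 0, [], [nat_lit 86, nat_lit 40, nat_lit 40, nat_lit 80, nat_lit 87, nat_lit 238, nat_lit 30, nat_lit 9]⟩, C1.Rw.none,
 ⟨nat_lit 0, nat_lit 708, ⟨.ofNat (nat_lit 624132), .ofNat (nat_lit 676323), .ofNat (nat_lit 636073), .ofNat (nat_lit 688411), .ofNat (nat_lit 624705), .ofNat (nat_lit 674999), .ofNat (nat_lit 637057), .ofNat (nat_lit 687499)⟩, ⟨.ofNat (nat_lit 200000), .ofNat (nat_lit 275321), .ofNat (nat_lit 200000), .ofNat (nat_lit 299497), .ofNat (nat_lit 200000), .ofNat (nat_lit 274999), .ofNat (nat_lit 200000), .ofNat (nat_lit 299999)⟩⟩, [⟨nat_lit 3, nat_lit 100, nat_lit 16,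 nat_lit 91, nat_lit 562229386⟩]⟩
noncomputable def p114_l65 : Lf2 := ⟨nat_lit 0, nat_lit 30, [nat_lit 15, nat_lit 5, nat_lit 5, nat_lit 20], false, nat_lit 80, nat_lit 120, nat_lit 160, nat_lit 344, ⟨nat_lit 197, nat_lit 803, nat_lit 0, nat_lit 6, nat_lit 267, nat_lit 803, nat_lit 97, nat_lit 0, nat_lit 0, nat_lit 0, nat_lit 0, nat_lit 0, nat_lit 43060661, nat_lit 19874271, nat_lit 4065068, nat_lit 4307508, true, false⟩,
 nat_lit 0, nat_lit 0, nat_lit 2722, nat_lit 0, nat_lit 2750, nat_lit 1657, nat_lit 158, nat_lit 0, nat_lit 0, nat_lit 117, nat_lit 0, nat_lit 0, nat_lit 0, nat_lit 0, nat_lit 0, nat_lit 200750, nat_lit 0, nat_lit 0, [(nat_lit 29, [(nat_lit 0, nat_lit 803)])],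
 ⟨p114_k22, nat_lit 0, nat_lit 0, nat_lit 109, nat_lit 0, nat_lit 0, [nat_lit 812410801, nat_lit 2028785200, nat_lit 2665729200], [], [nat_lit 23778815200, nat_lit 23958684851, nat_lit 25070082700, nat_lit 25240079700, nat_lit 24081952501, nat_lit 24250214252, nat_lit 25310053814, nat_lit 25466519676], nat_lit 0, nat_lit 0, nat_lit 0, nat_lit 0, nat_lit 0, nat_lit 0, [], [nat_lit 55, nat_lit 40, nat_lit 40, nat_lit 80, nat_lit 3, nat_lit 238, nat_lit 30, nat_lit 7]⟩, ⟨p114_k20, nat_lit 0, nat_lit 0, nat_lit 428, nat_lit 0, nat_lit 561649, [nat_lit 923536000, nat_lit 1938874000, nat_lit 2769426000], [], [nat_lit 5858470788, nat_lit 5904788483, nat_lit 6022744535, nat_lit 6062063219, nat_lit 6357380198, nat_lit 6376410178, nat_lit 6419122452, nat_lit 6436699039], nat_lit 1271250, nat_lit 1271250, nat_lit 1271250, nat_lit 1271250, nat_lit 1100001, nat_lit 2675500, [nat_lit 1100000, nat_lit 2127500, nat_lit 1271250], [nat_lit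 56, nat_lit 40, nat_lit 40, nat_lit 80, nat_lit 32, nat_lit 483, nat_lit 250, nat_lit 10]⟩,
 ⟨nat_lit 707, nat_lit 1119, ⟨.ofNat (nat_lit 636196), .ofNat (nat_lit 689381), .ofNat (nat_lit 648053), .ofNat (nat_lit 701256), .ofNat (nat_lit 636457), .ofNat (nat_lit 688411), .ofNat (nat_lit 648526), .ofNat (nat_lit 700499)⟩, ⟨.ofNat (nat_lit 200000), .ofNat (nat_lit 274990), .ofNat (nat_lit 200000), .ofNat (nat_lit 298741), .ofNat (nat_lit 200000), .ofNat (nat_lit 275321), .ofNat (nat_lit 200000), .ofNat (nat_lit 299497)⟩⟩, [⟨nat_lit 19, nat_lit 100, nat_lit 81, nat_lit 96, nat_lit 57835948⟩]⟩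
noncomputable def p114_l66 : Lf2 := ⟨nat_lit 0, nat_lit 30, [nat_lit 15, nat_lit 5, nat_lit 5, nat_lit 20], true, nat_lit 80, nat_lit 120, nat_lit 160, nat_lit 344, ⟨nat_lit 0, nat_lit 1000, nat_lit 0, nat_lit 6, nat_lit 267, nat_lit 1000, nat_lit 97, nat_lit 0, nat_lit 0, nat_lit 0, nat_lit 0, nat_lit 0, nat_lit 43066119, nat_lit 19864494, nat_lit 4069387, nat_lit 4307831, true, false⟩,
 nat_lit 0, nat_lit 0, nat_lit 0, nat_lit 0, nat_lit 2767, nat_lit 0, nat_lit 33, nat_lit 0, nat_lit 0, nat_lit 0, nat_lit 0, nat_lit 0, nat_lit 0, nat_lit 0, nat_lit 0, nat_lit 250000, nat_lit 0, nat_lit 0, [(nat_lit 29, [(nat_lit 0, nat_lit 1000)])],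
 ⟨p114_k23, nat_lit 0, nat_lit 0, nat_lit 90, nat_lit 0, nat_lit 0, [nat_lit 781600001, nat_lit 1376400000], [], [nat_lit 23913998948, nat_lit 24041582964, nat_lit 25267658455, nat_lit 25402814816, nat_lit 24246242778, nat_lit 24362674340, nat_lit 25517784032, nat_lit 25629953004], nat_lit 0, nat_lit 0, nat_lit 0, nat_lit 0, nat_lit 0, nat_lit 0, [], [nat_lit 86, nat_lit 40, nat_lit 40, nat_lit 80, nat_lit 87, nat_lit 238, nat_lit 30, nat_lit 9]⟩, C1.Rw.none,
 ⟨nat_lit 0, nat_lit 708, ⟨.ofNat (nat_lit 636073), .ofNat (nat_lit 688411), .ofNat (nat_lit 648014), .ofNat (nat_lit 700499), .ofNat (nat_lit 637057), .ofNat (nat_lit 687499), .ofNat (nat_lit 649410), .ofNat (nat_lit 699998)⟩, ⟨.ofNat (nat_lit 200000), .ofNat (nat_lit 275321), .ofNat (nat_lit 200000), .ofNat (nat_lit 299497), .ofNat (nat_lit 200000), .ofNat (nat_lit 274999), .ofNat (nat_lit 200000), .ofNat (nat_lit 299999)⟩⟩, [⟨nat_lit 3, nat_lit 100, nat_lit 16,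 nat_lit 91, nat_lit 557751192⟩]⟩
noncomputable def p114_l67 : Lf2 := ⟨nat_lit 0, nat_lit 30, [nat_lit 15, nat_lit 5, nat_lit 5, nat_lit 20], true, nat_lit 120, nat_lit 160, nat_lit 160, nat_lit 352, ⟨nat_lit 0, nat_lit 1000, nat_lit 0, nat_lit 6, nat_lit 265, nat_lit 1000, nat_lit 125, nat_lit 0, nat_lit 0, nat_lit 0, nat_lit 0, nat_lit 0, nat_lit 41863455, nat_lit 19258159, nat_lit 5878386, nat_lit 4616278, true, false⟩,
 nat_lit 0, nat_lit 0, nat_lit 0, nat_lit 0, nat_lit 3234, nat_lit 0, nat_lit 0, nat_lit 0, nat_lit 0, nat_lit 0, nat_lit 0, nat_lit 0, nat_lit 0, nat_lit 0, nat_lit 0, nat_lit 250000, nat_lit 0, nat_lit 0, [(nat_lit 29, [(nat_lit 0, nat_lit 1000)])],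
 ⟨p114_k21, nat_lit 0, nat_lit 0, nat_lit 80, nat_lit 0, nat_lit 0, [nat_lit 781600001, nat_lit 1376400001, nat_lit 1786400000], [], [nat_lit 24096716336, nat_lit 24423633101, nat_lit 25513707586, nat_lit 25864394349, nat_lit 24338594503, nat_lit 24649594952, nat_lit 25658878919, nat_lit 25965888388], nat_lit 0, nat_lit 0, nat_lit 0, nat_lit 0, nat_lit 0, nat_lit 0, [], [nat_lit 55, nat_lit 40, nat_lit 40, nat_lit 80, nat_lit 3, nat_lit 249, nat_lit 40, nat_lit 8]⟩, C1.Rw.none,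
 ⟨nat_lit 1118, nat_lit 1582, ⟨.ofNat (nat_lit 624546), .ofNat (nat_lit 679215), .ofNat (nat_lit 647829), .ofNat (nat_lit 702528), .ofNat (nat_lit 624345), .ofNat (nat_lit 677505), .ofNat (nat_lit 648063), .ofNat (nat_lit 701254)⟩, ⟨.ofNat (nat_lit 274152), .ofNat (nat_lit 328788), .ofNat (nat_lit 297467), .ofNat (nat_lit 352103), .ofNat (nat_lit 274990), .ofNat (nat_lit 328117), .ofNat (nat_lit 298741), .ofNat (nat_lit 351868)⟩⟩, []⟩
noncomputable def p114_l68 : Lf2 := ⟨nat_lit 0, nat_lit 30, [nat_lit 15, nat_lit 5, nat_lit 5, nat_lit 20], false, nat_lit 120, nat_lit 160, nat_lit 160, nat_lit 352, ⟨nat_lit 149, nat_lit 851, nat_lit 0, nat_lit 6, nat_lit 261, nat_lit 851, nat_lit 125, nat_lit 0, nat_lit 0, nat_lit 0, nat_lit 0, nat_lit 0, nat_lit 42217814, nat_lit 18883476, nat_lit 5898710, nat_lit 4596411, true, false⟩,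
 nat_lit 0, nat_lit 0, nat_lit 2288, nat_lit 0, nat_lit 2777, nat_lit 1331, nat_lit 142, nat_lit 0, nat_lit 0, nat_lit 86, nat_lit 0, nat_lit 0, nat_lit 0, nat_lit 0, nat_lit 0, nat_lit 212750, nat_lit 0, nat_lit 0, [(nat_lit 29, [(nat_lit 0, nat_lit 851)])],
 ⟨p114_k22, nat_lit 0, nat_lit 0, nat_lit 87, nat_lit 0, nat_lit 0, [nat_lit 804903600, nat_lit 1869828400, nat_lit 2451476400], [], [nat_lit 24094536198, nat_lit 24382249744, nat_lit 25337688606, nat_lit 25605503436, nat_lit 24394808436, nat_lit 24663384166, nat_lit 25574589945, nat_lit 25824635546], nat_lit 0, nat_lit 0, nat_lit 0, nat_lit 0, nat_lit 0, nat_lit 0, [], [nat_lit 55, nat_lit 40, nat_lit 40, nat_lit 80, nat_lit 3, nat_lit 249, nat_lit 40, nat_lit 8]⟩, ⟨p114_k19, nat_lit 0, nat_lit 0, nat_lit 428, nat_lit 0, nat_lit 558448, [nat_lit 698512000, nat_lit 1466458000, nat_lit 2094642000], [], [nat_lit 4490447354, nat_lit 4508034449, nat_lit 4620014176,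 nat_lit 4634818787, nat_lit 4919053992, nat_lit 4925253629, nat_lit 4961198498, nat_lit 4966019975], nat_lit 1271250, nat_lit 1271250, nat_lit 1271250, nat_lit 1271250, nat_lit 1100001, nat_lit 2744000, [nat_lit 1100000, nat_lit 2127500, nat_lit 1271250], [nat_lit 56, nat_lit 40, nat_lit 40, nat_lit 80, nat_lit 32, nat_lit 456, nat_lit 225, nat_lit 10]⟩,
 ⟨nat_lit 0, nat_lit 1119, ⟨.ofNat (nat_lit 623914), .ofNat (nat_lit 677505), .ofNat (nat_lit 629735), .ofNat (nat_lit 683443), .ofNat (nat_lit 624534), .ofNat (nat_lit 674999), .ofNat (nat_lit 630667), .ofNat (nat_lit 681249)⟩, ⟨.ofNat (nat_lit 274990), .ofNat (nat_lit 328114), .ofNat (nat_lit 298741), .ofNat (nat_lit 351866), .ofNat (nat_lit 274999), .ofNat (nat_lit 324996), .ofNat (nat_lit 299999), .ofNat (nat_lit 349997)⟩⟩, [⟨nat_lit 4, nat_lit 100, nat_lit 17, nat_lit 94, nat_lit 447310441⟩, ⟨nat_lit 7, nat_lit 74, nat_lit 100, nat_lit 94, nat_lit 45845911⟩]⟩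
noncomputable def p114_l69 : Lf2 := ⟨nat_lit 0, nat_lit 30, [nat_lit 15, nat_lit 5, nat_lit 5, nat_lit 20], false, nat_lit 120, nat_lit 160, nat_lit 160, nat_lit 348, ⟨nat_lit 168, nat_lit 832, nat_lit 0, nat_lit 6, nat_lit 264, nat_lit 832, nat_lit 125, nat_lit 0, nat_lit 0, nat_lit 0, nat_lit 0, nat_lit 0, nat_lit 42005749, nat_lit 19113078, nat_lit 5881173, nat_lit 4607803, true, false⟩,
 nat_lit 0, nat_lit 0, nat_lit 2453, nat_lit 0, nat_lit 2747, nat_lit 1460, nat_lit 150, nat_lit 0, nat_lit 0, nat_lit 99, nat_lit 0, nat_lit 0, nat_lit 0, nat_lit 0, nat_lit 0, nat_lit 208000, nat_lit 0, nat_lit 0, [(nat_lit 29, [(nat_lit 0, nat_lit 832)])],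
 ⟨p114_k22, nat_lit 0, nat_lit 0, nat_lit 87, nat_lit 0, nat_lit 0, [nat_lit 807875201, nat_lit 1932748801, nat_lit 2536284800], [], [nat_lit 24073753143, nat_lit 24354061935, nat_lit 25301637761, nat_lit 25567438438, nat_lit 24383009897, nat_lit 24650400927, nat_lit 25560918896, nat_lit 25809914107], nat_lit 0, nat_lit 0, nat_lit 0, nat_lit 0, nat_lit 0, nat_lit 0, [], [nat_lit 55, nat_lit 40, nat_lit 40, nat_lit 80, nat_lit 3, nat_lit 249, nat_lit 40, nat_lit 8]⟩, ⟨p114_k24, nat_lit 0, nat_lit 0, nat_lit 430, nat_lit 0, nat_lit 563467, [nat_lit 787584000, nat_lit 1653456000, nat_lit 2361744000], [], [nat_lit 5015070217, nat_lit 5034862759, nat_lit 5158079393, nat_lit 5174805703, nat_lit 5468190720, nat_lit 5475731931, nat_lit 5518139020, nat_lit 5527606323], nat_lit 1271250, nat_lit 1271250, nat_lit 1271250, nat_lit 1271250, nat_lit 1100001, nat_lit 2709750, [nat_lit 1100000, nat_lit 2127500, nat_lit 1271250], [nat_lit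 56, nat_lit 40, nat_lit 40, nat_lit 80, nat_lit 32, nat_lit 456, nat_lit 225, nat_lit 10]⟩,
 ⟨nat_lit 0, nat_lit 1119, ⟨.ofNat (nat_lit 629735), .ofNat (nat_lit 683443), .ofNat (nat_lit 635556), .ofNat (nat_lit 689381), .ofNat (nat_lit 630667), .ofNat (nat_lit 681249), .ofNat (nat_lit 636801), .ofNat (nat_lit 687499)⟩, ⟨.ofNat (nat_lit 274990), .ofNat (nat_lit 328114), .ofNat (nat_lit 298741), .ofNat (nat_lit 351866), .ofNat (nat_lit 274999), .ofNat (nat_lit 324996), .ofNat (nat_lit 299999), .ofNat (nat_lit 349997)⟩⟩, [⟨nat_lit 4, nat_lit 100, nat_lit 17, nat_lit 94, nat_lit 476018794⟩, ⟨nat_lit 19, nat_lit 100, nat_lit 77, nat_lit 95, nat_lit 50648252⟩]⟩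
noncomputable def p114_l70 : Lf2 := ⟨nat_lit 0, nat_lit 30, [nat_lit 15, nat_lit 5, nat_lit 5, nat_lit 20], false, nat_lit 120, nat_lit 160, nat_lit 160, nat_lit 344, ⟨nat_lit 171, nat_lit 829, nat_lit 0, nat_lit 6, nat_lit 267, nat_lit 829, nat_lit 125, nat_lit 0, nat_lit 0, nat_lit 0, nat_lit 0, nat_lit 0, nat_lit 41688519, nat_lit 19456927, nat_lit 5854554, nat_lit 4624217, true, false⟩,
 nat_lit 0, nat_lit 0, nat_lit 2524, nat_lit 0, nat_lit 2748, nat_lit 1537, nat_lit 151, nat_lit 0, nat_lit 0, nat_lit 123, nat_lit 0, nat_lit 0, nat_lit 0, nat_lit 0, nat_lit 0, nat_lit 207250, nat_lit 0, nat_lit 0, [(nat_lit 29, [(nat_lit 0, nat_lit 829)])],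
 ⟨p114_k22, nat_lit 0, nat_lit 0, nat_lit 87, nat_lit 0, nat_lit 0, [nat_lit 808344401, nat_lit 1942683601, nat_lit 2549675600], [], [nat_lit 24071493554, nat_lit 24351844832, nat_lit 25299450403, nat_lit 25566821264, nat_lit 24380575640, nat_lit 24648006160, nat_lit 25558547056, nat_lit 25807577280], nat_lit 0, nat_lit 0, nat_lit 0, nat_lit 0, nat_lit 0, nat_lit 0, [], [nat_lit 55, nat_lit 40, nat_lit 40, nat_lit 80, nat_lit 3, nat_lit 249, nat_lit 40, nat_lit 8]⟩, ⟨p114_k20, nat_lit 0, nat_lit 0, nat_lit 442, nat_lit 0, nat_lit 594877, [nat_lit 801648000, nat_lit 1682982000, nat_lit 2403918000], [], [nat_lit 4532972150, nat_lit 4573357157, nat_lit 4675253039, nat_lit 4709218333, nat_lit 5114925430, nat_lit 5142939706, nat_lit 5210880341, nat_lit 5235154144], nat_lit 1271250, nat_lit 1271250, nat_lit 1271250, nat_lit 1271250, nat_lit 1100001, nat_lit 2675500, [nat_lit 1100000, nat_lit 2127500, nat_lit 1271250], [nat_lit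 56, nat_lit 40, nat_lit 40, nat_lit 80, nat_lit 32, nat_lit 483, nat_lit 250, nat_lit 10]⟩,
 ⟨nat_lit 0, nat_lit 1119, ⟨.ofNat (nat_lit 635556), .ofNat (nat_lit 689381), .ofNat (nat_lit 647199), .ofNat (nat_lit 701253), .ofNat (nat_lit 636801), .ofNat (nat_lit 687499), .ofNat (nat_lit 649068), .ofNat (nat_lit 699996)⟩, ⟨.ofNat (nat_lit 274990), .ofNat (nat_lit 328114), .ofNat (nat_lit 298741), .ofNat (nat_lit 351866), .ofNat (nat_lit 274999), .ofNat (nat_lit 324996), .ofNat (nat_lit 299999), .ofNat (nat_lit 349997)⟩⟩, [⟨nat_lit 16, nat_lit 17, nat_lit 100, nat_lit 94, nat_lit 474378555⟩, ⟨nat_lit 7, nat_lit 81, nat_lit 100, nat_lit 96, nat_lit 55979119⟩]⟩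
noncomputable def b_V_900_600_20_42 : St := ⟨true, nat_lit 0, nat_lit 1, nat_lit 1, nat_lit 120, nat_lit 380, nat_lit 400, nat_lit 240, nat_lit 280, nat_lit 240, nat_lit 280, nat_lit 100, nat_lit 120, nat_lit 80, nat_lit 160, nat_lit 0, nat_lit 364, nat_lit 100, nat_lit 120, nat_lit 0, nat_lit 0, nat_lit 0, nat_lit 0⟩
theorem d_V_900_600_20_42 (h : EB TB.env) : Dead b_V_900_600_20_42 := chkB_sound0 h (T :=
(.spl (nat_lit 0) (nat_lit 390)
(.spl (nat_lit 1) (nat_lit 260)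
(.spl (nat_lit 0) (nat_lit 385)
(.spl (nat_lit 1) (nat_lit 250)
(.leaf p114_l49)
(.trX (nat_lit 19) (nat_lit 100) (nat_lit 64) (nat_lit 95) (nat_lit 360) (.spl (nat_lit 1) (nat_lit 255)
(.leaf p114_l50)
(.trX (nat_lit 19) (nat_lit 100) (nat_lit 66) (nat_lit 95) (nat_lit 356) (.leaf p114_l51)))))
(.leaf p114_l52))
(.trX (nat_lit 19) (nat_lit 100) (nat_lit 69) (nat_lit 96) (nat_lit 352) (.spl (nat_lit 4) (nat_lit 120)
(.spl (nat_lit 0) (nat_lit 385)
(.spl (nat_lit 1) (nat_lit 270)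
(.leaf p114_l53)
(.trX (nat_lit 19) (nat_lit 100) (nat_lit 74) (nat_lit 98) (nat_lit 344) (.leaf p114_l54)))
(.leaf p114_l55))
(.leaf p114_l56))))
(.spl (nat_lit 1) (nat_lit 260)
(.spl (nat_lit 4) (nat_lit 120)
(.spl (nat_lit 4) (nat_lit 100)
(.trX (nat_lit 22) (nat_lit 100) (nat_lit 68) (nat_lit 88) (nat_lit 352) (.leaf p114_l57))
(.leaf p114_l58))
(.leaf p114_l59))
(.trX (nat_lit 19) (nat_lit 100) (nat_lit 69) (nat_lit 96) (nat_lit 352) (.spl (nat_lit 5) (nat_lit 160)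
(.leaf p114_l60)
(.spl (nat_lit 4) (nat_lit 120)
(.spl (nat_lit 0) (nat_lit 395)
(.spl (nat_lit 1) (nat_lit 270)
(.leaf p114_l61)
(.trX (nat_lit 19) (nat_lit 100) (nat_lit 74) (nat_lit 98) (nat_lit 344) (.leaf p114_l62)))
(.spl (nat_lit 1) (nat_lit 270)
(.spl (nat_lit 0) (nat_lit 398)
(.leaf p114_l63)
(.leaf p114_l64))
(.trX (nat_lit 19) (nat_lit 100) (nat_lit 74) (nat_lit 98) (nat_lit 344) (.spl (nat_lit 0) (nat_lit 398)
(.leaf p114_l65)
(.leaf p114_l66)))))
(.spl (nat_lit 0) (nat_lit 395)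
(.leaf p114_l67)
(.spl (nat_lit 1) (nat_lit 270)
(.spl (nat_lit 1) (nat_lit 265)
(.leaf p114_l68)
(.trX (nat_lit 19) (nat_lit 100) (nat_lit 71) (nat_lit 97) (nat_lit 348) (.leaf p114_l69)))
(.trX (nat_lit 19) (nat_lit 100) (nat_lit 74) (nat_lit 98) (nat_lit 344) (.leaf p114_l70)))))))))) (by decide +kernel)
noncomputable def p114_l71 : Lf2 := ⟨nat_lit 0, nat_lit 25, [nat_lit 44, nat_lit 5, nat_lit 5, nat_lit 20], false, nat_lit 80, nat_lit 120, nat_lit 0, nat_lit 336, ⟨nat_lit 88, nat_lit 912, nat_lit 0, nat_lit 7, nat_lit 279, nat_lit 912, nat_lit 92, nat_lit 0, nat_lit 0, nat_lit 0, nat_lit 0, nat_lit 0, nat_lit 42255901, nat_lit 21074310, nat_lit 3669789, nat_lit 4290769, true, true⟩,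
 nat_lit 0, nat_lit 0, nat_lit 1444, nat_lit 0, nat_lit 2937, nat_lit 764, nat_lit 0, nat_lit 0, nat_lit 0, nat_lit 63, nat_lit 0, nat_lit 0, nat_lit 0, nat_lit 0, nat_lit 0, nat_lit 361500, nat_lit 0, nat_lit 0, [(nat_lit 29, [(nat_lit 0, nat_lit 22), (nat_lit 1, nat_lit 890)])],
 ⟨p114_k0, nat_lit 0, nat_lit 0, nat_lit 112, nat_lit 0, nat_lit 0, [nat_lit 721315200, nat_lit 607308000, nat_lit 672960800], [], [nat_lit 24685313212, nat_lit 25257041670, nat_lit 26241624334, nat_lit 26767770598, nat_lit 24923017438, nat_lit 25469830943, nat_lit 26415800621, nat_lit 26919488336], nat_lit 0, nat_lit 0, nat_lit 0, nat_lit 0, nat_lit 0, nat_lit 0, [], [nat_lit 20, nat_lit 40, nat_lit 40, nat_lit 80, nat_lit 16, nat_lit 238, nat_lit 30, nat_lit 7]⟩, ⟨p114_k1, nat_lit 0, nat_lit 0, nat_lit 724, nat_lit 0, nat_lit 876385, [nat_lit 412544000, nat_lit 701184000, nat_lit 1237104000], [], [nat_lit 3576415976, nat_lit 3603496824, nat_lit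 3674472712, nat_lit 3695059200, nat_lit 2970935791, nat_lit 2974274557, nat_lit 3009801202, nat_lit 3009427565], nat_lit 1271250, nat_lit 1271250, nat_lit 1271250, nat_lit 1271250, nat_lit 0, nat_lit 2373000, [nat_lit 1100000, nat_lit 1785000, nat_lit 1271250], [nat_lit 37, nat_lit 40, nat_lit 40, nat_lit 80, nat_lit 28, nat_lit 483, nat_lit 250, nat_lit 11]⟩,
 ⟨nat_lit 1581, nat_lit 2237, ⟨.ofNat (nat_lit 659578), .ofNat (nat_lit 716594), .ofNat (nat_lit 682352), .ofNat (nat_lit 739368), .ofNat (nat_lit 655900), .ofNat (nat_lit 710536), .ofNat (nat_lit 679215), .ofNat (nat_lit 733851)⟩, ⟨.ofNat (nat_lit 192306), .ofNat (nat_lit 249322), .ofNat (nat_lit 200000), .ofNat (nat_lit 272096), .ofNat (nat_lit 196201), .ofNat (nat_lit 250837), .ofNat (nat_lit 200000), .ofNat (nat_lit 274152)⟩⟩, [⟨nat_lit 13, nat_lit 39, nat_lit 83, nat_lit 100, nat_lit 92586429⟩, ⟨nat_lit 22, nat_lit 100, nat_lit 100, nat_lit 100, nat_lit 6512887⟩]⟩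
noncomputable def p114_l72 : Lf2 := ⟨nat_lit 0, nat_lit 25, [nat_lit 44, nat_lit 5, nat_lit 5, nat_lit 20], true, nat_lit 120, nat_lit 160, nat_lit 0, nat_lit 352, ⟨nat_lit 0, nat_lit 1000, nat_lit 0, nat_lit 7, nat_lit 277, nat_lit 1000, nat_lit 116, nat_lit 0, nat_lit 0, nat_lit 0, nat_lit 0, nat_lit 0, nat_lit 41346036, nat_lit 20484719, nat_lit 5169245, nat_lit 4560688, true, true⟩,
 nat_lit 0, nat_lit 0, nat_lit 0, nat_lit 3319, nat_lit 3798, nat_lit 0, nat_lit 0, nat_lit 0, nat_lit 0, nat_lit 0, nat_lit 0, nat_lit 0, nat_lit 0, nat_lit 0, nat_lit 0, nat_lit 250000, nat_lit 0, nat_lit 0, [(nat_lit 29, [(nat_lit 0, nat_lit 1000)])],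
 ⟨p114_k0, nat_lit 0, nat_lit 0, nat_lit 100, nat_lit 0, nat_lit 0, [nat_lit 781600001, nat_lit 1046000001, nat_lit 1786400000], [], [nat_lit 25857346252, nat_lit 26470771022, nat_lit 27466156934, nat_lit 28091560227, nat_lit 25935161056, nat_lit 26518962064, nat_lit 27469468632, nat_lit 28004764308], nat_lit 0, nat_lit 0, nat_lit 0, nat_lit 0, nat_lit 0, nat_lit 0, [], [nat_lit 20, nat_lit 40, nat_lit 40, nat_lit 80, nat_lit 16, nat_lit 249, nat_lit 40, nat_lit 8]⟩, C1.Rw.none,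
 ⟨nat_lit 1581, nat_lit 2237, ⟨.ofNat (nat_lit 659578), .ofNat (nat_lit 716594), .ofNat (nat_lit 670965), .ofNat (nat_lit 727981), .ofNat (nat_lit 655900), .ofNat (nat_lit 710536), .ofNat (nat_lit 667558), .ofNat (nat_lit 722193)⟩, ⟨.ofNat (nat_lit 249322), .ofNat (nat_lit 306337), .ofNat (nat_lit 272096), .ofNat (nat_lit 329112), .ofNat (nat_lit 250837), .ofNat (nat_lit 305473), .ofNat (nat_lit 274152), .ofNat (nat_lit 328788)⟩⟩, [⟨nat_lit 13, nat_lit 39, nat_lit 84, nat_lit 100, nat_lit 272153759⟩]⟩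
noncomputable def p114_l73 : Lf2 := ⟨nat_lit 0, nat_lit 25, [nat_lit 44, nat_lit 5, nat_lit 5, nat_lit 20], false, nat_lit 120, nat_lit 160, nat_lit 0, nat_lit 344, ⟨nat_lit 85, nat_lit 915, nat_lit 0, nat_lit 7, nat_lit 281, nat_lit 915, nat_lit 116, nat_lit 0, nat_lit 0, nat_lit 0, nat_lit 0, nat_lit 0, nat_lit 40938580, nat_lit 20923565, nat_lit 5137855, nat_lit 4578508, true, true⟩,
 nat_lit 0, nat_lit 0, nat_lit 1251, nat_lit 0, nat_lit 4073, nat_lit 695, nat_lit 0, nat_lit 0, nat_lit 0, nat_lit 63, nat_lit 0, nat_lit 0, nat_lit 0, nat_lit 0, nat_lit 0, nat_lit 228750, nat_lit 0, nat_lit 0, [(nat_lit 29, [(nat_lit 0, nat_lit 915)])],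
 ⟨p114_k0, nat_lit 0, nat_lit 0, nat_lit 100, nat_lit 0, nat_lit 0, [nat_lit 794894001, nat_lit 1236060001, nat_lit 2165806000], [], [nat_lit 26179545102, nat_lit 26814245247, nat_lit 27825414509, nat_lit 28478687765, nat_lit 26206291856, nat_lit 26809864264, nat_lit 27774152732, nat_lit 28327639587], nat_lit 0, nat_lit 0, nat_lit 0, nat_lit 0, nat_lit 0, nat_lit 0, [], [nat_lit 20, nat_lit 40, nat_lit 40, nat_lit 80, nat_lit 16, nat_lit 249, nat_lit 40, nat_lit 8]⟩, ⟨p114_k12, nat_lit 0, nat_lit 0, nat_lit 659, nat_lit 0, nat_lit 814560, [nat_lit 398480000, nat_lit 677280000, nat_lit 1194930000], [], [nat_lit 3365991325, nat_lit 3379366530, nat_lit 3456692765, nat_lit 3467082990, nat_lit 2848205374, nat_lit 2851570298, nat_lit 2887525314, nat_lit 2894964808], nat_lit 1271250, nat_lit 1271250, nat_lit 1271250, nat_lit 1271250, nat_lit 0, nat_lit 2429500, [nat_lit 1100000, nat_lit 1785000, nat_lit 1271250], [nat_lit 37,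 nat_lit 40, nat_lit 40, nat_lit 80, nat_lit 28, nat_lit 483, nat_lit 250, nat_lit 11]⟩,
 ⟨nat_lit 1581, nat_lit 2237, ⟨.ofNat (nat_lit 670965), .ofNat (nat_lit 727981), .ofNat (nat_lit 682352), .ofNat (nat_lit 739368), .ofNat (nat_lit 667558), .ofNat (nat_lit 722193), .ofNat (nat_lit 679215), .ofNat (nat_lit 733851)⟩, ⟨.ofNat (nat_lit 249322), .ofNat (nat_lit 306337), .ofNat (nat_lit 272096), .ofNat (nat_lit 329112), .ofNat (nat_lit 250837), .ofNat (nat_lit 305473), .ofNat (nat_lit 274152), .ofNat (nat_lit 328788)⟩⟩, [⟨nat_lit 13, nat_lit 32, nat_lit 87, nat_lit 100, nat_lit 113312190⟩, ⟨nat_lit 16, nat_lit 39, nat_lit 100, nat_lit 85, nat_lit 17398329⟩, ⟨nat_lit 7, nat_lit 79, nat_lit 100, nat_lit 87, nat_lit 9048509⟩]⟩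
noncomputable def p114_l74 : Lf2 := ⟨nat_lit 0, nat_lit 25, [nat_lit 44, nat_lit 5, nat_lit 5, nat_lit 20], false, nat_lit 80, nat_lit 120, nat_lit 0, nat_lit 336, ⟨nat_lit 117, nat_lit 883, nat_lit 0, nat_lit 7, nat_lit 286, nat_lit 883, nat_lit 92, nat_lit 0, nat_lit 0, nat_lit 0, nat_lit 0, nat_lit 0, nat_lit 41613890, nat_lit 21749333, nat_lit 3636777, nat_lit 4318619, true, true⟩,
 nat_lit 0, nat_lit 0, nat_lit 1574, nat_lit 0, nat_lit 2544, nat_lit 915, nat_lit 66, nat_lit 0, nat_lit 0, nat_lit 103, nat_lit 0, nat_lit 0, nat_lit 0, nat_lit 0, nat_lit 0, nat_lit 353200, nat_lit 0, nat_lit 0, [(nat_lit 29, [(nat_lit 1, nat_lit 883)])],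
 ⟨p114_k0, nat_lit 0, nat_lit 0, nat_lit 112, nat_lit 0, nat_lit 0, [nat_lit 726433201, nat_lit 677150000, nat_lit 814252000], [], [nat_lit 24105316491, nat_lit 24633908690, nat_lit 25593075258, nat_lit 26123622376, nat_lit 24435422883, nat_lit 24941448199, nat_lit 25854462635, nat_lit 26326258656], nat_lit 0, nat_lit 0, nat_lit 0, nat_lit 0, nat_lit 0, nat_lit 0, [], [nat_lit 20, nat_lit 40, nat_lit 40, nat_lit 80, nat_lit 16, nat_lit 238, nat_lit 30, nat_lit 7]⟩, ⟨p114_k3, nat_lit 0, nat_lit 0, nat_lit 656, nat_lit 0, nat_lit 814141, [nat_lit 548496000, nat_lit 932256000, nat_lit 1644786000], [], [nat_lit 4147813674, nat_lit 4160120367, nat_lit 4230764406, nat_lit 4240153767, nat_lit 3688624352, nat_lit 3695568080, nat_lit 3745199891, nat_lit 3749812736], nat_lit 1271250, nat_lit 1271250, nat_lit 1271250, nat_lit 1271250, nat_lit 0, nat_lit 2373000, [nat_lit 1100000, nat_lit 1785000, nat_lit 1271250], [nat_lit 37,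 nat_lit 40, nat_lit 40, nat_lit 80, nat_lit 28, nat_lit 483, nat_lit 250, nat_lit 11]⟩,
 ⟨nat_lit 1581, nat_lit 2237, ⟨.ofNat (nat_lit 682352), .ofNat (nat_lit 739368), .ofNat (nat_lit 693740), .ofNat (nat_lit 750755), .ofNat (nat_lit 679215), .ofNat (nat_lit 733851), .ofNat (nat_lit 690873), .ofNat (nat_lit 745508)⟩, ⟨.ofNat (nat_lit 192306), .ofNat (nat_lit 249322), .ofNat (nat_lit 200000), .ofNat (nat_lit 272096), .ofNat (nat_lit 196201), .ofNat (nat_lit 250837), .ofNat (nat_lit 200000), .ofNat (nat_lit 274152)⟩⟩, [⟨nat_lit 22, nat_lit 100, nat_lit 100, nat_lit 100, nat_lit 14838634⟩]⟩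
noncomputable def p114_l75 : Lf2 := ⟨nat_lit 0, nat_lit 25, [nat_lit 44, nat_lit 5, nat_lit 5, nat_lit 20], false, nat_lit 120, nat_lit 160, nat_lit 0, nat_lit 336, ⟨nat_lit 99, nat_lit 901, nat_lit 0, nat_lit 7, nat_lit 285, nat_lit 901, nat_lit 116, nat_lit 0, nat_lit 0, nat_lit 0, nat_lit 0, nat_lit 0, nat_lit 40634370, nat_lit 21251630, nat_lit 5114000, nat_lit 4591055, true, true⟩,
 nat_lit 0, nat_lit 0, nat_lit 1309, nat_lit 0, nat_lit 4066, nat_lit 761, nat_lit 0, nat_lit 0, nat_lit 0, nat_lit 73, nat_lit 0, nat_lit 0, nat_lit 0, nat_lit 0, nat_lit 0, nat_lit 225250, nat_lit 0, nat_lit 0, [(nat_lit 29, [(nat_lit 0, nat_lit 901)])],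
 ⟨p114_k0, nat_lit 0, nat_lit 0, nat_lit 100, nat_lit 0, nat_lit 0, [nat_lit 797083600, nat_lit 1267364001, nat_lit 2228296400], [], [nat_lit 26243491684, nat_lit 26877650274, nat_lit 27888417778, nat_lit 28468833609, nat_lit 26271538352, nat_lit 26874607488, nat_lit 27838545144, nat_lit 28390580636], nat_lit 0, nat_lit 0, nat_lit 0, nat_lit 0, nat_lit 0, nat_lit 0, [], [nat_lit 20, nat_lit 40, nat_lit 40, nat_lit 80, nat_lit 16, nat_lit 249, nat_lit 40, nat_lit 8]⟩, ⟨p114_k3, nat_lit 0, nat_lit 0, nat_lit 647, nat_lit 0, nat_lit 785917, [nat_lit 464112000, nat_lit 788832000, nat_lit 1391742000], [], [nat_lit 3779961918, nat_lit 3785238382, nat_lit 3850270314, nat_lit 3854329570, nat_lit 3293470202, nat_lit 3293791029, nat_lit 3319463147, nat_lit 3326520488], nat_lit 1271250, nat_lit 1271250, nat_lit 1271250, nat_lit 1271250, nat_lit 0, nat_lit 2373000, [nat_lit 1100000, nat_lit 1785000, nat_lit 1271250], [nat_lit 37,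 nat_lit 40, nat_lit 40, nat_lit 80, nat_lit 28, nat_lit 483, nat_lit 250, nat_lit 11]⟩,
 ⟨nat_lit 1581, nat_lit 2237, ⟨.ofNat (nat_lit 682352), .ofNat (nat_lit 739368), .ofNat (nat_lit 688046), .ofNat (nat_lit 745062), .ofNat (nat_lit 679215), .ofNat (nat_lit 733851), .ofNat (nat_lit 685044), .ofNat (nat_lit 739680)⟩, ⟨.ofNat (nat_lit 249322), .ofNat (nat_lit 306337), .ofNat (nat_lit 272096), .ofNat (nat_lit 329112), .ofNat (nat_lit 250837), .ofNat (nat_lit 305473), .ofNat (nat_lit 274152), .ofNat (nat_lit 328788)⟩⟩, [⟨nat_lit 4, nat_lit 100, nat_lit 39, nat_lit 85, nat_lit 53072393⟩, ⟨nat_lit 7, nat_lit 82, nat_lit 100, nat_lit 88, nat_lit 12313979⟩]⟩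
noncomputable def p114_l76 : Lf2 := ⟨nat_lit 0, nat_lit 25, [nat_lit 44, nat_lit 5, nat_lit 5, nat_lit 20], false, nat_lit 120, nat_lit 160, nat_lit 0, nat_lit 332, ⟨nat_lit 79, nat_lit 921, nat_lit 0, nat_lit 7, nat_lit 287, nat_lit 921, nat_lit 116, nat_lit 0, nat_lit 0, nat_lit 0, nat_lit 0, nat_lit 0, nat_lit 40432249, nat_lit 21469795, nat_lit 5097956, nat_lit 4599035, true, true⟩,
 nat_lit 0, nat_lit 0, nat_lit 1194, nat_lit 0, nat_lit 4022, nat_lit 711, nat_lit 0, nat_lit 0, nat_lit 0, nat_lit 52, nat_lit 0, nat_lit 0, nat_lit 0, nat_lit 0, nat_lit 0, nat_lit 230250, nat_lit 0, nat_lit 0, [(nat_lit 29, [(nat_lit 0, nat_lit 921)])],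
 ⟨p114_k25, nat_lit 0, nat_lit 0, nat_lit 99, nat_lit 0, nat_lit 0, [nat_lit 793955601, nat_lit 1638016401, nat_lit 2139024400], [], [nat_lit 26163372828, nat_lit 26794127358, nat_lit 27802369526, nat_lit 28406893203, nat_lit 26199590384, nat_lit 26799496096, nat_lit 27761228648, nat_lit 28310515812], nat_lit 0, nat_lit 0, nat_lit 0, nat_lit 0, nat_lit 0, nat_lit 0, [], [nat_lit 55, nat_lit 40, nat_lit 40, nat_lit 80, nat_lit 3, nat_lit 249, nat_lit 40, nat_lit 8]⟩, ⟨p114_k26, nat_lit 0, nat_lit 0, nat_lit 655, nat_lit 0, nat_lit 786889, [nat_lit 370352000, nat_lit 777518000, nat_lit 1110582000], [], [nat_lit 3041816130, nat_lit 3044952785, nat_lit 3090908784, nat_lit 3092991105, nat_lit 2497889830, nat_lit 2499636145, nat_lit 2537541243, nat_lit 2542549432], nat_lit 1271250, nat_lit 1271250, nat_lit 1271250, nat_lit 1271250, nat_lit 0, nat_lit 2344750, [nat_lit 1100000, nat_lit 2127500, nat_lit 1271250], [nat_lit 56,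 nat_lit 40, nat_lit 40, nat_lit 80, nat_lit 32, nat_lit 483, nat_lit 250, nat_lit 11]⟩,
 ⟨nat_lit 1581, nat_lit 2237, ⟨.ofNat (nat_lit 688046), .ofNat (nat_lit 745062), .ofNat (nat_lit 693740), .ofNat (nat_lit 750755), .ofNat (nat_lit 685044), .ofNat (nat_lit 739680), .ofNat (nat_lit 690873), .ofNat (nat_lit 745508)⟩, ⟨.ofNat (nat_lit 249322), .ofNat (nat_lit 306337), .ofNat (nat_lit 272096), .ofNat (nat_lit 329112), .ofNat (nat_lit 250837), .ofNat (nat_lit 305473), .ofNat (nat_lit 274152), .ofNat (nat_lit 328788)⟩⟩, [⟨nat_lit 16, nat_lit 39, nat_lit 100, nat_lit 85, nat_lit 37291059⟩, ⟨nat_lit 19, nat_lit 100, nat_lit 85, nat_lit 89, nat_lit 7302789⟩]⟩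
noncomputable def p114_l77 : Lf2 := ⟨nat_lit 0, nat_lit 25, [nat_lit 44, nat_lit 5, nat_lit 5, nat_lit 20], false, nat_lit 80, nat_lit 120, nat_lit 0, nat_lit 328, ⟨nat_lit 136, nat_lit 864, nat_lit 0, nat_lit 7, nat_lit 290, nat_lit 864, nat_lit 92, nat_lit 0, nat_lit 0, nat_lit 0, nat_lit 0, nat_lit 0, nat_lit 41188944, nat_lit 22196767, nat_lit 3614289, nat_lit 4335596, true, true⟩,
 nat_lit 0, nat_lit 0, nat_lit 1627, nat_lit 0, nat_lit 2553, nat_lit 990, nat_lit 75, nat_lit 0, nat_lit 0, nat_lit 140, nat_lit 0, nat_lit 0, nat_lit 0, nat_lit 0, nat_lit 0, nat_lit 345600, nat_lit 0, nat_lit 0, [(nat_lit 29, [(nat_lit 1, nat_lit 864)])],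
 ⟨p114_k0, nat_lit 0, nat_lit 0, nat_lit 112, nat_lit 0, nat_lit 0, [nat_lit 730985601, nat_lit 733200001, nat_lit 931216000], [], [nat_lit 24121339706, nat_lit 24650420405, nat_lit 25610169021, nat_lit 26138373862, nat_lit 24449857985, nat_lit 24956561690, nat_lit 25870091209, nat_lit 26338928285], nat_lit 0, nat_lit 0, nat_lit 0, nat_lit 0, nat_lit 0, nat_lit 0, [], [nat_lit 20, nat_lit 40, nat_lit 40, nat_lit 80, nat_lit 16, nat_lit 238, nat_lit 30, nat_lit 7]⟩, ⟨p114_k13, nat_lit 0, nat_lit 0, nat_lit 656, nat_lit 0, nat_lit 817881, [nat_lit 637568000, nat_lit 1083648000, nat_lit 1911888000], [], [nat_lit 4445984358, nat_lit 4466787976, nat_lit 4561606500, nat_lit 4586898104, nat_lit 3995036085, nat_lit 4001356565, nat_lit 4053396492, nat_lit 4060534408], nat_lit 1271250, nat_lit 1271250, nat_lit 1271250, nat_lit 1271250, nat_lit 0, nat_lit 2316500, [nat_lit 1100000, nat_lit 1785000, nat_lit 1271250], [nat_lit 37,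 nat_lit 40, nat_lit 40, nat_lit 80, nat_lit 28, nat_lit 483, nat_lit 250, nat_lit 11]⟩,
 ⟨nat_lit 1581, nat_lit 2237, ⟨.ofNat (nat_lit 693740), .ofNat (nat_lit 750755), .ofNat (nat_lit 705117), .ofNat (nat_lit 762142), .ofNat (nat_lit 690873), .ofNat (nat_lit 745508), .ofNat (nat_lit 702521), .ofNat (nat_lit 757166)⟩, ⟨.ofNat (nat_lit 192306), .ofNat (nat_lit 249322), .ofNat (nat_lit 200000), .ofNat (nat_lit 272096), .ofNat (nat_lit 196201), .ofNat (nat_lit 250837), .ofNat (nat_lit 200000), .ofNat (nat_lit 274152)⟩⟩, [⟨nat_lit 19, nat_lit 100, nat_lit 89, nat_lit 90, nat_lit 19156177⟩]⟩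
noncomputable def p114_l78 : Lf2 := ⟨nat_lit 0, nat_lit 25, [nat_lit 44, nat_lit 5, nat_lit 5, nat_lit 20], false, nat_lit 120, nat_lit 160, nat_lit 0, nat_lit 328, ⟨nat_lit 107, nat_lit 893, nat_lit 0, nat_lit 7, nat_lit 289, nat_lit 893, nat_lit 116, nat_lit 0, nat_lit 0, nat_lit 0, nat_lit 0, nat_lit 0, nat_lit 40230699, nat_lit 21687496, nat_lit 5081805, nat_lit 4606711, true, true⟩,
 nat_lit 0, nat_lit 0, nat_lit 1285, nat_lit 0, nat_lit 4123, nat_lit 782, nat_lit 0, nat_lit 0, nat_lit 0, nat_lit 111, nat_lit 0, nat_lit 0, nat_lit 0, nat_lit 0, nat_lit 0, nat_lit 223250, nat_lit 0, nat_lit 0, [(nat_lit 29, [(nat_lit 0, nat_lit 893)])],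
 ⟨p114_k0, nat_lit 0, nat_lit 0, nat_lit 100, nat_lit 0, nat_lit 0, [nat_lit 798334801, nat_lit 1285252000, nat_lit 2264005200], [], [nat_lit 26267343002, nat_lit 26905911397, nat_lit 27919950359, nat_lit 28549074590, nat_lit 26284804656, nat_lit 26891971864, nat_lit 27858766132, nat_lit 28414361958], nat_lit 0, nat_lit 0, nat_lit 0, nat_lit 0, nat_lit 0, nat_lit 0, [], [nat_lit 20, nat_lit 40, nat_lit 40, nat_lit 80, nat_lit 16, nat_lit 249, nat_lit 40, nat_lit 8]⟩, ⟨p114_k13, nat_lit 0, nat_lit 0, nat_lit 646, nat_lit 0, nat_lit 788721, [nat_lit 501616000, nat_lit 852576000, nat_lit 1504206000], [], [nat_lit 3476833342, nat_lit 3485009049, nat_lit 3567827935, nat_lit 3582881008, nat_lit 3118500522, nat_lit 3120961916, nat_lit 3167152956, nat_lit 3169935987], nat_lit 1271250, nat_lit 1271250, nat_lit 1271250, nat_lit 1271250, nat_lit 0, nat_lit 2316500, [nat_lit 1100000, nat_lit 1785000, nat_lit 1271250], [nat_lit 37,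 nat_lit 40, nat_lit 40, nat_lit 80, nat_lit 28, nat_lit 483, nat_lit 250, nat_lit 11]⟩,
 ⟨nat_lit 1581, nat_lit 2237, ⟨.ofNat (nat_lit 693740), .ofNat (nat_lit 750755), .ofNat (nat_lit 699433), .ofNat (nat_lit 756449), .ofNat (nat_lit 690873), .ofNat (nat_lit 745508), .ofNat (nat_lit 696701), .ofNat (nat_lit 751337)⟩, ⟨.ofNat (nat_lit 249322), .ofNat (nat_lit 306337), .ofNat (nat_lit 272096), .ofNat (nat_lit 329112), .ofNat (nat_lit 250837), .ofNat (nat_lit 305473), .ofNat (nat_lit 274152), .ofNat (nat_lit 328788)⟩⟩, [⟨nat_lit 16, nat_lit 39, nat_lit 100, nat_lit 85, nat_lit 36489724⟩, ⟨nat_lit 19, nat_lit 100, nat_lit 87, nat_lit 90, nat_lit 15209709⟩]⟩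
noncomputable def p114_l79 : Lf2 := ⟨nat_lit 0, nat_lit 25, [nat_lit 44, nat_lit 5, nat_lit 5, nat_lit 20], false, nat_lit 120, nat_lit 160, nat_lit 0, nat_lit 324, ⟨nat_lit 125, nat_lit 875, nat_lit 0, nat_lit 7, nat_lit 292, nat_lit 875, nat_lit 116, nat_lit 0, nat_lit 0, nat_lit 0, nat_lit 0, nat_lit 0, nat_lit 40029803, nat_lit 21904640, nat_lit 5065557, nat_lit 4614084, true, true⟩,
 nat_lit 0, nat_lit 0, nat_lit 1415, nat_lit 0, nat_lit 4148, nat_lit 881, nat_lit 0, nat_lit 0, nat_lit 0, nat_lit 130, nat_lit 0, nat_lit 0, nat_lit 0, nat_lit 0, nat_lit 0, nat_lit 218750, nat_lit 0, nat_lit 0, [(nat_lit 29, [(nat_lit 0, nat_lit 875)])],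
 ⟨p114_k0, nat_lit 0, nat_lit 0, nat_lit 100, nat_lit 0, nat_lit 0, [nat_lit 801150000, nat_lit 1325500000, nat_lit 2344350000], [], [nat_lit 26342487152, nat_lit 26982989672, nat_lit 27998463484, nat_lit 28584268002, nat_lit 26355306256, nat_lit 26964270864, nat_lit 27932318032, nat_lit 28489475408], nat_lit 0, nat_lit 0, nat_lit 0, nat_lit 0, nat_lit 0, nat_lit 0, [], [nat_lit 20, nat_lit 40, nat_lit 40, nat_lit 80, nat_lit 16, nat_lit 249, nat_lit 40, nat_lit 8]⟩, ⟨p114_k27, nat_lit 0, nat_lit 0, nat_lit 646, nat_lit 0, nat_lit 791525, [nat_lit 586000000, nat_lit 996000000, nat_lit 1757250000], [], [nat_lit 3984403723, nat_lit 3994039432, nat_lit 4112939682, nat_lit 4134390250, nat_lit 3588718476, nat_lit 3593548740, nat_lit 3652874595, nat_lit 3665742838], nat_lit 1271250, nat_lit 1271250, nat_lit 1271250, nat_lit 1271250, nat_lit 0, nat_lit 2288250, [nat_lit 1100000, nat_lit 1785000, nat_lit 1271250], [nat_lit 37,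 nat_lit 40, nat_lit 40, nat_lit 80, nat_lit 28, nat_lit 483, nat_lit 250, nat_lit 11]⟩,
 ⟨nat_lit 1581, nat_lit 2237, ⟨.ofNat (nat_lit 699433), .ofNat (nat_lit 756449), .ofNat (nat_lit 705117), .ofNat (nat_lit 762142), .ofNat (nat_lit 696701), .ofNat (nat_lit 751337), .ofNat (nat_lit 702521), .ofNat (nat_lit 757166)⟩, ⟨.ofNat (nat_lit 249322), .ofNat (nat_lit 306337), .ofNat (nat_lit 272096), .ofNat (nat_lit 329112), .ofNat (nat_lit 250837), .ofNat (nat_lit 305473), .ofNat (nat_lit 274152), .ofNat (nat_lit 328788)⟩⟩, [⟨nat_lit 4, nat_lit 100, nat_lit 39, nat_lit 85, nat_lit 61583321⟩, ⟨nat_lit 19, nat_lit 100, nat_lit 90, nat_lit 91, nat_lit 17716852⟩]⟩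
noncomputable def b_V_900_600_20_43 : St := ⟨true, nat_lit 0, nat_lit 1, nat_lit 1, nat_lit 120, nat_lit 380, nat_lit 390, nat_lit 240, nat_lit 280, nat_lit 280, nat_lit 320, nat_lit 80, nat_lit 100, nat_lit 80, nat_lit 160, nat_lit 0, nat_lit 364, nat_lit 80, nat_lit 120, nat_lit 0, nat_lit 0, nat_lit 0, nat_lit 0⟩
theorem d_V_900_600_20_43 (h : EB TB.env) : Dead b_V_900_600_20_43 := chkB_sound0 h (T :=
(.trX (nat_lit 19) (nat_lit 100) (nat_lit 68) (nat_lit 88) (nat_lit 352) (.spl (nat_lit 1) (nat_lit 260)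
(.spl (nat_lit 4) (nat_lit 120)
(.trX (nat_lit 22) (nat_lit 100) (nat_lit 80) (nat_lit 100) (nat_lit 336) (.leaf p114_l71))
(.spl (nat_lit 1) (nat_lit 250)
(.leaf p114_l72)
(.trX (nat_lit 19) (nat_lit 100) (nat_lit 72) (nat_lit 89) (nat_lit 344) (.leaf p114_l73))))
(.trX (nat_lit 19) (nat_lit 100) (nat_lit 77) (nat_lit 91) (nat_lit 336) (.spl (nat_lit 1) (nat_lit 270)
(.spl (nat_lit 4) (nat_lit 120)
(.leaf p114_l74)
(.spl (nat_lit 1) (nat_lit 265)
(.leaf p114_l75)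
(.trX (nat_lit 19) (nat_lit 100) (nat_lit 80) (nat_lit 92) (nat_lit 332) (.leaf p114_l76))))
(.trX (nat_lit 19) (nat_lit 100) (nat_lit 82) (nat_lit 92) (nat_lit 328) (.spl (nat_lit 4) (nat_lit 120)
(.leaf p114_l77)
(.spl (nat_lit 1) (nat_lit 275)
(.leaf p114_l78)
(.trX (nat_lit 19) (nat_lit 100) (nat_lit 85) (nat_lit 93) (nat_lit 324) (.leaf p114_l79)))))))))) (by decide +kernel)
noncomputable def p114_l80 : Lf2 := ⟨nat_lit 0, nat_lit 30, [nat_lit 15, nat_lit 5, nat_lit 5, nat_lit 20], false, nat_lit 80, nat_lit 160, nat_lit 0, nat_lit 160, ⟨nat_lit 301, nat_lit 699, nat_lit 0, nat_lit 7, nat_lit 279, nat_lit 699, nat_lit 108, nat_lit 0, nat_lit 0, nat_lit 0, nat_lit 0, nat_lit 0, nat_lit 41465413, nat_lit 20873767, nat_lit 4660820, nat_lit 4485195, true, true⟩,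
 nat_lit 0, nat_lit 0, nat_lit 4710, nat_lit 0, nat_lit 2473, nat_lit 2493, nat_lit 235, nat_lit 0, nat_lit 0, nat_lit 317, nat_lit 0, nat_lit 0, nat_lit 0, nat_lit 0, nat_lit 0, nat_lit 279600, nat_lit 0, nat_lit 0, [(nat_lit 29, [(nat_lit 1, nat_lit 699)])],
 ⟨p114_k4, nat_lit 0, nat_lit 0, nat_lit 129, nat_lit 0, nat_lit 0, [nat_lit 770519600, nat_lit 1219950000, nat_lit 2436673200], [], [nat_lit 24086857107, nat_lit 24332437569, nat_lit 25465576533, nat_lit 25709548779, nat_lit 24701324571, nat_lit 24926791550, nat_lit 25974701887, nat_lit 26184167848], nat_lit 0, nat_lit 0, nat_lit 0, nat_lit 0, nat_lit 0, nat_lit 0, [], [nat_lit 54, nat_lit 40, nat_lit 40, nat_lit 80, nat_lit 43, nat_lit 249, nat_lit 40, nat_lit 7]⟩, ⟨p114_k5, nat_lit 0, nat_lit 0, nat_lit 629, nat_lit 0, nat_lit 545745, [nat_lit 1411088000, nat_lit 2398368000, nat_lit 4936400000], [], [nat_lit 11048522681, nat_lit 11130484999, nat_lit 11338322605,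 nat_lit 11401488505, nat_lit 9129616492, nat_lit 9278875094, nat_lit 9560133432, nat_lit 9685795524], nat_lit 1271250, nat_lit 1271250, nat_lit 1271250, nat_lit 1271250, nat_lit 0, nat_lit 1100001, [nat_lit 1100000, nat_lit 1785000, nat_lit 1271250], [nat_lit 122, nat_lit 40, nat_lit 40, nat_lit 80, nat_lit 111, nat_lit 428, nat_lit 200, nat_lit 9]⟩,
 ⟨nat_lit 1936, nat_lit 2237, ⟨.ofNat (nat_lit 659578), .ofNat (nat_lit 716594), .ofNat (nat_lit 682352), .ofNat (nat_lit 739368), .ofNat (nat_lit 657798), .ofNat (nat_lit 713688), .ofNat (nat_lit 680809), .ofNat (nat_lit 736698)⟩, ⟨.ofNat (nat_lit 200000), .ofNat (nat_lit 329112), .ofNat (nat_lit 200000), .ofNat (nat_lit 351886), .ofNat (nat_lit 200000), .ofNat (nat_lit 329055), .ofNat (nat_lit 200000), .ofNat (nat_lit 352066)⟩⟩, [⟨nat_lit 9, nat_lit 100, nat_lit 88, nat_lit 32, nat_lit 10682531⟩]⟩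
noncomputable def p114_l81 : Lf2 := ⟨nat_lit 0, nat_lit 30, [nat_lit 15, nat_lit 5, nat_lit 5, nat_lit 20], false, nat_lit 80, nat_lit 160, nat_lit 0, nat_lit 160, ⟨nat_lit 215, nat_lit 785, nat_lit 0, nat_lit 7, nat_lit 278, nat_lit 785, nat_lit 108, nat_lit 0, nat_lit 0, nat_lit 0, nat_lit 0, nat_lit 0, nat_lit 41548406, nat_lit 20785492, nat_lit 4666102, nat_lit 4481475, true, true⟩,
 nat_lit 0, nat_lit 0, nat_lit 3362, nat_lit 0, nat_lit 2780, nat_lit 1779, nat_lit 195, nat_lit 0, nat_lit 0, nat_lit 226, nat_lit 0, nat_lit 0, nat_lit 0, nat_lit 0, nat_lit 0, nat_lit 196250, nat_lit 0, nat_lit 0, [(nat_lit 29, [(nat_lit 0, nat_lit 785)])],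
 ⟨p114_k10, nat_lit 0, nat_lit 0, nat_lit 112, nat_lit 0, nat_lit 0, [nat_lit 815226001, nat_lit 1526740001, nat_lit 2746074000], [], [nat_lit 24676918040, nat_lit 24956279800, nat_lit 26197931440, nat_lit 26510439120, nat_lit 25211372521, nat_lit 25461523161, nat_lit 26582050371, nat_lit 26813420341], nat_lit 0, nat_lit 0, nat_lit 0, nat_lit 0, nat_lit 0, nat_lit 0, [], [nat_lit 20, nat_lit 40, nat_lit 40, nat_lit 80, nat_lit 16, nat_lit 249, nat_lit 40, nat_lit 8]⟩, ⟨p114_k5, nat_lit 0, nat_lit 0, nat_lit 665, nat_lit 0, nat_lit 654036, [nat_lit 1007920000, nat_lit 1713120000, nat_lit 3526000000], [], [nat_lit 7900494790, nat_lit 7959066608, nat_lit 8107472114, nat_lit 8152628534, nat_lit 6526352276, nat_lit 6632951578, nat_lit 6833755416, nat_lit 6923513628], nat_lit 1271250, nat_lit 1271250, nat_lit 1271250, nat_lit 1271250, nat_lit 0, nat_lit 1100001, [nat_lit 1100000, nat_lit 1785000, nat_lit 1271250], [nat_lit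 122, nat_lit 40, nat_lit 40, nat_lit 80, nat_lit 111, nat_lit 428, nat_lit 200, nat_lit 9]⟩,
 ⟨nat_lit 1581, nat_lit 1937, ⟨.ofNat (nat_lit 657798), .ofNat (nat_lit 713688), .ofNat (nat_lit 680809), .ofNat (nat_lit 736698), .ofNat (nat_lit 655900), .ofNat (nat_lit 710536), .ofNat (nat_lit 679215), .ofNat (nat_lit 733851)⟩, ⟨.ofNat (nat_lit 200000), .ofNat (nat_lit 329055), .ofNat (nat_lit 200000), .ofNat (nat_lit 352066), .ofNat (nat_lit 200000), .ofNat (nat_lit 328788), .ofNat (nat_lit 200000), .ofNat (nat_lit 352103)⟩⟩, [⟨nat_lit 13, nat_lit 36, nat_lit 85, nat_lit 100, nat_lit 280806316⟩, ⟨nat_lit 4, nat_lit 100, nat_lit 35, nat_lit 90, nat_lit 19936442⟩, ⟨nat_lit 9, nat_lit 100, nat_lit 88, nat_lit 32, nat_lit 7626050⟩]⟩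
noncomputable def p114_l82 : Lf2 := ⟨nat_lit 0, nat_lit 25, [nat_lit 44, nat_lit 5, nat_lit 5, nat_lit 20], false, nat_lit 80, nat_lit 160, nat_lit 160, nat_lit 364, ⟨nat_lit 103, nat_lit 897, nat_lit 0, nat_lit 7, nat_lit 279, nat_lit 897, nat_lit 108, nat_lit 0, nat_lit 0, nat_lit 0, nat_lit 0, nat_lit 0, nat_lit 41465413, nat_lit 20873767, nat_lit 4660820, nat_lit 4485195, true, true⟩,
 nat_lit 0, nat_lit 0, nat_lit 1847, nat_lit 0, nat_lit 3715, nat_lit 977, nat_lit 0, nat_lit 0, nat_lit 0, nat_lit 53, nat_lit 0, nat_lit 0, nat_lit 0, nat_lit 0, nat_lit 0, nat_lit 270150, nat_lit 0, nat_lit 0, [(nat_lit 29, [(nat_lit 0, nat_lit 591), (nat_lit 1, nat_lit 306)])],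
 ⟨p114_k25, nat_lit 0, nat_lit 0, nat_lit 112, nat_lit 0, nat_lit 0, [nat_lit 772250000, nat_lit 1356782000, nat_lit 1728276400], [], [nat_lit 25723260740, nat_lit 26041347395, nat_lit 27394331530, nat_lit 27685350945, nat_lit 25909716880, nat_lit 26198633700, nat_lit 27433897460, nat_lit 27698953125], nat_lit 0, nat_lit 0, nat_lit 0, nat_lit 0, nat_lit 0, nat_lit 0, [], [nat_lit 55, nat_lit 40, nat_lit 40, nat_lit 80, nat_lit 3, nat_lit 249, nat_lit 40, nat_lit 8]⟩, ⟨p114_k28, nat_lit 0, nat_lit 0, nat_lit 412, nat_lit 0, nat_lit 524104, [nat_lit 482864000, nat_lit 1013726000, nat_lit 1447974000], [], [nat_lit 3381904364, nat_lit 3422651312, nat_lit 3516560180, nat_lit 3548744244, nat_lit 3679111470, nat_lit 3687238131, nat_lit 3738327408, nat_lit 3744920795], nat_lit 1271250, nat_lit 1271250, nat_lit 1271250, nat_lit 1271250, nat_lit 1100001, nat_lit 2846750, [nat_lit 1100000, nat_lit 2127500, nat_lit 1271250], [nat_lit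 56, nat_lit 40, nat_lit 40, nat_lit 80, nat_lit 32, nat_lit 483, nat_lit 250, nat_lit 10]⟩,
 ⟨nat_lit 1936, nat_lit 2237, ⟨.ofNat (nat_lit 659578), .ofNat (nat_lit 716594), .ofNat (nat_lit 682352), .ofNat (nat_lit 739368), .ofNat (nat_lit 657798), .ofNat (nat_lit 713688), .ofNat (nat_lit 680809), .ofNat (nat_lit 736698)⟩, ⟨.ofNat (nat_lit 200000), .ofNat (nat_lit 329112), .ofNat (nat_lit 200000), .ofNat (nat_lit 351886), .ofNat (nat_lit 200000), .ofNat (nat_lit 329055), .ofNat (nat_lit 200000), .ofNat (nat_lit 352066)⟩⟩, [⟨nat_lit 22, nat_lit 94, nat_lit 88, nat_lit 100, nat_lit 30822691⟩]⟩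
noncomputable def p114_l83 : Lf2 := ⟨nat_lit 0, nat_lit 28, [nat_lit 157, nat_lit 5, nat_lit 5, nat_lit 20], false, nat_lit 80, nat_lit 160, nat_lit 160, nat_lit 364, ⟨nat_lit 327, nat_lit 673, nat_lit 0, nat_lit 7, nat_lit 277, nat_lit 673, nat_lit 108, nat_lit 0, nat_lit 0, nat_lit 0, nat_lit 0, nat_lit 0, nat_lit 41671563, nat_lit 20653666, nat_lit 4674771, nat_lit 4475991, true, true⟩,
 nat_lit 0, nat_lit 0, nat_lit 3680, nat_lit 0, nat_lit 4904, nat_lit 1948, nat_lit 0, nat_lit 0, nat_lit 0, nat_lit 187, nat_lit 0, nat_lit 0, nat_lit 0, nat_lit 0, nat_lit 0, nat_lit 168250, nat_lit 0, nat_lit 0, [(nat_lit 29, [(nat_lit 0, nat_lit 673)])],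
 ⟨p114_k29, nat_lit 0, nat_lit 0, nat_lit 112, nat_lit 0, nat_lit 0, [nat_lit 832742801, nat_lit 2459293200, nat_lit 3245997200], [], [nat_lit 27214438304, nat_lit 27581769772, nat_lit 29161889168, nat_lit 29576839492, nat_lit 26959295088, nat_lit 27290954080, nat_lit 28628547936, nat_lit 28930737260], nat_lit 0, nat_lit 0, nat_lit 0, nat_lit 0, nat_lit 0, nat_lit 0, [], [nat_lit 55, nat_lit 40, nat_lit 40, nat_lit 80, nat_lit 3, nat_lit 249, nat_lit 40, nat_lit 8]⟩, ⟨p114_k30, nat_lit 0, nat_lit 0, nat_lit 236, nat_lit 0, nat_lit 228366, [nat_lit 1532976000, nat_lit 3218334000, nat_lit 4596966000], [], [nat_lit 10198061964, nat_lit 10289055264, nat_lit 10690326964, nat_lit 10769625985, nat_lit 11722375391, nat_lit 11768889510, nat_lit 12050921413, nat_lit 12097252241], nat_lit 1271250, nat_lit 1271250, nat_lit 1271250, nat_lit 1271250, nat_lit 1100001, nat_lit 2846750, [nat_lit 1100000, nat_lit 2127500, nat_lit 1271250],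 [nat_lit 56, nat_lit 40, nat_lit 40, nat_lit 80, nat_lit 32, nat_lit 483, nat_lit 250, nat_lit 10]⟩,
 ⟨nat_lit 1936, nat_lit 2237, ⟨.ofNat (nat_lit 659578), .ofNat (nat_lit 716594), .ofNat (nat_lit 670965), .ofNat (nat_lit 727981), .ofNat (nat_lit 657798), .ofNat (nat_lit 713688), .ofNat (nat_lit 669304), .ofNat (nat_lit 725193)⟩, ⟨.ofNat (nat_lit 200000), .ofNat (nat_lit 329112), .ofNat (nat_lit 200000), .ofNat (nat_lit 351886), .ofNat (nat_lit 200000), .ofNat (nat_lit 329055), .ofNat (nat_lit 200000), .ofNat (nat_lit 352066)⟩⟩, [⟨nat_lit 22, nat_lit 94, nat_lit 88, nat_lit 100, nat_lit 116461825⟩]⟩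
noncomputable def p114_l84 : Lf2 := ⟨nat_lit 0, nat_lit 30, [nat_lit 15, nat_lit 5, nat_lit 5, nat_lit 20], false, nat_lit 80, nat_lit 160, nat_lit 160, nat_lit 364, ⟨nat_lit 1000, nat_lit 0, nat_lit 0, nat_lit 0, nat_lit 0, nat_lit 0, nat_lit 0, nat_lit 0, nat_lit 0, nat_lit 0, nat_lit 0, nat_lit 0, nat_lit 0, nat_lit 0, nat_lit 0, nat_lit 0, false, false⟩,
 nat_lit 0, nat_lit 0, nat_lit 20419, nat_lit 2026, nat_lit 7885, nat_lit 10810, nat_lit 87, nat_lit 0, nat_lit 0, nat_lit 738, nat_lit 0, nat_lit 0, nat_lit 0, nat_lit 0, nat_lit 0, nat_lit 0, nat_lit 0, nat_lit 0, [],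
 ⟨p114_k14, nat_lit 0, nat_lit 0, nat_lit 129, nat_lit 0, nat_lit 0, [nat_lit 938000000, nat_lit 4688000000, nat_lit 7968000000], [], [nat_lit 31542065560, nat_lit 31813285683, nat_lit 33760355920, nat_lit 34095592082, nat_lit 30042142910, nat_lit 30284881836, nat_lit 31887239720, nat_lit 32110742078], nat_lit 0, nat_lit 0, nat_lit 0, nat_lit 0, nat_lit 0, nat_lit 0, [], [nat_lit 57, nat_lit 40, nat_lit 40, nat_lit 80, nat_lit 7, nat_lit 249, nat_lit 40, nat_lit 7]⟩, ⟨p114_k18, nat_lit 0, nat_lit 0, nat_lit 211, nat_lit 0, nat_lit 72942, [nat_lit 4688000000, nat_lit 9842000000, nat_lit 16400000000], [], [nat_lit 27953316710, nat_lit 28253580730, nat_lit 29887632070, nat_lit 30126914850, nat_lit 32430479089, nat_lit 32674540016, nat_lit 34076803301, nat_lit 34454894596], nat_lit 1271250, nat_lit 1271250, nat_lit 1271250, nat_lit 1271250, nat_lit 1100001, nat_lit 2846750, [nat_lit 1100000, nat_lit 2127500, nat_lit 1271250],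 [nat_lit 83, nat_lit 40, nat_lit 40, nat_lit 80, nat_lit 73, nat_lit 483, nat_lit 250, nat_lit 9]⟩,
 zbF0, [⟨nat_lit 7, nat_lit 66, nat_lit 100, nat_lit 92, nat_lit 367145617⟩]⟩
noncomputable def p114_l85 : Lf2 := ⟨nat_lit 0, nat_lit 30, [nat_lit 15, nat_lit 5, nat_lit 5, nat_lit 20], false, nat_lit 80, nat_lit 160, nat_lit 160, nat_lit 364, ⟨nat_lit 789, nat_lit 0, nat_lit 211, nat_lit 7, nat_lit 277, nat_lit 211, nat_lit 108, nat_lit 211, nat_lit 109350, nat_lit 296, nat_lit 181404, nat_lit 200, nat_lit 41695754, nat_lit 0, nat_lit 0, nat_lit 4474941, true, true⟩,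
 nat_lit 0, nat_lit 0, nat_lit 15904, nat_lit 918, nat_lit 3189, nat_lit 8419, nat_lit 361, nat_lit 0, nat_lit 0, nat_lit 572, nat_lit 0, nat_lit 0, nat_lit 0, nat_lit 0, nat_lit 0, nat_lit 41145, nat_lit 0, nat_lit 0, [(nat_lit 29, [(nat_lit 3, nat_lit 211)])],
 ⟨p114_k31, nat_lit 0, nat_lit 0, nat_lit 130, nat_lit 0, nat_lit 0, [nat_lit 981803601, nat_lit 3410184000, nat_lit 5793771600], [], [nat_lit 25258529776, nat_lit 25369377487, nat_lit 26732896593, nat_lit 26848578047, nat_lit 25549031595, nat_lit 25648226955, nat_lit 26899767081, nat_lit 26993111246], nat_lit 0, nat_lit 0, nat_lit 0, nat_lit 0, nat_lit 0, nat_lit 0, [], [nat_lit 57, nat_lit 40, nat_lit 40, nat_lit 80, nat_lit 7, nat_lit 249, nat_lit 40, nat_lit 7]⟩, ⟨p114_k18, nat_lit 0, nat_lit 0, nat_lit 223, nat_lit 0, nat_lit 102636, [nat_lit 3698832000, nat_lit 7765338000, nat_lit 12939600000], [], [nat_lit 22261705380, nat_lit 22497981555, nat_lit 23778516384,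 nat_lit 23967218242, nat_lit 25791411890, nat_lit 25851238826, nat_lit 26943090488, nat_lit 27092925337], nat_lit 1271250, nat_lit 1271250, nat_lit 1271250, nat_lit 1271250, nat_lit 1100001, nat_lit 2846750, [nat_lit 1100000, nat_lit 2127500, nat_lit 1271250], [nat_lit 83, nat_lit 40, nat_lit 40, nat_lit 80, nat_lit 73, nat_lit 483, nat_lit 250, nat_lit 9]⟩,
 ⟨nat_lit 1936, nat_lit 2062, ⟨.ofNat (nat_lit 658521), .ofNat (nat_lit 714872), .ofNat (nat_lit 669976), .ofNat (nat_lit 726327), .ofNat (nat_lit 657798), .ofNat (nat_lit 713688), .ofNat (nat_lit 669304), .ofNat (nat_lit 725193)⟩, ⟨.ofNat (nat_lit 200000), .ofNat (nat_lit 329098), .ofNat (nat_lit 200000), .ofNat (nat_lit 352008), .ofNat (nat_lit 200000), .ofNat (nat_lit 329055), .ofNat (nat_lit 200000), .ofNat (nat_lit 352066)⟩⟩, [⟨nat_lit 7, nat_lit 66, nat_lit 100, nat_lit 92, nat_lit 285087121⟩]⟩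
noncomputable def p114_l86 : Lf2 := ⟨nat_lit 0, nat_lit 30, [nat_lit 15, nat_lit 5, nat_lit 5, nat_lit 20], false, nat_lit 80, nat_lit 160, nat_lit 160, nat_lit 360, ⟨nat_lit 1000, nat_lit 0, nat_lit 0, nat_lit 0, nat_lit 0, nat_lit 0, nat_lit 0, nat_lit 0, nat_lit 0, nat_lit 0, nat_lit 0, nat_lit 0, nat_lit 0, nat_lit 0, nat_lit 0, nat_lit 0, false, false⟩,
 nat_lit 0, nat_lit 0, nat_lit 11448, nat_lit 0, nat_lit 5133, nat_lit 6359, nat_lit 378, nat_lit 0, nat_lit 0, nat_lit 640, nat_lit 0, nat_lit 0, nat_lit 0, nat_lit 0, nat_lit 0, nat_lit 0, nat_lit 0, nat_lit 0, [],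
 ⟨p114_k14, nat_lit 0, nat_lit 0, nat_lit 129, nat_lit 0, nat_lit 0, [nat_lit 938000000, nat_lit 4688000000, nat_lit 7968000000], [], [nat_lit 27220123498, nat_lit 27480701252, nat_lit 29515142736, nat_lit 29770739870, nat_lit 26776666128, nat_lit 26966112574, nat_lit 28804696502, nat_lit 29035680670], nat_lit 0, nat_lit 0, nat_lit 0, nat_lit 0, nat_lit 0, nat_lit 0, [], [nat_lit 57, nat_lit 40, nat_lit 40, nat_lit 80, nat_lit 7, nat_lit 249, nat_lit 40, nat_lit 7]⟩, ⟨p114_k15, nat_lit 0, nat_lit 0, nat_lit 242, nat_lit 0, nat_lit 241601, [nat_lit 4688000000, nat_lit 9842000000, nat_lit 14058000000], [], [nat_lit 29470752840, nat_lit 29752182888, nat_lit 30973797254, nat_lit 31217562796, nat_lit 34301534908, nat_lit 34472480394, nat_lit 35582556046, nat_lit 35788948076], nat_lit 1271250, nat_lit 1271250, nat_lit 1271250, nat_lit 1271250, nat_lit 1100001, nat_lit 2812500, [nat_lit 1100000, nat_lit 2127500, nat_lit 1271250],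 [nat_lit 56, nat_lit 40, nat_lit 40, nat_lit 80, nat_lit 32, nat_lit 483, nat_lit 250, nat_lit 10]⟩,
 zbF0, [⟨nat_lit 7, nat_lit 71, nat_lit 100, nat_lit 93, nat_lit 374755706⟩]⟩
noncomputable def p114_l87 : Lf2 := ⟨nat_lit 0, nat_lit 30, [nat_lit 15, nat_lit 5, nat_lit 5, nat_lit 20], false, nat_lit 80, nat_lit 160, nat_lit 160, nat_lit 360, ⟨nat_lit 756, nat_lit 244, nat_lit 0, nat_lit 7, nat_lit 281, nat_lit 244, nat_lit 108, nat_lit 0, nat_lit 0, nat_lit 0, nat_lit 0, nat_lit 0, nat_lit 41282637, nat_lit 21068684, nat_lit 4648679, nat_lit 4493164, true, true⟩,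
 nat_lit 0, nat_lit 0, nat_lit 8724, nat_lit 0, nat_lit 3010, nat_lit 4846, nat_lit 449, nat_lit 0, nat_lit 0, nat_lit 473, nat_lit 0, nat_lit 0, nat_lit 0, nat_lit 0, nat_lit 0, nat_lit 61000, nat_lit 0, nat_lit 0, [(nat_lit 29, [(nat_lit 0, nat_lit 244)])],
 ⟨p114_k31, nat_lit 0, nat_lit 0, nat_lit 130, nat_lit 0, nat_lit 0, [nat_lit 899838400, nat_lit 3923108800, nat_lit 6516590400], [], [nat_lit 24594938520, nat_lit 24716203490, nat_lit 26434380407, nat_lit 26563820730, nat_lit 24954547522, nat_lit 25082246700, nat_lit 26663458515, nat_lit 26781643565], nat_lit 0, nat_lit 0, nat_lit 0, nat_lit 0, nat_lit 0, nat_lit 0, [], [nat_lit 57, nat_lit 40, nat_lit 40, nat_lit 80, nat_lit 7, nat_lit 249, nat_lit 40, nat_lit 7]⟩, ⟨p114_k15, nat_lit 0, nat_lit 0, nat_lit 259, nat_lit 0, nat_lit 279589, [nat_lit 3544128000, nat_lit 7440552000, nat_lit 10627848000], [], [nat_lit 22351357487, nat_lit 22564422431, nat_lit 23490868167,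 nat_lit 23675276031, nat_lit 26048707705, nat_lit 26176530107, nat_lit 26893348463, nat_lit 27049290909], nat_lit 1271250, nat_lit 1271250, nat_lit 1271250, nat_lit 1271250, nat_lit 1100001, nat_lit 2812500, [nat_lit 1100000, nat_lit 2127500, nat_lit 1271250], [nat_lit 56, nat_lit 40, nat_lit 40, nat_lit 80, nat_lit 32, nat_lit 483, nat_lit 250, nat_lit 10]⟩,
 ⟨nat_lit 1936, nat_lit 2062, ⟨.ofNat (nat_lit 669976), .ofNat (nat_lit 726327), .ofNat (nat_lit 681431), .ofNat (nat_lit 737782), .ofNat (nat_lit 669304), .ofNat (nat_lit 725193), .ofNat (nat_lit 680809), .ofNat (nat_lit 736698)⟩, ⟨.ofNat (nat_lit 200000), .ofNat (nat_lit 329098), .ofNat (nat_lit 200000), .ofNat (nat_lit 352008), .ofNat (nat_lit 200000), .ofNat (nat_lit 329055), .ofNat (nat_lit 200000), .ofNat (nat_lit 352066)⟩⟩, [⟨nat_lit 7, nat_lit 71, nat_lit 100, nat_lit 93, nat_lit 281147600⟩]⟩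
noncomputable def p114_l88 : Lf2 := ⟨nat_lit 0, nat_lit 30, [nat_lit 15, nat_lit 5, nat_lit 5, nat_lit 20], false, nat_lit 80, nat_lit 120, nat_lit 160, nat_lit 336, ⟨nat_lit 140, nat_lit 860, nat_lit 0, nat_lit 7, nat_lit 278, nat_lit 860, nat_lit 97, nat_lit 0, nat_lit 0, nat_lit 0, nat_lit 0, nat_lit 0, nat_lit 42059400, nat_lit 20953818, nat_lit 3986782, nat_lit 4352586, true, true⟩,
 nat_lit 0, nat_lit 0, nat_lit 2776, nat_lit 0, nat_lit 2661, nat_lit 1469, nat_lit 172, nat_lit 0, nat_lit 0, nat_lit 95, nat_lit 0, nat_lit 0, nat_lit 0, nat_lit 0, nat_lit 0, nat_lit 215000, nat_lit 0, nat_lit 0, [(nat_lit 29, [(nat_lit 0, nat_lit 860)])],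
 ⟨p114_k17, nat_lit 0, nat_lit 0, nat_lit 114, nat_lit 0, nat_lit 0, [nat_lit 803496001, nat_lit 1840024000, nat_lit 2411304000], [], [nat_lit 24597683285, nat_lit 24866543558, nat_lit 26070914800, nat_lit 26319083187, nat_lit 24895706118, nat_lit 25153128301, nat_lit 26310795542, nat_lit 26548752261], nat_lit 0, nat_lit 0, nat_lit 0, nat_lit 0, nat_lit 0, nat_lit 0, [], [nat_lit 55, nat_lit 40, nat_lit 40, nat_lit 80, nat_lit 3, nat_lit 238, nat_lit 30, nat_lit 7]⟩, ⟨p114_k18, nat_lit 0, nat_lit 0, nat_lit 515, nat_lit 0, nat_lit 654036, [nat_lit 656320000, nat_lit 1377880000, nat_lit 2296000000], [], [nat_lit 4230698585, nat_lit 4269129661, nat_lit 4382868373, nat_lit 4410075741, nat_lit 4509677778, nat_lit 4541366396, nat_lit 4654229707, nat_lit 4674486536], nat_lit 1271250, nat_lit 1271250, nat_lit 1271250, nat_lit 1271250, nat_lit 1100001, nat_lit 2607000, [nat_lit 1100000, nat_lit 2127500, nat_lit 1271250], [nat_lit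 83, nat_lit 40, nat_lit 40, nat_lit 80, nat_lit 73, nat_lit 483, nat_lit 250, nat_lit 9]⟩,
 ⟨nat_lit 1581, nat_lit 1937, ⟨.ofNat (nat_lit 657798), .ofNat (nat_lit 713688), .ofNat (nat_lit 680809), .ofNat (nat_lit 736698), .ofNat (nat_lit 655900), .ofNat (nat_lit 710536), .ofNat (nat_lit 679215), .ofNat (nat_lit 733851)⟩, ⟨.ofNat (nat_lit 200000), .ofNat (nat_lit 273166), .ofNat (nat_lit 200000), .ofNat (nat_lit 296177), .ofNat (nat_lit 200000), .ofNat (nat_lit 274152), .ofNat (nat_lit 200000), .ofNat (nat_lit 297467)⟩⟩, [⟨nat_lit 13, nat_lit 36, nat_lit 85, nat_lit 100, nat_lit 182553621⟩, ⟨nat_lit 22, nat_lit 100, nat_lit 100, nat_lit 100, nat_lit 39544835⟩]⟩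
noncomputable def p114_l89 : Lf2 := ⟨nat_lit 0, nat_lit 30, [nat_lit 15, nat_lit 5, nat_lit 5, nat_lit 20], false, nat_lit 120, nat_lit 140, nat_lit 160, nat_lit 352, ⟨nat_lit 146, nat_lit 854, nat_lit 0, nat_lit 7, nat_lit 276, nat_lit 854, nat_lit 120, nat_lit 0, nat_lit 0, nat_lit 0, nat_lit 0, nat_lit 0, nat_lit 41199925, nat_lit 20379162, nat_lit 5420913, nat_lit 4600808, true, true⟩,
 nat_lit 0, nat_lit 0, nat_lit 2945, nat_lit 0, nat_lit 2743, nat_lit 1559, nat_lit 169, nat_lit 0, nat_lit 0, nat_lit 102, nat_lit 0, nat_lit 0, nat_lit 0, nat_lit 0, nat_lit 0, nat_lit 213500, nat_lit 0, nat_lit 0, [(nat_lit 29, [(nat_lit 0, nat_lit 854)])],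
 ⟨p114_k17, nat_lit 0, nat_lit 0, nat_lit 99, nat_lit 0, nat_lit 0, [nat_lit 804434400, nat_lit 1859893600, nat_lit 2438085600], [], [nat_lit 24908280699, nat_lit 25168793319, nat_lit 26344859002, nat_lit 26606398220, nat_lit 25049947693, nat_lit 25304631583, nat_lit 26445933848, nat_lit 26685895832], nat_lit 0, nat_lit 0, nat_lit 0, nat_lit 0, nat_lit 0, nat_lit 0, [], [nat_lit 55, nat_lit 40, nat_lit 40, nat_lit 80, nat_lit 3, nat_lit 249, nat_lit 40, nat_lit 8]⟩, ⟨p114_k18, nat_lit 0, nat_lit 0, nat_lit 494, nat_lit 0, nat_lit 598899, [nat_lit 684448000, nat_lit 1436932000, nat_lit 2394400000], [], [nat_lit 4319215910, nat_lit 4339077624, nat_lit 4478463586, nat_lit 4500650868, nat_lit 4754625221, nat_lit 4767917705, nat_lit 4892200841, nat_lit 4903465048], nat_lit 1271250, nat_lit 1271250, nat_lit 1271250, nat_lit 1271250, nat_lit 1100001, nat_lit 2744000, [nat_lit 1100000, nat_lit 2127500, nat_lit 1271250], [nat_lit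 83, nat_lit 40, nat_lit 40, nat_lit 80, nat_lit 73, nat_lit 483, nat_lit 250, nat_lit 9]⟩,
 ⟨nat_lit 1581, nat_lit 1937, ⟨.ofNat (nat_lit 657798), .ofNat (nat_lit 713688), .ofNat (nat_lit 669304), .ofNat (nat_lit 725193), .ofNat (nat_lit 655900), .ofNat (nat_lit 710536), .ofNat (nat_lit 667558), .ofNat (nat_lit 722193)⟩, ⟨.ofNat (nat_lit 273166), .ofNat (nat_lit 301111), .ofNat (nat_lit 296177), .ofNat (nat_lit 324121), .ofNat (nat_lit 274152), .ofNat (nat_lit 301470), .ofNat (nat_lit 297467), .ofNat (nat_lit 324785)⟩⟩, [⟨nat_lit 13, nat_lit 39, nat_lit 83, nat_lit 100, nat_lit 220029041⟩, ⟨nat_lit 22, nat_lit 92, nat_lit 82, nat_lit 100, nat_lit 48288443⟩]⟩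
noncomputable def p114_l90 : Lf2 := ⟨nat_lit 0, nat_lit 30, [nat_lit 15, nat_lit 5, nat_lit 5, nat_lit 20], false, nat_lit 120, nat_lit 140, nat_lit 160, nat_lit 352, ⟨nat_lit 172, nat_lit 828, nat_lit 0, nat_lit 7, nat_lit 281, nat_lit 828, nat_lit 120, nat_lit 0, nat_lit 0, nat_lit 0, nat_lit 0, nat_lit 0, nat_lit 40793854, nat_lit 20818391, nat_lit 5387755, nat_lit 4618587, true, true⟩,
 nat_lit 0, nat_lit 0, nat_lit 2843, nat_lit 0, nat_lit 2742, nat_lit 1579, nat_lit 179, nat_lit 0, nat_lit 0, nat_lit 92, nat_lit 0, nat_lit 0, nat_lit 0, nat_lit 0, nat_lit 0, nat_lit 207000, nat_lit 0, nat_lit 0, [(nat_lit 29, [(nat_lit 0, nat_lit 828)])],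
 ⟨p114_k17, nat_lit 0, nat_lit 0, nat_lit 99, nat_lit 0, nat_lit 0, [nat_lit 808500800, nat_lit 1945995201, nat_lit 2554139200], [], [nat_lit 24905039058, nat_lit 25165513989, nat_lit 26336952240, nat_lit 26604990483, nat_lit 25046795618, nat_lit 25301443157, nat_lit 26442660215, nat_lit 26683408191], nat_lit 0, nat_lit 0, nat_lit 0, nat_lit 0, nat_lit 0, nat_lit 0, [], [nat_lit 55, nat_lit 40, nat_lit 40, nat_lit 80, nat_lit 3, nat_lit 249, nat_lit 40, nat_lit 8]⟩, ⟨p114_k15, nat_lit 0, nat_lit 0, nat_lit 445, nat_lit 0, nat_lit 607774, [nat_lit 806336000, nat_lit 1692824000, nat_lit 2417976000], [], [nat_lit 5536477907, nat_lit 5570586930, nat_lit 5752150650, nat_lit 5779305100, nat_lit 5947675157, nat_lit 5957065499, nat_lit 6051052327, nat_lit 6057827754], nat_lit 1271250, nat_lit 1271250, nat_lit 1271250, nat_lit 1271250, nat_lit 1100001, nat_lit 2744000, [nat_lit 1100000, nat_lit 2127500, nat_lit 1271250], [nat_lit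 56, nat_lit 40, nat_lit 40, nat_lit 80, nat_lit 32, nat_lit 483, nat_lit 250, nat_lit 10]⟩,
 ⟨nat_lit 1581, nat_lit 1937, ⟨.ofNat (nat_lit 669304), .ofNat (nat_lit 725193), .ofNat (nat_lit 680809), .ofNat (nat_lit 736698), .ofNat (nat_lit 667558), .ofNat (nat_lit 722193), .ofNat (nat_lit 679215), .ofNat (nat_lit 733851)⟩, ⟨.ofNat (nat_lit 273166), .ofNat (nat_lit 301111), .ofNat (nat_lit 296177), .ofNat (nat_lit 324121), .ofNat (nat_lit 274152), .ofNat (nat_lit 301470), .ofNat (nat_lit 297467), .ofNat (nat_lit 324785)⟩⟩, [⟨nat_lit 13, nat_lit 32, nat_lit 87, nat_lit 100, nat_lit 216623369⟩, ⟨nat_lit 22, nat_lit 92, nat_lit 82, nat_lit 100, nat_lit 51339270⟩]⟩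
noncomputable def p114_l91 : Lf2 := ⟨nat_lit 0, nat_lit 30, [nat_lit 15, nat_lit 5, nat_lit 5, nat_lit 20], false, nat_lit 140, nat_lit 160, nat_lit 160, nat_lit 364, ⟨nat_lit 104, nat_lit 896, nat_lit 0, nat_lit 7, nat_lit 278, nat_lit 896, nat_lit 131, nat_lit 0, nat_lit 0, nat_lit 0, nat_lit 0, nat_lit 0, nat_lit 40451540, nat_lit 20410025, nat_lit 6138435, nat_lit 4726951, true, true⟩,
 nat_lit 0, nat_lit 0, nat_lit 2032, nat_lit 0, nat_lit 3365, nat_lit 1075, nat_lit 0, nat_lit 0, nat_lit 0, nat_lit 70, nat_lit 0, nat_lit 0, nat_lit 0, nat_lit 0, nat_lit 0, nat_lit 224000, nat_lit 0, nat_lit 0, [(nat_lit 29, [(nat_lit 0, nat_lit 896)])],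
 ⟨p114_k17, nat_lit 0, nat_lit 0, nat_lit 80, nat_lit 0, nat_lit 0, [nat_lit 797865601, nat_lit 1720806400, nat_lit 2250614400], [], [nat_lit 25592093839, nat_lit 25892543599, nat_lit 27176188654, nat_lit 27488372629, nat_lit 25678138653, nat_lit 25971246255, nat_lit 27226220753, nat_lit 27495329515], nat_lit 0, nat_lit 0, nat_lit 0, nat_lit 0, nat_lit 0, nat_lit 0, [], [nat_lit 55, nat_lit 40, nat_lit 40, nat_lit 80, nat_lit 3, nat_lit 249, nat_lit 40, nat_lit 7]⟩, ⟨p114_k18, nat_lit 0, nat_lit 0, nat_lit 515, nat_lit 0, nat_lit 654036, [nat_lit 487552000, nat_lit 1023568000, nat_lit 1705600000], [], [nat_lit 3178224150, nat_lit 3206986178, nat_lit 3290930122, nat_lit 3311460730, nat_lit 3506502240, nat_lit 3527115825, nat_lit 3598772092, nat_lit 3611985261], nat_lit 1271250, nat_lit 1271250, nat_lit 1271250, nat_lit 1271250, nat_lit 1100001, nat_lit 2846750, [nat_lit 1100000, nat_lit 2127500, nat_lit 1271250], [nat_lit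 83, nat_lit 40, nat_lit 40, nat_lit 80, nat_lit 73, nat_lit 483, nat_lit 250, nat_lit 9]⟩,
 ⟨nat_lit 1581, nat_lit 1937, ⟨.ofNat (nat_lit 657798), .ofNat (nat_lit 713688), .ofNat (nat_lit 680809), .ofNat (nat_lit 736698), .ofNat (nat_lit 655900), .ofNat (nat_lit 710536), .ofNat (nat_lit 679215), .ofNat (nat_lit 733851)⟩, ⟨.ofNat (nat_lit 301111), .ofNat (nat_lit 329055), .ofNat (nat_lit 324121), .ofNat (nat_lit 352066), .ofNat (nat_lit 301470), .ofNat (nat_lit 328788), .ofNat (nat_lit 324785), .ofNat (nat_lit 352103)⟩⟩, [⟨nat_lit 13, nat_lit 36, nat_lit 85, nat_lit 100, nat_lit 161862807⟩, ⟨nat_lit 22, nat_lit 89, nat_lit 72, nat_lit 100, nat_lit 35503337⟩]⟩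
noncomputable def p114_l92 : Lf2 := ⟨nat_lit 0, nat_lit 30, [nat_lit 15, nat_lit 5, nat_lit 5, nat_lit 20], false, nat_lit 80, nat_lit 160, nat_lit 0, nat_lit 160, ⟨nat_lit 222, nat_lit 778, nat_lit 0, nat_lit 7, nat_lit 289, nat_lit 778, nat_lit 108, nat_lit 0, nat_lit 0, nat_lit 0, nat_lit 0, nat_lit 0, nat_lit 40646212, nat_lit 21749888, nat_lit 4603900, nat_lit 4518910, true, true⟩,
 nat_lit 0, nat_lit 0, nat_lit 3518, nat_lit 0, nat_lit 2564, nat_lit 2047, nat_lit 289, nat_lit 0, nat_lit 0, nat_lit 132, nat_lit 0, nat_lit 0, nat_lit 0, nat_lit 0, nat_lit 0, nat_lit 194500, nat_lit 0, nat_lit 0, [(nat_lit 29, [(nat_lit 0, nat_lit 778)])],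
 ⟨p114_k14, nat_lit 0, nat_lit 0, nat_lit 130, nat_lit 0, nat_lit 0, [nat_lit 816320801, nat_lit 2249125600, nat_lit 3443781867], [], [nat_lit 24178022394, nat_lit 24426908476, nat_lit 25568004162, nat_lit 25854313672, nat_lit 24759199146, nat_lit 24987528484, nat_lit 26041739434, nat_lit 26276622525], nat_lit 0, nat_lit 0, nat_lit 0, nat_lit 0, nat_lit 0, nat_lit 0, [], [nat_lit 57, nat_lit 40, nat_lit 40, nat_lit 80, nat_lit 7, nat_lit 249, nat_lit 40, nat_lit 7]⟩, ⟨p114_k19, nat_lit 0, nat_lit 0, nat_lit 582, nat_lit 0, nat_lit 591805, [nat_lit 1040736000, nat_lit 2184924000, nat_lit 3120876000], [], [nat_lit 8662563820, nat_lit 8713383524, nat_lit 8848299806, nat_lit 8889118468, nat_lit 7008557044, nat_lit 7074148612, nat_lit 7219105210, nat_lit 7269825700], nat_lit 1271250, nat_lit 1271250, nat_lit 1271250, nat_lit 1271250, nat_lit 0, nat_lit 1100001, [nat_lit 1100000, nat_lit 2127500, nat_lit 1271250], [nat_lit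 56, nat_lit 40, nat_lit 40, nat_lit 80, nat_lit 32, nat_lit 428, nat_lit 200, nat_lit 10]⟩,
 ⟨nat_lit 1936, nat_lit 2237, ⟨.ofNat (nat_lit 682352), .ofNat (nat_lit 739368), .ofNat (nat_lit 705125), .ofNat (nat_lit 762142), .ofNat (nat_lit 680809), .ofNat (nat_lit 736698), .ofNat (nat_lit 703818), .ofNat (nat_lit 759709)⟩, ⟨.ofNat (nat_lit 200000), .ofNat (nat_lit 329112), .ofNat (nat_lit 200000), .ofNat (nat_lit 351886), .ofNat (nat_lit 200000), .ofNat (nat_lit 329055), .ofNat (nat_lit 200000), .ofNat (nat_lit 352066)⟩⟩, [⟨nat_lit 9, nat_lit 100, nat_lit 88, nat_lit 32, nat_lit 20328415⟩]⟩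
noncomputable def p114_l93 : Lf2 := ⟨nat_lit 0, nat_lit 25, [nat_lit 44, nat_lit 5, nat_lit 5, nat_lit 20], false, nat_lit 80, nat_lit 160, nat_lit 160, nat_lit 352, ⟨nat_lit 218, nat_lit 782, nat_lit 0, nat_lit 7, nat_lit 289, nat_lit 782, nat_lit 108, nat_lit 0, nat_lit 0, nat_lit 0, nat_lit 0, nat_lit 0, nat_lit 40631958, nat_lit 21765202, nat_lit 4602840, nat_lit 4519449, true, true⟩,
 nat_lit 0, nat_lit 0, nat_lit 2662, nat_lit 0, nat_lit 3672, nat_lit 1549, nat_lit 0, nat_lit 0, nat_lit 0, nat_lit 192, nat_lit 0, nat_lit 0, nat_lit 0, nat_lit 0, nat_lit 0, nat_lit 304850, nat_lit 0, nat_lit 0, [(nat_lit 29, [(nat_lit 0, nat_lit 53), (nat_lit 1, nat_lit 729)])],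
 ⟨p114_k0, nat_lit 0, nat_lit 0, nat_lit 109, nat_lit 0, nat_lit 0, [nat_lit 755042400, nat_lit 1012942000, nat_lit 1525705200], [], [nat_lit 25521649472, nat_lit 25711432907, nat_lit 27261415824, nat_lit 27474733664, nat_lit 25724075984, nat_lit 25896498618, nat_lit 27243010048, nat_lit 27403171688], nat_lit 0, nat_lit 0, nat_lit 0, nat_lit 0, nat_lit 0, nat_lit 0, [], [nat_lit 20, nat_lit 40, nat_lit 40, nat_lit 80, nat_lit 16, nat_lit 249, nat_lit 40, nat_lit 8]⟩, ⟨p114_k3, nat_lit 0, nat_lit 0, nat_lit 409, nat_lit 0, nat_lit 536309, [nat_lit 1021984000, nat_lit 1737024000, nat_lit 3064644000], [], [nat_lit 6345557406, nat_lit 6447027580, nat_lit 6624008698, nat_lit 6709939840, nat_lit 7020083311, nat_lit 7066188260, nat_lit 7175836020, nat_lit 7214849181], nat_lit 1271250, nat_lit 1271250, nat_lit 1271250, nat_lit 1271250, nat_lit 1100001, nat_lit 2744000, [nat_lit 1100000, nat_lit 1785000, nat_lit 1271250], [nat_lit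 37, nat_lit 40, nat_lit 40, nat_lit 80, nat_lit 28, nat_lit 483, nat_lit 250, nat_lit 10]⟩,
 ⟨nat_lit 2061, nat_lit 2237, ⟨.ofNat (nat_lit 682352), .ofNat (nat_lit 739368), .ofNat (nat_lit 705126), .ofNat (nat_lit 762142), .ofNat (nat_lit 681431), .ofNat (nat_lit 737782), .ofNat (nat_lit 704340), .ofNat (nat_lit 760692)⟩, ⟨.ofNat (nat_lit 200000), .ofNat (nat_lit 329112), .ofNat (nat_lit 200000), .ofNat (nat_lit 351886), .ofNat (nat_lit 200000), .ofNat (nat_lit 329098), .ofNat (nat_lit 200000), .ofNat (nat_lit 352008)⟩⟩, [⟨nat_lit 19, nat_lit 100, nat_lit 78, nat_lit 95, nat_lit 67172459⟩]⟩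
noncomputable def p114_l94 : Lf2 := ⟨nat_lit 0, nat_lit 25, [nat_lit 44, nat_lit 5, nat_lit 5, nat_lit 20], false, nat_lit 80, nat_lit 160, nat_lit 160, nat_lit 352, ⟨nat_lit 261, nat_lit 739, nat_lit 0, nat_lit 7, nat_lit 288, nat_lit 739, nat_lit 108, nat_lit 0, nat_lit 0, nat_lit 0, nat_lit 0, nat_lit 0, nat_lit 40667058, nat_lit 21727213, nat_lit 4605729, nat_lit 4518160, true, true⟩,
 nat_lit 0, nat_lit 0, nat_lit 3182, nat_lit 0, nat_lit 2806, nat_lit 1852, nat_lit 220, nat_lit 0, nat_lit 0, nat_lit 229, nat_lit 0, nat_lit 0, nat_lit 0, nat_lit 0, nat_lit 0, nat_lit 184750, nat_lit 0, nat_lit 0, [(nat_lit 29, [(nat_lit 0, nat_lit 739)])],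
 ⟨p114_k32, nat_lit 0, nat_lit 0, nat_lit 110, nat_lit 0, nat_lit 0, [nat_lit 822420400, nat_lit 1629596000, nat_lit 2951399600], [], [nat_lit 24549252118, nat_lit 24661427558, nat_lit 26113788164, nat_lit 26239292838, nat_lit 25080900863, nat_lit 25181325254, nat_lit 26462138262, nat_lit 26555003049], nat_lit 0, nat_lit 0, nat_lit 0, nat_lit 0, nat_lit 0, nat_lit 0, [], [nat_lit 20, nat_lit 40, nat_lit 40, nat_lit 80, nat_lit 16, nat_lit 249, nat_lit 40, nat_lit 8]⟩, ⟨p114_k3, nat_lit 0, nat_lit 0, nat_lit 422, nat_lit 0, nat_lit 570573, [nat_lit 1223568000, nat_lit 2079648000, nat_lit 3669138000], [], [nat_lit 7612822328, nat_lit 7734297992, nat_lit 7946068878, nat_lit 8048961100, nat_lit 8420698985, nat_lit 8475960577, nat_lit 8607205942, nat_lit 8649876037], nat_lit 1271250, nat_lit 1271250, nat_lit 1271250, nat_lit 1271250, nat_lit 1100001, nat_lit 2744000, [nat_lit 1100000, nat_lit 1785000, nat_lit 1271250], [nat_lit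 37, nat_lit 40, nat_lit 40, nat_lit 80, nat_lit 28, nat_lit 483, nat_lit 250, nat_lit 10]⟩,
 ⟨nat_lit 1936, nat_lit 2062, ⟨.ofNat (nat_lit 681431), .ofNat (nat_lit 737782), .ofNat (nat_lit 704340), .ofNat (nat_lit 760692), .ofNat (nat_lit 680809), .ofNat (nat_lit 736698), .ofNat (nat_lit 703820), .ofNat (nat_lit 759709)⟩, ⟨.ofNat (nat_lit 200000), .ofNat (nat_lit 329098), .ofNat (nat_lit 200000), .ofNat (nat_lit 352008), .ofNat (nat_lit 200000), .ofNat (nat_lit 329055), .ofNat (nat_lit 200000), .ofNat (nat_lit 352066)⟩⟩, [⟨nat_lit 7, nat_lit 78, nat_lit 100, nat_lit 95, nat_lit 80305137⟩]⟩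
noncomputable def p114_l95 : Lf2 := ⟨nat_lit 0, nat_lit 30, [nat_lit 15, nat_lit 5, nat_lit 5, nat_lit 20], false, nat_lit 80, nat_lit 160, nat_lit 160, nat_lit 352, ⟨nat_lit 740, nat_lit 260, nat_lit 0, nat_lit 7, nat_lit 289, nat_lit 260, nat_lit 108, nat_lit 0, nat_lit 0, nat_lit 0, nat_lit 0, nat_lit 0, nat_lit 40646212, nat_lit 21749888, nat_lit 4603900, nat_lit 4518910, true, true⟩,
 nat_lit 0, nat_lit 0, nat_lit 7559, nat_lit 0, nat_lit 3004, nat_lit 4399, nat_lit 465, nat_lit 0, nat_lit 0, nat_lit 452, nat_lit 0, nat_lit 0, nat_lit 0, nat_lit 0, nat_lit 0, nat_lit 65000, nat_lit 0, nat_lit 0, [(nat_lit 29, [(nat_lit 0, nat_lit 260)])],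
 ⟨p114_k14, nat_lit 0, nat_lit 0, nat_lit 130, nat_lit 0, nat_lit 0, [nat_lit 897336000, nat_lit 3872952000, nat_lit 6421416000], [], [nat_lit 24409619374, nat_lit 24707855696, nat_lit 26230964368, nat_lit 26554275792, nat_lit 24788625358, nat_lit 25076462580, nat_lit 26479628376, nat_lit 26774838026], nat_lit 0, nat_lit 0, nat_lit 0, nat_lit 0, nat_lit 0, nat_lit 0, [], [nat_lit 57, nat_lit 40, nat_lit 40, nat_lit 80, nat_lit 7, nat_lit 249, nat_lit 40, nat_lit 7]⟩, ⟨p114_k19, nat_lit 0, nat_lit 0, nat_lit 300, nat_lit 0, nat_lit 375527, [nat_lit 3469120000, nat_lit 7283080000, nat_lit 10402920000], [], [nat_lit 22367707528, nat_lit 22779395944, nat_lit 23428042836, nat_lit 23786891240, nat_lit 25307905826, nat_lit 25531892655, nat_lit 26056042779, nat_lit 26324742789], nat_lit 1271250, nat_lit 1271250, nat_lit 1271250, nat_lit 1271250, nat_lit 1100001, nat_lit 2744000, [nat_lit 1100000, nat_lit 2127500, nat_lit 1271250],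 [nat_lit 56, nat_lit 40, nat_lit 40, nat_lit 80, nat_lit 32, nat_lit 483, nat_lit 250, nat_lit 10]⟩,
 ⟨nat_lit 1936, nat_lit 2237, ⟨.ofNat (nat_lit 682352), .ofNat (nat_lit 739368), .ofNat (nat_lit 705125), .ofNat (nat_lit 762142), .ofNat (nat_lit 680809), .ofNat (nat_lit 736698), .ofNat (nat_lit 703818), .ofNat (nat_lit 759709)⟩, ⟨.ofNat (nat_lit 200000), .ofNat (nat_lit 329112), .ofNat (nat_lit 200000), .ofNat (nat_lit 351886), .ofNat (nat_lit 200000), .ofNat (nat_lit 329055), .ofNat (nat_lit 200000), .ofNat (nat_lit 352066)⟩⟩, [⟨nat_lit 19, nat_lit 100, nat_lit 78, nat_lit 95, nat_lit 250497142⟩]⟩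
noncomputable def p114_l96 : Lf2 := ⟨nat_lit 0, nat_lit 30, [nat_lit 15, nat_lit 5, nat_lit 5, nat_lit 20], false, nat_lit 80, nat_lit 160, nat_lit 0, nat_lit 160, ⟨nat_lit 185, nat_lit 815, nat_lit 0, nat_lit 7, nat_lit 288, nat_lit 815, nat_lit 108, nat_lit 0, nat_lit 0, nat_lit 0, nat_lit 0, nat_lit 0, nat_lit 40718678, nat_lit 21672642, nat_lit 4608680, nat_lit 4516060, true, true⟩,
 nat_lit 0, nat_lit 0, nat_lit 2933, nat_lit 0, nat_lit 2770, nat_lit 1707, nat_lit 182, nat_lit 0, nat_lit 0, nat_lit 110, nat_lit 0, nat_lit 0, nat_lit 0, nat_lit 0, nat_lit 0, nat_lit 203750, nat_lit 0, nat_lit 0, [(nat_lit 29, [(nat_lit 0, nat_lit 815)])],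
 ⟨p114_k17, nat_lit 0, nat_lit 0, nat_lit 114, nat_lit 0, nat_lit 0, [nat_lit 810534000, nat_lit 1989046000, nat_lit 2612166000], [], [nat_lit 24650394110, nat_lit 24929341700, nat_lit 26182023210, nat_lit 26494048580, nat_lit 25188522430, nat_lit 25438322940, nat_lit 26558046455, nat_lit 26794765630], nat_lit 0, nat_lit 0, nat_lit 0, nat_lit 0, nat_lit 0, nat_lit 0, [], [nat_lit 55, nat_lit 40, nat_lit 40, nat_lit 80, nat_lit 3, nat_lit 249, nat_lit 40, nat_lit 8]⟩, ⟨p114_k19, nat_lit 0, nat_lit 0, nat_lit 616, nat_lit 0, nat_lit 680798, [nat_lit 867280000, nat_lit 1820770000, nat_lit 2600730000], [], [nat_lit 7216548964, nat_lit 7258877456, nat_lit 7371330224, nat_lit 7406955372, nat_lit 5836924644, nat_lit 5891571712, nat_lit 6012397640, nat_lit 6054645024], nat_lit 1271250, nat_lit 1271250, nat_lit 1271250, nat_lit 1271250, nat_lit 0, nat_lit 1100001, [nat_lit 1100000, nat_lit 2127500, nat_lit 1271250], [nat_lit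 56, nat_lit 40, nat_lit 40, nat_lit 80, nat_lit 32, nat_lit 428, nat_lit 200, nat_lit 10]⟩,
 ⟨nat_lit 1581, nat_lit 1937, ⟨.ofNat (nat_lit 680809), .ofNat (nat_lit 736698), .ofNat (nat_lit 703818), .ofNat (nat_lit 759709), .ofNat (nat_lit 679215), .ofNat (nat_lit 733851), .ofNat (nat_lit 702528), .ofNat (nat_lit 757166)⟩, ⟨.ofNat (nat_lit 200000), .ofNat (nat_lit 329055), .ofNat (nat_lit 200000), .ofNat (nat_lit 352066), .ofNat (nat_lit 200000), .ofNat (nat_lit 328788), .ofNat (nat_lit 200000), .ofNat (nat_lit 352103)⟩⟩, [⟨nat_lit 4, nat_lit 100, nat_lit 35, nat_lit 90, nat_lit 83696523⟩, ⟨nat_lit 9, nat_lit 100, nat_lit 88, nat_lit 32, nat_lit 16945275⟩]⟩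
noncomputable def p114_l97 : Lf2 := ⟨nat_lit 0, nat_lit 30, [nat_lit 15, nat_lit 5, nat_lit 5, nat_lit 20], false, nat_lit 80, nat_lit 120, nat_lit 160, nat_lit 336, ⟨nat_lit 302, nat_lit 698, nat_lit 0, nat_lit 7, nat_lit 288, nat_lit 698, nat_lit 97, nat_lit 0, nat_lit 0, nat_lit 0, nat_lit 0, nat_lit 0, nat_lit 41195893, nat_lit 21869346, nat_lit 3934761, nat_lit 4388811, true, true⟩,
 nat_lit 0, nat_lit 0, nat_lit 3830, nat_lit 0, nat_lit 2808, nat_lit 2229, nat_lit 223, nat_lit 0, nat_lit 0, nat_lit 281, nat_lit 0, nat_lit 0, nat_lit 0, nat_lit 0, nat_lit 0, nat_lit 174500, nat_lit 0, nat_lit 0, [(nat_lit 29, [(nat_lit 0, nat_lit 698)])],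
 ⟨p114_k10, nat_lit 0, nat_lit 0, nat_lit 111, nat_lit 0, nat_lit 0, [nat_lit 828832800, nat_lit 1721272001, nat_lit 3134407200], [], [nat_lit 24726285844, nat_lit 24894598706, nat_lit 26242474484, nat_lit 26430789373, nat_lit 24979232380, nat_lit 25137009794, nat_lit 26430329148, nat_lit 26578832559], nat_lit 0, nat_lit 0, nat_lit 0, nat_lit 0, nat_lit 0, nat_lit 0, [], [nat_lit 20, nat_lit 40, nat_lit 40, nat_lit 80, nat_lit 16, nat_lit 238, nat_lit 30, nat_lit 7]⟩, ⟨p114_k8, nat_lit 0, nat_lit 0, nat_lit 449, nat_lit 0, nat_lit 644931, [nat_lit 1415776000, nat_lit 2406336000, nat_lit 4245516000], [], [nat_lit 8453506606, nat_lit 8594379164, nat_lit 8843466466, nat_lit 8962136400, nat_lit 9223237469, nat_lit 9292597857, nat_lit 9512773722, nat_lit 9606522685], nat_lit 1271250, nat_lit 1271250, nat_lit 1271250, nat_lit 1271250, nat_lit 1100001, nat_lit 2607000, [nat_lit 1100000, nat_lit 1785000, nat_lit 1271250], [nat_lit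 37, nat_lit 40, nat_lit 40, nat_lit 80, nat_lit 28, nat_lit 483, nat_lit 250, nat_lit 10]⟩,
 ⟨nat_lit 1732, nat_lit 1937, ⟨.ofNat (nat_lit 680809), .ofNat (nat_lit 736698), .ofNat (nat_lit 703819), .ofNat (nat_lit 759709), .ofNat (nat_lit 679862), .ofNat (nat_lit 735019), .ofNat (nat_lit 703043), .ofNat (nat_lit 758202)⟩, ⟨.ofNat (nat_lit 200000), .ofNat (nat_lit 273166), .ofNat (nat_lit 200000), .ofNat (nat_lit 296177), .ofNat (nat_lit 200000), .ofNat (nat_lit 273770), .ofNat (nat_lit 200000), .ofNat (nat_lit 296953)⟩⟩, [⟨nat_lit 22, nat_lit 100, nat_lit 100, nat_lit 100, nat_lit 79854580⟩, ⟨nat_lit 10, nat_lit 77, nat_lit 91, nat_lit 100, nat_lit 8148710⟩]⟩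
noncomputable def p114_l98 : Lf2 := ⟨nat_lit 0, nat_lit 30, [nat_lit 15, nat_lit 5, nat_lit 5, nat_lit 20], false, nat_lit 80, nat_lit 120, nat_lit 160, nat_lit 336, ⟨nat_lit 274, nat_lit 726, nat_lit 0, nat_lit 7, nat_lit 287, nat_lit 726, nat_lit 97, nat_lit 0, nat_lit 0, nat_lit 0, nat_lit 0, nat_lit 0, nat_lit 41228677, nat_lit 21827612, nat_lit 3943711, nat_lit 4388649, true, true⟩,
 nat_lit 0, nat_lit 0, nat_lit 3491, nat_lit 0, nat_lit 2752, nat_lit 2032, nat_lit 208, nat_lit 0, nat_lit 0, nat_lit 219, nat_lit 0, nat_lit 0, nat_lit 0, nat_lit 0, nat_lit 0, nat_lit 181500, nat_lit 0, nat_lit 0, [(nat_lit 29, [(nat_lit 0, nat_lit 726)])],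
 ⟨p114_k11, nat_lit 0, nat_lit 0, nat_lit 112, nat_lit 0, nat_lit 0, [nat_lit 824453601, nat_lit 1658664001, nat_lit 3009426400], [], [nat_lit 24831643685, nat_lit 24942662920, nat_lit 26340082724, nat_lit 26464545608, nat_lit 25106356560, nat_lit 25210697285, nat_lit 26521124379, nat_lit 26619067848], nat_lit 0, nat_lit 0, nat_lit 0, nat_lit 0, nat_lit 0, nat_lit 0, [], [nat_lit 20, nat_lit 40, nat_lit 40, nat_lit 80, nat_lit 16, nat_lit 238, nat_lit 30, nat_lit 7]⟩, ⟨p114_k8, nat_lit 0, nat_lit 0, nat_lit 462, nat_lit 0, nat_lit 680798, [nat_lit 1284512000, nat_lit 2183232000, nat_lit 3851892000], [], [nat_lit 8596617328, nat_lit 8676684200, nat_lit 8837168324, nat_lit 8902350080, nat_lit 8972982555, nat_lit 9004191485, nat_lit 9105236297, nat_lit 9125630141], nat_lit 1271250, nat_lit 1271250, nat_lit 1271250, nat_lit 1271250, nat_lit 1100001, nat_lit 2607000, [nat_lit 1100000, nat_lit 1785000, nat_lit 1271250], [nat_lit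 37, nat_lit 40, nat_lit 40, nat_lit 80, nat_lit 28, nat_lit 483, nat_lit 250, nat_lit 10]⟩,
 ⟨nat_lit 1581, nat_lit 1733, ⟨.ofNat (nat_lit 679862), .ofNat (nat_lit 735019), .ofNat (nat_lit 703044), .ofNat (nat_lit 758202), .ofNat (nat_lit 679215), .ofNat (nat_lit 733851), .ofNat (nat_lit 702530), .ofNat (nat_lit 757166)⟩, ⟨.ofNat (nat_lit 200000), .ofNat (nat_lit 273770), .ofNat (nat_lit 200000), .ofNat (nat_lit 296953), .ofNat (nat_lit 200000), .ofNat (nat_lit 274152), .ofNat (nat_lit 200000), .ofNat (nat_lit 297467)⟩⟩, [⟨nat_lit 22, nat_lit 100, nat_lit 100, nat_lit 100, nat_lit 68790965⟩]⟩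
noncomputable def p114_l99 : Lf2 := ⟨nat_lit 0, nat_lit 30, [nat_lit 15, nat_lit 5, nat_lit 5, nat_lit 20], false, nat_lit 120, nat_lit 140, nat_lit 160, nat_lit 352, ⟨nat_lit 300, nat_lit 700, nat_lit 0, nat_lit 7, nat_lit 284, nat_lit 700, nat_lit 120, nat_lit 0, nat_lit 0, nat_lit 0, nat_lit 0, nat_lit 0, nat_lit 40490675, nat_lit 21146760, nat_lit 5362565, nat_lit 4631098, true, true⟩,
 nat_lit 0, nat_lit 0, nat_lit 3676, nat_lit 0, nat_lit 3083, nat_lit 2139, nat_lit 190, nat_lit 0, nat_lit 0, nat_lit 267, nat_lit 0, nat_lit 0, nat_lit 0, nat_lit 0, nat_lit 0, nat_lit 175000, nat_lit 0, nat_lit 0, [(nat_lit 29, [(nat_lit 0, nat_lit 700)])],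
 ⟨p114_k10, nat_lit 0, nat_lit 0, nat_lit 100, nat_lit 0, nat_lit 0, [nat_lit 828520001, nat_lit 1716800001, nat_lit 3125480000], [], [nat_lit 25320469240, nat_lit 25599523637, nat_lit 26810626567, nat_lit 27085028630, nat_lit 25419336750, nat_lit 25691962791, nat_lit 26877509906, nat_lit 27128545607], nat_lit 0, nat_lit 0, nat_lit 0, nat_lit 0, nat_lit 0, nat_lit 0, [], [nat_lit 20, nat_lit 40, nat_lit 40, nat_lit 80, nat_lit 16, nat_lit 249, nat_lit 40, nat_lit 8]⟩, ⟨p114_k8, nat_lit 0, nat_lit 0, nat_lit 430, nat_lit 0, nat_lit 592790, [nat_lit 1406400000, nat_lit 2390400000, nat_lit 4217400000], [], [nat_lit 8683884306, nat_lit 8718800483, nat_lit 9067446762, nat_lit 9097002002, nat_lit 9611255905, nat_lit 9627072401, nat_lit 9825500686, nat_lit 9837685153], nat_lit 1271250, nat_lit 1271250, nat_lit 1271250, nat_lit 1271250, nat_lit 1100001, nat_lit 2744000, [nat_lit 1100000, nat_lit 1785000, nat_lit 1271250], [nat_lit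 37, nat_lit 40, nat_lit 40, nat_lit 80, nat_lit 28, nat_lit 483, nat_lit 250, nat_lit 10]⟩,
 ⟨nat_lit 1581, nat_lit 1937, ⟨.ofNat (nat_lit 680809), .ofNat (nat_lit 736698), .ofNat (nat_lit 686562), .ofNat (nat_lit 742451), .ofNat (nat_lit 679215), .ofNat (nat_lit 733851), .ofNat (nat_lit 685044), .ofNat (nat_lit 739680)⟩, ⟨.ofNat (nat_lit 273166), .ofNat (nat_lit 301111), .ofNat (nat_lit 296177), .ofNat (nat_lit 324121), .ofNat (nat_lit 274152), .ofNat (nat_lit 301470), .ofNat (nat_lit 297467), .ofNat (nat_lit 324785)⟩⟩, [⟨nat_lit 22, nat_lit 92, nat_lit 82, nat_lit 100, nat_lit 96546876⟩]⟩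
noncomputable def p114_l100 : Lf2 := ⟨nat_lit 0, nat_lit 30, [nat_lit 15, nat_lit 5, nat_lit 5, nat_lit 20], false, nat_lit 120, nat_lit 140, nat_lit 160, nat_lit 348, ⟨nat_lit 323, nat_lit 677, nat_lit 0, nat_lit 7, nat_lit 287, nat_lit 677, nat_lit 120, nat_lit 0, nat_lit 0, nat_lit 0, nat_lit 0, nat_lit 0, nat_lit 40289232, nat_lit 21365141, nat_lit 5345627, nat_lit 4639053, true, true⟩,
 nat_lit 0, nat_lit 0, nat_lit 3821, nat_lit 0, nat_lit 3215, nat_lit 2275, nat_lit 183, nat_lit 0, nat_lit 0, nat_lit 303, nat_lit 0, nat_lit 0, nat_lit 0, nat_lit 0, nat_lit 0, nat_lit 169250, nat_lit 0, nat_lit 0, [(nat_lit 29, [(nat_lit 0, nat_lit 677)])],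
 ⟨p114_k10, nat_lit 0, nat_lit 0, nat_lit 100, nat_lit 0, nat_lit 0, [nat_lit 832117201, nat_lit 1768228000, nat_lit 3228142800], [], [nat_lit 25485653698, nat_lit 25769814185, nat_lit 26992932184, nat_lit 27270849848, nat_lit 25572084399, nat_lit 25849636053, nat_lit 27046559605, nat_lit 27301876082], nat_lit 0, nat_lit 0, nat_lit 0, nat_lit 0, nat_lit 0, nat_lit 0, [], [nat_lit 20, nat_lit 40, nat_lit 40, nat_lit 80, nat_lit 16, nat_lit 249, nat_lit 40, nat_lit 8]⟩, ⟨p114_k33, nat_lit 0, nat_lit 0, nat_lit 432, nat_lit 0, nat_lit 599688, [nat_lit 1514224000, nat_lit 2573664000, nat_lit 4540734000], [], [nat_lit 9013586175, nat_lit 9051153689, nat_lit 9419420842, nat_lit 9451273318, nat_lit 9954715732, nat_lit 9972402654, nat_lit 10280579919, nat_lit 10307270247], nat_lit 1271250, nat_lit 1271250, nat_lit 1271250, nat_lit 1271250, nat_lit 1100001, nat_lit 2709750, [nat_lit 1100000, nat_lit 1785000, nat_lit 1271250],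 [nat_lit 37, nat_lit 40, nat_lit 40, nat_lit 80, nat_lit 28, nat_lit 483, nat_lit 250, nat_lit 10]⟩,
 ⟨nat_lit 1581, nat_lit 1937, ⟨.ofNat (nat_lit 686562), .ofNat (nat_lit 742451), .ofNat (nat_lit 692315), .ofNat (nat_lit 748204), .ofNat (nat_lit 685044), .ofNat (nat_lit 739680), .ofNat (nat_lit 690873), .ofNat (nat_lit 745508)⟩, ⟨.ofNat (nat_lit 273166), .ofNat (nat_lit 301111), .ofNat (nat_lit 296177), .ofNat (nat_lit 324121), .ofNat (nat_lit 274152), .ofNat (nat_lit 301470), .ofNat (nat_lit 297467), .ofNat (nat_lit 324785)⟩⟩, [⟨nat_lit 22, nat_lit 92, nat_lit 82, nat_lit 100, nat_lit 105835442⟩]⟩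
noncomputable def p114_l101 : Lf2 := ⟨nat_lit 0, nat_lit 30, [nat_lit 15, nat_lit 5, nat_lit 5, nat_lit 20], false, nat_lit 120, nat_lit 140, nat_lit 160, nat_lit 344, ⟨nat_lit 407, nat_lit 593, nat_lit 0, nat_lit 7, nat_lit 290, nat_lit 593, nat_lit 120, nat_lit 0, nat_lit 0, nat_lit 0, nat_lit 0, nat_lit 0, nat_lit 39988147, nat_lit 21691838, nat_lit 5320015, nat_lit 4650411, true, true⟩,
 nat_lit 0, nat_lit 0, nat_lit 4410, nat_lit 0, nat_lit 2820, nat_lit 2685, nat_lit 260, nat_lit 0, nat_lit 0, nat_lit 366, nat_lit 0, nat_lit 0, nat_lit 0, nat_lit 0, nat_lit 0, nat_lit 148250, nat_lit 0, nat_lit 0, [(nat_lit 29, [(nat_lit 0, nat_lit 593)])],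
 ⟨p114_k10, nat_lit 0, nat_lit 0, nat_lit 100, nat_lit 0, nat_lit 0, [nat_lit 845254801, nat_lit 1956052000, nat_lit 3603085200], [], [nat_lit 25008047076, nat_lit 25271461691, nat_lit 26449906495, nat_lit 26714793930, nat_lit 25142817479, nat_lit 25400300366, nat_lit 26548163619, nat_lit 26786044926], nat_lit 0, nat_lit 0, nat_lit 0, nat_lit 0, nat_lit 0, nat_lit 0, [], [nat_lit 20, nat_lit 40, nat_lit 40, nat_lit 80, nat_lit 16, nat_lit 249, nat_lit 40, nat_lit 8]⟩, ⟨p114_k9, nat_lit 0, nat_lit 0, nat_lit 445, nat_lit 0, nat_lit 636283, [nat_lit 1908016000, nat_lit 3242976000, nat_lit 5721606000], [], [nat_lit 11803133602, nat_lit 11880433832, nat_lit 12216160780, nat_lit 12281970104, nat_lit 12797836133, nat_lit 12845746806, nat_lit 13091842698, nat_lit 13130293541], nat_lit 1271250, nat_lit 1271250, nat_lit 1271250, nat_lit 1271250, nat_lit 1100001, nat_lit 2675500, [nat_lit 1100000, nat_lit 1785000, nat_lit 1271250],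 [nat_lit 37, nat_lit 40, nat_lit 40, nat_lit 80, nat_lit 28, nat_lit 483, nat_lit 250, nat_lit 10]⟩,
 ⟨nat_lit 1581, nat_lit 1937, ⟨.ofNat (nat_lit 692315), .ofNat (nat_lit 748204), .ofNat (nat_lit 703818), .ofNat (nat_lit 759709), .ofNat (nat_lit 690873), .ofNat (nat_lit 745508), .ofNat (nat_lit 702528), .ofNat (nat_lit 757166)⟩, ⟨.ofNat (nat_lit 273166), .ofNat (nat_lit 301111), .ofNat (nat_lit 296177), .ofNat (nat_lit 324121), .ofNat (nat_lit 274152), .ofNat (nat_lit 301470), .ofNat (nat_lit 297467), .ofNat (nat_lit 324785)⟩⟩, [⟨nat_lit 19, nat_lit 100, nat_lit 81, nat_lit 96, nat_lit 80213108⟩, ⟨nat_lit 22, nat_lit 92, nat_lit 82, nat_lit 100, nat_lit 43287281⟩]⟩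
noncomputable def p114_l102 : Lf2 := ⟨nat_lit 0, nat_lit 30, [nat_lit 15, nat_lit 5, nat_lit 5, nat_lit 20], false, nat_lit 140, nat_lit 160, nat_lit 160, nat_lit 352, ⟨nat_lit 140, nat_lit 860, nat_lit 0, nat_lit 7, nat_lit 288, nat_lit 860, nat_lit 131, nat_lit 0, nat_lit 0, nat_lit 0, nat_lit 0, nat_lit 0, nat_lit 39665063, nat_lit 21273678, nat_lit 6061259, nat_lit 4758649, true, true⟩,
 nat_lit 0, nat_lit 0, nat_lit 2066, nat_lit 0, nat_lit 3457, nat_lit 1202, nat_lit 0, nat_lit 0, nat_lit 0, nat_lit 76, nat_lit 0, nat_lit 0, nat_lit 0, nat_lit 0, nat_lit 0, nat_lit 215000, nat_lit 0, nat_lit 0, [(nat_lit 29, [(nat_lit 0, nat_lit 860)])],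
 ⟨p114_k17, nat_lit 0, nat_lit 0, nat_lit 80, nat_lit 0, nat_lit 0, [nat_lit 803496001, nat_lit 1840024000, nat_lit 2411304000], [], [nat_lit 25693707664, nat_lit 25997919408, nat_lit 27290804207, nat_lit 27607243782, nat_lit 25771229955, nat_lit 26067963139, nat_lit 27331698935, nat_lit 27603962607], nat_lit 0, nat_lit 0, nat_lit 0, nat_lit 0, nat_lit 0, nat_lit 0, [], [nat_lit 55, nat_lit 40, nat_lit 40, nat_lit 80, nat_lit 3, nat_lit 249, nat_lit 40, nat_lit 7]⟩, ⟨p114_k19, nat_lit 0, nat_lit 0, nat_lit 474, nat_lit 0, nat_lit 680798, [nat_lit 656320000, nat_lit 1377880000, nat_lit 1968120000], [], [nat_lit 4500150804, nat_lit 4555953952, nat_lit 4667112728, nat_lit 4712212896, nat_lit 4829148589, nat_lit 4846866682, nat_lit 4911363155, nat_lit 4923640732], nat_lit 1271250, nat_lit 1271250, nat_lit 1271250, nat_lit 1271250, nat_lit 1100001, nat_lit 2744000, [nat_lit 1100000, nat_lit 2127500, nat_lit 1271250], [nat_lit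 56, nat_lit 40, nat_lit 40, nat_lit 80, nat_lit 32, nat_lit 483, nat_lit 250, nat_lit 10]⟩,
 ⟨nat_lit 1581, nat_lit 1937, ⟨.ofNat (nat_lit 680809), .ofNat (nat_lit 736698), .ofNat (nat_lit 703818), .ofNat (nat_lit 759709), .ofNat (nat_lit 679215), .ofNat (nat_lit 733851), .ofNat (nat_lit 702528), .ofNat (nat_lit 757166)⟩, ⟨.ofNat (nat_lit 301111), .ofNat (nat_lit 329055), .ofNat (nat_lit 324121), .ofNat (nat_lit 352066), .ofNat (nat_lit 301470), .ofNat (nat_lit 328788), .ofNat (nat_lit 324785), .ofNat (nat_lit 352103)⟩⟩, [⟨nat_lit 4, nat_lit 100, nat_lit 35, nat_lit 90, nat_lit 100079256⟩, ⟨nat_lit 19, nat_lit 100, nat_lit 78, nat_lit 95, nat_lit 39963066⟩]⟩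
noncomputable def b_V_900_600_20_44 : St := ⟨true, nat_lit 0, nat_lit 1, nat_lit 1, nat_lit 120, nat_lit 380, nat_lit 390, nat_lit 240, nat_lit 280, nat_lit 280, nat_lit 320, nat_lit 100, nat_lit 120, nat_lit 80, nat_lit 160, nat_lit 0, nat_lit 364, nat_lit 80, nat_lit 120, nat_lit 0, nat_lit 0, nat_lit 0, nat_lit 0⟩
theorem d_V_900_600_20_44 (h : EB TB.env) : Dead b_V_900_600_20_44 := chkB_sound0 h (T :=
(.spl (nat_lit 1) (nat_lit 260)
(.spl (nat_lit 5) (nat_lit 160)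
(.spl (nat_lit 0) (nat_lit 385)
(.leaf p114_l80)
(.leaf p114_l81))
(.spl (nat_lit 0) (nat_lit 385)
(.spl (nat_lit 6) (nat_lit 100)
(.leaf p114_l82)
(.spl (nat_lit 1) (nat_lit 250)
(.spl (nat_lit 6) (nat_lit 112)
(.leaf p114_l83)
(.spl (nat_lit 0) (nat_lit 383)
(.leaf p114_l84)
(.leaf p114_l85)))
(.trX (nat_lit 19) (nat_lit 100) (nat_lit 64) (nat_lit 95) (nat_lit 360) (.spl (nat_lit 0) (nat_lit 383)
(.leaf p114_l86)
(.leaf p114_l87)))))
(.spl (nat_lit 4) (nat_lit 120)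
(.trX (nat_lit 22) (nat_lit 100) (nat_lit 80) (nat_lit 100) (nat_lit 336) (.leaf p114_l88))
(.spl (nat_lit 4) (nat_lit 140)
(.trX (nat_lit 22) (nat_lit 96) (nat_lit 69) (nat_lit 100) (nat_lit 352) (.spl (nat_lit 1) (nat_lit 250)
(.leaf p114_l89)
(.leaf p114_l90)))
(.leaf p114_l91)))))
(.trX (nat_lit 19) (nat_lit 100) (nat_lit 69) (nat_lit 96) (nat_lit 352) (.spl (nat_lit 0) (nat_lit 385)
(.spl (nat_lit 5) (nat_lit 160)
(.leaf p114_l92)
(.spl (nat_lit 6) (nat_lit 100)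
(.spl (nat_lit 0) (nat_lit 383)
(.leaf p114_l93)
(.leaf p114_l94))
(.leaf p114_l95)))
(.spl (nat_lit 5) (nat_lit 160)
(.leaf p114_l96)
(.spl (nat_lit 4) (nat_lit 120)
(.trX (nat_lit 22) (nat_lit 100) (nat_lit 80) (nat_lit 100) (nat_lit 336) (.spl (nat_lit 0) (nat_lit 388)
(.leaf p114_l97)
(.leaf p114_l98)))
(.spl (nat_lit 4) (nat_lit 140)
(.spl (nat_lit 1) (nat_lit 270)
(.spl (nat_lit 1) (nat_lit 265)
(.leaf p114_l99)
(.trX (nat_lit 19) (nat_lit 100) (nat_lit 71) (nat_lit 97) (nat_lit 348) (.leaf p114_l100)))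
(.trX (nat_lit 19) (nat_lit 100) (nat_lit 74) (nat_lit 98) (nat_lit 344) (.leaf p114_l101)))
(.leaf p114_l102)))))))) (by decide +kernel)
noncomputable def p114_l103 : Lf2 := ⟨nat_lit 0, nat_lit 25, [nat_lit 44, nat_lit 5, nat_lit 5, nat_lit 20], true, nat_lit 80, nat_lit 160, nat_lit 0, nat_lit 352, ⟨nat_lit 0, nat_lit 1000, nat_lit 0, nat_lit 7, nat_lit 276, nat_lit 1000, nat_lit 103, nat_lit 0, nat_lit 0, nat_lit 0, nat_lit 0, nat_lit 0, nat_lit 41975047, nat_lit 20679142, nat_lit 4345811, nat_lit 4411925, true, true⟩,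
 nat_lit 0, nat_lit 0, nat_lit 0, nat_lit 3272, nat_lit 3036, nat_lit 0, nat_lit 0, nat_lit 0, nat_lit 0, nat_lit 0, nat_lit 0, nat_lit 0, nat_lit 0, nat_lit 0, nat_lit 0, nat_lit 250000, nat_lit 0, nat_lit 0, [(nat_lit 29, [(nat_lit 0, nat_lit 1000)])],
 ⟨p114_k2, nat_lit 0, nat_lit 0, nat_lit 102, nat_lit 0, nat_lit 0, [nat_lit 781600001, nat_lit 1046000001, nat_lit 1376400000], [], [nat_lit 25268633472, nat_lit 25883752880, nat_lit 26930036944, nat_lit 27579746576, nat_lit 25707304372, nat_lit 26267588784, nat_lit 27188774236, nat_lit 27704427296], nat_lit 0, nat_lit 0, nat_lit 0, nat_lit 0, nat_lit 0, nat_lit 0, [], [nat_lit 35, nat_lit 40, nat_lit 40, nat_lit 80, nat_lit 22, nat_lit 249, nat_lit 40, nat_lit 9]⟩, C1.Rw.none,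
 ⟨nat_lit 0, nat_lit 1582, ⟨.ofNat (nat_lit 655899), .ofNat (nat_lit 710533), .ofNat (nat_lit 679215), .ofNat (nat_lit 733849), .ofNat (nat_lit 649998), .ofNat (nat_lit 699996), .ofNat (nat_lit 674999), .ofNat (nat_lit 724997)⟩, ⟨.ofNat (nat_lit 196201), .ofNat (nat_lit 305469), .ofNat (nat_lit 200000), .ofNat (nat_lit 328785), .ofNat (nat_lit 199999), .ofNat (nat_lit 299995), .ofNat (nat_lit 200000), .ofNat (nat_lit 324996)⟩⟩, [⟨nat_lit 13, nat_lit 33, nat_lit 85, nat_lit 100, nat_lit 567580399⟩]⟩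
noncomputable def p114_l104 : Lf2 := ⟨nat_lit 0, nat_lit 25, [nat_lit 44, nat_lit 5, nat_lit 5, nat_lit 20], false, nat_lit 80, nat_lit 160, nat_lit 0, nat_lit 336, ⟨nat_lit 78, nat_lit 922, nat_lit 0, nat_lit 7, nat_lit 286, nat_lit 922, nat_lit 103, nat_lit 0, nat_lit 0, nat_lit 0, nat_lit 0, nat_lit 0, nat_lit 41097677, nat_lit 21611476, nat_lit 4290847, nat_lit 4449772, true, true⟩,
 nat_lit 0, nat_lit 0, nat_lit 1050, nat_lit 0, nat_lit 3059, nat_lit 611, nat_lit 0, nat_lit 0, nat_lit 0, nat_lit 61, nat_lit 0, nat_lit 0, nat_lit 0, nat_lit 0, nat_lit 0, nat_lit 230500, nat_lit 0, nat_lit 0, [(nat_lit 29, [(nat_lit 0, nat_lit 922)])],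
 ⟨p114_k2, nat_lit 0, nat_lit 0, nat_lit 102, nat_lit 0, nat_lit 0, [nat_lit 793799201, nat_lit 1220408001, nat_lit 1634704800], [], [nat_lit 25586974272, nat_lit 26147177020, nat_lit 27147167167, nat_lit 27713256512, nat_lit 26101755466, nat_lit 26600090806, nat_lit 27445052071, nat_lit 27961663424], nat_lit 0, nat_lit 0, nat_lit 0, nat_lit 0, nat_lit 0, nat_lit 0, [], [nat_lit 35, nat_lit 40, nat_lit 40, nat_lit 80, nat_lit 22, nat_lit 249, nat_lit 40, nat_lit 9]⟩, ⟨p114_k3, nat_lit 0, nat_lit 0, nat_lit 786, nat_lit 0, nat_lit 1061582, [nat_lit 365664000, nat_lit 621504000, nat_lit 1096524000], [], [nat_lit 2951014374, nat_lit 2958089260, nat_lit 2984047140, nat_lit 2988169232, nat_lit 2579943480, nat_lit 2581491713, nat_lit 2599399410, nat_lit 2598560796], nat_lit 1271250, nat_lit 1271250, nat_lit 1271250, nat_lit 1271250, nat_lit 0, nat_lit 2373000, [nat_lit 1100000, nat_lit 1785000, nat_lit 1271250], [nat_lit 37,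 nat_lit 40, nat_lit 40, nat_lit 80, nat_lit 28, nat_lit 483, nat_lit 250, nat_lit 11]⟩,
 ⟨nat_lit 0, nat_lit 1582, ⟨.ofNat (nat_lit 679215), .ofNat (nat_lit 733849), .ofNat (nat_lit 702515), .ofNat (nat_lit 757165), .ofNat (nat_lit 674999), .ofNat (nat_lit 724997), .ofNat (nat_lit 699984), .ofNat (nat_lit 749998)⟩, ⟨.ofNat (nat_lit 196201), .ofNat (nat_lit 305469), .ofNat (nat_lit 200000), .ofNat (nat_lit 328785), .ofNat (nat_lit 199999), .ofNat (nat_lit 299995), .ofNat (nat_lit 200000), .ofNat (nat_lit 324996)⟩⟩, [⟨nat_lit 13, nat_lit 24, nat_lit 89, nat_lit 100, nat_lit 255903061⟩, ⟨nat_lit 4, nat_lit 100, nat_lit 24, nat_lit 89, nat_lit 82118622⟩, ⟨nat_lit 7, nat_lit 86, nat_lit 100, nat_lit 89, nat_lit 10060236⟩]⟩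
noncomputable def b_V_900_600_20_45 : St := ⟨true, nat_lit 0, nat_lit 1, nat_lit 1, nat_lit 120, nat_lit 390, nat_lit 400, nat_lit 240, nat_lit 280, nat_lit 280, nat_lit 320, nat_lit 80, nat_lit 100, nat_lit 80, nat_lit 160, nat_lit 0, nat_lit 364, nat_lit 80, nat_lit 120, nat_lit 0, nat_lit 0, nat_lit 0, nat_lit 0⟩
theorem d_V_900_600_20_45 (h : EB TB.env) : Dead b_V_900_600_20_45 := chkB_sound0 h (T :=
(.trX (nat_lit 19) (nat_lit 100) (nat_lit 68) (nat_lit 88) (nat_lit 352) (.spl (nat_lit 1) (nat_lit 260)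
(.leaf p114_l103)
(.trX (nat_lit 19) (nat_lit 100) (nat_lit 77) (nat_lit 91) (nat_lit 336) (.leaf p114_l104))))) (by decide +kernel)
noncomputable def p114_l105 : Lf2 := ⟨nat_lit 0, nat_lit 30, [nat_lit 15, nat_lit 5, nat_lit 5, nat_lit 20], false, nat_lit 80, nat_lit 120, nat_lit 0, nat_lit 336, ⟨nat_lit 127, nat_lit 873, nat_lit 0, nat_lit 7, nat_lit 271, nat_lit 873, nat_lit 97, nat_lit 0, nat_lit 0, nat_lit 0, nat_lit 0, nat_lit 0, nat_lit 42741282, nat_lit 20216801, nat_lit 4041917, nat_lit 4322876, true, true⟩,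
 nat_lit 0, nat_lit 0, nat_lit 2633, nat_lit 0, nat_lit 2596, nat_lit 1393, nat_lit 162, nat_lit 0, nat_lit 0, nat_lit 92, nat_lit 0, nat_lit 0, nat_lit 0, nat_lit 0, nat_lit 0, nat_lit 218250, nat_lit 0, nat_lit 0, [(nat_lit 29, [(nat_lit 0, nat_lit 873)])],
 ⟨p114_k21, nat_lit 0, nat_lit 0, nat_lit 116, nat_lit 0, nat_lit 0, [nat_lit 801462800, nat_lit 1796973201, nat_lit 2353277200], [], [nat_lit 24739009652, nat_lit 25271482944, nat_lit 25749649943, nat_lit 26312200258, nat_lit 25037411882, nat_lit 25547356776, nat_lit 26008758524, nat_lit 26495993035], nat_lit 0, nat_lit 0, nat_lit 0, nat_lit 0, nat_lit 0, nat_lit 0, [], [nat_lit 55, nat_lit 40, nat_lit 40, nat_lit 80, nat_lit 3, nat_lit 238, nat_lit 30, nat_lit 7]⟩, ⟨p114_k18, nat_lit 0, nat_lit 0, nat_lit 732, nat_lit 0, nat_lit 827183, [nat_lit 595376000, nat_lit 1249934000, nat_lit 2082800000], [], [nat_lit 5095908876, nat_lit 5103078319, nat_lit 5230834752,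 nat_lit 5270165996, nat_lit 3986089408, nat_lit 3987552284, nat_lit 4062434038, nat_lit 4072477995], nat_lit 1271250, nat_lit 1271250, nat_lit 1271250, nat_lit 1271250, nat_lit 0, nat_lit 2373000, [nat_lit 1100000, nat_lit 2127500, nat_lit 1271250], [nat_lit 83, nat_lit 40, nat_lit 40, nat_lit 80, nat_lit 73, nat_lit 456, nat_lit 225, nat_lit 9]⟩,
 ⟨nat_lit 0, nat_lit 1582, ⟨.ofNat (nat_lit 655899), .ofNat (nat_lit 694143), .ofNat (nat_lit 667557), .ofNat (nat_lit 705801), .ofNat (nat_lit 649998), .ofNat (nat_lit 684997), .ofNat (nat_lit 662498), .ofNat (nat_lit 697497)⟩, ⟨.ofNat (nat_lit 200000), .ofNat (nat_lit 274152), .ofNat (nat_lit 200000), .ofNat (nat_lit 297467), .ofNat (nat_lit 200000), .ofNat (nat_lit 274999), .ofNat (nat_lit 200000), .ofNat (nat_lit 299999)⟩⟩, [⟨nat_lit 13, nat_lit 32, nat_lit 87, nat_lit 100, nat_lit 424739650⟩, ⟨nat_lit 22, nat_lit 100, nat_lit 96, nat_lit 98, nat_lit 6286595⟩]⟩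
noncomputable def p114_l106 : Lf2 := ⟨nat_lit 0, nat_lit 30, [nat_lit 15, nat_lit 5, nat_lit 5, nat_lit 20], false, nat_lit 80, nat_lit 120, nat_lit 0, nat_lit 336, ⟨nat_lit 150, nat_lit 850, nat_lit 0, nat_lit 7, nat_lit 279, nat_lit 850, nat_lit 97, nat_lit 0, nat_lit 0, nat_lit 0, nat_lit 0, nat_lit 0, nat_lit 42003679, nat_lit 20994945, nat_lit 4001376, nat_lit 4357887, true, true⟩,
 nat_lit 0, nat_lit 0, nat_lit 2676, nat_lit 0, nat_lit 2542, nat_lit 1486, nat_lit 171, nat_lit 0, nat_lit 0, nat_lit 77, nat_lit 0, nat_lit 0, nat_lit 0, nat_lit 0, nat_lit 0, nat_lit 212500, nat_lit 0, nat_lit 0, [(nat_lit 29, [(nat_lit 0, nat_lit 850)])],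
 ⟨p114_k21, nat_lit 0, nat_lit 0, nat_lit 119, nat_lit 0, nat_lit 0, [nat_lit 805060001, nat_lit 1873140000, nat_lit 2455940000], [], [nat_lit 24744138255, nat_lit 25272252289, nat_lit 26180626093, nat_lit 26722401672, nat_lit 25052358090, nat_lit 25558232653, nat_lit 26433361710, nat_lit 26901717996], nat_lit 0, nat_lit 0, nat_lit 0, nat_lit 0, nat_lit 0, nat_lit 0, [], [nat_lit 55, nat_lit 40, nat_lit 40, nat_lit 80, nat_lit 3, nat_lit 238, nat_lit 30, nat_lit 7]⟩, ⟨p114_k15, nat_lit 0, nat_lit 0, nat_lit 669, nat_lit 0, nat_lit 814604, [nat_lit 703200000, nat_lit 1476300000, nat_lit 2108700000], [], [nat_lit 6177433640, nat_lit 6178888206, nat_lit 6261668962, nat_lit 6267656736, nat_lit 4986574902, nat_lit 4986584683, nat_lit 5146603625, nat_lit 5166541215], nat_lit 1271250, nat_lit 1271250, nat_lit 1271250, nat_lit 1271250, nat_lit 0, nat_lit 2373000, [nat_lit 1100000, nat_lit 2127500, nat_lit 1271250], [nat_lit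 56, nat_lit 40, nat_lit 40, nat_lit 80, nat_lit 32, nat_lit 483, nat_lit 250, nat_lit 11]⟩,
 ⟨nat_lit 0, nat_lit 1582, ⟨.ofNat (nat_lit 667557), .ofNat (nat_lit 722191), .ofNat (nat_lit 679215), .ofNat (nat_lit 733849), .ofNat (nat_lit 662498), .ofNat (nat_lit 712497), .ofNat (nat_lit 674999), .ofNat (nat_lit 724997)⟩, ⟨.ofNat (nat_lit 200000), .ofNat (nat_lit 274152), .ofNat (nat_lit 200000), .ofNat (nat_lit 297467), .ofNat (nat_lit 200000), .ofNat (nat_lit 274999), .ofNat (nat_lit 200000), .ofNat (nat_lit 299999)⟩⟩, [⟨nat_lit 13, nat_lit 23, nat_lit 91, nat_lit 100, nat_lit 555496213⟩, ⟨nat_lit 22, nat_lit 100, nat_lit 100, nat_lit 100, nat_lit 10659853⟩]⟩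
noncomputable def p114_l107 : Lf2 := ⟨nat_lit 0, nat_lit 30, [nat_lit 15, nat_lit 5, nat_lit 5, nat_lit 20], true, nat_lit 120, nat_lit 160, nat_lit 0, nat_lit 364, ⟨nat_lit 0, nat_lit 691, nat_lit 309, nat_lit 7, nat_lit 269, nat_lit 1000, nat_lit 125, nat_lit 309, nat_lit 147267, nat_lit 309, nat_lit 118498, nat_lit 200, nat_lit 41561464, nat_lit 19599097, nat_lit 5839439, nat_lit 4630087, true, true⟩,
 nat_lit 0, nat_lit 0, nat_lit 0, nat_lit 4179, nat_lit 2972, nat_lit 0, nat_lit 0, nat_lit 0, nat_lit 0, nat_lit 0, nat_lit 0, nat_lit 0, nat_lit 0, nat_lit 0, nat_lit 0, nat_lit 233005, nat_lit 0, nat_lit 0, [(nat_lit 29, [(nat_lit 0, nat_lit 691), (nat_lit 3, nat_lit 309)])],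
 ⟨p114_k21, nat_lit 0, nat_lit 0, nat_lit 101, nat_lit 0, nat_lit 0, [nat_lit 894076000, nat_lit 533200801, nat_lit 615784400], [], [nat_lit 25408081408, nat_lit 25957602688, nat_lit 26135091523, nat_lit 26705003028, nat_lit 25624222784, nat_lit 26138594608, nat_lit 26310811150, nat_lit 26814644592], nat_lit 0, nat_lit 0, nat_lit 0, nat_lit 0, nat_lit 0, nat_lit 0, [], [nat_lit 55, nat_lit 40, nat_lit 40, nat_lit 80, nat_lit 3, nat_lit 249, nat_lit 40, nat_lit 8]⟩, C1.Rw.none,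
 ⟨nat_lit 0, nat_lit 1582, ⟨.ofNat (nat_lit 655899), .ofNat (nat_lit 683216), .ofNat (nat_lit 667557), .ofNat (nat_lit 694874), .ofNat (nat_lit 649998), .ofNat (nat_lit 674997), .ofNat (nat_lit 662498), .ofNat (nat_lit 687497)⟩, ⟨.ofNat (nat_lit 274152), .ofNat (nat_lit 328785), .ofNat (nat_lit 297467), .ofNat (nat_lit 352101), .ofNat (nat_lit 274999), .ofNat (nat_lit 324996), .ofNat (nat_lit 299999), .ofNat (nat_lit 349997)⟩⟩, [⟨nat_lit 13, nat_lit 32, nat_lit 87, nat_lit 100, nat_lit 333399154⟩]⟩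
noncomputable def p114_l108 : Lf2 := ⟨nat_lit 0, nat_lit 30, [nat_lit 15, nat_lit 5, nat_lit 5, nat_lit 20], false, nat_lit 120, nat_lit 160, nat_lit 0, nat_lit 352, ⟨nat_lit 100, nat_lit 900, nat_lit 0, nat_lit 7, nat_lit 277, nat_lit 900, nat_lit 125, nat_lit 0, nat_lit 0, nat_lit 0, nat_lit 0, nat_lit 0, nat_lit 40822448, nat_lit 20389020, nat_lit 5788532, nat_lit 4666297, true, true⟩,
 nat_lit 0, nat_lit 0, nat_lit 2035, nat_lit 0, nat_lit 4191, nat_lit 1077, nat_lit 0, nat_lit 0, nat_lit 0, nat_lit 71, nat_lit 0, nat_lit 0, nat_lit 0, nat_lit 0, nat_lit 0, nat_lit 225000, nat_lit 0, nat_lit 0, [(nat_lit 29, [(nat_lit 0, nat_lit 900)])],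
 ⟨p114_k21, nat_lit 0, nat_lit 0, nat_lit 99, nat_lit 0, nat_lit 0, [nat_lit 797240000, nat_lit 1707560001, nat_lit 2232760000], [], [nat_lit 27668767063, nat_lit 28049392633, nat_lit 28058527942, nat_lit 28432719480, nat_lit 27603864787, nat_lit 27896839632, nat_lit 27909873867, nat_lit 28262617011], nat_lit 0, nat_lit 0, nat_lit 0, nat_lit 0, nat_lit 0, nat_lit 0, [], [nat_lit 55, nat_lit 40, nat_lit 40, nat_lit 80, nat_lit 3, nat_lit 249, nat_lit 40, nat_lit 7]⟩, ⟨p114_k18, nat_lit 0, nat_lit 0, nat_lit 687, nat_lit 0, nat_lit 711922, [nat_lit 468800000, nat_lit 984200000, nat_lit 1640000000], [], [nat_lit 4076187267, nat_lit 4108479734, nat_lit 4122054999, nat_lit 4152914212, nat_lit 3282800041, nat_lit 3291826456, nat_lit 3301875392, nat_lit 3310140503], nat_lit 1271250, nat_lit 1271250, nat_lit 1271250, nat_lit 1271250, nat_lit 0, nat_lit 2486000, [nat_lit 1100000, nat_lit 2127500, nat_lit 1271250], [nat_lit 83,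 nat_lit 40, nat_lit 40, nat_lit 80, nat_lit 73, nat_lit 483, nat_lit 250, nat_lit 10]⟩,
 ⟨nat_lit 1118, nat_lit 1582, ⟨.ofNat (nat_lit 683218), .ofNat (nat_lit 694145), .ofNat (nat_lit 694876), .ofNat (nat_lit 705803), .ofNat (nat_lit 680318), .ofNat (nat_lit 690944), .ofNat (nat_lit 692194), .ofNat (nat_lit 702819)⟩, ⟨.ofNat (nat_lit 274152), .ofNat (nat_lit 328788), .ofNat (nat_lit 297467), .ofNat (nat_lit 352103), .ofNat (nat_lit 274990), .ofNat (nat_lit 328117), .ofNat (nat_lit 298741), .ofNat (nat_lit 351868)⟩⟩, [⟨nat_lit 13, nat_lit 32, nat_lit 87, nat_lit 100, nat_lit 496318740⟩, ⟨nat_lit 22, nat_lit 88, nat_lit 68, nat_lit 100, nat_lit 8143246⟩]⟩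
noncomputable def p114_l109 : Lf2 := ⟨nat_lit 0, nat_lit 30, [nat_lit 15, nat_lit 5, nat_lit 5, nat_lit 20], false, nat_lit 120, nat_lit 160, nat_lit 0, nat_lit 160, ⟨nat_lit 148, nat_lit 852, nat_lit 0, nat_lit 7, nat_lit 280, nat_lit 852, nat_lit 125, nat_lit 0, nat_lit 0, nat_lit 0, nat_lit 0, nat_lit 0, nat_lit 40601875, nat_lit 20629243, nat_lit 5768882, nat_lit 4675875, true, true⟩,
 nat_lit 0, nat_lit 0, nat_lit 2656, nat_lit 0, nat_lit 2757, nat_lit 1475, nat_lit 149, nat_lit 0, nat_lit 0, nat_lit 89, nat_lit 0, nat_lit 0, nat_lit 0, nat_lit 0, nat_lit 0, nat_lit 213000, nat_lit 0, nat_lit 0, [(nat_lit 29, [(nat_lit 0, nat_lit 852)])],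
 ⟨p114_k21, nat_lit 0, nat_lit 0, nat_lit 102, nat_lit 0, nat_lit 0, [nat_lit 804747201, nat_lit 1866516800, nat_lit 2447012800], [], [nat_lit 25218651923, nat_lit 25485095826, nat_lit 26645871866, nat_lit 26924203471, nat_lit 25485605155, nat_lit 25734950496, nat_lit 26834953222, nat_lit 27069596889], nat_lit 0, nat_lit 0, nat_lit 0, nat_lit 0, nat_lit 0, nat_lit 0, [], [nat_lit 55, nat_lit 40, nat_lit 40, nat_lit 80, nat_lit 3, nat_lit 249, nat_lit 40, nat_lit 8]⟩, ⟨p114_k15, nat_lit 0, nat_lit 0, nat_lit 630, nat_lit 0, nat_lit 710303, [nat_lit 693824000, nat_lit 1456616000, nat_lit 2080584000], [], [nat_lit 5828413885, nat_lit 5844348429, nat_lit 5958512434, nat_lit 5980998744, nat_lit 4640182675, nat_lit 4661452055, nat_lit 4787372978, nat_lit 4803348705], nat_lit 1271250, nat_lit 1271250, nat_lit 1271250, nat_lit 1271250, nat_lit 0, nat_lit 1100001, [nat_lit 1100000, nat_lit 2127500, nat_lit 1271250], [nat_lit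 56, nat_lit 40, nat_lit 40, nat_lit 80, nat_lit 32, nat_lit 428, nat_lit 200, nat_lit 10]⟩,
 ⟨nat_lit 1118, nat_lit 1582, ⟨.ofNat (nat_lit 667558), .ofNat (nat_lit 722193), .ofNat (nat_lit 679215), .ofNat (nat_lit 733851), .ofNat (nat_lit 665630), .ofNat (nat_lit 718757), .ofNat (nat_lit 677505), .ofNat (nat_lit 730633)⟩, ⟨.ofNat (nat_lit 274152), .ofNat (nat_lit 328788), .ofNat (nat_lit 297467), .ofNat (nat_lit 352103), .ofNat (nat_lit 274990), .ofNat (nat_lit 328117), .ofNat (nat_lit 298741), .ofNat (nat_lit 351868)⟩⟩, [⟨nat_lit 13, nat_lit 28, nat_lit 88, nat_lit 100, nat_lit 427806057⟩, ⟨nat_lit 4, nat_lit 100, nat_lit 28, nat_lit 91, nat_lit 125458237⟩, ⟨nat_lit 9, nat_lit 100, nat_lit 88, nat_lit 32, nat_lit 17272630⟩]⟩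
noncomputable def p114_l110 : Lf2 := ⟨nat_lit 0, nat_lit 30, [nat_lit 15, nat_lit 5, nat_lit 5, nat_lit 20], false, nat_lit 120, nat_lit 160, nat_lit 160, nat_lit 240, ⟨nat_lit 148, nat_lit 852, nat_lit 0, nat_lit 7, nat_lit 280, nat_lit 852, nat_lit 125, nat_lit 0, nat_lit 0, nat_lit 0, nat_lit 0, nat_lit 0, nat_lit 40601875, nat_lit 20629243, nat_lit 5768882, nat_lit 4675875, true, true⟩,
 nat_lit 0, nat_lit 0, nat_lit 2748, nat_lit 0, nat_lit 2757, nat_lit 1526, nat_lit 149, nat_lit 0, nat_lit 0, nat_lit 82, nat_lit 0, nat_lit 0, nat_lit 0, nat_lit 0, nat_lit 0, nat_lit 213000, nat_lit 0, nat_lit 0, [(nat_lit 29, [(nat_lit 0, nat_lit 852)])],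
 ⟨p114_k21, nat_lit 0, nat_lit 0, nat_lit 102, nat_lit 0, nat_lit 0, [nat_lit 804747201, nat_lit 1866516800, nat_lit 2447012800], [], [nat_lit 25218651923, nat_lit 25485095826, nat_lit 26645871866, nat_lit 26924203471, nat_lit 25485605155, nat_lit 25734950496, nat_lit 26834953222, nat_lit 27069596889], nat_lit 0, nat_lit 0, nat_lit 0, nat_lit 0, nat_lit 0, nat_lit 0, [], [nat_lit 55, nat_lit 40, nat_lit 40, nat_lit 80, nat_lit 3, nat_lit 249, nat_lit 40, nat_lit 8]⟩, ⟨p114_k15, nat_lit 0, nat_lit 0, nat_lit 488, nat_lit 0, nat_lit 710303, [nat_lit 693824000, nat_lit 1456616000, nat_lit 2080584000], [], [nat_lit 4565815088, nat_lit 4575696670, nat_lit 4664730152, nat_lit 4675249050, nat_lit 4452119350, nat_lit 4465779150, nat_lit 4566426844, nat_lit 4575312634], nat_lit 1271250, nat_lit 1271250, nat_lit 1271250, nat_lit 1271250, nat_lit 1100001, nat_lit 1785000, [nat_lit 1100000, nat_lit 2127500, nat_lit 1271250], [nat_lit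 56, nat_lit 40, nat_lit 40, nat_lit 80, nat_lit 32, nat_lit 456, nat_lit 225, nat_lit 10]⟩,
 ⟨nat_lit 1118, nat_lit 1582, ⟨.ofNat (nat_lit 667558), .ofNat (nat_lit 722193), .ofNat (nat_lit 679215), .ofNat (nat_lit 733851), .ofNat (nat_lit 665630), .ofNat (nat_lit 718757), .ofNat (nat_lit 677505), .ofNat (nat_lit 730633)⟩, ⟨.ofNat (nat_lit 274152), .ofNat (nat_lit 328788), .ofNat (nat_lit 297467), .ofNat (nat_lit 352103), .ofNat (nat_lit 274990), .ofNat (nat_lit 328117), .ofNat (nat_lit 298741), .ofNat (nat_lit 351868)⟩⟩, [⟨nat_lit 13, nat_lit 28, nat_lit 88, nat_lit 100, nat_lit 433254743⟩, ⟨nat_lit 4, nat_lit 100, nat_lit 28, nat_lit 91, nat_lit 204603351⟩]⟩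
noncomputable def p114_l111 : Lf2 := ⟨nat_lit 0, nat_lit 30, [nat_lit 15, nat_lit 5, nat_lit 5, nat_lit 20], false, nat_lit 120, nat_lit 160, nat_lit 240, nat_lit 360, ⟨nat_lit 121, nat_lit 879, nat_lit 0, nat_lit 7, nat_lit 276, nat_lit 879, nat_lit 125, nat_lit 0, nat_lit 0, nat_lit 0, nat_lit 0, nat_lit 0, nat_lit 40930849, nat_lit 20271039, nat_lit 5798112, nat_lit 4661460, true, true⟩,
 nat_lit 0, nat_lit 0, nat_lit 2180, nat_lit 0, nat_lit 3839, nat_lit 1211, nat_lit 35, nat_lit 0, nat_lit 0, nat_lit 78, nat_lit 0, nat_lit 0, nat_lit 0, nat_lit 0, nat_lit 0, nat_lit 219750, nat_lit 0, nat_lit 0, [(nat_lit 29, [(nat_lit 0, nat_lit 879)])],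
 ⟨p114_k21, nat_lit 0, nat_lit 0, nat_lit 101, nat_lit 0, nat_lit 0, [nat_lit 800524400, nat_lit 1777103600, nat_lit 2326495600], [], [nat_lit 26524259521, nat_lit 26832557889, nat_lit 27773934680, nat_lit 28124998286, nat_lit 26564612552, nat_lit 26857986924, nat_lit 27756946906, nat_lit 28030764428], nat_lit 0, nat_lit 0, nat_lit 0, nat_lit 0, nat_lit 0, nat_lit 0, [], [nat_lit 55, nat_lit 40, nat_lit 40, nat_lit 80, nat_lit 3, nat_lit 249, nat_lit 40, nat_lit 8]⟩, ⟨p114_k15, nat_lit 0, nat_lit 0, nat_lit 449, nat_lit 0, nat_lit 675646, [nat_lit 567248000, nat_lit 1190882000, nat_lit 1701018000], [], [nat_lit 3519491067, nat_lit 3524575734, nat_lit 3625867777, nat_lit 3633036375, nat_lit 3954007532, nat_lit 3957881586, nat_lit 4058608340, nat_lit 4062627083], nat_lit 1271250, nat_lit 1271250, nat_lit 1271250, nat_lit 1271250, nat_lit 1271250, nat_lit 1271250, [nat_lit 1100000, nat_lit 2127500, nat_lit 1271250], [nat_lit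 56, nat_lit 40, nat_lit 40, nat_lit 80, nat_lit 32, nat_lit 483, nat_lit 250, nat_lit 10]⟩,
 ⟨nat_lit 1118, nat_lit 1582, ⟨.ofNat (nat_lit 667558), .ofNat (nat_lit 711266), .ofNat (nat_lit 671055), .ofNat (nat_lit 714764), .ofNat (nat_lit 665630), .ofNat (nat_lit 708132), .ofNat (nat_lit 669193), .ofNat (nat_lit 711694)⟩, ⟨.ofNat (nat_lit 274152), .ofNat (nat_lit 328788), .ofNat (nat_lit 297467), .ofNat (nat_lit 352103), .ofNat (nat_lit 274990), .ofNat (nat_lit 328117), .ofNat (nat_lit 298741), .ofNat (nat_lit 351868)⟩⟩, [⟨nat_lit 13, nat_lit 28, nat_lit 89, nat_lit 100, nat_lit 397104590⟩, ⟨nat_lit 22, nat_lit 92, nat_lit 76, nat_lit 100, nat_lit 52917810⟩]⟩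
noncomputable def p114_l112 : Lf2 := ⟨nat_lit 0, nat_lit 30, [nat_lit 15, nat_lit 5, nat_lit 5, nat_lit 20], false, nat_lit 120, nat_lit 160, nat_lit 240, nat_lit 356, ⟨nat_lit 122, nat_lit 878, nat_lit 0, nat_lit 7, nat_lit 278, nat_lit 878, nat_lit 125, nat_lit 0, nat_lit 0, nat_lit 0, nat_lit 0, nat_lit 0, nat_lit 40735659, nat_lit 20483515, nat_lit 5780826, nat_lit 4670108, true, true⟩,
 nat_lit 0, nat_lit 0, nat_lit 2120, nat_lit 0, nat_lit 4003, nat_lit 1194, nat_lit 16, nat_lit 0, nat_lit 0, nat_lit 78, nat_lit 0, nat_lit 0, nat_lit 0, nat_lit 0, nat_lit 0, nat_lit 219500, nat_lit 0, nat_lit 0, [(nat_lit 29, [(nat_lit 0, nat_lit 878)])],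
 ⟨p114_k21, nat_lit 0, nat_lit 0, nat_lit 102, nat_lit 0, nat_lit 0, [nat_lit 800680800, nat_lit 1780415200, nat_lit 2330959200], [], [nat_lit 26768544717, nat_lit 27083187015, nat_lit 28192827979, nat_lit 28546112210, nat_lit 26777545704, nat_lit 27076815548, nat_lit 28135538365, nat_lit 28412110523], nat_lit 0, nat_lit 0, nat_lit 0, nat_lit 0, nat_lit 0, nat_lit 0, [], [nat_lit 55, nat_lit 40, nat_lit 40, nat_lit 80, nat_lit 3, nat_lit 249, nat_lit 40, nat_lit 8]⟩, ⟨p114_k34, nat_lit 0, nat_lit 0, nat_lit 446, nat_lit 0, nat_lit 670530, [nat_lit 571936000, nat_lit 1200724000, nat_lit 1715076000], [], [nat_lit 3564187052, nat_lit 3567639193, nat_lit 3679076016, nat_lit 3683791001, nat_lit 3966840787, nat_lit 3969601680, nat_lit 4084976768, nat_lit 4087751093], nat_lit 1271250, nat_lit 1271250, nat_lit 1271250, nat_lit 1271250, nat_lit 1271250, nat_lit 1271250, [nat_lit 1100000, nat_lit 2127500, nat_lit 1271250], [nat_lit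 56, nat_lit 40, nat_lit 40, nat_lit 80, nat_lit 32, nat_lit 483, nat_lit 250, nat_lit 10]⟩,
 ⟨nat_lit 1118, nat_lit 1582, ⟨.ofNat (nat_lit 671055), .ofNat (nat_lit 720227), .ofNat (nat_lit 673386), .ofNat (nat_lit 722559), .ofNat (nat_lit 669193), .ofNat (nat_lit 717007), .ofNat (nat_lit 671568), .ofNat (nat_lit 719382)⟩, ⟨.ofNat (nat_lit 274152), .ofNat (nat_lit 328788), .ofNat (nat_lit 297467), .ofNat (nat_lit 352103), .ofNat (nat_lit 274990), .ofNat (nat_lit 328117), .ofNat (nat_lit 298741), .ofNat (nat_lit 351868)⟩⟩, [⟨nat_lit 13, nat_lit 28, nat_lit 89, nat_lit 100, nat_lit 406393657⟩, ⟨nat_lit 22, nat_lit 91, nat_lit 76, nat_lit 100, nat_lit 52970313⟩]⟩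
noncomputable def p114_l113 : Lf2 := ⟨nat_lit 0, nat_lit 30, [nat_lit 15, nat_lit 5, nat_lit 5, nat_lit 20], false, nat_lit 120, nat_lit 160, nat_lit 240, nat_lit 320, ⟨nat_lit 166, nat_lit 834, nat_lit 0, nat_lit 7, nat_lit 281, nat_lit 834, nat_lit 125, nat_lit 0, nat_lit 0, nat_lit 0, nat_lit 0, nat_lit 0, nat_lit 40482961, nat_lit 20760012, nat_lit 5757027, nat_lit 4680750, true, true⟩,
 nat_lit 0, nat_lit 0, nat_lit 2766, nat_lit 0, nat_lit 2806, nat_lit 1573, nat_lit 152, nat_lit 0, nat_lit 0, nat_lit 100, nat_lit 0, nat_lit 0, nat_lit 0, nat_lit 0, nat_lit 0, nat_lit 208500, nat_lit 0, nat_lit 0, [(nat_lit 29, [(nat_lit 0, nat_lit 834)])],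
 ⟨p114_k21, nat_lit 0, nat_lit 0, nat_lit 101, nat_lit 0, nat_lit 0, [nat_lit 807562400, nat_lit 1926125600, nat_lit 2527357600], [], [nat_lit 25251344334, nat_lit 25412347941, nat_lit 26695085619, nat_lit 26875272568, nat_lit 25489177008, nat_lit 25642921061, nat_lit 26863301876, nat_lit 27009233599], nat_lit 0, nat_lit 0, nat_lit 0, nat_lit 0, nat_lit 0, nat_lit 0, [], [nat_lit 55, nat_lit 40, nat_lit 40, nat_lit 80, nat_lit 3, nat_lit 249, nat_lit 40, nat_lit 8]⟩, ⟨p114_k16, nat_lit 0, nat_lit 0, nat_lit 436, nat_lit 0, nat_lit 645669, [nat_lit 778208000, nat_lit 1633772000, nat_lit 2333628000], [], [nat_lit 4996466528, nat_lit 5008373602, nat_lit 5161505165, nat_lit 5170407064, nat_lit 5225623727, nat_lit 5236663314, nat_lit 5396232655, nat_lit 5407604898], nat_lit 1271250, nat_lit 1271250, nat_lit 1271250, nat_lit 1271250, nat_lit 1271250, nat_lit 1271250, [nat_lit 1100000, nat_lit 2127500, nat_lit 1271250], [nat_lit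 56, nat_lit 40, nat_lit 40, nat_lit 80, nat_lit 32, nat_lit 456, nat_lit 225, nat_lit 9]⟩,
 ⟨nat_lit 1322, nat_lit 1582, ⟨.ofNat (nat_lit 673386), .ofNat (nat_lit 728022), .ofNat (nat_lit 679215), .ofNat (nat_lit 733851), .ofNat (nat_lit 672323), .ofNat (nat_lit 726101), .ofNat (nat_lit 678211), .ofNat (nat_lit 731989)⟩, ⟨.ofNat (nat_lit 274152), .ofNat (nat_lit 328788), .ofNat (nat_lit 297467), .ofNat (nat_lit 352103), .ofNat (nat_lit 274681), .ofNat (nat_lit 328458), .ofNat (nat_lit 298233), .ofNat (nat_lit 352011)⟩⟩, [⟨nat_lit 13, nat_lit 30, nat_lit 87, nat_lit 100, nat_lit 410475964⟩, ⟨nat_lit 16, nat_lit 29, nat_lit 100, nat_lit 91, nat_lit 114603883⟩]⟩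
noncomputable def p114_l114 : Lf2 := ⟨nat_lit 0, nat_lit 30, [nat_lit 15, nat_lit 5, nat_lit 5, nat_lit 20], false, nat_lit 120, nat_lit 160, nat_lit 320, nat_lit 356, ⟨nat_lit 168, nat_lit 832, nat_lit 0, nat_lit 7, nat_lit 280, nat_lit 832, nat_lit 125, nat_lit 0, nat_lit 0, nat_lit 0, nat_lit 0, nat_lit 0, nat_lit 40609088, nat_lit 20623449, nat_lit 5767463, nat_lit 4675320, true, true⟩,
 nat_lit 0, nat_lit 0, nat_lit 2800, nat_lit 0, nat_lit 2806, nat_lit 1592, nat_lit 155, nat_lit 0, nat_lit 0, nat_lit 101, nat_lit 0, nat_lit 0, nat_lit 0, nat_lit 0, nat_lit 0, nat_lit 208000, nat_lit 0, nat_lit 0, [(nat_lit 29, [(nat_lit 0, nat_lit 832)])],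
 ⟨p114_k21, nat_lit 0, nat_lit 0, nat_lit 99, nat_lit 0, nat_lit 0, [nat_lit 807875201, nat_lit 1932748801, nat_lit 2536284800], [], [nat_lit 25219021534, nat_lit 25326357272, nat_lit 26524315415, nat_lit 26645563625, nat_lit 25457163733, nat_lit 25559350244, nat_lit 26693566590, nat_lit 26789063445], nat_lit 0, nat_lit 0, nat_lit 0, nat_lit 0, nat_lit 0, nat_lit 0, [], [nat_lit 55, nat_lit 40, nat_lit 40, nat_lit 80, nat_lit 3, nat_lit 249, nat_lit 40, nat_lit 8]⟩, ⟨p114_k16, nat_lit 0, nat_lit 0, nat_lit 414, nat_lit 0, nat_lit 615846, [nat_lit 787584000, nat_lit 1653456000, nat_lit 2361744000], [], [nat_lit 5291483196, nat_lit 5295452086, nat_lit 5444464047, nat_lit 5450565102, nat_lit 5549005941, nat_lit 5556712760, nat_lit 5714485262, nat_lit 5720367971], nat_lit 1271250, nat_lit 1271250, nat_lit 1271250, nat_lit 1271250, nat_lit 1271250, nat_lit 1271250, [nat_lit 1100000, nat_lit 2127500, nat_lit 1271250], [nat_lit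 56, nat_lit 40, nat_lit 40, nat_lit 80, nat_lit 32, nat_lit 483, nat_lit 250, nat_lit 10]⟩,
 ⟨nat_lit 1414, nat_lit 1582, ⟨.ofNat (nat_lit 673386), .ofNat (nat_lit 722559), .ofNat (nat_lit 676884), .ofNat (nat_lit 726056), .ofNat (nat_lit 672685), .ofNat (nat_lit 721354), .ofNat (nat_lit 676205), .ofNat (nat_lit 724874)⟩, ⟨.ofNat (nat_lit 274152), .ofNat (nat_lit 328788), .ofNat (nat_lit 297467), .ofNat (nat_lit 352103), .ofNat (nat_lit 274511), .ofNat (nat_lit 328588), .ofNat (nat_lit 297978), .ofNat (nat_lit 352055)⟩⟩, [⟨nat_lit 13, nat_lit 31, nat_lit 87, nat_lit 100, nat_lit 299982455⟩, ⟨nat_lit 7, nat_lit 71, nat_lit 100, nat_lit 93, nat_lit 52456147⟩, ⟨nat_lit 22, nat_lit 91, nat_lit 76, nat_lit 100, nat_lit 38109674⟩]⟩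
noncomputable def p114_l115 : Lf2 := ⟨nat_lit 0, nat_lit 30, [nat_lit 15, nat_lit 5, nat_lit 5, nat_lit 20], false, nat_lit 120, nat_lit 160, nat_lit 320, nat_lit 356, ⟨nat_lit 165, nat_lit 835, nat_lit 0, nat_lit 7, nat_lit 278, nat_lit 835, nat_lit 125, nat_lit 0, nat_lit 0, nat_lit 0, nat_lit 0, nat_lit 0, nat_lit 40724880, nat_lit 20494230, nat_lit 5780890, nat_lit 4670699, true, true⟩,
 nat_lit 0, nat_lit 0, nat_lit 2760, nat_lit 0, nat_lit 2801, nat_lit 1569, nat_lit 149, nat_lit 0, nat_lit 0, nat_lit 99, nat_lit 0, nat_lit 0, nat_lit 0, nat_lit 0, nat_lit 0, nat_lit 208750, nat_lit 0, nat_lit 0, [(nat_lit 29, [(nat_lit 0, nat_lit 835)])],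
 ⟨p114_k35, nat_lit 0, nat_lit 0, nat_lit 98, nat_lit 0, nat_lit 0, [nat_lit 807406001, nat_lit 1922814000, nat_lit 2522894000], [], [nat_lit 25309436162, nat_lit 25363065349, nat_lit 26468963180, nat_lit 26530102502, nat_lit 25543464239, nat_lit 25594602527, nat_lit 26635984099, nat_lit 26684068198], nat_lit 0, nat_lit 0, nat_lit 0, nat_lit 0, nat_lit 0, nat_lit 0, [], [nat_lit 55, nat_lit 40, nat_lit 40, nat_lit 80, nat_lit 3, nat_lit 249, nat_lit 40, nat_lit 7]⟩, ⟨p114_k16, nat_lit 0, nat_lit 0, nat_lit 421, nat_lit 0, nat_lit 635685, [nat_lit 773520000, nat_lit 1623930000, nat_lit 2319570000], [], [nat_lit 5189412387, nat_lit 5193290752, nat_lit 5321584427, nat_lit 5329700638, nat_lit 5449989343, nat_lit 5457547957, nat_lit 5594544388, nat_lit 5600505868], nat_lit 1271250, nat_lit 1271250, nat_lit 1271250, nat_lit 1271250, nat_lit 1271250, nat_lit 1271250, [nat_lit 1100000, nat_lit 2127500, nat_lit 1271250], [nat_lit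 56, nat_lit 40, nat_lit 40, nat_lit 80, nat_lit 32, nat_lit 483, nat_lit 250, nat_lit 10]⟩,
 ⟨nat_lit 1322, nat_lit 1415, ⟨.ofNat (nat_lit 672685), .ofNat (nat_lit 715946), .ofNat (nat_lit 676205), .ofNat (nat_lit 719466), .ofNat (nat_lit 672323), .ofNat (nat_lit 715346), .ofNat (nat_lit 675856), .ofNat (nat_lit 718878)⟩, ⟨.ofNat (nat_lit 274511), .ofNat (nat_lit 328588), .ofNat (nat_lit 297978), .ofNat (nat_lit 352055), .ofNat (nat_lit 274681), .ofNat (nat_lit 328458), .ofNat (nat_lit 298233), .ofNat (nat_lit 352011)⟩⟩, [⟨nat_lit 13, nat_lit 28, nat_lit 88, nat_lit 100, nat_lit 418131977⟩, ⟨nat_lit 7, nat_lit 71, nat_lit 100, nat_lit 93, nat_lit 80323941⟩, ⟨nat_lit 22, nat_lit 92, nat_lit 76, nat_lit 100, nat_lit 8605898⟩]⟩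
noncomputable def p114_l116 : Lf2 := ⟨nat_lit 0, nat_lit 30, [nat_lit 15, nat_lit 5, nat_lit 5, nat_lit 20], false, nat_lit 120, nat_lit 160, nat_lit 320, nat_lit 356, ⟨nat_lit 176, nat_lit 824, nat_lit 0, nat_lit 7, nat_lit 282, nat_lit 824, nat_lit 125, nat_lit 0, nat_lit 0, nat_lit 0, nat_lit 0, nat_lit 0, nat_lit 40414478, nat_lit 20835557, nat_lit 5749965, nat_lit 4683486, true, true⟩,
 nat_lit 0, nat_lit 0, nat_lit 2841, nat_lit 0, nat_lit 2809, nat_lit 1638, nat_lit 155, nat_lit 0, nat_lit 0, nat_lit 107, nat_lit 0, nat_lit 0, nat_lit 0, nat_lit 0, nat_lit 0, nat_lit 206000, nat_lit 0, nat_lit 0, [(nat_lit 29, [(nat_lit 0, nat_lit 824)])],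
 ⟨p114_k21, nat_lit 0, nat_lit 0, nat_lit 101, nat_lit 0, nat_lit 0, [nat_lit 809126401, nat_lit 1959241601, nat_lit 2571993600], [], [nat_lit 25254338351, nat_lit 25361720508, nat_lit 26699308829, nat_lit 26819487697, nat_lit 25491776299, nat_lit 25594136685, nat_lit 26866060114, nat_lit 26960764266], nat_lit 0, nat_lit 0, nat_lit 0, nat_lit 0, nat_lit 0, nat_lit 0, [], [nat_lit 55, nat_lit 40, nat_lit 40, nat_lit 80, nat_lit 3, nat_lit 249, nat_lit 40, nat_lit 8]⟩, ⟨p114_k36, nat_lit 0, nat_lit 0, nat_lit 412, nat_lit 0, nat_lit 612834, [nat_lit 825088000, nat_lit 1732192000, nat_lit 2474208000], [], [nat_lit 5522836916, nat_lit 5528303274, nat_lit 5703105654, nat_lit 5707287662, nat_lit 5790458507, nat_lit 5795879789, nat_lit 5980377900, nat_lit 5984404960], nat_lit 1271250, nat_lit 1271250, nat_lit 1271250, nat_lit 1271250, nat_lit 1271250, nat_lit 1271250, [nat_lit 1100000, nat_lit 2127500, nat_lit 1271250], [nat_lit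 56, nat_lit 40, nat_lit 40, nat_lit 80, nat_lit 32, nat_lit 483, nat_lit 250, nat_lit 10]⟩,
 ⟨nat_lit 1414, nat_lit 1582, ⟨.ofNat (nat_lit 676884), .ofNat (nat_lit 731519), .ofNat (nat_lit 679215), .ofNat (nat_lit 733851), .ofNat (nat_lit 676205), .ofNat (nat_lit 730281), .ofNat (nat_lit 678552), .ofNat (nat_lit 732628)⟩, ⟨.ofNat (nat_lit 274152), .ofNat (nat_lit 328788), .ofNat (nat_lit 297467), .ofNat (nat_lit 352103), .ofNat (nat_lit 274511), .ofNat (nat_lit 328588), .ofNat (nat_lit 297978), .ofNat (nat_lit 352055)⟩⟩, [⟨nat_lit 13, nat_lit 31, nat_lit 86, nat_lit 100, nat_lit 317287109⟩, ⟨nat_lit 7, nat_lit 73, nat_lit 100, nat_lit 93, nat_lit 65734601⟩, ⟨nat_lit 22, nat_lit 90, nat_lit 75, nat_lit 100, nat_lit 28332823⟩]⟩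
noncomputable def p114_l117 : Lf2 := ⟨nat_lit 0, nat_lit 30, [nat_lit 15, nat_lit 5, nat_lit 5, nat_lit 20], false, nat_lit 120, nat_lit 160, nat_lit 320, nat_lit 356, ⟨nat_lit 175, nat_lit 825, nat_lit 0, nat_lit 7, nat_lit 280, nat_lit 825, nat_lit 125, nat_lit 0, nat_lit 0, nat_lit 0, nat_lit 0, nat_lit 0, nat_lit 40623300, nat_lit 20604877, nat_lit 5771823, nat_lit 4675082, true, true⟩,
 nat_lit 0, nat_lit 0, nat_lit 2825, nat_lit 0, nat_lit 2771, nat_lit 1629, nat_lit 155, nat_lit 0, nat_lit 0, nat_lit 106, nat_lit 0, nat_lit 0, nat_lit 0, nat_lit 0, nat_lit 0, nat_lit 206250, nat_lit 0, nat_lit 0, [(nat_lit 29, [(nat_lit 0, nat_lit 825)])],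
 ⟨p114_k35, nat_lit 0, nat_lit 0, nat_lit 98, nat_lit 0, nat_lit 0, [nat_lit 808970001, nat_lit 1955930001, nat_lit 2567530000], [], [nat_lit 25271540302, nat_lit 25324937394, nat_lit 26427240274, nat_lit 26488100169, nat_lit 25526730923, nat_lit 25576698027, nat_lit 26601453977, nat_lit 26649090646], nat_lit 0, nat_lit 0, nat_lit 0, nat_lit 0, nat_lit 0, nat_lit 0, [], [nat_lit 55, nat_lit 40, nat_lit 40, nat_lit 80, nat_lit 3, nat_lit 249, nat_lit 40, nat_lit 7]⟩, ⟨p114_k36, nat_lit 0, nat_lit 0, nat_lit 419, nat_lit 0, nat_lit 632258, [nat_lit 820400000, nat_lit 1722350000, nat_lit 2460150000], [], [nat_lit 5492864942, nat_lit 5498022498, nat_lit 5635987599, nat_lit 5640400769, nat_lit 5762530070, nat_lit 5767920150, nat_lit 5913607079, nat_lit 5917887944], nat_lit 1271250, nat_lit 1271250, nat_lit 1271250, nat_lit 1271250, nat_lit 1271250, nat_lit 1271250, [nat_lit 1100000, nat_lit 2127500, nat_lit 1271250], [nat_lit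 56, nat_lit 40, nat_lit 40, nat_lit 80, nat_lit 32, nat_lit 483, nat_lit 250, nat_lit 10]⟩,
 ⟨nat_lit 1322, nat_lit 1415, ⟨.ofNat (nat_lit 676205), .ofNat (nat_lit 719466), .ofNat (nat_lit 678552), .ofNat (nat_lit 721813), .ofNat (nat_lit 675856), .ofNat (nat_lit 718878), .ofNat (nat_lit 678211), .ofNat (nat_lit 721234)⟩, ⟨.ofNat (nat_lit 274511), .ofNat (nat_lit 328588), .ofNat (nat_lit 297978), .ofNat (nat_lit 352055), .ofNat (nat_lit 274681), .ofNat (nat_lit 328458), .ofNat (nat_lit 298233), .ofNat (nat_lit 352011)⟩⟩, [⟨nat_lit 13, nat_lit 28, nat_lit 88, nat_lit 100, nat_lit 418877482⟩, ⟨nat_lit 4, nat_lit 100, nat_lit 28, nat_lit 91, nat_lit 7250405⟩, ⟨nat_lit 7, nat_lit 73, nat_lit 100, nat_lit 93, nat_lit 93373727⟩]⟩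
noncomputable def p114_l118 : Lf2 := ⟨nat_lit 0, nat_lit 30, [nat_lit 15, nat_lit 5, nat_lit 5, nat_lit 20], false, nat_lit 120, nat_lit 160, nat_lit 240, nat_lit 356, ⟨nat_lit 164, nat_lit 836, nat_lit 0, nat_lit 7, nat_lit 277, nat_lit 836, nat_lit 125, nat_lit 0, nat_lit 0, nat_lit 0, nat_lit 0, nat_lit 0, nat_lit 40800526, nat_lit 20409788, nat_lit 5789686, nat_lit 4667632, true, true⟩,
 nat_lit 0, nat_lit 0, nat_lit 2753, nat_lit 0, nat_lit 2769, nat_lit 1565, nat_lit 149, nat_lit 0, nat_lit 0, nat_lit 105, nat_lit 0, nat_lit 0, nat_lit 0, nat_lit 0, nat_lit 0, nat_lit 209000, nat_lit 0, nat_lit 0, [(nat_lit 29, [(nat_lit 0, nat_lit 836)])],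
 ⟨p114_k37, nat_lit 0, nat_lit 0, nat_lit 99, nat_lit 0, nat_lit 0, [nat_lit 807249600, nat_lit 1919502400, nat_lit 2518430400], [], [nat_lit 25312683947, nat_lit 25419447184, nat_lit 26316858545, nat_lit 26439654483, nat_lit 25564032217, nat_lit 25663938415, nat_lit 26501639991, nat_lit 26597747531], nat_lit 0, nat_lit 0, nat_lit 0, nat_lit 0, nat_lit 0, nat_lit 0, [], [nat_lit 55, nat_lit 40, nat_lit 40, nat_lit 80, nat_lit 3, nat_lit 249, nat_lit 40, nat_lit 7]⟩, ⟨p114_k16, nat_lit 0, nat_lit 0, nat_lit 452, nat_lit 0, nat_lit 685483, [nat_lit 768832000, nat_lit 1614088000, nat_lit 2305512000], [], [nat_lit 4824812956, nat_lit 4836541750, nat_lit 4939063468, nat_lit 4948724151, nat_lit 5359556442, nat_lit 5369010677, nat_lit 5459526796, nat_lit 5467030252], nat_lit 1271250, nat_lit 1271250, nat_lit 1271250, nat_lit 1271250, nat_lit 1271250, nat_lit 1271250, [nat_lit 1100000, nat_lit 2127500, nat_lit 1271250], [nat_lit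 56, nat_lit 40, nat_lit 40, nat_lit 80, nat_lit 32, nat_lit 483, nat_lit 250, nat_lit 10]⟩,
 ⟨nat_lit 1118, nat_lit 1323, ⟨.ofNat (nat_lit 672323), .ofNat (nat_lit 709968), .ofNat (nat_lit 678211), .ofNat (nat_lit 715856), .ofNat (nat_lit 671568), .ofNat (nat_lit 708757), .ofNat (nat_lit 677505), .ofNat (nat_lit 714694)⟩, ⟨.ofNat (nat_lit 274681), .ofNat (nat_lit 328458), .ofNat (nat_lit 298233), .ofNat (nat_lit 352011), .ofNat (nat_lit 274990), .ofNat (nat_lit 328117), .ofNat (nat_lit 298741), .ofNat (nat_lit 351868)⟩⟩, [⟨nat_lit 13, nat_lit 25, nat_lit 90, nat_lit 100, nat_lit 472164224⟩, ⟨nat_lit 4, nat_lit 100, nat_lit 25, nat_lit 92, nat_lit 137446506⟩, ⟨nat_lit 7, nat_lit 72, nat_lit 100, nat_lit 93, nat_lit 68613656⟩]⟩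
noncomputable def p114_l119 : Lf2 := ⟨nat_lit 0, nat_lit 30, [nat_lit 15, nat_lit 5, nat_lit 5, nat_lit 20], false, nat_lit 120, nat_lit 160, nat_lit 0, nat_lit 360, ⟨nat_lit 116, nat_lit 884, nat_lit 0, nat_lit 7, nat_lit 274, nat_lit 884, nat_lit 125, nat_lit 0, nat_lit 0, nat_lit 0, nat_lit 0, nat_lit 0, nat_lit 41085920, nat_lit 20111342, nat_lit 5802738, nat_lit 4653340, true, true⟩,
 nat_lit 0, nat_lit 0, nat_lit 2015, nat_lit 0, nat_lit 2753, nat_lit 1119, nat_lit 130, nat_lit 0, nat_lit 0, nat_lit 60, nat_lit 0, nat_lit 0, nat_lit 0, nat_lit 0, nat_lit 0, nat_lit 221000, nat_lit 0, nat_lit 0, [(nat_lit 29, [(nat_lit 0, nat_lit 884)])],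
 ⟨p114_k22, nat_lit 0, nat_lit 0, nat_lit 102, nat_lit 0, nat_lit 0, [nat_lit 799742400, nat_lit 1760545600, nat_lit 2304177600], [], [nat_lit 25378409790, nat_lit 25644698962, nat_lit 26250174751, nat_lit 26559180976, nat_lit 25625881605, nat_lit 25875086894, nat_lit 26424029784, nat_lit 26712803765], nat_lit 0, nat_lit 0, nat_lit 0, nat_lit 0, nat_lit 0, nat_lit 0, [], [nat_lit 55, nat_lit 40, nat_lit 40, nat_lit 80, nat_lit 3, nat_lit 249, nat_lit 40, nat_lit 7]⟩, ⟨p114_k15, nat_lit 0, nat_lit 0, nat_lit 669, nat_lit 0, nat_lit 814604, [nat_lit 543808000, nat_lit 1141672000, nat_lit 1630728000], [], [nat_lit 4867881370, nat_lit 4870937696, nat_lit 4908096547, nat_lit 4914465148, nat_lit 4029955521, nat_lit 4023623835, nat_lit 4065017551, nat_lit 4079206641], nat_lit 1271250, nat_lit 1271250, nat_lit 1271250, nat_lit 1271250, nat_lit 0, nat_lit 2542500, [nat_lit 1100000, nat_lit 2127500, nat_lit 1271250], [nat_lit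 56, nat_lit 40, nat_lit 40, nat_lit 80, nat_lit 32, nat_lit 483, nat_lit 250, nat_lit 11]⟩,
 ⟨nat_lit 0, nat_lit 1119, ⟨.ofNat (nat_lit 665629), .ofNat (nat_lit 697504), .ofNat (nat_lit 677505), .ofNat (nat_lit 709380), .ofNat (nat_lit 662498), .ofNat (nat_lit 692497), .ofNat (nat_lit 674999), .ofNat (nat_lit 704997)⟩, ⟨.ofNat (nat_lit 274990), .ofNat (nat_lit 328114), .ofNat (nat_lit 298741), .ofNat (nat_lit 351866), .ofNat (nat_lit 274999), .ofNat (nat_lit 324996), .ofNat (nat_lit 299999), .ofNat (nat_lit 349997)⟩⟩, [⟨nat_lit 13, nat_lit 23, nat_lit 91, nat_lit 100, nat_lit 603035561⟩, ⟨nat_lit 16, nat_lit 23, nat_lit 100, nat_lit 93, nat_lit 233337620⟩, ⟨nat_lit 19, nat_lit 100, nat_lit 71, nat_lit 93, nat_lit 11579800⟩]⟩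
noncomputable def b_V_900_600_20_46 : St := ⟨true, nat_lit 0, nat_lit 1, nat_lit 1, nat_lit 120, nat_lit 390, nat_lit 400, nat_lit 240, nat_lit 260, nat_lit 280, nat_lit 320, nat_lit 100, nat_lit 120, nat_lit 80, nat_lit 160, nat_lit 0, nat_lit 364, nat_lit 80, nat_lit 120, nat_lit 0, nat_lit 0, nat_lit 0, nat_lit 0⟩
theorem d_V_900_600_20_46 (h : EB TB.env) : Dead b_V_900_600_20_46 := chkB_sound0 h (T :=
(.spl (nat_lit 4) (nat_lit 120)
(.trX (nat_lit 22) (nat_lit 100) (nat_lit 80) (nat_lit 100) (nat_lit 336) (.spl (nat_lit 1) (nat_lit 250)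
(.trX (nat_lit 13) (nat_lit 32) (nat_lit 87) (nat_lit 100) (nat_lit 308) (.leaf p114_l105))
(.leaf p114_l106)))
(.spl (nat_lit 1) (nat_lit 250)
(.trX (nat_lit 13) (nat_lit 32) (nat_lit 87) (nat_lit 100) (nat_lit 308) (.spl (nat_lit 2) (nat_lit 300)
(.leaf p114_l107)
(.trX (nat_lit 22) (nat_lit 88) (nat_lit 68) (nat_lit 100) (nat_lit 352) (.spl (nat_lit 0) (nat_lit 395)
(.leaf p114_l108)
(.emL (nat_lit 13) (nat_lit 23) (nat_lit 92) (nat_lit 100))))))
(.trX (nat_lit 19) (nat_lit 100) (nat_lit 64) (nat_lit 95) (nat_lit 360) (.spl (nat_lit 0) (nat_lit 395)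
(.spl (nat_lit 5) (nat_lit 160)
(.leaf p114_l109)
(.spl (nat_lit 5) (nat_lit 240)
(.leaf p114_l110)
(.spl (nat_lit 1) (nat_lit 255)
(.trX (nat_lit 13) (nat_lit 32) (nat_lit 86) (nat_lit 100) (nat_lit 316) (.spl (nat_lit 1) (nat_lit 253)
(.trX (nat_lit 13) (nat_lit 32) (nat_lit 86) (nat_lit 100) (nat_lit 312) (.leaf p114_l111))
(.trX (nat_lit 19) (nat_lit 100) (nat_lit 65) (nat_lit 95) (nat_lit 356) (.leaf p114_l112))))
(.trX (nat_lit 19) (nat_lit 100) (nat_lit 66) (nat_lit 95) (nat_lit 356) (.spl (nat_lit 0) (nat_lit 393)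
(.spl (nat_lit 5) (nat_lit 320)
(.leaf p114_l113)
(.spl (nat_lit 1) (nat_lit 258)
(.trX (nat_lit 13) (nat_lit 33) (nat_lit 86) (nat_lit 100) (nat_lit 316) (.spl (nat_lit 0) (nat_lit 392)
(.leaf p114_l114)
(.trX (nat_lit 13) (nat_lit 29) (nat_lit 88) (nat_lit 100) (nat_lit 312) (.leaf p114_l115))))
(.spl (nat_lit 0) (nat_lit 392)
(.leaf p114_l116)
(.trX (nat_lit 13) (nat_lit 29) (nat_lit 87) (nat_lit 100) (nat_lit 312) (.leaf p114_l117)))))
(.trX (nat_lit 13) (nat_lit 27) (nat_lit 88) (nat_lit 100) (nat_lit 308) (.leaf p114_l118)))))))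
(.trX (nat_lit 13) (nat_lit 23) (nat_lit 91) (nat_lit 100) (nat_lit 304) (.leaf p114_l119))))))) (by decide +kernel)
noncomputable def p114_l120 : Lf2 := ⟨nat_lit 0, nat_lit 25, [nat_lit 44, nat_lit 5, nat_lit 5, nat_lit 20], false, nat_lit 80, nat_lit 160, nat_lit 0, nat_lit 352, ⟨nat_lit 114, nat_lit 886, nat_lit 0, nat_lit 7, nat_lit 284, nat_lit 886, nat_lit 108, nat_lit 0, nat_lit 0, nat_lit 0, nat_lit 0, nat_lit 0, nat_lit 41087022, nat_lit 21298586, nat_lit 4614392, nat_lit 4498389, true, true⟩,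
 nat_lit 0, nat_lit 0, nat_lit 1534, nat_lit 0, nat_lit 3223, nat_lit 892, nat_lit 3, nat_lit 0, nat_lit 0, nat_lit 110, nat_lit 0, nat_lit 0, nat_lit 0, nat_lit 0, nat_lit 0, nat_lit 221500, nat_lit 0, nat_lit 0, [(nat_lit 29, [(nat_lit 0, nat_lit 886)])],
 ⟨p114_k2, nat_lit 0, nat_lit 0, nat_lit 102, nat_lit 0, nat_lit 0, [nat_lit 799429601, nat_lit 1300904001, nat_lit 1753922400], [], [nat_lit 25640962171, nat_lit 26273038365, nat_lit 27283661124, nat_lit 27904288068, nat_lit 26028971740, nat_lit 26584255437, nat_lit 27514923098, nat_lit 28043401553], nat_lit 0, nat_lit 0, nat_lit 0, nat_lit 0, nat_lit 0, nat_lit 0, [], [nat_lit 35, nat_lit 40, nat_lit 40, nat_lit 80, nat_lit 22, nat_lit 249, nat_lit 40, nat_lit 9]⟩, ⟨p114_k3, nat_lit 0, nat_lit 0, nat_lit 645, nat_lit 0, nat_lit 782482, [nat_lit 534432000, nat_lit 908352000, nat_lit 1602612000], [], [nat_lit 3916277660, nat_lit 3938482294, nat_lit 4041444756, nat_lit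 4059943170, nat_lit 3569355244, nat_lit 3575038674, nat_lit 3619841637, nat_lit 3623330755], nat_lit 1271250, nat_lit 1271250, nat_lit 1271250, nat_lit 1271250, nat_lit 0, nat_lit 2486000, [nat_lit 1100000, nat_lit 1785000, nat_lit 1271250], [nat_lit 37, nat_lit 40, nat_lit 40, nat_lit 80, nat_lit 28, nat_lit 483, nat_lit 250, nat_lit 11]⟩,
 ⟨nat_lit 0, nat_lit 1582, ⟨.ofNat (nat_lit 679215), .ofNat (nat_lit 733849), .ofNat (nat_lit 690873), .ofNat (nat_lit 745507), .ofNat (nat_lit 674999), .ofNat (nat_lit 724997), .ofNat (nat_lit 687499), .ofNat (nat_lit 737498)⟩, ⟨.ofNat (nat_lit 200000), .ofNat (nat_lit 328785), .ofNat (nat_lit 200000), .ofNat (nat_lit 352101), .ofNat (nat_lit 200000), .ofNat (nat_lit 324996), .ofNat (nat_lit 200000), .ofNat (nat_lit 349997)⟩⟩, [⟨nat_lit 13, nat_lit 23, nat_lit 90, nat_lit 100, nat_lit 311825270⟩, ⟨nat_lit 13, nat_lit 33, nat_lit 83, nat_lit 100, nat_lit 172230224⟩, ⟨nat_lit 22, nat_lit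 94, nat_lit 88, nat_lit 100, nat_lit 16719336⟩]⟩
noncomputable def p114_l121 : Lf2 := ⟨nat_lit 0, nat_lit 25, [nat_lit 44, nat_lit 5, nat_lit 5, nat_lit 20], false, nat_lit 80, nat_lit 160, nat_lit 0, nat_lit 344, ⟨nat_lit 136, nat_lit 864, nat_lit 0, nat_lit 7, nat_lit 289, nat_lit 864, nat_lit 108, nat_lit 0, nat_lit 0, nat_lit 0, nat_lit 0, nat_lit 0, nat_lit 40655729, nat_lit 21759988, nat_lit 4584283, nat_lit 4515567, true, true⟩,
 nat_lit 0, nat_lit 0, nat_lit 1612, nat_lit 0, nat_lit 3299, nat_lit 981, nat_lit 0, nat_lit 0, nat_lit 0, nat_lit 135, nat_lit 0, nat_lit 0, nat_lit 0, nat_lit 0, nat_lit 0, nat_lit 216000, nat_lit 0, nat_lit 0, [(nat_lit 29, [(nat_lit 0, nat_lit 864)])],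
 ⟨p114_k2, nat_lit 0, nat_lit 0, nat_lit 102, nat_lit 0, nat_lit 0, [nat_lit 802870400, nat_lit 1350096000, nat_lit 1826777600], [], [nat_lit 25753701298, nat_lit 26392669020, nat_lit 27408219087, nat_lit 28036187284, nat_lit 26108557082, nat_lit 26674372556, nat_lit 27608893949, nat_lit 28142584864], nat_lit 0, nat_lit 0, nat_lit 0, nat_lit 0, nat_lit 0, nat_lit 0, [], [nat_lit 35, nat_lit 40, nat_lit 40, nat_lit 80, nat_lit 22, nat_lit 249, nat_lit 40, nat_lit 9]⟩, ⟨p114_k13, nat_lit 0, nat_lit 0, nat_lit 643, nat_lit 0, nat_lit 782117, [nat_lit 637568000, nat_lit 1083648000, nat_lit 1911888000], [], [nat_lit 4532348401, nat_lit 4553198828, nat_lit 4647891730, nat_lit 4665267152, nat_lit 4130062265, nat_lit 4135500679, nat_lit 4184051847, nat_lit 4196237321], nat_lit 1271250, nat_lit 1271250, nat_lit 1271250, nat_lit 1271250, nat_lit 0, nat_lit 2429500, [nat_lit 1100000, nat_lit 1785000, nat_lit 1271250], [nat_lit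 37, nat_lit 40, nat_lit 40, nat_lit 80, nat_lit 28, nat_lit 483, nat_lit 250, nat_lit 11]⟩,
 ⟨nat_lit 0, nat_lit 1582, ⟨.ofNat (nat_lit 690873), .ofNat (nat_lit 745507), .ofNat (nat_lit 702515), .ofNat (nat_lit 757165), .ofNat (nat_lit 687499), .ofNat (nat_lit 737498), .ofNat (nat_lit 699984), .ofNat (nat_lit 749998)⟩, ⟨.ofNat (nat_lit 200000), .ofNat (nat_lit 328785), .ofNat (nat_lit 200000), .ofNat (nat_lit 352101), .ofNat (nat_lit 200000), .ofNat (nat_lit 324996), .ofNat (nat_lit 200000), .ofNat (nat_lit 349997)⟩⟩, [⟨nat_lit 13, nat_lit 24, nat_lit 89, nat_lit 100, nat_lit 459715816⟩, ⟨nat_lit 7, nat_lit 81, nat_lit 100, nat_lit 96, nat_lit 5204282⟩, ⟨nat_lit 10, nat_lit 72, nat_lit 89, nat_lit 100, nat_lit 15928468⟩]⟩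
noncomputable def b_V_900_600_20_47 : St := ⟨true, nat_lit 0, nat_lit 1, nat_lit 1, nat_lit 120, nat_lit 390, nat_lit 400, nat_lit 260, nat_lit 280, nat_lit 280, nat_lit 320, nat_lit 100, nat_lit 120, nat_lit 80, nat_lit 160, nat_lit 0, nat_lit 352, nat_lit 80, nat_lit 100, nat_lit 0, nat_lit 0, nat_lit 0, nat_lit 0⟩
theorem d_V_900_600_20_47 (h : EB TB.env) : Dead b_V_900_600_20_47 := chkB_sound0 h (T :=
(.spl (nat_lit 1) (nat_lit 270)
(.leaf p114_l120)
(.trX (nat_lit 19) (nat_lit 100) (nat_lit 74) (nat_lit 98) (nat_lit 344) (.leaf p114_l121)))) (by decide +kernel)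
noncomputable def p114_l122 : Lf2 := ⟨nat_lit 0, nat_lit 30, [nat_lit 15, nat_lit 5, nat_lit 5, nat_lit 20], false, nat_lit 80, nat_lit 160, nat_lit 160, nat_lit 240, ⟨nat_lit 278, nat_lit 722, nat_lit 0, nat_lit 7, nat_lit 286, nat_lit 722, nat_lit 108, nat_lit 0, nat_lit 0, nat_lit 0, nat_lit 0, nat_lit 0, nat_lit 40871132, nat_lit 21529468, nat_lit 4599400, nat_lit 4507145, true, true⟩,
 nat_lit 0, nat_lit 0, nat_lit 3507, nat_lit 0, nat_lit 2917, nat_lit 2041, nat_lit 171, nat_lit 0, nat_lit 0, nat_lit 277, nat_lit 0, nat_lit 0, nat_lit 0, nat_lit 0, nat_lit 0, nat_lit 180500, nat_lit 0, nat_lit 0, [(nat_lit 29, [(nat_lit 0, nat_lit 722)])],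
 ⟨p114_k7, nat_lit 0, nat_lit 0, nat_lit 116, nat_lit 0, nat_lit 0, [nat_lit 825079201, nat_lit 1667608001, nat_lit 3027280800], [], [nat_lit 25347073345, nat_lit 25917145123, nat_lit 26854781004, nat_lit 27379199439, nat_lit 25802238705, nat_lit 26301139713, nat_lit 27166919757, nat_lit 27647186411], nat_lit 0, nat_lit 0, nat_lit 0, nat_lit 0, nat_lit 0, nat_lit 0, [], [nat_lit 20, nat_lit 40, nat_lit 40, nat_lit 80, nat_lit 16, nat_lit 249, nat_lit 40, nat_lit 8]⟩, ⟨p114_k8, nat_lit 0, nat_lit 0, nat_lit 446, nat_lit 0, nat_lit 636554, [nat_lit 1303264000, nat_lit 2215104000, nat_lit 3908124000], [], [nat_lit 7563965574, nat_lit 7693603276, nat_lit 7922384554, nat_lit 8031672400, nat_lit 7678415454, nat_lit 7784700888, nat_lit 7975812560, nat_lit 8062795600], nat_lit 1271250, nat_lit 1271250, nat_lit 1271250, nat_lit 1271250, nat_lit 1100001, nat_lit 1785000, [nat_lit 1100000, nat_lit 1785000, nat_lit 1271250], [nat_lit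 37, nat_lit 40, nat_lit 40, nat_lit 80, nat_lit 28, nat_lit 456, nat_lit 225, nat_lit 10]⟩,
 ⟨nat_lit 0, nat_lit 1582, ⟨.ofNat (nat_lit 679215), .ofNat (nat_lit 733849), .ofNat (nat_lit 702515), .ofNat (nat_lit 757165), .ofNat (nat_lit 674999), .ofNat (nat_lit 724997), .ofNat (nat_lit 699984), .ofNat (nat_lit 749998)⟩, ⟨.ofNat (nat_lit 200000), .ofNat (nat_lit 328785), .ofNat (nat_lit 200000), .ofNat (nat_lit 352101), .ofNat (nat_lit 200000), .ofNat (nat_lit 324996), .ofNat (nat_lit 200000), .ofNat (nat_lit 349997)⟩⟩, [⟨nat_lit 13, nat_lit 24, nat_lit 89, nat_lit 100, nat_lit 476339335⟩, ⟨nat_lit 4, nat_lit 100, nat_lit 23, nat_lit 92, nat_lit 262149508⟩]⟩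
noncomputable def p114_l123 : Lf2 := ⟨nat_lit 0, nat_lit 30, [nat_lit 15, nat_lit 5, nat_lit 5, nat_lit 20], false, nat_lit 80, nat_lit 120, nat_lit 240, nat_lit 336, ⟨nat_lit 188, nat_lit 812, nat_lit 0, nat_lit 7, nat_lit 284, nat_lit 812, nat_lit 97, nat_lit 0, nat_lit 0, nat_lit 0, nat_lit 0, nat_lit 0, nat_lit 41493636, nat_lit 21537962, nat_lit 3968402, nat_lit 4379354, true, true⟩,
 nat_lit 0, nat_lit 0, nat_lit 2893, nat_lit 0, nat_lit 2713, nat_lit 1683, nat_lit 164, nat_lit 0, nat_lit 0, nat_lit 110, nat_lit 0, nat_lit 0, nat_lit 0, nat_lit 0, nat_lit 0, nat_lit 203000, nat_lit 0, nat_lit 0, [(nat_lit 29, [(nat_lit 0, nat_lit 812)])],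
 ⟨p114_k21, nat_lit 0, nat_lit 0, nat_lit 116, nat_lit 0, nat_lit 0, [nat_lit 811003200, nat_lit 1998980801, nat_lit 2625556800], [], [nat_lit 24944322681, nat_lit 25217670251, nat_lit 26420898781, nat_lit 26709898705, nat_lit 25221453434, nat_lit 25480835406, nat_lit 26623466114, nat_lit 26863129174], nat_lit 0, nat_lit 0, nat_lit 0, nat_lit 0, nat_lit 0, nat_lit 0, [], [nat_lit 55, nat_lit 40, nat_lit 40, nat_lit 80, nat_lit 3, nat_lit 238, nat_lit 30, nat_lit 7]⟩, ⟨p114_k19, nat_lit 0, nat_lit 0, nat_lit 373, nat_lit 0, nat_lit 491981, [nat_lit 881344000, nat_lit 1850296000, nat_lit 2642904000], [], [nat_lit 5788634062, nat_lit 5816230473, nat_lit 5970818600, nat_lit 5991925082, nat_lit 6137273806, nat_lit 6150715668, nat_lit 6297487365, nat_lit 6322327995], nat_lit 1271250, nat_lit 1271250, nat_lit 1271250, nat_lit 1271250, nat_lit 1271250, nat_lit 1271250, [nat_lit 1100000, nat_lit 2127500, nat_lit 1271250], [nat_lit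 56, nat_lit 40, nat_lit 40, nat_lit 80, nat_lit 32, nat_lit 483, nat_lit 250, nat_lit 10]⟩,
 ⟨nat_lit 1118, nat_lit 1582, ⟨.ofNat (nat_lit 679215), .ofNat (nat_lit 733851), .ofNat (nat_lit 690873), .ofNat (nat_lit 745508), .ofNat (nat_lit 677505), .ofNat (nat_lit 730633), .ofNat (nat_lit 689381), .ofNat (nat_lit 742508)⟩, ⟨.ofNat (nat_lit 200000), .ofNat (nat_lit 274152), .ofNat (nat_lit 200000), .ofNat (nat_lit 297467), .ofNat (nat_lit 200000), .ofNat (nat_lit 274990), .ofNat (nat_lit 200000), .ofNat (nat_lit 298741)⟩⟩, [⟨nat_lit 13, nat_lit 23, nat_lit 91, nat_lit 100, nat_lit 240468284⟩, ⟨nat_lit 22, nat_lit 100, nat_lit 100, nat_lit 100, nat_lit 63831740⟩]⟩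
noncomputable def p114_l124 : Lf2 := ⟨nat_lit 0, nat_lit 30, [nat_lit 15, nat_lit 5, nat_lit 5, nat_lit 20], false, nat_lit 80, nat_lit 120, nat_lit 240, nat_lit 336, ⟨nat_lit 136, nat_lit 864, nat_lit 0, nat_lit 7, nat_lit 281, nat_lit 864, nat_lit 97, nat_lit 0, nat_lit 0, nat_lit 0, nat_lit 0, nat_lit 0, nat_lit 41787468, nat_lit 21216767, nat_lit 3995765, nat_lit 4368508, true, true⟩,
 nat_lit 0, nat_lit 0, nat_lit 2104, nat_lit 0, nat_lit 2694, nat_lit 1224, nat_lit 133, nat_lit 0, nat_lit 0, nat_lit 80, nat_lit 0, nat_lit 0, nat_lit 0, nat_lit 0, nat_lit 0, nat_lit 216000, nat_lit 0, nat_lit 0, [(nat_lit 29, [(nat_lit 0, nat_lit 864)])],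
 ⟨p114_k22, nat_lit 0, nat_lit 0, nat_lit 117, nat_lit 0, nat_lit 0, [nat_lit 802870400, nat_lit 1826777601, nat_lit 2393449600], [], [nat_lit 25179204563, nat_lit 25455004461, nat_lit 26343678743, nat_lit 26646775546, nat_lit 25446870194, nat_lit 25705536089, nat_lit 26550911821, nat_lit 26801293055], nat_lit 0, nat_lit 0, nat_lit 0, nat_lit 0, nat_lit 0, nat_lit 0, [], [nat_lit 55, nat_lit 40, nat_lit 40, nat_lit 80, nat_lit 3, nat_lit 238, nat_lit 30, nat_lit 7]⟩, ⟨p114_k19, nat_lit 0, nat_lit 0, nat_lit 410, nat_lit 0, nat_lit 583063, [nat_lit 637568000, nat_lit 1338512000, nat_lit 1911888000], [], [nat_lit 4168468656, nat_lit 4188390616, nat_lit 4273973104, nat_lit 4290122424, nat_lit 4420590516, nat_lit 4431962791, nat_lit 4515211416, nat_lit 4534019182], nat_lit 1271250, nat_lit 1271250, nat_lit 1271250, nat_lit 1271250, nat_lit 1271250, nat_lit 1271250, [nat_lit 1100000, nat_lit 2127500, nat_lit 1271250], [nat_lit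 56, nat_lit 40, nat_lit 40, nat_lit 80, nat_lit 32, nat_lit 483, nat_lit 250, nat_lit 10]⟩,
 ⟨nat_lit 0, nat_lit 1119, ⟨.ofNat (nat_lit 677505), .ofNat (nat_lit 720005), .ofNat (nat_lit 689381), .ofNat (nat_lit 731881), .ofNat (nat_lit 674999), .ofNat (nat_lit 714997), .ofNat (nat_lit 687499), .ofNat (nat_lit 727497)⟩, ⟨.ofNat (nat_lit 200000), .ofNat (nat_lit 274990), .ofNat (nat_lit 200000), .ofNat (nat_lit 298741), .ofNat (nat_lit 200000), .ofNat (nat_lit 274999), .ofNat (nat_lit 200000), .ofNat (nat_lit 299999)⟩⟩, [⟨nat_lit 13, nat_lit 17, nat_lit 93, nat_lit 100, nat_lit 525364433⟩, ⟨nat_lit 22, nat_lit 100, nat_lit 97, nat_lit 99, nat_lit 46765470⟩]⟩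
noncomputable def p114_l125 : Lf2 := ⟨nat_lit 0, nat_lit 30, [nat_lit 15, nat_lit 5, nat_lit 5, nat_lit 20], false, nat_lit 80, nat_lit 120, nat_lit 240, nat_lit 336, ⟨nat_lit 221, nat_lit 779, nat_lit 0, nat_lit 7, nat_lit 289, nat_lit 779, nat_lit 97, nat_lit 0, nat_lit 0, nat_lit 0, nat_lit 0, nat_lit 0, nat_lit 41063952, nat_lit 21992695, nat_lit 3943353, nat_lit 4396641, true, true⟩,
 nat_lit 0, nat_lit 0, nat_lit 3097, nat_lit 0, nat_lit 2724, nat_lit 1885, nat_lit 174, nat_lit 0, nat_lit 0, nat_lit 141, nat_lit 0, nat_lit 0, nat_lit 0, nat_lit 0, nat_lit 0, nat_lit 194750, nat_lit 0, nat_lit 0, [(nat_lit 29, [(nat_lit 0, nat_lit 779)])],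
 ⟨p114_k21, nat_lit 0, nat_lit 0, nat_lit 116, nat_lit 0, nat_lit 0, [nat_lit 816164401, nat_lit 2108263600, nat_lit 2772855600], [], [nat_lit 24954675189, nat_lit 25228590248, nat_lit 26432867188, nat_lit 26728458840, nat_lit 25229806059, nat_lit 25489602602, nat_lit 26633170199, nat_lit 26876256673], nat_lit 0, nat_lit 0, nat_lit 0, nat_lit 0, nat_lit 0, nat_lit 0, [], [nat_lit 55, nat_lit 40, nat_lit 40, nat_lit 80, nat_lit 3, nat_lit 238, nat_lit 30, nat_lit 7]⟩, ⟨p114_k20, nat_lit 0, nat_lit 0, nat_lit 380, nat_lit 0, nat_lit 512083, [nat_lit 1036048000, nat_lit 2175082000, nat_lit 3106818000], [], [nat_lit 6530135046, nat_lit 6563169567, nat_lit 6735715005, nat_lit 6761421127, nat_lit 7000040511, nat_lit 7031812968, nat_lit 7199620920, nat_lit 7229013997], nat_lit 1271250, nat_lit 1271250, nat_lit 1271250, nat_lit 1271250, nat_lit 1271250, nat_lit 1271250, [nat_lit 1100000, nat_lit 2127500, nat_lit 1271250], [nat_lit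 56, nat_lit 40, nat_lit 40, nat_lit 80, nat_lit 32, nat_lit 483, nat_lit 250, nat_lit 10]⟩,
 ⟨nat_lit 1118, nat_lit 1582, ⟨.ofNat (nat_lit 690873), .ofNat (nat_lit 745508), .ofNat (nat_lit 702528), .ofNat (nat_lit 757166), .ofNat (nat_lit 689381), .ofNat (nat_lit 742508), .ofNat (nat_lit 701254), .ofNat (nat_lit 754383)⟩, ⟨.ofNat (nat_lit 200000), .ofNat (nat_lit 274152), .ofNat (nat_lit 200000), .ofNat (nat_lit 297467), .ofNat (nat_lit 200000), .ofNat (nat_lit 274990), .ofNat (nat_lit 200000), .ofNat (nat_lit 298741)⟩⟩, [⟨nat_lit 13, nat_lit 24, nat_lit 89, nat_lit 100, nat_lit 81985961⟩, ⟨nat_lit 10, nat_lit 100, nat_lit 92, nat_lit 96, nat_lit 89550332⟩]⟩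
noncomputable def p114_l126 : Lf2 := ⟨nat_lit 0, nat_lit 30, [nat_lit 15, nat_lit 5, nat_lit 5, nat_lit 20], false, nat_lit 80, nat_lit 120, nat_lit 240, nat_lit 336, ⟨nat_lit 173, nat_lit 827, nat_lit 0, nat_lit 7, nat_lit 286, nat_lit 827, nat_lit 97, nat_lit 0, nat_lit 0, nat_lit 0, nat_lit 0, nat_lit 0, nat_lit 41357926, nat_lit 21671035, nat_lit 3971039, nat_lit 4386630, true, true⟩,
 nat_lit 0, nat_lit 0, nat_lit 2388, nat_lit 0, nat_lit 2703, nat_lit 1454, nat_lit 141, nat_lit 0, nat_lit 0, nat_lit 104, nat_lit 0, nat_lit 0, nat_lit 0, nat_lit 0, nat_lit 0, nat_lit 206750, nat_lit 0, nat_lit 0, [(nat_lit 29, [(nat_lit 0, nat_lit 827)])],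
 ⟨p114_k22, nat_lit 0, nat_lit 0, nat_lit 118, nat_lit 0, nat_lit 0, [nat_lit 808657201, nat_lit 1949306801, nat_lit 2558602800], [], [nat_lit 25221469978, nat_lit 25497572757, nat_lit 26532497393, nat_lit 26831947748, nat_lit 25488868355, nat_lit 25747873444, nat_lit 26731870872, nat_lit 26977940972], nat_lit 0, nat_lit 0, nat_lit 0, nat_lit 0, nat_lit 0, nat_lit 0, [], [nat_lit 55, nat_lit 40, nat_lit 40, nat_lit 80, nat_lit 3, nat_lit 238, nat_lit 30, nat_lit 7]⟩, ⟨p114_k20, nat_lit 0, nat_lit 0, nat_lit 403, nat_lit 0, nat_lit 569264, [nat_lit 811024000, nat_lit 1702666000, nat_lit 2432034000], [], [nat_lit 5266671378, nat_lit 5279669819, nat_lit 5411309027, nat_lit 5421757220, nat_lit 5576375391, nat_lit 5583191695, nat_lit 5715041516, nat_lit 5727904415], nat_lit 1271250, nat_lit 1271250, nat_lit 1271250, nat_lit 1271250, nat_lit 1271250, nat_lit 1271250, [nat_lit 1100000, nat_lit 2127500, nat_lit 1271250], [nat_lit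 56, nat_lit 40, nat_lit 40, nat_lit 80, nat_lit 32, nat_lit 483, nat_lit 250, nat_lit 10]⟩,
 ⟨nat_lit 0, nat_lit 1119, ⟨.ofNat (nat_lit 689381), .ofNat (nat_lit 737194), .ofNat (nat_lit 695319), .ofNat (nat_lit 743132), .ofNat (nat_lit 687499), .ofNat (nat_lit 732498), .ofNat (nat_lit 693749), .ofNat (nat_lit 738748)⟩, ⟨.ofNat (nat_lit 200000), .ofNat (nat_lit 274990), .ofNat (nat_lit 200000), .ofNat (nat_lit 298741), .ofNat (nat_lit 200000), .ofNat (nat_lit 274999), .ofNat (nat_lit 200000), .ofNat (nat_lit 299999)⟩⟩, [⟨nat_lit 13, nat_lit 17, nat_lit 93, nat_lit 100, nat_lit 488363046⟩, ⟨nat_lit 10, nat_lit 77, nat_lit 92, nat_lit 100, nat_lit 63915854⟩]⟩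
noncomputable def p114_l127 : Lf2 := ⟨nat_lit 0, nat_lit 30, [nat_lit 15, nat_lit 5, nat_lit 5, nat_lit 20], false, nat_lit 80, nat_lit 120, nat_lit 240, nat_lit 336, ⟨nat_lit 230, nat_lit 770, nat_lit 0, nat_lit 7, nat_lit 289, nat_lit 770, nat_lit 97, nat_lit 0, nat_lit 0, nat_lit 0, nat_lit 0, nat_lit 0, nat_lit 41041685, nat_lit 22005837, nat_lit 3952478, nat_lit 4399202, true, true⟩,
 nat_lit 0, nat_lit 0, nat_lit 3028, nat_lit 0, nat_lit 2717, nat_lit 1885, nat_lit 154, nat_lit 0, nat_lit 0, nat_lit 149, nat_lit 0, nat_lit 0, nat_lit 0, nat_lit 0, nat_lit 0, nat_lit 192500, nat_lit 0, nat_lit 0, [(nat_lit 29, [(nat_lit 0, nat_lit 770)])],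
 ⟨p114_k22, nat_lit 0, nat_lit 0, nat_lit 119, nat_lit 0, nat_lit 0, [nat_lit 817572000, nat_lit 2138068001, nat_lit 2813028000], [], [nat_lit 25278214109, nat_lit 25552707898, nat_lit 26734568897, nat_lit 27026116972, nat_lit 25543029727, nat_lit 25802562452, nat_lit 26925795439, nat_lit 27165589756], nat_lit 0, nat_lit 0, nat_lit 0, nat_lit 0, nat_lit 0, nat_lit 0, [], [nat_lit 55, nat_lit 40, nat_lit 40, nat_lit 80, nat_lit 3, nat_lit 238, nat_lit 30, nat_lit 7]⟩, ⟨p114_k38, nat_lit 0, nat_lit 0, nat_lit 404, nat_lit 0, nat_lit 575629, [nat_lit 1078240000, nat_lit 2263660000, nat_lit 3233340000], [], [nat_lit 6760440663, nat_lit 6777874645, nat_lit 6969918330, nat_lit 6984339710, nat_lit 7249256260, nat_lit 7266052558, nat_lit 7452739623, nat_lit 7465908010], nat_lit 1271250, nat_lit 1271250, nat_lit 1271250, nat_lit 1271250, nat_lit 1271250, nat_lit 1271250, [nat_lit 1100000, nat_lit 2127500, nat_lit 1271250], [nat_lit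 56, nat_lit 40, nat_lit 40, nat_lit 80, nat_lit 32, nat_lit 483, nat_lit 250, nat_lit 10]⟩,
 ⟨nat_lit 0, nat_lit 1119, ⟨.ofNat (nat_lit 695319), .ofNat (nat_lit 748444), .ofNat (nat_lit 701253), .ofNat (nat_lit 754382), .ofNat (nat_lit 693749), .ofNat (nat_lit 743747), .ofNat (nat_lit 699996), .ofNat (nat_lit 749998)⟩, ⟨.ofNat (nat_lit 200000), .ofNat (nat_lit 274990), .ofNat (nat_lit 200000), .ofNat (nat_lit 298741), .ofNat (nat_lit 200000), .ofNat (nat_lit 274999), .ofNat (nat_lit 200000), .ofNat (nat_lit 299999)⟩⟩, [⟨nat_lit 13, nat_lit 17, nat_lit 92, nat_lit 100, nat_lit 585836182⟩, ⟨nat_lit 19, nat_lit 100, nat_lit 83, nat_lit 97, nat_lit 67034214⟩, ⟨nat_lit 10, nat_lit 77, nat_lit 91, nat_lit 100, nat_lit 18732937⟩]⟩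
noncomputable def p114_l128 : Lf2 := ⟨nat_lit 0, nat_lit 28, [nat_lit 157, nat_lit 5, nat_lit 5, nat_lit 20], false, nat_lit 120, nat_lit 160, nat_lit 240, nat_lit 352, ⟨nat_lit 175, nat_lit 825, nat_lit 0, nat_lit 7, nat_lit 283, nat_lit 825, nat_lit 125, nat_lit 0, nat_lit 0, nat_lit 0, nat_lit 0, nat_lit 0, nat_lit 40281207, nat_lit 20980020, nat_lit 5738773, nat_lit 4689028, true, true⟩,
 nat_lit 0, nat_lit 0, nat_lit 2748, nat_lit 0, nat_lit 2761, nat_lit 1599, nat_lit 159, nat_lit 0, nat_lit 0, nat_lit 111, nat_lit 0, nat_lit 0, nat_lit 0, nat_lit 0, nat_lit 0, nat_lit 206250, nat_lit 0, nat_lit 0, [(nat_lit 29, [(nat_lit 0, nat_lit 825)])],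
 ⟨p114_k39, nat_lit 0, nat_lit 0, nat_lit 101, nat_lit 0, nat_lit 0, [nat_lit 808970001, nat_lit 1955930001, nat_lit 2567530000], [], [nat_lit 25201311251, nat_lit 25361105659, nat_lit 26631737477, nat_lit 26810704113, nat_lit 25469715243, nat_lit 25619406479, nat_lit 26819506634, nat_lit 26957981355], nat_lit 0, nat_lit 0, nat_lit 0, nat_lit 0, nat_lit 0, nat_lit 0, [], [nat_lit 55, nat_lit 40, nat_lit 40, nat_lit 80, nat_lit 3, nat_lit 249, nat_lit 40, nat_lit 8]⟩, ⟨p114_k40, nat_lit 0, nat_lit 0, nat_lit 297, nat_lit 0, nat_lit 413708, [nat_lit 820400000, nat_lit 1722350000, nat_lit 2460150000], [], [nat_lit 5191785646, nat_lit 5204526776, nat_lit 5361807408, nat_lit 5374886128, nat_lit 5703043960, nat_lit 5713806918, nat_lit 5855414886, nat_lit 5863589920], nat_lit 1271250, nat_lit 1271250, nat_lit 1271250, nat_lit 1271250, nat_lit 1271250, nat_lit 1271250, [nat_lit 1100000, nat_lit 2127500, nat_lit 1271250], [nat_lit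 56, nat_lit 40, nat_lit 40, nat_lit 80, nat_lit 32, nat_lit 483, nat_lit 250, nat_lit 10]⟩,
 ⟨nat_lit 1322, nat_lit 1582, ⟨.ofNat (nat_lit 679215), .ofNat (nat_lit 733851), .ofNat (nat_lit 685044), .ofNat (nat_lit 739680), .ofNat (nat_lit 678211), .ofNat (nat_lit 731989), .ofNat (nat_lit 684100), .ofNat (nat_lit 737877)⟩, ⟨.ofNat (nat_lit 274152), .ofNat (nat_lit 328788), .ofNat (nat_lit 297467), .ofNat (nat_lit 352103), .ofNat (nat_lit 274681), .ofNat (nat_lit 328458), .ofNat (nat_lit 298233), .ofNat (nat_lit 352011)⟩⟩, [⟨nat_lit 13, nat_lit 30, nat_lit 86, nat_lit 100, nat_lit 227636240⟩, ⟨nat_lit 13, nat_lit 27, nat_lit 88, nat_lit 100, nat_lit 174982011⟩, ⟨nat_lit 16, nat_lit 29, nat_lit 100, nat_lit 91, nat_lit 213118312⟩, ⟨nat_lit 19, nat_lit 100, nat_lit 74, nat_lit 94, nat_lit 70186547⟩]⟩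
noncomputable def p114_l129 : Lf2 := ⟨nat_lit 0, nat_lit 28, [nat_lit 157, nat_lit 5, nat_lit 5, nat_lit 20], false, nat_lit 120, nat_lit 160, nat_lit 240, nat_lit 352, ⟨nat_lit 158, nat_lit 842, nat_lit 0, nat_lit 7, nat_lit 282, nat_lit 842, nat_lit 125, nat_lit 0, nat_lit 0, nat_lit 0, nat_lit 0, nat_lit 0, nat_lit 40411741, nat_lit 20833404, nat_lit 5754855, nat_lit 4684221, true, true⟩,
 nat_lit 0, nat_lit 0, nat_lit 2492, nat_lit 0, nat_lit 2759, nat_lit 1450, nat_lit 146, nat_lit 0, nat_lit 0, nat_lit 101, nat_lit 0, nat_lit 0, nat_lit 0, nat_lit 0, nat_lit 0, nat_lit 210500, nat_lit 0, nat_lit 0, [(nat_lit 29, [(nat_lit 0, nat_lit 842)])],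
 ⟨p114_k41, nat_lit 0, nat_lit 0, nat_lit 102, nat_lit 0, nat_lit 0, [nat_lit 806311200, nat_lit 1899632801, nat_lit 2491648800], [], [nat_lit 25330964362, nat_lit 25437572869, nat_lit 26639566820, nat_lit 26759952410, nat_lit 25587914419, nat_lit 25687680565, nat_lit 26792437227, nat_lit 26906219442], nat_lit 0, nat_lit 0, nat_lit 0, nat_lit 0, nat_lit 0, nat_lit 0, [], [nat_lit 55, nat_lit 40, nat_lit 40, nat_lit 80, nat_lit 3, nat_lit 249, nat_lit 40, nat_lit 7]⟩, ⟨p114_k40, nat_lit 0, nat_lit 0, nat_lit 311, nat_lit 0, nat_lit 449764, [nat_lit 740704000, nat_lit 1555036000, nat_lit 2221164000], [], [nat_lit 4663122080, nat_lit 4674605369, nat_lit 4801353480, nat_lit 4815298446, nat_lit 5132910433, nat_lit 5142601269, nat_lit 5256746935, nat_lit 5264074134], nat_lit 1271250, nat_lit 1271250, nat_lit 1271250, nat_lit 1271250, nat_lit 1271250, nat_lit 1271250, [nat_lit 1100000, nat_lit 2127500, nat_lit 1271250], [nat_lit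 56, nat_lit 40, nat_lit 40, nat_lit 80, nat_lit 32, nat_lit 483, nat_lit 250, nat_lit 10]⟩,
 ⟨nat_lit 1118, nat_lit 1323, ⟨.ofNat (nat_lit 678211), .ofNat (nat_lit 726611), .ofNat (nat_lit 684100), .ofNat (nat_lit 732500), .ofNat (nat_lit 677505), .ofNat (nat_lit 725320), .ofNat (nat_lit 683443), .ofNat (nat_lit 731258)⟩, ⟨.ofNat (nat_lit 274681), .ofNat (nat_lit 328458), .ofNat (nat_lit 298233), .ofNat (nat_lit 352011), .ofNat (nat_lit 274990), .ofNat (nat_lit 328117), .ofNat (nat_lit 298741), .ofNat (nat_lit 351868)⟩⟩, [⟨nat_lit 13, nat_lit 28, nat_lit 87, nat_lit 100, nat_lit 430118841⟩, ⟨nat_lit 4, nat_lit 100, nat_lit 25, nat_lit 92, nat_lit 233979361⟩, ⟨nat_lit 19, nat_lit 100, nat_lit 74, nat_lit 94, nat_lit 63766004⟩]⟩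
noncomputable def p114_l130 : Lf2 := ⟨nat_lit 0, nat_lit 28, [nat_lit 157, nat_lit 5, nat_lit 5, nat_lit 20], false, nat_lit 120, nat_lit 160, nat_lit 240, nat_lit 348, ⟨nat_lit 191, nat_lit 809, nat_lit 0, nat_lit 7, nat_lit 285, nat_lit 809, nat_lit 125, nat_lit 0, nat_lit 0, nat_lit 0, nat_lit 0, nat_lit 0, nat_lit 40120200, nat_lit 21155717, nat_lit 5724083, nat_lit 4695424, true, true⟩,
 nat_lit 0, nat_lit 0, nat_lit 2824, nat_lit 0, nat_lit 2766, nat_lit 1681, nat_lit 161, nat_lit 0, nat_lit 0, nat_lit 122, nat_lit 0, nat_lit 0, nat_lit 0, nat_lit 0, nat_lit 0, nat_lit 202250, nat_lit 0, nat_lit 0, [(nat_lit 29, [(nat_lit 0, nat_lit 809)])],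
 ⟨p114_k39, nat_lit 0, nat_lit 0, nat_lit 101, nat_lit 0, nat_lit 0, [nat_lit 811472401, nat_lit 2008915601, nat_lit 2638947600], [], [nat_lit 25244727898, nat_lit 25404486001, nat_lit 26672752589, nat_lit 26820408543, nat_lit 25512222853, nat_lit 25662019128, nat_lit 26862568399, nat_lit 27001134505], nat_lit 0, nat_lit 0, nat_lit 0, nat_lit 0, nat_lit 0, nat_lit 0, [], [nat_lit 55, nat_lit 40, nat_lit 40, nat_lit 80, nat_lit 3, nat_lit 249, nat_lit 40, nat_lit 8]⟩, ⟨p114_k42, nat_lit 0, nat_lit 0, nat_lit 296, nat_lit 0, nat_lit 414898, [nat_lit 895408000, nat_lit 1879822000, nat_lit 2685078000], [], [nat_lit 5658496923, nat_lit 5666963006, nat_lit 5839950587, nat_lit 5846466490, nat_lit 6172032135, nat_lit 6179472330, nat_lit 6338276038, nat_lit 6343857171], nat_lit 1271250, nat_lit 1271250, nat_lit 1271250, nat_lit 1271250, nat_lit 1271250, nat_lit 1271250, [nat_lit 1100000, nat_lit 2127500, nat_lit 1271250], [nat_lit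 56, nat_lit 40, nat_lit 40, nat_lit 80, nat_lit 32, nat_lit 483, nat_lit 250, nat_lit 10]⟩,
 ⟨nat_lit 1322, nat_lit 1582, ⟨.ofNat (nat_lit 685044), .ofNat (nat_lit 739680), .ofNat (nat_lit 688541), .ofNat (nat_lit 743177), .ofNat (nat_lit 684100), .ofNat (nat_lit 737877), .ofNat (nat_lit 687632), .ofNat (nat_lit 741410)⟩, ⟨.ofNat (nat_lit 274152), .ofNat (nat_lit 328788), .ofNat (nat_lit 297467), .ofNat (nat_lit 352103), .ofNat (nat_lit 274681), .ofNat (nat_lit 328458), .ofNat (nat_lit 298233), .ofNat (nat_lit 352011)⟩⟩, [⟨nat_lit 13, nat_lit 28, nat_lit 87, nat_lit 100, nat_lit 391164656⟩, ⟨nat_lit 16, nat_lit 29, nat_lit 100, nat_lit 91, nat_lit 239095793⟩, ⟨nat_lit 7, nat_lit 76, nat_lit 100, nat_lit 95, nat_lit 74588179⟩]⟩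
noncomputable def p114_l131 : Lf2 := ⟨nat_lit 0, nat_lit 28, [nat_lit 157, nat_lit 5, nat_lit 5, nat_lit 20], false, nat_lit 120, nat_lit 160, nat_lit 240, nat_lit 348, ⟨nat_lit 185, nat_lit 815, nat_lit 0, nat_lit 7, nat_lit 284, nat_lit 815, nat_lit 125, nat_lit 0, nat_lit 0, nat_lit 0, nat_lit 0, nat_lit 0, nat_lit 40248970, nat_lit 21010949, nat_lit 5740081, nat_lit 4690841, true, true⟩,
 nat_lit 0, nat_lit 0, nat_lit 2755, nat_lit 0, nat_lit 2768, nat_lit 1640, nat_lit 151, nat_lit 0, nat_lit 0, nat_lit 119, nat_lit 0, nat_lit 0, nat_lit 0, nat_lit 0, nat_lit 0, nat_lit 203750, nat_lit 0, nat_lit 0, [(nat_lit 29, [(nat_lit 0, nat_lit 815)])],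
 ⟨p114_k41, nat_lit 0, nat_lit 0, nat_lit 102, nat_lit 0, nat_lit 0, [nat_lit 810534000, nat_lit 1989046000, nat_lit 2612166000], [], [nat_lit 25377201998, nat_lit 25483949762, nat_lit 26652324015, nat_lit 26772874788, nat_lit 25632488687, nat_lit 25732380880, nat_lit 26837887106, nat_lit 26932459062], nat_lit 0, nat_lit 0, nat_lit 0, nat_lit 0, nat_lit 0, nat_lit 0, [], [nat_lit 55, nat_lit 40, nat_lit 40, nat_lit 80, nat_lit 3, nat_lit 249, nat_lit 40, nat_lit 7]⟩, ⟨p114_k42, nat_lit 0, nat_lit 0, nat_lit 310, nat_lit 0, nat_lit 449386, [nat_lit 867280000, nat_lit 1820770000, nat_lit 2600730000], [], [nat_lit 5444307385, nat_lit 5452484996, nat_lit 5602611265, nat_lit 5609084111, nat_lit 5949993153, nat_lit 5957171253, nat_lit 6095793334, nat_lit 6103101825], nat_lit 1271250, nat_lit 1271250, nat_lit 1271250, nat_lit 1271250, nat_lit 1271250, nat_lit 1271250, [nat_lit 1100000, nat_lit 2127500, nat_lit 1271250], [nat_lit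 56, nat_lit 40, nat_lit 40, nat_lit 80, nat_lit 32, nat_lit 483, nat_lit 250, nat_lit 10]⟩,
 ⟨nat_lit 1118, nat_lit 1323, ⟨.ofNat (nat_lit 684100), .ofNat (nat_lit 732500), .ofNat (nat_lit 687632), .ofNat (nat_lit 736032), .ofNat (nat_lit 683443), .ofNat (nat_lit 731258), .ofNat (nat_lit 687006), .ofNat (nat_lit 734820)⟩, ⟨.ofNat (nat_lit 274681), .ofNat (nat_lit 328458), .ofNat (nat_lit 298233), .ofNat (nat_lit 352011), .ofNat (nat_lit 274990), .ofNat (nat_lit 328117), .ofNat (nat_lit 298741), .ofNat (nat_lit 351868)⟩⟩, [⟨nat_lit 13, nat_lit 26, nat_lit 88, nat_lit 100, nat_lit 149500736⟩, ⟨nat_lit 13, nat_lit 28, nat_lit 87, nat_lit 100, nat_lit 260114127⟩, ⟨nat_lit 4, nat_lit 100, nat_lit 25, nat_lit 92, nat_lit 272823117⟩, ⟨nat_lit 19, nat_lit 100, nat_lit 76, nat_lit 95, nat_lit 72909719⟩]⟩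
noncomputable def p114_l132 : Lf2 := ⟨nat_lit 0, nat_lit 28, [nat_lit 157, nat_lit 5, nat_lit 5, nat_lit 20], false, nat_lit 120, nat_lit 160, nat_lit 240, nat_lit 348, ⟨nat_lit 200, nat_lit 800, nat_lit 0, nat_lit 7, nat_lit 286, nat_lit 800, nat_lit 125, nat_lit 0, nat_lit 0, nat_lit 0, nat_lit 0, nat_lit 0, nat_lit 40035097, nat_lit 21247461, nat_lit 5717442, nat_lit 4698874, true, true⟩,
 nat_lit 0, nat_lit 0, nat_lit 2863, nat_lit 0, nat_lit 2766, nat_lit 1728, nat_lit 165, nat_lit 0, nat_lit 0, nat_lit 129, nat_lit 0, nat_lit 0, nat_lit 0, nat_lit 0, nat_lit 0, nat_lit 200000, nat_lit 0, nat_lit 0, [(nat_lit 29, [(nat_lit 0, nat_lit 800)])],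
 ⟨p114_k39, nat_lit 0, nat_lit 0, nat_lit 102, nat_lit 0, nat_lit 0, [nat_lit 812880001, nat_lit 2038720001, nat_lit 2679120000], [], [nat_lit 25231307898, nat_lit 25496375219, nat_lit 26657924989, nat_lit 26937279870, nat_lit 25498802853, nat_lit 25748463311, nat_lit 26849148399, nat_lit 27080101882], nat_lit 0, nat_lit 0, nat_lit 0, nat_lit 0, nat_lit 0, nat_lit 0, [], [nat_lit 55, nat_lit 40, nat_lit 40, nat_lit 80, nat_lit 3, nat_lit 249, nat_lit 40, nat_lit 8]⟩, ⟨p114_k43, nat_lit 0, nat_lit 0, nat_lit 311, nat_lit 0, nat_lit 450145, [nat_lit 937600000, nat_lit 1968400000, nat_lit 2811600000], [], [nat_lit 5889364041, nat_lit 5895315010, nat_lit 6077731508, nat_lit 6085380436, nat_lit 6426461717, nat_lit 6431707172, nat_lit 6599735546, nat_lit 6604930200], nat_lit 1271250, nat_lit 1271250, nat_lit 1271250, nat_lit 1271250, nat_lit 1271250, nat_lit 1271250, [nat_lit 1100000, nat_lit 2127500, nat_lit 1271250], [nat_lit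 56, nat_lit 40, nat_lit 40, nat_lit 80, nat_lit 32, nat_lit 483, nat_lit 250, nat_lit 10]⟩,
 ⟨nat_lit 1118, nat_lit 1582, ⟨.ofNat (nat_lit 688541), .ofNat (nat_lit 743177), .ofNat (nat_lit 690873), .ofNat (nat_lit 745508), .ofNat (nat_lit 687006), .ofNat (nat_lit 740133), .ofNat (nat_lit 689381), .ofNat (nat_lit 742508)⟩, ⟨.ofNat (nat_lit 274152), .ofNat (nat_lit 328788), .ofNat (nat_lit 297467), .ofNat (nat_lit 352103), .ofNat (nat_lit 274990), .ofNat (nat_lit 328117), .ofNat (nat_lit 298741), .ofNat (nat_lit 351868)⟩⟩, [⟨nat_lit 13, nat_lit 29, nat_lit 86, nat_lit 100, nat_lit 157197137⟩, ⟨nat_lit 13, nat_lit 24, nat_lit 89, nat_lit 100, nat_lit 248309425⟩, ⟨nat_lit 4, nat_lit 100, nat_lit 28, nat_lit 91, nat_lit 244804094⟩, ⟨nat_lit 7, nat_lit 78, nat_lit 100, nat_lit 95, nat_lit 78171861⟩]⟩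
noncomputable def p114_l133 : Lf2 := ⟨nat_lit 0, nat_lit 30, [nat_lit 15, nat_lit 5, nat_lit 5, nat_lit 20], false, nat_lit 120, nat_lit 160, nat_lit 240, nat_lit 352, ⟨nat_lit 563, nat_lit 437, nat_lit 0, nat_lit 7, nat_lit 284, nat_lit 437, nat_lit 125, nat_lit 0, nat_lit 0, nat_lit 0, nat_lit 0, nat_lit 0, nat_lit 40196595, nat_lit 21071168, nat_lit 5732237, nat_lit 4692556, true, true⟩,
 nat_lit 0, nat_lit 0, nat_lit 5655, nat_lit 0, nat_lit 2929, nat_lit 3291, nat_lit 264, nat_lit 0, nat_lit 0, nat_lit 334, nat_lit 0, nat_lit 0, nat_lit 0, nat_lit 0, nat_lit 0, nat_lit 109250, nat_lit 0, nat_lit 0, [(nat_lit 29, [(nat_lit 0, nat_lit 437)])],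
 ⟨p114_k21, nat_lit 0, nat_lit 0, nat_lit 102, nat_lit 0, nat_lit 0, [nat_lit 869653201, nat_lit 3240830800, nat_lit 4299406800], [], [nat_lit 25467322231, nat_lit 25740419524, nat_lit 26915982404, nat_lit 27174107990, nat_lit 25687068939, nat_lit 25942436516, nat_lit 27069612834, nat_lit 27310120933], nat_lit 0, nat_lit 0, nat_lit 0, nat_lit 0, nat_lit 0, nat_lit 0, [], [nat_lit 55, nat_lit 40, nat_lit 40, nat_lit 80, nat_lit 3, nat_lit 249, nat_lit 40, nat_lit 8]⟩, ⟨p114_k19, nat_lit 0, nat_lit 0, nat_lit 277, nat_lit 0, nat_lit 361990, [nat_lit 2639344000, nat_lit 5541046000, nat_lit 7914654000], [], [nat_lit 17748263274, nat_lit 17877994055, nat_lit 18431413524, nat_lit 18543963412, nat_lit 19475908824, nat_lit 19561590901, nat_lit 19966795872, nat_lit 20045301956], nat_lit 1271250, nat_lit 1271250, nat_lit 1271250, nat_lit 1271250, nat_lit 1271250, nat_lit 1271250, [nat_lit 1100000, nat_lit 2127500, nat_lit 1271250],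 [nat_lit 56, nat_lit 40, nat_lit 40, nat_lit 80, nat_lit 32, nat_lit 483, nat_lit 250, nat_lit 10]⟩,
 ⟨nat_lit 1118, nat_lit 1582, ⟨.ofNat (nat_lit 679215), .ofNat (nat_lit 733851), .ofNat (nat_lit 690873), .ofNat (nat_lit 745508), .ofNat (nat_lit 677505), .ofNat (nat_lit 730633), .ofNat (nat_lit 689381), .ofNat (nat_lit 742508)⟩, ⟨.ofNat (nat_lit 274152), .ofNat (nat_lit 328788), .ofNat (nat_lit 297467), .ofNat (nat_lit 352103), .ofNat (nat_lit 274990), .ofNat (nat_lit 328117), .ofNat (nat_lit 298741), .ofNat (nat_lit 351868)⟩⟩, [⟨nat_lit 4, nat_lit 100, nat_lit 28, nat_lit 91, nat_lit 476705596⟩, ⟨nat_lit 19, nat_lit 100, nat_lit 76, nat_lit 94, nat_lit 221892521⟩]⟩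
noncomputable def p114_l134 : Lf2 := ⟨nat_lit 0, nat_lit 30, [nat_lit 15, nat_lit 5, nat_lit 5, nat_lit 20], false, nat_lit 120, nat_lit 160, nat_lit 240, nat_lit 352, ⟨nat_lit 158, nat_lit 842, nat_lit 0, nat_lit 7, nat_lit 279, nat_lit 842, nat_lit 125, nat_lit 0, nat_lit 0, nat_lit 0, nat_lit 0, nat_lit 0, nat_lit 40679676, nat_lit 20553420, nat_lit 5766904, nat_lit 4671469, true, true⟩,
 nat_lit 0, nat_lit 0, nat_lit 2501, nat_lit 0, nat_lit 2763, nat_lit 1455, nat_lit 138, nat_lit 0, nat_lit 0, nat_lit 102, nat_lit 0, nat_lit 0, nat_lit 0, nat_lit 0, nat_lit 0, nat_lit 210500, nat_lit 0, nat_lit 0, [(nat_lit 29, [(nat_lit 0, nat_lit 842)])],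
 ⟨p114_k22, nat_lit 0, nat_lit 0, nat_lit 102, nat_lit 0, nat_lit 0, [nat_lit 806311200, nat_lit 1899632801, nat_lit 2491648800], [], [nat_lit 25441086205, nat_lit 25707762202, nat_lit 26431244926, nat_lit 26737951219, nat_lit 25688571955, nat_lit 25938127374, nat_lit 26620488786, nat_lit 26882762154], nat_lit 0, nat_lit 0, nat_lit 0, nat_lit 0, nat_lit 0, nat_lit 0, [], [nat_lit 55, nat_lit 40, nat_lit 40, nat_lit 80, nat_lit 3, nat_lit 249, nat_lit 40, nat_lit 7]⟩, ⟨p114_k19, nat_lit 0, nat_lit 0, nat_lit 400, nat_lit 0, nat_lit 558448, [nat_lit 740704000, nat_lit 1555036000, nat_lit 2221164000], [], [nat_lit 4637928350, nat_lit 4649395742, nat_lit 4745488694, nat_lit 4758297358, nat_lit 5118287735, nat_lit 5127957583, nat_lit 5214619903, nat_lit 5222446069], nat_lit 1271250, nat_lit 1271250, nat_lit 1271250, nat_lit 1271250, nat_lit 1271250, nat_lit 1271250, [nat_lit 1100000, nat_lit 2127500, nat_lit 1271250], [nat_lit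 56, nat_lit 40, nat_lit 40, nat_lit 80, nat_lit 32, nat_lit 483, nat_lit 250, nat_lit 10]⟩,
 ⟨nat_lit 0, nat_lit 1119, ⟨.ofNat (nat_lit 677505), .ofNat (nat_lit 714693), .ofNat (nat_lit 683443), .ofNat (nat_lit 720631), .ofNat (nat_lit 674999), .ofNat (nat_lit 709998), .ofNat (nat_lit 681249), .ofNat (nat_lit 716248)⟩, ⟨.ofNat (nat_lit 274990), .ofNat (nat_lit 328114), .ofNat (nat_lit 298741), .ofNat (nat_lit 351866), .ofNat (nat_lit 274999), .ofNat (nat_lit 324996), .ofNat (nat_lit 299999), .ofNat (nat_lit 349997)⟩⟩, [⟨nat_lit 13, nat_lit 23, nat_lit 90, nat_lit 100, nat_lit 528981689⟩, ⟨nat_lit 16, nat_lit 23, nat_lit 100, nat_lit 93, nat_lit 283159151⟩, ⟨nat_lit 19, nat_lit 100, nat_lit 74, nat_lit 94, nat_lit 64239519⟩]⟩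
noncomputable def p114_l135 : Lf2 := ⟨nat_lit 0, nat_lit 30, [nat_lit 15, nat_lit 5, nat_lit 5, nat_lit 20], false, nat_lit 120, nat_lit 160, nat_lit 240, nat_lit 348, ⟨nat_lit 194, nat_lit 806, nat_lit 0, nat_lit 7, nat_lit 282, nat_lit 806, nat_lit 125, nat_lit 0, nat_lit 0, nat_lit 0, nat_lit 0, nat_lit 0, nat_lit 40422400, nat_lit 20833757, nat_lit 5743843, nat_lit 4682331, true, true⟩,
 nat_lit 0, nat_lit 0, nat_lit 2898, nat_lit 0, nat_lit 2723, nat_lit 1725, nat_lit 150, nat_lit 0, nat_lit 0, nat_lit 126, nat_lit 0, nat_lit 0, nat_lit 0, nat_lit 0, nat_lit 0, nat_lit 201500, nat_lit 0, nat_lit 0, [(nat_lit 29, [(nat_lit 0, nat_lit 806)])],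
 ⟨p114_k22, nat_lit 0, nat_lit 0, nat_lit 103, nat_lit 0, nat_lit 0, [nat_lit 811941600, nat_lit 2018850401, nat_lit 2652338400], [], [nat_lit 25435269334, nat_lit 25695028188, nat_lit 26542048236, nat_lit 26843786105, nat_lit 25698978055, nat_lit 25947132954, nat_lit 26760624918, nat_lit 26993962830], nat_lit 0, nat_lit 0, nat_lit 0, nat_lit 0, nat_lit 0, nat_lit 0, [], [nat_lit 55, nat_lit 40, nat_lit 40, nat_lit 80, nat_lit 3, nat_lit 249, nat_lit 40, nat_lit 7]⟩, ⟨p114_k24, nat_lit 0, nat_lit 0, nat_lit 397, nat_lit 0, nat_lit 553952, [nat_lit 909472000, nat_lit 1909348000, nat_lit 2727252000], [], [nat_lit 5678939255, nat_lit 5687504744, nat_lit 5827154934, nat_lit 5838740857, nat_lit 6221771234, nat_lit 6229286004, nat_lit 6356917149, nat_lit 6362908382], nat_lit 1271250, nat_lit 1271250, nat_lit 1271250, nat_lit 1271250, nat_lit 1271250, nat_lit 1271250, [nat_lit 1100000, nat_lit 2127500, nat_lit 1271250], [nat_lit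 56, nat_lit 40, nat_lit 40, nat_lit 80, nat_lit 32, nat_lit 483, nat_lit 250, nat_lit 10]⟩,
 ⟨nat_lit 0, nat_lit 1119, ⟨.ofNat (nat_lit 683443), .ofNat (nat_lit 725943), .ofNat (nat_lit 687006), .ofNat (nat_lit 729506), .ofNat (nat_lit 681249), .ofNat (nat_lit 721247), .ofNat (nat_lit 684999), .ofNat (nat_lit 724997)⟩, ⟨.ofNat (nat_lit 274990), .ofNat (nat_lit 328114), .ofNat (nat_lit 298741), .ofNat (nat_lit 351866), .ofNat (nat_lit 274999), .ofNat (nat_lit 324996), .ofNat (nat_lit 299999), .ofNat (nat_lit 349997)⟩⟩, [⟨nat_lit 13, nat_lit 24, nat_lit 89, nat_lit 100, nat_lit 457579850⟩, ⟨nat_lit 16, nat_lit 23, nat_lit 100, nat_lit 93, nat_lit 326964567⟩, ⟨nat_lit 19, nat_lit 100, nat_lit 76, nat_lit 95, nat_lit 76839776⟩]⟩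
noncomputable def p114_l136 : Lf2 := ⟨nat_lit 0, nat_lit 30, [nat_lit 15, nat_lit 5, nat_lit 5, nat_lit 20], false, nat_lit 120, nat_lit 160, nat_lit 240, nat_lit 348, ⟨nat_lit 205, nat_lit 795, nat_lit 0, nat_lit 7, nat_lit 283, nat_lit 795, nat_lit 125, nat_lit 0, nat_lit 0, nat_lit 0, nat_lit 0, nat_lit 0, nat_lit 40317466, nat_lit 20948177, nat_lit 5734357, nat_lit 4686624, true, true⟩,
 nat_lit 0, nat_lit 0, nat_lit 2948, nat_lit 0, nat_lit 2727, nat_lit 1779, nat_lit 153, nat_lit 0, nat_lit 0, nat_lit 133, nat_lit 0, nat_lit 0, nat_lit 0, nat_lit 0, nat_lit 0, nat_lit 198750, nat_lit 0, nat_lit 0, [(nat_lit 29, [(nat_lit 0, nat_lit 795)])],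
 ⟨p114_k22, nat_lit 0, nat_lit 0, nat_lit 103, nat_lit 0, nat_lit 0, [nat_lit 813662001, nat_lit 2055278001, nat_lit 2701438000], [], [nat_lit 25437384281, nat_lit 25697293888, nat_lit 26547396881, nat_lit 26849647216, nat_lit 25700355071, nat_lit 25948650022, nat_lit 26762342029, nat_lit 26996418146], nat_lit 0, nat_lit 0, nat_lit 0, nat_lit 0, nat_lit 0, nat_lit 0, [], [nat_lit 55, nat_lit 40, nat_lit 40, nat_lit 80, nat_lit 3, nat_lit 249, nat_lit 40, nat_lit 7]⟩, ⟨p114_k44, nat_lit 0, nat_lit 0, nat_lit 396, nat_lit 0, nat_lit 552202, [nat_lit 961040000, nat_lit 2017610000, nat_lit 2881890000], [], [nat_lit 6008229212, nat_lit 6014319035, nat_lit 6162138736, nat_lit 6167125212, nat_lit 6566509568, nat_lit 6571873664, nat_lit 6707586641, nat_lit 6712093901], nat_lit 1271250, nat_lit 1271250, nat_lit 1271250, nat_lit 1271250, nat_lit 1271250, nat_lit 1271250, [nat_lit 1100000, nat_lit 2127500, nat_lit 1271250], [nat_lit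 56, nat_lit 40, nat_lit 40, nat_lit 80, nat_lit 32, nat_lit 483, nat_lit 250, nat_lit 10]⟩,
 ⟨nat_lit 0, nat_lit 1119, ⟨.ofNat (nat_lit 687006), .ofNat (nat_lit 729506), .ofNat (nat_lit 689381), .ofNat (nat_lit 731881), .ofNat (nat_lit 684999), .ofNat (nat_lit 724997), .ofNat (nat_lit 687499), .ofNat (nat_lit 727497)⟩, ⟨.ofNat (nat_lit 274990), .ofNat (nat_lit 328114), .ofNat (nat_lit 298741), .ofNat (nat_lit 351866), .ofNat (nat_lit 274999), .ofNat (nat_lit 324996), .ofNat (nat_lit 299999), .ofNat (nat_lit 349997)⟩⟩, [⟨nat_lit 13, nat_lit 24, nat_lit 89, nat_lit 100, nat_lit 442053472⟩, ⟨nat_lit 16, nat_lit 23, nat_lit 100, nat_lit 93, nat_lit 335291356⟩, ⟨nat_lit 19, nat_lit 100, nat_lit 78, nat_lit 95, nat_lit 80793786⟩]⟩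
noncomputable def p114_l137 : Lf2 := ⟨nat_lit 0, nat_lit 30, [nat_lit 15, nat_lit 5, nat_lit 5, nat_lit 20], false, nat_lit 120, nat_lit 160, nat_lit 240, nat_lit 280, ⟨nat_lit 218, nat_lit 782, nat_lit 0, nat_lit 7, nat_lit 289, nat_lit 782, nat_lit 125, nat_lit 0, nat_lit 0, nat_lit 0, nat_lit 0, nat_lit 0, nat_lit 39856016, nat_lit 21456099, nat_lit 5687885, nat_lit 4704039, true, true⟩,
 nat_lit 0, nat_lit 0, nat_lit 3077, nat_lit 0, nat_lit 2733, nat_lit 1873, nat_lit 172, nat_lit 0, nat_lit 0, nat_lit 133, nat_lit 0, nat_lit 0, nat_lit 0, nat_lit 0, nat_lit 0, nat_lit 195500, nat_lit 0, nat_lit 0, [(nat_lit 29, [(nat_lit 0, nat_lit 782)])],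
 ⟨p114_k21, nat_lit 0, nat_lit 0, nat_lit 105, nat_lit 0, nat_lit 0, [nat_lit 815695201, nat_lit 2098328800, nat_lit 2759464800], [], [nat_lit 25238040025, nat_lit 25758311499, nat_lit 26642509905, nat_lit 27186345290, nat_lit 25511534627, nat_lit 26008544685, nat_lit 26858222750, nat_lit 27318805352], nat_lit 0, nat_lit 0, nat_lit 0, nat_lit 0, nat_lit 0, nat_lit 0, [], [nat_lit 55, nat_lit 40, nat_lit 40, nat_lit 80, nat_lit 3, nat_lit 249, nat_lit 40, nat_lit 8]⟩, ⟨p114_k20, nat_lit 0, nat_lit 0, nat_lit 413, nat_lit 0, nat_lit 594877, [nat_lit 1021984000, nat_lit 2145556000, nat_lit 3064644000], [], [nat_lit 6524071178, nat_lit 6556570859, nat_lit 6726999317, nat_lit 6752226339, nat_lit 6667389241, nat_lit 6693385909, nat_lit 6842179011, nat_lit 6861471151], nat_lit 1271250, nat_lit 1271250, nat_lit 1271250, nat_lit 1271250, nat_lit 1271250, nat_lit 1271250, [nat_lit 1100000, nat_lit 2127500, nat_lit 1271250], [nat_lit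 56, nat_lit 40, nat_lit 40, nat_lit 80, nat_lit 32, nat_lit 456, nat_lit 225, nat_lit 9]⟩,
 ⟨nat_lit 0, nat_lit 1582, ⟨.ofNat (nat_lit 690873), .ofNat (nat_lit 745507), .ofNat (nat_lit 702515), .ofNat (nat_lit 757165), .ofNat (nat_lit 687499), .ofNat (nat_lit 737498), .ofNat (nat_lit 699984), .ofNat (nat_lit 749998)⟩, ⟨.ofNat (nat_lit 274152), .ofNat (nat_lit 328785), .ofNat (nat_lit 297467), .ofNat (nat_lit 352101), .ofNat (nat_lit 274999), .ofNat (nat_lit 324996), .ofNat (nat_lit 299999), .ofNat (nat_lit 349997)⟩⟩, [⟨nat_lit 13, nat_lit 24, nat_lit 89, nat_lit 100, nat_lit 392088384⟩, ⟨nat_lit 4, nat_lit 100, nat_lit 23, nat_lit 92, nat_lit 335338079⟩]⟩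
noncomputable def p114_l138 : Lf2 := ⟨nat_lit 0, nat_lit 28, [nat_lit 157, nat_lit 5, nat_lit 5, nat_lit 20], false, nat_lit 120, nat_lit 160, nat_lit 280, nat_lit 344, ⟨nat_lit 356, nat_lit 644, nat_lit 0, nat_lit 7, nat_lit 288, nat_lit 644, nat_lit 125, nat_lit 0, nat_lit 0, nat_lit 0, nat_lit 0, nat_lit 0, nat_lit 39879356, nat_lit 21418736, nat_lit 5701908, nat_lit 4704645, true, true⟩,
 nat_lit 0, nat_lit 0, nat_lit 3905, nat_lit 0, nat_lit 2822, nat_lit 2378, nat_lit 217, nat_lit 0, nat_lit 0, nat_lit 330, nat_lit 0, nat_lit 0, nat_lit 0, nat_lit 0, nat_lit 0, nat_lit 161000, nat_lit 0, nat_lit 0, [(nat_lit 29, [(nat_lit 0, nat_lit 644)])],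
 ⟨p114_k45, nat_lit 0, nat_lit 0, nat_lit 101, nat_lit 0, nat_lit 0, [nat_lit 837278400, nat_lit 1842016001, nat_lit 3375441600], [], [nat_lit 25315478383, nat_lit 25476853342, nat_lit 26750800738, nat_lit 26899586635, nat_lit 25572594709, nat_lit 25723567421, nat_lit 26929146791, nat_lit 27068736403], nat_lit 0, nat_lit 0, nat_lit 0, nat_lit 0, nat_lit 0, nat_lit 0, [], [nat_lit 20, nat_lit 40, nat_lit 40, nat_lit 80, nat_lit 16, nat_lit 249, nat_lit 40, nat_lit 8]⟩, ⟨p114_k46, nat_lit 0, nat_lit 0, nat_lit 290, nat_lit 0, nat_lit 436709, [nat_lit 1668928000, nat_lit 2836608000, nat_lit 5004648000], [], [nat_lit 10456508169, nat_lit 10485071611, nat_lit 10779958750, nat_lit 10803682461, nat_lit 10997437381, nat_lit 11018219535, nat_lit 11300029880, nat_lit 11325686354], nat_lit 1271250, nat_lit 1271250, nat_lit 1271250, nat_lit 1271250, nat_lit 1271250, nat_lit 1271250, [nat_lit 1100000, nat_lit 1785000, nat_lit 1271250],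 [nat_lit 37, nat_lit 40, nat_lit 40, nat_lit 80, nat_lit 28, nat_lit 483, nat_lit 250, nat_lit 10]⟩,
 ⟨nat_lit 1322, nat_lit 1582, ⟨.ofNat (nat_lit 690873), .ofNat (nat_lit 745508), .ofNat (nat_lit 696701), .ofNat (nat_lit 751337), .ofNat (nat_lit 689988), .ofNat (nat_lit 743765), .ofNat (nat_lit 695876), .ofNat (nat_lit 749654)⟩, ⟨.ofNat (nat_lit 274152), .ofNat (nat_lit 328788), .ofNat (nat_lit 297467), .ofNat (nat_lit 352103), .ofNat (nat_lit 274681), .ofNat (nat_lit 328458), .ofNat (nat_lit 298233), .ofNat (nat_lit 352011)⟩⟩, [⟨nat_lit 4, nat_lit 100, nat_lit 29, nat_lit 91, nat_lit 339229560⟩, ⟨nat_lit 7, nat_lit 80, nat_lit 100, nat_lit 96, nat_lit 138820900⟩]⟩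
noncomputable def p114_l139 : Lf2 := ⟨nat_lit 0, nat_lit 28, [nat_lit 157, nat_lit 5, nat_lit 5, nat_lit 20], false, nat_lit 120, nat_lit 160, nat_lit 280, nat_lit 344, ⟨nat_lit 343, nat_lit 657, nat_lit 0, nat_lit 7, nat_lit 288, nat_lit 657, nat_lit 125, nat_lit 0, nat_lit 0, nat_lit 0, nat_lit 0, nat_lit 0, nat_lit 39913979, nat_lit 21376693, nat_lit 5709328, nat_lit 4703869, true, true⟩,
 nat_lit 0, nat_lit 0, nat_lit 3774, nat_lit 0, nat_lit 2765, nat_lit 2298, nat_lit 201, nat_lit 0, nat_lit 0, nat_lit 320, nat_lit 0, nat_lit 0, nat_lit 0, nat_lit 0, nat_lit 0, nat_lit 164250, nat_lit 0, nat_lit 0, [(nat_lit 29, [(nat_lit 0, nat_lit 657)])],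
 ⟨p114_k47, nat_lit 0, nat_lit 0, nat_lit 102, nat_lit 0, nat_lit 0, [nat_lit 835245201, nat_lit 1812948001, nat_lit 3317414800], [], [nat_lit 25441939251, nat_lit 25546475955, nat_lit 26838357235, nat_lit 26935826937, nat_lit 25702586223, nat_lit 25802436401, nat_lit 27041593500, nat_lit 27133958719], nat_lit 0, nat_lit 0, nat_lit 0, nat_lit 0, nat_lit 0, nat_lit 0, [], [nat_lit 20, nat_lit 40, nat_lit 40, nat_lit 80, nat_lit 16, nat_lit 249, nat_lit 40, nat_lit 7]⟩, ⟨p114_k46, nat_lit 0, nat_lit 0, nat_lit 310, nat_lit 0, nat_lit 469489, [nat_lit 1607984000, nat_lit 2733024000, nat_lit 4821894000], [], [nat_lit 10032261715, nat_lit 10059760014, nat_lit 10343968206, nat_lit 10366792510, nat_lit 10553607602, nat_lit 10576907256, nat_lit 10858557326, nat_lit 10887727346], nat_lit 1271250, nat_lit 1271250, nat_lit 1271250, nat_lit 1271250, nat_lit 1271250, nat_lit 1271250, [nat_lit 1100000, nat_lit 1785000, nat_lit 1271250],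 [nat_lit 37, nat_lit 40, nat_lit 40, nat_lit 80, nat_lit 28, nat_lit 483, nat_lit 250, nat_lit 10]⟩,
 ⟨nat_lit 1118, nat_lit 1323, ⟨.ofNat (nat_lit 689988), .ofNat (nat_lit 743765), .ofNat (nat_lit 695876), .ofNat (nat_lit 749654), .ofNat (nat_lit 689381), .ofNat (nat_lit 742508), .ofNat (nat_lit 695319), .ofNat (nat_lit 748446)⟩, ⟨.ofNat (nat_lit 274681), .ofNat (nat_lit 328458), .ofNat (nat_lit 298233), .ofNat (nat_lit 352011), .ofNat (nat_lit 274990), .ofNat (nat_lit 328117), .ofNat (nat_lit 298741), .ofNat (nat_lit 351868)⟩⟩, [⟨nat_lit 13, nat_lit 24, nat_lit 89, nat_lit 100, nat_lit 276151043⟩, ⟨nat_lit 4, nat_lit 100, nat_lit 25, nat_lit 92, nat_lit 401919754⟩, ⟨nat_lit 7, nat_lit 80, nat_lit 100, nat_lit 96, nat_lit 134691076⟩]⟩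
noncomputable def p114_l140 : Lf2 := ⟨nat_lit 0, nat_lit 30, [nat_lit 15, nat_lit 5, nat_lit 5, nat_lit 20], false, nat_lit 120, nat_lit 160, nat_lit 280, nat_lit 344, ⟨nat_lit 567, nat_lit 433, nat_lit 0, nat_lit 7, nat_lit 288, nat_lit 433, nat_lit 125, nat_lit 0, nat_lit 0, nat_lit 0, nat_lit 0, nat_lit 0, nat_lit 39894084, nat_lit 21401481, nat_lit 5704435, nat_lit 4704238, true, true⟩,
 nat_lit 0, nat_lit 0, nat_lit 5468, nat_lit 0, nat_lit 2930, nat_lit 3330, nat_lit 275, nat_lit 0, nat_lit 0, nat_lit 545, nat_lit 0, nat_lit 0, nat_lit 0, nat_lit 0, nat_lit 0, nat_lit 108250, nat_lit 0, nat_lit 0, [(nat_lit 29, [(nat_lit 0, nat_lit 433)])],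
 ⟨p114_k7, nat_lit 0, nat_lit 0, nat_lit 102, nat_lit 0, nat_lit 0, [nat_lit 870278800, nat_lit 2313812000, nat_lit 4317261200], [], [nat_lit 25475592845, nat_lit 25748728820, nat_lit 26924377670, nat_lit 27175986123, nat_lit 25695313335, nat_lit 25950715925, nat_lit 27077804855, nat_lit 27318344185], nat_lit 0, nat_lit 0, nat_lit 0, nat_lit 0, nat_lit 0, nat_lit 0, [], [nat_lit 20, nat_lit 40, nat_lit 40, nat_lit 80, nat_lit 16, nat_lit 249, nat_lit 40, nat_lit 8]⟩, ⟨p114_k9, nat_lit 0, nat_lit 0, nat_lit 264, nat_lit 0, nat_lit 363179, [nat_lit 2658096000, nat_lit 4517856000, nat_lit 7970886000], [], [nat_lit 16485517146, nat_lit 16543087338, nat_lit 17090196146, nat_lit 17139788947, nat_lit 17487332680, nat_lit 17532091726, nat_lit 17982590332, nat_lit 18023497436], nat_lit 1271250, nat_lit 1271250, nat_lit 1271250, nat_lit 1271250, nat_lit 1271250, nat_lit 1271250, [nat_lit 1100000, nat_lit 1785000, nat_lit 1271250],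 [nat_lit 37, nat_lit 40, nat_lit 40, nat_lit 80, nat_lit 28, nat_lit 483, nat_lit 250, nat_lit 10]⟩,
 ⟨nat_lit 1118, nat_lit 1582, ⟨.ofNat (nat_lit 690873), .ofNat (nat_lit 745508), .ofNat (nat_lit 696701), .ofNat (nat_lit 751337), .ofNat (nat_lit 689381), .ofNat (nat_lit 742508), .ofNat (nat_lit 695319), .ofNat (nat_lit 748446)⟩, ⟨.ofNat (nat_lit 274152), .ofNat (nat_lit 328788), .ofNat (nat_lit 297467), .ofNat (nat_lit 352103), .ofNat (nat_lit 274990), .ofNat (nat_lit 328117), .ofNat (nat_lit 298741), .ofNat (nat_lit 351868)⟩⟩, [⟨nat_lit 16, nat_lit 28, nat_lit 100, nat_lit 91, nat_lit 479938812⟩, ⟨nat_lit 7, nat_lit 80, nat_lit 100, nat_lit 96, nat_lit 225162371⟩]⟩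
noncomputable def p114_l141 : Lf2 := ⟨nat_lit 0, nat_lit 30, [nat_lit 15, nat_lit 5, nat_lit 5, nat_lit 20], false, nat_lit 120, nat_lit 160, nat_lit 280, nat_lit 344, ⟨nat_lit 363, nat_lit 637, nat_lit 0, nat_lit 7, nat_lit 286, nat_lit 637, nat_lit 125, nat_lit 0, nat_lit 0, nat_lit 0, nat_lit 0, nat_lit 0, nat_lit 40045540, nat_lit 21232831, nat_lit 5721629, nat_lit 4698869, true, true⟩,
 nat_lit 0, nat_lit 0, nat_lit 3993, nat_lit 0, nat_lit 2775, nat_lit 2431, nat_lit 194, nat_lit 0, nat_lit 0, nat_lit 338, nat_lit 0, nat_lit 0, nat_lit 0, nat_lit 0, nat_lit 0, nat_lit 159250, nat_lit 0, nat_lit 0, [(nat_lit 29, [(nat_lit 0, nat_lit 637)])],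
 ⟨p114_k48, nat_lit 0, nat_lit 0, nat_lit 103, nat_lit 0, nat_lit 0, [nat_lit 838373200, nat_lit 1857668000, nat_lit 3406686800], [], [nat_lit 25561236757, nat_lit 25718267943, nat_lit 26811884767, nat_lit 26963944398, nat_lit 25815352375, nat_lit 25965337720, nat_lit 27014678977, nat_lit 27154535049], nat_lit 0, nat_lit 0, nat_lit 0, nat_lit 0, nat_lit 0, nat_lit 0, [], [nat_lit 20, nat_lit 40, nat_lit 40, nat_lit 80, nat_lit 16, nat_lit 249, nat_lit 40, nat_lit 7]⟩, ⟨p114_k9, nat_lit 0, nat_lit 0, nat_lit 382, nat_lit 0, nat_lit 535461, [nat_lit 1701744000, nat_lit 2892384000, nat_lit 5103054000], [], [nat_lit 10628585072, nat_lit 10657689983, nat_lit 10925469881, nat_lit 10950124353, nat_lit 11180305459, nat_lit 11201459922, nat_lit 11463852810, nat_lit 11490228500], nat_lit 1271250, nat_lit 1271250, nat_lit 1271250, nat_lit 1271250, nat_lit 1271250, nat_lit 1271250, [nat_lit 1100000, nat_lit 1785000, nat_lit 1271250],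 [nat_lit 37, nat_lit 40, nat_lit 40, nat_lit 80, nat_lit 28, nat_lit 483, nat_lit 250, nat_lit 10]⟩,
 ⟨nat_lit 707, nat_lit 1119, ⟨.ofNat (nat_lit 689381), .ofNat (nat_lit 737195), .ofNat (nat_lit 695319), .ofNat (nat_lit 743133), .ofNat (nat_lit 688411), .ofNat (nat_lit 735119), .ofNat (nat_lit 694456), .ofNat (nat_lit 741163)⟩, ⟨.ofNat (nat_lit 274990), .ofNat (nat_lit 328117), .ofNat (nat_lit 298741), .ofNat (nat_lit 351868), .ofNat (nat_lit 275321), .ofNat (nat_lit 327218), .ofNat (nat_lit 299497), .ofNat (nat_lit 351395)⟩⟩, [⟨nat_lit 13, nat_lit 20, nat_lit 91, nat_lit 100, nat_lit 304636195⟩, ⟨nat_lit 4, nat_lit 100, nat_lit 19, nat_lit 93, nat_lit 550369008⟩, ⟨nat_lit 7, nat_lit 80, nat_lit 100, nat_lit 96, nat_lit 142208529⟩]⟩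
noncomputable def p114_l142 : Lf2 := ⟨nat_lit 0, nat_lit 30, [nat_lit 15, nat_lit 5, nat_lit 5, nat_lit 20], true, nat_lit 120, nat_lit 148, nat_lit 280, nat_lit 344, ⟨nat_lit 0, nat_lit 1000, nat_lit 0, nat_lit 7, nat_lit 283, nat_lit 1000, nat_lit 122, nat_lit 0, nat_lit 0, nat_lit 0, nat_lit 0, nat_lit 0, nat_lit 40518527, nat_lit 20944213, nat_lit 5537260, nat_lit 4651882, true, true⟩,
 nat_lit 0, nat_lit 0, nat_lit 0, nat_lit 0, nat_lit 2706, nat_lit 0, nat_lit 38, nat_lit 0, nat_lit 0, nat_lit 0, nat_lit 0, nat_lit 0, nat_lit 0, nat_lit 0, nat_lit 0, nat_lit 250000, nat_lit 0, nat_lit 0, [(nat_lit 29, [(nat_lit 0, nat_lit 1000)])],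
 ⟨p114_k49, nat_lit 0, nat_lit 0, nat_lit 87, nat_lit 0, nat_lit 0, [nat_lit 781600001, nat_lit 1046000001, nat_lit 1376400000], [], [nat_lit 25452154075, nat_lit 25564101122, nat_lit 26369155884, nat_lit 26491856992, nat_lit 25634987914, nat_lit 25743296497, nat_lit 26489057300, nat_lit 26607029153], nat_lit 0, nat_lit 0, nat_lit 0, nat_lit 0, nat_lit 0, nat_lit 0, [], [nat_lit 35, nat_lit 40, nat_lit 40, nat_lit 80, nat_lit 22, nat_lit 249, nat_lit 40, nat_lit 9]⟩, C1.Rw.none,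
 ⟨nat_lit 0, nat_lit 708, ⟨.ofNat (nat_lit 688411), .ofNat (nat_lit 719549), .ofNat (nat_lit 694456), .ofNat (nat_lit 725594), .ofNat (nat_lit 687499), .ofNat (nat_lit 717498), .ofNat (nat_lit 693749), .ofNat (nat_lit 723749)⟩, ⟨.ofNat (nat_lit 275321), .ofNat (nat_lit 311647), .ofNat (nat_lit 299497), .ofNat (nat_lit 335825), .ofNat (nat_lit 274999), .ofNat (nat_lit 309997), .ofNat (nat_lit 299999), .ofNat (nat_lit 334997)⟩⟩, [⟨nat_lit 13, nat_lit 15, nat_lit 93, nat_lit 100, nat_lit 1241013003⟩, ⟨nat_lit 16, nat_lit 15, nat_lit 100, nat_lit 95, nat_lit 279591023⟩]⟩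
noncomputable def p114_l143 : Lf2 := ⟨nat_lit 0, nat_lit 30, [nat_lit 15, nat_lit 5, nat_lit 5, nat_lit 20], false, nat_lit 120, nat_lit 160, nat_lit 280, nat_lit 340, ⟨nat_lit 527, nat_lit 473, nat_lit 0, nat_lit 7, nat_lit 291, nat_lit 473, nat_lit 125, nat_lit 0, nat_lit 0, nat_lit 0, nat_lit 0, nat_lit 0, nat_lit 39679284, nat_lit 21637411, nat_lit 5683305, nat_lit 4711991, true, true⟩,
 nat_lit 0, nat_lit 0, nat_lit 5497, nat_lit 0, nat_lit 2880, nat_lit 3422, nat_lit 269, nat_lit 0, nat_lit 0, nat_lit 489, nat_lit 0, nat_lit 0, nat_lit 0, nat_lit 0, nat_lit 0, nat_lit 118250, nat_lit 0, nat_lit 0, [(nat_lit 29, [(nat_lit 0, nat_lit 473)])],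
 ⟨p114_k7, nat_lit 0, nat_lit 0, nat_lit 101, nat_lit 0, nat_lit 0, [nat_lit 864022800, nat_lit 2224372001, nat_lit 4138717200], [], [nat_lit 25382988145, nat_lit 25545709255, nat_lit 26825540345, nat_lit 26981451805, nat_lit 25629043485, nat_lit 25781234649, nat_lit 26992023765, nat_lit 27132673437], nat_lit 0, nat_lit 0, nat_lit 0, nat_lit 0, nat_lit 0, nat_lit 0, [], [nat_lit 20, nat_lit 40, nat_lit 40, nat_lit 80, nat_lit 16, nat_lit 249, nat_lit 40, nat_lit 8]⟩, ⟨p114_k50, nat_lit 0, nat_lit 0, nat_lit 299, nat_lit 0, nat_lit 463850, [nat_lit 2470576000, nat_lit 4199136000, nat_lit 7408566000], [], [nat_lit 15420449471, nat_lit 15454784240, nat_lit 15816851668, nat_lit 15852446246, nat_lit 16104818939, nat_lit 16148931125, nat_lit 16578174404, nat_lit 16619433688], nat_lit 1271250, nat_lit 1271250, nat_lit 1271250, nat_lit 1271250, nat_lit 1271250, nat_lit 1271250, [nat_lit 1100000, nat_lit 1785000, nat_lit 1271250],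 [nat_lit 37, nat_lit 40, nat_lit 40, nat_lit 80, nat_lit 28, nat_lit 483, nat_lit 250, nat_lit 10]⟩,
 ⟨nat_lit 1322, nat_lit 1582, ⟨.ofNat (nat_lit 696701), .ofNat (nat_lit 751337), .ofNat (nat_lit 702529), .ofNat (nat_lit 757166), .ofNat (nat_lit 695876), .ofNat (nat_lit 749654), .ofNat (nat_lit 701763), .ofNat (nat_lit 755542)⟩, ⟨.ofNat (nat_lit 274152), .ofNat (nat_lit 328788), .ofNat (nat_lit 297467), .ofNat (nat_lit 352103), .ofNat (nat_lit 274681), .ofNat (nat_lit 328458), .ofNat (nat_lit 298233), .ofNat (nat_lit 352011)⟩⟩, [⟨nat_lit 16, nat_lit 29, nat_lit 100, nat_lit 91, nat_lit 442318992⟩, ⟨nat_lit 7, nat_lit 83, nat_lit 100, nat_lit 97, nat_lit 206303380⟩]⟩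
noncomputable def p114_l144 : Lf2 := ⟨nat_lit 0, nat_lit 30, [nat_lit 15, nat_lit 5, nat_lit 5, nat_lit 20], false, nat_lit 120, nat_lit 160, nat_lit 280, nat_lit 340, ⟨nat_lit 424, nat_lit 576, nat_lit 0, nat_lit 7, nat_lit 290, nat_lit 576, nat_lit 125, nat_lit 0, nat_lit 0, nat_lit 0, nat_lit 0, nat_lit 0, nat_lit 39711966, nat_lit 21597476, nat_lit 5690558, nat_lit 4711337, true, true⟩,
 nat_lit 0, nat_lit 0, nat_lit 4423, nat_lit 0, nat_lit 2792, nat_lit 2753, nat_lit 224, nat_lit 0, nat_lit 0, nat_lit 394, nat_lit 0, nat_lit 0, nat_lit 0, nat_lit 0, nat_lit 0, nat_lit 144000, nat_lit 0, nat_lit 0, [(nat_lit 29, [(nat_lit 0, nat_lit 576)])],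
 ⟨p114_k51, nat_lit 0, nat_lit 0, nat_lit 102, nat_lit 0, nat_lit 0, [nat_lit 847913601, nat_lit 1994064000, nat_lit 3678966400], [], [nat_lit 25471436072, nat_lit 25576379809, nat_lit 26871092317, nat_lit 26975056134, nat_lit 25727130903, nat_lit 25827359221, nat_lit 27069056882, nat_lit 27161751085], nat_lit 0, nat_lit 0, nat_lit 0, nat_lit 0, nat_lit 0, nat_lit 0, [], [nat_lit 20, nat_lit 40, nat_lit 40, nat_lit 80, nat_lit 16, nat_lit 249, nat_lit 40, nat_lit 7]⟩, ⟨p114_k50, nat_lit 0, nat_lit 0, nat_lit 367, nat_lit 0, nat_lit 495525, [nat_lit 1987712000, nat_lit 3378432000, nat_lit 5960592000], [], [nat_lit 12398473097, nat_lit 12426098138, nat_lit 12717206596, nat_lit 12750075122, nat_lit 12954411861, nat_lit 12989902949, nat_lit 13334540643, nat_lit 13364578711], nat_lit 1271250, nat_lit 1271250, nat_lit 1271250, nat_lit 1271250, nat_lit 1271250, nat_lit 1271250, [nat_lit 1100000, nat_lit 1785000, nat_lit 1271250],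 [nat_lit 37, nat_lit 40, nat_lit 40, nat_lit 80, nat_lit 28, nat_lit 483, nat_lit 250, nat_lit 10]⟩,
 ⟨nat_lit 1118, nat_lit 1323, ⟨.ofNat (nat_lit 695876), .ofNat (nat_lit 749654), .ofNat (nat_lit 701764), .ofNat (nat_lit 755542), .ofNat (nat_lit 695319), .ofNat (nat_lit 748446), .ofNat (nat_lit 701256), .ofNat (nat_lit 754383)⟩, ⟨.ofNat (nat_lit 274681), .ofNat (nat_lit 328458), .ofNat (nat_lit 298233), .ofNat (nat_lit 352011), .ofNat (nat_lit 274990), .ofNat (nat_lit 328117), .ofNat (nat_lit 298741), .ofNat (nat_lit 351868)⟩⟩, [⟨nat_lit 13, nat_lit 24, nat_lit 89, nat_lit 100, nat_lit 138379570⟩, ⟨nat_lit 4, nat_lit 100, nat_lit 25, nat_lit 92, nat_lit 457772317⟩, ⟨nat_lit 7, nat_lit 83, nat_lit 100, nat_lit 97, nat_lit 166003081⟩]⟩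
noncomputable def p114_l145 : Lf2 := ⟨nat_lit 0, nat_lit 30, [nat_lit 15, nat_lit 5, nat_lit 5, nat_lit 20], false, nat_lit 120, nat_lit 160, nat_lit 280, nat_lit 340, ⟨nat_lit 429, nat_lit 571, nat_lit 0, nat_lit 7, nat_lit 289, nat_lit 571, nat_lit 125, nat_lit 0, nat_lit 0, nat_lit 0, nat_lit 0, nat_lit 0, nat_lit 39785458, nat_lit 21528987, nat_lit 5685555, nat_lit 4707173, true, true⟩,
 nat_lit 0, nat_lit 0, nat_lit 4501, nat_lit 0, nat_lit 2556, nat_lit 2802, nat_lit 238, nat_lit 0, nat_lit 0, nat_lit 405, nat_lit 0, nat_lit 0, nat_lit 0, nat_lit 0, nat_lit 0, nat_lit 142750, nat_lit 0, nat_lit 0, [(nat_lit 29, [(nat_lit 0, nat_lit 571)])],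
 ⟨p114_k48, nat_lit 0, nat_lit 0, nat_lit 104, nat_lit 0, nat_lit 0, [nat_lit 848695601, nat_lit 2005244001, nat_lit 3701284400], [], [nat_lit 25320787370, nat_lit 25574252287, nat_lit 26684557336, nat_lit 26921176280, nat_lit 25615304711, nat_lit 25857612439, nat_lit 26924614613, nat_lit 27160029427], nat_lit 0, nat_lit 0, nat_lit 0, nat_lit 0, nat_lit 0, nat_lit 0, [], [nat_lit 20, nat_lit 40, nat_lit 40, nat_lit 80, nat_lit 16, nat_lit 249, nat_lit 40, nat_lit 7]⟩, ⟨p114_k50, nat_lit 0, nat_lit 0, nat_lit 396, nat_lit 0, nat_lit 575629, [nat_lit 2011152000, nat_lit 3418272000, nat_lit 6030882000], [], [nat_lit 12400165317, nat_lit 12428038656, nat_lit 12775463707, nat_lit 12814514196, nat_lit 13021648755, nat_lit 13057518003, nat_lit 13406456006, nat_lit 13436782128], nat_lit 1271250, nat_lit 1271250, nat_lit 1271250, nat_lit 1271250, nat_lit 1271250, nat_lit 1271250, [nat_lit 1100000, nat_lit 1785000, nat_lit 1271250],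 [nat_lit 37, nat_lit 40, nat_lit 40, nat_lit 80, nat_lit 28, nat_lit 483, nat_lit 250, nat_lit 10]⟩,
 ⟨nat_lit 0, nat_lit 1119, ⟨.ofNat (nat_lit 695319), .ofNat (nat_lit 748444), .ofNat (nat_lit 701253), .ofNat (nat_lit 754382), .ofNat (nat_lit 693749), .ofNat (nat_lit 743747), .ofNat (nat_lit 699996), .ofNat (nat_lit 749998)⟩, ⟨.ofNat (nat_lit 274990), .ofNat (nat_lit 328114), .ofNat (nat_lit 298741), .ofNat (nat_lit 351866), .ofNat (nat_lit 274999), .ofNat (nat_lit 324996), .ofNat (nat_lit 299999), .ofNat (nat_lit 349997)⟩⟩, [⟨nat_lit 13, nat_lit 17, nat_lit 92, nat_lit 100, nat_lit 241524164⟩, ⟨nat_lit 16, nat_lit 17, nat_lit 100, nat_lit 94, nat_lit 732144327⟩, ⟨nat_lit 7, nat_lit 83, nat_lit 100, nat_lit 97, nat_lit 167986826⟩]⟩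
noncomputable def b_V_900_600_20_48 : St := ⟨true, nat_lit 0, nat_lit 1, nat_lit 1, nat_lit 120, nat_lit 390, nat_lit 400, nat_lit 260, nat_lit 280, nat_lit 280, nat_lit 320, nat_lit 100, nat_lit 120, nat_lit 80, nat_lit 160, nat_lit 160, nat_lit 352, nat_lit 100, nat_lit 120, nat_lit 0, nat_lit 0, nat_lit 0, nat_lit 0⟩
theorem d_V_900_600_20_48 (h : EB TB.env) : Dead b_V_900_600_20_48 := chkB_sound0 h (T :=
(.spl (nat_lit 5) (nat_lit 240)
(.leaf p114_l122)
(.spl (nat_lit 4) (nat_lit 120)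
(.trX (nat_lit 22) (nat_lit 100) (nat_lit 80) (nat_lit 100) (nat_lit 336) (.spl (nat_lit 1) (nat_lit 270)
(.spl (nat_lit 0) (nat_lit 395)
(.leaf p114_l123)
(.trX (nat_lit 13) (nat_lit 24) (nat_lit 89) (nat_lit 100) (nat_lit 312) (.leaf p114_l124)))
(.spl (nat_lit 0) (nat_lit 395)
(.leaf p114_l125)
(.spl (nat_lit 1) (nat_lit 275)
(.trX (nat_lit 13) (nat_lit 24) (nat_lit 89) (nat_lit 100) (nat_lit 316) (.leaf p114_l126))
(.leaf p114_l127)))))
(.spl (nat_lit 1) (nat_lit 270)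
(.spl (nat_lit 0) (nat_lit 395)
(.spl (nat_lit 6) (nat_lit 112)
(.spl (nat_lit 1) (nat_lit 265)
(.spl (nat_lit 0) (nat_lit 393)
(.leaf p114_l128)
(.trX (nat_lit 13) (nat_lit 28) (nat_lit 87) (nat_lit 100) (nat_lit 316) (.leaf p114_l129)))
(.trX (nat_lit 19) (nat_lit 100) (nat_lit 71) (nat_lit 97) (nat_lit 348) (.spl (nat_lit 1) (nat_lit 268)
(.spl (nat_lit 0) (nat_lit 393)
(.leaf p114_l130)
(.trX (nat_lit 13) (nat_lit 28) (nat_lit 87) (nat_lit 100) (nat_lit 316) (.leaf p114_l131)))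
(.leaf p114_l132))))
(.leaf p114_l133))
(.trX (nat_lit 13) (nat_lit 24) (nat_lit 89) (nat_lit 100) (nat_lit 312) (.spl (nat_lit 1) (nat_lit 265)
(.trX (nat_lit 13) (nat_lit 23) (nat_lit 90) (nat_lit 100) (nat_lit 308) (.leaf p114_l134))
(.trX (nat_lit 19) (nat_lit 100) (nat_lit 71) (nat_lit 97) (nat_lit 348) (.spl (nat_lit 1) (nat_lit 268)
(.leaf p114_l135)
(.leaf p114_l136))))))
(.trX (nat_lit 19) (nat_lit 100) (nat_lit 74) (nat_lit 98) (nat_lit 344) (.spl (nat_lit 5) (nat_lit 280)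
(.leaf p114_l137)
(.spl (nat_lit 1) (nat_lit 275)
(.spl (nat_lit 0) (nat_lit 395)
(.spl (nat_lit 6) (nat_lit 112)
(.spl (nat_lit 0) (nat_lit 393)
(.leaf p114_l138)
(.leaf p114_l139))
(.leaf p114_l140))
(.trX (nat_lit 13) (nat_lit 24) (nat_lit 89) (nat_lit 100) (nat_lit 316) (.spl (nat_lit 0) (nat_lit 398)
(.leaf p114_l141)
(.trX (nat_lit 13) (nat_lit 15) (nat_lit 93) (nat_lit 100) (nat_lit 304) (.trX (nat_lit 16) (nat_lit 15) (nat_lit 100) (nat_lit 95) (nat_lit 148) (.leaf p114_l142))))))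
(.trX (nat_lit 19) (nat_lit 100) (nat_lit 77) (nat_lit 99) (nat_lit 340) (.spl (nat_lit 0) (nat_lit 395)
(.spl (nat_lit 0) (nat_lit 393)
(.leaf p114_l143)
(.leaf p114_l144))
(.leaf p114_l145)))))))))) (by decide +kernel)

end B2
end Pool.Agent.Lib.MP_6947cd_al
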