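import Pool.Agent.Lib.MP_6947cd_al.ZB.Pre

/-!
Problem MP_6947cd_al (Chollet).  Case B, second entry in [2/5, 17/20]: certificates of the tree, part P115 (generated).
-/

set_option autoImplicit false
set_option linter.all false

namespace Pool.Agent.Lib.MP_6947cd_al
namespace B2

open Ent Fr B1 PkA

noncomputable def p115_k0 : C1.Kn := ⟨[nat_lit 20, nat_lit 60, nat_lit 100], [nat_lit 0, nat_lit 1415, nat_lit 3591], [(nat_lit 0, nat_lit 0, nat_lit 0), (nat_lit 1000, nat_lit 558, nat_lit 551), (nat_lit 1000, nat_lit 439, nat_lit 849)], (nat_lit 44, nat_lit 100, nat_lit 87)⟩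
noncomputable def p115_k1 : C1.Kn := ⟨[nat_lit 80, nat_lit 120, nat_lit 180], [nat_lit 0, nat_lit 0, nat_lit 3196], [(nat_lit 0, nat_lit 0, nat_lit 0), (nat_lit 0, nat_lit 0, nat_lit 0), (nat_lit 858, nat_lit 1000, nat_lit 713)], (nat_lit 100, nat_lit 68, nat_lit 88)⟩
noncomputable def p115_k2 : C1.Kn := ⟨[nat_lit 20, nat_lit 60, nat_lit 100], [nat_lit 0, nat_lit 1776, nat_lit 3880], [(nat_lit 0, nat_lit 0, nat_lit 0), (nat_lit 1000, nat_lit 445, nat_lit 693), (nat_lit 1000, nat_lit 394, nat_lit 822)], (nat_lit 38, nat_lit 100, nat_lit 87)⟩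
noncomputable def p115_k3 : C1.Kn := ⟨[nat_lit 20, nat_lit 80, nat_lit 100], [nat_lit 0, nat_lit 2121, nat_lit 3610], [(nat_lit 0, nat_lit 0, nat_lit 0), (nat_lit 1000, nat_lit 558, nat_lit 551), (nat_lit 1000, nat_lit 436, nat_lit 895)], (nat_lit 44, nat_lit 100, nat_lit 87)⟩
noncomputable def p115_k4 : C1.Kn := ⟨[nat_lit 80, nat_lit 140, nat_lit 180], [nat_lit 0, nat_lit 0, nat_lit 3656], [(nat_lit 0, nat_lit 0, nat_lit 0), (nat_lit 0, nat_lit 0, nat_lit 0), (nat_lit 637, nat_lit 1000, nat_lit 908)], (nat_lit 100, nat_lit 68, nat_lit 88)⟩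
noncomputable def p115_k5 : C1.Kn := ⟨[nat_lit 20, nat_lit 80, nat_lit 120], [nat_lit 0, nat_lit 2121, nat_lit 4818], [(nat_lit 0, nat_lit 0, nat_lit 0), (nat_lit 1000, nat_lit 558, nat_lit 551), (nat_lit 1000, nat_lit 443, nat_lit 981)], (nat_lit 44, nat_lit 100, nat_lit 92)⟩
noncomputable def p115_k6 : C1.Kn := ⟨[nat_lit 80, nat_lit 140, nat_lit 200], [nat_lit 0, nat_lit 0, nat_lit 5481], [(nat_lit 0, nat_lit 0, nat_lit 0), (nat_lit 0, nat_lit 0, nat_lit 0), (nat_lit 637, nat_lit 1000, nat_lit 908)], (nat_lit 0, nat_lit 0, nat_lit 0)⟩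
noncomputable def p115_k7 : C1.Kn := ⟨[nat_lit 20, nat_lit 80, nat_lit 100], [nat_lit 0, nat_lit 2663, nat_lit 3968], [(nat_lit 0, nat_lit 0, nat_lit 0), (nat_lit 1000, nat_lit 445, nat_lit 693), (nat_lit 1000, nat_lit 380, nat_lit 921)], (nat_lit 38, nat_lit 100, nat_lit 92)⟩
noncomputable def p115_k8 : C1.Kn := ⟨[nat_lit 80, nat_lit 140, nat_lit 180], [nat_lit 0, nat_lit 395, nat_lit 3941], [(nat_lit 0, nat_lit 0, nat_lit 0), (nat_lit 1000, nat_lit 979, nat_lit 103), (nat_lit 672, nat_lit 1000, nat_lit 927)], (nat_lit 100, nat_lit 64, nat_lit 95)⟩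
noncomputable def p115_k9 : C1.Kn := ⟨[nat_lit 80, nat_lit 120, nat_lit 180], [nat_lit 0, nat_lit 528, nat_lit 3600], [(nat_lit 0, nat_lit 0, nat_lit 0), (nat_lit 1000, nat_lit 959, nat_lit 206), (nat_lit 929, nat_lit 1000, nat_lit 742)], (nat_lit 100, nat_lit 77, nat_lit 91)⟩
noncomputable def p115_k10 : C1.Kn := ⟨[nat_lit 80, nat_lit 120, nat_lit 180], [nat_lit 0, nat_lit 664, nat_lit 3698], [(nat_lit 0, nat_lit 0, nat_lit 0), (nat_lit 1000, nat_lit 948, nat_lit 259), (nat_lit 949, nat_lit 1000, nat_lit 749)], (nat_lit 100, nat_lit 80, nat_lit 92)⟩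
noncomputable def p115_k11 : C1.Kn := ⟨[nat_lit 80, nat_lit 120, nat_lit 180], [nat_lit 0, nat_lit 796, nat_lit 3804], [(nat_lit 0, nat_lit 0, nat_lit 0), (nat_lit 1000, nat_lit 938, nat_lit 310), (nat_lit 969, nat_lit 1000, nat_lit 759)], (nat_lit 100, nat_lit 82, nat_lit 92)⟩
noncomputable def p115_k12 : C1.Kn := ⟨[nat_lit 80, nat_lit 120, nat_lit 180], [nat_lit 0, nat_lit 929, nat_lit 3903], [(nat_lit 0, nat_lit 0, nat_lit 0), (nat_lit 1000, nat_lit 927, nat_lit 362), (nat_lit 991, nat_lit 1000, nat_lit 767)], (nat_lit 100, nat_lit 85, nat_lit 93)⟩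
noncomputable def p115_k13 : C1.Kn := ⟨[nat_lit 20, nat_lit 60, nat_lit 80], [nat_lit 0, nat_lit 2136, nat_lit 3185], [(nat_lit 0, nat_lit 0, nat_lit 0), (nat_lit 1000, nat_lit 343, nat_lit 808), (nat_lit 1000, nat_lit 338, nat_lit 820)], (nat_lit 32, nat_lit 100, nat_lit 88)⟩
noncomputable def p115_k14 : C1.Kn := ⟨[nat_lit 20, nat_lit 60, nat_lit 120], [nat_lit 0, nat_lit 1415, nat_lit 4677], [(nat_lit 0, nat_lit 0, nat_lit 0), (nat_lit 1000, nat_lit 558, nat_lit 551), (nat_lit 1000, nat_lit 439, nat_lit 849)], (nat_lit 44, nat_lit 100, nat_lit 92)⟩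
noncomputable def p115_k15 : C1.Kn := ⟨[nat_lit 80, nat_lit 120, nat_lit 180], [nat_lit 0, nat_lit 528, nat_lit 3600], [(nat_lit 0, nat_lit 0, nat_lit 0), (nat_lit 1000, nat_lit 959, nat_lit 206), (nat_lit 929, nat_lit 1000, nat_lit 742)], (nat_lit 100, nat_lit 69, nat_lit 96)⟩
noncomputable def p115_k16 : C1.Kn := ⟨[nat_lit 80, nat_lit 120, nat_lit 180], [nat_lit 0, nat_lit 796, nat_lit 3804], [(nat_lit 0, nat_lit 0, nat_lit 0), (nat_lit 1000, nat_lit 938, nat_lit 310), (nat_lit 969, nat_lit 1000, nat_lit 759)], (nat_lit 100, nat_lit 74, nat_lit 98)⟩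
noncomputable def p115_k17 : C1.Kn := ⟨[nat_lit 80, nat_lit 120, nat_lit 180], [nat_lit 0, nat_lit 929, nat_lit 3903], [(nat_lit 0, nat_lit 0, nat_lit 0), (nat_lit 1000, nat_lit 927, nat_lit 362), (nat_lit 991, nat_lit 1000, nat_lit 767)], (nat_lit 100, nat_lit 77, nat_lit 99)⟩
noncomputable def p115_k18 : C1.Kn := ⟨[nat_lit 80, nat_lit 140, nat_lit 180], [nat_lit 0, nat_lit 792, nat_lit 4228], [(nat_lit 0, nat_lit 0, nat_lit 0), (nat_lit 1000, nat_lit 959, nat_lit 206), (nat_lit 709, nat_lit 1000, nat_lit 949)], (nat_lit 100, nat_lit 69, nat_lit 96)⟩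
noncomputable def p115_k19 : C1.Kn := ⟨[nat_lit 20, nat_lit 80, nat_lit 100], [nat_lit 0, nat_lit 2985, nat_lit 4216], [(nat_lit 0, nat_lit 0, nat_lit 0), (nat_lit 1000, nat_lit 378, nat_lit 777), (nat_lit 1000, nat_lit 341, nat_lit 934)], (nat_lit 34, nat_lit 100, nat_lit 92)⟩
noncomputable def p115_k20 : C1.Kn := ⟨[nat_lit 20, nat_lit 60, nat_lit 100], [nat_lit 0, nat_lit 1776, nat_lit 3880], [(nat_lit 0, nat_lit 0, nat_lit 0), (nat_lit 1000, nat_lit 445, nat_lit 693), (nat_lit 1000, nat_lit 394, nat_lit 822)], (nat_lit 38, nat_lit 100, nat_lit 92)⟩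
noncomputable def p115_k21 : C1.Kn := ⟨[nat_lit 80, nat_lit 120, nat_lit 180], [nat_lit 0, nat_lit 664, nat_lit 3698], [(nat_lit 0, nat_lit 0, nat_lit 0), (nat_lit 1000, nat_lit 948, nat_lit 259), (nat_lit 949, nat_lit 1000, nat_lit 749)], (nat_lit 100, nat_lit 71, nat_lit 97)⟩
noncomputable def p115_k22 : C1.Kn := ⟨[nat_lit 80, nat_lit 120, nat_lit 180], [nat_lit 0, nat_lit 745, nat_lit 3759], [(nat_lit 0, nat_lit 0, nat_lit 0), (nat_lit 1000, nat_lit 942, nat_lit 291), (nat_lit 961, nat_lit 1000, nat_lit 754)], (nat_lit 100, nat_lit 73, nat_lit 97)⟩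
noncomputable def p115_k23 : C1.Kn := ⟨[nat_lit 20, nat_lit 60, nat_lit 100], [nat_lit 0, nat_lit 1990, nat_lit 4061], [(nat_lit 0, nat_lit 0, nat_lit 0), (nat_lit 1000, nat_lit 380, nat_lit 773), (nat_lit 1000, nat_lit 365, nat_lit 809)], (nat_lit 34, nat_lit 100, nat_lit 92)⟩
noncomputable def p115_k24 : C1.Kn := ⟨[nat_lit 20, nat_lit 80, nat_lit 100], [nat_lit 0, nat_lit 3199, nat_lit 4400], [(nat_lit 0, nat_lit 0, nat_lit 0), (nat_lit 1000, nat_lit 333, nat_lit 833), (nat_lit 1000, nat_lit 312, nat_lit 938)], (nat_lit 31, nat_lit 100, nat_lit 92)⟩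
noncomputable def p115_k25 : C1.Kn := ⟨[nat_lit 80, nat_lit 140, nat_lit 180], [nat_lit 0, nat_lit 995, nat_lit 4368], [(nat_lit 0, nat_lit 0, nat_lit 0), (nat_lit 1000, nat_lit 948, nat_lit 259), (nat_lit 732, nat_lit 1000, nat_lit 960)], (nat_lit 100, nat_lit 71, nat_lit 97)⟩
noncomputable def p115_k26 : C1.Kn := ⟨[nat_lit 80, nat_lit 140, nat_lit 180], [nat_lit 0, nat_lit 1192, nat_lit 4513], [(nat_lit 0, nat_lit 0, nat_lit 0), (nat_lit 1000, nat_lit 938, nat_lit 310), (nat_lit 752, nat_lit 1000, nat_lit 973)], (nat_lit 100, nat_lit 74, nat_lit 98)⟩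
noncomputable def p115_k27 : C1.Kn := ⟨[nat_lit 80, nat_lit 140, nat_lit 180], [nat_lit 0, nat_lit 1317, nat_lit 4597], [(nat_lit 0, nat_lit 0, nat_lit 0), (nat_lit 1000, nat_lit 931, nat_lit 343), (nat_lit 767, nat_lit 1000, nat_lit 980)], (nat_lit 100, nat_lit 76, nat_lit 98)⟩
noncomputable def p115_k28 : C1.Kn := ⟨[nat_lit 20, nat_lit 60, nat_lit 100], [nat_lit 0, nat_lit 2136, nat_lit 4235], [(nat_lit 0, nat_lit 0, nat_lit 0), (nat_lit 1000, nat_lit 343, nat_lit 808), (nat_lit 1000, nat_lit 338, nat_lit 820)], (nat_lit 31, nat_lit 100, nat_lit 92)⟩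
noncomputable def p115_k29 : C1.Kn := ⟨[nat_lit 20, nat_lit 60, nat_lit 140], [nat_lit 0, nat_lit 0, nat_lit 4874], [(nat_lit 0, nat_lit 0, nat_lit 0), (nat_lit 0, nat_lit 0, nat_lit 0), (nat_lit 1000, nat_lit 619, nat_lit 951)], (nat_lit 62, nat_lit 100, nat_lit 94)⟩
noncomputable def p115_k30 : C1.Kn := ⟨[nat_lit 20, nat_lit 60, nat_lit 120], [nat_lit 0, nat_lit 698, nat_lit 4166], [(nat_lit 0, nat_lit 0, nat_lit 0), (nat_lit 1000, nat_lit 782, nat_lit 272), (nat_lit 1000, nat_lit 529, nat_lit 902)], (nat_lit 53, nat_lit 100, nat_lit 93)⟩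
noncomputable def p115_k31 : C1.Kn := ⟨[nat_lit 80, nat_lit 120, nat_lit 180], [nat_lit 0, nat_lit 264, nat_lit 3394], [(nat_lit 0, nat_lit 0, nat_lit 0), (nat_lit 1000, nat_lit 979, nat_lit 103), (nat_lit 893, nat_lit 1000, nat_lit 726)], (nat_lit 100, nat_lit 64, nat_lit 95)⟩
noncomputable def p115_k32 : C1.Kn := ⟨[nat_lit 80, nat_lit 140, nat_lit 180], [nat_lit 0, nat_lit 395, nat_lit 3941], [(nat_lit 0, nat_lit 0, nat_lit 0), (nat_lit 1000, nat_lit 979, nat_lit 103), (nat_lit 672, nat_lit 1000, nat_lit 927)], (nat_lit 100, nat_lit 72, nat_lit 89)⟩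
noncomputable def p115_k33 : C1.Kn := ⟨[nat_lit 80, nat_lit 140, nat_lit 180], [nat_lit 0, nat_lit 792, nat_lit 4228], [(nat_lit 0, nat_lit 0, nat_lit 0), (nat_lit 1000, nat_lit 959, nat_lit 206), (nat_lit 709, nat_lit 1000, nat_lit 949)], (nat_lit 100, nat_lit 77, nat_lit 91)⟩
noncomputable def p115_k34 : C1.Kn := ⟨[nat_lit 80, nat_lit 140, nat_lit 180], [nat_lit 0, nat_lit 1192, nat_lit 4513], [(nat_lit 0, nat_lit 0, nat_lit 0), (nat_lit 1000, nat_lit 938, nat_lit 310), (nat_lit 752, nat_lit 1000, nat_lit 973)], (nat_lit 100, nat_lit 82, nat_lit 92)⟩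
noncomputable def p115_k35 : C1.Kn := ⟨[nat_lit 20, nat_lit 80, nat_lit 100], [nat_lit 0, nat_lit 3758, nat_lit 4955], [(nat_lit 0, nat_lit 0, nat_lit 0), (nat_lit 1000, nat_lit 228, nat_lit 923), (nat_lit 1000, nat_lit 226, nat_lit 935)], (nat_lit 23, nat_lit 100, nat_lit 93)⟩
noncomputable def p115_k36 : C1.Kn := ⟨[nat_lit 20, nat_lit 80, nat_lit 120], [nat_lit 0, nat_lit 0, nat_lit 3661], [(nat_lit 0, nat_lit 0, nat_lit 0), (nat_lit 0, nat_lit 0, nat_lit 0), (nat_lit 1000, nat_lit 611, nat_lit 913)], (nat_lit 60, nat_lit 100, nat_lit 87)⟩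
noncomputable def p115_k37 : C1.Kn := ⟨[nat_lit 20, nat_lit 80, nat_lit 120], [nat_lit 0, nat_lit 1046, nat_lit 4184], [(nat_lit 0, nat_lit 0, nat_lit 0), (nat_lit 1000, nat_lit 782, nat_lit 272), (nat_lit 1000, nat_lit 536, nat_lit 947)], (nat_lit 53, nat_lit 100, nat_lit 87)⟩
noncomputable def p115_k38 : C1.Kn := ⟨[nat_lit 20, nat_lit 80, nat_lit 120], [nat_lit 0, nat_lit 0, nat_lit 3661], [(nat_lit 0, nat_lit 0, nat_lit 0), (nat_lit 0, nat_lit 0, nat_lit 0), (nat_lit 1000, nat_lit 611, nat_lit 913)], (nat_lit 61, nat_lit 100, nat_lit 89)⟩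
noncomputable def p115_k39 : C1.Kn := ⟨[nat_lit 80, nat_lit 140, nat_lit 180], [nat_lit 0, nat_lit 0, nat_lit 3656], [(nat_lit 0, nat_lit 0, nat_lit 0), (nat_lit 0, nat_lit 0, nat_lit 0), (nat_lit 637, nat_lit 1000, nat_lit 908)], (nat_lit 100, nat_lit 66, nat_lit 90)⟩
noncomputable def p115_k40 : C1.Kn := ⟨[nat_lit 80, nat_lit 140, nat_lit 180], [nat_lit 0, nat_lit 592, nat_lit 4084], [(nat_lit 0, nat_lit 0, nat_lit 0), (nat_lit 1000, nat_lit 969, nat_lit 154), (nat_lit 690, nat_lit 1000, nat_lit 938)], (nat_lit 100, nat_lit 75, nat_lit 90)⟩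
noncomputable def p115_k41 : C1.Kn := ⟨[nat_lit 20, nat_lit 80, nat_lit 120], [nat_lit 0, nat_lit 1046, nat_lit 4184], [(nat_lit 0, nat_lit 0, nat_lit 0), (nat_lit 1000, nat_lit 782, nat_lit 272), (nat_lit 1000, nat_lit 536, nat_lit 947)], (nat_lit 53, nat_lit 100, nat_lit 93)⟩
noncomputable def p115_k42 : C1.Kn := ⟨[nat_lit 20, nat_lit 80, nat_lit 140], [nat_lit 0, nat_lit 0, nat_lit 4928], [(nat_lit 0, nat_lit 0, nat_lit 0), (nat_lit 0, nat_lit 0, nat_lit 0), (nat_lit 950, nat_lit 618, nat_lit 1000)], (nat_lit 62, nat_lit 100, nat_lit 94)⟩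
noncomputable def p115_k43 : C1.Kn := ⟨[nat_lit 80, nat_lit 140, nat_lit 180], [nat_lit 0, nat_lit 1393, nat_lit 4654], [(nat_lit 0, nat_lit 0, nat_lit 0), (nat_lit 1000, nat_lit 927, nat_lit 362), (nat_lit 777, nat_lit 1000, nat_lit 985)], (nat_lit 100, nat_lit 85, nat_lit 93)⟩
noncomputable def p115_k44 : C1.Kn := ⟨[nat_lit 20, nat_lit 80, nat_lit 120], [nat_lit 0, nat_lit 0, nat_lit 3661], [(nat_lit 0, nat_lit 0, nat_lit 0), (nat_lit 0, nat_lit 0, nat_lit 0), (nat_lit 1000, nat_lit 611, nat_lit 913)], (nat_lit 60, nat_lit 100, nat_lit 83)⟩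
noncomputable def p115_k45 : C1.Kn := ⟨[nat_lit 80, nat_lit 140, nat_lit 180], [nat_lit 0, nat_lit 792, nat_lit 4228], [(nat_lit 0, nat_lit 0, nat_lit 0), (nat_lit 1000, nat_lit 959, nat_lit 206), (nat_lit 709, nat_lit 1000, nat_lit 949)], (nat_lit 100, nat_lit 82, nat_lit 87)⟩
noncomputable def p115_k46 : C1.Kn := ⟨[nat_lit 80, nat_lit 140, nat_lit 180], [nat_lit 0, nat_lit 995, nat_lit 4368], [(nat_lit 0, nat_lit 0, nat_lit 0), (nat_lit 1000, nat_lit 948, nat_lit 259), (nat_lit 732, nat_lit 1000, nat_lit 960)], (nat_lit 100, nat_lit 84, nat_lit 88)⟩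
noncomputable def p115_k47 : C1.Kn := ⟨[nat_lit 80, nat_lit 140, nat_lit 160], [nat_lit 0, nat_lit 1192, nat_lit 2947], [(nat_lit 0, nat_lit 0, nat_lit 0), (nat_lit 1000, nat_lit 938, nat_lit 310), (nat_lit 863, nat_lit 1000, nat_lit 890)], (nat_lit 100, nat_lit 87, nat_lit 88)⟩
noncomputable def p115_k48 : C1.Kn := ⟨[nat_lit 20, nat_lit 60, nat_lit 120], [nat_lit 0, nat_lit 0, nat_lit 3661], [(nat_lit 0, nat_lit 0, nat_lit 0), (nat_lit 0, nat_lit 0, nat_lit 0), (nat_lit 1000, nat_lit 611, nat_lit 913)], (nat_lit 60, nat_lit 100, nat_lit 87)⟩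
noncomputable def p115_k49 : C1.Kn := ⟨[nat_lit 20, nat_lit 60, nat_lit 120], [nat_lit 0, nat_lit 698, nat_lit 4166], [(nat_lit 0, nat_lit 0, nat_lit 0), (nat_lit 1000, nat_lit 782, nat_lit 272), (nat_lit 1000, nat_lit 529, nat_lit 902)], (nat_lit 53, nat_lit 100, nat_lit 87)⟩
noncomputable def p115_k50 : C1.Kn := ⟨[nat_lit 80, nat_lit 140, nat_lit 180], [nat_lit 0, nat_lit 1393, nat_lit 4654], [(nat_lit 0, nat_lit 0, nat_lit 0), (nat_lit 1000, nat_lit 927, nat_lit 362), (nat_lit 777, nat_lit 1000, nat_lit 985)], (nat_lit 100, nat_lit 77, nat_lit 99)⟩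
noncomputable def p115_k51 : C1.Kn := ⟨[nat_lit 20, nat_lit 80, nat_lit 120], [nat_lit 0, nat_lit 2451, nat_lit 5041], [(nat_lit 0, nat_lit 0, nat_lit 0), (nat_lit 1000, nat_lit 489, nat_lit 638), (nat_lit 1000, nat_lit 411, nat_lit 993)], (nat_lit 40, nat_lit 100, nat_lit 92)⟩
noncomputable def p115_k52 : C1.Kn := ⟨[nat_lit 80, nat_lit 140, nat_lit 180], [nat_lit 0, nat_lit 1510, nat_lit 4744], [(nat_lit 0, nat_lit 0, nat_lit 0), (nat_lit 1000, nat_lit 921, nat_lit 392), (nat_lit 789, nat_lit 1000, nat_lit 995)], (nat_lit 100, nat_lit 79, nat_lit 100)⟩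
noncomputable def p115_k53 : C1.Kn := ⟨[nat_lit 20, nat_lit 140], [nat_lit 0, nat_lit 0], [(nat_lit 0, nat_lit 0, nat_lit 0), (nat_lit 0, nat_lit 0, nat_lit 0)], (nat_lit 62, nat_lit 100, nat_lit 94)⟩
noncomputable def p115_k54 : C1.Kn := ⟨[nat_lit 80, nat_lit 180], [nat_lit 0, nat_lit 1319], [(nat_lit 0, nat_lit 0, nat_lit 0), (nat_lit 1000, nat_lit 959, nat_lit 206)], (nat_lit 100, nat_lit 69, nat_lit 96)⟩
noncomputable def p115_k55 : C1.Kn := ⟨[nat_lit 20, nat_lit 80, nat_lit 120], [nat_lit 0, nat_lit 508, nat_lit 3912], [(nat_lit 0, nat_lit 0, nat_lit 0), (nat_lit 1000, nat_lit 894, nat_lit 132), (nat_lit 1000, nat_lit 576, nat_lit 936)], (nat_lit 58, nat_lit 100, nat_lit 93)⟩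
noncomputable def p115_l0 : Lf2 := ⟨nat_lit 0, nat_lit 25, [nat_lit 44, nat_lit 5, nat_lit 5, nat_lit 20], false, nat_lit 80, nat_lit 160, nat_lit 0, nat_lit 336, ⟨nat_lit 102, nat_lit 898, nat_lit 0, nat_lit 8, nat_lit 296, nat_lit 898, nat_lit 103, nat_lit 0, nat_lit 0, nat_lit 0, nat_lit 0, nat_lit 0, nat_lit 40183986, nat_lit 22579792, nat_lit 4236222, nat_lit 4484583, true, true⟩,
 nat_lit 0, nat_lit 0, nat_lit 1676, nat_lit 0, nat_lit 3982, nat_lit 887, nat_lit 0, nat_lit 0, nat_lit 0, nat_lit 74, nat_lit 0, nat_lit 0, nat_lit 0, nat_lit 0, nat_lit 0, nat_lit 224500, nat_lit 0, nat_lit 0, [(nat_lit 29, [(nat_lit 0, nat_lit 898)])],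
 ⟨p115_k0, nat_lit 0, nat_lit 0, nat_lit 115, nat_lit 0, nat_lit 0, [nat_lit 797552800, nat_lit 1274072000, nat_lit 2241687200], [], [nat_lit 27941165924, nat_lit 28241744429, nat_lit 28898572666, nat_lit 29249828733, nat_lit 27874760088, nat_lit 28148154430, nat_lit 28743028112, nat_lit 29003834587], nat_lit 0, nat_lit 0, nat_lit 0, nat_lit 0, nat_lit 0, nat_lit 0, [], [nat_lit 20, nat_lit 40, nat_lit 40, nat_lit 80, nat_lit 16, nat_lit 249, nat_lit 40, nat_lit 8]⟩, ⟨p115_k1, nat_lit 0, nat_lit 0, nat_lit 639, nat_lit 0, nat_lit 766209, [nat_lit 478176000, nat_lit 812736000, nat_lit 1433916000], [], [nat_lit 4238918748, nat_lit 4262750026, nat_lit 4311749042, nat_lit 4331611750, nat_lit 3467627576, nat_lit 3477747820, nat_lit 3528268709, nat_lit 3553107044], nat_lit 1271250, nat_lit 1271250, nat_lit 1271250, nat_lit 1271250, nat_lit 0, nat_lit 2373000, [nat_lit 1100000, nat_lit 1785000, nat_lit 1271250], [nat_lit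 37, nat_lit 40, nat_lit 40, nat_lit 80, nat_lit 28, nat_lit 483, nat_lit 250, nat_lit 11]⟩,
 ⟨nat_lit 1936, nat_lit 2237, ⟨.ofNat (nat_lit 716594), .ofNat (nat_lit 745101), .ofNat (nat_lit 739368), .ofNat (nat_lit 767876), .ofNat (nat_lit 713688), .ofNat (nat_lit 741632), .ofNat (nat_lit 736698), .ofNat (nat_lit 764643)⟩, ⟨.ofNat (nat_lit 192306), .ofNat (nat_lit 306337), .ofNat (nat_lit 200000), .ofNat (nat_lit 329112), .ofNat (nat_lit 194266), .ofNat (nat_lit 306044), .ofNat (nat_lit 200000), .ofNat (nat_lit 329055)⟩⟩, [⟨nat_lit 13, nat_lit 42, nat_lit 81, nat_lit 100, nat_lit 438852701⟩, ⟨nat_lit 22, nat_lit 82, nat_lit 76, nat_lit 100, nat_lit 9217662⟩]⟩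
noncomputable def p115_l1 : Lf2 := ⟨nat_lit 0, nat_lit 25, [nat_lit 44, nat_lit 5, nat_lit 5, nat_lit 20], false, nat_lit 80, nat_lit 160, nat_lit 0, nat_lit 336, ⟨nat_lit 87, nat_lit 913, nat_lit 0, nat_lit 8, nat_lit 292, nat_lit 913, nat_lit 103, nat_lit 0, nat_lit 0, nat_lit 0, nat_lit 0, nat_lit 0, nat_lit 40588546, nat_lit 22139793, nat_lit 4271661, nat_lit 4471540, true, true⟩,
 nat_lit 0, nat_lit 0, nat_lit 1429, nat_lit 0, nat_lit 3941, nat_lit 756, nat_lit 4, nat_lit 0, nat_lit 0, nat_lit 63, nat_lit 0, nat_lit 0, nat_lit 0, nat_lit 0, nat_lit 0, nat_lit 228250, nat_lit 0, nat_lit 0, [(nat_lit 29, [(nat_lit 0, nat_lit 913)])],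
 ⟨p115_k2, nat_lit 0, nat_lit 0, nat_lit 114, nat_lit 0, nat_lit 0, [nat_lit 795206801, nat_lit 1240532001, nat_lit 2174733200], [], [nat_lit 28119680840, nat_lit 28418782217, nat_lit 28498714788, nat_lit 28859588659, nat_lit 28042560315, nat_lit 28314674186, nat_lit 28383553777, nat_lit 28650671345], nat_lit 0, nat_lit 0, nat_lit 0, nat_lit 0, nat_lit 0, nat_lit 0, [], [nat_lit 20, nat_lit 40, nat_lit 40, nat_lit 80, nat_lit 16, nat_lit 249, nat_lit 40, nat_lit 8]⟩, ⟨p115_k1, nat_lit 0, nat_lit 0, nat_lit 710, nat_lit 0, nat_lit 876385, [nat_lit 407856000, nat_lit 693216000, nat_lit 1223046000], [], [nat_lit 3618131988, nat_lit 3638470320, nat_lit 3642973558, nat_lit 3661958742, nat_lit 2960072763, nat_lit 2967755101, nat_lit 2972409912, nat_lit 2993458924], nat_lit 1271250, nat_lit 1271250, nat_lit 1271250, nat_lit 1271250, nat_lit 0, nat_lit 2373000, [nat_lit 1100000, nat_lit 1785000, nat_lit 1271250], [nat_lit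 37, nat_lit 40, nat_lit 40, nat_lit 80, nat_lit 28, nat_lit 483, nat_lit 250, nat_lit 11]⟩,
 ⟨nat_lit 1581, nat_lit 1937, ⟨.ofNat (nat_lit 713688), .ofNat (nat_lit 724865), .ofNat (nat_lit 736698), .ofNat (nat_lit 747876), .ofNat (nat_lit 710536), .ofNat (nat_lit 721463), .ofNat (nat_lit 733851), .ofNat (nat_lit 744778)⟩, ⟨.ofNat (nat_lit 194266), .ofNat (nat_lit 306044), .ofNat (nat_lit 200000), .ofNat (nat_lit 329055), .ofNat (nat_lit 196201), .ofNat (nat_lit 305473), .ofNat (nat_lit 200000), .ofNat (nat_lit 328788)⟩⟩, [⟨nat_lit 13, nat_lit 40, nat_lit 81, nat_lit 100, nat_lit 467486978⟩, ⟨nat_lit 22, nat_lit 86, nat_lit 96, nat_lit 100, nat_lit 7501100⟩]⟩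
noncomputable def p115_l2 : Lf2 := ⟨nat_lit 0, nat_lit 25, [nat_lit 44, nat_lit 5, nat_lit 5, nat_lit 20], false, nat_lit 80, nat_lit 160, nat_lit 0, nat_lit 336, ⟨nat_lit 110, nat_lit 890, nat_lit 0, nat_lit 8, nat_lit 296, nat_lit 890, nat_lit 108, nat_lit 0, nat_lit 0, nat_lit 0, nat_lit 0, nat_lit 0, nat_lit 40016406, nat_lit 22425759, nat_lit 4557835, nat_lit 4541644, true, true⟩,
 nat_lit 0, nat_lit 0, nat_lit 2039, nat_lit 0, nat_lit 2777, nat_lit 1079, nat_lit 23, nat_lit 0, nat_lit 0, nat_lit 50, nat_lit 0, nat_lit 0, nat_lit 0, nat_lit 0, nat_lit 0, nat_lit 356000, nat_lit 0, nat_lit 0, [(nat_lit 29, [(nat_lit 1, nat_lit 890)])],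
 ⟨p115_k3, nat_lit 0, nat_lit 0, nat_lit 120, nat_lit 0, nat_lit 0, [nat_lit 724756000, nat_lit 691544000, nat_lit 771160000], [], [nat_lit 26060325664, nat_lit 26574656399, nat_lit 26898535777, nat_lit 27479568427, nat_lit 26472181918, nat_lit 26943703892, nat_lit 27243649882, nat_lit 27700427578], nat_lit 0, nat_lit 0, nat_lit 0, nat_lit 0, nat_lit 0, nat_lit 0, [], [nat_lit 55, nat_lit 40, nat_lit 40, nat_lit 80, nat_lit 3, nat_lit 249, nat_lit 40, nat_lit 8]⟩, ⟨p115_k4, nat_lit 0, nat_lit 0, nat_lit 596, nat_lit 0, nat_lit 629869, [nat_lit 515680000, nat_lit 1082620000, nat_lit 1546380000], [], [nat_lit 4859545564, nat_lit 4875986318, nat_lit 4925812552, nat_lit 4938289311, nat_lit 3922918825, nat_lit 3920261695, nat_lit 3978811543, nat_lit 4003161819], nat_lit 1271250, nat_lit 1271250, nat_lit 1271250, nat_lit 1271250, nat_lit 0, nat_lit 2373000, [nat_lit 1100000, nat_lit 2127500, nat_lit 1271250], [nat_lit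 56, nat_lit 40, nat_lit 40, nat_lit 80, nat_lit 32, nat_lit 483, nat_lit 250, nat_lit 11]⟩,
 ⟨nat_lit 1581, nat_lit 2237, ⟨.ofNat (nat_lit 716594), .ofNat (nat_lit 745101), .ofNat (nat_lit 739368), .ofNat (nat_lit 767876), .ofNat (nat_lit 710536), .ofNat (nat_lit 737854), .ofNat (nat_lit 733851), .ofNat (nat_lit 761169)⟩, ⟨.ofNat (nat_lit 200000), .ofNat (nat_lit 329112), .ofNat (nat_lit 200000), .ofNat (nat_lit 351886), .ofNat (nat_lit 200000), .ofNat (nat_lit 328788), .ofNat (nat_lit 200000), .ofNat (nat_lit 352103)⟩⟩, [⟨nat_lit 13, nat_lit 39, nat_lit 83, nat_lit 100, nat_lit 425122370⟩, ⟨nat_lit 22, nat_lit 82, nat_lit 76, nat_lit 100, nat_lit 8019026⟩]⟩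
noncomputable def p115_l3 : Lf2 := ⟨nat_lit 0, nat_lit 30, [nat_lit 15, nat_lit 5, nat_lit 5, nat_lit 20], false, nat_lit 80, nat_lit 160, nat_lit 0, nat_lit 160, ⟨nat_lit 1000, nat_lit 0, nat_lit 0, nat_lit 0, nat_lit 0, nat_lit 0, nat_lit 0, nat_lit 0, nat_lit 0, nat_lit 0, nat_lit 0, nat_lit 0, nat_lit 0, nat_lit 0, nat_lit 0, nat_lit 0, false, false⟩,
 nat_lit 0, nat_lit 0, nat_lit 12662, nat_lit 0, nat_lit 3104, nat_lit 6703, nat_lit 530, nat_lit 0, nat_lit 0, nat_lit 679, nat_lit 0, nat_lit 0, nat_lit 0, nat_lit 0, nat_lit 0, nat_lit 0, nat_lit 0, nat_lit 0, [],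
 ⟨p115_k5, nat_lit 0, nat_lit 0, nat_lit 135, nat_lit 0, nat_lit 0, [nat_lit 938000000, nat_lit 4688000000, nat_lit 7968000000], [], [nat_lit 26452428268, nat_lit 26713358092, nat_lit 27431028152, nat_lit 27743155490, nat_lit 26666814988, nat_lit 26902122310, nat_lit 27548695304, nat_lit 27834105330], nat_lit 0, nat_lit 0, nat_lit 0, nat_lit 0, nat_lit 0, nat_lit 0, [], [nat_lit 57, nat_lit 40, nat_lit 40, nat_lit 80, nat_lit 7, nat_lit 249, nat_lit 40, nat_lit 7]⟩, ⟨p115_k6, nat_lit 0, nat_lit 0, nat_lit 487, nat_lit 0, nat_lit 300856, [nat_lit 4688000000, nat_lit 9842000000, nat_lit 16400000000], [], [nat_lit 42750386577, nat_lit 43074585353, nat_lit 43473816437, nat_lit 43789143009, nat_lit 37995428620, nat_lit 38390827316, nat_lit 38739988900, nat_lit 39102342171], nat_lit 1271250, nat_lit 1271250, nat_lit 1271250, nat_lit 1271250, nat_lit 0, nat_lit 1100001, [nat_lit 1100000, nat_lit 2127500, nat_lit 1271250],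 [nat_lit 83, nat_lit 40, nat_lit 40, nat_lit 80, nat_lit 73, nat_lit 428, nat_lit 200, nat_lit 9]⟩,
 zbF0, []⟩
noncomputable def p115_l4 : Lf2 := ⟨nat_lit 0, nat_lit 30, [nat_lit 15, nat_lit 5, nat_lit 5, nat_lit 20], false, nat_lit 80, nat_lit 160, nat_lit 160, nat_lit 336, ⟨nat_lit 481, nat_lit 519, nat_lit 0, nat_lit 8, nat_lit 296, nat_lit 519, nat_lit 108, nat_lit 0, nat_lit 0, nat_lit 0, nat_lit 0, nat_lit 0, nat_lit 39957519, nat_lit 22488210, nat_lit 4554271, nat_lit 4543757, true, true⟩,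
 nat_lit 0, nat_lit 0, nat_lit 5218, nat_lit 0, nat_lit 2876, nat_lit 2762, nat_lit 352, nat_lit 0, nat_lit 0, nat_lit 289, nat_lit 0, nat_lit 0, nat_lit 0, nat_lit 0, nat_lit 0, nat_lit 129750, nat_lit 0, nat_lit 0, [(nat_lit 29, [(nat_lit 0, nat_lit 519)])],
 ⟨p115_k5, nat_lit 0, nat_lit 0, nat_lit 135, nat_lit 0, nat_lit 0, [nat_lit 856828401, nat_lit 3061038800, nat_lit 4923949600], [], [nat_lit 26064702992, nat_lit 26350650448, nat_lit 27049934588, nat_lit 27351900935, nat_lit 26376312345, nat_lit 26629653194, nat_lit 27274257176, nat_lit 27550782270], nat_lit 0, nat_lit 0, nat_lit 0, nat_lit 0, nat_lit 0, nat_lit 0, [], [nat_lit 57, nat_lit 40, nat_lit 40, nat_lit 80, nat_lit 7, nat_lit 249, nat_lit 40, nat_lit 7]⟩, ⟨p115_k6, nat_lit 0, nat_lit 0, nat_lit 308, nat_lit 0, nat_lit 300856, [nat_lit 2254928000, nat_lit 4734002000, nat_lit 7888400000], [], [nat_lit 16202685023, nat_lit 16396213801, nat_lit 16562676991,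 nat_lit 16740928187, nat_lit 17418860406, nat_lit 17535095286, nat_lit 17693600154, nat_lit 17866794440], nat_lit 1271250, nat_lit 1271250, nat_lit 1271250, nat_lit 1271250, nat_lit 1100001, nat_lit 2607000, [nat_lit 1100000, nat_lit 2127500, nat_lit 1271250], [nat_lit 83, nat_lit 40, nat_lit 40, nat_lit 80, nat_lit 73, nat_lit 483, nat_lit 250, nat_lit 9]⟩,
 ⟨nat_lit 1936, nat_lit 2237, ⟨.ofNat (nat_lit 716594), .ofNat (nat_lit 745101), .ofNat (nat_lit 739368), .ofNat (nat_lit 767876), .ofNat (nat_lit 713688), .ofNat (nat_lit 741632), .ofNat (nat_lit 736698), .ofNat (nat_lit 764643)⟩, ⟨.ofNat (nat_lit 200000), .ofNat (nat_lit 329112), .ofNat (nat_lit 200000), .ofNat (nat_lit 351886), .ofNat (nat_lit 200000), .ofNat (nat_lit 329055), .ofNat (nat_lit 200000), .ofNat (nat_lit 352066)⟩⟩, [⟨nat_lit 22, nat_lit 82, nat_lit 76, nat_lit 100, nat_lit 173190512⟩]⟩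
noncomputable def p115_l5 : Lf2 := ⟨nat_lit 0, nat_lit 30, [nat_lit 15, nat_lit 5, nat_lit 5, nat_lit 20], false, nat_lit 80, nat_lit 160, nat_lit 0, nat_lit 336, ⟨nat_lit 172, nat_lit 828, nat_lit 0, nat_lit 8, nat_lit 294, nat_lit 828, nat_lit 108, nat_lit 0, nat_lit 0, nat_lit 0, nat_lit 0, nat_lit 0, nat_lit 40158530, nat_lit 22272895, nat_lit 4568575, nat_lit 4536780, true, true⟩,
 nat_lit 0, nat_lit 0, nat_lit 2899, nat_lit 0, nat_lit 3401, nat_lit 1610, nat_lit 101, nat_lit 0, nat_lit 0, nat_lit 95, nat_lit 0, nat_lit 0, nat_lit 0, nat_lit 0, nat_lit 0, nat_lit 207000, nat_lit 0, nat_lit 0, [(nat_lit 29, [(nat_lit 0, nat_lit 828)])],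
 ⟨p115_k7, nat_lit 0, nat_lit 0, nat_lit 116, nat_lit 0, nat_lit 0, [nat_lit 808500800, nat_lit 1945995201, nat_lit 2554139200], [], [nat_lit 27208133710, nat_lit 27528291654, nat_lit 27612625926, nat_lit 27948246751, nat_lit 27347928215, nat_lit 27603177346, nat_lit 27672081561, nat_lit 27922845984], nat_lit 0, nat_lit 0, nat_lit 0, nat_lit 0, nat_lit 0, nat_lit 0, [], [nat_lit 55, nat_lit 40, nat_lit 40, nat_lit 80, nat_lit 3, nat_lit 249, nat_lit 40, nat_lit 8]⟩, ⟨p115_k8, nat_lit 0, nat_lit 0, nat_lit 462, nat_lit 0, nat_lit 375987, [nat_lit 806336000, nat_lit 1692824000, nat_lit 2417976000], [], [nat_lit 7087734516, nat_lit 7122131376, nat_lit 7152503337, nat_lit 7185152816, nat_lit 5874097613, nat_lit 5887932478, nat_lit 5916554953, nat_lit 5938642016], nat_lit 1271250, nat_lit 1271250, nat_lit 1271250, nat_lit 1271250, nat_lit 0, nat_lit 2373000, [nat_lit 1100000, nat_lit 2127500, nat_lit 1271250], [nat_lit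 56, nat_lit 40, nat_lit 40, nat_lit 80, nat_lit 32, nat_lit 483, nat_lit 250, nat_lit 11]⟩,
 ⟨nat_lit 1581, nat_lit 1937, ⟨.ofNat (nat_lit 725193), .ofNat (nat_lit 736371), .ofNat (nat_lit 736698), .ofNat (nat_lit 747876), .ofNat (nat_lit 722193), .ofNat (nat_lit 733121), .ofNat (nat_lit 733851), .ofNat (nat_lit 744778)⟩, ⟨.ofNat (nat_lit 200000), .ofNat (nat_lit 329055), .ofNat (nat_lit 200000), .ofNat (nat_lit 352066), .ofNat (nat_lit 200000), .ofNat (nat_lit 328788), .ofNat (nat_lit 200000), .ofNat (nat_lit 352103)⟩⟩, [⟨nat_lit 13, nat_lit 36, nat_lit 84, nat_lit 100, nat_lit 425830136⟩, ⟨nat_lit 22, nat_lit 82, nat_lit 76, nat_lit 100, nat_lit 17132815⟩]⟩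
noncomputable def b_V_900_600_20_49 : St := ⟨true, nat_lit 0, nat_lit 1, nat_lit 1, nat_lit 120, nat_lit 380, nat_lit 400, nat_lit 240, nat_lit 260, nat_lit 320, nat_lit 352, nat_lit 80, nat_lit 120, nat_lit 80, nat_lit 160, nat_lit 0, nat_lit 336, nat_lit 80, nat_lit 120, nat_lit 0, nat_lit 0, nat_lit 0, nat_lit 0⟩
theorem d_V_900_600_20_49 (h : EB TB.env) : Dead b_V_900_600_20_49 := chkB_sound0 h (T :=
(.trX (nat_lit 13) (nat_lit 46) (nat_lit 76) (nat_lit 100) (nat_lit 340) (.spl (nat_lit 0) (nat_lit 390)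
(.spl (nat_lit 3) (nat_lit 100)
(.spl (nat_lit 0) (nat_lit 385)
(.leaf p115_l0)
(.trX (nat_lit 13) (nat_lit 40) (nat_lit 81) (nat_lit 100) (nat_lit 328) (.leaf p115_l1)))
(.spl (nat_lit 6) (nat_lit 100)
(.leaf p115_l2)
(.spl (nat_lit 0) (nat_lit 385)
(.spl (nat_lit 5) (nat_lit 160)
(.leaf p115_l3)
(.leaf p115_l4))
(.trX (nat_lit 13) (nat_lit 40) (nat_lit 81) (nat_lit 100) (nat_lit 328) (.spl (nat_lit 1) (nat_lit 250)
(.emL (nat_lit 13) (nat_lit 39) (nat_lit 83) (nat_lit 100))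
(.leaf p115_l5))))))
(.emL (nat_lit 13) (nat_lit 33) (nat_lit 85) (nat_lit 100))))) (by decide +kernel)
noncomputable def p115_l6 : Lf2 := ⟨nat_lit 0, nat_lit 25, [nat_lit 44, nat_lit 5, nat_lit 5, nat_lit 20], false, nat_lit 80, nat_lit 160, nat_lit 0, nat_lit 336, ⟨nat_lit 129, nat_lit 871, nat_lit 0, nat_lit 8, nat_lit 302, nat_lit 871, nat_lit 103, nat_lit 0, nat_lit 0, nat_lit 0, nat_lit 0, nat_lit 0, nat_lit 39630236, nat_lit 23167728, nat_lit 4202036, nat_lit 4503081, true, true⟩,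
 nat_lit 0, nat_lit 0, nat_lit 1703, nat_lit 0, nat_lit 4055, nat_lit 991, nat_lit 0, nat_lit 0, nat_lit 0, nat_lit 95, nat_lit 0, nat_lit 0, nat_lit 0, nat_lit 0, nat_lit 0, nat_lit 217750, nat_lit 0, nat_lit 0, [(nat_lit 29, [(nat_lit 0, nat_lit 871)])],
 ⟨p115_k0, nat_lit 0, nat_lit 0, nat_lit 118, nat_lit 0, nat_lit 0, [nat_lit 801775601, nat_lit 1334444001, nat_lit 2362204400], [], [nat_lit 28070821410, nat_lit 28677238435, nat_lit 29254261647, nat_lit 29955483243, nat_lit 27975442020, nat_lit 28526790430, nat_lit 29024400733, nat_lit 29545123301], nat_lit 0, nat_lit 0, nat_lit 0, nat_lit 0, nat_lit 0, nat_lit 0, [], [nat_lit 20, nat_lit 40, nat_lit 40, nat_lit 80, nat_lit 16, nat_lit 249, nat_lit 40, nat_lit 8]⟩, ⟨p115_k9, nat_lit 0, nat_lit 0, nat_lit 641, nat_lit 0, nat_lit 785917, [nat_lit 604752000, nat_lit 1027872000, nat_lit 1813482000], [], [nat_lit 5020865214, nat_lit 5026158525, nat_lit 5092094279,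 nat_lit 5096394083, nat_lit 4328773551, nat_lit 4336211294, nat_lit 4435972172, nat_lit 4444234237], nat_lit 1271250, nat_lit 1271250, nat_lit 1271250, nat_lit 1271250, nat_lit 0, nat_lit 2373000, [nat_lit 1100000, nat_lit 1785000, nat_lit 1271250], [nat_lit 37, nat_lit 40, nat_lit 40, nat_lit 80, nat_lit 28, nat_lit 483, nat_lit 250, nat_lit 11]⟩,
 ⟨nat_lit 1581, nat_lit 2237, ⟨.ofNat (nat_lit 739368), .ofNat (nat_lit 773577), .ofNat (nat_lit 745062), .ofNat (nat_lit 779271), .ofNat (nat_lit 733851), .ofNat (nat_lit 766632), .ofNat (nat_lit 739680), .ofNat (nat_lit 772461)⟩, ⟨.ofNat (nat_lit 192306), .ofNat (nat_lit 306337), .ofNat (nat_lit 200000), .ofNat (nat_lit 329112), .ofNat (nat_lit 196201), .ofNat (nat_lit 305473), .ofNat (nat_lit 200000), .ofNat (nat_lit 328788)⟩⟩, [⟨nat_lit 13, nat_lit 40, nat_lit 80, nat_lit 100, nat_lit 453711522⟩, ⟨nat_lit 19, nat_lit 100, nat_lit 82, nat_lit 88, nat_lit 9721380⟩, ⟨nat_lit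 10, nat_lit 74, nat_lit 76, nat_lit 100, nat_lit 7290941⟩]⟩
noncomputable def p115_l7 : Lf2 := ⟨nat_lit 0, nat_lit 25, [nat_lit 44, nat_lit 5, nat_lit 5, nat_lit 20], false, nat_lit 80, nat_lit 160, nat_lit 0, nat_lit 160, ⟨nat_lit 276, nat_lit 724, nat_lit 0, nat_lit 8, nat_lit 306, nat_lit 724, nat_lit 103, nat_lit 0, nat_lit 0, nat_lit 0, nat_lit 0, nat_lit 0, nat_lit 39328792, nat_lit 23490047, nat_lit 4181161, nat_lit 4512022, true, true⟩,
 nat_lit 0, nat_lit 0, nat_lit 3483, nat_lit 0, nat_lit 2760, nat_lit 2074, nat_lit 122, nat_lit 0, nat_lit 0, nat_lit 318, nat_lit 0, nat_lit 0, nat_lit 0, nat_lit 0, nat_lit 0, nat_lit 289600, nat_lit 0, nat_lit 0, [(nat_lit 29, [(nat_lit 1, nat_lit 724)])],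
 ⟨p115_k0, nat_lit 0, nat_lit 0, nat_lit 119, nat_lit 0, nat_lit 0, [nat_lit 764529600, nat_lit 1146200000, nat_lit 1793056000], [], [nat_lit 25970493570, nat_lit 26483599370, nat_lit 27256634065, nat_lit 27838430432, nat_lit 26408406770, nat_lit 26860580290, nat_lit 27503220089, nat_lit 28036895620], nat_lit 0, nat_lit 0, nat_lit 0, nat_lit 0, nat_lit 0, nat_lit 0, [], [nat_lit 20, nat_lit 40, nat_lit 40, nat_lit 80, nat_lit 16, nat_lit 249, nat_lit 40, nat_lit 8]⟩, ⟨p115_k10, nat_lit 0, nat_lit 0, nat_lit 640, nat_lit 0, nat_lit 786889, [nat_lit 1293888000, nat_lit 2199168000, nat_lit 3880008000], [], [nat_lit 9192307617, nat_lit 9214896966, nat_lit 9441275334, nat_lit 9460727420, nat_lit 7913727706, nat_lit 7926357276, nat_lit 8080567491, nat_lit 8090966468], nat_lit 1271250, nat_lit 1271250, nat_lit 1271250, nat_lit 1271250, nat_lit 0, nat_lit 1100001, [nat_lit 1100000, nat_lit 1785000, nat_lit 1271250], [nat_lit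 37, nat_lit 40, nat_lit 40, nat_lit 80, nat_lit 28, nat_lit 428, nat_lit 200, nat_lit 9]⟩,
 ⟨nat_lit 1581, nat_lit 2237, ⟨.ofNat (nat_lit 745062), .ofNat (nat_lit 784972), .ofNat (nat_lit 750755), .ofNat (nat_lit 790666), .ofNat (nat_lit 739680), .ofNat (nat_lit 777925), .ofNat (nat_lit 745508), .ofNat (nat_lit 783753)⟩, ⟨.ofNat (nat_lit 192306), .ofNat (nat_lit 306337), .ofNat (nat_lit 200000), .ofNat (nat_lit 329112), .ofNat (nat_lit 196201), .ofNat (nat_lit 305473), .ofNat (nat_lit 200000), .ofNat (nat_lit 328788)⟩⟩, [⟨nat_lit 13, nat_lit 33, nat_lit 84, nat_lit 100, nat_lit 543732448⟩, ⟨nat_lit 4, nat_lit 100, nat_lit 39, nat_lit 85, nat_lit 232361810⟩]⟩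
noncomputable def p115_l8 : Lf2 := ⟨nat_lit 0, nat_lit 25, [nat_lit 44, nat_lit 5, nat_lit 5, nat_lit 20], false, nat_lit 80, nat_lit 160, nat_lit 160, nat_lit 332, ⟨nat_lit 145, nat_lit 855, nat_lit 0, nat_lit 8, nat_lit 307, nat_lit 855, nat_lit 103, nat_lit 0, nat_lit 0, nat_lit 0, nat_lit 0, nat_lit 0, nat_lit 39275288, nat_lit 23550680, nat_lit 4174032, nat_lit 4512995, true, true⟩,
 nat_lit 0, nat_lit 0, nat_lit 1783, nat_lit 0, nat_lit 4121, nat_lit 1061, nat_lit 0, nat_lit 0, nat_lit 0, nat_lit 133, nat_lit 0, nat_lit 0, nat_lit 0, nat_lit 0, nat_lit 0, nat_lit 213750, nat_lit 0, nat_lit 0, [(nat_lit 29, [(nat_lit 0, nat_lit 855)])],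
 ⟨p115_k0, nat_lit 0, nat_lit 0, nat_lit 117, nat_lit 0, nat_lit 0, [nat_lit 804278001, nat_lit 1370220000, nat_lit 2433622000], [], [nat_lit 28150501022, nat_lit 28456087350, nat_lit 29601652580, nat_lit 29951209388, nat_lit 28028926364, nat_lit 28306661815, nat_lit 29260134205, nat_lit 29520304399], nat_lit 0, nat_lit 0, nat_lit 0, nat_lit 0, nat_lit 0, nat_lit 0, [], [nat_lit 20, nat_lit 40, nat_lit 40, nat_lit 80, nat_lit 16, nat_lit 249, nat_lit 40, nat_lit 8]⟩, ⟨p115_k10, nat_lit 0, nat_lit 0, nat_lit 465, nat_lit 0, nat_lit 696894, [nat_lit 679760000, nat_lit 1155360000, nat_lit 2038410000], [], [nat_lit 4324143627, nat_lit 4332836540, nat_lit 4434120065, nat_lit 4444496001, nat_lit 4577117797, nat_lit 4584778957, nat_lit 4682373826, nat_lit 4691930391], nat_lit 1271250, nat_lit 1271250, nat_lit 1271250, nat_lit 1271250, nat_lit 1100001, nat_lit 2572750, [nat_lit 1100000, nat_lit 1785000, nat_lit 1271250],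 [nat_lit 37, nat_lit 40, nat_lit 40, nat_lit 80, nat_lit 28, nat_lit 483, nat_lit 250, nat_lit 10]⟩,
 ⟨nat_lit 1936, nat_lit 2237, ⟨.ofNat (nat_lit 745062), .ofNat (nat_lit 784972), .ofNat (nat_lit 750755), .ofNat (nat_lit 790666), .ofNat (nat_lit 742451), .ofNat (nat_lit 781574), .ofNat (nat_lit 748204), .ofNat (nat_lit 787326)⟩, ⟨.ofNat (nat_lit 192306), .ofNat (nat_lit 306337), .ofNat (nat_lit 200000), .ofNat (nat_lit 329112), .ofNat (nat_lit 194266), .ofNat (nat_lit 306044), .ofNat (nat_lit 200000), .ofNat (nat_lit 329055)⟩⟩, [⟨nat_lit 13, nat_lit 43, nat_lit 77, nat_lit 100, nat_lit 383803503⟩, ⟨nat_lit 7, nat_lit 85, nat_lit 100, nat_lit 89, nat_lit 33096184⟩, ⟨nat_lit 10, nat_lit 76, nat_lit 75, nat_lit 100, nat_lit 14370627⟩]⟩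
noncomputable def p115_l9 : Lf2 := ⟨nat_lit 0, nat_lit 25, [nat_lit 44, nat_lit 5, nat_lit 5, nat_lit 20], false, nat_lit 80, nat_lit 160, nat_lit 160, nat_lit 332, ⟨nat_lit 178, nat_lit 822, nat_lit 0, nat_lit 8, nat_lit 302, nat_lit 822, nat_lit 103, nat_lit 0, nat_lit 0, nat_lit 0, nat_lit 0, nat_lit 0, nat_lit 39670158, nat_lit 23120043, nat_lit 4209799, nat_lit 4502660, true, true⟩,
 nat_lit 0, nat_lit 0, nat_lit 2160, nat_lit 0, nat_lit 2871, nat_lit 1286, nat_lit 159, nat_lit 0, nat_lit 0, nat_lit 147, nat_lit 0, nat_lit 0, nat_lit 0, nat_lit 0, nat_lit 0, nat_lit 205500, nat_lit 0, nat_lit 0, [(nat_lit 29, [(nat_lit 0, nat_lit 822)])],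
 ⟨p115_k2, nat_lit 0, nat_lit 0, nat_lit 116, nat_lit 0, nat_lit 0, [nat_lit 809439201, nat_lit 1444008001, nat_lit 2580920800], [], [nat_lit 26473999275, nat_lit 26734551227, nat_lit 27143195900, nat_lit 27447970055, nat_lit 26827026420, nat_lit 27065388566, nat_lit 27441942032, nat_lit 27672673562], nat_lit 0, nat_lit 0, nat_lit 0, nat_lit 0, nat_lit 0, nat_lit 0, [], [nat_lit 20, nat_lit 40, nat_lit 40, nat_lit 80, nat_lit 16, nat_lit 249, nat_lit 40, nat_lit 8]⟩, ⟨p115_k10, nat_lit 0, nat_lit 0, nat_lit 545, nat_lit 0, nat_lit 786889, [nat_lit 834464000, nat_lit 1418304000, nat_lit 2502324000], [], [nat_lit 5611583870, nat_lit 5622334954, nat_lit 5687811223, nat_lit 5697576691, nat_lit 5774430054, nat_lit 5784676853, nat_lit 5869315616, nat_lit 5882094605], nat_lit 1271250, nat_lit 1271250, nat_lit 1271250, nat_lit 1271250, nat_lit 1100001, nat_lit 2572750, [nat_lit 1100000, nat_lit 1785000, nat_lit 1271250],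 [nat_lit 37, nat_lit 40, nat_lit 40, nat_lit 80, nat_lit 28, nat_lit 483, nat_lit 250, nat_lit 10]⟩,
 ⟨nat_lit 1581, nat_lit 1937, ⟨.ofNat (nat_lit 742451), .ofNat (nat_lit 764807), .ofNat (nat_lit 748204), .ofNat (nat_lit 770560), .ofNat (nat_lit 739680), .ofNat (nat_lit 761534), .ofNat (nat_lit 745508), .ofNat (nat_lit 767363)⟩, ⟨.ofNat (nat_lit 194266), .ofNat (nat_lit 306044), .ofNat (nat_lit 200000), .ofNat (nat_lit 329055), .ofNat (nat_lit 196201), .ofNat (nat_lit 305473), .ofNat (nat_lit 200000), .ofNat (nat_lit 328788)⟩⟩, [⟨nat_lit 13, nat_lit 37, nat_lit 81, nat_lit 100, nat_lit 408170335⟩, ⟨nat_lit 4, nat_lit 100, nat_lit 36, nat_lit 86, nat_lit 120464572⟩, ⟨nat_lit 19, nat_lit 100, nat_lit 85, nat_lit 89, nat_lit 50688817⟩]⟩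
noncomputable def p115_l10 : Lf2 := ⟨nat_lit 0, nat_lit 25, [nat_lit 44, nat_lit 5, nat_lit 5, nat_lit 20], false, nat_lit 80, nat_lit 160, nat_lit 0, nat_lit 160, ⟨nat_lit 317, nat_lit 683, nat_lit 0, nat_lit 8, nat_lit 310, nat_lit 683, nat_lit 103, nat_lit 0, nat_lit 0, nat_lit 0, nat_lit 0, nat_lit 0, nat_lit 38928174, nat_lit 23918822, nat_lit 4153004, nat_lit 4523002, true, true⟩,
 nat_lit 0, nat_lit 0, nat_lit 3744, nat_lit 0, nat_lit 2783, nat_lit 2280, nat_lit 120, nat_lit 0, nat_lit 0, nat_lit 395, nat_lit 0, nat_lit 0, nat_lit 0, nat_lit 0, nat_lit 0, nat_lit 273200, nat_lit 0, nat_lit 0, [(nat_lit 29, [(nat_lit 1, nat_lit 683)])],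
 ⟨p115_k0, nat_lit 0, nat_lit 0, nat_lit 120, nat_lit 0, nat_lit 0, [nat_lit 774353200, nat_lit 1267150001, nat_lit 2045452000], [], [nat_lit 26248212506, nat_lit 26762975571, nat_lit 27590256550, nat_lit 28074997421, nat_lit 26676032756, nat_lit 27129584118, nat_lit 27892807302, nat_lit 28333510335], nat_lit 0, nat_lit 0, nat_lit 0, nat_lit 0, nat_lit 0, nat_lit 0, [], [nat_lit 20, nat_lit 40, nat_lit 40, nat_lit 80, nat_lit 16, nat_lit 249, nat_lit 40, nat_lit 8]⟩, ⟨p115_k11, nat_lit 0, nat_lit 0, nat_lit 650, nat_lit 0, nat_lit 817881, [nat_lit 1486096000, nat_lit 2525856000, nat_lit 4456386000], [], [nat_lit 10061171125, nat_lit 10101724284, nat_lit 10353845762, nat_lit 10450078304, nat_lit 8710344234, nat_lit 8740485412, nat_lit 8925313625, nat_lit 8949801963], nat_lit 1271250, nat_lit 1271250, nat_lit 1271250, nat_lit 1271250, nat_lit 0, nat_lit 1100001, [nat_lit 1100000, nat_lit 1785000, nat_lit 1271250],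 [nat_lit 37, nat_lit 40, nat_lit 40, nat_lit 80, nat_lit 28, nat_lit 428, nat_lit 200, nat_lit 9]⟩,
 ⟨nat_lit 1581, nat_lit 2237, ⟨.ofNat (nat_lit 750755), .ofNat (nat_lit 796368), .ofNat (nat_lit 762142), .ofNat (nat_lit 807755), .ofNat (nat_lit 745508), .ofNat (nat_lit 789217), .ofNat (nat_lit 757166), .ofNat (nat_lit 800875)⟩, ⟨.ofNat (nat_lit 192306), .ofNat (nat_lit 306337), .ofNat (nat_lit 200000), .ofNat (nat_lit 329112), .ofNat (nat_lit 196201), .ofNat (nat_lit 305473), .ofNat (nat_lit 200000), .ofNat (nat_lit 328788)⟩⟩, [⟨nat_lit 13, nat_lit 33, nat_lit 83, nat_lit 100, nat_lit 296749602⟩, ⟨nat_lit 4, nat_lit 100, nat_lit 39, nat_lit 85, nat_lit 231753078⟩]⟩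
noncomputable def p115_l11 : Lf2 := ⟨nat_lit 0, nat_lit 25, [nat_lit 44, nat_lit 5, nat_lit 5, nat_lit 20], false, nat_lit 80, nat_lit 160, nat_lit 160, nat_lit 328, ⟨nat_lit 248, nat_lit 752, nat_lit 0, nat_lit 8, nat_lit 310, nat_lit 752, nat_lit 103, nat_lit 0, nat_lit 0, nat_lit 0, nat_lit 0, nat_lit 0, nat_lit 38975830, nat_lit 23871171, nat_lit 4152999, nat_lit 4521193, true, true⟩,
 nat_lit 0, nat_lit 0, nat_lit 2854, nat_lit 0, nat_lit 2756, nat_lit 1738, nat_lit 97, nat_lit 0, nat_lit 0, nat_lit 223, nat_lit 0, nat_lit 0, nat_lit 0, nat_lit 0, nat_lit 0, nat_lit 300800, nat_lit 0, nat_lit 0, [(nat_lit 29, [(nat_lit 1, nat_lit 752)])],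
 ⟨p115_k0, nat_lit 0, nat_lit 0, nat_lit 118, nat_lit 0, nat_lit 0, [nat_lit 757820800, nat_lit 1063600000, nat_lit 1620688000], [], [nat_lit 26078171717, nat_lit 26334580507, nat_lit 27449933514, nat_lit 27737712964, nat_lit 26507839517, nat_lit 26733807773, nat_lit 27730012417, nat_lit 27949623015], nat_lit 0, nat_lit 0, nat_lit 0, nat_lit 0, nat_lit 0, nat_lit 0, [], [nat_lit 20, nat_lit 40, nat_lit 40, nat_lit 80, nat_lit 16, nat_lit 249, nat_lit 40, nat_lit 8]⟩, ⟨p115_k11, nat_lit 0, nat_lit 0, nat_lit 467, nat_lit 0, nat_lit 702927, [nat_lit 1162624000, nat_lit 1976064000, nat_lit 3486384000], [], [nat_lit 7446019174, nat_lit 7461258509, nat_lit 7679039720, nat_lit 7696669237, nat_lit 7812278188, nat_lit 7822611923, nat_lit 8036569548, nat_lit 8053295911], nat_lit 1271250, nat_lit 1271250, nat_lit 1271250, nat_lit 1271250, nat_lit 1100001, nat_lit 2538500, [nat_lit 1100000, nat_lit 1785000, nat_lit 1271250],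 [nat_lit 37, nat_lit 40, nat_lit 40, nat_lit 80, nat_lit 28, nat_lit 483, nat_lit 250, nat_lit 10]⟩,
 ⟨nat_lit 1936, nat_lit 2237, ⟨.ofNat (nat_lit 750755), .ofNat (nat_lit 796368), .ofNat (nat_lit 756449), .ofNat (nat_lit 802061), .ofNat (nat_lit 748204), .ofNat (nat_lit 792915), .ofNat (nat_lit 753957), .ofNat (nat_lit 798668)⟩, ⟨.ofNat (nat_lit 192306), .ofNat (nat_lit 306337), .ofNat (nat_lit 200000), .ofNat (nat_lit 329112), .ofNat (nat_lit 194266), .ofNat (nat_lit 306044), .ofNat (nat_lit 200000), .ofNat (nat_lit 329055)⟩⟩, [⟨nat_lit 13, nat_lit 41, nat_lit 78, nat_lit 100, nat_lit 308462752⟩, ⟨nat_lit 16, nat_lit 41, nat_lit 100, nat_lit 85, nat_lit 162535488⟩, ⟨nat_lit 19, nat_lit 100, nat_lit 87, nat_lit 90, nat_lit 74320734⟩]⟩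
noncomputable def p115_l12 : Lf2 := ⟨nat_lit 0, nat_lit 25, [nat_lit 44, nat_lit 5, nat_lit 5, nat_lit 20], false, nat_lit 80, nat_lit 160, nat_lit 160, nat_lit 328, ⟨nat_lit 185, nat_lit 815, nat_lit 0, nat_lit 8, nat_lit 305, nat_lit 815, nat_lit 103, nat_lit 0, nat_lit 0, nat_lit 0, nat_lit 0, nat_lit 0, nat_lit 39368509, nat_lit 23442570, nat_lit 4188921, nat_lit 4511688, true, true⟩,
 nat_lit 0, nat_lit 0, nat_lit 2143, nat_lit 0, nat_lit 2873, nat_lit 1305, nat_lit 158, nat_lit 0, nat_lit 0, nat_lit 167, nat_lit 0, nat_lit 0, nat_lit 0, nat_lit 0, nat_lit 0, nat_lit 203750, nat_lit 0, nat_lit 0, [(nat_lit 29, [(nat_lit 0, nat_lit 815)])],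
 ⟨p115_k2, nat_lit 0, nat_lit 0, nat_lit 117, nat_lit 0, nat_lit 0, [nat_lit 810534000, nat_lit 1459660001, nat_lit 2612166000], [], [nat_lit 26517691894, nat_lit 26778315901, nat_lit 27353694622, nat_lit 27648585499, nat_lit 26870309734, nat_lit 27108340258, nat_lit 27638799731, nat_lit 27867597693], nat_lit 0, nat_lit 0, nat_lit 0, nat_lit 0, nat_lit 0, nat_lit 0, [], [nat_lit 20, nat_lit 40, nat_lit 40, nat_lit 80, nat_lit 16, nat_lit 249, nat_lit 40, nat_lit 8]⟩, ⟨p115_k11, nat_lit 0, nat_lit 0, nat_lit 545, nat_lit 0, nat_lit 788721, [nat_lit 867280000, nat_lit 1474080000, nat_lit 2600730000], [], [nat_lit 5518807630, nat_lit 5530134465, nat_lit 5623355210, nat_lit 5637296020, nat_lit 5792010190, nat_lit 5802300009, nat_lit 5907132165, nat_lit 5920556302], nat_lit 1271250, nat_lit 1271250, nat_lit 1271250, nat_lit 1271250, nat_lit 1100001, nat_lit 2538500, [nat_lit 1100000, nat_lit 1785000, nat_lit 1271250],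 [nat_lit 37, nat_lit 40, nat_lit 40, nat_lit 80, nat_lit 28, nat_lit 483, nat_lit 250, nat_lit 10]⟩,
 ⟨nat_lit 1581, nat_lit 1937, ⟨.ofNat (nat_lit 748204), .ofNat (nat_lit 776148), .ofNat (nat_lit 753957), .ofNat (nat_lit 781901), .ofNat (nat_lit 745508), .ofNat (nat_lit 772826), .ofNat (nat_lit 751337), .ofNat (nat_lit 778655)⟩, ⟨.ofNat (nat_lit 194266), .ofNat (nat_lit 306044), .ofNat (nat_lit 200000), .ofNat (nat_lit 329055), .ofNat (nat_lit 196201), .ofNat (nat_lit 305473), .ofNat (nat_lit 200000), .ofNat (nat_lit 328788)⟩⟩, [⟨nat_lit 13, nat_lit 37, nat_lit 80, nat_lit 100, nat_lit 394282175⟩, ⟨nat_lit 16, nat_lit 36, nat_lit 100, nat_lit 86, nat_lit 123073685⟩, ⟨nat_lit 19, nat_lit 100, nat_lit 87, nat_lit 90, nat_lit 55724347⟩]⟩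
noncomputable def p115_l13 : Lf2 := ⟨nat_lit 0, nat_lit 25, [nat_lit 44, nat_lit 5, nat_lit 5, nat_lit 20], false, nat_lit 80, nat_lit 160, nat_lit 160, nat_lit 324, ⟨nat_lit 339, nat_lit 661, nat_lit 0, nat_lit 8, nat_lit 312, nat_lit 661, nat_lit 103, nat_lit 0, nat_lit 0, nat_lit 0, nat_lit 0, nat_lit 0, nat_lit 38776146, nat_lit 24085024, nat_lit 4138830, nat_lit 4526343, true, true⟩,
 nat_lit 0, nat_lit 0, nat_lit 3692, nat_lit 0, nat_lit 2804, nat_lit 2298, nat_lit 141, nat_lit 0, nat_lit 0, nat_lit 334, nat_lit 0, nat_lit 0, nat_lit 0, nat_lit 0, nat_lit 0, nat_lit 264400, nat_lit 0, nat_lit 0, [(nat_lit 29, [(nat_lit 1, nat_lit 661)])],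
 ⟨p115_k0, nat_lit 0, nat_lit 0, nat_lit 118, nat_lit 0, nat_lit 0, [nat_lit 779624401, nat_lit 1332050001, nat_lit 2180884000], [], [nat_lit 26150613953, nat_lit 26408752063, nat_lit 27533875223, nat_lit 27823688269, nat_lit 26561822555, nat_lit 26789212859, nat_lit 27789573046, nat_lit 28010500832], nat_lit 0, nat_lit 0, nat_lit 0, nat_lit 0, nat_lit 0, nat_lit 0, [], [nat_lit 20, nat_lit 40, nat_lit 40, nat_lit 80, nat_lit 16, nat_lit 249, nat_lit 40, nat_lit 8]⟩, ⟨p115_k12, nat_lit 0, nat_lit 0, nat_lit 468, nat_lit 0, nat_lit 709466, [nat_lit 1589232000, nat_lit 2701152000, nat_lit 4765662000], [], [nat_lit 9864699093, nat_lit 9892934610, nat_lit 10186088929, nat_lit 10210450867, nat_lit 10348338271, nat_lit 10363349775, nat_lit 10567537427, nat_lit 10579643890], nat_lit 1271250, nat_lit 1271250, nat_lit 1271250, nat_lit 1271250, nat_lit 1100001, nat_lit 2504250, [nat_lit 1100000, nat_lit 1785000, nat_lit 1271250],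 [nat_lit 37, nat_lit 40, nat_lit 40, nat_lit 80, nat_lit 28, nat_lit 483, nat_lit 250, nat_lit 10]⟩,
 ⟨nat_lit 1936, nat_lit 2237, ⟨.ofNat (nat_lit 756449), .ofNat (nat_lit 802061), .ofNat (nat_lit 762142), .ofNat (nat_lit 807755), .ofNat (nat_lit 753957), .ofNat (nat_lit 798668), .ofNat (nat_lit 759709), .ofNat (nat_lit 804421)⟩, ⟨.ofNat (nat_lit 192306), .ofNat (nat_lit 306337), .ofNat (nat_lit 200000), .ofNat (nat_lit 329112), .ofNat (nat_lit 194266), .ofNat (nat_lit 306044), .ofNat (nat_lit 200000), .ofNat (nat_lit 329055)⟩⟩, [⟨nat_lit 13, nat_lit 41, nat_lit 77, nat_lit 100, nat_lit 214207320⟩, ⟨nat_lit 16, nat_lit 41, nat_lit 100, nat_lit 85, nat_lit 209179216⟩, ⟨nat_lit 7, nat_lit 90, nat_lit 100, nat_lit 91, nat_lit 96319958⟩]⟩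
noncomputable def p115_l14 : Lf2 := ⟨nat_lit 0, nat_lit 25, [nat_lit 44, nat_lit 5, nat_lit 5, nat_lit 20], false, nat_lit 80, nat_lit 160, nat_lit 160, nat_lit 324, ⟨nat_lit 193, nat_lit 807, nat_lit 0, nat_lit 8, nat_lit 309, nat_lit 807, nat_lit 103, nat_lit 0, nat_lit 0, nat_lit 0, nat_lit 0, nat_lit 0, nat_lit 39068353, nat_lit 23763769, nat_lit 4167878, nat_lit 4520091, true, true⟩,
 nat_lit 0, nat_lit 0, nat_lit 2134, nat_lit 0, nat_lit 2866, nat_lit 1328, nat_lit 155, nat_lit 0, nat_lit 0, nat_lit 192, nat_lit 0, nat_lit 0, nat_lit 0, nat_lit 0, nat_lit 0, nat_lit 201750, nat_lit 0, nat_lit 0, [(nat_lit 29, [(nat_lit 0, nat_lit 807)])],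
 ⟨p115_k2, nat_lit 0, nat_lit 0, nat_lit 118, nat_lit 0, nat_lit 0, [nat_lit 811785200, nat_lit 1477548001, nat_lit 2647874800], [], [nat_lit 26588647227, nat_lit 26849019042, nat_lit 27591078791, nat_lit 27837930065, nat_lit 26952863628, nat_lit 27182090744, nat_lit 27865755760, nat_lit 28092362761], nat_lit 0, nat_lit 0, nat_lit 0, nat_lit 0, nat_lit 0, nat_lit 0, [], [nat_lit 20, nat_lit 40, nat_lit 40, nat_lit 80, nat_lit 16, nat_lit 249, nat_lit 40, nat_lit 8]⟩, ⟨p115_k12, nat_lit 0, nat_lit 0, nat_lit 545, nat_lit 0, nat_lit 791525, [nat_lit 904784000, nat_lit 1537824000, nat_lit 2713194000], [], [nat_lit 5523419258, nat_lit 5539454268, nat_lit 5661257424, nat_lit 5675618422, nat_lit 5794364191, nat_lit 5802782733, nat_lit 5920887988, nat_lit 5937093099], nat_lit 1271250, nat_lit 1271250, nat_lit 1271250, nat_lit 1271250, nat_lit 1100001, nat_lit 2504250, [nat_lit 1100000, nat_lit 1785000, nat_lit 1271250],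 [nat_lit 37, nat_lit 40, nat_lit 40, nat_lit 80, nat_lit 28, nat_lit 483, nat_lit 250, nat_lit 10]⟩,
 ⟨nat_lit 1581, nat_lit 1937, ⟨.ofNat (nat_lit 753957), .ofNat (nat_lit 787490), .ofNat (nat_lit 759709), .ofNat (nat_lit 793243), .ofNat (nat_lit 751337), .ofNat (nat_lit 784119), .ofNat (nat_lit 757166), .ofNat (nat_lit 789947)⟩, ⟨.ofNat (nat_lit 194266), .ofNat (nat_lit 306044), .ofNat (nat_lit 200000), .ofNat (nat_lit 329055), .ofNat (nat_lit 196201), .ofNat (nat_lit 305473), .ofNat (nat_lit 200000), .ofNat (nat_lit 328788)⟩⟩, [⟨nat_lit 13, nat_lit 38, nat_lit 79, nat_lit 100, nat_lit 353493879⟩, ⟨nat_lit 13, nat_lit 34, nat_lit 82, nat_lit 100, nat_lit 26877294⟩, ⟨nat_lit 16, nat_lit 36, nat_lit 100, nat_lit 86, nat_lit 128910609⟩, ⟨nat_lit 19, nat_lit 100, nat_lit 90, nat_lit 91, nat_lit 56636968⟩]⟩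
noncomputable def p115_l15 : Lf2 := ⟨nat_lit 0, nat_lit 25, [nat_lit 44, nat_lit 5, nat_lit 5, nat_lit 20], false, nat_lit 80, nat_lit 160, nat_lit 0, nat_lit 336, ⟨nat_lit 80, nat_lit 920, nat_lit 0, nat_lit 8, nat_lit 301, nat_lit 920, nat_lit 103, nat_lit 0, nat_lit 0, nat_lit 0, nat_lit 0, nat_lit 0, nat_lit 39787187, nat_lit 23008668, nat_lit 4204145, nat_lit 4496809, true, true⟩,
 nat_lit 0, nat_lit 0, nat_lit 1085, nat_lit 0, nat_lit 3233, nat_lit 631, nat_lit 0, nat_lit 0, nat_lit 0, nat_lit 76, nat_lit 0, nat_lit 0, nat_lit 0, nat_lit 0, nat_lit 0, nat_lit 230000, nat_lit 0, nat_lit 0, [(nat_lit 29, [(nat_lit 0, nat_lit 920)])],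
 ⟨p115_k13, nat_lit 0, nat_lit 0, nat_lit 106, nat_lit 0, nat_lit 0, [nat_lit 794112000, nat_lit 1224880001, nat_lit 1641328000], [], [nat_lit 27252930582, nat_lit 27921643228, nat_lit 28076505732, nat_lit 28718850372, nat_lit 27431037583, nat_lit 27960201888, nat_lit 28096203057, nat_lit 28682409564], nat_lit 0, nat_lit 0, nat_lit 0, nat_lit 0, nat_lit 0, nat_lit 0, [], [nat_lit 35, nat_lit 40, nat_lit 40, nat_lit 80, nat_lit 22, nat_lit 249, nat_lit 40, nat_lit 9]⟩, ⟨p115_k9, nat_lit 0, nat_lit 0, nat_lit 778, nat_lit 0, nat_lit 1061582, [nat_lit 375040000, nat_lit 637440000, nat_lit 1124640000], [], [nat_lit 2920846208, nat_lit 2934845084, nat_lit 2949947565, nat_lit 2962339995, nat_lit 2531491012, nat_lit 2530454788, nat_lit 2544648819, nat_lit 2550403853], nat_lit 1271250, nat_lit 1271250, nat_lit 1271250, nat_lit 1271250, nat_lit 0, nat_lit 2373000, [nat_lit 1100000, nat_lit 1785000, nat_lit 1271250], [nat_lit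 37, nat_lit 40, nat_lit 40, nat_lit 80, nat_lit 28, nat_lit 483, nat_lit 250, nat_lit 11]⟩,
 ⟨nat_lit 0, nat_lit 1582, ⟨.ofNat (nat_lit 733849), .ofNat (nat_lit 755702), .ofNat (nat_lit 757165), .ofNat (nat_lit 779018), .ofNat (nat_lit 724997), .ofNat (nat_lit 744996), .ofNat (nat_lit 749998), .ofNat (nat_lit 769997)⟩, ⟨.ofNat (nat_lit 196201), .ofNat (nat_lit 305469), .ofNat (nat_lit 200000), .ofNat (nat_lit 328785), .ofNat (nat_lit 199999), .ofNat (nat_lit 299995), .ofNat (nat_lit 200000), .ofNat (nat_lit 324996)⟩⟩, [⟨nat_lit 13, nat_lit 34, nat_lit 81, nat_lit 100, nat_lit 559669625⟩, ⟨nat_lit 16, nat_lit 32, nat_lit 100, nat_lit 88, nat_lit 7136445⟩, ⟨nat_lit 19, nat_lit 100, nat_lit 86, nat_lit 89, nat_lit 10216949⟩]⟩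
noncomputable def b_V_900_600_20_50 : St := ⟨true, nat_lit 0, nat_lit 1, nat_lit 1, nat_lit 120, nat_lit 380, nat_lit 400, nat_lit 260, nat_lit 280, nat_lit 320, nat_lit 352, nat_lit 80, nat_lit 100, nat_lit 80, nat_lit 160, nat_lit 0, nat_lit 336, nat_lit 80, nat_lit 120, nat_lit 0, nat_lit 0, nat_lit 0, nat_lit 0⟩
theorem d_V_900_600_20_50 (h : EB TB.env) : Dead b_V_900_600_20_50 := chkB_sound0 h (T :=
(.spl (nat_lit 0) (nat_lit 390)
(.spl (nat_lit 1) (nat_lit 270)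
(.trX (nat_lit 13) (nat_lit 47) (nat_lit 74) (nat_lit 100) (nat_lit 348) (.spl (nat_lit 1) (nat_lit 265)
(.trX (nat_lit 13) (nat_lit 46) (nat_lit 75) (nat_lit 100) (nat_lit 344) (.leaf p115_l6))
(.trX (nat_lit 19) (nat_lit 100) (nat_lit 80) (nat_lit 92) (nat_lit 332) (.spl (nat_lit 5) (nat_lit 160)
(.leaf p115_l7)
(.spl (nat_lit 0) (nat_lit 385)
(.leaf p115_l8)
(.trX (nat_lit 13) (nat_lit 41) (nat_lit 78) (nat_lit 100) (nat_lit 336) (.leaf p115_l9)))))))
(.trX (nat_lit 19) (nat_lit 100) (nat_lit 82) (nat_lit 92) (nat_lit 328) (.spl (nat_lit 5) (nat_lit 160)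
(.leaf p115_l10)
(.spl (nat_lit 1) (nat_lit 275)
(.spl (nat_lit 0) (nat_lit 385)
(.leaf p115_l11)
(.trX (nat_lit 13) (nat_lit 41) (nat_lit 77) (nat_lit 100) (nat_lit 340) (.leaf p115_l12)))
(.trX (nat_lit 19) (nat_lit 100) (nat_lit 85) (nat_lit 93) (nat_lit 324) (.spl (nat_lit 0) (nat_lit 385)
(.leaf p115_l13)
(.trX (nat_lit 13) (nat_lit 41) (nat_lit 76) (nat_lit 100) (nat_lit 344) (.leaf p115_l14))))))))
(.trX (nat_lit 13) (nat_lit 34) (nat_lit 81) (nat_lit 100) (nat_lit 336) (.leaf p115_l15)))) (by decide +kernel)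
noncomputable def p115_l16 : Lf2 := ⟨nat_lit 0, nat_lit 30, [nat_lit 15, nat_lit 5, nat_lit 5, nat_lit 20], false, nat_lit 80, nat_lit 160, nat_lit 0, nat_lit 160, ⟨nat_lit 1000, nat_lit 0, nat_lit 0, nat_lit 0, nat_lit 0, nat_lit 0, nat_lit 0, nat_lit 0, nat_lit 0, nat_lit 0, nat_lit 0, nat_lit 0, nat_lit 0, nat_lit 0, nat_lit 0, nat_lit 0, false, false⟩,
 nat_lit 0, nat_lit 0, nat_lit 12320, nat_lit 0, nat_lit 3152, nat_lit 7171, nat_lit 542, nat_lit 0, nat_lit 0, nat_lit 960, nat_lit 0, nat_lit 0, nat_lit 0, nat_lit 0, nat_lit 0, nat_lit 0, nat_lit 0, nat_lit 0, [],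
 ⟨p115_k14, nat_lit 0, nat_lit 0, nat_lit 136, nat_lit 0, nat_lit 0, [nat_lit 938000000, nat_lit 3282000000, nat_lit 7968000000], [], [nat_lit 26515558834, nat_lit 26789717596, nat_lit 28142452612, nat_lit 28447009235, nat_lit 26719986114, nat_lit 26943429942, nat_lit 28185599831, nat_lit 28464378872], nat_lit 0, nat_lit 0, nat_lit 0, nat_lit 0, nat_lit 0, nat_lit 0, [], [nat_lit 54, nat_lit 40, nat_lit 40, nat_lit 80, nat_lit 43, nat_lit 249, nat_lit 40, nat_lit 7]⟩, ⟨p115_k15, nat_lit 0, nat_lit 0, nat_lit 574, nat_lit 0, nat_lit 591805, [nat_lit 4688000000, nat_lit 7968000000, nat_lit 14058000000], [], [nat_lit 35860256628, nat_lit 36168300508, nat_lit 36897248443, nat_lit 37206644293, nat_lit 31153962902, nat_lit 31483933304, nat_lit 32154019787, nat_lit 32436157359], nat_lit 1271250, nat_lit 1271250, nat_lit 1271250, nat_lit 1271250, nat_lit 0, nat_lit 1100001, [nat_lit 1100000, nat_lit 1785000, nat_lit 1271250],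 [nat_lit 37, nat_lit 40, nat_lit 40, nat_lit 80, nat_lit 28, nat_lit 428, nat_lit 200, nat_lit 9]⟩,
 zbF0, []⟩
noncomputable def p115_l17 : Lf2 := ⟨nat_lit 0, nat_lit 25, [nat_lit 44, nat_lit 5, nat_lit 5, nat_lit 20], false, nat_lit 80, nat_lit 160, nat_lit 160, nat_lit 336, ⟨nat_lit 258, nat_lit 742, nat_lit 0, nat_lit 8, nat_lit 305, nat_lit 742, nat_lit 108, nat_lit 0, nat_lit 0, nat_lit 0, nat_lit 0, nat_lit 0, nat_lit 39158725, nat_lit 23346519, nat_lit 4494756, nat_lit 4568637, true, true⟩,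
 nat_lit 0, nat_lit 0, nat_lit 3210, nat_lit 0, nat_lit 2761, nat_lit 1868, nat_lit 105, nat_lit 0, nat_lit 0, nat_lit 234, nat_lit 0, nat_lit 0, nat_lit 0, nat_lit 0, nat_lit 0, nat_lit 296800, nat_lit 0, nat_lit 0, [(nat_lit 29, [(nat_lit 1, nat_lit 742)])],
 ⟨p115_k0, nat_lit 0, nat_lit 0, nat_lit 117, nat_lit 0, nat_lit 0, [nat_lit 760216800, nat_lit 1093100000, nat_lit 1682248000], [], [nat_lit 26050582627, nat_lit 26307171555, nat_lit 27258357076, nat_lit 27549298360, nat_lit 26478577177, nat_lit 26704693563, nat_lit 27547044962, nat_lit 27771343855], nat_lit 0, nat_lit 0, nat_lit 0, nat_lit 0, nat_lit 0, nat_lit 0, [], [nat_lit 20, nat_lit 40, nat_lit 40, nat_lit 80, nat_lit 16, nat_lit 249, nat_lit 40, nat_lit 8]⟩, ⟨p115_k9, nat_lit 0, nat_lit 0, nat_lit 399, nat_lit 0, nat_lit 509456, [nat_lit 1209504000, nat_lit 2055744000, nat_lit 3626964000], [], [nat_lit 7693858980, nat_lit 7744630270, nat_lit 7970113684,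 nat_lit 8014108870, nat_lit 8222859209, nat_lit 8251974963, nat_lit 8462678538, nat_lit 8498153554], nat_lit 1271250, nat_lit 1271250, nat_lit 1271250, nat_lit 1271250, nat_lit 1100001, nat_lit 2607000, [nat_lit 1100000, nat_lit 1785000, nat_lit 1271250], [nat_lit 37, nat_lit 40, nat_lit 40, nat_lit 80, nat_lit 28, nat_lit 483, nat_lit 250, nat_lit 10]⟩,
 ⟨nat_lit 1936, nat_lit 2237, ⟨.ofNat (nat_lit 739368), .ofNat (nat_lit 779279), .ofNat (nat_lit 750755), .ofNat (nat_lit 790666), .ofNat (nat_lit 736698), .ofNat (nat_lit 775821), .ofNat (nat_lit 748204), .ofNat (nat_lit 787326)⟩, ⟨.ofNat (nat_lit 200000), .ofNat (nat_lit 329112), .ofNat (nat_lit 200000), .ofNat (nat_lit 351886), .ofNat (nat_lit 200000), .ofNat (nat_lit 329055), .ofNat (nat_lit 200000), .ofNat (nat_lit 352066)⟩⟩, [⟨nat_lit 13, nat_lit 43, nat_lit 77, nat_lit 100, nat_lit 134428582⟩, ⟨nat_lit 10, nat_lit 74, nat_lit 75, nat_lit 100, nat_lit 96808196⟩]⟩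
noncomputable def p115_l18 : Lf2 := ⟨nat_lit 0, nat_lit 30, [nat_lit 15, nat_lit 5, nat_lit 5, nat_lit 20], false, nat_lit 80, nat_lit 160, nat_lit 160, nat_lit 336, ⟨nat_lit 1000, nat_lit 0, nat_lit 0, nat_lit 0, nat_lit 0, nat_lit 0, nat_lit 0, nat_lit 0, nat_lit 0, nat_lit 0, nat_lit 0, nat_lit 0, nat_lit 0, nat_lit 0, nat_lit 0, nat_lit 0, false, false⟩,
 nat_lit 0, nat_lit 0, nat_lit 10159, nat_lit 0, nat_lit 3152, nat_lit 5913, nat_lit 542, nat_lit 0, nat_lit 0, nat_lit 942, nat_lit 0, nat_lit 0, nat_lit 0, nat_lit 0, nat_lit 0, nat_lit 0, nat_lit 0, nat_lit 0, [],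
 ⟨p115_k14, nat_lit 0, nat_lit 0, nat_lit 135, nat_lit 0, nat_lit 0, [nat_lit 938000000, nat_lit 3282000000, nat_lit 7968000000], [], [nat_lit 26515558834, nat_lit 26789717596, nat_lit 27932054533, nat_lit 28239847780, nat_lit 26719986114, nat_lit 26943429942, nat_lit 27992557138, nat_lit 28274170011], nat_lit 0, nat_lit 0, nat_lit 0, nat_lit 0, nat_lit 0, nat_lit 0, [], [nat_lit 54, nat_lit 40, nat_lit 40, nat_lit 80, nat_lit 43, nat_lit 249, nat_lit 40, nat_lit 7]⟩, ⟨p115_k15, nat_lit 0, nat_lit 0, nat_lit 268, nat_lit 0, nat_lit 315088, [nat_lit 4688000000, nat_lit 7968000000, nat_lit 14058000000], [], [nat_lit 29180409172, nat_lit 29422775166, nat_lit 30332422876, nat_lit 30549087972, nat_lit 32093757246, nat_lit 32232499211, nat_lit 32980405350, nat_lit 33162556479], nat_lit 1271250, nat_lit 1271250, nat_lit 1271250, nat_lit 1271250, nat_lit 1100001, nat_lit 2607000, [nat_lit 1100000, nat_lit 1785000, nat_lit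 1271250], [nat_lit 37, nat_lit 40, nat_lit 40, nat_lit 80, nat_lit 28, nat_lit 483, nat_lit 250, nat_lit 10]⟩,
 zbF0, [⟨nat_lit 7, nat_lit 76, nat_lit 100, nat_lit 94, nat_lit 322066170⟩]⟩
noncomputable def p115_l19 : Lf2 := ⟨nat_lit 0, nat_lit 30, [nat_lit 15, nat_lit 5, nat_lit 5, nat_lit 20], false, nat_lit 80, nat_lit 160, nat_lit 160, nat_lit 336, ⟨nat_lit 484, nat_lit 516, nat_lit 0, nat_lit 8, nat_lit 310, nat_lit 516, nat_lit 108, nat_lit 0, nat_lit 0, nat_lit 0, nat_lit 0, nat_lit 0, nat_lit 38763224, nat_lit 23772238, nat_lit 4464538, nat_lit 4579409, true, true⟩,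
 nat_lit 0, nat_lit 0, nat_lit 5291, nat_lit 0, nat_lit 2876, nat_lit 3222, nat_lit 289, nat_lit 0, nat_lit 0, nat_lit 441, nat_lit 0, nat_lit 0, nat_lit 0, nat_lit 0, nat_lit 0, nat_lit 206400, nat_lit 0, nat_lit 0, [(nat_lit 29, [(nat_lit 1, nat_lit 516)])],
 ⟨p115_k14, nat_lit 0, nat_lit 0, nat_lit 136, nat_lit 0, nat_lit 0, [nat_lit 814366400, nat_lit 1759800001, nat_lit 3884788800], [], [nat_lit 26101426567, nat_lit 26350650448, nat_lit 27659787786, nat_lit 27952651228, nat_lit 26417003007, nat_lit 26633233397, nat_lit 27834907276, nat_lit 28103459716], nat_lit 0, nat_lit 0, nat_lit 0, nat_lit 0, nat_lit 0, nat_lit 0, [], [nat_lit 54, nat_lit 40, nat_lit 40, nat_lit 80, nat_lit 43, nat_lit 249, nat_lit 40, nat_lit 7]⟩, ⟨p115_k16, nat_lit 0, nat_lit 0, nat_lit 403, nat_lit 0, nat_lit 523117, [nat_lit 2268992000, nat_lit 3856512000, nat_lit 6804072000], [], [nat_lit 14365753604, nat_lit 14404800426, nat_lit 14885580765,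 nat_lit 14926733977, nat_lit 15325767326, nat_lit 15351478795, nat_lit 15823030790, nat_lit 15854980874], nat_lit 1271250, nat_lit 1271250, nat_lit 1271250, nat_lit 1271250, nat_lit 1100001, nat_lit 2607000, [nat_lit 1100000, nat_lit 1785000, nat_lit 1271250], [nat_lit 37, nat_lit 40, nat_lit 40, nat_lit 80, nat_lit 28, nat_lit 483, nat_lit 250, nat_lit 10]⟩,
 ⟨nat_lit 1936, nat_lit 2237, ⟨.ofNat (nat_lit 750755), .ofNat (nat_lit 796368), .ofNat (nat_lit 756449), .ofNat (nat_lit 802061), .ofNat (nat_lit 748204), .ofNat (nat_lit 792915), .ofNat (nat_lit 753957), .ofNat (nat_lit 798668)⟩, ⟨.ofNat (nat_lit 200000), .ofNat (nat_lit 329112), .ofNat (nat_lit 200000), .ofNat (nat_lit 351886), .ofNat (nat_lit 200000), .ofNat (nat_lit 329055), .ofNat (nat_lit 200000), .ofNat (nat_lit 352066)⟩⟩, [⟨nat_lit 7, nat_lit 80, nat_lit 100, nat_lit 96, nat_lit 14575174⟩, ⟨nat_lit 22, nat_lit 82, nat_lit 76, nat_lit 100, nat_lit 149957282⟩]⟩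
noncomputable def p115_l20 : Lf2 := ⟨nat_lit 0, nat_lit 30, [nat_lit 15, nat_lit 5, nat_lit 5, nat_lit 20], false, nat_lit 80, nat_lit 160, nat_lit 160, nat_lit 336, ⟨nat_lit 553, nat_lit 447, nat_lit 0, nat_lit 8, nat_lit 312, nat_lit 447, nat_lit 108, nat_lit 0, nat_lit 0, nat_lit 0, nat_lit 0, nat_lit 0, nat_lit 38565817, nat_lit 23984910, nat_lit 4449273, nat_lit 4584405, true, true⟩,
 nat_lit 0, nat_lit 0, nat_lit 5849, nat_lit 0, nat_lit 2913, nat_lit 3641, nat_lit 323, nat_lit 0, nat_lit 0, nat_lit 541, nat_lit 0, nat_lit 0, nat_lit 0, nat_lit 0, nat_lit 0, nat_lit 178800, nat_lit 0, nat_lit 0, [(nat_lit 29, [(nat_lit 1, nat_lit 447)])],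
 ⟨p115_k14, nat_lit 0, nat_lit 0, nat_lit 136, nat_lit 0, nat_lit 0, [nat_lit 830898800, nat_lit 1963350001, nat_lit 4430799600], [], [nat_lit 26154350121, nat_lit 26409510899, nat_lit 27724492853, nat_lit 28018923859, nat_lit 26454942791, nat_lit 26672129974, nat_lit 27881920408, nat_lit 28151843806], nat_lit 0, nat_lit 0, nat_lit 0, nat_lit 0, nat_lit 0, nat_lit 0, [], [nat_lit 54, nat_lit 40, nat_lit 40, nat_lit 80, nat_lit 43, nat_lit 249, nat_lit 40, nat_lit 7]⟩, ⟨p115_k17, nat_lit 0, nat_lit 0, nat_lit 407, nat_lit 0, nat_lit 535272, [nat_lit 2592464000, nat_lit 4406304000, nat_lit 7774074000], [], [nat_lit 15642045604, nat_lit 15686774416, nat_lit 16193971160, nat_lit 16241104753, nat_lit 17017768256, nat_lit 17057533988, nat_lit 17524387512, nat_lit 17561117344], nat_lit 1271250, nat_lit 1271250, nat_lit 1271250, nat_lit 1271250, nat_lit 1100001, nat_lit 2607000, [nat_lit 1100000, nat_lit 1785000, nat_lit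 1271250], [nat_lit 37, nat_lit 40, nat_lit 40, nat_lit 80, nat_lit 28, nat_lit 483, nat_lit 250, nat_lit 10]⟩,
 ⟨nat_lit 1936, nat_lit 2237, ⟨.ofNat (nat_lit 756449), .ofNat (nat_lit 802061), .ofNat (nat_lit 762142), .ofNat (nat_lit 807755), .ofNat (nat_lit 753957), .ofNat (nat_lit 798668), .ofNat (nat_lit 759709), .ofNat (nat_lit 804421)⟩, ⟨.ofNat (nat_lit 200000), .ofNat (nat_lit 329112), .ofNat (nat_lit 200000), .ofNat (nat_lit 351886), .ofNat (nat_lit 200000), .ofNat (nat_lit 329055), .ofNat (nat_lit 200000), .ofNat (nat_lit 352066)⟩⟩, [⟨nat_lit 19, nat_lit 100, nat_lit 83, nat_lit 97, nat_lit 78387935⟩, ⟨nat_lit 10, nat_lit 74, nat_lit 74, nat_lit 100, nat_lit 118672186⟩]⟩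
noncomputable def p115_l21 : Lf2 := ⟨nat_lit 0, nat_lit 30, [nat_lit 15, nat_lit 5, nat_lit 5, nat_lit 20], false, nat_lit 80, nat_lit 160, nat_lit 0, nat_lit 336, ⟨nat_lit 196, nat_lit 804, nat_lit 0, nat_lit 8, nat_lit 299, nat_lit 804, nat_lit 108, nat_lit 0, nat_lit 0, nat_lit 0, nat_lit 0, nat_lit 0, nat_lit 39733234, nat_lit 22728869, nat_lit 4537897, nat_lit 4551187, true, true⟩,
 nat_lit 0, nat_lit 0, nat_lit 3123, nat_lit 0, nat_lit 2784, nat_lit 1817, nat_lit 179, nat_lit 0, nat_lit 0, nat_lit 128, nat_lit 0, nat_lit 0, nat_lit 0, nat_lit 0, nat_lit 0, nat_lit 201000, nat_lit 0, nat_lit 0, [(nat_lit 29, [(nat_lit 0, nat_lit 804)])],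
 ⟨p115_k7, nat_lit 0, nat_lit 0, nat_lit 117, nat_lit 0, nat_lit 0, [nat_lit 812254401, nat_lit 2025473600, nat_lit 2661265600], [], [nat_lit 26248593848, nat_lit 26403044384, nat_lit 26798133667, nat_lit 26980413680, nat_lit 26636236937, nat_lit 26777821623, nat_lit 27093601791, nat_lit 27238878513], nat_lit 0, nat_lit 0, nat_lit 0, nat_lit 0, nat_lit 0, nat_lit 0, [], [nat_lit 55, nat_lit 40, nat_lit 40, nat_lit 80, nat_lit 3, nat_lit 249, nat_lit 40, nat_lit 8]⟩, ⟨p115_k18, nat_lit 0, nat_lit 0, nat_lit 564, nat_lit 0, nat_lit 555542, [nat_lit 918848000, nat_lit 1929032000, nat_lit 2755368000], [], [nat_lit 7678902082, nat_lit 7694139885, nat_lit 7765974601, nat_lit 7779992841, nat_lit 6382550722, nat_lit 6387815309, nat_lit 6449792667, nat_lit 6459398203], nat_lit 1271250, nat_lit 1271250, nat_lit 1271250, nat_lit 1271250, nat_lit 0, nat_lit 2373000, [nat_lit 1100000, nat_lit 2127500, nat_lit 1271250], [nat_lit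 56, nat_lit 40, nat_lit 40, nat_lit 80, nat_lit 32, nat_lit 483, nat_lit 250, nat_lit 11]⟩,
 ⟨nat_lit 1732, nat_lit 1937, ⟨.ofNat (nat_lit 736698), .ofNat (nat_lit 753465), .ofNat (nat_lit 742451), .ofNat (nat_lit 759218), .ofNat (nat_lit 735019), .ofNat (nat_lit 751566), .ofNat (nat_lit 740815), .ofNat (nat_lit 757362)⟩, ⟨.ofNat (nat_lit 200000), .ofNat (nat_lit 329055), .ofNat (nat_lit 200000), .ofNat (nat_lit 352066), .ofNat (nat_lit 200000), .ofNat (nat_lit 328928), .ofNat (nat_lit 200000), .ofNat (nat_lit 352110)⟩⟩, [⟨nat_lit 13, nat_lit 38, nat_lit 81, nat_lit 100, nat_lit 321197771⟩, ⟨nat_lit 10, nat_lit 74, nat_lit 78, nat_lit 100, nat_lit 22410612⟩]⟩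
noncomputable def p115_l22 : Lf2 := ⟨nat_lit 0, nat_lit 30, [nat_lit 15, nat_lit 5, nat_lit 5, nat_lit 20], false, nat_lit 80, nat_lit 160, nat_lit 0, nat_lit 336, ⟨nat_lit 187, nat_lit 813, nat_lit 0, nat_lit 8, nat_lit 297, nat_lit 813, nat_lit 108, nat_lit 0, nat_lit 0, nat_lit 0, nat_lit 0, nat_lit 0, nat_lit 39882901, nat_lit 22568911, nat_lit 4548188, nat_lit 4546167, true, true⟩,
 nat_lit 0, nat_lit 0, nat_lit 2985, nat_lit 0, nat_lit 2771, nat_lit 1737, nat_lit 172, nat_lit 0, nat_lit 0, nat_lit 121, nat_lit 0, nat_lit 0, nat_lit 0, nat_lit 0, nat_lit 0, nat_lit 203250, nat_lit 0, nat_lit 0, [(nat_lit 29, [(nat_lit 0, nat_lit 813)])],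
 ⟨p115_k19, nat_lit 0, nat_lit 0, nat_lit 116, nat_lit 0, nat_lit 0, [nat_lit 810846801, nat_lit 1995669200, nat_lit 2621093200], [], [nat_lit 26370858194, nat_lit 26495687634, nat_lit 26762550950, nat_lit 26885014525, nat_lit 26695941838, nat_lit 26795942049, nat_lit 27042578463, nat_lit 27154660388], nat_lit 0, nat_lit 0, nat_lit 0, nat_lit 0, nat_lit 0, nat_lit 0, [], [nat_lit 55, nat_lit 40, nat_lit 40, nat_lit 80, nat_lit 3, nat_lit 249, nat_lit 40, nat_lit 8]⟩, ⟨p115_k18, nat_lit 0, nat_lit 0, nat_lit 578, nat_lit 0, nat_lit 592790, [nat_lit 876656000, nat_lit 1840454000, nat_lit 2628846000], [], [nat_lit 7327783310, nat_lit 7342312293, nat_lit 7383209332, nat_lit 7396961303, nat_lit 6086499031, nat_lit 6093327296, nat_lit 6136061532, nat_lit 6148126801], nat_lit 1271250, nat_lit 1271250, nat_lit 1271250, nat_lit 1271250, nat_lit 0, nat_lit 2373000, [nat_lit 1100000, nat_lit 2127500, nat_lit 1271250], [nat_lit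 56, nat_lit 40, nat_lit 40, nat_lit 80, nat_lit 32, nat_lit 483, nat_lit 250, nat_lit 11]⟩,
 ⟨nat_lit 1581, nat_lit 1733, ⟨.ofNat (nat_lit 735019), .ofNat (nat_lit 746050), .ofNat (nat_lit 740815), .ofNat (nat_lit 751846), .ofNat (nat_lit 733851), .ofNat (nat_lit 744778), .ofNat (nat_lit 739680), .ofNat (nat_lit 750607)⟩, ⟨.ofNat (nat_lit 200000), .ofNat (nat_lit 328928), .ofNat (nat_lit 200000), .ofNat (nat_lit 352110), .ofNat (nat_lit 200000), .ofNat (nat_lit 328788), .ofNat (nat_lit 200000), .ofNat (nat_lit 352103)⟩⟩, [⟨nat_lit 13, nat_lit 33, nat_lit 85, nat_lit 100, nat_lit 516157867⟩, ⟨nat_lit 16, nat_lit 33, nat_lit 100, nat_lit 90, nat_lit 27754048⟩, ⟨nat_lit 22, nat_lit 82, nat_lit 76, nat_lit 100, nat_lit 20534609⟩]⟩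
noncomputable def p115_l23 : Lf2 := ⟨nat_lit 0, nat_lit 30, [nat_lit 15, nat_lit 5, nat_lit 5, nat_lit 20], false, nat_lit 80, nat_lit 160, nat_lit 0, nat_lit 160, ⟨nat_lit 1000, nat_lit 0, nat_lit 0, nat_lit 0, nat_lit 0, nat_lit 0, nat_lit 0, nat_lit 0, nat_lit 0, nat_lit 0, nat_lit 0, nat_lit 0, nat_lit 0, nat_lit 0, nat_lit 0, nat_lit 0, false, false⟩,
 nat_lit 0, nat_lit 0, nat_lit 12043, nat_lit 0, nat_lit 3146, nat_lit 7171, nat_lit 443, nat_lit 0, nat_lit 0, nat_lit 973, nat_lit 0, nat_lit 0, nat_lit 0, nat_lit 0, nat_lit 0, nat_lit 0, nat_lit 0, nat_lit 0, [],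
 ⟨p115_k20, nat_lit 0, nat_lit 0, nat_lit 116, nat_lit 0, nat_lit 0, [nat_lit 938000000, nat_lit 3282000000, nat_lit 6250000000], [], [nat_lit 26780172658, nat_lit 27110332884, nat_lit 27608217490, nat_lit 27925448815, nat_lit 26996710668, nat_lit 27237099174, nat_lit 27696217626, nat_lit 27986094350], nat_lit 0, nat_lit 0, nat_lit 0, nat_lit 0, nat_lit 0, nat_lit 0, [], [nat_lit 20, nat_lit 40, nat_lit 40, nat_lit 80, nat_lit 16, nat_lit 249, nat_lit 40, nat_lit 8]⟩, ⟨p115_k21, nat_lit 0, nat_lit 0, nat_lit 576, nat_lit 0, nat_lit 599688, [nat_lit 4688000000, nat_lit 7968000000, nat_lit 14058000000], [], [nat_lit 34623086348, nat_lit 34700097318, nat_lit 35135081205, nat_lit 35244080731, nat_lit 29931530503, nat_lit 30014023103, nat_lit 30425579842, nat_lit 30502093338], nat_lit 1271250, nat_lit 1271250, nat_lit 1271250, nat_lit 1271250, nat_lit 0, nat_lit 1100001, [nat_lit 1100000, nat_lit 1785000, nat_lit 1271250],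 [nat_lit 37, nat_lit 40, nat_lit 40, nat_lit 80, nat_lit 28, nat_lit 428, nat_lit 200, nat_lit 9]⟩,
 zbF0, [⟨nat_lit 4, nat_lit 100, nat_lit 35, nat_lit 90, nat_lit 538931948⟩]⟩
noncomputable def p115_l24 : Lf2 := ⟨nat_lit 0, nat_lit 30, [nat_lit 15, nat_lit 5, nat_lit 5, nat_lit 20], false, nat_lit 80, nat_lit 160, nat_lit 160, nat_lit 336, ⟨nat_lit 231, nat_lit 769, nat_lit 0, nat_lit 8, nat_lit 302, nat_lit 769, nat_lit 108, nat_lit 0, nat_lit 0, nat_lit 0, nat_lit 0, nat_lit 0, nat_lit 39495908, nat_lit 22984305, nat_lit 4519787, nat_lit 4558595, true, true⟩,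
 nat_lit 0, nat_lit 0, nat_lit 2697, nat_lit 0, nat_lit 4431, nat_lit 1605, nat_lit 0, nat_lit 0, nat_lit 0, nat_lit 212, nat_lit 0, nat_lit 0, nat_lit 0, nat_lit 0, nat_lit 0, nat_lit 192250, nat_lit 0, nat_lit 0, [(nat_lit 29, [(nat_lit 0, nat_lit 769)])],
 ⟨p115_k20, nat_lit 0, nat_lit 0, nat_lit 116, nat_lit 0, nat_lit 0, [nat_lit 817728401, nat_lit 1562516001, nat_lit 2817491600], [], [nat_lit 28889931895, nat_lit 29216517274, nat_lit 29781136556, nat_lit 30156576839, nat_lit 28615981065, nat_lit 28903398126, nat_lit 29328529680, nat_lit 29605933225], nat_lit 0, nat_lit 0, nat_lit 0, nat_lit 0, nat_lit 0, nat_lit 0, [], [nat_lit 20, nat_lit 40, nat_lit 40, nat_lit 80, nat_lit 16, nat_lit 249, nat_lit 40, nat_lit 8]⟩, ⟨p115_k21, nat_lit 0, nat_lit 0, nat_lit 427, nat_lit 0, nat_lit 588970, [nat_lit 1082928000, nat_lit 1840608000, nat_lit 3247398000], [], [nat_lit 6837384579, nat_lit 6851067332, nat_lit 6974839421,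 nat_lit 6987516437, nat_lit 7312583315, nat_lit 7320895915, nat_lit 7434918289, nat_lit 7444800732], nat_lit 1271250, nat_lit 1271250, nat_lit 1271250, nat_lit 1271250, nat_lit 1100001, nat_lit 2607000, [nat_lit 1100000, nat_lit 1785000, nat_lit 1271250], [nat_lit 37, nat_lit 40, nat_lit 40, nat_lit 80, nat_lit 28, nat_lit 483, nat_lit 250, nat_lit 10]⟩,
 ⟨nat_lit 1581, nat_lit 1937, ⟨.ofNat (nat_lit 742451), .ofNat (nat_lit 764807), .ofNat (nat_lit 745903), .ofNat (nat_lit 768258), .ofNat (nat_lit 739680), .ofNat (nat_lit 761534), .ofNat (nat_lit 743177), .ofNat (nat_lit 765031)⟩, ⟨.ofNat (nat_lit 200000), .ofNat (nat_lit 329055), .ofNat (nat_lit 200000), .ofNat (nat_lit 352066), .ofNat (nat_lit 200000), .ofNat (nat_lit 328788), .ofNat (nat_lit 200000), .ofNat (nat_lit 352103)⟩⟩, [⟨nat_lit 13, nat_lit 33, nat_lit 84, nat_lit 100, nat_lit 323291052⟩, ⟨nat_lit 4, nat_lit 100, nat_lit 35, nat_lit 90, nat_lit 18549182⟩,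 ⟨nat_lit 22, nat_lit 82, nat_lit 76, nat_lit 100, nat_lit 80299496⟩]⟩
noncomputable def p115_l25 : Lf2 := ⟨nat_lit 0, nat_lit 30, [nat_lit 15, nat_lit 5, nat_lit 5, nat_lit 20], false, nat_lit 80, nat_lit 160, nat_lit 160, nat_lit 336, ⟨nat_lit 377, nat_lit 623, nat_lit 0, nat_lit 8, nat_lit 303, nat_lit 623, nat_lit 108, nat_lit 0, nat_lit 0, nat_lit 0, nat_lit 0, nat_lit 0, nat_lit 39394711, nat_lit 23093078, nat_lit 4512211, nat_lit 4561671, true, true⟩,
 nat_lit 0, nat_lit 0, nat_lit 4218, nat_lit 0, nat_lit 2940, nat_lit 2545, nat_lit 227, nat_lit 0, nat_lit 0, nat_lit 347, nat_lit 0, nat_lit 0, nat_lit 0, nat_lit 0, nat_lit 0, nat_lit 155750, nat_lit 0, nat_lit 0, [(nat_lit 29, [(nat_lit 0, nat_lit 623)])],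
 ⟨p115_k20, nat_lit 0, nat_lit 0, nat_lit 116, nat_lit 0, nat_lit 0, [nat_lit 840562801, nat_lit 1888972001, nat_lit 3469177200], [], [nat_lit 26548879130, nat_lit 26811916980, nat_lit 27259874045, nat_lit 27567773817, nat_lit 26874491322, nat_lit 27114706440, nat_lit 27493408553, nat_lit 27726415900], nat_lit 0, nat_lit 0, nat_lit 0, nat_lit 0, nat_lit 0, nat_lit 0, [], [nat_lit 20, nat_lit 40, nat_lit 40, nat_lit 80, nat_lit 16, nat_lit 249, nat_lit 40, nat_lit 8]⟩, ⟨p115_k22, nat_lit 0, nat_lit 0, nat_lit 426, nat_lit 0, nat_lit 587716, [nat_lit 1767376000, nat_lit 3003936000, nat_lit 5299866000], [], [nat_lit 11138156739, nat_lit 11153077212, nat_lit 11358512875, nat_lit 11372364303, nat_lit 11917559100, nat_lit 11924918361, nat_lit 12109148478, nat_lit 12121524310], nat_lit 1271250, nat_lit 1271250, nat_lit 1271250, nat_lit 1271250, nat_lit 1100001, nat_lit 2607000, [nat_lit 1100000, nat_lit 1785000, nat_lit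 1271250], [nat_lit 37, nat_lit 40, nat_lit 40, nat_lit 80, nat_lit 28, nat_lit 483, nat_lit 250, nat_lit 10]⟩,
 ⟨nat_lit 1581, nat_lit 1937, ⟨.ofNat (nat_lit 745903), .ofNat (nat_lit 768258), .ofNat (nat_lit 748204), .ofNat (nat_lit 770560), .ofNat (nat_lit 743177), .ofNat (nat_lit 765031), .ofNat (nat_lit 745508), .ofNat (nat_lit 767363)⟩, ⟨.ofNat (nat_lit 200000), .ofNat (nat_lit 329055), .ofNat (nat_lit 200000), .ofNat (nat_lit 352066), .ofNat (nat_lit 200000), .ofNat (nat_lit 328788), .ofNat (nat_lit 200000), .ofNat (nat_lit 352103)⟩⟩, [⟨nat_lit 13, nat_lit 33, nat_lit 84, nat_lit 100, nat_lit 314669100⟩, ⟨nat_lit 4, nat_lit 100, nat_lit 35, nat_lit 90, nat_lit 73550935⟩, ⟨nat_lit 7, nat_lit 78, nat_lit 100, nat_lit 95, nat_lit 113028293⟩]⟩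
noncomputable def p115_l26 : Lf2 := ⟨nat_lit 0, nat_lit 30, [nat_lit 15, nat_lit 5, nat_lit 5, nat_lit 20], false, nat_lit 80, nat_lit 160, nat_lit 0, nat_lit 160, ⟨nat_lit 1000, nat_lit 0, nat_lit 0, nat_lit 0, nat_lit 0, nat_lit 0, nat_lit 0, nat_lit 0, nat_lit 0, nat_lit 0, nat_lit 0, nat_lit 0, nat_lit 0, nat_lit 0, nat_lit 0, nat_lit 0, false, false⟩,
 nat_lit 0, nat_lit 0, nat_lit 11583, nat_lit 0, nat_lit 3146, nat_lit 7054, nat_lit 443, nat_lit 0, nat_lit 0, nat_lit 1128, nat_lit 0, nat_lit 0, nat_lit 0, nat_lit 0, nat_lit 0, nat_lit 0, nat_lit 0, nat_lit 0, [],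
 ⟨p115_k20, nat_lit 0, nat_lit 0, nat_lit 118, nat_lit 0, nat_lit 0, [nat_lit 938000000, nat_lit 3282000000, nat_lit 6250000000], [], [nat_lit 26780172658, nat_lit 27110332884, nat_lit 28022239906, nat_lit 28333006780, nat_lit 26996710668, nat_lit 27237099174, nat_lit 28076375215, nat_lit 28360591938], nat_lit 0, nat_lit 0, nat_lit 0, nat_lit 0, nat_lit 0, nat_lit 0, [], [nat_lit 20, nat_lit 40, nat_lit 40, nat_lit 80, nat_lit 16, nat_lit 249, nat_lit 40, nat_lit 8]⟩, ⟨p115_k16, nat_lit 0, nat_lit 0, nat_lit 588, nat_lit 0, nat_lit 636283, [nat_lit 4688000000, nat_lit 7968000000, nat_lit 14058000000], [], [nat_lit 32303660704, nat_lit 32512249400, nat_lit 33447133236, nat_lit 33753862223, nat_lit 28110213372, nat_lit 28273922096, nat_lit 28836838765, nat_lit 28984600636], nat_lit 1271250, nat_lit 1271250, nat_lit 1271250, nat_lit 1271250, nat_lit 0, nat_lit 1100001, [nat_lit 1100000, nat_lit 1785000, nat_lit 1271250],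 [nat_lit 37, nat_lit 40, nat_lit 40, nat_lit 80, nat_lit 28, nat_lit 428, nat_lit 200, nat_lit 9]⟩,
 zbF0, [⟨nat_lit 16, nat_lit 35, nat_lit 100, nat_lit 90, nat_lit 532371181⟩]⟩
noncomputable def p115_l27 : Lf2 := ⟨nat_lit 0, nat_lit 30, [nat_lit 15, nat_lit 5, nat_lit 5, nat_lit 20], false, nat_lit 80, nat_lit 160, nat_lit 160, nat_lit 336, ⟨nat_lit 398, nat_lit 602, nat_lit 0, nat_lit 8, nat_lit 306, nat_lit 602, nat_lit 108, nat_lit 0, nat_lit 0, nat_lit 0, nat_lit 0, nat_lit 0, nat_lit 39135674, nat_lit 23371191, nat_lit 4493135, nat_lit 4569313, true, true⟩,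
 nat_lit 0, nat_lit 0, nat_lit 4339, nat_lit 0, nat_lit 2941, nat_lit 2642, nat_lit 233, nat_lit 0, nat_lit 0, nat_lit 362, nat_lit 0, nat_lit 0, nat_lit 0, nat_lit 0, nat_lit 0, nat_lit 150500, nat_lit 0, nat_lit 0, [(nat_lit 29, [(nat_lit 0, nat_lit 602)])],
 ⟨p115_k20, nat_lit 0, nat_lit 0, nat_lit 116, nat_lit 0, nat_lit 0, [nat_lit 843847200, nat_lit 1935928000, nat_lit 3562912800], [], [nat_lit 26570025940, nat_lit 26727870266, nat_lit 27463442804, nat_lit 27646360677, nat_lit 26900907478, nat_lit 27039776918, nat_lit 27669120069, nat_lit 27807576436], nat_lit 0, nat_lit 0, nat_lit 0, nat_lit 0, nat_lit 0, nat_lit 0, [], [nat_lit 20, nat_lit 40, nat_lit 40, nat_lit 80, nat_lit 16, nat_lit 249, nat_lit 40, nat_lit 8]⟩, ⟨p115_k16, nat_lit 0, nat_lit 0, nat_lit 421, nat_lit 0, nat_lit 573625, [nat_lit 1865824000, nat_lit 3171264000, nat_lit 5595084000], [], [nat_lit 11842722264, nat_lit 11874852460, nat_lit 12089344366,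 nat_lit 12125293995, nat_lit 12625940704, nat_lit 12645671596, nat_lit 12865262947, nat_lit 12893566852], nat_lit 1271250, nat_lit 1271250, nat_lit 1271250, nat_lit 1271250, nat_lit 1100001, nat_lit 2607000, [nat_lit 1100000, nat_lit 1785000, nat_lit 1271250], [nat_lit 37, nat_lit 40, nat_lit 40, nat_lit 80, nat_lit 28, nat_lit 483, nat_lit 250, nat_lit 10]⟩,
 ⟨nat_lit 1732, nat_lit 1937, ⟨.ofNat (nat_lit 748204), .ofNat (nat_lit 776148), .ofNat (nat_lit 753957), .ofNat (nat_lit 781901), .ofNat (nat_lit 746610), .ofNat (nat_lit 774189), .ofNat (nat_lit 752406), .ofNat (nat_lit 779985)⟩, ⟨.ofNat (nat_lit 200000), .ofNat (nat_lit 329055), .ofNat (nat_lit 200000), .ofNat (nat_lit 352066), .ofNat (nat_lit 200000), .ofNat (nat_lit 328928), .ofNat (nat_lit 200000), .ofNat (nat_lit 352110)⟩⟩, [⟨nat_lit 7, nat_lit 80, nat_lit 100, nat_lit 96, nat_lit 13197239⟩, ⟨nat_lit 10, nat_lit 74, nat_lit 77, nat_lit 100, nat_lit 129994842⟩]⟩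
noncomputable def p115_l28 : Lf2 := ⟨nat_lit 0, nat_lit 30, [nat_lit 15, nat_lit 5, nat_lit 5, nat_lit 20], false, nat_lit 80, nat_lit 160, nat_lit 160, nat_lit 336, ⟨nat_lit 389, nat_lit 611, nat_lit 0, nat_lit 8, nat_lit 304, nat_lit 611, nat_lit 108, nat_lit 0, nat_lit 0, nat_lit 0, nat_lit 0, nat_lit 0, nat_lit 39283436, nat_lit 23212986, nat_lit 4503578, nat_lit 4564936, true, true⟩,
 nat_lit 0, nat_lit 0, nat_lit 4217, nat_lit 0, nat_lit 2934, nat_lit 2568, nat_lit 222, nat_lit 0, nat_lit 0, nat_lit 352, nat_lit 0, nat_lit 0, nat_lit 0, nat_lit 0, nat_lit 0, nat_lit 152750, nat_lit 0, nat_lit 0, [(nat_lit 29, [(nat_lit 0, nat_lit 611)])],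
 ⟨p115_k23, nat_lit 0, nat_lit 0, nat_lit 116, nat_lit 0, nat_lit 0, [nat_lit 842439601, nat_lit 1915804000, nat_lit 3522740400], [], [nat_lit 26694224334, nat_lit 26799353008, nat_lit 27434304906, nat_lit 27557356098, nat_lit 27012438835, nat_lit 27104935508, nat_lit 27622644514, nat_lit 27718852450], nat_lit 0, nat_lit 0, nat_lit 0, nat_lit 0, nat_lit 0, nat_lit 0, [], [nat_lit 20, nat_lit 40, nat_lit 40, nat_lit 80, nat_lit 16, nat_lit 249, nat_lit 40, nat_lit 8]⟩, ⟨p115_k16, nat_lit 0, nat_lit 0, nat_lit 433, nat_lit 0, nat_lit 607487, [nat_lit 1823632000, nat_lit 3099552000, nat_lit 5468562000], [], [nat_lit 11639710466, nat_lit 11671154887, nat_lit 11828779136, nat_lit 11857944152, nat_lit 12393398992, nat_lit 12412781769, nat_lit 12555174091, nat_lit 12580997080], nat_lit 1271250, nat_lit 1271250, nat_lit 1271250, nat_lit 1271250, nat_lit 1100001, nat_lit 2607000, [nat_lit 1100000, nat_lit 1785000, nat_lit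 1271250], [nat_lit 37, nat_lit 40, nat_lit 40, nat_lit 80, nat_lit 28, nat_lit 483, nat_lit 250, nat_lit 10]⟩,
 ⟨nat_lit 1581, nat_lit 1733, ⟨.ofNat (nat_lit 746610), .ofNat (nat_lit 768673), .ofNat (nat_lit 752406), .ofNat (nat_lit 774469), .ofNat (nat_lit 745508), .ofNat (nat_lit 767363), .ofNat (nat_lit 751337), .ofNat (nat_lit 773192)⟩, ⟨.ofNat (nat_lit 200000), .ofNat (nat_lit 328928), .ofNat (nat_lit 200000), .ofNat (nat_lit 352110), .ofNat (nat_lit 200000), .ofNat (nat_lit 328788), .ofNat (nat_lit 200000), .ofNat (nat_lit 352103)⟩⟩, [⟨nat_lit 13, nat_lit 33, nat_lit 83, nat_lit 100, nat_lit 273170931⟩, ⟨nat_lit 4, nat_lit 100, nat_lit 33, nat_lit 90, nat_lit 174048749⟩, ⟨nat_lit 7, nat_lit 80, nat_lit 100, nat_lit 96, nat_lit 114003971⟩]⟩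
noncomputable def p115_l29 : Lf2 := ⟨nat_lit 0, nat_lit 30, [nat_lit 15, nat_lit 5, nat_lit 5, nat_lit 20], false, nat_lit 80, nat_lit 160, nat_lit 160, nat_lit 336, ⟨nat_lit 443, nat_lit 557, nat_lit 0, nat_lit 8, nat_lit 309, nat_lit 557, nat_lit 108, nat_lit 0, nat_lit 0, nat_lit 0, nat_lit 0, nat_lit 0, nat_lit 38860312, nat_lit 23668025, nat_lit 4471663, nat_lit 4576806, true, true⟩,
 nat_lit 0, nat_lit 0, nat_lit 4508, nat_lit 0, nat_lit 2953, nat_lit 2806, nat_lit 245, nat_lit 0, nat_lit 0, nat_lit 392, nat_lit 0, nat_lit 0, nat_lit 0, nat_lit 0, nat_lit 0, nat_lit 139250, nat_lit 0, nat_lit 0, [(nat_lit 29, [(nat_lit 0, nat_lit 557)])],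
 ⟨p115_k20, nat_lit 0, nat_lit 0, nat_lit 118, nat_lit 0, nat_lit 0, [nat_lit 850885201, nat_lit 2036548001, nat_lit 3763774800], [], [nat_lit 26627322454, nat_lit 26890828661, nat_lit 27686213415, nat_lit 27988520578, nat_lit 26956686576, nat_lit 27188491154, nat_lit 27877622954, nat_lit 28109179910], nat_lit 0, nat_lit 0, nat_lit 0, nat_lit 0, nat_lit 0, nat_lit 0, [], [nat_lit 20, nat_lit 40, nat_lit 40, nat_lit 80, nat_lit 16, nat_lit 249, nat_lit 40, nat_lit 8]⟩, ⟨p115_k17, nat_lit 0, nat_lit 0, nat_lit 435, nat_lit 0, nat_lit 615722, [nat_lit 2076784000, nat_lit 3529824000, nat_lit 6227694000], [], [nat_lit 13456597559, nat_lit 13492745996, nat_lit 13772046629, nat_lit 13804427262, nat_lit 14203424523, nat_lit 14230346394, nat_lit 14488364364, nat_lit 14517133320], nat_lit 1271250, nat_lit 1271250, nat_lit 1271250, nat_lit 1271250, nat_lit 1100001, nat_lit 2607000, [nat_lit 1100000, nat_lit 1785000, nat_lit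 1271250], [nat_lit 37, nat_lit 40, nat_lit 40, nat_lit 80, nat_lit 28, nat_lit 483, nat_lit 250, nat_lit 10]⟩,
 ⟨nat_lit 1581, nat_lit 1937, ⟨.ofNat (nat_lit 753957), .ofNat (nat_lit 787490), .ofNat (nat_lit 759709), .ofNat (nat_lit 793243), .ofNat (nat_lit 751337), .ofNat (nat_lit 784119), .ofNat (nat_lit 757166), .ofNat (nat_lit 789947)⟩, ⟨.ofNat (nat_lit 200000), .ofNat (nat_lit 329055), .ofNat (nat_lit 200000), .ofNat (nat_lit 352066), .ofNat (nat_lit 200000), .ofNat (nat_lit 328788), .ofNat (nat_lit 200000), .ofNat (nat_lit 352103)⟩⟩, [⟨nat_lit 13, nat_lit 34, nat_lit 82, nat_lit 100, nat_lit 224330225⟩, ⟨nat_lit 4, nat_lit 100, nat_lit 35, nat_lit 90, nat_lit 216525722⟩, ⟨nat_lit 19, nat_lit 100, nat_lit 83, nat_lit 97, nat_lit 125056339⟩]⟩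
noncomputable def p115_l30 : Lf2 := ⟨nat_lit 0, nat_lit 30, [nat_lit 15, nat_lit 5, nat_lit 5, nat_lit 20], false, nat_lit 80, nat_lit 160, nat_lit 0, nat_lit 336, ⟨nat_lit 182, nat_lit 818, nat_lit 0, nat_lit 8, nat_lit 294, nat_lit 818, nat_lit 108, nat_lit 0, nat_lit 0, nat_lit 0, nat_lit 0, nat_lit 0, nat_lit 40170297, nat_lit 22280065, nat_lit 4549638, nat_lit 4533407, true, true⟩,
 nat_lit 0, nat_lit 0, nat_lit 2901, nat_lit 0, nat_lit 2769, nat_lit 1688, nat_lit 163, nat_lit 0, nat_lit 0, nat_lit 117, nat_lit 0, nat_lit 0, nat_lit 0, nat_lit 0, nat_lit 0, nat_lit 204500, nat_lit 0, nat_lit 0, [(nat_lit 29, [(nat_lit 0, nat_lit 818)])],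
 ⟨p115_k24, nat_lit 0, nat_lit 0, nat_lit 120, nat_lit 0, nat_lit 0, [nat_lit 810064801, nat_lit 1979111200, nat_lit 2598775200], [], [nat_lit 26492409526, nat_lit 27116363804, nat_lit 26687024355, nat_lit 27305066902, nat_lit 26793589211, nat_lit 27364192136, nat_lit 26972906303, nat_lit 27538330807], nat_lit 0, nat_lit 0, nat_lit 0, nat_lit 0, nat_lit 0, nat_lit 0, [], [nat_lit 55, nat_lit 40, nat_lit 40, nat_lit 80, nat_lit 3, nat_lit 249, nat_lit 40, nat_lit 8]⟩, ⟨p115_k18, nat_lit 0, nat_lit 0, nat_lit 649, nat_lit 0, nat_lit 783188, [nat_lit 853216000, nat_lit 1791244000, nat_lit 2558556000], [], [nat_lit 7284100396, nat_lit 7288544743, nat_lit 7300011797, nat_lit 7304195954, nat_lit 5937855603, nat_lit 5940736221, nat_lit 5955733512, nat_lit 5967886657], nat_lit 1271250, nat_lit 1271250, nat_lit 1271250, nat_lit 1271250, nat_lit 0, nat_lit 2373000, [nat_lit 1100000, nat_lit 2127500, nat_lit 1271250], [nat_lit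 56, nat_lit 40, nat_lit 40, nat_lit 80, nat_lit 32, nat_lit 483, nat_lit 250, nat_lit 11]⟩,
 ⟨nat_lit 0, nat_lit 1582, ⟨.ofNat (nat_lit 733849), .ofNat (nat_lit 739312), .ofNat (nat_lit 739678), .ofNat (nat_lit 745141), .ofNat (nat_lit 724997), .ofNat (nat_lit 729996), .ofNat (nat_lit 731247), .ofNat (nat_lit 736247)⟩, ⟨.ofNat (nat_lit 200000), .ofNat (nat_lit 328785), .ofNat (nat_lit 200000), .ofNat (nat_lit 352101), .ofNat (nat_lit 200000), .ofNat (nat_lit 324996), .ofNat (nat_lit 200000), .ofNat (nat_lit 349997)⟩⟩, [⟨nat_lit 13, nat_lit 33, nat_lit 84, nat_lit 100, nat_lit 828877500⟩, ⟨nat_lit 16, nat_lit 31, nat_lit 100, nat_lit 92, nat_lit 74270122⟩, ⟨nat_lit 22, nat_lit 82, nat_lit 76, nat_lit 100, nat_lit 17560629⟩]⟩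
noncomputable def p115_l31 : Lf2 := ⟨nat_lit 0, nat_lit 30, [nat_lit 15, nat_lit 5, nat_lit 5, nat_lit 20], false, nat_lit 80, nat_lit 120, nat_lit 0, nat_lit 300, ⟨nat_lit 201, nat_lit 799, nat_lit 0, nat_lit 8, nat_lit 297, nat_lit 799, nat_lit 97, nat_lit 0, nat_lit 0, nat_lit 0, nat_lit 0, nat_lit 0, nat_lit 40309305, nat_lit 22788787, nat_lit 3901908, nat_lit 4424756, true, true⟩,
 nat_lit 0, nat_lit 0, nat_lit 3107, nat_lit 0, nat_lit 2580, nat_lit 1850, nat_lit 191, nat_lit 0, nat_lit 0, nat_lit 135, nat_lit 0, nat_lit 0, nat_lit 0, nat_lit 0, nat_lit 0, nat_lit 199750, nat_lit 0, nat_lit 0, [(nat_lit 29, [(nat_lit 0, nat_lit 799)])],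
 ⟨p115_k24, nat_lit 0, nat_lit 0, nat_lit 121, nat_lit 0, nat_lit 0, [nat_lit 813036401, nat_lit 2042031601, nat_lit 2683583600], [], [nat_lit 26182628320, nat_lit 26788351280, nat_lit 26562669516, nat_lit 27157123201, nat_lit 26377061244, nat_lit 26957131400, nat_lit 26742298489, nat_lit 27311921088], nat_lit 0, nat_lit 0, nat_lit 0, nat_lit 0, nat_lit 0, nat_lit 0, [], [nat_lit 55, nat_lit 40, nat_lit 40, nat_lit 80, nat_lit 3, nat_lit 238, nat_lit 30, nat_lit 7]⟩, ⟨p115_k25, nat_lit 0, nat_lit 0, nat_lit 647, nat_lit 0, nat_lit 781441, [nat_lit 942288000, nat_lit 1978242000, nat_lit 2825658000], [], [nat_lit 7696226375, nat_lit 7701235055, nat_lit 7739345632, nat_lit 7774932789, nat_lit 6201419592, nat_lit 6205940764, nat_lit 6255698666, nat_lit 6272623206], nat_lit 1271250, nat_lit 1271250, nat_lit 1271250, nat_lit 1271250, nat_lit 0, nat_lit 2118750, [nat_lit 1100000, nat_lit 2127500, nat_lit 1271250], [nat_lit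 56, nat_lit 40, nat_lit 40, nat_lit 80, nat_lit 32, nat_lit 456, nat_lit 225, nat_lit 10]⟩,
 ⟨nat_lit 0, nat_lit 1582, ⟨.ofNat (nat_lit 739678), .ofNat (nat_lit 750605), .ofNat (nat_lit 745507), .ofNat (nat_lit 756434), .ofNat (nat_lit 731247), .ofNat (nat_lit 741247), .ofNat (nat_lit 737498), .ofNat (nat_lit 747497)⟩, ⟨.ofNat (nat_lit 200000), .ofNat (nat_lit 274152), .ofNat (nat_lit 200000), .ofNat (nat_lit 297467), .ofNat (nat_lit 200000), .ofNat (nat_lit 274999), .ofNat (nat_lit 200000), .ofNat (nat_lit 299999)⟩⟩, [⟨nat_lit 13, nat_lit 33, nat_lit 83, nat_lit 100, nat_lit 903257205⟩, ⟨nat_lit 22, nat_lit 87, nat_lit 95, nat_lit 100, nat_lit 13086826⟩]⟩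
noncomputable def p115_l32 : Lf2 := ⟨nat_lit 0, nat_lit 30, [nat_lit 15, nat_lit 5, nat_lit 5, nat_lit 20], false, nat_lit 120, nat_lit 160, nat_lit 4, nat_lit 336, ⟨nat_lit 195, nat_lit 805, nat_lit 0, nat_lit 8, nat_lit 299, nat_lit 805, nat_lit 125, nat_lit 0, nat_lit 0, nat_lit 0, nat_lit 0, nat_lit 0, nat_lit 38995424, nat_lit 22384930, nat_lit 5619646, nat_lit 4735108, true, true⟩,
 nat_lit 0, nat_lit 0, nat_lit 2920, nat_lit 0, nat_lit 2773, nat_lit 1738, nat_lit 159, nat_lit 0, nat_lit 0, nat_lit 126, nat_lit 0, nat_lit 0, nat_lit 0, nat_lit 0, nat_lit 0, nat_lit 201250, nat_lit 0, nat_lit 0, [(nat_lit 29, [(nat_lit 0, nat_lit 805)])],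
 ⟨p115_k24, nat_lit 0, nat_lit 0, nat_lit 105, nat_lit 0, nat_lit 0, [nat_lit 812098001, nat_lit 2022162001, nat_lit 2656802000], [], [nat_lit 26718064930, nat_lit 26964393590, nat_lit 27031564431, nat_lit 27316013148, nat_lit 26903846870, nat_lit 27139037721, nat_lit 27204080833, nat_lit 27437383964], nat_lit 0, nat_lit 0, nat_lit 0, nat_lit 0, nat_lit 0, nat_lit 0, [], [nat_lit 55, nat_lit 40, nat_lit 40, nat_lit 80, nat_lit 3, nat_lit 249, nat_lit 40, nat_lit 7]⟩, ⟨p115_k25, nat_lit 0, nat_lit 0, nat_lit 610, nat_lit 0, nat_lit 689785, [nat_lit 914160000, nat_lit 1919190000, nat_lit 2741310000], [], [nat_lit 7516577969, nat_lit 7531869480, nat_lit 7572492242, nat_lit 7587003925, nat_lit 6351735091, nat_lit 6353606333, nat_lit 6392628317, nat_lit 6405530387], nat_lit 1271250, nat_lit 1271250, nat_lit 1271250, nat_lit 1271250, nat_lit 21650, nat_lit 2378850, [nat_lit 1100000, nat_lit 2127500, nat_lit 1271250], [nat_lit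 56, nat_lit 40, nat_lit 40, nat_lit 80, nat_lit 32, nat_lit 483, nat_lit 250, nat_lit 11]⟩,
 ⟨nat_lit 1118, nat_lit 1582, ⟨.ofNat (nat_lit 739680), .ofNat (nat_lit 750607), .ofNat (nat_lit 745508), .ofNat (nat_lit 756436), .ofNat (nat_lit 736570), .ofNat (nat_lit 747196), .ofNat (nat_lit 742508), .ofNat (nat_lit 753133)⟩, ⟨.ofNat (nat_lit 274152), .ofNat (nat_lit 328788), .ofNat (nat_lit 297467), .ofNat (nat_lit 352103), .ofNat (nat_lit 274990), .ofNat (nat_lit 328117), .ofNat (nat_lit 298741), .ofNat (nat_lit 351868)⟩⟩, [⟨nat_lit 13, nat_lit 33, nat_lit 83, nat_lit 100, nat_lit 410521927⟩, ⟨nat_lit 4, nat_lit 100, nat_lit 28, nat_lit 91, nat_lit 283417514⟩, ⟨nat_lit 22, nat_lit 82, nat_lit 76, nat_lit 100, nat_lit 23558499⟩]⟩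
noncomputable def p115_l33 : Lf2 := ⟨nat_lit 0, nat_lit 30, [nat_lit 15, nat_lit 5, nat_lit 5, nat_lit 20], false, nat_lit 80, nat_lit 120, nat_lit 0, nat_lit 300, ⟨nat_lit 218, nat_lit 782, nat_lit 0, nat_lit 8, nat_lit 303, nat_lit 782, nat_lit 97, nat_lit 0, nat_lit 0, nat_lit 0, nat_lit 0, nat_lit 0, nat_lit 39796726, nat_lit 23333106, nat_lit 3870168, nat_lit 4441341, true, true⟩,
 nat_lit 0, nat_lit 0, nat_lit 3155, nat_lit 0, nat_lit 2556, nat_lit 1921, nat_lit 191, nat_lit 0, nat_lit 0, nat_lit 147, nat_lit 0, nat_lit 0, nat_lit 0, nat_lit 0, nat_lit 0, nat_lit 195500, nat_lit 0, nat_lit 0, [(nat_lit 29, [(nat_lit 0, nat_lit 782)])],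
 ⟨p115_k24, nat_lit 0, nat_lit 0, nat_lit 123, nat_lit 0, nat_lit 0, [nat_lit 815695201, nat_lit 2098328800, nat_lit 2759464800], [], [nat_lit 26215810457, nat_lit 26746698896, nat_lit 26901039839, nat_lit 27482049904, nat_lit 26465832363, nat_lit 26936859460, nat_lit 27087164660, nat_lit 27628710684], nat_lit 0, nat_lit 0, nat_lit 0, nat_lit 0, nat_lit 0, nat_lit 0, [], [nat_lit 55, nat_lit 40, nat_lit 40, nat_lit 80, nat_lit 3, nat_lit 238, nat_lit 30, nat_lit 7]⟩, ⟨p115_k26, nat_lit 0, nat_lit 0, nat_lit 656, nat_lit 0, nat_lit 807535, [nat_lit 1021984000, nat_lit 2145556000, nat_lit 3064644000], [], [nat_lit 8264231850, nat_lit 8276302912, nat_lit 8398201870, nat_lit 8471278178, nat_lit 6734506523, nat_lit 6744469903, nat_lit 6842996730, nat_lit 6878147804], nat_lit 1271250, nat_lit 1271250, nat_lit 1271250, nat_lit 1271250, nat_lit 0, nat_lit 2118750, [nat_lit 1100000, nat_lit 2127500, nat_lit 1271250], [nat_lit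 56, nat_lit 40, nat_lit 40, nat_lit 80, nat_lit 32, nat_lit 483, nat_lit 250, nat_lit 11]⟩,
 ⟨nat_lit 0, nat_lit 1582, ⟨.ofNat (nat_lit 745507), .ofNat (nat_lit 767360), .ofNat (nat_lit 757165), .ofNat (nat_lit 779018), .ofNat (nat_lit 737498), .ofNat (nat_lit 757496), .ofNat (nat_lit 749998), .ofNat (nat_lit 769997)⟩, ⟨.ofNat (nat_lit 200000), .ofNat (nat_lit 274152), .ofNat (nat_lit 200000), .ofNat (nat_lit 297467), .ofNat (nat_lit 200000), .ofNat (nat_lit 274999), .ofNat (nat_lit 200000), .ofNat (nat_lit 299999)⟩⟩, [⟨nat_lit 13, nat_lit 24, nat_lit 89, nat_lit 100, nat_lit 745471868⟩, ⟨nat_lit 22, nat_lit 87, nat_lit 95, nat_lit 100, nat_lit 14713685⟩]⟩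
noncomputable def p115_l34 : Lf2 := ⟨nat_lit 0, nat_lit 30, [nat_lit 15, nat_lit 5, nat_lit 5, nat_lit 20], false, nat_lit 120, nat_lit 160, nat_lit 4, nat_lit 160, ⟨nat_lit 1000, nat_lit 0, nat_lit 0, nat_lit 0, nat_lit 0, nat_lit 0, nat_lit 0, nat_lit 0, nat_lit 0, nat_lit 0, nat_lit 0, nat_lit 0, nat_lit 0, nat_lit 0, nat_lit 0, nat_lit 0, false, false⟩,
 nat_lit 0, nat_lit 0, nat_lit 11739, nat_lit 0, nat_lit 2826, nat_lit 7149, nat_lit 417, nat_lit 0, nat_lit 0, nat_lit 1496, nat_lit 0, nat_lit 0, nat_lit 0, nat_lit 0, nat_lit 0, nat_lit 0, nat_lit 0, nat_lit 0, [],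
 ⟨p115_k24, nat_lit 0, nat_lit 0, nat_lit 109, nat_lit 0, nat_lit 0, [nat_lit 938000000, nat_lit 4688000000, nat_lit 6250000000], [], [nat_lit 26842163527, nat_lit 27328905668, nat_lit 27476273759, nat_lit 28056211728, nat_lit 27039849578, nat_lit 27523380456, nat_lit 27669643901, nat_lit 28183126447], nat_lit 0, nat_lit 0, nat_lit 0, nat_lit 0, nat_lit 0, nat_lit 0, [], [nat_lit 55, nat_lit 40, nat_lit 40, nat_lit 80, nat_lit 3, nat_lit 249, nat_lit 40, nat_lit 7]⟩, ⟨p115_k26, nat_lit 0, nat_lit 0, nat_lit 653, nat_lit 0, nat_lit 807535, [nat_lit 4688000000, nat_lit 9842000000, nat_lit 14058000000], [], [nat_lit 31521247841, nat_lit 31687513144, nat_lit 32199346971, nat_lit 32472862591, nat_lit 26968435450, nat_lit 27087761388, nat_lit 27357115787, nat_lit 27466621272], nat_lit 1271250, nat_lit 1271250, nat_lit 1271250, nat_lit 1271250, nat_lit 21650, nat_lit 1100001, [nat_lit 1100000, nat_lit 2127500, nat_lit 1271250],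 [nat_lit 56, nat_lit 40, nat_lit 40, nat_lit 80, nat_lit 32, nat_lit 428, nat_lit 200, nat_lit 9]⟩,
 zbF0, [⟨nat_lit 13, nat_lit 24, nat_lit 89, nat_lit 100, nat_lit 1674642051⟩, ⟨nat_lit 4, nat_lit 100, nat_lit 23, nat_lit 92, nat_lit 947355768⟩]⟩
noncomputable def p115_l35 : Lf2 := ⟨nat_lit 0, nat_lit 30, [nat_lit 15, nat_lit 5, nat_lit 5, nat_lit 20], false, nat_lit 120, nat_lit 160, nat_lit 160, nat_lit 336, ⟨nat_lit 214, nat_lit 786, nat_lit 0, nat_lit 8, nat_lit 299, nat_lit 786, nat_lit 125, nat_lit 0, nat_lit 0, nat_lit 0, nat_lit 0, nat_lit 0, nat_lit 38933291, nat_lit 22465865, nat_lit 5600844, nat_lit 4735364, true, true⟩,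
 nat_lit 0, nat_lit 0, nat_lit 3076, nat_lit 0, nat_lit 2780, nat_lit 1873, nat_lit 165, nat_lit 0, nat_lit 0, nat_lit 147, nat_lit 0, nat_lit 0, nat_lit 0, nat_lit 0, nat_lit 0, nat_lit 196500, nat_lit 0, nat_lit 0, [(nat_lit 29, [(nat_lit 0, nat_lit 786)])],
 ⟨p115_k24, nat_lit 0, nat_lit 0, nat_lit 107, nat_lit 0, nat_lit 0, [nat_lit 815069601, nat_lit 2085082400, nat_lit 2741610400], [], [nat_lit 26720331270, nat_lit 27256757400, nat_lit 27034061444, nat_lit 27620067808, nat_lit 26904425341, nat_lit 27378060320, nat_lit 27205136120, nat_lit 27726772417], nat_lit 0, nat_lit 0, nat_lit 0, nat_lit 0, nat_lit 0, nat_lit 0, [], [nat_lit 55, nat_lit 40, nat_lit 40, nat_lit 80, nat_lit 3, nat_lit 249, nat_lit 40, nat_lit 7]⟩, ⟨p115_k26, nat_lit 0, nat_lit 0, nat_lit 527, nat_lit 0, nat_lit 770783, [nat_lit 1003232000, nat_lit 2106188000, nat_lit 3008412000], [], [nat_lit 6589015989, nat_lit 6596603661, nat_lit 6638457062,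 nat_lit 6645617079, nat_lit 6799918353, nat_lit 6807703708, nat_lit 6860185888, nat_lit 6872932659], nat_lit 1271250, nat_lit 1271250, nat_lit 1271250, nat_lit 1271250, nat_lit 1100001, nat_lit 2607000, [nat_lit 1100000, nat_lit 2127500, nat_lit 1271250], [nat_lit 56, nat_lit 40, nat_lit 40, nat_lit 80, nat_lit 32, nat_lit 483, nat_lit 250, nat_lit 10]⟩,
 ⟨nat_lit 0, nat_lit 1582, ⟨.ofNat (nat_lit 745507), .ofNat (nat_lit 756434), .ofNat (nat_lit 749004), .ofNat (nat_lit 759931), .ofNat (nat_lit 737498), .ofNat (nat_lit 747497), .ofNat (nat_lit 741247), .ofNat (nat_lit 751247)⟩, ⟨.ofNat (nat_lit 274152), .ofNat (nat_lit 328785), .ofNat (nat_lit 297467), .ofNat (nat_lit 352101), .ofNat (nat_lit 274999), .ofNat (nat_lit 324996), .ofNat (nat_lit 299999), .ofNat (nat_lit 349997)⟩⟩, [⟨nat_lit 13, nat_lit 24, nat_lit 89, nat_lit 100, nat_lit 144364415⟩, ⟨nat_lit 13, nat_lit 34, nat_lit 83, nat_lit 100, nat_lit 310383017⟩,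 ⟨nat_lit 16, nat_lit 31, nat_lit 100, nat_lit 92, nat_lit 354772664⟩, ⟨nat_lit 22, nat_lit 82, nat_lit 76, nat_lit 100, nat_lit 66849954⟩]⟩
noncomputable def p115_l36 : Lf2 := ⟨nat_lit 0, nat_lit 30, [nat_lit 15, nat_lit 5, nat_lit 5, nat_lit 20], false, nat_lit 120, nat_lit 160, nat_lit 160, nat_lit 336, ⟨nat_lit 223, nat_lit 777, nat_lit 0, nat_lit 8, nat_lit 302, nat_lit 777, nat_lit 125, nat_lit 0, nat_lit 0, nat_lit 0, nat_lit 0, nat_lit 0, nat_lit 38743518, nat_lit 22673957, nat_lit 5582525, nat_lit 4741065, true, true⟩,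
 nat_lit 0, nat_lit 0, nat_lit 3075, nat_lit 0, nat_lit 2783, nat_lit 1897, nat_lit 167, nat_lit 0, nat_lit 0, nat_lit 153, nat_lit 0, nat_lit 0, nat_lit 0, nat_lit 0, nat_lit 0, nat_lit 194250, nat_lit 0, nat_lit 0, [(nat_lit 29, [(nat_lit 0, nat_lit 777)])],
 ⟨p115_k24, nat_lit 0, nat_lit 0, nat_lit 108, nat_lit 0, nat_lit 0, [nat_lit 816477201, nat_lit 2114886801, nat_lit 2781782800], [], [nat_lit 26732985645, nat_lit 27261251790, nat_lit 27224557849, nat_lit 27806409119, nat_lit 26916490400, nat_lit 27388186664, nat_lit 27367762249, nat_lit 27905088551], nat_lit 0, nat_lit 0, nat_lit 0, nat_lit 0, nat_lit 0, nat_lit 0, [], [nat_lit 55, nat_lit 40, nat_lit 40, nat_lit 80, nat_lit 3, nat_lit 249, nat_lit 40, nat_lit 7]⟩, ⟨p115_k27, nat_lit 0, nat_lit 0, nat_lit 512, nat_lit 0, nat_lit 765538, [nat_lit 1045424000, nat_lit 2194766000, nat_lit 3134934000], [], [nat_lit 6862781633, nat_lit 6868145261, nat_lit 6938802910,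 nat_lit 6943731362, nat_lit 7083032304, nat_lit 7089456566, nat_lit 7177547198, nat_lit 7186021600], nat_lit 1271250, nat_lit 1271250, nat_lit 1271250, nat_lit 1271250, nat_lit 1100001, nat_lit 2607000, [nat_lit 1100000, nat_lit 2127500, nat_lit 1271250], [nat_lit 56, nat_lit 40, nat_lit 40, nat_lit 80, nat_lit 32, nat_lit 483, nat_lit 250, nat_lit 10]⟩,
 ⟨nat_lit 0, nat_lit 1582, ⟨.ofNat (nat_lit 749004), .ofNat (nat_lit 765394), .ofNat (nat_lit 751336), .ofNat (nat_lit 767726), .ofNat (nat_lit 741247), .ofNat (nat_lit 756247), .ofNat (nat_lit 743748), .ofNat (nat_lit 758747)⟩, ⟨.ofNat (nat_lit 274152), .ofNat (nat_lit 328785), .ofNat (nat_lit 297467), .ofNat (nat_lit 352101), .ofNat (nat_lit 274999), .ofNat (nat_lit 324996), .ofNat (nat_lit 299999), .ofNat (nat_lit 349997)⟩⟩, [⟨nat_lit 13, nat_lit 34, nat_lit 82, nat_lit 100, nat_lit 385805163⟩, ⟨nat_lit 16, nat_lit 31, nat_lit 100, nat_lit 92, nat_lit 392113209⟩,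 ⟨nat_lit 22, nat_lit 82, nat_lit 76, nat_lit 100, nat_lit 69711607⟩]⟩
noncomputable def p115_l37 : Lf2 := ⟨nat_lit 0, nat_lit 25, [nat_lit 44, nat_lit 5, nat_lit 5, nat_lit 20], true, nat_lit 120, nat_lit 160, nat_lit 160, nat_lit 336, ⟨nat_lit 0, nat_lit 1000, nat_lit 0, nat_lit 8, nat_lit 304, nat_lit 1000, nat_lit 125, nat_lit 0, nat_lit 0, nat_lit 0, nat_lit 0, nat_lit 0, nat_lit 38513860, nat_lit 22925970, nat_lit 5560170, nat_lit 4747630, true, true⟩,
 nat_lit 0, nat_lit 0, nat_lit 0, nat_lit 0, nat_lit 3030, nat_lit 0, nat_lit 0, nat_lit 0, nat_lit 0, nat_lit 0, nat_lit 0, nat_lit 0, nat_lit 0, nat_lit 0, nat_lit 0, nat_lit 250000, nat_lit 0, nat_lit 0, [(nat_lit 29, [(nat_lit 0, nat_lit 1000)])],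
 ⟨p115_k13, nat_lit 0, nat_lit 0, nat_lit 94, nat_lit 0, nat_lit 0, [nat_lit 781600001, nat_lit 1046000001, nat_lit 1376400000], [], [nat_lit 27034995960, nat_lit 27631289900, nat_lit 27781953622, nat_lit 28379212516, nat_lit 27189464530, nat_lit 27704706080, nat_lit 27840871070, nat_lit 28410432112], nat_lit 0, nat_lit 0, nat_lit 0, nat_lit 0, nat_lit 0, nat_lit 0, [], [nat_lit 35, nat_lit 40, nat_lit 40, nat_lit 80, nat_lit 22, nat_lit 249, nat_lit 40, nat_lit 9]⟩, C1.Rw.none,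
 ⟨nat_lit 0, nat_lit 1582, ⟨.ofNat (nat_lit 751336), .ofNat (nat_lit 773189), .ofNat (nat_lit 757165), .ofNat (nat_lit 779018), .ofNat (nat_lit 743748), .ofNat (nat_lit 763745), .ofNat (nat_lit 749998), .ofNat (nat_lit 769997)⟩, ⟨.ofNat (nat_lit 274152), .ofNat (nat_lit 328785), .ofNat (nat_lit 297467), .ofNat (nat_lit 352101), .ofNat (nat_lit 274999), .ofNat (nat_lit 324996), .ofNat (nat_lit 299999), .ofNat (nat_lit 349997)⟩⟩, [⟨nat_lit 13, nat_lit 34, nat_lit 81, nat_lit 100, nat_lit 616428303⟩]⟩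
noncomputable def p115_l38 : Lf2 := ⟨nat_lit 0, nat_lit 30, [nat_lit 15, nat_lit 5, nat_lit 5, nat_lit 20], false, nat_lit 120, nat_lit 160, nat_lit 160, nat_lit 336, ⟨nat_lit 437, nat_lit 563, nat_lit 0, nat_lit 8, nat_lit 304, nat_lit 563, nat_lit 125, nat_lit 0, nat_lit 0, nat_lit 0, nat_lit 0, nat_lit 0, nat_lit 38513860, nat_lit 22925970, nat_lit 5560170, nat_lit 4747630, true, true⟩,
 nat_lit 0, nat_lit 0, nat_lit 4497, nat_lit 0, nat_lit 2855, nat_lit 2799, nat_lit 237, nat_lit 0, nat_lit 0, nat_lit 390, nat_lit 0, nat_lit 0, nat_lit 0, nat_lit 0, nat_lit 0, nat_lit 140750, nat_lit 0, nat_lit 0, [(nat_lit 29, [(nat_lit 0, nat_lit 563)])],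
 ⟨p115_k28, nat_lit 0, nat_lit 0, nat_lit 108, nat_lit 0, nat_lit 0, [nat_lit 849946801, nat_lit 2023132001, nat_lit 3736993200], [], [nat_lit 26847466558, nat_lit 27369117150, nat_lit 27519728249, nat_lit 28102128506, nat_lit 27016514941, nat_lit 27492531165, nat_lit 27622454535, nat_lit 28175968792], nat_lit 0, nat_lit 0, nat_lit 0, nat_lit 0, nat_lit 0, nat_lit 0, [], [nat_lit 20, nat_lit 40, nat_lit 40, nat_lit 80, nat_lit 16, nat_lit 249, nat_lit 40, nat_lit 7]⟩, ⟨p115_k17, nat_lit 0, nat_lit 0, nat_lit 421, nat_lit 0, nat_lit 575629, [nat_lit 2048656000, nat_lit 3482016000, nat_lit 6143346000], [], [nat_lit 13140093726, nat_lit 13175663864, nat_lit 13348177938, nat_lit 13381248258, nat_lit 13902384894, nat_lit 13927269999, nat_lit 14115775989, nat_lit 14148067847], nat_lit 1271250, nat_lit 1271250, nat_lit 1271250, nat_lit 1271250, nat_lit 1100001, nat_lit 2607000, [nat_lit 1100000, nat_lit 1785000, nat_lit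 1271250], [nat_lit 37, nat_lit 40, nat_lit 40, nat_lit 80, nat_lit 28, nat_lit 483, nat_lit 250, nat_lit 10]⟩,
 ⟨nat_lit 0, nat_lit 1582, ⟨.ofNat (nat_lit 751336), .ofNat (nat_lit 773189), .ofNat (nat_lit 757165), .ofNat (nat_lit 779018), .ofNat (nat_lit 743748), .ofNat (nat_lit 763745), .ofNat (nat_lit 749998), .ofNat (nat_lit 769997)⟩, ⟨.ofNat (nat_lit 274152), .ofNat (nat_lit 328785), .ofNat (nat_lit 297467), .ofNat (nat_lit 352101), .ofNat (nat_lit 274999), .ofNat (nat_lit 324996), .ofNat (nat_lit 299999), .ofNat (nat_lit 349997)⟩⟩, [⟨nat_lit 13, nat_lit 24, nat_lit 88, nat_lit 100, nat_lit 12473804⟩, ⟨nat_lit 16, nat_lit 23, nat_lit 100, nat_lit 92, nat_lit 988598308⟩, ⟨nat_lit 22, nat_lit 81, nat_lit 88, nat_lit 100, nat_lit 149555428⟩]⟩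
noncomputable def b_V_900_600_20_51 : St := ⟨true, nat_lit 0, nat_lit 1, nat_lit 1, nat_lit 120, nat_lit 380, nat_lit 400, nat_lit 260, nat_lit 280, nat_lit 320, nat_lit 352, nat_lit 100, nat_lit 120, nat_lit 80, nat_lit 160, nat_lit 0, nat_lit 336, nat_lit 80, nat_lit 120, nat_lit 0, nat_lit 0, nat_lit 0, nat_lit 0⟩
theorem d_V_900_600_20_51 (h : EB TB.env) : Dead b_V_900_600_20_51 := chkB_sound0 h (T :=
(.spl (nat_lit 0) (nat_lit 390)
(.spl (nat_lit 0) (nat_lit 385)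
(.spl (nat_lit 5) (nat_lit 160)
(.leaf p115_l16)
(.spl (nat_lit 1) (nat_lit 270)
(.trX (nat_lit 13) (nat_lit 47) (nat_lit 74) (nat_lit 100) (nat_lit 348) (.spl (nat_lit 6) (nat_lit 100)
(.leaf p115_l17)
(.leaf p115_l18)))
(.spl (nat_lit 1) (nat_lit 275)
(.leaf p115_l19)
(.leaf p115_l20))))
(.trX (nat_lit 13) (nat_lit 41) (nat_lit 76) (nat_lit 100) (nat_lit 344) (.spl (nat_lit 1) (nat_lit 270)
(.trX (nat_lit 13) (nat_lit 41) (nat_lit 78) (nat_lit 100) (nat_lit 336) (.spl (nat_lit 1) (nat_lit 265)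
(.trX (nat_lit 13) (nat_lit 40) (nat_lit 79) (nat_lit 100) (nat_lit 332) (.spl (nat_lit 0) (nat_lit 388)
(.leaf p115_l21)
(.trX (nat_lit 13) (nat_lit 36) (nat_lit 82) (nat_lit 100) (nat_lit 328) (.leaf p115_l22))))
(.spl (nat_lit 5) (nat_lit 160)
(.leaf p115_l23)
(.spl (nat_lit 1) (nat_lit 268)
(.leaf p115_l24)
(.leaf p115_l25)))))
(.spl (nat_lit 5) (nat_lit 160)
(.leaf p115_l26)
(.spl (nat_lit 1) (nat_lit 275)
(.trX (nat_lit 13) (nat_lit 41) (nat_lit 77) (nat_lit 100) (nat_lit 340) (.spl (nat_lit 0) (nat_lit 388)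
(.leaf p115_l27)
(.trX (nat_lit 13) (nat_lit 37) (nat_lit 80) (nat_lit 100) (nat_lit 336) (.leaf p115_l28))))
(.leaf p115_l29))))))
(.trX (nat_lit 13) (nat_lit 34) (nat_lit 81) (nat_lit 100) (nat_lit 336) (.spl (nat_lit 1) (nat_lit 270)
(.trX (nat_lit 13) (nat_lit 33) (nat_lit 83) (nat_lit 100) (nat_lit 328) (.spl (nat_lit 1) (nat_lit 265)
(.trX (nat_lit 13) (nat_lit 33) (nat_lit 84) (nat_lit 100) (nat_lit 324) (.leaf p115_l30))
(.spl (nat_lit 4) (nat_lit 120)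
(.trX (nat_lit 22) (nat_lit 87) (nat_lit 95) (nat_lit 100) (nat_lit 300) (.leaf p115_l31))
(.trZ (nat_lit 9) (nat_lit 100) (nat_lit 87) (nat_lit 25) (nat_lit 4) (.spl (nat_lit 0) (nat_lit 395)
(.leaf p115_l32)
(.emL (nat_lit 13) (nat_lit 24) (nat_lit 89) (nat_lit 100)))))))
(.spl (nat_lit 4) (nat_lit 120)
(.trX (nat_lit 22) (nat_lit 87) (nat_lit 95) (nat_lit 100) (nat_lit 300) (.leaf p115_l33))
(.trZ (nat_lit 9) (nat_lit 100) (nat_lit 87) (nat_lit 25) (nat_lit 4) (.spl (nat_lit 5) (nat_lit 160)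
(.leaf p115_l34)
(.spl (nat_lit 1) (nat_lit 275)
(.trX (nat_lit 13) (nat_lit 34) (nat_lit 82) (nat_lit 100) (nat_lit 332) (.spl (nat_lit 1) (nat_lit 273)
(.trX (nat_lit 13) (nat_lit 34) (nat_lit 83) (nat_lit 100) (nat_lit 328) (.leaf p115_l35))
(.leaf p115_l36)))
(.spl (nat_lit 6) (nat_lit 100)
(.leaf p115_l37)
(.leaf p115_l38)))))))))) (by decide +kernel)
noncomputable def p115_l39 : Lf2 := ⟨nat_lit 0, nat_lit 30, [nat_lit 15, nat_lit 5, nat_lit 5, nat_lit 20], true, nat_lit 160, nat_lit 248, nat_lit 0, nat_lit 364, ⟨nat_lit 0, nat_lit 1000, nat_lit 0, nat_lit 6, nat_lit 258, nat_lit 1000, nat_lit 157, nat_lit 0, nat_lit 0, nat_lit 0, nat_lit 0, nat_lit 0, nat_lit 40734190, nat_lit 18042526, nat_lit 8223284, nat_lit 4903329, true, true⟩,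
 nat_lit 0, nat_lit 0, nat_lit 0, nat_lit 7199, nat_lit 2971, nat_lit 0, nat_lit 0, nat_lit 0, nat_lit 0, nat_lit 0, nat_lit 0, nat_lit 0, nat_lit 0, nat_lit 0, nat_lit 0, nat_lit 250000, nat_lit 0, nat_lit 0, [(nat_lit 26, [(nat_lit 0, nat_lit 1000)])],
 ⟨p115_k29, nat_lit 0, nat_lit 0, nat_lit 50, nat_lit 0, nat_lit 0, [nat_lit 765600000, nat_lit 1432000001, nat_lit 2936000000], [], [nat_lit 22134079321, nat_lit 23394805263, nat_lit 23635873709, nat_lit 24803357009, nat_lit 24397372812, nat_lit 25492866119, nat_lit 25691966535, nat_lit 26710182352], nat_lit 0, nat_lit 0, nat_lit 0, nat_lit 0, nat_lit 0, nat_lit 0, [], [nat_lit 93, nat_lit 40, nat_lit 40, nat_lit 80, nat_lit 63, nat_lit 373, nat_lit 150, nat_lit 9]⟩, C1.Rw.none,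
 ⟨nat_lit 2236, nat_lit 3163, ⟨.ofNat (nat_lit 605240), .ofNat (nat_lit 666215), .ofNat (nat_lit 627331), .ofNat (nat_lit 688370), .ofNat (nat_lit 602541), .ofNat (nat_lit 659578), .ofNat (nat_lit 625251), .ofNat (nat_lit 682352)⟩, ⟨.ofNat (nat_lit 306116), .ofNat (nat_lit 440213), .ofNat (nat_lit 350426), .ofNat (nat_lit 484523), .ofNat (nat_lit 306337), .ofNat (nat_lit 431772), .ofNat (nat_lit 351886), .ofNat (nat_lit 477320)⟩⟩, [⟨nat_lit 4, nat_lit 100, nat_lit 53, nat_lit 87, nat_lit 271777013⟩]⟩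
noncomputable def p115_l40 : Lf2 := ⟨nat_lit 0, nat_lit 30, [nat_lit 15, nat_lit 5, nat_lit 5, nat_lit 20], false, nat_lit 160, nat_lit 248, nat_lit 0, nat_lit 352, ⟨nat_lit 311, nat_lit 689, nat_lit 0, nat_lit 6, nat_lit 267, nat_lit 689, nat_lit 157, nat_lit 0, nat_lit 0, nat_lit 0, nat_lit 0, nat_lit 0, nat_lit 40010060, nat_lit 18860998, nat_lit 8128942, nat_lit 4941741, true, false⟩,
 nat_lit 0, nat_lit 0, nat_lit 4235, nat_lit 0, nat_lit 3566, nat_lit 2465, nat_lit 0, nat_lit 0, nat_lit 0, nat_lit 309, nat_lit 0, nat_lit 0, nat_lit 0, nat_lit 0, nat_lit 0, nat_lit 172250, nat_lit 0, nat_lit 0, [(nat_lit 26, [(nat_lit 0, nat_lit 689)])],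
 ⟨p115_k29, nat_lit 0, nat_lit 0, nat_lit 50, nat_lit 0, nat_lit 0, [nat_lit 819216400, nat_lit 2007350001, nat_lit 5035250000], [], [nat_lit 22423186721, nat_lit 23798153853, nat_lit 24000681769, nat_lit 25269493569, nat_lit 24700245418, nat_lit 25887506051, nat_lit 26044061587, nat_lit 27219429042], nat_lit 0, nat_lit 0, nat_lit 0, nat_lit 0, nat_lit 0, nat_lit 0, [], [nat_lit 93, nat_lit 40, nat_lit 40, nat_lit 80, nat_lit 63, nat_lit 373, nat_lit 150, nat_lit 9]⟩, ⟨p115_k15, nat_lit 0, nat_lit 0, nat_lit 631, nat_lit 0, nat_lit 719903, [nat_lit 1457968000, nat_lit 2478048000, nat_lit 4372038000], [], [nat_lit 9980229096, nat_lit 10113818428, nat_lit 10227476908, nat_lit 10341135388, nat_lit 9255374567, nat_lit 9338942354, nat_lit 9407392916, nat_lit 9475843479], nat_lit 1271250, nat_lit 1271250, nat_lit 1271250, nat_lit 1271250, nat_lit 0, nat_lit 2486000, [nat_lit 1100000, nat_lit 1785000, nat_lit 1271250],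 [nat_lit 37, nat_lit 40, nat_lit 40, nat_lit 80, nat_lit 28, nat_lit 483, nat_lit 250, nat_lit 11]⟩,
 ⟨nat_lit 2236, nat_lit 3163, ⟨.ofNat (nat_lit 627331), .ofNat (nat_lit 688370), .ofNat (nat_lit 649422), .ofNat (nat_lit 710480), .ofNat (nat_lit 625251), .ofNat (nat_lit 682352), .ofNat (nat_lit 647962), .ofNat (nat_lit 705082)⟩, ⟨.ofNat (nat_lit 306116), .ofNat (nat_lit 440213), .ofNat (nat_lit 350426), .ofNat (nat_lit 484523), .ofNat (nat_lit 306337), .ofNat (nat_lit 431772), .ofNat (nat_lit 351886), .ofNat (nat_lit 477320)⟩⟩, [⟨nat_lit 4, nat_lit 100, nat_lit 53, nat_lit 87, nat_lit 390997336⟩, ⟨nat_lit 7, nat_lit 82, nat_lit 100, nat_lit 92, nat_lit 51903791⟩]⟩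
noncomputable def p115_l41 : Lf2 := ⟨nat_lit 0, nat_lit 30, [nat_lit 15, nat_lit 5, nat_lit 5, nat_lit 20], true, nat_lit 160, nat_lit 208, nat_lit 0, nat_lit 364, ⟨nat_lit 0, nat_lit 1000, nat_lit 0, nat_lit 6, nat_lit 261, nat_lit 1000, nat_lit 145, nat_lit 0, nat_lit 0, nat_lit 0, nat_lit 0, nat_lit 0, nat_lit 41160837, nat_lit 18554734, nat_lit 7284429, nat_lit 4800083, true, false⟩,
 nat_lit 0, nat_lit 0, nat_lit 0, nat_lit 6813, nat_lit 2647, nat_lit 0, nat_lit 0, nat_lit 0, nat_lit 0, nat_lit 0, nat_lit 0, nat_lit 0, nat_lit 0, nat_lit 0, nat_lit 0, nat_lit 250000, nat_lit 0, nat_lit 0, [(nat_lit 29, [(nat_lit 0, nat_lit 1000)])],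
 ⟨p115_k14, nat_lit 0, nat_lit 0, nat_lit 55, nat_lit 0, nat_lit 0, [nat_lit 781600001, nat_lit 1054800000, nat_lit 2212560000], [], [nat_lit 23168306417, nat_lit 23754459689, nat_lit 24525902373, nat_lit 25070476025, nat_lit 24272548982, nat_lit 24818521436, nat_lit 25536246547, nat_lit 26044467357], nat_lit 0, nat_lit 0, nat_lit 0, nat_lit 0, nat_lit 0, nat_lit 0, [], [nat_lit 54, nat_lit 40, nat_lit 40, nat_lit 80, nat_lit 43, nat_lit 272, nat_lit 60, nat_lit 7]⟩, C1.Rw.none,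
 ⟨nat_lit 1581, nat_lit 2237, ⟨.ofNat (nat_lit 602558), .ofNat (nat_lit 659578), .ofNat (nat_lit 648016), .ofNat (nat_lit 705117), .ofNat (nat_lit 601260), .ofNat (nat_lit 655900), .ofNat (nat_lit 647799), .ofNat (nat_lit 702521)⟩, ⟨.ofNat (nat_lit 306337), .ofNat (nat_lit 374756), .ofNat (nat_lit 351886), .ofNat (nat_lit 420305), .ofNat (nat_lit 305473), .ofNat (nat_lit 371036), .ofNat (nat_lit 352103), .ofNat (nat_lit 417666)⟩⟩, [⟨nat_lit 16, nat_lit 44, nat_lit 100, nat_lit 92, nat_lit 220109060⟩, ⟨nat_lit 4, nat_lit 100, nat_lit 38, nat_lit 87, nat_lit 94556155⟩]⟩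
noncomputable def p115_l42 : Lf2 := ⟨nat_lit 0, nat_lit 30, [nat_lit 15, nat_lit 5, nat_lit 5, nat_lit 20], true, nat_lit 160, nat_lit 184, nat_lit 0, nat_lit 364, ⟨nat_lit 0, nat_lit 1000, nat_lit 0, nat_lit 6, nat_lit 260, nat_lit 1000, nat_lit 137, nat_lit 0, nat_lit 0, nat_lit 0, nat_lit 0, nat_lit 0, nat_lit 41672025, nat_lit 18600233, nat_lit 6727742, nat_lit 4716354, true, false⟩,
 nat_lit 0, nat_lit 0, nat_lit 0, nat_lit 0, nat_lit 2707, nat_lit 0, nat_lit 0, nat_lit 0, nat_lit 0, nat_lit 0, nat_lit 0, nat_lit 0, nat_lit 0, nat_lit 0, nat_lit 0, nat_lit 250000, nat_lit 0, nat_lit 0, [(nat_lit 29, [(nat_lit 0, nat_lit 1000)])],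
 ⟨p115_k28, nat_lit 0, nat_lit 0, nat_lit 60, nat_lit 0, nat_lit 0, [nat_lit 781600001, nat_lit 1046000001, nat_lit 1786400000], [], [nat_lit 23812853601, nat_lit 24390909043, nat_lit 25116953205, nat_lit 25714933416, nat_lit 24342152112, nat_lit 24900494535, nat_lit 25601508967, nat_lit 26194988039], nat_lit 0, nat_lit 0, nat_lit 0, nat_lit 0, nat_lit 0, nat_lit 0, [], [nat_lit 20, nat_lit 40, nat_lit 40, nat_lit 80, nat_lit 16, nat_lit 260, nat_lit 50, nat_lit 8]⟩, C1.Rw.none,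
 ⟨nat_lit 0, nat_lit 1582, ⟨.ofNat (nat_lit 601257), .ofNat (nat_lit 655899), .ofNat (nat_lit 646579), .ofNat (nat_lit 702515), .ofNat (nat_lit 599992), .ofNat (nat_lit 649998), .ofNat (nat_lit 648683), .ofNat (nat_lit 699984)⟩, ⟨.ofNat (nat_lit 305469), .ofNat (nat_lit 338250), .ofNat (nat_lit 352101), .ofNat (nat_lit 384882), .ofNat (nat_lit 299995), .ofNat (nat_lit 329995), .ofNat (nat_lit 349997), .ofNat (nat_lit 379997)⟩⟩, [⟨nat_lit 16, nat_lit 31, nat_lit 100, nat_lit 92, nat_lit 429819420⟩]⟩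
noncomputable def b_V_900_600_20_52 : St := ⟨true, nat_lit 0, nat_lit 1, nat_lit 1, nat_lit 120, nat_lit 360, nat_lit 400, nat_lit 240, nat_lit 280, nat_lit 240, nat_lit 280, nat_lit 80, nat_lit 120, nat_lit 160, nat_lit 248, nat_lit 0, nat_lit 364, nat_lit 80, nat_lit 120, nat_lit 0, nat_lit 0, nat_lit 0, nat_lit 0⟩
theorem d_V_900_600_20_52 (h : EB TB.env) : Dead b_V_900_600_20_52 := chkB_sound0 h (T :=
(.spl (nat_lit 0) (nat_lit 380)
(.spl (nat_lit 1) (nat_lit 260)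
(.leaf p115_l39)
(.trX (nat_lit 19) (nat_lit 100) (nat_lit 69) (nat_lit 96) (nat_lit 352) (.leaf p115_l40)))
(.trX (nat_lit 16) (nat_lit 44) (nat_lit 100) (nat_lit 92) (nat_lit 208) (.spl (nat_lit 0) (nat_lit 390)
(.leaf p115_l41)
(.trX (nat_lit 16) (nat_lit 31) (nat_lit 100) (nat_lit 92) (nat_lit 184) (.leaf p115_l42)))))) (by decide +kernel)
noncomputable def p115_l43 : Lf2 := ⟨nat_lit 0, nat_lit 30, [nat_lit 15, nat_lit 5, nat_lit 5, nat_lit 20], true, nat_lit 160, nat_lit 248, nat_lit 4, nat_lit 364, ⟨nat_lit 0, nat_lit 1000, nat_lit 0, nat_lit 7, nat_lit 282, nat_lit 1000, nat_lit 158, nat_lit 0, nat_lit 0, nat_lit 0, nat_lit 0, nat_lit 0, nat_lit 38753435, nat_lit 20257375, nat_lit 7989190, nat_lit 5000786, true, true⟩,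
 nat_lit 0, nat_lit 0, nat_lit 0, nat_lit 7421, nat_lit 2912, nat_lit 0, nat_lit 0, nat_lit 0, nat_lit 0, nat_lit 0, nat_lit 0, nat_lit 0, nat_lit 0, nat_lit 0, nat_lit 0, nat_lit 250000, nat_lit 0, nat_lit 0, [(nat_lit 26, [(nat_lit 0, nat_lit 1000)])],
 ⟨p115_k29, nat_lit 0, nat_lit 0, nat_lit 55, nat_lit 0, nat_lit 0, [nat_lit 765600000, nat_lit 1432000001, nat_lit 2936000000], [], [nat_lit 23656750977, nat_lit 24235468777, nat_lit 25331791105, nat_lit 25864037081, nat_lit 25714104421, nat_lit 26219187325, nat_lit 27170563489, nat_lit 27636948587], nat_lit 0, nat_lit 0, nat_lit 0, nat_lit 0, nat_lit 0, nat_lit 0, [], [nat_lit 93, nat_lit 40, nat_lit 40, nat_lit 80, nat_lit 63, nat_lit 289, nat_lit 75, nat_lit 7]⟩, C1.Rw.none,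
 ⟨nat_lit 2738, nat_lit 3163, ⟨.ofNat (nat_lit 666215), .ofNat (nat_lit 727168), .ofNat (nat_lit 688370), .ofNat (nat_lit 749323), .ofNat (nat_lit 662956), .ofNat (nat_lit 722017), .ofNat (nat_lit 685373), .ofNat (nat_lit 744435)⟩, ⟨.ofNat (nat_lit 306116), .ofNat (nat_lit 440213), .ofNat (nat_lit 350426), .ofNat (nat_lit 484523), .ofNat (nat_lit 306433), .ofNat (nat_lit 436368), .ofNat (nat_lit 351268), .ofNat (nat_lit 481203)⟩⟩, [⟨nat_lit 4, nat_lit 100, nat_lit 57, nat_lit 87, nat_lit 228678907⟩]⟩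
noncomputable def p115_l44 : Lf2 := ⟨nat_lit 0, nat_lit 30, [nat_lit 15, nat_lit 5, nat_lit 5, nat_lit 20], true, nat_lit 160, nat_lit 232, nat_lit 4, nat_lit 364, ⟨nat_lit 0, nat_lit 1000, nat_lit 0, nat_lit 7, nat_lit 278, nat_lit 1000, nat_lit 152, nat_lit 0, nat_lit 0, nat_lit 0, nat_lit 0, nat_lit 0, nat_lit 39342925, nat_lit 20006030, nat_lit 7651045, nat_lit 4939649, true, true⟩,
 nat_lit 0, nat_lit 0, nat_lit 0, nat_lit 7290, nat_lit 2835, nat_lit 0, nat_lit 0, nat_lit 0, nat_lit 0, nat_lit 0, nat_lit 0, nat_lit 0, nat_lit 0, nat_lit 0, nat_lit 0, nat_lit 250000, nat_lit 0, nat_lit 0, [(nat_lit 26, [(nat_lit 0, nat_lit 1000)])],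
 ⟨p115_k30, nat_lit 0, nat_lit 0, nat_lit 59, nat_lit 0, nat_lit 0, [nat_lit 765600000, nat_lit 1368800000, nat_lit 2512800000], [], [nat_lit 24192958830, nat_lit 24765120080, nat_lit 25808741900, nat_lit 26335278480, nat_lit 25756434888, nat_lit 26269780725, nat_lit 27204594673, nat_lit 27678558928], nat_lit 0, nat_lit 0, nat_lit 0, nat_lit 0, nat_lit 0, nat_lit 0, [], [nat_lit 54, nat_lit 40, nat_lit 40, nat_lit 80, nat_lit 43, nat_lit 272, nat_lit 60, nat_lit 7]⟩, C1.Rw.none,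
 ⟨nat_lit 2236, nat_lit 2739, ⟨.ofNat (nat_lit 662956), .ofNat (nat_lit 722017), .ofNat (nat_lit 674165), .ofNat (nat_lit 733226), .ofNat (nat_lit 659578), .ofNat (nat_lit 716594), .ofNat (nat_lit 670965), .ofNat (nat_lit 727981)⟩, ⟨.ofNat (nat_lit 306433), .ofNat (nat_lit 412743), .ofNat (nat_lit 351268), .ofNat (nat_lit 457578), .ofNat (nat_lit 306337), .ofNat (nat_lit 408965), .ofNat (nat_lit 351886), .ofNat (nat_lit 454514)⟩⟩, [⟨nat_lit 16, nat_lit 48, nat_lit 100, nat_lit 87, nat_lit 267267815⟩]⟩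
noncomputable def p115_l45 : Lf2 := ⟨nat_lit 0, nat_lit 30, [nat_lit 15, nat_lit 5, nat_lit 5, nat_lit 20], false, nat_lit 160, nat_lit 232, nat_lit 4, nat_lit 360, ⟨nat_lit 162, nat_lit 838, nat_lit 0, nat_lit 7, nat_lit 283, nat_lit 838, nat_lit 152, nat_lit 0, nat_lit 0, nat_lit 0, nat_lit 0, nat_lit 0, nat_lit 38979401, nat_lit 20416980, nat_lit 7603619, nat_lit 4954562, true, true⟩,
 nat_lit 0, nat_lit 0, nat_lit 2291, nat_lit 3105, nat_lit 3114, nat_lit 1272, nat_lit 0, nat_lit 0, nat_lit 0, nat_lit 126, nat_lit 0, nat_lit 0, nat_lit 0, nat_lit 0, nat_lit 0, nat_lit 209500, nat_lit 0, nat_lit 0, [(nat_lit 26, [(nat_lit 0, nat_lit 838)])],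
 ⟨p115_k30, nat_lit 0, nat_lit 0, nat_lit 59, nat_lit 0, nat_lit 0, [nat_lit 793528800, nat_lit 1678738400, nat_lit 3396542400], [], [nat_lit 24427929372, nat_lit 25023847472, nat_lit 26090038160, nat_lit 26637262032, nat_lit 25977839000, nat_lit 26511105882, nat_lit 27461889539, nat_lit 27953146967], nat_lit 0, nat_lit 0, nat_lit 0, nat_lit 0, nat_lit 0, nat_lit 0, [], [nat_lit 54, nat_lit 40, nat_lit 40, nat_lit 80, nat_lit 43, nat_lit 272, nat_lit 60, nat_lit 7]⟩, ⟨p115_k31, nat_lit 0, nat_lit 0, nat_lit 593, nat_lit 0, nat_lit 635062, [nat_lit 759456000, nat_lit 1290816000, nat_lit 2277396000], [], [nat_lit 6309954026, nat_lit 6324564780, nat_lit 6444294973, nat_lit 6464614710, nat_lit 5505336321, nat_lit 5511016314, nat_lit 5573903514, nat_lit 5584129884], nat_lit 1271250, nat_lit 1271250, nat_lit 1271250, nat_lit 1271250, nat_lit 21650, nat_lit 2549250, [nat_lit 1100000, nat_lit 1785000, nat_lit 1271250], [nat_lit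 37, nat_lit 40, nat_lit 40, nat_lit 80, nat_lit 28, nat_lit 483, nat_lit 250, nat_lit 11]⟩,
 ⟨nat_lit 2236, nat_lit 2739, ⟨.ofNat (nat_lit 674165), .ofNat (nat_lit 733226), .ofNat (nat_lit 685373), .ofNat (nat_lit 744435), .ofNat (nat_lit 670965), .ofNat (nat_lit 727981), .ofNat (nat_lit 682352), .ofNat (nat_lit 739368)⟩, ⟨.ofNat (nat_lit 306433), .ofNat (nat_lit 412743), .ofNat (nat_lit 351268), .ofNat (nat_lit 457578), .ofNat (nat_lit 306337), .ofNat (nat_lit 408965), .ofNat (nat_lit 351886), .ofNat (nat_lit 454514)⟩⟩, [⟨nat_lit 4, nat_lit 100, nat_lit 48, nat_lit 87, nat_lit 332076411⟩, ⟨nat_lit 7, nat_lit 75, nat_lit 100, nat_lit 90, nat_lit 21602182⟩]⟩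
noncomputable def p115_l46 : Lf2 := ⟨nat_lit 0, nat_lit 30, [nat_lit 15, nat_lit 5, nat_lit 5, nat_lit 20], false, nat_lit 160, nat_lit 248, nat_lit 4, nat_lit 352, ⟨nat_lit 338, nat_lit 662, nat_lit 0, nat_lit 7, nat_lit 288, nat_lit 662, nat_lit 157, nat_lit 0, nat_lit 0, nat_lit 0, nat_lit 0, nat_lit 0, nat_lit 38308521, nat_lit 20796193, nat_lit 7895286, nat_lit 5014929, true, true⟩,
 nat_lit 0, nat_lit 0, nat_lit 4474, nat_lit 0, nat_lit 3485, nat_lit 2604, nat_lit 0, nat_lit 0, nat_lit 0, nat_lit 317, nat_lit 0, nat_lit 0, nat_lit 0, nat_lit 0, nat_lit 0, nat_lit 165500, nat_lit 0, nat_lit 0, [(nat_lit 26, [(nat_lit 0, nat_lit 662)])],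
 ⟨p115_k29, nat_lit 0, nat_lit 0, nat_lit 59, nat_lit 0, nat_lit 0, [nat_lit 823871201, nat_lit 2057300001, nat_lit 5217500000], [], [nat_lit 24079293781, nat_lit 25334311281, nat_lit 25855780121, nat_lit 27005245681, nat_lit 26124404278, nat_lit 27212750666, nat_lit 27654632742, nat_lit 28708651994], nat_lit 0, nat_lit 0, nat_lit 0, nat_lit 0, nat_lit 0, nat_lit 0, [], [nat_lit 93, nat_lit 40, nat_lit 40, nat_lit 80, nat_lit 63, nat_lit 289, nat_lit 75, nat_lit 7]⟩, ⟨p115_k15, nat_lit 0, nat_lit 0, nat_lit 597, nat_lit 0, nat_lit 652883, [nat_lit 1584544000, nat_lit 2693184000, nat_lit 4751604000], [], [nat_lit 11461061477, nat_lit 11522886115, nat_lit 11824832383, nat_lit 11883718160, nat_lit 10549601219, nat_lit 10587542774, nat_lit 10798177251, nat_lit 10830365595], nat_lit 1271250, nat_lit 1271250, nat_lit 1271250, nat_lit 1271250, nat_lit 21650, nat_lit 2492450, [nat_lit 1100000, nat_lit 1785000, nat_lit 1271250],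 [nat_lit 37, nat_lit 40, nat_lit 40, nat_lit 80, nat_lit 28, nat_lit 483, nat_lit 250, nat_lit 11]⟩,
 ⟨nat_lit 2236, nat_lit 3163, ⟨.ofNat (nat_lit 688370), .ofNat (nat_lit 749323), .ofNat (nat_lit 699431), .ofNat (nat_lit 760401), .ofNat (nat_lit 682352), .ofNat (nat_lit 739368), .ofNat (nat_lit 693723), .ofNat (nat_lit 750755)⟩, ⟨.ofNat (nat_lit 306116), .ofNat (nat_lit 440213), .ofNat (nat_lit 350426), .ofNat (nat_lit 484523), .ofNat (nat_lit 306337), .ofNat (nat_lit 431772), .ofNat (nat_lit 351886), .ofNat (nat_lit 477320)⟩⟩, [⟨nat_lit 4, nat_lit 100, nat_lit 53, nat_lit 87, nat_lit 376265098⟩, ⟨nat_lit 19, nat_lit 100, nat_lit 80, nat_lit 92, nat_lit 55022804⟩]⟩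
noncomputable def p115_l47 : Lf2 := ⟨nat_lit 0, nat_lit 30, [nat_lit 15, nat_lit 5, nat_lit 5, nat_lit 20], false, nat_lit 160, nat_lit 248, nat_lit 4, nat_lit 344, ⟨nat_lit 394, nat_lit 606, nat_lit 0, nat_lit 7, nat_lit 293, nat_lit 606, nat_lit 157, nat_lit 0, nat_lit 0, nat_lit 0, nat_lit 0, nat_lit 0, nat_lit 37956147, nat_lit 21198952, nat_lit 7844901, nat_lit 5027160, true, true⟩,
 nat_lit 0, nat_lit 0, nat_lit 4625, nat_lit 0, nat_lit 3577, nat_lit 2816, nat_lit 0, nat_lit 0, nat_lit 0, nat_lit 393, nat_lit 0, nat_lit 0, nat_lit 0, nat_lit 0, nat_lit 0, nat_lit 151500, nat_lit 0, nat_lit 0, [(nat_lit 26, [(nat_lit 0, nat_lit 606)])],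
 ⟨p115_k29, nat_lit 0, nat_lit 0, nat_lit 59, nat_lit 0, nat_lit 0, [nat_lit 833525601, nat_lit 2160900001, nat_lit 5595500000], [], [nat_lit 24150339397, nat_lit 25421024497, nat_lit 25943113785, nat_lit 27106222577, nat_lit 26193484185, nat_lit 27294383126, nat_lit 27735556949, nat_lit 28799208863], nat_lit 0, nat_lit 0, nat_lit 0, nat_lit 0, nat_lit 0, nat_lit 0, [], [nat_lit 93, nat_lit 40, nat_lit 40, nat_lit 80, nat_lit 63, nat_lit 289, nat_lit 75, nat_lit 7]⟩, ⟨p115_k16, nat_lit 0, nat_lit 0, nat_lit 602, nat_lit 0, nat_lit 672893, [nat_lit 1847072000, nat_lit 3139392000, nat_lit 5538852000], [], [nat_lit 12602538179, nat_lit 12675348620, nat_lit 13156185022, nat_lit 13291687361, nat_lit 11823452443, nat_lit 11872161282, nat_lit 12114972461, nat_lit 12154167537], nat_lit 1271250, nat_lit 1271250, nat_lit 1271250, nat_lit 1271250, nat_lit 21650, nat_lit 2435650, [nat_lit 1100000, nat_lit 1785000, nat_lit 1271250],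 [nat_lit 37, nat_lit 40, nat_lit 40, nat_lit 80, nat_lit 28, nat_lit 483, nat_lit 250, nat_lit 11]⟩,
 ⟨nat_lit 2236, nat_lit 3163, ⟨.ofNat (nat_lit 699431), .ofNat (nat_lit 760401), .ofNat (nat_lit 710480), .ofNat (nat_lit 771478), .ofNat (nat_lit 693723), .ofNat (nat_lit 750755), .ofNat (nat_lit 705082), .ofNat (nat_lit 762142)⟩, ⟨.ofNat (nat_lit 306116), .ofNat (nat_lit 440213), .ofNat (nat_lit 350426), .ofNat (nat_lit 484523), .ofNat (nat_lit 306337), .ofNat (nat_lit 431772), .ofNat (nat_lit 351886), .ofNat (nat_lit 477320)⟩⟩, [⟨nat_lit 4, nat_lit 100, nat_lit 53, nat_lit 87, nat_lit 399414372⟩, ⟨nat_lit 19, nat_lit 100, nat_lit 85, nat_lit 93, nat_lit 63226112⟩]⟩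
noncomputable def p115_l48 : Lf2 := ⟨nat_lit 0, nat_lit 25, [nat_lit 44, nat_lit 5, nat_lit 5, nat_lit 20], true, nat_lit 160, nat_lit 188, nat_lit 4, nat_lit 352, ⟨nat_lit 0, nat_lit 1000, nat_lit 0, nat_lit 7, nat_lit 279, nat_lit 1000, nat_lit 135, nat_lit 0, nat_lit 0, nat_lit 0, nat_lit 0, nat_lit 0, nat_lit 40207700, nat_lit 20378762, nat_lit 6413538, nat_lit 4770560, true, true⟩,
 nat_lit 0, nat_lit 0, nat_lit 0, nat_lit 3309, nat_lit 3095, nat_lit 0, nat_lit 0, nat_lit 0, nat_lit 0, nat_lit 0, nat_lit 0, nat_lit 0, nat_lit 0, nat_lit 0, nat_lit 0, nat_lit 250000, nat_lit 0, nat_lit 0, [(nat_lit 29, [(nat_lit 0, nat_lit 1000)])],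
 ⟨p115_k3, nat_lit 0, nat_lit 0, nat_lit 73, nat_lit 0, nat_lit 0, [nat_lit 781600001, nat_lit 1376400001, nat_lit 1786400000], [], [nat_lit 25127939951, nat_lit 25692874566, nat_lit 26662286771, nat_lit 27181986346, nat_lit 25679107726, nat_lit 26221292563, nat_lit 27150701034, nat_lit 27679754549], nat_lit 0, nat_lit 0, nat_lit 0, nat_lit 0, nat_lit 0, nat_lit 0, [], [nat_lit 55, nat_lit 40, nat_lit 40, nat_lit 80, nat_lit 3, nat_lit 260, nat_lit 50, nat_lit 8]⟩, C1.Rw.none,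
 ⟨nat_lit 1581, nat_lit 2237, ⟨.ofNat (nat_lit 659578), .ofNat (nat_lit 716594), .ofNat (nat_lit 682352), .ofNat (nat_lit 739368), .ofNat (nat_lit 655900), .ofNat (nat_lit 710536), .ofNat (nat_lit 679215), .ofNat (nat_lit 733851)⟩, ⟨.ofNat (nat_lit 306337), .ofNat (nat_lit 346248), .ofNat (nat_lit 329112), .ofNat (nat_lit 369022), .ofNat (nat_lit 305473), .ofNat (nat_lit 343718), .ofNat (nat_lit 328788), .ofNat (nat_lit 367033)⟩⟩, [⟨nat_lit 16, nat_lit 44, nat_lit 100, nat_lit 87, nat_lit 267678990⟩]⟩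
noncomputable def p115_l49 : Lf2 := ⟨nat_lit 0, nat_lit 25, [nat_lit 44, nat_lit 5, nat_lit 5, nat_lit 20], true, nat_lit 160, nat_lit 208, nat_lit 4, nat_lit 364, ⟨nat_lit 0, nat_lit 1000, nat_lit 0, nat_lit 7, nat_lit 277, nat_lit 1000, nat_lit 150, nat_lit 0, nat_lit 0, nat_lit 0, nat_lit 0, nat_lit 0, nat_lit 39640419, nat_lit 19895580, nat_lit 7464001, nat_lit 4906430, true, true⟩,
 nat_lit 0, nat_lit 0, nat_lit 0, nat_lit 4070, nat_lit 3052, nat_lit 0, nat_lit 0, nat_lit 0, nat_lit 0, nat_lit 0, nat_lit 0, nat_lit 0, nat_lit 0, nat_lit 0, nat_lit 0, nat_lit 250000, nat_lit 0, nat_lit 0, [(nat_lit 29, [(nat_lit 0, nat_lit 1000)])],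
 ⟨p115_k3, nat_lit 0, nat_lit 0, nat_lit 73, nat_lit 0, nat_lit 0, [nat_lit 781600001, nat_lit 1376400001, nat_lit 1786400000], [], [nat_lit 25141845721, nat_lit 25703391205, nat_lit 26670183033, nat_lit 27186933453, nat_lit 26088822789, nat_lit 26611736742, nat_lit 27510548861, nat_lit 27992684489], nat_lit 0, nat_lit 0, nat_lit 0, nat_lit 0, nat_lit 0, nat_lit 0, [], [nat_lit 55, nat_lit 40, nat_lit 40, nat_lit 80, nat_lit 3, nat_lit 272, nat_lit 60, nat_lit 8]⟩, C1.Rw.none,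
 ⟨nat_lit 1581, nat_lit 2237, ⟨.ofNat (nat_lit 659578), .ofNat (nat_lit 716594), .ofNat (nat_lit 670965), .ofNat (nat_lit 727981), .ofNat (nat_lit 655900), .ofNat (nat_lit 710536), .ofNat (nat_lit 667558), .ofNat (nat_lit 722193)⟩, ⟨.ofNat (nat_lit 329112), .ofNat (nat_lit 397530), .ofNat (nat_lit 351886), .ofNat (nat_lit 420305), .ofNat (nat_lit 328788), .ofNat (nat_lit 394351), .ofNat (nat_lit 352103), .ofNat (nat_lit 417666)⟩⟩, [⟨nat_lit 16, nat_lit 38, nat_lit 100, nat_lit 90, nat_lit 290278077⟩]⟩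
noncomputable def p115_l50 : Lf2 := ⟨nat_lit 0, nat_lit 30, [nat_lit 15, nat_lit 5, nat_lit 5, nat_lit 20], false, nat_lit 160, nat_lit 208, nat_lit 4, nat_lit 364, ⟨nat_lit 248, nat_lit 752, nat_lit 0, nat_lit 7, nat_lit 277, nat_lit 752, nat_lit 150, nat_lit 0, nat_lit 0, nat_lit 0, nat_lit 0, nat_lit 0, nat_lit 39591527, nat_lit 19937148, nat_lit 7471325, nat_lit 4909788, true, true⟩,
 nat_lit 0, nat_lit 0, nat_lit 4894, nat_lit 682, nat_lit 3823, nat_lit 2590, nat_lit 0, nat_lit 0, nat_lit 0, nat_lit 168, nat_lit 0, nat_lit 0, nat_lit 0, nat_lit 0, nat_lit 0, nat_lit 188000, nat_lit 0, nat_lit 0, [(nat_lit 29, [(nat_lit 0, nat_lit 752)])],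
 ⟨p115_k5, nat_lit 0, nat_lit 0, nat_lit 71, nat_lit 0, nat_lit 0, [nat_lit 820387201, nat_lit 2330630400, nat_lit 3592370134], [], [nat_lit 25846742430, nat_lit 26157899126, nat_lit 27482831618, nat_lit 27767646346, nat_lit 26755742813, nat_lit 27044283787, nat_lit 28267896391, nat_lit 28532475465], nat_lit 0, nat_lit 0, nat_lit 0, nat_lit 0, nat_lit 0, nat_lit 0, [], [nat_lit 57, nat_lit 40, nat_lit 40, nat_lit 80, nat_lit 7, nat_lit 272, nat_lit 60, nat_lit 7]⟩, ⟨p115_k6, nat_lit 0, nat_lit 0, nat_lit 466, nat_lit 0, nat_lit 244987, [nat_lit 1162624000, nat_lit 2440816000, nat_lit 4067200000], [], [nat_lit 9834193066, nat_lit 9878853903, nat_lit 10341047906, nat_lit 10411885654, nat_lit 8325003959, nat_lit 8344492929, nat_lit 8541441754, nat_lit 8551610868], nat_lit 1271250, nat_lit 1271250, nat_lit 1271250, nat_lit 1271250, nat_lit 21650, nat_lit 2577650, [nat_lit 1100000, nat_lit 2127500, nat_lit 1271250], [nat_lit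 83, nat_lit 40, nat_lit 40, nat_lit 80, nat_lit 73, nat_lit 483, nat_lit 250, nat_lit 10]⟩,
 ⟨nat_lit 1936, nat_lit 2237, ⟨.ofNat (nat_lit 659578), .ofNat (nat_lit 716594), .ofNat (nat_lit 670965), .ofNat (nat_lit 727981), .ofNat (nat_lit 657798), .ofNat (nat_lit 713688), .ofNat (nat_lit 669304), .ofNat (nat_lit 725193)⟩, ⟨.ofNat (nat_lit 329112), .ofNat (nat_lit 397530), .ofNat (nat_lit 351886), .ofNat (nat_lit 420305), .ofNat (nat_lit 329055), .ofNat (nat_lit 396122), .ofNat (nat_lit 352066), .ofNat (nat_lit 419133)⟩⟩, [⟨nat_lit 16, nat_lit 41, nat_lit 100, nat_lit 89, nat_lit 373039155⟩, ⟨nat_lit 7, nat_lit 66, nat_lit 100, nat_lit 92, nat_lit 25036560⟩]⟩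
noncomputable def p115_l51 : Lf2 := ⟨nat_lit 0, nat_lit 30, [nat_lit 15, nat_lit 5, nat_lit 5, nat_lit 20], true, nat_lit 160, nat_lit 196, nat_lit 4, nat_lit 364, ⟨nat_lit 0, nat_lit 1000, nat_lit 0, nat_lit 7, nat_lit 276, nat_lit 1000, nat_lit 146, nat_lit 0, nat_lit 0, nat_lit 0, nat_lit 0, nat_lit 0, nat_lit 39856762, nat_lit 19917367, nat_lit 7225871, nat_lit 4872262, true, true⟩,
 nat_lit 0, nat_lit 0, nat_lit 0, nat_lit 7290, nat_lit 3092, nat_lit 0, nat_lit 0, nat_lit 0, nat_lit 0, nat_lit 0, nat_lit 0, nat_lit 0, nat_lit 0, nat_lit 0, nat_lit 0, nat_lit 250000, nat_lit 0, nat_lit 0, [(nat_lit 29, [(nat_lit 0, nat_lit 1000)])],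
 ⟨p115_k7, nat_lit 0, nat_lit 0, nat_lit 73, nat_lit 0, nat_lit 0, [nat_lit 781600001, nat_lit 1376400001, nat_lit 1786400000], [], [nat_lit 25411259203, nat_lit 25693608285, nat_lit 26922584583, nat_lit 27182331493, nat_lit 26105399085, nat_lit 26373132940, nat_lit 27537612675, nat_lit 27820021692], nat_lit 0, nat_lit 0, nat_lit 0, nat_lit 0, nat_lit 0, nat_lit 0, [], [nat_lit 55, nat_lit 40, nat_lit 40, nat_lit 80, nat_lit 3, nat_lit 260, nat_lit 50, nat_lit 8]⟩, C1.Rw.none,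
 ⟨nat_lit 1581, nat_lit 1937, ⟨.ofNat (nat_lit 657798), .ofNat (nat_lit 713688), .ofNat (nat_lit 669304), .ofNat (nat_lit 725193), .ofNat (nat_lit 655900), .ofNat (nat_lit 710536), .ofNat (nat_lit 667558), .ofNat (nat_lit 722193)⟩, ⟨.ofNat (nat_lit 329055), .ofNat (nat_lit 379355), .ofNat (nat_lit 352066), .ofNat (nat_lit 402366), .ofNat (nat_lit 328788), .ofNat (nat_lit 377960), .ofNat (nat_lit 352103), .ofNat (nat_lit 401275)⟩⟩, [⟨nat_lit 13, nat_lit 39, nat_lit 83, nat_lit 100, nat_lit 457181184⟩, ⟨nat_lit 16, nat_lit 38, nat_lit 100, nat_lit 92, nat_lit 285518130⟩]⟩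
noncomputable def p115_l52 : Lf2 := ⟨nat_lit 0, nat_lit 25, [nat_lit 44, nat_lit 5, nat_lit 5, nat_lit 20], false, nat_lit 160, nat_lit 208, nat_lit 4, nat_lit 360, ⟨nat_lit 109, nat_lit 891, nat_lit 0, nat_lit 7, nat_lit 281, nat_lit 891, nat_lit 150, nat_lit 0, nat_lit 0, nat_lit 0, nat_lit 0, nat_lit 0, nat_lit 39266083, nat_lit 20316696, nat_lit 7417221, nat_lit 4922235, true, true⟩,
 nat_lit 0, nat_lit 0, nat_lit 1935, nat_lit 0, nat_lit 3332, nat_lit 1075, nat_lit 0, nat_lit 0, nat_lit 0, nat_lit 70, nat_lit 0, nat_lit 0, nat_lit 0, nat_lit 0, nat_lit 0, nat_lit 222750, nat_lit 0, nat_lit 0, [(nat_lit 29, [(nat_lit 0, nat_lit 891)])],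
 ⟨p115_k3, nat_lit 0, nat_lit 0, nat_lit 73, nat_lit 0, nat_lit 0, [nat_lit 798647601, nat_lit 1737364400, nat_lit 2272932400], [], [nat_lit 25412260920, nat_lit 25995875164, nat_lit 26979729912, nat_lit 27515684132, nat_lit 26345446196, nat_lit 26888032053, nat_lit 27800012348, nat_lit 28299224896], nat_lit 0, nat_lit 0, nat_lit 0, nat_lit 0, nat_lit 0, nat_lit 0, [], [nat_lit 55, nat_lit 40, nat_lit 40, nat_lit 80, nat_lit 3, nat_lit 272, nat_lit 60, nat_lit 8]⟩, ⟨p115_k32, nat_lit 0, nat_lit 0, nat_lit 579, nat_lit 0, nat_lit 585434, [nat_lit 510992000, nat_lit 1072778000, nat_lit 1532322000], [], [nat_lit 4228270123, nat_lit 4249387788, nat_lit 4364337437, nat_lit 4380879242, nat_lit 3621911407, nat_lit 3622992976, nat_lit 3689968816, nat_lit 3701295741], nat_lit 1271250, nat_lit 1271250, nat_lit 1271250, nat_lit 1271250, nat_lit 21650, nat_lit 2549250, [nat_lit 1100000, nat_lit 2127500, nat_lit 1271250], [nat_lit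 56, nat_lit 40, nat_lit 40, nat_lit 80, nat_lit 32, nat_lit 483, nat_lit 250, nat_lit 11]⟩,
 ⟨nat_lit 1581, nat_lit 2237, ⟨.ofNat (nat_lit 670965), .ofNat (nat_lit 727981), .ofNat (nat_lit 682352), .ofNat (nat_lit 739368), .ofNat (nat_lit 667558), .ofNat (nat_lit 722193), .ofNat (nat_lit 679215), .ofNat (nat_lit 733851)⟩, ⟨.ofNat (nat_lit 329112), .ofNat (nat_lit 397530), .ofNat (nat_lit 351886), .ofNat (nat_lit 420305), .ofNat (nat_lit 328788), .ofNat (nat_lit 394351), .ofNat (nat_lit 352103), .ofNat (nat_lit 417666)⟩⟩, [⟨nat_lit 4, nat_lit 100, nat_lit 38, nat_lit 90, nat_lit 344701537⟩, ⟨nat_lit 19, nat_lit 100, nat_lit 71, nat_lit 93, nat_lit 12674493⟩]⟩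
noncomputable def p115_l53 : Lf2 := ⟨nat_lit 0, nat_lit 30, [nat_lit 15, nat_lit 5, nat_lit 5, nat_lit 20], false, nat_lit 160, nat_lit 208, nat_lit 4, nat_lit 360, ⟨nat_lit 287, nat_lit 713, nat_lit 0, nat_lit 7, nat_lit 282, nat_lit 713, nat_lit 150, nat_lit 0, nat_lit 0, nat_lit 0, nat_lit 0, nat_lit 0, nat_lit 39220023, nat_lit 20355258, nat_lit 7424719, nat_lit 4925360, true, true⟩,
 nat_lit 0, nat_lit 0, nat_lit 4692, nat_lit 0, nat_lit 3918, nat_lit 2606, nat_lit 0, nat_lit 0, nat_lit 0, nat_lit 152, nat_lit 0, nat_lit 0, nat_lit 0, nat_lit 0, nat_lit 0, nat_lit 178250, nat_lit 0, nat_lit 0, [(nat_lit 29, [(nat_lit 0, nat_lit 713)])],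
 ⟨p115_k5, nat_lit 0, nat_lit 0, nat_lit 71, nat_lit 0, nat_lit 0, [nat_lit 826486800, nat_lit 2452887600, nat_lit 3815252534], [], [nat_lit 25938277580, nat_lit 26253178083, nat_lit 27587643588, nat_lit 27875716103, nat_lit 26842598605, nat_lit 27134476777, nat_lit 28365894353, nat_lit 28633370404], nat_lit 0, nat_lit 0, nat_lit 0, nat_lit 0, nat_lit 0, nat_lit 0, [], [nat_lit 57, nat_lit 40, nat_lit 40, nat_lit 80, nat_lit 7, nat_lit 272, nat_lit 60, nat_lit 7]⟩, ⟨p115_k8, nat_lit 0, nat_lit 0, nat_lit 422, nat_lit 0, nat_lit 279589, [nat_lit 1345456000, nat_lit 2824654000, nat_lit 4034646000], [], [nat_lit 11440970855, nat_lit 11512006233, nat_lit 11875804143, nat_lit 11933252872, nat_lit 10071592003, nat_lit 10085709405, nat_lit 10235971343, nat_lit 10242423125], nat_lit 1271250, nat_lit 1271250, nat_lit 1271250, nat_lit 1271250, nat_lit 21650, nat_lit 2549250, [nat_lit 1100000, nat_lit 2127500, nat_lit 1271250],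 [nat_lit 56, nat_lit 40, nat_lit 40, nat_lit 80, nat_lit 32, nat_lit 483, nat_lit 250, nat_lit 11]⟩,
 ⟨nat_lit 1936, nat_lit 2237, ⟨.ofNat (nat_lit 670965), .ofNat (nat_lit 727981), .ofNat (nat_lit 682352), .ofNat (nat_lit 739368), .ofNat (nat_lit 669304), .ofNat (nat_lit 725193), .ofNat (nat_lit 680809), .ofNat (nat_lit 736698)⟩, ⟨.ofNat (nat_lit 329112), .ofNat (nat_lit 397530), .ofNat (nat_lit 351886), .ofNat (nat_lit 420305), .ofNat (nat_lit 329055), .ofNat (nat_lit 396122), .ofNat (nat_lit 352066), .ofNat (nat_lit 419133)⟩⟩, [⟨nat_lit 4, nat_lit 100, nat_lit 41, nat_lit 89, nat_lit 391970492⟩, ⟨nat_lit 7, nat_lit 71, nat_lit 100, nat_lit 93, nat_lit 34947735⟩]⟩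
noncomputable def p115_l54 : Lf2 := ⟨nat_lit 0, nat_lit 30, [nat_lit 15, nat_lit 5, nat_lit 5, nat_lit 20], false, nat_lit 160, nat_lit 196, nat_lit 4, nat_lit 360, ⟨nat_lit 210, nat_lit 790, nat_lit 0, nat_lit 7, nat_lit 281, nat_lit 790, nat_lit 146, nat_lit 0, nat_lit 0, nat_lit 0, nat_lit 0, nat_lit 0, nat_lit 39476876, nat_lit 20342574, nat_lit 7180550, nat_lit 4888447, true, true⟩,
 nat_lit 0, nat_lit 0, nat_lit 3433, nat_lit 0, nat_lit 3619, nat_lit 1907, nat_lit 0, nat_lit 0, nat_lit 0, nat_lit 111, nat_lit 0, nat_lit 0, nat_lit 0, nat_lit 0, nat_lit 0, nat_lit 197500, nat_lit 0, nat_lit 0, [(nat_lit 29, [(nat_lit 0, nat_lit 790)])],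
 ⟨p115_k7, nat_lit 0, nat_lit 0, nat_lit 73, nat_lit 0, nat_lit 0, [nat_lit 814444000, nat_lit 2071836001, nat_lit 2723756000], [], [nat_lit 25957036953, nat_lit 26260154314, nat_lit 27539317613, nat_lit 27817136670, nat_lit 26630016533, nat_lit 26916826958, nat_lit 28124494685, nat_lit 28408140754], nat_lit 0, nat_lit 0, nat_lit 0, nat_lit 0, nat_lit 0, nat_lit 0, [], [nat_lit 55, nat_lit 40, nat_lit 40, nat_lit 80, nat_lit 3, nat_lit 260, nat_lit 50, nat_lit 8]⟩, ⟨p115_k8, nat_lit 0, nat_lit 0, nat_lit 460, nat_lit 0, nat_lit 375987, [nat_lit 984480000, nat_lit 2066820000, nat_lit 2952180000], [], [nat_lit 8374306706, nat_lit 8426284174, nat_lit 8692487796, nat_lit 8734523061, nat_lit 7372111985, nat_lit 7382439189, nat_lit 7492385549, nat_lit 7497103350], nat_lit 1271250, nat_lit 1271250, nat_lit 1271250, nat_lit 1271250, nat_lit 21650, nat_lit 2549250, [nat_lit 1100000, nat_lit 2127500, nat_lit 1271250], [nat_lit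 56, nat_lit 40, nat_lit 40, nat_lit 80, nat_lit 32, nat_lit 483, nat_lit 250, nat_lit 11]⟩,
 ⟨nat_lit 1581, nat_lit 1937, ⟨.ofNat (nat_lit 669304), .ofNat (nat_lit 725193), .ofNat (nat_lit 680809), .ofNat (nat_lit 736698), .ofNat (nat_lit 667558), .ofNat (nat_lit 722193), .ofNat (nat_lit 679215), .ofNat (nat_lit 733851)⟩, ⟨.ofNat (nat_lit 329055), .ofNat (nat_lit 379355), .ofNat (nat_lit 352066), .ofNat (nat_lit 402366), .ofNat (nat_lit 328788), .ofNat (nat_lit 377960), .ofNat (nat_lit 352103), .ofNat (nat_lit 401275)⟩⟩, [⟨nat_lit 4, nat_lit 100, nat_lit 35, nat_lit 90, nat_lit 424810654⟩, ⟨nat_lit 7, nat_lit 71, nat_lit 100, nat_lit 93, nat_lit 25572348⟩]⟩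
noncomputable def p115_l55 : Lf2 := ⟨nat_lit 0, nat_lit 30, [nat_lit 15, nat_lit 5, nat_lit 5, nat_lit 20], true, nat_lit 160, nat_lit 184, nat_lit 4, nat_lit 364, ⟨nat_lit 0, nat_lit 1000, nat_lit 0, nat_lit 7, nat_lit 271, nat_lit 1000, nat_lit 137, nat_lit 0, nat_lit 0, nat_lit 0, nat_lit 0, nat_lit 0, nat_lit 40764426, nat_lit 19598678, nat_lit 6636896, nat_lit 4762871, true, true⟩,
 nat_lit 0, nat_lit 0, nat_lit 0, nat_lit 7068, nat_lit 3119, nat_lit 0, nat_lit 0, nat_lit 0, nat_lit 0, nat_lit 0, nat_lit 0, nat_lit 0, nat_lit 0, nat_lit 0, nat_lit 0, nat_lit 250000, nat_lit 0, nat_lit 0, [(nat_lit 29, [(nat_lit 0, nat_lit 1000)])],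
 ⟨p115_k24, nat_lit 0, nat_lit 0, nat_lit 75, nat_lit 0, nat_lit 0, [nat_lit 781600001, nat_lit 1376400001, nat_lit 1786400000], [], [nat_lit 25687004814, nat_lit 26253831037, nat_lit 26731559064, nat_lit 27315454237, nat_lit 26139240727, nat_lit 26686464418, nat_lit 27147382589, nat_lit 27741578282], nat_lit 0, nat_lit 0, nat_lit 0, nat_lit 0, nat_lit 0, nat_lit 0, [], [nat_lit 55, nat_lit 40, nat_lit 40, nat_lit 80, nat_lit 3, nat_lit 260, nat_lit 50, nat_lit 8]⟩, C1.Rw.none,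
 ⟨nat_lit 0, nat_lit 1582, ⟨.ofNat (nat_lit 655899), .ofNat (nat_lit 694143), .ofNat (nat_lit 667557), .ofNat (nat_lit 705801), .ofNat (nat_lit 649998), .ofNat (nat_lit 684997), .ofNat (nat_lit 662498), .ofNat (nat_lit 697497)⟩, ⟨.ofNat (nat_lit 305469), .ofNat (nat_lit 338250), .ofNat (nat_lit 352101), .ofNat (nat_lit 384882), .ofNat (nat_lit 299995), .ofNat (nat_lit 329995), .ofNat (nat_lit 349997), .ofNat (nat_lit 379997)⟩⟩, [⟨nat_lit 13, nat_lit 32, nat_lit 87, nat_lit 100, nat_lit 573604010⟩, ⟨nat_lit 16, nat_lit 31, nat_lit 100, nat_lit 92, nat_lit 383129187⟩]⟩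
noncomputable def p115_l56 : Lf2 := ⟨nat_lit 0, nat_lit 30, [nat_lit 15, nat_lit 5, nat_lit 5, nat_lit 20], false, nat_lit 160, nat_lit 184, nat_lit 4, nat_lit 360, ⟨nat_lit 134, nat_lit 866, nat_lit 0, nat_lit 7, nat_lit 279, nat_lit 866, nat_lit 137, nat_lit 0, nat_lit 0, nat_lit 0, nat_lit 0, nat_lit 0, nat_lit 40092696, nat_lit 20340286, nat_lit 6567018, nat_lit 4793217, true, true⟩,
 nat_lit 0, nat_lit 0, nat_lit 2410, nat_lit 0, nat_lit 3419, nat_lit 1338, nat_lit 0, nat_lit 0, nat_lit 0, nat_lit 87, nat_lit 0, nat_lit 0, nat_lit 0, nat_lit 0, nat_lit 0, nat_lit 216500, nat_lit 0, nat_lit 0, [(nat_lit 29, [(nat_lit 0, nat_lit 866)])],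
 ⟨p115_k24, nat_lit 0, nat_lit 0, nat_lit 78, nat_lit 0, nat_lit 0, [nat_lit 802557601, nat_lit 1820154401, nat_lit 2384522400], [], [nat_lit 26057387314, nat_lit 26647858637, nat_lit 27588464870, nat_lit 28183675736, nat_lit 26500950737, nat_lit 27070535498, nat_lit 27976784728, nat_lit 28579045211], nat_lit 0, nat_lit 0, nat_lit 0, nat_lit 0, nat_lit 0, nat_lit 0, [], [nat_lit 55, nat_lit 40, nat_lit 40, nat_lit 80, nat_lit 3, nat_lit 260, nat_lit 50, nat_lit 8]⟩, ⟨p115_k8, nat_lit 0, nat_lit 0, nat_lit 789, nat_lit 0, nat_lit 1058256, [nat_lit 628192000, nat_lit 1318828000, nat_lit 1883772000], [], [nat_lit 5348479474, nat_lit 5357516979, nat_lit 5435131290, nat_lit 5440280190, nat_lit 4395948963, nat_lit 4397553420, nat_lit 4517849430, nat_lit 4535675317], nat_lit 1271250, nat_lit 1271250, nat_lit 1271250, nat_lit 1271250, nat_lit 21650, nat_lit 2549250, [nat_lit 1100000, nat_lit 2127500, nat_lit 1271250], [nat_lit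 56, nat_lit 40, nat_lit 40, nat_lit 80, nat_lit 32, nat_lit 483, nat_lit 250, nat_lit 11]⟩,
 ⟨nat_lit 0, nat_lit 1582, ⟨.ofNat (nat_lit 667557), .ofNat (nat_lit 722191), .ofNat (nat_lit 679215), .ofNat (nat_lit 733849), .ofNat (nat_lit 662498), .ofNat (nat_lit 712497), .ofNat (nat_lit 674999), .ofNat (nat_lit 724997)⟩, ⟨.ofNat (nat_lit 305469), .ofNat (nat_lit 338250), .ofNat (nat_lit 352101), .ofNat (nat_lit 384882), .ofNat (nat_lit 299995), .ofNat (nat_lit 329995), .ofNat (nat_lit 349997), .ofNat (nat_lit 379997)⟩⟩, [⟨nat_lit 13, nat_lit 33, nat_lit 85, nat_lit 100, nat_lit 448673159⟩, ⟨nat_lit 16, nat_lit 31, nat_lit 100, nat_lit 92, nat_lit 444711559⟩, ⟨nat_lit 19, nat_lit 100, nat_lit 75, nat_lit 90, nat_lit 14230474⟩]⟩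
noncomputable def p115_l57 : Lf2 := ⟨nat_lit 0, nat_lit 30, [nat_lit 15, nat_lit 5, nat_lit 5, nat_lit 20], false, nat_lit 160, nat_lit 208, nat_lit 4, nat_lit 160, ⟨nat_lit 134, nat_lit 866, nat_lit 0, nat_lit 7, nat_lit 287, nat_lit 866, nat_lit 144, nat_lit 0, nat_lit 0, nat_lit 0, nat_lit 0, nat_lit 0, nat_lit 39094401, nat_lit 20958079, nat_lit 6947520, nat_lit 4884648, true, true⟩,
 nat_lit 0, nat_lit 0, nat_lit 2197, nat_lit 0, nat_lit 3454, nat_lit 1278, nat_lit 0, nat_lit 0, nat_lit 0, nat_lit 96, nat_lit 0, nat_lit 0, nat_lit 0, nat_lit 0, nat_lit 0, nat_lit 216500, nat_lit 0, nat_lit 0, [(nat_lit 29, [(nat_lit 0, nat_lit 866)])],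
 ⟨p115_k5, nat_lit 0, nat_lit 0, nat_lit 78, nat_lit 0, nat_lit 0, [nat_lit 802557601, nat_lit 1973263200, nat_lit 2940867734], [], [nat_lit 25608706140, nat_lit 26795165976, nat_lit 27193225364, nat_lit 28281868544, nat_lit 26535882135, nat_lit 27638196509, nat_lit 28004757179, nat_lit 29018063591], nat_lit 0, nat_lit 0, nat_lit 0, nat_lit 0, nat_lit 0, nat_lit 0, [], [nat_lit 57, nat_lit 40, nat_lit 40, nat_lit 80, nat_lit 7, nat_lit 272, nat_lit 60, nat_lit 7]⟩, ⟨p115_k18, nat_lit 0, nat_lit 0, nat_lit 800, nat_lit 0, nat_lit 1094530, [nat_lit 628192000, nat_lit 1318828000, nat_lit 1883772000], [], [nat_lit 5055066859, nat_lit 5053435045, nat_lit 5117602122, nat_lit 5129595799, nat_lit 4162009652, nat_lit 4152889896, nat_lit 4179381304, nat_lit 4183648040], nat_lit 1271250, nat_lit 1271250, nat_lit 1271250, nat_lit 1271250, nat_lit 21650, nat_lit 1100001, [nat_lit 1100000, nat_lit 2127500, nat_lit 1271250], [nat_lit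 56, nat_lit 40, nat_lit 40, nat_lit 80, nat_lit 32, nat_lit 428, nat_lit 200, nat_lit 9]⟩,
 ⟨nat_lit 0, nat_lit 2237, ⟨.ofNat (nat_lit 682352), .ofNat (nat_lit 739366), .ofNat (nat_lit 705063), .ofNat (nat_lit 762141), .ofNat (nat_lit 674999), .ofNat (nat_lit 724997), .ofNat (nat_lit 699935), .ofNat (nat_lit 749998)⟩, ⟨.ofNat (nat_lit 306334), .ofNat (nat_lit 374750), .ofNat (nat_lit 351885), .ofNat (nat_lit 420300), .ofNat (nat_lit 299996), .ofNat (nat_lit 359993), .ofNat (nat_lit 349998), .ofNat (nat_lit 409994)⟩⟩, [⟨nat_lit 16, nat_lit 32, nat_lit 100, nat_lit 88, nat_lit 440539154⟩, ⟨nat_lit 9, nat_lit 100, nat_lit 87, nat_lit 43, nat_lit 12277913⟩]⟩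
noncomputable def p115_l58 : Lf2 := ⟨nat_lit 0, nat_lit 25, [nat_lit 44, nat_lit 5, nat_lit 5, nat_lit 20], false, nat_lit 160, nat_lit 208, nat_lit 160, nat_lit 352, ⟨nat_lit 116, nat_lit 884, nat_lit 0, nat_lit 7, nat_lit 286, nat_lit 884, nat_lit 145, nat_lit 0, nat_lit 0, nat_lit 0, nat_lit 0, nat_lit 0, nat_lit 39123869, nat_lit 20826514, nat_lit 7049617, nat_lit 4893619, true, true⟩,
 nat_lit 0, nat_lit 0, nat_lit 1844, nat_lit 0, nat_lit 3349, nat_lit 1073, nat_lit 0, nat_lit 0, nat_lit 0, nat_lit 76, nat_lit 0, nat_lit 0, nat_lit 0, nat_lit 0, nat_lit 0, nat_lit 221000, nat_lit 0, nat_lit 0, [(nat_lit 29, [(nat_lit 0, nat_lit 884)])],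
 ⟨p115_k3, nat_lit 0, nat_lit 0, nat_lit 73, nat_lit 0, nat_lit 0, [nat_lit 799742400, nat_lit 1760545600, nat_lit 2304177600], [], [nat_lit 25429944490, nat_lit 26014898623, nat_lit 26999789334, nat_lit 27536909499, nat_lit 26362292407, nat_lit 26906072630, nat_lit 27818852421, nat_lit 28319101782], nat_lit 0, nat_lit 0, nat_lit 0, nat_lit 0, nat_lit 0, nat_lit 0, [], [nat_lit 55, nat_lit 40, nat_lit 40, nat_lit 80, nat_lit 3, nat_lit 272, nat_lit 60, nat_lit 8]⟩, ⟨p115_k33, nat_lit 0, nat_lit 0, nat_lit 563, nat_lit 0, nat_lit 814141, [nat_lit 543808000, nat_lit 1141672000, nat_lit 1630728000], [], [nat_lit 3599648876, nat_lit 3616767112, nat_lit 3709712170, nat_lit 3722934807, nat_lit 3775406740, nat_lit 3778420246, nat_lit 3844040243, nat_lit 3855805088], nat_lit 1271250, nat_lit 1271250, nat_lit 1271250, nat_lit 1271250, nat_lit 1100001, nat_lit 2744000, [nat_lit 1100000, nat_lit 2127500, nat_lit 1271250], [nat_lit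 56, nat_lit 40, nat_lit 40, nat_lit 80, nat_lit 32, nat_lit 483, nat_lit 250, nat_lit 10]⟩,
 ⟨nat_lit 1581, nat_lit 2237, ⟨.ofNat (nat_lit 682352), .ofNat (nat_lit 739368), .ofNat (nat_lit 693740), .ofNat (nat_lit 750755), .ofNat (nat_lit 679215), .ofNat (nat_lit 733851), .ofNat (nat_lit 690873), .ofNat (nat_lit 745508)⟩, ⟨.ofNat (nat_lit 306337), .ofNat (nat_lit 374756), .ofNat (nat_lit 351886), .ofNat (nat_lit 420305), .ofNat (nat_lit 305473), .ofNat (nat_lit 371036), .ofNat (nat_lit 352103), .ofNat (nat_lit 417666)⟩⟩, [⟨nat_lit 4, nat_lit 100, nat_lit 38, nat_lit 87, nat_lit 374464885⟩, ⟨nat_lit 19, nat_lit 100, nat_lit 69, nat_lit 96, nat_lit 31684268⟩]⟩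
noncomputable def p115_l59 : Lf2 := ⟨nat_lit 0, nat_lit 25, [nat_lit 44, nat_lit 5, nat_lit 5, nat_lit 20], false, nat_lit 160, nat_lit 208, nat_lit 160, nat_lit 344, ⟨nat_lit 135, nat_lit 865, nat_lit 0, nat_lit 7, nat_lit 290, nat_lit 865, nat_lit 145, nat_lit 0, nat_lit 0, nat_lit 0, nat_lit 0, nat_lit 0, nat_lit 38748886, nat_lit 21247031, nat_lit 7004083, nat_lit 4907322, true, true⟩,
 nat_lit 0, nat_lit 0, nat_lit 1915, nat_lit 0, nat_lit 3398, nat_lit 1166, nat_lit 0, nat_lit 0, nat_lit 0, nat_lit 91, nat_lit 0, nat_lit 0, nat_lit 0, nat_lit 0, nat_lit 0, nat_lit 216250, nat_lit 0, nat_lit 0, [(nat_lit 29, [(nat_lit 0, nat_lit 865)])],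
 ⟨p115_k3, nat_lit 0, nat_lit 0, nat_lit 73, nat_lit 0, nat_lit 0, [nat_lit 802714000, nat_lit 1823466001, nat_lit 2388986000], [], [nat_lit 25477018781, nat_lit 26065834947, nat_lit 27053711669, nat_lit 27594192499, nat_lit 26406953134, nat_lit 26954175941, nat_lit 27869260162, nat_lit 28372497984], nat_lit 0, nat_lit 0, nat_lit 0, nat_lit 0, nat_lit 0, nat_lit 0, [], [nat_lit 55, nat_lit 40, nat_lit 40, nat_lit 80, nat_lit 3, nat_lit 272, nat_lit 60, nat_lit 8]⟩, ⟨p115_k34, nat_lit 0, nat_lit 0, nat_lit 563, nat_lit 0, nat_lit 817881, [nat_lit 632880000, nat_lit 1328670000, nat_lit 1897830000], [], [nat_lit 4100473814, nat_lit 4120841756, nat_lit 4223135111, nat_lit 4239221852, nat_lit 4282408792, nat_lit 4287997764, nat_lit 4369662592, nat_lit 4383546056], nat_lit 1271250, nat_lit 1271250, nat_lit 1271250, nat_lit 1271250, nat_lit 1100001, nat_lit 2675500, [nat_lit 1100000, nat_lit 2127500, nat_lit 1271250], [nat_lit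 56, nat_lit 40, nat_lit 40, nat_lit 80, nat_lit 32, nat_lit 483, nat_lit 250, nat_lit 10]⟩,
 ⟨nat_lit 1581, nat_lit 2237, ⟨.ofNat (nat_lit 693740), .ofNat (nat_lit 750755), .ofNat (nat_lit 705117), .ofNat (nat_lit 762142), .ofNat (nat_lit 690873), .ofNat (nat_lit 745508), .ofNat (nat_lit 702521), .ofNat (nat_lit 757166)⟩, ⟨.ofNat (nat_lit 306337), .ofNat (nat_lit 374756), .ofNat (nat_lit 351886), .ofNat (nat_lit 420305), .ofNat (nat_lit 305473), .ofNat (nat_lit 371036), .ofNat (nat_lit 352103), .ofNat (nat_lit 417666)⟩⟩, [⟨nat_lit 4, nat_lit 100, nat_lit 38, nat_lit 87, nat_lit 392251878⟩, ⟨nat_lit 19, nat_lit 100, nat_lit 74, nat_lit 98, nat_lit 35783633⟩]⟩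
noncomputable def p115_l60 : Lf2 := ⟨nat_lit 0, nat_lit 30, [nat_lit 15, nat_lit 5, nat_lit 5, nat_lit 20], false, nat_lit 160, nat_lit 208, nat_lit 160, nat_lit 352, ⟨nat_lit 245, nat_lit 755, nat_lit 0, nat_lit 7, nat_lit 286, nat_lit 755, nat_lit 145, nat_lit 0, nat_lit 0, nat_lit 0, nat_lit 0, nat_lit 0, nat_lit 39078751, nat_lit 20861764, nat_lit 7059485, nat_lit 4896878, true, true⟩,
 nat_lit 0, nat_lit 0, nat_lit 3643, nat_lit 0, nat_lit 3849, nat_lit 2120, nat_lit 0, nat_lit 0, nat_lit 0, nat_lit 134, nat_lit 0, nat_lit 0, nat_lit 0, nat_lit 0, nat_lit 0, nat_lit 188750, nat_lit 0, nat_lit 0, [(nat_lit 29, [(nat_lit 0, nat_lit 755)])],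
 ⟨p115_k5, nat_lit 0, nat_lit 0, nat_lit 71, nat_lit 0, nat_lit 0, [nat_lit 819918000, nat_lit 2321226000, nat_lit 3575225334], [], [nat_lit 25828929890, nat_lit 26141111207, nat_lit 27468652734, nat_lit 27754359067, nat_lit 26736649607, nat_lit 27026103919, nat_lit 28252156724, nat_lit 28558601479], nat_lit 0, nat_lit 0, nat_lit 0, nat_lit 0, nat_lit 0, nat_lit 0, [], [nat_lit 57, nat_lit 40, nat_lit 40, nat_lit 80, nat_lit 7, nat_lit 272, nat_lit 60, nat_lit 7]⟩, ⟨p115_k18, nat_lit 0, nat_lit 0, nat_lit 411, nat_lit 0, nat_lit 528258, [nat_lit 1148560000, nat_lit 2411290000, nat_lit 3444210000], [], [nat_lit 7831123510, nat_lit 7879923825, nat_lit 8123886720, nat_lit 8163260630, nat_lit 8404010578, nat_lit 8419272901, nat_lit 8547505170, nat_lit 8560062112], nat_lit 1271250, nat_lit 1271250, nat_lit 1271250, nat_lit 1271250, nat_lit 1100001, nat_lit 2744000, [nat_lit 1100000, nat_lit 2127500, nat_lit 1271250],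 [nat_lit 56, nat_lit 40, nat_lit 40, nat_lit 80, nat_lit 32, nat_lit 483, nat_lit 250, nat_lit 10]⟩,
 ⟨nat_lit 1936, nat_lit 2237, ⟨.ofNat (nat_lit 682352), .ofNat (nat_lit 739368), .ofNat (nat_lit 693740), .ofNat (nat_lit 750755), .ofNat (nat_lit 680809), .ofNat (nat_lit 736698), .ofNat (nat_lit 692315), .ofNat (nat_lit 748204)⟩, ⟨.ofNat (nat_lit 306337), .ofNat (nat_lit 374756), .ofNat (nat_lit 351886), .ofNat (nat_lit 420305), .ofNat (nat_lit 306044), .ofNat (nat_lit 373111), .ofNat (nat_lit 352066), .ofNat (nat_lit 419133)⟩⟩, [⟨nat_lit 4, nat_lit 100, nat_lit 41, nat_lit 87, nat_lit 401584559⟩, ⟨nat_lit 7, nat_lit 80, nat_lit 100, nat_lit 92, nat_lit 73111282⟩]⟩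
noncomputable def p115_l61 : Lf2 := ⟨nat_lit 0, nat_lit 30, [nat_lit 15, nat_lit 5, nat_lit 5, nat_lit 20], false, nat_lit 160, nat_lit 196, nat_lit 160, nat_lit 352, ⟨nat_lit 206, nat_lit 794, nat_lit 0, nat_lit 7, nat_lit 285, nat_lit 794, nat_lit 142, nat_lit 0, nat_lit 0, nat_lit 0, nat_lit 0, nat_lit 0, nat_lit 39329369, nat_lit 20855607, nat_lit 6815024, nat_lit 4859126, true, true⟩,
 nat_lit 0, nat_lit 0, nat_lit 3055, nat_lit 0, nat_lit 3623, nat_lit 1778, nat_lit 0, nat_lit 0, nat_lit 0, nat_lit 113, nat_lit 0, nat_lit 0, nat_lit 0, nat_lit 0, nat_lit 0, nat_lit 198500, nat_lit 0, nat_lit 0, [(nat_lit 29, [(nat_lit 0, nat_lit 794)])],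
 ⟨p115_k7, nat_lit 0, nat_lit 0, nat_lit 73, nat_lit 0, nat_lit 0, [nat_lit 813818401, nat_lit 2058589601, nat_lit 2705901600], [], [nat_lit 25942654627, nat_lit 26245929622, nat_lit 27525473847, nat_lit 27803430074, nat_lit 26615473597, nat_lit 26902428816, nat_lit 28110424346, nat_lit 28412604656], nat_lit 0, nat_lit 0, nat_lit 0, nat_lit 0, nat_lit 0, nat_lit 0, [], [nat_lit 55, nat_lit 40, nat_lit 40, nat_lit 80, nat_lit 3, nat_lit 260, nat_lit 50, nat_lit 8]⟩, ⟨p115_k18, nat_lit 0, nat_lit 0, nat_lit 449, nat_lit 0, nat_lit 619493, [nat_lit 965728000, nat_lit 2027452000, nat_lit 2895948000], [], [nat_lit 6587162692, nat_lit 6628202328, nat_lit 6833163564, nat_lit 6866294156, nat_lit 7069640539, nat_lit 7082539526, nat_lit 7190397723, nat_lit 7201032620], nat_lit 1271250, nat_lit 1271250, nat_lit 1271250, nat_lit 1271250, nat_lit 1100001, nat_lit 2744000, [nat_lit 1100000, nat_lit 2127500, nat_lit 1271250], [nat_lit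 56, nat_lit 40, nat_lit 40, nat_lit 80, nat_lit 32, nat_lit 483, nat_lit 250, nat_lit 10]⟩,
 ⟨nat_lit 1581, nat_lit 1937, ⟨.ofNat (nat_lit 680809), .ofNat (nat_lit 736698), .ofNat (nat_lit 692315), .ofNat (nat_lit 748204), .ofNat (nat_lit 679215), .ofNat (nat_lit 733851), .ofNat (nat_lit 690873), .ofNat (nat_lit 745508)⟩, ⟨.ofNat (nat_lit 306044), .ofNat (nat_lit 356345), .ofNat (nat_lit 352066), .ofNat (nat_lit 402366), .ofNat (nat_lit 305473), .ofNat (nat_lit 354645), .ofNat (nat_lit 352103), .ofNat (nat_lit 401275)⟩⟩, [⟨nat_lit 4, nat_lit 100, nat_lit 35, nat_lit 88, nat_lit 445233319⟩, ⟨nat_lit 7, nat_lit 80, nat_lit 100, nat_lit 92, nat_lit 61318782⟩]⟩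
noncomputable def p115_l62 : Lf2 := ⟨nat_lit 0, nat_lit 30, [nat_lit 15, nat_lit 5, nat_lit 5, nat_lit 20], false, nat_lit 160, nat_lit 208, nat_lit 160, nat_lit 344, ⟨nat_lit 222, nat_lit 778, nat_lit 0, nat_lit 7, nat_lit 290, nat_lit 778, nat_lit 145, nat_lit 0, nat_lit 0, nat_lit 0, nat_lit 0, nat_lit 0, nat_lit 38748886, nat_lit 21247031, nat_lit 7004083, nat_lit 4907322, true, true⟩,
 nat_lit 0, nat_lit 0, nat_lit 3158, nat_lit 0, nat_lit 3742, nat_lit 1923, nat_lit 0, nat_lit 0, nat_lit 0, nat_lit 151, nat_lit 0, nat_lit 0, nat_lit 0, nat_lit 0, nat_lit 0, nat_lit 194500, nat_lit 0, nat_lit 0, [(nat_lit 29, [(nat_lit 0, nat_lit 778)])],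
 ⟨p115_k5, nat_lit 0, nat_lit 0, nat_lit 73, nat_lit 0, nat_lit 0, [nat_lit 816320801, nat_lit 2249125600, nat_lit 3443781867], [], [nat_lit 25791432220, nat_lit 26407361434, nat_lit 27416201172, nat_lit 27980275242, nat_lit 26704422372, nat_lit 27275813517, nat_lit 28207075784, nat_lit 28747792680], nat_lit 0, nat_lit 0, nat_lit 0, nat_lit 0, nat_lit 0, nat_lit 0, [], [nat_lit 57, nat_lit 40, nat_lit 40, nat_lit 80, nat_lit 7, nat_lit 272, nat_lit 60, nat_lit 7]⟩, ⟨p115_k26, nat_lit 0, nat_lit 0, nat_lit 454, nat_lit 0, nat_lit 635330, [nat_lit 1040736000, nat_lit 2184924000, nat_lit 3120876000], [], [nat_lit 6349424264, nat_lit 6393639965, nat_lit 6606225599, nat_lit 6641892317, nat_lit 6971414543, nat_lit 7001367852, nat_lit 7164676264, nat_lit 7192431960], nat_lit 1271250, nat_lit 1271250, nat_lit 1271250, nat_lit 1271250, nat_lit 1100001, nat_lit 2675500, [nat_lit 1100000, nat_lit 2127500, nat_lit 1271250],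 [nat_lit 56, nat_lit 40, nat_lit 40, nat_lit 80, nat_lit 32, nat_lit 483, nat_lit 250, nat_lit 10]⟩,
 ⟨nat_lit 1581, nat_lit 2237, ⟨.ofNat (nat_lit 693740), .ofNat (nat_lit 750755), .ofNat (nat_lit 705117), .ofNat (nat_lit 762142), .ofNat (nat_lit 690873), .ofNat (nat_lit 745508), .ofNat (nat_lit 702521), .ofNat (nat_lit 757166)⟩, ⟨.ofNat (nat_lit 306337), .ofNat (nat_lit 374756), .ofNat (nat_lit 351886), .ofNat (nat_lit 420305), .ofNat (nat_lit 305473), .ofNat (nat_lit 371036), .ofNat (nat_lit 352103), .ofNat (nat_lit 417666)⟩⟩, [⟨nat_lit 4, nat_lit 100, nat_lit 38, nat_lit 87, nat_lit 424620736⟩, ⟨nat_lit 19, nat_lit 100, nat_lit 85, nat_lit 93, nat_lit 70861898⟩]⟩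
noncomputable def p115_l63 : Lf2 := ⟨nat_lit 0, nat_lit 30, [nat_lit 15, nat_lit 5, nat_lit 5, nat_lit 20], false, nat_lit 160, nat_lit 184, nat_lit 160, nat_lit 352, ⟨nat_lit 151, nat_lit 849, nat_lit 0, nat_lit 7, nat_lit 284, nat_lit 849, nat_lit 138, nat_lit 0, nat_lit 0, nat_lit 0, nat_lit 0, nat_lit 0, nat_lit 39585417, nat_lit 20842146, nat_lit 6572437, nat_lit 4820351, true, true⟩,
 nat_lit 0, nat_lit 0, nat_lit 2402, nat_lit 0, nat_lit 3431, nat_lit 1398, nat_lit 0, nat_lit 0, nat_lit 0, nat_lit 100, nat_lit 0, nat_lit 0, nat_lit 0, nat_lit 0, nat_lit 0, nat_lit 212250, nat_lit 0, nat_lit 0, [(nat_lit 29, [(nat_lit 0, nat_lit 849)])],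
 ⟨p115_k24, nat_lit 0, nat_lit 0, nat_lit 76, nat_lit 0, nat_lit 0, [nat_lit 805216400, nat_lit 1876451600, nat_lit 2460403600], [], [nat_lit 26110749637, nat_lit 26406458201, nat_lit 27643381481, nat_lit 27914753549, nat_lit 26553966160, nat_lit 26839205762, nat_lit 28031225404, nat_lit 28293224053], nat_lit 0, nat_lit 0, nat_lit 0, nat_lit 0, nat_lit 0, nat_lit 0, [], [nat_lit 55, nat_lit 40, nat_lit 40, nat_lit 80, nat_lit 3, nat_lit 260, nat_lit 50, nat_lit 8]⟩, ⟨p115_k18, nat_lit 0, nat_lit 0, nat_lit 613, nat_lit 0, nat_lit 938438, [nat_lit 707888000, nat_lit 1486142000, nat_lit 2122758000], [], [nat_lit 4674020376, nat_lit 4696296862, nat_lit 4817309770, nat_lit 4834511447, nat_lit 4902531690, nat_lit 4906434171, nat_lit 4996175735, nat_lit 5009539090], nat_lit 1271250, nat_lit 1271250, nat_lit 1271250, nat_lit 1271250, nat_lit 1100001, nat_lit 2744000, [nat_lit 1100000, nat_lit 2127500, nat_lit 1271250],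 [nat_lit 56, nat_lit 40, nat_lit 40, nat_lit 80, nat_lit 32, nat_lit 483, nat_lit 250, nat_lit 10]⟩,
 ⟨nat_lit 1118, nat_lit 1582, ⟨.ofNat (nat_lit 679215), .ofNat (nat_lit 733851), .ofNat (nat_lit 690873), .ofNat (nat_lit 745508), .ofNat (nat_lit 677505), .ofNat (nat_lit 730633), .ofNat (nat_lit 689381), .ofNat (nat_lit 742508)⟩, ⟨.ofNat (nat_lit 305473), .ofNat (nat_lit 338254), .ofNat (nat_lit 352103), .ofNat (nat_lit 384884), .ofNat (nat_lit 304366), .ofNat (nat_lit 336242), .ofNat (nat_lit 351868), .ofNat (nat_lit 383744)⟩⟩, [⟨nat_lit 13, nat_lit 29, nat_lit 87, nat_lit 100, nat_lit 153098185⟩, ⟨nat_lit 16, nat_lit 31, nat_lit 100, nat_lit 92, nat_lit 453221442⟩, ⟨nat_lit 19, nat_lit 100, nat_lit 69, nat_lit 96, nat_lit 41278476⟩]⟩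
noncomputable def p115_l64 : Lf2 := ⟨nat_lit 0, nat_lit 30, [nat_lit 15, nat_lit 5, nat_lit 5, nat_lit 20], false, nat_lit 160, nat_lit 164, nat_lit 160, nat_lit 352, ⟨nat_lit 131, nat_lit 869, nat_lit 0, nat_lit 7, nat_lit 281, nat_lit 869, nat_lit 132, nat_lit 0, nat_lit 0, nat_lit 0, nat_lit 0, nat_lit 0, nat_lit 40167748, nat_lit 20650798, nat_lit 6181454, nat_lit 4746953, true, true⟩,
 nat_lit 0, nat_lit 0, nat_lit 2108, nat_lit 0, nat_lit 3430, nat_lit 1226, nat_lit 0, nat_lit 0, nat_lit 0, nat_lit 88, nat_lit 0, nat_lit 0, nat_lit 0, nat_lit 0, nat_lit 0, nat_lit 217250, nat_lit 0, nat_lit 0, [(nat_lit 29, [(nat_lit 0, nat_lit 869)])],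
 ⟨p115_k35, nat_lit 0, nat_lit 0, nat_lit 76, nat_lit 0, nat_lit 0, [nat_lit 802088400, nat_lit 1810219600, nat_lit 2371131600], [], [nat_lit 26340431365, nat_lit 26636100520, nat_lit 27546968117, nat_lit 27861482704, nat_lit 26412561134, nat_lit 26706485818, nat_lit 27612050146, nat_lit 27929339819], nat_lit 0, nat_lit 0, nat_lit 0, nat_lit 0, nat_lit 0, nat_lit 0, [], [nat_lit 55, nat_lit 40, nat_lit 40, nat_lit 80, nat_lit 3, nat_lit 260, nat_lit 50, nat_lit 8]⟩, ⟨p115_k18, nat_lit 0, nat_lit 0, nat_lit 653, nat_lit 0, nat_lit 1037286, [nat_lit 614128000, nat_lit 1289302000, nat_lit 1841598000], [], [nat_lit 4182512792, nat_lit 4188058140, nat_lit 4230972156, nat_lit 4234051248, nat_lit 4201085410, nat_lit 4204540291, nat_lit 4280017587, nat_lit 4294355934], nat_lit 1271250, nat_lit 1271250, nat_lit 1271250, nat_lit 1271250, nat_lit 1100001, nat_lit 2744000, [nat_lit 1100000, nat_lit 2127500, nat_lit 1271250],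 [nat_lit 56, nat_lit 40, nat_lit 40, nat_lit 80, nat_lit 32, nat_lit 483, nat_lit 250, nat_lit 10]⟩,
 ⟨nat_lit 0, nat_lit 1119, ⟨.ofNat (nat_lit 677505), .ofNat (nat_lit 720005), .ofNat (nat_lit 689381), .ofNat (nat_lit 731881), .ofNat (nat_lit 674999), .ofNat (nat_lit 714997), .ofNat (nat_lit 687499), .ofNat (nat_lit 727497)⟩, ⟨.ofNat (nat_lit 304362), .ofNat (nat_lit 309675), .ofNat (nat_lit 351866), .ofNat (nat_lit 357179), .ofNat (nat_lit 299995), .ofNat (nat_lit 304995), .ofNat (nat_lit 349997), .ofNat (nat_lit 354998)⟩⟩, [⟨nat_lit 13, nat_lit 24, nat_lit 89, nat_lit 100, nat_lit 633562070⟩, ⟨nat_lit 16, nat_lit 23, nat_lit 100, nat_lit 93, nat_lit 599353699⟩, ⟨nat_lit 19, nat_lit 100, nat_lit 69, nat_lit 96, nat_lit 32144579⟩]⟩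
noncomputable def p115_l65 : Lf2 := ⟨nat_lit 0, nat_lit 30, [nat_lit 15, nat_lit 5, nat_lit 5, nat_lit 20], false, nat_lit 160, nat_lit 184, nat_lit 160, nat_lit 344, ⟨nat_lit 158, nat_lit 842, nat_lit 0, nat_lit 7, nat_lit 289, nat_lit 842, nat_lit 138, nat_lit 0, nat_lit 0, nat_lit 0, nat_lit 0, nat_lit 0, nat_lit 39194746, nat_lit 21275780, nat_lit 6529474, nat_lit 4835046, true, true⟩,
 nat_lit 0, nat_lit 0, nat_lit 2250, nat_lit 0, nat_lit 3451, nat_lit 1370, nat_lit 0, nat_lit 0, nat_lit 0, nat_lit 107, nat_lit 0, nat_lit 0, nat_lit 0, nat_lit 0, nat_lit 0, nat_lit 210500, nat_lit 0, nat_lit 0, [(nat_lit 29, [(nat_lit 0, nat_lit 842)])],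
 ⟨p115_k24, nat_lit 0, nat_lit 0, nat_lit 76, nat_lit 0, nat_lit 0, [nat_lit 806311200, nat_lit 1899632801, nat_lit 2491648800], [], [nat_lit 26129039378, nat_lit 26425536112, nat_lit 27664261702, nat_lit 27936319620, nat_lit 26571677735, nat_lit 26857662706, nat_lit 28051312401, nat_lit 28315179845], nat_lit 0, nat_lit 0, nat_lit 0, nat_lit 0, nat_lit 0, nat_lit 0, [], [nat_lit 55, nat_lit 40, nat_lit 40, nat_lit 80, nat_lit 3, nat_lit 260, nat_lit 50, nat_lit 8]⟩, ⟨p115_k26, nat_lit 0, nat_lit 0, nat_lit 609, nat_lit 0, nat_lit 932970, [nat_lit 740704000, nat_lit 1555036000, nat_lit 2221164000], [], [nat_lit 4777272340, nat_lit 4801081560, nat_lit 4920889392, nat_lit 4939671704, nat_lit 4988941230, nat_lit 4995398472, nat_lit 5099982417, nat_lit 5120761689], nat_lit 1271250, nat_lit 1271250, nat_lit 1271250, nat_lit 1271250, nat_lit 1100001, nat_lit 2675500, [nat_lit 1100000, nat_lit 2127500, nat_lit 1271250],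 [nat_lit 56, nat_lit 40, nat_lit 40, nat_lit 80, nat_lit 32, nat_lit 483, nat_lit 250, nat_lit 10]⟩,
 ⟨nat_lit 1118, nat_lit 1582, ⟨.ofNat (nat_lit 690873), .ofNat (nat_lit 745508), .ofNat (nat_lit 702528), .ofNat (nat_lit 757166), .ofNat (nat_lit 689381), .ofNat (nat_lit 742508), .ofNat (nat_lit 701254), .ofNat (nat_lit 754383)⟩, ⟨.ofNat (nat_lit 305473), .ofNat (nat_lit 338254), .ofNat (nat_lit 352103), .ofNat (nat_lit 384884), .ofNat (nat_lit 304366), .ofNat (nat_lit 336242), .ofNat (nat_lit 351868), .ofNat (nat_lit 383744)⟩⟩, [⟨nat_lit 16, nat_lit 28, nat_lit 100, nat_lit 89, nat_lit 532129184⟩, ⟨nat_lit 19, nat_lit 100, nat_lit 74, nat_lit 98, nat_lit 42056239⟩]⟩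
noncomputable def p115_l66 : Lf2 := ⟨nat_lit 0, nat_lit 30, [nat_lit 15, nat_lit 5, nat_lit 5, nat_lit 20], false, nat_lit 160, nat_lit 164, nat_lit 160, nat_lit 344, ⟨nat_lit 183, nat_lit 817, nat_lit 0, nat_lit 7, nat_lit 288, nat_lit 817, nat_lit 132, nat_lit 0, nat_lit 0, nat_lit 0, nat_lit 0, nat_lit 0, nat_lit 39581348, nat_lit 21295906, nat_lit 6122746, nat_lit 4769973, true, true⟩,
 nat_lit 0, nat_lit 0, nat_lit 2593, nat_lit 0, nat_lit 2840, nat_lit 1579, nat_lit 76, nat_lit 0, nat_lit 0, nat_lit 124, nat_lit 0, nat_lit 0, nat_lit 0, nat_lit 0, nat_lit 0, nat_lit 204250, nat_lit 0, nat_lit 0, [(nat_lit 29, [(nat_lit 0, nat_lit 817)])],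
 ⟨p115_k35, nat_lit 0, nat_lit 0, nat_lit 78, nat_lit 0, nat_lit 0, [nat_lit 810221200, nat_lit 1982422801, nat_lit 2603238800], [], [nat_lit 25783546701, nat_lit 26044455401, nat_lit 27175930221, nat_lit 27453704960, nat_lit 25858725302, nat_lit 26118192658, nat_lit 27243445029, nat_lit 27523931024], nat_lit 0, nat_lit 0, nat_lit 0, nat_lit 0, nat_lit 0, nat_lit 0, [], [nat_lit 55, nat_lit 40, nat_lit 40, nat_lit 80, nat_lit 3, nat_lit 260, nat_lit 50, nat_lit 8]⟩, ⟨p115_k26, nat_lit 0, nat_lit 0, nat_lit 644, nat_lit 0, nat_lit 1022868, [nat_lit 857904000, nat_lit 1801086000, nat_lit 2572614000], [], [nat_lit 5785885690, nat_lit 5795507980, nat_lit 5870147096, nat_lit 5875741124, nat_lit 5803009126, nat_lit 5810610048, nat_lit 5921600358, nat_lit 5940437078], nat_lit 1271250, nat_lit 1271250, nat_lit 1271250, nat_lit 1271250, nat_lit 1100001, nat_lit 2675500, [nat_lit 1100000, nat_lit 2127500, nat_lit 1271250],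 [nat_lit 56, nat_lit 40, nat_lit 40, nat_lit 80, nat_lit 32, nat_lit 483, nat_lit 250, nat_lit 10]⟩,
 ⟨nat_lit 0, nat_lit 1119, ⟨.ofNat (nat_lit 689381), .ofNat (nat_lit 742506), .ofNat (nat_lit 701253), .ofNat (nat_lit 754382), .ofNat (nat_lit 687499), .ofNat (nat_lit 737497), .ofNat (nat_lit 699996), .ofNat (nat_lit 749998)⟩, ⟨.ofNat (nat_lit 304362), .ofNat (nat_lit 309675), .ofNat (nat_lit 351866), .ofNat (nat_lit 357179), .ofNat (nat_lit 299995), .ofNat (nat_lit 304995), .ofNat (nat_lit 349997), .ofNat (nat_lit 354998)⟩⟩, [⟨nat_lit 13, nat_lit 24, nat_lit 88, nat_lit 100, nat_lit 461915063⟩, ⟨nat_lit 16, nat_lit 23, nat_lit 100, nat_lit 93, nat_lit 653664727⟩, ⟨nat_lit 19, nat_lit 100, nat_lit 74, nat_lit 98, nat_lit 44974704⟩]⟩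
noncomputable def b_V_900_600_20_53 : St := ⟨true, nat_lit 0, nat_lit 1, nat_lit 1, nat_lit 120, nat_lit 360, nat_lit 400, nat_lit 240, nat_lit 280, nat_lit 280, nat_lit 320, nat_lit 80, nat_lit 120, nat_lit 160, nat_lit 248, nat_lit 0, nat_lit 364, nat_lit 80, nat_lit 120, nat_lit 0, nat_lit 0, nat_lit 0, nat_lit 0⟩
theorem d_V_900_600_20_53 (h : EB TB.env) : Dead b_V_900_600_20_53 := chkB_sound0 h (T :=
(.trZ (nat_lit 9) (nat_lit 100) (nat_lit 94) (nat_lit 21) (nat_lit 4) (.spl (nat_lit 0) (nat_lit 380)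
(.spl (nat_lit 1) (nat_lit 260)
(.spl (nat_lit 0) (nat_lit 370)
(.leaf p115_l43)
(.trX (nat_lit 16) (nat_lit 53) (nat_lit 100) (nat_lit 93) (nat_lit 232) (.spl (nat_lit 1) (nat_lit 250)
(.leaf p115_l44)
(.trX (nat_lit 19) (nat_lit 100) (nat_lit 64) (nat_lit 95) (nat_lit 360) (.leaf p115_l45)))))
(.trX (nat_lit 19) (nat_lit 100) (nat_lit 69) (nat_lit 96) (nat_lit 352) (.spl (nat_lit 1) (nat_lit 270)
(.leaf p115_l46)
(.trX (nat_lit 19) (nat_lit 100) (nat_lit 74) (nat_lit 98) (nat_lit 344) (.leaf p115_l47)))))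
(.trX (nat_lit 16) (nat_lit 44) (nat_lit 100) (nat_lit 92) (nat_lit 208) (.spl (nat_lit 1) (nat_lit 260)
(.spl (nat_lit 0) (nat_lit 390)
(.spl (nat_lit 3) (nat_lit 100)
(.trX (nat_lit 16) (nat_lit 44) (nat_lit 100) (nat_lit 87) (nat_lit 188) (.trX (nat_lit 19) (nat_lit 100) (nat_lit 68) (nat_lit 88) (nat_lit 352) (.leaf p115_l48)))
(.spl (nat_lit 1) (nat_lit 250)
(.spl (nat_lit 6) (nat_lit 100)
(.leaf p115_l49)
(.spl (nat_lit 0) (nat_lit 385)
(.leaf p115_l50)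
(.trX (nat_lit 16) (nat_lit 38) (nat_lit 100) (nat_lit 92) (nat_lit 196) (.leaf p115_l51))))
(.trX (nat_lit 19) (nat_lit 100) (nat_lit 64) (nat_lit 95) (nat_lit 360) (.spl (nat_lit 6) (nat_lit 100)
(.leaf p115_l52)
(.spl (nat_lit 0) (nat_lit 385)
(.leaf p115_l53)
(.trX (nat_lit 16) (nat_lit 38) (nat_lit 100) (nat_lit 92) (nat_lit 196) (.leaf p115_l54)))))))
(.trX (nat_lit 16) (nat_lit 31) (nat_lit 100) (nat_lit 92) (nat_lit 184) (.spl (nat_lit 1) (nat_lit 250)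
(.trX (nat_lit 13) (nat_lit 32) (nat_lit 87) (nat_lit 100) (nat_lit 308) (.leaf p115_l55))
(.trX (nat_lit 19) (nat_lit 100) (nat_lit 64) (nat_lit 95) (nat_lit 360) (.leaf p115_l56)))))
(.trX (nat_lit 19) (nat_lit 100) (nat_lit 69) (nat_lit 96) (nat_lit 352) (.spl (nat_lit 5) (nat_lit 160)
(.leaf p115_l57)
(.spl (nat_lit 0) (nat_lit 390)
(.spl (nat_lit 6) (nat_lit 100)
(.spl (nat_lit 1) (nat_lit 270)
(.leaf p115_l58)
(.trX (nat_lit 19) (nat_lit 100) (nat_lit 74) (nat_lit 98) (nat_lit 344) (.leaf p115_l59)))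
(.spl (nat_lit 1) (nat_lit 270)
(.spl (nat_lit 0) (nat_lit 385)
(.leaf p115_l60)
(.trX (nat_lit 16) (nat_lit 38) (nat_lit 100) (nat_lit 92) (nat_lit 196) (.leaf p115_l61)))
(.trX (nat_lit 19) (nat_lit 100) (nat_lit 74) (nat_lit 98) (nat_lit 344) (.leaf p115_l62))))
(.trX (nat_lit 16) (nat_lit 31) (nat_lit 100) (nat_lit 92) (nat_lit 184) (.spl (nat_lit 1) (nat_lit 270)
(.spl (nat_lit 0) (nat_lit 395)
(.leaf p115_l63)
(.trX (nat_lit 13) (nat_lit 24) (nat_lit 89) (nat_lit 100) (nat_lit 312) (.trX (nat_lit 16) (nat_lit 23) (nat_lit 100) (nat_lit 93) (nat_lit 164) (.leaf p115_l64))))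
(.trX (nat_lit 19) (nat_lit 100) (nat_lit 74) (nat_lit 98) (nat_lit 344) (.spl (nat_lit 0) (nat_lit 395)
(.leaf p115_l65)
(.trX (nat_lit 16) (nat_lit 23) (nat_lit 100) (nat_lit 93) (nat_lit 164) (.leaf p115_l66)))))))))))))) (by decide +kernel)
noncomputable def p115_l67 : Lf2 := ⟨nat_lit 0, nat_lit 25, [nat_lit 44, nat_lit 5, nat_lit 5, nat_lit 20], false, nat_lit 160, nat_lit 224, nat_lit 16, nat_lit 352, ⟨nat_lit 107, nat_lit 893, nat_lit 0, nat_lit 8, nat_lit 303, nat_lit 893, nat_lit 146, nat_lit 0, nat_lit 0, nat_lit 0, nat_lit 0, nat_lit 0, nat_lit 37709225, nat_lit 22351888, nat_lit 6938887, nat_lit 4946820, true, true⟩,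
 nat_lit 0, nat_lit 0, nat_lit 2074, nat_lit 1838, nat_lit 3442, nat_lit 1097, nat_lit 0, nat_lit 0, nat_lit 0, nat_lit 62, nat_lit 0, nat_lit 0, nat_lit 0, nat_lit 0, nat_lit 0, nat_lit 223250, nat_lit 0, nat_lit 0, [(nat_lit 26, [(nat_lit 0, nat_lit 893)])],
 ⟨p115_k36, nat_lit 0, nat_lit 0, nat_lit 80, nat_lit 0, nat_lit 0, [nat_lit 784046800, nat_lit 2033289600, nat_lit 3096506400], [], [nat_lit 26168458232, nat_lit 27255455372, nat_lit 28013140400, nat_lit 29002567888, nat_lit 27351854226, nat_lit 28338645414, nat_lit 29023416138, nat_lit 29934948798], nat_lit 0, nat_lit 0, nat_lit 0, nat_lit 0, nat_lit 0, nat_lit 0, [], [nat_lit 57, nat_lit 40, nat_lit 40, nat_lit 80, nat_lit 7, nat_lit 272, nat_lit 60, nat_lit 7]⟩, ⟨p115_k4, nat_lit 0, nat_lit 0, nat_lit 571, nat_lit 0, nat_lit 596793, [nat_lit 501616000, nat_lit 1053094000, nat_lit 1504206000], [], [nat_lit 4364985833, nat_lit 4375675408, nat_lit 4525622473,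 nat_lit 4533204530, nat_lit 3697566449, nat_lit 3702629739, nat_lit 3858550269, nat_lit 3865415278], nat_lit 1271250, nat_lit 1271250, nat_lit 1271250, nat_lit 1271250, nat_lit 88400, nat_lit 2511800, [nat_lit 1100000, nat_lit 2127500, nat_lit 1271250], [nat_lit 56, nat_lit 40, nat_lit 40, nat_lit 80, nat_lit 32, nat_lit 483, nat_lit 250, nat_lit 11]⟩,
 ⟨nat_lit 2236, nat_lit 3163, ⟨.ofNat (nat_lit 727168), .ofNat (nat_lit 788122), .ofNat (nat_lit 738246), .ofNat (nat_lit 799199), .ofNat (nat_lit 716594), .ofNat (nat_lit 773609), .ofNat (nat_lit 727981), .ofNat (nat_lit 784996)⟩, ⟨.ofNat (nat_lit 306116), .ofNat (nat_lit 403641), .ofNat (nat_lit 328271), .ofNat (nat_lit 425796), .ofNat (nat_lit 306337), .ofNat (nat_lit 397562), .ofNat (nat_lit 329112), .ofNat (nat_lit 420336)⟩⟩, [⟨nat_lit 13, nat_lit 54, nat_lit 73, nat_lit 100, nat_lit 295625671⟩, ⟨nat_lit 16, nat_lit 53, nat_lit 100, nat_lit 84, nat_lit 260058629⟩,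 ⟨nat_lit 22, nat_lit 71, nat_lit 73, nat_lit 100, nat_lit 15717196⟩]⟩
noncomputable def p115_l68 : Lf2 := ⟨nat_lit 0, nat_lit 25, [nat_lit 44, nat_lit 5, nat_lit 5, nat_lit 20], false, nat_lit 160, nat_lit 224, nat_lit 16, nat_lit 344, ⟨nat_lit 214, nat_lit 786, nat_lit 0, nat_lit 8, nat_lit 309, nat_lit 786, nat_lit 146, nat_lit 0, nat_lit 0, nat_lit 0, nat_lit 0, nat_lit 0, nat_lit 37240374, nat_lit 22858850, nat_lit 6900776, nat_lit 4961443, true, true⟩,
 nat_lit 0, nat_lit 0, nat_lit 3418, nat_lit 0, nat_lit 3726, nat_lit 1898, nat_lit 0, nat_lit 0, nat_lit 0, nat_lit 110, nat_lit 0, nat_lit 0, nat_lit 0, nat_lit 0, nat_lit 0, nat_lit 196500, nat_lit 0, nat_lit 0, [(nat_lit 26, [(nat_lit 0, nat_lit 786)])],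
 ⟨p115_k36, nat_lit 0, nat_lit 0, nat_lit 77, nat_lit 0, nat_lit 0, [nat_lit 802493600, nat_lit 2351379200, nat_lit 3680212800], [], [nat_lit 26395439496, nat_lit 26958416206, nat_lit 28296979600, nat_lit 28808259632, nat_lit 27557427797, nat_lit 28067425179, nat_lit 29276087133, nat_lit 29740453151], nat_lit 0, nat_lit 0, nat_lit 0, nat_lit 0, nat_lit 0, nat_lit 0, [], [nat_lit 57, nat_lit 40, nat_lit 40, nat_lit 80, nat_lit 7, nat_lit 272, nat_lit 60, nat_lit 7]⟩, ⟨p115_k32, nat_lit 0, nat_lit 0, nat_lit 466, nat_lit 0, nat_lit 416930, [nat_lit 1003232000, nat_lit 2106188000, nat_lit 3008412000], [], [nat_lit 8746156514, nat_lit 8788810566, nat_lit 9134724936, nat_lit 9167128756, nat_lit 7668432012, nat_lit 7676691400, nat_lit 7860939420, nat_lit 7863041398], nat_lit 1271250, nat_lit 1271250, nat_lit 1271250, nat_lit 1271250, nat_lit 88400, nat_lit 2454100, [nat_lit 1100000, nat_lit 2127500, nat_lit 1271250], [nat_lit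 56, nat_lit 40, nat_lit 40, nat_lit 80, nat_lit 32, nat_lit 483, nat_lit 250, nat_lit 11]⟩,
 ⟨nat_lit 2738, nat_lit 3163, ⟨.ofNat (nat_lit 738246), .ofNat (nat_lit 799199), .ofNat (nat_lit 749323), .ofNat (nat_lit 810277), .ofNat (nat_lit 733226), .ofNat (nat_lit 792287), .ofNat (nat_lit 744435), .ofNat (nat_lit 803496)⟩, ⟨.ofNat (nat_lit 306116), .ofNat (nat_lit 403641), .ofNat (nat_lit 328271), .ofNat (nat_lit 425796), .ofNat (nat_lit 306433), .ofNat (nat_lit 400931), .ofNat (nat_lit 328850), .ofNat (nat_lit 423348)⟩⟩, [⟨nat_lit 13, nat_lit 59, nat_lit 66, nat_lit 100, nat_lit 229318302⟩, ⟨nat_lit 4, nat_lit 100, nat_lit 57, nat_lit 84, nat_lit 256710935⟩, ⟨nat_lit 7, nat_lit 79, nat_lit 100, nat_lit 87, nat_lit 25048799⟩]⟩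
noncomputable def p115_l69 : Lf2 := ⟨nat_lit 0, nat_lit 25, [nat_lit 44, nat_lit 5, nat_lit 5, nat_lit 20], false, nat_lit 160, nat_lit 208, nat_lit 16, nat_lit 344, ⟨nat_lit 152, nat_lit 848, nat_lit 0, nat_lit 8, nat_lit 304, nat_lit 848, nat_lit 141, nat_lit 0, nat_lit 0, nat_lit 0, nat_lit 0, nat_lit 0, nat_lit 37852996, nat_lit 22543951, nat_lit 6603053, nat_lit 4903345, true, true⟩,
 nat_lit 0, nat_lit 0, nat_lit 2687, nat_lit 0, nat_lit 3603, nat_lit 1492, nat_lit 0, nat_lit 0, nat_lit 0, nat_lit 95, nat_lit 0, nat_lit 0, nat_lit 0, nat_lit 0, nat_lit 0, nat_lit 212000, nat_lit 0, nat_lit 0, [(nat_lit 26, [(nat_lit 0, nat_lit 848)])],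
 ⟨p115_k37, nat_lit 0, nat_lit 0, nat_lit 78, nat_lit 0, nat_lit 0, [nat_lit 791804800, nat_lit 2167065600, nat_lit 3341990400], [], [nat_lit 26805125543, nat_lit 27359666298, nat_lit 28266309106, nat_lit 28780501414, nat_lit 27644770312, nat_lit 28160510879, nat_lit 29002308445, nat_lit 29508374858], nat_lit 0, nat_lit 0, nat_lit 0, nat_lit 0, nat_lit 0, nat_lit 0, [], [nat_lit 57, nat_lit 40, nat_lit 40, nat_lit 80, nat_lit 7, nat_lit 272, nat_lit 60, nat_lit 7]⟩, ⟨p115_k32, nat_lit 0, nat_lit 0, nat_lit 574, nat_lit 0, nat_lit 611656, [nat_lit 712576000, nat_lit 1495984000, nat_lit 2136816000], [], [nat_lit 5985019396, nat_lit 6007860114, nat_lit 6172053683, nat_lit 6189668643, nat_lit 5088459573, nat_lit 5088141179, nat_lit 5256542004, nat_lit 5269892653], nat_lit 1271250, nat_lit 1271250, nat_lit 1271250, nat_lit 1271250, nat_lit 88400, nat_lit 2454100, [nat_lit 1100000, nat_lit 2127500, nat_lit 1271250], [nat_lit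 56, nat_lit 40, nat_lit 40, nat_lit 80, nat_lit 32, nat_lit 483, nat_lit 250, nat_lit 11]⟩,
 ⟨nat_lit 2236, nat_lit 2739, ⟨.ofNat (nat_lit 733226), .ofNat (nat_lit 780475), .ofNat (nat_lit 744435), .ofNat (nat_lit 791684), .ofNat (nat_lit 727981), .ofNat (nat_lit 773593), .ofNat (nat_lit 739368), .ofNat (nat_lit 784980)⟩, ⟨.ofNat (nat_lit 306433), .ofNat (nat_lit 377306), .ofNat (nat_lit 328850), .ofNat (nat_lit 399724), .ofNat (nat_lit 306337), .ofNat (nat_lit 374756), .ofNat (nat_lit 329112), .ofNat (nat_lit 397530)⟩⟩, [⟨nat_lit 13, nat_lit 50, nat_lit 74, nat_lit 100, nat_lit 339684639⟩, ⟨nat_lit 16, nat_lit 49, nat_lit 100, nat_lit 84, nat_lit 285799078⟩, ⟨nat_lit 7, nat_lit 79, nat_lit 100, nat_lit 87, nat_lit 17986354⟩]⟩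
noncomputable def p115_l70 : Lf2 := ⟨nat_lit 0, nat_lit 26, [nat_lit 108, nat_lit 5, nat_lit 5, nat_lit 20], false, nat_lit 160, nat_lit 248, nat_lit 16, nat_lit 364, ⟨nat_lit 812, nat_lit 188, nat_lit 0, nat_lit 8, nat_lit 306, nat_lit 188, nat_lit 162, nat_lit 0, nat_lit 0, nat_lit 0, nat_lit 0, nat_lit 0, nat_lit 36672444, nat_lit 22302297, nat_lit 8025259, nat_lit 5099545, true, true⟩,
 nat_lit 0, nat_lit 0, nat_lit 14282, nat_lit 0, nat_lit 5058, nat_lit 7560, nat_lit 0, nat_lit 0, nat_lit 0, nat_lit 415, nat_lit 0, nat_lit 0, nat_lit 0, nat_lit 0, nat_lit 0, nat_lit 47000, nat_lit 0, nat_lit 0, [(nat_lit 26, [(nat_lit 0, nat_lit 188)])],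
 ⟨p115_k38, nat_lit 0, nat_lit 0, nat_lit 77, nat_lit 0, nat_lit 0, [nat_lit 905588801, nat_lit 4129113600, nat_lit 6942422400], [], [nat_lit 27745862968, nat_lit 28400194898, nat_lit 29914074800, nat_lit 30503053056, nat_lit 29320257691, nat_lit 29882502464, nat_lit 31170940248, nat_lit 31678458352], nat_lit 0, nat_lit 0, nat_lit 0, nat_lit 0, nat_lit 0, nat_lit 0, [], [nat_lit 57, nat_lit 40, nat_lit 40, nat_lit 80, nat_lit 7, nat_lit 289, nat_lit 75, nat_lit 8]⟩, ⟨p115_k39, nat_lit 0, nat_lit 0, nat_lit 396, nat_lit 0, nat_lit 224516, [nat_lit 3806656000, nat_lit 7991704000, nat_lit 11415096000], [], [nat_lit 33690720856, nat_lit 34012738720, nat_lit 35239354533, nat_lit 35480311389, nat_lit 29770156040, nat_lit 29794990011, nat_lit 30618117858, nat_lit 30687647001], nat_lit 1271250, nat_lit 1271250, nat_lit 1271250, nat_lit 1271250, nat_lit 88400, nat_lit 2598350, [nat_lit 1100000, nat_lit 2127500, nat_lit 1271250],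 [nat_lit 56, nat_lit 40, nat_lit 40, nat_lit 80, nat_lit 32, nat_lit 483, nat_lit 250, nat_lit 11]⟩,
 ⟨nat_lit 2738, nat_lit 3163, ⟨.ofNat (nat_lit 727168), .ofNat (nat_lit 788122), .ofNat (nat_lit 749323), .ofNat (nat_lit 810277), .ofNat (nat_lit 722017), .ofNat (nat_lit 781079), .ofNat (nat_lit 744435), .ofNat (nat_lit 803496)⟩, ⟨.ofNat (nat_lit 328271), .ofNat (nat_lit 462368), .ofNat (nat_lit 350426), .ofNat (nat_lit 484523), .ofNat (nat_lit 328850), .ofNat (nat_lit 458785), .ofNat (nat_lit 351268), .ofNat (nat_lit 481203)⟩⟩, [⟨nat_lit 4, nat_lit 100, nat_lit 57, nat_lit 90, nat_lit 460071316⟩, ⟨nat_lit 7, nat_lit 68, nat_lit 100, nat_lit 92, nat_lit 101803074⟩]⟩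
noncomputable def p115_l71 : Lf2 := ⟨nat_lit 1, nat_lit 30, [nat_lit 15, nat_lit 5, nat_lit 5, nat_lit 20], false, nat_lit 160, nat_lit 248, nat_lit 16, nat_lit 364, zbN0,
 nat_lit 0, nat_lit 0, nat_lit 0, nat_lit 0, nat_lit 0, nat_lit 0, nat_lit 0, nat_lit 0, nat_lit 0, nat_lit 0, nat_lit 0, nat_lit 0, nat_lit 0, nat_lit 0, nat_lit 0, nat_lit 0, nat_lit 0, nat_lit 0, [],
 C1.Rw.none, C1.Rw.none,
 zbF0, []⟩
noncomputable def p115_l72 : Lf2 := ⟨nat_lit 0, nat_lit 25, [nat_lit 44, nat_lit 5, nat_lit 5, nat_lit 20], false, nat_lit 160, nat_lit 232, nat_lit 16, nat_lit 364, ⟨nat_lit 212, nat_lit 788, nat_lit 0, nat_lit 8, nat_lit 298, nat_lit 788, nat_lit 157, nat_lit 0, nat_lit 0, nat_lit 0, nat_lit 0, nat_lit 0, nat_lit 37552590, nat_lit 21693535, nat_lit 7753875, nat_lit 5036853, true, true⟩,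
 nat_lit 0, nat_lit 0, nat_lit 4072, nat_lit 0, nat_lit 3747, nat_lit 2155, nat_lit 0, nat_lit 0, nat_lit 0, nat_lit 127, nat_lit 0, nat_lit 0, nat_lit 0, nat_lit 0, nat_lit 0, nat_lit 197000, nat_lit 0, nat_lit 0, [(nat_lit 26, [(nat_lit 0, nat_lit 788)])],
 ⟨p115_k37, nat_lit 0, nat_lit 0, nat_lit 77, nat_lit 0, nat_lit 0, [nat_lit 802148800, nat_lit 2345433600, nat_lit 3669302400], [], [nat_lit 26947174007, nat_lit 27511591002, nat_lit 28244856685, nat_lit 28772935287, nat_lit 28192788994, nat_lit 28697364971, nat_lit 29350681872, nat_lit 29862231036], nat_lit 0, nat_lit 0, nat_lit 0, nat_lit 0, nat_lit 0, nat_lit 0, [], [nat_lit 57, nat_lit 40, nat_lit 40, nat_lit 80, nat_lit 7, nat_lit 272, nat_lit 60, nat_lit 7]⟩, ⟨p115_k4, nat_lit 0, nat_lit 0, nat_lit 446, nat_lit 0, nat_lit 361275, [nat_lit 993856000, nat_lit 2086504000, nat_lit 2980296000], [], [nat_lit 8457601668, nat_lit 8499214967, nat_lit 8753147611,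 nat_lit 8786773954, nat_lit 7404567698, nat_lit 7418488404, nat_lit 7615841079, nat_lit 7636619913], nat_lit 1271250, nat_lit 1271250, nat_lit 1271250, nat_lit 1271250, nat_lit 88400, nat_lit 2598350, [nat_lit 1100000, nat_lit 2127500, nat_lit 1271250], [nat_lit 56, nat_lit 40, nat_lit 40, nat_lit 80, nat_lit 32, nat_lit 483, nat_lit 250, nat_lit 11]⟩,
 ⟨nat_lit 2236, nat_lit 2739, ⟨.ofNat (nat_lit 722017), .ofNat (nat_lit 763360), .ofNat (nat_lit 733226), .ofNat (nat_lit 774569), .ofNat (nat_lit 716594), .ofNat (nat_lit 756505), .ofNat (nat_lit 727981), .ofNat (nat_lit 767892)⟩, ⟨.ofNat (nat_lit 328850), .ofNat (nat_lit 435161), .ofNat (nat_lit 351268), .ofNat (nat_lit 457578), .ofNat (nat_lit 329112), .ofNat (nat_lit 431740), .ofNat (nat_lit 351886), .ofNat (nat_lit 454514)⟩⟩, [⟨nat_lit 13, nat_lit 50, nat_lit 76, nat_lit 100, nat_lit 302808330⟩, ⟨nat_lit 16, nat_lit 48, nat_lit 100, nat_lit 89, nat_lit 297892565⟩,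 ⟨nat_lit 19, nat_lit 100, nat_lit 66, nat_lit 92, nat_lit 28069278⟩]⟩
noncomputable def p115_l73 : Lf2 := ⟨nat_lit 0, nat_lit 25, [nat_lit 44, nat_lit 5, nat_lit 5, nat_lit 20], false, nat_lit 160, nat_lit 232, nat_lit 16, nat_lit 360, ⟨nat_lit 233, nat_lit 767, nat_lit 0, nat_lit 8, nat_lit 303, nat_lit 767, nat_lit 157, nat_lit 0, nat_lit 0, nat_lit 0, nat_lit 0, nat_lit 0, nat_lit 37199311, nat_lit 22098505, nat_lit 7702184, nat_lit 5046950, true, true⟩,
 nat_lit 0, nat_lit 0, nat_lit 4021, nat_lit 0, nat_lit 3746, nat_lit 2233, nat_lit 0, nat_lit 0, nat_lit 0, nat_lit 141, nat_lit 0, nat_lit 0, nat_lit 0, nat_lit 0, nat_lit 0, nat_lit 191750, nat_lit 0, nat_lit 0, [(nat_lit 26, [(nat_lit 0, nat_lit 767)])],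
 ⟨p115_k37, nat_lit 0, nat_lit 0, nat_lit 78, nat_lit 0, nat_lit 0, [nat_lit 805769201, nat_lit 2407862400, nat_lit 3783861600], [], [nat_lit 27009855026, nat_lit 27574203436, nat_lit 28492768983, nat_lit 29015596003, nat_lit 28255566209, nat_lit 28760084995, nat_lit 29578750198, nat_lit 30047228940], nat_lit 0, nat_lit 0, nat_lit 0, nat_lit 0, nat_lit 0, nat_lit 0, [], [nat_lit 57, nat_lit 40, nat_lit 40, nat_lit 80, nat_lit 7, nat_lit 272, nat_lit 60, nat_lit 7]⟩, ⟨p115_k32, nat_lit 0, nat_lit 0, nat_lit 445, nat_lit 0, nat_lit 362478, [nat_lit 1092304000, nat_lit 2293186000, nat_lit 3275514000], [], [nat_lit 9119349421, nat_lit 9142375412, nat_lit 9470340711, nat_lit 9488598260, nat_lit 8028078483, nat_lit 8037034076, nat_lit 8288422245, nat_lit 8296929726], nat_lit 1271250, nat_lit 1271250, nat_lit 1271250, nat_lit 1271250, nat_lit 88400, nat_lit 2569500, [nat_lit 1100000, nat_lit 2127500, nat_lit 1271250], [nat_lit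 56, nat_lit 40, nat_lit 40, nat_lit 80, nat_lit 32, nat_lit 483, nat_lit 250, nat_lit 11]⟩,
 ⟨nat_lit 2236, nat_lit 2739, ⟨.ofNat (nat_lit 733226), .ofNat (nat_lit 780475), .ofNat (nat_lit 738830), .ofNat (nat_lit 786079), .ofNat (nat_lit 727981), .ofNat (nat_lit 773593), .ofNat (nat_lit 733674), .ofNat (nat_lit 779287)⟩, ⟨.ofNat (nat_lit 328850), .ofNat (nat_lit 435161), .ofNat (nat_lit 351268), .ofNat (nat_lit 457578), .ofNat (nat_lit 329112), .ofNat (nat_lit 431740), .ofNat (nat_lit 351886), .ofNat (nat_lit 454514)⟩⟩, [⟨nat_lit 13, nat_lit 50, nat_lit 74, nat_lit 100, nat_lit 236204787⟩, ⟨nat_lit 4, nat_lit 100, nat_lit 48, nat_lit 89, nat_lit 345686215⟩, ⟨nat_lit 22, nat_lit 73, nat_lit 69, nat_lit 100, nat_lit 39794163⟩]⟩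
noncomputable def p115_l74 : Lf2 := ⟨nat_lit 0, nat_lit 25, [nat_lit 44, nat_lit 5, nat_lit 5, nat_lit 20], false, nat_lit 160, nat_lit 232, nat_lit 16, nat_lit 356, ⟨nat_lit 235, nat_lit 765, nat_lit 0, nat_lit 8, nat_lit 305, nat_lit 765, nat_lit 157, nat_lit 0, nat_lit 0, nat_lit 0, nat_lit 0, nat_lit 0, nat_lit 37024641, nat_lit 22298966, nat_lit 7676393, nat_lit 5051583, true, true⟩,
 nat_lit 0, nat_lit 0, nat_lit 3816, nat_lit 0, nat_lit 3752, nat_lit 2170, nat_lit 0, nat_lit 0, nat_lit 0, nat_lit 146, nat_lit 0, nat_lit 0, nat_lit 0, nat_lit 0, nat_lit 0, nat_lit 191250, nat_lit 0, nat_lit 0, [(nat_lit 26, [(nat_lit 0, nat_lit 765)])],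
 ⟨p115_k37, nat_lit 0, nat_lit 0, nat_lit 78, nat_lit 0, nat_lit 0, [nat_lit 806114001, nat_lit 2413808001, nat_lit 3794772000], [], [nat_lit 27014287313, nat_lit 27579047233, nat_lit 28498113035, nat_lit 29021302350, nat_lit 28259421322, nat_lit 28764283254, nat_lit 29583338258, nat_lit 30052117702], nat_lit 0, nat_lit 0, nat_lit 0, nat_lit 0, nat_lit 0, nat_lit 0, [], [nat_lit 57, nat_lit 40, nat_lit 40, nat_lit 80, nat_lit 7, nat_lit 272, nat_lit 60, nat_lit 7]⟩, ⟨p115_k40, nat_lit 0, nat_lit 0, nat_lit 450, nat_lit 0, nat_lit 377341, [nat_lit 1101680000, nat_lit 2312870000, nat_lit 3303630000], [], [nat_lit 9071533914, nat_lit 9094853574, nat_lit 9414691176, nat_lit 9433351658, nat_lit 8040137729, nat_lit 8050118603, nat_lit 8256390301, nat_lit 8263117161], nat_lit 1271250, nat_lit 1271250, nat_lit 1271250, nat_lit 1271250, nat_lit 88400, nat_lit 2540650, [nat_lit 1100000, nat_lit 2127500, nat_lit 1271250], [nat_lit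 56, nat_lit 40, nat_lit 40, nat_lit 80, nat_lit 32, nat_lit 483, nat_lit 250, nat_lit 11]⟩,
 ⟨nat_lit 2236, nat_lit 2739, ⟨.ofNat (nat_lit 738830), .ofNat (nat_lit 786079), .ofNat (nat_lit 744435), .ofNat (nat_lit 791684), .ofNat (nat_lit 733674), .ofNat (nat_lit 779287), .ofNat (nat_lit 739368), .ofNat (nat_lit 784980)⟩, ⟨.ofNat (nat_lit 328850), .ofNat (nat_lit 435161), .ofNat (nat_lit 351268), .ofNat (nat_lit 457578), .ofNat (nat_lit 329112), .ofNat (nat_lit 431740), .ofNat (nat_lit 351886), .ofNat (nat_lit 454514)⟩⟩, [⟨nat_lit 13, nat_lit 51, nat_lit 73, nat_lit 100, nat_lit 268112804⟩, ⟨nat_lit 16, nat_lit 48, nat_lit 100, nat_lit 89, nat_lit 300222619⟩, ⟨nat_lit 7, nat_lit 72, nat_lit 100, nat_lit 93, nat_lit 31503420⟩]⟩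
noncomputable def p115_l75 : Lf2 := ⟨nat_lit 0, nat_lit 30, [nat_lit 15, nat_lit 5, nat_lit 5, nat_lit 20], false, nat_lit 160, nat_lit 232, nat_lit 16, nat_lit 364, ⟨nat_lit 1000, nat_lit 0, nat_lit 0, nat_lit 0, nat_lit 0, nat_lit 0, nat_lit 0, nat_lit 0, nat_lit 0, nat_lit 0, nat_lit 0, nat_lit 0, nat_lit 0, nat_lit 0, nat_lit 0, nat_lit 0, false, false⟩,
 nat_lit 0, nat_lit 0, nat_lit 19041, nat_lit 0, nat_lit 5569, nat_lit 10080, nat_lit 0, nat_lit 0, nat_lit 0, nat_lit 645, nat_lit 0, nat_lit 0, nat_lit 0, nat_lit 0, nat_lit 0, nat_lit 0, nat_lit 0, nat_lit 0, [],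
 ⟨p115_k41, nat_lit 0, nat_lit 0, nat_lit 77, nat_lit 0, nat_lit 0, [nat_lit 938000000, nat_lit 4688000000, nat_lit 7968000000], [], [nat_lit 28830197389, nat_lit 29519576254, nat_lit 30370143573, nat_lit 31010107368, nat_lit 29900543993, nat_lit 30509321972, nat_lit 31253187008, nat_lit 31887441393], nat_lit 0, nat_lit 0, nat_lit 0, nat_lit 0, nat_lit 0, nat_lit 0, [], [nat_lit 57, nat_lit 40, nat_lit 40, nat_lit 80, nat_lit 7, nat_lit 272, nat_lit 60, nat_lit 7]⟩, ⟨p115_k6, nat_lit 0, nat_lit 0, nat_lit 417, nat_lit 0, nat_lit 140622, [nat_lit 4688000000, nat_lit 9842000000, nat_lit 16400000000], [], [nat_lit 40697467600, nat_lit 40978219344, nat_lit 42555452227, nat_lit 42789975578, nat_lit 35101301504, nat_lit 35154560658, nat_lit 35959975168, nat_lit 35987232282], nat_lit 1271250, nat_lit 1271250, nat_lit 1271250, nat_lit 1271250, nat_lit 88400, nat_lit 2598350, [nat_lit 1100000, nat_lit 2127500, nat_lit 1271250],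 [nat_lit 83, nat_lit 40, nat_lit 40, nat_lit 80, nat_lit 73, nat_lit 483, nat_lit 250, nat_lit 10]⟩,
 zbF0, [⟨nat_lit 4, nat_lit 100, nat_lit 48, nat_lit 89, nat_lit 636189426⟩, ⟨nat_lit 19, nat_lit 100, nat_lit 66, nat_lit 92, nat_lit 111183019⟩]⟩
noncomputable def p115_l76 : Lf2 := ⟨nat_lit 0, nat_lit 30, [nat_lit 15, nat_lit 5, nat_lit 5, nat_lit 20], false, nat_lit 160, nat_lit 232, nat_lit 16, nat_lit 360, ⟨nat_lit 1000, nat_lit 0, nat_lit 0, nat_lit 0, nat_lit 0, nat_lit 0, nat_lit 0, nat_lit 0, nat_lit 0, nat_lit 0, nat_lit 0, nat_lit 0, nat_lit 0, nat_lit 0, nat_lit 0, nat_lit 0, false, false⟩,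
 nat_lit 0, nat_lit 0, nat_lit 17217, nat_lit 0, nat_lit 5543, nat_lit 9565, nat_lit 0, nat_lit 0, nat_lit 0, nat_lit 602, nat_lit 0, nat_lit 0, nat_lit 0, nat_lit 0, nat_lit 0, nat_lit 0, nat_lit 0, nat_lit 0, [],
 ⟨p115_k41, nat_lit 0, nat_lit 0, nat_lit 78, nat_lit 0, nat_lit 0, [nat_lit 938000000, nat_lit 4688000000, nat_lit 7968000000], [], [nat_lit 28836755083, nat_lit 29524350738, nat_lit 30592742598, nat_lit 31224077150, nat_lit 29909602773, nat_lit 30516893786, nat_lit 31452304400, nat_lit 32074683902], nat_lit 0, nat_lit 0, nat_lit 0, nat_lit 0, nat_lit 0, nat_lit 0, [], [nat_lit 57, nat_lit 40, nat_lit 40, nat_lit 80, nat_lit 7, nat_lit 272, nat_lit 60, nat_lit 7]⟩, ⟨p115_k8, nat_lit 0, nat_lit 0, nat_lit 379, nat_lit 0, nat_lit 184956, [nat_lit 4688000000, nat_lit 9842000000, nat_lit 14058000000], [], [nat_lit 39194504407, nat_lit 39392196088, nat_lit 40699497260, nat_lit 40856326433, nat_lit 34498681648,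 nat_lit 34578164795, nat_lit 35618361362, nat_lit 35691639103], nat_lit 1271250, nat_lit 1271250, nat_lit 1271250, nat_lit 1271250, nat_lit 88400, nat_lit 2569500, [nat_lit 1100000, nat_lit 2127500, nat_lit 1271250], [nat_lit 56, nat_lit 40, nat_lit 40, nat_lit 80, nat_lit 32, nat_lit 483, nat_lit 250, nat_lit 11]⟩,
 zbF0, [⟨nat_lit 13, nat_lit 45, nat_lit 79, nat_lit 100, nat_lit 65996312⟩, ⟨nat_lit 4, nat_lit 100, nat_lit 48, nat_lit 89, nat_lit 636643841⟩, ⟨nat_lit 19, nat_lit 100, nat_lit 71, nat_lit 93, nat_lit 133427591⟩]⟩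
noncomputable def p115_l77 : Lf2 := ⟨nat_lit 0, nat_lit 30, [nat_lit 15, nat_lit 5, nat_lit 5, nat_lit 20], false, nat_lit 160, nat_lit 248, nat_lit 16, nat_lit 160, ⟨nat_lit 370, nat_lit 630, nat_lit 0, nat_lit 8, nat_lit 312, nat_lit 630, nat_lit 157, nat_lit 0, nat_lit 0, nat_lit 0, nat_lit 0, nat_lit 0, nat_lit 36478020, nat_lit 22895465, nat_lit 7626515, nat_lit 5067802, true, true⟩,
 nat_lit 0, nat_lit 0, nat_lit 4522, nat_lit 0, nat_lit 4134, nat_lit 2632, nat_lit 0, nat_lit 0, nat_lit 0, nat_lit 210, nat_lit 0, nat_lit 0, nat_lit 0, nat_lit 0, nat_lit 0, nat_lit 157500, nat_lit 0, nat_lit 0, [(nat_lit 26, [(nat_lit 0, nat_lit 630)])],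
 ⟨p115_k42, nat_lit 0, nat_lit 0, nat_lit 80, nat_lit 0, nat_lit 0, [nat_lit 829388000, nat_lit 2897288000, nat_lit 5443192400], [], [nat_lit 26810460264, nat_lit 27992379044, nat_lit 28793683600, nat_lit 29863842576, nat_lit 28462357520, nat_lit 29486058625, nat_lit 30172213606, nat_lit 31196649036], nat_lit 0, nat_lit 0, nat_lit 0, nat_lit 0, nat_lit 0, nat_lit 0, [], [nat_lit 81, nat_lit 40, nat_lit 40, nat_lit 80, nat_lit 13, nat_lit 289, nat_lit 75, nat_lit 7]⟩, ⟨p115_k18, nat_lit 0, nat_lit 0, nat_lit 588, nat_lit 0, nat_lit 652883, [nat_lit 1734560000, nat_lit 3641540000, nat_lit 5201460000], [], [nat_lit 16150561696, nat_lit 16189791345, nat_lit 16540378867, nat_lit 16589260390, nat_lit 14473449188, nat_lit 14510584666, nat_lit 14876130472, nat_lit 14914584436], nat_lit 1271250, nat_lit 1271250, nat_lit 1271250, nat_lit 1271250, nat_lit 88400, nat_lit 1100001, [nat_lit 1100000, nat_lit 2127500, nat_lit 1271250],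 [nat_lit 56, nat_lit 40, nat_lit 40, nat_lit 80, nat_lit 32, nat_lit 428, nat_lit 200, nat_lit 9]⟩,
 ⟨nat_lit 2236, nat_lit 3163, ⟨.ofNat (nat_lit 749323), .ofNat (nat_lit 810277), .ofNat (nat_lit 760401), .ofNat (nat_lit 821354), .ofNat (nat_lit 739368), .ofNat (nat_lit 796384), .ofNat (nat_lit 750755), .ofNat (nat_lit 807771)⟩, ⟨.ofNat (nat_lit 306116), .ofNat (nat_lit 440213), .ofNat (nat_lit 350426), .ofNat (nat_lit 484523), .ofNat (nat_lit 306337), .ofNat (nat_lit 431772), .ofNat (nat_lit 351886), .ofNat (nat_lit 477320)⟩⟩, [⟨nat_lit 13, nat_lit 46, nat_lit 76, nat_lit 100, nat_lit 288395913⟩, ⟨nat_lit 4, nat_lit 100, nat_lit 53, nat_lit 87, nat_lit 364234890⟩, ⟨nat_lit 9, nat_lit 100, nat_lit 71, nat_lit 71, nat_lit 3568385⟩]⟩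
noncomputable def p115_l78 : Lf2 := ⟨nat_lit 0, nat_lit 30, [nat_lit 15, nat_lit 5, nat_lit 5, nat_lit 20], false, nat_lit 160, nat_lit 248, nat_lit 16, nat_lit 160, ⟨nat_lit 1000, nat_lit 0, nat_lit 0, nat_lit 0, nat_lit 0, nat_lit 0, nat_lit 0, nat_lit 0, nat_lit 0, nat_lit 0, nat_lit 0, nat_lit 0, nat_lit 0, nat_lit 0, nat_lit 0, nat_lit 0, false, false⟩,
 nat_lit 0, nat_lit 0, nat_lit 11528, nat_lit 0, nat_lit 5491, nat_lit 7020, nat_lit 0, nat_lit 0, nat_lit 0, nat_lit 1376, nat_lit 0, nat_lit 0, nat_lit 0, nat_lit 0, nat_lit 0, nat_lit 0, nat_lit 0, nat_lit 0, [],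
 ⟨p115_k42, nat_lit 0, nat_lit 0, nat_lit 80, nat_lit 0, nat_lit 0, [nat_lit 938000000, nat_lit 4688000000, nat_lit 9842000000], [], [nat_lit 28165841236, nat_lit 29533899706, nat_lit 30420741400, nat_lit 31649213424, nat_lit 29703917131, nat_lit 30875637626, nat_lit 31620593045, nat_lit 32763974265], nat_lit 0, nat_lit 0, nat_lit 0, nat_lit 0, nat_lit 0, nat_lit 0, [], [nat_lit 81, nat_lit 40, nat_lit 40, nat_lit 80, nat_lit 13, nat_lit 289, nat_lit 75, nat_lit 7]⟩, ⟨p115_k26, nat_lit 0, nat_lit 0, nat_lit 593, nat_lit 0, nat_lit 672893, [nat_lit 4688000000, nat_lit 9842000000, nat_lit 14058000000], [], [nat_lit 32576210952, nat_lit 32741684576, nat_lit 33867286892, nat_lit 34000258001, nat_lit 28463956000, nat_lit 28584396240, nat_lit 29432192160, nat_lit 29531844400], nat_lit 1271250, nat_lit 1271250, nat_lit 1271250, nat_lit 1271250, nat_lit 88400, nat_lit 1100001, [nat_lit 1100000, nat_lit 2127500, nat_lit 1271250],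 [nat_lit 56, nat_lit 40, nat_lit 40, nat_lit 80, nat_lit 32, nat_lit 428, nat_lit 200, nat_lit 9]⟩,
 zbF0, [⟨nat_lit 4, nat_lit 100, nat_lit 53, nat_lit 87, nat_lit 614139260⟩]⟩
noncomputable def p115_l79 : Lf2 := ⟨nat_lit 0, nat_lit 25, [nat_lit 44, nat_lit 5, nat_lit 5, nat_lit 20], false, nat_lit 160, nat_lit 224, nat_lit 160, nat_lit 336, ⟨nat_lit 232, nat_lit 768, nat_lit 0, nat_lit 8, nat_lit 313, nat_lit 768, nat_lit 146, nat_lit 0, nat_lit 0, nat_lit 0, nat_lit 0, nat_lit 0, nat_lit 36889272, nat_lit 23256259, nat_lit 6854469, nat_lit 4969461, true, true⟩,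
 nat_lit 0, nat_lit 0, nat_lit 3373, nat_lit 0, nat_lit 3768, nat_lit 1963, nat_lit 0, nat_lit 0, nat_lit 0, nat_lit 123, nat_lit 0, nat_lit 0, nat_lit 0, nat_lit 0, nat_lit 0, nat_lit 192000, nat_lit 0, nat_lit 0, [(nat_lit 26, [(nat_lit 0, nat_lit 768)])],
 ⟨p115_k36, nat_lit 0, nat_lit 0, nat_lit 77, nat_lit 0, nat_lit 0, [nat_lit 805596800, nat_lit 2404889601, nat_lit 3778406400], [], [nat_lit 26435476129, nat_lit 27001333409, nat_lit 28345424801, nat_lit 28859154777, nat_lit 27594298504, nat_lit 28106751080, nat_lit 29319922952, nat_lit 29786366189], nat_lit 0, nat_lit 0, nat_lit 0, nat_lit 0, nat_lit 0, nat_lit 0, [], [nat_lit 57, nat_lit 40, nat_lit 40, nat_lit 80, nat_lit 7, nat_lit 272, nat_lit 60, nat_lit 7]⟩, ⟨p115_k33, nat_lit 0, nat_lit 0, nat_lit 382, nat_lit 0, nat_lit 452716, [nat_lit 1087616000, nat_lit 2283344000, nat_lit 3261456000], [], [nat_lit 7829034536, nat_lit 7866558594, nat_lit 8169027172,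 nat_lit 8197430092, nat_lit 8141562328, nat_lit 8153460077, nat_lit 8349632785, nat_lit 8355473350], nat_lit 1271250, nat_lit 1271250, nat_lit 1271250, nat_lit 1271250, nat_lit 1100001, nat_lit 2607000, [nat_lit 1100000, nat_lit 2127500, nat_lit 1271250], [nat_lit 56, nat_lit 40, nat_lit 40, nat_lit 80, nat_lit 32, nat_lit 483, nat_lit 250, nat_lit 10]⟩,
 ⟨nat_lit 2738, nat_lit 3163, ⟨.ofNat (nat_lit 749323), .ofNat (nat_lit 810277), .ofNat (nat_lit 760401), .ofNat (nat_lit 821354), .ofNat (nat_lit 744435), .ofNat (nat_lit 803496), .ofNat (nat_lit 755643), .ofNat (nat_lit 814705)⟩, ⟨.ofNat (nat_lit 306116), .ofNat (nat_lit 403641), .ofNat (nat_lit 328271), .ofNat (nat_lit 425796), .ofNat (nat_lit 306433), .ofNat (nat_lit 400931), .ofNat (nat_lit 328850), .ofNat (nat_lit 423348)⟩⟩, [⟨nat_lit 13, nat_lit 55, nat_lit 68, nat_lit 100, nat_lit 237301596⟩, ⟨nat_lit 4, nat_lit 100, nat_lit 57, nat_lit 84, nat_lit 264227384⟩,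 ⟨nat_lit 7, nat_lit 84, nat_lit 100, nat_lit 88, nat_lit 65337113⟩]⟩
noncomputable def p115_l80 : Lf2 := ⟨nat_lit 0, nat_lit 25, [nat_lit 44, nat_lit 5, nat_lit 5, nat_lit 20], false, nat_lit 160, nat_lit 208, nat_lit 160, nat_lit 336, ⟨nat_lit 178, nat_lit 822, nat_lit 0, nat_lit 8, nat_lit 311, nat_lit 822, nat_lit 141, nat_lit 0, nat_lit 0, nat_lit 0, nat_lit 0, nat_lit 0, nat_lit 37304280, nat_lit 23159787, nat_lit 6535933, nat_lit 4917163, true, true⟩,
 nat_lit 0, nat_lit 0, nat_lit 2629, nat_lit 0, nat_lit 3618, nat_lit 1530, nat_lit 0, nat_lit 0, nat_lit 0, nat_lit 99, nat_lit 0, nat_lit 0, nat_lit 0, nat_lit 0, nat_lit 0, nat_lit 205500, nat_lit 0, nat_lit 0, [(nat_lit 26, [(nat_lit 0, nat_lit 822)])],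
 ⟨p115_k37, nat_lit 0, nat_lit 0, nat_lit 80, nat_lit 0, nat_lit 0, [nat_lit 796287201, nat_lit 2244358400, nat_lit 3483825600], [], [nat_lit 26878635058, nat_lit 27434204588, nat_lit 28707963776, nat_lit 29212943952, nat_lit 27717317871, nat_lit 28233973273, nat_lit 29416717265, nat_lit 29903434989], nat_lit 0, nat_lit 0, nat_lit 0, nat_lit 0, nat_lit 0, nat_lit 0, [], [nat_lit 57, nat_lit 40, nat_lit 40, nat_lit 80, nat_lit 7, nat_lit 272, nat_lit 60, nat_lit 7]⟩, ⟨p115_k33, nat_lit 0, nat_lit 0, nat_lit 451, nat_lit 0, nat_lit 629803, [nat_lit 834464000, nat_lit 1751876000, nat_lit 2502324000], [], [nat_lit 5893754516, nat_lit 5922415964, nat_lit 6156177680, nat_lit 6177748118, nat_lit 6127737932, nat_lit 6136485859, nat_lit 6325684922, nat_lit 6339335765], nat_lit 1271250, nat_lit 1271250, nat_lit 1271250, nat_lit 1271250, nat_lit 1100001, nat_lit 2607000, [nat_lit 1100000, nat_lit 2127500, nat_lit 1271250],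 [nat_lit 56, nat_lit 40, nat_lit 40, nat_lit 80, nat_lit 32, nat_lit 483, nat_lit 250, nat_lit 10]⟩,
 ⟨nat_lit 2236, nat_lit 2739, ⟨.ofNat (nat_lit 744435), .ofNat (nat_lit 803496), .ofNat (nat_lit 755643), .ofNat (nat_lit 814705), .ofNat (nat_lit 739368), .ofNat (nat_lit 796384), .ofNat (nat_lit 750755), .ofNat (nat_lit 807771)⟩, ⟨.ofNat (nat_lit 306433), .ofNat (nat_lit 377306), .ofNat (nat_lit 328850), .ofNat (nat_lit 399724), .ofNat (nat_lit 306337), .ofNat (nat_lit 374756), .ofNat (nat_lit 329112), .ofNat (nat_lit 397530)⟩⟩, [⟨nat_lit 13, nat_lit 51, nat_lit 71, nat_lit 100, nat_lit 309183427⟩, ⟨nat_lit 4, nat_lit 100, nat_lit 49, nat_lit 84, nat_lit 292052286⟩, ⟨nat_lit 7, nat_lit 84, nat_lit 100, nat_lit 88, nat_lit 51469810⟩]⟩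
noncomputable def p115_l81 : Lf2 := ⟨nat_lit 0, nat_lit 25, [nat_lit 44, nat_lit 5, nat_lit 5, nat_lit 20], false, nat_lit 160, nat_lit 224, nat_lit 160, nat_lit 328, ⟨nat_lit 220, nat_lit 780, nat_lit 0, nat_lit 8, nat_lit 315, nat_lit 780, nat_lit 146, nat_lit 0, nat_lit 0, nat_lit 0, nat_lit 0, nat_lit 0, nat_lit 36732787, nat_lit 23455976, nat_lit 6811237, nat_lit 4970168, true, true⟩,
 nat_lit 0, nat_lit 0, nat_lit 2935, nat_lit 0, nat_lit 3708, nat_lit 1787, nat_lit 0, nat_lit 0, nat_lit 0, nat_lit 128, nat_lit 0, nat_lit 0, nat_lit 0, nat_lit 0, nat_lit 0, nat_lit 195000, nat_lit 0, nat_lit 0, [(nat_lit 26, [(nat_lit 0, nat_lit 780)])],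
 ⟨p115_k36, nat_lit 0, nat_lit 0, nat_lit 80, nat_lit 0, nat_lit 0, [nat_lit 803528000, nat_lit 2369216000, nat_lit 3712944000], [], [nat_lit 26419050768, nat_lit 27542535128, nat_lit 28316987200, nat_lit 29337447312, nat_lit 27582395895, nat_lit 28600286207, nat_lit 29298070183, nat_lit 30249462623], nat_lit 0, nat_lit 0, nat_lit 0, nat_lit 0, nat_lit 0, nat_lit 0, [], [nat_lit 57, nat_lit 40, nat_lit 40, nat_lit 80, nat_lit 7, nat_lit 272, nat_lit 60, nat_lit 7]⟩, ⟨p115_k34, nat_lit 0, nat_lit 0, nat_lit 445, nat_lit 0, nat_lit 618674, [nat_lit 1031360000, nat_lit 2165240000, nat_lit 3092760000], [], [nat_lit 7133618462, nat_lit 7151610279, nat_lit 7442784820, nat_lit 7456596646, nat_lit 7379317237, nat_lit 7390037636, nat_lit 7636545858, nat_lit 7646316106], nat_lit 1271250, nat_lit 1271250, nat_lit 1271250, nat_lit 1271250, nat_lit 1100001, nat_lit 2538500, [nat_lit 1100000, nat_lit 2127500, nat_lit 1271250],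 [nat_lit 56, nat_lit 40, nat_lit 40, nat_lit 80, nat_lit 32, nat_lit 483, nat_lit 250, nat_lit 10]⟩,
 ⟨nat_lit 2236, nat_lit 3163, ⟨.ofNat (nat_lit 760401), .ofNat (nat_lit 821354), .ofNat (nat_lit 765939), .ofNat (nat_lit 826893), .ofNat (nat_lit 750755), .ofNat (nat_lit 807771), .ofNat (nat_lit 756449), .ofNat (nat_lit 813464)⟩, ⟨.ofNat (nat_lit 306116), .ofNat (nat_lit 403641), .ofNat (nat_lit 328271), .ofNat (nat_lit 425796), .ofNat (nat_lit 306337), .ofNat (nat_lit 397562), .ofNat (nat_lit 329112), .ofNat (nat_lit 420336)⟩⟩, [⟨nat_lit 13, nat_lit 57, nat_lit 65, nat_lit 100, nat_lit 246899230⟩, ⟨nat_lit 4, nat_lit 100, nat_lit 53, nat_lit 84, nat_lit 288222420⟩, ⟨nat_lit 7, nat_lit 87, nat_lit 100, nat_lit 90, nat_lit 61450816⟩]⟩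
noncomputable def p115_l82 : Lf2 := ⟨nat_lit 0, nat_lit 25, [nat_lit 44, nat_lit 5, nat_lit 5, nat_lit 20], false, nat_lit 160, nat_lit 224, nat_lit 160, nat_lit 324, ⟨nat_lit 363, nat_lit 637, nat_lit 0, nat_lit 8, nat_lit 317, nat_lit 637, nat_lit 146, nat_lit 0, nat_lit 0, nat_lit 0, nat_lit 0, nat_lit 0, nat_lit 36557101, nat_lit 23655084, nat_lit 6787815, nat_lit 4973620, true, true⟩,
 nat_lit 0, nat_lit 0, nat_lit 3915, nat_lit 0, nat_lit 4055, nat_lit 2437, nat_lit 0, nat_lit 0, nat_lit 0, nat_lit 409, nat_lit 0, nat_lit 0, nat_lit 0, nat_lit 0, nat_lit 0, nat_lit 159250, nat_lit 0, nat_lit 0, [(nat_lit 26, [(nat_lit 0, nat_lit 637)])],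
 ⟨p115_k36, nat_lit 0, nat_lit 0, nat_lit 80, nat_lit 0, nat_lit 0, [nat_lit 828181200, nat_lit 2794326400, nat_lit 4493037600], [], [nat_lit 26732842180, nat_lit 27903924530, nat_lit 28700249400, nat_lit 29761191920, nat_lit 27870030724, nat_lit 28928490194, nat_lit 29643250105, nat_lit 30659749454], nat_lit 0, nat_lit 0, nat_lit 0, nat_lit 0, nat_lit 0, nat_lit 0, [], [nat_lit 57, nat_lit 40, nat_lit 40, nat_lit 80, nat_lit 7, nat_lit 272, nat_lit 60, nat_lit 7]⟩, ⟨p115_k43, nat_lit 0, nat_lit 0, nat_lit 448, nat_lit 0, nat_lit 629116, [nat_lit 1701744000, nat_lit 3572646000, nat_lit 5103054000], [], [nat_lit 10710555185, nat_lit 10739239074, nat_lit 11126534119, nat_lit 11150186782, nat_lit 11189135542, nat_lit 11204123766, nat_lit 11582653929, nat_lit 11602510530], nat_lit 1271250, nat_lit 1271250, nat_lit 1271250, nat_lit 1271250, nat_lit 1100001, nat_lit 2504250, [nat_lit 1100000, nat_lit 2127500, nat_lit 1271250],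 [nat_lit 56, nat_lit 40, nat_lit 40, nat_lit 80, nat_lit 32, nat_lit 483, nat_lit 250, nat_lit 10]⟩,
 ⟨nat_lit 2236, nat_lit 3163, ⟨.ofNat (nat_lit 765939), .ofNat (nat_lit 826893), .ofNat (nat_lit 771478), .ofNat (nat_lit 832432), .ofNat (nat_lit 756449), .ofNat (nat_lit 813464), .ofNat (nat_lit 762142), .ofNat (nat_lit 819158)⟩, ⟨.ofNat (nat_lit 306116), .ofNat (nat_lit 403641), .ofNat (nat_lit 328271), .ofNat (nat_lit 425796), .ofNat (nat_lit 306337), .ofNat (nat_lit 397562), .ofNat (nat_lit 329112), .ofNat (nat_lit 420336)⟩⟩, [⟨nat_lit 13, nat_lit 47, nat_lit 72, nat_lit 100, nat_lit 254642329⟩, ⟨nat_lit 4, nat_lit 100, nat_lit 53, nat_lit 84, nat_lit 345749401⟩, ⟨nat_lit 7, nat_lit 90, nat_lit 100, nat_lit 91, nat_lit 105170329⟩]⟩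
noncomputable def p115_l83 : Lf2 := ⟨nat_lit 0, nat_lit 22, [nat_lit 146, nat_lit 5, nat_lit 5, nat_lit 20], false, nat_lit 160, nat_lit 248, nat_lit 160, nat_lit 352, ⟨nat_lit 289, nat_lit 711, nat_lit 0, nat_lit 8, nat_lit 311, nat_lit 711, nat_lit 162, nat_lit 0, nat_lit 0, nat_lit 0, nat_lit 0, nat_lit 0, nat_lit 36358642, nat_lit 22693559, nat_lit 7947799, nat_lit 5104276, true, true⟩,
 nat_lit 0, nat_lit 0, nat_lit 4417, nat_lit 0, nat_lit 3890, nat_lit 2570, nat_lit 0, nat_lit 0, nat_lit 0, nat_lit 180, nat_lit 0, nat_lit 0, nat_lit 0, nat_lit 0, nat_lit 0, nat_lit 177750, nat_lit 0, nat_lit 0, [(nat_lit 26, [(nat_lit 0, nat_lit 711)])],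
 ⟨p115_k44, nat_lit 0, nat_lit 0, nat_lit 80, nat_lit 0, nat_lit 0, [nat_lit 815423600, nat_lit 2574339200, nat_lit 4089352800], [], [nat_lit 26565787640, nat_lit 27714236940, nat_lit 28500161200, nat_lit 29542345620, nat_lit 28238150932, nat_lit 29235236908, nat_lit 29910819077, nat_lit 30914830793], nat_lit 0, nat_lit 0, nat_lit 0, nat_lit 0, nat_lit 0, nat_lit 0, [], [nat_lit 57, nat_lit 40, nat_lit 40, nat_lit 80, nat_lit 7, nat_lit 289, nat_lit 75, nat_lit 8]⟩, ⟨p115_k45, nat_lit 0, nat_lit 0, nat_lit 306, nat_lit 0, nat_lit 370991, [nat_lit 1354832000, nat_lit 2844338000, nat_lit 4062762000], [], [nat_lit 9121761728, nat_lit 9144798045, nat_lit 9553460610, nat_lit 9570573560, nat_lit 9822521213, nat_lit 9835912670, nat_lit 10152083408, nat_lit 10164928775], nat_lit 1271250, nat_lit 1271250, nat_lit 1271250, nat_lit 1271250, nat_lit 1100001, nat_lit 2744000, [nat_lit 1100000, nat_lit 2127500, nat_lit 1271250],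 [nat_lit 56, nat_lit 40, nat_lit 40, nat_lit 80, nat_lit 32, nat_lit 483, nat_lit 250, nat_lit 10]⟩,
 ⟨nat_lit 2236, nat_lit 3163, ⟨.ofNat (nat_lit 749323), .ofNat (nat_lit 810277), .ofNat (nat_lit 754862), .ofNat (nat_lit 815815), .ofNat (nat_lit 739368), .ofNat (nat_lit 796384), .ofNat (nat_lit 745062), .ofNat (nat_lit 802077)⟩, ⟨.ofNat (nat_lit 328271), .ofNat (nat_lit 462368), .ofNat (nat_lit 350426), .ofNat (nat_lit 484523), .ofNat (nat_lit 329112), .ofNat (nat_lit 454546), .ofNat (nat_lit 351886), .ofNat (nat_lit 477320)⟩⟩, [⟨nat_lit 13, nat_lit 46, nat_lit 76, nat_lit 100, nat_lit 290136855⟩, ⟨nat_lit 4, nat_lit 100, nat_lit 53, nat_lit 90, nat_lit 309228092⟩, ⟨nat_lit 7, nat_lit 74, nat_lit 100, nat_lit 94, nat_lit 87678225⟩]⟩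
noncomputable def p115_l84 : Lf2 := ⟨nat_lit 0, nat_lit 22, [nat_lit 146, nat_lit 5, nat_lit 5, nat_lit 20], false, nat_lit 160, nat_lit 248, nat_lit 160, nat_lit 348, ⟨nat_lit 315, nat_lit 685, nat_lit 0, nat_lit 8, nat_lit 313, nat_lit 685, nat_lit 162, nat_lit 0, nat_lit 0, nat_lit 0, nat_lit 0, nat_lit 0, nat_lit 36189107, nat_lit 22890141, nat_lit 7920752, nat_lit 5107936, true, true⟩,
 nat_lit 0, nat_lit 0, nat_lit 4547, nat_lit 0, nat_lit 3947, nat_lit 2707, nat_lit 0, nat_lit 0, nat_lit 0, nat_lit 198, nat_lit 0, nat_lit 0, nat_lit 0, nat_lit 0, nat_lit 0, nat_lit 171250, nat_lit 0, nat_lit 0, [(nat_lit 26, [(nat_lit 0, nat_lit 685)])],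
 ⟨p115_k44, nat_lit 0, nat_lit 0, nat_lit 80, nat_lit 0, nat_lit 0, [nat_lit 819906000, nat_lit 2651632001, nat_lit 4231188000], [], [nat_lit 26624794613, nat_lit 27781062603, nat_lit 28570579801, nat_lit 29618922609, nat_lit 28292376905, nat_lit 29295680350, nat_lit 29973732396, nat_lit 30980665382], nat_lit 0, nat_lit 0, nat_lit 0, nat_lit 0, nat_lit 0, nat_lit 0, [], [nat_lit 57, nat_lit 40, nat_lit 40, nat_lit 80, nat_lit 7, nat_lit 289, nat_lit 75, nat_lit 8]⟩, ⟨p115_k46, nat_lit 0, nat_lit 0, nat_lit 312, nat_lit 0, nat_lit 386822, [nat_lit 1476720000, nat_lit 3100230000, nat_lit 4428270000], [], [nat_lit 9886348820, nat_lit 9911710942, nat_lit 10344437857, nat_lit 10363526765, nat_lit 10599955583, nat_lit 10615658039, nat_lit 10956342075, nat_lit 10966806735], nat_lit 1271250, nat_lit 1271250, nat_lit 1271250, nat_lit 1271250, nat_lit 1100001, nat_lit 2709750, [nat_lit 1100000, nat_lit 2127500, nat_lit 1271250],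 [nat_lit 56, nat_lit 40, nat_lit 40, nat_lit 80, nat_lit 32, nat_lit 483, nat_lit 250, nat_lit 10]⟩,
 ⟨nat_lit 2236, nat_lit 3163, ⟨.ofNat (nat_lit 754862), .ofNat (nat_lit 815815), .ofNat (nat_lit 760401), .ofNat (nat_lit 821354), .ofNat (nat_lit 745062), .ofNat (nat_lit 802077), .ofNat (nat_lit 750755), .ofNat (nat_lit 807771)⟩, ⟨.ofNat (nat_lit 328271), .ofNat (nat_lit 462368), .ofNat (nat_lit 350426), .ofNat (nat_lit 484523), .ofNat (nat_lit 329112), .ofNat (nat_lit 454546), .ofNat (nat_lit 351886), .ofNat (nat_lit 477320)⟩⟩, [⟨nat_lit 13, nat_lit 46, nat_lit 75, nat_lit 100, nat_lit 318211649⟩, ⟨nat_lit 4, nat_lit 100, nat_lit 53, nat_lit 90, nat_lit 336883292⟩, ⟨nat_lit 7, nat_lit 77, nat_lit 100, nat_lit 95, nat_lit 93664133⟩]⟩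
noncomputable def p115_l85 : Lf2 := ⟨nat_lit 0, nat_lit 25, [nat_lit 44, nat_lit 5, nat_lit 5, nat_lit 20], false, nat_lit 160, nat_lit 248, nat_lit 160, nat_lit 352, ⟨nat_lit 1000, nat_lit 0, nat_lit 0, nat_lit 0, nat_lit 0, nat_lit 0, nat_lit 0, nat_lit 0, nat_lit 0, nat_lit 0, nat_lit 0, nat_lit 0, nat_lit 0, nat_lit 0, nat_lit 0, nat_lit 0, false, false⟩,
 nat_lit 0, nat_lit 0, nat_lit 10042, nat_lit 0, nat_lit 5491, nat_lit 5845, nat_lit 0, nat_lit 0, nat_lit 0, nat_lit 584, nat_lit 0, nat_lit 0, nat_lit 0, nat_lit 0, nat_lit 0, nat_lit 0, nat_lit 0, nat_lit 0, [],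
 ⟨p115_k36, nat_lit 0, nat_lit 0, nat_lit 80, nat_lit 0, nat_lit 0, [nat_lit 938000000, nat_lit 4688000000, nat_lit 7968000000], [], [nat_lit 28165841236, nat_lit 29533899706, nat_lit 30420741400, nat_lit 31649213424, nat_lit 29703917131, nat_lit 30875637626, nat_lit 31620593045, nat_lit 32763974265], nat_lit 0, nat_lit 0, nat_lit 0, nat_lit 0, nat_lit 0, nat_lit 0, [], [nat_lit 57, nat_lit 40, nat_lit 40, nat_lit 80, nat_lit 7, nat_lit 289, nat_lit 75, nat_lit 8]⟩, ⟨p115_k33, nat_lit 0, nat_lit 0, nat_lit 288, nat_lit 0, nat_lit 327034, [nat_lit 4688000000, nat_lit 9842000000, nat_lit 14058000000], [], [nat_lit 32165234180, nat_lit 32407386790, nat_lit 33803408210, nat_lit 34009179335, nat_lit 35587986130, nat_lit 35716597532, nat_lit 36801518046, nat_lit 36925072920], nat_lit 1271250, nat_lit 1271250, nat_lit 1271250, nat_lit 1271250, nat_lit 1100001, nat_lit 2744000, [nat_lit 1100000, nat_lit 2127500, nat_lit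 1271250], [nat_lit 56, nat_lit 40, nat_lit 40, nat_lit 80, nat_lit 32, nat_lit 483, nat_lit 250, nat_lit 10]⟩,
 zbF0, [⟨nat_lit 13, nat_lit 46, nat_lit 76, nat_lit 100, nat_lit 24907203⟩, ⟨nat_lit 4, nat_lit 100, nat_lit 53, nat_lit 90, nat_lit 593667951⟩, ⟨nat_lit 19, nat_lit 100, nat_lit 76, nat_lit 94, nat_lit 327920132⟩]⟩
noncomputable def p115_l86 : Lf2 := ⟨nat_lit 0, nat_lit 22, [nat_lit 146, nat_lit 5, nat_lit 5, nat_lit 20], false, nat_lit 160, nat_lit 248, nat_lit 160, nat_lit 344, ⟨nat_lit 1000, nat_lit 0, nat_lit 0, nat_lit 0, nat_lit 0, nat_lit 0, nat_lit 0, nat_lit 0, nat_lit 0, nat_lit 0, nat_lit 0, nat_lit 0, nat_lit 0, nat_lit 0, nat_lit 0, nat_lit 0, false, false⟩,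
 nat_lit 0, nat_lit 0, nat_lit 13941, nat_lit 0, nat_lit 5491, nat_lit 8490, nat_lit 0, nat_lit 0, nat_lit 0, nat_lit 560, nat_lit 0, nat_lit 0, nat_lit 0, nat_lit 0, nat_lit 0, nat_lit 0, nat_lit 0, nat_lit 0, [],
 ⟨p115_k44, nat_lit 0, nat_lit 0, nat_lit 80, nat_lit 0, nat_lit 0, [nat_lit 938000000, nat_lit 4688000000, nat_lit 7968000000], [], [nat_lit 28165841236, nat_lit 29533899706, nat_lit 30420741400, nat_lit 31649213424, nat_lit 29703917131, nat_lit 30875637626, nat_lit 31620593045, nat_lit 32763974265], nat_lit 0, nat_lit 0, nat_lit 0, nat_lit 0, nat_lit 0, nat_lit 0, [], [nat_lit 57, nat_lit 40, nat_lit 40, nat_lit 80, nat_lit 7, nat_lit 289, nat_lit 75, nat_lit 8]⟩, ⟨p115_k47, nat_lit 0, nat_lit 0, nat_lit 326, nat_lit 0, nat_lit 432595, [nat_lit 4688000000, nat_lit 9842000000, nat_lit 11872000000], [], [nat_lit 31110969630, nat_lit 31316347520, nat_lit 32746615540, nat_lit 32908202320, nat_lit 33504855136,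 nat_lit 33609271889, nat_lit 34633295518, nat_lit 34704465285], nat_lit 1271250, nat_lit 1271250, nat_lit 1271250, nat_lit 1271250, nat_lit 1100001, nat_lit 2675500, [nat_lit 1100000, nat_lit 2127500, nat_lit 1271250], [nat_lit 125, nat_lit 40, nat_lit 40, nat_lit 80, nat_lit 41, nat_lit 401, nat_lit 175, nat_lit 9]⟩,
 zbF0, [⟨nat_lit 4, nat_lit 100, nat_lit 53, nat_lit 90, nat_lit 592446374⟩, ⟨nat_lit 7, nat_lit 81, nat_lit 100, nat_lit 96, nat_lit 290799657⟩]⟩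
noncomputable def p115_l87 : Lf2 := ⟨nat_lit 0, nat_lit 25, [nat_lit 44, nat_lit 5, nat_lit 5, nat_lit 20], false, nat_lit 160, nat_lit 248, nat_lit 160, nat_lit 344, ⟨nat_lit 1000, nat_lit 0, nat_lit 0, nat_lit 0, nat_lit 0, nat_lit 0, nat_lit 0, nat_lit 0, nat_lit 0, nat_lit 0, nat_lit 0, nat_lit 0, nat_lit 0, nat_lit 0, nat_lit 0, nat_lit 0, false, false⟩,
 nat_lit 0, nat_lit 0, nat_lit 13624, nat_lit 0, nat_lit 5491, nat_lit 8297, nat_lit 0, nat_lit 0, nat_lit 0, nat_lit 635, nat_lit 0, nat_lit 0, nat_lit 0, nat_lit 0, nat_lit 0, nat_lit 0, nat_lit 0, nat_lit 0, [],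
 ⟨p115_k36, nat_lit 0, nat_lit 0, nat_lit 80, nat_lit 0, nat_lit 0, [nat_lit 938000000, nat_lit 4688000000, nat_lit 7968000000], [], [nat_lit 28165841236, nat_lit 29533899706, nat_lit 30420741400, nat_lit 31649213424, nat_lit 29703917131, nat_lit 30875637626, nat_lit 31620593045, nat_lit 32763974265], nat_lit 0, nat_lit 0, nat_lit 0, nat_lit 0, nat_lit 0, nat_lit 0, [], [nat_lit 57, nat_lit 40, nat_lit 40, nat_lit 80, nat_lit 7, nat_lit 289, nat_lit 75, nat_lit 8]⟩, ⟨p115_k34, nat_lit 0, nat_lit 0, nat_lit 303, nat_lit 0, nat_lit 364216, [nat_lit 4688000000, nat_lit 9842000000, nat_lit 14058000000], [], [nat_lit 31182074387, nat_lit 31344699121, nat_lit 32598120625, nat_lit 32722068217, nat_lit 33322993316, nat_lit 33429479087, nat_lit 34445108741, nat_lit 34519123479], nat_lit 1271250, nat_lit 1271250, nat_lit 1271250, nat_lit 1271250, nat_lit 1100001, nat_lit 2675500, [nat_lit 1100000, nat_lit 2127500, nat_lit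 1271250], [nat_lit 56, nat_lit 40, nat_lit 40, nat_lit 80, nat_lit 32, nat_lit 483, nat_lit 250, nat_lit 10]⟩,
 zbF0, [⟨nat_lit 4, nat_lit 100, nat_lit 53, nat_lit 90, nat_lit 593125429⟩, ⟨nat_lit 7, nat_lit 81, nat_lit 100, nat_lit 96, nat_lit 290731940⟩]⟩
noncomputable def p115_l88 : Lf2 := ⟨nat_lit 0, nat_lit 30, [nat_lit 15, nat_lit 5, nat_lit 5, nat_lit 20], false, nat_lit 160, nat_lit 248, nat_lit 160, nat_lit 352, ⟨nat_lit 1000, nat_lit 0, nat_lit 0, nat_lit 0, nat_lit 0, nat_lit 0, nat_lit 0, nat_lit 0, nat_lit 0, nat_lit 0, nat_lit 0, nat_lit 0, nat_lit 0, nat_lit 0, nat_lit 0, nat_lit 0, false, false⟩,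
 nat_lit 0, nat_lit 0, nat_lit 10462, nat_lit 447, nat_lit 5491, nat_lit 6089, nat_lit 0, nat_lit 0, nat_lit 0, nat_lit 594, nat_lit 0, nat_lit 0, nat_lit 0, nat_lit 0, nat_lit 0, nat_lit 0, nat_lit 0, nat_lit 0, [],
 ⟨p115_k42, nat_lit 0, nat_lit 0, nat_lit 80, nat_lit 0, nat_lit 0, [nat_lit 938000000, nat_lit 4688000000, nat_lit 9842000000], [], [nat_lit 28165841236, nat_lit 29533899706, nat_lit 30420741400, nat_lit 31649213424, nat_lit 29703917131, nat_lit 30875637626, nat_lit 31620593045, nat_lit 32763974265], nat_lit 0, nat_lit 0, nat_lit 0, nat_lit 0, nat_lit 0, nat_lit 0, [], [nat_lit 81, nat_lit 40, nat_lit 40, nat_lit 80, nat_lit 13, nat_lit 289, nat_lit 75, nat_lit 7]⟩, ⟨p115_k18, nat_lit 0, nat_lit 0, nat_lit 274, nat_lit 0, nat_lit 292010, [nat_lit 4688000000, nat_lit 9842000000, nat_lit 14058000000], [], [nat_lit 31661995916, nat_lit 32147832480, nat_lit 33327296402, nat_lit 33737972452, nat_lit 35323834872,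 nat_lit 35624046364, nat_lit 36574834946, nat_lit 36816344467], nat_lit 1271250, nat_lit 1271250, nat_lit 1271250, nat_lit 1271250, nat_lit 1100001, nat_lit 2744000, [nat_lit 1100000, nat_lit 2127500, nat_lit 1271250], [nat_lit 56, nat_lit 40, nat_lit 40, nat_lit 80, nat_lit 32, nat_lit 483, nat_lit 250, nat_lit 10]⟩,
 zbF0, [⟨nat_lit 4, nat_lit 100, nat_lit 53, nat_lit 90, nat_lit 581667279⟩, ⟨nat_lit 7, nat_lit 78, nat_lit 100, nat_lit 95, nat_lit 328904322⟩]⟩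
noncomputable def b_V_900_600_20_54 : St := ⟨true, nat_lit 0, nat_lit 1, nat_lit 1, nat_lit 120, nat_lit 360, nat_lit 380, nat_lit 240, nat_lit 280, nat_lit 320, nat_lit 360, nat_lit 80, nat_lit 120, nat_lit 160, nat_lit 248, nat_lit 16, nat_lit 364, nat_lit 80, nat_lit 120, nat_lit 0, nat_lit 0, nat_lit 0, nat_lit 0⟩
theorem d_V_900_600_20_54 (h : EB TB.env) : Dead b_V_900_600_20_54 := chkB_sound0 h (T :=
(.spl (nat_lit 1) (nat_lit 260)
(.spl (nat_lit 3) (nat_lit 100)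
(.trX (nat_lit 16) (nat_lit 60) (nat_lit 100) (nat_lit 87) (nat_lit 224) (.trX (nat_lit 19) (nat_lit 100) (nat_lit 68) (nat_lit 88) (nat_lit 352) (.spl (nat_lit 1) (nat_lit 250)
(.leaf p115_l67)
(.trX (nat_lit 19) (nat_lit 100) (nat_lit 72) (nat_lit 89) (nat_lit 344) (.spl (nat_lit 0) (nat_lit 370)
(.leaf p115_l68)
(.trX (nat_lit 13) (nat_lit 55) (nat_lit 68) (nat_lit 100) (nat_lit 352) (.trX (nat_lit 16) (nat_lit 53) (nat_lit 100) (nat_lit 87) (nat_lit 208) (.leaf p115_l69))))))))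
(.spl (nat_lit 0) (nat_lit 370)
(.spl (nat_lit 6) (nat_lit 104)
(.leaf p115_l70)
(.leaf p115_l71))
(.trX (nat_lit 13) (nat_lit 55) (nat_lit 68) (nat_lit 100) (nat_lit 352) (.trX (nat_lit 16) (nat_lit 53) (nat_lit 100) (nat_lit 93) (nat_lit 232) (.spl (nat_lit 6) (nat_lit 100)
(.spl (nat_lit 1) (nat_lit 250)
(.trX (nat_lit 13) (nat_lit 54) (nat_lit 71) (nat_lit 100) (nat_lit 348) (.leaf p115_l72))
(.trX (nat_lit 19) (nat_lit 100) (nat_lit 64) (nat_lit 95) (nat_lit 360) (.spl (nat_lit 1) (nat_lit 255)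
(.leaf p115_l73)
(.trX (nat_lit 19) (nat_lit 100) (nat_lit 66) (nat_lit 95) (nat_lit 356) (.leaf p115_l74)))))
(.spl (nat_lit 1) (nat_lit 250)
(.trX (nat_lit 13) (nat_lit 54) (nat_lit 71) (nat_lit 100) (nat_lit 348) (.leaf p115_l75))
(.trX (nat_lit 19) (nat_lit 100) (nat_lit 64) (nat_lit 95) (nat_lit 360) (.leaf p115_l76))))))))
(.trX (nat_lit 19) (nat_lit 100) (nat_lit 69) (nat_lit 96) (nat_lit 352) (.spl (nat_lit 5) (nat_lit 160)
(.spl (nat_lit 1) (nat_lit 270)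
(.leaf p115_l77)
(.leaf p115_l78))
(.spl (nat_lit 3) (nat_lit 100)
(.trX (nat_lit 16) (nat_lit 60) (nat_lit 100) (nat_lit 87) (nat_lit 224) (.trX (nat_lit 19) (nat_lit 100) (nat_lit 77) (nat_lit 91) (nat_lit 336) (.spl (nat_lit 1) (nat_lit 270)
(.spl (nat_lit 0) (nat_lit 370)
(.leaf p115_l79)
(.trX (nat_lit 16) (nat_lit 53) (nat_lit 100) (nat_lit 87) (nat_lit 208) (.leaf p115_l80)))
(.trX (nat_lit 19) (nat_lit 100) (nat_lit 82) (nat_lit 92) (nat_lit 328) (.spl (nat_lit 1) (nat_lit 275)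
(.leaf p115_l81)
(.trX (nat_lit 19) (nat_lit 100) (nat_lit 85) (nat_lit 93) (nat_lit 324) (.leaf p115_l82)))))))
(.spl (nat_lit 6) (nat_lit 100)
(.spl (nat_lit 1) (nat_lit 270)
(.spl (nat_lit 6) (nat_lit 88)
(.spl (nat_lit 1) (nat_lit 265)
(.leaf p115_l83)
(.trX (nat_lit 19) (nat_lit 100) (nat_lit 71) (nat_lit 97) (nat_lit 348) (.leaf p115_l84)))
(.leaf p115_l85))
(.trX (nat_lit 19) (nat_lit 100) (nat_lit 74) (nat_lit 98) (nat_lit 344) (.spl (nat_lit 6) (nat_lit 88)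
(.leaf p115_l86)
(.leaf p115_l87))))
(.leaf p115_l88))))))) (by decide +kernel)
noncomputable def p115_l89 : Lf2 := ⟨nat_lit 0, nat_lit 30, [nat_lit 15, nat_lit 5, nat_lit 5, nat_lit 20], false, nat_lit 160, nat_lit 200, nat_lit 48, nat_lit 320, ⟨nat_lit 1000, nat_lit 0, nat_lit 0, nat_lit 0, nat_lit 0, nat_lit 0, nat_lit 0, nat_lit 0, nat_lit 0, nat_lit 0, nat_lit 0, nat_lit 0, nat_lit 0, nat_lit 0, nat_lit 0, nat_lit 0, false, false⟩,
 nat_lit 0, nat_lit 0, nat_lit 17173, nat_lit 0, nat_lit 5538, nat_lit 9091, nat_lit 0, nat_lit 0, nat_lit 0, nat_lit 550, nat_lit 0, nat_lit 0, nat_lit 0, nat_lit 0, nat_lit 0, nat_lit 0, nat_lit 0, nat_lit 0, [],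
 ⟨p115_k42, nat_lit 0, nat_lit 0, nat_lit 78, nat_lit 0, nat_lit 0, [nat_lit 938000000, nat_lit 4688000000, nat_lit 9842000000], [], [nat_lit 30415073200, nat_lit 31032050816, nat_lit 30661864247, nat_lit 31271883401, nat_lit 30902726704, nat_lit 31480332803, nat_lit 31133769144, nat_lit 31739408414], nat_lit 0, nat_lit 0, nat_lit 0, nat_lit 0, nat_lit 0, nat_lit 0, [], [nat_lit 81, nat_lit 40, nat_lit 40, nat_lit 80, nat_lit 13, nat_lit 260, nat_lit 50, nat_lit 6]⟩, ⟨p115_k6, nat_lit 0, nat_lit 0, nat_lit 507, nat_lit 0, nat_lit 468718, [nat_lit 4688000000, nat_lit 9842000000, nat_lit 16400000000], [], [nat_lit 42058662452, nat_lit 42256059089, nat_lit 42243695978, nat_lit 42432380624, nat_lit 36867065962, nat_lit 36849034082, nat_lit 36975889465, nat_lit 37010169191], nat_lit 1271250, nat_lit 1271250, nat_lit 1271250, nat_lit 1271250, nat_lit 279600, nat_lit 2323000, [nat_lit 1100000, nat_lit 2127500, nat_lit 1271250],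 [nat_lit 83, nat_lit 40, nat_lit 40, nat_lit 80, nat_lit 73, nat_lit 483, nat_lit 250, nat_lit 10]⟩,
 zbF0, [⟨nat_lit 13, nat_lit 63, nat_lit 61, nat_lit 100, nat_lit 5198445323⟩, ⟨nat_lit 16, nat_lit 57, nat_lit 100, nat_lit 87, nat_lit 664463059⟩, ⟨nat_lit 22, nat_lit 60, nat_lit 80, nat_lit 100, nat_lit 162978385⟩]⟩
noncomputable def p115_l90 : Lf2 := ⟨nat_lit 0, nat_lit 25, [nat_lit 44, nat_lit 5, nat_lit 5, nat_lit 20], false, nat_lit 160, nat_lit 200, nat_lit 48, nat_lit 320, ⟨nat_lit 1000, nat_lit 0, nat_lit 0, nat_lit 0, nat_lit 0, nat_lit 0, nat_lit 0, nat_lit 0, nat_lit 0, nat_lit 0, nat_lit 0, nat_lit 0, nat_lit 0, nat_lit 0, nat_lit 0, nat_lit 0, false, false⟩,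
 nat_lit 0, nat_lit 0, nat_lit 12180, nat_lit 0, nat_lit 4457, nat_lit 7089, nat_lit 493, nat_lit 0, nat_lit 0, nat_lit 879, nat_lit 0, nat_lit 0, nat_lit 0, nat_lit 0, nat_lit 0, nat_lit 0, nat_lit 0, nat_lit 0, [],
 ⟨p115_k48, nat_lit 0, nat_lit 0, nat_lit 92, nat_lit 0, nat_lit 0, [nat_lit 938000000, nat_lit 3282000000, nat_lit 7968000000], [], [nat_lit 29308816587, nat_lit 29795985810, nat_lit 29893419655, nat_lit 30394332482, nat_lit 29757512019, nat_lit 30217751971, nat_lit 30337437843, nat_lit 30917416450], nat_lit 0, nat_lit 0, nat_lit 0, nat_lit 0, nat_lit 0, nat_lit 0, [], [nat_lit 54, nat_lit 40, nat_lit 40, nat_lit 80, nat_lit 43, nat_lit 260, nat_lit 50, nat_lit 6]⟩, ⟨p115_k9, nat_lit 0, nat_lit 0, nat_lit 444, nat_lit 0, nat_lit 452716, [nat_lit 4688000000, nat_lit 7968000000, nat_lit 14058000000], [], [nat_lit 35215406331, nat_lit 35405063401, nat_lit 35803731507, nat_lit 35980448913, nat_lit 33100405126,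 nat_lit 33177152239, nat_lit 33544315558, nat_lit 33666592177], nat_lit 1271250, nat_lit 1271250, nat_lit 1271250, nat_lit 1271250, nat_lit 279600, nat_lit 2323000, [nat_lit 1100000, nat_lit 1785000, nat_lit 1271250], [nat_lit 37, nat_lit 40, nat_lit 40, nat_lit 80, nat_lit 28, nat_lit 373, nat_lit 150, nat_lit 8]⟩,
 zbF0, [⟨nat_lit 13, nat_lit 60, nat_lit 63, nat_lit 100, nat_lit 3058775170⟩, ⟨nat_lit 16, nat_lit 57, nat_lit 100, nat_lit 84, nat_lit 517389634⟩, ⟨nat_lit 19, nat_lit 100, nat_lit 84, nat_lit 88, nat_lit 177531755⟩]⟩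
noncomputable def p115_l91 : Lf2 := ⟨nat_lit 0, nat_lit 25, [nat_lit 44, nat_lit 5, nat_lit 5, nat_lit 20], false, nat_lit 160, nat_lit 200, nat_lit 48, nat_lit 320, ⟨nat_lit 1000, nat_lit 0, nat_lit 0, nat_lit 0, nat_lit 0, nat_lit 0, nat_lit 0, nat_lit 0, nat_lit 0, nat_lit 0, nat_lit 0, nat_lit 0, nat_lit 0, nat_lit 0, nat_lit 0, nat_lit 0, false, false⟩,
 nat_lit 0, nat_lit 0, nat_lit 11611, nat_lit 0, nat_lit 4411, nat_lit 7071, nat_lit 491, nat_lit 0, nat_lit 0, nat_lit 975, nat_lit 0, nat_lit 0, nat_lit 0, nat_lit 0, nat_lit 0, nat_lit 0, nat_lit 0, nat_lit 0, [],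
 ⟨p115_k48, nat_lit 0, nat_lit 0, nat_lit 101, nat_lit 0, nat_lit 0, [nat_lit 938000000, nat_lit 3282000000, nat_lit 7968000000], [], [nat_lit 29343555901, nat_lit 30313548359, nat_lit 29925551376, nat_lit 30948141725, nat_lit 29796153237, nat_lit 30761506695, nat_lit 30343777659, nat_lit 31437449361], nat_lit 0, nat_lit 0, nat_lit 0, nat_lit 0, nat_lit 0, nat_lit 0, [], [nat_lit 54, nat_lit 40, nat_lit 40, nat_lit 80, nat_lit 43, nat_lit 260, nat_lit 50, nat_lit 6]⟩, ⟨p115_k11, nat_lit 0, nat_lit 0, nat_lit 544, nat_lit 0, nat_lit 618674, [nat_lit 4688000000, nat_lit 7968000000, nat_lit 14058000000], [], [nat_lit 33159246165, nat_lit 33298699364, nat_lit 33935951333, nat_lit 34066465814, nat_lit 31506377166, nat_lit 31551421693, nat_lit 32278606078, nat_lit 32439773574], nat_lit 1271250, nat_lit 1271250, nat_lit 1271250, nat_lit 1271250, nat_lit 279600, nat_lit 2323000, [nat_lit 1100000, nat_lit 1785000, nat_lit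 1271250], [nat_lit 37, nat_lit 40, nat_lit 40, nat_lit 80, nat_lit 28, nat_lit 373, nat_lit 150, nat_lit 8]⟩,
 zbF0, [⟨nat_lit 13, nat_lit 57, nat_lit 65, nat_lit 100, nat_lit 2704816814⟩, ⟨nat_lit 4, nat_lit 100, nat_lit 53, nat_lit 84, nat_lit 565628551⟩, ⟨nat_lit 19, nat_lit 100, nat_lit 87, nat_lit 90, nat_lit 183361943⟩]⟩
noncomputable def p115_l92 : Lf2 := ⟨nat_lit 0, nat_lit 25, [nat_lit 44, nat_lit 5, nat_lit 5, nat_lit 20], false, nat_lit 160, nat_lit 200, nat_lit 48, nat_lit 320, ⟨nat_lit 1000, nat_lit 0, nat_lit 0, nat_lit 0, nat_lit 0, nat_lit 0, nat_lit 0, nat_lit 0, nat_lit 0, nat_lit 0, nat_lit 0, nat_lit 0, nat_lit 0, nat_lit 0, nat_lit 0, nat_lit 0, false, false⟩,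
 nat_lit 0, nat_lit 0, nat_lit 10658, nat_lit 0, nat_lit 4387, nat_lit 6636, nat_lit 495, nat_lit 0, nat_lit 0, nat_lit 948, nat_lit 0, nat_lit 0, nat_lit 0, nat_lit 0, nat_lit 0, nat_lit 0, nat_lit 0, nat_lit 0, [],
 ⟨p115_k48, nat_lit 0, nat_lit 0, nat_lit 96, nat_lit 0, nat_lit 0, [nat_lit 938000000, nat_lit 3282000000, nat_lit 7968000000], [], [nat_lit 29303980217, nat_lit 29787842710, nat_lit 30078160206, nat_lit 30548222818, nat_lit 29758613329, nat_lit 30215301516, nat_lit 30541696296, nat_lit 31062735101], nat_lit 0, nat_lit 0, nat_lit 0, nat_lit 0, nat_lit 0, nat_lit 0, [], [nat_lit 54, nat_lit 40, nat_lit 40, nat_lit 80, nat_lit 43, nat_lit 260, nat_lit 50, nat_lit 6]⟩, ⟨p115_k12, nat_lit 0, nat_lit 0, nat_lit 448, nat_lit 0, nat_lit 473121, [nat_lit 4688000000, nat_lit 7968000000, nat_lit 14058000000], [], [nat_lit 33097244770, nat_lit 33235601899, nat_lit 34086060585, nat_lit 34213107015, nat_lit 31795736282,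 nat_lit 31844711016, nat_lit 32404632394, nat_lit 32467270160], nat_lit 1271250, nat_lit 1271250, nat_lit 1271250, nat_lit 1271250, nat_lit 279600, nat_lit 2323000, [nat_lit 1100000, nat_lit 1785000, nat_lit 1271250], [nat_lit 37, nat_lit 40, nat_lit 40, nat_lit 80, nat_lit 28, nat_lit 373, nat_lit 150, nat_lit 8]⟩,
 zbF0, [⟨nat_lit 13, nat_lit 57, nat_lit 64, nat_lit 100, nat_lit 116864698⟩, ⟨nat_lit 4, nat_lit 100, nat_lit 57, nat_lit 84, nat_lit 519019896⟩, ⟨nat_lit 7, nat_lit 90, nat_lit 100, nat_lit 91, nat_lit 181419986⟩]⟩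
noncomputable def p115_l93 : Lf2 := ⟨nat_lit 0, nat_lit 25, [nat_lit 44, nat_lit 5, nat_lit 5, nat_lit 20], false, nat_lit 160, nat_lit 200, nat_lit 48, nat_lit 320, ⟨nat_lit 1000, nat_lit 0, nat_lit 0, nat_lit 0, nat_lit 0, nat_lit 0, nat_lit 0, nat_lit 0, nat_lit 0, nat_lit 0, nat_lit 0, nat_lit 0, nat_lit 0, nat_lit 0, nat_lit 0, nat_lit 0, false, false⟩,
 nat_lit 0, nat_lit 0, nat_lit 10858, nat_lit 0, nat_lit 3333, nat_lit 6760, nat_lit 564, nat_lit 0, nat_lit 0, nat_lit 976, nat_lit 0, nat_lit 0, nat_lit 0, nat_lit 0, nat_lit 0, nat_lit 0, nat_lit 0, nat_lit 0, [],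
 ⟨p115_k49, nat_lit 0, nat_lit 0, nat_lit 98, nat_lit 0, nat_lit 0, [nat_lit 938000000, nat_lit 3282000000, nat_lit 7968000000], [], [nat_lit 28330291515, nat_lit 28817413680, nat_lit 28704844016, nat_lit 29233838047, nat_lit 28948179665, nat_lit 29432448263, nat_lit 29325754972, nat_lit 29832572762], nat_lit 0, nat_lit 0, nat_lit 0, nat_lit 0, nat_lit 0, nat_lit 0, [], [nat_lit 54, nat_lit 40, nat_lit 40, nat_lit 80, nat_lit 43, nat_lit 260, nat_lit 50, nat_lit 6]⟩, ⟨p115_k12, nat_lit 0, nat_lit 0, nat_lit 547, nat_lit 0, nat_lit 629116, [nat_lit 4688000000, nat_lit 7968000000, nat_lit 14058000000], [], [nat_lit 32821047373, nat_lit 32959716944, nat_lit 33320425654, nat_lit 33453353277, nat_lit 31412695080, nat_lit 31447424000, nat_lit 31855082277, nat_lit 32018148001], nat_lit 1271250, nat_lit 1271250, nat_lit 1271250, nat_lit 1271250, nat_lit 279600, nat_lit 2323000, [nat_lit 1100000, nat_lit 1785000, nat_lit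 1271250], [nat_lit 37, nat_lit 40, nat_lit 40, nat_lit 80, nat_lit 28, nat_lit 373, nat_lit 150, nat_lit 8]⟩,
 zbF0, [⟨nat_lit 13, nat_lit 53, nat_lit 67, nat_lit 100, nat_lit 1790000985⟩, ⟨nat_lit 4, nat_lit 100, nat_lit 49, nat_lit 84, nat_lit 1023032096⟩, ⟨nat_lit 22, nat_lit 58, nat_lit 88, nat_lit 100, nat_lit 291981412⟩]⟩
noncomputable def p115_l94 : Lf2 := ⟨nat_lit 0, nat_lit 30, [nat_lit 15, nat_lit 5, nat_lit 5, nat_lit 20], false, nat_lit 160, nat_lit 200, nat_lit 48, nat_lit 320, ⟨nat_lit 1000, nat_lit 0, nat_lit 0, nat_lit 0, nat_lit 0, nat_lit 0, nat_lit 0, nat_lit 0, nat_lit 0, nat_lit 0, nat_lit 0, nat_lit 0, nat_lit 0, nat_lit 0, nat_lit 0, nat_lit 0, false, false⟩,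
 nat_lit 0, nat_lit 0, nat_lit 12180, nat_lit 0, nat_lit 4411, nat_lit 7089, nat_lit 542, nat_lit 0, nat_lit 0, nat_lit 879, nat_lit 0, nat_lit 0, nat_lit 0, nat_lit 0, nat_lit 0, nat_lit 0, nat_lit 0, nat_lit 0, [],
 ⟨p115_k29, nat_lit 0, nat_lit 0, nat_lit 113, nat_lit 0, nat_lit 0, [nat_lit 938000000, nat_lit 3282000000, nat_lit 9842000000], [], [nat_lit 29534878056, nat_lit 30433455058, nat_lit 30074024258, nat_lit 30948141725, nat_lit 29917351168, nat_lit 30763364965, nat_lit 30424959447, nat_lit 31437449361], nat_lit 0, nat_lit 0, nat_lit 0, nat_lit 0, nat_lit 0, nat_lit 0, [], [nat_lit 93, nat_lit 40, nat_lit 40, nat_lit 80, nat_lit 63, nat_lit 260, nat_lit 50, nat_lit 6]⟩, ⟨p115_k15, nat_lit 0, nat_lit 0, nat_lit 439, nat_lit 0, nat_lit 439695, [nat_lit 4688000000, nat_lit 7968000000, nat_lit 14058000000], [], [nat_lit 35215406331, nat_lit 35405063401, nat_lit 35803731507, nat_lit 35980448913, nat_lit 33100405126,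 nat_lit 33177152239, nat_lit 33544315558, nat_lit 33666592177], nat_lit 1271250, nat_lit 1271250, nat_lit 1271250, nat_lit 1271250, nat_lit 279600, nat_lit 2323000, [nat_lit 1100000, nat_lit 1785000, nat_lit 1271250], [nat_lit 37, nat_lit 40, nat_lit 40, nat_lit 80, nat_lit 28, nat_lit 373, nat_lit 150, nat_lit 8]⟩,
 zbF0, [⟨nat_lit 13, nat_lit 56, nat_lit 67, nat_lit 100, nat_lit 2047153685⟩, ⟨nat_lit 22, nat_lit 60, nat_lit 80, nat_lit 100, nat_lit 260379907⟩]⟩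
noncomputable def p115_l95 : Lf2 := ⟨nat_lit 0, nat_lit 30, [nat_lit 15, nat_lit 5, nat_lit 5, nat_lit 20], false, nat_lit 160, nat_lit 200, nat_lit 48, nat_lit 320, ⟨nat_lit 1000, nat_lit 0, nat_lit 0, nat_lit 0, nat_lit 0, nat_lit 0, nat_lit 0, nat_lit 0, nat_lit 0, nat_lit 0, nat_lit 0, nat_lit 0, nat_lit 0, nat_lit 0, nat_lit 0, nat_lit 0, false, false⟩,
 nat_lit 0, nat_lit 0, nat_lit 11542, nat_lit 0, nat_lit 4457, nat_lit 7029, nat_lit 549, nat_lit 0, nat_lit 0, nat_lit 959, nat_lit 0, nat_lit 0, nat_lit 0, nat_lit 0, nat_lit 0, nat_lit 0, nat_lit 0, nat_lit 0, [],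
 ⟨p115_k29, nat_lit 0, nat_lit 0, nat_lit 107, nat_lit 0, nat_lit 0, [nat_lit 938000000, nat_lit 3282000000, nat_lit 9842000000], [], [nat_lit 29416722322, nat_lit 29867905609, nat_lit 30138615582, nat_lit 30642943276, nat_lit 29794797466, nat_lit 30219500086, nat_lit 30577445635, nat_lit 31150743951], nat_lit 0, nat_lit 0, nat_lit 0, nat_lit 0, nat_lit 0, nat_lit 0, [], [nat_lit 93, nat_lit 40, nat_lit 40, nat_lit 80, nat_lit 63, nat_lit 260, nat_lit 50, nat_lit 6]⟩, ⟨p115_k16, nat_lit 0, nat_lit 0, nat_lit 396, nat_lit 0, nat_lit 313502, [nat_lit 4688000000, nat_lit 7968000000, nat_lit 14058000000], [], [nat_lit 33327429136, nat_lit 33606123878, nat_lit 34359610334, nat_lit 34614585824, nat_lit 31691194451, nat_lit 31825397068, nat_lit 32537755265, nat_lit 32852669541], nat_lit 1271250, nat_lit 1271250, nat_lit 1271250, nat_lit 1271250, nat_lit 279600, nat_lit 2323000, [nat_lit 1100000, nat_lit 1785000, nat_lit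 1271250], [nat_lit 37, nat_lit 40, nat_lit 40, nat_lit 80, nat_lit 28, nat_lit 373, nat_lit 150, nat_lit 8]⟩,
 zbF0, [⟨nat_lit 22, nat_lit 60, nat_lit 80, nat_lit 100, nat_lit 274104917⟩]⟩
noncomputable def p115_l96 : Lf2 := ⟨nat_lit 0, nat_lit 30, [nat_lit 15, nat_lit 5, nat_lit 5, nat_lit 20], false, nat_lit 160, nat_lit 200, nat_lit 48, nat_lit 320, ⟨nat_lit 1000, nat_lit 0, nat_lit 0, nat_lit 0, nat_lit 0, nat_lit 0, nat_lit 0, nat_lit 0, nat_lit 0, nat_lit 0, nat_lit 0, nat_lit 0, nat_lit 0, nat_lit 0, nat_lit 0, nat_lit 0, false, false⟩,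
 nat_lit 0, nat_lit 0, nat_lit 11116, nat_lit 0, nat_lit 3364, nat_lit 6769, nat_lit 547, nat_lit 0, nat_lit 0, nat_lit 943, nat_lit 0, nat_lit 0, nat_lit 0, nat_lit 0, nat_lit 0, nat_lit 0, nat_lit 0, nat_lit 0, [],
 ⟨p115_k30, nat_lit 0, nat_lit 0, nat_lit 98, nat_lit 0, nat_lit 0, [nat_lit 938000000, nat_lit 3282000000, nat_lit 7968000000], [], [nat_lit 28545083370, nat_lit 28980620366, nat_lit 28885364229, nat_lit 29312752486, nat_lit 29062821616, nat_lit 29474688794, nat_lit 29384718893, nat_lit 29872237733], nat_lit 0, nat_lit 0, nat_lit 0, nat_lit 0, nat_lit 0, nat_lit 0, [], [nat_lit 54, nat_lit 40, nat_lit 40, nat_lit 80, nat_lit 43, nat_lit 260, nat_lit 50, nat_lit 6]⟩, ⟨p115_k16, nat_lit 0, nat_lit 0, nat_lit 448, nat_lit 0, nat_lit 471495, [nat_lit 4688000000, nat_lit 7968000000, nat_lit 14058000000], [], [nat_lit 33474130849, nat_lit 33664994319, nat_lit 33886820504, nat_lit 34152708534, nat_lit 32042988867,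 nat_lit 32139304164, nat_lit 32319449408, nat_lit 32450370623], nat_lit 1271250, nat_lit 1271250, nat_lit 1271250, nat_lit 1271250, nat_lit 279600, nat_lit 2323000, [nat_lit 1100000, nat_lit 1785000, nat_lit 1271250], [nat_lit 37, nat_lit 40, nat_lit 40, nat_lit 80, nat_lit 28, nat_lit 373, nat_lit 150, nat_lit 8]⟩,
 zbF0, [⟨nat_lit 13, nat_lit 52, nat_lit 68, nat_lit 100, nat_lit 2922927590⟩, ⟨nat_lit 4, nat_lit 100, nat_lit 48, nat_lit 89, nat_lit 20661264⟩, ⟨nat_lit 22, nat_lit 60, nat_lit 80, nat_lit 100, nat_lit 281781620⟩]⟩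
noncomputable def p115_l97 : Lf2 := ⟨nat_lit 0, nat_lit 30, [nat_lit 15, nat_lit 5, nat_lit 5, nat_lit 20], false, nat_lit 200, nat_lit 248, nat_lit 80, nat_lit 356, ⟨nat_lit 504, nat_lit 496, nat_lit 0, nat_lit 9, nat_lit 319, nat_lit 496, nat_lit 170, nat_lit 0, nat_lit 0, nat_lit 0, nat_lit 0, nat_lit 0, nat_lit 35344520, nat_lit 23273354, nat_lit 8382126, nat_lit 5182010, true, true⟩,
 nat_lit 0, nat_lit 0, nat_lit 9461, nat_lit 0, nat_lit 4457, nat_lit 5008, nat_lit 0, nat_lit 0, nat_lit 0, nat_lit 318, nat_lit 0, nat_lit 0, nat_lit 0, nat_lit 0, nat_lit 0, nat_lit 124000, nat_lit 0, nat_lit 0, [(nat_lit 26, [(nat_lit 0, nat_lit 496)])],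
 ⟨p115_k42, nat_lit 0, nat_lit 0, nat_lit 73, nat_lit 0, nat_lit 0, [nat_lit 852489600, nat_lit 3278169600, nat_lit 6353926080], [], [nat_lit 29697412856, nat_lit 30217957830, nat_lit 29905630846, nat_lit 30450761448, nat_lit 30471611479, nat_lit 31018011156, nat_lit 30686990823, nat_lit 31232667129], nat_lit 0, nat_lit 0, nat_lit 0, nat_lit 0, nat_lit 0, nat_lit 0, [], [nat_lit 81, nat_lit 40, nat_lit 40, nat_lit 80, nat_lit 13, nat_lit 289, nat_lit 75, nat_lit 6]⟩, ⟨p115_k6, nat_lit 0, nat_lit 0, nat_lit 481, nat_lit 0, nat_lit 468718, [nat_lit 2362752000, nat_lit 4960368000, nat_lit 8265600000], [], [nat_lit 18828330650, nat_lit 18964274250, nat_lit 18923627998, nat_lit 19103559103, nat_lit 18308033516, nat_lit 18326500349, nat_lit 18387238527, nat_lit 18490671447], nat_lit 1271250, nat_lit 1271250, nat_lit 1271250, nat_lit 1271250, nat_lit 490000, nat_lit 2646250, [nat_lit 1100000, nat_lit 2127500, nat_lit 1271250],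 [nat_lit 83, nat_lit 40, nat_lit 40, nat_lit 80, nat_lit 73, nat_lit 483, nat_lit 250, nat_lit 9]⟩,
 ⟨nat_lit 2738, nat_lit 3163, ⟨.ofNat (nat_lit 788122), .ofNat (nat_lit 794217), .ofNat (nat_lit 810277), .ofNat (nat_lit 816372), .ofNat (nat_lit 781079), .ofNat (nat_lit 786985), .ofNat (nat_lit 803496), .ofNat (nat_lit 809402)⟩, ⟨.ofNat (nat_lit 367069), .ofNat (nat_lit 440213), .ofNat (nat_lit 411379), .ofNat (nat_lit 484523), .ofNat (nat_lit 365494), .ofNat (nat_lit 436368), .ofNat (nat_lit 410329), .ofNat (nat_lit 481203)⟩⟩, [⟨nat_lit 13, nat_lit 63, nat_lit 61, nat_lit 100, nat_lit 2641672740⟩, ⟨nat_lit 4, nat_lit 100, nat_lit 57, nat_lit 87, nat_lit 543791354⟩, ⟨nat_lit 22, nat_lit 59, nat_lit 74, nat_lit 100, nat_lit 163012632⟩]⟩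
noncomputable def p115_l98 : Lf2 := ⟨nat_lit 0, nat_lit 30, [nat_lit 15, nat_lit 5, nat_lit 5, nat_lit 20], false, nat_lit 200, nat_lit 248, nat_lit 80, nat_lit 352, ⟨nat_lit 1000, nat_lit 0, nat_lit 0, nat_lit 0, nat_lit 0, nat_lit 0, nat_lit 0, nat_lit 0, nat_lit 0, nat_lit 0, nat_lit 0, nat_lit 0, nat_lit 0, nat_lit 0, nat_lit 0, nat_lit 0, false, false⟩,
 nat_lit 0, nat_lit 0, nat_lit 14364, nat_lit 0, nat_lit 5538, nat_lit 8361, nat_lit 0, nat_lit 0, nat_lit 0, nat_lit 526, nat_lit 0, nat_lit 0, nat_lit 0, nat_lit 0, nat_lit 0, nat_lit 0, nat_lit 0, nat_lit 0, [],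
 ⟨p115_k42, nat_lit 0, nat_lit 0, nat_lit 76, nat_lit 0, nat_lit 0, [nat_lit 938000000, nat_lit 4688000000, nat_lit 9842000000], [], [nat_lit 30902726704, nat_lit 31480332803, nat_lit 31613300849, nat_lit 32259709878, nat_lit 31608736280, nat_lit 32205113684, nat_lit 32327742733, nat_lit 32919432229], nat_lit 0, nat_lit 0, nat_lit 0, nat_lit 0, nat_lit 0, nat_lit 0, [], [nat_lit 81, nat_lit 40, nat_lit 40, nat_lit 80, nat_lit 13, nat_lit 289, nat_lit 75, nat_lit 6]⟩, ⟨p115_k18, nat_lit 0, nat_lit 0, nat_lit 432, nat_lit 0, nat_lit 471585, [nat_lit 4688000000, nat_lit 9842000000, nat_lit 14058000000], [], [nat_lit 37583883826, nat_lit 37734203291, nat_lit 38153546745, nat_lit 38290573842, nat_lit 36616728867, nat_lit 36683290084, nat_lit 37082637506, nat_lit 37160323331], nat_lit 1271250, nat_lit 1271250, nat_lit 1271250, nat_lit 1271250, nat_lit 490000, nat_lit 2615000, [nat_lit 1100000, nat_lit 2127500, nat_lit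 1271250], [nat_lit 56, nat_lit 40, nat_lit 40, nat_lit 80, nat_lit 32, nat_lit 401, nat_lit 175, nat_lit 8]⟩,
 zbF0, [⟨nat_lit 13, nat_lit 60, nat_lit 63, nat_lit 100, nat_lit 298758639⟩, ⟨nat_lit 4, nat_lit 100, nat_lit 57, nat_lit 87, nat_lit 1629561941⟩, ⟨nat_lit 7, nat_lit 80, nat_lit 100, nat_lit 92, nat_lit 210286518⟩]⟩
noncomputable def p115_l99 : Lf2 := ⟨nat_lit 0, nat_lit 30, [nat_lit 15, nat_lit 5, nat_lit 5, nat_lit 20], false, nat_lit 200, nat_lit 248, nat_lit 80, nat_lit 344, ⟨nat_lit 1000, nat_lit 0, nat_lit 0, nat_lit 0, nat_lit 0, nat_lit 0, nat_lit 0, nat_lit 0, nat_lit 0, nat_lit 0, nat_lit 0, nat_lit 0, nat_lit 0, nat_lit 0, nat_lit 0, nat_lit 0, false, false⟩,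
 nat_lit 0, nat_lit 0, nat_lit 13388, nat_lit 0, nat_lit 5431, nat_lit 8153, nat_lit 0, nat_lit 0, nat_lit 0, nat_lit 617, nat_lit 0, nat_lit 0, nat_lit 0, nat_lit 0, nat_lit 0, nat_lit 0, nat_lit 0, nat_lit 0, [],
 ⟨p115_k42, nat_lit 0, nat_lit 0, nat_lit 77, nat_lit 0, nat_lit 0, [nat_lit 938000000, nat_lit 4688000000, nat_lit 9842000000], [], [nat_lit 30922970248, nat_lit 31494928299, nat_lit 31838103129, nat_lit 32384635813, nat_lit 31635729341, nat_lit 32160408691, nat_lit 32475216300, nat_lit 33030751491], nat_lit 0, nat_lit 0, nat_lit 0, nat_lit 0, nat_lit 0, nat_lit 0, [], [nat_lit 81, nat_lit 40, nat_lit 40, nat_lit 80, nat_lit 13, nat_lit 289, nat_lit 75, nat_lit 6]⟩, ⟨p115_k26, nat_lit 0, nat_lit 0, nat_lit 445, nat_lit 0, nat_lit 507914, [nat_lit 4688000000, nat_lit 9842000000, nat_lit 14058000000], [], [nat_lit 35239607918, nat_lit 35391369863, nat_lit 35972534417, nat_lit 36106943777, nat_lit 34855691145,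 nat_lit 34931569375, nat_lit 35390057087, nat_lit 35468776890], nat_lit 1271250, nat_lit 1271250, nat_lit 1271250, nat_lit 1271250, nat_lit 490000, nat_lit 2552500, [nat_lit 1100000, nat_lit 2127500, nat_lit 1271250], [nat_lit 56, nat_lit 40, nat_lit 40, nat_lit 80, nat_lit 32, nat_lit 401, nat_lit 175, nat_lit 8]⟩,
 zbF0, [⟨nat_lit 13, nat_lit 61, nat_lit 60, nat_lit 100, nat_lit 85518712⟩, ⟨nat_lit 4, nat_lit 100, nat_lit 57, nat_lit 87, nat_lit 1596083242⟩, ⟨nat_lit 19, nat_lit 100, nat_lit 85, nat_lit 93, nat_lit 213564152⟩]⟩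
noncomputable def p115_l100 : Lf2 := ⟨nat_lit 0, nat_lit 30, [nat_lit 15, nat_lit 5, nat_lit 5, nat_lit 20], false, nat_lit 200, nat_lit 232, nat_lit 80, nat_lit 344, ⟨nat_lit 1000, nat_lit 0, nat_lit 0, nat_lit 0, nat_lit 0, nat_lit 0, nat_lit 0, nat_lit 0, nat_lit 0, nat_lit 0, nat_lit 0, nat_lit 0, nat_lit 0, nat_lit 0, nat_lit 0, nat_lit 0, false, false⟩,
 nat_lit 0, nat_lit 0, nat_lit 13624, nat_lit 0, nat_lit 5468, nat_lit 8297, nat_lit 0, nat_lit 0, nat_lit 0, nat_lit 635, nat_lit 0, nat_lit 0, nat_lit 0, nat_lit 0, nat_lit 0, nat_lit 0, nat_lit 0, nat_lit 0, [],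
 ⟨p115_k41, nat_lit 0, nat_lit 0, nat_lit 78, nat_lit 0, nat_lit 0, [nat_lit 938000000, nat_lit 4688000000, nat_lit 7968000000], [], [nat_lit 31489881258, nat_lit 32063792372, nat_lit 31936227855, nat_lit 32564337714, nat_lit 31852658604, nat_lit 32419535552, nat_lit 32279130833, nat_lit 32893116451], nat_lit 0, nat_lit 0, nat_lit 0, nat_lit 0, nat_lit 0, nat_lit 0, [], [nat_lit 57, nat_lit 40, nat_lit 40, nat_lit 80, nat_lit 7, nat_lit 272, nat_lit 60, nat_lit 7]⟩, ⟨p115_k26, nat_lit 0, nat_lit 0, nat_lit 534, nat_lit 0, nat_lit 672893, [nat_lit 4688000000, nat_lit 9842000000, nat_lit 14058000000], [], [nat_lit 35827947231, nat_lit 35942656156, nat_lit 36130264643, nat_lit 36237741492, nat_lit 34445108741, nat_lit 34519123479, nat_lit 34754602029, nat_lit 35024074316], nat_lit 1271250, nat_lit 1271250, nat_lit 1271250, nat_lit 1271250, nat_lit 490000, nat_lit 2552500, [nat_lit 1100000, nat_lit 2127500, nat_lit 1271250],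 [nat_lit 56, nat_lit 40, nat_lit 40, nat_lit 80, nat_lit 32, nat_lit 401, nat_lit 175, nat_lit 8]⟩,
 zbF0, [⟨nat_lit 13, nat_lit 52, nat_lit 68, nat_lit 100, nat_lit 1213294892⟩, ⟨nat_lit 16, nat_lit 48, nat_lit 100, nat_lit 87, nat_lit 2166212134⟩, ⟨nat_lit 19, nat_lit 100, nat_lit 85, nat_lit 93, nat_lit 197715682⟩]⟩
noncomputable def b_V_900_600_20_55 : St := ⟨true, nat_lit 0, nat_lit 1, nat_lit 1, nat_lit 120, nat_lit 360, nat_lit 380, nat_lit 240, nat_lit 280, nat_lit 360, nat_lit 376, nat_lit 80, nat_lit 120, nat_lit 160, nat_lit 248, nat_lit 16, nat_lit 364, nat_lit 80, nat_lit 120, nat_lit 0, nat_lit 0, nat_lit 0, nat_lit 0⟩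
theorem d_V_900_600_20_55 (h : EB TB.env) : Dead b_V_900_600_20_55 := chkB_sound0 h (T :=
(.trZ (nat_lit 9) (nat_lit 100) (nat_lit 61) (nat_lit 68) (nat_lit 48) (.trX (nat_lit 22) (nat_lit 62) (nat_lit 65) (nat_lit 100) (nat_lit 356) (.spl (nat_lit 4) (nat_lit 200)
(.trX (nat_lit 22) (nat_lit 60) (nat_lit 80) (nat_lit 100) (nat_lit 320) (.spl (nat_lit 1) (nat_lit 260)
(.trX (nat_lit 13) (nat_lit 63) (nat_lit 61) (nat_lit 100) (nat_lit 364) (.spl (nat_lit 0) (nat_lit 370)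
(.leaf p115_l89)
(.emL (nat_lit 13) (nat_lit 55) (nat_lit 68) (nat_lit 100))))
(.spl (nat_lit 3) (nat_lit 100)
(.spl (nat_lit 1) (nat_lit 270)
(.trX (nat_lit 13) (nat_lit 64) (nat_lit 58) (nat_lit 100) (nat_lit 372) (.spl (nat_lit 0) (nat_lit 370)
(.leaf p115_l90)
(.emL (nat_lit 13) (nat_lit 56) (nat_lit 65) (nat_lit 100))))
(.spl (nat_lit 1) (nat_lit 275)
(.trX (nat_lit 13) (nat_lit 65) (nat_lit 56) (nat_lit 100) (nat_lit 372) (.leaf p115_l91))
(.spl (nat_lit 0) (nat_lit 370)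
(.leaf p115_l92)
(.trX (nat_lit 13) (nat_lit 57) (nat_lit 62) (nat_lit 100) (nat_lit 368) (.leaf p115_l93)))))
(.spl (nat_lit 1) (nat_lit 270)
(.trX (nat_lit 13) (nat_lit 64) (nat_lit 58) (nat_lit 100) (nat_lit 372) (.leaf p115_l94))
(.spl (nat_lit 0) (nat_lit 370)
(.leaf p115_l95)
(.trX (nat_lit 13) (nat_lit 57) (nat_lit 62) (nat_lit 100) (nat_lit 368) (.leaf p115_l96)))))))
(.trZ (nat_lit 9) (nat_lit 100) (nat_lit 60) (nat_lit 80) (nat_lit 80) (.spl (nat_lit 1) (nat_lit 260)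
(.trX (nat_lit 13) (nat_lit 63) (nat_lit 61) (nat_lit 100) (nat_lit 364) (.spl (nat_lit 0) (nat_lit 370)
(.leaf p115_l97)
(.emL (nat_lit 13) (nat_lit 55) (nat_lit 68) (nat_lit 100))))
(.trX (nat_lit 19) (nat_lit 100) (nat_lit 69) (nat_lit 96) (nat_lit 352) (.spl (nat_lit 1) (nat_lit 270)
(.trX (nat_lit 13) (nat_lit 64) (nat_lit 58) (nat_lit 100) (nat_lit 372) (.spl (nat_lit 0) (nat_lit 370)
(.leaf p115_l98)
(.emL (nat_lit 13) (nat_lit 56) (nat_lit 65) (nat_lit 100))))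
(.trX (nat_lit 19) (nat_lit 100) (nat_lit 74) (nat_lit 98) (nat_lit 344) (.spl (nat_lit 0) (nat_lit 370)
(.leaf p115_l99)
(.trX (nat_lit 13) (nat_lit 57) (nat_lit 62) (nat_lit 100) (nat_lit 368) (.trX (nat_lit 16) (nat_lit 53) (nat_lit 100) (nat_lit 93) (nat_lit 232) (.leaf p115_l100))))))))))))) (by decide +kernel)
noncomputable def p115_l101 : Lf2 := ⟨nat_lit 0, nat_lit 30, [nat_lit 15, nat_lit 5, nat_lit 5, nat_lit 20], true, nat_lit 160, nat_lit 208, nat_lit 16, nat_lit 364, ⟨nat_lit 0, nat_lit 1000, nat_lit 0, nat_lit 8, nat_lit 291, nat_lit 1000, nat_lit 145, nat_lit 0, nat_lit 0, nat_lit 0, nat_lit 0, nat_lit 0, nat_lit 38693005, nat_lit 21309756, nat_lit 6997239, nat_lit 4909272, true, true⟩,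
 nat_lit 0, nat_lit 0, nat_lit 0, nat_lit 7290, nat_lit 3195, nat_lit 0, nat_lit 0, nat_lit 0, nat_lit 0, nat_lit 0, nat_lit 0, nat_lit 0, nat_lit 0, nat_lit 0, nat_lit 0, nat_lit 250000, nat_lit 0, nat_lit 0, [(nat_lit 29, [(nat_lit 0, nat_lit 1000)])],
 ⟨p115_k5, nat_lit 0, nat_lit 0, nat_lit 77, nat_lit 0, nat_lit 0, [nat_lit 781600001, nat_lit 1553200001, nat_lit 2175066667], [], [nat_lit 26820723371, nat_lit 27347281446, nat_lit 27331541504, nat_lit 27859582821, nat_lit 27650832324, nat_lit 28148374982, nat_lit 28127038244, nat_lit 28674180237], nat_lit 0, nat_lit 0, nat_lit 0, nat_lit 0, nat_lit 0, nat_lit 0, [], [nat_lit 57, nat_lit 40, nat_lit 40, nat_lit 80, nat_lit 7, nat_lit 272, nat_lit 60, nat_lit 7]⟩, C1.Rw.none,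
 ⟨nat_lit 1581, nat_lit 2237, ⟨.ofNat (nat_lit 716594), .ofNat (nat_lit 733698), .ofNat (nat_lit 727981), .ofNat (nat_lit 745086), .ofNat (nat_lit 710536), .ofNat (nat_lit 726927), .ofNat (nat_lit 722193), .ofNat (nat_lit 738584)⟩, ⟨.ofNat (nat_lit 306337), .ofNat (nat_lit 374756), .ofNat (nat_lit 351886), .ofNat (nat_lit 420305), .ofNat (nat_lit 305473), .ofNat (nat_lit 371036), .ofNat (nat_lit 352103), .ofNat (nat_lit 417666)⟩⟩, [⟨nat_lit 13, nat_lit 45, nat_lit 79, nat_lit 100, nat_lit 443486315⟩, ⟨nat_lit 16, nat_lit 44, nat_lit 100, nat_lit 92, nat_lit 249870917⟩]⟩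
noncomputable def p115_l102 : Lf2 := ⟨nat_lit 0, nat_lit 25, [nat_lit 44, nat_lit 5, nat_lit 5, nat_lit 20], true, nat_lit 160, nat_lit 188, nat_lit 16, nat_lit 344, ⟨nat_lit 0, nat_lit 1000, nat_lit 0, nat_lit 8, nat_lit 298, nat_lit 1000, nat_lit 135, nat_lit 0, nat_lit 0, nat_lit 0, nat_lit 0, nat_lit 0, nat_lit 38617096, nat_lit 22137967, nat_lit 6244937, nat_lit 4829152, true, true⟩,
 nat_lit 0, nat_lit 0, nat_lit 0, nat_lit 3309, nat_lit 3043, nat_lit 0, nat_lit 0, nat_lit 0, nat_lit 0, nat_lit 0, nat_lit 0, nat_lit 0, nat_lit 0, nat_lit 0, nat_lit 0, nat_lit 250000, nat_lit 0, nat_lit 0, [(nat_lit 29, [(nat_lit 0, nat_lit 1000)])],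
 ⟨p115_k3, nat_lit 0, nat_lit 0, nat_lit 79, nat_lit 0, nat_lit 0, [nat_lit 781600001, nat_lit 1376400001, nat_lit 1786400000], [], [nat_lit 26671835739, nat_lit 27187968894, nat_lit 27509542246, nat_lit 28041336902, nat_lit 27162425702, nat_lit 27658406774, nat_lit 27967540819, nat_lit 28509681771], nat_lit 0, nat_lit 0, nat_lit 0, nat_lit 0, nat_lit 0, nat_lit 0, [], [nat_lit 55, nat_lit 40, nat_lit 40, nat_lit 80, nat_lit 3, nat_lit 260, nat_lit 50, nat_lit 8]⟩, C1.Rw.none,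
 ⟨nat_lit 1581, nat_lit 2237, ⟨.ofNat (nat_lit 727981), .ofNat (nat_lit 756489), .ofNat (nat_lit 739368), .ofNat (nat_lit 767876), .ofNat (nat_lit 722193), .ofNat (nat_lit 749511), .ofNat (nat_lit 733851), .ofNat (nat_lit 761169)⟩, ⟨.ofNat (nat_lit 306337), .ofNat (nat_lit 346248), .ofNat (nat_lit 329112), .ofNat (nat_lit 369022), .ofNat (nat_lit 305473), .ofNat (nat_lit 343718), .ofNat (nat_lit 328788), .ofNat (nat_lit 367033)⟩⟩, [⟨nat_lit 13, nat_lit 46, nat_lit 76, nat_lit 100, nat_lit 435971328⟩, ⟨nat_lit 16, nat_lit 44, nat_lit 100, nat_lit 87, nat_lit 258845464⟩]⟩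
noncomputable def p115_l103 : Lf2 := ⟨nat_lit 0, nat_lit 25, [nat_lit 44, nat_lit 5, nat_lit 5, nat_lit 20], false, nat_lit 160, nat_lit 208, nat_lit 16, nat_lit 360, ⟨nat_lit 159, nat_lit 841, nat_lit 0, nat_lit 8, nat_lit 298, nat_lit 841, nat_lit 150, nat_lit 0, nat_lit 0, nat_lit 0, nat_lit 0, nat_lit 0, nat_lit 37922085, nat_lit 21834599, nat_lit 7243316, nat_lit 4969961, true, true⟩,
 nat_lit 0, nat_lit 0, nat_lit 2781, nat_lit 0, nat_lit 3378, nat_lit 1544, nat_lit 0, nat_lit 0, nat_lit 0, nat_lit 99, nat_lit 0, nat_lit 0, nat_lit 0, nat_lit 0, nat_lit 0, nat_lit 210250, nat_lit 0, nat_lit 0, [(nat_lit 29, [(nat_lit 0, nat_lit 841)])],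
 ⟨p115_k3, nat_lit 0, nat_lit 0, nat_lit 79, nat_lit 0, nat_lit 0, [nat_lit 806467601, nat_lit 1902944400, nat_lit 2496112400], [], [nat_lit 27136862748, nat_lit 27675971878, nat_lit 28004668670, nat_lit 28519713483, nat_lit 27953845769, nat_lit 28455863811, nat_lit 28761778223, nat_lit 29242033490], nat_lit 0, nat_lit 0, nat_lit 0, nat_lit 0, nat_lit 0, nat_lit 0, [], [nat_lit 55, nat_lit 40, nat_lit 40, nat_lit 80, nat_lit 3, nat_lit 272, nat_lit 60, nat_lit 8]⟩, ⟨p115_k32, nat_lit 0, nat_lit 0, nat_lit 564, nat_lit 0, nat_lit 585434, [nat_lit 745392000, nat_lit 1564878000, nat_lit 2235222000], [], [nat_lit 6297492608, nat_lit 6321476087, nat_lit 6419228426, nat_lit 6439826691, nat_lit 5435428341, nat_lit 5447676933, nat_lit 5545526784, nat_lit 5558904429], nat_lit 1271250, nat_lit 1271250, nat_lit 1271250, nat_lit 1271250, nat_lit 88400, nat_lit 2569500, [nat_lit 1100000, nat_lit 2127500, nat_lit 1271250], [nat_lit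 56, nat_lit 40, nat_lit 40, nat_lit 80, nat_lit 32, nat_lit 483, nat_lit 250, nat_lit 11]⟩,
 ⟨nat_lit 1581, nat_lit 2237, ⟨.ofNat (nat_lit 727981), .ofNat (nat_lit 756489), .ofNat (nat_lit 739368), .ofNat (nat_lit 767876), .ofNat (nat_lit 722193), .ofNat (nat_lit 749511), .ofNat (nat_lit 733851), .ofNat (nat_lit 761169)⟩, ⟨.ofNat (nat_lit 329112), .ofNat (nat_lit 397530), .ofNat (nat_lit 351886), .ofNat (nat_lit 420305), .ofNat (nat_lit 328788), .ofNat (nat_lit 394351), .ofNat (nat_lit 352103), .ofNat (nat_lit 417666)⟩⟩, [⟨nat_lit 13, nat_lit 40, nat_lit 82, nat_lit 100, nat_lit 205671304⟩, ⟨nat_lit 13, nat_lit 46, nat_lit 76, nat_lit 100, nat_lit 179778588⟩, ⟨nat_lit 16, nat_lit 38, nat_lit 100, nat_lit 90, nat_lit 357280648⟩, ⟨nat_lit 19, nat_lit 100, nat_lit 71, nat_lit 93, nat_lit 20267284⟩]⟩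
noncomputable def p115_l104 : Lf2 := ⟨nat_lit 0, nat_lit 30, [nat_lit 15, nat_lit 5, nat_lit 5, nat_lit 20], false, nat_lit 160, nat_lit 208, nat_lit 16, nat_lit 360, ⟨nat_lit 330, nat_lit 670, nat_lit 0, nat_lit 8, nat_lit 299, nat_lit 670, nat_lit 150, nat_lit 0, nat_lit 0, nat_lit 0, nat_lit 0, nat_lit 0, nat_lit 37862450, nat_lit 21889182, nat_lit 7248368, nat_lit 4973094, true, true⟩,
 nat_lit 0, nat_lit 0, nat_lit 5392, nat_lit 0, nat_lit 3968, nat_lit 2995, nat_lit 0, nat_lit 0, nat_lit 0, nat_lit 175, nat_lit 0, nat_lit 0, nat_lit 0, nat_lit 0, nat_lit 0, nat_lit 167500, nat_lit 0, nat_lit 0, [(nat_lit 29, [(nat_lit 0, nat_lit 670)])],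
 ⟨p115_k5, nat_lit 0, nat_lit 0, nat_lit 77, nat_lit 0, nat_lit 0, [nat_lit 833212001, nat_lit 2587684000, nat_lit 4060994667], [], [nat_lit 27713258288, nat_lit 28003045428, nat_lit 28634075120, nat_lit 28910317784, nat_lit 28487922733, nat_lit 28756923509, nat_lit 29351256359, nat_lit 29646963737], nat_lit 0, nat_lit 0, nat_lit 0, nat_lit 0, nat_lit 0, nat_lit 0, [], [nat_lit 57, nat_lit 40, nat_lit 40, nat_lit 80, nat_lit 7, nat_lit 272, nat_lit 60, nat_lit 7]⟩, ⟨p115_k8, nat_lit 0, nat_lit 0, nat_lit 414, nat_lit 0, nat_lit 279589, [nat_lit 1547040000, nat_lit 3247860000, nat_lit 4639140000], [], [nat_lit 13366901249, nat_lit 13432516844, nat_lit 13669707235, nat_lit 13727263836, nat_lit 11769258785, nat_lit 11778160435, nat_lit 11965985757, nat_lit 11996342283], nat_lit 1271250, nat_lit 1271250, nat_lit 1271250, nat_lit 1271250, nat_lit 88400, nat_lit 2569500, [nat_lit 1100000, nat_lit 2127500, nat_lit 1271250],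 [nat_lit 56, nat_lit 40, nat_lit 40, nat_lit 80, nat_lit 32, nat_lit 483, nat_lit 250, nat_lit 11]⟩,
 ⟨nat_lit 1936, nat_lit 2237, ⟨.ofNat (nat_lit 727981), .ofNat (nat_lit 756489), .ofNat (nat_lit 739368), .ofNat (nat_lit 767876), .ofNat (nat_lit 725193), .ofNat (nat_lit 753138), .ofNat (nat_lit 736698), .ofNat (nat_lit 764643)⟩, ⟨.ofNat (nat_lit 329112), .ofNat (nat_lit 397530), .ofNat (nat_lit 351886), .ofNat (nat_lit 420305), .ofNat (nat_lit 329055), .ofNat (nat_lit 396122), .ofNat (nat_lit 352066), .ofNat (nat_lit 419133)⟩⟩, [⟨nat_lit 13, nat_lit 43, nat_lit 80, nat_lit 100, nat_lit 255665491⟩, ⟨nat_lit 16, nat_lit 41, nat_lit 100, nat_lit 89, nat_lit 491173979⟩, ⟨nat_lit 22, nat_lit 76, nat_lit 71, nat_lit 100, nat_lit 53320512⟩]⟩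
noncomputable def p115_l105 : Lf2 := ⟨nat_lit 0, nat_lit 30, [nat_lit 15, nat_lit 5, nat_lit 5, nat_lit 20], false, nat_lit 160, nat_lit 196, nat_lit 16, nat_lit 360, ⟨nat_lit 252, nat_lit 748, nat_lit 0, nat_lit 8, nat_lit 294, nat_lit 748, nat_lit 146, nat_lit 0, nat_lit 0, nat_lit 0, nat_lit 0, nat_lit 0, nat_lit 38400054, nat_lit 21551822, nat_lit 7048124, nat_lit 4928253, true, true⟩,
 nat_lit 0, nat_lit 0, nat_lit 4118, nat_lit 0, nat_lit 3705, nat_lit 2287, nat_lit 0, nat_lit 0, nat_lit 0, nat_lit 133, nat_lit 0, nat_lit 0, nat_lit 0, nat_lit 0, nat_lit 0, nat_lit 187000, nat_lit 0, nat_lit 0, [(nat_lit 29, [(nat_lit 0, nat_lit 748)])],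
 ⟨p115_k7, nat_lit 0, nat_lit 0, nat_lit 76, nat_lit 0, nat_lit 0, [nat_lit 821012800, nat_lit 2210923200, nat_lit 2911227200], [], [nat_lit 27665561443, nat_lit 27946329655, nat_lit 28019287925, nat_lit 28294908001, nat_lit 28245867192, nat_lit 28511794786, nat_lit 28580799246, nat_lit 28880551219], nat_lit 0, nat_lit 0, nat_lit 0, nat_lit 0, nat_lit 0, nat_lit 0, [], [nat_lit 55, nat_lit 40, nat_lit 40, nat_lit 80, nat_lit 3, nat_lit 260, nat_lit 50, nat_lit 8]⟩, ⟨p115_k8, nat_lit 0, nat_lit 0, nat_lit 449, nat_lit 0, nat_lit 375987, [nat_lit 1181376000, nat_lit 2480184000, nat_lit 3542616000], [], [nat_lit 10216137723, nat_lit 10266244391, nat_lit 10308629477, nat_lit 10356274571, nat_lit 8996229212, nat_lit 9001915300, nat_lit 9039099638, nat_lit 9065334083], nat_lit 1271250, nat_lit 1271250, nat_lit 1271250, nat_lit 1271250, nat_lit 88400, nat_lit 2569500, [nat_lit 1100000, nat_lit 2127500, nat_lit 1271250],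 [nat_lit 56, nat_lit 40, nat_lit 40, nat_lit 80, nat_lit 32, nat_lit 483, nat_lit 250, nat_lit 11]⟩,
 ⟨nat_lit 1581, nat_lit 1937, ⟨.ofNat (nat_lit 725193), .ofNat (nat_lit 736371), .ofNat (nat_lit 736698), .ofNat (nat_lit 747876), .ofNat (nat_lit 722193), .ofNat (nat_lit 733121), .ofNat (nat_lit 733851), .ofNat (nat_lit 744778)⟩, ⟨.ofNat (nat_lit 329055), .ofNat (nat_lit 379355), .ofNat (nat_lit 352066), .ofNat (nat_lit 402366), .ofNat (nat_lit 328788), .ofNat (nat_lit 377960), .ofNat (nat_lit 352103), .ofNat (nat_lit 401275)⟩⟩, [⟨nat_lit 13, nat_lit 36, nat_lit 84, nat_lit 100, nat_lit 375291104⟩, ⟨nat_lit 4, nat_lit 100, nat_lit 35, nat_lit 90, nat_lit 520794206⟩, ⟨nat_lit 22, nat_lit 79, nat_lit 71, nat_lit 100, nat_lit 39758367⟩]⟩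
noncomputable def p115_l106 : Lf2 := ⟨nat_lit 0, nat_lit 30, [nat_lit 15, nat_lit 5, nat_lit 5, nat_lit 20], false, nat_lit 160, nat_lit 208, nat_lit 16, nat_lit 160, ⟨nat_lit 166, nat_lit 834, nat_lit 0, nat_lit 8, nat_lit 309, nat_lit 834, nat_lit 145, nat_lit 0, nat_lit 0, nat_lit 0, nat_lit 0, nat_lit 0, nat_lit 37261156, nat_lit 22907219, nat_lit 6831625, nat_lit 4952889, true, true⟩,
 nat_lit 0, nat_lit 0, nat_lit 2654, nat_lit 0, nat_lit 3511, nat_lit 1544, nat_lit 0, nat_lit 0, nat_lit 0, nat_lit 118, nat_lit 0, nat_lit 0, nat_lit 0, nat_lit 0, nat_lit 0, nat_lit 208500, nat_lit 0, nat_lit 0, [(nat_lit 29, [(nat_lit 0, nat_lit 834)])],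
 ⟨p115_k5, nat_lit 0, nat_lit 0, nat_lit 80, nat_lit 0, nat_lit 0, [nat_lit 807562400, nat_lit 2073576800, nat_lit 3123745600], [], [nat_lit 27283071826, nat_lit 27557187294, nat_lit 28690681169, nat_lit 28944999723, nat_lit 28090515236, nat_lit 28345580026, nat_lit 29400126142, nat_lit 29671645188], nat_lit 0, nat_lit 0, nat_lit 0, nat_lit 0, nat_lit 0, nat_lit 0, [], [nat_lit 57, nat_lit 40, nat_lit 40, nat_lit 80, nat_lit 7, nat_lit 272, nat_lit 60, nat_lit 7]⟩, ⟨p115_k18, nat_lit 0, nat_lit 0, nat_lit 647, nat_lit 0, nat_lit 810833, [nat_lit 778208000, nat_lit 1633772000, nat_lit 2333628000], [], [nat_lit 6360402957, nat_lit 6375994193, nat_lit 6474776073, nat_lit 6492955953, nat_lit 5353098376, nat_lit 5359647336, nat_lit 5444078658, nat_lit 5444124764], nat_lit 1271250, nat_lit 1271250, nat_lit 1271250, nat_lit 1271250, nat_lit 88400, nat_lit 1100001, [nat_lit 1100000, nat_lit 2127500, nat_lit 1271250], [nat_lit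 56, nat_lit 40, nat_lit 40, nat_lit 80, nat_lit 32, nat_lit 428, nat_lit 200, nat_lit 9]⟩,
 ⟨nat_lit 1936, nat_lit 2237, ⟨.ofNat (nat_lit 739368), .ofNat (nat_lit 784980), .ofNat (nat_lit 762142), .ofNat (nat_lit 807755), .ofNat (nat_lit 736698), .ofNat (nat_lit 781410), .ofNat (nat_lit 759709), .ofNat (nat_lit 804421)⟩, ⟨.ofNat (nat_lit 306337), .ofNat (nat_lit 374756), .ofNat (nat_lit 351886), .ofNat (nat_lit 420305), .ofNat (nat_lit 306044), .ofNat (nat_lit 373111), .ofNat (nat_lit 352066), .ofNat (nat_lit 419133)⟩⟩, [⟨nat_lit 13, nat_lit 44, nat_lit 76, nat_lit 100, nat_lit 321957199⟩, ⟨nat_lit 4, nat_lit 100, nat_lit 41, nat_lit 87, nat_lit 326836349⟩, ⟨nat_lit 9, nat_lit 100, nat_lit 74, nat_lit 62, nat_lit 14942869⟩]⟩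
noncomputable def p115_l107 : Lf2 := ⟨nat_lit 0, nat_lit 25, [nat_lit 44, nat_lit 5, nat_lit 5, nat_lit 20], false, nat_lit 160, nat_lit 188, nat_lit 160, nat_lit 336, ⟨nat_lit 126, nat_lit 874, nat_lit 0, nat_lit 8, nat_lit 305, nat_lit 874, nat_lit 135, nat_lit 0, nat_lit 0, nat_lit 0, nat_lit 0, nat_lit 0, nat_lit 37995009, nat_lit 22816906, nat_lit 6188085, nat_lit 4848523, true, true⟩,
 nat_lit 0, nat_lit 0, nat_lit 1976, nat_lit 0, nat_lit 3329, nat_lit 1149, nat_lit 0, nat_lit 0, nat_lit 0, nat_lit 81, nat_lit 0, nat_lit 0, nat_lit 0, nat_lit 0, nat_lit 0, nat_lit 218500, nat_lit 0, nat_lit 0, [(nat_lit 29, [(nat_lit 0, nat_lit 874)])],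
 ⟨p115_k3, nat_lit 0, nat_lit 0, nat_lit 79, nat_lit 0, nat_lit 0, [nat_lit 801306401, nat_lit 1793661600, nat_lit 2348813600], [], [nat_lit 27036578014, nat_lit 27304452247, nat_lit 28245342664, nat_lit 28501792082, nat_lit 27515201623, nat_lit 27772366181, nat_lit 28675547718, nat_lit 28950556905], nat_lit 0, nat_lit 0, nat_lit 0, nat_lit 0, nat_lit 0, nat_lit 0, [], [nat_lit 55, nat_lit 40, nat_lit 40, nat_lit 80, nat_lit 3, nat_lit 260, nat_lit 50, nat_lit 8]⟩, ⟨p115_k33, nat_lit 0, nat_lit 0, nat_lit 487, nat_lit 0, nat_lit 721012, [nat_lit 590688000, nat_lit 1240092000, nat_lit 1771308000], [], [nat_lit 4090866990, nat_lit 4105368753, nat_lit 4196987055, nat_lit 4208448207, nat_lit 4175430734, nat_lit 4177398698, nat_lit 4251233236, nat_lit 4261321836], nat_lit 1271250, nat_lit 1271250, nat_lit 1271250, nat_lit 1271250, nat_lit 1100001, nat_lit 2607000, [nat_lit 1100000, nat_lit 2127500, nat_lit 1271250], [nat_lit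 56, nat_lit 40, nat_lit 40, nat_lit 80, nat_lit 32, nat_lit 483, nat_lit 250, nat_lit 10]⟩,
 ⟨nat_lit 1936, nat_lit 2237, ⟨.ofNat (nat_lit 739368), .ofNat (nat_lit 779279), .ofNat (nat_lit 750755), .ofNat (nat_lit 790666), .ofNat (nat_lit 736698), .ofNat (nat_lit 775821), .ofNat (nat_lit 748204), .ofNat (nat_lit 787326)⟩, ⟨.ofNat (nat_lit 306337), .ofNat (nat_lit 346248), .ofNat (nat_lit 329112), .ofNat (nat_lit 369022), .ofNat (nat_lit 306044), .ofNat (nat_lit 345167), .ofNat (nat_lit 329055), .ofNat (nat_lit 368178)⟩⟩, [⟨nat_lit 13, nat_lit 47, nat_lit 74, nat_lit 100, nat_lit 363548634⟩, ⟨nat_lit 16, nat_lit 44, nat_lit 100, nat_lit 87, nat_lit 304922262⟩, ⟨nat_lit 19, nat_lit 100, nat_lit 77, nat_lit 91, nat_lit 33367497⟩]⟩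
noncomputable def p115_l108 : Lf2 := ⟨nat_lit 0, nat_lit 25, [nat_lit 44, nat_lit 5, nat_lit 5, nat_lit 20], false, nat_lit 160, nat_lit 188, nat_lit 160, nat_lit 328, ⟨nat_lit 139, nat_lit 861, nat_lit 0, nat_lit 8, nat_lit 311, nat_lit 861, nat_lit 135, nat_lit 0, nat_lit 0, nat_lit 0, nat_lit 0, nat_lit 0, nat_lit 37530903, nat_lit 23333620, nat_lit 6135477, nat_lit 4860086, true, true⟩,
 nat_lit 0, nat_lit 0, nat_lit 1949, nat_lit 0, nat_lit 3346, nat_lit 1186, nat_lit 0, nat_lit 0, nat_lit 0, nat_lit 92, nat_lit 0, nat_lit 0, nat_lit 0, nat_lit 0, nat_lit 0, nat_lit 215250, nat_lit 0, nat_lit 0, [(nat_lit 29, [(nat_lit 0, nat_lit 861)])],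
 ⟨p115_k3, nat_lit 0, nat_lit 0, nat_lit 80, nat_lit 0, nat_lit 0, [nat_lit 803339601, nat_lit 1836712401, nat_lit 2406840400], [], [nat_lit 27076507037, nat_lit 27344964242, nat_lit 28460396244, nat_lit 28718068423, nat_lit 27554419359, nat_lit 27812129226, nat_lit 28883533046, nat_lit 29157899742], nat_lit 0, nat_lit 0, nat_lit 0, nat_lit 0, nat_lit 0, nat_lit 0, [], [nat_lit 55, nat_lit 40, nat_lit 40, nat_lit 80, nat_lit 3, nat_lit 260, nat_lit 50, nat_lit 8]⟩, ⟨p115_k34, nat_lit 0, nat_lit 0, nat_lit 490, nat_lit 0, nat_lit 733072, [nat_lit 651632000, nat_lit 1368038000, nat_lit 1954062000], [], [nat_lit 4411279767, nat_lit 4427965924, nat_lit 4538831282, nat_lit 4551891643, nat_lit 4490860957, nat_lit 4495142705, nat_lit 4598507099, nat_lit 4616524189], nat_lit 1271250, nat_lit 1271250, nat_lit 1271250, nat_lit 1271250, nat_lit 1100001, nat_lit 2538500, [nat_lit 1100000, nat_lit 2127500, nat_lit 1271250], [nat_lit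 56, nat_lit 40, nat_lit 40, nat_lit 80, nat_lit 32, nat_lit 483, nat_lit 250, nat_lit 10]⟩,
 ⟨nat_lit 1936, nat_lit 2237, ⟨.ofNat (nat_lit 750755), .ofNat (nat_lit 796368), .ofNat (nat_lit 762142), .ofNat (nat_lit 807755), .ofNat (nat_lit 748204), .ofNat (nat_lit 792915), .ofNat (nat_lit 759709), .ofNat (nat_lit 804421)⟩, ⟨.ofNat (nat_lit 306337), .ofNat (nat_lit 346248), .ofNat (nat_lit 329112), .ofNat (nat_lit 369022), .ofNat (nat_lit 306044), .ofNat (nat_lit 345167), .ofNat (nat_lit 329055), .ofNat (nat_lit 368178)⟩⟩, [⟨nat_lit 13, nat_lit 48, nat_lit 71, nat_lit 100, nat_lit 346552909⟩, ⟨nat_lit 16, nat_lit 44, nat_lit 100, nat_lit 87, nat_lit 309018507⟩, ⟨nat_lit 7, nat_lit 89, nat_lit 100, nat_lit 90, nat_lit 36919377⟩]⟩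
noncomputable def p115_l109 : Lf2 := ⟨nat_lit 0, nat_lit 25, [nat_lit 44, nat_lit 5, nat_lit 5, nat_lit 20], false, nat_lit 160, nat_lit 208, nat_lit 160, nat_lit 352, ⟨nat_lit 172, nat_lit 828, nat_lit 0, nat_lit 8, nat_lit 305, nat_lit 828, nat_lit 150, nat_lit 0, nat_lit 0, nat_lit 0, nat_lit 0, nat_lit 0, nat_lit 37322478, nat_lit 22501832, nat_lit 7175690, nat_lit 4988142, true, true⟩,
 nat_lit 0, nat_lit 0, nat_lit 2660, nat_lit 0, nat_lit 3405, nat_lit 1548, nat_lit 0, nat_lit 0, nat_lit 0, nat_lit 109, nat_lit 0, nat_lit 0, nat_lit 0, nat_lit 0, nat_lit 0, nat_lit 207000, nat_lit 0, nat_lit 0, [(nat_lit 29, [(nat_lit 0, nat_lit 828)])],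
 ⟨p115_k3, nat_lit 0, nat_lit 0, nat_lit 79, nat_lit 0, nat_lit 0, [nat_lit 808500800, nat_lit 1945995201, nat_lit 2554139200], [], [nat_lit 27174955431, nat_lit 27445435894, nat_lit 28393280014, nat_lit 28646818564, nat_lit 27990001840, nat_lit 28241834212, nat_lit 29124051940, nat_lit 29361593476], nat_lit 0, nat_lit 0, nat_lit 0, nat_lit 0, nat_lit 0, nat_lit 0, [], [nat_lit 55, nat_lit 40, nat_lit 40, nat_lit 80, nat_lit 3, nat_lit 272, nat_lit 60, nat_lit 8]⟩, ⟨p115_k33, nat_lit 0, nat_lit 0, nat_lit 403, nat_lit 0, nat_lit 509456, [nat_lit 806336000, nat_lit 1692824000, nat_lit 2417976000], [], [nat_lit 5368335156, nat_lit 5395656324, nat_lit 5549031236, nat_lit 5571366760, nat_lit 5801049882, nat_lit 5816779144, nat_lit 5938769374, nat_lit 5957364628], nat_lit 1271250, nat_lit 1271250, nat_lit 1271250, nat_lit 1271250, nat_lit 1100001, nat_lit 2744000, [nat_lit 1100000, nat_lit 2127500, nat_lit 1271250], [nat_lit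 56, nat_lit 40, nat_lit 40, nat_lit 80, nat_lit 32, nat_lit 483, nat_lit 250, nat_lit 10]⟩,
 ⟨nat_lit 1936, nat_lit 2237, ⟨.ofNat (nat_lit 739368), .ofNat (nat_lit 779279), .ofNat (nat_lit 750755), .ofNat (nat_lit 790666), .ofNat (nat_lit 736698), .ofNat (nat_lit 775821), .ofNat (nat_lit 748204), .ofNat (nat_lit 787326)⟩, ⟨.ofNat (nat_lit 329112), .ofNat (nat_lit 397530), .ofNat (nat_lit 351886), .ofNat (nat_lit 420305), .ofNat (nat_lit 329055), .ofNat (nat_lit 396122), .ofNat (nat_lit 352066), .ofNat (nat_lit 419133)⟩⟩, [⟨nat_lit 13, nat_lit 43, nat_lit 77, nat_lit 100, nat_lit 363523328⟩, ⟨nat_lit 16, nat_lit 44, nat_lit 100, nat_lit 92, nat_lit 302573012⟩, ⟨nat_lit 19, nat_lit 100, nat_lit 76, nat_lit 94, nat_lit 52959639⟩]⟩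
noncomputable def p115_l110 : Lf2 := ⟨nat_lit 0, nat_lit 30, [nat_lit 15, nat_lit 5, nat_lit 5, nat_lit 20], false, nat_lit 160, nat_lit 208, nat_lit 160, nat_lit 352, ⟨nat_lit 1000, nat_lit 0, nat_lit 0, nat_lit 0, nat_lit 0, nat_lit 0, nat_lit 0, nat_lit 0, nat_lit 0, nat_lit 0, nat_lit 0, nat_lit 0, nat_lit 0, nat_lit 0, nat_lit 0, nat_lit 0, false, false⟩,
 nat_lit 0, nat_lit 0, nat_lit 10042, nat_lit 0, nat_lit 5529, nat_lit 5845, nat_lit 0, nat_lit 0, nat_lit 0, nat_lit 587, nat_lit 0, nat_lit 0, nat_lit 0, nat_lit 0, nat_lit 0, nat_lit 0, nat_lit 0, nat_lit 0, [],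
 ⟨p115_k5, nat_lit 0, nat_lit 0, nat_lit 79, nat_lit 0, nat_lit 0, [nat_lit 938000000, nat_lit 4688000000, nat_lit 7968000000], [], [nat_lit 29526921614, nat_lit 29870239347, nat_lit 31012421184, nat_lit 31331174923, nat_lit 30189621149, nat_lit 30506223839, nat_lit 31555318258, nat_lit 31890558332], nat_lit 0, nat_lit 0, nat_lit 0, nat_lit 0, nat_lit 0, nat_lit 0, [], [nat_lit 57, nat_lit 40, nat_lit 40, nat_lit 80, nat_lit 7, nat_lit 272, nat_lit 60, nat_lit 7]⟩, ⟨p115_k18, nat_lit 0, nat_lit 0, nat_lit 281, nat_lit 0, nat_lit 315088, [nat_lit 4688000000, nat_lit 9842000000, nat_lit 14058000000], [], [nat_lit 32125596680, nat_lit 32367749290, nat_lit 33272318501, nat_lit 33489004072, nat_lit 35548348630, nat_lit 35676960032, nat_lit 36390529108, nat_lit 36527094285], nat_lit 1271250, nat_lit 1271250, nat_lit 1271250, nat_lit 1271250, nat_lit 1100001, nat_lit 2744000, [nat_lit 1100000, nat_lit 2127500, nat_lit 1271250],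 [nat_lit 56, nat_lit 40, nat_lit 40, nat_lit 80, nat_lit 32, nat_lit 483, nat_lit 250, nat_lit 10]⟩,
 zbF0, [⟨nat_lit 4, nat_lit 100, nat_lit 41, nat_lit 89, nat_lit 737236616⟩, ⟨nat_lit 19, nat_lit 100, nat_lit 76, nat_lit 94, nat_lit 323067761⟩, ⟨nat_lit 22, nat_lit 74, nat_lit 73, nat_lit 100, nat_lit 10311638⟩]⟩
noncomputable def p115_l111 : Lf2 := ⟨nat_lit 0, nat_lit 30, [nat_lit 15, nat_lit 5, nat_lit 5, nat_lit 20], false, nat_lit 160, nat_lit 208, nat_lit 160, nat_lit 344, ⟨nat_lit 271, nat_lit 729, nat_lit 0, nat_lit 8, nat_lit 308, nat_lit 729, nat_lit 150, nat_lit 0, nat_lit 0, nat_lit 0, nat_lit 0, nat_lit 0, nat_lit 37088962, nat_lit 22767209, nat_lit 7143829, nat_lit 4993965, true, true⟩,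
 nat_lit 0, nat_lit 0, nat_lit 3759, nat_lit 0, nat_lit 3753, nat_lit 2289, nat_lit 0, nat_lit 0, nat_lit 0, nat_lit 177, nat_lit 0, nat_lit 0, nat_lit 0, nat_lit 0, nat_lit 0, nat_lit 182250, nat_lit 0, nat_lit 0, [(nat_lit 29, [(nat_lit 0, nat_lit 729)])],
 ⟨p115_k5, nat_lit 0, nat_lit 0, nat_lit 79, nat_lit 0, nat_lit 0, [nat_lit 823984400, nat_lit 2402730801, nat_lit 3723813600], [], [nat_lit 27567786399, nat_lit 27850200652, nat_lit 28829885415, nat_lit 29094108940, nat_lit 28357872020, nat_lit 28620316479, nat_lit 29529875585, nat_lit 29775943650], nat_lit 0, nat_lit 0, nat_lit 0, nat_lit 0, nat_lit 0, nat_lit 0, [], [nat_lit 57, nat_lit 40, nat_lit 40, nat_lit 80, nat_lit 7, nat_lit 272, nat_lit 60, nat_lit 7]⟩, ⟨p115_k26, nat_lit 0, nat_lit 0, nat_lit 403, nat_lit 0, nat_lit 511748, [nat_lit 1270448000, nat_lit 2667182000, nat_lit 3809718000], [], [nat_lit 8294061407, nat_lit 8307217435, nat_lit 8564433831,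 nat_lit 8575355681, nat_lit 8914801119, nat_lit 8923328118, nat_lit 9129082638, nat_lit 9138158619], nat_lit 1271250, nat_lit 1271250, nat_lit 1271250, nat_lit 1271250, nat_lit 1100001, nat_lit 2675500, [nat_lit 1100000, nat_lit 2127500, nat_lit 1271250], [nat_lit 56, nat_lit 40, nat_lit 40, nat_lit 80, nat_lit 32, nat_lit 483, nat_lit 250, nat_lit 10]⟩,
 ⟨nat_lit 1936, nat_lit 2237, ⟨.ofNat (nat_lit 750755), .ofNat (nat_lit 790666), .ofNat (nat_lit 754171), .ofNat (nat_lit 794082), .ofNat (nat_lit 748204), .ofNat (nat_lit 787326), .ofNat (nat_lit 751656), .ofNat (nat_lit 790778)⟩, ⟨.ofNat (nat_lit 329112), .ofNat (nat_lit 397530), .ofNat (nat_lit 351886), .ofNat (nat_lit 420305), .ofNat (nat_lit 329055), .ofNat (nat_lit 396122), .ofNat (nat_lit 352066), .ofNat (nat_lit 419133)⟩⟩, [⟨nat_lit 13, nat_lit 44, nat_lit 76, nat_lit 100, nat_lit 271623033⟩, ⟨nat_lit 13, nat_lit 41, nat_lit 78, nat_lit 100, nat_lit 42973181⟩,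 ⟨nat_lit 4, nat_lit 100, nat_lit 41, nat_lit 89, nat_lit 368795525⟩, ⟨nat_lit 7, nat_lit 79, nat_lit 100, nat_lit 96, nat_lit 80949948⟩]⟩
noncomputable def p115_l112 : Lf2 := ⟨nat_lit 0, nat_lit 30, [nat_lit 15, nat_lit 5, nat_lit 5, nat_lit 20], false, nat_lit 160, nat_lit 208, nat_lit 160, nat_lit 344, ⟨nat_lit 290, nat_lit 710, nat_lit 0, nat_lit 8, nat_lit 311, nat_lit 710, nat_lit 150, nat_lit 0, nat_lit 0, nat_lit 0, nat_lit 0, nat_lit 0, nat_lit 36911199, nat_lit 22969398, nat_lit 7119403, nat_lit 4998122, true, true⟩,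
 nat_lit 0, nat_lit 0, nat_lit 3847, nat_lit 0, nat_lit 3691, nat_lit 2374, nat_lit 0, nat_lit 0, nat_lit 0, nat_lit 189, nat_lit 0, nat_lit 0, nat_lit 0, nat_lit 0, nat_lit 0, nat_lit 190400, nat_lit 0, nat_lit 0, [(nat_lit 29, [(nat_lit 0, nat_lit 624), (nat_lit 1, nat_lit 86)])],
 ⟨p115_k5, nat_lit 0, nat_lit 0, nat_lit 80, nat_lit 0, nat_lit 0, [nat_lit 819800800, nat_lit 2345710400, nat_lit 3645960800], [], [nat_lit 27522151306, nat_lit 27802439424, nat_lit 28955637161, nat_lit 29215390149, nat_lit 28316683964, nat_lit 28577237764, nat_lit 29648388811, nat_lit 29890213912], nat_lit 0, nat_lit 0, nat_lit 0, nat_lit 0, nat_lit 0, nat_lit 0, [], [nat_lit 57, nat_lit 40, nat_lit 40, nat_lit 80, nat_lit 7, nat_lit 272, nat_lit 60, nat_lit 7]⟩, ⟨p115_k27, nat_lit 0, nat_lit 0, nat_lit 403, nat_lit 0, nat_lit 512876, [nat_lit 1359520000, nat_lit 2854180000, nat_lit 4076820000], [], [nat_lit 8901543965, nat_lit 8911010758,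 nat_lit 9225819974, nat_lit 9233512126, nat_lit 9551990002, nat_lit 9558235065, nat_lit 9809233171, nat_lit 9813981406], nat_lit 1271250, nat_lit 1271250, nat_lit 1271250, nat_lit 1271250, nat_lit 1100001, nat_lit 2675500, [nat_lit 1100000, nat_lit 2127500, nat_lit 1271250], [nat_lit 56, nat_lit 40, nat_lit 40, nat_lit 80, nat_lit 32, nat_lit 483, nat_lit 250, nat_lit 10]⟩,
 ⟨nat_lit 1936, nat_lit 2237, ⟨.ofNat (nat_lit 754171), .ofNat (nat_lit 799784), .ofNat (nat_lit 756449), .ofNat (nat_lit 802061), .ofNat (nat_lit 751656), .ofNat (nat_lit 796367), .ofNat (nat_lit 753957), .ofNat (nat_lit 798668)⟩, ⟨.ofNat (nat_lit 329112), .ofNat (nat_lit 397530), .ofNat (nat_lit 351886), .ofNat (nat_lit 420305), .ofNat (nat_lit 329055), .ofNat (nat_lit 396122), .ofNat (nat_lit 352066), .ofNat (nat_lit 419133)⟩⟩, [⟨nat_lit 13, nat_lit 41, nat_lit 78, nat_lit 100, nat_lit 319262344⟩, ⟨nat_lit 16, nat_lit 41, nat_lit 100, nat_lit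 89, nat_lit 386269710⟩, ⟨nat_lit 7, nat_lit 81, nat_lit 100, nat_lit 96, nat_lit 86062835⟩]⟩
noncomputable def p115_l113 : Lf2 := ⟨nat_lit 0, nat_lit 30, [nat_lit 15, nat_lit 5, nat_lit 5, nat_lit 20], false, nat_lit 160, nat_lit 208, nat_lit 160, nat_lit 340, ⟨nat_lit 328, nat_lit 672, nat_lit 0, nat_lit 8, nat_lit 312, nat_lit 672, nat_lit 150, nat_lit 0, nat_lit 0, nat_lit 0, nat_lit 0, nat_lit 0, nat_lit 36765476, nat_lit 23131305, nat_lit 7103219, nat_lit 5001787, true, true⟩,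
 nat_lit 0, nat_lit 0, nat_lit 4250, nat_lit 0, nat_lit 3187, nat_lit 2646, nat_lit 0, nat_lit 0, nat_lit 0, nat_lit 218, nat_lit 0, nat_lit 0, nat_lit 0, nat_lit 0, nat_lit 0, nat_lit 268800, nat_lit 0, nat_lit 0, [(nat_lit 29, [(nat_lit 1, nat_lit 672)])],
 ⟨p115_k5, nat_lit 0, nat_lit 0, nat_lit 79, nat_lit 0, nat_lit 0, [nat_lit 776988800, nat_lit 1670451200, nat_lit 2650329600], [], [nat_lit 26939443642, nat_lit 27097246461, nat_lit 28300475263, nat_lit 28447197207, nat_lit 27770126406, nat_lit 27917237149, nat_lit 29039011725, nat_lit 29176011725], nat_lit 0, nat_lit 0, nat_lit 0, nat_lit 0, nat_lit 0, nat_lit 0, [], [nat_lit 57, nat_lit 40, nat_lit 40, nat_lit 80, nat_lit 7, nat_lit 272, nat_lit 60, nat_lit 7]⟩, ⟨p115_k50, nat_lit 0, nat_lit 0, nat_lit 399, nat_lit 0, nat_lit 503569, [nat_lit 1537664000, nat_lit 3228176000, nat_lit 4611024000], [], [nat_lit 9976120800, nat_lit 10002994050, nat_lit 10339014361,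 nat_lit 10365550515, nat_lit 10706048419, nat_lit 10724477632, nat_lit 10998541178, nat_lit 11014673641], nat_lit 1271250, nat_lit 1271250, nat_lit 1271250, nat_lit 1271250, nat_lit 1100001, nat_lit 2641250, [nat_lit 1100000, nat_lit 2127500, nat_lit 1271250], [nat_lit 56, nat_lit 40, nat_lit 40, nat_lit 80, nat_lit 32, nat_lit 483, nat_lit 250, nat_lit 10]⟩,
 ⟨nat_lit 2061, nat_lit 2237, ⟨.ofNat (nat_lit 756449), .ofNat (nat_lit 802061), .ofNat (nat_lit 762142), .ofNat (nat_lit 807755), .ofNat (nat_lit 754965), .ofNat (nat_lit 800046), .ofNat (nat_lit 760692), .ofNat (nat_lit 805773)⟩, ⟨.ofNat (nat_lit 329112), .ofNat (nat_lit 397530), .ofNat (nat_lit 351886), .ofNat (nat_lit 420305), .ofNat (nat_lit 329098), .ofNat (nat_lit 396719), .ofNat (nat_lit 352008), .ofNat (nat_lit 419629)⟩⟩, [⟨nat_lit 13, nat_lit 44, nat_lit 75, nat_lit 100, nat_lit 252070688⟩, ⟨nat_lit 4, nat_lit 100, nat_lit 42, nat_lit 89, nat_lit 399268574⟩,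 ⟨nat_lit 7, nat_lit 83, nat_lit 100, nat_lit 97, nat_lit 96104784⟩]⟩
noncomputable def p115_l114 : Lf2 := ⟨nat_lit 0, nat_lit 30, [nat_lit 15, nat_lit 5, nat_lit 5, nat_lit 20], false, nat_lit 160, nat_lit 204, nat_lit 160, nat_lit 340, ⟨nat_lit 311, nat_lit 689, nat_lit 0, nat_lit 8, nat_lit 311, nat_lit 689, nat_lit 149, nat_lit 0, nat_lit 0, nat_lit 0, nat_lit 0, nat_lit 0, nat_lit 36954277, nat_lit 23007809, nat_lit 7037914, nat_lit 4987573, true, true⟩,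
 nat_lit 0, nat_lit 0, nat_lit 4042, nat_lit 0, nat_lit 3137, nat_lit 2516, nat_lit 0, nat_lit 0, nat_lit 0, nat_lit 207, nat_lit 0, nat_lit 0, nat_lit 0, nat_lit 0, nat_lit 0, nat_lit 275600, nat_lit 0, nat_lit 0, [(nat_lit 29, [(nat_lit 1, nat_lit 689)])],
 ⟨p115_k51, nat_lit 0, nat_lit 0, nat_lit 79, nat_lit 0, nat_lit 0, [nat_lit 772915601, nat_lit 1594114401, nat_lit 2515805200], [], [nat_lit 27029062587, nat_lit 27133578616, nat_lit 28204087716, nat_lit 28302211673, nat_lit 27784112622, nat_lit 27882164235, nat_lit 28886764467, nat_lit 28978936725], nat_lit 0, nat_lit 0, nat_lit 0, nat_lit 0, nat_lit 0, nat_lit 0, [], [nat_lit 57, nat_lit 40, nat_lit 40, nat_lit 80, nat_lit 7, nat_lit 272, nat_lit 60, nat_lit 7]⟩, ⟨p115_k50, nat_lit 0, nat_lit 0, nat_lit 411, nat_lit 0, nat_lit 535272, [nat_lit 1457968000, nat_lit 3060862000, nat_lit 4372038000], [], [nat_lit 9441300298, nat_lit 9466761527, nat_lit 9742673165,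 nat_lit 9764011933, nat_lit 10134540541, nat_lit 10151977562, nat_lit 10377370978, nat_lit 10391296743], nat_lit 1271250, nat_lit 1271250, nat_lit 1271250, nat_lit 1271250, nat_lit 1100001, nat_lit 2641250, [nat_lit 1100000, nat_lit 2127500, nat_lit 1271250], [nat_lit 56, nat_lit 40, nat_lit 40, nat_lit 80, nat_lit 32, nat_lit 483, nat_lit 250, nat_lit 10]⟩,
 ⟨nat_lit 1936, nat_lit 2062, ⟨.ofNat (nat_lit 754965), .ofNat (nat_lit 794411), .ofNat (nat_lit 760692), .ofNat (nat_lit 800138), .ofNat (nat_lit 753957), .ofNat (nat_lit 793079), .ofNat (nat_lit 759709), .ofNat (nat_lit 798832)⟩, ⟨.ofNat (nat_lit 329098), .ofNat (nat_lit 391084), .ofNat (nat_lit 352008), .ofNat (nat_lit 413994), .ofNat (nat_lit 329055), .ofNat (nat_lit 390533), .ofNat (nat_lit 352066), .ofNat (nat_lit 413544)⟩⟩, [⟨nat_lit 13, nat_lit 41, nat_lit 77, nat_lit 100, nat_lit 282358475⟩, ⟨nat_lit 4, nat_lit 100, nat_lit 39, nat_lit 89, nat_lit 434322143⟩,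 ⟨nat_lit 19, nat_lit 100, nat_lit 83, nat_lit 97, nat_lit 91551070⟩]⟩
noncomputable def p115_l115 : Lf2 := ⟨nat_lit 0, nat_lit 30, [nat_lit 15, nat_lit 5, nat_lit 5, nat_lit 20], false, nat_lit 160, nat_lit 196, nat_lit 16, nat_lit 352, ⟨nat_lit 182, nat_lit 818, nat_lit 0, nat_lit 8, nat_lit 299, nat_lit 818, nat_lit 142, nat_lit 0, nat_lit 0, nat_lit 0, nat_lit 0, nat_lit 0, nat_lit 38249816, nat_lit 22062026, nat_lit 6688158, nat_lit 4896156, true, true⟩,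
 nat_lit 0, nat_lit 0, nat_lit 2876, nat_lit 0, nat_lit 3509, nat_lit 1674, nat_lit 0, nat_lit 0, nat_lit 0, nat_lit 119, nat_lit 0, nat_lit 0, nat_lit 0, nat_lit 0, nat_lit 0, nat_lit 204500, nat_lit 0, nat_lit 0, [(nat_lit 29, [(nat_lit 0, nat_lit 818)])],
 ⟨p115_k7, nat_lit 0, nat_lit 0, nat_lit 77, nat_lit 0, nat_lit 0, [nat_lit 810064801, nat_lit 1979111200, nat_lit 2598775200], [], [nat_lit 27463020377, nat_lit 27737067259, nat_lit 27983345295, nat_lit 28249971411, nat_lit 28054428212, nat_lit 28314192783, nat_lit 28548025624, nat_lit 28838858193], nat_lit 0, nat_lit 0, nat_lit 0, nat_lit 0, nat_lit 0, nat_lit 0, [], [nat_lit 55, nat_lit 40, nat_lit 40, nat_lit 80, nat_lit 3, nat_lit 260, nat_lit 50, nat_lit 8]⟩, ⟨p115_k18, nat_lit 0, nat_lit 0, nat_lit 648, nat_lit 0, nat_lit 812632, [nat_lit 853216000, nat_lit 1791244000, nat_lit 2558556000], [], [nat_lit 7140023248, nat_lit 7144430189, nat_lit 7186996035,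 nat_lit 7190637406, nat_lit 6050699129, nat_lit 6058815402, nat_lit 6113505306, nat_lit 6126508104], nat_lit 1271250, nat_lit 1271250, nat_lit 1271250, nat_lit 1271250, nat_lit 88400, nat_lit 2511800, [nat_lit 1100000, nat_lit 2127500, nat_lit 1271250], [nat_lit 56, nat_lit 40, nat_lit 40, nat_lit 80, nat_lit 32, nat_lit 483, nat_lit 250, nat_lit 11]⟩,
 ⟨nat_lit 1581, nat_lit 1937, ⟨.ofNat (nat_lit 736698), .ofNat (nat_lit 753465), .ofNat (nat_lit 742451), .ofNat (nat_lit 759218), .ofNat (nat_lit 733851), .ofNat (nat_lit 750242), .ofNat (nat_lit 739680), .ofNat (nat_lit 756070)⟩, ⟨.ofNat (nat_lit 306044), .ofNat (nat_lit 356345), .ofNat (nat_lit 352066), .ofNat (nat_lit 402366), .ofNat (nat_lit 305473), .ofNat (nat_lit 354645), .ofNat (nat_lit 352103), .ofNat (nat_lit 401275)⟩⟩, [⟨nat_lit 13, nat_lit 40, nat_lit 79, nat_lit 100, nat_lit 350743055⟩, ⟨nat_lit 16, nat_lit 35, nat_lit 100, nat_lit 88, nat_lit 396336212⟩,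 ⟨nat_lit 16, nat_lit 38, nat_lit 100, nat_lit 92, nat_lit 66999501⟩, ⟨nat_lit 22, nat_lit 78, nat_lit 72, nat_lit 100, nat_lit 25220870⟩]⟩
noncomputable def p115_l116 : Lf2 := ⟨nat_lit 0, nat_lit 30, [nat_lit 15, nat_lit 5, nat_lit 5, nat_lit 20], false, nat_lit 160, nat_lit 196, nat_lit 16, nat_lit 348, ⟨nat_lit 195, nat_lit 805, nat_lit 0, nat_lit 8, nat_lit 302, nat_lit 805, nat_lit 142, nat_lit 0, nat_lit 0, nat_lit 0, nat_lit 0, nat_lit 0, nat_lit 37949950, nat_lit 22392656, nat_lit 6657394, nat_lit 4905514, true, true⟩,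
 nat_lit 0, nat_lit 0, nat_lit 2879, nat_lit 0, nat_lit 3523, nat_lit 1714, nat_lit 0, nat_lit 0, nat_lit 0, nat_lit 127, nat_lit 0, nat_lit 0, nat_lit 0, nat_lit 0, nat_lit 0, nat_lit 201250, nat_lit 0, nat_lit 0, [(nat_lit 29, [(nat_lit 0, nat_lit 805)])],
 ⟨p115_k7, nat_lit 0, nat_lit 0, nat_lit 77, nat_lit 0, nat_lit 0, [nat_lit 812098001, nat_lit 2022162001, nat_lit 2656802000], [], [nat_lit 27503980397, nat_lit 27668696584, nat_lit 28198724555, nat_lit 28357486903, nat_lit 28094595226, nat_lit 28250718098, nat_lit 28753029563, nat_lit 28924640877], nat_lit 0, nat_lit 0, nat_lit 0, nat_lit 0, nat_lit 0, nat_lit 0, [], [nat_lit 55, nat_lit 40, nat_lit 40, nat_lit 80, nat_lit 3, nat_lit 260, nat_lit 50, nat_lit 8]⟩, ⟨p115_k25, nat_lit 0, nat_lit 0, nat_lit 633, nat_lit 0, nat_lit 776249, [nat_lit 914160000, nat_lit 1919190000, nat_lit 2741310000], [], [nat_lit 7414936488, nat_lit 7430131702, nat_lit 7525119996,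 nat_lit 7538789076, nat_lit 6470763302, nat_lit 6472090174, nat_lit 6548837912, nat_lit 6557025220], nat_lit 1271250, nat_lit 1271250, nat_lit 1271250, nat_lit 1271250, nat_lit 88400, nat_lit 2482950, [nat_lit 1100000, nat_lit 2127500, nat_lit 1271250], [nat_lit 56, nat_lit 40, nat_lit 40, nat_lit 80, nat_lit 32, nat_lit 483, nat_lit 250, nat_lit 11]⟩,
 ⟨nat_lit 1732, nat_lit 1937, ⟨.ofNat (nat_lit 742451), .ofNat (nat_lit 764807), .ofNat (nat_lit 748204), .ofNat (nat_lit 770560), .ofNat (nat_lit 740815), .ofNat (nat_lit 762878), .ofNat (nat_lit 746610), .ofNat (nat_lit 768673)⟩, ⟨.ofNat (nat_lit 306044), .ofNat (nat_lit 356345), .ofNat (nat_lit 352066), .ofNat (nat_lit 402366), .ofNat (nat_lit 305745), .ofNat (nat_lit 355387), .ofNat (nat_lit 352110), .ofNat (nat_lit 401752)⟩⟩, [⟨nat_lit 13, nat_lit 38, nat_lit 80, nat_lit 100, nat_lit 161938544⟩, ⟨nat_lit 13, nat_lit 41, nat_lit 78, nat_lit 100, nat_lit 229037942⟩,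 ⟨nat_lit 4, nat_lit 100, nat_lit 37, nat_lit 88, nat_lit 406539633⟩, ⟨nat_lit 7, nat_lit 81, nat_lit 100, nat_lit 92, nat_lit 25489330⟩]⟩
noncomputable def p115_l117 : Lf2 := ⟨nat_lit 0, nat_lit 30, [nat_lit 15, nat_lit 5, nat_lit 5, nat_lit 20], false, nat_lit 160, nat_lit 188, nat_lit 16, nat_lit 348, ⟨nat_lit 178, nat_lit 822, nat_lit 0, nat_lit 8, nat_lit 301, nat_lit 822, nat_lit 139, nat_lit 0, nat_lit 0, nat_lit 0, nat_lit 0, nat_lit 0, nat_lit 38196066, nat_lit 22288037, nat_lit 6515897, nat_lit 4878985, true, true⟩,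
 nat_lit 0, nat_lit 0, nat_lit 2659, nat_lit 0, nat_lit 3488, nat_lit 1583, nat_lit 0, nat_lit 0, nat_lit 0, nat_lit 118, nat_lit 0, nat_lit 0, nat_lit 0, nat_lit 0, nat_lit 0, nat_lit 205500, nat_lit 0, nat_lit 0, [(nat_lit 29, [(nat_lit 0, nat_lit 822)])],
 ⟨p115_k19, nat_lit 0, nat_lit 0, nat_lit 77, nat_lit 0, nat_lit 0, [nat_lit 809439201, nat_lit 1965864800, nat_lit 2580920800], [], [nat_lit 27616906193, nat_lit 27726236888, nat_lit 28131698228, nat_lit 28238073537, nat_lit 28071178075, nat_lit 28176083995, nat_lit 28565308000, nat_lit 28682789733], nat_lit 0, nat_lit 0, nat_lit 0, nat_lit 0, nat_lit 0, nat_lit 0, [], [nat_lit 55, nat_lit 40, nat_lit 40, nat_lit 80, nat_lit 3, nat_lit 260, nat_lit 50, nat_lit 8]⟩, ⟨p115_k25, nat_lit 0, nat_lit 0, nat_lit 647, nat_lit 0, nat_lit 813247, [nat_lit 834464000, nat_lit 1751876000, nat_lit 2502324000], [], [nat_lit 6856359106, nat_lit 6861053564, nat_lit 6901424287,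 nat_lit 6905390698, nat_lit 5848241117, nat_lit 5856819032, nat_lit 5909320892, nat_lit 5922542086], nat_lit 1271250, nat_lit 1271250, nat_lit 1271250, nat_lit 1271250, nat_lit 88400, nat_lit 2482950, [nat_lit 1100000, nat_lit 2127500, nat_lit 1271250], [nat_lit 56, nat_lit 40, nat_lit 40, nat_lit 80, nat_lit 32, nat_lit 483, nat_lit 250, nat_lit 11]⟩,
 ⟨nat_lit 1581, nat_lit 1733, ⟨.ofNat (nat_lit 740815), .ofNat (nat_lit 757362), .ofNat (nat_lit 746610), .ofNat (nat_lit 763158), .ofNat (nat_lit 739680), .ofNat (nat_lit 756070), .ofNat (nat_lit 745508), .ofNat (nat_lit 761899)⟩, ⟨.ofNat (nat_lit 305745), .ofNat (nat_lit 344355), .ofNat (nat_lit 352110), .ofNat (nat_lit 390721), .ofNat (nat_lit 305473), .ofNat (nat_lit 343718), .ofNat (nat_lit 352103), .ofNat (nat_lit 390348)⟩⟩, [⟨nat_lit 13, nat_lit 36, nat_lit 81, nat_lit 100, nat_lit 450531363⟩, ⟨nat_lit 4, nat_lit 100, nat_lit 33, nat_lit 88, nat_lit 450795326⟩,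 ⟨nat_lit 19, nat_lit 100, nat_lit 81, nat_lit 92, nat_lit 21461858⟩]⟩
noncomputable def p115_l118 : Lf2 := ⟨nat_lit 0, nat_lit 30, [nat_lit 15, nat_lit 5, nat_lit 5, nat_lit 20], false, nat_lit 160, nat_lit 196, nat_lit 16, nat_lit 344, ⟨nat_lit 206, nat_lit 794, nat_lit 0, nat_lit 8, nat_lit 305, nat_lit 794, nat_lit 142, nat_lit 0, nat_lit 0, nat_lit 0, nat_lit 0, nat_lit 0, nat_lit 37734923, nat_lit 22639319, nat_lit 6625758, nat_lit 4910761, true, true⟩,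
 nat_lit 0, nat_lit 0, nat_lit 2881, nat_lit 0, nat_lit 3534, nat_lit 1754, nat_lit 0, nat_lit 0, nat_lit 0, nat_lit 136, nat_lit 0, nat_lit 0, nat_lit 0, nat_lit 0, nat_lit 0, nat_lit 198500, nat_lit 0, nat_lit 0, [(nat_lit 29, [(nat_lit 0, nat_lit 794)])],
 ⟨p115_k7, nat_lit 0, nat_lit 0, nat_lit 79, nat_lit 0, nat_lit 0, [nat_lit 813818401, nat_lit 2058589601, nat_lit 2705901600], [], [nat_lit 27538765240, nat_lit 27813669435, nat_lit 28408155581, nat_lit 28670627750, nat_lit 28128756993, nat_lit 28389307664, nat_lit 28952663427, nat_lit 29238117465], nat_lit 0, nat_lit 0, nat_lit 0, nat_lit 0, nat_lit 0, nat_lit 0, [], [nat_lit 55, nat_lit 40, nat_lit 40, nat_lit 80, nat_lit 3, nat_lit 260, nat_lit 50, nat_lit 8]⟩, ⟨p115_k26, nat_lit 0, nat_lit 0, nat_lit 642, nat_lit 0, nat_lit 803376, [nat_lit 965728000, nat_lit 2027452000, nat_lit 2895948000], [], [nat_lit 7878280834, nat_lit 7881872470, nat_lit 7963546278,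 nat_lit 7966325127, nat_lit 6739470801, nat_lit 6744787730, nat_lit 6855900607, nat_lit 6863029354], nat_lit 1271250, nat_lit 1271250, nat_lit 1271250, nat_lit 1271250, nat_lit 88400, nat_lit 2454100, [nat_lit 1100000, nat_lit 2127500, nat_lit 1271250], [nat_lit 56, nat_lit 40, nat_lit 40, nat_lit 80, nat_lit 32, nat_lit 483, nat_lit 250, nat_lit 11]⟩,
 ⟨nat_lit 1581, nat_lit 1937, ⟨.ofNat (nat_lit 748204), .ofNat (nat_lit 776148), .ofNat (nat_lit 751656), .ofNat (nat_lit 779600), .ofNat (nat_lit 745508), .ofNat (nat_lit 772826), .ofNat (nat_lit 749006), .ofNat (nat_lit 776324)⟩, ⟨.ofNat (nat_lit 306044), .ofNat (nat_lit 356345), .ofNat (nat_lit 352066), .ofNat (nat_lit 402366), .ofNat (nat_lit 305473), .ofNat (nat_lit 354645), .ofNat (nat_lit 352103), .ofNat (nat_lit 401275)⟩⟩, [⟨nat_lit 13, nat_lit 41, nat_lit 78, nat_lit 100, nat_lit 372782176⟩, ⟨nat_lit 16, nat_lit 35, nat_lit 100, nat_lit 88, nat_lit 432602902⟩,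 ⟨nat_lit 19, nat_lit 100, nat_lit 83, nat_lit 93, nat_lit 24651558⟩]⟩
noncomputable def p115_l119 : Lf2 := ⟨nat_lit 0, nat_lit 30, [nat_lit 15, nat_lit 5, nat_lit 5, nat_lit 20], false, nat_lit 160, nat_lit 196, nat_lit 16, nat_lit 344, ⟨nat_lit 217, nat_lit 783, nat_lit 0, nat_lit 8, nat_lit 306, nat_lit 783, nat_lit 142, nat_lit 0, nat_lit 0, nat_lit 0, nat_lit 0, nat_lit 0, nat_lit 37641925, nat_lit 22743713, nat_lit 6614362, nat_lit 4913191, true, true⟩,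
 nat_lit 0, nat_lit 0, nat_lit 2917, nat_lit 0, nat_lit 3562, nat_lit 1800, nat_lit 0, nat_lit 0, nat_lit 0, nat_lit 145, nat_lit 0, nat_lit 0, nat_lit 0, nat_lit 0, nat_lit 0, nat_lit 195750, nat_lit 0, nat_lit 0, [(nat_lit 29, [(nat_lit 0, nat_lit 783)])],
 ⟨p115_k7, nat_lit 0, nat_lit 0, nat_lit 79, nat_lit 0, nat_lit 0, [nat_lit 815538801, nat_lit 2095017200, nat_lit 2755001200], [], [nat_lit 27571011277, nat_lit 27846875662, nat_lit 28442845619, nat_lit 28706494568, nat_lit 28159417018, nat_lit 28420848121, nat_lit 28985521485, nat_lit 29272026713], nat_lit 0, nat_lit 0, nat_lit 0, nat_lit 0, nat_lit 0, nat_lit 0, [], [nat_lit 55, nat_lit 40, nat_lit 40, nat_lit 80, nat_lit 3, nat_lit 260, nat_lit 50, nat_lit 8]⟩, ⟨p115_k27, nat_lit 0, nat_lit 0, nat_lit 640, nat_lit 0, nat_lit 798805, [nat_lit 1017296000, nat_lit 2135714000, nat_lit 3050586000], [], [nat_lit 8035763547, nat_lit 8042644163, nat_lit 8182602042,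 nat_lit 8188673722, nat_lit 7071941520, nat_lit 7076563965, nat_lit 7192622141, nat_lit 7197206183], nat_lit 1271250, nat_lit 1271250, nat_lit 1271250, nat_lit 1271250, nat_lit 88400, nat_lit 2454100, [nat_lit 1100000, nat_lit 2127500, nat_lit 1271250], [nat_lit 56, nat_lit 40, nat_lit 40, nat_lit 80, nat_lit 32, nat_lit 483, nat_lit 250, nat_lit 11]⟩,
 ⟨nat_lit 1581, nat_lit 1937, ⟨.ofNat (nat_lit 751656), .ofNat (nat_lit 779600), .ofNat (nat_lit 753957), .ofNat (nat_lit 781901), .ofNat (nat_lit 749006), .ofNat (nat_lit 776324), .ofNat (nat_lit 751337), .ofNat (nat_lit 778655)⟩, ⟨.ofNat (nat_lit 306044), .ofNat (nat_lit 356345), .ofNat (nat_lit 352066), .ofNat (nat_lit 402366), .ofNat (nat_lit 305473), .ofNat (nat_lit 354645), .ofNat (nat_lit 352103), .ofNat (nat_lit 401275)⟩⟩, [⟨nat_lit 13, nat_lit 41, nat_lit 77, nat_lit 100, nat_lit 365702463⟩, ⟨nat_lit 16, nat_lit 35, nat_lit 100, nat_lit 88, nat_lit 438167656⟩,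 ⟨nat_lit 7, nat_lit 84, nat_lit 100, nat_lit 93, nat_lit 29269931⟩]⟩
noncomputable def p115_l120 : Lf2 := ⟨nat_lit 0, nat_lit 30, [nat_lit 15, nat_lit 5, nat_lit 5, nat_lit 20], false, nat_lit 160, nat_lit 196, nat_lit 16, nat_lit 340, ⟨nat_lit 219, nat_lit 781, nat_lit 0, nat_lit 8, nat_lit 308, nat_lit 781, nat_lit 142, nat_lit 0, nat_lit 0, nat_lit 0, nat_lit 0, nat_lit 0, nat_lit 37460620, nat_lit 22947347, nat_lit 6592033, nat_lit 4917745, true, true⟩,
 nat_lit 0, nat_lit 0, nat_lit 2871, nat_lit 0, nat_lit 3549, nat_lit 1787, nat_lit 0, nat_lit 0, nat_lit 0, nat_lit 146, nat_lit 0, nat_lit 0, nat_lit 0, nat_lit 0, nat_lit 0, nat_lit 195250, nat_lit 0, nat_lit 0, [(nat_lit 29, [(nat_lit 0, nat_lit 781)])],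
 ⟨p115_k7, nat_lit 0, nat_lit 0, nat_lit 80, nat_lit 0, nat_lit 0, [nat_lit 815851600, nat_lit 2101640400, nat_lit 2763928400], [], [nat_lit 27579575917, nat_lit 27854994499, nat_lit 28624415469, nat_lit 28885561097, nat_lit 28168718020, nat_lit 28429740351, nat_lit 29158818763, nat_lit 29441535266], nat_lit 0, nat_lit 0, nat_lit 0, nat_lit 0, nat_lit 0, nat_lit 0, [], [nat_lit 55, nat_lit 40, nat_lit 40, nat_lit 80, nat_lit 3, nat_lit 260, nat_lit 50, nat_lit 8]⟩, ⟨p115_k50, nat_lit 0, nat_lit 0, nat_lit 642, nat_lit 0, nat_lit 805751, [nat_lit 1026672000, nat_lit 2155398000, nat_lit 3078702000], [], [nat_lit 8080088563, nat_lit 8090552890, nat_lit 8255949431, nat_lit 8264964205, nat_lit 7116205299, nat_lit 7118164509, nat_lit 7251358705, nat_lit 7257397807], nat_lit 1271250, nat_lit 1271250, nat_lit 1271250, nat_lit 1271250, nat_lit 88400, nat_lit 2425250, [nat_lit 1100000, nat_lit 2127500, nat_lit 1271250], [nat_lit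 56, nat_lit 40, nat_lit 40, nat_lit 80, nat_lit 32, nat_lit 483, nat_lit 250, nat_lit 11]⟩,
 ⟨nat_lit 1581, nat_lit 1937, ⟨.ofNat (nat_lit 753957), .ofNat (nat_lit 787490), .ofNat (nat_lit 757408), .ofNat (nat_lit 790942), .ofNat (nat_lit 751337), .ofNat (nat_lit 784119), .ofNat (nat_lit 754834), .ofNat (nat_lit 787616)⟩, ⟨.ofNat (nat_lit 306044), .ofNat (nat_lit 356345), .ofNat (nat_lit 352066), .ofNat (nat_lit 402366), .ofNat (nat_lit 305473), .ofNat (nat_lit 354645), .ofNat (nat_lit 352103), .ofNat (nat_lit 401275)⟩⟩, [⟨nat_lit 13, nat_lit 41, nat_lit 76, nat_lit 100, nat_lit 362869119⟩, ⟨nat_lit 4, nat_lit 100, nat_lit 35, nat_lit 88, nat_lit 436182537⟩, ⟨nat_lit 19, nat_lit 100, nat_lit 86, nat_lit 94, nat_lit 28725314⟩]⟩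
noncomputable def p115_l121 : Lf2 := ⟨nat_lit 0, nat_lit 30, [nat_lit 15, nat_lit 5, nat_lit 5, nat_lit 20], false, nat_lit 160, nat_lit 196, nat_lit 16, nat_lit 340, ⟨nat_lit 229, nat_lit 771, nat_lit 0, nat_lit 8, nat_lit 310, nat_lit 771, nat_lit 142, nat_lit 0, nat_lit 0, nat_lit 0, nat_lit 0, nat_lit 0, nat_lit 37368073, nat_lit 23051347, nat_lit 6580580, nat_lit 4919978, true, true⟩,
 nat_lit 0, nat_lit 0, nat_lit 2893, nat_lit 0, nat_lit 3575, nat_lit 1824, nat_lit 0, nat_lit 0, nat_lit 0, nat_lit 153, nat_lit 0, nat_lit 0, nat_lit 0, nat_lit 0, nat_lit 0, nat_lit 192750, nat_lit 0, nat_lit 0, [(nat_lit 29, [(nat_lit 0, nat_lit 771)])],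
 ⟨p115_k7, nat_lit 0, nat_lit 0, nat_lit 80, nat_lit 0, nat_lit 0, [nat_lit 817415600, nat_lit 2134756401, nat_lit 2808564400], [], [nat_lit 27608809039, nat_lit 27885119226, nat_lit 28656371906, nat_lit 28919430076, nat_lit 28196478417, nat_lit 28458318291, nat_lit 29189028396, nat_lit 29473516783], nat_lit 0, nat_lit 0, nat_lit 0, nat_lit 0, nat_lit 0, nat_lit 0, [], [nat_lit 55, nat_lit 40, nat_lit 40, nat_lit 80, nat_lit 3, nat_lit 260, nat_lit 50, nat_lit 8]⟩, ⟨p115_k52, nat_lit 0, nat_lit 0, nat_lit 640, nat_lit 0, nat_lit 801579, [nat_lit 1073552000, nat_lit 2253818000, nat_lit 3219282000], [], [nat_lit 8383123115, nat_lit 8390466394, nat_lit 8564036835, nat_lit 8570389665, nat_lit 7419281800, nat_lit 7420804296, nat_lit 7560858717, nat_lit 7565643727], nat_lit 1271250, nat_lit 1271250, nat_lit 1271250, nat_lit 1271250, nat_lit 88400, nat_lit 2425250, [nat_lit 1100000, nat_lit 2127500, nat_lit 1271250], [nat_lit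 56, nat_lit 40, nat_lit 40, nat_lit 80, nat_lit 32, nat_lit 483, nat_lit 250, nat_lit 11]⟩,
 ⟨nat_lit 1581, nat_lit 1937, ⟨.ofNat (nat_lit 757408), .ofNat (nat_lit 790942), .ofNat (nat_lit 759709), .ofNat (nat_lit 793243), .ofNat (nat_lit 754834), .ofNat (nat_lit 787616), .ofNat (nat_lit 757166), .ofNat (nat_lit 789947)⟩, ⟨.ofNat (nat_lit 306044), .ofNat (nat_lit 356345), .ofNat (nat_lit 352066), .ofNat (nat_lit 402366), .ofNat (nat_lit 305473), .ofNat (nat_lit 354645), .ofNat (nat_lit 352103), .ofNat (nat_lit 401275)⟩⟩, [⟨nat_lit 13, nat_lit 41, nat_lit 76, nat_lit 100, nat_lit 356188802⟩, ⟨nat_lit 16, nat_lit 35, nat_lit 100, nat_lit 88, nat_lit 441334996⟩, ⟨nat_lit 19, nat_lit 100, nat_lit 87, nat_lit 94, nat_lit 30852229⟩]⟩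
noncomputable def p115_l122 : Lf2 := ⟨nat_lit 0, nat_lit 30, [nat_lit 15, nat_lit 5, nat_lit 5, nat_lit 20], false, nat_lit 160, nat_lit 184, nat_lit 16, nat_lit 352, ⟨nat_lit 152, nat_lit 848, nat_lit 0, nat_lit 8, nat_lit 297, nat_lit 848, nat_lit 138, nat_lit 0, nat_lit 0, nat_lit 0, nat_lit 0, nat_lit 0, nat_lit 38517316, nat_lit 22029363, nat_lit 6453321, nat_lit 4857843, true, true⟩,
 nat_lit 0, nat_lit 0, nat_lit 2393, nat_lit 0, nat_lit 3430, nat_lit 1392, nat_lit 0, nat_lit 0, nat_lit 0, nat_lit 98, nat_lit 0, nat_lit 0, nat_lit 0, nat_lit 0, nat_lit 0, nat_lit 212000, nat_lit 0, nat_lit 0, [(nat_lit 29, [(nat_lit 0, nat_lit 848)])],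
 ⟨p115_k24, nat_lit 0, nat_lit 0, nat_lit 78, nat_lit 0, nat_lit 0, [nat_lit 805372800, nat_lit 1879763200, nat_lit 2464867200], [], [nat_lit 27646808130, nat_lit 27918145905, nat_lit 27986067001, nat_lit 28264798003, nat_lit 28034691715, nat_lit 28296657969, nat_lit 28362278702, nat_lit 28657543103], nat_lit 0, nat_lit 0, nat_lit 0, nat_lit 0, nat_lit 0, nat_lit 0, [], [nat_lit 55, nat_lit 40, nat_lit 40, nat_lit 80, nat_lit 3, nat_lit 260, nat_lit 50, nat_lit 8]⟩, ⟨p115_k18, nat_lit 0, nat_lit 0, nat_lit 723, nat_lit 0, nat_lit 938438, [nat_lit 712576000, nat_lit 1495984000, nat_lit 2136816000], [], [nat_lit 5997391549, nat_lit 6004838616, nat_lit 6023533916, nat_lit 6030131568, nat_lit 5071893972, nat_lit 5085520112, nat_lit 5106823439, nat_lit 5121506350], nat_lit 1271250, nat_lit 1271250, nat_lit 1271250, nat_lit 1271250, nat_lit 88400, nat_lit 2511800, [nat_lit 1100000, nat_lit 2127500, nat_lit 1271250], [nat_lit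 56, nat_lit 40, nat_lit 40, nat_lit 80, nat_lit 32, nat_lit 483, nat_lit 250, nat_lit 11]⟩,
 ⟨nat_lit 1118, nat_lit 1582, ⟨.ofNat (nat_lit 733851), .ofNat (nat_lit 744778), .ofNat (nat_lit 745508), .ofNat (nat_lit 756436), .ofNat (nat_lit 730633), .ofNat (nat_lit 741258), .ofNat (nat_lit 742508), .ofNat (nat_lit 753133)⟩, ⟨.ofNat (nat_lit 305473), .ofNat (nat_lit 338254), .ofNat (nat_lit 352103), .ofNat (nat_lit 384884), .ofNat (nat_lit 304366), .ofNat (nat_lit 336242), .ofNat (nat_lit 351868), .ofNat (nat_lit 383744)⟩⟩, [⟨nat_lit 13, nat_lit 33, nat_lit 83, nat_lit 100, nat_lit 487361668⟩, ⟨nat_lit 16, nat_lit 31, nat_lit 100, nat_lit 92, nat_lit 491023080⟩, ⟨nat_lit 22, nat_lit 79, nat_lit 73, nat_lit 100, nat_lit 20618413⟩]⟩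
noncomputable def p115_l123 : Lf2 := ⟨nat_lit 0, nat_lit 30, [nat_lit 15, nat_lit 5, nat_lit 5, nat_lit 20], false, nat_lit 160, nat_lit 184, nat_lit 16, nat_lit 344, ⟨nat_lit 161, nat_lit 839, nat_lit 0, nat_lit 8, nat_lit 304, nat_lit 839, nat_lit 138, nat_lit 0, nat_lit 0, nat_lit 0, nat_lit 0, nat_lit 0, nat_lit 37957659, nat_lit 22653475, nat_lit 6388866, nat_lit 4874136, true, true⟩,
 nat_lit 0, nat_lit 0, nat_lit 2255, nat_lit 0, nat_lit 3420, nat_lit 1373, nat_lit 0, nat_lit 0, nat_lit 0, nat_lit 107, nat_lit 0, nat_lit 0, nat_lit 0, nat_lit 0, nat_lit 0, nat_lit 209750, nat_lit 0, nat_lit 0, [(nat_lit 29, [(nat_lit 0, nat_lit 839)])],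
 ⟨p115_k24, nat_lit 0, nat_lit 0, nat_lit 80, nat_lit 0, nat_lit 0, [nat_lit 806780401, nat_lit 1909567600, nat_lit 2505039600], [], [nat_lit 27677763020, nat_lit 27948757870, nat_lit 28355602980, nat_lit 28632221135, nat_lit 28066043217, nat_lit 28327685536, nat_lit 28722003325, nat_lit 29012079034], nat_lit 0, nat_lit 0, nat_lit 0, nat_lit 0, nat_lit 0, nat_lit 0, [], [nat_lit 55, nat_lit 40, nat_lit 40, nat_lit 80, nat_lit 3, nat_lit 260, nat_lit 50, nat_lit 8]⟩, ⟨p115_k26, nat_lit 0, nat_lit 0, nat_lit 713, nat_lit 0, nat_lit 932970, [nat_lit 754768000, nat_lit 1584562000, nat_lit 2263338000], [], [nat_lit 6139391267, nat_lit 6148717552, nat_lit 6192708474, nat_lit 6200338601, nat_lit 5256892140, nat_lit 5273637736, nat_lit 5329643794, nat_lit 5351464724], nat_lit 1271250, nat_lit 1271250, nat_lit 1271250, nat_lit 1271250, nat_lit 88400, nat_lit 2454100, [nat_lit 1100000, nat_lit 2127500, nat_lit 1271250], [nat_lit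 56, nat_lit 40, nat_lit 40, nat_lit 80, nat_lit 32, nat_lit 483, nat_lit 250, nat_lit 11]⟩,
 ⟨nat_lit 1118, nat_lit 1582, ⟨.ofNat (nat_lit 745508), .ofNat (nat_lit 767363), .ofNat (nat_lit 757166), .ofNat (nat_lit 779020), .ofNat (nat_lit 742508), .ofNat (nat_lit 763759), .ofNat (nat_lit 754383), .ofNat (nat_lit 775634)⟩, ⟨.ofNat (nat_lit 305473), .ofNat (nat_lit 338254), .ofNat (nat_lit 352103), .ofNat (nat_lit 384884), .ofNat (nat_lit 304366), .ofNat (nat_lit 336242), .ofNat (nat_lit 351868), .ofNat (nat_lit 383744)⟩⟩, [⟨nat_lit 13, nat_lit 34, nat_lit 81, nat_lit 100, nat_lit 443796557⟩, ⟨nat_lit 16, nat_lit 31, nat_lit 100, nat_lit 92, nat_lit 496108273⟩, ⟨nat_lit 22, nat_lit 78, nat_lit 75, nat_lit 100, nat_lit 23064327⟩]⟩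
noncomputable def b_V_900_600_20_56 : St := ⟨true, nat_lit 0, nat_lit 1, nat_lit 1, nat_lit 120, nat_lit 380, nat_lit 400, nat_lit 240, nat_lit 280, nat_lit 320, nat_lit 376, nat_lit 80, nat_lit 120, nat_lit 160, nat_lit 248, nat_lit 16, nat_lit 364, nat_lit 80, nat_lit 120, nat_lit 0, nat_lit 0, nat_lit 0, nat_lit 0⟩
theorem d_V_900_600_20_56 (h : EB TB.env) : Dead b_V_900_600_20_56 := chkB_sound0 h (T :=
(.trX (nat_lit 13) (nat_lit 48) (nat_lit 71) (nat_lit 100) (nat_lit 352) (.trX (nat_lit 16) (nat_lit 44) (nat_lit 100) (nat_lit 92) (nat_lit 208) (.spl (nat_lit 1) (nat_lit 260)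
(.trX (nat_lit 13) (nat_lit 46) (nat_lit 76) (nat_lit 100) (nat_lit 340) (.spl (nat_lit 0) (nat_lit 390)
(.spl (nat_lit 1) (nat_lit 250)
(.trX (nat_lit 13) (nat_lit 45) (nat_lit 79) (nat_lit 100) (nat_lit 332) (.leaf p115_l101))
(.trX (nat_lit 19) (nat_lit 100) (nat_lit 64) (nat_lit 95) (nat_lit 360) (.spl (nat_lit 3) (nat_lit 100)
(.trX (nat_lit 16) (nat_lit 44) (nat_lit 100) (nat_lit 87) (nat_lit 188) (.trX (nat_lit 19) (nat_lit 100) (nat_lit 72) (nat_lit 89) (nat_lit 344) (.leaf p115_l102)))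
(.spl (nat_lit 6) (nat_lit 100)
(.leaf p115_l103)
(.spl (nat_lit 0) (nat_lit 385)
(.leaf p115_l104)
(.trX (nat_lit 13) (nat_lit 40) (nat_lit 81) (nat_lit 100) (nat_lit 328) (.trX (nat_lit 16) (nat_lit 38) (nat_lit 100) (nat_lit 92) (nat_lit 196) (.leaf p115_l105))))))))
(.emL (nat_lit 13) (nat_lit 33) (nat_lit 85) (nat_lit 100))))
(.trX (nat_lit 19) (nat_lit 100) (nat_lit 69) (nat_lit 96) (nat_lit 352) (.spl (nat_lit 0) (nat_lit 390)
(.spl (nat_lit 0) (nat_lit 385)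
(.spl (nat_lit 5) (nat_lit 160)
(.leaf p115_l106)
(.spl (nat_lit 3) (nat_lit 100)
(.trX (nat_lit 16) (nat_lit 44) (nat_lit 100) (nat_lit 87) (nat_lit 188) (.trX (nat_lit 19) (nat_lit 100) (nat_lit 77) (nat_lit 91) (nat_lit 336) (.spl (nat_lit 1) (nat_lit 270)
(.trX (nat_lit 13) (nat_lit 47) (nat_lit 74) (nat_lit 100) (nat_lit 348) (.leaf p115_l107))
(.trX (nat_lit 19) (nat_lit 100) (nat_lit 82) (nat_lit 92) (nat_lit 328) (.leaf p115_l108)))))
(.spl (nat_lit 1) (nat_lit 270)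
(.trX (nat_lit 13) (nat_lit 47) (nat_lit 74) (nat_lit 100) (nat_lit 348) (.spl (nat_lit 6) (nat_lit 100)
(.leaf p115_l109)
(.leaf p115_l110)))
(.trX (nat_lit 19) (nat_lit 100) (nat_lit 74) (nat_lit 98) (nat_lit 344) (.spl (nat_lit 1) (nat_lit 275)
(.spl (nat_lit 1) (nat_lit 273)
(.trX (nat_lit 13) (nat_lit 47) (nat_lit 73) (nat_lit 100) (nat_lit 348) (.leaf p115_l111))
(.leaf p115_l112))
(.trX (nat_lit 19) (nat_lit 100) (nat_lit 77) (nat_lit 99) (nat_lit 340) (.spl (nat_lit 0) (nat_lit 383)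
(.leaf p115_l113)
(.trX (nat_lit 13) (nat_lit 44) (nat_lit 74) (nat_lit 100) (nat_lit 348) (.trX (nat_lit 16) (nat_lit 40) (nat_lit 100) (nat_lit 92) (nat_lit 204) (.leaf p115_l114))))))))))
(.trX (nat_lit 13) (nat_lit 41) (nat_lit 76) (nat_lit 100) (nat_lit 344) (.trX (nat_lit 16) (nat_lit 38) (nat_lit 100) (nat_lit 92) (nat_lit 196) (.spl (nat_lit 1) (nat_lit 270)
(.trX (nat_lit 13) (nat_lit 41) (nat_lit 78) (nat_lit 100) (nat_lit 336) (.spl (nat_lit 1) (nat_lit 265)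
(.trX (nat_lit 13) (nat_lit 40) (nat_lit 79) (nat_lit 100) (nat_lit 332) (.leaf p115_l115))
(.trX (nat_lit 19) (nat_lit 100) (nat_lit 71) (nat_lit 97) (nat_lit 348) (.spl (nat_lit 0) (nat_lit 388)
(.leaf p115_l116)
(.trX (nat_lit 13) (nat_lit 36) (nat_lit 81) (nat_lit 100) (nat_lit 332) (.trX (nat_lit 16) (nat_lit 34) (nat_lit 100) (nat_lit 92) (nat_lit 188) (.leaf p115_l117)))))))
(.trX (nat_lit 19) (nat_lit 100) (nat_lit 74) (nat_lit 98) (nat_lit 344) (.spl (nat_lit 1) (nat_lit 275)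
(.trX (nat_lit 13) (nat_lit 41) (nat_lit 77) (nat_lit 100) (nat_lit 340) (.spl (nat_lit 1) (nat_lit 273)
(.leaf p115_l118)
(.leaf p115_l119)))
(.trX (nat_lit 19) (nat_lit 100) (nat_lit 77) (nat_lit 99) (nat_lit 340) (.spl (nat_lit 1) (nat_lit 278)
(.leaf p115_l120)
(.leaf p115_l121)))))))))
(.trX (nat_lit 13) (nat_lit 34) (nat_lit 81) (nat_lit 100) (nat_lit 336) (.trX (nat_lit 16) (nat_lit 31) (nat_lit 100) (nat_lit 92) (nat_lit 184) (.spl (nat_lit 0) (nat_lit 395)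
(.spl (nat_lit 1) (nat_lit 270)
(.trX (nat_lit 13) (nat_lit 33) (nat_lit 83) (nat_lit 100) (nat_lit 328) (.leaf p115_l122))
(.trX (nat_lit 19) (nat_lit 100) (nat_lit 74) (nat_lit 98) (nat_lit 344) (.leaf p115_l123)))
(.emL (nat_lit 13) (nat_lit 24) (nat_lit 88) (nat_lit 100))))))))))) (by decide +kernel)
noncomputable def p115_l124 : Lf2 := ⟨nat_lit 0, nat_lit 30, [nat_lit 15, nat_lit 5, nat_lit 5, nat_lit 20], true, nat_lit 8, nat_lit 248, nat_lit 0, nat_lit 364, ⟨nat_lit 0, nat_lit 1000, nat_lit 0, nat_lit 6, nat_lit 213, nat_lit 1000, nat_lit 94, nat_lit 0, nat_lit 0, nat_lit 0, nat_lit 0, nat_lit 0, nat_lit 0, nat_lit 0, nat_lit 0, nat_lit 5000000, false, false⟩,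
 nat_lit 0, nat_lit 0, nat_lit 0, nat_lit 3318, nat_lit 3945, nat_lit 0, nat_lit 182, nat_lit 0, nat_lit 0, nat_lit 0, nat_lit 0, nat_lit 0, nat_lit 0, nat_lit 0, nat_lit 0, nat_lit 250000, nat_lit 0, nat_lit 0, [(nat_lit 26, [(nat_lit 0, nat_lit 1000)]), (nat_lit 29, [(nat_lit 0, nat_lit 1000)])],
 ⟨p115_k42, nat_lit 0, nat_lit 0, nat_lit 218, nat_lit 0, nat_lit 0, [nat_lit 781600001, nat_lit 1845600000, nat_lit 2928480000], [], [nat_lit 23736318294, nat_lit 26860978413, nat_lit 25882199283, nat_lit 28442227400, nat_lit 24216365786, nat_lit 26371103179, nat_lit 25609895261, nat_lit 27542760095], nat_lit 0, nat_lit 0, nat_lit 0, nat_lit 0, nat_lit 0, nat_lit 0, [], [nat_lit 81, nat_lit 40, nat_lit 40, nat_lit 80, nat_lit 13, nat_lit 345, nat_lit 125, nat_lit 10]⟩, C1.Rw.none,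
 ⟨nat_lit 0, nat_lit 3163, ⟨.ofNat (nat_lit 401957), .ofNat (nat_lit 605128), .ofNat (nat_lit 443658), .ofNat (nat_lit 646918), .ofNat (nat_lit 431745), .ofNat (nat_lit 599865), .ofNat (nat_lit 479136), .ofNat (nat_lit 647345)⟩, ⟨.ofNat (nat_lit 20000), .ofNat (nat_lit 440207), .ofNat (nat_lit 20000), .ofNat (nat_lit 484518), .ofNat (nat_lit 20000), .ofNat (nat_lit 409993), .ofNat (nat_lit 20000), .ofNat (nat_lit 459993)⟩⟩, [⟨nat_lit 4, nat_lit 100, nat_lit 44, nat_lit 87, nat_lit 100851400⟩]⟩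
noncomputable def p115_l125 : Lf2 := ⟨nat_lit 0, nat_lit 30, [nat_lit 15, nat_lit 5, nat_lit 5, nat_lit 20], false, nat_lit 8, nat_lit 248, nat_lit 0, nat_lit 160, ⟨nat_lit 1000, nat_lit 0, nat_lit 0, nat_lit 0, nat_lit 0, nat_lit 0, nat_lit 0, nat_lit 0, nat_lit 0, nat_lit 0, nat_lit 0, nat_lit 0, nat_lit 0, nat_lit 0, nat_lit 0, nat_lit 0, false, false⟩,
 nat_lit 0, nat_lit 0, nat_lit 0, nat_lit 4229, nat_lit 6205, nat_lit 6158, nat_lit 244, nat_lit 0, nat_lit 0, nat_lit 767, nat_lit 0, nat_lit 0, nat_lit 0, nat_lit 0, nat_lit 0, nat_lit 0, nat_lit 0, nat_lit 0, [],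
 ⟨p115_k42, nat_lit 0, nat_lit 0, nat_lit 214, nat_lit 0, nat_lit 0, [nat_lit 938000000, nat_lit 4688000000, nat_lit 9842000000], [], [nat_lit 33187399259, nat_lit 36463242600, nat_lit 39755246183, nat_lit 42055022052, nat_lit 30516104141, nat_lit 32549141387, nat_lit 34883269322, nat_lit 36591870749], nat_lit 0, nat_lit 0, nat_lit 0, nat_lit 0, nat_lit 0, nat_lit 0, [], [nat_lit 81, nat_lit 40, nat_lit 40, nat_lit 80, nat_lit 13, nat_lit 401, nat_lit 175, nat_lit 11]⟩, ⟨p115_k6, nat_lit 0, nat_lit 0, nat_lit 317, nat_lit 0, nat_lit 0, [nat_lit 4688000000, nat_lit 9842000000, nat_lit 16400000000], [], [nat_lit 32602865797, nat_lit 34028001573, nat_lit 38811953486, nat_lit 40067380404, nat_lit 27915240813, nat_lit 29063577528, nat_lit 34126383111, nat_lit 35169877165], nat_lit 0, nat_lit 0, nat_lit 0, nat_lit 0, nat_lit 0, nat_lit 0, [], [nat_lit 83, nat_lit 40, nat_lit 40, nat_lit 80, nat_lit 73, nat_lit 456, nat_lit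 225, nat_lit 9]⟩,
 zbF0, [⟨nat_lit 16, nat_lit 44, nat_lit 100, nat_lit 87, nat_lit 214102653⟩]⟩
noncomputable def p115_l126 : Lf2 := ⟨nat_lit 0, nat_lit 30, [nat_lit 15, nat_lit 5, nat_lit 5, nat_lit 20], false, nat_lit 8, nat_lit 248, nat_lit 160, nat_lit 364, ⟨nat_lit 1000, nat_lit 0, nat_lit 0, nat_lit 0, nat_lit 0, nat_lit 0, nat_lit 0, nat_lit 0, nat_lit 0, nat_lit 0, nat_lit 0, nat_lit 0, nat_lit 0, nat_lit 0, nat_lit 0, nat_lit 0, false, false⟩,
 nat_lit 0, nat_lit 0, nat_lit 0, nat_lit 3308, nat_lit 6205, nat_lit 6218, nat_lit 244, nat_lit 0, nat_lit 0, nat_lit 0, nat_lit 0, nat_lit 0, nat_lit 0, nat_lit 0, nat_lit 0, nat_lit 0, nat_lit 0, nat_lit 0, [],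
 ⟨p115_k42, nat_lit 0, nat_lit 0, nat_lit 214, nat_lit 0, nat_lit 0, [nat_lit 938000000, nat_lit 4688000000, nat_lit 9842000000], [], [nat_lit 33187399259, nat_lit 36463242600, nat_lit 39755246183, nat_lit 42055022052, nat_lit 30516104141, nat_lit 32549141387, nat_lit 34883269322, nat_lit 36591870749], nat_lit 0, nat_lit 0, nat_lit 0, nat_lit 0, nat_lit 0, nat_lit 0, [], [nat_lit 81, nat_lit 40, nat_lit 40, nat_lit 80, nat_lit 13, nat_lit 401, nat_lit 175, nat_lit 11]⟩, ⟨p115_k6, nat_lit 0, nat_lit 0, nat_lit 107, nat_lit 0, nat_lit 0, [nat_lit 4688000000, nat_lit 9842000000, nat_lit 16400000000], [], [nat_lit 14931532032, nat_lit 17632195160, nat_lit 25432854890, nat_lit 27313087786, nat_lit 26250773287, nat_lit 27965047422, nat_lit 33468177674, nat_lit 34468501984], nat_lit 0, nat_lit 0, nat_lit 0, nat_lit 0, nat_lit 0, nat_lit 0, [], [nat_lit 83, nat_lit 40, nat_lit 40, nat_lit 80, nat_lit 73, nat_lit 538, nat_lit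 300, nat_lit 11]⟩,
 zbF0, [⟨nat_lit 4, nat_lit 100, nat_lit 44, nat_lit 87, nat_lit 159229591⟩, ⟨nat_lit 19, nat_lit 100, nat_lit 59, nat_lit 94, nat_lit 459754611⟩]⟩
noncomputable def p115_l127 : Lf2 := ⟨nat_lit 0, nat_lit 30, [nat_lit 15, nat_lit 5, nat_lit 5, nat_lit 20], true, nat_lit 8, nat_lit 248, nat_lit 0, nat_lit 364, ⟨nat_lit 0, nat_lit 1000, nat_lit 0, nat_lit 6, nat_lit 213, nat_lit 1000, nat_lit 94, nat_lit 0, nat_lit 0, nat_lit 0, nat_lit 0, nat_lit 0, nat_lit 0, nat_lit 0, nat_lit 0, nat_lit 5000000, false, false⟩,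
 nat_lit 0, nat_lit 0, nat_lit 0, nat_lit 2618, nat_lit 4397, nat_lit 0, nat_lit 0, nat_lit 0, nat_lit 0, nat_lit 0, nat_lit 0, nat_lit 0, nat_lit 0, nat_lit 0, nat_lit 0, nat_lit 400000, nat_lit 0, nat_lit 0, [(nat_lit 26, [(nat_lit 1, nat_lit 1000)]), (nat_lit 29, [(nat_lit 1, nat_lit 1000)])],
 ⟨p115_k53, nat_lit 0, nat_lit 0, nat_lit 264, nat_lit 0, nat_lit 0, [nat_lit 1155600000, nat_lit 754457143], [], [nat_lit 26087536733, nat_lit 28370036741, nat_lit 27312278611, nat_lit 29483463583, nat_lit 25294757226, nat_lit 27010039044, nat_lit 26044400761, nat_lit 27976336566], nat_lit 0, nat_lit 0, nat_lit 0, nat_lit 0, nat_lit 0, nat_lit 0, [], [nat_lit 132, nat_lit 40, nat_lit 40, nat_lit 80, nat_lit 133, nat_lit 345, nat_lit 125, nat_lit 10]⟩, C1.Rw.none,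
 ⟨nat_lit 0, nat_lit 3163, ⟨.ofNat (nat_lit 401957), .ofNat (nat_lit 605128), .ofNat (nat_lit 443658), .ofNat (nat_lit 646918), .ofNat (nat_lit 431745), .ofNat (nat_lit 599865), .ofNat (nat_lit 479136), .ofNat (nat_lit 647345)⟩, ⟨.ofNat (nat_lit 20000), .ofNat (nat_lit 440207), .ofNat (nat_lit 20000), .ofNat (nat_lit 484518), .ofNat (nat_lit 20000), .ofNat (nat_lit 409993), .ofNat (nat_lit 20000), .ofNat (nat_lit 459993)⟩⟩, [⟨nat_lit 4, nat_lit 100, nat_lit 44, nat_lit 87, nat_lit 64691055⟩]⟩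
noncomputable def p115_l128 : Lf2 := ⟨nat_lit 0, nat_lit 30, [nat_lit 15, nat_lit 5, nat_lit 5, nat_lit 20], true, nat_lit 8, nat_lit 160, nat_lit 0, nat_lit 364, ⟨nat_lit 0, nat_lit 1000, nat_lit 0, nat_lit 6, nat_lit 288, nat_lit 1000, nat_lit 69, nat_lit 0, nat_lit 0, nat_lit 0, nat_lit 0, nat_lit 0, nat_lit 0, nat_lit 0, nat_lit 0, nat_lit 5000000, true, true⟩,
 nat_lit 0, nat_lit 0, nat_lit 0, nat_lit 7190, nat_lit 2896, nat_lit 0, nat_lit 47, nat_lit 0, nat_lit 0, nat_lit 0, nat_lit 0, nat_lit 0, nat_lit 0, nat_lit 0, nat_lit 0, nat_lit 394600, nat_lit 0, nat_lit 0, [(nat_lit 26, [(nat_lit 0, nat_lit 36), (nat_lit 1, nat_lit 964)]), (nat_lit 29, [(nat_lit 0, nat_lit 36), (nat_lit 1, nat_lit 964)])],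
 ⟨p115_k42, nat_lit 0, nat_lit 0, nat_lit 214, nat_lit 0, nat_lit 0, [nat_lit 964374400, nat_lit 1015403200, nat_lit 823470400], [], [nat_lit 25837446781, nat_lit 27697731178, nat_lit 30307773296, nat_lit 31996238546, nat_lit 25678958144, nat_lit 27302788320, nat_lit 29525654503, nat_lit 30927747060], nat_lit 0, nat_lit 0, nat_lit 0, nat_lit 0, nat_lit 0, nat_lit 0, [], [nat_lit 81, nat_lit 40, nat_lit 40, nat_lit 80, nat_lit 13, nat_lit 373, nat_lit 150, nat_lit 10]⟩, C1.Rw.none,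
 ⟨nat_lit 0, nat_lit 3163, ⟨.ofNat (nat_lit 605128), .ofNat (nat_lit 812499), .ofNat (nat_lit 646918), .ofNat (nat_lit 856810), .ofNat (nat_lit 599865), .ofNat (nat_lit 769995), .ofNat (nat_lit 647345), .ofNat (nat_lit 819996)⟩, ⟨.ofNat (nat_lit 20000), .ofNat (nat_lit 306113), .ofNat (nat_lit 20000), .ofNat (nat_lit 350425), .ofNat (nat_lit 20000), .ofNat (nat_lit 299996), .ofNat (nat_lit 20000), .ofNat (nat_lit 349998)⟩⟩, [⟨nat_lit 13, nat_lit 46, nat_lit 76, nat_lit 100, nat_lit 290571965⟩, ⟨nat_lit 13, nat_lit 65, nat_lit 54, nat_lit 100, nat_lit 126606896⟩]⟩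
noncomputable def p115_l129 : Lf2 := ⟨nat_lit 0, nat_lit 30, [nat_lit 15, nat_lit 5, nat_lit 5, nat_lit 20], true, nat_lit 160, nat_lit 248, nat_lit 0, nat_lit 364, ⟨nat_lit 0, nat_lit 1000, nat_lit 0, nat_lit 6, nat_lit 272, nat_lit 1000, nat_lit 155, nat_lit 0, nat_lit 0, nat_lit 0, nat_lit 0, nat_lit 0, nat_lit 0, nat_lit 0, nat_lit 0, nat_lit 5000000, true, true⟩,
 nat_lit 0, nat_lit 0, nat_lit 0, nat_lit 7411, nat_lit 3313, nat_lit 0, nat_lit 0, nat_lit 0, nat_lit 0, nat_lit 0, nat_lit 0, nat_lit 0, nat_lit 0, nat_lit 0, nat_lit 0, nat_lit 250000, nat_lit 0, nat_lit 0, [(nat_lit 26, [(nat_lit 0, nat_lit 1000)]), (nat_lit 29, [(nat_lit 0, nat_lit 1000)])],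
 ⟨p115_k42, nat_lit 0, nat_lit 0, nat_lit 78, nat_lit 0, nat_lit 0, [nat_lit 781600001, nat_lit 1845600000, nat_lit 2928480000], [], [nat_lit 22894906256, nat_lit 25411001300, nat_lit 26022152348, nat_lit 28160756768, nat_lit 25050040002, nat_lit 27232921227, nat_lit 27742912785, nat_lit 29611208263], nat_lit 0, nat_lit 0, nat_lit 0, nat_lit 0, nat_lit 0, nat_lit 0, [], [nat_lit 81, nat_lit 40, nat_lit 40, nat_lit 80, nat_lit 13, nat_lit 373, nat_lit 150, nat_lit 9]⟩, C1.Rw.none,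
 ⟨nat_lit 0, nat_lit 3163, ⟨.ofNat (nat_lit 605128), .ofNat (nat_lit 727166), .ofNat (nat_lit 646918), .ofNat (nat_lit 771478), .ofNat (nat_lit 599865), .ofNat (nat_lit 699997), .ofNat (nat_lit 647345), .ofNat (nat_lit 749999)⟩, ⟨.ofNat (nat_lit 306113), .ofNat (nat_lit 440207), .ofNat (nat_lit 350425), .ofNat (nat_lit 484518), .ofNat (nat_lit 299996), .ofNat (nat_lit 409993), .ofNat (nat_lit 349998), .ofNat (nat_lit 459993)⟩⟩, [⟨nat_lit 16, nat_lit 62, nat_lit 100, nat_lit 94, nat_lit 221453348⟩, ⟨nat_lit 4, nat_lit 100, nat_lit 44, nat_lit 87, nat_lit 167384067⟩]⟩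
noncomputable def p115_l130 : Lf2 := ⟨nat_lit 0, nat_lit 30, [nat_lit 15, nat_lit 5, nat_lit 5, nat_lit 20], true, nat_lit 160, nat_lit 248, nat_lit 16, nat_lit 364, ⟨nat_lit 0, nat_lit 1000, nat_lit 0, nat_lit 8, nat_lit 310, nat_lit 1000, nat_lit 155, nat_lit 0, nat_lit 0, nat_lit 0, nat_lit 0, nat_lit 0, nat_lit 0, nat_lit 0, nat_lit 0, nat_lit 5000000, true, true⟩,
 nat_lit 0, nat_lit 0, nat_lit 0, nat_lit 9680, nat_lit 3701, nat_lit 0, nat_lit 0, nat_lit 0, nat_lit 0, nat_lit 0, nat_lit 0, nat_lit 0, nat_lit 0, nat_lit 0, nat_lit 0, nat_lit 385600, nat_lit 0, nat_lit 0, [(nat_lit 26, [(nat_lit 0, nat_lit 96), (nat_lit 1, nat_lit 904)]), (nat_lit 29, [(nat_lit 0, nat_lit 96), (nat_lit 1, nat_lit 904)])],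
 ⟨p115_k53, nat_lit 0, nat_lit 0, nat_lit 137, nat_lit 0, nat_lit 0, [nat_lit 1119696001, nat_lit 943254400], [], [nat_lit 27524206452, nat_lit 29364895224, nat_lit 29741609422, nat_lit 31357721468, nat_lit 28792108663, nat_lit 30402238474, nat_lit 30726940311, nat_lit 32444191977], nat_lit 0, nat_lit 0, nat_lit 0, nat_lit 0, nat_lit 0, nat_lit 0, [], [nat_lit 132, nat_lit 40, nat_lit 40, nat_lit 80, nat_lit 133, nat_lit 289, nat_lit 75, nat_lit 7]⟩, C1.Rw.none,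
 ⟨nat_lit 0, nat_lit 3163, ⟨.ofNat (nat_lit 727166), .ofNat (nat_lit 812499), .ofNat (nat_lit 771478), .ofNat (nat_lit 856810), .ofNat (nat_lit 699997), .ofNat (nat_lit 769995), .ofNat (nat_lit 749999), .ofNat (nat_lit 819996)⟩, ⟨.ofNat (nat_lit 306113), .ofNat (nat_lit 440207), .ofNat (nat_lit 350425), .ofNat (nat_lit 484518), .ofNat (nat_lit 299996), .ofNat (nat_lit 409993), .ofNat (nat_lit 349998), .ofNat (nat_lit 459993)⟩⟩, [⟨nat_lit 13, nat_lit 65, nat_lit 54, nat_lit 100, nat_lit 449715070⟩, ⟨nat_lit 16, nat_lit 62, nat_lit 100, nat_lit 94, nat_lit 259692172⟩]⟩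
noncomputable def b_V_900_600_20_57 : St := ⟨true, nat_lit 0, nat_lit 2, nat_lit 2, nat_lit 120, nat_lit 360, nat_lit 400, nat_lit 240, nat_lit 280, nat_lit 112, nat_lit 376, nat_lit 80, nat_lit 120, nat_lit 8, nat_lit 248, nat_lit 0, nat_lit 364, nat_lit 80, nat_lit 120, nat_lit 0, nat_lit 0, nat_lit 0, nat_lit 0⟩
theorem d_V_900_600_20_57 (h : EB TB.env) : Dead b_V_900_600_20_57 := chkB_sound0 h (T :=
(.st (nat_lit 1)
(.spl (nat_lit 2) (nat_lit 240)
(.leaf p115_l124)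
(.spl (nat_lit 5) (nat_lit 160)
(.leaf p115_l125)
(.leaf p115_l126)))
(.spl (nat_lit 2) (nat_lit 240)
(.leaf p115_l127)
(.spl (nat_lit 4) (nat_lit 160)
(.leaf p115_l128)
(.spl (nat_lit 2) (nat_lit 320)
(.leaf p115_l129)
(.trZ (nat_lit 9) (nat_lit 100) (nat_lit 82) (nat_lit 44) (nat_lit 16) (.leaf p115_l130))))))) (by decide +kernel)
noncomputable def p115_l131 : Lf2 := ⟨nat_lit 0, nat_lit 25, [nat_lit 44, nat_lit 5, nat_lit 5, nat_lit 20], false, nat_lit 8, nat_lit 80, nat_lit 0, nat_lit 352, ⟨nat_lit 145, nat_lit 0, nat_lit 855, nat_lit 6, nat_lit 208, nat_lit 855, nat_lit 43, nat_lit 855, nat_lit 17067, nat_lit 247, nat_lit 2400, nat_lit 203, nat_lit 51547894, nat_lit 0, nat_lit 0, nat_lit 3124247, false, false⟩,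
 nat_lit 0, nat_lit 2978, nat_lit 0, nat_lit 1186, nat_lit 2593, nat_lit 1823, nat_lit 49, nat_lit 0, nat_lit 0, nat_lit 111, nat_lit 0, nat_lit 0, nat_lit 0, nat_lit 0, nat_lit 44, nat_lit 213750, nat_lit 0, nat_lit 0, [(nat_lit 26, [(nat_lit 4, nat_lit 855)])],
 ⟨p115_k36, nat_lit 0, nat_lit 0, nat_lit 265, nat_lit 0, nat_lit 190538, [nat_lit 975148000, nat_lit 503794001, nat_lit 11958000], [], [nat_lit 19661415580, nat_lit 20185666557, nat_lit 22351741321, nat_lit 22884999874, nat_lit 19259718879, nat_lit 19785787871, nat_lit 21890558691, nat_lit 22391489430], nat_lit 1271250, nat_lit 1271250, nat_lit 719601, nat_lit 1758000, nat_lit 43600, nat_lit 490000, [nat_lit 230000, nat_lit 1100000, nat_lit 1785000], [nat_lit 57, nat_lit 40, nat_lit 40, nat_lit 80, nat_lit 7, nat_lit 317, nat_lit 100, nat_lit 10]⟩, ⟨p115_k4, nat_lit 0, nat_lit 0, nat_lit 282, nat_lit 0, nat_lit 0, [nat_lit 679760000, nat_lit 1427090000,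 nat_lit 2038410000], [], [nat_lit 4893460544, nat_lit 5131769694, nat_lit 5042323488, nat_lit 5215726684, nat_lit 4580414009, nat_lit 4668734297, nat_lit 4259086096, nat_lit 4322872816], nat_lit 0, nat_lit 0, nat_lit 0, nat_lit 0, nat_lit 0, nat_lit 0, [], [nat_lit 56, nat_lit 40, nat_lit 40, nat_lit 80, nat_lit 32, nat_lit 456, nat_lit 225, nat_lit 11]⟩,
 ⟨nat_lit 2738, nat_lit 3163, ⟨.ofNat (nat_lit 410148), .ofNat (nat_lit 605257), .ofNat (nat_lit 432290), .ofNat (nat_lit 627400), .ofNat (nat_lit 414835), .ofNat (nat_lit 603890), .ofNat (nat_lit 437240), .ofNat (nat_lit 626295)⟩, ⟨.ofNat (nat_lit 20000), .ofNat (nat_lit 184209), .ofNat (nat_lit 20000), .ofNat (nat_lit 200000), .ofNat (nat_lit 20000), .ofNat (nat_lit 188310), .ofNat (nat_lit 20000), .ofNat (nat_lit 200000)⟩⟩, [⟨nat_lit 3, nat_lit 100, nat_lit 68, nat_lit 45, nat_lit 56970400⟩, ⟨nat_lit 3, nat_lit 100, nat_lit 61, nat_lit 55, nat_lit 72868956⟩,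 ⟨nat_lit 22, nat_lit 100, nat_lit 70, nat_lit 63, nat_lit 24253059⟩]⟩
noncomputable def p115_l132 : Lf2 := ⟨nat_lit 0, nat_lit 26, [nat_lit 108, nat_lit 5, nat_lit 5, nat_lit 20], false, nat_lit 16, nat_lit 80, nat_lit 0, nat_lit 364, ⟨nat_lit 141, nat_lit 0, nat_lit 859, nat_lit 6, nat_lit 208, nat_lit 859, nat_lit 48, nat_lit 859, nat_lit 21600, nat_lit 251, nat_lit 2400, nat_lit 203, nat_lit 51316207, nat_lit 0, nat_lit 0, nat_lit 3202290, false, false⟩,
 nat_lit 0, nat_lit 3040, nat_lit 0, nat_lit 3553, nat_lit 2647, nat_lit 1704, nat_lit 20, nat_lit 0, nat_lit 0, nat_lit 103, nat_lit 0, nat_lit 0, nat_lit 0, nat_lit 0, nat_lit 46, nat_lit 214750, nat_lit 0, nat_lit 0, [(nat_lit 26, [(nat_lit 4, nat_lit 859)])],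
 ⟨p115_k38, nat_lit 0, nat_lit 0, nat_lit 193, nat_lit 0, nat_lit 95408, [nat_lit 982498400, nat_lit 512925201, nat_lit 17796400], [], [nat_lit 19506952939, nat_lit 20157158562, nat_lit 22293883181, nat_lit 22835317404, nat_lit 19035227293, nat_lit 19641847333, nat_lit 21772257504, nat_lit 22289463609], nat_lit 1271250, nat_lit 1271250, nat_lit 719601, nat_lit 1758000, nat_lit 88400, nat_lit 490000, [nat_lit 230000, nat_lit 1100000, nat_lit 1785000], [nat_lit 57, nat_lit 40, nat_lit 40, nat_lit 80, nat_lit 7, nat_lit 317, nat_lit 100, nat_lit 10]⟩, ⟨p115_k39, nat_lit 0, nat_lit 0, nat_lit 282, nat_lit 0, nat_lit 0, [nat_lit 661008000, nat_lit 1387722000, nat_lit 1982178000], [], [nat_lit 4763375269, nat_lit 4989475135, nat_lit 4919842640, nat_lit 5084967554, nat_lit 4660336107, nat_lit 4738103795, nat_lit 4341429358, nat_lit 4388791177], nat_lit 0, nat_lit 0, nat_lit 0, nat_lit 0, nat_lit 0, nat_lit 0, [], [nat_lit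 56, nat_lit 40, nat_lit 40, nat_lit 80, nat_lit 32, nat_lit 456, nat_lit 225, nat_lit 11]⟩,
 ⟨nat_lit 2738, nat_lit 3163, ⟨.ofNat (nat_lit 410148), .ofNat (nat_lit 605257), .ofNat (nat_lit 432290), .ofNat (nat_lit 627400), .ofNat (nat_lit 414835), .ofNat (nat_lit 603890), .ofNat (nat_lit 437240), .ofNat (nat_lit 626295)⟩, ⟨.ofNat (nat_lit 40000), .ofNat (nat_lit 200000), .ofNat (nat_lit 40000), .ofNat (nat_lit 200000), .ofNat (nat_lit 40000), .ofNat (nat_lit 200000), .ofNat (nat_lit 40000), .ofNat (nat_lit 200000)⟩⟩, [⟨nat_lit 3, nat_lit 100, nat_lit 57, nat_lit 62, nat_lit 194129860⟩, ⟨nat_lit 22, nat_lit 100, nat_lit 68, nat_lit 65, nat_lit 27881676⟩]⟩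
noncomputable def p115_l133 : Lf2 := ⟨nat_lit 1, nat_lit 30, [nat_lit 15, nat_lit 5, nat_lit 5, nat_lit 20], false, nat_lit 16, nat_lit 80, nat_lit 0, nat_lit 364, zbN0,
 nat_lit 0, nat_lit 0, nat_lit 0, nat_lit 0, nat_lit 0, nat_lit 0, nat_lit 0, nat_lit 0, nat_lit 0, nat_lit 0, nat_lit 0, nat_lit 0, nat_lit 0, nat_lit 0, nat_lit 0, nat_lit 0, nat_lit 0, nat_lit 0, [],
 C1.Rw.none, C1.Rw.none,
 zbF0, []⟩
noncomputable def p115_l134 : Lf2 := ⟨nat_lit 0, nat_lit 30, [nat_lit 15, nat_lit 5, nat_lit 5, nat_lit 20], false, nat_lit 12, nat_lit 80, nat_lit 0, nat_lit 364, ⟨nat_lit 156, nat_lit 0, nat_lit 844, nat_lit 6, nat_lit 211, nat_lit 844, nat_lit 45, nat_lit 844, nat_lit 19267, nat_lit 249, nat_lit 1983, nat_lit 207, nat_lit 51116951, nat_lit 0, nat_lit 0, nat_lit 3190531, false, false⟩,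
 nat_lit 0, nat_lit 3039, nat_lit 0, nat_lit 1587, nat_lit 2742, nat_lit 1913, nat_lit 0, nat_lit 0, nat_lit 0, nat_lit 124, nat_lit 0, nat_lit 0, nat_lit 0, nat_lit 0, nat_lit 39, nat_lit 211000, nat_lit 0, nat_lit 0, [(nat_lit 26, [(nat_lit 4, nat_lit 844)])],
 ⟨p115_k41, nat_lit 0, nat_lit 0, nat_lit 279, nat_lit 0, nat_lit 245448, [nat_lit 956934400, nat_lit 486683201, nat_lit 7902400], [], [nat_lit 20851498932, nat_lit 21507448636, nat_lit 23336109132, nat_lit 23874355354, nat_lit 20364787975, nat_lit 20957009713, nat_lit 22789408170, nat_lit 23301472636], nat_lit 1271250, nat_lit 1271250, nat_lit 841600, nat_lit 1767000, nat_lit 65850, nat_lit 490000, [nat_lit 230000, nat_lit 1100000, nat_lit 1785000], [nat_lit 57, nat_lit 40, nat_lit 40, nat_lit 80, nat_lit 7, nat_lit 317, nat_lit 100, nat_lit 10]⟩, ⟨p115_k6, nat_lit 0, nat_lit 0, nat_lit 423, nat_lit 0, nat_lit 0, [nat_lit 731328000, nat_lit 1535352000, nat_lit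 2558400000], [], [nat_lit 5879439624, nat_lit 5974179952, nat_lit 5906674384, nat_lit 5976509484, nat_lit 5138502607, nat_lit 5166576484, nat_lit 4781127490, nat_lit 4796111523], nat_lit 0, nat_lit 0, nat_lit 0, nat_lit 0, nat_lit 0, nat_lit 0, [], [nat_lit 83, nat_lit 40, nat_lit 40, nat_lit 80, nat_lit 73, nat_lit 456, nat_lit 225, nat_lit 10]⟩,
 ⟨nat_lit 2236, nat_lit 2739, ⟨.ofNat (nat_lit 438420), .ofNat (nat_lit 603890), .ofNat (nat_lit 449619), .ofNat (nat_lit 615088), .ofNat (nat_lit 442816), .ofNat (nat_lit 602558), .ofNat (nat_lit 454194), .ofNat (nat_lit 613935)⟩, ⟨.ofNat (nat_lit 30000), .ofNat (nat_lit 188310), .ofNat (nat_lit 30000), .ofNat (nat_lit 200000), .ofNat (nat_lit 30000), .ofNat (nat_lit 192306), .ofNat (nat_lit 30000), .ofNat (nat_lit 200000)⟩⟩, [⟨nat_lit 3, nat_lit 100, nat_lit 48, nat_lit 71, nat_lit 221076917⟩, ⟨nat_lit 22, nat_lit 100, nat_lit 72, nat_lit 64, nat_lit 22305471⟩]⟩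
noncomputable def p115_l135 : Lf2 := ⟨nat_lit 0, nat_lit 30, [nat_lit 15, nat_lit 5, nat_lit 5, nat_lit 20], false, nat_lit 12, nat_lit 80, nat_lit 0, nat_lit 360, ⟨nat_lit 163, nat_lit 0, nat_lit 837, nat_lit 6, nat_lit 219, nat_lit 837, nat_lit 45, nat_lit 837, nat_lit 19267, nat_lit 249, nat_lit 6376, nat_lit 204, nat_lit 50282257, nat_lit 0, nat_lit 0, nat_lit 3266704, false, false⟩,
 nat_lit 0, nat_lit 3075, nat_lit 0, nat_lit 231, nat_lit 2775, nat_lit 3283, nat_lit 0, nat_lit 0, nat_lit 0, nat_lit 0, nat_lit 0, nat_lit 0, nat_lit 0, nat_lit 0, nat_lit 36, nat_lit 209250, nat_lit 0, nat_lit 0, [(nat_lit 26, [(nat_lit 4, nat_lit 837)])],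
 ⟨p115_k41, nat_lit 0, nat_lit 0, nat_lit 284, nat_lit 0, nat_lit 273705, [nat_lit 946071200, nat_lit 478703601, nat_lit 9685200], [], [nat_lit 21074809055, nat_lit 21761000868, nat_lit 23370148722, nat_lit 23937473518, nat_lit 20574306276, nat_lit 21156173525, nat_lit 22804448625, nat_lit 23318978950], nat_lit 1271250, nat_lit 1271250, nat_lit 936251, nat_lit 1773750, nat_lit 65850, nat_lit 490000, [nat_lit 230000, nat_lit 1100000, nat_lit 1785000], [nat_lit 57, nat_lit 40, nat_lit 40, nat_lit 80, nat_lit 7, nat_lit 317, nat_lit 100, nat_lit 10]⟩, ⟨p115_k8, nat_lit 0, nat_lit 0, nat_lit 268, nat_lit 0, nat_lit 0, [nat_lit 764144000, nat_lit 1604246000, nat_lit 2291454000], [], [nat_lit 7766127132, nat_lit 7941178234, nat_lit 7937286188, nat_lit 8066124880, nat_lit 6351547392, nat_lit 6398395716, nat_lit 5817850293, nat_lit 5841493793], nat_lit 0, nat_lit 0, nat_lit 0, nat_lit 0, nat_lit 0, nat_lit 0, [], [nat_lit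 56, nat_lit 40, nat_lit 40, nat_lit 80, nat_lit 32, nat_lit 456, nat_lit 225, nat_lit 11]⟩,
 ⟨nat_lit 2236, nat_lit 2739, ⟨.ofNat (nat_lit 467348), .ofNat (nat_lit 615088), .ofNat (nat_lit 478547), .ofNat (nat_lit 626287), .ofNat (nat_lit 471309), .ofNat (nat_lit 613935), .ofNat (nat_lit 482686), .ofNat (nat_lit 625312)⟩, ⟨.ofNat (nat_lit 30000), .ofNat (nat_lit 188310), .ofNat (nat_lit 30000), .ofNat (nat_lit 200000), .ofNat (nat_lit 30000), .ofNat (nat_lit 192306), .ofNat (nat_lit 30000), .ofNat (nat_lit 200000)⟩⟩, [⟨nat_lit 3, nat_lit 100, nat_lit 56, nat_lit 60, nat_lit 210557368⟩, ⟨nat_lit 22, nat_lit 100, nat_lit 74, nat_lit 64, nat_lit 1288100⟩]⟩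
noncomputable def p115_l136 : Lf2 := ⟨nat_lit 0, nat_lit 30, [nat_lit 15, nat_lit 5, nat_lit 5, nat_lit 20], false, nat_lit 80, nat_lit 160, nat_lit 0, nat_lit 364, ⟨nat_lit 123, nat_lit 0, nat_lit 877, nat_lit 6, nat_lit 208, nat_lit 877, nat_lit 104, nat_lit 877, nat_lit 101400, nat_lit 293, nat_lit 2400, nat_lit 203, nat_lit 48295200, nat_lit 0, nat_lit 0, nat_lit 3988121, false, false⟩,
 nat_lit 0, nat_lit 3286, nat_lit 0, nat_lit 2422, nat_lit 2861, nat_lit 1480, nat_lit 110, nat_lit 0, nat_lit 0, nat_lit 96, nat_lit 0, nat_lit 0, nat_lit 0, nat_lit 0, nat_lit 54, nat_lit 219250, nat_lit 0, nat_lit 0, [(nat_lit 26, [(nat_lit 4, nat_lit 877)])],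
 ⟨p115_k42, nat_lit 0, nat_lit 0, nat_lit 207, nat_lit 0, nat_lit 199362, [nat_lit 1011575200, nat_lit 538015601, nat_lit 672841600], [], [nat_lit 18978002378, nat_lit 19614046909, nat_lit 21399680776, nat_lit 21929484971, nat_lit 19714178684, nat_lit 20268749601, nat_lit 21980472168, nat_lit 22445919708], nat_lit 1271250, nat_lit 1271250, nat_lit 719601, nat_lit 1758000, nat_lit 490000, nat_lit 1100001, [nat_lit 230000, nat_lit 1100000, nat_lit 2127500], [nat_lit 81, nat_lit 40, nat_lit 40, nat_lit 80, nat_lit 13, nat_lit 317, nat_lit 100, nat_lit 9]⟩, ⟨p115_k6, nat_lit 0, nat_lit 0, nat_lit 432, nat_lit 0, nat_lit 0, [nat_lit 576624000, nat_lit 1210566000, nat_lit 2017200000], [], [nat_lit 4719232204, nat_lit 4870785659, nat_lit 4660865156, nat_lit 4770141742, nat_lit 4178046323, nat_lit 4224435983, nat_lit 3807140743, nat_lit 3831300716], nat_lit 0, nat_lit 0, nat_lit 0, nat_lit 0, nat_lit 0, nat_lit 0, [], [nat_lit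 83, nat_lit 40, nat_lit 40, nat_lit 80, nat_lit 73, nat_lit 456, nat_lit 225, nat_lit 10]⟩,
 ⟨nat_lit 2738, nat_lit 3163, ⟨.ofNat (nat_lit 410148), .ofNat (nat_lit 605257), .ofNat (nat_lit 432290), .ofNat (nat_lit 627400), .ofNat (nat_lit 414835), .ofNat (nat_lit 603890), .ofNat (nat_lit 437240), .ofNat (nat_lit 626295)⟩, ⟨.ofNat (nat_lit 184209), .ofNat (nat_lit 306116), .ofNat (nat_lit 200000), .ofNat (nat_lit 350426), .ofNat (nat_lit 188310), .ofNat (nat_lit 306433), .ofNat (nat_lit 200000), .ofNat (nat_lit 351268)⟩⟩, [⟨nat_lit 7, nat_lit 72, nat_lit 100, nat_lit 89, nat_lit 12472002⟩]⟩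
noncomputable def p115_l137 : Lf2 := ⟨nat_lit 0, nat_lit 30, [nat_lit 15, nat_lit 5, nat_lit 5, nat_lit 20], false, nat_lit 80, nat_lit 160, nat_lit 0, nat_lit 364, ⟨nat_lit 157, nat_lit 0, nat_lit 843, nat_lit 6, nat_lit 213, nat_lit 843, nat_lit 105, nat_lit 843, nat_lit 104017, nat_lit 294, nat_lit 6376, nat_lit 204, nat_lit 47756428, nat_lit 0, nat_lit 0, nat_lit 4041188, false, false⟩,
 nat_lit 0, nat_lit 3350, nat_lit 0, nat_lit 79, nat_lit 3023, nat_lit 1900, nat_lit 1, nat_lit 0, nat_lit 0, nat_lit 123, nat_lit 0, nat_lit 0, nat_lit 0, nat_lit 0, nat_lit 39, nat_lit 210750, nat_lit 0, nat_lit 0, [(nat_lit 26, [(nat_lit 4, nat_lit 843)])],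
 ⟨p115_k41, nat_lit 0, nat_lit 0, nat_lit 226, nat_lit 0, nat_lit 273705, [nat_lit 957096800, nat_lit 492400401, nat_lit 18442800], [], [nat_lit 19774327217, nat_lit 20467358641, nat_lit 22186586923, nat_lit 22770681074, nat_lit 20522221786, nat_lit 21113167373, nat_lit 22746759013, nat_lit 23253877670], nat_lit 1271250, nat_lit 1271250, nat_lit 841600, nat_lit 1767000, nat_lit 490000, nat_lit 1100001, [nat_lit 230000, nat_lit 1100000, nat_lit 1785000], [nat_lit 57, nat_lit 40, nat_lit 40, nat_lit 80, nat_lit 7, nat_lit 317, nat_lit 100, nat_lit 10]⟩, ⟨p115_k6, nat_lit 0, nat_lit 0, nat_lit 423, nat_lit 0, nat_lit 0, [nat_lit 736016000, nat_lit 1545194000, nat_lit 2574800000], [], [nat_lit 5918991884, nat_lit 6108362600, nat_lit 5951536349, nat_lit 6091345603, nat_lit 5199334056, nat_lit 5256026758, nat_lit 4848852314, nat_lit 4883985862], nat_lit 0, nat_lit 0, nat_lit 0, nat_lit 0, nat_lit 0, nat_lit 0, [], [nat_lit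 83, nat_lit 40, nat_lit 40, nat_lit 80, nat_lit 73, nat_lit 456, nat_lit 225, nat_lit 10]⟩,
 ⟨nat_lit 2236, nat_lit 2739, ⟨.ofNat (nat_lit 438420), .ofNat (nat_lit 603890), .ofNat (nat_lit 460818), .ofNat (nat_lit 626287), .ofNat (nat_lit 442816), .ofNat (nat_lit 602558), .ofNat (nat_lit 465571), .ofNat (nat_lit 625312)⟩, ⟨.ofNat (nat_lit 188310), .ofNat (nat_lit 306433), .ofNat (nat_lit 200000), .ofNat (nat_lit 351268), .ofNat (nat_lit 192306), .ofNat (nat_lit 306337), .ofNat (nat_lit 200000), .ofNat (nat_lit 351886)⟩⟩, [⟨nat_lit 7, nat_lit 72, nat_lit 100, nat_lit 89, nat_lit 16005305⟩]⟩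
noncomputable def p115_l138 : Lf2 := ⟨nat_lit 0, nat_lit 30, [nat_lit 15, nat_lit 5, nat_lit 5, nat_lit 20], false, nat_lit 8, nat_lit 160, nat_lit 0, nat_lit 160, ⟨nat_lit 543, nat_lit 0, nat_lit 457, nat_lit 6, nat_lit 223, nat_lit 457, nat_lit 70, nat_lit 457, nat_lit 45067, nat_lit 267, nat_lit 27594, nat_lit 200, nat_lit 48733060, nat_lit 0, nat_lit 0, nat_lit 3653503, false, false⟩,
 nat_lit 0, nat_lit 5173, nat_lit 0, nat_lit 0, nat_lit 4505, nat_lit 3577, nat_lit 0, nat_lit 0, nat_lit 0, nat_lit 0, nat_lit 0, nat_lit 0, nat_lit 0, nat_lit 0, nat_lit 33, nat_lit 457000, nat_lit 0, nat_lit 0, [(nat_lit 26, [(nat_lit 6, nat_lit 457)])],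
 ⟨p115_k53, nat_lit 0, nat_lit 0, nat_lit 394, nat_lit 0, nat_lit 358136, [nat_lit 1570323601, nat_lit 1170828000], [], [nat_lit 25184312494, nat_lit 26215123035, nat_lit 26468078540, nat_lit 27714946949, nat_lit 23700850092, nat_lit 24587323396, nat_lit 24780939364, nat_lit 25765488936], nat_lit 1271250, nat_lit 1271250, nat_lit 872850, nat_lit 1769250, nat_lit 43600, nat_lit 1100001, [nat_lit 230000, nat_lit 2015000], [nat_lit 132, nat_lit 40, nat_lit 40, nat_lit 80, nat_lit 133, nat_lit 317, nat_lit 100, nat_lit 9]⟩, ⟨p115_k54, nat_lit 0, nat_lit 0, nat_lit 235, nat_lit 0, nat_lit 0, [nat_lit 2545584000, nat_lit 7633494000], [], [nat_lit 21183617687, nat_lit 21792470817, nat_lit 22233453372, nat_lit 22717526064, nat_lit 18799722528, nat_lit 19239808848, nat_lit 19581680932, nat_lit 19929352636], nat_lit 0, nat_lit 0, nat_lit 0, nat_lit 0, nat_lit 0, nat_lit 0, [], [nat_lit 145, nat_lit 40, nat_lit 40, nat_lit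 80, nat_lit 144, nat_lit 401, nat_lit 175, nat_lit 9]⟩,
 ⟨nat_lit 2236, nat_lit 3163, ⟨.ofNat (nat_lit 462477), .ofNat (nat_lit 627331), .ofNat (nat_lit 484568), .ofNat (nat_lit 649422), .ofNat (nat_lit 471029), .ofNat (nat_lit 625251), .ofNat (nat_lit 493740), .ofNat (nat_lit 647962)⟩, ⟨.ofNat (nat_lit 20000), .ofNat (nat_lit 306116), .ofNat (nat_lit 20000), .ofNat (nat_lit 350426), .ofNat (nat_lit 20000), .ofNat (nat_lit 306337), .ofNat (nat_lit 20000), .ofNat (nat_lit 351886)⟩⟩, [⟨nat_lit 0, nat_lit 92, nat_lit 44, nat_lit 100, nat_lit 364604509⟩]⟩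
noncomputable def p115_l139 : Lf2 := ⟨nat_lit 0, nat_lit 30, [nat_lit 15, nat_lit 5, nat_lit 5, nat_lit 20], false, nat_lit 8, nat_lit 160, nat_lit 160, nat_lit 352, ⟨nat_lit 561, nat_lit 0, nat_lit 439, nat_lit 6, nat_lit 223, nat_lit 439, nat_lit 70, nat_lit 439, nat_lit 45067, nat_lit 267, nat_lit 27594, nat_lit 200, nat_lit 48733060, nat_lit 0, nat_lit 0, nat_lit 3653503, false, false⟩,
 nat_lit 0, nat_lit 5482, nat_lit 0, nat_lit 2401, nat_lit 4774, nat_lit 3612, nat_lit 0, nat_lit 0, nat_lit 0, nat_lit 0, nat_lit 0, nat_lit 0, nat_lit 0, nat_lit 0, nat_lit 18, nat_lit 439000, nat_lit 0, nat_lit 0, [(nat_lit 26, [(nat_lit 6, nat_lit 439)])],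
 ⟨p115_k53, nat_lit 0, nat_lit 0, nat_lit 394, nat_lit 0, nat_lit 358136, [nat_lit 1490617201, nat_lit 1128756000], [], [nat_lit 25638624817, nat_lit 26797535954, nat_lit 26875183203, nat_lit 28288586706, nat_lit 23570562427, nat_lit 24479648086, nat_lit 24592702212, nat_lit 25366815308], nat_lit 1271250, nat_lit 1271250, nat_lit 872850, nat_lit 1769250, nat_lit 43600, nat_lit 1100001, [nat_lit 230000, nat_lit 2015000], [nat_lit 132, nat_lit 40, nat_lit 40, nat_lit 80, nat_lit 133, nat_lit 317, nat_lit 100, nat_lit 9]⟩, ⟨p115_k54, nat_lit 0, nat_lit 0, nat_lit 51, nat_lit 0, nat_lit 0, [nat_lit 2629968000, nat_lit 7886538000], [], [nat_lit 6454438120, nat_lit 7429942393, nat_lit 8971410588, nat_lit 9743295780, nat_lit 13541538145, nat_lit 14187976460, nat_lit 14718123075, nat_lit 15232490962], nat_lit 0, nat_lit 0, nat_lit 0, nat_lit 0, nat_lit 0, nat_lit 0, [], [nat_lit 145, nat_lit 40, nat_lit 40, nat_lit 80, nat_lit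 144, nat_lit 456, nat_lit 225, nat_lit 10]⟩,
 ⟨nat_lit 2236, nat_lit 3163, ⟨.ofNat (nat_lit 462477), .ofNat (nat_lit 627331), .ofNat (nat_lit 484568), .ofNat (nat_lit 649422), .ofNat (nat_lit 471029), .ofNat (nat_lit 625251), .ofNat (nat_lit 493740), .ofNat (nat_lit 647962)⟩, ⟨.ofNat (nat_lit 20000), .ofNat (nat_lit 306116), .ofNat (nat_lit 20000), .ofNat (nat_lit 350426), .ofNat (nat_lit 20000), .ofNat (nat_lit 306337), .ofNat (nat_lit 20000), .ofNat (nat_lit 351886)⟩⟩, [⟨nat_lit 0, nat_lit 96, nat_lit 54, nat_lit 100, nat_lit 289907463⟩, ⟨nat_lit 3, nat_lit 100, nat_lit 61, nat_lit 55, nat_lit 31285902⟩, ⟨nat_lit 19, nat_lit 100, nat_lit 82, nat_lit 92, nat_lit 297067043⟩]⟩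
noncomputable def p115_l140 : Lf2 := ⟨nat_lit 0, nat_lit 25, [nat_lit 44, nat_lit 5, nat_lit 5, nat_lit 20], false, nat_lit 160, nat_lit 248, nat_lit 0, nat_lit 364, ⟨nat_lit 114, nat_lit 0, nat_lit 886, nat_lit 6, nat_lit 208, nat_lit 886, nat_lit 158, nat_lit 886, nat_lit 61189, nat_lit 275, nat_lit 2400, nat_lit 203, nat_lit 44806968, nat_lit 0, nat_lit 0, nat_lit 4602392, false, false⟩,
 nat_lit 0, nat_lit 3124, nat_lit 0, nat_lit 3321, nat_lit 2720, nat_lit 2251, nat_lit 0, nat_lit 0, nat_lit 0, nat_lit 0, nat_lit 0, nat_lit 0, nat_lit 0, nat_lit 0, nat_lit 58, nat_lit 221500, nat_lit 0, nat_lit 0, [(nat_lit 26, [(nat_lit 4, nat_lit 886)])],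
 ⟨p115_k36, nat_lit 0, nat_lit 0, nat_lit 152, nat_lit 0, nat_lit 190538, [nat_lit 1026113600, nat_lit 550560801, nat_lit 21205600], [], [nat_lit 19456452224, nat_lit 20054677904, nat_lit 21987119200, nat_lit 22487143520, nat_lit 21717974132, nat_lit 22239923086, nat_lit 24100070321, nat_lit 24633677616], nat_lit 1271250, nat_lit 1271250, nat_lit 719601, nat_lit 1758000, nat_lit 1100001, nat_lit 1853500, [nat_lit 230000, nat_lit 1100000, nat_lit 1785000], [nat_lit 57, nat_lit 40, nat_lit 40, nat_lit 80, nat_lit 7, nat_lit 345, nat_lit 125, nat_lit 10]⟩, ⟨p115_k4, nat_lit 0, nat_lit 0, nat_lit 282, nat_lit 0, nat_lit 0, [nat_lit 534432000, nat_lit 1121988000, nat_lit 1602612000], [], [nat_lit 5457347676, nat_lit 5711774824, nat_lit 5435008320, nat_lit 5612931246, nat_lit 4718227752, nat_lit 4786837968, nat_lit 4113351625, nat_lit 4144262434], nat_lit 0, nat_lit 0, nat_lit 0, nat_lit 0, nat_lit 0, nat_lit 0, [], [nat_lit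 56, nat_lit 40, nat_lit 40, nat_lit 80, nat_lit 32, nat_lit 456, nat_lit 225, nat_lit 11]⟩,
 ⟨nat_lit 2738, nat_lit 3163, ⟨.ofNat (nat_lit 410148), .ofNat (nat_lit 605257), .ofNat (nat_lit 432290), .ofNat (nat_lit 627400), .ofNat (nat_lit 414835), .ofNat (nat_lit 603890), .ofNat (nat_lit 437240), .ofNat (nat_lit 626295)⟩, ⟨.ofNat (nat_lit 306116), .ofNat (nat_lit 440213), .ofNat (nat_lit 350426), .ofNat (nat_lit 484523), .ofNat (nat_lit 306433), .ofNat (nat_lit 436368), .ofNat (nat_lit 351268), .ofNat (nat_lit 481203)⟩⟩, [⟨nat_lit 16, nat_lit 57, nat_lit 100, nat_lit 87, nat_lit 318454186⟩, ⟨nat_lit 7, nat_lit 72, nat_lit 100, nat_lit 89, nat_lit 2381169⟩]⟩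
noncomputable def p115_l141 : Lf2 := ⟨nat_lit 0, nat_lit 30, [nat_lit 15, nat_lit 5, nat_lit 5, nat_lit 20], true, nat_lit 160, nat_lit 248, nat_lit 0, nat_lit 364, ⟨nat_lit 0, nat_lit 1000, nat_lit 0, nat_lit 6, nat_lit 208, nat_lit 1000, nat_lit 158, nat_lit 0, nat_lit 0, nat_lit 0, nat_lit 0, nat_lit 0, nat_lit 44810265, nat_lit 13451760, nat_lit 8737975, nat_lit 4602646, false, false⟩,
 nat_lit 0, nat_lit 4373, nat_lit 0, nat_lit 3350, nat_lit 3808, nat_lit 0, nat_lit 0, nat_lit 0, nat_lit 0, nat_lit 0, nat_lit 0, nat_lit 0, nat_lit 0, nat_lit 0, nat_lit 0, nat_lit 250000, nat_lit 0, nat_lit 0, [(nat_lit 26, [(nat_lit 0, nat_lit 1000)])],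
 ⟨p115_k42, nat_lit 0, nat_lit 0, nat_lit 78, nat_lit 0, nat_lit 56930, [nat_lit 765600000, nat_lit 1845600000, nat_lit 2928480000], [], [nat_lit 19769948026, nat_lit 20182325337, nat_lit 22601129696, nat_lit 22937643584, nat_lit 22484597012, nat_lit 22837645946, nat_lit 24757892586, nat_lit 25048399415], nat_lit 1271250, nat_lit 1271250, nat_lit 719601, nat_lit 1758000, nat_lit 1100001, nat_lit 1853500, [nat_lit 230000, nat_lit 1100000, nat_lit 2127500], [nat_lit 81, nat_lit 40, nat_lit 40, nat_lit 80, nat_lit 13, nat_lit 345, nat_lit 125, nat_lit 9]⟩, C1.Rw.none,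
 ⟨nat_lit 2958, nat_lit 3163, ⟨.ofNat (nat_lit 410198), .ofNat (nat_lit 605261), .ofNat (nat_lit 432350), .ofNat (nat_lit 627413), .ofNat (nat_lit 412494), .ofNat (nat_lit 604573), .ofNat (nat_lit 434768), .ofNat (nat_lit 626848)⟩, ⟨.ofNat (nat_lit 306116), .ofNat (nat_lit 440213), .ofNat (nat_lit 350426), .ofNat (nat_lit 484523), .ofNat (nat_lit 306315), .ofNat (nat_lit 438361), .ofNat (nat_lit 350869), .ofNat (nat_lit 482915)⟩⟩, [⟨nat_lit 4, nat_lit 100, nat_lit 59, nat_lit 87, nat_lit 214077512⟩]⟩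
noncomputable def p115_l142 : Lf2 := ⟨nat_lit 0, nat_lit 30, [nat_lit 15, nat_lit 5, nat_lit 5, nat_lit 20], false, nat_lit 160, nat_lit 240, nat_lit 0, nat_lit 364, ⟨nat_lit 144, nat_lit 0, nat_lit 856, nat_lit 6, nat_lit 210, nat_lit 856, nat_lit 155, nat_lit 856, nat_lit 94392, nat_lit 290, nat_lit 7518, nat_lit 204, nat_lit 44766327, nat_lit 0, nat_lit 0, nat_lit 4596809, false, false⟩,
 nat_lit 0, nat_lit 3861, nat_lit 0, nat_lit 5329, nat_lit 3423, nat_lit 1733, nat_lit 0, nat_lit 0, nat_lit 0, nat_lit 112, nat_lit 0, nat_lit 0, nat_lit 0, nat_lit 0, nat_lit 25, nat_lit 171200, nat_lit 0, nat_lit 0, [(nat_lit 26, [(nat_lit 3, nat_lit 856)])],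
 ⟨p115_k55, nat_lit 0, nat_lit 0, nat_lit 121, nat_lit 0, nat_lit 96605, [nat_lit 1217760000, nat_lit 364592001, nat_lit 35392000], [], [nat_lit 20308098972, nat_lit 20637405496, nat_lit 22645152232, nat_lit 22920149363, nat_lit 22247482830, nat_lit 22536900623, nat_lit 24488987689, nat_lit 24814783009], nat_lit 1271250, nat_lit 1271250, nat_lit 780000, nat_lit 1762500, nat_lit 1100001, nat_lit 1785000, [nat_lit 230000, nat_lit 1100000, nat_lit 1785000], [nat_lit 57, nat_lit 40, nat_lit 40, nat_lit 80, nat_lit 7, nat_lit 345, nat_lit 125, nat_lit 10]⟩, ⟨p115_k6, nat_lit 0, nat_lit 0, nat_lit 427, nat_lit 0, nat_lit 0, [nat_lit 675072000, nat_lit 1417248000, nat_lit 2361600000], [], [nat_lit 5462058332, nat_lit 5637785200, nat_lit 5463604780, nat_lit 5591547836, nat_lit 4826570592, nat_lit 4879974288, nat_lit 4463745034, nat_lit 4492023933], nat_lit 0, nat_lit 0, nat_lit 0, nat_lit 0, nat_lit 0, nat_lit 0, [], [nat_lit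 83, nat_lit 40, nat_lit 40, nat_lit 80, nat_lit 73, nat_lit 456, nat_lit 225, nat_lit 10]⟩,
 ⟨nat_lit 2738, nat_lit 2959, ⟨.ofNat (nat_lit 424494), .ofNat (nat_lit 604573), .ofNat (nat_lit 446768), .ofNat (nat_lit 626847), .ofNat (nat_lit 426694), .ofNat (nat_lit 603893), .ofNat (nat_lit 449109), .ofNat (nat_lit 626308)⟩, ⟨.ofNat (nat_lit 306315), .ofNat (nat_lit 426357), .ofNat (nat_lit 350869), .ofNat (nat_lit 470911), .ofNat (nat_lit 306433), .ofNat (nat_lit 424556), .ofNat (nat_lit 351268), .ofNat (nat_lit 469390)⟩⟩, [⟨nat_lit 4, nat_lit 100, nat_lit 55, nat_lit 87, nat_lit 329710250⟩, ⟨nat_lit 19, nat_lit 100, nat_lit 72, nat_lit 89, nat_lit 14602672⟩]⟩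
noncomputable def p115_l143 : Lf2 := ⟨nat_lit 0, nat_lit 30, [nat_lit 15, nat_lit 5, nat_lit 5, nat_lit 20], true, nat_lit 160, nat_lit 232, nat_lit 0, nat_lit 364, ⟨nat_lit 0, nat_lit 197, nat_lit 803, nat_lit 6, nat_lit 211, nat_lit 1000, nat_lit 152, nat_lit 803, nat_lit 156817, nat_lit 312, nat_lit 1983, nat_lit 207, nat_lit 44907052, nat_lit 13814787, nat_lit 8278161, nat_lit 4572766, false, false⟩,
 nat_lit 0, nat_lit 2977, nat_lit 0, nat_lit 1823, nat_lit 2686, nat_lit 0, nat_lit 0, nat_lit 0, nat_lit 0, nat_lit 0, nat_lit 0, nat_lit 0, nat_lit 0, nat_lit 0, nat_lit 66, nat_lit 250000, nat_lit 0, nat_lit 0, [(nat_lit 26, [(nat_lit 0, nat_lit 197), (nat_lit 4, nat_lit 803)])],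
 ⟨p115_k41, nat_lit 0, nat_lit 0, nat_lit 170, nat_lit 0, nat_lit 245448, [nat_lit 1037630000, nat_lit 567446801, nat_lit 13384400], [], [nat_lit 20166262661, nat_lit 20736803239, nat_lit 22434561554, nat_lit 22985864940, nat_lit 21856811172, nat_lit 22369264347, nat_lit 24121769081, nat_lit 24714513264], nat_lit 1271250, nat_lit 1271250, nat_lit 841600, nat_lit 1767000, nat_lit 1100001, nat_lit 1716500, [nat_lit 230000, nat_lit 1100000, nat_lit 1785000], [nat_lit 57, nat_lit 40, nat_lit 40, nat_lit 80, nat_lit 7, nat_lit 345, nat_lit 125, nat_lit 10]⟩, C1.Rw.none,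
 ⟨nat_lit 2236, nat_lit 2739, ⟨.ofNat (nat_lit 438420), .ofNat (nat_lit 603890), .ofNat (nat_lit 449619), .ofNat (nat_lit 615088), .ofNat (nat_lit 442816), .ofNat (nat_lit 602558), .ofNat (nat_lit 454194), .ofNat (nat_lit 613935)⟩, ⟨.ofNat (nat_lit 306433), .ofNat (nat_lit 412743), .ofNat (nat_lit 351268), .ofNat (nat_lit 457578), .ofNat (nat_lit 306337), .ofNat (nat_lit 408965), .ofNat (nat_lit 351886), .ofNat (nat_lit 454514)⟩⟩, [⟨nat_lit 4, nat_lit 100, nat_lit 48, nat_lit 87, nat_lit 289787499⟩]⟩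
noncomputable def p115_l144 : Lf2 := ⟨nat_lit 0, nat_lit 30, [nat_lit 15, nat_lit 5, nat_lit 5, nat_lit 20], false, nat_lit 160, nat_lit 232, nat_lit 0, nat_lit 360, ⟨nat_lit 147, nat_lit 0, nat_lit 853, nat_lit 6, nat_lit 219, nat_lit 853, nat_lit 152, nat_lit 853, nat_lit 156817, nat_lit 312, nat_lit 6376, nat_lit 204, nat_lit 44238109, nat_lit 0, nat_lit 0, nat_lit 4631433, false, false⟩,
 nat_lit 0, nat_lit 3272, nat_lit 0, nat_lit 1895, nat_lit 2952, nat_lit 2962, nat_lit 0, nat_lit 0, nat_lit 0, nat_lit 0, nat_lit 0, nat_lit 0, nat_lit 0, nat_lit 0, nat_lit 43, nat_lit 213250, nat_lit 0, nat_lit 0, [(nat_lit 26, [(nat_lit 4, nat_lit 853)])],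
 ⟨p115_k41, nat_lit 0, nat_lit 0, nat_lit 176, nat_lit 0, nat_lit 273705, [nat_lit 971472800, nat_lit 499228401, nat_lit 9038800], [], [nat_lit 20580521644, nat_lit 21189897328, nat_lit 22656298328, nat_lit 23197412080, nat_lit 22254022869, nat_lit 22801993536, nat_lit 24299896195, nat_lit 24917504248], nat_lit 1271250, nat_lit 1271250, nat_lit 936251, nat_lit 1773750, nat_lit 1100001, nat_lit 1716500, [nat_lit 230000, nat_lit 1100000, nat_lit 1785000], [nat_lit 57, nat_lit 40, nat_lit 40, nat_lit 80, nat_lit 7, nat_lit 345, nat_lit 125, nat_lit 10]⟩, ⟨p115_k8, nat_lit 0, nat_lit 0, nat_lit 268, nat_lit 0, nat_lit 0, [nat_lit 689136000, nat_lit 1446774000, nat_lit 2066526000], [], [nat_lit 7004659771, nat_lit 7162576221, nat_lit 7158926517, nat_lit 7275150450, nat_lit 5727889928, nat_lit 5770143002, nat_lit 5246249795, nat_lit 5267567792], nat_lit 0, nat_lit 0, nat_lit 0, nat_lit 0, nat_lit 0, nat_lit 0, [], [nat_lit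 56, nat_lit 40, nat_lit 40, nat_lit 80, nat_lit 32, nat_lit 456, nat_lit 225, nat_lit 11]⟩,
 ⟨nat_lit 2236, nat_lit 2739, ⟨.ofNat (nat_lit 467348), .ofNat (nat_lit 615088), .ofNat (nat_lit 478547), .ofNat (nat_lit 626287), .ofNat (nat_lit 471309), .ofNat (nat_lit 613935), .ofNat (nat_lit 482686), .ofNat (nat_lit 625312)⟩, ⟨.ofNat (nat_lit 306433), .ofNat (nat_lit 412743), .ofNat (nat_lit 351268), .ofNat (nat_lit 457578), .ofNat (nat_lit 306337), .ofNat (nat_lit 408965), .ofNat (nat_lit 351886), .ofNat (nat_lit 454514)⟩⟩, [⟨nat_lit 4, nat_lit 100, nat_lit 48, nat_lit 87, nat_lit 357307389⟩, ⟨nat_lit 7, nat_lit 75, nat_lit 100, nat_lit 90, nat_lit 826364⟩]⟩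
noncomputable def p115_l145 : Lf2 := ⟨nat_lit 0, nat_lit 30, [nat_lit 15, nat_lit 5, nat_lit 5, nat_lit 20], false, nat_lit 160, nat_lit 248, nat_lit 0, nat_lit 160, ⟨nat_lit 1000, nat_lit 0, nat_lit 0, nat_lit 0, nat_lit 0, nat_lit 0, nat_lit 0, nat_lit 0, nat_lit 0, nat_lit 0, nat_lit 0, nat_lit 0, nat_lit 0, nat_lit 0, nat_lit 0, nat_lit 0, false, false⟩,
 nat_lit 0, nat_lit 7705, nat_lit 0, nat_lit 9253, nat_lit 6710, nat_lit 6720, nat_lit 485, nat_lit 0, nat_lit 0, nat_lit 909, nat_lit 0, nat_lit 0, nat_lit 0, nat_lit 0, nat_lit 0, nat_lit 0, nat_lit 0, nat_lit 0, [],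
 ⟨p115_k42, nat_lit 0, nat_lit 0, nat_lit 284, nat_lit 0, nat_lit 358136, [nat_lit 938000000, nat_lit 4688000000, nat_lit 9842000000], [], [nat_lit 23568985016, nat_lit 25061360772, nat_lit 24819418480, nat_lit 26233480360, nat_lit 25182686379, nat_lit 26684311780, nat_lit 26465048657, nat_lit 28326969595], nat_lit 1271250, nat_lit 1271250, nat_lit 872850, nat_lit 1769250, nat_lit 1100001, nat_lit 1853500, [nat_lit 230000, nat_lit 1100000, nat_lit 2127500], [nat_lit 81, nat_lit 40, nat_lit 40, nat_lit 80, nat_lit 13, nat_lit 345, nat_lit 125, nat_lit 9]⟩, ⟨p115_k18, nat_lit 0, nat_lit 0, nat_lit 277, nat_lit 0, nat_lit 0, [nat_lit 4688000000, nat_lit 9842000000, nat_lit 14058000000], [], [nat_lit 27100435700, nat_lit 28232103181, nat_lit 29018923660, nat_lit 29917142300, nat_lit 22412827708, nat_lit 23500804617, nat_lit 24862142600, nat_lit 25726060520], nat_lit 0, nat_lit 0, nat_lit 0, nat_lit 0, nat_lit 0, nat_lit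 0, [], [nat_lit 56, nat_lit 40, nat_lit 40, nat_lit 80, nat_lit 32, nat_lit 401, nat_lit 175, nat_lit 9]⟩,
 zbF0, [⟨nat_lit 0, nat_lit 96, nat_lit 54, nat_lit 100, nat_lit 571029809⟩, ⟨nat_lit 4, nat_lit 100, nat_lit 53, nat_lit 87, nat_lit 647659329⟩]⟩
noncomputable def p115_l146 : Lf2 := ⟨nat_lit 0, nat_lit 30, [nat_lit 15, nat_lit 5, nat_lit 5, nat_lit 20], false, nat_lit 160, nat_lit 248, nat_lit 160, nat_lit 352, ⟨nat_lit 1000, nat_lit 0, nat_lit 0, nat_lit 0, nat_lit 0, nat_lit 0, nat_lit 0, nat_lit 0, nat_lit 0, nat_lit 0, nat_lit 0, nat_lit 0, nat_lit 0, nat_lit 0, nat_lit 0, nat_lit 0, false, false⟩,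
 nat_lit 0, nat_lit 7694, nat_lit 0, nat_lit 8670, nat_lit 6701, nat_lit 6437, nat_lit 486, nat_lit 0, nat_lit 0, nat_lit 0, nat_lit 0, nat_lit 0, nat_lit 0, nat_lit 0, nat_lit 0, nat_lit 0, nat_lit 0, nat_lit 0, [],
 ⟨p115_k42, nat_lit 0, nat_lit 0, nat_lit 284, nat_lit 0, nat_lit 358136, [nat_lit 938000000, nat_lit 4688000000, nat_lit 9842000000], [], [nat_lit 23566692710, nat_lit 25057866934, nat_lit 24818554488, nat_lit 26221729716, nat_lit 25180867611, nat_lit 26671478669, nat_lit 26459605514, nat_lit 28319941482], nat_lit 1271250, nat_lit 1271250, nat_lit 872850, nat_lit 1769250, nat_lit 1100001, nat_lit 1853500, [nat_lit 230000, nat_lit 1100000, nat_lit 2127500], [nat_lit 81, nat_lit 40, nat_lit 40, nat_lit 80, nat_lit 13, nat_lit 345, nat_lit 125, nat_lit 9]⟩, ⟨p115_k18, nat_lit 0, nat_lit 0, nat_lit 92, nat_lit 0, nat_lit 0, [nat_lit 4688000000, nat_lit 9842000000, nat_lit 14058000000], [], [nat_lit 11507548662,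 nat_lit 13246172155, nat_lit 15993795814, nat_lit 17369530940, nat_lit 24137506280, nat_lit 25289366979, nat_lit 26234637117, nat_lit 27151431151], nat_lit 0, nat_lit 0, nat_lit 0, nat_lit 0, nat_lit 0, nat_lit 0, [], [nat_lit 56, nat_lit 40, nat_lit 40, nat_lit 80, nat_lit 32, nat_lit 456, nat_lit 225, nat_lit 10]⟩,
 zbF0, [⟨nat_lit 0, nat_lit 96, nat_lit 54, nat_lit 100, nat_lit 600835681⟩, ⟨nat_lit 4, nat_lit 100, nat_lit 53, nat_lit 87, nat_lit 647718367⟩, ⟨nat_lit 19, nat_lit 100, nat_lit 69, nat_lit 96, nat_lit 519793262⟩]⟩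
noncomputable def b_V_900_600_20_58 : St := ⟨true, nat_lit 1, nat_lit 0, nat_lit 1, nat_lit 120, nat_lit 360, nat_lit 380, nat_lit 240, nat_lit 280, nat_lit 112, nat_lit 240, nat_lit 80, nat_lit 120, nat_lit 8, nat_lit 248, nat_lit 0, nat_lit 364, nat_lit 80, nat_lit 120, nat_lit 0, nat_lit 0, nat_lit 0, nat_lit 0⟩
theorem d_V_900_600_20_58 (h : EB TB.env) : Dead b_V_900_600_20_58 := chkB_sound0 h (T :=
(.spl (nat_lit 4) (nat_lit 160)
(.spl (nat_lit 1) (nat_lit 260)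
(.spl (nat_lit 4) (nat_lit 80)
(.spl (nat_lit 0) (nat_lit 370)
(.spl (nat_lit 3) (nat_lit 100)
(.trX (nat_lit 19) (nat_lit 100) (nat_lit 68) (nat_lit 88) (nat_lit 352) (.leaf p115_l131))
(.trZ (nat_lit 3) (nat_lit 100) (nat_lit 69) (nat_lit 45) (nat_lit 16) (.spl (nat_lit 6) (nat_lit 104)
(.leaf p115_l132)
(.leaf p115_l133))))
(.trZ (nat_lit 0) (nat_lit 100) (nat_lit 54) (nat_lit 96) (nat_lit 128) (.trZ (nat_lit 3) (nat_lit 100) (nat_lit 66) (nat_lit 45) (nat_lit 12) (.spl (nat_lit 1) (nat_lit 250)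
(.leaf p115_l134)
(.trZ (nat_lit 0) (nat_lit 100) (nat_lit 54) (nat_lit 99) (nat_lit 140) (.trX (nat_lit 19) (nat_lit 100) (nat_lit 64) (nat_lit 95) (nat_lit 360) (.leaf p115_l135)))))))
(.spl (nat_lit 0) (nat_lit 370)
(.leaf p115_l136)
(.trZ (nat_lit 0) (nat_lit 100) (nat_lit 54) (nat_lit 96) (nat_lit 128) (.leaf p115_l137))))
(.trZ (nat_lit 0) (nat_lit 100) (nat_lit 63) (nat_lit 99) (nat_lit 132) (.trX (nat_lit 19) (nat_lit 100) (nat_lit 69) (nat_lit 96) (nat_lit 352) (.spl (nat_lit 5) (nat_lit 160)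
(.leaf p115_l138)
(.leaf p115_l139)))))
(.spl (nat_lit 1) (nat_lit 260)
(.spl (nat_lit 0) (nat_lit 370)
(.spl (nat_lit 6) (nat_lit 100)
(.leaf p115_l140)
(.spl (nat_lit 0) (nat_lit 365)
(.leaf p115_l141)
(.trZ (nat_lit 0) (nat_lit 100) (nat_lit 58) (nat_lit 94) (nat_lit 120) (.trX (nat_lit 16) (nat_lit 58) (nat_lit 100) (nat_lit 93) (nat_lit 240) (.leaf p115_l142)))))
(.trZ (nat_lit 0) (nat_lit 100) (nat_lit 54) (nat_lit 96) (nat_lit 128) (.trX (nat_lit 16) (nat_lit 53) (nat_lit 100) (nat_lit 93) (nat_lit 232) (.spl (nat_lit 1) (nat_lit 250)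
(.leaf p115_l143)
(.trZ (nat_lit 0) (nat_lit 100) (nat_lit 54) (nat_lit 99) (nat_lit 140) (.trX (nat_lit 19) (nat_lit 100) (nat_lit 64) (nat_lit 95) (nat_lit 360) (.leaf p115_l144)))))))
(.trZ (nat_lit 0) (nat_lit 100) (nat_lit 63) (nat_lit 99) (nat_lit 132) (.trX (nat_lit 19) (nat_lit 100) (nat_lit 69) (nat_lit 96) (nat_lit 352) (.spl (nat_lit 5) (nat_lit 160)
(.leaf p115_l145)
(.leaf p115_l146))))))) (by decide +kernel)

end B2
end Pool.Agent.Lib.MP_6947cd_al
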