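import Pool.Agent.Lib.MP_6947cd_al.ZB.Pre

/-!
Problem MP_6947cd_al (Chollet).  Case B, second entry in [2/5, 17/20]: certificates of the tree, part P116 (generated).
-/

set_option autoImplicit false
set_option linter.all false

namespace Pool.Agent.Lib.MP_6947cd_al
namespace B2

open Ent Fr B1 PkA

noncomputable def p116_k0 : C1.Kn := ⟨[nat_lit 20, nat_lit 80, nat_lit 120], [nat_lit 0, nat_lit 2121, nat_lit 4818], [(nat_lit 0, nat_lit 0, nat_lit 0), (nat_lit 1000, nat_lit 558, nat_lit 551), (nat_lit 1000, nat_lit 443, nat_lit 981)], (nat_lit 44, nat_lit 100, nat_lit 92)⟩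
noncomputable def p116_k1 : C1.Kn := ⟨[nat_lit 80, nat_lit 140, nat_lit 200], [nat_lit 0, nat_lit 0, nat_lit 5481], [(nat_lit 0, nat_lit 0, nat_lit 0), (nat_lit 0, nat_lit 0, nat_lit 0), (nat_lit 637, nat_lit 1000, nat_lit 908)], (nat_lit 0, nat_lit 0, nat_lit 0)⟩
noncomputable def p116_k2 : C1.Kn := ⟨[nat_lit 80, nat_lit 140, nat_lit 180], [nat_lit 0, nat_lit 792, nat_lit 4228], [(nat_lit 0, nat_lit 0, nat_lit 0), (nat_lit 1000, nat_lit 959, nat_lit 206), (nat_lit 709, nat_lit 1000, nat_lit 949)], (nat_lit 100, nat_lit 69, nat_lit 96)⟩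
noncomputable def p116_k3 : C1.Kn := ⟨[nat_lit 20, nat_lit 60, nat_lit 100], [nat_lit 0, nat_lit 2136, nat_lit 4235], [(nat_lit 0, nat_lit 0, nat_lit 0), (nat_lit 1000, nat_lit 343, nat_lit 808), (nat_lit 1000, nat_lit 338, nat_lit 820)], (nat_lit 31, nat_lit 100, nat_lit 92)⟩
noncomputable def p116_k4 : C1.Kn := ⟨[nat_lit 80, nat_lit 120, nat_lit 200], [nat_lit 0, nat_lit 0, nat_lit 4259], [(nat_lit 0, nat_lit 0, nat_lit 0), (nat_lit 0, nat_lit 0, nat_lit 0), (nat_lit 858, nat_lit 1000, nat_lit 713)], (nat_lit 0, nat_lit 0, nat_lit 0)⟩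
noncomputable def p116_k5 : C1.Kn := ⟨[nat_lit 80, nat_lit 140, nat_lit 180], [nat_lit 0, nat_lit 395, nat_lit 3941], [(nat_lit 0, nat_lit 0, nat_lit 0), (nat_lit 1000, nat_lit 979, nat_lit 103), (nat_lit 672, nat_lit 1000, nat_lit 927)], (nat_lit 100, nat_lit 64, nat_lit 95)⟩
noncomputable def p116_k6 : C1.Kn := ⟨[nat_lit 20, nat_lit 80, nat_lit 140], [nat_lit 0, nat_lit 0, nat_lit 4928], [(nat_lit 0, nat_lit 0, nat_lit 0), (nat_lit 0, nat_lit 0, nat_lit 0), (nat_lit 950, nat_lit 618, nat_lit 1000)], (nat_lit 62, nat_lit 100, nat_lit 94)⟩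
noncomputable def p116_k7 : C1.Kn := ⟨[nat_lit 20, nat_lit 80, nat_lit 120], [nat_lit 0, nat_lit 0, nat_lit 3661], [(nat_lit 0, nat_lit 0, nat_lit 0), (nat_lit 0, nat_lit 0, nat_lit 0), (nat_lit 1000, nat_lit 611, nat_lit 913)], (nat_lit 60, nat_lit 100, nat_lit 87)⟩
noncomputable def p116_k8 : C1.Kn := ⟨[nat_lit 20, nat_lit 80, nat_lit 120], [nat_lit 0, nat_lit 1046, nat_lit 4184], [(nat_lit 0, nat_lit 0, nat_lit 0), (nat_lit 1000, nat_lit 782, nat_lit 272), (nat_lit 1000, nat_lit 536, nat_lit 947)], (nat_lit 53, nat_lit 100, nat_lit 93)⟩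
noncomputable def p116_k9 : C1.Kn := ⟨[nat_lit 20, nat_lit 60, nat_lit 140], [nat_lit 0, nat_lit 0, nat_lit 4874], [(nat_lit 0, nat_lit 0, nat_lit 0), (nat_lit 0, nat_lit 0, nat_lit 0), (nat_lit 1000, nat_lit 619, nat_lit 951)], (nat_lit 62, nat_lit 100, nat_lit 94)⟩
noncomputable def p116_k10 : C1.Kn := ⟨[nat_lit 20, nat_lit 80, nat_lit 120], [nat_lit 0, nat_lit 508, nat_lit 3912], [(nat_lit 0, nat_lit 0, nat_lit 0), (nat_lit 1000, nat_lit 894, nat_lit 132), (nat_lit 1000, nat_lit 576, nat_lit 936)], (nat_lit 58, nat_lit 100, nat_lit 93)⟩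
noncomputable def p116_k11 : C1.Kn := ⟨[nat_lit 80, nat_lit 140, nat_lit 180], [nat_lit 0, nat_lit 792, nat_lit 4228], [(nat_lit 0, nat_lit 0, nat_lit 0), (nat_lit 1000, nat_lit 959, nat_lit 206), (nat_lit 709, nat_lit 1000, nat_lit 949)], (nat_lit 100, nat_lit 77, nat_lit 91)⟩
noncomputable def p116_k12 : C1.Kn := ⟨[nat_lit 20, nat_lit 60, nat_lit 120], [nat_lit 0, nat_lit 0, nat_lit 3661], [(nat_lit 0, nat_lit 0, nat_lit 0), (nat_lit 0, nat_lit 0, nat_lit 0), (nat_lit 1000, nat_lit 611, nat_lit 913)], (nat_lit 61, nat_lit 100, nat_lit 90)⟩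
noncomputable def p116_k13 : C1.Kn := ⟨[nat_lit 80, nat_lit 120, nat_lit 180], [nat_lit 0, nat_lit 528, nat_lit 3600], [(nat_lit 0, nat_lit 0, nat_lit 0), (nat_lit 1000, nat_lit 959, nat_lit 206), (nat_lit 929, nat_lit 1000, nat_lit 742)], (nat_lit 100, nat_lit 74, nat_lit 93)⟩
noncomputable def p116_k14 : C1.Kn := ⟨[nat_lit 20, nat_lit 60, nat_lit 120], [nat_lit 0, nat_lit 339, nat_lit 3911], [(nat_lit 0, nat_lit 0, nat_lit 0), (nat_lit 1000, nat_lit 894, nat_lit 132), (nat_lit 1000, nat_lit 574, nat_lit 928)], (nat_lit 58, nat_lit 100, nat_lit 93)⟩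
noncomputable def p116_k15 : C1.Kn := ⟨[nat_lit 80, nat_lit 120, nat_lit 180], [nat_lit 0, nat_lit 528, nat_lit 3600], [(nat_lit 0, nat_lit 0, nat_lit 0), (nat_lit 1000, nat_lit 959, nat_lit 206), (nat_lit 929, nat_lit 1000, nat_lit 742)], (nat_lit 100, nat_lit 69, nat_lit 96)⟩
noncomputable def p116_k16 : C1.Kn := ⟨[nat_lit 20, nat_lit 60, nat_lit 120], [nat_lit 0, nat_lit 698, nat_lit 4166], [(nat_lit 0, nat_lit 0, nat_lit 0), (nat_lit 1000, nat_lit 782, nat_lit 272), (nat_lit 1000, nat_lit 529, nat_lit 902)], (nat_lit 53, nat_lit 100, nat_lit 93)⟩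
noncomputable def p116_k17 : C1.Kn := ⟨[nat_lit 20, nat_lit 60, nat_lit 120], [nat_lit 0, nat_lit 1415, nat_lit 4677], [(nat_lit 0, nat_lit 0, nat_lit 0), (nat_lit 1000, nat_lit 558, nat_lit 551), (nat_lit 1000, nat_lit 439, nat_lit 849)], (nat_lit 44, nat_lit 100, nat_lit 92)⟩
noncomputable def p116_k18 : C1.Kn := ⟨[nat_lit 20, nat_lit 80, nat_lit 100], [nat_lit 0, nat_lit 3199, nat_lit 4400], [(nat_lit 0, nat_lit 0, nat_lit 0), (nat_lit 1000, nat_lit 333, nat_lit 833), (nat_lit 1000, nat_lit 312, nat_lit 938)], (nat_lit 31, nat_lit 100, nat_lit 92)⟩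
noncomputable def p116_k19 : C1.Kn := ⟨[nat_lit 20, nat_lit 80, nat_lit 120], [nat_lit 0, nat_lit 0, nat_lit 3661], [(nat_lit 0, nat_lit 0, nat_lit 0), (nat_lit 0, nat_lit 0, nat_lit 0), (nat_lit 1000, nat_lit 611, nat_lit 913)], (nat_lit 61, nat_lit 100, nat_lit 90)⟩
noncomputable def p116_k20 : C1.Kn := ⟨[nat_lit 80, nat_lit 140, nat_lit 180], [nat_lit 0, nat_lit 792, nat_lit 4228], [(nat_lit 0, nat_lit 0, nat_lit 0), (nat_lit 1000, nat_lit 959, nat_lit 206), (nat_lit 709, nat_lit 1000, nat_lit 949)], (nat_lit 100, nat_lit 74, nat_lit 93)⟩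
noncomputable def p116_k21 : C1.Kn := ⟨[nat_lit 80, nat_lit 120, nat_lit 180], [nat_lit 0, nat_lit 796, nat_lit 3804], [(nat_lit 0, nat_lit 0, nat_lit 0), (nat_lit 1000, nat_lit 938, nat_lit 310), (nat_lit 969, nat_lit 1000, nat_lit 759)], (nat_lit 100, nat_lit 74, nat_lit 98)⟩
noncomputable def p116_k22 : C1.Kn := ⟨[nat_lit 20, nat_lit 60, nat_lit 120], [nat_lit 0, nat_lit 0, nat_lit 3661], [(nat_lit 0, nat_lit 0, nat_lit 0), (nat_lit 0, nat_lit 0, nat_lit 0), (nat_lit 1000, nat_lit 611, nat_lit 913)], (nat_lit 60, nat_lit 100, nat_lit 87)⟩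
noncomputable def p116_k23 : C1.Kn := ⟨[nat_lit 80, nat_lit 140, nat_lit 180], [nat_lit 0, nat_lit 0, nat_lit 3656], [(nat_lit 0, nat_lit 0, nat_lit 0), (nat_lit 0, nat_lit 0, nat_lit 0), (nat_lit 637, nat_lit 1000, nat_lit 908)], (nat_lit 100, nat_lit 68, nat_lit 88)⟩
noncomputable def p116_k24 : C1.Kn := ⟨[nat_lit 80, nat_lit 120, nat_lit 180], [nat_lit 0, nat_lit 264, nat_lit 3394], [(nat_lit 0, nat_lit 0, nat_lit 0), (nat_lit 1000, nat_lit 979, nat_lit 103), (nat_lit 893, nat_lit 1000, nat_lit 726)], (nat_lit 100, nat_lit 64, nat_lit 95)⟩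
noncomputable def p116_k25 : C1.Kn := ⟨[nat_lit 80, nat_lit 120, nat_lit 180], [nat_lit 0, nat_lit 0, nat_lit 3196], [(nat_lit 0, nat_lit 0, nat_lit 0), (nat_lit 0, nat_lit 0, nat_lit 0), (nat_lit 858, nat_lit 1000, nat_lit 713)], (nat_lit 100, nat_lit 68, nat_lit 88)⟩
noncomputable def p116_k26 : C1.Kn := ⟨[nat_lit 20, nat_lit 60, nat_lit 120], [nat_lit 0, nat_lit 339, nat_lit 3911], [(nat_lit 0, nat_lit 0, nat_lit 0), (nat_lit 1000, nat_lit 894, nat_lit 132), (nat_lit 1000, nat_lit 574, nat_lit 928)], (nat_lit 57, nat_lit 100, nat_lit 87)⟩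
noncomputable def p116_k27 : C1.Kn := ⟨[nat_lit 20, nat_lit 60, nat_lit 120], [nat_lit 0, nat_lit 0, nat_lit 3661], [(nat_lit 0, nat_lit 0, nat_lit 0), (nat_lit 0, nat_lit 0, nat_lit 0), (nat_lit 1000, nat_lit 611, nat_lit 913)], (nat_lit 61, nat_lit 100, nat_lit 89)⟩
noncomputable def p116_k28 : C1.Kn := ⟨[nat_lit 80, nat_lit 120, nat_lit 180], [nat_lit 0, nat_lit 0, nat_lit 3196], [(nat_lit 0, nat_lit 0, nat_lit 0), (nat_lit 0, nat_lit 0, nat_lit 0), (nat_lit 858, nat_lit 1000, nat_lit 713)], (nat_lit 100, nat_lit 66, nat_lit 90)⟩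
noncomputable def p116_k29 : C1.Kn := ⟨[nat_lit 20, nat_lit 60, nat_lit 120], [nat_lit 0, nat_lit 698, nat_lit 4166], [(nat_lit 0, nat_lit 0, nat_lit 0), (nat_lit 1000, nat_lit 782, nat_lit 272), (nat_lit 1000, nat_lit 529, nat_lit 902)], (nat_lit 53, nat_lit 100, nat_lit 87)⟩
noncomputable def p116_k30 : C1.Kn := ⟨[nat_lit 80, nat_lit 120, nat_lit 180], [nat_lit 0, nat_lit 528, nat_lit 3600], [(nat_lit 0, nat_lit 0, nat_lit 0), (nat_lit 1000, nat_lit 959, nat_lit 206), (nat_lit 929, nat_lit 1000, nat_lit 742)], (nat_lit 100, nat_lit 77, nat_lit 91)⟩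
noncomputable def p116_k31 : C1.Kn := ⟨[nat_lit 20, nat_lit 80, nat_lit 120], [nat_lit 0, nat_lit 0, nat_lit 3661], [(nat_lit 0, nat_lit 0, nat_lit 0), (nat_lit 0, nat_lit 0, nat_lit 0), (nat_lit 1000, nat_lit 611, nat_lit 913)], (nat_lit 61, nat_lit 100, nat_lit 89)⟩
noncomputable def p116_k32 : C1.Kn := ⟨[nat_lit 80, nat_lit 140, nat_lit 180], [nat_lit 0, nat_lit 0, nat_lit 3656], [(nat_lit 0, nat_lit 0, nat_lit 0), (nat_lit 0, nat_lit 0, nat_lit 0), (nat_lit 637, nat_lit 1000, nat_lit 908)], (nat_lit 100, nat_lit 66, nat_lit 90)⟩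
noncomputable def p116_k33 : C1.Kn := ⟨[nat_lit 20, nat_lit 80, nat_lit 120], [nat_lit 0, nat_lit 1046, nat_lit 4184], [(nat_lit 0, nat_lit 0, nat_lit 0), (nat_lit 1000, nat_lit 782, nat_lit 272), (nat_lit 1000, nat_lit 536, nat_lit 947)], (nat_lit 53, nat_lit 100, nat_lit 87)⟩
noncomputable def p116_k34 : C1.Kn := ⟨[nat_lit 20, nat_lit 80, nat_lit 120], [nat_lit 0, nat_lit 1373, nat_lit 4360], [(nat_lit 0, nat_lit 0, nat_lit 0), (nat_lit 1000, nat_lit 714, nat_lit 357), (nat_lit 1000, nat_lit 510, nat_lit 957)], (nat_lit 50, nat_lit 100, nat_lit 87)⟩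
noncomputable def p116_k35 : C1.Kn := ⟨[nat_lit 20, nat_lit 80, nat_lit 100], [nat_lit 0, nat_lit 1582, nat_lit 3301], [(nat_lit 0, nat_lit 0, nat_lit 0), (nat_lit 1000, nat_lit 671, nat_lit 411), (nat_lit 1000, nat_lit 484, nat_lit 867)], (nat_lit 48, nat_lit 100, nat_lit 87)⟩
noncomputable def p116_k36 : C1.Kn := ⟨[nat_lit 20, nat_lit 80, nat_lit 120], [nat_lit 0, nat_lit 1046, nat_lit 4184], [(nat_lit 0, nat_lit 0, nat_lit 0), (nat_lit 1000, nat_lit 782, nat_lit 272), (nat_lit 1000, nat_lit 536, nat_lit 947)], (nat_lit 53, nat_lit 100, nat_lit 90)⟩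
noncomputable def p116_k37 : C1.Kn := ⟨[nat_lit 80, nat_lit 140, nat_lit 180], [nat_lit 0, nat_lit 0, nat_lit 3656], [(nat_lit 0, nat_lit 0, nat_lit 0), (nat_lit 0, nat_lit 0, nat_lit 0), (nat_lit 637, nat_lit 1000, nat_lit 908)], (nat_lit 100, nat_lit 62, nat_lit 92)⟩
noncomputable def p116_k38 : C1.Kn := ⟨[nat_lit 20, nat_lit 80, nat_lit 120], [nat_lit 0, nat_lit 1582, nat_lit 4484], [(nat_lit 0, nat_lit 0, nat_lit 0), (nat_lit 1000, nat_lit 671, nat_lit 411), (nat_lit 1000, nat_lit 493, nat_lit 968)], (nat_lit 48, nat_lit 100, nat_lit 90)⟩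
noncomputable def p116_k39 : C1.Kn := ⟨[nat_lit 20, nat_lit 60, nat_lit 100], [nat_lit 0, nat_lit 1415, nat_lit 3591], [(nat_lit 0, nat_lit 0, nat_lit 0), (nat_lit 1000, nat_lit 558, nat_lit 551), (nat_lit 1000, nat_lit 439, nat_lit 849)], (nat_lit 44, nat_lit 100, nat_lit 87)⟩
noncomputable def p116_k40 : C1.Kn := ⟨[nat_lit 20, nat_lit 60, nat_lit 80], [nat_lit 0, nat_lit 2136, nat_lit 3185], [(nat_lit 0, nat_lit 0, nat_lit 0), (nat_lit 1000, nat_lit 343, nat_lit 808), (nat_lit 1000, nat_lit 338, nat_lit 820)], (nat_lit 32, nat_lit 100, nat_lit 88)⟩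
noncomputable def p116_k41 : C1.Kn := ⟨[nat_lit 20, nat_lit 80, nat_lit 100], [nat_lit 0, nat_lit 2663, nat_lit 3968], [(nat_lit 0, nat_lit 0, nat_lit 0), (nat_lit 1000, nat_lit 445, nat_lit 693), (nat_lit 1000, nat_lit 380, nat_lit 921)], (nat_lit 38, nat_lit 100, nat_lit 92)⟩
noncomputable def p116_k42 : C1.Kn := ⟨[nat_lit 80, nat_lit 140, nat_lit 200], [nat_lit 0, nat_lit 196, nat_lit 5596], [(nat_lit 0, nat_lit 0, nat_lit 0), (nat_lit 1000, nat_lit 990, nat_lit 51), (nat_lit 654, nat_lit 1000, nat_lit 918)], (nat_lit 0, nat_lit 0, nat_lit 0)⟩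
noncomputable def p116_k43 : C1.Kn := ⟨[nat_lit 20, nat_lit 80, nat_lit 100], [nat_lit 0, nat_lit 3758, nat_lit 4955], [(nat_lit 0, nat_lit 0, nat_lit 0), (nat_lit 1000, nat_lit 228, nat_lit 923), (nat_lit 1000, nat_lit 226, nat_lit 935)], (nat_lit 23, nat_lit 100, nat_lit 93)⟩
noncomputable def p116_k44 : C1.Kn := ⟨[nat_lit 20, nat_lit 80, nat_lit 100], [nat_lit 0, nat_lit 2121, nat_lit 3610], [(nat_lit 0, nat_lit 0, nat_lit 0), (nat_lit 1000, nat_lit 558, nat_lit 551), (nat_lit 1000, nat_lit 436, nat_lit 895)], (nat_lit 44, nat_lit 100, nat_lit 87)⟩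
noncomputable def p116_k45 : C1.Kn := ⟨[nat_lit 80, nat_lit 140, nat_lit 180], [nat_lit 0, nat_lit 395, nat_lit 3941], [(nat_lit 0, nat_lit 0, nat_lit 0), (nat_lit 1000, nat_lit 979, nat_lit 103), (nat_lit 672, nat_lit 1000, nat_lit 927)], (nat_lit 100, nat_lit 72, nat_lit 89)⟩
noncomputable def p116_k46 : C1.Kn := ⟨[nat_lit 20, nat_lit 80], [nat_lit 0, nat_lit 3199], [(nat_lit 0, nat_lit 0, nat_lit 0), (nat_lit 1000, nat_lit 333, nat_lit 833)], (nat_lit 32, nat_lit 100, nat_lit 88)⟩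
noncomputable def p116_k47 : C1.Kn := ⟨[nat_lit 20, nat_lit 80, nat_lit 100], [nat_lit 0, nat_lit 2121, nat_lit 3610], [(nat_lit 0, nat_lit 0, nat_lit 0), (nat_lit 1000, nat_lit 558, nat_lit 551), (nat_lit 1000, nat_lit 436, nat_lit 895)], (nat_lit 44, nat_lit 100, nat_lit 90)⟩
noncomputable def p116_k48 : C1.Kn := ⟨[nat_lit 20, nat_lit 80, nat_lit 120], [nat_lit 0, nat_lit 2451, nat_lit 5041], [(nat_lit 0, nat_lit 0, nat_lit 0), (nat_lit 1000, nat_lit 489, nat_lit 638), (nat_lit 1000, nat_lit 411, nat_lit 993)], (nat_lit 40, nat_lit 100, nat_lit 92)⟩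
noncomputable def p116_l0 : Lf2 := ⟨nat_lit 0, nat_lit 30, [nat_lit 15, nat_lit 5, nat_lit 5, nat_lit 20], false, nat_lit 20, nat_lit 80, nat_lit 0, nat_lit 364, ⟨nat_lit 226, nat_lit 0, nat_lit 774, nat_lit 6, nat_lit 209, nat_lit 774, nat_lit 50, nat_lit 774, nat_lit 22817, nat_lit 252, nat_lit 4801, nat_lit 223, nat_lit 51171570, nat_lit 0, nat_lit 0, nat_lit 3232751, false, false⟩,
 nat_lit 0, nat_lit 3371, nat_lit 0, nat_lit 0, nat_lit 3149, nat_lit 2884, nat_lit 0, nat_lit 0, nat_lit 0, nat_lit 190, nat_lit 0, nat_lit 0, nat_lit 0, nat_lit 0, nat_lit 35, nat_lit 193500, nat_lit 0, nat_lit 0, [(nat_lit 29, [(nat_lit 4, nat_lit 774)])],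
 ⟨p116_k0, nat_lit 0, nat_lit 0, nat_lit 362, nat_lit 0, nat_lit 425105, [nat_lit 941466400, nat_lit 226597600, nat_lit 274185600], [], [nat_lit 22259916634, nat_lit 23955736243, nat_lit 23207960573, nat_lit 24907368259, nat_lit 21263213999, nat_lit 22460365211, nat_lit 22244124980, nat_lit 23342788952], nat_lit 1271250, nat_lit 1271250, nat_lit 1000851, nat_lit 1440250, nat_lit 111251, nat_lit 490000, [nat_lit 230000, nat_lit 1100000, nat_lit 1785000], [nat_lit 57, nat_lit 40, nat_lit 40, nat_lit 80, nat_lit 7, nat_lit 289, nat_lit 75, nat_lit 9]⟩, ⟨p116_k1, nat_lit 0, nat_lit 0, nat_lit 414, nat_lit 0, nat_lit 0, [nat_lit 1059488000, nat_lit 2224292000, nat_lit 3706400000], [], [nat_lit 8336997878, nat_lit 8606917314, nat_lit 8260676050, nat_lit 8497654114, nat_lit 7087833062, nat_lit 7162860540, nat_lit 6770245865, nat_lit 6828646292], nat_lit 0, nat_lit 0, nat_lit 0, nat_lit 0, nat_lit 0, nat_lit 0, [], [nat_lit 83, nat_lit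 40, nat_lit 40, nat_lit 80, nat_lit 73, nat_lit 456, nat_lit 225, nat_lit 10]⟩,
 ⟨nat_lit 0, nat_lit 2237, ⟨.ofNat (nat_lit 467180), .ofNat (nat_lit 543695), .ofNat (nat_lit 489028), .ofNat (nat_lit 565543), .ofNat (nat_lit 480752), .ofNat (nat_lit 548146), .ofNat (nat_lit 504825), .ofNat (nat_lit 572220)⟩, ⟨.ofNat (nat_lit 50000), .ofNat (nat_lit 192306), .ofNat (nat_lit 50000), .ofNat (nat_lit 200000), .ofNat (nat_lit 50000), .ofNat (nat_lit 199999), .ofNat (nat_lit 50000), .ofNat (nat_lit 200000)⟩⟩, [⟨nat_lit 0, nat_lit 97, nat_lit 31, nat_lit 100, nat_lit 204523051⟩, ⟨nat_lit 3, nat_lit 100, nat_lit 36, nat_lit 77, nat_lit 419651818⟩, ⟨nat_lit 19, nat_lit 100, nat_lit 72, nat_lit 89, nat_lit 24083505⟩]⟩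
noncomputable def p116_l1 : Lf2 := ⟨nat_lit 0, nat_lit 30, [nat_lit 15, nat_lit 5, nat_lit 5, nat_lit 20], false, nat_lit 20, nat_lit 80, nat_lit 0, nat_lit 352, ⟨nat_lit 1000, nat_lit 0, nat_lit 0, nat_lit 0, nat_lit 0, nat_lit 0, nat_lit 0, nat_lit 0, nat_lit 0, nat_lit 0, nat_lit 0, nat_lit 0, nat_lit 0, nat_lit 0, nat_lit 0, nat_lit 0, false, false⟩,
 nat_lit 0, nat_lit 4091, nat_lit 0, nat_lit 2966, nat_lit 3822, nat_lit 22482, nat_lit 516, nat_lit 0, nat_lit 0, nat_lit 142, nat_lit 0, nat_lit 0, nat_lit 0, nat_lit 0, nat_lit 0, nat_lit 0, nat_lit 0, nat_lit 0, [],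
 ⟨p116_k0, nat_lit 0, nat_lit 0, nat_lit 375, nat_lit 0, nat_lit 483724, [nat_lit 938000000, nat_lit 4688000000, nat_lit 7968000000], [], [nat_lit 23707867692, nat_lit 25754207801, nat_lit 24423302685, nat_lit 26392269402, nat_lit 22126467228, nat_lit 23577742879, nat_lit 22730471072, nat_lit 24165768216], nat_lit 1271250, nat_lit 1271250, nat_lit 1167600, nat_lit 1444000, nat_lit 111251, nat_lit 490000, [nat_lit 230000, nat_lit 1100000, nat_lit 1785000], [nat_lit 57, nat_lit 40, nat_lit 40, nat_lit 80, nat_lit 7, nat_lit 289, nat_lit 75, nat_lit 9]⟩, ⟨p116_k2, nat_lit 0, nat_lit 0, nat_lit 263, nat_lit 0, nat_lit 0, [nat_lit 4688000000, nat_lit 9842000000, nat_lit 14058000000], [], [nat_lit 47456676362, nat_lit 49635223625, nat_lit 47421373408, nat_lit 49403371400, nat_lit 34134323342, nat_lit 35953668322, nat_lit 33750138946, nat_lit 35844493665], nat_lit 0, nat_lit 0, nat_lit 0, nat_lit 0, nat_lit 0, nat_lit 0, [], [nat_lit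 56, nat_lit 40, nat_lit 40, nat_lit 80, nat_lit 32, nat_lit 456, nat_lit 225, nat_lit 10]⟩,
 zbF0, [⟨nat_lit 0, nat_lit 96, nat_lit 44, nat_lit 100, nat_lit 1004796809⟩]⟩
noncomputable def p116_l2 : Lf2 := ⟨nat_lit 0, nat_lit 30, [nat_lit 15, nat_lit 5, nat_lit 5, nat_lit 20], false, nat_lit 20, nat_lit 80, nat_lit 0, nat_lit 360, ⟨nat_lit 597, nat_lit 0, nat_lit 403, nat_lit 6, nat_lit 239, nat_lit 403, nat_lit 49, nat_lit 403, nat_lit 22817, nat_lit 252, nat_lit 24782, nat_lit 200, nat_lit 48044333, nat_lit 0, nat_lit 0, nat_lit 3496048, true, false⟩,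
 nat_lit 0, nat_lit 3319, nat_lit 0, nat_lit 0, nat_lit 3101, nat_lit 7412, nat_lit 213, nat_lit 0, nat_lit 0, nat_lit 486, nat_lit 0, nat_lit 0, nat_lit 0, nat_lit 0, nat_lit 0, nat_lit 161200, nat_lit 0, nat_lit 0, [(nat_lit 29, [(nat_lit 5, nat_lit 403)])],
 ⟨p116_k0, nat_lit 0, nat_lit 0, nat_lit 311, nat_lit 0, nat_lit 404087, [nat_lit 799206801, nat_lit 1611917120, nat_lit 2732707600], [], [nat_lit 23274282003, nat_lit 23933098573, nat_lit 24405003100, nat_lit 25218962219, nat_lit 22220013647, nat_lit 22777911355, nat_lit 23244071475, nat_lit 23809961825], nat_lit 1271250, nat_lit 1271250, nat_lit 1271250, nat_lit 1271250, nat_lit 111251, nat_lit 490000, [nat_lit 230000, nat_lit 1100000, nat_lit 1785000], [nat_lit 57, nat_lit 40, nat_lit 40, nat_lit 80, nat_lit 7, nat_lit 317, nat_lit 100, nat_lit 10]⟩, ⟨p116_k1, nat_lit 0, nat_lit 0, nat_lit 304, nat_lit 0, nat_lit 0, [nat_lit 2798736000, nat_lit 5875674000, nat_lit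 9790800000], [], [nat_lit 21899532902, nat_lit 23135246598, nat_lit 22493693662, nat_lit 23568161994, nat_lit 18039446136, nat_lit 18368993064, nat_lit 17939824264, nat_lit 19089909368], nat_lit 0, nat_lit 0, nat_lit 0, nat_lit 0, nat_lit 0, nat_lit 0, [], [nat_lit 83, nat_lit 40, nat_lit 40, nat_lit 80, nat_lit 73, nat_lit 456, nat_lit 225, nat_lit 10]⟩,
 ⟨nat_lit 1581, nat_lit 2237, ⟨.ofNat (nat_lit 545457), .ofNat (nat_lit 602558), .ofNat (nat_lit 590915), .ofNat (nat_lit 648016), .ofNat (nat_lit 546538), .ofNat (nat_lit 601260), .ofNat (nat_lit 593078), .ofNat (nat_lit 647799)⟩, ⟨.ofNat (nat_lit 50000), .ofNat (nat_lit 192306), .ofNat (nat_lit 50000), .ofNat (nat_lit 200000), .ofNat (nat_lit 50000), .ofNat (nat_lit 196201), .ofNat (nat_lit 50000), .ofNat (nat_lit 200000)⟩⟩, [⟨nat_lit 3, nat_lit 100, nat_lit 34, nat_lit 81, nat_lit 10046879⟩, ⟨nat_lit 22, nat_lit 100, nat_lit 82, nat_lit 66, nat_lit 76044837⟩]⟩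
noncomputable def p116_l3 : Lf2 := ⟨nat_lit 0, nat_lit 30, [nat_lit 15, nat_lit 5, nat_lit 5, nat_lit 20], false, nat_lit 36, nat_lit 80, nat_lit 0, nat_lit 360, ⟨nat_lit 435, nat_lit 0, nat_lit 565, nat_lit 6, nat_lit 239, nat_lit 565, nat_lit 58, nat_lit 565, nat_lit 30817, nat_lit 258, nat_lit 26116, nat_lit 200, nat_lit 47678586, nat_lit 0, nat_lit 0, nat_lit 3614083, true, false⟩,
 nat_lit 0, nat_lit 3007, nat_lit 0, nat_lit 0, nat_lit 2907, nat_lit 7086, nat_lit 0, nat_lit 0, nat_lit 0, nat_lit 280, nat_lit 0, nat_lit 0, nat_lit 0, nat_lit 0, nat_lit 0, nat_lit 224500, nat_lit 0, nat_lit 0, [(nat_lit 29, [(nat_lit 4, nat_lit 10), (nat_lit 5, nat_lit 555)])],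
 ⟨p116_k3, nat_lit 0, nat_lit 0, nat_lit 300, nat_lit 0, nat_lit 462178, [nat_lit 745094000, nat_lit 472338667, nat_lit 299592000], [], [nat_lit 23190972118, nat_lit 23975806160, nat_lit 24421778979, nat_lit 25202499064, nat_lit 22890105808, nat_lit 23454471544, nat_lit 23934550538, nat_lit 24465220936], nat_lit 1271250, nat_lit 1271250, nat_lit 1271250, nat_lit 1271250, nat_lit 205650, nat_lit 490000, [nat_lit 230000, nat_lit 780000, nat_lit 1435000], [nat_lit 20, nat_lit 40, nat_lit 40, nat_lit 80, nat_lit 16, nat_lit 226, nat_lit 20, nat_lit 7]⟩, ⟨p116_k4, nat_lit 0, nat_lit 0, nat_lit 288, nat_lit 0, nat_lit 0, [nat_lit 2039280000, nat_lit 3466080000, nat_lit 7134000000], [], [nat_lit 19881721628, nat_lit 20915119628, nat_lit 20312657444, nat_lit 21196463576, nat_lit 15175991942, nat_lit 15370952258, nat_lit 14970113042, nat_lit 15086983332], nat_lit 0, nat_lit 0, nat_lit 0, nat_lit 0, nat_lit 0, nat_lit 0, [], [nat_lit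 122, nat_lit 40, nat_lit 40, nat_lit 80, nat_lit 111, nat_lit 456, nat_lit 225, nat_lit 10]⟩,
 ⟨nat_lit 0, nat_lit 1582, ⟨.ofNat (nat_lit 545316), .ofNat (nat_lit 601257), .ofNat (nat_lit 590632), .ofNat (nat_lit 646579), .ofNat (nat_lit 548686), .ofNat (nat_lit 599992), .ofNat (nat_lit 597372), .ofNat (nat_lit 648683)⟩, ⟨.ofNat (nat_lit 90000), .ofNat (nat_lit 196201), .ofNat (nat_lit 90000), .ofNat (nat_lit 200000), .ofNat (nat_lit 90000), .ofNat (nat_lit 199999), .ofNat (nat_lit 90000), .ofNat (nat_lit 200000)⟩⟩, [⟨nat_lit 0, nat_lit 96, nat_lit 22, nat_lit 100, nat_lit 353627955⟩, ⟨nat_lit 3, nat_lit 100, nat_lit 26, nat_lit 85, nat_lit 168024208⟩]⟩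
noncomputable def p116_l4 : Lf2 := ⟨nat_lit 0, nat_lit 30, [nat_lit 15, nat_lit 5, nat_lit 5, nat_lit 20], false, nat_lit 80, nat_lit 160, nat_lit 0, nat_lit 364, ⟨nat_lit 185, nat_lit 0, nat_lit 815, nat_lit 6, nat_lit 220, nat_lit 815, nat_lit 105, nat_lit 815, nat_lit 104017, nat_lit 294, nat_lit 4336, nat_lit 204, nat_lit 47135566, nat_lit 0, nat_lit 0, nat_lit 4098301, false, false⟩,
 nat_lit 0, nat_lit 3166, nat_lit 0, nat_lit 0, nat_lit 2958, nat_lit 2228, nat_lit 0, nat_lit 0, nat_lit 0, nat_lit 144, nat_lit 0, nat_lit 0, nat_lit 0, nat_lit 0, nat_lit 54, nat_lit 203750, nat_lit 0, nat_lit 0, [(nat_lit 29, [(nat_lit 4, nat_lit 815)])],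
 ⟨p116_k0, nat_lit 0, nat_lit 0, nat_lit 261, nat_lit 0, nat_lit 342556, [nat_lit 1010234001, nat_lit 264606000, nat_lit 278136000], [], [nat_lit 20749568390, nat_lit 21356038076, nat_lit 22786785968, nat_lit 23420832296, nat_lit 21553284342, nat_lit 22104968657, nat_lit 23421428164, nat_lit 23903843520], nat_lit 1271250, nat_lit 1271250, nat_lit 1000851, nat_lit 1778250, nat_lit 490000, nat_lit 1100001, [nat_lit 230000, nat_lit 1100000, nat_lit 1785000], [nat_lit 57, nat_lit 40, nat_lit 40, nat_lit 80, nat_lit 7, nat_lit 317, nat_lit 100, nat_lit 10]⟩, ⟨p116_k1, nat_lit 0, nat_lit 0, nat_lit 414, nat_lit 0, nat_lit 0, [nat_lit 867280000, nat_lit 1820770000, nat_lit 3034000000], [], [nat_lit 6880890648, nat_lit 7095290328, nat_lit 7018792972, nat_lit 7183211450, nat_lit 5997114511, nat_lit 6059709125, nat_lit 5732374089, nat_lit 5768675052], nat_lit 0, nat_lit 0, nat_lit 0, nat_lit 0, nat_lit 0, nat_lit 0, [], [nat_lit 83,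 nat_lit 40, nat_lit 40, nat_lit 80, nat_lit 73, nat_lit 456, nat_lit 225, nat_lit 10]⟩,
 ⟨nat_lit 1581, nat_lit 2237, ⟨.ofNat (nat_lit 471225), .ofNat (nat_lit 602558), .ofNat (nat_lit 493955), .ofNat (nat_lit 625287), .ofNat (nat_lit 475401), .ofNat (nat_lit 601260), .ofNat (nat_lit 498671), .ofNat (nat_lit 624529)⟩, ⟨.ofNat (nat_lit 192306), .ofNat (nat_lit 306337), .ofNat (nat_lit 200000), .ofNat (nat_lit 351886), .ofNat (nat_lit 196201), .ofNat (nat_lit 305473), .ofNat (nat_lit 200000), .ofNat (nat_lit 352103)⟩⟩, [⟨nat_lit 4, nat_lit 100, nat_lit 38, nat_lit 87, nat_lit 64999619⟩, ⟨nat_lit 7, nat_lit 72, nat_lit 100, nat_lit 89, nat_lit 18773683⟩]⟩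
noncomputable def p116_l5 : Lf2 := ⟨nat_lit 0, nat_lit 30, [nat_lit 15, nat_lit 5, nat_lit 5, nat_lit 20], false, nat_lit 80, nat_lit 160, nat_lit 0, nat_lit 364, ⟨nat_lit 206, nat_lit 265, nat_lit 529, nat_lit 6, nat_lit 228, nat_lit 794, nat_lit 105, nat_lit 528, nat_lit 104017, nat_lit 294, nat_lit 2404, nat_lit 204, nat_lit 46372170, nat_lit 15883376, nat_lit 4744454, nat_lit 4160530, true, false⟩,
 nat_lit 0, nat_lit 3235, nat_lit 0, nat_lit 0, nat_lit 3128, nat_lit 3585, nat_lit 0, nat_lit 0, nat_lit 0, nat_lit 129, nat_lit 0, nat_lit 0, nat_lit 0, nat_lit 0, nat_lit 0, nat_lit 198500, nat_lit 0, nat_lit 0, [(nat_lit 29, [(nat_lit 0, nat_lit 265), (nat_lit 4, nat_lit 529)])],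
 ⟨p116_k3, nat_lit 0, nat_lit 0, nat_lit 236, nat_lit 0, nat_lit 406235, [nat_lit 803238401, nat_lit 417440267, nat_lit 373858000], [], [nat_lit 22008112933, nat_lit 22705140164, nat_lit 23644741336, nat_lit 24431951328, nat_lit 22786980033, nat_lit 23352682012, nat_lit 24231037621, nat_lit 24763968160], nat_lit 1271250, nat_lit 1271250, nat_lit 1236400, nat_lit 1794000, nat_lit 490000, nat_lit 1100001, [nat_lit 230000, nat_lit 780000, nat_lit 1435000], [nat_lit 20, nat_lit 40, nat_lit 40, nat_lit 80, nat_lit 16, nat_lit 317, nat_lit 100, nat_lit 11]⟩, ⟨p116_k4, nat_lit 0, nat_lit 0, nat_lit 403, nat_lit 0, nat_lit 0, [nat_lit 965728000, nat_lit 1641408000, nat_lit 3378400000], [], [nat_lit 9719652235, nat_lit 9992568928, nat_lit 9882755157, nat_lit 10098889449, nat_lit 7443927311, nat_lit 7493291682, nat_lit 7135778981, nat_lit 7155492026], nat_lit 0, nat_lit 0, nat_lit 0, nat_lit 0, nat_lit 0, nat_lit 0, [], [nat_lit 122,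 nat_lit 40, nat_lit 40, nat_lit 80, nat_lit 111, nat_lit 456, nat_lit 225, nat_lit 10]⟩,
 ⟨nat_lit 0, nat_lit 1582, ⟨.ofNat (nat_lit 511747), .ofNat (nat_lit 601257), .ofNat (nat_lit 534406), .ofNat (nat_lit 623921), .ofNat (nat_lit 517899), .ofNat (nat_lit 599992), .ofNat (nat_lit 542242), .ofNat (nat_lit 624340)⟩, ⟨.ofNat (nat_lit 196201), .ofNat (nat_lit 305469), .ofNat (nat_lit 200000), .ofNat (nat_lit 352101), .ofNat (nat_lit 199999), .ofNat (nat_lit 299995), .ofNat (nat_lit 200000), .ofNat (nat_lit 349997)⟩⟩, [⟨nat_lit 0, nat_lit 97, nat_lit 22, nat_lit 100, nat_lit 170759935⟩, ⟨nat_lit 4, nat_lit 100, nat_lit 23, nat_lit 91, nat_lit 206800345⟩]⟩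
noncomputable def p116_l6 : Lf2 := ⟨nat_lit 0, nat_lit 30, [nat_lit 15, nat_lit 5, nat_lit 5, nat_lit 20], true, nat_lit 160, nat_lit 208, nat_lit 0, nat_lit 364, ⟨nat_lit 0, nat_lit 341, nat_lit 659, nat_lit 6, nat_lit 217, nat_lit 1000, nat_lit 144, nat_lit 659, nat_lit 194400, nat_lit 323, nat_lit 4783, nat_lit 208, nat_lit 44955472, nat_lit 14493666, nat_lit 7550862, nat_lit 4528184, false, false⟩,
 nat_lit 0, nat_lit 3114, nat_lit 0, nat_lit 0, nat_lit 2909, nat_lit 0, nat_lit 0, nat_lit 0, nat_lit 0, nat_lit 0, nat_lit 0, nat_lit 0, nat_lit 0, nat_lit 0, nat_lit 61, nat_lit 250000, nat_lit 0, nat_lit 0, [(nat_lit 29, [(nat_lit 0, nat_lit 341), (nat_lit 4, nat_lit 659)])],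
 ⟨p116_k0, nat_lit 0, nat_lit 0, nat_lit 257, nat_lit 0, nat_lit 400769, [nat_lit 1012420001, nat_lit 319704801, nat_lit 137725200], [], [nat_lit 21243725535, nat_lit 22389068272, nat_lit 23163214610, nat_lit 24541744480, nat_lit 22285466667, nat_lit 23606153072, nat_lit 24310864814, nat_lit 25588570526], nat_lit 1271250, nat_lit 1271250, nat_lit 1000851, nat_lit 1778250, nat_lit 1100001, nat_lit 1511000, [nat_lit 230000, nat_lit 1100000, nat_lit 1785000], [nat_lit 57, nat_lit 40, nat_lit 40, nat_lit 80, nat_lit 7, nat_lit 345, nat_lit 125, nat_lit 10]⟩, C1.Rw.none,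
 ⟨nat_lit 0, nat_lit 2237, ⟨.ofNat (nat_lit 467180), .ofNat (nat_lit 602531), .ofNat (nat_lit 478104), .ofNat (nat_lit 613477), .ofNat (nat_lit 480752), .ofNat (nat_lit 599967), .ofNat (nat_lit 492789), .ofNat (nat_lit 612026)⟩, ⟨.ofNat (nat_lit 306334), .ofNat (nat_lit 374750), .ofNat (nat_lit 351885), .ofNat (nat_lit 420300), .ofNat (nat_lit 299996), .ofNat (nat_lit 359993), .ofNat (nat_lit 349998), .ofNat (nat_lit 409994)⟩⟩, [⟨nat_lit 4, nat_lit 100, nat_lit 32, nat_lit 88, nat_lit 448523397⟩]⟩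
noncomputable def p116_l7 : Lf2 := ⟨nat_lit 0, nat_lit 30, [nat_lit 15, nat_lit 5, nat_lit 5, nat_lit 20], false, nat_lit 160, nat_lit 208, nat_lit 0, nat_lit 360, ⟨nat_lit 194, nat_lit 0, nat_lit 806, nat_lit 6, nat_lit 225, nat_lit 806, nat_lit 144, nat_lit 806, nat_lit 194400, nat_lit 323, nat_lit 2526, nat_lit 204, nat_lit 44278047, nat_lit 0, nat_lit 0, nat_lit 4584225, false, false⟩,
 nat_lit 0, nat_lit 3330, nat_lit 0, nat_lit 0, nat_lit 3111, nat_lit 3924, nat_lit 0, nat_lit 0, nat_lit 0, nat_lit 0, nat_lit 0, nat_lit 0, nat_lit 0, nat_lit 0, nat_lit 50, nat_lit 201500, nat_lit 0, nat_lit 0, [(nat_lit 29, [(nat_lit 4, nat_lit 806)])],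
 ⟨p116_k0, nat_lit 0, nat_lit 0, nat_lit 262, nat_lit 0, nat_lit 425105, [nat_lit 995821600, nat_lit 258994400, nat_lit 281366400], [], [nat_lit 21494755746, nat_lit 22747369448, nat_lit 23323863190, nat_lit 24746717920, nat_lit 22517060811, nat_lit 23946978532, nat_lit 24467181706, nat_lit 25784473843], nat_lit 1271250, nat_lit 1271250, nat_lit 1100001, nat_lit 1785000, nat_lit 1100001, nat_lit 1511000, [nat_lit 230000, nat_lit 1100000, nat_lit 1785000], [nat_lit 57, nat_lit 40, nat_lit 40, nat_lit 80, nat_lit 7, nat_lit 345, nat_lit 125, nat_lit 10]⟩, ⟨p116_k5, nat_lit 0, nat_lit 0, nat_lit 259, nat_lit 0, nat_lit 0, [nat_lit 909472000, nat_lit 1909348000, nat_lit 2727252000], [], [nat_lit 9088355368, nat_lit 9288539544, nat_lit 9456884134, nat_lit 9610648700, nat_lit 7288472632, nat_lit 7339914220, nat_lit 6917396590, nat_lit 6954329430], nat_lit 0, nat_lit 0, nat_lit 0, nat_lit 0, nat_lit 0, nat_lit 0, [], [nat_lit 56,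 nat_lit 40, nat_lit 40, nat_lit 80, nat_lit 32, nat_lit 456, nat_lit 225, nat_lit 10]⟩,
 ⟨nat_lit 0, nat_lit 2237, ⟨.ofNat (nat_lit 495761), .ofNat (nat_lit 613477), .ofNat (nat_lit 506686), .ofNat (nat_lit 624400), .ofNat (nat_lit 508341), .ofNat (nat_lit 612026), .ofNat (nat_lit 520378), .ofNat (nat_lit 624062)⟩, ⟨.ofNat (nat_lit 306334), .ofNat (nat_lit 374750), .ofNat (nat_lit 351885), .ofNat (nat_lit 420300), .ofNat (nat_lit 299996), .ofNat (nat_lit 359993), .ofNat (nat_lit 349998), .ofNat (nat_lit 409994)⟩⟩, [⟨nat_lit 16, nat_lit 32, nat_lit 100, nat_lit 88, nat_lit 392358138⟩, ⟨nat_lit 16, nat_lit 44, nat_lit 100, nat_lit 92, nat_lit 92435742⟩, ⟨nat_lit 19, nat_lit 100, nat_lit 64, nat_lit 95, nat_lit 1037265⟩]⟩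
noncomputable def p116_l8 : Lf2 := ⟨nat_lit 0, nat_lit 30, [nat_lit 15, nat_lit 5, nat_lit 5, nat_lit 20], false, nat_lit 80, nat_lit 208, nat_lit 0, nat_lit 352, ⟨nat_lit 329, nat_lit 0, nat_lit 671, nat_lit 6, nat_lit 223, nat_lit 671, nat_lit 118, nat_lit 671, nat_lit 129067, nat_lit 303, nat_lit 4820, nat_lit 214, nat_lit 46045121, nat_lit 0, nat_lit 0, nat_lit 4281587, false, false⟩,
 nat_lit 0, nat_lit 3485, nat_lit 0, nat_lit 0, nat_lit 3256, nat_lit 6599, nat_lit 80, nat_lit 0, nat_lit 0, nat_lit 43, nat_lit 0, nat_lit 0, nat_lit 0, nat_lit 0, nat_lit 0, nat_lit 167750, nat_lit 0, nat_lit 0, [(nat_lit 29, [(nat_lit 4, nat_lit 671)])],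
 ⟨p116_k0, nat_lit 0, nat_lit 0, nat_lit 306, nat_lit 0, nat_lit 483724, [nat_lit 819635601, nat_lit 334820401, nat_lit 569822400], [], [nat_lit 21318131549, nat_lit 22677535924, nat_lit 21964808656, nat_lit 23371880768, nat_lit 22871670685, nat_lit 24247881777, nat_lit 23412233572, nat_lit 24857331623], nat_lit 1271250, nat_lit 1271250, nat_lit 1167600, nat_lit 1444000, nat_lit 490000, nat_lit 1490000, [nat_lit 230000, nat_lit 1100000, nat_lit 1785000], [nat_lit 57, nat_lit 40, nat_lit 40, nat_lit 80, nat_lit 7, nat_lit 345, nat_lit 125, nat_lit 10]⟩, ⟨p116_k2, nat_lit 0, nat_lit 0, nat_lit 263, nat_lit 0, nat_lit 0, [nat_lit 1542352000, nat_lit 3238018000, nat_lit 4625082000], [], [nat_lit 15152424110, nat_lit 15812806745, nat_lit 15170100330, nat_lit 15772284380, nat_lit 11513247039, nat_lit 11697011609, nat_lit 11129915286, nat_lit 11301887683], nat_lit 0, nat_lit 0, nat_lit 0, nat_lit 0, nat_lit 0, nat_lit 0, [], [nat_lit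 56, nat_lit 40, nat_lit 40, nat_lit 80, nat_lit 32, nat_lit 456, nat_lit 225, nat_lit 10]⟩,
 ⟨nat_lit 0, nat_lit 2237, ⟨.ofNat (nat_lit 518456), .ofNat (nat_lit 565543), .ofNat (nat_lit 540305), .ofNat (nat_lit 587391), .ofNat (nat_lit 530746), .ofNat (nat_lit 572220), .ofNat (nat_lit 554820), .ofNat (nat_lit 596294)⟩, ⟨.ofNat (nat_lit 192306), .ofNat (nat_lit 374750), .ofNat (nat_lit 200000), .ofNat (nat_lit 420300), .ofNat (nat_lit 199999), .ofNat (nat_lit 359993), .ofNat (nat_lit 200000), .ofNat (nat_lit 409994)⟩⟩, [⟨nat_lit 0, nat_lit 96, nat_lit 44, nat_lit 100, nat_lit 342060077⟩, ⟨nat_lit 16, nat_lit 44, nat_lit 100, nat_lit 92, nat_lit 181910580⟩, ⟨nat_lit 4, nat_lit 100, nat_lit 32, nat_lit 88, nat_lit 51301120⟩]⟩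
noncomputable def p116_l9 : Lf2 := ⟨nat_lit 0, nat_lit 30, [nat_lit 15, nat_lit 5, nat_lit 5, nat_lit 20], false, nat_lit 80, nat_lit 208, nat_lit 0, nat_lit 352, ⟨nat_lit 794, nat_lit 0, nat_lit 206, nat_lit 6, nat_lit 243, nat_lit 206, nat_lit 118, nat_lit 206, nat_lit 129067, nat_lit 303, nat_lit 25022, nat_lit 200, nat_lit 44231844, nat_lit 0, nat_lit 0, nat_lit 4416349, true, false⟩,
 nat_lit 0, nat_lit 3931, nat_lit 0, nat_lit 3225, nat_lit 3673, nat_lit 15909, nat_lit 382, nat_lit 0, nat_lit 0, nat_lit 103, nat_lit 0, nat_lit 0, nat_lit 0, nat_lit 0, nat_lit 0, nat_lit 40170, nat_lit 0, nat_lit 0, [(nat_lit 29, [(nat_lit 3, nat_lit 206)])],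
 ⟨p116_k0, nat_lit 0, nat_lit 0, nat_lit 300, nat_lit 0, nat_lit 483724, [nat_lit 980765601, nat_lit 3440464001, nat_lit 5845293600], [], [nat_lit 22643200648, nat_lit 24014832964, nat_lit 23730664074, nat_lit 25218264248, nat_lit 23927565720, nat_lit 25257389080, nat_lit 24902083158, nat_lit 26329511784], nat_lit 1271250, nat_lit 1271250, nat_lit 1271250, nat_lit 1271250, nat_lit 490000, nat_lit 1490000, [nat_lit 230000, nat_lit 1100000, nat_lit 1785000], [nat_lit 57, nat_lit 40, nat_lit 40, nat_lit 80, nat_lit 7, nat_lit 345, nat_lit 125, nat_lit 10]⟩, ⟨p116_k2, nat_lit 0, nat_lit 0, nat_lit 256, nat_lit 0, nat_lit 0, [nat_lit 3722272000, nat_lit 7814548000, nat_lit 11162052000], [], [nat_lit 36611207260, nat_lit 38063448180, nat_lit 37878223230, nat_lit 39129189032, nat_lit 26877348504, nat_lit 27265305727, nat_lit 27127894027, nat_lit 28450605138], nat_lit 0, nat_lit 0, nat_lit 0, nat_lit 0, nat_lit 0, nat_lit 0, [], [nat_lit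 56, nat_lit 40, nat_lit 40, nat_lit 80, nat_lit 32, nat_lit 456, nat_lit 225, nat_lit 10]⟩,
 ⟨nat_lit 0, nat_lit 2237, ⟨.ofNat (nat_lit 565543), .ofNat (nat_lit 624400), .ofNat (nat_lit 587391), .ofNat (nat_lit 646249), .ofNat (nat_lit 572220), .ofNat (nat_lit 624062), .ofNat (nat_lit 596294), .ofNat (nat_lit 648136)⟩, ⟨.ofNat (nat_lit 192306), .ofNat (nat_lit 374750), .ofNat (nat_lit 200000), .ofNat (nat_lit 420300), .ofNat (nat_lit 199999), .ofNat (nat_lit 359993), .ofNat (nat_lit 200000), .ofNat (nat_lit 409994)⟩⟩, [⟨nat_lit 16, nat_lit 32, nat_lit 100, nat_lit 88, nat_lit 522273299⟩, ⟨nat_lit 16, nat_lit 44, nat_lit 100, nat_lit 92, nat_lit 88963074⟩]⟩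
noncomputable def b_V_900_600_20_59 : St := ⟨true, nat_lit 1, nat_lit 0, nat_lit 1, nat_lit 120, nat_lit 380, nat_lit 400, nat_lit 240, nat_lit 280, nat_lit 112, nat_lit 240, nat_lit 80, nat_lit 120, nat_lit 8, nat_lit 248, nat_lit 0, nat_lit 364, nat_lit 80, nat_lit 120, nat_lit 0, nat_lit 0, nat_lit 0, nat_lit 0⟩
theorem d_V_900_600_20_59 (h : EB TB.env) : Dead b_V_900_600_20_59 := chkB_sound0 h (T :=
(.trZ (nat_lit 0) (nat_lit 100) (nat_lit 44) (nat_lit 99) (nat_lit 148) (.trZ (nat_lit 3) (nat_lit 100) (nat_lit 54) (nat_lit 57) (nat_lit 20) (.trX (nat_lit 16) (nat_lit 44) (nat_lit 100) (nat_lit 92) (nat_lit 208) (.spl (nat_lit 4) (nat_lit 80)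
(.spl (nat_lit 2) (nat_lit 200)
(.spl (nat_lit 1) (nat_lit 260)
(.leaf p116_l0)
(.trZ (nat_lit 0) (nat_lit 96) (nat_lit 44) (nat_lit 100) (nat_lit 168) (.trX (nat_lit 19) (nat_lit 100) (nat_lit 69) (nat_lit 96) (nat_lit 352) (.leaf p116_l1))))
(.trX (nat_lit 22) (nat_lit 100) (nat_lit 60) (nat_lit 80) (nat_lit 360) (.spl (nat_lit 0) (nat_lit 390)
(.leaf p116_l2)
(.trZ (nat_lit 3) (nat_lit 100) (nat_lit 39) (nat_lit 72) (nat_lit 36) (.leaf p116_l3)))))
(.spl (nat_lit 1) (nat_lit 260)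
(.spl (nat_lit 4) (nat_lit 160)
(.spl (nat_lit 0) (nat_lit 390)
(.leaf p116_l4)
(.trZ (nat_lit 0) (nat_lit 99) (nat_lit 31) (nat_lit 100) (nat_lit 176) (.leaf p116_l5)))
(.spl (nat_lit 1) (nat_lit 250)
(.leaf p116_l6)
(.trZ (nat_lit 0) (nat_lit 99) (nat_lit 44) (nat_lit 100) (nat_lit 160) (.trX (nat_lit 19) (nat_lit 100) (nat_lit 64) (nat_lit 95) (nat_lit 360) (.leaf p116_l7)))))
(.trZ (nat_lit 0) (nat_lit 96) (nat_lit 44) (nat_lit 100) (nat_lit 168) (.trX (nat_lit 19) (nat_lit 100) (nat_lit 69) (nat_lit 96) (nat_lit 352) (.spl (nat_lit 2) (nat_lit 200)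
(.leaf p116_l8)
(.leaf p116_l9)))))))))) (by decide +kernel)
noncomputable def p116_l10 : Lf2 := ⟨nat_lit 0, nat_lit 30, [nat_lit 15, nat_lit 5, nat_lit 5, nat_lit 20], false, nat_lit 8, nat_lit 248, nat_lit 0, nat_lit 160, ⟨nat_lit 1000, nat_lit 0, nat_lit 0, nat_lit 0, nat_lit 0, nat_lit 0, nat_lit 0, nat_lit 0, nat_lit 0, nat_lit 0, nat_lit 0, nat_lit 0, nat_lit 0, nat_lit 0, nat_lit 0, nat_lit 0, false, false⟩,
 nat_lit 0, nat_lit 7205, nat_lit 0, nat_lit 0, nat_lit 6275, nat_lit 6003, nat_lit 236, nat_lit 0, nat_lit 0, nat_lit 728, nat_lit 0, nat_lit 0, nat_lit 0, nat_lit 0, nat_lit 0, nat_lit 0, nat_lit 0, nat_lit 0, [],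
 ⟨p116_k6, nat_lit 0, nat_lit 0, nat_lit 439, nat_lit 0, nat_lit 531809, [nat_lit 938000000, nat_lit 4688000000, nat_lit 9842000000], [], [nat_lit 34776131741, nat_lit 36783882480, nat_lit 39951698535, nat_lit 42265430702, nat_lit 32363870230, nat_lit 33828218490, nat_lit 35165451403, nat_lit 36695627723], nat_lit 1271250, nat_lit 1271250, nat_lit 1271250, nat_lit 1271250, nat_lit 43600, nat_lit 1756600, [nat_lit 230000, nat_lit 1100000, nat_lit 2127500], [nat_lit 81, nat_lit 40, nat_lit 40, nat_lit 80, nat_lit 13, nat_lit 401, nat_lit 175, nat_lit 11]⟩, ⟨p116_k1, nat_lit 0, nat_lit 0, nat_lit 317, nat_lit 0, nat_lit 0, [nat_lit 4688000000, nat_lit 9842000000, nat_lit 16400000000], [], [nat_lit 33125180652, nat_lit 34541036268, nat_lit 39271921761, nat_lit 40087559320, nat_lit 28805114608, nat_lit 29853208620, nat_lit 34363975047, nat_lit 35404133997], nat_lit 0, nat_lit 0, nat_lit 0, nat_lit 0, nat_lit 0, nat_lit 0, [], [nat_lit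 83, nat_lit 40, nat_lit 40, nat_lit 80, nat_lit 73, nat_lit 456, nat_lit 225, nat_lit 9]⟩,
 zbF0, [⟨nat_lit 4, nat_lit 100, nat_lit 44, nat_lit 87, nat_lit 282940962⟩]⟩
noncomputable def p116_l11 : Lf2 := ⟨nat_lit 0, nat_lit 30, [nat_lit 15, nat_lit 5, nat_lit 5, nat_lit 20], false, nat_lit 8, nat_lit 248, nat_lit 160, nat_lit 364, ⟨nat_lit 1000, nat_lit 0, nat_lit 0, nat_lit 0, nat_lit 0, nat_lit 0, nat_lit 0, nat_lit 0, nat_lit 0, nat_lit 0, nat_lit 0, nat_lit 0, nat_lit 0, nat_lit 0, nat_lit 0, nat_lit 0, false, false⟩,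
 nat_lit 0, nat_lit 7176, nat_lit 0, nat_lit 0, nat_lit 6250, nat_lit 5437, nat_lit 400, nat_lit 0, nat_lit 0, nat_lit 0, nat_lit 0, nat_lit 0, nat_lit 0, nat_lit 0, nat_lit 0, nat_lit 0, nat_lit 0, nat_lit 0, [],
 ⟨p116_k6, nat_lit 0, nat_lit 0, nat_lit 439, nat_lit 0, nat_lit 531809, [nat_lit 938000000, nat_lit 4688000000, nat_lit 9842000000], [], [nat_lit 32317146201, nat_lit 34320913200, nat_lit 38844380060, nat_lit 42189452660, nat_lit 29930162500, nat_lit 31392197500, nat_lit 33379167501, nat_lit 35867316061], nat_lit 1271250, nat_lit 1271250, nat_lit 1271250, nat_lit 1271250, nat_lit 43600, nat_lit 1756600, [nat_lit 230000, nat_lit 1100000, nat_lit 2127500], [nat_lit 81, nat_lit 40, nat_lit 40, nat_lit 80, nat_lit 13, nat_lit 401, nat_lit 175, nat_lit 11]⟩, ⟨p116_k1, nat_lit 0, nat_lit 0, nat_lit 107, nat_lit 0, nat_lit 0, [nat_lit 4688000000, nat_lit 9842000000, nat_lit 16400000000], [], [nat_lit 16049436688, nat_lit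 18568910940, nat_lit 25785283327, nat_lit 27382350959, nat_lit 26692987358, nat_lit 28108525740, nat_lit 32560508529, nat_lit 33555594583], nat_lit 0, nat_lit 0, nat_lit 0, nat_lit 0, nat_lit 0, nat_lit 0, [], [nat_lit 83, nat_lit 40, nat_lit 40, nat_lit 80, nat_lit 73, nat_lit 538, nat_lit 300, nat_lit 11]⟩,
 zbF0, [⟨nat_lit 16, nat_lit 44, nat_lit 100, nat_lit 87, nat_lit 465454770⟩, ⟨nat_lit 19, nat_lit 100, nat_lit 59, nat_lit 94, nat_lit 281893987⟩, ⟨nat_lit 10, nat_lit 57, nat_lit 84, nat_lit 100, nat_lit 144739743⟩]⟩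
noncomputable def b_V_900_600_20_60 : St := ⟨true, nat_lit 1, nat_lit 0, nat_lit 1, nat_lit 120, nat_lit 360, nat_lit 400, nat_lit 240, nat_lit 280, nat_lit 240, nat_lit 376, nat_lit 80, nat_lit 120, nat_lit 8, nat_lit 248, nat_lit 0, nat_lit 364, nat_lit 80, nat_lit 120, nat_lit 0, nat_lit 0, nat_lit 0, nat_lit 0⟩
theorem d_V_900_600_20_60 (h : EB TB.env) : Dead b_V_900_600_20_60 := chkB_sound0 h (T :=
(.spl (nat_lit 5) (nat_lit 160)
(.leaf p116_l10)
(.leaf p116_l11))) (by decide +kernel)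
noncomputable def p116_l12 : Lf2 := ⟨nat_lit 0, nat_lit 25, [nat_lit 44, nat_lit 5, nat_lit 5, nat_lit 20], true, nat_lit 8, nat_lit 80, nat_lit 0, nat_lit 352, ⟨nat_lit 0, nat_lit 0, nat_lit 1000, nat_lit 6, nat_lit 189, nat_lit 1000, nat_lit 43, nat_lit 1000, nat_lit 17067, nat_lit 247, nat_lit 15023, nat_lit 241, nat_lit 53487445, nat_lit 0, nat_lit 0, nat_lit 2924313, false, false⟩,
 nat_lit 0, nat_lit 2957, nat_lit 0, nat_lit 0, nat_lit 2575, nat_lit 0, nat_lit 0, nat_lit 0, nat_lit 0, nat_lit 0, nat_lit 0, nat_lit 0, nat_lit 0, nat_lit 0, nat_lit 108, nat_lit 250000, nat_lit 0, nat_lit 0, [(nat_lit 26, [(nat_lit 4, nat_lit 1000)])],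
 ⟨p116_k7, nat_lit 0, nat_lit 0, nat_lit 316, nat_lit 0, nat_lit 345492, [nat_lit 1207600000, nat_lit 698800001, nat_lit 19600000], [], [nat_lit 18889035761, nat_lit 20727635760, nat_lit 19562415520, nat_lit 21286888010, nat_lit 18497098601, nat_lit 19842618770, nat_lit 19345875200, nat_lit 20725420150], nat_lit 1271250, nat_lit 1271250, nat_lit 719601, nat_lit 1100001, nat_lit 43600, nat_lit 490000, [nat_lit 230000, nat_lit 1100000, nat_lit 1785000], [nat_lit 57, nat_lit 40, nat_lit 40, nat_lit 80, nat_lit 7, nat_lit 272, nat_lit 60, nat_lit 9]⟩, C1.Rw.none,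
 ⟨nat_lit 2236, nat_lit 3163, ⟨.ofNat (nat_lit 409856), .ofNat (nat_lit 483125), .ofNat (nat_lit 454039), .ofNat (nat_lit 527308), .ofNat (nat_lit 419758), .ofNat (nat_lit 488302), .ofNat (nat_lit 465180), .ofNat (nat_lit 533723)⟩, ⟨.ofNat (nat_lit 20000), .ofNat (nat_lit 184209), .ofNat (nat_lit 20000), .ofNat (nat_lit 200000), .ofNat (nat_lit 20000), .ofNat (nat_lit 192306), .ofNat (nat_lit 20000), .ofNat (nat_lit 200000)⟩⟩, [⟨nat_lit 0, nat_lit 98, nat_lit 54, nat_lit 100, nat_lit 416754270⟩, ⟨nat_lit 3, nat_lit 100, nat_lit 63, nat_lit 50, nat_lit 40886102⟩, ⟨nat_lit 3, nat_lit 100, nat_lit 75, nat_lit 35, nat_lit 120256155⟩]⟩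
noncomputable def p116_l13 : Lf2 := ⟨nat_lit 0, nat_lit 25, [nat_lit 44, nat_lit 5, nat_lit 5, nat_lit 20], true, nat_lit 16, nat_lit 80, nat_lit 0, nat_lit 364, ⟨nat_lit 0, nat_lit 0, nat_lit 1000, nat_lit 6, nat_lit 189, nat_lit 1000, nat_lit 48, nat_lit 1000, nat_lit 21600, nat_lit 251, nat_lit 15023, nat_lit 241, nat_lit 53252013, nat_lit 0, nat_lit 0, nat_lit 3001038, false, false⟩,
 nat_lit 0, nat_lit 2887, nat_lit 0, nat_lit 2422, nat_lit 2514, nat_lit 0, nat_lit 0, nat_lit 0, nat_lit 0, nat_lit 0, nat_lit 0, nat_lit 0, nat_lit 0, nat_lit 0, nat_lit 108, nat_lit 250000, nat_lit 0, nat_lit 0, [(nat_lit 26, [(nat_lit 4, nat_lit 1000)])],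
 ⟨p116_k7, nat_lit 0, nat_lit 0, nat_lit 280, nat_lit 0, nat_lit 241097, [nat_lit 1207600000, nat_lit 698800001, nat_lit 19600000], [], [nat_lit 18612687402, nat_lit 20420756593, nat_lit 19310360404, nat_lit 21005826423, nat_lit 18235803514, nat_lit 19575925691, nat_lit 19048647752, nat_lit 20452291760], nat_lit 1271250, nat_lit 1271250, nat_lit 719601, nat_lit 1100001, nat_lit 88400, nat_lit 490000, [nat_lit 230000, nat_lit 1100000, nat_lit 1785000], [nat_lit 57, nat_lit 40, nat_lit 40, nat_lit 80, nat_lit 7, nat_lit 272, nat_lit 60, nat_lit 9]⟩, C1.Rw.none,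
 ⟨nat_lit 2236, nat_lit 3163, ⟨.ofNat (nat_lit 409856), .ofNat (nat_lit 483125), .ofNat (nat_lit 454039), .ofNat (nat_lit 527308), .ofNat (nat_lit 419758), .ofNat (nat_lit 488302), .ofNat (nat_lit 465180), .ofNat (nat_lit 533723)⟩, ⟨.ofNat (nat_lit 40000), .ofNat (nat_lit 200000), .ofNat (nat_lit 40000), .ofNat (nat_lit 200000), .ofNat (nat_lit 40000), .ofNat (nat_lit 200000), .ofNat (nat_lit 40000), .ofNat (nat_lit 200000)⟩⟩, [⟨nat_lit 0, nat_lit 98, nat_lit 54, nat_lit 100, nat_lit 424181346⟩, ⟨nat_lit 3, nat_lit 100, nat_lit 59, nat_lit 58, nat_lit 247392031⟩]⟩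
noncomputable def p116_l14 : Lf2 := ⟨nat_lit 0, nat_lit 30, [nat_lit 15, nat_lit 5, nat_lit 5, nat_lit 20], false, nat_lit 16, nat_lit 80, nat_lit 0, nat_lit 364, ⟨nat_lit 0, nat_lit 0, nat_lit 1000, nat_lit 6, nat_lit 188, nat_lit 1000, nat_lit 48, nat_lit 1000, nat_lit 21600, nat_lit 251, nat_lit 12660, nat_lit 242, nat_lit 53328765, nat_lit 0, nat_lit 0, nat_lit 2992443, false, false⟩,
 nat_lit 0, nat_lit 2606, nat_lit 0, nat_lit 6551, nat_lit 2269, nat_lit 0, nat_lit 101, nat_lit 0, nat_lit 0, nat_lit 0, nat_lit 0, nat_lit 0, nat_lit 0, nat_lit 0, nat_lit 108, nat_lit 250000, nat_lit 0, nat_lit 0, [(nat_lit 26, [(nat_lit 4, nat_lit 1000)])],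
 ⟨p116_k6, nat_lit 0, nat_lit 0, nat_lit 207, nat_lit 0, nat_lit 42536, [nat_lit 1207600000, nat_lit 698800001, nat_lit 686800000], [], [nat_lit 18482303059, nat_lit 19060516906, nat_lit 19161487161, nat_lit 19707821937, nat_lit 18069165473, nat_lit 18622239949, nat_lit 18763780108, nat_lit 19367933973], nat_lit 1271250, nat_lit 1271250, nat_lit 719601, nat_lit 1100001, nat_lit 88400, nat_lit 490000, [nat_lit 230000, nat_lit 1100000, nat_lit 2127500], [nat_lit 81, nat_lit 40, nat_lit 40, nat_lit 80, nat_lit 13, nat_lit 272, nat_lit 60, nat_lit 8]⟩, ⟨p116_k1, nat_lit 0, nat_lit 0, nat_lit 462, nat_lit 0, nat_lit 81875, [nat_lit 0, nat_lit 0, nat_lit 0], [], [nat_lit 0, nat_lit 0, nat_lit 0, nat_lit 0, nat_lit 0, nat_lit 0, nat_lit 0, nat_lit 0], nat_lit 1271250, nat_lit 1271250, nat_lit 719601, nat_lit 1100001, nat_lit 0, nat_lit 2570750, [nat_lit 1100000, nat_lit 2127500, nat_lit 1271250], [nat_lit 83, nat_lit 40, nat_lit 40,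 nat_lit 80, nat_lit 73, nat_lit 456, nat_lit 225, nat_lit 10]⟩,
 ⟨nat_lit 2738, nat_lit 3163, ⟨.ofNat (nat_lit 410148), .ofNat (nat_lit 483313), .ofNat (nat_lit 454433), .ofNat (nat_lit 527599), .ofNat (nat_lit 414835), .ofNat (nat_lit 485730), .ofNat (nat_lit 459646), .ofNat (nat_lit 530541)⟩, ⟨.ofNat (nat_lit 40000), .ofNat (nat_lit 200000), .ofNat (nat_lit 40000), .ofNat (nat_lit 200000), .ofNat (nat_lit 40000), .ofNat (nat_lit 200000), .ofNat (nat_lit 40000), .ofNat (nat_lit 200000)⟩⟩, [⟨nat_lit 0, nat_lit 93, nat_lit 53, nat_lit 100, nat_lit 287992920⟩, ⟨nat_lit 3, nat_lit 100, nat_lit 69, nat_lit 45, nat_lit 220237722⟩]⟩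
noncomputable def p116_l15 : Lf2 := ⟨nat_lit 0, nat_lit 30, [nat_lit 15, nat_lit 5, nat_lit 5, nat_lit 20], true, nat_lit 20, nat_lit 80, nat_lit 0, nat_lit 364, ⟨nat_lit 0, nat_lit 23, nat_lit 977, nat_lit 6, nat_lit 195, nat_lit 1000, nat_lit 50, nat_lit 977, nat_lit 22817, nat_lit 252, nat_lit 10417, nat_lit 240, nat_lit 52595609, nat_lit 12812068, nat_lit 1592323, nat_lit 3092195, false, false⟩,
 nat_lit 0, nat_lit 2648, nat_lit 0, nat_lit 5097, nat_lit 2389, nat_lit 0, nat_lit 0, nat_lit 0, nat_lit 0, nat_lit 0, nat_lit 0, nat_lit 0, nat_lit 0, nat_lit 0, nat_lit 103, nat_lit 250000, nat_lit 0, nat_lit 0, [(nat_lit 26, [(nat_lit 0, nat_lit 23), (nat_lit 4, nat_lit 977)])],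
 ⟨p116_k8, nat_lit 0, nat_lit 0, nat_lit 242, nat_lit 0, nat_lit 138459, [nat_lit 1187370000, nat_lit 681921201, nat_lit 16559600], [], [nat_lit 19344168873, nat_lit 20207163009, nat_lit 19861273887, nat_lit 20685678245, nat_lit 19001120895, nat_lit 19657187381, nat_lit 19577687835, nat_lit 20282591702], nat_lit 1271250, nat_lit 1271250, nat_lit 841600, nat_lit 1100001, nat_lit 111251, nat_lit 490000, [nat_lit 230000, nat_lit 1100000, nat_lit 1785000], [nat_lit 57, nat_lit 40, nat_lit 40, nat_lit 80, nat_lit 7, nat_lit 272, nat_lit 60, nat_lit 8]⟩, C1.Rw.none,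
 ⟨nat_lit 2236, nat_lit 2739, ⟨.ofNat (nat_lit 438420), .ofNat (nat_lit 485697), .ofNat (nat_lit 483215), .ofNat (nat_lit 530492), .ofNat (nat_lit 442816), .ofNat (nat_lit 488457), .ofNat (nat_lit 488325), .ofNat (nat_lit 533965)⟩, ⟨.ofNat (nat_lit 50000), .ofNat (nat_lit 200000), .ofNat (nat_lit 50000), .ofNat (nat_lit 200000), .ofNat (nat_lit 50000), .ofNat (nat_lit 200000), .ofNat (nat_lit 50000), .ofNat (nat_lit 200000)⟩⟩, [⟨nat_lit 0, nat_lit 97, nat_lit 49, nat_lit 100, nat_lit 805572546⟩, ⟨nat_lit 3, nat_lit 100, nat_lit 61, nat_lit 55, nat_lit 244721859⟩]⟩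
noncomputable def p116_l16 : Lf2 := ⟨nat_lit 0, nat_lit 30, [nat_lit 15, nat_lit 5, nat_lit 5, nat_lit 20], false, nat_lit 8, nat_lit 80, nat_lit 0, nat_lit 160, ⟨nat_lit 326, nat_lit 0, nat_lit 674, nat_lit 6, nat_lit 222, nat_lit 674, nat_lit 43, nat_lit 674, nat_lit 17067, nat_lit 247, nat_lit 2400, nat_lit 203, nat_lit 50019019, nat_lit 0, nat_lit 0, nat_lit 3265955, false, false⟩,
 nat_lit 5788, nat_lit 0, nat_lit 0, nat_lit 0, nat_lit 2757, nat_lit 3064, nat_lit 274, nat_lit 0, nat_lit 0, nat_lit 151, nat_lit 0, nat_lit 0, nat_lit 0, nat_lit 0, nat_lit 0, nat_lit 168500, nat_lit 0, nat_lit 0, [(nat_lit 26, [(nat_lit 4, nat_lit 674)])],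
 ⟨p116_k9, nat_lit 0, nat_lit 0, nat_lit 301, nat_lit 0, nat_lit 191289, [nat_lit 796460001, nat_lit 781729600, nat_lit 1633219200], [], [nat_lit 20809161876, nat_lit 21861312181, nat_lit 22582042335, nat_lit 23987354779, nat_lit 20314610871, nat_lit 21311723401, nat_lit 22032439619, nat_lit 22921991677], nat_lit 1271250, nat_lit 1271250, nat_lit 1100001, nat_lit 1785000, nat_lit 43600, nat_lit 490000, [nat_lit 230000, nat_lit 780000, nat_lit 2090000], [nat_lit 93, nat_lit 40, nat_lit 40, nat_lit 80, nat_lit 63, nat_lit 317, nat_lit 100, nat_lit 9]⟩, ⟨p116_k4, nat_lit 0, nat_lit 0, nat_lit 605, nat_lit 0, nat_lit 368204, [nat_lit 1528288000, nat_lit 2597568000, nat_lit 5346400000], [], [nat_lit 14245625672, nat_lit 13812329347, nat_lit 13894549183, nat_lit 14158473459, nat_lit 11295548351, nat_lit 11404271971, nat_lit 11852796656, nat_lit 11332392523], nat_lit 1271250, nat_lit 1271250, nat_lit 1100001, nat_lit 1785000, nat_lit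 0, nat_lit 1100001, [nat_lit 1100000, nat_lit 1785000, nat_lit 1271250], [nat_lit 122, nat_lit 40, nat_lit 40, nat_lit 80, nat_lit 111, nat_lit 401, nat_lit 175, nat_lit 9]⟩,
 ⟨nat_lit 2236, nat_lit 3163, ⟨.ofNat (nat_lit 483125), .ofNat (nat_lit 605240), .ofNat (nat_lit 505217), .ofNat (nat_lit 627331), .ofNat (nat_lit 488302), .ofNat (nat_lit 602541), .ofNat (nat_lit 511013), .ofNat (nat_lit 625251)⟩, ⟨.ofNat (nat_lit 20000), .ofNat (nat_lit 184209), .ofNat (nat_lit 20000), .ofNat (nat_lit 200000), .ofNat (nat_lit 20000), .ofNat (nat_lit 192306), .ofNat (nat_lit 20000), .ofNat (nat_lit 200000)⟩⟩, [⟨nat_lit 3, nat_lit 100, nat_lit 61, nat_lit 55, nat_lit 117529119⟩]⟩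
noncomputable def p116_l17 : Lf2 := ⟨nat_lit 0, nat_lit 30, [nat_lit 15, nat_lit 5, nat_lit 5, nat_lit 20], false, nat_lit 8, nat_lit 80, nat_lit 160, nat_lit 364, ⟨nat_lit 201, nat_lit 0, nat_lit 799, nat_lit 6, nat_lit 222, nat_lit 799, nat_lit 43, nat_lit 799, nat_lit 17067, nat_lit 247, nat_lit 2400, nat_lit 203, nat_lit 50050802, nat_lit 0, nat_lit 0, nat_lit 3259957, false, false⟩,
 nat_lit 2918, nat_lit 146, nat_lit 0, nat_lit 8037, nat_lit 2668, nat_lit 1544, nat_lit 213, nat_lit 0, nat_lit 0, nat_lit 141, nat_lit 0, nat_lit 0, nat_lit 0, nat_lit 0, nat_lit 20, nat_lit 199750, nat_lit 0, nat_lit 0, [(nat_lit 26, [(nat_lit 4, nat_lit 799)])],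
 ⟨p116_k6, nat_lit 0, nat_lit 0, nat_lit 214, nat_lit 0, nat_lit 103966, [nat_lit 888242400, nat_lit 439957201, nat_lit 670819200], [], [nat_lit 19991325640, nat_lit 20244467514, nat_lit 22272419986, nat_lit 22653705786, nat_lit 19464146305, nat_lit 19704547167, nat_lit 21508500529, nat_lit 21793868351], nat_lit 1271250, nat_lit 1271250, nat_lit 1100001, nat_lit 1785000, nat_lit 43600, nat_lit 490000, [nat_lit 230000, nat_lit 1100000, nat_lit 2127500], [nat_lit 81, nat_lit 40, nat_lit 40, nat_lit 80, nat_lit 13, nat_lit 317, nat_lit 100, nat_lit 9]⟩, ⟨p116_k1, nat_lit 0, nat_lit 0, nat_lit 274, nat_lit 0, nat_lit 200120, [nat_lit 942288000, nat_lit 1978242000, nat_lit 3296400000], [], [nat_lit 7315099372, nat_lit 6498727900, nat_lit 7231436060, nat_lit 6472989292, nat_lit 6720660554, nat_lit 6794466969, nat_lit 6712646286, nat_lit 6769009141], nat_lit 1271250, nat_lit 1271250, nat_lit 1100001, nat_lit 1785000, nat_lit 1271250,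 nat_lit 1271250, [nat_lit 1100000, nat_lit 2127500, nat_lit 1271250], [nat_lit 83, nat_lit 40, nat_lit 40, nat_lit 80, nat_lit 73, nat_lit 456, nat_lit 225, nat_lit 9]⟩,
 ⟨nat_lit 2958, nat_lit 3163, ⟨.ofNat (nat_lit 483346), .ofNat (nat_lit 605261), .ofNat (nat_lit 505499), .ofNat (nat_lit 627413), .ofNat (nat_lit 484523), .ofNat (nat_lit 604573), .ofNat (nat_lit 506798), .ofNat (nat_lit 626848)⟩, ⟨.ofNat (nat_lit 20000), .ofNat (nat_lit 184209), .ofNat (nat_lit 20000), .ofNat (nat_lit 200000), .ofNat (nat_lit 20000), .ofNat (nat_lit 186273), .ofNat (nat_lit 20000), .ofNat (nat_lit 200000)⟩⟩, [⟨nat_lit 22, nat_lit 100, nat_lit 95, nat_lit 31, nat_lit 47643507⟩, ⟨nat_lit 22, nat_lit 100, nat_lit 78, nat_lit 63, nat_lit 63139756⟩]⟩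
noncomputable def p116_l18 : Lf2 := ⟨nat_lit 0, nat_lit 30, [nat_lit 15, nat_lit 5, nat_lit 5, nat_lit 20], false, nat_lit 8, nat_lit 80, nat_lit 160, nat_lit 364, ⟨nat_lit 188, nat_lit 0, nat_lit 812, nat_lit 6, nat_lit 222, nat_lit 812, nat_lit 43, nat_lit 812, nat_lit 17067, nat_lit 247, nat_lit 7518, nat_lit 204, nat_lit 50028907, nat_lit 0, nat_lit 0, nat_lit 3264059, false, false⟩,
 nat_lit 2411, nat_lit 619, nat_lit 0, nat_lit 5126, nat_lit 2686, nat_lit 1276, nat_lit 45, nat_lit 0, nat_lit 0, nat_lit 138, nat_lit 0, nat_lit 0, nat_lit 0, nat_lit 0, nat_lit 26, nat_lit 203000, nat_lit 0, nat_lit 0, [(nat_lit 26, [(nat_lit 4, nat_lit 812)])],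
 ⟨p116_k10, nat_lit 0, nat_lit 0, nat_lit 196, nat_lit 0, nat_lit 129890, [nat_lit 910131200, nat_lit 461633600, nat_lit 33195200], [], [nat_lit 20765831785, nat_lit 21068919567, nat_lit 22792437909, nat_lit 23070989597, nat_lit 20269759760, nat_lit 20528058444, nat_lit 22167073097, nat_lit 22427181842], nat_lit 1271250, nat_lit 1271250, nat_lit 1100001, nat_lit 1785000, nat_lit 43600, nat_lit 490000, [nat_lit 230000, nat_lit 1100000, nat_lit 1785000], [nat_lit 57, nat_lit 40, nat_lit 40, nat_lit 80, nat_lit 7, nat_lit 317, nat_lit 100, nat_lit 10]⟩, ⟨p116_k1, nat_lit 0, nat_lit 0, nat_lit 296, nat_lit 0, nat_lit 255665, [nat_lit 881344000, nat_lit 1850296000, nat_lit 3083200000], [], [nat_lit 6585766096, nat_lit 5911096408, nat_lit 6714804048, nat_lit 6088004776, nat_lit 6187745227, nat_lit 6258426279, nat_lit 6327365344, nat_lit 6429939406], nat_lit 1271250, nat_lit 1271250, nat_lit 1100001, nat_lit 1785000, nat_lit 1271250,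 nat_lit 1271250, [nat_lit 1100000, nat_lit 2127500, nat_lit 1271250], [nat_lit 83, nat_lit 40, nat_lit 40, nat_lit 80, nat_lit 73, nat_lit 456, nat_lit 225, nat_lit 9]⟩,
 ⟨nat_lit 2738, nat_lit 2959, ⟨.ofNat (nat_lit 484521), .ofNat (nat_lit 604573), .ofNat (nat_lit 506794), .ofNat (nat_lit 626847), .ofNat (nat_lit 485761), .ofNat (nat_lit 603893), .ofNat (nat_lit 508175), .ofNat (nat_lit 626308)⟩, ⟨.ofNat (nat_lit 20000), .ofNat (nat_lit 186273), .ofNat (nat_lit 20000), .ofNat (nat_lit 200000), .ofNat (nat_lit 20000), .ofNat (nat_lit 188310), .ofNat (nat_lit 20000), .ofNat (nat_lit 200000)⟩⟩, [⟨nat_lit 3, nat_lit 100, nat_lit 63, nat_lit 52, nat_lit 55162800⟩, ⟨nat_lit 22, nat_lit 100, nat_lit 78, nat_lit 63, nat_lit 83504731⟩]⟩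
noncomputable def p116_l19 : Lf2 := ⟨nat_lit 0, nat_lit 30, [nat_lit 15, nat_lit 5, nat_lit 5, nat_lit 20], false, nat_lit 12, nat_lit 80, nat_lit 160, nat_lit 364, ⟨nat_lit 162, nat_lit 0, nat_lit 838, nat_lit 6, nat_lit 223, nat_lit 838, nat_lit 45, nat_lit 838, nat_lit 19267, nat_lit 249, nat_lit 6376, nat_lit 204, nat_lit 49911352, nat_lit 0, nat_lit 0, nat_lit 3298982, false, false⟩,
 nat_lit 2957, nat_lit 0, nat_lit 0, nat_lit 2622, nat_lit 2668, nat_lit 1565, nat_lit 10, nat_lit 0, nat_lit 0, nat_lit 99, nat_lit 0, nat_lit 0, nat_lit 0, nat_lit 0, nat_lit 37, nat_lit 209500, nat_lit 0, nat_lit 0, [(nat_lit 26, [(nat_lit 4, nat_lit 838)])],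
 ⟨p116_k8, nat_lit 0, nat_lit 0, nat_lit 252, nat_lit 0, nat_lit 182986, [nat_lit 949908800, nat_lit 488986401, nat_lit 23144800], [], [nat_lit 21185420426, nat_lit 21805426425, nat_lit 23179887365, nat_lit 23724573402, nat_lit 20639515032, nat_lit 21224886784, nat_lit 22587192996, nat_lit 23106020616], nat_lit 1271250, nat_lit 1271250, nat_lit 1100001, nat_lit 1785000, nat_lit 65850, nat_lit 490000, [nat_lit 230000, nat_lit 1100000, nat_lit 1785000], [nat_lit 57, nat_lit 40, nat_lit 40, nat_lit 80, nat_lit 7, nat_lit 317, nat_lit 100, nat_lit 10]⟩, ⟨p116_k1, nat_lit 0, nat_lit 0, nat_lit 434, nat_lit 0, nat_lit 368204, [nat_lit 759456000, nat_lit 1594404000, nat_lit 2656800000], [], [nat_lit 6384267544, nat_lit 5556792574, nat_lit 5921608424, nat_lit 5237730893, nat_lit 5739476461, nat_lit 5759403330, nat_lit 5587719900, nat_lit 5624940414], nat_lit 1271250, nat_lit 1271250, nat_lit 1100001, nat_lit 1785000, nat_lit 1271250,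 nat_lit 1271250, [nat_lit 1100000, nat_lit 2127500, nat_lit 1271250], [nat_lit 83, nat_lit 40, nat_lit 40, nat_lit 80, nat_lit 73, nat_lit 456, nat_lit 225, nat_lit 9]⟩,
 ⟨nat_lit 2236, nat_lit 2739, ⟨.ofNat (nat_lit 485697), .ofNat (nat_lit 603890), .ofNat (nat_lit 508094), .ofNat (nat_lit 626287), .ofNat (nat_lit 488457), .ofNat (nat_lit 602558), .ofNat (nat_lit 511211), .ofNat (nat_lit 625312)⟩, ⟨.ofNat (nat_lit 30000), .ofNat (nat_lit 188310), .ofNat (nat_lit 30000), .ofNat (nat_lit 200000), .ofNat (nat_lit 30000), .ofNat (nat_lit 192306), .ofNat (nat_lit 30000), .ofNat (nat_lit 200000)⟩⟩, [⟨nat_lit 3, nat_lit 100, nat_lit 48, nat_lit 71, nat_lit 157131266⟩, ⟨nat_lit 22, nat_lit 100, nat_lit 77, nat_lit 64, nat_lit 66776072⟩]⟩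
noncomputable def p116_l20 : Lf2 := ⟨nat_lit 0, nat_lit 25, [nat_lit 44, nat_lit 5, nat_lit 5, nat_lit 20], false, nat_lit 8, nat_lit 80, nat_lit 0, nat_lit 336, ⟨nat_lit 175, nat_lit 0, nat_lit 825, nat_lit 6, nat_lit 219, nat_lit 825, nat_lit 43, nat_lit 825, nat_lit 17067, nat_lit 247, nat_lit 2332, nat_lit 216, nat_lit 50364815, nat_lit 0, nat_lit 0, nat_lit 3233667, false, false⟩,
 nat_lit 3074, nat_lit 0, nat_lit 0, nat_lit 569, nat_lit 2677, nat_lit 1789, nat_lit 62, nat_lit 0, nat_lit 0, nat_lit 0, nat_lit 0, nat_lit 0, nat_lit 0, nat_lit 0, nat_lit 31, nat_lit 206250, nat_lit 0, nat_lit 0, [(nat_lit 26, [(nat_lit 4, nat_lit 825)])],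
 ⟨p116_k7, nat_lit 0, nat_lit 0, nat_lit 245, nat_lit 0, nat_lit 168470, [nat_lit 928020000, nat_lit 467310001, nat_lit 16170000], [], [nat_lit 20469806641, nat_lit 20964105425, nat_lit 21196952676, nat_lit 21665141460, nat_lit 19845253808, nat_lit 20315531109, nat_lit 20557709456, nat_lit 21062329809], nat_lit 1271250, nat_lit 1271250, nat_lit 1100001, nat_lit 1442500, nat_lit 43600, nat_lit 490000, [nat_lit 230000, nat_lit 1100000, nat_lit 1785000], [nat_lit 57, nat_lit 40, nat_lit 40, nat_lit 80, nat_lit 7, nat_lit 289, nat_lit 75, nat_lit 9]⟩, ⟨p116_k11, nat_lit 0, nat_lit 0, nat_lit 450, nat_lit 0, nat_lit 283338, [nat_lit 820400000, nat_lit 1722350000, nat_lit 2460150000], [], [nat_lit 8909083942, nat_lit 8042834704, nat_lit 7907909018, nat_lit 8028821828, nat_lit 7520884087, nat_lit 7007693164, nat_lit 8609893155, nat_lit 7814202488], nat_lit 1271250, nat_lit 1271250, nat_lit 1100001, nat_lit 1442500, nat_lit 0, nat_lit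 2373000, [nat_lit 1100000, nat_lit 2127500, nat_lit 1271250], [nat_lit 56, nat_lit 40, nat_lit 40, nat_lit 80, nat_lit 32, nat_lit 456, nat_lit 225, nat_lit 10]⟩,
 ⟨nat_lit 2738, nat_lit 3163, ⟨.ofNat (nat_lit 505456), .ofNat (nat_lit 566428), .ofNat (nat_lit 527599), .ofNat (nat_lit 588571), .ofNat (nat_lit 508135), .ofNat (nat_lit 567215), .ofNat (nat_lit 530541), .ofNat (nat_lit 589621)⟩, ⟨.ofNat (nat_lit 20000), .ofNat (nat_lit 184209), .ofNat (nat_lit 20000), .ofNat (nat_lit 200000), .ofNat (nat_lit 20000), .ofNat (nat_lit 188310), .ofNat (nat_lit 20000), .ofNat (nat_lit 200000)⟩⟩, [⟨nat_lit 3, nat_lit 100, nat_lit 68, nat_lit 45, nat_lit 58676325⟩, ⟨nat_lit 3, nat_lit 100, nat_lit 61, nat_lit 55, nat_lit 58326316⟩, ⟨nat_lit 10, nat_lit 74, nat_lit 100, nat_lit 61, nat_lit 42634157⟩]⟩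
noncomputable def p116_l21 : Lf2 := ⟨nat_lit 0, nat_lit 27, [nat_lit 147, nat_lit 5, nat_lit 5, nat_lit 20], false, nat_lit 16, nat_lit 80, nat_lit 0, nat_lit 352, ⟨nat_lit 146, nat_lit 0, nat_lit 854, nat_lit 6, nat_lit 219, nat_lit 854, nat_lit 48, nat_lit 854, nat_lit 21600, nat_lit 251, nat_lit 1200, nat_lit 216, nat_lit 50159852, nat_lit 0, nat_lit 0, nat_lit 3309045, false, false⟩,
 nat_lit 4312, nat_lit 0, nat_lit 0, nat_lit 2075, nat_lit 2531, nat_lit 2509, nat_lit 65, nat_lit 0, nat_lit 0, nat_lit 41, nat_lit 0, nat_lit 0, nat_lit 0, nat_lit 0, nat_lit 44, nat_lit 213500, nat_lit 0, nat_lit 0, [(nat_lit 26, [(nat_lit 4, nat_lit 854)])],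
 ⟨p116_k12, nat_lit 0, nat_lit 0, nat_lit 166, nat_lit 0, nat_lit 80908, [nat_lit 934660000, nat_lit 717495201, nat_lit 22498400], [], [nat_lit 19613624441, nat_lit 19920941455, nat_lit 20537234856, nat_lit 20831175014, nat_lit 19107308607, nat_lit 19400626097, nat_lit 20018299291, nat_lit 20295337172], nat_lit 1271250, nat_lit 1271250, nat_lit 1100001, nat_lit 1442500, nat_lit 88400, nat_lit 490000, [nat_lit 230000, nat_lit 780000, nat_lit 1762500], [nat_lit 54, nat_lit 40, nat_lit 40, nat_lit 80, nat_lit 43, nat_lit 289, nat_lit 75, nat_lit 9]⟩, ⟨p116_k13, nat_lit 0, nat_lit 0, nat_lit 387, nat_lit 0, nat_lit 136374, [nat_lit 684448000, nat_lit 1163328000, nat_lit 2052468000], [], [nat_lit 6785608670, nat_lit 6510089984, nat_lit 6270124072, nat_lit 6511116720, nat_lit 5056197962, nat_lit 5138664412, nat_lit 6084878390, nat_lit 4960286381], nat_lit 1271250, nat_lit 1271250, nat_lit 1100001, nat_lit 1442500, nat_lit 0, nat_lit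 2486000, [nat_lit 1100000, nat_lit 1785000, nat_lit 1271250], [nat_lit 37, nat_lit 40, nat_lit 40, nat_lit 80, nat_lit 28, nat_lit 456, nat_lit 225, nat_lit 10]⟩,
 ⟨nat_lit 2958, nat_lit 3163, ⟨.ofNat (nat_lit 505499), .ofNat (nat_lit 566456), .ofNat (nat_lit 527651), .ofNat (nat_lit 588608), .ofNat (nat_lit 506798), .ofNat (nat_lit 566823), .ofNat (nat_lit 529072), .ofNat (nat_lit 589097)⟩, ⟨.ofNat (nat_lit 40000), .ofNat (nat_lit 200000), .ofNat (nat_lit 40000), .ofNat (nat_lit 200000), .ofNat (nat_lit 40000), .ofNat (nat_lit 200000), .ofNat (nat_lit 40000), .ofNat (nat_lit 200000)⟩⟩, [⟨nat_lit 3, nat_lit 100, nat_lit 65, nat_lit 52, nat_lit 188029357⟩, ⟨nat_lit 22, nat_lit 100, nat_lit 69, nat_lit 65, nat_lit 9460350⟩]⟩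
noncomputable def p116_l22 : Lf2 := ⟨nat_lit 1, nat_lit 30, [nat_lit 15, nat_lit 5, nat_lit 5, nat_lit 20], false, nat_lit 16, nat_lit 80, nat_lit 0, nat_lit 352, zbN0,
 nat_lit 0, nat_lit 0, nat_lit 0, nat_lit 0, nat_lit 0, nat_lit 0, nat_lit 0, nat_lit 0, nat_lit 0, nat_lit 0, nat_lit 0, nat_lit 0, nat_lit 0, nat_lit 0, nat_lit 0, nat_lit 0, nat_lit 0, nat_lit 0, [],
 C1.Rw.none, C1.Rw.none,
 zbF0, []⟩
noncomputable def p116_l23 : Lf2 := ⟨nat_lit 0, nat_lit 30, [nat_lit 15, nat_lit 5, nat_lit 5, nat_lit 20], false, nat_lit 16, nat_lit 80, nat_lit 0, nat_lit 352, ⟨nat_lit 145, nat_lit 0, nat_lit 855, nat_lit 6, nat_lit 219, nat_lit 855, nat_lit 48, nat_lit 855, nat_lit 21600, nat_lit 251, nat_lit 2405, nat_lit 216, nat_lit 50121178, nat_lit 0, nat_lit 0, nat_lit 3312451, false, false⟩,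
 nat_lit 4976, nat_lit 0, nat_lit 0, nat_lit 528, nat_lit 2517, nat_lit 2896, nat_lit 53, nat_lit 0, nat_lit 0, nat_lit 17, nat_lit 0, nat_lit 0, nat_lit 0, nat_lit 0, nat_lit 44, nat_lit 213750, nat_lit 0, nat_lit 0, [(nat_lit 26, [(nat_lit 4, nat_lit 855)])],
 ⟨p116_k14, nat_lit 0, nat_lit 0, nat_lit 174, nat_lit 0, nat_lit 107260, [nat_lit 934450000, nat_lit 713874001, nat_lit 11958000], [], [nat_lit 20013584986, nat_lit 20320181806, nat_lit 20920245700, nat_lit 21209568569, nat_lit 19501689479, nat_lit 19794330909, nat_lit 20396741601, nat_lit 20673161164], nat_lit 1271250, nat_lit 1271250, nat_lit 1100001, nat_lit 1442500, nat_lit 88400, nat_lit 490000, [nat_lit 230000, nat_lit 780000, nat_lit 1762500], [nat_lit 54, nat_lit 40, nat_lit 40, nat_lit 80, nat_lit 43, nat_lit 289, nat_lit 75, nat_lit 9]⟩, ⟨p116_k15, nat_lit 0, nat_lit 0, nat_lit 404, nat_lit 0, nat_lit 185462, [nat_lit 679760000, nat_lit 1155360000, nat_lit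 2038410000], [], [nat_lit 7141337132, nat_lit 7023855420, nat_lit 6737598394, nat_lit 7002224600, nat_lit 5178959440, nat_lit 5263189804, nat_lit 6060360795, nat_lit 5036908372], nat_lit 1271250, nat_lit 1271250, nat_lit 1100001, nat_lit 1442500, nat_lit 0, nat_lit 2486000, [nat_lit 1100000, nat_lit 1785000, nat_lit 1271250], [nat_lit 37, nat_lit 40, nat_lit 40, nat_lit 80, nat_lit 28, nat_lit 456, nat_lit 225, nat_lit 10]⟩,
 ⟨nat_lit 2738, nat_lit 2959, ⟨.ofNat (nat_lit 506794), .ofNat (nat_lit 566821), .ofNat (nat_lit 529068), .ofNat (nat_lit 589094), .ofNat (nat_lit 508175), .ofNat (nat_lit 567242), .ofNat (nat_lit 530589), .ofNat (nat_lit 589655)⟩, ⟨.ofNat (nat_lit 40000), .ofNat (nat_lit 200000), .ofNat (nat_lit 40000), .ofNat (nat_lit 200000), .ofNat (nat_lit 40000), .ofNat (nat_lit 200000), .ofNat (nat_lit 40000), .ofNat (nat_lit 200000)⟩⟩, [⟨nat_lit 3, nat_lit 100, nat_lit 57, nat_lit 62, nat_lit 227266084⟩]⟩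
noncomputable def p116_l24 : Lf2 := ⟨nat_lit 0, nat_lit 30, [nat_lit 15, nat_lit 5, nat_lit 5, nat_lit 20], false, nat_lit 8, nat_lit 80, nat_lit 0, nat_lit 352, ⟨nat_lit 688, nat_lit 0, nat_lit 312, nat_lit 6, nat_lit 243, nat_lit 312, nat_lit 43, nat_lit 312, nat_lit 17067, nat_lit 247, nat_lit 27880, nat_lit 200, nat_lit 47851987, nat_lit 0, nat_lit 0, nat_lit 3433328, true, false⟩,
 nat_lit 10903, nat_lit 0, nat_lit 0, nat_lit 0, nat_lit 3562, nat_lit 6346, nat_lit 489, nat_lit 0, nat_lit 0, nat_lit 323, nat_lit 0, nat_lit 0, nat_lit 0, nat_lit 0, nat_lit 0, nat_lit 124800, nat_lit 0, nat_lit 0, [(nat_lit 26, [(nat_lit 5, nat_lit 312)])],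
 ⟨p116_k9, nat_lit 0, nat_lit 0, nat_lit 273, nat_lit 0, nat_lit 150658, [nat_lit 872854400, nat_lit 2018108801, nat_lit 5419337600], [], [nat_lit 22585715556, nat_lit 22883802272, nat_lit 23941776531, nat_lit 24382334665, nat_lit 21229935295, nat_lit 21512824555, nat_lit 22491308978, nat_lit 22832807634], nat_lit 1271250, nat_lit 1271250, nat_lit 1271250, nat_lit 1271250, nat_lit 43600, nat_lit 490000, [nat_lit 230000, nat_lit 780000, nat_lit 2090000], [nat_lit 93, nat_lit 40, nat_lit 40, nat_lit 80, nat_lit 63, nat_lit 317, nat_lit 100, nat_lit 9]⟩, ⟨p116_k15, nat_lit 0, nat_lit 0, nat_lit 418, nat_lit 0, nat_lit 254747, [nat_lit 3225344000, nat_lit 5481984000, nat_lit 9671904000], [], [nat_lit 25042050616, nat_lit 25578878960, nat_lit 25679658844, nat_lit 26385250184, nat_lit 23939313391, nat_lit 24003300708, nat_lit 23875125721, nat_lit 24145733516], nat_lit 1271250, nat_lit 1271250, nat_lit 1271250, nat_lit 1271250, nat_lit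 0, nat_lit 2486000, [nat_lit 1100000, nat_lit 1785000, nat_lit 1271250], [nat_lit 37, nat_lit 40, nat_lit 40, nat_lit 80, nat_lit 28, nat_lit 456, nat_lit 225, nat_lit 10]⟩,
 ⟨nat_lit 2958, nat_lit 3163, ⟨.ofNat (nat_lit 566456), .ofNat (nat_lit 627413), .ofNat (nat_lit 588608), .ofNat (nat_lit 649565), .ofNat (nat_lit 566823), .ofNat (nat_lit 626848), .ofNat (nat_lit 589097), .ofNat (nat_lit 649122)⟩, ⟨.ofNat (nat_lit 20000), .ofNat (nat_lit 184209), .ofNat (nat_lit 20000), .ofNat (nat_lit 200000), .ofNat (nat_lit 20000), .ofNat (nat_lit 186273), .ofNat (nat_lit 20000), .ofNat (nat_lit 200000)⟩⟩, [⟨nat_lit 19, nat_lit 100, nat_lit 82, nat_lit 92, nat_lit 88595730⟩, ⟨nat_lit 22, nat_lit 100, nat_lit 84, nat_lit 63, nat_lit 46222455⟩]⟩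
noncomputable def p116_l25 : Lf2 := ⟨nat_lit 0, nat_lit 30, [nat_lit 15, nat_lit 5, nat_lit 5, nat_lit 20], false, nat_lit 8, nat_lit 80, nat_lit 0, nat_lit 352, ⟨nat_lit 241, nat_lit 0, nat_lit 759, nat_lit 6, nat_lit 243, nat_lit 759, nat_lit 43, nat_lit 759, nat_lit 17067, nat_lit 247, nat_lit 26992, nat_lit 200, nat_lit 47845012, nat_lit 0, nat_lit 0, nat_lit 3436133, true, false⟩,
 nat_lit 4889, nat_lit 0, nat_lit 0, nat_lit 105, nat_lit 2765, nat_lit 2845, nat_lit 81, nat_lit 0, nat_lit 0, nat_lit 0, nat_lit 0, nat_lit 0, nat_lit 0, nat_lit 0, nat_lit 3, nat_lit 189750, nat_lit 0, nat_lit 0, [(nat_lit 26, [(nat_lit 4, nat_lit 759)])],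
 ⟨p116_k10, nat_lit 0, nat_lit 0, nat_lit 242, nat_lit 0, nat_lit 173775, [nat_lit 826738400, nat_lit 396645201, nat_lit 39836400], [], [nat_lit 21845153638, nat_lit 22105772081, nat_lit 22936321842, nat_lit 23230958522, nat_lit 21281586434, nat_lit 21528846966, nat_lit 22261446771, nat_lit 22494036921], nat_lit 1271250, nat_lit 1271250, nat_lit 1271250, nat_lit 1271250, nat_lit 43600, nat_lit 490000, [nat_lit 230000, nat_lit 1100000, nat_lit 1785000], [nat_lit 57, nat_lit 40, nat_lit 40, nat_lit 80, nat_lit 7, nat_lit 317, nat_lit 100, nat_lit 10]⟩, ⟨p116_k2, nat_lit 0, nat_lit 0, nat_lit 445, nat_lit 0, nat_lit 300473, [nat_lit 1129808000, nat_lit 2371922000, nat_lit 3387978000], [], [nat_lit 10664905502, nat_lit 10839098924, nat_lit 10796949180, nat_lit 10946365972, nat_lit 10257716800, nat_lit 9442918843, nat_lit 9359413599, nat_lit 9450864804], nat_lit 1271250, nat_lit 1271250, nat_lit 1271250, nat_lit 1271250, nat_lit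 0, nat_lit 2486000, [nat_lit 1100000, nat_lit 2127500, nat_lit 1271250], [nat_lit 56, nat_lit 40, nat_lit 40, nat_lit 80, nat_lit 32, nat_lit 456, nat_lit 225, nat_lit 10]⟩,
 ⟨nat_lit 2738, nat_lit 2959, ⟨.ofNat (nat_lit 566821), .ofNat (nat_lit 626847), .ofNat (nat_lit 589094), .ofNat (nat_lit 649121), .ofNat (nat_lit 567242), .ofNat (nat_lit 626308), .ofNat (nat_lit 589655), .ofNat (nat_lit 648722)⟩, ⟨.ofNat (nat_lit 20000), .ofNat (nat_lit 186273), .ofNat (nat_lit 20000), .ofNat (nat_lit 200000), .ofNat (nat_lit 20000), .ofNat (nat_lit 188310), .ofNat (nat_lit 20000), .ofNat (nat_lit 200000)⟩⟩, [⟨nat_lit 3, nat_lit 100, nat_lit 63, nat_lit 52, nat_lit 95207039⟩, ⟨nat_lit 22, nat_lit 100, nat_lit 84, nat_lit 63, nat_lit 40176387⟩]⟩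
noncomputable def p116_l26 : Lf2 := ⟨nat_lit 0, nat_lit 30, [nat_lit 15, nat_lit 5, nat_lit 5, nat_lit 20], false, nat_lit 12, nat_lit 80, nat_lit 0, nat_lit 352, ⟨nat_lit 145, nat_lit 0, nat_lit 855, nat_lit 6, nat_lit 220, nat_lit 855, nat_lit 45, nat_lit 855, nat_lit 19267, nat_lit 249, nat_lit 5345, nat_lit 216, nat_lit 50181410, nat_lit 0, nat_lit 0, nat_lit 3275575, false, false⟩,
 nat_lit 3558, nat_lit 0, nat_lit 0, nat_lit 0, nat_lit 2838, nat_lit 2070, nat_lit 0, nat_lit 0, nat_lit 0, nat_lit 27, nat_lit 0, nat_lit 0, nat_lit 0, nat_lit 0, nat_lit 44, nat_lit 213750, nat_lit 0, nat_lit 0, [(nat_lit 26, [(nat_lit 4, nat_lit 855)])],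
 ⟨p116_k16, nat_lit 0, nat_lit 0, nat_lit 261, nat_lit 0, nat_lit 222534, [nat_lit 934450000, nat_lit 713874001, nat_lit 11958000], [], [nat_lit 21193986473, nat_lit 21870017236, nat_lit 22058175797, nat_lit 22722905548, nat_lit 20388269802, nat_lit 20974387556, nat_lit 21251532074, nat_lit 21804902284], nat_lit 1271250, nat_lit 1271250, nat_lit 1100001, nat_lit 1442500, nat_lit 65850, nat_lit 490000, [nat_lit 230000, nat_lit 780000, nat_lit 1762500], [nat_lit 54, nat_lit 40, nat_lit 40, nat_lit 80, nat_lit 43, nat_lit 289, nat_lit 75, nat_lit 9]⟩, ⟨p116_k15, nat_lit 0, nat_lit 0, nat_lit 479, nat_lit 0, nat_lit 393358, [nat_lit 679760000, nat_lit 1155360000, nat_lit 2038410000], [], [nat_lit 6319382880, nat_lit 6315611180, nat_lit 6127314450, nat_lit 6340269400, nat_lit 5290129007, nat_lit 5369600288, nat_lit 6088773389, nat_lit 5240548308], nat_lit 1271250, nat_lit 1271250, nat_lit 1100001, nat_lit 1442500, nat_lit 0, nat_lit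 2486000, [nat_lit 1100000, nat_lit 1785000, nat_lit 1271250], [nat_lit 37, nat_lit 40, nat_lit 40, nat_lit 80, nat_lit 28, nat_lit 456, nat_lit 225, nat_lit 10]⟩,
 ⟨nat_lit 2236, nat_lit 2739, ⟨.ofNat (nat_lit 508094), .ofNat (nat_lit 567191), .ofNat (nat_lit 530492), .ofNat (nat_lit 589588), .ofNat (nat_lit 511211), .ofNat (nat_lit 568262), .ofNat (nat_lit 533965), .ofNat (nat_lit 591016)⟩, ⟨.ofNat (nat_lit 30000), .ofNat (nat_lit 188310), .ofNat (nat_lit 30000), .ofNat (nat_lit 200000), .ofNat (nat_lit 30000), .ofNat (nat_lit 192306), .ofNat (nat_lit 30000), .ofNat (nat_lit 200000)⟩⟩, [⟨nat_lit 3, nat_lit 100, nat_lit 56, nat_lit 60, nat_lit 237626616⟩, ⟨nat_lit 22, nat_lit 100, nat_lit 71, nat_lit 64, nat_lit 19148510⟩]⟩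
noncomputable def p116_l27 : Lf2 := ⟨nat_lit 0, nat_lit 30, [nat_lit 15, nat_lit 5, nat_lit 5, nat_lit 20], false, nat_lit 12, nat_lit 80, nat_lit 0, nat_lit 352, ⟨nat_lit 368, nat_lit 0, nat_lit 632, nat_lit 6, nat_lit 243, nat_lit 632, nat_lit 45, nat_lit 632, nat_lit 19267, nat_lit 249, nat_lit 26118, nat_lit 200, nat_lit 47755328, nat_lit 0, nat_lit 0, nat_lit 3468372, true, false⟩,
 nat_lit 5358, nat_lit 0, nat_lit 0, nat_lit 0, nat_lit 2827, nat_lit 3118, nat_lit 180, nat_lit 0, nat_lit 0, nat_lit 84, nat_lit 0, nat_lit 0, nat_lit 0, nat_lit 0, nat_lit 0, nat_lit 158000, nat_lit 0, nat_lit 0, [(nat_lit 26, [(nat_lit 4, nat_lit 632)])],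
 ⟨p116_k16, nat_lit 0, nat_lit 0, nat_lit 256, nat_lit 0, nat_lit 222534, [nat_lit 805280000, nat_lit 993401601, nat_lit 1306467200], [], [nat_lit 22059675274, nat_lit 22700692939, nat_lit 23263893259, nat_lit 24045644422, nat_lit 21507026152, nat_lit 22019910886, nat_lit 22534961845, nat_lit 23053377766], nat_lit 1271250, nat_lit 1271250, nat_lit 1271250, nat_lit 1271250, nat_lit 65850, nat_lit 490000, [nat_lit 230000, nat_lit 780000, nat_lit 1762500], [nat_lit 54, nat_lit 40, nat_lit 40, nat_lit 80, nat_lit 43, nat_lit 317, nat_lit 100, nat_lit 10]⟩, ⟨p116_k15, nat_lit 0, nat_lit 0, nat_lit 468, nat_lit 0, nat_lit 393358, [nat_lit 1725184000, nat_lit 2932224000, nat_lit 5173344000], [], [nat_lit 14716966856, nat_lit 14995410816, nat_lit 15014700368, nat_lit 15261597832, nat_lit 13841644677, nat_lit 13943594223, nat_lit 13891979890, nat_lit 14038207602], nat_lit 1271250, nat_lit 1271250, nat_lit 1271250, nat_lit 1271250, nat_lit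 0, nat_lit 2486000, [nat_lit 1100000, nat_lit 1785000, nat_lit 1271250], [nat_lit 37, nat_lit 40, nat_lit 40, nat_lit 80, nat_lit 28, nat_lit 456, nat_lit 225, nat_lit 10]⟩,
 ⟨nat_lit 2236, nat_lit 2739, ⟨.ofNat (nat_lit 567191), .ofNat (nat_lit 626287), .ofNat (nat_lit 589588), .ofNat (nat_lit 648684), .ofNat (nat_lit 568262), .ofNat (nat_lit 625312), .ofNat (nat_lit 591016), .ofNat (nat_lit 648065)⟩, ⟨.ofNat (nat_lit 30000), .ofNat (nat_lit 188310), .ofNat (nat_lit 30000), .ofNat (nat_lit 200000), .ofNat (nat_lit 30000), .ofNat (nat_lit 192306), .ofNat (nat_lit 30000), .ofNat (nat_lit 200000)⟩⟩, [⟨nat_lit 22, nat_lit 100, nat_lit 83, nat_lit 64, nat_lit 87829023⟩]⟩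
noncomputable def p116_l28 : Lf2 := ⟨nat_lit 0, nat_lit 30, [nat_lit 15, nat_lit 5, nat_lit 5, nat_lit 20], false, nat_lit 20, nat_lit 80, nat_lit 0, nat_lit 160, ⟨nat_lit 236, nat_lit 0, nat_lit 764, nat_lit 6, nat_lit 224, nat_lit 764, nat_lit 49, nat_lit 764, nat_lit 22817, nat_lit 252, nat_lit 24782, nat_lit 200, nat_lit 49553827, nat_lit 0, nat_lit 0, nat_lit 3376447, false, false⟩,
 nat_lit 3919, nat_lit 0, nat_lit 0, nat_lit 0, nat_lit 2704, nat_lit 2074, nat_lit 0, nat_lit 0, nat_lit 0, nat_lit 203, nat_lit 0, nat_lit 0, nat_lit 0, nat_lit 0, nat_lit 47, nat_lit 218450, nat_lit 0, nat_lit 0, [(nat_lit 29, [(nat_lit 4, nat_lit 581), (nat_lit 5, nat_lit 183)])],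
 ⟨p116_k17, nat_lit 0, nat_lit 0, nat_lit 274, nat_lit 0, nat_lit 264359, [nat_lit 960486400, nat_lit 400752801, nat_lit 312810000], [], [nat_lit 21769467955, nat_lit 22403342447, nat_lit 23856622544, nat_lit 24388763180, nat_lit 21324656858, nat_lit 21907598804, nat_lit 23370627632, nat_lit 23879852624], nat_lit 1271250, nat_lit 1271250, nat_lit 1000851, nat_lit 1778250, nat_lit 111251, nat_lit 490000, [nat_lit 230000, nat_lit 780000, nat_lit 1762500], [nat_lit 54, nat_lit 40, nat_lit 40, nat_lit 80, nat_lit 43, nat_lit 317, nat_lit 100, nat_lit 10]⟩, ⟨p116_k4, nat_lit 0, nat_lit 0, nat_lit 672, nat_lit 0, nat_lit 555458, [nat_lit 1106368000, nat_lit 1880448000, nat_lit 3870400000], [], [nat_lit 10761348640, nat_lit 9125189060, nat_lit 8906993115, nat_lit 9060706291, nat_lit 7347290083, nat_lit 7512274835, nat_lit 8557169816, nat_lit 7415254219], nat_lit 1271250, nat_lit 1271250, nat_lit 1000851, nat_lit 1778250, nat_lit 0,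 nat_lit 1100001, [nat_lit 1100000, nat_lit 1785000, nat_lit 1271250], [nat_lit 122, nat_lit 40, nat_lit 40, nat_lit 80, nat_lit 111, nat_lit 401, nat_lit 175, nat_lit 9]⟩,
 ⟨nat_lit 1581, nat_lit 2237, ⟨.ofNat (nat_lit 471225), .ofNat (nat_lit 602558), .ofNat (nat_lit 516683), .ofNat (nat_lit 648016), .ofNat (nat_lit 475401), .ofNat (nat_lit 601260), .ofNat (nat_lit 521940), .ofNat (nat_lit 647799)⟩, ⟨.ofNat (nat_lit 50000), .ofNat (nat_lit 192306), .ofNat (nat_lit 50000), .ofNat (nat_lit 200000), .ofNat (nat_lit 50000), .ofNat (nat_lit 196201), .ofNat (nat_lit 50000), .ofNat (nat_lit 200000)⟩⟩, [⟨nat_lit 3, nat_lit 100, nat_lit 44, nat_lit 71, nat_lit 231713253⟩]⟩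
noncomputable def p116_l29 : Lf2 := ⟨nat_lit 0, nat_lit 30, [nat_lit 15, nat_lit 5, nat_lit 5, nat_lit 20], false, nat_lit 36, nat_lit 80, nat_lit 0, nat_lit 160, ⟨nat_lit 304, nat_lit 125, nat_lit 571, nat_lit 6, nat_lit 232, nat_lit 696, nat_lit 58, nat_lit 571, nat_lit 30817, nat_lit 258, nat_lit 26116, nat_lit 200, nat_lit 48338002, nat_lit 16718338, nat_lit 1943660, nat_lit 3564100, true, false⟩,
 nat_lit 5129, nat_lit 0, nat_lit 0, nat_lit 0, nat_lit 2964, nat_lit 2715, nat_lit 0, nat_lit 0, nat_lit 0, nat_lit 299, nat_lit 0, nat_lit 0, nat_lit 0, nat_lit 0, nat_lit 0, nat_lit 174000, nat_lit 0, nat_lit 0, [(nat_lit 29, [(nat_lit 0, nat_lit 125), (nat_lit 4, nat_lit 571)])],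
 ⟨p116_k3, nat_lit 0, nat_lit 0, nat_lit 235, nat_lit 0, nat_lit 303381, [nat_lit 817725601, nat_lit 550093067, nat_lit 626138000], [], [nat_lit 23057134477, nat_lit 23740446624, nat_lit 24663988506, nat_lit 25318000148, nat_lit 22691853469, nat_lit 23299526092, nat_lit 24268207005, nat_lit 24817619445], nat_lit 1271250, nat_lit 1271250, nat_lit 1236400, nat_lit 1794000, nat_lit 205650, nat_lit 490000, [nat_lit 230000, nat_lit 780000, nat_lit 1435000], [nat_lit 20, nat_lit 40, nat_lit 40, nat_lit 80, nat_lit 16, nat_lit 317, nat_lit 100, nat_lit 11]⟩, ⟨p116_k4, nat_lit 0, nat_lit 0, nat_lit 697, nat_lit 0, nat_lit 664927, [nat_lit 1425152000, nat_lit 2422272000, nat_lit 4985600000], [], [nat_lit 11919114312, nat_lit 11304044576, nat_lit 11110253215, nat_lit 11209182099, nat_lit 9203352228, nat_lit 9373365962, nat_lit 9241659732, nat_lit 9452533136], nat_lit 1271250, nat_lit 1271250, nat_lit 1271250, nat_lit 1271250, nat_lit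 0, nat_lit 1100001, [nat_lit 1100000, nat_lit 1785000, nat_lit 1271250], [nat_lit 122, nat_lit 40, nat_lit 40, nat_lit 80, nat_lit 111, nat_lit 401, nat_lit 175, nat_lit 8]⟩,
 ⟨nat_lit 0, nat_lit 1582, ⟨.ofNat (nat_lit 511747), .ofNat (nat_lit 601257), .ofNat (nat_lit 557064), .ofNat (nat_lit 646579), .ofNat (nat_lit 517899), .ofNat (nat_lit 599992), .ofNat (nat_lit 566585), .ofNat (nat_lit 648683)⟩, ⟨.ofNat (nat_lit 90000), .ofNat (nat_lit 196201), .ofNat (nat_lit 90000), .ofNat (nat_lit 200000), .ofNat (nat_lit 90000), .ofNat (nat_lit 199999), .ofNat (nat_lit 90000), .ofNat (nat_lit 200000)⟩⟩, [⟨nat_lit 0, nat_lit 96, nat_lit 22, nat_lit 100, nat_lit 288892712⟩, ⟨nat_lit 3, nat_lit 100, nat_lit 26, nat_lit 85, nat_lit 324869965⟩]⟩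
noncomputable def p116_l30 : Lf2 := ⟨nat_lit 0, nat_lit 30, [nat_lit 15, nat_lit 5, nat_lit 5, nat_lit 20], false, nat_lit 20, nat_lit 80, nat_lit 160, nat_lit 364, ⟨nat_lit 159, nat_lit 0, nat_lit 841, nat_lit 6, nat_lit 220, nat_lit 841, nat_lit 49, nat_lit 841, nat_lit 22817, nat_lit 252, nat_lit 4336, nat_lit 204, nat_lit 50031657, nat_lit 0, nat_lit 0, nat_lit 3335364, false, false⟩,
 nat_lit 2871, nat_lit 0, nat_lit 0, nat_lit 1155, nat_lit 2580, nat_lit 1519, nat_lit 0, nat_lit 0, nat_lit 0, nat_lit 95, nat_lit 0, nat_lit 0, nat_lit 0, nat_lit 0, nat_lit 66, nat_lit 210250, nat_lit 0, nat_lit 0, [(nat_lit 29, [(nat_lit 4, nat_lit 841)])],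
 ⟨p116_k0, nat_lit 0, nat_lit 0, nat_lit 269, nat_lit 0, nat_lit 229780, [nat_lit 1053647600, nat_lit 287928401, nat_lit 279470400], [], [nat_lit 21509301713, nat_lit 22107683478, nat_lit 23600878930, nat_lit 24123147275, nat_lit 21128238452, nat_lit 21699694414, nat_lit 23178482440, nat_lit 23678441780], nat_lit 1271250, nat_lit 1271250, nat_lit 1000851, nat_lit 1778250, nat_lit 111251, nat_lit 490000, [nat_lit 230000, nat_lit 1100000, nat_lit 1785000], [nat_lit 57, nat_lit 40, nat_lit 40, nat_lit 80, nat_lit 7, nat_lit 317, nat_lit 100, nat_lit 10]⟩, ⟨p116_k1, nat_lit 0, nat_lit 0, nat_lit 485, nat_lit 0, nat_lit 482802, [nat_lit 745392000, nat_lit 1564878000, nat_lit 2607600000], [], [nat_lit 6729472162, nat_lit 5922582400, nat_lit 5761690756, nat_lit 5204559421, nat_lit 5749531179, nat_lit 5770909142, nat_lit 5550763044, nat_lit 5558725013], nat_lit 1271250, nat_lit 1271250, nat_lit 1000851, nat_lit 1778250, nat_lit 1271250,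 nat_lit 1271250, [nat_lit 1100000, nat_lit 2127500, nat_lit 1271250], [nat_lit 83, nat_lit 40, nat_lit 40, nat_lit 80, nat_lit 73, nat_lit 456, nat_lit 225, nat_lit 9]⟩,
 ⟨nat_lit 1581, nat_lit 2237, ⟨.ofNat (nat_lit 471225), .ofNat (nat_lit 602558), .ofNat (nat_lit 493955), .ofNat (nat_lit 625287), .ofNat (nat_lit 475401), .ofNat (nat_lit 601260), .ofNat (nat_lit 498671), .ofNat (nat_lit 624529)⟩, ⟨.ofNat (nat_lit 50000), .ofNat (nat_lit 192306), .ofNat (nat_lit 50000), .ofNat (nat_lit 200000), .ofNat (nat_lit 50000), .ofNat (nat_lit 196201), .ofNat (nat_lit 50000), .ofNat (nat_lit 200000)⟩⟩, [⟨nat_lit 3, nat_lit 100, nat_lit 44, nat_lit 71, nat_lit 194652385⟩, ⟨nat_lit 22, nat_lit 100, nat_lit 73, nat_lit 66, nat_lit 47764438⟩]⟩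
noncomputable def p116_l31 : Lf2 := ⟨nat_lit 0, nat_lit 30, [nat_lit 15, nat_lit 5, nat_lit 5, nat_lit 20], false, nat_lit 36, nat_lit 80, nat_lit 160, nat_lit 364, ⟨nat_lit 152, nat_lit 91, nat_lit 757, nat_lit 6, nat_lit 228, nat_lit 848, nat_lit 58, nat_lit 757, nat_lit 30817, nat_lit 258, nat_lit 2404, nat_lit 204, nat_lit 48820156, nat_lit 16229551, nat_lit 1950293, nat_lit 3525687, true, false⟩,
 nat_lit 2757, nat_lit 18, nat_lit 0, nat_lit 0, nat_lit 2683, nat_lit 1459, nat_lit 0, nat_lit 0, nat_lit 0, nat_lit 109, nat_lit 0, nat_lit 0, nat_lit 0, nat_lit 0, nat_lit 44, nat_lit 212000, nat_lit 0, nat_lit 0, [(nat_lit 29, [(nat_lit 0, nat_lit 91), (nat_lit 4, nat_lit 757)])],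
 ⟨p116_k3, nat_lit 0, nat_lit 0, nat_lit 227, nat_lit 0, nat_lit 273368, [nat_lit 966232800, nat_lit 355259467, nat_lit 11568445], [], [nat_lit 22158033011, nat_lit 23000432351, nat_lit 23996978222, nat_lit 24748600069, nat_lit 21363645734, nat_lit 22069802009, nat_lit 23211756217, nat_lit 23847120692], nat_lit 1271250, nat_lit 1271250, nat_lit 1236400, nat_lit 1794000, nat_lit 205650, nat_lit 490000, [nat_lit 230000, nat_lit 780000, nat_lit 1435000], [nat_lit 20, nat_lit 40, nat_lit 40, nat_lit 80, nat_lit 16, nat_lit 317, nat_lit 100, nat_lit 11]⟩, ⟨p116_k4, nat_lit 0, nat_lit 0, nat_lit 508, nat_lit 0, nat_lit 599148, [nat_lit 712576000, nat_lit 1211136000, nat_lit 2492800000], [], [nat_lit 5358717391, nat_lit 4618248236, nat_lit 4599260285, nat_lit 4665589283, nat_lit 5417168537, nat_lit 5467151606, nat_lit 5378768409, nat_lit 5415563362], nat_lit 1271250, nat_lit 1271250, nat_lit 1271250, nat_lit 1271250, nat_lit 1271250,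 nat_lit 1271250, [nat_lit 1100000, nat_lit 1785000, nat_lit 1271250], [nat_lit 122, nat_lit 40, nat_lit 40, nat_lit 80, nat_lit 111, nat_lit 456, nat_lit 225, nat_lit 9]⟩,
 ⟨nat_lit 0, nat_lit 1582, ⟨.ofNat (nat_lit 511747), .ofNat (nat_lit 601257), .ofNat (nat_lit 534406), .ofNat (nat_lit 623921), .ofNat (nat_lit 517899), .ofNat (nat_lit 599992), .ofNat (nat_lit 542242), .ofNat (nat_lit 624340)⟩, ⟨.ofNat (nat_lit 90000), .ofNat (nat_lit 196201), .ofNat (nat_lit 90000), .ofNat (nat_lit 200000), .ofNat (nat_lit 90000), .ofNat (nat_lit 199999), .ofNat (nat_lit 90000), .ofNat (nat_lit 200000)⟩⟩, [⟨nat_lit 3, nat_lit 100, nat_lit 26, nat_lit 85, nat_lit 341041458⟩, ⟨nat_lit 3, nat_lit 100, nat_lit 39, nat_lit 72, nat_lit 77301565⟩, ⟨nat_lit 22, nat_lit 100, nat_lit 74, nat_lit 70, nat_lit 77397357⟩]⟩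
noncomputable def p116_l32 : Lf2 := ⟨nat_lit 0, nat_lit 30, [nat_lit 15, nat_lit 5, nat_lit 5, nat_lit 20], false, nat_lit 20, nat_lit 80, nat_lit 160, nat_lit 352, ⟨nat_lit 258, nat_lit 0, nat_lit 742, nat_lit 6, nat_lit 234, nat_lit 742, nat_lit 49, nat_lit 742, nat_lit 22817, nat_lit 252, nat_lit 24782, nat_lit 200, nat_lit 48495225, nat_lit 0, nat_lit 0, nat_lit 3461910, false, false⟩,
 nat_lit 4204, nat_lit 0, nat_lit 0, nat_lit 0, nat_lit 2677, nat_lit 2447, nat_lit 0, nat_lit 0, nat_lit 0, nat_lit 135, nat_lit 0, nat_lit 0, nat_lit 0, nat_lit 0, nat_lit 50, nat_lit 234700, nat_lit 0, nat_lit 0, [(nat_lit 29, [(nat_lit 4, nat_lit 414), (nat_lit 5, nat_lit 328)])],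
 ⟨p116_k0, nat_lit 0, nat_lit 0, nat_lit 275, nat_lit 0, nat_lit 264359, [nat_lit 952007201, nat_lit 298522720, nat_lit 342419200], [], [nat_lit 22030667449, nat_lit 22649056548, nat_lit 23768231739, nat_lit 24328127276, nat_lit 21598049501, nat_lit 22163297537, nat_lit 23296084870, nat_lit 23803292341], nat_lit 1271250, nat_lit 1271250, nat_lit 1167600, nat_lit 1789500, nat_lit 111251, nat_lit 490000, [nat_lit 230000, nat_lit 1100000, nat_lit 1785000], [nat_lit 57, nat_lit 40, nat_lit 40, nat_lit 80, nat_lit 7, nat_lit 317, nat_lit 100, nat_lit 10]⟩, ⟨p116_k2, nat_lit 0, nat_lit 0, nat_lit 417, nat_lit 0, nat_lit 487947, [nat_lit 1209504000, nat_lit 2539236000, nat_lit 3626964000], [], [nat_lit 8290888560, nat_lit 7785828412, nat_lit 7748203798, nat_lit 7870535104, nat_lit 8605929970, nat_lit 8666278891, nat_lit 8502228149, nat_lit 8603344967], nat_lit 1271250, nat_lit 1271250, nat_lit 1271250, nat_lit 1271250, nat_lit 1271250,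 nat_lit 1271250, [nat_lit 1100000, nat_lit 2127500, nat_lit 1271250], [nat_lit 56, nat_lit 40, nat_lit 40, nat_lit 80, nat_lit 32, nat_lit 456, nat_lit 225, nat_lit 10]⟩,
 ⟨nat_lit 1581, nat_lit 2237, ⟨.ofNat (nat_lit 522505), .ofNat (nat_lit 625287), .ofNat (nat_lit 545234), .ofNat (nat_lit 648016), .ofNat (nat_lit 526032), .ofNat (nat_lit 624529), .ofNat (nat_lit 549300), .ofNat (nat_lit 647799)⟩, ⟨.ofNat (nat_lit 50000), .ofNat (nat_lit 192306), .ofNat (nat_lit 50000), .ofNat (nat_lit 200000), .ofNat (nat_lit 50000), .ofNat (nat_lit 196201), .ofNat (nat_lit 50000), .ofNat (nat_lit 200000)⟩⟩, [⟨nat_lit 3, nat_lit 100, nat_lit 44, nat_lit 71, nat_lit 216440944⟩, ⟨nat_lit 19, nat_lit 100, nat_lit 82, nat_lit 92, nat_lit 85883343⟩]⟩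
noncomputable def p116_l33 : Lf2 := ⟨nat_lit 0, nat_lit 30, [nat_lit 15, nat_lit 5, nat_lit 5, nat_lit 20], false, nat_lit 36, nat_lit 80, nat_lit 160, nat_lit 352, ⟨nat_lit 278, nat_lit 38, nat_lit 684, nat_lit 6, nat_lit 243, nat_lit 722, nat_lit 58, nat_lit 684, nat_lit 30817, nat_lit 258, nat_lit 26116, nat_lit 200, nat_lit 47307439, nat_lit 17764723, nat_lit 1927838, nat_lit 3640944, true, false⟩,
 nat_lit 4350, nat_lit 0, nat_lit 0, nat_lit 0, nat_lit 2700, nat_lit 2532, nat_lit 0, nat_lit 0, nat_lit 0, nat_lit 165, nat_lit 0, nat_lit 0, nat_lit 0, nat_lit 0, nat_lit 0, nat_lit 180500, nat_lit 0, nat_lit 0, [(nat_lit 29, [(nat_lit 0, nat_lit 38), (nat_lit 4, nat_lit 684)])],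
 ⟨p116_k18, nat_lit 0, nat_lit 0, nat_lit 239, nat_lit 0, nat_lit 303381, [nat_lit 811399200, nat_lit 138868001, nat_lit 11935200], [], [nat_lit 23159343464, nat_lit 23688233578, nat_lit 24225032625, nat_lit 24785378201, nat_lit 22870037442, nat_lit 23381318442, nat_lit 23906045401, nat_lit 24448598001], nat_lit 1271250, nat_lit 1271250, nat_lit 1271250, nat_lit 1271250, nat_lit 205650, nat_lit 490000, [nat_lit 230000, nat_lit 1100000, nat_lit 1442500], [nat_lit 55, nat_lit 40, nat_lit 40, nat_lit 80, nat_lit 3, nat_lit 317, nat_lit 100, nat_lit 11]⟩, ⟨p116_k2, nat_lit 0, nat_lit 0, nat_lit 449, nat_lit 0, nat_lit 584111, [nat_lit 1303264000, nat_lit 2736076000, nat_lit 3908124000], [], [nat_lit 8089805472, nat_lit 8242517587, nat_lit 8222949788, nat_lit 8354381604, nat_lit 9049176710, nat_lit 9108194179, nat_lit 9016837907, nat_lit 9062975432], nat_lit 1271250, nat_lit 1271250, nat_lit 1271250, nat_lit 1271250, nat_lit 1271250,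 nat_lit 1271250, [nat_lit 1100000, nat_lit 2127500, nat_lit 1271250], [nat_lit 56, nat_lit 40, nat_lit 40, nat_lit 80, nat_lit 32, nat_lit 456, nat_lit 225, nat_lit 10]⟩,
 ⟨nat_lit 0, nat_lit 1582, ⟨.ofNat (nat_lit 562380), .ofNat (nat_lit 623921), .ofNat (nat_lit 585037), .ofNat (nat_lit 646579), .ofNat (nat_lit 567898), .ofNat (nat_lit 624340), .ofNat (nat_lit 592241), .ofNat (nat_lit 648683)⟩, ⟨.ofNat (nat_lit 90000), .ofNat (nat_lit 196201), .ofNat (nat_lit 90000), .ofNat (nat_lit 200000), .ofNat (nat_lit 90000), .ofNat (nat_lit 199999), .ofNat (nat_lit 90000), .ofNat (nat_lit 200000)⟩⟩, [⟨nat_lit 0, nat_lit 95, nat_lit 22, nat_lit 100, nat_lit 432547942⟩, ⟨nat_lit 19, nat_lit 100, nat_lit 82, nat_lit 92, nat_lit 5579498⟩, ⟨nat_lit 22, nat_lit 100, nat_lit 77, nat_lit 71, nat_lit 109588283⟩]⟩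
noncomputable def b_V_900_600_20_61 : St := ⟨true, nat_lit 1, nat_lit 1, nat_lit 1, nat_lit 120, nat_lit 360, nat_lit 400, nat_lit 240, nat_lit 280, nat_lit 112, nat_lit 240, nat_lit 80, nat_lit 120, nat_lit 8, nat_lit 80, nat_lit 0, nat_lit 364, nat_lit 80, nat_lit 120, nat_lit 0, nat_lit 0, nat_lit 0, nat_lit 0⟩
theorem d_V_900_600_20_61 (h : EB TB.env) : Dead b_V_900_600_20_61 := chkB_sound0 h (T :=
(.spl (nat_lit 0) (nat_lit 380)
(.spl (nat_lit 2) (nat_lit 160)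
(.spl (nat_lit 3) (nat_lit 100)
(.trX (nat_lit 19) (nat_lit 100) (nat_lit 68) (nat_lit 88) (nat_lit 352) (.leaf p116_l12))
(.trZ (nat_lit 3) (nat_lit 100) (nat_lit 69) (nat_lit 45) (nat_lit 16) (.spl (nat_lit 6) (nat_lit 100)
(.leaf p116_l13)
(.spl (nat_lit 0) (nat_lit 370)
(.leaf p116_l14)
(.trZ (nat_lit 0) (nat_lit 100) (nat_lit 54) (nat_lit 96) (nat_lit 128) (.trZ (nat_lit 3) (nat_lit 100) (nat_lit 61) (nat_lit 55) (nat_lit 20) (.leaf p116_l15)))))))
(.spl (nat_lit 1) (nat_lit 260)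
(.spl (nat_lit 5) (nat_lit 160)
(.leaf p116_l16)
(.spl (nat_lit 0) (nat_lit 370)
(.spl (nat_lit 0) (nat_lit 365)
(.leaf p116_l17)
(.leaf p116_l18))
(.trZ (nat_lit 3) (nat_lit 100) (nat_lit 66) (nat_lit 45) (nat_lit 12) (.leaf p116_l19))))
(.trX (nat_lit 19) (nat_lit 100) (nat_lit 69) (nat_lit 96) (nat_lit 352) (.spl (nat_lit 0) (nat_lit 370)
(.spl (nat_lit 2) (nat_lit 200)
(.spl (nat_lit 3) (nat_lit 100)
(.trX (nat_lit 19) (nat_lit 100) (nat_lit 77) (nat_lit 91) (nat_lit 336) (.leaf p116_l20))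
(.trZ (nat_lit 3) (nat_lit 100) (nat_lit 69) (nat_lit 45) (nat_lit 16) (.spl (nat_lit 0) (nat_lit 365)
(.spl (nat_lit 6) (nat_lit 108)
(.leaf p116_l21)
(.leaf p116_l22))
(.leaf p116_l23))))
(.spl (nat_lit 0) (nat_lit 365)
(.leaf p116_l24)
(.leaf p116_l25)))
(.trZ (nat_lit 3) (nat_lit 100) (nat_lit 66) (nat_lit 45) (nat_lit 12) (.spl (nat_lit 2) (nat_lit 200)
(.leaf p116_l26)
(.leaf p116_l27)))))))
(.trZ (nat_lit 0) (nat_lit 100) (nat_lit 44) (nat_lit 99) (nat_lit 148) (.trZ (nat_lit 3) (nat_lit 100) (nat_lit 54) (nat_lit 57) (nat_lit 20) (.spl (nat_lit 5) (nat_lit 160)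
(.spl (nat_lit 0) (nat_lit 390)
(.leaf p116_l28)
(.trZ (nat_lit 0) (nat_lit 99) (nat_lit 31) (nat_lit 100) (nat_lit 176) (.trZ (nat_lit 3) (nat_lit 100) (nat_lit 39) (nat_lit 72) (nat_lit 36) (.leaf p116_l29))))
(.spl (nat_lit 1) (nat_lit 260)
(.spl (nat_lit 0) (nat_lit 390)
(.leaf p116_l30)
(.trZ (nat_lit 0) (nat_lit 99) (nat_lit 31) (nat_lit 100) (nat_lit 176) (.trZ (nat_lit 3) (nat_lit 100) (nat_lit 39) (nat_lit 72) (nat_lit 36) (.leaf p116_l31))))
(.trZ (nat_lit 0) (nat_lit 96) (nat_lit 44) (nat_lit 100) (nat_lit 168) (.trX (nat_lit 19) (nat_lit 100) (nat_lit 69) (nat_lit 96) (nat_lit 352) (.spl (nat_lit 0) (nat_lit 390)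
(.leaf p116_l32)
(.trZ (nat_lit 0) (nat_lit 95) (nat_lit 31) (nat_lit 100) (nat_lit 196) (.trZ (nat_lit 3) (nat_lit 100) (nat_lit 39) (nat_lit 72) (nat_lit 36) (.leaf p116_l33)))))))))))) (by decide +kernel)
noncomputable def p116_l34 : Lf2 := ⟨nat_lit 0, nat_lit 30, [nat_lit 15, nat_lit 5, nat_lit 5, nat_lit 20], false, nat_lit 80, nat_lit 160, nat_lit 0, nat_lit 364, ⟨nat_lit 0, nat_lit 0, nat_lit 1000, nat_lit 6, nat_lit 208, nat_lit 1000, nat_lit 104, nat_lit 1000, nat_lit 101400, nat_lit 293, nat_lit 2400, nat_lit 203, nat_lit 48295200, nat_lit 0, nat_lit 0, nat_lit 3988121, false, false⟩,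
 nat_lit 0, nat_lit 3190, nat_lit 0, nat_lit 2667, nat_lit 2778, nat_lit 0, nat_lit 21, nat_lit 0, nat_lit 0, nat_lit 0, nat_lit 0, nat_lit 0, nat_lit 0, nat_lit 0, nat_lit 108, nat_lit 250000, nat_lit 0, nat_lit 0, [(nat_lit 26, [(nat_lit 4, nat_lit 1000)])],
 ⟨p116_k6, nat_lit 0, nat_lit 0, nat_lit 188, nat_lit 0, nat_lit 132823, [nat_lit 1207600000, nat_lit 698800001, nat_lit 686800000], [], [nat_lit 18848087245, nat_lit 19475908883, nat_lit 21307751376, nat_lit 21810307856, nat_lit 19648043032, nat_lit 20195841099, nat_lit 21930567664, nat_lit 22390940584], nat_lit 1271250, nat_lit 1271250, nat_lit 719601, nat_lit 1758000, nat_lit 490000, nat_lit 1100001, [nat_lit 230000, nat_lit 1100000, nat_lit 2127500], [nat_lit 81, nat_lit 40, nat_lit 40, nat_lit 80, nat_lit 13, nat_lit 317, nat_lit 100, nat_lit 9]⟩, ⟨p116_k1, nat_lit 0, nat_lit 0, nat_lit 526, nat_lit 0, nat_lit 255665, [nat_lit 0, nat_lit 0, nat_lit 0], [], [nat_lit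 0, nat_lit 0, nat_lit 0, nat_lit 0, nat_lit 0, nat_lit 0, nat_lit 0, nat_lit 0], nat_lit 1271250, nat_lit 1271250, nat_lit 719601, nat_lit 1758000, nat_lit 0, nat_lit 2570750, [nat_lit 1100000, nat_lit 2127500, nat_lit 1271250], [nat_lit 83, nat_lit 40, nat_lit 40, nat_lit 80, nat_lit 73, nat_lit 456, nat_lit 225, nat_lit 10]⟩,
 ⟨nat_lit 2738, nat_lit 3163, ⟨.ofNat (nat_lit 410148), .ofNat (nat_lit 605257), .ofNat (nat_lit 432290), .ofNat (nat_lit 627400), .ofNat (nat_lit 414835), .ofNat (nat_lit 603890), .ofNat (nat_lit 437240), .ofNat (nat_lit 626295)⟩, ⟨.ofNat (nat_lit 184209), .ofNat (nat_lit 306116), .ofNat (nat_lit 200000), .ofNat (nat_lit 350426), .ofNat (nat_lit 188310), .ofNat (nat_lit 306433), .ofNat (nat_lit 200000), .ofNat (nat_lit 351268)⟩⟩, []⟩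
noncomputable def p116_l35 : Lf2 := ⟨nat_lit 0, nat_lit 25, [nat_lit 44, nat_lit 5, nat_lit 5, nat_lit 20], false, nat_lit 80, nat_lit 160, nat_lit 0, nat_lit 336, ⟨nat_lit 0, nat_lit 249, nat_lit 751, nat_lit 6, nat_lit 223, nat_lit 1000, nat_lit 102, nat_lit 751, nat_lit 98817, nat_lit 292, nat_lit 27834, nat_lit 200, nat_lit 47020605, nat_lit 15418195, nat_lit 4561200, nat_lit 4083729, false, false⟩,
 nat_lit 0, nat_lit 3289, nat_lit 0, nat_lit 0, nat_lit 2864, nat_lit 0, nat_lit 0, nat_lit 0, nat_lit 0, nat_lit 0, nat_lit 0, nat_lit 0, nat_lit 0, nat_lit 0, nat_lit 55, nat_lit 250000, nat_lit 0, nat_lit 0, [(nat_lit 26, [(nat_lit 0, nat_lit 249), (nat_lit 4, nat_lit 751)])],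
 ⟨p116_k7, nat_lit 0, nat_lit 0, nat_lit 164, nat_lit 0, nat_lit 168470, [nat_lit 993110000, nat_lit 534155601, nat_lit 13814800], [], [nat_lit 18796396698, nat_lit 19468657646, nat_lit 21269462096, nat_lit 21840178464, nat_lit 19668156426, nat_lit 20251660596, nat_lit 21946098768, nat_lit 22445270096], nat_lit 1271250, nat_lit 1271250, nat_lit 872850, nat_lit 1769250, nat_lit 490000, nat_lit 1100001, [nat_lit 230000, nat_lit 1100000, nat_lit 1785000], [nat_lit 57, nat_lit 40, nat_lit 40, nat_lit 80, nat_lit 7, nat_lit 317, nat_lit 100, nat_lit 10]⟩, ⟨p116_k11, nat_lit 0, nat_lit 0, nat_lit 463, nat_lit 0, nat_lit 283338, [nat_lit 0, nat_lit 0, nat_lit 0], [], [nat_lit 0, nat_lit 0, nat_lit 0, nat_lit 0, nat_lit 0, nat_lit 0, nat_lit 0, nat_lit 0], nat_lit 1271250, nat_lit 1271250, nat_lit 872850, nat_lit 1769250, nat_lit 0, nat_lit 2373000, [nat_lit 1100000, nat_lit 2127500, nat_lit 1271250], [nat_lit 56, nat_lit 40, nat_lit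 40, nat_lit 80, nat_lit 32, nat_lit 456, nat_lit 225, nat_lit 11]⟩,
 ⟨nat_lit 2738, nat_lit 3163, ⟨.ofNat (nat_lit 462776), .ofNat (nat_lit 627400), .ofNat (nat_lit 484919), .ofNat (nat_lit 649542), .ofNat (nat_lit 466780), .ofNat (nat_lit 626295), .ofNat (nat_lit 489185), .ofNat (nat_lit 648700)⟩, ⟨.ofNat (nat_lit 184209), .ofNat (nat_lit 306116), .ofNat (nat_lit 200000), .ofNat (nat_lit 328271), .ofNat (nat_lit 188310), .ofNat (nat_lit 306433), .ofNat (nat_lit 200000), .ofNat (nat_lit 328850)⟩⟩, []⟩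
noncomputable def p116_l36 : Lf2 := ⟨nat_lit 0, nat_lit 27, [nat_lit 147, nat_lit 5, nat_lit 5, nat_lit 20], false, nat_lit 80, nat_lit 160, nat_lit 0, nat_lit 352, ⟨nat_lit 0, nat_lit 196, nat_lit 804, nat_lit 6, nat_lit 223, nat_lit 1000, nat_lit 108, nat_lit 804, nat_lit 109350, nat_lit 296, nat_lit 27880, nat_lit 200, nat_lit 46697899, nat_lit 15353475, nat_lit 4948626, nat_lit 4155410, false, false⟩,
 nat_lit 0, nat_lit 3125, nat_lit 0, nat_lit 3165, nat_lit 2721, nat_lit 0, nat_lit 0, nat_lit 0, nat_lit 0, nat_lit 0, nat_lit 0, nat_lit 0, nat_lit 0, nat_lit 0, nat_lit 66, nat_lit 250000, nat_lit 0, nat_lit 0, [(nat_lit 26, [(nat_lit 0, nat_lit 196), (nat_lit 4, nat_lit 804)])],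
 ⟨p116_k19, nat_lit 0, nat_lit 0, nat_lit 134, nat_lit 0, nat_lit 80908, [nat_lit 1037640000, nat_lit 564702401, nat_lit 8299200], [], [nat_lit 18556300928, nat_lit 18884181378, nat_lit 21044242892, nat_lit 21317824554, nat_lit 19464699185, nat_lit 19756859116, nat_lit 21760676900, nat_lit 22010742318], nat_lit 1271250, nat_lit 1271250, nat_lit 872850, nat_lit 1769250, nat_lit 490000, nat_lit 1100001, [nat_lit 230000, nat_lit 1100000, nat_lit 1785000], [nat_lit 57, nat_lit 40, nat_lit 40, nat_lit 80, nat_lit 7, nat_lit 317, nat_lit 100, nat_lit 10]⟩, ⟨p116_k20, nat_lit 0, nat_lit 0, nat_lit 403, nat_lit 0, nat_lit 136374, [nat_lit 0, nat_lit 0, nat_lit 0], [], [nat_lit 0, nat_lit 0, nat_lit 0, nat_lit 0, nat_lit 0, nat_lit 0, nat_lit 0, nat_lit 0], nat_lit 1271250, nat_lit 1271250, nat_lit 872850, nat_lit 1769250, nat_lit 0, nat_lit 2486000, [nat_lit 1100000, nat_lit 2127500, nat_lit 1271250], [nat_lit 56, nat_lit 40, nat_lit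 40, nat_lit 80, nat_lit 32, nat_lit 456, nat_lit 225, nat_lit 11]⟩,
 ⟨nat_lit 2958, nat_lit 3163, ⟨.ofNat (nat_lit 462828), .ofNat (nat_lit 627413), .ofNat (nat_lit 484981), .ofNat (nat_lit 649565), .ofNat (nat_lit 464780), .ofNat (nat_lit 626848), .ofNat (nat_lit 487055), .ofNat (nat_lit 649122)⟩, ⟨.ofNat (nat_lit 200000), .ofNat (nat_lit 328271), .ofNat (nat_lit 200000), .ofNat (nat_lit 350426), .ofNat (nat_lit 200000), .ofNat (nat_lit 328592), .ofNat (nat_lit 200000), .ofNat (nat_lit 350869)⟩⟩, []⟩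
noncomputable def p116_l37 : Lf2 := ⟨nat_lit 1, nat_lit 30, [nat_lit 15, nat_lit 5, nat_lit 5, nat_lit 20], false, nat_lit 80, nat_lit 160, nat_lit 0, nat_lit 352, zbN0,
 nat_lit 0, nat_lit 0, nat_lit 0, nat_lit 0, nat_lit 0, nat_lit 0, nat_lit 0, nat_lit 0, nat_lit 0, nat_lit 0, nat_lit 0, nat_lit 0, nat_lit 0, nat_lit 0, nat_lit 0, nat_lit 0, nat_lit 0, nat_lit 0, [],
 C1.Rw.none, C1.Rw.none,
 zbF0, []⟩
noncomputable def p116_l38 : Lf2 := ⟨nat_lit 0, nat_lit 30, [nat_lit 15, nat_lit 5, nat_lit 5, nat_lit 20], false, nat_lit 80, nat_lit 160, nat_lit 0, nat_lit 352, ⟨nat_lit 212, nat_lit 0, nat_lit 788, nat_lit 6, nat_lit 225, nat_lit 788, nat_lit 108, nat_lit 788, nat_lit 109350, nat_lit 296, nat_lit 26992, nat_lit 200, nat_lit 46442009, nat_lit 0, nat_lit 0, nat_lit 4176802, false, false⟩,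
 nat_lit 2882, nat_lit 1639, nat_lit 0, nat_lit 548, nat_lit 4008, nat_lit 1677, nat_lit 0, nat_lit 0, nat_lit 0, nat_lit 0, nat_lit 0, nat_lit 0, nat_lit 0, nat_lit 0, nat_lit 0, nat_lit 157600, nat_lit 0, nat_lit 0, [(nat_lit 26, [(nat_lit 3, nat_lit 788)])],
 ⟨p116_k14, nat_lit 0, nat_lit 0, nat_lit 140, nat_lit 0, nat_lit 107260, [nat_lit 1103480001, nat_lit 502724001, nat_lit 113216000], [], [nat_lit 20473654694, nat_lit 20867082524, nat_lit 22716401060, nat_lit 23049885608, nat_lit 20888412524, nat_lit 21243593320, nat_lit 22922452752, nat_lit 23227396600], nat_lit 1271250, nat_lit 1271250, nat_lit 936251, nat_lit 1773750, nat_lit 490000, nat_lit 1100001, [nat_lit 230000, nat_lit 780000, nat_lit 1762500], [nat_lit 54, nat_lit 40, nat_lit 40, nat_lit 80, nat_lit 43, nat_lit 317, nat_lit 100, nat_lit 10]⟩, ⟨p116_k15, nat_lit 0, nat_lit 0, nat_lit 412, nat_lit 0, nat_lit 185462, [nat_lit 993856000, nat_lit 1689216000, nat_lit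 2980296000], [], [nat_lit 9135076448, nat_lit 9313810950, nat_lit 9352107232, nat_lit 9491748428, nat_lit 8922112871, nat_lit 8994595885, nat_lit 10049838497, nat_lit 9307704284], nat_lit 1271250, nat_lit 1271250, nat_lit 936251, nat_lit 1773750, nat_lit 0, nat_lit 2486000, [nat_lit 1100000, nat_lit 1785000, nat_lit 1271250], [nat_lit 37, nat_lit 40, nat_lit 40, nat_lit 80, nat_lit 28, nat_lit 456, nat_lit 225, nat_lit 11]⟩,
 ⟨nat_lit 2738, nat_lit 2959, ⟨.ofNat (nat_lit 476781), .ofNat (nat_lit 626847), .ofNat (nat_lit 499055), .ofNat (nat_lit 649121), .ofNat (nat_lit 478641), .ofNat (nat_lit 626308), .ofNat (nat_lit 501056), .ofNat (nat_lit 648722)⟩, ⟨.ofNat (nat_lit 200000), .ofNat (nat_lit 328592), .ofNat (nat_lit 200000), .ofNat (nat_lit 350869), .ofNat (nat_lit 200000), .ofNat (nat_lit 328850), .ofNat (nat_lit 200000), .ofNat (nat_lit 351268)⟩⟩, [⟨nat_lit 7, nat_lit 78, nat_lit 100, nat_lit 95, nat_lit 40421779⟩]⟩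
noncomputable def p116_l39 : Lf2 := ⟨nat_lit 0, nat_lit 30, [nat_lit 15, nat_lit 5, nat_lit 5, nat_lit 20], false, nat_lit 80, nat_lit 160, nat_lit 0, nat_lit 364, ⟨nat_lit 0, nat_lit 199, nat_lit 801, nat_lit 6, nat_lit 213, nat_lit 1000, nat_lit 105, nat_lit 801, nat_lit 104017, nat_lit 294, nat_lit 6376, nat_lit 204, nat_lit 47756428, nat_lit 14465674, nat_lit 4777898, nat_lit 4041188, false, false⟩,
 nat_lit 0, nat_lit 2943, nat_lit 0, nat_lit 1870, nat_lit 2655, nat_lit 0, nat_lit 0, nat_lit 0, nat_lit 0, nat_lit 0, nat_lit 0, nat_lit 0, nat_lit 0, nat_lit 0, nat_lit 66, nat_lit 250000, nat_lit 0, nat_lit 0, [(nat_lit 26, [(nat_lit 0, nat_lit 199), (nat_lit 4, nat_lit 801)])],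
 ⟨p116_k8, nat_lit 0, nat_lit 0, nat_lit 176, nat_lit 0, nat_lit 182986, [nat_lit 1037610000, nat_lit 572935601, nat_lit 23554800], [], [nat_lit 19306043288, nat_lit 19929769440, nat_lit 21765430380, nat_lit 22295358580, nat_lit 20217074051, nat_lit 20784847432, nat_lit 22488698345, nat_lit 22973443030], nat_lit 1271250, nat_lit 1271250, nat_lit 841600, nat_lit 1767000, nat_lit 490000, nat_lit 1100001, [nat_lit 230000, nat_lit 1100000, nat_lit 1785000], [nat_lit 57, nat_lit 40, nat_lit 40, nat_lit 80, nat_lit 7, nat_lit 317, nat_lit 100, nat_lit 10]⟩, ⟨p116_k1, nat_lit 0, nat_lit 0, nat_lit 620, nat_lit 0, nat_lit 368204, [nat_lit 0, nat_lit 0, nat_lit 0], [], [nat_lit 0, nat_lit 0, nat_lit 0, nat_lit 0, nat_lit 0, nat_lit 0, nat_lit 0, nat_lit 0], nat_lit 1271250, nat_lit 1271250, nat_lit 841600, nat_lit 1767000, nat_lit 0, nat_lit 2570750, [nat_lit 1100000, nat_lit 2127500, nat_lit 1271250], [nat_lit 83, nat_lit 40, nat_lit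 40, nat_lit 80, nat_lit 73, nat_lit 456, nat_lit 225, nat_lit 10]⟩,
 ⟨nat_lit 2236, nat_lit 2739, ⟨.ofNat (nat_lit 438420), .ofNat (nat_lit 603890), .ofNat (nat_lit 460818), .ofNat (nat_lit 626287), .ofNat (nat_lit 442816), .ofNat (nat_lit 602558), .ofNat (nat_lit 465571), .ofNat (nat_lit 625312)⟩, ⟨.ofNat (nat_lit 188310), .ofNat (nat_lit 306433), .ofNat (nat_lit 200000), .ofNat (nat_lit 351268), .ofNat (nat_lit 192306), .ofNat (nat_lit 306337), .ofNat (nat_lit 200000), .ofNat (nat_lit 351886)⟩⟩, []⟩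
noncomputable def p116_l40 : Lf2 := ⟨nat_lit 0, nat_lit 30, [nat_lit 15, nat_lit 5, nat_lit 5, nat_lit 20], false, nat_lit 80, nat_lit 160, nat_lit 0, nat_lit 352, ⟨nat_lit 119, nat_lit 5, nat_lit 876, nat_lit 6, nat_lit 226, nat_lit 881, nat_lit 105, nat_lit 876, nat_lit 104017, nat_lit 294, nat_lit 3750, nat_lit 200, nat_lit 46573753, nat_lit 15697609, nat_lit 4728638, nat_lit 4141644, false, false⟩,
 nat_lit 1245, nat_lit 1845, nat_lit 0, nat_lit 990, nat_lit 2788, nat_lit 724, nat_lit 0, nat_lit 0, nat_lit 0, nat_lit 0, nat_lit 0, nat_lit 0, nat_lit 0, nat_lit 0, nat_lit 54, nat_lit 218700, nat_lit 0, nat_lit 0, [(nat_lit 26, [(nat_lit 0, nat_lit 5), (nat_lit 3, nat_lit 31), (nat_lit 4, nat_lit 845)])],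
 ⟨p116_k16, nat_lit 0, nat_lit 0, nat_lit 168, nat_lit 0, nat_lit 201817, [nat_lit 982198000, nat_lit 751183001, nat_lit 21078000], [], [nat_lit 19744805587, nat_lit 20388164917, nat_lit 21889834368, nat_lit 22452439024, nat_lit 20595240941, nat_lit 21160514036, nat_lit 22570595932, nat_lit 23066984520], nat_lit 1271250, nat_lit 1271250, nat_lit 1000851, nat_lit 1778250, nat_lit 490000, nat_lit 1100001, [nat_lit 230000, nat_lit 780000, nat_lit 1762500], [nat_lit 54, nat_lit 40, nat_lit 40, nat_lit 80, nat_lit 43, nat_lit 317, nat_lit 100, nat_lit 10]⟩, ⟨p116_k15, nat_lit 0, nat_lit 0, nat_lit 470, nat_lit 0, nat_lit 356738, [nat_lit 557872000, nat_lit 948192000, nat_lit 1672902000], [], [nat_lit 5338084360, nat_lit 5376230145, nat_lit 5466385750, nat_lit 5497418903, nat_lit 5391665229, nat_lit 5409046649, nat_lit 5573798702, nat_lit 5413600380], nat_lit 1271250, nat_lit 1271250, nat_lit 1000851, nat_lit 1778250, nat_lit 0,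 nat_lit 2486000, [nat_lit 1100000, nat_lit 1785000, nat_lit 1271250], [nat_lit 37, nat_lit 40, nat_lit 40, nat_lit 80, nat_lit 28, nat_lit 456, nat_lit 225, nat_lit 10]⟩,
 ⟨nat_lit 2236, nat_lit 2739, ⟨.ofNat (nat_lit 490366), .ofNat (nat_lit 626287), .ofNat (nat_lit 501564), .ofNat (nat_lit 637486), .ofNat (nat_lit 494096), .ofNat (nat_lit 625312), .ofNat (nat_lit 505473), .ofNat (nat_lit 636689)⟩, ⟨.ofNat (nat_lit 188310), .ofNat (nat_lit 306433), .ofNat (nat_lit 200000), .ofNat (nat_lit 351268), .ofNat (nat_lit 192306), .ofNat (nat_lit 306337), .ofNat (nat_lit 200000), .ofNat (nat_lit 351886)⟩⟩, [⟨nat_lit 7, nat_lit 80, nat_lit 100, nat_lit 92, nat_lit 23731494⟩]⟩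
noncomputable def p116_l41 : Lf2 := ⟨nat_lit 0, nat_lit 30, [nat_lit 15, nat_lit 5, nat_lit 5, nat_lit 20], false, nat_lit 80, nat_lit 160, nat_lit 0, nat_lit 344, ⟨nat_lit 219, nat_lit 0, nat_lit 781, nat_lit 6, nat_lit 234, nat_lit 781, nat_lit 105, nat_lit 781, nat_lit 104017, nat_lit 294, nat_lit 26118, nat_lit 200, nat_lit 45822840, nat_lit 0, nat_lit 0, nat_lit 4199669, false, false⟩,
 nat_lit 3625, nat_lit 0, nat_lit 0, nat_lit 0, nat_lit 3270, nat_lit 2207, nat_lit 44, nat_lit 0, nat_lit 0, nat_lit 7, nat_lit 0, nat_lit 0, nat_lit 0, nat_lit 0, nat_lit 3, nat_lit 174550, nat_lit 0, nat_lit 0, [(nat_lit 26, [(nat_lit 3, nat_lit 414), (nat_lit 4, nat_lit 367)])],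
 ⟨p116_k16, nat_lit 0, nat_lit 0, nat_lit 171, nat_lit 0, nat_lit 222534, [nat_lit 959870001, nat_lit 528841601, nat_lit 44921200], [], [nat_lit 20500850640, nat_lit 21190197440, nat_lit 22472040470, nat_lit 23076916460, nat_lit 21129422542, nat_lit 21726511002, nat_lit 22924729732, nat_lit 23458204320], nat_lit 1271250, nat_lit 1271250, nat_lit 1100001, nat_lit 1785000, nat_lit 490000, nat_lit 1100001, [nat_lit 230000, nat_lit 780000, nat_lit 1762500], [nat_lit 54, nat_lit 40, nat_lit 40, nat_lit 80, nat_lit 43, nat_lit 317, nat_lit 100, nat_lit 10]⟩, ⟨p116_k21, nat_lit 0, nat_lit 0, nat_lit 470, nat_lit 0, nat_lit 370089, [nat_lit 1026672000, nat_lit 1744992000, nat_lit 3078702000], [], [nat_lit 9135234550, nat_lit 9251187416, nat_lit 9482521188, nat_lit 9599576052, nat_lit 8974688228, nat_lit 8616873495, nat_lit 8535200551, nat_lit 8580386375], nat_lit 1271250, nat_lit 1271250, nat_lit 1271250, nat_lit 1271250, nat_lit 0,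 nat_lit 2429500, [nat_lit 1100000, nat_lit 1785000, nat_lit 1271250], [nat_lit 37, nat_lit 40, nat_lit 40, nat_lit 80, nat_lit 28, nat_lit 456, nat_lit 225, nat_lit 10]⟩,
 ⟨nat_lit 2236, nat_lit 2739, ⟨.ofNat (nat_lit 519293), .ofNat (nat_lit 637486), .ofNat (nat_lit 530492), .ofNat (nat_lit 648684), .ofNat (nat_lit 522587), .ofNat (nat_lit 636689), .ofNat (nat_lit 533965), .ofNat (nat_lit 648065)⟩, ⟨.ofNat (nat_lit 188310), .ofNat (nat_lit 306433), .ofNat (nat_lit 200000), .ofNat (nat_lit 351268), .ofNat (nat_lit 192306), .ofNat (nat_lit 306337), .ofNat (nat_lit 200000), .ofNat (nat_lit 351886)⟩⟩, [⟨nat_lit 7, nat_lit 85, nat_lit 100, nat_lit 93, nat_lit 29097108⟩]⟩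
noncomputable def p116_l42 : Lf2 := ⟨nat_lit 0, nat_lit 30, [nat_lit 15, nat_lit 5, nat_lit 5, nat_lit 20], false, nat_lit 80, nat_lit 160, nat_lit 0, nat_lit 364, ⟨nat_lit 51, nat_lit 196, nat_lit 753, nat_lit 6, nat_lit 220, nat_lit 949, nat_lit 105, nat_lit 753, nat_lit 104017, nat_lit 294, nat_lit 4336, nat_lit 204, nat_lit 47135566, nat_lit 15084594, nat_lit 4779840, nat_lit 4098301, false, false⟩,
 nat_lit 1272, nat_lit 1594, nat_lit 0, nat_lit 0, nat_lit 2678, nat_lit 673, nat_lit 0, nat_lit 0, nat_lit 0, nat_lit 36, nat_lit 0, nat_lit 0, nat_lit 0, nat_lit 0, nat_lit 71, nat_lit 237250, nat_lit 0, nat_lit 0, [(nat_lit 29, [(nat_lit 0, nat_lit 196), (nat_lit 4, nat_lit 753)])],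
 ⟨p116_k0, nat_lit 0, nat_lit 0, nat_lit 191, nat_lit 0, nat_lit 229780, [nat_lit 1058516401, nat_lit 324416401, nat_lit 203836800], [], [nat_lit 20444283724, nat_lit 21039773739, nat_lit 22504861039, nat_lit 23052040936, nat_lit 21301763137, nat_lit 21844312361, nat_lit 23202586295, nat_lit 23759596713], nat_lit 1271250, nat_lit 1271250, nat_lit 1000851, nat_lit 1778250, nat_lit 490000, nat_lit 1100001, [nat_lit 230000, nat_lit 1100000, nat_lit 1785000], [nat_lit 57, nat_lit 40, nat_lit 40, nat_lit 80, nat_lit 7, nat_lit 317, nat_lit 100, nat_lit 10]⟩, ⟨p116_k1, nat_lit 0, nat_lit 0, nat_lit 652, nat_lit 0, nat_lit 482802, [nat_lit 239088000, nat_lit 501942000, nat_lit 836400000], [], [nat_lit 3490434770, nat_lit 3127368633, nat_lit 2053498364, nat_lit 2100584614, nat_lit 3299802848, nat_lit 2998136016, nat_lit 1922769176, nat_lit 1637767678], nat_lit 1271250, nat_lit 1271250, nat_lit 1271250, nat_lit 1271250, nat_lit 0, nat_lit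 2570750, [nat_lit 1100000, nat_lit 2127500, nat_lit 1271250], [nat_lit 83, nat_lit 40, nat_lit 40, nat_lit 80, nat_lit 73, nat_lit 456, nat_lit 225, nat_lit 10]⟩,
 ⟨nat_lit 1581, nat_lit 2237, ⟨.ofNat (nat_lit 471225), .ofNat (nat_lit 602558), .ofNat (nat_lit 493955), .ofNat (nat_lit 625287), .ofNat (nat_lit 475401), .ofNat (nat_lit 601260), .ofNat (nat_lit 498671), .ofNat (nat_lit 624529)⟩, ⟨.ofNat (nat_lit 192306), .ofNat (nat_lit 306337), .ofNat (nat_lit 200000), .ofNat (nat_lit 351886), .ofNat (nat_lit 196201), .ofNat (nat_lit 305473), .ofNat (nat_lit 200000), .ofNat (nat_lit 352103)⟩⟩, [⟨nat_lit 7, nat_lit 72, nat_lit 100, nat_lit 89, nat_lit 4026745⟩]⟩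
noncomputable def p116_l43 : Lf2 := ⟨nat_lit 0, nat_lit 30, [nat_lit 15, nat_lit 5, nat_lit 5, nat_lit 20], false, nat_lit 80, nat_lit 160, nat_lit 0, nat_lit 364, ⟨nat_lit 55, nat_lit 448, nat_lit 497, nat_lit 6, nat_lit 228, nat_lit 945, nat_lit 105, nat_lit 497, nat_lit 104017, nat_lit 294, nat_lit 2404, nat_lit 204, nat_lit 46372170, nat_lit 15883376, nat_lit 4744454, nat_lit 4160530, true, false⟩,
 nat_lit 1009, nat_lit 1822, nat_lit 0, nat_lit 0, nat_lit 2737, nat_lit 534, nat_lit 0, nat_lit 0, nat_lit 0, nat_lit 64, nat_lit 0, nat_lit 0, nat_lit 0, nat_lit 0, nat_lit 8, nat_lit 236250, nat_lit 0, nat_lit 0, [(nat_lit 29, [(nat_lit 0, nat_lit 448), (nat_lit 4, nat_lit 497)])],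
 ⟨p116_k3, nat_lit 0, nat_lit 0, nat_lit 200, nat_lit 0, nat_lit 273368, [nat_lit 812262000, nat_lit 241690134, nat_lit 923200], [], [nat_lit 21689510144, nat_lit 22307755525, nat_lit 23293352809, nat_lit 23867825912, nat_lit 22528470194, nat_lit 23090832602, nat_lit 24006653099, nat_lit 24533399288], nat_lit 1271250, nat_lit 1271250, nat_lit 1236400, nat_lit 1794000, nat_lit 490000, nat_lit 1100001, [nat_lit 230000, nat_lit 780000, nat_lit 1435000], [nat_lit 20, nat_lit 40, nat_lit 40, nat_lit 80, nat_lit 16, nat_lit 317, nat_lit 100, nat_lit 11]⟩, ⟨p116_k4, nat_lit 0, nat_lit 0, nat_lit 675, nat_lit 0, nat_lit 599148, [nat_lit 257840000, nat_lit 438240000, nat_lit 902000000], [], [nat_lit 2203534347, nat_lit 1922888511, nat_lit 1847476316, nat_lit 1892514350, nat_lit 2521330279, nat_lit 2281040959, nat_lit 1754631940, nat_lit 1632620736], nat_lit 1271250, nat_lit 1271250, nat_lit 1271250, nat_lit 1271250, nat_lit 0, nat_lit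 2570750, [nat_lit 1100000, nat_lit 1785000, nat_lit 1271250], [nat_lit 122, nat_lit 40, nat_lit 40, nat_lit 80, nat_lit 111, nat_lit 456, nat_lit 225, nat_lit 10]⟩,
 ⟨nat_lit 0, nat_lit 1582, ⟨.ofNat (nat_lit 511747), .ofNat (nat_lit 601257), .ofNat (nat_lit 534406), .ofNat (nat_lit 623921), .ofNat (nat_lit 517899), .ofNat (nat_lit 599992), .ofNat (nat_lit 542242), .ofNat (nat_lit 624340)⟩, ⟨.ofNat (nat_lit 196201), .ofNat (nat_lit 305469), .ofNat (nat_lit 200000), .ofNat (nat_lit 352101), .ofNat (nat_lit 199999), .ofNat (nat_lit 299995), .ofNat (nat_lit 200000), .ofNat (nat_lit 349997)⟩⟩, [⟨nat_lit 4, nat_lit 100, nat_lit 23, nat_lit 91, nat_lit 46537353⟩, ⟨nat_lit 7, nat_lit 72, nat_lit 100, nat_lit 89, nat_lit 7990339⟩]⟩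
noncomputable def p116_l44 : Lf2 := ⟨nat_lit 0, nat_lit 30, [nat_lit 15, nat_lit 5, nat_lit 5, nat_lit 20], false, nat_lit 80, nat_lit 160, nat_lit 0, nat_lit 352, ⟨nat_lit 206, nat_lit 0, nat_lit 794, nat_lit 6, nat_lit 234, nat_lit 794, nat_lit 105, nat_lit 794, nat_lit 104017, nat_lit 294, nat_lit 24782, nat_lit 200, nat_lit 45747590, nat_lit 0, nat_lit 0, nat_lit 4208433, false, false⟩,
 nat_lit 3202, nat_lit 0, nat_lit 0, nat_lit 0, nat_lit 2991, nat_lit 1863, nat_lit 0, nat_lit 0, nat_lit 0, nat_lit 0, nat_lit 0, nat_lit 0, nat_lit 0, nat_lit 0, nat_lit 44, nat_lit 198500, nat_lit 0, nat_lit 0, [(nat_lit 29, [(nat_lit 4, nat_lit 794)])],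
 ⟨p116_k17, nat_lit 0, nat_lit 0, nat_lit 208, nat_lit 0, nat_lit 264359, [nat_lit 973938401, nat_lit 365945600, nat_lit 269673600], [], [nat_lit 21188577177, nat_lit 21841651846, nat_lit 22918160058, nat_lit 23499561825, nat_lit 21864841118, nat_lit 22418455956, nat_lit 23436314277, nat_lit 23932630330], nat_lit 1271250, nat_lit 1271250, nat_lit 1167600, nat_lit 1789500, nat_lit 490000, nat_lit 1100001, [nat_lit 230000, nat_lit 780000, nat_lit 1762500], [nat_lit 54, nat_lit 40, nat_lit 40, nat_lit 80, nat_lit 43, nat_lit 317, nat_lit 100, nat_lit 9]⟩, ⟨p116_k15, nat_lit 0, nat_lit 0, nat_lit 570, nat_lit 0, nat_lit 487947, [nat_lit 965728000, nat_lit 1641408000, nat_lit 2895948000], [], [nat_lit 9076742045, nat_lit 9188634841, nat_lit 9157026572, nat_lit 9245489452, nat_lit 8699657106, nat_lit 8334427018, nat_lit 8253175889, nat_lit 8334400166], nat_lit 1271250, nat_lit 1271250, nat_lit 1271250, nat_lit 1271250, nat_lit 0,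 nat_lit 2486000, [nat_lit 1100000, nat_lit 1785000, nat_lit 1271250], [nat_lit 37, nat_lit 40, nat_lit 40, nat_lit 80, nat_lit 28, nat_lit 456, nat_lit 225, nat_lit 10]⟩,
 ⟨nat_lit 1581, nat_lit 2237, ⟨.ofNat (nat_lit 522505), .ofNat (nat_lit 625287), .ofNat (nat_lit 545234), .ofNat (nat_lit 648016), .ofNat (nat_lit 526032), .ofNat (nat_lit 624529), .ofNat (nat_lit 549300), .ofNat (nat_lit 647799)⟩, ⟨.ofNat (nat_lit 192306), .ofNat (nat_lit 306337), .ofNat (nat_lit 200000), .ofNat (nat_lit 351886), .ofNat (nat_lit 196201), .ofNat (nat_lit 305473), .ofNat (nat_lit 200000), .ofNat (nat_lit 352103)⟩⟩, [⟨nat_lit 16, nat_lit 38, nat_lit 100, nat_lit 87, nat_lit 47444095⟩, ⟨nat_lit 7, nat_lit 82, nat_lit 100, nat_lit 92, nat_lit 29250099⟩]⟩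
noncomputable def p116_l45 : Lf2 := ⟨nat_lit 0, nat_lit 30, [nat_lit 15, nat_lit 5, nat_lit 5, nat_lit 20], false, nat_lit 80, nat_lit 160, nat_lit 0, nat_lit 352, ⟨nat_lit 215, nat_lit 257, nat_lit 528, nat_lit 6, nat_lit 243, nat_lit 785, nat_lit 105, nat_lit 528, nat_lit 104017, nat_lit 294, nat_lit 26116, nat_lit 200, nat_lit 44989889, nat_lit 17333101, nat_lit 4677010, nat_lit 4262047, true, false⟩,
 nat_lit 3208, nat_lit 0, nat_lit 0, nat_lit 0, nat_lit 3101, nat_lit 1867, nat_lit 0, nat_lit 0, nat_lit 0, nat_lit 7, nat_lit 0, nat_lit 0, nat_lit 0, nat_lit 0, nat_lit 0, nat_lit 196250, nat_lit 0, nat_lit 0, [(nat_lit 29, [(nat_lit 0, nat_lit 257), (nat_lit 4, nat_lit 528)])],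
 ⟨p116_k3, nat_lit 0, nat_lit 0, nat_lit 206, nat_lit 0, nat_lit 303381, [nat_lit 804666000, nat_lit 439623201, nat_lit 418438800], [], [nat_lit 22466939322, nat_lit 23149433403, nat_lit 23668909322, nat_lit 24392996376, nat_lit 23095140389, nat_lit 23657119695, nat_lit 24164264543, nat_lit 24736570720], nat_lit 1271250, nat_lit 1271250, nat_lit 1271250, nat_lit 1271250, nat_lit 490000, nat_lit 1100001, [nat_lit 230000, nat_lit 780000, nat_lit 1435000], [nat_lit 20, nat_lit 40, nat_lit 40, nat_lit 80, nat_lit 16, nat_lit 317, nat_lit 100, nat_lit 11]⟩, ⟨p116_k15, nat_lit 0, nat_lit 0, nat_lit 595, nat_lit 0, nat_lit 584111, [nat_lit 1007920000, nat_lit 1713120000, nat_lit 3022470000], [], [nat_lit 9508459427, nat_lit 9615775570, nat_lit 9600355264, nat_lit 9692691076, nat_lit 8667976376, nat_lit 8696294062, nat_lit 8628235945, nat_lit 8654614451], nat_lit 1271250, nat_lit 1271250, nat_lit 1271250, nat_lit 1271250, nat_lit 0,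 nat_lit 2486000, [nat_lit 1100000, nat_lit 1785000, nat_lit 1271250], [nat_lit 37, nat_lit 40, nat_lit 40, nat_lit 80, nat_lit 28, nat_lit 456, nat_lit 225, nat_lit 10]⟩,
 ⟨nat_lit 0, nat_lit 1582, ⟨.ofNat (nat_lit 562380), .ofNat (nat_lit 623921), .ofNat (nat_lit 585037), .ofNat (nat_lit 646579), .ofNat (nat_lit 567898), .ofNat (nat_lit 624340), .ofNat (nat_lit 592241), .ofNat (nat_lit 648683)⟩, ⟨.ofNat (nat_lit 196201), .ofNat (nat_lit 305469), .ofNat (nat_lit 200000), .ofNat (nat_lit 352101), .ofNat (nat_lit 199999), .ofNat (nat_lit 299995), .ofNat (nat_lit 200000), .ofNat (nat_lit 349997)⟩⟩, [⟨nat_lit 0, nat_lit 95, nat_lit 22, nat_lit 100, nat_lit 254383430⟩, ⟨nat_lit 16, nat_lit 23, nat_lit 100, nat_lit 91, nat_lit 96642568⟩, ⟨nat_lit 7, nat_lit 82, nat_lit 100, nat_lit 92, nat_lit 29109675⟩]⟩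
noncomputable def b_V_900_600_20_62 : St := ⟨true, nat_lit 1, nat_lit 1, nat_lit 1, nat_lit 120, nat_lit 360, nat_lit 400, nat_lit 240, nat_lit 280, nat_lit 112, nat_lit 240, nat_lit 80, nat_lit 120, nat_lit 80, nat_lit 160, nat_lit 0, nat_lit 364, nat_lit 80, nat_lit 120, nat_lit 0, nat_lit 0, nat_lit 0, nat_lit 0⟩
theorem d_V_900_600_20_62 (h : EB TB.env) : Dead b_V_900_600_20_62 := chkB_sound0 h (T :=
(.spl (nat_lit 0) (nat_lit 380)
(.spl (nat_lit 0) (nat_lit 370)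
(.spl (nat_lit 1) (nat_lit 260)
(.leaf p116_l34)
(.trZ (nat_lit 0) (nat_lit 100) (nat_lit 63) (nat_lit 99) (nat_lit 132) (.trX (nat_lit 19) (nat_lit 100) (nat_lit 69) (nat_lit 96) (nat_lit 352) (.spl (nat_lit 3) (nat_lit 100)
(.trX (nat_lit 19) (nat_lit 100) (nat_lit 77) (nat_lit 91) (nat_lit 336) (.leaf p116_l35))
(.spl (nat_lit 0) (nat_lit 365)
(.spl (nat_lit 6) (nat_lit 108)
(.leaf p116_l36)
(.leaf p116_l37))
(.trZ (nat_lit 0) (nat_lit 100) (nat_lit 59) (nat_lit 100) (nat_lit 140) (.leaf p116_l38)))))))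
(.trZ (nat_lit 0) (nat_lit 100) (nat_lit 54) (nat_lit 96) (nat_lit 128) (.spl (nat_lit 1) (nat_lit 260)
(.leaf p116_l39)
(.trZ (nat_lit 0) (nat_lit 98) (nat_lit 54) (nat_lit 100) (nat_lit 148) (.trX (nat_lit 19) (nat_lit 100) (nat_lit 69) (nat_lit 96) (nat_lit 352) (.spl (nat_lit 1) (nat_lit 270)
(.leaf p116_l40)
(.trZ (nat_lit 0) (nat_lit 96) (nat_lit 54) (nat_lit 100) (nat_lit 160) (.trX (nat_lit 19) (nat_lit 100) (nat_lit 74) (nat_lit 98) (nat_lit 344) (.leaf p116_l41)))))))))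
(.trZ (nat_lit 0) (nat_lit 100) (nat_lit 44) (nat_lit 99) (nat_lit 148) (.spl (nat_lit 1) (nat_lit 260)
(.spl (nat_lit 0) (nat_lit 390)
(.leaf p116_l42)
(.trZ (nat_lit 0) (nat_lit 99) (nat_lit 31) (nat_lit 100) (nat_lit 176) (.leaf p116_l43)))
(.trZ (nat_lit 0) (nat_lit 96) (nat_lit 44) (nat_lit 100) (nat_lit 168) (.trX (nat_lit 19) (nat_lit 100) (nat_lit 69) (nat_lit 96) (nat_lit 352) (.spl (nat_lit 0) (nat_lit 390)
(.leaf p116_l44)
(.trZ (nat_lit 0) (nat_lit 95) (nat_lit 31) (nat_lit 100) (nat_lit 196) (.leaf p116_l45))))))))) (by decide +kernel)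
noncomputable def p116_l46 : Lf2 := ⟨nat_lit 0, nat_lit 25, [nat_lit 44, nat_lit 5, nat_lit 5, nat_lit 20], true, nat_lit 160, nat_lit 248, nat_lit 0, nat_lit 364, ⟨nat_lit 0, nat_lit 173, nat_lit 827, nat_lit 6, nat_lit 189, nat_lit 1000, nat_lit 157, nat_lit 827, nat_lit 61189, nat_lit 275, nat_lit 15023, nat_lit 241, nat_lit 46381514, nat_lit 11781859, nat_lit 8836627, nat_lit 4441502, false, false⟩,
 nat_lit 0, nat_lit 3223, nat_lit 0, nat_lit 1620, nat_lit 2807, nat_lit 0, nat_lit 0, nat_lit 0, nat_lit 0, nat_lit 0, nat_lit 0, nat_lit 0, nat_lit 0, nat_lit 0, nat_lit 71, nat_lit 250000, nat_lit 0, nat_lit 0, [(nat_lit 26, [(nat_lit 0, nat_lit 173), (nat_lit 4, nat_lit 827)])],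
 ⟨p116_k7, nat_lit 0, nat_lit 0, nat_lit 241, nat_lit 0, nat_lit 345492, [nat_lit 1057870000, nat_lit 581581201, nat_lit 11339600], [], [nat_lit 19301035776, nat_lit 20456985015, nat_lit 19961655964, nat_lit 21051423324, nat_lit 21526648932, nat_lit 22893421965, nat_lit 22065593446, nat_lit 23400334113], nat_lit 1271250, nat_lit 1271250, nat_lit 719601, nat_lit 1100001, nat_lit 1100001, nat_lit 1853500, [nat_lit 230000, nat_lit 1100000, nat_lit 1785000], [nat_lit 57, nat_lit 40, nat_lit 40, nat_lit 80, nat_lit 7, nat_lit 345, nat_lit 125, nat_lit 10]⟩, C1.Rw.none,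
 ⟨nat_lit 2236, nat_lit 3163, ⟨.ofNat (nat_lit 409856), .ofNat (nat_lit 483125), .ofNat (nat_lit 454039), .ofNat (nat_lit 527308), .ofNat (nat_lit 419758), .ofNat (nat_lit 488302), .ofNat (nat_lit 465180), .ofNat (nat_lit 533723)⟩, ⟨.ofNat (nat_lit 306116), .ofNat (nat_lit 440213), .ofNat (nat_lit 350426), .ofNat (nat_lit 484523), .ofNat (nat_lit 306337), .ofNat (nat_lit 431772), .ofNat (nat_lit 351886), .ofNat (nat_lit 477320)⟩⟩, [⟨nat_lit 0, nat_lit 98, nat_lit 54, nat_lit 100, nat_lit 338771686⟩, ⟨nat_lit 16, nat_lit 62, nat_lit 100, nat_lit 94, nat_lit 219929510⟩]⟩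
noncomputable def p116_l47 : Lf2 := ⟨nat_lit 0, nat_lit 30, [nat_lit 15, nat_lit 5, nat_lit 5, nat_lit 20], false, nat_lit 160, nat_lit 248, nat_lit 0, nat_lit 364, ⟨nat_lit 0, nat_lit 0, nat_lit 1000, nat_lit 6, nat_lit 189, nat_lit 1000, nat_lit 157, nat_lit 1000, nat_lit 61189, nat_lit 275, nat_lit 15023, nat_lit 241, nat_lit 46381514, nat_lit 0, nat_lit 0, nat_lit 4441502, false, false⟩,
 nat_lit 0, nat_lit 4077, nat_lit 0, nat_lit 4103, nat_lit 3550, nat_lit 0, nat_lit 0, nat_lit 0, nat_lit 0, nat_lit 0, nat_lit 0, nat_lit 0, nat_lit 0, nat_lit 0, nat_lit 89, nat_lit 211100, nat_lit 0, nat_lit 0, [(nat_lit 26, [(nat_lit 3, nat_lit 778), (nat_lit 4, nat_lit 222)])],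
 ⟨p116_k6, nat_lit 0, nat_lit 0, nat_lit 178, nat_lit 0, nat_lit 162675, [nat_lit 1421327201, nat_lit 549777600, nat_lit 672636800], [], [nat_lit 20174801001, nat_lit 21452361761, nat_lit 20583974202, nat_lit 21785034300, nat_lit 22233830252, nat_lit 23653142913, nat_lit 22519414581, nat_lit 24013287120], nat_lit 1271250, nat_lit 1271250, nat_lit 719601, nat_lit 1100001, nat_lit 1100001, nat_lit 1853500, [nat_lit 230000, nat_lit 1100000, nat_lit 2127500], [nat_lit 81, nat_lit 40, nat_lit 40, nat_lit 80, nat_lit 13, nat_lit 345, nat_lit 125, nat_lit 9]⟩, ⟨p116_k1, nat_lit 0, nat_lit 0, nat_lit 609, nat_lit 0, nat_lit 313126, [nat_lit 0, nat_lit 0, nat_lit 0], [], [nat_lit 0, nat_lit 0, nat_lit 0, nat_lit 0, nat_lit 0, nat_lit 0, nat_lit 0, nat_lit 0], nat_lit 1271250, nat_lit 1271250, nat_lit 719601, nat_lit 1100001, nat_lit 0, nat_lit 2570750, [nat_lit 1100000, nat_lit 2127500, nat_lit 1271250], [nat_lit 83, nat_lit 40, nat_lit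 40, nat_lit 80, nat_lit 73, nat_lit 456, nat_lit 225, nat_lit 10]⟩,
 ⟨nat_lit 2236, nat_lit 3163, ⟨.ofNat (nat_lit 409856), .ofNat (nat_lit 483125), .ofNat (nat_lit 454039), .ofNat (nat_lit 527308), .ofNat (nat_lit 419758), .ofNat (nat_lit 488302), .ofNat (nat_lit 465180), .ofNat (nat_lit 533723)⟩, ⟨.ofNat (nat_lit 306116), .ofNat (nat_lit 440213), .ofNat (nat_lit 350426), .ofNat (nat_lit 484523), .ofNat (nat_lit 306337), .ofNat (nat_lit 431772), .ofNat (nat_lit 351886), .ofNat (nat_lit 477320)⟩⟩, [⟨nat_lit 0, nat_lit 98, nat_lit 54, nat_lit 100, nat_lit 402078456⟩, ⟨nat_lit 4, nat_lit 100, nat_lit 53, nat_lit 87, nat_lit 262328677⟩]⟩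
noncomputable def p116_l48 : Lf2 := ⟨nat_lit 0, nat_lit 25, [nat_lit 44, nat_lit 5, nat_lit 5, nat_lit 20], true, nat_lit 160, nat_lit 224, nat_lit 0, nat_lit 352, ⟨nat_lit 0, nat_lit 108, nat_lit 892, nat_lit 6, nat_lit 215, nat_lit 1000, nat_lit 146, nat_lit 892, nat_lit 201667, nat_lit 325, nat_lit 2332, nat_lit 216, nat_lit 45015154, nat_lit 14223583, nat_lit 7761263, nat_lit 4535235, false, false⟩,
 nat_lit 0, nat_lit 3002, nat_lit 0, nat_lit 0, nat_lit 2614, nat_lit 0, nat_lit 0, nat_lit 0, nat_lit 0, nat_lit 0, nat_lit 0, nat_lit 0, nat_lit 0, nat_lit 0, nat_lit 85, nat_lit 250000, nat_lit 0, nat_lit 0, [(nat_lit 26, [(nat_lit 0, nat_lit 108), (nat_lit 4, nat_lit 892)])],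
 ⟨p116_k22, nat_lit 0, nat_lit 0, nat_lit 156, nat_lit 0, nat_lit 263002, [nat_lit 1072060801, nat_lit 865264001, nat_lit 16801600], [], [nat_lit 19648928218, nat_lit 20190979590, nat_lit 20487933418, nat_lit 21000977014, nat_lit 21180784644, nat_lit 21813296613, nat_lit 22132088188, nat_lit 22714831720], nat_lit 1271250, nat_lit 1271250, nat_lit 1100001, nat_lit 1442500, nat_lit 1100001, nat_lit 1648000, [nat_lit 230000, nat_lit 780000, nat_lit 1762500], [nat_lit 54, nat_lit 40, nat_lit 40, nat_lit 80, nat_lit 43, nat_lit 345, nat_lit 125, nat_lit 10]⟩, C1.Rw.none,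
 ⟨nat_lit 2738, nat_lit 3163, ⟨.ofNat (nat_lit 483313), .ofNat (nat_lit 544285), .ofNat (nat_lit 527599), .ofNat (nat_lit 588571), .ofNat (nat_lit 485730), .ofNat (nat_lit 544810), .ofNat (nat_lit 530541), .ofNat (nat_lit 589621)⟩, ⟨.ofNat (nat_lit 306116), .ofNat (nat_lit 403641), .ofNat (nat_lit 328271), .ofNat (nat_lit 425796), .ofNat (nat_lit 306433), .ofNat (nat_lit 400931), .ofNat (nat_lit 328850), .ofNat (nat_lit 423348)⟩⟩, [⟨nat_lit 4, nat_lit 100, nat_lit 57, nat_lit 84, nat_lit 278510477⟩]⟩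
noncomputable def p116_l49 : Lf2 := ⟨nat_lit 0, nat_lit 25, [nat_lit 44, nat_lit 5, nat_lit 5, nat_lit 20], false, nat_lit 160, nat_lit 248, nat_lit 0, nat_lit 364, ⟨nat_lit 0, nat_lit 1000, nat_lit 0, nat_lit 6, nat_lit 215, nat_lit 1000, nat_lit 162, nat_lit 0, nat_lit 0, nat_lit 0, nat_lit 0, nat_lit 0, nat_lit 43943426, nat_lit 14038888, nat_lit 9017686, nat_lit 4696836, false, false⟩,
 nat_lit 0, nat_lit 4320, nat_lit 0, nat_lit 530, nat_lit 3762, nat_lit 0, nat_lit 0, nat_lit 0, nat_lit 0, nat_lit 0, nat_lit 0, nat_lit 0, nat_lit 0, nat_lit 0, nat_lit 0, nat_lit 250000, nat_lit 0, nat_lit 0, [(nat_lit 26, [(nat_lit 0, nat_lit 1000)])],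
 ⟨p116_k7, nat_lit 0, nat_lit 0, nat_lit 76, nat_lit 0, nat_lit 103148, [nat_lit 765600000, nat_lit 1715200000, nat_lit 2512800000], [], [nat_lit 20279430688, nat_lit 21046256302, nat_lit 21235909976, nat_lit 21954914754, nat_lit 22822998265, nat_lit 23481587505, nat_lit 23599801883, nat_lit 24218954645], nat_lit 1271250, nat_lit 1271250, nat_lit 1100001, nat_lit 1442500, nat_lit 1100001, nat_lit 1853500, [nat_lit 230000, nat_lit 1100000, nat_lit 1785000], [nat_lit 57, nat_lit 40, nat_lit 40, nat_lit 80, nat_lit 7, nat_lit 345, nat_lit 125, nat_lit 10]⟩, ⟨p116_k23, nat_lit 0, nat_lit 0, nat_lit 416, nat_lit 0, nat_lit 197200, [nat_lit 0, nat_lit 0, nat_lit 0], [], [nat_lit 0, nat_lit 0, nat_lit 0, nat_lit 0, nat_lit 0, nat_lit 0, nat_lit 0, nat_lit 0], nat_lit 1271250, nat_lit 1271250, nat_lit 1100001, nat_lit 1442500, nat_lit 0, nat_lit 2570750, [nat_lit 1100000, nat_lit 2127500, nat_lit 1271250], [nat_lit 56, nat_lit 40,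 nat_lit 40, nat_lit 80, nat_lit 32, nat_lit 456, nat_lit 225, nat_lit 11]⟩,
 ⟨nat_lit 2738, nat_lit 3163, ⟨.ofNat (nat_lit 483313), .ofNat (nat_lit 544285), .ofNat (nat_lit 527599), .ofNat (nat_lit 588571), .ofNat (nat_lit 485730), .ofNat (nat_lit 544810), .ofNat (nat_lit 530541), .ofNat (nat_lit 589621)⟩, ⟨.ofNat (nat_lit 328271), .ofNat (nat_lit 462368), .ofNat (nat_lit 350426), .ofNat (nat_lit 484523), .ofNat (nat_lit 328850), .ofNat (nat_lit 458785), .ofNat (nat_lit 351268), .ofNat (nat_lit 481203)⟩⟩, [⟨nat_lit 4, nat_lit 100, nat_lit 57, nat_lit 90, nat_lit 250463815⟩]⟩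
noncomputable def p116_l50 : Lf2 := ⟨nat_lit 0, nat_lit 30, [nat_lit 15, nat_lit 5, nat_lit 5, nat_lit 20], true, nat_lit 160, nat_lit 248, nat_lit 0, nat_lit 364, ⟨nat_lit 0, nat_lit 654, nat_lit 346, nat_lit 6, nat_lit 215, nat_lit 1000, nat_lit 162, nat_lit 346, nat_lit 61189, nat_lit 275, nat_lit 2332, nat_lit 216, nat_lit 43943426, nat_lit 14038888, nat_lit 9017686, nat_lit 4696836, false, false⟩,
 nat_lit 0, nat_lit 3559, nat_lit 0, nat_lit 3778, nat_lit 3099, nat_lit 0, nat_lit 0, nat_lit 0, nat_lit 0, nat_lit 0, nat_lit 0, nat_lit 0, nat_lit 0, nat_lit 0, nat_lit 0, nat_lit 232700, nat_lit 0, nat_lit 0, [(nat_lit 26, [(nat_lit 0, nat_lit 654), (nat_lit 3, nat_lit 346)])],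
 ⟨p116_k6, nat_lit 0, nat_lit 0, nat_lit 66, nat_lit 0, nat_lit 65484, [nat_lit 897910401, nat_lit 919842400, nat_lit 1278613600], [], [nat_lit 19921661513, nat_lit 20602175329, nat_lit 20886277709, nat_lit 21524978710, nat_lit 22403044260, nat_lit 23004041474, nat_lit 23209972884, nat_lit 23774751917], nat_lit 1271250, nat_lit 1271250, nat_lit 1100001, nat_lit 1442500, nat_lit 1100001, nat_lit 1853500, [nat_lit 230000, nat_lit 1100000, nat_lit 2127500], [nat_lit 81, nat_lit 40, nat_lit 40, nat_lit 80, nat_lit 13, nat_lit 345, nat_lit 125, nat_lit 9]⟩, C1.Rw.none,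
 ⟨nat_lit 2738, nat_lit 3163, ⟨.ofNat (nat_lit 483313), .ofNat (nat_lit 544285), .ofNat (nat_lit 527599), .ofNat (nat_lit 588571), .ofNat (nat_lit 485730), .ofNat (nat_lit 544810), .ofNat (nat_lit 530541), .ofNat (nat_lit 589621)⟩, ⟨.ofNat (nat_lit 328271), .ofNat (nat_lit 462368), .ofNat (nat_lit 350426), .ofNat (nat_lit 484523), .ofNat (nat_lit 328850), .ofNat (nat_lit 458785), .ofNat (nat_lit 351268), .ofNat (nat_lit 481203)⟩⟩, [⟨nat_lit 4, nat_lit 100, nat_lit 57, nat_lit 90, nat_lit 260417548⟩]⟩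
noncomputable def p116_l51 : Lf2 := ⟨nat_lit 0, nat_lit 30, [nat_lit 15, nat_lit 5, nat_lit 5, nat_lit 20], true, nat_lit 160, nat_lit 232, nat_lit 0, nat_lit 364, ⟨nat_lit 0, nat_lit 108, nat_lit 892, nat_lit 6, nat_lit 211, nat_lit 1000, nat_lit 152, nat_lit 892, nat_lit 156817, nat_lit 312, nat_lit 1657, nat_lit 224, nat_lit 44912513, nat_lit 13808813, nat_lit 8278674, nat_lit 4572269, false, false⟩,
 nat_lit 0, nat_lit 2896, nat_lit 0, nat_lit 2024, nat_lit 2613, nat_lit 0, nat_lit 0, nat_lit 0, nat_lit 0, nat_lit 0, nat_lit 0, nat_lit 0, nat_lit 0, nat_lit 0, nat_lit 85, nat_lit 250000, nat_lit 0, nat_lit 0, [(nat_lit 26, [(nat_lit 0, nat_lit 108), (nat_lit 4, nat_lit 892)])],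
 ⟨p116_k16, nat_lit 0, nat_lit 0, nat_lit 164, nat_lit 0, nat_lit 273705, [nat_lit 1072060801, nat_lit 865264001, nat_lit 16801600], [], [nat_lit 20192376648, nat_lit 20734344122, nat_lit 21002302099, nat_lit 21689520746, nat_lit 22041819927, nat_lit 22707961605, nat_lit 22930346242, nat_lit 23556525358], nat_lit 1271250, nat_lit 1271250, nat_lit 1100001, nat_lit 1442500, nat_lit 1100001, nat_lit 1716500, [nat_lit 230000, nat_lit 780000, nat_lit 1762500], [nat_lit 54, nat_lit 40, nat_lit 40, nat_lit 80, nat_lit 43, nat_lit 345, nat_lit 125, nat_lit 10]⟩, C1.Rw.none,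
 ⟨nat_lit 2236, nat_lit 2739, ⟨.ofNat (nat_lit 485697), .ofNat (nat_lit 544794), .ofNat (nat_lit 508094), .ofNat (nat_lit 567191), .ofNat (nat_lit 488457), .ofNat (nat_lit 545508), .ofNat (nat_lit 511211), .ofNat (nat_lit 568262)⟩, ⟨.ofNat (nat_lit 306433), .ofNat (nat_lit 412743), .ofNat (nat_lit 351268), .ofNat (nat_lit 457578), .ofNat (nat_lit 306337), .ofNat (nat_lit 408965), .ofNat (nat_lit 351886), .ofNat (nat_lit 454514)⟩⟩, [⟨nat_lit 16, nat_lit 48, nat_lit 100, nat_lit 87, nat_lit 329749142⟩]⟩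
noncomputable def p116_l52 : Lf2 := ⟨nat_lit 0, nat_lit 30, [nat_lit 15, nat_lit 5, nat_lit 5, nat_lit 20], false, nat_lit 160, nat_lit 232, nat_lit 0, nat_lit 352, ⟨nat_lit 115, nat_lit 92, nat_lit 793, nat_lit 6, nat_lit 220, nat_lit 885, nat_lit 152, nat_lit 793, nat_lit 156817, nat_lit 312, nat_lit 5345, nat_lit 216, nat_lit 44157410, nat_lit 14636962, nat_lit 8205628, nat_lit 4638226, false, false⟩,
 nat_lit 3951, nat_lit 0, nat_lit 0, nat_lit 238, nat_lit 3565, nat_lit 2299, nat_lit 0, nat_lit 0, nat_lit 0, nat_lit 17, nat_lit 0, nat_lit 0, nat_lit 0, nat_lit 0, nat_lit 20, nat_lit 181600, nat_lit 0, nat_lit 0, [(nat_lit 26, [(nat_lit 0, nat_lit 92), (nat_lit 3, nat_lit 793)])],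
 ⟨p116_k16, nat_lit 0, nat_lit 0, nat_lit 151, nat_lit 0, nat_lit 222534, [nat_lit 1168669201, nat_lit 549074601, nat_lit 41497600], [], [nat_lit 21160290232, nat_lit 21782128602, nat_lit 21932363372, nat_lit 22517891882, nat_lit 22770092157, nat_lit 23462883325, nat_lit 23536977363, nat_lit 24261790187], nat_lit 1271250, nat_lit 1271250, nat_lit 1100001, nat_lit 1442500, nat_lit 1100001, nat_lit 1716500, [nat_lit 230000, nat_lit 780000, nat_lit 1762500], [nat_lit 54, nat_lit 40, nat_lit 40, nat_lit 80, nat_lit 43, nat_lit 345, nat_lit 125, nat_lit 10]⟩, ⟨p116_k15, nat_lit 0, nat_lit 0, nat_lit 479, nat_lit 0, nat_lit 393358, [nat_lit 539120000, nat_lit 916320000, nat_lit 1616670000], [], [nat_lit 5665980878, nat_lit 5532641820, nat_lit 5305352746, nat_lit 5515364600, nat_lit 4067293365, nat_lit 4134109273, nat_lit 4800571474, nat_lit 3954388972], nat_lit 1271250, nat_lit 1271250, nat_lit 1100001, nat_lit 1442500, nat_lit 0,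 nat_lit 2486000, [nat_lit 1100000, nat_lit 1785000, nat_lit 1271250], [nat_lit 37, nat_lit 40, nat_lit 40, nat_lit 80, nat_lit 28, nat_lit 456, nat_lit 225, nat_lit 10]⟩,
 ⟨nat_lit 2236, nat_lit 2739, ⟨.ofNat (nat_lit 508094), .ofNat (nat_lit 567191), .ofNat (nat_lit 530492), .ofNat (nat_lit 589588), .ofNat (nat_lit 511211), .ofNat (nat_lit 568262), .ofNat (nat_lit 533965), .ofNat (nat_lit 591016)⟩, ⟨.ofNat (nat_lit 306433), .ofNat (nat_lit 412743), .ofNat (nat_lit 351268), .ofNat (nat_lit 457578), .ofNat (nat_lit 306337), .ofNat (nat_lit 408965), .ofNat (nat_lit 351886), .ofNat (nat_lit 454514)⟩⟩, [⟨nat_lit 16, nat_lit 53, nat_lit 100, nat_lit 93, nat_lit 281098479⟩]⟩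
noncomputable def p116_l53 : Lf2 := ⟨nat_lit 0, nat_lit 30, [nat_lit 15, nat_lit 5, nat_lit 5, nat_lit 20], false, nat_lit 160, nat_lit 248, nat_lit 0, nat_lit 364, ⟨nat_lit 31, nat_lit 969, nat_lit 0, nat_lit 6, nat_lit 232, nat_lit 969, nat_lit 158, nat_lit 0, nat_lit 0, nat_lit 0, nat_lit 0, nat_lit 0, nat_lit 42816108, nat_lit 15674445, nat_lit 8509447, nat_lit 4769600, true, false⟩,
 nat_lit 914, nat_lit 3498, nat_lit 0, nat_lit 2625, nat_lit 3842, nat_lit 483, nat_lit 0, nat_lit 0, nat_lit 0, nat_lit 19, nat_lit 0, nat_lit 0, nat_lit 0, nat_lit 0, nat_lit 0, nat_lit 242250, nat_lit 0, nat_lit 0, [(nat_lit 26, [(nat_lit 0, nat_lit 969)])],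
 ⟨p116_k6, nat_lit 0, nat_lit 0, nat_lit 77, nat_lit 0, nat_lit 113495, [nat_lit 770944400, nat_lit 1933714400, nat_lit 3139172120], [], [nat_lit 21402484216, nat_lit 22129382514, nat_lit 22669065504, nat_lit 23345115778, nat_lit 23769609499, nat_lit 24395106341, nat_lit 24825940295, nat_lit 25409378142], nat_lit 1271250, nat_lit 1271250, nat_lit 1271250, nat_lit 1271250, nat_lit 1100001, nat_lit 1853500, [nat_lit 230000, nat_lit 1100000, nat_lit 2127500], [nat_lit 81, nat_lit 40, nat_lit 40, nat_lit 80, nat_lit 13, nat_lit 345, nat_lit 125, nat_lit 9]⟩, ⟨p116_k1, nat_lit 0, nat_lit 0, nat_lit 476, nat_lit 0, nat_lit 218462, [nat_lit 145328000, nat_lit 305102000, nat_lit 508400000], [], [nat_lit 1661117092, nat_lit 1533426865, nat_lit 1367051889, nat_lit 1382468874, nat_lit 1548279783, nat_lit 1441811344, nat_lit 1122406028, nat_lit 1022942332], nat_lit 1271250, nat_lit 1271250, nat_lit 1271250, nat_lit 1271250, nat_lit 0,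 nat_lit 2570750, [nat_lit 1100000, nat_lit 2127500, nat_lit 1271250], [nat_lit 83, nat_lit 40, nat_lit 40, nat_lit 80, nat_lit 73, nat_lit 456, nat_lit 225, nat_lit 10]⟩,
 ⟨nat_lit 2738, nat_lit 3163, ⟨.ofNat (nat_lit 544285), .ofNat (nat_lit 605257), .ofNat (nat_lit 555357), .ofNat (nat_lit 616328), .ofNat (nat_lit 544810), .ofNat (nat_lit 603890), .ofNat (nat_lit 556013), .ofNat (nat_lit 615092)⟩, ⟨.ofNat (nat_lit 306116), .ofNat (nat_lit 440213), .ofNat (nat_lit 350426), .ofNat (nat_lit 484523), .ofNat (nat_lit 306433), .ofNat (nat_lit 436368), .ofNat (nat_lit 351268), .ofNat (nat_lit 481203)⟩⟩, [⟨nat_lit 4, nat_lit 100, nat_lit 57, nat_lit 87, nat_lit 241530445⟩, ⟨nat_lit 7, nat_lit 70, nat_lit 100, nat_lit 89, nat_lit 1289056⟩]⟩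
noncomputable def p116_l54 : Lf2 := ⟨nat_lit 0, nat_lit 25, [nat_lit 44, nat_lit 5, nat_lit 5, nat_lit 20], true, nat_lit 160, nat_lit 248, nat_lit 0, nat_lit 360, ⟨nat_lit 0, nat_lit 258, nat_lit 742, nat_lit 6, nat_lit 237, nat_lit 1000, nat_lit 158, nat_lit 742, nat_lit 61189, nat_lit 275, nat_lit 2400, nat_lit 203, nat_lit 42450608, nat_lit 16082425, nat_lit 8466967, nat_lit 4796279, true, false⟩,
 nat_lit 0, nat_lit 2965, nat_lit 0, nat_lit 2110, nat_lit 2582, nat_lit 0, nat_lit 0, nat_lit 0, nat_lit 0, nat_lit 0, nat_lit 0, nat_lit 0, nat_lit 0, nat_lit 0, nat_lit 53, nat_lit 250000, nat_lit 0, nat_lit 0, [(nat_lit 26, [(nat_lit 0, nat_lit 258), (nat_lit 4, nat_lit 742)])],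
 ⟨p116_k7, nat_lit 0, nat_lit 0, nat_lit 137, nat_lit 0, nat_lit 190538, [nat_lit 985020001, nat_lit 526855201, nat_lit 11581600], [], [nat_lit 21181612017, nat_lit 21703362377, nat_lit 22222999001, nat_lit 22713214143, nat_lit 23199747651, nat_lit 23658185898, nat_lit 24102737998, nat_lit 24536892317], nat_lit 1271250, nat_lit 1271250, nat_lit 1271250, nat_lit 1271250, nat_lit 1100001, nat_lit 1853500, [nat_lit 230000, nat_lit 1100000, nat_lit 1785000], [nat_lit 57, nat_lit 40, nat_lit 40, nat_lit 80, nat_lit 7, nat_lit 345, nat_lit 125, nat_lit 10]⟩, C1.Rw.none,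
 ⟨nat_lit 2738, nat_lit 3163, ⟨.ofNat (nat_lit 555357), .ofNat (nat_lit 616328), .ofNat (nat_lit 566428), .ofNat (nat_lit 627400), .ofNat (nat_lit 556013), .ofNat (nat_lit 615092), .ofNat (nat_lit 567215), .ofNat (nat_lit 626295)⟩, ⟨.ofNat (nat_lit 306116), .ofNat (nat_lit 440213), .ofNat (nat_lit 350426), .ofNat (nat_lit 484523), .ofNat (nat_lit 306433), .ofNat (nat_lit 436368), .ofNat (nat_lit 351268), .ofNat (nat_lit 481203)⟩⟩, [⟨nat_lit 16, nat_lit 57, nat_lit 100, nat_lit 87, nat_lit 232060291⟩]⟩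
noncomputable def p116_l55 : Lf2 := ⟨nat_lit 0, nat_lit 30, [nat_lit 15, nat_lit 5, nat_lit 5, nat_lit 20], false, nat_lit 160, nat_lit 248, nat_lit 0, nat_lit 360, ⟨nat_lit 245, nat_lit 755, nat_lit 0, nat_lit 6, nat_lit 237, nat_lit 755, nat_lit 158, nat_lit 0, nat_lit 0, nat_lit 0, nat_lit 0, nat_lit 0, nat_lit 42450608, nat_lit 16082425, nat_lit 8466967, nat_lit 4796279, true, false⟩,
 nat_lit 9173, nat_lit 0, nat_lit 0, nat_lit 0, nat_lit 3582, nat_lit 5096, nat_lit 0, nat_lit 0, nat_lit 0, nat_lit 0, nat_lit 0, nat_lit 0, nat_lit 0, nat_lit 0, nat_lit 0, nat_lit 188750, nat_lit 0, nat_lit 0, [(nat_lit 26, [(nat_lit 0, nat_lit 755)])],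
 ⟨p116_k9, nat_lit 0, nat_lit 0, nat_lit 54, nat_lit 0, nat_lit 65931, [nat_lit 807838000, nat_lit 1885250001, nat_lit 4589750000], [], [nat_lit 20971583513, nat_lit 21712449317, nat_lit 22293389441, nat_lit 22982409023, nat_lit 23460838662, nat_lit 24098450820, nat_lit 24573254276, nat_lit 25228782145], nat_lit 1271250, nat_lit 1271250, nat_lit 1271250, nat_lit 1271250, nat_lit 1100001, nat_lit 1853500, [nat_lit 230000, nat_lit 780000, nat_lit 2090000], [nat_lit 93, nat_lit 40, nat_lit 40, nat_lit 80, nat_lit 63, nat_lit 345, nat_lit 125, nat_lit 9]⟩, ⟨p116_k24, nat_lit 0, nat_lit 0, nat_lit 370, nat_lit 0, nat_lit 118785, [nat_lit 1148560000, nat_lit 1952160000, nat_lit 3444210000], [], [nat_lit 12152007840, nat_lit 12203524480, nat_lit 12042462901, nat_lit 12225643178, nat_lit 8788672389, nat_lit 8839867442, nat_lit 8677469780, nat_lit 8873481001], nat_lit 1271250, nat_lit 1271250, nat_lit 1271250, nat_lit 1271250, nat_lit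 0, nat_lit 2542500, [nat_lit 1100000, nat_lit 1785000, nat_lit 1271250], [nat_lit 37, nat_lit 40, nat_lit 40, nat_lit 80, nat_lit 28, nat_lit 456, nat_lit 225, nat_lit 10]⟩,
 ⟨nat_lit 2738, nat_lit 3163, ⟨.ofNat (nat_lit 555357), .ofNat (nat_lit 616328), .ofNat (nat_lit 566428), .ofNat (nat_lit 627400), .ofNat (nat_lit 556013), .ofNat (nat_lit 615092), .ofNat (nat_lit 567215), .ofNat (nat_lit 626295)⟩, ⟨.ofNat (nat_lit 306116), .ofNat (nat_lit 440213), .ofNat (nat_lit 350426), .ofNat (nat_lit 484523), .ofNat (nat_lit 306433), .ofNat (nat_lit 436368), .ofNat (nat_lit 351268), .ofNat (nat_lit 481203)⟩⟩, [⟨nat_lit 16, nat_lit 57, nat_lit 100, nat_lit 87, nat_lit 370231863⟩, ⟨nat_lit 7, nat_lit 75, nat_lit 100, nat_lit 90, nat_lit 1243188⟩]⟩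
noncomputable def p116_l56 : Lf2 := ⟨nat_lit 0, nat_lit 30, [nat_lit 15, nat_lit 5, nat_lit 5, nat_lit 20], false, nat_lit 160, nat_lit 232, nat_lit 0, nat_lit 364, ⟨nat_lit 49, nat_lit 249, nat_lit 702, nat_lit 6, nat_lit 234, nat_lit 951, nat_lit 152, nat_lit 702, nat_lit 156817, nat_lit 312, nat_lit 6376, nat_lit 204, nat_lit 42972362, nat_lit 15944829, nat_lit 8082809, nat_lit 4731084, true, false⟩,
 nat_lit 1232, nat_lit 2337, nat_lit 0, nat_lit 1974, nat_lit 3220, nat_lit 652, nat_lit 0, nat_lit 0, nat_lit 0, nat_lit 35, nat_lit 0, nat_lit 0, nat_lit 0, nat_lit 0, nat_lit 17, nat_lit 202650, nat_lit 0, nat_lit 0, [(nat_lit 26, [(nat_lit 0, nat_lit 249), (nat_lit 3, nat_lit 702)])],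
 ⟨p116_k8, nat_lit 0, nat_lit 0, nat_lit 140, nat_lit 0, nat_lit 182986, [nat_lit 1110492401, nat_lit 346136800, nat_lit 20119200], [], [nat_lit 22202694561, nat_lit 22774834161, nat_lit 23222826421, nat_lit 23758391241, nat_lit 23721575026, nat_lit 24234052113, nat_lit 24619415048, nat_lit 25123718720], nat_lit 1271250, nat_lit 1271250, nat_lit 1271250, nat_lit 1271250, nat_lit 1100001, nat_lit 1716500, [nat_lit 230000, nat_lit 1100000, nat_lit 1785000], [nat_lit 57, nat_lit 40, nat_lit 40, nat_lit 80, nat_lit 7, nat_lit 345, nat_lit 125, nat_lit 10]⟩, ⟨p116_k1, nat_lit 0, nat_lit 0, nat_lit 531, nat_lit 0, nat_lit 368204, [nat_lit 229712000, nat_lit 482258000, nat_lit 803600000], [], [nat_lit 2455802268, nat_lit 2111065092, nat_lit 1970984261, nat_lit 2016385411, nat_lit 2418871997, nat_lit 2131429256, nat_lit 1843986515, nat_lit 1565035703], nat_lit 1271250, nat_lit 1271250, nat_lit 1271250, nat_lit 1271250, nat_lit 0, nat_lit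 2570750, [nat_lit 1100000, nat_lit 2127500, nat_lit 1271250], [nat_lit 83, nat_lit 40, nat_lit 40, nat_lit 80, nat_lit 73, nat_lit 456, nat_lit 225, nat_lit 10]⟩,
 ⟨nat_lit 2236, nat_lit 2739, ⟨.ofNat (nat_lit 544794), .ofNat (nat_lit 603890), .ofNat (nat_lit 567191), .ofNat (nat_lit 626287), .ofNat (nat_lit 545508), .ofNat (nat_lit 602558), .ofNat (nat_lit 568262), .ofNat (nat_lit 625312)⟩, ⟨.ofNat (nat_lit 306433), .ofNat (nat_lit 412743), .ofNat (nat_lit 351268), .ofNat (nat_lit 457578), .ofNat (nat_lit 306337), .ofNat (nat_lit 408965), .ofNat (nat_lit 351886), .ofNat (nat_lit 454514)⟩⟩, [⟨nat_lit 4, nat_lit 100, nat_lit 48, nat_lit 87, nat_lit 266593353⟩, ⟨nat_lit 7, nat_lit 72, nat_lit 100, nat_lit 89, nat_lit 3899419⟩]⟩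
noncomputable def p116_l57 : Lf2 := ⟨nat_lit 0, nat_lit 30, [nat_lit 15, nat_lit 5, nat_lit 5, nat_lit 20], false, nat_lit 160, nat_lit 248, nat_lit 0, nat_lit 160, ⟨nat_lit 1000, nat_lit 0, nat_lit 0, nat_lit 0, nat_lit 0, nat_lit 0, nat_lit 0, nat_lit 0, nat_lit 0, nat_lit 0, nat_lit 0, nat_lit 0, nat_lit 0, nat_lit 0, nat_lit 0, nat_lit 0, false, false⟩,
 nat_lit 13733, nat_lit 0, nat_lit 0, nat_lit 0, nat_lit 6748, nat_lit 7993, nat_lit 524, nat_lit 0, nat_lit 0, nat_lit 831, nat_lit 0, nat_lit 0, nat_lit 0, nat_lit 0, nat_lit 0, nat_lit 0, nat_lit 0, nat_lit 0, [],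
 ⟨p116_k6, nat_lit 0, nat_lit 0, nat_lit 180, nat_lit 0, nat_lit 232632, [nat_lit 938000000, nat_lit 4688000000, nat_lit 9842000000], [], [nat_lit 23343254624, nat_lit 24762038008, nat_lit 24265162400, nat_lit 26216332920, nat_lit 25199528106, nat_lit 27228424540, nat_lit 26488030813, nat_lit 28356643848], nat_lit 1271250, nat_lit 1271250, nat_lit 1271250, nat_lit 1271250, nat_lit 1100001, nat_lit 1853500, [nat_lit 230000, nat_lit 1100000, nat_lit 2127500], [nat_lit 81, nat_lit 40, nat_lit 40, nat_lit 80, nat_lit 13, nat_lit 345, nat_lit 125, nat_lit 9]⟩, ⟨p116_k2, nat_lit 0, nat_lit 0, nat_lit 482, nat_lit 0, nat_lit 393358, [nat_lit 4688000000, nat_lit 9842000000, nat_lit 14058000000], [], [nat_lit 33470003816, nat_lit 34118308000, nat_lit 34305874780, nat_lit 35117879508, nat_lit 27826407470, nat_lit 28572729004, nat_lit 28708121554, nat_lit 29374532768], nat_lit 1271250, nat_lit 1271250, nat_lit 1271250, nat_lit 1271250,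 nat_lit 0, nat_lit 1100001, [nat_lit 1100000, nat_lit 2127500, nat_lit 1271250], [nat_lit 56, nat_lit 40, nat_lit 40, nat_lit 80, nat_lit 32, nat_lit 401, nat_lit 175, nat_lit 9]⟩,
 zbF0, [⟨nat_lit 4, nat_lit 100, nat_lit 53, nat_lit 87, nat_lit 752738699⟩]⟩
noncomputable def p116_l58 : Lf2 := ⟨nat_lit 0, nat_lit 25, [nat_lit 44, nat_lit 5, nat_lit 5, nat_lit 20], false, nat_lit 160, nat_lit 224, nat_lit 160, nat_lit 336, ⟨nat_lit 1000, nat_lit 0, nat_lit 0, nat_lit 0, nat_lit 0, nat_lit 0, nat_lit 0, nat_lit 0, nat_lit 0, nat_lit 0, nat_lit 0, nat_lit 0, nat_lit 0, nat_lit 0, nat_lit 0, nat_lit 0, false, false⟩,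
 nat_lit 11875, nat_lit 0, nat_lit 0, nat_lit 0, nat_lit 10311, nat_lit 6912, nat_lit 0, nat_lit 0, nat_lit 0, nat_lit 737, nat_lit 0, nat_lit 0, nat_lit 0, nat_lit 0, nat_lit 0, nat_lit 0, nat_lit 0, nat_lit 0, [],
 ⟨p116_k7, nat_lit 0, nat_lit 0, nat_lit 131, nat_lit 0, nat_lit 168470, [nat_lit 938000000, nat_lit 4688000000, nat_lit 7968000000], [], [nat_lit 25406251868, nat_lit 26566567360, nat_lit 26632315740, nat_lit 27696953228, nat_lit 26590993485, nat_lit 27613492305, nat_lit 27731705833, nat_lit 29050109656], nat_lit 1271250, nat_lit 1271250, nat_lit 1271250, nat_lit 1271250, nat_lit 1100001, nat_lit 1648000, [nat_lit 230000, nat_lit 1100000, nat_lit 1785000], [nat_lit 57, nat_lit 40, nat_lit 40, nat_lit 80, nat_lit 7, nat_lit 345, nat_lit 125, nat_lit 10]⟩, ⟨p116_k11, nat_lit 0, nat_lit 0, nat_lit 254, nat_lit 0, nat_lit 283338, [nat_lit 4688000000, nat_lit 9842000000, nat_lit 14058000000], [], [nat_lit 24908336012,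 nat_lit 25628298956, nat_lit 25831626236, nat_lit 26606314892, nat_lit 30040134198, nat_lit 30541202108, nat_lit 30655478188, nat_lit 31278223695], nat_lit 1271250, nat_lit 1271250, nat_lit 1271250, nat_lit 1271250, nat_lit 1271250, nat_lit 1271250, [nat_lit 1100000, nat_lit 2127500, nat_lit 1271250], [nat_lit 56, nat_lit 40, nat_lit 40, nat_lit 80, nat_lit 32, nat_lit 456, nat_lit 225, nat_lit 10]⟩,
 zbF0, [⟨nat_lit 4, nat_lit 100, nat_lit 57, nat_lit 84, nat_lit 590830019⟩, ⟨nat_lit 19, nat_lit 100, nat_lit 77, nat_lit 91, nat_lit 404348362⟩]⟩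
noncomputable def p116_l59 : Lf2 := ⟨nat_lit 0, nat_lit 30, [nat_lit 15, nat_lit 5, nat_lit 5, nat_lit 20], false, nat_lit 160, nat_lit 248, nat_lit 160, nat_lit 352, ⟨nat_lit 1000, nat_lit 0, nat_lit 0, nat_lit 0, nat_lit 0, nat_lit 0, nat_lit 0, nat_lit 0, nat_lit 0, nat_lit 0, nat_lit 0, nat_lit 0, nat_lit 0, nat_lit 0, nat_lit 0, nat_lit 0, false, false⟩,
 nat_lit 18086, nat_lit 0, nat_lit 0, nat_lit 0, nat_lit 6244, nat_lit 10527, nat_lit 0, nat_lit 0, nat_lit 0, nat_lit 790, nat_lit 0, nat_lit 0, nat_lit 0, nat_lit 0, nat_lit 0, nat_lit 0, nat_lit 0, nat_lit 0, [],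
 ⟨p116_k6, nat_lit 0, nat_lit 0, nat_lit 76, nat_lit 0, nat_lit 109682, [nat_lit 938000000, nat_lit 4688000000, nat_lit 9842000000], [], [nat_lit 22597266512, nat_lit 23561167748, nat_lit 23997792928, nat_lit 24887373796, nat_lit 25061473909, nat_lit 25877451753, nat_lit 26183214839, nat_lit 27073142190], nat_lit 1271250, nat_lit 1271250, nat_lit 1271250, nat_lit 1271250, nat_lit 1100001, nat_lit 1853500, [nat_lit 230000, nat_lit 1100000, nat_lit 2127500], [nat_lit 81, nat_lit 40, nat_lit 40, nat_lit 80, nat_lit 13, nat_lit 345, nat_lit 125, nat_lit 9]⟩, ⟨p116_k2, nat_lit 0, nat_lit 0, nat_lit 217, nat_lit 0, nat_lit 185462, [nat_lit 4688000000, nat_lit 9842000000, nat_lit 14058000000], [], [nat_lit 24115195822, nat_lit 22984311960, nat_lit 23063142706, nat_lit 23973531232, nat_lit 28772228870, nat_lit 29237486031, nat_lit 29146836479, nat_lit 29780857141], nat_lit 1271250, nat_lit 1271250, nat_lit 1271250, nat_lit 1271250,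 nat_lit 1271250, nat_lit 1271250, [nat_lit 1100000, nat_lit 2127500, nat_lit 1271250], [nat_lit 56, nat_lit 40, nat_lit 40, nat_lit 80, nat_lit 32, nat_lit 456, nat_lit 225, nat_lit 10]⟩,
 zbF0, [⟨nat_lit 4, nat_lit 100, nat_lit 57, nat_lit 90, nat_lit 659955997⟩, ⟨nat_lit 7, nat_lit 78, nat_lit 100, nat_lit 95, nat_lit 372310046⟩]⟩
noncomputable def p116_l60 : Lf2 := ⟨nat_lit 0, nat_lit 30, [nat_lit 15, nat_lit 5, nat_lit 5, nat_lit 20], false, nat_lit 160, nat_lit 232, nat_lit 160, nat_lit 352, ⟨nat_lit 377, nat_lit 0, nat_lit 623, nat_lit 6, nat_lit 243, nat_lit 623, nat_lit 152, nat_lit 623, nat_lit 156817, nat_lit 312, nat_lit 26118, nat_lit 200, nat_lit 42221845, nat_lit 0, nat_lit 0, nat_lit 4783389, true, false⟩,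
 nat_lit 6825, nat_lit 0, nat_lit 0, nat_lit 0, nat_lit 5047, nat_lit 3972, nat_lit 0, nat_lit 0, nat_lit 0, nat_lit 298, nat_lit 0, nat_lit 0, nat_lit 0, nat_lit 0, nat_lit 0, nat_lit 124600, nat_lit 0, nat_lit 0, [(nat_lit 26, [(nat_lit 3, nat_lit 623)])],
 ⟨p116_k8, nat_lit 0, nat_lit 0, nat_lit 152, nat_lit 0, nat_lit 222534, [nat_lit 1068830000, nat_lit 1250286001, nat_lit 1757936000], [], [nat_lit 23258230720, nat_lit 23991256804, nat_lit 24311825356, nat_lit 24992148732, nat_lit 24691041554, nat_lit 25359691947, nat_lit 25705645804, nat_lit 26516249028], nat_lit 1271250, nat_lit 1271250, nat_lit 1271250, nat_lit 1271250, nat_lit 1100001, nat_lit 1716500, [nat_lit 230000, nat_lit 1100000, nat_lit 1785000], [nat_lit 57, nat_lit 40, nat_lit 40, nat_lit 80, nat_lit 7, nat_lit 345, nat_lit 125, nat_lit 10]⟩, ⟨p116_k2, nat_lit 0, nat_lit 0, nat_lit 366, nat_lit 0, nat_lit 393358, [nat_lit 1767376000, nat_lit 3710434000, nat_lit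 5299866000], [], [nat_lit 9091248116, nat_lit 9109853724, nat_lit 9058151328, nat_lit 9305616788, nat_lit 10843611019, nat_lit 11020139060, nat_lit 10985805514, nat_lit 11224881422], nat_lit 1271250, nat_lit 1271250, nat_lit 1271250, nat_lit 1271250, nat_lit 1271250, nat_lit 1271250, [nat_lit 1100000, nat_lit 2127500, nat_lit 1271250], [nat_lit 56, nat_lit 40, nat_lit 40, nat_lit 80, nat_lit 32, nat_lit 456, nat_lit 225, nat_lit 10]⟩,
 ⟨nat_lit 2236, nat_lit 2739, ⟨.ofNat (nat_lit 567191), .ofNat (nat_lit 626287), .ofNat (nat_lit 589588), .ofNat (nat_lit 648684), .ofNat (nat_lit 568262), .ofNat (nat_lit 625312), .ofNat (nat_lit 591016), .ofNat (nat_lit 648065)⟩, ⟨.ofNat (nat_lit 306433), .ofNat (nat_lit 412743), .ofNat (nat_lit 351268), .ofNat (nat_lit 457578), .ofNat (nat_lit 306337), .ofNat (nat_lit 408965), .ofNat (nat_lit 351886), .ofNat (nat_lit 454514)⟩⟩, [⟨nat_lit 16, nat_lit 53, nat_lit 100, nat_lit 93, nat_lit 361723888⟩,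 ⟨nat_lit 19, nat_lit 100, nat_lit 82, nat_lit 92, nat_lit 149205329⟩]⟩
noncomputable def p116_l61 : Lf2 := ⟨nat_lit 0, nat_lit 30, [nat_lit 15, nat_lit 5, nat_lit 5, nat_lit 20], false, nat_lit 160, nat_lit 208, nat_lit 0, nat_lit 364, ⟨nat_lit 39, nat_lit 334, nat_lit 627, nat_lit 6, nat_lit 220, nat_lit 961, nat_lit 145, nat_lit 627, nat_lit 198017, nat_lit 324, nat_lit 4336, nat_lit 204, nat_lit 44673516, nat_lit 14692807, nat_lit 7633677, nat_lit 4558758, false, false⟩,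
 nat_lit 983, nat_lit 2088, nat_lit 0, nat_lit 2034, nat_lit 2869, nat_lit 520, nat_lit 0, nat_lit 0, nat_lit 0, nat_lit 28, nat_lit 0, nat_lit 0, nat_lit 0, nat_lit 0, nat_lit 44, nat_lit 240250, nat_lit 0, nat_lit 0, [(nat_lit 29, [(nat_lit 0, nat_lit 334), (nat_lit 4, nat_lit 627)])],
 ⟨p116_k0, nat_lit 0, nat_lit 0, nat_lit 167, nat_lit 0, nat_lit 229780, [nat_lit 951159600, nat_lit 277251600, nat_lit 124183200], [], [nat_lit 21417914308, nat_lit 22009074611, nat_lit 23316156354, nat_lit 23833524516, nat_lit 22477653675, nat_lit 23033837936, nat_lit 24279910974, nat_lit 24914844382], nat_lit 1271250, nat_lit 1271250, nat_lit 1000851, nat_lit 1778250, nat_lit 1100001, nat_lit 1511000, [nat_lit 230000, nat_lit 1100000, nat_lit 1785000], [nat_lit 57, nat_lit 40, nat_lit 40, nat_lit 80, nat_lit 7, nat_lit 345, nat_lit 125, nat_lit 10]⟩, ⟨p116_k1, nat_lit 0, nat_lit 0, nat_lit 652, nat_lit 0, nat_lit 482802, [nat_lit 182832000,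 nat_lit 383838000, nat_lit 639600000], [], [nat_lit 2684813092, nat_lit 2404286508, nat_lit 1567293128, nat_lit 1603460506, nat_lit 2530976001, nat_lit 2297890187, nat_lit 1466997532, nat_lit 1245870399], nat_lit 1271250, nat_lit 1271250, nat_lit 1271250, nat_lit 1271250, nat_lit 0, nat_lit 2570750, [nat_lit 1100000, nat_lit 2127500, nat_lit 1271250], [nat_lit 83, nat_lit 40, nat_lit 40, nat_lit 80, nat_lit 73, nat_lit 456, nat_lit 225, nat_lit 10]⟩,
 ⟨nat_lit 1581, nat_lit 2237, ⟨.ofNat (nat_lit 471225), .ofNat (nat_lit 602558), .ofNat (nat_lit 493955), .ofNat (nat_lit 625287), .ofNat (nat_lit 475401), .ofNat (nat_lit 601260), .ofNat (nat_lit 498671), .ofNat (nat_lit 624529)⟩, ⟨.ofNat (nat_lit 306337), .ofNat (nat_lit 374756), .ofNat (nat_lit 351886), .ofNat (nat_lit 420305), .ofNat (nat_lit 305473), .ofNat (nat_lit 371036), .ofNat (nat_lit 352103), .ofNat (nat_lit 417666)⟩⟩, [⟨nat_lit 16, nat_lit 44, nat_lit 100, nat_lit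 92, nat_lit 29937424⟩, ⟨nat_lit 4, nat_lit 100, nat_lit 38, nat_lit 87, nat_lit 290874060⟩, ⟨nat_lit 7, nat_lit 72, nat_lit 100, nat_lit 89, nat_lit 3111095⟩]⟩
noncomputable def p116_l62 : Lf2 := ⟨nat_lit 0, nat_lit 30, [nat_lit 15, nat_lit 5, nat_lit 5, nat_lit 20], true, nat_lit 160, nat_lit 184, nat_lit 0, nat_lit 364, ⟨nat_lit 0, nat_lit 564, nat_lit 436, nat_lit 6, nat_lit 228, nat_lit 1000, nat_lit 137, nat_lit 436, nat_lit 176817, nat_lit 318, nat_lit 2404, nat_lit 204, nat_lit 44473481, nat_lit 15546533, nat_lit 6979986, nat_lit 4531075, true, false⟩,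
 nat_lit 0, nat_lit 3025, nat_lit 0, nat_lit 0, nat_lit 2925, nat_lit 0, nat_lit 0, nat_lit 0, nat_lit 0, nat_lit 0, nat_lit 0, nat_lit 0, nat_lit 0, nat_lit 0, nat_lit 7, nat_lit 250000, nat_lit 0, nat_lit 0, [(nat_lit 29, [(nat_lit 0, nat_lit 564), (nat_lit 4, nat_lit 436)])],
 ⟨p116_k3, nat_lit 0, nat_lit 0, nat_lit 214, nat_lit 0, nat_lit 406235, [nat_lit 800880001, nat_lit 232305067, nat_lit 4337600], [], [nat_lit 22387654634, nat_lit 22951629324, nat_lit 23866959625, nat_lit 24557980000, nat_lit 22908422044, nat_lit 23482509832, nat_lit 24415313305, nat_lit 25081033810], nat_lit 1271250, nat_lit 1271250, nat_lit 1236400, nat_lit 1794000, nat_lit 1100001, nat_lit 1305500, [nat_lit 230000, nat_lit 780000, nat_lit 1435000], [nat_lit 20, nat_lit 40, nat_lit 40, nat_lit 80, nat_lit 16, nat_lit 345, nat_lit 125, nat_lit 12]⟩, C1.Rw.none,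
 ⟨nat_lit 0, nat_lit 1582, ⟨.ofNat (nat_lit 511747), .ofNat (nat_lit 601257), .ofNat (nat_lit 534406), .ofNat (nat_lit 623921), .ofNat (nat_lit 517899), .ofNat (nat_lit 599992), .ofNat (nat_lit 542242), .ofNat (nat_lit 624340)⟩, ⟨.ofNat (nat_lit 305469), .ofNat (nat_lit 338250), .ofNat (nat_lit 352101), .ofNat (nat_lit 384882), .ofNat (nat_lit 299995), .ofNat (nat_lit 329995), .ofNat (nat_lit 349997), .ofNat (nat_lit 379997)⟩⟩, [⟨nat_lit 16, nat_lit 31, nat_lit 100, nat_lit 92, nat_lit 514497448⟩, ⟨nat_lit 4, nat_lit 100, nat_lit 23, nat_lit 91, nat_lit 5198446⟩]⟩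
noncomputable def p116_l63 : Lf2 := ⟨nat_lit 0, nat_lit 30, [nat_lit 15, nat_lit 5, nat_lit 5, nat_lit 20], false, nat_lit 160, nat_lit 208, nat_lit 0, nat_lit 352, ⟨nat_lit 116, nat_lit 228, nat_lit 656, nat_lit 6, nat_lit 232, nat_lit 884, nat_lit 145, nat_lit 656, nat_lit 198017, nat_lit 324, nat_lit 8419, nat_lit 201, nat_lit 43609252, nat_lit 15854768, nat_lit 7535980, nat_lit 4643078, false, false⟩,
 nat_lit 3711, nat_lit 0, nat_lit 0, nat_lit 0, nat_lit 3467, nat_lit 2159, nat_lit 0, nat_lit 0, nat_lit 0, nat_lit 19, nat_lit 0, nat_lit 0, nat_lit 0, nat_lit 0, nat_lit 12, nat_lit 184920, nat_lit 0, nat_lit 0, [(nat_lit 29, [(nat_lit 0, nat_lit 228), (nat_lit 3, nat_lit 656)])],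
 ⟨p116_k17, nat_lit 0, nat_lit 0, nat_lit 161, nat_lit 0, nat_lit 246169, [nat_lit 1086526401, nat_lit 245916800, nat_lit 140078400], [], [nat_lit 22249181223, nat_lit 22877079555, nat_lit 23819165824, nat_lit 24383819388, nat_lit 23265995264, nat_lit 23850975128, nat_lit 24742670882, nat_lit 25436200038], nat_lit 1271250, nat_lit 1271250, nat_lit 1167600, nat_lit 1789500, nat_lit 1100001, nat_lit 1511000, [nat_lit 230000, nat_lit 780000, nat_lit 1762500], [nat_lit 54, nat_lit 40, nat_lit 40, nat_lit 80, nat_lit 43, nat_lit 345, nat_lit 125, nat_lit 10]⟩, ⟨p116_k15, nat_lit 0, nat_lit 0, nat_lit 558, nat_lit 0, nat_lit 454371, [nat_lit 543808000, nat_lit 924288000, nat_lit 1630728000], [], [nat_lit 5221840432, nat_lit 5332335394, nat_lit 5414803994, nat_lit 5501982231, nat_lit 4848012860, nat_lit 4359112492, nat_lit 3939972550, nat_lit 3959861576], nat_lit 1271250, nat_lit 1271250, nat_lit 1271250, nat_lit 1271250, nat_lit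 0, nat_lit 2486000, [nat_lit 1100000, nat_lit 1785000, nat_lit 1271250], [nat_lit 37, nat_lit 40, nat_lit 40, nat_lit 80, nat_lit 28, nat_lit 456, nat_lit 225, nat_lit 10]⟩,
 ⟨nat_lit 1581, nat_lit 2237, ⟨.ofNat (nat_lit 522505), .ofNat (nat_lit 625287), .ofNat (nat_lit 533870), .ofNat (nat_lit 636651), .ofNat (nat_lit 526032), .ofNat (nat_lit 624529), .ofNat (nat_lit 537666), .ofNat (nat_lit 636164)⟩, ⟨.ofNat (nat_lit 306337), .ofNat (nat_lit 374756), .ofNat (nat_lit 351886), .ofNat (nat_lit 420305), .ofNat (nat_lit 305473), .ofNat (nat_lit 371036), .ofNat (nat_lit 352103), .ofNat (nat_lit 417666)⟩⟩, [⟨nat_lit 16, nat_lit 44, nat_lit 100, nat_lit 92, nat_lit 44788483⟩, ⟨nat_lit 4, nat_lit 100, nat_lit 38, nat_lit 87, nat_lit 306484716⟩, ⟨nat_lit 19, nat_lit 100, nat_lit 69, nat_lit 96, nat_lit 501499⟩]⟩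
noncomputable def p116_l64 : Lf2 := ⟨nat_lit 0, nat_lit 30, [nat_lit 15, nat_lit 5, nat_lit 5, nat_lit 20], true, nat_lit 160, nat_lit 184, nat_lit 0, nat_lit 352, ⟨nat_lit 0, nat_lit 703, nat_lit 297, nat_lit 6, nat_lit 240, nat_lit 1000, nat_lit 137, nat_lit 297, nat_lit 176817, nat_lit 318, nat_lit 8140, nat_lit 201, nat_lit 43396229, nat_lit 16715480, nat_lit 6888291, nat_lit 4609977, true, false⟩,
 nat_lit 0, nat_lit 2999, nat_lit 0, nat_lit 0, nat_lit 2899, nat_lit 0, nat_lit 0, nat_lit 0, nat_lit 0, nat_lit 0, nat_lit 0, nat_lit 0, nat_lit 0, nat_lit 0, nat_lit 2, nat_lit 294550, nat_lit 0, nat_lit 0, [(nat_lit 29, [(nat_lit 0, nat_lit 703), (nat_lit 5, nat_lit 297)])],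
 ⟨p116_k3, nat_lit 0, nat_lit 0, nat_lit 219, nat_lit 0, nat_lit 432631, [nat_lit 733764001, nat_lit 253527201, nat_lit 15294000], [], [nat_lit 22760188016, nat_lit 23305951510, nat_lit 23843429495, nat_lit 24531597280, nat_lit 23265220910, nat_lit 23866095520, nat_lit 24392214422, nat_lit 25055234811], nat_lit 1271250, nat_lit 1271250, nat_lit 1271250, nat_lit 1271250, nat_lit 1100001, nat_lit 1305500, [nat_lit 230000, nat_lit 780000, nat_lit 1435000], [nat_lit 20, nat_lit 40, nat_lit 40, nat_lit 80, nat_lit 16, nat_lit 345, nat_lit 125, nat_lit 12]⟩, C1.Rw.none,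
 ⟨nat_lit 0, nat_lit 1582, ⟨.ofNat (nat_lit 562380), .ofNat (nat_lit 623921), .ofNat (nat_lit 573708), .ofNat (nat_lit 635250), .ofNat (nat_lit 567898), .ofNat (nat_lit 624340), .ofNat (nat_lit 580069), .ofNat (nat_lit 636512)⟩, ⟨.ofNat (nat_lit 305469), .ofNat (nat_lit 338250), .ofNat (nat_lit 352101), .ofNat (nat_lit 384882), .ofNat (nat_lit 299995), .ofNat (nat_lit 329995), .ofNat (nat_lit 349997), .ofNat (nat_lit 379997)⟩⟩, [⟨nat_lit 16, nat_lit 31, nat_lit 100, nat_lit 92, nat_lit 512034623⟩]⟩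
noncomputable def p116_l65 : Lf2 := ⟨nat_lit 0, nat_lit 30, [nat_lit 15, nat_lit 5, nat_lit 5, nat_lit 20], false, nat_lit 160, nat_lit 208, nat_lit 0, nat_lit 344, ⟨nat_lit 188, nat_lit 62, nat_lit 750, nat_lit 6, nat_lit 240, nat_lit 812, nat_lit 145, nat_lit 750, nat_lit 198017, nat_lit 324, nat_lit 24782, nat_lit 200, nat_lit 42933752, nat_lit 16596071, nat_lit 7470177, nat_lit 4691441, true, false⟩,
 nat_lit 4193, nat_lit 0, nat_lit 0, nat_lit 0, nat_lit 3576, nat_lit 2553, nat_lit 0, nat_lit 0, nat_lit 0, nat_lit 116, nat_lit 0, nat_lit 0, nat_lit 0, nat_lit 0, nat_lit 14, nat_lit 161750, nat_lit 0, nat_lit 0, [(nat_lit 29, [(nat_lit 0, nat_lit 62), (nat_lit 3, nat_lit 750)])],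
 ⟨p116_k17, nat_lit 0, nat_lit 0, nat_lit 164, nat_lit 0, nat_lit 264359, [nat_lit 1140003201, nat_lit 256713601, nat_lit 206899200], [], [nat_lit 22435378298, nat_lit 23065320616, nat_lit 23787132256, nat_lit 24456117880, nat_lit 23428051553, nat_lit 24014132592, nat_lit 24827020096, nat_lit 25531229748], nat_lit 1271250, nat_lit 1271250, nat_lit 1271250, nat_lit 1271250, nat_lit 1100001, nat_lit 1511000, [nat_lit 230000, nat_lit 780000, nat_lit 1762500], [nat_lit 54, nat_lit 40, nat_lit 40, nat_lit 80, nat_lit 43, nat_lit 345, nat_lit 125, nat_lit 10]⟩, ⟨p116_k21, nat_lit 0, nat_lit 0, nat_lit 554, nat_lit 0, nat_lit 459082, [nat_lit 881344000, nat_lit 1497984000, nat_lit 2642904000], [], [nat_lit 6987395663, nat_lit 7128663276, nat_lit 7264321377, nat_lit 7381550764, nat_lit 6207568377, nat_lit 5824193896, nat_lit 5709026591, nat_lit 5758735033], nat_lit 1271250, nat_lit 1271250, nat_lit 1271250, nat_lit 1271250, nat_lit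 0, nat_lit 2429500, [nat_lit 1100000, nat_lit 1785000, nat_lit 1271250], [nat_lit 37, nat_lit 40, nat_lit 40, nat_lit 80, nat_lit 28, nat_lit 456, nat_lit 225, nat_lit 10]⟩,
 ⟨nat_lit 1581, nat_lit 2237, ⟨.ofNat (nat_lit 551000), .ofNat (nat_lit 636651), .ofNat (nat_lit 562365), .ofNat (nat_lit 648016), .ofNat (nat_lit 554083), .ofNat (nat_lit 636164), .ofNat (nat_lit 565717), .ofNat (nat_lit 647799)⟩, ⟨.ofNat (nat_lit 306337), .ofNat (nat_lit 374756), .ofNat (nat_lit 351886), .ofNat (nat_lit 420305), .ofNat (nat_lit 305473), .ofNat (nat_lit 371036), .ofNat (nat_lit 352103), .ofNat (nat_lit 417666)⟩⟩, [⟨nat_lit 16, nat_lit 44, nat_lit 100, nat_lit 92, nat_lit 355188484⟩, ⟨nat_lit 19, nat_lit 100, nat_lit 74, nat_lit 98, nat_lit 12553589⟩]⟩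
noncomputable def p116_l66 : Lf2 := ⟨nat_lit 0, nat_lit 30, [nat_lit 15, nat_lit 5, nat_lit 5, nat_lit 20], false, nat_lit 160, nat_lit 184, nat_lit 0, nat_lit 344, ⟨nat_lit 333, nat_lit 65, nat_lit 602, nat_lit 6, nat_lit 247, nat_lit 667, nat_lit 137, nat_lit 602, nat_lit 176817, nat_lit 318, nat_lit 26116, nat_lit 200, nat_lit 42804827, nat_lit 17360102, nat_lit 6835071, nat_lit 4649176, true, false⟩,
 nat_lit 5414, nat_lit 0, nat_lit 0, nat_lit 0, nat_lit 3610, nat_lit 3297, nat_lit 0, nat_lit 0, nat_lit 0, nat_lit 311, nat_lit 0, nat_lit 0, nat_lit 0, nat_lit 0, nat_lit 0, nat_lit 133640, nat_lit 0, nat_lit 0, [(nat_lit 29, [(nat_lit 0, nat_lit 65), (nat_lit 3, nat_lit 602)])],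
 ⟨p116_k3, nat_lit 0, nat_lit 0, nat_lit 157, nat_lit 0, nat_lit 303381, [nat_lit 1052809200, nat_lit 703456267, nat_lit 992162000], [], [nat_lit 23586107516, nat_lit 24242671793, nat_lit 24517352440, nat_lit 25253063200, nat_lit 24082095136, nat_lit 24752008745, nat_lit 25023880047, nat_lit 25760738212], nat_lit 1271250, nat_lit 1271250, nat_lit 1271250, nat_lit 1271250, nat_lit 1100001, nat_lit 1305500, [nat_lit 230000, nat_lit 780000, nat_lit 1435000], [nat_lit 20, nat_lit 40, nat_lit 40, nat_lit 80, nat_lit 16, nat_lit 260, nat_lit 50, nat_lit 8]⟩, ⟨p116_k21, nat_lit 0, nat_lit 0, nat_lit 579, nat_lit 0, nat_lit 549558, [nat_lit 1561104000, nat_lit 2653344000, nat_lit 4681314000], [], [nat_lit 10434885182, nat_lit 10631601243, nat_lit 10809567948, nat_lit 10986058884, nat_lit 9639448716, nat_lit 9443654940, nat_lit 9435448767, nat_lit 9504253499], nat_lit 1271250, nat_lit 1271250, nat_lit 1271250, nat_lit 1271250, nat_lit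 0, nat_lit 2429500, [nat_lit 1100000, nat_lit 1785000, nat_lit 1271250], [nat_lit 37, nat_lit 40, nat_lit 40, nat_lit 80, nat_lit 28, nat_lit 456, nat_lit 225, nat_lit 10]⟩,
 ⟨nat_lit 0, nat_lit 1582, ⟨.ofNat (nat_lit 584898), .ofNat (nat_lit 635250), .ofNat (nat_lit 596226), .ofNat (nat_lit 646579), .ofNat (nat_lit 590332), .ofNat (nat_lit 636512), .ofNat (nat_lit 602503), .ofNat (nat_lit 648683)⟩, ⟨.ofNat (nat_lit 305469), .ofNat (nat_lit 338250), .ofNat (nat_lit 352101), .ofNat (nat_lit 384882), .ofNat (nat_lit 299995), .ofNat (nat_lit 329995), .ofNat (nat_lit 349997), .ofNat (nat_lit 379997)⟩⟩, [⟨nat_lit 0, nat_lit 94, nat_lit 23, nat_lit 100, nat_lit 55296693⟩, ⟨nat_lit 16, nat_lit 31, nat_lit 100, nat_lit 92, nat_lit 609790890⟩, ⟨nat_lit 19, nat_lit 100, nat_lit 74, nat_lit 98, nat_lit 42928091⟩]⟩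
noncomputable def b_V_900_600_20_63 : St := ⟨true, nat_lit 1, nat_lit 1, nat_lit 1, nat_lit 120, nat_lit 360, nat_lit 400, nat_lit 240, nat_lit 280, nat_lit 112, nat_lit 240, nat_lit 80, nat_lit 120, nat_lit 160, nat_lit 248, nat_lit 0, nat_lit 364, nat_lit 80, nat_lit 120, nat_lit 0, nat_lit 0, nat_lit 0, nat_lit 0⟩
theorem d_V_900_600_20_63 (h : EB TB.env) : Dead b_V_900_600_20_63 := chkB_sound0 h (T :=
(.spl (nat_lit 0) (nat_lit 380)
(.spl (nat_lit 2) (nat_lit 160)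
(.spl (nat_lit 6) (nat_lit 100)
(.leaf p116_l46)
(.leaf p116_l47))
(.spl (nat_lit 2) (nat_lit 200)
(.spl (nat_lit 0) (nat_lit 370)
(.spl (nat_lit 3) (nat_lit 100)
(.trX (nat_lit 16) (nat_lit 60) (nat_lit 100) (nat_lit 87) (nat_lit 224) (.trX (nat_lit 19) (nat_lit 100) (nat_lit 68) (nat_lit 88) (nat_lit 352) (.leaf p116_l48)))
(.spl (nat_lit 6) (nat_lit 100)
(.leaf p116_l49)
(.leaf p116_l50)))
(.trX (nat_lit 16) (nat_lit 53) (nat_lit 100) (nat_lit 93) (nat_lit 232) (.spl (nat_lit 1) (nat_lit 260)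
(.leaf p116_l51)
(.trX (nat_lit 19) (nat_lit 100) (nat_lit 69) (nat_lit 96) (nat_lit 352) (.leaf p116_l52)))))
(.spl (nat_lit 1) (nat_lit 260)
(.spl (nat_lit 0) (nat_lit 370)
(.spl (nat_lit 1) (nat_lit 250)
(.leaf p116_l53)
(.trX (nat_lit 19) (nat_lit 100) (nat_lit 64) (nat_lit 95) (nat_lit 360) (.spl (nat_lit 6) (nat_lit 100)
(.leaf p116_l54)
(.leaf p116_l55))))
(.trX (nat_lit 16) (nat_lit 53) (nat_lit 100) (nat_lit 93) (nat_lit 232) (.leaf p116_l56)))
(.trX (nat_lit 19) (nat_lit 100) (nat_lit 69) (nat_lit 96) (nat_lit 352) (.spl (nat_lit 5) (nat_lit 160)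
(.leaf p116_l57)
(.spl (nat_lit 0) (nat_lit 370)
(.spl (nat_lit 3) (nat_lit 100)
(.trX (nat_lit 16) (nat_lit 60) (nat_lit 100) (nat_lit 87) (nat_lit 224) (.trX (nat_lit 19) (nat_lit 100) (nat_lit 77) (nat_lit 91) (nat_lit 336) (.leaf p116_l58)))
(.leaf p116_l59))
(.trX (nat_lit 16) (nat_lit 53) (nat_lit 100) (nat_lit 93) (nat_lit 232) (.leaf p116_l60))))))))
(.trZ (nat_lit 0) (nat_lit 100) (nat_lit 44) (nat_lit 99) (nat_lit 148) (.trX (nat_lit 16) (nat_lit 44) (nat_lit 100) (nat_lit 92) (nat_lit 208) (.spl (nat_lit 1) (nat_lit 260)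
(.spl (nat_lit 0) (nat_lit 390)
(.leaf p116_l61)
(.trZ (nat_lit 0) (nat_lit 99) (nat_lit 31) (nat_lit 100) (nat_lit 176) (.trX (nat_lit 16) (nat_lit 31) (nat_lit 100) (nat_lit 92) (nat_lit 184) (.leaf p116_l62))))
(.trZ (nat_lit 0) (nat_lit 96) (nat_lit 44) (nat_lit 100) (nat_lit 168) (.trX (nat_lit 19) (nat_lit 100) (nat_lit 69) (nat_lit 96) (nat_lit 352) (.spl (nat_lit 1) (nat_lit 270)
(.spl (nat_lit 0) (nat_lit 390)
(.leaf p116_l63)
(.trZ (nat_lit 0) (nat_lit 95) (nat_lit 31) (nat_lit 100) (nat_lit 196) (.trX (nat_lit 16) (nat_lit 31) (nat_lit 100) (nat_lit 92) (nat_lit 184) (.leaf p116_l64))))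
(.trZ (nat_lit 0) (nat_lit 94) (nat_lit 44) (nat_lit 100) (nat_lit 180) (.trX (nat_lit 19) (nat_lit 100) (nat_lit 74) (nat_lit 98) (nat_lit 344) (.spl (nat_lit 0) (nat_lit 390)
(.leaf p116_l65)
(.trZ (nat_lit 0) (nat_lit 94) (nat_lit 31) (nat_lit 100) (nat_lit 204) (.trX (nat_lit 16) (nat_lit 31) (nat_lit 100) (nat_lit 92) (nat_lit 184) (.leaf p116_l66)))))))))))))) (by decide +kernel)
noncomputable def p116_l67 : Lf2 := ⟨nat_lit 0, nat_lit 25, [nat_lit 44, nat_lit 5, nat_lit 5, nat_lit 20], false, nat_lit 8, nat_lit 160, nat_lit 0, nat_lit 352, ⟨nat_lit 1000, nat_lit 0, nat_lit 0, nat_lit 0, nat_lit 0, nat_lit 0, nat_lit 0, nat_lit 0, nat_lit 0, nat_lit 0, nat_lit 0, nat_lit 0, nat_lit 0, nat_lit 0, nat_lit 0, nat_lit 0, false, false⟩,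
 nat_lit 16447, nat_lit 0, nat_lit 0, nat_lit 0, nat_lit 5773, nat_lit 8706, nat_lit 409, nat_lit 0, nat_lit 0, nat_lit 849, nat_lit 0, nat_lit 0, nat_lit 0, nat_lit 0, nat_lit 0, nat_lit 0, nat_lit 0, nat_lit 0, [],
 ⟨p116_k22, nat_lit 0, nat_lit 0, nat_lit 226, nat_lit 0, nat_lit 95947, [nat_lit 938000000, nat_lit 3282000000, nat_lit 7968000000], [], [nat_lit 28440466944, nat_lit 28869807880, nat_lit 36535413517, nat_lit 36950985578, nat_lit 24794060243, nat_lit 25087840062, nat_lit 30844963758, nat_lit 31207399806], nat_lit 1271250, nat_lit 1271250, nat_lit 1271250, nat_lit 1271250, nat_lit 43600, nat_lit 1100001, [nat_lit 230000, nat_lit 780000, nat_lit 1762500], [nat_lit 54, nat_lit 40, nat_lit 40, nat_lit 80, nat_lit 43, nat_lit 249, nat_lit 40, nat_lit 7]⟩, ⟨p116_k25, nat_lit 0, nat_lit 0, nat_lit 392, nat_lit 0, nat_lit 182904, [nat_lit 4688000000, nat_lit 7968000000, nat_lit 14058000000], [], [nat_lit 37219502008,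 nat_lit 37595706444, nat_lit 40685359133, nat_lit 41081429850, nat_lit 32050794260, nat_lit 31736124115, nat_lit 34933882121, nat_lit 35095629623], nat_lit 1271250, nat_lit 1271250, nat_lit 1271250, nat_lit 1271250, nat_lit 0, nat_lit 2486000, [nat_lit 1100000, nat_lit 1785000, nat_lit 1271250], [nat_lit 37, nat_lit 40, nat_lit 40, nat_lit 80, nat_lit 28, nat_lit 483, nat_lit 250, nat_lit 11]⟩,
 zbF0, [⟨nat_lit 7, nat_lit 77, nat_lit 100, nat_lit 86, nat_lit 125876789⟩]⟩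
noncomputable def p116_l68 : Lf2 := ⟨nat_lit 0, nat_lit 25, [nat_lit 44, nat_lit 5, nat_lit 5, nat_lit 20], false, nat_lit 8, nat_lit 160, nat_lit 0, nat_lit 352, ⟨nat_lit 980, nat_lit 0, nat_lit 20, nat_lit 6, nat_lit 282, nat_lit 20, nat_lit 68, nat_lit 20, nat_lit 43350, nat_lit 266, nat_lit 342578, nat_lit 200, nat_lit 42977405, nat_lit 0, nat_lit 0, nat_lit 4000040, true, true⟩,
 nat_lit 16112, nat_lit 0, nat_lit 0, nat_lit 0, nat_lit 5036, nat_lit 8529, nat_lit 523, nat_lit 0, nat_lit 0, nat_lit 869, nat_lit 0, nat_lit 0, nat_lit 0, nat_lit 0, nat_lit 0, nat_lit 4000, nat_lit 0, nat_lit 0, [(nat_lit 26, [(nat_lit 3, nat_lit 20)])],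
 ⟨p116_k26, nat_lit 0, nat_lit 0, nat_lit 242, nat_lit 0, nat_lit 120574, [nat_lit 942200000, nat_lit 3211460001, nat_lit 7768640000], [], [nat_lit 27232445367, nat_lit 27770729923, nat_lit 34682529751, nat_lit 35072073334, nat_lit 23665346245, nat_lit 23939164787, nat_lit 30028094034, nat_lit 30368606452], nat_lit 1271250, nat_lit 1271250, nat_lit 1271250, nat_lit 1271250, nat_lit 43600, nat_lit 1100001, [nat_lit 230000, nat_lit 780000, nat_lit 1762500], [nat_lit 54, nat_lit 40, nat_lit 40, nat_lit 80, nat_lit 43, nat_lit 249, nat_lit 40, nat_lit 7]⟩, ⟨p116_k25, nat_lit 0, nat_lit 0, nat_lit 408, nat_lit 0, nat_lit 234972, [nat_lit 4594240000, nat_lit 7808640000, nat_lit 13776840000], [], [nat_lit 35737667472, nat_lit 36106368826, nat_lit 39015569900, nat_lit 39585121542, nat_lit 31413198653, nat_lit 30737246378, nat_lit 33696012113, nat_lit 34077358323], nat_lit 1271250, nat_lit 1271250, nat_lit 1271250, nat_lit 1271250,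 nat_lit 0, nat_lit 2486000, [nat_lit 1100000, nat_lit 1785000, nat_lit 1271250], [nat_lit 37, nat_lit 40, nat_lit 40, nat_lit 80, nat_lit 28, nat_lit 483, nat_lit 250, nat_lit 11]⟩,
 ⟨nat_lit 2738, nat_lit 2959, ⟨.ofNat (nat_lit 604573), .ofNat (nat_lit 784637), .ofNat (nat_lit 626847), .ofNat (nat_lit 806914), .ofNat (nat_lit 603893), .ofNat (nat_lit 781079), .ofNat (nat_lit 626308), .ofNat (nat_lit 803496)⟩, ⟨.ofNat (nat_lit 20000), .ofNat (nat_lit 306315), .ofNat (nat_lit 20000), .ofNat (nat_lit 328592), .ofNat (nat_lit 20000), .ofNat (nat_lit 306433), .ofNat (nat_lit 20000), .ofNat (nat_lit 328850)⟩⟩, [⟨nat_lit 19, nat_lit 100, nat_lit 77, nat_lit 86, nat_lit 129361626⟩]⟩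
noncomputable def p116_l69 : Lf2 := ⟨nat_lit 1, nat_lit 25, [nat_lit 44, nat_lit 5, nat_lit 5, nat_lit 20], false, nat_lit 8, nat_lit 160, nat_lit 0, nat_lit 352, zbN0,
 nat_lit 0, nat_lit 0, nat_lit 0, nat_lit 0, nat_lit 0, nat_lit 0, nat_lit 0, nat_lit 0, nat_lit 0, nat_lit 0, nat_lit 0, nat_lit 0, nat_lit 0, nat_lit 0, nat_lit 0, nat_lit 0, nat_lit 0, nat_lit 0, [],
 C1.Rw.none, C1.Rw.none,
 zbF0, []⟩
noncomputable def p116_l70 : Lf2 := ⟨nat_lit 0, nat_lit 26, [nat_lit 108, nat_lit 5, nat_lit 5, nat_lit 20], false, nat_lit 16, nat_lit 160, nat_lit 0, nat_lit 364, ⟨nat_lit 1000, nat_lit 0, nat_lit 0, nat_lit 0, nat_lit 0, nat_lit 0, nat_lit 0, nat_lit 0, nat_lit 0, nat_lit 0, nat_lit 0, nat_lit 0, nat_lit 0, nat_lit 0, nat_lit 0, nat_lit 0, false, false⟩,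
 nat_lit 17174, nat_lit 0, nat_lit 0, nat_lit 0, nat_lit 5487, nat_lit 9092, nat_lit 513, nat_lit 0, nat_lit 0, nat_lit 761, nat_lit 0, nat_lit 0, nat_lit 0, nat_lit 0, nat_lit 0, nat_lit 0, nat_lit 0, nat_lit 0, [],
 ⟨p116_k27, nat_lit 0, nat_lit 0, nat_lit 194, nat_lit 0, nat_lit 62897, [nat_lit 938000000, nat_lit 3282000000, nat_lit 7968000000], [], [nat_lit 27087924485, nat_lit 28218438501, nat_lit 35310751047, nat_lit 36114611341, nat_lit 23777583715, nat_lit 24416805401, nat_lit 30501541707, nat_lit 31206310522], nat_lit 1271250, nat_lit 1271250, nat_lit 1271250, nat_lit 1271250, nat_lit 88400, nat_lit 1100001, [nat_lit 230000, nat_lit 780000, nat_lit 1762500], [nat_lit 54, nat_lit 40, nat_lit 40, nat_lit 80, nat_lit 43, nat_lit 249, nat_lit 40, nat_lit 7]⟩, ⟨p116_k28, nat_lit 0, nat_lit 0, nat_lit 371, nat_lit 0, nat_lit 120417, [nat_lit 4688000000, nat_lit 7968000000, nat_lit 14058000000], [], [nat_lit 38812313256,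 nat_lit 39185702208, nat_lit 42307257025, nat_lit 42443496693, nat_lit 32732453665, nat_lit 33090235054, nat_lit 36147621077, nat_lit 36381581698], nat_lit 1271250, nat_lit 1271250, nat_lit 1271250, nat_lit 1271250, nat_lit 0, nat_lit 2570750, [nat_lit 1100000, nat_lit 1785000, nat_lit 1271250], [nat_lit 37, nat_lit 40, nat_lit 40, nat_lit 80, nat_lit 28, nat_lit 483, nat_lit 250, nat_lit 11]⟩,
 zbF0, [⟨nat_lit 7, nat_lit 68, nat_lit 100, nat_lit 92, nat_lit 122327209⟩]⟩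
noncomputable def p116_l71 : Lf2 := ⟨nat_lit 1, nat_lit 30, [nat_lit 15, nat_lit 5, nat_lit 5, nat_lit 20], false, nat_lit 16, nat_lit 160, nat_lit 0, nat_lit 364, zbN0,
 nat_lit 0, nat_lit 0, nat_lit 0, nat_lit 0, nat_lit 0, nat_lit 0, nat_lit 0, nat_lit 0, nat_lit 0, nat_lit 0, nat_lit 0, nat_lit 0, nat_lit 0, nat_lit 0, nat_lit 0, nat_lit 0, nat_lit 0, nat_lit 0, [],
 C1.Rw.none, C1.Rw.none,
 zbF0, []⟩
noncomputable def p116_l72 : Lf2 := ⟨nat_lit 0, nat_lit 30, [nat_lit 15, nat_lit 5, nat_lit 5, nat_lit 20], false, nat_lit 12, nat_lit 160, nat_lit 0, nat_lit 160, ⟨nat_lit 1000, nat_lit 0, nat_lit 0, nat_lit 0, nat_lit 0, nat_lit 0, nat_lit 0, nat_lit 0, nat_lit 0, nat_lit 0, nat_lit 0, nat_lit 0, nat_lit 0, nat_lit 0, nat_lit 0, nat_lit 0, false, false⟩,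
 nat_lit 13583, nat_lit 0, nat_lit 0, nat_lit 0, nat_lit 6229, nat_lit 7191, nat_lit 222, nat_lit 0, nat_lit 0, nat_lit 1142, nat_lit 0, nat_lit 0, nat_lit 0, nat_lit 0, nat_lit 0, nat_lit 0, nat_lit 0, nat_lit 0, [],
 ⟨p116_k16, nat_lit 0, nat_lit 0, nat_lit 255, nat_lit 0, nat_lit 182986, [nat_lit 938000000, nat_lit 3282000000, nat_lit 7968000000], [], [nat_lit 31146382831, nat_lit 32043367793, nat_lit 37359240150, nat_lit 38261919136, nat_lit 26997404192, nat_lit 27764023024, nat_lit 31772832739, nat_lit 32356880689], nat_lit 1271250, nat_lit 1271250, nat_lit 1271250, nat_lit 1271250, nat_lit 65850, nat_lit 1100001, [nat_lit 230000, nat_lit 780000, nat_lit 1762500], [nat_lit 54, nat_lit 40, nat_lit 40, nat_lit 80, nat_lit 43, nat_lit 249, nat_lit 40, nat_lit 7]⟩, ⟨p116_k4, nat_lit 0, nat_lit 0, nat_lit 509, nat_lit 0, nat_lit 368204, [nat_lit 4688000000, nat_lit 7968000000, nat_lit 16400000000], [], [nat_lit 33968381818,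 nat_lit 34488029330, nat_lit 37681200162, nat_lit 37993210715, nat_lit 29251923440, nat_lit 29797291194, nat_lit 32897752974, nat_lit 33257400520], nat_lit 1271250, nat_lit 1271250, nat_lit 1271250, nat_lit 1271250, nat_lit 0, nat_lit 1100001, [nat_lit 1100000, nat_lit 1785000, nat_lit 1271250], [nat_lit 122, nat_lit 40, nat_lit 40, nat_lit 80, nat_lit 111, nat_lit 428, nat_lit 200, nat_lit 9]⟩,
 zbF0, []⟩
noncomputable def p116_l73 : Lf2 := ⟨nat_lit 0, nat_lit 25, [nat_lit 44, nat_lit 5, nat_lit 5, nat_lit 20], false, nat_lit 12, nat_lit 160, nat_lit 160, nat_lit 352, ⟨nat_lit 774, nat_lit 0, nat_lit 226, nat_lit 6, nat_lit 278, nat_lit 226, nat_lit 70, nat_lit 226, nat_lit 45067, nat_lit 267, nat_lit 312118, nat_lit 200, nat_lit 43246247, nat_lit 0, nat_lit 0, nat_lit 4009907, true, true⟩,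
 nat_lit 9072, nat_lit 0, nat_lit 0, nat_lit 0, nat_lit 3887, nat_lit 4802, nat_lit 413, nat_lit 0, nat_lit 0, nat_lit 485, nat_lit 0, nat_lit 0, nat_lit 0, nat_lit 0, nat_lit 0, nat_lit 45200, nat_lit 0, nat_lit 0, [(nat_lit 26, [(nat_lit 3, nat_lit 226)])],
 ⟨p116_k29, nat_lit 0, nat_lit 0, nat_lit 253, nat_lit 0, nat_lit 173702, [nat_lit 985460001, nat_lit 2484898000, nat_lit 5715232000], [], [nat_lit 25328767694, nat_lit 26250666704, nat_lit 31359905969, nat_lit 32055672159, nat_lit 23514893926, nat_lit 24110528022, nat_lit 28507483508, nat_lit 29119509353], nat_lit 1271250, nat_lit 1271250, nat_lit 1271250, nat_lit 1271250, nat_lit 65850, nat_lit 1100001, [nat_lit 230000, nat_lit 780000, nat_lit 1762500], [nat_lit 54, nat_lit 40, nat_lit 40, nat_lit 80, nat_lit 43, nat_lit 249, nat_lit 40, nat_lit 7]⟩, ⟨p116_k25, nat_lit 0, nat_lit 0, nat_lit 281, nat_lit 0, nat_lit 347011, [nat_lit 3628512000, nat_lit 6167232000, nat_lit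 10880892000], [], [nat_lit 23066372956, nat_lit 23554618156, nat_lit 26311157923, nat_lit 26641108089, nat_lit 26826170748, nat_lit 27143154616, nat_lit 29117214601, nat_lit 29310360048], nat_lit 1271250, nat_lit 1271250, nat_lit 1271250, nat_lit 1271250, nat_lit 1100001, nat_lit 2744000, [nat_lit 1100000, nat_lit 1785000, nat_lit 1271250], [nat_lit 37, nat_lit 40, nat_lit 40, nat_lit 80, nat_lit 28, nat_lit 483, nat_lit 250, nat_lit 10]⟩,
 ⟨nat_lit 2236, nat_lit 2739, ⟨.ofNat (nat_lit 603890), .ofNat (nat_lit 769266), .ofNat (nat_lit 626287), .ofNat (nat_lit 791684), .ofNat (nat_lit 602558), .ofNat (nat_lit 762206), .ofNat (nat_lit 625312), .ofNat (nat_lit 784980)⟩, ⟨.ofNat (nat_lit 30000), .ofNat (nat_lit 306433), .ofNat (nat_lit 30000), .ofNat (nat_lit 328850), .ofNat (nat_lit 30000), .ofNat (nat_lit 306337), .ofNat (nat_lit 30000), .ofNat (nat_lit 329112)⟩⟩, [⟨nat_lit 7, nat_lit 77, nat_lit 100, nat_lit 86, nat_lit 291696907⟩]⟩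
noncomputable def p116_l74 : Lf2 := ⟨nat_lit 0, nat_lit 25, [nat_lit 44, nat_lit 5, nat_lit 5, nat_lit 20], false, nat_lit 20, nat_lit 160, nat_lit 160, nat_lit 364, ⟨nat_lit 804, nat_lit 0, nat_lit 196, nat_lit 6, nat_lit 278, nat_lit 196, nat_lit 78, nat_lit 196, nat_lit 58017, nat_lit 274, nat_lit 312118, nat_lit 200, nat_lit 42898642, nat_lit 0, nat_lit 0, nat_lit 4118755, true, true⟩,
 nat_lit 12464, nat_lit 0, nat_lit 0, nat_lit 0, nat_lit 4102, nat_lit 6598, nat_lit 428, nat_lit 0, nat_lit 0, nat_lit 747, nat_lit 0, nat_lit 0, nat_lit 0, nat_lit 0, nat_lit 0, nat_lit 39200, nat_lit 0, nat_lit 0, [(nat_lit 26, [(nat_lit 3, nat_lit 196)])],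
 ⟨p116_k29, nat_lit 0, nat_lit 0, nat_lit 220, nat_lit 0, nat_lit 111020, [nat_lit 979160000, nat_lit 2590708001, nat_lit 6014272000], [], [nat_lit 25437093436, nat_lit 26382628249, nat_lit 31581660003, nat_lit 32293462190, nat_lit 23503272496, nat_lit 24114603312, nat_lit 28764735179, nat_lit 29392693771], nat_lit 1271250, nat_lit 1271250, nat_lit 1271250, nat_lit 1271250, nat_lit 111251, nat_lit 1100001, [nat_lit 230000, nat_lit 780000, nat_lit 1762500], [nat_lit 54, nat_lit 40, nat_lit 40, nat_lit 80, nat_lit 43, nat_lit 249, nat_lit 40, nat_lit 7]⟩, ⟨p116_k25, nat_lit 0, nat_lit 0, nat_lit 235, nat_lit 0, nat_lit 221790, [nat_lit 3769152000, nat_lit 6406272000, nat_lit 11302632000], [], [nat_lit 19879650900, nat_lit 20541568328, nat_lit 24375324520, nat_lit 24788538632, nat_lit 25248128899, nat_lit 25544551149, nat_lit 27595380422, nat_lit 27808008681], nat_lit 1271250, nat_lit 1271250, nat_lit 1271250, nat_lit 1271250,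 nat_lit 1100001, nat_lit 2846750, [nat_lit 1100000, nat_lit 1785000, nat_lit 1271250], [nat_lit 37, nat_lit 40, nat_lit 40, nat_lit 80, nat_lit 28, nat_lit 483, nat_lit 250, nat_lit 10]⟩,
 ⟨nat_lit 2236, nat_lit 2739, ⟨.ofNat (nat_lit 603890), .ofNat (nat_lit 769266), .ofNat (nat_lit 626287), .ofNat (nat_lit 791684), .ofNat (nat_lit 602558), .ofNat (nat_lit 762206), .ofNat (nat_lit 625312), .ofNat (nat_lit 784980)⟩, ⟨.ofNat (nat_lit 50000), .ofNat (nat_lit 328850), .ofNat (nat_lit 50000), .ofNat (nat_lit 351268), .ofNat (nat_lit 50000), .ofNat (nat_lit 329112), .ofNat (nat_lit 50000), .ofNat (nat_lit 351886)⟩⟩, [⟨nat_lit 7, nat_lit 68, nat_lit 100, nat_lit 92, nat_lit 285990657⟩]⟩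
noncomputable def p116_l75 : Lf2 := ⟨nat_lit 0, nat_lit 30, [nat_lit 15, nat_lit 5, nat_lit 5, nat_lit 20], false, nat_lit 20, nat_lit 160, nat_lit 160, nat_lit 364, ⟨nat_lit 1000, nat_lit 0, nat_lit 0, nat_lit 0, nat_lit 0, nat_lit 0, nat_lit 0, nat_lit 0, nat_lit 0, nat_lit 0, nat_lit 0, nat_lit 0, nat_lit 0, nat_lit 0, nat_lit 0, nat_lit 0, false, false⟩,
 nat_lit 18767, nat_lit 0, nat_lit 0, nat_lit 2096, nat_lit 5886, nat_lit 9935, nat_lit 288, nat_lit 0, nat_lit 0, nat_lit 743, nat_lit 0, nat_lit 0, nat_lit 0, nat_lit 0, nat_lit 0, nat_lit 0, nat_lit 0, nat_lit 0, [],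
 ⟨p116_k8, nat_lit 0, nat_lit 0, nat_lit 190, nat_lit 0, nat_lit 53293, [nat_lit 938000000, nat_lit 4688000000, nat_lit 7968000000], [], [nat_lit 29698113525, nat_lit 30559612092, nat_lit 35963220021, nat_lit 36831877553, nat_lit 26419999868, nat_lit 27047623544, nat_lit 30979803253, nat_lit 31659489128], nat_lit 1271250, nat_lit 1271250, nat_lit 1271250, nat_lit 1271250, nat_lit 111251, nat_lit 1100001, [nat_lit 230000, nat_lit 1100000, nat_lit 1785000], [nat_lit 57, nat_lit 40, nat_lit 40, nat_lit 80, nat_lit 7, nat_lit 249, nat_lit 40, nat_lit 7]⟩, ⟨p116_k1, nat_lit 0, nat_lit 0, nat_lit 234, nat_lit 0, nat_lit 107236, [nat_lit 4688000000, nat_lit 9842000000, nat_lit 16400000000], [], [nat_lit 26716096945, nat_lit 27412804515, nat_lit 31775068645, nat_lit 32157449570, nat_lit 32120340639, nat_lit 32356104692, nat_lit 36093621682, nat_lit 36392982925], nat_lit 1271250, nat_lit 1271250, nat_lit 1271250, nat_lit 1271250, nat_lit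 1271250, nat_lit 1271250, [nat_lit 1100000, nat_lit 2127500, nat_lit 1271250], [nat_lit 83, nat_lit 40, nat_lit 40, nat_lit 80, nat_lit 73, nat_lit 483, nat_lit 250, nat_lit 10]⟩,
 zbF0, [⟨nat_lit 7, nat_lit 68, nat_lit 100, nat_lit 92, nat_lit 368587126⟩]⟩
noncomputable def p116_l76 : Lf2 := ⟨nat_lit 0, nat_lit 25, [nat_lit 44, nat_lit 5, nat_lit 5, nat_lit 20], false, nat_lit 8, nat_lit 160, nat_lit 0, nat_lit 336, ⟨nat_lit 1000, nat_lit 0, nat_lit 0, nat_lit 0, nat_lit 0, nat_lit 0, nat_lit 0, nat_lit 0, nat_lit 0, nat_lit 0, nat_lit 0, nat_lit 0, nat_lit 0, nat_lit 0, nat_lit 0, nat_lit 0, false, false⟩,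
 nat_lit 12710, nat_lit 0, nat_lit 0, nat_lit 0, nat_lit 5731, nat_lit 7398, nat_lit 502, nat_lit 0, nat_lit 0, nat_lit 892, nat_lit 0, nat_lit 0, nat_lit 0, nat_lit 0, nat_lit 0, nat_lit 0, nat_lit 0, nat_lit 0, [],
 ⟨p116_k22, nat_lit 0, nat_lit 0, nat_lit 257, nat_lit 0, nat_lit 168470, [nat_lit 938000000, nat_lit 3282000000, nat_lit 7968000000], [], [nat_lit 27991926806, nat_lit 29160653125, nat_lit 37431513959, nat_lit 38226672596, nat_lit 23937810500, nat_lit 24421377443, nat_lit 31671434486, nat_lit 32366855612], nat_lit 1271250, nat_lit 1271250, nat_lit 1271250, nat_lit 1271250, nat_lit 43600, nat_lit 1100001, [nat_lit 230000, nat_lit 780000, nat_lit 1762500], [nat_lit 54, nat_lit 40, nat_lit 40, nat_lit 80, nat_lit 43, nat_lit 249, nat_lit 40, nat_lit 7]⟩, ⟨p116_k30, nat_lit 0, nat_lit 0, nat_lit 424, nat_lit 0, nat_lit 283338, [nat_lit 4688000000, nat_lit 7968000000, nat_lit 14058000000], [], [nat_lit 32942454944,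 nat_lit 33589996648, nat_lit 38973316576, nat_lit 39489918741, nat_lit 30497407690, nat_lit 30775306380, nat_lit 33972103984, nat_lit 34175066338], nat_lit 1271250, nat_lit 1271250, nat_lit 1271250, nat_lit 1271250, nat_lit 0, nat_lit 2373000, [nat_lit 1100000, nat_lit 1785000, nat_lit 1271250], [nat_lit 37, nat_lit 40, nat_lit 40, nat_lit 80, nat_lit 28, nat_lit 483, nat_lit 250, nat_lit 11]⟩,
 zbF0, [⟨nat_lit 7, nat_lit 86, nat_lit 100, nat_lit 89, nat_lit 100735433⟩, ⟨nat_lit 22, nat_lit 91, nat_lit 100, nat_lit 88, nat_lit 25784720⟩]⟩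
noncomputable def p116_l77 : Lf2 := ⟨nat_lit 0, nat_lit 25, [nat_lit 44, nat_lit 5, nat_lit 5, nat_lit 20], false, nat_lit 12, nat_lit 160, nat_lit 0, nat_lit 336, ⟨nat_lit 1000, nat_lit 0, nat_lit 0, nat_lit 0, nat_lit 0, nat_lit 0, nat_lit 0, nat_lit 0, nat_lit 0, nat_lit 0, nat_lit 0, nat_lit 0, nat_lit 0, nat_lit 0, nat_lit 0, nat_lit 0, false, false⟩,
 nat_lit 12979, nat_lit 0, nat_lit 0, nat_lit 0, nat_lit 4739, nat_lit 7554, nat_lit 495, nat_lit 0, nat_lit 0, nat_lit 978, nat_lit 0, nat_lit 0, nat_lit 0, nat_lit 0, nat_lit 0, nat_lit 0, nat_lit 0, nat_lit 0, [],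
 ⟨p116_k29, nat_lit 0, nat_lit 0, nat_lit 265, nat_lit 0, nat_lit 211792, [nat_lit 938000000, nat_lit 3282000000, nat_lit 7968000000], [], [nat_lit 26988459221, nat_lit 28023005369, nat_lit 34662888241, nat_lit 35396571220, nat_lit 24242896922, nat_lit 24900733834, nat_lit 30511878440, nat_lit 31156486245], nat_lit 1271250, nat_lit 1271250, nat_lit 1271250, nat_lit 1271250, nat_lit 65850, nat_lit 1100001, [nat_lit 230000, nat_lit 780000, nat_lit 1762500], [nat_lit 54, nat_lit 40, nat_lit 40, nat_lit 80, nat_lit 43, nat_lit 249, nat_lit 40, nat_lit 7]⟩, ⟨p116_k30, nat_lit 0, nat_lit 0, nat_lit 453, nat_lit 0, nat_lit 372207, [nat_lit 4688000000, nat_lit 7968000000, nat_lit 14058000000], [], [nat_lit 31730894912, nat_lit 32381829304, nat_lit 37615472641, nat_lit 38158952892, nat_lit 29102963741, nat_lit 29378256482, nat_lit 33135691533, nat_lit 33753944395], nat_lit 1271250, nat_lit 1271250, nat_lit 1271250, nat_lit 1271250,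 nat_lit 0, nat_lit 2373000, [nat_lit 1100000, nat_lit 1785000, nat_lit 1271250], [nat_lit 37, nat_lit 40, nat_lit 40, nat_lit 80, nat_lit 28, nat_lit 483, nat_lit 250, nat_lit 11]⟩,
 zbF0, [⟨nat_lit 19, nat_lit 100, nat_lit 86, nat_lit 89, nat_lit 139192481⟩]⟩
noncomputable def p116_l78 : Lf2 := ⟨nat_lit 0, nat_lit 30, [nat_lit 15, nat_lit 5, nat_lit 5, nat_lit 20], false, nat_lit 16, nat_lit 160, nat_lit 0, nat_lit 352, ⟨nat_lit 1000, nat_lit 0, nat_lit 0, nat_lit 0, nat_lit 0, nat_lit 0, nat_lit 0, nat_lit 0, nat_lit 0, nat_lit 0, nat_lit 0, nat_lit 0, nat_lit 0, nat_lit 0, nat_lit 0, nat_lit 0, false, false⟩,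
 nat_lit 15837, nat_lit 0, nat_lit 0, nat_lit 0, nat_lit 6654, nat_lit 9218, nat_lit 507, nat_lit 0, nat_lit 0, nat_lit 534, nat_lit 0, nat_lit 0, nat_lit 0, nat_lit 0, nat_lit 0, nat_lit 0, nat_lit 0, nat_lit 0, [],
 ⟨p116_k6, nat_lit 0, nat_lit 0, nat_lit 253, nat_lit 0, nat_lit 109682, [nat_lit 938000000, nat_lit 4688000000, nat_lit 9842000000], [], [nat_lit 29146828042, nat_lit 30431187201, nat_lit 39340936851, nat_lit 40205734132, nat_lit 24571064752, nat_lit 25194850688, nat_lit 32859000991, nat_lit 33615812508], nat_lit 1271250, nat_lit 1271250, nat_lit 1271250, nat_lit 1271250, nat_lit 88400, nat_lit 1100001, [nat_lit 230000, nat_lit 1100000, nat_lit 2127500], [nat_lit 81, nat_lit 40, nat_lit 40, nat_lit 80, nat_lit 13, nat_lit 373, nat_lit 150, nat_lit 10]⟩, ⟨p116_k2, nat_lit 0, nat_lit 0, nat_lit 395, nat_lit 0, nat_lit 185462, [nat_lit 4688000000, nat_lit 9842000000, nat_lit 14058000000], [], [nat_lit 38028802588,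 nat_lit 38616219208, nat_lit 44009427744, nat_lit 44533596013, nat_lit 33806898689, nat_lit 33324893386, nat_lit 36836471107, nat_lit 37163591927], nat_lit 1271250, nat_lit 1271250, nat_lit 1271250, nat_lit 1271250, nat_lit 0, nat_lit 2486000, [nat_lit 1100000, nat_lit 2127500, nat_lit 1271250], [nat_lit 56, nat_lit 40, nat_lit 40, nat_lit 80, nat_lit 32, nat_lit 538, nat_lit 300, nat_lit 12]⟩,
 zbF0, [⟨nat_lit 19, nat_lit 100, nat_lit 78, nat_lit 95, nat_lit 39507457⟩, ⟨nat_lit 22, nat_lit 92, nat_lit 100, nat_lit 90, nat_lit 61650307⟩]⟩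
noncomputable def p116_l79 : Lf2 := ⟨nat_lit 0, nat_lit 30, [nat_lit 15, nat_lit 5, nat_lit 5, nat_lit 20], false, nat_lit 20, nat_lit 160, nat_lit 0, nat_lit 352, ⟨nat_lit 1000, nat_lit 0, nat_lit 0, nat_lit 0, nat_lit 0, nat_lit 0, nat_lit 0, nat_lit 0, nat_lit 0, nat_lit 0, nat_lit 0, nat_lit 0, nat_lit 0, nat_lit 0, nat_lit 0, nat_lit 0, false, false⟩,
 nat_lit 13562, nat_lit 0, nat_lit 0, nat_lit 0, nat_lit 5414, nat_lit 7894, nat_lit 451, nat_lit 0, nat_lit 0, nat_lit 809, nat_lit 0, nat_lit 0, nat_lit 0, nat_lit 0, nat_lit 0, nat_lit 0, nat_lit 0, nat_lit 0, [],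
 ⟨p116_k16, nat_lit 0, nat_lit 0, nat_lit 247, nat_lit 0, nat_lit 155930, [nat_lit 938000000, nat_lit 3282000000, nat_lit 7968000000], [], [nat_lit 27856690724, nat_lit 28974680393, nat_lit 36001824865, nat_lit 36787744628, nat_lit 24453481822, nat_lit 25160599134, nat_lit 31388317475, nat_lit 32079521475], nat_lit 1271250, nat_lit 1271250, nat_lit 1271250, nat_lit 1271250, nat_lit 111251, nat_lit 1100001, [nat_lit 230000, nat_lit 780000, nat_lit 1762500], [nat_lit 54, nat_lit 40, nat_lit 40, nat_lit 80, nat_lit 43, nat_lit 249, nat_lit 40, nat_lit 7]⟩, ⟨p116_k15, nat_lit 0, nat_lit 0, nat_lit 420, nat_lit 0, nat_lit 275626, [nat_lit 4688000000, nat_lit 7968000000, nat_lit 14058000000], [], [nat_lit 33688338432, nat_lit 34346667144, nat_lit 39886046009, nat_lit 40431929244, nat_lit 31474091516, nat_lit 31874557493, nat_lit 34941133796, nat_lit 35117810408], nat_lit 1271250, nat_lit 1271250, nat_lit 1271250, nat_lit 1271250,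 nat_lit 0, nat_lit 2486000, [nat_lit 1100000, nat_lit 1785000, nat_lit 1271250], [nat_lit 37, nat_lit 40, nat_lit 40, nat_lit 80, nat_lit 28, nat_lit 483, nat_lit 250, nat_lit 11]⟩,
 zbF0, [⟨nat_lit 7, nat_lit 78, nat_lit 100, nat_lit 95, nat_lit 124013640⟩]⟩
noncomputable def b_V_900_600_20_64 : St := ⟨true, nat_lit 1, nat_lit 1, nat_lit 1, nat_lit 120, nat_lit 360, nat_lit 380, nat_lit 240, nat_lit 280, nat_lit 240, nat_lit 376, nat_lit 80, nat_lit 120, nat_lit 8, nat_lit 160, nat_lit 0, nat_lit 364, nat_lit 80, nat_lit 120, nat_lit 0, nat_lit 0, nat_lit 0, nat_lit 0⟩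
theorem d_V_900_600_20_64 (h : EB TB.env) : Dead b_V_900_600_20_64 := chkB_sound0 h (T :=
(.spl (nat_lit 1) (nat_lit 260)
(.trX (nat_lit 13) (nat_lit 63) (nat_lit 61) (nat_lit 100) (nat_lit 364) (.spl (nat_lit 0) (nat_lit 370)
(.spl (nat_lit 3) (nat_lit 100)
(.trX (nat_lit 19) (nat_lit 100) (nat_lit 68) (nat_lit 88) (nat_lit 352) (.spl (nat_lit 6) (nat_lit 112)
(.spl (nat_lit 0) (nat_lit 365)
(.leaf p116_l67)
(.trX (nat_lit 13) (nat_lit 59) (nat_lit 65) (nat_lit 100) (nat_lit 360) (.leaf p116_l68)))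
(.leaf p116_l69)))
(.trZ (nat_lit 3) (nat_lit 100) (nat_lit 69) (nat_lit 45) (nat_lit 16) (.spl (nat_lit 6) (nat_lit 104)
(.leaf p116_l70)
(.leaf p116_l71))))
(.trX (nat_lit 13) (nat_lit 55) (nat_lit 68) (nat_lit 100) (nat_lit 352) (.trZ (nat_lit 3) (nat_lit 100) (nat_lit 66) (nat_lit 45) (nat_lit 12) (.spl (nat_lit 5) (nat_lit 160)
(.leaf p116_l72)
(.spl (nat_lit 3) (nat_lit 100)
(.trX (nat_lit 19) (nat_lit 100) (nat_lit 68) (nat_lit 88) (nat_lit 352) (.leaf p116_l73))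
(.trZ (nat_lit 3) (nat_lit 100) (nat_lit 61) (nat_lit 55) (nat_lit 20) (.spl (nat_lit 6) (nat_lit 100)
(.leaf p116_l74)
(.leaf p116_l75)))))))))
(.trX (nat_lit 19) (nat_lit 100) (nat_lit 69) (nat_lit 96) (nat_lit 352) (.spl (nat_lit 3) (nat_lit 100)
(.trX (nat_lit 19) (nat_lit 100) (nat_lit 77) (nat_lit 91) (nat_lit 336) (.spl (nat_lit 0) (nat_lit 370)
(.leaf p116_l76)
(.trX (nat_lit 13) (nat_lit 57) (nat_lit 62) (nat_lit 100) (nat_lit 368) (.trZ (nat_lit 3) (nat_lit 100) (nat_lit 66) (nat_lit 45) (nat_lit 12) (.leaf p116_l77)))))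
(.trZ (nat_lit 3) (nat_lit 100) (nat_lit 69) (nat_lit 45) (nat_lit 16) (.spl (nat_lit 0) (nat_lit 370)
(.leaf p116_l78)
(.trX (nat_lit 13) (nat_lit 57) (nat_lit 62) (nat_lit 100) (nat_lit 368) (.trZ (nat_lit 3) (nat_lit 100) (nat_lit 61) (nat_lit 55) (nat_lit 20) (.leaf p116_l79))))))))) (by decide +kernel)
noncomputable def p116_l80 : Lf2 := ⟨nat_lit 0, nat_lit 30, [nat_lit 15, nat_lit 5, nat_lit 5, nat_lit 20], false, nat_lit 160, nat_lit 248, nat_lit 0, nat_lit 160, ⟨nat_lit 1000, nat_lit 0, nat_lit 0, nat_lit 0, nat_lit 0, nat_lit 0, nat_lit 0, nat_lit 0, nat_lit 0, nat_lit 0, nat_lit 0, nat_lit 0, nat_lit 0, nat_lit 0, nat_lit 0, nat_lit 0, false, false⟩,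
 nat_lit 7640, nat_lit 0, nat_lit 5752, nat_lit 0, nat_lit 6654, nat_lit 7089, nat_lit 448, nat_lit 0, nat_lit 0, nat_lit 663, nat_lit 0, nat_lit 0, nat_lit 0, nat_lit 0, nat_lit 0, nat_lit 0, nat_lit 0, nat_lit 0, [],
 ⟨p116_k6, nat_lit 0, nat_lit 0, nat_lit 179, nat_lit 0, nat_lit 177700, [nat_lit 938000000, nat_lit 4688000000, nat_lit 9842000000], [], [nat_lit 25479664752, nat_lit 26096679854, nat_lit 32859000991, nat_lit 33615812508, nat_lit 26736424609, nat_lit 27357209665, nat_lit 33836599151, nat_lit 34479914130], nat_lit 1271250, nat_lit 1271250, nat_lit 1271250, nat_lit 1271250, nat_lit 1100001, nat_lit 1853500, [nat_lit 230000, nat_lit 1100000, nat_lit 2127500], [nat_lit 81, nat_lit 40, nat_lit 40, nat_lit 80, nat_lit 13, nat_lit 401, nat_lit 175, nat_lit 10]⟩, ⟨p116_k1, nat_lit 0, nat_lit 0, nat_lit 511, nat_lit 0, nat_lit 342046, [nat_lit 4688000000, nat_lit 9842000000, nat_lit 16400000000], [], [nat_lit 40768201393,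 nat_lit 41667313837, nat_lit 45032593713, nat_lit 45923202132, nat_lit 35439880236, nat_lit 36283751796, nat_lit 39433099792, nat_lit 40172708316], nat_lit 1271250, nat_lit 1271250, nat_lit 1271250, nat_lit 1271250, nat_lit 0, nat_lit 1100001, [nat_lit 1100000, nat_lit 2127500, nat_lit 1271250], [nat_lit 83, nat_lit 40, nat_lit 40, nat_lit 80, nat_lit 73, nat_lit 456, nat_lit 225, nat_lit 9]⟩,
 zbF0, [⟨nat_lit 4, nat_lit 100, nat_lit 57, nat_lit 87, nat_lit 537006595⟩, ⟨nat_lit 9, nat_lit 100, nat_lit 84, nat_lit 56, nat_lit 26079392⟩]⟩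
noncomputable def p116_l81 : Lf2 := ⟨nat_lit 0, nat_lit 30, [nat_lit 15, nat_lit 5, nat_lit 5, nat_lit 20], false, nat_lit 160, nat_lit 232, nat_lit 0, nat_lit 160, ⟨nat_lit 1000, nat_lit 0, nat_lit 0, nat_lit 0, nat_lit 0, nat_lit 0, nat_lit 0, nat_lit 0, nat_lit 0, nat_lit 0, nat_lit 0, nat_lit 0, nat_lit 0, nat_lit 0, nat_lit 0, nat_lit 0, false, false⟩,
 nat_lit 4518, nat_lit 0, nat_lit 11475, nat_lit 0, nat_lit 4076, nat_lit 8466, nat_lit 581, nat_lit 0, nat_lit 0, nat_lit 1129, nat_lit 0, nat_lit 0, nat_lit 0, nat_lit 0, nat_lit 0, nat_lit 0, nat_lit 0, nat_lit 0, [],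
 ⟨p116_k16, nat_lit 0, nat_lit 0, nat_lit 166, nat_lit 0, nat_lit 222534, [nat_lit 938000000, nat_lit 3282000000, nat_lit 7968000000], [], [nat_lit 23538695848, nat_lit 24091318040, nat_lit 29651020544, nat_lit 30249860530, nat_lit 25054102668, nat_lit 25775255624, nat_lit 30675992830, nat_lit 31209966176], nat_lit 1271250, nat_lit 1271250, nat_lit 1271250, nat_lit 1271250, nat_lit 1100001, nat_lit 1716500, [nat_lit 230000, nat_lit 780000, nat_lit 1762500], [nat_lit 54, nat_lit 40, nat_lit 40, nat_lit 80, nat_lit 43, nat_lit 272, nat_lit 60, nat_lit 7]⟩, ⟨p116_k4, nat_lit 0, nat_lit 0, nat_lit 605, nat_lit 0, nat_lit 447782, [nat_lit 4688000000, nat_lit 7968000000, nat_lit 16400000000], [], [nat_lit 34718618793, nat_lit 35376500625, nat_lit 39474802567, nat_lit 40293565391, nat_lit 28626304920, nat_lit 29774260504, nat_lit 33297740668, nat_lit 33935021716], nat_lit 1271250, nat_lit 1271250, nat_lit 1271250, nat_lit 1271250,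 nat_lit 0, nat_lit 1100001, [nat_lit 1100000, nat_lit 1785000, nat_lit 1271250], [nat_lit 122, nat_lit 40, nat_lit 40, nat_lit 80, nat_lit 111, nat_lit 456, nat_lit 225, nat_lit 9]⟩,
 zbF0, [⟨nat_lit 16, nat_lit 48, nat_lit 100, nat_lit 87, nat_lit 731831183⟩, ⟨nat_lit 9, nat_lit 100, nat_lit 85, nat_lit 50, nat_lit 33824039⟩]⟩
noncomputable def p116_l82 : Lf2 := ⟨nat_lit 0, nat_lit 25, [nat_lit 44, nat_lit 5, nat_lit 5, nat_lit 20], false, nat_lit 160, nat_lit 224, nat_lit 160, nat_lit 352, ⟨nat_lit 1000, nat_lit 0, nat_lit 0, nat_lit 0, nat_lit 0, nat_lit 0, nat_lit 0, nat_lit 0, nat_lit 0, nat_lit 0, nat_lit 0, nat_lit 0, nat_lit 0, nat_lit 0, nat_lit 0, nat_lit 0, false, false⟩,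
 nat_lit 13367, nat_lit 0, nat_lit 0, nat_lit 0, nat_lit 9074, nat_lit 7076, nat_lit 0, nat_lit 0, nat_lit 0, nat_lit 572, nat_lit 0, nat_lit 0, nat_lit 0, nat_lit 0, nat_lit 0, nat_lit 0, nat_lit 0, nat_lit 0, [],
 ⟨p116_k7, nat_lit 0, nat_lit 0, nat_lit 142, nat_lit 0, nat_lit 125268, [nat_lit 938000000, nat_lit 4688000000, nat_lit 7968000000], [], [nat_lit 27386465160, nat_lit 28360791752, nat_lit 34808726654, nat_lit 35765630003, nat_lit 28365051529, nat_lit 29226544453, nat_lit 35221710460, nat_lit 36068031681], nat_lit 1271250, nat_lit 1271250, nat_lit 1271250, nat_lit 1271250, nat_lit 1100001, nat_lit 1648000, [nat_lit 230000, nat_lit 1100000, nat_lit 1785000], [nat_lit 57, nat_lit 40, nat_lit 40, nat_lit 80, nat_lit 7, nat_lit 272, nat_lit 60, nat_lit 7]⟩, ⟨p116_k23, nat_lit 0, nat_lit 0, nat_lit 255, nat_lit 0, nat_lit 239490, [nat_lit 4688000000, nat_lit 9842000000, nat_lit 14058000000], [], [nat_lit 28159465840,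 nat_lit 28940310728, nat_lit 34073163682, nat_lit 34549755792, nat_lit 33999228951, nat_lit 34404087261, nat_lit 37451126487, nat_lit 37662717281], nat_lit 1271250, nat_lit 1271250, nat_lit 1271250, nat_lit 1271250, nat_lit 1271250, nat_lit 1271250, [nat_lit 1100000, nat_lit 2127500, nat_lit 1271250], [nat_lit 56, nat_lit 40, nat_lit 40, nat_lit 80, nat_lit 32, nat_lit 483, nat_lit 250, nat_lit 10]⟩,
 zbF0, [⟨nat_lit 4, nat_lit 100, nat_lit 57, nat_lit 84, nat_lit 561268100⟩, ⟨nat_lit 7, nat_lit 77, nat_lit 100, nat_lit 86, nat_lit 364238319⟩]⟩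
noncomputable def p116_l83 : Lf2 := ⟨nat_lit 0, nat_lit 26, [nat_lit 108, nat_lit 5, nat_lit 5, nat_lit 20], false, nat_lit 160, nat_lit 248, nat_lit 160, nat_lit 364, ⟨nat_lit 1000, nat_lit 0, nat_lit 0, nat_lit 0, nat_lit 0, nat_lit 0, nat_lit 0, nat_lit 0, nat_lit 0, nat_lit 0, nat_lit 0, nat_lit 0, nat_lit 0, nat_lit 0, nat_lit 0, nat_lit 0, false, false⟩,
 nat_lit 18356, nat_lit 0, nat_lit 0, nat_lit 284, nat_lit 8731, nat_lit 9717, nat_lit 0, nat_lit 0, nat_lit 0, nat_lit 709, nat_lit 0, nat_lit 0, nat_lit 0, nat_lit 0, nat_lit 0, nat_lit 0, nat_lit 0, nat_lit 0, [],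
 ⟨p116_k31, nat_lit 0, nat_lit 0, nat_lit 125, nat_lit 0, nat_lit 62897, [nat_lit 938000000, nat_lit 4688000000, nat_lit 7968000000], [], [nat_lit 27595578540, nat_lit 28544863388, nat_lit 34396860349, nat_lit 35329653816, nat_lit 29151607532, nat_lit 29949731861, nat_lit 35234731292, nat_lit 36018885813], nat_lit 1271250, nat_lit 1271250, nat_lit 1271250, nat_lit 1271250, nat_lit 1100001, nat_lit 1853500, [nat_lit 230000, nat_lit 1100000, nat_lit 1785000], [nat_lit 57, nat_lit 40, nat_lit 40, nat_lit 80, nat_lit 7, nat_lit 289, nat_lit 75, nat_lit 8]⟩, ⟨p116_k32, nat_lit 0, nat_lit 0, nat_lit 206, nat_lit 0, nat_lit 120417, [nat_lit 4688000000, nat_lit 9842000000, nat_lit 14058000000], [], [nat_lit 24984128780, nat_lit 25864111526, nat_lit 31877034418, nat_lit 32359649064, nat_lit 31980016927, nat_lit 32481525588, nat_lit 36800847032, nat_lit 37071627385], nat_lit 1271250, nat_lit 1271250, nat_lit 1271250, nat_lit 1271250,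 nat_lit 1271250, nat_lit 1271250, [nat_lit 1100000, nat_lit 2127500, nat_lit 1271250], [nat_lit 56, nat_lit 40, nat_lit 40, nat_lit 80, nat_lit 32, nat_lit 483, nat_lit 250, nat_lit 10]⟩,
 zbF0, [⟨nat_lit 4, nat_lit 100, nat_lit 57, nat_lit 90, nat_lit 479747315⟩, ⟨nat_lit 19, nat_lit 100, nat_lit 59, nat_lit 94, nat_lit 373198217⟩]⟩
noncomputable def p116_l84 : Lf2 := ⟨nat_lit 1, nat_lit 30, [nat_lit 15, nat_lit 5, nat_lit 5, nat_lit 20], false, nat_lit 160, nat_lit 248, nat_lit 160, nat_lit 364, zbN0,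
 nat_lit 0, nat_lit 0, nat_lit 0, nat_lit 0, nat_lit 0, nat_lit 0, nat_lit 0, nat_lit 0, nat_lit 0, nat_lit 0, nat_lit 0, nat_lit 0, nat_lit 0, nat_lit 0, nat_lit 0, nat_lit 0, nat_lit 0, nat_lit 0, [],
 C1.Rw.none, C1.Rw.none,
 zbF0, []⟩
noncomputable def p116_l85 : Lf2 := ⟨nat_lit 0, nat_lit 25, [nat_lit 44, nat_lit 5, nat_lit 5, nat_lit 20], false, nat_lit 160, nat_lit 208, nat_lit 160, nat_lit 352, ⟨nat_lit 800, nat_lit 200, nat_lit 0, nat_lit 6, nat_lit 278, nat_lit 200, nat_lit 141, nat_lit 0, nat_lit 0, nat_lit 0, nat_lit 0, nat_lit 0, nat_lit 39939791, nat_lit 20214447, nat_lit 6845762, nat_lit 4830393, true, true⟩,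
 nat_lit 9693, nat_lit 0, nat_lit 0, nat_lit 0, nat_lit 5260, nat_lit 5131, nat_lit 356, nat_lit 0, nat_lit 0, nat_lit 463, nat_lit 0, nat_lit 0, nat_lit 0, nat_lit 0, nat_lit 0, nat_lit 50000, nat_lit 0, nat_lit 0, [(nat_lit 26, [(nat_lit 0, nat_lit 200)])],
 ⟨p116_k33, nat_lit 0, nat_lit 0, nat_lit 155, nat_lit 0, nat_lit 173702, [nat_lit 903520001, nat_lit 4093440001, nat_lit 6876960000], [], [nat_lit 24661842480, nat_lit 25357716560, nat_lit 30150304644, nat_lit 30864077752, nat_lit 25494975024, nat_lit 26136810608, nat_lit 30799694093, nat_lit 31458028365], nat_lit 1271250, nat_lit 1271250, nat_lit 1271250, nat_lit 1271250, nat_lit 1100001, nat_lit 1511000, [nat_lit 230000, nat_lit 1100000, nat_lit 1785000], [nat_lit 57, nat_lit 40, nat_lit 40, nat_lit 80, nat_lit 7, nat_lit 272, nat_lit 60, nat_lit 7]⟩, ⟨p116_k23, nat_lit 0, nat_lit 0, nat_lit 296, nat_lit 0, nat_lit 347011, [nat_lit 3750400000, nat_lit 7873600000, nat_lit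 11246400000], [], [nat_lit 23278962232, nat_lit 23787751780, nat_lit 26802634224, nat_lit 27205388284, nat_lit 27370497963, nat_lit 27697229425, nat_lit 29749658460, nat_lit 29966878396], nat_lit 1271250, nat_lit 1271250, nat_lit 1271250, nat_lit 1271250, nat_lit 1271250, nat_lit 1271250, [nat_lit 1100000, nat_lit 2127500, nat_lit 1271250], [nat_lit 56, nat_lit 40, nat_lit 40, nat_lit 80, nat_lit 32, nat_lit 483, nat_lit 250, nat_lit 10]⟩,
 ⟨nat_lit 2236, nat_lit 2739, ⟨.ofNat (nat_lit 603890), .ofNat (nat_lit 769266), .ofNat (nat_lit 626287), .ofNat (nat_lit 791684), .ofNat (nat_lit 602558), .ofNat (nat_lit 762206), .ofNat (nat_lit 625312), .ofNat (nat_lit 784980)⟩, ⟨.ofNat (nat_lit 306433), .ofNat (nat_lit 377306), .ofNat (nat_lit 328850), .ofNat (nat_lit 399724), .ofNat (nat_lit 306337), .ofNat (nat_lit 374756), .ofNat (nat_lit 329112), .ofNat (nat_lit 397530)⟩⟩, [⟨nat_lit 4, nat_lit 100, nat_lit 49, nat_lit 84, nat_lit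 588200731⟩, ⟨nat_lit 19, nat_lit 100, nat_lit 68, nat_lit 88, nat_lit 292978321⟩]⟩
noncomputable def p116_l86 : Lf2 := ⟨nat_lit 0, nat_lit 25, [nat_lit 44, nat_lit 5, nat_lit 5, nat_lit 20], false, nat_lit 160, nat_lit 232, nat_lit 160, nat_lit 364, ⟨nat_lit 1000, nat_lit 0, nat_lit 0, nat_lit 0, nat_lit 0, nat_lit 0, nat_lit 0, nat_lit 0, nat_lit 0, nat_lit 0, nat_lit 0, nat_lit 0, nat_lit 0, nat_lit 0, nat_lit 0, nat_lit 0, false, false⟩,
 nat_lit 18767, nat_lit 0, nat_lit 0, nat_lit 0, nat_lit 7188, nat_lit 9935, nat_lit 249, nat_lit 0, nat_lit 0, nat_lit 636, nat_lit 0, nat_lit 0, nat_lit 0, nat_lit 0, nat_lit 0, nat_lit 0, nat_lit 0, nat_lit 0, [],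
 ⟨p116_k33, nat_lit 0, nat_lit 0, nat_lit 125, nat_lit 0, nat_lit 74322, [nat_lit 938000000, nat_lit 4688000000, nat_lit 7968000000], [], [nat_lit 26117242424, nat_lit 26368232476, nat_lit 32457194048, nat_lit 32714188775, nat_lit 27227559565, nat_lit 27447274488, nat_lit 33183074866, nat_lit 33408021158], nat_lit 1271250, nat_lit 1271250, nat_lit 1271250, nat_lit 1271250, nat_lit 1100001, nat_lit 1716500, [nat_lit 230000, nat_lit 1100000, nat_lit 1785000], [nat_lit 57, nat_lit 40, nat_lit 40, nat_lit 80, nat_lit 7, nat_lit 272, nat_lit 60, nat_lit 7]⟩, ⟨p116_k23, nat_lit 0, nat_lit 0, nat_lit 213, nat_lit 0, nat_lit 148475, [nat_lit 4688000000, nat_lit 9842000000, nat_lit 14058000000], [], [nat_lit 25685247900, nat_lit 26573413930, nat_lit 31830750532, nat_lit 32354827633, nat_lit 32727127464, nat_lit 33081201089, nat_lit 36093621682, nat_lit 36392982925], nat_lit 1271250, nat_lit 1271250, nat_lit 1271250, nat_lit 1271250,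 nat_lit 1271250, nat_lit 1271250, [nat_lit 1100000, nat_lit 2127500, nat_lit 1271250], [nat_lit 56, nat_lit 40, nat_lit 40, nat_lit 80, nat_lit 32, nat_lit 483, nat_lit 250, nat_lit 10]⟩,
 zbF0, [⟨nat_lit 4, nat_lit 100, nat_lit 52, nat_lit 90, nat_lit 593976597⟩, ⟨nat_lit 7, nat_lit 68, nat_lit 100, nat_lit 92, nat_lit 363149443⟩]⟩
noncomputable def p116_l87 : Lf2 := ⟨nat_lit 0, nat_lit 25, [nat_lit 44, nat_lit 5, nat_lit 5, nat_lit 20], false, nat_lit 160, nat_lit 224, nat_lit 160, nat_lit 364, ⟨nat_lit 1000, nat_lit 0, nat_lit 0, nat_lit 0, nat_lit 0, nat_lit 0, nat_lit 0, nat_lit 0, nat_lit 0, nat_lit 0, nat_lit 0, nat_lit 0, nat_lit 0, nat_lit 0, nat_lit 0, nat_lit 0, false, false⟩,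
 nat_lit 18904, nat_lit 0, nat_lit 0, nat_lit 0, nat_lit 5828, nat_lit 10008, nat_lit 369, nat_lit 0, nat_lit 0, nat_lit 701, nat_lit 0, nat_lit 0, nat_lit 0, nat_lit 0, nat_lit 0, nat_lit 0, nat_lit 0, nat_lit 0, [],
 ⟨p116_k34, nat_lit 0, nat_lit 0, nat_lit 128, nat_lit 0, nat_lit 83637, [nat_lit 938000000, nat_lit 4688000000, nat_lit 7968000000], [], [nat_lit 25296341932, nat_lit 25443810456, nat_lit 30797565654, nat_lit 30950555892, nat_lit 26347247738, nat_lit 26483077132, nat_lit 31603154820, nat_lit 31739893311], nat_lit 1271250, nat_lit 1271250, nat_lit 1271250, nat_lit 1271250, nat_lit 1100001, nat_lit 1648000, [nat_lit 230000, nat_lit 1100000, nat_lit 1785000], [nat_lit 57, nat_lit 40, nat_lit 40, nat_lit 80, nat_lit 7, nat_lit 272, nat_lit 60, nat_lit 7]⟩, ⟨p116_k23, nat_lit 0, nat_lit 0, nat_lit 220, nat_lit 0, nat_lit 169266, [nat_lit 4688000000, nat_lit 9842000000, nat_lit 14058000000], [], [nat_lit 24898117720,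 nat_lit 25789024024, nat_lit 30800936943, nat_lit 31339099303, nat_lit 31955398079, nat_lit 32310658216, nat_lit 35865170245, nat_lit 36174227606], nat_lit 1271250, nat_lit 1271250, nat_lit 1271250, nat_lit 1271250, nat_lit 1271250, nat_lit 1271250, [nat_lit 1100000, nat_lit 2127500, nat_lit 1271250], [nat_lit 56, nat_lit 40, nat_lit 40, nat_lit 80, nat_lit 32, nat_lit 483, nat_lit 250, nat_lit 10]⟩,
 zbF0, [⟨nat_lit 4, nat_lit 100, nat_lit 49, nat_lit 89, nat_lit 636593938⟩, ⟨nat_lit 7, nat_lit 68, nat_lit 100, nat_lit 92, nat_lit 384444491⟩]⟩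
noncomputable def p116_l88 : Lf2 := ⟨nat_lit 0, nat_lit 25, [nat_lit 44, nat_lit 5, nat_lit 5, nat_lit 20], false, nat_lit 160, nat_lit 220, nat_lit 160, nat_lit 364, ⟨nat_lit 850, nat_lit 150, nat_lit 0, nat_lit 6, nat_lit 277, nat_lit 150, nat_lit 153, nat_lit 0, nat_lit 0, nat_lit 0, nat_lit 0, nat_lit 0, nat_lit 39423658, nat_lit 19841533, nat_lit 7734809, nat_lit 4942697, true, true⟩,
 nat_lit 12181, nat_lit 0, nat_lit 0, nat_lit 0, nat_lit 6728, nat_lit 6448, nat_lit 0, nat_lit 0, nat_lit 0, nat_lit 564, nat_lit 0, nat_lit 0, nat_lit 0, nat_lit 0, nat_lit 0, nat_lit 37500, nat_lit 0, nat_lit 0, [(nat_lit 26, [(nat_lit 0, nat_lit 150)])],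
 ⟨p116_k35, nat_lit 0, nat_lit 0, nat_lit 120, nat_lit 0, nat_lit 108652, [nat_lit 912140000, nat_lit 4242080001, nat_lit 5626000000], [], [nat_lit 26634398388, nat_lit 27069136496, nat_lit 32040111372, nat_lit 32456509407, nat_lit 27715623702, nat_lit 28105443008, nat_lit 32682205575, nat_lit 33055840216], nat_lit 1271250, nat_lit 1271250, nat_lit 1271250, nat_lit 1271250, nat_lit 1100001, nat_lit 1613750, [nat_lit 230000, nat_lit 1100000, nat_lit 1442500], [nat_lit 55, nat_lit 40, nat_lit 40, nat_lit 80, nat_lit 3, nat_lit 272, nat_lit 60, nat_lit 9]⟩, ⟨p116_k23, nat_lit 0, nat_lit 0, nat_lit 242, nat_lit 0, nat_lit 221790, [nat_lit 3984800000, nat_lit 8365700000, nat_lit 11949300000], [], [nat_lit 22782454320, nat_lit 23462441444, nat_lit 27172528535, nat_lit 27615462295, nat_lit 28346798001, nat_lit 28672931462, nat_lit 31401276429, nat_lit 31688942995], nat_lit 1271250, nat_lit 1271250, nat_lit 1271250, nat_lit 1271250,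 nat_lit 1271250, nat_lit 1271250, [nat_lit 1100000, nat_lit 2127500, nat_lit 1271250], [nat_lit 56, nat_lit 40, nat_lit 40, nat_lit 80, nat_lit 32, nat_lit 483, nat_lit 250, nat_lit 10]⟩,
 ⟨nat_lit 2236, nat_lit 2500, ⟨.ofNat (nat_lit 603223), .ofNat (nat_lit 759999), .ofNat (nat_lit 625799), .ofNat (nat_lit 782579), .ofNat (nat_lit 602562), .ofNat (nat_lit 756505), .ofNat (nat_lit 625331), .ofNat (nat_lit 779279)⟩, ⟨.ofNat (nat_lit 329031), .ofNat (nat_lit 416128), .ofNat (nat_lit 351611), .ofNat (nat_lit 438708), .ofNat (nat_lit 329112), .ofNat (nat_lit 414635), .ofNat (nat_lit 351886), .ofNat (nat_lit 437409)⟩⟩, [⟨nat_lit 4, nat_lit 100, nat_lit 46, nat_lit 89, nat_lit 542319334⟩, ⟨nat_lit 19, nat_lit 100, nat_lit 68, nat_lit 92, nat_lit 325807907⟩]⟩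
noncomputable def p116_l89 : Lf2 := ⟨nat_lit 0, nat_lit 28, [nat_lit 157, nat_lit 5, nat_lit 5, nat_lit 20], false, nat_lit 160, nat_lit 232, nat_lit 160, nat_lit 364, ⟨nat_lit 1000, nat_lit 0, nat_lit 0, nat_lit 0, nat_lit 0, nat_lit 0, nat_lit 0, nat_lit 0, nat_lit 0, nat_lit 0, nat_lit 0, nat_lit 0, nat_lit 0, nat_lit 0, nat_lit 0, nat_lit 0, false, false⟩,
 nat_lit 10843, nat_lit 0, nat_lit 0, nat_lit 22904, nat_lit 8473, nat_lit 5740, nat_lit 0, nat_lit 0, nat_lit 0, nat_lit 0, nat_lit 0, nat_lit 0, nat_lit 0, nat_lit 0, nat_lit 0, nat_lit 0, nat_lit 0, nat_lit 0, [],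
 ⟨p116_k36, nat_lit 0, nat_lit 0, nat_lit 86, nat_lit 0, nat_lit 22631, [nat_lit 938000000, nat_lit 4688000000, nat_lit 7968000000], [], [nat_lit 28683319604, nat_lit 29148543996, nat_lit 34123859429, nat_lit 34470834700, nat_lit 29700739726, nat_lit 30106110015, nat_lit 34555176304, nat_lit 34969811858], nat_lit 1271250, nat_lit 1271250, nat_lit 1271250, nat_lit 1271250, nat_lit 1100001, nat_lit 1716500, [nat_lit 230000, nat_lit 1100000, nat_lit 1785000], [nat_lit 57, nat_lit 40, nat_lit 40, nat_lit 80, nat_lit 7, nat_lit 272, nat_lit 60, nat_lit 7]⟩, ⟨p116_k37, nat_lit 0, nat_lit 0, nat_lit 116, nat_lit 0, nat_lit 45410, [nat_lit 4688000000, nat_lit 9842000000, nat_lit 14058000000], [], [nat_lit 15615729760, nat_lit 16910614280, nat_lit 23661728768, nat_lit 24560680425, nat_lit 26521424153, nat_lit 27240050166, nat_lit 31450103885, nat_lit 32010886308], nat_lit 1271250, nat_lit 1271250, nat_lit 1271250, nat_lit 1271250, nat_lit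 1271250, nat_lit 1271250, [nat_lit 1100000, nat_lit 2127500, nat_lit 1271250], [nat_lit 56, nat_lit 40, nat_lit 40, nat_lit 80, nat_lit 32, nat_lit 483, nat_lit 250, nat_lit 10]⟩,
 zbF0, [⟨nat_lit 4, nat_lit 100, nat_lit 51, nat_lit 89, nat_lit 523710636⟩, ⟨nat_lit 19, nat_lit 100, nat_lit 68, nat_lit 92, nat_lit 454187382⟩]⟩
noncomputable def p116_l90 : Lf2 := ⟨nat_lit 0, nat_lit 28, [nat_lit 157, nat_lit 5, nat_lit 5, nat_lit 20], false, nat_lit 160, nat_lit 220, nat_lit 160, nat_lit 364, ⟨nat_lit 1000, nat_lit 0, nat_lit 0, nat_lit 0, nat_lit 0, nat_lit 0, nat_lit 0, nat_lit 0, nat_lit 0, nat_lit 0, nat_lit 0, nat_lit 0, nat_lit 0, nat_lit 0, nat_lit 0, nat_lit 0, false, false⟩,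
 nat_lit 22699, nat_lit 0, nat_lit 0, nat_lit 0, nat_lit 9347, nat_lit 12017, nat_lit 0, nat_lit 0, nat_lit 0, nat_lit 351, nat_lit 0, nat_lit 0, nat_lit 0, nat_lit 0, nat_lit 0, nat_lit 0, nat_lit 0, nat_lit 0, [],
 ⟨p116_k38, nat_lit 0, nat_lit 0, nat_lit 117, nat_lit 0, nat_lit 47681, [nat_lit 938000000, nat_lit 4688000000, nat_lit 7968000000], [], [nat_lit 28711414644, nat_lit 29208543532, nat_lit 35210717819, nat_lit 35725830154, nat_lit 29452351927, nat_lit 29895221689, nat_lit 35567895006, nat_lit 36026644462], nat_lit 1271250, nat_lit 1271250, nat_lit 1271250, nat_lit 1271250, nat_lit 1100001, nat_lit 1613750, [nat_lit 230000, nat_lit 1100000, nat_lit 1785000], [nat_lit 57, nat_lit 40, nat_lit 40, nat_lit 80, nat_lit 7, nat_lit 272, nat_lit 60, nat_lit 7]⟩, ⟨p116_k37, nat_lit 0, nat_lit 0, nat_lit 190, nat_lit 0, nat_lit 97771, [nat_lit 4688000000, nat_lit 9842000000, nat_lit 14058000000], [], [nat_lit 27672060780,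 nat_lit 28638380926, nat_lit 34187027928, nat_lit 34739343693, nat_lit 35153179467, nat_lit 35489654571, nat_lit 38099446054, nat_lit 38236323480], nat_lit 1271250, nat_lit 1271250, nat_lit 1271250, nat_lit 1271250, nat_lit 1271250, nat_lit 1271250, [nat_lit 1100000, nat_lit 2127500, nat_lit 1271250], [nat_lit 56, nat_lit 40, nat_lit 40, nat_lit 80, nat_lit 32, nat_lit 483, nat_lit 250, nat_lit 10]⟩,
 zbF0, [⟨nat_lit 4, nat_lit 100, nat_lit 46, nat_lit 89, nat_lit 628594970⟩, ⟨nat_lit 7, nat_lit 68, nat_lit 100, nat_lit 92, nat_lit 348748508⟩]⟩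
noncomputable def p116_l91 : Lf2 := ⟨nat_lit 0, nat_lit 30, [nat_lit 15, nat_lit 5, nat_lit 5, nat_lit 20], false, nat_lit 160, nat_lit 232, nat_lit 160, nat_lit 364, ⟨nat_lit 1000, nat_lit 0, nat_lit 0, nat_lit 0, nat_lit 0, nat_lit 0, nat_lit 0, nat_lit 0, nat_lit 0, nat_lit 0, nat_lit 0, nat_lit 0, nat_lit 0, nat_lit 0, nat_lit 0, nat_lit 0, false, false⟩,
 nat_lit 18767, nat_lit 0, nat_lit 0, nat_lit 16109, nat_lit 8595, nat_lit 9935, nat_lit 0, nat_lit 0, nat_lit 0, nat_lit 743, nat_lit 0, nat_lit 0, nat_lit 0, nat_lit 0, nat_lit 0, nat_lit 0, nat_lit 0, nat_lit 0, [],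
 ⟨p116_k8, nat_lit 0, nat_lit 0, nat_lit 89, nat_lit 0, nat_lit 17812, [nat_lit 938000000, nat_lit 4688000000, nat_lit 7968000000], [], [nat_lit 28617848060, nat_lit 29557203820, nat_lit 34140696843, nat_lit 35101612794, nat_lit 29626448388, nat_lit 30444628354, nat_lit 34685445856, nat_lit 35522260092], nat_lit 1271250, nat_lit 1271250, nat_lit 1271250, nat_lit 1271250, nat_lit 1100001, nat_lit 1716500, [nat_lit 230000, nat_lit 1100000, nat_lit 1785000], [nat_lit 57, nat_lit 40, nat_lit 40, nat_lit 80, nat_lit 7, nat_lit 272, nat_lit 60, nat_lit 7]⟩, ⟨p116_k1, nat_lit 0, nat_lit 0, nat_lit 206, nat_lit 0, nat_lit 36647, [nat_lit 4688000000, nat_lit 9842000000, nat_lit 16400000000], [], [nat_lit 26716096945, nat_lit 27412804515, nat_lit 31775068645, nat_lit 32157449570, nat_lit 32120340639, nat_lit 32356104692, nat_lit 36093621682, nat_lit 36392982925], nat_lit 1271250, nat_lit 1271250, nat_lit 1271250, nat_lit 1271250, nat_lit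 1271250, nat_lit 1271250, [nat_lit 1100000, nat_lit 2127500, nat_lit 1271250], [nat_lit 83, nat_lit 40, nat_lit 40, nat_lit 80, nat_lit 73, nat_lit 483, nat_lit 250, nat_lit 10]⟩,
 zbF0, [⟨nat_lit 16, nat_lit 48, nat_lit 100, nat_lit 89, nat_lit 619560141⟩, ⟨nat_lit 7, nat_lit 68, nat_lit 100, nat_lit 92, nat_lit 368587126⟩]⟩
noncomputable def p116_l92 : Lf2 := ⟨nat_lit 0, nat_lit 30, [nat_lit 15, nat_lit 5, nat_lit 5, nat_lit 20], false, nat_lit 160, nat_lit 248, nat_lit 160, nat_lit 352, ⟨nat_lit 1000, nat_lit 0, nat_lit 0, nat_lit 0, nat_lit 0, nat_lit 0, nat_lit 0, nat_lit 0, nat_lit 0, nat_lit 0, nat_lit 0, nat_lit 0, nat_lit 0, nat_lit 0, nat_lit 0, nat_lit 0, false, false⟩,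
 nat_lit 15946, nat_lit 0, nat_lit 0, nat_lit 1573, nat_lit 11851, nat_lit 9281, nat_lit 0, nat_lit 0, nat_lit 0, nat_lit 730, nat_lit 0, nat_lit 0, nat_lit 0, nat_lit 0, nat_lit 0, nat_lit 0, nat_lit 0, nat_lit 0, [],
 ⟨p116_k6, nat_lit 0, nat_lit 0, nat_lit 158, nat_lit 0, nat_lit 150658, [nat_lit 938000000, nat_lit 4688000000, nat_lit 9842000000], [], [nat_lit 29487617016, nat_lit 30020184541, nat_lit 33468498844, nat_lit 34136720132, nat_lit 30392447153, nat_lit 30835618126, nat_lit 34722525514, nat_lit 35277749447], nat_lit 1271250, nat_lit 1271250, nat_lit 1271250, nat_lit 1271250, nat_lit 1100001, nat_lit 1853500, [nat_lit 230000, nat_lit 1100000, nat_lit 2127500], [nat_lit 81, nat_lit 40, nat_lit 40, nat_lit 80, nat_lit 13, nat_lit 373, nat_lit 150, nat_lit 9]⟩, ⟨p116_k2, nat_lit 0, nat_lit 0, nat_lit 248, nat_lit 0, nat_lit 254747, [nat_lit 4688000000, nat_lit 9842000000, nat_lit 14058000000], [], [nat_lit 24568756718,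 nat_lit 25432372896, nat_lit 28226552672, nat_lit 28849165212, nat_lit 30313280025, nat_lit 30710112703, nat_lit 32767947270, nat_lit 33189949808], nat_lit 1271250, nat_lit 1271250, nat_lit 1271250, nat_lit 1271250, nat_lit 1100001, nat_lit 2744000, [nat_lit 1100000, nat_lit 2127500, nat_lit 1271250], [nat_lit 56, nat_lit 40, nat_lit 40, nat_lit 80, nat_lit 32, nat_lit 483, nat_lit 250, nat_lit 10]⟩,
 zbF0, [⟨nat_lit 4, nat_lit 100, nat_lit 59, nat_lit 87, nat_lit 493428698⟩, ⟨nat_lit 7, nat_lit 82, nat_lit 100, nat_lit 92, nat_lit 375262969⟩]⟩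
noncomputable def p116_l93 : Lf2 := ⟨nat_lit 0, nat_lit 30, [nat_lit 15, nat_lit 5, nat_lit 5, nat_lit 20], false, nat_lit 160, nat_lit 240, nat_lit 160, nat_lit 352, ⟨nat_lit 1000, nat_lit 0, nat_lit 0, nat_lit 0, nat_lit 0, nat_lit 0, nat_lit 0, nat_lit 0, nat_lit 0, nat_lit 0, nat_lit 0, nat_lit 0, nat_lit 0, nat_lit 0, nat_lit 0, nat_lit 0, false, false⟩,
 nat_lit 15963, nat_lit 0, nat_lit 0, nat_lit 0, nat_lit 9607, nat_lit 9291, nat_lit 0, nat_lit 0, nat_lit 0, nat_lit 724, nat_lit 0, nat_lit 0, nat_lit 0, nat_lit 0, nat_lit 0, nat_lit 0, nat_lit 0, nat_lit 0, [],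
 ⟨p116_k10, nat_lit 0, nat_lit 0, nat_lit 144, nat_lit 0, nat_lit 173775, [nat_lit 938000000, nat_lit 4688000000, nat_lit 7968000000], [], [nat_lit 27568136308, nat_lit 28074756236, nat_lit 31969899146, nat_lit 32543507783, nat_lit 28681596507, nat_lit 29114133354, nat_lit 32954718070, nat_lit 33443655996], nat_lit 1271250, nat_lit 1271250, nat_lit 1271250, nat_lit 1271250, nat_lit 1100001, nat_lit 1785000, [nat_lit 230000, nat_lit 1100000, nat_lit 1785000], [nat_lit 57, nat_lit 40, nat_lit 40, nat_lit 80, nat_lit 7, nat_lit 272, nat_lit 60, nat_lit 7]⟩, ⟨p116_k2, nat_lit 0, nat_lit 0, nat_lit 268, nat_lit 0, nat_lit 300473, [nat_lit 4688000000, nat_lit 9842000000, nat_lit 14058000000], [], [nat_lit 24642310498, nat_lit 25506302056, nat_lit 28301830792, nat_lit 28924596732, nat_lit 30388107033, nat_lit 30781071680, nat_lit 32777213486, nat_lit 33199190520], nat_lit 1271250, nat_lit 1271250, nat_lit 1271250, nat_lit 1271250,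 nat_lit 1100001, nat_lit 2744000, [nat_lit 1100000, nat_lit 2127500, nat_lit 1271250], [nat_lit 56, nat_lit 40, nat_lit 40, nat_lit 80, nat_lit 32, nat_lit 483, nat_lit 250, nat_lit 10]⟩,
 zbF0, [⟨nat_lit 4, nat_lit 100, nat_lit 55, nat_lit 87, nat_lit 564180113⟩, ⟨nat_lit 7, nat_lit 82, nat_lit 100, nat_lit 92, nat_lit 373462659⟩]⟩
noncomputable def p116_l94 : Lf2 := ⟨nat_lit 0, nat_lit 30, [nat_lit 15, nat_lit 5, nat_lit 5, nat_lit 20], false, nat_lit 160, nat_lit 248, nat_lit 160, nat_lit 352, ⟨nat_lit 1000, nat_lit 0, nat_lit 0, nat_lit 0, nat_lit 0, nat_lit 0, nat_lit 0, nat_lit 0, nat_lit 0, nat_lit 0, nat_lit 0, nat_lit 0, nat_lit 0, nat_lit 0, nat_lit 0, nat_lit 0, false, false⟩,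
 nat_lit 14716, nat_lit 0, nat_lit 0, nat_lit 2265, nat_lit 6176, nat_lit 8565, nat_lit 355, nat_lit 0, nat_lit 0, nat_lit 594, nat_lit 0, nat_lit 0, nat_lit 0, nat_lit 0, nat_lit 0, nat_lit 0, nat_lit 0, nat_lit 0, [],
 ⟨p116_k6, nat_lit 0, nat_lit 0, nat_lit 179, nat_lit 0, nat_lit 177700, [nat_lit 938000000, nat_lit 4688000000, nat_lit 9842000000], [], [nat_lit 30181280320, nat_lit 30677579888, nat_lit 32715731482, nat_lit 33213887208, nat_lit 30900485844, nat_lit 31383292148, nat_lit 33295380515, nat_lit 33913520229], nat_lit 1271250, nat_lit 1271250, nat_lit 1271250, nat_lit 1271250, nat_lit 1100001, nat_lit 1853500, [nat_lit 230000, nat_lit 1100000, nat_lit 2127500], [nat_lit 81, nat_lit 40, nat_lit 40, nat_lit 80, nat_lit 13, nat_lit 289, nat_lit 75, nat_lit 7]⟩, ⟨p116_k2, nat_lit 0, nat_lit 0, nat_lit 282, nat_lit 0, nat_lit 300473, [nat_lit 4688000000, nat_lit 9842000000, nat_lit 14058000000], [], [nat_lit 30309629280,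 nat_lit 30921258380, nat_lit 33665295250, nat_lit 34108784204, nat_lit 34230741286, nat_lit 34483176872, nat_lit 36275160763, nat_lit 36435337699], nat_lit 1271250, nat_lit 1271250, nat_lit 1271250, nat_lit 1271250, nat_lit 1100001, nat_lit 2744000, [nat_lit 1100000, nat_lit 2127500, nat_lit 1271250], [nat_lit 56, nat_lit 40, nat_lit 40, nat_lit 80, nat_lit 32, nat_lit 538, nat_lit 300, nat_lit 11]⟩,
 zbF0, [⟨nat_lit 4, nat_lit 100, nat_lit 57, nat_lit 87, nat_lit 498282318⟩, ⟨nat_lit 7, nat_lit 82, nat_lit 100, nat_lit 92, nat_lit 318361831⟩]⟩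
noncomputable def p116_l95 : Lf2 := ⟨nat_lit 0, nat_lit 25, [nat_lit 44, nat_lit 5, nat_lit 5, nat_lit 20], false, nat_lit 160, nat_lit 208, nat_lit 160, nat_lit 336, ⟨nat_lit 993, nat_lit 7, nat_lit 0, nat_lit 6, nat_lit 292, nat_lit 7, nat_lit 141, nat_lit 0, nat_lit 0, nat_lit 0, nat_lit 0, nat_lit 0, nat_lit 38811481, nat_lit 21471456, nat_lit 6717063, nat_lit 4873889, true, true⟩,
 nat_lit 5960, nat_lit 0, nat_lit 9712, nat_lit 0, nat_lit 5378, nat_lit 9122, nat_lit 450, nat_lit 0, nat_lit 0, nat_lit 603, nat_lit 0, nat_lit 0, nat_lit 0, nat_lit 0, nat_lit 0, nat_lit 1750, nat_lit 0, nat_lit 0, [(nat_lit 26, [(nat_lit 0, nat_lit 7)])],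
 ⟨p116_k33, nat_lit 0, nat_lit 0, nat_lit 169, nat_lit 0, nat_lit 211792, [nat_lit 936793200, nat_lit 4667190400, nat_lit 7929813600], [], [nat_lit 24529297464, nat_lit 25127322012, nat_lit 31341574060, nat_lit 32030292929, nat_lit 25340709805, nat_lit 26221490588, nat_lit 31897511133, nat_lit 32532959029], nat_lit 1271250, nat_lit 1271250, nat_lit 1271250, nat_lit 1271250, nat_lit 1100001, nat_lit 1511000, [nat_lit 230000, nat_lit 1100000, nat_lit 1785000], [nat_lit 57, nat_lit 40, nat_lit 40, nat_lit 80, nat_lit 7, nat_lit 272, nat_lit 60, nat_lit 7]⟩, ⟨p116_k11, nat_lit 0, nat_lit 0, nat_lit 309, nat_lit 0, nat_lit 372207, [nat_lit 4655184000, nat_lit 9773106000, nat_lit 13959594000], [], [nat_lit 29023833448, nat_lit 29493584764, nat_lit 32947123115, nat_lit 33159730073, nat_lit 31301849404, nat_lit 31490636525, nat_lit 34706977168, nat_lit 35144413400], nat_lit 1271250, nat_lit 1271250, nat_lit 1271250, nat_lit 1271250,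 nat_lit 1100001, nat_lit 2607000, [nat_lit 1100000, nat_lit 2127500, nat_lit 1271250], [nat_lit 56, nat_lit 40, nat_lit 40, nat_lit 80, nat_lit 32, nat_lit 483, nat_lit 250, nat_lit 10]⟩,
 ⟨nat_lit 2236, nat_lit 2739, ⟨.ofNat (nat_lit 626287), .ofNat (nat_lit 815308), .ofNat (nat_lit 648684), .ofNat (nat_lit 837726), .ofNat (nat_lit 625312), .ofNat (nat_lit 807787), .ofNat (nat_lit 648065), .ofNat (nat_lit 830561)⟩, ⟨.ofNat (nat_lit 306433), .ofNat (nat_lit 377306), .ofNat (nat_lit 328850), .ofNat (nat_lit 399724), .ofNat (nat_lit 306337), .ofNat (nat_lit 374756), .ofNat (nat_lit 329112), .ofNat (nat_lit 397530)⟩⟩, [⟨nat_lit 16, nat_lit 49, nat_lit 100, nat_lit 84, nat_lit 752901203⟩, ⟨nat_lit 7, nat_lit 86, nat_lit 100, nat_lit 89, nat_lit 318489822⟩]⟩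
noncomputable def p116_l96 : Lf2 := ⟨nat_lit 0, nat_lit 30, [nat_lit 15, nat_lit 5, nat_lit 5, nat_lit 20], false, nat_lit 160, nat_lit 232, nat_lit 160, nat_lit 352, ⟨nat_lit 1000, nat_lit 0, nat_lit 0, nat_lit 0, nat_lit 0, nat_lit 0, nat_lit 0, nat_lit 0, nat_lit 0, nat_lit 0, nat_lit 0, nat_lit 0, nat_lit 0, nat_lit 0, nat_lit 0, nat_lit 0, false, false⟩,
 nat_lit 14600, nat_lit 0, nat_lit 0, nat_lit 0, nat_lit 7305, nat_lit 8498, nat_lit 122, nat_lit 0, nat_lit 0, nat_lit 717, nat_lit 0, nat_lit 0, nat_lit 0, nat_lit 0, nat_lit 0, nat_lit 0, nat_lit 0, nat_lit 0, [],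
 ⟨p116_k8, nat_lit 0, nat_lit 0, nat_lit 154, nat_lit 0, nat_lit 155930, [nat_lit 938000000, nat_lit 4688000000, nat_lit 7968000000], [], [nat_lit 27714979140, nat_lit 28560154580, nat_lit 33843645201, nat_lit 34665387578, nat_lit 28816837954, nat_lit 29556355526, nat_lit 34394766258, nat_lit 35114342783], nat_lit 1271250, nat_lit 1271250, nat_lit 1271250, nat_lit 1271250, nat_lit 1100001, nat_lit 1716500, [nat_lit 230000, nat_lit 1100000, nat_lit 1785000], [nat_lit 57, nat_lit 40, nat_lit 40, nat_lit 80, nat_lit 7, nat_lit 272, nat_lit 60, nat_lit 7]⟩, ⟨p116_k2, nat_lit 0, nat_lit 0, nat_lit 270, nat_lit 0, nat_lit 275626, [nat_lit 4688000000, nat_lit 9842000000, nat_lit 14058000000], [], [nat_lit 25188490744, nat_lit 26022714668, nat_lit 31534176345, nat_lit 32001926003, nat_lit 30833320299, nat_lit 31232923020, nat_lit 35456125153, nat_lit 35764621518], nat_lit 1271250, nat_lit 1271250, nat_lit 1271250, nat_lit 1271250,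 nat_lit 1100001, nat_lit 2744000, [nat_lit 1100000, nat_lit 2127500, nat_lit 1271250], [nat_lit 56, nat_lit 40, nat_lit 40, nat_lit 80, nat_lit 32, nat_lit 483, nat_lit 250, nat_lit 10]⟩,
 zbF0, [⟨nat_lit 4, nat_lit 100, nat_lit 48, nat_lit 89, nat_lit 637241435⟩, ⟨nat_lit 7, nat_lit 78, nat_lit 100, nat_lit 95, nat_lit 347600787⟩]⟩
noncomputable def b_V_900_600_20_65 : St := ⟨true, nat_lit 1, nat_lit 1, nat_lit 1, nat_lit 120, nat_lit 360, nat_lit 380, nat_lit 240, nat_lit 280, nat_lit 240, nat_lit 376, nat_lit 80, nat_lit 120, nat_lit 160, nat_lit 248, nat_lit 0, nat_lit 364, nat_lit 80, nat_lit 120, nat_lit 0, nat_lit 0, nat_lit 0, nat_lit 0⟩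
theorem d_V_900_600_20_65 (h : EB TB.env) : Dead b_V_900_600_20_65 := chkB_sound0 h (T :=
(.spl (nat_lit 5) (nat_lit 160)
(.spl (nat_lit 0) (nat_lit 370)
(.leaf p116_l80)
(.trX (nat_lit 13) (nat_lit 57) (nat_lit 62) (nat_lit 100) (nat_lit 368) (.trX (nat_lit 16) (nat_lit 53) (nat_lit 100) (nat_lit 93) (nat_lit 232) (.leaf p116_l81))))
(.spl (nat_lit 1) (nat_lit 260)
(.trX (nat_lit 13) (nat_lit 63) (nat_lit 61) (nat_lit 100) (nat_lit 364) (.spl (nat_lit 0) (nat_lit 370)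
(.spl (nat_lit 3) (nat_lit 100)
(.trX (nat_lit 16) (nat_lit 60) (nat_lit 100) (nat_lit 87) (nat_lit 224) (.trX (nat_lit 19) (nat_lit 100) (nat_lit 68) (nat_lit 88) (nat_lit 352) (.leaf p116_l82)))
(.spl (nat_lit 6) (nat_lit 104)
(.leaf p116_l83)
(.leaf p116_l84)))
(.trX (nat_lit 13) (nat_lit 55) (nat_lit 68) (nat_lit 100) (nat_lit 352) (.trX (nat_lit 16) (nat_lit 53) (nat_lit 100) (nat_lit 93) (nat_lit 232) (.spl (nat_lit 3) (nat_lit 100)
(.trX (nat_lit 16) (nat_lit 53) (nat_lit 100) (nat_lit 87) (nat_lit 208) (.trX (nat_lit 19) (nat_lit 100) (nat_lit 68) (nat_lit 88) (nat_lit 352) (.leaf p116_l85)))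
(.spl (nat_lit 6) (nat_lit 100)
(.spl (nat_lit 0) (nat_lit 375)
(.spl (nat_lit 0) (nat_lit 373)
(.leaf p116_l86)
(.trX (nat_lit 13) (nat_lit 53) (nat_lit 71) (nat_lit 100) (nat_lit 348) (.trX (nat_lit 16) (nat_lit 51) (nat_lit 100) (nat_lit 92) (nat_lit 224) (.leaf p116_l87))))
(.trX (nat_lit 13) (nat_lit 51) (nat_lit 72) (nat_lit 100) (nat_lit 348) (.trX (nat_lit 16) (nat_lit 49) (nat_lit 100) (nat_lit 92) (nat_lit 220) (.leaf p116_l88))))
(.spl (nat_lit 6) (nat_lit 112)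
(.spl (nat_lit 0) (nat_lit 375)
(.leaf p116_l89)
(.trX (nat_lit 13) (nat_lit 51) (nat_lit 72) (nat_lit 100) (nat_lit 348) (.trX (nat_lit 16) (nat_lit 49) (nat_lit 100) (nat_lit 92) (nat_lit 220) (.leaf p116_l90))))
(.leaf p116_l91))))))))
(.trX (nat_lit 19) (nat_lit 100) (nat_lit 69) (nat_lit 96) (nat_lit 352) (.spl (nat_lit 0) (nat_lit 370)
(.spl (nat_lit 2) (nat_lit 320)
(.spl (nat_lit 0) (nat_lit 365)
(.leaf p116_l92)
(.trX (nat_lit 16) (nat_lit 58) (nat_lit 100) (nat_lit 93) (nat_lit 240) (.leaf p116_l93)))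
(.leaf p116_l94))
(.trX (nat_lit 13) (nat_lit 57) (nat_lit 62) (nat_lit 100) (nat_lit 368) (.trX (nat_lit 16) (nat_lit 53) (nat_lit 100) (nat_lit 93) (nat_lit 232) (.spl (nat_lit 3) (nat_lit 100)
(.trX (nat_lit 16) (nat_lit 53) (nat_lit 100) (nat_lit 87) (nat_lit 208) (.trX (nat_lit 19) (nat_lit 100) (nat_lit 77) (nat_lit 91) (nat_lit 336) (.leaf p116_l95)))
(.leaf p116_l96))))))))) (by decide +kernel)
noncomputable def p116_l97 : Lf2 := ⟨nat_lit 0, nat_lit 25, [nat_lit 44, nat_lit 5, nat_lit 5, nat_lit 20], false, nat_lit 20, nat_lit 80, nat_lit 0, nat_lit 336, ⟨nat_lit 371, nat_lit 629, nat_lit 0, nat_lit 6, nat_lit 268, nat_lit 629, nat_lit 49, nat_lit 0, nat_lit 0, nat_lit 0, nat_lit 0, nat_lit 0, nat_lit 45068944, nat_lit 20442043, nat_lit 1489013, nat_lit 3689179, true, true⟩,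
 nat_lit 6234, nat_lit 0, nat_lit 0, nat_lit 0, nat_lit 2910, nat_lit 3300, nat_lit 118, nat_lit 0, nat_lit 0, nat_lit 313, nat_lit 0, nat_lit 0, nat_lit 0, nat_lit 0, nat_lit 0, nat_lit 251600, nat_lit 0, nat_lit 0, [(nat_lit 29, [(nat_lit 1, nat_lit 629)])],
 ⟨p116_k39, nat_lit 0, nat_lit 0, nat_lit 224, nat_lit 0, nat_lit 218919, [nat_lit 787291600, nat_lit 1426450000, nat_lit 2377876000], [], [nat_lit 24879774625, nat_lit 25407587468, nat_lit 27706466520, nat_lit 28249990415, nat_lit 24442000540, nat_lit 24945897240, nat_lit 26956429220, nat_lit 27393020240], nat_lit 1271250, nat_lit 1271250, nat_lit 1271250, nat_lit 1271250, nat_lit 111251, nat_lit 490000, [nat_lit 230000, nat_lit 780000, nat_lit 1435000], [nat_lit 20, nat_lit 40, nat_lit 40, nat_lit 80, nat_lit 16, nat_lit 226, nat_lit 20, nat_lit 7]⟩, ⟨p116_k25, nat_lit 0, nat_lit 0, nat_lit 542, nat_lit 0, nat_lit 456495, [nat_lit 1739248000, nat_lit 2956128000, nat_lit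 5215518000], [], [nat_lit 13818013900, nat_lit 13957074626, nat_lit 14511424404, nat_lit 14596566752, nat_lit 11501089521, nat_lit 11542756056, nat_lit 12071902852, nat_lit 12176493195], nat_lit 1271250, nat_lit 1271250, nat_lit 1271250, nat_lit 1271250, nat_lit 0, nat_lit 2373000, [nat_lit 1100000, nat_lit 1785000, nat_lit 1271250], [nat_lit 37, nat_lit 40, nat_lit 40, nat_lit 80, nat_lit 28, nat_lit 483, nat_lit 250, nat_lit 11]⟩,
 ⟨nat_lit 1581, nat_lit 2237, ⟨.ofNat (nat_lit 602558), .ofNat (nat_lit 716594), .ofNat (nat_lit 625287), .ofNat (nat_lit 739368), .ofNat (nat_lit 601260), .ofNat (nat_lit 710536), .ofNat (nat_lit 624529), .ofNat (nat_lit 733851)⟩, ⟨.ofNat (nat_lit 50000), .ofNat (nat_lit 192306), .ofNat (nat_lit 50000), .ofNat (nat_lit 200000), .ofNat (nat_lit 50000), .ofNat (nat_lit 196201), .ofNat (nat_lit 50000), .ofNat (nat_lit 200000)⟩⟩, [⟨nat_lit 3, nat_lit 100, nat_lit 36, nat_lit 77, nat_lit 3697051⟩, ⟨nat_lit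 22, nat_lit 96, nat_lit 100, nat_lit 69, nat_lit 51657458⟩]⟩
noncomputable def p116_l98 : Lf2 := ⟨nat_lit 0, nat_lit 25, [nat_lit 44, nat_lit 5, nat_lit 5, nat_lit 20], false, nat_lit 36, nat_lit 80, nat_lit 0, nat_lit 336, ⟨nat_lit 245, nat_lit 755, nat_lit 0, nat_lit 6, nat_lit 266, nat_lit 755, nat_lit 58, nat_lit 0, nat_lit 0, nat_lit 0, nat_lit 0, nat_lit 0, nat_lit 44932867, nat_lit 20183516, nat_lit 1883617, nat_lit 3791928, true, true⟩,
 nat_lit 4052, nat_lit 0, nat_lit 0, nat_lit 0, nat_lit 3291, nat_lit 2145, nat_lit 0, nat_lit 0, nat_lit 0, nat_lit 207, nat_lit 0, nat_lit 0, nat_lit 0, nat_lit 0, nat_lit 0, nat_lit 188750, nat_lit 0, nat_lit 0, [(nat_lit 29, [(nat_lit 0, nat_lit 755)])],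
 ⟨p116_k40, nat_lit 0, nat_lit 0, nat_lit 201, nat_lit 0, nat_lit 261074, [nat_lit 819918000, nat_lit 1593820001, nat_lit 2187742000], [], [nat_lit 25709627584, nat_lit 26353656857, nat_lit 28772579944, nat_lit 29374775068, nat_lit 25181683171, nat_lit 25744093681, nat_lit 27843994887, nat_lit 28362757781], nat_lit 1271250, nat_lit 1271250, nat_lit 1271250, nat_lit 1271250, nat_lit 205650, nat_lit 490000, [nat_lit 230000, nat_lit 780000, nat_lit 1100000], [nat_lit 35, nat_lit 40, nat_lit 40, nat_lit 80, nat_lit 22, nat_lit 226, nat_lit 20, nat_lit 9]⟩, ⟨p116_k25, nat_lit 0, nat_lit 0, nat_lit 581, nat_lit 0, nat_lit 567650, [nat_lit 1148560000, nat_lit 1952160000, nat_lit 3444210000], [], [nat_lit 9133710860, nat_lit 9225793200, nat_lit 9591303880, nat_lit 9648244110, nat_lit 7697074744, nat_lit 7728409103, nat_lit 8005848528, nat_lit 8054352813], nat_lit 1271250, nat_lit 1271250, nat_lit 1271250, nat_lit 1271250, nat_lit 0,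 nat_lit 2373000, [nat_lit 1100000, nat_lit 1785000, nat_lit 1271250], [nat_lit 37, nat_lit 40, nat_lit 40, nat_lit 80, nat_lit 28, nat_lit 483, nat_lit 250, nat_lit 11]⟩,
 ⟨nat_lit 0, nat_lit 1582, ⟨.ofNat (nat_lit 601257), .ofNat (nat_lit 710533), .ofNat (nat_lit 623921), .ofNat (nat_lit 733849), .ofNat (nat_lit 599992), .ofNat (nat_lit 699996), .ofNat (nat_lit 624340), .ofNat (nat_lit 724997)⟩, ⟨.ofNat (nat_lit 90000), .ofNat (nat_lit 196201), .ofNat (nat_lit 90000), .ofNat (nat_lit 200000), .ofNat (nat_lit 90000), .ofNat (nat_lit 199999), .ofNat (nat_lit 90000), .ofNat (nat_lit 200000)⟩⟩, [⟨nat_lit 13, nat_lit 23, nat_lit 92, nat_lit 100, nat_lit 136275719⟩, ⟨nat_lit 3, nat_lit 100, nat_lit 27, nat_lit 83, nat_lit 476403209⟩, ⟨nat_lit 22, nat_lit 98, nat_lit 100, nat_lit 76, nat_lit 30440775⟩]⟩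
noncomputable def p116_l99 : Lf2 := ⟨nat_lit 0, nat_lit 25, [nat_lit 44, nat_lit 5, nat_lit 5, nat_lit 20], false, nat_lit 20, nat_lit 80, nat_lit 0, nat_lit 336, ⟨nat_lit 328, nat_lit 672, nat_lit 0, nat_lit 6, nat_lit 276, nat_lit 672, nat_lit 50, nat_lit 0, nat_lit 0, nat_lit 0, nat_lit 0, nat_lit 0, nat_lit 44224012, nat_lit 21292540, nat_lit 1483448, nat_lit 3736484, true, true⟩,
 nat_lit 4388, nat_lit 0, nat_lit 0, nat_lit 0, nat_lit 3240, nat_lit 2554, nat_lit 44, nat_lit 0, nat_lit 0, nat_lit 283, nat_lit 0, nat_lit 0, nat_lit 0, nat_lit 0, nat_lit 0, nat_lit 268800, nat_lit 0, nat_lit 0, [(nat_lit 29, [(nat_lit 1, nat_lit 672)])],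
 ⟨p116_k39, nat_lit 0, nat_lit 0, nat_lit 248, nat_lit 0, nat_lit 302396, [nat_lit 776988800, nat_lit 1299600001, nat_lit 2113168000], [], [nat_lit 25440992100, nat_lit 26786020820, nat_lit 28529658780, nat_lit 29737441040, nat_lit 24511931222, nat_lit 25512158681, nat_lit 27225999180, nat_lit 28321383580], nat_lit 1271250, nat_lit 1271250, nat_lit 1271250, nat_lit 1271250, nat_lit 111251, nat_lit 490000, [nat_lit 230000, nat_lit 780000, nat_lit 1435000], [nat_lit 20, nat_lit 40, nat_lit 40, nat_lit 80, nat_lit 16, nat_lit 226, nat_lit 20, nat_lit 7]⟩, ⟨p116_k30, nat_lit 0, nat_lit 0, nat_lit 573, nat_lit 0, nat_lit 554709, [nat_lit 1537664000, nat_lit 2613504000, nat_lit 4611024000], [], [nat_lit 11235600456, nat_lit 11376496856, nat_lit 11851485144, nat_lit 12039521192, nat_lit 9975131059, nat_lit 10025208231, nat_lit 10518111089, nat_lit 10616356455], nat_lit 1271250, nat_lit 1271250, nat_lit 1271250, nat_lit 1271250, nat_lit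 0, nat_lit 2373000, [nat_lit 1100000, nat_lit 1785000, nat_lit 1271250], [nat_lit 37, nat_lit 40, nat_lit 40, nat_lit 80, nat_lit 28, nat_lit 483, nat_lit 250, nat_lit 11]⟩,
 ⟨nat_lit 0, nat_lit 2237, ⟨.ofNat (nat_lit 624400), .ofNat (nat_lit 739366), .ofNat (nat_lit 646249), .ofNat (nat_lit 762141), .ofNat (nat_lit 624062), .ofNat (nat_lit 724997), .ofNat (nat_lit 648136), .ofNat (nat_lit 749998)⟩, ⟨.ofNat (nat_lit 50000), .ofNat (nat_lit 192306), .ofNat (nat_lit 50000), .ofNat (nat_lit 200000), .ofNat (nat_lit 50000), .ofNat (nat_lit 199999), .ofNat (nat_lit 50000), .ofNat (nat_lit 200000)⟩⟩, [⟨nat_lit 3, nat_lit 100, nat_lit 37, nat_lit 74, nat_lit 227416704⟩, ⟨nat_lit 22, nat_lit 96, nat_lit 100, nat_lit 69, nat_lit 61824406⟩]⟩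
noncomputable def p116_l100 : Lf2 := ⟨nat_lit 0, nat_lit 30, [nat_lit 15, nat_lit 5, nat_lit 5, nat_lit 20], false, nat_lit 32, nat_lit 80, nat_lit 0, nat_lit 336, ⟨nat_lit 550, nat_lit 0, nat_lit 450, nat_lit 6, nat_lit 257, nat_lit 450, nat_lit 56, nat_lit 450, nat_lit 29400, nat_lit 257, nat_lit 93454, nat_lit 200, nat_lit 45956181, nat_lit 0, nat_lit 0, nat_lit 3711144, true, true⟩,
 nat_lit 9802, nat_lit 0, nat_lit 0, nat_lit 0, nat_lit 2949, nat_lit 5189, nat_lit 211, nat_lit 0, nat_lit 0, nat_lit 637, nat_lit 0, nat_lit 0, nat_lit 0, nat_lit 0, nat_lit 0, nat_lit 148350, nat_lit 0, nat_lit 0, [(nat_lit 29, [(nat_lit 4, nat_lit 211), (nat_lit 5, nat_lit 239)])],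
 ⟨p116_k17, nat_lit 0, nat_lit 0, nat_lit 217, nat_lit 0, nat_lit 165715, [nat_lit 818468000, nat_lit 1158573601, nat_lit 2536797200], [], [nat_lit 24000169000, nat_lit 24600742833, nat_lit 25468189271, nat_lit 26191964321, nat_lit 23198878663, nat_lit 23739419600, nat_lit 24443447619, nat_lit 24983016018], nat_lit 1271250, nat_lit 1271250, nat_lit 1271250, nat_lit 1271250, nat_lit 181601, nat_lit 490000, [nat_lit 230000, nat_lit 780000, nat_lit 1762500], [nat_lit 54, nat_lit 40, nat_lit 40, nat_lit 80, nat_lit 43, nat_lit 226, nat_lit 20, nat_lit 6]⟩, ⟨p116_k4, nat_lit 0, nat_lit 0, nat_lit 502, nat_lit 0, nat_lit 348192, [nat_lit 2578400000, nat_lit 4382400000, nat_lit 9020000000], [], [nat_lit 18372768801, nat_lit 18818628805, nat_lit 19264488809, nat_lit 19644998923, nat_lit 16401889763, nat_lit 15661412941, nat_lit 15932940046, nat_lit 16161036418], nat_lit 1271250, nat_lit 1271250, nat_lit 1271250, nat_lit 1271250, nat_lit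 0, nat_lit 2373000, [nat_lit 1100000, nat_lit 1785000, nat_lit 1271250], [nat_lit 122, nat_lit 40, nat_lit 40, nat_lit 80, nat_lit 111, nat_lit 456, nat_lit 225, nat_lit 9]⟩,
 ⟨nat_lit 1581, nat_lit 2237, ⟨.ofNat (nat_lit 602558), .ofNat (nat_lit 659578), .ofNat (nat_lit 625287), .ofNat (nat_lit 682352), .ofNat (nat_lit 601260), .ofNat (nat_lit 655900), .ofNat (nat_lit 624529), .ofNat (nat_lit 679215)⟩, ⟨.ofNat (nat_lit 80000), .ofNat (nat_lit 200000), .ofNat (nat_lit 80000), .ofNat (nat_lit 200000), .ofNat (nat_lit 80000), .ofNat (nat_lit 200000), .ofNat (nat_lit 80000), .ofNat (nat_lit 200000)⟩⟩, [⟨nat_lit 22, nat_lit 100, nat_lit 94, nat_lit 73, nat_lit 77552299⟩]⟩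
noncomputable def p116_l101 : Lf2 := ⟨nat_lit 0, nat_lit 30, [nat_lit 15, nat_lit 5, nat_lit 5, nat_lit 20], false, nat_lit 48, nat_lit 80, nat_lit 0, nat_lit 336, ⟨nat_lit 275, nat_lit 165, nat_lit 560, nat_lit 6, nat_lit 255, nat_lit 725, nat_lit 64, nat_lit 559, nat_lit 38400, nat_lit 263, nat_lit 87180, nat_lit 200, nat_lit 45733748, nat_lit 19050752, nat_lit 2215500, nat_lit 3812784, true, true⟩,
 nat_lit 4504, nat_lit 0, nat_lit 0, nat_lit 0, nat_lit 2977, nat_lit 2384, nat_lit 0, nat_lit 0, nat_lit 0, nat_lit 256, nat_lit 0, nat_lit 0, nat_lit 0, nat_lit 0, nat_lit 0, nat_lit 181250, nat_lit 0, nat_lit 0, [(nat_lit 29, [(nat_lit 0, nat_lit 165), (nat_lit 4, nat_lit 560)])],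
 ⟨p116_k3, nat_lit 0, nat_lit 0, nat_lit 203, nat_lit 0, nat_lit 210428, [nat_lit 813410001, nat_lit 507897334, nat_lit 545186000], [], [nat_lit 24372950785, nat_lit 25036092405, nat_lit 25841277344, nat_lit 26561434071, nat_lit 23919116105, nat_lit 24483994820, nat_lit 25182640345, nat_lit 25730004896], nat_lit 1271250, nat_lit 1271250, nat_lit 1271250, nat_lit 1271250, nat_lit 279600, nat_lit 490000, [nat_lit 230000, nat_lit 780000, nat_lit 1435000], [nat_lit 20, nat_lit 40, nat_lit 40, nat_lit 80, nat_lit 16, nat_lit 226, nat_lit 20, nat_lit 7]⟩, ⟨p116_k4, nat_lit 0, nat_lit 0, nat_lit 610, nat_lit 0, nat_lit 461200, [nat_lit 1289200000, nat_lit 2191200000, nat_lit 4510000000], [], [nat_lit 10176410332, nat_lit 10266300866, nat_lit 10356191400, nat_lit 10439839688, nat_lit 8668865432, nat_lit 8747844214, nat_lit 8826822996, nat_lit 8894338363], nat_lit 1271250, nat_lit 1271250, nat_lit 1271250, nat_lit 1271250, nat_lit 0,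 nat_lit 2373000, [nat_lit 1100000, nat_lit 1785000, nat_lit 1271250], [nat_lit 122, nat_lit 40, nat_lit 40, nat_lit 80, nat_lit 111, nat_lit 456, nat_lit 225, nat_lit 9]⟩,
 ⟨nat_lit 0, nat_lit 1582, ⟨.ofNat (nat_lit 601257), .ofNat (nat_lit 655899), .ofNat (nat_lit 623921), .ofNat (nat_lit 679215), .ofNat (nat_lit 599992), .ofNat (nat_lit 649998), .ofNat (nat_lit 624340), .ofNat (nat_lit 674999)⟩, ⟨.ofNat (nat_lit 120000), .ofNat (nat_lit 200000), .ofNat (nat_lit 120000), .ofNat (nat_lit 200000), .ofNat (nat_lit 120000), .ofNat (nat_lit 200000), .ofNat (nat_lit 120000), .ofNat (nat_lit 200000)⟩⟩, [⟨nat_lit 3, nat_lit 100, nat_lit 25, nat_lit 86, nat_lit 592928849⟩, ⟨nat_lit 22, nat_lit 100, nat_lit 91, nat_lit 77, nat_lit 37941907⟩]⟩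
noncomputable def p116_l102 : Lf2 := ⟨nat_lit 0, nat_lit 30, [nat_lit 15, nat_lit 5, nat_lit 5, nat_lit 20], false, nat_lit 32, nat_lit 80, nat_lit 0, nat_lit 300, ⟨nat_lit 631, nat_lit 369, nat_lit 0, nat_lit 7, nat_lit 277, nat_lit 369, nat_lit 56, nat_lit 0, nat_lit 0, nat_lit 0, nat_lit 0, nat_lit 0, nat_lit 43853470, nat_lit 21373522, nat_lit 1773008, nat_lit 3828464, true, true⟩,
 nat_lit 3354, nat_lit 0, nat_lit 6895, nat_lit 0, nat_lit 3134, nat_lit 5425, nat_lit 353, nat_lit 0, nat_lit 0, nat_lit 570, nat_lit 0, nat_lit 0, nat_lit 0, nat_lit 0, nat_lit 0, nat_lit 147600, nat_lit 0, nat_lit 0, [(nat_lit 29, [(nat_lit 1, nat_lit 369)])],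
 ⟨p116_k17, nat_lit 0, nat_lit 0, nat_lit 253, nat_lit 0, nat_lit 219499, [nat_lit 849587600, nat_lit 2193450000, nat_lit 5048029200], [], [nat_lit 25834174116, nat_lit 27321479300, nat_lit 27771112103, nat_lit 29125188040, nat_lit 24992909355, nat_lit 25976415471, nat_lit 26431501328, nat_lit 27749827144], nat_lit 1271250, nat_lit 1271250, nat_lit 1271250, nat_lit 1271250, nat_lit 181601, nat_lit 490000, [nat_lit 230000, nat_lit 780000, nat_lit 1762500], [nat_lit 54, nat_lit 40, nat_lit 40, nat_lit 80, nat_lit 43, nat_lit 226, nat_lit 20, nat_lit 6]⟩, ⟨p116_k4, nat_lit 0, nat_lit 0, nat_lit 601, nat_lit 0, nat_lit 461200, [nat_lit 2958128000, nat_lit 5027808000, nat_lit 10348400000], [], [nat_lit 24073183286, nat_lit 24241837968, nat_lit 25008309650, nat_lit 25360158940, nat_lit 19901747488, nat_lit 19939433910, nat_lit 20455745791, nat_lit 20618581656], nat_lit 1271250, nat_lit 1271250, nat_lit 1271250, nat_lit 1271250, nat_lit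 0, nat_lit 2118750, [nat_lit 1100000, nat_lit 1785000, nat_lit 1271250], [nat_lit 122, nat_lit 40, nat_lit 40, nat_lit 80, nat_lit 111, nat_lit 456, nat_lit 225, nat_lit 9]⟩,
 ⟨nat_lit 0, nat_lit 2237, ⟨.ofNat (nat_lit 659577), .ofNat (nat_lit 716590), .ofNat (nat_lit 682352), .ofNat (nat_lit 739366), .ofNat (nat_lit 649998), .ofNat (nat_lit 699995), .ofNat (nat_lit 674999), .ofNat (nat_lit 724997)⟩, ⟨.ofNat (nat_lit 80000), .ofNat (nat_lit 200000), .ofNat (nat_lit 80000), .ofNat (nat_lit 200000), .ofNat (nat_lit 80000), .ofNat (nat_lit 200000), .ofNat (nat_lit 80000), .ofNat (nat_lit 200000)⟩⟩, [⟨nat_lit 13, nat_lit 32, nat_lit 87, nat_lit 100, nat_lit 60757614⟩, ⟨nat_lit 3, nat_lit 100, nat_lit 35, nat_lit 79, nat_lit 164614431⟩, ⟨nat_lit 22, nat_lit 100, nat_lit 95, nat_lit 87, nat_lit 39996750⟩]⟩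
noncomputable def p116_l103 : Lf2 := ⟨nat_lit 0, nat_lit 30, [nat_lit 15, nat_lit 5, nat_lit 5, nat_lit 20], false, nat_lit 32, nat_lit 80, nat_lit 0, nat_lit 336, ⟨nat_lit 700, nat_lit 300, nat_lit 0, nat_lit 6, nat_lit 277, nat_lit 300, nat_lit 56, nat_lit 0, nat_lit 0, nat_lit 0, nat_lit 0, nat_lit 0, nat_lit 43901955, nat_lit 21324000, nat_lit 1774045, nat_lit 3826056, true, true⟩,
 nat_lit 3247, nat_lit 0, nat_lit 7944, nat_lit 0, nat_lit 3034, nat_lit 6514, nat_lit 436, nat_lit 0, nat_lit 0, nat_lit 426, nat_lit 0, nat_lit 0, nat_lit 0, nat_lit 0, nat_lit 0, nat_lit 120000, nat_lit 0, nat_lit 0, [(nat_lit 29, [(nat_lit 1, nat_lit 300)])],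
 ⟨p116_k0, nat_lit 0, nat_lit 0, nat_lit 246, nat_lit 0, nat_lit 199160, [nat_lit 866120000, nat_lit 3340880000, nat_lit 5594040000], [], [nat_lit 23967214713, nat_lit 24766416112, nat_lit 27553748743, nat_lit 28220825392, nat_lit 23042073660, nat_lit 23520932808, nat_lit 26277242128, nat_lit 26926758836], nat_lit 1271250, nat_lit 1271250, nat_lit 1271250, nat_lit 1271250, nat_lit 181601, nat_lit 490000, [nat_lit 230000, nat_lit 1100000, nat_lit 1785000], [nat_lit 57, nat_lit 40, nat_lit 40, nat_lit 80, nat_lit 7, nat_lit 226, nat_lit 20, nat_lit 6]⟩, ⟨p116_k2, nat_lit 0, nat_lit 0, nat_lit 463, nat_lit 0, nat_lit 367603, [nat_lit 3281600000, nat_lit 6889400000, nat_lit 9840600000], [], [nat_lit 25763173524, nat_lit 26175138184, nat_lit 27562311944, nat_lit 27842460384, nat_lit 22476370060, nat_lit 22028442023, nat_lit 23107489701, nat_lit 23300259442], nat_lit 1271250, nat_lit 1271250, nat_lit 1271250, nat_lit 1271250, nat_lit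 0, nat_lit 2373000, [nat_lit 1100000, nat_lit 2127500, nat_lit 1271250], [nat_lit 56, nat_lit 40, nat_lit 40, nat_lit 80, nat_lit 32, nat_lit 483, nat_lit 250, nat_lit 11]⟩,
 ⟨nat_lit 1581, nat_lit 2237, ⟨.ofNat (nat_lit 625287), .ofNat (nat_lit 739368), .ofNat (nat_lit 648016), .ofNat (nat_lit 762142), .ofNat (nat_lit 624529), .ofNat (nat_lit 733851), .ofNat (nat_lit 647799), .ofNat (nat_lit 757166)⟩, ⟨.ofNat (nat_lit 80000), .ofNat (nat_lit 200000), .ofNat (nat_lit 80000), .ofNat (nat_lit 200000), .ofNat (nat_lit 80000), .ofNat (nat_lit 200000), .ofNat (nat_lit 80000), .ofNat (nat_lit 200000)⟩⟩, [⟨nat_lit 22, nat_lit 100, nat_lit 76, nat_lit 82, nat_lit 86438606⟩]⟩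
noncomputable def p116_l104 : Lf2 := ⟨nat_lit 0, nat_lit 30, [nat_lit 15, nat_lit 5, nat_lit 5, nat_lit 20], false, nat_lit 48, nat_lit 80, nat_lit 0, nat_lit 336, ⟨nat_lit 425, nat_lit 575, nat_lit 0, nat_lit 6, nat_lit 275, nat_lit 575, nat_lit 64, nat_lit 0, nat_lit 0, nat_lit 0, nat_lit 0, nat_lit 0, nat_lit 43742030, nat_lit 21091403, nat_lit 2166567, nat_lit 3924353, true, true⟩,
 nat_lit 7096, nat_lit 0, nat_lit 0, nat_lit 0, nat_lit 2995, nat_lit 4130, nat_lit 241, nat_lit 0, nat_lit 0, nat_lit 287, nat_lit 0, nat_lit 0, nat_lit 0, nat_lit 0, nat_lit 0, nat_lit 143750, nat_lit 0, nat_lit 0, [(nat_lit 29, [(nat_lit 0, nat_lit 575)])],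
 ⟨p116_k18, nat_lit 0, nat_lit 0, nat_lit 218, nat_lit 0, nat_lit 239513, [nat_lit 848070001, nat_lit 2783830001, nat_lit 3683430000], [], [nat_lit 24283456022, nat_lit 25069701688, nat_lit 27709057754, nat_lit 28366437140, nat_lit 23918780539, nat_lit 24416948409, nat_lit 26862835730, nat_lit 27508590420], nat_lit 1271250, nat_lit 1271250, nat_lit 1271250, nat_lit 1271250, nat_lit 279600, nat_lit 490000, [nat_lit 230000, nat_lit 1100000, nat_lit 1442500], [nat_lit 55, nat_lit 40, nat_lit 40, nat_lit 80, nat_lit 3, nat_lit 226, nat_lit 20, nat_lit 7]⟩, ⟨p116_k2, nat_lit 0, nat_lit 0, nat_lit 500, nat_lit 0, nat_lit 461145, [nat_lit 1992400000, nat_lit 4182850000, nat_lit 5974650000], [], [nat_lit 15338672020, nat_lit 15523407560, nat_lit 16339130880, nat_lit 16658377200, nat_lit 13358575564, nat_lit 12927279260, nat_lit 13571612357, nat_lit 13688068725], nat_lit 1271250, nat_lit 1271250, nat_lit 1271250, nat_lit 1271250, nat_lit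 0, nat_lit 2373000, [nat_lit 1100000, nat_lit 2127500, nat_lit 1271250], [nat_lit 56, nat_lit 40, nat_lit 40, nat_lit 80, nat_lit 32, nat_lit 483, nat_lit 250, nat_lit 11]⟩,
 ⟨nat_lit 0, nat_lit 1582, ⟨.ofNat (nat_lit 623921), .ofNat (nat_lit 733849), .ofNat (nat_lit 646579), .ofNat (nat_lit 757165), .ofNat (nat_lit 624340), .ofNat (nat_lit 724997), .ofNat (nat_lit 648683), .ofNat (nat_lit 749998)⟩, ⟨.ofNat (nat_lit 120000), .ofNat (nat_lit 200000), .ofNat (nat_lit 120000), .ofNat (nat_lit 200000), .ofNat (nat_lit 120000), .ofNat (nat_lit 200000), .ofNat (nat_lit 120000), .ofNat (nat_lit 200000)⟩⟩, [⟨nat_lit 3, nat_lit 100, nat_lit 25, nat_lit 86, nat_lit 773378828⟩, ⟨nat_lit 22, nat_lit 100, nat_lit 100, nat_lit 80, nat_lit 45342543⟩]⟩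
noncomputable def p116_l105 : Lf2 := ⟨nat_lit 0, nat_lit 30, [nat_lit 15, nat_lit 5, nat_lit 5, nat_lit 20], false, nat_lit 20, nat_lit 80, nat_lit 0, nat_lit 260, ⟨nat_lit 1000, nat_lit 0, nat_lit 0, nat_lit 0, nat_lit 0, nat_lit 0, nat_lit 0, nat_lit 0, nat_lit 0, nat_lit 0, nat_lit 0, nat_lit 0, nat_lit 0, nat_lit 0, nat_lit 0, nat_lit 0, false, false⟩,
 nat_lit 15707, nat_lit 0, nat_lit 0, nat_lit 0, nat_lit 3129, nat_lit 8315, nat_lit 565, nat_lit 0, nat_lit 0, nat_lit 883, nat_lit 0, nat_lit 0, nat_lit 0, nat_lit 0, nat_lit 0, nat_lit 0, nat_lit 0, nat_lit 0, [],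
 ⟨p116_k17, nat_lit 0, nat_lit 0, nat_lit 273, nat_lit 0, nat_lit 264359, [nat_lit 938000000, nat_lit 3282000000, nat_lit 7968000000], [], [nat_lit 28094357826, nat_lit 28775362555, nat_lit 29818194170, nat_lit 30444446888, nat_lit 26627652061, nat_lit 27084672119, nat_lit 28102230543, nat_lit 28709394926], nat_lit 1271250, nat_lit 1271250, nat_lit 1271250, nat_lit 1271250, nat_lit 111251, nat_lit 490000, [nat_lit 230000, nat_lit 780000, nat_lit 1762500], [nat_lit 54, nat_lit 40, nat_lit 40, nat_lit 80, nat_lit 43, nat_lit 226, nat_lit 20, nat_lit 6]⟩, ⟨p116_k4, nat_lit 0, nat_lit 0, nat_lit 626, nat_lit 0, nat_lit 555458, [nat_lit 4688000000, nat_lit 7968000000, nat_lit 16400000000], [], [nat_lit 39877096115, nat_lit 40700417875, nat_lit 41517106259, nat_lit 42435416196, nat_lit 32845898495, nat_lit 32978377220, nat_lit 33471882036, nat_lit 33943452178], nat_lit 1271250, nat_lit 1271250, nat_lit 1271250, nat_lit 1271250, nat_lit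 0, nat_lit 1836250, [nat_lit 1100000, nat_lit 1785000, nat_lit 1271250], [nat_lit 122, nat_lit 40, nat_lit 40, nat_lit 80, nat_lit 111, nat_lit 456, nat_lit 225, nat_lit 9]⟩,
 zbF0, [⟨nat_lit 22, nat_lit 73, nat_lit 100, nat_lit 66, nat_lit 15925745⟩]⟩
noncomputable def p116_l106 : Lf2 := ⟨nat_lit 0, nat_lit 30, [nat_lit 15, nat_lit 5, nat_lit 5, nat_lit 20], false, nat_lit 36, nat_lit 80, nat_lit 0, nat_lit 260, ⟨nat_lit 502, nat_lit 498, nat_lit 0, nat_lit 8, nat_lit 296, nat_lit 498, nat_lit 58, nat_lit 0, nat_lit 0, nat_lit 0, nat_lit 0, nat_lit 0, nat_lit 41960942, nat_lit 23224055, nat_lit 1815003, nat_lit 3932783, true, true⟩,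
 nat_lit 8040, nat_lit 0, nat_lit 0, nat_lit 0, nat_lit 2857, nat_lit 4256, nat_lit 168, nat_lit 0, nat_lit 0, nat_lit 444, nat_lit 0, nat_lit 0, nat_lit 0, nat_lit 0, nat_lit 0, nat_lit 199200, nat_lit 0, nat_lit 0, [(nat_lit 29, [(nat_lit 1, nat_lit 498)])],
 ⟨p116_k3, nat_lit 0, nat_lit 0, nat_lit 242, nat_lit 0, nat_lit 303381, [nat_lit 818679200, nat_lit 1812900000, nat_lit 3184312000], [], [nat_lit 27878133459, nat_lit 28368004437, nat_lit 28521889668, nat_lit 29144643163, nat_lit 27451274175, nat_lit 27918034844, nat_lit 28052556222, nat_lit 28504413571], nat_lit 1271250, nat_lit 1271250, nat_lit 1271250, nat_lit 1271250, nat_lit 205650, nat_lit 490000, [nat_lit 230000, nat_lit 780000, nat_lit 1435000], [nat_lit 20, nat_lit 40, nat_lit 40, nat_lit 80, nat_lit 16, nat_lit 226, nat_lit 20, nat_lit 7]⟩, ⟨p116_k4, nat_lit 0, nat_lit 0, nat_lit 662, nat_lit 0, nat_lit 664927, [nat_lit 2353376000, nat_lit 3999936000, nat_lit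 8232800000], [], [nat_lit 19955137516, nat_lit 20514059060, nat_lit 20444027440, nat_lit 20953809393, nat_lit 16229475312, nat_lit 16298185516, nat_lit 16386636315, nat_lit 16597843080], nat_lit 1271250, nat_lit 1271250, nat_lit 1271250, nat_lit 1271250, nat_lit 0, nat_lit 1836250, [nat_lit 1100000, nat_lit 1785000, nat_lit 1271250], [nat_lit 122, nat_lit 40, nat_lit 40, nat_lit 80, nat_lit 111, nat_lit 456, nat_lit 225, nat_lit 9]⟩,
 ⟨nat_lit 0, nat_lit 1582, ⟨.ofNat (nat_lit 710533), .ofNat (nat_lit 732386), .ofNat (nat_lit 757165), .ofNat (nat_lit 779018), .ofNat (nat_lit 699996), .ofNat (nat_lit 719995), .ofNat (nat_lit 749998), .ofNat (nat_lit 769997)⟩, ⟨.ofNat (nat_lit 90000), .ofNat (nat_lit 196201), .ofNat (nat_lit 90000), .ofNat (nat_lit 200000), .ofNat (nat_lit 90000), .ofNat (nat_lit 199999), .ofNat (nat_lit 90000), .ofNat (nat_lit 200000)⟩⟩, [⟨nat_lit 13, nat_lit 23, nat_lit 91, nat_lit 100, nat_lit 997898818⟩,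 ⟨nat_lit 3, nat_lit 100, nat_lit 26, nat_lit 85, nat_lit 72915118⟩, ⟨nat_lit 22, nat_lit 77, nat_lit 100, nat_lit 71, nat_lit 8766362⟩]⟩
noncomputable def b_V_900_600_20_66 : St := ⟨true, nat_lit 1, nat_lit 1, nat_lit 1, nat_lit 120, nat_lit 380, nat_lit 400, nat_lit 240, nat_lit 280, nat_lit 240, nat_lit 352, nat_lit 80, nat_lit 120, nat_lit 20, nat_lit 80, nat_lit 0, nat_lit 364, nat_lit 80, nat_lit 120, nat_lit 0, nat_lit 0, nat_lit 0, nat_lit 0⟩
theorem d_V_900_600_20_66 (h : EB TB.env) : Dead b_V_900_600_20_66 := chkB_sound0 h (T :=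
(.trX (nat_lit 22) (nat_lit 100) (nat_lit 76) (nat_lit 82) (nat_lit 336) (.spl (nat_lit 2) (nat_lit 320)
(.spl (nat_lit 3) (nat_lit 100)
(.spl (nat_lit 1) (nat_lit 260)
(.spl (nat_lit 0) (nat_lit 390)
(.leaf p116_l97)
(.trZ (nat_lit 3) (nat_lit 100) (nat_lit 39) (nat_lit 72) (nat_lit 36) (.leaf p116_l98)))
(.leaf p116_l99))
(.trZ (nat_lit 3) (nat_lit 100) (nat_lit 50) (nat_lit 65) (nat_lit 32) (.spl (nat_lit 1) (nat_lit 260)
(.spl (nat_lit 2) (nat_lit 280)
(.spl (nat_lit 0) (nat_lit 390)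
(.leaf p116_l100)
(.trZ (nat_lit 3) (nat_lit 100) (nat_lit 36) (nat_lit 77) (nat_lit 48) (.leaf p116_l101)))
(.trX (nat_lit 22) (nat_lit 100) (nat_lit 95) (nat_lit 87) (nat_lit 300) (.leaf p116_l102)))
(.spl (nat_lit 0) (nat_lit 390)
(.leaf p116_l103)
(.trZ (nat_lit 3) (nat_lit 100) (nat_lit 36) (nat_lit 77) (nat_lit 48) (.leaf p116_l104))))))
(.trX (nat_lit 22) (nat_lit 83) (nat_lit 100) (nat_lit 83) (nat_lit 260) (.spl (nat_lit 0) (nat_lit 390)
(.leaf p116_l105)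
(.trX (nat_lit 13) (nat_lit 34) (nat_lit 81) (nat_lit 100) (nat_lit 336) (.trZ (nat_lit 3) (nat_lit 100) (nat_lit 39) (nat_lit 72) (nat_lit 36) (.leaf p116_l106)))))))) (by decide +kernel)
noncomputable def p116_l107 : Lf2 := ⟨nat_lit 0, nat_lit 30, [nat_lit 15, nat_lit 5, nat_lit 5, nat_lit 20], false, nat_lit 80, nat_lit 160, nat_lit 0, nat_lit 364, ⟨nat_lit 167, nat_lit 90, nat_lit 743, nat_lit 6, nat_lit 254, nat_lit 833, nat_lit 105, nat_lit 743, nat_lit 104017, nat_lit 294, nat_lit 70680, nat_lit 200, nat_lit 43883443, nat_lit 18502269, nat_lit 4614288, nat_lit 4332617, true, true⟩,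
 nat_lit 3697, nat_lit 0, nat_lit 0, nat_lit 0, nat_lit 2856, nat_lit 1957, nat_lit 0, nat_lit 0, nat_lit 0, nat_lit 121, nat_lit 0, nat_lit 0, nat_lit 0, nat_lit 0, nat_lit 42, nat_lit 208250, nat_lit 0, nat_lit 0, [(nat_lit 29, [(nat_lit 0, nat_lit 90), (nat_lit 4, nat_lit 743)])],
 ⟨p116_k0, nat_lit 0, nat_lit 0, nat_lit 174, nat_lit 0, nat_lit 187139, [nat_lit 960858801, nat_lit 257581201, nat_lit 248623200], [], [nat_lit 22958496528, nat_lit 23243518164, nat_lit 24233178736, nat_lit 24501943444, nat_lit 23541551698, nat_lit 23790861254, nat_lit 24686182210, nat_lit 24933787620], nat_lit 1271250, nat_lit 1271250, nat_lit 1271250, nat_lit 1271250, nat_lit 490000, nat_lit 1100001, [nat_lit 230000, nat_lit 1100000, nat_lit 1785000], [nat_lit 57, nat_lit 40, nat_lit 40, nat_lit 80, nat_lit 7, nat_lit 249, nat_lit 40, nat_lit 7]⟩, ⟨p116_k1, nat_lit 0, nat_lit 0, nat_lit 530, nat_lit 0, nat_lit 393207, [nat_lit 782896000, nat_lit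 1643614000, nat_lit 2738800000], [], [nat_lit 6438889307, nat_lit 6512288220, nat_lit 6732484959, nat_lit 6793920008, nat_lit 6450792957, nat_lit 6024785858, nat_lit 5409763683, nat_lit 5420299118], nat_lit 1271250, nat_lit 1271250, nat_lit 1271250, nat_lit 1271250, nat_lit 0, nat_lit 2570750, [nat_lit 1100000, nat_lit 2127500, nat_lit 1271250], [nat_lit 83, nat_lit 40, nat_lit 40, nat_lit 80, nat_lit 73, nat_lit 456, nat_lit 225, nat_lit 9]⟩,
 ⟨nat_lit 1936, nat_lit 2237, ⟨.ofNat (nat_lit 602562), .ofNat (nat_lit 659578), .ofNat (nat_lit 613945), .ofNat (nat_lit 670965), .ofNat (nat_lit 601908), .ofNat (nat_lit 657798), .ofNat (nat_lit 613410), .ofNat (nat_lit 669304)⟩, ⟨.ofNat (nat_lit 192306), .ofNat (nat_lit 306337), .ofNat (nat_lit 200000), .ofNat (nat_lit 351886), .ofNat (nat_lit 194266), .ofNat (nat_lit 306044), .ofNat (nat_lit 200000), .ofNat (nat_lit 352066)⟩⟩, [⟨nat_lit 7, nat_lit 70, nat_lit 100, nat_lit 89, nat_lit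 15709576⟩]⟩
noncomputable def p116_l108 : Lf2 := ⟨nat_lit 0, nat_lit 30, [nat_lit 15, nat_lit 5, nat_lit 5, nat_lit 20], false, nat_lit 80, nat_lit 160, nat_lit 0, nat_lit 360, ⟨nat_lit 236, nat_lit 19, nat_lit 745, nat_lit 6, nat_lit 259, nat_lit 764, nat_lit 105, nat_lit 745, nat_lit 104017, nat_lit 294, nat_lit 93454, nat_lit 200, nat_lit 43460029, nat_lit 18949866, nat_lit 4590105, nat_lit 4357411, true, true⟩,
 nat_lit 3996, nat_lit 0, nat_lit 0, nat_lit 0, nat_lit 3537, nat_lit 2219, nat_lit 0, nat_lit 0, nat_lit 0, nat_lit 131, nat_lit 0, nat_lit 0, nat_lit 0, nat_lit 0, nat_lit 2, nat_lit 150025, nat_lit 0, nat_lit 0, [(nat_lit 29, [(nat_lit 0, nat_lit 19), (nat_lit 3, nat_lit 745)])],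
 ⟨p116_k0, nat_lit 0, nat_lit 0, nat_lit 178, nat_lit 0, nat_lit 202421, [nat_lit 1097690401, nat_lit 148718800, nat_lit 226202400], [], [nat_lit 23828546406, nat_lit 24142216691, nat_lit 25156052422, nat_lit 25449418063, nat_lit 24153080444, nat_lit 24425893694, nat_lit 25336733618, nat_lit 25590285240], nat_lit 1271250, nat_lit 1271250, nat_lit 1271250, nat_lit 1271250, nat_lit 490000, nat_lit 1100001, [nat_lit 230000, nat_lit 1100000, nat_lit 1785000], [nat_lit 57, nat_lit 40, nat_lit 40, nat_lit 80, nat_lit 7, nat_lit 249, nat_lit 40, nat_lit 7]⟩, ⟨p116_k5, nat_lit 0, nat_lit 0, nat_lit 477, nat_lit 0, nat_lit 398096, [nat_lit 1106368000, nat_lit 2322712000, nat_lit 3317688000], [], [nat_lit 9080134093, nat_lit 9149723414, nat_lit 9347619015, nat_lit 9406335974, nat_lit 8730588801, nat_lit 8246945546, nat_lit 8057829994, nat_lit 8068279047], nat_lit 1271250, nat_lit 1271250, nat_lit 1271250, nat_lit 1271250, nat_lit 0,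 nat_lit 2542500, [nat_lit 1100000, nat_lit 2127500, nat_lit 1271250], [nat_lit 56, nat_lit 40, nat_lit 40, nat_lit 80, nat_lit 32, nat_lit 456, nat_lit 225, nat_lit 10]⟩,
 ⟨nat_lit 1936, nat_lit 2237, ⟨.ofNat (nat_lit 613945), .ofNat (nat_lit 670965), .ofNat (nat_lit 625327), .ofNat (nat_lit 682352), .ofNat (nat_lit 613410), .ofNat (nat_lit 669304), .ofNat (nat_lit 624911), .ofNat (nat_lit 680809)⟩, ⟨.ofNat (nat_lit 192306), .ofNat (nat_lit 306337), .ofNat (nat_lit 200000), .ofNat (nat_lit 351886), .ofNat (nat_lit 194266), .ofNat (nat_lit 306044), .ofNat (nat_lit 200000), .ofNat (nat_lit 352066)⟩⟩, [⟨nat_lit 4, nat_lit 100, nat_lit 41, nat_lit 87, nat_lit 3307774⟩, ⟨nat_lit 7, nat_lit 75, nat_lit 100, nat_lit 90, nat_lit 30499950⟩]⟩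
noncomputable def p116_l109 : Lf2 := ⟨nat_lit 0, nat_lit 30, [nat_lit 15, nat_lit 5, nat_lit 5, nat_lit 20], false, nat_lit 80, nat_lit 160, nat_lit 0, nat_lit 364, ⟨nat_lit 172, nat_lit 388, nat_lit 440, nat_lit 6, nat_lit 256, nat_lit 828, nat_lit 105, nat_lit 439, nat_lit 104017, nat_lit 294, nat_lit 90368, nat_lit 200, nat_lit 43704335, nat_lit 18680649, nat_lit 4615016, nat_lit 4344707, true, true⟩,
 nat_lit 3538, nat_lit 0, nat_lit 0, nat_lit 0, nat_lit 3363, nat_lit 1873, nat_lit 0, nat_lit 0, nat_lit 0, nat_lit 124, nat_lit 0, nat_lit 0, nat_lit 0, nat_lit 0, nat_lit 0, nat_lit 182800, nat_lit 0, nat_lit 0, [(nat_lit 29, [(nat_lit 0, nat_lit 388), (nat_lit 3, nat_lit 440)])],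
 ⟨p116_k41, nat_lit 0, nat_lit 0, nat_lit 168, nat_lit 0, nat_lit 224953, [nat_lit 968660801, nat_lit 745323201, nat_lit 887243200], [], [nat_lit 23819315661, nat_lit 24130724086, nat_lit 25207332037, nat_lit 25582025166, nat_lit 24306245046, nat_lit 24557742404, nat_lit 25502275277, nat_lit 25762660088], nat_lit 1271250, nat_lit 1271250, nat_lit 1271250, nat_lit 1271250, nat_lit 490000, nat_lit 1100001, [nat_lit 230000, nat_lit 1100000, nat_lit 1442500], [nat_lit 55, nat_lit 40, nat_lit 40, nat_lit 80, nat_lit 3, nat_lit 249, nat_lit 40, nat_lit 8]⟩, ⟨p116_k1, nat_lit 0, nat_lit 0, nat_lit 618, nat_lit 0, nat_lit 482802, [nat_lit 806336000, nat_lit 1692824000, nat_lit 2820800000], [], [nat_lit 6574080416, nat_lit 6655341138, nat_lit 6802164960, nat_lit 6925972314, nat_lit 6733311468, nat_lit 5917868141, nat_lit 5623498514, nat_lit 5654161792], nat_lit 1271250, nat_lit 1271250, nat_lit 1271250, nat_lit 1271250, nat_lit 0, nat_lit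 2570750, [nat_lit 1100000, nat_lit 2127500, nat_lit 1271250], [nat_lit 83, nat_lit 40, nat_lit 40, nat_lit 80, nat_lit 73, nat_lit 483, nat_lit 250, nat_lit 10]⟩,
 ⟨nat_lit 1581, nat_lit 1937, ⟨.ofNat (nat_lit 601908), .ofNat (nat_lit 657798), .ofNat (nat_lit 624905), .ofNat (nat_lit 680809), .ofNat (nat_lit 601263), .ofNat (nat_lit 655900), .ofNat (nat_lit 624564), .ofNat (nat_lit 679215)⟩, ⟨.ofNat (nat_lit 194266), .ofNat (nat_lit 306044), .ofNat (nat_lit 200000), .ofNat (nat_lit 352066), .ofNat (nat_lit 196201), .ofNat (nat_lit 305473), .ofNat (nat_lit 200000), .ofNat (nat_lit 352103)⟩⟩, [⟨nat_lit 4, nat_lit 100, nat_lit 35, nat_lit 88, nat_lit 14073307⟩, ⟨nat_lit 19, nat_lit 100, nat_lit 72, nat_lit 89, nat_lit 18270007⟩]⟩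
noncomputable def p116_l110 : Lf2 := ⟨nat_lit 0, nat_lit 30, [nat_lit 15, nat_lit 5, nat_lit 5, nat_lit 20], false, nat_lit 160, nat_lit 208, nat_lit 0, nat_lit 160, ⟨nat_lit 316, nat_lit 120, nat_lit 564, nat_lit 6, nat_lit 257, nat_lit 684, nat_lit 145, nat_lit 564, nat_lit 198017, nat_lit 324, nat_lit 93454, nat_lit 200, nat_lit 41546409, nat_lit 18127223, nat_lit 7326368, nat_lit 4778662, true, true⟩,
 nat_lit 6157, nat_lit 0, nat_lit 0, nat_lit 0, nat_lit 2974, nat_lit 3259, nat_lit 103, nat_lit 0, nat_lit 0, nat_lit 208, nat_lit 0, nat_lit 0, nat_lit 0, nat_lit 0, nat_lit 0, nat_lit 171000, nat_lit 0, nat_lit 0, [(nat_lit 29, [(nat_lit 0, nat_lit 120), (nat_lit 4, nat_lit 564)])],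
 ⟨p116_k0, nat_lit 0, nat_lit 0, nat_lit 162, nat_lit 0, nat_lit 229780, [nat_lit 819742400, nat_lit 652817600, nat_lit 1035753600], [], [nat_lit 23680306594, nat_lit 24209284386, nat_lit 24860328434, nat_lit 25368768024, nat_lit 24587908590, nat_lit 25081180691, nat_lit 25760692546, nat_lit 26357205399], nat_lit 1271250, nat_lit 1271250, nat_lit 1271250, nat_lit 1271250, nat_lit 1100001, nat_lit 1511000, [nat_lit 230000, nat_lit 1100000, nat_lit 1785000], [nat_lit 57, nat_lit 40, nat_lit 40, nat_lit 80, nat_lit 7, nat_lit 272, nat_lit 60, nat_lit 7]⟩, ⟨p116_k1, nat_lit 0, nat_lit 0, nat_lit 618, nat_lit 0, nat_lit 482802, [nat_lit 1481408000, nat_lit 3110072000, nat_lit 5182400000], [], [nat_lit 12682889996, nat_lit 12738289726, nat_lit 12793689456, nat_lit 12878287122, nat_lit 10010685256, nat_lit 10122409554, nat_lit 10234133852, nat_lit 10323777988], nat_lit 1271250, nat_lit 1271250, nat_lit 1271250, nat_lit 1271250, nat_lit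 0, nat_lit 1100001, [nat_lit 1100000, nat_lit 2127500, nat_lit 1271250], [nat_lit 83, nat_lit 40, nat_lit 40, nat_lit 80, nat_lit 73, nat_lit 401, nat_lit 175, nat_lit 8]⟩,
 ⟨nat_lit 1581, nat_lit 2237, ⟨.ofNat (nat_lit 602558), .ofNat (nat_lit 659578), .ofNat (nat_lit 625287), .ofNat (nat_lit 682352), .ofNat (nat_lit 601260), .ofNat (nat_lit 655900), .ofNat (nat_lit 624529), .ofNat (nat_lit 679215)⟩, ⟨.ofNat (nat_lit 306337), .ofNat (nat_lit 374756), .ofNat (nat_lit 351886), .ofNat (nat_lit 420305), .ofNat (nat_lit 305473), .ofNat (nat_lit 371036), .ofNat (nat_lit 352103), .ofNat (nat_lit 417666)⟩⟩, [⟨nat_lit 16, nat_lit 38, nat_lit 100, nat_lit 87, nat_lit 501425379⟩, ⟨nat_lit 9, nat_lit 100, nat_lit 96, nat_lit 22, nat_lit 34543614⟩]⟩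
noncomputable def p116_l111 : Lf2 := ⟨nat_lit 0, nat_lit 30, [nat_lit 15, nat_lit 5, nat_lit 5, nat_lit 20], false, nat_lit 160, nat_lit 208, nat_lit 160, nat_lit 364, ⟨nat_lit 163, nat_lit 172, nat_lit 665, nat_lit 6, nat_lit 253, nat_lit 837, nat_lit 145, nat_lit 665, nat_lit 198017, nat_lit 324, nat_lit 59294, nat_lit 200, nat_lit 41804034, nat_lit 17826036, nat_lit 7369930, nat_lit 4765005, true, true⟩,
 nat_lit 3571, nat_lit 0, nat_lit 0, nat_lit 3252, nat_lit 3336, nat_lit 1890, nat_lit 0, nat_lit 0, nat_lit 0, nat_lit 122, nat_lit 0, nat_lit 0, nat_lit 0, nat_lit 0, nat_lit 3, nat_lit 172675, nat_lit 0, nat_lit 0, [(nat_lit 29, [(nat_lit 0, nat_lit 172), (nat_lit 3, nat_lit 665)])],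
 ⟨p116_k0, nat_lit 0, nat_lit 0, nat_lit 145, nat_lit 0, nat_lit 180235, [nat_lit 1061153201, nat_lit 169574401, nat_lit 164449200], [], [nat_lit 24138646033, nat_lit 24410551141, nat_lit 25326415473, nat_lit 25579027685, nat_lit 25027067752, nat_lit 25280245489, nat_lit 26125990401, nat_lit 26389718508], nat_lit 1271250, nat_lit 1271250, nat_lit 1271250, nat_lit 1271250, nat_lit 1100001, nat_lit 1511000, [nat_lit 230000, nat_lit 1100000, nat_lit 1785000], [nat_lit 57, nat_lit 40, nat_lit 40, nat_lit 80, nat_lit 7, nat_lit 272, nat_lit 60, nat_lit 7]⟩, ⟨p116_k1, nat_lit 0, nat_lit 0, nat_lit 415, nat_lit 0, nat_lit 378701, [nat_lit 764144000, nat_lit 1604246000, nat_lit 2673200000], [], [nat_lit 4353840116, nat_lit 4349833831, nat_lit 4491801182, nat_lit 4516640102, nat_lit 5152511977, nat_lit 5160850529, nat_lit 5219220391, nat_lit 5235749933], nat_lit 1271250, nat_lit 1271250, nat_lit 1271250, nat_lit 1271250, nat_lit 1271250,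 nat_lit 1271250, [nat_lit 1100000, nat_lit 2127500, nat_lit 1271250], [nat_lit 83, nat_lit 40, nat_lit 40, nat_lit 80, nat_lit 73, nat_lit 456, nat_lit 225, nat_lit 9]⟩,
 ⟨nat_lit 1936, nat_lit 2237, ⟨.ofNat (nat_lit 602562), .ofNat (nat_lit 659578), .ofNat (nat_lit 608254), .ofNat (nat_lit 665272), .ofNat (nat_lit 601908), .ofNat (nat_lit 657798), .ofNat (nat_lit 607659), .ofNat (nat_lit 663551)⟩, ⟨.ofNat (nat_lit 306337), .ofNat (nat_lit 374756), .ofNat (nat_lit 351886), .ofNat (nat_lit 420305), .ofNat (nat_lit 306044), .ofNat (nat_lit 373111), .ofNat (nat_lit 352066), .ofNat (nat_lit 419133)⟩⟩, [⟨nat_lit 4, nat_lit 100, nat_lit 41, nat_lit 87, nat_lit 340466409⟩, ⟨nat_lit 19, nat_lit 100, nat_lit 69, nat_lit 89, nat_lit 62669325⟩]⟩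
noncomputable def p116_l112 : Lf2 := ⟨nat_lit 0, nat_lit 30, [nat_lit 15, nat_lit 5, nat_lit 5, nat_lit 20], false, nat_lit 160, nat_lit 208, nat_lit 160, nat_lit 364, ⟨nat_lit 268, nat_lit 0, nat_lit 732, nat_lit 6, nat_lit 256, nat_lit 732, nat_lit 145, nat_lit 732, nat_lit 198017, nat_lit 324, nat_lit 70680, nat_lit 200, nat_lit 41611798, nat_lit 0, nat_lit 0, nat_lit 4776259, true, true⟩,
 nat_lit 5504, nat_lit 0, nat_lit 0, nat_lit 1334, nat_lit 3555, nat_lit 2985, nat_lit 0, nat_lit 0, nat_lit 0, nat_lit 199, nat_lit 0, nat_lit 0, nat_lit 0, nat_lit 0, nat_lit 0, nat_lit 142740, nat_lit 0, nat_lit 0, [(nat_lit 29, [(nat_lit 3, nat_lit 732)])],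
 ⟨p116_k0, nat_lit 0, nat_lit 0, nat_lit 147, nat_lit 0, nat_lit 187139, [nat_lit 1089963200, nat_lit 255008001, nat_lit 425179200], [], [nat_lit 24376293230, nat_lit 24649727723, nat_lit 25564961580, nat_lit 25829775705, nat_lit 25251967664, nat_lit 25506428916, nat_lit 26345939859, nat_lit 26592029040], nat_lit 1271250, nat_lit 1271250, nat_lit 1271250, nat_lit 1271250, nat_lit 1100001, nat_lit 1511000, [nat_lit 230000, nat_lit 1100000, nat_lit 1785000], [nat_lit 57, nat_lit 40, nat_lit 40, nat_lit 80, nat_lit 7, nat_lit 272, nat_lit 60, nat_lit 7]⟩, ⟨p116_k42, nat_lit 0, nat_lit 0, nat_lit 415, nat_lit 0, nat_lit 380283, [nat_lit 1256384000, nat_lit 2637656000, nat_lit 4395200000], [], [nat_lit 7177294416, nat_lit 7200411028, nat_lit 7415333569, nat_lit 7455821366, nat_lit 8472308179, nat_lit 8486592527, nat_lit 8581697723, nat_lit 8591096832], nat_lit 1271250, nat_lit 1271250, nat_lit 1271250, nat_lit 1271250, nat_lit 1271250,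 nat_lit 1271250, [nat_lit 1100000, nat_lit 2127500, nat_lit 1271250], [nat_lit 83, nat_lit 40, nat_lit 40, nat_lit 80, nat_lit 73, nat_lit 456, nat_lit 225, nat_lit 9]⟩,
 ⟨nat_lit 1936, nat_lit 2237, ⟨.ofNat (nat_lit 608254), .ofNat (nat_lit 665272), .ofNat (nat_lit 613945), .ofNat (nat_lit 670965), .ofNat (nat_lit 607659), .ofNat (nat_lit 663551), .ofNat (nat_lit 613410), .ofNat (nat_lit 669304)⟩, ⟨.ofNat (nat_lit 306337), .ofNat (nat_lit 374756), .ofNat (nat_lit 351886), .ofNat (nat_lit 420305), .ofNat (nat_lit 306044), .ofNat (nat_lit 373111), .ofNat (nat_lit 352066), .ofNat (nat_lit 419133)⟩⟩, [⟨nat_lit 4, nat_lit 100, nat_lit 41, nat_lit 87, nat_lit 382729007⟩, ⟨nat_lit 7, nat_lit 71, nat_lit 100, nat_lit 89, nat_lit 102026047⟩]⟩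
noncomputable def p116_l113 : Lf2 := ⟨nat_lit 0, nat_lit 30, [nat_lit 15, nat_lit 5, nat_lit 5, nat_lit 20], false, nat_lit 160, nat_lit 196, nat_lit 160, nat_lit 364, ⟨nat_lit 259, nat_lit 216, nat_lit 525, nat_lit 6, nat_lit 254, nat_lit 741, nat_lit 142, nat_lit 525, nat_lit 187267, nat_lit 321, nat_lit 67358, nat_lit 200, nat_lit 41954849, nat_lit 17945730, nat_lit 7099421, nat_lit 4731710, true, true⟩,
 nat_lit 5621, nat_lit 0, nat_lit 0, nat_lit 0, nat_lit 3376, nat_lit 2975, nat_lit 0, nat_lit 0, nat_lit 0, nat_lit 191, nat_lit 0, nat_lit 0, nat_lit 0, nat_lit 0, nat_lit 0, nat_lit 156375, nat_lit 0, nat_lit 0, [(nat_lit 29, [(nat_lit 0, nat_lit 216), (nat_lit 3, nat_lit 525)])],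
 ⟨p116_k41, nat_lit 0, nat_lit 0, nat_lit 138, nat_lit 0, nat_lit 210757, [nat_lit 1013207601, nat_lit 801484400, nat_lit 953562400], [], [nat_lit 24301565206, nat_lit 24587085658, nat_lit 25545207120, nat_lit 25821937568, nat_lit 25009575381, nat_lit 25280177466, nat_lit 26182340595, nat_lit 26500414016], nat_lit 1271250, nat_lit 1271250, nat_lit 1271250, nat_lit 1271250, nat_lit 1100001, nat_lit 1408250, [nat_lit 230000, nat_lit 1100000, nat_lit 1442500], [nat_lit 55, nat_lit 40, nat_lit 40, nat_lit 80, nat_lit 3, nat_lit 260, nat_lit 50, nat_lit 8]⟩, ⟨p116_k1, nat_lit 0, nat_lit 0, nat_lit 444, nat_lit 0, nat_lit 452333, [nat_lit 1214192000, nat_lit 2549078000, nat_lit 4247600000], [], [nat_lit 6982383177, nat_lit 7026746139, nat_lit 7193915981, nat_lit 7272690418, nat_lit 8243035038, nat_lit 8269798035, nat_lit 8350087023, nat_lit 8367157035], nat_lit 1271250, nat_lit 1271250, nat_lit 1271250, nat_lit 1271250, nat_lit 1271250,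 nat_lit 1271250, [nat_lit 1100000, nat_lit 2127500, nat_lit 1271250], [nat_lit 83, nat_lit 40, nat_lit 40, nat_lit 80, nat_lit 73, nat_lit 456, nat_lit 225, nat_lit 9]⟩,
 ⟨nat_lit 1581, nat_lit 1937, ⟨.ofNat (nat_lit 601908), .ofNat (nat_lit 657798), .ofNat (nat_lit 613407), .ofNat (nat_lit 669304), .ofNat (nat_lit 601263), .ofNat (nat_lit 655900), .ofNat (nat_lit 612914), .ofNat (nat_lit 667558)⟩, ⟨.ofNat (nat_lit 306044), .ofNat (nat_lit 356345), .ofNat (nat_lit 352066), .ofNat (nat_lit 402366), .ofNat (nat_lit 305473), .ofNat (nat_lit 354645), .ofNat (nat_lit 352103), .ofNat (nat_lit 401275)⟩⟩, [⟨nat_lit 16, nat_lit 38, nat_lit 100, nat_lit 92, nat_lit 415899295⟩, ⟨nat_lit 19, nat_lit 100, nat_lit 59, nat_lit 94, nat_lit 74465640⟩, ⟨nat_lit 7, nat_lit 70, nat_lit 100, nat_lit 89, nat_lit 19917775⟩]⟩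
noncomputable def p116_l114 : Lf2 := ⟨nat_lit 0, nat_lit 30, [nat_lit 15, nat_lit 5, nat_lit 5, nat_lit 20], false, nat_lit 160, nat_lit 208, nat_lit 160, nat_lit 360, ⟨nat_lit 357, nat_lit 0, nat_lit 643, nat_lit 6, nat_lit 259, nat_lit 643, nat_lit 145, nat_lit 643, nat_lit 198017, nat_lit 324, nat_lit 93454, nat_lit 200, nat_lit 41324071, nat_lit 0, nat_lit 0, nat_lit 4792537, true, true⟩,
 nat_lit 6930, nat_lit 0, nat_lit 0, nat_lit 0, nat_lit 3949, nat_lit 3850, nat_lit 25, nat_lit 0, nat_lit 0, nat_lit 249, nat_lit 0, nat_lit 0, nat_lit 0, nat_lit 0, nat_lit 0, nat_lit 125385, nat_lit 0, nat_lit 0, [(nat_lit 29, [(nat_lit 3, nat_lit 643)])],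
 ⟨p116_k0, nat_lit 0, nat_lit 0, nat_lit 152, nat_lit 0, nat_lit 202421, [nat_lit 1071486800, nat_lit 793992000, nat_lit 1342270800], [], [nat_lit 24709158394, nat_lit 25009238690, nat_lit 25945886234, nat_lit 26223416709, nat_lit 25561950570, nat_lit 25840268466, nat_lit 26697493198, nat_lit 26955244182], nat_lit 1271250, nat_lit 1271250, nat_lit 1271250, nat_lit 1271250, nat_lit 1100001, nat_lit 1511000, [nat_lit 230000, nat_lit 1100000, nat_lit 1785000], [nat_lit 57, nat_lit 40, nat_lit 40, nat_lit 80, nat_lit 7, nat_lit 272, nat_lit 60, nat_lit 7]⟩, ⟨p116_k5, nat_lit 0, nat_lit 0, nat_lit 361, nat_lit 0, nat_lit 398096, [nat_lit 1673616000, nat_lit 3513594000, nat_lit 5018706000], [], [nat_lit 9392036954, nat_lit 9477520940, nat_lit 9718332637, nat_lit 9788176362, nat_lit 11065109510, nat_lit 11129294267, nat_lit 11307143054, nat_lit 11356622326], nat_lit 1271250, nat_lit 1271250, nat_lit 1271250, nat_lit 1271250, nat_lit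 1271250, nat_lit 1271250, [nat_lit 1100000, nat_lit 2127500, nat_lit 1271250], [nat_lit 56, nat_lit 40, nat_lit 40, nat_lit 80, nat_lit 32, nat_lit 456, nat_lit 225, nat_lit 10]⟩,
 ⟨nat_lit 1936, nat_lit 2237, ⟨.ofNat (nat_lit 613945), .ofNat (nat_lit 670965), .ofNat (nat_lit 625327), .ofNat (nat_lit 682352), .ofNat (nat_lit 613410), .ofNat (nat_lit 669304), .ofNat (nat_lit 624911), .ofNat (nat_lit 680809)⟩, ⟨.ofNat (nat_lit 306337), .ofNat (nat_lit 374756), .ofNat (nat_lit 351886), .ofNat (nat_lit 420305), .ofNat (nat_lit 306044), .ofNat (nat_lit 373111), .ofNat (nat_lit 352066), .ofNat (nat_lit 419133)⟩⟩, [⟨nat_lit 4, nat_lit 100, nat_lit 41, nat_lit 87, nat_lit 422521833⟩, ⟨nat_lit 7, nat_lit 75, nat_lit 100, nat_lit 90, nat_lit 136507056⟩]⟩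
noncomputable def p116_l115 : Lf2 := ⟨nat_lit 0, nat_lit 30, [nat_lit 15, nat_lit 5, nat_lit 5, nat_lit 20], false, nat_lit 160, nat_lit 196, nat_lit 160, nat_lit 360, ⟨nat_lit 309, nat_lit 691, nat_lit 0, nat_lit 6, nat_lit 259, nat_lit 691, nat_lit 142, nat_lit 0, nat_lit 0, nat_lit 0, nat_lit 0, nat_lit 0, nat_lit 41562635, nat_lit 18378121, nat_lit 7059244, nat_lit 4754201, true, true⟩,
 nat_lit 5794, nat_lit 0, nat_lit 0, nat_lit 0, nat_lit 4981, nat_lit 3218, nat_lit 0, nat_lit 0, nat_lit 0, nat_lit 215, nat_lit 0, nat_lit 0, nat_lit 0, nat_lit 0, nat_lit 0, nat_lit 172750, nat_lit 0, nat_lit 0, [(nat_lit 29, [(nat_lit 0, nat_lit 691)])],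
 ⟨p116_k41, nat_lit 0, nat_lit 0, nat_lit 142, nat_lit 0, nat_lit 224953, [nat_lit 829927601, nat_lit 2399684400, nat_lit 3165652400], [], [nat_lit 25793832058, nat_lit 26157666424, nat_lit 27183060220, nat_lit 27517487208, nat_lit 26448256820, nat_lit 26790898060, nat_lit 27742485047, nat_lit 28058773037], nat_lit 1271250, nat_lit 1271250, nat_lit 1271250, nat_lit 1271250, nat_lit 1100001, nat_lit 1408250, [nat_lit 230000, nat_lit 1100000, nat_lit 1442500], [nat_lit 55, nat_lit 40, nat_lit 40, nat_lit 80, nat_lit 3, nat_lit 260, nat_lit 50, nat_lit 8]⟩, ⟨p116_k5, nat_lit 0, nat_lit 0, nat_lit 384, nat_lit 0, nat_lit 451903, [nat_lit 1448592000, nat_lit 3041178000, nat_lit 4343922000], [], [nat_lit 8333740434, nat_lit 8407521852, nat_lit 8615727829, nat_lit 8676370970, nat_lit 9659992368, nat_lit 9702305597, nat_lit 9842910696, nat_lit 9893116799], nat_lit 1271250, nat_lit 1271250, nat_lit 1271250, nat_lit 1271250, nat_lit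 1271250, nat_lit 1271250, [nat_lit 1100000, nat_lit 2127500, nat_lit 1271250], [nat_lit 56, nat_lit 40, nat_lit 40, nat_lit 80, nat_lit 32, nat_lit 456, nat_lit 225, nat_lit 10]⟩,
 ⟨nat_lit 1581, nat_lit 1937, ⟨.ofNat (nat_lit 613407), .ofNat (nat_lit 669304), .ofNat (nat_lit 624905), .ofNat (nat_lit 680809), .ofNat (nat_lit 612914), .ofNat (nat_lit 667558), .ofNat (nat_lit 624564), .ofNat (nat_lit 679215)⟩, ⟨.ofNat (nat_lit 306044), .ofNat (nat_lit 356345), .ofNat (nat_lit 352066), .ofNat (nat_lit 402366), .ofNat (nat_lit 305473), .ofNat (nat_lit 354645), .ofNat (nat_lit 352103), .ofNat (nat_lit 401275)⟩⟩, [⟨nat_lit 16, nat_lit 38, nat_lit 100, nat_lit 92, nat_lit 428397424⟩, ⟨nat_lit 19, nat_lit 100, nat_lit 64, nat_lit 95, nat_lit 108039220⟩]⟩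
noncomputable def p116_l116 : Lf2 := ⟨nat_lit 0, nat_lit 30, [nat_lit 15, nat_lit 5, nat_lit 5, nat_lit 20], false, nat_lit 80, nat_lit 120, nat_lit 0, nat_lit 364, ⟨nat_lit 146, nat_lit 404, nat_lit 450, nat_lit 6, nat_lit 255, nat_lit 854, nat_lit 95, nat_lit 450, nat_lit 84017, nat_lit 286, nat_lit 87180, nat_lit 200, nat_lit 44315638, nat_lit 18729025, nat_lit 3955337, nat_lit 4211443, true, true⟩,
 nat_lit 2994, nat_lit 0, nat_lit 0, nat_lit 0, nat_lit 2894, nat_lit 1584, nat_lit 0, nat_lit 0, nat_lit 0, nat_lit 105, nat_lit 0, nat_lit 0, nat_lit 0, nat_lit 0, nat_lit 0, nat_lit 213500, nat_lit 0, nat_lit 0, [(nat_lit 29, [(nat_lit 0, nat_lit 404), (nat_lit 4, nat_lit 450)])],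
 ⟨p116_k18, nat_lit 0, nat_lit 0, nat_lit 199, nat_lit 0, nat_lit 273368, [nat_lit 795434401, nat_lit 440053601, nat_lit 454305600], [], [nat_lit 23922932925, nat_lit 24426538299, nat_lit 25062410079, nat_lit 25603951136, nat_lit 24226605654, nat_lit 24708570987, nat_lit 25319483679, nat_lit 25801171975], nat_lit 1271250, nat_lit 1271250, nat_lit 1271250, nat_lit 1271250, nat_lit 490000, nat_lit 780000, [nat_lit 230000, nat_lit 1100000, nat_lit 1442500], [nat_lit 55, nat_lit 40, nat_lit 40, nat_lit 80, nat_lit 3, nat_lit 238, nat_lit 30, nat_lit 7]⟩, ⟨p116_k1, nat_lit 0, nat_lit 0, nat_lit 660, nat_lit 0, nat_lit 599148, [nat_lit 684448000, nat_lit 1436932000, nat_lit 2394400000], [], [nat_lit 5592258328, nat_lit 5661214724, nat_lit 5772441675, nat_lit 5877421067, nat_lit 5719166101, nat_lit 5029543981, nat_lit 4780888106, nat_lit 4808396397], nat_lit 1271250, nat_lit 1271250, nat_lit 1271250, nat_lit 1271250, nat_lit 0, nat_lit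 2570750, [nat_lit 1100000, nat_lit 2127500, nat_lit 1271250], [nat_lit 83, nat_lit 40, nat_lit 40, nat_lit 80, nat_lit 73, nat_lit 483, nat_lit 250, nat_lit 10]⟩,
 ⟨nat_lit 0, nat_lit 1582, ⟨.ofNat (nat_lit 601257), .ofNat (nat_lit 655899), .ofNat (nat_lit 623921), .ofNat (nat_lit 679215), .ofNat (nat_lit 599992), .ofNat (nat_lit 649998), .ofNat (nat_lit 624340), .ofNat (nat_lit 674999)⟩, ⟨.ofNat (nat_lit 196201), .ofNat (nat_lit 250836), .ofNat (nat_lit 200000), .ofNat (nat_lit 297467), .ofNat (nat_lit 199999), .ofNat (nat_lit 249998), .ofNat (nat_lit 200000), .ofNat (nat_lit 299999)⟩⟩, [⟨nat_lit 4, nat_lit 100, nat_lit 23, nat_lit 91, nat_lit 13391356⟩, ⟨nat_lit 22, nat_lit 100, nat_lit 77, nat_lit 91, nat_lit 15118448⟩]⟩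
noncomputable def p116_l117 : Lf2 := ⟨nat_lit 0, nat_lit 30, [nat_lit 15, nat_lit 5, nat_lit 5, nat_lit 20], false, nat_lit 120, nat_lit 184, nat_lit 0, nat_lit 364, ⟨nat_lit 177, nat_lit 395, nat_lit 428, nat_lit 6, nat_lit 256, nat_lit 823, nat_lit 127, nat_lit 428, nat_lit 150417, nat_lit 310, nat_lit 87180, nat_lit 200, nat_lit 42595269, nat_lit 18337454, nat_lit 6067277, nat_lit 4589894, true, true⟩,
 nat_lit 3781, nat_lit 0, nat_lit 0, nat_lit 0, nat_lit 3357, nat_lit 2001, nat_lit 0, nat_lit 0, nat_lit 0, nat_lit 128, nat_lit 0, nat_lit 0, nat_lit 0, nat_lit 0, nat_lit 0, nat_lit 182210, nat_lit 0, nat_lit 0, [(nat_lit 29, [(nat_lit 0, nat_lit 395), (nat_lit 3, nat_lit 428)])],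
 ⟨p116_k18, nat_lit 0, nat_lit 0, nat_lit 164, nat_lit 0, nat_lit 246713, [nat_lit 965074801, nat_lit 794626801, nat_lit 955022000], [], [nat_lit 24441753494, nat_lit 24701666198, nat_lit 25697014523, nat_lit 26022055565, nat_lit 25085117432, nat_lit 25353499906, nat_lit 26244906135, nat_lit 26567510406], nat_lit 1271250, nat_lit 1271250, nat_lit 1271250, nat_lit 1271250, nat_lit 780000, nat_lit 1304000, [nat_lit 230000, nat_lit 1100000, nat_lit 1442500], [nat_lit 55, nat_lit 40, nat_lit 40, nat_lit 80, nat_lit 3, nat_lit 260, nat_lit 50, nat_lit 8]⟩, ⟨p116_k1, nat_lit 0, nat_lit 0, nat_lit 639, nat_lit 0, nat_lit 540728, [nat_lit 829776000, nat_lit 1742034000, nat_lit 2902800000], [], [nat_lit 6759870648, nat_lit 6913267878, nat_lit 7066665108, nat_lit 7195485630, nat_lit 6882942698, nat_lit 6011772330, nat_lit 5759000884, nat_lit 5783112663], nat_lit 1271250, nat_lit 1271250, nat_lit 1271250, nat_lit 1271250, nat_lit 0, nat_lit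 2570750, [nat_lit 1100000, nat_lit 2127500, nat_lit 1271250], [nat_lit 83, nat_lit 40, nat_lit 40, nat_lit 80, nat_lit 73, nat_lit 483, nat_lit 250, nat_lit 10]⟩,
 ⟨nat_lit 1118, nat_lit 1582, ⟨.ofNat (nat_lit 601263), .ofNat (nat_lit 655900), .ofNat (nat_lit 624546), .ofNat (nat_lit 679215), .ofNat (nat_lit 600626), .ofNat (nat_lit 653755), .ofNat (nat_lit 624345), .ofNat (nat_lit 677505)⟩, ⟨.ofNat (nat_lit 250837), .ofNat (nat_lit 338254), .ofNat (nat_lit 297467), .ofNat (nat_lit 384884), .ofNat (nat_lit 251239), .ofNat (nat_lit 336242), .ofNat (nat_lit 298741), .ofNat (nat_lit 383744)⟩⟩, [⟨nat_lit 16, nat_lit 31, nat_lit 100, nat_lit 92, nat_lit 291461541⟩, ⟨nat_lit 19, nat_lit 100, nat_lit 72, nat_lit 89, nat_lit 17147204⟩]⟩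
noncomputable def p116_l118 : Lf2 := ⟨nat_lit 0, nat_lit 30, [nat_lit 15, nat_lit 5, nat_lit 5, nat_lit 20], false, nat_lit 120, nat_lit 164, nat_lit 0, nat_lit 364, ⟨nat_lit 157, nat_lit 424, nat_lit 419, nat_lit 6, nat_lit 255, nat_lit 843, nat_lit 121, nat_lit 419, nat_lit 138017, nat_lit 306, nat_lit 83760, nat_lit 200, nat_lit 42957602, nat_lit 18362971, nat_lit 5679427, nat_lit 4523897, true, true⟩,
 nat_lit 3220, nat_lit 0, nat_lit 0, nat_lit 0, nat_lit 3166, nat_lit 1704, nat_lit 0, nat_lit 0, nat_lit 0, nat_lit 113, nat_lit 0, nat_lit 0, nat_lit 0, nat_lit 0, nat_lit 0, nat_lit 197440, nat_lit 0, nat_lit 0, [(nat_lit 29, [(nat_lit 0, nat_lit 424), (nat_lit 3, nat_lit 242), (nat_lit 4, nat_lit 177)])],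
 ⟨p116_k43, nat_lit 0, nat_lit 0, nat_lit 172, nat_lit 0, nat_lit 267760, [nat_lit 890702801, nat_lit 677481201, nat_lit 790105600], [], [nat_lit 24664892661, nat_lit 24914799579, nat_lit 25839319419, nat_lit 26124378088, nat_lit 24982796913, nat_lit 25219928081, nat_lit 26071583691, nat_lit 26331676576], nat_lit 1271250, nat_lit 1271250, nat_lit 1271250, nat_lit 1271250, nat_lit 780000, nat_lit 1133651, [nat_lit 230000, nat_lit 1100000, nat_lit 1442500], [nat_lit 55, nat_lit 40, nat_lit 40, nat_lit 80, nat_lit 3, nat_lit 260, nat_lit 50, nat_lit 8]⟩, ⟨p116_k1, nat_lit 0, nat_lit 0, nat_lit 660, nat_lit 0, nat_lit 599148, [nat_lit 736016000, nat_lit 1545194000, nat_lit 2574800000], [], [nat_lit 6012256508, nat_lit 6086410570, nat_lit 6206483931, nat_lit 6319385371, nat_lit 6149650017, nat_lit 5407783797, nat_lit 5139847456, nat_lit 5169415729], nat_lit 1271250, nat_lit 1271250, nat_lit 1271250, nat_lit 1271250, nat_lit 0, nat_lit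 2570750, [nat_lit 1100000, nat_lit 2127500, nat_lit 1271250], [nat_lit 83, nat_lit 40, nat_lit 40, nat_lit 80, nat_lit 73, nat_lit 483, nat_lit 250, nat_lit 10]⟩,
 ⟨nat_lit 0, nat_lit 1119, ⟨.ofNat (nat_lit 600626), .ofNat (nat_lit 653753), .ofNat (nat_lit 623914), .ofNat (nat_lit 677505), .ofNat (nat_lit 599998), .ofNat (nat_lit 649997), .ofNat (nat_lit 624534), .ofNat (nat_lit 674999)⟩, ⟨.ofNat (nat_lit 251237), .ofNat (nat_lit 309675), .ofNat (nat_lit 298741), .ofNat (nat_lit 357179), .ofNat (nat_lit 249997), .ofNat (nat_lit 304995), .ofNat (nat_lit 299999), .ofNat (nat_lit 354998)⟩⟩, [⟨nat_lit 4, nat_lit 100, nat_lit 17, nat_lit 93, nat_lit 411688261⟩, ⟨nat_lit 7, nat_lit 72, nat_lit 100, nat_lit 89, nat_lit 16629633⟩]⟩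
noncomputable def b_V_900_600_20_67 : St := ⟨true, nat_lit 1, nat_lit 1, nat_lit 1, nat_lit 120, nat_lit 380, nat_lit 400, nat_lit 240, nat_lit 260, nat_lit 240, nat_lit 280, nat_lit 80, nat_lit 120, nat_lit 80, nat_lit 208, nat_lit 0, nat_lit 364, nat_lit 80, nat_lit 120, nat_lit 0, nat_lit 0, nat_lit 0, nat_lit 0⟩
theorem d_V_900_600_20_67 (h : EB TB.env) : Dead b_V_900_600_20_67 := chkB_sound0 h (T :=
(.spl (nat_lit 0) (nat_lit 390)
(.spl (nat_lit 4) (nat_lit 160)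
(.spl (nat_lit 0) (nat_lit 385)
(.spl (nat_lit 1) (nat_lit 250)
(.leaf p116_l107)
(.trX (nat_lit 19) (nat_lit 100) (nat_lit 64) (nat_lit 95) (nat_lit 360) (.leaf p116_l108)))
(.leaf p116_l109))
(.spl (nat_lit 5) (nat_lit 160)
(.leaf p116_l110)
(.spl (nat_lit 1) (nat_lit 250)
(.spl (nat_lit 0) (nat_lit 385)
(.spl (nat_lit 1) (nat_lit 245)
(.leaf p116_l111)
(.leaf p116_l112))
(.trX (nat_lit 16) (nat_lit 38) (nat_lit 100) (nat_lit 92) (nat_lit 196) (.leaf p116_l113)))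
(.trX (nat_lit 19) (nat_lit 100) (nat_lit 64) (nat_lit 95) (nat_lit 360) (.spl (nat_lit 0) (nat_lit 385)
(.leaf p116_l114)
(.trX (nat_lit 16) (nat_lit 38) (nat_lit 100) (nat_lit 92) (nat_lit 196) (.leaf p116_l115)))))))
(.trX (nat_lit 16) (nat_lit 31) (nat_lit 100) (nat_lit 92) (nat_lit 184) (.spl (nat_lit 4) (nat_lit 120)
(.leaf p116_l116)
(.spl (nat_lit 0) (nat_lit 395)
(.leaf p116_l117)
(.trX (nat_lit 16) (nat_lit 23) (nat_lit 100) (nat_lit 93) (nat_lit 164) (.leaf p116_l118))))))) (by decide +kernel)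
noncomputable def p116_l119 : Lf2 := ⟨nat_lit 0, nat_lit 25, [nat_lit 44, nat_lit 5, nat_lit 5, nat_lit 20], false, nat_lit 80, nat_lit 188, nat_lit 0, nat_lit 352, ⟨nat_lit 200, nat_lit 800, nat_lit 0, nat_lit 7, nat_lit 278, nat_lit 800, nat_lit 110, nat_lit 0, nat_lit 0, nat_lit 0, nat_lit 0, nat_lit 0, nat_lit 41471439, nat_lit 20733382, nat_lit 4795179, nat_lit 4503681, true, true⟩,
 nat_lit 4024, nat_lit 0, nat_lit 0, nat_lit 0, nat_lit 3760, nat_lit 2130, nat_lit 0, nat_lit 0, nat_lit 0, nat_lit 124, nat_lit 0, nat_lit 0, nat_lit 0, nat_lit 0, nat_lit 0, nat_lit 259100, nat_lit 0, nat_lit 0, [(nat_lit 29, [(nat_lit 0, nat_lit 406), (nat_lit 1, nat_lit 394)])],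
 ⟨p116_k44, nat_lit 0, nat_lit 0, nat_lit 205, nat_lit 0, nat_lit 259810, [nat_lit 780099201, nat_lit 1574272801, nat_lit 2012314400], [], [nat_lit 26051184241, nat_lit 27286095840, nat_lit 28242705585, nat_lit 29470278721, nat_lit 26696211245, nat_lit 27782601681, nat_lit 28620921490, nat_lit 29615811334], nat_lit 1271250, nat_lit 1271250, nat_lit 1271250, nat_lit 1271250, nat_lit 490000, nat_lit 1333750, [nat_lit 230000, nat_lit 1100000, nat_lit 1442500], [nat_lit 55, nat_lit 40, nat_lit 40, nat_lit 80, nat_lit 3, nat_lit 260, nat_lit 50, nat_lit 8]⟩, ⟨p116_k23, nat_lit 0, nat_lit 0, nat_lit 567, nat_lit 0, nat_lit 541762, [nat_lit 937600000, nat_lit 1968400000, nat_lit 2811600000], [], [nat_lit 7980879800, nat_lit 8008937400, nat_lit 8305561460, nat_lit 8331436801, nat_lit 6569414880, nat_lit 6570069540, nat_lit 6868055240, nat_lit 6886437527], nat_lit 1271250, nat_lit 1271250, nat_lit 1271250, nat_lit 1271250, nat_lit 0,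 nat_lit 2486000, [nat_lit 1100000, nat_lit 2127500, nat_lit 1271250], [nat_lit 56, nat_lit 40, nat_lit 40, nat_lit 80, nat_lit 32, nat_lit 483, nat_lit 250, nat_lit 11]⟩,
 ⟨nat_lit 0, nat_lit 2237, ⟨.ofNat (nat_lit 659577), .ofNat (nat_lit 733694), .ofNat (nat_lit 670965), .ofNat (nat_lit 745082), .ofNat (nat_lit 649998), .ofNat (nat_lit 714995), .ofNat (nat_lit 662499), .ofNat (nat_lit 727495)⟩, ⟨.ofNat (nat_lit 192306), .ofNat (nat_lit 346243), .ofNat (nat_lit 200000), .ofNat (nat_lit 369018), .ofNat (nat_lit 199999), .ofNat (nat_lit 334994), .ofNat (nat_lit 200000), .ofNat (nat_lit 359995)⟩⟩, [⟨nat_lit 13, nat_lit 32, nat_lit 88, nat_lit 100, nat_lit 442463867⟩, ⟨nat_lit 4, nat_lit 100, nat_lit 32, nat_lit 87, nat_lit 187534257⟩, ⟨nat_lit 19, nat_lit 100, nat_lit 74, nat_lit 86, nat_lit 20992386⟩]⟩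
noncomputable def p116_l120 : Lf2 := ⟨nat_lit 0, nat_lit 25, [nat_lit 44, nat_lit 5, nat_lit 5, nat_lit 20], false, nat_lit 80, nat_lit 188, nat_lit 0, nat_lit 344, ⟨nat_lit 277, nat_lit 723, nat_lit 0, nat_lit 7, nat_lit 287, nat_lit 723, nat_lit 111, nat_lit 0, nat_lit 0, nat_lit 0, nat_lit 0, nat_lit 0, nat_lit 40682118, nat_lit 21539647, nat_lit 4778235, nat_lit 4542292, true, true⟩,
 nat_lit 5040, nat_lit 0, nat_lit 0, nat_lit 0, nat_lit 3239, nat_lit 2800, nat_lit 0, nat_lit 0, nat_lit 0, nat_lit 176, nat_lit 0, nat_lit 0, nat_lit 0, nat_lit 0, nat_lit 0, nat_lit 334800, nat_lit 0, nat_lit 0, [(nat_lit 29, [(nat_lit 1, nat_lit 647), (nat_lit 2, nat_lit 76)])],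
 ⟨p116_k44, nat_lit 0, nat_lit 0, nat_lit 178, nat_lit 0, nat_lit 218919, [nat_lit 799881200, nat_lit 1091628000, nat_lit 1285360800], [], [nat_lit 25439014456, nat_lit 25953536994, nat_lit 27773730289, nat_lit 28296802932, nat_lit 26302544348, nat_lit 26734623485, nat_lit 28347783631, nat_lit 28807999756], nat_lit 1271250, nat_lit 1271250, nat_lit 1271250, nat_lit 1271250, nat_lit 490000, nat_lit 1333750, [nat_lit 230000, nat_lit 1100000, nat_lit 1442500], [nat_lit 55, nat_lit 40, nat_lit 40, nat_lit 80, nat_lit 3, nat_lit 260, nat_lit 50, nat_lit 8]⟩, ⟨p116_k45, nat_lit 0, nat_lit 0, nat_lit 483, nat_lit 0, nat_lit 427590, [nat_lit 1298576000, nat_lit 2726234000, nat_lit 3894066000], [], [nat_lit 10693544090, nat_lit 10743095512, nat_lit 11369342127, nat_lit 11463234008, nat_lit 8876717117, nat_lit 8881789527, nat_lit 9381647039, nat_lit 9408851259], nat_lit 1271250, nat_lit 1271250, nat_lit 1271250, nat_lit 1271250, nat_lit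 0, nat_lit 2429500, [nat_lit 1100000, nat_lit 2127500, nat_lit 1271250], [nat_lit 56, nat_lit 40, nat_lit 40, nat_lit 80, nat_lit 32, nat_lit 483, nat_lit 250, nat_lit 11]⟩,
 ⟨nat_lit 1581, nat_lit 2237, ⟨.ofNat (nat_lit 670965), .ofNat (nat_lit 756489), .ofNat (nat_lit 682352), .ofNat (nat_lit 767876), .ofNat (nat_lit 667558), .ofNat (nat_lit 749511), .ofNat (nat_lit 679215), .ofNat (nat_lit 761169)⟩, ⟨.ofNat (nat_lit 192306), .ofNat (nat_lit 346248), .ofNat (nat_lit 200000), .ofNat (nat_lit 369022), .ofNat (nat_lit 196201), .ofNat (nat_lit 343718), .ofNat (nat_lit 200000), .ofNat (nat_lit 367033)⟩⟩, [⟨nat_lit 13, nat_lit 32, nat_lit 87, nat_lit 100, nat_lit 321300159⟩, ⟨nat_lit 4, nat_lit 100, nat_lit 39, nat_lit 85, nat_lit 232820004⟩, ⟨nat_lit 19, nat_lit 100, nat_lit 79, nat_lit 87, nat_lit 26570118⟩]⟩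
noncomputable def p116_l121 : Lf2 := ⟨nat_lit 0, nat_lit 25, [nat_lit 44, nat_lit 5, nat_lit 5, nat_lit 20], false, nat_lit 80, nat_lit 160, nat_lit 0, nat_lit 344, ⟨nat_lit 190, nat_lit 810, nat_lit 0, nat_lit 7, nat_lit 279, nat_lit 810, nat_lit 103, nat_lit 0, nat_lit 0, nat_lit 0, nat_lit 0, nat_lit 0, nat_lit 41754763, nat_lit 20912985, nat_lit 4332252, nat_lit 4421913, true, true⟩,
 nat_lit 3474, nat_lit 0, nat_lit 0, nat_lit 0, nat_lit 3359, nat_lit 1930, nat_lit 49, nat_lit 0, nat_lit 0, nat_lit 124, nat_lit 0, nat_lit 0, nat_lit 0, nat_lit 0, nat_lit 0, nat_lit 202500, nat_lit 0, nat_lit 0, [(nat_lit 29, [(nat_lit 0, nat_lit 810)])],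
 ⟨p116_k46, nat_lit 0, nat_lit 0, nat_lit 171, nat_lit 0, nat_lit 261074, [nat_lit 811316001, nat_lit 2005604000], [], [nat_lit 25859209553, nat_lit 26412840834, nat_lit 27459451386, nat_lit 28140318244, nat_lit 26214522032, nat_lit 26718497714, nat_lit 27546582641, nat_lit 28108031096], nat_lit 1271250, nat_lit 1271250, nat_lit 1271250, nat_lit 1271250, nat_lit 490000, nat_lit 1100001, [nat_lit 230000, nat_lit 1100000], [nat_lit 86, nat_lit 40, nat_lit 40, nat_lit 80, nat_lit 87, nat_lit 249, nat_lit 40, nat_lit 9]⟩, ⟨p116_k45, nat_lit 0, nat_lit 0, nat_lit 562, nat_lit 0, nat_lit 531706, [nat_lit 890720000, nat_lit 1869980000, nat_lit 2671020000], [], [nat_lit 7300802860, nat_lit 7337656780, nat_lit 7540897630, nat_lit 7569544080, nat_lit 6046018350, nat_lit 6049349760, nat_lit 6241973235, nat_lit 6264941459], nat_lit 1271250, nat_lit 1271250, nat_lit 1271250, nat_lit 1271250, nat_lit 0, nat_lit 2429500, [nat_lit 1100000,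 nat_lit 2127500, nat_lit 1271250], [nat_lit 56, nat_lit 40, nat_lit 40, nat_lit 80, nat_lit 32, nat_lit 483, nat_lit 250, nat_lit 11]⟩,
 ⟨nat_lit 0, nat_lit 1582, ⟨.ofNat (nat_lit 667557), .ofNat (nat_lit 722191), .ofNat (nat_lit 679215), .ofNat (nat_lit 733849), .ofNat (nat_lit 662498), .ofNat (nat_lit 712497), .ofNat (nat_lit 674999), .ofNat (nat_lit 724997)⟩, ⟨.ofNat (nat_lit 196201), .ofNat (nat_lit 305469), .ofNat (nat_lit 200000), .ofNat (nat_lit 328785), .ofNat (nat_lit 199999), .ofNat (nat_lit 299995), .ofNat (nat_lit 200000), .ofNat (nat_lit 324996)⟩⟩, [⟨nat_lit 13, nat_lit 23, nat_lit 91, nat_lit 100, nat_lit 323270711⟩, ⟨nat_lit 13, nat_lit 33, nat_lit 85, nat_lit 100, nat_lit 71399694⟩, ⟨nat_lit 16, nat_lit 24, nat_lit 100, nat_lit 89, nat_lit 215594297⟩, ⟨nat_lit 22, nat_lit 94, nat_lit 88, nat_lit 100, nat_lit 18466440⟩]⟩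
noncomputable def p116_l122 : Lf2 := ⟨nat_lit 0, nat_lit 30, [nat_lit 15, nat_lit 5, nat_lit 5, nat_lit 20], false, nat_lit 80, nat_lit 208, nat_lit 0, nat_lit 160, ⟨nat_lit 1000, nat_lit 0, nat_lit 0, nat_lit 0, nat_lit 0, nat_lit 0, nat_lit 0, nat_lit 0, nat_lit 0, nat_lit 0, nat_lit 0, nat_lit 0, nat_lit 0, nat_lit 0, nat_lit 0, nat_lit 0, false, false⟩,
 nat_lit 13450, nat_lit 0, nat_lit 0, nat_lit 0, nat_lit 3276, nat_lit 7120, nat_lit 533, nat_lit 0, nat_lit 0, nat_lit 711, nat_lit 0, nat_lit 0, nat_lit 0, nat_lit 0, nat_lit 0, nat_lit 0, nat_lit 0, nat_lit 0, [],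
 ⟨p116_k0, nat_lit 0, nat_lit 0, nat_lit 181, nat_lit 0, nat_lit 165715, [nat_lit 938000000, nat_lit 4688000000, nat_lit 7968000000], [], [nat_lit 25188513965, nat_lit 25652290957, nat_lit 27718519788, nat_lit 28358105082, nat_lit 26256736626, nat_lit 26653860233, nat_lit 28577504309, nat_lit 29120906307], nat_lit 1271250, nat_lit 1271250, nat_lit 1271250, nat_lit 1271250, nat_lit 490000, nat_lit 1490000, [nat_lit 230000, nat_lit 1100000, nat_lit 1785000], [nat_lit 57, nat_lit 40, nat_lit 40, nat_lit 80, nat_lit 7, nat_lit 272, nat_lit 60, nat_lit 7]⟩, ⟨p116_k1, nat_lit 0, nat_lit 0, nat_lit 507, nat_lit 0, nat_lit 348192, [nat_lit 4688000000, nat_lit 9842000000, nat_lit 16400000000], [], [nat_lit 40832020085, nat_lit 41217957685, nat_lit 42969838080, nat_lit 43507794360, nat_lit 36166291680, nat_lit 36534430400, nat_lit 37868506960, nat_lit 38151281360], nat_lit 1271250, nat_lit 1271250, nat_lit 1271250, nat_lit 1271250, nat_lit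 0, nat_lit 1100001, [nat_lit 1100000, nat_lit 2127500, nat_lit 1271250], [nat_lit 83, nat_lit 40, nat_lit 40, nat_lit 80, nat_lit 73, nat_lit 428, nat_lit 200, nat_lit 9]⟩,
 zbF0, [⟨nat_lit 16, nat_lit 38, nat_lit 100, nat_lit 90, nat_lit 633955470⟩]⟩
noncomputable def p116_l123 : Lf2 := ⟨nat_lit 0, nat_lit 30, [nat_lit 15, nat_lit 5, nat_lit 5, nat_lit 20], false, nat_lit 80, nat_lit 160, nat_lit 160, nat_lit 364, ⟨nat_lit 616, nat_lit 384, nat_lit 0, nat_lit 7, nat_lit 285, nat_lit 384, nat_lit 108, nat_lit 0, nat_lit 0, nat_lit 0, nat_lit 0, nat_lit 0, nat_lit 40959322, nat_lit 21414746, nat_lit 4625932, nat_lit 4506561, true, true⟩,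
 nat_lit 10003, nat_lit 0, nat_lit 0, nat_lit 0, nat_lit 3075, nat_lit 5295, nat_lit 411, nat_lit 0, nat_lit 0, nat_lit 432, nat_lit 0, nat_lit 0, nat_lit 0, nat_lit 0, nat_lit 0, nat_lit 96000, nat_lit 0, nat_lit 0, [(nat_lit 29, [(nat_lit 0, nat_lit 384)])],
 ⟨p116_k0, nat_lit 0, nat_lit 0, nat_lit 172, nat_lit 0, nat_lit 139111, [nat_lit 877942400, nat_lit 3484236800, nat_lit 5695465600], [], [nat_lit 24495173300, nat_lit 24806637925, nat_lit 27382555725, nat_lit 27693390657, nat_lit 24876487425, nat_lit 25144908000, nat_lit 27513788700, nat_lit 27798068625], nat_lit 1271250, nat_lit 1271250, nat_lit 1271250, nat_lit 1271250, nat_lit 490000, nat_lit 1100001, [nat_lit 230000, nat_lit 1100000, nat_lit 1785000], [nat_lit 57, nat_lit 40, nat_lit 40, nat_lit 80, nat_lit 7, nat_lit 249, nat_lit 40, nat_lit 7]⟩, ⟨p116_k1, nat_lit 0, nat_lit 0, nat_lit 304, nat_lit 0, nat_lit 292293, [nat_lit 2887808000, nat_lit 6062672000, nat_lit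 10102400000], [], [nat_lit 17983452464, nat_lit 18337714020, nat_lit 19703630046, nat_lit 19963915071, nat_lit 20762754973, nat_lit 21059300599, nat_lit 22254595339, nat_lit 22467049448], nat_lit 1271250, nat_lit 1271250, nat_lit 1271250, nat_lit 1271250, nat_lit 1100001, nat_lit 2846750, [nat_lit 1100000, nat_lit 2127500, nat_lit 1271250], [nat_lit 83, nat_lit 40, nat_lit 40, nat_lit 80, nat_lit 73, nat_lit 483, nat_lit 250, nat_lit 9]⟩,
 ⟨nat_lit 1936, nat_lit 2237, ⟨.ofNat (nat_lit 659578), .ofNat (nat_lit 745101), .ofNat (nat_lit 682352), .ofNat (nat_lit 767876), .ofNat (nat_lit 657798), .ofNat (nat_lit 741632), .ofNat (nat_lit 680809), .ofNat (nat_lit 764643)⟩, ⟨.ofNat (nat_lit 200000), .ofNat (nat_lit 329112), .ofNat (nat_lit 200000), .ofNat (nat_lit 351886), .ofNat (nat_lit 200000), .ofNat (nat_lit 329055), .ofNat (nat_lit 200000), .ofNat (nat_lit 352066)⟩⟩, [⟨nat_lit 7, nat_lit 68, nat_lit 100, nat_lit 92, nat_lit 87039025⟩,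 ⟨nat_lit 22, nat_lit 94, nat_lit 59, nat_lit 100, nat_lit 134130930⟩]⟩
noncomputable def p116_l124 : Lf2 := ⟨nat_lit 0, nat_lit 30, [nat_lit 15, nat_lit 5, nat_lit 5, nat_lit 20], false, nat_lit 80, nat_lit 160, nat_lit 160, nat_lit 364, ⟨nat_lit 306, nat_lit 694, nat_lit 0, nat_lit 7, nat_lit 281, nat_lit 694, nat_lit 108, nat_lit 0, nat_lit 0, nat_lit 0, nat_lit 0, nat_lit 0, nat_lit 41349640, nat_lit 20997793, nat_lit 4652567, nat_lit 4490187, true, true⟩,
 nat_lit 5925, nat_lit 0, nat_lit 0, nat_lit 0, nat_lit 3305, nat_lit 3136, nat_lit 160, nat_lit 0, nat_lit 0, nat_lit 202, nat_lit 0, nat_lit 0, nat_lit 0, nat_lit 0, nat_lit 0, nat_lit 173500, nat_lit 0, nat_lit 0, [(nat_lit 29, [(nat_lit 0, nat_lit 694)])],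
 ⟨p116_k41, nat_lit 0, nat_lit 0, nat_lit 160, nat_lit 0, nat_lit 162234, [nat_lit 829458401, nat_lit 2389749600, nat_lit 3152261600], [], [nat_lit 25473504465, nat_lit 25774610150, nat_lit 27455099017, nat_lit 27786230412, nat_lit 25834771187, nat_lit 26061071472, nat_lit 27558696723, nat_lit 27806553920], nat_lit 1271250, nat_lit 1271250, nat_lit 1271250, nat_lit 1271250, nat_lit 490000, nat_lit 1100001, [nat_lit 230000, nat_lit 1100000, nat_lit 1442500], [nat_lit 55, nat_lit 40, nat_lit 40, nat_lit 80, nat_lit 3, nat_lit 249, nat_lit 40, nat_lit 8]⟩, ⟨p116_k1, nat_lit 0, nat_lit 0, nat_lit 325, nat_lit 0, nat_lit 348192, [nat_lit 1434528000, nat_lit 3011652000, nat_lit 5018400000], [], [nat_lit 9461706590, nat_lit 9546687206, nat_lit 9879257893, nat_lit 9935148137, nat_lit 10379808647, nat_lit 10429443279, nat_lit 10722268110, nat_lit 10747952042], nat_lit 1271250, nat_lit 1271250, nat_lit 1271250, nat_lit 1271250, nat_lit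 1100001, nat_lit 2846750, [nat_lit 1100000, nat_lit 2127500, nat_lit 1271250], [nat_lit 83, nat_lit 40, nat_lit 40, nat_lit 80, nat_lit 73, nat_lit 483, nat_lit 250, nat_lit 9]⟩,
 ⟨nat_lit 1581, nat_lit 1937, ⟨.ofNat (nat_lit 657798), .ofNat (nat_lit 724865), .ofNat (nat_lit 680809), .ofNat (nat_lit 747876), .ofNat (nat_lit 655900), .ofNat (nat_lit 721463), .ofNat (nat_lit 679215), .ofNat (nat_lit 744778)⟩, ⟨.ofNat (nat_lit 200000), .ofNat (nat_lit 329055), .ofNat (nat_lit 200000), .ofNat (nat_lit 352066), .ofNat (nat_lit 200000), .ofNat (nat_lit 328788), .ofNat (nat_lit 200000), .ofNat (nat_lit 352103)⟩⟩, [⟨nat_lit 13, nat_lit 36, nat_lit 85, nat_lit 100, nat_lit 180738873⟩, ⟨nat_lit 7, nat_lit 68, nat_lit 100, nat_lit 92, nat_lit 74094160⟩, ⟨nat_lit 22, nat_lit 93, nat_lit 89, nat_lit 100, nat_lit 25444590⟩]⟩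
noncomputable def p116_l125 : Lf2 := ⟨nat_lit 0, nat_lit 25, [nat_lit 44, nat_lit 5, nat_lit 5, nat_lit 20], false, nat_lit 160, nat_lit 208, nat_lit 160, nat_lit 364, ⟨nat_lit 668, nat_lit 332, nat_lit 0, nat_lit 7, nat_lit 284, nat_lit 332, nat_lit 150, nat_lit 0, nat_lit 0, nat_lit 0, nat_lit 0, nat_lit 0, nat_lit 39000960, nat_lit 20615396, nat_lit 7383644, nat_lit 4932762, true, true⟩,
 nat_lit 7952, nat_lit 0, nat_lit 0, nat_lit 0, nat_lit 4098, nat_lit 4209, nat_lit 0, nat_lit 0, nat_lit 0, nat_lit 391, nat_lit 0, nat_lit 0, nat_lit 0, nat_lit 0, nat_lit 0, nat_lit 294200, nat_lit 0, nat_lit 0, [(nat_lit 29, [(nat_lit 1, nat_lit 63), (nat_lit 2, nat_lit 269)])],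
 ⟨p116_k44, nat_lit 0, nat_lit 0, nat_lit 135, nat_lit 0, nat_lit 157340, [nat_lit 982730800, nat_lit 1959034001, nat_lit 2387445200], [], [nat_lit 26516291377, nat_lit 27035381753, nat_lit 28866585568, nat_lit 29394894618, nat_lit 27242646237, nat_lit 27803840791, nat_lit 29505555274, nat_lit 30097048898], nat_lit 1271250, nat_lit 1271250, nat_lit 1271250, nat_lit 1271250, nat_lit 1100001, nat_lit 1511000, [nat_lit 230000, nat_lit 1100000, nat_lit 1442500], [nat_lit 55, nat_lit 40, nat_lit 40, nat_lit 80, nat_lit 3, nat_lit 272, nat_lit 60, nat_lit 8]⟩, ⟨p116_k23, nat_lit 0, nat_lit 0, nat_lit 285, nat_lit 0, nat_lit 328089, [nat_lit 3131584000, nat_lit 6574456000, nat_lit 9390744000], [], [nat_lit 20359154352, nat_lit 20734533840, nat_lit 21974814740, nat_lit 22289818169, nat_lit 23730368476, nat_lit 23952316726, nat_lit 24849540961, nat_lit 25091275354], nat_lit 1271250, nat_lit 1271250, nat_lit 1271250, nat_lit 1271250,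 nat_lit 1100001, nat_lit 2846750, [nat_lit 1100000, nat_lit 2127500, nat_lit 1271250], [nat_lit 56, nat_lit 40, nat_lit 40, nat_lit 80, nat_lit 32, nat_lit 483, nat_lit 250, nat_lit 10]⟩,
 ⟨nat_lit 1581, nat_lit 2237, ⟨.ofNat (nat_lit 659578), .ofNat (nat_lit 745101), .ofNat (nat_lit 682352), .ofNat (nat_lit 767876), .ofNat (nat_lit 655900), .ofNat (nat_lit 737854), .ofNat (nat_lit 679215), .ofNat (nat_lit 761169)⟩, ⟨.ofNat (nat_lit 329112), .ofNat (nat_lit 397530), .ofNat (nat_lit 351886), .ofNat (nat_lit 420305), .ofNat (nat_lit 328788), .ofNat (nat_lit 394351), .ofNat (nat_lit 352103), .ofNat (nat_lit 417666)⟩⟩, [⟨nat_lit 16, nat_lit 38, nat_lit 100, nat_lit 90, nat_lit 622176477⟩, ⟨nat_lit 19, nat_lit 100, nat_lit 59, nat_lit 94, nat_lit 238310099⟩, ⟨nat_lit 10, nat_lit 57, nat_lit 84, nat_lit 100, nat_lit 2266887⟩]⟩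
noncomputable def p116_l126 : Lf2 := ⟨nat_lit 0, nat_lit 28, [nat_lit 157, nat_lit 5, nat_lit 5, nat_lit 20], false, nat_lit 160, nat_lit 208, nat_lit 160, nat_lit 364, ⟨nat_lit 1000, nat_lit 0, nat_lit 0, nat_lit 0, nat_lit 0, nat_lit 0, nat_lit 0, nat_lit 0, nat_lit 0, nat_lit 0, nat_lit 0, nat_lit 0, nat_lit 0, nat_lit 0, nat_lit 0, nat_lit 0, false, false⟩,
 nat_lit 18039, nat_lit 0, nat_lit 0, nat_lit 0, nat_lit 7106, nat_lit 9549, nat_lit 0, nat_lit 0, nat_lit 0, nat_lit 600, nat_lit 0, nat_lit 0, nat_lit 0, nat_lit 0, nat_lit 0, nat_lit 0, nat_lit 0, nat_lit 0, [],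
 ⟨p116_k47, nat_lit 0, nat_lit 0, nat_lit 109, nat_lit 0, nat_lit 71954, [nat_lit 938000000, nat_lit 4688000000, nat_lit 6250000000], [], [nat_lit 29096308832, nat_lit 29507125320, nat_lit 32365806656, nat_lit 32807170620, nat_lit 29740055130, nat_lit 30116883140, nat_lit 32859975913, nat_lit 33264544591], nat_lit 1271250, nat_lit 1271250, nat_lit 1271250, nat_lit 1271250, nat_lit 1100001, nat_lit 1511000, [nat_lit 230000, nat_lit 1100000, nat_lit 1442500], [nat_lit 55, nat_lit 40, nat_lit 40, nat_lit 80, nat_lit 3, nat_lit 272, nat_lit 60, nat_lit 8]⟩, ⟨p116_k37, nat_lit 0, nat_lit 0, nat_lit 210, nat_lit 0, nat_lit 150738, [nat_lit 4688000000, nat_lit 9842000000, nat_lit 14058000000], [], [nat_lit 28079229384, nat_lit 28832726624, nat_lit 31577123106, nat_lit 32138278941, nat_lit 34006994616, nat_lit 34290935012, nat_lit 35841813193, nat_lit 36020019468], nat_lit 1271250, nat_lit 1271250, nat_lit 1271250, nat_lit 1271250,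 nat_lit 1100001, nat_lit 2846750, [nat_lit 1100000, nat_lit 2127500, nat_lit 1271250], [nat_lit 56, nat_lit 40, nat_lit 40, nat_lit 80, nat_lit 32, nat_lit 483, nat_lit 250, nat_lit 10]⟩,
 zbF0, [⟨nat_lit 4, nat_lit 100, nat_lit 41, nat_lit 89, nat_lit 714481152⟩, ⟨nat_lit 19, nat_lit 100, nat_lit 68, nat_lit 92, nat_lit 359041571⟩]⟩
noncomputable def p116_l127 : Lf2 := ⟨nat_lit 0, nat_lit 30, [nat_lit 15, nat_lit 5, nat_lit 5, nat_lit 20], false, nat_lit 160, nat_lit 208, nat_lit 160, nat_lit 364, ⟨nat_lit 1000, nat_lit 0, nat_lit 0, nat_lit 0, nat_lit 0, nat_lit 0, nat_lit 0, nat_lit 0, nat_lit 0, nat_lit 0, nat_lit 0, nat_lit 0, nat_lit 0, nat_lit 0, nat_lit 0, nat_lit 0, false, false⟩,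
 nat_lit 19185, nat_lit 0, nat_lit 0, nat_lit 11194, nat_lit 6146, nat_lit 10156, nat_lit 227, nat_lit 0, nat_lit 0, nat_lit 708, nat_lit 0, nat_lit 0, nat_lit 0, nat_lit 0, nat_lit 0, nat_lit 0, nat_lit 0, nat_lit 0, [],
 ⟨p116_k0, nat_lit 0, nat_lit 0, nat_lit 93, nat_lit 0, nat_lit 30005, [nat_lit 938000000, nat_lit 4688000000, nat_lit 7968000000], [], [nat_lit 28639404586, nat_lit 28848467777, nat_lit 31268190918, nat_lit 31452649931, nat_lit 29229305319, nat_lit 29421729195, nat_lit 31786562665, nat_lit 32009321683], nat_lit 1271250, nat_lit 1271250, nat_lit 1271250, nat_lit 1271250, nat_lit 1100001, nat_lit 1511000, [nat_lit 230000, nat_lit 1100000, nat_lit 1785000], [nat_lit 57, nat_lit 40, nat_lit 40, nat_lit 80, nat_lit 7, nat_lit 272, nat_lit 60, nat_lit 7]⟩, ⟨p116_k1, nat_lit 0, nat_lit 0, nat_lit 213, nat_lit 0, nat_lit 63043, [nat_lit 4688000000, nat_lit 9842000000, nat_lit 16400000000], [], [nat_lit 28647915596,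 nat_lit 29240933100, nat_lit 31668681332, nat_lit 32085815792, nat_lit 33127654733, nat_lit 33293291800, nat_lit 35403065744, nat_lit 35731895993], nat_lit 1271250, nat_lit 1271250, nat_lit 1271250, nat_lit 1271250, nat_lit 1100001, nat_lit 2846750, [nat_lit 1100000, nat_lit 2127500, nat_lit 1271250], [nat_lit 83, nat_lit 40, nat_lit 40, nat_lit 80, nat_lit 73, nat_lit 483, nat_lit 250, nat_lit 9]⟩,
 zbF0, [⟨nat_lit 4, nat_lit 100, nat_lit 42, nat_lit 89, nat_lit 687286717⟩, ⟨nat_lit 7, nat_lit 68, nat_lit 100, nat_lit 92, nat_lit 352774268⟩]⟩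
noncomputable def p116_l128 : Lf2 := ⟨nat_lit 0, nat_lit 30, [nat_lit 15, nat_lit 5, nat_lit 5, nat_lit 20], false, nat_lit 160, nat_lit 204, nat_lit 160, nat_lit 364, ⟨nat_lit 1000, nat_lit 0, nat_lit 0, nat_lit 0, nat_lit 0, nat_lit 0, nat_lit 0, nat_lit 0, nat_lit 0, nat_lit 0, nat_lit 0, nat_lit 0, nat_lit 0, nat_lit 0, nat_lit 0, nat_lit 0, false, false⟩,
 nat_lit 19677, nat_lit 0, nat_lit 0, nat_lit 8746, nat_lit 3098, nat_lit 10417, nat_lit 520, nat_lit 0, nat_lit 0, nat_lit 712, nat_lit 0, nat_lit 0, nat_lit 0, nat_lit 0, nat_lit 0, nat_lit 0, nat_lit 0, nat_lit 0, [],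
 ⟨p116_k48, nat_lit 0, nat_lit 0, nat_lit 98, nat_lit 0, nat_lit 39574, [nat_lit 938000000, nat_lit 4688000000, nat_lit 7968000000], [], [nat_lit 25251502239, nat_lit 25351528018, nat_lit 27332262972, nat_lit 27448572931, nat_lit 25990638166, nat_lit 26088487013, nat_lit 28112747282, nat_lit 28221661868], nat_lit 1271250, nat_lit 1271250, nat_lit 1271250, nat_lit 1271250, nat_lit 1100001, nat_lit 1476750, [nat_lit 230000, nat_lit 1100000, nat_lit 1785000], [nat_lit 57, nat_lit 40, nat_lit 40, nat_lit 80, nat_lit 7, nat_lit 272, nat_lit 60, nat_lit 7]⟩, ⟨p116_k1, nat_lit 0, nat_lit 0, nat_lit 219, nat_lit 0, nat_lit 84219, [nat_lit 4688000000, nat_lit 9842000000, nat_lit 16400000000], [], [nat_lit 28507266872, nat_lit 29103281700, nat_lit 31102993175, nat_lit 31543893988, nat_lit 32983914724, nat_lit 33143759210, nat_lit 34880507166, nat_lit 35385375792], nat_lit 1271250, nat_lit 1271250, nat_lit 1271250, nat_lit 1271250, nat_lit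 1100001, nat_lit 2846750, [nat_lit 1100000, nat_lit 2127500, nat_lit 1271250], [nat_lit 83, nat_lit 40, nat_lit 40, nat_lit 80, nat_lit 73, nat_lit 483, nat_lit 250, nat_lit 9]⟩,
 zbF0, [⟨nat_lit 4, nat_lit 100, nat_lit 39, nat_lit 89, nat_lit 804667877⟩, ⟨nat_lit 7, nat_lit 68, nat_lit 100, nat_lit 92, nat_lit 357980480⟩]⟩
noncomputable def p116_l129 : Lf2 := ⟨nat_lit 0, nat_lit 30, [nat_lit 15, nat_lit 5, nat_lit 5, nat_lit 20], false, nat_lit 160, nat_lit 196, nat_lit 160, nat_lit 364, ⟨nat_lit 712, nat_lit 288, nat_lit 0, nat_lit 7, nat_lit 281, nat_lit 288, nat_lit 146, nat_lit 0, nat_lit 0, nat_lit 0, nat_lit 0, nat_lit 0, nat_lit 39485536, nat_lit 20332873, nat_lit 7181591, nat_lit 4888090, true, true⟩,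
 nat_lit 11683, nat_lit 0, nat_lit 0, nat_lit 0, nat_lit 6023, nat_lit 6185, nat_lit 0, nat_lit 0, nat_lit 0, nat_lit 458, nat_lit 0, nat_lit 0, nat_lit 0, nat_lit 0, nat_lit 0, nat_lit 72000, nat_lit 0, nat_lit 0, [(nat_lit 29, [(nat_lit 0, nat_lit 288)])],
 ⟨p116_k41, nat_lit 0, nat_lit 0, nat_lit 116, nat_lit 0, nat_lit 100363, [nat_lit 892956800, nat_lit 3734259200, nat_lit 4964483200], [], [nat_lit 28609084260, nat_lit 28980969064, nat_lit 30786042010, nat_lit 31117212631, nat_lit 29118440883, nat_lit 29468047914, nat_lit 31167479648, nat_lit 31555530382], nat_lit 1271250, nat_lit 1271250, nat_lit 1271250, nat_lit 1271250, nat_lit 1100001, nat_lit 1408250, [nat_lit 230000, nat_lit 1100000, nat_lit 1442500], [nat_lit 55, nat_lit 40, nat_lit 40, nat_lit 80, nat_lit 3, nat_lit 260, nat_lit 50, nat_lit 8]⟩, ⟨p116_k1, nat_lit 0, nat_lit 0, nat_lit 271, nat_lit 0, nat_lit 215402, [nat_lit 3337856000, nat_lit 7007504000, nat_lit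 11676800000], [], [nat_lit 21475971518, nat_lit 21886186890, nat_lit 23024257964, nat_lit 23347430736, nat_lit 24677935460, nat_lit 24820247602, nat_lit 25467216803, nat_lit 25565210062], nat_lit 1271250, nat_lit 1271250, nat_lit 1271250, nat_lit 1271250, nat_lit 1100001, nat_lit 2846750, [nat_lit 1100000, nat_lit 2127500, nat_lit 1271250], [nat_lit 83, nat_lit 40, nat_lit 40, nat_lit 80, nat_lit 73, nat_lit 483, nat_lit 250, nat_lit 9]⟩,
 ⟨nat_lit 1581, nat_lit 1937, ⟨.ofNat (nat_lit 657798), .ofNat (nat_lit 724865), .ofNat (nat_lit 680809), .ofNat (nat_lit 747876), .ofNat (nat_lit 655900), .ofNat (nat_lit 721463), .ofNat (nat_lit 679215), .ofNat (nat_lit 744778)⟩, ⟨.ofNat (nat_lit 329055), .ofNat (nat_lit 379355), .ofNat (nat_lit 352066), .ofNat (nat_lit 402366), .ofNat (nat_lit 328788), .ofNat (nat_lit 377960), .ofNat (nat_lit 352103), .ofNat (nat_lit 401275)⟩⟩, [⟨nat_lit 16, nat_lit 35, nat_lit 100, nat_lit 90, nat_lit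 671295828⟩, ⟨nat_lit 7, nat_lit 68, nat_lit 100, nat_lit 92, nat_lit 240975920⟩]⟩
noncomputable def p116_l130 : Lf2 := ⟨nat_lit 0, nat_lit 30, [nat_lit 15, nat_lit 5, nat_lit 5, nat_lit 20], false, nat_lit 80, nat_lit 120, nat_lit 0, nat_lit 336, ⟨nat_lit 245, nat_lit 755, nat_lit 0, nat_lit 7, nat_lit 276, nat_lit 755, nat_lit 97, nat_lit 0, nat_lit 0, nat_lit 0, nat_lit 0, nat_lit 0, nat_lit 42226580, nat_lit 20759610, nat_lit 4013810, nat_lit 4347690, true, true⟩,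
 nat_lit 5053, nat_lit 0, nat_lit 0, nat_lit 0, nat_lit 2968, nat_lit 2675, nat_lit 171, nat_lit 0, nat_lit 0, nat_lit 176, nat_lit 0, nat_lit 0, nat_lit 0, nat_lit 0, nat_lit 0, nat_lit 188750, nat_lit 0, nat_lit 0, [(nat_lit 29, [(nat_lit 0, nat_lit 755)])],
 ⟨p116_k18, nat_lit 0, nat_lit 0, nat_lit 175, nat_lit 0, nat_lit 210428, [nat_lit 819918000, nat_lit 2187742001, nat_lit 2879982000], [], [nat_lit 25114688680, nat_lit 25715982464, nat_lit 26818581272, nat_lit 27461731488, nat_lit 25331729308, nat_lit 25870763472, nat_lit 26923138932, nat_lit 27538405840], nat_lit 1271250, nat_lit 1271250, nat_lit 1271250, nat_lit 1271250, nat_lit 490000, nat_lit 780000, [nat_lit 230000, nat_lit 1100000, nat_lit 1442500], [nat_lit 55, nat_lit 40, nat_lit 40, nat_lit 80, nat_lit 3, nat_lit 238, nat_lit 30, nat_lit 7]⟩, ⟨p116_k1, nat_lit 0, nat_lit 0, nat_lit 601, nat_lit 0, nat_lit 461200, [nat_lit 1148560000, nat_lit 2411290000, nat_lit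 4018000000], [], [nat_lit 9706947420, nat_lit 9883436730, nat_lit 10272875800, nat_lit 10413828950, nat_lit 7729418720, nat_lit 7741986065, nat_lit 7942825812, nat_lit 8005345383], nat_lit 1271250, nat_lit 1271250, nat_lit 1271250, nat_lit 1271250, nat_lit 0, nat_lit 2373000, [nat_lit 1100000, nat_lit 2127500, nat_lit 1271250], [nat_lit 83, nat_lit 40, nat_lit 40, nat_lit 80, nat_lit 73, nat_lit 483, nat_lit 250, nat_lit 10]⟩,
 ⟨nat_lit 0, nat_lit 1582, ⟨.ofNat (nat_lit 655899), .ofNat (nat_lit 710533), .ofNat (nat_lit 679215), .ofNat (nat_lit 733849), .ofNat (nat_lit 649998), .ofNat (nat_lit 699996), .ofNat (nat_lit 674999), .ofNat (nat_lit 724997)⟩, ⟨.ofNat (nat_lit 200000), .ofNat (nat_lit 274152), .ofNat (nat_lit 200000), .ofNat (nat_lit 297467), .ofNat (nat_lit 200000), .ofNat (nat_lit 274999), .ofNat (nat_lit 200000), .ofNat (nat_lit 299999)⟩⟩, [⟨nat_lit 13, nat_lit 23, nat_lit 92, nat_lit 100, nat_lit 637061099⟩, ⟨nat_lit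 22, nat_lit 100, nat_lit 80, nat_lit 100, nat_lit 10617802⟩]⟩
noncomputable def p116_l131 : Lf2 := ⟨nat_lit 0, nat_lit 30, [nat_lit 15, nat_lit 5, nat_lit 5, nat_lit 20], false, nat_lit 120, nat_lit 160, nat_lit 0, nat_lit 364, ⟨nat_lit 195, nat_lit 428, nat_lit 377, nat_lit 7, nat_lit 271, nat_lit 805, nat_lit 125, nat_lit 377, nat_lit 147267, nat_lit 309, nat_lit 140352, nat_lit 200, nat_lit 41378845, nat_lit 19797340, nat_lit 5823815, nat_lit 4639021, true, true⟩,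
 nat_lit 4020, nat_lit 0, nat_lit 0, nat_lit 0, nat_lit 3374, nat_lit 2128, nat_lit 0, nat_lit 0, nat_lit 0, nat_lit 136, nat_lit 0, nat_lit 0, nat_lit 0, nat_lit 0, nat_lit 0, nat_lit 180515, nat_lit 0, nat_lit 0, [(nat_lit 29, [(nat_lit 0, nat_lit 428), (nat_lit 3, nat_lit 377)])],
 ⟨p116_k18, nat_lit 0, nat_lit 0, nat_lit 157, nat_lit 0, nat_lit 198544, [nat_lit 949326000, nat_lit 993404400, nat_lit 1228575200], [], [nat_lit 25968346486, nat_lit 26548968496, nat_lit 27021237861, nat_lit 27623199424, nat_lit 26097594032, nat_lit 26650911136, nat_lit 27104242453, nat_lit 27626405836], nat_lit 1271250, nat_lit 1271250, nat_lit 1271250, nat_lit 1271250, nat_lit 780000, nat_lit 1100001, [nat_lit 230000, nat_lit 1100000, nat_lit 1442500], [nat_lit 55, nat_lit 40, nat_lit 40, nat_lit 80, nat_lit 3, nat_lit 249, nat_lit 40, nat_lit 8]⟩, ⟨p116_k1, nat_lit 0, nat_lit 0, nat_lit 538, nat_lit 0, nat_lit 435153, [nat_lit 914160000, nat_lit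 1919190000, nat_lit 3198000000], [], [nat_lit 7794767088, nat_lit 7864992232, nat_lit 8109985712, nat_lit 8170315887, nat_lit 6452639922, nat_lit 6466851608, nat_lit 6571779167, nat_lit 6580665797], nat_lit 1271250, nat_lit 1271250, nat_lit 1271250, nat_lit 1271250, nat_lit 0, nat_lit 2570750, [nat_lit 1100000, nat_lit 2127500, nat_lit 1271250], [nat_lit 83, nat_lit 40, nat_lit 40, nat_lit 80, nat_lit 73, nat_lit 483, nat_lit 250, nat_lit 10]⟩,
 ⟨nat_lit 0, nat_lit 1582, ⟨.ofNat (nat_lit 655899), .ofNat (nat_lit 694143), .ofNat (nat_lit 667557), .ofNat (nat_lit 705801), .ofNat (nat_lit 649998), .ofNat (nat_lit 684997), .ofNat (nat_lit 662498), .ofNat (nat_lit 697497)⟩, ⟨.ofNat (nat_lit 274152), .ofNat (nat_lit 328785), .ofNat (nat_lit 297467), .ofNat (nat_lit 352101), .ofNat (nat_lit 274999), .ofNat (nat_lit 324996), .ofNat (nat_lit 299999), .ofNat (nat_lit 349997)⟩⟩, [⟨nat_lit 13, nat_lit 23, nat_lit 92, nat_lit 100, nat_lit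 560488814⟩, ⟨nat_lit 22, nat_lit 93, nat_lit 75, nat_lit 100, nat_lit 17679933⟩]⟩
noncomputable def p116_l132 : Lf2 := ⟨nat_lit 0, nat_lit 30, [nat_lit 15, nat_lit 5, nat_lit 5, nat_lit 20], false, nat_lit 160, nat_lit 184, nat_lit 4, nat_lit 364, ⟨nat_lit 272, nat_lit 728, nat_lit 0, nat_lit 7, nat_lit 272, nat_lit 728, nat_lit 143, nat_lit 0, nat_lit 0, nat_lit 0, nat_lit 0, nat_lit 0, nat_lit 40398965, nat_lit 19587159, nat_lit 7013876, nat_lit 4821358, true, true⟩,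
 nat_lit 5612, nat_lit 0, nat_lit 0, nat_lit 0, nat_lit 4665, nat_lit 2971, nat_lit 0, nat_lit 0, nat_lit 0, nat_lit 190, nat_lit 0, nat_lit 0, nat_lit 0, nat_lit 0, nat_lit 0, nat_lit 182000, nat_lit 0, nat_lit 0, [(nat_lit 29, [(nat_lit 0, nat_lit 728)])],
 ⟨p116_k18, nat_lit 0, nat_lit 0, nat_lit 134, nat_lit 0, nat_lit 171897, [nat_lit 824140800, nat_lit 2277155200, nat_lit 3000499200], [], [nat_lit 27454032920, nat_lit 27777100340, nat_lit 28562418079, nat_lit 28865645886, nat_lit 27824939907, nat_lit 28135841873, nat_lit 28888394567, nat_lit 29194709034], nat_lit 1271250, nat_lit 1271250, nat_lit 1271250, nat_lit 1271250, nat_lit 1100001, nat_lit 1305500, [nat_lit 230000, nat_lit 1100000, nat_lit 1442500], [nat_lit 55, nat_lit 40, nat_lit 40, nat_lit 80, nat_lit 3, nat_lit 260, nat_lit 50, nat_lit 8]⟩, ⟨p116_k1, nat_lit 0, nat_lit 0, nat_lit 514, nat_lit 0, nat_lit 376750, [nat_lit 1275136000, nat_lit 2677024000, nat_lit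 4460800000], [], [nat_lit 10755401000, nat_lit 10853270014, nat_lit 11194416479, nat_lit 11278511431, nat_lit 8994729000, nat_lit 9014519504, nat_lit 9160913304, nat_lit 9178867874], nat_lit 1271250, nat_lit 1271250, nat_lit 1271250, nat_lit 1271250, nat_lit 21650, nat_lit 2577650, [nat_lit 1100000, nat_lit 2127500, nat_lit 1271250], [nat_lit 83, nat_lit 40, nat_lit 40, nat_lit 80, nat_lit 73, nat_lit 483, nat_lit 250, nat_lit 10]⟩,
 ⟨nat_lit 1118, nat_lit 1582, ⟨.ofNat (nat_lit 655900), .ofNat (nat_lit 694145), .ofNat (nat_lit 667558), .ofNat (nat_lit 705803), .ofNat (nat_lit 653755), .ofNat (nat_lit 690944), .ofNat (nat_lit 665630), .ofNat (nat_lit 702819)⟩, ⟨.ofNat (nat_lit 328788), .ofNat (nat_lit 361569), .ofNat (nat_lit 352103), .ofNat (nat_lit 384884), .ofNat (nat_lit 328117), .ofNat (nat_lit 359993), .ofNat (nat_lit 351868), .ofNat (nat_lit 383744)⟩⟩, [⟨nat_lit 13, nat_lit 32, nat_lit 87, nat_lit 100, nat_lit 325184211⟩,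 ⟨nat_lit 16, nat_lit 31, nat_lit 100, nat_lit 92, nat_lit 463882535⟩, ⟨nat_lit 7, nat_lit 66, nat_lit 100, nat_lit 92, nat_lit 26622471⟩]⟩
noncomputable def p116_l133 : Lf2 := ⟨nat_lit 0, nat_lit 30, [nat_lit 15, nat_lit 5, nat_lit 5, nat_lit 20], true, nat_lit 160, nat_lit 164, nat_lit 4, nat_lit 364, ⟨nat_lit 0, nat_lit 860, nat_lit 140, nat_lit 7, nat_lit 266, nat_lit 1000, nat_lit 137, nat_lit 140, nat_lit 173400, nat_lit 317, nat_lit 91884, nat_lit 200, nat_lit 41184627, nat_lit 19173878, nat_lit 6641495, nat_lit 4738357, true, true⟩,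
 nat_lit 0, nat_lit 3076, nat_lit 0, nat_lit 0, nat_lit 3024, nat_lit 0, nat_lit 43, nat_lit 0, nat_lit 0, nat_lit 0, nat_lit 0, nat_lit 0, nat_lit 0, nat_lit 0, nat_lit 0, nat_lit 242300, nat_lit 0, nat_lit 0, [(nat_lit 29, [(nat_lit 0, nat_lit 860), (nat_lit 3, nat_lit 140)])],
 ⟨p116_k43, nat_lit 0, nat_lit 0, nat_lit 166, nat_lit 0, nat_lit 284925, [nat_lit 832560000, nat_lit 994368001, nat_lit 1256024000], [], [nat_lit 25855108395, nat_lit 26102456579, nat_lit 26249739908, nat_lit 26552397716, nat_lit 25924642620, nat_lit 26170636957, nat_lit 26317085112, nat_lit 26627839294], nat_lit 1271250, nat_lit 1271250, nat_lit 1271250, nat_lit 1271250, nat_lit 1100001, nat_lit 1133651, [nat_lit 230000, nat_lit 1100000, nat_lit 1442500], [nat_lit 55, nat_lit 40, nat_lit 40, nat_lit 80, nat_lit 3, nat_lit 260, nat_lit 50, nat_lit 8]⟩, C1.Rw.none,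
 ⟨nat_lit 0, nat_lit 1119, ⟨.ofNat (nat_lit 653753), .ofNat (nat_lit 669691), .ofNat (nat_lit 665629), .ofNat (nat_lit 681567), .ofNat (nat_lit 649997), .ofNat (nat_lit 664997), .ofNat (nat_lit 662498), .ofNat (nat_lit 677498)⟩, ⟨.ofNat (nat_lit 328114), .ofNat (nat_lit 333427), .ofNat (nat_lit 351866), .ofNat (nat_lit 357179), .ofNat (nat_lit 324996), .ofNat (nat_lit 329996), .ofNat (nat_lit 349997), .ofNat (nat_lit 354998)⟩⟩, [⟨nat_lit 13, nat_lit 23, nat_lit 92, nat_lit 100, nat_lit 782439647⟩, ⟨nat_lit 16, nat_lit 23, nat_lit 100, nat_lit 93, nat_lit 478322474⟩]⟩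
noncomputable def p116_l134 : Lf2 := ⟨nat_lit 0, nat_lit 30, [nat_lit 15, nat_lit 5, nat_lit 5, nat_lit 20], false, nat_lit 120, nat_lit 184, nat_lit 0, nat_lit 360, ⟨nat_lit 364, nat_lit 636, nat_lit 0, nat_lit 7, nat_lit 279, nat_lit 636, nat_lit 131, nat_lit 0, nat_lit 0, nat_lit 0, nat_lit 0, nat_lit 0, nat_lit 40375521, nat_lit 20440743, nat_lit 6183736, nat_lit 4736153, true, true⟩,
 nat_lit 6561, nat_lit 0, nat_lit 0, nat_lit 0, nat_lit 3232, nat_lit 3645, nat_lit 164, nat_lit 0, nat_lit 0, nat_lit 236, nat_lit 0, nat_lit 0, nat_lit 0, nat_lit 0, nat_lit 0, nat_lit 159000, nat_lit 0, nat_lit 0, [(nat_lit 29, [(nat_lit 0, nat_lit 636)])],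
 ⟨p116_k18, nat_lit 0, nat_lit 0, nat_lit 162, nat_lit 0, nat_lit 210428, [nat_lit 838529600, nat_lit 2581822400, nat_lit 3411150400], [], [nat_lit 25914475548, nat_lit 26484111728, nat_lit 27400905428, nat_lit 27933912160, nat_lit 26490514985, nat_lit 27014961472, nat_lit 27862747530, nat_lit 28351679092], nat_lit 1271250, nat_lit 1271250, nat_lit 1271250, nat_lit 1271250, nat_lit 780000, nat_lit 1304000, [nat_lit 230000, nat_lit 1100000, nat_lit 1442500], [nat_lit 55, nat_lit 40, nat_lit 40, nat_lit 80, nat_lit 3, nat_lit 260, nat_lit 50, nat_lit 8]⟩, ⟨p116_k5, nat_lit 0, nat_lit 0, nat_lit 485, nat_lit 0, nat_lit 431684, [nat_lit 1706432000, nat_lit 3582488000, nat_lit 5117112000], [], [nat_lit 14098933456, nat_lit 14169625544, nat_lit 14556949477, nat_lit 14612108942, nat_lit 11908705175, nat_lit 11926378565, nat_lit 12272092806, nat_lit 12315644340], nat_lit 1271250, nat_lit 1271250, nat_lit 1271250, nat_lit 1271250, nat_lit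 0, nat_lit 2542500, [nat_lit 1100000, nat_lit 2127500, nat_lit 1271250], [nat_lit 56, nat_lit 40, nat_lit 40, nat_lit 80, nat_lit 32, nat_lit 483, nat_lit 250, nat_lit 11]⟩,
 ⟨nat_lit 0, nat_lit 1582, ⟨.ofNat (nat_lit 667557), .ofNat (nat_lit 722191), .ofNat (nat_lit 679215), .ofNat (nat_lit 733849), .ofNat (nat_lit 662498), .ofNat (nat_lit 712497), .ofNat (nat_lit 674999), .ofNat (nat_lit 724997)⟩, ⟨.ofNat (nat_lit 274152), .ofNat (nat_lit 361566), .ofNat (nat_lit 297467), .ofNat (nat_lit 384882), .ofNat (nat_lit 274999), .ofNat (nat_lit 354996), .ofNat (nat_lit 299999), .ofNat (nat_lit 379997)⟩⟩, [⟨nat_lit 13, nat_lit 23, nat_lit 91, nat_lit 100, nat_lit 174726322⟩, ⟨nat_lit 4, nat_lit 100, nat_lit 23, nat_lit 92, nat_lit 664974674⟩, ⟨nat_lit 22, nat_lit 89, nat_lit 71, nat_lit 100, nat_lit 43977921⟩]⟩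
noncomputable def b_V_900_600_20_68 : St := ⟨true, nat_lit 1, nat_lit 1, nat_lit 1, nat_lit 120, nat_lit 380, nat_lit 400, nat_lit 240, nat_lit 260, nat_lit 280, nat_lit 340, nat_lit 80, nat_lit 120, nat_lit 80, nat_lit 208, nat_lit 0, nat_lit 364, nat_lit 80, nat_lit 120, nat_lit 0, nat_lit 0, nat_lit 0, nat_lit 0⟩
theorem d_V_900_600_20_68 (h : EB TB.env) : Dead b_V_900_600_20_68 := chkB_sound0 h (T :=
(.spl (nat_lit 3) (nat_lit 100)
(.trX (nat_lit 16) (nat_lit 44) (nat_lit 100) (nat_lit 87) (nat_lit 188) (.trX (nat_lit 19) (nat_lit 100) (nat_lit 68) (nat_lit 88) (nat_lit 352) (.spl (nat_lit 1) (nat_lit 250)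
(.trX (nat_lit 13) (nat_lit 45) (nat_lit 79) (nat_lit 100) (nat_lit 332) (.leaf p116_l119))
(.trX (nat_lit 19) (nat_lit 100) (nat_lit 72) (nat_lit 89) (nat_lit 344) (.spl (nat_lit 0) (nat_lit 390)
(.leaf p116_l120)
(.trX (nat_lit 13) (nat_lit 33) (nat_lit 85) (nat_lit 100) (nat_lit 320) (.trX (nat_lit 16) (nat_lit 32) (nat_lit 100) (nat_lit 88) (nat_lit 160) (.leaf p116_l121))))))))
(.spl (nat_lit 0) (nat_lit 390)
(.spl (nat_lit 5) (nat_lit 160)
(.leaf p116_l122)
(.spl (nat_lit 4) (nat_lit 160)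
(.spl (nat_lit 0) (nat_lit 385)
(.leaf p116_l123)
(.trX (nat_lit 13) (nat_lit 40) (nat_lit 81) (nat_lit 100) (nat_lit 328) (.leaf p116_l124)))
(.spl (nat_lit 6) (nat_lit 100)
(.leaf p116_l125)
(.spl (nat_lit 0) (nat_lit 385)
(.spl (nat_lit 6) (nat_lit 112)
(.leaf p116_l126)
(.spl (nat_lit 0) (nat_lit 383)
(.leaf p116_l127)
(.trX (nat_lit 13) (nat_lit 42) (nat_lit 79) (nat_lit 100) (nat_lit 332) (.trX (nat_lit 16) (nat_lit 40) (nat_lit 100) (nat_lit 92) (nat_lit 204) (.leaf p116_l128)))))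
(.trX (nat_lit 13) (nat_lit 40) (nat_lit 81) (nat_lit 100) (nat_lit 328) (.trX (nat_lit 16) (nat_lit 38) (nat_lit 100) (nat_lit 92) (nat_lit 196) (.leaf p116_l129)))))))
(.trX (nat_lit 13) (nat_lit 33) (nat_lit 85) (nat_lit 100) (nat_lit 320) (.trX (nat_lit 16) (nat_lit 31) (nat_lit 100) (nat_lit 92) (nat_lit 184) (.spl (nat_lit 4) (nat_lit 120)
(.trX (nat_lit 22) (nat_lit 100) (nat_lit 80) (nat_lit 100) (nat_lit 336) (.leaf p116_l130))
(.spl (nat_lit 1) (nat_lit 250)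
(.trX (nat_lit 13) (nat_lit 32) (nat_lit 87) (nat_lit 100) (nat_lit 308) (.spl (nat_lit 4) (nat_lit 160)
(.leaf p116_l131)
(.trZ (nat_lit 9) (nat_lit 100) (nat_lit 94) (nat_lit 21) (nat_lit 4) (.spl (nat_lit 0) (nat_lit 395)
(.leaf p116_l132)
(.trX (nat_lit 13) (nat_lit 23) (nat_lit 92) (nat_lit 100) (nat_lit 292) (.trX (nat_lit 16) (nat_lit 23) (nat_lit 100) (nat_lit 93) (nat_lit 164) (.leaf p116_l133)))))))
(.trX (nat_lit 19) (nat_lit 100) (nat_lit 64) (nat_lit 95) (nat_lit 360) (.leaf p116_l134))))))))) (by decide +kernel)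
noncomputable def p116_l135 : Lf2 := ⟨nat_lit 0, nat_lit 30, [nat_lit 15, nat_lit 5, nat_lit 5, nat_lit 20], false, nat_lit 80, nat_lit 208, nat_lit 0, nat_lit 160, ⟨nat_lit 767, nat_lit 233, nat_lit 0, nat_lit 6, nat_lit 285, nat_lit 233, nat_lit 118, nat_lit 0, nat_lit 0, nat_lit 0, nat_lit 0, nat_lit 0, nat_lit 40546429, nat_lit 21206608, nat_lit 5246963, nat_lit 4613191, true, true⟩,
 nat_lit 10109, nat_lit 0, nat_lit 0, nat_lit 0, nat_lit 3248, nat_lit 5884, nat_lit 426, nat_lit 0, nat_lit 0, nat_lit 491, nat_lit 0, nat_lit 0, nat_lit 0, nat_lit 0, nat_lit 0, nat_lit 93200, nat_lit 0, nat_lit 0, [(nat_lit 29, [(nat_lit 1, nat_lit 233)])],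
 ⟨p116_k0, nat_lit 0, nat_lit 0, nat_lit 255, nat_lit 0, nat_lit 316459, [nat_lit 882173200, nat_lit 3641736800, nat_lit 6124224400], [], [nat_lit 23623820570, nat_lit 24605084448, nat_lit 28310336029, nat_lit 29544831296, nat_lit 24885196286, nat_lit 25917338964, nat_lit 29090676008, nat_lit 30142077643], nat_lit 1271250, nat_lit 1271250, nat_lit 1271250, nat_lit 1271250, nat_lit 490000, nat_lit 1490000, [nat_lit 230000, nat_lit 1100000, nat_lit 1785000], [nat_lit 57, nat_lit 40, nat_lit 40, nat_lit 80, nat_lit 7, nat_lit 272, nat_lit 60, nat_lit 8]⟩, ⟨p116_k2, nat_lit 0, nat_lit 0, nat_lit 587, nat_lit 0, nat_lit 584111, [nat_lit 3595696000, nat_lit 7548814000, nat_lit 10782486000], [], [nat_lit 31155164256, nat_lit 31393882912, nat_lit 33416764932, nat_lit 33624864105, nat_lit 27039178434, nat_lit 27320525292, nat_lit 28973542759, nat_lit 29132185582], nat_lit 1271250, nat_lit 1271250, nat_lit 1271250, nat_lit 1271250, nat_lit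 0, nat_lit 1100001, [nat_lit 1100000, nat_lit 2127500, nat_lit 1271250], [nat_lit 56, nat_lit 40, nat_lit 40, nat_lit 80, nat_lit 32, nat_lit 428, nat_lit 200, nat_lit 10]⟩,
 ⟨nat_lit 0, nat_lit 2237, ⟨.ofNat (nat_lit 624400), .ofNat (nat_lit 784976), .ofNat (nat_lit 646249), .ofNat (nat_lit 807752), .ofNat (nat_lit 624062), .ofNat (nat_lit 764995), .ofNat (nat_lit 648136), .ofNat (nat_lit 789996)⟩, ⟨.ofNat (nat_lit 192306), .ofNat (nat_lit 374750), .ofNat (nat_lit 200000), .ofNat (nat_lit 420300), .ofNat (nat_lit 199999), .ofNat (nat_lit 359993), .ofNat (nat_lit 200000), .ofNat (nat_lit 409994)⟩⟩, [⟨nat_lit 16, nat_lit 32, nat_lit 100, nat_lit 88, nat_lit 685471202⟩]⟩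
noncomputable def p116_l136 : Lf2 := ⟨nat_lit 0, nat_lit 25, [nat_lit 44, nat_lit 5, nat_lit 5, nat_lit 20], false, nat_lit 80, nat_lit 188, nat_lit 160, nat_lit 336, ⟨nat_lit 863, nat_lit 137, nat_lit 0, nat_lit 6, nat_lit 286, nat_lit 137, nat_lit 111, nat_lit 0, nat_lit 0, nat_lit 0, nat_lit 0, nat_lit 0, nat_lit 40763417, nat_lit 21452387, nat_lit 4784196, nat_lit 4539079, true, true⟩,
 nat_lit 11232, nat_lit 0, nat_lit 0, nat_lit 0, nat_lit 3625, nat_lit 6538, nat_lit 382, nat_lit 0, nat_lit 0, nat_lit 847, nat_lit 0, nat_lit 0, nat_lit 0, nat_lit 0, nat_lit 0, nat_lit 54800, nat_lit 0, nat_lit 0, [(nat_lit 29, [(nat_lit 1, nat_lit 137)])],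
 ⟨p116_k39, nat_lit 0, nat_lit 0, nat_lit 203, nat_lit 0, nat_lit 252240, [nat_lit 905174800, nat_lit 2877850000, nat_lit 5406628000], [], [nat_lit 23675032250, nat_lit 24356363000, nat_lit 28969628200, nat_lit 29618820251, nat_lit 24579609488, nat_lit 25171194319, nat_lit 29222737558, nat_lit 29790814424], nat_lit 1271250, nat_lit 1271250, nat_lit 1271250, nat_lit 1271250, nat_lit 490000, nat_lit 1333750, [nat_lit 230000, nat_lit 780000, nat_lit 1435000], [nat_lit 20, nat_lit 40, nat_lit 40, nat_lit 80, nat_lit 16, nat_lit 260, nat_lit 50, nat_lit 8]⟩, ⟨p116_k30, nat_lit 0, nat_lit 0, nat_lit 385, nat_lit 0, nat_lit 462704, [nat_lit 4045744000, nat_lit 6876384000, nat_lit 12132054000], [], [nat_lit 22430878590, nat_lit 22895569112, nat_lit 25496655307, nat_lit 25781243988, nat_lit 25042807792, nat_lit 25309127729, nat_lit 27671891440, nat_lit 28192395842], nat_lit 1271250, nat_lit 1271250, nat_lit 1271250, nat_lit 1271250,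 nat_lit 1100001, nat_lit 2607000, [nat_lit 1100000, nat_lit 1785000, nat_lit 1271250], [nat_lit 37, nat_lit 40, nat_lit 40, nat_lit 80, nat_lit 28, nat_lit 483, nat_lit 250, nat_lit 10]⟩,
 ⟨nat_lit 1581, nat_lit 2237, ⟨.ofNat (nat_lit 625287), .ofNat (nat_lit 784980), .ofNat (nat_lit 648016), .ofNat (nat_lit 807755), .ofNat (nat_lit 624529), .ofNat (nat_lit 777560), .ofNat (nat_lit 647799), .ofNat (nat_lit 800875)⟩, ⟨.ofNat (nat_lit 192306), .ofNat (nat_lit 346248), .ofNat (nat_lit 200000), .ofNat (nat_lit 369022), .ofNat (nat_lit 196201), .ofNat (nat_lit 343718), .ofNat (nat_lit 200000), .ofNat (nat_lit 367033)⟩⟩, [⟨nat_lit 4, nat_lit 100, nat_lit 39, nat_lit 85, nat_lit 568059275⟩, ⟨nat_lit 19, nat_lit 100, nat_lit 86, nat_lit 89, nat_lit 298545825⟩]⟩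
noncomputable def p116_l137 : Lf2 := ⟨nat_lit 0, nat_lit 25, [nat_lit 44, nat_lit 5, nat_lit 5, nat_lit 20], false, nat_lit 80, nat_lit 208, nat_lit 160, nat_lit 352, ⟨nat_lit 995, nat_lit 5, nat_lit 0, nat_lit 6, nat_lit 286, nat_lit 5, nat_lit 121, nat_lit 0, nat_lit 0, nat_lit 0, nat_lit 0, nat_lit 0, nat_lit 40261007, nat_lit 21267104, nat_lit 5471889, nat_lit 4656755, true, true⟩,
 nat_lit 11182, nat_lit 0, nat_lit 0, nat_lit 0, nat_lit 4593, nat_lit 6508, nat_lit 335, nat_lit 0, nat_lit 0, nat_lit 697, nat_lit 0, nat_lit 0, nat_lit 0, nat_lit 0, nat_lit 0, nat_lit 5000, nat_lit 0, nat_lit 0, [(nat_lit 29, [(nat_lit 2, nat_lit 5)])],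
 ⟨p116_k44, nat_lit 0, nat_lit 0, nat_lit 173, nat_lit 0, nat_lit 189567, [nat_lit 939112000, nat_lit 4642534000, nat_lit 6185414000], [], [nat_lit 25008119911, nat_lit 25663477561, nat_lit 30662452661, nat_lit 31393666449, nat_lit 25860538773, nat_lit 26417883095, nat_lit 30673225173, nat_lit 31287590005], nat_lit 1271250, nat_lit 1271250, nat_lit 1271250, nat_lit 1271250, nat_lit 490000, nat_lit 1490000, [nat_lit 230000, nat_lit 1100000, nat_lit 1442500], [nat_lit 55, nat_lit 40, nat_lit 40, nat_lit 80, nat_lit 3, nat_lit 272, nat_lit 60, nat_lit 9]⟩, ⟨p116_k11, nat_lit 0, nat_lit 0, nat_lit 295, nat_lit 0, nat_lit 347738, [nat_lit 4664560000, nat_lit 9792790000, nat_lit 13987710000], [], [nat_lit 26748921420, nat_lit 27384849504, nat_lit 31170951536, nat_lit 31672617126, nat_lit 31766720640, nat_lit 32337713992, nat_lit 35485413064, nat_lit 35850671907], nat_lit 1271250, nat_lit 1271250, nat_lit 1271250, nat_lit 1271250,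 nat_lit 1100001, nat_lit 2744000, [nat_lit 1100000, nat_lit 2127500, nat_lit 1271250], [nat_lit 56, nat_lit 40, nat_lit 40, nat_lit 80, nat_lit 32, nat_lit 483, nat_lit 250, nat_lit 10]⟩,
 ⟨nat_lit 1581, nat_lit 2237, ⟨.ofNat (nat_lit 625287), .ofNat (nat_lit 784980), .ofNat (nat_lit 648016), .ofNat (nat_lit 807755), .ofNat (nat_lit 624529), .ofNat (nat_lit 777560), .ofNat (nat_lit 647799), .ofNat (nat_lit 800875)⟩, ⟨.ofNat (nat_lit 200000), .ofNat (nat_lit 397530), .ofNat (nat_lit 200000), .ofNat (nat_lit 420305), .ofNat (nat_lit 200000), .ofNat (nat_lit 394351), .ofNat (nat_lit 200000), .ofNat (nat_lit 417666)⟩⟩, [⟨nat_lit 4, nat_lit 100, nat_lit 38, nat_lit 90, nat_lit 601980480⟩, ⟨nat_lit 19, nat_lit 100, nat_lit 69, nat_lit 96, nat_lit 357068828⟩]⟩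
noncomputable def p116_l138 : Lf2 := ⟨nat_lit 0, nat_lit 30, [nat_lit 15, nat_lit 5, nat_lit 5, nat_lit 20], false, nat_lit 80, nat_lit 208, nat_lit 160, nat_lit 352, ⟨nat_lit 1000, nat_lit 0, nat_lit 0, nat_lit 0, nat_lit 0, nat_lit 0, nat_lit 0, nat_lit 0, nat_lit 0, nat_lit 0, nat_lit 0, nat_lit 0, nat_lit 0, nat_lit 0, nat_lit 0, nat_lit 0, false, false⟩,
 nat_lit 15094, nat_lit 0, nat_lit 0, nat_lit 0, nat_lit 6564, nat_lit 8785, nat_lit 261, nat_lit 0, nat_lit 0, nat_lit 700, nat_lit 0, nat_lit 0, nat_lit 0, nat_lit 0, nat_lit 0, nat_lit 0, nat_lit 0, nat_lit 0, [],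
 ⟨p116_k0, nat_lit 0, nat_lit 0, nat_lit 168, nat_lit 0, nat_lit 110508, [nat_lit 938000000, nat_lit 4688000000, nat_lit 7968000000], [], [nat_lit 27388499382, nat_lit 27829511016, nat_lit 34109309079, nat_lit 34558420541, nat_lit 27274972962, nat_lit 27638263190, nat_lit 32992336255, nat_lit 33364484014], nat_lit 1271250, nat_lit 1271250, nat_lit 1271250, nat_lit 1271250, nat_lit 490000, nat_lit 1490000, [nat_lit 230000, nat_lit 1100000, nat_lit 1785000], [nat_lit 57, nat_lit 40, nat_lit 40, nat_lit 80, nat_lit 7, nat_lit 272, nat_lit 60, nat_lit 8]⟩, ⟨p116_k2, nat_lit 0, nat_lit 0, nat_lit 236, nat_lit 0, nat_lit 203972, [nat_lit 4688000000, nat_lit 9842000000, nat_lit 14058000000], [], [nat_lit 25248904230, nat_lit 26093901560, nat_lit 30698256353, nat_lit 31215594452, nat_lit 30930275429, nat_lit 31325957092, nat_lit 34584445075, nat_lit 34928747392], nat_lit 1271250, nat_lit 1271250, nat_lit 1271250, nat_lit 1271250, nat_lit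 1100001, nat_lit 2744000, [nat_lit 1100000, nat_lit 2127500, nat_lit 1271250], [nat_lit 56, nat_lit 40, nat_lit 40, nat_lit 80, nat_lit 32, nat_lit 483, nat_lit 250, nat_lit 10]⟩,
 zbF0, [⟨nat_lit 4, nat_lit 100, nat_lit 41, nat_lit 89, nat_lit 359109816⟩, ⟨nat_lit 19, nat_lit 100, nat_lit 78, nat_lit 95, nat_lit 346426012⟩]⟩
noncomputable def p116_l139 : Lf2 := ⟨nat_lit 0, nat_lit 30, [nat_lit 15, nat_lit 5, nat_lit 5, nat_lit 20], false, nat_lit 80, nat_lit 196, nat_lit 160, nat_lit 352, ⟨nat_lit 1000, nat_lit 0, nat_lit 0, nat_lit 0, nat_lit 0, nat_lit 0, nat_lit 0, nat_lit 0, nat_lit 0, nat_lit 0, nat_lit 0, nat_lit 0, nat_lit 0, nat_lit 0, nat_lit 0, nat_lit 0, false, false⟩,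
 nat_lit 12376, nat_lit 0, nat_lit 0, nat_lit 0, nat_lit 7261, nat_lit 7203, nat_lit 0, nat_lit 0, nat_lit 0, nat_lit 710, nat_lit 0, nat_lit 0, nat_lit 0, nat_lit 0, nat_lit 0, nat_lit 0, nat_lit 0, nat_lit 0, [],
 ⟨p116_k41, nat_lit 0, nat_lit 0, nat_lit 156, nat_lit 0, nat_lit 131993, [nat_lit 938000000, nat_lit 4688000000, nat_lit 6250000000], [], [nat_lit 28878939839, nat_lit 29389490042, nat_lit 35186742544, nat_lit 35677880979, nat_lit 28475612095, nat_lit 28903274478, nat_lit 33593272219, nat_lit 34007511935], nat_lit 1271250, nat_lit 1271250, nat_lit 1271250, nat_lit 1271250, nat_lit 490000, nat_lit 1396250, [nat_lit 230000, nat_lit 1100000, nat_lit 1442500], [nat_lit 55, nat_lit 40, nat_lit 40, nat_lit 80, nat_lit 3, nat_lit 260, nat_lit 50, nat_lit 8]⟩, ⟨p116_k2, nat_lit 0, nat_lit 0, nat_lit 252, nat_lit 0, nat_lit 248857, [nat_lit 4688000000, nat_lit 9842000000, nat_lit 14058000000], [], [nat_lit 26021876234, nat_lit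 26807488448, nat_lit 30591158926, nat_lit 31119893616, nat_lit 31501822763, nat_lit 32061707452, nat_lit 34985458436, nat_lit 35362560266], nat_lit 1271250, nat_lit 1271250, nat_lit 1271250, nat_lit 1271250, nat_lit 1100001, nat_lit 2744000, [nat_lit 1100000, nat_lit 2127500, nat_lit 1271250], [nat_lit 56, nat_lit 40, nat_lit 40, nat_lit 80, nat_lit 32, nat_lit 483, nat_lit 250, nat_lit 10]⟩,
 zbF0, [⟨nat_lit 4, nat_lit 100, nat_lit 35, nat_lit 90, nat_lit 360511892⟩, ⟨nat_lit 7, nat_lit 78, nat_lit 100, nat_lit 95, nat_lit 360748396⟩]⟩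
noncomputable def p116_l140 : Lf2 := ⟨nat_lit 0, nat_lit 30, [nat_lit 15, nat_lit 5, nat_lit 5, nat_lit 20], false, nat_lit 80, nat_lit 184, nat_lit 160, nat_lit 352, ⟨nat_lit 376, nat_lit 523, nat_lit 101, nat_lit 6, nat_lit 265, nat_lit 624, nat_lit 112, nat_lit 101, nat_lit 117600, nat_lit 299, nat_lit 133806, nat_lit 200, nat_lit 42552587, nat_lit 19460233, nat_lit 4987180, nat_lit 4466930, true, false⟩,
 nat_lit 6271, nat_lit 0, nat_lit 0, nat_lit 0, nat_lit 3216, nat_lit 3650, nat_lit 163, nat_lit 0, nat_lit 0, nat_lit 262, nat_lit 0, nat_lit 0, nat_lit 0, nat_lit 0, nat_lit 0, nat_lit 150445, nat_lit 0, nat_lit 0, [(nat_lit 29, [(nat_lit 0, nat_lit 523), (nat_lit 3, nat_lit 101)])],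
 ⟨p116_k18, nat_lit 0, nat_lit 0, nat_lit 197, nat_lit 0, nat_lit 278327, [nat_lit 877170401, nat_lit 2345952800, nat_lit 3082085200], [], [nat_lit 24117728185, nat_lit 24409793420, nat_lit 25441798360, nat_lit 25739217932, nat_lit 25037739024, nat_lit 25269793242, nat_lit 26180893283, nat_lit 26442573010], nat_lit 1271250, nat_lit 1271250, nat_lit 1271250, nat_lit 1271250, nat_lit 490000, nat_lit 1302500, [nat_lit 230000, nat_lit 1100000, nat_lit 1442500], [nat_lit 55, nat_lit 40, nat_lit 40, nat_lit 80, nat_lit 3, nat_lit 260, nat_lit 50, nat_lit 8]⟩, ⟨p116_k2, nat_lit 0, nat_lit 0, nat_lit 419, nat_lit 0, nat_lit 535874, [nat_lit 1762688000, nat_lit 3700592000, nat_lit 5285808000], [], [nat_lit 10123670820, nat_lit 10302258416, nat_lit 10450726916, nat_lit 10599195416, nat_lit 11519788796, nat_lit 11638278320, nat_lit 11756131480, nat_lit 11873984640], nat_lit 1271250, nat_lit 1271250, nat_lit 1271250, nat_lit 1271250, nat_lit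 1100001, nat_lit 2744000, [nat_lit 1100000, nat_lit 2127500, nat_lit 1271250], [nat_lit 56, nat_lit 40, nat_lit 40, nat_lit 80, nat_lit 32, nat_lit 483, nat_lit 250, nat_lit 10]⟩,
 ⟨nat_lit 1118, nat_lit 1582, ⟨.ofNat (nat_lit 624546), .ofNat (nat_lit 679215), .ofNat (nat_lit 647829), .ofNat (nat_lit 702528), .ofNat (nat_lit 624345), .ofNat (nat_lit 677505), .ofNat (nat_lit 648063), .ofNat (nat_lit 701254)⟩, ⟨.ofNat (nat_lit 196201), .ofNat (nat_lit 338254), .ofNat (nat_lit 200000), .ofNat (nat_lit 384884), .ofNat (nat_lit 198112), .ofNat (nat_lit 336242), .ofNat (nat_lit 200000), .ofNat (nat_lit 383744)⟩⟩, [⟨nat_lit 4, nat_lit 100, nat_lit 28, nat_lit 89, nat_lit 328233970⟩, ⟨nat_lit 7, nat_lit 82, nat_lit 100, nat_lit 92, nat_lit 131052350⟩]⟩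
noncomputable def p116_l141 : Lf2 := ⟨nat_lit 0, nat_lit 30, [nat_lit 15, nat_lit 5, nat_lit 5, nat_lit 20], false, nat_lit 80, nat_lit 164, nat_lit 160, nat_lit 352, ⟨nat_lit 390, nat_lit 610, nat_lit 0, nat_lit 6, nat_lit 265, nat_lit 610, nat_lit 106, nat_lit 0, nat_lit 0, nat_lit 0, nat_lit 0, nat_lit 0, nat_lit 42864613, nat_lit 19507254, nat_lit 4628133, nat_lit 4400173, true, false⟩,
 nat_lit 6033, nat_lit 0, nat_lit 0, nat_lit 0, nat_lit 3254, nat_lit 3511, nat_lit 166, nat_lit 0, nat_lit 0, nat_lit 231, nat_lit 0, nat_lit 0, nat_lit 0, nat_lit 0, nat_lit 0, nat_lit 152500, nat_lit 0, nat_lit 0, [(nat_lit 29, [(nat_lit 0, nat_lit 610)])],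
 ⟨p116_k43, nat_lit 0, nat_lit 0, nat_lit 207, nat_lit 0, nat_lit 297157, [nat_lit 842596000, nat_lit 2667924001, nat_lit 3527204000], [], [nat_lit 24526517680, nat_lit 24849848822, nat_lit 25859053708, nat_lit 26161584192, nat_lit 25046386981, nat_lit 25282012299, nat_lit 26205035071, nat_lit 26475817494], nat_lit 1271250, nat_lit 1271250, nat_lit 1271250, nat_lit 1271250, nat_lit 490000, nat_lit 1133651, [nat_lit 230000, nat_lit 1100000, nat_lit 1442500], [nat_lit 55, nat_lit 40, nat_lit 40, nat_lit 80, nat_lit 3, nat_lit 260, nat_lit 50, nat_lit 8]⟩, ⟨p116_k2, nat_lit 0, nat_lit 0, nat_lit 439, nat_lit 0, nat_lit 584111, [nat_lit 1828320000, nat_lit 3838380000, nat_lit 5482620000], [], [nat_lit 11614105094, nat_lit 11798337728, nat_lit 11953248642, nat_lit 12108159556, nat_lit 12732725509, nat_lit 12796964428, nat_lit 12892215089, nat_lit 12989040446], nat_lit 1271250, nat_lit 1271250, nat_lit 1271250, nat_lit 1271250, nat_lit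 1100001, nat_lit 2744000, [nat_lit 1100000, nat_lit 2127500, nat_lit 1271250], [nat_lit 56, nat_lit 40, nat_lit 40, nat_lit 80, nat_lit 32, nat_lit 483, nat_lit 250, nat_lit 10]⟩,
 ⟨nat_lit 0, nat_lit 1119, ⟨.ofNat (nat_lit 623914), .ofNat (nat_lit 677505), .ofNat (nat_lit 647199), .ofNat (nat_lit 701253), .ofNat (nat_lit 624534), .ofNat (nat_lit 674999), .ofNat (nat_lit 649068), .ofNat (nat_lit 699996)⟩, ⟨.ofNat (nat_lit 198112), .ofNat (nat_lit 309675), .ofNat (nat_lit 200000), .ofNat (nat_lit 357179), .ofNat (nat_lit 199999), .ofNat (nat_lit 304995), .ofNat (nat_lit 200000), .ofNat (nat_lit 354998)⟩⟩, [⟨nat_lit 0, nat_lit 96, nat_lit 16, nat_lit 100, nat_lit 55055623⟩, ⟨nat_lit 4, nat_lit 100, nat_lit 17, nat_lit 93, nat_lit 449145363⟩, ⟨nat_lit 7, nat_lit 82, nat_lit 100, nat_lit 92, nat_lit 123323542⟩]⟩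
noncomputable def p116_l142 : Lf2 := ⟨nat_lit 0, nat_lit 30, [nat_lit 15, nat_lit 5, nat_lit 5, nat_lit 20], false, nat_lit 80, nat_lit 184, nat_lit 160, nat_lit 352, ⟨nat_lit 905, nat_lit 95, nat_lit 0, nat_lit 7, nat_lit 290, nat_lit 95, nat_lit 111, nat_lit 0, nat_lit 0, nat_lit 0, nat_lit 0, nat_lit 0, nat_lit 40333495, nat_lit 21865453, nat_lit 4801052, nat_lit 4562538, true, true⟩,
 nat_lit 11551, nat_lit 0, nat_lit 0, nat_lit 0, nat_lit 3325, nat_lit 6723, nat_lit 360, nat_lit 0, nat_lit 0, nat_lit 788, nat_lit 0, nat_lit 0, nat_lit 0, nat_lit 0, nat_lit 0, nat_lit 23750, nat_lit 0, nat_lit 0, [(nat_lit 29, [(nat_lit 0, nat_lit 95)])],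
 ⟨p116_k3, nat_lit 0, nat_lit 0, nat_lit 216, nat_lit 0, nat_lit 303381, [nat_lit 923142001, nat_lit 3069580001, nat_lit 5825958000], [], [nat_lit 25669141750, nat_lit 26273009800, nat_lit 28236244081, nat_lit 28886923700, nat_lit 26409446857, nat_lit 26894942464, nat_lit 28606589837, nat_lit 29179628045], nat_lit 1271250, nat_lit 1271250, nat_lit 1271250, nat_lit 1271250, nat_lit 490000, nat_lit 1302500, [nat_lit 230000, nat_lit 780000, nat_lit 1435000], [nat_lit 20, nat_lit 40, nat_lit 40, nat_lit 80, nat_lit 16, nat_lit 260, nat_lit 50, nat_lit 8]⟩, ⟨p116_k15, nat_lit 0, nat_lit 0, nat_lit 427, nat_lit 0, nat_lit 584111, [nat_lit 4242640000, nat_lit 7211040000, nat_lit 12722490000], [], [nat_lit 25955204242, nat_lit 26377513964, nat_lit 27685303573, nat_lit 28012983867, nat_lit 28720582493, nat_lit 29024711425, nat_lit 30149468005, nat_lit 30372447006], nat_lit 1271250, nat_lit 1271250, nat_lit 1271250, nat_lit 1271250,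 nat_lit 1100001, nat_lit 2744000, [nat_lit 1100000, nat_lit 1785000, nat_lit 1271250], [nat_lit 37, nat_lit 40, nat_lit 40, nat_lit 80, nat_lit 28, nat_lit 483, nat_lit 250, nat_lit 10]⟩,
 ⟨nat_lit 0, nat_lit 1582, ⟨.ofNat (nat_lit 679215), .ofNat (nat_lit 755702), .ofNat (nat_lit 702515), .ofNat (nat_lit 779018), .ofNat (nat_lit 674999), .ofNat (nat_lit 744996), .ofNat (nat_lit 699984), .ofNat (nat_lit 769997)⟩, ⟨.ofNat (nat_lit 196201), .ofNat (nat_lit 338250), .ofNat (nat_lit 200000), .ofNat (nat_lit 384882), .ofNat (nat_lit 199999), .ofNat (nat_lit 329995), .ofNat (nat_lit 200000), .ofNat (nat_lit 379997)⟩⟩, [⟨nat_lit 4, nat_lit 100, nat_lit 23, nat_lit 91, nat_lit 959994494⟩, ⟨nat_lit 19, nat_lit 100, nat_lit 82, nat_lit 92, nat_lit 288474026⟩, ⟨nat_lit 22, nat_lit 89, nat_lit 84, nat_lit 100, nat_lit 18104770⟩]⟩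
noncomputable def b_V_900_600_20_69 : St := ⟨true, nat_lit 1, nat_lit 1, nat_lit 1, nat_lit 120, nat_lit 380, nat_lit 400, nat_lit 260, nat_lit 280, nat_lit 240, nat_lit 352, nat_lit 80, nat_lit 120, nat_lit 80, nat_lit 208, nat_lit 0, nat_lit 364, nat_lit 80, nat_lit 120, nat_lit 0, nat_lit 0, nat_lit 0, nat_lit 0⟩
theorem d_V_900_600_20_69 (h : EB TB.env) : Dead b_V_900_600_20_69 := chkB_sound0 h (T :=
(.trX (nat_lit 19) (nat_lit 100) (nat_lit 69) (nat_lit 96) (nat_lit 352) (.spl (nat_lit 5) (nat_lit 160)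
(.leaf p116_l135)
(.spl (nat_lit 0) (nat_lit 390)
(.spl (nat_lit 3) (nat_lit 100)
(.trX (nat_lit 16) (nat_lit 44) (nat_lit 100) (nat_lit 87) (nat_lit 188) (.trX (nat_lit 19) (nat_lit 100) (nat_lit 77) (nat_lit 91) (nat_lit 336) (.leaf p116_l136)))
(.spl (nat_lit 6) (nat_lit 100)
(.leaf p116_l137)
(.spl (nat_lit 0) (nat_lit 385)
(.leaf p116_l138)
(.trX (nat_lit 13) (nat_lit 41) (nat_lit 76) (nat_lit 100) (nat_lit 344) (.trX (nat_lit 16) (nat_lit 38) (nat_lit 100) (nat_lit 92) (nat_lit 196) (.leaf p116_l139))))))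
(.trX (nat_lit 13) (nat_lit 34) (nat_lit 81) (nat_lit 100) (nat_lit 336) (.trX (nat_lit 16) (nat_lit 31) (nat_lit 100) (nat_lit 92) (nat_lit 184) (.spl (nat_lit 2) (nat_lit 280)
(.spl (nat_lit 0) (nat_lit 395)
(.leaf p116_l140)
(.trX (nat_lit 16) (nat_lit 23) (nat_lit 100) (nat_lit 93) (nat_lit 164) (.leaf p116_l141)))
(.leaf p116_l142)))))))) (by decide +kernel)
noncomputable def p116_l143 : Lf2 := ⟨nat_lit 0, nat_lit 30, [nat_lit 15, nat_lit 5, nat_lit 5, nat_lit 20], true, nat_lit 8, nat_lit 248, nat_lit 0, nat_lit 364, ⟨nat_lit 0, nat_lit 1000, nat_lit 0, nat_lit 6, nat_lit 213, nat_lit 1000, nat_lit 94, nat_lit 0, nat_lit 0, nat_lit 0, nat_lit 0, nat_lit 0, nat_lit 0, nat_lit 0, nat_lit 0, nat_lit 5000000, false, false⟩,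
 nat_lit 0, nat_lit 4708, nat_lit 0, nat_lit 0, nat_lit 4100, nat_lit 0, nat_lit 29, nat_lit 0, nat_lit 0, nat_lit 0, nat_lit 0, nat_lit 0, nat_lit 0, nat_lit 0, nat_lit 0, nat_lit 400000, nat_lit 0, nat_lit 0, [(nat_lit 26, [(nat_lit 1, nat_lit 1000)]), (nat_lit 29, [(nat_lit 1, nat_lit 1000)])],
 ⟨p116_k6, nat_lit 0, nat_lit 0, nat_lit 471, nat_lit 0, nat_lit 531809, [nat_lit 971200000, nat_lit 984400000, nat_lit 751600000], [], [nat_lit 24043559248, nat_lit 27233509993, nat_lit 26153866361, nat_lit 28762988000, nat_lit 24176445864, nat_lit 26542060681, nat_lit 29534331000, nat_lit 27691096521], nat_lit 1271250, nat_lit 1271250, nat_lit 719601, nat_lit 1758000, nat_lit 43600, nat_lit 1756600, [nat_lit 230000, nat_lit 1100000, nat_lit 2127500], [nat_lit 81, nat_lit 40, nat_lit 40, nat_lit 80, nat_lit 13, nat_lit 345, nat_lit 125, nat_lit 10]⟩, C1.Rw.none,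
 ⟨nat_lit 0, nat_lit 3163, ⟨.ofNat (nat_lit 401957), .ofNat (nat_lit 605128), .ofNat (nat_lit 443658), .ofNat (nat_lit 646918), .ofNat (nat_lit 431745), .ofNat (nat_lit 599865), .ofNat (nat_lit 479136), .ofNat (nat_lit 647345)⟩, ⟨.ofNat (nat_lit 20000), .ofNat (nat_lit 440207), .ofNat (nat_lit 20000), .ofNat (nat_lit 484518), .ofNat (nat_lit 20000), .ofNat (nat_lit 409993), .ofNat (nat_lit 20000), .ofNat (nat_lit 459993)⟩⟩, [⟨nat_lit 4, nat_lit 100, nat_lit 44, nat_lit 87, nat_lit 125518286⟩]⟩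
noncomputable def p116_l144 : Lf2 := ⟨nat_lit 0, nat_lit 30, [nat_lit 15, nat_lit 5, nat_lit 5, nat_lit 20], false, nat_lit 8, nat_lit 248, nat_lit 0, nat_lit 160, ⟨nat_lit 759, nat_lit 241, nat_lit 0, nat_lit 6, nat_lit 288, nat_lit 241, nat_lit 94, nat_lit 0, nat_lit 0, nat_lit 0, nat_lit 0, nat_lit 0, nat_lit 0, nat_lit 0, nat_lit 0, nat_lit 5000000, true, true⟩,
 nat_lit 0, nat_lit 5171, nat_lit 0, nat_lit 0, nat_lit 4503, nat_lit 4555, nat_lit 176, nat_lit 0, nat_lit 0, nat_lit 552, nat_lit 0, nat_lit 0, nat_lit 0, nat_lit 0, nat_lit 0, nat_lit 241000, nat_lit 0, nat_lit 0, [(nat_lit 26, [(nat_lit 2, nat_lit 241)]), (nat_lit 29, [(nat_lit 2, nat_lit 241)])],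
 ⟨p116_k6, nat_lit 0, nat_lit 0, nat_lit 439, nat_lit 0, nat_lit 531809, [nat_lit 1215824800, nat_lit 3099038800, nat_lit 5723117200], [], [nat_lit 31751474121, nat_lit 33395215387, nat_lit 35350462778, nat_lit 36882857617, nat_lit 31311172779, nat_lit 32550810510, nat_lit 33961150125, nat_lit 34911063216], nat_lit 1271250, nat_lit 1271250, nat_lit 1271250, nat_lit 1271250, nat_lit 43600, nat_lit 1756600, [nat_lit 230000, nat_lit 1100000, nat_lit 2127500], [nat_lit 81, nat_lit 40, nat_lit 40, nat_lit 80, nat_lit 13, nat_lit 401, nat_lit 175, nat_lit 11]⟩, ⟨p116_k1, nat_lit 0, nat_lit 0, nat_lit 317, nat_lit 0, nat_lit 0, [nat_lit 3558192000, nat_lit 7470078000, nat_lit 12447600000], [], [nat_lit 25150266608, nat_lit 26224824564, nat_lit 29815129454, nat_lit 30434222897, nat_lit 21874364692, nat_lit 22669839948, nat_lit 26084214512, nat_lit 26873667678], nat_lit 0, nat_lit 0, nat_lit 0, nat_lit 0, nat_lit 0, nat_lit 0, [], [nat_lit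 83, nat_lit 40, nat_lit 40, nat_lit 80, nat_lit 73, nat_lit 456, nat_lit 225, nat_lit 9]⟩,
 ⟨nat_lit 0, nat_lit 3163, ⟨.ofNat (nat_lit 605128), .ofNat (nat_lit 812499), .ofNat (nat_lit 646918), .ofNat (nat_lit 856810), .ofNat (nat_lit 599865), .ofNat (nat_lit 769995), .ofNat (nat_lit 647345), .ofNat (nat_lit 819996)⟩, ⟨.ofNat (nat_lit 20000), .ofNat (nat_lit 440207), .ofNat (nat_lit 20000), .ofNat (nat_lit 484518), .ofNat (nat_lit 20000), .ofNat (nat_lit 409993), .ofNat (nat_lit 20000), .ofNat (nat_lit 459993)⟩⟩, [⟨nat_lit 16, nat_lit 44, nat_lit 100, nat_lit 87, nat_lit 335028738⟩]⟩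
noncomputable def p116_l145 : Lf2 := ⟨nat_lit 0, nat_lit 30, [nat_lit 15, nat_lit 5, nat_lit 5, nat_lit 20], false, nat_lit 8, nat_lit 248, nat_lit 160, nat_lit 364, ⟨nat_lit 779, nat_lit 221, nat_lit 0, nat_lit 6, nat_lit 288, nat_lit 221, nat_lit 94, nat_lit 0, nat_lit 0, nat_lit 0, nat_lit 0, nat_lit 0, nat_lit 0, nat_lit 0, nat_lit 0, nat_lit 5000000, true, true⟩,
 nat_lit 0, nat_lit 5572, nat_lit 0, nat_lit 0, nat_lit 4852, nat_lit 4238, nat_lit 265, nat_lit 0, nat_lit 0, nat_lit 0, nat_lit 0, nat_lit 0, nat_lit 0, nat_lit 0, nat_lit 0, nat_lit 221000, nat_lit 0, nat_lit 0, [(nat_lit 26, [(nat_lit 2, nat_lit 221)]), (nat_lit 29, [(nat_lit 2, nat_lit 221)])],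
 ⟨p116_k6, nat_lit 0, nat_lit 0, nat_lit 439, nat_lit 0, nat_lit 531809, [nat_lit 1192768800, nat_lit 3230902801, nat_lit 6064933200], [], [nat_lit 29972868407, nat_lit 31753864666, nat_lit 35038625127, nat_lit 37940760552, nat_lit 29120137869, nat_lit 30399838476, nat_lit 32191615044, nat_lit 33989902381], nat_lit 1271250, nat_lit 1271250, nat_lit 1271250, nat_lit 1271250, nat_lit 43600, nat_lit 1756600, [nat_lit 230000, nat_lit 1100000, nat_lit 2127500], [nat_lit 81, nat_lit 40, nat_lit 40, nat_lit 80, nat_lit 13, nat_lit 401, nat_lit 175, nat_lit 11]⟩, ⟨p116_k1, nat_lit 0, nat_lit 0, nat_lit 107, nat_lit 0, nat_lit 0, [nat_lit 3651952000, nat_lit 7666918000, nat_lit 12775600000], [], [nat_lit 12498822524, nat_lit 14462090820, nat_lit 20085572833, nat_lit 21329936776, nat_lit 20792378016, nat_lit 21895267088, nat_lit 25366764830, nat_lit 26142820424], nat_lit 0, nat_lit 0, nat_lit 0, nat_lit 0, nat_lit 0, nat_lit 0, [], [nat_lit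 83, nat_lit 40, nat_lit 40, nat_lit 80, nat_lit 73, nat_lit 538, nat_lit 300, nat_lit 11]⟩,
 ⟨nat_lit 0, nat_lit 3163, ⟨.ofNat (nat_lit 605128), .ofNat (nat_lit 812499), .ofNat (nat_lit 646918), .ofNat (nat_lit 856810), .ofNat (nat_lit 599865), .ofNat (nat_lit 769995), .ofNat (nat_lit 647345), .ofNat (nat_lit 819996)⟩, ⟨.ofNat (nat_lit 20000), .ofNat (nat_lit 440207), .ofNat (nat_lit 20000), .ofNat (nat_lit 484518), .ofNat (nat_lit 20000), .ofNat (nat_lit 409993), .ofNat (nat_lit 20000), .ofNat (nat_lit 459993)⟩⟩, [⟨nat_lit 16, nat_lit 44, nat_lit 100, nat_lit 87, nat_lit 163933495⟩, ⟨nat_lit 19, nat_lit 100, nat_lit 59, nat_lit 94, nat_lit 324597939⟩]⟩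
noncomputable def p116_l146 : Lf2 := ⟨nat_lit 0, nat_lit 30, [nat_lit 15, nat_lit 5, nat_lit 5, nat_lit 20], true, nat_lit 8, nat_lit 248, nat_lit 0, nat_lit 364, ⟨nat_lit 0, nat_lit 1000, nat_lit 0, nat_lit 6, nat_lit 213, nat_lit 1000, nat_lit 94, nat_lit 0, nat_lit 0, nat_lit 0, nat_lit 0, nat_lit 0, nat_lit 0, nat_lit 0, nat_lit 0, nat_lit 5000000, false, false⟩,
 nat_lit 0, nat_lit 4708, nat_lit 0, nat_lit 0, nat_lit 4100, nat_lit 0, nat_lit 29, nat_lit 0, nat_lit 0, nat_lit 0, nat_lit 0, nat_lit 0, nat_lit 0, nat_lit 0, nat_lit 0, nat_lit 400000, nat_lit 0, nat_lit 0, [(nat_lit 26, [(nat_lit 1, nat_lit 1000)]), (nat_lit 29, [(nat_lit 1, nat_lit 1000)])],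
 ⟨p116_k6, nat_lit 0, nat_lit 0, nat_lit 471, nat_lit 0, nat_lit 531809, [nat_lit 971200000, nat_lit 984400000, nat_lit 751600000], [], [nat_lit 24043559248, nat_lit 27233509993, nat_lit 26153866361, nat_lit 28762988000, nat_lit 24176445864, nat_lit 26542060681, nat_lit 29534331000, nat_lit 27691096521], nat_lit 1271250, nat_lit 1271250, nat_lit 719601, nat_lit 1758000, nat_lit 43600, nat_lit 1756600, [nat_lit 230000, nat_lit 1100000, nat_lit 2127500], [nat_lit 81, nat_lit 40, nat_lit 40, nat_lit 80, nat_lit 13, nat_lit 345, nat_lit 125, nat_lit 10]⟩, C1.Rw.none,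
 ⟨nat_lit 0, nat_lit 3163, ⟨.ofNat (nat_lit 401957), .ofNat (nat_lit 605128), .ofNat (nat_lit 443658), .ofNat (nat_lit 646918), .ofNat (nat_lit 431745), .ofNat (nat_lit 599865), .ofNat (nat_lit 479136), .ofNat (nat_lit 647345)⟩, ⟨.ofNat (nat_lit 20000), .ofNat (nat_lit 440207), .ofNat (nat_lit 20000), .ofNat (nat_lit 484518), .ofNat (nat_lit 20000), .ofNat (nat_lit 409993), .ofNat (nat_lit 20000), .ofNat (nat_lit 459993)⟩⟩, [⟨nat_lit 4, nat_lit 100, nat_lit 44, nat_lit 87, nat_lit 125518286⟩]⟩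
noncomputable def p116_l147 : Lf2 := ⟨nat_lit 0, nat_lit 30, [nat_lit 15, nat_lit 5, nat_lit 5, nat_lit 20], false, nat_lit 8, nat_lit 160, nat_lit 0, nat_lit 364, ⟨nat_lit 96, nat_lit 904, nat_lit 0, nat_lit 6, nat_lit 288, nat_lit 904, nat_lit 69, nat_lit 0, nat_lit 0, nat_lit 0, nat_lit 0, nat_lit 0, nat_lit 0, nat_lit 0, nat_lit 0, nat_lit 5000000, true, true⟩,
 nat_lit 1462, nat_lit 2299, nat_lit 0, nat_lit 958, nat_lit 3275, nat_lit 773, nat_lit 96, nat_lit 0, nat_lit 0, nat_lit 82, nat_lit 0, nat_lit 0, nat_lit 0, nat_lit 0, nat_lit 0, nat_lit 325150, nat_lit 0, nat_lit 0, [(nat_lit 26, [(nat_lit 0, nat_lit 243), (nat_lit 1, nat_lit 661)]), (nat_lit 29, [(nat_lit 0, nat_lit 243), (nat_lit 1, nat_lit 661)])],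
 ⟨p116_k9, nat_lit 0, nat_lit 0, nat_lit 339, nat_lit 0, nat_lit 345443, [nat_lit 842620001, nat_lit 1339647601, nat_lit 2114427029], [], [nat_lit 26348265004, nat_lit 28357386029, nat_lit 31256939084, nat_lit 33148065662, nat_lit 26135245735, nat_lit 27671049135, nat_lit 29750631756, nat_lit 31080655309], nat_lit 1271250, nat_lit 1271250, nat_lit 1271250, nat_lit 1271250, nat_lit 43600, nat_lit 1100001, [nat_lit 230000, nat_lit 780000, nat_lit 2090000], [nat_lit 93, nat_lit 40, nat_lit 40, nat_lit 80, nat_lit 63, nat_lit 373, nat_lit 150, nat_lit 10]⟩, ⟨p116_k4, nat_lit 0, nat_lit 0, nat_lit 677, nat_lit 0, nat_lit 664927, [nat_lit 450048000, nat_lit 764928000, nat_lit 1574400000], [], [nat_lit 3752613122, nat_lit 3816578326, nat_lit 4139797249, nat_lit 4214318909, nat_lit 3350314507, nat_lit 3358027170, nat_lit 3565399404, nat_lit 3579403911], nat_lit 1271250, nat_lit 1271250, nat_lit 1271250, nat_lit 1271250, nat_lit 0,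 nat_lit 2570750, [nat_lit 1100000, nat_lit 1785000, nat_lit 1271250], [nat_lit 122, nat_lit 40, nat_lit 40, nat_lit 80, nat_lit 111, nat_lit 538, nat_lit 300, nat_lit 11]⟩,
 ⟨nat_lit 0, nat_lit 3163, ⟨.ofNat (nat_lit 605128), .ofNat (nat_lit 812499), .ofNat (nat_lit 646918), .ofNat (nat_lit 856810), .ofNat (nat_lit 599865), .ofNat (nat_lit 769995), .ofNat (nat_lit 647345), .ofNat (nat_lit 819996)⟩, ⟨.ofNat (nat_lit 20000), .ofNat (nat_lit 306113), .ofNat (nat_lit 20000), .ofNat (nat_lit 350425), .ofNat (nat_lit 20000), .ofNat (nat_lit 299996), .ofNat (nat_lit 20000), .ofNat (nat_lit 349998)⟩⟩, [⟨nat_lit 13, nat_lit 46, nat_lit 76, nat_lit 100, nat_lit 322840675⟩, ⟨nat_lit 10, nat_lit 100, nat_lit 51, nat_lit 82, nat_lit 23761696⟩]⟩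
noncomputable def p116_l148 : Lf2 := ⟨nat_lit 0, nat_lit 30, [nat_lit 15, nat_lit 5, nat_lit 5, nat_lit 20], true, nat_lit 160, nat_lit 248, nat_lit 0, nat_lit 364, ⟨nat_lit 0, nat_lit 1000, nat_lit 0, nat_lit 6, nat_lit 272, nat_lit 1000, nat_lit 155, nat_lit 0, nat_lit 0, nat_lit 0, nat_lit 0, nat_lit 0, nat_lit 0, nat_lit 0, nat_lit 0, nat_lit 5000000, true, true⟩,
 nat_lit 0, nat_lit 4023, nat_lit 0, nat_lit 0, nat_lit 3503, nat_lit 0, nat_lit 112, nat_lit 0, nat_lit 0, nat_lit 0, nat_lit 0, nat_lit 0, nat_lit 0, nat_lit 0, nat_lit 0, nat_lit 354850, nat_lit 0, nat_lit 0, [(nat_lit 26, [(nat_lit 0, nat_lit 301), (nat_lit 1, nat_lit 699)]), (nat_lit 29, [(nat_lit 0, nat_lit 301), (nat_lit 1, nat_lit 699)])],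
 ⟨p116_k6, nat_lit 0, nat_lit 0, nat_lit 322, nat_lit 0, nat_lit 531809, [nat_lit 914130401, nat_lit 1243621200, nat_lit 1374295440], [], [nat_lit 24439117318, nat_lit 25943180154, nat_lit 26308546830, nat_lit 28289578232, nat_lit 25686589597, nat_lit 27246301298, nat_lit 27629947842, nat_lit 29822791441], nat_lit 1271250, nat_lit 1271250, nat_lit 1271250, nat_lit 1271250, nat_lit 1100001, nat_lit 1853500, [nat_lit 230000, nat_lit 1100000, nat_lit 2127500], [nat_lit 81, nat_lit 40, nat_lit 40, nat_lit 80, nat_lit 13, nat_lit 373, nat_lit 150, nat_lit 9]⟩, C1.Rw.none,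
 ⟨nat_lit 0, nat_lit 3163, ⟨.ofNat (nat_lit 605128), .ofNat (nat_lit 727166), .ofNat (nat_lit 646918), .ofNat (nat_lit 771478), .ofNat (nat_lit 599865), .ofNat (nat_lit 699997), .ofNat (nat_lit 647345), .ofNat (nat_lit 749999)⟩, ⟨.ofNat (nat_lit 306113), .ofNat (nat_lit 440207), .ofNat (nat_lit 350425), .ofNat (nat_lit 484518), .ofNat (nat_lit 299996), .ofNat (nat_lit 409993), .ofNat (nat_lit 349998), .ofNat (nat_lit 459993)⟩⟩, [⟨nat_lit 16, nat_lit 62, nat_lit 100, nat_lit 94, nat_lit 61720031⟩, ⟨nat_lit 4, nat_lit 100, nat_lit 44, nat_lit 87, nat_lit 347867409⟩]⟩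
noncomputable def p116_l149 : Lf2 := ⟨nat_lit 0, nat_lit 30, [nat_lit 15, nat_lit 5, nat_lit 5, nat_lit 20], false, nat_lit 160, nat_lit 248, nat_lit 16, nat_lit 364, ⟨nat_lit 0, nat_lit 1000, nat_lit 0, nat_lit 8, nat_lit 310, nat_lit 1000, nat_lit 155, nat_lit 0, nat_lit 0, nat_lit 0, nat_lit 0, nat_lit 0, nat_lit 0, nat_lit 0, nat_lit 0, nat_lit 5000000, true, true⟩,
 nat_lit 0, nat_lit 3615, nat_lit 0, nat_lit 4382, nat_lit 3148, nat_lit 0, nat_lit 130, nat_lit 0, nat_lit 0, nat_lit 0, nat_lit 0, nat_lit 0, nat_lit 0, nat_lit 0, nat_lit 0, nat_lit 325000, nat_lit 0, nat_lit 0, [(nat_lit 26, [(nat_lit 0, nat_lit 500), (nat_lit 1, nat_lit 500)]), (nat_lit 29, [(nat_lit 0, nat_lit 500), (nat_lit 1, nat_lit 500)])],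
 ⟨p116_k9, nat_lit 0, nat_lit 0, nat_lit 255, nat_lit 0, nat_lit 345443, [nat_lit 816400001, nat_lit 1227800001, nat_lit 1824371429], [], [nat_lit 26799344756, nat_lit 28369900481, nat_lit 28744912766, nat_lit 30442534151, nat_lit 27992044385, nat_lit 29517550862, nat_lit 29866907651, nat_lit 31701552660], nat_lit 1271250, nat_lit 1271250, nat_lit 1271250, nat_lit 1271250, nat_lit 1100001, nat_lit 1853500, [nat_lit 230000, nat_lit 780000, nat_lit 2090000], [nat_lit 93, nat_lit 40, nat_lit 40, nat_lit 80, nat_lit 63, nat_lit 289, nat_lit 75, nat_lit 7]⟩, ⟨p116_k4, nat_lit 0, nat_lit 0, nat_lit 651, nat_lit 0, nat_lit 664927, [nat_lit 0, nat_lit 0, nat_lit 0], [], [nat_lit 0, nat_lit 0, nat_lit 0, nat_lit 0, nat_lit 0, nat_lit 0, nat_lit 0, nat_lit 0], nat_lit 1271250, nat_lit 1271250, nat_lit 1271250, nat_lit 1271250, nat_lit 88400, nat_lit 2598350, [nat_lit 1100000, nat_lit 1785000, nat_lit 1271250], [nat_lit 122, nat_lit 40,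 nat_lit 40, nat_lit 80, nat_lit 111, nat_lit 538, nat_lit 300, nat_lit 11]⟩,
 ⟨nat_lit 0, nat_lit 3163, ⟨.ofNat (nat_lit 727166), .ofNat (nat_lit 812499), .ofNat (nat_lit 771478), .ofNat (nat_lit 856810), .ofNat (nat_lit 699997), .ofNat (nat_lit 769995), .ofNat (nat_lit 749999), .ofNat (nat_lit 819996)⟩, ⟨.ofNat (nat_lit 306113), .ofNat (nat_lit 440207), .ofNat (nat_lit 350425), .ofNat (nat_lit 484518), .ofNat (nat_lit 299996), .ofNat (nat_lit 409993), .ofNat (nat_lit 349998), .ofNat (nat_lit 459993)⟩⟩, [⟨nat_lit 13, nat_lit 65, nat_lit 54, nat_lit 100, nat_lit 438537652⟩, ⟨nat_lit 16, nat_lit 62, nat_lit 100, nat_lit 94, nat_lit 270934556⟩]⟩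
noncomputable def b_V_900_600_20_70 : St := ⟨true, nat_lit 1, nat_lit 2, nat_lit 2, nat_lit 120, nat_lit 360, nat_lit 400, nat_lit 240, nat_lit 280, nat_lit 112, nat_lit 376, nat_lit 80, nat_lit 120, nat_lit 8, nat_lit 248, nat_lit 0, nat_lit 364, nat_lit 80, nat_lit 120, nat_lit 0, nat_lit 0, nat_lit 0, nat_lit 0⟩
theorem d_V_900_600_20_70 (h : EB TB.env) : Dead b_V_900_600_20_70 := chkB_sound0 h (T :=
(.st (nat_lit 1)
(.spl (nat_lit 2) (nat_lit 240)
(.leaf p116_l143)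
(.spl (nat_lit 5) (nat_lit 160)
(.leaf p116_l144)
(.leaf p116_l145)))
(.spl (nat_lit 2) (nat_lit 240)
(.leaf p116_l146)
(.spl (nat_lit 4) (nat_lit 160)
(.leaf p116_l147)
(.spl (nat_lit 2) (nat_lit 320)
(.leaf p116_l148)
(.trZ (nat_lit 9) (nat_lit 100) (nat_lit 82) (nat_lit 44) (nat_lit 16) (.leaf p116_l149))))))) (by decide +kernel)

end B2
end Pool.Agent.Lib.MP_6947cd_al
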