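import Pool.Agent.Lib.MP_6947cd_al.ZB.Pre

/-!
Problem MP_6947cd_al (Chollet).  Case B, second entry in [2/5, 17/20]: certificates of the tree, part P117 (generated).
-/

set_option autoImplicit false
set_option linter.all false

namespace Pool.Agent.Lib.MP_6947cd_al
namespace B2

open Ent Fr B1 PkA

noncomputable def p117_k0 : C1.Kn := ⟨[nat_lit 20, nat_lit 80, nat_lit 120], [nat_lit 0, nat_lit 2121, nat_lit 4818], [(nat_lit 0, nat_lit 0, nat_lit 0), (nat_lit 1000, nat_lit 558, nat_lit 551), (nat_lit 1000, nat_lit 443, nat_lit 981)], (nat_lit 44, nat_lit 100, nat_lit 92)⟩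
noncomputable def p117_k1 : C1.Kn := ⟨[nat_lit 80, nat_lit 140, nat_lit 200], [nat_lit 0, nat_lit 0, nat_lit 5481], [(nat_lit 0, nat_lit 0, nat_lit 0), (nat_lit 0, nat_lit 0, nat_lit 0), (nat_lit 637, nat_lit 1000, nat_lit 908)], (nat_lit 0, nat_lit 0, nat_lit 0)⟩
noncomputable def p117_k2 : C1.Kn := ⟨[nat_lit 20, nat_lit 140], [nat_lit 0, nat_lit 0], [(nat_lit 0, nat_lit 0, nat_lit 0), (nat_lit 0, nat_lit 0, nat_lit 0)], (nat_lit 62, nat_lit 100, nat_lit 94)⟩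
noncomputable def p117_k3 : C1.Kn := ⟨[nat_lit 80, nat_lit 180], [nat_lit 0, nat_lit 1319], [(nat_lit 0, nat_lit 0, nat_lit 0), (nat_lit 1000, nat_lit 959, nat_lit 206)], (nat_lit 100, nat_lit 69, nat_lit 96)⟩
noncomputable def p117_k4 : C1.Kn := ⟨[nat_lit 20, nat_lit 80, nat_lit 140], [nat_lit 0, nat_lit 0, nat_lit 4928], [(nat_lit 0, nat_lit 0, nat_lit 0), (nat_lit 0, nat_lit 0, nat_lit 0), (nat_lit 950, nat_lit 618, nat_lit 1000)], (nat_lit 62, nat_lit 100, nat_lit 94)⟩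
noncomputable def p117_k5 : C1.Kn := ⟨[nat_lit 80, nat_lit 140, nat_lit 180], [nat_lit 0, nat_lit 792, nat_lit 4228], [(nat_lit 0, nat_lit 0, nat_lit 0), (nat_lit 1000, nat_lit 959, nat_lit 206), (nat_lit 709, nat_lit 1000, nat_lit 949)], (nat_lit 100, nat_lit 69, nat_lit 96)⟩
noncomputable def p117_k6 : C1.Kn := ⟨[nat_lit 20, nat_lit 60, nat_lit 140], [nat_lit 0, nat_lit 0, nat_lit 4874], [(nat_lit 0, nat_lit 0, nat_lit 0), (nat_lit 0, nat_lit 0, nat_lit 0), (nat_lit 1000, nat_lit 619, nat_lit 951)], (nat_lit 62, nat_lit 100, nat_lit 94)⟩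
noncomputable def p117_k7 : C1.Kn := ⟨[nat_lit 20, nat_lit 80, nat_lit 120], [nat_lit 0, nat_lit 0, nat_lit 3661], [(nat_lit 0, nat_lit 0, nat_lit 0), (nat_lit 0, nat_lit 0, nat_lit 0), (nat_lit 1000, nat_lit 611, nat_lit 913)], (nat_lit 60, nat_lit 100, nat_lit 87)⟩
noncomputable def p117_k8 : C1.Kn := ⟨[nat_lit 20, nat_lit 60, nat_lit 120], [nat_lit 0, nat_lit 0, nat_lit 3661], [(nat_lit 0, nat_lit 0, nat_lit 0), (nat_lit 0, nat_lit 0, nat_lit 0), (nat_lit 1000, nat_lit 611, nat_lit 913)], (nat_lit 60, nat_lit 100, nat_lit 87)⟩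
noncomputable def p117_k9 : C1.Kn := ⟨[nat_lit 80, nat_lit 120, nat_lit 180], [nat_lit 0, nat_lit 0, nat_lit 3196], [(nat_lit 0, nat_lit 0, nat_lit 0), (nat_lit 0, nat_lit 0, nat_lit 0), (nat_lit 858, nat_lit 1000, nat_lit 713)], (nat_lit 100, nat_lit 68, nat_lit 88)⟩
noncomputable def p117_k10 : C1.Kn := ⟨[nat_lit 20, nat_lit 80, nat_lit 100], [nat_lit 0, nat_lit 2121, nat_lit 3610], [(nat_lit 0, nat_lit 0, nat_lit 0), (nat_lit 1000, nat_lit 558, nat_lit 551), (nat_lit 1000, nat_lit 436, nat_lit 895)], (nat_lit 44, nat_lit 100, nat_lit 87)⟩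
noncomputable def p117_k11 : C1.Kn := ⟨[nat_lit 80, nat_lit 140, nat_lit 180], [nat_lit 0, nat_lit 0, nat_lit 3656], [(nat_lit 0, nat_lit 0, nat_lit 0), (nat_lit 0, nat_lit 0, nat_lit 0), (nat_lit 637, nat_lit 1000, nat_lit 908)], (nat_lit 100, nat_lit 68, nat_lit 88)⟩
noncomputable def p117_k12 : C1.Kn := ⟨[nat_lit 20, nat_lit 60, nat_lit 80], [nat_lit 0, nat_lit 2136, nat_lit 3185], [(nat_lit 0, nat_lit 0, nat_lit 0), (nat_lit 1000, nat_lit 343, nat_lit 808), (nat_lit 1000, nat_lit 338, nat_lit 820)], (nat_lit 32, nat_lit 100, nat_lit 88)⟩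
noncomputable def p117_k13 : C1.Kn := ⟨[nat_lit 20, nat_lit 60, nat_lit 120], [nat_lit 0, nat_lit 698, nat_lit 4166], [(nat_lit 0, nat_lit 0, nat_lit 0), (nat_lit 1000, nat_lit 782, nat_lit 272), (nat_lit 1000, nat_lit 529, nat_lit 902)], (nat_lit 53, nat_lit 100, nat_lit 93)⟩
noncomputable def p117_k14 : C1.Kn := ⟨[nat_lit 80, nat_lit 120, nat_lit 180], [nat_lit 0, nat_lit 528, nat_lit 3600], [(nat_lit 0, nat_lit 0, nat_lit 0), (nat_lit 1000, nat_lit 959, nat_lit 206), (nat_lit 929, nat_lit 1000, nat_lit 742)], (nat_lit 100, nat_lit 69, nat_lit 96)⟩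
noncomputable def p117_k15 : C1.Kn := ⟨[nat_lit 20, nat_lit 80, nat_lit 100], [nat_lit 0, nat_lit 3199, nat_lit 4400], [(nat_lit 0, nat_lit 0, nat_lit 0), (nat_lit 1000, nat_lit 333, nat_lit 833), (nat_lit 1000, nat_lit 312, nat_lit 938)], (nat_lit 31, nat_lit 100, nat_lit 92)⟩
noncomputable def p117_k16 : C1.Kn := ⟨[nat_lit 20, nat_lit 80, nat_lit 100], [nat_lit 0, nat_lit 2663, nat_lit 3968], [(nat_lit 0, nat_lit 0, nat_lit 0), (nat_lit 1000, nat_lit 445, nat_lit 693), (nat_lit 1000, nat_lit 380, nat_lit 921)], (nat_lit 38, nat_lit 100, nat_lit 92)⟩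
noncomputable def p117_k17 : C1.Kn := ⟨[nat_lit 20, nat_lit 80, nat_lit 120], [nat_lit 0, nat_lit 1046, nat_lit 4184], [(nat_lit 0, nat_lit 0, nat_lit 0), (nat_lit 1000, nat_lit 782, nat_lit 272), (nat_lit 1000, nat_lit 536, nat_lit 947)], (nat_lit 53, nat_lit 100, nat_lit 93)⟩
noncomputable def p117_k18 : C1.Kn := ⟨[nat_lit 20, nat_lit 80, nat_lit 120], [nat_lit 0, nat_lit 508, nat_lit 3912], [(nat_lit 0, nat_lit 0, nat_lit 0), (nat_lit 1000, nat_lit 894, nat_lit 132), (nat_lit 1000, nat_lit 576, nat_lit 936)], (nat_lit 58, nat_lit 100, nat_lit 93)⟩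
noncomputable def p117_k19 : C1.Kn := ⟨[nat_lit 20, nat_lit 60, nat_lit 100], [nat_lit 0, nat_lit 1415, nat_lit 3591], [(nat_lit 0, nat_lit 0, nat_lit 0), (nat_lit 1000, nat_lit 558, nat_lit 551), (nat_lit 1000, nat_lit 439, nat_lit 849)], (nat_lit 44, nat_lit 100, nat_lit 87)⟩
noncomputable def p117_k20 : C1.Kn := ⟨[nat_lit 80, nat_lit 120, nat_lit 180], [nat_lit 0, nat_lit 528, nat_lit 3600], [(nat_lit 0, nat_lit 0, nat_lit 0), (nat_lit 1000, nat_lit 959, nat_lit 206), (nat_lit 929, nat_lit 1000, nat_lit 742)], (nat_lit 100, nat_lit 77, nat_lit 91)⟩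
noncomputable def p117_k21 : C1.Kn := ⟨[nat_lit 20, nat_lit 60, nat_lit 80], [nat_lit 0, nat_lit 2600, nat_lit 3731], [(nat_lit 0, nat_lit 0, nat_lit 0), (nat_lit 1000, nat_lit 245, nat_lit 872), (nat_lit 1000, nat_lit 240, nat_lit 884)], (nat_lit 23, nat_lit 100, nat_lit 91)⟩
noncomputable def p117_k22 : C1.Kn := ⟨[nat_lit 80, nat_lit 140, nat_lit 180], [nat_lit 0, nat_lit 395, nat_lit 3941], [(nat_lit 0, nat_lit 0, nat_lit 0), (nat_lit 1000, nat_lit 979, nat_lit 103), (nat_lit 672, nat_lit 1000, nat_lit 927)], (nat_lit 100, nat_lit 64, nat_lit 95)⟩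
noncomputable def p117_k23 : C1.Kn := ⟨[nat_lit 20, nat_lit 80, nat_lit 100], [nat_lit 0, nat_lit 3758, nat_lit 4955], [(nat_lit 0, nat_lit 0, nat_lit 0), (nat_lit 1000, nat_lit 228, nat_lit 923), (nat_lit 1000, nat_lit 226, nat_lit 935)], (nat_lit 23, nat_lit 100, nat_lit 93)⟩
noncomputable def p117_k24 : C1.Kn := ⟨[nat_lit 20, nat_lit 60, nat_lit 100], [nat_lit 0, nat_lit 2136, nat_lit 4235], [(nat_lit 0, nat_lit 0, nat_lit 0), (nat_lit 1000, nat_lit 343, nat_lit 808), (nat_lit 1000, nat_lit 338, nat_lit 820)], (nat_lit 31, nat_lit 100, nat_lit 92)⟩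
noncomputable def p117_k25 : C1.Kn := ⟨[nat_lit 20, nat_lit 60, nat_lit 100], [nat_lit 0, nat_lit 2600, nat_lit 4863], [(nat_lit 0, nat_lit 0, nat_lit 0), (nat_lit 1000, nat_lit 245, nat_lit 872), (nat_lit 1000, nat_lit 240, nat_lit 884)], (nat_lit 23, nat_lit 100, nat_lit 93)⟩
noncomputable def p117_k26 : C1.Kn := ⟨[nat_lit 20, nat_lit 80], [nat_lit 0, nat_lit 3199], [(nat_lit 0, nat_lit 0, nat_lit 0), (nat_lit 1000, nat_lit 333, nat_lit 833)], (nat_lit 32, nat_lit 100, nat_lit 88)⟩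
noncomputable def p117_k27 : C1.Kn := ⟨[nat_lit 80, nat_lit 140, nat_lit 180], [nat_lit 0, nat_lit 592, nat_lit 4084], [(nat_lit 0, nat_lit 0, nat_lit 0), (nat_lit 1000, nat_lit 969, nat_lit 154), (nat_lit 690, nat_lit 1000, nat_lit 938)], (nat_lit 100, nat_lit 66, nat_lit 95)⟩
noncomputable def p117_k28 : C1.Kn := ⟨[nat_lit 80, nat_lit 140, nat_lit 180], [nat_lit 0, nat_lit 1192, nat_lit 4513], [(nat_lit 0, nat_lit 0, nat_lit 0), (nat_lit 1000, nat_lit 938, nat_lit 310), (nat_lit 752, nat_lit 1000, nat_lit 973)], (nat_lit 100, nat_lit 74, nat_lit 98)⟩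
noncomputable def p117_k29 : C1.Kn := ⟨[nat_lit 80, nat_lit 140, nat_lit 180], [nat_lit 0, nat_lit 792, nat_lit 4228], [(nat_lit 0, nat_lit 0, nat_lit 0), (nat_lit 1000, nat_lit 959, nat_lit 206), (nat_lit 709, nat_lit 1000, nat_lit 949)], (nat_lit 100, nat_lit 77, nat_lit 91)⟩
noncomputable def p117_k30 : C1.Kn := ⟨[nat_lit 20, nat_lit 80, nat_lit 100], [nat_lit 0, nat_lit 3520, nat_lit 4692], [(nat_lit 0, nat_lit 0, nat_lit 0), (nat_lit 1000, nat_lit 268, nat_lit 908), (nat_lit 1000, nat_lit 267, nat_lit 916)], (nat_lit 27, nat_lit 100, nat_lit 93)⟩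
noncomputable def p117_k31 : C1.Kn := ⟨[nat_lit 20, nat_lit 80], [nat_lit 0, nat_lit 4248], [(nat_lit 0, nat_lit 0, nat_lit 0), (nat_lit 1000, nat_lit 144, nat_lit 959)], (nat_lit 15, nat_lit 100, nat_lit 95)⟩
noncomputable def p117_k32 : C1.Kn := ⟨[nat_lit 80, nat_lit 140, nat_lit 180], [nat_lit 0, nat_lit 1393, nat_lit 4654], [(nat_lit 0, nat_lit 0, nat_lit 0), (nat_lit 1000, nat_lit 927, nat_lit 362), (nat_lit 777, nat_lit 1000, nat_lit 985)], (nat_lit 100, nat_lit 77, nat_lit 99)⟩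
noncomputable def p117_k33 : C1.Kn := ⟨[nat_lit 20, nat_lit 60, nat_lit 120], [nat_lit 0, nat_lit 1415, nat_lit 4677], [(nat_lit 0, nat_lit 0, nat_lit 0), (nat_lit 1000, nat_lit 558, nat_lit 551), (nat_lit 1000, nat_lit 439, nat_lit 849)], (nat_lit 44, nat_lit 100, nat_lit 92)⟩
noncomputable def p117_k34 : C1.Kn := ⟨[nat_lit 80, nat_lit 120, nat_lit 200], [nat_lit 0, nat_lit 0, nat_lit 4259], [(nat_lit 0, nat_lit 0, nat_lit 0), (nat_lit 0, nat_lit 0, nat_lit 0), (nat_lit 858, nat_lit 1000, nat_lit 713)], (nat_lit 0, nat_lit 0, nat_lit 0)⟩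
noncomputable def p117_l0 : Lf2 := ⟨nat_lit 1, nat_lit 25, [nat_lit 44, nat_lit 5, nat_lit 5, nat_lit 20], false, nat_lit 8, nat_lit 80, nat_lit 0, nat_lit 352, zbN0,
 nat_lit 0, nat_lit 0, nat_lit 0, nat_lit 0, nat_lit 0, nat_lit 0, nat_lit 0, nat_lit 0, nat_lit 0, nat_lit 0, nat_lit 0, nat_lit 0, nat_lit 0, nat_lit 0, nat_lit 0, nat_lit 0, nat_lit 0, nat_lit 0, [],
 C1.Rw.none, C1.Rw.none,
 zbF0, []⟩
noncomputable def p117_l1 : Lf2 := ⟨nat_lit 1, nat_lit 30, [nat_lit 15, nat_lit 5, nat_lit 5, nat_lit 20], false, nat_lit 16, nat_lit 80, nat_lit 0, nat_lit 364, zbN0,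
 nat_lit 0, nat_lit 0, nat_lit 0, nat_lit 0, nat_lit 0, nat_lit 0, nat_lit 0, nat_lit 0, nat_lit 0, nat_lit 0, nat_lit 0, nat_lit 0, nat_lit 0, nat_lit 0, nat_lit 0, nat_lit 0, nat_lit 0, nat_lit 0, [],
 C1.Rw.none, C1.Rw.none,
 zbF0, []⟩
noncomputable def p117_l2 : Lf2 := ⟨nat_lit 1, nat_lit 30, [nat_lit 15, nat_lit 5, nat_lit 5, nat_lit 20], false, nat_lit 8, nat_lit 80, nat_lit 0, nat_lit 364, zbN0,
 nat_lit 0, nat_lit 0, nat_lit 0, nat_lit 0, nat_lit 0, nat_lit 0, nat_lit 0, nat_lit 0, nat_lit 0, nat_lit 0, nat_lit 0, nat_lit 0, nat_lit 0, nat_lit 0, nat_lit 0, nat_lit 0, nat_lit 0, nat_lit 0, [],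
 C1.Rw.none, C1.Rw.none,
 zbF0, []⟩
noncomputable def p117_l3 : Lf2 := ⟨nat_lit 0, nat_lit 30, [nat_lit 15, nat_lit 5, nat_lit 5, nat_lit 20], false, nat_lit 20, nat_lit 80, nat_lit 0, nat_lit 364, ⟨nat_lit 171, nat_lit 0, nat_lit 829, nat_lit 6, nat_lit 220, nat_lit 829, nat_lit 50, nat_lit 829, nat_lit 22817, nat_lit 252, nat_lit 2526, nat_lit 204, nat_lit 50024177, nat_lit 0, nat_lit 0, nat_lit 3338021, false, false⟩,
 nat_lit 0, nat_lit 0, nat_lit 0, nat_lit 5660, nat_lit 2423, nat_lit 2062, nat_lit 0, nat_lit 0, nat_lit 0, nat_lit 134, nat_lit 0, nat_lit 0, nat_lit 0, nat_lit 0, nat_lit 61, nat_lit 207250, nat_lit 0, nat_lit 0, [(nat_lit 29, [(nat_lit 4, nat_lit 829)])],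
 ⟨p117_k0, nat_lit 0, nat_lit 0, nat_lit 175, nat_lit 0, nat_lit 0, [nat_lit 1035764401, nat_lit 285779601, nat_lit 291777600], [], [nat_lit 21344463237, nat_lit 22566846559, nat_lit 23453376529, nat_lit 24519414497, nat_lit 20875843612, nat_lit 22046027609, nat_lit 22956605350, nat_lit 23979508790], nat_lit 0, nat_lit 0, nat_lit 0, nat_lit 0, nat_lit 0, nat_lit 0, [], [nat_lit 57, nat_lit 40, nat_lit 40, nat_lit 80, nat_lit 7, nat_lit 317, nat_lit 100, nat_lit 10]⟩, ⟨p117_k1, nat_lit 0, nat_lit 0, nat_lit 414, nat_lit 0, nat_lit 0, [nat_lit 801648000, nat_lit 1682982000, nat_lit 2804400000], [], [nat_lit 6347574818, nat_lit 6545878205, nat_lit 6474720830, nat_lit 6626774824, nat_lit 5527956427, nat_lit 5585791034, nat_lit 5282550570, nat_lit 5319240877], nat_lit 0, nat_lit 0, nat_lit 0, nat_lit 0, nat_lit 0, nat_lit 0, [], [nat_lit 83, nat_lit 40, nat_lit 40, nat_lit 80, nat_lit 73, nat_lit 456, nat_lit 225,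 nat_lit 10]⟩,
 ⟨nat_lit 0, nat_lit 2237, ⟨.ofNat (nat_lit 467180), .ofNat (nat_lit 602531), .ofNat (nat_lit 489028), .ofNat (nat_lit 624400), .ofNat (nat_lit 480752), .ofNat (nat_lit 599967), .ofNat (nat_lit 504825), .ofNat (nat_lit 624062)⟩, ⟨.ofNat (nat_lit 50000), .ofNat (nat_lit 192306), .ofNat (nat_lit 50000), .ofNat (nat_lit 200000), .ofNat (nat_lit 50000), .ofNat (nat_lit 199999), .ofNat (nat_lit 50000), .ofNat (nat_lit 200000)⟩⟩, [⟨nat_lit 3, nat_lit 100, nat_lit 36, nat_lit 77, nat_lit 295904660⟩, ⟨nat_lit 22, nat_lit 100, nat_lit 73, nat_lit 66, nat_lit 23428325⟩]⟩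
noncomputable def p117_l4 : Lf2 := ⟨nat_lit 0, nat_lit 30, [nat_lit 15, nat_lit 5, nat_lit 5, nat_lit 20], false, nat_lit 8, nat_lit 80, nat_lit 0, nat_lit 160, ⟨nat_lit 563, nat_lit 0, nat_lit 437, nat_lit 6, nat_lit 223, nat_lit 437, nat_lit 43, nat_lit 437, nat_lit 17067, nat_lit 247, nat_lit 23440, nat_lit 200, nat_lit 49935015, nat_lit 0, nat_lit 0, nat_lit 3277318, false, false⟩,
 nat_lit 0, nat_lit 0, nat_lit 0, nat_lit 8441, nat_lit 4366, nat_lit 3703, nat_lit 0, nat_lit 0, nat_lit 0, nat_lit 0, nat_lit 0, nat_lit 0, nat_lit 0, nat_lit 0, nat_lit 15, nat_lit 437000, nat_lit 0, nat_lit 0, [(nat_lit 26, [(nat_lit 6, nat_lit 437)]), (nat_lit 29, [(nat_lit 6, nat_lit 437)])],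
 ⟨p117_k2, nat_lit 0, nat_lit 0, nat_lit 249, nat_lit 0, nat_lit 0, [nat_lit 1458947601, nat_lit 1121708000], [], [nat_lit 25975941023, nat_lit 28196133075, nat_lit 27227928984, nat_lit 29402426320, nat_lit 24227556766, nat_lit 26247404723, nat_lit 25503414258, nat_lit 27223935066], nat_lit 0, nat_lit 0, nat_lit 0, nat_lit 0, nat_lit 0, nat_lit 0, [], [nat_lit 132, nat_lit 40, nat_lit 40, nat_lit 80, nat_lit 133, nat_lit 317, nat_lit 100, nat_lit 9]⟩, ⟨p117_k3, nat_lit 0, nat_lit 0, nat_lit 235, nat_lit 0, nat_lit 0, [nat_lit 2639344000, nat_lit 7914654000], [], [nat_lit 21959591853, nat_lit 22590419697, nat_lit 23048742440, nat_lit 23550352264, nat_lit 19500793870, nat_lit 19956831114, nat_lit 20312349692, nat_lit 20672684924], nat_lit 0, nat_lit 0, nat_lit 0, nat_lit 0, nat_lit 0, nat_lit 0, [], [nat_lit 145, nat_lit 40, nat_lit 40, nat_lit 80, nat_lit 144, nat_lit 401, nat_lit 175, nat_lit 9]⟩,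
 ⟨nat_lit 0, nat_lit 3163, ⟨.ofNat (nat_lit 454567), .ofNat (nat_lit 626068), .ofNat (nat_lit 475417), .ofNat (nat_lit 646918), .ofNat (nat_lit 481723), .ofNat (nat_lit 623650), .ofNat (nat_lit 505418), .ofNat (nat_lit 647345)⟩, ⟨.ofNat (nat_lit 20000), .ofNat (nat_lit 184209), .ofNat (nat_lit 20000), .ofNat (nat_lit 200000), .ofNat (nat_lit 20000), .ofNat (nat_lit 199999), .ofNat (nat_lit 20000), .ofNat (nat_lit 200000)⟩⟩, [⟨nat_lit 0, nat_lit 94, nat_lit 44, nat_lit 100, nat_lit 197414028⟩, ⟨nat_lit 0, nat_lit 100, nat_lit 63, nat_lit 99, nat_lit 155664260⟩, ⟨nat_lit 3, nat_lit 100, nat_lit 75, nat_lit 35, nat_lit 124007582⟩]⟩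
noncomputable def p117_l5 : Lf2 := ⟨nat_lit 0, nat_lit 30, [nat_lit 15, nat_lit 5, nat_lit 5, nat_lit 20], false, nat_lit 8, nat_lit 80, nat_lit 160, nat_lit 352, ⟨nat_lit 1000, nat_lit 0, nat_lit 0, nat_lit 0, nat_lit 0, nat_lit 0, nat_lit 0, nat_lit 0, nat_lit 0, nat_lit 0, nat_lit 0, nat_lit 0, nat_lit 0, nat_lit 0, nat_lit 0, nat_lit 0, false, false⟩,
 nat_lit 0, nat_lit 0, nat_lit 0, nat_lit 20825, nat_lit 10667, nat_lit 6437, nat_lit 0, nat_lit 0, nat_lit 0, nat_lit 0, nat_lit 0, nat_lit 0, nat_lit 0, nat_lit 0, nat_lit 0, nat_lit 0, nat_lit 0, nat_lit 0, [],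
 ⟨p117_k2, nat_lit 0, nat_lit 0, nat_lit 249, nat_lit 0, nat_lit 0, [nat_lit 938000000, nat_lit 9842000000], [], [nat_lit 41423975247, nat_lit 45151932077, nat_lit 41209877529, nat_lit 44501831897, nat_lit 35171282095, nat_lit 38692042839, nat_lit 35030875116, nat_lit 37898543828], nat_lit 0, nat_lit 0, nat_lit 0, nat_lit 0, nat_lit 0, nat_lit 0, [], [nat_lit 132, nat_lit 40, nat_lit 40, nat_lit 80, nat_lit 133, nat_lit 317, nat_lit 100, nat_lit 9]⟩, ⟨p117_k3, nat_lit 0, nat_lit 0, nat_lit 51, nat_lit 0, nat_lit 0, [nat_lit 4688000000, nat_lit 14058000000], [], [nat_lit 11507548662, nat_lit 13246172155, nat_lit 15993795814, nat_lit 17369530940, nat_lit 24137506280, nat_lit 25289366979, nat_lit 26234637117, nat_lit 27151431151], nat_lit 0, nat_lit 0, nat_lit 0, nat_lit 0, nat_lit 0, nat_lit 0, [], [nat_lit 145, nat_lit 40, nat_lit 40, nat_lit 80, nat_lit 144, nat_lit 456, nat_lit 225, nat_lit 10]⟩,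
 zbF0, [⟨nat_lit 0, nat_lit 94, nat_lit 44, nat_lit 100, nat_lit 982646649⟩, ⟨nat_lit 3, nat_lit 100, nat_lit 50, nat_lit 65, nat_lit 347751137⟩, ⟨nat_lit 3, nat_lit 100, nat_lit 75, nat_lit 35, nat_lit 175200721⟩, ⟨nat_lit 7, nat_lit 82, nat_lit 100, nat_lit 92, nat_lit 542392969⟩]⟩
noncomputable def p117_l6 : Lf2 := ⟨nat_lit 0, nat_lit 30, [nat_lit 15, nat_lit 5, nat_lit 5, nat_lit 20], false, nat_lit 80, nat_lit 160, nat_lit 0, nat_lit 364, ⟨nat_lit 114, nat_lit 0, nat_lit 886, nat_lit 6, nat_lit 208, nat_lit 886, nat_lit 105, nat_lit 886, nat_lit 101400, nat_lit 293, nat_lit 2400, nat_lit 203, nat_lit 48248345, nat_lit 0, nat_lit 0, nat_lit 3994143, false, false⟩,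
 nat_lit 0, nat_lit 0, nat_lit 0, nat_lit 7111, nat_lit 3512, nat_lit 1372, nat_lit 75, nat_lit 0, nat_lit 0, nat_lit 89, nat_lit 0, nat_lit 0, nat_lit 0, nat_lit 0, nat_lit 38, nat_lit 177200, nat_lit 0, nat_lit 0, [(nat_lit 26, [(nat_lit 3, nat_lit 886)])],
 ⟨p117_k4, nat_lit 0, nat_lit 0, nat_lit 157, nat_lit 0, nat_lit 0, [nat_lit 1276060000, nat_lit 407052000, nat_lit 704950400], [], [nat_lit 20016512020, nat_lit 21417591524, nat_lit 22307739392, nat_lit 23464340272, nat_lit 20491936704, nat_lit 21762942039, nat_lit 22610501408, nat_lit 23643168592], nat_lit 0, nat_lit 0, nat_lit 0, nat_lit 0, nat_lit 0, nat_lit 0, [], [nat_lit 81, nat_lit 40, nat_lit 40, nat_lit 80, nat_lit 13, nat_lit 317, nat_lit 100, nat_lit 9]⟩, ⟨p117_k1, nat_lit 0, nat_lit 0, nat_lit 432, nat_lit 0, nat_lit 0, [nat_lit 534432000, nat_lit 1121988000, nat_lit 1869600000], [], [nat_lit 4373864410, nat_lit 4514344527, nat_lit 4319683571,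 nat_lit 4420973071, nat_lit 3871977324, nat_lit 3914970769, nat_lit 3528078330, nat_lit 3550465010], nat_lit 0, nat_lit 0, nat_lit 0, nat_lit 0, nat_lit 0, nat_lit 0, [], [nat_lit 83, nat_lit 40, nat_lit 40, nat_lit 80, nat_lit 73, nat_lit 456, nat_lit 225, nat_lit 10]⟩,
 ⟨nat_lit 2236, nat_lit 3163, ⟨.ofNat (nat_lit 409856), .ofNat (nat_lit 605240), .ofNat (nat_lit 431948), .ofNat (nat_lit 627331), .ofNat (nat_lit 419758), .ofNat (nat_lit 602541), .ofNat (nat_lit 442469), .ofNat (nat_lit 625251)⟩, ⟨.ofNat (nat_lit 184209), .ofNat (nat_lit 306116), .ofNat (nat_lit 200000), .ofNat (nat_lit 350426), .ofNat (nat_lit 192306), .ofNat (nat_lit 306337), .ofNat (nat_lit 200000), .ofNat (nat_lit 351886)⟩⟩, [⟨nat_lit 7, nat_lit 72, nat_lit 100, nat_lit 89, nat_lit 11558356⟩]⟩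
noncomputable def p117_l7 : Lf2 := ⟨nat_lit 0, nat_lit 30, [nat_lit 15, nat_lit 5, nat_lit 5, nat_lit 20], false, nat_lit 80, nat_lit 160, nat_lit 0, nat_lit 160, ⟨nat_lit 1000, nat_lit 0, nat_lit 0, nat_lit 0, nat_lit 0, nat_lit 0, nat_lit 0, nat_lit 0, nat_lit 0, nat_lit 0, nat_lit 0, nat_lit 0, nat_lit 0, nat_lit 0, nat_lit 0, nat_lit 0, false, false⟩,
 nat_lit 0, nat_lit 0, nat_lit 0, nat_lit 12321, nat_lit 11043, nat_lit 6720, nat_lit 154, nat_lit 0, nat_lit 0, nat_lit 860, nat_lit 0, nat_lit 0, nat_lit 0, nat_lit 0, nat_lit 0, nat_lit 0, nat_lit 0, nat_lit 0, [],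
 ⟨p117_k4, nat_lit 0, nat_lit 0, nat_lit 150, nat_lit 0, nat_lit 0, [nat_lit 938000000, nat_lit 4688000000, nat_lit 9842000000], [], [nat_lit 28747415778, nat_lit 31555450836, nat_lit 30007520888, nat_lit 32287842264, nat_lit 26653253846, nat_lit 29147578554, nat_lit 27547960888, nat_lit 29632103470], nat_lit 0, nat_lit 0, nat_lit 0, nat_lit 0, nat_lit 0, nat_lit 0, [], [nat_lit 81, nat_lit 40, nat_lit 40, nat_lit 80, nat_lit 13, nat_lit 317, nat_lit 100, nat_lit 9]⟩, ⟨p117_k5, nat_lit 0, nat_lit 0, nat_lit 277, nat_lit 0, nat_lit 0, [nat_lit 4688000000, nat_lit 9842000000, nat_lit 14058000000], [], [nat_lit 27747848200, nat_lit 28879515681, nat_lit 29666336160, nat_lit 30564554800, nat_lit 23060240208, nat_lit 23876670912, nat_lit 24983417600, nat_lit 25847335520], nat_lit 0, nat_lit 0, nat_lit 0, nat_lit 0, nat_lit 0, nat_lit 0, [], [nat_lit 56, nat_lit 40, nat_lit 40, nat_lit 80, nat_lit 32, nat_lit 401,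 nat_lit 175, nat_lit 9]⟩,
 zbF0, [⟨nat_lit 0, nat_lit 92, nat_lit 44, nat_lit 100, nat_lit 923386828⟩]⟩
noncomputable def p117_l8 : Lf2 := ⟨nat_lit 0, nat_lit 30, [nat_lit 15, nat_lit 5, nat_lit 5, nat_lit 20], false, nat_lit 80, nat_lit 160, nat_lit 160, nat_lit 352, ⟨nat_lit 1000, nat_lit 0, nat_lit 0, nat_lit 0, nat_lit 0, nat_lit 0, nat_lit 0, nat_lit 0, nat_lit 0, nat_lit 0, nat_lit 0, nat_lit 0, nat_lit 0, nat_lit 0, nat_lit 0, nat_lit 0, false, false⟩,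
 nat_lit 0, nat_lit 0, nat_lit 0, nat_lit 25306, nat_lit 10896, nat_lit 6437, nat_lit 162, nat_lit 0, nat_lit 0, nat_lit 0, nat_lit 0, nat_lit 0, nat_lit 0, nat_lit 0, nat_lit 0, nat_lit 0, nat_lit 0, nat_lit 0, [],
 ⟨p117_k4, nat_lit 0, nat_lit 0, nat_lit 150, nat_lit 0, nat_lit 0, [nat_lit 938000000, nat_lit 4688000000, nat_lit 9842000000], [], [nat_lit 28631876948, nat_lit 31411780792, nat_lit 29909396736, nat_lit 32166139776, nat_lit 26587678375, nat_lit 29057527554, nat_lit 27503344736, nat_lit 29515195840], nat_lit 0, nat_lit 0, nat_lit 0, nat_lit 0, nat_lit 0, nat_lit 0, [], [nat_lit 81, nat_lit 40, nat_lit 40, nat_lit 80, nat_lit 13, nat_lit 317, nat_lit 100, nat_lit 9]⟩, ⟨p117_k5, nat_lit 0, nat_lit 0, nat_lit 92, nat_lit 0, nat_lit 0, [nat_lit 4688000000, nat_lit 9842000000, nat_lit 14058000000], [], [nat_lit 11507548662, nat_lit 13246172155, nat_lit 15993795814, nat_lit 17369530940, nat_lit 24137506280,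 nat_lit 25289366979, nat_lit 26234637117, nat_lit 27151431151], nat_lit 0, nat_lit 0, nat_lit 0, nat_lit 0, nat_lit 0, nat_lit 0, [], [nat_lit 56, nat_lit 40, nat_lit 40, nat_lit 80, nat_lit 32, nat_lit 456, nat_lit 225, nat_lit 10]⟩,
 zbF0, [⟨nat_lit 0, nat_lit 92, nat_lit 44, nat_lit 100, nat_lit 906353212⟩, ⟨nat_lit 19, nat_lit 100, nat_lit 82, nat_lit 92, nat_lit 542392969⟩]⟩
noncomputable def p117_l9 : Lf2 := ⟨nat_lit 1, nat_lit 30, [nat_lit 15, nat_lit 5, nat_lit 5, nat_lit 20], false, nat_lit 80, nat_lit 160, nat_lit 0, nat_lit 364, zbN0,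
 nat_lit 0, nat_lit 0, nat_lit 0, nat_lit 0, nat_lit 0, nat_lit 0, nat_lit 0, nat_lit 0, nat_lit 0, nat_lit 0, nat_lit 0, nat_lit 0, nat_lit 0, nat_lit 0, nat_lit 0, nat_lit 0, nat_lit 0, nat_lit 0, [],
 C1.Rw.none, C1.Rw.none,
 zbF0, []⟩
noncomputable def p117_l10 : Lf2 := ⟨nat_lit 0, nat_lit 30, [nat_lit 15, nat_lit 5, nat_lit 5, nat_lit 20], false, nat_lit 80, nat_lit 160, nat_lit 0, nat_lit 364, ⟨nat_lit 287, nat_lit 0, nat_lit 713, nat_lit 6, nat_lit 224, nat_lit 713, nat_lit 105, nat_lit 713, nat_lit 104017, nat_lit 294, nat_lit 25022, nat_lit 200, nat_lit 46715835, nat_lit 0, nat_lit 0, nat_lit 4131727, false, false⟩,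
 nat_lit 0, nat_lit 0, nat_lit 0, nat_lit 5073, nat_lit 3922, nat_lit 3344, nat_lit 0, nat_lit 0, nat_lit 0, nat_lit 216, nat_lit 0, nat_lit 0, nat_lit 0, nat_lit 0, nat_lit 0, nat_lit 139035, nat_lit 0, nat_lit 0, [(nat_lit 29, [(nat_lit 3, nat_lit 713)])],
 ⟨p117_k0, nat_lit 0, nat_lit 0, nat_lit 133, nat_lit 0, nat_lit 0, [nat_lit 1086018800, nat_lit 370072001, nat_lit 620962800], [], [nat_lit 22242674140, nat_lit 23780739692, nat_lit 24233129436, nat_lit 25577515472, nat_lit 22565267718, nat_lit 23954690519, nat_lit 24376775032, nat_lit 25573153784], nat_lit 0, nat_lit 0, nat_lit 0, nat_lit 0, nat_lit 0, nat_lit 0, [], [nat_lit 57, nat_lit 40, nat_lit 40, nat_lit 80, nat_lit 7, nat_lit 317, nat_lit 100, nat_lit 10]⟩, ⟨p117_k1, nat_lit 0, nat_lit 0, nat_lit 414, nat_lit 0, nat_lit 0, [nat_lit 1345456000, nat_lit 2824654000, nat_lit 4706800000], [], [nat_lit 10681855119, nat_lit 11335981065, nat_lit 10909616380,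 nat_lit 11413027776, nat_lit 9428275402, nat_lit 9624482747, nat_lit 9047764973, nat_lit 9168437039], nat_lit 0, nat_lit 0, nat_lit 0, nat_lit 0, nat_lit 0, nat_lit 0, [], [nat_lit 83, nat_lit 40, nat_lit 40, nat_lit 80, nat_lit 73, nat_lit 456, nat_lit 225, nat_lit 10]⟩,
 ⟨nat_lit 0, nat_lit 2237, ⟨.ofNat (nat_lit 467180), .ofNat (nat_lit 602531), .ofNat (nat_lit 510875), .ofNat (nat_lit 646249), .ofNat (nat_lit 480752), .ofNat (nat_lit 599967), .ofNat (nat_lit 528899), .ofNat (nat_lit 648136)⟩, ⟨.ofNat (nat_lit 192306), .ofNat (nat_lit 306334), .ofNat (nat_lit 200000), .ofNat (nat_lit 351885), .ofNat (nat_lit 199999), .ofNat (nat_lit 299996), .ofNat (nat_lit 200000), .ofNat (nat_lit 349998)⟩⟩, [⟨nat_lit 0, nat_lit 95, nat_lit 31, nat_lit 100, nat_lit 221989623⟩, ⟨nat_lit 7, nat_lit 77, nat_lit 100, nat_lit 91, nat_lit 27822613⟩]⟩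
noncomputable def p117_l11 : Lf2 := ⟨nat_lit 0, nat_lit 30, [nat_lit 15, nat_lit 5, nat_lit 5, nat_lit 20], true, nat_lit 160, nat_lit 248, nat_lit 0, nat_lit 364, ⟨nat_lit 0, nat_lit 0, nat_lit 1000, nat_lit 6, nat_lit 190, nat_lit 1000, nat_lit 155, nat_lit 1000, nat_lit 61175, nat_lit 275, nat_lit 8376, nat_lit 236, nat_lit 46510807, nat_lit 0, nat_lit 0, nat_lit 4421468, false, false⟩,
 nat_lit 0, nat_lit 0, nat_lit 0, nat_lit 9033, nat_lit 3681, nat_lit 0, nat_lit 0, nat_lit 0, nat_lit 0, nat_lit 0, nat_lit 0, nat_lit 0, nat_lit 0, nat_lit 0, nat_lit 84, nat_lit 200000, nat_lit 0, nat_lit 0, [(nat_lit 26, [(nat_lit 3, nat_lit 1000)]), (nat_lit 29, [(nat_lit 3, nat_lit 1000)])],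
 ⟨p117_k4, nat_lit 0, nat_lit 0, nat_lit 143, nat_lit 0, nat_lit 0, [nat_lit 1484000001, nat_lit 514000001, nat_lit 680400000], [], [nat_lit 20281809052, nat_lit 22989717620, nat_lit 20668190656, nat_lit 23339581208, nat_lit 22338304482, nat_lit 25411263770, nat_lit 22599115368, nat_lit 25643996555], nat_lit 0, nat_lit 0, nat_lit 0, nat_lit 0, nat_lit 0, nat_lit 0, [], [nat_lit 81, nat_lit 40, nat_lit 40, nat_lit 80, nat_lit 13, nat_lit 345, nat_lit 125, nat_lit 9]⟩, C1.Rw.none,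
 ⟨nat_lit 0, nat_lit 3163, ⟨.ofNat (nat_lit 401957), .ofNat (nat_lit 478180), .ofNat (nat_lit 443658), .ofNat (nat_lit 519880), .ofNat (nat_lit 431745), .ofNat (nat_lit 494824), .ofNat (nat_lit 479136), .ofNat (nat_lit 542214)⟩, ⟨.ofNat (nat_lit 306113), .ofNat (nat_lit 440207), .ofNat (nat_lit 350425), .ofNat (nat_lit 484518), .ofNat (nat_lit 299996), .ofNat (nat_lit 409993), .ofNat (nat_lit 349998), .ofNat (nat_lit 459993)⟩⟩, [⟨nat_lit 0, nat_lit 100, nat_lit 61, nat_lit 92, nat_lit 342481075⟩, ⟨nat_lit 16, nat_lit 62, nat_lit 100, nat_lit 94, nat_lit 208085438⟩]⟩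
noncomputable def p117_l12 : Lf2 := ⟨nat_lit 0, nat_lit 30, [nat_lit 15, nat_lit 5, nat_lit 5, nat_lit 20], true, nat_lit 160, nat_lit 248, nat_lit 0, nat_lit 364, ⟨nat_lit 0, nat_lit 1000, nat_lit 0, nat_lit 6, nat_lit 227, nat_lit 1000, nat_lit 155, nat_lit 0, nat_lit 0, nat_lit 0, nat_lit 0, nat_lit 0, nat_lit 43431307, nat_lit 15222639, nat_lit 8346054, nat_lit 4709205, false, false⟩,
 nat_lit 0, nat_lit 0, nat_lit 0, nat_lit 7856, nat_lit 2950, nat_lit 0, nat_lit 0, nat_lit 0, nat_lit 0, nat_lit 0, nat_lit 0, nat_lit 0, nat_lit 0, nat_lit 0, nat_lit 0, nat_lit 250000, nat_lit 0, nat_lit 0, [(nat_lit 26, [(nat_lit 0, nat_lit 1000)]), (nat_lit 29, [(nat_lit 0, nat_lit 1000)])],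
 ⟨p117_k6, nat_lit 0, nat_lit 0, nat_lit 56, nat_lit 0, nat_lit 0, [nat_lit 781600001, nat_lit 1432000001, nat_lit 2936000000], [], [nat_lit 19850519801, nat_lit 22717509601, nat_lit 22144182001, nat_lit 24657569801, nat_lit 22462271041, nat_lit 24938345501, nat_lit 24406989661, nat_lit 26591498581], nat_lit 0, nat_lit 0, nat_lit 0, nat_lit 0, nat_lit 0, nat_lit 0, [], [nat_lit 93, nat_lit 40, nat_lit 40, nat_lit 80, nat_lit 63, nat_lit 345, nat_lit 125, nat_lit 9]⟩, C1.Rw.none,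
 ⟨nat_lit 0, nat_lit 3163, ⟨.ofNat (nat_lit 478180), .ofNat (nat_lit 605128), .ofNat (nat_lit 519880), .ofNat (nat_lit 646918), .ofNat (nat_lit 494824), .ofNat (nat_lit 599865), .ofNat (nat_lit 542214), .ofNat (nat_lit 647345)⟩, ⟨.ofNat (nat_lit 306113), .ofNat (nat_lit 440207), .ofNat (nat_lit 350425), .ofNat (nat_lit 484518), .ofNat (nat_lit 299996), .ofNat (nat_lit 409993), .ofNat (nat_lit 349998), .ofNat (nat_lit 459993)⟩⟩, [⟨nat_lit 4, nat_lit 100, nat_lit 44, nat_lit 87, nat_lit 384430852⟩]⟩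
noncomputable def p117_l13 : Lf2 := ⟨nat_lit 0, nat_lit 30, [nat_lit 15, nat_lit 5, nat_lit 5, nat_lit 20], false, nat_lit 8, nat_lit 248, nat_lit 0, nat_lit 160, ⟨nat_lit 1000, nat_lit 0, nat_lit 0, nat_lit 0, nat_lit 0, nat_lit 0, nat_lit 0, nat_lit 0, nat_lit 0, nat_lit 0, nat_lit 0, nat_lit 0, nat_lit 0, nat_lit 0, nat_lit 0, nat_lit 0, false, false⟩,
 nat_lit 0, nat_lit 0, nat_lit 0, nat_lit 12151, nat_lit 6205, nat_lit 6098, nat_lit 244, nat_lit 0, nat_lit 0, nat_lit 740, nat_lit 0, nat_lit 0, nat_lit 0, nat_lit 0, nat_lit 0, nat_lit 0, nat_lit 0, nat_lit 0, [],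
 ⟨p117_k4, nat_lit 0, nat_lit 0, nat_lit 214, nat_lit 0, nat_lit 0, [nat_lit 938000000, nat_lit 4688000000, nat_lit 9842000000], [], [nat_lit 33187399259, nat_lit 36463242600, nat_lit 39755246183, nat_lit 42055022052, nat_lit 30516104141, nat_lit 32549141387, nat_lit 34883269322, nat_lit 36591870749], nat_lit 0, nat_lit 0, nat_lit 0, nat_lit 0, nat_lit 0, nat_lit 0, [], [nat_lit 81, nat_lit 40, nat_lit 40, nat_lit 80, nat_lit 13, nat_lit 401, nat_lit 175, nat_lit 11]⟩, ⟨p117_k1, nat_lit 0, nat_lit 0, nat_lit 317, nat_lit 0, nat_lit 0, [nat_lit 4688000000, nat_lit 9842000000, nat_lit 16400000000], [], [nat_lit 33008932132, nat_lit 34430475588, nat_lit 39193885661, nat_lit 40015214580, nat_lit 28463588028, nat_lit 29513772420, nat_lit 34218354183, nat_lit 35260557229], nat_lit 0, nat_lit 0, nat_lit 0, nat_lit 0, nat_lit 0, nat_lit 0, [], [nat_lit 83, nat_lit 40, nat_lit 40, nat_lit 80, nat_lit 73, nat_lit 456,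 nat_lit 225, nat_lit 9]⟩,
 zbF0, [⟨nat_lit 16, nat_lit 44, nat_lit 100, nat_lit 87, nat_lit 223067685⟩]⟩
noncomputable def p117_l14 : Lf2 := ⟨nat_lit 0, nat_lit 30, [nat_lit 15, nat_lit 5, nat_lit 5, nat_lit 20], false, nat_lit 8, nat_lit 248, nat_lit 160, nat_lit 364, ⟨nat_lit 1000, nat_lit 0, nat_lit 0, nat_lit 0, nat_lit 0, nat_lit 0, nat_lit 0, nat_lit 0, nat_lit 0, nat_lit 0, nat_lit 0, nat_lit 0, nat_lit 0, nat_lit 0, nat_lit 0, nat_lit 0, false, false⟩,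
 nat_lit 0, nat_lit 0, nat_lit 0, nat_lit 5628, nat_lit 6205, nat_lit 5840, nat_lit 244, nat_lit 0, nat_lit 0, nat_lit 0, nat_lit 0, nat_lit 0, nat_lit 0, nat_lit 0, nat_lit 0, nat_lit 0, nat_lit 0, nat_lit 0, [],
 ⟨p117_k4, nat_lit 0, nat_lit 0, nat_lit 214, nat_lit 0, nat_lit 0, [nat_lit 938000000, nat_lit 4688000000, nat_lit 9842000000], [], [nat_lit 33187399259, nat_lit 36463242600, nat_lit 39755246183, nat_lit 42055022052, nat_lit 30516104141, nat_lit 32549141387, nat_lit 34883269322, nat_lit 36591870749], nat_lit 0, nat_lit 0, nat_lit 0, nat_lit 0, nat_lit 0, nat_lit 0, [], [nat_lit 81, nat_lit 40, nat_lit 40, nat_lit 80, nat_lit 13, nat_lit 401, nat_lit 175, nat_lit 11]⟩, ⟨p117_k1, nat_lit 0, nat_lit 0, nat_lit 107, nat_lit 0, nat_lit 0, [nat_lit 4688000000, nat_lit 9842000000, nat_lit 16400000000], [], [nat_lit 15472592160, nat_lit 18085560800, nat_lit 25603428449, nat_lit 27239319488, nat_lit 26464802633,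 nat_lit 27909220880, nat_lit 33028329949, nat_lit 34026659477], nat_lit 0, nat_lit 0, nat_lit 0, nat_lit 0, nat_lit 0, nat_lit 0, [], [nat_lit 83, nat_lit 40, nat_lit 40, nat_lit 80, nat_lit 73, nat_lit 538, nat_lit 300, nat_lit 11]⟩,
 zbF0, [⟨nat_lit 16, nat_lit 44, nat_lit 100, nat_lit 87, nat_lit 283906137⟩, ⟨nat_lit 19, nat_lit 100, nat_lit 59, nat_lit 94, nat_lit 405829921⟩, ⟨nat_lit 10, nat_lit 57, nat_lit 84, nat_lit 100, nat_lit 42549678⟩]⟩
noncomputable def b_V_900_600_20_71 : St := ⟨true, nat_lit 0, nat_lit 0, nat_lit 1, nat_lit 120, nat_lit 360, nat_lit 400, nat_lit 240, nat_lit 280, nat_lit 112, nat_lit 376, nat_lit 80, nat_lit 120, nat_lit 8, nat_lit 248, nat_lit 0, nat_lit 364, nat_lit 120, nat_lit 156, nat_lit 0, nat_lit 0, nat_lit 0, nat_lit 0⟩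
theorem d_V_900_600_20_71 (h : EB TB.env) : Dead b_V_900_600_20_71 := chkB_sound0 h (T :=
(.spl (nat_lit 2) (nat_lit 240)
(.spl (nat_lit 4) (nat_lit 160)
(.spl (nat_lit 4) (nat_lit 80)
(.spl (nat_lit 1) (nat_lit 260)
(.spl (nat_lit 0) (nat_lit 380)
(.spl (nat_lit 6) (nat_lit 132)
(.spl (nat_lit 3) (nat_lit 100)
(.trX (nat_lit 19) (nat_lit 100) (nat_lit 68) (nat_lit 88) (nat_lit 352) (.leaf p117_l0))
(.trZ (nat_lit 3) (nat_lit 100) (nat_lit 69) (nat_lit 45) (nat_lit 16) (.leaf p117_l1)))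
(.leaf p117_l2))
(.trZ (nat_lit 0) (nat_lit 100) (nat_lit 44) (nat_lit 99) (nat_lit 148) (.trZ (nat_lit 3) (nat_lit 100) (nat_lit 54) (nat_lit 57) (nat_lit 20) (.leaf p117_l3))))
(.trZ (nat_lit 0) (nat_lit 100) (nat_lit 63) (nat_lit 99) (nat_lit 132) (.trX (nat_lit 19) (nat_lit 100) (nat_lit 69) (nat_lit 96) (nat_lit 352) (.spl (nat_lit 5) (nat_lit 160)
(.leaf p117_l4)
(.leaf p117_l5)))))
(.spl (nat_lit 0) (nat_lit 380)
(.spl (nat_lit 6) (nat_lit 136)
(.spl (nat_lit 1) (nat_lit 260)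
(.leaf p117_l6)
(.trZ (nat_lit 0) (nat_lit 100) (nat_lit 63) (nat_lit 99) (nat_lit 132) (.trX (nat_lit 19) (nat_lit 100) (nat_lit 69) (nat_lit 96) (nat_lit 352) (.spl (nat_lit 5) (nat_lit 160)
(.leaf p117_l7)
(.leaf p117_l8)))))
(.leaf p117_l9))
(.trZ (nat_lit 0) (nat_lit 100) (nat_lit 44) (nat_lit 99) (nat_lit 148) (.leaf p117_l10))))
(.spl (nat_lit 2) (nat_lit 160)
(.leaf p117_l11)
(.leaf p117_l12)))
(.spl (nat_lit 5) (nat_lit 160)
(.leaf p117_l13)
(.leaf p117_l14)))) (by decide +kernel)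
noncomputable def p117_l15 : Lf2 := ⟨nat_lit 0, nat_lit 25, [nat_lit 44, nat_lit 5, nat_lit 5, nat_lit 20], true, nat_lit 8, nat_lit 80, nat_lit 0, nat_lit 352, ⟨nat_lit 0, nat_lit 5, nat_lit 995, nat_lit 6, nat_lit 190, nat_lit 1000, nat_lit 43, nat_lit 995, nat_lit 17067, nat_lit 247, nat_lit 8376, nat_lit 236, nat_lit 53417493, nat_lit 12303731, nat_lit 1278776, nat_lit 2935906, false, false⟩,
 nat_lit 0, nat_lit 0, nat_lit 0, nat_lit 100000, nat_lit 2249, nat_lit 0, nat_lit 0, nat_lit 0, nat_lit 0, nat_lit 0, nat_lit 0, nat_lit 0, nat_lit 0, nat_lit 0, nat_lit 107, nat_lit 250000, nat_lit 0, nat_lit 0, [(nat_lit 26, [(nat_lit 0, nat_lit 5), (nat_lit 4, nat_lit 995)]), (nat_lit 29, [(nat_lit 0, nat_lit 5), (nat_lit 4, nat_lit 995)])],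
 ⟨p117_k7, nat_lit 0, nat_lit 0, nat_lit 192, nat_lit 0, nat_lit 0, [nat_lit 1203630000, nat_lit 696522000, nat_lit 21026000], [], [nat_lit 18606385275, nat_lit 21687298032, nat_lit 19383065935, nat_lit 22219443132, nat_lit 18318666217, nat_lit 21050103561, nat_lit 19104564288, nat_lit 21850090076], nat_lit 0, nat_lit 0, nat_lit 0, nat_lit 0, nat_lit 0, nat_lit 0, [], [nat_lit 57, nat_lit 40, nat_lit 40, nat_lit 80, nat_lit 7, nat_lit 272, nat_lit 60, nat_lit 9]⟩, C1.Rw.none,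
 ⟨nat_lit 0, nat_lit 3163, ⟨.ofNat (nat_lit 401957), .ofNat (nat_lit 478180), .ofNat (nat_lit 443658), .ofNat (nat_lit 519880), .ofNat (nat_lit 431745), .ofNat (nat_lit 494824), .ofNat (nat_lit 479136), .ofNat (nat_lit 542214)⟩, ⟨.ofNat (nat_lit 20000), .ofNat (nat_lit 184209), .ofNat (nat_lit 20000), .ofNat (nat_lit 200000), .ofNat (nat_lit 20000), .ofNat (nat_lit 199999), .ofNat (nat_lit 20000), .ofNat (nat_lit 200000)⟩⟩, [⟨nat_lit 0, nat_lit 96, nat_lit 44, nat_lit 100, nat_lit 5673564117⟩, ⟨nat_lit 3, nat_lit 100, nat_lit 52, nat_lit 61, nat_lit 231525659⟩]⟩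
noncomputable def p117_l16 : Lf2 := ⟨nat_lit 0, nat_lit 30, [nat_lit 15, nat_lit 5, nat_lit 5, nat_lit 20], true, nat_lit 16, nat_lit 80, nat_lit 0, nat_lit 364, ⟨nat_lit 0, nat_lit 0, nat_lit 1000, nat_lit 6, nat_lit 190, nat_lit 1000, nat_lit 48, nat_lit 1000, nat_lit 21600, nat_lit 251, nat_lit 8376, nat_lit 236, nat_lit 53199419, nat_lit 0, nat_lit 0, nat_lit 3006899, false, false⟩,
 nat_lit 0, nat_lit 0, nat_lit 0, nat_lit 100000, nat_lit 2547, nat_lit 0, nat_lit 13, nat_lit 0, nat_lit 0, nat_lit 0, nat_lit 0, nat_lit 0, nat_lit 0, nat_lit 0, nat_lit 108, nat_lit 250000, nat_lit 0, nat_lit 0, [(nat_lit 26, [(nat_lit 4, nat_lit 1000)]), (nat_lit 29, [(nat_lit 4, nat_lit 1000)])],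
 ⟨p117_k4, nat_lit 0, nat_lit 0, nat_lit 213, nat_lit 0, nat_lit 0, [nat_lit 1207600000, nat_lit 698800001, nat_lit 686800000], [], [nat_lit 19881555578, nat_lit 22336242774, nat_lit 20535587634, nat_lit 22779171671, nat_lit 19399787174, nat_lit 21662563919, nat_lit 20066451192, nat_lit 22202978192], nat_lit 0, nat_lit 0, nat_lit 0, nat_lit 0, nat_lit 0, nat_lit 0, [], [nat_lit 81, nat_lit 40, nat_lit 40, nat_lit 80, nat_lit 13, nat_lit 272, nat_lit 60, nat_lit 8]⟩, C1.Rw.none,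
 ⟨nat_lit 0, nat_lit 3163, ⟨.ofNat (nat_lit 401957), .ofNat (nat_lit 478180), .ofNat (nat_lit 443658), .ofNat (nat_lit 519880), .ofNat (nat_lit 431745), .ofNat (nat_lit 494824), .ofNat (nat_lit 479136), .ofNat (nat_lit 542214)⟩, ⟨.ofNat (nat_lit 40000), .ofNat (nat_lit 200000), .ofNat (nat_lit 40000), .ofNat (nat_lit 200000), .ofNat (nat_lit 40000), .ofNat (nat_lit 200000), .ofNat (nat_lit 40000), .ofNat (nat_lit 200000)⟩⟩, [⟨nat_lit 0, nat_lit 96, nat_lit 44, nat_lit 100, nat_lit 5233676708⟩, ⟨nat_lit 3, nat_lit 100, nat_lit 49, nat_lit 68, nat_lit 330943336⟩]⟩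
noncomputable def p117_l17 : Lf2 := ⟨nat_lit 0, nat_lit 25, [nat_lit 44, nat_lit 5, nat_lit 5, nat_lit 20], false, nat_lit 8, nat_lit 80, nat_lit 0, nat_lit 352, ⟨nat_lit 181, nat_lit 0, nat_lit 819, nat_lit 6, nat_lit 227, nat_lit 819, nat_lit 43, nat_lit 819, nat_lit 17067, nat_lit 247, nat_lit 27594, nat_lit 200, nat_lit 49549350, nat_lit 0, nat_lit 0, nat_lit 3305591, false, false⟩,
 nat_lit 0, nat_lit 0, nat_lit 4664, nat_lit 987, nat_lit 2483, nat_lit 2469, nat_lit 0, nat_lit 0, nat_lit 0, nat_lit 14, nat_lit 0, nat_lit 0, nat_lit 0, nat_lit 0, nat_lit 29, nat_lit 204750, nat_lit 0, nat_lit 0, [(nat_lit 26, [(nat_lit 4, nat_lit 819)])],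
 ⟨p117_k8, nat_lit 0, nat_lit 0, nat_lit 160, nat_lit 0, nat_lit 0, [nat_lit 882010000, nat_lit 664237201, nat_lit 31412400], [], [nat_lit 20829525947, nat_lit 22062240083, nat_lit 22903738314, nat_lit 23988653779, nat_lit 20292226976, nat_lit 21456225256, nat_lit 22319051668, nat_lit 23351511908], nat_lit 0, nat_lit 0, nat_lit 0, nat_lit 0, nat_lit 0, nat_lit 0, [], [nat_lit 54, nat_lit 40, nat_lit 40, nat_lit 80, nat_lit 43, nat_lit 317, nat_lit 100, nat_lit 10]⟩, ⟨p117_k9, nat_lit 0, nat_lit 0, nat_lit 368, nat_lit 0, nat_lit 83064, [nat_lit 848528000, nat_lit 1442208000, nat_lit 2544498000], [], [nat_lit 9264405132, nat_lit 9448977596, nat_lit 9144829892, nat_lit 9267985692, nat_lit 9195905916, nat_lit 7203490652, nat_lit 6849204058, nat_lit 6808536873], nat_lit 1271250, nat_lit 1271250, nat_lit 1271250, nat_lit 1271250, nat_lit 0, nat_lit 2486000, [nat_lit 1100000, nat_lit 1785000, nat_lit 1271250], [nat_lit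 37, nat_lit 40, nat_lit 40, nat_lit 80, nat_lit 28, nat_lit 456, nat_lit 225, nat_lit 11]⟩,
 ⟨nat_lit 2236, nat_lit 3163, ⟨.ofNat (nat_lit 483125), .ofNat (nat_lit 605240), .ofNat (nat_lit 527308), .ofNat (nat_lit 649422), .ofNat (nat_lit 488302), .ofNat (nat_lit 602541), .ofNat (nat_lit 533723), .ofNat (nat_lit 647962)⟩, ⟨.ofNat (nat_lit 20000), .ofNat (nat_lit 184209), .ofNat (nat_lit 20000), .ofNat (nat_lit 200000), .ofNat (nat_lit 20000), .ofNat (nat_lit 192306), .ofNat (nat_lit 20000), .ofNat (nat_lit 200000)⟩⟩, [⟨nat_lit 3, nat_lit 100, nat_lit 50, nat_lit 65, nat_lit 225721471⟩]⟩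
noncomputable def p117_l18 : Lf2 := ⟨nat_lit 0, nat_lit 25, [nat_lit 44, nat_lit 5, nat_lit 5, nat_lit 20], false, nat_lit 20, nat_lit 80, nat_lit 0, nat_lit 352, ⟨nat_lit 84, nat_lit 268, nat_lit 648, nat_lit 6, nat_lit 228, nat_lit 916, nat_lit 49, nat_lit 648, nat_lit 22817, nat_lit 252, nat_lit 24782, nat_lit 200, nat_lit 49205254, nat_lit 16251517, nat_lit 1543229, nat_lit 3405424, false, false⟩,
 nat_lit 0, nat_lit 0, nat_lit 1614, nat_lit 1618, nat_lit 2270, nat_lit 854, nat_lit 0, nat_lit 0, nat_lit 0, nat_lit 42, nat_lit 0, nat_lit 0, nat_lit 0, nat_lit 0, nat_lit 35, nat_lit 229000, nat_lit 0, nat_lit 0, [(nat_lit 29, [(nat_lit 0, nat_lit 268), (nat_lit 4, nat_lit 648)])],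
 ⟨p117_k10, nat_lit 0, nat_lit 0, nat_lit 144, nat_lit 0, nat_lit 0, [nat_lit 921777600, nat_lit 170004801, nat_lit 4699200], [], [nat_lit 20847799165, nat_lit 21474088553, nat_lit 22913799260, nat_lit 23468547858, nat_lit 20497040080, nat_lit 21096092700, nat_lit 22527246860, nat_lit 23058268230], nat_lit 0, nat_lit 0, nat_lit 0, nat_lit 0, nat_lit 0, nat_lit 0, [], [nat_lit 55, nat_lit 40, nat_lit 40, nat_lit 80, nat_lit 3, nat_lit 317, nat_lit 100, nat_lit 11]⟩, ⟨p117_k11, nat_lit 0, nat_lit 0, nat_lit 450, nat_lit 0, nat_lit 279289, [nat_lit 393792000, nat_lit 826728000, nat_lit 1180872000], [], [nat_lit 4725178472, nat_lit 3808088368, nat_lit 3538831072, nat_lit 3600243528, nat_lit 4754594567, nat_lit 3989029341, nat_lit 3233176487, nat_lit 2876202695], nat_lit 1271250, nat_lit 1271250, nat_lit 1271250, nat_lit 1271250, nat_lit 0, nat_lit 2486000, [nat_lit 1100000, nat_lit 2127500, nat_lit 1271250], [nat_lit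 56, nat_lit 40, nat_lit 40, nat_lit 80, nat_lit 32, nat_lit 456, nat_lit 225, nat_lit 11]⟩,
 ⟨nat_lit 1581, nat_lit 2237, ⟨.ofNat (nat_lit 488356), .ofNat (nat_lit 602558), .ofNat (nat_lit 533814), .ofNat (nat_lit 648016), .ofNat (nat_lit 491818), .ofNat (nat_lit 601260), .ofNat (nat_lit 538357), .ofNat (nat_lit 647799)⟩, ⟨.ofNat (nat_lit 50000), .ofNat (nat_lit 192306), .ofNat (nat_lit 50000), .ofNat (nat_lit 200000), .ofNat (nat_lit 50000), .ofNat (nat_lit 196201), .ofNat (nat_lit 50000), .ofNat (nat_lit 200000)⟩⟩, [⟨nat_lit 3, nat_lit 100, nat_lit 45, nat_lit 67, nat_lit 267603303⟩, ⟨nat_lit 22, nat_lit 100, nat_lit 75, nat_lit 66, nat_lit 9079449⟩]⟩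
noncomputable def p117_l19 : Lf2 := ⟨nat_lit 0, nat_lit 25, [nat_lit 44, nat_lit 5, nat_lit 5, nat_lit 20], true, nat_lit 36, nat_lit 80, nat_lit 0, nat_lit 352, ⟨nat_lit 0, nat_lit 799, nat_lit 201, nat_lit 6, nat_lit 232, nat_lit 1000, nat_lit 58, nat_lit 201, nat_lit 30817, nat_lit 258, nat_lit 26116, nat_lit 200, nat_lit 48338002, nat_lit 16718338, nat_lit 1943660, nat_lit 3564100, true, false⟩,
 nat_lit 0, nat_lit 0, nat_lit 0, nat_lit 3306, nat_lit 2582, nat_lit 0, nat_lit 0, nat_lit 0, nat_lit 0, nat_lit 0, nat_lit 0, nat_lit 0, nat_lit 0, nat_lit 0, nat_lit 0, nat_lit 250000, nat_lit 0, nat_lit 0, [(nat_lit 29, [(nat_lit 0, nat_lit 799), (nat_lit 4, nat_lit 201)])],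
 ⟨p117_k12, nat_lit 0, nat_lit 0, nat_lit 115, nat_lit 0, nat_lit 0, [nat_lit 777580001, nat_lit 623578400, nat_lit 738024000], [], [nat_lit 22157002959, nat_lit 22795478100, nat_lit 23805438595, nat_lit 24543940254, nat_lit 21814161993, nat_lit 22419061744, nat_lit 23431161709, nat_lit 23978351433], nat_lit 0, nat_lit 0, nat_lit 0, nat_lit 0, nat_lit 0, nat_lit 0, [], [nat_lit 35, nat_lit 40, nat_lit 40, nat_lit 80, nat_lit 22, nat_lit 226, nat_lit 20, nat_lit 9]⟩, C1.Rw.none,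
 ⟨nat_lit 0, nat_lit 1582, ⟨.ofNat (nat_lit 511747), .ofNat (nat_lit 601257), .ofNat (nat_lit 557064), .ofNat (nat_lit 646579), .ofNat (nat_lit 517899), .ofNat (nat_lit 599992), .ofNat (nat_lit 566585), .ofNat (nat_lit 648683)⟩, ⟨.ofNat (nat_lit 90000), .ofNat (nat_lit 196201), .ofNat (nat_lit 90000), .ofNat (nat_lit 200000), .ofNat (nat_lit 90000), .ofNat (nat_lit 199999), .ofNat (nat_lit 90000), .ofNat (nat_lit 200000)⟩⟩, [⟨nat_lit 3, nat_lit 100, nat_lit 39, nat_lit 72, nat_lit 390179494⟩]⟩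
noncomputable def p117_l20 : Lf2 := ⟨nat_lit 1, nat_lit 25, [nat_lit 44, nat_lit 5, nat_lit 5, nat_lit 20], false, nat_lit 8, nat_lit 80, nat_lit 0, nat_lit 352, zbN0,
 nat_lit 0, nat_lit 0, nat_lit 0, nat_lit 0, nat_lit 0, nat_lit 0, nat_lit 0, nat_lit 0, nat_lit 0, nat_lit 0, nat_lit 0, nat_lit 0, nat_lit 0, nat_lit 0, nat_lit 0, nat_lit 0, nat_lit 0, nat_lit 0, [],
 C1.Rw.none, C1.Rw.none,
 zbF0, []⟩
noncomputable def p117_l21 : Lf2 := ⟨nat_lit 1, nat_lit 30, [nat_lit 15, nat_lit 5, nat_lit 5, nat_lit 20], false, nat_lit 16, nat_lit 80, nat_lit 0, nat_lit 364, zbN0,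
 nat_lit 0, nat_lit 0, nat_lit 0, nat_lit 0, nat_lit 0, nat_lit 0, nat_lit 0, nat_lit 0, nat_lit 0, nat_lit 0, nat_lit 0, nat_lit 0, nat_lit 0, nat_lit 0, nat_lit 0, nat_lit 0, nat_lit 0, nat_lit 0, [],
 C1.Rw.none, C1.Rw.none,
 zbF0, []⟩
noncomputable def p117_l22 : Lf2 := ⟨nat_lit 1, nat_lit 30, [nat_lit 15, nat_lit 5, nat_lit 5, nat_lit 20], false, nat_lit 20, nat_lit 80, nat_lit 0, nat_lit 364, zbN0,
 nat_lit 0, nat_lit 0, nat_lit 0, nat_lit 0, nat_lit 0, nat_lit 0, nat_lit 0, nat_lit 0, nat_lit 0, nat_lit 0, nat_lit 0, nat_lit 0, nat_lit 0, nat_lit 0, nat_lit 0, nat_lit 0, nat_lit 0, nat_lit 0, [],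
 C1.Rw.none, C1.Rw.none,
 zbF0, []⟩
noncomputable def p117_l23 : Lf2 := ⟨nat_lit 0, nat_lit 30, [nat_lit 15, nat_lit 5, nat_lit 5, nat_lit 20], false, nat_lit 20, nat_lit 80, nat_lit 0, nat_lit 352, ⟨nat_lit 148, nat_lit 0, nat_lit 852, nat_lit 6, nat_lit 220, nat_lit 852, nat_lit 50, nat_lit 852, nat_lit 22817, nat_lit 252, nat_lit 5345, nat_lit 216, nat_lit 49970792, nat_lit 0, nat_lit 0, nat_lit 3346744, false, false⟩,
 nat_lit 0, nat_lit 0, nat_lit 5082, nat_lit 262, nat_lit 2521, nat_lit 2958, nat_lit 38, nat_lit 0, nat_lit 0, nat_lit 0, nat_lit 0, nat_lit 0, nat_lit 0, nat_lit 0, nat_lit 43, nat_lit 213000, nat_lit 0, nat_lit 0, [(nat_lit 26, [(nat_lit 4, nat_lit 852)])],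
 ⟨p117_k13, nat_lit 0, nat_lit 0, nat_lit 153, nat_lit 0, nat_lit 0, [nat_lit 931080000, nat_lit 712737601, nat_lit 19579200], [], [nat_lit 20471092347, nat_lit 21095265281, nat_lit 21359692353, nat_lit 21937100078, nat_lit 19975839992, nat_lit 20561509172, nat_lit 20854556307, nat_lit 21407748758], nat_lit 0, nat_lit 0, nat_lit 0, nat_lit 0, nat_lit 0, nat_lit 0, [], [nat_lit 54, nat_lit 40, nat_lit 40, nat_lit 80, nat_lit 43, nat_lit 289, nat_lit 75, nat_lit 9]⟩, ⟨p117_k14, nat_lit 0, nat_lit 0, nat_lit 369, nat_lit 0, nat_lit 86264, [nat_lit 693824000, nat_lit 1179264000, nat_lit 2080584000], [], [nat_lit 7291161492, nat_lit 7365885632, nat_lit 7073459040, nat_lit 7343690560, nat_lit 5480753239, nat_lit 5566738300, nat_lit 6214264668, nat_lit 5335530020], nat_lit 1271250, nat_lit 1271250, nat_lit 1100001, nat_lit 1442500, nat_lit 0, nat_lit 2486000, [nat_lit 1100000, nat_lit 1785000, nat_lit 1271250], [nat_lit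 37, nat_lit 40, nat_lit 40, nat_lit 80, nat_lit 28, nat_lit 456, nat_lit 225, nat_lit 10]⟩,
 ⟨nat_lit 2236, nat_lit 2739, ⟨.ofNat (nat_lit 508094), .ofNat (nat_lit 567191), .ofNat (nat_lit 530492), .ofNat (nat_lit 589588), .ofNat (nat_lit 511211), .ofNat (nat_lit 568262), .ofNat (nat_lit 533965), .ofNat (nat_lit 591016)⟩, ⟨.ofNat (nat_lit 50000), .ofNat (nat_lit 200000), .ofNat (nat_lit 50000), .ofNat (nat_lit 200000), .ofNat (nat_lit 50000), .ofNat (nat_lit 200000), .ofNat (nat_lit 50000), .ofNat (nat_lit 200000)⟩⟩, [⟨nat_lit 0, nat_lit 92, nat_lit 44, nat_lit 100, nat_lit 4693466⟩, ⟨nat_lit 3, nat_lit 100, nat_lit 54, nat_lit 63, nat_lit 244500623⟩]⟩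
noncomputable def p117_l24 : Lf2 := ⟨nat_lit 0, nat_lit 30, [nat_lit 15, nat_lit 5, nat_lit 5, nat_lit 20], false, nat_lit 20, nat_lit 80, nat_lit 0, nat_lit 352, ⟨nat_lit 411, nat_lit 0, nat_lit 589, nat_lit 6, nat_lit 243, nat_lit 589, nat_lit 50, nat_lit 589, nat_lit 22817, nat_lit 252, nat_lit 26118, nat_lit 200, nat_lit 47561541, nat_lit 0, nat_lit 0, nat_lit 3537501, true, false⟩,
 nat_lit 0, nat_lit 0, nat_lit 7749, nat_lit 0, nat_lit 2631, nat_lit 4510, nat_lit 240, nat_lit 0, nat_lit 0, nat_lit 0, nat_lit 0, nat_lit 0, nat_lit 0, nat_lit 0, nat_lit 0, nat_lit 147250, nat_lit 0, nat_lit 0, [(nat_lit 26, [(nat_lit 4, nat_lit 589)])],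
 ⟨p117_k13, nat_lit 0, nat_lit 0, nat_lit 151, nat_lit 0, nat_lit 0, [nat_lit 814310000, nat_lit 1149113201, nat_lit 1759704400], [], [nat_lit 21549822283, nat_lit 22143826943, nat_lit 22724267513, nat_lit 23476447835, nat_lit 21027013165, nat_lit 21548303245, nat_lit 22068879116, nat_lit 22596895956], nat_lit 0, nat_lit 0, nat_lit 0, nat_lit 0, nat_lit 0, nat_lit 0, [], [nat_lit 54, nat_lit 40, nat_lit 40, nat_lit 80, nat_lit 43, nat_lit 317, nat_lit 100, nat_lit 10]⟩, ⟨p117_k14, nat_lit 0, nat_lit 0, nat_lit 275, nat_lit 0, nat_lit 86264, [nat_lit 1926768000, nat_lit 3274848000, nat_lit 5777838000], [], [nat_lit 17410724806, nat_lit 17929429720, nat_lit 17964381162, nat_lit 18422459868, nat_lit 16045043243, nat_lit 16234735891, nat_lit 16113542619, nat_lit 16271338552], nat_lit 1271250, nat_lit 1271250, nat_lit 1271250, nat_lit 1271250, nat_lit 0, nat_lit 2486000, [nat_lit 1100000, nat_lit 1785000, nat_lit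 1271250], [nat_lit 37, nat_lit 40, nat_lit 40, nat_lit 80, nat_lit 28, nat_lit 456, nat_lit 225, nat_lit 10]⟩,
 ⟨nat_lit 2236, nat_lit 2739, ⟨.ofNat (nat_lit 567191), .ofNat (nat_lit 626287), .ofNat (nat_lit 589588), .ofNat (nat_lit 648684), .ofNat (nat_lit 568262), .ofNat (nat_lit 625312), .ofNat (nat_lit 591016), .ofNat (nat_lit 648065)⟩, ⟨.ofNat (nat_lit 50000), .ofNat (nat_lit 200000), .ofNat (nat_lit 50000), .ofNat (nat_lit 200000), .ofNat (nat_lit 50000), .ofNat (nat_lit 200000), .ofNat (nat_lit 50000), .ofNat (nat_lit 200000)⟩⟩, [⟨nat_lit 22, nat_lit 100, nat_lit 82, nat_lit 66, nat_lit 84058492⟩]⟩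
noncomputable def p117_l25 : Lf2 := ⟨nat_lit 1, nat_lit 30, [nat_lit 15, nat_lit 5, nat_lit 5, nat_lit 20], false, nat_lit 16, nat_lit 80, nat_lit 0, nat_lit 364, zbN0,
 nat_lit 0, nat_lit 0, nat_lit 0, nat_lit 0, nat_lit 0, nat_lit 0, nat_lit 0, nat_lit 0, nat_lit 0, nat_lit 0, nat_lit 0, nat_lit 0, nat_lit 0, nat_lit 0, nat_lit 0, nat_lit 0, nat_lit 0, nat_lit 0, [],
 C1.Rw.none, C1.Rw.none,
 zbF0, []⟩
noncomputable def p117_l26 : Lf2 := ⟨nat_lit 0, nat_lit 30, [nat_lit 15, nat_lit 5, nat_lit 5, nat_lit 20], true, nat_lit 32, nat_lit 80, nat_lit 0, nat_lit 364, ⟨nat_lit 0, nat_lit 178, nat_lit 822, nat_lit 6, nat_lit 212, nat_lit 1000, nat_lit 56, nat_lit 822, nat_lit 29400, nat_lit 257, nat_lit 4801, nat_lit 223, nat_lit 50536349, nat_lit 14586522, nat_lit 1877129, nat_lit 3357551, false, false⟩,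
 nat_lit 0, nat_lit 0, nat_lit 0, nat_lit 6118, nat_lit 2261, nat_lit 0, nat_lit 0, nat_lit 0, nat_lit 0, nat_lit 0, nat_lit 0, nat_lit 0, nat_lit 0, nat_lit 0, nat_lit 98, nat_lit 250000, nat_lit 0, nat_lit 0, [(nat_lit 29, [(nat_lit 0, nat_lit 178), (nat_lit 4, nat_lit 822)])],
 ⟨p117_k0, nat_lit 0, nat_lit 0, nat_lit 164, nat_lit 0, nat_lit 0, [nat_lit 1157160001, nat_lit 365198400, nat_lit 198141600], [], [nat_lit 20487100975, nat_lit 21847393415, nat_lit 21375288993, nat_lit 22754638832, nat_lit 20189067754, nat_lit 21453908904, nat_lit 21093814588, nat_lit 22423426988], nat_lit 0, nat_lit 0, nat_lit 0, nat_lit 0, nat_lit 0, nat_lit 0, [], [nat_lit 57, nat_lit 40, nat_lit 40, nat_lit 80, nat_lit 7, nat_lit 289, nat_lit 75, nat_lit 9]⟩, C1.Rw.none,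
 ⟨nat_lit 0, nat_lit 2237, ⟨.ofNat (nat_lit 484837), .ofNat (nat_lit 543695), .ofNat (nat_lit 506686), .ofNat (nat_lit 565543), .ofNat (nat_lit 496304), .ofNat (nat_lit 548146), .ofNat (nat_lit 520378), .ofNat (nat_lit 572220)⟩, ⟨.ofNat (nat_lit 80000), .ofNat (nat_lit 200000), .ofNat (nat_lit 80000), .ofNat (nat_lit 200000), .ofNat (nat_lit 80000), .ofNat (nat_lit 200000), .ofNat (nat_lit 80000), .ofNat (nat_lit 200000)⟩⟩, [⟨nat_lit 3, nat_lit 100, nat_lit 35, nat_lit 79, nat_lit 255107481⟩, ⟨nat_lit 3, nat_lit 100, nat_lit 50, nat_lit 65, nat_lit 129456240⟩]⟩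
noncomputable def p117_l27 : Lf2 := ⟨nat_lit 0, nat_lit 30, [nat_lit 15, nat_lit 5, nat_lit 5, nat_lit 20], true, nat_lit 32, nat_lit 80, nat_lit 0, nat_lit 360, ⟨nat_lit 0, nat_lit 241, nat_lit 759, nat_lit 6, nat_lit 234, nat_lit 1000, nat_lit 56, nat_lit 759, nat_lit 29400, nat_lit 257, nat_lit 4336, nat_lit 204, nat_lit 48243769, nat_lit 16905075, nat_lit 1851156, nat_lit 3552195, true, false⟩,
 nat_lit 0, nat_lit 0, nat_lit 0, nat_lit 6003, nat_lit 2291, nat_lit 0, nat_lit 0, nat_lit 0, nat_lit 0, nat_lit 0, nat_lit 0, nat_lit 0, nat_lit 0, nat_lit 0, nat_lit 84, nat_lit 250000, nat_lit 0, nat_lit 0, [(nat_lit 29, [(nat_lit 0, nat_lit 241), (nat_lit 4, nat_lit 759)])],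
 ⟨p117_k0, nat_lit 0, nat_lit 0, nat_lit 154, nat_lit 0, nat_lit 0, [nat_lit 1102420000, nat_lit 352424801, nat_lit 182005200], [], [nat_lit 21654694495, nat_lit 22205950539, nat_lit 22716086391, nat_lit 23319186171, nat_lit 21335894718, nat_lit 21868771039, nat_lit 22378826916, nat_lit 22979909212], nat_lit 0, nat_lit 0, nat_lit 0, nat_lit 0, nat_lit 0, nat_lit 0, [], [nat_lit 57, nat_lit 40, nat_lit 40, nat_lit 80, nat_lit 7, nat_lit 317, nat_lit 100, nat_lit 10]⟩, C1.Rw.none,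
 ⟨nat_lit 1581, nat_lit 2237, ⟨.ofNat (nat_lit 545457), .ofNat (nat_lit 602558), .ofNat (nat_lit 568186), .ofNat (nat_lit 625287), .ofNat (nat_lit 546538), .ofNat (nat_lit 601260), .ofNat (nat_lit 569808), .ofNat (nat_lit 624529)⟩, ⟨.ofNat (nat_lit 80000), .ofNat (nat_lit 200000), .ofNat (nat_lit 80000), .ofNat (nat_lit 200000), .ofNat (nat_lit 80000), .ofNat (nat_lit 200000), .ofNat (nat_lit 80000), .ofNat (nat_lit 200000)⟩⟩, [⟨nat_lit 3, nat_lit 100, nat_lit 43, nat_lit 73, nat_lit 367705917⟩]⟩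
noncomputable def p117_l28 : Lf2 := ⟨nat_lit 0, nat_lit 30, [nat_lit 15, nat_lit 5, nat_lit 5, nat_lit 20], true, nat_lit 48, nat_lit 80, nat_lit 0, nat_lit 360, ⟨nat_lit 0, nat_lit 487, nat_lit 513, nat_lit 6, nat_lit 234, nat_lit 1000, nat_lit 64, nat_lit 513, nat_lit 38400, nat_lit 263, nat_lit 2404, nat_lit 204, nat_lit 47881451, nat_lit 16859549, nat_lit 2259000, nat_lit 3664052, true, false⟩,
 nat_lit 0, nat_lit 0, nat_lit 0, nat_lit 5210, nat_lit 2390, nat_lit 0, nat_lit 0, nat_lit 0, nat_lit 0, nat_lit 0, nat_lit 0, nat_lit 0, nat_lit 0, nat_lit 0, nat_lit 24, nat_lit 250000, nat_lit 0, nat_lit 0, [(nat_lit 29, [(nat_lit 0, nat_lit 487), (nat_lit 4, nat_lit 513)])],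
 ⟨p117_k15, nat_lit 0, nat_lit 0, nat_lit 129, nat_lit 0, nat_lit 0, [nat_lit 867340000, nat_lit 141782401, nat_lit 4890800], [], [nat_lit 22133100604, nat_lit 22737951913, nat_lit 23234493600, nat_lit 23940056336, nat_lit 21836043920, nat_lit 22427197240, nat_lit 22926648880, nat_lit 23561999520], nat_lit 0, nat_lit 0, nat_lit 0, nat_lit 0, nat_lit 0, nat_lit 0, [], [nat_lit 55, nat_lit 40, nat_lit 40, nat_lit 80, nat_lit 3, nat_lit 226, nat_lit 20, nat_lit 7]⟩, C1.Rw.none,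
 ⟨nat_lit 0, nat_lit 1582, ⟨.ofNat (nat_lit 545316), .ofNat (nat_lit 601257), .ofNat (nat_lit 567974), .ofNat (nat_lit 623921), .ofNat (nat_lit 548686), .ofNat (nat_lit 599992), .ofNat (nat_lit 573029), .ofNat (nat_lit 624340)⟩, ⟨.ofNat (nat_lit 120000), .ofNat (nat_lit 200000), .ofNat (nat_lit 120000), .ofNat (nat_lit 200000), .ofNat (nat_lit 120000), .ofNat (nat_lit 200000), .ofNat (nat_lit 120000), .ofNat (nat_lit 200000)⟩⟩, [⟨nat_lit 3, nat_lit 100, nat_lit 36, nat_lit 77, nat_lit 466774441⟩]⟩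
noncomputable def p117_l29 : Lf2 := ⟨nat_lit 0, nat_lit 30, [nat_lit 15, nat_lit 5, nat_lit 5, nat_lit 20], false, nat_lit 32, nat_lit 80, nat_lit 0, nat_lit 160, ⟨nat_lit 446, nat_lit 0, nat_lit 554, nat_lit 6, nat_lit 234, nat_lit 554, nat_lit 56, nat_lit 554, nat_lit 29400, nat_lit 257, nat_lit 25022, nat_lit 200, nat_lit 48225517, nat_lit 0, nat_lit 0, nat_lit 3553599, false, false⟩,
 nat_lit 0, nat_lit 0, nat_lit 7620, nat_lit 0, nat_lit 2875, nat_lit 4435, nat_lit 154, nat_lit 0, nat_lit 0, nat_lit 296, nat_lit 0, nat_lit 0, nat_lit 0, nat_lit 0, nat_lit 0, nat_lit 138500, nat_lit 0, nat_lit 0, [(nat_lit 29, [(nat_lit 4, nat_lit 554)])],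
 ⟨p117_k0, nat_lit 0, nat_lit 0, nat_lit 163, nat_lit 0, nat_lit 0, [nat_lit 840274401, nat_lit 1093869600, nat_lit 1859817600], [], [nat_lit 22315309230, nat_lit 23641352361, nat_lit 24057634950, nat_lit 25237563400, nat_lit 21581942053, nat_lit 22808567901, nat_lit 23305816402, nat_lit 24400714402], nat_lit 0, nat_lit 0, nat_lit 0, nat_lit 0, nat_lit 0, nat_lit 0, [], [nat_lit 57, nat_lit 40, nat_lit 40, nat_lit 80, nat_lit 7, nat_lit 317, nat_lit 100, nat_lit 10]⟩, ⟨p117_k5, nat_lit 0, nat_lit 0, nat_lit 549, nat_lit 0, nat_lit 427018, [nat_lit 2090848000, nat_lit 4389532000, nat_lit 6269868000], [], [nat_lit 16584058030, nat_lit 16243737799, nat_lit 15998794350, nat_lit 16124503612, nat_lit 14186604538, nat_lit 12712440516, nat_lit 12586059390, nat_lit 12744572820], nat_lit 1271250, nat_lit 1271250, nat_lit 1271250, nat_lit 1271250, nat_lit 0, nat_lit 1100001, [nat_lit 1100000, nat_lit 2127500, nat_lit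 1271250], [nat_lit 56, nat_lit 40, nat_lit 40, nat_lit 80, nat_lit 32, nat_lit 401, nat_lit 175, nat_lit 9]⟩,
 ⟨nat_lit 0, nat_lit 2237, ⟨.ofNat (nat_lit 518456), .ofNat (nat_lit 624400), .ofNat (nat_lit 540305), .ofNat (nat_lit 646249), .ofNat (nat_lit 530746), .ofNat (nat_lit 624062), .ofNat (nat_lit 554820), .ofNat (nat_lit 648136)⟩, ⟨.ofNat (nat_lit 80000), .ofNat (nat_lit 200000), .ofNat (nat_lit 80000), .ofNat (nat_lit 200000), .ofNat (nat_lit 80000), .ofNat (nat_lit 200000), .ofNat (nat_lit 80000), .ofNat (nat_lit 200000)⟩⟩, [⟨nat_lit 0, nat_lit 94, nat_lit 31, nat_lit 100, nat_lit 1173435495⟩, ⟨nat_lit 3, nat_lit 100, nat_lit 35, nat_lit 79, nat_lit 281057651⟩]⟩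
noncomputable def p117_l30 : Lf2 := ⟨nat_lit 0, nat_lit 30, [nat_lit 15, nat_lit 5, nat_lit 5, nat_lit 20], false, nat_lit 32, nat_lit 80, nat_lit 160, nat_lit 352, ⟨nat_lit 462, nat_lit 0, nat_lit 538, nat_lit 6, nat_lit 234, nat_lit 538, nat_lit 56, nat_lit 538, nat_lit 29400, nat_lit 257, nat_lit 24936, nat_lit 200, nat_lit 48231973, nat_lit 0, nat_lit 0, nat_lit 3553103, false, false⟩,
 nat_lit 0, nat_lit 0, nat_lit 4915, nat_lit 2806, nat_lit 2477, nat_lit 2860, nat_lit 227, nat_lit 0, nat_lit 0, nat_lit 239, nat_lit 0, nat_lit 0, nat_lit 0, nat_lit 0, nat_lit 0, nat_lit 134500, nat_lit 0, nat_lit 0, [(nat_lit 29, [(nat_lit 4, nat_lit 538)])],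
 ⟨p117_k0, nat_lit 0, nat_lit 0, nat_lit 154, nat_lit 0, nat_lit 0, [nat_lit 843096800, nat_lit 1197671200, nat_lit 2036227200], [], [nat_lit 21290678755, nat_lit 21595022774, nat_lit 23043579456, nat_lit 23317453425, nat_lit 20808122532, nat_lit 21102341098, nat_lit 22542198156, nat_lit 22825501678], nat_lit 0, nat_lit 0, nat_lit 0, nat_lit 0, nat_lit 0, nat_lit 0, [], [nat_lit 57, nat_lit 40, nat_lit 40, nat_lit 80, nat_lit 7, nat_lit 317, nat_lit 100, nat_lit 10]⟩, ⟨p117_k5, nat_lit 0, nat_lit 0, nat_lit 220, nat_lit 0, nat_lit 168631, [nat_lit 2165856000, nat_lit 4547004000, nat_lit 6494796000], [], [nat_lit 13651530112, nat_lit 13541513792, nat_lit 13803635748, nat_lit 14094913020, nat_lit 15686648184, nat_lit 15914370305, nat_lit 15938089705, nat_lit 16127331012], nat_lit 1271250, nat_lit 1271250, nat_lit 1271250, nat_lit 1271250, nat_lit 1271250, nat_lit 1271250, [nat_lit 1100000, nat_lit 2127500, nat_lit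 1271250], [nat_lit 56, nat_lit 40, nat_lit 40, nat_lit 80, nat_lit 32, nat_lit 456, nat_lit 225, nat_lit 10]⟩,
 ⟨nat_lit 1936, nat_lit 2237, ⟨.ofNat (nat_lit 522671), .ofNat (nat_lit 625327), .ofNat (nat_lit 545437), .ofNat (nat_lit 648093), .ofNat (nat_lit 524282), .ofNat (nat_lit 624911), .ofNat (nat_lit 547284), .ofNat (nat_lit 647913)⟩, ⟨.ofNat (nat_lit 80000), .ofNat (nat_lit 200000), .ofNat (nat_lit 80000), .ofNat (nat_lit 200000), .ofNat (nat_lit 80000), .ofNat (nat_lit 200000), .ofNat (nat_lit 80000), .ofNat (nat_lit 200000)⟩⟩, [⟨nat_lit 0, nat_lit 92, nat_lit 38, nat_lit 100, nat_lit 218201581⟩, ⟨nat_lit 3, nat_lit 100, nat_lit 46, nat_lit 71, nat_lit 126429196⟩, ⟨nat_lit 7, nat_lit 78, nat_lit 100, nat_lit 95, nat_lit 168735082⟩]⟩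
noncomputable def p117_l31 : Lf2 := ⟨nat_lit 0, nat_lit 30, [nat_lit 15, nat_lit 5, nat_lit 5, nat_lit 20], false, nat_lit 40, nat_lit 80, nat_lit 160, nat_lit 352, ⟨nat_lit 358, nat_lit 0, nat_lit 642, nat_lit 6, nat_lit 238, nat_lit 642, nat_lit 60, nat_lit 642, nat_lit 33750, nat_lit 260, nat_lit 24552, nat_lit 200, nat_lit 47684034, nat_lit 0, nat_lit 0, nat_lit 3637015, true, false⟩,
 nat_lit 0, nat_lit 0, nat_lit 3805, nat_lit 0, nat_lit 2602, nat_lit 2214, nat_lit 0, nat_lit 0, nat_lit 0, nat_lit 233, nat_lit 0, nat_lit 0, nat_lit 0, nat_lit 0, nat_lit 0, nat_lit 160500, nat_lit 0, nat_lit 0, [(nat_lit 29, [(nat_lit 4, nat_lit 642)])],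
 ⟨p117_k16, nat_lit 0, nat_lit 0, nat_lit 128, nat_lit 0, nat_lit 0, [nat_lit 824751200, nat_lit 536314400, nat_lit 554176000], [], [nat_lit 22500468509, nat_lit 22826061118, nat_lit 24078271626, nat_lit 24373042764, nat_lit 22053064356, nat_lit 22368727604, nat_lit 23615435680, nat_lit 23902067344], nat_lit 0, nat_lit 0, nat_lit 0, nat_lit 0, nat_lit 0, nat_lit 0, [], [nat_lit 55, nat_lit 40, nat_lit 40, nat_lit 80, nat_lit 3, nat_lit 317, nat_lit 100, nat_lit 11]⟩, ⟨p117_k5, nat_lit 0, nat_lit 0, nat_lit 250, nat_lit 0, nat_lit 251752, [nat_lit 1678304000, nat_lit 3523436000, nat_lit 5032764000], [], [nat_lit 9879649912, nat_lit 9915703804, nat_lit 10068346852, nat_lit 10294001092, nat_lit 11535843389, nat_lit 11707684625, nat_lit 11719700003, nat_lit 11866353297], nat_lit 1271250, nat_lit 1271250, nat_lit 1271250, nat_lit 1271250, nat_lit 1271250, nat_lit 1271250, [nat_lit 1100000, nat_lit 2127500, nat_lit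 1271250], [nat_lit 56, nat_lit 40, nat_lit 40, nat_lit 80, nat_lit 32, nat_lit 456, nat_lit 225, nat_lit 10]⟩,
 ⟨nat_lit 1581, nat_lit 1937, ⟨.ofNat (nat_lit 541029), .ofNat (nat_lit 624905), .ofNat (nat_lit 564026), .ofNat (nat_lit 647901), .ofNat (nat_lit 542569), .ofNat (nat_lit 624564), .ofNat (nat_lit 565870), .ofNat (nat_lit 647865)⟩, ⟨.ofNat (nat_lit 100000), .ofNat (nat_lit 200000), .ofNat (nat_lit 100000), .ofNat (nat_lit 200000), .ofNat (nat_lit 100000), .ofNat (nat_lit 200000), .ofNat (nat_lit 100000), .ofNat (nat_lit 200000)⟩⟩, [⟨nat_lit 0, nat_lit 94, nat_lit 35, nat_lit 100, nat_lit 31068994⟩, ⟨nat_lit 0, nat_lit 92, nat_lit 31, nat_lit 100, nat_lit 69885983⟩, ⟨nat_lit 3, nat_lit 100, nat_lit 39, nat_lit 76, nat_lit 235021966⟩, ⟨nat_lit 19, nat_lit 100, nat_lit 78, nat_lit 95, nat_lit 130722102⟩]⟩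
noncomputable def p117_l32 : Lf2 := ⟨nat_lit 1, nat_lit 30, [nat_lit 15, nat_lit 5, nat_lit 5, nat_lit 20], false, nat_lit 32, nat_lit 80, nat_lit 160, nat_lit 352, zbN0,
 nat_lit 0, nat_lit 0, nat_lit 0, nat_lit 0, nat_lit 0, nat_lit 0, nat_lit 0, nat_lit 0, nat_lit 0, nat_lit 0, nat_lit 0, nat_lit 0, nat_lit 0, nat_lit 0, nat_lit 0, nat_lit 0, nat_lit 0, nat_lit 0, [],
 C1.Rw.none, C1.Rw.none,
 zbF0, []⟩
noncomputable def p117_l33 : Lf2 := ⟨nat_lit 0, nat_lit 30, [nat_lit 15, nat_lit 5, nat_lit 5, nat_lit 20], false, nat_lit 48, nat_lit 80, nat_lit 160, nat_lit 352, ⟨nat_lit 178, nat_lit 164, nat_lit 658, nat_lit 6, nat_lit 243, nat_lit 822, nat_lit 64, nat_lit 658, nat_lit 38400, nat_lit 263, nat_lit 26116, nat_lit 200, nat_lit 47037372, nat_lit 17719490, nat_lit 2243138, nat_lit 3726148, true, false⟩,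
 nat_lit 0, nat_lit 0, nat_lit 2784, nat_lit 0, nat_lit 2409, nat_lit 1620, nat_lit 0, nat_lit 0, nat_lit 0, nat_lit 105, nat_lit 0, nat_lit 0, nat_lit 0, nat_lit 0, nat_lit 16, nat_lit 205500, nat_lit 0, nat_lit 0, [(nat_lit 29, [(nat_lit 0, nat_lit 164), (nat_lit 4, nat_lit 658)])],
 ⟨p117_k15, nat_lit 0, nat_lit 0, nat_lit 129, nat_lit 0, nat_lit 0, [nat_lit 860279201, nat_lit 145743201, nat_lit 193600], [], [nat_lit 22221218306, nat_lit 22831737625, nat_lit 23411299261, nat_lit 23979485590, nat_lit 21918161733, nat_lit 22514807103, nat_lit 23097276349, nat_lit 23652983625], nat_lit 0, nat_lit 0, nat_lit 0, nat_lit 0, nat_lit 0, nat_lit 0, [], [nat_lit 55, nat_lit 40, nat_lit 40, nat_lit 80, nat_lit 3, nat_lit 317, nat_lit 100, nat_lit 11]⟩, ⟨p117_k5, nat_lit 0, nat_lit 0, nat_lit 382, nat_lit 0, nat_lit 427018, [nat_lit 834464000, nat_lit 1751876000, nat_lit 2502324000], [], [nat_lit 5191987220, nat_lit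 5289754076, nat_lit 5277296140, nat_lit 5361445908, nat_lit 5806340177, nat_lit 5844152785, nat_lit 5785756915, nat_lit 5814643648], nat_lit 1271250, nat_lit 1271250, nat_lit 1271250, nat_lit 1271250, nat_lit 1271250, nat_lit 1271250, [nat_lit 1100000, nat_lit 2127500, nat_lit 1271250], [nat_lit 56, nat_lit 40, nat_lit 40, nat_lit 80, nat_lit 32, nat_lit 456, nat_lit 225, nat_lit 10]⟩,
 ⟨nat_lit 0, nat_lit 1582, ⟨.ofNat (nat_lit 562380), .ofNat (nat_lit 623921), .ofNat (nat_lit 585037), .ofNat (nat_lit 646579), .ofNat (nat_lit 567898), .ofNat (nat_lit 624340), .ofNat (nat_lit 592241), .ofNat (nat_lit 648683)⟩, ⟨.ofNat (nat_lit 120000), .ofNat (nat_lit 200000), .ofNat (nat_lit 120000), .ofNat (nat_lit 200000), .ofNat (nat_lit 120000), .ofNat (nat_lit 200000), .ofNat (nat_lit 120000), .ofNat (nat_lit 200000)⟩⟩, [⟨nat_lit 0, nat_lit 95, nat_lit 22, nat_lit 100, nat_lit 40491862⟩, ⟨nat_lit 3, nat_lit 100, nat_lit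 25, nat_lit 86, nat_lit 521835387⟩, ⟨nat_lit 19, nat_lit 100, nat_lit 78, nat_lit 95, nat_lit 55879179⟩]⟩
noncomputable def p117_l34 : Lf2 := ⟨nat_lit 1, nat_lit 30, [nat_lit 15, nat_lit 5, nat_lit 5, nat_lit 20], false, nat_lit 16, nat_lit 80, nat_lit 0, nat_lit 364, zbN0,
 nat_lit 0, nat_lit 0, nat_lit 0, nat_lit 0, nat_lit 0, nat_lit 0, nat_lit 0, nat_lit 0, nat_lit 0, nat_lit 0, nat_lit 0, nat_lit 0, nat_lit 0, nat_lit 0, nat_lit 0, nat_lit 0, nat_lit 0, nat_lit 0, [],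
 C1.Rw.none, C1.Rw.none,
 zbF0, []⟩
noncomputable def p117_l35 : Lf2 := ⟨nat_lit 0, nat_lit 30, [nat_lit 15, nat_lit 5, nat_lit 5, nat_lit 20], true, nat_lit 80, nat_lit 160, nat_lit 0, nat_lit 364, ⟨nat_lit 0, nat_lit 0, nat_lit 1000, nat_lit 6, nat_lit 188, nat_lit 1000, nat_lit 104, nat_lit 1000, nat_lit 101400, nat_lit 293, nat_lit 12660, nat_lit 242, nat_lit 50126717, nat_lit 0, nat_lit 0, nat_lit 3801307, false, false⟩,
 nat_lit 0, nat_lit 0, nat_lit 0, nat_lit 7808, nat_lit 3879, nat_lit 0, nat_lit 27, nat_lit 0, nat_lit 0, nat_lit 0, nat_lit 0, nat_lit 0, nat_lit 0, nat_lit 0, nat_lit 84, nat_lit 200000, nat_lit 0, nat_lit 0, [(nat_lit 26, [(nat_lit 3, nat_lit 1000)])],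
 ⟨p117_k4, nat_lit 0, nat_lit 0, nat_lit 150, nat_lit 0, nat_lit 0, [nat_lit 1484000001, nat_lit 514000001, nat_lit 680400000], [], [nat_lit 19454098807, nat_lit 20190997616, nat_lit 19841343972, nat_lit 20532904934, nat_lit 19804409668, nat_lit 20471568141, nat_lit 20157147904, nat_lit 20787841004], nat_lit 0, nat_lit 0, nat_lit 0, nat_lit 0, nat_lit 0, nat_lit 0, [], [nat_lit 81, nat_lit 40, nat_lit 40, nat_lit 80, nat_lit 13, nat_lit 317, nat_lit 100, nat_lit 9]⟩, C1.Rw.none,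
 ⟨nat_lit 2738, nat_lit 3163, ⟨.ofNat (nat_lit 410148), .ofNat (nat_lit 483313), .ofNat (nat_lit 454433), .ofNat (nat_lit 527599), .ofNat (nat_lit 414835), .ofNat (nat_lit 485730), .ofNat (nat_lit 459646), .ofNat (nat_lit 530541)⟩, ⟨.ofNat (nat_lit 184209), .ofNat (nat_lit 306116), .ofNat (nat_lit 200000), .ofNat (nat_lit 350426), .ofNat (nat_lit 188310), .ofNat (nat_lit 306433), .ofNat (nat_lit 200000), .ofNat (nat_lit 351268)⟩⟩, [⟨nat_lit 0, nat_lit 93, nat_lit 53, nat_lit 100, nat_lit 316487460⟩]⟩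
noncomputable def p117_l36 : Lf2 := ⟨nat_lit 0, nat_lit 30, [nat_lit 15, nat_lit 5, nat_lit 5, nat_lit 20], true, nat_lit 80, nat_lit 160, nat_lit 0, nat_lit 364, ⟨nat_lit 0, nat_lit 1000, nat_lit 0, nat_lit 6, nat_lit 227, nat_lit 1000, nat_lit 104, nat_lit 0, nat_lit 0, nat_lit 0, nat_lit 0, nat_lit 0, nat_lit 46520448, nat_lit 15786953, nat_lit 4692599, nat_lit 4142024, false, false⟩,
 nat_lit 0, nat_lit 0, nat_lit 0, nat_lit 6861, nat_lit 3853, nat_lit 0, nat_lit 0, nat_lit 0, nat_lit 0, nat_lit 0, nat_lit 0, nat_lit 0, nat_lit 0, nat_lit 0, nat_lit 0, nat_lit 250000, nat_lit 0, nat_lit 0, [(nat_lit 26, [(nat_lit 0, nat_lit 1000)])],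
 ⟨p117_k4, nat_lit 0, nat_lit 0, nat_lit 69, nat_lit 0, nat_lit 0, [nat_lit 765600000, nat_lit 1845600000, nat_lit 2928480000], [], [nat_lit 19651094700, nat_lit 20513595410, nat_lit 22094544196, nat_lit 22843496916, nat_lit 20351793072, nat_lit 21128441863, nat_lit 22574422736, nat_lit 23251450877], nat_lit 0, nat_lit 0, nat_lit 0, nat_lit 0, nat_lit 0, nat_lit 0, [], [nat_lit 81, nat_lit 40, nat_lit 40, nat_lit 80, nat_lit 13, nat_lit 317, nat_lit 100, nat_lit 8]⟩, C1.Rw.none,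
 ⟨nat_lit 2738, nat_lit 3163, ⟨.ofNat (nat_lit 483313), .ofNat (nat_lit 605257), .ofNat (nat_lit 527599), .ofNat (nat_lit 649542), .ofNat (nat_lit 485730), .ofNat (nat_lit 603890), .ofNat (nat_lit 530541), .ofNat (nat_lit 648700)⟩, ⟨.ofNat (nat_lit 184209), .ofNat (nat_lit 306116), .ofNat (nat_lit 200000), .ofNat (nat_lit 350426), .ofNat (nat_lit 188310), .ofNat (nat_lit 306433), .ofNat (nat_lit 200000), .ofNat (nat_lit 351268)⟩⟩, []⟩
noncomputable def p117_l37 : Lf2 := ⟨nat_lit 1, nat_lit 30, [nat_lit 15, nat_lit 5, nat_lit 5, nat_lit 20], false, nat_lit 80, nat_lit 160, nat_lit 0, nat_lit 364, zbN0,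
 nat_lit 0, nat_lit 0, nat_lit 0, nat_lit 0, nat_lit 0, nat_lit 0, nat_lit 0, nat_lit 0, nat_lit 0, nat_lit 0, nat_lit 0, nat_lit 0, nat_lit 0, nat_lit 0, nat_lit 0, nat_lit 0, nat_lit 0, nat_lit 0, [],
 C1.Rw.none, C1.Rw.none,
 zbF0, []⟩
noncomputable def p117_l38 : Lf2 := ⟨nat_lit 0, nat_lit 30, [nat_lit 15, nat_lit 5, nat_lit 5, nat_lit 20], true, nat_lit 80, nat_lit 160, nat_lit 0, nat_lit 364, ⟨nat_lit 0, nat_lit 241, nat_lit 759, nat_lit 6, nat_lit 213, nat_lit 1000, nat_lit 105, nat_lit 759, nat_lit 104017, nat_lit 294, nat_lit 6376, nat_lit 204, nat_lit 47756428, nat_lit 14465674, nat_lit 4777898, nat_lit 4041188, false, false⟩,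
 nat_lit 0, nat_lit 0, nat_lit 0, nat_lit 6751, nat_lit 3123, nat_lit 0, nat_lit 0, nat_lit 0, nat_lit 0, nat_lit 0, nat_lit 0, nat_lit 0, nat_lit 0, nat_lit 0, nat_lit 39, nat_lit 212050, nat_lit 0, nat_lit 0, [(nat_lit 26, [(nat_lit 0, nat_lit 241), (nat_lit 3, nat_lit 759)])],
 ⟨p117_k17, nat_lit 0, nat_lit 0, nat_lit 122, nat_lit 0, nat_lit 0, [nat_lit 1211841601, nat_lit 407393201, nat_lit 23584800], [], [nat_lit 19855423120, nat_lit 20543557959, nat_lit 22273267846, nat_lit 22853380295, nat_lit 20586661944, nat_lit 21210877806, nat_lit 22807789464, nat_lit 23336459427], nat_lit 0, nat_lit 0, nat_lit 0, nat_lit 0, nat_lit 0, nat_lit 0, [], [nat_lit 57, nat_lit 40, nat_lit 40, nat_lit 80, nat_lit 7, nat_lit 317, nat_lit 100, nat_lit 10]⟩, C1.Rw.none,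
 ⟨nat_lit 2236, nat_lit 2739, ⟨.ofNat (nat_lit 438420), .ofNat (nat_lit 603890), .ofNat (nat_lit 460818), .ofNat (nat_lit 626287), .ofNat (nat_lit 442816), .ofNat (nat_lit 602558), .ofNat (nat_lit 465571), .ofNat (nat_lit 625312)⟩, ⟨.ofNat (nat_lit 188310), .ofNat (nat_lit 306433), .ofNat (nat_lit 200000), .ofNat (nat_lit 351268), .ofNat (nat_lit 192306), .ofNat (nat_lit 306337), .ofNat (nat_lit 200000), .ofNat (nat_lit 351886)⟩⟩, []⟩
noncomputable def p117_l39 : Lf2 := ⟨nat_lit 0, nat_lit 30, [nat_lit 15, nat_lit 5, nat_lit 5, nat_lit 20], true, nat_lit 80, nat_lit 160, nat_lit 0, nat_lit 352, ⟨nat_lit 0, nat_lit 1000, nat_lit 0, nat_lit 6, nat_lit 228, nat_lit 1000, nat_lit 105, nat_lit 0, nat_lit 0, nat_lit 0, nat_lit 0, nat_lit 0, nat_lit 46361686, nat_lit 15919218, nat_lit 4719096, nat_lit 4158476, false, false⟩,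
 nat_lit 0, nat_lit 0, nat_lit 0, nat_lit 6688, nat_lit 3648, nat_lit 0, nat_lit 0, nat_lit 0, nat_lit 0, nat_lit 0, nat_lit 0, nat_lit 0, nat_lit 0, nat_lit 0, nat_lit 0, nat_lit 250000, nat_lit 0, nat_lit 0, [(nat_lit 26, [(nat_lit 0, nat_lit 1000)])],
 ⟨p117_k17, nat_lit 0, nat_lit 0, nat_lit 76, nat_lit 0, nat_lit 0, [nat_lit 765600000, nat_lit 1715200000, nat_lit 2512800000], [], [nat_lit 20251069742, nat_lit 21102940841, nat_lit 22749264656, nat_lit 23477258176, nat_lit 20939865782, nat_lit 21707451180, nat_lit 23224492032, nat_lit 23883296288], nat_lit 0, nat_lit 0, nat_lit 0, nat_lit 0, nat_lit 0, nat_lit 0, [], [nat_lit 57, nat_lit 40, nat_lit 40, nat_lit 80, nat_lit 7, nat_lit 317, nat_lit 100, nat_lit 10]⟩, C1.Rw.none,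
 ⟨nat_lit 2236, nat_lit 2739, ⟨.ofNat (nat_lit 490366), .ofNat (nat_lit 626287), .ofNat (nat_lit 512763), .ofNat (nat_lit 648684), .ofNat (nat_lit 494096), .ofNat (nat_lit 625312), .ofNat (nat_lit 516850), .ofNat (nat_lit 648065)⟩, ⟨.ofNat (nat_lit 188310), .ofNat (nat_lit 306433), .ofNat (nat_lit 200000), .ofNat (nat_lit 351268), .ofNat (nat_lit 192306), .ofNat (nat_lit 306337), .ofNat (nat_lit 200000), .ofNat (nat_lit 351886)⟩⟩, []⟩
noncomputable def p117_l40 : Lf2 := ⟨nat_lit 1, nat_lit 30, [nat_lit 15, nat_lit 5, nat_lit 5, nat_lit 20], false, nat_lit 80, nat_lit 160, nat_lit 0, nat_lit 364, zbN0,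
 nat_lit 0, nat_lit 0, nat_lit 0, nat_lit 0, nat_lit 0, nat_lit 0, nat_lit 0, nat_lit 0, nat_lit 0, nat_lit 0, nat_lit 0, nat_lit 0, nat_lit 0, nat_lit 0, nat_lit 0, nat_lit 0, nat_lit 0, nat_lit 0, [],
 C1.Rw.none, C1.Rw.none,
 zbF0, []⟩
noncomputable def p117_l41 : Lf2 := ⟨nat_lit 0, nat_lit 30, [nat_lit 15, nat_lit 5, nat_lit 5, nat_lit 20], true, nat_lit 80, nat_lit 160, nat_lit 0, nat_lit 364, ⟨nat_lit 0, nat_lit 184, nat_lit 816, nat_lit 6, nat_lit 213, nat_lit 1000, nat_lit 105, nat_lit 816, nat_lit 104017, nat_lit 294, nat_lit 4820, nat_lit 214, nat_lit 47755959, nat_lit 14452290, nat_lit 4791751, nat_lit 4042698, false, false⟩,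
 nat_lit 0, nat_lit 0, nat_lit 0, nat_lit 4164, nat_lit 2438, nat_lit 0, nat_lit 0, nat_lit 0, nat_lit 0, nat_lit 0, nat_lit 0, nat_lit 0, nat_lit 0, nat_lit 0, nat_lit 97, nat_lit 250000, nat_lit 0, nat_lit 0, [(nat_lit 29, [(nat_lit 0, nat_lit 184), (nat_lit 4, nat_lit 816)])],
 ⟨p117_k0, nat_lit 0, nat_lit 0, nat_lit 133, nat_lit 0, nat_lit 0, [nat_lit 1153280001, nat_lit 369315200, nat_lit 204604800], [], [nat_lit 19660011389, nat_lit 21137306533, nat_lit 20719904519, nat_lit 22224531064, nat_lit 20545059481, nat_lit 21925632997, nat_lit 21741684499, nat_lit 23020757243], nat_lit 0, nat_lit 0, nat_lit 0, nat_lit 0, nat_lit 0, nat_lit 0, [], [nat_lit 57, nat_lit 40, nat_lit 40, nat_lit 80, nat_lit 7, nat_lit 317, nat_lit 100, nat_lit 10]⟩, C1.Rw.none,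
 ⟨nat_lit 0, nat_lit 2237, ⟨.ofNat (nat_lit 467180), .ofNat (nat_lit 543695), .ofNat (nat_lit 510875), .ofNat (nat_lit 587391), .ofNat (nat_lit 480752), .ofNat (nat_lit 548146), .ofNat (nat_lit 528899), .ofNat (nat_lit 596294)⟩, ⟨.ofNat (nat_lit 192306), .ofNat (nat_lit 306334), .ofNat (nat_lit 200000), .ofNat (nat_lit 351885), .ofNat (nat_lit 199999), .ofNat (nat_lit 299996), .ofNat (nat_lit 200000), .ofNat (nat_lit 349998)⟩⟩, [⟨nat_lit 0, nat_lit 95, nat_lit 31, nat_lit 100, nat_lit 186466859⟩]⟩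
noncomputable def p117_l42 : Lf2 := ⟨nat_lit 0, nat_lit 30, [nat_lit 15, nat_lit 5, nat_lit 5, nat_lit 20], true, nat_lit 80, nat_lit 160, nat_lit 0, nat_lit 364, ⟨nat_lit 0, nat_lit 778, nat_lit 222, nat_lit 6, nat_lit 239, nat_lit 1000, nat_lit 105, nat_lit 222, nat_lit 104017, nat_lit 294, nat_lit 24936, nat_lit 200, nat_lit 45347241, nat_lit 16960432, nat_lit 4692327, nat_lit 4236839, true, false⟩,
 nat_lit 0, nat_lit 0, nat_lit 0, nat_lit 5297, nat_lit 2965, nat_lit 0, nat_lit 0, nat_lit 0, nat_lit 0, nat_lit 0, nat_lit 0, nat_lit 0, nat_lit 0, nat_lit 0, nat_lit 0, nat_lit 237790, nat_lit 0, nat_lit 0, [(nat_lit 29, [(nat_lit 0, nat_lit 778), (nat_lit 3, nat_lit 222)])],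
 ⟨p117_k0, nat_lit 0, nat_lit 0, nat_lit 79, nat_lit 0, nat_lit 0, [nat_lit 862408001, nat_lit 904693601, nat_lit 1101859467], [], [nat_lit 21518248163, nat_lit 21854959058, nat_lit 22732365483, nat_lit 23046688700, nat_lit 22346483433, nat_lit 22651927591, nat_lit 23460698203, nat_lit 23746447988], nat_lit 0, nat_lit 0, nat_lit 0, nat_lit 0, nat_lit 0, nat_lit 0, [], [nat_lit 57, nat_lit 40, nat_lit 40, nat_lit 80, nat_lit 7, nat_lit 317, nat_lit 100, nat_lit 9]⟩, C1.Rw.none,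
 ⟨nat_lit 1936, nat_lit 2237, ⟨.ofNat (nat_lit 545531), .ofNat (nat_lit 602562), .ofNat (nat_lit 591062), .ofNat (nat_lit 648093), .ofNat (nat_lit 546004), .ofNat (nat_lit 601908), .ofNat (nat_lit 592008), .ofNat (nat_lit 647913)⟩, ⟨.ofNat (nat_lit 192306), .ofNat (nat_lit 306337), .ofNat (nat_lit 200000), .ofNat (nat_lit 351886), .ofNat (nat_lit 194266), .ofNat (nat_lit 306044), .ofNat (nat_lit 200000), .ofNat (nat_lit 352066)⟩⟩, []⟩
noncomputable def p117_l43 : Lf2 := ⟨nat_lit 0, nat_lit 30, [nat_lit 15, nat_lit 5, nat_lit 5, nat_lit 20], true, nat_lit 80, nat_lit 160, nat_lit 0, nat_lit 364, ⟨nat_lit 0, nat_lit 440, nat_lit 560, nat_lit 6, nat_lit 239, nat_lit 1000, nat_lit 105, nat_lit 560, nat_lit 104017, nat_lit 294, nat_lit 24552, nat_lit 200, nat_lit 45330701, nat_lit 16966721, nat_lit 4702578, nat_lit 4239366, true, false⟩,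
 nat_lit 0, nat_lit 0, nat_lit 0, nat_lit 3540, nat_lit 2414, nat_lit 0, nat_lit 0, nat_lit 0, nat_lit 0, nat_lit 0, nat_lit 0, nat_lit 0, nat_lit 0, nat_lit 0, nat_lit 35, nat_lit 250000, nat_lit 0, nat_lit 0, [(nat_lit 29, [(nat_lit 0, nat_lit 440), (nat_lit 4, nat_lit 560)])],
 ⟨p117_k16, nat_lit 0, nat_lit 0, nat_lit 91, nat_lit 0, nat_lit 0, [nat_lit 910400001, nat_lit 169488001, nat_lit 17696000], [], [nat_lit 21318236397, nat_lit 21615023713, nat_lit 22428288361, nat_lit 22706369409, nat_lit 22182838847, nat_lit 22453553725, nat_lit 23283429769, nat_lit 23581278839], nat_lit 0, nat_lit 0, nat_lit 0, nat_lit 0, nat_lit 0, nat_lit 0, [], [nat_lit 55, nat_lit 40, nat_lit 40, nat_lit 80, nat_lit 3, nat_lit 249, nat_lit 40, nat_lit 8]⟩, C1.Rw.none,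
 ⟨nat_lit 1581, nat_lit 1937, ⟨.ofNat (nat_lit 545992), .ofNat (nat_lit 601908), .ofNat (nat_lit 591984), .ofNat (nat_lit 647901), .ofNat (nat_lit 546601), .ofNat (nat_lit 601263), .ofNat (nat_lit 593201), .ofNat (nat_lit 647865)⟩, ⟨.ofNat (nat_lit 194266), .ofNat (nat_lit 306044), .ofNat (nat_lit 200000), .ofNat (nat_lit 352066), .ofNat (nat_lit 196201), .ofNat (nat_lit 305473), .ofNat (nat_lit 200000), .ofNat (nat_lit 352103)⟩⟩, []⟩
noncomputable def p117_l44 : Lf2 := ⟨nat_lit 1, nat_lit 30, [nat_lit 15, nat_lit 5, nat_lit 5, nat_lit 20], false, nat_lit 80, nat_lit 160, nat_lit 0, nat_lit 364, zbN0,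
 nat_lit 0, nat_lit 0, nat_lit 0, nat_lit 0, nat_lit 0, nat_lit 0, nat_lit 0, nat_lit 0, nat_lit 0, nat_lit 0, nat_lit 0, nat_lit 0, nat_lit 0, nat_lit 0, nat_lit 0, nat_lit 0, nat_lit 0, nat_lit 0, [],
 C1.Rw.none, C1.Rw.none,
 zbF0, []⟩
noncomputable def p117_l45 : Lf2 := ⟨nat_lit 0, nat_lit 30, [nat_lit 15, nat_lit 5, nat_lit 5, nat_lit 20], true, nat_lit 80, nat_lit 160, nat_lit 0, nat_lit 364, ⟨nat_lit 0, nat_lit 461, nat_lit 539, nat_lit 6, nat_lit 234, nat_lit 1000, nat_lit 105, nat_lit 539, nat_lit 104017, nat_lit 294, nat_lit 2404, nat_lit 204, nat_lit 45768715, nat_lit 16515232, nat_lit 4716053, nat_lit 4206646, true, false⟩,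
 nat_lit 0, nat_lit 0, nat_lit 0, nat_lit 3538, nat_lit 2388, nat_lit 0, nat_lit 0, nat_lit 0, nat_lit 0, nat_lit 0, nat_lit 0, nat_lit 0, nat_lit 0, nat_lit 0, nat_lit 30, nat_lit 250000, nat_lit 0, nat_lit 0, [(nat_lit 29, [(nat_lit 0, nat_lit 461), (nat_lit 4, nat_lit 539)])],
 ⟨p117_k15, nat_lit 0, nat_lit 0, nat_lit 105, nat_lit 0, nat_lit 0, [nat_lit 890820001, nat_lit 155747201, nat_lit 10272400], [], [nat_lit 21721979305, nat_lit 22312930849, nat_lit 22812522537, nat_lit 23366319569, nat_lit 22569035809, nat_lit 23108186561, nat_lit 23598454115, nat_lit 24191512995], nat_lit 0, nat_lit 0, nat_lit 0, nat_lit 0, nat_lit 0, nat_lit 0, [], [nat_lit 55, nat_lit 40, nat_lit 40, nat_lit 80, nat_lit 3, nat_lit 249, nat_lit 40, nat_lit 8]⟩, C1.Rw.none,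
 ⟨nat_lit 0, nat_lit 1582, ⟨.ofNat (nat_lit 545316), .ofNat (nat_lit 601257), .ofNat (nat_lit 567974), .ofNat (nat_lit 623921), .ofNat (nat_lit 548686), .ofNat (nat_lit 599992), .ofNat (nat_lit 573029), .ofNat (nat_lit 624340)⟩, ⟨.ofNat (nat_lit 196201), .ofNat (nat_lit 305469), .ofNat (nat_lit 200000), .ofNat (nat_lit 352101), .ofNat (nat_lit 199999), .ofNat (nat_lit 299995), .ofNat (nat_lit 200000), .ofNat (nat_lit 349997)⟩⟩, [⟨nat_lit 3, nat_lit 100, nat_lit 26, nat_lit 85, nat_lit 23656111⟩]⟩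
noncomputable def p117_l46 : Lf2 := ⟨nat_lit 0, nat_lit 30, [nat_lit 15, nat_lit 5, nat_lit 5, nat_lit 20], false, nat_lit 80, nat_lit 160, nat_lit 0, nat_lit 352, ⟨nat_lit 29, nat_lit 471, nat_lit 500, nat_lit 6, nat_lit 244, nat_lit 971, nat_lit 105, nat_lit 500, nat_lit 104017, nat_lit 294, nat_lit 26116, nat_lit 200, nat_lit 44889808, nat_lit 17438387, nat_lit 4671805, nat_lit 4268836, true, false⟩,
 nat_lit 0, nat_lit 0, nat_lit 465, nat_lit 2955, nat_lit 2825, nat_lit 270, nat_lit 0, nat_lit 0, nat_lit 0, nat_lit 15, nat_lit 0, nat_lit 0, nat_lit 0, nat_lit 0, nat_lit 0, nat_lit 215250, nat_lit 0, nat_lit 0, [(nat_lit 29, [(nat_lit 0, nat_lit 471), (nat_lit 3, nat_lit 500)])],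
 ⟨p117_k15, nat_lit 0, nat_lit 0, nat_lit 105, nat_lit 0, nat_lit 0, [nat_lit 968135601, nat_lit 108036401, nat_lit 21644400], [], [nat_lit 22296045101, nat_lit 22931084701, nat_lit 23400075901, nat_lit 23994790200, nat_lit 22999790951, nat_lit 23577246501, nat_lit 24017644101, nat_lit 24560320603], nat_lit 0, nat_lit 0, nat_lit 0, nat_lit 0, nat_lit 0, nat_lit 0, [], [nat_lit 55, nat_lit 40, nat_lit 40, nat_lit 80, nat_lit 3, nat_lit 249, nat_lit 40, nat_lit 8]⟩, ⟨p117_k5, nat_lit 0, nat_lit 0, nat_lit 630, nat_lit 0, nat_lit 664408, [nat_lit 135952000, nat_lit 285418000, nat_lit 407682000], [], [nat_lit 1147990444, nat_lit 1158015552, nat_lit 1152344220, nat_lit 1160725888, nat_lit 1216025276, nat_lit 1096540340, nat_lit 978550880, nat_lit 971620684], nat_lit 1271250, nat_lit 1271250, nat_lit 1271250, nat_lit 1271250, nat_lit 0, nat_lit 2486000, [nat_lit 1100000, nat_lit 2127500, nat_lit 1271250], [nat_lit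 56, nat_lit 40, nat_lit 40, nat_lit 80, nat_lit 32, nat_lit 456, nat_lit 225, nat_lit 10]⟩,
 ⟨nat_lit 0, nat_lit 1582, ⟨.ofNat (nat_lit 567974), .ofNat (nat_lit 623921), .ofNat (nat_lit 590632), .ofNat (nat_lit 646579), .ofNat (nat_lit 573029), .ofNat (nat_lit 624340), .ofNat (nat_lit 597372), .ofNat (nat_lit 648683)⟩, ⟨.ofNat (nat_lit 196201), .ofNat (nat_lit 305469), .ofNat (nat_lit 200000), .ofNat (nat_lit 352101), .ofNat (nat_lit 199999), .ofNat (nat_lit 299995), .ofNat (nat_lit 200000), .ofNat (nat_lit 349997)⟩⟩, [⟨nat_lit 0, nat_lit 95, nat_lit 22, nat_lit 100, nat_lit 174888279⟩, ⟨nat_lit 7, nat_lit 82, nat_lit 100, nat_lit 92, nat_lit 3162539⟩]⟩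
noncomputable def b_V_900_600_20_72 : St := ⟨true, nat_lit 0, nat_lit 1, nat_lit 1, nat_lit 120, nat_lit 360, nat_lit 400, nat_lit 240, nat_lit 280, nat_lit 112, nat_lit 240, nat_lit 80, nat_lit 120, nat_lit 8, nat_lit 160, nat_lit 0, nat_lit 364, nat_lit 120, nat_lit 156, nat_lit 0, nat_lit 0, nat_lit 0, nat_lit 0⟩
theorem d_V_900_600_20_72 (h : EB TB.env) : Dead b_V_900_600_20_72 := chkB_sound0 h (T :=
(.spl (nat_lit 4) (nat_lit 80)
(.spl (nat_lit 2) (nat_lit 160)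
(.spl (nat_lit 3) (nat_lit 100)
(.trX (nat_lit 19) (nat_lit 100) (nat_lit 68) (nat_lit 88) (nat_lit 352) (.leaf p117_l15))
(.trZ (nat_lit 3) (nat_lit 100) (nat_lit 69) (nat_lit 45) (nat_lit 16) (.leaf p117_l16)))
(.spl (nat_lit 3) (nat_lit 100)
(.trX (nat_lit 19) (nat_lit 100) (nat_lit 68) (nat_lit 88) (nat_lit 352) (.spl (nat_lit 6) (nat_lit 144)
(.spl (nat_lit 0) (nat_lit 380)
(.leaf p117_l17)
(.trZ (nat_lit 3) (nat_lit 100) (nat_lit 54) (nat_lit 57) (nat_lit 20) (.spl (nat_lit 0) (nat_lit 390)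
(.leaf p117_l18)
(.trZ (nat_lit 0) (nat_lit 99) (nat_lit 31) (nat_lit 100) (nat_lit 176) (.trZ (nat_lit 3) (nat_lit 100) (nat_lit 39) (nat_lit 72) (nat_lit 36) (.leaf p117_l19))))))
(.leaf p117_l20)))
(.trZ (nat_lit 3) (nat_lit 100) (nat_lit 69) (nat_lit 45) (nat_lit 16) (.spl (nat_lit 6) (nat_lit 144)
(.spl (nat_lit 0) (nat_lit 380)
(.spl (nat_lit 6) (nat_lit 128)
(.spl (nat_lit 0) (nat_lit 370)
(.leaf p117_l21)
(.trZ (nat_lit 3) (nat_lit 100) (nat_lit 61) (nat_lit 55) (nat_lit 20) (.spl (nat_lit 1) (nat_lit 260)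
(.leaf p117_l22)
(.trX (nat_lit 19) (nat_lit 100) (nat_lit 69) (nat_lit 96) (nat_lit 352) (.spl (nat_lit 2) (nat_lit 200)
(.leaf p117_l23)
(.leaf p117_l24))))))
(.leaf p117_l25))
(.trZ (nat_lit 3) (nat_lit 100) (nat_lit 50) (nat_lit 65) (nat_lit 32) (.spl (nat_lit 1) (nat_lit 260)
(.spl (nat_lit 2) (nat_lit 200)
(.leaf p117_l26)
(.trX (nat_lit 22) (nat_lit 100) (nat_lit 60) (nat_lit 80) (nat_lit 360) (.spl (nat_lit 0) (nat_lit 390)
(.leaf p117_l27)
(.trZ (nat_lit 3) (nat_lit 100) (nat_lit 36) (nat_lit 77) (nat_lit 48) (.leaf p117_l28)))))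
(.trZ (nat_lit 0) (nat_lit 96) (nat_lit 44) (nat_lit 100) (nat_lit 168) (.trX (nat_lit 19) (nat_lit 100) (nat_lit 69) (nat_lit 96) (nat_lit 352) (.spl (nat_lit 5) (nat_lit 160)
(.leaf p117_l29)
(.spl (nat_lit 0) (nat_lit 390)
(.spl (nat_lit 6) (nat_lit 136)
(.spl (nat_lit 0) (nat_lit 385)
(.leaf p117_l30)
(.trZ (nat_lit 0) (nat_lit 96) (nat_lit 38) (nat_lit 100) (nat_lit 180) (.trZ (nat_lit 3) (nat_lit 100) (nat_lit 44) (nat_lit 71) (nat_lit 40) (.leaf p117_l31))))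
(.leaf p117_l32))
(.trZ (nat_lit 0) (nat_lit 95) (nat_lit 31) (nat_lit 100) (nat_lit 196) (.trZ (nat_lit 3) (nat_lit 100) (nat_lit 36) (nat_lit 77) (nat_lit 48) (.leaf p117_l33))))))))))
(.leaf p117_l34)))))
(.spl (nat_lit 0) (nat_lit 380)
(.spl (nat_lit 6) (nat_lit 136)
(.spl (nat_lit 0) (nat_lit 370)
(.spl (nat_lit 6) (nat_lit 128)
(.spl (nat_lit 2) (nat_lit 160)
(.leaf p117_l35)
(.leaf p117_l36))
(.leaf p117_l37))
(.trZ (nat_lit 0) (nat_lit 100) (nat_lit 54) (nat_lit 96) (nat_lit 128) (.spl (nat_lit 1) (nat_lit 260)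
(.leaf p117_l38)
(.trZ (nat_lit 0) (nat_lit 98) (nat_lit 54) (nat_lit 100) (nat_lit 148) (.trX (nat_lit 19) (nat_lit 100) (nat_lit 69) (nat_lit 96) (nat_lit 352) (.leaf p117_l39))))))
(.leaf p117_l40))
(.trZ (nat_lit 0) (nat_lit 100) (nat_lit 44) (nat_lit 99) (nat_lit 148) (.spl (nat_lit 2) (nat_lit 200)
(.leaf p117_l41)
(.spl (nat_lit 0) (nat_lit 390)
(.spl (nat_lit 6) (nat_lit 148)
(.spl (nat_lit 0) (nat_lit 385)
(.leaf p117_l42)
(.leaf p117_l43))
(.leaf p117_l44))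
(.spl (nat_lit 1) (nat_lit 260)
(.leaf p117_l45)
(.trX (nat_lit 19) (nat_lit 100) (nat_lit 69) (nat_lit 96) (nat_lit 352) (.leaf p117_l46))))))))) (by decide +kernel)
noncomputable def p117_l47 : Lf2 := ⟨nat_lit 0, nat_lit 30, [nat_lit 15, nat_lit 5, nat_lit 5, nat_lit 20], true, nat_lit 160, nat_lit 248, nat_lit 0, nat_lit 364, ⟨nat_lit 0, nat_lit 1000, nat_lit 0, nat_lit 6, nat_lit 212, nat_lit 1000, nat_lit 158, nat_lit 0, nat_lit 0, nat_lit 0, nat_lit 0, nat_lit 0, nat_lit 44444399, nat_lit 13854855, nat_lit 8700746, nat_lit 4636275, false, false⟩,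
 nat_lit 0, nat_lit 0, nat_lit 0, nat_lit 9284, nat_lit 4012, nat_lit 0, nat_lit 0, nat_lit 0, nat_lit 0, nat_lit 0, nat_lit 0, nat_lit 0, nat_lit 0, nat_lit 0, nat_lit 0, nat_lit 250000, nat_lit 0, nat_lit 0, [(nat_lit 26, [(nat_lit 0, nat_lit 1000)])],
 ⟨p117_k4, nat_lit 0, nat_lit 0, nat_lit 57, nat_lit 0, nat_lit 0, [nat_lit 765600000, nat_lit 1845600000, nat_lit 2928480000], [], [nat_lit 19666312599, nat_lit 20090728236, nat_lit 22480058144, nat_lit 22825639526, nat_lit 22423912009, nat_lit 22849319021, nat_lit 24833315524, nat_lit 25180011047], nat_lit 0, nat_lit 0, nat_lit 0, nat_lit 0, nat_lit 0, nat_lit 0, [], [nat_lit 81, nat_lit 40, nat_lit 40, nat_lit 80, nat_lit 13, nat_lit 345, nat_lit 125, nat_lit 9]⟩, C1.Rw.none,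
 ⟨nat_lit 2958, nat_lit 3163, ⟨.ofNat (nat_lit 410198), .ofNat (nat_lit 605261), .ofNat (nat_lit 454502), .ofNat (nat_lit 649565), .ofNat (nat_lit 412494), .ofNat (nat_lit 604573), .ofNat (nat_lit 457042), .ofNat (nat_lit 649122)⟩, ⟨.ofNat (nat_lit 306116), .ofNat (nat_lit 440213), .ofNat (nat_lit 350426), .ofNat (nat_lit 484523), .ofNat (nat_lit 306315), .ofNat (nat_lit 438361), .ofNat (nat_lit 350869), .ofNat (nat_lit 482915)⟩⟩, [⟨nat_lit 4, nat_lit 100, nat_lit 59, nat_lit 87, nat_lit 241998052⟩]⟩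
noncomputable def p117_l48 : Lf2 := ⟨nat_lit 0, nat_lit 30, [nat_lit 15, nat_lit 5, nat_lit 5, nat_lit 20], true, nat_lit 160, nat_lit 240, nat_lit 0, nat_lit 364, ⟨nat_lit 0, nat_lit 1000, nat_lit 0, nat_lit 6, nat_lit 215, nat_lit 1000, nat_lit 155, nat_lit 0, nat_lit 0, nat_lit 0, nat_lit 0, nat_lit 0, nat_lit 44395510, nat_lit 14137572, nat_lit 8466918, nat_lit 4630046, false, false⟩,
 nat_lit 0, nat_lit 0, nat_lit 0, nat_lit 8365, nat_lit 3693, nat_lit 0, nat_lit 0, nat_lit 0, nat_lit 0, nat_lit 0, nat_lit 0, nat_lit 0, nat_lit 0, nat_lit 0, nat_lit 0, nat_lit 250000, nat_lit 0, nat_lit 0, [(nat_lit 26, [(nat_lit 0, nat_lit 1000)])],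
 ⟨p117_k18, nat_lit 0, nat_lit 0, nat_lit 55, nat_lit 0, nat_lit 0, [nat_lit 765600000, nat_lit 1715200000, nat_lit 2512800000], [], [nat_lit 20129702334, nat_lit 20531359895, nat_lit 22870383127, nat_lit 23201785437, nat_lit 22419777407, nat_lit 22769615253, nat_lit 24704980892, nat_lit 24995716164], nat_lit 0, nat_lit 0, nat_lit 0, nat_lit 0, nat_lit 0, nat_lit 0, [], [nat_lit 57, nat_lit 40, nat_lit 40, nat_lit 80, nat_lit 7, nat_lit 345, nat_lit 125, nat_lit 10]⟩, C1.Rw.none,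
 ⟨nat_lit 2738, nat_lit 2959, ⟨.ofNat (nat_lit 424494), .ofNat (nat_lit 604573), .ofNat (nat_lit 469042), .ofNat (nat_lit 649121), .ofNat (nat_lit 426694), .ofNat (nat_lit 603893), .ofNat (nat_lit 471522), .ofNat (nat_lit 648722)⟩, ⟨.ofNat (nat_lit 306315), .ofNat (nat_lit 426357), .ofNat (nat_lit 350869), .ofNat (nat_lit 470911), .ofNat (nat_lit 306433), .ofNat (nat_lit 424556), .ofNat (nat_lit 351268), .ofNat (nat_lit 469390)⟩⟩, [⟨nat_lit 4, nat_lit 100, nat_lit 55, nat_lit 87, nat_lit 221512297⟩]⟩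
noncomputable def p117_l49 : Lf2 := ⟨nat_lit 1, nat_lit 30, [nat_lit 15, nat_lit 5, nat_lit 5, nat_lit 20], false, nat_lit 160, nat_lit 248, nat_lit 0, nat_lit 364, zbN0,
 nat_lit 0, nat_lit 0, nat_lit 0, nat_lit 0, nat_lit 0, nat_lit 0, nat_lit 0, nat_lit 0, nat_lit 0, nat_lit 0, nat_lit 0, nat_lit 0, nat_lit 0, nat_lit 0, nat_lit 0, nat_lit 0, nat_lit 0, nat_lit 0, [],
 C1.Rw.none, C1.Rw.none,
 zbF0, []⟩
noncomputable def p117_l50 : Lf2 := ⟨nat_lit 0, nat_lit 30, [nat_lit 15, nat_lit 5, nat_lit 5, nat_lit 20], true, nat_lit 160, nat_lit 232, nat_lit 0, nat_lit 364, ⟨nat_lit 0, nat_lit 1000, nat_lit 0, nat_lit 6, nat_lit 213, nat_lit 1000, nat_lit 152, nat_lit 0, nat_lit 0, nat_lit 0, nat_lit 0, nat_lit 0, nat_lit 44718252, nat_lit 14021464, nat_lit 8260284, nat_lit 4589755, false, false⟩,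
 nat_lit 0, nat_lit 0, nat_lit 0, nat_lit 8524, nat_lit 3757, nat_lit 0, nat_lit 0, nat_lit 0, nat_lit 0, nat_lit 0, nat_lit 0, nat_lit 0, nat_lit 0, nat_lit 0, nat_lit 0, nat_lit 250000, nat_lit 0, nat_lit 0, [(nat_lit 26, [(nat_lit 0, nat_lit 1000)])],
 ⟨p117_k17, nat_lit 0, nat_lit 0, nat_lit 60, nat_lit 0, nat_lit 0, [nat_lit 765600000, nat_lit 1715200000, nat_lit 2512800000], [], [nat_lit 20612879374, nat_lit 21414754011, nat_lit 23169491613, nat_lit 23837985642, nat_lit 22608174970, nat_lit 23316881584, nat_lit 24840052966, nat_lit 25531819069], nat_lit 0, nat_lit 0, nat_lit 0, nat_lit 0, nat_lit 0, nat_lit 0, [], [nat_lit 57, nat_lit 40, nat_lit 40, nat_lit 80, nat_lit 7, nat_lit 345, nat_lit 125, nat_lit 10]⟩, C1.Rw.none,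
 ⟨nat_lit 2236, nat_lit 2739, ⟨.ofNat (nat_lit 438420), .ofNat (nat_lit 603890), .ofNat (nat_lit 460818), .ofNat (nat_lit 626287), .ofNat (nat_lit 442816), .ofNat (nat_lit 602558), .ofNat (nat_lit 465571), .ofNat (nat_lit 625312)⟩, ⟨.ofNat (nat_lit 306433), .ofNat (nat_lit 412743), .ofNat (nat_lit 351268), .ofNat (nat_lit 457578), .ofNat (nat_lit 306337), .ofNat (nat_lit 408965), .ofNat (nat_lit 351886), .ofNat (nat_lit 454514)⟩⟩, [⟨nat_lit 4, nat_lit 100, nat_lit 48, nat_lit 87, nat_lit 310146814⟩]⟩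
noncomputable def p117_l51 : Lf2 := ⟨nat_lit 0, nat_lit 30, [nat_lit 15, nat_lit 5, nat_lit 5, nat_lit 20], false, nat_lit 160, nat_lit 232, nat_lit 0, nat_lit 352, ⟨nat_lit 31, nat_lit 969, nat_lit 0, nat_lit 6, nat_lit 228, nat_lit 969, nat_lit 152, nat_lit 0, nat_lit 0, nat_lit 0, nat_lit 0, nat_lit 0, nat_lit 43478313, nat_lit 15385255, nat_lit 8136432, nat_lit 4693000, false, false⟩,
 nat_lit 0, nat_lit 0, nat_lit 553, nat_lit 6939, nat_lit 3705, nat_lit 321, nat_lit 0, nat_lit 0, nat_lit 0, nat_lit 23, nat_lit 0, nat_lit 0, nat_lit 0, nat_lit 0, nat_lit 0, nat_lit 242250, nat_lit 0, nat_lit 0, [(nat_lit 26, [(nat_lit 0, nat_lit 969)])],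
 ⟨p117_k17, nat_lit 0, nat_lit 0, nat_lit 56, nat_lit 0, nat_lit 0, [nat_lit 770944400, nat_lit 1807356800, nat_lit 2681911200], [], [nat_lit 21003538212, nat_lit 21777423033, nat_lit 23287887145, nat_lit 23951758530, nat_lit 22943153521, nat_lit 23628004456, nat_lit 24902078541, nat_lit 25492577655], nat_lit 0, nat_lit 0, nat_lit 0, nat_lit 0, nat_lit 0, nat_lit 0, [], [nat_lit 57, nat_lit 40, nat_lit 40, nat_lit 80, nat_lit 7, nat_lit 345, nat_lit 125, nat_lit 10]⟩, ⟨p117_k5, nat_lit 0, nat_lit 0, nat_lit 462, nat_lit 0, nat_lit 298961, [nat_lit 145328000, nat_lit 305102000, nat_lit 435798000], [], [nat_lit 1633915489, nat_lit 1460744271, nat_lit 1055902396, nat_lit 1074556008, nat_lit 1647050627, nat_lit 1502608588, nat_lit 991895816, nat_lit 932020956], nat_lit 1271250, nat_lit 1271250, nat_lit 1271250, nat_lit 1271250, nat_lit 0, nat_lit 2486000, [nat_lit 1100000, nat_lit 2127500, nat_lit 1271250], [nat_lit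 56, nat_lit 40, nat_lit 40, nat_lit 80, nat_lit 32, nat_lit 456, nat_lit 225, nat_lit 10]⟩,
 ⟨nat_lit 2236, nat_lit 2739, ⟨.ofNat (nat_lit 490366), .ofNat (nat_lit 626287), .ofNat (nat_lit 512763), .ofNat (nat_lit 648684), .ofNat (nat_lit 494096), .ofNat (nat_lit 625312), .ofNat (nat_lit 516850), .ofNat (nat_lit 648065)⟩, ⟨.ofNat (nat_lit 306433), .ofNat (nat_lit 412743), .ofNat (nat_lit 351268), .ofNat (nat_lit 457578), .ofNat (nat_lit 306337), .ofNat (nat_lit 408965), .ofNat (nat_lit 351886), .ofNat (nat_lit 454514)⟩⟩, [⟨nat_lit 16, nat_lit 48, nat_lit 100, nat_lit 87, nat_lit 301874361⟩, ⟨nat_lit 7, nat_lit 82, nat_lit 100, nat_lit 92, nat_lit 4320371⟩]⟩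
noncomputable def p117_l52 : Lf2 := ⟨nat_lit 1, nat_lit 30, [nat_lit 15, nat_lit 5, nat_lit 5, nat_lit 20], false, nat_lit 160, nat_lit 248, nat_lit 0, nat_lit 364, zbN0,
 nat_lit 0, nat_lit 0, nat_lit 0, nat_lit 0, nat_lit 0, nat_lit 0, nat_lit 0, nat_lit 0, nat_lit 0, nat_lit 0, nat_lit 0, nat_lit 0, nat_lit 0, nat_lit 0, nat_lit 0, nat_lit 0, nat_lit 0, nat_lit 0, [],
 C1.Rw.none, C1.Rw.none,
 zbF0, []⟩
noncomputable def p117_l53 : Lf2 := ⟨nat_lit 0, nat_lit 30, [nat_lit 15, nat_lit 5, nat_lit 5, nat_lit 20], true, nat_lit 160, nat_lit 208, nat_lit 0, nat_lit 364, ⟨nat_lit 0, nat_lit 847, nat_lit 153, nat_lit 6, nat_lit 220, nat_lit 1000, nat_lit 144, nat_lit 153, nat_lit 194400, nat_lit 323, nat_lit 2526, nat_lit 204, nat_lit 44758896, nat_lit 14707090, nat_lit 7534014, nat_lit 4544872, false, false⟩,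
 nat_lit 0, nat_lit 0, nat_lit 0, nat_lit 7865, nat_lit 3025, nat_lit 0, nat_lit 0, nat_lit 0, nat_lit 0, nat_lit 0, nat_lit 0, nat_lit 0, nat_lit 0, nat_lit 0, nat_lit 0, nat_lit 241585, nat_lit 0, nat_lit 0, [(nat_lit 29, [(nat_lit 0, nat_lit 847), (nat_lit 3, nat_lit 153)])],
 ⟨p117_k0, nat_lit 0, nat_lit 0, nat_lit 70, nat_lit 0, nat_lit 0, [nat_lit 837292000, nat_lit 1106256400, nat_lit 1435423867], [], [nat_lit 21348003655, nat_lit 22738452770, nat_lit 23533330050, nat_lit 24740172900, nat_lit 22570013946, nat_lit 23864671916, nat_lit 24580106401, nat_lit 25702084980], nat_lit 0, nat_lit 0, nat_lit 0, nat_lit 0, nat_lit 0, nat_lit 0, [], [nat_lit 57, nat_lit 40, nat_lit 40, nat_lit 80, nat_lit 7, nat_lit 345, nat_lit 125, nat_lit 10]⟩, C1.Rw.none,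
 ⟨nat_lit 0, nat_lit 2237, ⟨.ofNat (nat_lit 467180), .ofNat (nat_lit 602531), .ofNat (nat_lit 489028), .ofNat (nat_lit 624400), .ofNat (nat_lit 480752), .ofNat (nat_lit 599967), .ofNat (nat_lit 504825), .ofNat (nat_lit 624062)⟩, ⟨.ofNat (nat_lit 306334), .ofNat (nat_lit 374750), .ofNat (nat_lit 351885), .ofNat (nat_lit 420300), .ofNat (nat_lit 299996), .ofNat (nat_lit 359993), .ofNat (nat_lit 349998), .ofNat (nat_lit 409994)⟩⟩, [⟨nat_lit 16, nat_lit 32, nat_lit 100, nat_lit 88, nat_lit 448413006⟩]⟩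
noncomputable def p117_l54 : Lf2 := ⟨nat_lit 0, nat_lit 30, [nat_lit 15, nat_lit 5, nat_lit 5, nat_lit 20], false, nat_lit 160, nat_lit 208, nat_lit 0, nat_lit 352, ⟨nat_lit 37, nat_lit 963, nat_lit 0, nat_lit 6, nat_lit 234, nat_lit 963, nat_lit 144, nat_lit 0, nat_lit 0, nat_lit 0, nat_lit 0, nat_lit 0, nat_lit 43500591, nat_lit 16079312, nat_lit 7420097, nat_lit 4643522, false, false⟩,
 nat_lit 0, nat_lit 0, nat_lit 671, nat_lit 3171, nat_lit 3635, nat_lit 390, nat_lit 0, nat_lit 0, nat_lit 0, nat_lit 28, nat_lit 0, nat_lit 0, nat_lit 0, nat_lit 0, nat_lit 0, nat_lit 240750, nat_lit 0, nat_lit 0, [(nat_lit 29, [(nat_lit 0, nat_lit 963)])],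
 ⟨p117_k0, nat_lit 0, nat_lit 0, nat_lit 67, nat_lit 0, nat_lit 0, [nat_lit 787386800, nat_lit 1669187600, nat_lit 2386519200], [], [nat_lit 21993578867, nat_lit 23481154545, nat_lit 23842687910, nat_lit 25278431200, nat_lit 23189871074, nat_lit 24631205955, nat_lit 24872677011, nat_lit 26292658685], nat_lit 0, nat_lit 0, nat_lit 0, nat_lit 0, nat_lit 0, nat_lit 0, [], [nat_lit 57, nat_lit 40, nat_lit 40, nat_lit 80, nat_lit 7, nat_lit 345, nat_lit 125, nat_lit 10]⟩, ⟨p117_k5, nat_lit 0, nat_lit 0, nat_lit 641, nat_lit 0, nat_lit 664408, [nat_lit 173456000, nat_lit 364154000, nat_lit 520146000], [], [nat_lit 1755435136, nat_lit 1546668916, nat_lit 1249970182, nat_lit 1277617956, nat_lit 1795623460, nat_lit 1621259952, nat_lit 1174687768, nat_lit 1104622033], nat_lit 1271250, nat_lit 1271250, nat_lit 1271250, nat_lit 1271250, nat_lit 0, nat_lit 2486000, [nat_lit 1100000, nat_lit 2127500, nat_lit 1271250], [nat_lit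 56, nat_lit 40, nat_lit 40, nat_lit 80, nat_lit 32, nat_lit 456, nat_lit 225, nat_lit 10]⟩,
 ⟨nat_lit 0, nat_lit 2237, ⟨.ofNat (nat_lit 518456), .ofNat (nat_lit 624400), .ofNat (nat_lit 540305), .ofNat (nat_lit 646249), .ofNat (nat_lit 530746), .ofNat (nat_lit 624062), .ofNat (nat_lit 554820), .ofNat (nat_lit 648136)⟩, ⟨.ofNat (nat_lit 306334), .ofNat (nat_lit 374750), .ofNat (nat_lit 351885), .ofNat (nat_lit 420300), .ofNat (nat_lit 299996), .ofNat (nat_lit 359993), .ofNat (nat_lit 349998), .ofNat (nat_lit 409994)⟩⟩, [⟨nat_lit 16, nat_lit 44, nat_lit 100, nat_lit 92, nat_lit 288581927⟩, ⟨nat_lit 4, nat_lit 100, nat_lit 32, nat_lit 88, nat_lit 39650456⟩, ⟨nat_lit 7, nat_lit 82, nat_lit 100, nat_lit 92, nat_lit 5206736⟩]⟩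
noncomputable def b_V_900_600_20_73 : St := ⟨true, nat_lit 0, nat_lit 1, nat_lit 1, nat_lit 120, nat_lit 360, nat_lit 400, nat_lit 240, nat_lit 280, nat_lit 112, nat_lit 240, nat_lit 80, nat_lit 120, nat_lit 160, nat_lit 248, nat_lit 0, nat_lit 364, nat_lit 120, nat_lit 156, nat_lit 0, nat_lit 0, nat_lit 0, nat_lit 0⟩
theorem d_V_900_600_20_73 (h : EB TB.env) : Dead b_V_900_600_20_73 := chkB_sound0 h (T :=
(.spl (nat_lit 0) (nat_lit 380)
(.spl (nat_lit 6) (nat_lit 136)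
(.spl (nat_lit 0) (nat_lit 370)
(.spl (nat_lit 6) (nat_lit 128)
(.spl (nat_lit 0) (nat_lit 365)
(.leaf p117_l47)
(.trZ (nat_lit 0) (nat_lit 100) (nat_lit 58) (nat_lit 94) (nat_lit 120) (.trX (nat_lit 16) (nat_lit 58) (nat_lit 100) (nat_lit 93) (nat_lit 240) (.leaf p117_l48))))
(.leaf p117_l49))
(.trZ (nat_lit 0) (nat_lit 100) (nat_lit 54) (nat_lit 96) (nat_lit 128) (.trX (nat_lit 16) (nat_lit 53) (nat_lit 100) (nat_lit 93) (nat_lit 232) (.spl (nat_lit 1) (nat_lit 260)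
(.leaf p117_l50)
(.trZ (nat_lit 0) (nat_lit 98) (nat_lit 54) (nat_lit 100) (nat_lit 148) (.trX (nat_lit 19) (nat_lit 100) (nat_lit 69) (nat_lit 96) (nat_lit 352) (.leaf p117_l51)))))))
(.leaf p117_l52))
(.trZ (nat_lit 0) (nat_lit 100) (nat_lit 44) (nat_lit 99) (nat_lit 148) (.trX (nat_lit 16) (nat_lit 44) (nat_lit 100) (nat_lit 92) (nat_lit 208) (.spl (nat_lit 1) (nat_lit 260)
(.leaf p117_l53)
(.trZ (nat_lit 0) (nat_lit 96) (nat_lit 44) (nat_lit 100) (nat_lit 168) (.trX (nat_lit 19) (nat_lit 100) (nat_lit 69) (nat_lit 96) (nat_lit 352) (.leaf p117_l54)))))))) (by decide +kernel)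
noncomputable def p117_l55 : Lf2 := ⟨nat_lit 0, nat_lit 25, [nat_lit 44, nat_lit 5, nat_lit 5, nat_lit 20], false, nat_lit 8, nat_lit 160, nat_lit 0, nat_lit 352, ⟨nat_lit 1000, nat_lit 0, nat_lit 0, nat_lit 0, nat_lit 0, nat_lit 0, nat_lit 0, nat_lit 0, nat_lit 0, nat_lit 0, nat_lit 0, nat_lit 0, nat_lit 0, nat_lit 0, nat_lit 0, nat_lit 0, false, false⟩,
 nat_lit 0, nat_lit 0, nat_lit 23191, nat_lit 0, nat_lit 6516, nat_lit 12277, nat_lit 0, nat_lit 0, nat_lit 0, nat_lit 236, nat_lit 0, nat_lit 0, nat_lit 0, nat_lit 0, nat_lit 0, nat_lit 0, nat_lit 0, nat_lit 0, [],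
 ⟨p117_k7, nat_lit 0, nat_lit 0, nat_lit 190, nat_lit 0, nat_lit 0, [nat_lit 938000000, nat_lit 4688000000, nat_lit 7968000000], [], [nat_lit 33487133813, nat_lit 35337589661, nat_lit 40940187820, nat_lit 42228595663, nat_lit 29450723552, nat_lit 30779386064, nat_lit 35353362375, nat_lit 36467816664], nat_lit 0, nat_lit 0, nat_lit 0, nat_lit 0, nat_lit 0, nat_lit 0, [], [nat_lit 57, nat_lit 40, nat_lit 40, nat_lit 80, nat_lit 7, nat_lit 249, nat_lit 40, nat_lit 7]⟩, ⟨p117_k11, nat_lit 0, nat_lit 0, nat_lit 361, nat_lit 0, nat_lit 82261, [nat_lit 4688000000, nat_lit 9842000000, nat_lit 14058000000], [], [nat_lit 47259317336, nat_lit 47959632460, nat_lit 51596768696, nat_lit 52362134640, nat_lit 37007327500, nat_lit 36311458065, nat_lit 40082075274, nat_lit 40582203562], nat_lit 1271250, nat_lit 1271250, nat_lit 1271250, nat_lit 1271250, nat_lit 0, nat_lit 2486000, [nat_lit 1100000, nat_lit 2127500, nat_lit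 1271250], [nat_lit 56, nat_lit 40, nat_lit 40, nat_lit 80, nat_lit 32, nat_lit 538, nat_lit 300, nat_lit 12]⟩,
 zbF0, [⟨nat_lit 7, nat_lit 81, nat_lit 100, nat_lit 88, nat_lit 30074033⟩, ⟨nat_lit 22, nat_lit 91, nat_lit 100, nat_lit 88, nat_lit 1705322⟩]⟩
noncomputable def p117_l56 : Lf2 := ⟨nat_lit 1, nat_lit 30, [nat_lit 15, nat_lit 5, nat_lit 5, nat_lit 20], false, nat_lit 16, nat_lit 160, nat_lit 0, nat_lit 364, zbN0,
 nat_lit 0, nat_lit 0, nat_lit 0, nat_lit 0, nat_lit 0, nat_lit 0, nat_lit 0, nat_lit 0, nat_lit 0, nat_lit 0, nat_lit 0, nat_lit 0, nat_lit 0, nat_lit 0, nat_lit 0, nat_lit 0, nat_lit 0, nat_lit 0, [],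
 C1.Rw.none, C1.Rw.none,
 zbF0, []⟩
noncomputable def p117_l57 : Lf2 := ⟨nat_lit 1, nat_lit 30, [nat_lit 15, nat_lit 5, nat_lit 5, nat_lit 20], false, nat_lit 16, nat_lit 160, nat_lit 0, nat_lit 352, zbN0,
 nat_lit 0, nat_lit 0, nat_lit 0, nat_lit 0, nat_lit 0, nat_lit 0, nat_lit 0, nat_lit 0, nat_lit 0, nat_lit 0, nat_lit 0, nat_lit 0, nat_lit 0, nat_lit 0, nat_lit 0, nat_lit 0, nat_lit 0, nat_lit 0, [],
 C1.Rw.none, C1.Rw.none,
 zbF0, []⟩
noncomputable def p117_l58 : Lf2 := ⟨nat_lit 0, nat_lit 30, [nat_lit 15, nat_lit 5, nat_lit 5, nat_lit 20], false, nat_lit 20, nat_lit 160, nat_lit 0, nat_lit 352, ⟨nat_lit 1000, nat_lit 0, nat_lit 0, nat_lit 0, nat_lit 0, nat_lit 0, nat_lit 0, nat_lit 0, nat_lit 0, nat_lit 0, nat_lit 0, nat_lit 0, nat_lit 0, nat_lit 0, nat_lit 0, nat_lit 0, false, false⟩,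
 nat_lit 0, nat_lit 0, nat_lit 16814, nat_lit 0, nat_lit 6606, nat_lit 9786, nat_lit 87, nat_lit 0, nat_lit 0, nat_lit 547, nat_lit 0, nat_lit 0, nat_lit 0, nat_lit 0, nat_lit 0, nat_lit 0, nat_lit 0, nat_lit 0, [],
 ⟨p117_k17, nat_lit 0, nat_lit 0, nat_lit 181, nat_lit 0, nat_lit 0, [nat_lit 938000000, nat_lit 4688000000, nat_lit 7968000000], [], [nat_lit 32654661525, nat_lit 33579994932, nat_lit 39300405746, nat_lit 39961352958, nat_lit 28548584978, nat_lit 29341866736, nat_lit 34303417054, nat_lit 34878343544], nat_lit 0, nat_lit 0, nat_lit 0, nat_lit 0, nat_lit 0, nat_lit 0, [], [nat_lit 57, nat_lit 40, nat_lit 40, nat_lit 80, nat_lit 7, nat_lit 249, nat_lit 40, nat_lit 7]⟩, ⟨p117_k5, nat_lit 0, nat_lit 0, nat_lit 313, nat_lit 0, nat_lit 86264, [nat_lit 4688000000, nat_lit 9842000000, nat_lit 14058000000], [], [nat_lit 37472401776, nat_lit 38066969516, nat_lit 43815234428, nat_lit 44374489561, nat_lit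 33127392038, nat_lit 32896850624, nat_lit 36560105909, nat_lit 37149429247], nat_lit 1271250, nat_lit 1271250, nat_lit 1271250, nat_lit 1271250, nat_lit 0, nat_lit 2486000, [nat_lit 1100000, nat_lit 2127500, nat_lit 1271250], [nat_lit 56, nat_lit 40, nat_lit 40, nat_lit 80, nat_lit 32, nat_lit 483, nat_lit 250, nat_lit 11]⟩,
 zbF0, [⟨nat_lit 19, nat_lit 100, nat_lit 78, nat_lit 95, nat_lit 95480207⟩]⟩
noncomputable def p117_l59 : Lf2 := ⟨nat_lit 1, nat_lit 30, [nat_lit 15, nat_lit 5, nat_lit 5, nat_lit 20], false, nat_lit 16, nat_lit 160, nat_lit 0, nat_lit 364, zbN0,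
 nat_lit 0, nat_lit 0, nat_lit 0, nat_lit 0, nat_lit 0, nat_lit 0, nat_lit 0, nat_lit 0, nat_lit 0, nat_lit 0, nat_lit 0, nat_lit 0, nat_lit 0, nat_lit 0, nat_lit 0, nat_lit 0, nat_lit 0, nat_lit 0, [],
 C1.Rw.none, C1.Rw.none,
 zbF0, []⟩
noncomputable def p117_l60 : Lf2 := ⟨nat_lit 1, nat_lit 30, [nat_lit 15, nat_lit 5, nat_lit 5, nat_lit 20], false, nat_lit 8, nat_lit 160, nat_lit 0, nat_lit 364, zbN0,
 nat_lit 0, nat_lit 0, nat_lit 0, nat_lit 0, nat_lit 0, nat_lit 0, nat_lit 0, nat_lit 0, nat_lit 0, nat_lit 0, nat_lit 0, nat_lit 0, nat_lit 0, nat_lit 0, nat_lit 0, nat_lit 0, nat_lit 0, nat_lit 0, [],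
 C1.Rw.none, C1.Rw.none,
 zbF0, []⟩
noncomputable def b_V_900_600_20_74 : St := ⟨true, nat_lit 0, nat_lit 1, nat_lit 1, nat_lit 120, nat_lit 360, nat_lit 380, nat_lit 240, nat_lit 280, nat_lit 240, nat_lit 376, nat_lit 80, nat_lit 120, nat_lit 8, nat_lit 160, nat_lit 0, nat_lit 364, nat_lit 120, nat_lit 156, nat_lit 0, nat_lit 0, nat_lit 0, nat_lit 0⟩
theorem d_V_900_600_20_74 (h : EB TB.env) : Dead b_V_900_600_20_74 := chkB_sound0 h (T :=
(.spl (nat_lit 6) (nat_lit 136)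
(.spl (nat_lit 3) (nat_lit 100)
(.trX (nat_lit 19) (nat_lit 100) (nat_lit 68) (nat_lit 88) (nat_lit 352) (.leaf p117_l55))
(.trZ (nat_lit 3) (nat_lit 100) (nat_lit 69) (nat_lit 45) (nat_lit 16) (.spl (nat_lit 6) (nat_lit 128)
(.spl (nat_lit 1) (nat_lit 260)
(.trX (nat_lit 13) (nat_lit 63) (nat_lit 61) (nat_lit 100) (nat_lit 364) (.leaf p117_l56))
(.trX (nat_lit 19) (nat_lit 100) (nat_lit 69) (nat_lit 96) (nat_lit 352) (.spl (nat_lit 0) (nat_lit 370)
(.leaf p117_l57)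
(.trX (nat_lit 13) (nat_lit 57) (nat_lit 62) (nat_lit 100) (nat_lit 368) (.trZ (nat_lit 3) (nat_lit 100) (nat_lit 61) (nat_lit 55) (nat_lit 20) (.leaf p117_l58))))))
(.leaf p117_l59))))
(.leaf p117_l60))) (by decide +kernel)
noncomputable def p117_l61 : Lf2 := ⟨nat_lit 0, nat_lit 25, [nat_lit 44, nat_lit 5, nat_lit 5, nat_lit 20], false, nat_lit 20, nat_lit 80, nat_lit 0, nat_lit 336, ⟨nat_lit 1000, nat_lit 0, nat_lit 0, nat_lit 0, nat_lit 0, nat_lit 0, nat_lit 0, nat_lit 0, nat_lit 0, nat_lit 0, nat_lit 0, nat_lit 0, nat_lit 0, nat_lit 0, nat_lit 0, nat_lit 0, false, false⟩,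
 nat_lit 0, nat_lit 0, nat_lit 24591, nat_lit 0, nat_lit 3755, nat_lit 13018, nat_lit 341, nat_lit 0, nat_lit 0, nat_lit 272, nat_lit 0, nat_lit 0, nat_lit 0, nat_lit 0, nat_lit 0, nat_lit 0, nat_lit 0, nat_lit 0, [],
 ⟨p117_k19, nat_lit 0, nat_lit 0, nat_lit 152, nat_lit 0, nat_lit 0, [nat_lit 938000000, nat_lit 3282000000, nat_lit 6250000000], [], [nat_lit 26515509513, nat_lit 27238774677, nat_lit 30714372598, nat_lit 31419126485, nat_lit 25030668900, nat_lit 25656363735, nat_lit 29025101630, nat_lit 29582569543], nat_lit 0, nat_lit 0, nat_lit 0, nat_lit 0, nat_lit 0, nat_lit 0, [], [nat_lit 20, nat_lit 40, nat_lit 40, nat_lit 80, nat_lit 16, nat_lit 226, nat_lit 20, nat_lit 7]⟩, ⟨p117_k9, nat_lit 0, nat_lit 0, nat_lit 376, nat_lit 0, nat_lit 144989, [nat_lit 4688000000, nat_lit 7968000000, nat_lit 14058000000], [], [nat_lit 46901990224, nat_lit 47246742932, nat_lit 49647516620, nat_lit 49735973000, nat_lit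 34585412184, nat_lit 34520364192, nat_lit 37285317661, nat_lit 37442832293], nat_lit 1271250, nat_lit 1271250, nat_lit 1271250, nat_lit 1271250, nat_lit 0, nat_lit 2373000, [nat_lit 1100000, nat_lit 1785000, nat_lit 1271250], [nat_lit 37, nat_lit 40, nat_lit 40, nat_lit 80, nat_lit 28, nat_lit 483, nat_lit 250, nat_lit 11]⟩,
 zbF0, []⟩
noncomputable def p117_l62 : Lf2 := ⟨nat_lit 0, nat_lit 25, [nat_lit 44, nat_lit 5, nat_lit 5, nat_lit 20], false, nat_lit 20, nat_lit 80, nat_lit 0, nat_lit 336, ⟨nat_lit 1000, nat_lit 0, nat_lit 0, nat_lit 0, nat_lit 0, nat_lit 0, nat_lit 0, nat_lit 0, nat_lit 0, nat_lit 0, nat_lit 0, nat_lit 0, nat_lit 0, nat_lit 0, nat_lit 0, nat_lit 0, false, false⟩,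
 nat_lit 0, nat_lit 0, nat_lit 12979, nat_lit 0, nat_lit 3755, nat_lit 7554, nat_lit 341, nat_lit 0, nat_lit 0, nat_lit 978, nat_lit 0, nat_lit 0, nat_lit 0, nat_lit 0, nat_lit 0, nat_lit 0, nat_lit 0, nat_lit 0, [],
 ⟨p117_k19, nat_lit 0, nat_lit 0, nat_lit 155, nat_lit 0, nat_lit 0, [nat_lit 938000000, nat_lit 3282000000, nat_lit 6250000000], [], [nat_lit 26515509513, nat_lit 27238774677, nat_lit 31410709875, nat_lit 32092002641, nat_lit 25030668900, nat_lit 25656363735, nat_lit 29583520788, nat_lit 30124589133], nat_lit 0, nat_lit 0, nat_lit 0, nat_lit 0, nat_lit 0, nat_lit 0, [], [nat_lit 20, nat_lit 40, nat_lit 40, nat_lit 80, nat_lit 16, nat_lit 226, nat_lit 20, nat_lit 7]⟩, ⟨p117_k20, nat_lit 0, nat_lit 0, nat_lit 407, nat_lit 0, nat_lit 239607, [nat_lit 4688000000, nat_lit 7968000000, nat_lit 14058000000], [], [nat_lit 33050285796, nat_lit 33434892920, nat_lit 36540226371, nat_lit 37135732364, nat_lit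 29102963741, nat_lit 29378256482, nat_lit 32116493869, nat_lit 32647758820], nat_lit 1271250, nat_lit 1271250, nat_lit 1271250, nat_lit 1271250, nat_lit 0, nat_lit 2373000, [nat_lit 1100000, nat_lit 1785000, nat_lit 1271250], [nat_lit 37, nat_lit 40, nat_lit 40, nat_lit 80, nat_lit 28, nat_lit 483, nat_lit 250, nat_lit 11]⟩,
 zbF0, [⟨nat_lit 19, nat_lit 100, nat_lit 86, nat_lit 89, nat_lit 144991961⟩]⟩
noncomputable def p117_l63 : Lf2 := ⟨nat_lit 1, nat_lit 25, [nat_lit 44, nat_lit 5, nat_lit 5, nat_lit 20], false, nat_lit 20, nat_lit 80, nat_lit 0, nat_lit 336, zbN0,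
 nat_lit 0, nat_lit 0, nat_lit 0, nat_lit 0, nat_lit 0, nat_lit 0, nat_lit 0, nat_lit 0, nat_lit 0, nat_lit 0, nat_lit 0, nat_lit 0, nat_lit 0, nat_lit 0, nat_lit 0, nat_lit 0, nat_lit 0, nat_lit 0, [],
 C1.Rw.none, C1.Rw.none,
 zbF0, []⟩
noncomputable def p117_l64 : Lf2 := ⟨nat_lit 0, nat_lit 25, [nat_lit 44, nat_lit 5, nat_lit 5, nat_lit 20], false, nat_lit 36, nat_lit 80, nat_lit 0, nat_lit 336, ⟨nat_lit 132, nat_lit 827, nat_lit 41, nat_lit 6, nat_lit 260, nat_lit 868, nat_lit 58, nat_lit 41, nat_lit 30817, nat_lit 258, nat_lit 133780, nat_lit 200, nat_lit 45507778, nat_lit 19596969, nat_lit 1895253, nat_lit 3758609, true, false⟩,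
 nat_lit 0, nat_lit 0, nat_lit 2159, nat_lit 0, nat_lit 3088, nat_lit 1142, nat_lit 0, nat_lit 0, nat_lit 0, nat_lit 101, nat_lit 0, nat_lit 0, nat_lit 0, nat_lit 0, nat_lit 0, nat_lit 214745, nat_lit 0, nat_lit 0, [(nat_lit 29, [(nat_lit 0, nat_lit 827), (nat_lit 3, nat_lit 41)])],
 ⟨p117_k12, nat_lit 0, nat_lit 0, nat_lit 120, nat_lit 0, nat_lit 0, [nat_lit 817168801, nat_lit 1265810400, nat_lit 1701010800], [], [nat_lit 25022426452, nat_lit 25714156212, nat_lit 26471913298, nat_lit 27110788916, nat_lit 24371816673, nat_lit 24962563889, nat_lit 25673665289, nat_lit 26234624720], nat_lit 0, nat_lit 0, nat_lit 0, nat_lit 0, nat_lit 0, nat_lit 0, [], [nat_lit 35, nat_lit 40, nat_lit 40, nat_lit 80, nat_lit 22, nat_lit 226, nat_lit 20, nat_lit 9]⟩, ⟨p117_k9, nat_lit 0, nat_lit 0, nat_lit 551, nat_lit 0, nat_lit 483530, [nat_lit 618816000, nat_lit 1051776000, nat_lit 1855656000], [], [nat_lit 5155393448, nat_lit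 5236554544, nat_lit 5236554544, nat_lit 5317907488, nat_lit 4312725018, nat_lit 4334104986, nat_lit 4334104986, nat_lit 4345697334], nat_lit 1271250, nat_lit 1271250, nat_lit 1271250, nat_lit 1271250, nat_lit 0, nat_lit 2373000, [nat_lit 1100000, nat_lit 1785000, nat_lit 1271250], [nat_lit 37, nat_lit 40, nat_lit 40, nat_lit 80, nat_lit 28, nat_lit 456, nat_lit 225, nat_lit 10]⟩,
 ⟨nat_lit 0, nat_lit 1582, ⟨.ofNat (nat_lit 601257), .ofNat (nat_lit 655899), .ofNat (nat_lit 646579), .ofNat (nat_lit 702515), .ofNat (nat_lit 599992), .ofNat (nat_lit 649998), .ofNat (nat_lit 648683), .ofNat (nat_lit 699984)⟩, ⟨.ofNat (nat_lit 90000), .ofNat (nat_lit 196201), .ofNat (nat_lit 90000), .ofNat (nat_lit 200000), .ofNat (nat_lit 90000), .ofNat (nat_lit 199999), .ofNat (nat_lit 90000), .ofNat (nat_lit 200000)⟩⟩, [⟨nat_lit 3, nat_lit 100, nat_lit 27, nat_lit 83, nat_lit 555601342⟩, ⟨nat_lit 22, nat_lit 100, nat_lit 93,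 nat_lit 74, nat_lit 14244028⟩]⟩
noncomputable def p117_l65 : Lf2 := ⟨nat_lit 0, nat_lit 25, [nat_lit 44, nat_lit 5, nat_lit 5, nat_lit 20], false, nat_lit 36, nat_lit 80, nat_lit 0, nat_lit 300, ⟨nat_lit 608, nat_lit 392, nat_lit 0, nat_lit 7, nat_lit 286, nat_lit 392, nat_lit 58, nat_lit 0, nat_lit 0, nat_lit 0, nat_lit 0, nat_lit 0, nat_lit 42895994, nat_lit 22270496, nat_lit 1833510, nat_lit 3892933, true, true⟩,
 nat_lit 0, nat_lit 0, nat_lit 9612, nat_lit 0, nat_lit 3309, nat_lit 5088, nat_lit 113, nat_lit 0, nat_lit 0, nat_lit 498, nat_lit 0, nat_lit 0, nat_lit 0, nat_lit 0, nat_lit 0, nat_lit 98000, nat_lit 0, nat_lit 0, [(nat_lit 29, [(nat_lit 0, nat_lit 392)])],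
 ⟨p117_k12, nat_lit 0, nat_lit 0, nat_lit 129, nat_lit 0, nat_lit 0, [nat_lit 876691200, nat_lit 2405488000, nat_lit 3389852800], [], [nat_lit 27204461930, nat_lit 27503112883, nat_lit 29612506839, nat_lit 29902832072, nat_lit 26443477608, nat_lit 26719383876, nat_lit 28624180294, nat_lit 28880928522], nat_lit 0, nat_lit 0, nat_lit 0, nat_lit 0, nat_lit 0, nat_lit 0, [], [nat_lit 35, nat_lit 40, nat_lit 40, nat_lit 80, nat_lit 22, nat_lit 226, nat_lit 20, nat_lit 8]⟩, ⟨p117_k9, nat_lit 0, nat_lit 0, nat_lit 455, nat_lit 0, nat_lit 380485, [nat_lit 2850304000, nat_lit 4844544000, nat_lit 8547264000], [], [nat_lit 23541030736, nat_lit 23920497872, nat_lit 24556683933, nat_lit 24812440605, nat_lit 19251167504, nat_lit 19367028368, nat_lit 19910409404, nat_lit 20127905231], nat_lit 1271250, nat_lit 1271250, nat_lit 1271250, nat_lit 1271250, nat_lit 0, nat_lit 2118750, [nat_lit 1100000, nat_lit 1785000, nat_lit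 1271250], [nat_lit 37, nat_lit 40, nat_lit 40, nat_lit 80, nat_lit 28, nat_lit 483, nat_lit 250, nat_lit 11]⟩,
 ⟨nat_lit 1118, nat_lit 1582, ⟨.ofNat (nat_lit 655900), .ofNat (nat_lit 732390), .ofNat (nat_lit 702528), .ofNat (nat_lit 779020), .ofNat (nat_lit 653755), .ofNat (nat_lit 728133), .ofNat (nat_lit 701254), .ofNat (nat_lit 775634)⟩, ⟨.ofNat (nat_lit 90000), .ofNat (nat_lit 196201), .ofNat (nat_lit 90000), .ofNat (nat_lit 200000), .ofNat (nat_lit 90000), .ofNat (nat_lit 198112), .ofNat (nat_lit 90000), .ofNat (nat_lit 200000)⟩⟩, [⟨nat_lit 22, nat_lit 86, nat_lit 100, nat_lit 72, nat_lit 51301754⟩]⟩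
noncomputable def p117_l66 : Lf2 := ⟨nat_lit 0, nat_lit 25, [nat_lit 44, nat_lit 5, nat_lit 5, nat_lit 20], false, nat_lit 44, nat_lit 80, nat_lit 0, nat_lit 300, ⟨nat_lit 223, nat_lit 777, nat_lit 0, nat_lit 7, nat_lit 281, nat_lit 777, nat_lit 62, nat_lit 0, nat_lit 0, nat_lit 0, nat_lit 0, nat_lit 0, nat_lit 43296214, nat_lit 21654927, nat_lit 2048859, nat_lit 3922425, true, true⟩,
 nat_lit 0, nat_lit 0, nat_lit 3633, nat_lit 0, nat_lit 2600, nat_lit 1923, nat_lit 84, nat_lit 0, nat_lit 0, nat_lit 176, nat_lit 0, nat_lit 0, nat_lit 0, nat_lit 0, nat_lit 0, nat_lit 194250, nat_lit 0, nat_lit 0, [(nat_lit 29, [(nat_lit 0, nat_lit 777)])],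
 ⟨p117_k21, nat_lit 0, nat_lit 0, nat_lit 123, nat_lit 0, nat_lit 0, [nat_lit 816477201, nat_lit 1544628000, nat_lit 2114886800], [], [nat_lit 25933177942, nat_lit 26195389661, nat_lit 27347235096, nat_lit 27605070142, nat_lit 25595925801, nat_lit 25851488501, nat_lit 26981750001, nat_lit 27218318101], nat_lit 0, nat_lit 0, nat_lit 0, nat_lit 0, nat_lit 0, nat_lit 0, [], [nat_lit 35, nat_lit 40, nat_lit 40, nat_lit 80, nat_lit 22, nat_lit 226, nat_lit 20, nat_lit 8]⟩, ⟨p117_k9, nat_lit 0, nat_lit 0, nat_lit 545, nat_lit 0, nat_lit 483530, [nat_lit 1045424000, nat_lit 1776864000, nat_lit 3134934000], [], [nat_lit 8742092916, nat_lit 8879703632, nat_lit 8990265552, nat_lit 9095145716, nat_lit 7126706598, nat_lit 7180461730, nat_lit 7258170536, nat_lit 7290474394], nat_lit 1271250, nat_lit 1271250, nat_lit 1271250, nat_lit 1271250, nat_lit 0, nat_lit 2118750, [nat_lit 1100000, nat_lit 1785000, nat_lit 1271250],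 [nat_lit 37, nat_lit 40, nat_lit 40, nat_lit 80, nat_lit 28, nat_lit 456, nat_lit 225, nat_lit 10]⟩,
 ⟨nat_lit 0, nat_lit 1119, ⟨.ofNat (nat_lit 653753), .ofNat (nat_lit 706878), .ofNat (nat_lit 701253), .ofNat (nat_lit 754382), .ofNat (nat_lit 649997), .ofNat (nat_lit 699995), .ofNat (nat_lit 699996), .ofNat (nat_lit 749998)⟩, ⟨.ofNat (nat_lit 110000), .ofNat (nat_lit 198112), .ofNat (nat_lit 110000), .ofNat (nat_lit 200000), .ofNat (nat_lit 110000), .ofNat (nat_lit 199999), .ofNat (nat_lit 110000), .ofNat (nat_lit 200000)⟩⟩, [⟨nat_lit 13, nat_lit 17, nat_lit 94, nat_lit 100, nat_lit 509123579⟩, ⟨nat_lit 3, nat_lit 100, nat_lit 19, nat_lit 88, nat_lit 432326758⟩, ⟨nat_lit 22, nat_lit 90, nat_lit 100, nat_lit 75, nat_lit 14989608⟩]⟩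
noncomputable def p117_l67 : Lf2 := ⟨nat_lit 1, nat_lit 25, [nat_lit 44, nat_lit 5, nat_lit 5, nat_lit 20], false, nat_lit 20, nat_lit 80, nat_lit 0, nat_lit 336, zbN0,
 nat_lit 0, nat_lit 0, nat_lit 0, nat_lit 0, nat_lit 0, nat_lit 0, nat_lit 0, nat_lit 0, nat_lit 0, nat_lit 0, nat_lit 0, nat_lit 0, nat_lit 0, nat_lit 0, nat_lit 0, nat_lit 0, nat_lit 0, nat_lit 0, [],
 C1.Rw.none, C1.Rw.none,
 zbF0, []⟩
noncomputable def p117_l68 : Lf2 := ⟨nat_lit 0, nat_lit 30, [nat_lit 15, nat_lit 5, nat_lit 5, nat_lit 20], false, nat_lit 32, nat_lit 80, nat_lit 0, nat_lit 160, ⟨nat_lit 1000, nat_lit 0, nat_lit 0, nat_lit 0, nat_lit 0, nat_lit 0, nat_lit 0, nat_lit 0, nat_lit 0, nat_lit 0, nat_lit 0, nat_lit 0, nat_lit 0, nat_lit 0, nat_lit 0, nat_lit 0, false, false⟩,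
 nat_lit 0, nat_lit 0, nat_lit 11988, nat_lit 0, nat_lit 3131, nat_lit 6346, nat_lit 579, nat_lit 0, nat_lit 0, nat_lit 637, nat_lit 0, nat_lit 0, nat_lit 0, nat_lit 0, nat_lit 0, nat_lit 0, nat_lit 0, nat_lit 0, [],
 ⟨p117_k0, nat_lit 0, nat_lit 0, nat_lit 172, nat_lit 0, nat_lit 0, [nat_lit 938000000, nat_lit 4688000000, nat_lit 7968000000], [], [nat_lit 24143639206, nat_lit 24955478560, nat_lit 29479771286, nat_lit 30102380908, nat_lit 23155189605, nat_lit 23661117220, nat_lit 28105728114, nat_lit 28713061963], nat_lit 0, nat_lit 0, nat_lit 0, nat_lit 0, nat_lit 0, nat_lit 0, [], [nat_lit 57, nat_lit 40, nat_lit 40, nat_lit 80, nat_lit 7, nat_lit 226, nat_lit 20, nat_lit 6]⟩, ⟨p117_k1, nat_lit 0, nat_lit 0, nat_lit 492, nat_lit 0, nat_lit 290756, [nat_lit 4688000000, nat_lit 9842000000, nat_lit 16400000000], [], [nat_lit 41527961327, nat_lit 42427671143, nat_lit 44743824671, nat_lit 45298788089, nat_lit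 37118887415, nat_lit 37744521336, nat_lit 40172060776, nat_lit 40863487400], nat_lit 1271250, nat_lit 1271250, nat_lit 1271250, nat_lit 1271250, nat_lit 0, nat_lit 1100001, [nat_lit 1100000, nat_lit 2127500, nat_lit 1271250], [nat_lit 83, nat_lit 40, nat_lit 40, nat_lit 80, nat_lit 73, nat_lit 428, nat_lit 200, nat_lit 9]⟩,
 zbF0, []⟩
noncomputable def p117_l69 : Lf2 := ⟨nat_lit 0, nat_lit 30, [nat_lit 15, nat_lit 5, nat_lit 5, nat_lit 20], false, nat_lit 32, nat_lit 80, nat_lit 160, nat_lit 336, ⟨nat_lit 484, nat_lit 0, nat_lit 516, nat_lit 6, nat_lit 273, nat_lit 516, nat_lit 56, nat_lit 516, nat_lit 29400, nat_lit 257, nat_lit 264502, nat_lit 200, nat_lit 44264667, nat_lit 0, nat_lit 0, nat_lit 3807606, true, true⟩,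
 nat_lit 0, nat_lit 0, nat_lit 6092, nat_lit 0, nat_lit 2915, nat_lit 3224, nat_lit 212, nat_lit 0, nat_lit 0, nat_lit 344, nat_lit 0, nat_lit 0, nat_lit 0, nat_lit 0, nat_lit 0, nat_lit 129000, nat_lit 0, nat_lit 0, [(nat_lit 29, [(nat_lit 4, nat_lit 516)])],
 ⟨p117_k0, nat_lit 0, nat_lit 0, nat_lit 169, nat_lit 0, nat_lit 0, [nat_lit 846977600, nat_lit 1340398400, nat_lit 2278790400], [], [nat_lit 23750776419, nat_lit 24534473522, nat_lit 28338550104, nat_lit 28961606098, nat_lit 22824120140, nat_lit 23374754740, nat_lit 27115121645, nat_lit 27722530468], nat_lit 0, nat_lit 0, nat_lit 0, nat_lit 0, nat_lit 0, nat_lit 0, [], [nat_lit 57, nat_lit 40, nat_lit 40, nat_lit 80, nat_lit 7, nat_lit 226, nat_lit 20, nat_lit 6]⟩, ⟨p117_k1, nat_lit 0, nat_lit 0, nat_lit 254, nat_lit 0, nat_lit 165475, [nat_lit 2268992000, nat_lit 4763528000, nat_lit 7937600000], [], [nat_lit 13701289480, nat_lit 14005819560, nat_lit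 15524923072, nat_lit 15732677212, nat_lit 15634490975, nat_lit 15810474935, nat_lit 17283470290, nat_lit 17487837740], nat_lit 1271250, nat_lit 1271250, nat_lit 1271250, nat_lit 1271250, nat_lit 1271250, nat_lit 1271250, [nat_lit 1100000, nat_lit 2127500, nat_lit 1271250], [nat_lit 83, nat_lit 40, nat_lit 40, nat_lit 80, nat_lit 73, nat_lit 483, nat_lit 250, nat_lit 10]⟩,
 ⟨nat_lit 1581, nat_lit 2237, ⟨.ofNat (nat_lit 602558), .ofNat (nat_lit 745101), .ofNat (nat_lit 625287), .ofNat (nat_lit 767876), .ofNat (nat_lit 601260), .ofNat (nat_lit 737854), .ofNat (nat_lit 624529), .ofNat (nat_lit 761169)⟩, ⟨.ofNat (nat_lit 80000), .ofNat (nat_lit 200000), .ofNat (nat_lit 80000), .ofNat (nat_lit 200000), .ofNat (nat_lit 80000), .ofNat (nat_lit 200000), .ofNat (nat_lit 80000), .ofNat (nat_lit 200000)⟩⟩, [⟨nat_lit 22, nat_lit 100, nat_lit 76, nat_lit 82, nat_lit 196945613⟩]⟩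
noncomputable def p117_l70 : Lf2 := ⟨nat_lit 0, nat_lit 30, [nat_lit 15, nat_lit 5, nat_lit 5, nat_lit 20], false, nat_lit 32, nat_lit 80, nat_lit 160, nat_lit 336, ⟨nat_lit 1000, nat_lit 0, nat_lit 0, nat_lit 0, nat_lit 0, nat_lit 0, nat_lit 0, nat_lit 0, nat_lit 0, nat_lit 0, nat_lit 0, nat_lit 0, nat_lit 0, nat_lit 0, nat_lit 0, nat_lit 0, false, false⟩,
 nat_lit 0, nat_lit 0, nat_lit 10528, nat_lit 0, nat_lit 3309, nat_lit 6128, nat_lit 556, nat_lit 0, nat_lit 0, nat_lit 648, nat_lit 0, nat_lit 0, nat_lit 0, nat_lit 0, nat_lit 0, nat_lit 0, nat_lit 0, nat_lit 0, [],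
 ⟨p117_k0, nat_lit 0, nat_lit 0, nat_lit 172, nat_lit 0, nat_lit 0, [nat_lit 938000000, nat_lit 4688000000, nat_lit 7968000000], [], [nat_lit 24467387243, nat_lit 25302417897, nat_lit 29904287217, nat_lit 30542433633, nat_lit 23363937970, nat_lit 23883138608, nat_lit 28417011951, nat_lit 29039428310], nat_lit 0, nat_lit 0, nat_lit 0, nat_lit 0, nat_lit 0, nat_lit 0, [], [nat_lit 57, nat_lit 40, nat_lit 40, nat_lit 80, nat_lit 7, nat_lit 226, nat_lit 20, nat_lit 6]⟩, ⟨p117_k5, nat_lit 0, nat_lit 0, nat_lit 255, nat_lit 0, nat_lit 251752, [nat_lit 4688000000, nat_lit 9842000000, nat_lit 14058000000], [], [nat_lit 28253787040, nat_lit 28882713664, nat_lit 32224912650, nat_lit 32650558996, nat_lit 32153379402, nat_lit 32529965594, nat_lit 35321819987, nat_lit 35722796072], nat_lit 1271250, nat_lit 1271250, nat_lit 1271250, nat_lit 1271250, nat_lit 1100001, nat_lit 2607000, [nat_lit 1100000, nat_lit 2127500, nat_lit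 1271250], [nat_lit 56, nat_lit 40, nat_lit 40, nat_lit 80, nat_lit 32, nat_lit 483, nat_lit 250, nat_lit 10]⟩,
 zbF0, [⟨nat_lit 7, nat_lit 78, nat_lit 100, nat_lit 95, nat_lit 334531358⟩, ⟨nat_lit 22, nat_lit 100, nat_lit 76, nat_lit 82, nat_lit 17170690⟩]⟩
noncomputable def p117_l71 : Lf2 := ⟨nat_lit 1, nat_lit 30, [nat_lit 15, nat_lit 5, nat_lit 5, nat_lit 20], false, nat_lit 32, nat_lit 80, nat_lit 0, nat_lit 336, zbN0,
 nat_lit 0, nat_lit 0, nat_lit 0, nat_lit 0, nat_lit 0, nat_lit 0, nat_lit 0, nat_lit 0, nat_lit 0, nat_lit 0, nat_lit 0, nat_lit 0, nat_lit 0, nat_lit 0, nat_lit 0, nat_lit 0, nat_lit 0, nat_lit 0, [],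
 C1.Rw.none, C1.Rw.none,
 zbF0, []⟩
noncomputable def p117_l72 : Lf2 := ⟨nat_lit 0, nat_lit 30, [nat_lit 15, nat_lit 5, nat_lit 5, nat_lit 20], false, nat_lit 48, nat_lit 80, nat_lit 0, nat_lit 336, ⟨nat_lit 175, nat_lit 303, nat_lit 522, nat_lit 6, nat_lit 253, nat_lit 825, nat_lit 64, nat_lit 522, nat_lit 38400, nat_lit 263, nat_lit 63864, nat_lit 200, nat_lit 45973299, nat_lit 18805849, nat_lit 2220852, nat_lit 3797690, true, true⟩,
 nat_lit 0, nat_lit 0, nat_lit 3209, nat_lit 0, nat_lit 2765, nat_lit 1698, nat_lit 0, nat_lit 0, nat_lit 0, nat_lit 106, nat_lit 0, nat_lit 0, nat_lit 0, nat_lit 0, nat_lit 0, nat_lit 206250, nat_lit 0, nat_lit 0, [(nat_lit 29, [(nat_lit 0, nat_lit 303), (nat_lit 4, nat_lit 522)])],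
 ⟨p117_k15, nat_lit 0, nat_lit 0, nat_lit 133, nat_lit 0, nat_lit 0, [nat_lit 798530001, nat_lit 308915601, nat_lit 266345200], [], [nat_lit 24026201636, nat_lit 24640362520, nat_lit 25445323503, nat_lit 26141361328, nat_lit 23645922802, nat_lit 24154661602, nat_lit 24863915857, nat_lit 25399698720], nat_lit 0, nat_lit 0, nat_lit 0, nat_lit 0, nat_lit 0, nat_lit 0, [], [nat_lit 55, nat_lit 40, nat_lit 40, nat_lit 80, nat_lit 3, nat_lit 226, nat_lit 20, nat_lit 7]⟩, ⟨p117_k1, nat_lit 0, nat_lit 0, nat_lit 507, nat_lit 0, nat_lit 330234, [nat_lit 820400000, nat_lit 1722350000, nat_lit 2870000000], [], [nat_lit 7112567926, nat_lit 7151812153, nat_lit 7269544834, nat_lit 7301614854, nat_lit 6542007851, nat_lit 6169150823, nat_lit 5917119535, nat_lit 5924937721], nat_lit 1271250, nat_lit 1271250, nat_lit 1271250, nat_lit 1271250, nat_lit 0, nat_lit 2373000, [nat_lit 1100000, nat_lit 2127500, nat_lit 1271250], [nat_lit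 83, nat_lit 40, nat_lit 40, nat_lit 80, nat_lit 73, nat_lit 456, nat_lit 225, nat_lit 9]⟩,
 ⟨nat_lit 0, nat_lit 1582, ⟨.ofNat (nat_lit 601257), .ofNat (nat_lit 655899), .ofNat (nat_lit 612591), .ofNat (nat_lit 667557), .ofNat (nat_lit 599992), .ofNat (nat_lit 649998), .ofNat (nat_lit 612168), .ofNat (nat_lit 662498)⟩, ⟨.ofNat (nat_lit 120000), .ofNat (nat_lit 200000), .ofNat (nat_lit 120000), .ofNat (nat_lit 200000), .ofNat (nat_lit 120000), .ofNat (nat_lit 200000), .ofNat (nat_lit 120000), .ofNat (nat_lit 200000)⟩⟩, [⟨nat_lit 3, nat_lit 100, nat_lit 25, nat_lit 86, nat_lit 709143994⟩, ⟨nat_lit 22, nat_lit 100, nat_lit 91, nat_lit 77, nat_lit 16472410⟩]⟩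
noncomputable def p117_l73 : Lf2 := ⟨nat_lit 0, nat_lit 30, [nat_lit 15, nat_lit 5, nat_lit 5, nat_lit 20], false, nat_lit 48, nat_lit 80, nat_lit 0, nat_lit 336, ⟨nat_lit 172, nat_lit 309, nat_lit 519, nat_lit 6, nat_lit 258, nat_lit 828, nat_lit 64, nat_lit 519, nat_lit 38400, nat_lit 263, nat_lit 87180, nat_lit 200, nat_lit 45494566, nat_lit 19295397, nat_lit 2210037, nat_lit 3827490, true, true⟩,
 nat_lit 0, nat_lit 0, nat_lit 3012, nat_lit 0, nat_lit 2765, nat_lit 1673, nat_lit 0, nat_lit 0, nat_lit 0, nat_lit 100, nat_lit 0, nat_lit 0, nat_lit 0, nat_lit 0, nat_lit 0, nat_lit 207000, nat_lit 0, nat_lit 0, [(nat_lit 29, [(nat_lit 0, nat_lit 309), (nat_lit 4, nat_lit 519)])],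
 ⟨p117_k15, nat_lit 0, nat_lit 0, nat_lit 133, nat_lit 0, nat_lit 0, [nat_lit 798120801, nat_lit 308446401, nat_lit 266179600], [], [nat_lit 24026036036, nat_lit 24640249736, nat_lit 25445323503, nat_lit 26141361328, nat_lit 23644878802, nat_lit 24153677602, nat_lit 24862931857, nat_lit 25399698720], nat_lit 0, nat_lit 0, nat_lit 0, nat_lit 0, nat_lit 0, nat_lit 0, [], [nat_lit 55, nat_lit 40, nat_lit 40, nat_lit 80, nat_lit 3, nat_lit 226, nat_lit 20, nat_lit 7]⟩, ⟨p117_k22, nat_lit 0, nat_lit 0, nat_lit 458, nat_lit 0, nat_lit 350573, [nat_lit 806336000, nat_lit 1692824000, nat_lit 2417976000], [], [nat_lit 6812208549, nat_lit 6843921834, nat_lit 6932573660, nat_lit 6957798916, nat_lit 5935751817, nat_lit 5568384439, nat_lit 5573132253, nat_lit 5589390118], nat_lit 1271250, nat_lit 1271250, nat_lit 1271250, nat_lit 1271250, nat_lit 0, nat_lit 2373000, [nat_lit 1100000, nat_lit 2127500, nat_lit 1271250],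 [nat_lit 56, nat_lit 40, nat_lit 40, nat_lit 80, nat_lit 32, nat_lit 456, nat_lit 225, nat_lit 10]⟩,
 ⟨nat_lit 0, nat_lit 1582, ⟨.ofNat (nat_lit 612591), .ofNat (nat_lit 667557), .ofNat (nat_lit 623921), .ofNat (nat_lit 679215), .ofNat (nat_lit 612168), .ofNat (nat_lit 662498), .ofNat (nat_lit 624340), .ofNat (nat_lit 674999)⟩, ⟨.ofNat (nat_lit 120000), .ofNat (nat_lit 200000), .ofNat (nat_lit 120000), .ofNat (nat_lit 200000), .ofNat (nat_lit 120000), .ofNat (nat_lit 200000), .ofNat (nat_lit 120000), .ofNat (nat_lit 200000)⟩⟩, [⟨nat_lit 3, nat_lit 100, nat_lit 25, nat_lit 86, nat_lit 713438860⟩, ⟨nat_lit 22, nat_lit 100, nat_lit 91, nat_lit 77, nat_lit 15776922⟩]⟩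
noncomputable def p117_l74 : Lf2 := ⟨nat_lit 0, nat_lit 30, [nat_lit 15, nat_lit 5, nat_lit 5, nat_lit 20], false, nat_lit 48, nat_lit 80, nat_lit 0, nat_lit 160, ⟨nat_lit 1000, nat_lit 0, nat_lit 0, nat_lit 0, nat_lit 0, nat_lit 0, nat_lit 0, nat_lit 0, nat_lit 0, nat_lit 0, nat_lit 0, nat_lit 0, nat_lit 0, nat_lit 0, nat_lit 0, nat_lit 0, false, false⟩,
 nat_lit 0, nat_lit 0, nat_lit 12499, nat_lit 0, nat_lit 3093, nat_lit 7275, nat_lit 403, nat_lit 0, nat_lit 0, nat_lit 737, nat_lit 0, nat_lit 0, nat_lit 0, nat_lit 0, nat_lit 0, nat_lit 0, nat_lit 0, nat_lit 0, [],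
 ⟨p117_k15, nat_lit 0, nat_lit 0, nat_lit 133, nat_lit 0, nat_lit 0, [nat_lit 938000000, nat_lit 4688000000, nat_lit 6250000000], [], [nat_lit 24573672184, nat_lit 25252685564, nat_lit 26057931333, nat_lit 26791285194, nat_lit 24065608575, nat_lit 24595915371, nat_lit 25302270430, nat_lit 25910738464], nat_lit 0, nat_lit 0, nat_lit 0, nat_lit 0, nat_lit 0, nat_lit 0, [], [nat_lit 55, nat_lit 40, nat_lit 40, nat_lit 80, nat_lit 3, nat_lit 226, nat_lit 20, nat_lit 7]⟩, ⟨p117_k5, nat_lit 0, nat_lit 0, nat_lit 487, nat_lit 0, nat_lit 427018, [nat_lit 4688000000, nat_lit 9842000000, nat_lit 14058000000], [], [nat_lit 36049937650, nat_lit 36612891900, nat_lit 37101332050, nat_lit 37594628600, nat_lit 31508529600, nat_lit 31930841100, nat_lit 32298353000, nat_lit 32665864900], nat_lit 1271250, nat_lit 1271250, nat_lit 1271250, nat_lit 1271250, nat_lit 0, nat_lit 1100001, [nat_lit 1100000, nat_lit 2127500, nat_lit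 1271250], [nat_lit 56, nat_lit 40, nat_lit 40, nat_lit 80, nat_lit 32, nat_lit 428, nat_lit 200, nat_lit 10]⟩,
 zbF0, [⟨nat_lit 0, nat_lit 95, nat_lit 22, nat_lit 100, nat_lit 658868606⟩, ⟨nat_lit 3, nat_lit 100, nat_lit 25, nat_lit 86, nat_lit 2150752771⟩]⟩
noncomputable def p117_l75 : Lf2 := ⟨nat_lit 0, nat_lit 30, [nat_lit 15, nat_lit 5, nat_lit 5, nat_lit 20], false, nat_lit 48, nat_lit 80, nat_lit 160, nat_lit 336, ⟨nat_lit 850, nat_lit 0, nat_lit 150, nat_lit 6, nat_lit 265, nat_lit 150, nat_lit 64, nat_lit 150, nat_lit 38400, nat_lit 263, nat_lit 133806, nat_lit 200, nat_lit 44754816, nat_lit 0, nat_lit 0, nat_lit 3870692, true, false⟩,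
 nat_lit 0, nat_lit 0, nat_lit 8953, nat_lit 0, nat_lit 3051, nat_lit 5211, nat_lit 316, nat_lit 0, nat_lit 0, nat_lit 551, nat_lit 0, nat_lit 0, nat_lit 0, nat_lit 0, nat_lit 0, nat_lit 37500, nat_lit 0, nat_lit 0, [(nat_lit 29, [(nat_lit 4, nat_lit 150)])],
 ⟨p117_k15, nat_lit 0, nat_lit 0, nat_lit 131, nat_lit 0, nat_lit 0, [nat_lit 911540000, nat_lit 3717980000, nat_lit 4919200000], [], [nat_lit 24425668643, nat_lit 24777536160, nat_lit 25979487647, nat_lit 26343775441, nat_lit 23869935900, nat_lit 24140215820, nat_lit 25165179010, nat_lit 25487949215], nat_lit 0, nat_lit 0, nat_lit 0, nat_lit 0, nat_lit 0, nat_lit 0, [], [nat_lit 55, nat_lit 40, nat_lit 40, nat_lit 80, nat_lit 3, nat_lit 226, nat_lit 20, nat_lit 7]⟩, ⟨p117_k5, nat_lit 0, nat_lit 0, nat_lit 279, nat_lit 0, nat_lit 339650, [nat_lit 3984800000, nat_lit 8365700000, nat_lit 11949300000], [], [nat_lit 24009468880, nat_lit 24544110868, nat_lit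 25019485252, nat_lit 25494859636, nat_lit 27324130940, nat_lit 27646046624, nat_lit 28029223802, nat_lit 28412400981], nat_lit 1271250, nat_lit 1271250, nat_lit 1271250, nat_lit 1271250, nat_lit 1100001, nat_lit 2607000, [nat_lit 1100000, nat_lit 2127500, nat_lit 1271250], [nat_lit 56, nat_lit 40, nat_lit 40, nat_lit 80, nat_lit 32, nat_lit 456, nat_lit 225, nat_lit 10]⟩,
 ⟨nat_lit 1118, nat_lit 1582, ⟨.ofNat (nat_lit 624546), .ofNat (nat_lit 679215), .ofNat (nat_lit 647829), .ofNat (nat_lit 702528), .ofNat (nat_lit 624345), .ofNat (nat_lit 677505), .ofNat (nat_lit 648063), .ofNat (nat_lit 701254)⟩, ⟨.ofNat (nat_lit 120000), .ofNat (nat_lit 200000), .ofNat (nat_lit 120000), .ofNat (nat_lit 200000), .ofNat (nat_lit 120000), .ofNat (nat_lit 200000), .ofNat (nat_lit 120000), .ofNat (nat_lit 200000)⟩⟩, [⟨nat_lit 19, nat_lit 100, nat_lit 78, nat_lit 95, nat_lit 297083555⟩]⟩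
noncomputable def p117_l76 : Lf2 := ⟨nat_lit 0, nat_lit 30, [nat_lit 15, nat_lit 5, nat_lit 5, nat_lit 20], false, nat_lit 64, nat_lit 80, nat_lit 160, nat_lit 336, ⟨nat_lit 171, nat_lit 829, nat_lit 0, nat_lit 6, nat_lit 265, nat_lit 829, nat_lit 72, nat_lit 0, nat_lit 0, nat_lit 0, nat_lit 0, nat_lit 0, nat_lit 44454516, nat_lit 19934000, nat_lit 2611484, nat_lit 3974240, true, false⟩,
 nat_lit 0, nat_lit 0, nat_lit 2653, nat_lit 0, nat_lit 2509, nat_lit 1544, nat_lit 173, nat_lit 0, nat_lit 0, nat_lit 99, nat_lit 0, nat_lit 0, nat_lit 0, nat_lit 0, nat_lit 0, nat_lit 207250, nat_lit 0, nat_lit 0, [(nat_lit 29, [(nat_lit 0, nat_lit 829)])],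
 ⟨p117_k23, nat_lit 0, nat_lit 0, nat_lit 122, nat_lit 0, nat_lit 0, [nat_lit 808344401, nat_lit 1942683601, nat_lit 2549675600], [], [nat_lit 23708285812, nat_lit 23993877893, nat_lit 24987130152, nat_lit 25317471055, nat_lit 23531825712, nat_lit 23814227550, nat_lit 24790158881, nat_lit 25052883902], nat_lit 0, nat_lit 0, nat_lit 0, nat_lit 0, nat_lit 0, nat_lit 0, [], [nat_lit 55, nat_lit 40, nat_lit 40, nat_lit 80, nat_lit 3, nat_lit 226, nat_lit 20, nat_lit 7]⟩, ⟨p117_k5, nat_lit 0, nat_lit 0, nat_lit 373, nat_lit 0, nat_lit 427018, [nat_lit 801648000, nat_lit 1682982000, nat_lit 2403918000], [], [nat_lit 5120310796, nat_lit 5201106388, nat_lit 5269013694, nat_lit 5336921000, nat_lit 5516386391, nat_lit 5549484922, nat_lit 5573585948, nat_lit 5597686973], nat_lit 1271250, nat_lit 1271250, nat_lit 1271250, nat_lit 1271250, nat_lit 1100001, nat_lit 2607000, [nat_lit 1100000, nat_lit 2127500, nat_lit 1271250],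 [nat_lit 56, nat_lit 40, nat_lit 40, nat_lit 80, nat_lit 32, nat_lit 456, nat_lit 225, nat_lit 10]⟩,
 ⟨nat_lit 0, nat_lit 1119, ⟨.ofNat (nat_lit 623914), .ofNat (nat_lit 677505), .ofNat (nat_lit 647199), .ofNat (nat_lit 701253), .ofNat (nat_lit 624534), .ofNat (nat_lit 674999), .ofNat (nat_lit 649068), .ofNat (nat_lit 699996)⟩, ⟨.ofNat (nat_lit 160000), .ofNat (nat_lit 200000), .ofNat (nat_lit 160000), .ofNat (nat_lit 200000), .ofNat (nat_lit 160000), .ofNat (nat_lit 200000), .ofNat (nat_lit 160000), .ofNat (nat_lit 200000)⟩⟩, [⟨nat_lit 3, nat_lit 100, nat_lit 18, nat_lit 91, nat_lit 553690866⟩, ⟨nat_lit 22, nat_lit 100, nat_lit 88, nat_lit 81, nat_lit 57323578⟩]⟩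
noncomputable def p117_l77 : Lf2 := ⟨nat_lit 0, nat_lit 30, [nat_lit 15, nat_lit 5, nat_lit 5, nat_lit 20], false, nat_lit 48, nat_lit 80, nat_lit 0, nat_lit 300, ⟨nat_lit 872, nat_lit 128, nat_lit 0, nat_lit 7, nat_lit 277, nat_lit 128, nat_lit 64, nat_lit 0, nat_lit 0, nat_lit 0, nat_lit 0, nat_lit 0, nat_lit 43551099, nat_lit 21287420, nat_lit 2161481, nat_lit 3933770, true, true⟩,
 nat_lit 0, nat_lit 0, nat_lit 16448, nat_lit 0, nat_lit 3034, nat_lit 8707, nat_lit 371, nat_lit 0, nat_lit 0, nat_lit 550, nat_lit 0, nat_lit 0, nat_lit 0, nat_lit 0, nat_lit 0, nat_lit 32000, nat_lit 0, nat_lit 0, [(nat_lit 29, [(nat_lit 0, nat_lit 128)])],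
 ⟨p117_k15, nat_lit 0, nat_lit 0, nat_lit 139, nat_lit 0, nat_lit 0, [nat_lit 917980800, nat_lit 4264115200, nat_lit 5678659200], [], [nat_lit 25947736632, nat_lit 26311057394, nat_lit 27789469873, nat_lit 28120081541, nat_lit 25179804918, nat_lit 25462407310, nat_lit 26926758836, nat_lit 27251517190], nat_lit 0, nat_lit 0, nat_lit 0, nat_lit 0, nat_lit 0, nat_lit 0, [], [nat_lit 55, nat_lit 40, nat_lit 40, nat_lit 80, nat_lit 3, nat_lit 226, nat_lit 20, nat_lit 7]⟩, ⟨p117_k1, nat_lit 0, nat_lit 0, nat_lit 479, nat_lit 0, nat_lit 271276, [nat_lit 4087936000, nat_lit 8582224000, nat_lit 14300800000], [], [nat_lit 35745068586, nat_lit 36062818506, nat_lit 36967659602, nat_lit 37463126706, nat_lit 28034118805, nat_lit 28114462842, nat_lit 28890220787, nat_lit 29092483360], nat_lit 1271250, nat_lit 1271250, nat_lit 1271250, nat_lit 1271250, nat_lit 0, nat_lit 2118750, [nat_lit 1100000, nat_lit 2127500, nat_lit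 1271250], [nat_lit 83, nat_lit 40, nat_lit 40, nat_lit 80, nat_lit 73, nat_lit 456, nat_lit 225, nat_lit 9]⟩,
 ⟨nat_lit 1118, nat_lit 1582, ⟨.ofNat (nat_lit 655900), .ofNat (nat_lit 710536), .ofNat (nat_lit 679215), .ofNat (nat_lit 733851), .ofNat (nat_lit 653755), .ofNat (nat_lit 706882), .ofNat (nat_lit 677505), .ofNat (nat_lit 730633)⟩, ⟨.ofNat (nat_lit 120000), .ofNat (nat_lit 200000), .ofNat (nat_lit 120000), .ofNat (nat_lit 200000), .ofNat (nat_lit 120000), .ofNat (nat_lit 200000), .ofNat (nat_lit 120000), .ofNat (nat_lit 200000)⟩⟩, [⟨nat_lit 22, nat_lit 100, nat_lit 95, nat_lit 87, nat_lit 26240992⟩]⟩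
noncomputable def p117_l78 : Lf2 := ⟨nat_lit 0, nat_lit 30, [nat_lit 15, nat_lit 5, nat_lit 5, nat_lit 20], false, nat_lit 64, nat_lit 80, nat_lit 0, nat_lit 300, ⟨nat_lit 245, nat_lit 755, nat_lit 0, nat_lit 7, nat_lit 272, nat_lit 755, nat_lit 72, nat_lit 0, nat_lit 0, nat_lit 0, nat_lit 0, nat_lit 0, nat_lit 43779590, nat_lit 20629748, nat_lit 2590662, nat_lit 4010359, true, true⟩,
 nat_lit 0, nat_lit 0, nat_lit 4629, nat_lit 0, nat_lit 2466, nat_lit 2450, nat_lit 185, nat_lit 0, nat_lit 0, nat_lit 155, nat_lit 0, nat_lit 0, nat_lit 0, nat_lit 0, nat_lit 0, nat_lit 188750, nat_lit 0, nat_lit 0, [(nat_lit 29, [(nat_lit 0, nat_lit 755)])],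
 ⟨p117_k23, nat_lit 0, nat_lit 0, nat_lit 127, nat_lit 0, nat_lit 0, [nat_lit 819918000, nat_lit 2187742001, nat_lit 2879982000], [], [nat_lit 25140492403, nat_lit 25404298000, nat_lit 25991151620, nat_lit 26242939445, nat_lit 24962501858, nat_lit 25223491249, nat_lit 25806436481, nat_lit 26062807596], nat_lit 0, nat_lit 0, nat_lit 0, nat_lit 0, nat_lit 0, nat_lit 0, [], [nat_lit 55, nat_lit 40, nat_lit 40, nat_lit 80, nat_lit 3, nat_lit 226, nat_lit 20, nat_lit 7]⟩, ⟨p117_k1, nat_lit 0, nat_lit 0, nat_lit 517, nat_lit 0, nat_lit 377380, [nat_lit 1148560000, nat_lit 2411290000, nat_lit 4018000000], [], [nat_lit 10033450525, nat_lit 10122699125, nat_lit 10227731018, nat_lit 10318620628, nat_lit 7861875630, nat_lit 7891758088, nat_lit 7988656810, nat_lit 8056427855], nat_lit 1271250, nat_lit 1271250, nat_lit 1271250, nat_lit 1271250, nat_lit 0, nat_lit 2118750, [nat_lit 1100000, nat_lit 2127500, nat_lit 1271250],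 [nat_lit 83, nat_lit 40, nat_lit 40, nat_lit 80, nat_lit 73, nat_lit 456, nat_lit 225, nat_lit 9]⟩,
 ⟨nat_lit 0, nat_lit 1119, ⟨.ofNat (nat_lit 653753), .ofNat (nat_lit 685628), .ofNat (nat_lit 677505), .ofNat (nat_lit 709380), .ofNat (nat_lit 649997), .ofNat (nat_lit 679995), .ofNat (nat_lit 674999), .ofNat (nat_lit 704997)⟩, ⟨.ofNat (nat_lit 160000), .ofNat (nat_lit 200000), .ofNat (nat_lit 160000), .ofNat (nat_lit 200000), .ofNat (nat_lit 160000), .ofNat (nat_lit 200000), .ofNat (nat_lit 160000), .ofNat (nat_lit 200000)⟩⟩, [⟨nat_lit 13, nat_lit 16, nat_lit 95, nat_lit 100, nat_lit 651877474⟩, ⟨nat_lit 3, nat_lit 100, nat_lit 18, nat_lit 91, nat_lit 522561637⟩, ⟨nat_lit 22, nat_lit 96, nat_lit 100, nat_lit 83, nat_lit 8284068⟩]⟩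
noncomputable def p117_l79 : Lf2 := ⟨nat_lit 0, nat_lit 30, [nat_lit 15, nat_lit 5, nat_lit 5, nat_lit 20], false, nat_lit 48, nat_lit 80, nat_lit 0, nat_lit 300, ⟨nat_lit 1000, nat_lit 0, nat_lit 0, nat_lit 0, nat_lit 0, nat_lit 0, nat_lit 0, nat_lit 0, nat_lit 0, nat_lit 0, nat_lit 0, nat_lit 0, nat_lit 0, nat_lit 0, nat_lit 0, nat_lit 0, false, false⟩,
 nat_lit 0, nat_lit 0, nat_lit 13082, nat_lit 0, nat_lit 3077, nat_lit 7614, nat_lit 424, nat_lit 0, nat_lit 0, nat_lit 982, nat_lit 0, nat_lit 0, nat_lit 0, nat_lit 0, nat_lit 0, nat_lit 0, nat_lit 0, nat_lit 0, [],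
 ⟨p117_k24, nat_lit 0, nat_lit 0, nat_lit 137, nat_lit 0, nat_lit 0, [nat_lit 938000000, nat_lit 3282000000, nat_lit 6250000000], [], [nat_lit 26028048024, nat_lit 26393814807, nat_lit 28697700608, nat_lit 29017278549, nat_lit 25243641679, nat_lit 25527013305, nat_lit 27805645053, nat_lit 28119750761], nat_lit 0, nat_lit 0, nat_lit 0, nat_lit 0, nat_lit 0, nat_lit 0, [], [nat_lit 20, nat_lit 40, nat_lit 40, nat_lit 80, nat_lit 16, nat_lit 226, nat_lit 20, nat_lit 7]⟩, ⟨p117_k14, nat_lit 0, nat_lit 0, nat_lit 439, nat_lit 0, nat_lit 339650, [nat_lit 4688000000, nat_lit 7968000000, nat_lit 14058000000], [], [nat_lit 33640844520, nat_lit 33963317320, nat_lit 35533932136, nat_lit 36182143106, nat_lit 28515549511, nat_lit 28795184922, nat_lit 30284112518, nat_lit 30665601592], nat_lit 1271250, nat_lit 1271250, nat_lit 1271250, nat_lit 1271250, nat_lit 0, nat_lit 2118750, [nat_lit 1100000, nat_lit 1785000, nat_lit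 1271250], [nat_lit 37, nat_lit 40, nat_lit 40, nat_lit 80, nat_lit 28, nat_lit 483, nat_lit 250, nat_lit 11]⟩,
 zbF0, [⟨nat_lit 22, nat_lit 100, nat_lit 95, nat_lit 87, nat_lit 108578006⟩]⟩
noncomputable def p117_l80 : Lf2 := ⟨nat_lit 0, nat_lit 30, [nat_lit 15, nat_lit 5, nat_lit 5, nat_lit 20], false, nat_lit 64, nat_lit 80, nat_lit 0, nat_lit 300, ⟨nat_lit 588, nat_lit 412, nat_lit 0, nat_lit 7, nat_lit 286, nat_lit 412, nat_lit 72, nat_lit 0, nat_lit 0, nat_lit 0, nat_lit 0, nat_lit 0, nat_lit 42434972, nat_lit 22018784, nat_lit 2546244, nat_lit 4073895, true, true⟩,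
 nat_lit 0, nat_lit 0, nat_lit 7916, nat_lit 0, nat_lit 2926, nat_lit 4607, nat_lit 239, nat_lit 0, nat_lit 0, nat_lit 507, nat_lit 0, nat_lit 0, nat_lit 0, nat_lit 0, nat_lit 0, nat_lit 103000, nat_lit 0, nat_lit 0, [(nat_lit 29, [(nat_lit 0, nat_lit 412)])],
 ⟨p117_k25, nat_lit 0, nat_lit 0, nat_lit 126, nat_lit 0, nat_lit 0, [nat_lit 873563200, nat_lit 2360768000, nat_lit 4410996800], [], [nat_lit 25937286332, nat_lit 26225713888, nat_lit 27480684923, nat_lit 27803104264, nat_lit 25659939524, nat_lit 25933396171, nat_lit 27133830602, nat_lit 27396364067], nat_lit 0, nat_lit 0, nat_lit 0, nat_lit 0, nat_lit 0, nat_lit 0, [], [nat_lit 20, nat_lit 40, nat_lit 40, nat_lit 80, nat_lit 16, nat_lit 226, nat_lit 20, nat_lit 7]⟩, ⟨p117_k14, nat_lit 0, nat_lit 0, nat_lit 469, nat_lit 0, nat_lit 427018, [nat_lit 2756544000, nat_lit 4685184000, nat_lit 8266104000], [], [nat_lit 21305934564, nat_lit 21493755012, nat_lit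 21909339978, nat_lit 22057278544, nat_lit 17578908507, nat_lit 17662754498, nat_lit 18154494109, nat_lit 18370730343], nat_lit 1271250, nat_lit 1271250, nat_lit 1271250, nat_lit 1271250, nat_lit 0, nat_lit 2118750, [nat_lit 1100000, nat_lit 1785000, nat_lit 1271250], [nat_lit 37, nat_lit 40, nat_lit 40, nat_lit 80, nat_lit 28, nat_lit 456, nat_lit 225, nat_lit 10]⟩,
 ⟨nat_lit 0, nat_lit 1119, ⟨.ofNat (nat_lit 677505), .ofNat (nat_lit 730630), .ofNat (nat_lit 701253), .ofNat (nat_lit 754382), .ofNat (nat_lit 674999), .ofNat (nat_lit 724996), .ofNat (nat_lit 699996), .ofNat (nat_lit 749998)⟩, ⟨.ofNat (nat_lit 160000), .ofNat (nat_lit 200000), .ofNat (nat_lit 160000), .ofNat (nat_lit 200000), .ofNat (nat_lit 160000), .ofNat (nat_lit 200000), .ofNat (nat_lit 160000), .ofNat (nat_lit 200000)⟩⟩, [⟨nat_lit 3, nat_lit 100, nat_lit 18, nat_lit 91, nat_lit 1736244180⟩, ⟨nat_lit 22, nat_lit 100, nat_lit 95, nat_lit 87,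 nat_lit 48561016⟩]⟩
noncomputable def p117_l81 : Lf2 := ⟨nat_lit 1, nat_lit 30, [nat_lit 15, nat_lit 5, nat_lit 5, nat_lit 20], false, nat_lit 32, nat_lit 80, nat_lit 0, nat_lit 336, zbN0,
 nat_lit 0, nat_lit 0, nat_lit 0, nat_lit 0, nat_lit 0, nat_lit 0, nat_lit 0, nat_lit 0, nat_lit 0, nat_lit 0, nat_lit 0, nat_lit 0, nat_lit 0, nat_lit 0, nat_lit 0, nat_lit 0, nat_lit 0, nat_lit 0, [],
 C1.Rw.none, C1.Rw.none,
 zbF0, []⟩
noncomputable def b_V_900_600_20_75 : St := ⟨true, nat_lit 0, nat_lit 1, nat_lit 1, nat_lit 120, nat_lit 380, nat_lit 400, nat_lit 240, nat_lit 280, nat_lit 240, nat_lit 352, nat_lit 80, nat_lit 120, nat_lit 20, nat_lit 80, nat_lit 0, nat_lit 364, nat_lit 120, nat_lit 156, nat_lit 0, nat_lit 0, nat_lit 0, nat_lit 0⟩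
theorem d_V_900_600_20_75 (h : EB TB.env) : Dead b_V_900_600_20_75 := chkB_sound0 h (T :=
(.trX (nat_lit 22) (nat_lit 100) (nat_lit 76) (nat_lit 82) (nat_lit 336) (.spl (nat_lit 3) (nat_lit 100)
(.spl (nat_lit 6) (nat_lit 144)
(.spl (nat_lit 0) (nat_lit 390)
(.spl (nat_lit 6) (nat_lit 136)
(.spl (nat_lit 1) (nat_lit 260)
(.trX (nat_lit 13) (nat_lit 46) (nat_lit 76) (nat_lit 100) (nat_lit 340) (.leaf p117_l61))
(.leaf p117_l62))
(.leaf p117_l63))
(.trX (nat_lit 13) (nat_lit 34) (nat_lit 81) (nat_lit 100) (nat_lit 336) (.trZ (nat_lit 3) (nat_lit 100) (nat_lit 39) (nat_lit 72) (nat_lit 36) (.spl (nat_lit 2) (nat_lit 280)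
(.leaf p117_l64)
(.trX (nat_lit 22) (nat_lit 100) (nat_lit 95) (nat_lit 87) (nat_lit 300) (.spl (nat_lit 0) (nat_lit 395)
(.leaf p117_l65)
(.trX (nat_lit 13) (nat_lit 24) (nat_lit 88) (nat_lit 100) (nat_lit 320) (.trZ (nat_lit 3) (nat_lit 100) (nat_lit 28) (nat_lit 81) (nat_lit 44) (.leaf p117_l66)))))))))
(.leaf p117_l67))
(.trZ (nat_lit 3) (nat_lit 100) (nat_lit 50) (nat_lit 65) (nat_lit 32) (.spl (nat_lit 6) (nat_lit 144)
(.spl (nat_lit 0) (nat_lit 390)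
(.spl (nat_lit 6) (nat_lit 136)
(.spl (nat_lit 5) (nat_lit 160)
(.leaf p117_l68)
(.spl (nat_lit 1) (nat_lit 260)
(.trX (nat_lit 13) (nat_lit 46) (nat_lit 76) (nat_lit 100) (nat_lit 340) (.leaf p117_l69))
(.leaf p117_l70)))
(.leaf p117_l71))
(.trX (nat_lit 13) (nat_lit 34) (nat_lit 81) (nat_lit 100) (nat_lit 336) (.trZ (nat_lit 3) (nat_lit 100) (nat_lit 36) (nat_lit 77) (nat_lit 48) (.spl (nat_lit 2) (nat_lit 280)
(.spl (nat_lit 1) (nat_lit 260)
(.spl (nat_lit 1) (nat_lit 250)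
(.leaf p117_l72)
(.leaf p117_l73))
(.spl (nat_lit 5) (nat_lit 160)
(.leaf p117_l74)
(.spl (nat_lit 0) (nat_lit 395)
(.leaf p117_l75)
(.trZ (nat_lit 3) (nat_lit 100) (nat_lit 26) (nat_lit 85) (nat_lit 64) (.leaf p117_l76)))))
(.trX (nat_lit 22) (nat_lit 100) (nat_lit 95) (nat_lit 87) (nat_lit 300) (.spl (nat_lit 1) (nat_lit 260)
(.trX (nat_lit 13) (nat_lit 33) (nat_lit 85) (nat_lit 100) (nat_lit 320) (.spl (nat_lit 0) (nat_lit 395)
(.leaf p117_l77)
(.trX (nat_lit 13) (nat_lit 23) (nat_lit 91) (nat_lit 100) (nat_lit 304) (.trZ (nat_lit 3) (nat_lit 100) (nat_lit 26) (nat_lit 85) (nat_lit 64) (.leaf p117_l78)))))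
(.spl (nat_lit 0) (nat_lit 395)
(.leaf p117_l79)
(.trX (nat_lit 13) (nat_lit 24) (nat_lit 88) (nat_lit 100) (nat_lit 320) (.trZ (nat_lit 3) (nat_lit 100) (nat_lit 26) (nat_lit 85) (nat_lit 64) (.leaf p117_l80))))))))))
(.leaf p117_l81)))))) (by decide +kernel)
noncomputable def p117_l82 : Lf2 := ⟨nat_lit 0, nat_lit 25, [nat_lit 44, nat_lit 5, nat_lit 5, nat_lit 20], false, nat_lit 80, nat_lit 160, nat_lit 0, nat_lit 352, ⟨nat_lit 126, nat_lit 874, nat_lit 0, nat_lit 6, nat_lit 261, nat_lit 874, nat_lit 103, nat_lit 0, nat_lit 0, nat_lit 0, nat_lit 0, nat_lit 0, nat_lit 43379252, nat_lit 19183349, nat_lit 4437399, nat_lit 4341714, true, false⟩,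
 nat_lit 0, nat_lit 0, nat_lit 2337, nat_lit 0, nat_lit 4355, nat_lit 1237, nat_lit 0, nat_lit 0, nat_lit 0, nat_lit 67, nat_lit 0, nat_lit 0, nat_lit 0, nat_lit 0, nat_lit 0, nat_lit 218500, nat_lit 0, nat_lit 0, [(nat_lit 29, [(nat_lit 0, nat_lit 874)])],
 ⟨p117_k10, nat_lit 0, nat_lit 0, nat_lit 105, nat_lit 0, nat_lit 0, [nat_lit 801306401, nat_lit 1793661600, nat_lit 2348813600], [], [nat_lit 24816283580, nat_lit 25565829910, nat_lit 26329510580, nat_lit 27018697650, nat_lit 24907421460, nat_lit 25584276520, nat_lit 26278268160, nat_lit 26902115240], nat_lit 0, nat_lit 0, nat_lit 0, nat_lit 0, nat_lit 0, nat_lit 0, [], [nat_lit 55, nat_lit 40, nat_lit 40, nat_lit 80, nat_lit 3, nat_lit 249, nat_lit 40, nat_lit 8]⟩, ⟨p117_k11, nat_lit 0, nat_lit 0, nat_lit 430, nat_lit 0, nat_lit 279289, [nat_lit 590688000, nat_lit 1240092000, nat_lit 1771308000], [], [nat_lit 5235653616, nat_lit 5328414172, nat_lit 5328414172,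 nat_lit 5402014564, nat_lit 4880682228, nat_lit 4347849225, nat_lit 4347849225, nat_lit 4370674016], nat_lit 1271250, nat_lit 1271250, nat_lit 1271250, nat_lit 1271250, nat_lit 0, nat_lit 2486000, [nat_lit 1100000, nat_lit 2127500, nat_lit 1271250], [nat_lit 56, nat_lit 40, nat_lit 40, nat_lit 80, nat_lit 32, nat_lit 483, nat_lit 250, nat_lit 11]⟩,
 ⟨nat_lit 1581, nat_lit 2237, ⟨.ofNat (nat_lit 602558), .ofNat (nat_lit 659578), .ofNat (nat_lit 648016), .ofNat (nat_lit 705117), .ofNat (nat_lit 601260), .ofNat (nat_lit 655900), .ofNat (nat_lit 647799), .ofNat (nat_lit 702521)⟩, ⟨.ofNat (nat_lit 192306), .ofNat (nat_lit 306337), .ofNat (nat_lit 200000), .ofNat (nat_lit 329112), .ofNat (nat_lit 196201), .ofNat (nat_lit 305473), .ofNat (nat_lit 200000), .ofNat (nat_lit 328788)⟩⟩, [⟨nat_lit 7, nat_lit 81, nat_lit 100, nat_lit 88, nat_lit 11033053⟩]⟩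
noncomputable def p117_l83 : Lf2 := ⟨nat_lit 0, nat_lit 25, [nat_lit 44, nat_lit 5, nat_lit 5, nat_lit 20], true, nat_lit 80, nat_lit 160, nat_lit 0, nat_lit 352, ⟨nat_lit 0, nat_lit 1000, nat_lit 0, nat_lit 6, nat_lit 260, nat_lit 1000, nat_lit 103, nat_lit 0, nat_lit 0, nat_lit 0, nat_lit 0, nat_lit 0, nat_lit 43468844, nat_lit 19097858, nat_lit 4433298, nat_lit 4335420, true, false⟩,
 nat_lit 0, nat_lit 0, nat_lit 0, nat_lit 3271, nat_lit 2810, nat_lit 0, nat_lit 0, nat_lit 0, nat_lit 0, nat_lit 0, nat_lit 0, nat_lit 0, nat_lit 0, nat_lit 0, nat_lit 0, nat_lit 250000, nat_lit 0, nat_lit 0, [(nat_lit 29, [(nat_lit 0, nat_lit 1000)])],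
 ⟨p117_k26, nat_lit 0, nat_lit 0, nat_lit 90, nat_lit 0, nat_lit 0, [nat_lit 781600001, nat_lit 1376400000], [], [nat_lit 23842944120, nat_lit 24485260520, nat_lit 25238823620, nat_lit 25833449800, nat_lit 24532823782, nat_lit 25091319162, nat_lit 25786351452, nat_lit 26305932802], nat_lit 0, nat_lit 0, nat_lit 0, nat_lit 0, nat_lit 0, nat_lit 0, [], [nat_lit 86, nat_lit 40, nat_lit 40, nat_lit 80, nat_lit 87, nat_lit 249, nat_lit 40, nat_lit 10]⟩, C1.Rw.none,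
 ⟨nat_lit 0, nat_lit 1582, ⟨.ofNat (nat_lit 601257), .ofNat (nat_lit 655899), .ofNat (nat_lit 646579), .ofNat (nat_lit 702515), .ofNat (nat_lit 599992), .ofNat (nat_lit 649998), .ofNat (nat_lit 648683), .ofNat (nat_lit 699984)⟩, ⟨.ofNat (nat_lit 196201), .ofNat (nat_lit 305469), .ofNat (nat_lit 200000), .ofNat (nat_lit 328785), .ofNat (nat_lit 199999), .ofNat (nat_lit 299995), .ofNat (nat_lit 200000), .ofNat (nat_lit 324996)⟩⟩, [⟨nat_lit 16, nat_lit 24, nat_lit 100, nat_lit 89, nat_lit 77588000⟩]⟩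
noncomputable def p117_l84 : Lf2 := ⟨nat_lit 1, nat_lit 25, [nat_lit 44, nat_lit 5, nat_lit 5, nat_lit 20], false, nat_lit 80, nat_lit 160, nat_lit 0, nat_lit 352, zbN0,
 nat_lit 0, nat_lit 0, nat_lit 0, nat_lit 0, nat_lit 0, nat_lit 0, nat_lit 0, nat_lit 0, nat_lit 0, nat_lit 0, nat_lit 0, nat_lit 0, nat_lit 0, nat_lit 0, nat_lit 0, nat_lit 0, nat_lit 0, nat_lit 0, [],
 C1.Rw.none, C1.Rw.none,
 zbF0, []⟩
noncomputable def p117_l85 : Lf2 := ⟨nat_lit 0, nat_lit 30, [nat_lit 15, nat_lit 5, nat_lit 5, nat_lit 20], false, nat_lit 80, nat_lit 160, nat_lit 0, nat_lit 364, ⟨nat_lit 214, nat_lit 33, nat_lit 753, nat_lit 6, nat_lit 257, nat_lit 786, nat_lit 108, nat_lit 753, nat_lit 109350, nat_lit 296, nat_lit 93454, nat_lit 200, nat_lit 43519637, nat_lit 18687603, nat_lit 4792760, nat_lit 4380223, true, true⟩,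
 nat_lit 0, nat_lit 0, nat_lit 4576, nat_lit 2980, nat_lit 3419, nat_lit 2422, nat_lit 0, nat_lit 0, nat_lit 0, nat_lit 155, nat_lit 0, nat_lit 0, nat_lit 0, nat_lit 0, nat_lit 8, nat_lit 155085, nat_lit 0, nat_lit 0, [(nat_lit 29, [(nat_lit 0, nat_lit 33), (nat_lit 3, nat_lit 753)])],
 ⟨p117_k0, nat_lit 0, nat_lit 0, nat_lit 122, nat_lit 0, nat_lit 0, [nat_lit 1121161600, nat_lit 152383601, nat_lit 204489600], [], [nat_lit 23674534722, nat_lit 23983240924, nat_lit 24992887714, nat_lit 25285244781, nat_lit 24022323378, nat_lit 24297178348, nat_lit 25214910138, nat_lit 25476530880], nat_lit 0, nat_lit 0, nat_lit 0, nat_lit 0, nat_lit 0, nat_lit 0, [], [nat_lit 57, nat_lit 40, nat_lit 40, nat_lit 80, nat_lit 7, nat_lit 249, nat_lit 40, nat_lit 7]⟩, ⟨p117_k1, nat_lit 0, nat_lit 0, nat_lit 413, nat_lit 0, nat_lit 74110, [nat_lit 1003232000, nat_lit 2106188000, nat_lit 3509600000], [], [nat_lit 8171338721, nat_lit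 8356883221, nat_lit 8542427721, nat_lit 8698228965, nat_lit 8320050059, nat_lit 7265589974, nat_lit 6957917121, nat_lit 6987003288], nat_lit 1271250, nat_lit 1271250, nat_lit 1271250, nat_lit 1271250, nat_lit 0, nat_lit 2570750, [nat_lit 1100000, nat_lit 2127500, nat_lit 1271250], [nat_lit 83, nat_lit 40, nat_lit 40, nat_lit 80, nat_lit 73, nat_lit 483, nat_lit 250, nat_lit 10]⟩,
 ⟨nat_lit 1936, nat_lit 2237, ⟨.ofNat (nat_lit 602562), .ofNat (nat_lit 659578), .ofNat (nat_lit 625327), .ofNat (nat_lit 682352), .ofNat (nat_lit 601908), .ofNat (nat_lit 657798), .ofNat (nat_lit 624911), .ofNat (nat_lit 680809)⟩, ⟨.ofNat (nat_lit 200000), .ofNat (nat_lit 329112), .ofNat (nat_lit 200000), .ofNat (nat_lit 351886), .ofNat (nat_lit 200000), .ofNat (nat_lit 329055), .ofNat (nat_lit 200000), .ofNat (nat_lit 352066)⟩⟩, [⟨nat_lit 7, nat_lit 68, nat_lit 100, nat_lit 92, nat_lit 20076331⟩]⟩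
noncomputable def p117_l86 : Lf2 := ⟨nat_lit 0, nat_lit 30, [nat_lit 15, nat_lit 5, nat_lit 5, nat_lit 20], false, nat_lit 80, nat_lit 160, nat_lit 0, nat_lit 364, ⟨nat_lit 164, nat_lit 361, nat_lit 475, nat_lit 6, nat_lit 256, nat_lit 836, nat_lit 108, nat_lit 475, nat_lit 109350, nat_lit 296, nat_lit 90368, nat_lit 200, nat_lit 43560730, nat_lit 18644400, nat_lit 4794870, nat_lit 4377771, true, true⟩,
 nat_lit 0, nat_lit 0, nat_lit 3365, nat_lit 0, nat_lit 3180, nat_lit 1781, nat_lit 0, nat_lit 0, nat_lit 0, nat_lit 118, nat_lit 0, nat_lit 0, nat_lit 0, nat_lit 0, nat_lit 0, nat_lit 182875, nat_lit 0, nat_lit 0, [(nat_lit 29, [(nat_lit 0, nat_lit 361), (nat_lit 3, nat_lit 475)])],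
 ⟨p117_k16, nat_lit 0, nat_lit 0, nat_lit 105, nat_lit 0, nat_lit 0, [nat_lit 980149601, nat_lit 623322400, nat_lit 718940400], [], [nat_lit 23647429720, nat_lit 23967303360, nat_lit 25021796640, nat_lit 25317725200, nat_lit 24140936841, nat_lit 24425427041, nat_lit 25386541121, nat_lit 25650696961], nat_lit 0, nat_lit 0, nat_lit 0, nat_lit 0, nat_lit 0, nat_lit 0, [], [nat_lit 55, nat_lit 40, nat_lit 40, nat_lit 80, nat_lit 3, nat_lit 249, nat_lit 40, nat_lit 8]⟩, ⟨p117_k1, nat_lit 0, nat_lit 0, nat_lit 446, nat_lit 0, nat_lit 163918, [nat_lit 768832000, nat_lit 1614088000, nat_lit 2689600000], [], [nat_lit 6265540414, nat_lit 6344941526, nat_lit 6484885950, nat_lit 6602840928, nat_lit 6423195438, nat_lit 5647805920, nat_lit 5367331354, nat_lit 5397938671], nat_lit 1271250, nat_lit 1271250, nat_lit 1271250, nat_lit 1271250, nat_lit 0, nat_lit 2570750, [nat_lit 1100000, nat_lit 2127500, nat_lit 1271250], [nat_lit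 83, nat_lit 40, nat_lit 40, nat_lit 80, nat_lit 73, nat_lit 483, nat_lit 250, nat_lit 10]⟩,
 ⟨nat_lit 1581, nat_lit 1937, ⟨.ofNat (nat_lit 601908), .ofNat (nat_lit 657798), .ofNat (nat_lit 624905), .ofNat (nat_lit 680809), .ofNat (nat_lit 601263), .ofNat (nat_lit 655900), .ofNat (nat_lit 624564), .ofNat (nat_lit 679215)⟩, ⟨.ofNat (nat_lit 200000), .ofNat (nat_lit 329055), .ofNat (nat_lit 200000), .ofNat (nat_lit 352066), .ofNat (nat_lit 200000), .ofNat (nat_lit 328788), .ofNat (nat_lit 200000), .ofNat (nat_lit 352103)⟩⟩, [⟨nat_lit 7, nat_lit 68, nat_lit 100, nat_lit 92, nat_lit 16811684⟩]⟩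
noncomputable def p117_l87 : Lf2 := ⟨nat_lit 1, nat_lit 30, [nat_lit 15, nat_lit 5, nat_lit 5, nat_lit 20], false, nat_lit 80, nat_lit 160, nat_lit 0, nat_lit 364, zbN0,
 nat_lit 0, nat_lit 0, nat_lit 0, nat_lit 0, nat_lit 0, nat_lit 0, nat_lit 0, nat_lit 0, nat_lit 0, nat_lit 0, nat_lit 0, nat_lit 0, nat_lit 0, nat_lit 0, nat_lit 0, nat_lit 0, nat_lit 0, nat_lit 0, [],
 C1.Rw.none, C1.Rw.none,
 zbF0, []⟩
noncomputable def p117_l88 : Lf2 := ⟨nat_lit 0, nat_lit 30, [nat_lit 15, nat_lit 5, nat_lit 5, nat_lit 20], false, nat_lit 80, nat_lit 120, nat_lit 0, nat_lit 364, ⟨nat_lit 93, nat_lit 335, nat_lit 572, nat_lit 6, nat_lit 253, nat_lit 907, nat_lit 97, nat_lit 572, nat_lit 88817, nat_lit 288, nat_lit 63864, nat_lit 200, nat_lit 44410682, nat_lit 18462333, nat_lit 4126985, nat_lit 4229966, true, true⟩,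
 nat_lit 0, nat_lit 0, nat_lit 1927, nat_lit 1703, nat_lit 2423, nat_lit 1020, nat_lit 0, nat_lit 0, nat_lit 0, nat_lit 68, nat_lit 0, nat_lit 0, nat_lit 0, nat_lit 0, nat_lit 17, nat_lit 226750, nat_lit 0, nat_lit 0, [(nat_lit 29, [(nat_lit 0, nat_lit 335), (nat_lit 4, nat_lit 572)])],
 ⟨p117_k15, nat_lit 0, nat_lit 0, nat_lit 110, nat_lit 0, nat_lit 0, [nat_lit 852705201, nat_lit 151604401, nat_lit 19910000], [], [nat_lit 23078334357, nat_lit 23635315129, nat_lit 24348848152, nat_lit 24867355673, nat_lit 23456130601, nat_lit 23989217257, nat_lit 24678703080, nat_lit 25176134207], nat_lit 0, nat_lit 0, nat_lit 0, nat_lit 0, nat_lit 0, nat_lit 0, [], [nat_lit 55, nat_lit 40, nat_lit 40, nat_lit 80, nat_lit 3, nat_lit 238, nat_lit 30, nat_lit 7]⟩, ⟨p117_k1, nat_lit 0, nat_lit 0, nat_lit 507, nat_lit 0, nat_lit 330234, [nat_lit 435984000, nat_lit 915306000, nat_lit 1525200000], [], [nat_lit 3530179644, nat_lit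 3551011503, nat_lit 3668854788, nat_lit 3702395880, nat_lit 3636126780, nat_lit 3414089355, nat_lit 3024514037, nat_lit 3033170052], nat_lit 1271250, nat_lit 1271250, nat_lit 1271250, nat_lit 1271250, nat_lit 0, nat_lit 2570750, [nat_lit 1100000, nat_lit 2127500, nat_lit 1271250], [nat_lit 83, nat_lit 40, nat_lit 40, nat_lit 80, nat_lit 73, nat_lit 456, nat_lit 225, nat_lit 9]⟩,
 ⟨nat_lit 0, nat_lit 1582, ⟨.ofNat (nat_lit 601257), .ofNat (nat_lit 655899), .ofNat (nat_lit 612591), .ofNat (nat_lit 667557), .ofNat (nat_lit 599992), .ofNat (nat_lit 649998), .ofNat (nat_lit 612168), .ofNat (nat_lit 662498)⟩, ⟨.ofNat (nat_lit 200000), .ofNat (nat_lit 274152), .ofNat (nat_lit 200000), .ofNat (nat_lit 297467), .ofNat (nat_lit 200000), .ofNat (nat_lit 274999), .ofNat (nat_lit 200000), .ofNat (nat_lit 299999)⟩⟩, [⟨nat_lit 13, nat_lit 23, nat_lit 92, nat_lit 100, nat_lit 206203293⟩, ⟨nat_lit 22, nat_lit 100, nat_lit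 77, nat_lit 91, nat_lit 9827883⟩]⟩
noncomputable def p117_l89 : Lf2 := ⟨nat_lit 0, nat_lit 30, [nat_lit 15, nat_lit 5, nat_lit 5, nat_lit 20], false, nat_lit 80, nat_lit 120, nat_lit 0, nat_lit 360, ⟨nat_lit 151, nat_lit 318, nat_lit 531, nat_lit 6, nat_lit 257, nat_lit 849, nat_lit 97, nat_lit 530, nat_lit 88817, nat_lit 288, nat_lit 75522, nat_lit 200, nat_lit 44073840, nat_lit 18815561, nat_lit 4110599, nat_lit 4250269, true, true⟩,
 nat_lit 0, nat_lit 0, nat_lit 2572, nat_lit 11, nat_lit 2662, nat_lit 1428, nat_lit 0, nat_lit 0, nat_lit 0, nat_lit 85, nat_lit 0, nat_lit 0, nat_lit 0, nat_lit 0, nat_lit 0, nat_lit 212250, nat_lit 0, nat_lit 0, [(nat_lit 29, [(nat_lit 0, nat_lit 318), (nat_lit 4, nat_lit 531)])],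
 ⟨p117_k15, nat_lit 0, nat_lit 0, nat_lit 110, nat_lit 0, nat_lit 0, [nat_lit 794596400, nat_lit 201040401, nat_lit 119543200], [], [nat_lit 23406918064, nat_lit 23985639232, nat_lit 24698264294, nat_lit 25239219776, nat_lit 23743684700, nat_lit 24297079664, nat_lit 24984667229, nat_lit 25499586972], nat_lit 0, nat_lit 0, nat_lit 0, nat_lit 0, nat_lit 0, nat_lit 0, [], [nat_lit 55, nat_lit 40, nat_lit 40, nat_lit 80, nat_lit 3, nat_lit 238, nat_lit 30, nat_lit 7]⟩, ⟨p117_k22, nat_lit 0, nat_lit 0, nat_lit 448, nat_lit 0, nat_lit 327896, [nat_lit 707888000, nat_lit 1486142000, nat_lit 2122758000], [], [nat_lit 6066785241, nat_lit 6080780185, nat_lit 6173181425, nat_lit 6184394687, nat_lit 5577489259, nat_lit 5421869032, nat_lit 5124228798, nat_lit 5132264930], nat_lit 1271250, nat_lit 1271250, nat_lit 1271250, nat_lit 1271250, nat_lit 0, nat_lit 2542500, [nat_lit 1100000, nat_lit 2127500, nat_lit 1271250],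 [nat_lit 56, nat_lit 40, nat_lit 40, nat_lit 80, nat_lit 32, nat_lit 456, nat_lit 225, nat_lit 10]⟩,
 ⟨nat_lit 0, nat_lit 1582, ⟨.ofNat (nat_lit 612591), .ofNat (nat_lit 667557), .ofNat (nat_lit 618256), .ofNat (nat_lit 673386), .ofNat (nat_lit 612168), .ofNat (nat_lit 662498), .ofNat (nat_lit 618254), .ofNat (nat_lit 668749)⟩, ⟨.ofNat (nat_lit 200000), .ofNat (nat_lit 274152), .ofNat (nat_lit 200000), .ofNat (nat_lit 297467), .ofNat (nat_lit 200000), .ofNat (nat_lit 274999), .ofNat (nat_lit 200000), .ofNat (nat_lit 299999)⟩⟩, [⟨nat_lit 13, nat_lit 23, nat_lit 91, nat_lit 100, nat_lit 152400345⟩, ⟨nat_lit 22, nat_lit 100, nat_lit 77, nat_lit 91, nat_lit 16274406⟩]⟩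
noncomputable def p117_l90 : Lf2 := ⟨nat_lit 0, nat_lit 30, [nat_lit 15, nat_lit 5, nat_lit 5, nat_lit 20], false, nat_lit 80, nat_lit 120, nat_lit 0, nat_lit 356, ⟨nat_lit 152, nat_lit 318, nat_lit 530, nat_lit 6, nat_lit 259, nat_lit 848, nat_lit 97, nat_lit 530, nat_lit 88817, nat_lit 288, nat_lit 87180, nat_lit 200, nat_lit 43849806, nat_lit 19050716, nat_lit 4099478, nat_lit 4263332, true, true⟩,
 nat_lit 0, nat_lit 0, nat_lit 2456, nat_lit 0, nat_lit 2662, nat_lit 1396, nat_lit 0, nat_lit 0, nat_lit 0, nat_lit 86, nat_lit 0, nat_lit 0, nat_lit 0, nat_lit 0, nat_lit 0, nat_lit 212000, nat_lit 0, nat_lit 0, [(nat_lit 29, [(nat_lit 0, nat_lit 318), (nat_lit 4, nat_lit 530)])],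
 ⟨p117_k15, nat_lit 0, nat_lit 0, nat_lit 110, nat_lit 0, nat_lit 0, [nat_lit 794772801, nat_lit 207507200, nat_lit 128415200], [], [nat_lit 23415966465, nat_lit 23994687633, nat_lit 24707312695, nat_lit 25245113969, nat_lit 23752733101, nat_lit 24306128065, nat_lit 24993715630, nat_lit 25508635373], nat_lit 0, nat_lit 0, nat_lit 0, nat_lit 0, nat_lit 0, nat_lit 0, [], [nat_lit 55, nat_lit 40, nat_lit 40, nat_lit 80, nat_lit 3, nat_lit 238, nat_lit 30, nat_lit 7]⟩, ⟨p117_k27, nat_lit 0, nat_lit 0, nat_lit 452, nat_lit 0, nat_lit 338277, [nat_lit 712576000, nat_lit 1495984000, nat_lit 2136816000], [], [nat_lit 5777907390, nat_lit 5800213056, nat_lit 5946055098, nat_lit 5964928224, nat_lit 5391842640, nat_lit 5239520019, nat_lit 5123120847, nat_lit 5127002177], nat_lit 1271250, nat_lit 1271250, nat_lit 1271250, nat_lit 1271250, nat_lit 0, nat_lit 2514250, [nat_lit 1100000, nat_lit 2127500, nat_lit 1271250],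 [nat_lit 56, nat_lit 40, nat_lit 40, nat_lit 80, nat_lit 32, nat_lit 456, nat_lit 225, nat_lit 10]⟩,
 ⟨nat_lit 0, nat_lit 1582, ⟨.ofNat (nat_lit 618256), .ofNat (nat_lit 673386), .ofNat (nat_lit 623921), .ofNat (nat_lit 679215), .ofNat (nat_lit 618254), .ofNat (nat_lit 668749), .ofNat (nat_lit 624340), .ofNat (nat_lit 674999)⟩, ⟨.ofNat (nat_lit 200000), .ofNat (nat_lit 274152), .ofNat (nat_lit 200000), .ofNat (nat_lit 297467), .ofNat (nat_lit 200000), .ofNat (nat_lit 274999), .ofNat (nat_lit 200000), .ofNat (nat_lit 299999)⟩⟩, [⟨nat_lit 22, nat_lit 100, nat_lit 77, nat_lit 91, nat_lit 19401286⟩]⟩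
noncomputable def p117_l91 : Lf2 := ⟨nat_lit 0, nat_lit 30, [nat_lit 15, nat_lit 5, nat_lit 5, nat_lit 20], true, nat_lit 120, nat_lit 160, nat_lit 0, nat_lit 364, ⟨nat_lit 0, nat_lit 1000, nat_lit 0, nat_lit 6, nat_lit 256, nat_lit 1000, nat_lit 125, nat_lit 0, nat_lit 0, nat_lit 0, nat_lit 0, nat_lit 0, nat_lit 42690768, nat_lit 18362969, nat_lit 5946263, nat_lit 4570758, true, true⟩,
 nat_lit 0, nat_lit 0, nat_lit 0, nat_lit 3542, nat_lit 3218, nat_lit 0, nat_lit 0, nat_lit 0, nat_lit 0, nat_lit 0, nat_lit 0, nat_lit 0, nat_lit 0, nat_lit 0, nat_lit 0, nat_lit 250000, nat_lit 0, nat_lit 0, [(nat_lit 29, [(nat_lit 0, nat_lit 1000)])],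
 ⟨p117_k15, nat_lit 0, nat_lit 0, nat_lit 80, nat_lit 0, nat_lit 0, [nat_lit 781600001, nat_lit 1376400001, nat_lit 1786400000], [], [nat_lit 24099106296, nat_lit 24425258513, nat_lit 25494031922, nat_lit 25843885573, nat_lit 24343823255, nat_lit 24654112528, nat_lit 25662792087, nat_lit 25950106640], nat_lit 0, nat_lit 0, nat_lit 0, nat_lit 0, nat_lit 0, nat_lit 0, [], [nat_lit 55, nat_lit 40, nat_lit 40, nat_lit 80, nat_lit 3, nat_lit 249, nat_lit 40, nat_lit 8]⟩, C1.Rw.none,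
 ⟨nat_lit 1118, nat_lit 1582, ⟨.ofNat (nat_lit 601263), .ofNat (nat_lit 655900), .ofNat (nat_lit 624546), .ofNat (nat_lit 679215), .ofNat (nat_lit 600626), .ofNat (nat_lit 653755), .ofNat (nat_lit 624345), .ofNat (nat_lit 677505)⟩, ⟨.ofNat (nat_lit 274152), .ofNat (nat_lit 328788), .ofNat (nat_lit 297467), .ofNat (nat_lit 352103), .ofNat (nat_lit 274990), .ofNat (nat_lit 328117), .ofNat (nat_lit 298741), .ofNat (nat_lit 351868)⟩⟩, []⟩
noncomputable def p117_l92 : Lf2 := ⟨nat_lit 0, nat_lit 30, [nat_lit 15, nat_lit 5, nat_lit 5, nat_lit 20], true, nat_lit 120, nat_lit 160, nat_lit 0, nat_lit 364, ⟨nat_lit 0, nat_lit 664, nat_lit 336, nat_lit 6, nat_lit 255, nat_lit 1000, nat_lit 125, nat_lit 336, nat_lit 147267, nat_lit 309, nat_lit 83760, nat_lit 200, nat_lit 42749848, nat_lit 18308378, nat_lit 5941774, nat_lit 4566330, true, true⟩,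
 nat_lit 0, nat_lit 0, nat_lit 0, nat_lit 3373, nat_lit 2991, nat_lit 0, nat_lit 0, nat_lit 0, nat_lit 0, nat_lit 0, nat_lit 0, nat_lit 0, nat_lit 0, nat_lit 0, nat_lit 0, nat_lit 231520, nat_lit 0, nat_lit 0, [(nat_lit 29, [(nat_lit 0, nat_lit 664), (nat_lit 3, nat_lit 336)])],
 ⟨p117_k23, nat_lit 0, nat_lit 0, nat_lit 87, nat_lit 0, nat_lit 0, [nat_lit 903904001, nat_lit 459523201, nat_lit 513497600], [], [nat_lit 24320214293, nat_lit 24617269902, nat_lit 25578807657, nat_lit 25890951188, nat_lit 24581296539, nat_lit 24858323129, nat_lit 25774435286, nat_lit 26031973669], nat_lit 0, nat_lit 0, nat_lit 0, nat_lit 0, nat_lit 0, nat_lit 0, [], [nat_lit 55, nat_lit 40, nat_lit 40, nat_lit 80, nat_lit 3, nat_lit 249, nat_lit 40, nat_lit 8]⟩, C1.Rw.none,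
 ⟨nat_lit 0, nat_lit 1119, ⟨.ofNat (nat_lit 600626), .ofNat (nat_lit 653753), .ofNat (nat_lit 623914), .ofNat (nat_lit 677505), .ofNat (nat_lit 599998), .ofNat (nat_lit 649997), .ofNat (nat_lit 624534), .ofNat (nat_lit 674999)⟩, ⟨.ofNat (nat_lit 274990), .ofNat (nat_lit 328114), .ofNat (nat_lit 298741), .ofNat (nat_lit 351866), .ofNat (nat_lit 274999), .ofNat (nat_lit 324996), .ofNat (nat_lit 299999), .ofNat (nat_lit 349997)⟩⟩, [⟨nat_lit 4, nat_lit 100, nat_lit 17, nat_lit 94, nat_lit 228110067⟩]⟩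
noncomputable def p117_l93 : Lf2 := ⟨nat_lit 0, nat_lit 30, [nat_lit 15, nat_lit 5, nat_lit 5, nat_lit 20], false, nat_lit 80, nat_lit 160, nat_lit 0, nat_lit 160, ⟨nat_lit 1000, nat_lit 0, nat_lit 0, nat_lit 0, nat_lit 0, nat_lit 0, nat_lit 0, nat_lit 0, nat_lit 0, nat_lit 0, nat_lit 0, nat_lit 0, nat_lit 0, nat_lit 0, nat_lit 0, nat_lit 0, false, false⟩,
 nat_lit 0, nat_lit 0, nat_lit 12301, nat_lit 0, nat_lit 9751, nat_lit 7160, nat_lit 0, nat_lit 0, nat_lit 0, nat_lit 760, nat_lit 0, nat_lit 0, nat_lit 0, nat_lit 0, nat_lit 0, nat_lit 0, nat_lit 0, nat_lit 0, [],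
 ⟨p117_k0, nat_lit 0, nat_lit 0, nat_lit 124, nat_lit 0, nat_lit 0, [nat_lit 938000000, nat_lit 4688000000, nat_lit 7968000000], [], [nat_lit 31002151338, nat_lit 32367974112, nat_lit 33365192716, nat_lit 34824707382, nat_lit 29021231356, nat_lit 30044984364, nat_lit 30930415464, nat_lit 32230995576], nat_lit 0, nat_lit 0, nat_lit 0, nat_lit 0, nat_lit 0, nat_lit 0, [], [nat_lit 57, nat_lit 40, nat_lit 40, nat_lit 80, nat_lit 7, nat_lit 249, nat_lit 40, nat_lit 7]⟩, ⟨p117_k5, nat_lit 0, nat_lit 0, nat_lit 417, nat_lit 0, nat_lit 251752, [nat_lit 4688000000, nat_lit 9842000000, nat_lit 14058000000], [], [nat_lit 35760486560, nat_lit 36321992960, nat_lit 36888878000, nat_lit 37575683040, nat_lit 31106979360, nat_lit 31633574560, nat_lit 32095454800, nat_lit 32557335040], nat_lit 1271250, nat_lit 1271250, nat_lit 1271250, nat_lit 1271250, nat_lit 0, nat_lit 1100001, [nat_lit 1100000, nat_lit 2127500, nat_lit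 1271250], [nat_lit 56, nat_lit 40, nat_lit 40, nat_lit 80, nat_lit 32, nat_lit 428, nat_lit 200, nat_lit 10]⟩,
 zbF0, []⟩
noncomputable def p117_l94 : Lf2 := ⟨nat_lit 0, nat_lit 30, [nat_lit 15, nat_lit 5, nat_lit 5, nat_lit 20], false, nat_lit 80, nat_lit 160, nat_lit 160, nat_lit 352, ⟨nat_lit 1000, nat_lit 0, nat_lit 0, nat_lit 0, nat_lit 0, nat_lit 0, nat_lit 0, nat_lit 0, nat_lit 0, nat_lit 0, nat_lit 0, nat_lit 0, nat_lit 0, nat_lit 0, nat_lit 0, nat_lit 0, false, false⟩,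
 nat_lit 0, nat_lit 0, nat_lit 12194, nat_lit 0, nat_lit 9914, nat_lit 7098, nat_lit 0, nat_lit 0, nat_lit 0, nat_lit 694, nat_lit 0, nat_lit 0, nat_lit 0, nat_lit 0, nat_lit 0, nat_lit 0, nat_lit 0, nat_lit 0, [],
 ⟨p117_k0, nat_lit 0, nat_lit 0, nat_lit 122, nat_lit 0, nat_lit 0, [nat_lit 938000000, nat_lit 4688000000, nat_lit 7968000000], [], [nat_lit 30985987932, nat_lit 31762680420, nat_lit 33582914424, nat_lit 34321731786, nat_lit 28945657384, nat_lit 29463484040, nat_lit 31079636096, nat_lit 31737840780], nat_lit 0, nat_lit 0, nat_lit 0, nat_lit 0, nat_lit 0, nat_lit 0, [], [nat_lit 57, nat_lit 40, nat_lit 40, nat_lit 80, nat_lit 7, nat_lit 249, nat_lit 40, nat_lit 7]⟩, ⟨p117_k5, nat_lit 0, nat_lit 0, nat_lit 203, nat_lit 0, nat_lit 168631, [nat_lit 4688000000, nat_lit 9842000000, nat_lit 14058000000], [], [nat_lit 26293349044, nat_lit 27075019768, nat_lit 27762928248, nat_lit 28450836728, nat_lit 31759926679,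 nat_lit 32167101460, nat_lit 32674216277, nat_lit 33181331095], nat_lit 1271250, nat_lit 1271250, nat_lit 1271250, nat_lit 1271250, nat_lit 1100001, nat_lit 2744000, [nat_lit 1100000, nat_lit 2127500, nat_lit 1271250], [nat_lit 56, nat_lit 40, nat_lit 40, nat_lit 80, nat_lit 32, nat_lit 483, nat_lit 250, nat_lit 10]⟩,
 zbF0, [⟨nat_lit 19, nat_lit 100, nat_lit 78, nat_lit 95, nat_lit 378821498⟩]⟩
noncomputable def p117_l95 : Lf2 := ⟨nat_lit 0, nat_lit 30, [nat_lit 15, nat_lit 5, nat_lit 5, nat_lit 20], false, nat_lit 80, nat_lit 160, nat_lit 160, nat_lit 352, ⟨nat_lit 781, nat_lit 219, nat_lit 0, nat_lit 6, nat_lit 266, nat_lit 219, nat_lit 108, nat_lit 0, nat_lit 0, nat_lit 0, nat_lit 0, nat_lit 0, nat_lit 42712586, nat_lit 19544935, nat_lit 4742479, nat_lit 4424960, true, false⟩,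
 nat_lit 0, nat_lit 0, nat_lit 8109, nat_lit 0, nat_lit 6941, nat_lit 4719, nat_lit 0, nat_lit 0, nat_lit 0, nat_lit 495, nat_lit 0, nat_lit 0, nat_lit 0, nat_lit 0, nat_lit 0, nat_lit 54750, nat_lit 0, nat_lit 0, [(nat_lit 29, [(nat_lit 0, nat_lit 219)])],
 ⟨p117_k16, nat_lit 0, nat_lit 0, nat_lit 105, nat_lit 0, nat_lit 0, [nat_lit 903748400, nat_lit 3962759600, nat_lit 5272471600], [], [nat_lit 28033705980, nat_lit 28666889392, nat_lit 30185399859, nat_lit 30758968962, nat_lit 27058866538, nat_lit 27502249464, nat_lit 28871809320, nat_lit 29385657016], nat_lit 0, nat_lit 0, nat_lit 0, nat_lit 0, nat_lit 0, nat_lit 0, [], [nat_lit 55, nat_lit 40, nat_lit 40, nat_lit 80, nat_lit 3, nat_lit 249, nat_lit 40, nat_lit 8]⟩, ⟨p117_k5, nat_lit 0, nat_lit 0, nat_lit 240, nat_lit 0, nat_lit 251752, [nat_lit 3661328000, nat_lit 7686602000, nat_lit 10979298000], [], [nat_lit 22322523344, nat_lit 22812060392, nat_lit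 23247759392, nat_lit 23683458392, nat_lit 25843160517, nat_lit 26113715831, nat_lit 26440311467, nat_lit 26769236904], nat_lit 1271250, nat_lit 1271250, nat_lit 1271250, nat_lit 1271250, nat_lit 1100001, nat_lit 2744000, [nat_lit 1100000, nat_lit 2127500, nat_lit 1271250], [nat_lit 56, nat_lit 40, nat_lit 40, nat_lit 80, nat_lit 32, nat_lit 483, nat_lit 250, nat_lit 10]⟩,
 ⟨nat_lit 1581, nat_lit 1937, ⟨.ofNat (nat_lit 624905), .ofNat (nat_lit 680809), .ofNat (nat_lit 647901), .ofNat (nat_lit 703818), .ofNat (nat_lit 624564), .ofNat (nat_lit 679215), .ofNat (nat_lit 647865), .ofNat (nat_lit 702528)⟩, ⟨.ofNat (nat_lit 200000), .ofNat (nat_lit 329055), .ofNat (nat_lit 200000), .ofNat (nat_lit 352066), .ofNat (nat_lit 200000), .ofNat (nat_lit 328788), .ofNat (nat_lit 200000), .ofNat (nat_lit 352103)⟩⟩, [⟨nat_lit 4, nat_lit 100, nat_lit 35, nat_lit 90, nat_lit 121608536⟩, ⟨nat_lit 19, nat_lit 100, nat_lit 78, nat_lit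 95, nat_lit 281497472⟩]⟩
noncomputable def p117_l96 : Lf2 := ⟨nat_lit 1, nat_lit 30, [nat_lit 15, nat_lit 5, nat_lit 5, nat_lit 20], false, nat_lit 80, nat_lit 160, nat_lit 0, nat_lit 352, zbN0,
 nat_lit 0, nat_lit 0, nat_lit 0, nat_lit 0, nat_lit 0, nat_lit 0, nat_lit 0, nat_lit 0, nat_lit 0, nat_lit 0, nat_lit 0, nat_lit 0, nat_lit 0, nat_lit 0, nat_lit 0, nat_lit 0, nat_lit 0, nat_lit 0, [],
 C1.Rw.none, C1.Rw.none,
 zbF0, []⟩
noncomputable def p117_l97 : Lf2 := ⟨nat_lit 0, nat_lit 30, [nat_lit 15, nat_lit 5, nat_lit 5, nat_lit 20], false, nat_lit 80, nat_lit 160, nat_lit 0, nat_lit 160, ⟨nat_lit 1000, nat_lit 0, nat_lit 0, nat_lit 0, nat_lit 0, nat_lit 0, nat_lit 0, nat_lit 0, nat_lit 0, nat_lit 0, nat_lit 0, nat_lit 0, nat_lit 0, nat_lit 0, nat_lit 0, nat_lit 0, false, false⟩,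
 nat_lit 0, nat_lit 0, nat_lit 11752, nat_lit 0, nat_lit 3092, nat_lit 6840, nat_lit 401, nat_lit 0, nat_lit 0, nat_lit 608, nat_lit 0, nat_lit 0, nat_lit 0, nat_lit 0, nat_lit 0, nat_lit 0, nat_lit 0, nat_lit 0, [],
 ⟨p117_k15, nat_lit 0, nat_lit 0, nat_lit 110, nat_lit 0, nat_lit 0, [nat_lit 938000000, nat_lit 4688000000, nat_lit 6250000000], [], [nat_lit 23986960624, nat_lit 24618484656, nat_lit 25329709920, nat_lit 25914277648, nat_lit 24475331776, nat_lit 25037361936, nat_lit 25696025456, nat_lit 26229067888], nat_lit 0, nat_lit 0, nat_lit 0, nat_lit 0, nat_lit 0, nat_lit 0, [], [nat_lit 55, nat_lit 40, nat_lit 40, nat_lit 80, nat_lit 3, nat_lit 249, nat_lit 40, nat_lit 8]⟩, ⟨p117_k5, nat_lit 0, nat_lit 0, nat_lit 487, nat_lit 0, nat_lit 427018, [nat_lit 4688000000, nat_lit 9842000000, nat_lit 14058000000], [], [nat_lit 38343557440, nat_lit 38901035040, nat_lit 39387602080, nat_lit 39874169120, nat_lit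 33913605840, nat_lit 34217621760, nat_lit 34586892800, nat_lit 34956163840], nat_lit 1271250, nat_lit 1271250, nat_lit 1271250, nat_lit 1271250, nat_lit 0, nat_lit 1100001, [nat_lit 1100000, nat_lit 2127500, nat_lit 1271250], [nat_lit 56, nat_lit 40, nat_lit 40, nat_lit 80, nat_lit 32, nat_lit 428, nat_lit 200, nat_lit 10]⟩,
 zbF0, [⟨nat_lit 0, nat_lit 95, nat_lit 22, nat_lit 100, nat_lit 679314000⟩, ⟨nat_lit 4, nat_lit 100, nat_lit 23, nat_lit 92, nat_lit 908148216⟩]⟩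
noncomputable def p117_l98 : Lf2 := ⟨nat_lit 0, nat_lit 30, [nat_lit 15, nat_lit 5, nat_lit 5, nat_lit 20], false, nat_lit 80, nat_lit 120, nat_lit 160, nat_lit 352, ⟨nat_lit 206, nat_lit 229, nat_lit 565, nat_lit 6, nat_lit 263, nat_lit 794, nat_lit 97, nat_lit 565, nat_lit 88817, nat_lit 288, nat_lit 110496, nat_lit 200, nat_lit 43514579, nat_lit 19402911, nat_lit 4082510, nat_lit 4282228, true, false⟩,
 nat_lit 0, nat_lit 0, nat_lit 2110, nat_lit 0, nat_lit 2724, nat_lit 1228, nat_lit 0, nat_lit 0, nat_lit 0, nat_lit 127, nat_lit 0, nat_lit 0, nat_lit 0, nat_lit 0, nat_lit 0, nat_lit 198500, nat_lit 0, nat_lit 0, [(nat_lit 29, [(nat_lit 0, nat_lit 229), (nat_lit 4, nat_lit 565)])],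
 ⟨p117_k15, nat_lit 0, nat_lit 0, nat_lit 110, nat_lit 0, nat_lit 0, [nat_lit 802518401, nat_lit 275901601, nat_lit 215155600], [], [nat_lit 23479078729, nat_lit 24072819632, nat_lit 24786347840, nat_lit 25340432656, nat_lit 23805201701, nat_lit 24363864929, nat_lit 25050960059, nat_lit 25570553145], nat_lit 0, nat_lit 0, nat_lit 0, nat_lit 0, nat_lit 0, nat_lit 0, [], [nat_lit 55, nat_lit 40, nat_lit 40, nat_lit 80, nat_lit 3, nat_lit 238, nat_lit 30, nat_lit 7]⟩, ⟨p117_k5, nat_lit 0, nat_lit 0, nat_lit 293, nat_lit 0, nat_lit 370491, [nat_lit 965728000, nat_lit 2027452000, nat_lit 2895948000], [], [nat_lit 5962360164, nat_lit 6026715024, nat_lit 6205728780, nat_lit 6263058228, nat_lit 6890277415, nat_lit 6926053635, nat_lit 7024124681, nat_lit 7055272094], nat_lit 1271250, nat_lit 1271250, nat_lit 1271250, nat_lit 1271250, nat_lit 1100001, nat_lit 2744000, [nat_lit 1100000, nat_lit 2127500, nat_lit 1271250],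 [nat_lit 56, nat_lit 40, nat_lit 40, nat_lit 80, nat_lit 32, nat_lit 483, nat_lit 250, nat_lit 10]⟩,
 ⟨nat_lit 0, nat_lit 1582, ⟨.ofNat (nat_lit 623921), .ofNat (nat_lit 679215), .ofNat (nat_lit 635250), .ofNat (nat_lit 690873), .ofNat (nat_lit 624340), .ofNat (nat_lit 674999), .ofNat (nat_lit 636512), .ofNat (nat_lit 687499)⟩, ⟨.ofNat (nat_lit 200000), .ofNat (nat_lit 274152), .ofNat (nat_lit 200000), .ofNat (nat_lit 297467), .ofNat (nat_lit 200000), .ofNat (nat_lit 274999), .ofNat (nat_lit 200000), .ofNat (nat_lit 299999)⟩⟩, [⟨nat_lit 19, nat_lit 100, nat_lit 76, nat_lit 94, nat_lit 42315165⟩, ⟨nat_lit 22, nat_lit 100, nat_lit 77, nat_lit 91, nat_lit 31448741⟩]⟩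
noncomputable def p117_l99 : Lf2 := ⟨nat_lit 0, nat_lit 30, [nat_lit 15, nat_lit 5, nat_lit 5, nat_lit 20], false, nat_lit 120, nat_lit 160, nat_lit 160, nat_lit 352, ⟨nat_lit 329, nat_lit 74, nat_lit 597, nat_lit 6, nat_lit 263, nat_lit 671, nat_lit 125, nat_lit 597, nat_lit 147267, nat_lit 309, nat_lit 110496, nat_lit 200, nat_lit 42104274, nat_lit 19010739, nat_lit 5884987, nat_lit 4602070, true, false⟩,
 nat_lit 0, nat_lit 0, nat_lit 3372, nat_lit 0, nat_lit 3308, nat_lit 1962, nat_lit 0, nat_lit 0, nat_lit 0, nat_lit 203, nat_lit 0, nat_lit 0, nat_lit 0, nat_lit 0, nat_lit 0, nat_lit 134915, nat_lit 0, nat_lit 0, [(nat_lit 29, [(nat_lit 0, nat_lit 74), (nat_lit 3, nat_lit 597)])],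
 ⟨p117_k15, nat_lit 0, nat_lit 0, nat_lit 87, nat_lit 0, nat_lit 0, [nat_lit 1050363601, nat_lit 836822801, nat_lit 993249600], [], [nat_lit 24437042204, nat_lit 25058830376, nat_lit 25741644512, nat_lit 26317160432, nat_lit 24661230625, nat_lit 25240320465, nat_lit 25895062977, nat_lit 26432337985], nat_lit 0, nat_lit 0, nat_lit 0, nat_lit 0, nat_lit 0, nat_lit 0, [], [nat_lit 55, nat_lit 40, nat_lit 40, nat_lit 80, nat_lit 3, nat_lit 249, nat_lit 40, nat_lit 8]⟩, ⟨p117_k5, nat_lit 0, nat_lit 0, nat_lit 293, nat_lit 0, nat_lit 370491, [nat_lit 1542352000, nat_lit 3238018000, nat_lit 4625082000], [], [nat_lit 9518891676, nat_lit 9621681606, nat_lit 9907604040, nat_lit 9999170292, nat_lit 11000889224, nat_lit 11058022567, nat_lit 11214632932, nat_lit 11266015043], nat_lit 1271250, nat_lit 1271250, nat_lit 1271250, nat_lit 1271250, nat_lit 1100001, nat_lit 2744000, [nat_lit 1100000, nat_lit 2127500, nat_lit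 1271250], [nat_lit 56, nat_lit 40, nat_lit 40, nat_lit 80, nat_lit 32, nat_lit 483, nat_lit 250, nat_lit 10]⟩,
 ⟨nat_lit 0, nat_lit 1582, ⟨.ofNat (nat_lit 623921), .ofNat (nat_lit 679215), .ofNat (nat_lit 635250), .ofNat (nat_lit 690873), .ofNat (nat_lit 624340), .ofNat (nat_lit 674999), .ofNat (nat_lit 636512), .ofNat (nat_lit 687499)⟩, ⟨.ofNat (nat_lit 274152), .ofNat (nat_lit 328785), .ofNat (nat_lit 297467), .ofNat (nat_lit 352101), .ofNat (nat_lit 274999), .ofNat (nat_lit 324996), .ofNat (nat_lit 299999), .ofNat (nat_lit 349997)⟩⟩, [⟨nat_lit 4, nat_lit 100, nat_lit 23, nat_lit 92, nat_lit 387582370⟩, ⟨nat_lit 19, nat_lit 100, nat_lit 76, nat_lit 94, nat_lit 116285631⟩]⟩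
noncomputable def p117_l100 : Lf2 := ⟨nat_lit 0, nat_lit 30, [nat_lit 15, nat_lit 5, nat_lit 5, nat_lit 20], false, nat_lit 80, nat_lit 160, nat_lit 160, nat_lit 344, ⟨nat_lit 517, nat_lit 0, nat_lit 483, nat_lit 6, nat_lit 268, nat_lit 483, nat_lit 108, nat_lit 483, nat_lit 109350, nat_lit 296, nat_lit 133806, nat_lit 200, nat_lit 42529883, nat_lit 0, nat_lit 0, nat_lit 4433941, true, false⟩,
 nat_lit 0, nat_lit 0, nat_lit 5169, nat_lit 0, nat_lit 4236, nat_lit 3147, nat_lit 0, nat_lit 0, nat_lit 0, nat_lit 337, nat_lit 0, nat_lit 0, nat_lit 0, nat_lit 0, nat_lit 0, nat_lit 94185, nat_lit 0, nat_lit 0, [(nat_lit 29, [(nat_lit 3, nat_lit 483)])],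
 ⟨p117_k15, nat_lit 0, nat_lit 0, nat_lit 108, nat_lit 0, nat_lit 0, [nat_lit 1038270800, nat_lit 1770486801, nat_lit 2264284000], [], [nat_lit 25484474992, nat_lit 25853688120, nat_lit 26926967360, nat_lit 27268370240, nat_lit 25546025544, nat_lit 25879623340, nat_lit 26855883648, nat_lit 27163529376], nat_lit 0, nat_lit 0, nat_lit 0, nat_lit 0, nat_lit 0, nat_lit 0, [], [nat_lit 55, nat_lit 40, nat_lit 40, nat_lit 80, nat_lit 3, nat_lit 249, nat_lit 40, nat_lit 8]⟩, ⟨p117_k28, nat_lit 0, nat_lit 0, nat_lit 268, nat_lit 0, nat_lit 314486, [nat_lit 2423696000, nat_lit 5088314000, nat_lit 7267986000], [], [nat_lit 14477894427, nat_lit 14640210351, nat_lit 15073387875, nat_lit 15217780383, nat_lit 16582182041, nat_lit 16675980362, nat_lit 16964096864, nat_lit 17065805205], nat_lit 1271250, nat_lit 1271250, nat_lit 1271250, nat_lit 1271250, nat_lit 1100001, nat_lit 2675500, [nat_lit 1100000, nat_lit 2127500,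 nat_lit 1271250], [nat_lit 56, nat_lit 40, nat_lit 40, nat_lit 80, nat_lit 32, nat_lit 483, nat_lit 250, nat_lit 10]⟩,
 ⟨nat_lit 1118, nat_lit 1582, ⟨.ofNat (nat_lit 636188), .ofNat (nat_lit 690873), .ofNat (nat_lit 647829), .ofNat (nat_lit 702528), .ofNat (nat_lit 636205), .ofNat (nat_lit 689381), .ofNat (nat_lit 648063), .ofNat (nat_lit 701254)⟩, ⟨.ofNat (nat_lit 200000), .ofNat (nat_lit 328788), .ofNat (nat_lit 200000), .ofNat (nat_lit 352103), .ofNat (nat_lit 200000), .ofNat (nat_lit 328117), .ofNat (nat_lit 200000), .ofNat (nat_lit 351868)⟩⟩, [⟨nat_lit 4, nat_lit 100, nat_lit 28, nat_lit 91, nat_lit 252192612⟩, ⟨nat_lit 7, nat_lit 81, nat_lit 100, nat_lit 96, nat_lit 176270430⟩]⟩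
noncomputable def p117_l101 : Lf2 := ⟨nat_lit 0, nat_lit 30, [nat_lit 15, nat_lit 5, nat_lit 5, nat_lit 20], false, nat_lit 80, nat_lit 160, nat_lit 160, nat_lit 344, ⟨nat_lit 457, nat_lit 543, nat_lit 0, nat_lit 6, nat_lit 267, nat_lit 543, nat_lit 108, nat_lit 0, nat_lit 0, nat_lit 0, nat_lit 0, nat_lit 0, nat_lit 42569792, nat_lit 19720367, nat_lit 4709841, nat_lit 4429215, true, false⟩,
 nat_lit 0, nat_lit 0, nat_lit 4570, nat_lit 0, nat_lit 2908, nat_lit 2783, nat_lit 217, nat_lit 0, nat_lit 0, nat_lit 298, nat_lit 0, nat_lit 0, nat_lit 0, nat_lit 0, nat_lit 0, nat_lit 135750, nat_lit 0, nat_lit 0, [(nat_lit 29, [(nat_lit 0, nat_lit 543)])],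
 ⟨p117_k23, nat_lit 0, nat_lit 0, nat_lit 110, nat_lit 0, nat_lit 0, [nat_lit 853074801, nat_lit 2889801200, nat_lit 3826265200], [], [nat_lit 24028940185, nat_lit 24336105169, nat_lit 25333145041, nat_lit 25622499584, nat_lit 24550345770, nat_lit 24824094690, nat_lit 25745055153, nat_lit 26004961937], nat_lit 0, nat_lit 0, nat_lit 0, nat_lit 0, nat_lit 0, nat_lit 0, [], [nat_lit 55, nat_lit 40, nat_lit 40, nat_lit 80, nat_lit 3, nat_lit 249, nat_lit 40, nat_lit 8]⟩, ⟨p117_k28, nat_lit 0, nat_lit 0, nat_lit 304, nat_lit 0, nat_lit 395383, [nat_lit 2142416000, nat_lit 4497794000, nat_lit 6424506000], [], [nat_lit 12794130206, nat_lit 12937623794, nat_lit 13320558134, nat_lit 13448202914, nat_lit 14654213547, nat_lit 14738530124, nat_lit 14993190845, nat_lit 15082686717], nat_lit 1271250, nat_lit 1271250, nat_lit 1271250, nat_lit 1271250, nat_lit 1100001, nat_lit 2675500, [nat_lit 1100000, nat_lit 2127500, nat_lit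 1271250], [nat_lit 56, nat_lit 40, nat_lit 40, nat_lit 80, nat_lit 32, nat_lit 483, nat_lit 250, nat_lit 10]⟩,
 ⟨nat_lit 0, nat_lit 1119, ⟨.ofNat (nat_lit 635556), .ofNat (nat_lit 689381), .ofNat (nat_lit 647199), .ofNat (nat_lit 701253), .ofNat (nat_lit 636801), .ofNat (nat_lit 687499), .ofNat (nat_lit 649068), .ofNat (nat_lit 699996)⟩, ⟨.ofNat (nat_lit 200000), .ofNat (nat_lit 328114), .ofNat (nat_lit 200000), .ofNat (nat_lit 351866), .ofNat (nat_lit 200000), .ofNat (nat_lit 324996), .ofNat (nat_lit 200000), .ofNat (nat_lit 349997)⟩⟩, [⟨nat_lit 0, nat_lit 95, nat_lit 16, nat_lit 100, nat_lit 129407020⟩, ⟨nat_lit 4, nat_lit 100, nat_lit 17, nat_lit 94, nat_lit 560441679⟩, ⟨nat_lit 7, nat_lit 81, nat_lit 100, nat_lit 96, nat_lit 155843333⟩]⟩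
noncomputable def p117_l102 : Lf2 := ⟨nat_lit 0, nat_lit 30, [nat_lit 15, nat_lit 5, nat_lit 5, nat_lit 20], false, nat_lit 80, nat_lit 160, nat_lit 160, nat_lit 352, ⟨nat_lit 1000, nat_lit 0, nat_lit 0, nat_lit 0, nat_lit 0, nat_lit 0, nat_lit 0, nat_lit 0, nat_lit 0, nat_lit 0, nat_lit 0, nat_lit 0, nat_lit 0, nat_lit 0, nat_lit 0, nat_lit 0, false, false⟩,
 nat_lit 0, nat_lit 0, nat_lit 30545, nat_lit 0, nat_lit 6993, nat_lit 17779, nat_lit 0, nat_lit 0, nat_lit 0, nat_lit 0, nat_lit 0, nat_lit 0, nat_lit 0, nat_lit 0, nat_lit 0, nat_lit 0, nat_lit 0, nat_lit 0, [],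
 ⟨p117_k15, nat_lit 0, nat_lit 0, nat_lit 110, nat_lit 0, nat_lit 0, [nat_lit 938000000, nat_lit 4688000000, nat_lit 6250000000], [], [nat_lit 29396639746, nat_lit 30392696624, nat_lit 31079509430, nat_lit 31987212592, nat_lit 28459555272, nat_lit 29350542068, nat_lit 29954308824, nat_lit 30767817552], nat_lit 0, nat_lit 0, nat_lit 0, nat_lit 0, nat_lit 0, nat_lit 0, [], [nat_lit 55, nat_lit 40, nat_lit 40, nat_lit 80, nat_lit 3, nat_lit 249, nat_lit 40, nat_lit 8]⟩, ⟨p117_k5, nat_lit 0, nat_lit 0, nat_lit 182, nat_lit 0, nat_lit 115169, [nat_lit 4688000000, nat_lit 9842000000, nat_lit 14058000000], [], [nat_lit 29351988962, nat_lit 30534603064, nat_lit 31508335104, nat_lit 32482067144, nat_lit 36178501424, nat_lit 36525888905, nat_lit 36742011058, nat_lit 36958133211], nat_lit 1271250, nat_lit 1271250, nat_lit 1271250, nat_lit 1271250, nat_lit 1100001, nat_lit 2744000, [nat_lit 1100000, nat_lit 2127500, nat_lit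 1271250], [nat_lit 56, nat_lit 40, nat_lit 40, nat_lit 80, nat_lit 32, nat_lit 483, nat_lit 250, nat_lit 10]⟩,
 zbF0, [⟨nat_lit 0, nat_lit 95, nat_lit 22, nat_lit 100, nat_lit 824181451⟩, ⟨nat_lit 16, nat_lit 23, nat_lit 100, nat_lit 92, nat_lit 476672507⟩, ⟨nat_lit 19, nat_lit 100, nat_lit 78, nat_lit 95, nat_lit 367225705⟩]⟩
noncomputable def p117_l103 : Lf2 := ⟨nat_lit 1, nat_lit 30, [nat_lit 15, nat_lit 5, nat_lit 5, nat_lit 20], false, nat_lit 80, nat_lit 160, nat_lit 0, nat_lit 364, zbN0,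
 nat_lit 0, nat_lit 0, nat_lit 0, nat_lit 0, nat_lit 0, nat_lit 0, nat_lit 0, nat_lit 0, nat_lit 0, nat_lit 0, nat_lit 0, nat_lit 0, nat_lit 0, nat_lit 0, nat_lit 0, nat_lit 0, nat_lit 0, nat_lit 0, [],
 C1.Rw.none, C1.Rw.none,
 zbF0, []⟩
noncomputable def b_V_900_600_20_76 : St := ⟨true, nat_lit 0, nat_lit 1, nat_lit 1, nat_lit 120, nat_lit 380, nat_lit 400, nat_lit 240, nat_lit 280, nat_lit 240, nat_lit 280, nat_lit 80, nat_lit 120, nat_lit 80, nat_lit 160, nat_lit 0, nat_lit 364, nat_lit 120, nat_lit 156, nat_lit 0, nat_lit 0, nat_lit 0, nat_lit 0⟩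
theorem d_V_900_600_20_76 (h : EB TB.env) : Dead b_V_900_600_20_76 := chkB_sound0 h (T :=
(.spl (nat_lit 3) (nat_lit 100)
(.trX (nat_lit 19) (nat_lit 100) (nat_lit 68) (nat_lit 88) (nat_lit 352) (.spl (nat_lit 6) (nat_lit 144)
(.spl (nat_lit 0) (nat_lit 390)
(.leaf p117_l82)
(.leaf p117_l83))
(.leaf p117_l84)))
(.spl (nat_lit 6) (nat_lit 144)
(.spl (nat_lit 1) (nat_lit 260)
(.spl (nat_lit 0) (nat_lit 390)
(.spl (nat_lit 6) (nat_lit 128)
(.spl (nat_lit 0) (nat_lit 385)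
(.leaf p117_l85)
(.leaf p117_l86))
(.leaf p117_l87))
(.spl (nat_lit 4) (nat_lit 120)
(.spl (nat_lit 1) (nat_lit 250)
(.leaf p117_l88)
(.trX (nat_lit 19) (nat_lit 100) (nat_lit 64) (nat_lit 95) (nat_lit 360) (.spl (nat_lit 1) (nat_lit 255)
(.leaf p117_l89)
(.trX (nat_lit 19) (nat_lit 100) (nat_lit 66) (nat_lit 95) (nat_lit 356) (.leaf p117_l90)))))
(.spl (nat_lit 0) (nat_lit 395)
(.leaf p117_l91)
(.leaf p117_l92))))
(.trX (nat_lit 19) (nat_lit 100) (nat_lit 69) (nat_lit 96) (nat_lit 352) (.spl (nat_lit 0) (nat_lit 390)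
(.spl (nat_lit 6) (nat_lit 136)
(.spl (nat_lit 5) (nat_lit 160)
(.leaf p117_l93)
(.spl (nat_lit 0) (nat_lit 385)
(.leaf p117_l94)
(.leaf p117_l95)))
(.leaf p117_l96))
(.spl (nat_lit 5) (nat_lit 160)
(.leaf p117_l97)
(.spl (nat_lit 6) (nat_lit 136)
(.spl (nat_lit 1) (nat_lit 270)
(.spl (nat_lit 4) (nat_lit 120)
(.leaf p117_l98)
(.leaf p117_l99))
(.trX (nat_lit 19) (nat_lit 100) (nat_lit 74) (nat_lit 98) (nat_lit 344) (.spl (nat_lit 0) (nat_lit 395)
(.leaf p117_l100)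
(.leaf p117_l101))))
(.leaf p117_l102))))))
(.leaf p117_l103)))) (by decide +kernel)
noncomputable def p117_l104 : Lf2 := ⟨nat_lit 0, nat_lit 25, [nat_lit 44, nat_lit 5, nat_lit 5, nat_lit 20], false, nat_lit 80, nat_lit 160, nat_lit 0, nat_lit 352, ⟨nat_lit 1000, nat_lit 0, nat_lit 0, nat_lit 0, nat_lit 0, nat_lit 0, nat_lit 0, nat_lit 0, nat_lit 0, nat_lit 0, nat_lit 0, nat_lit 0, nat_lit 0, nat_lit 0, nat_lit 0, nat_lit 0, false, false⟩,
 nat_lit 0, nat_lit 0, nat_lit 18874, nat_lit 0, nat_lit 6945, nat_lit 9991, nat_lit 0, nat_lit 0, nat_lit 0, nat_lit 548, nat_lit 0, nat_lit 0, nat_lit 0, nat_lit 0, nat_lit 0, nat_lit 0, nat_lit 0, nat_lit 0, [],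
 ⟨p117_k10, nat_lit 0, nat_lit 0, nat_lit 114, nat_lit 0, nat_lit 0, [nat_lit 938000000, nat_lit 4688000000, nat_lit 6250000000], [], [nat_lit 30172877820, nat_lit 31076604950, nat_lit 32320392990, nat_lit 33337099030, nat_lit 29159699040, nat_lit 29969756760, nat_lit 31077978380, nat_lit 31809841970], nat_lit 0, nat_lit 0, nat_lit 0, nat_lit 0, nat_lit 0, nat_lit 0, [], [nat_lit 55, nat_lit 40, nat_lit 40, nat_lit 80, nat_lit 3, nat_lit 249, nat_lit 40, nat_lit 8]⟩, ⟨p117_k11, nat_lit 0, nat_lit 0, nat_lit 376, nat_lit 0, nat_lit 144989, [nat_lit 4688000000, nat_lit 9842000000, nat_lit 14058000000], [], [nat_lit 41840890180, nat_lit 42130560380, nat_lit 42986486900, nat_lit 43193122586, nat_lit 33996782728, nat_lit 34082287647, nat_lit 34963602021, nat_lit 35188522081], nat_lit 1271250, nat_lit 1271250, nat_lit 1271250, nat_lit 1271250, nat_lit 0, nat_lit 2486000, [nat_lit 1100000, nat_lit 2127500, nat_lit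 1271250], [nat_lit 56, nat_lit 40, nat_lit 40, nat_lit 80, nat_lit 32, nat_lit 483, nat_lit 250, nat_lit 11]⟩,
 zbF0, [⟨nat_lit 4, nat_lit 100, nat_lit 39, nat_lit 85, nat_lit 292035512⟩, ⟨nat_lit 19, nat_lit 100, nat_lit 77, nat_lit 86, nat_lit 91904793⟩]⟩
noncomputable def p117_l105 : Lf2 := ⟨nat_lit 0, nat_lit 25, [nat_lit 44, nat_lit 5, nat_lit 5, nat_lit 20], false, nat_lit 80, nat_lit 160, nat_lit 0, nat_lit 336, ⟨nat_lit 1000, nat_lit 0, nat_lit 0, nat_lit 0, nat_lit 0, nat_lit 0, nat_lit 0, nat_lit 0, nat_lit 0, nat_lit 0, nat_lit 0, nat_lit 0, nat_lit 0, nat_lit 0, nat_lit 0, nat_lit 0, false, false⟩,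
 nat_lit 0, nat_lit 0, nat_lit 15524, nat_lit 0, nat_lit 6910, nat_lit 9036, nat_lit 0, nat_lit 0, nat_lit 0, nat_lit 581, nat_lit 0, nat_lit 0, nat_lit 0, nat_lit 0, nat_lit 0, nat_lit 0, nat_lit 0, nat_lit 0, [],
 ⟨p117_k10, nat_lit 0, nat_lit 0, nat_lit 114, nat_lit 0, nat_lit 0, [nat_lit 938000000, nat_lit 4688000000, nat_lit 6250000000], [], [nat_lit 30173659160, nat_lit 31074487100, nat_lit 32316011620, nat_lit 33279732140, nat_lit 29173479520, nat_lit 29981020880, nat_lit 31087488440, nat_lit 31817165860], nat_lit 0, nat_lit 0, nat_lit 0, nat_lit 0, nat_lit 0, nat_lit 0, [], [nat_lit 55, nat_lit 40, nat_lit 40, nat_lit 80, nat_lit 3, nat_lit 249, nat_lit 40, nat_lit 8]⟩, ⟨p117_k29, nat_lit 0, nat_lit 0, nat_lit 409, nat_lit 0, nat_lit 239607, [nat_lit 4688000000, nat_lit 9842000000, nat_lit 14058000000], [], [nat_lit 38485575532, nat_lit 38981598548, nat_lit 39954765956, nat_lit 40356202516, nat_lit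 32548927445, nat_lit 32693091229, nat_lit 33503266640, nat_lit 33782938499], nat_lit 1271250, nat_lit 1271250, nat_lit 1271250, nat_lit 1271250, nat_lit 0, nat_lit 2373000, [nat_lit 1100000, nat_lit 2127500, nat_lit 1271250], [nat_lit 56, nat_lit 40, nat_lit 40, nat_lit 80, nat_lit 32, nat_lit 483, nat_lit 250, nat_lit 11]⟩,
 zbF0, [⟨nat_lit 4, nat_lit 100, nat_lit 39, nat_lit 85, nat_lit 294526886⟩, ⟨nat_lit 19, nat_lit 100, nat_lit 86, nat_lit 89, nat_lit 102889955⟩]⟩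
noncomputable def p117_l106 : Lf2 := ⟨nat_lit 1, nat_lit 25, [nat_lit 44, nat_lit 5, nat_lit 5, nat_lit 20], false, nat_lit 80, nat_lit 160, nat_lit 0, nat_lit 352, zbN0,
 nat_lit 0, nat_lit 0, nat_lit 0, nat_lit 0, nat_lit 0, nat_lit 0, nat_lit 0, nat_lit 0, nat_lit 0, nat_lit 0, nat_lit 0, nat_lit 0, nat_lit 0, nat_lit 0, nat_lit 0, nat_lit 0, nat_lit 0, nat_lit 0, [],
 C1.Rw.none, C1.Rw.none,
 zbF0, []⟩
noncomputable def p117_l107 : Lf2 := ⟨nat_lit 0, nat_lit 30, [nat_lit 15, nat_lit 5, nat_lit 5, nat_lit 20], false, nat_lit 80, nat_lit 160, nat_lit 0, nat_lit 160, ⟨nat_lit 1000, nat_lit 0, nat_lit 0, nat_lit 0, nat_lit 0, nat_lit 0, nat_lit 0, nat_lit 0, nat_lit 0, nat_lit 0, nat_lit 0, nat_lit 0, nat_lit 0, nat_lit 0, nat_lit 0, nat_lit 0, false, false⟩,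
 nat_lit 0, nat_lit 0, nat_lit 11780, nat_lit 0, nat_lit 8883, nat_lit 6236, nat_lit 0, nat_lit 0, nat_lit 0, nat_lit 613, nat_lit 0, nat_lit 0, nat_lit 0, nat_lit 0, nat_lit 0, nat_lit 0, nat_lit 0, nat_lit 0, [],
 ⟨p117_k0, nat_lit 0, nat_lit 0, nat_lit 132, nat_lit 0, nat_lit 0, [nat_lit 938000000, nat_lit 4688000000, nat_lit 7968000000], [], [nat_lit 32830408498, nat_lit 33808821583, nat_lit 35299862736, nat_lit 36513585682, nat_lit 30947363628, nat_lit 31820914278, nat_lit 32900049002, nat_lit 33986214977], nat_lit 0, nat_lit 0, nat_lit 0, nat_lit 0, nat_lit 0, nat_lit 0, [], [nat_lit 57, nat_lit 40, nat_lit 40, nat_lit 80, nat_lit 7, nat_lit 249, nat_lit 40, nat_lit 7]⟩, ⟨p117_k1, nat_lit 0, nat_lit 0, nat_lit 486, nat_lit 0, nat_lit 290756, [nat_lit 4688000000, nat_lit 9842000000, nat_lit 16400000000], [], [nat_lit 42885385263, nat_lit 43670555823, nat_lit 44060691999, nat_lit 44723293823, nat_lit 38442111567,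 nat_lit 38983342879, nat_lit 39316319440, nat_lit 40109515344], nat_lit 1271250, nat_lit 1271250, nat_lit 1271250, nat_lit 1271250, nat_lit 0, nat_lit 1100001, [nat_lit 1100000, nat_lit 2127500, nat_lit 1271250], [nat_lit 83, nat_lit 40, nat_lit 40, nat_lit 80, nat_lit 73, nat_lit 428, nat_lit 200, nat_lit 9]⟩,
 zbF0, []⟩
noncomputable def p117_l108 : Lf2 := ⟨nat_lit 0, nat_lit 30, [nat_lit 15, nat_lit 5, nat_lit 5, nat_lit 20], false, nat_lit 80, nat_lit 160, nat_lit 160, nat_lit 364, ⟨nat_lit 1000, nat_lit 0, nat_lit 0, nat_lit 0, nat_lit 0, nat_lit 0, nat_lit 0, nat_lit 0, nat_lit 0, nat_lit 0, nat_lit 0, nat_lit 0, nat_lit 0, nat_lit 0, nat_lit 0, nat_lit 0, false, false⟩,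
 nat_lit 0, nat_lit 0, nat_lit 19917, nat_lit 11580, nat_lit 8772, nat_lit 10544, nat_lit 0, nat_lit 0, nat_lit 0, nat_lit 730, nat_lit 0, nat_lit 0, nat_lit 0, nat_lit 0, nat_lit 0, nat_lit 0, nat_lit 0, nat_lit 0, [],
 ⟨p117_k0, nat_lit 0, nat_lit 0, nat_lit 130, nat_lit 0, nat_lit 0, [nat_lit 938000000, nat_lit 4688000000, nat_lit 7968000000], [], [nat_lit 32832805432, nat_lit 33317877502, nat_lit 35128635024, nat_lit 35730142856, nat_lit 30992372352, nat_lit 31425565152, nat_lit 32928214584, nat_lit 33317689634], nat_lit 0, nat_lit 0, nat_lit 0, nat_lit 0, nat_lit 0, nat_lit 0, [], [nat_lit 57, nat_lit 40, nat_lit 40, nat_lit 80, nat_lit 7, nat_lit 249, nat_lit 40, nat_lit 7]⟩, ⟨p117_k1, nat_lit 0, nat_lit 0, nat_lit 212, nat_lit 0, nat_lit 74851, [nat_lit 4688000000, nat_lit 9842000000, nat_lit 16400000000], [], [nat_lit 28163859854, nat_lit 28761333150, nat_lit 30075550318, nat_lit 30553670062, nat_lit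 32639003518, nat_lit 33070998141, nat_lit 34213301200, nat_lit 34593833449], nat_lit 1271250, nat_lit 1271250, nat_lit 1271250, nat_lit 1271250, nat_lit 1100001, nat_lit 2846750, [nat_lit 1100000, nat_lit 2127500, nat_lit 1271250], [nat_lit 83, nat_lit 40, nat_lit 40, nat_lit 80, nat_lit 73, nat_lit 483, nat_lit 250, nat_lit 9]⟩,
 zbF0, [⟨nat_lit 19, nat_lit 100, nat_lit 68, nat_lit 92, nat_lit 363141019⟩]⟩
noncomputable def p117_l109 : Lf2 := ⟨nat_lit 0, nat_lit 30, [nat_lit 15, nat_lit 5, nat_lit 5, nat_lit 20], false, nat_lit 80, nat_lit 160, nat_lit 160, nat_lit 352, ⟨nat_lit 1000, nat_lit 0, nat_lit 0, nat_lit 0, nat_lit 0, nat_lit 0, nat_lit 0, nat_lit 0, nat_lit 0, nat_lit 0, nat_lit 0, nat_lit 0, nat_lit 0, nat_lit 0, nat_lit 0, nat_lit 0, false, false⟩,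
 nat_lit 0, nat_lit 0, nat_lit 11548, nat_lit 0, nat_lit 9068, nat_lit 6721, nat_lit 0, nat_lit 0, nat_lit 0, nat_lit 628, nat_lit 0, nat_lit 0, nat_lit 0, nat_lit 0, nat_lit 0, nat_lit 0, nat_lit 0, nat_lit 0, [],
 ⟨p117_k0, nat_lit 0, nat_lit 0, nat_lit 130, nat_lit 0, nat_lit 0, [nat_lit 938000000, nat_lit 4688000000, nat_lit 7968000000], [], [nat_lit 32826413608, nat_lit 33322510938, nat_lit 35585242256, nat_lit 36201026464, nat_lit 30872349088, nat_lit 31315095288, nat_lit 33102086392, nat_lit 33652969442], nat_lit 0, nat_lit 0, nat_lit 0, nat_lit 0, nat_lit 0, nat_lit 0, [], [nat_lit 57, nat_lit 40, nat_lit 40, nat_lit 80, nat_lit 7, nat_lit 249, nat_lit 40, nat_lit 7]⟩, ⟨p117_k5, nat_lit 0, nat_lit 0, nat_lit 211, nat_lit 0, nat_lit 168631, [nat_lit 4688000000, nat_lit 9842000000, nat_lit 14058000000], [], [nat_lit 28826402896, nat_lit 29504222856, nat_lit 30597428952, nat_lit 31180771092, nat_lit 33555851743,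 nat_lit 33905297990, nat_lit 34595597293, nat_lit 34883613965], nat_lit 1271250, nat_lit 1271250, nat_lit 1271250, nat_lit 1271250, nat_lit 1100001, nat_lit 2744000, [nat_lit 1100000, nat_lit 2127500, nat_lit 1271250], [nat_lit 56, nat_lit 40, nat_lit 40, nat_lit 80, nat_lit 32, nat_lit 483, nat_lit 250, nat_lit 10]⟩,
 zbF0, [⟨nat_lit 19, nat_lit 100, nat_lit 78, nat_lit 95, nat_lit 346027564⟩]⟩
noncomputable def p117_l110 : Lf2 := ⟨nat_lit 0, nat_lit 30, [nat_lit 15, nat_lit 5, nat_lit 5, nat_lit 20], false, nat_lit 80, nat_lit 160, nat_lit 160, nat_lit 364, ⟨nat_lit 549, nat_lit 451, nat_lit 0, nat_lit 7, nat_lit 278, nat_lit 451, nat_lit 108, nat_lit 0, nat_lit 0, nat_lit 0, nat_lit 0, nat_lit 0, nat_lit 41548406, nat_lit 20785492, nat_lit 4666102, nat_lit 4481475, true, true⟩,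
 nat_lit 0, nat_lit 0, nat_lit 6347, nat_lit 152, nat_lit 5565, nat_lit 3360, nat_lit 0, nat_lit 0, nat_lit 0, nat_lit 340, nat_lit 0, nat_lit 0, nat_lit 0, nat_lit 0, nat_lit 0, nat_lit 112750, nat_lit 0, nat_lit 0, [(nat_lit 29, [(nat_lit 0, nat_lit 451)])],
 ⟨p117_k16, nat_lit 0, nat_lit 0, nat_lit 114, nat_lit 0, nat_lit 0, [nat_lit 867463600, nat_lit 3194468400, nat_lit 4236916400], [], [nat_lit 28585309445, nat_lit 28980017550, nat_lit 30628373495, nat_lit 31075204510, nat_lit 28045380700, nat_lit 28400801320, nat_lit 29762695875, nat_lit 30085528890], nat_lit 0, nat_lit 0, nat_lit 0, nat_lit 0, nat_lit 0, nat_lit 0, [], [nat_lit 55, nat_lit 40, nat_lit 40, nat_lit 80, nat_lit 3, nat_lit 249, nat_lit 40, nat_lit 8]⟩, ⟨p117_k1, nat_lit 0, nat_lit 0, nat_lit 248, nat_lit 0, nat_lit 163918, [nat_lit 2573712000, nat_lit 5403258000, nat_lit 9003600000], [], [nat_lit 17320778028, nat_lit 17575898502, nat_lit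 18039478128, nat_lit 18275440488, nat_lit 19659695750, nat_lit 19803682763, nat_lit 20138411776, nat_lit 20255614749], nat_lit 1271250, nat_lit 1271250, nat_lit 1271250, nat_lit 1271250, nat_lit 1100001, nat_lit 2846750, [nat_lit 1100000, nat_lit 2127500, nat_lit 1271250], [nat_lit 83, nat_lit 40, nat_lit 40, nat_lit 80, nat_lit 73, nat_lit 483, nat_lit 250, nat_lit 9]⟩,
 ⟨nat_lit 1581, nat_lit 1937, ⟨.ofNat (nat_lit 657798), .ofNat (nat_lit 713688), .ofNat (nat_lit 680809), .ofNat (nat_lit 736698), .ofNat (nat_lit 655900), .ofNat (nat_lit 710536), .ofNat (nat_lit 679215), .ofNat (nat_lit 733851)⟩, ⟨.ofNat (nat_lit 200000), .ofNat (nat_lit 329055), .ofNat (nat_lit 200000), .ofNat (nat_lit 352066), .ofNat (nat_lit 200000), .ofNat (nat_lit 328788), .ofNat (nat_lit 200000), .ofNat (nat_lit 352103)⟩⟩, [⟨nat_lit 19, nat_lit 100, nat_lit 68, nat_lit 92, nat_lit 138288925⟩, ⟨nat_lit 10, nat_lit 57, nat_lit 87, nat_lit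 100, nat_lit 57845732⟩]⟩
noncomputable def p117_l111 : Lf2 := ⟨nat_lit 1, nat_lit 30, [nat_lit 15, nat_lit 5, nat_lit 5, nat_lit 20], false, nat_lit 80, nat_lit 160, nat_lit 160, nat_lit 364, zbN0,
 nat_lit 0, nat_lit 0, nat_lit 0, nat_lit 0, nat_lit 0, nat_lit 0, nat_lit 0, nat_lit 0, nat_lit 0, nat_lit 0, nat_lit 0, nat_lit 0, nat_lit 0, nat_lit 0, nat_lit 0, nat_lit 0, nat_lit 0, nat_lit 0, [],
 C1.Rw.none, C1.Rw.none,
 zbF0, []⟩
noncomputable def p117_l112 : Lf2 := ⟨nat_lit 0, nat_lit 30, [nat_lit 15, nat_lit 5, nat_lit 5, nat_lit 20], false, nat_lit 80, nat_lit 160, nat_lit 160, nat_lit 352, ⟨nat_lit 1000, nat_lit 0, nat_lit 0, nat_lit 0, nat_lit 0, nat_lit 0, nat_lit 0, nat_lit 0, nat_lit 0, nat_lit 0, nat_lit 0, nat_lit 0, nat_lit 0, nat_lit 0, nat_lit 0, nat_lit 0, false, false⟩,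
 nat_lit 0, nat_lit 0, nat_lit 10215, nat_lit 0, nat_lit 7272, nat_lit 5946, nat_lit 0, nat_lit 0, nat_lit 0, nat_lit 611, nat_lit 0, nat_lit 0, nat_lit 0, nat_lit 0, nat_lit 0, nat_lit 0, nat_lit 0, nat_lit 0, [],
 ⟨p117_k16, nat_lit 0, nat_lit 0, nat_lit 114, nat_lit 0, nat_lit 0, [nat_lit 938000000, nat_lit 4688000000, nat_lit 6250000000], [], [nat_lit 30645919828, nat_lit 31237886904, nat_lit 33343908356, nat_lit 33873069688, nat_lit 29447733840, nat_lit 29864517696, nat_lit 31615844768, nat_lit 32091003968], nat_lit 0, nat_lit 0, nat_lit 0, nat_lit 0, nat_lit 0, nat_lit 0, [], [nat_lit 55, nat_lit 40, nat_lit 40, nat_lit 80, nat_lit 3, nat_lit 249, nat_lit 40, nat_lit 8]⟩, ⟨p117_k5, nat_lit 0, nat_lit 0, nat_lit 247, nat_lit 0, nat_lit 251752, [nat_lit 4688000000, nat_lit 9842000000, nat_lit 14058000000], [], [nat_lit 30221884372, nat_lit 30778242196, nat_lit 31654880124, nat_lit 32139819220, nat_lit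 34195087547, nat_lit 34499183033, nat_lit 35208016896, nat_lit 35571112220], nat_lit 1271250, nat_lit 1271250, nat_lit 1271250, nat_lit 1271250, nat_lit 1100001, nat_lit 2744000, [nat_lit 1100000, nat_lit 2127500, nat_lit 1271250], [nat_lit 56, nat_lit 40, nat_lit 40, nat_lit 80, nat_lit 32, nat_lit 483, nat_lit 250, nat_lit 10]⟩,
 zbF0, [⟨nat_lit 4, nat_lit 100, nat_lit 35, nat_lit 90, nat_lit 173337538⟩, ⟨nat_lit 19, nat_lit 100, nat_lit 78, nat_lit 95, nat_lit 338545945⟩]⟩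
noncomputable def p117_l113 : Lf2 := ⟨nat_lit 1, nat_lit 30, [nat_lit 15, nat_lit 5, nat_lit 5, nat_lit 20], false, nat_lit 80, nat_lit 160, nat_lit 0, nat_lit 364, zbN0,
 nat_lit 0, nat_lit 0, nat_lit 0, nat_lit 0, nat_lit 0, nat_lit 0, nat_lit 0, nat_lit 0, nat_lit 0, nat_lit 0, nat_lit 0, nat_lit 0, nat_lit 0, nat_lit 0, nat_lit 0, nat_lit 0, nat_lit 0, nat_lit 0, [],
 C1.Rw.none, C1.Rw.none,
 zbF0, []⟩
noncomputable def p117_l114 : Lf2 := ⟨nat_lit 1, nat_lit 30, [nat_lit 15, nat_lit 5, nat_lit 5, nat_lit 20], false, nat_lit 80, nat_lit 160, nat_lit 0, nat_lit 364, zbN0,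
 nat_lit 0, nat_lit 0, nat_lit 0, nat_lit 0, nat_lit 0, nat_lit 0, nat_lit 0, nat_lit 0, nat_lit 0, nat_lit 0, nat_lit 0, nat_lit 0, nat_lit 0, nat_lit 0, nat_lit 0, nat_lit 0, nat_lit 0, nat_lit 0, [],
 C1.Rw.none, C1.Rw.none,
 zbF0, []⟩
noncomputable def b_V_900_600_20_77 : St := ⟨true, nat_lit 0, nat_lit 1, nat_lit 1, nat_lit 120, nat_lit 380, nat_lit 390, nat_lit 240, nat_lit 280, nat_lit 280, nat_lit 320, nat_lit 80, nat_lit 120, nat_lit 80, nat_lit 160, nat_lit 0, nat_lit 364, nat_lit 120, nat_lit 156, nat_lit 0, nat_lit 0, nat_lit 0, nat_lit 0⟩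
theorem d_V_900_600_20_77 (h : EB TB.env) : Dead b_V_900_600_20_77 := chkB_sound0 h (T :=
(.spl (nat_lit 6) (nat_lit 148)
(.spl (nat_lit 3) (nat_lit 100)
(.trX (nat_lit 19) (nat_lit 100) (nat_lit 68) (nat_lit 88) (nat_lit 352) (.spl (nat_lit 6) (nat_lit 136)
(.spl (nat_lit 1) (nat_lit 260)
(.leaf p117_l104)
(.trX (nat_lit 19) (nat_lit 100) (nat_lit 77) (nat_lit 91) (nat_lit 336) (.leaf p117_l105)))
(.leaf p117_l106)))
(.spl (nat_lit 6) (nat_lit 136)
(.spl (nat_lit 5) (nat_lit 160)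
(.leaf p117_l107)
(.spl (nat_lit 0) (nat_lit 385)
(.spl (nat_lit 1) (nat_lit 260)
(.leaf p117_l108)
(.trX (nat_lit 19) (nat_lit 100) (nat_lit 69) (nat_lit 96) (nat_lit 352) (.leaf p117_l109)))
(.spl (nat_lit 1) (nat_lit 260)
(.spl (nat_lit 6) (nat_lit 128)
(.leaf p117_l110)
(.leaf p117_l111))
(.trX (nat_lit 19) (nat_lit 100) (nat_lit 69) (nat_lit 96) (nat_lit 352) (.leaf p117_l112)))))
(.leaf p117_l113)))
(.leaf p117_l114))) (by decide +kernel)
noncomputable def p117_l115 : Lf2 := ⟨nat_lit 0, nat_lit 25, [nat_lit 44, nat_lit 5, nat_lit 5, nat_lit 20], true, nat_lit 80, nat_lit 160, nat_lit 0, nat_lit 352, ⟨nat_lit 0, nat_lit 1000, nat_lit 0, nat_lit 7, nat_lit 276, nat_lit 1000, nat_lit 103, nat_lit 0, nat_lit 0, nat_lit 0, nat_lit 0, nat_lit 0, nat_lit 41975047, nat_lit 20679142, nat_lit 4345811, nat_lit 4411925, true, true⟩,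
 nat_lit 0, nat_lit 0, nat_lit 0, nat_lit 4175, nat_lit 3000, nat_lit 0, nat_lit 0, nat_lit 0, nat_lit 0, nat_lit 0, nat_lit 0, nat_lit 0, nat_lit 0, nat_lit 0, nat_lit 0, nat_lit 250000, nat_lit 0, nat_lit 0, [(nat_lit 29, [(nat_lit 0, nat_lit 1000)])],
 ⟨p117_k26, nat_lit 0, nat_lit 0, nat_lit 95, nat_lit 0, nat_lit 0, [nat_lit 781600001, nat_lit 1376400000], [], [nat_lit 25263885000, nat_lit 25875740000, nat_lit 26871905000, nat_lit 27517268000, nat_lit 25716109000, nat_lit 26273556000, nat_lit 27192916000, nat_lit 27706100000], nat_lit 0, nat_lit 0, nat_lit 0, nat_lit 0, nat_lit 0, nat_lit 0, [], [nat_lit 86, nat_lit 40, nat_lit 40, nat_lit 80, nat_lit 87, nat_lit 249, nat_lit 40, nat_lit 9]⟩, C1.Rw.none,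
 ⟨nat_lit 0, nat_lit 1582, ⟨.ofNat (nat_lit 655899), .ofNat (nat_lit 710533), .ofNat (nat_lit 679215), .ofNat (nat_lit 733849), .ofNat (nat_lit 649998), .ofNat (nat_lit 699996), .ofNat (nat_lit 674999), .ofNat (nat_lit 724997)⟩, ⟨.ofNat (nat_lit 196201), .ofNat (nat_lit 305469), .ofNat (nat_lit 200000), .ofNat (nat_lit 328785), .ofNat (nat_lit 199999), .ofNat (nat_lit 299995), .ofNat (nat_lit 200000), .ofNat (nat_lit 324996)⟩⟩, [⟨nat_lit 13, nat_lit 33, nat_lit 85, nat_lit 100, nat_lit 565841453⟩, ⟨nat_lit 16, nat_lit 32, nat_lit 100, nat_lit 88, nat_lit 13798828⟩]⟩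
noncomputable def p117_l116 : Lf2 := ⟨nat_lit 0, nat_lit 25, [nat_lit 44, nat_lit 5, nat_lit 5, nat_lit 20], false, nat_lit 80, nat_lit 160, nat_lit 0, nat_lit 336, ⟨nat_lit 235, nat_lit 765, nat_lit 0, nat_lit 7, nat_lit 286, nat_lit 765, nat_lit 103, nat_lit 0, nat_lit 0, nat_lit 0, nat_lit 0, nat_lit 0, nat_lit 41097677, nat_lit 21611476, nat_lit 4290847, nat_lit 4449772, true, true⟩,
 nat_lit 0, nat_lit 0, nat_lit 3521, nat_lit 0, nat_lit 2992, nat_lit 2049, nat_lit 0, nat_lit 0, nat_lit 0, nat_lit 130, nat_lit 0, nat_lit 0, nat_lit 0, nat_lit 0, nat_lit 0, nat_lit 191250, nat_lit 0, nat_lit 0, [(nat_lit 29, [(nat_lit 0, nat_lit 765)])],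
 ⟨p117_k26, nat_lit 0, nat_lit 0, nat_lit 95, nat_lit 0, nat_lit 0, [nat_lit 818354001, nat_lit 2154626000], [], [nat_lit 26041055784, nat_lit 26652185360, nat_lit 27647831696, nat_lit 28208631056, nat_lit 26522215611, nat_lit 27053108048, nat_lit 27972062392, nat_lit 28484697712], nat_lit 0, nat_lit 0, nat_lit 0, nat_lit 0, nat_lit 0, nat_lit 0, [], [nat_lit 86, nat_lit 40, nat_lit 40, nat_lit 80, nat_lit 87, nat_lit 249, nat_lit 40, nat_lit 9]⟩, ⟨p117_k29, nat_lit 0, nat_lit 0, nat_lit 479, nat_lit 0, nat_lit 418683, [nat_lit 1101680000, nat_lit 2312870000, nat_lit 3303630000], [], [nat_lit 9191574948, nat_lit 9307819732, nat_lit 9532610284, nat_lit 9627285924, nat_lit 7894061689, nat_lit 7929126722, nat_lit 8044872901, nat_lit 8067311252], nat_lit 1271250, nat_lit 1271250, nat_lit 1271250, nat_lit 1271250, nat_lit 0, nat_lit 2373000, [nat_lit 1100000, nat_lit 2127500, nat_lit 1271250], [nat_lit 56, nat_lit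 40, nat_lit 40, nat_lit 80, nat_lit 32, nat_lit 483, nat_lit 250, nat_lit 11]⟩,
 ⟨nat_lit 0, nat_lit 1582, ⟨.ofNat (nat_lit 679215), .ofNat (nat_lit 733849), .ofNat (nat_lit 702515), .ofNat (nat_lit 757165), .ofNat (nat_lit 674999), .ofNat (nat_lit 724997), .ofNat (nat_lit 699984), .ofNat (nat_lit 749998)⟩, ⟨.ofNat (nat_lit 196201), .ofNat (nat_lit 305469), .ofNat (nat_lit 200000), .ofNat (nat_lit 328785), .ofNat (nat_lit 199999), .ofNat (nat_lit 299995), .ofNat (nat_lit 200000), .ofNat (nat_lit 324996)⟩⟩, [⟨nat_lit 13, nat_lit 24, nat_lit 89, nat_lit 100, nat_lit 395990642⟩, ⟨nat_lit 4, nat_lit 100, nat_lit 24, nat_lit 89, nat_lit 430033231⟩, ⟨nat_lit 22, nat_lit 94, nat_lit 88, nat_lit 100, nat_lit 22538304⟩]⟩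
noncomputable def p117_l117 : Lf2 := ⟨nat_lit 1, nat_lit 25, [nat_lit 44, nat_lit 5, nat_lit 5, nat_lit 20], false, nat_lit 80, nat_lit 160, nat_lit 0, nat_lit 352, zbN0,
 nat_lit 0, nat_lit 0, nat_lit 0, nat_lit 0, nat_lit 0, nat_lit 0, nat_lit 0, nat_lit 0, nat_lit 0, nat_lit 0, nat_lit 0, nat_lit 0, nat_lit 0, nat_lit 0, nat_lit 0, nat_lit 0, nat_lit 0, nat_lit 0, [],
 C1.Rw.none, C1.Rw.none,
 zbF0, []⟩
noncomputable def p117_l118 : Lf2 := ⟨nat_lit 0, nat_lit 30, [nat_lit 15, nat_lit 5, nat_lit 5, nat_lit 20], false, nat_lit 80, nat_lit 160, nat_lit 0, nat_lit 160, ⟨nat_lit 437, nat_lit 563, nat_lit 0, nat_lit 7, nat_lit 276, nat_lit 563, nat_lit 108, nat_lit 0, nat_lit 0, nat_lit 0, nat_lit 0, nat_lit 0, nat_lit 41738750, nat_lit 20602593, nat_lit 4658657, nat_lit 4470033, true, true⟩,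
 nat_lit 0, nat_lit 0, nat_lit 5357, nat_lit 0, nat_lit 2875, nat_lit 2836, nat_lit 241, nat_lit 0, nat_lit 0, nat_lit 257, nat_lit 0, nat_lit 0, nat_lit 0, nat_lit 0, nat_lit 0, nat_lit 140750, nat_lit 0, nat_lit 0, [(nat_lit 29, [(nat_lit 0, nat_lit 563)])],
 ⟨p117_k15, nat_lit 0, nat_lit 0, nat_lit 119, nat_lit 0, nat_lit 0, [nat_lit 849946801, nat_lit 2823569200, nat_lit 3736993200], [], [nat_lit 25003572450, nat_lit 25571084000, nat_lit 26666149250, nat_lit 27300328500, nat_lit 25463452751, nat_lit 25970406501, nat_lit 26918289625, nat_lit 27497831000], nat_lit 0, nat_lit 0, nat_lit 0, nat_lit 0, nat_lit 0, nat_lit 0, [], [nat_lit 55, nat_lit 40, nat_lit 40, nat_lit 80, nat_lit 3, nat_lit 249, nat_lit 40, nat_lit 8]⟩, ⟨p117_k1, nat_lit 0, nat_lit 0, nat_lit 517, nat_lit 0, nat_lit 377380, [nat_lit 2048656000, nat_lit 4300954000, nat_lit 7166800000], [], [nat_lit 18880277343, nat_lit 19051003383, nat_lit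 19398196491, nat_lit 19541288909, nat_lit 16914988611, nat_lit 17010312040, nat_lit 17306364620, nat_lit 17445509056], nat_lit 1271250, nat_lit 1271250, nat_lit 1271250, nat_lit 1271250, nat_lit 0, nat_lit 1100001, [nat_lit 1100000, nat_lit 2127500, nat_lit 1271250], [nat_lit 83, nat_lit 40, nat_lit 40, nat_lit 80, nat_lit 73, nat_lit 428, nat_lit 200, nat_lit 9]⟩,
 ⟨nat_lit 0, nat_lit 1582, ⟨.ofNat (nat_lit 655899), .ofNat (nat_lit 710533), .ofNat (nat_lit 679215), .ofNat (nat_lit 733849), .ofNat (nat_lit 649998), .ofNat (nat_lit 699996), .ofNat (nat_lit 674999), .ofNat (nat_lit 724997)⟩, ⟨.ofNat (nat_lit 200000), .ofNat (nat_lit 328785), .ofNat (nat_lit 200000), .ofNat (nat_lit 352101), .ofNat (nat_lit 200000), .ofNat (nat_lit 324996), .ofNat (nat_lit 200000), .ofNat (nat_lit 349997)⟩⟩, [⟨nat_lit 13, nat_lit 23, nat_lit 92, nat_lit 100, nat_lit 470728229⟩, ⟨nat_lit 4, nat_lit 100, nat_lit 23, nat_lit 92,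 nat_lit 411653950⟩]⟩
noncomputable def p117_l119 : Lf2 := ⟨nat_lit 0, nat_lit 30, [nat_lit 15, nat_lit 5, nat_lit 5, nat_lit 20], false, nat_lit 80, nat_lit 120, nat_lit 160, nat_lit 336, ⟨nat_lit 242, nat_lit 255, nat_lit 503, nat_lit 7, nat_lit 271, nat_lit 758, nat_lit 97, nat_lit 503, nat_lit 88817, nat_lit 288, nat_lit 140352, nat_lit 200, nat_lit 42741282, nat_lit 20216801, nat_lit 4041917, nat_lit 4322876, true, true⟩,
 nat_lit 0, nat_lit 0, nat_lit 2826, nat_lit 0, nat_lit 3148, nat_lit 1496, nat_lit 0, nat_lit 0, nat_lit 0, nat_lit 159, nat_lit 0, nat_lit 0, nat_lit 0, nat_lit 0, nat_lit 0, nat_lit 161835, nat_lit 0, nat_lit 0, [(nat_lit 29, [(nat_lit 0, nat_lit 255), (nat_lit 3, nat_lit 503)])],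
 ⟨p117_k15, nat_lit 0, nat_lit 0, nat_lit 116, nat_lit 0, nat_lit 0, [nat_lit 1002540800, nat_lit 805220800, nat_lit 961026000], [], [nat_lit 25557874480, nat_lit 26147080912, nat_lit 26635378598, nat_lit 27240816389, nat_lit 25742168566, nat_lit 26293721288, nat_lit 26763498022, nat_lit 27295759008], nat_lit 0, nat_lit 0, nat_lit 0, nat_lit 0, nat_lit 0, nat_lit 0, [], [nat_lit 55, nat_lit 40, nat_lit 40, nat_lit 80, nat_lit 3, nat_lit 238, nat_lit 30, nat_lit 7]⟩, ⟨p117_k1, nat_lit 0, nat_lit 0, nat_lit 314, nat_lit 0, nat_lit 327191, [nat_lit 1134496000, nat_lit 2381764000, nat_lit 3968800000], [], [nat_lit 7457676189, nat_lit 7513929375, nat_lit 7680063955, nat_lit 7730833694, nat_lit 8249635076, nat_lit 8291672057, nat_lit 8451643720, nat_lit 8500896873], nat_lit 1271250, nat_lit 1271250, nat_lit 1271250, nat_lit 1271250, nat_lit 1100001, nat_lit 2607000, [nat_lit 1100000, nat_lit 2127500, nat_lit 1271250],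 [nat_lit 83, nat_lit 40, nat_lit 40, nat_lit 80, nat_lit 73, nat_lit 456, nat_lit 225, nat_lit 9]⟩,
 ⟨nat_lit 0, nat_lit 1582, ⟨.ofNat (nat_lit 655899), .ofNat (nat_lit 694143), .ofNat (nat_lit 667557), .ofNat (nat_lit 705801), .ofNat (nat_lit 649998), .ofNat (nat_lit 684997), .ofNat (nat_lit 662498), .ofNat (nat_lit 697497)⟩, ⟨.ofNat (nat_lit 200000), .ofNat (nat_lit 274152), .ofNat (nat_lit 200000), .ofNat (nat_lit 297467), .ofNat (nat_lit 200000), .ofNat (nat_lit 274999), .ofNat (nat_lit 200000), .ofNat (nat_lit 299999)⟩⟩, [⟨nat_lit 13, nat_lit 23, nat_lit 92, nat_lit 100, nat_lit 425650182⟩, ⟨nat_lit 22, nat_lit 100, nat_lit 80, nat_lit 100, nat_lit 77010657⟩]⟩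
noncomputable def p117_l120 : Lf2 := ⟨nat_lit 0, nat_lit 30, [nat_lit 15, nat_lit 5, nat_lit 5, nat_lit 20], false, nat_lit 120, nat_lit 160, nat_lit 160, nat_lit 364, ⟨nat_lit 105, nat_lit 895, nat_lit 0, nat_lit 7, nat_lit 272, nat_lit 895, nat_lit 125, nat_lit 0, nat_lit 0, nat_lit 0, nat_lit 0, nat_lit 0, nat_lit 41272249, nat_lit 19900993, nat_lit 5826758, nat_lit 4645527, true, true⟩,
 nat_lit 0, nat_lit 0, nat_lit 1234, nat_lit 2912, nat_lit 4180, nat_lit 653, nat_lit 0, nat_lit 0, nat_lit 0, nat_lit 67, nat_lit 0, nat_lit 0, nat_lit 0, nat_lit 0, nat_lit 0, nat_lit 223750, nat_lit 0, nat_lit 0, [(nat_lit 29, [(nat_lit 0, nat_lit 895)])],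
 ⟨p117_k15, nat_lit 0, nat_lit 0, nat_lit 95, nat_lit 0, nat_lit 0, [nat_lit 798022000, nat_lit 1724118000, nat_lit 2255078000], [], [nat_lit 26889536520, nat_lit 27082429980, nat_lit 28043630265, nat_lit 28267833282, nat_lit 26864700240, nat_lit 27048079824, nat_lit 27934865168, nat_lit 28107616078], nat_lit 0, nat_lit 0, nat_lit 0, nat_lit 0, nat_lit 0, nat_lit 0, [], [nat_lit 55, nat_lit 40, nat_lit 40, nat_lit 80, nat_lit 3, nat_lit 249, nat_lit 40, nat_lit 8]⟩, ⟨p117_k1, nat_lit 0, nat_lit 0, nat_lit 251, nat_lit 0, nat_lit 176610, [nat_lit 492240000, nat_lit 1033410000, nat_lit 1722000000], [], [nat_lit 3264302805, nat_lit 3288716590, nat_lit 3361474501, nat_lit 3387406952, nat_lit 3723271875, nat_lit 3736914990, nat_lit 3787363541, nat_lit 3805013129], nat_lit 1271250, nat_lit 1271250, nat_lit 1271250, nat_lit 1271250, nat_lit 1100001, nat_lit 2846750, [nat_lit 1100000, nat_lit 2127500, nat_lit 1271250],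 [nat_lit 83, nat_lit 40, nat_lit 40, nat_lit 80, nat_lit 73, nat_lit 483, nat_lit 250, nat_lit 9]⟩,
 ⟨nat_lit 1322, nat_lit 1582, ⟨.ofNat (nat_lit 655900), .ofNat (nat_lit 694145), .ofNat (nat_lit 667558), .ofNat (nat_lit 705803), .ofNat (nat_lit 654659), .ofNat (nat_lit 692303), .ofNat (nat_lit 666435), .ofNat (nat_lit 704080)⟩, ⟨.ofNat (nat_lit 274152), .ofNat (nat_lit 328788), .ofNat (nat_lit 297467), .ofNat (nat_lit 352103), .ofNat (nat_lit 274681), .ofNat (nat_lit 328458), .ofNat (nat_lit 298233), .ofNat (nat_lit 352011)⟩⟩, [⟨nat_lit 13, nat_lit 30, nat_lit 89, nat_lit 100, nat_lit 434447844⟩, ⟨nat_lit 22, nat_lit 93, nat_lit 75, nat_lit 100, nat_lit 37511046⟩]⟩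
noncomputable def p117_l121 : Lf2 := ⟨nat_lit 0, nat_lit 30, [nat_lit 15, nat_lit 5, nat_lit 5, nat_lit 20], true, nat_lit 120, nat_lit 160, nat_lit 160, nat_lit 364, ⟨nat_lit 0, nat_lit 673, nat_lit 327, nat_lit 7, nat_lit 269, nat_lit 1000, nat_lit 125, nat_lit 327, nat_lit 147267, nat_lit 309, nat_lit 115398, nat_lit 200, nat_lit 41500209, nat_lit 19649077, nat_lit 5850714, nat_lit 4634998, true, true⟩,
 nat_lit 0, nat_lit 0, nat_lit 0, nat_lit 4668, nat_lit 2979, nat_lit 0, nat_lit 0, nat_lit 0, nat_lit 0, nat_lit 0, nat_lit 0, nat_lit 0, nat_lit 0, nat_lit 0, nat_lit 0, nat_lit 232015, nat_lit 0, nat_lit 0, [(nat_lit 29, [(nat_lit 0, nat_lit 673), (nat_lit 3, nat_lit 327)])],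
 ⟨p117_k30, nat_lit 0, nat_lit 0, nat_lit 93, nat_lit 0, nat_lit 0, [nat_lit 900628001, nat_lit 484082401, nat_lit 547593200], [], [nat_lit 25503994432, nat_lit 25614006999, nat_lit 26263037260, nat_lit 26392145192, nat_lit 25711377176, nat_lit 25814224466, nat_lit 26392447525, nat_lit 26515046259], nat_lit 0, nat_lit 0, nat_lit 0, nat_lit 0, nat_lit 0, nat_lit 0, [], [nat_lit 55, nat_lit 40, nat_lit 40, nat_lit 80, nat_lit 3, nat_lit 249, nat_lit 40, nat_lit 7]⟩, C1.Rw.none,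
 ⟨nat_lit 1118, nat_lit 1323, ⟨.ofNat (nat_lit 654659), .ofNat (nat_lit 681548), .ofNat (nat_lit 666435), .ofNat (nat_lit 693324), .ofNat (nat_lit 653755), .ofNat (nat_lit 680318), .ofNat (nat_lit 665630), .ofNat (nat_lit 692194)⟩, ⟨.ofNat (nat_lit 274681), .ofNat (nat_lit 328458), .ofNat (nat_lit 298233), .ofNat (nat_lit 352011), .ofNat (nat_lit 274990), .ofNat (nat_lit 328117), .ofNat (nat_lit 298741), .ofNat (nat_lit 351868)⟩⟩, [⟨nat_lit 13, nat_lit 27, nat_lit 90, nat_lit 100, nat_lit 722757007⟩]⟩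
noncomputable def p117_l122 : Lf2 := ⟨nat_lit 0, nat_lit 30, [nat_lit 15, nat_lit 5, nat_lit 5, nat_lit 20], true, nat_lit 120, nat_lit 160, nat_lit 160, nat_lit 364, ⟨nat_lit 0, nat_lit 668, nat_lit 332, nat_lit 7, nat_lit 266, nat_lit 1000, nat_lit 125, nat_lit 332, nat_lit 147267, nat_lit 309, nat_lit 91884, nat_lit 200, nat_lit 41780937, nat_lit 19356707, nat_lit 5862356, nat_lit 4619513, true, true⟩,
 nat_lit 0, nat_lit 0, nat_lit 0, nat_lit 3376, nat_lit 2987, nat_lit 0, nat_lit 0, nat_lit 0, nat_lit 0, nat_lit 0, nat_lit 0, nat_lit 0, nat_lit 0, nat_lit 0, nat_lit 0, nat_lit 231740, nat_lit 0, nat_lit 0, [(nat_lit 29, [(nat_lit 0, nat_lit 668), (nat_lit 3, nat_lit 332)])],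
 ⟨p117_k23, nat_lit 0, nat_lit 0, nat_lit 96, nat_lit 0, nat_lit 0, [nat_lit 902448001, nat_lit 470438401, nat_lit 528651200], [], [nat_lit 25594329171, nat_lit 25885615716, nat_lit 26060966519, nat_lit 26389992095, nat_lit 25791122746, nat_lit 26048521077, nat_lit 26197657656, nat_lit 26509662538], nat_lit 0, nat_lit 0, nat_lit 0, nat_lit 0, nat_lit 0, nat_lit 0, [], [nat_lit 55, nat_lit 40, nat_lit 40, nat_lit 80, nat_lit 3, nat_lit 249, nat_lit 40, nat_lit 7]⟩, C1.Rw.none,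
 ⟨nat_lit 0, nat_lit 1119, ⟨.ofNat (nat_lit 653753), .ofNat (nat_lit 669691), .ofNat (nat_lit 665629), .ofNat (nat_lit 681567), .ofNat (nat_lit 649997), .ofNat (nat_lit 664997), .ofNat (nat_lit 662498), .ofNat (nat_lit 677498)⟩, ⟨.ofNat (nat_lit 274990), .ofNat (nat_lit 328114), .ofNat (nat_lit 298741), .ofNat (nat_lit 351866), .ofNat (nat_lit 274999), .ofNat (nat_lit 324996), .ofNat (nat_lit 299999), .ofNat (nat_lit 349997)⟩⟩, [⟨nat_lit 13, nat_lit 23, nat_lit 92, nat_lit 100, nat_lit 854673295⟩]⟩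
noncomputable def p117_l123 : Lf2 := ⟨nat_lit 1, nat_lit 30, [nat_lit 15, nat_lit 5, nat_lit 5, nat_lit 20], false, nat_lit 80, nat_lit 160, nat_lit 160, nat_lit 364, zbN0,
 nat_lit 0, nat_lit 0, nat_lit 0, nat_lit 0, nat_lit 0, nat_lit 0, nat_lit 0, nat_lit 0, nat_lit 0, nat_lit 0, nat_lit 0, nat_lit 0, nat_lit 0, nat_lit 0, nat_lit 0, nat_lit 0, nat_lit 0, nat_lit 0, [],
 C1.Rw.none, C1.Rw.none,
 zbF0, []⟩
noncomputable def p117_l124 : Lf2 := ⟨nat_lit 0, nat_lit 30, [nat_lit 15, nat_lit 5, nat_lit 5, nat_lit 20], false, nat_lit 80, nat_lit 120, nat_lit 160, nat_lit 336, ⟨nat_lit 224, nat_lit 312, nat_lit 464, nat_lit 7, nat_lit 279, nat_lit 776, nat_lit 97, nat_lit 464, nat_lit 88817, nat_lit 288, nat_lit 196448, nat_lit 200, nat_lit 42003679, nat_lit 20994945, nat_lit 4001376, nat_lit 4357887, true, true⟩,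
 nat_lit 0, nat_lit 0, nat_lit 2448, nat_lit 0, nat_lit 3136, nat_lit 1360, nat_lit 0, nat_lit 0, nat_lit 0, nat_lit 0, nat_lit 0, nat_lit 0, nat_lit 0, nat_lit 0, nat_lit 0, nat_lit 168480, nat_lit 0, nat_lit 0, [(nat_lit 29, [(nat_lit 0, nat_lit 312), (nat_lit 3, nat_lit 464)])],
 ⟨p117_k15, nat_lit 0, nat_lit 0, nat_lit 119, nat_lit 0, nat_lit 0, [nat_lit 985529601, nat_lit 852035200, nat_lit 1028428800], [], [nat_lit 25624551160, nat_lit 26212763584, nat_lit 27162202032, nat_lit 27753298176, nat_lit 25799768213, nat_lit 26361506544, nat_lit 27273760644, nat_lit 27790832800], nat_lit 0, nat_lit 0, nat_lit 0, nat_lit 0, nat_lit 0, nat_lit 0, [], [nat_lit 55, nat_lit 40, nat_lit 40, nat_lit 80, nat_lit 3, nat_lit 238, nat_lit 30, nat_lit 7]⟩, ⟨p117_k22, nat_lit 0, nat_lit 0, nat_lit 290, nat_lit 0, nat_lit 350573, [nat_lit 1050112000, nat_lit 2204608000, nat_lit 3148992000], [], [nat_lit 8470548608, nat_lit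 8533081856, nat_lit 8801874624, nat_lit 8856275968, nat_lit 9260720836, nat_lit 9297104468, nat_lit 9503496500, nat_lit 9540096666], nat_lit 1271250, nat_lit 1271250, nat_lit 1271250, nat_lit 1271250, nat_lit 1100001, nat_lit 2607000, [nat_lit 1100000, nat_lit 2127500, nat_lit 1271250], [nat_lit 56, nat_lit 40, nat_lit 40, nat_lit 80, nat_lit 32, nat_lit 483, nat_lit 250, nat_lit 10]⟩,
 ⟨nat_lit 0, nat_lit 1582, ⟨.ofNat (nat_lit 667557), .ofNat (nat_lit 722191), .ofNat (nat_lit 679215), .ofNat (nat_lit 733849), .ofNat (nat_lit 662498), .ofNat (nat_lit 712497), .ofNat (nat_lit 674999), .ofNat (nat_lit 724997)⟩, ⟨.ofNat (nat_lit 200000), .ofNat (nat_lit 274152), .ofNat (nat_lit 200000), .ofNat (nat_lit 297467), .ofNat (nat_lit 200000), .ofNat (nat_lit 274999), .ofNat (nat_lit 200000), .ofNat (nat_lit 299999)⟩⟩, [⟨nat_lit 13, nat_lit 23, nat_lit 91, nat_lit 100, nat_lit 450755273⟩, ⟨nat_lit 22, nat_lit 100, nat_lit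 80, nat_lit 100, nat_lit 70576856⟩]⟩
noncomputable def p117_l125 : Lf2 := ⟨nat_lit 0, nat_lit 30, [nat_lit 15, nat_lit 5, nat_lit 5, nat_lit 20], false, nat_lit 120, nat_lit 160, nat_lit 160, nat_lit 360, ⟨nat_lit 730, nat_lit 270, nat_lit 0, nat_lit 7, nat_lit 280, nat_lit 270, nat_lit 125, nat_lit 0, nat_lit 0, nat_lit 0, nat_lit 0, nat_lit 0, nat_lit 40584032, nat_lit 20649862, nat_lit 5766106, nat_lit 4676493, true, true⟩,
 nat_lit 0, nat_lit 0, nat_lit 7820, nat_lit 0, nat_lit 6018, nat_lit 4344, nat_lit 0, nat_lit 0, nat_lit 0, nat_lit 429, nat_lit 0, nat_lit 0, nat_lit 0, nat_lit 0, nat_lit 0, nat_lit 67500, nat_lit 0, nat_lit 0, [(nat_lit 29, [(nat_lit 0, nat_lit 270)])],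
 ⟨p117_k15, nat_lit 0, nat_lit 0, nat_lit 101, nat_lit 0, nat_lit 0, [nat_lit 895772000, nat_lit 3793868000, nat_lit 5044828000], [], [nat_lit 29439131602, nat_lit 29674684123, nat_lit 31272843347, nat_lit 31486116693, nat_lit 29062923024, nat_lit 29285946063, nat_lit 30798648428, nat_lit 31000836823], nat_lit 0, nat_lit 0, nat_lit 0, nat_lit 0, nat_lit 0, nat_lit 0, [], [nat_lit 55, nat_lit 40, nat_lit 40, nat_lit 80, nat_lit 3, nat_lit 249, nat_lit 40, nat_lit 8]⟩, ⟨p117_k22, nat_lit 0, nat_lit 0, nat_lit 229, nat_lit 0, nat_lit 211080, [nat_lit 3422240000, nat_lit 7184660000, nat_lit 10262340000], [], [nat_lit 22463176475, nat_lit 22666274003, nat_lit 23535615569, nat_lit 23712629071, nat_lit 25663202022, nat_lit 25769272693, nat_lit 26384820261, nat_lit 26496263005], nat_lit 1271250, nat_lit 1271250, nat_lit 1271250, nat_lit 1271250, nat_lit 1100001, nat_lit 2812500, [nat_lit 1100000, nat_lit 2127500,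 nat_lit 1271250], [nat_lit 56, nat_lit 40, nat_lit 40, nat_lit 80, nat_lit 32, nat_lit 483, nat_lit 250, nat_lit 10]⟩,
 ⟨nat_lit 1322, nat_lit 1582, ⟨.ofNat (nat_lit 667558), .ofNat (nat_lit 722193), .ofNat (nat_lit 679215), .ofNat (nat_lit 733851), .ofNat (nat_lit 666435), .ofNat (nat_lit 720213), .ofNat (nat_lit 678211), .ofNat (nat_lit 731989)⟩, ⟨.ofNat (nat_lit 274152), .ofNat (nat_lit 328788), .ofNat (nat_lit 297467), .ofNat (nat_lit 352103), .ofNat (nat_lit 274681), .ofNat (nat_lit 328458), .ofNat (nat_lit 298233), .ofNat (nat_lit 352011)⟩⟩, [⟨nat_lit 16, nat_lit 29, nat_lit 100, nat_lit 91, nat_lit 264440016⟩, ⟨nat_lit 19, nat_lit 100, nat_lit 71, nat_lit 93, nat_lit 258492536⟩]⟩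
noncomputable def p117_l126 : Lf2 := ⟨nat_lit 0, nat_lit 30, [nat_lit 15, nat_lit 5, nat_lit 5, nat_lit 20], false, nat_lit 120, nat_lit 160, nat_lit 160, nat_lit 360, ⟨nat_lit 585, nat_lit 415, nat_lit 0, nat_lit 7, nat_lit 276, nat_lit 415, nat_lit 125, nat_lit 0, nat_lit 0, nat_lit 0, nat_lit 0, nat_lit 0, nat_lit 40902940, nat_lit 20298307, nat_lit 5798753, nat_lit 4663079, true, true⟩,
 nat_lit 0, nat_lit 0, nat_lit 6267, nat_lit 0, nat_lit 2941, nat_lit 3481, nat_lit 258, nat_lit 0, nat_lit 0, nat_lit 168, nat_lit 0, nat_lit 0, nat_lit 0, nat_lit 0, nat_lit 0, nat_lit 103750, nat_lit 0, nat_lit 0, [(nat_lit 29, [(nat_lit 0, nat_lit 415)])],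
 ⟨p117_k30, nat_lit 0, nat_lit 0, nat_lit 99, nat_lit 0, nat_lit 0, [nat_lit 873094000, nat_lit 3313686000, nat_lit 4397606000], [], [nat_lit 25575165389, nat_lit 25684589982, nat_lit 26581209685, nat_lit 26684591008, nat_lit 25779866842, nat_lit 25884146156, nat_lit 26743746675, nat_lit 26842525047], nat_lit 0, nat_lit 0, nat_lit 0, nat_lit 0, nat_lit 0, nat_lit 0, [], [nat_lit 55, nat_lit 40, nat_lit 40, nat_lit 80, nat_lit 3, nat_lit 249, nat_lit 40, nat_lit 7]⟩, ⟨p117_k22, nat_lit 0, nat_lit 0, nat_lit 243, nat_lit 0, nat_lit 249700, [nat_lit 2742480000, nat_lit 5757570000, nat_lit 8223930000], [], [nat_lit 20166489880, nat_lit 20329244932, nat_lit 20768075369, nat_lit 20916198854, nat_lit 22730892998, nat_lit 22815896242, nat_lit 23129926984, nat_lit 23219534057], nat_lit 1271250, nat_lit 1271250, nat_lit 1271250, nat_lit 1271250, nat_lit 1100001, nat_lit 2812500, [nat_lit 1100000, nat_lit 2127500, nat_lit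 1271250], [nat_lit 56, nat_lit 40, nat_lit 40, nat_lit 80, nat_lit 32, nat_lit 483, nat_lit 250, nat_lit 10]⟩,
 ⟨nat_lit 1118, nat_lit 1323, ⟨.ofNat (nat_lit 666435), .ofNat (nat_lit 704080), .ofNat (nat_lit 678211), .ofNat (nat_lit 715856), .ofNat (nat_lit 665630), .ofNat (nat_lit 702819), .ofNat (nat_lit 677505), .ofNat (nat_lit 714694)⟩, ⟨.ofNat (nat_lit 274681), .ofNat (nat_lit 328458), .ofNat (nat_lit 298233), .ofNat (nat_lit 352011), .ofNat (nat_lit 274990), .ofNat (nat_lit 328117), .ofNat (nat_lit 298741), .ofNat (nat_lit 351868)⟩⟩, [⟨nat_lit 4, nat_lit 100, nat_lit 25, nat_lit 92, nat_lit 550333171⟩, ⟨nat_lit 19, nat_lit 100, nat_lit 71, nat_lit 93, nat_lit 209236096⟩]⟩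
noncomputable def p117_l127 : Lf2 := ⟨nat_lit 1, nat_lit 30, [nat_lit 15, nat_lit 5, nat_lit 5, nat_lit 20], false, nat_lit 120, nat_lit 160, nat_lit 160, nat_lit 360, zbN0,
 nat_lit 0, nat_lit 0, nat_lit 0, nat_lit 0, nat_lit 0, nat_lit 0, nat_lit 0, nat_lit 0, nat_lit 0, nat_lit 0, nat_lit 0, nat_lit 0, nat_lit 0, nat_lit 0, nat_lit 0, nat_lit 0, nat_lit 0, nat_lit 0, [],
 C1.Rw.none, C1.Rw.none,
 zbF0, []⟩
noncomputable def p117_l128 : Lf2 := ⟨nat_lit 0, nat_lit 30, [nat_lit 15, nat_lit 5, nat_lit 5, nat_lit 20], false, nat_lit 120, nat_lit 160, nat_lit 160, nat_lit 360, ⟨nat_lit 397, nat_lit 521, nat_lit 82, nat_lit 7, nat_lit 274, nat_lit 603, nat_lit 125, nat_lit 82, nat_lit 147267, nat_lit 309, nat_lit 147510, nat_lit 200, nat_lit 41085920, nat_lit 20111342, nat_lit 5802738, nat_lit 4653340, true, true⟩,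
 nat_lit 0, nat_lit 0, nat_lit 4251, nat_lit 0, nat_lit 2937, nat_lit 2361, nat_lit 168, nat_lit 0, nat_lit 0, nat_lit 0, nat_lit 0, nat_lit 0, nat_lit 0, nat_lit 0, nat_lit 0, nat_lit 146240, nat_lit 0, nat_lit 0, [(nat_lit 29, [(nat_lit 0, nat_lit 521), (nat_lit 3, nat_lit 82)])],
 ⟨p117_k23, nat_lit 0, nat_lit 0, nat_lit 102, nat_lit 0, nat_lit 0, [nat_lit 873538801, nat_lit 2467343601, nat_lit 3247800400], [], [nat_lit 25716702296, nat_lit 25990109048, nat_lit 26573558994, nat_lit 26834028010, nat_lit 25917360996, nat_lit 26177983368, nat_lit 26738242847, nat_lit 26987077325], nat_lit 0, nat_lit 0, nat_lit 0, nat_lit 0, nat_lit 0, nat_lit 0, [], [nat_lit 55, nat_lit 40, nat_lit 40, nat_lit 80, nat_lit 3, nat_lit 249, nat_lit 40, nat_lit 7]⟩, ⟨p117_k22, nat_lit 0, nat_lit 0, nat_lit 287, nat_lit 0, nat_lit 350573, [nat_lit 1861136000, nat_lit 3907274000, nat_lit 5581026000], [], [nat_lit 15091863584, nat_lit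 15202304060, nat_lit 15441730994, nat_lit 15543664255, nat_lit 16832142804, nat_lit 16889841070, nat_lit 17060876491, nat_lit 17122782303], nat_lit 1271250, nat_lit 1271250, nat_lit 1271250, nat_lit 1271250, nat_lit 1100001, nat_lit 2812500, [nat_lit 1100000, nat_lit 2127500, nat_lit 1271250], [nat_lit 56, nat_lit 40, nat_lit 40, nat_lit 80, nat_lit 32, nat_lit 483, nat_lit 250, nat_lit 10]⟩,
 ⟨nat_lit 0, nat_lit 1119, ⟨.ofNat (nat_lit 665629), .ofNat (nat_lit 697504), .ofNat (nat_lit 677505), .ofNat (nat_lit 709380), .ofNat (nat_lit 662498), .ofNat (nat_lit 692497), .ofNat (nat_lit 674999), .ofNat (nat_lit 704997)⟩, ⟨.ofNat (nat_lit 274990), .ofNat (nat_lit 328114), .ofNat (nat_lit 298741), .ofNat (nat_lit 351866), .ofNat (nat_lit 274999), .ofNat (nat_lit 324996), .ofNat (nat_lit 299999), .ofNat (nat_lit 349997)⟩⟩, [⟨nat_lit 16, nat_lit 17, nat_lit 100, nat_lit 94, nat_lit 1039668413⟩, ⟨nat_lit 19, nat_lit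 100, nat_lit 71, nat_lit 93, nat_lit 47699627⟩, ⟨nat_lit 22, nat_lit 93, nat_lit 74, nat_lit 100, nat_lit 94684995⟩]⟩
noncomputable def p117_l129 : Lf2 := ⟨nat_lit 0, nat_lit 30, [nat_lit 15, nat_lit 5, nat_lit 5, nat_lit 20], false, nat_lit 80, nat_lit 160, nat_lit 0, nat_lit 160, ⟨nat_lit 703, nat_lit 297, nat_lit 0, nat_lit 7, nat_lit 286, nat_lit 297, nat_lit 108, nat_lit 0, nat_lit 0, nat_lit 0, nat_lit 0, nat_lit 0, nat_lit 40871132, nat_lit 21529468, nat_lit 4599400, nat_lit 4507145, true, true⟩,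
 nat_lit 0, nat_lit 0, nat_lit 11303, nat_lit 0, nat_lit 2965, nat_lit 6579, nat_lit 298, nat_lit 0, nat_lit 0, nat_lit 441, nat_lit 0, nat_lit 0, nat_lit 0, nat_lit 0, nat_lit 0, nat_lit 74250, nat_lit 0, nat_lit 0, [(nat_lit 29, [(nat_lit 0, nat_lit 297)])],
 ⟨p117_k15, nat_lit 0, nat_lit 0, nat_lit 119, nat_lit 0, nat_lit 0, [nat_lit 891549201, nat_lit 3704454801, nat_lit 4924310800], [], [nat_lit 25412585950, nat_lit 25986633760, nat_lit 26926856505, nat_lit 27456524940, nat_lit 25838199731, nat_lit 26351455821, nat_lit 27219483690, nat_lit 27702748520], nat_lit 0, nat_lit 0, nat_lit 0, nat_lit 0, nat_lit 0, nat_lit 0, [], [nat_lit 55, nat_lit 40, nat_lit 40, nat_lit 80, nat_lit 3, nat_lit 249, nat_lit 40, nat_lit 8]⟩, ⟨p117_k5, nat_lit 0, nat_lit 0, nat_lit 482, nat_lit 0, nat_lit 427018, [nat_lit 3295664000, nat_lit 6918926000, nat_lit 9882774000], [], [nat_lit 26826614392, nat_lit 26988599596, nat_lit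 27553093202, nat_lit 27777507692, nat_lit 21729205548, nat_lit 21935868704, nat_lit 22397285260, nat_lit 22556265792], nat_lit 1271250, nat_lit 1271250, nat_lit 1271250, nat_lit 1271250, nat_lit 0, nat_lit 1100001, [nat_lit 1100000, nat_lit 2127500, nat_lit 1271250], [nat_lit 56, nat_lit 40, nat_lit 40, nat_lit 80, nat_lit 32, nat_lit 428, nat_lit 200, nat_lit 10]⟩,
 ⟨nat_lit 0, nat_lit 1582, ⟨.ofNat (nat_lit 679215), .ofNat (nat_lit 733849), .ofNat (nat_lit 702515), .ofNat (nat_lit 757165), .ofNat (nat_lit 674999), .ofNat (nat_lit 724997), .ofNat (nat_lit 699984), .ofNat (nat_lit 749998)⟩, ⟨.ofNat (nat_lit 200000), .ofNat (nat_lit 328785), .ofNat (nat_lit 200000), .ofNat (nat_lit 352101), .ofNat (nat_lit 200000), .ofNat (nat_lit 324996), .ofNat (nat_lit 200000), .ofNat (nat_lit 349997)⟩⟩, [⟨nat_lit 4, nat_lit 100, nat_lit 23, nat_lit 92, nat_lit 635030132⟩]⟩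
noncomputable def p117_l130 : Lf2 := ⟨nat_lit 0, nat_lit 30, [nat_lit 15, nat_lit 5, nat_lit 5, nat_lit 20], false, nat_lit 80, nat_lit 160, nat_lit 160, nat_lit 352, ⟨nat_lit 1000, nat_lit 0, nat_lit 0, nat_lit 0, nat_lit 0, nat_lit 0, nat_lit 0, nat_lit 0, nat_lit 0, nat_lit 0, nat_lit 0, nat_lit 0, nat_lit 0, nat_lit 0, nat_lit 0, nat_lit 0, false, false⟩,
 nat_lit 0, nat_lit 0, nat_lit 10215, nat_lit 0, nat_lit 7049, nat_lit 5946, nat_lit 0, nat_lit 0, nat_lit 0, nat_lit 611, nat_lit 0, nat_lit 0, nat_lit 0, nat_lit 0, nat_lit 0, nat_lit 0, nat_lit 0, nat_lit 0, [],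
 ⟨p117_k15, nat_lit 0, nat_lit 0, nat_lit 115, nat_lit 0, nat_lit 0, [nat_lit 938000000, nat_lit 4688000000, nat_lit 6250000000], [], [nat_lit 31082897990, nat_lit 31356600550, nat_lit 33507560646, nat_lit 33818604138, nat_lit 29936286232, nat_lit 30181546704, nat_lit 31828662531, nat_lit 32108116709], nat_lit 0, nat_lit 0, nat_lit 0, nat_lit 0, nat_lit 0, nat_lit 0, [], [nat_lit 55, nat_lit 40, nat_lit 40, nat_lit 80, nat_lit 3, nat_lit 249, nat_lit 40, nat_lit 8]⟩, ⟨p117_k5, nat_lit 0, nat_lit 0, nat_lit 270, nat_lit 0, nat_lit 305309, [nat_lit 4688000000, nat_lit 9842000000, nat_lit 14058000000], [], [nat_lit 30221884372, nat_lit 30778242196, nat_lit 31654880124, nat_lit 32139819220, nat_lit 34195087547, nat_lit 34499183033, nat_lit 35208016896, nat_lit 35571112220], nat_lit 1271250, nat_lit 1271250, nat_lit 1271250, nat_lit 1271250, nat_lit 1100001, nat_lit 2744000, [nat_lit 1100000, nat_lit 2127500, nat_lit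 1271250], [nat_lit 56, nat_lit 40, nat_lit 40, nat_lit 80, nat_lit 32, nat_lit 483, nat_lit 250, nat_lit 10]⟩,
 zbF0, [⟨nat_lit 4, nat_lit 100, nat_lit 29, nat_lit 91, nat_lit 223847038⟩, ⟨nat_lit 7, nat_lit 78, nat_lit 100, nat_lit 95, nat_lit 346486089⟩]⟩
noncomputable def p117_l131 : Lf2 := ⟨nat_lit 0, nat_lit 30, [nat_lit 15, nat_lit 5, nat_lit 5, nat_lit 20], false, nat_lit 80, nat_lit 160, nat_lit 160, nat_lit 352, ⟨nat_lit 809, nat_lit 191, nat_lit 0, nat_lit 7, nat_lit 287, nat_lit 191, nat_lit 108, nat_lit 0, nat_lit 0, nat_lit 0, nat_lit 0, nat_lit 0, nat_lit 40822532, nat_lit 21566552, nat_lit 4610916, nat_lit 4511247, true, true⟩,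
 nat_lit 0, nat_lit 0, nat_lit 8263, nat_lit 0, nat_lit 3012, nat_lit 4809, nat_lit 330, nat_lit 0, nat_lit 0, nat_lit 494, nat_lit 0, nat_lit 0, nat_lit 0, nat_lit 0, nat_lit 0, nat_lit 47750, nat_lit 0, nat_lit 0, [(nat_lit 29, [(nat_lit 0, nat_lit 191)])],
 ⟨p117_k30, nat_lit 0, nat_lit 0, nat_lit 116, nat_lit 0, nat_lit 0, [nat_lit 908127601, nat_lit 4055484400, nat_lit 5397452400], [], [nat_lit 25320828823, nat_lit 25436417024, nat_lit 27084918012, nat_lit 27214396920, nat_lit 25704982459, nat_lit 25808291921, nat_lit 27256787198, nat_lit 27375005978], nat_lit 0, nat_lit 0, nat_lit 0, nat_lit 0, nat_lit 0, nat_lit 0, [], [nat_lit 55, nat_lit 40, nat_lit 40, nat_lit 80, nat_lit 3, nat_lit 249, nat_lit 40, nat_lit 8]⟩, ⟨p117_k5, nat_lit 0, nat_lit 0, nat_lit 285, nat_lit 0, nat_lit 339650, [nat_lit 3792592000, nat_lit 7962178000, nat_lit 11372922000], [], [nat_lit 24455556564, nat_lit 24905629356, nat_lit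 25614747094, nat_lit 26007054576, nat_lit 27669913244, nat_lit 27914788353, nat_lit 28486254157, nat_lit 28780010240], nat_lit 1271250, nat_lit 1271250, nat_lit 1271250, nat_lit 1271250, nat_lit 1100001, nat_lit 2744000, [nat_lit 1100000, nat_lit 2127500, nat_lit 1271250], [nat_lit 56, nat_lit 40, nat_lit 40, nat_lit 80, nat_lit 32, nat_lit 483, nat_lit 250, nat_lit 10]⟩,
 ⟨nat_lit 1118, nat_lit 1323, ⟨.ofNat (nat_lit 678211), .ofNat (nat_lit 731989), .ofNat (nat_lit 701764), .ofNat (nat_lit 755542), .ofNat (nat_lit 677505), .ofNat (nat_lit 730633), .ofNat (nat_lit 701256), .ofNat (nat_lit 754383)⟩, ⟨.ofNat (nat_lit 200000), .ofNat (nat_lit 328458), .ofNat (nat_lit 200000), .ofNat (nat_lit 352011), .ofNat (nat_lit 200000), .ofNat (nat_lit 328117), .ofNat (nat_lit 200000), .ofNat (nat_lit 351868)⟩⟩, [⟨nat_lit 4, nat_lit 100, nat_lit 25, nat_lit 92, nat_lit 666649980⟩, ⟨nat_lit 7, nat_lit 78, nat_lit 100, nat_lit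 95, nat_lit 273853954⟩]⟩
noncomputable def p117_l132 : Lf2 := ⟨nat_lit 0, nat_lit 30, [nat_lit 15, nat_lit 5, nat_lit 5, nat_lit 20], false, nat_lit 80, nat_lit 160, nat_lit 160, nat_lit 352, ⟨nat_lit 631, nat_lit 369, nat_lit 0, nat_lit 7, nat_lit 282, nat_lit 369, nat_lit 108, nat_lit 0, nat_lit 0, nat_lit 0, nat_lit 0, nat_lit 0, nat_lit 41274195, nat_lit 21089624, nat_lit 4636181, nat_lit 4491820, true, true⟩,
 nat_lit 0, nat_lit 0, nat_lit 6474, nat_lit 0, nat_lit 2813, nat_lit 3768, nat_lit 263, nat_lit 0, nat_lit 0, nat_lit 384, nat_lit 0, nat_lit 0, nat_lit 0, nat_lit 0, nat_lit 0, nat_lit 92250, nat_lit 0, nat_lit 0, [(nat_lit 29, [(nat_lit 0, nat_lit 369)])],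
 ⟨p117_k23, nat_lit 0, nat_lit 0, nat_lit 116, nat_lit 0, nat_lit 0, [nat_lit 880288400, nat_lit 3466019600, nat_lit 4602931600], [], [nat_lit 25406701282, nat_lit 25571698597, nat_lit 26567950084, nat_lit 26722636157, nat_lit 25900911830, nat_lit 26051695472, nat_lit 26970210817, nat_lit 27111907641], nat_lit 0, nat_lit 0, nat_lit 0, nat_lit 0, nat_lit 0, nat_lit 0, [], [nat_lit 55, nat_lit 40, nat_lit 40, nat_lit 80, nat_lit 3, nat_lit 249, nat_lit 40, nat_lit 8]⟩, ⟨p117_k5, nat_lit 0, nat_lit 0, nat_lit 283, nat_lit 0, nat_lit 337780, [nat_lit 2958128000, nat_lit 6210302000, nat_lit 8870598000], [], [nat_lit 19064661260, nat_lit 19240318688, nat_lit 19789045832, nat_lit 19946616297, nat_lit 21571320497, nat_lit 21667544888, nat_lit 22071456027, nat_lit 22170422070], nat_lit 1271250, nat_lit 1271250, nat_lit 1271250, nat_lit 1271250, nat_lit 1100001, nat_lit 2744000, [nat_lit 1100000, nat_lit 2127500, nat_lit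 1271250], [nat_lit 56, nat_lit 40, nat_lit 40, nat_lit 80, nat_lit 32, nat_lit 483, nat_lit 250, nat_lit 10]⟩,
 ⟨nat_lit 707, nat_lit 1119, ⟨.ofNat (nat_lit 677505), .ofNat (nat_lit 720007), .ofNat (nat_lit 689381), .ofNat (nat_lit 731883), .ofNat (nat_lit 676323), .ofNat (nat_lit 717841), .ofNat (nat_lit 688411), .ofNat (nat_lit 729929)⟩, ⟨.ofNat (nat_lit 200000), .ofNat (nat_lit 328117), .ofNat (nat_lit 200000), .ofNat (nat_lit 351868), .ofNat (nat_lit 200000), .ofNat (nat_lit 327218), .ofNat (nat_lit 200000), .ofNat (nat_lit 351395)⟩⟩, [⟨nat_lit 16, nat_lit 19, nat_lit 100, nat_lit 93, nat_lit 718790240⟩, ⟨nat_lit 19, nat_lit 100, nat_lit 76, nat_lit 94, nat_lit 217579891⟩]⟩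
noncomputable def p117_l133 : Lf2 := ⟨nat_lit 0, nat_lit 30, [nat_lit 15, nat_lit 5, nat_lit 5, nat_lit 20], false, nat_lit 80, nat_lit 148, nat_lit 160, nat_lit 352, ⟨nat_lit 496, nat_lit 504, nat_lit 0, nat_lit 7, nat_lit 277, nat_lit 504, nat_lit 105, nat_lit 0, nat_lit 0, nat_lit 0, nat_lit 0, nat_lit 0, nat_lit 41858877, nat_lit 20682565, nat_lit 4458558, nat_lit 4434831, true, true⟩,
 nat_lit 0, nat_lit 0, nat_lit 5048, nat_lit 0, nat_lit 3066, nat_lit 2938, nat_lit 119, nat_lit 0, nat_lit 0, nat_lit 301, nat_lit 0, nat_lit 0, nat_lit 0, nat_lit 0, nat_lit 0, nat_lit 126000, nat_lit 0, nat_lit 0, [(nat_lit 29, [(nat_lit 0, nat_lit 504)])],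
 ⟨p117_k31, nat_lit 0, nat_lit 0, nat_lit 92, nat_lit 0, nat_lit 0, [nat_lit 859174401, nat_lit 3018953600], [], [nat_lit 25829690931, nat_lit 25953258880, nat_lit 26460621152, nat_lit 26580093284, nat_lit 26156506488, nat_lit 26269616831, nat_lit 26742868533, nat_lit 26853383864], nat_lit 0, nat_lit 0, nat_lit 0, nat_lit 0, nat_lit 0, nat_lit 0, [], [nat_lit 86, nat_lit 40, nat_lit 40, nat_lit 80, nat_lit 87, nat_lit 249, nat_lit 40, nat_lit 9]⟩, ⟨p117_k5, nat_lit 0, nat_lit 0, nat_lit 296, nat_lit 0, nat_lit 373883, [nat_lit 2325248000, nat_lit 4881632000, nat_lit 6972768000], [], [nat_lit 15035158060, nat_lit 15173046508, nat_lit 15319112630, nat_lit 15449937579, nat_lit 17006168249, nat_lit 17081323878, nat_lit 17179233642, nat_lit 17251667456], nat_lit 1271250, nat_lit 1271250, nat_lit 1271250, nat_lit 1271250, nat_lit 1100001, nat_lit 2744000, [nat_lit 1100000, nat_lit 2127500, nat_lit 1271250], [nat_lit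 56, nat_lit 40, nat_lit 40, nat_lit 80, nat_lit 32, nat_lit 483, nat_lit 250, nat_lit 10]⟩,
 ⟨nat_lit 0, nat_lit 708, ⟨.ofNat (nat_lit 676323), .ofNat (nat_lit 697081), .ofNat (nat_lit 688411), .ofNat (nat_lit 709170), .ofNat (nat_lit 674999), .ofNat (nat_lit 694998), .ofNat (nat_lit 687499), .ofNat (nat_lit 707499)⟩, ⟨.ofNat (nat_lit 200000), .ofNat (nat_lit 311647), .ofNat (nat_lit 200000), .ofNat (nat_lit 335825), .ofNat (nat_lit 200000), .ofNat (nat_lit 309997), .ofNat (nat_lit 200000), .ofNat (nat_lit 334997)⟩⟩, [⟨nat_lit 4, nat_lit 100, nat_lit 11, nat_lit 96, nat_lit 1172003885⟩, ⟨nat_lit 19, nat_lit 100, nat_lit 76, nat_lit 94, nat_lit 129089042⟩, ⟨nat_lit 22, nat_lit 99, nat_lit 87, nat_lit 100, nat_lit 41261203⟩]⟩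
noncomputable def p117_l134 : Lf2 := ⟨nat_lit 0, nat_lit 30, [nat_lit 15, nat_lit 5, nat_lit 5, nat_lit 20], false, nat_lit 80, nat_lit 160, nat_lit 160, nat_lit 344, ⟨nat_lit 1000, nat_lit 0, nat_lit 0, nat_lit 0, nat_lit 0, nat_lit 0, nat_lit 0, nat_lit 0, nat_lit 0, nat_lit 0, nat_lit 0, nat_lit 0, nat_lit 0, nat_lit 0, nat_lit 0, nat_lit 0, false, false⟩,
 nat_lit 0, nat_lit 0, nat_lit 9825, nat_lit 0, nat_lit 3070, nat_lit 5983, nat_lit 360, nat_lit 0, nat_lit 0, nat_lit 638, nat_lit 0, nat_lit 0, nat_lit 0, nat_lit 0, nat_lit 0, nat_lit 0, nat_lit 0, nat_lit 0, [],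
 ⟨p117_k23, nat_lit 0, nat_lit 0, nat_lit 118, nat_lit 0, nat_lit 0, [nat_lit 938000000, nat_lit 4688000000, nat_lit 6250000000], [], [nat_lit 25559126390, nat_lit 25733950004, nat_lit 27312259450, nat_lit 27508156253, nat_lit 25911608950, nat_lit 26067791596, nat_lit 27445683705, nat_lit 27624479131], nat_lit 0, nat_lit 0, nat_lit 0, nat_lit 0, nat_lit 0, nat_lit 0, [], [nat_lit 55, nat_lit 40, nat_lit 40, nat_lit 80, nat_lit 3, nat_lit 249, nat_lit 40, nat_lit 8]⟩, ⟨p117_k28, nat_lit 0, nat_lit 0, nat_lit 296, nat_lit 0, nat_lit 366175, [nat_lit 4688000000, nat_lit 9842000000, nat_lit 14058000000], [], [nat_lit 29516221682, nat_lit 29794691858, nat_lit 30916234156, nat_lit 31158819810, nat_lit 33088873624, nat_lit 33245901994, nat_lit 34158964001, nat_lit 34346994068], nat_lit 1271250, nat_lit 1271250, nat_lit 1271250, nat_lit 1271250, nat_lit 1100001, nat_lit 2675500, [nat_lit 1100000, nat_lit 2127500,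 nat_lit 1271250], [nat_lit 56, nat_lit 40, nat_lit 40, nat_lit 80, nat_lit 32, nat_lit 483, nat_lit 250, nat_lit 10]⟩,
 zbF0, [⟨nat_lit 4, nat_lit 100, nat_lit 19, nat_lit 93, nat_lit 1057434545⟩, ⟨nat_lit 19, nat_lit 100, nat_lit 81, nat_lit 96, nat_lit 337636499⟩]⟩
noncomputable def p117_l135 : Lf2 := ⟨nat_lit 0, nat_lit 30, [nat_lit 15, nat_lit 5, nat_lit 5, nat_lit 20], false, nat_lit 80, nat_lit 148, nat_lit 160, nat_lit 344, ⟨nat_lit 251, nat_lit 749, nat_lit 0, nat_lit 7, nat_lit 285, nat_lit 749, nat_lit 105, nat_lit 0, nat_lit 0, nat_lit 0, nat_lit 0, nat_lit 0, nat_lit 41137247, nat_lit 21450771, nat_lit 4411982, nat_lit 4466087, true, true⟩,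
 nat_lit 0, nat_lit 0, nat_lit 3432, nat_lit 0, nat_lit 2945, nat_lit 2090, nat_lit 68, nat_lit 0, nat_lit 0, nat_lit 149, nat_lit 0, nat_lit 0, nat_lit 0, nat_lit 0, nat_lit 0, nat_lit 187250, nat_lit 0, nat_lit 0, [(nat_lit 29, [(nat_lit 0, nat_lit 749)])],
 ⟨p117_k31, nat_lit 0, nat_lit 0, nat_lit 94, nat_lit 0, nat_lit 0, [nat_lit 820856400, nat_lit 2207611600], [], [nat_lit 25670636159, nat_lit 25792009700, nat_lit 26767408888, nat_lit 26899314443, nat_lit 26083423595, nat_lit 26188401955, nat_lit 27054568437, nat_lit 27159485062], nat_lit 0, nat_lit 0, nat_lit 0, nat_lit 0, nat_lit 0, nat_lit 0, [], [nat_lit 86, nat_lit 40, nat_lit 40, nat_lit 80, nat_lit 87, nat_lit 249, nat_lit 40, nat_lit 9]⟩, ⟨p117_k28, nat_lit 0, nat_lit 0, nat_lit 309, nat_lit 0, nat_lit 398976, [nat_lit 1176688000, nat_lit 2470342000, nat_lit 3528558000], [], [nat_lit 7711514276, nat_lit 7761645931, nat_lit 7912905128, nat_lit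 7956489733, nat_lit 8220656035, nat_lit 8243265014, nat_lit 8361446853, nat_lit 8393693716], nat_lit 1271250, nat_lit 1271250, nat_lit 1271250, nat_lit 1271250, nat_lit 1100001, nat_lit 2675500, [nat_lit 1100000, nat_lit 2127500, nat_lit 1271250], [nat_lit 56, nat_lit 40, nat_lit 40, nat_lit 80, nat_lit 32, nat_lit 483, nat_lit 250, nat_lit 10]⟩,
 ⟨nat_lit 0, nat_lit 708, ⟨.ofNat (nat_lit 688411), .ofNat (nat_lit 724739), .ofNat (nat_lit 700499), .ofNat (nat_lit 736827), .ofNat (nat_lit 687499), .ofNat (nat_lit 722498), .ofNat (nat_lit 699998), .ofNat (nat_lit 734998)⟩, ⟨.ofNat (nat_lit 200000), .ofNat (nat_lit 311647), .ofNat (nat_lit 200000), .ofNat (nat_lit 335825), .ofNat (nat_lit 200000), .ofNat (nat_lit 309997), .ofNat (nat_lit 200000), .ofNat (nat_lit 334997)⟩⟩, [⟨nat_lit 13, nat_lit 15, nat_lit 93, nat_lit 100, nat_lit 670536799⟩, ⟨nat_lit 16, nat_lit 15, nat_lit 100, nat_lit 95, nat_lit 295771326⟩,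 ⟨nat_lit 7, nat_lit 81, nat_lit 100, nat_lit 96, nat_lit 72562420⟩]⟩
noncomputable def p117_l136 : Lf2 := ⟨nat_lit 1, nat_lit 30, [nat_lit 15, nat_lit 5, nat_lit 5, nat_lit 20], false, nat_lit 80, nat_lit 160, nat_lit 0, nat_lit 364, zbN0,
 nat_lit 0, nat_lit 0, nat_lit 0, nat_lit 0, nat_lit 0, nat_lit 0, nat_lit 0, nat_lit 0, nat_lit 0, nat_lit 0, nat_lit 0, nat_lit 0, nat_lit 0, nat_lit 0, nat_lit 0, nat_lit 0, nat_lit 0, nat_lit 0, [],
 C1.Rw.none, C1.Rw.none,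
 zbF0, []⟩
noncomputable def b_V_900_600_20_78 : St := ⟨true, nat_lit 0, nat_lit 1, nat_lit 1, nat_lit 120, nat_lit 390, nat_lit 400, nat_lit 240, nat_lit 280, nat_lit 280, nat_lit 320, nat_lit 80, nat_lit 120, nat_lit 80, nat_lit 160, nat_lit 0, nat_lit 364, nat_lit 120, nat_lit 156, nat_lit 0, nat_lit 0, nat_lit 0, nat_lit 0⟩
theorem d_V_900_600_20_78 (h : EB TB.env) : Dead b_V_900_600_20_78 := chkB_sound0 h (T :=
(.spl (nat_lit 3) (nat_lit 100)
(.trX (nat_lit 19) (nat_lit 100) (nat_lit 68) (nat_lit 88) (nat_lit 352) (.spl (nat_lit 6) (nat_lit 144)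
(.spl (nat_lit 1) (nat_lit 260)
(.leaf p117_l115)
(.trX (nat_lit 19) (nat_lit 100) (nat_lit 77) (nat_lit 91) (nat_lit 336) (.leaf p117_l116)))
(.leaf p117_l117)))
(.spl (nat_lit 6) (nat_lit 144)
(.spl (nat_lit 1) (nat_lit 260)
(.spl (nat_lit 5) (nat_lit 160)
(.leaf p117_l118)
(.spl (nat_lit 1) (nat_lit 250)
(.trX (nat_lit 13) (nat_lit 32) (nat_lit 87) (nat_lit 100) (nat_lit 308) (.spl (nat_lit 6) (nat_lit 136)
(.spl (nat_lit 4) (nat_lit 120)
(.trX (nat_lit 22) (nat_lit 100) (nat_lit 80) (nat_lit 100) (nat_lit 336) (.leaf p117_l119))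
(.spl (nat_lit 0) (nat_lit 395)
(.spl (nat_lit 0) (nat_lit 393)
(.leaf p117_l120)
(.trX (nat_lit 13) (nat_lit 27) (nat_lit 90) (nat_lit 100) (nat_lit 300) (.leaf p117_l121)))
(.trX (nat_lit 13) (nat_lit 23) (nat_lit 92) (nat_lit 100) (nat_lit 292) (.leaf p117_l122))))
(.leaf p117_l123)))
(.trX (nat_lit 19) (nat_lit 100) (nat_lit 64) (nat_lit 95) (nat_lit 360) (.spl (nat_lit 4) (nat_lit 120)
(.trX (nat_lit 22) (nat_lit 100) (nat_lit 80) (nat_lit 100) (nat_lit 336) (.leaf p117_l124))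
(.spl (nat_lit 0) (nat_lit 395)
(.spl (nat_lit 6) (nat_lit 136)
(.spl (nat_lit 0) (nat_lit 393)
(.leaf p117_l125)
(.trX (nat_lit 13) (nat_lit 27) (nat_lit 88) (nat_lit 100) (nat_lit 308) (.leaf p117_l126)))
(.leaf p117_l127))
(.trX (nat_lit 13) (nat_lit 23) (nat_lit 91) (nat_lit 100) (nat_lit 304) (.leaf p117_l128)))))))
(.trX (nat_lit 19) (nat_lit 100) (nat_lit 69) (nat_lit 96) (nat_lit 352) (.spl (nat_lit 5) (nat_lit 160)
(.leaf p117_l129)
(.spl (nat_lit 0) (nat_lit 395)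
(.spl (nat_lit 0) (nat_lit 393)
(.leaf p117_l130)
(.leaf p117_l131))
(.spl (nat_lit 1) (nat_lit 270)
(.trX (nat_lit 13) (nat_lit 24) (nat_lit 89) (nat_lit 100) (nat_lit 312) (.spl (nat_lit 0) (nat_lit 398)
(.leaf p117_l132)
(.trX (nat_lit 13) (nat_lit 15) (nat_lit 94) (nat_lit 100) (nat_lit 296) (.trX (nat_lit 16) (nat_lit 15) (nat_lit 100) (nat_lit 95) (nat_lit 148) (.leaf p117_l133)))))
(.trX (nat_lit 19) (nat_lit 100) (nat_lit 74) (nat_lit 98) (nat_lit 344) (.spl (nat_lit 0) (nat_lit 398)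
(.leaf p117_l134)
(.trX (nat_lit 13) (nat_lit 15) (nat_lit 93) (nat_lit 100) (nat_lit 308) (.trX (nat_lit 16) (nat_lit 15) (nat_lit 100) (nat_lit 95) (nat_lit 148) (.leaf p117_l135))))))))))
(.leaf p117_l136)))) (by decide +kernel)
noncomputable def p117_l137 : Lf2 := ⟨nat_lit 0, nat_lit 25, [nat_lit 44, nat_lit 5, nat_lit 5, nat_lit 20], false, nat_lit 80, nat_lit 160, nat_lit 0, nat_lit 336, ⟨nat_lit 1000, nat_lit 0, nat_lit 0, nat_lit 0, nat_lit 0, nat_lit 0, nat_lit 0, nat_lit 0, nat_lit 0, nat_lit 0, nat_lit 0, nat_lit 0, nat_lit 0, nat_lit 0, nat_lit 0, nat_lit 0, false, false⟩,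
 nat_lit 0, nat_lit 0, nat_lit 18520, nat_lit 0, nat_lit 6662, nat_lit 9804, nat_lit 0, nat_lit 0, nat_lit 0, nat_lit 533, nat_lit 0, nat_lit 0, nat_lit 0, nat_lit 0, nat_lit 0, nat_lit 0, nat_lit 0, nat_lit 0, [],
 ⟨p117_k10, nat_lit 0, nat_lit 0, nat_lit 124, nat_lit 0, nat_lit 0, [nat_lit 938000000, nat_lit 4688000000, nat_lit 6250000000], [], [nat_lit 32284966484, nat_lit 33873495304, nat_lit 33490577162, nat_lit 35260862612, nat_lit 31154874008, nat_lit 32583247696, nat_lit 32238431792, nat_lit 33591063692], nat_lit 0, nat_lit 0, nat_lit 0, nat_lit 0, nat_lit 0, nat_lit 0, [], [nat_lit 55, nat_lit 40, nat_lit 40, nat_lit 80, nat_lit 3, nat_lit 249, nat_lit 40, nat_lit 8]⟩, ⟨p117_k11, nat_lit 0, nat_lit 0, nat_lit 459, nat_lit 0, nat_lit 361566, [nat_lit 4688000000, nat_lit 9842000000, nat_lit 14058000000], [], [nat_lit 43407421600, nat_lit 43617956984, nat_lit 44153230360, nat_lit 44320719000, nat_lit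 34666486757, nat_lit 34729118357, nat_lit 35276832081, nat_lit 35498299528], nat_lit 1271250, nat_lit 1271250, nat_lit 1271250, nat_lit 1271250, nat_lit 0, nat_lit 2373000, [nat_lit 1100000, nat_lit 2127500, nat_lit 1271250], [nat_lit 56, nat_lit 40, nat_lit 40, nat_lit 80, nat_lit 32, nat_lit 483, nat_lit 250, nat_lit 11]⟩,
 zbF0, [⟨nat_lit 13, nat_lit 32, nat_lit 87, nat_lit 100, nat_lit 3252996306⟩, ⟨nat_lit 4, nat_lit 100, nat_lit 32, nat_lit 87, nat_lit 462220089⟩, ⟨nat_lit 22, nat_lit 82, nat_lit 76, nat_lit 100, nat_lit 69538132⟩]⟩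
noncomputable def p117_l138 : Lf2 := ⟨nat_lit 0, nat_lit 25, [nat_lit 44, nat_lit 5, nat_lit 5, nat_lit 20], false, nat_lit 80, nat_lit 160, nat_lit 0, nat_lit 336, ⟨nat_lit 1000, nat_lit 0, nat_lit 0, nat_lit 0, nat_lit 0, nat_lit 0, nat_lit 0, nat_lit 0, nat_lit 0, nat_lit 0, nat_lit 0, nat_lit 0, nat_lit 0, nat_lit 0, nat_lit 0, nat_lit 0, false, false⟩,
 nat_lit 0, nat_lit 0, nat_lit 15005, nat_lit 0, nat_lit 6496, nat_lit 8734, nat_lit 0, nat_lit 0, nat_lit 0, nat_lit 553, nat_lit 0, nat_lit 0, nat_lit 0, nat_lit 0, nat_lit 0, nat_lit 0, nat_lit 0, nat_lit 0, [],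
 ⟨p117_k10, nat_lit 0, nat_lit 0, nat_lit 123, nat_lit 0, nat_lit 0, [nat_lit 938000000, nat_lit 4688000000, nat_lit 6250000000], [], [nat_lit 32264186272, nat_lit 33046489552, nat_lit 34168045831, nat_lit 34882945655, nat_lit 31199978864, nat_lit 31903797016, nat_lit 32912335140, nat_lit 33556818009], nat_lit 0, nat_lit 0, nat_lit 0, nat_lit 0, nat_lit 0, nat_lit 0, [], [nat_lit 55, nat_lit 40, nat_lit 40, nat_lit 80, nat_lit 3, nat_lit 249, nat_lit 40, nat_lit 8]⟩, ⟨p117_k29, nat_lit 0, nat_lit 0, nat_lit 413, nat_lit 0, nat_lit 241879, [nat_lit 4688000000, nat_lit 9842000000, nat_lit 14058000000], [], [nat_lit 40559180964, nat_lit 40961988604, nat_lit 41979147089, nat_lit 42305322057, nat_lit 34207814383, nat_lit 34301696653, nat_lit 35200849300, nat_lit 35418580043], nat_lit 1271250, nat_lit 1271250, nat_lit 1271250, nat_lit 1271250, nat_lit 0, nat_lit 2373000, [nat_lit 1100000, nat_lit 2127500, nat_lit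 1271250], [nat_lit 56, nat_lit 40, nat_lit 40, nat_lit 80, nat_lit 32, nat_lit 483, nat_lit 250, nat_lit 11]⟩,
 zbF0, [⟨nat_lit 13, nat_lit 33, nat_lit 85, nat_lit 100, nat_lit 106696418⟩, ⟨nat_lit 16, nat_lit 39, nat_lit 100, nat_lit 85, nat_lit 250725060⟩, ⟨nat_lit 19, nat_lit 100, nat_lit 86, nat_lit 89, nat_lit 97665699⟩]⟩
noncomputable def p117_l139 : Lf2 := ⟨nat_lit 0, nat_lit 25, [nat_lit 44, nat_lit 5, nat_lit 5, nat_lit 20], false, nat_lit 80, nat_lit 160, nat_lit 0, nat_lit 336, ⟨nat_lit 1000, nat_lit 0, nat_lit 0, nat_lit 0, nat_lit 0, nat_lit 0, nat_lit 0, nat_lit 0, nat_lit 0, nat_lit 0, nat_lit 0, nat_lit 0, nat_lit 0, nat_lit 0, nat_lit 0, nat_lit 0, false, false⟩,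
 nat_lit 0, nat_lit 0, nat_lit 15643, nat_lit 0, nat_lit 3229, nat_lit 9105, nat_lit 0, nat_lit 0, nat_lit 0, nat_lit 594, nat_lit 0, nat_lit 0, nat_lit 0, nat_lit 0, nat_lit 0, nat_lit 0, nat_lit 0, nat_lit 0, [],
 ⟨p117_k26, nat_lit 0, nat_lit 0, nat_lit 98, nat_lit 0, nat_lit 0, [nat_lit 938000000, nat_lit 4688000000], [], [nat_lit 30249322577, nat_lit 30828834272, nat_lit 30974194435, nat_lit 31532514545, nat_lit 30478925406, nat_lit 31007059744, nat_lit 31143064141, nat_lit 31653313732], nat_lit 0, nat_lit 0, nat_lit 0, nat_lit 0, nat_lit 0, nat_lit 0, [], [nat_lit 86, nat_lit 40, nat_lit 40, nat_lit 80, nat_lit 87, nat_lit 249, nat_lit 40, nat_lit 9]⟩, ⟨p117_k29, nat_lit 0, nat_lit 0, nat_lit 477, nat_lit 0, nat_lit 418683, [nat_lit 4688000000, nat_lit 9842000000, nat_lit 14058000000], [], [nat_lit 40091473710, nat_lit 40259330860, nat_lit 40536330499, nat_lit 40814819612, nat_lit 33547372391, nat_lit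 33579096752, nat_lit 33899941243, nat_lit 34143957325], nat_lit 1271250, nat_lit 1271250, nat_lit 1271250, nat_lit 1271250, nat_lit 0, nat_lit 2373000, [nat_lit 1100000, nat_lit 2127500, nat_lit 1271250], [nat_lit 56, nat_lit 40, nat_lit 40, nat_lit 80, nat_lit 32, nat_lit 483, nat_lit 250, nat_lit 11]⟩,
 zbF0, [⟨nat_lit 13, nat_lit 24, nat_lit 89, nat_lit 100, nat_lit 2375331587⟩, ⟨nat_lit 4, nat_lit 100, nat_lit 24, nat_lit 89, nat_lit 1256896747⟩, ⟨nat_lit 22, nat_lit 84, nat_lit 98, nat_lit 100, nat_lit 107124048⟩]⟩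
noncomputable def p117_l140 : Lf2 := ⟨nat_lit 1, nat_lit 25, [nat_lit 44, nat_lit 5, nat_lit 5, nat_lit 20], false, nat_lit 80, nat_lit 160, nat_lit 0, nat_lit 336, zbN0,
 nat_lit 0, nat_lit 0, nat_lit 0, nat_lit 0, nat_lit 0, nat_lit 0, nat_lit 0, nat_lit 0, nat_lit 0, nat_lit 0, nat_lit 0, nat_lit 0, nat_lit 0, nat_lit 0, nat_lit 0, nat_lit 0, nat_lit 0, nat_lit 0, [],
 C1.Rw.none, C1.Rw.none,
 zbF0, []⟩
noncomputable def p117_l141 : Lf2 := ⟨nat_lit 0, nat_lit 30, [nat_lit 15, nat_lit 5, nat_lit 5, nat_lit 20], false, nat_lit 80, nat_lit 160, nat_lit 0, nat_lit 336, ⟨nat_lit 1000, nat_lit 0, nat_lit 0, nat_lit 0, nat_lit 0, nat_lit 0, nat_lit 0, nat_lit 0, nat_lit 0, nat_lit 0, nat_lit 0, nat_lit 0, nat_lit 0, nat_lit 0, nat_lit 0, nat_lit 0, false, false⟩,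
 nat_lit 0, nat_lit 0, nat_lit 20659, nat_lit 0, nat_lit 3071, nat_lit 10937, nat_lit 520, nat_lit 0, nat_lit 0, nat_lit 721, nat_lit 0, nat_lit 0, nat_lit 0, nat_lit 0, nat_lit 0, nat_lit 0, nat_lit 0, nat_lit 0, [],
 ⟨p117_k0, nat_lit 0, nat_lit 0, nat_lit 139, nat_lit 0, nat_lit 0, [nat_lit 938000000, nat_lit 4688000000, nat_lit 7968000000], [], [nat_lit 26599562332, nat_lit 27640489636, nat_lit 27086817334, nat_lit 28227293782, nat_lit 26827382362, nat_lit 27747625712, nat_lit 27275310236, nat_lit 28285256845], nat_lit 0, nat_lit 0, nat_lit 0, nat_lit 0, nat_lit 0, nat_lit 0, [], [nat_lit 57, nat_lit 40, nat_lit 40, nat_lit 80, nat_lit 7, nat_lit 249, nat_lit 40, nat_lit 7]⟩, ⟨p117_k1, nat_lit 0, nat_lit 0, nat_lit 497, nat_lit 0, nat_lit 330234, [nat_lit 4688000000, nat_lit 9842000000, nat_lit 16400000000], [], [nat_lit 41905716307, nat_lit 42193446899, nat_lit 42750227007, nat_lit 43015101645, nat_lit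 32368335460, nat_lit 32435096448, nat_lit 32880441637, nat_lit 33096950820], nat_lit 1271250, nat_lit 1271250, nat_lit 1271250, nat_lit 1271250, nat_lit 0, nat_lit 2373000, [nat_lit 1100000, nat_lit 2127500, nat_lit 1271250], [nat_lit 83, nat_lit 40, nat_lit 40, nat_lit 80, nat_lit 73, nat_lit 483, nat_lit 250, nat_lit 10]⟩,
 zbF0, [⟨nat_lit 13, nat_lit 45, nat_lit 79, nat_lit 100, nat_lit 4022026158⟩, ⟨nat_lit 22, nat_lit 82, nat_lit 76, nat_lit 100, nat_lit 53884208⟩]⟩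
noncomputable def p117_l142 : Lf2 := ⟨nat_lit 0, nat_lit 30, [nat_lit 15, nat_lit 5, nat_lit 5, nat_lit 20], false, nat_lit 80, nat_lit 160, nat_lit 0, nat_lit 336, ⟨nat_lit 1000, nat_lit 0, nat_lit 0, nat_lit 0, nat_lit 0, nat_lit 0, nat_lit 0, nat_lit 0, nat_lit 0, nat_lit 0, nat_lit 0, nat_lit 0, nat_lit 0, nat_lit 0, nat_lit 0, nat_lit 0, false, false⟩,
 nat_lit 0, nat_lit 0, nat_lit 16812, nat_lit 0, nat_lit 3096, nat_lit 9340, nat_lit 527, nat_lit 0, nat_lit 0, nat_lit 548, nat_lit 0, nat_lit 0, nat_lit 0, nat_lit 0, nat_lit 0, nat_lit 0, nat_lit 0, nat_lit 0, [],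
 ⟨p117_k0, nat_lit 0, nat_lit 0, nat_lit 137, nat_lit 0, nat_lit 0, [nat_lit 938000000, nat_lit 4688000000, nat_lit 7968000000], [], [nat_lit 26496765882, nat_lit 27028380184, nat_lit 27417656448, nat_lit 28041198072, nat_lit 26714409162, nat_lit 27178278224, nat_lit 27539065896, nat_lit 28109262444], nat_lit 0, nat_lit 0, nat_lit 0, nat_lit 0, nat_lit 0, nat_lit 0, [], [nat_lit 57, nat_lit 40, nat_lit 40, nat_lit 80, nat_lit 7, nat_lit 249, nat_lit 40, nat_lit 7]⟩, ⟨p117_k22, nat_lit 0, nat_lit 0, nat_lit 381, nat_lit 0, nat_lit 155182, [nat_lit 4688000000, nat_lit 9842000000, nat_lit 14058000000], [], [nat_lit 42392650820, nat_lit 42502756640, nat_lit 43104490800, nat_lit 43193940000, nat_lit 34249553476, nat_lit 34286848425, nat_lit 34929726607, nat_lit 35045076712], nat_lit 1271250, nat_lit 1271250, nat_lit 1271250, nat_lit 1271250, nat_lit 0, nat_lit 2373000, [nat_lit 1100000, nat_lit 2127500, nat_lit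 1271250], [nat_lit 56, nat_lit 40, nat_lit 40, nat_lit 80, nat_lit 32, nat_lit 483, nat_lit 250, nat_lit 11]⟩,
 zbF0, [⟨nat_lit 13, nat_lit 32, nat_lit 87, nat_lit 100, nat_lit 2299651076⟩, ⟨nat_lit 22, nat_lit 82, nat_lit 76, nat_lit 100, nat_lit 81946279⟩]⟩
noncomputable def p117_l143 : Lf2 := ⟨nat_lit 0, nat_lit 30, [nat_lit 15, nat_lit 5, nat_lit 5, nat_lit 20], false, nat_lit 80, nat_lit 160, nat_lit 0, nat_lit 336, ⟨nat_lit 1000, nat_lit 0, nat_lit 0, nat_lit 0, nat_lit 0, nat_lit 0, nat_lit 0, nat_lit 0, nat_lit 0, nat_lit 0, nat_lit 0, nat_lit 0, nat_lit 0, nat_lit 0, nat_lit 0, nat_lit 0, false, false⟩,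
 nat_lit 0, nat_lit 0, nat_lit 15244, nat_lit 0, nat_lit 3087, nat_lit 8873, nat_lit 527, nat_lit 0, nat_lit 0, nat_lit 578, nat_lit 0, nat_lit 0, nat_lit 0, nat_lit 0, nat_lit 0, nat_lit 0, nat_lit 0, nat_lit 0, [],
 ⟨p117_k0, nat_lit 0, nat_lit 0, nat_lit 138, nat_lit 0, nat_lit 0, [nat_lit 938000000, nat_lit 4688000000, nat_lit 7968000000], [], [nat_lit 26495830854, nat_lit 26747418260, nat_lit 28028781548, nat_lit 28330584342, nat_lit 26717137764, nat_lit 26947646002, nat_lit 28103009193, nat_lit 28379379795], nat_lit 0, nat_lit 0, nat_lit 0, nat_lit 0, nat_lit 0, nat_lit 0, [], [nat_lit 57, nat_lit 40, nat_lit 40, nat_lit 80, nat_lit 7, nat_lit 249, nat_lit 40, nat_lit 7]⟩, ⟨p117_k5, nat_lit 0, nat_lit 0, nat_lit 386, nat_lit 0, nat_lit 168631, [nat_lit 4688000000, nat_lit 9842000000, nat_lit 14058000000], [], [nat_lit 40090973808, nat_lit 40493150388, nat_lit 41521068474, nat_lit 41845582670, nat_lit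 33687053452, nat_lit 33902691412, nat_lit 34811362075, nat_lit 35025992918], nat_lit 1271250, nat_lit 1271250, nat_lit 1271250, nat_lit 1271250, nat_lit 0, nat_lit 2373000, [nat_lit 1100000, nat_lit 2127500, nat_lit 1271250], [nat_lit 56, nat_lit 40, nat_lit 40, nat_lit 80, nat_lit 32, nat_lit 483, nat_lit 250, nat_lit 11]⟩,
 zbF0, [⟨nat_lit 7, nat_lit 78, nat_lit 100, nat_lit 95, nat_lit 92548033⟩]⟩
noncomputable def p117_l144 : Lf2 := ⟨nat_lit 0, nat_lit 30, [nat_lit 15, nat_lit 5, nat_lit 5, nat_lit 20], false, nat_lit 80, nat_lit 160, nat_lit 0, nat_lit 336, ⟨nat_lit 1000, nat_lit 0, nat_lit 0, nat_lit 0, nat_lit 0, nat_lit 0, nat_lit 0, nat_lit 0, nat_lit 0, nat_lit 0, nat_lit 0, nat_lit 0, nat_lit 0, nat_lit 0, nat_lit 0, nat_lit 0, false, false⟩,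
 nat_lit 0, nat_lit 0, nat_lit 15005, nat_lit 0, nat_lit 6790, nat_lit 8734, nat_lit 0, nat_lit 0, nat_lit 0, nat_lit 553, nat_lit 0, nat_lit 0, nat_lit 0, nat_lit 0, nat_lit 0, nat_lit 0, nat_lit 0, nat_lit 0, [],
 ⟨p117_k16, nat_lit 0, nat_lit 0, nat_lit 121, nat_lit 0, nat_lit 0, [nat_lit 938000000, nat_lit 4688000000, nat_lit 6250000000], [], [nat_lit 32702733505, nat_lit 33104477230, nat_lit 34366698621, nat_lit 34837191854, nat_lit 31481185350, nat_lit 31842276340, nat_lit 32770707348, nat_lit 33108712001], nat_lit 0, nat_lit 0, nat_lit 0, nat_lit 0, nat_lit 0, nat_lit 0, [], [nat_lit 55, nat_lit 40, nat_lit 40, nat_lit 80, nat_lit 3, nat_lit 249, nat_lit 40, nat_lit 8]⟩, ⟨p117_k5, nat_lit 0, nat_lit 0, nat_lit 416, nat_lit 0, nat_lit 251752, [nat_lit 4688000000, nat_lit 9842000000, nat_lit 14058000000], [], [nat_lit 40559180964, nat_lit 40961988604, nat_lit 41624155558, nat_lit 41969488694, nat_lit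 34207814383, nat_lit 34301696653, nat_lit 34904849901, nat_lit 35139265829], nat_lit 1271250, nat_lit 1271250, nat_lit 1271250, nat_lit 1271250, nat_lit 0, nat_lit 2373000, [nat_lit 1100000, nat_lit 2127500, nat_lit 1271250], [nat_lit 56, nat_lit 40, nat_lit 40, nat_lit 80, nat_lit 32, nat_lit 483, nat_lit 250, nat_lit 11]⟩,
 zbF0, [⟨nat_lit 4, nat_lit 100, nat_lit 35, nat_lit 90, nat_lit 278297679⟩, ⟨nat_lit 7, nat_lit 78, nat_lit 100, nat_lit 95, nat_lit 49994896⟩, ⟨nat_lit 10, nat_lit 74, nat_lit 76, nat_lit 100, nat_lit 52984719⟩]⟩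
noncomputable def p117_l145 : Lf2 := ⟨nat_lit 1, nat_lit 30, [nat_lit 15, nat_lit 5, nat_lit 5, nat_lit 20], false, nat_lit 80, nat_lit 160, nat_lit 0, nat_lit 336, zbN0,
 nat_lit 0, nat_lit 0, nat_lit 0, nat_lit 0, nat_lit 0, nat_lit 0, nat_lit 0, nat_lit 0, nat_lit 0, nat_lit 0, nat_lit 0, nat_lit 0, nat_lit 0, nat_lit 0, nat_lit 0, nat_lit 0, nat_lit 0, nat_lit 0, [],
 C1.Rw.none, C1.Rw.none,
 zbF0, []⟩
noncomputable def p117_l146 : Lf2 := ⟨nat_lit 0, nat_lit 30, [nat_lit 15, nat_lit 5, nat_lit 5, nat_lit 20], false, nat_lit 80, nat_lit 160, nat_lit 0, nat_lit 336, ⟨nat_lit 1000, nat_lit 0, nat_lit 0, nat_lit 0, nat_lit 0, nat_lit 0, nat_lit 0, nat_lit 0, nat_lit 0, nat_lit 0, nat_lit 0, nat_lit 0, nat_lit 0, nat_lit 0, nat_lit 0, nat_lit 0, false, false⟩,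
 nat_lit 0, nat_lit 0, nat_lit 15099, nat_lit 0, nat_lit 3046, nat_lit 8788, nat_lit 393, nat_lit 0, nat_lit 0, nat_lit 559, nat_lit 0, nat_lit 0, nat_lit 0, nat_lit 0, nat_lit 0, nat_lit 0, nat_lit 0, nat_lit 0, [],
 ⟨p117_k15, nat_lit 0, nat_lit 0, nat_lit 121, nat_lit 0, nat_lit 0, [nat_lit 938000000, nat_lit 4688000000, nat_lit 6250000000], [], [nat_lit 26962271902, nat_lit 27597101736, nat_lit 27349123830, nat_lit 27987162401, nat_lit 27222087238, nat_lit 27713418224, nat_lit 27530907464, nat_lit 28072643492], nat_lit 0, nat_lit 0, nat_lit 0, nat_lit 0, nat_lit 0, nat_lit 0, [], [nat_lit 55, nat_lit 40, nat_lit 40, nat_lit 80, nat_lit 3, nat_lit 249, nat_lit 40, nat_lit 8]⟩, ⟨p117_k5, nat_lit 0, nat_lit 0, nat_lit 460, nat_lit 0, nat_lit 373883, [nat_lit 4688000000, nat_lit 9842000000, nat_lit 14058000000], [], [nat_lit 40435523148, nat_lit 40636804388, nat_lit 40791498387, nat_lit 40983150539, nat_lit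 34009364817, nat_lit 34055754228, nat_lit 34208566600, nat_lit 34341987386], nat_lit 1271250, nat_lit 1271250, nat_lit 1271250, nat_lit 1271250, nat_lit 0, nat_lit 2373000, [nat_lit 1100000, nat_lit 2127500, nat_lit 1271250], [nat_lit 56, nat_lit 40, nat_lit 40, nat_lit 80, nat_lit 32, nat_lit 483, nat_lit 250, nat_lit 11]⟩,
 zbF0, [⟨nat_lit 13, nat_lit 33, nat_lit 83, nat_lit 100, nat_lit 2786572738⟩, ⟨nat_lit 16, nat_lit 31, nat_lit 100, nat_lit 92, nat_lit 851174141⟩, ⟨nat_lit 22, nat_lit 82, nat_lit 76, nat_lit 100, nat_lit 111508978⟩]⟩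
noncomputable def p117_l147 : Lf2 := ⟨nat_lit 0, nat_lit 30, [nat_lit 15, nat_lit 5, nat_lit 5, nat_lit 20], false, nat_lit 80, nat_lit 160, nat_lit 0, nat_lit 336, ⟨nat_lit 1000, nat_lit 0, nat_lit 0, nat_lit 0, nat_lit 0, nat_lit 0, nat_lit 0, nat_lit 0, nat_lit 0, nat_lit 0, nat_lit 0, nat_lit 0, nat_lit 0, nat_lit 0, nat_lit 0, nat_lit 0, false, false⟩,
 nat_lit 0, nat_lit 0, nat_lit 13532, nat_lit 0, nat_lit 3046, nat_lit 8241, nat_lit 386, nat_lit 0, nat_lit 0, nat_lit 575, nat_lit 0, nat_lit 0, nat_lit 0, nat_lit 0, nat_lit 0, nat_lit 0, nat_lit 0, nat_lit 0, [],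
 ⟨p117_k15, nat_lit 0, nat_lit 0, nat_lit 122, nat_lit 0, nat_lit 0, [nat_lit 938000000, nat_lit 4688000000, nat_lit 6250000000], [], [nat_lit 27058521902, nat_lit 27597101736, nat_lit 27562607936, nat_lit 28182192732, nat_lit 27318337238, nat_lit 27806547568, nat_lit 27781624538, nat_lit 28257503649], nat_lit 0, nat_lit 0, nat_lit 0, nat_lit 0, nat_lit 0, nat_lit 0, [], [nat_lit 55, nat_lit 40, nat_lit 40, nat_lit 80, nat_lit 3, nat_lit 249, nat_lit 40, nat_lit 8]⟩, ⟨p117_k28, nat_lit 0, nat_lit 0, nat_lit 459, nat_lit 0, nat_lit 373416, [nat_lit 4688000000, nat_lit 9842000000, nat_lit 14058000000], [], [nat_lit 39455343191, nat_lit 39556604656, nat_lit 39960675316, nat_lit 40055094856, nat_lit 33639063263, nat_lit 33670317278, nat_lit 34017550961, nat_lit 34084666875], nat_lit 1271250, nat_lit 1271250, nat_lit 1271250, nat_lit 1271250, nat_lit 0, nat_lit 2373000, [nat_lit 1100000, nat_lit 2127500, nat_lit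 1271250], [nat_lit 56, nat_lit 40, nat_lit 40, nat_lit 80, nat_lit 32, nat_lit 483, nat_lit 250, nat_lit 11]⟩,
 zbF0, [⟨nat_lit 13, nat_lit 24, nat_lit 89, nat_lit 100, nat_lit 1748158754⟩, ⟨nat_lit 4, nat_lit 100, nat_lit 23, nat_lit 92, nat_lit 1213216465⟩, ⟨nat_lit 22, nat_lit 82, nat_lit 76, nat_lit 100, nat_lit 124082962⟩]⟩
noncomputable def p117_l148 : Lf2 := ⟨nat_lit 0, nat_lit 30, [nat_lit 15, nat_lit 5, nat_lit 5, nat_lit 20], false, nat_lit 80, nat_lit 160, nat_lit 0, nat_lit 336, ⟨nat_lit 1000, nat_lit 0, nat_lit 0, nat_lit 0, nat_lit 0, nat_lit 0, nat_lit 0, nat_lit 0, nat_lit 0, nat_lit 0, nat_lit 0, nat_lit 0, nat_lit 0, nat_lit 0, nat_lit 0, nat_lit 0, false, false⟩,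
 nat_lit 0, nat_lit 0, nat_lit 12757, nat_lit 0, nat_lit 3046, nat_lit 7943, nat_lit 386, nat_lit 0, nat_lit 0, nat_lit 582, nat_lit 0, nat_lit 0, nat_lit 0, nat_lit 0, nat_lit 0, nat_lit 0, nat_lit 0, nat_lit 0, [],
 ⟨p117_k15, nat_lit 0, nat_lit 0, nat_lit 123, nat_lit 0, nat_lit 0, [nat_lit 938000000, nat_lit 4688000000, nat_lit 6250000000], [], [nat_lit 27058521902, nat_lit 27597101736, nat_lit 27751820175, nat_lit 28377223064, nat_lit 27318337238, nat_lit 27806547568, nat_lit 27936091612, nat_lit 28431868759], nat_lit 0, nat_lit 0, nat_lit 0, nat_lit 0, nat_lit 0, nat_lit 0, [], [nat_lit 55, nat_lit 40, nat_lit 40, nat_lit 80, nat_lit 3, nat_lit 249, nat_lit 40, nat_lit 8]⟩, ⟨p117_k32, nat_lit 0, nat_lit 0, nat_lit 463, nat_lit 0, nat_lit 386027, [nat_lit 4688000000, nat_lit 9842000000, nat_lit 14058000000], [], [nat_lit 38973787363, nat_lit 39075387058, nat_lit 39628411594, nat_lit 39721164671, nat_lit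 33502480497, nat_lit 33532274871, nat_lit 34007031814, nat_lit 34073583548], nat_lit 1271250, nat_lit 1271250, nat_lit 1271250, nat_lit 1271250, nat_lit 0, nat_lit 2373000, [nat_lit 1100000, nat_lit 2127500, nat_lit 1271250], [nat_lit 56, nat_lit 40, nat_lit 40, nat_lit 80, nat_lit 32, nat_lit 483, nat_lit 250, nat_lit 11]⟩,
 zbF0, [⟨nat_lit 13, nat_lit 24, nat_lit 88, nat_lit 100, nat_lit 1906309787⟩, ⟨nat_lit 4, nat_lit 100, nat_lit 23, nat_lit 92, nat_lit 847769857⟩, ⟨nat_lit 19, nat_lit 100, nat_lit 83, nat_lit 97, nat_lit 110217838⟩]⟩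
noncomputable def p117_l149 : Lf2 := ⟨nat_lit 1, nat_lit 30, [nat_lit 15, nat_lit 5, nat_lit 5, nat_lit 20], false, nat_lit 80, nat_lit 160, nat_lit 0, nat_lit 336, zbN0,
 nat_lit 0, nat_lit 0, nat_lit 0, nat_lit 0, nat_lit 0, nat_lit 0, nat_lit 0, nat_lit 0, nat_lit 0, nat_lit 0, nat_lit 0, nat_lit 0, nat_lit 0, nat_lit 0, nat_lit 0, nat_lit 0, nat_lit 0, nat_lit 0, [],
 C1.Rw.none, C1.Rw.none,
 zbF0, []⟩
noncomputable def b_V_900_600_20_79 : St := ⟨true, nat_lit 0, nat_lit 1, nat_lit 1, nat_lit 120, nat_lit 380, nat_lit 400, nat_lit 240, nat_lit 280, nat_lit 320, nat_lit 352, nat_lit 80, nat_lit 120, nat_lit 80, nat_lit 160, nat_lit 0, nat_lit 364, nat_lit 120, nat_lit 156, nat_lit 0, nat_lit 0, nat_lit 0, nat_lit 0⟩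
theorem d_V_900_600_20_79 (h : EB TB.env) : Dead b_V_900_600_20_79 := chkB_sound0 h (T :=
(.trX (nat_lit 22) (nat_lit 82) (nat_lit 76) (nat_lit 100) (nat_lit 336) (.spl (nat_lit 3) (nat_lit 100)
(.spl (nat_lit 6) (nat_lit 144)
(.spl (nat_lit 1) (nat_lit 260)
(.trX (nat_lit 13) (nat_lit 46) (nat_lit 76) (nat_lit 100) (nat_lit 340) (.leaf p117_l137))
(.spl (nat_lit 0) (nat_lit 390)
(.leaf p117_l138)
(.trX (nat_lit 13) (nat_lit 34) (nat_lit 81) (nat_lit 100) (nat_lit 336) (.leaf p117_l139))))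
(.leaf p117_l140))
(.spl (nat_lit 6) (nat_lit 144)
(.spl (nat_lit 1) (nat_lit 260)
(.trX (nat_lit 13) (nat_lit 46) (nat_lit 76) (nat_lit 100) (nat_lit 340) (.spl (nat_lit 1) (nat_lit 250)
(.trX (nat_lit 13) (nat_lit 45) (nat_lit 79) (nat_lit 100) (nat_lit 332) (.leaf p117_l141))
(.spl (nat_lit 0) (nat_lit 390)
(.leaf p117_l142)
(.emL (nat_lit 13) (nat_lit 33) (nat_lit 85) (nat_lit 100)))))
(.spl (nat_lit 0) (nat_lit 390)
(.spl (nat_lit 6) (nat_lit 136)
(.spl (nat_lit 0) (nat_lit 385)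
(.leaf p117_l143)
(.trX (nat_lit 13) (nat_lit 41) (nat_lit 76) (nat_lit 100) (nat_lit 344) (.leaf p117_l144)))
(.leaf p117_l145))
(.trX (nat_lit 13) (nat_lit 34) (nat_lit 81) (nat_lit 100) (nat_lit 336) (.spl (nat_lit 1) (nat_lit 270)
(.trX (nat_lit 13) (nat_lit 33) (nat_lit 83) (nat_lit 100) (nat_lit 328) (.leaf p117_l146))
(.spl (nat_lit 1) (nat_lit 275)
(.trX (nat_lit 13) (nat_lit 34) (nat_lit 82) (nat_lit 100) (nat_lit 332) (.leaf p117_l147))
(.leaf p117_l148))))))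
(.leaf p117_l149))))) (by decide +kernel)
noncomputable def p117_l150 : Lf2 := ⟨nat_lit 0, nat_lit 30, [nat_lit 15, nat_lit 5, nat_lit 5, nat_lit 20], true, nat_lit 160, nat_lit 248, nat_lit 0, nat_lit 364, ⟨nat_lit 0, nat_lit 1000, nat_lit 0, nat_lit 6, nat_lit 258, nat_lit 1000, nat_lit 157, nat_lit 0, nat_lit 0, nat_lit 0, nat_lit 0, nat_lit 0, nat_lit 40734190, nat_lit 18042526, nat_lit 8223284, nat_lit 4903329, true, true⟩,
 nat_lit 0, nat_lit 0, nat_lit 0, nat_lit 8323, nat_lit 2971, nat_lit 0, nat_lit 0, nat_lit 0, nat_lit 0, nat_lit 0, nat_lit 0, nat_lit 0, nat_lit 0, nat_lit 0, nat_lit 0, nat_lit 250000, nat_lit 0, nat_lit 0, [(nat_lit 26, [(nat_lit 0, nat_lit 1000)])],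
 ⟨p117_k6, nat_lit 0, nat_lit 0, nat_lit 50, nat_lit 0, nat_lit 0, [nat_lit 765600000, nat_lit 1432000001, nat_lit 2936000000], [], [nat_lit 22134079321, nat_lit 23394805263, nat_lit 23635873709, nat_lit 24803357009, nat_lit 24397372812, nat_lit 25492866119, nat_lit 25691966535, nat_lit 26710182352], nat_lit 0, nat_lit 0, nat_lit 0, nat_lit 0, nat_lit 0, nat_lit 0, [], [nat_lit 93, nat_lit 40, nat_lit 40, nat_lit 80, nat_lit 63, nat_lit 373, nat_lit 150, nat_lit 9]⟩, C1.Rw.none,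
 ⟨nat_lit 2236, nat_lit 3163, ⟨.ofNat (nat_lit 605240), .ofNat (nat_lit 666215), .ofNat (nat_lit 627331), .ofNat (nat_lit 688370), .ofNat (nat_lit 602541), .ofNat (nat_lit 659578), .ofNat (nat_lit 625251), .ofNat (nat_lit 682352)⟩, ⟨.ofNat (nat_lit 306116), .ofNat (nat_lit 440213), .ofNat (nat_lit 350426), .ofNat (nat_lit 484523), .ofNat (nat_lit 306337), .ofNat (nat_lit 431772), .ofNat (nat_lit 351886), .ofNat (nat_lit 477320)⟩⟩, [⟨nat_lit 4, nat_lit 100, nat_lit 53, nat_lit 87, nat_lit 271777013⟩]⟩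
noncomputable def p117_l151 : Lf2 := ⟨nat_lit 0, nat_lit 30, [nat_lit 15, nat_lit 5, nat_lit 5, nat_lit 20], false, nat_lit 160, nat_lit 248, nat_lit 0, nat_lit 352, ⟨nat_lit 534, nat_lit 466, nat_lit 0, nat_lit 6, nat_lit 267, nat_lit 466, nat_lit 157, nat_lit 0, nat_lit 0, nat_lit 0, nat_lit 0, nat_lit 0, nat_lit 40010060, nat_lit 18860998, nat_lit 8128942, nat_lit 4941741, true, false⟩,
 nat_lit 0, nat_lit 0, nat_lit 6827, nat_lit 868, nat_lit 4050, nat_lit 3973, nat_lit 0, nat_lit 0, nat_lit 0, nat_lit 506, nat_lit 0, nat_lit 0, nat_lit 0, nat_lit 0, nat_lit 0, nat_lit 116500, nat_lit 0, nat_lit 0, [(nat_lit 26, [(nat_lit 0, nat_lit 466)])],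
 ⟨p117_k6, nat_lit 0, nat_lit 0, nat_lit 50, nat_lit 0, nat_lit 0, [nat_lit 857661601, nat_lit 2419900001, nat_lit 6540500000], [], [nat_lit 22602894001, nat_lit 24070790101, nat_lit 24241967401, nat_lit 25711355200, nat_lit 24891149941, nat_lit 26249771871, nat_lit 26351389401, nat_lit 27634124210], nat_lit 0, nat_lit 0, nat_lit 0, nat_lit 0, nat_lit 0, nat_lit 0, [], [nat_lit 93, nat_lit 40, nat_lit 40, nat_lit 80, nat_lit 63, nat_lit 373, nat_lit 150, nat_lit 9]⟩, ⟨p117_k14, nat_lit 0, nat_lit 0, nat_lit 427, nat_lit 0, nat_lit 298961, [nat_lit 2503392000, nat_lit 4254912000, nat_lit 7506972000], [], [nat_lit 18040969606, nat_lit 18246793548, nat_lit 18420275712, nat_lit 18593757876, nat_lit 16164137258, nat_lit 16297700318, nat_lit 16479674972, nat_lit 16664962252], nat_lit 1271250, nat_lit 1271250, nat_lit 1271250, nat_lit 1271250, nat_lit 0, nat_lit 2486000, [nat_lit 1100000, nat_lit 1785000, nat_lit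 1271250], [nat_lit 37, nat_lit 40, nat_lit 40, nat_lit 80, nat_lit 28, nat_lit 483, nat_lit 250, nat_lit 11]⟩,
 ⟨nat_lit 2236, nat_lit 3163, ⟨.ofNat (nat_lit 627331), .ofNat (nat_lit 688370), .ofNat (nat_lit 649422), .ofNat (nat_lit 710480), .ofNat (nat_lit 625251), .ofNat (nat_lit 682352), .ofNat (nat_lit 647962), .ofNat (nat_lit 705082)⟩, ⟨.ofNat (nat_lit 306116), .ofNat (nat_lit 440213), .ofNat (nat_lit 350426), .ofNat (nat_lit 484523), .ofNat (nat_lit 306337), .ofNat (nat_lit 431772), .ofNat (nat_lit 351886), .ofNat (nat_lit 477320)⟩⟩, [⟨nat_lit 4, nat_lit 100, nat_lit 53, nat_lit 87, nat_lit 515690374⟩, ⟨nat_lit 7, nat_lit 82, nat_lit 100, nat_lit 92, nat_lit 82059702⟩]⟩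
noncomputable def p117_l152 : Lf2 := ⟨nat_lit 1, nat_lit 30, [nat_lit 15, nat_lit 5, nat_lit 5, nat_lit 20], false, nat_lit 160, nat_lit 248, nat_lit 0, nat_lit 364, zbN0,
 nat_lit 0, nat_lit 0, nat_lit 0, nat_lit 0, nat_lit 0, nat_lit 0, nat_lit 0, nat_lit 0, nat_lit 0, nat_lit 0, nat_lit 0, nat_lit 0, nat_lit 0, nat_lit 0, nat_lit 0, nat_lit 0, nat_lit 0, nat_lit 0, [],
 C1.Rw.none, C1.Rw.none,
 zbF0, []⟩
noncomputable def p117_l153 : Lf2 := ⟨nat_lit 0, nat_lit 30, [nat_lit 15, nat_lit 5, nat_lit 5, nat_lit 20], true, nat_lit 160, nat_lit 208, nat_lit 0, nat_lit 364, ⟨nat_lit 0, nat_lit 1000, nat_lit 0, nat_lit 6, nat_lit 261, nat_lit 1000, nat_lit 145, nat_lit 0, nat_lit 0, nat_lit 0, nat_lit 0, nat_lit 0, nat_lit 41160837, nat_lit 18554734, nat_lit 7284429, nat_lit 4800083, true, false⟩,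
 nat_lit 0, nat_lit 0, nat_lit 0, nat_lit 7502, nat_lit 2647, nat_lit 0, nat_lit 0, nat_lit 0, nat_lit 0, nat_lit 0, nat_lit 0, nat_lit 0, nat_lit 0, nat_lit 0, nat_lit 0, nat_lit 250000, nat_lit 0, nat_lit 0, [(nat_lit 29, [(nat_lit 0, nat_lit 1000)])],
 ⟨p117_k33, nat_lit 0, nat_lit 0, nat_lit 55, nat_lit 0, nat_lit 0, [nat_lit 781600001, nat_lit 1054800000, nat_lit 2212560000], [], [nat_lit 23168306417, nat_lit 23754459689, nat_lit 24525902373, nat_lit 25070476025, nat_lit 24272548982, nat_lit 24818521436, nat_lit 25536246547, nat_lit 26044467357], nat_lit 0, nat_lit 0, nat_lit 0, nat_lit 0, nat_lit 0, nat_lit 0, [], [nat_lit 54, nat_lit 40, nat_lit 40, nat_lit 80, nat_lit 43, nat_lit 272, nat_lit 60, nat_lit 7]⟩, C1.Rw.none,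
 ⟨nat_lit 1581, nat_lit 2237, ⟨.ofNat (nat_lit 602558), .ofNat (nat_lit 659578), .ofNat (nat_lit 648016), .ofNat (nat_lit 705117), .ofNat (nat_lit 601260), .ofNat (nat_lit 655900), .ofNat (nat_lit 647799), .ofNat (nat_lit 702521)⟩, ⟨.ofNat (nat_lit 306337), .ofNat (nat_lit 374756), .ofNat (nat_lit 351886), .ofNat (nat_lit 420305), .ofNat (nat_lit 305473), .ofNat (nat_lit 371036), .ofNat (nat_lit 352103), .ofNat (nat_lit 417666)⟩⟩, [⟨nat_lit 16, nat_lit 38, nat_lit 100, nat_lit 87, nat_lit 364066583⟩]⟩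
noncomputable def p117_l154 : Lf2 := ⟨nat_lit 0, nat_lit 30, [nat_lit 15, nat_lit 5, nat_lit 5, nat_lit 20], true, nat_lit 160, nat_lit 184, nat_lit 0, nat_lit 364, ⟨nat_lit 0, nat_lit 1000, nat_lit 0, nat_lit 6, nat_lit 260, nat_lit 1000, nat_lit 137, nat_lit 0, nat_lit 0, nat_lit 0, nat_lit 0, nat_lit 0, nat_lit 41672025, nat_lit 18600233, nat_lit 6727742, nat_lit 4716354, true, false⟩,
 nat_lit 0, nat_lit 0, nat_lit 0, nat_lit 3551, nat_lit 2707, nat_lit 0, nat_lit 0, nat_lit 0, nat_lit 0, nat_lit 0, nat_lit 0, nat_lit 0, nat_lit 0, nat_lit 0, nat_lit 0, nat_lit 250000, nat_lit 0, nat_lit 0, [(nat_lit 29, [(nat_lit 0, nat_lit 1000)])],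
 ⟨p117_k24, nat_lit 0, nat_lit 0, nat_lit 60, nat_lit 0, nat_lit 0, [nat_lit 781600001, nat_lit 1046000001, nat_lit 1786400000], [], [nat_lit 23812853601, nat_lit 24390909043, nat_lit 25116953205, nat_lit 25714933416, nat_lit 24342152112, nat_lit 24900494535, nat_lit 25601508967, nat_lit 26194988039], nat_lit 0, nat_lit 0, nat_lit 0, nat_lit 0, nat_lit 0, nat_lit 0, [], [nat_lit 20, nat_lit 40, nat_lit 40, nat_lit 80, nat_lit 16, nat_lit 260, nat_lit 50, nat_lit 8]⟩, C1.Rw.none,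
 ⟨nat_lit 0, nat_lit 1582, ⟨.ofNat (nat_lit 601257), .ofNat (nat_lit 655899), .ofNat (nat_lit 646579), .ofNat (nat_lit 702515), .ofNat (nat_lit 599992), .ofNat (nat_lit 649998), .ofNat (nat_lit 648683), .ofNat (nat_lit 699984)⟩, ⟨.ofNat (nat_lit 305469), .ofNat (nat_lit 338250), .ofNat (nat_lit 352101), .ofNat (nat_lit 384882), .ofNat (nat_lit 299995), .ofNat (nat_lit 329995), .ofNat (nat_lit 349997), .ofNat (nat_lit 379997)⟩⟩, [⟨nat_lit 16, nat_lit 31, nat_lit 100, nat_lit 92, nat_lit 429819420⟩]⟩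
noncomputable def p117_l155 : Lf2 := ⟨nat_lit 0, nat_lit 30, [nat_lit 15, nat_lit 5, nat_lit 5, nat_lit 20], false, nat_lit 160, nat_lit 248, nat_lit 4, nat_lit 364, ⟨nat_lit 537, nat_lit 463, nat_lit 0, nat_lit 7, nat_lit 281, nat_lit 463, nat_lit 157, nat_lit 0, nat_lit 0, nat_lit 0, nat_lit 0, nat_lit 0, nat_lit 38840862, nat_lit 20189005, nat_lit 7970133, nat_lit 4994565, true, true⟩,
 nat_lit 0, nat_lit 0, nat_lit 8417, nat_lit 1130, nat_lit 3768, nat_lit 4455, nat_lit 0, nat_lit 0, nat_lit 0, nat_lit 518, nat_lit 0, nat_lit 0, nat_lit 0, nat_lit 0, nat_lit 0, nat_lit 115750, nat_lit 0, nat_lit 0, [(nat_lit 26, [(nat_lit 0, nat_lit 463)])],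
 ⟨p117_k6, nat_lit 0, nat_lit 0, nat_lit 59, nat_lit 0, nat_lit 0, [nat_lit 858178801, nat_lit 2425450000, nat_lit 6560750000], [], [nat_lit 24347303664, nat_lit 25650516064, nat_lit 26173893456, nat_lit 27365326784, nat_lit 26386367469, nat_lit 27513326604, nat_lit 27953030032, nat_lit 28987212799], nat_lit 0, nat_lit 0, nat_lit 0, nat_lit 0, nat_lit 0, nat_lit 0, [], [nat_lit 93, nat_lit 40, nat_lit 40, nat_lit 80, nat_lit 63, nat_lit 289, nat_lit 75, nat_lit 7]⟩, ⟨p117_k34, nat_lit 0, nat_lit 0, nat_lit 447, nat_lit 0, nat_lit 205561, [nat_lit 2517456000, nat_lit 4278816000, nat_lit 8806800000], [], [nat_lit 20280029779, nat_lit 20352648775, nat_lit 20657557511, nat_lit 20795439252, nat_lit 17695213010, nat_lit 17807647342, nat_lit 18163669308, nat_lit 18242777310], nat_lit 1271250, nat_lit 1271250, nat_lit 1271250, nat_lit 1271250, nat_lit 21650, nat_lit 2577650, [nat_lit 1100000, nat_lit 1785000, nat_lit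 1271250], [nat_lit 122, nat_lit 40, nat_lit 40, nat_lit 80, nat_lit 111, nat_lit 483, nat_lit 250, nat_lit 10]⟩,
 ⟨nat_lit 2236, nat_lit 3163, ⟨.ofNat (nat_lit 666215), .ofNat (nat_lit 727168), .ofNat (nat_lit 688370), .ofNat (nat_lit 749323), .ofNat (nat_lit 659578), .ofNat (nat_lit 716594), .ofNat (nat_lit 682352), .ofNat (nat_lit 739368)⟩, ⟨.ofNat (nat_lit 306116), .ofNat (nat_lit 440213), .ofNat (nat_lit 350426), .ofNat (nat_lit 484523), .ofNat (nat_lit 306337), .ofNat (nat_lit 431772), .ofNat (nat_lit 351886), .ofNat (nat_lit 477320)⟩⟩, [⟨nat_lit 16, nat_lit 53, nat_lit 100, nat_lit 87, nat_lit 460648843⟩, ⟨nat_lit 7, nat_lit 72, nat_lit 100, nat_lit 89, nat_lit 79231479⟩]⟩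
noncomputable def p117_l156 : Lf2 := ⟨nat_lit 0, nat_lit 30, [nat_lit 15, nat_lit 5, nat_lit 5, nat_lit 20], false, nat_lit 160, nat_lit 248, nat_lit 4, nat_lit 352, ⟨nat_lit 735, nat_lit 265, nat_lit 0, nat_lit 7, nat_lit 290, nat_lit 265, nat_lit 157, nat_lit 0, nat_lit 0, nat_lit 0, nat_lit 0, nat_lit 0, nat_lit 38132152, nat_lit 20997698, nat_lit 7870150, nat_lit 5021174, true, true⟩,
 nat_lit 0, nat_lit 0, nat_lit 9196, nat_lit 0, nat_lit 4140, nat_lit 5352, nat_lit 0, nat_lit 0, nat_lit 0, nat_lit 671, nat_lit 0, nat_lit 0, nat_lit 0, nat_lit 0, nat_lit 0, nat_lit 66250, nat_lit 0, nat_lit 0, [(nat_lit 26, [(nat_lit 0, nat_lit 265)])],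
 ⟨p117_k6, nat_lit 0, nat_lit 0, nat_lit 59, nat_lit 0, nat_lit 0, [nat_lit 892314000, nat_lit 2791750001, nat_lit 7962090000], [], [nat_lit 24581970721, nat_lit 25948534721, nat_lit 26474420881, nat_lit 27721020321, nat_lit 26613086226, nat_lit 27790801338, nat_lit 28227640962, nat_lit 29353377533], nat_lit 0, nat_lit 0, nat_lit 0, nat_lit 0, nat_lit 0, nat_lit 0, [], [nat_lit 93, nat_lit 40, nat_lit 40, nat_lit 80, nat_lit 63, nat_lit 289, nat_lit 75, nat_lit 7]⟩, ⟨p117_k14, nat_lit 0, nat_lit 0, nat_lit 422, nat_lit 0, nat_lit 300362, [nat_lit 3445680000, nat_lit 5856480000, nat_lit 10332630000], [], [nat_lit 25813344190, nat_lit 26053312123, nat_lit 26559072339, nat_lit 26752188408, nat_lit 23124717781, nat_lit 23276971443, nat_lit 23795723117, nat_lit 24004704572], nat_lit 1271250, nat_lit 1271250, nat_lit 1271250, nat_lit 1271250, nat_lit 21650, nat_lit 2492450, [nat_lit 1100000, nat_lit 1785000, nat_lit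 1271250], [nat_lit 37, nat_lit 40, nat_lit 40, nat_lit 80, nat_lit 28, nat_lit 483, nat_lit 250, nat_lit 11]⟩,
 ⟨nat_lit 2236, nat_lit 3163, ⟨.ofNat (nat_lit 688370), .ofNat (nat_lit 749323), .ofNat (nat_lit 710480), .ofNat (nat_lit 771478), .ofNat (nat_lit 682352), .ofNat (nat_lit 739368), .ofNat (nat_lit 705082), .ofNat (nat_lit 762142)⟩, ⟨.ofNat (nat_lit 306116), .ofNat (nat_lit 440213), .ofNat (nat_lit 350426), .ofNat (nat_lit 484523), .ofNat (nat_lit 306337), .ofNat (nat_lit 431772), .ofNat (nat_lit 351886), .ofNat (nat_lit 477320)⟩⟩, [⟨nat_lit 4, nat_lit 100, nat_lit 53, nat_lit 87, nat_lit 562805313⟩, ⟨nat_lit 19, nat_lit 100, nat_lit 82, nat_lit 92, nat_lit 111741677⟩]⟩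
noncomputable def p117_l157 : Lf2 := ⟨nat_lit 0, nat_lit 25, [nat_lit 44, nat_lit 5, nat_lit 5, nat_lit 20], true, nat_lit 160, nat_lit 188, nat_lit 4, nat_lit 352, ⟨nat_lit 0, nat_lit 1000, nat_lit 0, nat_lit 7, nat_lit 279, nat_lit 1000, nat_lit 135, nat_lit 0, nat_lit 0, nat_lit 0, nat_lit 0, nat_lit 0, nat_lit 40207700, nat_lit 20378762, nat_lit 6413538, nat_lit 4770560, true, true⟩,
 nat_lit 0, nat_lit 0, nat_lit 0, nat_lit 100000, nat_lit 3160, nat_lit 0, nat_lit 0, nat_lit 0, nat_lit 0, nat_lit 0, nat_lit 0, nat_lit 0, nat_lit 0, nat_lit 0, nat_lit 0, nat_lit 250000, nat_lit 0, nat_lit 0, [(nat_lit 29, [(nat_lit 0, nat_lit 1000)])],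
 ⟨p117_k10, nat_lit 0, nat_lit 0, nat_lit 73, nat_lit 0, nat_lit 0, [nat_lit 781600001, nat_lit 1376400001, nat_lit 1786400000], [], [nat_lit 25106919601, nat_lit 25676977321, nat_lit 26650350561, nat_lit 27253569040, nat_lit 25656219738, nat_lit 26203203106, nat_lit 27174362660, nat_lit 27753166026], nat_lit 0, nat_lit 0, nat_lit 0, nat_lit 0, nat_lit 0, nat_lit 0, [], [nat_lit 55, nat_lit 40, nat_lit 40, nat_lit 80, nat_lit 3, nat_lit 260, nat_lit 50, nat_lit 8]⟩, C1.Rw.none,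
 ⟨nat_lit 1581, nat_lit 2237, ⟨.ofNat (nat_lit 659578), .ofNat (nat_lit 716594), .ofNat (nat_lit 682352), .ofNat (nat_lit 739368), .ofNat (nat_lit 655900), .ofNat (nat_lit 710536), .ofNat (nat_lit 679215), .ofNat (nat_lit 733851)⟩, ⟨.ofNat (nat_lit 306337), .ofNat (nat_lit 346248), .ofNat (nat_lit 329112), .ofNat (nat_lit 369022), .ofNat (nat_lit 305473), .ofNat (nat_lit 343718), .ofNat (nat_lit 328788), .ofNat (nat_lit 367033)⟩⟩, [⟨nat_lit 4, nat_lit 100, nat_lit 39, nat_lit 85, nat_lit 6395671418⟩]⟩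
noncomputable def p117_l158 : Lf2 := ⟨nat_lit 0, nat_lit 30, [nat_lit 15, nat_lit 5, nat_lit 5, nat_lit 20], false, nat_lit 160, nat_lit 208, nat_lit 4, nat_lit 364, ⟨nat_lit 1000, nat_lit 0, nat_lit 0, nat_lit 0, nat_lit 0, nat_lit 0, nat_lit 0, nat_lit 0, nat_lit 0, nat_lit 0, nat_lit 0, nat_lit 0, nat_lit 0, nat_lit 0, nat_lit 0, nat_lit 0, false, false⟩,
 nat_lit 0, nat_lit 0, nat_lit 20217, nat_lit 5796, nat_lit 5709, nat_lit 10703, nat_lit 0, nat_lit 0, nat_lit 0, nat_lit 703, nat_lit 0, nat_lit 0, nat_lit 0, nat_lit 0, nat_lit 0, nat_lit 0, nat_lit 0, nat_lit 0, [],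
 ⟨p117_k0, nat_lit 0, nat_lit 0, nat_lit 71, nat_lit 0, nat_lit 0, [nat_lit 938000000, nat_lit 4688000000, nat_lit 7968000000], [], [nat_lit 27594198490, nat_lit 27979679617, nat_lit 29493867494, nat_lit 29843357877, nat_lit 28410301303, nat_lit 28765094439, nat_lit 30150614084, nat_lit 30526949827], nat_lit 0, nat_lit 0, nat_lit 0, nat_lit 0, nat_lit 0, nat_lit 0, [], [nat_lit 57, nat_lit 40, nat_lit 40, nat_lit 80, nat_lit 7, nat_lit 272, nat_lit 60, nat_lit 7]⟩, ⟨p117_k1, nat_lit 0, nat_lit 0, nat_lit 405, nat_lit 0, nat_lit 74110, [nat_lit 4688000000, nat_lit 9842000000, nat_lit 16400000000], [], [nat_lit 39255189139, nat_lit 39970591200, nat_lit 41536522830, nat_lit 42109780437, nat_lit 33055634641, nat_lit 33213954752, nat_lit 34131710350, nat_lit 34736740567], nat_lit 1271250, nat_lit 1271250, nat_lit 1271250, nat_lit 1271250, nat_lit 21650, nat_lit 2577650, [nat_lit 1100000, nat_lit 2127500, nat_lit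 1271250], [nat_lit 83, nat_lit 40, nat_lit 40, nat_lit 80, nat_lit 73, nat_lit 483, nat_lit 250, nat_lit 10]⟩,
 zbF0, [⟨nat_lit 16, nat_lit 41, nat_lit 100, nat_lit 89, nat_lit 764627288⟩, ⟨nat_lit 7, nat_lit 68, nat_lit 100, nat_lit 92, nat_lit 102929156⟩]⟩
noncomputable def p117_l159 : Lf2 := ⟨nat_lit 0, nat_lit 30, [nat_lit 15, nat_lit 5, nat_lit 5, nat_lit 20], false, nat_lit 160, nat_lit 196, nat_lit 4, nat_lit 364, ⟨nat_lit 355, nat_lit 645, nat_lit 0, nat_lit 7, nat_lit 278, nat_lit 645, nat_lit 146, nat_lit 0, nat_lit 0, nat_lit 0, nat_lit 0, nat_lit 0, nat_lit 39666590, nat_lit 20130134, nat_lit 7203276, nat_lit 4880505, true, true⟩,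
 nat_lit 0, nat_lit 0, nat_lit 6949, nat_lit 0, nat_lit 3992, nat_lit 3678, nat_lit 0, nat_lit 0, nat_lit 0, nat_lit 238, nat_lit 0, nat_lit 0, nat_lit 0, nat_lit 0, nat_lit 0, nat_lit 161250, nat_lit 0, nat_lit 0, [(nat_lit 29, [(nat_lit 0, nat_lit 645)])],
 ⟨p117_k16, nat_lit 0, nat_lit 0, nat_lit 73, nat_lit 0, nat_lit 0, [nat_lit 837122000, nat_lit 2552018000, nat_lit 3370978000], [], [nat_lit 26331293852, nat_lit 26649110584, nat_lit 27963795232, nat_lit 28254405392, nat_lit 26989296597, nat_lit 27289609034, nat_lit 28527844354, nat_lit 28824399597], nat_lit 0, nat_lit 0, nat_lit 0, nat_lit 0, nat_lit 0, nat_lit 0, [], [nat_lit 55, nat_lit 40, nat_lit 40, nat_lit 80, nat_lit 3, nat_lit 260, nat_lit 50, nat_lit 8]⟩, ⟨p117_k1, nat_lit 0, nat_lit 0, nat_lit 437, nat_lit 0, nat_lit 163918, [nat_lit 1664240000, nat_lit 3493910000, nat_lit 5822000000], [], [nat_lit 14133320593, nat_lit 14269078025, nat_lit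 14813813170, nat_lit 15016389344, nat_lit 11967875500, nat_lit 12024386717, nat_lit 12277690587, nat_lit 12314599351], nat_lit 1271250, nat_lit 1271250, nat_lit 1271250, nat_lit 1271250, nat_lit 21650, nat_lit 2577650, [nat_lit 1100000, nat_lit 2127500, nat_lit 1271250], [nat_lit 83, nat_lit 40, nat_lit 40, nat_lit 80, nat_lit 73, nat_lit 483, nat_lit 250, nat_lit 10]⟩,
 ⟨nat_lit 1581, nat_lit 1937, ⟨.ofNat (nat_lit 657798), .ofNat (nat_lit 713688), .ofNat (nat_lit 680809), .ofNat (nat_lit 736698), .ofNat (nat_lit 655900), .ofNat (nat_lit 710536), .ofNat (nat_lit 679215), .ofNat (nat_lit 733851)⟩, ⟨.ofNat (nat_lit 329055), .ofNat (nat_lit 379355), .ofNat (nat_lit 352066), .ofNat (nat_lit 402366), .ofNat (nat_lit 328788), .ofNat (nat_lit 377960), .ofNat (nat_lit 352103), .ofNat (nat_lit 401275)⟩⟩, [⟨nat_lit 13, nat_lit 36, nat_lit 85, nat_lit 100, nat_lit 213907965⟩, ⟨nat_lit 16, nat_lit 35, nat_lit 100, nat_lit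 90, nat_lit 497742735⟩, ⟨nat_lit 7, nat_lit 68, nat_lit 100, nat_lit 92, nat_lit 35243156⟩]⟩
noncomputable def p117_l160 : Lf2 := ⟨nat_lit 1, nat_lit 30, [nat_lit 15, nat_lit 5, nat_lit 5, nat_lit 20], false, nat_lit 160, nat_lit 208, nat_lit 4, nat_lit 364, zbN0,
 nat_lit 0, nat_lit 0, nat_lit 0, nat_lit 0, nat_lit 0, nat_lit 0, nat_lit 0, nat_lit 0, nat_lit 0, nat_lit 0, nat_lit 0, nat_lit 0, nat_lit 0, nat_lit 0, nat_lit 0, nat_lit 0, nat_lit 0, nat_lit 0, [],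
 C1.Rw.none, C1.Rw.none,
 zbF0, []⟩
noncomputable def p117_l161 : Lf2 := ⟨nat_lit 0, nat_lit 30, [nat_lit 15, nat_lit 5, nat_lit 5, nat_lit 20], true, nat_lit 160, nat_lit 184, nat_lit 4, nat_lit 364, ⟨nat_lit 0, nat_lit 1000, nat_lit 0, nat_lit 7, nat_lit 271, nat_lit 1000, nat_lit 137, nat_lit 0, nat_lit 0, nat_lit 0, nat_lit 0, nat_lit 0, nat_lit 40764426, nat_lit 19598678, nat_lit 6636896, nat_lit 4762871, true, true⟩,
 nat_lit 0, nat_lit 0, nat_lit 0, nat_lit 7872, nat_lit 3119, nat_lit 0, nat_lit 0, nat_lit 0, nat_lit 0, nat_lit 0, nat_lit 0, nat_lit 0, nat_lit 0, nat_lit 0, nat_lit 0, nat_lit 250000, nat_lit 0, nat_lit 0, [(nat_lit 29, [(nat_lit 0, nat_lit 1000)])],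
 ⟨p117_k15, nat_lit 0, nat_lit 0, nat_lit 75, nat_lit 0, nat_lit 0, [nat_lit 781600001, nat_lit 1376400001, nat_lit 1786400000], [], [nat_lit 25687004814, nat_lit 26253831037, nat_lit 26731559064, nat_lit 27315454237, nat_lit 26139240727, nat_lit 26686464418, nat_lit 27147382589, nat_lit 27741578282], nat_lit 0, nat_lit 0, nat_lit 0, nat_lit 0, nat_lit 0, nat_lit 0, [], [nat_lit 55, nat_lit 40, nat_lit 40, nat_lit 80, nat_lit 3, nat_lit 260, nat_lit 50, nat_lit 8]⟩, C1.Rw.none,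
 ⟨nat_lit 0, nat_lit 1582, ⟨.ofNat (nat_lit 655899), .ofNat (nat_lit 694143), .ofNat (nat_lit 667557), .ofNat (nat_lit 705801), .ofNat (nat_lit 649998), .ofNat (nat_lit 684997), .ofNat (nat_lit 662498), .ofNat (nat_lit 697497)⟩, ⟨.ofNat (nat_lit 305469), .ofNat (nat_lit 338250), .ofNat (nat_lit 352101), .ofNat (nat_lit 384882), .ofNat (nat_lit 299995), .ofNat (nat_lit 329995), .ofNat (nat_lit 349997), .ofNat (nat_lit 379997)⟩⟩, [⟨nat_lit 13, nat_lit 32, nat_lit 87, nat_lit 100, nat_lit 573604010⟩, ⟨nat_lit 16, nat_lit 31, nat_lit 100, nat_lit 92, nat_lit 383129187⟩]⟩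
noncomputable def p117_l162 : Lf2 := ⟨nat_lit 0, nat_lit 30, [nat_lit 15, nat_lit 5, nat_lit 5, nat_lit 20], false, nat_lit 160, nat_lit 184, nat_lit 4, nat_lit 360, ⟨nat_lit 149, nat_lit 851, nat_lit 0, nat_lit 7, nat_lit 279, nat_lit 851, nat_lit 137, nat_lit 0, nat_lit 0, nat_lit 0, nat_lit 0, nat_lit 0, nat_lit 40092696, nat_lit 20340286, nat_lit 6567018, nat_lit 4793217, true, true⟩,
 nat_lit 0, nat_lit 0, nat_lit 2552, nat_lit 1641, nat_lit 3464, nat_lit 1417, nat_lit 0, nat_lit 0, nat_lit 0, nat_lit 73, nat_lit 0, nat_lit 0, nat_lit 0, nat_lit 0, nat_lit 0, nat_lit 212750, nat_lit 0, nat_lit 0, [(nat_lit 29, [(nat_lit 0, nat_lit 851)])],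
 ⟨p117_k15, nat_lit 0, nat_lit 0, nat_lit 78, nat_lit 0, nat_lit 0, [nat_lit 804903600, nat_lit 1869828400, nat_lit 2451476400], [], [nat_lit 26096055528, nat_lit 26690073616, nat_lit 27632961664, nat_lit 28240409216, nat_lit 26538318077, nat_lit 27111256999, nat_lit 28027176512, nat_lit 28633758983], nat_lit 0, nat_lit 0, nat_lit 0, nat_lit 0, nat_lit 0, nat_lit 0, [], [nat_lit 55, nat_lit 40, nat_lit 40, nat_lit 80, nat_lit 3, nat_lit 260, nat_lit 50, nat_lit 8]⟩, ⟨p117_k22, nat_lit 0, nat_lit 0, nat_lit 580, nat_lit 0, nat_lit 589347, [nat_lit 698512000, nat_lit 1466458000, nat_lit 2094642000], [], [nat_lit 6324506532, nat_lit 6331491146, nat_lit 6472103195, nat_lit 6488218120, nat_lit 5217236655, nat_lit 5215082897, nat_lit 5345231914, nat_lit 5361266632], nat_lit 1271250, nat_lit 1271250, nat_lit 1271250, nat_lit 1271250, nat_lit 21650, nat_lit 2549250, [nat_lit 1100000, nat_lit 2127500, nat_lit 1271250],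 [nat_lit 56, nat_lit 40, nat_lit 40, nat_lit 80, nat_lit 32, nat_lit 483, nat_lit 250, nat_lit 11]⟩,
 ⟨nat_lit 0, nat_lit 1582, ⟨.ofNat (nat_lit 667557), .ofNat (nat_lit 722191), .ofNat (nat_lit 679215), .ofNat (nat_lit 733849), .ofNat (nat_lit 662498), .ofNat (nat_lit 712497), .ofNat (nat_lit 674999), .ofNat (nat_lit 724997)⟩, ⟨.ofNat (nat_lit 305469), .ofNat (nat_lit 338250), .ofNat (nat_lit 352101), .ofNat (nat_lit 384882), .ofNat (nat_lit 299995), .ofNat (nat_lit 329995), .ofNat (nat_lit 349997), .ofNat (nat_lit 379997)⟩⟩, [⟨nat_lit 13, nat_lit 33, nat_lit 85, nat_lit 100, nat_lit 460032808⟩, ⟨nat_lit 16, nat_lit 31, nat_lit 100, nat_lit 92, nat_lit 492793494⟩, ⟨nat_lit 7, nat_lit 75, nat_lit 100, nat_lit 90, nat_lit 14988101⟩]⟩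
noncomputable def p117_l163 : Lf2 := ⟨nat_lit 0, nat_lit 25, [nat_lit 44, nat_lit 5, nat_lit 5, nat_lit 20], false, nat_lit 160, nat_lit 188, nat_lit 4, nat_lit 336, ⟨nat_lit 1000, nat_lit 0, nat_lit 0, nat_lit 0, nat_lit 0, nat_lit 0, nat_lit 0, nat_lit 0, nat_lit 0, nat_lit 0, nat_lit 0, nat_lit 0, nat_lit 0, nat_lit 0, nat_lit 0, nat_lit 0, false, false⟩,
 nat_lit 0, nat_lit 0, nat_lit 16542, nat_lit 0, nat_lit 5779, nat_lit 9628, nat_lit 0, nat_lit 0, nat_lit 0, nat_lit 686, nat_lit 0, nat_lit 0, nat_lit 0, nat_lit 0, nat_lit 0, nat_lit 0, nat_lit 0, nat_lit 0, [],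
 ⟨p117_k10, nat_lit 0, nat_lit 0, nat_lit 78, nat_lit 0, nat_lit 0, [nat_lit 938000000, nat_lit 4688000000, nat_lit 6250000000], [], [nat_lit 27571561190, nat_lit 29124520076, nat_lit 29510189226, nat_lit 31159031576, nat_lit 28045609861, nat_lit 29565759793, nat_lit 29925447997, nat_lit 31496719755], nat_lit 0, nat_lit 0, nat_lit 0, nat_lit 0, nat_lit 0, nat_lit 0, [], [nat_lit 55, nat_lit 40, nat_lit 40, nat_lit 80, nat_lit 3, nat_lit 260, nat_lit 50, nat_lit 8]⟩, ⟨p117_k29, nat_lit 0, nat_lit 0, nat_lit 474, nat_lit 0, nat_lit 416739, [nat_lit 4688000000, nat_lit 9842000000, nat_lit 14058000000], [], [nat_lit 36175113383, nat_lit 36672458829, nat_lit 37865755041, nat_lit 38613656298, nat_lit 30729598234, nat_lit 31002069703, nat_lit 31834391362, nat_lit 32233776717], nat_lit 1271250, nat_lit 1271250, nat_lit 1271250, nat_lit 1271250, nat_lit 21650, nat_lit 2378850, [nat_lit 1100000, nat_lit 2127500, nat_lit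 1271250], [nat_lit 56, nat_lit 40, nat_lit 40, nat_lit 80, nat_lit 32, nat_lit 483, nat_lit 250, nat_lit 11]⟩,
 zbF0, [⟨nat_lit 16, nat_lit 32, nat_lit 100, nat_lit 87, nat_lit 3081005205⟩, ⟨nat_lit 19, nat_lit 100, nat_lit 86, nat_lit 89, nat_lit 105859623⟩]⟩
noncomputable def p117_l164 : Lf2 := ⟨nat_lit 0, nat_lit 30, [nat_lit 15, nat_lit 5, nat_lit 5, nat_lit 20], false, nat_lit 160, nat_lit 208, nat_lit 4, nat_lit 352, ⟨nat_lit 758, nat_lit 242, nat_lit 0, nat_lit 7, nat_lit 288, nat_lit 242, nat_lit 150, nat_lit 0, nat_lit 0, nat_lit 0, nat_lit 0, nat_lit 0, nat_lit 38708160, nat_lit 20945700, nat_lit 7346140, nat_lit 4943749, true, true⟩,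
 nat_lit 0, nat_lit 0, nat_lit 11545, nat_lit 0, nat_lit 5074, nat_lit 6720, nat_lit 0, nat_lit 0, nat_lit 0, nat_lit 430, nat_lit 0, nat_lit 0, nat_lit 0, nat_lit 0, nat_lit 0, nat_lit 60500, nat_lit 0, nat_lit 0, [(nat_lit 29, [(nat_lit 0, nat_lit 242)])],
 ⟨p117_k0, nat_lit 0, nat_lit 0, nat_lit 73, nat_lit 0, nat_lit 0, [nat_lit 900151200, nat_lit 3929378400, nat_lit 6528487200], [], [nat_lit 27040929540, nat_lit 27761842998, nat_lit 28851853484, nat_lit 29507282774, nat_lit 27888310167, nat_lit 28553283370, nat_lit 29547188531, nat_lit 30207435043], nat_lit 0, nat_lit 0, nat_lit 0, nat_lit 0, nat_lit 0, nat_lit 0, [], [nat_lit 57, nat_lit 40, nat_lit 40, nat_lit 80, nat_lit 7, nat_lit 272, nat_lit 60, nat_lit 7]⟩, ⟨p117_k5, nat_lit 0, nat_lit 0, nat_lit 411, nat_lit 0, nat_lit 252918, [nat_lit 3553504000, nat_lit 7460236000, nat_lit 10655964000], [], [nat_lit 29202840647, nat_lit 29577375072, nat_lit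 30306213538, nat_lit 30610415269, nat_lit 25453582008, nat_lit 25543318796, nat_lit 26113944207, nat_lit 26300896194], nat_lit 1271250, nat_lit 1271250, nat_lit 1271250, nat_lit 1271250, nat_lit 21650, nat_lit 2492450, [nat_lit 1100000, nat_lit 2127500, nat_lit 1271250], [nat_lit 56, nat_lit 40, nat_lit 40, nat_lit 80, nat_lit 32, nat_lit 483, nat_lit 250, nat_lit 11]⟩,
 ⟨nat_lit 1581, nat_lit 2237, ⟨.ofNat (nat_lit 682352), .ofNat (nat_lit 739368), .ofNat (nat_lit 705117), .ofNat (nat_lit 762142), .ofNat (nat_lit 679215), .ofNat (nat_lit 733851), .ofNat (nat_lit 702521), .ofNat (nat_lit 757166)⟩, ⟨.ofNat (nat_lit 329112), .ofNat (nat_lit 397530), .ofNat (nat_lit 351886), .ofNat (nat_lit 420305), .ofNat (nat_lit 328788), .ofNat (nat_lit 394351), .ofNat (nat_lit 352103), .ofNat (nat_lit 417666)⟩⟩, [⟨nat_lit 4, nat_lit 100, nat_lit 38, nat_lit 90, nat_lit 688832533⟩, ⟨nat_lit 7, nat_lit 78, nat_lit 100, nat_lit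 95, nat_lit 89798432⟩]⟩
noncomputable def p117_l165 : Lf2 := ⟨nat_lit 0, nat_lit 30, [nat_lit 15, nat_lit 5, nat_lit 5, nat_lit 20], false, nat_lit 160, nat_lit 184, nat_lit 4, nat_lit 352, ⟨nat_lit 756, nat_lit 244, nat_lit 0, nat_lit 7, nat_lit 286, nat_lit 244, nat_lit 142, nat_lit 0, nat_lit 0, nat_lit 0, nat_lit 0, nat_lit 0, nat_lit 39249295, nat_lit 20918889, nat_lit 6831816, nat_lit 4864904, true, true⟩,
 nat_lit 0, nat_lit 0, nat_lit 11519, nat_lit 0, nat_lit 5037, nat_lit 6705, nat_lit 0, nat_lit 0, nat_lit 0, nat_lit 429, nat_lit 0, nat_lit 0, nat_lit 0, nat_lit 0, nat_lit 0, nat_lit 61000, nat_lit 0, nat_lit 0, [(nat_lit 29, [(nat_lit 0, nat_lit 244)])],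
 ⟨p117_k15, nat_lit 0, nat_lit 0, nat_lit 78, nat_lit 0, nat_lit 0, [nat_lit 899838400, nat_lit 3879969600, nat_lit 5160881600], [], [nat_lit 27721483399, nat_lit 28439480628, nat_lit 29462130787, nat_lit 30223559528, nat_lit 28118273192, nat_lit 28808458658, nat_lit 29814298463, nat_lit 30546309280], nat_lit 0, nat_lit 0, nat_lit 0, nat_lit 0, nat_lit 0, nat_lit 0, [], [nat_lit 55, nat_lit 40, nat_lit 40, nat_lit 80, nat_lit 3, nat_lit 260, nat_lit 50, nat_lit 8]⟩, ⟨p117_k5, nat_lit 0, nat_lit 0, nat_lit 478, nat_lit 0, nat_lit 425081, [nat_lit 3544128000, nat_lit 7440552000, nat_lit 10627848000], [], [nat_lit 29121927277, nat_lit 29495485076, nat_lit 30222543067, nat_lit 30525929665, nat_lit 25379128821, nat_lit 25468703460, nat_lit 26042058431, nat_lit 26228464448], nat_lit 1271250, nat_lit 1271250, nat_lit 1271250, nat_lit 1271250, nat_lit 21650, nat_lit 2492450, [nat_lit 1100000, nat_lit 2127500, nat_lit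 1271250], [nat_lit 56, nat_lit 40, nat_lit 40, nat_lit 80, nat_lit 32, nat_lit 483, nat_lit 250, nat_lit 11]⟩,
 ⟨nat_lit 0, nat_lit 1582, ⟨.ofNat (nat_lit 679215), .ofNat (nat_lit 733849), .ofNat (nat_lit 702515), .ofNat (nat_lit 757165), .ofNat (nat_lit 674999), .ofNat (nat_lit 724997), .ofNat (nat_lit 699984), .ofNat (nat_lit 749998)⟩, ⟨.ofNat (nat_lit 328785), .ofNat (nat_lit 361566), .ofNat (nat_lit 352101), .ofNat (nat_lit 384882), .ofNat (nat_lit 324996), .ofNat (nat_lit 354996), .ofNat (nat_lit 349997), .ofNat (nat_lit 379997)⟩⟩, [⟨nat_lit 16, nat_lit 31, nat_lit 100, nat_lit 92, nat_lit 2886232640⟩, ⟨nat_lit 7, nat_lit 78, nat_lit 100, nat_lit 95, nat_lit 89597002⟩]⟩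
noncomputable def p117_l166 : Lf2 := ⟨nat_lit 0, nat_lit 30, [nat_lit 15, nat_lit 5, nat_lit 5, nat_lit 20], true, nat_lit 160, nat_lit 248, nat_lit 4, nat_lit 364, ⟨nat_lit 0, nat_lit 1000, nat_lit 0, nat_lit 7, nat_lit 284, nat_lit 1000, nat_lit 155, nat_lit 0, nat_lit 0, nat_lit 0, nat_lit 0, nat_lit 0, nat_lit 38780173, nat_lit 20443154, nat_lit 7776673, nat_lit 4980602, true, true⟩,
 nat_lit 0, nat_lit 0, nat_lit 0, nat_lit 100000, nat_lit 3397, nat_lit 0, nat_lit 0, nat_lit 0, nat_lit 0, nat_lit 0, nat_lit 0, nat_lit 0, nat_lit 0, nat_lit 0, nat_lit 0, nat_lit 250000, nat_lit 0, nat_lit 0, [(nat_lit 26, [(nat_lit 0, nat_lit 1000)]), (nat_lit 29, [(nat_lit 0, nat_lit 1000)])],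
 ⟨p117_k4, nat_lit 0, nat_lit 0, nat_lit 78, nat_lit 0, nat_lit 0, [nat_lit 781600001, nat_lit 1845600000, nat_lit 2928480000], [], [nat_lit 24322001472, nat_lit 26676950868, nat_lit 25995204812, nat_lit 28156853792, nat_lit 26263870522, nat_lit 28311915350, nat_lit 27708919564, nat_lit 29704176000], nat_lit 0, nat_lit 0, nat_lit 0, nat_lit 0, nat_lit 0, nat_lit 0, [], [nat_lit 81, nat_lit 40, nat_lit 40, nat_lit 80, nat_lit 13, nat_lit 289, nat_lit 75, nat_lit 7]⟩, C1.Rw.none,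
 ⟨nat_lit 0, nat_lit 3163, ⟨.ofNat (nat_lit 666215), .ofNat (nat_lit 727166), .ofNat (nat_lit 710256), .ofNat (nat_lit 771478), .ofNat (nat_lit 649999), .ofNat (nat_lit 699997), .ofNat (nat_lit 699730), .ofNat (nat_lit 749999)⟩, ⟨.ofNat (nat_lit 306113), .ofNat (nat_lit 440207), .ofNat (nat_lit 350425), .ofNat (nat_lit 484518), .ofNat (nat_lit 299996), .ofNat (nat_lit 409993), .ofNat (nat_lit 349998), .ofNat (nat_lit 459993)⟩⟩, [⟨nat_lit 4, nat_lit 100, nat_lit 44, nat_lit 87, nat_lit 5592655819⟩]⟩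
noncomputable def p117_l167 : Lf2 := ⟨nat_lit 0, nat_lit 25, [nat_lit 44, nat_lit 5, nat_lit 5, nat_lit 20], false, nat_lit 160, nat_lit 224, nat_lit 16, nat_lit 352, ⟨nat_lit 1000, nat_lit 0, nat_lit 0, nat_lit 0, nat_lit 0, nat_lit 0, nat_lit 0, nat_lit 0, nat_lit 0, nat_lit 0, nat_lit 0, nat_lit 0, nat_lit 0, nat_lit 0, nat_lit 0, nat_lit 0, false, false⟩,
 nat_lit 0, nat_lit 0, nat_lit 11003, nat_lit 9983, nat_lit 8028, nat_lit 5825, nat_lit 0, nat_lit 0, nat_lit 0, nat_lit 0, nat_lit 0, nat_lit 0, nat_lit 0, nat_lit 0, nat_lit 0, nat_lit 0, nat_lit 0, nat_lit 0, [],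
 ⟨p117_k7, nat_lit 0, nat_lit 0, nat_lit 99, nat_lit 0, nat_lit 0, [nat_lit 938000000, nat_lit 4688000000, nat_lit 7968000000], [], [nat_lit 31679095216, nat_lit 33153779016, nat_lit 35077873556, nat_lit 36324711912, nat_lit 32196105521, nat_lit 33505529180, nat_lit 35193832836, nat_lit 36545439841], nat_lit 0, nat_lit 0, nat_lit 0, nat_lit 0, nat_lit 0, nat_lit 0, [], [nat_lit 57, nat_lit 40, nat_lit 40, nat_lit 80, nat_lit 7, nat_lit 272, nat_lit 60, nat_lit 7]⟩, ⟨p117_k11, nat_lit 0, nat_lit 0, nat_lit 301, nat_lit 0, nat_lit 82261, [nat_lit 4688000000, nat_lit 9842000000, nat_lit 14058000000], [], [nat_lit 42713283121, nat_lit 43887518061, nat_lit 45905033916, nat_lit 46921479705, nat_lit 43078822880, nat_lit 43594197620, nat_lit 44870688677, nat_lit 45318332944], nat_lit 1271250, nat_lit 1271250, nat_lit 1271250, nat_lit 1271250, nat_lit 88400, nat_lit 2511800, [nat_lit 1100000, nat_lit 2127500, nat_lit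 1271250], [nat_lit 56, nat_lit 40, nat_lit 40, nat_lit 80, nat_lit 32, nat_lit 538, nat_lit 300, nat_lit 12]⟩,
 zbF0, [⟨nat_lit 13, nat_lit 55, nat_lit 68, nat_lit 100, nat_lit 73049331⟩, ⟨nat_lit 4, nat_lit 100, nat_lit 53, nat_lit 84, nat_lit 513412132⟩, ⟨nat_lit 7, nat_lit 81, nat_lit 100, nat_lit 88, nat_lit 196975995⟩]⟩
noncomputable def p117_l168 : Lf2 := ⟨nat_lit 1, nat_lit 30, [nat_lit 15, nat_lit 5, nat_lit 5, nat_lit 20], false, nat_lit 160, nat_lit 248, nat_lit 16, nat_lit 364, zbN0,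
 nat_lit 0, nat_lit 0, nat_lit 0, nat_lit 0, nat_lit 0, nat_lit 0, nat_lit 0, nat_lit 0, nat_lit 0, nat_lit 0, nat_lit 0, nat_lit 0, nat_lit 0, nat_lit 0, nat_lit 0, nat_lit 0, nat_lit 0, nat_lit 0, [],
 C1.Rw.none, C1.Rw.none,
 zbF0, []⟩
noncomputable def p117_l169 : Lf2 := ⟨nat_lit 1, nat_lit 30, [nat_lit 15, nat_lit 5, nat_lit 5, nat_lit 20], false, nat_lit 160, nat_lit 248, nat_lit 16, nat_lit 352, zbN0,
 nat_lit 0, nat_lit 0, nat_lit 0, nat_lit 0, nat_lit 0, nat_lit 0, nat_lit 0, nat_lit 0, nat_lit 0, nat_lit 0, nat_lit 0, nat_lit 0, nat_lit 0, nat_lit 0, nat_lit 0, nat_lit 0, nat_lit 0, nat_lit 0, [],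
 C1.Rw.none, C1.Rw.none,
 zbF0, []⟩
noncomputable def p117_l170 : Lf2 := ⟨nat_lit 0, nat_lit 30, [nat_lit 15, nat_lit 5, nat_lit 5, nat_lit 20], false, nat_lit 160, nat_lit 232, nat_lit 16, nat_lit 352, ⟨nat_lit 1000, nat_lit 0, nat_lit 0, nat_lit 0, nat_lit 0, nat_lit 0, nat_lit 0, nat_lit 0, nat_lit 0, nat_lit 0, nat_lit 0, nat_lit 0, nat_lit 0, nat_lit 0, nat_lit 0, nat_lit 0, false, false⟩,
 nat_lit 0, nat_lit 0, nat_lit 14923, nat_lit 3530, nat_lit 7948, nat_lit 8686, nat_lit 0, nat_lit 0, nat_lit 0, nat_lit 601, nat_lit 0, nat_lit 0, nat_lit 0, nat_lit 0, nat_lit 0, nat_lit 0, nat_lit 0, nat_lit 0, [],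
 ⟨p117_k17, nat_lit 0, nat_lit 0, nat_lit 90, nat_lit 0, nat_lit 0, [nat_lit 938000000, nat_lit 4688000000, nat_lit 7968000000], [], [nat_lit 32445165356, nat_lit 33178033256, nat_lit 35206783989, nat_lit 35842782752, nat_lit 32944197511, nat_lit 33584882094, nat_lit 35336197159, nat_lit 35892410162], nat_lit 0, nat_lit 0, nat_lit 0, nat_lit 0, nat_lit 0, nat_lit 0, [], [nat_lit 57, nat_lit 40, nat_lit 40, nat_lit 80, nat_lit 7, nat_lit 272, nat_lit 60, nat_lit 7]⟩, ⟨p117_k5, nat_lit 0, nat_lit 0, nat_lit 298, nat_lit 0, nat_lit 86264, [nat_lit 4688000000, nat_lit 9842000000, nat_lit 14058000000], [], [nat_lit 37259328952, nat_lit 37981253505, nat_lit 40593342758, nat_lit 41142910588, nat_lit 34084835239, nat_lit 34334936057, nat_lit 35807855769, nat_lit 35966772882], nat_lit 1271250, nat_lit 1271250, nat_lit 1271250, nat_lit 1271250, nat_lit 88400, nat_lit 2511800, [nat_lit 1100000, nat_lit 2127500, nat_lit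 1271250], [nat_lit 56, nat_lit 40, nat_lit 40, nat_lit 80, nat_lit 32, nat_lit 483, nat_lit 250, nat_lit 11]⟩,
 zbF0, [⟨nat_lit 13, nat_lit 52, nat_lit 69, nat_lit 100, nat_lit 21871943⟩, ⟨nat_lit 4, nat_lit 100, nat_lit 48, nat_lit 89, nat_lit 483360676⟩, ⟨nat_lit 7, nat_lit 78, nat_lit 100, nat_lit 95, nat_lit 126407878⟩]⟩
noncomputable def p117_l171 : Lf2 := ⟨nat_lit 1, nat_lit 30, [nat_lit 15, nat_lit 5, nat_lit 5, nat_lit 20], false, nat_lit 160, nat_lit 248, nat_lit 16, nat_lit 364, zbN0,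
 nat_lit 0, nat_lit 0, nat_lit 0, nat_lit 0, nat_lit 0, nat_lit 0, nat_lit 0, nat_lit 0, nat_lit 0, nat_lit 0, nat_lit 0, nat_lit 0, nat_lit 0, nat_lit 0, nat_lit 0, nat_lit 0, nat_lit 0, nat_lit 0, [],
 C1.Rw.none, C1.Rw.none,
 zbF0, []⟩
noncomputable def p117_l172 : Lf2 := ⟨nat_lit 1, nat_lit 30, [nat_lit 15, nat_lit 5, nat_lit 5, nat_lit 20], false, nat_lit 160, nat_lit 248, nat_lit 16, nat_lit 364, zbN0,
 nat_lit 0, nat_lit 0, nat_lit 0, nat_lit 0, nat_lit 0, nat_lit 0, nat_lit 0, nat_lit 0, nat_lit 0, nat_lit 0, nat_lit 0, nat_lit 0, nat_lit 0, nat_lit 0, nat_lit 0, nat_lit 0, nat_lit 0, nat_lit 0, [],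
 C1.Rw.none, C1.Rw.none,
 zbF0, []⟩
noncomputable def p117_l173 : Lf2 := ⟨nat_lit 0, nat_lit 25, [nat_lit 44, nat_lit 5, nat_lit 5, nat_lit 20], false, nat_lit 160, nat_lit 188, nat_lit 16, nat_lit 352, ⟨nat_lit 1000, nat_lit 0, nat_lit 0, nat_lit 0, nat_lit 0, nat_lit 0, nat_lit 0, nat_lit 0, nat_lit 0, nat_lit 0, nat_lit 0, nat_lit 0, nat_lit 0, nat_lit 0, nat_lit 0, nat_lit 0, false, false⟩,
 nat_lit 0, nat_lit 0, nat_lit 18258, nat_lit 0, nat_lit 6651, nat_lit 9665, nat_lit 0, nat_lit 0, nat_lit 0, nat_lit 459, nat_lit 0, nat_lit 0, nat_lit 0, nat_lit 0, nat_lit 0, nat_lit 0, nat_lit 0, nat_lit 0, [],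
 ⟨p117_k10, nat_lit 0, nat_lit 0, nat_lit 95, nat_lit 0, nat_lit 0, [nat_lit 938000000, nat_lit 4688000000, nat_lit 6250000000], [], [nat_lit 31157862884, nat_lit 32584862408, nat_lit 32890141496, nat_lit 34265225957, nat_lit 31447325036, nat_lit 32807112809, nat_lit 33093372902, nat_lit 34457456022], nat_lit 0, nat_lit 0, nat_lit 0, nat_lit 0, nat_lit 0, nat_lit 0, [], [nat_lit 55, nat_lit 40, nat_lit 40, nat_lit 80, nat_lit 3, nat_lit 260, nat_lit 50, nat_lit 8]⟩, ⟨p117_k11, nat_lit 0, nat_lit 0, nat_lit 495, nat_lit 0, nat_lit 490373, [nat_lit 4688000000, nat_lit 9842000000, nat_lit 14058000000], [], [nat_lit 44030911200, nat_lit 44305206373, nat_lit 45055730986, nat_lit 45345253573, nat_lit 36469635772, nat_lit 36580478552, nat_lit 37342825700, nat_lit 37665947506], nat_lit 1271250, nat_lit 1271250, nat_lit 1271250, nat_lit 1271250, nat_lit 88400, nat_lit 2511800, [nat_lit 1100000, nat_lit 2127500, nat_lit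 1271250], [nat_lit 56, nat_lit 40, nat_lit 40, nat_lit 80, nat_lit 32, nat_lit 483, nat_lit 250, nat_lit 11]⟩,
 zbF0, [⟨nat_lit 16, nat_lit 32, nat_lit 100, nat_lit 87, nat_lit 3665359630⟩, ⟨nat_lit 19, nat_lit 100, nat_lit 81, nat_lit 88, nat_lit 51820612⟩, ⟨nat_lit 22, nat_lit 74, nat_lit 78, nat_lit 100, nat_lit 49558077⟩]⟩
noncomputable def p117_l174 : Lf2 := ⟨nat_lit 0, nat_lit 30, [nat_lit 15, nat_lit 5, nat_lit 5, nat_lit 20], false, nat_lit 160, nat_lit 208, nat_lit 16, nat_lit 364, ⟨nat_lit 526, nat_lit 474, nat_lit 0, nat_lit 8, nat_lit 296, nat_lit 474, nat_lit 150, nat_lit 0, nat_lit 0, nat_lit 0, nat_lit 0, nat_lit 0, nat_lit 38105414, nat_lit 21627015, nat_lit 7267571, nat_lit 4964273, true, true⟩,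
 nat_lit 0, nat_lit 0, nat_lit 10284, nat_lit 0, nat_lit 4493, nat_lit 5444, nat_lit 0, nat_lit 0, nat_lit 0, nat_lit 352, nat_lit 0, nat_lit 0, nat_lit 0, nat_lit 0, nat_lit 0, nat_lit 118500, nat_lit 0, nat_lit 0, [(nat_lit 29, [(nat_lit 0, nat_lit 474)])],
 ⟨p117_k0, nat_lit 0, nat_lit 0, nat_lit 79, nat_lit 0, nat_lit 0, [nat_lit 863866401, nat_lit 3202104800, nat_lit 5181121600], [], [nat_lit 28231271238, nat_lit 28846852643, nat_lit 29220601268, nat_lit 29899677202, nat_lit 28968279323, nat_lit 29570759207, nat_lit 29938279229, nat_lit 30566119851], nat_lit 0, nat_lit 0, nat_lit 0, nat_lit 0, nat_lit 0, nat_lit 0, [], [nat_lit 57, nat_lit 40, nat_lit 40, nat_lit 80, nat_lit 7, nat_lit 272, nat_lit 60, nat_lit 7]⟩, ⟨p117_k1, nat_lit 0, nat_lit 0, nat_lit 426, nat_lit 0, nat_lit 167032, [nat_lit 2465888000, nat_lit 5176892000, nat_lit 8626400000], [], [nat_lit 21320103415, nat_lit 21619544712, nat_lit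 22030099224, nat_lit 22291807658, nat_lit 18204363021, nat_lit 18254958565, nat_lit 18574672561, nat_lit 18895517746], nat_lit 1271250, nat_lit 1271250, nat_lit 1271250, nat_lit 1271250, nat_lit 88400, nat_lit 2598350, [nat_lit 1100000, nat_lit 2127500, nat_lit 1271250], [nat_lit 83, nat_lit 40, nat_lit 40, nat_lit 80, nat_lit 73, nat_lit 483, nat_lit 250, nat_lit 10]⟩,
 ⟨nat_lit 1581, nat_lit 2237, ⟨.ofNat (nat_lit 716594), .ofNat (nat_lit 745101), .ofNat (nat_lit 739368), .ofNat (nat_lit 767876), .ofNat (nat_lit 710536), .ofNat (nat_lit 737854), .ofNat (nat_lit 733851), .ofNat (nat_lit 761169)⟩, ⟨.ofNat (nat_lit 329112), .ofNat (nat_lit 397530), .ofNat (nat_lit 351886), .ofNat (nat_lit 420305), .ofNat (nat_lit 328788), .ofNat (nat_lit 394351), .ofNat (nat_lit 352103), .ofNat (nat_lit 417666)⟩⟩, [⟨nat_lit 13, nat_lit 39, nat_lit 83, nat_lit 100, nat_lit 424348669⟩, ⟨nat_lit 4, nat_lit 100, nat_lit 38, nat_lit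 90, nat_lit 664024262⟩, ⟨nat_lit 22, nat_lit 76, nat_lit 71, nat_lit 100, nat_lit 74259578⟩]⟩
noncomputable def p117_l175 : Lf2 := ⟨nat_lit 0, nat_lit 30, [nat_lit 15, nat_lit 5, nat_lit 5, nat_lit 20], false, nat_lit 160, nat_lit 208, nat_lit 16, nat_lit 352, ⟨nat_lit 1000, nat_lit 0, nat_lit 0, nat_lit 0, nat_lit 0, nat_lit 0, nat_lit 0, nat_lit 0, nat_lit 0, nat_lit 0, nat_lit 0, nat_lit 0, nat_lit 0, nat_lit 0, nat_lit 0, nat_lit 0, false, false⟩,
 nat_lit 0, nat_lit 0, nat_lit 15383, nat_lit 0, nat_lit 5504, nat_lit 8954, nat_lit 0, nat_lit 0, nat_lit 0, nat_lit 607, nat_lit 0, nat_lit 0, nat_lit 0, nat_lit 0, nat_lit 0, nat_lit 0, nat_lit 0, nat_lit 0, [],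
 ⟨p117_k0, nat_lit 0, nat_lit 0, nat_lit 80, nat_lit 0, nat_lit 0, [nat_lit 938000000, nat_lit 4688000000, nat_lit 7968000000], [], [nat_lit 29531512464, nat_lit 29873972884, nat_lit 31225632298, nat_lit 31540122113, nat_lit 30196005159, nat_lit 30511845487, nat_lit 31753685807, nat_lit 32082332309], nat_lit 0, nat_lit 0, nat_lit 0, nat_lit 0, nat_lit 0, nat_lit 0, [], [nat_lit 57, nat_lit 40, nat_lit 40, nat_lit 80, nat_lit 7, nat_lit 272, nat_lit 60, nat_lit 7]⟩, ⟨p117_k5, nat_lit 0, nat_lit 0, nat_lit 372, nat_lit 0, nat_lit 168631, [nat_lit 4688000000, nat_lit 9842000000, nat_lit 14058000000], [], [nat_lit 38452731321, nat_lit 38850970744, nat_lit 39873083760, nat_lit 40194065599, nat_lit 33948095938, nat_lit 34132174376, nat_lit 35011680818, nat_lit 35191316535], nat_lit 1271250, nat_lit 1271250, nat_lit 1271250, nat_lit 1271250, nat_lit 88400, nat_lit 2511800, [nat_lit 1100000, nat_lit 2127500, nat_lit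 1271250], [nat_lit 56, nat_lit 40, nat_lit 40, nat_lit 80, nat_lit 32, nat_lit 483, nat_lit 250, nat_lit 11]⟩,
 zbF0, [⟨nat_lit 13, nat_lit 44, nat_lit 76, nat_lit 100, nat_lit 25596998⟩, ⟨nat_lit 4, nat_lit 100, nat_lit 41, nat_lit 89, nat_lit 695227079⟩, ⟨nat_lit 7, nat_lit 78, nat_lit 100, nat_lit 95, nat_lit 129221476⟩]⟩
noncomputable def p117_l176 : Lf2 := ⟨nat_lit 0, nat_lit 30, [nat_lit 15, nat_lit 5, nat_lit 5, nat_lit 20], false, nat_lit 160, nat_lit 196, nat_lit 16, nat_lit 352, ⟨nat_lit 1000, nat_lit 0, nat_lit 0, nat_lit 0, nat_lit 0, nat_lit 0, nat_lit 0, nat_lit 0, nat_lit 0, nat_lit 0, nat_lit 0, nat_lit 0, nat_lit 0, nat_lit 0, nat_lit 0, nat_lit 0, false, false⟩,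
 nat_lit 0, nat_lit 0, nat_lit 14761, nat_lit 0, nat_lit 5513, nat_lit 8591, nat_lit 0, nat_lit 0, nat_lit 0, nat_lit 542, nat_lit 0, nat_lit 0, nat_lit 0, nat_lit 0, nat_lit 0, nat_lit 0, nat_lit 0, nat_lit 0, [],
 ⟨p117_k16, nat_lit 0, nat_lit 0, nat_lit 80, nat_lit 0, nat_lit 0, [nat_lit 938000000, nat_lit 4688000000, nat_lit 6250000000], [], [nat_lit 29872628811, nat_lit 30215397863, nat_lit 31123183419, nat_lit 31444946834, nat_lit 30350523473, nat_lit 30673301820, nat_lit 31525635814, nat_lit 31857369904], nat_lit 0, nat_lit 0, nat_lit 0, nat_lit 0, nat_lit 0, nat_lit 0, [], [nat_lit 55, nat_lit 40, nat_lit 40, nat_lit 80, nat_lit 3, nat_lit 260, nat_lit 50, nat_lit 8]⟩, ⟨p117_k5, nat_lit 0, nat_lit 0, nat_lit 402, nat_lit 0, nat_lit 251752, [nat_lit 4688000000, nat_lit 9842000000, nat_lit 14058000000], [], [nat_lit 39725358964, nat_lit 40125295193, nat_lit 40771116689, nat_lit 41115100336, nat_lit 35084459130,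 nat_lit 35162781534, nat_lit 35737891296, nat_lit 35942522611], nat_lit 1271250, nat_lit 1271250, nat_lit 1271250, nat_lit 1271250, nat_lit 88400, nat_lit 2511800, [nat_lit 1100000, nat_lit 2127500, nat_lit 1271250], [nat_lit 56, nat_lit 40, nat_lit 40, nat_lit 80, nat_lit 32, nat_lit 483, nat_lit 250, nat_lit 11]⟩,
 zbF0, [⟨nat_lit 4, nat_lit 100, nat_lit 35, nat_lit 90, nat_lit 2311293336⟩, ⟨nat_lit 19, nat_lit 100, nat_lit 78, nat_lit 95, nat_lit 104546461⟩, ⟨nat_lit 22, nat_lit 76, nat_lit 74, nat_lit 100, nat_lit 27496519⟩]⟩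
noncomputable def p117_l177 : Lf2 := ⟨nat_lit 1, nat_lit 30, [nat_lit 15, nat_lit 5, nat_lit 5, nat_lit 20], false, nat_lit 160, nat_lit 208, nat_lit 16, nat_lit 352, zbN0,
 nat_lit 0, nat_lit 0, nat_lit 0, nat_lit 0, nat_lit 0, nat_lit 0, nat_lit 0, nat_lit 0, nat_lit 0, nat_lit 0, nat_lit 0, nat_lit 0, nat_lit 0, nat_lit 0, nat_lit 0, nat_lit 0, nat_lit 0, nat_lit 0, [],
 C1.Rw.none, C1.Rw.none,
 zbF0, []⟩
noncomputable def p117_l178 : Lf2 := ⟨nat_lit 0, nat_lit 30, [nat_lit 15, nat_lit 5, nat_lit 5, nat_lit 20], false, nat_lit 160, nat_lit 184, nat_lit 16, nat_lit 352, ⟨nat_lit 1000, nat_lit 0, nat_lit 0, nat_lit 0, nat_lit 0, nat_lit 0, nat_lit 0, nat_lit 0, nat_lit 0, nat_lit 0, nat_lit 0, nat_lit 0, nat_lit 0, nat_lit 0, nat_lit 0, nat_lit 0, false, false⟩,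
 nat_lit 0, nat_lit 0, nat_lit 14689, nat_lit 0, nat_lit 5562, nat_lit 8550, nat_lit 0, nat_lit 0, nat_lit 0, nat_lit 542, nat_lit 0, nat_lit 0, nat_lit 0, nat_lit 0, nat_lit 0, nat_lit 0, nat_lit 0, nat_lit 0, [],
 ⟨p117_k15, nat_lit 0, nat_lit 0, nat_lit 80, nat_lit 0, nat_lit 0, [nat_lit 938000000, nat_lit 4688000000, nat_lit 6250000000], [], [nat_lit 30209760462, nat_lit 30554209847, nat_lit 31032780898, nat_lit 31417212478, nat_lit 30513086368, nat_lit 30844115565, nat_lit 31324273757, nat_lit 31694541555], nat_lit 0, nat_lit 0, nat_lit 0, nat_lit 0, nat_lit 0, nat_lit 0, [], [nat_lit 55, nat_lit 40, nat_lit 40, nat_lit 80, nat_lit 3, nat_lit 260, nat_lit 50, nat_lit 8]⟩, ⟨p117_k5, nat_lit 0, nat_lit 0, nat_lit 434, nat_lit 0, nat_lit 339650, [nat_lit 4688000000, nat_lit 9842000000, nat_lit 14058000000], [], [nat_lit 39753927960, nat_lit 40154055840, nat_lit 40449630961, nat_lit 40812607009, nat_lit 35163211060,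 nat_lit 35242859881, nat_lit 35501354673, nat_lit 35699229896], nat_lit 1271250, nat_lit 1271250, nat_lit 1271250, nat_lit 1271250, nat_lit 88400, nat_lit 2511800, [nat_lit 1100000, nat_lit 2127500, nat_lit 1271250], [nat_lit 56, nat_lit 40, nat_lit 40, nat_lit 80, nat_lit 32, nat_lit 483, nat_lit 250, nat_lit 11]⟩,
 zbF0, [⟨nat_lit 16, nat_lit 31, nat_lit 100, nat_lit 92, nat_lit 3549501287⟩, ⟨nat_lit 7, nat_lit 78, nat_lit 100, nat_lit 95, nat_lit 127468201⟩]⟩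
noncomputable def p117_l179 : Lf2 := ⟨nat_lit 1, nat_lit 30, [nat_lit 15, nat_lit 5, nat_lit 5, nat_lit 20], false, nat_lit 160, nat_lit 208, nat_lit 16, nat_lit 364, zbN0,
 nat_lit 0, nat_lit 0, nat_lit 0, nat_lit 0, nat_lit 0, nat_lit 0, nat_lit 0, nat_lit 0, nat_lit 0, nat_lit 0, nat_lit 0, nat_lit 0, nat_lit 0, nat_lit 0, nat_lit 0, nat_lit 0, nat_lit 0, nat_lit 0, [],
 C1.Rw.none, C1.Rw.none,
 zbF0, []⟩
noncomputable def b_V_900_600_20_80 : St := ⟨true, nat_lit 0, nat_lit 1, nat_lit 1, nat_lit 120, nat_lit 360, nat_lit 400, nat_lit 240, nat_lit 280, nat_lit 240, nat_lit 376, nat_lit 80, nat_lit 120, nat_lit 160, nat_lit 248, nat_lit 0, nat_lit 364, nat_lit 120, nat_lit 156, nat_lit 0, nat_lit 0, nat_lit 0, nat_lit 0⟩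
theorem d_V_900_600_20_80 (h : EB TB.env) : Dead b_V_900_600_20_80 := chkB_sound0 h (T :=
(.spl (nat_lit 2) (nat_lit 320)
(.spl (nat_lit 2) (nat_lit 280)
(.spl (nat_lit 0) (nat_lit 380)
(.spl (nat_lit 6) (nat_lit 136)
(.spl (nat_lit 1) (nat_lit 260)
(.leaf p117_l150)
(.trX (nat_lit 19) (nat_lit 100) (nat_lit 69) (nat_lit 96) (nat_lit 352) (.leaf p117_l151)))
(.leaf p117_l152))
(.trX (nat_lit 16) (nat_lit 44) (nat_lit 100) (nat_lit 92) (nat_lit 208) (.spl (nat_lit 0) (nat_lit 390)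
(.leaf p117_l153)
(.trX (nat_lit 16) (nat_lit 31) (nat_lit 100) (nat_lit 92) (nat_lit 184) (.leaf p117_l154)))))
(.trZ (nat_lit 9) (nat_lit 100) (nat_lit 94) (nat_lit 21) (nat_lit 4) (.spl (nat_lit 6) (nat_lit 140)
(.spl (nat_lit 0) (nat_lit 380)
(.spl (nat_lit 1) (nat_lit 260)
(.leaf p117_l155)
(.trX (nat_lit 19) (nat_lit 100) (nat_lit 69) (nat_lit 96) (nat_lit 352) (.leaf p117_l156)))
(.trX (nat_lit 16) (nat_lit 44) (nat_lit 100) (nat_lit 92) (nat_lit 208) (.spl (nat_lit 1) (nat_lit 260)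
(.spl (nat_lit 0) (nat_lit 390)
(.spl (nat_lit 3) (nat_lit 100)
(.trX (nat_lit 16) (nat_lit 44) (nat_lit 100) (nat_lit 87) (nat_lit 188) (.trX (nat_lit 19) (nat_lit 100) (nat_lit 68) (nat_lit 88) (nat_lit 352) (.leaf p117_l157)))
(.spl (nat_lit 6) (nat_lit 128)
(.spl (nat_lit 0) (nat_lit 385)
(.leaf p117_l158)
(.trX (nat_lit 16) (nat_lit 38) (nat_lit 100) (nat_lit 92) (nat_lit 196) (.leaf p117_l159)))
(.leaf p117_l160)))
(.trX (nat_lit 16) (nat_lit 31) (nat_lit 100) (nat_lit 92) (nat_lit 184) (.spl (nat_lit 1) (nat_lit 250)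
(.trX (nat_lit 13) (nat_lit 32) (nat_lit 87) (nat_lit 100) (nat_lit 308) (.leaf p117_l161))
(.trX (nat_lit 19) (nat_lit 100) (nat_lit 64) (nat_lit 95) (nat_lit 360) (.leaf p117_l162)))))
(.trX (nat_lit 19) (nat_lit 100) (nat_lit 69) (nat_lit 96) (nat_lit 352) (.spl (nat_lit 3) (nat_lit 100)
(.trX (nat_lit 16) (nat_lit 44) (nat_lit 100) (nat_lit 87) (nat_lit 188) (.trX (nat_lit 19) (nat_lit 100) (nat_lit 77) (nat_lit 91) (nat_lit 336) (.leaf p117_l163)))
(.spl (nat_lit 0) (nat_lit 390)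
(.leaf p117_l164)
(.trX (nat_lit 16) (nat_lit 31) (nat_lit 100) (nat_lit 92) (nat_lit 184) (.leaf p117_l165))))))))
(.leaf p117_l166))))
(.trZ (nat_lit 9) (nat_lit 100) (nat_lit 82) (nat_lit 44) (nat_lit 16) (.spl (nat_lit 0) (nat_lit 380)
(.spl (nat_lit 6) (nat_lit 136)
(.spl (nat_lit 3) (nat_lit 100)
(.trX (nat_lit 16) (nat_lit 60) (nat_lit 100) (nat_lit 87) (nat_lit 224) (.trX (nat_lit 19) (nat_lit 100) (nat_lit 68) (nat_lit 88) (nat_lit 352) (.leaf p117_l167)))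
(.spl (nat_lit 6) (nat_lit 128)
(.spl (nat_lit 1) (nat_lit 260)
(.trX (nat_lit 13) (nat_lit 63) (nat_lit 61) (nat_lit 100) (nat_lit 364) (.leaf p117_l168))
(.trX (nat_lit 19) (nat_lit 100) (nat_lit 69) (nat_lit 96) (nat_lit 352) (.spl (nat_lit 0) (nat_lit 370)
(.leaf p117_l169)
(.trX (nat_lit 13) (nat_lit 57) (nat_lit 62) (nat_lit 100) (nat_lit 368) (.trX (nat_lit 16) (nat_lit 53) (nat_lit 100) (nat_lit 93) (nat_lit 232) (.leaf p117_l170))))))
(.leaf p117_l171)))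
(.leaf p117_l172))
(.trX (nat_lit 13) (nat_lit 48) (nat_lit 71) (nat_lit 100) (nat_lit 352) (.trX (nat_lit 16) (nat_lit 44) (nat_lit 100) (nat_lit 92) (nat_lit 208) (.spl (nat_lit 3) (nat_lit 100)
(.trX (nat_lit 16) (nat_lit 44) (nat_lit 100) (nat_lit 87) (nat_lit 188) (.trX (nat_lit 19) (nat_lit 100) (nat_lit 68) (nat_lit 88) (nat_lit 352) (.leaf p117_l173)))
(.spl (nat_lit 6) (nat_lit 144)
(.spl (nat_lit 1) (nat_lit 260)
(.trX (nat_lit 13) (nat_lit 46) (nat_lit 76) (nat_lit 100) (nat_lit 340) (.spl (nat_lit 0) (nat_lit 390)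
(.leaf p117_l174)
(.emL (nat_lit 13) (nat_lit 33) (nat_lit 85) (nat_lit 100))))
(.trX (nat_lit 19) (nat_lit 100) (nat_lit 69) (nat_lit 96) (nat_lit 352) (.spl (nat_lit 0) (nat_lit 390)
(.spl (nat_lit 6) (nat_lit 136)
(.spl (nat_lit 0) (nat_lit 385)
(.leaf p117_l175)
(.trX (nat_lit 13) (nat_lit 41) (nat_lit 76) (nat_lit 100) (nat_lit 344) (.trX (nat_lit 16) (nat_lit 38) (nat_lit 100) (nat_lit 92) (nat_lit 196) (.leaf p117_l176))))
(.leaf p117_l177))
(.trX (nat_lit 13) (nat_lit 34) (nat_lit 81) (nat_lit 100) (nat_lit 336) (.trX (nat_lit 16) (nat_lit 31) (nat_lit 100) (nat_lit 92) (nat_lit 184) (.spl (nat_lit 0) (nat_lit 395)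
(.leaf p117_l178)
(.emL (nat_lit 13) (nat_lit 24) (nat_lit 88) (nat_lit 100))))))))
(.leaf p117_l179))))))))) (by decide +kernel)
noncomputable def p117_l180 : Lf2 := ⟨nat_lit 0, nat_lit 30, [nat_lit 15, nat_lit 5, nat_lit 5, nat_lit 20], true, nat_lit 8, nat_lit 248, nat_lit 0, nat_lit 364, ⟨nat_lit 0, nat_lit 1000, nat_lit 0, nat_lit 6, nat_lit 213, nat_lit 1000, nat_lit 94, nat_lit 0, nat_lit 0, nat_lit 0, nat_lit 0, nat_lit 0, nat_lit 0, nat_lit 0, nat_lit 0, nat_lit 5000000, false, false⟩,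
 nat_lit 0, nat_lit 0, nat_lit 0, nat_lit 5644, nat_lit 3401, nat_lit 0, nat_lit 165, nat_lit 0, nat_lit 0, nat_lit 0, nat_lit 0, nat_lit 0, nat_lit 0, nat_lit 0, nat_lit 0, nat_lit 319000, nat_lit 0, nat_lit 0, [(nat_lit 26, [(nat_lit 0, nat_lit 540), (nat_lit 1, nat_lit 460)]), (nat_lit 29, [(nat_lit 0, nat_lit 540), (nat_lit 1, nat_lit 460)])],
 ⟨p117_k4, nat_lit 0, nat_lit 0, nat_lit 218, nat_lit 0, nat_lit 0, [nat_lit 868816000, nat_lit 1449448001, nat_lit 1905697600], [], [nat_lit 22715953906, nat_lit 25421885695, nat_lit 24837071563, nat_lit 27184834120, nat_lit 23860788312, nat_lit 25714199347, nat_lit 25426093716, nat_lit 27024526836], nat_lit 0, nat_lit 0, nat_lit 0, nat_lit 0, nat_lit 0, nat_lit 0, [], [nat_lit 81, nat_lit 40, nat_lit 40, nat_lit 80, nat_lit 13, nat_lit 345, nat_lit 125, nat_lit 10]⟩, C1.Rw.none,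
 ⟨nat_lit 0, nat_lit 3163, ⟨.ofNat (nat_lit 401957), .ofNat (nat_lit 605128), .ofNat (nat_lit 443658), .ofNat (nat_lit 646918), .ofNat (nat_lit 431745), .ofNat (nat_lit 599865), .ofNat (nat_lit 479136), .ofNat (nat_lit 647345)⟩, ⟨.ofNat (nat_lit 20000), .ofNat (nat_lit 440207), .ofNat (nat_lit 20000), .ofNat (nat_lit 484518), .ofNat (nat_lit 20000), .ofNat (nat_lit 409993), .ofNat (nat_lit 20000), .ofNat (nat_lit 459993)⟩⟩, [⟨nat_lit 4, nat_lit 100, nat_lit 44, nat_lit 87, nat_lit 140221524⟩]⟩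
noncomputable def p117_l181 : Lf2 := ⟨nat_lit 0, nat_lit 30, [nat_lit 15, nat_lit 5, nat_lit 5, nat_lit 20], false, nat_lit 8, nat_lit 248, nat_lit 0, nat_lit 160, ⟨nat_lit 1000, nat_lit 0, nat_lit 0, nat_lit 0, nat_lit 0, nat_lit 0, nat_lit 0, nat_lit 0, nat_lit 0, nat_lit 0, nat_lit 0, nat_lit 0, nat_lit 0, nat_lit 0, nat_lit 0, nat_lit 0, false, false⟩,
 nat_lit 0, nat_lit 0, nat_lit 0, nat_lit 12151, nat_lit 6205, nat_lit 6098, nat_lit 244, nat_lit 0, nat_lit 0, nat_lit 740, nat_lit 0, nat_lit 0, nat_lit 0, nat_lit 0, nat_lit 0, nat_lit 0, nat_lit 0, nat_lit 0, [],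
 ⟨p117_k4, nat_lit 0, nat_lit 0, nat_lit 214, nat_lit 0, nat_lit 0, [nat_lit 938000000, nat_lit 4688000000, nat_lit 9842000000], [], [nat_lit 33187399259, nat_lit 36463242600, nat_lit 39755246183, nat_lit 42055022052, nat_lit 30516104141, nat_lit 32549141387, nat_lit 34883269322, nat_lit 36591870749], nat_lit 0, nat_lit 0, nat_lit 0, nat_lit 0, nat_lit 0, nat_lit 0, [], [nat_lit 81, nat_lit 40, nat_lit 40, nat_lit 80, nat_lit 13, nat_lit 401, nat_lit 175, nat_lit 11]⟩, ⟨p117_k1, nat_lit 0, nat_lit 0, nat_lit 317, nat_lit 0, nat_lit 0, [nat_lit 4688000000, nat_lit 9842000000, nat_lit 16400000000], [], [nat_lit 33008932132, nat_lit 34430475588, nat_lit 39193885661, nat_lit 40015214580, nat_lit 28463588028, nat_lit 29513772420, nat_lit 34218354183, nat_lit 35260557229], nat_lit 0, nat_lit 0, nat_lit 0, nat_lit 0, nat_lit 0, nat_lit 0, [], [nat_lit 83, nat_lit 40, nat_lit 40, nat_lit 80, nat_lit 73, nat_lit 456,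 nat_lit 225, nat_lit 9]⟩,
 zbF0, [⟨nat_lit 4, nat_lit 100, nat_lit 44, nat_lit 87, nat_lit 223067685⟩]⟩
noncomputable def p117_l182 : Lf2 := ⟨nat_lit 0, nat_lit 30, [nat_lit 15, nat_lit 5, nat_lit 5, nat_lit 20], false, nat_lit 8, nat_lit 248, nat_lit 160, nat_lit 364, ⟨nat_lit 1000, nat_lit 0, nat_lit 0, nat_lit 0, nat_lit 0, nat_lit 0, nat_lit 0, nat_lit 0, nat_lit 0, nat_lit 0, nat_lit 0, nat_lit 0, nat_lit 0, nat_lit 0, nat_lit 0, nat_lit 0, false, false⟩,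
 nat_lit 0, nat_lit 0, nat_lit 0, nat_lit 5628, nat_lit 6205, nat_lit 5840, nat_lit 244, nat_lit 0, nat_lit 0, nat_lit 0, nat_lit 0, nat_lit 0, nat_lit 0, nat_lit 0, nat_lit 0, nat_lit 0, nat_lit 0, nat_lit 0, [],
 ⟨p117_k4, nat_lit 0, nat_lit 0, nat_lit 214, nat_lit 0, nat_lit 0, [nat_lit 938000000, nat_lit 4688000000, nat_lit 9842000000], [], [nat_lit 33187399259, nat_lit 36463242600, nat_lit 39755246183, nat_lit 42055022052, nat_lit 30516104141, nat_lit 32549141387, nat_lit 34883269322, nat_lit 36591870749], nat_lit 0, nat_lit 0, nat_lit 0, nat_lit 0, nat_lit 0, nat_lit 0, [], [nat_lit 81, nat_lit 40, nat_lit 40, nat_lit 80, nat_lit 13, nat_lit 401, nat_lit 175, nat_lit 11]⟩, ⟨p117_k1, nat_lit 0, nat_lit 0, nat_lit 107, nat_lit 0, nat_lit 0, [nat_lit 4688000000, nat_lit 9842000000, nat_lit 16400000000], [], [nat_lit 15472592160, nat_lit 18085560800, nat_lit 25603428449, nat_lit 27239319488, nat_lit 26464802633,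 nat_lit 27909220880, nat_lit 33028329949, nat_lit 34026659477], nat_lit 0, nat_lit 0, nat_lit 0, nat_lit 0, nat_lit 0, nat_lit 0, [], [nat_lit 83, nat_lit 40, nat_lit 40, nat_lit 80, nat_lit 73, nat_lit 538, nat_lit 300, nat_lit 11]⟩,
 zbF0, [⟨nat_lit 4, nat_lit 100, nat_lit 44, nat_lit 87, nat_lit 283906137⟩, ⟨nat_lit 19, nat_lit 100, nat_lit 59, nat_lit 94, nat_lit 405829921⟩, ⟨nat_lit 10, nat_lit 57, nat_lit 84, nat_lit 100, nat_lit 42549678⟩]⟩
noncomputable def p117_l183 : Lf2 := ⟨nat_lit 0, nat_lit 30, [nat_lit 15, nat_lit 5, nat_lit 5, nat_lit 20], true, nat_lit 8, nat_lit 248, nat_lit 0, nat_lit 364, ⟨nat_lit 0, nat_lit 1000, nat_lit 0, nat_lit 6, nat_lit 213, nat_lit 1000, nat_lit 94, nat_lit 0, nat_lit 0, nat_lit 0, nat_lit 0, nat_lit 0, nat_lit 0, nat_lit 0, nat_lit 0, nat_lit 5000000, false, false⟩,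
 nat_lit 0, nat_lit 0, nat_lit 0, nat_lit 5644, nat_lit 3401, nat_lit 0, nat_lit 165, nat_lit 0, nat_lit 0, nat_lit 0, nat_lit 0, nat_lit 0, nat_lit 0, nat_lit 0, nat_lit 0, nat_lit 319000, nat_lit 0, nat_lit 0, [(nat_lit 26, [(nat_lit 0, nat_lit 540), (nat_lit 1, nat_lit 460)]), (nat_lit 29, [(nat_lit 0, nat_lit 540), (nat_lit 1, nat_lit 460)])],
 ⟨p117_k4, nat_lit 0, nat_lit 0, nat_lit 218, nat_lit 0, nat_lit 0, [nat_lit 868816000, nat_lit 1449448001, nat_lit 1905697600], [], [nat_lit 22715953906, nat_lit 25421885695, nat_lit 24837071563, nat_lit 27184834120, nat_lit 23860788312, nat_lit 25714199347, nat_lit 25426093716, nat_lit 27024526836], nat_lit 0, nat_lit 0, nat_lit 0, nat_lit 0, nat_lit 0, nat_lit 0, [], [nat_lit 81, nat_lit 40, nat_lit 40, nat_lit 80, nat_lit 13, nat_lit 345, nat_lit 125, nat_lit 10]⟩, C1.Rw.none,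
 ⟨nat_lit 0, nat_lit 3163, ⟨.ofNat (nat_lit 401957), .ofNat (nat_lit 605128), .ofNat (nat_lit 443658), .ofNat (nat_lit 646918), .ofNat (nat_lit 431745), .ofNat (nat_lit 599865), .ofNat (nat_lit 479136), .ofNat (nat_lit 647345)⟩, ⟨.ofNat (nat_lit 20000), .ofNat (nat_lit 440207), .ofNat (nat_lit 20000), .ofNat (nat_lit 484518), .ofNat (nat_lit 20000), .ofNat (nat_lit 409993), .ofNat (nat_lit 20000), .ofNat (nat_lit 459993)⟩⟩, [⟨nat_lit 4, nat_lit 100, nat_lit 44, nat_lit 87, nat_lit 140221524⟩]⟩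
noncomputable def p117_l184 : Lf2 := ⟨nat_lit 0, nat_lit 30, [nat_lit 15, nat_lit 5, nat_lit 5, nat_lit 20], true, nat_lit 8, nat_lit 160, nat_lit 0, nat_lit 364, ⟨nat_lit 0, nat_lit 1000, nat_lit 0, nat_lit 6, nat_lit 288, nat_lit 1000, nat_lit 69, nat_lit 0, nat_lit 0, nat_lit 0, nat_lit 0, nat_lit 0, nat_lit 0, nat_lit 0, nat_lit 0, nat_lit 5000000, true, true⟩,
 nat_lit 0, nat_lit 0, nat_lit 0, nat_lit 7190, nat_lit 2896, nat_lit 0, nat_lit 47, nat_lit 0, nat_lit 0, nat_lit 0, nat_lit 0, nat_lit 0, nat_lit 0, nat_lit 0, nat_lit 0, nat_lit 394600, nat_lit 0, nat_lit 0, [(nat_lit 26, [(nat_lit 0, nat_lit 36), (nat_lit 1, nat_lit 964)]), (nat_lit 29, [(nat_lit 0, nat_lit 36), (nat_lit 1, nat_lit 964)])],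
 ⟨p117_k4, nat_lit 0, nat_lit 0, nat_lit 214, nat_lit 0, nat_lit 0, [nat_lit 964374400, nat_lit 1015403200, nat_lit 823470400], [], [nat_lit 25837446781, nat_lit 27697731178, nat_lit 30307773296, nat_lit 31996238546, nat_lit 25678958144, nat_lit 27302788320, nat_lit 29525654503, nat_lit 30927747060], nat_lit 0, nat_lit 0, nat_lit 0, nat_lit 0, nat_lit 0, nat_lit 0, [], [nat_lit 81, nat_lit 40, nat_lit 40, nat_lit 80, nat_lit 13, nat_lit 373, nat_lit 150, nat_lit 10]⟩, C1.Rw.none,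
 ⟨nat_lit 0, nat_lit 3163, ⟨.ofNat (nat_lit 605128), .ofNat (nat_lit 812499), .ofNat (nat_lit 646918), .ofNat (nat_lit 856810), .ofNat (nat_lit 599865), .ofNat (nat_lit 769995), .ofNat (nat_lit 647345), .ofNat (nat_lit 819996)⟩, ⟨.ofNat (nat_lit 20000), .ofNat (nat_lit 306113), .ofNat (nat_lit 20000), .ofNat (nat_lit 350425), .ofNat (nat_lit 20000), .ofNat (nat_lit 299996), .ofNat (nat_lit 20000), .ofNat (nat_lit 349998)⟩⟩, [⟨nat_lit 13, nat_lit 46, nat_lit 76, nat_lit 100, nat_lit 290571965⟩, ⟨nat_lit 13, nat_lit 65, nat_lit 54, nat_lit 100, nat_lit 126606896⟩]⟩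
noncomputable def p117_l185 : Lf2 := ⟨nat_lit 0, nat_lit 30, [nat_lit 15, nat_lit 5, nat_lit 5, nat_lit 20], true, nat_lit 160, nat_lit 248, nat_lit 0, nat_lit 364, ⟨nat_lit 0, nat_lit 1000, nat_lit 0, nat_lit 6, nat_lit 291, nat_lit 1000, nat_lit 157, nat_lit 0, nat_lit 0, nat_lit 0, nat_lit 0, nat_lit 0, nat_lit 0, nat_lit 0, nat_lit 0, nat_lit 5000000, true, true⟩,
 nat_lit 0, nat_lit 0, nat_lit 0, nat_lit 13280, nat_lit 3196, nat_lit 0, nat_lit 178, nat_lit 0, nat_lit 0, nat_lit 0, nat_lit 0, nat_lit 0, nat_lit 0, nat_lit 0, nat_lit 0, nat_lit 250000, nat_lit 0, nat_lit 0, [(nat_lit 26, [(nat_lit 0, nat_lit 1000)])],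
 ⟨p117_k4, nat_lit 0, nat_lit 0, nat_lit 106, nat_lit 0, nat_lit 0, [nat_lit 765600000, nat_lit 1845600000, nat_lit 2928480000], [], [nat_lit 24459721536, nat_lit 25472631136, nat_lit 29079008714, nat_lit 29848653023, nat_lit 26138862593, nat_lit 27025849178, nat_lit 30169581078, nat_lit 30850052102], nat_lit 0, nat_lit 0, nat_lit 0, nat_lit 0, nat_lit 0, nat_lit 0, [], [nat_lit 81, nat_lit 40, nat_lit 40, nat_lit 80, nat_lit 13, nat_lit 401, nat_lit 175, nat_lit 10]⟩, C1.Rw.none,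
 ⟨nat_lit 2236, nat_lit 3163, ⟨.ofNat (nat_lit 605240), .ofNat (nat_lit 812503), .ofNat (nat_lit 649422), .ofNat (nat_lit 856813), .ofNat (nat_lit 602541), .ofNat (nat_lit 796416), .ofNat (nat_lit 647962), .ofNat (nat_lit 841964)⟩, ⟨.ofNat (nat_lit 306116), .ofNat (nat_lit 440213), .ofNat (nat_lit 350426), .ofNat (nat_lit 484523), .ofNat (nat_lit 306337), .ofNat (nat_lit 431772), .ofNat (nat_lit 351886), .ofNat (nat_lit 477320)⟩⟩, [⟨nat_lit 13, nat_lit 55, nat_lit 68, nat_lit 100, nat_lit 325966163⟩, ⟨nat_lit 13, nat_lit 65, nat_lit 54, nat_lit 100, nat_lit 68130084⟩, ⟨nat_lit 4, nat_lit 100, nat_lit 53, nat_lit 87, nat_lit 344621115⟩]⟩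
noncomputable def p117_l186 : Lf2 := ⟨nat_lit 0, nat_lit 30, [nat_lit 15, nat_lit 5, nat_lit 5, nat_lit 20], true, nat_lit 160, nat_lit 208, nat_lit 0, nat_lit 364, ⟨nat_lit 0, nat_lit 1000, nat_lit 0, nat_lit 6, nat_lit 280, nat_lit 1000, nat_lit 144, nat_lit 0, nat_lit 0, nat_lit 0, nat_lit 0, nat_lit 0, nat_lit 0, nat_lit 0, nat_lit 0, nat_lit 5000000, true, true⟩,
 nat_lit 0, nat_lit 0, nat_lit 0, nat_lit 12507, nat_lit 2690, nat_lit 0, nat_lit 158, nat_lit 0, nat_lit 0, nat_lit 0, nat_lit 0, nat_lit 0, nat_lit 0, nat_lit 0, nat_lit 0, nat_lit 250000, nat_lit 0, nat_lit 0, [(nat_lit 29, [(nat_lit 0, nat_lit 1000)])],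
 ⟨p117_k0, nat_lit 0, nat_lit 0, nat_lit 99, nat_lit 0, nat_lit 0, [nat_lit 781600001, nat_lit 1553200001, nat_lit 2175066667], [], [nat_lit 24169231948, nat_lit 25165015728, nat_lit 27752163692, nat_lit 28645213392, nat_lit 25091539984, nat_lit 26022463200, nat_lit 28439604328, nat_lit 29411957588], nat_lit 0, nat_lit 0, nat_lit 0, nat_lit 0, nat_lit 0, nat_lit 0, [], [nat_lit 57, nat_lit 40, nat_lit 40, nat_lit 80, nat_lit 7, nat_lit 272, nat_lit 60, nat_lit 7]⟩, C1.Rw.none,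
 ⟨nat_lit 0, nat_lit 2237, ⟨.ofNat (nat_lit 602531), .ofNat (nat_lit 762201), .ofNat (nat_lit 646249), .ofNat (nat_lit 807752), .ofNat (nat_lit 599967), .ofNat (nat_lit 739994), .ofNat (nat_lit 648136), .ofNat (nat_lit 789996)⟩, ⟨.ofNat (nat_lit 306334), .ofNat (nat_lit 374750), .ofNat (nat_lit 351885), .ofNat (nat_lit 420300), .ofNat (nat_lit 299996), .ofNat (nat_lit 359993), .ofNat (nat_lit 349998), .ofNat (nat_lit 409994)⟩⟩, [⟨nat_lit 13, nat_lit 48, nat_lit 71, nat_lit 100, nat_lit 466073164⟩, ⟨nat_lit 16, nat_lit 44, nat_lit 100, nat_lit 92, nat_lit 413671080⟩]⟩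
noncomputable def b_V_900_600_20_81 : St := ⟨true, nat_lit 0, nat_lit 2, nat_lit 2, nat_lit 120, nat_lit 360, nat_lit 400, nat_lit 240, nat_lit 280, nat_lit 112, nat_lit 376, nat_lit 80, nat_lit 120, nat_lit 8, nat_lit 248, nat_lit 0, nat_lit 364, nat_lit 120, nat_lit 156, nat_lit 0, nat_lit 0, nat_lit 0, nat_lit 0⟩
theorem d_V_900_600_20_81 (h : EB TB.env) : Dead b_V_900_600_20_81 := chkB_sound0 h (T :=
(.st (nat_lit 1)
(.spl (nat_lit 2) (nat_lit 240)
(.leaf p117_l180)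
(.spl (nat_lit 5) (nat_lit 160)
(.leaf p117_l181)
(.leaf p117_l182)))
(.spl (nat_lit 2) (nat_lit 240)
(.leaf p117_l183)
(.spl (nat_lit 4) (nat_lit 160)
(.leaf p117_l184)
(.spl (nat_lit 0) (nat_lit 380)
(.leaf p117_l185)
(.trX (nat_lit 13) (nat_lit 48) (nat_lit 71) (nat_lit 100) (nat_lit 352) (.trX (nat_lit 16) (nat_lit 44) (nat_lit 100) (nat_lit 92) (nat_lit 208) (.leaf p117_l186)))))))) (by decide +kernel)

end B2
end Pool.Agent.Lib.MP_6947cd_al
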