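import Pool.Agent.Lib.MP_6947cd_al.ZB.Pre

/-!
Problem MP_6947cd_al (Chollet).  Case B, second entry in [2/5, 17/20]: certificates of the tree, part P118 (generated).
-/

set_option autoImplicit false
set_option linter.all false

namespace Pool.Agent.Lib.MP_6947cd_al
namespace B2

open Ent Fr B1 PkA

noncomputable def p118_k0 : C1.Kn := ⟨[nat_lit 20, nat_lit 80, nat_lit 120], [nat_lit 0, nat_lit 0, nat_lit 3661], [(nat_lit 0, nat_lit 0, nat_lit 0), (nat_lit 0, nat_lit 0, nat_lit 0), (nat_lit 1000, nat_lit 611, nat_lit 913)], (nat_lit 60, nat_lit 100, nat_lit 87)⟩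
noncomputable def p118_k1 : C1.Kn := ⟨[nat_lit 80, nat_lit 140, nat_lit 180], [nat_lit 0, nat_lit 0, nat_lit 3656], [(nat_lit 0, nat_lit 0, nat_lit 0), (nat_lit 0, nat_lit 0, nat_lit 0), (nat_lit 637, nat_lit 1000, nat_lit 908)], (nat_lit 100, nat_lit 68, nat_lit 88)⟩
noncomputable def p118_k2 : C1.Kn := ⟨[nat_lit 20, nat_lit 80, nat_lit 120], [nat_lit 0, nat_lit 1046, nat_lit 4184], [(nat_lit 0, nat_lit 0, nat_lit 0), (nat_lit 1000, nat_lit 782, nat_lit 272), (nat_lit 1000, nat_lit 536, nat_lit 947)], (nat_lit 53, nat_lit 100, nat_lit 93)⟩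
noncomputable def p118_k3 : C1.Kn := ⟨[nat_lit 80, nat_lit 140, nat_lit 180], [nat_lit 0, nat_lit 792, nat_lit 4228], [(nat_lit 0, nat_lit 0, nat_lit 0), (nat_lit 1000, nat_lit 959, nat_lit 206), (nat_lit 709, nat_lit 1000, nat_lit 949)], (nat_lit 100, nat_lit 69, nat_lit 96)⟩
noncomputable def p118_k4 : C1.Kn := ⟨[nat_lit 20, nat_lit 80, nat_lit 140], [nat_lit 0, nat_lit 0, nat_lit 4928], [(nat_lit 0, nat_lit 0, nat_lit 0), (nat_lit 0, nat_lit 0, nat_lit 0), (nat_lit 950, nat_lit 618, nat_lit 1000)], (nat_lit 62, nat_lit 100, nat_lit 94)⟩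
noncomputable def p118_k5 : C1.Kn := ⟨[nat_lit 20, nat_lit 80, nat_lit 100], [nat_lit 0, nat_lit 2121, nat_lit 3610], [(nat_lit 0, nat_lit 0, nat_lit 0), (nat_lit 1000, nat_lit 558, nat_lit 551), (nat_lit 1000, nat_lit 436, nat_lit 895)], (nat_lit 44, nat_lit 100, nat_lit 87)⟩
noncomputable def p118_k6 : C1.Kn := ⟨[nat_lit 20, nat_lit 80, nat_lit 120], [nat_lit 0, nat_lit 2121, nat_lit 4818], [(nat_lit 0, nat_lit 0, nat_lit 0), (nat_lit 1000, nat_lit 558, nat_lit 551), (nat_lit 1000, nat_lit 443, nat_lit 981)], (nat_lit 44, nat_lit 100, nat_lit 92)⟩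
noncomputable def p118_k7 : C1.Kn := ⟨[nat_lit 80, nat_lit 140, nat_lit 200], [nat_lit 0, nat_lit 0, nat_lit 5481], [(nat_lit 0, nat_lit 0, nat_lit 0), (nat_lit 0, nat_lit 0, nat_lit 0), (nat_lit 637, nat_lit 1000, nat_lit 908)], (nat_lit 0, nat_lit 0, nat_lit 0)⟩
noncomputable def p118_k8 : C1.Kn := ⟨[nat_lit 20, nat_lit 80, nat_lit 100], [nat_lit 0, nat_lit 3199, nat_lit 4400], [(nat_lit 0, nat_lit 0, nat_lit 0), (nat_lit 1000, nat_lit 333, nat_lit 833), (nat_lit 1000, nat_lit 312, nat_lit 938)], (nat_lit 31, nat_lit 100, nat_lit 92)⟩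
noncomputable def p118_k9 : C1.Kn := ⟨[nat_lit 20, nat_lit 60, nat_lit 120], [nat_lit 0, nat_lit 0, nat_lit 3661], [(nat_lit 0, nat_lit 0, nat_lit 0), (nat_lit 0, nat_lit 0, nat_lit 0), (nat_lit 1000, nat_lit 611, nat_lit 913)], (nat_lit 60, nat_lit 100, nat_lit 87)⟩
noncomputable def p118_k10 : C1.Kn := ⟨[nat_lit 80, nat_lit 120, nat_lit 180], [nat_lit 0, nat_lit 528, nat_lit 3600], [(nat_lit 0, nat_lit 0, nat_lit 0), (nat_lit 1000, nat_lit 959, nat_lit 206), (nat_lit 929, nat_lit 1000, nat_lit 742)], (nat_lit 100, nat_lit 77, nat_lit 91)⟩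
noncomputable def p118_k11 : C1.Kn := ⟨[nat_lit 20, nat_lit 60, nat_lit 120], [nat_lit 0, nat_lit 916, nat_lit 4318], [(nat_lit 0, nat_lit 0, nat_lit 0), (nat_lit 1000, nat_lit 714, nat_lit 357), (nat_lit 1000, nat_lit 502, nat_lit 885)], (nat_lit 51, nat_lit 100, nat_lit 92)⟩
noncomputable def p118_k12 : C1.Kn := ⟨[nat_lit 80, nat_lit 120, nat_lit 180], [nat_lit 0, nat_lit 528, nat_lit 3600], [(nat_lit 0, nat_lit 0, nat_lit 0), (nat_lit 1000, nat_lit 959, nat_lit 206), (nat_lit 929, nat_lit 1000, nat_lit 742)], (nat_lit 100, nat_lit 69, nat_lit 96)⟩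
noncomputable def p118_k13 : C1.Kn := ⟨[nat_lit 20, nat_lit 40, nat_lit 120], [nat_lit 0, nat_lit 530, nat_lit 3613], [(nat_lit 0, nat_lit 0, nat_lit 0), (nat_lit 1000, nat_lit 671, nat_lit 411), (nat_lit 1000, nat_lit 556, nat_lit 602)], (nat_lit 49, nat_lit 100, nat_lit 92)⟩
noncomputable def p118_k14 : C1.Kn := ⟨[nat_lit 80, nat_lit 100, nat_lit 180], [nat_lit 0, nat_lit 265, nat_lit 2273], [(nat_lit 0, nat_lit 0, nat_lit 0), (nat_lit 1000, nat_lit 959, nat_lit 206), (nat_lit 1000, nat_lit 958, nat_lit 392)], (nat_lit 100, nat_lit 69, nat_lit 96)⟩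
noncomputable def p118_k15 : C1.Kn := ⟨[nat_lit 20, nat_lit 60, nat_lit 100], [nat_lit 0, nat_lit 1415, nat_lit 3591], [(nat_lit 0, nat_lit 0, nat_lit 0), (nat_lit 1000, nat_lit 558, nat_lit 551), (nat_lit 1000, nat_lit 439, nat_lit 849)], (nat_lit 44, nat_lit 100, nat_lit 87)⟩
noncomputable def p118_k16 : C1.Kn := ⟨[nat_lit 20, nat_lit 60, nat_lit 120], [nat_lit 0, nat_lit 1415, nat_lit 4677], [(nat_lit 0, nat_lit 0, nat_lit 0), (nat_lit 1000, nat_lit 558, nat_lit 551), (nat_lit 1000, nat_lit 439, nat_lit 849)], (nat_lit 44, nat_lit 100, nat_lit 92)⟩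
noncomputable def p118_k17 : C1.Kn := ⟨[nat_lit 20, nat_lit 60, nat_lit 120], [nat_lit 0, nat_lit 698, nat_lit 4166], [(nat_lit 0, nat_lit 0, nat_lit 0), (nat_lit 1000, nat_lit 782, nat_lit 272), (nat_lit 1000, nat_lit 529, nat_lit 902)], (nat_lit 53, nat_lit 100, nat_lit 93)⟩
noncomputable def p118_k18 : C1.Kn := ⟨[nat_lit 80, nat_lit 120, nat_lit 180], [nat_lit 0, nat_lit 796, nat_lit 3804], [(nat_lit 0, nat_lit 0, nat_lit 0), (nat_lit 1000, nat_lit 938, nat_lit 310), (nat_lit 969, nat_lit 1000, nat_lit 759)], (nat_lit 100, nat_lit 74, nat_lit 98)⟩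
noncomputable def p118_k19 : C1.Kn := ⟨[nat_lit 20, nat_lit 60, nat_lit 100], [nat_lit 0, nat_lit 2136, nat_lit 4235], [(nat_lit 0, nat_lit 0, nat_lit 0), (nat_lit 1000, nat_lit 343, nat_lit 808), (nat_lit 1000, nat_lit 338, nat_lit 820)], (nat_lit 31, nat_lit 100, nat_lit 92)⟩
noncomputable def p118_k20 : C1.Kn := ⟨[nat_lit 20, nat_lit 80, nat_lit 120], [nat_lit 0, nat_lit 508, nat_lit 3912], [(nat_lit 0, nat_lit 0, nat_lit 0), (nat_lit 1000, nat_lit 894, nat_lit 132), (nat_lit 1000, nat_lit 576, nat_lit 936)], (nat_lit 58, nat_lit 100, nat_lit 93)⟩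
noncomputable def p118_k21 : C1.Kn := ⟨[nat_lit 20, nat_lit 80, nat_lit 120], [nat_lit 0, nat_lit 1046, nat_lit 4184], [(nat_lit 0, nat_lit 0, nat_lit 0), (nat_lit 1000, nat_lit 782, nat_lit 272), (nat_lit 1000, nat_lit 536, nat_lit 947)], (nat_lit 53, nat_lit 100, nat_lit 87)⟩
noncomputable def p118_k22 : C1.Kn := ⟨[nat_lit 20, nat_lit 80, nat_lit 120], [nat_lit 0, nat_lit 1582, nat_lit 4484], [(nat_lit 0, nat_lit 0, nat_lit 0), (nat_lit 1000, nat_lit 671, nat_lit 411), (nat_lit 1000, nat_lit 493, nat_lit 968)], (nat_lit 49, nat_lit 100, nat_lit 92)⟩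
noncomputable def p118_k23 : C1.Kn := ⟨[nat_lit 80, nat_lit 120, nat_lit 180], [nat_lit 0, nat_lit 0, nat_lit 3196], [(nat_lit 0, nat_lit 0, nat_lit 0), (nat_lit 0, nat_lit 0, nat_lit 0), (nat_lit 858, nat_lit 1000, nat_lit 713)], (nat_lit 100, nat_lit 68, nat_lit 88)⟩
noncomputable def p118_k24 : C1.Kn := ⟨[nat_lit 20, nat_lit 60, nat_lit 80], [nat_lit 0, nat_lit 2136, nat_lit 3185], [(nat_lit 0, nat_lit 0, nat_lit 0), (nat_lit 1000, nat_lit 343, nat_lit 808), (nat_lit 1000, nat_lit 338, nat_lit 820)], (nat_lit 32, nat_lit 100, nat_lit 88)⟩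
noncomputable def p118_k25 : C1.Kn := ⟨[nat_lit 20, nat_lit 80, nat_lit 100], [nat_lit 0, nat_lit 2663, nat_lit 3968], [(nat_lit 0, nat_lit 0, nat_lit 0), (nat_lit 1000, nat_lit 445, nat_lit 693), (nat_lit 1000, nat_lit 380, nat_lit 921)], (nat_lit 38, nat_lit 100, nat_lit 92)⟩
noncomputable def p118_k26 : C1.Kn := ⟨[nat_lit 80, nat_lit 140, nat_lit 180], [nat_lit 0, nat_lit 395, nat_lit 3941], [(nat_lit 0, nat_lit 0, nat_lit 0), (nat_lit 1000, nat_lit 979, nat_lit 103), (nat_lit 672, nat_lit 1000, nat_lit 927)], (nat_lit 100, nat_lit 64, nat_lit 95)⟩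
noncomputable def p118_k27 : C1.Kn := ⟨[nat_lit 20, nat_lit 80, nat_lit 100], [nat_lit 0, nat_lit 3758, nat_lit 4955], [(nat_lit 0, nat_lit 0, nat_lit 0), (nat_lit 1000, nat_lit 228, nat_lit 923), (nat_lit 1000, nat_lit 226, nat_lit 935)], (nat_lit 23, nat_lit 100, nat_lit 93)⟩
noncomputable def p118_k28 : C1.Kn := ⟨[nat_lit 20, nat_lit 60, nat_lit 140], [nat_lit 0, nat_lit 0, nat_lit 4874], [(nat_lit 0, nat_lit 0, nat_lit 0), (nat_lit 0, nat_lit 0, nat_lit 0), (nat_lit 1000, nat_lit 619, nat_lit 951)], (nat_lit 62, nat_lit 100, nat_lit 94)⟩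
noncomputable def p118_k29 : C1.Kn := ⟨[nat_lit 80, nat_lit 120, nat_lit 200], [nat_lit 0, nat_lit 0, nat_lit 4259], [(nat_lit 0, nat_lit 0, nat_lit 0), (nat_lit 0, nat_lit 0, nat_lit 0), (nat_lit 858, nat_lit 1000, nat_lit 713)], (nat_lit 0, nat_lit 0, nat_lit 0)⟩
noncomputable def p118_k30 : C1.Kn := ⟨[nat_lit 20, nat_lit 80], [nat_lit 0, nat_lit 0], [(nat_lit 0, nat_lit 0, nat_lit 0), (nat_lit 0, nat_lit 0, nat_lit 0)], (nat_lit 63, nat_lit 100, nat_lit 62)⟩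
noncomputable def p118_k31 : C1.Kn := ⟨[nat_lit 60, nat_lit 140], [nat_lit 0, nat_lit 0], [(nat_lit 0, nat_lit 0, nat_lit 0), (nat_lit 0, nat_lit 0, nat_lit 0)], (nat_lit 94, nat_lit 100, nat_lit 62)⟩
noncomputable def p118_k32 : C1.Kn := ⟨[nat_lit 20, nat_lit 60, nat_lit 80], [nat_lit 0, nat_lit 0, nat_lit 1613], [(nat_lit 0, nat_lit 0, nat_lit 0), (nat_lit 0, nat_lit 0, nat_lit 0), (nat_lit 1000, nat_lit 614, nat_lit 668)], (nat_lit 63, nat_lit 100, nat_lit 62)⟩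
noncomputable def p118_k33 : C1.Kn := ⟨[nat_lit 60, nat_lit 120], [nat_lit 0, nat_lit 913], [(nat_lit 0, nat_lit 0, nat_lit 0), (nat_lit 1000, nat_lit 905, nat_lit 238)], (nat_lit 87, nat_lit 100, nat_lit 60)⟩
noncomputable def p118_k34 : C1.Kn := ⟨[nat_lit 20, nat_lit 60, nat_lit 80], [nat_lit 0, nat_lit 698, nat_lit 2008], [(nat_lit 0, nat_lit 0, nat_lit 0), (nat_lit 1000, nat_lit 782, nat_lit 272), (nat_lit 1000, nat_lit 540, nat_lit 733)], (nat_lit 57, nat_lit 100, nat_lit 64)⟩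
noncomputable def p118_k35 : C1.Kn := ⟨[nat_lit 60, nat_lit 100, nat_lit 120], [nat_lit 0, nat_lit 609, nat_lit 1609], [(nat_lit 0, nat_lit 0, nat_lit 0), (nat_lit 1000, nat_lit 905, nat_lit 238), (nat_lit 1000, nat_lit 882, nat_lit 668)], (nat_lit 87, nat_lit 100, nat_lit 60)⟩
noncomputable def p118_k36 : C1.Kn := ⟨[nat_lit 20, nat_lit 60], [nat_lit 0, nat_lit 1415], [(nat_lit 0, nat_lit 0, nat_lit 0), (nat_lit 1000, nat_lit 558, nat_lit 551)], (nat_lit 49, nat_lit 100, nat_lit 68)⟩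
noncomputable def p118_k37 : C1.Kn := ⟨[nat_lit 60, nat_lit 100, nat_lit 120], [nat_lit 0, nat_lit 302, nat_lit 1376], [(nat_lit 0, nat_lit 0, nat_lit 0), (nat_lit 1000, nat_lit 953, nat_lit 118), (nat_lit 1000, nat_lit 911, nat_lit 628)], (nat_lit 91, nat_lit 100, nat_lit 61)⟩
noncomputable def p118_k38 : C1.Kn := ⟨[nat_lit 60, nat_lit 100, nat_lit 140], [nat_lit 0, nat_lit 0, nat_lit 2047], [(nat_lit 0, nat_lit 0, nat_lit 0), (nat_lit 0, nat_lit 0, nat_lit 0), (nat_lit 1000, nat_lit 993, nat_lit 781)], (nat_lit 94, nat_lit 100, nat_lit 62)⟩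
noncomputable def p118_k39 : C1.Kn := ⟨[nat_lit 20, nat_lit 60], [nat_lit 0, nat_lit 2136], [(nat_lit 0, nat_lit 0, nat_lit 0), (nat_lit 1000, nat_lit 343, nat_lit 808)], (nat_lit 38, nat_lit 100, nat_lit 73)⟩
noncomputable def p118_k40 : C1.Kn := ⟨[nat_lit 20, nat_lit 80, nat_lit 100], [nat_lit 0, nat_lit 0, nat_lit 2559], [(nat_lit 0, nat_lit 0, nat_lit 0), (nat_lit 0, nat_lit 0, nat_lit 0), (nat_lit 1000, nat_lit 600, nat_lit 787)], (nat_lit 60, nat_lit 100, nat_lit 80)⟩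
noncomputable def p118_k41 : C1.Kn := ⟨[nat_lit 60, nat_lit 120, nat_lit 160], [nat_lit 0, nat_lit 0, nat_lit 3243], [(nat_lit 0, nat_lit 0, nat_lit 0), (nat_lit 0, nat_lit 0, nat_lit 0), (nat_lit 878, nat_lit 1000, nat_lit 945)], (nat_lit 100, nat_lit 95, nat_lit 87)⟩
noncomputable def p118_k42 : C1.Kn := ⟨[nat_lit 20, nat_lit 60, nat_lit 100], [nat_lit 0, nat_lit 0, nat_lit 2559], [(nat_lit 0, nat_lit 0, nat_lit 0), (nat_lit 0, nat_lit 0, nat_lit 0), (nat_lit 1000, nat_lit 600, nat_lit 787)], (nat_lit 60, nat_lit 100, nat_lit 80)⟩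
noncomputable def p118_k43 : C1.Kn := ⟨[nat_lit 60, nat_lit 100, nat_lit 140], [nat_lit 0, nat_lit 609, nat_lit 2558], [(nat_lit 0, nat_lit 0, nat_lit 0), (nat_lit 1000, nat_lit 905, nat_lit 238), (nat_lit 1000, nat_lit 904, nat_lit 760)], (nat_lit 94, nat_lit 100, nat_lit 87)⟩
noncomputable def p118_k44 : C1.Kn := ⟨[nat_lit 60, nat_lit 100, nat_lit 140], [nat_lit 0, nat_lit 909, nat_lit 2819], [(nat_lit 0, nat_lit 0, nat_lit 0), (nat_lit 1000, nat_lit 858, nat_lit 354), (nat_lit 1000, nat_lit 858, nat_lit 746)], (nat_lit 89, nat_lit 100, nat_lit 85)⟩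
noncomputable def p118_k45 : C1.Kn := ⟨[nat_lit 20, nat_lit 80, nat_lit 100], [nat_lit 0, nat_lit 2121, nat_lit 3610], [(nat_lit 0, nat_lit 0, nat_lit 0), (nat_lit 1000, nat_lit 558, nat_lit 551), (nat_lit 1000, nat_lit 436, nat_lit 895)], (nat_lit 44, nat_lit 100, nat_lit 82)⟩
noncomputable def p118_l0 : Lf2 := ⟨nat_lit 0, nat_lit 25, [nat_lit 44, nat_lit 5, nat_lit 5, nat_lit 20], false, nat_lit 8, nat_lit 160, nat_lit 0, nat_lit 352, ⟨nat_lit 447, nat_lit 0, nat_lit 553, nat_lit 6, nat_lit 213, nat_lit 553, nat_lit 67, nat_lit 553, nat_lit 43350, nat_lit 266, nat_lit 27594, nat_lit 200, nat_lit 49892973, nat_lit 0, nat_lit 0, nat_lit 3529781, false, false⟩,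
 nat_lit 0, nat_lit 3963, nat_lit 0, nat_lit 7994, nat_lit 3451, nat_lit 8222, nat_lit 0, nat_lit 0, nat_lit 0, nat_lit 0, nat_lit 0, nat_lit 0, nat_lit 0, nat_lit 0, nat_lit 0, nat_lit 287200, nat_lit 0, nat_lit 0, [(nat_lit 26, [(nat_lit 5, nat_lit 443), (nat_lit 6, nat_lit 110)])],
 ⟨p118_k0, nat_lit 0, nat_lit 0, nat_lit 189, nat_lit 0, nat_lit 35446, [nat_lit 1121766000, nat_lit 819984201, nat_lit 434817600], [], [nat_lit 21853131937, nat_lit 23441002031, nat_lit 24438153211, nat_lit 25739581739, nat_lit 21246774267, nat_lit 22386872533, nat_lit 23510612412, nat_lit 24589992766], nat_lit 1271250, nat_lit 1271250, nat_lit 719601, nat_lit 1758000, nat_lit 43600, nat_lit 1100001, [nat_lit 230000, nat_lit 1100000, nat_lit 1785000], [nat_lit 57, nat_lit 40, nat_lit 40, nat_lit 80, nat_lit 7, nat_lit 317, nat_lit 100, nat_lit 10]⟩, ⟨p118_k1, nat_lit 0, nat_lit 0, nat_lit 287, nat_lit 0, nat_lit 0, [nat_lit 2095536000,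 nat_lit 4399374000, nat_lit 6283926000], [], [nat_lit 20945538234, nat_lit 22841661833, nat_lit 20960939544, nat_lit 22294759116, nat_lit 17876733336, nat_lit 18475571117, nat_lit 15895758391, nat_lit 16203371807], nat_lit 0, nat_lit 0, nat_lit 0, nat_lit 0, nat_lit 0, nat_lit 0, [], [nat_lit 56, nat_lit 40, nat_lit 40, nat_lit 80, nat_lit 32, nat_lit 456, nat_lit 225, nat_lit 11]⟩,
 ⟨nat_lit 2236, nat_lit 3163, ⟨.ofNat (nat_lit 409856), .ofNat (nat_lit 605240), .ofNat (nat_lit 454039), .ofNat (nat_lit 649422), .ofNat (nat_lit 419758), .ofNat (nat_lit 602541), .ofNat (nat_lit 465180), .ofNat (nat_lit 647962)⟩, ⟨.ofNat (nat_lit 20000), .ofNat (nat_lit 306116), .ofNat (nat_lit 20000), .ofNat (nat_lit 328271), .ofNat (nat_lit 20000), .ofNat (nat_lit 306337), .ofNat (nat_lit 20000), .ofNat (nat_lit 329112)⟩⟩, [⟨nat_lit 0, nat_lit 92, nat_lit 44, nat_lit 100, nat_lit 533190755⟩]⟩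
noncomputable def p118_l1 : Lf2 := ⟨nat_lit 1, nat_lit 30, [nat_lit 15, nat_lit 5, nat_lit 5, nat_lit 20], false, nat_lit 16, nat_lit 160, nat_lit 0, nat_lit 364, zbN0,
 nat_lit 0, nat_lit 0, nat_lit 0, nat_lit 0, nat_lit 0, nat_lit 0, nat_lit 0, nat_lit 0, nat_lit 0, nat_lit 0, nat_lit 0, nat_lit 0, nat_lit 0, nat_lit 0, nat_lit 0, nat_lit 0, nat_lit 0, nat_lit 0, [],
 C1.Rw.none, C1.Rw.none,
 zbF0, []⟩
noncomputable def p118_l2 : Lf2 := ⟨nat_lit 1, nat_lit 30, [nat_lit 15, nat_lit 5, nat_lit 5, nat_lit 20], false, nat_lit 20, nat_lit 160, nat_lit 0, nat_lit 364, zbN0,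
 nat_lit 0, nat_lit 0, nat_lit 0, nat_lit 0, nat_lit 0, nat_lit 0, nat_lit 0, nat_lit 0, nat_lit 0, nat_lit 0, nat_lit 0, nat_lit 0, nat_lit 0, nat_lit 0, nat_lit 0, nat_lit 0, nat_lit 0, nat_lit 0, [],
 C1.Rw.none, C1.Rw.none,
 zbF0, []⟩
noncomputable def p118_l3 : Lf2 := ⟨nat_lit 0, nat_lit 30, [nat_lit 15, nat_lit 5, nat_lit 5, nat_lit 20], false, nat_lit 20, nat_lit 160, nat_lit 0, nat_lit 352, ⟨nat_lit 511, nat_lit 0, nat_lit 489, nat_lit 6, nat_lit 228, nat_lit 489, nat_lit 78, nat_lit 489, nat_lit 58017, nat_lit 274, nat_lit 26118, nat_lit 200, nat_lit 47811521, nat_lit 0, nat_lit 0, nat_lit 3809160, false, false⟩,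
 nat_lit 0, nat_lit 4206, nat_lit 0, nat_lit 6506, nat_lit 3795, nat_lit 9411, nat_lit 193, nat_lit 0, nat_lit 0, nat_lit 57, nat_lit 0, nat_lit 0, nat_lit 0, nat_lit 0, nat_lit 0, nat_lit 98400, nat_lit 0, nat_lit 0, [(nat_lit 26, [(nat_lit 3, nat_lit 477), (nat_lit 4, nat_lit 12)])],
 ⟨p118_k2, nat_lit 0, nat_lit 0, nat_lit 173, nat_lit 0, nat_lit 40919, [nat_lit 1036221201, nat_lit 1987307600, nat_lit 3086779200], [], [nat_lit 23000345404, nat_lit 23789298061, nat_lit 25105077388, nat_lit 25781188940, nat_lit 22069896959, nat_lit 22639015720, nat_lit 23789081860, nat_lit 24377999220], nat_lit 1271250, nat_lit 1271250, nat_lit 1000851, nat_lit 1778250, nat_lit 111251, nat_lit 1100001, [nat_lit 230000, nat_lit 1100000, nat_lit 1785000], [nat_lit 57, nat_lit 40, nat_lit 40, nat_lit 80, nat_lit 7, nat_lit 317, nat_lit 100, nat_lit 10]⟩, ⟨p118_k3, nat_lit 0, nat_lit 0, nat_lit 270, nat_lit 0, nat_lit 0, [nat_lit 2395568000,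 nat_lit 5029262000, nat_lit 7183638000], [], [nat_lit 23352265694, nat_lit 24365152522, nat_lit 23978777140, nat_lit 24741773108, nat_lit 18760464878, nat_lit 19065881140, nat_lit 17589127880, nat_lit 17781853063], nat_lit 0, nat_lit 0, nat_lit 0, nat_lit 0, nat_lit 0, nat_lit 0, [], [nat_lit 56, nat_lit 40, nat_lit 40, nat_lit 80, nat_lit 32, nat_lit 456, nat_lit 225, nat_lit 10]⟩,
 ⟨nat_lit 2236, nat_lit 2739, ⟨.ofNat (nat_lit 490366), .ofNat (nat_lit 626287), .ofNat (nat_lit 512763), .ofNat (nat_lit 648684), .ofNat (nat_lit 494096), .ofNat (nat_lit 625312), .ofNat (nat_lit 516850), .ofNat (nat_lit 648065)⟩, ⟨.ofNat (nat_lit 50000), .ofNat (nat_lit 328850), .ofNat (nat_lit 50000), .ofNat (nat_lit 351268), .ofNat (nat_lit 50000), .ofNat (nat_lit 329112), .ofNat (nat_lit 50000), .ofNat (nat_lit 351886)⟩⟩, [⟨nat_lit 0, nat_lit 92, nat_lit 44, nat_lit 100, nat_lit 497774741⟩]⟩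
noncomputable def p118_l4 : Lf2 := ⟨nat_lit 1, nat_lit 30, [nat_lit 15, nat_lit 5, nat_lit 5, nat_lit 20], false, nat_lit 16, nat_lit 160, nat_lit 0, nat_lit 364, zbN0,
 nat_lit 0, nat_lit 0, nat_lit 0, nat_lit 0, nat_lit 0, nat_lit 0, nat_lit 0, nat_lit 0, nat_lit 0, nat_lit 0, nat_lit 0, nat_lit 0, nat_lit 0, nat_lit 0, nat_lit 0, nat_lit 0, nat_lit 0, nat_lit 0, [],
 C1.Rw.none, C1.Rw.none,
 zbF0, []⟩
noncomputable def p118_l5 : Lf2 := ⟨nat_lit 0, nat_lit 25, [nat_lit 44, nat_lit 5, nat_lit 5, nat_lit 20], true, nat_lit 160, nat_lit 224, nat_lit 0, nat_lit 352, ⟨nat_lit 0, nat_lit 1000, nat_lit 0, nat_lit 6, nat_lit 213, nat_lit 1000, nat_lit 146, nat_lit 0, nat_lit 0, nat_lit 0, nat_lit 0, nat_lit 0, nat_lit 45207875, nat_lit 14039855, nat_lit 7752270, nat_lit 4516693, false, false⟩,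
 nat_lit 0, nat_lit 4314, nat_lit 0, nat_lit 3051, nat_lit 3757, nat_lit 0, nat_lit 0, nat_lit 0, nat_lit 0, nat_lit 0, nat_lit 0, nat_lit 0, nat_lit 0, nat_lit 0, nat_lit 0, nat_lit 250000, nat_lit 0, nat_lit 0, [(nat_lit 26, [(nat_lit 0, nat_lit 1000)])],
 ⟨p118_k0, nat_lit 0, nat_lit 0, nat_lit 76, nat_lit 0, nat_lit 35446, [nat_lit 765600000, nat_lit 1715200000, nat_lit 2512800000], [], [nat_lit 19665456883, nat_lit 21302927802, nat_lit 22500997584, nat_lit 23837985642, nat_lit 21556691070, nat_lit 23028303955, nat_lit 24000381421, nat_lit 25343574787], nat_lit 1271250, nat_lit 1271250, nat_lit 719601, nat_lit 1758000, nat_lit 1100001, nat_lit 1648000, [nat_lit 230000, nat_lit 1100000, nat_lit 1785000], [nat_lit 57, nat_lit 40, nat_lit 40, nat_lit 80, nat_lit 7, nat_lit 345, nat_lit 125, nat_lit 10]⟩, C1.Rw.none,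
 ⟨nat_lit 2236, nat_lit 3163, ⟨.ofNat (nat_lit 409856), .ofNat (nat_lit 605240), .ofNat (nat_lit 454039), .ofNat (nat_lit 649422), .ofNat (nat_lit 419758), .ofNat (nat_lit 602541), .ofNat (nat_lit 465180), .ofNat (nat_lit 647962)⟩, ⟨.ofNat (nat_lit 306116), .ofNat (nat_lit 403641), .ofNat (nat_lit 328271), .ofNat (nat_lit 425796), .ofNat (nat_lit 306337), .ofNat (nat_lit 397562), .ofNat (nat_lit 329112), .ofNat (nat_lit 420336)⟩⟩, [⟨nat_lit 16, nat_lit 53, nat_lit 100, nat_lit 84, nat_lit 288449465⟩]⟩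
noncomputable def p118_l6 : Lf2 := ⟨nat_lit 1, nat_lit 30, [nat_lit 15, nat_lit 5, nat_lit 5, nat_lit 20], false, nat_lit 160, nat_lit 248, nat_lit 0, nat_lit 364, zbN0,
 nat_lit 0, nat_lit 0, nat_lit 0, nat_lit 0, nat_lit 0, nat_lit 0, nat_lit 0, nat_lit 0, nat_lit 0, nat_lit 0, nat_lit 0, nat_lit 0, nat_lit 0, nat_lit 0, nat_lit 0, nat_lit 0, nat_lit 0, nat_lit 0, [],
 C1.Rw.none, C1.Rw.none,
 zbF0, []⟩
noncomputable def p118_l7 : Lf2 := ⟨nat_lit 0, nat_lit 30, [nat_lit 15, nat_lit 5, nat_lit 5, nat_lit 20], false, nat_lit 160, nat_lit 248, nat_lit 0, nat_lit 352, ⟨nat_lit 798, nat_lit 0, nat_lit 202, nat_lit 6, nat_lit 223, nat_lit 202, nat_lit 162, nat_lit 202, nat_lit 61189, nat_lit 275, nat_lit 27594, nat_lit 200, nat_lit 43286658, nat_lit 0, nat_lit 0, nat_lit 4751172, false, false⟩,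
 nat_lit 0, nat_lit 5997, nat_lit 0, nat_lit 24136, nat_lit 5223, nat_lit 14698, nat_lit 0, nat_lit 0, nat_lit 0, nat_lit 90, nat_lit 0, nat_lit 0, nat_lit 0, nat_lit 0, nat_lit 0, nat_lit 40400, nat_lit 0, nat_lit 0, [(nat_lit 26, [(nat_lit 3, nat_lit 202)])],
 ⟨p118_k4, nat_lit 0, nat_lit 0, nat_lit 72, nat_lit 0, nat_lit 42934, [nat_lit 980420000, nat_lit 3573364000, nat_lit 7516252800], [], [nat_lit 20887325610, nat_lit 22816255053, nat_lit 23489108176, nat_lit 25086742238, nat_lit 23661685487, nat_lit 25299218880, nat_lit 25650528114, nat_lit 27165769213], nat_lit 1271250, nat_lit 1271250, nat_lit 872850, nat_lit 1769250, nat_lit 1100001, nat_lit 1853500, [nat_lit 230000, nat_lit 1100000, nat_lit 2127500], [nat_lit 81, nat_lit 40, nat_lit 40, nat_lit 80, nat_lit 13, nat_lit 345, nat_lit 125, nat_lit 9]⟩, ⟨p118_k3, nat_lit 0, nat_lit 0, nat_lit 277, nat_lit 0, nat_lit 0, [nat_lit 3741024000, nat_lit 7853916000,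 nat_lit 11218284000], [], [nat_lit 36953583431, nat_lit 38588636595, nat_lit 37434141120, nat_lit 38625738744, nat_lit 30060521913, nat_lit 30564880055, nat_lit 27454312306, nat_lit 27769795604], nat_lit 0, nat_lit 0, nat_lit 0, nat_lit 0, nat_lit 0, nat_lit 0, [], [nat_lit 56, nat_lit 40, nat_lit 40, nat_lit 80, nat_lit 32, nat_lit 456, nat_lit 225, nat_lit 11]⟩,
 ⟨nat_lit 2236, nat_lit 3163, ⟨.ofNat (nat_lit 462477), .ofNat (nat_lit 627331), .ofNat (nat_lit 484568), .ofNat (nat_lit 649422), .ofNat (nat_lit 471029), .ofNat (nat_lit 625251), .ofNat (nat_lit 493740), .ofNat (nat_lit 647962)⟩, ⟨.ofNat (nat_lit 328271), .ofNat (nat_lit 462368), .ofNat (nat_lit 350426), .ofNat (nat_lit 484523), .ofNat (nat_lit 329112), .ofNat (nat_lit 454546), .ofNat (nat_lit 351886), .ofNat (nat_lit 477320)⟩⟩, [⟨nat_lit 0, nat_lit 92, nat_lit 44, nat_lit 100, nat_lit 996425261⟩, ⟨nat_lit 4, nat_lit 100, nat_lit 53, nat_lit 90, nat_lit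 651396054⟩]⟩
noncomputable def p118_l8 : Lf2 := ⟨nat_lit 1, nat_lit 30, [nat_lit 15, nat_lit 5, nat_lit 5, nat_lit 20], false, nat_lit 160, nat_lit 248, nat_lit 0, nat_lit 364, zbN0,
 nat_lit 0, nat_lit 0, nat_lit 0, nat_lit 0, nat_lit 0, nat_lit 0, nat_lit 0, nat_lit 0, nat_lit 0, nat_lit 0, nat_lit 0, nat_lit 0, nat_lit 0, nat_lit 0, nat_lit 0, nat_lit 0, nat_lit 0, nat_lit 0, [],
 C1.Rw.none, C1.Rw.none,
 zbF0, []⟩
noncomputable def p118_l9 : Lf2 := ⟨nat_lit 1, nat_lit 30, [nat_lit 15, nat_lit 5, nat_lit 5, nat_lit 20], false, nat_lit 8, nat_lit 248, nat_lit 0, nat_lit 364, zbN0,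
 nat_lit 0, nat_lit 0, nat_lit 0, nat_lit 0, nat_lit 0, nat_lit 0, nat_lit 0, nat_lit 0, nat_lit 0, nat_lit 0, nat_lit 0, nat_lit 0, nat_lit 0, nat_lit 0, nat_lit 0, nat_lit 0, nat_lit 0, nat_lit 0, [],
 C1.Rw.none, C1.Rw.none,
 zbF0, []⟩
noncomputable def p118_l10 : Lf2 := ⟨nat_lit 0, nat_lit 25, [nat_lit 44, nat_lit 5, nat_lit 5, nat_lit 20], true, nat_lit 20, nat_lit 80, nat_lit 0, nat_lit 352, ⟨nat_lit 0, nat_lit 550, nat_lit 450, nat_lit 6, nat_lit 220, nat_lit 1000, nat_lit 50, nat_lit 450, nat_lit 22817, nat_lit 252, nat_lit 2526, nat_lit 204, nat_lit 50024177, nat_lit 15416238, nat_lit 1559585, nat_lit 3338021, false, false⟩,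
 nat_lit 0, nat_lit 2636, nat_lit 0, nat_lit 1029, nat_lit 2462, nat_lit 0, nat_lit 0, nat_lit 0, nat_lit 0, nat_lit 0, nat_lit 0, nat_lit 0, nat_lit 0, nat_lit 0, nat_lit 10, nat_lit 250000, nat_lit 0, nat_lit 0, [(nat_lit 29, [(nat_lit 0, nat_lit 550), (nat_lit 4, nat_lit 450)])],
 ⟨p118_k5, nat_lit 0, nat_lit 0, nat_lit 207, nat_lit 0, nat_lit 137040, [nat_lit 812600000, nat_lit 116560001, nat_lit 2620000], [], [nat_lit 21412822303, nat_lit 22541722083, nat_lit 23485938186, nat_lit 24604127260, nat_lit 21108166688, nat_lit 22186791315, nat_lit 23117026129, nat_lit 24193182009], nat_lit 1271250, nat_lit 1271250, nat_lit 1000851, nat_lit 1778250, nat_lit 111251, nat_lit 490000, [nat_lit 230000, nat_lit 1100000, nat_lit 1442500], [nat_lit 55, nat_lit 40, nat_lit 40, nat_lit 80, nat_lit 3, nat_lit 317, nat_lit 100, nat_lit 11]⟩, C1.Rw.none,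
 ⟨nat_lit 0, nat_lit 2237, ⟨.ofNat (nat_lit 467180), .ofNat (nat_lit 602531), .ofNat (nat_lit 489028), .ofNat (nat_lit 624400), .ofNat (nat_lit 480752), .ofNat (nat_lit 599967), .ofNat (nat_lit 504825), .ofNat (nat_lit 624062)⟩, ⟨.ofNat (nat_lit 50000), .ofNat (nat_lit 192306), .ofNat (nat_lit 50000), .ofNat (nat_lit 200000), .ofNat (nat_lit 50000), .ofNat (nat_lit 199999), .ofNat (nat_lit 50000), .ofNat (nat_lit 200000)⟩⟩, [⟨nat_lit 3, nat_lit 100, nat_lit 37, nat_lit 74, nat_lit 394267404⟩]⟩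
noncomputable def p118_l11 : Lf2 := ⟨nat_lit 0, nat_lit 30, [nat_lit 15, nat_lit 5, nat_lit 5, nat_lit 20], false, nat_lit 32, nat_lit 80, nat_lit 0, nat_lit 364, ⟨nat_lit 189, nat_lit 0, nat_lit 811, nat_lit 6, nat_lit 220, nat_lit 811, nat_lit 56, nat_lit 811, nat_lit 29400, nat_lit 257, nat_lit 2526, nat_lit 204, nat_lit 49740058, nat_lit 0, nat_lit 0, nat_lit 3429372, false, false⟩,
 nat_lit 0, nat_lit 2872, nat_lit 0, nat_lit 2089, nat_lit 2683, nat_lit 2280, nat_lit 0, nat_lit 0, nat_lit 0, nat_lit 148, nat_lit 0, nat_lit 0, nat_lit 0, nat_lit 0, nat_lit 52, nat_lit 202750, nat_lit 0, nat_lit 0, [(nat_lit 29, [(nat_lit 4, nat_lit 811)])],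
 ⟨p118_k6, nat_lit 0, nat_lit 0, nat_lit 239, nat_lit 0, nat_lit 143207, [nat_lit 1002939601, nat_lit 258556401, nat_lit 274238400], [], [nat_lit 21440440392, nat_lit 22710893771, nat_lit 23528419875, nat_lit 24835753165, nat_lit 21024937183, nat_lit 22216875019, nat_lit 23085320049, nat_lit 24125291739], nat_lit 1271250, nat_lit 1271250, nat_lit 1000851, nat_lit 1778250, nat_lit 181601, nat_lit 490000, [nat_lit 230000, nat_lit 1100000, nat_lit 1785000], [nat_lit 57, nat_lit 40, nat_lit 40, nat_lit 80, nat_lit 7, nat_lit 317, nat_lit 100, nat_lit 10]⟩, ⟨p118_k7, nat_lit 0, nat_lit 0, nat_lit 414, nat_lit 0, nat_lit 0, [nat_lit 886032000, nat_lit 1860138000, nat_lit 3099600000], [], [nat_lit 7018550489, nat_lit 7237774660, nat_lit 7158963768, nat_lit 7327051806, nat_lit 6111666493, nat_lit 6175580547, nat_lit 5840173965, nat_lit 5878604700], nat_lit 0, nat_lit 0, nat_lit 0, nat_lit 0, nat_lit 0, nat_lit 0, [], [nat_lit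 83, nat_lit 40, nat_lit 40, nat_lit 80, nat_lit 73, nat_lit 456, nat_lit 225, nat_lit 10]⟩,
 ⟨nat_lit 0, nat_lit 2237, ⟨.ofNat (nat_lit 467180), .ofNat (nat_lit 602531), .ofNat (nat_lit 489028), .ofNat (nat_lit 624400), .ofNat (nat_lit 480752), .ofNat (nat_lit 599967), .ofNat (nat_lit 504825), .ofNat (nat_lit 624062)⟩, ⟨.ofNat (nat_lit 80000), .ofNat (nat_lit 200000), .ofNat (nat_lit 80000), .ofNat (nat_lit 200000), .ofNat (nat_lit 80000), .ofNat (nat_lit 200000), .ofNat (nat_lit 80000), .ofNat (nat_lit 200000)⟩⟩, [⟨nat_lit 3, nat_lit 100, nat_lit 35, nat_lit 79, nat_lit 388203306⟩, ⟨nat_lit 22, nat_lit 100, nat_lit 70, nat_lit 69, nat_lit 24778098⟩]⟩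
noncomputable def p118_l12 : Lf2 := ⟨nat_lit 0, nat_lit 30, [nat_lit 15, nat_lit 5, nat_lit 5, nat_lit 20], false, nat_lit 20, nat_lit 80, nat_lit 0, nat_lit 352, ⟨nat_lit 1000, nat_lit 0, nat_lit 0, nat_lit 0, nat_lit 0, nat_lit 0, nat_lit 0, nat_lit 0, nat_lit 0, nat_lit 0, nat_lit 0, nat_lit 0, nat_lit 0, nat_lit 0, nat_lit 0, nat_lit 0, false, false⟩,
 nat_lit 0, nat_lit 3803, nat_lit 0, nat_lit 4958, nat_lit 3553, nat_lit 21066, nat_lit 555, nat_lit 0, nat_lit 0, nat_lit 121, nat_lit 0, nat_lit 0, nat_lit 0, nat_lit 0, nat_lit 0, nat_lit 0, nat_lit 0, nat_lit 0, [],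
 ⟨p118_k6, nat_lit 0, nat_lit 0, nat_lit 288, nat_lit 0, nat_lit 294334, [nat_lit 938000000, nat_lit 4688000000, nat_lit 7968000000], [], [nat_lit 23148593268, nat_lit 25146418925, nat_lit 25297996674, nat_lit 27044740514, nat_lit 21854452044, nat_lit 23098405742, nat_lit 23363896744, nat_lit 25045131128], nat_lit 1271250, nat_lit 1271250, nat_lit 1167600, nat_lit 1789500, nat_lit 111251, nat_lit 490000, [nat_lit 230000, nat_lit 1100000, nat_lit 1785000], [nat_lit 57, nat_lit 40, nat_lit 40, nat_lit 80, nat_lit 7, nat_lit 317, nat_lit 100, nat_lit 10]⟩, ⟨p118_k3, nat_lit 0, nat_lit 0, nat_lit 263, nat_lit 0, nat_lit 0, [nat_lit 4688000000, nat_lit 9842000000, nat_lit 14058000000], [], [nat_lit 46828792641, nat_lit 48907280813, nat_lit 48469472648, nat_lit 50097357540, nat_lit 34827100341, nat_lit 35390428476, nat_lit 34766521536, nat_lit 36489110148], nat_lit 0, nat_lit 0, nat_lit 0, nat_lit 0, nat_lit 0, nat_lit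 0, [], [nat_lit 56, nat_lit 40, nat_lit 40, nat_lit 80, nat_lit 32, nat_lit 456, nat_lit 225, nat_lit 10]⟩,
 zbF0, [⟨nat_lit 0, nat_lit 94, nat_lit 31, nat_lit 100, nat_lit 812152315⟩, ⟨nat_lit 0, nat_lit 96, nat_lit 44, nat_lit 100, nat_lit 218657377⟩]⟩
noncomputable def p118_l13 : Lf2 := ⟨nat_lit 0, nat_lit 30, [nat_lit 15, nat_lit 5, nat_lit 5, nat_lit 20], false, nat_lit 80, nat_lit 160, nat_lit 0, nat_lit 364, ⟨nat_lit 187, nat_lit 0, nat_lit 813, nat_lit 6, nat_lit 220, nat_lit 813, nat_lit 105, nat_lit 813, nat_lit 104017, nat_lit 294, nat_lit 4336, nat_lit 204, nat_lit 47135566, nat_lit 0, nat_lit 0, nat_lit 4098301, false, false⟩,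
 nat_lit 0, nat_lit 3059, nat_lit 0, nat_lit 575, nat_lit 2858, nat_lit 2260, nat_lit 0, nat_lit 0, nat_lit 0, nat_lit 147, nat_lit 0, nat_lit 0, nat_lit 0, nat_lit 0, nat_lit 53, nat_lit 203250, nat_lit 0, nat_lit 0, [(nat_lit 29, [(nat_lit 4, nat_lit 813)])],
 ⟨p118_k6, nat_lit 0, nat_lit 0, nat_lit 171, nat_lit 0, nat_lit 160396, [nat_lit 1006586801, nat_lit 261581201, nat_lit 276187200], [], [nat_lit 20664720069, nat_lit 21322396733, nat_lit 22721862204, nat_lit 23292073750, nat_lit 21406845666, nat_lit 21978132489, nat_lit 23305870630, nat_lit 23806324290], nat_lit 1271250, nat_lit 1271250, nat_lit 1000851, nat_lit 1778250, nat_lit 490000, nat_lit 1100001, [nat_lit 230000, nat_lit 1100000, nat_lit 1785000], [nat_lit 57, nat_lit 40, nat_lit 40, nat_lit 80, nat_lit 7, nat_lit 317, nat_lit 100, nat_lit 10]⟩, ⟨p118_k7, nat_lit 0, nat_lit 0, nat_lit 414, nat_lit 0, nat_lit 0, [nat_lit 876656000, nat_lit 1840454000,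 nat_lit 3066800000], [], [nat_lit 6938969736, nat_lit 7156077696, nat_lit 7077389549, nat_lit 7243822423, nat_lit 6037369760, nat_lit 6100570856, nat_lit 5767641608, nat_lit 5815152991], nat_lit 0, nat_lit 0, nat_lit 0, nat_lit 0, nat_lit 0, nat_lit 0, [], [nat_lit 83, nat_lit 40, nat_lit 40, nat_lit 80, nat_lit 73, nat_lit 456, nat_lit 225, nat_lit 10]⟩,
 ⟨nat_lit 1581, nat_lit 2237, ⟨.ofNat (nat_lit 471225), .ofNat (nat_lit 602558), .ofNat (nat_lit 493955), .ofNat (nat_lit 625287), .ofNat (nat_lit 475401), .ofNat (nat_lit 601260), .ofNat (nat_lit 498671), .ofNat (nat_lit 624529)⟩, ⟨.ofNat (nat_lit 192306), .ofNat (nat_lit 306337), .ofNat (nat_lit 200000), .ofNat (nat_lit 351886), .ofNat (nat_lit 196201), .ofNat (nat_lit 305473), .ofNat (nat_lit 200000), .ofNat (nat_lit 352103)⟩⟩, [⟨nat_lit 4, nat_lit 100, nat_lit 38, nat_lit 87, nat_lit 27422867⟩, ⟨nat_lit 19, nat_lit 100, nat_lit 72, nat_lit 89, nat_lit 19043178⟩]⟩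
noncomputable def p118_l14 : Lf2 := ⟨nat_lit 0, nat_lit 30, [nat_lit 15, nat_lit 5, nat_lit 5, nat_lit 20], false, nat_lit 80, nat_lit 160, nat_lit 0, nat_lit 364, ⟨nat_lit 296, nat_lit 0, nat_lit 704, nat_lit 6, nat_lit 228, nat_lit 704, nat_lit 105, nat_lit 704, nat_lit 104017, nat_lit 294, nat_lit 2404, nat_lit 204, nat_lit 46372170, nat_lit 0, nat_lit 0, nat_lit 4160530, true, false⟩,
 nat_lit 0, nat_lit 2992, nat_lit 0, nat_lit 1908, nat_lit 2893, nat_lit 3573, nat_lit 0, nat_lit 0, nat_lit 0, nat_lit 232, nat_lit 0, nat_lit 0, nat_lit 0, nat_lit 0, nat_lit 0, nat_lit 176000, nat_lit 0, nat_lit 0, [(nat_lit 29, [(nat_lit 4, nat_lit 704)])],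
 ⟨p118_k8, nat_lit 0, nat_lit 0, nat_lit 172, nat_lit 0, nat_lit 231049, [nat_lit 813814400, nat_lit 135372801, nat_lit 4112000], [], [nat_lit 21765788392, nat_lit 22369018428, nat_lit 23341584501, nat_lit 24092898968, nat_lit 22528981673, nat_lit 23104903383, nat_lit 24006239311, nat_lit 24527710524], nat_lit 1271250, nat_lit 1271250, nat_lit 1236400, nat_lit 1794000, nat_lit 490000, nat_lit 1100001, [nat_lit 230000, nat_lit 1100000, nat_lit 1442500], [nat_lit 55, nat_lit 40, nat_lit 40, nat_lit 80, nat_lit 3, nat_lit 317, nat_lit 100, nat_lit 11]⟩, ⟨p118_k7, nat_lit 0, nat_lit 0, nat_lit 403, nat_lit 0, nat_lit 0, [nat_lit 1387648000, nat_lit 2913232000, nat_lit 4854400000], [], [nat_lit 10904395364, nat_lit 11226670896, nat_lit 11210370804, nat_lit 11473685844, nat_lit 9333692778, nat_lit 9422663801, nat_lit 9142337674, nat_lit 9205408148], nat_lit 0, nat_lit 0, nat_lit 0, nat_lit 0, nat_lit 0, nat_lit 0, [],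 [nat_lit 83, nat_lit 40, nat_lit 40, nat_lit 80, nat_lit 73, nat_lit 456, nat_lit 225, nat_lit 10]⟩,
 ⟨nat_lit 0, nat_lit 1582, ⟨.ofNat (nat_lit 511747), .ofNat (nat_lit 601257), .ofNat (nat_lit 534406), .ofNat (nat_lit 623921), .ofNat (nat_lit 517899), .ofNat (nat_lit 599992), .ofNat (nat_lit 542242), .ofNat (nat_lit 624340)⟩, ⟨.ofNat (nat_lit 196201), .ofNat (nat_lit 305469), .ofNat (nat_lit 200000), .ofNat (nat_lit 352101), .ofNat (nat_lit 199999), .ofNat (nat_lit 299995), .ofNat (nat_lit 200000), .ofNat (nat_lit 349997)⟩⟩, [⟨nat_lit 0, nat_lit 97, nat_lit 22, nat_lit 100, nat_lit 240682719⟩, ⟨nat_lit 4, nat_lit 100, nat_lit 23, nat_lit 91, nat_lit 239229216⟩, ⟨nat_lit 7, nat_lit 72, nat_lit 100, nat_lit 89, nat_lit 30097773⟩]⟩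
noncomputable def p118_l15 : Lf2 := ⟨nat_lit 0, nat_lit 30, [nat_lit 15, nat_lit 5, nat_lit 5, nat_lit 20], false, nat_lit 160, nat_lit 208, nat_lit 0, nat_lit 364, ⟨nat_lit 171, nat_lit 0, nat_lit 829, nat_lit 6, nat_lit 220, nat_lit 829, nat_lit 145, nat_lit 829, nat_lit 198017, nat_lit 324, nat_lit 4336, nat_lit 204, nat_lit 44673516, nat_lit 0, nat_lit 0, nat_lit 4558758, false, false⟩,
 nat_lit 0, nat_lit 2888, nat_lit 0, nat_lit 3464, nat_lit 2698, nat_lit 2067, nat_lit 0, nat_lit 0, nat_lit 0, nat_lit 134, nat_lit 0, nat_lit 0, nat_lit 0, nat_lit 0, nat_lit 61, nat_lit 207250, nat_lit 0, nat_lit 0, [(nat_lit 29, [(nat_lit 4, nat_lit 829)])],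
 ⟨p118_k6, nat_lit 0, nat_lit 0, nat_lit 147, nat_lit 0, nat_lit 160396, [nat_lit 1035764401, nat_lit 285779601, nat_lit 291777600], [], [nat_lit 21287204878, nat_lit 21857830700, nat_lit 23203633677, nat_lit 23702094215, nat_lit 22355728579, nat_lit 22887491335, nat_lit 24149274534, nat_lit 24765761076], nat_lit 1271250, nat_lit 1271250, nat_lit 1000851, nat_lit 1778250, nat_lit 1100001, nat_lit 1511000, [nat_lit 230000, nat_lit 1100000, nat_lit 1785000], [nat_lit 57, nat_lit 40, nat_lit 40, nat_lit 80, nat_lit 7, nat_lit 345, nat_lit 125, nat_lit 10]⟩, ⟨p118_k7, nat_lit 0, nat_lit 0, nat_lit 414, nat_lit 0, nat_lit 0, [nat_lit 801648000, nat_lit 1682982000, nat_lit 2804400000], [], [nat_lit 6352889228, nat_lit 6551439311, nat_lit 6479420250, nat_lit 6631623924, nat_lit 5528045913, nat_lit 5585836155, nat_lit 5281296992, nat_lit 5317850654], nat_lit 0, nat_lit 0, nat_lit 0, nat_lit 0, nat_lit 0, nat_lit 0, [],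 [nat_lit 83, nat_lit 40, nat_lit 40, nat_lit 80, nat_lit 73, nat_lit 456, nat_lit 225, nat_lit 10]⟩,
 ⟨nat_lit 1581, nat_lit 2237, ⟨.ofNat (nat_lit 471225), .ofNat (nat_lit 602558), .ofNat (nat_lit 493955), .ofNat (nat_lit 625287), .ofNat (nat_lit 475401), .ofNat (nat_lit 601260), .ofNat (nat_lit 498671), .ofNat (nat_lit 624529)⟩, ⟨.ofNat (nat_lit 306337), .ofNat (nat_lit 374756), .ofNat (nat_lit 351886), .ofNat (nat_lit 420305), .ofNat (nat_lit 305473), .ofNat (nat_lit 371036), .ofNat (nat_lit 352103), .ofNat (nat_lit 417666)⟩⟩, [⟨nat_lit 4, nat_lit 100, nat_lit 38, nat_lit 87, nat_lit 407687208⟩, ⟨nat_lit 7, nat_lit 72, nat_lit 100, nat_lit 89, nat_lit 17411778⟩]⟩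
noncomputable def p118_l16 : Lf2 := ⟨nat_lit 0, nat_lit 30, [nat_lit 15, nat_lit 5, nat_lit 5, nat_lit 20], true, nat_lit 160, nat_lit 184, nat_lit 0, nat_lit 364, ⟨nat_lit 0, nat_lit 593, nat_lit 407, nat_lit 6, nat_lit 228, nat_lit 1000, nat_lit 137, nat_lit 407, nat_lit 176817, nat_lit 318, nat_lit 2404, nat_lit 204, nat_lit 44473481, nat_lit 15546533, nat_lit 6979986, nat_lit 4531075, true, false⟩,
 nat_lit 0, nat_lit 2957, nat_lit 0, nat_lit 623, nat_lit 2859, nat_lit 0, nat_lit 0, nat_lit 0, nat_lit 0, nat_lit 0, nat_lit 0, nat_lit 0, nat_lit 0, nat_lit 0, nat_lit 1, nat_lit 250000, nat_lit 0, nat_lit 0, [(nat_lit 29, [(nat_lit 0, nat_lit 593), (nat_lit 4, nat_lit 407)])],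
 ⟨p118_k8, nat_lit 0, nat_lit 0, nat_lit 148, nat_lit 0, nat_lit 231049, [nat_lit 777460001, nat_lit 108233601, nat_lit 12181200], [], [nat_lit 22320208014, nat_lit 22922580809, nat_lit 23809620556, nat_lit 24491008480, nat_lit 22850030568, nat_lit 23433961849, nat_lit 24356677678, nat_lit 25015544043], nat_lit 1271250, nat_lit 1271250, nat_lit 1236400, nat_lit 1794000, nat_lit 1100001, nat_lit 1305500, [nat_lit 230000, nat_lit 1100000, nat_lit 1442500], [nat_lit 55, nat_lit 40, nat_lit 40, nat_lit 80, nat_lit 3, nat_lit 345, nat_lit 125, nat_lit 12]⟩, C1.Rw.none,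
 ⟨nat_lit 0, nat_lit 1582, ⟨.ofNat (nat_lit 511747), .ofNat (nat_lit 601257), .ofNat (nat_lit 534406), .ofNat (nat_lit 623921), .ofNat (nat_lit 517899), .ofNat (nat_lit 599992), .ofNat (nat_lit 542242), .ofNat (nat_lit 624340)⟩, ⟨.ofNat (nat_lit 305469), .ofNat (nat_lit 338250), .ofNat (nat_lit 352101), .ofNat (nat_lit 384882), .ofNat (nat_lit 299995), .ofNat (nat_lit 329995), .ofNat (nat_lit 349997), .ofNat (nat_lit 379997)⟩⟩, [⟨nat_lit 16, nat_lit 31, nat_lit 100, nat_lit 92, nat_lit 480032021⟩]⟩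
noncomputable def p118_l17 : Lf2 := ⟨nat_lit 0, nat_lit 30, [nat_lit 15, nat_lit 5, nat_lit 5, nat_lit 20], false, nat_lit 80, nat_lit 208, nat_lit 0, nat_lit 352, ⟨nat_lit 339, nat_lit 0, nat_lit 661, nat_lit 6, nat_lit 223, nat_lit 661, nat_lit 118, nat_lit 661, nat_lit 129067, nat_lit 303, nat_lit 4820, nat_lit 214, nat_lit 46045121, nat_lit 0, nat_lit 0, nat_lit 4281587, false, false⟩,
 nat_lit 0, nat_lit 3692, nat_lit 0, nat_lit 686, nat_lit 3449, nat_lit 6786, nat_lit 66, nat_lit 0, nat_lit 0, nat_lit 44, nat_lit 0, nat_lit 0, nat_lit 0, nat_lit 0, nat_lit 0, nat_lit 142645, nat_lit 0, nat_lit 0, [(nat_lit 29, [(nat_lit 3, nat_lit 411), (nat_lit 4, nat_lit 250)])],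
 ⟨p118_k6, nat_lit 0, nat_lit 0, nat_lit 247, nat_lit 0, nat_lit 294334, [nat_lit 979223601, nat_lit 577084001, nat_lit 976491600], [], [nat_lit 21919496836, nat_lit 23317686953, nat_lit 22559081424, nat_lit 23888849932, nat_lit 23400748571, nat_lit 24576277136, nat_lit 23932216595, nat_lit 25051564570], nat_lit 1271250, nat_lit 1271250, nat_lit 1167600, nat_lit 1444000, nat_lit 490000, nat_lit 1490000, [nat_lit 230000, nat_lit 1100000, nat_lit 1785000], [nat_lit 57, nat_lit 40, nat_lit 40, nat_lit 80, nat_lit 7, nat_lit 345, nat_lit 125, nat_lit 10]⟩, ⟨p118_k3, nat_lit 0, nat_lit 0, nat_lit 263, nat_lit 0, nat_lit 0, [nat_lit 1589232000, nat_lit 3336438000, nat_lit 4765662000], [], [nat_lit 15608359195, nat_lit 16287854821, nat_lit 15627071318, nat_lit 16246709480, nat_lit 11871232174, nat_lit 12060518014, nat_lit 11477471779, nat_lit 11637052443], nat_lit 0, nat_lit 0, nat_lit 0, nat_lit 0, nat_lit 0, nat_lit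 0, [], [nat_lit 56, nat_lit 40, nat_lit 40, nat_lit 80, nat_lit 32, nat_lit 456, nat_lit 225, nat_lit 10]⟩,
 ⟨nat_lit 0, nat_lit 2237, ⟨.ofNat (nat_lit 518456), .ofNat (nat_lit 565543), .ofNat (nat_lit 540305), .ofNat (nat_lit 587391), .ofNat (nat_lit 530746), .ofNat (nat_lit 572220), .ofNat (nat_lit 554820), .ofNat (nat_lit 596294)⟩, ⟨.ofNat (nat_lit 192306), .ofNat (nat_lit 374750), .ofNat (nat_lit 200000), .ofNat (nat_lit 420300), .ofNat (nat_lit 199999), .ofNat (nat_lit 359993), .ofNat (nat_lit 200000), .ofNat (nat_lit 409994)⟩⟩, [⟨nat_lit 0, nat_lit 96, nat_lit 44, nat_lit 100, nat_lit 362800951⟩, ⟨nat_lit 16, nat_lit 44, nat_lit 100, nat_lit 92, nat_lit 215455309⟩]⟩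
noncomputable def p118_l18 : Lf2 := ⟨nat_lit 0, nat_lit 30, [nat_lit 15, nat_lit 5, nat_lit 5, nat_lit 20], false, nat_lit 80, nat_lit 208, nat_lit 0, nat_lit 352, ⟨nat_lit 970, nat_lit 0, nat_lit 30, nat_lit 6, nat_lit 243, nat_lit 30, nat_lit 118, nat_lit 30, nat_lit 129067, nat_lit 303, nat_lit 25022, nat_lit 200, nat_lit 44231844, nat_lit 0, nat_lit 0, nat_lit 4416349, true, false⟩,
 nat_lit 0, nat_lit 3812, nat_lit 0, nat_lit 5560, nat_lit 3562, nat_lit 19576, nat_lit 514, nat_lit 0, nat_lit 0, nat_lit 126, nat_lit 0, nat_lit 0, nat_lit 0, nat_lit 0, nat_lit 0, nat_lit 5850, nat_lit 0, nat_lit 0, [(nat_lit 29, [(nat_lit 3, nat_lit 30)])],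
 ⟨p118_k6, nat_lit 0, nat_lit 0, nat_lit 242, nat_lit 0, nat_lit 294334, [nat_lit 944228000, nat_lit 4506320000, nat_lit 7658868000], [], [nat_lit 22484626854, nat_lit 23833571116, nat_lit 23567820456, nat_lit 25058116112, nat_lit 23810453303, nat_lit 25150898965, nat_lit 24816186252, nat_lit 26221861941], nat_lit 1271250, nat_lit 1271250, nat_lit 1271250, nat_lit 1271250, nat_lit 490000, nat_lit 1490000, [nat_lit 230000, nat_lit 1100000, nat_lit 1785000], [nat_lit 57, nat_lit 40, nat_lit 40, nat_lit 80, nat_lit 7, nat_lit 345, nat_lit 125, nat_lit 10]⟩, ⟨p118_k3, nat_lit 0, nat_lit 0, nat_lit 256, nat_lit 0, nat_lit 0, [nat_lit 4547360000, nat_lit 9546740000, nat_lit 13636260000], [], [nat_lit 44809022764, nat_lit 46591964600, nat_lit 46360745068, nat_lit 47896152800, nat_lit 32778928446, nat_lit 33395529944, nat_lit 33223113868, nat_lit 34846763364], nat_lit 0, nat_lit 0, nat_lit 0, nat_lit 0, nat_lit 0, nat_lit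 0, [], [nat_lit 56, nat_lit 40, nat_lit 40, nat_lit 80, nat_lit 32, nat_lit 456, nat_lit 225, nat_lit 10]⟩,
 ⟨nat_lit 0, nat_lit 2237, ⟨.ofNat (nat_lit 565543), .ofNat (nat_lit 624400), .ofNat (nat_lit 587391), .ofNat (nat_lit 646249), .ofNat (nat_lit 572220), .ofNat (nat_lit 624062), .ofNat (nat_lit 596294), .ofNat (nat_lit 648136)⟩, ⟨.ofNat (nat_lit 192306), .ofNat (nat_lit 374750), .ofNat (nat_lit 200000), .ofNat (nat_lit 420300), .ofNat (nat_lit 199999), .ofNat (nat_lit 359993), .ofNat (nat_lit 200000), .ofNat (nat_lit 409994)⟩⟩, [⟨nat_lit 16, nat_lit 44, nat_lit 100, nat_lit 92, nat_lit 92394579⟩, ⟨nat_lit 4, nat_lit 100, nat_lit 32, nat_lit 88, nat_lit 658911455⟩]⟩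
noncomputable def p118_l19 : Lf2 := ⟨nat_lit 0, nat_lit 30, [nat_lit 15, nat_lit 5, nat_lit 5, nat_lit 20], false, nat_lit 8, nat_lit 248, nat_lit 0, nat_lit 160, ⟨nat_lit 1000, nat_lit 0, nat_lit 0, nat_lit 0, nat_lit 0, nat_lit 0, nat_lit 0, nat_lit 0, nat_lit 0, nat_lit 0, nat_lit 0, nat_lit 0, nat_lit 0, nat_lit 0, nat_lit 0, nat_lit 0, false, false⟩,
 nat_lit 0, nat_lit 6586, nat_lit 0, nat_lit 560, nat_lit 5735, nat_lit 6070, nat_lit 390, nat_lit 0, nat_lit 0, nat_lit 739, nat_lit 0, nat_lit 0, nat_lit 0, nat_lit 0, nat_lit 0, nat_lit 0, nat_lit 0, nat_lit 0, [],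
 ⟨p118_k4, nat_lit 0, nat_lit 0, nat_lit 340, nat_lit 0, nat_lit 323778, [nat_lit 938000000, nat_lit 4688000000, nat_lit 9842000000], [], [nat_lit 33347944132, nat_lit 35171175172, nat_lit 37442403100, nat_lit 40624304995, nat_lit 30698936206, nat_lit 32051093099, nat_lit 33733408393, nat_lit 35246900388], nat_lit 1271250, nat_lit 1271250, nat_lit 1271250, nat_lit 1271250, nat_lit 43600, nat_lit 1756600, [nat_lit 230000, nat_lit 1100000, nat_lit 2127500], [nat_lit 81, nat_lit 40, nat_lit 40, nat_lit 80, nat_lit 13, nat_lit 401, nat_lit 175, nat_lit 11]⟩, ⟨p118_k7, nat_lit 0, nat_lit 0, nat_lit 317, nat_lit 0, nat_lit 0, [nat_lit 4688000000, nat_lit 9842000000, nat_lit 16400000000], [], [nat_lit 32999743505, nat_lit 34419610545, nat_lit 39173434425, nat_lit 39990870528, nat_lit 28520797145, nat_lit 29570365425, nat_lit 34261274017, nat_lit 35302874592], nat_lit 0, nat_lit 0, nat_lit 0, nat_lit 0, nat_lit 0, nat_lit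 0, [], [nat_lit 83, nat_lit 40, nat_lit 40, nat_lit 80, nat_lit 73, nat_lit 456, nat_lit 225, nat_lit 9]⟩,
 zbF0, [⟨nat_lit 16, nat_lit 44, nat_lit 100, nat_lit 87, nat_lit 274098114⟩]⟩
noncomputable def p118_l20 : Lf2 := ⟨nat_lit 0, nat_lit 30, [nat_lit 15, nat_lit 5, nat_lit 5, nat_lit 20], false, nat_lit 8, nat_lit 248, nat_lit 160, nat_lit 364, ⟨nat_lit 1000, nat_lit 0, nat_lit 0, nat_lit 0, nat_lit 0, nat_lit 0, nat_lit 0, nat_lit 0, nat_lit 0, nat_lit 0, nat_lit 0, nat_lit 0, nat_lit 0, nat_lit 0, nat_lit 0, nat_lit 0, false, false⟩,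
 nat_lit 0, nat_lit 7400, nat_lit 0, nat_lit 0, nat_lit 6445, nat_lit 5437, nat_lit 379, nat_lit 0, nat_lit 0, nat_lit 0, nat_lit 0, nat_lit 0, nat_lit 0, nat_lit 0, nat_lit 0, nat_lit 0, nat_lit 0, nat_lit 0, [],
 ⟨p118_k4, nat_lit 0, nat_lit 0, nat_lit 340, nat_lit 0, nat_lit 323778, [nat_lit 938000000, nat_lit 4688000000, nat_lit 9842000000], [], [nat_lit 32417229484, nat_lit 34679548642, nat_lit 39375225706, nat_lit 42782081388, nat_lit 28961624922, nat_lit 30368746927, nat_lit 33599957530, nat_lit 36129187067], nat_lit 1271250, nat_lit 1271250, nat_lit 1271250, nat_lit 1271250, nat_lit 43600, nat_lit 1756600, [nat_lit 230000, nat_lit 1100000, nat_lit 2127500], [nat_lit 81, nat_lit 40, nat_lit 40, nat_lit 80, nat_lit 13, nat_lit 401, nat_lit 175, nat_lit 11]⟩, ⟨p118_k7, nat_lit 0, nat_lit 0, nat_lit 107, nat_lit 0, nat_lit 0, [nat_lit 4688000000, nat_lit 9842000000, nat_lit 16400000000], [], [nat_lit 16049436688,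 nat_lit 18568910940, nat_lit 25785283327, nat_lit 27382350959, nat_lit 26692987358, nat_lit 28108525740, nat_lit 32560508529, nat_lit 33555594583], nat_lit 0, nat_lit 0, nat_lit 0, nat_lit 0, nat_lit 0, nat_lit 0, [], [nat_lit 83, nat_lit 40, nat_lit 40, nat_lit 80, nat_lit 73, nat_lit 538, nat_lit 300, nat_lit 11]⟩,
 zbF0, [⟨nat_lit 16, nat_lit 44, nat_lit 100, nat_lit 87, nat_lit 317241189⟩, ⟨nat_lit 19, nat_lit 100, nat_lit 77, nat_lit 91, nat_lit 274613391⟩, ⟨nat_lit 19, nat_lit 100, nat_lit 59, nat_lit 94, nat_lit 53126095⟩, ⟨nat_lit 10, nat_lit 57, nat_lit 84, nat_lit 100, nat_lit 115796783⟩]⟩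
noncomputable def b_V_900_600_20_82 : St := ⟨true, nat_lit 1, nat_lit 0, nat_lit 1, nat_lit 120, nat_lit 360, nat_lit 400, nat_lit 240, nat_lit 280, nat_lit 112, nat_lit 376, nat_lit 80, nat_lit 120, nat_lit 8, nat_lit 248, nat_lit 0, nat_lit 364, nat_lit 120, nat_lit 156, nat_lit 0, nat_lit 0, nat_lit 0, nat_lit 0⟩
theorem d_V_900_600_20_82 (h : EB TB.env) : Dead b_V_900_600_20_82 := chkB_sound0 h (T :=
(.spl (nat_lit 2) (nat_lit 240)
(.spl (nat_lit 0) (nat_lit 380)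
(.spl (nat_lit 6) (nat_lit 136)
(.spl (nat_lit 4) (nat_lit 160)
(.spl (nat_lit 3) (nat_lit 100)
(.trX (nat_lit 19) (nat_lit 100) (nat_lit 68) (nat_lit 88) (nat_lit 352) (.leaf p118_l0))
(.trZ (nat_lit 3) (nat_lit 100) (nat_lit 69) (nat_lit 45) (nat_lit 16) (.spl (nat_lit 6) (nat_lit 128)
(.spl (nat_lit 0) (nat_lit 370)
(.leaf p118_l1)
(.trZ (nat_lit 0) (nat_lit 100) (nat_lit 54) (nat_lit 96) (nat_lit 128) (.trZ (nat_lit 3) (nat_lit 100) (nat_lit 61) (nat_lit 55) (nat_lit 20) (.spl (nat_lit 1) (nat_lit 260)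
(.leaf p118_l2)
(.trZ (nat_lit 0) (nat_lit 98) (nat_lit 54) (nat_lit 100) (nat_lit 148) (.trX (nat_lit 19) (nat_lit 100) (nat_lit 69) (nat_lit 96) (nat_lit 352) (.leaf p118_l3)))))))
(.leaf p118_l4))))
(.spl (nat_lit 3) (nat_lit 100)
(.trX (nat_lit 16) (nat_lit 60) (nat_lit 100) (nat_lit 87) (nat_lit 224) (.trX (nat_lit 19) (nat_lit 100) (nat_lit 68) (nat_lit 88) (nat_lit 352) (.leaf p118_l5)))
(.spl (nat_lit 6) (nat_lit 128)
(.spl (nat_lit 1) (nat_lit 260)
(.leaf p118_l6)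
(.trZ (nat_lit 0) (nat_lit 100) (nat_lit 63) (nat_lit 99) (nat_lit 132) (.trX (nat_lit 19) (nat_lit 100) (nat_lit 69) (nat_lit 96) (nat_lit 352) (.leaf p118_l7))))
(.leaf p118_l8))))
(.leaf p118_l9))
(.trZ (nat_lit 0) (nat_lit 100) (nat_lit 44) (nat_lit 99) (nat_lit 148) (.trZ (nat_lit 3) (nat_lit 100) (nat_lit 54) (nat_lit 57) (nat_lit 20) (.trX (nat_lit 16) (nat_lit 44) (nat_lit 100) (nat_lit 92) (nat_lit 208) (.spl (nat_lit 4) (nat_lit 80)
(.spl (nat_lit 1) (nat_lit 260)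
(.spl (nat_lit 3) (nat_lit 100)
(.trX (nat_lit 19) (nat_lit 100) (nat_lit 68) (nat_lit 88) (nat_lit 352) (.leaf p118_l10))
(.trZ (nat_lit 3) (nat_lit 100) (nat_lit 50) (nat_lit 65) (nat_lit 32) (.leaf p118_l11)))
(.trZ (nat_lit 0) (nat_lit 96) (nat_lit 44) (nat_lit 100) (nat_lit 168) (.trX (nat_lit 19) (nat_lit 100) (nat_lit 69) (nat_lit 96) (nat_lit 352) (.leaf p118_l12))))
(.spl (nat_lit 1) (nat_lit 260)
(.spl (nat_lit 4) (nat_lit 160)
(.spl (nat_lit 0) (nat_lit 390)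
(.leaf p118_l13)
(.trZ (nat_lit 0) (nat_lit 99) (nat_lit 31) (nat_lit 100) (nat_lit 176) (.leaf p118_l14)))
(.spl (nat_lit 0) (nat_lit 390)
(.leaf p118_l15)
(.trZ (nat_lit 0) (nat_lit 99) (nat_lit 31) (nat_lit 100) (nat_lit 176) (.trX (nat_lit 16) (nat_lit 31) (nat_lit 100) (nat_lit 92) (nat_lit 184) (.leaf p118_l16)))))
(.trZ (nat_lit 0) (nat_lit 96) (nat_lit 44) (nat_lit 100) (nat_lit 168) (.trX (nat_lit 19) (nat_lit 100) (nat_lit 69) (nat_lit 96) (nat_lit 352) (.spl (nat_lit 2) (nat_lit 200)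
(.leaf p118_l17)
(.leaf p118_l18))))))))))
(.spl (nat_lit 5) (nat_lit 160)
(.leaf p118_l19)
(.leaf p118_l20)))) (by decide +kernel)
noncomputable def p118_l21 : Lf2 := ⟨nat_lit 1, nat_lit 25, [nat_lit 44, nat_lit 5, nat_lit 5, nat_lit 20], false, nat_lit 8, nat_lit 80, nat_lit 0, nat_lit 352, zbN0,
 nat_lit 0, nat_lit 0, nat_lit 0, nat_lit 0, nat_lit 0, nat_lit 0, nat_lit 0, nat_lit 0, nat_lit 0, nat_lit 0, nat_lit 0, nat_lit 0, nat_lit 0, nat_lit 0, nat_lit 0, nat_lit 0, nat_lit 0, nat_lit 0, [],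
 C1.Rw.none, C1.Rw.none,
 zbF0, []⟩
noncomputable def p118_l22 : Lf2 := ⟨nat_lit 1, nat_lit 30, [nat_lit 15, nat_lit 5, nat_lit 5, nat_lit 20], false, nat_lit 16, nat_lit 80, nat_lit 0, nat_lit 364, zbN0,
 nat_lit 0, nat_lit 0, nat_lit 0, nat_lit 0, nat_lit 0, nat_lit 0, nat_lit 0, nat_lit 0, nat_lit 0, nat_lit 0, nat_lit 0, nat_lit 0, nat_lit 0, nat_lit 0, nat_lit 0, nat_lit 0, nat_lit 0, nat_lit 0, [],
 C1.Rw.none, C1.Rw.none,
 zbF0, []⟩
noncomputable def p118_l23 : Lf2 := ⟨nat_lit 0, nat_lit 25, [nat_lit 44, nat_lit 5, nat_lit 5, nat_lit 20], false, nat_lit 8, nat_lit 80, nat_lit 0, nat_lit 336, ⟨nat_lit 181, nat_lit 0, nat_lit 819, nat_lit 6, nat_lit 223, nat_lit 819, nat_lit 43, nat_lit 819, nat_lit 17067, nat_lit 247, nat_lit 27594, nat_lit 200, nat_lit 49946903, nat_lit 0, nat_lit 0, nat_lit 3272138, false, false⟩,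
 nat_lit 2851, nat_lit 0, nat_lit 1095, nat_lit 1892, nat_lit 2483, nat_lit 2296, nat_lit 0, nat_lit 0, nat_lit 0, nat_lit 0, nat_lit 0, nat_lit 0, nat_lit 0, nat_lit 0, nat_lit 29, nat_lit 204750, nat_lit 0, nat_lit 0, [(nat_lit 26, [(nat_lit 4, nat_lit 819)])],
 ⟨p118_k9, nat_lit 0, nat_lit 0, nat_lit 170, nat_lit 0, nat_lit 22962, [nat_lit 882010000, nat_lit 664237201, nat_lit 31412400], [], [nat_lit 20367868021, nat_lit 21674954968, nat_lit 22903738314, nat_lit 23988653779, nat_lit 19823622681, nat_lit 21029737033, nat_lit 22319051668, nat_lit 23351511908], nat_lit 1271250, nat_lit 1271250, nat_lit 872850, nat_lit 1769250, nat_lit 43600, nat_lit 490000, [nat_lit 230000, nat_lit 780000, nat_lit 1762500], [nat_lit 54, nat_lit 40, nat_lit 40, nat_lit 80, nat_lit 43, nat_lit 317, nat_lit 100, nat_lit 10]⟩, ⟨p118_k10, nat_lit 0, nat_lit 0, nat_lit 363, nat_lit 0, nat_lit 38786, [nat_lit 848528000, nat_lit 1442208000,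 nat_lit 2544498000], [], [nat_lit 9867756764, nat_lit 9967061334, nat_lit 9561265390, nat_lit 9624105152, nat_lit 7878455934, nat_lit 7890559502, nat_lit 8555118640, nat_lit 7533930393], nat_lit 1271250, nat_lit 1271250, nat_lit 872850, nat_lit 1769250, nat_lit 0, nat_lit 2373000, [nat_lit 1100000, nat_lit 1785000, nat_lit 1271250], [nat_lit 37, nat_lit 40, nat_lit 40, nat_lit 80, nat_lit 28, nat_lit 456, nat_lit 225, nat_lit 11]⟩,
 ⟨nat_lit 2236, nat_lit 3163, ⟨.ofNat (nat_lit 462477), .ofNat (nat_lit 627331), .ofNat (nat_lit 484568), .ofNat (nat_lit 649422), .ofNat (nat_lit 471029), .ofNat (nat_lit 625251), .ofNat (nat_lit 493740), .ofNat (nat_lit 647962)⟩, ⟨.ofNat (nat_lit 20000), .ofNat (nat_lit 184209), .ofNat (nat_lit 20000), .ofNat (nat_lit 200000), .ofNat (nat_lit 20000), .ofNat (nat_lit 192306), .ofNat (nat_lit 20000), .ofNat (nat_lit 200000)⟩⟩, [⟨nat_lit 3, nat_lit 100, nat_lit 50, nat_lit 65, nat_lit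 218290151⟩, ⟨nat_lit 10, nat_lit 74, nat_lit 100, nat_lit 63, nat_lit 5057557⟩]⟩
noncomputable def p118_l24 : Lf2 := ⟨nat_lit 1, nat_lit 30, [nat_lit 15, nat_lit 5, nat_lit 5, nat_lit 20], false, nat_lit 16, nat_lit 80, nat_lit 0, nat_lit 352, zbN0,
 nat_lit 0, nat_lit 0, nat_lit 0, nat_lit 0, nat_lit 0, nat_lit 0, nat_lit 0, nat_lit 0, nat_lit 0, nat_lit 0, nat_lit 0, nat_lit 0, nat_lit 0, nat_lit 0, nat_lit 0, nat_lit 0, nat_lit 0, nat_lit 0, [],
 C1.Rw.none, C1.Rw.none,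
 zbF0, []⟩
noncomputable def p118_l25 : Lf2 := ⟨nat_lit 1, nat_lit 30, [nat_lit 15, nat_lit 5, nat_lit 5, nat_lit 20], false, nat_lit 20, nat_lit 80, nat_lit 0, nat_lit 352, zbN0,
 nat_lit 0, nat_lit 0, nat_lit 0, nat_lit 0, nat_lit 0, nat_lit 0, nat_lit 0, nat_lit 0, nat_lit 0, nat_lit 0, nat_lit 0, nat_lit 0, nat_lit 0, nat_lit 0, nat_lit 0, nat_lit 0, nat_lit 0, nat_lit 0, [],
 C1.Rw.none, C1.Rw.none,
 zbF0, []⟩
noncomputable def p118_l26 : Lf2 := ⟨nat_lit 0, nat_lit 30, [nat_lit 15, nat_lit 5, nat_lit 5, nat_lit 20], false, nat_lit 24, nat_lit 80, nat_lit 0, nat_lit 352, ⟨nat_lit 788, nat_lit 0, nat_lit 212, nat_lit 6, nat_lit 230, nat_lit 212, nat_lit 52, nat_lit 212, nat_lit 25350, nat_lit 254, nat_lit 25778, nat_lit 200, nat_lit 48806008, nat_lit 0, nat_lit 0, nat_lit 3465344, false, false⟩,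
 nat_lit 24869, nat_lit 0, nat_lit 0, nat_lit 100000, nat_lit 3163, nat_lit 14475, nat_lit 460, nat_lit 0, nat_lit 0, nat_lit 0, nat_lit 0, nat_lit 0, nat_lit 0, nat_lit 0, nat_lit 0, nat_lit 53000, nat_lit 0, nat_lit 0, [(nat_lit 26, [(nat_lit 4, nat_lit 212)])],
 ⟨p118_k11, nat_lit 0, nat_lit 0, nat_lit 151, nat_lit 0, nat_lit 10733, [nat_lit 893480001, nat_lit 2514305601, nat_lit 5733435200], [], [nat_lit 21878230703, nat_lit 22020113854, nat_lit 23887837296, nat_lit 24011530307, nat_lit 21031455005, nat_lit 21151534291, nat_lit 22912269517, nat_lit 23017791056], nat_lit 1271250, nat_lit 1271250, nat_lit 1066650, nat_lit 1782750, nat_lit 134400, nat_lit 490000, [nat_lit 230000, nat_lit 780000, nat_lit 1762500], [nat_lit 54, nat_lit 40, nat_lit 40, nat_lit 80, nat_lit 43, nat_lit 317, nat_lit 100, nat_lit 10]⟩, ⟨p118_k12, nat_lit 0, nat_lit 0, nat_lit 259, nat_lit 0, nat_lit 21487, [nat_lit 3694144000, nat_lit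 6278784000, nat_lit 11077704000], [], [nat_lit 39094964917, nat_lit 38434704536, nat_lit 38114809106, nat_lit 39289500244, nat_lit 37084691937, nat_lit 30503440380, nat_lit 28301761664, nat_lit 28573005340], nat_lit 1271250, nat_lit 1271250, nat_lit 1271250, nat_lit 1271250, nat_lit 0, nat_lit 2486000, [nat_lit 1100000, nat_lit 1785000, nat_lit 1271250], [nat_lit 37, nat_lit 40, nat_lit 40, nat_lit 80, nat_lit 28, nat_lit 456, nat_lit 225, nat_lit 10]⟩,
 ⟨nat_lit 2500, nat_lit 2599, ⟨.ofNat (nat_lit 503217), .ofNat (nat_lit 626003), .ofNat (nat_lit 525729), .ofNat (nat_lit 648514), .ofNat (nat_lit 503867), .ofNat (nat_lit 625804), .ofNat (nat_lit 526447), .ofNat (nat_lit 648384)⟩, ⟨.ofNat (nat_lit 60000), .ofNat (nat_lit 200000), .ofNat (nat_lit 60000), .ofNat (nat_lit 200000), .ofNat (nat_lit 60000), .ofNat (nat_lit 200000), .ofNat (nat_lit 60000), .ofNat (nat_lit 200000)⟩⟩, [⟨nat_lit 0, nat_lit 92, nat_lit 49,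 nat_lit 100, nat_lit 813959183⟩]⟩
noncomputable def p118_l27 : Lf2 := ⟨nat_lit 0, nat_lit 30, [nat_lit 15, nat_lit 5, nat_lit 5, nat_lit 20], false, nat_lit 28, nat_lit 80, nat_lit 0, nat_lit 352, ⟨nat_lit 232, nat_lit 0, nat_lit 768, nat_lit 6, nat_lit 232, nat_lit 768, nat_lit 54, nat_lit 768, nat_lit 26667, nat_lit 255, nat_lit 25498, nat_lit 200, nat_lit 48581673, nat_lit 0, nat_lit 0, nat_lit 3504537, false, false⟩,
 nat_lit 7338, nat_lit 0, nat_lit 0, nat_lit 0, nat_lit 2556, nat_lit 4271, nat_lit 0, nat_lit 0, nat_lit 0, nat_lit 0, nat_lit 0, nat_lit 0, nat_lit 0, nat_lit 0, nat_lit 12, nat_lit 202800, nat_lit 0, nat_lit 0, [(nat_lit 26, [(nat_lit 4, nat_lit 696), (nat_lit 5, nat_lit 72)])],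
 ⟨p118_k13, nat_lit 0, nat_lit 0, nat_lit 149, nat_lit 0, nat_lit 26237, [nat_lit 813833600, nat_lit 893737601, nat_lit 37392000], [], [nat_lit 21959580877, nat_lit 22268077222, nat_lit 23916208974, nat_lit 24186854386, nat_lit 21511657715, nat_lit 21796255792, nat_lit 23429633136, nat_lit 23690655056], nat_lit 1271250, nat_lit 1271250, nat_lit 1100001, nat_lit 1785000, nat_lit 157850, nat_lit 490000, [nat_lit 230000, nat_lit 490000, nat_lit 1740000], [nat_lit 258, nat_lit 40, nat_lit 40, nat_lit 80, nat_lit 109, nat_lit 317, nat_lit 100, nat_lit 10]⟩, ⟨p118_k14, nat_lit 0, nat_lit 0, nat_lit 253, nat_lit 0, nat_lit 47505, [nat_lit 1087616000, nat_lit 1450000000, nat_lit 3261456000], [], [nat_lit 11065315426, nat_lit 11282647048, nat_lit 11227494322, nat_lit 11573816756, nat_lit 8690522253, nat_lit 8823201678, nat_lit 9362597139, nat_lit 8408159136], nat_lit 1271250, nat_lit 1271250, nat_lit 1100001, nat_lit 1785000,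 nat_lit 0, nat_lit 2486000, [nat_lit 1100000, nat_lit 1442500, nat_lit 1271250], [nat_lit 276, nat_lit 40, nat_lit 40, nat_lit 80, nat_lit 68, nat_lit 456, nat_lit 225, nat_lit 10]⟩,
 ⟨nat_lit 2236, nat_lit 2500, ⟨.ofNat (nat_lit 509649), .ofNat (nat_lit 625799), .ofNat (nat_lit 532223), .ofNat (nat_lit 648374), .ofNat (nat_lit 511279), .ofNat (nat_lit 625331), .ofNat (nat_lit 534047), .ofNat (nat_lit 648099)⟩, ⟨.ofNat (nat_lit 70000), .ofNat (nat_lit 200000), .ofNat (nat_lit 70000), .ofNat (nat_lit 200000), .ofNat (nat_lit 70000), .ofNat (nat_lit 200000), .ofNat (nat_lit 70000), .ofNat (nat_lit 200000)⟩⟩, [⟨nat_lit 0, nat_lit 92, nat_lit 44, nat_lit 100, nat_lit 35737395⟩, ⟨nat_lit 3, nat_lit 100, nat_lit 52, nat_lit 66, nat_lit 215843450⟩]⟩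
noncomputable def p118_l28 : Lf2 := ⟨nat_lit 1, nat_lit 30, [nat_lit 15, nat_lit 5, nat_lit 5, nat_lit 20], false, nat_lit 16, nat_lit 80, nat_lit 0, nat_lit 352, zbN0,
 nat_lit 0, nat_lit 0, nat_lit 0, nat_lit 0, nat_lit 0, nat_lit 0, nat_lit 0, nat_lit 0, nat_lit 0, nat_lit 0, nat_lit 0, nat_lit 0, nat_lit 0, nat_lit 0, nat_lit 0, nat_lit 0, nat_lit 0, nat_lit 0, [],
 C1.Rw.none, C1.Rw.none,
 zbF0, []⟩
noncomputable def p118_l29 : Lf2 := ⟨nat_lit 1, nat_lit 30, [nat_lit 15, nat_lit 5, nat_lit 5, nat_lit 20], false, nat_lit 8, nat_lit 80, nat_lit 0, nat_lit 364, zbN0,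
 nat_lit 0, nat_lit 0, nat_lit 0, nat_lit 0, nat_lit 0, nat_lit 0, nat_lit 0, nat_lit 0, nat_lit 0, nat_lit 0, nat_lit 0, nat_lit 0, nat_lit 0, nat_lit 0, nat_lit 0, nat_lit 0, nat_lit 0, nat_lit 0, [],
 C1.Rw.none, C1.Rw.none,
 zbF0, []⟩
noncomputable def p118_l30 : Lf2 := ⟨nat_lit 0, nat_lit 30, [nat_lit 15, nat_lit 5, nat_lit 5, nat_lit 20], false, nat_lit 20, nat_lit 80, nat_lit 0, nat_lit 364, ⟨nat_lit 0, nat_lit 194, nat_lit 806, nat_lit 6, nat_lit 209, nat_lit 1000, nat_lit 50, nat_lit 806, nat_lit 22817, nat_lit 252, nat_lit 4801, nat_lit 223, nat_lit 51171570, nat_lit 14260694, nat_lit 1567736, nat_lit 3232751, false, false⟩,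
 nat_lit 0, nat_lit 2651, nat_lit 0, nat_lit 1009, nat_lit 2476, nat_lit 0, nat_lit 0, nat_lit 0, nat_lit 0, nat_lit 0, nat_lit 0, nat_lit 0, nat_lit 0, nat_lit 0, nat_lit 95, nat_lit 250000, nat_lit 0, nat_lit 0, [(nat_lit 29, [(nat_lit 0, nat_lit 194), (nat_lit 4, nat_lit 806)])],
 ⟨p118_k6, nat_lit 0, nat_lit 0, nat_lit 255, nat_lit 0, nat_lit 165700, [nat_lit 1145480000, nat_lit 370843201, nat_lit 207376800], [], [nat_lit 20779174569, nat_lit 22388701170, nat_lit 21847169730, nat_lit 23422467116, nat_lit 20451577235, nat_lit 21641026060, nat_lit 21509041352, nat_lit 22821107616], nat_lit 1271250, nat_lit 1271250, nat_lit 1000851, nat_lit 1440250, nat_lit 111251, nat_lit 490000, [nat_lit 230000, nat_lit 1100000, nat_lit 1785000], [nat_lit 57, nat_lit 40, nat_lit 40, nat_lit 80, nat_lit 7, nat_lit 289, nat_lit 75, nat_lit 9]⟩, ⟨p118_k7, nat_lit 0, nat_lit 0, nat_lit 605, nat_lit 0, nat_lit 352438, [nat_lit 0,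 nat_lit 0, nat_lit 0], [], [nat_lit 0, nat_lit 0, nat_lit 0, nat_lit 0, nat_lit 0, nat_lit 0, nat_lit 0, nat_lit 0], nat_lit 1271250, nat_lit 1271250, nat_lit 1000851, nat_lit 1440250, nat_lit 0, nat_lit 2570750, [nat_lit 1100000, nat_lit 2127500, nat_lit 1271250], [nat_lit 83, nat_lit 40, nat_lit 40, nat_lit 80, nat_lit 73, nat_lit 456, nat_lit 225, nat_lit 10]⟩,
 ⟨nat_lit 0, nat_lit 2237, ⟨.ofNat (nat_lit 467180), .ofNat (nat_lit 543695), .ofNat (nat_lit 489028), .ofNat (nat_lit 565543), .ofNat (nat_lit 480752), .ofNat (nat_lit 548146), .ofNat (nat_lit 504825), .ofNat (nat_lit 572220)⟩, ⟨.ofNat (nat_lit 50000), .ofNat (nat_lit 192306), .ofNat (nat_lit 50000), .ofNat (nat_lit 200000), .ofNat (nat_lit 50000), .ofNat (nat_lit 199999), .ofNat (nat_lit 50000), .ofNat (nat_lit 200000)⟩⟩, [⟨nat_lit 3, nat_lit 100, nat_lit 36, nat_lit 77, nat_lit 392790455⟩, ⟨nat_lit 3, nat_lit 100, nat_lit 54, nat_lit 57, nat_lit 17811355⟩]⟩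
noncomputable def p118_l31 : Lf2 := ⟨nat_lit 0, nat_lit 30, [nat_lit 15, nat_lit 5, nat_lit 5, nat_lit 20], false, nat_lit 20, nat_lit 80, nat_lit 0, nat_lit 360, ⟨nat_lit 126, nat_lit 0, nat_lit 874, nat_lit 6, nat_lit 234, nat_lit 874, nat_lit 49, nat_lit 874, nat_lit 22817, nat_lit 252, nat_lit 4336, nat_lit 204, nat_lit 48521587, nat_lit 0, nat_lit 0, nat_lit 3459873, true, false⟩,
 nat_lit 2550, nat_lit 0, nat_lit 0, nat_lit 1408, nat_lit 2382, nat_lit 1350, nat_lit 0, nat_lit 0, nat_lit 0, nat_lit 38, nat_lit 0, nat_lit 0, nat_lit 0, nat_lit 0, nat_lit 81, nat_lit 218500, nat_lit 0, nat_lit 0, [(nat_lit 29, [(nat_lit 4, nat_lit 874)])],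
 ⟨p118_k6, nat_lit 0, nat_lit 0, nat_lit 191, nat_lit 0, nat_lit 109893, [nat_lit 1107826400, nat_lit 313837601, nat_lit 275625600], [], [nat_lit 22123010746, nat_lit 22674822203, nat_lit 23183018489, nat_lit 23703961813, nat_lit 21757082884, nat_lit 22285409174, nat_lit 22791541484, nat_lit 23288285614], nat_lit 1271250, nat_lit 1271250, nat_lit 1271250, nat_lit 1271250, nat_lit 111251, nat_lit 490000, [nat_lit 230000, nat_lit 1100000, nat_lit 1785000], [nat_lit 57, nat_lit 40, nat_lit 40, nat_lit 80, nat_lit 7, nat_lit 317, nat_lit 100, nat_lit 10]⟩, ⟨p118_k7, nat_lit 0, nat_lit 0, nat_lit 481, nat_lit 0, nat_lit 233738, [nat_lit 590688000, nat_lit 1240092000, nat_lit 2066400000], [], [nat_lit 5817277512, nat_lit 5743420938, nat_lit 5723467578, nat_lit 5779928034, nat_lit 6089852412, nat_lit 5493934062, nat_lit 4948320150, nat_lit 4977586692], nat_lit 1271250, nat_lit 1271250, nat_lit 1271250, nat_lit 1271250,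 nat_lit 0, nat_lit 2542500, [nat_lit 1100000, nat_lit 2127500, nat_lit 1271250], [nat_lit 83, nat_lit 40, nat_lit 40, nat_lit 80, nat_lit 73, nat_lit 456, nat_lit 225, nat_lit 10]⟩,
 ⟨nat_lit 1581, nat_lit 2237, ⟨.ofNat (nat_lit 545457), .ofNat (nat_lit 602558), .ofNat (nat_lit 568186), .ofNat (nat_lit 625287), .ofNat (nat_lit 546538), .ofNat (nat_lit 601260), .ofNat (nat_lit 569808), .ofNat (nat_lit 624529)⟩, ⟨.ofNat (nat_lit 50000), .ofNat (nat_lit 192306), .ofNat (nat_lit 50000), .ofNat (nat_lit 200000), .ofNat (nat_lit 50000), .ofNat (nat_lit 196201), .ofNat (nat_lit 50000), .ofNat (nat_lit 200000)⟩⟩, [⟨nat_lit 3, nat_lit 100, nat_lit 44, nat_lit 71, nat_lit 241070408⟩, ⟨nat_lit 22, nat_lit 100, nat_lit 82, nat_lit 66, nat_lit 20351609⟩]⟩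
noncomputable def p118_l32 : Lf2 := ⟨nat_lit 0, nat_lit 30, [nat_lit 15, nat_lit 5, nat_lit 5, nat_lit 20], false, nat_lit 36, nat_lit 80, nat_lit 0, nat_lit 360, ⟨nat_lit 123, nat_lit 199, nat_lit 678, nat_lit 6, nat_lit 234, nat_lit 877, nat_lit 58, nat_lit 678, nat_lit 30817, nat_lit 258, nat_lit 2404, nat_lit 204, nat_lit 48160071, nat_lit 16898843, nat_lit 1941086, nat_lit 3577875, true, false⟩,
 nat_lit 2522, nat_lit 0, nat_lit 0, nat_lit 940, nat_lit 2438, nat_lit 1334, nat_lit 0, nat_lit 0, nat_lit 0, nat_lit 36, nat_lit 0, nat_lit 0, nat_lit 0, nat_lit 0, nat_lit 33, nat_lit 219250, nat_lit 0, nat_lit 0, [(nat_lit 29, [(nat_lit 0, nat_lit 199), (nat_lit 4, nat_lit 678)])],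
 ⟨p118_k8, nat_lit 0, nat_lit 0, nat_lit 180, nat_lit 0, nat_lit 158754, [nat_lit 919277201, nat_lit 172501201, nat_lit 6527600], [], [nat_lit 22449476718, nat_lit 23041532740, nat_lit 23541146061, nat_lit 24252148043, nat_lit 22160689447, nat_lit 22728825227, nat_lit 23235878427, nat_lit 23861355221], nat_lit 1271250, nat_lit 1271250, nat_lit 1271250, nat_lit 1271250, nat_lit 205650, nat_lit 490000, [nat_lit 230000, nat_lit 1100000, nat_lit 1442500], [nat_lit 55, nat_lit 40, nat_lit 40, nat_lit 80, nat_lit 3, nat_lit 226, nat_lit 20, nat_lit 7]⟩, ⟨p118_k7, nat_lit 0, nat_lit 0, nat_lit 525, nat_lit 0, nat_lit 352438, [nat_lit 576624000, nat_lit 1210566000, nat_lit 2017200000], [], [nat_lit 5703370036, nat_lit 5619451170, nat_lit 5599122452, nat_lit 5656235522, nat_lit 5948580632, nat_lit 5359725018, nat_lit 4845043798, nat_lit 4873325303], nat_lit 1271250, nat_lit 1271250, nat_lit 1271250, nat_lit 1271250, nat_lit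 0, nat_lit 2542500, [nat_lit 1100000, nat_lit 2127500, nat_lit 1271250], [nat_lit 83, nat_lit 40, nat_lit 40, nat_lit 80, nat_lit 73, nat_lit 456, nat_lit 225, nat_lit 10]⟩,
 ⟨nat_lit 0, nat_lit 1582, ⟨.ofNat (nat_lit 545316), .ofNat (nat_lit 601257), .ofNat (nat_lit 567974), .ofNat (nat_lit 623921), .ofNat (nat_lit 548686), .ofNat (nat_lit 599992), .ofNat (nat_lit 573029), .ofNat (nat_lit 624340)⟩, ⟨.ofNat (nat_lit 90000), .ofNat (nat_lit 196201), .ofNat (nat_lit 90000), .ofNat (nat_lit 200000), .ofNat (nat_lit 90000), .ofNat (nat_lit 199999), .ofNat (nat_lit 90000), .ofNat (nat_lit 200000)⟩⟩, [⟨nat_lit 3, nat_lit 100, nat_lit 26, nat_lit 85, nat_lit 431266552⟩, ⟨nat_lit 22, nat_lit 100, nat_lit 78, nat_lit 71, nat_lit 18577996⟩]⟩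
noncomputable def p118_l33 : Lf2 := ⟨nat_lit 0, nat_lit 25, [nat_lit 44, nat_lit 5, nat_lit 5, nat_lit 20], false, nat_lit 20, nat_lit 80, nat_lit 0, nat_lit 336, ⟨nat_lit 332, nat_lit 0, nat_lit 668, nat_lit 6, nat_lit 234, nat_lit 668, nat_lit 50, nat_lit 668, nat_lit 22817, nat_lit 252, nat_lit 25022, nat_lit 200, nat_lit 48495356, nat_lit 0, nat_lit 0, nat_lit 3463968, false, false⟩,
 nat_lit 6782, nat_lit 0, nat_lit 0, nat_lit 0, nat_lit 2693, nat_lit 3947, nat_lit 0, nat_lit 0, nat_lit 0, nat_lit 112, nat_lit 0, nat_lit 0, nat_lit 0, nat_lit 0, nat_lit 0, nat_lit 167000, nat_lit 0, nat_lit 0, [(nat_lit 29, [(nat_lit 4, nat_lit 668)])],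
 ⟨p118_k15, nat_lit 0, nat_lit 0, nat_lit 197, nat_lit 0, nat_lit 124130, [nat_lit 820164800, nat_lit 412984534, nat_lit 323504000], [], [nat_lit 22052369886, nat_lit 23362547054, nat_lit 23934721929, nat_lit 25119597834, nat_lit 21558291856, nat_lit 22800328342, nat_lit 23401509966, nat_lit 24511402636], nat_lit 1271250, nat_lit 1271250, nat_lit 1167600, nat_lit 1789500, nat_lit 111251, nat_lit 490000, [nat_lit 230000, nat_lit 780000, nat_lit 1435000], [nat_lit 20, nat_lit 40, nat_lit 40, nat_lit 80, nat_lit 16, nat_lit 317, nat_lit 100, nat_lit 11]⟩, ⟨p118_k10, nat_lit 0, nat_lit 0, nat_lit 418, nat_lit 0, nat_lit 230172, [nat_lit 1556416000, nat_lit 2645376000, nat_lit 4667256000], [], [nat_lit 15265033880, nat_lit 15427630558, nat_lit 15132752870, nat_lit 15249945844, nat_lit 13311569425, nat_lit 11903615576, nat_lit 11438759882, nat_lit 11431733848], nat_lit 1271250, nat_lit 1271250, nat_lit 1271250, nat_lit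 1271250, nat_lit 0, nat_lit 2373000, [nat_lit 1100000, nat_lit 1785000, nat_lit 1271250], [nat_lit 37, nat_lit 40, nat_lit 40, nat_lit 80, nat_lit 28, nat_lit 456, nat_lit 225, nat_lit 10]⟩,
 ⟨nat_lit 0, nat_lit 2237, ⟨.ofNat (nat_lit 518456), .ofNat (nat_lit 624400), .ofNat (nat_lit 540305), .ofNat (nat_lit 646249), .ofNat (nat_lit 530746), .ofNat (nat_lit 624062), .ofNat (nat_lit 554820), .ofNat (nat_lit 648136)⟩, ⟨.ofNat (nat_lit 50000), .ofNat (nat_lit 192306), .ofNat (nat_lit 50000), .ofNat (nat_lit 200000), .ofNat (nat_lit 50000), .ofNat (nat_lit 199999), .ofNat (nat_lit 50000), .ofNat (nat_lit 200000)⟩⟩, [⟨nat_lit 0, nat_lit 94, nat_lit 31, nat_lit 100, nat_lit 538498737⟩, ⟨nat_lit 3, nat_lit 100, nat_lit 37, nat_lit 74, nat_lit 240517395⟩, ⟨nat_lit 19, nat_lit 100, nat_lit 86, nat_lit 89, nat_lit 6792990⟩]⟩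
noncomputable def p118_l34 : Lf2 := ⟨nat_lit 0, nat_lit 30, [nat_lit 15, nat_lit 5, nat_lit 5, nat_lit 20], false, nat_lit 32, nat_lit 80, nat_lit 0, nat_lit 160, ⟨nat_lit 1000, nat_lit 0, nat_lit 0, nat_lit 0, nat_lit 0, nat_lit 0, nat_lit 0, nat_lit 0, nat_lit 0, nat_lit 0, nat_lit 0, nat_lit 0, nat_lit 0, nat_lit 0, nat_lit 0, nat_lit 0, false, false⟩,
 nat_lit 13112, nat_lit 0, nat_lit 0, nat_lit 0, nat_lit 3185, nat_lit 7632, nat_lit 565, nat_lit 0, nat_lit 0, nat_lit 812, nat_lit 0, nat_lit 0, nat_lit 0, nat_lit 0, nat_lit 0, nat_lit 0, nat_lit 0, nat_lit 0, [],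
 ⟨p118_k16, nat_lit 0, nat_lit 0, nat_lit 203, nat_lit 0, nat_lit 125544, [nat_lit 938000000, nat_lit 3282000000, nat_lit 7968000000], [], [nat_lit 22619876134, nat_lit 24010948014, nat_lit 24355631937, nat_lit 25879604737, nat_lit 21761829793, nat_lit 23014644367, nat_lit 23474330845, nat_lit 24591826395], nat_lit 1271250, nat_lit 1271250, nat_lit 1167600, nat_lit 1789500, nat_lit 181601, nat_lit 490000, [nat_lit 230000, nat_lit 780000, nat_lit 1762500], [nat_lit 54, nat_lit 40, nat_lit 40, nat_lit 80, nat_lit 43, nat_lit 317, nat_lit 100, nat_lit 10]⟩, ⟨p118_k12, nat_lit 0, nat_lit 0, nat_lit 419, nat_lit 0, nat_lit 233304, [nat_lit 4688000000, nat_lit 7968000000, nat_lit 14058000000], [], [nat_lit 36480211994, nat_lit 36959336666, nat_lit 36751377168, nat_lit 37135415360, nat_lit 30078318404, nat_lit 30474895783, nat_lit 32055586528, nat_lit 30560600544], nat_lit 1271250, nat_lit 1271250, nat_lit 1167600, nat_lit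 1789500, nat_lit 0, nat_lit 1100001, [nat_lit 1100000, nat_lit 1785000, nat_lit 1271250], [nat_lit 37, nat_lit 40, nat_lit 40, nat_lit 80, nat_lit 28, nat_lit 401, nat_lit 175, nat_lit 9]⟩,
 zbF0, [⟨nat_lit 0, nat_lit 94, nat_lit 31, nat_lit 100, nat_lit 1149302688⟩]⟩
noncomputable def p118_l35 : Lf2 := ⟨nat_lit 0, nat_lit 30, [nat_lit 15, nat_lit 5, nat_lit 5, nat_lit 20], false, nat_lit 32, nat_lit 80, nat_lit 160, nat_lit 352, ⟨nat_lit 368, nat_lit 0, nat_lit 632, nat_lit 6, nat_lit 234, nat_lit 632, nat_lit 56, nat_lit 632, nat_lit 29400, nat_lit 257, nat_lit 25022, nat_lit 200, nat_lit 48225517, nat_lit 0, nat_lit 0, nat_lit 3553599, false, false⟩,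
 nat_lit 5388, nat_lit 0, nat_lit 0, nat_lit 0, nat_lit 3007, nat_lit 3136, nat_lit 86, nat_lit 0, nat_lit 0, nat_lit 0, nat_lit 0, nat_lit 0, nat_lit 0, nat_lit 0, nat_lit 0, nat_lit 158000, nat_lit 0, nat_lit 0, [(nat_lit 29, [(nat_lit 4, nat_lit 632)])],
 ⟨p118_k16, nat_lit 0, nat_lit 0, nat_lit 203, nat_lit 0, nat_lit 125544, [nat_lit 826515201, nat_lit 540636800, nat_lit 999820800], [], [nat_lit 22574749300, nat_lit 23928482091, nat_lit 24314277507, nat_lit 25517373277, nat_lit 21716578073, nat_lit 23025811361, nat_lit 23445776916, nat_lit 24611272834], nat_lit 1271250, nat_lit 1271250, nat_lit 1167600, nat_lit 1789500, nat_lit 181601, nat_lit 490000, [nat_lit 230000, nat_lit 780000, nat_lit 1762500], [nat_lit 54, nat_lit 40, nat_lit 40, nat_lit 80, nat_lit 43, nat_lit 317, nat_lit 100, nat_lit 10]⟩, ⟨p118_k12, nat_lit 0, nat_lit 0, nat_lit 238, nat_lit 0, nat_lit 233304, [nat_lit 1725184000, nat_lit 2932224000,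 nat_lit 5173344000], [], [nat_lit 12198055553, nat_lit 12569199757, nat_lit 12750563936, nat_lit 13057886272, nat_lit 14758661936, nat_lit 14944112443, nat_lit 14828973505, nat_lit 14975104564], nat_lit 1271250, nat_lit 1271250, nat_lit 1271250, nat_lit 1271250, nat_lit 1271250, nat_lit 1271250, [nat_lit 1100000, nat_lit 1785000, nat_lit 1271250], [nat_lit 37, nat_lit 40, nat_lit 40, nat_lit 80, nat_lit 28, nat_lit 456, nat_lit 225, nat_lit 10]⟩,
 ⟨nat_lit 0, nat_lit 2237, ⟨.ofNat (nat_lit 518456), .ofNat (nat_lit 624400), .ofNat (nat_lit 540305), .ofNat (nat_lit 646249), .ofNat (nat_lit 530746), .ofNat (nat_lit 624062), .ofNat (nat_lit 554820), .ofNat (nat_lit 648136)⟩, ⟨.ofNat (nat_lit 80000), .ofNat (nat_lit 200000), .ofNat (nat_lit 80000), .ofNat (nat_lit 200000), .ofNat (nat_lit 80000), .ofNat (nat_lit 200000), .ofNat (nat_lit 80000), .ofNat (nat_lit 200000)⟩⟩, [⟨nat_lit 0, nat_lit 94, nat_lit 31, nat_lit 100,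 nat_lit 176884224⟩, ⟨nat_lit 3, nat_lit 100, nat_lit 35, nat_lit 79, nat_lit 348833675⟩, ⟨nat_lit 19, nat_lit 100, nat_lit 78, nat_lit 95, nat_lit 142523692⟩]⟩
noncomputable def p118_l36 : Lf2 := ⟨nat_lit 1, nat_lit 30, [nat_lit 15, nat_lit 5, nat_lit 5, nat_lit 20], false, nat_lit 32, nat_lit 80, nat_lit 0, nat_lit 352, zbN0,
 nat_lit 0, nat_lit 0, nat_lit 0, nat_lit 0, nat_lit 0, nat_lit 0, nat_lit 0, nat_lit 0, nat_lit 0, nat_lit 0, nat_lit 0, nat_lit 0, nat_lit 0, nat_lit 0, nat_lit 0, nat_lit 0, nat_lit 0, nat_lit 0, [],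
 C1.Rw.none, C1.Rw.none,
 zbF0, []⟩
noncomputable def p118_l37 : Lf2 := ⟨nat_lit 0, nat_lit 25, [nat_lit 44, nat_lit 5, nat_lit 5, nat_lit 20], true, nat_lit 80, nat_lit 160, nat_lit 0, nat_lit 352, ⟨nat_lit 0, nat_lit 241, nat_lit 759, nat_lit 6, nat_lit 213, nat_lit 1000, nat_lit 102, nat_lit 759, nat_lit 98817, nat_lit 292, nat_lit 27594, nat_lit 200, nat_lit 47961483, nat_lit 14426825, nat_lit 4611692, nat_lit 4004014, false, false⟩,
 nat_lit 0, nat_lit 3588, nat_lit 0, nat_lit 0, nat_lit 3124, nat_lit 0, nat_lit 0, nat_lit 0, nat_lit 0, nat_lit 0, nat_lit 0, nat_lit 0, nat_lit 0, nat_lit 0, nat_lit 39, nat_lit 212050, nat_lit 0, nat_lit 0, [(nat_lit 26, [(nat_lit 0, nat_lit 241), (nat_lit 3, nat_lit 759)])],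
 ⟨p118_k9, nat_lit 0, nat_lit 0, nat_lit 135, nat_lit 0, nat_lit 35446, [nat_lit 1211841601, nat_lit 611925801, nat_lit 23584800], [], [nat_lit 19003540334, nat_lit 20407315797, nat_lit 21692417649, nat_lit 22852806473, nat_lit 19809856382, nat_lit 21082743734, nat_lit 22278057201, nat_lit 23335539289], nat_lit 1271250, nat_lit 1271250, nat_lit 719601, nat_lit 1758000, nat_lit 490000, nat_lit 1100001, [nat_lit 230000, nat_lit 780000, nat_lit 1762500], [nat_lit 54, nat_lit 40, nat_lit 40, nat_lit 80, nat_lit 43, nat_lit 317, nat_lit 100, nat_lit 10]⟩, C1.Rw.none,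
 ⟨nat_lit 2236, nat_lit 3163, ⟨.ofNat (nat_lit 409856), .ofNat (nat_lit 605240), .ofNat (nat_lit 454039), .ofNat (nat_lit 649422), .ofNat (nat_lit 419758), .ofNat (nat_lit 602541), .ofNat (nat_lit 465180), .ofNat (nat_lit 647962)⟩, ⟨.ofNat (nat_lit 184209), .ofNat (nat_lit 306116), .ofNat (nat_lit 200000), .ofNat (nat_lit 328271), .ofNat (nat_lit 192306), .ofNat (nat_lit 306337), .ofNat (nat_lit 200000), .ofNat (nat_lit 329112)⟩⟩, []⟩
noncomputable def p118_l38 : Lf2 := ⟨nat_lit 1, nat_lit 30, [nat_lit 15, nat_lit 5, nat_lit 5, nat_lit 20], false, nat_lit 80, nat_lit 160, nat_lit 0, nat_lit 364, zbN0,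
 nat_lit 0, nat_lit 0, nat_lit 0, nat_lit 0, nat_lit 0, nat_lit 0, nat_lit 0, nat_lit 0, nat_lit 0, nat_lit 0, nat_lit 0, nat_lit 0, nat_lit 0, nat_lit 0, nat_lit 0, nat_lit 0, nat_lit 0, nat_lit 0, [],
 C1.Rw.none, C1.Rw.none,
 zbF0, []⟩
noncomputable def p118_l39 : Lf2 := ⟨nat_lit 1, nat_lit 30, [nat_lit 15, nat_lit 5, nat_lit 5, nat_lit 20], false, nat_lit 80, nat_lit 160, nat_lit 0, nat_lit 364, zbN0,
 nat_lit 0, nat_lit 0, nat_lit 0, nat_lit 0, nat_lit 0, nat_lit 0, nat_lit 0, nat_lit 0, nat_lit 0, nat_lit 0, nat_lit 0, nat_lit 0, nat_lit 0, nat_lit 0, nat_lit 0, nat_lit 0, nat_lit 0, nat_lit 0, [],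
 C1.Rw.none, C1.Rw.none,
 zbF0, []⟩
noncomputable def p118_l40 : Lf2 := ⟨nat_lit 0, nat_lit 30, [nat_lit 15, nat_lit 5, nat_lit 5, nat_lit 20], false, nat_lit 80, nat_lit 160, nat_lit 0, nat_lit 352, ⟨nat_lit 267, nat_lit 0, nat_lit 733, nat_lit 6, nat_lit 228, nat_lit 733, nat_lit 108, nat_lit 733, nat_lit 109350, nat_lit 296, nat_lit 26118, nat_lit 200, nat_lit 46176876, nat_lit 0, nat_lit 0, nat_lit 4198458, false, false⟩,
 nat_lit 2857, nat_lit 1884, nat_lit 0, nat_lit 3655, nat_lit 4278, nat_lit 1662, nat_lit 0, nat_lit 0, nat_lit 0, nat_lit 0, nat_lit 0, nat_lit 0, nat_lit 0, nat_lit 0, nat_lit 0, nat_lit 146600, nat_lit 0, nat_lit 0, [(nat_lit 26, [(nat_lit 3, nat_lit 733)])],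
 ⟨p118_k17, nat_lit 0, nat_lit 0, nat_lit 125, nat_lit 0, nat_lit 26817, [nat_lit 1091930001, nat_lit 696709001, nat_lit 661456000], [], [nat_lit 21463887157, nat_lit 22270178181, nat_lit 23548634878, nat_lit 24238320964, nat_lit 21744179003, nat_lit 22471296443, nat_lit 23628030744, nat_lit 24252210968], nat_lit 1271250, nat_lit 1271250, nat_lit 1000851, nat_lit 1778250, nat_lit 490000, nat_lit 1100001, [nat_lit 230000, nat_lit 780000, nat_lit 1762500], [nat_lit 54, nat_lit 40, nat_lit 40, nat_lit 80, nat_lit 43, nat_lit 317, nat_lit 100, nat_lit 10]⟩, ⟨p118_k12, nat_lit 0, nat_lit 0, nat_lit 272, nat_lit 0, nat_lit 47505, [nat_lit 1251696000, nat_lit 2127456000, nat_lit 3753486000], [], [nat_lit 10393642673, nat_lit 10638108264, nat_lit 10871444490, nat_lit 11104542876, nat_lit 10908472882, nat_lit 11045292319, nat_lit 12520863161, nat_lit 11785367000], nat_lit 1271250, nat_lit 1271250, nat_lit 1000851, nat_lit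 1778250, nat_lit 0, nat_lit 2486000, [nat_lit 1100000, nat_lit 1785000, nat_lit 1271250], [nat_lit 37, nat_lit 40, nat_lit 40, nat_lit 80, nat_lit 28, nat_lit 456, nat_lit 225, nat_lit 10]⟩,
 ⟨nat_lit 2236, nat_lit 2739, ⟨.ofNat (nat_lit 490366), .ofNat (nat_lit 626287), .ofNat (nat_lit 512763), .ofNat (nat_lit 648684), .ofNat (nat_lit 494096), .ofNat (nat_lit 625312), .ofNat (nat_lit 516850), .ofNat (nat_lit 648065)⟩, ⟨.ofNat (nat_lit 200000), .ofNat (nat_lit 328850), .ofNat (nat_lit 200000), .ofNat (nat_lit 351268), .ofNat (nat_lit 200000), .ofNat (nat_lit 329112), .ofNat (nat_lit 200000), .ofNat (nat_lit 351886)⟩⟩, [⟨nat_lit 7, nat_lit 78, nat_lit 100, nat_lit 95, nat_lit 63366346⟩]⟩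
noncomputable def p118_l41 : Lf2 := ⟨nat_lit 1, nat_lit 30, [nat_lit 15, nat_lit 5, nat_lit 5, nat_lit 20], false, nat_lit 80, nat_lit 160, nat_lit 0, nat_lit 364, zbN0,
 nat_lit 0, nat_lit 0, nat_lit 0, nat_lit 0, nat_lit 0, nat_lit 0, nat_lit 0, nat_lit 0, nat_lit 0, nat_lit 0, nat_lit 0, nat_lit 0, nat_lit 0, nat_lit 0, nat_lit 0, nat_lit 0, nat_lit 0, nat_lit 0, [],
 C1.Rw.none, C1.Rw.none,
 zbF0, []⟩
noncomputable def p118_l42 : Lf2 := ⟨nat_lit 1, nat_lit 30, [nat_lit 15, nat_lit 5, nat_lit 5, nat_lit 20], false, nat_lit 80, nat_lit 160, nat_lit 0, nat_lit 364, zbN0,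
 nat_lit 0, nat_lit 0, nat_lit 0, nat_lit 0, nat_lit 0, nat_lit 0, nat_lit 0, nat_lit 0, nat_lit 0, nat_lit 0, nat_lit 0, nat_lit 0, nat_lit 0, nat_lit 0, nat_lit 0, nat_lit 0, nat_lit 0, nat_lit 0, [],
 C1.Rw.none, C1.Rw.none,
 zbF0, []⟩
noncomputable def p118_l43 : Lf2 := ⟨nat_lit 0, nat_lit 30, [nat_lit 15, nat_lit 5, nat_lit 5, nat_lit 20], false, nat_lit 80, nat_lit 160, nat_lit 0, nat_lit 364, ⟨nat_lit 49, nat_lit 204, nat_lit 747, nat_lit 6, nat_lit 220, nat_lit 951, nat_lit 105, nat_lit 746, nat_lit 104017, nat_lit 294, nat_lit 4336, nat_lit 204, nat_lit 47135566, nat_lit 15084594, nat_lit 4779840, nat_lit 4098301, false, false⟩,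
 nat_lit 1237, nat_lit 1582, nat_lit 0, nat_lit 762, nat_lit 2634, nat_lit 654, nat_lit 0, nat_lit 0, nat_lit 0, nat_lit 35, nat_lit 0, nat_lit 0, nat_lit 0, nat_lit 0, nat_lit 70, nat_lit 237750, nat_lit 0, nat_lit 0, [(nat_lit 29, [(nat_lit 0, nat_lit 204), (nat_lit 4, nat_lit 747)])],
 ⟨p118_k6, nat_lit 0, nat_lit 0, nat_lit 157, nat_lit 0, nat_lit 109893, [nat_lit 1054323600, nat_lit 322263601, nat_lit 198403200], [], [nat_lit 20325774623, nat_lit 20931727537, nat_lit 22397060984, nat_lit 22994088008, nat_lit 21167111814, nat_lit 21719154708, nat_lit 23082079844, nat_lit 23603822766], nat_lit 1271250, nat_lit 1271250, nat_lit 1000851, nat_lit 1778250, nat_lit 490000, nat_lit 1100001, [nat_lit 230000, nat_lit 1100000, nat_lit 1785000], [nat_lit 57, nat_lit 40, nat_lit 40, nat_lit 80, nat_lit 7, nat_lit 317, nat_lit 100, nat_lit 10]⟩, ⟨p118_k7, nat_lit 0, nat_lit 0, nat_lit 500, nat_lit 0, nat_lit 233738, [nat_lit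 229712000, nat_lit 482258000, nat_lit 803600000], [], [nat_lit 3375176673, nat_lit 3022360546, nat_lit 1972864029, nat_lit 2018325051, nat_lit 3180890397, nat_lit 2887740162, nat_lit 1842732861, nat_lit 1565777593], nat_lit 1271250, nat_lit 1271250, nat_lit 1271250, nat_lit 1271250, nat_lit 0, nat_lit 2570750, [nat_lit 1100000, nat_lit 2127500, nat_lit 1271250], [nat_lit 83, nat_lit 40, nat_lit 40, nat_lit 80, nat_lit 73, nat_lit 456, nat_lit 225, nat_lit 10]⟩,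
 ⟨nat_lit 1581, nat_lit 2237, ⟨.ofNat (nat_lit 471225), .ofNat (nat_lit 602558), .ofNat (nat_lit 493955), .ofNat (nat_lit 625287), .ofNat (nat_lit 475401), .ofNat (nat_lit 601260), .ofNat (nat_lit 498671), .ofNat (nat_lit 624529)⟩, ⟨.ofNat (nat_lit 192306), .ofNat (nat_lit 306337), .ofNat (nat_lit 200000), .ofNat (nat_lit 351886), .ofNat (nat_lit 196201), .ofNat (nat_lit 305473), .ofNat (nat_lit 200000), .ofNat (nat_lit 352103)⟩⟩, [⟨nat_lit 7, nat_lit 72, nat_lit 100, nat_lit 89, nat_lit 3916487⟩]⟩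
noncomputable def p118_l44 : Lf2 := ⟨nat_lit 0, nat_lit 30, [nat_lit 15, nat_lit 5, nat_lit 5, nat_lit 20], false, nat_lit 80, nat_lit 160, nat_lit 0, nat_lit 364, ⟨nat_lit 46, nat_lit 456, nat_lit 498, nat_lit 6, nat_lit 228, nat_lit 954, nat_lit 105, nat_lit 497, nat_lit 104017, nat_lit 294, nat_lit 2404, nat_lit 204, nat_lit 46372170, nat_lit 15883376, nat_lit 4744454, nat_lit 4160530, true, false⟩,
 nat_lit 1161, nat_lit 1583, nat_lit 0, nat_lit 45, nat_lit 2653, nat_lit 614, nat_lit 0, nat_lit 0, nat_lit 0, nat_lit 33, nat_lit 0, nat_lit 0, nat_lit 0, nat_lit 0, nat_lit 11, nat_lit 238500, nat_lit 0, nat_lit 0, [(nat_lit 29, [(nat_lit 0, nat_lit 456), (nat_lit 4, nat_lit 498)])],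
 ⟨p118_k8, nat_lit 0, nat_lit 0, nat_lit 152, nat_lit 0, nat_lit 158754, [nat_lit 822834401, nat_lit 133444001, nat_lit 16342400], [], [nat_lit 21563934896, nat_lit 22189252327, nat_lit 23177658339, nat_lit 23746632728, nat_lit 22397776213, nat_lit 22966674494, nat_lit 23888868520, nat_lit 24408287761], nat_lit 1271250, nat_lit 1271250, nat_lit 1236400, nat_lit 1794000, nat_lit 490000, nat_lit 1100001, [nat_lit 230000, nat_lit 1100000, nat_lit 1442500], [nat_lit 55, nat_lit 40, nat_lit 40, nat_lit 80, nat_lit 3, nat_lit 317, nat_lit 100, nat_lit 11]⟩, ⟨p118_k7, nat_lit 0, nat_lit 0, nat_lit 533, nat_lit 0, nat_lit 352438, [nat_lit 215648000, nat_lit 452732000, nat_lit 754400000], [], [nat_lit 2703986231, nat_lit 2376320219, nat_lit 1849667923, nat_lit 1892346839, nat_lit 2600250858, nat_lit 2327482843, nat_lit 1729886897, nat_lit 1469941408], nat_lit 1271250, nat_lit 1271250, nat_lit 1271250, nat_lit 1271250, nat_lit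 0, nat_lit 2570750, [nat_lit 1100000, nat_lit 2127500, nat_lit 1271250], [nat_lit 83, nat_lit 40, nat_lit 40, nat_lit 80, nat_lit 73, nat_lit 456, nat_lit 225, nat_lit 10]⟩,
 ⟨nat_lit 0, nat_lit 1582, ⟨.ofNat (nat_lit 511747), .ofNat (nat_lit 601257), .ofNat (nat_lit 534406), .ofNat (nat_lit 623921), .ofNat (nat_lit 517899), .ofNat (nat_lit 599992), .ofNat (nat_lit 542242), .ofNat (nat_lit 624340)⟩, ⟨.ofNat (nat_lit 196201), .ofNat (nat_lit 305469), .ofNat (nat_lit 200000), .ofNat (nat_lit 352101), .ofNat (nat_lit 199999), .ofNat (nat_lit 299995), .ofNat (nat_lit 200000), .ofNat (nat_lit 349997)⟩⟩, [⟨nat_lit 0, nat_lit 97, nat_lit 22, nat_lit 100, nat_lit 57660796⟩, ⟨nat_lit 4, nat_lit 100, nat_lit 23, nat_lit 91, nat_lit 8307486⟩, ⟨nat_lit 7, nat_lit 72, nat_lit 100, nat_lit 89, nat_lit 3675756⟩]⟩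
noncomputable def p118_l45 : Lf2 := ⟨nat_lit 0, nat_lit 30, [nat_lit 15, nat_lit 5, nat_lit 5, nat_lit 20], false, nat_lit 80, nat_lit 160, nat_lit 0, nat_lit 160, ⟨nat_lit 1000, nat_lit 0, nat_lit 0, nat_lit 0, nat_lit 0, nat_lit 0, nat_lit 0, nat_lit 0, nat_lit 0, nat_lit 0, nat_lit 0, nat_lit 0, nat_lit 0, nat_lit 0, nat_lit 0, nat_lit 0, false, false⟩,
 nat_lit 11848, nat_lit 0, nat_lit 0, nat_lit 0, nat_lit 4419, nat_lit 6896, nat_lit 441, nat_lit 0, nat_lit 0, nat_lit 512, nat_lit 0, nat_lit 0, nat_lit 0, nat_lit 0, nat_lit 0, nat_lit 0, nat_lit 0, nat_lit 0, [],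
 ⟨p118_k6, nat_lit 0, nat_lit 0, nat_lit 184, nat_lit 0, nat_lit 196890, [nat_lit 938000000, nat_lit 4688000000, nat_lit 7968000000], [], [nat_lit 23184037542, nat_lit 24777161187, nat_lit 24891076872, nat_lit 26294575144, nat_lit 23311975423, nat_lit 24748545599, nat_lit 24853574914, nat_lit 26122523618], nat_lit 1271250, nat_lit 1271250, nat_lit 1167600, nat_lit 1789500, nat_lit 490000, nat_lit 1100001, [nat_lit 230000, nat_lit 1100000, nat_lit 1785000], [nat_lit 57, nat_lit 40, nat_lit 40, nat_lit 80, nat_lit 7, nat_lit 317, nat_lit 100, nat_lit 9]⟩, ⟨p118_k3, nat_lit 0, nat_lit 0, nat_lit 482, nat_lit 0, nat_lit 367051, [nat_lit 4688000000, nat_lit 9842000000, nat_lit 14058000000], [], [nat_lit 38900556868, nat_lit 39571344724, nat_lit 39814807536, nat_lit 40372990176, nat_lit 34218834004, nat_lit 34675087898, nat_lit 34760698160, nat_lit 35139161760], nat_lit 1271250, nat_lit 1271250, nat_lit 1271250, nat_lit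 1271250, nat_lit 0, nat_lit 1100001, [nat_lit 1100000, nat_lit 2127500, nat_lit 1271250], [nat_lit 56, nat_lit 40, nat_lit 40, nat_lit 80, nat_lit 32, nat_lit 401, nat_lit 175, nat_lit 9]⟩,
 zbF0, [⟨nat_lit 0, nat_lit 94, nat_lit 31, nat_lit 100, nat_lit 1044391929⟩, ⟨nat_lit 4, nat_lit 100, nat_lit 32, nat_lit 88, nat_lit 551318674⟩]⟩
noncomputable def p118_l46 : Lf2 := ⟨nat_lit 0, nat_lit 30, [nat_lit 15, nat_lit 5, nat_lit 5, nat_lit 20], false, nat_lit 80, nat_lit 160, nat_lit 160, nat_lit 352, ⟨nat_lit 242, nat_lit 0, nat_lit 758, nat_lit 6, nat_lit 234, nat_lit 758, nat_lit 105, nat_lit 758, nat_lit 104017, nat_lit 294, nat_lit 24782, nat_lit 200, nat_lit 45747590, nat_lit 0, nat_lit 0, nat_lit 4208433, false, false⟩,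
 nat_lit 3731, nat_lit 0, nat_lit 0, nat_lit 0, nat_lit 3486, nat_lit 2171, nat_lit 16, nat_lit 0, nat_lit 0, nat_lit 86, nat_lit 0, nat_lit 0, nat_lit 0, nat_lit 0, nat_lit 6, nat_lit 153145, nat_lit 0, nat_lit 0, [(nat_lit 29, [(nat_lit 3, nat_lit 661), (nat_lit 4, nat_lit 97)])],
 ⟨p118_k6, nat_lit 0, nat_lit 0, nat_lit 163, nat_lit 0, nat_lit 144371, [nat_lit 1082112800, nat_lit 151686800, nat_lit 231308400], [], [nat_lit 21780041253, nat_lit 22482854116, nat_lit 23501809668, nat_lit 24124859250, nat_lit 22257556567, nat_lit 22865619478, nat_lit 23827008476, nat_lit 24374667430], nat_lit 1271250, nat_lit 1271250, nat_lit 1167600, nat_lit 1789500, nat_lit 490000, nat_lit 1100001, [nat_lit 230000, nat_lit 1100000, nat_lit 1785000], [nat_lit 57, nat_lit 40, nat_lit 40, nat_lit 80, nat_lit 7, nat_lit 317, nat_lit 100, nat_lit 9]⟩, ⟨p118_k3, nat_lit 0, nat_lit 0, nat_lit 261, nat_lit 0, nat_lit 269142, [nat_lit 1134496000,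 nat_lit 2381764000, nat_lit 3402036000], [], [nat_lit 7679165499, nat_lit 7075805261, nat_lit 7186394670, nat_lit 7392574360, nat_lit 8537256108, nat_lit 8659724763, nat_lit 8567019846, nat_lit 8662533016], nat_lit 1271250, nat_lit 1271250, nat_lit 1271250, nat_lit 1271250, nat_lit 1271250, nat_lit 1271250, [nat_lit 1100000, nat_lit 2127500, nat_lit 1271250], [nat_lit 56, nat_lit 40, nat_lit 40, nat_lit 80, nat_lit 32, nat_lit 456, nat_lit 225, nat_lit 10]⟩,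
 ⟨nat_lit 1581, nat_lit 2237, ⟨.ofNat (nat_lit 522505), .ofNat (nat_lit 625287), .ofNat (nat_lit 545234), .ofNat (nat_lit 648016), .ofNat (nat_lit 526032), .ofNat (nat_lit 624529), .ofNat (nat_lit 549300), .ofNat (nat_lit 647799)⟩, ⟨.ofNat (nat_lit 192306), .ofNat (nat_lit 306337), .ofNat (nat_lit 200000), .ofNat (nat_lit 351886), .ofNat (nat_lit 196201), .ofNat (nat_lit 305473), .ofNat (nat_lit 200000), .ofNat (nat_lit 352103)⟩⟩, [⟨nat_lit 4, nat_lit 100, nat_lit 38, nat_lit 87, nat_lit 15581289⟩, ⟨nat_lit 19, nat_lit 100, nat_lit 82, nat_lit 92, nat_lit 97075128⟩]⟩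
noncomputable def p118_l47 : Lf2 := ⟨nat_lit 0, nat_lit 30, [nat_lit 15, nat_lit 5, nat_lit 5, nat_lit 20], false, nat_lit 80, nat_lit 160, nat_lit 160, nat_lit 352, ⟨nat_lit 449, nat_lit 0, nat_lit 551, nat_lit 6, nat_lit 243, nat_lit 551, nat_lit 105, nat_lit 551, nat_lit 104017, nat_lit 294, nat_lit 26116, nat_lit 200, nat_lit 44989889, nat_lit 0, nat_lit 0, nat_lit 4262047, true, false⟩,
 nat_lit 5360, nat_lit 0, nat_lit 0, nat_lit 0, nat_lit 3967, nat_lit 3119, nat_lit 0, nat_lit 0, nat_lit 0, nat_lit 232, nat_lit 0, nat_lit 0, nat_lit 0, nat_lit 0, nat_lit 0, nat_lit 107445, nat_lit 0, nat_lit 0, [(nat_lit 29, [(nat_lit 3, nat_lit 551)])],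
 ⟨p118_k8, nat_lit 0, nat_lit 0, nat_lit 158, nat_lit 0, nat_lit 188636, [nat_lit 1052387601, nat_lit 1359739600, nat_lit 1703148000], [], [nat_lit 23707371241, nat_lit 24480527641, nat_lit 24930515374, nat_lit 25643804656, nat_lit 23975619567, nat_lit 24673594674, nat_lit 25089502568, nat_lit 25734862892], nat_lit 1271250, nat_lit 1271250, nat_lit 1271250, nat_lit 1271250, nat_lit 490000, nat_lit 1100001, [nat_lit 230000, nat_lit 1100000, nat_lit 1442500], [nat_lit 55, nat_lit 40, nat_lit 40, nat_lit 80, nat_lit 3, nat_lit 317, nat_lit 100, nat_lit 11]⟩, ⟨p118_k3, nat_lit 0, nat_lit 0, nat_lit 296, nat_lit 0, nat_lit 367051, [nat_lit 2104912000, nat_lit 4419058000, nat_lit 6312042000], [], [nat_lit 12443355115, nat_lit 12782053885, nat_lit 12896413436, nat_lit 13244830932, nat_lit 15155457708, nat_lit 15363662351, nat_lit 15342248589, nat_lit 15524342073], nat_lit 1271250, nat_lit 1271250, nat_lit 1271250, nat_lit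 1271250, nat_lit 1271250, nat_lit 1271250, [nat_lit 1100000, nat_lit 2127500, nat_lit 1271250], [nat_lit 56, nat_lit 40, nat_lit 40, nat_lit 80, nat_lit 32, nat_lit 456, nat_lit 225, nat_lit 10]⟩,
 ⟨nat_lit 0, nat_lit 1582, ⟨.ofNat (nat_lit 562380), .ofNat (nat_lit 623921), .ofNat (nat_lit 585037), .ofNat (nat_lit 646579), .ofNat (nat_lit 567898), .ofNat (nat_lit 624340), .ofNat (nat_lit 592241), .ofNat (nat_lit 648683)⟩, ⟨.ofNat (nat_lit 196201), .ofNat (nat_lit 305469), .ofNat (nat_lit 200000), .ofNat (nat_lit 352101), .ofNat (nat_lit 199999), .ofNat (nat_lit 299995), .ofNat (nat_lit 200000), .ofNat (nat_lit 349997)⟩⟩, [⟨nat_lit 0, nat_lit 95, nat_lit 22, nat_lit 100, nat_lit 270998627⟩, ⟨nat_lit 16, nat_lit 23, nat_lit 100, nat_lit 91, nat_lit 216642538⟩, ⟨nat_lit 19, nat_lit 100, nat_lit 82, nat_lit 92, nat_lit 177890982⟩]⟩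
noncomputable def b_V_900_600_20_83 : St := ⟨true, nat_lit 1, nat_lit 1, nat_lit 1, nat_lit 120, nat_lit 360, nat_lit 400, nat_lit 240, nat_lit 280, nat_lit 112, nat_lit 240, nat_lit 80, nat_lit 120, nat_lit 8, nat_lit 160, nat_lit 0, nat_lit 364, nat_lit 120, nat_lit 156, nat_lit 0, nat_lit 0, nat_lit 0, nat_lit 0⟩
theorem d_V_900_600_20_83 (h : EB TB.env) : Dead b_V_900_600_20_83 := chkB_sound0 h (T :=
(.spl (nat_lit 4) (nat_lit 80)
(.spl (nat_lit 0) (nat_lit 380)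
(.spl (nat_lit 6) (nat_lit 136)
(.spl (nat_lit 1) (nat_lit 260)
(.spl (nat_lit 3) (nat_lit 100)
(.trX (nat_lit 19) (nat_lit 100) (nat_lit 68) (nat_lit 88) (nat_lit 352) (.leaf p118_l21))
(.trZ (nat_lit 3) (nat_lit 100) (nat_lit 69) (nat_lit 45) (nat_lit 16) (.leaf p118_l22)))
(.trZ (nat_lit 0) (nat_lit 100) (nat_lit 63) (nat_lit 99) (nat_lit 132) (.trX (nat_lit 19) (nat_lit 100) (nat_lit 69) (nat_lit 96) (nat_lit 352) (.spl (nat_lit 3) (nat_lit 100)
(.trX (nat_lit 19) (nat_lit 100) (nat_lit 77) (nat_lit 91) (nat_lit 336) (.leaf p118_l23))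
(.trZ (nat_lit 3) (nat_lit 100) (nat_lit 69) (nat_lit 45) (nat_lit 16) (.spl (nat_lit 6) (nat_lit 128)
(.spl (nat_lit 0) (nat_lit 370)
(.leaf p118_l24)
(.trZ (nat_lit 0) (nat_lit 98) (nat_lit 54) (nat_lit 100) (nat_lit 148) (.trZ (nat_lit 3) (nat_lit 100) (nat_lit 61) (nat_lit 55) (nat_lit 20) (.spl (nat_lit 0) (nat_lit 375)
(.spl (nat_lit 0) (nat_lit 373)
(.leaf p118_l25)
(.trZ (nat_lit 0) (nat_lit 98) (nat_lit 51) (nat_lit 100) (nat_lit 156) (.trZ (nat_lit 3) (nat_lit 100) (nat_lit 58) (nat_lit 58) (nat_lit 24) (.leaf p118_l26))))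
(.trZ (nat_lit 0) (nat_lit 97) (nat_lit 49) (nat_lit 100) (nat_lit 160) (.trZ (nat_lit 3) (nat_lit 100) (nat_lit 56) (nat_lit 60) (nat_lit 28) (.leaf p118_l27)))))))
(.leaf p118_l28)))))))
(.leaf p118_l29))
(.trZ (nat_lit 0) (nat_lit 100) (nat_lit 44) (nat_lit 99) (nat_lit 148) (.trZ (nat_lit 3) (nat_lit 100) (nat_lit 54) (nat_lit 57) (nat_lit 20) (.spl (nat_lit 1) (nat_lit 260)
(.spl (nat_lit 2) (nat_lit 200)
(.leaf p118_l30)
(.trX (nat_lit 22) (nat_lit 100) (nat_lit 60) (nat_lit 80) (nat_lit 360) (.spl (nat_lit 0) (nat_lit 390)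
(.leaf p118_l31)
(.trZ (nat_lit 3) (nat_lit 100) (nat_lit 39) (nat_lit 72) (nat_lit 36) (.leaf p118_l32)))))
(.trZ (nat_lit 0) (nat_lit 96) (nat_lit 44) (nat_lit 100) (nat_lit 168) (.trX (nat_lit 19) (nat_lit 100) (nat_lit 69) (nat_lit 96) (nat_lit 352) (.spl (nat_lit 3) (nat_lit 100)
(.trX (nat_lit 19) (nat_lit 100) (nat_lit 77) (nat_lit 91) (nat_lit 336) (.leaf p118_l33))
(.trZ (nat_lit 3) (nat_lit 100) (nat_lit 50) (nat_lit 65) (nat_lit 32) (.spl (nat_lit 6) (nat_lit 144)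
(.spl (nat_lit 5) (nat_lit 160)
(.leaf p118_l34)
(.leaf p118_l35))
(.leaf p118_l36))))))))))
(.spl (nat_lit 0) (nat_lit 380)
(.spl (nat_lit 6) (nat_lit 136)
(.spl (nat_lit 3) (nat_lit 100)
(.trX (nat_lit 19) (nat_lit 100) (nat_lit 68) (nat_lit 88) (nat_lit 352) (.leaf p118_l37))
(.spl (nat_lit 6) (nat_lit 128)
(.spl (nat_lit 0) (nat_lit 370)
(.leaf p118_l38)
(.trZ (nat_lit 0) (nat_lit 100) (nat_lit 54) (nat_lit 96) (nat_lit 128) (.spl (nat_lit 1) (nat_lit 260)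
(.leaf p118_l39)
(.trZ (nat_lit 0) (nat_lit 98) (nat_lit 54) (nat_lit 100) (nat_lit 148) (.trX (nat_lit 19) (nat_lit 100) (nat_lit 69) (nat_lit 96) (nat_lit 352) (.leaf p118_l40))))))
(.leaf p118_l41)))
(.leaf p118_l42))
(.trZ (nat_lit 0) (nat_lit 100) (nat_lit 44) (nat_lit 99) (nat_lit 148) (.spl (nat_lit 1) (nat_lit 260)
(.spl (nat_lit 0) (nat_lit 390)
(.leaf p118_l43)
(.trZ (nat_lit 0) (nat_lit 99) (nat_lit 31) (nat_lit 100) (nat_lit 176) (.leaf p118_l44)))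
(.trZ (nat_lit 0) (nat_lit 96) (nat_lit 44) (nat_lit 100) (nat_lit 168) (.trX (nat_lit 19) (nat_lit 100) (nat_lit 69) (nat_lit 96) (nat_lit 352) (.spl (nat_lit 5) (nat_lit 160)
(.leaf p118_l45)
(.spl (nat_lit 0) (nat_lit 390)
(.leaf p118_l46)
(.trZ (nat_lit 0) (nat_lit 95) (nat_lit 31) (nat_lit 100) (nat_lit 196) (.leaf p118_l47))))))))))) (by decide +kernel)
noncomputable def p118_l48 : Lf2 := ⟨nat_lit 0, nat_lit 25, [nat_lit 44, nat_lit 5, nat_lit 5, nat_lit 20], true, nat_lit 160, nat_lit 224, nat_lit 0, nat_lit 352, ⟨nat_lit 0, nat_lit 1000, nat_lit 0, nat_lit 6, nat_lit 213, nat_lit 1000, nat_lit 146, nat_lit 0, nat_lit 0, nat_lit 0, nat_lit 0, nat_lit 0, nat_lit 45207875, nat_lit 14039855, nat_lit 7752270, nat_lit 4516693, false, false⟩,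
 nat_lit 0, nat_lit 4314, nat_lit 0, nat_lit 3051, nat_lit 3757, nat_lit 0, nat_lit 0, nat_lit 0, nat_lit 0, nat_lit 0, nat_lit 0, nat_lit 0, nat_lit 0, nat_lit 0, nat_lit 0, nat_lit 250000, nat_lit 0, nat_lit 0, [(nat_lit 26, [(nat_lit 0, nat_lit 1000)])],
 ⟨p118_k0, nat_lit 0, nat_lit 0, nat_lit 76, nat_lit 0, nat_lit 35446, [nat_lit 765600000, nat_lit 1715200000, nat_lit 2512800000], [], [nat_lit 19665456883, nat_lit 21302927802, nat_lit 22500997584, nat_lit 23837985642, nat_lit 21556691070, nat_lit 23028303955, nat_lit 24000381421, nat_lit 25343574787], nat_lit 1271250, nat_lit 1271250, nat_lit 719601, nat_lit 1758000, nat_lit 1100001, nat_lit 1648000, [nat_lit 230000, nat_lit 1100000, nat_lit 1785000], [nat_lit 57, nat_lit 40, nat_lit 40, nat_lit 80, nat_lit 7, nat_lit 345, nat_lit 125, nat_lit 10]⟩, C1.Rw.none,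
 ⟨nat_lit 2236, nat_lit 3163, ⟨.ofNat (nat_lit 409856), .ofNat (nat_lit 605240), .ofNat (nat_lit 454039), .ofNat (nat_lit 649422), .ofNat (nat_lit 419758), .ofNat (nat_lit 602541), .ofNat (nat_lit 465180), .ofNat (nat_lit 647962)⟩, ⟨.ofNat (nat_lit 306116), .ofNat (nat_lit 403641), .ofNat (nat_lit 328271), .ofNat (nat_lit 425796), .ofNat (nat_lit 306337), .ofNat (nat_lit 397562), .ofNat (nat_lit 329112), .ofNat (nat_lit 420336)⟩⟩, [⟨nat_lit 16, nat_lit 53, nat_lit 100, nat_lit 84, nat_lit 288449465⟩]⟩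
noncomputable def p118_l49 : Lf2 := ⟨nat_lit 1, nat_lit 30, [nat_lit 15, nat_lit 5, nat_lit 5, nat_lit 20], false, nat_lit 160, nat_lit 248, nat_lit 0, nat_lit 364, zbN0,
 nat_lit 0, nat_lit 0, nat_lit 0, nat_lit 0, nat_lit 0, nat_lit 0, nat_lit 0, nat_lit 0, nat_lit 0, nat_lit 0, nat_lit 0, nat_lit 0, nat_lit 0, nat_lit 0, nat_lit 0, nat_lit 0, nat_lit 0, nat_lit 0, [],
 C1.Rw.none, C1.Rw.none,
 zbF0, []⟩
noncomputable def p118_l50 : Lf2 := ⟨nat_lit 1, nat_lit 30, [nat_lit 15, nat_lit 5, nat_lit 5, nat_lit 20], false, nat_lit 160, nat_lit 232, nat_lit 0, nat_lit 364, zbN0,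
 nat_lit 0, nat_lit 0, nat_lit 0, nat_lit 0, nat_lit 0, nat_lit 0, nat_lit 0, nat_lit 0, nat_lit 0, nat_lit 0, nat_lit 0, nat_lit 0, nat_lit 0, nat_lit 0, nat_lit 0, nat_lit 0, nat_lit 0, nat_lit 0, [],
 C1.Rw.none, C1.Rw.none,
 zbF0, []⟩
noncomputable def p118_l51 : Lf2 := ⟨nat_lit 0, nat_lit 30, [nat_lit 15, nat_lit 5, nat_lit 5, nat_lit 20], false, nat_lit 160, nat_lit 232, nat_lit 0, nat_lit 352, ⟨nat_lit 38, nat_lit 962, nat_lit 0, nat_lit 6, nat_lit 228, nat_lit 962, nat_lit 157, nat_lit 0, nat_lit 0, nat_lit 0, nat_lit 0, nat_lit 0, nat_lit 43191430, nat_lit 15325711, nat_lit 8482859, nat_lit 4737114, false, false⟩,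
 nat_lit 1202, nat_lit 3066, nat_lit 0, nat_lit 5618, nat_lit 3850, nat_lit 699, nat_lit 0, nat_lit 0, nat_lit 0, nat_lit 0, nat_lit 0, nat_lit 0, nat_lit 0, nat_lit 0, nat_lit 0, nat_lit 240500, nat_lit 0, nat_lit 0, [(nat_lit 26, [(nat_lit 0, nat_lit 962)])],
 ⟨p118_k2, nat_lit 0, nat_lit 0, nat_lit 63, nat_lit 0, nat_lit 26817, [nat_lit 772151200, nat_lit 1828166400, nat_lit 2720097600], [], [nat_lit 20951887571, nat_lit 21741797241, nat_lit 23235531050, nat_lit 23912292500, nat_lit 22895546867, nat_lit 23593879466, nat_lit 24902456170, nat_lit 25602789600], nat_lit 1271250, nat_lit 1271250, nat_lit 1000851, nat_lit 1778250, nat_lit 1100001, nat_lit 1716500, [nat_lit 230000, nat_lit 1100000, nat_lit 1785000], [nat_lit 57, nat_lit 40, nat_lit 40, nat_lit 80, nat_lit 7, nat_lit 345, nat_lit 125, nat_lit 10]⟩, ⟨p118_k3, nat_lit 0, nat_lit 0, nat_lit 292, nat_lit 0, nat_lit 47505, [nat_lit 178144000, nat_lit 373996000,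 nat_lit 534204000], [], [nat_lit 2801444879, nat_lit 2424352414, nat_lit 1838633078, nat_lit 1895329804, nat_lit 2364109768, nat_lit 2049577103, nat_lit 1364375643, nat_lit 1377450729], nat_lit 1271250, nat_lit 1271250, nat_lit 1271250, nat_lit 1271250, nat_lit 0, nat_lit 2486000, [nat_lit 1100000, nat_lit 2127500, nat_lit 1271250], [nat_lit 56, nat_lit 40, nat_lit 40, nat_lit 80, nat_lit 32, nat_lit 456, nat_lit 225, nat_lit 10]⟩,
 ⟨nat_lit 2236, nat_lit 2739, ⟨.ofNat (nat_lit 490366), .ofNat (nat_lit 626287), .ofNat (nat_lit 512763), .ofNat (nat_lit 648684), .ofNat (nat_lit 494096), .ofNat (nat_lit 625312), .ofNat (nat_lit 516850), .ofNat (nat_lit 648065)⟩, ⟨.ofNat (nat_lit 328850), .ofNat (nat_lit 435161), .ofNat (nat_lit 351268), .ofNat (nat_lit 457578), .ofNat (nat_lit 329112), .ofNat (nat_lit 431740), .ofNat (nat_lit 351886), .ofNat (nat_lit 454514)⟩⟩, [⟨nat_lit 4, nat_lit 100, nat_lit 48, nat_lit 89, nat_lit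 298995851⟩]⟩
noncomputable def p118_l52 : Lf2 := ⟨nat_lit 1, nat_lit 30, [nat_lit 15, nat_lit 5, nat_lit 5, nat_lit 20], false, nat_lit 160, nat_lit 248, nat_lit 0, nat_lit 364, zbN0,
 nat_lit 0, nat_lit 0, nat_lit 0, nat_lit 0, nat_lit 0, nat_lit 0, nat_lit 0, nat_lit 0, nat_lit 0, nat_lit 0, nat_lit 0, nat_lit 0, nat_lit 0, nat_lit 0, nat_lit 0, nat_lit 0, nat_lit 0, nat_lit 0, [],
 C1.Rw.none, C1.Rw.none,
 zbF0, []⟩
noncomputable def p118_l53 : Lf2 := ⟨nat_lit 1, nat_lit 30, [nat_lit 15, nat_lit 5, nat_lit 5, nat_lit 20], false, nat_lit 160, nat_lit 248, nat_lit 0, nat_lit 364, zbN0,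
 nat_lit 0, nat_lit 0, nat_lit 0, nat_lit 0, nat_lit 0, nat_lit 0, nat_lit 0, nat_lit 0, nat_lit 0, nat_lit 0, nat_lit 0, nat_lit 0, nat_lit 0, nat_lit 0, nat_lit 0, nat_lit 0, nat_lit 0, nat_lit 0, [],
 C1.Rw.none, C1.Rw.none,
 zbF0, []⟩
noncomputable def p118_l54 : Lf2 := ⟨nat_lit 0, nat_lit 30, [nat_lit 15, nat_lit 5, nat_lit 5, nat_lit 20], false, nat_lit 160, nat_lit 208, nat_lit 0, nat_lit 364, ⟨nat_lit 46, nat_lit 214, nat_lit 740, nat_lit 6, nat_lit 220, nat_lit 954, nat_lit 145, nat_lit 739, nat_lit 198017, nat_lit 324, nat_lit 4336, nat_lit 204, nat_lit 44673516, nat_lit 14692807, nat_lit 7633677, nat_lit 4558758, false, false⟩,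
 nat_lit 1161, nat_lit 2186, nat_lit 0, nat_lit 3037, nat_lit 3127, nat_lit 614, nat_lit 0, nat_lit 0, nat_lit 0, nat_lit 33, nat_lit 0, nat_lit 0, nat_lit 0, nat_lit 0, nat_lit 45, nat_lit 197800, nat_lit 0, nat_lit 0, [(nat_lit 29, [(nat_lit 0, nat_lit 214), (nat_lit 3, nat_lit 740)])],
 ⟨p118_k6, nat_lit 0, nat_lit 0, nat_lit 132, nat_lit 0, nat_lit 109893, [nat_lit 1238154400, nat_lit 255712801, nat_lit 149786400], [], [nat_lit 21434180444, nat_lit 22042789497, nat_lit 23340021428, nat_lit 24049770635, nat_lit 22493093549, nat_lit 23071426369, nat_lit 24495718710, nat_lit 25139777090], nat_lit 1271250, nat_lit 1271250, nat_lit 1000851, nat_lit 1778250, nat_lit 1100001, nat_lit 1511000, [nat_lit 230000, nat_lit 1100000, nat_lit 1785000], [nat_lit 57, nat_lit 40, nat_lit 40, nat_lit 80, nat_lit 7, nat_lit 345, nat_lit 125, nat_lit 10]⟩, ⟨p118_k7, nat_lit 0, nat_lit 0, nat_lit 500, nat_lit 0, nat_lit 233738, [nat_lit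 215648000, nat_lit 452732000, nat_lit 754400000], [], [nat_lit 3168652589, nat_lit 2837415430, nat_lit 1849667923, nat_lit 1892346839, nat_lit 2986199935, nat_lit 2710979378, nat_lit 1729886897, nat_lit 1469941408], nat_lit 1271250, nat_lit 1271250, nat_lit 1271250, nat_lit 1271250, nat_lit 0, nat_lit 2570750, [nat_lit 1100000, nat_lit 2127500, nat_lit 1271250], [nat_lit 83, nat_lit 40, nat_lit 40, nat_lit 80, nat_lit 73, nat_lit 456, nat_lit 225, nat_lit 10]⟩,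
 ⟨nat_lit 1581, nat_lit 2237, ⟨.ofNat (nat_lit 471225), .ofNat (nat_lit 602558), .ofNat (nat_lit 493955), .ofNat (nat_lit 625287), .ofNat (nat_lit 475401), .ofNat (nat_lit 601260), .ofNat (nat_lit 498671), .ofNat (nat_lit 624529)⟩, ⟨.ofNat (nat_lit 306337), .ofNat (nat_lit 374756), .ofNat (nat_lit 351886), .ofNat (nat_lit 420305), .ofNat (nat_lit 305473), .ofNat (nat_lit 371036), .ofNat (nat_lit 352103), .ofNat (nat_lit 417666)⟩⟩, [⟨nat_lit 4, nat_lit 100, nat_lit 38, nat_lit 87, nat_lit 401325024⟩, ⟨nat_lit 7, nat_lit 72, nat_lit 100, nat_lit 89, nat_lit 3674326⟩]⟩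
noncomputable def p118_l55 : Lf2 := ⟨nat_lit 0, nat_lit 30, [nat_lit 15, nat_lit 5, nat_lit 5, nat_lit 20], true, nat_lit 160, nat_lit 184, nat_lit 0, nat_lit 364, ⟨nat_lit 0, nat_lit 593, nat_lit 407, nat_lit 6, nat_lit 228, nat_lit 1000, nat_lit 137, nat_lit 407, nat_lit 176817, nat_lit 318, nat_lit 2404, nat_lit 204, nat_lit 44473481, nat_lit 15546533, nat_lit 6979986, nat_lit 4531075, true, false⟩,
 nat_lit 0, nat_lit 2957, nat_lit 0, nat_lit 623, nat_lit 2859, nat_lit 0, nat_lit 0, nat_lit 0, nat_lit 0, nat_lit 0, nat_lit 0, nat_lit 0, nat_lit 0, nat_lit 0, nat_lit 1, nat_lit 250000, nat_lit 0, nat_lit 0, [(nat_lit 29, [(nat_lit 0, nat_lit 593), (nat_lit 4, nat_lit 407)])],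
 ⟨p118_k8, nat_lit 0, nat_lit 0, nat_lit 148, nat_lit 0, nat_lit 231049, [nat_lit 777460001, nat_lit 108233601, nat_lit 12181200], [], [nat_lit 22320208014, nat_lit 22922580809, nat_lit 23809620556, nat_lit 24491008480, nat_lit 22850030568, nat_lit 23433961849, nat_lit 24356677678, nat_lit 25015544043], nat_lit 1271250, nat_lit 1271250, nat_lit 1236400, nat_lit 1794000, nat_lit 1100001, nat_lit 1305500, [nat_lit 230000, nat_lit 1100000, nat_lit 1442500], [nat_lit 55, nat_lit 40, nat_lit 40, nat_lit 80, nat_lit 3, nat_lit 345, nat_lit 125, nat_lit 12]⟩, C1.Rw.none,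
 ⟨nat_lit 0, nat_lit 1582, ⟨.ofNat (nat_lit 511747), .ofNat (nat_lit 601257), .ofNat (nat_lit 534406), .ofNat (nat_lit 623921), .ofNat (nat_lit 517899), .ofNat (nat_lit 599992), .ofNat (nat_lit 542242), .ofNat (nat_lit 624340)⟩, ⟨.ofNat (nat_lit 305469), .ofNat (nat_lit 338250), .ofNat (nat_lit 352101), .ofNat (nat_lit 384882), .ofNat (nat_lit 299995), .ofNat (nat_lit 329995), .ofNat (nat_lit 349997), .ofNat (nat_lit 379997)⟩⟩, [⟨nat_lit 16, nat_lit 31, nat_lit 100, nat_lit 92, nat_lit 480032021⟩]⟩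
noncomputable def p118_l56 : Lf2 := ⟨nat_lit 0, nat_lit 30, [nat_lit 15, nat_lit 5, nat_lit 5, nat_lit 20], false, nat_lit 160, nat_lit 208, nat_lit 0, nat_lit 352, ⟨nat_lit 133, nat_lit 149, nat_lit 718, nat_lit 6, nat_lit 232, nat_lit 867, nat_lit 144, nat_lit 718, nat_lit 194400, nat_lit 323, nat_lit 7309, nat_lit 201, nat_lit 43696499, nat_lit 15864996, nat_lit 7438505, nat_lit 4629078, false, false⟩,
 nat_lit 4315, nat_lit 0, nat_lit 0, nat_lit 0, nat_lit 3524, nat_lit 2511, nat_lit 0, nat_lit 0, nat_lit 0, nat_lit 10, nat_lit 0, nat_lit 0, nat_lit 0, nat_lit 0, nat_lit 20, nat_lit 177260, nat_lit 0, nat_lit 0, [(nat_lit 29, [(nat_lit 0, nat_lit 149), (nat_lit 3, nat_lit 718)])],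
 ⟨p118_k16, nat_lit 0, nat_lit 0, nat_lit 150, nat_lit 0, nat_lit 180386, [nat_lit 1143753200, nat_lit 265302400, nat_lit 163129200], [], [nat_lit 22055303258, nat_lit 23340778541, nat_lit 23652317960, nat_lit 25165797280, nat_lit 23070698861, nat_lit 24518939507, nat_lit 24786780105, nat_lit 26185008842], nat_lit 1271250, nat_lit 1271250, nat_lit 1167600, nat_lit 1789500, nat_lit 1100001, nat_lit 1511000, [nat_lit 230000, nat_lit 780000, nat_lit 1762500], [nat_lit 54, nat_lit 40, nat_lit 40, nat_lit 80, nat_lit 43, nat_lit 345, nat_lit 125, nat_lit 10]⟩, ⟨p118_k12, nat_lit 0, nat_lit 0, nat_lit 456, nat_lit 0, nat_lit 336284, [nat_lit 623504000, nat_lit 1059744000, nat_lit 1869714000], [], [nat_lit 6641780592, nat_lit 6675509321, nat_lit 6442517412, nat_lit 6464215374, nat_lit 5577317407, nat_lit 5008707484, nat_lit 4634125201, nat_lit 4656833432], nat_lit 1271250, nat_lit 1271250, nat_lit 1271250, nat_lit 1271250,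 nat_lit 0, nat_lit 2486000, [nat_lit 1100000, nat_lit 1785000, nat_lit 1271250], [nat_lit 37, nat_lit 40, nat_lit 40, nat_lit 80, nat_lit 28, nat_lit 456, nat_lit 225, nat_lit 10]⟩,
 ⟨nat_lit 0, nat_lit 2237, ⟨.ofNat (nat_lit 518456), .ofNat (nat_lit 624400), .ofNat (nat_lit 529380), .ofNat (nat_lit 635325), .ofNat (nat_lit 530746), .ofNat (nat_lit 624062), .ofNat (nat_lit 542783), .ofNat (nat_lit 636099)⟩, ⟨.ofNat (nat_lit 306334), .ofNat (nat_lit 374750), .ofNat (nat_lit 351885), .ofNat (nat_lit 420300), .ofNat (nat_lit 299996), .ofNat (nat_lit 359993), .ofNat (nat_lit 349998), .ofNat (nat_lit 409994)⟩⟩, [⟨nat_lit 16, nat_lit 32, nat_lit 100, nat_lit 88, nat_lit 318221304⟩, ⟨nat_lit 16, nat_lit 44, nat_lit 100, nat_lit 92, nat_lit 147122267⟩]⟩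
noncomputable def p118_l57 : Lf2 := ⟨nat_lit 0, nat_lit 30, [nat_lit 15, nat_lit 5, nat_lit 5, nat_lit 20], false, nat_lit 160, nat_lit 208, nat_lit 0, nat_lit 344, ⟨nat_lit 176, nat_lit 0, nat_lit 824, nat_lit 6, nat_lit 240, nat_lit 824, nat_lit 145, nat_lit 824, nat_lit 198017, nat_lit 324, nat_lit 24782, nat_lit 200, nat_lit 42933752, nat_lit 0, nat_lit 0, nat_lit 4691441, true, false⟩,
 nat_lit 5052, nat_lit 0, nat_lit 0, nat_lit 0, nat_lit 3377, nat_lit 3076, nat_lit 0, nat_lit 0, nat_lit 0, nat_lit 30, nat_lit 0, nat_lit 0, nat_lit 0, nat_lit 0, nat_lit 31, nat_lit 160680, nat_lit 0, nat_lit 0, [(nat_lit 29, [(nat_lit 3, nat_lit 824)])],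
 ⟨p118_k16, nat_lit 0, nat_lit 0, nat_lit 134, nat_lit 0, nat_lit 144371, [nat_lit 1233062400, nat_lit 297353600, nat_lit 221174400], [], [nat_lit 22189390224, nat_lit 22791980295, nat_lit 23545554774, nat_lit 24276021885, nat_lit 23191098315, nat_lit 23835653037, nat_lit 24673024742, nat_lit 25357735140], nat_lit 1271250, nat_lit 1271250, nat_lit 1271250, nat_lit 1271250, nat_lit 1100001, nat_lit 1511000, [nat_lit 230000, nat_lit 780000, nat_lit 1762500], [nat_lit 54, nat_lit 40, nat_lit 40, nat_lit 80, nat_lit 43, nat_lit 345, nat_lit 125, nat_lit 10]⟩, ⟨p118_k18, nat_lit 0, nat_lit 0, nat_lit 423, nat_lit 0, nat_lit 252955, [nat_lit 825088000, nat_lit 1402368000, nat_lit 2474208000], [], [nat_lit 8419180990, nat_lit 8460924640, nat_lit 8244709036, nat_lit 8311790728, nat_lit 6095949563, nat_lit 6145226505, nat_lit 5955457117, nat_lit 5989612735], nat_lit 1271250, nat_lit 1271250, nat_lit 1271250, nat_lit 1271250,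 nat_lit 0, nat_lit 2429500, [nat_lit 1100000, nat_lit 1785000, nat_lit 1271250], [nat_lit 37, nat_lit 40, nat_lit 40, nat_lit 80, nat_lit 28, nat_lit 456, nat_lit 225, nat_lit 10]⟩,
 ⟨nat_lit 1581, nat_lit 2237, ⟨.ofNat (nat_lit 551000), .ofNat (nat_lit 636651), .ofNat (nat_lit 562365), .ofNat (nat_lit 648016), .ofNat (nat_lit 554083), .ofNat (nat_lit 636164), .ofNat (nat_lit 565717), .ofNat (nat_lit 647799)⟩, ⟨.ofNat (nat_lit 306337), .ofNat (nat_lit 374756), .ofNat (nat_lit 351886), .ofNat (nat_lit 420305), .ofNat (nat_lit 305473), .ofNat (nat_lit 371036), .ofNat (nat_lit 352103), .ofNat (nat_lit 417666)⟩⟩, [⟨nat_lit 16, nat_lit 38, nat_lit 100, nat_lit 87, nat_lit 467728309⟩]⟩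
noncomputable def p118_l58 : Lf2 := ⟨nat_lit 0, nat_lit 30, [nat_lit 15, nat_lit 5, nat_lit 5, nat_lit 20], false, nat_lit 160, nat_lit 184, nat_lit 0, nat_lit 344, ⟨nat_lit 347, nat_lit 0, nat_lit 653, nat_lit 6, nat_lit 247, nat_lit 653, nat_lit 137, nat_lit 653, nat_lit 176817, nat_lit 318, nat_lit 26116, nat_lit 200, nat_lit 42804827, nat_lit 0, nat_lit 0, nat_lit 4649176, true, false⟩,
 nat_lit 5801, nat_lit 0, nat_lit 0, nat_lit 0, nat_lit 3543, nat_lit 3532, nat_lit 0, nat_lit 0, nat_lit 0, nat_lit 293, nat_lit 0, nat_lit 0, nat_lit 0, nat_lit 0, nat_lit 0, nat_lit 127335, nat_lit 0, nat_lit 0, [(nat_lit 29, [(nat_lit 3, nat_lit 653)])],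
 ⟨p118_k19, nat_lit 0, nat_lit 0, nat_lit 128, nat_lit 0, nat_lit 188636, [nat_lit 1073562801, nat_lit 642661067, nat_lit 861444000], [], [nat_lit 23482485471, nat_lit 24133618185, nat_lit 24426252715, nat_lit 25185076960, nat_lit 23979450245, nat_lit 24686682780, nat_lit 24964356000, nat_lit 25694256176], nat_lit 1271250, nat_lit 1271250, nat_lit 1271250, nat_lit 1271250, nat_lit 1100001, nat_lit 1305500, [nat_lit 230000, nat_lit 780000, nat_lit 1435000], [nat_lit 20, nat_lit 40, nat_lit 40, nat_lit 80, nat_lit 16, nat_lit 260, nat_lit 50, nat_lit 8]⟩, ⟨p118_k18, nat_lit 0, nat_lit 0, nat_lit 449, nat_lit 0, nat_lit 344975, [nat_lit 1626736000, nat_lit 2764896000, nat_lit 4878126000], [], [nat_lit 11761944595, nat_lit 11836407928, nat_lit 11805585037, nat_lit 11882974216, nat_lit 10086801992, nat_lit 10170021255, nat_lit 10156086771, nat_lit 10227624471], nat_lit 1271250, nat_lit 1271250, nat_lit 1271250, nat_lit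 1271250, nat_lit 0, nat_lit 2429500, [nat_lit 1100000, nat_lit 1785000, nat_lit 1271250], [nat_lit 37, nat_lit 40, nat_lit 40, nat_lit 80, nat_lit 28, nat_lit 456, nat_lit 225, nat_lit 10]⟩,
 ⟨nat_lit 0, nat_lit 1582, ⟨.ofNat (nat_lit 584898), .ofNat (nat_lit 635250), .ofNat (nat_lit 596226), .ofNat (nat_lit 646579), .ofNat (nat_lit 590332), .ofNat (nat_lit 636512), .ofNat (nat_lit 602503), .ofNat (nat_lit 648683)⟩, ⟨.ofNat (nat_lit 305469), .ofNat (nat_lit 338250), .ofNat (nat_lit 352101), .ofNat (nat_lit 384882), .ofNat (nat_lit 299995), .ofNat (nat_lit 329995), .ofNat (nat_lit 349997), .ofNat (nat_lit 379997)⟩⟩, [⟨nat_lit 0, nat_lit 94, nat_lit 23, nat_lit 100, nat_lit 69074111⟩, ⟨nat_lit 16, nat_lit 23, nat_lit 100, nat_lit 91, nat_lit 39409761⟩, ⟨nat_lit 16, nat_lit 31, nat_lit 100, nat_lit 92, nat_lit 632212454⟩, ⟨nat_lit 7, nat_lit 85, nat_lit 100, nat_lit 93, nat_lit 45410085⟩]⟩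
noncomputable def b_V_900_600_20_84 : St := ⟨true, nat_lit 1, nat_lit 1, nat_lit 1, nat_lit 120, nat_lit 360, nat_lit 400, nat_lit 240, nat_lit 280, nat_lit 112, nat_lit 240, nat_lit 80, nat_lit 120, nat_lit 160, nat_lit 248, nat_lit 0, nat_lit 364, nat_lit 120, nat_lit 156, nat_lit 0, nat_lit 0, nat_lit 0, nat_lit 0⟩
theorem d_V_900_600_20_84 (h : EB TB.env) : Dead b_V_900_600_20_84 := chkB_sound0 h (T :=
(.spl (nat_lit 0) (nat_lit 380)
(.spl (nat_lit 6) (nat_lit 136)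
(.spl (nat_lit 3) (nat_lit 100)
(.trX (nat_lit 16) (nat_lit 60) (nat_lit 100) (nat_lit 87) (nat_lit 224) (.trX (nat_lit 19) (nat_lit 100) (nat_lit 68) (nat_lit 88) (nat_lit 352) (.leaf p118_l48)))
(.spl (nat_lit 6) (nat_lit 128)
(.spl (nat_lit 0) (nat_lit 370)
(.leaf p118_l49)
(.trZ (nat_lit 0) (nat_lit 100) (nat_lit 54) (nat_lit 96) (nat_lit 128) (.trX (nat_lit 16) (nat_lit 53) (nat_lit 100) (nat_lit 93) (nat_lit 232) (.spl (nat_lit 1) (nat_lit 260)
(.leaf p118_l50)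
(.trZ (nat_lit 0) (nat_lit 98) (nat_lit 54) (nat_lit 100) (nat_lit 148) (.trX (nat_lit 19) (nat_lit 100) (nat_lit 69) (nat_lit 96) (nat_lit 352) (.leaf p118_l51)))))))
(.leaf p118_l52)))
(.leaf p118_l53))
(.trZ (nat_lit 0) (nat_lit 100) (nat_lit 44) (nat_lit 99) (nat_lit 148) (.trX (nat_lit 16) (nat_lit 44) (nat_lit 100) (nat_lit 92) (nat_lit 208) (.spl (nat_lit 1) (nat_lit 260)
(.spl (nat_lit 0) (nat_lit 390)
(.leaf p118_l54)
(.trZ (nat_lit 0) (nat_lit 99) (nat_lit 31) (nat_lit 100) (nat_lit 176) (.trX (nat_lit 16) (nat_lit 31) (nat_lit 100) (nat_lit 92) (nat_lit 184) (.leaf p118_l55))))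
(.trZ (nat_lit 0) (nat_lit 96) (nat_lit 44) (nat_lit 100) (nat_lit 168) (.trX (nat_lit 19) (nat_lit 100) (nat_lit 69) (nat_lit 96) (nat_lit 352) (.spl (nat_lit 1) (nat_lit 270)
(.leaf p118_l56)
(.trZ (nat_lit 0) (nat_lit 94) (nat_lit 44) (nat_lit 100) (nat_lit 180) (.trX (nat_lit 19) (nat_lit 100) (nat_lit 74) (nat_lit 98) (nat_lit 344) (.spl (nat_lit 0) (nat_lit 390)
(.leaf p118_l57)
(.trZ (nat_lit 0) (nat_lit 94) (nat_lit 31) (nat_lit 100) (nat_lit 204) (.trX (nat_lit 16) (nat_lit 31) (nat_lit 100) (nat_lit 92) (nat_lit 184) (.leaf p118_l58)))))))))))))) (by decide +kernel)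
noncomputable def p118_l59 : Lf2 := ⟨nat_lit 0, nat_lit 30, [nat_lit 15, nat_lit 5, nat_lit 5, nat_lit 20], false, nat_lit 8, nat_lit 248, nat_lit 0, nat_lit 160, ⟨nat_lit 1000, nat_lit 0, nat_lit 0, nat_lit 0, nat_lit 0, nat_lit 0, nat_lit 0, nat_lit 0, nat_lit 0, nat_lit 0, nat_lit 0, nat_lit 0, nat_lit 0, nat_lit 0, nat_lit 0, nat_lit 0, false, false⟩,
 nat_lit 19927, nat_lit 0, nat_lit 0, nat_lit 0, nat_lit 6447, nat_lit 10549, nat_lit 268, nat_lit 0, nat_lit 0, nat_lit 847, nat_lit 0, nat_lit 0, nat_lit 0, nat_lit 0, nat_lit 0, nat_lit 0, nat_lit 0, nat_lit 0, [],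
 ⟨p118_k4, nat_lit 0, nat_lit 0, nat_lit 218, nat_lit 0, nat_lit 44344, [nat_lit 938000000, nat_lit 4688000000, nat_lit 9842000000], [], [nat_lit 32961979858, nat_lit 33800103003, nat_lit 39638890026, nat_lit 40232542615, nat_lit 29729438436, nat_lit 30247467361, nat_lit 34418491361, nat_lit 34852631878], nat_lit 1271250, nat_lit 1271250, nat_lit 1271250, nat_lit 1271250, nat_lit 43600, nat_lit 1756600, [nat_lit 230000, nat_lit 1100000, nat_lit 2127500], [nat_lit 81, nat_lit 40, nat_lit 40, nat_lit 80, nat_lit 13, nat_lit 401, nat_lit 175, nat_lit 11]⟩, ⟨p118_k7, nat_lit 0, nat_lit 0, nat_lit 418, nat_lit 0, nat_lit 85786, [nat_lit 4688000000, nat_lit 9842000000, nat_lit 16400000000], [], [nat_lit 36152395913, nat_lit 37048726517, nat_lit 43334952406, nat_lit 44071368612, nat_lit 27113143620, nat_lit 28570688624, nat_lit 33678015360, nat_lit 34367509244], nat_lit 1271250, nat_lit 1271250, nat_lit 1271250, nat_lit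 1271250, nat_lit 0, nat_lit 1100001, [nat_lit 1100000, nat_lit 2127500, nat_lit 1271250], [nat_lit 83, nat_lit 40, nat_lit 40, nat_lit 80, nat_lit 73, nat_lit 456, nat_lit 225, nat_lit 9]⟩,
 zbF0, [⟨nat_lit 16, nat_lit 57, nat_lit 100, nat_lit 87, nat_lit 87111998⟩, ⟨nat_lit 9, nat_lit 100, nat_lit 90, nat_lit 22, nat_lit 131871466⟩]⟩
noncomputable def p118_l60 : Lf2 := ⟨nat_lit 0, nat_lit 30, [nat_lit 15, nat_lit 5, nat_lit 5, nat_lit 20], false, nat_lit 12, nat_lit 232, nat_lit 0, nat_lit 160, ⟨nat_lit 1000, nat_lit 0, nat_lit 0, nat_lit 0, nat_lit 0, nat_lit 0, nat_lit 0, nat_lit 0, nat_lit 0, nat_lit 0, nat_lit 0, nat_lit 0, nat_lit 0, nat_lit 0, nat_lit 0, nat_lit 0, false, false⟩,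
 nat_lit 12750, nat_lit 0, nat_lit 0, nat_lit 0, nat_lit 6185, nat_lit 6749, nat_lit 133, nat_lit 0, nat_lit 0, nat_lit 695, nat_lit 0, nat_lit 0, nat_lit 0, nat_lit 0, nat_lit 0, nat_lit 0, nat_lit 0, nat_lit 0, [],
 ⟨p118_k2, nat_lit 0, nat_lit 0, nat_lit 227, nat_lit 0, nat_lit 93449, [nat_lit 938000000, nat_lit 4688000000, nat_lit 7968000000], [], [nat_lit 32273745180, nat_lit 33166802592, nat_lit 38753419985, nat_lit 39395226601, nat_lit 29457176726, nat_lit 30026253342, nat_lit 34200758023, nat_lit 34691421453], nat_lit 1271250, nat_lit 1271250, nat_lit 1271250, nat_lit 1271250, nat_lit 65850, nat_lit 1644350, [nat_lit 230000, nat_lit 1100000, nat_lit 1785000], [nat_lit 57, nat_lit 40, nat_lit 40, nat_lit 80, nat_lit 7, nat_lit 272, nat_lit 60, nat_lit 8]⟩, ⟨p118_k7, nat_lit 0, nat_lit 0, nat_lit 455, nat_lit 0, nat_lit 189046, [nat_lit 4688000000, nat_lit 9842000000, nat_lit 16400000000], [], [nat_lit 40363985313,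 nat_lit 41263371117, nat_lit 44744569954, nat_lit 45677941272, nat_lit 35538609524, nat_lit 36581590684, nat_lit 39693311698, nat_lit 40379566574], nat_lit 1271250, nat_lit 1271250, nat_lit 1271250, nat_lit 1271250, nat_lit 0, nat_lit 1100001, [nat_lit 1100000, nat_lit 2127500, nat_lit 1271250], [nat_lit 83, nat_lit 40, nat_lit 40, nat_lit 80, nat_lit 73, nat_lit 456, nat_lit 225, nat_lit 9]⟩,
 zbF0, [⟨nat_lit 4, nat_lit 100, nat_lit 48, nat_lit 87, nat_lit 228901503⟩]⟩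
noncomputable def p118_l61 : Lf2 := ⟨nat_lit 0, nat_lit 30, [nat_lit 15, nat_lit 5, nat_lit 5, nat_lit 20], false, nat_lit 8, nat_lit 160, nat_lit 160, nat_lit 364, ⟨nat_lit 1000, nat_lit 0, nat_lit 0, nat_lit 0, nat_lit 0, nat_lit 0, nat_lit 0, nat_lit 0, nat_lit 0, nat_lit 0, nat_lit 0, nat_lit 0, nat_lit 0, nat_lit 0, nat_lit 0, nat_lit 0, false, false⟩,
 nat_lit 7700, nat_lit 0, nat_lit 10782, nat_lit 8494, nat_lit 6706, nat_lit 9784, nat_lit 248, nat_lit 0, nat_lit 0, nat_lit 699, nat_lit 0, nat_lit 0, nat_lit 0, nat_lit 0, nat_lit 0, nat_lit 0, nat_lit 0, nat_lit 0, [],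
 ⟨p118_k4, nat_lit 0, nat_lit 0, nat_lit 210, nat_lit 0, nat_lit 19636, [nat_lit 938000000, nat_lit 4688000000, nat_lit 9842000000], [], [nat_lit 33424288846, nat_lit 33853604630, nat_lit 40217923725, nat_lit 40521935930, nat_lit 28475678928, nat_lit 28785523217, nat_lit 34265535330, nat_lit 34524691514], nat_lit 1271250, nat_lit 1271250, nat_lit 1271250, nat_lit 1271250, nat_lit 43600, nat_lit 1100001, [nat_lit 230000, nat_lit 1100000, nat_lit 2127500], [nat_lit 81, nat_lit 40, nat_lit 40, nat_lit 80, nat_lit 13, nat_lit 373, nat_lit 150, nat_lit 10]⟩, ⟨p118_k7, nat_lit 0, nat_lit 0, nat_lit 215, nat_lit 0, nat_lit 38477, [nat_lit 4688000000, nat_lit 9842000000, nat_lit 16400000000], [], [nat_lit 28907450496, nat_lit 28904883569, nat_lit 34018540152, nat_lit 34642550750, nat_lit 32911836195, nat_lit 33389028673, nat_lit 37617640603, nat_lit 38636783408], nat_lit 1271250, nat_lit 1271250, nat_lit 1271250, nat_lit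 1271250, nat_lit 1271250, nat_lit 1271250, [nat_lit 1100000, nat_lit 2127500, nat_lit 1271250], [nat_lit 83, nat_lit 40, nat_lit 40, nat_lit 80, nat_lit 73, nat_lit 538, nat_lit 300, nat_lit 11]⟩,
 zbF0, [⟨nat_lit 7, nat_lit 77, nat_lit 100, nat_lit 91, nat_lit 348539560⟩, ⟨nat_lit 22, nat_lit 91, nat_lit 100, nat_lit 88, nat_lit 20081208⟩]⟩
noncomputable def p118_l62 : Lf2 := ⟨nat_lit 0, nat_lit 30, [nat_lit 15, nat_lit 5, nat_lit 5, nat_lit 20], false, nat_lit 8, nat_lit 160, nat_lit 160, nat_lit 364, ⟨nat_lit 1000, nat_lit 0, nat_lit 0, nat_lit 0, nat_lit 0, nat_lit 0, nat_lit 0, nat_lit 0, nat_lit 0, nat_lit 0, nat_lit 0, nat_lit 0, nat_lit 0, nat_lit 0, nat_lit 0, nat_lit 0, false, false⟩,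
 nat_lit 7641, nat_lit 0, nat_lit 10110, nat_lit 3660, nat_lit 6774, nat_lit 9397, nat_lit 66, nat_lit 0, nat_lit 0, nat_lit 704, nat_lit 0, nat_lit 0, nat_lit 0, nat_lit 0, nat_lit 0, nat_lit 0, nat_lit 0, nat_lit 0, [],
 ⟨p118_k20, nat_lit 0, nat_lit 0, nat_lit 197, nat_lit 0, nat_lit 42713, [nat_lit 938000000, nat_lit 4688000000, nat_lit 7968000000], [], [nat_lit 33282045638, nat_lit 33756213356, nat_lit 40457576791, nat_lit 40790877283, nat_lit 28449332270, nat_lit 28789014212, nat_lit 34548628997, nat_lit 34836402427], nat_lit 1271250, nat_lit 1271250, nat_lit 1271250, nat_lit 1271250, nat_lit 43600, nat_lit 1100001, [nat_lit 230000, nat_lit 1100000, nat_lit 1785000], [nat_lit 57, nat_lit 40, nat_lit 40, nat_lit 80, nat_lit 7, nat_lit 249, nat_lit 40, nat_lit 7]⟩, ⟨p118_k7, nat_lit 0, nat_lit 0, nat_lit 231, nat_lit 0, nat_lit 84294, [nat_lit 4688000000, nat_lit 9842000000, nat_lit 16400000000], [], [nat_lit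 29376864468, nat_lit 28926203552, nat_lit 33684610455, nat_lit 34341738429, nat_lit 32923222507, nat_lit 33414932284, nat_lit 37370955288, nat_lit 37881204109], nat_lit 1271250, nat_lit 1271250, nat_lit 1271250, nat_lit 1271250, nat_lit 1271250, nat_lit 1271250, [nat_lit 1100000, nat_lit 2127500, nat_lit 1271250], [nat_lit 83, nat_lit 40, nat_lit 40, nat_lit 80, nat_lit 73, nat_lit 538, nat_lit 300, nat_lit 11]⟩,
 zbF0, [⟨nat_lit 19, nat_lit 100, nat_lit 77, nat_lit 91, nat_lit 338324252⟩, ⟨nat_lit 22, nat_lit 92, nat_lit 100, nat_lit 88, nat_lit 17525459⟩]⟩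
noncomputable def p118_l63 : Lf2 := ⟨nat_lit 1, nat_lit 30, [nat_lit 15, nat_lit 5, nat_lit 5, nat_lit 20], false, nat_lit 8, nat_lit 160, nat_lit 160, nat_lit 364, zbN0,
 nat_lit 0, nat_lit 0, nat_lit 0, nat_lit 0, nat_lit 0, nat_lit 0, nat_lit 0, nat_lit 0, nat_lit 0, nat_lit 0, nat_lit 0, nat_lit 0, nat_lit 0, nat_lit 0, nat_lit 0, nat_lit 0, nat_lit 0, nat_lit 0, [],
 C1.Rw.none, C1.Rw.none,
 zbF0, []⟩
noncomputable def p118_l64 : Lf2 := ⟨nat_lit 0, nat_lit 25, [nat_lit 44, nat_lit 5, nat_lit 5, nat_lit 20], false, nat_lit 12, nat_lit 160, nat_lit 160, nat_lit 352, ⟨nat_lit 1000, nat_lit 0, nat_lit 0, nat_lit 0, nat_lit 0, nat_lit 0, nat_lit 0, nat_lit 0, nat_lit 0, nat_lit 0, nat_lit 0, nat_lit 0, nat_lit 0, nat_lit 0, nat_lit 0, nat_lit 0, false, false⟩,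
 nat_lit 11240, nat_lit 0, nat_lit 0, nat_lit 13368, nat_lit 6462, nat_lit 5950, nat_lit 97, nat_lit 0, nat_lit 0, nat_lit 0, nat_lit 0, nat_lit 0, nat_lit 0, nat_lit 0, nat_lit 0, nat_lit 0, nat_lit 0, nat_lit 0, [],
 ⟨p118_k21, nat_lit 0, nat_lit 0, nat_lit 191, nat_lit 0, nat_lit 21967, [nat_lit 938000000, nat_lit 4688000000, nat_lit 7968000000], [], [nat_lit 32894435334, nat_lit 33812218459, nat_lit 39502115875, nat_lit 40161220751, nat_lit 28616449206, nat_lit 29277881472, nat_lit 34197792808, nat_lit 34766166088], nat_lit 1271250, nat_lit 1271250, nat_lit 1271250, nat_lit 1271250, nat_lit 65850, nat_lit 1100001, [nat_lit 230000, nat_lit 1100000, nat_lit 1785000], [nat_lit 57, nat_lit 40, nat_lit 40, nat_lit 80, nat_lit 7, nat_lit 249, nat_lit 40, nat_lit 7]⟩, ⟨p118_k1, nat_lit 0, nat_lit 0, nat_lit 117, nat_lit 0, nat_lit 44141, [nat_lit 4688000000, nat_lit 9842000000, nat_lit 14058000000], [], [nat_lit 15315140800,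 nat_lit 17953629000, nat_lit 24863034520, nat_lit 26568312921, nat_lit 25538011480, nat_lit 27064727000, nat_lit 31921048017, nat_lit 33025110577], nat_lit 1271250, nat_lit 1271250, nat_lit 1271250, nat_lit 1271250, nat_lit 1271250, nat_lit 1271250, [nat_lit 1100000, nat_lit 2127500, nat_lit 1271250], [nat_lit 56, nat_lit 40, nat_lit 40, nat_lit 80, nat_lit 32, nat_lit 483, nat_lit 250, nat_lit 10]⟩,
 zbF0, [⟨nat_lit 7, nat_lit 81, nat_lit 100, nat_lit 88, nat_lit 421563682⟩, ⟨nat_lit 22, nat_lit 93, nat_lit 100, nat_lit 90, nat_lit 35236629⟩]⟩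
noncomputable def p118_l65 : Lf2 := ⟨nat_lit 0, nat_lit 30, [nat_lit 15, nat_lit 5, nat_lit 5, nat_lit 20], false, nat_lit 20, nat_lit 160, nat_lit 160, nat_lit 364, ⟨nat_lit 1000, nat_lit 0, nat_lit 0, nat_lit 0, nat_lit 0, nat_lit 0, nat_lit 0, nat_lit 0, nat_lit 0, nat_lit 0, nat_lit 0, nat_lit 0, nat_lit 0, nat_lit 0, nat_lit 0, nat_lit 0, false, false⟩,
 nat_lit 7294, nat_lit 0, nat_lit 10583, nat_lit 11199, nat_lit 6582, nat_lit 9464, nat_lit 90, nat_lit 0, nat_lit 0, nat_lit 706, nat_lit 0, nat_lit 0, nat_lit 0, nat_lit 0, nat_lit 0, nat_lit 0, nat_lit 0, nat_lit 0, [],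
 ⟨p118_k2, nat_lit 0, nat_lit 0, nat_lit 187, nat_lit 0, nat_lit 27219, [nat_lit 938000000, nat_lit 4688000000, nat_lit 7968000000], [], [nat_lit 32604487425, nat_lit 33527693004, nat_lit 39239202923, nat_lit 39898821488, nat_lit 28538104016, nat_lit 29313769192, nat_lit 34268379680, nat_lit 34842213968], nat_lit 1271250, nat_lit 1271250, nat_lit 1271250, nat_lit 1271250, nat_lit 111251, nat_lit 1100001, [nat_lit 230000, nat_lit 1100000, nat_lit 1785000], [nat_lit 57, nat_lit 40, nat_lit 40, nat_lit 80, nat_lit 7, nat_lit 249, nat_lit 40, nat_lit 7]⟩, ⟨p118_k7, nat_lit 0, nat_lit 0, nat_lit 218, nat_lit 0, nat_lit 55064, [nat_lit 4688000000, nat_lit 9842000000, nat_lit 16400000000], [], [nat_lit 29295596416, nat_lit 28873429574, nat_lit 33396777882, nat_lit 34075647181, nat_lit 32872168312, nat_lit 33361364758, nat_lit 37124220395, nat_lit 37652941081], nat_lit 1271250, nat_lit 1271250, nat_lit 1271250, nat_lit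 1271250, nat_lit 1271250, nat_lit 1271250, [nat_lit 1100000, nat_lit 2127500, nat_lit 1271250], [nat_lit 83, nat_lit 40, nat_lit 40, nat_lit 80, nat_lit 73, nat_lit 538, nat_lit 300, nat_lit 11]⟩,
 zbF0, [⟨nat_lit 7, nat_lit 73, nat_lit 100, nat_lit 94, nat_lit 343507439⟩]⟩
noncomputable def p118_l66 : Lf2 := ⟨nat_lit 0, nat_lit 30, [nat_lit 15, nat_lit 5, nat_lit 5, nat_lit 20], false, nat_lit 160, nat_lit 248, nat_lit 160, nat_lit 364, ⟨nat_lit 1000, nat_lit 0, nat_lit 0, nat_lit 0, nat_lit 0, nat_lit 0, nat_lit 0, nat_lit 0, nat_lit 0, nat_lit 0, nat_lit 0, nat_lit 0, nat_lit 0, nat_lit 0, nat_lit 0, nat_lit 0, false, false⟩,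
 nat_lit 17626, nat_lit 0, nat_lit 0, nat_lit 12526, nat_lit 10096, nat_lit 9331, nat_lit 0, nat_lit 0, nat_lit 0, nat_lit 705, nat_lit 0, nat_lit 0, nat_lit 0, nat_lit 0, nat_lit 0, nat_lit 0, nat_lit 0, nat_lit 0, [],
 ⟨p118_k4, nat_lit 0, nat_lit 0, nat_lit 109, nat_lit 0, nat_lit 19636, [nat_lit 938000000, nat_lit 4688000000, nat_lit 9842000000], [], [nat_lit 30425811936, nat_lit 30901736836, nat_lit 37457929754, nat_lit 37781549161, nat_lit 31487651393, nat_lit 31885923499, nat_lit 37733826230, nat_lit 38146125210], nat_lit 1271250, nat_lit 1271250, nat_lit 1271250, nat_lit 1271250, nat_lit 1100001, nat_lit 1853500, [nat_lit 230000, nat_lit 1100000, nat_lit 2127500], [nat_lit 81, nat_lit 40, nat_lit 40, nat_lit 80, nat_lit 13, nat_lit 401, nat_lit 175, nat_lit 10]⟩, ⟨p118_k7, nat_lit 0, nat_lit 0, nat_lit 215, nat_lit 0, nat_lit 38477, [nat_lit 4688000000, nat_lit 9842000000, nat_lit 16400000000], [], [nat_lit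 29456919564, nat_lit 28927316771, nat_lit 33918983353, nat_lit 34554628079, nat_lit 32922641612, nat_lit 33416827208, nat_lit 37615618807, nat_lit 38107611318], nat_lit 1271250, nat_lit 1271250, nat_lit 1271250, nat_lit 1271250, nat_lit 1271250, nat_lit 1271250, [nat_lit 1100000, nat_lit 2127500, nat_lit 1271250], [nat_lit 83, nat_lit 40, nat_lit 40, nat_lit 80, nat_lit 73, nat_lit 538, nat_lit 300, nat_lit 11]⟩,
 zbF0, [⟨nat_lit 16, nat_lit 59, nat_lit 100, nat_lit 87, nat_lit 497315265⟩, ⟨nat_lit 7, nat_lit 77, nat_lit 100, nat_lit 91, nat_lit 354151457⟩]⟩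
noncomputable def p118_l67 : Lf2 := ⟨nat_lit 0, nat_lit 30, [nat_lit 15, nat_lit 5, nat_lit 5, nat_lit 20], false, nat_lit 160, nat_lit 240, nat_lit 160, nat_lit 364, ⟨nat_lit 1000, nat_lit 0, nat_lit 0, nat_lit 0, nat_lit 0, nat_lit 0, nat_lit 0, nat_lit 0, nat_lit 0, nat_lit 0, nat_lit 0, nat_lit 0, nat_lit 0, nat_lit 0, nat_lit 0, nat_lit 0, false, false⟩,
 nat_lit 17751, nat_lit 0, nat_lit 0, nat_lit 10424, nat_lit 8242, nat_lit 9397, nat_lit 0, nat_lit 0, nat_lit 0, nat_lit 703, nat_lit 0, nat_lit 0, nat_lit 0, nat_lit 0, nat_lit 0, nat_lit 0, nat_lit 0, nat_lit 0, [],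
 ⟨p118_k20, nat_lit 0, nat_lit 0, nat_lit 121, nat_lit 0, nat_lit 42713, [nat_lit 938000000, nat_lit 4688000000, nat_lit 7968000000], [], [nat_lit 28350494248, nat_lit 28807286216, nat_lit 35093036343, nat_lit 35413577808, nat_lit 29564477142, nat_lit 29956308324, nat_lit 35446805951, nat_lit 35822168953], nat_lit 1271250, nat_lit 1271250, nat_lit 1271250, nat_lit 1271250, nat_lit 1100001, nat_lit 1785000, [nat_lit 230000, nat_lit 1100000, nat_lit 1785000], [nat_lit 57, nat_lit 40, nat_lit 40, nat_lit 80, nat_lit 7, nat_lit 272, nat_lit 60, nat_lit 7]⟩, ⟨p118_k7, nat_lit 0, nat_lit 0, nat_lit 231, nat_lit 0, nat_lit 84294, [nat_lit 4688000000, nat_lit 9842000000, nat_lit 16400000000], [], [nat_lit 29376864468, nat_lit 28943331677, nat_lit 33701738580, nat_lit 34358866554, nat_lit 32940350632, nat_lit 33432060409, nat_lit 37370955288, nat_lit 37881204109], nat_lit 1271250, nat_lit 1271250, nat_lit 1271250, nat_lit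 1271250, nat_lit 1271250, nat_lit 1271250, [nat_lit 1100000, nat_lit 2127500, nat_lit 1271250], [nat_lit 83, nat_lit 40, nat_lit 40, nat_lit 80, nat_lit 73, nat_lit 538, nat_lit 300, nat_lit 11]⟩,
 zbF0, [⟨nat_lit 4, nat_lit 100, nat_lit 55, nat_lit 87, nat_lit 578495378⟩, ⟨nat_lit 7, nat_lit 77, nat_lit 100, nat_lit 91, nat_lit 353569527⟩]⟩
noncomputable def p118_l68 : Lf2 := ⟨nat_lit 1, nat_lit 30, [nat_lit 15, nat_lit 5, nat_lit 5, nat_lit 20], false, nat_lit 160, nat_lit 248, nat_lit 160, nat_lit 364, zbN0,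
 nat_lit 0, nat_lit 0, nat_lit 0, nat_lit 0, nat_lit 0, nat_lit 0, nat_lit 0, nat_lit 0, nat_lit 0, nat_lit 0, nat_lit 0, nat_lit 0, nat_lit 0, nat_lit 0, nat_lit 0, nat_lit 0, nat_lit 0, nat_lit 0, [],
 C1.Rw.none, C1.Rw.none,
 zbF0, []⟩
noncomputable def p118_l69 : Lf2 := ⟨nat_lit 0, nat_lit 25, [nat_lit 44, nat_lit 5, nat_lit 5, nat_lit 20], false, nat_lit 160, nat_lit 208, nat_lit 160, nat_lit 352, ⟨nat_lit 1000, nat_lit 0, nat_lit 0, nat_lit 0, nat_lit 0, nat_lit 0, nat_lit 0, nat_lit 0, nat_lit 0, nat_lit 0, nat_lit 0, nat_lit 0, nat_lit 0, nat_lit 0, nat_lit 0, nat_lit 0, false, false⟩,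
 nat_lit 10310, nat_lit 0, nat_lit 0, nat_lit 17065, nat_lit 8147, nat_lit 5457, nat_lit 0, nat_lit 0, nat_lit 0, nat_lit 0, nat_lit 0, nat_lit 0, nat_lit 0, nat_lit 0, nat_lit 0, nat_lit 0, nat_lit 0, nat_lit 0, [],
 ⟨p118_k21, nat_lit 0, nat_lit 0, nat_lit 111, nat_lit 0, nat_lit 21967, [nat_lit 938000000, nat_lit 4688000000, nat_lit 7968000000], [], [nat_lit 28858268156, nat_lit 29764916332, nat_lit 35172061594, nat_lit 35817116528, nat_lit 29552260003, nat_lit 30381717098, nat_lit 35236068916, nat_lit 36027233010], nat_lit 1271250, nat_lit 1271250, nat_lit 1271250, nat_lit 1271250, nat_lit 1100001, nat_lit 1511000, [nat_lit 230000, nat_lit 1100000, nat_lit 1785000], [nat_lit 57, nat_lit 40, nat_lit 40, nat_lit 80, nat_lit 7, nat_lit 272, nat_lit 60, nat_lit 7]⟩, ⟨p118_k1, nat_lit 0, nat_lit 0, nat_lit 117, nat_lit 0, nat_lit 44141, [nat_lit 4688000000, nat_lit 9842000000, nat_lit 14058000000], [], [nat_lit 16020809168,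 nat_lit 18544923340, nat_lit 25120563128, nat_lit 26774372328, nat_lit 25858006737, nat_lit 27344394068, nat_lit 31536322169, nat_lit 32496342289], nat_lit 1271250, nat_lit 1271250, nat_lit 1271250, nat_lit 1271250, nat_lit 1271250, nat_lit 1271250, [nat_lit 1100000, nat_lit 2127500, nat_lit 1271250], [nat_lit 56, nat_lit 40, nat_lit 40, nat_lit 80, nat_lit 32, nat_lit 483, nat_lit 250, nat_lit 10]⟩,
 zbF0, [⟨nat_lit 13, nat_lit 51, nat_lit 72, nat_lit 100, nat_lit 12264966⟩, ⟨nat_lit 4, nat_lit 100, nat_lit 49, nat_lit 84, nat_lit 532358813⟩, ⟨nat_lit 7, nat_lit 81, nat_lit 100, nat_lit 88, nat_lit 433311858⟩]⟩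
noncomputable def p118_l70 : Lf2 := ⟨nat_lit 0, nat_lit 30, [nat_lit 15, nat_lit 5, nat_lit 5, nat_lit 20], false, nat_lit 160, nat_lit 232, nat_lit 160, nat_lit 364, ⟨nat_lit 1000, nat_lit 0, nat_lit 0, nat_lit 0, nat_lit 0, nat_lit 0, nat_lit 0, nat_lit 0, nat_lit 0, nat_lit 0, nat_lit 0, nat_lit 0, nat_lit 0, nat_lit 0, nat_lit 0, nat_lit 0, false, false⟩,
 nat_lit 17917, nat_lit 0, nat_lit 0, nat_lit 15067, nat_lit 8226, nat_lit 9485, nat_lit 0, nat_lit 0, nat_lit 0, nat_lit 715, nat_lit 0, nat_lit 0, nat_lit 0, nat_lit 0, nat_lit 0, nat_lit 0, nat_lit 0, nat_lit 0, [],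
 ⟨p118_k2, nat_lit 0, nat_lit 0, nat_lit 94, nat_lit 0, nat_lit 10901, [nat_lit 938000000, nat_lit 4688000000, nat_lit 7968000000], [], [nat_lit 28815872648, nat_lit 29272080552, nat_lit 35158277326, nat_lit 35482602375, nat_lit 29851149240, nat_lit 30248988672, nat_lit 35455463170, nat_lit 35841721009], nat_lit 1271250, nat_lit 1271250, nat_lit 1271250, nat_lit 1271250, nat_lit 1100001, nat_lit 1716500, [nat_lit 230000, nat_lit 1100000, nat_lit 1785000], [nat_lit 57, nat_lit 40, nat_lit 40, nat_lit 80, nat_lit 7, nat_lit 272, nat_lit 60, nat_lit 7]⟩, ⟨p118_k7, nat_lit 0, nat_lit 0, nat_lit 207, nat_lit 0, nat_lit 25075, [nat_lit 4688000000, nat_lit 9842000000, nat_lit 16400000000], [], [nat_lit 27338617045, nat_lit 28713472385, nat_lit 33241827613, nat_lit 33920246521, nat_lit 32712750159, nat_lit 33201158846, nat_lit 37116027832, nat_lit 37676208089], nat_lit 1271250, nat_lit 1271250, nat_lit 1271250, nat_lit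 1271250, nat_lit 1271250, nat_lit 1271250, [nat_lit 1100000, nat_lit 2127500, nat_lit 1271250], [nat_lit 83, nat_lit 40, nat_lit 40, nat_lit 80, nat_lit 73, nat_lit 538, nat_lit 300, nat_lit 11]⟩,
 zbF0, [⟨nat_lit 4, nat_lit 100, nat_lit 51, nat_lit 89, nat_lit 596803730⟩, ⟨nat_lit 19, nat_lit 100, nat_lit 73, nat_lit 94, nat_lit 348380449⟩]⟩
noncomputable def p118_l71 : Lf2 := ⟨nat_lit 0, nat_lit 30, [nat_lit 15, nat_lit 5, nat_lit 5, nat_lit 20], false, nat_lit 160, nat_lit 220, nat_lit 160, nat_lit 364, ⟨nat_lit 1000, nat_lit 0, nat_lit 0, nat_lit 0, nat_lit 0, nat_lit 0, nat_lit 0, nat_lit 0, nat_lit 0, nat_lit 0, nat_lit 0, nat_lit 0, nat_lit 0, nat_lit 0, nat_lit 0, nat_lit 0, false, false⟩,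
 nat_lit 18539, nat_lit 0, nat_lit 0, nat_lit 13261, nat_lit 8268, nat_lit 9814, nat_lit 0, nat_lit 0, nat_lit 0, nat_lit 721, nat_lit 0, nat_lit 0, nat_lit 0, nat_lit 0, nat_lit 0, nat_lit 0, nat_lit 0, nat_lit 0, [],
 ⟨p118_k22, nat_lit 0, nat_lit 0, nat_lit 106, nat_lit 0, nat_lit 26237, [nat_lit 938000000, nat_lit 4688000000, nat_lit 7968000000], [], [nat_lit 29251074336, nat_lit 29708815408, nat_lit 34967425466, nat_lit 35301023992, nat_lit 30062423652, nat_lit 30471313816, nat_lit 35212291806, nat_lit 35619841750], nat_lit 1271250, nat_lit 1271250, nat_lit 1271250, nat_lit 1271250, nat_lit 1100001, nat_lit 1613750, [nat_lit 230000, nat_lit 1100000, nat_lit 1785000], [nat_lit 57, nat_lit 40, nat_lit 40, nat_lit 80, nat_lit 7, nat_lit 272, nat_lit 60, nat_lit 7]⟩, ⟨p118_k7, nat_lit 0, nat_lit 0, nat_lit 215, nat_lit 0, nat_lit 54107, [nat_lit 4688000000, nat_lit 9842000000, nat_lit 16400000000], [], [nat_lit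 27131348683, nat_lit 28519773299, nat_lit 32611631883, nat_lit 33331117315, nat_lit 32527495977, nat_lit 33004130468, nat_lit 36535861782, nat_lit 37423327332], nat_lit 1271250, nat_lit 1271250, nat_lit 1271250, nat_lit 1271250, nat_lit 1271250, nat_lit 1271250, [nat_lit 1100000, nat_lit 2127500, nat_lit 1271250], [nat_lit 83, nat_lit 40, nat_lit 40, nat_lit 80, nat_lit 73, nat_lit 538, nat_lit 300, nat_lit 11]⟩,
 zbF0, [⟨nat_lit 4, nat_lit 100, nat_lit 46, nat_lit 89, nat_lit 644026961⟩, ⟨nat_lit 7, nat_lit 73, nat_lit 100, nat_lit 94, nat_lit 356961391⟩]⟩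
noncomputable def p118_l72 : Lf2 := ⟨nat_lit 1, nat_lit 30, [nat_lit 15, nat_lit 5, nat_lit 5, nat_lit 20], false, nat_lit 160, nat_lit 232, nat_lit 160, nat_lit 364, zbN0,
 nat_lit 0, nat_lit 0, nat_lit 0, nat_lit 0, nat_lit 0, nat_lit 0, nat_lit 0, nat_lit 0, nat_lit 0, nat_lit 0, nat_lit 0, nat_lit 0, nat_lit 0, nat_lit 0, nat_lit 0, nat_lit 0, nat_lit 0, nat_lit 0, [],
 C1.Rw.none, C1.Rw.none,
 zbF0, []⟩
noncomputable def p118_l73 : Lf2 := ⟨nat_lit 1, nat_lit 30, [nat_lit 15, nat_lit 5, nat_lit 5, nat_lit 20], false, nat_lit 8, nat_lit 248, nat_lit 0, nat_lit 364, zbN0,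
 nat_lit 0, nat_lit 0, nat_lit 0, nat_lit 0, nat_lit 0, nat_lit 0, nat_lit 0, nat_lit 0, nat_lit 0, nat_lit 0, nat_lit 0, nat_lit 0, nat_lit 0, nat_lit 0, nat_lit 0, nat_lit 0, nat_lit 0, nat_lit 0, [],
 C1.Rw.none, C1.Rw.none,
 zbF0, []⟩
noncomputable def b_V_900_600_20_85 : St := ⟨true, nat_lit 1, nat_lit 1, nat_lit 1, nat_lit 120, nat_lit 360, nat_lit 380, nat_lit 240, nat_lit 280, nat_lit 240, nat_lit 376, nat_lit 80, nat_lit 120, nat_lit 8, nat_lit 248, nat_lit 0, nat_lit 364, nat_lit 120, nat_lit 156, nat_lit 0, nat_lit 0, nat_lit 0, nat_lit 0⟩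
theorem d_V_900_600_20_85 (h : EB TB.env) : Dead b_V_900_600_20_85 := chkB_sound0 h (T :=
(.spl (nat_lit 6) (nat_lit 136)
(.spl (nat_lit 5) (nat_lit 160)
(.spl (nat_lit 0) (nat_lit 370)
(.leaf p118_l59)
(.trX (nat_lit 13) (nat_lit 57) (nat_lit 62) (nat_lit 100) (nat_lit 368) (.trZ (nat_lit 3) (nat_lit 100) (nat_lit 66) (nat_lit 45) (nat_lit 12) (.trX (nat_lit 16) (nat_lit 53) (nat_lit 100) (nat_lit 93) (nat_lit 232) (.leaf p118_l60)))))
(.spl (nat_lit 4) (nat_lit 160)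
(.spl (nat_lit 0) (nat_lit 370)
(.spl (nat_lit 6) (nat_lit 128)
(.spl (nat_lit 0) (nat_lit 365)
(.leaf p118_l61)
(.trX (nat_lit 13) (nat_lit 62) (nat_lit 58) (nat_lit 100) (nat_lit 372) (.leaf p118_l62)))
(.leaf p118_l63))
(.trX (nat_lit 13) (nat_lit 57) (nat_lit 62) (nat_lit 100) (nat_lit 368) (.trZ (nat_lit 3) (nat_lit 100) (nat_lit 66) (nat_lit 45) (nat_lit 12) (.spl (nat_lit 3) (nat_lit 100)
(.trX (nat_lit 19) (nat_lit 100) (nat_lit 68) (nat_lit 88) (nat_lit 352) (.leaf p118_l64))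
(.trZ (nat_lit 3) (nat_lit 100) (nat_lit 61) (nat_lit 55) (nat_lit 20) (.leaf p118_l65))))))
(.spl (nat_lit 0) (nat_lit 370)
(.spl (nat_lit 6) (nat_lit 128)
(.spl (nat_lit 0) (nat_lit 365)
(.leaf p118_l66)
(.trX (nat_lit 13) (nat_lit 62) (nat_lit 58) (nat_lit 100) (nat_lit 372) (.trX (nat_lit 16) (nat_lit 58) (nat_lit 100) (nat_lit 93) (nat_lit 240) (.leaf p118_l67))))
(.leaf p118_l68))
(.trX (nat_lit 13) (nat_lit 57) (nat_lit 62) (nat_lit 100) (nat_lit 368) (.trX (nat_lit 16) (nat_lit 53) (nat_lit 100) (nat_lit 93) (nat_lit 232) (.spl (nat_lit 3) (nat_lit 100)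
(.trX (nat_lit 16) (nat_lit 53) (nat_lit 100) (nat_lit 87) (nat_lit 208) (.trX (nat_lit 19) (nat_lit 100) (nat_lit 68) (nat_lit 88) (nat_lit 352) (.leaf p118_l69)))
(.spl (nat_lit 6) (nat_lit 128)
(.spl (nat_lit 0) (nat_lit 375)
(.leaf p118_l70)
(.trX (nat_lit 13) (nat_lit 53) (nat_lit 66) (nat_lit 100) (nat_lit 360) (.trX (nat_lit 16) (nat_lit 49) (nat_lit 100) (nat_lit 92) (nat_lit 220) (.leaf p118_l71))))
(.leaf p118_l72))))))))
(.leaf p118_l73))) (by decide +kernel)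
noncomputable def p118_l74 : Lf2 := ⟨nat_lit 0, nat_lit 25, [nat_lit 44, nat_lit 5, nat_lit 5, nat_lit 20], false, nat_lit 20, nat_lit 80, nat_lit 0, nat_lit 336, ⟨nat_lit 1000, nat_lit 0, nat_lit 0, nat_lit 0, nat_lit 0, nat_lit 0, nat_lit 0, nat_lit 0, nat_lit 0, nat_lit 0, nat_lit 0, nat_lit 0, nat_lit 0, nat_lit 0, nat_lit 0, nat_lit 0, false, false⟩,
 nat_lit 24055, nat_lit 0, nat_lit 0, nat_lit 0, nat_lit 3755, nat_lit 12734, nat_lit 341, nat_lit 0, nat_lit 0, nat_lit 262, nat_lit 0, nat_lit 0, nat_lit 0, nat_lit 0, nat_lit 0, nat_lit 0, nat_lit 0, nat_lit 0, [],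
 ⟨p118_k15, nat_lit 0, nat_lit 0, nat_lit 185, nat_lit 0, nat_lit 70959, [nat_lit 938000000, nat_lit 3282000000, nat_lit 6250000000], [], [nat_lit 26515509513, nat_lit 27238774677, nat_lit 31410709875, nat_lit 32092002641, nat_lit 25030668900, nat_lit 25656363735, nat_lit 29583520788, nat_lit 30124589133], nat_lit 1271250, nat_lit 1271250, nat_lit 1271250, nat_lit 1271250, nat_lit 111251, nat_lit 490000, [nat_lit 230000, nat_lit 780000, nat_lit 1435000], [nat_lit 20, nat_lit 40, nat_lit 40, nat_lit 80, nat_lit 16, nat_lit 226, nat_lit 20, nat_lit 7]⟩, ⟨p118_k23, nat_lit 0, nat_lit 0, nat_lit 379, nat_lit 0, nat_lit 149310, [nat_lit 4688000000, nat_lit 7968000000, nat_lit 14058000000], [], [nat_lit 47223130912, nat_lit 47916779320, nat_lit 50455781336, nat_lit 50798273908, nat_lit 35301420792, nat_lit 35191822663, nat_lit 38059242056, nat_lit 38316292023], nat_lit 1271250, nat_lit 1271250, nat_lit 1271250, nat_lit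 1271250, nat_lit 0, nat_lit 2373000, [nat_lit 1100000, nat_lit 1785000, nat_lit 1271250], [nat_lit 37, nat_lit 40, nat_lit 40, nat_lit 80, nat_lit 28, nat_lit 483, nat_lit 250, nat_lit 11]⟩,
 zbF0, []⟩
noncomputable def p118_l75 : Lf2 := ⟨nat_lit 0, nat_lit 25, [nat_lit 44, nat_lit 5, nat_lit 5, nat_lit 20], false, nat_lit 36, nat_lit 80, nat_lit 0, nat_lit 336, ⟨nat_lit 1000, nat_lit 0, nat_lit 0, nat_lit 0, nat_lit 0, nat_lit 0, nat_lit 0, nat_lit 0, nat_lit 0, nat_lit 0, nat_lit 0, nat_lit 0, nat_lit 0, nat_lit 0, nat_lit 0, nat_lit 0, false, false⟩,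
 nat_lit 16533, nat_lit 0, nat_lit 0, nat_lit 0, nat_lit 3759, nat_lit 8752, nat_lit 218, nat_lit 0, nat_lit 0, nat_lit 815, nat_lit 0, nat_lit 0, nat_lit 0, nat_lit 0, nat_lit 0, nat_lit 0, nat_lit 0, nat_lit 0, [],
 ⟨p118_k24, nat_lit 0, nat_lit 0, nat_lit 169, nat_lit 0, nat_lit 116375, [nat_lit 938000000, nat_lit 3282000000, nat_lit 4688000000], [], [nat_lit 26182096798, nat_lit 26945188247, nat_lit 30614249939, nat_lit 31321080334, nat_lit 25085597046, nat_lit 25750726378, nat_lit 28998852907, nat_lit 29679791357], nat_lit 1271250, nat_lit 1271250, nat_lit 1271250, nat_lit 1271250, nat_lit 205650, nat_lit 490000, [nat_lit 230000, nat_lit 780000, nat_lit 1100000], [nat_lit 35, nat_lit 40, nat_lit 40, nat_lit 80, nat_lit 22, nat_lit 226, nat_lit 20, nat_lit 9]⟩, ⟨p118_k23, nat_lit 0, nat_lit 0, nat_lit 413, nat_lit 0, nat_lit 255450, [nat_lit 4688000000, nat_lit 7968000000, nat_lit 14058000000], [], [nat_lit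 37878990136, nat_lit 38630727960, nat_lit 40319189305, nat_lit 40721550533, nat_lit 31493773176, nat_lit 31649021400, nat_lit 33516681164, nat_lit 34018195896], nat_lit 1271250, nat_lit 1271250, nat_lit 1271250, nat_lit 1271250, nat_lit 0, nat_lit 2373000, [nat_lit 1100000, nat_lit 1785000, nat_lit 1271250], [nat_lit 37, nat_lit 40, nat_lit 40, nat_lit 80, nat_lit 28, nat_lit 483, nat_lit 250, nat_lit 11]⟩,
 zbF0, [⟨nat_lit 0, nat_lit 96, nat_lit 22, nat_lit 100, nat_lit 293837020⟩, ⟨nat_lit 19, nat_lit 100, nat_lit 81, nat_lit 88, nat_lit 97151425⟩]⟩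
noncomputable def p118_l76 : Lf2 := ⟨nat_lit 1, nat_lit 25, [nat_lit 44, nat_lit 5, nat_lit 5, nat_lit 20], false, nat_lit 20, nat_lit 80, nat_lit 0, nat_lit 336, zbN0,
 nat_lit 0, nat_lit 0, nat_lit 0, nat_lit 0, nat_lit 0, nat_lit 0, nat_lit 0, nat_lit 0, nat_lit 0, nat_lit 0, nat_lit 0, nat_lit 0, nat_lit 0, nat_lit 0, nat_lit 0, nat_lit 0, nat_lit 0, nat_lit 0, [],
 C1.Rw.none, C1.Rw.none,
 zbF0, []⟩
noncomputable def p118_l77 : Lf2 := ⟨nat_lit 0, nat_lit 30, [nat_lit 15, nat_lit 5, nat_lit 5, nat_lit 20], false, nat_lit 32, nat_lit 80, nat_lit 0, nat_lit 160, ⟨nat_lit 1000, nat_lit 0, nat_lit 0, nat_lit 0, nat_lit 0, nat_lit 0, nat_lit 0, nat_lit 0, nat_lit 0, nat_lit 0, nat_lit 0, nat_lit 0, nat_lit 0, nat_lit 0, nat_lit 0, nat_lit 0, false, false⟩,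
 nat_lit 12366, nat_lit 0, nat_lit 0, nat_lit 0, nat_lit 3478, nat_lit 6546, nat_lit 527, nat_lit 0, nat_lit 0, nat_lit 666, nat_lit 0, nat_lit 0, nat_lit 0, nat_lit 0, nat_lit 0, nat_lit 0, nat_lit 0, nat_lit 0, [],
 ⟨p118_k6, nat_lit 0, nat_lit 0, nat_lit 220, nat_lit 0, nat_lit 125544, [nat_lit 938000000, nat_lit 4688000000, nat_lit 7968000000], [], [nat_lit 24800723416, nat_lit 26488864717, nat_lit 30307338859, nat_lit 31613134144, nat_lit 23938468095, nat_lit 24936922928, nat_lit 28712556717, nat_lit 29986029256], nat_lit 1271250, nat_lit 1271250, nat_lit 1271250, nat_lit 1271250, nat_lit 181601, nat_lit 490000, [nat_lit 230000, nat_lit 1100000, nat_lit 1785000], [nat_lit 57, nat_lit 40, nat_lit 40, nat_lit 80, nat_lit 7, nat_lit 226, nat_lit 20, nat_lit 6]⟩, ⟨p118_k7, nat_lit 0, nat_lit 0, nat_lit 483, nat_lit 0, nat_lit 265993, [nat_lit 4688000000, nat_lit 9842000000, nat_lit 16400000000], [], [nat_lit 40946608102,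 nat_lit 41846157118, nat_lit 44181804246, nat_lit 44994311002, nat_lit 36129445896, nat_lit 37167384536, nat_lit 39620051976, nat_lit 40307907400], nat_lit 1271250, nat_lit 1271250, nat_lit 1271250, nat_lit 1271250, nat_lit 0, nat_lit 1100001, [nat_lit 1100000, nat_lit 2127500, nat_lit 1271250], [nat_lit 83, nat_lit 40, nat_lit 40, nat_lit 80, nat_lit 73, nat_lit 428, nat_lit 200, nat_lit 9]⟩,
 zbF0, [⟨nat_lit 0, nat_lit 95, nat_lit 31, nat_lit 100, nat_lit 140254520⟩, ⟨nat_lit 3, nat_lit 100, nat_lit 35, nat_lit 79, nat_lit 76870403⟩]⟩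
noncomputable def p118_l78 : Lf2 := ⟨nat_lit 0, nat_lit 30, [nat_lit 15, nat_lit 5, nat_lit 5, nat_lit 20], false, nat_lit 32, nat_lit 80, nat_lit 160, nat_lit 336, ⟨nat_lit 1000, nat_lit 0, nat_lit 0, nat_lit 0, nat_lit 0, nat_lit 0, nat_lit 0, nat_lit 0, nat_lit 0, nat_lit 0, nat_lit 0, nat_lit 0, nat_lit 0, nat_lit 0, nat_lit 0, nat_lit 0, false, false⟩,
 nat_lit 14181, nat_lit 0, nat_lit 0, nat_lit 0, nat_lit 3404, nat_lit 7507, nat_lit 547, nat_lit 0, nat_lit 0, nat_lit 712, nat_lit 0, nat_lit 0, nat_lit 0, nat_lit 0, nat_lit 0, nat_lit 0, nat_lit 0, nat_lit 0, [],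
 ⟨p118_k6, nat_lit 0, nat_lit 0, nat_lit 191, nat_lit 0, nat_lit 75558, [nat_lit 938000000, nat_lit 4688000000, nat_lit 7968000000], [], [nat_lit 24640174117, nat_lit 25487582150, nat_lit 30130854708, nat_lit 30777293234, nat_lit 23508416027, nat_lit 24014121707, nat_lit 28583146583, nat_lit 29213612596], nat_lit 1271250, nat_lit 1271250, nat_lit 1271250, nat_lit 1271250, nat_lit 181601, nat_lit 490000, [nat_lit 230000, nat_lit 1100000, nat_lit 1785000], [nat_lit 57, nat_lit 40, nat_lit 40, nat_lit 80, nat_lit 7, nat_lit 226, nat_lit 20, nat_lit 6]⟩, ⟨p118_k7, nat_lit 0, nat_lit 0, nat_lit 254, nat_lit 0, nat_lit 160087, [nat_lit 4688000000, nat_lit 9842000000, nat_lit 16400000000], [], [nat_lit 31669351308, nat_lit 29311544312, nat_lit 32532640904, nat_lit 33329207610, nat_lit 32006249984, nat_lit 32689280159, nat_lit 35808171324, nat_lit 36592734414], nat_lit 1271250, nat_lit 1271250, nat_lit 1271250, nat_lit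 1271250, nat_lit 1271250, nat_lit 1271250, [nat_lit 1100000, nat_lit 2127500, nat_lit 1271250], [nat_lit 83, nat_lit 40, nat_lit 40, nat_lit 80, nat_lit 73, nat_lit 483, nat_lit 250, nat_lit 10]⟩,
 zbF0, [⟨nat_lit 7, nat_lit 73, nat_lit 100, nat_lit 94, nat_lit 231149169⟩, ⟨nat_lit 22, nat_lit 100, nat_lit 76, nat_lit 82, nat_lit 25427213⟩]⟩
noncomputable def p118_l79 : Lf2 := ⟨nat_lit 0, nat_lit 30, [nat_lit 15, nat_lit 5, nat_lit 5, nat_lit 20], false, nat_lit 48, nat_lit 80, nat_lit 160, nat_lit 336, ⟨nat_lit 742, nat_lit 234, nat_lit 24, nat_lit 6, nat_lit 275, nat_lit 258, nat_lit 64, nat_lit 24, nat_lit 38400, nat_lit 263, nat_lit 286786, nat_lit 200, nat_lit 43799395, nat_lit 21032523, nat_lit 2168082, nat_lit 3921480, true, true⟩,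
 nat_lit 8388, nat_lit 0, nat_lit 0, nat_lit 0, nat_lit 3106, nat_lit 4440, nat_lit 325, nat_lit 0, nat_lit 0, nat_lit 477, nat_lit 0, nat_lit 0, nat_lit 0, nat_lit 0, nat_lit 0, nat_lit 64500, nat_lit 0, nat_lit 0, [(nat_lit 29, [(nat_lit 0, nat_lit 234), (nat_lit 4, nat_lit 24)])],
 ⟨p118_k8, nat_lit 0, nat_lit 0, nat_lit 176, nat_lit 0, nat_lit 120305, [nat_lit 897168800, nat_lit 3757882400, nat_lit 4992589600], [], [nat_lit 24476422374, nat_lit 25276958935, nat_lit 28760357424, nat_lit 29402195768, nat_lit 23848934303, nat_lit 24407275912, nat_lit 27855997359, nat_lit 28486836104], nat_lit 1271250, nat_lit 1271250, nat_lit 1271250, nat_lit 1271250, nat_lit 279600, nat_lit 490000, [nat_lit 230000, nat_lit 1100000, nat_lit 1442500], [nat_lit 55, nat_lit 40, nat_lit 40, nat_lit 80, nat_lit 3, nat_lit 226, nat_lit 20, nat_lit 7]⟩, ⟨p118_k7, nat_lit 0, nat_lit 0, nat_lit 293, nat_lit 0, nat_lit 265993, [nat_lit 3478496000,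 nat_lit 7302764000, nat_lit 12168800000], [], [nat_lit 24869534264, nat_lit 23253218199, nat_lit 24669429398, nat_lit 25249216985, nat_lit 24996412955, nat_lit 25525794430, nat_lit 26883580800, nat_lit 27423821178], nat_lit 1271250, nat_lit 1271250, nat_lit 1271250, nat_lit 1271250, nat_lit 1271250, nat_lit 1271250, [nat_lit 1100000, nat_lit 2127500, nat_lit 1271250], [nat_lit 83, nat_lit 40, nat_lit 40, nat_lit 80, nat_lit 73, nat_lit 483, nat_lit 250, nat_lit 10]⟩,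
 ⟨nat_lit 0, nat_lit 1582, ⟨.ofNat (nat_lit 601257), .ofNat (nat_lit 732386), .ofNat (nat_lit 646579), .ofNat (nat_lit 779018), .ofNat (nat_lit 599992), .ofNat (nat_lit 719995), .ofNat (nat_lit 648683), .ofNat (nat_lit 769997)⟩, ⟨.ofNat (nat_lit 120000), .ofNat (nat_lit 200000), .ofNat (nat_lit 120000), .ofNat (nat_lit 200000), .ofNat (nat_lit 120000), .ofNat (nat_lit 200000), .ofNat (nat_lit 120000), .ofNat (nat_lit 200000)⟩⟩, [⟨nat_lit 0, nat_lit 96, nat_lit 22, nat_lit 100, nat_lit 629173430⟩, ⟨nat_lit 22, nat_lit 100, nat_lit 76, nat_lit 82, nat_lit 210690806⟩]⟩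
noncomputable def p118_l80 : Lf2 := ⟨nat_lit 1, nat_lit 30, [nat_lit 15, nat_lit 5, nat_lit 5, nat_lit 20], false, nat_lit 32, nat_lit 80, nat_lit 0, nat_lit 336, zbN0,
 nat_lit 0, nat_lit 0, nat_lit 0, nat_lit 0, nat_lit 0, nat_lit 0, nat_lit 0, nat_lit 0, nat_lit 0, nat_lit 0, nat_lit 0, nat_lit 0, nat_lit 0, nat_lit 0, nat_lit 0, nat_lit 0, nat_lit 0, nat_lit 0, [],
 C1.Rw.none, C1.Rw.none,
 zbF0, []⟩
noncomputable def b_V_900_600_20_86 : St := ⟨true, nat_lit 1, nat_lit 1, nat_lit 1, nat_lit 120, nat_lit 380, nat_lit 400, nat_lit 240, nat_lit 280, nat_lit 240, nat_lit 352, nat_lit 80, nat_lit 120, nat_lit 20, nat_lit 80, nat_lit 0, nat_lit 364, nat_lit 120, nat_lit 156, nat_lit 0, nat_lit 0, nat_lit 0, nat_lit 0⟩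
theorem d_V_900_600_20_86 (h : EB TB.env) : Dead b_V_900_600_20_86 := chkB_sound0 h (T :=
(.trX (nat_lit 22) (nat_lit 100) (nat_lit 76) (nat_lit 82) (nat_lit 336) (.spl (nat_lit 3) (nat_lit 100)
(.spl (nat_lit 6) (nat_lit 144)
(.spl (nat_lit 0) (nat_lit 390)
(.leaf p118_l74)
(.trX (nat_lit 13) (nat_lit 34) (nat_lit 81) (nat_lit 100) (nat_lit 336) (.trZ (nat_lit 3) (nat_lit 100) (nat_lit 39) (nat_lit 72) (nat_lit 36) (.leaf p118_l75))))
(.leaf p118_l76))
(.trZ (nat_lit 3) (nat_lit 100) (nat_lit 50) (nat_lit 65) (nat_lit 32) (.spl (nat_lit 6) (nat_lit 144)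
(.spl (nat_lit 5) (nat_lit 160)
(.leaf p118_l77)
(.spl (nat_lit 0) (nat_lit 390)
(.leaf p118_l78)
(.trX (nat_lit 13) (nat_lit 34) (nat_lit 81) (nat_lit 100) (nat_lit 336) (.trZ (nat_lit 3) (nat_lit 100) (nat_lit 36) (nat_lit 77) (nat_lit 48) (.leaf p118_l79)))))
(.leaf p118_l80)))))) (by decide +kernel)
noncomputable def p118_l81 : Lf2 := ⟨nat_lit 0, nat_lit 30, [nat_lit 15, nat_lit 5, nat_lit 5, nat_lit 20], false, nat_lit 80, nat_lit 208, nat_lit 0, nat_lit 160, ⟨nat_lit 489, nat_lit 0, nat_lit 511, nat_lit 6, nat_lit 256, nat_lit 511, nat_lit 118, nat_lit 511, nat_lit 129067, nat_lit 303, nat_lit 93454, nat_lit 200, nat_lit 43087203, nat_lit 0, nat_lit 0, nat_lit 4488214, true, true⟩,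
 nat_lit 6777, nat_lit 0, nat_lit 0, nat_lit 0, nat_lit 3430, nat_lit 3587, nat_lit 159, nat_lit 0, nat_lit 0, nat_lit 367, nat_lit 0, nat_lit 0, nat_lit 0, nat_lit 0, nat_lit 0, nat_lit 99645, nat_lit 0, nat_lit 0, [(nat_lit 29, [(nat_lit 3, nat_lit 511)])],
 ⟨p118_k6, nat_lit 0, nat_lit 0, nat_lit 175, nat_lit 0, nat_lit 165700, [nat_lit 1044083600, nat_lit 1593384000, nat_lit 2702451600], [], [nat_lit 23969462190, nat_lit 25206138010, nat_lit 25288668430, nat_lit 26435800640, nat_lit 25218541514, nat_lit 26221013322, nat_lit 26307447359, nat_lit 27429658585], nat_lit 1271250, nat_lit 1271250, nat_lit 1271250, nat_lit 1271250, nat_lit 490000, nat_lit 1490000, [nat_lit 230000, nat_lit 1100000, nat_lit 1785000], [nat_lit 57, nat_lit 40, nat_lit 40, nat_lit 80, nat_lit 7, nat_lit 272, nat_lit 60, nat_lit 8]⟩, ⟨p118_k7, nat_lit 0, nat_lit 0, nat_lit 515, nat_lit 0, nat_lit 352438, [nat_lit 2292432000, nat_lit 4812738000,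 nat_lit 8019600000], [], [nat_lit 19151701361, nat_lit 19371485921, nat_lit 19591270481, nat_lit 19805173230, nat_lit 16873115432, nat_lit 17079685396, nat_lit 17286255360, nat_lit 17465849280], nat_lit 1271250, nat_lit 1271250, nat_lit 1271250, nat_lit 1271250, nat_lit 0, nat_lit 1100001, [nat_lit 1100000, nat_lit 2127500, nat_lit 1271250], [nat_lit 83, nat_lit 40, nat_lit 40, nat_lit 80, nat_lit 73, nat_lit 401, nat_lit 175, nat_lit 8]⟩,
 ⟨nat_lit 0, nat_lit 2237, ⟨.ofNat (nat_lit 602531), .ofNat (nat_lit 659577), .ofNat (nat_lit 624400), .ofNat (nat_lit 682352), .ofNat (nat_lit 599967), .ofNat (nat_lit 649998), .ofNat (nat_lit 624062), .ofNat (nat_lit 674999)⟩, ⟨.ofNat (nat_lit 192306), .ofNat (nat_lit 374750), .ofNat (nat_lit 200000), .ofNat (nat_lit 420300), .ofNat (nat_lit 199999), .ofNat (nat_lit 359993), .ofNat (nat_lit 200000), .ofNat (nat_lit 409994)⟩⟩, [⟨nat_lit 16, nat_lit 32, nat_lit 100, nat_lit 88,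 nat_lit 484594330⟩]⟩
noncomputable def p118_l82 : Lf2 := ⟨nat_lit 0, nat_lit 30, [nat_lit 15, nat_lit 5, nat_lit 5, nat_lit 20], false, nat_lit 80, nat_lit 160, nat_lit 160, nat_lit 364, ⟨nat_lit 382, nat_lit 0, nat_lit 618, nat_lit 6, nat_lit 257, nat_lit 618, nat_lit 105, nat_lit 618, nat_lit 104017, nat_lit 294, nat_lit 93454, nat_lit 200, nat_lit 43671558, nat_lit 0, nat_lit 0, nat_lit 4345185, true, true⟩,
 nat_lit 5809, nat_lit 0, nat_lit 0, nat_lit 0, nat_lit 4603, nat_lit 3075, nat_lit 0, nat_lit 0, nat_lit 0, nat_lit 258, nat_lit 0, nat_lit 0, nat_lit 0, nat_lit 0, nat_lit 0, nat_lit 120510, nat_lit 0, nat_lit 0, [(nat_lit 29, [(nat_lit 3, nat_lit 618)])],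
 ⟨p118_k6, nat_lit 0, nat_lit 0, nat_lit 144, nat_lit 0, nat_lit 80005, [nat_lit 1066296800, nat_lit 945392000, nat_lit 1599880800], [], [nat_lit 25144518114, nat_lit 25503033420, nat_lit 26554711618, nat_lit 26932542797, nat_lit 25039951468, nat_lit 25363905380, nat_lit 26314715948, nat_lit 26617930560], nat_lit 1271250, nat_lit 1271250, nat_lit 1271250, nat_lit 1271250, nat_lit 490000, nat_lit 1100001, [nat_lit 230000, nat_lit 1100000, nat_lit 1785000], [nat_lit 57, nat_lit 40, nat_lit 40, nat_lit 80, nat_lit 7, nat_lit 249, nat_lit 40, nat_lit 7]⟩, ⟨p118_k7, nat_lit 0, nat_lit 0, nat_lit 244, nat_lit 0, nat_lit 169283, [nat_lit 1790816000, nat_lit 3759644000, nat_lit 6264800000], [], [nat_lit 10876646146, nat_lit 11127937092, nat_lit 11379228038, nat_lit 11596520790, nat_lit 12892878934, nat_lit 12996448455, nat_lit 13100017976, nat_lit 13182286963], nat_lit 1271250, nat_lit 1271250, nat_lit 1271250, nat_lit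 1271250, nat_lit 1271250, nat_lit 1271250, [nat_lit 1100000, nat_lit 2127500, nat_lit 1271250], [nat_lit 83, nat_lit 40, nat_lit 40, nat_lit 80, nat_lit 73, nat_lit 483, nat_lit 250, nat_lit 10]⟩,
 ⟨nat_lit 1936, nat_lit 2237, ⟨.ofNat (nat_lit 602562), .ofNat (nat_lit 659578), .ofNat (nat_lit 625327), .ofNat (nat_lit 682352), .ofNat (nat_lit 601908), .ofNat (nat_lit 657798), .ofNat (nat_lit 624911), .ofNat (nat_lit 680809)⟩, ⟨.ofNat (nat_lit 192306), .ofNat (nat_lit 306337), .ofNat (nat_lit 200000), .ofNat (nat_lit 351886), .ofNat (nat_lit 194266), .ofNat (nat_lit 306044), .ofNat (nat_lit 200000), .ofNat (nat_lit 352066)⟩⟩, [⟨nat_lit 19, nat_lit 100, nat_lit 72, nat_lit 89, nat_lit 144814322⟩]⟩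
noncomputable def p118_l83 : Lf2 := ⟨nat_lit 0, nat_lit 30, [nat_lit 15, nat_lit 5, nat_lit 5, nat_lit 20], false, nat_lit 80, nat_lit 160, nat_lit 160, nat_lit 364, ⟨nat_lit 384, nat_lit 0, nat_lit 616, nat_lit 6, nat_lit 256, nat_lit 616, nat_lit 105, nat_lit 616, nat_lit 104017, nat_lit 294, nat_lit 90368, nat_lit 200, nat_lit 43704335, nat_lit 0, nat_lit 0, nat_lit 4344707, true, true⟩,
 nat_lit 5529, nat_lit 0, nat_lit 0, nat_lit 0, nat_lit 3568, nat_lit 2926, nat_lit 0, nat_lit 0, nat_lit 0, nat_lit 257, nat_lit 0, nat_lit 0, nat_lit 0, nat_lit 0, nat_lit 0, nat_lit 120120, nat_lit 0, nat_lit 0, [(nat_lit 29, [(nat_lit 3, nat_lit 616)])],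
 ⟨p118_k25, nat_lit 0, nat_lit 0, nat_lit 134, nat_lit 0, nat_lit 104523, [nat_lit 1065881600, nat_lit 967113601, nat_lit 1166768000], [], [nat_lit 24066777732, nat_lit 24404779896, nat_lit 25492548332, nat_lit 25878635976, nat_lit 24401805724, nat_lit 24708292072, nat_lit 25689718960, nat_lit 25973351424], nat_lit 1271250, nat_lit 1271250, nat_lit 1271250, nat_lit 1271250, nat_lit 490000, nat_lit 1100001, [nat_lit 230000, nat_lit 1100000, nat_lit 1442500], [nat_lit 55, nat_lit 40, nat_lit 40, nat_lit 80, nat_lit 3, nat_lit 249, nat_lit 40, nat_lit 8]⟩, ⟨p118_k7, nat_lit 0, nat_lit 0, nat_lit 268, nat_lit 0, nat_lit 225947, [nat_lit 1800192000, nat_lit 3779328000, nat_lit 6297600000], [], [nat_lit 11026296699, nat_lit 11275498623, nat_lit 11524700547, nat_lit 11741234955, nat_lit 13042038478, nat_lit 13149246886, nat_lit 13256455295, nat_lit 13343168660], nat_lit 1271250, nat_lit 1271250, nat_lit 1271250, nat_lit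 1271250, nat_lit 1271250, nat_lit 1271250, [nat_lit 1100000, nat_lit 2127500, nat_lit 1271250], [nat_lit 83, nat_lit 40, nat_lit 40, nat_lit 80, nat_lit 73, nat_lit 483, nat_lit 250, nat_lit 10]⟩,
 ⟨nat_lit 1581, nat_lit 1937, ⟨.ofNat (nat_lit 601908), .ofNat (nat_lit 657798), .ofNat (nat_lit 624905), .ofNat (nat_lit 680809), .ofNat (nat_lit 601263), .ofNat (nat_lit 655900), .ofNat (nat_lit 624564), .ofNat (nat_lit 679215)⟩, ⟨.ofNat (nat_lit 194266), .ofNat (nat_lit 306044), .ofNat (nat_lit 200000), .ofNat (nat_lit 352066), .ofNat (nat_lit 196201), .ofNat (nat_lit 305473), .ofNat (nat_lit 200000), .ofNat (nat_lit 352103)⟩⟩, [⟨nat_lit 4, nat_lit 100, nat_lit 35, nat_lit 88, nat_lit 92318807⟩, ⟨nat_lit 19, nat_lit 100, nat_lit 72, nat_lit 89, nat_lit 145484607⟩]⟩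
noncomputable def p118_l84 : Lf2 := ⟨nat_lit 0, nat_lit 25, [nat_lit 44, nat_lit 5, nat_lit 5, nat_lit 20], true, nat_lit 160, nat_lit 188, nat_lit 160, nat_lit 352, ⟨nat_lit 0, nat_lit 1000, nat_lit 0, nat_lit 6, nat_lit 257, nat_lit 1000, nat_lit 135, nat_lit 0, nat_lit 0, nat_lit 0, nat_lit 0, nat_lit 0, nat_lit 42113739, nat_lit 18286411, nat_lit 6599850, nat_lit 4675278, true, true⟩,
 nat_lit 0, nat_lit 3563, nat_lit 0, nat_lit 100000, nat_lit 3329, nat_lit 0, nat_lit 0, nat_lit 0, nat_lit 0, nat_lit 0, nat_lit 0, nat_lit 0, nat_lit 0, nat_lit 0, nat_lit 0, nat_lit 250000, nat_lit 0, nat_lit 0, [(nat_lit 29, [(nat_lit 0, nat_lit 1000)])],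
 ⟨p118_k5, nat_lit 0, nat_lit 0, nat_lit 79, nat_lit 0, nat_lit 55031, [nat_lit 781600001, nat_lit 1376400001, nat_lit 1786400000], [], [nat_lit 23677102675, nat_lit 24307548788, nat_lit 25052266691, nat_lit 25728232504, nat_lit 24282620333, nat_lit 24886623778, nat_lit 25645358849, nat_lit 26293324866], nat_lit 1271250, nat_lit 1271250, nat_lit 1271250, nat_lit 1271250, nat_lit 1100001, nat_lit 1339750, [nat_lit 230000, nat_lit 1100000, nat_lit 1442500], [nat_lit 55, nat_lit 40, nat_lit 40, nat_lit 80, nat_lit 3, nat_lit 260, nat_lit 50, nat_lit 8]⟩, C1.Rw.none,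
 ⟨nat_lit 1581, nat_lit 2237, ⟨.ofNat (nat_lit 602558), .ofNat (nat_lit 659578), .ofNat (nat_lit 625287), .ofNat (nat_lit 682352), .ofNat (nat_lit 601260), .ofNat (nat_lit 655900), .ofNat (nat_lit 624529), .ofNat (nat_lit 679215)⟩, ⟨.ofNat (nat_lit 306337), .ofNat (nat_lit 346248), .ofNat (nat_lit 329112), .ofNat (nat_lit 369022), .ofNat (nat_lit 305473), .ofNat (nat_lit 343718), .ofNat (nat_lit 328788), .ofNat (nat_lit 367033)⟩⟩, [⟨nat_lit 16, nat_lit 39, nat_lit 100, nat_lit 85, nat_lit 6738852252⟩]⟩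
noncomputable def p118_l85 : Lf2 := ⟨nat_lit 0, nat_lit 30, [nat_lit 15, nat_lit 5, nat_lit 5, nat_lit 20], false, nat_lit 160, nat_lit 208, nat_lit 160, nat_lit 364, ⟨nat_lit 649, nat_lit 351, nat_lit 0, nat_lit 6, nat_lit 257, nat_lit 351, nat_lit 150, nat_lit 0, nat_lit 0, nat_lit 0, nat_lit 0, nat_lit 0, nat_lit 41286590, nat_lit 18052785, nat_lit 7660625, nat_lit 4823572, true, true⟩,
 nat_lit 14104, nat_lit 0, nat_lit 0, nat_lit 4293, nat_lit 5103, nat_lit 7466, nat_lit 0, nat_lit 0, nat_lit 0, nat_lit 501, nat_lit 0, nat_lit 0, nat_lit 0, nat_lit 0, nat_lit 0, nat_lit 87750, nat_lit 0, nat_lit 0, [(nat_lit 29, [(nat_lit 0, nat_lit 351)])],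
 ⟨p118_k6, nat_lit 0, nat_lit 0, nat_lit 76, nat_lit 0, nat_lit 42691, [nat_lit 883103600, nat_lit 3587685201, nat_lit 5884058400], [], [nat_lit 25150946719, nat_lit 25939096110, nat_lit 26689858031, nat_lit 27524542328, nat_lit 26137939010, nat_lit 26863845860, nat_lit 27613762224, nat_lit 28394789545], nat_lit 1271250, nat_lit 1271250, nat_lit 1271250, nat_lit 1271250, nat_lit 1100001, nat_lit 1511000, [nat_lit 230000, nat_lit 1100000, nat_lit 1785000], [nat_lit 57, nat_lit 40, nat_lit 40, nat_lit 80, nat_lit 7, nat_lit 272, nat_lit 60, nat_lit 7]⟩, ⟨p118_k7, nat_lit 0, nat_lit 0, nat_lit 211, nat_lit 0, nat_lit 90330, [nat_lit 3042512000, nat_lit 6387458000, nat_lit 10643600000], [], [nat_lit 16693453999, nat_lit 17166614223, nat_lit 17639774447, nat_lit 18034688505, nat_lit 20268937359, nat_lit 20402850948, nat_lit 20788022543, nat_lit 21264791980], nat_lit 1271250, nat_lit 1271250, nat_lit 1271250, nat_lit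 1271250, nat_lit 1271250, nat_lit 1271250, [nat_lit 1100000, nat_lit 2127500, nat_lit 1271250], [nat_lit 83, nat_lit 40, nat_lit 40, nat_lit 80, nat_lit 73, nat_lit 483, nat_lit 250, nat_lit 10]⟩,
 ⟨nat_lit 1581, nat_lit 2237, ⟨.ofNat (nat_lit 602558), .ofNat (nat_lit 659578), .ofNat (nat_lit 625287), .ofNat (nat_lit 682352), .ofNat (nat_lit 601260), .ofNat (nat_lit 655900), .ofNat (nat_lit 624529), .ofNat (nat_lit 679215)⟩, ⟨.ofNat (nat_lit 329112), .ofNat (nat_lit 397530), .ofNat (nat_lit 351886), .ofNat (nat_lit 420305), .ofNat (nat_lit 328788), .ofNat (nat_lit 394351), .ofNat (nat_lit 352103), .ofNat (nat_lit 417666)⟩⟩, [⟨nat_lit 4, nat_lit 100, nat_lit 38, nat_lit 90, nat_lit 673425050⟩, ⟨nat_lit 7, nat_lit 68, nat_lit 100, nat_lit 92, nat_lit 252109425⟩]⟩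
noncomputable def p118_l86 : Lf2 := ⟨nat_lit 1, nat_lit 30, [nat_lit 15, nat_lit 5, nat_lit 5, nat_lit 20], false, nat_lit 80, nat_lit 208, nat_lit 160, nat_lit 364, zbN0,
 nat_lit 0, nat_lit 0, nat_lit 0, nat_lit 0, nat_lit 0, nat_lit 0, nat_lit 0, nat_lit 0, nat_lit 0, nat_lit 0, nat_lit 0, nat_lit 0, nat_lit 0, nat_lit 0, nat_lit 0, nat_lit 0, nat_lit 0, nat_lit 0, [],
 C1.Rw.none, C1.Rw.none,
 zbF0, []⟩
noncomputable def p118_l87 : Lf2 := ⟨nat_lit 0, nat_lit 30, [nat_lit 15, nat_lit 5, nat_lit 5, nat_lit 20], false, nat_lit 80, nat_lit 120, nat_lit 160, nat_lit 364, ⟨nat_lit 145, nat_lit 375, nat_lit 480, nat_lit 6, nat_lit 255, nat_lit 855, nat_lit 95, nat_lit 479, nat_lit 84017, nat_lit 286, nat_lit 87180, nat_lit 200, nat_lit 44315638, nat_lit 18729025, nat_lit 3955337, nat_lit 4211443, true, true⟩,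
 nat_lit 2986, nat_lit 0, nat_lit 0, nat_lit 0, nat_lit 2802, nat_lit 1580, nat_lit 0, nat_lit 0, nat_lit 0, nat_lit 104, nat_lit 0, nat_lit 0, nat_lit 0, nat_lit 0, nat_lit 0, nat_lit 213750, nat_lit 0, nat_lit 0, [(nat_lit 29, [(nat_lit 0, nat_lit 375), (nat_lit 4, nat_lit 480)])],
 ⟨p118_k8, nat_lit 0, nat_lit 0, nat_lit 154, nat_lit 0, nat_lit 158754, [nat_lit 794678000, nat_lit 342086001, nat_lit 317590000], [], [nat_lit 23668669801, nat_lit 24180461936, nat_lit 24893502020, nat_lit 25457346496, nat_lit 23976027366, nat_lit 24471863220, nat_lit 25155026111, nat_lit 25669156804], nat_lit 1271250, nat_lit 1271250, nat_lit 1271250, nat_lit 1271250, nat_lit 490000, nat_lit 780000, [nat_lit 230000, nat_lit 1100000, nat_lit 1442500], [nat_lit 55, nat_lit 40, nat_lit 40, nat_lit 80, nat_lit 3, nat_lit 238, nat_lit 30, nat_lit 7]⟩, ⟨p118_k7, nat_lit 0, nat_lit 0, nat_lit 405, nat_lit 0, nat_lit 352438, [nat_lit 679760000,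 nat_lit 1427090000, nat_lit 2378000000], [], [nat_lit 4092914160, nat_lit 4143189180, nat_lit 4193464200, nat_lit 4232500060, nat_lit 4686466917, nat_lit 4718037622, nat_lit 4749608327, nat_lit 4770801002], nat_lit 1271250, nat_lit 1271250, nat_lit 1271250, nat_lit 1271250, nat_lit 1271250, nat_lit 1271250, [nat_lit 1100000, nat_lit 2127500, nat_lit 1271250], [nat_lit 83, nat_lit 40, nat_lit 40, nat_lit 80, nat_lit 73, nat_lit 483, nat_lit 250, nat_lit 10]⟩,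
 ⟨nat_lit 0, nat_lit 1582, ⟨.ofNat (nat_lit 601257), .ofNat (nat_lit 655899), .ofNat (nat_lit 623921), .ofNat (nat_lit 679215), .ofNat (nat_lit 599992), .ofNat (nat_lit 649998), .ofNat (nat_lit 624340), .ofNat (nat_lit 674999)⟩, ⟨.ofNat (nat_lit 196201), .ofNat (nat_lit 250836), .ofNat (nat_lit 200000), .ofNat (nat_lit 297467), .ofNat (nat_lit 199999), .ofNat (nat_lit 249998), .ofNat (nat_lit 200000), .ofNat (nat_lit 299999)⟩⟩, [⟨nat_lit 22, nat_lit 100, nat_lit 77, nat_lit 91, nat_lit 51997128⟩]⟩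
noncomputable def p118_l88 : Lf2 := ⟨nat_lit 0, nat_lit 30, [nat_lit 15, nat_lit 5, nat_lit 5, nat_lit 20], false, nat_lit 120, nat_lit 184, nat_lit 160, nat_lit 364, ⟨nat_lit 181, nat_lit 368, nat_lit 451, nat_lit 6, nat_lit 255, nat_lit 819, nat_lit 127, nat_lit 451, nat_lit 150417, nat_lit 310, nat_lit 87180, nat_lit 200, nat_lit 42655567, nat_lit 18308855, nat_lit 6035578, nat_lit 4582549, true, true⟩,
 nat_lit 3803, nat_lit 0, nat_lit 0, nat_lit 721, nat_lit 3232, nat_lit 2013, nat_lit 0, nat_lit 0, nat_lit 0, nat_lit 131, nat_lit 0, nat_lit 0, nat_lit 0, nat_lit 0, nat_lit 0, nat_lit 179945, nat_lit 0, nat_lit 0, [(nat_lit 29, [(nat_lit 0, nat_lit 368), (nat_lit 3, nat_lit 451)])],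
 ⟨p118_k8, nat_lit 0, nat_lit 0, nat_lit 141, nat_lit 0, nat_lit 158754, [nat_lit 974072401, nat_lit 745110801, nat_lit 885743200], [], [nat_lit 24386003242, nat_lit 24960480304, nat_lit 25644068348, nat_lit 26213704528, nat_lit 25090930708, nat_lit 25631635459, nat_lit 26259152893, nat_lit 26761926860], nat_lit 1271250, nat_lit 1271250, nat_lit 1271250, nat_lit 1271250, nat_lit 780000, nat_lit 1304000, [nat_lit 230000, nat_lit 1100000, nat_lit 1442500], [nat_lit 55, nat_lit 40, nat_lit 40, nat_lit 80, nat_lit 3, nat_lit 260, nat_lit 50, nat_lit 8]⟩, ⟨p118_k7, nat_lit 0, nat_lit 0, nat_lit 405, nat_lit 0, nat_lit 352438, [nat_lit 848528000, nat_lit 1781402000, nat_lit 2968400000], [], [nat_lit 5025251853, nat_lit 5087722249, nat_lit 5150192645, nat_lit 5198386029, nat_lit 5819593980, nat_lit 5858239098, nat_lit 5896884216, nat_lit 5925959711], nat_lit 1271250, nat_lit 1271250, nat_lit 1271250, nat_lit 1271250, nat_lit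 1271250, nat_lit 1271250, [nat_lit 1100000, nat_lit 2127500, nat_lit 1271250], [nat_lit 83, nat_lit 40, nat_lit 40, nat_lit 80, nat_lit 73, nat_lit 483, nat_lit 250, nat_lit 10]⟩,
 ⟨nat_lit 0, nat_lit 1582, ⟨.ofNat (nat_lit 601257), .ofNat (nat_lit 655899), .ofNat (nat_lit 623921), .ofNat (nat_lit 679215), .ofNat (nat_lit 599992), .ofNat (nat_lit 649998), .ofNat (nat_lit 624340), .ofNat (nat_lit 674999)⟩, ⟨.ofNat (nat_lit 250836), .ofNat (nat_lit 338250), .ofNat (nat_lit 297467), .ofNat (nat_lit 384882), .ofNat (nat_lit 249998), .ofNat (nat_lit 329995), .ofNat (nat_lit 299999), .ofNat (nat_lit 379997)⟩⟩, [⟨nat_lit 4, nat_lit 100, nat_lit 23, nat_lit 91, nat_lit 436227963⟩, ⟨nat_lit 19, nat_lit 100, nat_lit 72, nat_lit 89, nat_lit 67790833⟩]⟩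
noncomputable def p118_l89 : Lf2 := ⟨nat_lit 0, nat_lit 25, [nat_lit 44, nat_lit 5, nat_lit 5, nat_lit 20], false, nat_lit 80, nat_lit 188, nat_lit 0, nat_lit 352, ⟨nat_lit 466, nat_lit 0, nat_lit 534, nat_lit 7, nat_lit 283, nat_lit 534, nat_lit 110, nat_lit 534, nat_lit 114817, nat_lit 298, nat_lit 264494, nat_lit 200, nat_lit 41066489, nat_lit 0, nat_lit 0, nat_lit 4521138, true, true⟩,
 nat_lit 8789, nat_lit 0, nat_lit 0, nat_lit 0, nat_lit 3419, nat_lit 4653, nat_lit 0, nat_lit 0, nat_lit 0, nat_lit 255, nat_lit 0, nat_lit 0, nat_lit 0, nat_lit 0, nat_lit 0, nat_lit 122610, nat_lit 0, nat_lit 0, [(nat_lit 29, [(nat_lit 3, nat_lit 198), (nat_lit 4, nat_lit 336)])],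
 ⟨p118_k5, nat_lit 0, nat_lit 0, nat_lit 149, nat_lit 0, nat_lit 92820, [nat_lit 919834401, nat_lit 1319156001, nat_lit 1635112000], [], [nat_lit 25809888377, nat_lit 26862888573, nat_lit 28163036669, nat_lit 29262201194, nat_lit 26606216604, nat_lit 27508929726, nat_lit 28653414896, nat_lit 29593238681], nat_lit 1271250, nat_lit 1271250, nat_lit 1271250, nat_lit 1271250, nat_lit 490000, nat_lit 1333750, [nat_lit 230000, nat_lit 1100000, nat_lit 1442500], [nat_lit 55, nat_lit 40, nat_lit 40, nat_lit 80, nat_lit 3, nat_lit 260, nat_lit 50, nat_lit 8]⟩, ⟨p118_k1, nat_lit 0, nat_lit 0, nat_lit 397, nat_lit 0, nat_lit 196132, [nat_lit 2184608000, nat_lit 4586372000, nat_lit 6551028000], [], [nat_lit 19507503932, nat_lit 19642528968, nat_lit 20391251366, nat_lit 20467227250, nat_lit 15851948108, nat_lit 15891875373, nat_lit 16659733847, nat_lit 16743744402], nat_lit 1271250, nat_lit 1271250, nat_lit 1271250, nat_lit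 1271250, nat_lit 0, nat_lit 2486000, [nat_lit 1100000, nat_lit 2127500, nat_lit 1271250], [nat_lit 56, nat_lit 40, nat_lit 40, nat_lit 80, nat_lit 32, nat_lit 483, nat_lit 250, nat_lit 11]⟩,
 ⟨nat_lit 0, nat_lit 2237, ⟨.ofNat (nat_lit 659577), .ofNat (nat_lit 745097), .ofNat (nat_lit 682352), .ofNat (nat_lit 767872), .ofNat (nat_lit 649998), .ofNat (nat_lit 724995), .ofNat (nat_lit 674999), .ofNat (nat_lit 749995)⟩, ⟨.ofNat (nat_lit 192306), .ofNat (nat_lit 346243), .ofNat (nat_lit 200000), .ofNat (nat_lit 369018), .ofNat (nat_lit 199999), .ofNat (nat_lit 334994), .ofNat (nat_lit 200000), .ofNat (nat_lit 359995)⟩⟩, [⟨nat_lit 13, nat_lit 32, nat_lit 87, nat_lit 100, nat_lit 282895552⟩, ⟨nat_lit 16, nat_lit 32, nat_lit 100, nat_lit 87, nat_lit 541571644⟩, ⟨nat_lit 22, nat_lit 88, nat_lit 84, nat_lit 100, nat_lit 41826781⟩]⟩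
noncomputable def p118_l90 : Lf2 := ⟨nat_lit 0, nat_lit 30, [nat_lit 15, nat_lit 5, nat_lit 5, nat_lit 20], false, nat_lit 80, nat_lit 208, nat_lit 0, nat_lit 160, ⟨nat_lit 1000, nat_lit 0, nat_lit 0, nat_lit 0, nat_lit 0, nat_lit 0, nat_lit 0, nat_lit 0, nat_lit 0, nat_lit 0, nat_lit 0, nat_lit 0, nat_lit 0, nat_lit 0, nat_lit 0, nat_lit 0, false, false⟩,
 nat_lit 3316, nat_lit 0, nat_lit 16151, nat_lit 0, nat_lit 3098, nat_lit 10306, nat_lit 515, nat_lit 0, nat_lit 0, nat_lit 820, nat_lit 0, nat_lit 0, nat_lit 0, nat_lit 0, nat_lit 0, nat_lit 0, nat_lit 0, nat_lit 0, [],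
 ⟨p118_k6, nat_lit 0, nat_lit 0, nat_lit 140, nat_lit 0, nat_lit 17941, [nat_lit 938000000, nat_lit 4688000000, nat_lit 7968000000], [], [nat_lit 25201361038, nat_lit 25475090793, nat_lit 27491979688, nat_lit 27733005870, nat_lit 26358151950, nat_lit 26587055323, nat_lit 28378475603, nat_lit 28644001550], nat_lit 1271250, nat_lit 1271250, nat_lit 1271250, nat_lit 1271250, nat_lit 490000, nat_lit 1490000, [nat_lit 230000, nat_lit 1100000, nat_lit 1785000], [nat_lit 57, nat_lit 40, nat_lit 40, nat_lit 80, nat_lit 7, nat_lit 272, nat_lit 60, nat_lit 7]⟩, ⟨p118_k7, nat_lit 0, nat_lit 0, nat_lit 323, nat_lit 0, nat_lit 38462, [nat_lit 4688000000, nat_lit 9842000000, nat_lit 16400000000], [], [nat_lit 37614215948, nat_lit 37976194828, nat_lit 40867623932, nat_lit 41365933806, nat_lit 29038177856, nat_lit 29655467828, nat_lit 31986245636, nat_lit 32436058374], nat_lit 1271250, nat_lit 1271250, nat_lit 1271250, nat_lit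 1271250, nat_lit 0, nat_lit 1100001, [nat_lit 1100000, nat_lit 2127500, nat_lit 1271250], [nat_lit 83, nat_lit 40, nat_lit 40, nat_lit 80, nat_lit 73, nat_lit 428, nat_lit 200, nat_lit 9]⟩,
 zbF0, [⟨nat_lit 4, nat_lit 100, nat_lit 41, nat_lit 89, nat_lit 495135096⟩, ⟨nat_lit 9, nat_lit 100, nat_lit 87, nat_lit 31, nat_lit 130240558⟩]⟩
noncomputable def p118_l91 : Lf2 := ⟨nat_lit 0, nat_lit 30, [nat_lit 15, nat_lit 5, nat_lit 5, nat_lit 20], false, nat_lit 80, nat_lit 208, nat_lit 160, nat_lit 364, ⟨nat_lit 1000, nat_lit 0, nat_lit 0, nat_lit 0, nat_lit 0, nat_lit 0, nat_lit 0, nat_lit 0, nat_lit 0, nat_lit 0, nat_lit 0, nat_lit 0, nat_lit 0, nat_lit 0, nat_lit 0, nat_lit 0, false, false⟩,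
 nat_lit 3316, nat_lit 0, nat_lit 16268, nat_lit 11836, nat_lit 3098, nat_lit 10368, nat_lit 515, nat_lit 0, nat_lit 0, nat_lit 729, nat_lit 0, nat_lit 0, nat_lit 0, nat_lit 0, nat_lit 0, nat_lit 0, nat_lit 0, nat_lit 0, [],
 ⟨p118_k6, nat_lit 0, nat_lit 0, nat_lit 140, nat_lit 0, nat_lit 17941, [nat_lit 938000000, nat_lit 4688000000, nat_lit 7968000000], [], [nat_lit 25201361038, nat_lit 25475090793, nat_lit 27491979688, nat_lit 27733005870, nat_lit 26358151950, nat_lit 26587055323, nat_lit 28378475603, nat_lit 28644001550], nat_lit 1271250, nat_lit 1271250, nat_lit 1271250, nat_lit 1271250, nat_lit 490000, nat_lit 1490000, [nat_lit 230000, nat_lit 1100000, nat_lit 1785000], [nat_lit 57, nat_lit 40, nat_lit 40, nat_lit 80, nat_lit 7, nat_lit 272, nat_lit 60, nat_lit 7]⟩, ⟨p118_k7, nat_lit 0, nat_lit 0, nat_lit 203, nat_lit 0, nat_lit 38462, [nat_lit 4688000000, nat_lit 9842000000, nat_lit 16400000000], [], [nat_lit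 28229631563, nat_lit 28825083675, nat_lit 31281414171, nat_lit 31697814051, nat_lit 32706859771, nat_lit 33171832378, nat_lit 35304618710, nat_lit 35941058559], nat_lit 1271250, nat_lit 1271250, nat_lit 1271250, nat_lit 1271250, nat_lit 1100001, nat_lit 2846750, [nat_lit 1100000, nat_lit 2127500, nat_lit 1271250], [nat_lit 83, nat_lit 40, nat_lit 40, nat_lit 80, nat_lit 73, nat_lit 483, nat_lit 250, nat_lit 9]⟩,
 zbF0, [⟨nat_lit 4, nat_lit 100, nat_lit 41, nat_lit 89, nat_lit 605947443⟩, ⟨nat_lit 19, nat_lit 100, nat_lit 68, nat_lit 92, nat_lit 368931187⟩]⟩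
noncomputable def p118_l92 : Lf2 := ⟨nat_lit 0, nat_lit 30, [nat_lit 15, nat_lit 5, nat_lit 5, nat_lit 20], false, nat_lit 80, nat_lit 196, nat_lit 0, nat_lit 364, ⟨nat_lit 1000, nat_lit 0, nat_lit 0, nat_lit 0, nat_lit 0, nat_lit 0, nat_lit 0, nat_lit 0, nat_lit 0, nat_lit 0, nat_lit 0, nat_lit 0, nat_lit 0, nat_lit 0, nat_lit 0, nat_lit 0, false, false⟩,
 nat_lit 7158, nat_lit 0, nat_lit 13142, nat_lit 0, nat_lit 6804, nat_lit 10747, nat_lit 0, nat_lit 0, nat_lit 0, nat_lit 708, nat_lit 0, nat_lit 0, nat_lit 0, nat_lit 0, nat_lit 0, nat_lit 0, nat_lit 0, nat_lit 0, [],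
 ⟨p118_k25, nat_lit 0, nat_lit 0, nat_lit 122, nat_lit 0, nat_lit 27999, [nat_lit 938000000, nat_lit 4688000000, nat_lit 6250000000], [], [nat_lit 30622049272, nat_lit 31068073040, nat_lit 32704990438, nat_lit 33107238548, nat_lit 30087004375, nat_lit 30462369333, nat_lit 31818682850, nat_lit 32158203250], nat_lit 1271250, nat_lit 1271250, nat_lit 1271250, nat_lit 1271250, nat_lit 490000, nat_lit 1396250, [nat_lit 230000, nat_lit 1100000, nat_lit 1442500], [nat_lit 55, nat_lit 40, nat_lit 40, nat_lit 80, nat_lit 3, nat_lit 260, nat_lit 50, nat_lit 8]⟩, ⟨p118_k7, nat_lit 0, nat_lit 0, nat_lit 403, nat_lit 0, nat_lit 60269, [nat_lit 4688000000, nat_lit 9842000000, nat_lit 16400000000], [], [nat_lit 39626441232, nat_lit 39984976143, nat_lit 41917266092, nat_lit 42204271644, nat_lit 32957311984, nat_lit 33034649594, nat_lit 34109131750, nat_lit 34398836466], nat_lit 1271250, nat_lit 1271250, nat_lit 1271250, nat_lit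 1271250, nat_lit 0, nat_lit 2570750, [nat_lit 1100000, nat_lit 2127500, nat_lit 1271250], [nat_lit 83, nat_lit 40, nat_lit 40, nat_lit 80, nat_lit 73, nat_lit 483, nat_lit 250, nat_lit 10]⟩,
 zbF0, [⟨nat_lit 16, nat_lit 35, nat_lit 100, nat_lit 90, nat_lit 471907739⟩, ⟨nat_lit 7, nat_lit 66, nat_lit 100, nat_lit 92, nat_lit 96720372⟩]⟩
noncomputable def p118_l93 : Lf2 := ⟨nat_lit 0, nat_lit 30, [nat_lit 15, nat_lit 5, nat_lit 5, nat_lit 20], false, nat_lit 80, nat_lit 196, nat_lit 0, nat_lit 360, ⟨nat_lit 1000, nat_lit 0, nat_lit 0, nat_lit 0, nat_lit 0, nat_lit 0, nat_lit 0, nat_lit 0, nat_lit 0, nat_lit 0, nat_lit 0, nat_lit 0, nat_lit 0, nat_lit 0, nat_lit 0, nat_lit 0, false, false⟩,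
 nat_lit 17868, nat_lit 0, nat_lit 0, nat_lit 0, nat_lit 6841, nat_lit 9926, nat_lit 0, nat_lit 0, nat_lit 0, nat_lit 637, nat_lit 0, nat_lit 0, nat_lit 0, nat_lit 0, nat_lit 0, nat_lit 0, nat_lit 0, nat_lit 0, [],
 ⟨p118_k25, nat_lit 0, nat_lit 0, nat_lit 127, nat_lit 0, nat_lit 40879, [nat_lit 938000000, nat_lit 4688000000, nat_lit 6250000000], [], [nat_lit 30622755713, nat_lit 31070311910, nat_lit 33257340158, nat_lit 33753832239, nat_lit 30071988661, nat_lit 30448573905, nat_lit 32211028690, nat_lit 32544371501], nat_lit 1271250, nat_lit 1271250, nat_lit 1271250, nat_lit 1271250, nat_lit 490000, nat_lit 1396250, [nat_lit 230000, nat_lit 1100000, nat_lit 1442500], [nat_lit 55, nat_lit 40, nat_lit 40, nat_lit 80, nat_lit 3, nat_lit 260, nat_lit 50, nat_lit 8]⟩, ⟨p118_k26, nat_lit 0, nat_lit 0, nat_lit 301, nat_lit 0, nat_lit 82340, [nat_lit 4688000000, nat_lit 9842000000, nat_lit 14058000000], [], [nat_lit 36722005833,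 nat_lit 37178666351, nat_lit 39935042697, nat_lit 40296868942, nat_lit 32790089887, nat_lit 32934668019, nat_lit 34181327456, nat_lit 34275866004], nat_lit 1271250, nat_lit 1271250, nat_lit 1271250, nat_lit 1271250, nat_lit 0, nat_lit 2542500, [nat_lit 1100000, nat_lit 2127500, nat_lit 1271250], [nat_lit 56, nat_lit 40, nat_lit 40, nat_lit 80, nat_lit 32, nat_lit 483, nat_lit 250, nat_lit 11]⟩,
 zbF0, [⟨nat_lit 4, nat_lit 100, nat_lit 35, nat_lit 90, nat_lit 469718626⟩, ⟨nat_lit 7, nat_lit 71, nat_lit 100, nat_lit 93, nat_lit 120013418⟩]⟩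
noncomputable def p118_l94 : Lf2 := ⟨nat_lit 1, nat_lit 30, [nat_lit 15, nat_lit 5, nat_lit 5, nat_lit 20], false, nat_lit 80, nat_lit 208, nat_lit 0, nat_lit 364, zbN0,
 nat_lit 0, nat_lit 0, nat_lit 0, nat_lit 0, nat_lit 0, nat_lit 0, nat_lit 0, nat_lit 0, nat_lit 0, nat_lit 0, nat_lit 0, nat_lit 0, nat_lit 0, nat_lit 0, nat_lit 0, nat_lit 0, nat_lit 0, nat_lit 0, [],
 C1.Rw.none, C1.Rw.none,
 zbF0, []⟩
noncomputable def p118_l95 : Lf2 := ⟨nat_lit 0, nat_lit 30, [nat_lit 15, nat_lit 5, nat_lit 5, nat_lit 20], false, nat_lit 80, nat_lit 184, nat_lit 0, nat_lit 160, ⟨nat_lit 1000, nat_lit 0, nat_lit 0, nat_lit 0, nat_lit 0, nat_lit 0, nat_lit 0, nat_lit 0, nat_lit 0, nat_lit 0, nat_lit 0, nat_lit 0, nat_lit 0, nat_lit 0, nat_lit 0, nat_lit 0, false, false⟩,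
 nat_lit 13426, nat_lit 0, nat_lit 0, nat_lit 0, nat_lit 3170, nat_lit 7107, nat_lit 393, nat_lit 0, nat_lit 0, nat_lit 742, nat_lit 0, nat_lit 0, nat_lit 0, nat_lit 0, nat_lit 0, nat_lit 0, nat_lit 0, nat_lit 0, [],
 ⟨p118_k8, nat_lit 0, nat_lit 0, nat_lit 143, nat_lit 0, nat_lit 91369, [nat_lit 938000000, nat_lit 4688000000, nat_lit 6250000000], [], [nat_lit 25444429700, nat_lit 26035458480, nat_lit 27149670180, nat_lit 27812305720, nat_lit 26224851074, nat_lit 26723638157, nat_lit 27693156261, nat_lit 28276295673], nat_lit 1271250, nat_lit 1271250, nat_lit 1271250, nat_lit 1271250, nat_lit 490000, nat_lit 1302500, [nat_lit 230000, nat_lit 1100000, nat_lit 1442500], [nat_lit 55, nat_lit 40, nat_lit 40, nat_lit 80, nat_lit 3, nat_lit 260, nat_lit 50, nat_lit 8]⟩, ⟨p118_k7, nat_lit 0, nat_lit 0, nat_lit 454, nat_lit 0, nat_lit 201733, [nat_lit 4688000000, nat_lit 9842000000, nat_lit 16400000000], [], [nat_lit 40306560106,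 nat_lit 40696057850, nat_lit 41896767384, nat_lit 42484700108, nat_lit 35548515812, nat_lit 36010125010, nat_lit 36852730780, nat_lit 37255247432], nat_lit 1271250, nat_lit 1271250, nat_lit 1271250, nat_lit 1271250, nat_lit 0, nat_lit 1100001, [nat_lit 1100000, nat_lit 2127500, nat_lit 1271250], [nat_lit 83, nat_lit 40, nat_lit 40, nat_lit 80, nat_lit 73, nat_lit 428, nat_lit 200, nat_lit 9]⟩,
 zbF0, [⟨nat_lit 13, nat_lit 23, nat_lit 92, nat_lit 100, nat_lit 128628799⟩, ⟨nat_lit 4, nat_lit 100, nat_lit 23, nat_lit 92, nat_lit 968259776⟩]⟩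
noncomputable def p118_l96 : Lf2 := ⟨nat_lit 0, nat_lit 30, [nat_lit 15, nat_lit 5, nat_lit 5, nat_lit 20], false, nat_lit 80, nat_lit 184, nat_lit 160, nat_lit 364, ⟨nat_lit 484, nat_lit 0, nat_lit 516, nat_lit 7, nat_lit 272, nat_lit 516, nat_lit 115, nat_lit 516, nat_lit 123267, nat_lit 301, nat_lit 140356, nat_lit 200, nat_lit 41831059, nat_lit 0, nat_lit 0, nat_lit 4526552, true, true⟩,
 nat_lit 9964, nat_lit 0, nat_lit 0, nat_lit 0, nat_lit 3422, nat_lit 5275, nat_lit 47, nat_lit 0, nat_lit 0, nat_lit 338, nat_lit 0, nat_lit 0, nat_lit 0, nat_lit 0, nat_lit 0, nat_lit 100620, nat_lit 0, nat_lit 0, [(nat_lit 29, [(nat_lit 3, nat_lit 516)])],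
 ⟨p118_k8, nat_lit 0, nat_lit 0, nat_lit 128, nat_lit 0, nat_lit 53874, [nat_lit 1045121600, nat_lit 1571153600, nat_lit 1991968000], [], [nat_lit 25959146220, nat_lit 26265097694, nat_lit 27062874576, nat_lit 27350942192, nat_lit 26624228109, nat_lit 26881724029, nat_lit 27586677411, nat_lit 27840311759], nat_lit 1271250, nat_lit 1271250, nat_lit 1271250, nat_lit 1271250, nat_lit 490000, nat_lit 1302500, [nat_lit 230000, nat_lit 1100000, nat_lit 1442500], [nat_lit 55, nat_lit 40, nat_lit 40, nat_lit 80, nat_lit 3, nat_lit 260, nat_lit 50, nat_lit 8]⟩, ⟨p118_k7, nat_lit 0, nat_lit 0, nat_lit 227, nat_lit 0, nat_lit 118948, [nat_lit 2268992000, nat_lit 4763528000, nat_lit 7937600000], [], [nat_lit 13846254806, nat_lit 13991829268, nat_lit 14504158654, nat_lit 14628925199, nat_lit 16010190678, nat_lit 16045547528, nat_lit 16305899561, nat_lit 16330848083], nat_lit 1271250, nat_lit 1271250, nat_lit 1271250, nat_lit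 1271250, nat_lit 1100001, nat_lit 2846750, [nat_lit 1100000, nat_lit 2127500, nat_lit 1271250], [nat_lit 83, nat_lit 40, nat_lit 40, nat_lit 80, nat_lit 73, nat_lit 483, nat_lit 250, nat_lit 9]⟩,
 ⟨nat_lit 1118, nat_lit 1582, ⟨.ofNat (nat_lit 655900), .ofNat (nat_lit 694145), .ofNat (nat_lit 667558), .ofNat (nat_lit 705803), .ofNat (nat_lit 653755), .ofNat (nat_lit 690944), .ofNat (nat_lit 665630), .ofNat (nat_lit 702819)⟩, ⟨.ofNat (nat_lit 200000), .ofNat (nat_lit 361569), .ofNat (nat_lit 200000), .ofNat (nat_lit 384884), .ofNat (nat_lit 200000), .ofNat (nat_lit 359993), .ofNat (nat_lit 200000), .ofNat (nat_lit 383744)⟩⟩, [⟨nat_lit 13, nat_lit 23, nat_lit 93, nat_lit 100, nat_lit 225776273⟩, ⟨nat_lit 4, nat_lit 100, nat_lit 28, nat_lit 91, nat_lit 374963520⟩, ⟨nat_lit 19, nat_lit 100, nat_lit 66, nat_lit 92, nat_lit 168830051⟩]⟩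
noncomputable def p118_l97 : Lf2 := ⟨nat_lit 0, nat_lit 30, [nat_lit 15, nat_lit 5, nat_lit 5, nat_lit 20], false, nat_lit 80, nat_lit 164, nat_lit 160, nat_lit 364, ⟨nat_lit 397, nat_lit 0, nat_lit 603, nat_lit 7, nat_lit 266, nat_lit 603, nat_lit 109, nat_lit 603, nat_lit 112067, nat_lit 297, nat_lit 91884, nat_lit 200, nat_lit 42614933, nat_lit 0, nat_lit 0, nat_lit 4436183, true, true⟩,
 nat_lit 6520, nat_lit 0, nat_lit 0, nat_lit 0, nat_lit 3460, nat_lit 3451, nat_lit 0, nat_lit 0, nat_lit 0, nat_lit 273, nat_lit 0, nat_lit 0, nat_lit 0, nat_lit 0, nat_lit 0, nat_lit 117585, nat_lit 0, nat_lit 0, [(nat_lit 29, [(nat_lit 3, nat_lit 603)])],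
 ⟨p118_k27, nat_lit 0, nat_lit 0, nat_lit 134, nat_lit 0, nat_lit 78301, [nat_lit 1063182801, nat_lit 1045638801, nat_lit 1274044000], [], [nat_lit 26197296920, nat_lit 26504822240, nat_lit 26664156096, nat_lit 27032461064, nat_lit 26462759322, nat_lit 26740273361, nat_lit 26887124617, nat_lit 27158496770], nat_lit 1271250, nat_lit 1271250, nat_lit 1271250, nat_lit 1271250, nat_lit 490000, nat_lit 1133651, [nat_lit 230000, nat_lit 1100000, nat_lit 1442500], [nat_lit 55, nat_lit 40, nat_lit 40, nat_lit 80, nat_lit 3, nat_lit 260, nat_lit 50, nat_lit 8]⟩, ⟨p118_k7, nat_lit 0, nat_lit 0, nat_lit 249, nat_lit 0, nat_lit 176531, [nat_lit 1861136000, nat_lit 3907274000, nat_lit 6510800000], [], [nat_lit 11672109539, nat_lit 11786487802, nat_lit 11881037842, nat_lit 11989389886, nat_lit 13457446535, nat_lit 13497093582, nat_lit 13561352632, nat_lit 13629493256], nat_lit 1271250, nat_lit 1271250, nat_lit 1271250, nat_lit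 1271250, nat_lit 1100001, nat_lit 2846750, [nat_lit 1100000, nat_lit 2127500, nat_lit 1271250], [nat_lit 83, nat_lit 40, nat_lit 40, nat_lit 80, nat_lit 73, nat_lit 483, nat_lit 250, nat_lit 9]⟩,
 ⟨nat_lit 0, nat_lit 1119, ⟨.ofNat (nat_lit 653753), .ofNat (nat_lit 669691), .ofNat (nat_lit 665629), .ofNat (nat_lit 681567), .ofNat (nat_lit 649997), .ofNat (nat_lit 664997), .ofNat (nat_lit 662498), .ofNat (nat_lit 677498)⟩, ⟨.ofNat (nat_lit 200000), .ofNat (nat_lit 333427), .ofNat (nat_lit 200000), .ofNat (nat_lit 357179), .ofNat (nat_lit 200000), .ofNat (nat_lit 329996), .ofNat (nat_lit 200000), .ofNat (nat_lit 354998)⟩⟩, [⟨nat_lit 13, nat_lit 16, nat_lit 95, nat_lit 100, nat_lit 671711265⟩, ⟨nat_lit 4, nat_lit 100, nat_lit 17, nat_lit 94, nat_lit 258663273⟩, ⟨nat_lit 19, nat_lit 100, nat_lit 66, nat_lit 92, nat_lit 145209742⟩]⟩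
noncomputable def p118_l98 : Lf2 := ⟨nat_lit 0, nat_lit 30, [nat_lit 15, nat_lit 5, nat_lit 5, nat_lit 20], false, nat_lit 80, nat_lit 184, nat_lit 160, nat_lit 360, ⟨nat_lit 1000, nat_lit 0, nat_lit 0, nat_lit 0, nat_lit 0, nat_lit 0, nat_lit 0, nat_lit 0, nat_lit 0, nat_lit 0, nat_lit 0, nat_lit 0, nat_lit 0, nat_lit 0, nat_lit 0, nat_lit 0, false, false⟩,
 nat_lit 13313, nat_lit 0, nat_lit 0, nat_lit 0, nat_lit 3194, nat_lit 7396, nat_lit 391, nat_lit 0, nat_lit 0, nat_lit 661, nat_lit 0, nat_lit 0, nat_lit 0, nat_lit 0, nat_lit 0, nat_lit 0, nat_lit 0, nat_lit 0, [],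
 ⟨p118_k8, nat_lit 0, nat_lit 0, nat_lit 143, nat_lit 0, nat_lit 91369, [nat_lit 938000000, nat_lit 4688000000, nat_lit 6250000000], [], [nat_lit 25473381940, nat_lit 26068101312, nat_lit 27189007476, nat_lit 27853958104, nat_lit 26222414487, nat_lit 26743501424, nat_lit 27720423221, nat_lit 28305476351], nat_lit 1271250, nat_lit 1271250, nat_lit 1271250, nat_lit 1271250, nat_lit 490000, nat_lit 1302500, [nat_lit 230000, nat_lit 1100000, nat_lit 1442500], [nat_lit 55, nat_lit 40, nat_lit 40, nat_lit 80, nat_lit 3, nat_lit 260, nat_lit 50, nat_lit 8]⟩, ⟨p118_k26, nat_lit 0, nat_lit 0, nat_lit 219, nat_lit 0, nat_lit 188697, [nat_lit 4688000000, nat_lit 9842000000, nat_lit 14058000000], [], [nat_lit 28292502091, nat_lit 28640443571, nat_lit 30187613107, nat_lit 30484461427, nat_lit 33592757527, nat_lit 33836145061, nat_lit 35007329049, nat_lit 35211304869], nat_lit 1271250, nat_lit 1271250, nat_lit 1271250, nat_lit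 1271250, nat_lit 1100001, nat_lit 2812500, [nat_lit 1100000, nat_lit 2127500, nat_lit 1271250], [nat_lit 56, nat_lit 40, nat_lit 40, nat_lit 80, nat_lit 32, nat_lit 483, nat_lit 250, nat_lit 10]⟩,
 zbF0, [⟨nat_lit 4, nat_lit 100, nat_lit 23, nat_lit 92, nat_lit 965902289⟩, ⟨nat_lit 19, nat_lit 100, nat_lit 71, nat_lit 93, nat_lit 385968862⟩]⟩
noncomputable def p118_l99 : Lf2 := ⟨nat_lit 1, nat_lit 30, [nat_lit 15, nat_lit 5, nat_lit 5, nat_lit 20], false, nat_lit 80, nat_lit 208, nat_lit 0, nat_lit 364, zbN0,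
 nat_lit 0, nat_lit 0, nat_lit 0, nat_lit 0, nat_lit 0, nat_lit 0, nat_lit 0, nat_lit 0, nat_lit 0, nat_lit 0, nat_lit 0, nat_lit 0, nat_lit 0, nat_lit 0, nat_lit 0, nat_lit 0, nat_lit 0, nat_lit 0, [],
 C1.Rw.none, C1.Rw.none,
 zbF0, []⟩
noncomputable def p118_l100 : Lf2 := ⟨nat_lit 0, nat_lit 30, [nat_lit 15, nat_lit 5, nat_lit 5, nat_lit 20], false, nat_lit 80, nat_lit 208, nat_lit 0, nat_lit 160, ⟨nat_lit 1000, nat_lit 0, nat_lit 0, nat_lit 0, nat_lit 0, nat_lit 0, nat_lit 0, nat_lit 0, nat_lit 0, nat_lit 0, nat_lit 0, nat_lit 0, nat_lit 0, nat_lit 0, nat_lit 0, nat_lit 0, false, false⟩,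
 nat_lit 12071, nat_lit 0, nat_lit 0, nat_lit 0, nat_lit 3389, nat_lit 7026, nat_lit 535, nat_lit 0, nat_lit 0, nat_lit 663, nat_lit 0, nat_lit 0, nat_lit 0, nat_lit 0, nat_lit 0, nat_lit 0, nat_lit 0, nat_lit 0, [],
 ⟨p118_k6, nat_lit 0, nat_lit 0, nat_lit 195, nat_lit 0, nat_lit 196890, [nat_lit 938000000, nat_lit 4688000000, nat_lit 7968000000], [], [nat_lit 23799011207, nat_lit 24808519967, nat_lit 28556914799, nat_lit 29815304829, nat_lit 24995092113, nat_lit 26054083358, nat_lit 29256578931, nat_lit 30326570345], nat_lit 1271250, nat_lit 1271250, nat_lit 1271250, nat_lit 1271250, nat_lit 490000, nat_lit 1490000, [nat_lit 230000, nat_lit 1100000, nat_lit 1785000], [nat_lit 57, nat_lit 40, nat_lit 40, nat_lit 80, nat_lit 7, nat_lit 272, nat_lit 60, nat_lit 8]⟩, ⟨p118_k3, nat_lit 0, nat_lit 0, nat_lit 463, nat_lit 0, nat_lit 367051, [nat_lit 4688000000, nat_lit 9842000000, nat_lit 14058000000], [], [nat_lit 37365325616,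 nat_lit 37925144956, nat_lit 41063176944, nat_lit 41412254410, nat_lit 32818802544, nat_lit 33240611064, nat_lit 35582167107, nat_lit 35926023815], nat_lit 1271250, nat_lit 1271250, nat_lit 1271250, nat_lit 1271250, nat_lit 0, nat_lit 1100001, [nat_lit 1100000, nat_lit 2127500, nat_lit 1271250], [nat_lit 56, nat_lit 40, nat_lit 40, nat_lit 80, nat_lit 32, nat_lit 428, nat_lit 200, nat_lit 10]⟩,
 zbF0, [⟨nat_lit 0, nat_lit 94, nat_lit 31, nat_lit 100, nat_lit 107021852⟩, ⟨nat_lit 4, nat_lit 100, nat_lit 32, nat_lit 88, nat_lit 803760844⟩]⟩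
noncomputable def p118_l101 : Lf2 := ⟨nat_lit 0, nat_lit 30, [nat_lit 15, nat_lit 5, nat_lit 5, nat_lit 20], false, nat_lit 80, nat_lit 160, nat_lit 160, nat_lit 352, ⟨nat_lit 1000, nat_lit 0, nat_lit 0, nat_lit 0, nat_lit 0, nat_lit 0, nat_lit 0, nat_lit 0, nat_lit 0, nat_lit 0, nat_lit 0, nat_lit 0, nat_lit 0, nat_lit 0, nat_lit 0, nat_lit 0, false, false⟩,
 nat_lit 10657, nat_lit 0, nat_lit 0, nat_lit 0, nat_lit 7755, nat_lit 6203, nat_lit 136, nat_lit 0, nat_lit 0, nat_lit 660, nat_lit 0, nat_lit 0, nat_lit 0, nat_lit 0, nat_lit 0, nat_lit 0, nat_lit 0, nat_lit 0, [],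
 ⟨p118_k6, nat_lit 0, nat_lit 0, nat_lit 178, nat_lit 0, nat_lit 142329, [nat_lit 938000000, nat_lit 4688000000, nat_lit 7968000000], [], [nat_lit 29152428690, nat_lit 30134659125, nat_lit 36192112728, nat_lit 37191252895, nat_lit 27899014780, nat_lit 28777043820, nat_lit 34034287626, nat_lit 34932954706], nat_lit 1271250, nat_lit 1271250, nat_lit 1271250, nat_lit 1271250, nat_lit 490000, nat_lit 1100001, [nat_lit 230000, nat_lit 1100000, nat_lit 1785000], [nat_lit 57, nat_lit 40, nat_lit 40, nat_lit 80, nat_lit 7, nat_lit 249, nat_lit 40, nat_lit 7]⟩, ⟨p118_k3, nat_lit 0, nat_lit 0, nat_lit 261, nat_lit 0, nat_lit 264781, [nat_lit 4688000000, nat_lit 9842000000, nat_lit 14058000000], [], [nat_lit 27972250540, nat_lit 28603030264, nat_lit 31958961390, nat_lit 32460632502, nat_lit 32611760480, nat_lit 33089757956, nat_lit 35926564880, nat_lit 36297088749], nat_lit 1271250, nat_lit 1271250, nat_lit 1271250, nat_lit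 1271250, nat_lit 1100001, nat_lit 2744000, [nat_lit 1100000, nat_lit 2127500, nat_lit 1271250], [nat_lit 56, nat_lit 40, nat_lit 40, nat_lit 80, nat_lit 32, nat_lit 483, nat_lit 250, nat_lit 10]⟩,
 zbF0, [⟨nat_lit 4, nat_lit 100, nat_lit 38, nat_lit 87, nat_lit 77945889⟩, ⟨nat_lit 7, nat_lit 82, nat_lit 100, nat_lit 92, nat_lit 364709537⟩]⟩
noncomputable def p118_l102 : Lf2 := ⟨nat_lit 0, nat_lit 30, [nat_lit 15, nat_lit 5, nat_lit 5, nat_lit 20], false, nat_lit 160, nat_lit 208, nat_lit 160, nat_lit 352, ⟨nat_lit 1000, nat_lit 0, nat_lit 0, nat_lit 0, nat_lit 0, nat_lit 0, nat_lit 0, nat_lit 0, nat_lit 0, nat_lit 0, nat_lit 0, nat_lit 0, nat_lit 0, nat_lit 0, nat_lit 0, nat_lit 0, false, false⟩,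
 nat_lit 9827, nat_lit 0, nat_lit 4389, nat_lit 0, nat_lit 9182, nat_lit 8274, nat_lit 0, nat_lit 0, nat_lit 0, nat_lit 614, nat_lit 0, nat_lit 0, nat_lit 0, nat_lit 0, nat_lit 0, nat_lit 0, nat_lit 0, nat_lit 0, [],
 ⟨p118_k6, nat_lit 0, nat_lit 0, nat_lit 150, nat_lit 0, nat_lit 142329, [nat_lit 938000000, nat_lit 4688000000, nat_lit 7968000000], [], [nat_lit 29285044792, nat_lit 30267256248, nat_lit 35847469787, nat_lit 36851885842, nat_lit 29843662826, nat_lit 30740382915, nat_lit 36072718200, nat_lit 36989595418], nat_lit 1271250, nat_lit 1271250, nat_lit 1271250, nat_lit 1271250, nat_lit 1100001, nat_lit 1511000, [nat_lit 230000, nat_lit 1100000, nat_lit 1785000], [nat_lit 57, nat_lit 40, nat_lit 40, nat_lit 80, nat_lit 7, nat_lit 272, nat_lit 60, nat_lit 7]⟩, ⟨p118_k3, nat_lit 0, nat_lit 0, nat_lit 261, nat_lit 0, nat_lit 264781, [nat_lit 4688000000, nat_lit 9842000000, nat_lit 14058000000], [], [nat_lit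 26677533572, nat_lit 27503348984, nat_lit 31979334853, nat_lit 32493678493, nat_lit 32293842820, nat_lit 32692268349, nat_lit 35190052060, nat_lit 35392810960], nat_lit 1271250, nat_lit 1271250, nat_lit 1271250, nat_lit 1271250, nat_lit 1100001, nat_lit 2744000, [nat_lit 1100000, nat_lit 2127500, nat_lit 1271250], [nat_lit 56, nat_lit 40, nat_lit 40, nat_lit 80, nat_lit 32, nat_lit 483, nat_lit 250, nat_lit 10]⟩,
 zbF0, [⟨nat_lit 4, nat_lit 100, nat_lit 38, nat_lit 87, nat_lit 745546316⟩, ⟨nat_lit 7, nat_lit 82, nat_lit 100, nat_lit 92, nat_lit 334528737⟩]⟩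
noncomputable def p118_l103 : Lf2 := ⟨nat_lit 1, nat_lit 30, [nat_lit 15, nat_lit 5, nat_lit 5, nat_lit 20], false, nat_lit 80, nat_lit 208, nat_lit 160, nat_lit 352, zbN0,
 nat_lit 0, nat_lit 0, nat_lit 0, nat_lit 0, nat_lit 0, nat_lit 0, nat_lit 0, nat_lit 0, nat_lit 0, nat_lit 0, nat_lit 0, nat_lit 0, nat_lit 0, nat_lit 0, nat_lit 0, nat_lit 0, nat_lit 0, nat_lit 0, [],
 C1.Rw.none, C1.Rw.none,
 zbF0, []⟩
noncomputable def p118_l104 : Lf2 := ⟨nat_lit 0, nat_lit 30, [nat_lit 15, nat_lit 5, nat_lit 5, nat_lit 20], false, nat_lit 80, nat_lit 184, nat_lit 160, nat_lit 352, ⟨nat_lit 1000, nat_lit 0, nat_lit 0, nat_lit 0, nat_lit 0, nat_lit 0, nat_lit 0, nat_lit 0, nat_lit 0, nat_lit 0, nat_lit 0, nat_lit 0, nat_lit 0, nat_lit 0, nat_lit 0, nat_lit 0, false, false⟩,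
 nat_lit 11233, nat_lit 0, nat_lit 0, nat_lit 0, nat_lit 4851, nat_lit 6538, nat_lit 242, nat_lit 0, nat_lit 0, nat_lit 700, nat_lit 0, nat_lit 0, nat_lit 0, nat_lit 0, nat_lit 0, nat_lit 0, nat_lit 0, nat_lit 0, [],
 ⟨p118_k8, nat_lit 0, nat_lit 0, nat_lit 173, nat_lit 0, nat_lit 188636, [nat_lit 938000000, nat_lit 4688000000, nat_lit 6250000000], [], [nat_lit 26126284022, nat_lit 26922179568, nat_lit 30885817127, nat_lit 31674748684, nat_lit 26390466881, nat_lit 27079897064, nat_lit 30460494916, nat_lit 31147793747], nat_lit 1271250, nat_lit 1271250, nat_lit 1271250, nat_lit 1271250, nat_lit 490000, nat_lit 1302500, [nat_lit 230000, nat_lit 1100000, nat_lit 1442500], [nat_lit 55, nat_lit 40, nat_lit 40, nat_lit 80, nat_lit 3, nat_lit 260, nat_lit 50, nat_lit 8]⟩, ⟨p118_k3, nat_lit 0, nat_lit 0, nat_lit 300, nat_lit 0, nat_lit 367051, [nat_lit 4688000000, nat_lit 9842000000, nat_lit 14058000000], [], [nat_lit 26894410840,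 nat_lit 27533467744, nat_lit 30527133445, nat_lit 31069486245, nat_lit 31930083724, nat_lit 32503152836, nat_lit 35020053144, nat_lit 35418113171], nat_lit 1271250, nat_lit 1271250, nat_lit 1271250, nat_lit 1271250, nat_lit 1100001, nat_lit 2744000, [nat_lit 1100000, nat_lit 2127500, nat_lit 1271250], [nat_lit 56, nat_lit 40, nat_lit 40, nat_lit 80, nat_lit 32, nat_lit 483, nat_lit 250, nat_lit 10]⟩,
 zbF0, [⟨nat_lit 16, nat_lit 23, nat_lit 100, nat_lit 91, nat_lit 857290756⟩, ⟨nat_lit 19, nat_lit 100, nat_lit 69, nat_lit 96, nat_lit 135622660⟩, ⟨nat_lit 7, nat_lit 82, nat_lit 100, nat_lit 92, nat_lit 245542756⟩]⟩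
noncomputable def b_V_900_600_20_87 : St := ⟨true, nat_lit 1, nat_lit 1, nat_lit 1, nat_lit 120, nat_lit 380, nat_lit 400, nat_lit 240, nat_lit 280, nat_lit 240, nat_lit 352, nat_lit 80, nat_lit 120, nat_lit 80, nat_lit 208, nat_lit 0, nat_lit 364, nat_lit 120, nat_lit 156, nat_lit 0, nat_lit 0, nat_lit 0, nat_lit 0⟩
theorem d_V_900_600_20_87 (h : EB TB.env) : Dead b_V_900_600_20_87 := chkB_sound0 h (T :=
(.spl (nat_lit 1) (nat_lit 260)
(.trX (nat_lit 13) (nat_lit 46) (nat_lit 76) (nat_lit 100) (nat_lit 340) (.spl (nat_lit 2) (nat_lit 280)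
(.spl (nat_lit 5) (nat_lit 160)
(.leaf p118_l81)
(.spl (nat_lit 0) (nat_lit 390)
(.spl (nat_lit 6) (nat_lit 140)
(.spl (nat_lit 4) (nat_lit 160)
(.spl (nat_lit 0) (nat_lit 385)
(.leaf p118_l82)
(.leaf p118_l83))
(.spl (nat_lit 3) (nat_lit 100)
(.trX (nat_lit 16) (nat_lit 44) (nat_lit 100) (nat_lit 87) (nat_lit 188) (.trX (nat_lit 19) (nat_lit 100) (nat_lit 68) (nat_lit 88) (nat_lit 352) (.leaf p118_l84)))
(.leaf p118_l85)))
(.leaf p118_l86))
(.trX (nat_lit 16) (nat_lit 31) (nat_lit 100) (nat_lit 92) (nat_lit 184) (.spl (nat_lit 4) (nat_lit 120)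
(.leaf p118_l87)
(.leaf p118_l88)))))
(.spl (nat_lit 3) (nat_lit 100)
(.trX (nat_lit 16) (nat_lit 44) (nat_lit 100) (nat_lit 87) (nat_lit 188) (.trX (nat_lit 19) (nat_lit 100) (nat_lit 68) (nat_lit 88) (nat_lit 352) (.leaf p118_l89)))
(.spl (nat_lit 6) (nat_lit 140)
(.spl (nat_lit 0) (nat_lit 390)
(.spl (nat_lit 6) (nat_lit 128)
(.spl (nat_lit 0) (nat_lit 385)
(.spl (nat_lit 5) (nat_lit 160)
(.leaf p118_l90)
(.leaf p118_l91))
(.trX (nat_lit 13) (nat_lit 40) (nat_lit 81) (nat_lit 100) (nat_lit 328) (.trX (nat_lit 16) (nat_lit 38) (nat_lit 100) (nat_lit 92) (nat_lit 196) (.spl (nat_lit 1) (nat_lit 250)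
(.trX (nat_lit 13) (nat_lit 39) (nat_lit 83) (nat_lit 100) (nat_lit 320) (.leaf p118_l92))
(.trX (nat_lit 19) (nat_lit 100) (nat_lit 64) (nat_lit 95) (nat_lit 360) (.leaf p118_l93))))))
(.leaf p118_l94))
(.trX (nat_lit 13) (nat_lit 33) (nat_lit 85) (nat_lit 100) (nat_lit 320) (.trX (nat_lit 16) (nat_lit 31) (nat_lit 100) (nat_lit 92) (nat_lit 184) (.spl (nat_lit 5) (nat_lit 160)
(.leaf p118_l95)
(.spl (nat_lit 1) (nat_lit 250)
(.trX (nat_lit 13) (nat_lit 32) (nat_lit 87) (nat_lit 100) (nat_lit 308) (.spl (nat_lit 0) (nat_lit 395)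
(.leaf p118_l96)
(.trX (nat_lit 13) (nat_lit 23) (nat_lit 92) (nat_lit 100) (nat_lit 292) (.trX (nat_lit 16) (nat_lit 23) (nat_lit 100) (nat_lit 93) (nat_lit 164) (.leaf p118_l97)))))
(.trX (nat_lit 19) (nat_lit 100) (nat_lit 64) (nat_lit 95) (nat_lit 360) (.leaf p118_l98)))))))
(.leaf p118_l99)))))
(.trX (nat_lit 19) (nat_lit 100) (nat_lit 69) (nat_lit 96) (nat_lit 352) (.spl (nat_lit 5) (nat_lit 160)
(.leaf p118_l100)
(.spl (nat_lit 0) (nat_lit 390)
(.spl (nat_lit 6) (nat_lit 148)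
(.spl (nat_lit 4) (nat_lit 160)
(.leaf p118_l101)
(.leaf p118_l102))
(.leaf p118_l103))
(.trX (nat_lit 13) (nat_lit 34) (nat_lit 81) (nat_lit 100) (nat_lit 336) (.trX (nat_lit 16) (nat_lit 31) (nat_lit 100) (nat_lit 92) (nat_lit 184) (.leaf p118_l104)))))))) (by decide +kernel)
noncomputable def p118_l105 : Lf2 := ⟨nat_lit 0, nat_lit 30, [nat_lit 15, nat_lit 5, nat_lit 5, nat_lit 20], true, nat_lit 8, nat_lit 248, nat_lit 0, nat_lit 364, ⟨nat_lit 0, nat_lit 1000, nat_lit 0, nat_lit 6, nat_lit 213, nat_lit 1000, nat_lit 94, nat_lit 0, nat_lit 0, nat_lit 0, nat_lit 0, nat_lit 0, nat_lit 0, nat_lit 0, nat_lit 0, nat_lit 5000000, false, false⟩,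
 nat_lit 0, nat_lit 5001, nat_lit 0, nat_lit 104, nat_lit 4355, nat_lit 0, nat_lit 4, nat_lit 0, nat_lit 0, nat_lit 0, nat_lit 0, nat_lit 0, nat_lit 0, nat_lit 0, nat_lit 0, nat_lit 400000, nat_lit 0, nat_lit 0, [(nat_lit 26, [(nat_lit 1, nat_lit 1000)]), (nat_lit 29, [(nat_lit 1, nat_lit 1000)])],
 ⟨p118_k4, nat_lit 0, nat_lit 0, nat_lit 370, nat_lit 0, nat_lit 323778, [nat_lit 971200000, nat_lit 984400000, nat_lit 751600000], [], [nat_lit 25973669851, nat_lit 28245741874, nat_lit 27212017347, nat_lit 29380680600, nat_lit 25229647929, nat_lit 26938365341, nat_lit 29449006450, nat_lit 27935133867], nat_lit 1271250, nat_lit 1271250, nat_lit 719601, nat_lit 1758000, nat_lit 43600, nat_lit 1756600, [nat_lit 230000, nat_lit 1100000, nat_lit 2127500], [nat_lit 81, nat_lit 40, nat_lit 40, nat_lit 80, nat_lit 13, nat_lit 345, nat_lit 125, nat_lit 10]⟩, C1.Rw.none,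
 ⟨nat_lit 0, nat_lit 3163, ⟨.ofNat (nat_lit 401957), .ofNat (nat_lit 605128), .ofNat (nat_lit 443658), .ofNat (nat_lit 646918), .ofNat (nat_lit 431745), .ofNat (nat_lit 599865), .ofNat (nat_lit 479136), .ofNat (nat_lit 647345)⟩, ⟨.ofNat (nat_lit 20000), .ofNat (nat_lit 440207), .ofNat (nat_lit 20000), .ofNat (nat_lit 484518), .ofNat (nat_lit 20000), .ofNat (nat_lit 409993), .ofNat (nat_lit 20000), .ofNat (nat_lit 459993)⟩⟩, [⟨nat_lit 4, nat_lit 100, nat_lit 44, nat_lit 87, nat_lit 104444935⟩]⟩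
noncomputable def p118_l106 : Lf2 := ⟨nat_lit 0, nat_lit 30, [nat_lit 15, nat_lit 5, nat_lit 5, nat_lit 20], false, nat_lit 8, nat_lit 248, nat_lit 0, nat_lit 160, ⟨nat_lit 781, nat_lit 219, nat_lit 0, nat_lit 6, nat_lit 288, nat_lit 219, nat_lit 94, nat_lit 0, nat_lit 0, nat_lit 0, nat_lit 0, nat_lit 0, nat_lit 0, nat_lit 0, nat_lit 0, nat_lit 5000000, true, true⟩,
 nat_lit 0, nat_lit 5359, nat_lit 0, nat_lit 968, nat_lit 4667, nat_lit 4687, nat_lit 257, nat_lit 0, nat_lit 0, nat_lit 568, nat_lit 0, nat_lit 0, nat_lit 0, nat_lit 0, nat_lit 0, nat_lit 219000, nat_lit 0, nat_lit 0, [(nat_lit 26, [(nat_lit 2, nat_lit 219)]), (nat_lit 29, [(nat_lit 2, nat_lit 219)])],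
 ⟨p118_k4, nat_lit 0, nat_lit 0, nat_lit 340, nat_lit 0, nat_lit 323778, [nat_lit 1190463200, nat_lit 3244089200, nat_lit 6099114800], [], [nat_lit 30424299051, nat_lit 32094609579, nat_lit 34535002336, nat_lit 37378523041, nat_lit 28988594234, nat_lit 30254032133, nat_lit 31976630572, nat_lit 33741460657], nat_lit 1271250, nat_lit 1271250, nat_lit 1271250, nat_lit 1271250, nat_lit 43600, nat_lit 1756600, [nat_lit 230000, nat_lit 1100000, nat_lit 2127500], [nat_lit 81, nat_lit 40, nat_lit 40, nat_lit 80, nat_lit 13, nat_lit 401, nat_lit 175, nat_lit 11]⟩, ⟨p118_k7, nat_lit 0, nat_lit 0, nat_lit 317, nat_lit 0, nat_lit 0, [nat_lit 3661328000, nat_lit 7686602000, nat_lit 12808400000], [], [nat_lit 25879232600, nat_lit 26984935428, nat_lit 30679297203, nat_lit 31316335940, nat_lit 22508445740, nat_lit 23326977612, nat_lit 26840323131, nat_lit 27652658374], nat_lit 0, nat_lit 0, nat_lit 0, nat_lit 0, nat_lit 0, nat_lit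 0, [], [nat_lit 83, nat_lit 40, nat_lit 40, nat_lit 80, nat_lit 73, nat_lit 456, nat_lit 225, nat_lit 9]⟩,
 ⟨nat_lit 0, nat_lit 3163, ⟨.ofNat (nat_lit 605128), .ofNat (nat_lit 812499), .ofNat (nat_lit 646918), .ofNat (nat_lit 856810), .ofNat (nat_lit 599865), .ofNat (nat_lit 769995), .ofNat (nat_lit 647345), .ofNat (nat_lit 819996)⟩, ⟨.ofNat (nat_lit 20000), .ofNat (nat_lit 440207), .ofNat (nat_lit 20000), .ofNat (nat_lit 484518), .ofNat (nat_lit 20000), .ofNat (nat_lit 409993), .ofNat (nat_lit 20000), .ofNat (nat_lit 459993)⟩⟩, [⟨nat_lit 4, nat_lit 100, nat_lit 44, nat_lit 87, nat_lit 199043852⟩]⟩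
noncomputable def p118_l107 : Lf2 := ⟨nat_lit 0, nat_lit 30, [nat_lit 15, nat_lit 5, nat_lit 5, nat_lit 20], false, nat_lit 8, nat_lit 248, nat_lit 160, nat_lit 364, ⟨nat_lit 928, nat_lit 72, nat_lit 0, nat_lit 6, nat_lit 288, nat_lit 72, nat_lit 94, nat_lit 0, nat_lit 0, nat_lit 0, nat_lit 0, nat_lit 0, nat_lit 0, nat_lit 0, nat_lit 0, nat_lit 5000000, true, true⟩,
 nat_lit 0, nat_lit 6899, nat_lit 0, nat_lit 0, nat_lit 6008, nat_lit 5043, nat_lit 336, nat_lit 0, nat_lit 0, nat_lit 0, nat_lit 0, nat_lit 0, nat_lit 0, nat_lit 0, nat_lit 0, nat_lit 72000, nat_lit 0, nat_lit 0, [(nat_lit 26, [(nat_lit 2, nat_lit 72)]), (nat_lit 29, [(nat_lit 2, nat_lit 72)])],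
 ⟨p118_k4, nat_lit 0, nat_lit 0, nat_lit 340, nat_lit 0, nat_lit 323778, [nat_lit 1021001600, nat_lit 4213289600, nat_lit 8611462400], [], [nat_lit 31587221210, nat_lit 33761218045, nat_lit 38185587003, nat_lit 41453985214, nat_lit 28628071197, nat_lit 29996860308, nat_lit 33105161413, nat_lit 35542327426], nat_lit 1271250, nat_lit 1271250, nat_lit 1271250, nat_lit 1271250, nat_lit 43600, nat_lit 1756600, [nat_lit 230000, nat_lit 1100000, nat_lit 2127500], [nat_lit 81, nat_lit 40, nat_lit 40, nat_lit 80, nat_lit 13, nat_lit 401, nat_lit 175, nat_lit 11]⟩, ⟨p118_k7, nat_lit 0, nat_lit 0, nat_lit 107, nat_lit 0, nat_lit 0, [nat_lit 4350464000, nat_lit 9133376000, nat_lit 15219200000], [], [nat_lit 14897507216, nat_lit 17234990980, nat_lit 23929887304, nat_lit 25411721759, nat_lit 24772528190, nat_lit 26085966073, nat_lit 30216533320, nat_lit 31136627454], nat_lit 0, nat_lit 0, nat_lit 0, nat_lit 0, nat_lit 0, nat_lit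 0, [], [nat_lit 83, nat_lit 40, nat_lit 40, nat_lit 80, nat_lit 73, nat_lit 538, nat_lit 300, nat_lit 11]⟩,
 ⟨nat_lit 0, nat_lit 3163, ⟨.ofNat (nat_lit 605128), .ofNat (nat_lit 812499), .ofNat (nat_lit 646918), .ofNat (nat_lit 856810), .ofNat (nat_lit 599865), .ofNat (nat_lit 769995), .ofNat (nat_lit 647345), .ofNat (nat_lit 819996)⟩, ⟨.ofNat (nat_lit 20000), .ofNat (nat_lit 440207), .ofNat (nat_lit 20000), .ofNat (nat_lit 484518), .ofNat (nat_lit 20000), .ofNat (nat_lit 409993), .ofNat (nat_lit 20000), .ofNat (nat_lit 459993)⟩⟩, [⟨nat_lit 4, nat_lit 100, nat_lit 44, nat_lit 87, nat_lit 262151761⟩, ⟨nat_lit 19, nat_lit 100, nat_lit 59, nat_lit 94, nat_lit 72430329⟩, ⟨nat_lit 7, nat_lit 77, nat_lit 100, nat_lit 91, nat_lit 242562277⟩, ⟨nat_lit 10, nat_lit 57, nat_lit 84, nat_lit 100, nat_lit 92942352⟩]⟩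
noncomputable def p118_l108 : Lf2 := ⟨nat_lit 0, nat_lit 30, [nat_lit 15, nat_lit 5, nat_lit 5, nat_lit 20], true, nat_lit 8, nat_lit 248, nat_lit 0, nat_lit 364, ⟨nat_lit 0, nat_lit 1000, nat_lit 0, nat_lit 6, nat_lit 213, nat_lit 1000, nat_lit 94, nat_lit 0, nat_lit 0, nat_lit 0, nat_lit 0, nat_lit 0, nat_lit 0, nat_lit 0, nat_lit 0, nat_lit 5000000, false, false⟩,
 nat_lit 0, nat_lit 5001, nat_lit 0, nat_lit 104, nat_lit 4355, nat_lit 0, nat_lit 4, nat_lit 0, nat_lit 0, nat_lit 0, nat_lit 0, nat_lit 0, nat_lit 0, nat_lit 0, nat_lit 0, nat_lit 400000, nat_lit 0, nat_lit 0, [(nat_lit 26, [(nat_lit 1, nat_lit 1000)]), (nat_lit 29, [(nat_lit 1, nat_lit 1000)])],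
 ⟨p118_k4, nat_lit 0, nat_lit 0, nat_lit 370, nat_lit 0, nat_lit 323778, [nat_lit 971200000, nat_lit 984400000, nat_lit 751600000], [], [nat_lit 25973669851, nat_lit 28245741874, nat_lit 27212017347, nat_lit 29380680600, nat_lit 25229647929, nat_lit 26938365341, nat_lit 29449006450, nat_lit 27935133867], nat_lit 1271250, nat_lit 1271250, nat_lit 719601, nat_lit 1758000, nat_lit 43600, nat_lit 1756600, [nat_lit 230000, nat_lit 1100000, nat_lit 2127500], [nat_lit 81, nat_lit 40, nat_lit 40, nat_lit 80, nat_lit 13, nat_lit 345, nat_lit 125, nat_lit 10]⟩, C1.Rw.none,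
 ⟨nat_lit 0, nat_lit 3163, ⟨.ofNat (nat_lit 401957), .ofNat (nat_lit 605128), .ofNat (nat_lit 443658), .ofNat (nat_lit 646918), .ofNat (nat_lit 431745), .ofNat (nat_lit 599865), .ofNat (nat_lit 479136), .ofNat (nat_lit 647345)⟩, ⟨.ofNat (nat_lit 20000), .ofNat (nat_lit 440207), .ofNat (nat_lit 20000), .ofNat (nat_lit 484518), .ofNat (nat_lit 20000), .ofNat (nat_lit 409993), .ofNat (nat_lit 20000), .ofNat (nat_lit 459993)⟩⟩, [⟨nat_lit 4, nat_lit 100, nat_lit 44, nat_lit 87, nat_lit 104444935⟩]⟩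
noncomputable def p118_l109 : Lf2 := ⟨nat_lit 0, nat_lit 30, [nat_lit 15, nat_lit 5, nat_lit 5, nat_lit 20], false, nat_lit 8, nat_lit 160, nat_lit 0, nat_lit 364, ⟨nat_lit 89, nat_lit 911, nat_lit 0, nat_lit 6, nat_lit 291, nat_lit 911, nat_lit 70, nat_lit 0, nat_lit 0, nat_lit 0, nat_lit 0, nat_lit 0, nat_lit 0, nat_lit 0, nat_lit 0, nat_lit 5000000, true, true⟩,
 nat_lit 1580, nat_lit 2197, nat_lit 0, nat_lit 2182, nat_lit 3289, nat_lit 836, nat_lit 158, nat_lit 0, nat_lit 0, nat_lit 52, nat_lit 0, nat_lit 0, nat_lit 0, nat_lit 0, nat_lit 0, nat_lit 276350, nat_lit 0, nat_lit 0, [(nat_lit 26, [(nat_lit 0, nat_lit 587), (nat_lit 1, nat_lit 324)])],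
 ⟨p118_k4, nat_lit 0, nat_lit 0, nat_lit 270, nat_lit 0, nat_lit 101373, [nat_lit 847558000, nat_lit 1819544800, nat_lit 2812975720], [], [nat_lit 27318809763, nat_lit 28161993786, nat_lit 31118410390, nat_lit 31987153238, nat_lit 26237095852, nat_lit 26977306276, nat_lit 29603253306, nat_lit 30246997304], nat_lit 1271250, nat_lit 1271250, nat_lit 1271250, nat_lit 1271250, nat_lit 43600, nat_lit 1100001, [nat_lit 230000, nat_lit 1100000, nat_lit 2127500], [nat_lit 81, nat_lit 40, nat_lit 40, nat_lit 80, nat_lit 13, nat_lit 373, nat_lit 150, nat_lit 10]⟩, ⟨p118_k7, nat_lit 0, nat_lit 0, nat_lit 458, nat_lit 0, nat_lit 197265, [nat_lit 417232000, nat_lit 875938000, nat_lit 1459600000], [], [nat_lit 3661599724, nat_lit 3741455848, nat_lit 4119265906, nat_lit 4186060272, nat_lit 3567570864, nat_lit 3161686202, nat_lit 3394476250, nat_lit 3402308083], nat_lit 1271250, nat_lit 1271250, nat_lit 1271250, nat_lit 1271250,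 nat_lit 0, nat_lit 2570750, [nat_lit 1100000, nat_lit 2127500, nat_lit 1271250], [nat_lit 83, nat_lit 40, nat_lit 40, nat_lit 80, nat_lit 73, nat_lit 538, nat_lit 300, nat_lit 11]⟩,
 ⟨nat_lit 2236, nat_lit 3163, ⟨.ofNat (nat_lit 605240), .ofNat (nat_lit 812503), .ofNat (nat_lit 649422), .ofNat (nat_lit 856813), .ofNat (nat_lit 602541), .ofNat (nat_lit 796416), .ofNat (nat_lit 647962), .ofNat (nat_lit 841964)⟩, ⟨.ofNat (nat_lit 20000), .ofNat (nat_lit 306116), .ofNat (nat_lit 20000), .ofNat (nat_lit 350426), .ofNat (nat_lit 20000), .ofNat (nat_lit 306337), .ofNat (nat_lit 20000), .ofNat (nat_lit 351886)⟩⟩, [⟨nat_lit 13, nat_lit 55, nat_lit 68, nat_lit 100, nat_lit 282938290⟩, ⟨nat_lit 10, nat_lit 100, nat_lit 51, nat_lit 82, nat_lit 15723622⟩]⟩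
noncomputable def p118_l110 : Lf2 := ⟨nat_lit 0, nat_lit 30, [nat_lit 15, nat_lit 5, nat_lit 5, nat_lit 20], true, nat_lit 20, nat_lit 160, nat_lit 0, nat_lit 364, ⟨nat_lit 0, nat_lit 1000, nat_lit 0, nat_lit 6, nat_lit 280, nat_lit 1000, nat_lit 75, nat_lit 0, nat_lit 0, nat_lit 0, nat_lit 0, nat_lit 0, nat_lit 0, nat_lit 0, nat_lit 0, nat_lit 5000000, true, true⟩,
 nat_lit 0, nat_lit 3066, nat_lit 0, nat_lit 1156, nat_lit 2864, nat_lit 0, nat_lit 0, nat_lit 0, nat_lit 0, nat_lit 0, nat_lit 0, nat_lit 0, nat_lit 0, nat_lit 0, nat_lit 0, nat_lit 380950, nat_lit 0, nat_lit 0, [(nat_lit 29, [(nat_lit 0, nat_lit 127), (nat_lit 1, nat_lit 873)])],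
 ⟨p118_k16, nat_lit 0, nat_lit 0, nat_lit 283, nat_lit 0, nat_lit 294334, [nat_lit 708966400, nat_lit 423795600, nat_lit 304329600], [], [nat_lit 25014938508, nat_lit 26202077624, nat_lit 29144046148, nat_lit 30349952183, nat_lit 25006735248, nat_lit 25913337760, nat_lit 28324392074, nat_lit 29067257012], nat_lit 1271250, nat_lit 1271250, nat_lit 1271250, nat_lit 1271250, nat_lit 111251, nat_lit 1100001, [nat_lit 230000, nat_lit 780000, nat_lit 1762500], [nat_lit 54, nat_lit 40, nat_lit 40, nat_lit 80, nat_lit 43, nat_lit 249, nat_lit 40, nat_lit 7]⟩, C1.Rw.none,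
 ⟨nat_lit 0, nat_lit 2237, ⟨.ofNat (nat_lit 602531), .ofNat (nat_lit 762201), .ofNat (nat_lit 646249), .ofNat (nat_lit 807752), .ofNat (nat_lit 599967), .ofNat (nat_lit 739994), .ofNat (nat_lit 648136), .ofNat (nat_lit 789996)⟩, ⟨.ofNat (nat_lit 50000), .ofNat (nat_lit 306334), .ofNat (nat_lit 50000), .ofNat (nat_lit 351885), .ofNat (nat_lit 50000), .ofNat (nat_lit 299996), .ofNat (nat_lit 50000), .ofNat (nat_lit 349998)⟩⟩, [⟨nat_lit 13, nat_lit 33, nat_lit 85, nat_lit 100, nat_lit 372505570⟩, ⟨nat_lit 13, nat_lit 48, nat_lit 71, nat_lit 100, nat_lit 207147958⟩]⟩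
noncomputable def p118_l111 : Lf2 := ⟨nat_lit 0, nat_lit 30, [nat_lit 15, nat_lit 5, nat_lit 5, nat_lit 20], true, nat_lit 160, nat_lit 248, nat_lit 0, nat_lit 364, ⟨nat_lit 0, nat_lit 1000, nat_lit 0, nat_lit 6, nat_lit 272, nat_lit 1000, nat_lit 155, nat_lit 0, nat_lit 0, nat_lit 0, nat_lit 0, nat_lit 0, nat_lit 0, nat_lit 0, nat_lit 0, nat_lit 5000000, true, true⟩,
 nat_lit 0, nat_lit 3921, nat_lit 0, nat_lit 2173, nat_lit 3415, nat_lit 0, nat_lit 105, nat_lit 0, nat_lit 0, nat_lit 0, nat_lit 0, nat_lit 0, nat_lit 0, nat_lit 0, nat_lit 0, nat_lit 329200, nat_lit 0, nat_lit 0, [(nat_lit 26, [(nat_lit 0, nat_lit 472), (nat_lit 1, nat_lit 528)]), (nat_lit 29, [(nat_lit 0, nat_lit 472), (nat_lit 1, nat_lit 528)])],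
 ⟨p118_k4, nat_lit 0, nat_lit 0, nat_lit 216, nat_lit 0, nat_lit 323778, [nat_lit 881708801, nat_lit 1390886401, nat_lit 1754503680], [], [nat_lit 24681065243, nat_lit 26410556181, nat_lit 26829099763, nat_lit 28612905640, nat_lit 26131083960, nat_lit 27771215049, nat_lit 28140452566, nat_lit 29724318244], nat_lit 1271250, nat_lit 1271250, nat_lit 1271250, nat_lit 1271250, nat_lit 1100001, nat_lit 1853500, [nat_lit 230000, nat_lit 1100000, nat_lit 2127500], [nat_lit 81, nat_lit 40, nat_lit 40, nat_lit 80, nat_lit 13, nat_lit 373, nat_lit 150, nat_lit 9]⟩, C1.Rw.none,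
 ⟨nat_lit 0, nat_lit 3163, ⟨.ofNat (nat_lit 605128), .ofNat (nat_lit 727166), .ofNat (nat_lit 646918), .ofNat (nat_lit 771478), .ofNat (nat_lit 599865), .ofNat (nat_lit 699997), .ofNat (nat_lit 647345), .ofNat (nat_lit 749999)⟩, ⟨.ofNat (nat_lit 306113), .ofNat (nat_lit 440207), .ofNat (nat_lit 350425), .ofNat (nat_lit 484518), .ofNat (nat_lit 299996), .ofNat (nat_lit 409993), .ofNat (nat_lit 349998), .ofNat (nat_lit 459993)⟩⟩, [⟨nat_lit 4, nat_lit 100, nat_lit 44, nat_lit 87, nat_lit 443878836⟩]⟩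
noncomputable def p118_l112 : Lf2 := ⟨nat_lit 0, nat_lit 30, [nat_lit 15, nat_lit 5, nat_lit 5, nat_lit 20], false, nat_lit 160, nat_lit 248, nat_lit 16, nat_lit 364, ⟨nat_lit 0, nat_lit 1000, nat_lit 0, nat_lit 8, nat_lit 310, nat_lit 1000, nat_lit 155, nat_lit 0, nat_lit 0, nat_lit 0, nat_lit 0, nat_lit 0, nat_lit 0, nat_lit 0, nat_lit 0, nat_lit 5000000, true, true⟩,
 nat_lit 0, nat_lit 3604, nat_lit 0, nat_lit 10082, nat_lit 3138, nat_lit 0, nat_lit 166, nat_lit 0, nat_lit 0, nat_lit 0, nat_lit 0, nat_lit 0, nat_lit 0, nat_lit 0, nat_lit 0, nat_lit 255400, nat_lit 0, nat_lit 0, [(nat_lit 26, [(nat_lit 0, nat_lit 964), (nat_lit 1, nat_lit 36)]), (nat_lit 29, [(nat_lit 0, nat_lit 964), (nat_lit 1, nat_lit 36)])],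
 ⟨p118_k28, nat_lit 0, nat_lit 0, nat_lit 189, nat_lit 0, nat_lit 215206, [nat_lit 784105600, nat_lit 1417297601, nat_lit 2855962743], [], [nat_lit 27232805812, nat_lit 28855046555, nat_lit 29230028064, nat_lit 30760493397, nat_lit 28510999448, nat_lit 30004691640, nat_lit 30332687568, nat_lit 31688123378], nat_lit 1271250, nat_lit 1271250, nat_lit 1271250, nat_lit 1271250, nat_lit 1100001, nat_lit 1853500, [nat_lit 230000, nat_lit 780000, nat_lit 2090000], [nat_lit 93, nat_lit 40, nat_lit 40, nat_lit 80, nat_lit 63, nat_lit 289, nat_lit 75, nat_lit 7]⟩, ⟨p118_k29, nat_lit 0, nat_lit 0, nat_lit 505, nat_lit 0, nat_lit 418778, [nat_lit 0, nat_lit 0, nat_lit 0], [], [nat_lit 0, nat_lit 0, nat_lit 0, nat_lit 0, nat_lit 0, nat_lit 0, nat_lit 0, nat_lit 0], nat_lit 1271250, nat_lit 1271250, nat_lit 1271250, nat_lit 1271250, nat_lit 88400, nat_lit 2598350, [nat_lit 1100000, nat_lit 1785000, nat_lit 1271250], [nat_lit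 122, nat_lit 40, nat_lit 40, nat_lit 80, nat_lit 111, nat_lit 538, nat_lit 300, nat_lit 11]⟩,
 ⟨nat_lit 0, nat_lit 3163, ⟨.ofNat (nat_lit 727166), .ofNat (nat_lit 812499), .ofNat (nat_lit 771478), .ofNat (nat_lit 856810), .ofNat (nat_lit 699997), .ofNat (nat_lit 769995), .ofNat (nat_lit 749999), .ofNat (nat_lit 819996)⟩, ⟨.ofNat (nat_lit 306113), .ofNat (nat_lit 440207), .ofNat (nat_lit 350425), .ofNat (nat_lit 484518), .ofNat (nat_lit 299996), .ofNat (nat_lit 409993), .ofNat (nat_lit 349998), .ofNat (nat_lit 459993)⟩⟩, [⟨nat_lit 13, nat_lit 46, nat_lit 76, nat_lit 100, nat_lit 397537313⟩, ⟨nat_lit 13, nat_lit 65, nat_lit 54, nat_lit 100, nat_lit 177211981⟩, ⟨nat_lit 16, nat_lit 44, nat_lit 100, nat_lit 87, nat_lit 438981820⟩]⟩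
noncomputable def b_V_900_600_20_88 : St := ⟨true, nat_lit 1, nat_lit 2, nat_lit 2, nat_lit 120, nat_lit 360, nat_lit 400, nat_lit 240, nat_lit 280, nat_lit 112, nat_lit 376, nat_lit 80, nat_lit 120, nat_lit 8, nat_lit 248, nat_lit 0, nat_lit 364, nat_lit 120, nat_lit 156, nat_lit 0, nat_lit 0, nat_lit 0, nat_lit 0⟩
theorem d_V_900_600_20_88 (h : EB TB.env) : Dead b_V_900_600_20_88 := chkB_sound0 h (T :=
(.st (nat_lit 1)
(.spl (nat_lit 2) (nat_lit 240)
(.leaf p118_l105)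
(.spl (nat_lit 5) (nat_lit 160)
(.leaf p118_l106)
(.leaf p118_l107)))
(.spl (nat_lit 2) (nat_lit 240)
(.leaf p118_l108)
(.spl (nat_lit 4) (nat_lit 160)
(.spl (nat_lit 0) (nat_lit 380)
(.leaf p118_l109)
(.trX (nat_lit 13) (nat_lit 48) (nat_lit 71) (nat_lit 100) (nat_lit 352) (.trZ (nat_lit 3) (nat_lit 100) (nat_lit 54) (nat_lit 57) (nat_lit 20) (.leaf p118_l110))))
(.spl (nat_lit 2) (nat_lit 320)
(.leaf p118_l111)
(.trZ (nat_lit 9) (nat_lit 100) (nat_lit 82) (nat_lit 44) (nat_lit 16) (.leaf p118_l112))))))) (by decide +kernel)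
noncomputable def p118_l113 : Lf2 := ⟨nat_lit 0, nat_lit 10, [nat_lit 0, nat_lit 5, nat_lit 5, nat_lit 20], false, nat_lit 0, nat_lit 200, nat_lit 0, nat_lit 300, ⟨nat_lit 1000, nat_lit 0, nat_lit 0, nat_lit 0, nat_lit 0, nat_lit 0, nat_lit 0, nat_lit 0, nat_lit 0, nat_lit 0, nat_lit 0, nat_lit 0, nat_lit 0, nat_lit 0, nat_lit 0, nat_lit 0, false, false⟩,
 nat_lit 0, nat_lit 0, nat_lit 0, nat_lit 0, nat_lit 5922, nat_lit 10574, nat_lit 0, nat_lit 0, nat_lit 0, nat_lit 0, nat_lit 0, nat_lit 0, nat_lit 0, nat_lit 0, nat_lit 0, nat_lit 0, nat_lit 0, nat_lit 0, [],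
 ⟨p118_k30, nat_lit 0, nat_lit 0, nat_lit 172, nat_lit 0, nat_lit 0, [nat_lit 938000000, nat_lit 4688000000], [], [nat_lit 26484471560, nat_lit 31741407135, nat_lit 39850368256, nat_lit 42925131503, nat_lit 24566707760, nat_lit 27729967165, nat_lit 33456824286, nat_lit 35969221378], nat_lit 0, nat_lit 0, nat_lit 0, nat_lit 0, nat_lit 0, nat_lit 0, [], [nat_lit 86, nat_lit 40, nat_lit 40, nat_lit 80, nat_lit 87, nat_lit 373, nat_lit 150, nat_lit 17]⟩, ⟨p118_k31, nat_lit 0, nat_lit 0, nat_lit 198, nat_lit 0, nat_lit 0, [nat_lit 3282000000, nat_lit 9842000000], [], [nat_lit 29032326040, nat_lit 33695086765, nat_lit 46379304202, nat_lit 49700834476, nat_lit 27350028109, nat_lit 29993339986, nat_lit 36941565677, nat_lit 38864078930], nat_lit 0, nat_lit 0, nat_lit 0, nat_lit 0, nat_lit 0, nat_lit 0, [], [nat_lit 82, nat_lit 40, nat_lit 40, nat_lit 80, nat_lit 63, nat_lit 401, nat_lit 175, nat_lit 11]⟩,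
 zbF0, [⟨nat_lit 0, nat_lit 87, nat_lit 44, nat_lit 100, nat_lit 55512872⟩, ⟨nat_lit 4, nat_lit 100, nat_lit 46, nat_lit 75, nat_lit 52051080⟩]⟩
noncomputable def p118_l114 : Lf2 := ⟨nat_lit 0, nat_lit 10, [nat_lit 0, nat_lit 5, nat_lit 5, nat_lit 20], true, nat_lit 0, nat_lit 200, nat_lit 0, nat_lit 300, ⟨nat_lit 0, nat_lit 558, nat_lit 442, nat_lit 7, nat_lit 238, nat_lit 1000, nat_lit 67, nat_lit 442, nat_lit 41667, nat_lit 265, nat_lit 70830, nat_lit 200, nat_lit 49507269, nat_lit 17492731, nat_lit 0, nat_lit 2870945, false, false⟩,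
 nat_lit 0, nat_lit 0, nat_lit 0, nat_lit 0, nat_lit 2942, nat_lit 0, nat_lit 0, nat_lit 0, nat_lit 0, nat_lit 0, nat_lit 0, nat_lit 0, nat_lit 0, nat_lit 0, nat_lit 0, nat_lit 250000, nat_lit 0, nat_lit 0, [(nat_lit 24, [(nat_lit 0, nat_lit 558), (nat_lit 4, nat_lit 442)]), (nat_lit 27, [(nat_lit 0, nat_lit 558), (nat_lit 4, nat_lit 442)])],
 ⟨p118_k30, nat_lit 0, nat_lit 0, nat_lit 145, nat_lit 0, nat_lit 0, [nat_lit 772313601, nat_lit 484796000], [], [nat_lit 20289804852, nat_lit 24038181039, nat_lit 22970258136, nat_lit 26181460064, nat_lit 21071041813, nat_lit 23483648658, nat_lit 22992735468, nat_lit 25446350484], nat_lit 0, nat_lit 0, nat_lit 0, nat_lit 0, nat_lit 0, nat_lit 0, [], [nat_lit 86, nat_lit 40, nat_lit 40, nat_lit 80, nat_lit 87, nat_lit 345, nat_lit 125, nat_lit 16]⟩, C1.Rw.none,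
 ⟨nat_lit 0, nat_lit 3163, ⟨.ofNat (nat_lit 507176), .ofNat (nat_lit 646918), .ofNat (nat_lit 528026), .ofNat (nat_lit 667768), .ofNat (nat_lit 531701), .ofNat (nat_lit 647345), .ofNat (nat_lit 555396), .ofNat (nat_lit 671040)⟩, ⟨.ofNat (nat_lit 0), .ofNat (nat_lit 322753), .ofNat (nat_lit 0), .ofNat (nat_lit 367065), .ofNat (nat_lit 0), .ofNat (nat_lit 299993), .ofNat (nat_lit 0), .ofNat (nat_lit 349995)⟩⟩, []⟩
noncomputable def p118_l115 : Lf2 := ⟨nat_lit 0, nat_lit 10, [nat_lit 0, nat_lit 5, nat_lit 5, nat_lit 20], true, nat_lit 0, nat_lit 200, nat_lit 0, nat_lit 280, ⟨nat_lit 0, nat_lit 536, nat_lit 464, nat_lit 7, nat_lit 254, nat_lit 1000, nat_lit 67, nat_lit 464, nat_lit 41667, nat_lit 265, nat_lit 118222, nat_lit 200, nat_lit 47785759, nat_lit 19214241, nat_lit 0, nat_lit 2996214, true, false⟩,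
 nat_lit 0, nat_lit 0, nat_lit 0, nat_lit 0, nat_lit 2902, nat_lit 0, nat_lit 0, nat_lit 0, nat_lit 0, nat_lit 0, nat_lit 0, nat_lit 0, nat_lit 0, nat_lit 0, nat_lit 0, nat_lit 250000, nat_lit 0, nat_lit 0, [(nat_lit 24, [(nat_lit 0, nat_lit 536), (nat_lit 4, nat_lit 464)]), (nat_lit 27, [(nat_lit 0, nat_lit 536), (nat_lit 4, nat_lit 464)])],
 ⟨p118_k32, nat_lit 0, nat_lit 0, nat_lit 135, nat_lit 0, nat_lit 0, [nat_lit 771891201, nat_lit 533670401, nat_lit 425657599], [], [nat_lit 20765307453, nat_lit 24350244429, nat_lit 22891445816, nat_lit 26081308384, nat_lit 21220799310, nat_lit 23850980490, nat_lit 22821037276, nat_lit 25407258404], nat_lit 0, nat_lit 0, nat_lit 0, nat_lit 0, nat_lit 0, nat_lit 0, [], [nat_lit 35, nat_lit 40, nat_lit 40, nat_lit 80, nat_lit 22, nat_lit 260, nat_lit 50, nat_lit 11]⟩, C1.Rw.none,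
 ⟨nat_lit 0, nat_lit 3163, ⟨.ofNat (nat_lit 566138), .ofNat (nat_lit 667768), .ofNat (nat_lit 586988), .ofNat (nat_lit 688618), .ofNat (nat_lit 586935), .ofNat (nat_lit 671040), .ofNat (nat_lit 610631), .ofNat (nat_lit 694736)⟩, ⟨.ofNat (nat_lit 0), .ofNat (nat_lit 322753), .ofNat (nat_lit 0), .ofNat (nat_lit 367065), .ofNat (nat_lit 0), .ofNat (nat_lit 299993), .ofNat (nat_lit 0), .ofNat (nat_lit 349995)⟩⟩, [⟨nat_lit 0, nat_lit 84, nat_lit 44, nat_lit 100, nat_lit 6350035⟩]⟩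
noncomputable def p118_l116 : Lf2 := ⟨nat_lit 0, nat_lit 10, [nat_lit 0, nat_lit 5, nat_lit 5, nat_lit 20], true, nat_lit 0, nat_lit 80, nat_lit 0, nat_lit 300, ⟨nat_lit 0, nat_lit 1000, nat_lit 0, nat_lit 7, nat_lit 291, nat_lit 1000, nat_lit 34, nat_lit 0, nat_lit 0, nat_lit 0, nat_lit 0, nat_lit 0, nat_lit 43843042, nat_lit 23156958, nat_lit 0, nat_lit 3223484, true, false⟩,
 nat_lit 0, nat_lit 0, nat_lit 0, nat_lit 0, nat_lit 2664, nat_lit 0, nat_lit 0, nat_lit 0, nat_lit 0, nat_lit 0, nat_lit 0, nat_lit 0, nat_lit 0, nat_lit 0, nat_lit 0, nat_lit 400000, nat_lit 0, nat_lit 0, [(nat_lit 24, [(nat_lit 1, nat_lit 1000)]), (nat_lit 27, [(nat_lit 1, nat_lit 1000)])],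
 ⟨p118_k32, nat_lit 0, nat_lit 0, nat_lit 155, nat_lit 0, nat_lit 0, [nat_lit 848000000, nat_lit 997333334, nat_lit 954400000], [], [nat_lit 23176633878, nat_lit 25485405888, nat_lit 26174116662, nat_lit 28727149984, nat_lit 22658889718, nat_lit 24822043926, nat_lit 25513863798, nat_lit 27381321782], nat_lit 0, nat_lit 0, nat_lit 0, nat_lit 0, nat_lit 0, nat_lit 0, [], [nat_lit 35, nat_lit 40, nat_lit 40, nat_lit 80, nat_lit 22, nat_lit 226, nat_lit 20, nat_lit 9]⟩, C1.Rw.none,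
 ⟨nat_lit 0, nat_lit 3163, ⟨.ofNat (nat_lit 646918), .ofNat (nat_lit 771478), .ofNat (nat_lit 688618), .ofNat (nat_lit 815384), .ofNat (nat_lit 647345), .ofNat (nat_lit 749999), .ofNat (nat_lit 694736), .ofNat (nat_lit 799594)⟩, ⟨.ofNat (nat_lit 0), .ofNat (nat_lit 139898), .ofNat (nat_lit 0), .ofNat (nat_lit 184209), .ofNat (nat_lit 0), .ofNat (nat_lit 149998), .ofNat (nat_lit 0), .ofNat (nat_lit 199999)⟩⟩, [⟨nat_lit 3, nat_lit 100, nat_lit 61, nat_lit 47, nat_lit 46835290⟩]⟩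
noncomputable def p118_l117 : Lf2 := ⟨nat_lit 0, nat_lit 10, [nat_lit 0, nat_lit 5, nat_lit 5, nat_lit 20], true, nat_lit 0, nat_lit 80, nat_lit 0, nat_lit 260, ⟨nat_lit 0, nat_lit 1000, nat_lit 0, nat_lit 8, nat_lit 324, nat_lit 1000, nat_lit 33, nat_lit 0, nat_lit 0, nat_lit 0, nat_lit 0, nat_lit 0, nat_lit 40444198, nat_lit 26555802, nat_lit 0, nat_lit 3357530, true, true⟩,
 nat_lit 0, nat_lit 0, nat_lit 0, nat_lit 0, nat_lit 2510, nat_lit 0, nat_lit 0, nat_lit 0, nat_lit 0, nat_lit 0, nat_lit 0, nat_lit 0, nat_lit 0, nat_lit 0, nat_lit 0, nat_lit 400000, nat_lit 0, nat_lit 0, [(nat_lit 24, [(nat_lit 1, nat_lit 1000)])],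
 ⟨p118_k32, nat_lit 0, nat_lit 0, nat_lit 153, nat_lit 0, nat_lit 0, [nat_lit 848000000, nat_lit 997333334, nat_lit 954400000], [], [nat_lit 26341783854, nat_lit 26824262704, nat_lit 28015455214, nat_lit 28487379270, nat_lit 25787972094, nat_lit 26244855234, nat_lit 27378242694, nat_lit 27799437654], nat_lit 0, nat_lit 0, nat_lit 0, nat_lit 0, nat_lit 0, nat_lit 0, [], [nat_lit 35, nat_lit 40, nat_lit 40, nat_lit 80, nat_lit 22, nat_lit 226, nat_lit 20, nat_lit 9]⟩, C1.Rw.none,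
 ⟨nat_lit 2738, nat_lit 3163, ⟨.ofNat (nat_lit 771478), .ofNat (nat_lit 832432), .ofNat (nat_lit 793629), .ofNat (nat_lit 854586), .ofNat (nat_lit 766852), .ofNat (nat_lit 825913), .ofNat (nat_lit 789265), .ofNat (nat_lit 848331)⟩, ⟨.ofNat (nat_lit 0), .ofNat (nat_lit 139899), .ofNat (nat_lit 0), .ofNat (nat_lit 184209), .ofNat (nat_lit 0), .ofNat (nat_lit 143475), .ofNat (nat_lit 0), .ofNat (nat_lit 188310)⟩⟩, [⟨nat_lit 3, nat_lit 100, nat_lit 66, nat_lit 45, nat_lit 40429916⟩]⟩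
noncomputable def p118_l118 : Lf2 := ⟨nat_lit 0, nat_lit 10, [nat_lit 0, nat_lit 5, nat_lit 5, nat_lit 20], false, nat_lit 0, nat_lit 80, nat_lit 0, nat_lit 260, ⟨nat_lit 143, nat_lit 857, nat_lit 0, nat_lit 8, nat_lit 333, nat_lit 857, nat_lit 33, nat_lit 0, nat_lit 0, nat_lit 0, nat_lit 0, nat_lit 0, nat_lit 39569795, nat_lit 27430205, nat_lit 0, nat_lit 3383207, true, true⟩,
 nat_lit 0, nat_lit 0, nat_lit 1392, nat_lit 0, nat_lit 2956, nat_lit 963, nat_lit 0, nat_lit 0, nat_lit 0, nat_lit 128, nat_lit 0, nat_lit 0, nat_lit 0, nat_lit 0, nat_lit 0, nat_lit 342800, nat_lit 0, nat_lit 0, [(nat_lit 24, [(nat_lit 1, nat_lit 857)])],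
 ⟨p118_k30, nat_lit 0, nat_lit 0, nat_lit 156, nat_lit 0, nat_lit 0, [nat_lit 961653201, nat_lit 1488576680], [], [nat_lit 27536997378, nat_lit 28026734750, nat_lit 29221447938, nat_lit 29725866412, nat_lit 26681163106, nat_lit 27144420738, nat_lit 28279601298, nat_lit 28705549598], nat_lit 0, nat_lit 0, nat_lit 0, nat_lit 0, nat_lit 0, nat_lit 0, [], [nat_lit 86, nat_lit 40, nat_lit 40, nat_lit 80, nat_lit 87, nat_lit 226, nat_lit 20, nat_lit 9]⟩, ⟨p118_k33, nat_lit 0, nat_lit 0, nat_lit 999, nat_lit 0, nat_lit 2008403, [nat_lit 469326000, nat_lit 1139424000], [], [nat_lit 4916573664, nat_lit 4943451196, nat_lit 5020304616, nat_lit 5132944980, nat_lit 4469348390, nat_lit 4482376884, nat_lit 4513606875, nat_lit 4523359451], nat_lit 1271250, nat_lit 1271250, nat_lit 1271250, nat_lit 1271250, nat_lit 0, nat_lit 1836250, [nat_lit 780000, nat_lit 1762500], [nat_lit 74, nat_lit 40, nat_lit 40, nat_lit 80, nat_lit 43,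 nat_lit 368, nat_lit 75, nat_lit 11]⟩,
 ⟨nat_lit 2738, nat_lit 3163, ⟨.ofNat (nat_lit 793629), .ofNat (nat_lit 854586), .ofNat (nat_lit 815772), .ofNat (nat_lit 876741), .ofNat (nat_lit 789265), .ofNat (nat_lit 848331), .ofNat (nat_lit 811670), .ofNat (nat_lit 870748)⟩, ⟨.ofNat (nat_lit 0), .ofNat (nat_lit 139899), .ofNat (nat_lit 0), .ofNat (nat_lit 184209), .ofNat (nat_lit 0), .ofNat (nat_lit 143475), .ofNat (nat_lit 0), .ofNat (nat_lit 188310)⟩⟩, [⟨nat_lit 10, nat_lit 100, nat_lit 58, nat_lit 64, nat_lit 34205820⟩]⟩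
noncomputable def p118_l119 : Lf2 := ⟨nat_lit 0, nat_lit 10, [nat_lit 0, nat_lit 5, nat_lit 5, nat_lit 20], true, nat_lit 0, nat_lit 80, nat_lit 0, nat_lit 260, ⟨nat_lit 0, nat_lit 1000, nat_lit 0, nat_lit 8, nat_lit 322, nat_lit 1000, nat_lit 34, nat_lit 0, nat_lit 0, nat_lit 0, nat_lit 0, nat_lit 0, nat_lit 40662101, nat_lit 26337899, nat_lit 0, nat_lit 3350578, true, true⟩,
 nat_lit 0, nat_lit 0, nat_lit 0, nat_lit 0, nat_lit 2366, nat_lit 0, nat_lit 159, nat_lit 0, nat_lit 0, nat_lit 0, nat_lit 0, nat_lit 0, nat_lit 0, nat_lit 0, nat_lit 0, nat_lit 250000, nat_lit 0, nat_lit 0, [(nat_lit 24, [(nat_lit 0, nat_lit 1000)])],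
 ⟨p118_k34, nat_lit 0, nat_lit 0, nat_lit 160, nat_lit 0, nat_lit 0, [nat_lit 763200001, nat_lit 1367200000, nat_lit 1705600000], [], [nat_lit 26577837094, nat_lit 27050187704, nat_lit 28183982478, nat_lit 28643485015, nat_lit 26098753992, nat_lit 26547870475, nat_lit 27707753693, nat_lit 28150493603], nat_lit 0, nat_lit 0, nat_lit 0, nat_lit 0, nat_lit 0, nat_lit 0, [], [nat_lit 35, nat_lit 40, nat_lit 40, nat_lit 80, nat_lit 22, nat_lit 226, nat_lit 20, nat_lit 8]⟩, C1.Rw.none,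
 ⟨nat_lit 2236, nat_lit 2739, ⟨.ofNat (nat_lit 766852), .ofNat (nat_lit 825913), .ofNat (nat_lit 789269), .ofNat (nat_lit 848331), .ofNat (nat_lit 762142), .ofNat (nat_lit 819158), .ofNat (nat_lit 784917), .ofNat (nat_lit 841932)⟩, ⟨.ofNat (nat_lit 0), .ofNat (nat_lit 143475), .ofNat (nat_lit 0), .ofNat (nat_lit 188310), .ofNat (nat_lit 0), .ofNat (nat_lit 146758), .ofNat (nat_lit 0), .ofNat (nat_lit 192306)⟩⟩, [⟨nat_lit 3, nat_lit 100, nat_lit 54, nat_lit 57, nat_lit 36339941⟩]⟩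
noncomputable def p118_l120 : Lf2 := ⟨nat_lit 0, nat_lit 10, [nat_lit 0, nat_lit 5, nat_lit 5, nat_lit 20], false, nat_lit 0, nat_lit 80, nat_lit 0, nat_lit 260, ⟨nat_lit 117, nat_lit 883, nat_lit 0, nat_lit 8, nat_lit 331, nat_lit 883, nat_lit 34, nat_lit 0, nat_lit 0, nat_lit 0, nat_lit 0, nat_lit 0, nat_lit 39772032, nat_lit 27227968, nat_lit 0, nat_lit 3377583, true, true⟩,
 nat_lit 0, nat_lit 0, nat_lit 1156, nat_lit 0, nat_lit 2457, nat_lit 800, nat_lit 190, nat_lit 0, nat_lit 0, nat_lit 56, nat_lit 0, nat_lit 0, nat_lit 0, nat_lit 0, nat_lit 0, nat_lit 220750, nat_lit 0, nat_lit 0, [(nat_lit 24, [(nat_lit 0, nat_lit 883)])],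
 ⟨p118_k34, nat_lit 0, nat_lit 0, nat_lit 160, nat_lit 0, nat_lit 0, [nat_lit 783651601, nat_lit 1591231601, nat_lit 2054540800], [], [nat_lit 26836893362, nat_lit 27315644457, nat_lit 28461068030, nat_lit 28901364241, nat_lit 26294410833, nat_lit 26747858831, nat_lit 27839329127, nat_lit 28259594852], nat_lit 0, nat_lit 0, nat_lit 0, nat_lit 0, nat_lit 0, nat_lit 0, [], [nat_lit 35, nat_lit 40, nat_lit 40, nat_lit 80, nat_lit 22, nat_lit 226, nat_lit 20, nat_lit 8]⟩, ⟨p118_k35, nat_lit 0, nat_lit 0, nat_lit 1063, nat_lit 0, nat_lit 2145421, [nat_lit 383994000, nat_lit 731250000, nat_lit 932256000], [], [nat_lit 4190838584, nat_lit 4206810268, nat_lit 4238761610, nat_lit 4251650356, nat_lit 3799451112, nat_lit 3805457816, nat_lit 3825348152, nat_lit 3828990164], nat_lit 1271250, nat_lit 1271250, nat_lit 1271250, nat_lit 1271250, nat_lit 0, nat_lit 1836250, [nat_lit 780000, nat_lit 1435000, nat_lit 1271250], [nat_lit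 18, nat_lit 40, nat_lit 40, nat_lit 80, nat_lit 2, nat_lit 384, nat_lit 75, nat_lit 12]⟩,
 ⟨nat_lit 2236, nat_lit 2739, ⟨.ofNat (nat_lit 789269), .ofNat (nat_lit 848331), .ofNat (nat_lit 811671), .ofNat (nat_lit 870748), .ofNat (nat_lit 784917), .ofNat (nat_lit 841932), .ofNat (nat_lit 807675), .ofNat (nat_lit 864706)⟩, ⟨.ofNat (nat_lit 0), .ofNat (nat_lit 143475), .ofNat (nat_lit 0), .ofNat (nat_lit 188310), .ofNat (nat_lit 0), .ofNat (nat_lit 146758), .ofNat (nat_lit 0), .ofNat (nat_lit 192306)⟩⟩, [⟨nat_lit 10, nat_lit 100, nat_lit 58, nat_lit 64, nat_lit 31813397⟩]⟩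
noncomputable def p118_l121 : Lf2 := ⟨nat_lit 0, nat_lit 10, [nat_lit 0, nat_lit 5, nat_lit 5, nat_lit 20], true, nat_lit 0, nat_lit 80, nat_lit 0, nat_lit 260, ⟨nat_lit 0, nat_lit 1000, nat_lit 0, nat_lit 8, nat_lit 323, nat_lit 1000, nat_lit 34, nat_lit 0, nat_lit 0, nat_lit 0, nat_lit 0, nat_lit 0, nat_lit 40587806, nat_lit 26412194, nat_lit 0, nat_lit 3352973, true, true⟩,
 nat_lit 0, nat_lit 0, nat_lit 0, nat_lit 0, nat_lit 2120, nat_lit 0, nat_lit 0, nat_lit 0, nat_lit 0, nat_lit 0, nat_lit 0, nat_lit 0, nat_lit 0, nat_lit 0, nat_lit 0, nat_lit 385600, nat_lit 0, nat_lit 0, [(nat_lit 27, [(nat_lit 0, nat_lit 96), (nat_lit 1, nat_lit 904)])],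
 ⟨p118_k36, nat_lit 0, nat_lit 0, nat_lit 140, nat_lit 0, nat_lit 0, [nat_lit 705587200, nat_lit 393366400], [], [nat_lit 26328295360, nat_lit 27345445760, nat_lit 28038581680, nat_lit 29001747360, nat_lit 26086742800, nat_lit 27011638880, nat_lit 27639745760, nat_lit 28554056640], nat_lit 0, nat_lit 0, nat_lit 0, nat_lit 0, nat_lit 0, nat_lit 0, [], [nat_lit 66, nat_lit 40, nat_lit 40, nat_lit 80, nat_lit 67, nat_lit 226, nat_lit 20, nat_lit 11]⟩, C1.Rw.none,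
 ⟨nat_lit 0, nat_lit 2237, ⟨.ofNat (nat_lit 762141), .ofNat (nat_lit 819154), .ofNat (nat_lit 807594), .ofNat (nat_lit 864705), .ofNat (nat_lit 749998), .ofNat (nat_lit 799995), .ofNat (nat_lit 799902), .ofNat (nat_lit 849998)⟩, ⟨.ofNat (nat_lit 0), .ofNat (nat_lit 146756), .ofNat (nat_lit 0), .ofNat (nat_lit 192306), .ofNat (nat_lit 0), .ofNat (nat_lit 149997), .ofNat (nat_lit 0), .ofNat (nat_lit 199999)⟩⟩, [⟨nat_lit 3, nat_lit 100, nat_lit 44, nat_lit 64, nat_lit 52158460⟩]⟩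
noncomputable def p118_l122 : Lf2 := ⟨nat_lit 0, nat_lit 10, [nat_lit 0, nat_lit 5, nat_lit 5, nat_lit 20], true, nat_lit 0, nat_lit 80, nat_lit 0, nat_lit 200, ⟨nat_lit 0, nat_lit 1000, nat_lit 0, nat_lit 9, nat_lit 334, nat_lit 1000, nat_lit 34, nat_lit 0, nat_lit 0, nat_lit 0, nat_lit 0, nat_lit 0, nat_lit 39438293, nat_lit 27561707, nat_lit 0, nat_lit 3386763, true, true⟩,
 nat_lit 0, nat_lit 0, nat_lit 0, nat_lit 0, nat_lit 2539, nat_lit 0, nat_lit 0, nat_lit 0, nat_lit 0, nat_lit 0, nat_lit 0, nat_lit 0, nat_lit 0, nat_lit 0, nat_lit 0, nat_lit 400000, nat_lit 0, nat_lit 0, [(nat_lit 24, [(nat_lit 1, nat_lit 1000)]), (nat_lit 27, [(nat_lit 1, nat_lit 1000)])],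
 ⟨p118_k32, nat_lit 0, nat_lit 0, nat_lit 173, nat_lit 0, nat_lit 0, [nat_lit 848000000, nat_lit 997333334, nat_lit 954400000], [], [nat_lit 28266200346, nat_lit 30272007388, nat_lit 29138575276, nat_lit 31289632676, nat_lit 27696953878, nat_lit 29352008750, nat_lit 28524481314, nat_lit 30111008312], nat_lit 0, nat_lit 0, nat_lit 0, nat_lit 0, nat_lit 0, nat_lit 0, [], [nat_lit 35, nat_lit 40, nat_lit 40, nat_lit 80, nat_lit 22, nat_lit 226, nat_lit 20, nat_lit 8]⟩, C1.Rw.none,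
 ⟨nat_lit 0, nat_lit 3163, ⟨.ofNat (nat_lit 832430), .ofNat (nat_lit 862905), .ofNat (nat_lit 843507), .ofNat (nat_lit 873983), .ofNat (nat_lit 799997), .ofNat (nat_lit 824996), .ofNat (nat_lit 812497), .ofNat (nat_lit 837496)⟩, ⟨.ofNat (nat_lit 0), .ofNat (nat_lit 139898), .ofNat (nat_lit 0), .ofNat (nat_lit 184209), .ofNat (nat_lit 0), .ofNat (nat_lit 149998), .ofNat (nat_lit 0), .ofNat (nat_lit 199999)⟩⟩, [⟨nat_lit 13, nat_lit 67, nat_lit 50, nat_lit 100, nat_lit 274626402⟩, ⟨nat_lit 3, nat_lit 100, nat_lit 61, nat_lit 47, nat_lit 42110463⟩]⟩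
noncomputable def p118_l123 : Lf2 := ⟨nat_lit 0, nat_lit 10, [nat_lit 0, nat_lit 5, nat_lit 5, nat_lit 20], false, nat_lit 0, nat_lit 80, nat_lit 0, nat_lit 200, ⟨nat_lit 109, nat_lit 891, nat_lit 0, nat_lit 9, nat_lit 340, nat_lit 891, nat_lit 34, nat_lit 0, nat_lit 0, nat_lit 0, nat_lit 0, nat_lit 0, nat_lit 38876255, nat_lit 28123745, nat_lit 0, nat_lit 3401067, true, true⟩,
 nat_lit 0, nat_lit 0, nat_lit 1211, nat_lit 0, nat_lit 2541, nat_lit 804, nat_lit 0, nat_lit 0, nat_lit 0, nat_lit 46, nat_lit 0, nat_lit 0, nat_lit 0, nat_lit 0, nat_lit 0, nat_lit 391200, nat_lit 0, nat_lit 0, [(nat_lit 24, [(nat_lit 1, nat_lit 833), (nat_lit 2, nat_lit 58)]), (nat_lit 27, [(nat_lit 1, nat_lit 833), (nat_lit 2, nat_lit 58)])],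
 ⟨p118_k32, nat_lit 0, nat_lit 0, nat_lit 174, nat_lit 0, nat_lit 0, [nat_lit 893770000, nat_lit 1161094267, nat_lit 1184717600], [], [nat_lit 28795432482, nat_lit 30540196835, nat_lit 29842109899, nat_lit 31499563259, nat_lit 28224381003, nat_lit 29879865971, nat_lit 29217671984, nat_lit 30790880865], nat_lit 0, nat_lit 0, nat_lit 0, nat_lit 0, nat_lit 0, nat_lit 0, [], [nat_lit 35, nat_lit 40, nat_lit 40, nat_lit 80, nat_lit 22, nat_lit 226, nat_lit 20, nat_lit 8]⟩, ⟨p118_k37, nat_lit 0, nat_lit 0, nat_lit 1208, nat_lit 0, nat_lit 2465744, [nat_lit 357738000, nat_lit 681250000, nat_lit 868512000], [], [nat_lit 4050501558, nat_lit 4071602196, nat_lit 4142987717, nat_lit 4219608202, nat_lit 3564228639, nat_lit 3566137615, nat_lit 3620310061, nat_lit 3633571114], nat_lit 1271250, nat_lit 1271250, nat_lit 1271250, nat_lit 1271250, nat_lit 0, nat_lit 1412500, [nat_lit 780000, nat_lit 1435000, nat_lit 1271250], [nat_lit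 18, nat_lit 40, nat_lit 40, nat_lit 80, nat_lit 2, nat_lit 413, nat_lit 50, nat_lit 13]⟩,
 ⟨nat_lit 0, nat_lit 3163, ⟨.ofNat (nat_lit 843507), .ofNat (nat_lit 880078), .ofNat (nat_lit 854585), .ofNat (nat_lit 891156), .ofNat (nat_lit 812497), .ofNat (nat_lit 842496), .ofNat (nat_lit 824998), .ofNat (nat_lit 854997)⟩, ⟨.ofNat (nat_lit 0), .ofNat (nat_lit 139898), .ofNat (nat_lit 0), .ofNat (nat_lit 184209), .ofNat (nat_lit 0), .ofNat (nat_lit 149998), .ofNat (nat_lit 0), .ofNat (nat_lit 199999)⟩⟩, [⟨nat_lit 13, nat_lit 50, nat_lit 66, nat_lit 100, nat_lit 371583519⟩, ⟨nat_lit 22, nat_lit 59, nat_lit 100, nat_lit 57, nat_lit 13143464⟩]⟩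
noncomputable def p118_l124 : Lf2 := ⟨nat_lit 0, nat_lit 10, [nat_lit 0, nat_lit 5, nat_lit 5, nat_lit 20], false, nat_lit 0, nat_lit 80, nat_lit 0, nat_lit 200, ⟨nat_lit 132, nat_lit 868, nat_lit 0, nat_lit 9, nat_lit 353, nat_lit 868, nat_lit 33, nat_lit 0, nat_lit 0, nat_lit 0, nat_lit 0, nat_lit 0, nat_lit 37643842, nat_lit 29356158, nat_lit 0, nat_lit 3427384, true, true⟩,
 nat_lit 0, nat_lit 0, nat_lit 1254, nat_lit 0, nat_lit 2613, nat_lit 867, nat_lit 0, nat_lit 0, nat_lit 0, nat_lit 66, nat_lit 0, nat_lit 0, nat_lit 0, nat_lit 0, nat_lit 0, nat_lit 379000, nat_lit 0, nat_lit 0, [(nat_lit 24, [(nat_lit 1, nat_lit 815), (nat_lit 2, nat_lit 53)])],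
 ⟨p118_k32, nat_lit 0, nat_lit 0, nat_lit 170, nat_lit 0, nat_lit 0, [nat_lit 892740001, nat_lit 1220992267, nat_lit 1285818400], [], [nat_lit 28915451699, nat_lit 29754698953, nat_lit 30268587771, nat_lit 31089203447, nat_lit 28278489403, nat_lit 29075163330, nat_lit 29576453858, nat_lit 30356064023], nat_lit 0, nat_lit 0, nat_lit 0, nat_lit 0, nat_lit 0, nat_lit 0, [], [nat_lit 35, nat_lit 40, nat_lit 40, nat_lit 80, nat_lit 22, nat_lit 226, nat_lit 20, nat_lit 8]⟩, ⟨p118_k35, nat_lit 0, nat_lit 0, nat_lit 1055, nat_lit 0, nat_lit 2145421, [nat_lit 433224000, nat_lit 825000000, nat_lit 1051776000], [], [nat_lit 5087021778, nat_lit 5102470950, nat_lit 5141421657, nat_lit 5154104512, nat_lit 4683532908, nat_lit 4691772084, nat_lit 4724729361, nat_lit 4732612088], nat_lit 1271250, nat_lit 1271250, nat_lit 1271250, nat_lit 1271250, nat_lit 0, nat_lit 1412500, [nat_lit 780000, nat_lit 1435000, nat_lit 1271250], [nat_lit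 18, nat_lit 40, nat_lit 40, nat_lit 80, nat_lit 2, nat_lit 378, nat_lit 50, nat_lit 11]⟩,
 ⟨nat_lit 2236, nat_lit 3163, ⟨.ofNat (nat_lit 854586), .ofNat (nat_lit 903349), .ofNat (nat_lit 876741), .ofNat (nat_lit 925504), .ofNat (nat_lit 841932), .ofNat (nat_lit 887545), .ofNat (nat_lit 864706), .ofNat (nat_lit 910319)⟩, ⟨.ofNat (nat_lit 0), .ofNat (nat_lit 139899), .ofNat (nat_lit 0), .ofNat (nat_lit 184209), .ofNat (nat_lit 0), .ofNat (nat_lit 146758), .ofNat (nat_lit 0), .ofNat (nat_lit 192306)⟩⟩, [⟨nat_lit 13, nat_lit 63, nat_lit 50, nat_lit 100, nat_lit 34315711⟩, ⟨nat_lit 13, nat_lit 50, nat_lit 65, nat_lit 100, nat_lit 217054944⟩, ⟨nat_lit 22, nat_lit 52, nat_lit 100, nat_lit 66, nat_lit 29214856⟩]⟩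
noncomputable def p118_l125 : Lf2 := ⟨nat_lit 0, nat_lit 10, [nat_lit 0, nat_lit 5, nat_lit 5, nat_lit 20], true, nat_lit 0, nat_lit 80, nat_lit 0, nat_lit 200, ⟨nat_lit 0, nat_lit 1000, nat_lit 0, nat_lit 9, nat_lit 344, nat_lit 1000, nat_lit 34, nat_lit 0, nat_lit 0, nat_lit 0, nat_lit 0, nat_lit 0, nat_lit 38560930, nat_lit 28439070, nat_lit 0, nat_lit 3408458, true, true⟩,
 nat_lit 0, nat_lit 0, nat_lit 0, nat_lit 0, nat_lit 2161, nat_lit 0, nat_lit 0, nat_lit 0, nat_lit 0, nat_lit 0, nat_lit 0, nat_lit 0, nat_lit 0, nat_lit 0, nat_lit 0, nat_lit 347950, nat_lit 0, nat_lit 0, [(nat_lit 27, [(nat_lit 0, nat_lit 347), (nat_lit 1, nat_lit 653)])],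
 ⟨p118_k36, nat_lit 0, nat_lit 0, nat_lit 147, nat_lit 0, nat_lit 0, [nat_lit 726470401, nat_lit 573684800], [], [nat_lit 28206791765, nat_lit 29125045012, nat_lit 29073969430, nat_lit 30089602124, nat_lit 27857091663, nat_lit 28716583633, nat_lit 28681305696, nat_lit 29505519729], nat_lit 0, nat_lit 0, nat_lit 0, nat_lit 0, nat_lit 0, nat_lit 0, [], [nat_lit 66, nat_lit 40, nat_lit 40, nat_lit 80, nat_lit 67, nat_lit 226, nat_lit 20, nat_lit 10]⟩, C1.Rw.none,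
 ⟨nat_lit 0, nat_lit 2237, ⟨.ofNat (nat_lit 841930), .ofNat (nat_lit 870437), .ofNat (nat_lit 864705), .ofNat (nat_lit 893212), .ofNat (nat_lit 824997), .ofNat (nat_lit 849996), .ofNat (nat_lit 849998), .ofNat (nat_lit 874997)⟩, ⟨.ofNat (nat_lit 0), .ofNat (nat_lit 146756), .ofNat (nat_lit 0), .ofNat (nat_lit 192306), .ofNat (nat_lit 0), .ofNat (nat_lit 149997), .ofNat (nat_lit 0), .ofNat (nat_lit 199999)⟩⟩, [⟨nat_lit 13, nat_lit 54, nat_lit 57, nat_lit 100, nat_lit 369190464⟩, ⟨nat_lit 3, nat_lit 100, nat_lit 44, nat_lit 64, nat_lit 38328786⟩]⟩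
noncomputable def p118_l126 : Lf2 := ⟨nat_lit 0, nat_lit 10, [nat_lit 0, nat_lit 5, nat_lit 5, nat_lit 20], true, nat_lit 80, nat_lit 200, nat_lit 0, nat_lit 300, ⟨nat_lit 0, nat_lit 1000, nat_lit 0, nat_lit 7, nat_lit 291, nat_lit 1000, nat_lit 101, nat_lit 0, nat_lit 0, nat_lit 0, nat_lit 0, nat_lit 0, nat_lit 40777126, nat_lit 22083670, nat_lit 4139204, nat_lit 4441835, true, false⟩,
 nat_lit 0, nat_lit 0, nat_lit 0, nat_lit 0, nat_lit 3497, nat_lit 0, nat_lit 0, nat_lit 0, nat_lit 0, nat_lit 0, nat_lit 0, nat_lit 0, nat_lit 0, nat_lit 0, nat_lit 0, nat_lit 250000, nat_lit 0, nat_lit 0, [(nat_lit 24, [(nat_lit 0, nat_lit 1000)]), (nat_lit 27, [(nat_lit 0, nat_lit 1000)])],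
 ⟨p118_k30, nat_lit 0, nat_lit 0, nat_lit 95, nat_lit 0, nat_lit 0, [nat_lit 780800001, nat_lit 1705600000], [], [nat_lit 22053750004, nat_lit 24964335672, nat_lit 25603104996, nat_lit 28379819452, nat_lit 23584921722, nat_lit 26010005292, nat_lit 26560155748, nat_lit 28935128180], nat_lit 0, nat_lit 0, nat_lit 0, nat_lit 0, nat_lit 0, nat_lit 0, [], [nat_lit 86, nat_lit 40, nat_lit 40, nat_lit 80, nat_lit 87, nat_lit 260, nat_lit 50, nat_lit 10]⟩, C1.Rw.none,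
 ⟨nat_lit 0, nat_lit 3163, ⟨.ofNat (nat_lit 646918), .ofNat (nat_lit 771478), .ofNat (nat_lit 688618), .ofNat (nat_lit 815384), .ofNat (nat_lit 647345), .ofNat (nat_lit 749999), .ofNat (nat_lit 694736), .ofNat (nat_lit 799594)⟩, ⟨.ofNat (nat_lit 139898), .ofNat (nat_lit 322753), .ofNat (nat_lit 184209), .ofNat (nat_lit 367065), .ofNat (nat_lit 149998), .ofNat (nat_lit 299993), .ofNat (nat_lit 199999), .ofNat (nat_lit 349995)⟩⟩, [⟨nat_lit 16, nat_lit 60, nat_lit 100, nat_lit 80, nat_lit 102157623⟩]⟩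
noncomputable def p118_l127 : Lf2 := ⟨nat_lit 0, nat_lit 10, [nat_lit 0, nat_lit 5, nat_lit 5, nat_lit 20], true, nat_lit 80, nat_lit 200, nat_lit 0, nat_lit 300, ⟨nat_lit 0, nat_lit 1000, nat_lit 0, nat_lit 8, nat_lit 325, nat_lit 1000, nat_lit 101, nat_lit 0, nat_lit 0, nat_lit 0, nat_lit 0, nat_lit 0, nat_lit 37776965, nat_lit 25286270, nat_lit 3936765, nat_lit 4525922, true, true⟩,
 nat_lit 0, nat_lit 0, nat_lit 0, nat_lit 0, nat_lit 3233, nat_lit 0, nat_lit 0, nat_lit 0, nat_lit 0, nat_lit 0, nat_lit 0, nat_lit 0, nat_lit 0, nat_lit 0, nat_lit 0, nat_lit 311950, nat_lit 0, nat_lit 0, [(nat_lit 24, [(nat_lit 0, nat_lit 587), (nat_lit 1, nat_lit 413)]), (nat_lit 27, [(nat_lit 0, nat_lit 587), (nat_lit 1, nat_lit 413)])],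
 ⟨p118_k30, nat_lit 0, nat_lit 0, nat_lit 105, nat_lit 0, nat_lit 0, [nat_lit 857122401, nat_lit 1395354400], [], [nat_lit 25682065604, nat_lit 27921643228, nat_lit 27503490556, nat_lit 29914661088, nat_lit 26787799301, nat_lit 28622040020, nat_lit 28268152754, nat_lit 30350301572], nat_lit 0, nat_lit 0, nat_lit 0, nat_lit 0, nat_lit 0, nat_lit 0, [], [nat_lit 86, nat_lit 40, nat_lit 40, nat_lit 80, nat_lit 87, nat_lit 260, nat_lit 50, nat_lit 10]⟩, C1.Rw.none,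
 ⟨nat_lit 0, nat_lit 3163, ⟨.ofNat (nat_lit 771478), .ofNat (nat_lit 832430), .ofNat (nat_lit 815384), .ofNat (nat_lit 876741), .ofNat (nat_lit 749999), .ofNat (nat_lit 799997), .ofNat (nat_lit 799594), .ofNat (nat_lit 849999)⟩, ⟨.ofNat (nat_lit 139898), .ofNat (nat_lit 322753), .ofNat (nat_lit 184209), .ofNat (nat_lit 367065), .ofNat (nat_lit 149998), .ofNat (nat_lit 299993), .ofNat (nat_lit 199999), .ofNat (nat_lit 349995)⟩⟩, [⟨nat_lit 16, nat_lit 60, nat_lit 100, nat_lit 80, nat_lit 14610570⟩, ⟨nat_lit 4, nat_lit 100, nat_lit 46, nat_lit 75, nat_lit 108782644⟩]⟩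
noncomputable def p118_l128 : Lf2 := ⟨nat_lit 0, nat_lit 10, [nat_lit 0, nat_lit 5, nat_lit 5, nat_lit 20], true, nat_lit 80, nat_lit 160, nat_lit 8, nat_lit 288, ⟨nat_lit 0, nat_lit 1000, nat_lit 0, nat_lit 9, nat_lit 345, nat_lit 1000, nat_lit 90, nat_lit 0, nat_lit 0, nat_lit 0, nat_lit 0, nat_lit 0, nat_lit 36455686, nat_lit 27329217, nat_lit 3215097, nat_lit 4425613, true, true⟩,
 nat_lit 0, nat_lit 0, nat_lit 0, nat_lit 0, nat_lit 3015, nat_lit 0, nat_lit 0, nat_lit 0, nat_lit 0, nat_lit 0, nat_lit 0, nat_lit 0, nat_lit 0, nat_lit 0, nat_lit 0, nat_lit 348400, nat_lit 0, nat_lit 0, [(nat_lit 24, [(nat_lit 0, nat_lit 344), (nat_lit 1, nat_lit 656)]), (nat_lit 27, [(nat_lit 0, nat_lit 344), (nat_lit 1, nat_lit 656)])],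
 ⟨p118_k30, nat_lit 0, nat_lit 0, nat_lit 119, nat_lit 0, nat_lit 0, [nat_lit 902028801, nat_lit 1219568000], [], [nat_lit 27343854241, nat_lit 29486523040, nat_lit 29018555028, nat_lit 31161303552, nat_lit 27716940741, nat_lit 29464335400, nat_lit 29035199189, nat_lit 31007718745], nat_lit 0, nat_lit 0, nat_lit 0, nat_lit 0, nat_lit 0, nat_lit 0, [], [nat_lit 86, nat_lit 40, nat_lit 40, nat_lit 80, nat_lit 87, nat_lit 249, nat_lit 40, nat_lit 9]⟩, C1.Rw.none,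
 ⟨nat_lit 0, nat_lit 3163, ⟨.ofNat (nat_lit 832430), .ofNat (nat_lit 881191), .ofNat (nat_lit 876741), .ofNat (nat_lit 925502), .ofNat (nat_lit 799997), .ofNat (nat_lit 839996), .ofNat (nat_lit 849999), .ofNat (nat_lit 889997)⟩, ⟨.ofNat (nat_lit 139898), .ofNat (nat_lit 261802), .ofNat (nat_lit 184209), .ofNat (nat_lit 306113), .ofNat (nat_lit 149998), .ofNat (nat_lit 249995), .ofNat (nat_lit 199999), .ofNat (nat_lit 299996)⟩⟩, [⟨nat_lit 13, nat_lit 50, nat_lit 65, nat_lit 100, nat_lit 34040414⟩, ⟨nat_lit 13, nat_lit 75, nat_lit 35, nat_lit 100, nat_lit 225370409⟩]⟩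
noncomputable def p118_l129 : Lf2 := ⟨nat_lit 0, nat_lit 10, [nat_lit 0, nat_lit 5, nat_lit 5, nat_lit 20], true, nat_lit 160, nat_lit 200, nat_lit 48, nat_lit 300, ⟨nat_lit 0, nat_lit 1000, nat_lit 0, nat_lit 9, nat_lit 338, nat_lit 1000, nat_lit 123, nat_lit 0, nat_lit 0, nat_lit 0, nat_lit 0, nat_lit 0, nat_lit 35867017, nat_lit 25988795, nat_lit 5144188, nat_lit 4775668, true, true⟩,
 nat_lit 0, nat_lit 0, nat_lit 0, nat_lit 0, nat_lit 2982, nat_lit 0, nat_lit 0, nat_lit 0, nat_lit 0, nat_lit 0, nat_lit 0, nat_lit 0, nat_lit 0, nat_lit 0, nat_lit 0, nat_lit 305200, nat_lit 0, nat_lit 0, [(nat_lit 24, [(nat_lit 0, nat_lit 632), (nat_lit 1, nat_lit 368)]), (nat_lit 27, [(nat_lit 0, nat_lit 632), (nat_lit 1, nat_lit 368)])],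
 ⟨p118_k30, nat_lit 0, nat_lit 0, nat_lit 90, nat_lit 0, nat_lit 0, [nat_lit 848806401, nat_lit 1429158400], [], [nat_lit 27522252627, nat_lit 29416209520, nat_lit 28587399658, nat_lit 30569077951, nat_lit 28187871243, nat_lit 30008418488, nat_lit 29201637460, nat_lit 31099371292], nat_lit 0, nat_lit 0, nat_lit 0, nat_lit 0, nat_lit 0, nat_lit 0, [], [nat_lit 86, nat_lit 40, nat_lit 40, nat_lit 80, nat_lit 87, nat_lit 203, nat_lit 0, nat_lit 6]⟩, C1.Rw.none,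
 ⟨nat_lit 0, nat_lit 3163, ⟨.ofNat (nat_lit 832430), .ofNat (nat_lit 869001), .ofNat (nat_lit 854585), .ofNat (nat_lit 891156), .ofNat (nat_lit 799997), .ofNat (nat_lit 829996), .ofNat (nat_lit 824998), .ofNat (nat_lit 854997)⟩, ⟨.ofNat (nat_lit 261802), .ofNat (nat_lit 322753), .ofNat (nat_lit 306113), .ofNat (nat_lit 367065), .ofNat (nat_lit 249995), .ofNat (nat_lit 299993), .ofNat (nat_lit 299996), .ofNat (nat_lit 349995)⟩⟩, [⟨nat_lit 13, nat_lit 69, nat_lit 45, nat_lit 100, nat_lit 284732985⟩, ⟨nat_lit 16, nat_lit 60, nat_lit 100, nat_lit 80, nat_lit 2434155⟩]⟩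
noncomputable def p118_l130 : Lf2 := ⟨nat_lit 0, nat_lit 10, [nat_lit 0, nat_lit 5, nat_lit 5, nat_lit 20], false, nat_lit 160, nat_lit 200, nat_lit 48, nat_lit 280, ⟨nat_lit 122, nat_lit 878, nat_lit 0, nat_lit 9, nat_lit 350, nat_lit 878, nat_lit 123, nat_lit 0, nat_lit 0, nat_lit 0, nat_lit 0, nat_lit 0, nat_lit 34946467, nat_lit 27006713, nat_lit 5046820, nat_lit 4781586, true, true⟩,
 nat_lit 0, nat_lit 0, nat_lit 1232, nat_lit 0, nat_lit 2774, nat_lit 852, nat_lit 59, nat_lit 0, nat_lit 0, nat_lit 39, nat_lit 0, nat_lit 0, nat_lit 0, nat_lit 0, nat_lit 0, nat_lit 311000, nat_lit 0, nat_lit 0, [(nat_lit 24, [(nat_lit 0, nat_lit 268), (nat_lit 1, nat_lit 610)]), (nat_lit 27, [(nat_lit 0, nat_lit 268), (nat_lit 1, nat_lit 610)])],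
 ⟨p118_k32, nat_lit 0, nat_lit 0, nat_lit 96, nat_lit 0, nat_lit 0, [nat_lit 840970400, nat_lit 1375186934, nat_lit 1611220800], [], [nat_lit 27396307221, nat_lit 29197227397, nat_lit 28832629023, nat_lit 30610789431, nat_lit 28075848709, nat_lit 29778305225, nat_lit 29436185662, nat_lit 31144216300], nat_lit 0, nat_lit 0, nat_lit 0, nat_lit 0, nat_lit 0, nat_lit 0, [], [nat_lit 35, nat_lit 40, nat_lit 40, nat_lit 80, nat_lit 22, nat_lit 203, nat_lit 0, nat_lit 6]⟩, ⟨p118_k35, nat_lit 0, nat_lit 0, nat_lit 1157, nat_lit 0, nat_lit 2435365, [nat_lit 400404000, nat_lit 762500000, nat_lit 972096000], [], [nat_lit 4441380404, nat_lit 4446614055, nat_lit 4474501366, nat_lit 4477626541, nat_lit 4119822899, nat_lit 4117153811, nat_lit 4137378981, nat_lit 4167273387], nat_lit 1271250, nat_lit 1271250, nat_lit 1271250, nat_lit 1271250, nat_lit 279600, nat_lit 2022500, [nat_lit 780000, nat_lit 1435000, nat_lit 1271250], [nat_lit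 18, nat_lit 40, nat_lit 40, nat_lit 80, nat_lit 2, nat_lit 414, nat_lit 75, nat_lit 12]⟩,
 ⟨nat_lit 0, nat_lit 3163, ⟨.ofNat (nat_lit 854585), .ofNat (nat_lit 903347), .ofNat (nat_lit 876741), .ofNat (nat_lit 925502), .ofNat (nat_lit 824998), .ofNat (nat_lit 864997), .ofNat (nat_lit 849999), .ofNat (nat_lit 889997)⟩, ⟨.ofNat (nat_lit 261802), .ofNat (nat_lit 322753), .ofNat (nat_lit 306113), .ofNat (nat_lit 367065), .ofNat (nat_lit 249995), .ofNat (nat_lit 299993), .ofNat (nat_lit 299996), .ofNat (nat_lit 349995)⟩⟩, [⟨nat_lit 13, nat_lit 75, nat_lit 35, nat_lit 100, nat_lit 206620749⟩, ⟨nat_lit 16, nat_lit 60, nat_lit 100, nat_lit 80, nat_lit 251448178⟩, ⟨nat_lit 19, nat_lit 94, nat_lit 100, nat_lit 87, nat_lit 19000803⟩]⟩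
noncomputable def p118_l131 : Lf2 := ⟨nat_lit 0, nat_lit 10, [nat_lit 0, nat_lit 5, nat_lit 5, nat_lit 20], true, nat_lit 0, nat_lit 200, nat_lit 0, nat_lit 300, ⟨nat_lit 0, nat_lit 1000, nat_lit 0, nat_lit 7, nat_lit 285, nat_lit 1000, nat_lit 67, nat_lit 0, nat_lit 0, nat_lit 0, nat_lit 0, nat_lit 0, nat_lit 0, nat_lit 0, nat_lit 0, nat_lit 5000000, false, false⟩,
 nat_lit 0, nat_lit 0, nat_lit 0, nat_lit 0, nat_lit 3222, nat_lit 0, nat_lit 0, nat_lit 0, nat_lit 0, nat_lit 0, nat_lit 0, nat_lit 0, nat_lit 0, nat_lit 0, nat_lit 0, nat_lit 274150, nat_lit 0, nat_lit 0, [(nat_lit 24, [(nat_lit 0, nat_lit 839), (nat_lit 1, nat_lit 161)]), (nat_lit 27, [(nat_lit 0, nat_lit 839), (nat_lit 1, nat_lit 161)])],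
 ⟨p118_k30, nat_lit 0, nat_lit 0, nat_lit 172, nat_lit 0, nat_lit 0, [nat_lit 810552801, nat_lit 1584656800], [], [nat_lit 21950219160, nat_lit 24816279463, nat_lit 31843118656, nat_lit 34126049663, nat_lit 23059915999, nat_lit 25190739779, nat_lit 29919460326, nat_lit 31830875218], nat_lit 0, nat_lit 0, nat_lit 0, nat_lit 0, nat_lit 0, nat_lit 0, [], [nat_lit 86, nat_lit 40, nat_lit 40, nat_lit 80, nat_lit 87, nat_lit 373, nat_lit 150, nat_lit 17]⟩, C1.Rw.none,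
 ⟨nat_lit 0, nat_lit 3163, ⟨.ofNat (nat_lit 507176), .ofNat (nat_lit 881191), .ofNat (nat_lit 548877), .ofNat (nat_lit 925502), .ofNat (nat_lit 531701), .ofNat (nat_lit 839996), .ofNat (nat_lit 579091), .ofNat (nat_lit 889997)⟩, ⟨.ofNat (nat_lit 0), .ofNat (nat_lit 322753), .ofNat (nat_lit 0), .ofNat (nat_lit 367065), .ofNat (nat_lit 0), .ofNat (nat_lit 299993), .ofNat (nat_lit 0), .ofNat (nat_lit 349995)⟩⟩, [⟨nat_lit 13, nat_lit 75, nat_lit 35, nat_lit 100, nat_lit 330386158⟩]⟩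
noncomputable def b_V_900_700_10_0 : St := ⟨true, nat_lit 0, nat_lit 2, nat_lit 0, nat_lit 80, nat_lit 360, nat_lit 400, nat_lit 280, nat_lit 320, nat_lit 152, nat_lit 392, nat_lit 40, nat_lit 80, nat_lit 0, nat_lit 200, nat_lit 0, nat_lit 300, nat_lit 0, nat_lit 40, nat_lit 0, nat_lit 0, nat_lit 0, nat_lit 0⟩
theorem d_V_900_700_10_0 (h : EB TB.env) : Dead b_V_900_700_10_0 := chkB_sound0 h (T :=
(.gv
(.st (nat_lit 1)
(.leaf p118_l113)
(.spl (nat_lit 2) (nat_lit 240)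
(.spl (nat_lit 1) (nat_lit 300)
(.leaf p118_l114)
(.trZ (nat_lit 0) (nat_lit 87) (nat_lit 60) (nat_lit 100) (nat_lit 176) (.trX (nat_lit 19) (nat_lit 94) (nat_lit 100) (nat_lit 87) (nat_lit 280) (.leaf p118_l115))))
(.spl (nat_lit 4) (nat_lit 80)
(.spl (nat_lit 2) (nat_lit 320)
(.leaf p118_l116)
(.trX (nat_lit 22) (nat_lit 83) (nat_lit 100) (nat_lit 83) (nat_lit 260) (.spl (nat_lit 2) (nat_lit 360)
(.spl (nat_lit 0) (nat_lit 380)
(.spl (nat_lit 0) (nat_lit 370)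
(.spl (nat_lit 1) (nat_lit 300)
(.leaf p118_l117)
(.leaf p118_l118))
(.spl (nat_lit 1) (nat_lit 300)
(.leaf p118_l119)
(.leaf p118_l120)))
(.leaf p118_l121))
(.trX (nat_lit 22) (nat_lit 60) (nat_lit 100) (nat_lit 80) (nat_lit 200) (.spl (nat_lit 1) (nat_lit 300)
(.trX (nat_lit 13) (nat_lit 69) (nat_lit 45) (nat_lit 100) (nat_lit 384) (.spl (nat_lit 1) (nat_lit 290)
(.trX (nat_lit 13) (nat_lit 67) (nat_lit 50) (nat_lit 100) (nat_lit 380) (.leaf p118_l122))
(.leaf p118_l123)))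
(.spl (nat_lit 0) (nat_lit 380)
(.leaf p118_l124)
(.trX (nat_lit 13) (nat_lit 54) (nat_lit 57) (nat_lit 100) (nat_lit 380) (.leaf p118_l125))))))))
(.spl (nat_lit 2) (nat_lit 320)
(.leaf p118_l126)
(.spl (nat_lit 2) (nat_lit 360)
(.leaf p118_l127)
(.trZ (nat_lit 9) (nat_lit 100) (nat_lit 75) (nat_lit 35) (nat_lit 8) (.spl (nat_lit 4) (nat_lit 160)
(.trX (nat_lit 22) (nat_lit 61) (nat_lit 92) (nat_lit 100) (nat_lit 288) (.leaf p118_l128))
(.trZ (nat_lit 9) (nat_lit 100) (nat_lit 61) (nat_lit 68) (nat_lit 48) (.spl (nat_lit 1) (nat_lit 300)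
(.trX (nat_lit 13) (nat_lit 69) (nat_lit 45) (nat_lit 100) (nat_lit 384) (.leaf p118_l129))
(.trX (nat_lit 19) (nat_lit 94) (nat_lit 100) (nat_lit 87) (nat_lit 280) (.leaf p118_l130)))))))))))
(.leaf p118_l131))) (by decide +kernel)
noncomputable def p118_l132 : Lf2 := ⟨nat_lit 0, nat_lit 10, [nat_lit 0, nat_lit 5, nat_lit 5, nat_lit 20], false, nat_lit 0, nat_lit 200, nat_lit 0, nat_lit 160, ⟨nat_lit 780, nat_lit 0, nat_lit 220, nat_lit 7, nat_lit 287, nat_lit 220, nat_lit 69, nat_lit 220, nat_lit 43350, nat_lit 266, nat_lit 579758, nat_lit 200, nat_lit 44197702, nat_lit 0, nat_lit 0, nat_lit 3206279, false, false⟩,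
 nat_lit 0, nat_lit 4743, nat_lit 0, nat_lit 0, nat_lit 4131, nat_lit 5167, nat_lit 139, nat_lit 0, nat_lit 0, nat_lit 920, nat_lit 0, nat_lit 0, nat_lit 0, nat_lit 0, nat_lit 0, nat_lit 220000, nat_lit 0, nat_lit 0, [(nat_lit 24, [(nat_lit 6, nat_lit 220)])],
 ⟨p118_k32, nat_lit 0, nat_lit 0, nat_lit 651, nat_lit 0, nat_lit 1440297, [nat_lit 1028816001, nat_lit 2067365334, nat_lit 2579696000], [], [nat_lit 30957338272, nat_lit 31639635242, nat_lit 35321971995, nat_lit 35813649952, nat_lit 30940282025, nat_lit 31520608973, nat_lit 34581757322, nat_lit 35009096189], nat_lit 1271250, nat_lit 1271250, nat_lit 1033601, nat_lit 3070600, nat_lit 0, nat_lit 1412500, [nat_lit 230000, nat_lit 780000, nat_lit 1100000], [nat_lit 35, nat_lit 40, nat_lit 40, nat_lit 80, nat_lit 22, nat_lit 373, nat_lit 150, nat_lit 17]⟩, ⟨p118_k38, nat_lit 0, nat_lit 0, nat_lit 216, nat_lit 0, nat_lit 0, [nat_lit 2559960000, nat_lit 4875000000,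 nat_lit 7676760000], [], [nat_lit 16512830724, nat_lit 19191017199, nat_lit 28404807621, nat_lit 30398229910, nat_lit 13487990288, nat_lit 15630590934, nat_lit 23579673223, nat_lit 24975057533], nat_lit 0, nat_lit 0, nat_lit 0, nat_lit 0, nat_lit 0, nat_lit 0, [], [nat_lit 8, nat_lit 40, nat_lit 40, nat_lit 80, nat_lit 1, nat_lit 373, nat_lit 150, nat_lit 11]⟩,
 ⟨nat_lit 2236, nat_lit 3163, ⟨.ofNat (nat_lit 515097), .ofNat (nat_lit 881194), .ofNat (nat_lit 559279), .ofNat (nat_lit 925504), .ofNat (nat_lit 522299), .ofNat (nat_lit 864770), .ofNat (nat_lit 567721), .ofNat (nat_lit 910319)⟩, ⟨.ofNat (nat_lit 0), .ofNat (nat_lit 322759), .ofNat (nat_lit 0), .ofNat (nat_lit 367069), .ofNat (nat_lit 0), .ofNat (nat_lit 317804), .ofNat (nat_lit 0), .ofNat (nat_lit 363353)⟩⟩, [⟨nat_lit 4, nat_lit 100, nat_lit 54, nat_lit 73, nat_lit 268198289⟩]⟩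
noncomputable def p118_l133 : Lf2 := ⟨nat_lit 0, nat_lit 10, [nat_lit 0, nat_lit 5, nat_lit 5, nat_lit 20], false, nat_lit 0, nat_lit 164, nat_lit 0, nat_lit 160, ⟨nat_lit 1000, nat_lit 0, nat_lit 0, nat_lit 0, nat_lit 0, nat_lit 0, nat_lit 0, nat_lit 0, nat_lit 0, nat_lit 0, nat_lit 0, nat_lit 0, nat_lit 0, nat_lit 0, nat_lit 0, nat_lit 0, false, false⟩,
 nat_lit 0, nat_lit 4114, nat_lit 0, nat_lit 0, nat_lit 3843, nat_lit 6157, nat_lit 178, nat_lit 0, nat_lit 0, nat_lit 1022, nat_lit 0, nat_lit 0, nat_lit 0, nat_lit 0, nat_lit 0, nat_lit 0, nat_lit 0, nat_lit 0, [],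
 ⟨p118_k36, nat_lit 0, nat_lit 0, nat_lit 578, nat_lit 0, nat_lit 1450315, [nat_lit 938000000, nat_lit 3282000000], [], [nat_lit 29504921398, nat_lit 30455610786, nat_lit 34752860652, nat_lit 35439711488, nat_lit 30018311899, nat_lit 30821883325, nat_lit 34457322704, nat_lit 35045718169], nat_lit 1271250, nat_lit 1271250, nat_lit 1271250, nat_lit 1271250, nat_lit 0, nat_lit 1133651, [nat_lit 230000, nat_lit 780000], [nat_lit 66, nat_lit 40, nat_lit 40, nat_lit 80, nat_lit 67, nat_lit 263, nat_lit 50, nat_lit 14]⟩, ⟨p118_k38, nat_lit 0, nat_lit 0, nat_lit 212, nat_lit 0, nat_lit 0, [nat_lit 3282000000, nat_lit 6250000000, nat_lit 9842000000], [], [nat_lit 23128612963, nat_lit 26179941014, nat_lit 34387329258, nat_lit 36507728514, nat_lit 19619355263, nat_lit 22067573542, nat_lit 29469956704, nat_lit 31292090588], nat_lit 0, nat_lit 0, nat_lit 0, nat_lit 0, nat_lit 0, nat_lit 0, [], [nat_lit 8, nat_lit 40, nat_lit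 40, nat_lit 80, nat_lit 1, nat_lit 373, nat_lit 150, nat_lit 10]⟩,
 zbF0, [⟨nat_lit 0, nat_lit 88, nat_lit 32, nat_lit 100, nat_lit 24130505⟩, ⟨nat_lit 4, nat_lit 100, nat_lit 35, nat_lit 80, nat_lit 575960600⟩]⟩
noncomputable def p118_l134 : Lf2 := ⟨nat_lit 0, nat_lit 10, [nat_lit 0, nat_lit 5, nat_lit 5, nat_lit 20], false, nat_lit 0, nat_lit 200, nat_lit 160, nat_lit 300, ⟨nat_lit 770, nat_lit 0, nat_lit 230, nat_lit 7, nat_lit 242, nat_lit 230, nat_lit 67, nat_lit 230, nat_lit 41667, nat_lit 265, nat_lit 118222, nat_lit 200, nat_lit 49023188, nat_lit 0, nat_lit 0, nat_lit 2907855, false, false⟩,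
 nat_lit 0, nat_lit 5414, nat_lit 0, nat_lit 0, nat_lit 4715, nat_lit 4083, nat_lit 130, nat_lit 0, nat_lit 0, nat_lit 0, nat_lit 0, nat_lit 0, nat_lit 0, nat_lit 0, nat_lit 0, nat_lit 230000, nat_lit 0, nat_lit 0, [(nat_lit 24, [(nat_lit 6, nat_lit 230)]), (nat_lit 27, [(nat_lit 6, nat_lit 230)])],
 ⟨p118_k32, nat_lit 0, nat_lit 0, nat_lit 720, nat_lit 0, nat_lit 1592133, [nat_lit 1032944001, nat_lit 2012154667, nat_lit 2543296000], [], [nat_lit 27760073189, nat_lit 29054942286, nat_lit 28621133818, nat_lit 30620683280, nat_lit 27254686675, nat_lit 28419627897, nat_lit 27994033489, nat_lit 29022848959], nat_lit 1271250, nat_lit 1271250, nat_lit 1033601, nat_lit 1780500, nat_lit 0, nat_lit 1412500, [nat_lit 230000, nat_lit 780000, nat_lit 1100000], [nat_lit 35, nat_lit 40, nat_lit 40, nat_lit 80, nat_lit 22, nat_lit 345, nat_lit 125, nat_lit 16]⟩, ⟨p118_k38, nat_lit 0, nat_lit 0, nat_lit 45, nat_lit 0, nat_lit 0,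 [nat_lit 2527140000, nat_lit 4812500000, nat_lit 7578340000], [], [nat_lit 9962074983, nat_lit 12702454301, nat_lit 12831337592, nat_lit 15121295680, nat_lit 15683366200, nat_lit 17875566530, nat_lit 17648221964, nat_lit 19490199115], nat_lit 0, nat_lit 0, nat_lit 0, nat_lit 0, nat_lit 0, nat_lit 0, [], [nat_lit 8, nat_lit 40, nat_lit 40, nat_lit 80, nat_lit 1, nat_lit 373, nat_lit 150, nat_lit 10]⟩,
 ⟨nat_lit 0, nat_lit 3163, ⟨.ofNat (nat_lit 507176), .ofNat (nat_lit 646918), .ofNat (nat_lit 548877), .ofNat (nat_lit 688618), .ofNat (nat_lit 531701), .ofNat (nat_lit 647345), .ofNat (nat_lit 579091), .ofNat (nat_lit 694736)⟩, ⟨.ofNat (nat_lit 0), .ofNat (nat_lit 322753), .ofNat (nat_lit 0), .ofNat (nat_lit 367065), .ofNat (nat_lit 0), .ofNat (nat_lit 299993), .ofNat (nat_lit 0), .ofNat (nat_lit 349995)⟩⟩, [⟨nat_lit 0, nat_lit 87, nat_lit 44, nat_lit 100, nat_lit 532443656⟩, ⟨nat_lit 16, nat_lit 46, nat_lit 100, nat_lit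 75, nat_lit 229259676⟩, ⟨nat_lit 19, nat_lit 100, nat_lit 95, nat_lit 87, nat_lit 299351470⟩, ⟨nat_lit 7, nat_lit 100, nat_lit 90, nat_lit 74, nat_lit 121286642⟩]⟩
noncomputable def p118_l135 : Lf2 := ⟨nat_lit 0, nat_lit 10, [nat_lit 0, nat_lit 5, nat_lit 5, nat_lit 20], false, nat_lit 0, nat_lit 200, nat_lit 160, nat_lit 300, ⟨nat_lit 792, nat_lit 0, nat_lit 208, nat_lit 7, nat_lit 313, nat_lit 208, nat_lit 69, nat_lit 208, nat_lit 43350, nat_lit 266, nat_lit 579758, nat_lit 200, nat_lit 41524325, nat_lit 0, nat_lit 0, nat_lit 3320892, true, true⟩,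
 nat_lit 0, nat_lit 4873, nat_lit 0, nat_lit 0, nat_lit 4244, nat_lit 6084, nat_lit 134, nat_lit 0, nat_lit 0, nat_lit 0, nat_lit 0, nat_lit 0, nat_lit 0, nat_lit 0, nat_lit 0, nat_lit 208000, nat_lit 0, nat_lit 0, [(nat_lit 24, [(nat_lit 6, nat_lit 208)])],
 ⟨p118_k32, nat_lit 0, nat_lit 0, nat_lit 631, nat_lit 0, nat_lit 1440297, [nat_lit 1023862400, nat_lit 2133618134, nat_lit 2694694400], [], [nat_lit 31998753744, nat_lit 32608249512, nat_lit 35264519187, nat_lit 36165337999, nat_lit 31621601140, nat_lit 32140460956, nat_lit 34293598318, nat_lit 34691187216], nat_lit 1271250, nat_lit 1271250, nat_lit 1271250, nat_lit 1271250, nat_lit 0, nat_lit 1412500, [nat_lit 230000, nat_lit 780000, nat_lit 1100000], [nat_lit 35, nat_lit 40, nat_lit 40, nat_lit 80, nat_lit 22, nat_lit 280, nat_lit 50, nat_lit 12]⟩, ⟨p118_k38, nat_lit 0, nat_lit 0, nat_lit 86, nat_lit 0, nat_lit 0, [nat_lit 2599344000, nat_lit 4950000000,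 nat_lit 7794864000], [], [nat_lit 14756930496, nat_lit 17286366096, nat_lit 24041729664, nat_lit 25953916925, nat_lit 19468509120, nat_lit 21255255036, nat_lit 26870074532, nat_lit 28203174166], nat_lit 0, nat_lit 0, nat_lit 0, nat_lit 0, nat_lit 0, nat_lit 0, [], [nat_lit 8, nat_lit 40, nat_lit 40, nat_lit 80, nat_lit 1, nat_lit 401, nat_lit 175, nat_lit 11]⟩,
 ⟨nat_lit 2236, nat_lit 3163, ⟨.ofNat (nat_lit 649422), .ofNat (nat_lit 881194), .ofNat (nat_lit 693606), .ofNat (nat_lit 925504), .ofNat (nat_lit 647962), .ofNat (nat_lit 864770), .ofNat (nat_lit 693384), .ofNat (nat_lit 910319)⟩, ⟨.ofNat (nat_lit 0), .ofNat (nat_lit 322759), .ofNat (nat_lit 0), .ofNat (nat_lit 367069), .ofNat (nat_lit 0), .ofNat (nat_lit 317804), .ofNat (nat_lit 0), .ofNat (nat_lit 363353)⟩⟩, [⟨nat_lit 16, nat_lit 54, nat_lit 100, nat_lit 73, nat_lit 198091401⟩, ⟨nat_lit 19, nat_lit 90, nat_lit 100, nat_lit 74, nat_lit 381895186⟩]⟩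
noncomputable def p118_l136 : Lf2 := ⟨nat_lit 0, nat_lit 10, [nat_lit 0, nat_lit 5, nat_lit 5, nat_lit 20], false, nat_lit 0, nat_lit 164, nat_lit 160, nat_lit 300, ⟨nat_lit 1000, nat_lit 0, nat_lit 0, nat_lit 0, nat_lit 0, nat_lit 0, nat_lit 0, nat_lit 0, nat_lit 0, nat_lit 0, nat_lit 0, nat_lit 0, nat_lit 0, nat_lit 0, nat_lit 0, nat_lit 0, false, false⟩,
 nat_lit 0, nat_lit 3945, nat_lit 0, nat_lit 0, nat_lit 3686, nat_lit 5154, nat_lit 563, nat_lit 0, nat_lit 0, nat_lit 0, nat_lit 0, nat_lit 0, nat_lit 0, nat_lit 0, nat_lit 0, nat_lit 0, nat_lit 0, nat_lit 0, [],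
 ⟨p118_k36, nat_lit 0, nat_lit 0, nat_lit 578, nat_lit 0, nat_lit 1450315, [nat_lit 938000000, nat_lit 3282000000], [], [nat_lit 29888796399, nat_lit 30757854871, nat_lit 34206885154, nat_lit 34937036928, nat_lit 30317601728, nat_lit 31057509006, nat_lit 34069826737, nat_lit 34695758036], nat_lit 1271250, nat_lit 1271250, nat_lit 1271250, nat_lit 1271250, nat_lit 0, nat_lit 1133651, [nat_lit 230000, nat_lit 780000], [nat_lit 66, nat_lit 40, nat_lit 40, nat_lit 80, nat_lit 67, nat_lit 263, nat_lit 50, nat_lit 14]⟩, ⟨p118_k38, nat_lit 0, nat_lit 0, nat_lit 81, nat_lit 0, nat_lit 0, [nat_lit 3282000000, nat_lit 6250000000, nat_lit 9842000000], [], [nat_lit 16833668416, nat_lit 19761715040, nat_lit 26722027456, nat_lit 28827630476, nat_lit 22876923612, nat_lit 25236292250, nat_lit 30515772123, nat_lit 32060931875], nat_lit 0, nat_lit 0, nat_lit 0, nat_lit 0, nat_lit 0, nat_lit 0, [], [nat_lit 8, nat_lit 40, nat_lit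 40, nat_lit 80, nat_lit 1, nat_lit 401, nat_lit 175, nat_lit 11]⟩,
 zbF0, [⟨nat_lit 4, nat_lit 100, nat_lit 35, nat_lit 80, nat_lit 506262372⟩, ⟨nat_lit 19, nat_lit 100, nat_lit 95, nat_lit 87, nat_lit 408180003⟩]⟩
noncomputable def p118_l137 : Lf2 := ⟨nat_lit 0, nat_lit 10, [nat_lit 0, nat_lit 5, nat_lit 5, nat_lit 20], false, nat_lit 0, nat_lit 200, nat_lit 0, nat_lit 300, ⟨nat_lit 326, nat_lit 172, nat_lit 502, nat_lit 7, nat_lit 231, nat_lit 674, nat_lit 69, nat_lit 502, nat_lit 43350, nat_lit 266, nat_lit 7641, nat_lit 201, nat_lit 50284733, nat_lit 16715267, nat_lit 0, nat_lit 2808823, false, false⟩,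
 nat_lit 4012, nat_lit 0, nat_lit 0, nat_lit 0, nat_lit 3494, nat_lit 2552, nat_lit 101, nat_lit 0, nat_lit 0, nat_lit 232, nat_lit 0, nat_lit 0, nat_lit 0, nat_lit 0, nat_lit 0, nat_lit 243800, nat_lit 0, nat_lit 0, [(nat_lit 24, [(nat_lit 0, nat_lit 172), (nat_lit 5, nat_lit 502)])],
 ⟨p118_k32, nat_lit 0, nat_lit 0, nat_lit 390, nat_lit 0, nat_lit 799275, [nat_lit 802916001, nat_lit 916475467, nat_lit 897168000], [], [nat_lit 21352644199, nat_lit 23408865774, nat_lit 22528448544, nat_lit 24425655336, nat_lit 21492730721, nat_lit 22498817127, nat_lit 22366541519, nat_lit 23382515656], nat_lit 1271250, nat_lit 1271250, nat_lit 1033601, nat_lit 1441000, nat_lit 0, nat_lit 1412500, [nat_lit 230000, nat_lit 780000, nat_lit 1100000], [nat_lit 35, nat_lit 40, nat_lit 40, nat_lit 80, nat_lit 22, nat_lit 317, nat_lit 100, nat_lit 14]⟩, ⟨p118_k38, nat_lit 0, nat_lit 0, nat_lit 742, nat_lit 0, nat_lit 1162302, [nat_lit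 1069932000, nat_lit 2037500000, nat_lit 3208492000], [], [nat_lit 11497530876, nat_lit 11802914175, nat_lit 11463760808, nat_lit 11788738888, nat_lit 10554973156, nat_lit 10757018873, nat_lit 11268064152, nat_lit 10637289402], nat_lit 1271250, nat_lit 1271250, nat_lit 1033601, nat_lit 1441000, nat_lit 0, nat_lit 2118750, [nat_lit 780000, nat_lit 1435000, nat_lit 1271250], [nat_lit 8, nat_lit 40, nat_lit 40, nat_lit 80, nat_lit 1, nat_lit 345, nat_lit 125, nat_lit 10]⟩,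
 ⟨nat_lit 2236, nat_lit 3163, ⟨.ofNat (nat_lit 515097), .ofNat (nat_lit 588366), .ofNat (nat_lit 559279), .ofNat (nat_lit 632548), .ofNat (nat_lit 522299), .ofNat (nat_lit 590843), .ofNat (nat_lit 567721), .ofNat (nat_lit 636264)⟩, ⟨.ofNat (nat_lit 0), .ofNat (nat_lit 322759), .ofNat (nat_lit 0), .ofNat (nat_lit 367069), .ofNat (nat_lit 0), .ofNat (nat_lit 317804), .ofNat (nat_lit 0), .ofNat (nat_lit 363353)⟩⟩, [⟨nat_lit 0, nat_lit 87, nat_lit 53, nat_lit 100, nat_lit 217277055⟩, ⟨nat_lit 4, nat_lit 100, nat_lit 54, nat_lit 73, nat_lit 66979383⟩, ⟨nat_lit 19, nat_lit 90, nat_lit 100, nat_lit 74, nat_lit 59456600⟩]⟩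
noncomputable def p118_l138 : Lf2 := ⟨nat_lit 0, nat_lit 10, [nat_lit 0, nat_lit 5, nat_lit 5, nat_lit 20], false, nat_lit 0, nat_lit 200, nat_lit 0, nat_lit 300, ⟨nat_lit 334, nat_lit 666, nat_lit 0, nat_lit 7, nat_lit 257, nat_lit 666, nat_lit 69, nat_lit 0, nat_lit 0, nat_lit 0, nat_lit 0, nat_lit 0, nat_lit 47464355, nat_lit 19535645, nat_lit 0, nat_lit 3017786, true, false⟩,
 nat_lit 4602, nat_lit 0, nat_lit 0, nat_lit 0, nat_lit 4008, nat_lit 2928, nat_lit 103, nat_lit 0, nat_lit 0, nat_lit 245, nat_lit 0, nat_lit 0, nat_lit 0, nat_lit 0, nat_lit 0, nat_lit 401400, nat_lit 0, nat_lit 0, [(nat_lit 24, [(nat_lit 1, nat_lit 441), (nat_lit 2, nat_lit 225)])],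
 ⟨p118_k32, nat_lit 0, nat_lit 0, nat_lit 379, nat_lit 0, nat_lit 799275, [nat_lit 1017560000, nat_lit 1429632000, nat_lit 1516162400], [], [nat_lit 23495064608, nat_lit 25544861552, nat_lit 25070606464, nat_lit 26960554400, nat_lit 23024472560, nat_lit 24017476312, nat_lit 23962096432, nat_lit 24974485848], nat_lit 1271250, nat_lit 1271250, nat_lit 1271250, nat_lit 1271250, nat_lit 0, nat_lit 1412500, [nat_lit 230000, nat_lit 780000, nat_lit 1100000], [nat_lit 35, nat_lit 40, nat_lit 40, nat_lit 80, nat_lit 22, nat_lit 260, nat_lit 50, nat_lit 11]⟩, ⟨p118_k38, nat_lit 0, nat_lit 0, nat_lit 727, nat_lit 0, nat_lit 1162302, [nat_lit 1096188000, nat_lit 2087500000, nat_lit 3287228000], [], [nat_lit 10214487720, nat_lit 10574172712, nat_lit 10329353088, nat_lit 10651754320, nat_lit 9056693368, nat_lit 9071802898, nat_lit 8879586286, nat_lit 9052834553], nat_lit 1271250, nat_lit 1271250, nat_lit 1271250, nat_lit 1271250,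 nat_lit 0, nat_lit 2118750, [nat_lit 780000, nat_lit 1435000, nat_lit 1271250], [nat_lit 8, nat_lit 40, nat_lit 40, nat_lit 80, nat_lit 1, nat_lit 373, nat_lit 150, nat_lit 10]⟩,
 ⟨nat_lit 2236, nat_lit 3163, ⟨.ofNat (nat_lit 588366), .ofNat (nat_lit 649422), .ofNat (nat_lit 632548), .ofNat (nat_lit 693606), .ofNat (nat_lit 590843), .ofNat (nat_lit 647962), .ofNat (nat_lit 636264), .ofNat (nat_lit 693384)⟩, ⟨.ofNat (nat_lit 0), .ofNat (nat_lit 322759), .ofNat (nat_lit 0), .ofNat (nat_lit 367069), .ofNat (nat_lit 0), .ofNat (nat_lit 317804), .ofNat (nat_lit 0), .ofNat (nat_lit 363353)⟩⟩, [⟨nat_lit 0, nat_lit 82, nat_lit 44, nat_lit 100, nat_lit 217520412⟩, ⟨nat_lit 4, nat_lit 100, nat_lit 54, nat_lit 73, nat_lit 118712536⟩, ⟨nat_lit 7, nat_lit 100, nat_lit 90, nat_lit 74, nat_lit 50876145⟩]⟩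
noncomputable def p118_l139 : Lf2 := ⟨nat_lit 0, nat_lit 10, [nat_lit 0, nat_lit 5, nat_lit 5, nat_lit 20], false, nat_lit 0, nat_lit 164, nat_lit 0, nat_lit 300, ⟨nat_lit 262, nat_lit 738, nat_lit 0, nat_lit 7, nat_lit 255, nat_lit 738, nat_lit 57, nat_lit 0, nat_lit 0, nat_lit 0, nat_lit 0, nat_lit 0, nat_lit 47663219, nat_lit 19336781, nat_lit 0, nat_lit 3004505, true, false⟩,
 nat_lit 3608, nat_lit 0, nat_lit 0, nat_lit 0, nat_lit 3371, nat_lit 2296, nat_lit 136, nat_lit 0, nat_lit 0, nat_lit 194, nat_lit 0, nat_lit 0, nat_lit 0, nat_lit 0, nat_lit 0, nat_lit 295200, nat_lit 0, nat_lit 0, [(nat_lit 27, [(nat_lit 1, nat_lit 738)])],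
 ⟨p118_k36, nat_lit 0, nat_lit 0, nat_lit 346, nat_lit 0, nat_lit 814343, [nat_lit 760584800, nat_lit 1099291200], [], [nat_lit 23968988729, nat_lit 25855972589, nat_lit 25535553550, nat_lit 27255586832, nat_lit 22479550151, nat_lit 23775782130, nat_lit 23628911382, nat_lit 25096051913], nat_lit 1271250, nat_lit 1271250, nat_lit 1271250, nat_lit 1271250, nat_lit 0, nat_lit 1133651, [nat_lit 230000, nat_lit 780000], [nat_lit 66, nat_lit 40, nat_lit 40, nat_lit 80, nat_lit 67, nat_lit 260, nat_lit 50, nat_lit 14]⟩, ⟨p118_k38, nat_lit 0, nat_lit 0, nat_lit 776, nat_lit 0, nat_lit 1284832, [nat_lit 859884000, nat_lit 1637500000, nat_lit 2578604000], [], [nat_lit 8014371242, nat_lit 8301985560, nat_lit 8106635424, nat_lit 8359520464, nat_lit 7524250314, nat_lit 7140222371, nat_lit 6970218582, nat_lit 7093363644], nat_lit 1271250, nat_lit 1271250, nat_lit 1271250, nat_lit 1271250, nat_lit 0, nat_lit 2118750, [nat_lit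 780000, nat_lit 1435000, nat_lit 1271250], [nat_lit 8, nat_lit 40, nat_lit 40, nat_lit 80, nat_lit 1, nat_lit 373, nat_lit 150, nat_lit 10]⟩,
 ⟨nat_lit 0, nat_lit 2237, ⟨.ofNat (nat_lit 575619), .ofNat (nat_lit 646249), .ofNat (nat_lit 619314), .ofNat (nat_lit 689944), .ofNat (nat_lit 585925), .ofNat (nat_lit 648136), .ofNat (nat_lit 634072), .ofNat (nat_lit 696283)⟩, ⟨.ofNat (nat_lit 0), .ofNat (nat_lit 266484), .ofNat (nat_lit 0), .ofNat (nat_lit 312035), .ofNat (nat_lit 0), .ofNat (nat_lit 254993), .ofNat (nat_lit 0), .ofNat (nat_lit 304995)⟩⟩, [⟨nat_lit 0, nat_lit 92, nat_lit 44, nat_lit 100, nat_lit 323272752⟩, ⟨nat_lit 16, nat_lit 44, nat_lit 100, nat_lit 82, nat_lit 59712023⟩, ⟨nat_lit 7, nat_lit 100, nat_lit 90, nat_lit 74, nat_lit 39289901⟩]⟩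
noncomputable def p118_l140 : Lf2 := ⟨nat_lit 0, nat_lit 10, [nat_lit 0, nat_lit 5, nat_lit 5, nat_lit 20], false, nat_lit 0, nat_lit 80, nat_lit 0, nat_lit 300, ⟨nat_lit 381, nat_lit 619, nat_lit 0, nat_lit 7, nat_lit 314, nat_lit 619, nat_lit 33, nat_lit 0, nat_lit 0, nat_lit 0, nat_lit 0, nat_lit 0, nat_lit 41437321, nat_lit 25562679, nat_lit 0, nat_lit 3324046, true, true⟩,
 nat_lit 4362, nat_lit 0, nat_lit 0, nat_lit 0, nat_lit 3798, nat_lit 2775, nat_lit 113, nat_lit 0, nat_lit 0, nat_lit 236, nat_lit 0, nat_lit 0, nat_lit 0, nat_lit 0, nat_lit 0, nat_lit 383200, nat_lit 0, nat_lit 0, [(nat_lit 24, [(nat_lit 1, nat_lit 393), (nat_lit 2, nat_lit 226)])],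
 ⟨p118_k32, nat_lit 0, nat_lit 0, nat_lit 385, nat_lit 0, nat_lit 758426, [nat_lit 1022410000, nat_lit 1535541201, nat_lit 1688596000], [], [nat_lit 25262433739, nat_lit 25731611331, nat_lit 33551331904, nat_lit 34164295709, nat_lit 24576540173, nat_lit 25032162829, nat_lit 30505076770, nat_lit 31095789539], nat_lit 1271250, nat_lit 1271250, nat_lit 1271250, nat_lit 1271250, nat_lit 0, nat_lit 490000, [nat_lit 230000, nat_lit 780000, nat_lit 1100000], [nat_lit 35, nat_lit 40, nat_lit 40, nat_lit 80, nat_lit 22, nat_lit 226, nat_lit 20, nat_lit 9]⟩, ⟨p118_k38, nat_lit 0, nat_lit 0, nat_lit 685, nat_lit 0, nat_lit 1102900, [nat_lit 1250442000, nat_lit 2381250000, nat_lit 3749802000], [], [nat_lit 13870122668, nat_lit 14260484144, nat_lit 15294862434, nat_lit 15530502610, nat_lit 12712991960, nat_lit 12924593394, nat_lit 13641937604, nat_lit 13781072318], nat_lit 1271250, nat_lit 1271250, nat_lit 1271250, nat_lit 1271250,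 nat_lit 0, nat_lit 2118750, [nat_lit 780000, nat_lit 1435000, nat_lit 1271250], [nat_lit 8, nat_lit 40, nat_lit 40, nat_lit 80, nat_lit 1, nat_lit 401, nat_lit 175, nat_lit 11]⟩,
 ⟨nat_lit 2738, nat_lit 3163, ⟨.ofNat (nat_lit 649542), .ofNat (nat_lit 881194), .ofNat (nat_lit 693828), .ofNat (nat_lit 925504), .ofNat (nat_lit 648700), .ofNat (nat_lit 873162), .ofNat (nat_lit 693511), .ofNat (nat_lit 917997)⟩, ⟨.ofNat (nat_lit 0), .ofNat (nat_lit 139899), .ofNat (nat_lit 0), .ofNat (nat_lit 184209), .ofNat (nat_lit 0), .ofNat (nat_lit 143475), .ofNat (nat_lit 0), .ofNat (nat_lit 188310)⟩⟩, [⟨nat_lit 22, nat_lit 81, nat_lit 100, nat_lit 60, nat_lit 82011817⟩]⟩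
noncomputable def p118_l141 : Lf2 := ⟨nat_lit 0, nat_lit 10, [nat_lit 0, nat_lit 5, nat_lit 5, nat_lit 20], false, nat_lit 0, nat_lit 80, nat_lit 0, nat_lit 300, ⟨nat_lit 431, nat_lit 569, nat_lit 0, nat_lit 7, nat_lit 311, nat_lit 569, nat_lit 34, nat_lit 0, nat_lit 0, nat_lit 0, nat_lit 0, nat_lit 0, nat_lit 41722833, nat_lit 25277167, nat_lit 0, nat_lit 3313561, true, true⟩,
 nat_lit 5079, nat_lit 0, nat_lit 0, nat_lit 0, nat_lit 3507, nat_lit 3232, nat_lit 540, nat_lit 0, nat_lit 0, nat_lit 247, nat_lit 0, nat_lit 0, nat_lit 0, nat_lit 0, nat_lit 0, nat_lit 142250, nat_lit 0, nat_lit 0, [(nat_lit 24, [(nat_lit 0, nat_lit 569)])],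
 ⟨p118_k34, nat_lit 0, nat_lit 0, nat_lit 391, nat_lit 0, nat_lit 766966, [nat_lit 838538801, nat_lit 2192478800, nat_lit 2991014400], [], [nat_lit 24961637253, nat_lit 25839792350, nat_lit 33026952783, nat_lit 33626014084, nat_lit 23535490119, nat_lit 24033082715, nat_lit 30279662787, nat_lit 30856793350], nat_lit 1271250, nat_lit 1271250, nat_lit 1271250, nat_lit 1271250, nat_lit 0, nat_lit 490000, [nat_lit 230000, nat_lit 780000, nat_lit 1100000], [nat_lit 35, nat_lit 40, nat_lit 40, nat_lit 80, nat_lit 22, nat_lit 226, nat_lit 20, nat_lit 9]⟩, ⟨p118_k38, nat_lit 0, nat_lit 0, nat_lit 717, nat_lit 0, nat_lit 1162302, [nat_lit 1414542000, nat_lit 2693750000, nat_lit 4241902000], [], [nat_lit 16337600867, nat_lit 16661513703, nat_lit 17484781362, nat_lit 17658835500, nat_lit 14725184740, nat_lit 14884480297, nat_lit 15421928836, nat_lit 15514728434], nat_lit 1271250, nat_lit 1271250, nat_lit 1271250, nat_lit 1271250,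 nat_lit 0, nat_lit 2118750, [nat_lit 780000, nat_lit 1435000, nat_lit 1271250], [nat_lit 8, nat_lit 40, nat_lit 40, nat_lit 80, nat_lit 1, nat_lit 401, nat_lit 175, nat_lit 11]⟩,
 ⟨nat_lit 2236, nat_lit 2739, ⟨.ofNat (nat_lit 648684), .ofNat (nat_lit 867256), .ofNat (nat_lit 693478), .ofNat (nat_lit 912091), .ofNat (nat_lit 648065), .ofNat (nat_lit 859069), .ofNat (nat_lit 693574), .ofNat (nat_lit 904617)⟩, ⟨.ofNat (nat_lit 0), .ofNat (nat_lit 143475), .ofNat (nat_lit 0), .ofNat (nat_lit 188310), .ofNat (nat_lit 0), .ofNat (nat_lit 146758), .ofNat (nat_lit 0), .ofNat (nat_lit 192306)⟩⟩, [⟨nat_lit 22, nat_lit 82, nat_lit 100, nat_lit 60, nat_lit 85512306⟩]⟩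
noncomputable def p118_l142 : Lf2 := ⟨nat_lit 0, nat_lit 10, [nat_lit 0, nat_lit 5, nat_lit 5, nat_lit 20], false, nat_lit 80, nat_lit 200, nat_lit 0, nat_lit 300, ⟨nat_lit 373, nat_lit 627, nat_lit 0, nat_lit 7, nat_lit 314, nat_lit 627, nat_lit 102, nat_lit 0, nat_lit 0, nat_lit 0, nat_lit 0, nat_lit 0, nat_lit 38659310, nat_lit 24287249, nat_lit 4053441, nat_lit 4516337, true, true⟩,
 nat_lit 4268, nat_lit 0, nat_lit 0, nat_lit 0, nat_lit 3717, nat_lit 2716, nat_lit 122, nat_lit 0, nat_lit 0, nat_lit 231, nat_lit 0, nat_lit 0, nat_lit 0, nat_lit 0, nat_lit 0, nat_lit 361200, nat_lit 0, nat_lit 0, [(nat_lit 24, [(nat_lit 1, nat_lit 443), (nat_lit 2, nat_lit 184)])],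
 ⟨p118_k32, nat_lit 0, nat_lit 0, nat_lit 338, nat_lit 0, nat_lit 758426, [nat_lit 995650000, nat_lit 1579009467, nat_lit 1786642400], [], [nat_lit 24194643994, nat_lit 24649631072, nat_lit 30351298659, nat_lit 30936319121, nat_lit 25432300271, nat_lit 25844000204, nat_lit 30567977052, nat_lit 31073375793], nat_lit 1271250, nat_lit 1271250, nat_lit 1271250, nat_lit 1271250, nat_lit 490000, nat_lit 1427500, [nat_lit 230000, nat_lit 780000, nat_lit 1100000], [nat_lit 35, nat_lit 40, nat_lit 40, nat_lit 80, nat_lit 22, nat_lit 260, nat_lit 50, nat_lit 10]⟩, ⟨p118_k38, nat_lit 0, nat_lit 0, nat_lit 685, nat_lit 0, nat_lit 1102900, [nat_lit 1224186000, nat_lit 2331250000, nat_lit 3671066000], [], [nat_lit 13582102511, nat_lit 13964246943, nat_lit 14976858124, nat_lit 15202413654, nat_lit 12450044256, nat_lit 12656835491, nat_lit 13359132134, nat_lit 13495376596], nat_lit 1271250, nat_lit 1271250, nat_lit 1271250, nat_lit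 1271250, nat_lit 0, nat_lit 2118750, [nat_lit 780000, nat_lit 1435000, nat_lit 1271250], [nat_lit 8, nat_lit 40, nat_lit 40, nat_lit 80, nat_lit 1, nat_lit 401, nat_lit 175, nat_lit 11]⟩,
 ⟨nat_lit 2738, nat_lit 3163, ⟨.ofNat (nat_lit 649542), .ofNat (nat_lit 881194), .ofNat (nat_lit 693828), .ofNat (nat_lit 925504), .ofNat (nat_lit 648700), .ofNat (nat_lit 873162), .ofNat (nat_lit 693511), .ofNat (nat_lit 917997)⟩, ⟨.ofNat (nat_lit 139899), .ofNat (nat_lit 322759), .ofNat (nat_lit 184209), .ofNat (nat_lit 367069), .ofNat (nat_lit 143475), .ofNat (nat_lit 320659), .ofNat (nat_lit 188310), .ofNat (nat_lit 365494)⟩⟩, [⟨nat_lit 4, nat_lit 100, nat_lit 57, nat_lit 73, nat_lit 173991136⟩, ⟨nat_lit 7, nat_lit 100, nat_lit 90, nat_lit 74, nat_lit 58565458⟩]⟩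
noncomputable def p118_l143 : Lf2 := ⟨nat_lit 0, nat_lit 10, [nat_lit 0, nat_lit 5, nat_lit 5, nat_lit 20], false, nat_lit 80, nat_lit 184, nat_lit 0, nat_lit 300, ⟨nat_lit 303, nat_lit 697, nat_lit 0, nat_lit 7, nat_lit 311, nat_lit 697, nat_lit 97, nat_lit 0, nat_lit 0, nat_lit 0, nat_lit 0, nat_lit 0, nat_lit 39076726, nat_lit 24102863, nat_lit 3820411, nat_lit 4461148, true, true⟩,
 nat_lit 3617, nat_lit 0, nat_lit 0, nat_lit 0, nat_lit 3263, nat_lit 2301, nat_lit 283, nat_lit 0, nat_lit 0, nat_lit 173, nat_lit 0, nat_lit 0, nat_lit 0, nat_lit 0, nat_lit 0, nat_lit 174250, nat_lit 0, nat_lit 0, [(nat_lit 24, [(nat_lit 0, nat_lit 697)])],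
 ⟨p118_k34, nat_lit 0, nat_lit 0, nat_lit 342, nat_lit 0, nat_lit 766966, [nat_lit 816164401, nat_lit 1947384401, nat_lit 2609267200], [], [nat_lit 24201208313, nat_lit 24687961046, nat_lit 29806915007, nat_lit 30366546841, nat_lit 25443317303, nat_lit 25894595308, nat_lit 30093412471, nat_lit 30516707197], nat_lit 1271250, nat_lit 1271250, nat_lit 1271250, nat_lit 1271250, nat_lit 490000, nat_lit 1302500, [nat_lit 230000, nat_lit 780000, nat_lit 1100000], [nat_lit 35, nat_lit 40, nat_lit 40, nat_lit 80, nat_lit 22, nat_lit 260, nat_lit 50, nat_lit 10]⟩, ⟨p118_k38, nat_lit 0, nat_lit 0, nat_lit 717, nat_lit 0, nat_lit 1162302, [nat_lit 994446000, nat_lit 1893750000, nat_lit 2982126000], [], [nat_lit 11346895421, nat_lit 11574613829, nat_lit 12153121262, nat_lit 12468185505, nat_lit 10182158765, nat_lit 10293409026, nat_lit 10669092364, nat_lit 10732739279], nat_lit 1271250, nat_lit 1271250, nat_lit 1271250, nat_lit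 1271250, nat_lit 0, nat_lit 2118750, [nat_lit 780000, nat_lit 1435000, nat_lit 1271250], [nat_lit 8, nat_lit 40, nat_lit 40, nat_lit 80, nat_lit 1, nat_lit 401, nat_lit 175, nat_lit 11]⟩,
 ⟨nat_lit 2236, nat_lit 2739, ⟨.ofNat (nat_lit 648684), .ofNat (nat_lit 867256), .ofNat (nat_lit 693478), .ofNat (nat_lit 912091), .ofNat (nat_lit 648065), .ofNat (nat_lit 859069), .ofNat (nat_lit 693574), .ofNat (nat_lit 904617)⟩, ⟨.ofNat (nat_lit 143475), .ofNat (nat_lit 297035), .ofNat (nat_lit 188310), .ofNat (nat_lit 341870), .ofNat (nat_lit 146758), .ofNat (nat_lit 294998), .ofNat (nat_lit 192306), .ofNat (nat_lit 340547)⟩⟩, [⟨nat_lit 4, nat_lit 100, nat_lit 50, nat_lit 74, nat_lit 173599701⟩, ⟨nat_lit 19, nat_lit 90, nat_lit 100, nat_lit 74, nat_lit 39290676⟩]⟩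
noncomputable def p118_l144 : Lf2 := ⟨nat_lit 0, nat_lit 10, [nat_lit 0, nat_lit 5, nat_lit 5, nat_lit 20], false, nat_lit 0, nat_lit 80, nat_lit 0, nat_lit 300, ⟨nat_lit 268, nat_lit 732, nat_lit 0, nat_lit 7, nat_lit 307, nat_lit 732, nat_lit 34, nat_lit 0, nat_lit 0, nat_lit 0, nat_lit 0, nat_lit 0, nat_lit 42115674, nat_lit 24884326, nat_lit 0, nat_lit 3298502, true, true⟩,
 nat_lit 3204, nat_lit 0, nat_lit 0, nat_lit 0, nat_lit 2993, nat_lit 2038, nat_lit 103, nat_lit 0, nat_lit 0, nat_lit 152, nat_lit 0, nat_lit 0, nat_lit 0, nat_lit 0, nat_lit 0, nat_lit 292800, nat_lit 0, nat_lit 0, [(nat_lit 27, [(nat_lit 1, nat_lit 732)])],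
 ⟨p118_k36, nat_lit 0, nat_lit 0, nat_lit 353, nat_lit 0, nat_lit 775140, [nat_lit 762027200, nat_lit 1117036800], [], [nat_lit 25262725081, nat_lit 25785568356, nat_lit 31583269219, nat_lit 32157104216, nat_lit 25099198239, nat_lit 25588204305, nat_lit 29791444571, nat_lit 30187619673], nat_lit 1271250, nat_lit 1271250, nat_lit 1271250, nat_lit 1271250, nat_lit 0, nat_lit 490000, [nat_lit 230000, nat_lit 780000], [nat_lit 66, nat_lit 40, nat_lit 40, nat_lit 80, nat_lit 67, nat_lit 226, nat_lit 20, nat_lit 11]⟩, ⟨p118_k38, nat_lit 0, nat_lit 0, nat_lit 740, nat_lit 0, nat_lit 1222980, [nat_lit 879576000, nat_lit 1675000000, nat_lit 2637656000], [], [nat_lit 10028878176, nat_lit 10230292712, nat_lit 10688432760, nat_lit 10800927704, nat_lit 8995664454, nat_lit 9090777708, nat_lit 9381676629, nat_lit 9441993900], nat_lit 1271250, nat_lit 1271250, nat_lit 1271250, nat_lit 1271250, nat_lit 0, nat_lit 2118750, [nat_lit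 780000, nat_lit 1435000, nat_lit 1271250], [nat_lit 8, nat_lit 40, nat_lit 40, nat_lit 80, nat_lit 1, nat_lit 401, nat_lit 175, nat_lit 11]⟩,
 ⟨nat_lit 1581, nat_lit 2237, ⟨.ofNat (nat_lit 648016), .ofNat (nat_lit 847666), .ofNat (nat_lit 693473), .ofNat (nat_lit 893214), .ofNat (nat_lit 647799), .ofNat (nat_lit 839120), .ofNat (nat_lit 694338), .ofNat (nat_lit 885750)⟩, ⟨.ofNat (nat_lit 0), .ofNat (nat_lit 146758), .ofNat (nat_lit 0), .ofNat (nat_lit 192306), .ofNat (nat_lit 0), .ofNat (nat_lit 149571), .ofNat (nat_lit 0), .ofNat (nat_lit 196201)⟩⟩, [⟨nat_lit 22, nat_lit 84, nat_lit 100, nat_lit 60, nat_lit 51151490⟩]⟩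
noncomputable def p118_l145 : Lf2 := ⟨nat_lit 0, nat_lit 10, [nat_lit 0, nat_lit 5, nat_lit 5, nat_lit 20], false, nat_lit 8, nat_lit 80, nat_lit 0, nat_lit 300, ⟨nat_lit 238, nat_lit 762, nat_lit 0, nat_lit 7, nat_lit 301, nat_lit 762, nat_lit 39, nat_lit 0, nat_lit 0, nat_lit 0, nat_lit 0, nat_lit 0, nat_lit 42025200, nat_lit 23979499, nat_lit 995301, nat_lit 3707051, true, true⟩,
 nat_lit 2916, nat_lit 0, nat_lit 0, nat_lit 0, nat_lit 2819, nat_lit 1855, nat_lit 55, nat_lit 0, nat_lit 0, nat_lit 134, nat_lit 0, nat_lit 0, nat_lit 0, nat_lit 0, nat_lit 0, nat_lit 304800, nat_lit 0, nat_lit 0, [(nat_lit 27, [(nat_lit 1, nat_lit 762)])],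
 ⟨p118_k39, nat_lit 0, nat_lit 0, nat_lit 350, nat_lit 0, nat_lit 782905, [nat_lit 754815200, nat_lit 1028308800], [], [nat_lit 26401267420, nat_lit 26907683290, nat_lit 30546827764, nat_lit 31130262088, nat_lit 26299544890, nat_lit 26776621168, nat_lit 30228214382, nat_lit 30611334312], nat_lit 1271250, nat_lit 1271250, nat_lit 1271250, nat_lit 1271250, nat_lit 43600, nat_lit 490000, [nat_lit 230000, nat_lit 780000], [nat_lit 66, nat_lit 40, nat_lit 40, nat_lit 80, nat_lit 67, nat_lit 226, nat_lit 20, nat_lit 11]⟩, ⟨p118_k38, nat_lit 0, nat_lit 0, nat_lit 763, nat_lit 0, nat_lit 1284832, [nat_lit 781116000, nat_lit 1487500000, nat_lit 2342396000], [], [nat_lit 8689106466, nat_lit 8867978390, nat_lit 9178516747, nat_lit 9286479349, nat_lit 7722771033, nat_lit 7805449104, nat_lit 7993115653, nat_lit 8051831797], nat_lit 1271250, nat_lit 1271250, nat_lit 1271250, nat_lit 1271250, nat_lit 0, nat_lit 2118750, [nat_lit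 780000, nat_lit 1435000, nat_lit 1271250], [nat_lit 8, nat_lit 40, nat_lit 40, nat_lit 80, nat_lit 1, nat_lit 401, nat_lit 175, nat_lit 11]⟩,
 ⟨nat_lit 0, nat_lit 1582, ⟨.ofNat (nat_lit 646579), .ofNat (nat_lit 817262), .ofNat (nat_lit 691895), .ofNat (nat_lit 863894), .ofNat (nat_lit 648683), .ofNat (nat_lit 804996), .ofNat (nat_lit 697369), .ofNat (nat_lit 854998)⟩, ⟨.ofNat (nat_lit 20000), .ofNat (nat_lit 149570), .ofNat (nat_lit 20000), .ofNat (nat_lit 196201), .ofNat (nat_lit 20000), .ofNat (nat_lit 149998), .ofNat (nat_lit 20000), .ofNat (nat_lit 199999)⟩⟩, [⟨nat_lit 7, nat_lit 100, nat_lit 90, nat_lit 74, nat_lit 328715⟩, ⟨nat_lit 22, nat_lit 87, nat_lit 100, nat_lit 63, nat_lit 40333007⟩]⟩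
noncomputable def p118_l146 : Lf2 := ⟨nat_lit 0, nat_lit 10, [nat_lit 0, nat_lit 5, nat_lit 5, nat_lit 20], false, nat_lit 80, nat_lit 164, nat_lit 0, nat_lit 300, ⟨nat_lit 265, nat_lit 735, nat_lit 0, nat_lit 7, nat_lit 306, nat_lit 735, nat_lit 91, nat_lit 0, nat_lit 0, nat_lit 0, nat_lit 0, nat_lit 0, nat_lit 39776510, nat_lit 23708951, nat_lit 3514539, nat_lit 4379950, true, true⟩,
 nat_lit 3188, nat_lit 0, nat_lit 0, nat_lit 0, nat_lit 2978, nat_lit 2028, nat_lit 90, nat_lit 0, nat_lit 0, nat_lit 134, nat_lit 0, nat_lit 0, nat_lit 0, nat_lit 0, nat_lit 0, nat_lit 294000, nat_lit 0, nat_lit 0, [(nat_lit 27, [(nat_lit 1, nat_lit 735)])],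
 ⟨p118_k36, nat_lit 0, nat_lit 0, nat_lit 318, nat_lit 0, nat_lit 814343, [nat_lit 761306001, nat_lit 1108164000], [], [nat_lit 24700424658, nat_lit 25705621886, nat_lit 29506200588, nat_lit 30455608072, nat_lit 25668341243, nat_lit 26581439046, nat_lit 30054271044, nat_lit 30805415554], nat_lit 1271250, nat_lit 1271250, nat_lit 1271250, nat_lit 1271250, nat_lit 490000, nat_lit 1133651, [nat_lit 230000, nat_lit 780000], [nat_lit 66, nat_lit 40, nat_lit 40, nat_lit 80, nat_lit 67, nat_lit 260, nat_lit 50, nat_lit 13]⟩, ⟨p118_k38, nat_lit 0, nat_lit 0, nat_lit 763, nat_lit 0, nat_lit 1284832, [nat_lit 869730000, nat_lit 1656250000, nat_lit 2608130000], [], [nat_lit 9957441230, nat_lit 10156602202, nat_lit 10609416336, nat_lit 10720198874, nat_lit 8921944921, nat_lit 9015485819, nat_lit 9226189977, nat_lit 9258874463], nat_lit 1271250, nat_lit 1271250, nat_lit 1271250, nat_lit 1271250, nat_lit 0, nat_lit 2118750, [nat_lit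 780000, nat_lit 1435000, nat_lit 1271250], [nat_lit 8, nat_lit 40, nat_lit 40, nat_lit 80, nat_lit 1, nat_lit 401, nat_lit 175, nat_lit 11]⟩,
 ⟨nat_lit 0, nat_lit 2237, ⟨.ofNat (nat_lit 646249), .ofNat (nat_lit 847661), .ofNat (nat_lit 689944), .ofNat (nat_lit 893212), .ofNat (nat_lit 648136), .ofNat (nat_lit 824994), .ofNat (nat_lit 696283), .ofNat (nat_lit 874997)⟩, ⟨.ofNat (nat_lit 146756), .ofNat (nat_lit 266484), .ofNat (nat_lit 192306), .ofNat (nat_lit 312035), .ofNat (nat_lit 149997), .ofNat (nat_lit 254993), .ofNat (nat_lit 199999), .ofNat (nat_lit 304995)⟩⟩, [⟨nat_lit 13, nat_lit 36, nat_lit 77, nat_lit 100, nat_lit 7484054⟩, ⟨nat_lit 4, nat_lit 100, nat_lit 35, nat_lit 80, nat_lit 331186960⟩, ⟨nat_lit 7, nat_lit 100, nat_lit 90, nat_lit 74, nat_lit 35199955⟩]⟩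
noncomputable def p118_l147 : Lf2 := ⟨nat_lit 0, nat_lit 10, [nat_lit 0, nat_lit 5, nat_lit 5, nat_lit 20], false, nat_lit 0, nat_lit 200, nat_lit 0, nat_lit 160, ⟨nat_lit 716, nat_lit 284, nat_lit 0, nat_lit 7, nat_lit 287, nat_lit 284, nat_lit 69, nat_lit 0, nat_lit 0, nat_lit 0, nat_lit 0, nat_lit 0, nat_lit 0, nat_lit 0, nat_lit 0, nat_lit 5000000, false, false⟩,
 nat_lit 0, nat_lit 4928, nat_lit 0, nat_lit 0, nat_lit 4292, nat_lit 4556, nat_lit 136, nat_lit 0, nat_lit 0, nat_lit 790, nat_lit 0, nat_lit 0, nat_lit 0, nat_lit 0, nat_lit 0, nat_lit 284000, nat_lit 0, nat_lit 0, [(nat_lit 24, [(nat_lit 2, nat_lit 284)])],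
 ⟨p118_k32, nat_lit 0, nat_lit 0, nat_lit 651, nat_lit 0, nat_lit 1440297, [nat_lit 1088520000, nat_lit 2215636800, nat_lit 2762707200], [], [nat_lit 31515441481, nat_lit 32207342615, nat_lit 35845635076, nat_lit 36330710908, nat_lit 31370703840, nat_lit 31936432998, nat_lit 34964233303, nat_lit 35389613398], nat_lit 1271250, nat_lit 1271250, nat_lit 1033601, nat_lit 3070600, nat_lit 0, nat_lit 1412500, [nat_lit 230000, nat_lit 780000, nat_lit 1100000], [nat_lit 35, nat_lit 40, nat_lit 40, nat_lit 80, nat_lit 22, nat_lit 373, nat_lit 150, nat_lit 17]⟩, ⟨p118_k38, nat_lit 0, nat_lit 0, nat_lit 216, nat_lit 0, nat_lit 0, [nat_lit 2349912000, nat_lit 4475000000, nat_lit 7046872000], [], [nat_lit 15491631579, nat_lit 17891859410, nat_lit 25602349793, nat_lit 27395940775, nat_lit 12917214737, nat_lit 14837912080, nat_lit 21702437092, nat_lit 22962624535], nat_lit 0, nat_lit 0, nat_lit 0, nat_lit 0, nat_lit 0, nat_lit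 0, [], [nat_lit 8, nat_lit 40, nat_lit 40, nat_lit 80, nat_lit 1, nat_lit 373, nat_lit 150, nat_lit 11]⟩,
 ⟨nat_lit 2236, nat_lit 3163, ⟨.ofNat (nat_lit 515097), .ofNat (nat_lit 881194), .ofNat (nat_lit 559279), .ofNat (nat_lit 925504), .ofNat (nat_lit 522299), .ofNat (nat_lit 864770), .ofNat (nat_lit 567721), .ofNat (nat_lit 910319)⟩, ⟨.ofNat (nat_lit 0), .ofNat (nat_lit 322759), .ofNat (nat_lit 0), .ofNat (nat_lit 367069), .ofNat (nat_lit 0), .ofNat (nat_lit 317804), .ofNat (nat_lit 0), .ofNat (nat_lit 363353)⟩⟩, [⟨nat_lit 4, nat_lit 100, nat_lit 54, nat_lit 73, nat_lit 272234948⟩]⟩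
noncomputable def p118_l148 : Lf2 := ⟨nat_lit 0, nat_lit 10, [nat_lit 0, nat_lit 5, nat_lit 5, nat_lit 20], false, nat_lit 0, nat_lit 164, nat_lit 0, nat_lit 160, ⟨nat_lit 1000, nat_lit 0, nat_lit 0, nat_lit 0, nat_lit 0, nat_lit 0, nat_lit 0, nat_lit 0, nat_lit 0, nat_lit 0, nat_lit 0, nat_lit 0, nat_lit 0, nat_lit 0, nat_lit 0, nat_lit 0, false, false⟩,
 nat_lit 0, nat_lit 4114, nat_lit 0, nat_lit 0, nat_lit 3843, nat_lit 6157, nat_lit 178, nat_lit 0, nat_lit 0, nat_lit 1022, nat_lit 0, nat_lit 0, nat_lit 0, nat_lit 0, nat_lit 0, nat_lit 0, nat_lit 0, nat_lit 0, [],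
 ⟨p118_k36, nat_lit 0, nat_lit 0, nat_lit 578, nat_lit 0, nat_lit 1450315, [nat_lit 938000000, nat_lit 3282000000], [], [nat_lit 29504921398, nat_lit 30455610786, nat_lit 34752860652, nat_lit 35439711488, nat_lit 30018311899, nat_lit 30821883325, nat_lit 34457322704, nat_lit 35045718169], nat_lit 1271250, nat_lit 1271250, nat_lit 1271250, nat_lit 1271250, nat_lit 0, nat_lit 1133651, [nat_lit 230000, nat_lit 780000], [nat_lit 66, nat_lit 40, nat_lit 40, nat_lit 80, nat_lit 67, nat_lit 263, nat_lit 50, nat_lit 14]⟩, ⟨p118_k38, nat_lit 0, nat_lit 0, nat_lit 212, nat_lit 0, nat_lit 0, [nat_lit 3282000000, nat_lit 6250000000, nat_lit 9842000000], [], [nat_lit 23128612963, nat_lit 26179941014, nat_lit 34387329258, nat_lit 36507728514, nat_lit 19619355263, nat_lit 22067573542, nat_lit 29469956704, nat_lit 31292090588], nat_lit 0, nat_lit 0, nat_lit 0, nat_lit 0, nat_lit 0, nat_lit 0, [], [nat_lit 8, nat_lit 40, nat_lit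 40, nat_lit 80, nat_lit 1, nat_lit 373, nat_lit 150, nat_lit 10]⟩,
 zbF0, [⟨nat_lit 0, nat_lit 88, nat_lit 32, nat_lit 100, nat_lit 24130505⟩, ⟨nat_lit 4, nat_lit 100, nat_lit 35, nat_lit 80, nat_lit 575960600⟩]⟩
noncomputable def p118_l149 : Lf2 := ⟨nat_lit 0, nat_lit 10, [nat_lit 0, nat_lit 5, nat_lit 5, nat_lit 20], false, nat_lit 0, nat_lit 200, nat_lit 160, nat_lit 300, ⟨nat_lit 707, nat_lit 293, nat_lit 0, nat_lit 7, nat_lit 278, nat_lit 293, nat_lit 67, nat_lit 0, nat_lit 0, nat_lit 0, nat_lit 0, nat_lit 0, nat_lit 0, nat_lit 0, nat_lit 0, nat_lit 5000000, false, false⟩,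
 nat_lit 0, nat_lit 4877, nat_lit 0, nat_lit 0, nat_lit 4247, nat_lit 3269, nat_lit 143, nat_lit 0, nat_lit 0, nat_lit 0, nat_lit 0, nat_lit 0, nat_lit 0, nat_lit 0, nat_lit 0, nat_lit 293000, nat_lit 0, nat_lit 0, [(nat_lit 24, [(nat_lit 2, nat_lit 293)]), (nat_lit 27, [(nat_lit 2, nat_lit 293)])],
 ⟨p118_k32, nat_lit 0, nat_lit 0, nat_lit 669, nat_lit 0, nat_lit 1476622, [nat_lit 1093290000, nat_lit 2181843600, nat_lit 2701694400], [], [nat_lit 31947505317, nat_lit 33294920800, nat_lit 36017974321, nat_lit 36976720273, nat_lit 31880921011, nat_lit 33018172593, nat_lit 35439460000, nat_lit 36501947679], nat_lit 1271250, nat_lit 1271250, nat_lit 1033601, nat_lit 3002700, nat_lit 0, nat_lit 1412500, [nat_lit 230000, nat_lit 780000, nat_lit 1100000], [nat_lit 35, nat_lit 40, nat_lit 40, nat_lit 80, nat_lit 22, nat_lit 373, nat_lit 150, nat_lit 17]⟩, ⟨p118_k38, nat_lit 0, nat_lit 0, nat_lit 78, nat_lit 0, nat_lit 0,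 [nat_lit 2320374000, nat_lit 4418750000, nat_lit 6958294000], [], [nat_lit 9802306607, nat_lit 10965272979, nat_lit 18834323693, nat_lit 19478176668, nat_lit 14765330628, nat_lit 15614323166, nat_lit 21386447329, nat_lit 21907411337], nat_lit 0, nat_lit 0, nat_lit 0, nat_lit 0, nat_lit 0, nat_lit 0, [], [nat_lit 8, nat_lit 40, nat_lit 40, nat_lit 80, nat_lit 1, nat_lit 401, nat_lit 175, nat_lit 11]⟩,
 ⟨nat_lit 0, nat_lit 3163, ⟨.ofNat (nat_lit 507176), .ofNat (nat_lit 869001), .ofNat (nat_lit 528026), .ofNat (nat_lit 891156), .ofNat (nat_lit 531701), .ofNat (nat_lit 829996), .ofNat (nat_lit 555396), .ofNat (nat_lit 854997)⟩, ⟨.ofNat (nat_lit 0), .ofNat (nat_lit 322753), .ofNat (nat_lit 0), .ofNat (nat_lit 367065), .ofNat (nat_lit 0), .ofNat (nat_lit 299993), .ofNat (nat_lit 0), .ofNat (nat_lit 349995)⟩⟩, [⟨nat_lit 0, nat_lit 89, nat_lit 44, nat_lit 100, nat_lit 103194579⟩, ⟨nat_lit 4, nat_lit 100, nat_lit 46, nat_lit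 75, nat_lit 349429990⟩, ⟨nat_lit 19, nat_lit 100, nat_lit 95, nat_lit 87, nat_lit 238517227⟩, ⟨nat_lit 7, nat_lit 100, nat_lit 94, nat_lit 75, nat_lit 51656877⟩]⟩
noncomputable def p118_l150 : Lf2 := ⟨nat_lit 0, nat_lit 10, [nat_lit 0, nat_lit 5, nat_lit 5, nat_lit 20], false, nat_lit 0, nat_lit 200, nat_lit 160, nat_lit 280, ⟨nat_lit 706, nat_lit 294, nat_lit 0, nat_lit 7, nat_lit 299, nat_lit 294, nat_lit 69, nat_lit 0, nat_lit 0, nat_lit 0, nat_lit 0, nat_lit 0, nat_lit 0, nat_lit 0, nat_lit 0, nat_lit 5000000, true, false⟩,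
 nat_lit 0, nat_lit 4933, nat_lit 0, nat_lit 0, nat_lit 4296, nat_lit 4296, nat_lit 128, nat_lit 0, nat_lit 0, nat_lit 1098, nat_lit 0, nat_lit 0, nat_lit 0, nat_lit 0, nat_lit 0, nat_lit 294000, nat_lit 0, nat_lit 0, [(nat_lit 24, [(nat_lit 2, nat_lit 294)])],
 ⟨p118_k32, nat_lit 0, nat_lit 0, nat_lit 646, nat_lit 0, nat_lit 1440297, [nat_lit 1093820000, nat_lit 2178088800, nat_lit 2694915200], [], [nat_lit 31348206714, nat_lit 32019062541, nat_lit 35510245088, nat_lit 36327176746, nat_lit 31131557917, nat_lit 31685887540, nat_lit 34756140170, nat_lit 35295583863], nat_lit 1271250, nat_lit 1271250, nat_lit 1236400, nat_lit 3118301, nat_lit 0, nat_lit 1412500, [nat_lit 230000, nat_lit 780000, nat_lit 1100000], [nat_lit 35, nat_lit 40, nat_lit 40, nat_lit 80, nat_lit 22, nat_lit 283, nat_lit 50, nat_lit 12]⟩, ⟨p118_k35, nat_lit 0, nat_lit 0, nat_lit 86, nat_lit 0, nat_lit 0, [nat_lit 2317092000, nat_lit 4412500000,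 nat_lit 5625408000], [], [nat_lit 11928230192, nat_lit 12930307311, nat_lit 21029061960, nat_lit 21790423583, nat_lit 15159130494, nat_lit 16020475063, nat_lit 22835447064, nat_lit 23416370048], nat_lit 0, nat_lit 0, nat_lit 0, nat_lit 0, nat_lit 0, nat_lit 0, [], [nat_lit 18, nat_lit 40, nat_lit 40, nat_lit 80, nat_lit 2, nat_lit 401, nat_lit 175, nat_lit 12]⟩,
 ⟨nat_lit 2236, nat_lit 3163, ⟨.ofNat (nat_lit 573823), .ofNat (nat_lit 903349), .ofNat (nat_lit 595914), .ofNat (nat_lit 925504), .ofNat (nat_lit 579282), .ofNat (nat_lit 887545), .ofNat (nat_lit 601993), .ofNat (nat_lit 910319)⟩, ⟨.ofNat (nat_lit 0), .ofNat (nat_lit 322759), .ofNat (nat_lit 0), .ofNat (nat_lit 367069), .ofNat (nat_lit 0), .ofNat (nat_lit 317804), .ofNat (nat_lit 0), .ofNat (nat_lit 363353)⟩⟩, [⟨nat_lit 16, nat_lit 54, nat_lit 100, nat_lit 73, nat_lit 254370345⟩, ⟨nat_lit 7, nat_lit 100, nat_lit 85, nat_lit 73, nat_lit 369491967⟩]⟩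
noncomputable def p118_l151 : Lf2 := ⟨nat_lit 0, nat_lit 10, [nat_lit 0, nat_lit 5, nat_lit 5, nat_lit 20], false, nat_lit 0, nat_lit 164, nat_lit 160, nat_lit 280, ⟨nat_lit 1000, nat_lit 0, nat_lit 0, nat_lit 0, nat_lit 0, nat_lit 0, nat_lit 0, nat_lit 0, nat_lit 0, nat_lit 0, nat_lit 0, nat_lit 0, nat_lit 0, nat_lit 0, nat_lit 0, nat_lit 0, false, false⟩,
 nat_lit 0, nat_lit 3945, nat_lit 0, nat_lit 0, nat_lit 3686, nat_lit 5220, nat_lit 574, nat_lit 0, nat_lit 0, nat_lit 0, nat_lit 0, nat_lit 0, nat_lit 0, nat_lit 0, nat_lit 0, nat_lit 0, nat_lit 0, nat_lit 0, [],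
 ⟨p118_k36, nat_lit 0, nat_lit 0, nat_lit 578, nat_lit 0, nat_lit 1450315, [nat_lit 938000000, nat_lit 3282000000], [], [nat_lit 29205576758, nat_lit 30112044079, nat_lit 34206885154, nat_lit 34937036928, nat_lit 29737014647, nat_lit 30511398629, nat_lit 34069826737, nat_lit 34695758036], nat_lit 1271250, nat_lit 1271250, nat_lit 1271250, nat_lit 1271250, nat_lit 0, nat_lit 1133651, [nat_lit 230000, nat_lit 780000], [nat_lit 66, nat_lit 40, nat_lit 40, nat_lit 80, nat_lit 67, nat_lit 263, nat_lit 50, nat_lit 14]⟩, ⟨p118_k35, nat_lit 0, nat_lit 0, nat_lit 81, nat_lit 0, nat_lit 0, [nat_lit 3282000000, nat_lit 6250000000, nat_lit 7968000000], [], [nat_lit 16939394057, nat_lit 18509444088, nat_lit 27841078380, nat_lit 28899708680, nat_lit 21956576858, nat_lit 23292997348, nat_lit 30651768320, nat_lit 31471381860], nat_lit 0, nat_lit 0, nat_lit 0, nat_lit 0, nat_lit 0, nat_lit 0, [], [nat_lit 18, nat_lit 40, nat_lit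 40, nat_lit 80, nat_lit 2, nat_lit 401, nat_lit 175, nat_lit 12]⟩,
 zbF0, [⟨nat_lit 0, nat_lit 87, nat_lit 32, nat_lit 100, nat_lit 69041999⟩, ⟨nat_lit 16, nat_lit 35, nat_lit 100, nat_lit 80, nat_lit 500372480⟩, ⟨nat_lit 19, nat_lit 94, nat_lit 100, nat_lit 87, nat_lit 405798112⟩]⟩
noncomputable def p118_l152 : Lf2 := ⟨nat_lit 0, nat_lit 10, [nat_lit 0, nat_lit 5, nat_lit 5, nat_lit 20], false, nat_lit 0, nat_lit 200, nat_lit 0, nat_lit 300, ⟨nat_lit 335, nat_lit 665, nat_lit 0, nat_lit 7, nat_lit 285, nat_lit 665, nat_lit 67, nat_lit 0, nat_lit 0, nat_lit 0, nat_lit 0, nat_lit 0, nat_lit 0, nat_lit 0, nat_lit 0, nat_lit 5000000, false, false⟩,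
 nat_lit 4000, nat_lit 0, nat_lit 0, nat_lit 0, nat_lit 3483, nat_lit 2545, nat_lit 143, nat_lit 0, nat_lit 0, nat_lit 201, nat_lit 0, nat_lit 0, nat_lit 0, nat_lit 0, nat_lit 0, nat_lit 300200, nat_lit 0, nat_lit 0, [(nat_lit 24, [(nat_lit 1, nat_lit 608), (nat_lit 2, nat_lit 57)]), (nat_lit 27, [(nat_lit 1, nat_lit 608), (nat_lit 2, nat_lit 57)])],
 ⟨p118_k32, nat_lit 0, nat_lit 0, nat_lit 434, nat_lit 0, nat_lit 883534, [nat_lit 913490000, nat_lit 1678899067, nat_lit 2031556800], [], [nat_lit 26694570235, nat_lit 28462104313, nat_lit 32651678414, nat_lit 34976627574, nat_lit 27466587508, nat_lit 28971310158, nat_lit 32372254232, nat_lit 33450043695], nat_lit 1271250, nat_lit 1271250, nat_lit 1033601, nat_lit 3070600, nat_lit 0, nat_lit 1412500, [nat_lit 230000, nat_lit 780000, nat_lit 1100000], [nat_lit 35, nat_lit 40, nat_lit 40, nat_lit 80, nat_lit 22, nat_lit 373, nat_lit 150, nat_lit 17]⟩, ⟨p118_k38, nat_lit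 0, nat_lit 0, nat_lit 789, nat_lit 0, nat_lit 1284832, [nat_lit 1099470000, nat_lit 2093750000, nat_lit 3297070000], [], [nat_lit 12423968517, nat_lit 12736308850, nat_lit 13421698612, nat_lit 13940756153, nat_lit 12481474854, nat_lit 11495315958, nat_lit 11813864028, nat_lit 11897409678], nat_lit 1271250, nat_lit 1271250, nat_lit 1271250, nat_lit 1271250, nat_lit 0, nat_lit 2118750, [nat_lit 780000, nat_lit 1435000, nat_lit 1271250], [nat_lit 8, nat_lit 40, nat_lit 40, nat_lit 80, nat_lit 1, nat_lit 401, nat_lit 175, nat_lit 11]⟩,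
 ⟨nat_lit 0, nat_lit 3163, ⟨.ofNat (nat_lit 507176), .ofNat (nat_lit 881191), .ofNat (nat_lit 548877), .ofNat (nat_lit 925502), .ofNat (nat_lit 531701), .ofNat (nat_lit 839996), .ofNat (nat_lit 579091), .ofNat (nat_lit 889997)⟩, ⟨.ofNat (nat_lit 0), .ofNat (nat_lit 322753), .ofNat (nat_lit 0), .ofNat (nat_lit 367065), .ofNat (nat_lit 0), .ofNat (nat_lit 299993), .ofNat (nat_lit 0), .ofNat (nat_lit 349995)⟩⟩, [⟨nat_lit 13, nat_lit 50, nat_lit 65, nat_lit 100, nat_lit 76990566⟩, ⟨nat_lit 4, nat_lit 100, nat_lit 46, nat_lit 75, nat_lit 172137061⟩, ⟨nat_lit 7, nat_lit 100, nat_lit 90, nat_lit 74, nat_lit 39849385⟩]⟩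
noncomputable def b_V_900_700_10_1 : St := ⟨true, nat_lit 1, nat_lit 2, nat_lit 0, nat_lit 80, nat_lit 360, nat_lit 400, nat_lit 280, nat_lit 320, nat_lit 152, nat_lit 392, nat_lit 40, nat_lit 80, nat_lit 0, nat_lit 200, nat_lit 0, nat_lit 300, nat_lit 0, nat_lit 40, nat_lit 0, nat_lit 0, nat_lit 0, nat_lit 0⟩
theorem d_V_900_700_10_1 (h : EB TB.env) : Dead b_V_900_700_10_1 := chkB_sound0 h (T :=
(.gv
(.st (nat_lit 1)
(.spl (nat_lit 5) (nat_lit 160)
(.spl (nat_lit 0) (nat_lit 380)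
(.leaf p118_l132)
(.trZ (nat_lit 0) (nat_lit 92) (nat_lit 44) (nat_lit 100) (nat_lit 192) (.trX (nat_lit 13) (nat_lit 54) (nat_lit 57) (nat_lit 100) (nat_lit 380) (.trX (nat_lit 16) (nat_lit 44) (nat_lit 100) (nat_lit 82) (nat_lit 164) (.leaf p118_l133)))))
(.spl (nat_lit 2) (nat_lit 240)
(.leaf p118_l134)
(.spl (nat_lit 0) (nat_lit 380)
(.leaf p118_l135)
(.trX (nat_lit 13) (nat_lit 54) (nat_lit 57) (nat_lit 100) (nat_lit 380) (.trX (nat_lit 16) (nat_lit 44) (nat_lit 100) (nat_lit 82) (nat_lit 164) (.leaf p118_l136))))))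
(.spl (nat_lit 2) (nat_lit 240)
(.spl (nat_lit 0) (nat_lit 380)
(.spl (nat_lit 2) (nat_lit 200)
(.leaf p118_l137)
(.leaf p118_l138))
(.trZ (nat_lit 0) (nat_lit 92) (nat_lit 44) (nat_lit 100) (nat_lit 192) (.trX (nat_lit 16) (nat_lit 44) (nat_lit 100) (nat_lit 82) (nat_lit 164) (.leaf p118_l139))))
(.spl (nat_lit 0) (nat_lit 380)
(.spl (nat_lit 4) (nat_lit 80)
(.spl (nat_lit 0) (nat_lit 370)
(.leaf p118_l140)
(.trX (nat_lit 13) (nat_lit 66) (nat_lit 45) (nat_lit 100) (nat_lit 388) (.leaf p118_l141)))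
(.spl (nat_lit 0) (nat_lit 370)
(.leaf p118_l142)
(.trX (nat_lit 13) (nat_lit 66) (nat_lit 45) (nat_lit 100) (nat_lit 388) (.trX (nat_lit 16) (nat_lit 53) (nat_lit 100) (nat_lit 80) (nat_lit 184) (.leaf p118_l143)))))
(.trX (nat_lit 13) (nat_lit 54) (nat_lit 57) (nat_lit 100) (nat_lit 380) (.trX (nat_lit 16) (nat_lit 44) (nat_lit 100) (nat_lit 82) (nat_lit 164) (.spl (nat_lit 4) (nat_lit 80)
(.spl (nat_lit 0) (nat_lit 390)
(.leaf p118_l144)
(.trX (nat_lit 13) (nat_lit 39) (nat_lit 72) (nat_lit 100) (nat_lit 364) (.trZ (nat_lit 3) (nat_lit 100) (nat_lit 52) (nat_lit 53) (nat_lit 8) (.leaf p118_l145))))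
(.leaf p118_l146)))))))
(.st (nat_lit 1)
(.spl (nat_lit 5) (nat_lit 160)
(.spl (nat_lit 0) (nat_lit 380)
(.leaf p118_l147)
(.trZ (nat_lit 0) (nat_lit 92) (nat_lit 44) (nat_lit 100) (nat_lit 192) (.trX (nat_lit 13) (nat_lit 54) (nat_lit 57) (nat_lit 100) (nat_lit 380) (.trX (nat_lit 16) (nat_lit 44) (nat_lit 100) (nat_lit 82) (nat_lit 164) (.leaf p118_l148)))))
(.spl (nat_lit 1) (nat_lit 300)
(.trX (nat_lit 13) (nat_lit 69) (nat_lit 45) (nat_lit 100) (nat_lit 384) (.leaf p118_l149))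
(.trZ (nat_lit 0) (nat_lit 87) (nat_lit 60) (nat_lit 100) (nat_lit 176) (.trX (nat_lit 19) (nat_lit 94) (nat_lit 100) (nat_lit 87) (nat_lit 280) (.spl (nat_lit 0) (nat_lit 380)
(.leaf p118_l150)
(.trZ (nat_lit 0) (nat_lit 87) (nat_lit 44) (nat_lit 100) (nat_lit 212) (.trX (nat_lit 13) (nat_lit 54) (nat_lit 57) (nat_lit 100) (nat_lit 380) (.trX (nat_lit 16) (nat_lit 44) (nat_lit 100) (nat_lit 82) (nat_lit 164) (.leaf p118_l151)))))))))
(.leaf p118_l152)))) (by decide +kernel)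
noncomputable def p118_l153 : Lf2 := ⟨nat_lit 0, nat_lit 20, [nat_lit 5, nat_lit 5, nat_lit 5, nat_lit 20], false, nat_lit 0, nat_lit 80, nat_lit 0, nat_lit 300, ⟨nat_lit 13, nat_lit 331, nat_lit 656, nat_lit 7, nat_lit 236, nat_lit 987, nat_lit 34, nat_lit 656, nat_lit 10417, nat_lit 240, nat_lit 47136, nat_lit 200, nat_lit 49749454, nat_lit 17250546, nat_lit 0, nat_lit 2851973, false, false⟩,
 nat_lit 0, nat_lit 0, nat_lit 196, nat_lit 0, nat_lit 2482, nat_lit 124, nat_lit 0, nat_lit 0, nat_lit 0, nat_lit 0, nat_lit 0, nat_lit 0, nat_lit 0, nat_lit 0, nat_lit 22, nat_lit 246750, nat_lit 0, nat_lit 0, [(nat_lit 25, [(nat_lit 0, nat_lit 331), (nat_lit 4, nat_lit 656)]), (nat_lit 28, [(nat_lit 0, nat_lit 331), (nat_lit 4, nat_lit 656)])],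
 ⟨p118_k40, nat_lit 0, nat_lit 0, nat_lit 166, nat_lit 0, nat_lit 0, [nat_lit 866385201, nat_lit 305914801, nat_lit 2148000], [], [nat_lit 19912032754, nat_lit 22849092447, nat_lit 22072089618, nat_lit 25029715744, nat_lit 19456409284, nat_lit 21709345053, nat_lit 21598508277, nat_lit 23814131501], nat_lit 0, nat_lit 0, nat_lit 0, nat_lit 0, nat_lit 0, nat_lit 0, [], [nat_lit 55, nat_lit 40, nat_lit 40, nat_lit 80, nat_lit 3, nat_lit 317, nat_lit 100, nat_lit 12]⟩, ⟨p118_k41, nat_lit 0, nat_lit 0, nat_lit 1151, nat_lit 0, nat_lit 1899565, [nat_lit 42666000, nat_lit 103584000, nat_lit 154336000], [], [nat_lit 576688806, nat_lit 576443050, nat_lit 556865592, nat_lit 556338943, nat_lit 473704530, nat_lit 472760442, nat_lit 559873108, nat_lit 533015111], nat_lit 1271250, nat_lit 1271250, nat_lit 1033601, nat_lit 1780500, nat_lit 0, nat_lit 2118750, [nat_lit 780000, nat_lit 1762500, nat_lit 1271250], [nat_lit 79, nat_lit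 40, nat_lit 40, nat_lit 80, nat_lit 14, nat_lit 456, nat_lit 225, nat_lit 12]⟩,
 ⟨nat_lit 0, nat_lit 3163, ⟨.ofNat (nat_lit 507176), .ofNat (nat_lit 646918), .ofNat (nat_lit 517602), .ofNat (nat_lit 657344), .ofNat (nat_lit 531701), .ofNat (nat_lit 647345), .ofNat (nat_lit 543549), .ofNat (nat_lit 659193)⟩, ⟨.ofNat (nat_lit 0), .ofNat (nat_lit 139898), .ofNat (nat_lit 0), .ofNat (nat_lit 184209), .ofNat (nat_lit 0), .ofNat (nat_lit 149998), .ofNat (nat_lit 0), .ofNat (nat_lit 199999)⟩⟩, [⟨nat_lit 3, nat_lit 100, nat_lit 61, nat_lit 47, nat_lit 136553418⟩, ⟨nat_lit 10, nat_lit 87, nat_lit 100, nat_lit 48, nat_lit 5172391⟩]⟩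
noncomputable def p118_l154 : Lf2 := ⟨nat_lit 0, nat_lit 20, [nat_lit 5, nat_lit 5, nat_lit 5, nat_lit 20], true, nat_lit 0, nat_lit 80, nat_lit 0, nat_lit 292, ⟨nat_lit 0, nat_lit 347, nat_lit 653, nat_lit 7, nat_lit 243, nat_lit 1000, nat_lit 34, nat_lit 653, nat_lit 10417, nat_lit 240, nat_lit 70830, nat_lit 200, nat_lit 48886876, nat_lit 18113124, nat_lit 0, nat_lit 2918008, true, false⟩,
 nat_lit 0, nat_lit 0, nat_lit 0, nat_lit 0, nat_lit 2465, nat_lit 0, nat_lit 0, nat_lit 0, nat_lit 0, nat_lit 0, nat_lit 0, nat_lit 0, nat_lit 0, nat_lit 0, nat_lit 24, nat_lit 250000, nat_lit 0, nat_lit 0, [(nat_lit 25, [(nat_lit 0, nat_lit 347), (nat_lit 4, nat_lit 653)]), (nat_lit 28, [(nat_lit 0, nat_lit 347), (nat_lit 4, nat_lit 653)])],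
 ⟨p118_k40, nat_lit 0, nat_lit 0, nat_lit 164, nat_lit 0, nat_lit 0, [nat_lit 872376000, nat_lit 307506801, nat_lit 366000], [], [nat_lit 20082344489, nat_lit 22986856404, nat_lit 22031416580, nat_lit 24987151280, nat_lit 19635813252, nat_lit 21919399323, nat_lit 21594381441, nat_lit 23803851821], nat_lit 0, nat_lit 0, nat_lit 0, nat_lit 0, nat_lit 0, nat_lit 0, [], [nat_lit 55, nat_lit 40, nat_lit 40, nat_lit 80, nat_lit 3, nat_lit 317, nat_lit 100, nat_lit 12]⟩, C1.Rw.none,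
 ⟨nat_lit 0, nat_lit 3163, ⟨.ofNat (nat_lit 536657), .ofNat (nat_lit 657344), .ofNat (nat_lit 547083), .ofNat (nat_lit 667768), .ofNat (nat_lit 559318), .ofNat (nat_lit 659193), .ofNat (nat_lit 571166), .ofNat (nat_lit 671040)⟩, ⟨.ofNat (nat_lit 0), .ofNat (nat_lit 139898), .ofNat (nat_lit 0), .ofNat (nat_lit 184209), .ofNat (nat_lit 0), .ofNat (nat_lit 149998), .ofNat (nat_lit 0), .ofNat (nat_lit 199999)⟩⟩, [⟨nat_lit 3, nat_lit 100, nat_lit 61, nat_lit 47, nat_lit 142321357⟩]⟩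
noncomputable def p118_l155 : Lf2 := ⟨nat_lit 0, nat_lit 20, [nat_lit 5, nat_lit 5, nat_lit 5, nat_lit 20], false, nat_lit 0, nat_lit 80, nat_lit 0, nat_lit 280, ⟨nat_lit 66, nat_lit 450, nat_lit 484, nat_lit 7, nat_lit 251, nat_lit 934, nat_lit 34, nat_lit 483, nat_lit 10417, nat_lit 240, nat_lit 94526, nat_lit 200, nat_lit 48026586, nat_lit 18973414, nat_lit 0, nat_lit 2979682, true, false⟩,
 nat_lit 0, nat_lit 0, nat_lit 811, nat_lit 0, nat_lit 2703, nat_lit 561, nat_lit 0, nat_lit 0, nat_lit 0, nat_lit 7, nat_lit 0, nat_lit 0, nat_lit 0, nat_lit 0, nat_lit 0, nat_lit 233500, nat_lit 0, nat_lit 0, [(nat_lit 25, [(nat_lit 0, nat_lit 450), (nat_lit 4, nat_lit 484)]), (nat_lit 28, [(nat_lit 0, nat_lit 450), (nat_lit 4, nat_lit 484)])],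
 ⟨p118_k42, nat_lit 0, nat_lit 0, nat_lit 153, nat_lit 0, nat_lit 0, [nat_lit 782242400, nat_lit 657428534, nat_lit 465360000], [], [nat_lit 21305399250, nat_lit 23979699765, nat_lit 23040509864, nat_lit 25583053776, nat_lit 20800472293, nat_lit 23070168976, nat_lit 22471899546, nat_lit 24529607722], nat_lit 0, nat_lit 0, nat_lit 0, nat_lit 0, nat_lit 0, nat_lit 0, [], [nat_lit 20, nat_lit 40, nat_lit 40, nat_lit 80, nat_lit 16, nat_lit 317, nat_lit 100, nat_lit 11]⟩, ⟨p118_k43, nat_lit 0, nat_lit 0, nat_lit 1017, nat_lit 0, nat_lit 1791285, [nat_lit 216612000, nat_lit 412500000, nat_lit 649572000], [], [nat_lit 2245581233, nat_lit 2266112156, nat_lit 2268579500, nat_lit 2286046235, nat_lit 1962957597, nat_lit 1974439442, nat_lit 2092914510, nat_lit 1969095920], nat_lit 1271250, nat_lit 1271250, nat_lit 1236400, nat_lit 1794000, nat_lit 0, nat_lit 1977500, [nat_lit 780000, nat_lit 1435000, nat_lit 1271250], [nat_lit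 8, nat_lit 40, nat_lit 40, nat_lit 80, nat_lit 1, nat_lit 373, nat_lit 150, nat_lit 10]⟩,
 ⟨nat_lit 0, nat_lit 3163, ⟨.ofNat (nat_lit 566138), .ofNat (nat_lit 667768), .ofNat (nat_lit 576563), .ofNat (nat_lit 678193), .ofNat (nat_lit 586935), .ofNat (nat_lit 671040), .ofNat (nat_lit 598783), .ofNat (nat_lit 682888)⟩, ⟨.ofNat (nat_lit 0), .ofNat (nat_lit 139898), .ofNat (nat_lit 0), .ofNat (nat_lit 184209), .ofNat (nat_lit 0), .ofNat (nat_lit 149998), .ofNat (nat_lit 0), .ofNat (nat_lit 199999)⟩⟩, [⟨nat_lit 0, nat_lit 86, nat_lit 44, nat_lit 100, nat_lit 53199108⟩, ⟨nat_lit 3, nat_lit 100, nat_lit 61, nat_lit 47, nat_lit 92400968⟩, ⟨nat_lit 10, nat_lit 92, nat_lit 100, nat_lit 44, nat_lit 13272876⟩]⟩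
noncomputable def p118_l156 : Lf2 := ⟨nat_lit 0, nat_lit 20, [nat_lit 5, nat_lit 5, nat_lit 5, nat_lit 20], false, nat_lit 0, nat_lit 80, nat_lit 0, nat_lit 268, ⟨nat_lit 175, nat_lit 553, nat_lit 272, nat_lit 7, nat_lit 258, nat_lit 825, nat_lit 34, nat_lit 272, nat_lit 10417, nat_lit 240, nat_lit 118222, nat_lit 200, nat_lit 47294892, nat_lit 19705108, nat_lit 0, nat_lit 3028936, true, false⟩,
 nat_lit 0, nat_lit 0, nat_lit 1700, nat_lit 0, nat_lit 2892, nat_lit 1225, nat_lit 0, nat_lit 0, nat_lit 0, nat_lit 116, nat_lit 0, nat_lit 0, nat_lit 0, nat_lit 0, nat_lit 0, nat_lit 330000, nat_lit 0, nat_lit 0, [(nat_lit 25, [(nat_lit 1, nat_lit 553), (nat_lit 5, nat_lit 272)]), (nat_lit 28, [(nat_lit 1, nat_lit 553), (nat_lit 5, nat_lit 272)])],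
 ⟨p118_k42, nat_lit 0, nat_lit 0, nat_lit 152, nat_lit 0, nat_lit 0, [nat_lit 828905201, nat_lit 934140401, nat_lit 766882800], [], [nat_lit 21891772967, nat_lit 24624072477, nat_lit 23445616163, nat_lit 26056270464, nat_lit 21256515002, nat_lit 23566505645, nat_lit 22751814771, nat_lit 24867090835], nat_lit 0, nat_lit 0, nat_lit 0, nat_lit 0, nat_lit 0, nat_lit 0, [], [nat_lit 20, nat_lit 40, nat_lit 40, nat_lit 80, nat_lit 16, nat_lit 317, nat_lit 100, nat_lit 11]⟩, ⟨p118_k44, nat_lit 0, nat_lit 0, nat_lit 994, nat_lit 0, nat_lit 1748068, [nat_lit 574350000, nat_lit 1093750000, nat_lit 1722350000], [], [nat_lit 4987948860, nat_lit 5016652081, nat_lit 5010820800, nat_lit 5036952700, nat_lit 4529715951, nat_lit 4550706688, nat_lit 4528990420, nat_lit 4551234845], nat_lit 1271250, nat_lit 1271250, nat_lit 1271250, nat_lit 1271250, nat_lit 0, nat_lit 1892750, [nat_lit 780000, nat_lit 1435000, nat_lit 1271250], [nat_lit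 8, nat_lit 40, nat_lit 40, nat_lit 80, nat_lit 1, nat_lit 373, nat_lit 150, nat_lit 10]⟩,
 ⟨nat_lit 0, nat_lit 3163, ⟨.ofNat (nat_lit 589267), .ofNat (nat_lit 678193), .ofNat (nat_lit 599692), .ofNat (nat_lit 688618), .ofNat (nat_lit 609296), .ofNat (nat_lit 682888), .ofNat (nat_lit 621144), .ofNat (nat_lit 694736)⟩, ⟨.ofNat (nat_lit 0), .ofNat (nat_lit 139898), .ofNat (nat_lit 0), .ofNat (nat_lit 184209), .ofNat (nat_lit 0), .ofNat (nat_lit 149998), .ofNat (nat_lit 0), .ofNat (nat_lit 199999)⟩⟩, [⟨nat_lit 0, nat_lit 83, nat_lit 44, nat_lit 100, nat_lit 280837937⟩, ⟨nat_lit 3, nat_lit 100, nat_lit 61, nat_lit 47, nat_lit 17753381⟩, ⟨nat_lit 7, nat_lit 100, nat_lit 83, nat_lit 73, nat_lit 34994687⟩]⟩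
noncomputable def p118_l157 : Lf2 := ⟨nat_lit 0, nat_lit 20, [nat_lit 5, nat_lit 5, nat_lit 5, nat_lit 20], true, nat_lit 80, nat_lit 200, nat_lit 0, nat_lit 300, ⟨nat_lit 0, nat_lit 1000, nat_lit 0, nat_lit 7, nat_lit 242, nat_lit 1000, nat_lit 102, nat_lit 0, nat_lit 0, nat_lit 0, nat_lit 0, nat_lit 0, nat_lit 45187688, nat_lit 17360012, nat_lit 4452300, nat_lit 4218699, false, false⟩,
 nat_lit 0, nat_lit 0, nat_lit 0, nat_lit 0, nat_lit 3861, nat_lit 0, nat_lit 0, nat_lit 0, nat_lit 0, nat_lit 0, nat_lit 0, nat_lit 0, nat_lit 0, nat_lit 0, nat_lit 0, nat_lit 250000, nat_lit 0, nat_lit 0, [(nat_lit 25, [(nat_lit 0, nat_lit 1000)])],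
 ⟨p118_k40, nat_lit 0, nat_lit 0, nat_lit 76, nat_lit 0, nat_lit 0, [nat_lit 764000001, nat_lit 1715600001, nat_lit 2118000000], [], [nat_lit 19392331523, nat_lit 21242141992, nat_lit 21972219320, nat_lit 23730862728, nat_lit 21225169836, nat_lit 22725088086, nat_lit 23375948787, nat_lit 24859693620], nat_lit 0, nat_lit 0, nat_lit 0, nat_lit 0, nat_lit 0, nat_lit 0, [], [nat_lit 55, nat_lit 40, nat_lit 40, nat_lit 80, nat_lit 3, nat_lit 345, nat_lit 125, nat_lit 12]⟩, C1.Rw.none,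
 ⟨nat_lit 2236, nat_lit 3163, ⟨.ofNat (nat_lit 515097), .ofNat (nat_lit 649422), .ofNat (nat_lit 559279), .ofNat (nat_lit 693606), .ofNat (nat_lit 522299), .ofNat (nat_lit 647962), .ofNat (nat_lit 567721), .ofNat (nat_lit 693384)⟩, ⟨.ofNat (nat_lit 139899), .ofNat (nat_lit 322759), .ofNat (nat_lit 184209), .ofNat (nat_lit 367069), .ofNat (nat_lit 146758), .ofNat (nat_lit 317804), .ofNat (nat_lit 192306), .ofNat (nat_lit 363353)⟩⟩, [⟨nat_lit 16, nat_lit 60, nat_lit 100, nat_lit 80, nat_lit 53930315⟩]⟩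
noncomputable def p118_l158 : Lf2 := ⟨nat_lit 0, nat_lit 20, [nat_lit 5, nat_lit 5, nat_lit 5, nat_lit 20], true, nat_lit 80, nat_lit 164, nat_lit 0, nat_lit 300, ⟨nat_lit 0, nat_lit 1000, nat_lit 0, nat_lit 7, nat_lit 255, nat_lit 1000, nat_lit 91, nat_lit 0, nat_lit 0, nat_lit 0, nat_lit 0, nat_lit 0, nat_lit 44547334, nat_lit 18698136, nat_lit 3754530, nat_lit 4165662, true, false⟩,
 nat_lit 0, nat_lit 0, nat_lit 0, nat_lit 0, nat_lit 4189, nat_lit 0, nat_lit 0, nat_lit 0, nat_lit 0, nat_lit 0, nat_lit 0, nat_lit 0, nat_lit 0, nat_lit 0, nat_lit 0, nat_lit 250000, nat_lit 0, nat_lit 0, [(nat_lit 28, [(nat_lit 0, nat_lit 1000)])],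
 ⟨p118_k45, nat_lit 0, nat_lit 0, nat_lit 105, nat_lit 0, nat_lit 0, [nat_lit 781600001, nat_lit 1560400000, nat_lit 1560400000], [], [nat_lit 22671164015, nat_lit 24514394580, nat_lit 24121657672, nat_lit 25962736664, nat_lit 23036367623, nat_lit 24589839436, nat_lit 24274819531, nat_lit 25923032080], nat_lit 0, nat_lit 0, nat_lit 0, nat_lit 0, nat_lit 0, nat_lit 0, [], [nat_lit 55, nat_lit 40, nat_lit 40, nat_lit 80, nat_lit 3, nat_lit 345, nat_lit 125, nat_lit 12]⟩, C1.Rw.none,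
 ⟨nat_lit 0, nat_lit 2237, ⟨.ofNat (nat_lit 575619), .ofNat (nat_lit 646249), .ofNat (nat_lit 619314), .ofNat (nat_lit 689944), .ofNat (nat_lit 585925), .ofNat (nat_lit 648136), .ofNat (nat_lit 634072), .ofNat (nat_lit 696283)⟩, ⟨.ofNat (nat_lit 146756), .ofNat (nat_lit 266484), .ofNat (nat_lit 192306), .ofNat (nat_lit 312035), .ofNat (nat_lit 149997), .ofNat (nat_lit 254993), .ofNat (nat_lit 199999), .ofNat (nat_lit 304995)⟩⟩, [⟨nat_lit 0, nat_lit 92, nat_lit 44, nat_lit 100, nat_lit 697287⟩, ⟨nat_lit 16, nat_lit 44, nat_lit 100, nat_lit 82, nat_lit 69031276⟩]⟩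
noncomputable def b_V_900_700_10_2 : St := ⟨true, nat_lit 0, nat_lit 1, nat_lit 1, nat_lit 80, nat_lit 360, nat_lit 400, nat_lit 280, nat_lit 320, nat_lit 152, nat_lit 240, nat_lit 40, nat_lit 80, nat_lit 0, nat_lit 200, nat_lit 0, nat_lit 300, nat_lit 40, nat_lit 80, nat_lit 0, nat_lit 0, nat_lit 0, nat_lit 0⟩
theorem d_V_900_700_10_2 (h : EB TB.env) : Dead b_V_900_700_10_2 := chkB_sound0 h (T :=
(.spl (nat_lit 4) (nat_lit 80)
(.spl (nat_lit 1) (nat_lit 300)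
(.spl (nat_lit 1) (nat_lit 290)
(.leaf p118_l153)
(.trZ (nat_lit 0) (nat_lit 91) (nat_lit 61) (nat_lit 100) (nat_lit 164) (.trX (nat_lit 19) (nat_lit 100) (nat_lit 100) (nat_lit 89) (nat_lit 292) (.leaf p118_l154))))
(.trZ (nat_lit 0) (nat_lit 87) (nat_lit 60) (nat_lit 100) (nat_lit 176) (.trX (nat_lit 19) (nat_lit 94) (nat_lit 100) (nat_lit 87) (nat_lit 280) (.spl (nat_lit 1) (nat_lit 310)
(.leaf p118_l155)
(.trZ (nat_lit 0) (nat_lit 84) (nat_lit 60) (nat_lit 100) (nat_lit 184) (.trX (nat_lit 19) (nat_lit 89) (nat_lit 100) (nat_lit 85) (nat_lit 268) (.leaf p118_l156)))))))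
(.spl (nat_lit 0) (nat_lit 380)
(.leaf p118_l157)
(.trZ (nat_lit 0) (nat_lit 92) (nat_lit 44) (nat_lit 100) (nat_lit 192) (.trX (nat_lit 16) (nat_lit 44) (nat_lit 100) (nat_lit 82) (nat_lit 164) (.leaf p118_l158)))))) (by decide +kernel)

end B2
end Pool.Agent.Lib.MP_6947cd_al
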