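import Pool.Agent.Lib.MP_6947cd_al.ZB.Pre

/-!
Problem MP_6947cd_al (Chollet).  Case B, second entry in [2/5, 17/20]: certificates of the tree, part P119 (generated).
-/

set_option autoImplicit false
set_option linter.all false

namespace Pool.Agent.Lib.MP_6947cd_al
namespace B2

open Ent Fr B1 PkA

noncomputable def p119_k0 : C1.Kn := ⟨[nat_lit 20, nat_lit 60, nat_lit 100], [nat_lit 0, nat_lit 0, nat_lit 2559], [(nat_lit 0, nat_lit 0, nat_lit 0), (nat_lit 0, nat_lit 0, nat_lit 0), (nat_lit 1000, nat_lit 600, nat_lit 787)], (nat_lit 60, nat_lit 100, nat_lit 80)⟩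
noncomputable def p119_k1 : C1.Kn := ⟨[nat_lit 60, nat_lit 100, nat_lit 160], [nat_lit 0, nat_lit 0, nat_lit 3069], [(nat_lit 0, nat_lit 0, nat_lit 0), (nat_lit 0, nat_lit 0, nat_lit 0), (nat_lit 1000, nat_lit 999, nat_lit 798)], (nat_lit 100, nat_lit 95, nat_lit 87)⟩
noncomputable def p119_k2 : C1.Kn := ⟨[nat_lit 20, nat_lit 60, nat_lit 100], [nat_lit 0, nat_lit 698, nat_lit 3028], [(nat_lit 0, nat_lit 0, nat_lit 0), (nat_lit 1000, nat_lit 782, nat_lit 272), (nat_lit 1000, nat_lit 527, nat_lit 841)], (nat_lit 53, nat_lit 100, nat_lit 80)⟩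
noncomputable def p119_k3 : C1.Kn := ⟨[nat_lit 20, nat_lit 60, nat_lit 100], [nat_lit 0, nat_lit 0, nat_lit 2559], [(nat_lit 0, nat_lit 0, nat_lit 0), (nat_lit 0, nat_lit 0, nat_lit 0), (nat_lit 1000, nat_lit 600, nat_lit 787)], (nat_lit 61, nat_lit 100, nat_lit 72)⟩
noncomputable def p119_k4 : C1.Kn := ⟨[nat_lit 60, nat_lit 100, nat_lit 140], [nat_lit 0, nat_lit 0, nat_lit 2047], [(nat_lit 0, nat_lit 0, nat_lit 0), (nat_lit 0, nat_lit 0, nat_lit 0), (nat_lit 1000, nat_lit 993, nat_lit 781)], (nat_lit 99, nat_lit 100, nat_lit 77)⟩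
noncomputable def p119_k5 : C1.Kn := ⟨[nat_lit 20, nat_lit 60, nat_lit 80], [nat_lit 0, nat_lit 698, nat_lit 2008], [(nat_lit 0, nat_lit 0, nat_lit 0), (nat_lit 1000, nat_lit 782, nat_lit 272), (nat_lit 1000, nat_lit 540, nat_lit 733)], (nat_lit 54, nat_lit 100, nat_lit 73)⟩
noncomputable def p119_k6 : C1.Kn := ⟨[nat_lit 60, nat_lit 100, nat_lit 160], [nat_lit 0, nat_lit 151, nat_lit 3185], [(nat_lit 0, nat_lit 0, nat_lit 0), (nat_lit 1000, nat_lit 977, nat_lit 59), (nat_lit 1000, nat_lit 976, nat_lit 789)], (nat_lit 100, nat_lit 98, nat_lit 88)⟩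
noncomputable def p119_k7 : C1.Kn := ⟨[nat_lit 60, nat_lit 100, nat_lit 160], [nat_lit 0, nat_lit 302, nat_lit 3303], [(nat_lit 0, nat_lit 0, nat_lit 0), (nat_lit 1000, nat_lit 953, nat_lit 118), (nat_lit 1000, nat_lit 952, nat_lit 781)], (nat_lit 100, nat_lit 100, nat_lit 89)⟩
noncomputable def p119_k8 : C1.Kn := ⟨[nat_lit 60, nat_lit 100, nat_lit 140], [nat_lit 0, nat_lit 609, nat_lit 2558], [(nat_lit 0, nat_lit 0, nat_lit 0), (nat_lit 1000, nat_lit 905, nat_lit 238), (nat_lit 1000, nat_lit 904, nat_lit 760)], (nat_lit 90, nat_lit 100, nat_lit 74)⟩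
noncomputable def p119_k9 : C1.Kn := ⟨[nat_lit 60, nat_lit 100, nat_lit 140], [nat_lit 0, nat_lit 609, nat_lit 2558], [(nat_lit 0, nat_lit 0, nat_lit 0), (nat_lit 1000, nat_lit 905, nat_lit 238), (nat_lit 1000, nat_lit 904, nat_lit 760)], (nat_lit 94, nat_lit 100, nat_lit 87)⟩
noncomputable def p119_k10 : C1.Kn := ⟨[nat_lit 60, nat_lit 100, nat_lit 140], [nat_lit 0, nat_lit 909, nat_lit 2819], [(nat_lit 0, nat_lit 0, nat_lit 0), (nat_lit 1000, nat_lit 858, nat_lit 354), (nat_lit 1000, nat_lit 858, nat_lit 746)], (nat_lit 89, nat_lit 100, nat_lit 85)⟩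
noncomputable def p119_k11 : C1.Kn := ⟨[nat_lit 20, nat_lit 60, nat_lit 100], [nat_lit 0, nat_lit 1415, nat_lit 3591], [(nat_lit 0, nat_lit 0, nat_lit 0), (nat_lit 1000, nat_lit 558, nat_lit 551), (nat_lit 1000, nat_lit 439, nat_lit 849)], (nat_lit 44, nat_lit 100, nat_lit 82)⟩
noncomputable def p119_k12 : C1.Kn := ⟨[nat_lit 20, nat_lit 60, nat_lit 80], [nat_lit 0, nat_lit 2136, nat_lit 3185], [(nat_lit 0, nat_lit 0, nat_lit 0), (nat_lit 1000, nat_lit 343, nat_lit 808), (nat_lit 1000, nat_lit 338, nat_lit 820)], (nat_lit 33, nat_lit 100, nat_lit 84)⟩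
noncomputable def p119_k13 : C1.Kn := ⟨[nat_lit 20, nat_lit 40, nat_lit 100], [nat_lit 0, nat_lit 0, nat_lit 2396], [(nat_lit 0, nat_lit 0, nat_lit 0), (nat_lit 0, nat_lit 0, nat_lit 0), (nat_lit 1000, nat_lit 625, nat_lit 623)], (nat_lit 61, nat_lit 100, nat_lit 72)⟩
noncomputable def p119_k14 : C1.Kn := ⟨[nat_lit 60, nat_lit 80, nat_lit 140], [nat_lit 0, nat_lit 0, nat_lit 1595], [(nat_lit 0, nat_lit 0, nat_lit 0), (nat_lit 0, nat_lit 0, nat_lit 0), (nat_lit 1000, nat_lit 917, nat_lit 415)], (nat_lit 99, nat_lit 100, nat_lit 77)⟩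
noncomputable def p119_k15 : C1.Kn := ⟨[nat_lit 60, nat_lit 80, nat_lit 140], [nat_lit 0, nat_lit 151, nat_lit 1731], [(nat_lit 0, nat_lit 0, nat_lit 0), (nat_lit 1000, nat_lit 953, nat_lit 118), (nat_lit 1000, nat_lit 894, nat_lit 411)], (nat_lit 94, nat_lit 100, nat_lit 75)⟩
noncomputable def p119_k16 : C1.Kn := ⟨[nat_lit 20, nat_lit 60, nat_lit 80], [nat_lit 0, nat_lit 1056, nat_lit 2244], [(nat_lit 0, nat_lit 0, nat_lit 0), (nat_lit 1000, nat_lit 671, nat_lit 411), (nat_lit 1000, nat_lit 495, nat_lit 771)], (nat_lit 50, nat_lit 100, nat_lit 74)⟩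
noncomputable def p119_k17 : C1.Kn := ⟨[nat_lit 20, nat_lit 40, nat_lit 100], [nat_lit 0, nat_lit 350, nat_lit 2695], [(nat_lit 0, nat_lit 0, nat_lit 0), (nat_lit 1000, nat_lit 782, nat_lit 272), (nat_lit 1000, nat_lit 579, nat_lit 610)], (nat_lit 53, nat_lit 100, nat_lit 80)⟩
noncomputable def p119_k18 : C1.Kn := ⟨[nat_lit 60, nat_lit 80, nat_lit 160], [nat_lit 0, nat_lit 0, nat_lit 2127], [(nat_lit 0, nat_lit 0, nat_lit 0), (nat_lit 0, nat_lit 0, nat_lit 0), (nat_lit 1000, nat_lit 917, nat_lit 415)], (nat_lit 100, nat_lit 95, nat_lit 87)⟩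
noncomputable def p119_k19 : C1.Kn := ⟨[nat_lit 20, nat_lit 40, nat_lit 100], [nat_lit 0, nat_lit 0, nat_lit 2396], [(nat_lit 0, nat_lit 0, nat_lit 0), (nat_lit 0, nat_lit 0, nat_lit 0), (nat_lit 1000, nat_lit 625, nat_lit 623)], (nat_lit 60, nat_lit 100, nat_lit 80)⟩
noncomputable def p119_k20 : C1.Kn := ⟨[nat_lit 60, nat_lit 80, nat_lit 160], [nat_lit 0, nat_lit 151, nat_lit 2257], [(nat_lit 0, nat_lit 0, nat_lit 0), (nat_lit 1000, nat_lit 953, nat_lit 118), (nat_lit 1000, nat_lit 894, nat_lit 411)], (nat_lit 100, nat_lit 100, nat_lit 89)⟩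
noncomputable def p119_k21 : C1.Kn := ⟨[nat_lit 20, nat_lit 60, nat_lit 100], [nat_lit 0, nat_lit 1056, nat_lit 3301], [(nat_lit 0, nat_lit 0, nat_lit 0), (nat_lit 1000, nat_lit 671, nat_lit 411), (nat_lit 1000, nat_lit 484, nat_lit 867)], (nat_lit 49, nat_lit 100, nat_lit 81)⟩
noncomputable def p119_k22 : C1.Kn := ⟨[nat_lit 20, nat_lit 60, nat_lit 100], [nat_lit 0, nat_lit 339, nat_lit 2783], [(nat_lit 0, nat_lit 0, nat_lit 0), (nat_lit 1000, nat_lit 894, nat_lit 132), (nat_lit 1000, nat_lit 565, nat_lit 820)], (nat_lit 57, nat_lit 100, nat_lit 73)⟩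
noncomputable def p119_k23 : C1.Kn := ⟨[nat_lit 60, nat_lit 100, nat_lit 140], [nat_lit 0, nat_lit 302, nat_lit 2304], [(nat_lit 0, nat_lit 0, nat_lit 0), (nat_lit 1000, nat_lit 953, nat_lit 118), (nat_lit 1000, nat_lit 952, nat_lit 781)], (nat_lit 94, nat_lit 100, nat_lit 75)⟩
noncomputable def p119_k24 : C1.Kn := ⟨[nat_lit 20, nat_lit 60, nat_lit 80], [nat_lit 0, nat_lit 1415, nat_lit 2514], [(nat_lit 0, nat_lit 0, nat_lit 0), (nat_lit 1000, nat_lit 558, nat_lit 551), (nat_lit 1000, nat_lit 446, nat_lit 804)], (nat_lit 46, nat_lit 100, nat_lit 75)⟩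
noncomputable def p119_k25 : C1.Kn := ⟨[nat_lit 60, nat_lit 100, nat_lit 140], [nat_lit 0, nat_lit 909, nat_lit 2819], [(nat_lit 0, nat_lit 0, nat_lit 0), (nat_lit 1000, nat_lit 858, nat_lit 354), (nat_lit 1000, nat_lit 858, nat_lit 746)], (nat_lit 85, nat_lit 100, nat_lit 73)⟩
noncomputable def p119_k26 : C1.Kn := ⟨[nat_lit 60, nat_lit 80, nat_lit 140], [nat_lit 0, nat_lit 304, nat_lit 1867], [(nat_lit 0, nat_lit 0, nat_lit 0), (nat_lit 1000, nat_lit 905, nat_lit 238), (nat_lit 1000, nat_lit 871, nat_lit 407)], (nat_lit 94, nat_lit 100, nat_lit 87)⟩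
noncomputable def p119_k27 : C1.Kn := ⟨[nat_lit 20, nat_lit 60, nat_lit 80], [nat_lit 0, nat_lit 1776, nat_lit 2828], [(nat_lit 0, nat_lit 0, nat_lit 0), (nat_lit 1000, nat_lit 445, nat_lit 693), (nat_lit 1000, nat_lit 394, nat_lit 822)], (nat_lit 39, nat_lit 100, nat_lit 83)⟩
noncomputable def p119_k28 : C1.Kn := ⟨[nat_lit 20, nat_lit 80, nat_lit 100], [nat_lit 0, nat_lit 0, nat_lit 2559], [(nat_lit 0, nat_lit 0, nat_lit 0), (nat_lit 0, nat_lit 0, nat_lit 0), (nat_lit 1000, nat_lit 600, nat_lit 787)], (nat_lit 60, nat_lit 100, nat_lit 80)⟩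
noncomputable def p119_k29 : C1.Kn := ⟨[nat_lit 60, nat_lit 120, nat_lit 160], [nat_lit 0, nat_lit 0, nat_lit 3243], [(nat_lit 0, nat_lit 0, nat_lit 0), (nat_lit 0, nat_lit 0, nat_lit 0), (nat_lit 878, nat_lit 1000, nat_lit 945)], (nat_lit 100, nat_lit 95, nat_lit 87)⟩
noncomputable def p119_k30 : C1.Kn := ⟨[nat_lit 60, nat_lit 120, nat_lit 160], [nat_lit 0, nat_lit 453, nat_lit 3555], [(nat_lit 0, nat_lit 0, nat_lit 0), (nat_lit 1000, nat_lit 953, nat_lit 118), (nat_lit 904, nat_lit 1000, nat_lit 997)], (nat_lit 100, nat_lit 100, nat_lit 89)⟩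
noncomputable def p119_k31 : C1.Kn := ⟨[nat_lit 20, nat_lit 80, nat_lit 100], [nat_lit 0, nat_lit 2121, nat_lit 3610], [(nat_lit 0, nat_lit 0, nat_lit 0), (nat_lit 1000, nat_lit 558, nat_lit 551), (nat_lit 1000, nat_lit 436, nat_lit 895)], (nat_lit 44, nat_lit 100, nat_lit 82)⟩
noncomputable def p119_k32 : C1.Kn := ⟨[nat_lit 60, nat_lit 100, nat_lit 160], [nat_lit 0, nat_lit 455, nat_lit 3416], [(nat_lit 0, nat_lit 0, nat_lit 0), (nat_lit 1000, nat_lit 929, nat_lit 178), (nat_lit 1000, nat_lit 928, nat_lit 770)], (nat_lit 97, nat_lit 100, nat_lit 88)⟩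
noncomputable def p119_k33 : C1.Kn := ⟨[nat_lit 20, nat_lit 100], [nat_lit 0, nat_lit 0], [(nat_lit 0, nat_lit 0, nat_lit 0), (nat_lit 0, nat_lit 0, nat_lit 0)], (nat_lit 60, nat_lit 100, nat_lit 80)⟩
noncomputable def p119_k34 : C1.Kn := ⟨[nat_lit 60, nat_lit 160], [nat_lit 0, nat_lit 0], [(nat_lit 0, nat_lit 0, nat_lit 0), (nat_lit 0, nat_lit 0, nat_lit 0)], (nat_lit 100, nat_lit 95, nat_lit 87)⟩
noncomputable def p119_l0 : Lf2 := ⟨nat_lit 0, nat_lit 20, [nat_lit 5, nat_lit 5, nat_lit 5, nat_lit 20], false, nat_lit 0, nat_lit 80, nat_lit 0, nat_lit 300, ⟨nat_lit 110, nat_lit 890, nat_lit 0, nat_lit 7, nat_lit 276, nat_lit 890, nat_lit 33, nat_lit 0, nat_lit 0, nat_lit 0, nat_lit 0, nat_lit 0, nat_lit 45378380, nat_lit 21621620, nat_lit 0, nat_lit 3144478, true, false⟩,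
 nat_lit 0, nat_lit 0, nat_lit 1456, nat_lit 0, nat_lit 2873, nat_lit 926, nat_lit 0, nat_lit 0, nat_lit 0, nat_lit 71, nat_lit 0, nat_lit 0, nat_lit 0, nat_lit 0, nat_lit 0, nat_lit 474800, nat_lit 0, nat_lit 0, [(nat_lit 25, [(nat_lit 1, nat_lit 692), (nat_lit 2, nat_lit 198)])],
 ⟨p119_k0, nat_lit 0, nat_lit 0, nat_lit 142, nat_lit 0, nat_lit 0, [nat_lit 978524801, nat_lit 979071467, nat_lit 554726933], [], [nat_lit 23333065385, nat_lit 23905773951, nat_lit 24754742959, nat_lit 25351130800, nat_lit 22537366373, nat_lit 23077697013, nat_lit 23860897065, nat_lit 24364008797], nat_lit 0, nat_lit 0, nat_lit 0, nat_lit 0, nat_lit 0, nat_lit 0, [], [nat_lit 20, nat_lit 40, nat_lit 40, nat_lit 80, nat_lit 16, nat_lit 226, nat_lit 20, nat_lit 8]⟩, ⟨p119_k1, nat_lit 0, nat_lit 0, nat_lit 900, nat_lit 0, nat_lit 1468011, [nat_lit 361020000, nat_lit 687500000, nat_lit 1305920000], [], [nat_lit 3797379137, nat_lit 3820408101,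 nat_lit 3814395913, nat_lit 3834259352, nat_lit 3261215904, nat_lit 3276182482, nat_lit 3265397208, nat_lit 3276966037], nat_lit 1271250, nat_lit 1271250, nat_lit 1271250, nat_lit 1271250, nat_lit 0, nat_lit 2118750, [nat_lit 780000, nat_lit 1435000, nat_lit 1271250], [nat_lit 23, nat_lit 40, nat_lit 40, nat_lit 80, nat_lit 12, nat_lit 456, nat_lit 225, nat_lit 11]⟩,
 ⟨nat_lit 2738, nat_lit 3163, ⟨.ofNat (nat_lit 649542), .ofNat (nat_lit 710514), .ofNat (nat_lit 671685), .ofNat (nat_lit 732657), .ofNat (nat_lit 648700), .ofNat (nat_lit 707780), .ofNat (nat_lit 671105), .ofNat (nat_lit 730185)⟩, ⟨.ofNat (nat_lit 0), .ofNat (nat_lit 139899), .ofNat (nat_lit 0), .ofNat (nat_lit 184209), .ofNat (nat_lit 0), .ofNat (nat_lit 143475), .ofNat (nat_lit 0), .ofNat (nat_lit 188310)⟩⟩, [⟨nat_lit 22, nat_lit 100, nat_lit 99, nat_lit 63, nat_lit 16770501⟩]⟩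
noncomputable def p119_l1 : Lf2 := ⟨nat_lit 0, nat_lit 20, [nat_lit 5, nat_lit 5, nat_lit 5, nat_lit 20], false, nat_lit 0, nat_lit 80, nat_lit 0, nat_lit 300, ⟨nat_lit 79, nat_lit 921, nat_lit 0, nat_lit 7, nat_lit 275, nat_lit 921, nat_lit 34, nat_lit 0, nat_lit 0, nat_lit 0, nat_lit 0, nat_lit 0, nat_lit 45445101, nat_lit 21554899, nat_lit 0, nat_lit 3140776, true, false⟩,
 nat_lit 0, nat_lit 0, nat_lit 1058, nat_lit 0, nat_lit 2765, nat_lit 673, nat_lit 201, nat_lit 0, nat_lit 0, nat_lit 47, nat_lit 0, nat_lit 0, nat_lit 0, nat_lit 0, nat_lit 0, nat_lit 230250, nat_lit 0, nat_lit 0, [(nat_lit 25, [(nat_lit 0, nat_lit 921)])],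
 ⟨p119_k2, nat_lit 0, nat_lit 0, nat_lit 147, nat_lit 0, nat_lit 0, [nat_lit 777746001, nat_lit 1519942800, nat_lit 2444428000], [], [nat_lit 23995572027, nat_lit 24546289802, nat_lit 25309542352, nat_lit 25822393080, nat_lit 23354767332, nat_lit 23873915552, nat_lit 24610190832, nat_lit 25094407092], nat_lit 0, nat_lit 0, nat_lit 0, nat_lit 0, nat_lit 0, nat_lit 0, [], [nat_lit 20, nat_lit 40, nat_lit 40, nat_lit 80, nat_lit 16, nat_lit 226, nat_lit 20, nat_lit 7]⟩, ⟨p119_k1, nat_lit 0, nat_lit 0, nat_lit 988, nat_lit 0, nat_lit 1625384, [nat_lit 259278000, nat_lit 493750000, nat_lit 937888000], [], [nat_lit 2783511317, nat_lit 2792698933, nat_lit 2783489621, nat_lit 2790805908, nat_lit 2359805506, nat_lit 2364217438, nat_lit 2352183882, nat_lit 2382110028], nat_lit 1271250, nat_lit 1271250, nat_lit 1271250, nat_lit 1271250, nat_lit 0, nat_lit 2118750, [nat_lit 780000, nat_lit 1435000, nat_lit 1271250], [nat_lit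 23, nat_lit 40, nat_lit 40, nat_lit 80, nat_lit 12, nat_lit 456, nat_lit 225, nat_lit 11]⟩,
 ⟨nat_lit 2236, nat_lit 2739, ⟨.ofNat (nat_lit 648684), .ofNat (nat_lit 707780), .ofNat (nat_lit 671081), .ofNat (nat_lit 730177), .ofNat (nat_lit 648065), .ofNat (nat_lit 705116), .ofNat (nat_lit 670819), .ofNat (nat_lit 727870)⟩, ⟨.ofNat (nat_lit 0), .ofNat (nat_lit 143475), .ofNat (nat_lit 0), .ofNat (nat_lit 188310), .ofNat (nat_lit 0), .ofNat (nat_lit 146758), .ofNat (nat_lit 0), .ofNat (nat_lit 192306)⟩⟩, [⟨nat_lit 3, nat_lit 100, nat_lit 54, nat_lit 57, nat_lit 31771382⟩, ⟨nat_lit 22, nat_lit 100, nat_lit 99, nat_lit 63, nat_lit 11289341⟩]⟩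
noncomputable def p119_l2 : Lf2 := ⟨nat_lit 0, nat_lit 15, [nat_lit 30, nat_lit 5, nat_lit 5, nat_lit 20], false, nat_lit 0, nat_lit 80, nat_lit 0, nat_lit 276, ⟨nat_lit 102, nat_lit 898, nat_lit 0, nat_lit 7, nat_lit 300, nat_lit 898, nat_lit 31, nat_lit 0, nat_lit 0, nat_lit 0, nat_lit 0, nat_lit 0, nat_lit 42867857, nat_lit 24132143, nat_lit 0, nat_lit 3267611, true, true⟩,
 nat_lit 0, nat_lit 0, nat_lit 1364, nat_lit 0, nat_lit 2905, nat_lit 868, nat_lit 65, nat_lit 0, nat_lit 0, nat_lit 57, nat_lit 0, nat_lit 0, nat_lit 0, nat_lit 0, nat_lit 0, nat_lit 359200, nat_lit 0, nat_lit 0, [(nat_lit 25, [(nat_lit 1, nat_lit 898)])],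
 ⟨p119_k3, nat_lit 0, nat_lit 0, nat_lit 151, nat_lit 0, nat_lit 0, [nat_lit 854306401, nat_lit 1234679734, nat_lit 1459349600], [], [nat_lit 25318199321, nat_lit 25841085361, nat_lit 26850476125, nat_lit 27404422670, nat_lit 24552650301, nat_lit 25046342321, nat_lit 26005382361, nat_lit 26462536716], nat_lit 0, nat_lit 0, nat_lit 0, nat_lit 0, nat_lit 0, nat_lit 0, [], [nat_lit 20, nat_lit 40, nat_lit 40, nat_lit 80, nat_lit 16, nat_lit 226, nat_lit 20, nat_lit 7]⟩, ⟨p119_k4, nat_lit 0, nat_lit 0, nat_lit 831, nat_lit 0, nat_lit 1442472, [nat_lit 334764000, nat_lit 637500000, nat_lit 1003884000], [], [nat_lit 3498511474, nat_lit 3519312441, nat_lit 3559737202, nat_lit 3640826158, nat_lit 2954266528, nat_lit 2966786417, nat_lit 2979306306, nat_lit 3006902300], nat_lit 1271250, nat_lit 1271250, nat_lit 1271250, nat_lit 1271250, nat_lit 0, nat_lit 1949250, [nat_lit 780000, nat_lit 1435000, nat_lit 1271250], [nat_lit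 8, nat_lit 40, nat_lit 40, nat_lit 80, nat_lit 1, nat_lit 320, nat_lit 75, nat_lit 9]⟩,
 ⟨nat_lit 2738, nat_lit 3163, ⟨.ofNat (nat_lit 710514), .ofNat (nat_lit 771478), .ofNat (nat_lit 732657), .ofNat (nat_lit 793629), .ofNat (nat_lit 707780), .ofNat (nat_lit 766852), .ofNat (nat_lit 730185), .ofNat (nat_lit 789265)⟩, ⟨.ofNat (nat_lit 0), .ofNat (nat_lit 139899), .ofNat (nat_lit 0), .ofNat (nat_lit 162054), .ofNat (nat_lit 0), .ofNat (nat_lit 143475), .ofNat (nat_lit 0), .ofNat (nat_lit 165893)⟩⟩, [⟨nat_lit 22, nat_lit 87, nat_lit 100, nat_lit 60, nat_lit 12120187⟩]⟩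
noncomputable def p119_l3 : Lf2 := ⟨nat_lit 0, nat_lit 15, [nat_lit 30, nat_lit 5, nat_lit 5, nat_lit 20], true, nat_lit 0, nat_lit 80, nat_lit 0, nat_lit 276, ⟨nat_lit 0, nat_lit 1000, nat_lit 0, nat_lit 7, nat_lit 299, nat_lit 1000, nat_lit 31, nat_lit 0, nat_lit 0, nat_lit 0, nat_lit 0, nat_lit 0, nat_lit 43013279, nat_lit 23986721, nat_lit 0, nat_lit 3261324, true, true⟩,
 nat_lit 0, nat_lit 0, nat_lit 0, nat_lit 0, nat_lit 2843, nat_lit 0, nat_lit 17, nat_lit 0, nat_lit 0, nat_lit 0, nat_lit 0, nat_lit 0, nat_lit 0, nat_lit 0, nat_lit 0, nat_lit 250000, nat_lit 0, nat_lit 0, [(nat_lit 25, [(nat_lit 0, nat_lit 1000)])],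
 ⟨p119_k5, nat_lit 0, nat_lit 0, nat_lit 139, nat_lit 0, nat_lit 0, [nat_lit 764000001, nat_lit 1368800000, nat_lit 1715600000], [], [nat_lit 25762652964, nat_lit 26335495414, nat_lit 27379764370, nat_lit 27912726242, nat_lit 25006113753, nat_lit 25523388698, nat_lit 26494634022, nat_lit 26973100224], nat_lit 0, nat_lit 0, nat_lit 0, nat_lit 0, nat_lit 0, nat_lit 0, [], [nat_lit 35, nat_lit 40, nat_lit 40, nat_lit 80, nat_lit 22, nat_lit 226, nat_lit 20, nat_lit 9]⟩, C1.Rw.none,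
 ⟨nat_lit 2236, nat_lit 2739, ⟨.ofNat (nat_lit 707780), .ofNat (nat_lit 766852), .ofNat (nat_lit 730177), .ofNat (nat_lit 789269), .ofNat (nat_lit 705116), .ofNat (nat_lit 762142), .ofNat (nat_lit 727870), .ofNat (nat_lit 784917)⟩, ⟨.ofNat (nat_lit 0), .ofNat (nat_lit 143475), .ofNat (nat_lit 0), .ofNat (nat_lit 165893), .ofNat (nat_lit 0), .ofNat (nat_lit 146758), .ofNat (nat_lit 0), .ofNat (nat_lit 169532)⟩⟩, [⟨nat_lit 3, nat_lit 100, nat_lit 73, nat_lit 33, nat_lit 41263523⟩]⟩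
noncomputable def p119_l4 : Lf2 := ⟨nat_lit 0, nat_lit 20, [nat_lit 5, nat_lit 5, nat_lit 5, nat_lit 20], false, nat_lit 0, nat_lit 80, nat_lit 0, nat_lit 160, ⟨nat_lit 202, nat_lit 798, nat_lit 0, nat_lit 7, nat_lit 296, nat_lit 798, nat_lit 35, nat_lit 0, nat_lit 0, nat_lit 0, nat_lit 0, nat_lit 0, nat_lit 43288716, nat_lit 23711284, nat_lit 0, nat_lit 3249136, true, true⟩,
 nat_lit 0, nat_lit 0, nat_lit 2592, nat_lit 0, nat_lit 2958, nat_lit 1649, nat_lit 106, nat_lit 0, nat_lit 0, nat_lit 139, nat_lit 0, nat_lit 0, nat_lit 0, nat_lit 0, nat_lit 0, nat_lit 319200, nat_lit 0, nat_lit 0, [(nat_lit 25, [(nat_lit 1, nat_lit 798)])],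
 ⟨p119_k0, nat_lit 0, nat_lit 0, nat_lit 154, nat_lit 0, nat_lit 0, [nat_lit 863626401, nat_lit 1462666400, nat_lit 1992829600], [], [nat_lit 25701483868, nat_lit 26755054156, nat_lit 27237168404, nat_lit 28209968880, nat_lit 24900134196, nat_lit 25894692740, nat_lit 26360130012, nat_lit 27280702368], nat_lit 0, nat_lit 0, nat_lit 0, nat_lit 0, nat_lit 0, nat_lit 0, [], [nat_lit 20, nat_lit 40, nat_lit 40, nat_lit 80, nat_lit 16, nat_lit 226, nat_lit 20, nat_lit 7]⟩, ⟨p119_k1, nat_lit 0, nat_lit 0, nat_lit 814, nat_lit 0, nat_lit 1254900, [nat_lit 662964000, nat_lit 1262500000, nat_lit 2398144000], [], [nat_lit 7031947333, nat_lit 7045979650, nat_lit 7144205869, nat_lit 7155900843, nat_lit 6059352580, nat_lit 6075841644, nat_lit 6191265092, nat_lit 6205317197], nat_lit 1271250, nat_lit 1271250, nat_lit 1271250, nat_lit 1271250, nat_lit 0, nat_lit 1100001, [nat_lit 780000, nat_lit 1435000, nat_lit 1271250], [nat_lit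 23, nat_lit 40, nat_lit 40, nat_lit 80, nat_lit 12, nat_lit 428, nat_lit 200, nat_lit 10]⟩,
 ⟨nat_lit 2236, nat_lit 3163, ⟨.ofNat (nat_lit 710480), .ofNat (nat_lit 771478), .ofNat (nat_lit 716003), .ofNat (nat_lit 777017), .ofNat (nat_lit 705082), .ofNat (nat_lit 762142), .ofNat (nat_lit 710759), .ofNat (nat_lit 767836)⟩, ⟨.ofNat (nat_lit 0), .ofNat (nat_lit 162054), .ofNat (nat_lit 0), .ofNat (nat_lit 184209), .ofNat (nat_lit 0), .ofNat (nat_lit 169532), .ofNat (nat_lit 0), .ofNat (nat_lit 192306)⟩⟩, [⟨nat_lit 3, nat_lit 100, nat_lit 69, nat_lit 40, nat_lit 22299361⟩]⟩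
noncomputable def p119_l5 : Lf2 := ⟨nat_lit 0, nat_lit 20, [nat_lit 5, nat_lit 5, nat_lit 5, nat_lit 20], false, nat_lit 0, nat_lit 80, nat_lit 0, nat_lit 160, ⟨nat_lit 220, nat_lit 780, nat_lit 0, nat_lit 7, nat_lit 298, nat_lit 780, nat_lit 35, nat_lit 0, nat_lit 0, nat_lit 0, nat_lit 0, nat_lit 0, nat_lit 43056906, nat_lit 23943094, nat_lit 0, nat_lit 3259418, true, true⟩,
 nat_lit 0, nat_lit 0, nat_lit 2658, nat_lit 0, nat_lit 2980, nat_lit 1727, nat_lit 110, nat_lit 0, nat_lit 0, nat_lit 148, nat_lit 0, nat_lit 0, nat_lit 0, nat_lit 0, nat_lit 0, nat_lit 315000, nat_lit 0, nat_lit 0, [(nat_lit 25, [(nat_lit 1, nat_lit 775), (nat_lit 2, nat_lit 5)])],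
 ⟨p119_k0, nat_lit 0, nat_lit 0, nat_lit 154, nat_lit 0, nat_lit 0, [nat_lit 868422001, nat_lit 1496788667, nat_lit 2064786000], [], [nat_lit 25756545379, nat_lit 26813352659, nat_lit 27295527539, nat_lit 28271519017, nat_lit 24940335059, nat_lit 25937871699, nat_lit 26403346019, nat_lit 27326518379], nat_lit 0, nat_lit 0, nat_lit 0, nat_lit 0, nat_lit 0, nat_lit 0, [], [nat_lit 20, nat_lit 40, nat_lit 40, nat_lit 80, nat_lit 16, nat_lit 226, nat_lit 20, nat_lit 7]⟩, ⟨p119_k6, nat_lit 0, nat_lit 0, nat_lit 810, nat_lit 0, nat_lit 1246993, [nat_lit 722040000, nat_lit 1375000000, nat_lit 2611840000], [], [nat_lit 7647909149, nat_lit 7663360706, nat_lit 7769055955, nat_lit 7782041862, nat_lit 6622556310, nat_lit 6634104599, nat_lit 6733330991, nat_lit 6748789346], nat_lit 1271250, nat_lit 1271250, nat_lit 1271250, nat_lit 1271250, nat_lit 0, nat_lit 1100001, [nat_lit 780000, nat_lit 1435000, nat_lit 1271250], [nat_lit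 23, nat_lit 40, nat_lit 40, nat_lit 80, nat_lit 12, nat_lit 428, nat_lit 200, nat_lit 10]⟩,
 ⟨nat_lit 2236, nat_lit 3163, ⟨.ofNat (nat_lit 716003), .ofNat (nat_lit 777017), .ofNat (nat_lit 721526), .ofNat (nat_lit 782556), .ofNat (nat_lit 710759), .ofNat (nat_lit 767836), .ofNat (nat_lit 716437), .ofNat (nat_lit 773529)⟩, ⟨.ofNat (nat_lit 0), .ofNat (nat_lit 162054), .ofNat (nat_lit 0), .ofNat (nat_lit 184209), .ofNat (nat_lit 0), .ofNat (nat_lit 169532), .ofNat (nat_lit 0), .ofNat (nat_lit 192306)⟩⟩, [⟨nat_lit 3, nat_lit 100, nat_lit 69, nat_lit 40, nat_lit 20906285⟩]⟩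
noncomputable def p119_l6 : Lf2 := ⟨nat_lit 0, nat_lit 20, [nat_lit 5, nat_lit 5, nat_lit 5, nat_lit 20], false, nat_lit 4, nat_lit 80, nat_lit 160, nat_lit 300, ⟨nat_lit 219, nat_lit 781, nat_lit 0, nat_lit 7, nat_lit 298, nat_lit 781, nat_lit 37, nat_lit 0, nat_lit 0, nat_lit 0, nat_lit 0, nat_lit 0, nat_lit 42411840, nat_lit 23655346, nat_lit 932814, nat_lit 3671074, true, true⟩,
 nat_lit 0, nat_lit 0, nat_lit 2770, nat_lit 0, nat_lit 3089, nat_lit 1762, nat_lit 110, nat_lit 0, nat_lit 0, nat_lit 170, nat_lit 0, nat_lit 0, nat_lit 0, nat_lit 0, nat_lit 0, nat_lit 312400, nat_lit 0, nat_lit 0, [(nat_lit 25, [(nat_lit 1, nat_lit 781)])],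
 ⟨p119_k0, nat_lit 0, nat_lit 0, nat_lit 149, nat_lit 0, nat_lit 0, [nat_lit 865210801, nat_lit 1501424134, nat_lit 2083521200], [], [nat_lit 25587198411, nat_lit 26144544438, nat_lit 27192595615, nat_lit 27755273593, nat_lit 24741852238, nat_lit 25247998114, nat_lit 26219801866, nat_lit 26687828965], nat_lit 0, nat_lit 0, nat_lit 0, nat_lit 0, nat_lit 0, nat_lit 0, [], [nat_lit 20, nat_lit 40, nat_lit 40, nat_lit 80, nat_lit 16, nat_lit 226, nat_lit 20, nat_lit 7]⟩, ⟨p119_k1, nat_lit 0, nat_lit 0, nat_lit 650, nat_lit 0, nat_lit 1131287, [nat_lit 718758000, nat_lit 1368750000, nat_lit 2599968000], [], [nat_lit 6003008354, nat_lit 6051465695, nat_lit 6196837718, nat_lit 6240105648, nat_lit 6282020127, nat_lit 6329269029, nat_lit 6471015733, nat_lit 6518645645], nat_lit 1271250, nat_lit 1271250, nat_lit 1271250, nat_lit 1271250, nat_lit 1100001, nat_lit 2298750, [nat_lit 780000, nat_lit 1435000, nat_lit 1271250],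 [nat_lit 23, nat_lit 40, nat_lit 40, nat_lit 80, nat_lit 12, nat_lit 483, nat_lit 250, nat_lit 11]⟩,
 ⟨nat_lit 2738, nat_lit 3163, ⟨.ofNat (nat_lit 710514), .ofNat (nat_lit 771478), .ofNat (nat_lit 721585), .ofNat (nat_lit 782555), .ofNat (nat_lit 707780), .ofNat (nat_lit 766852), .ofNat (nat_lit 718982), .ofNat (nat_lit 778060)⟩, ⟨.ofNat (nat_lit 10000), .ofNat (nat_lit 162054), .ofNat (nat_lit 10000), .ofNat (nat_lit 184209), .ofNat (nat_lit 10000), .ofNat (nat_lit 165893), .ofNat (nat_lit 10000), .ofNat (nat_lit 188310)⟩⟩, [⟨nat_lit 22, nat_lit 87, nat_lit 100, nat_lit 62, nat_lit 107586084⟩]⟩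
noncomputable def p119_l7 : Lf2 := ⟨nat_lit 0, nat_lit 20, [nat_lit 5, nat_lit 5, nat_lit 5, nat_lit 20], false, nat_lit 4, nat_lit 80, nat_lit 160, nat_lit 300, ⟨nat_lit 188, nat_lit 812, nat_lit 0, nat_lit 7, nat_lit 296, nat_lit 812, nat_lit 38, nat_lit 0, nat_lit 0, nat_lit 0, nat_lit 0, nat_lit 0, nat_lit 42534537, nat_lit 23501372, nat_lit 964091, nat_lit 3675313, true, true⟩,
 nat_lit 0, nat_lit 0, nat_lit 2520, nat_lit 0, nat_lit 2807, nat_lit 1603, nat_lit 213, nat_lit 0, nat_lit 0, nat_lit 134, nat_lit 0, nat_lit 0, nat_lit 0, nat_lit 0, nat_lit 0, nat_lit 203000, nat_lit 0, nat_lit 0, [(nat_lit 25, [(nat_lit 0, nat_lit 812)])],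
 ⟨p119_k2, nat_lit 0, nat_lit 0, nat_lit 152, nat_lit 0, nat_lit 0, [nat_lit 796712001, nat_lit 1728481600, nat_lit 2894816000], [], [nat_lit 25778727744, nat_lit 26292973250, nat_lit 27249290090, nat_lit 27724734592, nat_lit 25087157216, nat_lit 25574216204, nat_lit 26490762629, nat_lit 26942126066], nat_lit 0, nat_lit 0, nat_lit 0, nat_lit 0, nat_lit 0, nat_lit 0, [], [nat_lit 20, nat_lit 40, nat_lit 40, nat_lit 80, nat_lit 16, nat_lit 226, nat_lit 20, nat_lit 7]⟩, ⟨p119_k1, nat_lit 0, nat_lit 0, nat_lit 706, nat_lit 0, nat_lit 1286529, [nat_lit 617016000, nat_lit 1175000000, nat_lit 2231936000], [], [nat_lit 5042660254, nat_lit 5071729968, nat_lit 5168868228, nat_lit 5213571513, nat_lit 5316042699, nat_lit 5385738298, nat_lit 5594825094, nat_lit 5655026037], nat_lit 1271250, nat_lit 1271250, nat_lit 1271250, nat_lit 1271250, nat_lit 1100001, nat_lit 2298750, [nat_lit 780000, nat_lit 1435000, nat_lit 1271250],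 [nat_lit 23, nat_lit 40, nat_lit 40, nat_lit 80, nat_lit 12, nat_lit 483, nat_lit 250, nat_lit 11]⟩,
 ⟨nat_lit 2236, nat_lit 2739, ⟨.ofNat (nat_lit 707780), .ofNat (nat_lit 766852), .ofNat (nat_lit 718979), .ofNat (nat_lit 778061), .ofNat (nat_lit 705116), .ofNat (nat_lit 762142), .ofNat (nat_lit 716494), .ofNat (nat_lit 773529)⟩, ⟨.ofNat (nat_lit 10000), .ofNat (nat_lit 165893), .ofNat (nat_lit 10000), .ofNat (nat_lit 188310), .ofNat (nat_lit 10000), .ofNat (nat_lit 169532), .ofNat (nat_lit 10000), .ofNat (nat_lit 192306)⟩⟩, [⟨nat_lit 22, nat_lit 87, nat_lit 100, nat_lit 62, nat_lit 105992154⟩]⟩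
noncomputable def p119_l8 : Lf2 := ⟨nat_lit 0, nat_lit 20, [nat_lit 5, nat_lit 5, nat_lit 5, nat_lit 20], false, nat_lit 0, nat_lit 80, nat_lit 0, nat_lit 160, ⟨nat_lit 264, nat_lit 736, nat_lit 0, nat_lit 7, nat_lit 302, nat_lit 736, nat_lit 35, nat_lit 0, nat_lit 0, nat_lit 0, nat_lit 0, nat_lit 0, nat_lit 42710746, nat_lit 24289254, nat_lit 0, nat_lit 3274288, true, true⟩,
 nat_lit 0, nat_lit 0, nat_lit 3094, nat_lit 0, nat_lit 3032, nat_lit 2054, nat_lit 111, nat_lit 0, nat_lit 0, nat_lit 264, nat_lit 0, nat_lit 0, nat_lit 0, nat_lit 0, nat_lit 0, nat_lit 316600, nat_lit 0, nat_lit 0, [(nat_lit 25, [(nat_lit 1, nat_lit 699), (nat_lit 2, nat_lit 37)])],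
 ⟨p119_k0, nat_lit 0, nat_lit 0, nat_lit 154, nat_lit 0, nat_lit 0, [nat_lit 892478001, nat_lit 1552844667, nat_lit 2145469200], [], [nat_lit 25865750408, nat_lit 26930208760, nat_lit 27412526952, nat_lit 28399564496, nat_lit 25014414920, nat_lit 26018990696, nat_lit 26484552584, nat_lit 27413870408], nat_lit 0, nat_lit 0, nat_lit 0, nat_lit 0, nat_lit 0, nat_lit 0, [], [nat_lit 20, nat_lit 40, nat_lit 40, nat_lit 80, nat_lit 16, nat_lit 226, nat_lit 20, nat_lit 7]⟩, ⟨p119_k7, nat_lit 0, nat_lit 0, nat_lit 819, nat_lit 0, nat_lit 1272222, [nat_lit 866448000, nat_lit 1650000000, nat_lit 3134208000], [], [nat_lit 8159414960, nat_lit 8214794560, nat_lit 8373670984, nat_lit 8496562832, nat_lit 7044598508, nat_lit 7087904736, nat_lit 7211699492, nat_lit 7248881792], nat_lit 1271250, nat_lit 1271250, nat_lit 1271250, nat_lit 1271250, nat_lit 0, nat_lit 1100001, [nat_lit 780000, nat_lit 1435000, nat_lit 1271250], [nat_lit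 23, nat_lit 40, nat_lit 40, nat_lit 80, nat_lit 12, nat_lit 428, nat_lit 200, nat_lit 10]⟩,
 ⟨nat_lit 2236, nat_lit 3163, ⟨.ofNat (nat_lit 721526), .ofNat (nat_lit 782556), .ofNat (nat_lit 732571), .ofNat (nat_lit 793619), .ofNat (nat_lit 716437), .ofNat (nat_lit 773529), .ofNat (nat_lit 727793), .ofNat (nat_lit 784902)⟩, ⟨.ofNat (nat_lit 0), .ofNat (nat_lit 162054), .ofNat (nat_lit 0), .ofNat (nat_lit 184209), .ofNat (nat_lit 0), .ofNat (nat_lit 169532), .ofNat (nat_lit 0), .ofNat (nat_lit 192306)⟩⟩, [⟨nat_lit 3, nat_lit 100, nat_lit 69, nat_lit 40, nat_lit 17401539⟩]⟩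
noncomputable def p119_l9 : Lf2 := ⟨nat_lit 0, nat_lit 20, [nat_lit 5, nat_lit 5, nat_lit 5, nat_lit 20], false, nat_lit 4, nat_lit 80, nat_lit 160, nat_lit 292, ⟨nat_lit 237, nat_lit 763, nat_lit 0, nat_lit 7, nat_lit 302, nat_lit 763, nat_lit 37, nat_lit 0, nat_lit 0, nat_lit 0, nat_lit 0, nat_lit 0, nat_lit 42027050, nat_lit 24030581, nat_lit 942369, nat_lit 3690620, true, true⟩,
 nat_lit 0, nat_lit 0, nat_lit 2710, nat_lit 0, nat_lit 3123, nat_lit 1799, nat_lit 88, nat_lit 0, nat_lit 0, nat_lit 178, nat_lit 0, nat_lit 0, nat_lit 0, nat_lit 0, nat_lit 0, nat_lit 317200, nat_lit 0, nat_lit 0, [(nat_lit 25, [(nat_lit 1, nat_lit 743), (nat_lit 2, nat_lit 20)])],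
 ⟨p119_k0, nat_lit 0, nat_lit 0, nat_lit 152, nat_lit 0, nat_lit 0, [nat_lit 879360401, nat_lit 1514800400, nat_lit 2083267600], [], [nat_lit 25760013372, nat_lit 26882400281, nat_lit 27395524251, nat_lit 28525711513, nat_lit 24892006666, nat_lit 25908900930, nat_lit 26374616062, nat_lit 27314688448], nat_lit 0, nat_lit 0, nat_lit 0, nat_lit 0, nat_lit 0, nat_lit 0, [], [nat_lit 20, nat_lit 40, nat_lit 40, nat_lit 80, nat_lit 16, nat_lit 226, nat_lit 20, nat_lit 7]⟩, ⟨p119_k7, nat_lit 0, nat_lit 0, nat_lit 699, nat_lit 0, nat_lit 1272222, [nat_lit 777834000, nat_lit 1481250000, nat_lit 2813664000], [], [nat_lit 6588256122, nat_lit 6627943594, nat_lit 6784256509, nat_lit 6831837734, nat_lit 6782796127, nat_lit 6820216146, nat_lit 6994165965, nat_lit 7069788539], nat_lit 1271250, nat_lit 1271250, nat_lit 1271250, nat_lit 1271250, nat_lit 1100001, nat_lit 2230250, [nat_lit 780000, nat_lit 1435000, nat_lit 1271250],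 [nat_lit 23, nat_lit 40, nat_lit 40, nat_lit 80, nat_lit 12, nat_lit 483, nat_lit 250, nat_lit 11]⟩,
 ⟨nat_lit 2236, nat_lit 3163, ⟨.ofNat (nat_lit 721526), .ofNat (nat_lit 782556), .ofNat (nat_lit 732571), .ofNat (nat_lit 793619), .ofNat (nat_lit 716437), .ofNat (nat_lit 773529), .ofNat (nat_lit 727793), .ofNat (nat_lit 784902)⟩, ⟨.ofNat (nat_lit 10000), .ofNat (nat_lit 162054), .ofNat (nat_lit 10000), .ofNat (nat_lit 184209), .ofNat (nat_lit 10000), .ofNat (nat_lit 169532), .ofNat (nat_lit 10000), .ofNat (nat_lit 192306)⟩⟩, [⟨nat_lit 22, nat_lit 87, nat_lit 100, nat_lit 61, nat_lit 110959021⟩]⟩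
noncomputable def p119_l10 : Lf2 := ⟨nat_lit 0, nat_lit 15, [nat_lit 30, nat_lit 5, nat_lit 5, nat_lit 20], false, nat_lit 0, nat_lit 80, nat_lit 0, nat_lit 256, ⟨nat_lit 172, nat_lit 828, nat_lit 0, nat_lit 7, nat_lit 297, nat_lit 828, nat_lit 31, nat_lit 0, nat_lit 0, nat_lit 0, nat_lit 0, nat_lit 0, nat_lit 43187006, nat_lit 23812994, nat_lit 0, nat_lit 3253679, true, false⟩,
 nat_lit 0, nat_lit 0, nat_lit 1662, nat_lit 0, nat_lit 3092, nat_lit 1150, nat_lit 74, nat_lit 0, nat_lit 0, nat_lit 175, nat_lit 0, nat_lit 0, nat_lit 0, nat_lit 0, nat_lit 0, nat_lit 331200, nat_lit 0, nat_lit 0, [(nat_lit 25, [(nat_lit 1, nat_lit 828)])],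
 ⟨p119_k3, nat_lit 0, nat_lit 0, nat_lit 151, nat_lit 0, nat_lit 0, [nat_lit 860830401, nat_lit 1394270400, nat_lit 1832785600], [], [nat_lit 24162466612, nat_lit 24750155346, nat_lit 27309895410, nat_lit 27873962822, nat_lit 23335490020, nat_lit 23879538636, nat_lit 26135521092, nat_lit 26603725464], nat_lit 0, nat_lit 0, nat_lit 0, nat_lit 0, nat_lit 0, nat_lit 0, [], [nat_lit 20, nat_lit 40, nat_lit 40, nat_lit 80, nat_lit 16, nat_lit 226, nat_lit 20, nat_lit 8]⟩, ⟨p119_k8, nat_lit 0, nat_lit 0, nat_lit 820, nat_lit 0, nat_lit 1413749, [nat_lit 564504000, nat_lit 1075000000, nat_lit 1692824000], [], [nat_lit 5135727049, nat_lit 5205501009, nat_lit 5343247817, nat_lit 5483735256, nat_lit 4674279666, nat_lit 4717854745, nat_lit 4792134745, nat_lit 4825688590], nat_lit 1271250, nat_lit 1271250, nat_lit 1271250, nat_lit 1271250, nat_lit 0, nat_lit 1808000, [nat_lit 780000, nat_lit 1435000, nat_lit 1271250], [nat_lit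 8, nat_lit 40, nat_lit 40, nat_lit 80, nat_lit 1, nat_lit 373, nat_lit 150, nat_lit 10]⟩,
 ⟨nat_lit 2738, nat_lit 3163, ⟨.ofNat (nat_lit 671685), .ofNat (nat_lit 793629), .ofNat (nat_lit 693828), .ofNat (nat_lit 815772), .ofNat (nat_lit 671105), .ofNat (nat_lit 789265), .ofNat (nat_lit 693511), .ofNat (nat_lit 811670)⟩, ⟨.ofNat (nat_lit 0), .ofNat (nat_lit 139899), .ofNat (nat_lit 0), .ofNat (nat_lit 162054), .ofNat (nat_lit 0), .ofNat (nat_lit 143475), .ofNat (nat_lit 0), .ofNat (nat_lit 165893)⟩⟩, [⟨nat_lit 22, nat_lit 94, nat_lit 100, nat_lit 62, nat_lit 27016407⟩]⟩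
noncomputable def p119_l11 : Lf2 := ⟨nat_lit 0, nat_lit 15, [nat_lit 30, nat_lit 5, nat_lit 5, nat_lit 20], false, nat_lit 0, nat_lit 80, nat_lit 0, nat_lit 256, ⟨nat_lit 133, nat_lit 867, nat_lit 0, nat_lit 7, nat_lit 296, nat_lit 867, nat_lit 31, nat_lit 0, nat_lit 0, nat_lit 0, nat_lit 0, nat_lit 0, nat_lit 43279986, nat_lit 23720014, nat_lit 0, nat_lit 3249528, true, false⟩,
 nat_lit 0, nat_lit 0, nat_lit 1284, nat_lit 0, nat_lit 2963, nat_lit 888, nat_lit 56, nat_lit 0, nat_lit 0, nat_lit 146, nat_lit 0, nat_lit 0, nat_lit 0, nat_lit 0, nat_lit 0, nat_lit 216750, nat_lit 0, nat_lit 0, [(nat_lit 25, [(nat_lit 0, nat_lit 867)])],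
 ⟨p119_k5, nat_lit 0, nat_lit 0, nat_lit 139, nat_lit 0, nat_lit 0, [nat_lit 787142001, nat_lit 1623255600, nat_lit 2110929200], [], [nat_lit 24596157723, nat_lit 25225752686, nat_lit 27687436220, nat_lit 28223463744, nat_lit 23799373289, nat_lit 24365066448, nat_lit 26655095872, nat_lit 27141339754], nat_lit 0, nat_lit 0, nat_lit 0, nat_lit 0, nat_lit 0, nat_lit 0, [], [nat_lit 35, nat_lit 40, nat_lit 40, nat_lit 80, nat_lit 22, nat_lit 226, nat_lit 20, nat_lit 9]⟩, ⟨p119_k8, nat_lit 0, nat_lit 0, nat_lit 881, nat_lit 0, nat_lit 1543102, [nat_lit 436506000, nat_lit 831250000, nat_lit 1308986000], [], [nat_lit 3960172170, nat_lit 4006630646, nat_lit 4095939746, nat_lit 4237809652, nat_lit 3594825232, nat_lit 3623105568, nat_lit 3668073510, nat_lit 3710386196], nat_lit 1271250, nat_lit 1271250, nat_lit 1271250, nat_lit 1271250, nat_lit 0, nat_lit 1808000, [nat_lit 780000, nat_lit 1435000, nat_lit 1271250], [nat_lit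 8, nat_lit 40, nat_lit 40, nat_lit 80, nat_lit 1, nat_lit 373, nat_lit 150, nat_lit 10]⟩,
 ⟨nat_lit 2236, nat_lit 2739, ⟨.ofNat (nat_lit 671081), .ofNat (nat_lit 789269), .ofNat (nat_lit 693478), .ofNat (nat_lit 811671), .ofNat (nat_lit 670819), .ofNat (nat_lit 784917), .ofNat (nat_lit 693574), .ofNat (nat_lit 807675)⟩, ⟨.ofNat (nat_lit 0), .ofNat (nat_lit 143475), .ofNat (nat_lit 0), .ofNat (nat_lit 165893), .ofNat (nat_lit 0), .ofNat (nat_lit 146758), .ofNat (nat_lit 0), .ofNat (nat_lit 169532)⟩⟩, [⟨nat_lit 22, nat_lit 94, nat_lit 100, nat_lit 62, nat_lit 21232240⟩]⟩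
noncomputable def p119_l12 : Lf2 := ⟨nat_lit 0, nat_lit 20, [nat_lit 5, nat_lit 5, nat_lit 5, nat_lit 20], false, nat_lit 0, nat_lit 80, nat_lit 0, nat_lit 280, ⟨nat_lit 280, nat_lit 720, nat_lit 0, nat_lit 7, nat_lit 294, nat_lit 720, nat_lit 35, nat_lit 0, nat_lit 0, nat_lit 0, nat_lit 0, nat_lit 0, nat_lit 43467777, nat_lit 23532223, nat_lit 0, nat_lit 3241014, true, false⟩,
 nat_lit 0, nat_lit 0, nat_lit 2822, nat_lit 0, nat_lit 3304, nat_lit 1953, nat_lit 89, nat_lit 0, nat_lit 0, nat_lit 219, nat_lit 0, nat_lit 0, nat_lit 0, nat_lit 0, nat_lit 0, nat_lit 288000, nat_lit 0, nat_lit 0, [(nat_lit 25, [(nat_lit 1, nat_lit 720)])],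
 ⟨p119_k0, nat_lit 0, nat_lit 0, nat_lit 154, nat_lit 0, nat_lit 0, [nat_lit 870896001, nat_lit 1640496001, nat_lit 2408944000], [], [nat_lit 24739337038, nat_lit 25985566718, nat_lit 27945172845, nat_lit 29105939133, nat_lit 23618746544, nat_lit 24739130528, nat_lit 26468134608, nat_lit 27447424894], nat_lit 0, nat_lit 0, nat_lit 0, nat_lit 0, nat_lit 0, nat_lit 0, [], [nat_lit 20, nat_lit 40, nat_lit 40, nat_lit 80, nat_lit 16, nat_lit 226, nat_lit 20, nat_lit 8]⟩, ⟨p119_k9, nat_lit 0, nat_lit 0, nat_lit 752, nat_lit 0, nat_lit 1261684, [nat_lit 918960000, nat_lit 1750000000, nat_lit 2755760000], [], [nat_lit 8410746323, nat_lit 8476735862, nat_lit 8880496149, nat_lit 8962607762, nat_lit 7672768250, nat_lit 7711142191, nat_lit 7954731680, nat_lit 8012032371], nat_lit 1271250, nat_lit 1271250, nat_lit 1271250, nat_lit 1271250, nat_lit 0, nat_lit 1977500, [nat_lit 780000, nat_lit 1435000, nat_lit 1271250], [nat_lit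 8, nat_lit 40, nat_lit 40, nat_lit 80, nat_lit 1, nat_lit 373, nat_lit 150, nat_lit 10]⟩,
 ⟨nat_lit 2236, nat_lit 3163, ⟨.ofNat (nat_lit 671514), .ofNat (nat_lit 793619), .ofNat (nat_lit 682560), .ofNat (nat_lit 804673), .ofNat (nat_lit 670673), .ofNat (nat_lit 784902), .ofNat (nat_lit 682029), .ofNat (nat_lit 796267)⟩, ⟨.ofNat (nat_lit 0), .ofNat (nat_lit 162054), .ofNat (nat_lit 0), .ofNat (nat_lit 184209), .ofNat (nat_lit 0), .ofNat (nat_lit 169532), .ofNat (nat_lit 0), .ofNat (nat_lit 192306)⟩⟩, [⟨nat_lit 22, nat_lit 94, nat_lit 100, nat_lit 62, nat_lit 55378949⟩]⟩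
noncomputable def p119_l13 : Lf2 := ⟨nat_lit 0, nat_lit 20, [nat_lit 5, nat_lit 5, nat_lit 5, nat_lit 20], false, nat_lit 0, nat_lit 80, nat_lit 0, nat_lit 268, ⟨nat_lit 391, nat_lit 609, nat_lit 0, nat_lit 7, nat_lit 299, nat_lit 609, nat_lit 35, nat_lit 0, nat_lit 0, nat_lit 0, nat_lit 0, nat_lit 0, nat_lit 43004314, nat_lit 23995686, nat_lit 0, nat_lit 3261715, true, false⟩,
 nat_lit 0, nat_lit 0, nat_lit 3455, nat_lit 0, nat_lit 3213, nat_lit 2490, nat_lit 123, nat_lit 0, nat_lit 0, nat_lit 318, nat_lit 0, nat_lit 0, nat_lit 0, nat_lit 0, nat_lit 0, nat_lit 303600, nat_lit 0, nat_lit 0, [(nat_lit 25, [(nat_lit 1, nat_lit 509), (nat_lit 2, nat_lit 100)])],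
 ⟨p119_k0, nat_lit 0, nat_lit 0, nat_lit 154, nat_lit 0, nat_lit 0, [nat_lit 943601201, nat_lit 1755254534, nat_lit 2519706800], [], [nat_lit 24813901951, nat_lit 25989557661, nat_lit 27807325233, nat_lit 28869137864, nat_lit 23906354363, nat_lit 25012879411, nat_lit 26734556171, nat_lit 27685264937], nat_lit 0, nat_lit 0, nat_lit 0, nat_lit 0, nat_lit 0, nat_lit 0, [], [nat_lit 20, nat_lit 40, nat_lit 40, nat_lit 80, nat_lit 16, nat_lit 226, nat_lit 20, nat_lit 8]⟩, ⟨p119_k10, nat_lit 0, nat_lit 0, nat_lit 748, nat_lit 0, nat_lit 1254168, [nat_lit 1283262000, nat_lit 2443750000, nat_lit 3848222000], [], [nat_lit 11235735666, nat_lit 11341571538, nat_lit 12008385821, nat_lit 12224647746, nat_lit 10592807187, nat_lit 10660355709, nat_lit 11002055519, nat_lit 11065803339], nat_lit 1271250, nat_lit 1271250, nat_lit 1271250, nat_lit 1271250, nat_lit 0, nat_lit 1892750, [nat_lit 780000, nat_lit 1435000, nat_lit 1271250],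 [nat_lit 8, nat_lit 40, nat_lit 40, nat_lit 80, nat_lit 1, nat_lit 373, nat_lit 150, nat_lit 10]⟩,
 ⟨nat_lit 2236, nat_lit 3163, ⟨.ofNat (nat_lit 682560), .ofNat (nat_lit 804673), .ofNat (nat_lit 693606), .ofNat (nat_lit 815720), .ofNat (nat_lit 682029), .ofNat (nat_lit 796267), .ofNat (nat_lit 693384), .ofNat (nat_lit 807623)⟩, ⟨.ofNat (nat_lit 0), .ofNat (nat_lit 162054), .ofNat (nat_lit 0), .ofNat (nat_lit 184209), .ofNat (nat_lit 0), .ofNat (nat_lit 169532), .ofNat (nat_lit 0), .ofNat (nat_lit 192306)⟩⟩, [⟨nat_lit 7, nat_lit 100, nat_lit 84, nat_lit 78, nat_lit 69476679⟩]⟩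
noncomputable def p119_l14 : Lf2 := ⟨nat_lit 0, nat_lit 20, [nat_lit 5, nat_lit 5, nat_lit 5, nat_lit 20], true, nat_lit 0, nat_lit 80, nat_lit 0, nat_lit 300, ⟨nat_lit 0, nat_lit 1000, nat_lit 0, nat_lit 7, nat_lit 280, nat_lit 1000, nat_lit 34, nat_lit 0, nat_lit 0, nat_lit 0, nat_lit 0, nat_lit 0, nat_lit 45014531, nat_lit 21985469, nat_lit 0, nat_lit 3164271, true, false⟩,
 nat_lit 0, nat_lit 0, nat_lit 0, nat_lit 0, nat_lit 2144, nat_lit 0, nat_lit 82, nat_lit 0, nat_lit 0, nat_lit 0, nat_lit 0, nat_lit 0, nat_lit 0, nat_lit 0, nat_lit 0, nat_lit 400000, nat_lit 0, nat_lit 0, [(nat_lit 28, [(nat_lit 1, nat_lit 1000)])],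
 ⟨p119_k11, nat_lit 0, nat_lit 0, nat_lit 151, nat_lit 0, nat_lit 0, [nat_lit 697600000, nat_lit 324800000, nat_lit 138000000], [], [nat_lit 23051119050, nat_lit 23588659882, nat_lit 24348367978, nat_lit 24986279936, nat_lit 22733905978, nat_lit 23241860658, nat_lit 23979920554, nat_lit 24527914992], nat_lit 0, nat_lit 0, nat_lit 0, nat_lit 0, nat_lit 0, nat_lit 0, [], [nat_lit 20, nat_lit 40, nat_lit 40, nat_lit 80, nat_lit 16, nat_lit 226, nat_lit 20, nat_lit 7]⟩, C1.Rw.none,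
 ⟨nat_lit 1581, nat_lit 2237, ⟨.ofNat (nat_lit 648016), .ofNat (nat_lit 705117), .ofNat (nat_lit 693473), .ofNat (nat_lit 750574), .ofNat (nat_lit 647799), .ofNat (nat_lit 702521), .ofNat (nat_lit 694338), .ofNat (nat_lit 749059)⟩, ⟨.ofNat (nat_lit 0), .ofNat (nat_lit 146758), .ofNat (nat_lit 0), .ofNat (nat_lit 192306), .ofNat (nat_lit 0), .ofNat (nat_lit 149571), .ofNat (nat_lit 0), .ofNat (nat_lit 196201)⟩⟩, [⟨nat_lit 3, nat_lit 100, nat_lit 53, nat_lit 55, nat_lit 28947538⟩]⟩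
noncomputable def p119_l15 : Lf2 := ⟨nat_lit 0, nat_lit 20, [nat_lit 5, nat_lit 5, nat_lit 5, nat_lit 20], true, nat_lit 8, nat_lit 80, nat_lit 0, nat_lit 300, ⟨nat_lit 0, nat_lit 1000, nat_lit 0, nat_lit 7, nat_lit 279, nat_lit 1000, nat_lit 39, nat_lit 0, nat_lit 0, nat_lit 0, nat_lit 0, nat_lit 0, nat_lit 44252369, nat_lit 21723662, nat_lit 1023969, nat_lit 3608892, true, false⟩,
 nat_lit 0, nat_lit 0, nat_lit 0, nat_lit 0, nat_lit 2408, nat_lit 0, nat_lit 79, nat_lit 0, nat_lit 0, nat_lit 0, nat_lit 0, nat_lit 0, nat_lit 0, nat_lit 0, nat_lit 0, nat_lit 250000, nat_lit 0, nat_lit 0, [(nat_lit 28, [(nat_lit 0, nat_lit 1000)])],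
 ⟨p119_k12, nat_lit 0, nat_lit 0, nat_lit 136, nat_lit 0, nat_lit 0, [nat_lit 781600001, nat_lit 1046000001, nat_lit 1376400000], [], [nat_lit 24163324477, nat_lit 24747837426, nat_lit 25507107381, nat_lit 26172098554, nat_lit 23765856008, nat_lit 24285321552, nat_lit 24989180424, nat_lit 25509229816], nat_lit 0, nat_lit 0, nat_lit 0, nat_lit 0, nat_lit 0, nat_lit 0, [], [nat_lit 35, nat_lit 40, nat_lit 40, nat_lit 80, nat_lit 22, nat_lit 226, nat_lit 20, nat_lit 9]⟩, C1.Rw.none,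
 ⟨nat_lit 0, nat_lit 1582, ⟨.ofNat (nat_lit 646579), .ofNat (nat_lit 702515), .ofNat (nat_lit 691895), .ofNat (nat_lit 747842), .ofNat (nat_lit 648683), .ofNat (nat_lit 699984), .ofNat (nat_lit 697369), .ofNat (nat_lit 748680)⟩, ⟨.ofNat (nat_lit 20000), .ofNat (nat_lit 149570), .ofNat (nat_lit 20000), .ofNat (nat_lit 196201), .ofNat (nat_lit 20000), .ofNat (nat_lit 149998), .ofNat (nat_lit 20000), .ofNat (nat_lit 199999)⟩⟩, [⟨nat_lit 3, nat_lit 100, nat_lit 31, nat_lit 76, nat_lit 412938662⟩]⟩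
noncomputable def p119_l16 : Lf2 := ⟨nat_lit 0, nat_lit 20, [nat_lit 5, nat_lit 5, nat_lit 5, nat_lit 20], false, nat_lit 0, nat_lit 40, nat_lit 0, nat_lit 248, ⟨nat_lit 44, nat_lit 956, nat_lit 0, nat_lit 7, nat_lit 294, nat_lit 956, nat_lit 19, nat_lit 0, nat_lit 0, nat_lit 0, nat_lit 0, nat_lit 0, nat_lit 43493854, nat_lit 23506146, nat_lit 0, nat_lit 3239818, true, true⟩,
 nat_lit 0, nat_lit 0, nat_lit 585, nat_lit 0, nat_lit 2226, nat_lit 372, nat_lit 71, nat_lit 0, nat_lit 0, nat_lit 22, nat_lit 0, nat_lit 0, nat_lit 0, nat_lit 0, nat_lit 0, nat_lit 382400, nat_lit 0, nat_lit 0, [(nat_lit 28, [(nat_lit 1, nat_lit 956)])],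
 ⟨p119_k11, nat_lit 0, nat_lit 0, nat_lit 164, nat_lit 0, nat_lit 0, [nat_lit 708177601, nat_lit 454916800, nat_lit 406928000], [], [nat_lit 24719313890, nat_lit 25843499216, nat_lit 26308536128, nat_lit 27501732856, nat_lit 24505365342, nat_lit 25494687710, nat_lit 25921225186, nat_lit 26839230189], nat_lit 0, nat_lit 0, nat_lit 0, nat_lit 0, nat_lit 0, nat_lit 0, [], [nat_lit 20, nat_lit 40, nat_lit 40, nat_lit 80, nat_lit 16, nat_lit 215, nat_lit 10, nat_lit 7]⟩, ⟨p119_k1, nat_lit 0, nat_lit 0, nat_lit 1095, nat_lit 0, nat_lit 1899565, [nat_lit 144408000, nat_lit 275000000, nat_lit 522368000], [], [nat_lit 1643880154, nat_lit 1644294014, nat_lit 1645535594, nat_lit 1655766430, nat_lit 1383547782, nat_lit 1382249441, nat_lit 1378354420, nat_lit 1376611174], nat_lit 1271250, nat_lit 1271250, nat_lit 1271250, nat_lit 1271250, nat_lit 0, nat_lit 1751500, [nat_lit 780000, nat_lit 1435000, nat_lit 1271250], [nat_lit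 23, nat_lit 40, nat_lit 40, nat_lit 80, nat_lit 12, nat_lit 456, nat_lit 225, nat_lit 11]⟩,
 ⟨nat_lit 0, nat_lit 2237, ⟨.ofNat (nat_lit 705063), .ofNat (nat_lit 762141), .ofNat (nat_lit 716031), .ofNat (nat_lit 773529), .ofNat (nat_lit 699935), .ofNat (nat_lit 749998), .ofNat (nat_lit 712015), .ofNat (nat_lit 762499)⟩, ⟨.ofNat (nat_lit 0), .ofNat (nat_lit 89742), .ofNat (nat_lit 0), .ofNat (nat_lit 100000), .ofNat (nat_lit 0), .ofNat (nat_lit 99999), .ofNat (nat_lit 0), .ofNat (nat_lit 100000)⟩⟩, [⟨nat_lit 3, nat_lit 100, nat_lit 44, nat_lit 64, nat_lit 172381043⟩, ⟨nat_lit 10, nat_lit 100, nat_lit 89, nat_lit 71, nat_lit 1768354⟩]⟩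
noncomputable def p119_l17 : Lf2 := ⟨nat_lit 0, nat_lit 20, [nat_lit 5, nat_lit 5, nat_lit 5, nat_lit 20], false, nat_lit 0, nat_lit 40, nat_lit 0, nat_lit 248, ⟨nat_lit 77, nat_lit 923, nat_lit 0, nat_lit 7, nat_lit 299, nat_lit 923, nat_lit 19, nat_lit 0, nat_lit 0, nat_lit 0, nat_lit 0, nat_lit 0, nat_lit 43008783, nat_lit 23991217, nat_lit 0, nat_lit 3261520, true, true⟩,
 nat_lit 0, nat_lit 0, nat_lit 940, nat_lit 0, nat_lit 2241, nat_lit 623, nat_lit 87, nat_lit 0, nat_lit 0, nat_lit 68, nat_lit 0, nat_lit 0, nat_lit 0, nat_lit 0, nat_lit 0, nat_lit 369200, nat_lit 0, nat_lit 0, [(nat_lit 28, [(nat_lit 1, nat_lit 923)])],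
 ⟨p119_k11, nat_lit 0, nat_lit 0, nat_lit 164, nat_lit 0, nat_lit 0, [nat_lit 716110801, nat_lit 552504400, nat_lit 608624000], [], [nat_lit 24755535920, nat_lit 25882748456, nat_lit 26347451048, nat_lit 27543699196, nat_lit 24536149902, nat_lit 25527850790, nat_lit 25954180156, nat_lit 26874016592], nat_lit 0, nat_lit 0, nat_lit 0, nat_lit 0, nat_lit 0, nat_lit 0, [], [nat_lit 20, nat_lit 40, nat_lit 40, nat_lit 80, nat_lit 16, nat_lit 215, nat_lit 10, nat_lit 7]⟩, ⟨p119_k7, nat_lit 0, nat_lit 0, nat_lit 1056, nat_lit 0, nat_lit 1841350, [nat_lit 252714000, nat_lit 481250000, nat_lit 914144000], [], [nat_lit 2468745662, nat_lit 2472832416, nat_lit 2545101287, nat_lit 2587064334, nat_lit 2072011989, nat_lit 2072540207, nat_lit 2073236901, nat_lit 2081846885], nat_lit 1271250, nat_lit 1271250, nat_lit 1271250, nat_lit 1271250, nat_lit 0, nat_lit 1751500, [nat_lit 780000, nat_lit 1435000, nat_lit 1271250], [nat_lit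 23, nat_lit 40, nat_lit 40, nat_lit 80, nat_lit 12, nat_lit 456, nat_lit 225, nat_lit 11]⟩,
 ⟨nat_lit 0, nat_lit 2237, ⟨.ofNat (nat_lit 716031), .ofNat (nat_lit 773529), .ofNat (nat_lit 726954), .ofNat (nat_lit 784917), .ofNat (nat_lit 712015), .ofNat (nat_lit 762499), .ofNat (nat_lit 724051), .ofNat (nat_lit 774999)⟩, ⟨.ofNat (nat_lit 0), .ofNat (nat_lit 89742), .ofNat (nat_lit 0), .ofNat (nat_lit 100000), .ofNat (nat_lit 0), .ofNat (nat_lit 99999), .ofNat (nat_lit 0), .ofNat (nat_lit 100000)⟩⟩, [⟨nat_lit 3, nat_lit 100, nat_lit 44, nat_lit 64, nat_lit 240110130⟩, ⟨nat_lit 10, nat_lit 100, nat_lit 89, nat_lit 71, nat_lit 4186329⟩]⟩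
noncomputable def p119_l18 : Lf2 := ⟨nat_lit 0, nat_lit 20, [nat_lit 5, nat_lit 5, nat_lit 5, nat_lit 20], true, nat_lit 40, nat_lit 80, nat_lit 0, nat_lit 300, ⟨nat_lit 0, nat_lit 1000, nat_lit 0, nat_lit 7, nat_lit 296, nat_lit 1000, nat_lit 54, nat_lit 0, nat_lit 0, nat_lit 0, nat_lit 0, nat_lit 0, nat_lit 42046589, nat_lit 23316762, nat_lit 1636649, nat_lit 3884537, true, true⟩,
 nat_lit 0, nat_lit 0, nat_lit 0, nat_lit 0, nat_lit 2206, nat_lit 0, nat_lit 33, nat_lit 0, nat_lit 0, nat_lit 0, nat_lit 0, nat_lit 0, nat_lit 0, nat_lit 0, nat_lit 0, nat_lit 400000, nat_lit 0, nat_lit 0, [(nat_lit 28, [(nat_lit 1, nat_lit 1000)])],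
 ⟨p119_k11, nat_lit 0, nat_lit 0, nat_lit 140, nat_lit 0, nat_lit 0, [nat_lit 697600000, nat_lit 324800000, nat_lit 138000000], [], [nat_lit 24417535897, nat_lit 25425235745, nat_lit 25853472221, nat_lit 26794316504, nat_lit 24159399873, nat_lit 25140231101, nat_lit 25564764153, nat_lit 26527674096], nat_lit 0, nat_lit 0, nat_lit 0, nat_lit 0, nat_lit 0, nat_lit 0, [], [nat_lit 20, nat_lit 40, nat_lit 40, nat_lit 80, nat_lit 16, nat_lit 226, nat_lit 20, nat_lit 7]⟩, C1.Rw.none,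
 ⟨nat_lit 0, nat_lit 2237, ⟨.ofNat (nat_lit 705063), .ofNat (nat_lit 762141), .ofNat (nat_lit 726954), .ofNat (nat_lit 784917), .ofNat (nat_lit 699935), .ofNat (nat_lit 749998), .ofNat (nat_lit 724051), .ofNat (nat_lit 774999)⟩, ⟨.ofNat (nat_lit 89742), .ofNat (nat_lit 146756), .ofNat (nat_lit 100000), .ofNat (nat_lit 192306), .ofNat (nat_lit 99999), .ofNat (nat_lit 149997), .ofNat (nat_lit 100000), .ofNat (nat_lit 199999)⟩⟩, []⟩
noncomputable def p119_l19 : Lf2 := ⟨nat_lit 0, nat_lit 20, [nat_lit 5, nat_lit 5, nat_lit 5, nat_lit 20], false, nat_lit 0, nat_lit 40, nat_lit 0, nat_lit 248, ⟨nat_lit 139, nat_lit 861, nat_lit 0, nat_lit 7, nat_lit 307, nat_lit 861, nat_lit 19, nat_lit 0, nat_lit 0, nat_lit 0, nat_lit 0, nat_lit 0, nat_lit 42213696, nat_lit 24786304, nat_lit 0, nat_lit 3294630, true, false⟩,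
 nat_lit 0, nat_lit 0, nat_lit 1421, nat_lit 0, nat_lit 2172, nat_lit 983, nat_lit 127, nat_lit 0, nat_lit 0, nat_lit 108, nat_lit 0, nat_lit 0, nat_lit 0, nat_lit 0, nat_lit 0, nat_lit 344400, nat_lit 0, nat_lit 0, [(nat_lit 28, [(nat_lit 1, nat_lit 861)])],
 ⟨p119_k11, nat_lit 0, nat_lit 0, nat_lit 158, nat_lit 0, nat_lit 0, [nat_lit 731015601, nat_lit 735850800, nat_lit 987568000], [], [nat_lit 24775047742, nat_lit 25278793034, nat_lit 26214321142, nat_lit 26759548224, nat_lit 24580674086, nat_lit 25071053934, nat_lit 25988720454, nat_lit 26447923937], nat_lit 0, nat_lit 0, nat_lit 0, nat_lit 0, nat_lit 0, nat_lit 0, [], [nat_lit 20, nat_lit 40, nat_lit 40, nat_lit 80, nat_lit 16, nat_lit 215, nat_lit 10, nat_lit 7]⟩, ⟨p119_k9, nat_lit 0, nat_lit 0, nat_lit 935, nat_lit 0, nat_lit 1709455, [nat_lit 456198000, nat_lit 868750000, nat_lit 1368038000], [], [nat_lit 4310963508, nat_lit 4347358968, nat_lit 4382666450,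 nat_lit 4544497692, nat_lit 3833436387, nat_lit 3853908148, nat_lit 3870629337, nat_lit 3887350526], nat_lit 1271250, nat_lit 1271250, nat_lit 1271250, nat_lit 1271250, nat_lit 0, nat_lit 1751500, [nat_lit 780000, nat_lit 1435000, nat_lit 1271250], [nat_lit 8, nat_lit 40, nat_lit 40, nat_lit 80, nat_lit 1, nat_lit 345, nat_lit 75, nat_lit 9]⟩,
 ⟨nat_lit 1581, nat_lit 2237, ⟨.ofNat (nat_lit 727846), .ofNat (nat_lit 784917), .ofNat (nat_lit 750574), .ofNat (nat_lit 807675), .ofNat (nat_lit 725790), .ofNat (nat_lit 780481), .ofNat (nat_lit 749059), .ofNat (nat_lit 803781)⟩, ⟨.ofNat (nat_lit 0), .ofNat (nat_lit 89742), .ofNat (nat_lit 0), .ofNat (nat_lit 100000), .ofNat (nat_lit 0), .ofNat (nat_lit 94935), .ofNat (nat_lit 0), .ofNat (nat_lit 100000)⟩⟩, [⟨nat_lit 22, nat_lit 87, nat_lit 100, nat_lit 44, nat_lit 25785655⟩]⟩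
noncomputable def p119_l20 : Lf2 := ⟨nat_lit 0, nat_lit 20, [nat_lit 5, nat_lit 5, nat_lit 5, nat_lit 20], true, nat_lit 8, nat_lit 40, nat_lit 0, nat_lit 248, ⟨nat_lit 0, nat_lit 1000, nat_lit 0, nat_lit 7, nat_lit 305, nat_lit 1000, nat_lit 24, nat_lit 0, nat_lit 0, nat_lit 0, nat_lit 0, nat_lit 0, nat_lit 41998842, nat_lit 24525497, nat_lit 475661, nat_lit 3531622, true, false⟩,
 nat_lit 0, nat_lit 0, nat_lit 0, nat_lit 0, nat_lit 2551, nat_lit 0, nat_lit 48, nat_lit 0, nat_lit 0, nat_lit 0, nat_lit 0, nat_lit 0, nat_lit 0, nat_lit 0, nat_lit 0, nat_lit 250000, nat_lit 0, nat_lit 0, [(nat_lit 28, [(nat_lit 0, nat_lit 1000)])],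
 ⟨p119_k12, nat_lit 0, nat_lit 0, nat_lit 145, nat_lit 0, nat_lit 0, [nat_lit 781600001, nat_lit 1046000001, nat_lit 1376400000], [], [nat_lit 25843730828, nat_lit 26531137120, nat_lit 27616722904, nat_lit 28243705333, nat_lit 25556747440, nat_lit 26066981341, nat_lit 26963141516, nat_lit 27574512436], nat_lit 0, nat_lit 0, nat_lit 0, nat_lit 0, nat_lit 0, nat_lit 0, [], [nat_lit 35, nat_lit 40, nat_lit 40, nat_lit 80, nat_lit 22, nat_lit 215, nat_lit 10, nat_lit 8]⟩, C1.Rw.none,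
 ⟨nat_lit 0, nat_lit 1582, ⟨.ofNat (nat_lit 725184), .ofNat (nat_lit 780481), .ofNat (nat_lit 747842), .ofNat (nat_lit 803773), .ofNat (nat_lit 724337), .ofNat (nat_lit 774999), .ofNat (nat_lit 748680), .ofNat (nat_lit 799976)⟩, ⟨.ofNat (nat_lit 20000), .ofNat (nat_lit 94935), .ofNat (nat_lit 20000), .ofNat (nat_lit 100000), .ofNat (nat_lit 20000), .ofNat (nat_lit 99999), .ofNat (nat_lit 20000), .ofNat (nat_lit 100000)⟩⟩, [⟨nat_lit 3, nat_lit 100, nat_lit 31, nat_lit 76, nat_lit 562323948⟩]⟩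
noncomputable def p119_l21 : Lf2 := ⟨nat_lit 0, nat_lit 20, [nat_lit 5, nat_lit 5, nat_lit 5, nat_lit 20], false, nat_lit 40, nat_lit 80, nat_lit 0, nat_lit 280, ⟨nat_lit 82, nat_lit 918, nat_lit 0, nat_lit 7, nat_lit 306, nat_lit 918, nat_lit 54, nat_lit 0, nat_lit 0, nat_lit 0, nat_lit 0, nat_lit 0, nat_lit 41137384, nat_lit 24247097, nat_lit 1615519, nat_lit 3917672, true, false⟩,
 nat_lit 0, nat_lit 0, nat_lit 836, nat_lit 0, nat_lit 2243, nat_lit 578, nat_lit 72, nat_lit 0, nat_lit 0, nat_lit 58, nat_lit 0, nat_lit 0, nat_lit 0, nat_lit 0, nat_lit 0, nat_lit 367200, nat_lit 0, nat_lit 0, [(nat_lit 28, [(nat_lit 1, nat_lit 918)])],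
 ⟨p119_k11, nat_lit 0, nat_lit 0, nat_lit 140, nat_lit 0, nat_lit 0, [nat_lit 717312801, nat_lit 567290401, nat_lit 639184000], [], [nat_lit 24499552668, nat_lit 25513291212, nat_lit 25940955890, nat_lit 26880061126, nat_lit 24227256596, nat_lit 25213894530, nat_lit 25637888936, nat_lit 26597149293], nat_lit 0, nat_lit 0, nat_lit 0, nat_lit 0, nat_lit 0, nat_lit 0, [], [nat_lit 20, nat_lit 40, nat_lit 40, nat_lit 80, nat_lit 16, nat_lit 226, nat_lit 20, nat_lit 7]⟩, ⟨p119_k9, nat_lit 0, nat_lit 0, nat_lit 1009, nat_lit 0, nat_lit 1852288, [nat_lit 269124000, nat_lit 512500000, nat_lit 807044000], [], [nat_lit 2649820290, nat_lit 2667699862, nat_lit 2682985850, nat_lit 2725305500, nat_lit 2373471632, nat_lit 2381407150, nat_lit 2387444782, nat_lit 2398953948], nat_lit 1271250, nat_lit 1271250, nat_lit 1271250, nat_lit 1271250, nat_lit 0, nat_lit 1977500, [nat_lit 780000, nat_lit 1435000, nat_lit 1271250], [nat_lit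 8, nat_lit 40, nat_lit 40, nat_lit 80, nat_lit 1, nat_lit 368, nat_lit 75, nat_lit 10]⟩,
 ⟨nat_lit 0, nat_lit 2237, ⟨.ofNat (nat_lit 726954), .ofNat (nat_lit 784917), .ofNat (nat_lit 748802), .ofNat (nat_lit 807594), .ofNat (nat_lit 724051), .ofNat (nat_lit 774999), .ofNat (nat_lit 748125), .ofNat (nat_lit 799902)⟩, ⟨.ofNat (nat_lit 89742), .ofNat (nat_lit 146756), .ofNat (nat_lit 100000), .ofNat (nat_lit 192306), .ofNat (nat_lit 99999), .ofNat (nat_lit 149997), .ofNat (nat_lit 100000), .ofNat (nat_lit 199999)⟩⟩, [⟨nat_lit 3, nat_lit 100, nat_lit 44, nat_lit 64, nat_lit 113062567⟩, ⟨nat_lit 22, nat_lit 90, nat_lit 100, nat_lit 74, nat_lit 12949460⟩]⟩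
noncomputable def b_V_900_700_10_3 : St := ⟨true, nat_lit 0, nat_lit 1, nat_lit 1, nat_lit 80, nat_lit 360, nat_lit 400, nat_lit 280, nat_lit 320, nat_lit 240, nat_lit 320, nat_lit 40, nat_lit 80, nat_lit 0, nat_lit 80, nat_lit 0, nat_lit 300, nat_lit 40, nat_lit 80, nat_lit 0, nat_lit 0, nat_lit 0, nat_lit 0⟩
theorem d_V_900_700_10_3 (h : EB TB.env) : Dead b_V_900_700_10_3 := chkB_sound0 h (T :=
(.spl (nat_lit 0) (nat_lit 380)
(.spl (nat_lit 1) (nat_lit 300)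
(.spl (nat_lit 2) (nat_lit 280)
(.spl (nat_lit 0) (nat_lit 370)
(.leaf p119_l0)
(.leaf p119_l1))
(.spl (nat_lit 3) (nat_lit 60)
(.trX (nat_lit 19) (nat_lit 99) (nat_lit 100) (nat_lit 77) (nat_lit 276) (.spl (nat_lit 0) (nat_lit 370)
(.leaf p119_l2)
(.leaf p119_l3)))
(.spl (nat_lit 1) (nat_lit 290)
(.spl (nat_lit 5) (nat_lit 160)
(.spl (nat_lit 1) (nat_lit 285)
(.leaf p119_l4)
(.leaf p119_l5))
(.trZ (nat_lit 22) (nat_lit 94) (nat_lit 100) (nat_lit 21) (nat_lit 4) (.spl (nat_lit 0) (nat_lit 370)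
(.leaf p119_l6)
(.leaf p119_l7))))
(.trX (nat_lit 19) (nat_lit 100) (nat_lit 100) (nat_lit 89) (nat_lit 292) (.spl (nat_lit 5) (nat_lit 160)
(.leaf p119_l8)
(.trZ (nat_lit 22) (nat_lit 94) (nat_lit 100) (nat_lit 21) (nat_lit 4) (.leaf p119_l9)))))))
(.trX (nat_lit 19) (nat_lit 94) (nat_lit 100) (nat_lit 87) (nat_lit 280) (.spl (nat_lit 3) (nat_lit 60)
(.trX (nat_lit 19) (nat_lit 90) (nat_lit 100) (nat_lit 74) (nat_lit 256) (.spl (nat_lit 0) (nat_lit 370)
(.leaf p119_l10)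
(.leaf p119_l11)))
(.spl (nat_lit 1) (nat_lit 310)
(.leaf p119_l12)
(.trX (nat_lit 19) (nat_lit 89) (nat_lit 100) (nat_lit 85) (nat_lit 268) (.leaf p119_l13))))))
(.spl (nat_lit 2) (nat_lit 280)
(.spl (nat_lit 0) (nat_lit 390)
(.leaf p119_l14)
(.trZ (nat_lit 3) (nat_lit 100) (nat_lit 52) (nat_lit 53) (nat_lit 8) (.leaf p119_l15)))
(.spl (nat_lit 1) (nat_lit 300)
(.spl (nat_lit 4) (nat_lit 40)
(.trX (nat_lit 22) (nat_lit 94) (nat_lit 100) (nat_lit 62) (nat_lit 248) (.spl (nat_lit 1) (nat_lit 290)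
(.leaf p119_l16)
(.leaf p119_l17)))
(.leaf p119_l18))
(.trX (nat_lit 19) (nat_lit 94) (nat_lit 100) (nat_lit 87) (nat_lit 280) (.spl (nat_lit 4) (nat_lit 40)
(.trX (nat_lit 22) (nat_lit 94) (nat_lit 100) (nat_lit 62) (nat_lit 248) (.spl (nat_lit 0) (nat_lit 390)
(.leaf p119_l19)
(.trZ (nat_lit 3) (nat_lit 100) (nat_lit 52) (nat_lit 53) (nat_lit 8) (.leaf p119_l20))))
(.leaf p119_l21))))))) (by decide +kernel)
noncomputable def p119_l22 : Lf2 := ⟨nat_lit 0, nat_lit 15, [nat_lit 30, nat_lit 5, nat_lit 5, nat_lit 20], false, nat_lit 0, nat_lit 80, nat_lit 0, nat_lit 260, ⟨nat_lit 154, nat_lit 846, nat_lit 0, nat_lit 8, nat_lit 322, nat_lit 846, nat_lit 31, nat_lit 0, nat_lit 0, nat_lit 0, nat_lit 0, nat_lit 0, nat_lit 40665045, nat_lit 26334955, nat_lit 0, nat_lit 3350483, true, true⟩,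
 nat_lit 0, nat_lit 0, nat_lit 1730, nat_lit 0, nat_lit 2700, nat_lit 1100, nat_lit 0, nat_lit 0, nat_lit 0, nat_lit 151, nat_lit 0, nat_lit 0, nat_lit 0, nat_lit 0, nat_lit 0, nat_lit 486600, nat_lit 0, nat_lit 0, [(nat_lit 25, [(nat_lit 1, nat_lit 599), (nat_lit 2, nat_lit 247)])],
 ⟨p119_k13, nat_lit 0, nat_lit 0, nat_lit 169, nat_lit 0, nat_lit 0, [nat_lit 724563600, nat_lit 1190050401, nat_lit 580000400], [], [nat_lit 26842013200, nat_lit 27284579800, nat_lit 28433138400, nat_lit 29014985900, nat_lit 26012178400, nat_lit 26424759500, nat_lit 27455820802, nat_lit 27868842202], nat_lit 0, nat_lit 0, nat_lit 0, nat_lit 0, nat_lit 0, nat_lit 0, [], [nat_lit 131, nat_lit 40, nat_lit 40, nat_lit 80, nat_lit 64, nat_lit 226, nat_lit 20, nat_lit 7]⟩, ⟨p119_k14, nat_lit 0, nat_lit 0, nat_lit 777, nat_lit 0, nat_lit 1372607, [nat_lit 505428000, nat_lit 721952000, nat_lit 1515668000], [], [nat_lit 5212467062, nat_lit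 5232714542, nat_lit 5426975950, nat_lit 5476407838, nat_lit 4578186690, nat_lit 4588772425, nat_lit 4661801705, nat_lit 4675436007], nat_lit 1271250, nat_lit 1271250, nat_lit 1271250, nat_lit 1271250, nat_lit 0, nat_lit 1836250, [nat_lit 780000, nat_lit 1100000, nat_lit 2127500], [nat_lit 42, nat_lit 40, nat_lit 40, nat_lit 80, nat_lit 13, nat_lit 308, nat_lit 75, nat_lit 8]⟩,
 ⟨nat_lit 2738, nat_lit 3163, ⟨.ofNat (nat_lit 771478), .ofNat (nat_lit 832432), .ofNat (nat_lit 782555), .ofNat (nat_lit 843509), .ofNat (nat_lit 766852), .ofNat (nat_lit 825913), .ofNat (nat_lit 778060), .ofNat (nat_lit 837122)⟩, ⟨.ofNat (nat_lit 0), .ofNat (nat_lit 139899), .ofNat (nat_lit 0), .ofNat (nat_lit 162054), .ofNat (nat_lit 0), .ofNat (nat_lit 143475), .ofNat (nat_lit 0), .ofNat (nat_lit 165893)⟩⟩, [⟨nat_lit 10, nat_lit 100, nat_lit 58, nat_lit 64, nat_lit 28357414⟩]⟩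
noncomputable def p119_l23 : Lf2 := ⟨nat_lit 0, nat_lit 15, [nat_lit 30, nat_lit 5, nat_lit 5, nat_lit 20], false, nat_lit 0, nat_lit 80, nat_lit 0, nat_lit 260, ⟨nat_lit 190, nat_lit 810, nat_lit 0, nat_lit 8, nat_lit 326, nat_lit 810, nat_lit 31, nat_lit 0, nat_lit 0, nat_lit 0, nat_lit 0, nat_lit 0, nat_lit 40224208, nat_lit 26775792, nat_lit 0, nat_lit 3364323, true, true⟩,
 nat_lit 0, nat_lit 0, nat_lit 1909, nat_lit 0, nat_lit 2760, nat_lit 1267, nat_lit 172, nat_lit 0, nat_lit 0, nat_lit 201, nat_lit 0, nat_lit 0, nat_lit 0, nat_lit 0, nat_lit 0, nat_lit 324000, nat_lit 0, nat_lit 0, [(nat_lit 25, [(nat_lit 1, nat_lit 810)])],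
 ⟨p119_k13, nat_lit 0, nat_lit 0, nat_lit 169, nat_lit 0, nat_lit 0, [nat_lit 738092000, nat_lit 1209040001, nat_lit 1928812000], [], [nat_lit 26935137120, nat_lit 27381111000, nat_lit 28594602720, nat_lit 29181598520, nat_lit 26048981600, nat_lit 26464628880, nat_lit 27485444320, nat_lit 27879955922], nat_lit 0, nat_lit 0, nat_lit 0, nat_lit 0, nat_lit 0, nat_lit 0, [], [nat_lit 131, nat_lit 40, nat_lit 40, nat_lit 80, nat_lit 64, nat_lit 226, nat_lit 20, nat_lit 7]⟩, ⟨p119_k15, nat_lit 0, nat_lit 0, nat_lit 770, nat_lit 0, nat_lit 1356389, [nat_lit 623580000, nat_lit 890720000, nat_lit 1869980000], [], [nat_lit 6195797447, nat_lit 6217465003, nat_lit 6492149810, nat_lit 6556781747, nat_lit 5551082673, nat_lit 5568738567, nat_lit 5671253821, nat_lit 5697632268], nat_lit 1271250, nat_lit 1271250, nat_lit 1271250, nat_lit 1271250, nat_lit 0, nat_lit 1836250, [nat_lit 780000, nat_lit 1100000, nat_lit 2127500], [nat_lit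 42, nat_lit 40, nat_lit 40, nat_lit 80, nat_lit 13, nat_lit 308, nat_lit 75, nat_lit 8]⟩,
 ⟨nat_lit 2738, nat_lit 3163, ⟨.ofNat (nat_lit 782555), .ofNat (nat_lit 843509), .ofNat (nat_lit 793629), .ofNat (nat_lit 854586), .ofNat (nat_lit 778060), .ofNat (nat_lit 837122), .ofNat (nat_lit 789265), .ofNat (nat_lit 848331)⟩, ⟨.ofNat (nat_lit 0), .ofNat (nat_lit 139899), .ofNat (nat_lit 0), .ofNat (nat_lit 162054), .ofNat (nat_lit 0), .ofNat (nat_lit 143475), .ofNat (nat_lit 0), .ofNat (nat_lit 165893)⟩⟩, [⟨nat_lit 10, nat_lit 100, nat_lit 58, nat_lit 64, nat_lit 43090506⟩]⟩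
noncomputable def p119_l24 : Lf2 := ⟨nat_lit 0, nat_lit 15, [nat_lit 30, nat_lit 5, nat_lit 5, nat_lit 20], false, nat_lit 0, nat_lit 80, nat_lit 0, nat_lit 260, ⟨nat_lit 86, nat_lit 914, nat_lit 0, nat_lit 8, nat_lit 322, nat_lit 914, nat_lit 31, nat_lit 0, nat_lit 0, nat_lit 0, nat_lit 0, nat_lit 0, nat_lit 40606518, nat_lit 26393482, nat_lit 0, nat_lit 3352372, true, true⟩,
 nat_lit 0, nat_lit 0, nat_lit 1090, nat_lit 0, nat_lit 2693, nat_lit 693, nat_lit 78, nat_lit 0, nat_lit 0, nat_lit 47, nat_lit 0, nat_lit 0, nat_lit 0, nat_lit 0, nat_lit 0, nat_lit 228500, nat_lit 0, nat_lit 0, [(nat_lit 25, [(nat_lit 0, nat_lit 914)])],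
 ⟨p119_k5, nat_lit 0, nat_lit 0, nat_lit 157, nat_lit 0, nat_lit 0, [nat_lit 778964000, nat_lit 1533335200, nat_lit 1971226400], [], [nat_lit 27393061891, nat_lit 27640736969, nat_lit 29063993823, nat_lit 29291236443, nat_lit 26686158870, nat_lit 26920530921, nat_lit 28274109876, nat_lit 28489785240], nat_lit 0, nat_lit 0, nat_lit 0, nat_lit 0, nat_lit 0, nat_lit 0, [], [nat_lit 35, nat_lit 40, nat_lit 40, nat_lit 80, nat_lit 22, nat_lit 226, nat_lit 20, nat_lit 8]⟩, ⟨p119_k4, nat_lit 0, nat_lit 0, nat_lit 858, nat_lit 0, nat_lit 1518640, [nat_lit 282252000, nat_lit 537500000, nat_lit 846412000], [], [nat_lit 3225998642, nat_lit 3239352669, nat_lit 3276089291, nat_lit 3287988083, nat_lit 2775774883, nat_lit 2785424328, nat_lit 2813959848, nat_lit 2820637226], nat_lit 1271250, nat_lit 1271250, nat_lit 1271250, nat_lit 1271250, nat_lit 0, nat_lit 1836250, [nat_lit 780000, nat_lit 1435000, nat_lit 1271250], [nat_lit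 8, nat_lit 40, nat_lit 40, nat_lit 80, nat_lit 1, nat_lit 330, nat_lit 75, nat_lit 9]⟩,
 ⟨nat_lit 2500, nat_lit 2739, ⟨.ofNat (nat_lit 766852), .ofNat (nat_lit 825913), .ofNat (nat_lit 789269), .ofNat (nat_lit 848331), .ofNat (nat_lit 764515), .ofNat (nat_lit 822579), .ofNat (nat_lit 787095), .ofNat (nat_lit 845160)⟩, ⟨.ofNat (nat_lit 0), .ofNat (nat_lit 143475), .ofNat (nat_lit 0), .ofNat (nat_lit 165893), .ofNat (nat_lit 0), .ofNat (nat_lit 145160), .ofNat (nat_lit 0), .ofNat (nat_lit 167740)⟩⟩, [⟨nat_lit 22, nat_lit 76, nat_lit 100, nat_lit 43, nat_lit 17444386⟩]⟩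
noncomputable def p119_l25 : Lf2 := ⟨nat_lit 0, nat_lit 15, [nat_lit 30, nat_lit 5, nat_lit 5, nat_lit 20], false, nat_lit 0, nat_lit 80, nat_lit 0, nat_lit 260, ⟨nat_lit 89, nat_lit 911, nat_lit 0, nat_lit 8, nat_lit 321, nat_lit 911, nat_lit 31, nat_lit 0, nat_lit 0, nat_lit 0, nat_lit 0, nat_lit 0, nat_lit 40716825, nat_lit 26283175, nat_lit 0, nat_lit 3348798, true, true⟩,
 nat_lit 0, nat_lit 0, nat_lit 1139, nat_lit 0, nat_lit 2513, nat_lit 724, nat_lit 123, nat_lit 0, nat_lit 0, nat_lit 44, nat_lit 0, nat_lit 0, nat_lit 0, nat_lit 0, nat_lit 0, nat_lit 227750, nat_lit 0, nat_lit 0, [(nat_lit 25, [(nat_lit 0, nat_lit 911)])],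
 ⟨p119_k16, nat_lit 0, nat_lit 0, nat_lit 160, nat_lit 0, nat_lit 0, [nat_lit 779486001, nat_lit 1539074801, nat_lit 1980143600], [], [nat_lit 27224571962, nat_lit 27465916889, nat_lit 28840328196, nat_lit 29062159745, nat_lit 26630268264, nat_lit 26858807055, nat_lit 28167539643, nat_lit 28378220367], nat_lit 0, nat_lit 0, nat_lit 0, nat_lit 0, nat_lit 0, nat_lit 0, [], [nat_lit 35, nat_lit 40, nat_lit 40, nat_lit 80, nat_lit 22, nat_lit 226, nat_lit 20, nat_lit 8]⟩, ⟨p119_k4, nat_lit 0, nat_lit 0, nat_lit 888, nat_lit 0, nat_lit 1596274, [nat_lit 292098000, nat_lit 556250000, nat_lit 875938000], [], [nat_lit 3356090640, nat_lit 3366506550, nat_lit 3397784040, nat_lit 3449716504, nat_lit 2840431181, nat_lit 2845640336, nat_lit 2869440595, nat_lit 2871901639], nat_lit 1271250, nat_lit 1271250, nat_lit 1271250, nat_lit 1271250, nat_lit 0, nat_lit 1836250, [nat_lit 780000, nat_lit 1435000, nat_lit 1271250], [nat_lit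 8, nat_lit 40, nat_lit 40, nat_lit 80, nat_lit 1, nat_lit 337, nat_lit 75, nat_lit 9]⟩,
 ⟨nat_lit 2236, nat_lit 2500, ⟨.ofNat (nat_lit 764515), .ofNat (nat_lit 822579), .ofNat (nat_lit 787095), .ofNat (nat_lit 845160), .ofNat (nat_lit 762142), .ofNat (nat_lit 819158), .ofNat (nat_lit 784917), .ofNat (nat_lit 841932)⟩, ⟨.ofNat (nat_lit 0), .ofNat (nat_lit 145160), .ofNat (nat_lit 0), .ofNat (nat_lit 167740), .ofNat (nat_lit 0), .ofNat (nat_lit 146758), .ofNat (nat_lit 0), .ofNat (nat_lit 169532)⟩⟩, [⟨nat_lit 10, nat_lit 100, nat_lit 58, nat_lit 64, nat_lit 9569907⟩]⟩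
noncomputable def p119_l26 : Lf2 := ⟨nat_lit 0, nat_lit 20, [nat_lit 5, nat_lit 5, nat_lit 5, nat_lit 20], false, nat_lit 0, nat_lit 80, nat_lit 0, nat_lit 160, ⟨nat_lit 268, nat_lit 732, nat_lit 0, nat_lit 8, nat_lit 322, nat_lit 732, nat_lit 35, nat_lit 0, nat_lit 0, nat_lit 0, nat_lit 0, nat_lit 0, nat_lit 40665045, nat_lit 26334955, nat_lit 0, nat_lit 3350483, true, true⟩,
 nat_lit 0, nat_lit 0, nat_lit 3220, nat_lit 0, nat_lit 2729, nat_lit 2049, nat_lit 51, nat_lit 0, nat_lit 0, nat_lit 191, nat_lit 0, nat_lit 0, nat_lit 0, nat_lit 0, nat_lit 0, nat_lit 470400, nat_lit 0, nat_lit 0, [(nat_lit 25, [(nat_lit 1, nat_lit 436), (nat_lit 2, nat_lit 296)])],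
 ⟨p119_k0, nat_lit 0, nat_lit 0, nat_lit 161, nat_lit 0, nat_lit 0, [nat_lit 1054363201, nat_lit 1203749867, nat_lit 922106311], [], [nat_lit 26992422131, nat_lit 27464129500, nat_lit 28621324135, nat_lit 29095515333, nat_lit 26273009935, nat_lit 26719764274, nat_lit 27820729903, nat_lit 28240302185], nat_lit 0, nat_lit 0, nat_lit 0, nat_lit 0, nat_lit 0, nat_lit 0, [], [nat_lit 20, nat_lit 40, nat_lit 40, nat_lit 80, nat_lit 16, nat_lit 226, nat_lit 20, nat_lit 7]⟩, ⟨p119_k1, nat_lit 0, nat_lit 0, nat_lit 731, nat_lit 0, nat_lit 1131287, [nat_lit 879576000, nat_lit 1675000000, nat_lit 3181696000], [], [nat_lit 9788960861, nat_lit 9835270210, nat_lit 10056683457, nat_lit 10108972125, nat_lit 8510524037, nat_lit 8551241622, nat_lit 8794466104, nat_lit 8840375963], nat_lit 1271250, nat_lit 1271250, nat_lit 1271250, nat_lit 1271250, nat_lit 0, nat_lit 1100001, [nat_lit 780000, nat_lit 1435000, nat_lit 1271250], [nat_lit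 23, nat_lit 40, nat_lit 40, nat_lit 80, nat_lit 12, nat_lit 345, nat_lit 125, nat_lit 8]⟩,
 ⟨nat_lit 2738, nat_lit 3163, ⟨.ofNat (nat_lit 771478), .ofNat (nat_lit 832432), .ofNat (nat_lit 782555), .ofNat (nat_lit 843509), .ofNat (nat_lit 766852), .ofNat (nat_lit 825913), .ofNat (nat_lit 778060), .ofNat (nat_lit 837122)⟩, ⟨.ofNat (nat_lit 0), .ofNat (nat_lit 162054), .ofNat (nat_lit 0), .ofNat (nat_lit 184209), .ofNat (nat_lit 0), .ofNat (nat_lit 165893), .ofNat (nat_lit 0), .ofNat (nat_lit 188310)⟩⟩, []⟩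
noncomputable def p119_l27 : Lf2 := ⟨nat_lit 0, nat_lit 20, [nat_lit 5, nat_lit 5, nat_lit 5, nat_lit 20], false, nat_lit 4, nat_lit 80, nat_lit 0, nat_lit 160, ⟨nat_lit 440, nat_lit 560, nat_lit 0, nat_lit 8, nat_lit 320, nat_lit 560, nat_lit 38, nat_lit 0, nat_lit 0, nat_lit 0, nat_lit 0, nat_lit 0, nat_lit 40251730, nat_lit 25815456, nat_lit 932814, nat_lit 3754658, true, true⟩,
 nat_lit 0, nat_lit 0, nat_lit 4691, nat_lit 0, nat_lit 2377, nat_lit 2985, nat_lit 398, nat_lit 0, nat_lit 0, nat_lit 520, nat_lit 0, nat_lit 0, nat_lit 0, nat_lit 0, nat_lit 0, nat_lit 224000, nat_lit 0, nat_lit 0, [(nat_lit 25, [(nat_lit 1, nat_lit 560)])],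
 ⟨p119_k17, nat_lit 0, nat_lit 0, nat_lit 171, nat_lit 0, nat_lit 0, [nat_lit 799792000, nat_lit 1463040001, nat_lit 3262512000], [], [nat_lit 26613495960, nat_lit 27069244898, nat_lit 28165326796, nat_lit 28598197378, nat_lit 26197172913, nat_lit 26630026431, nat_lit 27676801462, nat_lit 28094262243], nat_lit 0, nat_lit 0, nat_lit 0, nat_lit 0, nat_lit 0, nat_lit 0, [], [nat_lit 131, nat_lit 40, nat_lit 40, nat_lit 80, nat_lit 64, nat_lit 226, nat_lit 20, nat_lit 7]⟩, ⟨p119_k18, nat_lit 0, nat_lit 0, nat_lit 817, nat_lit 0, nat_lit 1286529, [nat_lit 1444080000, nat_lit 2062720000, nat_lit 5223680000], [], [nat_lit 15411497380, nat_lit 15472400810, nat_lit 15820492560, nat_lit 15926930225, nat_lit 13933520220, nat_lit 13980539925, nat_lit 14211731340, nat_lit 14255739835], nat_lit 1271250, nat_lit 1271250, nat_lit 1271250, nat_lit 1271250, nat_lit 0, nat_lit 1100001, [nat_lit 780000, nat_lit 1100000, nat_lit 2470000],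 [nat_lit 158, nat_lit 40, nat_lit 40, nat_lit 80, nat_lit 65, nat_lit 345, nat_lit 125, nat_lit 8]⟩,
 ⟨nat_lit 2236, nat_lit 2739, ⟨.ofNat (nat_lit 766852), .ofNat (nat_lit 825913), .ofNat (nat_lit 778061), .ofNat (nat_lit 837122), .ofNat (nat_lit 762142), .ofNat (nat_lit 819158), .ofNat (nat_lit 773529), .ofNat (nat_lit 830545)⟩, ⟨.ofNat (nat_lit 10000), .ofNat (nat_lit 165893), .ofNat (nat_lit 10000), .ofNat (nat_lit 188310), .ofNat (nat_lit 10000), .ofNat (nat_lit 169532), .ofNat (nat_lit 10000), .ofNat (nat_lit 192306)⟩⟩, [⟨nat_lit 13, nat_lit 48, nat_lit 71, nat_lit 100, nat_lit 33596762⟩, ⟨nat_lit 10, nat_lit 100, nat_lit 73, nat_lit 55, nat_lit 30773495⟩]⟩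
noncomputable def p119_l28 : Lf2 := ⟨nat_lit 0, nat_lit 20, [nat_lit 5, nat_lit 5, nat_lit 5, nat_lit 20], false, nat_lit 0, nat_lit 80, nat_lit 0, nat_lit 160, ⟨nat_lit 543, nat_lit 457, nat_lit 0, nat_lit 8, nat_lit 325, nat_lit 457, nat_lit 35, nat_lit 0, nat_lit 0, nat_lit 0, nat_lit 0, nat_lit 0, nat_lit 40332085, nat_lit 26667915, nat_lit 0, nat_lit 3361020, true, true⟩,
 nat_lit 0, nat_lit 0, nat_lit 5274, nat_lit 0, nat_lit 2868, nat_lit 3502, nat_lit 438, nat_lit 0, nat_lit 0, nat_lit 650, nat_lit 0, nat_lit 0, nat_lit 0, nat_lit 0, nat_lit 0, nat_lit 182800, nat_lit 0, nat_lit 0, [(nat_lit 25, [(nat_lit 1, nat_lit 457)])],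
 ⟨p119_k19, nat_lit 0, nat_lit 0, nat_lit 176, nat_lit 0, nat_lit 0, [nat_lit 825212400, nat_lit 1567688001, nat_lit 3811996400], [], [nat_lit 27176445962, nat_lit 28144953826, nat_lit 28885238496, nat_lit 30077763976, nat_lit 26388324426, nat_lit 27304673546, nat_lit 27971815162, nat_lit 28821730603], nat_lit 0, nat_lit 0, nat_lit 0, nat_lit 0, nat_lit 0, nat_lit 0, [], [nat_lit 131, nat_lit 40, nat_lit 40, nat_lit 80, nat_lit 64, nat_lit 226, nat_lit 20, nat_lit 7]⟩, ⟨p119_k20, nat_lit 0, nat_lit 0, nat_lit 810, nat_lit 0, nat_lit 1272222, [nat_lit 1782126000, nat_lit 2545584000, nat_lit 6446496000], [], [nat_lit 18310951950, nat_lit 18463100984, nat_lit 19111542280, nat_lit 19249516116, nat_lit 16328328015, nat_lit 16387862316, nat_lit 16663773590, nat_lit 16714168042], nat_lit 1271250, nat_lit 1271250, nat_lit 1271250, nat_lit 1271250, nat_lit 0, nat_lit 1100001, [nat_lit 780000, nat_lit 1100000, nat_lit 2470000],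 [nat_lit 158, nat_lit 40, nat_lit 40, nat_lit 80, nat_lit 65, nat_lit 345, nat_lit 125, nat_lit 8]⟩,
 ⟨nat_lit 2236, nat_lit 3163, ⟨.ofNat (nat_lit 782556), .ofNat (nat_lit 843509), .ofNat (nat_lit 793619), .ofNat (nat_lit 854586), .ofNat (nat_lit 773529), .ofNat (nat_lit 830545), .ofNat (nat_lit 784902), .ofNat (nat_lit 841932)⟩, ⟨.ofNat (nat_lit 0), .ofNat (nat_lit 162054), .ofNat (nat_lit 0), .ofNat (nat_lit 184209), .ofNat (nat_lit 0), .ofNat (nat_lit 169532), .ofNat (nat_lit 0), .ofNat (nat_lit 192306)⟩⟩, []⟩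
noncomputable def p119_l29 : Lf2 := ⟨nat_lit 0, nat_lit 20, [nat_lit 5, nat_lit 5, nat_lit 5, nat_lit 20], false, nat_lit 16, nat_lit 80, nat_lit 160, nat_lit 260, ⟨nat_lit 202, nat_lit 798, nat_lit 0, nat_lit 8, nat_lit 324, nat_lit 798, nat_lit 43, nat_lit 0, nat_lit 0, nat_lit 0, nat_lit 0, nat_lit 0, nat_lit 39691917, nat_lit 26184623, nat_lit 1123460, nat_lit 3831897, true, true⟩,
 nat_lit 0, nat_lit 0, nat_lit 2556, nat_lit 0, nat_lit 2974, nat_lit 1626, nat_lit 86, nat_lit 0, nat_lit 0, nat_lit 134, nat_lit 0, nat_lit 0, nat_lit 0, nat_lit 0, nat_lit 0, nat_lit 319200, nat_lit 0, nat_lit 0, [(nat_lit 25, [(nat_lit 1, nat_lit 798)])],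
 ⟨p119_k0, nat_lit 0, nat_lit 0, nat_lit 152, nat_lit 0, nat_lit 0, [nat_lit 863626401, nat_lit 1462666400, nat_lit 1992829600], [], [nat_lit 27201078693, nat_lit 27683266471, nat_lit 28858926994, nat_lit 29355614112, nat_lit 26490637432, nat_lit 26951869066, nat_lit 28080544440, nat_lit 28504596324], nat_lit 0, nat_lit 0, nat_lit 0, nat_lit 0, nat_lit 0, nat_lit 0, [], [nat_lit 20, nat_lit 40, nat_lit 40, nat_lit 80, nat_lit 16, nat_lit 226, nat_lit 20, nat_lit 7]⟩, ⟨p119_k1, nat_lit 0, nat_lit 0, nat_lit 669, nat_lit 0, nat_lit 1202104, [nat_lit 662964000, nat_lit 1262500000, nat_lit 2398144000], [], [nat_lit 6110659298, nat_lit 6163983050, nat_lit 6274969234, nat_lit 6318198486, nat_lit 6056610576, nat_lit 6117289055, nat_lit 6323086736, nat_lit 6446552083], nat_lit 1271250, nat_lit 1271250, nat_lit 1271250, nat_lit 1271250, nat_lit 1100001, nat_lit 1956250, [nat_lit 780000, nat_lit 1435000, nat_lit 1271250],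 [nat_lit 23, nat_lit 40, nat_lit 40, nat_lit 80, nat_lit 12, nat_lit 373, nat_lit 150, nat_lit 8]⟩,
 ⟨nat_lit 2738, nat_lit 3163, ⟨.ofNat (nat_lit 771478), .ofNat (nat_lit 832432), .ofNat (nat_lit 793629), .ofNat (nat_lit 854586), .ofNat (nat_lit 766852), .ofNat (nat_lit 825913), .ofNat (nat_lit 789265), .ofNat (nat_lit 848331)⟩, ⟨.ofNat (nat_lit 40000), .ofNat (nat_lit 162054), .ofNat (nat_lit 40000), .ofNat (nat_lit 184209), .ofNat (nat_lit 40000), .ofNat (nat_lit 165893), .ofNat (nat_lit 40000), .ofNat (nat_lit 188310)⟩⟩, [⟨nat_lit 22, nat_lit 72, nat_lit 100, nat_lit 65, nat_lit 105579340⟩]⟩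
noncomputable def p119_l30 : Lf2 := ⟨nat_lit 0, nat_lit 20, [nat_lit 5, nat_lit 5, nat_lit 5, nat_lit 20], false, nat_lit 16, nat_lit 80, nat_lit 160, nat_lit 260, ⟨nat_lit 231, nat_lit 769, nat_lit 0, nat_lit 8, nat_lit 322, nat_lit 769, nat_lit 44, nat_lit 0, nat_lit 0, nat_lit 0, nat_lit 0, nat_lit 0, nat_lit 39832444, nat_lit 26018221, nat_lit 1149335, nat_lit 3835198, true, true⟩,
 nat_lit 0, nat_lit 0, nat_lit 2930, nat_lit 0, nat_lit 2579, nat_lit 1864, nat_lit 309, nat_lit 0, nat_lit 0, nat_lit 154, nat_lit 0, nat_lit 0, nat_lit 0, nat_lit 0, nat_lit 0, nat_lit 192250, nat_lit 0, nat_lit 0, [(nat_lit 25, [(nat_lit 0, nat_lit 769)])],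
 ⟨p119_k2, nat_lit 0, nat_lit 0, nat_lit 154, nat_lit 0, nat_lit 0, [nat_lit 804194000, nat_lit 1810749201, nat_lit 3072492000], [], [nat_lit 26566061021, nat_lit 26794683378, nat_lit 28339659548, nat_lit 28623175064, nat_lit 26053776120, nat_lit 26272721465, nat_lit 27541894413, nat_lit 27743953320], nat_lit 0, nat_lit 0, nat_lit 0, nat_lit 0, nat_lit 0, nat_lit 0, [], [nat_lit 20, nat_lit 40, nat_lit 40, nat_lit 80, nat_lit 16, nat_lit 226, nat_lit 20, nat_lit 7]⟩, ⟨p119_k1, nat_lit 0, nat_lit 0, nat_lit 696, nat_lit 0, nat_lit 1276929, [nat_lit 758142000, nat_lit 1443750000, nat_lit 2742432000], [], [nat_lit 6958273286, nat_lit 7019200148, nat_lit 7146211690, nat_lit 7200063784, nat_lit 6903456852, nat_lit 6972811701, nat_lit 7221092370, nat_lit 7362367173], nat_lit 1271250, nat_lit 1271250, nat_lit 1271250, nat_lit 1271250, nat_lit 1100001, nat_lit 1956250, [nat_lit 780000, nat_lit 1435000, nat_lit 1271250],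 [nat_lit 23, nat_lit 40, nat_lit 40, nat_lit 80, nat_lit 12, nat_lit 373, nat_lit 150, nat_lit 8]⟩,
 ⟨nat_lit 2500, nat_lit 2739, ⟨.ofNat (nat_lit 766852), .ofNat (nat_lit 825913), .ofNat (nat_lit 789269), .ofNat (nat_lit 848331), .ofNat (nat_lit 764515), .ofNat (nat_lit 822579), .ofNat (nat_lit 787095), .ofNat (nat_lit 845160)⟩, ⟨.ofNat (nat_lit 40000), .ofNat (nat_lit 165893), .ofNat (nat_lit 40000), .ofNat (nat_lit 188310), .ofNat (nat_lit 40000), .ofNat (nat_lit 167740), .ofNat (nat_lit 40000), .ofNat (nat_lit 190321)⟩⟩, [⟨nat_lit 22, nat_lit 72, nat_lit 100, nat_lit 74, nat_lit 106334489⟩]⟩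
noncomputable def p119_l31 : Lf2 := ⟨nat_lit 0, nat_lit 20, [nat_lit 5, nat_lit 5, nat_lit 5, nat_lit 20], false, nat_lit 16, nat_lit 80, nat_lit 160, nat_lit 260, ⟨nat_lit 223, nat_lit 777, nat_lit 0, nat_lit 8, nat_lit 321, nat_lit 777, nat_lit 44, nat_lit 0, nat_lit 0, nat_lit 0, nat_lit 0, nat_lit 0, nat_lit 39928243, nat_lit 25905454, nat_lit 1166303, nat_lit 3837147, true, true⟩,
 nat_lit 0, nat_lit 0, nat_lit 2828, nat_lit 0, nat_lit 2426, nat_lit 1799, nat_lit 296, nat_lit 0, nat_lit 0, nat_lit 149, nat_lit 0, nat_lit 0, nat_lit 0, nat_lit 0, nat_lit 0, nat_lit 194250, nat_lit 0, nat_lit 0, [(nat_lit 25, [(nat_lit 0, nat_lit 777)])],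
 ⟨p119_k21, nat_lit 0, nat_lit 0, nat_lit 155, nat_lit 0, nat_lit 0, [nat_lit 802802001, nat_lit 1795443601, nat_lit 3039436000], [], [nat_lit 26493913576, nat_lit 26717705187, nat_lit 28224195388, nat_lit 28501208083, nat_lit 26057133372, nat_lit 26271558255, nat_lit 27503999289, nat_lit 27702197547], nat_lit 0, nat_lit 0, nat_lit 0, nat_lit 0, nat_lit 0, nat_lit 0, [], [nat_lit 20, nat_lit 40, nat_lit 40, nat_lit 80, nat_lit 16, nat_lit 226, nat_lit 20, nat_lit 7]⟩, ⟨p119_k1, nat_lit 0, nat_lit 0, nat_lit 724, nat_lit 0, nat_lit 1353418, [nat_lit 731886000, nat_lit 1393750000, nat_lit 2647456000], [], [nat_lit 6716280327, nat_lit 6775102275, nat_lit 6897706191, nat_lit 6947943292, nat_lit 6666590424, nat_lit 6733546783, nat_lit 6968053964, nat_lit 7104427905], nat_lit 1271250, nat_lit 1271250, nat_lit 1271250, nat_lit 1271250, nat_lit 1100001, nat_lit 1956250, [nat_lit 780000, nat_lit 1435000, nat_lit 1271250],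 [nat_lit 23, nat_lit 40, nat_lit 40, nat_lit 80, nat_lit 12, nat_lit 373, nat_lit 150, nat_lit 8]⟩,
 ⟨nat_lit 2236, nat_lit 2500, ⟨.ofNat (nat_lit 764515), .ofNat (nat_lit 822579), .ofNat (nat_lit 787095), .ofNat (nat_lit 845160), .ofNat (nat_lit 762142), .ofNat (nat_lit 819158), .ofNat (nat_lit 784917), .ofNat (nat_lit 841932)⟩, ⟨.ofNat (nat_lit 40000), .ofNat (nat_lit 167740), .ofNat (nat_lit 40000), .ofNat (nat_lit 190321), .ofNat (nat_lit 40000), .ofNat (nat_lit 169532), .ofNat (nat_lit 40000), .ofNat (nat_lit 192306)⟩⟩, [⟨nat_lit 22, nat_lit 72, nat_lit 100, nat_lit 74, nat_lit 102626650⟩]⟩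
noncomputable def p119_l32 : Lf2 := ⟨nat_lit 0, nat_lit 15, [nat_lit 30, nat_lit 5, nat_lit 5, nat_lit 20], false, nat_lit 0, nat_lit 80, nat_lit 0, nat_lit 200, ⟨nat_lit 119, nat_lit 881, nat_lit 0, nat_lit 9, nat_lit 341, nat_lit 881, nat_lit 30, nat_lit 0, nat_lit 0, nat_lit 0, nat_lit 0, nat_lit 0, nat_lit 38839902, nat_lit 28160098, nat_lit 0, nat_lit 3401942, true, true⟩,
 nat_lit 0, nat_lit 0, nat_lit 1494, nat_lit 0, nat_lit 2615, nat_lit 950, nat_lit 114, nat_lit 0, nat_lit 0, nat_lit 65, nat_lit 0, nat_lit 0, nat_lit 0, nat_lit 0, nat_lit 0, nat_lit 352400, nat_lit 0, nat_lit 0, [(nat_lit 25, [(nat_lit 1, nat_lit 881)])],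
 ⟨p119_k3, nat_lit 0, nat_lit 0, nat_lit 173, nat_lit 0, nat_lit 0, [nat_lit 855890801, nat_lit 1273437467, nat_lit 1550041200], [], [nat_lit 28631373541, nat_lit 28829403324, nat_lit 29423492671, nat_lit 29625680834, nat_lit 27815594881, nat_lit 28010631194, nat_lit 28619533079, nat_lit 28814043064], nat_lit 0, nat_lit 0, nat_lit 0, nat_lit 0, nat_lit 0, nat_lit 0, [], [nat_lit 20, nat_lit 40, nat_lit 40, nat_lit 80, nat_lit 16, nat_lit 226, nat_lit 20, nat_lit 7]⟩, ⟨p119_k4, nat_lit 0, nat_lit 0, nat_lit 751, nat_lit 0, nat_lit 1296100, [nat_lit 390558000, nat_lit 743750000, nat_lit 1171198000], [], [nat_lit 4494972094, nat_lit 4504611818, nat_lit 4604090600, nat_lit 4640689878, nat_lit 3855619723, nat_lit 3863891096, nat_lit 3900607489, nat_lit 3908963490], nat_lit 1271250, nat_lit 1271250, nat_lit 1271250, nat_lit 1271250, nat_lit 0, nat_lit 1412500, [nat_lit 780000, nat_lit 1435000, nat_lit 1271250], [nat_lit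 8, nat_lit 40, nat_lit 40, nat_lit 80, nat_lit 1, nat_lit 297, nat_lit 50, nat_lit 8]⟩,
 ⟨nat_lit 2958, nat_lit 3163, ⟨.ofNat (nat_lit 832432), .ofNat (nat_lit 862908), .ofNat (nat_lit 843509), .ofNat (nat_lit 873986), .ofNat (nat_lit 829191), .ofNat (nat_lit 859201), .ofNat (nat_lit 840329), .ofNat (nat_lit 870340)⟩, ⟨.ofNat (nat_lit 0), .ofNat (nat_lit 139899), .ofNat (nat_lit 0), .ofNat (nat_lit 162054), .ofNat (nat_lit 0), .ofNat (nat_lit 141719), .ofNat (nat_lit 0), .ofNat (nat_lit 163996)⟩⟩, [⟨nat_lit 13, nat_lit 64, nat_lit 54, nat_lit 100, nat_lit 225019944⟩, ⟨nat_lit 22, nat_lit 57, nat_lit 100, nat_lit 64, nat_lit 428611⟩]⟩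
noncomputable def p119_l33 : Lf2 := ⟨nat_lit 0, nat_lit 15, [nat_lit 30, nat_lit 5, nat_lit 5, nat_lit 20], false, nat_lit 0, nat_lit 80, nat_lit 0, nat_lit 200, ⟨nat_lit 110, nat_lit 890, nat_lit 0, nat_lit 9, nat_lit 338, nat_lit 890, nat_lit 31, nat_lit 0, nat_lit 0, nat_lit 0, nat_lit 0, nat_lit 0, nat_lit 39087462, nat_lit 27912538, nat_lit 0, nat_lit 3395861, true, true⟩,
 nat_lit 0, nat_lit 0, nat_lit 1385, nat_lit 0, nat_lit 2621, nat_lit 881, nat_lit 207, nat_lit 0, nat_lit 0, nat_lit 60, nat_lit 0, nat_lit 0, nat_lit 0, nat_lit 0, nat_lit 0, nat_lit 222500, nat_lit 0, nat_lit 0, [(nat_lit 25, [(nat_lit 0, nat_lit 890)])],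
 ⟨p119_k22, nat_lit 0, nat_lit 0, nat_lit 173, nat_lit 0, nat_lit 0, [nat_lit 783140001, nat_lit 1579252001, nat_lit 2572520000], [], [nat_lit 28810926065, nat_lit 29024695056, nat_lit 29487606856, nat_lit 29693995866, nat_lit 28075671198, nat_lit 28278789891, nat_lit 28718874877, nat_lit 28915217431], nat_lit 0, nat_lit 0, nat_lit 0, nat_lit 0, nat_lit 0, nat_lit 0, [], [nat_lit 20, nat_lit 40, nat_lit 40, nat_lit 80, nat_lit 16, nat_lit 226, nat_lit 20, nat_lit 7]⟩, ⟨p119_k4, nat_lit 0, nat_lit 0, nat_lit 780, nat_lit 0, nat_lit 1372607, [nat_lit 361020000, nat_lit 687500000, nat_lit 1082620000], [], [nat_lit 4141455084, nat_lit 4163328760, nat_lit 4229758428, nat_lit 4263666442, nat_lit 3547576100, nat_lit 3555189052, nat_lit 3580852439, nat_lit 3587542205], nat_lit 1271250, nat_lit 1271250, nat_lit 1271250, nat_lit 1271250, nat_lit 0, nat_lit 1412500, [nat_lit 780000, nat_lit 1435000, nat_lit 1271250], [nat_lit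 8, nat_lit 40, nat_lit 40, nat_lit 80, nat_lit 1, nat_lit 304, nat_lit 50, nat_lit 8]⟩,
 ⟨nat_lit 2738, nat_lit 2959, ⟨.ofNat (nat_lit 829191), .ofNat (nat_lit 853199), .ofNat (nat_lit 840329), .ofNat (nat_lit 864338), .ofNat (nat_lit 825913), .ofNat (nat_lit 849538), .ofNat (nat_lit 837122), .ofNat (nat_lit 860747)⟩, ⟨.ofNat (nat_lit 0), .ofNat (nat_lit 141719), .ofNat (nat_lit 0), .ofNat (nat_lit 163996), .ofNat (nat_lit 0), .ofNat (nat_lit 143475), .ofNat (nat_lit 0), .ofNat (nat_lit 165893)⟩⟩, [⟨nat_lit 13, nat_lit 60, nat_lit 58, nat_lit 100, nat_lit 251160490⟩]⟩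
noncomputable def p119_l34 : Lf2 := ⟨nat_lit 0, nat_lit 15, [nat_lit 30, nat_lit 5, nat_lit 5, nat_lit 20], false, nat_lit 0, nat_lit 80, nat_lit 0, nat_lit 200, ⟨nat_lit 93, nat_lit 907, nat_lit 0, nat_lit 9, nat_lit 335, nat_lit 907, nat_lit 31, nat_lit 0, nat_lit 0, nat_lit 0, nat_lit 0, nat_lit 0, nat_lit 39402834, nat_lit 27597166, nat_lit 0, nat_lit 3387708, true, true⟩,
 nat_lit 0, nat_lit 0, nat_lit 1183, nat_lit 0, nat_lit 2775, nat_lit 752, nat_lit 32, nat_lit 0, nat_lit 0, nat_lit 52, nat_lit 0, nat_lit 0, nat_lit 0, nat_lit 0, nat_lit 0, nat_lit 226750, nat_lit 0, nat_lit 0, [(nat_lit 25, [(nat_lit 0, nat_lit 907)])],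
 ⟨p119_k5, nat_lit 0, nat_lit 0, nat_lit 164, nat_lit 0, nat_lit 0, [nat_lit 780182001, nat_lit 1546727601, nat_lit 1992033200], [], [nat_lit 29521244629, nat_lit 29971222754, nat_lit 30049303422, nat_lit 30487366589, nat_lit 28768932754, nat_lit 29195384304, nat_lit 29269766517, nat_lit 29685309970], nat_lit 0, nat_lit 0, nat_lit 0, nat_lit 0, nat_lit 0, nat_lit 0, [], [nat_lit 35, nat_lit 40, nat_lit 40, nat_lit 80, nat_lit 22, nat_lit 226, nat_lit 20, nat_lit 8]⟩, ⟨p119_k4, nat_lit 0, nat_lit 0, nat_lit 857, nat_lit 0, nat_lit 1530318, [nat_lit 305226000, nat_lit 581250000, nat_lit 915306000], [], [nat_lit 3519747856, nat_lit 3528728657, nat_lit 3545004969, nat_lit 3563671163, nat_lit 3052047900, nat_lit 3057386221, nat_lit 3070982869, nat_lit 3075781399], nat_lit 1271250, nat_lit 1271250, nat_lit 1271250, nat_lit 1271250, nat_lit 0, nat_lit 1412500, [nat_lit 780000, nat_lit 1435000, nat_lit 1271250], [nat_lit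 8, nat_lit 40, nat_lit 40, nat_lit 80, nat_lit 1, nat_lit 322, nat_lit 50, nat_lit 8]⟩,
 ⟨nat_lit 2236, nat_lit 2739, ⟨.ofNat (nat_lit 825913), .ofNat (nat_lit 843632), .ofNat (nat_lit 837122), .ofNat (nat_lit 854840), .ofNat (nat_lit 819158), .ofNat (nat_lit 836262), .ofNat (nat_lit 830545), .ofNat (nat_lit 847650)⟩, ⟨.ofNat (nat_lit 0), .ofNat (nat_lit 143475), .ofNat (nat_lit 0), .ofNat (nat_lit 165893), .ofNat (nat_lit 0), .ofNat (nat_lit 146758), .ofNat (nat_lit 0), .ofNat (nat_lit 169532)⟩⟩, [⟨nat_lit 13, nat_lit 53, nat_lit 65, nat_lit 100, nat_lit 350939493⟩, ⟨nat_lit 22, nat_lit 64, nat_lit 100, nat_lit 51, nat_lit 8350524⟩]⟩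
noncomputable def p119_l35 : Lf2 := ⟨nat_lit 0, nat_lit 20, [nat_lit 5, nat_lit 5, nat_lit 5, nat_lit 20], false, nat_lit 0, nat_lit 80, nat_lit 0, nat_lit 200, ⟨nat_lit 241, nat_lit 759, nat_lit 0, nat_lit 9, nat_lit 340, nat_lit 759, nat_lit 35, nat_lit 0, nat_lit 0, nat_lit 0, nat_lit 0, nat_lit 0, nat_lit 38906709, nat_lit 28093291, nat_lit 0, nat_lit 3400329, true, true⟩,
 nat_lit 0, nat_lit 0, nat_lit 2816, nat_lit 0, nat_lit 2855, nat_lit 1792, nat_lit 136, nat_lit 0, nat_lit 0, nat_lit 160, nat_lit 0, nat_lit 0, nat_lit 0, nat_lit 0, nat_lit 0, nat_lit 303600, nat_lit 0, nat_lit 0, [(nat_lit 25, [(nat_lit 1, nat_lit 759)])],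
 ⟨p119_k0, nat_lit 0, nat_lit 0, nat_lit 176, nat_lit 0, nat_lit 0, [nat_lit 867261201, nat_lit 1551581200, nat_lit 2200886800], [], [nat_lit 29406240481, nat_lit 29813563486, nat_lit 30220886491, nat_lit 30610500961, nat_lit 28442690863, nat_lit 28851800118, nat_lit 29260909373, nat_lit 29652736898], nat_lit 0, nat_lit 0, nat_lit 0, nat_lit 0, nat_lit 0, nat_lit 0, [], [nat_lit 20, nat_lit 40, nat_lit 40, nat_lit 80, nat_lit 16, nat_lit 226, nat_lit 20, nat_lit 7]⟩, ⟨p119_k1, nat_lit 0, nat_lit 0, nat_lit 727, nat_lit 0, nat_lit 1131287, [nat_lit 790962000, nat_lit 1506250000, nat_lit 2861152000], [], [nat_lit 9356944944, nat_lit 9392040250, nat_lit 9497286254, nat_lit 9528979953, nat_lit 8157915924, nat_lit 8181601318, nat_lit 8279493427, nat_lit 8313411567], nat_lit 1271250, nat_lit 1271250, nat_lit 1271250, nat_lit 1271250, nat_lit 0, nat_lit 1412500, [nat_lit 780000, nat_lit 1435000, nat_lit 1271250], [nat_lit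 23, nat_lit 40, nat_lit 40, nat_lit 80, nat_lit 12, nat_lit 345, nat_lit 125, nat_lit 8]⟩,
 ⟨nat_lit 2738, nat_lit 3163, ⟨.ofNat (nat_lit 832432), .ofNat (nat_lit 862908), .ofNat (nat_lit 843509), .ofNat (nat_lit 873986), .ofNat (nat_lit 825913), .ofNat (nat_lit 855444), .ofNat (nat_lit 837122), .ofNat (nat_lit 866653)⟩, ⟨.ofNat (nat_lit 0), .ofNat (nat_lit 162054), .ofNat (nat_lit 0), .ofNat (nat_lit 184209), .ofNat (nat_lit 0), .ofNat (nat_lit 165893), .ofNat (nat_lit 0), .ofNat (nat_lit 188310)⟩⟩, [⟨nat_lit 13, nat_lit 62, nat_lit 56, nat_lit 100, nat_lit 184279767⟩, ⟨nat_lit 22, nat_lit 57, nat_lit 100, nat_lit 64, nat_lit 19970581⟩]⟩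
noncomputable def p119_l36 : Lf2 := ⟨nat_lit 0, nat_lit 20, [nat_lit 5, nat_lit 5, nat_lit 5, nat_lit 20], false, nat_lit 4, nat_lit 80, nat_lit 0, nat_lit 200, ⟨nat_lit 417, nat_lit 583, nat_lit 0, nat_lit 9, nat_lit 335, nat_lit 583, nat_lit 38, nat_lit 0, nat_lit 0, nat_lit 0, nat_lit 0, nat_lit 0, nat_lit 38815333, nat_lit 27273375, nat_lit 911292, nat_lit 3790825, true, true⟩,
 nat_lit 0, nat_lit 0, nat_lit 4523, nat_lit 0, nat_lit 2368, nat_lit 2878, nat_lit 384, nat_lit 0, nat_lit 0, nat_lit 479, nat_lit 0, nat_lit 0, nat_lit 0, nat_lit 0, nat_lit 0, nat_lit 233200, nat_lit 0, nat_lit 0, [(nat_lit 25, [(nat_lit 1, nat_lit 583)])],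
 ⟨p119_k17, nat_lit 0, nat_lit 0, nat_lit 178, nat_lit 0, nat_lit 0, [nat_lit 794115600, nat_lit 1439672001, nat_lit 3139811600], [], [nat_lit 28145789562, nat_lit 28571691173, nat_lit 28665248853, nat_lit 29200641706, nat_lit 27663167225, nat_lit 28070764529, nat_lit 28150882826, nat_lit 28599068336], nat_lit 0, nat_lit 0, nat_lit 0, nat_lit 0, nat_lit 0, nat_lit 0, [], [nat_lit 131, nat_lit 40, nat_lit 40, nat_lit 80, nat_lit 64, nat_lit 226, nat_lit 20, nat_lit 7]⟩, ⟨p119_k18, nat_lit 0, nat_lit 0, nat_lit 812, nat_lit 0, nat_lit 1286529, [nat_lit 1368594000, nat_lit 1954896000, nat_lit 4950624000], [], [nat_lit 15151600158, nat_lit 15252625110, nat_lit 15373158897, nat_lit 15468889890, nat_lit 13159404595, nat_lit 13191608575, nat_lit 13253096475, nat_lit 13305990988], nat_lit 1271250, nat_lit 1271250, nat_lit 1271250, nat_lit 1271250, nat_lit 0, nat_lit 1412500, [nat_lit 780000, nat_lit 1100000, nat_lit 2470000],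 [nat_lit 158, nat_lit 40, nat_lit 40, nat_lit 80, nat_lit 65, nat_lit 345, nat_lit 125, nat_lit 8]⟩,
 ⟨nat_lit 2236, nat_lit 2739, ⟨.ofNat (nat_lit 825913), .ofNat (nat_lit 843632), .ofNat (nat_lit 837122), .ofNat (nat_lit 854840), .ofNat (nat_lit 819158), .ofNat (nat_lit 836262), .ofNat (nat_lit 830545), .ofNat (nat_lit 847650)⟩, ⟨.ofNat (nat_lit 10000), .ofNat (nat_lit 165893), .ofNat (nat_lit 10000), .ofNat (nat_lit 188310), .ofNat (nat_lit 10000), .ofNat (nat_lit 169532), .ofNat (nat_lit 10000), .ofNat (nat_lit 192306)⟩⟩, [⟨nat_lit 13, nat_lit 53, nat_lit 65, nat_lit 100, nat_lit 1159637751⟩, ⟨nat_lit 22, nat_lit 64, nat_lit 100, nat_lit 51, nat_lit 40543241⟩]⟩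
noncomputable def p119_l37 : Lf2 := ⟨nat_lit 0, nat_lit 15, [nat_lit 30, nat_lit 5, nat_lit 5, nat_lit 20], false, nat_lit 0, nat_lit 80, nat_lit 0, nat_lit 200, ⟨nat_lit 349, nat_lit 651, nat_lit 0, nat_lit 9, nat_lit 346, nat_lit 651, nat_lit 31, nat_lit 0, nat_lit 0, nat_lit 0, nat_lit 0, nat_lit 0, nat_lit 38366731, nat_lit 28633269, nat_lit 0, nat_lit 3412785, true, true⟩,
 nat_lit 0, nat_lit 0, nat_lit 3315, nat_lit 0, nat_lit 2918, nat_lit 2201, nat_lit 247, nat_lit 0, nat_lit 0, nat_lit 372, nat_lit 0, nat_lit 0, nat_lit 0, nat_lit 0, nat_lit 0, nat_lit 260400, nat_lit 0, nat_lit 0, [(nat_lit 25, [(nat_lit 1, nat_lit 651)])],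
 ⟨p119_k13, nat_lit 0, nat_lit 0, nat_lit 183, nat_lit 0, nat_lit 0, [nat_lit 777333201, nat_lit 1370584001, nat_lit 2777045200], [], [nat_lit 29019792096, nat_lit 29620345086, nat_lit 30461119273, nat_lit 31022590625, nat_lit 27861047777, nat_lit 28262053059, nat_lit 28855915974, nat_lit 29258084904], nat_lit 0, nat_lit 0, nat_lit 0, nat_lit 0, nat_lit 0, nat_lit 0, [], [nat_lit 131, nat_lit 40, nat_lit 40, nat_lit 80, nat_lit 64, nat_lit 226, nat_lit 20, nat_lit 7]⟩, ⟨p119_k15, nat_lit 0, nat_lit 0, nat_lit 766, nat_lit 0, nat_lit 1356389, [nat_lit 1145418000, nat_lit 1636112000, nat_lit 3434858000], [], [nat_lit 12356583804, nat_lit 12391292160, nat_lit 12518995874, nat_lit 12565476258, nat_lit 11233634980, nat_lit 11267912160, nat_lit 11390954360, nat_lit 11421732971], nat_lit 1271250, nat_lit 1271250, nat_lit 1271250, nat_lit 1271250, nat_lit 0, nat_lit 1412500, [nat_lit 780000, nat_lit 1100000, nat_lit 2127500],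 [nat_lit 42, nat_lit 40, nat_lit 40, nat_lit 80, nat_lit 13, nat_lit 302, nat_lit 50, nat_lit 8]⟩,
 ⟨nat_lit 2738, nat_lit 3163, ⟨.ofNat (nat_lit 843509), .ofNat (nat_lit 880081), .ofNat (nat_lit 854586), .ofNat (nat_lit 891158), .ofNat (nat_lit 837122), .ofNat (nat_lit 872559), .ofNat (nat_lit 848331), .ofNat (nat_lit 883768)⟩, ⟨.ofNat (nat_lit 0), .ofNat (nat_lit 139899), .ofNat (nat_lit 0), .ofNat (nat_lit 162054), .ofNat (nat_lit 0), .ofNat (nat_lit 143475), .ofNat (nat_lit 0), .ofNat (nat_lit 165893)⟩⟩, [⟨nat_lit 13, nat_lit 64, nat_lit 52, nat_lit 100, nat_lit 70618534⟩, ⟨nat_lit 22, nat_lit 55, nat_lit 100, nat_lit 65, nat_lit 72772441⟩]⟩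
noncomputable def p119_l38 : Lf2 := ⟨nat_lit 0, nat_lit 15, [nat_lit 30, nat_lit 5, nat_lit 5, nat_lit 20], false, nat_lit 0, nat_lit 80, nat_lit 0, nat_lit 200, ⟨nat_lit 104, nat_lit 896, nat_lit 0, nat_lit 9, nat_lit 342, nat_lit 896, nat_lit 31, nat_lit 0, nat_lit 0, nat_lit 0, nat_lit 0, nat_lit 0, nat_lit 38743943, nat_lit 28256057, nat_lit 0, nat_lit 3404224, true, true⟩,
 nat_lit 0, nat_lit 0, nat_lit 1167, nat_lit 0, nat_lit 2772, nat_lit 774, nat_lit 30, nat_lit 0, nat_lit 0, nat_lit 59, nat_lit 0, nat_lit 0, nat_lit 0, nat_lit 0, nat_lit 0, nat_lit 224000, nat_lit 0, nat_lit 0, [(nat_lit 25, [(nat_lit 0, nat_lit 896)])],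
 ⟨p119_k5, nat_lit 0, nat_lit 0, nat_lit 167, nat_lit 0, nat_lit 0, [nat_lit 782096001, nat_lit 1567772801, nat_lit 2024729600], [], [nat_lit 29601379500, nat_lit 30051182320, nat_lit 30481141474, nat_lit 30919933645, nat_lit 28851109680, nat_lit 29277399944, nat_lit 29685523370, nat_lit 30093646796], nat_lit 0, nat_lit 0, nat_lit 0, nat_lit 0, nat_lit 0, nat_lit 0, [], [nat_lit 35, nat_lit 40, nat_lit 40, nat_lit 80, nat_lit 22, nat_lit 226, nat_lit 20, nat_lit 8]⟩, ⟨p119_k23, nat_lit 0, nat_lit 0, nat_lit 844, nat_lit 0, nat_lit 1500840, [nat_lit 341328000, nat_lit 650000000, nat_lit 1023568000], [], [nat_lit 3956933076, nat_lit 3964862436, nat_lit 3995120273, nat_lit 4002021554, nat_lit 3481984392, nat_lit 3488770670, nat_lit 3516313529, nat_lit 3522159252], nat_lit 1271250, nat_lit 1271250, nat_lit 1271250, nat_lit 1271250, nat_lit 0, nat_lit 1412500, [nat_lit 780000, nat_lit 1435000, nat_lit 1271250], [nat_lit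 8, nat_lit 40, nat_lit 40, nat_lit 80, nat_lit 1, nat_lit 321, nat_lit 50, nat_lit 8]⟩,
 ⟨nat_lit 2236, nat_lit 2739, ⟨.ofNat (nat_lit 837122), .ofNat (nat_lit 866653), .ofNat (nat_lit 848331), .ofNat (nat_lit 877861), .ofNat (nat_lit 830545), .ofNat (nat_lit 859053), .ofNat (nat_lit 841932), .ofNat (nat_lit 870440)⟩, ⟨.ofNat (nat_lit 0), .ofNat (nat_lit 143475), .ofNat (nat_lit 0), .ofNat (nat_lit 165893), .ofNat (nat_lit 0), .ofNat (nat_lit 146758), .ofNat (nat_lit 0), .ofNat (nat_lit 169532)⟩⟩, [⟨nat_lit 13, nat_lit 55, nat_lit 61, nat_lit 100, nat_lit 312550335⟩, ⟨nat_lit 22, nat_lit 61, nat_lit 100, nat_lit 55, nat_lit 12887114⟩]⟩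
noncomputable def p119_l39 : Lf2 := ⟨nat_lit 0, nat_lit 20, [nat_lit 5, nat_lit 5, nat_lit 5, nat_lit 20], false, nat_lit 0, nat_lit 80, nat_lit 0, nat_lit 200, ⟨nat_lit 434, nat_lit 566, nat_lit 0, nat_lit 9, nat_lit 344, nat_lit 566, nat_lit 35, nat_lit 0, nat_lit 0, nat_lit 0, nat_lit 0, nat_lit 0, nat_lit 38501722, nat_lit 28498278, nat_lit 0, nat_lit 3409796, true, true⟩,
 nat_lit 0, nat_lit 0, nat_lit 4273, nat_lit 0, nat_lit 3002, nat_lit 2837, nat_lit 266, nat_lit 0, nat_lit 0, nat_lit 507, nat_lit 0, nat_lit 0, nat_lit 0, nat_lit 0, nat_lit 0, nat_lit 226400, nat_lit 0, nat_lit 0, [(nat_lit 25, [(nat_lit 1, nat_lit 566)])],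
 ⟨p119_k19, nat_lit 0, nat_lit 0, nat_lit 188, nat_lit 0, nat_lit 0, [nat_lit 798311200, nat_lit 1456944000, nat_lit 3230503200], [], [nat_lit 29586853432, nat_lit 30461363364, nat_lit 30704467608, nat_lit 31840252167, nat_lit 28378427864, nat_lit 29180729184, nat_lit 29348391661, nat_lit 30143460084], nat_lit 0, nat_lit 0, nat_lit 0, nat_lit 0, nat_lit 0, nat_lit 0, [], [nat_lit 131, nat_lit 40, nat_lit 40, nat_lit 80, nat_lit 64, nat_lit 226, nat_lit 20, nat_lit 7]⟩, ⟨p119_k20, nat_lit 0, nat_lit 0, nat_lit 805, nat_lit 0, nat_lit 1272222, [nat_lit 1424388000, nat_lit 2034592000, nat_lit 5152448000], [], [nat_lit 15432064691, nat_lit 15536720356, nat_lit 16035467698, nat_lit 16202828708, nat_lit 13125384146, nat_lit 13160724309, nat_lit 13492575440, nat_lit 13625485627], nat_lit 1271250, nat_lit 1271250, nat_lit 1271250, nat_lit 1271250, nat_lit 0, nat_lit 1412500, [nat_lit 780000, nat_lit 1100000, nat_lit 2470000],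 [nat_lit 158, nat_lit 40, nat_lit 40, nat_lit 80, nat_lit 65, nat_lit 345, nat_lit 125, nat_lit 8]⟩,
 ⟨nat_lit 2236, nat_lit 3163, ⟨.ofNat (nat_lit 843509), .ofNat (nat_lit 880081), .ofNat (nat_lit 854586), .ofNat (nat_lit 891158), .ofNat (nat_lit 830545), .ofNat (nat_lit 864754), .ofNat (nat_lit 841932), .ofNat (nat_lit 876141)⟩, ⟨.ofNat (nat_lit 0), .ofNat (nat_lit 162054), .ofNat (nat_lit 0), .ofNat (nat_lit 184209), .ofNat (nat_lit 0), .ofNat (nat_lit 169532), .ofNat (nat_lit 0), .ofNat (nat_lit 192306)⟩⟩, [⟨nat_lit 13, nat_lit 49, nat_lit 68, nat_lit 100, nat_lit 495995941⟩, ⟨nat_lit 22, nat_lit 55, nat_lit 100, nat_lit 65, nat_lit 22534109⟩]⟩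
noncomputable def b_V_900_700_10_4 : St := ⟨true, nat_lit 0, nat_lit 1, nat_lit 1, nat_lit 80, nat_lit 360, nat_lit 380, nat_lit 280, nat_lit 300, nat_lit 320, nat_lit 384, nat_lit 40, nat_lit 80, nat_lit 0, nat_lit 80, nat_lit 0, nat_lit 260, nat_lit 40, nat_lit 80, nat_lit 0, nat_lit 0, nat_lit 0, nat_lit 0⟩
theorem d_V_900_700_10_4 (h : EB TB.env) : Dead b_V_900_700_10_4 := chkB_sound0 h (T :=
(.spl (nat_lit 2) (nat_lit 360)
(.spl (nat_lit 3) (nat_lit 60)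
(.spl (nat_lit 0) (nat_lit 370)
(.spl (nat_lit 1) (nat_lit 290)
(.leaf p119_l22)
(.leaf p119_l23))
(.spl (nat_lit 0) (nat_lit 375)
(.leaf p119_l24)
(.leaf p119_l25)))
(.spl (nat_lit 5) (nat_lit 160)
(.spl (nat_lit 1) (nat_lit 290)
(.spl (nat_lit 0) (nat_lit 370)
(.leaf p119_l26)
(.trZ (nat_lit 3) (nat_lit 100) (nat_lit 74) (nat_lit 33) (nat_lit 4) (.leaf p119_l27)))
(.leaf p119_l28))
(.trZ (nat_lit 22) (nat_lit 82) (nat_lit 100) (nat_lit 44) (nat_lit 16) (.spl (nat_lit 0) (nat_lit 370)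
(.leaf p119_l29)
(.spl (nat_lit 0) (nat_lit 375)
(.leaf p119_l30)
(.leaf p119_l31))))))
(.trX (nat_lit 22) (nat_lit 60) (nat_lit 100) (nat_lit 80) (nat_lit 200) (.spl (nat_lit 1) (nat_lit 290)
(.trX (nat_lit 13) (nat_lit 67) (nat_lit 50) (nat_lit 100) (nat_lit 380) (.spl (nat_lit 3) (nat_lit 60)
(.spl (nat_lit 0) (nat_lit 370)
(.spl (nat_lit 0) (nat_lit 365)
(.leaf p119_l32)
(.trX (nat_lit 13) (nat_lit 63) (nat_lit 54) (nat_lit 100) (nat_lit 376) (.leaf p119_l33)))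
(.trX (nat_lit 13) (nat_lit 59) (nat_lit 58) (nat_lit 100) (nat_lit 372) (.leaf p119_l34)))
(.spl (nat_lit 0) (nat_lit 370)
(.leaf p119_l35)
(.trX (nat_lit 13) (nat_lit 59) (nat_lit 58) (nat_lit 100) (nat_lit 372) (.trZ (nat_lit 3) (nat_lit 100) (nat_lit 74) (nat_lit 33) (nat_lit 4) (.leaf p119_l36))))))
(.spl (nat_lit 3) (nat_lit 60)
(.spl (nat_lit 0) (nat_lit 370)
(.leaf p119_l37)
(.trX (nat_lit 13) (nat_lit 61) (nat_lit 55) (nat_lit 100) (nat_lit 380) (.leaf p119_l38)))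
(.leaf p119_l39)))))) (by decide +kernel)
noncomputable def p119_l40 : Lf2 := ⟨nat_lit 0, nat_lit 15, [nat_lit 30, nat_lit 5, nat_lit 5, nat_lit 20], true, nat_lit 0, nat_lit 40, nat_lit 0, nat_lit 200, ⟨nat_lit 0, nat_lit 1000, nat_lit 0, nat_lit 8, nat_lit 316, nat_lit 1000, nat_lit 19, nat_lit 0, nat_lit 0, nat_lit 0, nat_lit 0, nat_lit 0, nat_lit 41302028, nat_lit 25697972, nat_lit 0, nat_lit 3328880, true, true⟩,
 nat_lit 0, nat_lit 0, nat_lit 0, nat_lit 0, nat_lit 2150, nat_lit 0, nat_lit 0, nat_lit 0, nat_lit 0, nat_lit 0, nat_lit 0, nat_lit 0, nat_lit 0, nat_lit 0, nat_lit 0, nat_lit 386050, nat_lit 0, nat_lit 0, [(nat_lit 28, [(nat_lit 0, nat_lit 93), (nat_lit 1, nat_lit 907)])],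
 ⟨p119_k24, nat_lit 0, nat_lit 0, nat_lit 167, nat_lit 0, nat_lit 0, [nat_lit 705412001, nat_lit 391871601, nat_lit 307228400], [], [nat_lit 26425305704, nat_lit 27385113804, nat_lit 28025638604, nat_lit 29091667800, nat_lit 26282707904, nat_lit 27191228604, nat_lit 27819078904, nat_lit 28757959506], nat_lit 0, nat_lit 0, nat_lit 0, nat_lit 0, nat_lit 0, nat_lit 0, [], [nat_lit 35, nat_lit 40, nat_lit 40, nat_lit 80, nat_lit 22, nat_lit 215, nat_lit 10, nat_lit 8]⟩, C1.Rw.none,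
 ⟨nat_lit 0, nat_lit 2237, ⟨.ofNat (nat_lit 762141), .ofNat (nat_lit 819154), .ofNat (nat_lit 773529), .ofNat (nat_lit 830542), .ofNat (nat_lit 749998), .ofNat (nat_lit 799995), .ofNat (nat_lit 762499), .ofNat (nat_lit 812496)⟩, ⟨.ofNat (nat_lit 0), .ofNat (nat_lit 89742), .ofNat (nat_lit 0), .ofNat (nat_lit 100000), .ofNat (nat_lit 0), .ofNat (nat_lit 99999), .ofNat (nat_lit 0), .ofNat (nat_lit 100000)⟩⟩, [⟨nat_lit 13, nat_lit 49, nat_lit 68, nat_lit 100, nat_lit 367102624⟩, ⟨nat_lit 3, nat_lit 100, nat_lit 73, nat_lit 32, nat_lit 34756860⟩]⟩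
noncomputable def p119_l41 : Lf2 := ⟨nat_lit 0, nat_lit 20, [nat_lit 5, nat_lit 5, nat_lit 5, nat_lit 20], false, nat_lit 8, nat_lit 40, nat_lit 0, nat_lit 200, ⟨nat_lit 134, nat_lit 866, nat_lit 0, nat_lit 8, nat_lit 317, nat_lit 866, nat_lit 24, nat_lit 0, nat_lit 0, nat_lit 0, nat_lit 0, nat_lit 0, nat_lit 40793389, nat_lit 25731633, nat_lit 474978, nat_lit 3576477, true, true⟩,
 nat_lit 0, nat_lit 0, nat_lit 1664, nat_lit 0, nat_lit 2206, nat_lit 1058, nat_lit 83, nat_lit 0, nat_lit 0, nat_lit 77, nat_lit 0, nat_lit 0, nat_lit 0, nat_lit 0, nat_lit 0, nat_lit 346400, nat_lit 0, nat_lit 0, [(nat_lit 28, [(nat_lit 1, nat_lit 866)])],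
 ⟨p119_k11, nat_lit 0, nat_lit 0, nat_lit 166, nat_lit 0, nat_lit 0, [nat_lit 729813600, nat_lit 721064800, nat_lit 957008000], [], [nat_lit 26609368583, nat_lit 27076393197, nat_lit 28163117283, nat_lit 28593349753, nat_lit 26418871523, nat_lit 26876367811, nat_lit 27944193903, nat_lit 28393348648], nat_lit 0, nat_lit 0, nat_lit 0, nat_lit 0, nat_lit 0, nat_lit 0, [], [nat_lit 20, nat_lit 40, nat_lit 40, nat_lit 80, nat_lit 16, nat_lit 215, nat_lit 10, nat_lit 7]⟩, ⟨p119_k1, nat_lit 0, nat_lit 0, nat_lit 876, nat_lit 0, nat_lit 1448036, [nat_lit 439788000, nat_lit 837500000, nat_lit 1590848000], [], [nat_lit 5204160107, nat_lit 5213949471, nat_lit 5274834043, nat_lit 5282094179, nat_lit 4527119779, nat_lit 4531927030, nat_lit 4573938815, nat_lit 4577898061], nat_lit 1271250, nat_lit 1271250, nat_lit 1271250, nat_lit 1271250, nat_lit 0, nat_lit 1412500, [nat_lit 780000, nat_lit 1435000, nat_lit 1271250], [nat_lit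 23, nat_lit 40, nat_lit 40, nat_lit 80, nat_lit 12, nat_lit 345, nat_lit 125, nat_lit 8]⟩,
 ⟨nat_lit 1581, nat_lit 2237, ⟨.ofNat (nat_lit 762142), .ofNat (nat_lit 819158), .ofNat (nat_lit 773529), .ofNat (nat_lit 830545), .ofNat (nat_lit 757166), .ofNat (nat_lit 811802), .ofNat (nat_lit 768823), .ofNat (nat_lit 823459)⟩, ⟨.ofNat (nat_lit 20000), .ofNat (nat_lit 100000), .ofNat (nat_lit 20000), .ofNat (nat_lit 100000), .ofNat (nat_lit 20000), .ofNat (nat_lit 100000), .ofNat (nat_lit 20000), .ofNat (nat_lit 100000)⟩⟩, [⟨nat_lit 13, nat_lit 42, nat_lit 75, nat_lit 100, nat_lit 311590893⟩, ⟨nat_lit 3, nat_lit 100, nat_lit 50, nat_lit 60, nat_lit 139426891⟩, ⟨nat_lit 22, nat_lit 74, nat_lit 100, nat_lit 49, nat_lit 8900098⟩]⟩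
noncomputable def p119_l42 : Lf2 := ⟨nat_lit 0, nat_lit 20, [nat_lit 5, nat_lit 5, nat_lit 5, nat_lit 20], true, nat_lit 20, nat_lit 40, nat_lit 0, nat_lit 200, ⟨nat_lit 0, nat_lit 1000, nat_lit 0, nat_lit 8, nat_lit 310, nat_lit 1000, nat_lit 30, nat_lit 0, nat_lit 0, nat_lit 0, nat_lit 0, nat_lit 0, nat_lit 41373319, nat_lit 24956707, nat_lit 669974, nat_lit 3627034, true, true⟩,
 nat_lit 0, nat_lit 0, nat_lit 0, nat_lit 0, nat_lit 2280, nat_lit 0, nat_lit 90, nat_lit 0, nat_lit 0, nat_lit 0, nat_lit 0, nat_lit 0, nat_lit 0, nat_lit 0, nat_lit 0, nat_lit 250000, nat_lit 0, nat_lit 0, [(nat_lit 28, [(nat_lit 0, nat_lit 1000)])],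
 ⟨p119_k12, nat_lit 0, nat_lit 0, nat_lit 143, nat_lit 0, nat_lit 0, [nat_lit 781600001, nat_lit 1046000001, nat_lit 1376400000], [], [nat_lit 26875261693, nat_lit 27369170953, nat_lit 27837561163, nat_lit 28397824257, nat_lit 26738129633, nat_lit 27225538033, nat_lit 27685870950, nat_lit 28194559637], nat_lit 0, nat_lit 0, nat_lit 0, nat_lit 0, nat_lit 0, nat_lit 0, [], [nat_lit 35, nat_lit 40, nat_lit 40, nat_lit 80, nat_lit 22, nat_lit 215, nat_lit 10, nat_lit 8]⟩, C1.Rw.none,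
 ⟨nat_lit 0, nat_lit 1582, ⟨.ofNat (nat_lit 757165), .ofNat (nat_lit 789945), .ofNat (nat_lit 768823), .ofNat (nat_lit 801603), .ofNat (nat_lit 749998), .ofNat (nat_lit 779997), .ofNat (nat_lit 762499), .ofNat (nat_lit 792497)⟩, ⟨.ofNat (nat_lit 50000), .ofNat (nat_lit 100000), .ofNat (nat_lit 50000), .ofNat (nat_lit 100000), .ofNat (nat_lit 50000), .ofNat (nat_lit 100000), .ofNat (nat_lit 50000), .ofNat (nat_lit 100000)⟩⟩, [⟨nat_lit 13, nat_lit 35, nat_lit 79, nat_lit 100, nat_lit 559767171⟩, ⟨nat_lit 3, nat_lit 100, nat_lit 44, nat_lit 64, nat_lit 241805959⟩]⟩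
noncomputable def p119_l43 : Lf2 := ⟨nat_lit 0, nat_lit 20, [nat_lit 5, nat_lit 5, nat_lit 5, nat_lit 20], false, nat_lit 40, nat_lit 80, nat_lit 0, nat_lit 260, ⟨nat_lit 99, nat_lit 901, nat_lit 0, nat_lit 8, nat_lit 316, nat_lit 901, nat_lit 54, nat_lit 0, nat_lit 0, nat_lit 0, nat_lit 0, nat_lit 0, nat_lit 40204430, nat_lit 25202778, nat_lit 1592792, nat_lit 3946948, true, true⟩,
 nat_lit 0, nat_lit 0, nat_lit 1290, nat_lit 0, nat_lit 2206, nat_lit 820, nat_lit 80, nat_lit 0, nat_lit 0, nat_lit 50, nat_lit 0, nat_lit 0, nat_lit 0, nat_lit 0, nat_lit 0, nat_lit 360400, nat_lit 0, nat_lit 0, [(nat_lit 28, [(nat_lit 1, nat_lit 901)])],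
 ⟨p119_k11, nat_lit 0, nat_lit 0, nat_lit 149, nat_lit 0, nat_lit 0, [nat_lit 721399600, nat_lit 617562800, nat_lit 743088000], [], [nat_lit 26213375148, nat_lit 27128367724, nat_lit 27738697528, nat_lit 28582590844, nat_lit 25975253824, nat_lit 26866425584, nat_lit 27465043304, nat_lit 28288222088], nat_lit 0, nat_lit 0, nat_lit 0, nat_lit 0, nat_lit 0, nat_lit 0, [], [nat_lit 20, nat_lit 40, nat_lit 40, nat_lit 80, nat_lit 16, nat_lit 226, nat_lit 20, nat_lit 7]⟩, ⟨p119_k1, nat_lit 0, nat_lit 0, nat_lit 1078, nat_lit 0, nat_lit 1899565, [nat_lit 324918000, nat_lit 618750000, nat_lit 1175328000], [], [nat_lit 3831917070, nat_lit 3831856367, nat_lit 3942288186, nat_lit 3988713239, nat_lit 3241520366, nat_lit 3238901716, nat_lit 3252978657, nat_lit 3267311381], nat_lit 1271250, nat_lit 1271250, nat_lit 1271250, nat_lit 1271250, nat_lit 0, nat_lit 1836250, [nat_lit 780000, nat_lit 1435000, nat_lit 1271250], [nat_lit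 23, nat_lit 40, nat_lit 40, nat_lit 80, nat_lit 12, nat_lit 384, nat_lit 150, nat_lit 9]⟩,
 ⟨nat_lit 0, nat_lit 2237, ⟨.ofNat (nat_lit 762141), .ofNat (nat_lit 819154), .ofNat (nat_lit 773529), .ofNat (nat_lit 830542), .ofNat (nat_lit 749998), .ofNat (nat_lit 799995), .ofNat (nat_lit 762499), .ofNat (nat_lit 812496)⟩, ⟨.ofNat (nat_lit 89742), .ofNat (nat_lit 146756), .ofNat (nat_lit 100000), .ofNat (nat_lit 192306), .ofNat (nat_lit 99999), .ofNat (nat_lit 149997), .ofNat (nat_lit 100000), .ofNat (nat_lit 199999)⟩⟩, [⟨nat_lit 13, nat_lit 34, nat_lit 80, nat_lit 100, nat_lit 266627779⟩, ⟨nat_lit 13, nat_lit 49, nat_lit 68, nat_lit 100, nat_lit 100210684⟩, ⟨nat_lit 22, nat_lit 71, nat_lit 100, nat_lit 71, nat_lit 6175294⟩]⟩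
noncomputable def p119_l44 : Lf2 := ⟨nat_lit 0, nat_lit 15, [nat_lit 30, nat_lit 5, nat_lit 5, nat_lit 20], false, nat_lit 0, nat_lit 40, nat_lit 0, nat_lit 200, ⟨nat_lit 109, nat_lit 891, nat_lit 0, nat_lit 8, nat_lit 322, nat_lit 891, nat_lit 19, nat_lit 0, nat_lit 0, nat_lit 0, nat_lit 0, nat_lit 0, nat_lit 40611473, nat_lit 26388527, nat_lit 0, nat_lit 3352213, true, true⟩,
 nat_lit 0, nat_lit 0, nat_lit 1264, nat_lit 0, nat_lit 2143, nat_lit 839, nat_lit 33, nat_lit 0, nat_lit 0, nat_lit 62, nat_lit 0, nat_lit 0, nat_lit 0, nat_lit 0, nat_lit 0, nat_lit 356400, nat_lit 0, nat_lit 0, [(nat_lit 28, [(nat_lit 1, nat_lit 891)])],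
 ⟨p119_k24, nat_lit 0, nat_lit 0, nat_lit 169, nat_lit 0, nat_lit 0, [nat_lit 723803600, nat_lit 647134800, nat_lit 687053600], [], [nat_lit 26715256407, nat_lit 27609203051, nat_lit 28562676231, nat_lit 29457541354, nat_lit 26579733253, nat_lit 27450214391, nat_lit 28351640340, nat_lit 29216754482], nat_lit 0, nat_lit 0, nat_lit 0, nat_lit 0, nat_lit 0, nat_lit 0, [], [nat_lit 35, nat_lit 40, nat_lit 40, nat_lit 80, nat_lit 22, nat_lit 215, nat_lit 10, nat_lit 8]⟩, ⟨p119_k23, nat_lit 0, nat_lit 0, nat_lit 985, nat_lit 0, nat_lit 1807453, [nat_lit 357738000, nat_lit 681250000, nat_lit 1072778000], [], [nat_lit 4015490520, nat_lit 4024291636, nat_lit 4087189005, nat_lit 4101821091, nat_lit 3522955516, nat_lit 3527660392, nat_lit 3571606899, nat_lit 3574363150], nat_lit 1271250, nat_lit 1271250, nat_lit 1271250, nat_lit 1271250, nat_lit 0, nat_lit 1412500, [nat_lit 780000, nat_lit 1435000, nat_lit 1271250], [nat_lit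 8, nat_lit 40, nat_lit 40, nat_lit 80, nat_lit 1, nat_lit 355, nat_lit 50, nat_lit 9]⟩,
 ⟨nat_lit 0, nat_lit 2237, ⟨.ofNat (nat_lit 773529), .ofNat (nat_lit 841945), .ofNat (nat_lit 784917), .ofNat (nat_lit 853333), .ofNat (nat_lit 762499), .ofNat (nat_lit 822496), .ofNat (nat_lit 774999), .ofNat (nat_lit 834997)⟩, ⟨.ofNat (nat_lit 0), .ofNat (nat_lit 89742), .ofNat (nat_lit 0), .ofNat (nat_lit 100000), .ofNat (nat_lit 0), .ofNat (nat_lit 99999), .ofNat (nat_lit 0), .ofNat (nat_lit 100000)⟩⟩, [⟨nat_lit 13, nat_lit 35, nat_lit 78, nat_lit 100, nat_lit 365628220⟩, ⟨nat_lit 13, nat_lit 50, nat_lit 65, nat_lit 100, nat_lit 3383918⟩, ⟨nat_lit 10, nat_lit 100, nat_lit 65, nat_lit 50, nat_lit 11677713⟩]⟩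
noncomputable def p119_l45 : Lf2 := ⟨nat_lit 0, nat_lit 20, [nat_lit 5, nat_lit 5, nat_lit 5, nat_lit 20], false, nat_lit 8, nat_lit 40, nat_lit 0, nat_lit 200, ⟨nat_lit 195, nat_lit 805, nat_lit 0, nat_lit 8, nat_lit 324, nat_lit 805, nat_lit 24, nat_lit 0, nat_lit 0, nat_lit 0, nat_lit 0, nat_lit 0, nat_lit 40123775, nat_lit 26406097, nat_lit 470128, nat_lit 3596673, true, true⟩,
 nat_lit 0, nat_lit 0, nat_lit 2231, nat_lit 0, nat_lit 2222, nat_lit 1481, nat_lit 109, nat_lit 0, nat_lit 0, nat_lit 155, nat_lit 0, nat_lit 0, nat_lit 0, nat_lit 0, nat_lit 0, nat_lit 322000, nat_lit 0, nat_lit 0, [(nat_lit 28, [(nat_lit 1, nat_lit 805)])],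
 ⟨p119_k11, nat_lit 0, nat_lit 0, nat_lit 171, nat_lit 0, nat_lit 0, [nat_lit 744478001, nat_lit 901454000, nat_lit 1329840000], [], [nat_lit 26725282015, nat_lit 27193448588, nat_lit 28612407161, nat_lit 29036303924, nat_lit 26530071304, nat_lit 26988674760, nat_lit 28382512305, nat_lit 28826425163], nat_lit 0, nat_lit 0, nat_lit 0, nat_lit 0, nat_lit 0, nat_lit 0, [], [nat_lit 20, nat_lit 40, nat_lit 40, nat_lit 80, nat_lit 16, nat_lit 215, nat_lit 10, nat_lit 7]⟩, ⟨p119_k7, nat_lit 0, nat_lit 0, nat_lit 864, nat_lit 0, nat_lit 1420103, [nat_lit 639990000, nat_lit 1218750000, nat_lit 2315040000], [], [nat_lit 6789253779, nat_lit 6813992236, nat_lit 7195601067, nat_lit 7280771275, nat_lit 5931904420, nat_lit 5947762386, nat_lit 6060115602, nat_lit 6071759952], nat_lit 1271250, nat_lit 1271250, nat_lit 1271250, nat_lit 1271250, nat_lit 0, nat_lit 1412500, [nat_lit 780000, nat_lit 1435000, nat_lit 1271250], [nat_lit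 23, nat_lit 40, nat_lit 40, nat_lit 80, nat_lit 12, nat_lit 345, nat_lit 125, nat_lit 8]⟩,
 ⟨nat_lit 1581, nat_lit 2237, ⟨.ofNat (nat_lit 773529), .ofNat (nat_lit 841948), .ofNat (nat_lit 784917), .ofNat (nat_lit 853335), .ofNat (nat_lit 768823), .ofNat (nat_lit 834386), .ofNat (nat_lit 780481), .ofNat (nat_lit 846044)⟩, ⟨.ofNat (nat_lit 20000), .ofNat (nat_lit 100000), .ofNat (nat_lit 20000), .ofNat (nat_lit 100000), .ofNat (nat_lit 20000), .ofNat (nat_lit 100000), .ofNat (nat_lit 20000), .ofNat (nat_lit 100000)⟩⟩, [⟨nat_lit 13, nat_lit 35, nat_lit 79, nat_lit 100, nat_lit 364022700⟩, ⟨nat_lit 3, nat_lit 100, nat_lit 50, nat_lit 60, nat_lit 131851483⟩]⟩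
noncomputable def p119_l46 : Lf2 := ⟨nat_lit 0, nat_lit 20, [nat_lit 5, nat_lit 5, nat_lit 5, nat_lit 20], true, nat_lit 20, nat_lit 40, nat_lit 0, nat_lit 200, ⟨nat_lit 0, nat_lit 1000, nat_lit 0, nat_lit 8, nat_lit 317, nat_lit 1000, nat_lit 30, nat_lit 0, nat_lit 0, nat_lit 0, nat_lit 0, nat_lit 0, nat_lit 40691853, nat_lit 25644888, nat_lit 663259, nat_lit 3649435, true, true⟩,
 nat_lit 0, nat_lit 0, nat_lit 0, nat_lit 0, nat_lit 2271, nat_lit 0, nat_lit 87, nat_lit 0, nat_lit 0, nat_lit 0, nat_lit 0, nat_lit 0, nat_lit 0, nat_lit 0, nat_lit 0, nat_lit 250000, nat_lit 0, nat_lit 0, [(nat_lit 28, [(nat_lit 0, nat_lit 1000)])],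
 ⟨p119_k12, nat_lit 0, nat_lit 0, nat_lit 147, nat_lit 0, nat_lit 0, [nat_lit 781600001, nat_lit 1046000001, nat_lit 1376400000], [], [nat_lit 26909907118, nat_lit 27403121143, nat_lit 28188208033, nat_lit 28737109834, nat_lit 26774457682, nat_lit 27261184174, nat_lit 28036721644, nat_lit 28533163461], nat_lit 0, nat_lit 0, nat_lit 0, nat_lit 0, nat_lit 0, nat_lit 0, [], [nat_lit 35, nat_lit 40, nat_lit 40, nat_lit 80, nat_lit 22, nat_lit 215, nat_lit 10, nat_lit 8]⟩, C1.Rw.none,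
 ⟨nat_lit 0, nat_lit 1582, ⟨.ofNat (nat_lit 768823), .ofNat (nat_lit 812530), .ofNat (nat_lit 780481), .ofNat (nat_lit 824188), .ofNat (nat_lit 762499), .ofNat (nat_lit 802497), .ofNat (nat_lit 774999), .ofNat (nat_lit 814997)⟩, ⟨.ofNat (nat_lit 50000), .ofNat (nat_lit 100000), .ofNat (nat_lit 50000), .ofNat (nat_lit 100000), .ofNat (nat_lit 50000), .ofNat (nat_lit 100000), .ofNat (nat_lit 50000), .ofNat (nat_lit 100000)⟩⟩, [⟨nat_lit 13, nat_lit 36, nat_lit 77, nat_lit 100, nat_lit 541764627⟩, ⟨nat_lit 3, nat_lit 100, nat_lit 44, nat_lit 64, nat_lit 241327624⟩]⟩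
noncomputable def p119_l47 : Lf2 := ⟨nat_lit 0, nat_lit 20, [nat_lit 5, nat_lit 5, nat_lit 5, nat_lit 20], false, nat_lit 40, nat_lit 80, nat_lit 0, nat_lit 260, ⟨nat_lit 118, nat_lit 882, nat_lit 0, nat_lit 8, nat_lit 324, nat_lit 882, nat_lit 53, nat_lit 0, nat_lit 0, nat_lit 0, nat_lit 0, nat_lit 0, nat_lit 39402050, nat_lit 26045891, nat_lit 1552059, nat_lit 3962887, true, true⟩,
 nat_lit 0, nat_lit 0, nat_lit 1352, nat_lit 0, nat_lit 2219, nat_lit 897, nat_lit 91, nat_lit 0, nat_lit 0, nat_lit 93, nat_lit 0, nat_lit 0, nat_lit 0, nat_lit 0, nat_lit 0, nat_lit 352800, nat_lit 0, nat_lit 0, [(nat_lit 28, [(nat_lit 1, nat_lit 882)])],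
 ⟨p119_k11, nat_lit 0, nat_lit 0, nat_lit 148, nat_lit 0, nat_lit 0, [nat_lit 725967200, nat_lit 673749600, nat_lit 859216000], [], [nat_lit 26208506777, nat_lit 26666902639, nat_lit 28060266783, nat_lit 28477043767, nat_lit 25965598151, nat_lit 26412048271, nat_lit 27774029318, nat_lit 28179599317], nat_lit 0, nat_lit 0, nat_lit 0, nat_lit 0, nat_lit 0, nat_lit 0, [], [nat_lit 20, nat_lit 40, nat_lit 40, nat_lit 80, nat_lit 16, nat_lit 226, nat_lit 20, nat_lit 7]⟩, ⟨p119_k7, nat_lit 0, nat_lit 0, nat_lit 987, nat_lit 0, nat_lit 1681727, [nat_lit 387276000, nat_lit 737500000, nat_lit 1400896000], [], [nat_lit 4227826780, nat_lit 4237470052, nat_lit 4363234461, nat_lit 4414791647, nat_lit 3670131540, nat_lit 3673485741, nat_lit 3713106513, nat_lit 3714531789], nat_lit 1271250, nat_lit 1271250, nat_lit 1271250, nat_lit 1271250, nat_lit 0, nat_lit 1836250, [nat_lit 780000, nat_lit 1435000, nat_lit 1271250], [nat_lit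 23, nat_lit 40, nat_lit 40, nat_lit 80, nat_lit 12, nat_lit 373, nat_lit 150, nat_lit 9]⟩,
 ⟨nat_lit 1581, nat_lit 2237, ⟨.ofNat (nat_lit 773529), .ofNat (nat_lit 841948), .ofNat (nat_lit 784917), .ofNat (nat_lit 853335), .ofNat (nat_lit 768823), .ofNat (nat_lit 834386), .ofNat (nat_lit 780481), .ofNat (nat_lit 846044)⟩, ⟨.ofNat (nat_lit 89742), .ofNat (nat_lit 146758), .ofNat (nat_lit 100000), .ofNat (nat_lit 192306), .ofNat (nat_lit 94935), .ofNat (nat_lit 149571), .ofNat (nat_lit 100000), .ofNat (nat_lit 196201)⟩⟩, [⟨nat_lit 13, nat_lit 43, nat_lit 72, nat_lit 100, nat_lit 307636552⟩, ⟨nat_lit 22, nat_lit 69, nat_lit 100, nat_lit 71, nat_lit 12329131⟩]⟩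
noncomputable def p119_l48 : Lf2 := ⟨nat_lit 0, nat_lit 20, [nat_lit 5, nat_lit 5, nat_lit 5, nat_lit 20], true, nat_lit 40, nat_lit 80, nat_lit 0, nat_lit 260, ⟨nat_lit 0, nat_lit 1000, nat_lit 0, nat_lit 8, nat_lit 317, nat_lit 1000, nat_lit 55, nat_lit 0, nat_lit 0, nat_lit 0, nat_lit 0, nat_lit 0, nat_lit 40041331, nat_lit 25343425, nat_lit 1615244, nat_lit 3958575, true, true⟩,
 nat_lit 0, nat_lit 0, nat_lit 0, nat_lit 0, nat_lit 2442, nat_lit 0, nat_lit 57, nat_lit 0, nat_lit 0, nat_lit 0, nat_lit 0, nat_lit 0, nat_lit 0, nat_lit 0, nat_lit 0, nat_lit 250000, nat_lit 0, nat_lit 0, [(nat_lit 28, [(nat_lit 0, nat_lit 1000)])],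
 ⟨p119_k12, nat_lit 0, nat_lit 0, nat_lit 133, nat_lit 0, nat_lit 0, [nat_lit 781600001, nat_lit 1046000001, nat_lit 1376400000], [], [nat_lit 26950146635, nat_lit 27449829370, nat_lit 28240820213, nat_lit 28801037333, nat_lit 26656497834, nat_lit 27108973622, nat_lit 27873635923, nat_lit 28328554223], nat_lit 0, nat_lit 0, nat_lit 0, nat_lit 0, nat_lit 0, nat_lit 0, [], [nat_lit 35, nat_lit 40, nat_lit 40, nat_lit 80, nat_lit 22, nat_lit 226, nat_lit 20, nat_lit 8]⟩, C1.Rw.none,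
 ⟨nat_lit 0, nat_lit 1582, ⟨.ofNat (nat_lit 768823), .ofNat (nat_lit 812530), .ofNat (nat_lit 780481), .ofNat (nat_lit 824188), .ofNat (nat_lit 762499), .ofNat (nat_lit 802497), .ofNat (nat_lit 774999), .ofNat (nat_lit 814997)⟩, ⟨.ofNat (nat_lit 94935), .ofNat (nat_lit 149570), .ofNat (nat_lit 100000), .ofNat (nat_lit 196201), .ofNat (nat_lit 99999), .ofNat (nat_lit 149998), .ofNat (nat_lit 100000), .ofNat (nat_lit 199999)⟩⟩, [⟨nat_lit 13, nat_lit 36, nat_lit 77, nat_lit 100, nat_lit 557496293⟩]⟩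
noncomputable def b_V_900_700_10_5 : St := ⟨true, nat_lit 0, nat_lit 1, nat_lit 1, nat_lit 80, nat_lit 380, nat_lit 400, nat_lit 280, nat_lit 300, nat_lit 320, nat_lit 384, nat_lit 40, nat_lit 80, nat_lit 0, nat_lit 80, nat_lit 0, nat_lit 260, nat_lit 40, nat_lit 80, nat_lit 0, nat_lit 0, nat_lit 0, nat_lit 0⟩
theorem d_V_900_700_10_5 (h : EB TB.env) : Dead b_V_900_700_10_5 := chkB_sound0 h (T :=
(.trX (nat_lit 13) (nat_lit 50) (nat_lit 65) (nat_lit 100) (nat_lit 368) (.spl (nat_lit 1) (nat_lit 290)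
(.trX (nat_lit 13) (nat_lit 49) (nat_lit 68) (nat_lit 100) (nat_lit 360) (.spl (nat_lit 4) (nat_lit 40)
(.trX (nat_lit 22) (nat_lit 80) (nat_lit 100) (nat_lit 60) (nat_lit 200) (.spl (nat_lit 3) (nat_lit 60)
(.leaf p119_l40)
(.trZ (nat_lit 3) (nat_lit 100) (nat_lit 61) (nat_lit 47) (nat_lit 8) (.spl (nat_lit 0) (nat_lit 390)
(.leaf p119_l41)
(.trX (nat_lit 13) (nat_lit 35) (nat_lit 79) (nat_lit 100) (nat_lit 344) (.trZ (nat_lit 3) (nat_lit 100) (nat_lit 44) (nat_lit 64) (nat_lit 20) (.leaf p119_l42)))))))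
(.leaf p119_l43)))
(.spl (nat_lit 4) (nat_lit 40)
(.trX (nat_lit 22) (nat_lit 80) (nat_lit 100) (nat_lit 60) (nat_lit 200) (.spl (nat_lit 3) (nat_lit 60)
(.leaf p119_l44)
(.trZ (nat_lit 3) (nat_lit 100) (nat_lit 61) (nat_lit 47) (nat_lit 8) (.spl (nat_lit 0) (nat_lit 390)
(.leaf p119_l45)
(.trX (nat_lit 13) (nat_lit 36) (nat_lit 77) (nat_lit 100) (nat_lit 352) (.trZ (nat_lit 3) (nat_lit 100) (nat_lit 44) (nat_lit 64) (nat_lit 20) (.leaf p119_l46)))))))
(.spl (nat_lit 0) (nat_lit 390)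
(.leaf p119_l47)
(.trX (nat_lit 13) (nat_lit 36) (nat_lit 77) (nat_lit 100) (nat_lit 352) (.leaf p119_l48))))))) (by decide +kernel)
noncomputable def p119_l49 : Lf2 := ⟨nat_lit 0, nat_lit 15, [nat_lit 30, nat_lit 5, nat_lit 5, nat_lit 20], false, nat_lit 0, nat_lit 80, nat_lit 0, nat_lit 256, ⟨nat_lit 386, nat_lit 614, nat_lit 0, nat_lit 8, nat_lit 340, nat_lit 614, nat_lit 31, nat_lit 0, nat_lit 0, nat_lit 0, nat_lit 0, nat_lit 0, nat_lit 38857591, nat_lit 28142409, nat_lit 0, nat_lit 3401517, true, true⟩,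
 nat_lit 0, nat_lit 0, nat_lit 3299, nat_lit 0, nat_lit 3190, nat_lit 2283, nat_lit 217, nat_lit 0, nat_lit 0, nat_lit 430, nat_lit 0, nat_lit 0, nat_lit 0, nat_lit 0, nat_lit 0, nat_lit 245600, nat_lit 0, nat_lit 0, [(nat_lit 25, [(nat_lit 1, nat_lit 614)])],
 ⟨p119_k3, nat_lit 0, nat_lit 0, nat_lit 184, nat_lit 0, nat_lit 0, [nat_lit 880775201, nat_lit 1882161867, nat_lit 2974432800], [], [nat_lit 27925040130, nat_lit 28395432850, nat_lit 31748217921, nat_lit 32316604503, nat_lit 26680982451, nat_lit 27121359095, nat_lit 29612138724, nat_lit 30007760810], nat_lit 0, nat_lit 0, nat_lit 0, nat_lit 0, nat_lit 0, nat_lit 0, [], [nat_lit 20, nat_lit 40, nat_lit 40, nat_lit 80, nat_lit 16, nat_lit 226, nat_lit 20, nat_lit 7]⟩, ⟨p119_k8, nat_lit 0, nat_lit 0, nat_lit 770, nat_lit 0, nat_lit 1344007, [nat_lit 1266852000, nat_lit 2412500000, nat_lit 3799012000], [], [nat_lit 13427510298, nat_lit 13490315172, nat_lit 14035573277,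 nat_lit 14084405638, nat_lit 12487856984, nat_lit 12527636854, nat_lit 12959328826, nat_lit 12995808460], nat_lit 1271250, nat_lit 1271250, nat_lit 1271250, nat_lit 1271250, nat_lit 0, nat_lit 1808000, [nat_lit 780000, nat_lit 1435000, nat_lit 1271250], [nat_lit 8, nat_lit 40, nat_lit 40, nat_lit 80, nat_lit 1, nat_lit 313, nat_lit 75, nat_lit 8]⟩,
 ⟨nat_lit 2738, nat_lit 3163, ⟨.ofNat (nat_lit 793629), .ofNat (nat_lit 903349), .ofNat (nat_lit 804700), .ofNat (nat_lit 914427), .ofNat (nat_lit 789265), .ofNat (nat_lit 895580), .ofNat (nat_lit 800467), .ofNat (nat_lit 906789)⟩, ⟨.ofNat (nat_lit 0), .ofNat (nat_lit 139899), .ofNat (nat_lit 0), .ofNat (nat_lit 162054), .ofNat (nat_lit 0), .ofNat (nat_lit 143475), .ofNat (nat_lit 0), .ofNat (nat_lit 165893)⟩⟩, [⟨nat_lit 22, nat_lit 65, nat_lit 100, nat_lit 62, nat_lit 109944076⟩]⟩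
noncomputable def p119_l50 : Lf2 := ⟨nat_lit 0, nat_lit 15, [nat_lit 30, nat_lit 5, nat_lit 5, nat_lit 20], false, nat_lit 0, nat_lit 80, nat_lit 0, nat_lit 244, ⟨nat_lit 488, nat_lit 512, nat_lit 0, nat_lit 8, nat_lit 345, nat_lit 512, nat_lit 31, nat_lit 0, nat_lit 0, nat_lit 0, nat_lit 0, nat_lit 0, nat_lit 38432201, nat_lit 28567799, nat_lit 0, nat_lit 3411346, true, true⟩,
 nat_lit 0, nat_lit 0, nat_lit 3804, nat_lit 0, nat_lit 3427, nat_lit 2742, nat_lit 300, nat_lit 0, nat_lit 0, nat_lit 474, nat_lit 0, nat_lit 0, nat_lit 0, nat_lit 0, nat_lit 0, nat_lit 204800, nat_lit 0, nat_lit 0, [(nat_lit 25, [(nat_lit 1, nat_lit 512)])],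
 ⟨p119_k3, nat_lit 0, nat_lit 0, nat_lit 184, nat_lit 0, nat_lit 0, [nat_lit 890281601, nat_lit 2114708267, nat_lit 3518582400], [], [nat_lit 27986810300, nat_lit 28705567178, nat_lit 32451076496, nat_lit 33036839397, nat_lit 26272818382, nat_lit 26749591838, nat_lit 29800735051, nat_lit 30365375647], nat_lit 0, nat_lit 0, nat_lit 0, nat_lit 0, nat_lit 0, nat_lit 0, [], [nat_lit 20, nat_lit 40, nat_lit 40, nat_lit 80, nat_lit 16, nat_lit 226, nat_lit 20, nat_lit 7]⟩, ⟨p119_k25, nat_lit 0, nat_lit 0, nat_lit 765, nat_lit 0, nat_lit 1334879, [nat_lit 1601616000, nat_lit 3050000000, nat_lit 4802896000], [], [nat_lit 16797625862, nat_lit 16890433746, nat_lit 17641235695, nat_lit 17715417558, nat_lit 15877741832, nat_lit 15941130768, nat_lit 16586275455, nat_lit 16654130722], nat_lit 1271250, nat_lit 1271250, nat_lit 1271250, nat_lit 1271250, nat_lit 0, nat_lit 1723250, [nat_lit 780000, nat_lit 1435000, nat_lit 1271250],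 [nat_lit 8, nat_lit 40, nat_lit 40, nat_lit 80, nat_lit 1, nat_lit 311, nat_lit 75, nat_lit 8]⟩,
 ⟨nat_lit 2738, nat_lit 3163, ⟨.ofNat (nat_lit 804700), .ofNat (nat_lit 914427), .ofNat (nat_lit 815772), .ofNat (nat_lit 925504), .ofNat (nat_lit 800467), .ofNat (nat_lit 906789), .ofNat (nat_lit 811670), .ofNat (nat_lit 917997)⟩, ⟨.ofNat (nat_lit 0), .ofNat (nat_lit 139899), .ofNat (nat_lit 0), .ofNat (nat_lit 162054), .ofNat (nat_lit 0), .ofNat (nat_lit 143475), .ofNat (nat_lit 0), .ofNat (nat_lit 165893)⟩⟩, [⟨nat_lit 22, nat_lit 65, nat_lit 100, nat_lit 62, nat_lit 95316225⟩, ⟨nat_lit 10, nat_lit 100, nat_lit 64, nat_lit 92, nat_lit 36146354⟩]⟩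
noncomputable def p119_l51 : Lf2 := ⟨nat_lit 0, nat_lit 15, [nat_lit 30, nat_lit 5, nat_lit 5, nat_lit 20], false, nat_lit 0, nat_lit 80, nat_lit 0, nat_lit 256, ⟨nat_lit 368, nat_lit 632, nat_lit 0, nat_lit 8, nat_lit 336, nat_lit 632, nat_lit 31, nat_lit 0, nat_lit 0, nat_lit 0, nat_lit 0, nat_lit 0, nat_lit 39256949, nat_lit 27743051, nat_lit 0, nat_lit 3391537, true, true⟩,
 nat_lit 0, nat_lit 0, nat_lit 3175, nat_lit 0, nat_lit 2985, nat_lit 2197, nat_lit 241, nat_lit 0, nat_lit 0, nat_lit 427, nat_lit 0, nat_lit 0, nat_lit 0, nat_lit 0, nat_lit 0, nat_lit 158000, nat_lit 0, nat_lit 0, [(nat_lit 25, [(nat_lit 0, nat_lit 632)])],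
 ⟨p119_k5, nat_lit 0, nat_lit 0, nat_lit 166, nat_lit 0, nat_lit 0, [nat_lit 828032001, nat_lit 2072857601, nat_lit 2809443200], [], [nat_lit 27603831790, nat_lit 27940731435, nat_lit 31221811346, nat_lit 31505107749, nat_lit 26477537714, nat_lit 26715693374, nat_lit 29111652999, nat_lit 29319056058], nat_lit 0, nat_lit 0, nat_lit 0, nat_lit 0, nat_lit 0, nat_lit 0, [], [nat_lit 35, nat_lit 40, nat_lit 40, nat_lit 80, nat_lit 22, nat_lit 226, nat_lit 20, nat_lit 8]⟩, ⟨p119_k8, nat_lit 0, nat_lit 0, nat_lit 794, nat_lit 0, nat_lit 1409739, [nat_lit 1207776000, nat_lit 2300000000, nat_lit 3621856000], [], [nat_lit 12644625678, nat_lit 12705107859, nat_lit 13157134177, nat_lit 13205854355, nat_lit 11800123952, nat_lit 11838419878, nat_lit 12152616062, nat_lit 12182139196], nat_lit 1271250, nat_lit 1271250, nat_lit 1271250, nat_lit 1271250, nat_lit 0, nat_lit 1808000, [nat_lit 780000, nat_lit 1435000, nat_lit 1271250],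 [nat_lit 8, nat_lit 40, nat_lit 40, nat_lit 80, nat_lit 1, nat_lit 318, nat_lit 75, nat_lit 8]⟩,
 ⟨nat_lit 2500, nat_lit 2739, ⟨.ofNat (nat_lit 789269), .ofNat (nat_lit 883768), .ofNat (nat_lit 800476), .ofNat (nat_lit 894976), .ofNat (nat_lit 787095), .ofNat (nat_lit 879999), .ofNat (nat_lit 798384), .ofNat (nat_lit 891289)⟩, ⟨.ofNat (nat_lit 0), .ofNat (nat_lit 143475), .ofNat (nat_lit 0), .ofNat (nat_lit 165893), .ofNat (nat_lit 0), .ofNat (nat_lit 145160), .ofNat (nat_lit 0), .ofNat (nat_lit 167740)⟩⟩, [⟨nat_lit 13, nat_lit 59, nat_lit 55, nat_lit 100, nat_lit 1338055⟩, ⟨nat_lit 10, nat_lit 100, nat_lit 57, nat_lit 64, nat_lit 116259085⟩]⟩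
noncomputable def p119_l52 : Lf2 := ⟨nat_lit 0, nat_lit 15, [nat_lit 30, nat_lit 5, nat_lit 5, nat_lit 20], false, nat_lit 0, nat_lit 80, nat_lit 0, nat_lit 256, ⟨nat_lit 212, nat_lit 788, nat_lit 0, nat_lit 8, nat_lit 334, nat_lit 788, nat_lit 31, nat_lit 0, nat_lit 0, nat_lit 0, nat_lit 0, nat_lit 0, nat_lit 39482803, nat_lit 27517197, nat_lit 0, nat_lit 3385568, true, true⟩,
 nat_lit 0, nat_lit 0, nat_lit 1864, nat_lit 0, nat_lit 2575, nat_lit 1290, nat_lit 237, nat_lit 0, nat_lit 0, nat_lit 240, nat_lit 0, nat_lit 0, nat_lit 0, nat_lit 0, nat_lit 0, nat_lit 197000, nat_lit 0, nat_lit 0, [(nat_lit 25, [(nat_lit 0, nat_lit 788)])],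
 ⟨p119_k16, nat_lit 0, nat_lit 0, nat_lit 167, nat_lit 0, nat_lit 0, [nat_lit 800888001, nat_lit 1774398401, nat_lit 2345748800], [], [nat_lit 26897908325, nat_lit 27213956600, nat_lit 30050844332, nat_lit 30321459725, nat_lit 26315598604, nat_lit 26540898304, nat_lit 28637673136, nat_lit 28839800731], nat_lit 0, nat_lit 0, nat_lit 0, nat_lit 0, nat_lit 0, nat_lit 0, [], [nat_lit 35, nat_lit 40, nat_lit 40, nat_lit 80, nat_lit 22, nat_lit 226, nat_lit 20, nat_lit 8]⟩, ⟨p119_k8, nat_lit 0, nat_lit 0, nat_lit 837, nat_lit 0, nat_lit 1476735, [nat_lit 695784000, nat_lit 1325000000, nat_lit 2086504000], [], [nat_lit 7295305636, nat_lit 7325026638, nat_lit 7537557448, nat_lit 7562432246, nat_lit 6736768535, nat_lit 6754824743, nat_lit 6900051732, nat_lit 6914523843], nat_lit 1271250, nat_lit 1271250, nat_lit 1271250, nat_lit 1271250, nat_lit 0, nat_lit 1808000, [nat_lit 780000, nat_lit 1435000, nat_lit 1271250], [nat_lit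 8, nat_lit 40, nat_lit 40, nat_lit 80, nat_lit 1, nat_lit 328, nat_lit 75, nat_lit 9]⟩,
 ⟨nat_lit 2236, nat_lit 2500, ⟨.ofNat (nat_lit 787095), .ofNat (nat_lit 874192), .ofNat (nat_lit 798385), .ofNat (nat_lit 885482), .ofNat (nat_lit 784917), .ofNat (nat_lit 870440), .ofNat (nat_lit 796303), .ofNat (nat_lit 881827)⟩, ⟨.ofNat (nat_lit 0), .ofNat (nat_lit 145160), .ofNat (nat_lit 0), .ofNat (nat_lit 167740), .ofNat (nat_lit 0), .ofNat (nat_lit 146758), .ofNat (nat_lit 0), .ofNat (nat_lit 169532)⟩⟩, [⟨nat_lit 13, nat_lit 54, nat_lit 60, nat_lit 100, nat_lit 128976184⟩, ⟨nat_lit 10, nat_lit 100, nat_lit 57, nat_lit 64, nat_lit 64076721⟩]⟩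
noncomputable def p119_l53 : Lf2 := ⟨nat_lit 0, nat_lit 15, [nat_lit 30, nat_lit 5, nat_lit 5, nat_lit 20], false, nat_lit 0, nat_lit 80, nat_lit 0, nat_lit 244, ⟨nat_lit 360, nat_lit 640, nat_lit 0, nat_lit 8, nat_lit 341, nat_lit 640, nat_lit 31, nat_lit 0, nat_lit 0, nat_lit 0, nat_lit 0, nat_lit 0, nat_lit 38767875, nat_lit 28232125, nat_lit 0, nat_lit 3403659, true, true⟩,
 nat_lit 0, nat_lit 0, nat_lit 2918, nat_lit 0, nat_lit 2965, nat_lit 2103, nat_lit 274, nat_lit 0, nat_lit 0, nat_lit 308, nat_lit 0, nat_lit 0, nat_lit 0, nat_lit 0, nat_lit 0, nat_lit 160000, nat_lit 0, nat_lit 0, [(nat_lit 25, [(nat_lit 0, nat_lit 640)])],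
 ⟨p119_k5, nat_lit 0, nat_lit 0, nat_lit 169, nat_lit 0, nat_lit 0, [nat_lit 826640000, nat_lit 2057552001, nat_lit 2785664000], [], [nat_lit 27553979510, nat_lit 28225744520, nat_lit 31397589836, nat_lit 31956066882, nat_lit 26636560857, nat_lit 27087996812, nat_lit 29403189371, nat_lit 29811709387], nat_lit 0, nat_lit 0, nat_lit 0, nat_lit 0, nat_lit 0, nat_lit 0, [], [nat_lit 35, nat_lit 40, nat_lit 40, nat_lit 80, nat_lit 22, nat_lit 226, nat_lit 20, nat_lit 8]⟩, ⟨p119_k25, nat_lit 0, nat_lit 0, nat_lit 819, nat_lit 0, nat_lit 1456861, [nat_lit 1181520000, nat_lit 2250000000, nat_lit 3543120000], [], [nat_lit 12492802446, nat_lit 12561777612, nat_lit 13082967457, nat_lit 13138759111, nat_lit 11803359130, nat_lit 11849982728, nat_lit 12226055430, nat_lit 12262750213], nat_lit 1271250, nat_lit 1271250, nat_lit 1271250, nat_lit 1271250, nat_lit 0, nat_lit 1723250, [nat_lit 780000, nat_lit 1435000, nat_lit 1271250],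 [nat_lit 8, nat_lit 40, nat_lit 40, nat_lit 80, nat_lit 1, nat_lit 324, nat_lit 75, nat_lit 9]⟩,
 ⟨nat_lit 2236, nat_lit 2739, ⟨.ofNat (nat_lit 800472), .ofNat (nat_lit 900882), .ofNat (nat_lit 811671), .ofNat (nat_lit 912091), .ofNat (nat_lit 796297), .ofNat (nat_lit 893230), .ofNat (nat_lit 807675), .ofNat (nat_lit 904617)⟩, ⟨.ofNat (nat_lit 0), .ofNat (nat_lit 143475), .ofNat (nat_lit 0), .ofNat (nat_lit 165893), .ofNat (nat_lit 0), .ofNat (nat_lit 146758), .ofNat (nat_lit 0), .ofNat (nat_lit 169532)⟩⟩, [⟨nat_lit 10, nat_lit 100, nat_lit 55, nat_lit 65, nat_lit 117789324⟩]⟩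
noncomputable def p119_l54 : Lf2 := ⟨nat_lit 0, nat_lit 20, [nat_lit 5, nat_lit 5, nat_lit 5, nat_lit 20], false, nat_lit 0, nat_lit 80, nat_lit 0, nat_lit 260, ⟨nat_lit 746, nat_lit 254, nat_lit 0, nat_lit 8, nat_lit 343, nat_lit 254, nat_lit 35, nat_lit 0, nat_lit 0, nat_lit 0, nat_lit 0, nat_lit 0, nat_lit 38644417, nat_lit 28355583, nat_lit 0, nat_lit 3406546, true, true⟩,
 nat_lit 0, nat_lit 0, nat_lit 6420, nat_lit 0, nat_lit 3896, nat_lit 4444, nat_lit 279, nat_lit 0, nat_lit 0, nat_lit 927, nat_lit 0, nat_lit 0, nat_lit 0, nat_lit 0, nat_lit 0, nat_lit 254000, nat_lit 0, nat_lit 0, [(nat_lit 25, [(nat_lit 2, nat_lit 254)])],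
 ⟨p119_k0, nat_lit 0, nat_lit 0, nat_lit 184, nat_lit 0, nat_lit 0, [nat_lit 1072721600, nat_lit 2351614934, nat_lit 3672204800], [], [nat_lit 29108142400, nat_lit 29874603144, nat_lit 33841965408, nat_lit 34462114357, nat_lit 26335806585, nat_lit 26876041260, nat_lit 30691129300, nat_lit 31288729058], nat_lit 0, nat_lit 0, nat_lit 0, nat_lit 0, nat_lit 0, nat_lit 0, [], [nat_lit 20, nat_lit 40, nat_lit 40, nat_lit 80, nat_lit 16, nat_lit 226, nat_lit 20, nat_lit 7]⟩, ⟨p119_k9, nat_lit 0, nat_lit 0, nat_lit 717, nat_lit 0, nat_lit 1201760, [nat_lit 2448372000, nat_lit 4662500000, nat_lit 7342132000], [], [nat_lit 24507876508, nat_lit 24789645100, nat_lit 26816034933, nat_lit 27721039125, nat_lit 22870446791, nat_lit 23051424313, nat_lit 23993922856, nat_lit 24189842517], nat_lit 1271250, nat_lit 1271250, nat_lit 1271250, nat_lit 1271250, nat_lit 0, nat_lit 1836250, [nat_lit 780000, nat_lit 1435000, nat_lit 1271250],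 [nat_lit 8, nat_lit 40, nat_lit 40, nat_lit 80, nat_lit 1, nat_lit 301, nat_lit 75, nat_lit 8]⟩,
 ⟨nat_lit 2738, nat_lit 3163, ⟨.ofNat (nat_lit 793629), .ofNat (nat_lit 903349), .ofNat (nat_lit 815772), .ofNat (nat_lit 925504), .ofNat (nat_lit 789265), .ofNat (nat_lit 895580), .ofNat (nat_lit 811670), .ofNat (nat_lit 917997)⟩, ⟨.ofNat (nat_lit 0), .ofNat (nat_lit 162054), .ofNat (nat_lit 0), .ofNat (nat_lit 184209), .ofNat (nat_lit 0), .ofNat (nat_lit 165893), .ofNat (nat_lit 0), .ofNat (nat_lit 188310)⟩⟩, [⟨nat_lit 22, nat_lit 65, nat_lit 100, nat_lit 62, nat_lit 147575324⟩]⟩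
noncomputable def p119_l55 : Lf2 := ⟨nat_lit 0, nat_lit 20, [nat_lit 5, nat_lit 5, nat_lit 5, nat_lit 20], false, nat_lit 4, nat_lit 80, nat_lit 0, nat_lit 260, ⟨nat_lit 638, nat_lit 362, nat_lit 0, nat_lit 8, nat_lit 339, nat_lit 362, nat_lit 38, nat_lit 0, nat_lit 0, nat_lit 0, nat_lit 0, nat_lit 0, nat_lit 38410395, nat_lit 27684619, nat_lit 904986, nat_lit 3799137, true, true⟩,
 nat_lit 0, nat_lit 0, nat_lit 5525, nat_lit 0, nat_lit 3014, nat_lit 3825, nat_lit 518, nat_lit 0, nat_lit 0, nat_lit 705, nat_lit 0, nat_lit 0, nat_lit 0, nat_lit 0, nat_lit 0, nat_lit 90500, nat_lit 0, nat_lit 0, [(nat_lit 25, [(nat_lit 0, nat_lit 362)])],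
 ⟨p119_k17, nat_lit 0, nat_lit 0, nat_lit 186, nat_lit 0, nat_lit 0, [nat_lit 875012000, nat_lit 1669565601, nat_lit 4754216000], [], [nat_lit 27572251858, nat_lit 28247542777, nat_lit 31433873162, nat_lit 31995000685, nat_lit 25796856120, nat_lit 26252991504, nat_lit 29324479773, nat_lit 29866254298], nat_lit 0, nat_lit 0, nat_lit 0, nat_lit 0, nat_lit 0, nat_lit 0, [], [nat_lit 131, nat_lit 40, nat_lit 40, nat_lit 80, nat_lit 64, nat_lit 226, nat_lit 20, nat_lit 7]⟩, ⟨p119_k26, nat_lit 0, nat_lit 0, nat_lit 759, nat_lit 0, nat_lit 1328683, [nat_lit 2093916000, nat_lit 2990944000, nat_lit 6279196000], [], [nat_lit 21173292408, nat_lit 21351803042, nat_lit 22732772618, nat_lit 23523903400, nat_lit 19619991799, nat_lit 19747524634, nat_lit 20381103714, nat_lit 20516879504], nat_lit 1271250, nat_lit 1271250, nat_lit 1271250, nat_lit 1271250, nat_lit 0, nat_lit 1836250, [nat_lit 780000, nat_lit 1100000, nat_lit 2127500],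 [nat_lit 42, nat_lit 40, nat_lit 40, nat_lit 80, nat_lit 13, nat_lit 311, nat_lit 75, nat_lit 8]⟩,
 ⟨nat_lit 2236, nat_lit 2739, ⟨.ofNat (nat_lit 789269), .ofNat (nat_lit 889674), .ofNat (nat_lit 811671), .ofNat (nat_lit 912091), .ofNat (nat_lit 784917), .ofNat (nat_lit 881843), .ofNat (nat_lit 807675), .ofNat (nat_lit 904617)⟩, ⟨.ofNat (nat_lit 10000), .ofNat (nat_lit 165893), .ofNat (nat_lit 10000), .ofNat (nat_lit 188310), .ofNat (nat_lit 10000), .ofNat (nat_lit 169532), .ofNat (nat_lit 10000), .ofNat (nat_lit 192306)⟩⟩, [⟨nat_lit 22, nat_lit 65, nat_lit 100, nat_lit 63, nat_lit 124549773⟩]⟩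
noncomputable def p119_l56 : Lf2 := ⟨nat_lit 0, nat_lit 15, [nat_lit 30, nat_lit 5, nat_lit 5, nat_lit 20], false, nat_lit 0, nat_lit 80, nat_lit 0, nat_lit 256, ⟨nat_lit 129, nat_lit 871, nat_lit 0, nat_lit 8, nat_lit 328, nat_lit 871, nat_lit 32, nat_lit 0, nat_lit 0, nat_lit 0, nat_lit 0, nat_lit 0, nat_lit 40034359, nat_lit 26965641, nat_lit 0, nat_lit 3370006, true, true⟩,
 nat_lit 0, nat_lit 0, nat_lit 1287, nat_lit 0, nat_lit 2289, nat_lit 891, nat_lit 22, nat_lit 0, nat_lit 0, nat_lit 81, nat_lit 0, nat_lit 0, nat_lit 0, nat_lit 0, nat_lit 0, nat_lit 348400, nat_lit 0, nat_lit 0, [(nat_lit 28, [(nat_lit 1, nat_lit 871)])],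
 ⟨p119_k24, nat_lit 0, nat_lit 0, nat_lit 170, nat_lit 0, nat_lit 0, [nat_lit 728611601, nat_lit 706278800, nat_lit 776861600], [], [nat_lit 26813573089, nat_lit 27727449901, nat_lit 29042978272, nat_lit 30102950761, nat_lit 26444684005, nat_lit 27310011541, nat_lit 28357061383, nat_lit 29138481907], nat_lit 0, nat_lit 0, nat_lit 0, nat_lit 0, nat_lit 0, nat_lit 0, [], [nat_lit 35, nat_lit 40, nat_lit 40, nat_lit 80, nat_lit 22, nat_lit 226, nat_lit 20, nat_lit 8]⟩, ⟨p119_k8, nat_lit 0, nat_lit 0, nat_lit 951, nat_lit 0, nat_lit 1758181, [nat_lit 423378000, nat_lit 806250000, nat_lit 1269618000], [], [nat_lit 4401885531, nat_lit 4422456945, nat_lit 4685622522, nat_lit 4757072211, nat_lit 3953923035, nat_lit 3961647093, nat_lit 4022593066, nat_lit 4054109837], nat_lit 1271250, nat_lit 1271250, nat_lit 1271250, nat_lit 1271250, nat_lit 0, nat_lit 1808000, [nat_lit 780000, nat_lit 1435000, nat_lit 1271250], [nat_lit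 8, nat_lit 40, nat_lit 40, nat_lit 80, nat_lit 1, nat_lit 355, nat_lit 75, nat_lit 9]⟩,
 ⟨nat_lit 0, nat_lit 2237, ⟨.ofNat (nat_lit 784917), .ofNat (nat_lit 859034), .ofNat (nat_lit 796304), .ofNat (nat_lit 870422), .ofNat (nat_lit 774999), .ofNat (nat_lit 839996), .ofNat (nat_lit 787499), .ofNat (nat_lit 852497)⟩, ⟨.ofNat (nat_lit 0), .ofNat (nat_lit 146756), .ofNat (nat_lit 0), .ofNat (nat_lit 169532), .ofNat (nat_lit 0), .ofNat (nat_lit 149997), .ofNat (nat_lit 0), .ofNat (nat_lit 174999)⟩⟩, [⟨nat_lit 13, nat_lit 37, nat_lit 76, nat_lit 100, nat_lit 318417614⟩, ⟨nat_lit 22, nat_lit 69, nat_lit 100, nat_lit 61, nat_lit 20232132⟩]⟩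
noncomputable def p119_l57 : Lf2 := ⟨nat_lit 0, nat_lit 15, [nat_lit 30, nat_lit 5, nat_lit 5, nat_lit 20], false, nat_lit 0, nat_lit 80, nat_lit 0, nat_lit 244, ⟨nat_lit 148, nat_lit 852, nat_lit 0, nat_lit 8, nat_lit 335, nat_lit 852, nat_lit 32, nat_lit 0, nat_lit 0, nat_lit 0, nat_lit 0, nat_lit 0, nat_lit 39360643, nat_lit 27639357, nat_lit 0, nat_lit 3388826, true, true⟩,
 nat_lit 0, nat_lit 0, nat_lit 1330, nat_lit 0, nat_lit 2281, nat_lit 958, nat_lit 30, nat_lit 0, nat_lit 0, nat_lit 91, nat_lit 0, nat_lit 0, nat_lit 0, nat_lit 0, nat_lit 0, nat_lit 340800, nat_lit 0, nat_lit 0, [(nat_lit 28, [(nat_lit 1, nat_lit 852)])],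
 ⟨p119_k24, nat_lit 0, nat_lit 0, nat_lit 173, nat_lit 0, nat_lit 0, [nat_lit 733179200, nat_lit 762465600, nat_lit 862179200], [], [nat_lit 26881520694, nat_lit 27794305442, nat_lit 29433966923, nat_lit 30470564204, nat_lit 26517992858, nat_lit 27382317002, nat_lit 28735681191, nat_lit 29503495312], nat_lit 0, nat_lit 0, nat_lit 0, nat_lit 0, nat_lit 0, nat_lit 0, [], [nat_lit 35, nat_lit 40, nat_lit 40, nat_lit 80, nat_lit 22, nat_lit 226, nat_lit 20, nat_lit 8]⟩, ⟨p119_k25, nat_lit 0, nat_lit 0, nat_lit 928, nat_lit 0, nat_lit 1715623, [nat_lit 485736000, nat_lit 925000000, nat_lit 1456616000], [], [nat_lit 5043055111, nat_lit 5059759965, nat_lit 5425377206, nat_lit 5524333400, nat_lit 4584823449, nat_lit 4596300912, nat_lit 4696624129, nat_lit 4706321621], nat_lit 1271250, nat_lit 1271250, nat_lit 1271250, nat_lit 1271250, nat_lit 0, nat_lit 1723250, [nat_lit 780000, nat_lit 1435000, nat_lit 1271250], [nat_lit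 8, nat_lit 40, nat_lit 40, nat_lit 80, nat_lit 1, nat_lit 350, nat_lit 75, nat_lit 9]⟩,
 ⟨nat_lit 0, nat_lit 2237, ⟨.ofNat (nat_lit 796304), .ofNat (nat_lit 881824), .ofNat (nat_lit 807594), .ofNat (nat_lit 893212), .ofNat (nat_lit 787499), .ofNat (nat_lit 862496), .ofNat (nat_lit 799902), .ofNat (nat_lit 874997)⟩, ⟨.ofNat (nat_lit 0), .ofNat (nat_lit 146756), .ofNat (nat_lit 0), .ofNat (nat_lit 169532), .ofNat (nat_lit 0), .ofNat (nat_lit 149997), .ofNat (nat_lit 0), .ofNat (nat_lit 174999)⟩⟩, [⟨nat_lit 13, nat_lit 38, nat_lit 73, nat_lit 100, nat_lit 292678420⟩, ⟨nat_lit 22, nat_lit 68, nat_lit 100, nat_lit 61, nat_lit 18353870⟩]⟩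
noncomputable def p119_l58 : Lf2 := ⟨nat_lit 0, nat_lit 20, [nat_lit 5, nat_lit 5, nat_lit 5, nat_lit 20], false, nat_lit 8, nat_lit 80, nat_lit 0, nat_lit 260, ⟨nat_lit 407, nat_lit 593, nat_lit 0, nat_lit 8, nat_lit 335, nat_lit 593, nat_lit 40, nat_lit 0, nat_lit 0, nat_lit 0, nat_lit 0, nat_lit 0, nat_lit 38728483, nat_lit 27267007, nat_lit 1004510, nat_lit 3823034, true, true⟩,
 nat_lit 0, nat_lit 0, nat_lit 3698, nat_lit 0, nat_lit 2418, nat_lit 2560, nat_lit 228, nat_lit 0, nat_lit 0, nat_lit 380, nat_lit 0, nat_lit 0, nat_lit 0, nat_lit 0, nat_lit 0, nat_lit 237200, nat_lit 0, nat_lit 0, [(nat_lit 28, [(nat_lit 1, nat_lit 593)])],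
 ⟨p119_k11, nat_lit 0, nat_lit 0, nat_lit 176, nat_lit 0, nat_lit 0, [nat_lit 795442800, nat_lit 1528380400, nat_lit 2625584000], [], [nat_lit 26969156317, nat_lit 27205190214, nat_lit 29688880157, nat_lit 29952404764, nat_lit 26485430332, nat_lit 26710223948, nat_lit 28778582518, nat_lit 28979804537], nat_lit 0, nat_lit 0, nat_lit 0, nat_lit 0, nat_lit 0, nat_lit 0, [], [nat_lit 20, nat_lit 40, nat_lit 40, nat_lit 80, nat_lit 16, nat_lit 226, nat_lit 20, nat_lit 7]⟩, ⟨p119_k9, nat_lit 0, nat_lit 0, nat_lit 788, nat_lit 0, nat_lit 1394254, [nat_lit 1335774000, nat_lit 2543750000, nat_lit 4005694000], [], [nat_lit 13937582192, nat_lit 14069257376, nat_lit 14468689683, nat_lit 14998639414, nat_lit 12805488671, nat_lit 12885372548, nat_lit 13161130360, nat_lit 13222137541], nat_lit 1271250, nat_lit 1271250, nat_lit 1271250, nat_lit 1271250, nat_lit 0, nat_lit 1836250, [nat_lit 780000, nat_lit 1435000, nat_lit 1271250],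 [nat_lit 8, nat_lit 40, nat_lit 40, nat_lit 80, nat_lit 1, nat_lit 317, nat_lit 75, nat_lit 8]⟩,
 ⟨nat_lit 1936, nat_lit 2237, ⟨.ofNat (nat_lit 784917), .ofNat (nat_lit 870440), .ofNat (nat_lit 807688), .ofNat (nat_lit 893214), .ofNat (nat_lit 782720), .ofNat (nat_lit 866554), .ofNat (nat_lit 805728), .ofNat (nat_lit 889565)⟩, ⟨.ofNat (nat_lit 20000), .ofNat (nat_lit 169532), .ofNat (nat_lit 20000), .ofNat (nat_lit 192306), .ofNat (nat_lit 20000), .ofNat (nat_lit 171255), .ofNat (nat_lit 20000), .ofNat (nat_lit 194266)⟩⟩, [⟨nat_lit 22, nat_lit 67, nat_lit 100, nat_lit 64, nat_lit 82206867⟩]⟩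
noncomputable def p119_l59 : Lf2 := ⟨nat_lit 0, nat_lit 20, [nat_lit 5, nat_lit 5, nat_lit 5, nat_lit 20], false, nat_lit 16, nat_lit 80, nat_lit 0, nat_lit 260, ⟨nat_lit 278, nat_lit 722, nat_lit 0, nat_lit 8, nat_lit 332, nat_lit 722, nat_lit 45, nat_lit 0, nat_lit 0, nat_lit 0, nat_lit 0, nat_lit 0, nat_lit 38939296, nat_lit 26884096, nat_lit 1176608, nat_lit 3870197, true, true⟩,
 nat_lit 0, nat_lit 0, nat_lit 2609, nat_lit 0, nat_lit 2332, nat_lit 1806, nat_lit 63, nat_lit 0, nat_lit 0, nat_lit 209, nat_lit 0, nat_lit 0, nat_lit 0, nat_lit 0, nat_lit 0, nat_lit 288800, nat_lit 0, nat_lit 0, [(nat_lit 28, [(nat_lit 1, nat_lit 722)])],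
 ⟨p119_k27, nat_lit 0, nat_lit 0, nat_lit 156, nat_lit 0, nat_lit 0, [nat_lit 764431200, nat_lit 1146901601, nat_lit 1445931200], [], [nat_lit 27179565443, nat_lit 27412083756, nat_lit 29195767396, nat_lit 29404588765, nat_lit 26785713553, nat_lit 27008386677, nat_lit 28725103481, nat_lit 28925707565], nat_lit 0, nat_lit 0, nat_lit 0, nat_lit 0, nat_lit 0, nat_lit 0, [], [nat_lit 35, nat_lit 40, nat_lit 40, nat_lit 80, nat_lit 22, nat_lit 226, nat_lit 20, nat_lit 8]⟩, ⟨p119_k9, nat_lit 0, nat_lit 0, nat_lit 825, nat_lit 0, nat_lit 1461034, [nat_lit 912396000, nat_lit 1737500000, nat_lit 2736076000], [], [nat_lit 9810441163, nat_lit 9887271503, nat_lit 10082665373, nat_lit 10164401518, nat_lit 8971134578, nat_lit 9015244935, nat_lit 9147829743, nat_lit 9181578965], nat_lit 1271250, nat_lit 1271250, nat_lit 1271250, nat_lit 1271250, nat_lit 0, nat_lit 1836250, [nat_lit 780000, nat_lit 1435000, nat_lit 1271250], [nat_lit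 8, nat_lit 40, nat_lit 40, nat_lit 80, nat_lit 1, nat_lit 326, nat_lit 75, nat_lit 9]⟩,
 ⟨nat_lit 1581, nat_lit 1937, ⟨.ofNat (nat_lit 782720), .ofNat (nat_lit 855376), .ofNat (nat_lit 805728), .ofNat (nat_lit 878387), .ofNat (nat_lit 780481), .ofNat (nat_lit 851507), .ofNat (nat_lit 803793), .ofNat (nat_lit 874823)⟩, ⟨.ofNat (nat_lit 40000), .ofNat (nat_lit 171255), .ofNat (nat_lit 40000), .ofNat (nat_lit 194266), .ofNat (nat_lit 40000), .ofNat (nat_lit 172886), .ofNat (nat_lit 40000), .ofNat (nat_lit 196201)⟩⟩, [⟨nat_lit 13, nat_lit 42, nat_lit 71, nat_lit 100, nat_lit 77872995⟩, ⟨nat_lit 10, nat_lit 100, nat_lit 52, nat_lit 69, nat_lit 80923066⟩]⟩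
noncomputable def p119_l60 : Lf2 := ⟨nat_lit 0, nat_lit 20, [nat_lit 5, nat_lit 5, nat_lit 5, nat_lit 20], false, nat_lit 20, nat_lit 80, nat_lit 0, nat_lit 260, ⟨nat_lit 229, nat_lit 771, nat_lit 0, nat_lit 8, nat_lit 327, nat_lit 771, nat_lit 47, nat_lit 0, nat_lit 0, nat_lit 0, nat_lit 0, nat_lit 0, nat_lit 39269298, nat_lit 26447616, nat_lit 1283086, nat_lit 3891966, true, true⟩,
 nat_lit 0, nat_lit 0, nat_lit 2202, nat_lit 0, nat_lit 2388, nat_lit 1524, nat_lit 121, nat_lit 0, nat_lit 0, nat_lit 154, nat_lit 0, nat_lit 0, nat_lit 0, nat_lit 0, nat_lit 0, nat_lit 192750, nat_lit 0, nat_lit 0, [(nat_lit 28, [(nat_lit 0, nat_lit 771)])],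
 ⟨p119_k12, nat_lit 0, nat_lit 0, nat_lit 153, nat_lit 0, nat_lit 0, [nat_lit 817415600, nat_lit 1558044000, nat_lit 2134756400], [], [nat_lit 27428136508, nat_lit 27895803951, nat_lit 29166494928, nat_lit 29623432785, nat_lit 27019945459, nat_lit 27472747352, nat_lit 28725908638, nat_lit 29166283298], nat_lit 0, nat_lit 0, nat_lit 0, nat_lit 0, nat_lit 0, nat_lit 0, [], [nat_lit 35, nat_lit 40, nat_lit 40, nat_lit 80, nat_lit 22, nat_lit 226, nat_lit 20, nat_lit 8]⟩, ⟨p119_k9, nat_lit 0, nat_lit 0, nat_lit 885, nat_lit 0, nat_lit 1598549, [nat_lit 751578000, nat_lit 1431250000, nat_lit 2253818000], [], [nat_lit 8012127218, nat_lit 8075060782, nat_lit 8197790685, nat_lit 8272287102, nat_lit 7284788761, nat_lit 7320300285, nat_lit 7403165813, nat_lit 7431344942], nat_lit 1271250, nat_lit 1271250, nat_lit 1271250, nat_lit 1271250, nat_lit 0, nat_lit 1836250, [nat_lit 780000, nat_lit 1435000, nat_lit 1271250], [nat_lit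 8, nat_lit 40, nat_lit 40, nat_lit 80, nat_lit 1, nat_lit 340, nat_lit 75, nat_lit 9]⟩,
 ⟨nat_lit 0, nat_lit 1582, ⟨.ofNat (nat_lit 780481), .ofNat (nat_lit 840578), .ofNat (nat_lit 803773), .ofNat (nat_lit 863894), .ofNat (nat_lit 774999), .ofNat (nat_lit 829997), .ofNat (nat_lit 799976), .ofNat (nat_lit 854998)⟩, ⟨.ofNat (nat_lit 50000), .ofNat (nat_lit 172886), .ofNat (nat_lit 50000), .ofNat (nat_lit 196201), .ofNat (nat_lit 50000), .ofNat (nat_lit 174999), .ofNat (nat_lit 50000), .ofNat (nat_lit 199999)⟩⟩, [⟨nat_lit 13, nat_lit 27, nat_lit 83, nat_lit 100, nat_lit 371437883⟩, ⟨nat_lit 3, nat_lit 100, nat_lit 29, nat_lit 78, nat_lit 34443221⟩, ⟨nat_lit 22, nat_lit 71, nat_lit 100, nat_lit 66, nat_lit 50046179⟩]⟩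
noncomputable def b_V_900_700_10_6 : St := ⟨true, nat_lit 0, nat_lit 1, nat_lit 1, nat_lit 80, nat_lit 360, nat_lit 400, nat_lit 300, nat_lit 320, nat_lit 320, nat_lit 392, nat_lit 40, nat_lit 80, nat_lit 0, nat_lit 80, nat_lit 0, nat_lit 260, nat_lit 40, nat_lit 80, nat_lit 0, nat_lit 0, nat_lit 0, nat_lit 0⟩
theorem d_V_900_700_10_6 (h : EB TB.env) : Dead b_V_900_700_10_6 := chkB_sound0 h (T :=
(.spl (nat_lit 0) (nat_lit 380)
(.spl (nat_lit 3) (nat_lit 60)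
(.trX (nat_lit 19) (nat_lit 90) (nat_lit 100) (nat_lit 74) (nat_lit 256) (.spl (nat_lit 0) (nat_lit 370)
(.spl (nat_lit 1) (nat_lit 310)
(.leaf p119_l49)
(.trX (nat_lit 19) (nat_lit 85) (nat_lit 100) (nat_lit 73) (nat_lit 244) (.leaf p119_l50)))
(.trX (nat_lit 13) (nat_lit 66) (nat_lit 45) (nat_lit 100) (nat_lit 388) (.spl (nat_lit 1) (nat_lit 310)
(.trX (nat_lit 13) (nat_lit 63) (nat_lit 50) (nat_lit 100) (nat_lit 384) (.spl (nat_lit 0) (nat_lit 375)
(.leaf p119_l51)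
(.trX (nat_lit 13) (nat_lit 58) (nat_lit 56) (nat_lit 100) (nat_lit 380) (.leaf p119_l52))))
(.trX (nat_lit 19) (nat_lit 85) (nat_lit 100) (nat_lit 73) (nat_lit 244) (.leaf p119_l53))))))
(.spl (nat_lit 0) (nat_lit 370)
(.leaf p119_l54)
(.trX (nat_lit 13) (nat_lit 66) (nat_lit 45) (nat_lit 100) (nat_lit 388) (.trZ (nat_lit 3) (nat_lit 100) (nat_lit 74) (nat_lit 33) (nat_lit 4) (.leaf p119_l55)))))
(.trX (nat_lit 13) (nat_lit 54) (nat_lit 57) (nat_lit 100) (nat_lit 380) (.spl (nat_lit 3) (nat_lit 60)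
(.trX (nat_lit 19) (nat_lit 90) (nat_lit 100) (nat_lit 74) (nat_lit 256) (.spl (nat_lit 1) (nat_lit 310)
(.trX (nat_lit 13) (nat_lit 52) (nat_lit 61) (nat_lit 100) (nat_lit 372) (.leaf p119_l56))
(.trX (nat_lit 19) (nat_lit 85) (nat_lit 100) (nat_lit 73) (nat_lit 244) (.leaf p119_l57))))
(.trZ (nat_lit 3) (nat_lit 100) (nat_lit 61) (nat_lit 47) (nat_lit 8) (.spl (nat_lit 0) (nat_lit 390)
(.spl (nat_lit 0) (nat_lit 385)
(.leaf p119_l58)
(.trX (nat_lit 13) (nat_lit 47) (nat_lit 64) (nat_lit 100) (nat_lit 372) (.trZ (nat_lit 3) (nat_lit 100) (nat_lit 53) (nat_lit 55) (nat_lit 16) (.leaf p119_l59))))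
(.trX (nat_lit 13) (nat_lit 39) (nat_lit 72) (nat_lit 100) (nat_lit 364) (.trZ (nat_lit 3) (nat_lit 100) (nat_lit 44) (nat_lit 64) (nat_lit 20) (.leaf p119_l60))))))))) (by decide +kernel)
noncomputable def p119_l61 : Lf2 := ⟨nat_lit 0, nat_lit 20, [nat_lit 5, nat_lit 5, nat_lit 5, nat_lit 20], true, nat_lit 80, nat_lit 160, nat_lit 0, nat_lit 300, ⟨nat_lit 0, nat_lit 1000, nat_lit 0, nat_lit 7, nat_lit 276, nat_lit 1000, nat_lit 90, nat_lit 0, nat_lit 0, nat_lit 0, nat_lit 0, nat_lit 0, nat_lit 42627070, nat_lit 20796255, nat_lit 3576675, nat_lit 4254964, true, false⟩,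
 nat_lit 0, nat_lit 0, nat_lit 0, nat_lit 0, nat_lit 4398, nat_lit 0, nat_lit 0, nat_lit 0, nat_lit 0, nat_lit 0, nat_lit 0, nat_lit 0, nat_lit 0, nat_lit 0, nat_lit 0, nat_lit 250000, nat_lit 0, nat_lit 0, [(nat_lit 25, [(nat_lit 0, nat_lit 1000)])],
 ⟨p119_k0, nat_lit 0, nat_lit 0, nat_lit 96, nat_lit 0, nat_lit 0, [nat_lit 764000001, nat_lit 1368800000, nat_lit 2118000000], [], [nat_lit 23073175632, nat_lit 24580304648, nat_lit 24712239184, nat_lit 26215104968, nat_lit 23295704024, nat_lit 24656394936, nat_lit 24776647040, nat_lit 26030524256], nat_lit 0, nat_lit 0, nat_lit 0, nat_lit 0, nat_lit 0, nat_lit 0, [], [nat_lit 20, nat_lit 40, nat_lit 40, nat_lit 80, nat_lit 16, nat_lit 249, nat_lit 40, nat_lit 8]⟩, C1.Rw.none,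
 ⟨nat_lit 2236, nat_lit 3163, ⟨.ofNat (nat_lit 649422), .ofNat (nat_lit 710480), .ofNat (nat_lit 671514), .ofNat (nat_lit 732571), .ofNat (nat_lit 647962), .ofNat (nat_lit 705082), .ofNat (nat_lit 670673), .ofNat (nat_lit 727793)⟩, ⟨.ofNat (nat_lit 139899), .ofNat (nat_lit 261806), .ofNat (nat_lit 184209), .ofNat (nat_lit 306116), .ofNat (nat_lit 146758), .ofNat (nat_lit 260789), .ofNat (nat_lit 192306), .ofNat (nat_lit 306337)⟩⟩, []⟩
noncomputable def p119_l62 : Lf2 := ⟨nat_lit 0, nat_lit 20, [nat_lit 5, nat_lit 5, nat_lit 5, nat_lit 20], true, nat_lit 80, nat_lit 160, nat_lit 0, nat_lit 300, ⟨nat_lit 0, nat_lit 1000, nat_lit 0, nat_lit 7, nat_lit 299, nat_lit 1000, nat_lit 90, nat_lit 0, nat_lit 0, nat_lit 0, nat_lit 0, nat_lit 0, nat_lit 40439074, nat_lit 23095645, nat_lit 3465281, nat_lit 4343529, true, true⟩,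
 nat_lit 0, nat_lit 0, nat_lit 0, nat_lit 0, nat_lit 4131, nat_lit 0, nat_lit 0, nat_lit 0, nat_lit 0, nat_lit 0, nat_lit 0, nat_lit 0, nat_lit 0, nat_lit 0, nat_lit 0, nat_lit 250000, nat_lit 0, nat_lit 0, [(nat_lit 25, [(nat_lit 0, nat_lit 1000)])],
 ⟨p119_k0, nat_lit 0, nat_lit 0, nat_lit 108, nat_lit 0, nat_lit 0, [nat_lit 764000001, nat_lit 1368800000, nat_lit 2118000000], [], [nat_lit 24762433048, nat_lit 26103697556, nat_lit 26612344432, nat_lit 27969465552, nat_lit 24920164880, nat_lit 26135649632, nat_lit 26598396160, nat_lit 27710587204], nat_lit 0, nat_lit 0, nat_lit 0, nat_lit 0, nat_lit 0, nat_lit 0, [], [nat_lit 20, nat_lit 40, nat_lit 40, nat_lit 80, nat_lit 16, nat_lit 249, nat_lit 40, nat_lit 8]⟩, C1.Rw.none,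
 ⟨nat_lit 2236, nat_lit 3163, ⟨.ofNat (nat_lit 710480), .ofNat (nat_lit 771478), .ofNat (nat_lit 732571), .ofNat (nat_lit 793619), .ofNat (nat_lit 705082), .ofNat (nat_lit 762142), .ofNat (nat_lit 727793), .ofNat (nat_lit 784902)⟩, ⟨.ofNat (nat_lit 139899), .ofNat (nat_lit 261806), .ofNat (nat_lit 184209), .ofNat (nat_lit 306116), .ofNat (nat_lit 146758), .ofNat (nat_lit 260789), .ofNat (nat_lit 192306), .ofNat (nat_lit 306337)⟩⟩, []⟩
noncomputable def p119_l63 : Lf2 := ⟨nat_lit 0, nat_lit 20, [nat_lit 5, nat_lit 5, nat_lit 5, nat_lit 20], false, nat_lit 80, nat_lit 160, nat_lit 0, nat_lit 280, ⟨nat_lit 101, nat_lit 899, nat_lit 0, nat_lit 7, nat_lit 297, nat_lit 899, nat_lit 90, nat_lit 0, nat_lit 0, nat_lit 0, nat_lit 0, nat_lit 0, nat_lit 40669378, nat_lit 22871745, nat_lit 3458877, nat_lit 4332287, true, false⟩,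
 nat_lit 0, nat_lit 0, nat_lit 1007, nat_lit 0, nat_lit 4438, nat_lit 696, nat_lit 0, nat_lit 0, nat_lit 0, nat_lit 79, nat_lit 0, nat_lit 0, nat_lit 0, nat_lit 0, nat_lit 0, nat_lit 224750, nat_lit 0, nat_lit 0, [(nat_lit 25, [(nat_lit 0, nat_lit 899)])],
 ⟨p119_k0, nat_lit 0, nat_lit 0, nat_lit 104, nat_lit 0, nat_lit 0, [nat_lit 781574001, nat_lit 1562033200, nat_lit 2535332000], [], [nat_lit 23478226992, nat_lit 24235529340, nat_lit 27023865536, nat_lit 27658091940, nat_lit 23687739544, nat_lit 24371331880, nat_lit 26893959680, nat_lit 27469231036], nat_lit 0, nat_lit 0, nat_lit 0, nat_lit 0, nat_lit 0, nat_lit 0, [], [nat_lit 20, nat_lit 40, nat_lit 40, nat_lit 80, nat_lit 16, nat_lit 249, nat_lit 40, nat_lit 8]⟩, ⟨p119_k9, nat_lit 0, nat_lit 0, nat_lit 840, nat_lit 0, nat_lit 1439632, [nat_lit 331482000, nat_lit 631250000, nat_lit 994042000], [], [nat_lit 3117989941, nat_lit 3159064329, nat_lit 3239177085,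 nat_lit 3286260413, nat_lit 2849131781, nat_lit 2872501275, nat_lit 2911656241, nat_lit 2942376600], nat_lit 1271250, nat_lit 1271250, nat_lit 1271250, nat_lit 1271250, nat_lit 0, nat_lit 1977500, [nat_lit 780000, nat_lit 1435000, nat_lit 1271250], [nat_lit 8, nat_lit 40, nat_lit 40, nat_lit 80, nat_lit 1, nat_lit 373, nat_lit 150, nat_lit 10]⟩,
 ⟨nat_lit 2738, nat_lit 3163, ⟨.ofNat (nat_lit 671685), .ofNat (nat_lit 793629), .ofNat (nat_lit 693828), .ofNat (nat_lit 815772), .ofNat (nat_lit 671105), .ofNat (nat_lit 789265), .ofNat (nat_lit 693511), .ofNat (nat_lit 811670)⟩, ⟨.ofNat (nat_lit 139899), .ofNat (nat_lit 261806), .ofNat (nat_lit 184209), .ofNat (nat_lit 306116), .ofNat (nat_lit 143475), .ofNat (nat_lit 261598), .ofNat (nat_lit 188310), .ofNat (nat_lit 306433)⟩⟩, [⟨nat_lit 16, nat_lit 57, nat_lit 100, nat_lit 73, nat_lit 9985537⟩, ⟨nat_lit 19, nat_lit 85, nat_lit 100, nat_lit 73, nat_lit 18675309⟩]⟩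
noncomputable def p119_l64 : Lf2 := ⟨nat_lit 0, nat_lit 20, [nat_lit 5, nat_lit 5, nat_lit 5, nat_lit 20], false, nat_lit 80, nat_lit 160, nat_lit 0, nat_lit 280, ⟨nat_lit 153, nat_lit 847, nat_lit 0, nat_lit 7, nat_lit 296, nat_lit 847, nat_lit 90, nat_lit 0, nat_lit 0, nat_lit 0, nat_lit 0, nat_lit 0, nat_lit 40722895, nat_lit 22773709, nat_lit 3503396, nat_lit 4337825, true, false⟩,
 nat_lit 0, nat_lit 0, nat_lit 1531, nat_lit 0, nat_lit 2746, nat_lit 1059, nat_lit 260, nat_lit 0, nat_lit 0, nat_lit 117, nat_lit 0, nat_lit 0, nat_lit 0, nat_lit 0, nat_lit 0, nat_lit 211750, nat_lit 0, nat_lit 0, [(nat_lit 25, [(nat_lit 0, nat_lit 847)])],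
 ⟨p119_k2, nat_lit 0, nat_lit 0, nat_lit 108, nat_lit 0, nat_lit 0, [nat_lit 790622001, nat_lit 1661519600, nat_lit 2750196000], [], [nat_lit 22358115825, nat_lit 22950695496, nat_lit 25322602742, nat_lit 25834699772, nat_lit 23106126329, nat_lit 23640829409, nat_lit 25798562223, nat_lit 26259230781], nat_lit 0, nat_lit 0, nat_lit 0, nat_lit 0, nat_lit 0, nat_lit 0, [], [nat_lit 20, nat_lit 40, nat_lit 40, nat_lit 80, nat_lit 16, nat_lit 249, nat_lit 40, nat_lit 8]⟩, ⟨p119_k9, nat_lit 0, nat_lit 0, nat_lit 892, nat_lit 0, nat_lit 1571873, [nat_lit 502146000, nat_lit 956250000, nat_lit 1505826000], [], [nat_lit 4792897857, nat_lit 4846307127, nat_lit 4947171285, nat_lit 5001680862, nat_lit 4363675176, nat_lit 4392924243, nat_lit 4434581352, nat_lit 4460531892], nat_lit 1271250, nat_lit 1271250, nat_lit 1271250, nat_lit 1271250, nat_lit 0, nat_lit 1977500, [nat_lit 780000, nat_lit 1435000, nat_lit 1271250], [nat_lit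 8, nat_lit 40, nat_lit 40, nat_lit 80, nat_lit 1, nat_lit 373, nat_lit 150, nat_lit 10]⟩,
 ⟨nat_lit 2236, nat_lit 2739, ⟨.ofNat (nat_lit 671081), .ofNat (nat_lit 789269), .ofNat (nat_lit 693478), .ofNat (nat_lit 811671), .ofNat (nat_lit 670819), .ofNat (nat_lit 784917), .ofNat (nat_lit 693574), .ofNat (nat_lit 807675)⟩, ⟨.ofNat (nat_lit 143475), .ofNat (nat_lit 261598), .ofNat (nat_lit 188310), .ofNat (nat_lit 306433), .ofNat (nat_lit 146758), .ofNat (nat_lit 260789), .ofNat (nat_lit 192306), .ofNat (nat_lit 306337)⟩⟩, [⟨nat_lit 16, nat_lit 50, nat_lit 100, nat_lit 74, nat_lit 150728414⟩, ⟨nat_lit 19, nat_lit 85, nat_lit 100, nat_lit 73, nat_lit 27813979⟩]⟩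
noncomputable def p119_l65 : Lf2 := ⟨nat_lit 0, nat_lit 20, [nat_lit 5, nat_lit 5, nat_lit 5, nat_lit 20], false, nat_lit 160, nat_lit 200, nat_lit 0, nat_lit 300, ⟨nat_lit 125, nat_lit 875, nat_lit 0, nat_lit 7, nat_lit 292, nat_lit 875, nat_lit 125, nat_lit 0, nat_lit 0, nat_lit 0, nat_lit 0, nat_lit 0, nat_lit 39547920, nat_lit 21780591, nat_lit 5671489, nat_lit 4716721, true, false⟩,
 nat_lit 0, nat_lit 0, nat_lit 1602, nat_lit 0, nat_lit 3134, nat_lit 1019, nat_lit 0, nat_lit 0, nat_lit 0, nat_lit 69, nat_lit 0, nat_lit 0, nat_lit 0, nat_lit 0, nat_lit 0, nat_lit 218750, nat_lit 0, nat_lit 0, [(nat_lit 25, [(nat_lit 0, nat_lit 875)])],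
 ⟨p119_k0, nat_lit 0, nat_lit 0, nat_lit 59, nat_lit 0, nat_lit 0, [nat_lit 785750000, nat_lit 1607950000, nat_lit 2634500000], [], [nat_lit 22231613280, nat_lit 23523635548, nat_lit 25468489728, nat_lit 26621600596, nat_lit 23223221352, nat_lit 24437778384, nat_lit 26260901172, nat_lit 27372244586], nat_lit 0, nat_lit 0, nat_lit 0, nat_lit 0, nat_lit 0, nat_lit 0, [], [nat_lit 20, nat_lit 40, nat_lit 40, nat_lit 80, nat_lit 16, nat_lit 260, nat_lit 50, nat_lit 8]⟩, ⟨p119_k1, nat_lit 0, nat_lit 0, nat_lit 1045, nat_lit 0, nat_lit 1775092, [nat_lit 410250000, nat_lit 781250000, nat_lit 1484000000], [], [nat_lit 4769434663, nat_lit 4800630951, nat_lit 4796573731, nat_lit 4819863779, nat_lit 4088137766, nat_lit 4104672662, nat_lit 4090021031, nat_lit 4100028050], nat_lit 1271250, nat_lit 1271250, nat_lit 1271250, nat_lit 1271250, nat_lit 0, nat_lit 2118750, [nat_lit 780000, nat_lit 1435000, nat_lit 1271250], [nat_lit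 23, nat_lit 40, nat_lit 40, nat_lit 80, nat_lit 12, nat_lit 483, nat_lit 250, nat_lit 12]⟩,
 ⟨nat_lit 2236, nat_lit 3163, ⟨.ofNat (nat_lit 649422), .ofNat (nat_lit 771478), .ofNat (nat_lit 693606), .ofNat (nat_lit 815720), .ofNat (nat_lit 647962), .ofNat (nat_lit 762142), .ofNat (nat_lit 693384), .ofNat (nat_lit 807623)⟩, ⟨.ofNat (nat_lit 261806), .ofNat (nat_lit 322759), .ofNat (nat_lit 306116), .ofNat (nat_lit 367069), .ofNat (nat_lit 260789), .ofNat (nat_lit 317804), .ofNat (nat_lit 306337), .ofNat (nat_lit 363353)⟩⟩, [⟨nat_lit 16, nat_lit 60, nat_lit 100, nat_lit 80, nat_lit 285937093⟩, ⟨nat_lit 7, nat_lit 100, nat_lit 90, nat_lit 74, nat_lit 15942141⟩]⟩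
noncomputable def p119_l66 : Lf2 := ⟨nat_lit 0, nat_lit 20, [nat_lit 5, nat_lit 5, nat_lit 5, nat_lit 20], true, nat_lit 80, nat_lit 164, nat_lit 0, nat_lit 300, ⟨nat_lit 0, nat_lit 1000, nat_lit 0, nat_lit 7, nat_lit 285, nat_lit 1000, nat_lit 91, nat_lit 0, nat_lit 0, nat_lit 0, nat_lit 0, nat_lit 0, nat_lit 41670955, nat_lit 21711447, nat_lit 3617598, nat_lit 4312493, true, false⟩,
 nat_lit 0, nat_lit 0, nat_lit 0, nat_lit 0, nat_lit 2819, nat_lit 0, nat_lit 123, nat_lit 0, nat_lit 0, nat_lit 0, nat_lit 0, nat_lit 0, nat_lit 0, nat_lit 0, nat_lit 0, nat_lit 250000, nat_lit 0, nat_lit 0, [(nat_lit 28, [(nat_lit 0, nat_lit 1000)])],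
 ⟨p119_k11, nat_lit 0, nat_lit 0, nat_lit 116, nat_lit 0, nat_lit 0, [nat_lit 781600001, nat_lit 1083600000, nat_lit 1719333334], [], [nat_lit 22991023153, nat_lit 24203049701, nat_lit 25945584848, nat_lit 27203139604, nat_lit 23777682495, nat_lit 24828506179, nat_lit 26356033424, nat_lit 27497612489], nat_lit 0, nat_lit 0, nat_lit 0, nat_lit 0, nat_lit 0, nat_lit 0, [], [nat_lit 20, nat_lit 40, nat_lit 40, nat_lit 80, nat_lit 16, nat_lit 260, nat_lit 50, nat_lit 8]⟩, C1.Rw.none,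
 ⟨nat_lit 0, nat_lit 2237, ⟨.ofNat (nat_lit 646249), .ofNat (nat_lit 762141), .ofNat (nat_lit 668096), .ofNat (nat_lit 784917), .ofNat (nat_lit 648136), .ofNat (nat_lit 749998), .ofNat (nat_lit 672209), .ofNat (nat_lit 774999)⟩, ⟨.ofNat (nat_lit 146756), .ofNat (nat_lit 266484), .ofNat (nat_lit 192306), .ofNat (nat_lit 312035), .ofNat (nat_lit 149997), .ofNat (nat_lit 254993), .ofNat (nat_lit 199999), .ofNat (nat_lit 304995)⟩⟩, [⟨nat_lit 16, nat_lit 44, nat_lit 100, nat_lit 82, nat_lit 117760587⟩]⟩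
noncomputable def p119_l67 : Lf2 := ⟨nat_lit 0, nat_lit 20, [nat_lit 5, nat_lit 5, nat_lit 5, nat_lit 20], false, nat_lit 80, nat_lit 164, nat_lit 0, nat_lit 280, ⟨nat_lit 124, nat_lit 876, nat_lit 0, nat_lit 7, nat_lit 295, nat_lit 876, nat_lit 91, nat_lit 0, nat_lit 0, nat_lit 0, nat_lit 0, nat_lit 0, nat_lit 40809272, nat_lit 22618826, nat_lit 3571902, nat_lit 4345976, true, false⟩,
 nat_lit 0, nat_lit 0, nat_lit 1261, nat_lit 0, nat_lit 2863, nat_lit 872, nat_lit 152, nat_lit 0, nat_lit 0, nat_lit 88, nat_lit 0, nat_lit 0, nat_lit 0, nat_lit 0, nat_lit 0, nat_lit 219000, nat_lit 0, nat_lit 0, [(nat_lit 28, [(nat_lit 0, nat_lit 876)])],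
 ⟨p119_k11, nat_lit 0, nat_lit 0, nat_lit 116, nat_lit 0, nat_lit 0, [nat_lit 800993601, nat_lit 1356201600, nat_lit 2271464000], [], [nat_lit 23212433988, nat_lit 24432683784, nat_lit 26125139066, nat_lit 27279502308, nat_lit 23983205343, nat_lit 25040714161, nat_lit 26569863027, nat_lit 27552756087], nat_lit 0, nat_lit 0, nat_lit 0, nat_lit 0, nat_lit 0, nat_lit 0, [], [nat_lit 20, nat_lit 40, nat_lit 40, nat_lit 80, nat_lit 16, nat_lit 260, nat_lit 50, nat_lit 8]⟩, ⟨p119_k9, nat_lit 0, nat_lit 0, nat_lit 1020, nat_lit 0, nat_lit 1852288, [nat_lit 406968000, nat_lit 775000000, nat_lit 1220408000], [], [nat_lit 3987644232, nat_lit 4018483496, nat_lit 4070594072, nat_lit 4117469696, nat_lit 3598514368, nat_lit 3613311192, nat_lit 3625735528, nat_lit 3634925848], nat_lit 1271250, nat_lit 1271250, nat_lit 1271250, nat_lit 1271250, nat_lit 0, nat_lit 1977500, [nat_lit 780000, nat_lit 1435000, nat_lit 1271250], [nat_lit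 8, nat_lit 40, nat_lit 40, nat_lit 80, nat_lit 1, nat_lit 373, nat_lit 150, nat_lit 10]⟩,
 ⟨nat_lit 0, nat_lit 2237, ⟨.ofNat (nat_lit 668096), .ofNat (nat_lit 784917), .ofNat (nat_lit 689944), .ofNat (nat_lit 807594), .ofNat (nat_lit 672209), .ofNat (nat_lit 774999), .ofNat (nat_lit 696283), .ofNat (nat_lit 799902)⟩, ⟨.ofNat (nat_lit 146756), .ofNat (nat_lit 266484), .ofNat (nat_lit 192306), .ofNat (nat_lit 312035), .ofNat (nat_lit 149997), .ofNat (nat_lit 254993), .ofNat (nat_lit 199999), .ofNat (nat_lit 304995)⟩⟩, [⟨nat_lit 16, nat_lit 35, nat_lit 100, nat_lit 80, nat_lit 227749441⟩, ⟨nat_lit 19, nat_lit 85, nat_lit 100, nat_lit 73, nat_lit 20956486⟩]⟩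
noncomputable def b_V_900_700_10_7 : St := ⟨true, nat_lit 0, nat_lit 1, nat_lit 1, nat_lit 80, nat_lit 360, nat_lit 400, nat_lit 280, nat_lit 320, nat_lit 240, nat_lit 320, nat_lit 40, nat_lit 80, nat_lit 80, nat_lit 200, nat_lit 0, nat_lit 300, nat_lit 40, nat_lit 80, nat_lit 0, nat_lit 0, nat_lit 0, nat_lit 0⟩
theorem d_V_900_700_10_7 (h : EB TB.env) : Dead b_V_900_700_10_7 := chkB_sound0 h (T :=
(.spl (nat_lit 0) (nat_lit 380)
(.spl (nat_lit 4) (nat_lit 160)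
(.spl (nat_lit 1) (nat_lit 300)
(.spl (nat_lit 2) (nat_lit 280)
(.leaf p119_l61)
(.leaf p119_l62))
(.trX (nat_lit 19) (nat_lit 94) (nat_lit 100) (nat_lit 87) (nat_lit 280) (.spl (nat_lit 0) (nat_lit 370)
(.leaf p119_l63)
(.leaf p119_l64))))
(.leaf p119_l65))
(.trX (nat_lit 16) (nat_lit 44) (nat_lit 100) (nat_lit 82) (nat_lit 164) (.spl (nat_lit 1) (nat_lit 300)
(.leaf p119_l66)
(.trX (nat_lit 19) (nat_lit 94) (nat_lit 100) (nat_lit 87) (nat_lit 280) (.leaf p119_l67)))))) (by decide +kernel)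
noncomputable def p119_l68 : Lf2 := ⟨nat_lit 0, nat_lit 20, [nat_lit 5, nat_lit 5, nat_lit 5, nat_lit 20], true, nat_lit 80, nat_lit 160, nat_lit 0, nat_lit 300, ⟨nat_lit 0, nat_lit 1000, nat_lit 0, nat_lit 8, nat_lit 318, nat_lit 1000, nat_lit 90, nat_lit 0, nat_lit 0, nat_lit 0, nat_lit 0, nat_lit 0, nat_lit 38767292, nat_lit 24878991, nat_lit 3353717, nat_lit 4387626, true, true⟩,
 nat_lit 0, nat_lit 0, nat_lit 0, nat_lit 0, nat_lit 4065, nat_lit 0, nat_lit 0, nat_lit 0, nat_lit 0, nat_lit 0, nat_lit 0, nat_lit 0, nat_lit 0, nat_lit 0, nat_lit 0, nat_lit 250000, nat_lit 0, nat_lit 0, [(nat_lit 25, [(nat_lit 0, nat_lit 1000)])],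
 ⟨p119_k0, nat_lit 0, nat_lit 0, nat_lit 110, nat_lit 0, nat_lit 0, [nat_lit 764000001, nat_lit 1368800000, nat_lit 2118000000], [], [nat_lit 26613593680, nat_lit 27220731255, nat_lit 27631620340, nat_lit 28327394048, nat_lit 26624574400, nat_lit 27176547430, nat_lit 27550647790, nat_lit 28077051915], nat_lit 0, nat_lit 0, nat_lit 0, nat_lit 0, nat_lit 0, nat_lit 0, [], [nat_lit 20, nat_lit 40, nat_lit 40, nat_lit 80, nat_lit 16, nat_lit 249, nat_lit 40, nat_lit 8]⟩, C1.Rw.none,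
 ⟨nat_lit 2738, nat_lit 3163, ⟨.ofNat (nat_lit 771478), .ofNat (nat_lit 801955), .ofNat (nat_lit 793629), .ofNat (nat_lit 824110), .ofNat (nat_lit 766852), .ofNat (nat_lit 796383), .ofNat (nat_lit 789265), .ofNat (nat_lit 818800)⟩, ⟨.ofNat (nat_lit 139899), .ofNat (nat_lit 261806), .ofNat (nat_lit 184209), .ofNat (nat_lit 306116), .ofNat (nat_lit 143475), .ofNat (nat_lit 261598), .ofNat (nat_lit 188310), .ofNat (nat_lit 306433)⟩⟩, []⟩
noncomputable def p119_l69 : Lf2 := ⟨nat_lit 0, nat_lit 20, [nat_lit 5, nat_lit 5, nat_lit 5, nat_lit 20], true, nat_lit 80, nat_lit 160, nat_lit 0, nat_lit 300, ⟨nat_lit 0, nat_lit 1000, nat_lit 0, nat_lit 8, nat_lit 316, nat_lit 1000, nat_lit 90, nat_lit 0, nat_lit 0, nat_lit 0, nat_lit 0, nat_lit 0, nat_lit 38918844, nat_lit 24678264, nat_lit 3402892, nat_lit 4391623, true, true⟩,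
 nat_lit 0, nat_lit 0, nat_lit 0, nat_lit 0, nat_lit 3077, nat_lit 0, nat_lit 135, nat_lit 0, nat_lit 0, nat_lit 0, nat_lit 0, nat_lit 0, nat_lit 0, nat_lit 0, nat_lit 0, nat_lit 250000, nat_lit 0, nat_lit 0, [(nat_lit 25, [(nat_lit 0, nat_lit 1000)])],
 ⟨p119_k2, nat_lit 0, nat_lit 0, nat_lit 113, nat_lit 0, nat_lit 0, [nat_lit 764000001, nat_lit 1368800000, nat_lit 2118000000], [], [nat_lit 25890804279, nat_lit 26426751514, nat_lit 26781058200, nat_lit 27385898651, nat_lit 26229277794, nat_lit 26719538368, nat_lit 27045734107, nat_lit 27516196052], nat_lit 0, nat_lit 0, nat_lit 0, nat_lit 0, nat_lit 0, nat_lit 0, [], [nat_lit 20, nat_lit 40, nat_lit 40, nat_lit 80, nat_lit 16, nat_lit 249, nat_lit 40, nat_lit 8]⟩, C1.Rw.none,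
 ⟨nat_lit 2236, nat_lit 2739, ⟨.ofNat (nat_lit 766852), .ofNat (nat_lit 796383), .ofNat (nat_lit 789269), .ofNat (nat_lit 818800), .ofNat (nat_lit 762142), .ofNat (nat_lit 790650), .ofNat (nat_lit 784917), .ofNat (nat_lit 813424)⟩, ⟨.ofNat (nat_lit 143475), .ofNat (nat_lit 261598), .ofNat (nat_lit 188310), .ofNat (nat_lit 306433), .ofNat (nat_lit 146758), .ofNat (nat_lit 260789), .ofNat (nat_lit 192306), .ofNat (nat_lit 306337)⟩⟩, []⟩
noncomputable def p119_l70 : Lf2 := ⟨nat_lit 0, nat_lit 15, [nat_lit 30, nat_lit 5, nat_lit 5, nat_lit 20], true, nat_lit 80, nat_lit 160, nat_lit 0, nat_lit 300, ⟨nat_lit 0, nat_lit 1000, nat_lit 0, nat_lit 8, nat_lit 329, nat_lit 1000, nat_lit 90, nat_lit 0, nat_lit 0, nat_lit 0, nat_lit 0, nat_lit 0, nat_lit 37808054, nat_lit 25876664, nat_lit 3315282, nat_lit 4410667, true, true⟩,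
 nat_lit 0, nat_lit 0, nat_lit 0, nat_lit 0, nat_lit 2919, nat_lit 0, nat_lit 23, nat_lit 0, nat_lit 0, nat_lit 0, nat_lit 0, nat_lit 0, nat_lit 0, nat_lit 0, nat_lit 0, nat_lit 394450, nat_lit 0, nat_lit 0, [(nat_lit 25, [(nat_lit 0, nat_lit 37), (nat_lit 1, nat_lit 963)])],
 ⟨p119_k3, nat_lit 0, nat_lit 0, nat_lit 119, nat_lit 0, nat_lit 0, [nat_lit 841810401, nat_lit 1015700000, nat_lit 959703600], [], [nat_lit 26198883320, nat_lit 27193824644, nat_lit 27087619675, nat_lit 28143770946, nat_lit 26654297320, nat_lit 27485721134, nat_lit 27394532576, nat_lit 28265230102], nat_lit 0, nat_lit 0, nat_lit 0, nat_lit 0, nat_lit 0, nat_lit 0, [], [nat_lit 20, nat_lit 40, nat_lit 40, nat_lit 80, nat_lit 16, nat_lit 249, nat_lit 40, nat_lit 8]⟩, C1.Rw.none,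
 ⟨nat_lit 2236, nat_lit 3163, ⟨.ofNat (nat_lit 801955), .ofNat (nat_lit 832432), .ofNat (nat_lit 824110), .ofNat (nat_lit 854586), .ofNat (nat_lit 790650), .ofNat (nat_lit 819158), .ofNat (nat_lit 813424), .ofNat (nat_lit 841932)⟩, ⟨.ofNat (nat_lit 139899), .ofNat (nat_lit 261806), .ofNat (nat_lit 184209), .ofNat (nat_lit 306116), .ofNat (nat_lit 146758), .ofNat (nat_lit 260789), .ofNat (nat_lit 192306), .ofNat (nat_lit 306337)⟩⟩, []⟩
noncomputable def p119_l71 : Lf2 := ⟨nat_lit 0, nat_lit 15, [nat_lit 30, nat_lit 5, nat_lit 5, nat_lit 20], false, nat_lit 80, nat_lit 160, nat_lit 0, nat_lit 276, ⟨nat_lit 67, nat_lit 933, nat_lit 0, nat_lit 8, nat_lit 330, nat_lit 933, nat_lit 85, nat_lit 0, nat_lit 0, nat_lit 0, nat_lit 0, nat_lit 0, nat_lit 37866155, nat_lit 26079127, nat_lit 3054718, nat_lit 4357426, true, true⟩,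
 nat_lit 0, nat_lit 0, nat_lit 854, nat_lit 0, nat_lit 4024, nat_lit 543, nat_lit 0, nat_lit 0, nat_lit 0, nat_lit 36, nat_lit 0, nat_lit 0, nat_lit 0, nat_lit 0, nat_lit 0, nat_lit 233250, nat_lit 0, nat_lit 0, [(nat_lit 25, [(nat_lit 0, nat_lit 933)])],
 ⟨p119_k3, nat_lit 0, nat_lit 0, nat_lit 115, nat_lit 0, nat_lit 0, [nat_lit 775658001, nat_lit 1496984400, nat_lit 2394844000], [], [nat_lit 27904920464, nat_lit 28480319244, nat_lit 28918627200, nat_lit 29465642792, nat_lit 27840071984, nat_lit 28364109384, nat_lit 28762463328, nat_lit 29261126040], nat_lit 0, nat_lit 0, nat_lit 0, nat_lit 0, nat_lit 0, nat_lit 0, [], [nat_lit 20, nat_lit 40, nat_lit 40, nat_lit 80, nat_lit 16, nat_lit 249, nat_lit 40, nat_lit 8]⟩, ⟨p119_k4, nat_lit 0, nat_lit 0, nat_lit 707, nat_lit 0, nat_lit 1170511, [nat_lit 219894000, nat_lit 418750000, nat_lit 659414000], [], [nat_lit 2456260296, nat_lit 2495075726, nat_lit 2516792924,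 nat_lit 2561347764, nat_lit 2093874481, nat_lit 2103642250, nat_lit 2113407286, nat_lit 2136506356], nat_lit 1271250, nat_lit 1271250, nat_lit 1271250, nat_lit 1271250, nat_lit 0, nat_lit 1949250, [nat_lit 780000, nat_lit 1435000, nat_lit 1271250], [nat_lit 8, nat_lit 40, nat_lit 40, nat_lit 80, nat_lit 1, nat_lit 294, nat_lit 75, nat_lit 8]⟩,
 ⟨nat_lit 2738, nat_lit 3163, ⟨.ofNat (nat_lit 801955), .ofNat (nat_lit 832432), .ofNat (nat_lit 824110), .ofNat (nat_lit 854586), .ofNat (nat_lit 796383), .ofNat (nat_lit 825913), .ofNat (nat_lit 818800), .ofNat (nat_lit 848331)⟩, ⟨.ofNat (nat_lit 139899), .ofNat (nat_lit 261806), .ofNat (nat_lit 162054), .ofNat (nat_lit 283961), .ofNat (nat_lit 143475), .ofNat (nat_lit 261598), .ofNat (nat_lit 165893), .ofNat (nat_lit 284015)⟩⟩, [⟨nat_lit 4, nat_lit 100, nat_lit 58, nat_lit 68, nat_lit 18607165⟩, ⟨nat_lit 7, nat_lit 100, nat_lit 92, nat_lit 68, nat_lit 6339591⟩]⟩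
noncomputable def p119_l72 : Lf2 := ⟨nat_lit 0, nat_lit 15, [nat_lit 30, nat_lit 5, nat_lit 5, nat_lit 20], true, nat_lit 80, nat_lit 160, nat_lit 0, nat_lit 276, ⟨nat_lit 0, nat_lit 1000, nat_lit 0, nat_lit 8, nat_lit 328, nat_lit 1000, nat_lit 86, nat_lit 0, nat_lit 0, nat_lit 0, nat_lit 0, nat_lit 0, nat_lit 38054421, nat_lit 25845134, nat_lit 3100445, nat_lit 4361128, true, true⟩,
 nat_lit 0, nat_lit 0, nat_lit 0, nat_lit 0, nat_lit 3182, nat_lit 0, nat_lit 0, nat_lit 0, nat_lit 0, nat_lit 0, nat_lit 0, nat_lit 0, nat_lit 0, nat_lit 0, nat_lit 0, nat_lit 250000, nat_lit 0, nat_lit 0, [(nat_lit 25, [(nat_lit 0, nat_lit 1000)])],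
 ⟨p119_k5, nat_lit 0, nat_lit 0, nat_lit 105, nat_lit 0, nat_lit 0, [nat_lit 764000001, nat_lit 1368800000, nat_lit 1715600000], [], [nat_lit 27065662734, nat_lit 27615249388, nat_lit 28019512922, nat_lit 28617258788, nat_lit 27380797359, nat_lit 27839080830, nat_lit 28206354224, nat_lit 28685901648], nat_lit 0, nat_lit 0, nat_lit 0, nat_lit 0, nat_lit 0, nat_lit 0, [], [nat_lit 35, nat_lit 40, nat_lit 40, nat_lit 80, nat_lit 22, nat_lit 249, nat_lit 40, nat_lit 9]⟩, C1.Rw.none,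
 ⟨nat_lit 2236, nat_lit 2739, ⟨.ofNat (nat_lit 796383), .ofNat (nat_lit 825913), .ofNat (nat_lit 818800), .ofNat (nat_lit 848331), .ofNat (nat_lit 790650), .ofNat (nat_lit 819158), .ofNat (nat_lit 813424), .ofNat (nat_lit 841932)⟩, ⟨.ofNat (nat_lit 143475), .ofNat (nat_lit 261598), .ofNat (nat_lit 165893), .ofNat (nat_lit 284015), .ofNat (nat_lit 146758), .ofNat (nat_lit 260789), .ofNat (nat_lit 169532), .ofNat (nat_lit 283563)⟩⟩, [⟨nat_lit 16, nat_lit 54, nat_lit 100, nat_lit 73, nat_lit 69014217⟩]⟩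
noncomputable def p119_l73 : Lf2 := ⟨nat_lit 0, nat_lit 20, [nat_lit 5, nat_lit 5, nat_lit 5, nat_lit 20], false, nat_lit 80, nat_lit 160, nat_lit 0, nat_lit 300, ⟨nat_lit 1000, nat_lit 0, nat_lit 0, nat_lit 0, nat_lit 0, nat_lit 0, nat_lit 0, nat_lit 0, nat_lit 0, nat_lit 0, nat_lit 0, nat_lit 0, nat_lit 0, nat_lit 0, nat_lit 0, nat_lit 0, false, false⟩,
 nat_lit 0, nat_lit 0, nat_lit 0, nat_lit 0, nat_lit 6756, nat_lit 0, nat_lit 0, nat_lit 0, nat_lit 0, nat_lit 261, nat_lit 0, nat_lit 464, nat_lit 0, nat_lit 0, nat_lit 0, nat_lit 0, nat_lit 0, nat_lit 0, [],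
 ⟨p119_k0, nat_lit 0, nat_lit 0, nat_lit 119, nat_lit 0, nat_lit 0, [nat_lit 938000000, nat_lit 3282000000, nat_lit 6250000000], [], [nat_lit 31996219616, nat_lit 33535211028, nat_lit 33297780800, nat_lit 35051652504, nat_lit 30856957496, nat_lit 32220441696, nat_lit 32024698832, nat_lit 33311875048], nat_lit 0, nat_lit 0, nat_lit 0, nat_lit 0, nat_lit 0, nat_lit 0, [], [nat_lit 20, nat_lit 40, nat_lit 40, nat_lit 80, nat_lit 16, nat_lit 249, nat_lit 40, nat_lit 8]⟩, ⟨p119_k1, nat_lit 0, nat_lit 0, nat_lit 0, nat_lit 0, nat_lit 1109960, [nat_lit 3282000000, nat_lit 6250000000, nat_lit 11872000000], [], [nat_lit 19990594875, nat_lit 20432655000, nat_lit 20464148000, nat_lit 20898904000, nat_lit 25055641000, nat_lit 25501990875, nat_lit 25537026875, nat_lit 25985917875], nat_lit 1271250, nat_lit 1271250, nat_lit 1271250, nat_lit 1271250, nat_lit 0, nat_lit 2118750, [nat_lit 780000, nat_lit 1435000, nat_lit 1271250],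 [nat_lit 23, nat_lit 40, nat_lit 40, nat_lit 80]⟩,
 zbF0, [⟨nat_lit 19, nat_lit 100, nat_lit 95, nat_lit 87, nat_lit 37895139⟩]⟩
noncomputable def p119_l74 : Lf2 := ⟨nat_lit 0, nat_lit 20, [nat_lit 5, nat_lit 5, nat_lit 5, nat_lit 20], false, nat_lit 80, nat_lit 160, nat_lit 0, nat_lit 300, ⟨nat_lit 146, nat_lit 854, nat_lit 0, nat_lit 8, nat_lit 328, nat_lit 854, nat_lit 94, nat_lit 0, nat_lit 0, nat_lit 0, nat_lit 0, nat_lit 0, nat_lit 37750377, nat_lit 25703267, nat_lit 3546356, nat_lit 4456258, true, true⟩,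
 nat_lit 0, nat_lit 0, nat_lit 1773, nat_lit 0, nat_lit 4324, nat_lit 1128, nat_lit 0, nat_lit 0, nat_lit 0, nat_lit 96, nat_lit 0, nat_lit 0, nat_lit 0, nat_lit 0, nat_lit 0, nat_lit 213500, nat_lit 0, nat_lit 0, [(nat_lit 25, [(nat_lit 0, nat_lit 854)])],
 ⟨p119_k0, nat_lit 0, nat_lit 0, nat_lit 115, nat_lit 0, nat_lit 0, [nat_lit 789404000, nat_lit 1648127200, nat_lit 2721272000], [], [nat_lit 28257279264, nat_lit 28852675294, nat_lit 29302595200, nat_lit 29981202692, nat_lit 28074449784, nat_lit 28615804684, nat_lit 29023782928, nat_lit 29538342040], nat_lit 0, nat_lit 0, nat_lit 0, nat_lit 0, nat_lit 0, nat_lit 0, [], [nat_lit 20, nat_lit 40, nat_lit 40, nat_lit 80, nat_lit 16, nat_lit 249, nat_lit 40, nat_lit 8]⟩, ⟨p119_k1, nat_lit 0, nat_lit 0, nat_lit 648, nat_lit 0, nat_lit 895516, [nat_lit 479172000, nat_lit 912500000, nat_lit 1733312000], [], [nat_lit 5315701448, nat_lit 5347859405, nat_lit 5412058112,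 nat_lit 5441590530, nat_lit 4609504581, nat_lit 4625264688, nat_lit 4665219624, nat_lit 4679223374], nat_lit 1271250, nat_lit 1271250, nat_lit 1271250, nat_lit 1271250, nat_lit 0, nat_lit 2118750, [nat_lit 780000, nat_lit 1435000, nat_lit 1271250], [nat_lit 23, nat_lit 40, nat_lit 40, nat_lit 80, nat_lit 12, nat_lit 373, nat_lit 150, nat_lit 9]⟩,
 ⟨nat_lit 2738, nat_lit 3163, ⟨.ofNat (nat_lit 801955), .ofNat (nat_lit 832432), .ofNat (nat_lit 813032), .ofNat (nat_lit 843509), .ofNat (nat_lit 796383), .ofNat (nat_lit 825913), .ofNat (nat_lit 807591), .ofNat (nat_lit 837122)⟩, ⟨.ofNat (nat_lit 162054), .ofNat (nat_lit 283961), .ofNat (nat_lit 184209), .ofNat (nat_lit 306116), .ofNat (nat_lit 165893), .ofNat (nat_lit 284015), .ofNat (nat_lit 188310), .ofNat (nat_lit 306433)⟩⟩, [⟨nat_lit 19, nat_lit 99, nat_lit 100, nat_lit 83, nat_lit 16532946⟩]⟩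
noncomputable def p119_l75 : Lf2 := ⟨nat_lit 0, nat_lit 20, [nat_lit 5, nat_lit 5, nat_lit 5, nat_lit 20], false, nat_lit 80, nat_lit 160, nat_lit 0, nat_lit 300, ⟨nat_lit 115, nat_lit 885, nat_lit 0, nat_lit 8, nat_lit 325, nat_lit 885, nat_lit 95, nat_lit 0, nat_lit 0, nat_lit 0, nat_lit 0, nat_lit 0, nat_lit 37982521, nat_lit 25421467, nat_lit 3596012, nat_lit 4458415, true, true⟩,
 nat_lit 0, nat_lit 0, nat_lit 1424, nat_lit 0, nat_lit 2947, nat_lit 905, nat_lit 192, nat_lit 0, nat_lit 0, nat_lit 70, nat_lit 0, nat_lit 0, nat_lit 0, nat_lit 0, nat_lit 0, nat_lit 221250, nat_lit 0, nat_lit 0, [(nat_lit 25, [(nat_lit 0, nat_lit 885)])],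
 ⟨p119_k2, nat_lit 0, nat_lit 0, nat_lit 117, nat_lit 0, nat_lit 0, [nat_lit 784010001, nat_lit 1588818001, nat_lit 2593180000], [], [nat_lit 26709050944, nat_lit 26948777871, nat_lit 27614782751, nat_lit 27904481525, nat_lit 27117862137, nat_lit 27324792818, nat_lit 27843194235, nat_lit 28041625802], nat_lit 0, nat_lit 0, nat_lit 0, nat_lit 0, nat_lit 0, nat_lit 0, [], [nat_lit 20, nat_lit 40, nat_lit 40, nat_lit 80, nat_lit 16, nat_lit 249, nat_lit 40, nat_lit 8]⟩, ⟨p119_k1, nat_lit 0, nat_lit 0, nat_lit 663, nat_lit 0, nat_lit 937246, [nat_lit 377430000, nat_lit 718750000, nat_lit 1365280000], [], [nat_lit 4270036420, nat_lit 4279111648, nat_lit 4327822410, nat_lit 4336065368, nat_lit 3671060688, nat_lit 3674782605, nat_lit 3702530860, nat_lit 3705683017], nat_lit 1271250, nat_lit 1271250, nat_lit 1271250, nat_lit 1271250, nat_lit 0, nat_lit 2118750, [nat_lit 780000, nat_lit 1435000, nat_lit 1271250], [nat_lit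 23, nat_lit 40, nat_lit 40, nat_lit 80, nat_lit 12, nat_lit 373, nat_lit 150, nat_lit 9]⟩,
 ⟨nat_lit 2500, nat_lit 2739, ⟨.ofNat (nat_lit 796383), .ofNat (nat_lit 825913), .ofNat (nat_lit 801987), .ofNat (nat_lit 831518), .ofNat (nat_lit 793547), .ofNat (nat_lit 822579), .ofNat (nat_lit 799192), .ofNat (nat_lit 828224)⟩, ⟨.ofNat (nat_lit 165893), .ofNat (nat_lit 284015), .ofNat (nat_lit 188310), .ofNat (nat_lit 306433), .ofNat (nat_lit 167740), .ofNat (nat_lit 283869), .ofNat (nat_lit 190321), .ofNat (nat_lit 306450)⟩⟩, [⟨nat_lit 16, nat_lit 51, nat_lit 100, nat_lit 77, nat_lit 83178759⟩, ⟨nat_lit 19, nat_lit 100, nat_lit 99, nat_lit 83, nat_lit 12244605⟩]⟩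
noncomputable def p119_l76 : Lf2 := ⟨nat_lit 0, nat_lit 20, [nat_lit 5, nat_lit 5, nat_lit 5, nat_lit 20], false, nat_lit 80, nat_lit 160, nat_lit 0, nat_lit 300, ⟨nat_lit 116, nat_lit 884, nat_lit 0, nat_lit 8, nat_lit 324, nat_lit 884, nat_lit 95, nat_lit 0, nat_lit 0, nat_lit 0, nat_lit 0, nat_lit 0, nat_lit 38077313, nat_lit 25300021, nat_lit 3622666, nat_lit 4460341, true, true⟩,
 nat_lit 0, nat_lit 0, nat_lit 1444, nat_lit 0, nat_lit 2790, nat_lit 918, nat_lit 194, nat_lit 0, nat_lit 0, nat_lit 72, nat_lit 0, nat_lit 0, nat_lit 0, nat_lit 0, nat_lit 0, nat_lit 221000, nat_lit 0, nat_lit 0, [(nat_lit 25, [(nat_lit 0, nat_lit 884)])],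
 ⟨p119_k21, nat_lit 0, nat_lit 0, nat_lit 119, nat_lit 0, nat_lit 0, [nat_lit 784184000, nat_lit 1590731201, nat_lit 2597312000], [], [nat_lit 26739210328, nat_lit 26985782040, nat_lit 27628250465, nat_lit 27911527860, nat_lit 27179621679, nat_lit 27382738241, nat_lit 27885637166, nat_lit 28098063670], nat_lit 0, nat_lit 0, nat_lit 0, nat_lit 0, nat_lit 0, nat_lit 0, [], [nat_lit 20, nat_lit 40, nat_lit 40, nat_lit 80, nat_lit 16, nat_lit 249, nat_lit 40, nat_lit 7]⟩, ⟨p119_k1, nat_lit 0, nat_lit 0, nat_lit 689, nat_lit 0, nat_lit 1013430, [nat_lit 380712000, nat_lit 725000000, nat_lit 1377152000], [], [nat_lit 4273396508, nat_lit 4282541131, nat_lit 4331753784, nat_lit 4340055011, nat_lit 3663001307, nat_lit 3666723252, nat_lit 3701338396, nat_lit 3707394933], nat_lit 1271250, nat_lit 1271250, nat_lit 1271250, nat_lit 1271250, nat_lit 0, nat_lit 2118750, [nat_lit 780000, nat_lit 1435000, nat_lit 1271250], [nat_lit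 23, nat_lit 40, nat_lit 40, nat_lit 80, nat_lit 12, nat_lit 373, nat_lit 150, nat_lit 9]⟩,
 ⟨nat_lit 2236, nat_lit 2500, ⟨.ofNat (nat_lit 793547), .ofNat (nat_lit 822579), .ofNat (nat_lit 799192), .ofNat (nat_lit 828224), .ofNat (nat_lit 790650), .ofNat (nat_lit 819158), .ofNat (nat_lit 796344), .ofNat (nat_lit 824851)⟩, ⟨.ofNat (nat_lit 167740), .ofNat (nat_lit 283869), .ofNat (nat_lit 190321), .ofNat (nat_lit 306450), .ofNat (nat_lit 169532), .ofNat (nat_lit 283563), .ofNat (nat_lit 192306), .ofNat (nat_lit 306337)⟩⟩, [⟨nat_lit 13, nat_lit 51, nat_lit 68, nat_lit 100, nat_lit 259704961⟩, ⟨nat_lit 4, nat_lit 100, nat_lit 47, nat_lit 78, nat_lit 104877841⟩, ⟨nat_lit 19, nat_lit 100, nat_lit 99, nat_lit 83, nat_lit 12542008⟩]⟩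
noncomputable def p119_l77 : Lf2 := ⟨nat_lit 0, nat_lit 20, [nat_lit 5, nat_lit 5, nat_lit 5, nat_lit 20], false, nat_lit 80, nat_lit 160, nat_lit 0, nat_lit 296, ⟨nat_lit 215, nat_lit 785, nat_lit 0, nat_lit 8, nat_lit 327, nat_lit 785, nat_lit 95, nat_lit 0, nat_lit 0, nat_lit 0, nat_lit 0, nat_lit 0, nat_lit 37787649, nat_lit 25628975, nat_lit 3583376, nat_lit 4462024, true, true⟩,
 nat_lit 0, nat_lit 0, nat_lit 2527, nat_lit 0, nat_lit 3051, nat_lit 1643, nat_lit 220, nat_lit 0, nat_lit 0, nat_lit 136, nat_lit 0, nat_lit 0, nat_lit 0, nat_lit 0, nat_lit 0, nat_lit 196250, nat_lit 0, nat_lit 0, [(nat_lit 25, [(nat_lit 0, nat_lit 785)])],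
 ⟨p119_k2, nat_lit 0, nat_lit 0, nat_lit 117, nat_lit 0, nat_lit 0, [nat_lit 801410000, nat_lit 1780138000, nat_lit 3006380000], [], [nat_lit 26886000448, nat_lit 27119085547, nat_lit 27793510183, nat_lit 28087462609, nat_lit 27242683739, nat_lit 27452140970, nat_lit 27975386889, nat_lit 28176139684], nat_lit 0, nat_lit 0, nat_lit 0, nat_lit 0, nat_lit 0, nat_lit 0, [], [nat_lit 20, nat_lit 40, nat_lit 40, nat_lit 80, nat_lit 16, nat_lit 249, nat_lit 40, nat_lit 8]⟩, ⟨p119_k6, nat_lit 0, nat_lit 0, nat_lit 663, nat_lit 0, nat_lit 939422, [nat_lit 705630000, nat_lit 1343750000, nat_lit 2552480000], [], [nat_lit 7839888879, nat_lit 7856946447, nat_lit 7945748175, nat_lit 7961286869, nat_lit 6765115228, nat_lit 6772563204, nat_lit 6834845927, nat_lit 6846534707], nat_lit 1271250, nat_lit 1271250, nat_lit 1271250, nat_lit 1271250, nat_lit 0, nat_lit 2090500, [nat_lit 780000, nat_lit 1435000, nat_lit 1271250], [nat_lit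 23, nat_lit 40, nat_lit 40, nat_lit 80, nat_lit 12, nat_lit 373, nat_lit 150, nat_lit 9]⟩,
 ⟨nat_lit 2500, nat_lit 2739, ⟨.ofNat (nat_lit 801987), .ofNat (nat_lit 831518), .ofNat (nat_lit 807591), .ofNat (nat_lit 837122), .ofNat (nat_lit 799192), .ofNat (nat_lit 828224), .ofNat (nat_lit 804837), .ofNat (nat_lit 833869)⟩, ⟨.ofNat (nat_lit 165893), .ofNat (nat_lit 284015), .ofNat (nat_lit 188310), .ofNat (nat_lit 306433), .ofNat (nat_lit 167740), .ofNat (nat_lit 283869), .ofNat (nat_lit 190321), .ofNat (nat_lit 306450)⟩⟩, [⟨nat_lit 4, nat_lit 100, nat_lit 51, nat_lit 77, nat_lit 116372855⟩, ⟨nat_lit 19, nat_lit 98, nat_lit 100, nat_lit 83, nat_lit 24298954⟩]⟩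
noncomputable def p119_l78 : Lf2 := ⟨nat_lit 0, nat_lit 20, [nat_lit 5, nat_lit 5, nat_lit 5, nat_lit 20], false, nat_lit 80, nat_lit 160, nat_lit 0, nat_lit 296, ⟨nat_lit 127, nat_lit 873, nat_lit 0, nat_lit 8, nat_lit 326, nat_lit 873, nat_lit 95, nat_lit 0, nat_lit 0, nat_lit 0, nat_lit 0, nat_lit 0, nat_lit 37880626, nat_lit 25509491, nat_lit 3609883, nat_lit 4464104, true, true⟩,
 nat_lit 0, nat_lit 0, nat_lit 1495, nat_lit 0, nat_lit 2779, nat_lit 972, nat_lit 200, nat_lit 0, nat_lit 0, nat_lit 81, nat_lit 0, nat_lit 0, nat_lit 0, nat_lit 0, nat_lit 0, nat_lit 218250, nat_lit 0, nat_lit 0, [(nat_lit 25, [(nat_lit 0, nat_lit 873)])],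
 ⟨p119_k21, nat_lit 0, nat_lit 0, nat_lit 119, nat_lit 0, nat_lit 0, [nat_lit 786098001, nat_lit 1611776400, nat_lit 2642764000], [], [nat_lit 26733698398, nat_lit 26966923029, nat_lit 27608896697, nat_lit 27891724186, nat_lit 27184166199, nat_lit 27387015530, nat_lit 27889423773, nat_lit 28084105663], nat_lit 0, nat_lit 0, nat_lit 0, nat_lit 0, nat_lit 0, nat_lit 0, [], [nat_lit 20, nat_lit 40, nat_lit 40, nat_lit 80, nat_lit 16, nat_lit 249, nat_lit 40, nat_lit 7]⟩, ⟨p119_k6, nat_lit 0, nat_lit 0, nat_lit 687, nat_lit 0, nat_lit 1012396, [nat_lit 416814000, nat_lit 793750000, nat_lit 1507744000], [], [nat_lit 4617218444, nat_lit 4627291557, nat_lit 4679768056, nat_lit 4688942849, nat_lit 3980558029, nat_lit 3985988165, nat_lit 4028353382, nat_lit 4035251695], nat_lit 1271250, nat_lit 1271250, nat_lit 1271250, nat_lit 1271250, nat_lit 0, nat_lit 2090500, [nat_lit 780000, nat_lit 1435000, nat_lit 1271250], [nat_lit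 23, nat_lit 40, nat_lit 40, nat_lit 80, nat_lit 12, nat_lit 373, nat_lit 150, nat_lit 9]⟩,
 ⟨nat_lit 2236, nat_lit 2500, ⟨.ofNat (nat_lit 799192), .ofNat (nat_lit 828224), .ofNat (nat_lit 804837), .ofNat (nat_lit 833869), .ofNat (nat_lit 796344), .ofNat (nat_lit 824851), .ofNat (nat_lit 802037), .ofNat (nat_lit 830545)⟩, ⟨.ofNat (nat_lit 167740), .ofNat (nat_lit 283869), .ofNat (nat_lit 190321), .ofNat (nat_lit 306450), .ofNat (nat_lit 169532), .ofNat (nat_lit 283563), .ofNat (nat_lit 192306), .ofNat (nat_lit 306337)⟩⟩, [⟨nat_lit 13, nat_lit 51, nat_lit 66, nat_lit 100, nat_lit 230723975⟩, ⟨nat_lit 16, nat_lit 47, nat_lit 100, nat_lit 78, nat_lit 111175135⟩, ⟨nat_lit 19, nat_lit 98, nat_lit 100, nat_lit 83, nat_lit 14378026⟩]⟩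
noncomputable def p119_l79 : Lf2 := ⟨nat_lit 0, nat_lit 20, [nat_lit 5, nat_lit 5, nat_lit 5, nat_lit 20], false, nat_lit 80, nat_lit 160, nat_lit 0, nat_lit 292, ⟨nat_lit 259, nat_lit 741, nat_lit 0, nat_lit 8, nat_lit 332, nat_lit 741, nat_lit 94, nat_lit 0, nat_lit 0, nat_lit 0, nat_lit 0, nat_lit 0, nat_lit 37366533, nat_lit 26112056, nat_lit 3521411, nat_lit 4462583, true, true⟩,
 nat_lit 0, nat_lit 0, nat_lit 2984, nat_lit 0, nat_lit 3365, nat_lit 1981, nat_lit 122, nat_lit 0, nat_lit 0, nat_lit 205, nat_lit 0, nat_lit 0, nat_lit 0, nat_lit 0, nat_lit 0, nat_lit 296400, nat_lit 0, nat_lit 0, [(nat_lit 25, [(nat_lit 1, nat_lit 741)])],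
 ⟨p119_k0, nat_lit 0, nat_lit 0, nat_lit 115, nat_lit 0, nat_lit 0, [nat_lit 868938801, nat_lit 1592618801, nat_lit 2296913200], [], [nat_lit 26819892001, nat_lit 27305881078, nat_lit 27719539180, nat_lit 28333129545, nat_lit 27083964251, nat_lit 27527225179, nat_lit 27872842331, nat_lit 28296770036], nat_lit 0, nat_lit 0, nat_lit 0, nat_lit 0, nat_lit 0, nat_lit 0, [], [nat_lit 20, nat_lit 40, nat_lit 40, nat_lit 80, nat_lit 16, nat_lit 249, nat_lit 40, nat_lit 8]⟩, ⟨p119_k7, nat_lit 0, nat_lit 0, nat_lit 651, nat_lit 0, nat_lit 907020, [nat_lit 850038000, nat_lit 1618750000, nat_lit 3074848000], [], [nat_lit 8694989856, nat_lit 8794705381, nat_lit 8970791235, nat_lit 9062882031, nat_lit 7547306788, nat_lit 7579059303, nat_lit 7648990351, nat_lit 7677648783], nat_lit 1271250, nat_lit 1271250, nat_lit 1271250, nat_lit 1271250, nat_lit 0, nat_lit 2062250, [nat_lit 780000, nat_lit 1435000, nat_lit 1271250], [nat_lit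 23, nat_lit 40, nat_lit 40, nat_lit 80, nat_lit 12, nat_lit 373, nat_lit 150, nat_lit 9]⟩,
 ⟨nat_lit 2738, nat_lit 3163, ⟨.ofNat (nat_lit 813032), .ofNat (nat_lit 843509), .ofNat (nat_lit 824110), .ofNat (nat_lit 854586), .ofNat (nat_lit 807591), .ofNat (nat_lit 837122), .ofNat (nat_lit 818800), .ofNat (nat_lit 848331)⟩, ⟨.ofNat (nat_lit 162054), .ofNat (nat_lit 283961), .ofNat (nat_lit 184209), .ofNat (nat_lit 306116), .ofNat (nat_lit 165893), .ofNat (nat_lit 284015), .ofNat (nat_lit 188310), .ofNat (nat_lit 306433)⟩⟩, [⟨nat_lit 16, nat_lit 57, nat_lit 100, nat_lit 76, nat_lit 101159891⟩, ⟨nat_lit 19, nat_lit 94, nat_lit 100, nat_lit 81, nat_lit 29304229⟩]⟩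
noncomputable def p119_l80 : Lf2 := ⟨nat_lit 0, nat_lit 20, [nat_lit 5, nat_lit 5, nat_lit 5, nat_lit 20], false, nat_lit 80, nat_lit 160, nat_lit 0, nat_lit 160, ⟨nat_lit 257, nat_lit 743, nat_lit 0, nat_lit 8, nat_lit 330, nat_lit 743, nat_lit 95, nat_lit 0, nat_lit 0, nat_lit 0, nat_lit 0, nat_lit 0, nat_lit 37542645, nat_lit 25880365, nat_lit 3576990, nat_lit 4468029, true, true⟩,
 nat_lit 0, nat_lit 0, nat_lit 2821, nat_lit 0, nat_lit 3059, nat_lit 1873, nat_lit 235, nat_lit 0, nat_lit 0, nat_lit 179, nat_lit 0, nat_lit 0, nat_lit 0, nat_lit 0, nat_lit 0, nat_lit 185750, nat_lit 0, nat_lit 0, [(nat_lit 25, [(nat_lit 0, nat_lit 743)])],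
 ⟨p119_k2, nat_lit 0, nat_lit 0, nat_lit 119, nat_lit 0, nat_lit 0, [nat_lit 808718001, nat_lit 1860492400, nat_lit 3179924000], [], [nat_lit 26958345178, nat_lit 27424979955, nat_lit 27807258447, nat_lit 28395817706, nat_lit 27316074398, nat_lit 27735377560, nat_lit 28049344552, nat_lit 28451207253], nat_lit 0, nat_lit 0, nat_lit 0, nat_lit 0, nat_lit 0, nat_lit 0, [], [nat_lit 20, nat_lit 40, nat_lit 40, nat_lit 80, nat_lit 16, nat_lit 249, nat_lit 40, nat_lit 8]⟩, ⟨p119_k7, nat_lit 0, nat_lit 0, nat_lit 697, nat_lit 0, nat_lit 1043370, [nat_lit 843474000, nat_lit 1606250000, nat_lit 3051104000], [], [nat_lit 9155845036, nat_lit 9196962071, nat_lit 9279486382, nat_lit 9317110141, nat_lit 7980195403, nat_lit 8012276694, nat_lit 8080913256, nat_lit 8112938458], nat_lit 1271250, nat_lit 1271250, nat_lit 1271250, nat_lit 1271250, nat_lit 0, nat_lit 1100001, [nat_lit 780000, nat_lit 1435000, nat_lit 1271250], [nat_lit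 23, nat_lit 40, nat_lit 40, nat_lit 80, nat_lit 12, nat_lit 345, nat_lit 125, nat_lit 8]⟩,
 ⟨nat_lit 2236, nat_lit 2739, ⟨.ofNat (nat_lit 807591), .ofNat (nat_lit 837122), .ofNat (nat_lit 818800), .ofNat (nat_lit 848331), .ofNat (nat_lit 802037), .ofNat (nat_lit 830545), .ofNat (nat_lit 813424), .ofNat (nat_lit 841932)⟩, ⟨.ofNat (nat_lit 165893), .ofNat (nat_lit 284015), .ofNat (nat_lit 188310), .ofNat (nat_lit 306433), .ofNat (nat_lit 169532), .ofNat (nat_lit 283563), .ofNat (nat_lit 192306), .ofNat (nat_lit 306337)⟩⟩, [⟨nat_lit 4, nat_lit 100, nat_lit 49, nat_lit 78, nat_lit 139042023⟩]⟩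
noncomputable def p119_l81 : Lf2 := ⟨nat_lit 0, nat_lit 20, [nat_lit 5, nat_lit 5, nat_lit 5, nat_lit 20], false, nat_lit 80, nat_lit 160, nat_lit 160, nat_lit 292, ⟨nat_lit 259, nat_lit 741, nat_lit 0, nat_lit 8, nat_lit 331, nat_lit 741, nat_lit 95, nat_lit 0, nat_lit 0, nat_lit 0, nat_lit 0, nat_lit 0, nat_lit 37496746, nat_lit 25938913, nat_lit 3564341, nat_lit 4466982, true, true⟩,
 nat_lit 0, nat_lit 0, nat_lit 2897, nat_lit 0, nat_lit 3115, nat_lit 1923, nat_lit 230, nat_lit 0, nat_lit 0, nat_lit 195, nat_lit 0, nat_lit 0, nat_lit 0, nat_lit 0, nat_lit 0, nat_lit 185250, nat_lit 0, nat_lit 0, [(nat_lit 25, [(nat_lit 0, nat_lit 741)])],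
 ⟨p119_k2, nat_lit 0, nat_lit 0, nat_lit 117, nat_lit 0, nat_lit 0, [nat_lit 809066001, nat_lit 1864318801, nat_lit 3188188000], [], [nat_lit 26980372389, nat_lit 27215529809, nat_lit 27903496295, nat_lit 28200066353, nat_lit 27295302854, nat_lit 27510681630, nat_lit 28046623836, nat_lit 28252848064], nat_lit 0, nat_lit 0, nat_lit 0, nat_lit 0, nat_lit 0, nat_lit 0, [], [nat_lit 20, nat_lit 40, nat_lit 40, nat_lit 80, nat_lit 16, nat_lit 249, nat_lit 40, nat_lit 8]⟩, ⟨p119_k7, nat_lit 0, nat_lit 0, nat_lit 550, nat_lit 0, nat_lit 974528, [nat_lit 850038000, nat_lit 1618750000, nat_lit 3074848000], [], [nat_lit 7501644935, nat_lit 7547352439, nat_lit 7637124060, nat_lit 7683948578, nat_lit 7707758178, nat_lit 7753613079, nat_lit 7843234407, nat_lit 7885812412], nat_lit 1271250, nat_lit 1271250, nat_lit 1271250, nat_lit 1271250, nat_lit 1100001, nat_lit 2230250, [nat_lit 780000, nat_lit 1435000, nat_lit 1271250],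 [nat_lit 23, nat_lit 40, nat_lit 40, nat_lit 80, nat_lit 12, nat_lit 373, nat_lit 150, nat_lit 8]⟩,
 ⟨nat_lit 2500, nat_lit 2739, ⟨.ofNat (nat_lit 807591), .ofNat (nat_lit 837122), .ofNat (nat_lit 818800), .ofNat (nat_lit 848331), .ofNat (nat_lit 804837), .ofNat (nat_lit 833869), .ofNat (nat_lit 816128), .ofNat (nat_lit 845160)⟩, ⟨.ofNat (nat_lit 165893), .ofNat (nat_lit 284015), .ofNat (nat_lit 188310), .ofNat (nat_lit 306433), .ofNat (nat_lit 167740), .ofNat (nat_lit 283869), .ofNat (nat_lit 190321), .ofNat (nat_lit 306450)⟩⟩, [⟨nat_lit 16, nat_lit 51, nat_lit 100, nat_lit 77, nat_lit 130421347⟩, ⟨nat_lit 7, nat_lit 100, nat_lit 94, nat_lit 81, nat_lit 84223399⟩]⟩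
noncomputable def p119_l82 : Lf2 := ⟨nat_lit 0, nat_lit 20, [nat_lit 5, nat_lit 5, nat_lit 5, nat_lit 20], false, nat_lit 80, nat_lit 160, nat_lit 160, nat_lit 292, ⟨nat_lit 258, nat_lit 742, nat_lit 0, nat_lit 8, nat_lit 329, nat_lit 742, nat_lit 95, nat_lit 0, nat_lit 0, nat_lit 0, nat_lit 0, nat_lit 0, nat_lit 37587014, nat_lit 25822360, nat_lit 3590626, nat_lit 4469283, true, true⟩,
 nat_lit 0, nat_lit 0, nat_lit 2882, nat_lit 0, nat_lit 2883, nat_lit 1914, nat_lit 238, nat_lit 0, nat_lit 0, nat_lit 194, nat_lit 0, nat_lit 0, nat_lit 0, nat_lit 0, nat_lit 0, nat_lit 185500, nat_lit 0, nat_lit 0, [(nat_lit 25, [(nat_lit 0, nat_lit 742)])],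
 ⟨p119_k21, nat_lit 0, nat_lit 0, nat_lit 119, nat_lit 0, nat_lit 0, [nat_lit 808892001, nat_lit 1862405600, nat_lit 3184056000], [], [nat_lit 26899686438, nat_lit 27139075383, nat_lit 27791877781, nat_lit 28078958922, nat_lit 27312940803, nat_lit 27518316684, nat_lit 28025364107, nat_lit 28222367225], nat_lit 0, nat_lit 0, nat_lit 0, nat_lit 0, nat_lit 0, nat_lit 0, [], [nat_lit 20, nat_lit 40, nat_lit 40, nat_lit 80, nat_lit 16, nat_lit 249, nat_lit 40, nat_lit 7]⟩, ⟨p119_k7, nat_lit 0, nat_lit 0, nat_lit 574, nat_lit 0, nat_lit 1043370, [nat_lit 846756000, nat_lit 1612500000, nat_lit 3062976000], [], [nat_lit 7482024702, nat_lit 7527558786, nat_lit 7616955240, nat_lit 7661115196, nat_lit 7685187583, nat_lit 7730868275, nat_lit 7820115010, nat_lit 7862031559], nat_lit 1271250, nat_lit 1271250, nat_lit 1271250, nat_lit 1271250, nat_lit 1100001, nat_lit 2230250, [nat_lit 780000, nat_lit 1435000, nat_lit 1271250],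 [nat_lit 23, nat_lit 40, nat_lit 40, nat_lit 80, nat_lit 12, nat_lit 373, nat_lit 150, nat_lit 8]⟩,
 ⟨nat_lit 2236, nat_lit 2500, ⟨.ofNat (nat_lit 804837), .ofNat (nat_lit 833869), .ofNat (nat_lit 816128), .ofNat (nat_lit 845160), .ofNat (nat_lit 802037), .ofNat (nat_lit 830545), .ofNat (nat_lit 813424), .ofNat (nat_lit 841932)⟩, ⟨.ofNat (nat_lit 167740), .ofNat (nat_lit 283869), .ofNat (nat_lit 190321), .ofNat (nat_lit 306450), .ofNat (nat_lit 169532), .ofNat (nat_lit 283563), .ofNat (nat_lit 192306), .ofNat (nat_lit 306337)⟩⟩, [⟨nat_lit 16, nat_lit 47, nat_lit 100, nat_lit 78, nat_lit 159448920⟩, ⟨nat_lit 7, nat_lit 100, nat_lit 94, nat_lit 81, nat_lit 83778104⟩]⟩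
noncomputable def p119_l83 : Lf2 := ⟨nat_lit 0, nat_lit 20, [nat_lit 5, nat_lit 5, nat_lit 5, nat_lit 20], false, nat_lit 160, nat_lit 200, nat_lit 16, nat_lit 300, ⟨nat_lit 80, nat_lit 920, nat_lit 0, nat_lit 8, nat_lit 321, nat_lit 920, nat_lit 125, nat_lit 0, nat_lit 0, nat_lit 0, nat_lit 0, nat_lit 0, nat_lit 37153184, nat_lit 24411397, nat_lit 5435419, nat_lit 4780716, true, true⟩,
 nat_lit 0, nat_lit 0, nat_lit 1132, nat_lit 0, nat_lit 3390, nat_lit 720, nat_lit 0, nat_lit 0, nat_lit 0, nat_lit 28, nat_lit 0, nat_lit 0, nat_lit 0, nat_lit 0, nat_lit 0, nat_lit 230000, nat_lit 0, nat_lit 0, [(nat_lit 25, [(nat_lit 0, nat_lit 920)])],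
 ⟨p119_k28, nat_lit 0, nat_lit 0, nat_lit 80, nat_lit 0, nat_lit 0, [nat_lit 777920001, nat_lit 1953392001, nat_lit 2448560000], [], [nat_lit 26105242441, nat_lit 27185106741, nat_lit 27939514001, nat_lit 28922874961, nat_lit 26847314761, nat_lit 27865208661, nat_lit 28574503121, nat_lit 29502948811], nat_lit 0, nat_lit 0, nat_lit 0, nat_lit 0, nat_lit 0, nat_lit 0, [], [nat_lit 55, nat_lit 40, nat_lit 40, nat_lit 80, nat_lit 3, nat_lit 260, nat_lit 50, nat_lit 8]⟩, ⟨p119_k29, nat_lit 0, nat_lit 0, nat_lit 913, nat_lit 0, nat_lit 1557541, [nat_lit 262560000, nat_lit 637440000, nat_lit 949760000], [], [nat_lit 3313435644, nat_lit 3311986877, nat_lit 3325208572, nat_lit 3322740928, nat_lit 2774014320, nat_lit 2770255900, nat_lit 2774501440, nat_lit 2789305840], nat_lit 1271250, nat_lit 1271250, nat_lit 1271250, nat_lit 1271250, nat_lit 88400, nat_lit 2136750, [nat_lit 780000, nat_lit 1762500, nat_lit 1271250], [nat_lit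 79, nat_lit 40, nat_lit 40, nat_lit 80, nat_lit 14, nat_lit 373, nat_lit 150, nat_lit 9]⟩,
 ⟨nat_lit 2236, nat_lit 3163, ⟨.ofNat (nat_lit 771478), .ofNat (nat_lit 832432), .ofNat (nat_lit 782556), .ofNat (nat_lit 843509), .ofNat (nat_lit 762142), .ofNat (nat_lit 819158), .ofNat (nat_lit 773529), .ofNat (nat_lit 830545)⟩, ⟨.ofNat (nat_lit 261806), .ofNat (nat_lit 322759), .ofNat (nat_lit 306116), .ofNat (nat_lit 367069), .ofNat (nat_lit 260789), .ofNat (nat_lit 317804), .ofNat (nat_lit 306337), .ofNat (nat_lit 363353)⟩⟩, [⟨nat_lit 16, nat_lit 54, nat_lit 100, nat_lit 73, nat_lit 293644737⟩, ⟨nat_lit 19, nat_lit 100, nat_lit 95, nat_lit 87, nat_lit 5863599⟩]⟩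
noncomputable def p119_l84 : Lf2 := ⟨nat_lit 0, nat_lit 20, [nat_lit 5, nat_lit 5, nat_lit 5, nat_lit 20], false, nat_lit 160, nat_lit 200, nat_lit 16, nat_lit 292, ⟨nat_lit 131, nat_lit 869, nat_lit 0, nat_lit 8, nat_lit 325, nat_lit 869, nat_lit 125, nat_lit 0, nat_lit 0, nat_lit 0, nat_lit 0, nat_lit 0, nat_lit 36787624, nat_lit 24814864, nat_lit 5397512, nat_lit 4787023, true, true⟩,
 nat_lit 0, nat_lit 0, nat_lit 1673, nat_lit 0, nat_lit 3504, nat_lit 1111, nat_lit 0, nat_lit 0, nat_lit 0, nat_lit 71, nat_lit 0, nat_lit 0, nat_lit 0, nat_lit 0, nat_lit 0, nat_lit 217250, nat_lit 0, nat_lit 0, [(nat_lit 25, [(nat_lit 0, nat_lit 869)])],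
 ⟨p119_k28, nat_lit 0, nat_lit 0, nat_lit 80, nat_lit 0, nat_lit 0, [nat_lit 786794001, nat_lit 2104984400, nat_lit 2659292000], [], [nat_lit 26220263184, nat_lit 27315764864, nat_lit 28077358000, nat_lit 29074018656, nat_lit 26956964736, nat_lit 27989052776, nat_lit 28704527632, nat_lit 29645008416], nat_lit 0, nat_lit 0, nat_lit 0, nat_lit 0, nat_lit 0, nat_lit 0, [], [nat_lit 55, nat_lit 40, nat_lit 40, nat_lit 80, nat_lit 3, nat_lit 260, nat_lit 50, nat_lit 8]⟩, ⟨p119_k30, nat_lit 0, nat_lit 0, nat_lit 899, nat_lit 0, nat_lit 1527873, [nat_lit 429942000, nat_lit 1043808000, nat_lit 1555232000], [], [nat_lit 5041353845, nat_lit 5050372129, nat_lit 5108801842, nat_lit 5115095628, nat_lit 4286922743, nat_lit 4287166598, nat_lit 4314027749, nat_lit 4312295727], nat_lit 1271250, nat_lit 1271250, nat_lit 1271250, nat_lit 1271250, nat_lit 88400, nat_lit 2079050, [nat_lit 780000, nat_lit 1762500, nat_lit 1271250],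 [nat_lit 79, nat_lit 40, nat_lit 40, nat_lit 80, nat_lit 14, nat_lit 373, nat_lit 150, nat_lit 9]⟩,
 ⟨nat_lit 2236, nat_lit 3163, ⟨.ofNat (nat_lit 782556), .ofNat (nat_lit 843509), .ofNat (nat_lit 793619), .ofNat (nat_lit 854586), .ofNat (nat_lit 773529), .ofNat (nat_lit 830545), .ofNat (nat_lit 784902), .ofNat (nat_lit 841932)⟩, ⟨.ofNat (nat_lit 261806), .ofNat (nat_lit 322759), .ofNat (nat_lit 306116), .ofNat (nat_lit 367069), .ofNat (nat_lit 260789), .ofNat (nat_lit 317804), .ofNat (nat_lit 306337), .ofNat (nat_lit 363353)⟩⟩, [⟨nat_lit 16, nat_lit 54, nat_lit 100, nat_lit 73, nat_lit 312906921⟩, ⟨nat_lit 19, nat_lit 100, nat_lit 100, nat_lit 89, nat_lit 10409583⟩]⟩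
noncomputable def p119_l85 : Lf2 := ⟨nat_lit 0, nat_lit 15, [nat_lit 30, nat_lit 5, nat_lit 5, nat_lit 20], false, nat_lit 80, nat_lit 160, nat_lit 0, nat_lit 256, ⟨nat_lit 153, nat_lit 847, nat_lit 0, nat_lit 8, nat_lit 330, nat_lit 847, nat_lit 85, nat_lit 0, nat_lit 0, nat_lit 0, nat_lit 0, nat_lit 0, nat_lit 37889633, nat_lit 26038917, nat_lit 3071450, nat_lit 4360130, true, true⟩,
 nat_lit 0, nat_lit 0, nat_lit 1515, nat_lit 0, nat_lit 3062, nat_lit 1048, nat_lit 26, nat_lit 0, nat_lit 0, nat_lit 109, nat_lit 0, nat_lit 0, nat_lit 0, nat_lit 0, nat_lit 0, nat_lit 394600, nat_lit 0, nat_lit 0, [(nat_lit 25, [(nat_lit 1, nat_lit 754), (nat_lit 2, nat_lit 93)])],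
 ⟨p119_k3, nat_lit 0, nat_lit 0, nat_lit 119, nat_lit 0, nat_lit 0, [nat_lit 917054401, nat_lit 1222327734, nat_lit 1283722400], [], [nat_lit 25768918409, nat_lit 26722856333, nat_lit 27415075250, nat_lit 28401218708, nat_lit 26243088209, nat_lit 27116890673, nat_lit 27744958385, nat_lit 28548951621], nat_lit 0, nat_lit 0, nat_lit 0, nat_lit 0, nat_lit 0, nat_lit 0, [], [nat_lit 20, nat_lit 40, nat_lit 40, nat_lit 80, nat_lit 16, nat_lit 249, nat_lit 40, nat_lit 8]⟩, ⟨p119_k8, nat_lit 0, nat_lit 0, nat_lit 837, nat_lit 0, nat_lit 1476735, [nat_lit 502146000, nat_lit 956250000, nat_lit 1505826000], [], [nat_lit 5096568671, nat_lit 5117446905, nat_lit 5306911682, nat_lit 5418746857, nat_lit 4578313891, nat_lit 4590034703, nat_lit 4648754213, nat_lit 4658189371], nat_lit 1271250, nat_lit 1271250, nat_lit 1271250, nat_lit 1271250, nat_lit 0, nat_lit 1808000, [nat_lit 780000, nat_lit 1435000, nat_lit 1271250], [nat_lit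 8, nat_lit 40, nat_lit 40, nat_lit 80, nat_lit 1, nat_lit 325, nat_lit 75, nat_lit 9]⟩,
 ⟨nat_lit 2236, nat_lit 3163, ⟨.ofNat (nat_lit 793619), .ofNat (nat_lit 854586), .ofNat (nat_lit 804673), .ofNat (nat_lit 865664), .ofNat (nat_lit 784902), .ofNat (nat_lit 841932), .ofNat (nat_lit 796267), .ofNat (nat_lit 853319)⟩, ⟨.ofNat (nat_lit 139899), .ofNat (nat_lit 261806), .ofNat (nat_lit 162054), .ofNat (nat_lit 283961), .ofNat (nat_lit 146758), .ofNat (nat_lit 260789), .ofNat (nat_lit 169532), .ofNat (nat_lit 283563)⟩⟩, [⟨nat_lit 4, nat_lit 100, nat_lit 55, nat_lit 69, nat_lit 126558985⟩, ⟨nat_lit 7, nat_lit 100, nat_lit 86, nat_lit 67, nat_lit 18162729⟩]⟩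
noncomputable def p119_l86 : Lf2 := ⟨nat_lit 0, nat_lit 20, [nat_lit 5, nat_lit 5, nat_lit 5, nat_lit 20], false, nat_lit 80, nat_lit 160, nat_lit 0, nat_lit 280, ⟨nat_lit 605, nat_lit 395, nat_lit 0, nat_lit 8, nat_lit 331, nat_lit 395, nat_lit 94, nat_lit 0, nat_lit 0, nat_lit 0, nat_lit 0, nat_lit 0, nat_lit 37499245, nat_lit 25970680, nat_lit 3530075, nat_lit 4460497, true, true⟩,
 nat_lit 0, nat_lit 0, nat_lit 5250, nat_lit 0, nat_lit 3507, nat_lit 3634, nat_lit 351, nat_lit 0, nat_lit 0, nat_lit 680, nat_lit 0, nat_lit 0, nat_lit 0, nat_lit 0, nat_lit 0, nat_lit 158000, nat_lit 0, nat_lit 0, [(nat_lit 25, [(nat_lit 1, nat_lit 395)])],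
 ⟨p119_k19, nat_lit 0, nat_lit 0, nat_lit 113, nat_lit 0, nat_lit 0, [nat_lit 840514000, nat_lit 1630680001, nat_lit 4142754000], [], [nat_lit 26053005973, nat_lit 26590379665, nat_lit 27951955124, nat_lit 28577161231, nat_lit 26351197293, nat_lit 26841498030, nat_lit 28018075113, nat_lit 28466978449], nat_lit 0, nat_lit 0, nat_lit 0, nat_lit 0, nat_lit 0, nat_lit 0, [], [nat_lit 131, nat_lit 40, nat_lit 40, nat_lit 80, nat_lit 64, nat_lit 249, nat_lit 40, nat_lit 8]⟩, ⟨p119_k26, nat_lit 0, nat_lit 0, nat_lit 682, nat_lit 0, nat_lit 1131370, [nat_lit 1985610000, nat_lit 2836240000, nat_lit 5954410000], [], [nat_lit 19121968666, nat_lit 19250057849, nat_lit 20083049128, nat_lit 20327280932, nat_lit 17986141687, nat_lit 18064388510, nat_lit 18396409304, nat_lit 18464158001], nat_lit 1271250, nat_lit 1271250, nat_lit 1271250, nat_lit 1271250, nat_lit 0, nat_lit 1977500, [nat_lit 780000, nat_lit 1100000, nat_lit 2127500],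 [nat_lit 42, nat_lit 40, nat_lit 40, nat_lit 80, nat_lit 13, nat_lit 290, nat_lit 75, nat_lit 8]⟩,
 ⟨nat_lit 2738, nat_lit 3163, ⟨.ofNat (nat_lit 793629), .ofNat (nat_lit 854586), .ofNat (nat_lit 804700), .ofNat (nat_lit 865664), .ofNat (nat_lit 789265), .ofNat (nat_lit 848331), .ofNat (nat_lit 800467), .ofNat (nat_lit 859539)⟩, ⟨.ofNat (nat_lit 162054), .ofNat (nat_lit 283961), .ofNat (nat_lit 184209), .ofNat (nat_lit 306116), .ofNat (nat_lit 165893), .ofNat (nat_lit 284015), .ofNat (nat_lit 188310), .ofNat (nat_lit 306433)⟩⟩, [⟨nat_lit 4, nat_lit 100, nat_lit 57, nat_lit 76, nat_lit 219978977⟩, ⟨nat_lit 7, nat_lit 100, nat_lit 89, nat_lit 80, nat_lit 101959948⟩]⟩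
noncomputable def p119_l87 : Lf2 := ⟨nat_lit 0, nat_lit 20, [nat_lit 5, nat_lit 5, nat_lit 5, nat_lit 20], false, nat_lit 80, nat_lit 160, nat_lit 0, nat_lit 280, ⟨nat_lit 528, nat_lit 472, nat_lit 0, nat_lit 8, nat_lit 329, nat_lit 472, nat_lit 95, nat_lit 0, nat_lit 0, nat_lit 0, nat_lit 0, nat_lit 0, nat_lit 37653310, nat_lit 25762427, nat_lit 3584263, nat_lit 4466170, true, true⟩,
 nat_lit 0, nat_lit 0, nat_lit 4696, nat_lit 0, nat_lit 2926, nat_lit 3250, nat_lit 405, nat_lit 0, nat_lit 0, nat_lit 562, nat_lit 0, nat_lit 0, nat_lit 0, nat_lit 0, nat_lit 0, nat_lit 118000, nat_lit 0, nat_lit 0, [(nat_lit 25, [(nat_lit 0, nat_lit 472)])],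
 ⟨p119_k17, nat_lit 0, nat_lit 0, nat_lit 116, nat_lit 0, nat_lit 0, [nat_lit 855872000, nat_lit 1559433601, nat_lit 4299696000], [], [nat_lit 25960995270, nat_lit 26456123157, nat_lit 27681374185, nat_lit 28160724945, nat_lit 26454186390, nat_lit 26901384704, nat_lit 27958993676, nat_lit 28376460749], nat_lit 0, nat_lit 0, nat_lit 0, nat_lit 0, nat_lit 0, nat_lit 0, [], [nat_lit 131, nat_lit 40, nat_lit 40, nat_lit 80, nat_lit 64, nat_lit 249, nat_lit 40, nat_lit 8]⟩, ⟨p119_k26, nat_lit 0, nat_lit 0, nat_lit 736, nat_lit 0, nat_lit 1261684, [nat_lit 1732896000, nat_lit 2475264000, nat_lit 5196576000], [], [nat_lit 16967998748, nat_lit 17113780206, nat_lit 17848886732, nat_lit 18012124948, nat_lit 15782909468, nat_lit 15845645461, nat_lit 16116507290, nat_lit 16170489040], nat_lit 1271250, nat_lit 1271250, nat_lit 1271250, nat_lit 1271250, nat_lit 0, nat_lit 1977500, [nat_lit 780000, nat_lit 1100000, nat_lit 2127500],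 [nat_lit 42, nat_lit 40, nat_lit 40, nat_lit 80, nat_lit 13, nat_lit 303, nat_lit 75, nat_lit 8]⟩,
 ⟨nat_lit 2236, nat_lit 2739, ⟨.ofNat (nat_lit 789269), .ofNat (nat_lit 848331), .ofNat (nat_lit 800472), .ofNat (nat_lit 859539), .ofNat (nat_lit 784917), .ofNat (nat_lit 841932), .ofNat (nat_lit 796297), .ofNat (nat_lit 853319)⟩, ⟨.ofNat (nat_lit 165893), .ofNat (nat_lit 284015), .ofNat (nat_lit 188310), .ofNat (nat_lit 306433), .ofNat (nat_lit 169532), .ofNat (nat_lit 283563), .ofNat (nat_lit 192306), .ofNat (nat_lit 306337)⟩⟩, [⟨nat_lit 4, nat_lit 100, nat_lit 49, nat_lit 78, nat_lit 276163633⟩, ⟨nat_lit 7, nat_lit 100, nat_lit 89, nat_lit 80, nat_lit 83985653⟩]⟩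
noncomputable def p119_l88 : Lf2 := ⟨nat_lit 0, nat_lit 20, [nat_lit 5, nat_lit 5, nat_lit 5, nat_lit 20], false, nat_lit 80, nat_lit 160, nat_lit 0, nat_lit 268, ⟨nat_lit 449, nat_lit 551, nat_lit 0, nat_lit 8, nat_lit 335, nat_lit 551, nat_lit 90, nat_lit 0, nat_lit 0, nat_lit 0, nat_lit 0, nat_lit 0, nat_lit 37269081, nat_lit 26466002, nat_lit 3264917, nat_lit 4415801, true, true⟩,
 nat_lit 0, nat_lit 0, nat_lit 3817, nat_lit 0, nat_lit 3467, nat_lit 2751, nat_lit 25, nat_lit 0, nat_lit 0, nat_lit 396, nat_lit 0, nat_lit 0, nat_lit 0, nat_lit 0, nat_lit 0, nat_lit 417200, nat_lit 0, nat_lit 0, [(nat_lit 25, [(nat_lit 1, nat_lit 223), (nat_lit 2, nat_lit 328)])],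
 ⟨p119_k0, nat_lit 0, nat_lit 0, nat_lit 115, nat_lit 0, nat_lit 0, [nat_lit 1091187600, nat_lit 1572147600, nat_lit 1731533200], [], [nat_lit 26166998709, nat_lit 26668652826, nat_lit 27948561925, nat_lit 28508419911, nat_lit 26506668009, nat_lit 26964846321, nat_lit 28069145625, nat_lit 28489392336], nat_lit 0, nat_lit 0, nat_lit 0, nat_lit 0, nat_lit 0, nat_lit 0, [], [nat_lit 20, nat_lit 40, nat_lit 40, nat_lit 80, nat_lit 16, nat_lit 249, nat_lit 40, nat_lit 8]⟩, ⟨p119_k10, nat_lit 0, nat_lit 0, nat_lit 774, nat_lit 0, nat_lit 1359032, [nat_lit 1473618000, nat_lit 2806250000, nat_lit 4419058000], [], [nat_lit 14381437871, nat_lit 14467112988, nat_lit 15146092800, nat_lit 15464510904, nat_lit 13415787171, nat_lit 13468848528, nat_lit 13689472742, nat_lit 13742815574], nat_lit 1271250, nat_lit 1271250, nat_lit 1271250, nat_lit 1271250, nat_lit 0, nat_lit 1892750, [nat_lit 780000, nat_lit 1435000, nat_lit 1271250],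 [nat_lit 8, nat_lit 40, nat_lit 40, nat_lit 80, nat_lit 1, nat_lit 312, nat_lit 75, nat_lit 8]⟩,
 ⟨nat_lit 2738, nat_lit 3163, ⟨.ofNat (nat_lit 804700), .ofNat (nat_lit 865664), .ofNat (nat_lit 815772), .ofNat (nat_lit 876741), .ofNat (nat_lit 800467), .ofNat (nat_lit 859539), .ofNat (nat_lit 811670), .ofNat (nat_lit 870748)⟩, ⟨.ofNat (nat_lit 139899), .ofNat (nat_lit 261806), .ofNat (nat_lit 184209), .ofNat (nat_lit 306116), .ofNat (nat_lit 143475), .ofNat (nat_lit 261598), .ofNat (nat_lit 188310), .ofNat (nat_lit 306433)⟩⟩, [⟨nat_lit 4, nat_lit 100, nat_lit 57, nat_lit 73, nat_lit 187988963⟩, ⟨nat_lit 19, nat_lit 83, nat_lit 100, nat_lit 73, nat_lit 75153476⟩]⟩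
noncomputable def p119_l89 : Lf2 := ⟨nat_lit 0, nat_lit 20, [nat_lit 5, nat_lit 5, nat_lit 5, nat_lit 20], false, nat_lit 80, nat_lit 160, nat_lit 0, nat_lit 268, ⟨nat_lit 330, nat_lit 670, nat_lit 0, nat_lit 8, nat_lit 333, nat_lit 670, nat_lit 90, nat_lit 0, nat_lit 0, nat_lit 0, nat_lit 0, nat_lit 0, nat_lit 37421225, nat_lit 26265213, nat_lit 3313562, nat_lit 4421254, true, true⟩,
 nat_lit 0, nat_lit 0, nat_lit 2906, nat_lit 0, nat_lit 3089, nat_lit 2095, nat_lit 251, nat_lit 0, nat_lit 0, nat_lit 206, nat_lit 0, nat_lit 0, nat_lit 0, nat_lit 0, nat_lit 0, nat_lit 167500, nat_lit 0, nat_lit 0, [(nat_lit 25, [(nat_lit 0, nat_lit 670)])],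
 ⟨p119_k2, nat_lit 0, nat_lit 0, nat_lit 119, nat_lit 0, nat_lit 0, [nat_lit 821420001, nat_lit 2000156001, nat_lit 3481560000], [], [nat_lit 26374123319, nat_lit 26859322489, nat_lit 28004578121, nat_lit 28452390323, nat_lit 26799031484, nat_lit 27237351188, nat_lit 28269824323, nat_lit 28673026194], nat_lit 0, nat_lit 0, nat_lit 0, nat_lit 0, nat_lit 0, nat_lit 0, [], [nat_lit 20, nat_lit 40, nat_lit 40, nat_lit 80, nat_lit 16, nat_lit 249, nat_lit 40, nat_lit 8]⟩, ⟨p119_k10, nat_lit 0, nat_lit 0, nat_lit 838, nat_lit 0, nat_lit 1483720, [nat_lit 1083060000, nat_lit 2062500000, nat_lit 3247860000], [], [nat_lit 11018053440, nat_lit 11069651950, nat_lit 11533003765, nat_lit 11690799370, nat_lit 10108757818, nat_lit 10139390908, nat_lit 10274928709, nat_lit 10309791782], nat_lit 1271250, nat_lit 1271250, nat_lit 1271250, nat_lit 1271250, nat_lit 0, nat_lit 1892750, [nat_lit 780000, nat_lit 1435000, nat_lit 1271250],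 [nat_lit 8, nat_lit 40, nat_lit 40, nat_lit 80, nat_lit 1, nat_lit 328, nat_lit 75, nat_lit 9]⟩,
 ⟨nat_lit 2236, nat_lit 2739, ⟨.ofNat (nat_lit 800472), .ofNat (nat_lit 859539), .ofNat (nat_lit 811671), .ofNat (nat_lit 870748), .ofNat (nat_lit 796297), .ofNat (nat_lit 853319), .ofNat (nat_lit 807675), .ofNat (nat_lit 864706)⟩, ⟨.ofNat (nat_lit 143475), .ofNat (nat_lit 261598), .ofNat (nat_lit 188310), .ofNat (nat_lit 306433), .ofNat (nat_lit 146758), .ofNat (nat_lit 260789), .ofNat (nat_lit 192306), .ofNat (nat_lit 306337)⟩⟩, [⟨nat_lit 16, nat_lit 50, nat_lit 100, nat_lit 74, nat_lit 200882251⟩, ⟨nat_lit 7, nat_lit 100, nat_lit 83, nat_lit 73, nat_lit 51699199⟩]⟩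
noncomputable def p119_l90 : Lf2 := ⟨nat_lit 0, nat_lit 20, [nat_lit 5, nat_lit 5, nat_lit 5, nat_lit 20], false, nat_lit 160, nat_lit 200, nat_lit 16, nat_lit 280, ⟨nat_lit 376, nat_lit 624, nat_lit 0, nat_lit 8, nat_lit 333, nat_lit 624, nat_lit 126, nat_lit 0, nat_lit 0, nat_lit 0, nat_lit 0, nat_lit 0, nat_lit 36149509, nat_lit 25501017, nat_lit 5349474, nat_lit 4798679, true, true⟩,
 nat_lit 0, nat_lit 0, nat_lit 3638, nat_lit 0, nat_lit 3086, nat_lit 2518, nat_lit 189, nat_lit 0, nat_lit 0, nat_lit 267, nat_lit 0, nat_lit 0, nat_lit 0, nat_lit 0, nat_lit 0, nat_lit 312000, nat_lit 0, nat_lit 0, [(nat_lit 25, [(nat_lit 1, nat_lit 520), (nat_lit 2, nat_lit 104)])],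
 ⟨p119_k0, nat_lit 0, nat_lit 0, nat_lit 76, nat_lit 0, nat_lit 0, [nat_lit 944697601, nat_lit 1715524267, nat_lit 2420428800], [], [nat_lit 25820541250, nat_lit 26301923628, nat_lit 27480211017, nat_lit 27943637615, nat_lit 26529994442, nat_lit 26985038604, nat_lit 28158943765, nat_lit 28617100607], nat_lit 0, nat_lit 0, nat_lit 0, nat_lit 0, nat_lit 0, nat_lit 0, [], [nat_lit 20, nat_lit 40, nat_lit 40, nat_lit 80, nat_lit 16, nat_lit 260, nat_lit 50, nat_lit 8]⟩, ⟨p119_k9, nat_lit 0, nat_lit 0, nat_lit 795, nat_lit 0, nat_lit 1439632, [nat_lit 1234032000, nat_lit 2350000000, nat_lit 3700592000], [], [nat_lit 12584163456, nat_lit 12702983097, nat_lit 12893006968, nat_lit 13020140485, nat_lit 11603817401, nat_lit 11669396985, nat_lit 11794937581, nat_lit 11871856788], nat_lit 1271250, nat_lit 1271250, nat_lit 1271250, nat_lit 1271250, nat_lit 88400, nat_lit 1992500, [nat_lit 780000, nat_lit 1435000, nat_lit 1271250],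 [nat_lit 8, nat_lit 40, nat_lit 40, nat_lit 80, nat_lit 1, nat_lit 319, nat_lit 75, nat_lit 8]⟩,
 ⟨nat_lit 2738, nat_lit 3163, ⟨.ofNat (nat_lit 793629), .ofNat (nat_lit 854586), .ofNat (nat_lit 815772), .ofNat (nat_lit 876741), .ofNat (nat_lit 789265), .ofNat (nat_lit 848331), .ofNat (nat_lit 811670), .ofNat (nat_lit 870748)⟩, ⟨.ofNat (nat_lit 261806), .ofNat (nat_lit 322759), .ofNat (nat_lit 306116), .ofNat (nat_lit 367069), .ofNat (nat_lit 261598), .ofNat (nat_lit 320659), .ofNat (nat_lit 306433), .ofNat (nat_lit 365494)⟩⟩, [⟨nat_lit 4, nat_lit 100, nat_lit 57, nat_lit 73, nat_lit 615022218⟩, ⟨nat_lit 7, nat_lit 100, nat_lit 85, nat_lit 73, nat_lit 74017138⟩]⟩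
noncomputable def p119_l91 : Lf2 := ⟨nat_lit 0, nat_lit 20, [nat_lit 5, nat_lit 5, nat_lit 5, nat_lit 20], false, nat_lit 160, nat_lit 184, nat_lit 16, nat_lit 280, ⟨nat_lit 349, nat_lit 651, nat_lit 0, nat_lit 8, nat_lit 331, nat_lit 651, nat_lit 120, nat_lit 0, nat_lit 0, nat_lit 0, nat_lit 0, nat_lit 0, nat_lit 36513393, nat_lit 25431119, nat_lit 5055488, nat_lit 4745002, true, true⟩,
 nat_lit 0, nat_lit 0, nat_lit 3394, nat_lit 0, nat_lit 2760, nat_lit 2349, nat_lit 318, nat_lit 0, nat_lit 0, nat_lit 244, nat_lit 0, nat_lit 0, nat_lit 0, nat_lit 0, nat_lit 0, nat_lit 162750, nat_lit 0, nat_lit 0, [(nat_lit 25, [(nat_lit 0, nat_lit 651)])],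
 ⟨p119_k2, nat_lit 0, nat_lit 0, nat_lit 85, nat_lit 0, nat_lit 0, [nat_lit 824726001, nat_lit 2036506801, nat_lit 3560068000], [], [nat_lit 26082604321, nat_lit 26544125801, nat_lit 27635473561, nat_lit 28059548601, nat_lit 26503844318, nat_lit 26950678961, nat_lit 28011102812, nat_lit 28458276449], nat_lit 0, nat_lit 0, nat_lit 0, nat_lit 0, nat_lit 0, nat_lit 0, [], [nat_lit 20, nat_lit 40, nat_lit 40, nat_lit 80, nat_lit 16, nat_lit 260, nat_lit 50, nat_lit 8]⟩, ⟨p119_k9, nat_lit 0, nat_lit 0, nat_lit 865, nat_lit 0, nat_lit 1571873, [nat_lit 1145418000, nat_lit 2181250000, nat_lit 3434858000], [], [nat_lit 11792500002, nat_lit 11886402250, nat_lit 12041783697, nat_lit 12122147794, nat_lit 10845006883, nat_lit 10894126648, nat_lit 10995381906, nat_lit 11034577768], nat_lit 1271250, nat_lit 1271250, nat_lit 1271250, nat_lit 1271250, nat_lit 88400, nat_lit 1992500, [nat_lit 780000, nat_lit 1435000, nat_lit 1271250],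 [nat_lit 8, nat_lit 40, nat_lit 40, nat_lit 80, nat_lit 1, nat_lit 337, nat_lit 75, nat_lit 9]⟩,
 ⟨nat_lit 2236, nat_lit 2739, ⟨.ofNat (nat_lit 789269), .ofNat (nat_lit 848331), .ofNat (nat_lit 811671), .ofNat (nat_lit 870748), .ofNat (nat_lit 784917), .ofNat (nat_lit 841932), .ofNat (nat_lit 807675), .ofNat (nat_lit 864706)⟩, ⟨.ofNat (nat_lit 261598), .ofNat (nat_lit 297035), .ofNat (nat_lit 306433), .ofNat (nat_lit 341870), .ofNat (nat_lit 260789), .ofNat (nat_lit 294998), .ofNat (nat_lit 306337), .ofNat (nat_lit 340547)⟩⟩, [⟨nat_lit 16, nat_lit 50, nat_lit 100, nat_lit 74, nat_lit 669140465⟩, ⟨nat_lit 7, nat_lit 100, nat_lit 85, nat_lit 73, nat_lit 67851387⟩]⟩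
noncomputable def b_V_900_700_10_8 : St := ⟨true, nat_lit 0, nat_lit 1, nat_lit 1, nat_lit 80, nat_lit 360, nat_lit 380, nat_lit 280, nat_lit 320, nat_lit 320, nat_lit 360, nat_lit 40, nat_lit 80, nat_lit 80, nat_lit 200, nat_lit 0, nat_lit 300, nat_lit 40, nat_lit 80, nat_lit 0, nat_lit 0, nat_lit 0, nat_lit 0⟩
theorem d_V_900_700_10_8 (h : EB TB.env) : Dead b_V_900_700_10_8 := chkB_sound0 h (T :=
(.spl (nat_lit 1) (nat_lit 300)
(.spl (nat_lit 4) (nat_lit 160)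
(.spl (nat_lit 2) (nat_lit 340)
(.spl (nat_lit 0) (nat_lit 370)
(.leaf p119_l68)
(.leaf p119_l69))
(.spl (nat_lit 6) (nat_lit 60)
(.leaf p119_l70)
(.spl (nat_lit 3) (nat_lit 60)
(.trX (nat_lit 19) (nat_lit 99) (nat_lit 100) (nat_lit 77) (nat_lit 276) (.spl (nat_lit 0) (nat_lit 370)
(.leaf p119_l71)
(.leaf p119_l72)))
(.spl (nat_lit 8) (nat_lit 800)
(.leaf p119_l73)
(.spl (nat_lit 1) (nat_lit 290)
(.spl (nat_lit 0) (nat_lit 370)
(.leaf p119_l74)
(.spl (nat_lit 1) (nat_lit 285)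
(.spl (nat_lit 0) (nat_lit 375)
(.leaf p119_l75)
(.leaf p119_l76))
(.trX (nat_lit 19) (nat_lit 100) (nat_lit 98) (nat_lit 88) (nat_lit 296) (.spl (nat_lit 0) (nat_lit 375)
(.leaf p119_l77)
(.leaf p119_l78)))))
(.trX (nat_lit 19) (nat_lit 100) (nat_lit 100) (nat_lit 89) (nat_lit 292) (.spl (nat_lit 0) (nat_lit 370)
(.leaf p119_l79)
(.spl (nat_lit 5) (nat_lit 160)
(.leaf p119_l80)
(.spl (nat_lit 0) (nat_lit 375)
(.leaf p119_l81)
(.leaf p119_l82))))))))))
(.trZ (nat_lit 9) (nat_lit 100) (nat_lit 82) (nat_lit 44) (nat_lit 16) (.spl (nat_lit 1) (nat_lit 290)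
(.leaf p119_l83)
(.trX (nat_lit 19) (nat_lit 100) (nat_lit 100) (nat_lit 89) (nat_lit 292) (.leaf p119_l84)))))
(.trX (nat_lit 19) (nat_lit 94) (nat_lit 100) (nat_lit 87) (nat_lit 280) (.spl (nat_lit 4) (nat_lit 160)
(.spl (nat_lit 1) (nat_lit 310)
(.spl (nat_lit 3) (nat_lit 60)
(.trX (nat_lit 19) (nat_lit 90) (nat_lit 100) (nat_lit 74) (nat_lit 256) (.leaf p119_l85))
(.spl (nat_lit 0) (nat_lit 370)
(.leaf p119_l86)
(.leaf p119_l87)))
(.trX (nat_lit 19) (nat_lit 89) (nat_lit 100) (nat_lit 85) (nat_lit 268) (.spl (nat_lit 0) (nat_lit 370)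
(.leaf p119_l88)
(.leaf p119_l89))))
(.trZ (nat_lit 9) (nat_lit 100) (nat_lit 82) (nat_lit 44) (nat_lit 16) (.spl (nat_lit 0) (nat_lit 370)
(.leaf p119_l90)
(.trX (nat_lit 16) (nat_lit 53) (nat_lit 100) (nat_lit 80) (nat_lit 184) (.leaf p119_l91)))))))) (by decide +kernel)
noncomputable def p119_l92 : Lf2 := ⟨nat_lit 0, nat_lit 15, [nat_lit 30, nat_lit 5, nat_lit 5, nat_lit 20], true, nat_lit 80, nat_lit 140, nat_lit 0, nat_lit 276, ⟨nat_lit 0, nat_lit 1000, nat_lit 0, nat_lit 8, nat_lit 324, nat_lit 1000, nat_lit 81, nat_lit 0, nat_lit 0, nat_lit 0, nat_lit 0, nat_lit 0, nat_lit 38540089, nat_lit 25613753, nat_lit 2846158, nat_lit 4294462, true, true⟩,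
 nat_lit 0, nat_lit 0, nat_lit 0, nat_lit 0, nat_lit 2672, nat_lit 0, nat_lit 0, nat_lit 0, nat_lit 0, nat_lit 0, nat_lit 0, nat_lit 0, nat_lit 0, nat_lit 0, nat_lit 0, nat_lit 293050, nat_lit 0, nat_lit 0, [(nat_lit 28, [(nat_lit 0, nat_lit 713), (nat_lit 1, nat_lit 287)])],
 ⟨p119_k24, nat_lit 0, nat_lit 0, nat_lit 108, nat_lit 0, nat_lit 0, [nat_lit 757492000, nat_lit 839015600, nat_lit 1038084400], [], [nat_lit 26003234624, nat_lit 26481184528, nat_lit 27699088448, nat_lit 28255990720, nat_lit 26437454612, nat_lit 26885862946, nat_lit 27921118924, nat_lit 28403177416], nat_lit 0, nat_lit 0, nat_lit 0, nat_lit 0, nat_lit 0, nat_lit 0, [], [nat_lit 35, nat_lit 40, nat_lit 40, nat_lit 80, nat_lit 22, nat_lit 249, nat_lit 40, nat_lit 9]⟩, C1.Rw.none,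
 ⟨nat_lit 1581, nat_lit 2237, ⟨.ofNat (nat_lit 762142), .ofNat (nat_lit 819158), .ofNat (nat_lit 807675), .ofNat (nat_lit 864706), .ofNat (nat_lit 757166), .ofNat (nat_lit 811802), .ofNat (nat_lit 803781), .ofNat (nat_lit 858432)⟩, ⟨.ofNat (nat_lit 146758), .ofNat (nat_lit 232281), .ofNat (nat_lit 169532), .ofNat (nat_lit 255055), .ofNat (nat_lit 149571), .ofNat (nat_lit 231525), .ofNat (nat_lit 172886), .ofNat (nat_lit 254840)⟩⟩, [⟨nat_lit 16, nat_lit 46, nat_lit 100, nat_lit 75, nat_lit 109934618⟩]⟩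
noncomputable def p119_l93 : Lf2 := ⟨nat_lit 0, nat_lit 20, [nat_lit 5, nat_lit 5, nat_lit 5, nat_lit 20], true, nat_lit 80, nat_lit 120, nat_lit 0, nat_lit 300, ⟨nat_lit 0, nat_lit 1000, nat_lit 0, nat_lit 8, nat_lit 320, nat_lit 1000, nat_lit 84, nat_lit 0, nat_lit 0, nat_lit 0, nat_lit 0, nat_lit 0, nat_lit 38825215, nat_lit 25116649, nat_lit 3058136, nat_lit 4328324, true, true⟩,
 nat_lit 0, nat_lit 0, nat_lit 0, nat_lit 0, nat_lit 2552, nat_lit 0, nat_lit 0, nat_lit 0, nat_lit 0, nat_lit 0, nat_lit 0, nat_lit 0, nat_lit 0, nat_lit 0, nat_lit 0, nat_lit 377200, nat_lit 0, nat_lit 0, [(nat_lit 28, [(nat_lit 0, nat_lit 152), (nat_lit 1, nat_lit 848)])],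
 ⟨p119_k11, nat_lit 0, nat_lit 0, nat_lit 122, nat_lit 0, nat_lit 0, [nat_lit 710368000, nat_lit 440137600, nat_lit 354204800], [], [nat_lit 25897860176, nat_lit 26376636648, nat_lit 27508537440, nat_lit 28030134520, nat_lit 26185538920, nat_lit 26644851708, nat_lit 27704062312, nat_lit 28157978544], nat_lit 0, nat_lit 0, nat_lit 0, nat_lit 0, nat_lit 0, nat_lit 0, [], [nat_lit 20, nat_lit 40, nat_lit 40, nat_lit 80, nat_lit 16, nat_lit 238, nat_lit 30, nat_lit 7]⟩, C1.Rw.none,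
 ⟨nat_lit 1581, nat_lit 2237, ⟨.ofNat (nat_lit 762142), .ofNat (nat_lit 819158), .ofNat (nat_lit 784917), .ofNat (nat_lit 841932), .ofNat (nat_lit 757166), .ofNat (nat_lit 811802), .ofNat (nat_lit 780481), .ofNat (nat_lit 835117)⟩, ⟨.ofNat (nat_lit 169532), .ofNat (nat_lit 226547), .ofNat (nat_lit 192306), .ofNat (nat_lit 249322), .ofNat (nat_lit 172886), .ofNat (nat_lit 227522), .ofNat (nat_lit 196201), .ofNat (nat_lit 250837)⟩⟩, []⟩
noncomputable def p119_l94 : Lf2 := ⟨nat_lit 0, nat_lit 20, [nat_lit 5, nat_lit 5, nat_lit 5, nat_lit 20], true, nat_lit 120, nat_lit 140, nat_lit 4, nat_lit 300, ⟨nat_lit 0, nat_lit 1000, nat_lit 0, nat_lit 8, nat_lit 320, nat_lit 1000, nat_lit 101, nat_lit 0, nat_lit 0, nat_lit 0, nat_lit 0, nat_lit 0, nat_lit 38208159, nat_lit 24805805, nat_lit 3986036, nat_lit 4520545, true, true⟩,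
 nat_lit 0, nat_lit 0, nat_lit 0, nat_lit 0, nat_lit 2703, nat_lit 0, nat_lit 87, nat_lit 0, nat_lit 0, nat_lit 0, nat_lit 0, nat_lit 0, nat_lit 0, nat_lit 0, nat_lit 0, nat_lit 250000, nat_lit 0, nat_lit 0, [(nat_lit 28, [(nat_lit 0, nat_lit 1000)])],
 ⟨p119_k31, nat_lit 0, nat_lit 0, nat_lit 111, nat_lit 0, nat_lit 0, [nat_lit 781600001, nat_lit 1560400000, nat_lit 1560400000], [], [nat_lit 26338915549, nat_lit 26826864775, nat_lit 27935650952, nat_lit 28404783816, nat_lit 26450673341, nat_lit 26926646732, nat_lit 28013953401, nat_lit 28451034941], nat_lit 0, nat_lit 0, nat_lit 0, nat_lit 0, nat_lit 0, nat_lit 0, [], [nat_lit 55, nat_lit 40, nat_lit 40, nat_lit 80, nat_lit 3, nat_lit 249, nat_lit 40, nat_lit 7]⟩, C1.Rw.none,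
 ⟨nat_lit 1581, nat_lit 2237, ⟨.ofNat (nat_lit 762142), .ofNat (nat_lit 819158), .ofNat (nat_lit 784917), .ofNat (nat_lit 841932), .ofNat (nat_lit 757166), .ofNat (nat_lit 811802), .ofNat (nat_lit 780481), .ofNat (nat_lit 835117)⟩, ⟨.ofNat (nat_lit 226547), .ofNat (nat_lit 255055), .ofNat (nat_lit 249322), .ofNat (nat_lit 277830), .ofNat (nat_lit 227522), .ofNat (nat_lit 254840), .ofNat (nat_lit 250837), .ofNat (nat_lit 278155)⟩⟩, [⟨nat_lit 13, nat_lit 43, nat_lit 73, nat_lit 100, nat_lit 19539183⟩]⟩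
noncomputable def p119_l95 : Lf2 := ⟨nat_lit 0, nat_lit 20, [nat_lit 5, nat_lit 5, nat_lit 5, nat_lit 20], true, nat_lit 140, nat_lit 164, nat_lit 8, nat_lit 300, ⟨nat_lit 0, nat_lit 1000, nat_lit 0, nat_lit 8, nat_lit 317, nat_lit 1000, nat_lit 113, nat_lit 0, nat_lit 0, nat_lit 0, nat_lit 0, nat_lit 0, nat_lit 37924715, nat_lit 24350246, nat_lit 4725039, nat_lit 4650350, true, true⟩,
 nat_lit 0, nat_lit 0, nat_lit 0, nat_lit 0, nat_lit 2674, nat_lit 0, nat_lit 100, nat_lit 0, nat_lit 0, nat_lit 0, nat_lit 0, nat_lit 0, nat_lit 0, nat_lit 0, nat_lit 0, nat_lit 250000, nat_lit 0, nat_lit 0, [(nat_lit 28, [(nat_lit 0, nat_lit 1000)])],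
 ⟨p119_k31, nat_lit 0, nat_lit 0, nat_lit 104, nat_lit 0, nat_lit 0, [nat_lit 781600001, nat_lit 1560400000, nat_lit 1560400000], [], [nat_lit 26321465968, nat_lit 26787990324, nat_lit 27882916198, nat_lit 28406198697, nat_lit 26513590705, nat_lit 26967474073, nat_lit 28010734825, nat_lit 28519977831], nat_lit 0, nat_lit 0, nat_lit 0, nat_lit 0, nat_lit 0, nat_lit 0, [], [nat_lit 55, nat_lit 40, nat_lit 40, nat_lit 80, nat_lit 3, nat_lit 260, nat_lit 50, nat_lit 8]⟩, C1.Rw.none,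
 ⟨nat_lit 1581, nat_lit 2237, ⟨.ofNat (nat_lit 762142), .ofNat (nat_lit 819158), .ofNat (nat_lit 773529), .ofNat (nat_lit 830545), .ofNat (nat_lit 757166), .ofNat (nat_lit 811802), .ofNat (nat_lit 768823), .ofNat (nat_lit 823459)⟩, ⟨.ofNat (nat_lit 255055), .ofNat (nat_lit 289265), .ofNat (nat_lit 277830), .ofNat (nat_lit 312039), .ofNat (nat_lit 254840), .ofNat (nat_lit 287621), .ofNat (nat_lit 278155), .ofNat (nat_lit 310936)⟩⟩, [⟨nat_lit 13, nat_lit 49, nat_lit 68, nat_lit 100, nat_lit 370164613⟩, ⟨nat_lit 16, nat_lit 44, nat_lit 100, nat_lit 82, nat_lit 131008845⟩]⟩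
noncomputable def p119_l96 : Lf2 := ⟨nat_lit 0, nat_lit 20, [nat_lit 5, nat_lit 5, nat_lit 5, nat_lit 20], true, nat_lit 140, nat_lit 164, nat_lit 8, nat_lit 292, ⟨nat_lit 0, nat_lit 1000, nat_lit 0, nat_lit 8, nat_lit 322, nat_lit 1000, nat_lit 113, nat_lit 0, nat_lit 0, nat_lit 0, nat_lit 0, nat_lit 0, nat_lit 37537018, nat_lit 24771363, nat_lit 4691619, nat_lit 4658155, true, true⟩,
 nat_lit 0, nat_lit 0, nat_lit 0, nat_lit 0, nat_lit 2674, nat_lit 0, nat_lit 100, nat_lit 0, nat_lit 0, nat_lit 0, nat_lit 0, nat_lit 0, nat_lit 0, nat_lit 0, nat_lit 0, nat_lit 250000, nat_lit 0, nat_lit 0, [(nat_lit 28, [(nat_lit 0, nat_lit 1000)])],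
 ⟨p119_k31, nat_lit 0, nat_lit 0, nat_lit 104, nat_lit 0, nat_lit 0, [nat_lit 781600001, nat_lit 1560400000, nat_lit 1560400000], [], [nat_lit 26321465968, nat_lit 26787990324, nat_lit 27882916198, nat_lit 28406198697, nat_lit 26513590705, nat_lit 26967474073, nat_lit 28010734825, nat_lit 28519977831], nat_lit 0, nat_lit 0, nat_lit 0, nat_lit 0, nat_lit 0, nat_lit 0, [], [nat_lit 55, nat_lit 40, nat_lit 40, nat_lit 80, nat_lit 3, nat_lit 260, nat_lit 50, nat_lit 8]⟩, C1.Rw.none,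
 ⟨nat_lit 1581, nat_lit 2237, ⟨.ofNat (nat_lit 773529), .ofNat (nat_lit 830545), .ofNat (nat_lit 784917), .ofNat (nat_lit 841932), .ofNat (nat_lit 768823), .ofNat (nat_lit 823459), .ofNat (nat_lit 780481), .ofNat (nat_lit 835117)⟩, ⟨.ofNat (nat_lit 255055), .ofNat (nat_lit 289265), .ofNat (nat_lit 277830), .ofNat (nat_lit 312039), .ofNat (nat_lit 254840), .ofNat (nat_lit 287621), .ofNat (nat_lit 278155), .ofNat (nat_lit 310936)⟩⟩, [⟨nat_lit 16, nat_lit 44, nat_lit 100, nat_lit 82, nat_lit 132346630⟩]⟩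
noncomputable def p119_l97 : Lf2 := ⟨nat_lit 0, nat_lit 20, [nat_lit 5, nat_lit 5, nat_lit 5, nat_lit 20], false, nat_lit 80, nat_lit 164, nat_lit 0, nat_lit 280, ⟨nat_lit 240, nat_lit 760, nat_lit 0, nat_lit 8, nat_lit 327, nat_lit 760, nat_lit 97, nat_lit 0, nat_lit 0, nat_lit 0, nat_lit 0, nat_lit 0, nat_lit 37777324, nat_lit 25530667, nat_lit 3692009, nat_lit 4482270, true, true⟩,
 nat_lit 0, nat_lit 0, nat_lit 2347, nat_lit 0, nat_lit 2597, nat_lit 1624, nat_lit 100, nat_lit 0, nat_lit 0, nat_lit 168, nat_lit 0, nat_lit 0, nat_lit 0, nat_lit 0, nat_lit 0, nat_lit 304000, nat_lit 0, nat_lit 0, [(nat_lit 28, [(nat_lit 1, nat_lit 760)])],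
 ⟨p119_k11, nat_lit 0, nat_lit 0, nat_lit 122, nat_lit 0, nat_lit 0, [nat_lit 755296000, nat_lit 1034528001, nat_lit 1604880000], [], [nat_lit 26079922086, nat_lit 26561779303, nat_lit 27668166186, nat_lit 28114830595, nat_lit 26707692557, nat_lit 27147921682, nat_lit 28164057042, nat_lit 28569851476], nat_lit 0, nat_lit 0, nat_lit 0, nat_lit 0, nat_lit 0, nat_lit 0, [], [nat_lit 20, nat_lit 40, nat_lit 40, nat_lit 80, nat_lit 16, nat_lit 260, nat_lit 50, nat_lit 8]⟩, ⟨p119_k9, nat_lit 0, nat_lit 0, nat_lit 789, nat_lit 0, nat_lit 1397334, [nat_lit 787680000, nat_lit 1500000000, nat_lit 2362080000], [], [nat_lit 8064299096, nat_lit 8102834600, nat_lit 8332052064, nat_lit 8453584648, nat_lit 7311670424, nat_lit 7332423600, nat_lit 7443488544, nat_lit 7475386476], nat_lit 1271250, nat_lit 1271250, nat_lit 1271250, nat_lit 1271250, nat_lit 0, nat_lit 1977500, [nat_lit 780000, nat_lit 1435000, nat_lit 1271250], [nat_lit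 8, nat_lit 40, nat_lit 40, nat_lit 80, nat_lit 1, nat_lit 316, nat_lit 75, nat_lit 8]⟩,
 ⟨nat_lit 1581, nat_lit 2237, ⟨.ofNat (nat_lit 784917), .ofNat (nat_lit 841932), .ofNat (nat_lit 796304), .ofNat (nat_lit 853319), .ofNat (nat_lit 780481), .ofNat (nat_lit 835117), .ofNat (nat_lit 792138), .ofNat (nat_lit 846774)⟩, ⟨.ofNat (nat_lit 169532), .ofNat (nat_lit 289265), .ofNat (nat_lit 192306), .ofNat (nat_lit 312039), .ofNat (nat_lit 172886), .ofNat (nat_lit 287621), .ofNat (nat_lit 196201), .ofNat (nat_lit 310936)⟩⟩, [⟨nat_lit 13, nat_lit 45, nat_lit 69, nat_lit 100, nat_lit 229706457⟩, ⟨nat_lit 16, nat_lit 40, nat_lit 100, nat_lit 80, nat_lit 247725494⟩, ⟨nat_lit 7, nat_lit 100, nat_lit 89, nat_lit 80, nat_lit 34702768⟩]⟩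
noncomputable def p119_l98 : Lf2 := ⟨nat_lit 0, nat_lit 20, [nat_lit 5, nat_lit 5, nat_lit 5, nat_lit 20], false, nat_lit 80, nat_lit 164, nat_lit 0, nat_lit 268, ⟨nat_lit 365, nat_lit 635, nat_lit 0, nat_lit 8, nat_lit 331, nat_lit 635, nat_lit 97, nat_lit 0, nat_lit 0, nat_lit 0, nat_lit 0, nat_lit 0, nat_lit 37381681, nat_lit 25953060, nat_lit 3665259, nat_lit 4488943, true, true⟩,
 nat_lit 0, nat_lit 0, nat_lit 3212, nat_lit 0, nat_lit 2456, nat_lit 2315, nat_lit 204, nat_lit 0, nat_lit 0, nat_lit 247, nat_lit 0, nat_lit 0, nat_lit 0, nat_lit 0, nat_lit 0, nat_lit 254000, nat_lit 0, nat_lit 0, [(nat_lit 28, [(nat_lit 1, nat_lit 635)])],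
 ⟨p119_k11, nat_lit 0, nat_lit 0, nat_lit 122, nat_lit 0, nat_lit 0, [nat_lit 785346000, nat_lit 1404178000, nat_lit 2368880000], [], [nat_lit 25850630028, nat_lit 26322834244, nat_lit 27413310828, nat_lit 27849449560, nat_lit 26530244789, nat_lit 26962197468, nat_lit 27965208548, nat_lit 28366159308], nat_lit 0, nat_lit 0, nat_lit 0, nat_lit 0, nat_lit 0, nat_lit 0, [], [nat_lit 20, nat_lit 40, nat_lit 40, nat_lit 80, nat_lit 16, nat_lit 260, nat_lit 50, nat_lit 8]⟩, ⟨p119_k10, nat_lit 0, nat_lit 0, nat_lit 781, nat_lit 0, nat_lit 1378961, [nat_lit 1197930000, nat_lit 2281250000, nat_lit 3592330000], [], [nat_lit 11922979450, nat_lit 11980057085, nat_lit 12585616760, nat_lit 12760078735, nat_lit 10980585804, nat_lit 11023144963, nat_lit 11202331742, nat_lit 11241485910], nat_lit 1271250, nat_lit 1271250, nat_lit 1271250, nat_lit 1271250, nat_lit 0, nat_lit 1892750, [nat_lit 780000, nat_lit 1435000, nat_lit 1271250],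 [nat_lit 8, nat_lit 40, nat_lit 40, nat_lit 80, nat_lit 1, nat_lit 314, nat_lit 75, nat_lit 8]⟩,
 ⟨nat_lit 1581, nat_lit 2237, ⟨.ofNat (nat_lit 796304), .ofNat (nat_lit 853319), .ofNat (nat_lit 807675), .ofNat (nat_lit 864706), .ofNat (nat_lit 792138), .ofNat (nat_lit 846774), .ofNat (nat_lit 803781), .ofNat (nat_lit 858432)⟩, ⟨.ofNat (nat_lit 169532), .ofNat (nat_lit 289265), .ofNat (nat_lit 192306), .ofNat (nat_lit 312039), .ofNat (nat_lit 172886), .ofNat (nat_lit 287621), .ofNat (nat_lit 196201), .ofNat (nat_lit 310936)⟩⟩, [⟨nat_lit 16, nat_lit 40, nat_lit 100, nat_lit 80, nat_lit 318512194⟩, ⟨nat_lit 7, nat_lit 100, nat_lit 84, nat_lit 78, nat_lit 53102701⟩]⟩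
noncomputable def p119_l99 : Lf2 := ⟨nat_lit 0, nat_lit 20, [nat_lit 5, nat_lit 5, nat_lit 5, nat_lit 20], true, nat_lit 80, nat_lit 136, nat_lit 0, nat_lit 300, ⟨nat_lit 0, nat_lit 1000, nat_lit 0, nat_lit 8, nat_lit 322, nat_lit 1000, nat_lit 84, nat_lit 0, nat_lit 0, nat_lit 0, nat_lit 0, nat_lit 0, nat_lit 38654901, nat_lit 25297671, nat_lit 3047428, nat_lit 4331813, true, true⟩,
 nat_lit 0, nat_lit 0, nat_lit 0, nat_lit 0, nat_lit 2701, nat_lit 0, nat_lit 26, nat_lit 0, nat_lit 0, nat_lit 0, nat_lit 0, nat_lit 0, nat_lit 0, nat_lit 0, nat_lit 0, nat_lit 250000, nat_lit 0, nat_lit 0, [(nat_lit 28, [(nat_lit 0, nat_lit 1000)])],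
 ⟨p119_k12, nat_lit 0, nat_lit 0, nat_lit 112, nat_lit 0, nat_lit 0, [nat_lit 781600001, nat_lit 1046000001, nat_lit 1376400000], [], [nat_lit 26584232651, nat_lit 27065010718, nat_lit 28310572635, nat_lit 28869847136, nat_lit 26954802986, nat_lit 27406935287, nat_lit 28449617883, nat_lit 28965441393], nat_lit 0, nat_lit 0, nat_lit 0, nat_lit 0, nat_lit 0, nat_lit 0, [], [nat_lit 35, nat_lit 40, nat_lit 40, nat_lit 80, nat_lit 22, nat_lit 249, nat_lit 40, nat_lit 9]⟩, C1.Rw.none,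
 ⟨nat_lit 0, nat_lit 1582, ⟨.ofNat (nat_lit 757165), .ofNat (nat_lit 811799), .ofNat (nat_lit 803773), .ofNat (nat_lit 858431), .ofNat (nat_lit 749998), .ofNat (nat_lit 799996), .ofNat (nat_lit 799976), .ofNat (nat_lit 849998)⟩, ⟨.ofNat (nat_lit 149570), .ofNat (nat_lit 226057), .ofNat (nat_lit 196201), .ofNat (nat_lit 272689), .ofNat (nat_lit 149998), .ofNat (nat_lit 219995), .ofNat (nat_lit 199999), .ofNat (nat_lit 269997)⟩⟩, [⟨nat_lit 16, nat_lit 33, nat_lit 100, nat_lit 84, nat_lit 137374908⟩]⟩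
noncomputable def b_V_900_700_10_9 : St := ⟨true, nat_lit 0, nat_lit 1, nat_lit 1, nat_lit 80, nat_lit 380, nat_lit 400, nat_lit 280, nat_lit 320, nat_lit 320, nat_lit 360, nat_lit 40, nat_lit 80, nat_lit 80, nat_lit 200, nat_lit 0, nat_lit 300, nat_lit 40, nat_lit 80, nat_lit 0, nat_lit 0, nat_lit 0, nat_lit 0⟩
theorem d_V_900_700_10_9 (h : EB TB.env) : Dead b_V_900_700_10_9 := chkB_sound0 h (T :=
(.trX (nat_lit 16) (nat_lit 44) (nat_lit 100) (nat_lit 82) (nat_lit 164) (.spl (nat_lit 0) (nat_lit 390)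
(.spl (nat_lit 3) (nat_lit 60)
(.trX (nat_lit 16) (nat_lit 46) (nat_lit 100) (nat_lit 75) (nat_lit 140) (.trX (nat_lit 19) (nat_lit 99) (nat_lit 100) (nat_lit 77) (nat_lit 276) (.leaf p119_l92)))
(.spl (nat_lit 1) (nat_lit 300)
(.spl (nat_lit 4) (nat_lit 120)
(.leaf p119_l93)
(.trZ (nat_lit 9) (nat_lit 100) (nat_lit 87) (nat_lit 25) (nat_lit 4) (.spl (nat_lit 4) (nat_lit 140)
(.leaf p119_l94)
(.trZ (nat_lit 9) (nat_lit 100) (nat_lit 84) (nat_lit 35) (nat_lit 8) (.spl (nat_lit 1) (nat_lit 290)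
(.leaf p119_l95)
(.trX (nat_lit 19) (nat_lit 100) (nat_lit 100) (nat_lit 89) (nat_lit 292) (.leaf p119_l96)))))))
(.trX (nat_lit 19) (nat_lit 94) (nat_lit 100) (nat_lit 87) (nat_lit 280) (.spl (nat_lit 1) (nat_lit 310)
(.leaf p119_l97)
(.trX (nat_lit 19) (nat_lit 89) (nat_lit 100) (nat_lit 85) (nat_lit 268) (.leaf p119_l98))))))
(.trX (nat_lit 16) (nat_lit 33) (nat_lit 100) (nat_lit 84) (nat_lit 136) (.leaf p119_l99))))) (by decide +kernel)
noncomputable def p119_l100 : Lf2 := ⟨nat_lit 0, nat_lit 15, [nat_lit 30, nat_lit 5, nat_lit 5, nat_lit 20], false, nat_lit 80, nat_lit 160, nat_lit 8, nat_lit 276, ⟨nat_lit 97, nat_lit 903, nat_lit 0, nat_lit 9, nat_lit 338, nat_lit 903, nat_lit 85, nat_lit 0, nat_lit 0, nat_lit 0, nat_lit 0, nat_lit 0, nat_lit 37131643, nat_lit 26839450, nat_lit 3028907, nat_lit 4371842, true, true⟩,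
 nat_lit 0, nat_lit 0, nat_lit 1233, nat_lit 0, nat_lit 3084, nat_lit 784, nat_lit 26, nat_lit 0, nat_lit 0, nat_lit 48, nat_lit 0, nat_lit 0, nat_lit 0, nat_lit 0, nat_lit 0, nat_lit 361200, nat_lit 0, nat_lit 0, [(nat_lit 25, [(nat_lit 1, nat_lit 903)])],
 ⟨p119_k3, nat_lit 0, nat_lit 0, nat_lit 125, nat_lit 0, nat_lit 0, [nat_lit 853840401, nat_lit 1223280400, nat_lit 1432675600], [], [nat_lit 27568248050, nat_lit 28546307730, nat_lit 28546307730, nat_lit 29559449436, nat_lit 27796382498, nat_lit 28694090482, nat_lit 28694090482, nat_lit 29550303026], nat_lit 0, nat_lit 0, nat_lit 0, nat_lit 0, nat_lit 0, nat_lit 0, [], [nat_lit 20, nat_lit 40, nat_lit 40, nat_lit 80, nat_lit 16, nat_lit 249, nat_lit 40, nat_lit 7]⟩, ⟨p119_k4, nat_lit 0, nat_lit 0, nat_lit 852, nat_lit 0, nat_lit 1530318, [nat_lit 318354000, nat_lit 606250000, nat_lit 954674000], [], [nat_lit 3702299527, nat_lit 3706186573, nat_lit 3762610555,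 nat_lit 3791870301, nat_lit 3161391537, nat_lit 3162635500, nat_lit 3186388436, nat_lit 3200223796], nat_lit 1271250, nat_lit 1271250, nat_lit 1271250, nat_lit 1271250, nat_lit 43600, nat_lit 1956450, [nat_lit 780000, nat_lit 1435000, nat_lit 1271250], [nat_lit 8, nat_lit 40, nat_lit 40, nat_lit 80, nat_lit 1, nat_lit 332, nat_lit 75, nat_lit 9]⟩,
 ⟨nat_lit 2236, nat_lit 3163, ⟨.ofNat (nat_lit 832432), .ofNat (nat_lit 862908), .ofNat (nat_lit 843509), .ofNat (nat_lit 873986), .ofNat (nat_lit 819158), .ofNat (nat_lit 847666), .ofNat (nat_lit 830545), .ofNat (nat_lit 859053)⟩, ⟨.ofNat (nat_lit 139899), .ofNat (nat_lit 261806), .ofNat (nat_lit 162054), .ofNat (nat_lit 283961), .ofNat (nat_lit 146758), .ofNat (nat_lit 260789), .ofNat (nat_lit 169532), .ofNat (nat_lit 283563)⟩⟩, [⟨nat_lit 13, nat_lit 58, nat_lit 60, nat_lit 100, nat_lit 284808703⟩, ⟨nat_lit 4, nat_lit 100, nat_lit 55, nat_lit 69, nat_lit 96590490⟩,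 ⟨nat_lit 22, nat_lit 53, nat_lit 100, nat_lit 93, nat_lit 12270291⟩]⟩
noncomputable def p119_l101 : Lf2 := ⟨nat_lit 0, nat_lit 20, [nat_lit 5, nat_lit 5, nat_lit 5, nat_lit 20], false, nat_lit 80, nat_lit 160, nat_lit 8, nat_lit 288, ⟨nat_lit 84, nat_lit 916, nat_lit 0, nat_lit 9, nat_lit 337, nat_lit 916, nat_lit 94, nat_lit 0, nat_lit 0, nat_lit 0, nat_lit 0, nat_lit 0, nat_lit 36928723, nat_lit 26558705, nat_lit 3512572, nat_lit 4472530, true, true⟩,
 nat_lit 0, nat_lit 0, nat_lit 1039, nat_lit 0, nat_lit 3953, nat_lit 661, nat_lit 0, nat_lit 0, nat_lit 0, nat_lit 49, nat_lit 0, nat_lit 0, nat_lit 0, nat_lit 0, nat_lit 0, nat_lit 229000, nat_lit 0, nat_lit 0, [(nat_lit 25, [(nat_lit 0, nat_lit 916)])],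
 ⟨p119_k0, nat_lit 0, nat_lit 0, nat_lit 125, nat_lit 0, nat_lit 0, [nat_lit 778616001, nat_lit 1529508800, nat_lit 2465088000], [], [nat_lit 28975253400, nat_lit 30059782960, nat_lit 30059782960, nat_lit 31253590137, nat_lit 28848116316, nat_lit 29837917444, nat_lit 29837917444, nat_lit 30778045842], nat_lit 0, nat_lit 0, nat_lit 0, nat_lit 0, nat_lit 0, nat_lit 0, [], [nat_lit 20, nat_lit 40, nat_lit 40, nat_lit 80, nat_lit 16, nat_lit 249, nat_lit 40, nat_lit 7]⟩, ⟨p119_k1, nat_lit 0, nat_lit 0, nat_lit 791, nat_lit 0, nat_lit 1254900, [nat_lit 275688000, nat_lit 525000000, nat_lit 997248000], [], [nat_lit 3213618217, nat_lit 3222334862, nat_lit 3333635042, nat_lit 3351179405, nat_lit 2772417621, nat_lit 2775259516, nat_lit 2845359547, nat_lit 2855907284], nat_lit 1271250, nat_lit 1271250, nat_lit 1271250, nat_lit 1271250, nat_lit 43600, nat_lit 2042100, [nat_lit 780000, nat_lit 1435000, nat_lit 1271250], [nat_lit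 23, nat_lit 40, nat_lit 40, nat_lit 80, nat_lit 12, nat_lit 373, nat_lit 150, nat_lit 9]⟩,
 ⟨nat_lit 2236, nat_lit 3163, ⟨.ofNat (nat_lit 832432), .ofNat (nat_lit 862908), .ofNat (nat_lit 837970), .ofNat (nat_lit 868447), .ofNat (nat_lit 819158), .ofNat (nat_lit 847666), .ofNat (nat_lit 824851), .ofNat (nat_lit 853359)⟩, ⟨.ofNat (nat_lit 162054), .ofNat (nat_lit 283961), .ofNat (nat_lit 184209), .ofNat (nat_lit 306116), .ofNat (nat_lit 169532), .ofNat (nat_lit 283563), .ofNat (nat_lit 192306), .ofNat (nat_lit 306337)⟩⟩, [⟨nat_lit 13, nat_lit 58, nat_lit 61, nat_lit 100, nat_lit 364754674⟩, ⟨nat_lit 10, nat_lit 90, nat_lit 53, nat_lit 100, nat_lit 11775034⟩]⟩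
noncomputable def p119_l102 : Lf2 := ⟨nat_lit 0, nat_lit 20, [nat_lit 5, nat_lit 5, nat_lit 5, nat_lit 20], false, nat_lit 80, nat_lit 160, nat_lit 8, nat_lit 288, ⟨nat_lit 97, nat_lit 903, nat_lit 0, nat_lit 9, nat_lit 340, nat_lit 903, nat_lit 94, nat_lit 0, nat_lit 0, nat_lit 0, nat_lit 0, nat_lit 0, nat_lit 36738265, nat_lit 26761935, nat_lit 3499800, nat_lit 4474844, true, true⟩,
 nat_lit 0, nat_lit 0, nat_lit 1139, nat_lit 0, nat_lit 3915, nat_lit 740, nat_lit 0, nat_lit 0, nat_lit 0, nat_lit 58, nat_lit 0, nat_lit 0, nat_lit 0, nat_lit 0, nat_lit 0, nat_lit 225750, nat_lit 0, nat_lit 0, [(nat_lit 25, [(nat_lit 0, nat_lit 903)])],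
 ⟨p119_k0, nat_lit 0, nat_lit 0, nat_lit 125, nat_lit 0, nat_lit 0, [nat_lit 780878001, nat_lit 1554380400, nat_lit 2518804000], [], [nat_lit 29021681000, nat_lit 30101554800, nat_lit 30101554800, nat_lit 31179508035, nat_lit 28910079380, nat_lit 29895853420, nat_lit 29895853420, nat_lit 30832312310], nat_lit 0, nat_lit 0, nat_lit 0, nat_lit 0, nat_lit 0, nat_lit 0, [], [nat_lit 20, nat_lit 40, nat_lit 40, nat_lit 80, nat_lit 16, nat_lit 249, nat_lit 40, nat_lit 7]⟩, ⟨p119_k6, nat_lit 0, nat_lit 0, nat_lit 783, nat_lit 0, nat_lit 1246993, [nat_lit 318354000, nat_lit 606250000, nat_lit 1151584000], [], [nat_lit 3667559629, nat_lit 3689442046, nat_lit 3813581877, nat_lit 3833607834, nat_lit 3179859916, nat_lit 3190991519, nat_lit 3274064985, nat_lit 3286202614], nat_lit 1271250, nat_lit 1271250, nat_lit 1271250, nat_lit 1271250, nat_lit 43600, nat_lit 2042100, [nat_lit 780000, nat_lit 1435000, nat_lit 1271250], [nat_lit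 23, nat_lit 40, nat_lit 40, nat_lit 80, nat_lit 12, nat_lit 373, nat_lit 150, nat_lit 9]⟩,
 ⟨nat_lit 2236, nat_lit 3163, ⟨.ofNat (nat_lit 837970), .ofNat (nat_lit 868447), .ofNat (nat_lit 843509), .ofNat (nat_lit 873986), .ofNat (nat_lit 824851), .ofNat (nat_lit 853359), .ofNat (nat_lit 830545), .ofNat (nat_lit 859053)⟩, ⟨.ofNat (nat_lit 162054), .ofNat (nat_lit 283961), .ofNat (nat_lit 184209), .ofNat (nat_lit 306116), .ofNat (nat_lit 169532), .ofNat (nat_lit 283563), .ofNat (nat_lit 192306), .ofNat (nat_lit 306337)⟩⟩, [⟨nat_lit 13, nat_lit 59, nat_lit 59, nat_lit 100, nat_lit 369606102⟩, ⟨nat_lit 4, nat_lit 100, nat_lit 53, nat_lit 77, nat_lit 11818503⟩, ⟨nat_lit 19, nat_lit 98, nat_lit 100, nat_lit 83, nat_lit 9515008⟩]⟩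
noncomputable def p119_l103 : Lf2 := ⟨nat_lit 0, nat_lit 15, [nat_lit 30, nat_lit 5, nat_lit 5, nat_lit 20], false, nat_lit 80, nat_lit 160, nat_lit 8, nat_lit 268, ⟨nat_lit 111, nat_lit 889, nat_lit 0, nat_lit 9, nat_lit 344, nat_lit 889, nat_lit 85, nat_lit 0, nat_lit 0, nat_lit 0, nat_lit 0, nat_lit 0, nat_lit 36644764, nat_lit 27354265, nat_lit 3000971, nat_lit 4377601, true, true⟩,
 nat_lit 0, nat_lit 0, nat_lit 1267, nat_lit 0, nat_lit 3107, nat_lit 841, nat_lit 24, nat_lit 0, nat_lit 0, nat_lit 58, nat_lit 0, nat_lit 0, nat_lit 0, nat_lit 0, nat_lit 0, nat_lit 355600, nat_lit 0, nat_lit 0, [(nat_lit 25, [(nat_lit 1, nat_lit 889)])],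
 ⟨p119_k3, nat_lit 0, nat_lit 0, nat_lit 126, nat_lit 0, nat_lit 0, [nat_lit 855145201, nat_lit 1255198534, nat_lit 1507362800], [], [nat_lit 27663340400, nat_lit 28644218040, nat_lit 28840393568, nat_lit 29828699576, nat_lit 27882712635, nat_lit 28782217236, nat_lit 28962246323, nat_lit 29812337511], nat_lit 0, nat_lit 0, nat_lit 0, nat_lit 0, nat_lit 0, nat_lit 0, [], [nat_lit 20, nat_lit 40, nat_lit 40, nat_lit 80, nat_lit 16, nat_lit 249, nat_lit 40, nat_lit 7]⟩, ⟨p119_k23, nat_lit 0, nat_lit 0, nat_lit 838, nat_lit 0, nat_lit 1500840, [nat_lit 364302000, nat_lit 693750000, nat_lit 1092462000], [], [nat_lit 4165091844, nat_lit 4173281346, nat_lit 4232694449, nat_lit 4284171561, nat_lit 3624652270, nat_lit 3628624324, nat_lit 3661003419, nat_lit 3664660192], nat_lit 1271250, nat_lit 1271250, nat_lit 1271250, nat_lit 1271250, nat_lit 43600, nat_lit 1899350, [nat_lit 780000, nat_lit 1435000, nat_lit 1271250],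 [nat_lit 8, nat_lit 40, nat_lit 40, nat_lit 80, nat_lit 1, nat_lit 329, nat_lit 75, nat_lit 9]⟩,
 ⟨nat_lit 2236, nat_lit 3163, ⟨.ofNat (nat_lit 843509), .ofNat (nat_lit 880081), .ofNat (nat_lit 854586), .ofNat (nat_lit 891158), .ofNat (nat_lit 830545), .ofNat (nat_lit 864754), .ofNat (nat_lit 841932), .ofNat (nat_lit 876141)⟩, ⟨.ofNat (nat_lit 139899), .ofNat (nat_lit 261806), .ofNat (nat_lit 162054), .ofNat (nat_lit 283961), .ofNat (nat_lit 146758), .ofNat (nat_lit 260789), .ofNat (nat_lit 169532), .ofNat (nat_lit 283563)⟩⟩, [⟨nat_lit 13, nat_lit 60, nat_lit 57, nat_lit 100, nat_lit 269038721⟩, ⟨nat_lit 16, nat_lit 55, nat_lit 100, nat_lit 69, nat_lit 105842016⟩, ⟨nat_lit 22, nat_lit 51, nat_lit 100, nat_lit 92, nat_lit 15738924⟩]⟩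
noncomputable def p119_l104 : Lf2 := ⟨nat_lit 0, nat_lit 20, [nat_lit 5, nat_lit 5, nat_lit 5, nat_lit 20], false, nat_lit 80, nat_lit 160, nat_lit 8, nat_lit 160, ⟨nat_lit 229, nat_lit 771, nat_lit 0, nat_lit 9, nat_lit 344, nat_lit 771, nat_lit 94, nat_lit 0, nat_lit 0, nat_lit 0, nat_lit 0, nat_lit 0, nat_lit 36354981, nat_lit 27171172, nat_lit 3473847, nat_lit 4478845, true, true⟩,
 nat_lit 0, nat_lit 0, nat_lit 2521, nat_lit 0, nat_lit 3228, nat_lit 1674, nat_lit 59, nat_lit 0, nat_lit 0, nat_lit 149, nat_lit 0, nat_lit 0, nat_lit 0, nat_lit 0, nat_lit 0, nat_lit 321000, nat_lit 0, nat_lit 0, [(nat_lit 25, [(nat_lit 1, nat_lit 750), (nat_lit 2, nat_lit 21)])],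
 ⟨p119_k0, nat_lit 0, nat_lit 0, nat_lit 126, nat_lit 0, nat_lit 0, [nat_lit 879238401, nat_lit 1495178401, nat_lit 2035775200], [], [nat_lit 27941525912, nat_lit 28930772535, nat_lit 29129913048, nat_lit 30068203104, nat_lit 28199444777, nat_lit 29018258161, nat_lit 29199895425, nat_lit 30061443377], nat_lit 0, nat_lit 0, nat_lit 0, nat_lit 0, nat_lit 0, nat_lit 0, [], [nat_lit 20, nat_lit 40, nat_lit 40, nat_lit 80, nat_lit 16, nat_lit 249, nat_lit 40, nat_lit 7]⟩, ⟨p119_k7, nat_lit 0, nat_lit 0, nat_lit 800, nat_lit 0, nat_lit 1272222, [nat_lit 751578000, nat_lit 1431250000, nat_lit 2718688000], [], [nat_lit 8475041557, nat_lit 8576588671, nat_lit 8873258989, nat_lit 8964659246, nat_lit 7512296730, nat_lit 7535175682, nat_lit 7637569465, nat_lit 7661924720], nat_lit 1271250, nat_lit 1271250, nat_lit 1271250, nat_lit 1271250, nat_lit 43600, nat_lit 1100001, [nat_lit 780000, nat_lit 1435000, nat_lit 1271250],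 [nat_lit 23, nat_lit 40, nat_lit 40, nat_lit 80, nat_lit 12, nat_lit 345, nat_lit 125, nat_lit 8]⟩,
 ⟨nat_lit 2236, nat_lit 3163, ⟨.ofNat (nat_lit 843509), .ofNat (nat_lit 880081), .ofNat (nat_lit 854586), .ofNat (nat_lit 891158), .ofNat (nat_lit 830545), .ofNat (nat_lit 864754), .ofNat (nat_lit 841932), .ofNat (nat_lit 876141)⟩, ⟨.ofNat (nat_lit 162054), .ofNat (nat_lit 283961), .ofNat (nat_lit 184209), .ofNat (nat_lit 306116), .ofNat (nat_lit 169532), .ofNat (nat_lit 283563), .ofNat (nat_lit 192306), .ofNat (nat_lit 306337)⟩⟩, [⟨nat_lit 13, nat_lit 49, nat_lit 68, nat_lit 100, nat_lit 447498843⟩, ⟨nat_lit 16, nat_lit 53, nat_lit 100, nat_lit 77, nat_lit 122146425⟩]⟩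
noncomputable def p119_l105 : Lf2 := ⟨nat_lit 0, nat_lit 20, [nat_lit 5, nat_lit 5, nat_lit 5, nat_lit 20], false, nat_lit 80, nat_lit 160, nat_lit 160, nat_lit 288, ⟨nat_lit 180, nat_lit 820, nat_lit 0, nat_lit 9, nat_lit 343, nat_lit 820, nat_lit 94, nat_lit 0, nat_lit 0, nat_lit 0, nat_lit 0, nat_lit 0, nat_lit 36449302, nat_lit 27070434, nat_lit 3480264, nat_lit 4477942, true, true⟩,
 nat_lit 0, nat_lit 0, nat_lit 1970, nat_lit 0, nat_lit 3432, nat_lit 1308, nat_lit 0, nat_lit 0, nat_lit 0, nat_lit 126, nat_lit 0, nat_lit 0, nat_lit 0, nat_lit 0, nat_lit 0, nat_lit 328000, nat_lit 0, nat_lit 0, [(nat_lit 25, [(nat_lit 1, nat_lit 820)])],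
 ⟨p119_k0, nat_lit 0, nat_lit 0, nat_lit 126, nat_lit 0, nat_lit 0, [nat_lit 861576001, nat_lit 1412509334, nat_lit 1875464000], [], [nat_lit 28285701600, nat_lit 29306398240, nat_lit 29510537568, nat_lit 30471994176, nat_lit 28371563904, nat_lit 29306151536, nat_lit 29493069063, nat_lit 30373932551], nat_lit 0, nat_lit 0, nat_lit 0, nat_lit 0, nat_lit 0, nat_lit 0, [], [nat_lit 20, nat_lit 40, nat_lit 40, nat_lit 80, nat_lit 16, nat_lit 249, nat_lit 40, nat_lit 7]⟩, ⟨p119_k7, nat_lit 0, nat_lit 0, nat_lit 677, nat_lit 0, nat_lit 1240194, [nat_lit 590760000, nat_lit 1125000000, nat_lit 2136960000], [], [nat_lit 5669642154, nat_lit 5681923968, nat_lit 5798748205, nat_lit 5812674752, nat_lit 5730129195, nat_lit 5750817812, nat_lit 5933369662, nat_lit 5955346119], nat_lit 1271250, nat_lit 1271250, nat_lit 1271250, nat_lit 1271250, nat_lit 1100001, nat_lit 2196000, [nat_lit 780000, nat_lit 1435000, nat_lit 1271250],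 [nat_lit 23, nat_lit 40, nat_lit 40, nat_lit 80, nat_lit 12, nat_lit 373, nat_lit 150, nat_lit 8]⟩,
 ⟨nat_lit 2236, nat_lit 3163, ⟨.ofNat (nat_lit 843509), .ofNat (nat_lit 880081), .ofNat (nat_lit 849048), .ofNat (nat_lit 885620), .ofNat (nat_lit 830545), .ofNat (nat_lit 864754), .ofNat (nat_lit 836239), .ofNat (nat_lit 870448)⟩, ⟨.ofNat (nat_lit 162054), .ofNat (nat_lit 283961), .ofNat (nat_lit 184209), .ofNat (nat_lit 306116), .ofNat (nat_lit 169532), .ofNat (nat_lit 283563), .ofNat (nat_lit 192306), .ofNat (nat_lit 306337)⟩⟩, [⟨nat_lit 13, nat_lit 49, nat_lit 68, nat_lit 100, nat_lit 395792102⟩, ⟨nat_lit 4, nat_lit 100, nat_lit 53, nat_lit 77, nat_lit 82219561⟩, ⟨nat_lit 19, nat_lit 96, nat_lit 100, nat_lit 82, nat_lit 52591666⟩]⟩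
noncomputable def p119_l106 : Lf2 := ⟨nat_lit 0, nat_lit 20, [nat_lit 5, nat_lit 5, nat_lit 5, nat_lit 20], false, nat_lit 80, nat_lit 160, nat_lit 160, nat_lit 284, ⟨nat_lit 260, nat_lit 740, nat_lit 0, nat_lit 9, nat_lit 345, nat_lit 740, nat_lit 94, nat_lit 0, nat_lit 0, nat_lit 0, nat_lit 0, nat_lit 0, nat_lit 36260844, nat_lit 27271734, nat_lit 3467422, nat_lit 4479694, true, true⟩,
 nat_lit 0, nat_lit 0, nat_lit 2667, nat_lit 0, nat_lit 3329, nat_lit 1808, nat_lit 73, nat_lit 0, nat_lit 0, nat_lit 188, nat_lit 0, nat_lit 0, nat_lit 0, nat_lit 0, nat_lit 0, nat_lit 296000, nat_lit 0, nat_lit 0, [(nat_lit 25, [(nat_lit 1, nat_lit 740)])],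
 ⟨p119_k0, nat_lit 0, nat_lit 0, nat_lit 126, nat_lit 0, nat_lit 0, [nat_lit 869032001, nat_lit 1594898667, nat_lit 2302248000], [], [nat_lit 28112024840, nat_lit 29117035405, nat_lit 29318650821, nat_lit 30268119272, nat_lit 28315619360, nat_lit 29160602017, nat_lit 29345336438, nat_lit 30216447474], nat_lit 0, nat_lit 0, nat_lit 0, nat_lit 0, nat_lit 0, nat_lit 0, [], [nat_lit 20, nat_lit 40, nat_lit 40, nat_lit 80, nat_lit 16, nat_lit 249, nat_lit 40, nat_lit 7]⟩, ⟨p119_k32, nat_lit 0, nat_lit 0, nat_lit 674, nat_lit 0, nat_lit 1234478, [nat_lit 853320000, nat_lit 1625000000, nat_lit 3086720000], [], [nat_lit 8115307578, nat_lit 8137747860, nat_lit 8301437924, nat_lit 8321710419, nat_lit 8210314725, nat_lit 8232629518, nat_lit 8489171263, nat_lit 8527826192], nat_lit 1271250, nat_lit 1271250, nat_lit 1271250, nat_lit 1271250, nat_lit 1100001, nat_lit 2161750, [nat_lit 780000, nat_lit 1435000, nat_lit 1271250],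 [nat_lit 23, nat_lit 40, nat_lit 40, nat_lit 80, nat_lit 12, nat_lit 373, nat_lit 150, nat_lit 8]⟩,
 ⟨nat_lit 2236, nat_lit 3163, ⟨.ofNat (nat_lit 849048), .ofNat (nat_lit 885620), .ofNat (nat_lit 854586), .ofNat (nat_lit 891158), .ofNat (nat_lit 836239), .ofNat (nat_lit 870448), .ofNat (nat_lit 841932), .ofNat (nat_lit 876141)⟩, ⟨.ofNat (nat_lit 162054), .ofNat (nat_lit 283961), .ofNat (nat_lit 184209), .ofNat (nat_lit 306116), .ofNat (nat_lit 169532), .ofNat (nat_lit 283563), .ofNat (nat_lit 192306), .ofNat (nat_lit 306337)⟩⟩, [⟨nat_lit 13, nat_lit 50, nat_lit 66, nat_lit 100, nat_lit 396579829⟩, ⟨nat_lit 16, nat_lit 53, nat_lit 100, nat_lit 77, nat_lit 134353286⟩, ⟨nat_lit 7, nat_lit 100, nat_lit 93, nat_lit 81, nat_lit 79311974⟩]⟩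
noncomputable def p119_l107 : Lf2 := ⟨nat_lit 0, nat_lit 20, [nat_lit 5, nat_lit 5, nat_lit 5, nat_lit 20], false, nat_lit 160, nat_lit 200, nat_lit 48, nat_lit 300, ⟨nat_lit 174, nat_lit 826, nat_lit 0, nat_lit 9, nat_lit 339, nat_lit 826, nat_lit 126, nat_lit 0, nat_lit 0, nat_lit 0, nat_lit 0, nat_lit 0, nat_lit 35692003, nat_lit 26007811, nat_lit 5300186, nat_lit 4803368, true, true⟩,
 nat_lit 0, nat_lit 0, nat_lit 2112, nat_lit 0, nat_lit 3614, nat_lit 1344, nat_lit 0, nat_lit 0, nat_lit 0, nat_lit 101, nat_lit 0, nat_lit 0, nat_lit 0, nat_lit 0, nat_lit 0, nat_lit 325600, nat_lit 0, nat_lit 0, [(nat_lit 25, [(nat_lit 0, nat_lit 32), (nat_lit 1, nat_lit 794)])],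
 ⟨p119_k0, nat_lit 0, nat_lit 0, nat_lit 92, nat_lit 0, nat_lit 0, [nat_lit 858431201, nat_lit 1410563467, nat_lit 1881944800], [], [nat_lit 28338545608, nat_lit 28815483240, nat_lit 29292420872, nat_lit 29746117134, nat_lit 28912958264, nat_lit 29363068770, nat_lit 29813179276, nat_lit 30295470778], nat_lit 0, nat_lit 0, nat_lit 0, nat_lit 0, nat_lit 0, nat_lit 0, [], [nat_lit 20, nat_lit 40, nat_lit 40, nat_lit 80, nat_lit 16, nat_lit 260, nat_lit 50, nat_lit 7]⟩, ⟨p119_k1, nat_lit 0, nat_lit 0, nat_lit 809, nat_lit 0, nat_lit 1361923, [nat_lit 571068000, nat_lit 1087500000, nat_lit 2065728000], [], [nat_lit 6506597893, nat_lit 6514437249, nat_lit 6581574138, nat_lit 6588432621, nat_lit 5904750585, nat_lit 5909822479, nat_lit 5966392662, nat_lit 5977045499], nat_lit 1271250, nat_lit 1271250, nat_lit 1271250, nat_lit 1271250, nat_lit 279600, nat_lit 2172750, [nat_lit 780000, nat_lit 1435000, nat_lit 1271250],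 [nat_lit 23, nat_lit 40, nat_lit 40, nat_lit 80, nat_lit 12, nat_lit 373, nat_lit 150, nat_lit 9]⟩,
 ⟨nat_lit 2738, nat_lit 3163, ⟨.ofNat (nat_lit 832432), .ofNat (nat_lit 862908), .ofNat (nat_lit 837970), .ofNat (nat_lit 868447), .ofNat (nat_lit 825913), .ofNat (nat_lit 855444), .ofNat (nat_lit 831518), .ofNat (nat_lit 861048)⟩, ⟨.ofNat (nat_lit 261806), .ofNat (nat_lit 322759), .ofNat (nat_lit 306116), .ofNat (nat_lit 367069), .ofNat (nat_lit 261598), .ofNat (nat_lit 320659), .ofNat (nat_lit 306433), .ofNat (nat_lit 365494)⟩⟩, [⟨nat_lit 13, nat_lit 62, nat_lit 57, nat_lit 100, nat_lit 281196014⟩, ⟨nat_lit 4, nat_lit 100, nat_lit 57, nat_lit 73, nat_lit 294782167⟩, ⟨nat_lit 7, nat_lit 100, nat_lit 98, nat_lit 77, nat_lit 28346589⟩]⟩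
noncomputable def p119_l108 : Lf2 := ⟨nat_lit 0, nat_lit 20, [nat_lit 5, nat_lit 5, nat_lit 5, nat_lit 20], false, nat_lit 160, nat_lit 184, nat_lit 48, nat_lit 300, ⟨nat_lit 173, nat_lit 827, nat_lit 0, nat_lit 9, nat_lit 332, nat_lit 827, nat_lit 120, nat_lit 0, nat_lit 0, nat_lit 0, nat_lit 0, nat_lit 0, nat_lit 36391442, nat_lit 25565170, nat_lit 5043388, nat_lit 4746580, true, true⟩,
 nat_lit 0, nat_lit 0, nat_lit 2152, nat_lit 0, nat_lit 2717, nat_lit 1369, nat_lit 243, nat_lit 0, nat_lit 0, nat_lit 94, nat_lit 0, nat_lit 0, nat_lit 0, nat_lit 0, nat_lit 0, nat_lit 206750, nat_lit 0, nat_lit 0, [(nat_lit 25, [(nat_lit 0, nat_lit 827)])],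
 ⟨p119_k2, nat_lit 0, nat_lit 0, nat_lit 90, nat_lit 0, nat_lit 0, [nat_lit 794102001, nat_lit 1699783601, nat_lit 2832836000], [], [nat_lit 27614264728, nat_lit 28043538216, nat_lit 27950048343, nat_lit 28391482934, nat_lit 27987930052, nat_lit 28403862967, nat_lit 28311774812, nat_lit 28783228013], nat_lit 0, nat_lit 0, nat_lit 0, nat_lit 0, nat_lit 0, nat_lit 0, [], [nat_lit 20, nat_lit 40, nat_lit 40, nat_lit 80, nat_lit 16, nat_lit 260, nat_lit 50, nat_lit 7]⟩, ⟨p119_k1, nat_lit 0, nat_lit 0, nat_lit 868, nat_lit 0, nat_lit 1525369, [nat_lit 567786000, nat_lit 1081250000, nat_lit 2053856000], [], [nat_lit 6514867045, nat_lit 6519094953, nat_lit 6537046023, nat_lit 6540949863, nat_lit 5844414850, nat_lit 5845852748, nat_lit 5865106078, nat_lit 5887172294], nat_lit 1271250, nat_lit 1271250, nat_lit 1271250, nat_lit 1271250, nat_lit 279600, nat_lit 2172750, [nat_lit 780000, nat_lit 1435000, nat_lit 1271250],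 [nat_lit 23, nat_lit 40, nat_lit 40, nat_lit 80, nat_lit 12, nat_lit 373, nat_lit 150, nat_lit 9]⟩,
 ⟨nat_lit 2236, nat_lit 2739, ⟨.ofNat (nat_lit 825913), .ofNat (nat_lit 837726), .ofNat (nat_lit 831518), .ofNat (nat_lit 843330), .ofNat (nat_lit 819158), .ofNat (nat_lit 830561), .ofNat (nat_lit 824851), .ofNat (nat_lit 836255)⟩, ⟨.ofNat (nat_lit 261598), .ofNat (nat_lit 297035), .ofNat (nat_lit 306433), .ofNat (nat_lit 341870), .ofNat (nat_lit 260789), .ofNat (nat_lit 294998), .ofNat (nat_lit 306337), .ofNat (nat_lit 340547)⟩⟩, [⟨nat_lit 13, nat_lit 58, nat_lit 60, nat_lit 100, nat_lit 255825386⟩, ⟨nat_lit 16, nat_lit 50, nat_lit 100, nat_lit 74, nat_lit 355203359⟩, ⟨nat_lit 7, nat_lit 100, nat_lit 98, nat_lit 77, nat_lit 26489670⟩]⟩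
noncomputable def p119_l109 : Lf2 := ⟨nat_lit 0, nat_lit 20, [nat_lit 5, nat_lit 5, nat_lit 5, nat_lit 20], false, nat_lit 160, nat_lit 200, nat_lit 48, nat_lit 296, ⟨nat_lit 190, nat_lit 810, nat_lit 0, nat_lit 9, nat_lit 341, nat_lit 810, nat_lit 126, nat_lit 0, nat_lit 0, nat_lit 0, nat_lit 0, nat_lit 0, nat_lit 35515805, nat_lit 26203179, nat_lit 5281016, nat_lit 4804801, true, true⟩,
 nat_lit 0, nat_lit 0, nat_lit 2206, nat_lit 0, nat_lit 3651, nat_lit 1434, nat_lit 0, nat_lit 0, nat_lit 0, nat_lit 124, nat_lit 0, nat_lit 0, nat_lit 0, nat_lit 0, nat_lit 0, nat_lit 322650, nat_lit 0, nat_lit 0, [(nat_lit 25, [(nat_lit 0, nat_lit 9), (nat_lit 1, nat_lit 801)])],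
 ⟨p119_k0, nat_lit 0, nat_lit 0, nat_lit 92, nat_lit 0, nat_lit 0, [nat_lit 861780801, nat_lit 1438608000, nat_lit 1939637200], [], [nat_lit 28388207972, nat_lit 28867106160, nat_lit 29346004348, nat_lit 29801487081, nat_lit 28959819876, nat_lit 29411700055, nat_lit 29863580234, nat_lit 30343250404], nat_lit 0, nat_lit 0, nat_lit 0, nat_lit 0, nat_lit 0, nat_lit 0, [], [nat_lit 20, nat_lit 40, nat_lit 40, nat_lit 80, nat_lit 16, nat_lit 260, nat_lit 50, nat_lit 7]⟩, ⟨p119_k6, nat_lit 0, nat_lit 0, nat_lit 805, nat_lit 0, nat_lit 1353300, [nat_lit 623580000, nat_lit 1187500000, nat_lit 2255680000], [], [nat_lit 6823746431, nat_lit 6832475731, nat_lit 6904277236, nat_lit 6911955476, nat_lit 6299642195, nat_lit 6306130664, nat_lit 6367316257, nat_lit 6372878998], nat_lit 1271250, nat_lit 1271250, nat_lit 1271250, nat_lit 1271250, nat_lit 279600, nat_lit 2142700, [nat_lit 780000, nat_lit 1435000, nat_lit 1271250],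 [nat_lit 23, nat_lit 40, nat_lit 40, nat_lit 80, nat_lit 12, nat_lit 373, nat_lit 150, nat_lit 9]⟩,
 ⟨nat_lit 2738, nat_lit 3163, ⟨.ofNat (nat_lit 837970), .ofNat (nat_lit 868447), .ofNat (nat_lit 843509), .ofNat (nat_lit 873986), .ofNat (nat_lit 831518), .ofNat (nat_lit 861048), .ofNat (nat_lit 837122), .ofNat (nat_lit 866653)⟩, ⟨.ofNat (nat_lit 261806), .ofNat (nat_lit 322759), .ofNat (nat_lit 306116), .ofNat (nat_lit 367069), .ofNat (nat_lit 261598), .ofNat (nat_lit 320659), .ofNat (nat_lit 306433), .ofNat (nat_lit 365494)⟩⟩, [⟨nat_lit 13, nat_lit 63, nat_lit 55, nat_lit 100, nat_lit 273406259⟩, ⟨nat_lit 16, nat_lit 57, nat_lit 100, nat_lit 73, nat_lit 303281428⟩, ⟨nat_lit 7, nat_lit 100, nat_lit 95, nat_lit 76, nat_lit 35560119⟩]⟩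
noncomputable def p119_l110 : Lf2 := ⟨nat_lit 0, nat_lit 20, [nat_lit 5, nat_lit 5, nat_lit 5, nat_lit 20], false, nat_lit 160, nat_lit 184, nat_lit 48, nat_lit 296, ⟨nat_lit 221, nat_lit 779, nat_lit 0, nat_lit 9, nat_lit 336, nat_lit 779, nat_lit 120, nat_lit 0, nat_lit 0, nat_lit 0, nat_lit 0, nat_lit 0, nat_lit 36115119, nat_lit 25869088, nat_lit 5015793, nat_lit 4749794, true, true⟩,
 nat_lit 0, nat_lit 0, nat_lit 2623, nat_lit 0, nat_lit 2735, nat_lit 1705, nat_lit 256, nat_lit 0, nat_lit 0, nat_lit 137, nat_lit 0, nat_lit 0, nat_lit 0, nat_lit 0, nat_lit 0, nat_lit 194750, nat_lit 0, nat_lit 0, [(nat_lit 25, [(nat_lit 0, nat_lit 779)])],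
 ⟨p119_k2, nat_lit 0, nat_lit 0, nat_lit 93, nat_lit 0, nat_lit 0, [nat_lit 802454001, nat_lit 1791617201, nat_lit 3031172000], [], [nat_lit 27686654786, nat_lit 28116862780, nat_lit 28191471612, nat_lit 28612534495, nat_lit 28059489520, nat_lit 28474681607, nat_lit 28547089697, nat_lit 28997018377], nat_lit 0, nat_lit 0, nat_lit 0, nat_lit 0, nat_lit 0, nat_lit 0, [], [nat_lit 20, nat_lit 40, nat_lit 40, nat_lit 80, nat_lit 16, nat_lit 260, nat_lit 50, nat_lit 7]⟩, ⟨p119_k6, nat_lit 0, nat_lit 0, nat_lit 861, nat_lit 0, nat_lit 1509677, [nat_lit 725322000, nat_lit 1381250000, nat_lit 2623712000], [], [nat_lit 8005560548, nat_lit 8014427138, nat_lit 8060540119, nat_lit 8070528437, nat_lit 7319355420, nat_lit 7322858997, nat_lit 7353774888, nat_lit 7381616306], nat_lit 1271250, nat_lit 1271250, nat_lit 1271250, nat_lit 1271250, nat_lit 279600, nat_lit 2142700, [nat_lit 780000, nat_lit 1435000, nat_lit 1271250],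 [nat_lit 23, nat_lit 40, nat_lit 40, nat_lit 80, nat_lit 12, nat_lit 373, nat_lit 150, nat_lit 9]⟩,
 ⟨nat_lit 2236, nat_lit 2739, ⟨.ofNat (nat_lit 831518), .ofNat (nat_lit 849236), .ofNat (nat_lit 837122), .ofNat (nat_lit 854840), .ofNat (nat_lit 824851), .ofNat (nat_lit 841956), .ofNat (nat_lit 830545), .ofNat (nat_lit 847650)⟩, ⟨.ofNat (nat_lit 261598), .ofNat (nat_lit 297035), .ofNat (nat_lit 306433), .ofNat (nat_lit 341870), .ofNat (nat_lit 260789), .ofNat (nat_lit 294998), .ofNat (nat_lit 306337), .ofNat (nat_lit 340547)⟩⟩, [⟨nat_lit 13, nat_lit 59, nat_lit 58, nat_lit 100, nat_lit 243497854⟩, ⟨nat_lit 16, nat_lit 50, nat_lit 100, nat_lit 74, nat_lit 452784764⟩, ⟨nat_lit 19, nat_lit 95, nat_lit 100, nat_lit 76, nat_lit 39254343⟩]⟩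
noncomputable def p119_l111 : Lf2 := ⟨nat_lit 0, nat_lit 20, [nat_lit 5, nat_lit 5, nat_lit 5, nat_lit 20], false, nat_lit 160, nat_lit 200, nat_lit 48, nat_lit 292, ⟨nat_lit 276, nat_lit 724, nat_lit 0, nat_lit 9, nat_lit 344, nat_lit 724, nat_lit 126, nat_lit 0, nat_lit 0, nat_lit 0, nat_lit 0, nat_lit 0, nat_lit 35246081, nat_lit 26502449, nat_lit 5251470, nat_lit 4806596, true, true⟩,
 nat_lit 0, nat_lit 0, nat_lit 3028, nat_lit 0, nat_lit 2924, nat_lit 2010, nat_lit 186, nat_lit 0, nat_lit 0, nat_lit 192, nat_lit 0, nat_lit 0, nat_lit 0, nat_lit 0, nat_lit 0, nat_lit 289600, nat_lit 0, nat_lit 0, [(nat_lit 25, [(nat_lit 1, nat_lit 724)])],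
 ⟨p119_k0, nat_lit 0, nat_lit 0, nat_lit 95, nat_lit 0, nat_lit 0, [nat_lit 870523201, nat_lit 1631376534, nat_lit 2387604800], [], [nat_lit 27506536178, nat_lit 27946912090, nat_lit 28563438367, nat_lit 28981987771, nat_lit 28133179074, nat_lit 28550287570, nat_lit 29157815464, nat_lit 29599733951], nat_lit 0, nat_lit 0, nat_lit 0, nat_lit 0, nat_lit 0, nat_lit 0, [], [nat_lit 20, nat_lit 40, nat_lit 40, nat_lit 80, nat_lit 16, nat_lit 260, nat_lit 50, nat_lit 7]⟩, ⟨p119_k7, nat_lit 0, nat_lit 0, nat_lit 801, nat_lit 0, nat_lit 1345707, [nat_lit 905832000, nat_lit 1725000000, nat_lit 3276672000], [], [nat_lit 9688433205, nat_lit 9708847778, nat_lit 9869779642, nat_lit 9888030636, nat_lit 9015562391, nat_lit 9025646033, nat_lit 9133085604, nat_lit 9167301094], nat_lit 1271250, nat_lit 1271250, nat_lit 1271250, nat_lit 1271250, nat_lit 279600, nat_lit 2112650, [nat_lit 780000, nat_lit 1435000, nat_lit 1271250],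 [nat_lit 23, nat_lit 40, nat_lit 40, nat_lit 80, nat_lit 12, nat_lit 373, nat_lit 150, nat_lit 9]⟩,
 ⟨nat_lit 2738, nat_lit 3163, ⟨.ofNat (nat_lit 843509), .ofNat (nat_lit 880081), .ofNat (nat_lit 849048), .ofNat (nat_lit 885620), .ofNat (nat_lit 837122), .ofNat (nat_lit 872559), .ofNat (nat_lit 842726), .ofNat (nat_lit 878163)⟩, ⟨.ofNat (nat_lit 261806), .ofNat (nat_lit 322759), .ofNat (nat_lit 306116), .ofNat (nat_lit 367069), .ofNat (nat_lit 261598), .ofNat (nat_lit 320659), .ofNat (nat_lit 306433), .ofNat (nat_lit 365494)⟩⟩, [⟨nat_lit 13, nat_lit 59, nat_lit 58, nat_lit 100, nat_lit 224806443⟩, ⟨nat_lit 4, nat_lit 100, nat_lit 57, nat_lit 73, nat_lit 455632069⟩, ⟨nat_lit 7, nat_lit 100, nat_lit 93, nat_lit 75, nat_lit 54301393⟩]⟩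
noncomputable def p119_l112 : Lf2 := ⟨nat_lit 0, nat_lit 20, [nat_lit 5, nat_lit 5, nat_lit 5, nat_lit 20], false, nat_lit 160, nat_lit 184, nat_lit 48, nat_lit 292, ⟨nat_lit 249, nat_lit 751, nat_lit 0, nat_lit 9, nat_lit 339, nat_lit 751, nat_lit 120, nat_lit 0, nat_lit 0, nat_lit 0, nat_lit 0, nat_lit 0, nat_lit 35840423, nat_lit 26171460, nat_lit 4988117, nat_lit 4752492, true, true⟩,
 nat_lit 0, nat_lit 0, nat_lit 2794, nat_lit 0, nat_lit 2720, nat_lit 1855, nat_lit 267, nat_lit 0, nat_lit 0, nat_lit 173, nat_lit 0, nat_lit 0, nat_lit 0, nat_lit 0, nat_lit 0, nat_lit 187750, nat_lit 0, nat_lit 0, [(nat_lit 25, [(nat_lit 0, nat_lit 751)])],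
 ⟨p119_k2, nat_lit 0, nat_lit 0, nat_lit 96, nat_lit 0, nat_lit 0, [nat_lit 807326001, nat_lit 1845186801, nat_lit 3146868000], [], [nat_lit 27712539821, nat_lit 28134543701, nat_lit 28373034750, nat_lit 28787676864, nat_lit 28086066714, nat_lit 28495085645, nat_lit 28726387769, nat_lit 29166684927], nat_lit 0, nat_lit 0, nat_lit 0, nat_lit 0, nat_lit 0, nat_lit 0, [], [nat_lit 20, nat_lit 40, nat_lit 40, nat_lit 80, nat_lit 16, nat_lit 260, nat_lit 50, nat_lit 7]⟩, ⟨p119_k7, nat_lit 0, nat_lit 0, nat_lit 855, nat_lit 0, nat_lit 1495476, [nat_lit 817218000, nat_lit 1556250000, nat_lit 2956128000], [], [nat_lit 8801327710, nat_lit 8813697670, nat_lit 8885152047, nat_lit 8896455823, nat_lit 8075828143, nat_lit 8080439222, nat_lit 8127791054, nat_lit 8156801351], nat_lit 1271250, nat_lit 1271250, nat_lit 1271250, nat_lit 1271250, nat_lit 279600, nat_lit 2112650, [nat_lit 780000, nat_lit 1435000, nat_lit 1271250],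 [nat_lit 23, nat_lit 40, nat_lit 40, nat_lit 80, nat_lit 12, nat_lit 373, nat_lit 150, nat_lit 9]⟩,
 ⟨nat_lit 2236, nat_lit 2739, ⟨.ofNat (nat_lit 837122), .ofNat (nat_lit 860747), .ofNat (nat_lit 842726), .ofNat (nat_lit 866351), .ofNat (nat_lit 830545), .ofNat (nat_lit 853351), .ofNat (nat_lit 836239), .ofNat (nat_lit 859045)⟩, ⟨.ofNat (nat_lit 261598), .ofNat (nat_lit 297035), .ofNat (nat_lit 306433), .ofNat (nat_lit 341870), .ofNat (nat_lit 260789), .ofNat (nat_lit 294998), .ofNat (nat_lit 306337), .ofNat (nat_lit 340547)⟩⟩, [⟨nat_lit 13, nat_lit 55, nat_lit 62, nat_lit 100, nat_lit 159245562⟩, ⟨nat_lit 13, nat_lit 60, nat_lit 57, nat_lit 100, nat_lit 68969571⟩, ⟨nat_lit 4, nat_lit 100, nat_lit 50, nat_lit 74, nat_lit 478522646⟩, ⟨nat_lit 7, nat_lit 100, nat_lit 93, nat_lit 75, nat_lit 46391883⟩]⟩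
noncomputable def p119_l113 : Lf2 := ⟨nat_lit 0, nat_lit 20, [nat_lit 5, nat_lit 5, nat_lit 5, nat_lit 20], false, nat_lit 160, nat_lit 200, nat_lit 48, nat_lit 284, ⟨nat_lit 296, nat_lit 704, nat_lit 0, nat_lit 9, nat_lit 345, nat_lit 704, nat_lit 125, nat_lit 0, nat_lit 0, nat_lit 0, nat_lit 0, nat_lit 0, nat_lit 35192738, nat_lit 26580537, nat_lit 5226725, nat_lit 4804042, true, true⟩,
 nat_lit 0, nat_lit 0, nat_lit 3037, nat_lit 0, nat_lit 2916, nat_lit 2059, nat_lit 184, nat_lit 0, nat_lit 0, nat_lit 212, nat_lit 0, nat_lit 0, nat_lit 0, nat_lit 0, nat_lit 0, nat_lit 287600, nat_lit 0, nat_lit 0, [(nat_lit 25, [(nat_lit 1, nat_lit 694), (nat_lit 2, nat_lit 10)])],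
 ⟨p119_k0, nat_lit 0, nat_lit 0, nat_lit 101, nat_lit 0, nat_lit 0, [nat_lit 878623201, nat_lit 1663143201, nat_lit 2446160800], [], [nat_lit 27583153833, nat_lit 28462726168, nat_lit 28638706972, nat_lit 29470713516, nat_lit 28213251753, nat_lit 29043522344, nat_lit 29210212690, nat_lit 30059812218], nat_lit 0, nat_lit 0, nat_lit 0, nat_lit 0, nat_lit 0, nat_lit 0, [], [nat_lit 20, nat_lit 40, nat_lit 40, nat_lit 80, nat_lit 16, nat_lit 260, nat_lit 50, nat_lit 7]⟩, ⟨p119_k32, nat_lit 0, nat_lit 0, nat_lit 849, nat_lit 0, nat_lit 1482543, [nat_lit 971472000, nat_lit 1850000000, nat_lit 3514112000], [], [nat_lit 10269780738, nat_lit 10291881899, nat_lit 10459490224, nat_lit 10479355934, nat_lit 9603287812, nat_lit 9615124001, nat_lit 9730102042, nat_lit 9740285472], nat_lit 1271250, nat_lit 1271250, nat_lit 1271250, nat_lit 1271250, nat_lit 279600, nat_lit 2052550, [nat_lit 780000, nat_lit 1435000, nat_lit 1271250],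 [nat_lit 23, nat_lit 40, nat_lit 40, nat_lit 80, nat_lit 12, nat_lit 373, nat_lit 150, nat_lit 9]⟩,
 ⟨nat_lit 2236, nat_lit 3163, ⟨.ofNat (nat_lit 849048), .ofNat (nat_lit 885620), .ofNat (nat_lit 854586), .ofNat (nat_lit 891158), .ofNat (nat_lit 836239), .ofNat (nat_lit 870448), .ofNat (nat_lit 841932), .ofNat (nat_lit 876141)⟩, ⟨.ofNat (nat_lit 261806), .ofNat (nat_lit 322759), .ofNat (nat_lit 306116), .ofNat (nat_lit 367069), .ofNat (nat_lit 260789), .ofNat (nat_lit 317804), .ofNat (nat_lit 306337), .ofNat (nat_lit 363353)⟩⟩, [⟨nat_lit 13, nat_lit 60, nat_lit 56, nat_lit 100, nat_lit 205496944⟩, ⟨nat_lit 16, nat_lit 54, nat_lit 100, nat_lit 73, nat_lit 492537470⟩, ⟨nat_lit 7, nat_lit 100, nat_lit 91, nat_lit 74, nat_lit 59360818⟩]⟩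
noncomputable def p119_l114 : Lf2 := ⟨nat_lit 0, nat_lit 20, [nat_lit 5, nat_lit 5, nat_lit 5, nat_lit 20], true, nat_lit 80, nat_lit 164, nat_lit 8, nat_lit 292, ⟨nat_lit 0, nat_lit 1000, nat_lit 0, nat_lit 9, nat_lit 333, nat_lit 1000, nat_lit 92, nat_lit 0, nat_lit 0, nat_lit 0, nat_lit 0, nat_lit 0, nat_lit 37381503, nat_lit 26216094, nat_lit 3402403, nat_lit 4439529, true, true⟩,
 nat_lit 0, nat_lit 0, nat_lit 0, nat_lit 0, nat_lit 2750, nat_lit 0, nat_lit 99, nat_lit 0, nat_lit 0, nat_lit 0, nat_lit 0, nat_lit 0, nat_lit 0, nat_lit 0, nat_lit 0, nat_lit 250000, nat_lit 0, nat_lit 0, [(nat_lit 28, [(nat_lit 0, nat_lit 1000)])],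
 ⟨p119_k11, nat_lit 0, nat_lit 0, nat_lit 124, nat_lit 0, nat_lit 0, [nat_lit 781600001, nat_lit 1083600000, nat_lit 1719333334], [], [nat_lit 27839514500, nat_lit 28402797250, nat_lit 28267031400, nat_lit 28818759500, nat_lit 28185947661, nat_lit 28624693888, nat_lit 28502489361, nat_lit 29006161325], nat_lit 0, nat_lit 0, nat_lit 0, nat_lit 0, nat_lit 0, nat_lit 0, [], [nat_lit 20, nat_lit 40, nat_lit 40, nat_lit 80, nat_lit 16, nat_lit 260, nat_lit 50, nat_lit 8]⟩, C1.Rw.none,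
 ⟨nat_lit 1581, nat_lit 2237, ⟨.ofNat (nat_lit 819158), .ofNat (nat_lit 830561), .ofNat (nat_lit 841932), .ofNat (nat_lit 853335), .ofNat (nat_lit 811802), .ofNat (nat_lit 822729), .ofNat (nat_lit 835117), .ofNat (nat_lit 846044)⟩, ⟨.ofNat (nat_lit 146758), .ofNat (nat_lit 266490), .ofNat (nat_lit 192306), .ofNat (nat_lit 312039), .ofNat (nat_lit 149571), .ofNat (nat_lit 264306), .ofNat (nat_lit 196201), .ofNat (nat_lit 310936)⟩⟩, [⟨nat_lit 13, nat_lit 50, nat_lit 65, nat_lit 100, nat_lit 394699920⟩, ⟨nat_lit 16, nat_lit 44, nat_lit 100, nat_lit 82, nat_lit 98502697⟩]⟩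
noncomputable def p119_l115 : Lf2 := ⟨nat_lit 0, nat_lit 15, [nat_lit 30, nat_lit 5, nat_lit 5, nat_lit 20], false, nat_lit 80, nat_lit 160, nat_lit 8, nat_lit 256, ⟨nat_lit 140, nat_lit 860, nat_lit 0, nat_lit 9, nat_lit 351, nat_lit 860, nat_lit 85, nat_lit 0, nat_lit 0, nat_lit 0, nat_lit 0, nat_lit 0, nat_lit 36063592, nat_lit 27969389, nat_lit 2967019, nat_lit 4382681, true, true⟩,
 nat_lit 0, nat_lit 0, nat_lit 1366, nat_lit 0, nat_lit 3096, nat_lit 945, nat_lit 0, nat_lit 0, nat_lit 0, nat_lit 87, nat_lit 0, nat_lit 0, nat_lit 0, nat_lit 0, nat_lit 0, nat_lit 372800, nat_lit 0, nat_lit 0, [(nat_lit 25, [(nat_lit 1, nat_lit 812), (nat_lit 2, nat_lit 48)])],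
 ⟨p119_k3, nat_lit 0, nat_lit 0, nat_lit 128, nat_lit 0, nat_lit 0, [nat_lit 887780801, nat_lit 1254927467, nat_lit 1431000000], [], [nat_lit 27776792800, nat_lit 28756322720, nat_lit 29344040672, nat_lit 30255092016, nat_lit 28048445068, nat_lit 28899001008, nat_lit 29438388826, nat_lit 30270795146], nat_lit 0, nat_lit 0, nat_lit 0, nat_lit 0, nat_lit 0, nat_lit 0, [], [nat_lit 20, nat_lit 40, nat_lit 40, nat_lit 80, nat_lit 16, nat_lit 249, nat_lit 40, nat_lit 7]⟩, ⟨p119_k8, nat_lit 0, nat_lit 0, nat_lit 818, nat_lit 0, nat_lit 1476735, [nat_lit 459480000, nat_lit 875000000, nat_lit 1377880000], [], [nat_lit 4977303318, nat_lit 5001194612, nat_lit 5238431837, nat_lit 5328492338, nat_lit 4482008097, nat_lit 4490821741, nat_lit 4546448171, nat_lit 4570871581], nat_lit 1271250, nat_lit 1271250, nat_lit 1271250, nat_lit 1271250, nat_lit 43600, nat_lit 1813700, [nat_lit 780000, nat_lit 1435000, nat_lit 1271250], [nat_lit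 8, nat_lit 40, nat_lit 40, nat_lit 80, nat_lit 1, nat_lit 325, nat_lit 75, nat_lit 8]⟩,
 ⟨nat_lit 2236, nat_lit 3163, ⟨.ofNat (nat_lit 854586), .ofNat (nat_lit 903349), .ofNat (nat_lit 865664), .ofNat (nat_lit 914427), .ofNat (nat_lit 841932), .ofNat (nat_lit 887545), .ofNat (nat_lit 853319), .ofNat (nat_lit 898932)⟩, ⟨.ofNat (nat_lit 139899), .ofNat (nat_lit 261806), .ofNat (nat_lit 162054), .ofNat (nat_lit 283961), .ofNat (nat_lit 146758), .ofNat (nat_lit 260789), .ofNat (nat_lit 169532), .ofNat (nat_lit 283563)⟩⟩, [⟨nat_lit 13, nat_lit 62, nat_lit 53, nat_lit 100, nat_lit 248219073⟩, ⟨nat_lit 4, nat_lit 100, nat_lit 55, nat_lit 69, nat_lit 124140623⟩, ⟨nat_lit 7, nat_lit 100, nat_lit 86, nat_lit 67, nat_lit 3466430⟩, ⟨nat_lit 22, nat_lit 48, nat_lit 100, nat_lit 92, nat_lit 15509728⟩]⟩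
noncomputable def p119_l116 : Lf2 := ⟨nat_lit 0, nat_lit 20, [nat_lit 5, nat_lit 5, nat_lit 5, nat_lit 20], false, nat_lit 80, nat_lit 160, nat_lit 8, nat_lit 280, ⟨nat_lit 581, nat_lit 419, nat_lit 0, nat_lit 9, nat_lit 352, nat_lit 419, nat_lit 94, nat_lit 0, nat_lit 0, nat_lit 0, nat_lit 0, nat_lit 0, nat_lit 35677126, nat_lit 27915270, nat_lit 3407604, nat_lit 4479935, true, true⟩,
 nat_lit 0, nat_lit 0, nat_lit 4947, nat_lit 0, nat_lit 3640, nat_lit 3424, nat_lit 5, nat_lit 0, nat_lit 0, nat_lit 683, nat_lit 0, nat_lit 0, nat_lit 0, nat_lit 0, nat_lit 0, nat_lit 419000, nat_lit 0, nat_lit 0, [(nat_lit 25, [(nat_lit 2, nat_lit 419)])],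
 ⟨p119_k0, nat_lit 0, nat_lit 0, nat_lit 126, nat_lit 0, nat_lit 0, [nat_lit 1160237600, nat_lit 1747230934, nat_lit 1997652800], [], [nat_lit 28407800425, nat_lit 28930890825, nat_lit 30205114528, nat_lit 30784723785, nat_lit 28459300959, nat_lit 28887098919, nat_lit 29939235530, nat_lit 30442448953], nat_lit 0, nat_lit 0, nat_lit 0, nat_lit 0, nat_lit 0, nat_lit 0, [], [nat_lit 20, nat_lit 40, nat_lit 40, nat_lit 80, nat_lit 16, nat_lit 249, nat_lit 40, nat_lit 7]⟩, ⟨p119_k9, nat_lit 0, nat_lit 0, nat_lit 663, nat_lit 0, nat_lit 1131370, [nat_lit 1906842000, nat_lit 3631250000, nat_lit 5718202000], [], [nat_lit 19873640339, nat_lit 19968268032, nat_lit 20488217550, nat_lit 20837897577, nat_lit 18535284032, nat_lit 18591247409, nat_lit 18866609275, nat_lit 18915008594], nat_lit 1271250, nat_lit 1271250, nat_lit 1271250, nat_lit 1271250, nat_lit 43600, nat_lit 1985000, [nat_lit 780000, nat_lit 1435000, nat_lit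 1271250], [nat_lit 8, nat_lit 40, nat_lit 40, nat_lit 80, nat_lit 1, nat_lit 289, nat_lit 75, nat_lit 7]⟩,
 ⟨nat_lit 2738, nat_lit 3163, ⟨.ofNat (nat_lit 854586), .ofNat (nat_lit 903349), .ofNat (nat_lit 865664), .ofNat (nat_lit 914427), .ofNat (nat_lit 848331), .ofNat (nat_lit 895580), .ofNat (nat_lit 859539), .ofNat (nat_lit 906789)⟩, ⟨.ofNat (nat_lit 162054), .ofNat (nat_lit 283961), .ofNat (nat_lit 184209), .ofNat (nat_lit 306116), .ofNat (nat_lit 165893), .ofNat (nat_lit 284015), .ofNat (nat_lit 188310), .ofNat (nat_lit 306433)⟩⟩, [⟨nat_lit 13, nat_lit 66, nat_lit 48, nat_lit 100, nat_lit 88158529⟩, ⟨nat_lit 16, nat_lit 57, nat_lit 100, nat_lit 76, nat_lit 180109000⟩, ⟨nat_lit 19, nat_lit 89, nat_lit 100, nat_lit 80, nat_lit 95275732⟩]⟩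
noncomputable def p119_l117 : Lf2 := ⟨nat_lit 0, nat_lit 20, [nat_lit 5, nat_lit 5, nat_lit 5, nat_lit 20], false, nat_lit 80, nat_lit 160, nat_lit 8, nat_lit 280, ⟨nat_lit 299, nat_lit 701, nat_lit 0, nat_lit 9, nat_lit 347, nat_lit 701, nat_lit 95, nat_lit 0, nat_lit 0, nat_lit 0, nat_lit 0, nat_lit 0, nat_lit 36078758, nat_lit 27443150, nat_lit 3478092, nat_lit 4485681, true, true⟩,
 nat_lit 0, nat_lit 0, nat_lit 2861, nat_lit 0, nat_lit 3077, nat_lit 1980, nat_lit 228, nat_lit 0, nat_lit 0, nat_lit 199, nat_lit 0, nat_lit 0, nat_lit 0, nat_lit 0, nat_lit 0, nat_lit 175250, nat_lit 0, nat_lit 0, [(nat_lit 25, [(nat_lit 0, nat_lit 701)])],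
 ⟨p119_k2, nat_lit 0, nat_lit 0, nat_lit 126, nat_lit 0, nat_lit 0, [nat_lit 816026001, nat_lit 1940846800, nat_lit 3353468000], [], [nat_lit 28094291210, nat_lit 28541462396, nat_lit 29216777463, nat_lit 29769318536, nat_lit 28363724104, nat_lit 28766400002, nat_lit 29319722971, nat_lit 29708764495], nat_lit 0, nat_lit 0, nat_lit 0, nat_lit 0, nat_lit 0, nat_lit 0, [], [nat_lit 20, nat_lit 40, nat_lit 40, nat_lit 80, nat_lit 16, nat_lit 249, nat_lit 40, nat_lit 7]⟩, ⟨p119_k9, nat_lit 0, nat_lit 0, nat_lit 731, nat_lit 0, nat_lit 1261684, [nat_lit 981318000, nat_lit 1868750000, nat_lit 2942758000], [], [nat_lit 10577970611, nat_lit 10629097824, nat_lit 10828190980, nat_lit 11026152516, nat_lit 9595595034, nat_lit 9624054511, nat_lit 9752233979, nat_lit 9794251563], nat_lit 1271250, nat_lit 1271250, nat_lit 1271250, nat_lit 1271250, nat_lit 43600, nat_lit 1985000, [nat_lit 780000, nat_lit 1435000, nat_lit 1271250],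 [nat_lit 8, nat_lit 40, nat_lit 40, nat_lit 80, nat_lit 1, nat_lit 305, nat_lit 75, nat_lit 8]⟩,
 ⟨nat_lit 2236, nat_lit 2739, ⟨.ofNat (nat_lit 848331), .ofNat (nat_lit 883768), .ofNat (nat_lit 859539), .ofNat (nat_lit 894976), .ofNat (nat_lit 841932), .ofNat (nat_lit 876141), .ofNat (nat_lit 853319), .ofNat (nat_lit 887529)⟩, ⟨.ofNat (nat_lit 165893), .ofNat (nat_lit 284015), .ofNat (nat_lit 188310), .ofNat (nat_lit 306433), .ofNat (nat_lit 169532), .ofNat (nat_lit 283563), .ofNat (nat_lit 192306), .ofNat (nat_lit 306337)⟩⟩, [⟨nat_lit 13, nat_lit 50, nat_lit 65, nat_lit 100, nat_lit 230198256⟩, ⟨nat_lit 4, nat_lit 100, nat_lit 49, nat_lit 78, nat_lit 140662663⟩, ⟨nat_lit 19, nat_lit 89, nat_lit 100, nat_lit 80, nat_lit 42912411⟩]⟩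
noncomputable def p119_l118 : Lf2 := ⟨nat_lit 0, nat_lit 15, [nat_lit 30, nat_lit 5, nat_lit 5, nat_lit 20], false, nat_lit 80, nat_lit 160, nat_lit 8, nat_lit 244, ⟨nat_lit 178, nat_lit 822, nat_lit 0, nat_lit 9, nat_lit 355, nat_lit 822, nat_lit 85, nat_lit 0, nat_lit 0, nat_lit 0, nat_lit 0, nat_lit 0, nat_lit 35686750, nat_lit 28368591, nat_lit 2944659, nat_lit 4384938, true, true⟩,
 nat_lit 0, nat_lit 0, nat_lit 1549, nat_lit 0, nat_lit 2965, nat_lit 1116, nat_lit 0, nat_lit 0, nat_lit 0, nat_lit 113, nat_lit 0, nat_lit 0, nat_lit 0, nat_lit 0, nat_lit 0, nat_lit 409800, nat_lit 0, nat_lit 0, [(nat_lit 25, [(nat_lit 1, nat_lit 687), (nat_lit 2, nat_lit 135)])],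
 ⟨p119_k3, nat_lit 0, nat_lit 0, nat_lit 128, nat_lit 0, nat_lit 0, [nat_lit 945575601, nat_lit 1221235601, nat_lit 1214904400], [], [nat_lit 27695889602, nat_lit 28560946582, nat_lit 29107916687, nat_lit 29987976990, nat_lit 28068502102, nat_lit 28863835372, nat_lit 29354060090, nat_lit 30146632693], nat_lit 0, nat_lit 0, nat_lit 0, nat_lit 0, nat_lit 0, nat_lit 0, [], [nat_lit 20, nat_lit 40, nat_lit 40, nat_lit 80, nat_lit 16, nat_lit 249, nat_lit 40, nat_lit 7]⟩, ⟨p119_k25, nat_lit 0, nat_lit 0, nat_lit 800, nat_lit 0, nat_lit 1456861, [nat_lit 584196000, nat_lit 1112500000, nat_lit 1751876000], [], [nat_lit 6115332029, nat_lit 6199650185, nat_lit 6555727484, nat_lit 6666098222, nat_lit 5606543781, nat_lit 5621874401, nat_lit 5709671792, nat_lit 5736940093], nat_lit 1271250, nat_lit 1271250, nat_lit 1271250, nat_lit 1271250, nat_lit 43600, nat_lit 1728050, [nat_lit 780000, nat_lit 1435000, nat_lit 1271250],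 [nat_lit 8, nat_lit 40, nat_lit 40, nat_lit 80, nat_lit 1, nat_lit 320, nat_lit 75, nat_lit 8]⟩,
 ⟨nat_lit 2236, nat_lit 3163, ⟨.ofNat (nat_lit 865664), .ofNat (nat_lit 914427), .ofNat (nat_lit 876741), .ofNat (nat_lit 925504), .ofNat (nat_lit 853319), .ofNat (nat_lit 898932), .ofNat (nat_lit 864706), .ofNat (nat_lit 910319)⟩, ⟨.ofNat (nat_lit 139899), .ofNat (nat_lit 261806), .ofNat (nat_lit 162054), .ofNat (nat_lit 283961), .ofNat (nat_lit 146758), .ofNat (nat_lit 260789), .ofNat (nat_lit 169532), .ofNat (nat_lit 283563)⟩⟩, [⟨nat_lit 13, nat_lit 64, nat_lit 48, nat_lit 100, nat_lit 194533003⟩, ⟨nat_lit 16, nat_lit 55, nat_lit 100, nat_lit 69, nat_lit 176111149⟩, ⟨nat_lit 22, nat_lit 48, nat_lit 100, nat_lit 92, nat_lit 23712514⟩]⟩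
noncomputable def p119_l119 : Lf2 := ⟨nat_lit 0, nat_lit 20, [nat_lit 5, nat_lit 5, nat_lit 5, nat_lit 20], false, nat_lit 80, nat_lit 160, nat_lit 8, nat_lit 268, ⟨nat_lit 415, nat_lit 585, nat_lit 0, nat_lit 9, nat_lit 355, nat_lit 585, nat_lit 94, nat_lit 0, nat_lit 0, nat_lit 0, nat_lit 0, nat_lit 0, nat_lit 35413452, nat_lit 28177844, nat_lit 3408704, nat_lit 4484967, true, true⟩,
 nat_lit 0, nat_lit 0, nat_lit 3436, nat_lit 0, nat_lit 3353, nat_lit 2477, nat_lit 3, nat_lit 0, nat_lit 0, nat_lit 313, nat_lit 0, nat_lit 0, nat_lit 0, nat_lit 0, nat_lit 0, nat_lit 417000, nat_lit 0, nat_lit 0, [(nat_lit 25, [(nat_lit 1, nat_lit 280), (nat_lit 2, nat_lit 305)])],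
 ⟨p119_k0, nat_lit 0, nat_lit 0, nat_lit 128, nat_lit 0, nat_lit 0, [nat_lit 1073676001, nat_lit 1526442667, nat_lit 1660872000], [], [nat_lit 28062759643, nat_lit 29042984335, nat_lit 29660246406, nat_lit 30779126839, nat_lit 28295730943, nat_lit 29126996299, nat_lit 29662164707, nat_lit 30536592734], nat_lit 0, nat_lit 0, nat_lit 0, nat_lit 0, nat_lit 0, nat_lit 0, [], [nat_lit 20, nat_lit 40, nat_lit 40, nat_lit 80, nat_lit 16, nat_lit 249, nat_lit 40, nat_lit 7]⟩, ⟨p119_k10, nat_lit 0, nat_lit 0, nat_lit 726, nat_lit 0, nat_lit 1254168, [nat_lit 1362030000, nat_lit 2593750000, nat_lit 4084430000], [], [nat_lit 14087476900, nat_lit 14167074374, nat_lit 14964373477, nat_lit 15215657893, nat_lit 13232980479, nat_lit 13283210314, nat_lit 13502840600, nat_lit 13551249450], nat_lit 1271250, nat_lit 1271250, nat_lit 1271250, nat_lit 1271250, nat_lit 43600, nat_lit 1899350, [nat_lit 780000, nat_lit 1435000, nat_lit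 1271250], [nat_lit 8, nat_lit 40, nat_lit 40, nat_lit 80, nat_lit 1, nat_lit 304, nat_lit 75, nat_lit 8]⟩,
 ⟨nat_lit 2236, nat_lit 3163, ⟨.ofNat (nat_lit 865664), .ofNat (nat_lit 914427), .ofNat (nat_lit 876741), .ofNat (nat_lit 925504), .ofNat (nat_lit 853319), .ofNat (nat_lit 898932), .ofNat (nat_lit 864706), .ofNat (nat_lit 910319)⟩, ⟨.ofNat (nat_lit 162054), .ofNat (nat_lit 283961), .ofNat (nat_lit 184209), .ofNat (nat_lit 306116), .ofNat (nat_lit 169532), .ofNat (nat_lit 283563), .ofNat (nat_lit 192306), .ofNat (nat_lit 306337)⟩⟩, [⟨nat_lit 13, nat_lit 52, nat_lit 61, nat_lit 100, nat_lit 186751599⟩, ⟨nat_lit 4, nat_lit 100, nat_lit 53, nat_lit 77, nat_lit 150573182⟩, ⟨nat_lit 7, nat_lit 100, nat_lit 84, nat_lit 78, nat_lit 61888054⟩]⟩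
noncomputable def p119_l120 : Lf2 := ⟨nat_lit 0, nat_lit 20, [nat_lit 5, nat_lit 5, nat_lit 5, nat_lit 20], false, nat_lit 160, nat_lit 200, nat_lit 48, nat_lit 280, ⟨nat_lit 340, nat_lit 660, nat_lit 0, nat_lit 9, nat_lit 351, nat_lit 660, nat_lit 125, nat_lit 0, nat_lit 0, nat_lit 0, nat_lit 0, nat_lit 0, nat_lit 34746120, nat_lit 27076499, nat_lit 5177381, nat_lit 4805778, true, true⟩,
 nat_lit 0, nat_lit 0, nat_lit 3264, nat_lit 0, nat_lit 2952, nat_lit 2259, nat_lit 187, nat_lit 0, nat_lit 0, nat_lit 209, nat_lit 0, nat_lit 0, nat_lit 0, nat_lit 0, nat_lit 0, nat_lit 282000, nat_lit 0, nat_lit 0, [(nat_lit 25, [(nat_lit 1, nat_lit 630), (nat_lit 2, nat_lit 30)])],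
 ⟨p119_k0, nat_lit 0, nat_lit 0, nat_lit 103, nat_lit 0, nat_lit 0, [nat_lit 895196001, nat_lit 1735796000, nat_lit 2584612000], [], [nat_lit 27689752280, nat_lit 28573188871, nat_lit 29103420363, nat_lit 29926203815, nat_lit 28317262520, nat_lit 29150888543, nat_lit 29653025793, nat_lit 30491382266], nat_lit 0, nat_lit 0, nat_lit 0, nat_lit 0, nat_lit 0, nat_lit 0, [], [nat_lit 20, nat_lit 40, nat_lit 40, nat_lit 80, nat_lit 16, nat_lit 260, nat_lit 50, nat_lit 7]⟩, ⟨p119_k9, nat_lit 0, nat_lit 0, nat_lit 795, nat_lit 0, nat_lit 1503651, [nat_lit 1115880000, nat_lit 2125000000, nat_lit 3346280000], [], [nat_lit 11916168584, nat_lit 11945185301, nat_lit 12121985167, nat_lit 12154651082, nat_lit 11211859674, nat_lit 11231355604, nat_lit 11359627942, nat_lit 11375192616], nat_lit 1271250, nat_lit 1271250, nat_lit 1271250, nat_lit 1271250, nat_lit 279600, nat_lit 2022500, [nat_lit 780000, nat_lit 1435000, nat_lit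 1271250], [nat_lit 8, nat_lit 40, nat_lit 40, nat_lit 80, nat_lit 1, nat_lit 322, nat_lit 75, nat_lit 8]⟩,
 ⟨nat_lit 2236, nat_lit 3163, ⟨.ofNat (nat_lit 854586), .ofNat (nat_lit 903349), .ofNat (nat_lit 865664), .ofNat (nat_lit 914427), .ofNat (nat_lit 841932), .ofNat (nat_lit 887545), .ofNat (nat_lit 853319), .ofNat (nat_lit 898932)⟩, ⟨.ofNat (nat_lit 261806), .ofNat (nat_lit 322759), .ofNat (nat_lit 306116), .ofNat (nat_lit 367069), .ofNat (nat_lit 260789), .ofNat (nat_lit 317804), .ofNat (nat_lit 306337), .ofNat (nat_lit 363353)⟩⟩, [⟨nat_lit 13, nat_lit 62, nat_lit 53, nat_lit 100, nat_lit 164513328⟩, ⟨nat_lit 4, nat_lit 100, nat_lit 54, nat_lit 73, nat_lit 570756472⟩, ⟨nat_lit 7, nat_lit 100, nat_lit 88, nat_lit 74, nat_lit 71874787⟩]⟩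
noncomputable def p119_l121 : Lf2 := ⟨nat_lit 0, nat_lit 20, [nat_lit 5, nat_lit 5, nat_lit 5, nat_lit 20], false, nat_lit 160, nat_lit 200, nat_lit 48, nat_lit 268, ⟨nat_lit 700, nat_lit 300, nat_lit 0, nat_lit 9, nat_lit 355, nat_lit 300, nat_lit 125, nat_lit 0, nat_lit 0, nat_lit 0, nat_lit 0, nat_lit 0, nat_lit 34399160, nat_lit 27462234, nat_lit 5138606, nat_lit 4806219, true, true⟩,
 nat_lit 0, nat_lit 0, nat_lit 5901, nat_lit 0, nat_lit 3334, nat_lit 4254, nat_lit 199, nat_lit 0, nat_lit 0, nat_lit 519, nat_lit 0, nat_lit 0, nat_lit 0, nat_lit 0, nat_lit 0, nat_lit 300000, nat_lit 0, nat_lit 0, [(nat_lit 25, [(nat_lit 2, nat_lit 300)])],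
 ⟨p119_k0, nat_lit 0, nat_lit 0, nat_lit 103, nat_lit 0, nat_lit 0, [nat_lit 1097120000, nat_lit 2183120001, nat_lit 3205360000], [], [nat_lit 28157180043, nat_lit 29064772415, nat_lit 29610073698, nat_lit 30508309098, nat_lit 28757232123, nat_lit 29630613869, nat_lit 30189542096, nat_lit 31051369817], nat_lit 0, nat_lit 0, nat_lit 0, nat_lit 0, nat_lit 0, nat_lit 0, [], [nat_lit 20, nat_lit 40, nat_lit 40, nat_lit 80, nat_lit 16, nat_lit 260, nat_lit 50, nat_lit 7]⟩, ⟨p119_k10, nat_lit 0, nat_lit 0, nat_lit 785, nat_lit 0, nat_lit 1483720, [nat_lit 2297400000, nat_lit 4375000000, nat_lit 6889400000], [], [nat_lit 23312469646, nat_lit 23424710247, nat_lit 23873619598, nat_lit 23979343040, nat_lit 22430665376, nat_lit 22502299577, nat_lit 22871097870, nat_lit 22947352985], nat_lit 1271250, nat_lit 1271250, nat_lit 1271250, nat_lit 1271250, nat_lit 279600, nat_lit 1932350, [nat_lit 780000, nat_lit 1435000, nat_lit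 1271250], [nat_lit 8, nat_lit 40, nat_lit 40, nat_lit 80, nat_lit 1, nat_lit 319, nat_lit 75, nat_lit 8]⟩,
 ⟨nat_lit 2236, nat_lit 3163, ⟨.ofNat (nat_lit 865664), .ofNat (nat_lit 914427), .ofNat (nat_lit 876741), .ofNat (nat_lit 925504), .ofNat (nat_lit 853319), .ofNat (nat_lit 898932), .ofNat (nat_lit 864706), .ofNat (nat_lit 910319)⟩, ⟨.ofNat (nat_lit 261806), .ofNat (nat_lit 322759), .ofNat (nat_lit 306116), .ofNat (nat_lit 367069), .ofNat (nat_lit 260789), .ofNat (nat_lit 317804), .ofNat (nat_lit 306337), .ofNat (nat_lit 363353)⟩⟩, [⟨nat_lit 13, nat_lit 52, nat_lit 61, nat_lit 100, nat_lit 53476819⟩, ⟨nat_lit 4, nat_lit 100, nat_lit 54, nat_lit 73, nat_lit 1094024051⟩, ⟨nat_lit 19, nat_lit 89, nat_lit 100, nat_lit 85, nat_lit 139480474⟩]⟩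
noncomputable def p119_l122 : Lf2 := ⟨nat_lit 0, nat_lit 20, [nat_lit 5, nat_lit 5, nat_lit 5, nat_lit 20], false, nat_lit 80, nat_lit 164, nat_lit 8, nat_lit 280, ⟨nat_lit 148, nat_lit 852, nat_lit 0, nat_lit 9, nat_lit 339, nat_lit 852, nat_lit 91, nat_lit 0, nat_lit 0, nat_lit 0, nat_lit 0, nat_lit 0, nat_lit 36890646, nat_lit 26768943, nat_lit 3340411, nat_lit 4440282, true, true⟩,
 nat_lit 0, nat_lit 0, nat_lit 1481, nat_lit 0, nat_lit 2549, nat_lit 1025, nat_lit 55, nat_lit 0, nat_lit 0, nat_lit 90, nat_lit 0, nat_lit 0, nat_lit 0, nat_lit 0, nat_lit 0, nat_lit 340800, nat_lit 0, nat_lit 0, [(nat_lit 28, [(nat_lit 1, nat_lit 852)])],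
 ⟨p119_k11, nat_lit 0, nat_lit 0, nat_lit 129, nat_lit 0, nat_lit 0, [nat_lit 733179200, nat_lit 762465600, nat_lit 1042576000], [], [nat_lit 27596611137, nat_lit 28571328864, nat_lit 28101559428, nat_lit 29161684832, nat_lit 28111568159, nat_lit 28918361645, nat_lit 28575381483, nat_lit 29391128226], nat_lit 0, nat_lit 0, nat_lit 0, nat_lit 0, nat_lit 0, nat_lit 0, [], [nat_lit 20, nat_lit 40, nat_lit 40, nat_lit 80, nat_lit 16, nat_lit 260, nat_lit 50, nat_lit 8]⟩, ⟨p119_k9, nat_lit 0, nat_lit 0, nat_lit 953, nat_lit 0, nat_lit 1791285, [nat_lit 485736000, nat_lit 925000000, nat_lit 1456616000], [], [nat_lit 5194097807, nat_lit 5267260282, nat_lit 5328945880, nat_lit 5398604764, nat_lit 4653673690, nat_lit 4668499996, nat_lit 4712955148, nat_lit 4762313482], nat_lit 1271250, nat_lit 1271250, nat_lit 1271250, nat_lit 1271250, nat_lit 43600, nat_lit 1985000, [nat_lit 780000, nat_lit 1435000, nat_lit 1271250], [nat_lit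 8, nat_lit 40, nat_lit 40, nat_lit 80, nat_lit 1, nat_lit 359, nat_lit 75, nat_lit 9]⟩,
 ⟨nat_lit 0, nat_lit 2237, ⟨.ofNat (nat_lit 841930), .ofNat (nat_lit 859034), .ofNat (nat_lit 853318), .ofNat (nat_lit 870422), .ofNat (nat_lit 824997), .ofNat (nat_lit 839996), .ofNat (nat_lit 837498), .ofNat (nat_lit 852497)⟩, ⟨.ofNat (nat_lit 146756), .ofNat (nat_lit 266484), .ofNat (nat_lit 192306), .ofNat (nat_lit 312035), .ofNat (nat_lit 149997), .ofNat (nat_lit 254993), .ofNat (nat_lit 199999), .ofNat (nat_lit 304995)⟩⟩, [⟨nat_lit 13, nat_lit 52, nat_lit 61, nat_lit 100, nat_lit 322171440⟩, ⟨nat_lit 16, nat_lit 44, nat_lit 100, nat_lit 82, nat_lit 172758050⟩, ⟨nat_lit 7, nat_lit 100, nat_lit 88, nat_lit 74, nat_lit 22460473⟩]⟩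
noncomputable def p119_l123 : Lf2 := ⟨nat_lit 0, nat_lit 20, [nat_lit 5, nat_lit 5, nat_lit 5, nat_lit 20], false, nat_lit 80, nat_lit 164, nat_lit 8, nat_lit 268, ⟨nat_lit 182, nat_lit 818, nat_lit 0, nat_lit 9, nat_lit 346, nat_lit 818, nat_lit 91, nat_lit 0, nat_lit 0, nat_lit 0, nat_lit 0, nat_lit 0, nat_lit 36304949, nat_lit 27392291, nat_lit 3302760, nat_lit 4446442, true, true⟩,
 nat_lit 0, nat_lit 0, nat_lit 1622, nat_lit 0, nat_lit 2471, nat_lit 1169, nat_lit 85, nat_lit 0, nat_lit 0, nat_lit 109, nat_lit 0, nat_lit 0, nat_lit 0, nat_lit 0, nat_lit 0, nat_lit 327200, nat_lit 0, nat_lit 0, [(nat_lit 28, [(nat_lit 1, nat_lit 818)])],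
 ⟨p119_k11, nat_lit 0, nat_lit 0, nat_lit 131, nat_lit 0, nat_lit 0, [nat_lit 741352800, nat_lit 863010400, nat_lit 1250384000], [], [nat_lit 27532857123, nat_lit 28418141856, nat_lit 28365827327, nat_lit 29391555004, nat_lit 28078796666, nat_lit 28877797655, nat_lit 28844704944, nat_lit 29634432584], nat_lit 0, nat_lit 0, nat_lit 0, nat_lit 0, nat_lit 0, nat_lit 0, [], [nat_lit 20, nat_lit 40, nat_lit 40, nat_lit 80, nat_lit 16, nat_lit 260, nat_lit 50, nat_lit 8]⟩, ⟨p119_k10, nat_lit 0, nat_lit 0, nat_lit 929, nat_lit 0, nat_lit 1748068, [nat_lit 597324000, nat_lit 1137500000, nat_lit 1791244000], [], [nat_lit 6383758184, nat_lit 6418837186, nat_lit 6589466429, nat_lit 6669812893, nat_lit 5841292660, nat_lit 5853430433, nat_lit 5891211914, nat_lit 5902080323], nat_lit 1271250, nat_lit 1271250, nat_lit 1271250, nat_lit 1271250, nat_lit 43600, nat_lit 1899350, [nat_lit 780000, nat_lit 1435000, nat_lit 1271250],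 [nat_lit 8, nat_lit 40, nat_lit 40, nat_lit 80, nat_lit 1, nat_lit 354, nat_lit 75, nat_lit 9]⟩,
 ⟨nat_lit 0, nat_lit 2237, ⟨.ofNat (nat_lit 853318), .ofNat (nat_lit 881824), .ofNat (nat_lit 864705), .ofNat (nat_lit 893212), .ofNat (nat_lit 837498), .ofNat (nat_lit 862496), .ofNat (nat_lit 849998), .ofNat (nat_lit 874997)⟩, ⟨.ofNat (nat_lit 146756), .ofNat (nat_lit 266484), .ofNat (nat_lit 192306), .ofNat (nat_lit 312035), .ofNat (nat_lit 149997), .ofNat (nat_lit 254993), .ofNat (nat_lit 199999), .ofNat (nat_lit 304995)⟩⟩, [⟨nat_lit 13, nat_lit 54, nat_lit 57, nat_lit 100, nat_lit 255030348⟩, ⟨nat_lit 16, nat_lit 35, nat_lit 100, nat_lit 80, nat_lit 243892994⟩, ⟨nat_lit 7, nat_lit 100, nat_lit 83, nat_lit 73, nat_lit 27896310⟩]⟩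
noncomputable def b_V_900_700_10_10 : St := ⟨true, nat_lit 0, nat_lit 1, nat_lit 1, nat_lit 80, nat_lit 360, nat_lit 400, nat_lit 280, nat_lit 320, nat_lit 360, nat_lit 392, nat_lit 40, nat_lit 80, nat_lit 80, nat_lit 200, nat_lit 0, nat_lit 300, nat_lit 40, nat_lit 80, nat_lit 0, nat_lit 0, nat_lit 0, nat_lit 0⟩
theorem d_V_900_700_10_10 (h : EB TB.env) : Dead b_V_900_700_10_10 := chkB_sound0 h (T :=
(.trZ (nat_lit 9) (nat_lit 100) (nat_lit 75) (nat_lit 35) (nat_lit 8) (.spl (nat_lit 1) (nat_lit 300)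
(.trX (nat_lit 13) (nat_lit 69) (nat_lit 45) (nat_lit 100) (nat_lit 384) (.spl (nat_lit 0) (nat_lit 380)
(.spl (nat_lit 4) (nat_lit 160)
(.trX (nat_lit 22) (nat_lit 61) (nat_lit 92) (nat_lit 100) (nat_lit 288) (.spl (nat_lit 1) (nat_lit 290)
(.trX (nat_lit 13) (nat_lit 67) (nat_lit 50) (nat_lit 100) (nat_lit 380) (.spl (nat_lit 3) (nat_lit 60)
(.trX (nat_lit 19) (nat_lit 99) (nat_lit 100) (nat_lit 77) (nat_lit 276) (.leaf p119_l100))
(.spl (nat_lit 1) (nat_lit 285)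
(.leaf p119_l101)
(.leaf p119_l102))))
(.spl (nat_lit 3) (nat_lit 60)
(.trX (nat_lit 19) (nat_lit 94) (nat_lit 100) (nat_lit 75) (nat_lit 268) (.leaf p119_l103))
(.spl (nat_lit 5) (nat_lit 160)
(.leaf p119_l104)
(.spl (nat_lit 1) (nat_lit 295)
(.leaf p119_l105)
(.trX (nat_lit 19) (nat_lit 97) (nat_lit 100) (nat_lit 88) (nat_lit 284) (.leaf p119_l106)))))))
(.trZ (nat_lit 9) (nat_lit 100) (nat_lit 61) (nat_lit 68) (nat_lit 48) (.spl (nat_lit 1) (nat_lit 290)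
(.trX (nat_lit 13) (nat_lit 67) (nat_lit 50) (nat_lit 100) (nat_lit 380) (.spl (nat_lit 1) (nat_lit 285)
(.spl (nat_lit 0) (nat_lit 370)
(.leaf p119_l107)
(.trX (nat_lit 13) (nat_lit 58) (nat_lit 60) (nat_lit 100) (nat_lit 368) (.trX (nat_lit 16) (nat_lit 53) (nat_lit 100) (nat_lit 80) (nat_lit 184) (.leaf p119_l108))))
(.trX (nat_lit 19) (nat_lit 100) (nat_lit 98) (nat_lit 88) (nat_lit 296) (.spl (nat_lit 0) (nat_lit 370)
(.leaf p119_l109)
(.trX (nat_lit 13) (nat_lit 59) (nat_lit 58) (nat_lit 100) (nat_lit 372) (.trX (nat_lit 16) (nat_lit 53) (nat_lit 100) (nat_lit 80) (nat_lit 184) (.leaf p119_l110)))))))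
(.trX (nat_lit 19) (nat_lit 100) (nat_lit 100) (nat_lit 89) (nat_lit 292) (.spl (nat_lit 1) (nat_lit 295)
(.spl (nat_lit 0) (nat_lit 370)
(.leaf p119_l111)
(.trX (nat_lit 13) (nat_lit 60) (nat_lit 57) (nat_lit 100) (nat_lit 376) (.trX (nat_lit 16) (nat_lit 53) (nat_lit 100) (nat_lit 80) (nat_lit 184) (.leaf p119_l112))))
(.trX (nat_lit 19) (nat_lit 97) (nat_lit 100) (nat_lit 88) (nat_lit 284) (.leaf p119_l113)))))))
(.trX (nat_lit 13) (nat_lit 50) (nat_lit 65) (nat_lit 100) (nat_lit 368) (.trX (nat_lit 16) (nat_lit 44) (nat_lit 100) (nat_lit 82) (nat_lit 164) (.trX (nat_lit 22) (nat_lit 61) (nat_lit 91) (nat_lit 100) (nat_lit 292) (.spl (nat_lit 0) (nat_lit 390)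
(.leaf p119_l114)
(.emL (nat_lit 13) (nat_lit 36) (nat_lit 77) (nat_lit 100))))))))
(.trX (nat_lit 19) (nat_lit 94) (nat_lit 100) (nat_lit 87) (nat_lit 280) (.spl (nat_lit 0) (nat_lit 380)
(.spl (nat_lit 4) (nat_lit 160)
(.spl (nat_lit 1) (nat_lit 310)
(.spl (nat_lit 3) (nat_lit 60)
(.trX (nat_lit 19) (nat_lit 90) (nat_lit 100) (nat_lit 74) (nat_lit 256) (.leaf p119_l115))
(.spl (nat_lit 0) (nat_lit 370)
(.leaf p119_l116)
(.trX (nat_lit 13) (nat_lit 63) (nat_lit 50) (nat_lit 100) (nat_lit 384) (.leaf p119_l117))))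
(.trX (nat_lit 19) (nat_lit 89) (nat_lit 100) (nat_lit 85) (nat_lit 268) (.spl (nat_lit 3) (nat_lit 60)
(.trX (nat_lit 19) (nat_lit 85) (nat_lit 100) (nat_lit 73) (nat_lit 244) (.leaf p119_l118))
(.leaf p119_l119))))
(.trZ (nat_lit 9) (nat_lit 100) (nat_lit 61) (nat_lit 68) (nat_lit 48) (.spl (nat_lit 1) (nat_lit 310)
(.leaf p119_l120)
(.trX (nat_lit 19) (nat_lit 89) (nat_lit 100) (nat_lit 85) (nat_lit 268) (.leaf p119_l121)))))
(.trX (nat_lit 13) (nat_lit 54) (nat_lit 57) (nat_lit 100) (nat_lit 380) (.trX (nat_lit 16) (nat_lit 44) (nat_lit 100) (nat_lit 82) (nat_lit 164) (.spl (nat_lit 1) (nat_lit 310)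
(.trX (nat_lit 13) (nat_lit 52) (nat_lit 61) (nat_lit 100) (nat_lit 372) (.leaf p119_l122))
(.trX (nat_lit 19) (nat_lit 89) (nat_lit 100) (nat_lit 85) (nat_lit 268) (.leaf p119_l123)))))))))) (by decide +kernel)
noncomputable def p119_l124 : Lf2 := ⟨nat_lit 0, nat_lit 20, [nat_lit 5, nat_lit 5, nat_lit 5, nat_lit 20], false, nat_lit 0, nat_lit 200, nat_lit 0, nat_lit 300, ⟨nat_lit 750, nat_lit 250, nat_lit 0, nat_lit 7, nat_lit 285, nat_lit 250, nat_lit 67, nat_lit 0, nat_lit 0, nat_lit 0, nat_lit 0, nat_lit 0, nat_lit 0, nat_lit 0, nat_lit 0, nat_lit 5000000, false, false⟩,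
 nat_lit 0, nat_lit 0, nat_lit 0, nat_lit 0, nat_lit 4944, nat_lit 9670, nat_lit 0, nat_lit 0, nat_lit 0, nat_lit 0, nat_lit 0, nat_lit 0, nat_lit 0, nat_lit 0, nat_lit 0, nat_lit 250000, nat_lit 0, nat_lit 0, [(nat_lit 25, [(nat_lit 2, nat_lit 250)]), (nat_lit 28, [(nat_lit 2, nat_lit 250)])],
 ⟨p119_k33, nat_lit 0, nat_lit 0, nat_lit 200, nat_lit 0, nat_lit 0, [nat_lit 1294560001, nat_lit 3712800000], [], [nat_lit 26964063994, nat_lit 30127072538, nat_lit 36949964513, nat_lit 39737908525, nat_lit 25606997296, nat_lit 28112708631, nat_lit 32436888564, nat_lit 34470220436], nat_lit 0, nat_lit 0, nat_lit 0, nat_lit 0, nat_lit 0, nat_lit 0, [], [nat_lit 88, nat_lit 40, nat_lit 40, nat_lit 80, nat_lit 89, nat_lit 373, nat_lit 150, nat_lit 14]⟩, ⟨p119_k34, nat_lit 0, nat_lit 0, nat_lit 223, nat_lit 0, nat_lit 0, [nat_lit 2461500000, nat_lit 8904000000], [], [nat_lit 32846215641, nat_lit 34621237313, nat_lit 39172329329,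 nat_lit 42000777217, nat_lit 25347606595, nat_lit 26229169512, nat_lit 29519365045, nat_lit 31105180736], nat_lit 0, nat_lit 0, nat_lit 0, nat_lit 0, nat_lit 0, nat_lit 0, [], [nat_lit 135, nat_lit 40, nat_lit 40, nat_lit 80, nat_lit 134, nat_lit 538, nat_lit 300, nat_lit 14]⟩,
 ⟨nat_lit 0, nat_lit 3163, ⟨.ofNat (nat_lit 507176), .ofNat (nat_lit 881191), .ofNat (nat_lit 548877), .ofNat (nat_lit 925502), .ofNat (nat_lit 531701), .ofNat (nat_lit 839996), .ofNat (nat_lit 579091), .ofNat (nat_lit 889997)⟩, ⟨.ofNat (nat_lit 0), .ofNat (nat_lit 322753), .ofNat (nat_lit 0), .ofNat (nat_lit 367065), .ofNat (nat_lit 0), .ofNat (nat_lit 299993), .ofNat (nat_lit 0), .ofNat (nat_lit 349995)⟩⟩, []⟩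
noncomputable def p119_l125 : Lf2 := ⟨nat_lit 0, nat_lit 20, [nat_lit 5, nat_lit 5, nat_lit 5, nat_lit 20], true, nat_lit 0, nat_lit 200, nat_lit 0, nat_lit 300, ⟨nat_lit 0, nat_lit 1000, nat_lit 0, nat_lit 7, nat_lit 242, nat_lit 1000, nat_lit 67, nat_lit 0, nat_lit 0, nat_lit 0, nat_lit 0, nat_lit 0, nat_lit 0, nat_lit 0, nat_lit 0, nat_lit 5000000, false, false⟩,
 nat_lit 0, nat_lit 0, nat_lit 0, nat_lit 0, nat_lit 4184, nat_lit 0, nat_lit 0, nat_lit 0, nat_lit 0, nat_lit 0, nat_lit 0, nat_lit 0, nat_lit 0, nat_lit 0, nat_lit 0, nat_lit 250000, nat_lit 0, nat_lit 0, [(nat_lit 25, [(nat_lit 0, nat_lit 1000)]), (nat_lit 28, [(nat_lit 0, nat_lit 1000)])],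
 ⟨p119_k28, nat_lit 0, nat_lit 0, nat_lit 166, nat_lit 0, nat_lit 0, [nat_lit 781600001, nat_lit 1715600001, nat_lit 2118000000], [], [nat_lit 23085515303, nat_lit 27248720237, nat_lit 25493020192, nat_lit 29291169728, nat_lit 22589650629, nat_lit 25192431085, nat_lit 24316761665, nat_lit 26778397392], nat_lit 0, nat_lit 0, nat_lit 0, nat_lit 0, nat_lit 0, nat_lit 0, [], [nat_lit 55, nat_lit 40, nat_lit 40, nat_lit 80, nat_lit 3, nat_lit 345, nat_lit 125, nat_lit 13]⟩, C1.Rw.none,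
 ⟨nat_lit 0, nat_lit 3163, ⟨.ofNat (nat_lit 507176), .ofNat (nat_lit 646918), .ofNat (nat_lit 548877), .ofNat (nat_lit 688618), .ofNat (nat_lit 531701), .ofNat (nat_lit 647345), .ofNat (nat_lit 579091), .ofNat (nat_lit 694736)⟩, ⟨.ofNat (nat_lit 0), .ofNat (nat_lit 322753), .ofNat (nat_lit 0), .ofNat (nat_lit 367065), .ofNat (nat_lit 0), .ofNat (nat_lit 299993), .ofNat (nat_lit 0), .ofNat (nat_lit 349995)⟩⟩, []⟩
noncomputable def p119_l126 : Lf2 := ⟨nat_lit 0, nat_lit 20, [nat_lit 5, nat_lit 5, nat_lit 5, nat_lit 20], true, nat_lit 0, nat_lit 200, nat_lit 0, nat_lit 300, ⟨nat_lit 0, nat_lit 1000, nat_lit 0, nat_lit 7, nat_lit 311, nat_lit 1000, nat_lit 67, nat_lit 0, nat_lit 0, nat_lit 0, nat_lit 0, nat_lit 0, nat_lit 0, nat_lit 0, nat_lit 0, nat_lit 5000000, true, true⟩,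
 nat_lit 0, nat_lit 0, nat_lit 0, nat_lit 0, nat_lit 3349, nat_lit 0, nat_lit 0, nat_lit 0, nat_lit 0, nat_lit 0, nat_lit 0, nat_lit 0, nat_lit 0, nat_lit 0, nat_lit 0, nat_lit 340450, nat_lit 0, nat_lit 0, [(nat_lit 25, [(nat_lit 0, nat_lit 397), (nat_lit 1, nat_lit 603)]), (nat_lit 28, [(nat_lit 0, nat_lit 397), (nat_lit 1, nat_lit 603)])],
 ⟨p119_k0, nat_lit 0, nat_lit 0, nat_lit 200, nat_lit 0, nat_lit 0, [nat_lit 819709601, nat_lit 1147700000, nat_lit 1392711600], [], [nat_lit 25381463968, nat_lit 27625100748, nat_lit 32219755952, nat_lit 34539932401, nat_lit 25308464902, nat_lit 27133957252, nat_lit 30086042698, nat_lit 32025530760], nat_lit 0, nat_lit 0, nat_lit 0, nat_lit 0, nat_lit 0, nat_lit 0, [], [nat_lit 20, nat_lit 40, nat_lit 40, nat_lit 80, nat_lit 16, nat_lit 260, nat_lit 50, nat_lit 9]⟩, C1.Rw.none,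
 ⟨nat_lit 0, nat_lit 3163, ⟨.ofNat (nat_lit 646918), .ofNat (nat_lit 881191), .ofNat (nat_lit 688618), .ofNat (nat_lit 925502), .ofNat (nat_lit 647345), .ofNat (nat_lit 839996), .ofNat (nat_lit 694736), .ofNat (nat_lit 889997)⟩, ⟨.ofNat (nat_lit 0), .ofNat (nat_lit 322753), .ofNat (nat_lit 0), .ofNat (nat_lit 367065), .ofNat (nat_lit 0), .ofNat (nat_lit 299993), .ofNat (nat_lit 0), .ofNat (nat_lit 349995)⟩⟩, [⟨nat_lit 13, nat_lit 75, nat_lit 35, nat_lit 100, nat_lit 273120785⟩]⟩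
noncomputable def b_V_900_700_10_11 : St := ⟨true, nat_lit 0, nat_lit 2, nat_lit 2, nat_lit 80, nat_lit 360, nat_lit 400, nat_lit 280, nat_lit 320, nat_lit 152, nat_lit 392, nat_lit 40, nat_lit 80, nat_lit 0, nat_lit 200, nat_lit 0, nat_lit 300, nat_lit 40, nat_lit 80, nat_lit 0, nat_lit 0, nat_lit 0, nat_lit 0⟩
theorem d_V_900_700_10_11 (h : EB TB.env) : Dead b_V_900_700_10_11 := chkB_sound0 h (T :=
(.st (nat_lit 1)
(.leaf p119_l124)
(.spl (nat_lit 2) (nat_lit 240)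
(.leaf p119_l125)
(.leaf p119_l126)))) (by decide +kernel)
noncomputable def p119_l127 : Lf2 := ⟨nat_lit 0, nat_lit 20, [nat_lit 5, nat_lit 5, nat_lit 5, nat_lit 20], false, nat_lit 0, nat_lit 200, nat_lit 0, nat_lit 160, ⟨nat_lit 1000, nat_lit 0, nat_lit 0, nat_lit 0, nat_lit 0, nat_lit 0, nat_lit 0, nat_lit 0, nat_lit 0, nat_lit 0, nat_lit 0, nat_lit 0, nat_lit 0, nat_lit 0, nat_lit 0, nat_lit 0, false, false⟩,
 nat_lit 0, nat_lit 5695, nat_lit 0, nat_lit 0, nat_lit 4960, nat_lit 7006, nat_lit 409, nat_lit 0, nat_lit 0, nat_lit 769, nat_lit 0, nat_lit 0, nat_lit 0, nat_lit 0, nat_lit 0, nat_lit 0, nat_lit 0, nat_lit 0, [],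
 ⟨p119_k0, nat_lit 0, nat_lit 0, nat_lit 551, nat_lit 0, nat_lit 1057108, [nat_lit 938000000, nat_lit 3282000000, nat_lit 6250000000], [], [nat_lit 32254595163, nat_lit 33136718763, nat_lit 37681534081, nat_lit 38393759345, nat_lit 31518018059, nat_lit 32195955587, nat_lit 35966980576, nat_lit 36540652672], nat_lit 1271250, nat_lit 1271250, nat_lit 1033601, nat_lit 3070600, nat_lit 0, nat_lit 1412500, [nat_lit 230000, nat_lit 780000, nat_lit 1435000], [nat_lit 20, nat_lit 40, nat_lit 40, nat_lit 80, nat_lit 16, nat_lit 373, nat_lit 150, nat_lit 14]⟩, ⟨p119_k1, nat_lit 0, nat_lit 0, nat_lit 239, nat_lit 0, nat_lit 0, [nat_lit 3282000000, nat_lit 6250000000, nat_lit 11872000000], [], [nat_lit 28968659001, nat_lit 31401081100, nat_lit 38492273095, nat_lit 40013555207, nat_lit 24678867081, nat_lit 26713195804, nat_lit 32228357467, nat_lit 33246361436], nat_lit 0, nat_lit 0, nat_lit 0, nat_lit 0, nat_lit 0, nat_lit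 0, [], [nat_lit 23, nat_lit 40, nat_lit 40, nat_lit 80, nat_lit 12, nat_lit 456, nat_lit 225, nat_lit 12]⟩,
 zbF0, [⟨nat_lit 0, nat_lit 82, nat_lit 44, nat_lit 100, nat_lit 345354848⟩, ⟨nat_lit 4, nat_lit 100, nat_lit 54, nat_lit 73, nat_lit 336709263⟩]⟩
noncomputable def p119_l128 : Lf2 := ⟨nat_lit 0, nat_lit 20, [nat_lit 5, nat_lit 5, nat_lit 5, nat_lit 20], false, nat_lit 0, nat_lit 164, nat_lit 0, nat_lit 160, ⟨nat_lit 1000, nat_lit 0, nat_lit 0, nat_lit 0, nat_lit 0, nat_lit 0, nat_lit 0, nat_lit 0, nat_lit 0, nat_lit 0, nat_lit 0, nat_lit 0, nat_lit 0, nat_lit 0, nat_lit 0, nat_lit 0, false, false⟩,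
 nat_lit 0, nat_lit 3813, nat_lit 0, nat_lit 0, nat_lit 3562, nat_lit 6157, nat_lit 536, nat_lit 0, nat_lit 0, nat_lit 956, nat_lit 0, nat_lit 0, nat_lit 0, nat_lit 0, nat_lit 0, nat_lit 0, nat_lit 0, nat_lit 0, [],
 ⟨p119_k11, nat_lit 0, nat_lit 0, nat_lit 564, nat_lit 0, nat_lit 1105637, [nat_lit 938000000, nat_lit 3282000000, nat_lit 6250000000], [], [nat_lit 26708390751, nat_lit 27629016378, nat_lit 33300899846, nat_lit 34537334408, nat_lit 27072784664, nat_lit 27982200921, nat_lit 32220863549, nat_lit 32932107732], nat_lit 1271250, nat_lit 1271250, nat_lit 1271250, nat_lit 1271250, nat_lit 0, nat_lit 1133651, [nat_lit 230000, nat_lit 780000, nat_lit 1435000], [nat_lit 20, nat_lit 40, nat_lit 40, nat_lit 80, nat_lit 16, nat_lit 373, nat_lit 150, nat_lit 14]⟩, ⟨p119_k1, nat_lit 0, nat_lit 0, nat_lit 236, nat_lit 0, nat_lit 0, [nat_lit 3282000000, nat_lit 6250000000, nat_lit 11872000000], [], [nat_lit 25578909764,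 nat_lit 28270850906, nat_lit 34971611650, nat_lit 36510597734, nat_lit 21463585796, nat_lit 23747114440, nat_lit 29501845066, nat_lit 31292090588], nat_lit 0, nat_lit 0, nat_lit 0, nat_lit 0, nat_lit 0, nat_lit 0, [], [nat_lit 23, nat_lit 40, nat_lit 40, nat_lit 80, nat_lit 12, nat_lit 456, nat_lit 225, nat_lit 11]⟩,
 zbF0, [⟨nat_lit 4, nat_lit 100, nat_lit 35, nat_lit 80, nat_lit 566144585⟩]⟩
noncomputable def p119_l129 : Lf2 := ⟨nat_lit 0, nat_lit 20, [nat_lit 5, nat_lit 5, nat_lit 5, nat_lit 20], false, nat_lit 0, nat_lit 200, nat_lit 160, nat_lit 300, ⟨nat_lit 1000, nat_lit 0, nat_lit 0, nat_lit 0, nat_lit 0, nat_lit 0, nat_lit 0, nat_lit 0, nat_lit 0, nat_lit 0, nat_lit 0, nat_lit 0, nat_lit 0, nat_lit 0, nat_lit 0, nat_lit 0, false, false⟩,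
 nat_lit 0, nat_lit 5773, nat_lit 0, nat_lit 0, nat_lit 5027, nat_lit 8378, nat_lit 414, nat_lit 0, nat_lit 0, nat_lit 0, nat_lit 0, nat_lit 0, nat_lit 0, nat_lit 0, nat_lit 0, nat_lit 0, nat_lit 0, nat_lit 0, [],
 ⟨p119_k0, nat_lit 0, nat_lit 0, nat_lit 628, nat_lit 0, nat_lit 1214694, [nat_lit 938000000, nat_lit 3282000000, nat_lit 6250000000], [], [nat_lit 33765666515, nat_lit 35287503311, nat_lit 38727884202, nat_lit 40013751894, nat_lit 33024061311, nat_lit 34340261630, nat_lit 37021756934, nat_lit 38041757883], nat_lit 1271250, nat_lit 1271250, nat_lit 1033601, nat_lit 3070600, nat_lit 0, nat_lit 1412500, [nat_lit 230000, nat_lit 780000, nat_lit 1435000], [nat_lit 20, nat_lit 40, nat_lit 40, nat_lit 80, nat_lit 16, nat_lit 373, nat_lit 150, nat_lit 14]⟩, ⟨p119_k1, nat_lit 0, nat_lit 0, nat_lit 86, nat_lit 0, nat_lit 0, [nat_lit 3282000000, nat_lit 6250000000, nat_lit 11872000000], [], [nat_lit 14193526095,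 nat_lit 18288480821, nat_lit 31074177796, nat_lit 33600839753, nat_lit 21995656958, nat_lit 24862329866, nat_lit 34652536090, nat_lit 36393346593], nat_lit 0, nat_lit 0, nat_lit 0, nat_lit 0, nat_lit 0, nat_lit 0, [], [nat_lit 23, nat_lit 40, nat_lit 40, nat_lit 80, nat_lit 12, nat_lit 538, nat_lit 300, nat_lit 13]⟩,
 zbF0, [⟨nat_lit 0, nat_lit 87, nat_lit 44, nat_lit 100, nat_lit 157436239⟩, ⟨nat_lit 4, nat_lit 100, nat_lit 46, nat_lit 75, nat_lit 384095617⟩, ⟨nat_lit 19, nat_lit 90, nat_lit 100, nat_lit 74, nat_lit 66630508⟩, ⟨nat_lit 19, nat_lit 100, nat_lit 95, nat_lit 87, nat_lit 328388529⟩]⟩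
noncomputable def p119_l130 : Lf2 := ⟨nat_lit 0, nat_lit 20, [nat_lit 5, nat_lit 5, nat_lit 5, nat_lit 20], false, nat_lit 0, nat_lit 200, nat_lit 0, nat_lit 160, ⟨nat_lit 492, nat_lit 0, nat_lit 508, nat_lit 7, nat_lit 242, nat_lit 508, nat_lit 67, nat_lit 508, nat_lit 41667, nat_lit 265, nat_lit 118222, nat_lit 200, nat_lit 49023188, nat_lit 0, nat_lit 0, nat_lit 2907855, false, false⟩,
 nat_lit 6223, nat_lit 0, nat_lit 0, nat_lit 0, nat_lit 3856, nat_lit 3959, nat_lit 94, nat_lit 0, nat_lit 0, nat_lit 380, nat_lit 0, nat_lit 0, nat_lit 0, nat_lit 0, nat_lit 0, nat_lit 209200, nat_lit 0, nat_lit 0, [(nat_lit 25, [(nat_lit 5, nat_lit 498), (nat_lit 6, nat_lit 10)]), (nat_lit 28, [(nat_lit 5, nat_lit 498), (nat_lit 6, nat_lit 10)])],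
 ⟨p119_k0, nat_lit 0, nat_lit 0, nat_lit 422, nat_lit 0, nat_lit 702570, [nat_lit 836703201, nat_lit 1237933334, nat_lit 1471204800], [], [nat_lit 22049651162, nat_lit 26400848372, nat_lit 24771119648, nat_lit 28469925952, nat_lit 22098682512, nat_lit 24450398157, nat_lit 23372008528, nat_lit 26339604512], nat_lit 1271250, nat_lit 1271250, nat_lit 1033601, nat_lit 1780500, nat_lit 0, nat_lit 1412500, [nat_lit 230000, nat_lit 780000, nat_lit 1435000], [nat_lit 20, nat_lit 40, nat_lit 40, nat_lit 80, nat_lit 16, nat_lit 345, nat_lit 125, nat_lit 13]⟩, ⟨p119_k1, nat_lit 0, nat_lit 0, nat_lit 736, nat_lit 0, nat_lit 1034406, [nat_lit 1614744000, nat_lit 3075000000, nat_lit 5841024000], [], [nat_lit 17213394477, nat_lit 16666892584, nat_lit 16226534492, nat_lit 16675132076, nat_lit 13861549204, nat_lit 14305405024, nat_lit 13913292904, nat_lit 14367886072], nat_lit 1271250, nat_lit 1271250, nat_lit 1033601, nat_lit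 1780500, nat_lit 0, nat_lit 1100001, [nat_lit 780000, nat_lit 1435000, nat_lit 1271250], [nat_lit 23, nat_lit 40, nat_lit 40, nat_lit 80, nat_lit 12, nat_lit 428, nat_lit 200, nat_lit 11]⟩,
 ⟨nat_lit 0, nat_lit 3163, ⟨.ofNat (nat_lit 507176), .ofNat (nat_lit 646918), .ofNat (nat_lit 548877), .ofNat (nat_lit 688618), .ofNat (nat_lit 531701), .ofNat (nat_lit 647345), .ofNat (nat_lit 579091), .ofNat (nat_lit 694736)⟩, ⟨.ofNat (nat_lit 0), .ofNat (nat_lit 322753), .ofNat (nat_lit 0), .ofNat (nat_lit 367065), .ofNat (nat_lit 0), .ofNat (nat_lit 299993), .ofNat (nat_lit 0), .ofNat (nat_lit 349995)⟩⟩, [⟨nat_lit 0, nat_lit 87, nat_lit 44, nat_lit 100, nat_lit 665946807⟩, ⟨nat_lit 16, nat_lit 46, nat_lit 100, nat_lit 75, nat_lit 57494659⟩]⟩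
noncomputable def p119_l131 : Lf2 := ⟨nat_lit 0, nat_lit 20, [nat_lit 5, nat_lit 5, nat_lit 5, nat_lit 20], false, nat_lit 0, nat_lit 200, nat_lit 160, nat_lit 300, ⟨nat_lit 506, nat_lit 0, nat_lit 494, nat_lit 7, nat_lit 242, nat_lit 494, nat_lit 69, nat_lit 494, nat_lit 43350, nat_lit 266, nat_lit 115962, nat_lit 200, nat_lit 48999795, nat_lit 0, nat_lit 0, nat_lit 2909605, false, false⟩,
 nat_lit 6619, nat_lit 0, nat_lit 0, nat_lit 0, nat_lit 3692, nat_lit 4212, nat_lit 116, nat_lit 0, nat_lit 0, nat_lit 415, nat_lit 0, nat_lit 0, nat_lit 0, nat_lit 0, nat_lit 0, nat_lit 197600, nat_lit 0, nat_lit 0, [(nat_lit 25, [(nat_lit 5, nat_lit 494)])],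
 ⟨p119_k0, nat_lit 0, nat_lit 0, nat_lit 365, nat_lit 0, nat_lit 611424, [nat_lit 833469601, nat_lit 1307646667, nat_lit 1649674400], [], [nat_lit 22064199559, nat_lit 23855396245, nat_lit 24447989136, nat_lit 26253646600, nat_lit 22519980704, nat_lit 23378802618, nat_lit 23915598921, nat_lit 24728309640], nat_lit 1271250, nat_lit 1271250, nat_lit 1033601, nat_lit 1780500, nat_lit 0, nat_lit 1412500, [nat_lit 230000, nat_lit 780000, nat_lit 1435000], [nat_lit 20, nat_lit 40, nat_lit 40, nat_lit 80, nat_lit 16, nat_lit 345, nat_lit 125, nat_lit 13]⟩, ⟨p119_k1, nat_lit 0, nat_lit 0, nat_lit 556, nat_lit 0, nat_lit 900209, [nat_lit 1660692000, nat_lit 3162500000, nat_lit 6007232000], [], [nat_lit 12615499690, nat_lit 13246643520, nat_lit 12783990289, nat_lit 13300668896, nat_lit 13480871401, nat_lit 14097546068, nat_lit 13636677702, nat_lit 14134326442], nat_lit 1271250, nat_lit 1271250, nat_lit 1033601, nat_lit 1780500,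 nat_lit 1271250, nat_lit 1271250, [nat_lit 780000, nat_lit 1435000, nat_lit 1271250], [nat_lit 23, nat_lit 40, nat_lit 40, nat_lit 80, nat_lit 12, nat_lit 456, nat_lit 225, nat_lit 11]⟩,
 ⟨nat_lit 2236, nat_lit 3163, ⟨.ofNat (nat_lit 515097), .ofNat (nat_lit 649422), .ofNat (nat_lit 559279), .ofNat (nat_lit 693606), .ofNat (nat_lit 522299), .ofNat (nat_lit 647962), .ofNat (nat_lit 567721), .ofNat (nat_lit 693384)⟩, ⟨.ofNat (nat_lit 0), .ofNat (nat_lit 322759), .ofNat (nat_lit 0), .ofNat (nat_lit 367069), .ofNat (nat_lit 0), .ofNat (nat_lit 317804), .ofNat (nat_lit 0), .ofNat (nat_lit 363353)⟩⟩, [⟨nat_lit 0, nat_lit 82, nat_lit 44, nat_lit 100, nat_lit 424744377⟩, ⟨nat_lit 16, nat_lit 54, nat_lit 100, nat_lit 73, nat_lit 81325223⟩, ⟨nat_lit 7, nat_lit 100, nat_lit 90, nat_lit 74, nat_lit 211689074⟩]⟩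
noncomputable def p119_l132 : Lf2 := ⟨nat_lit 0, nat_lit 20, [nat_lit 5, nat_lit 5, nat_lit 5, nat_lit 20], false, nat_lit 0, nat_lit 164, nat_lit 160, nat_lit 300, ⟨nat_lit 472, nat_lit 528, nat_lit 0, nat_lit 7, nat_lit 255, nat_lit 528, nat_lit 57, nat_lit 0, nat_lit 0, nat_lit 0, nat_lit 0, nat_lit 0, nat_lit 47663219, nat_lit 19336781, nat_lit 0, nat_lit 3004505, true, false⟩,
 nat_lit 6374, nat_lit 0, nat_lit 0, nat_lit 0, nat_lit 3674, nat_lit 4056, nat_lit 123, nat_lit 0, nat_lit 0, nat_lit 408, nat_lit 0, nat_lit 0, nat_lit 0, nat_lit 0, nat_lit 0, nat_lit 211200, nat_lit 0, nat_lit 0, [(nat_lit 28, [(nat_lit 1, nat_lit 528)])],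
 ⟨p119_k11, nat_lit 0, nat_lit 0, nat_lit 394, nat_lit 0, nat_lit 646003, [nat_lit 811068801, nat_lit 1720598401, nat_lit 3022864000], [], [nat_lit 24811037450, nat_lit 26610034388, nat_lit 26213379700, nat_lit 28014235808, nat_lit 23593178404, nat_lit 24711953934, nat_lit 24601990101, nat_lit 25836490548], nat_lit 1271250, nat_lit 1271250, nat_lit 1271250, nat_lit 1271250, nat_lit 0, nat_lit 1133651, [nat_lit 230000, nat_lit 780000, nat_lit 1435000], [nat_lit 20, nat_lit 40, nat_lit 40, nat_lit 80, nat_lit 16, nat_lit 345, nat_lit 125, nat_lit 12]⟩, ⟨p119_k1, nat_lit 0, nat_lit 0, nat_lit 622, nat_lit 0, nat_lit 1034406, [nat_lit 1549104000, nat_lit 2950000000, nat_lit 5603584000], [], [nat_lit 11066487157, nat_lit 11635018048, nat_lit 11234866880, nat_lit 11919579328, nat_lit 12057183047, nat_lit 12663864645, nat_lit 12214710984, nat_lit 12904433800], nat_lit 1271250, nat_lit 1271250, nat_lit 1271250, nat_lit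 1271250, nat_lit 1100001, nat_lit 2298750, [nat_lit 780000, nat_lit 1435000, nat_lit 1271250], [nat_lit 23, nat_lit 40, nat_lit 40, nat_lit 80, nat_lit 12, nat_lit 456, nat_lit 225, nat_lit 11]⟩,
 ⟨nat_lit 0, nat_lit 2237, ⟨.ofNat (nat_lit 575619), .ofNat (nat_lit 646249), .ofNat (nat_lit 619314), .ofNat (nat_lit 689944), .ofNat (nat_lit 585925), .ofNat (nat_lit 648136), .ofNat (nat_lit 634072), .ofNat (nat_lit 696283)⟩, ⟨.ofNat (nat_lit 0), .ofNat (nat_lit 266484), .ofNat (nat_lit 0), .ofNat (nat_lit 312035), .ofNat (nat_lit 0), .ofNat (nat_lit 254993), .ofNat (nat_lit 0), .ofNat (nat_lit 304995)⟩⟩, [⟨nat_lit 0, nat_lit 88, nat_lit 32, nat_lit 100, nat_lit 590795789⟩, ⟨nat_lit 16, nat_lit 35, nat_lit 100, nat_lit 80, nat_lit 130627031⟩, ⟨nat_lit 7, nat_lit 100, nat_lit 90, nat_lit 74, nat_lit 208343943⟩]⟩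
noncomputable def p119_l133 : Lf2 := ⟨nat_lit 0, nat_lit 20, [nat_lit 5, nat_lit 5, nat_lit 5, nat_lit 20], false, nat_lit 0, nat_lit 200, nat_lit 0, nat_lit 160, ⟨nat_lit 1000, nat_lit 0, nat_lit 0, nat_lit 0, nat_lit 0, nat_lit 0, nat_lit 0, nat_lit 0, nat_lit 0, nat_lit 0, nat_lit 0, nat_lit 0, nat_lit 0, nat_lit 0, nat_lit 0, nat_lit 0, false, false⟩,
 nat_lit 11103, nat_lit 0, nat_lit 0, nat_lit 0, nat_lit 5786, nat_lit 7065, nat_lit 406, nat_lit 0, nat_lit 0, nat_lit 816, nat_lit 0, nat_lit 0, nat_lit 0, nat_lit 0, nat_lit 0, nat_lit 0, nat_lit 0, nat_lit 0, [],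
 ⟨p119_k0, nat_lit 0, nat_lit 0, nat_lit 356, nat_lit 0, nat_lit 567222, [nat_lit 938000000, nat_lit 3282000000, nat_lit 6250000000], [], [nat_lit 28573814088, nat_lit 29755921694, nat_lit 39447040128, nat_lit 40205759719, nat_lit 25750755276, nat_lit 26169413532, nat_lit 33278645953, nat_lit 33899177302], nat_lit 1271250, nat_lit 1271250, nat_lit 1271250, nat_lit 1271250, nat_lit 0, nat_lit 1412500, [nat_lit 230000, nat_lit 780000, nat_lit 1435000], [nat_lit 20, nat_lit 40, nat_lit 40, nat_lit 80, nat_lit 16, nat_lit 260, nat_lit 50, nat_lit 9]⟩, ⟨p119_k1, nat_lit 0, nat_lit 0, nat_lit 641, nat_lit 0, nat_lit 835130, [nat_lit 3282000000, nat_lit 6250000000, nat_lit 11872000000], [], [nat_lit 34264734060, nat_lit 35462116080, nat_lit 39127685285, nat_lit 40169040213, nat_lit 30188550440, nat_lit 31167654900, nat_lit 34660389208, nat_lit 35484277140], nat_lit 1271250, nat_lit 1271250, nat_lit 1271250, nat_lit 1271250,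 nat_lit 0, nat_lit 1100001, [nat_lit 780000, nat_lit 1435000, nat_lit 1271250], [nat_lit 23, nat_lit 40, nat_lit 40, nat_lit 80, nat_lit 12, nat_lit 456, nat_lit 225, nat_lit 11]⟩,
 zbF0, []⟩
noncomputable def p119_l134 : Lf2 := ⟨nat_lit 0, nat_lit 20, [nat_lit 5, nat_lit 5, nat_lit 5, nat_lit 20], false, nat_lit 0, nat_lit 184, nat_lit 0, nat_lit 160, ⟨nat_lit 1000, nat_lit 0, nat_lit 0, nat_lit 0, nat_lit 0, nat_lit 0, nat_lit 0, nat_lit 0, nat_lit 0, nat_lit 0, nat_lit 0, nat_lit 0, nat_lit 0, nat_lit 0, nat_lit 0, nat_lit 0, false, false⟩,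
 nat_lit 11528, nat_lit 0, nat_lit 0, nat_lit 0, nat_lit 4444, nat_lit 7335, nat_lit 510, nat_lit 0, nat_lit 0, nat_lit 747, nat_lit 0, nat_lit 0, nat_lit 0, nat_lit 0, nat_lit 0, nat_lit 0, nat_lit 0, nat_lit 0, [],
 ⟨p119_k2, nat_lit 0, nat_lit 0, nat_lit 363, nat_lit 0, nat_lit 585990, [nat_lit 938000000, nat_lit 3282000000, nat_lit 6250000000], [], [nat_lit 26932784476, nat_lit 27935908200, nat_lit 35843766587, nat_lit 36512989230, nat_lit 24510042095, nat_lit 24941351592, nat_lit 31648023383, nat_lit 32214809062], nat_lit 1271250, nat_lit 1271250, nat_lit 1271250, nat_lit 1271250, nat_lit 0, nat_lit 1299500, [nat_lit 230000, nat_lit 780000, nat_lit 1435000], [nat_lit 20, nat_lit 40, nat_lit 40, nat_lit 80, nat_lit 16, nat_lit 260, nat_lit 50, nat_lit 9]⟩, ⟨p119_k1, nat_lit 0, nat_lit 0, nat_lit 664, nat_lit 0, nat_lit 900209, [nat_lit 3282000000, nat_lit 6250000000, nat_lit 11872000000], [], [nat_lit 36052461085,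 nat_lit 36954200605, nat_lit 39642682262, nat_lit 40455962032, nat_lit 31872358905, nat_lit 32592543445, nat_lit 35167981435, nat_lit 35774276168], nat_lit 1271250, nat_lit 1271250, nat_lit 1271250, nat_lit 1271250, nat_lit 0, nat_lit 1100001, [nat_lit 780000, nat_lit 1435000, nat_lit 1271250], [nat_lit 23, nat_lit 40, nat_lit 40, nat_lit 80, nat_lit 12, nat_lit 456, nat_lit 225, nat_lit 11]⟩,
 zbF0, [⟨nat_lit 4, nat_lit 100, nat_lit 50, nat_lit 74, nat_lit 187176893⟩]⟩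
noncomputable def p119_l135 : Lf2 := ⟨nat_lit 0, nat_lit 20, [nat_lit 5, nat_lit 5, nat_lit 5, nat_lit 20], false, nat_lit 0, nat_lit 164, nat_lit 0, nat_lit 160, ⟨nat_lit 1000, nat_lit 0, nat_lit 0, nat_lit 0, nat_lit 0, nat_lit 0, nat_lit 0, nat_lit 0, nat_lit 0, nat_lit 0, nat_lit 0, nat_lit 0, nat_lit 0, nat_lit 0, nat_lit 0, nat_lit 0, false, false⟩,
 nat_lit 11644, nat_lit 0, nat_lit 0, nat_lit 0, nat_lit 3384, nat_lit 7409, nat_lit 485, nat_lit 0, nat_lit 0, nat_lit 746, nat_lit 0, nat_lit 0, nat_lit 0, nat_lit 0, nat_lit 0, nat_lit 0, nat_lit 0, nat_lit 0, [],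
 ⟨p119_k11, nat_lit 0, nat_lit 0, nat_lit 399, nat_lit 0, nat_lit 646003, [nat_lit 938000000, nat_lit 3282000000, nat_lit 6250000000], [], [nat_lit 26288108626, nat_lit 27288136128, nat_lit 32763574272, nat_lit 33972240656, nat_lit 26446197858, nat_lit 27300154166, nat_lit 30873695419, nat_lit 31615219124], nat_lit 1271250, nat_lit 1271250, nat_lit 1271250, nat_lit 1271250, nat_lit 0, nat_lit 1133651, [nat_lit 230000, nat_lit 780000, nat_lit 1435000], [nat_lit 20, nat_lit 40, nat_lit 40, nat_lit 80, nat_lit 16, nat_lit 260, nat_lit 50, nat_lit 9]⟩, ⟨p119_k1, nat_lit 0, nat_lit 0, nat_lit 710, nat_lit 0, nat_lit 1034406, [nat_lit 3282000000, nat_lit 6250000000, nat_lit 11872000000], [], [nat_lit 35767973934, nat_lit 36670757742, nat_lit 39058646598, nat_lit 39883752608, nat_lit 31523365362, nat_lit 32243277878, nat_lit 34567792690, nat_lit 35196269152], nat_lit 1271250, nat_lit 1271250, nat_lit 1271250, nat_lit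 1271250, nat_lit 0, nat_lit 1100001, [nat_lit 780000, nat_lit 1435000, nat_lit 1271250], [nat_lit 23, nat_lit 40, nat_lit 40, nat_lit 80, nat_lit 12, nat_lit 456, nat_lit 225, nat_lit 11]⟩,
 zbF0, [⟨nat_lit 0, nat_lit 88, nat_lit 32, nat_lit 100, nat_lit 158439256⟩, ⟨nat_lit 4, nat_lit 100, nat_lit 35, nat_lit 80, nat_lit 527630868⟩]⟩
noncomputable def p119_l136 : Lf2 := ⟨nat_lit 0, nat_lit 20, [nat_lit 5, nat_lit 5, nat_lit 5, nat_lit 20], false, nat_lit 0, nat_lit 200, nat_lit 160, nat_lit 300, ⟨nat_lit 1000, nat_lit 0, nat_lit 0, nat_lit 0, nat_lit 0, nat_lit 0, nat_lit 0, nat_lit 0, nat_lit 0, nat_lit 0, nat_lit 0, nat_lit 0, nat_lit 0, nat_lit 0, nat_lit 0, nat_lit 0, false, false⟩,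
 nat_lit 10108, nat_lit 0, nat_lit 0, nat_lit 0, nat_lit 5818, nat_lit 6432, nat_lit 405, nat_lit 0, nat_lit 0, nat_lit 758, nat_lit 0, nat_lit 0, nat_lit 0, nat_lit 0, nat_lit 0, nat_lit 0, nat_lit 0, nat_lit 0, [],
 ⟨p119_k0, nat_lit 0, nat_lit 0, nat_lit 356, nat_lit 0, nat_lit 567222, [nat_lit 938000000, nat_lit 3282000000, nat_lit 6250000000], [], [nat_lit 28636863944, nat_lit 29823239422, nat_lit 39541940864, nat_lit 40303006625, nat_lit 25634851938, nat_lit 26054538866, nat_lit 33320570267, nat_lit 33942882304], nat_lit 1271250, nat_lit 1271250, nat_lit 1271250, nat_lit 1271250, nat_lit 0, nat_lit 1412500, [nat_lit 230000, nat_lit 780000, nat_lit 1435000], [nat_lit 20, nat_lit 40, nat_lit 40, nat_lit 80, nat_lit 16, nat_lit 260, nat_lit 50, nat_lit 9]⟩, ⟨p119_k1, nat_lit 0, nat_lit 0, nat_lit 511, nat_lit 0, nat_lit 835130, [nat_lit 3282000000, nat_lit 6250000000, nat_lit 11872000000], [], [nat_lit 30513533386,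 nat_lit 31497183722, nat_lit 34827399601, nat_lit 35600169108, nat_lit 32228079026, nat_lit 33129085994, nat_lit 36007302754, nat_lit 36763725477], nat_lit 1271250, nat_lit 1271250, nat_lit 1271250, nat_lit 1271250, nat_lit 1100001, nat_lit 2298750, [nat_lit 780000, nat_lit 1435000, nat_lit 1271250], [nat_lit 23, nat_lit 40, nat_lit 40, nat_lit 80, nat_lit 12, nat_lit 538, nat_lit 300, nat_lit 13]⟩,
 zbF0, [⟨nat_lit 19, nat_lit 90, nat_lit 100, nat_lit 74, nat_lit 417327147⟩]⟩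
noncomputable def p119_l137 : Lf2 := ⟨nat_lit 0, nat_lit 20, [nat_lit 5, nat_lit 5, nat_lit 5, nat_lit 20], false, nat_lit 0, nat_lit 184, nat_lit 160, nat_lit 300, ⟨nat_lit 1000, nat_lit 0, nat_lit 0, nat_lit 0, nat_lit 0, nat_lit 0, nat_lit 0, nat_lit 0, nat_lit 0, nat_lit 0, nat_lit 0, nat_lit 0, nat_lit 0, nat_lit 0, nat_lit 0, nat_lit 0, false, false⟩,
 nat_lit 11614, nat_lit 0, nat_lit 0, nat_lit 0, nat_lit 4444, nat_lit 7390, nat_lit 510, nat_lit 0, nat_lit 0, nat_lit 726, nat_lit 0, nat_lit 0, nat_lit 0, nat_lit 0, nat_lit 0, nat_lit 0, nat_lit 0, nat_lit 0, [],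
 ⟨p119_k2, nat_lit 0, nat_lit 0, nat_lit 363, nat_lit 0, nat_lit 585990, [nat_lit 938000000, nat_lit 3282000000, nat_lit 6250000000], [], [nat_lit 26932784476, nat_lit 27935908200, nat_lit 35843766587, nat_lit 36512989230, nat_lit 24510042095, nat_lit 24941351592, nat_lit 31648023383, nat_lit 32214809062], nat_lit 1271250, nat_lit 1271250, nat_lit 1271250, nat_lit 1271250, nat_lit 0, nat_lit 1299500, [nat_lit 230000, nat_lit 780000, nat_lit 1435000], [nat_lit 20, nat_lit 40, nat_lit 40, nat_lit 80, nat_lit 16, nat_lit 260, nat_lit 50, nat_lit 9]⟩, ⟨p119_k1, nat_lit 0, nat_lit 0, nat_lit 534, nat_lit 0, nat_lit 900209, [nat_lit 3282000000, nat_lit 6250000000, nat_lit 11872000000], [], [nat_lit 29791088890, nat_lit 30777695650, nat_lit 33303409493, nat_lit 34143624660, nat_lit 30967349150, nat_lit 31632637150, nat_lit 34070170043, nat_lit 34996282084], nat_lit 1271250, nat_lit 1271250, nat_lit 1271250, nat_lit 1271250,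 nat_lit 1100001, nat_lit 2298750, [nat_lit 780000, nat_lit 1435000, nat_lit 1271250], [nat_lit 23, nat_lit 40, nat_lit 40, nat_lit 80, nat_lit 12, nat_lit 538, nat_lit 300, nat_lit 13]⟩,
 zbF0, [⟨nat_lit 4, nat_lit 100, nat_lit 50, nat_lit 74, nat_lit 173699018⟩, ⟨nat_lit 7, nat_lit 100, nat_lit 90, nat_lit 74, nat_lit 375606685⟩]⟩
noncomputable def p119_l138 : Lf2 := ⟨nat_lit 0, nat_lit 20, [nat_lit 5, nat_lit 5, nat_lit 5, nat_lit 20], false, nat_lit 0, nat_lit 164, nat_lit 160, nat_lit 300, ⟨nat_lit 1000, nat_lit 0, nat_lit 0, nat_lit 0, nat_lit 0, nat_lit 0, nat_lit 0, nat_lit 0, nat_lit 0, nat_lit 0, nat_lit 0, nat_lit 0, nat_lit 0, nat_lit 0, nat_lit 0, nat_lit 0, false, false⟩,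
 nat_lit 11047, nat_lit 0, nat_lit 0, nat_lit 0, nat_lit 3755, nat_lit 7029, nat_lit 517, nat_lit 0, nat_lit 0, nat_lit 807, nat_lit 0, nat_lit 0, nat_lit 0, nat_lit 0, nat_lit 0, nat_lit 0, nat_lit 0, nat_lit 0, [],
 ⟨p119_k11, nat_lit 0, nat_lit 0, nat_lit 374, nat_lit 0, nat_lit 603699, [nat_lit 938000000, nat_lit 3282000000, nat_lit 6250000000], [], [nat_lit 26394580750, nat_lit 27305811855, nat_lit 33883505665, nat_lit 34516777043, nat_lit 24265867348, nat_lit 24709469439, nat_lit 30532343528, nat_lit 31086739621], nat_lit 1271250, nat_lit 1271250, nat_lit 1271250, nat_lit 1271250, nat_lit 0, nat_lit 1133651, [nat_lit 230000, nat_lit 780000, nat_lit 1435000], [nat_lit 20, nat_lit 40, nat_lit 40, nat_lit 80, nat_lit 16, nat_lit 260, nat_lit 50, nat_lit 9]⟩, ⟨p119_k1, nat_lit 0, nat_lit 0, nat_lit 558, nat_lit 0, nat_lit 966668, [nat_lit 3282000000, nat_lit 6250000000, nat_lit 11872000000], [], [nat_lit 30414503729,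 nat_lit 31392777165, nat_lit 34316866378, nat_lit 35183175330, nat_lit 32105817420, nat_lit 33062238665, nat_lit 35244124608, nat_lit 35824896511], nat_lit 1271250, nat_lit 1271250, nat_lit 1271250, nat_lit 1271250, nat_lit 1100001, nat_lit 2298750, [nat_lit 780000, nat_lit 1435000, nat_lit 1271250], [nat_lit 23, nat_lit 40, nat_lit 40, nat_lit 80, nat_lit 12, nat_lit 483, nat_lit 250, nat_lit 11]⟩,
 zbF0, [⟨nat_lit 4, nat_lit 100, nat_lit 41, nat_lit 77, nat_lit 216091195⟩, ⟨nat_lit 7, nat_lit 100, nat_lit 90, nat_lit 74, nat_lit 419059958⟩]⟩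
noncomputable def p119_l139 : Lf2 := ⟨nat_lit 0, nat_lit 20, [nat_lit 5, nat_lit 5, nat_lit 5, nat_lit 20], false, nat_lit 8, nat_lit 136, nat_lit 160, nat_lit 300, ⟨nat_lit 812, nat_lit 188, nat_lit 0, nat_lit 7, nat_lit 301, nat_lit 188, nat_lit 53, nat_lit 0, nat_lit 0, nat_lit 0, nat_lit 0, nat_lit 0, nat_lit 41587261, nat_lit 23809471, nat_lit 1603268, nat_lit 3895971, true, true⟩,
 nat_lit 8580, nat_lit 0, nat_lit 0, nat_lit 0, nat_lit 3147, nat_lit 5460, nat_lit 314, nat_lit 0, nat_lit 0, nat_lit 619, nat_lit 0, nat_lit 0, nat_lit 0, nat_lit 0, nat_lit 0, nat_lit 75200, nat_lit 0, nat_lit 0, [(nat_lit 28, [(nat_lit 1, nat_lit 188)])],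
 ⟨p119_k12, nat_lit 0, nat_lit 0, nat_lit 340, nat_lit 0, nat_lit 620373, [nat_lit 892804800, nat_lit 2726046400, nat_lit 3843804800], [], [nat_lit 25916791908, nat_lit 26471200089, nat_lit 31488636139, nat_lit 32099575140, nat_lit 26058488622, nat_lit 26545902011, nat_lit 30246433758, nat_lit 30672573257], nat_lit 1271250, nat_lit 1271250, nat_lit 1271250, nat_lit 1271250, nat_lit 43600, nat_lit 904401, [nat_lit 230000, nat_lit 780000, nat_lit 1100000], [nat_lit 35, nat_lit 40, nat_lit 40, nat_lit 80, nat_lit 22, nat_lit 249, nat_lit 40, nat_lit 10]⟩, ⟨p119_k1, nat_lit 0, nat_lit 0, nat_lit 586, nat_lit 0, nat_lit 1034406, [nat_lit 2664984000, nat_lit 5075000000, nat_lit 9640064000], [], [nat_lit 26004758389, nat_lit 26793402021, nat_lit 28277264300, nat_lit 29022778300, nat_lit 27060267613, nat_lit 27826856344, nat_lit 29205725069, nat_lit 29717947580], nat_lit 1271250, nat_lit 1271250, nat_lit 1271250, nat_lit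 1271250, nat_lit 1100001, nat_lit 2298750, [nat_lit 780000, nat_lit 1435000, nat_lit 1271250], [nat_lit 23, nat_lit 40, nat_lit 40, nat_lit 80, nat_lit 12, nat_lit 483, nat_lit 250, nat_lit 11]⟩,
 ⟨nat_lit 0, nat_lit 1582, ⟨.ofNat (nat_lit 646579), .ofNat (nat_lit 817262), .ofNat (nat_lit 691895), .ofNat (nat_lit 863894), .ofNat (nat_lit 648683), .ofNat (nat_lit 804996), .ofNat (nat_lit 697369), .ofNat (nat_lit 854998)⟩, ⟨.ofNat (nat_lit 20000), .ofNat (nat_lit 226057), .ofNat (nat_lit 20000), .ofNat (nat_lit 272689), .ofNat (nat_lit 20000), .ofNat (nat_lit 219995), .ofNat (nat_lit 20000), .ofNat (nat_lit 269997)⟩⟩, [⟨nat_lit 0, nat_lit 91, nat_lit 23, nat_lit 100, nat_lit 62715230⟩, ⟨nat_lit 4, nat_lit 100, nat_lit 26, nat_lit 84, nat_lit 517750902⟩, ⟨nat_lit 7, nat_lit 100, nat_lit 90, nat_lit 74, nat_lit 323361525⟩]⟩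
noncomputable def p119_l140 : Lf2 := ⟨nat_lit 0, nat_lit 20, [nat_lit 5, nat_lit 5, nat_lit 5, nat_lit 20], false, nat_lit 0, nat_lit 200, nat_lit 0, nat_lit 160, ⟨nat_lit 1000, nat_lit 0, nat_lit 0, nat_lit 0, nat_lit 0, nat_lit 0, nat_lit 0, nat_lit 0, nat_lit 0, nat_lit 0, nat_lit 0, nat_lit 0, nat_lit 0, nat_lit 0, nat_lit 0, nat_lit 0, false, false⟩,
 nat_lit 0, nat_lit 5695, nat_lit 0, nat_lit 0, nat_lit 4960, nat_lit 7006, nat_lit 409, nat_lit 0, nat_lit 0, nat_lit 769, nat_lit 0, nat_lit 0, nat_lit 0, nat_lit 0, nat_lit 0, nat_lit 0, nat_lit 0, nat_lit 0, [],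
 ⟨p119_k0, nat_lit 0, nat_lit 0, nat_lit 551, nat_lit 0, nat_lit 1057108, [nat_lit 938000000, nat_lit 3282000000, nat_lit 6250000000], [], [nat_lit 32254595163, nat_lit 33136718763, nat_lit 37681534081, nat_lit 38393759345, nat_lit 31518018059, nat_lit 32195955587, nat_lit 35966980576, nat_lit 36540652672], nat_lit 1271250, nat_lit 1271250, nat_lit 1033601, nat_lit 3070600, nat_lit 0, nat_lit 1412500, [nat_lit 230000, nat_lit 780000, nat_lit 1435000], [nat_lit 20, nat_lit 40, nat_lit 40, nat_lit 80, nat_lit 16, nat_lit 373, nat_lit 150, nat_lit 14]⟩, ⟨p119_k1, nat_lit 0, nat_lit 0, nat_lit 239, nat_lit 0, nat_lit 0, [nat_lit 3282000000, nat_lit 6250000000, nat_lit 11872000000], [], [nat_lit 28968659001, nat_lit 31401081100, nat_lit 38492273095, nat_lit 40013555207, nat_lit 24678867081, nat_lit 26713195804, nat_lit 32228357467, nat_lit 33246361436], nat_lit 0, nat_lit 0, nat_lit 0, nat_lit 0, nat_lit 0, nat_lit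 0, [], [nat_lit 23, nat_lit 40, nat_lit 40, nat_lit 80, nat_lit 12, nat_lit 456, nat_lit 225, nat_lit 12]⟩,
 zbF0, [⟨nat_lit 0, nat_lit 82, nat_lit 44, nat_lit 100, nat_lit 345354848⟩, ⟨nat_lit 4, nat_lit 100, nat_lit 54, nat_lit 73, nat_lit 336709263⟩]⟩
noncomputable def p119_l141 : Lf2 := ⟨nat_lit 0, nat_lit 20, [nat_lit 5, nat_lit 5, nat_lit 5, nat_lit 20], false, nat_lit 0, nat_lit 164, nat_lit 0, nat_lit 160, ⟨nat_lit 1000, nat_lit 0, nat_lit 0, nat_lit 0, nat_lit 0, nat_lit 0, nat_lit 0, nat_lit 0, nat_lit 0, nat_lit 0, nat_lit 0, nat_lit 0, nat_lit 0, nat_lit 0, nat_lit 0, nat_lit 0, false, false⟩,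
 nat_lit 0, nat_lit 3813, nat_lit 0, nat_lit 0, nat_lit 3562, nat_lit 6157, nat_lit 536, nat_lit 0, nat_lit 0, nat_lit 956, nat_lit 0, nat_lit 0, nat_lit 0, nat_lit 0, nat_lit 0, nat_lit 0, nat_lit 0, nat_lit 0, [],
 ⟨p119_k11, nat_lit 0, nat_lit 0, nat_lit 564, nat_lit 0, nat_lit 1105637, [nat_lit 938000000, nat_lit 3282000000, nat_lit 6250000000], [], [nat_lit 26708390751, nat_lit 27629016378, nat_lit 33300899846, nat_lit 34537334408, nat_lit 27072784664, nat_lit 27982200921, nat_lit 32220863549, nat_lit 32932107732], nat_lit 1271250, nat_lit 1271250, nat_lit 1271250, nat_lit 1271250, nat_lit 0, nat_lit 1133651, [nat_lit 230000, nat_lit 780000, nat_lit 1435000], [nat_lit 20, nat_lit 40, nat_lit 40, nat_lit 80, nat_lit 16, nat_lit 373, nat_lit 150, nat_lit 14]⟩, ⟨p119_k1, nat_lit 0, nat_lit 0, nat_lit 236, nat_lit 0, nat_lit 0, [nat_lit 3282000000, nat_lit 6250000000, nat_lit 11872000000], [], [nat_lit 25578909764,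 nat_lit 28270850906, nat_lit 34971611650, nat_lit 36510597734, nat_lit 21463585796, nat_lit 23747114440, nat_lit 29501845066, nat_lit 31292090588], nat_lit 0, nat_lit 0, nat_lit 0, nat_lit 0, nat_lit 0, nat_lit 0, [], [nat_lit 23, nat_lit 40, nat_lit 40, nat_lit 80, nat_lit 12, nat_lit 456, nat_lit 225, nat_lit 11]⟩,
 zbF0, [⟨nat_lit 4, nat_lit 100, nat_lit 35, nat_lit 80, nat_lit 566144585⟩]⟩
noncomputable def p119_l142 : Lf2 := ⟨nat_lit 0, nat_lit 20, [nat_lit 5, nat_lit 5, nat_lit 5, nat_lit 20], false, nat_lit 0, nat_lit 200, nat_lit 160, nat_lit 300, ⟨nat_lit 871, nat_lit 129, nat_lit 0, nat_lit 7, nat_lit 285, nat_lit 129, nat_lit 67, nat_lit 0, nat_lit 0, nat_lit 0, nat_lit 0, nat_lit 0, nat_lit 0, nat_lit 0, nat_lit 0, nat_lit 5000000, false, false⟩,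
 nat_lit 0, nat_lit 5270, nat_lit 0, nat_lit 0, nat_lit 4590, nat_lit 6150, nat_lit 322, nat_lit 0, nat_lit 0, nat_lit 0, nat_lit 0, nat_lit 0, nat_lit 0, nat_lit 0, nat_lit 0, nat_lit 129000, nat_lit 0, nat_lit 0, [(nat_lit 25, [(nat_lit 2, nat_lit 129)]), (nat_lit 28, [(nat_lit 2, nat_lit 129)])],
 ⟨p119_k0, nat_lit 0, nat_lit 0, nat_lit 628, nat_lit 0, nat_lit 1214694, [nat_lit 1006421601, nat_lit 2809481600, nat_lit 4940804800], [], [nat_lit 32482389181, nat_lit 34067463222, nat_lit 37442962627, nat_lit 38596379332, nat_lit 32219369989, nat_lit 33511959367, nat_lit 36263489516, nat_lit 37197747104], nat_lit 1271250, nat_lit 1271250, nat_lit 1033601, nat_lit 3070600, nat_lit 0, nat_lit 1412500, [nat_lit 230000, nat_lit 780000, nat_lit 1435000], [nat_lit 20, nat_lit 40, nat_lit 40, nat_lit 80, nat_lit 16, nat_lit 373, nat_lit 150, nat_lit 14]⟩, ⟨p119_k1, nat_lit 0, nat_lit 0, nat_lit 86, nat_lit 0, nat_lit 0,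 [nat_lit 2858622000, nat_lit 5443750000, nat_lit 10340512000], [], [nat_lit 13882347790, nat_lit 17074011159, nat_lit 26213746668, nat_lit 27897350675, nat_lit 20155613308, nat_lit 22421495694, nat_lit 28986520262, nat_lit 30407840755], nat_lit 0, nat_lit 0, nat_lit 0, nat_lit 0, nat_lit 0, nat_lit 0, [], [nat_lit 23, nat_lit 40, nat_lit 40, nat_lit 80, nat_lit 12, nat_lit 538, nat_lit 300, nat_lit 13]⟩,
 ⟨nat_lit 0, nat_lit 3163, ⟨.ofNat (nat_lit 507176), .ofNat (nat_lit 881191), .ofNat (nat_lit 548877), .ofNat (nat_lit 925502), .ofNat (nat_lit 531701), .ofNat (nat_lit 839996), .ofNat (nat_lit 579091), .ofNat (nat_lit 889997)⟩, ⟨.ofNat (nat_lit 0), .ofNat (nat_lit 322753), .ofNat (nat_lit 0), .ofNat (nat_lit 367065), .ofNat (nat_lit 0), .ofNat (nat_lit 299993), .ofNat (nat_lit 0), .ofNat (nat_lit 349995)⟩⟩, [⟨nat_lit 0, nat_lit 87, nat_lit 44, nat_lit 100, nat_lit 187006907⟩, ⟨nat_lit 16, nat_lit 46, nat_lit 100,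 nat_lit 75, nat_lit 374451512⟩, ⟨nat_lit 19, nat_lit 90, nat_lit 100, nat_lit 74, nat_lit 23179607⟩, ⟨nat_lit 19, nat_lit 100, nat_lit 95, nat_lit 87, nat_lit 316000779⟩]⟩
noncomputable def p119_l143 : Lf2 := ⟨nat_lit 0, nat_lit 20, [nat_lit 5, nat_lit 5, nat_lit 5, nat_lit 20], false, nat_lit 0, nat_lit 200, nat_lit 0, nat_lit 300, ⟨nat_lit 349, nat_lit 651, nat_lit 0, nat_lit 7, nat_lit 278, nat_lit 651, nat_lit 67, nat_lit 0, nat_lit 0, nat_lit 0, nat_lit 0, nat_lit 0, nat_lit 0, nat_lit 0, nat_lit 0, nat_lit 5000000, false, false⟩,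
 nat_lit 4103, nat_lit 0, nat_lit 0, nat_lit 0, nat_lit 3573, nat_lit 2610, nat_lit 13, nat_lit 0, nat_lit 0, nat_lit 181, nat_lit 0, nat_lit 0, nat_lit 0, nat_lit 0, nat_lit 0, nat_lit 290400, nat_lit 0, nat_lit 0, [(nat_lit 25, [(nat_lit 1, nat_lit 601), (nat_lit 2, nat_lit 50)]), (nat_lit 28, [(nat_lit 1, nat_lit 601), (nat_lit 2, nat_lit 50)])],
 ⟨p119_k0, nat_lit 0, nat_lit 0, nat_lit 409, nat_lit 0, nat_lit 657802, [nat_lit 908506800, nat_lit 1728653467, nat_lit 2536345200], [], [nat_lit 27976602925, nat_lit 29813943604, nat_lit 33546011988, nat_lit 34804814056, nat_lit 28447637115, nat_lit 29938959046, nat_lit 32973876614, nat_lit 33970485375], nat_lit 1271250, nat_lit 1271250, nat_lit 1033601, nat_lit 3002700, nat_lit 0, nat_lit 1412500, [nat_lit 230000, nat_lit 780000, nat_lit 1435000], [nat_lit 20, nat_lit 40, nat_lit 40, nat_lit 80, nat_lit 16, nat_lit 373, nat_lit 150, nat_lit 14]⟩, ⟨p119_k1, nat_lit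 0, nat_lit 0, nat_lit 712, nat_lit 0, nat_lit 968493, [nat_lit 1145418000, nat_lit 2181250000, nat_lit 4143328000], [], [nat_lit 13032295829, nat_lit 13225908515, nat_lit 14238216102, nat_lit 14520065910, nat_lit 13021853561, nat_lit 12063075934, nat_lit 12394919238, nat_lit 12428697312], nat_lit 1271250, nat_lit 1271250, nat_lit 1271250, nat_lit 1271250, nat_lit 0, nat_lit 2118750, [nat_lit 780000, nat_lit 1435000, nat_lit 1271250], [nat_lit 23, nat_lit 40, nat_lit 40, nat_lit 80, nat_lit 12, nat_lit 483, nat_lit 250, nat_lit 12]⟩,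
 ⟨nat_lit 0, nat_lit 3163, ⟨.ofNat (nat_lit 507176), .ofNat (nat_lit 869001), .ofNat (nat_lit 528026), .ofNat (nat_lit 891156), .ofNat (nat_lit 531701), .ofNat (nat_lit 829996), .ofNat (nat_lit 555396), .ofNat (nat_lit 854997)⟩, ⟨.ofNat (nat_lit 0), .ofNat (nat_lit 322753), .ofNat (nat_lit 0), .ofNat (nat_lit 367065), .ofNat (nat_lit 0), .ofNat (nat_lit 299993), .ofNat (nat_lit 0), .ofNat (nat_lit 349995)⟩⟩, [⟨nat_lit 13, nat_lit 49, nat_lit 68, nat_lit 100, nat_lit 58172971⟩, ⟨nat_lit 16, nat_lit 46, nat_lit 100, nat_lit 75, nat_lit 214827366⟩, ⟨nat_lit 7, nat_lit 100, nat_lit 94, nat_lit 75, nat_lit 39845067⟩]⟩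
noncomputable def p119_l144 : Lf2 := ⟨nat_lit 0, nat_lit 20, [nat_lit 5, nat_lit 5, nat_lit 5, nat_lit 20], false, nat_lit 0, nat_lit 200, nat_lit 0, nat_lit 280, ⟨nat_lit 479, nat_lit 521, nat_lit 0, nat_lit 7, nat_lit 297, nat_lit 521, nat_lit 67, nat_lit 0, nat_lit 0, nat_lit 0, nat_lit 0, nat_lit 0, nat_lit 0, nat_lit 0, nat_lit 0, nat_lit 5000000, true, false⟩,
 nat_lit 4602, nat_lit 0, nat_lit 0, nat_lit 0, nat_lit 4008, nat_lit 3185, nat_lit 0, nat_lit 0, nat_lit 0, nat_lit 276, nat_lit 0, nat_lit 0, nat_lit 0, nat_lit 0, nat_lit 0, nat_lit 306200, nat_lit 0, nat_lit 0, [(nat_lit 25, [(nat_lit 1, nat_lit 358), (nat_lit 2, nat_lit 163)]), (nat_lit 28, [(nat_lit 1, nat_lit 358), (nat_lit 2, nat_lit 163)])],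
 ⟨p119_k0, nat_lit 0, nat_lit 0, nat_lit 418, nat_lit 0, nat_lit 702570, [nat_lit 991089600, nat_lit 1868749600, nat_lit 2685887200], [], [nat_lit 28007227789, nat_lit 29825103764, nat_lit 34174117984, nat_lit 36687560154, nat_lit 28092814871, nat_lit 29561089562, nat_lit 34474955866, nat_lit 33467583482], nat_lit 1271250, nat_lit 1271250, nat_lit 1236400, nat_lit 3118301, nat_lit 0, nat_lit 1412500, [nat_lit 230000, nat_lit 780000, nat_lit 1435000], [nat_lit 20, nat_lit 40, nat_lit 40, nat_lit 80, nat_lit 16, nat_lit 373, nat_lit 150, nat_lit 14]⟩, ⟨p119_k9, nat_lit 0, nat_lit 0, nat_lit 619, nat_lit 0, nat_lit 930465, [nat_lit 1572078000, nat_lit 2993750000, nat_lit 4714318000], [], [nat_lit 16310877993, nat_lit 16554221967, nat_lit 18199397616, nat_lit 18700042975, nat_lit 15144857806, nat_lit 15290716536, nat_lit 16129738200, nat_lit 16205321790], nat_lit 1271250, nat_lit 1271250, nat_lit 1271250, nat_lit 1271250,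 nat_lit 0, nat_lit 1977500, [nat_lit 780000, nat_lit 1435000, nat_lit 1271250], [nat_lit 8, nat_lit 40, nat_lit 40, nat_lit 80, nat_lit 1, nat_lit 401, nat_lit 175, nat_lit 11]⟩,
 ⟨nat_lit 0, nat_lit 3163, ⟨.ofNat (nat_lit 566138), .ofNat (nat_lit 903347), .ofNat (nat_lit 586988), .ofNat (nat_lit 925502), .ofNat (nat_lit 586935), .ofNat (nat_lit 864997), .ofNat (nat_lit 610631), .ofNat (nat_lit 889997)⟩, ⟨.ofNat (nat_lit 0), .ofNat (nat_lit 322753), .ofNat (nat_lit 0), .ofNat (nat_lit 367065), .ofNat (nat_lit 0), .ofNat (nat_lit 299993), .ofNat (nat_lit 0), .ofNat (nat_lit 349995)⟩⟩, [⟨nat_lit 16, nat_lit 46, nat_lit 100, nat_lit 75, nat_lit 182309743⟩, ⟨nat_lit 7, nat_lit 100, nat_lit 85, nat_lit 73, nat_lit 63091601⟩]⟩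
noncomputable def b_V_900_700_10_12 : St := ⟨true, nat_lit 1, nat_lit 2, nat_lit 0, nat_lit 80, nat_lit 360, nat_lit 400, nat_lit 280, nat_lit 320, nat_lit 152, nat_lit 392, nat_lit 40, nat_lit 80, nat_lit 0, nat_lit 200, nat_lit 0, nat_lit 300, nat_lit 40, nat_lit 80, nat_lit 0, nat_lit 0, nat_lit 0, nat_lit 0⟩
theorem d_V_900_700_10_12 (h : EB TB.env) : Dead b_V_900_700_10_12 := chkB_sound0 h (T :=
(.gv
(.st (nat_lit 1)
(.spl (nat_lit 5) (nat_lit 160)
(.spl (nat_lit 0) (nat_lit 380)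
(.leaf p119_l127)
(.trZ (nat_lit 0) (nat_lit 92) (nat_lit 44) (nat_lit 100) (nat_lit 192) (.trX (nat_lit 13) (nat_lit 54) (nat_lit 57) (nat_lit 100) (nat_lit 380) (.trX (nat_lit 16) (nat_lit 44) (nat_lit 100) (nat_lit 82) (nat_lit 164) (.leaf p119_l128)))))
(.leaf p119_l129))
(.spl (nat_lit 2) (nat_lit 240)
(.spl (nat_lit 5) (nat_lit 160)
(.leaf p119_l130)
(.spl (nat_lit 0) (nat_lit 380)
(.leaf p119_l131)
(.trZ (nat_lit 0) (nat_lit 92) (nat_lit 44) (nat_lit 100) (nat_lit 192) (.trX (nat_lit 16) (nat_lit 44) (nat_lit 100) (nat_lit 82) (nat_lit 164) (.leaf p119_l132)))))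
(.spl (nat_lit 5) (nat_lit 160)
(.spl (nat_lit 0) (nat_lit 380)
(.spl (nat_lit 0) (nat_lit 370)
(.leaf p119_l133)
(.trX (nat_lit 13) (nat_lit 66) (nat_lit 45) (nat_lit 100) (nat_lit 388) (.trX (nat_lit 16) (nat_lit 53) (nat_lit 100) (nat_lit 80) (nat_lit 184) (.leaf p119_l134))))
(.trX (nat_lit 13) (nat_lit 54) (nat_lit 57) (nat_lit 100) (nat_lit 380) (.trX (nat_lit 16) (nat_lit 44) (nat_lit 100) (nat_lit 82) (nat_lit 164) (.leaf p119_l135))))
(.spl (nat_lit 0) (nat_lit 380)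
(.spl (nat_lit 0) (nat_lit 370)
(.leaf p119_l136)
(.trX (nat_lit 13) (nat_lit 66) (nat_lit 45) (nat_lit 100) (nat_lit 388) (.trX (nat_lit 16) (nat_lit 53) (nat_lit 100) (nat_lit 80) (nat_lit 184) (.leaf p119_l137))))
(.trX (nat_lit 13) (nat_lit 54) (nat_lit 57) (nat_lit 100) (nat_lit 380) (.trX (nat_lit 16) (nat_lit 44) (nat_lit 100) (nat_lit 82) (nat_lit 164) (.spl (nat_lit 0) (nat_lit 390)
(.leaf p119_l138)
(.trX (nat_lit 13) (nat_lit 39) (nat_lit 72) (nat_lit 100) (nat_lit 364) (.trZ (nat_lit 3) (nat_lit 100) (nat_lit 52) (nat_lit 53) (nat_lit 8) (.trX (nat_lit 16) (nat_lit 33) (nat_lit 100) (nat_lit 84) (nat_lit 136) (.leaf p119_l139)))))))))))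
(.st (nat_lit 1)
(.spl (nat_lit 5) (nat_lit 160)
(.spl (nat_lit 0) (nat_lit 380)
(.leaf p119_l140)
(.trZ (nat_lit 0) (nat_lit 92) (nat_lit 44) (nat_lit 100) (nat_lit 192) (.trX (nat_lit 13) (nat_lit 54) (nat_lit 57) (nat_lit 100) (nat_lit 380) (.trX (nat_lit 16) (nat_lit 44) (nat_lit 100) (nat_lit 82) (nat_lit 164) (.leaf p119_l141)))))
(.leaf p119_l142))
(.spl (nat_lit 1) (nat_lit 300)
(.trX (nat_lit 13) (nat_lit 69) (nat_lit 45) (nat_lit 100) (nat_lit 384) (.leaf p119_l143))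
(.trZ (nat_lit 0) (nat_lit 87) (nat_lit 60) (nat_lit 100) (nat_lit 176) (.trX (nat_lit 19) (nat_lit 94) (nat_lit 100) (nat_lit 87) (nat_lit 280) (.leaf p119_l144))))))) (by decide +kernel)

end B2
end Pool.Agent.Lib.MP_6947cd_al
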