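import Pool.Agent.Lib.MP_6947cd_al.ZB.Pre

/-!
Problem MP_6947cd_al (Chollet).  Case B, second entry in [2/5, 17/20]: certificates of the tree, part P121 (generated).
-/

set_option autoImplicit false
set_option linter.all false

namespace Pool.Agent.Lib.MP_6947cd_al
namespace B2

open Ent Fr B1 PkA

noncomputable def p121_k0 : C1.Kn := ⟨[nat_lit 20, nat_lit 60, nat_lit 100], [nat_lit 0, nat_lit 0, nat_lit 2559], [(nat_lit 0, nat_lit 0, nat_lit 0), (nat_lit 0, nat_lit 0, nat_lit 0), (nat_lit 1000, nat_lit 600, nat_lit 787)], (nat_lit 60, nat_lit 100, nat_lit 80)⟩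
noncomputable def p121_k1 : C1.Kn := ⟨[nat_lit 60, nat_lit 100, nat_lit 160], [nat_lit 0, nat_lit 0, nat_lit 3069], [(nat_lit 0, nat_lit 0, nat_lit 0), (nat_lit 0, nat_lit 0, nat_lit 0), (nat_lit 1000, nat_lit 999, nat_lit 798)], (nat_lit 100, nat_lit 95, nat_lit 87)⟩
noncomputable def p121_k2 : C1.Kn := ⟨[nat_lit 20, nat_lit 80, nat_lit 100], [nat_lit 0, nat_lit 2121, nat_lit 3610], [(nat_lit 0, nat_lit 0, nat_lit 0), (nat_lit 1000, nat_lit 558, nat_lit 551), (nat_lit 1000, nat_lit 436, nat_lit 895)], (nat_lit 44, nat_lit 100, nat_lit 82)⟩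
noncomputable def p121_k3 : C1.Kn := ⟨[nat_lit 60, nat_lit 120, nat_lit 160], [nat_lit 0, nat_lit 0, nat_lit 3243], [(nat_lit 0, nat_lit 0, nat_lit 0), (nat_lit 0, nat_lit 0, nat_lit 0), (nat_lit 878, nat_lit 1000, nat_lit 945)], (nat_lit 100, nat_lit 95, nat_lit 87)⟩
noncomputable def p121_k4 : C1.Kn := ⟨[nat_lit 60, nat_lit 100, nat_lit 140], [nat_lit 0, nat_lit 609, nat_lit 2558], [(nat_lit 0, nat_lit 0, nat_lit 0), (nat_lit 1000, nat_lit 905, nat_lit 238), (nat_lit 1000, nat_lit 904, nat_lit 760)], (nat_lit 94, nat_lit 100, nat_lit 87)⟩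
noncomputable def p121_k5 : C1.Kn := ⟨[nat_lit 20, nat_lit 60, nat_lit 100], [nat_lit 0, nat_lit 698, nat_lit 3028], [(nat_lit 0, nat_lit 0, nat_lit 0), (nat_lit 1000, nat_lit 782, nat_lit 272), (nat_lit 1000, nat_lit 527, nat_lit 841)], (nat_lit 53, nat_lit 100, nat_lit 80)⟩
noncomputable def p121_k6 : C1.Kn := ⟨[nat_lit 20, nat_lit 60, nat_lit 80], [nat_lit 0, nat_lit 1415, nat_lit 2514], [(nat_lit 0, nat_lit 0, nat_lit 0), (nat_lit 1000, nat_lit 558, nat_lit 551), (nat_lit 1000, nat_lit 446, nat_lit 804)], (nat_lit 46, nat_lit 100, nat_lit 75)⟩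
noncomputable def p121_k7 : C1.Kn := ⟨[nat_lit 60, nat_lit 100, nat_lit 140], [nat_lit 0, nat_lit 0, nat_lit 2047], [(nat_lit 0, nat_lit 0, nat_lit 0), (nat_lit 0, nat_lit 0, nat_lit 0), (nat_lit 1000, nat_lit 993, nat_lit 781)], (nat_lit 99, nat_lit 100, nat_lit 77)⟩
noncomputable def p121_k8 : C1.Kn := ⟨[nat_lit 20, nat_lit 60], [nat_lit 0, nat_lit 2136], [(nat_lit 0, nat_lit 0, nat_lit 0), (nat_lit 1000, nat_lit 343, nat_lit 808)], (nat_lit 35, nat_lit 100, nat_lit 80)⟩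
noncomputable def p121_k9 : C1.Kn := ⟨[nat_lit 20, nat_lit 60, nat_lit 100], [nat_lit 0, nat_lit 1415, nat_lit 3591], [(nat_lit 0, nat_lit 0, nat_lit 0), (nat_lit 1000, nat_lit 558, nat_lit 551), (nat_lit 1000, nat_lit 439, nat_lit 849)], (nat_lit 44, nat_lit 100, nat_lit 82)⟩
noncomputable def p121_k10 : C1.Kn := ⟨[nat_lit 20, nat_lit 60, nat_lit 80], [nat_lit 0, nat_lit 2136, nat_lit 3185], [(nat_lit 0, nat_lit 0, nat_lit 0), (nat_lit 1000, nat_lit 343, nat_lit 808), (nat_lit 1000, nat_lit 338, nat_lit 820)], (nat_lit 33, nat_lit 100, nat_lit 84)⟩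
noncomputable def p121_k11 : C1.Kn := ⟨[nat_lit 20, nat_lit 60, nat_lit 100], [nat_lit 0, nat_lit 0, nat_lit 2559], [(nat_lit 0, nat_lit 0, nat_lit 0), (nat_lit 0, nat_lit 0, nat_lit 0), (nat_lit 1000, nat_lit 600, nat_lit 787)], (nat_lit 61, nat_lit 100, nat_lit 72)⟩
noncomputable def p121_k12 : C1.Kn := ⟨[nat_lit 20, nat_lit 60, nat_lit 80], [nat_lit 0, nat_lit 0, nat_lit 1613], [(nat_lit 0, nat_lit 0, nat_lit 0), (nat_lit 0, nat_lit 0, nat_lit 0), (nat_lit 1000, nat_lit 614, nat_lit 668)], (nat_lit 63, nat_lit 100, nat_lit 62)⟩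
noncomputable def p121_k13 : C1.Kn := ⟨[nat_lit 60, nat_lit 100, nat_lit 120], [nat_lit 0, nat_lit 609, nat_lit 1609], [(nat_lit 0, nat_lit 0, nat_lit 0), (nat_lit 1000, nat_lit 905, nat_lit 238), (nat_lit 1000, nat_lit 882, nat_lit 668)], (nat_lit 87, nat_lit 100, nat_lit 60)⟩
noncomputable def p121_k14 : C1.Kn := ⟨[nat_lit 20, nat_lit 80], [nat_lit 0, nat_lit 0], [(nat_lit 0, nat_lit 0, nat_lit 0), (nat_lit 0, nat_lit 0, nat_lit 0)], (nat_lit 63, nat_lit 100, nat_lit 62)⟩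
noncomputable def p121_k15 : C1.Kn := ⟨[nat_lit 60, nat_lit 100, nat_lit 140], [nat_lit 0, nat_lit 0, nat_lit 2047], [(nat_lit 0, nat_lit 0, nat_lit 0), (nat_lit 0, nat_lit 0, nat_lit 0), (nat_lit 1000, nat_lit 993, nat_lit 781)], (nat_lit 94, nat_lit 100, nat_lit 62)⟩
noncomputable def p121_k16 : C1.Kn := ⟨[nat_lit 20, nat_lit 60, nat_lit 80], [nat_lit 0, nat_lit 698, nat_lit 2008], [(nat_lit 0, nat_lit 0, nat_lit 0), (nat_lit 1000, nat_lit 782, nat_lit 272), (nat_lit 1000, nat_lit 540, nat_lit 733)], (nat_lit 57, nat_lit 100, nat_lit 64)⟩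
noncomputable def p121_k17 : C1.Kn := ⟨[nat_lit 20, nat_lit 60], [nat_lit 0, nat_lit 1415], [(nat_lit 0, nat_lit 0, nat_lit 0), (nat_lit 1000, nat_lit 558, nat_lit 551)], (nat_lit 49, nat_lit 100, nat_lit 68)⟩
noncomputable def p121_k18 : C1.Kn := ⟨[nat_lit 60, nat_lit 100, nat_lit 120], [nat_lit 0, nat_lit 302, nat_lit 1376], [(nat_lit 0, nat_lit 0, nat_lit 0), (nat_lit 1000, nat_lit 953, nat_lit 118), (nat_lit 1000, nat_lit 911, nat_lit 628)], (nat_lit 91, nat_lit 100, nat_lit 61)⟩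
noncomputable def p121_k19 : C1.Kn := ⟨[nat_lit 20, nat_lit 60], [nat_lit 0, nat_lit 2136], [(nat_lit 0, nat_lit 0, nat_lit 0), (nat_lit 1000, nat_lit 343, nat_lit 808)], (nat_lit 38, nat_lit 100, nat_lit 73)⟩
noncomputable def p121_k20 : C1.Kn := ⟨[nat_lit 60, nat_lit 100, nat_lit 120], [nat_lit 0, nat_lit 909, nat_lit 1866], [(nat_lit 0, nat_lit 0, nat_lit 0), (nat_lit 1000, nat_lit 858, nat_lit 354), (nat_lit 1000, nat_lit 849, nat_lit 705)], (nat_lit 84, nat_lit 100, nat_lit 60)⟩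
noncomputable def p121_k21 : C1.Kn := ⟨[nat_lit 20, nat_lit 40, nat_lit 80], [nat_lit 0, nat_lit 0, nat_lit 1598], [(nat_lit 0, nat_lit 0, nat_lit 0), (nat_lit 0, nat_lit 0, nat_lit 0), (nat_lit 1000, nat_lit 625, nat_lit 623)], (nat_lit 63, nat_lit 100, nat_lit 62)⟩
noncomputable def p121_k22 : C1.Kn := ⟨[nat_lit 60, nat_lit 80, nat_lit 140], [nat_lit 0, nat_lit 0, nat_lit 1595], [(nat_lit 0, nat_lit 0, nat_lit 0), (nat_lit 0, nat_lit 0, nat_lit 0), (nat_lit 1000, nat_lit 917, nat_lit 415)], (nat_lit 94, nat_lit 100, nat_lit 62)⟩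
noncomputable def p121_k23 : C1.Kn := ⟨[nat_lit 20, nat_lit 40, nat_lit 80], [nat_lit 0, nat_lit 350, nat_lit 1914], [(nat_lit 0, nat_lit 0, nat_lit 0), (nat_lit 1000, nat_lit 782, nat_lit 272), (nat_lit 1000, nat_lit 579, nat_lit 610)], (nat_lit 57, nat_lit 100, nat_lit 64)⟩
noncomputable def p121_k24 : C1.Kn := ⟨[nat_lit 60, nat_lit 80, nat_lit 140], [nat_lit 0, nat_lit 75, nat_lit 1666], [(nat_lit 0, nat_lit 0, nat_lit 0), (nat_lit 1000, nat_lit 977, nat_lit 59), (nat_lit 1000, nat_lit 905, nat_lit 414)], (nat_lit 92, nat_lit 100, nat_lit 61)⟩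
noncomputable def p121_k25 : C1.Kn := ⟨[nat_lit 60, nat_lit 80, nat_lit 120], [nat_lit 0, nat_lit 151, nat_lit 1205], [(nat_lit 0, nat_lit 0, nat_lit 0), (nat_lit 1000, nat_lit 953, nat_lit 118), (nat_lit 1000, nat_lit 894, nat_lit 411)], (nat_lit 91, nat_lit 100, nat_lit 61)⟩
noncomputable def p121_k26 : C1.Kn := ⟨[nat_lit 60, nat_lit 80, nat_lit 120], [nat_lit 0, nat_lit 228, nat_lit 1272], [(nat_lit 0, nat_lit 0, nat_lit 0), (nat_lit 1000, nat_lit 929, nat_lit 178), (nat_lit 1000, nat_lit 883, nat_lit 407)], (nat_lit 89, nat_lit 100, nat_lit 61)⟩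
noncomputable def p121_k27 : C1.Kn := ⟨[nat_lit 60, nat_lit 100, nat_lit 120], [nat_lit 0, nat_lit 455, nat_lit 1489], [(nat_lit 0, nat_lit 0, nat_lit 0), (nat_lit 1000, nat_lit 929, nat_lit 178), (nat_lit 1000, nat_lit 895, nat_lit 641)], (nat_lit 89, nat_lit 100, nat_lit 61)⟩
noncomputable def p121_k28 : C1.Kn := ⟨[nat_lit 60, nat_lit 80, nat_lit 120], [nat_lit 0, nat_lit 304, nat_lit 1346], [(nat_lit 0, nat_lit 0, nat_lit 0), (nat_lit 1000, nat_lit 905, nat_lit 238), (nat_lit 1000, nat_lit 871, nat_lit 407)], (nat_lit 87, nat_lit 100, nat_lit 60)⟩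
noncomputable def p121_k29 : C1.Kn := ⟨[nat_lit 60, nat_lit 80, nat_lit 120], [nat_lit 0, nat_lit 379, nat_lit 1423], [(nat_lit 0, nat_lit 0, nat_lit 0), (nat_lit 1000, nat_lit 882, nat_lit 294), (nat_lit 1000, nat_lit 859, nat_lit 408)], (nat_lit 85, nat_lit 100, nat_lit 60)⟩
noncomputable def p121_k30 : C1.Kn := ⟨[nat_lit 60, nat_lit 80, nat_lit 120], [nat_lit 0, nat_lit 456, nat_lit 1495], [(nat_lit 0, nat_lit 0, nat_lit 0), (nat_lit 1000, nat_lit 859, nat_lit 351), (nat_lit 1000, nat_lit 848, nat_lit 406)], (nat_lit 84, nat_lit 100, nat_lit 60)⟩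
noncomputable def p121_k31 : C1.Kn := ⟨[nat_lit 20, nat_lit 60], [nat_lit 0, nat_lit 0], [(nat_lit 0, nat_lit 0, nat_lit 0), (nat_lit 0, nat_lit 0, nat_lit 0)], (nat_lit 68, nat_lit 100, nat_lit 49)⟩
noncomputable def p121_k32 : C1.Kn := ⟨[nat_lit 60, nat_lit 100, nat_lit 140], [nat_lit 0, nat_lit 84, nat_lit 2124], [(nat_lit 0, nat_lit 0, nat_lit 0), (nat_lit 1000, nat_lit 987, nat_lit 33), (nat_lit 1000, nat_lit 984, nat_lit 790)], (nat_lit 93, nat_lit 100, nat_lit 61)⟩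
noncomputable def p121_k33 : C1.Kn := ⟨[nat_lit 20, nat_lit 60, nat_lit 80], [nat_lit 0, nat_lit 339, nat_lit 1800], [(nat_lit 0, nat_lit 0, nat_lit 0), (nat_lit 1000, nat_lit 894, nat_lit 132), (nat_lit 1000, nat_lit 578, nat_lit 704)], (nat_lit 60, nat_lit 100, nat_lit 63)⟩
noncomputable def p121_k34 : C1.Kn := ⟨[nat_lit 60, nat_lit 100, nat_lit 140], [nat_lit 0, nat_lit 151, nat_lit 2175], [(nat_lit 0, nat_lit 0, nat_lit 0), (nat_lit 1000, nat_lit 977, nat_lit 59), (nat_lit 1000, nat_lit 974, nat_lit 785)], (nat_lit 92, nat_lit 100, nat_lit 61)⟩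
noncomputable def p121_k35 : C1.Kn := ⟨[nat_lit 60, nat_lit 100, nat_lit 120], [nat_lit 0, nat_lit 238, nat_lit 1332], [(nat_lit 0, nat_lit 0, nat_lit 0), (nat_lit 1000, nat_lit 963, nat_lit 93), (nat_lit 1000, nat_lit 916, nat_lit 621)], (nat_lit 91, nat_lit 100, nat_lit 61)⟩
noncomputable def p121_k36 : C1.Kn := ⟨[nat_lit 60, nat_lit 100], [nat_lit 0, nat_lit 609], [(nat_lit 0, nat_lit 0, nat_lit 0), (nat_lit 1000, nat_lit 905, nat_lit 238)], (nat_lit 87, nat_lit 100, nat_lit 44)⟩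
noncomputable def p121_k37 : C1.Kn := ⟨[nat_lit 60, nat_lit 100], [nat_lit 0, nat_lit 909], [(nat_lit 0, nat_lit 0, nat_lit 0), (nat_lit 1000, nat_lit 858, nat_lit 354)], (nat_lit 84, nat_lit 100, nat_lit 44)⟩
noncomputable def p121_k38 : C1.Kn := ⟨[nat_lit 20, nat_lit 60], [nat_lit 0, nat_lit 698], [(nat_lit 0, nat_lit 0, nat_lit 0), (nat_lit 1000, nat_lit 782, nat_lit 272)], (nat_lit 62, nat_lit 100, nat_lit 52)⟩
noncomputable def p121_k39 : C1.Kn := ⟨[nat_lit 60, nat_lit 140], [nat_lit 0, nat_lit 0], [(nat_lit 0, nat_lit 0, nat_lit 0), (nat_lit 0, nat_lit 0, nat_lit 0)], (nat_lit 94, nat_lit 100, nat_lit 62)⟩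
noncomputable def p121_k40 : C1.Kn := ⟨[nat_lit 60, nat_lit 120, nat_lit 140], [nat_lit 0, nat_lit 0, nat_lit 2047], [(nat_lit 0, nat_lit 0, nat_lit 0), (nat_lit 0, nat_lit 0, nat_lit 0), (nat_lit 1000, nat_lit 993, nat_lit 781)], (nat_lit 94, nat_lit 100, nat_lit 62)⟩
noncomputable def p121_l0 : Lf2 := ⟨nat_lit 0, nat_lit 20, [nat_lit 5, nat_lit 5, nat_lit 5, nat_lit 20], false, nat_lit 0, nat_lit 200, nat_lit 0, nat_lit 300, ⟨nat_lit 1000, nat_lit 0, nat_lit 0, nat_lit 0, nat_lit 0, nat_lit 0, nat_lit 0, nat_lit 0, nat_lit 0, nat_lit 0, nat_lit 0, nat_lit 0, nat_lit 0, nat_lit 0, nat_lit 0, nat_lit 0, false, false⟩,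
 nat_lit 0, nat_lit 0, nat_lit 0, nat_lit 5372, nat_lit 6063, nat_lit 11710, nat_lit 0, nat_lit 0, nat_lit 0, nat_lit 0, nat_lit 0, nat_lit 0, nat_lit 0, nat_lit 0, nat_lit 0, nat_lit 0, nat_lit 0, nat_lit 0, [],
 ⟨p121_k0, nat_lit 0, nat_lit 0, nat_lit 200, nat_lit 0, nat_lit 0, [nat_lit 938000000, nat_lit 3282000000, nat_lit 6250000000], [], [nat_lit 31309675408, nat_lit 34882658696, nat_lit 40450620540, nat_lit 43384639110, nat_lit 28796144143, nat_lit 31600346041, nat_lit 35905168617, nat_lit 37566448356], nat_lit 0, nat_lit 0, nat_lit 0, nat_lit 0, nat_lit 0, nat_lit 0, [], [nat_lit 20, nat_lit 40, nat_lit 40, nat_lit 80, nat_lit 16, nat_lit 373, nat_lit 150, nat_lit 14]⟩, ⟨p121_k1, nat_lit 0, nat_lit 0, nat_lit 239, nat_lit 0, nat_lit 0, [nat_lit 3282000000, nat_lit 6250000000, nat_lit 11872000000], [], [nat_lit 36169802592, nat_lit 40502843289, nat_lit 50937529001, nat_lit 52789746921, nat_lit 31371383224,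 nat_lit 33794541867, nat_lit 38683362727, nat_lit 40142199119], nat_lit 0, nat_lit 0, nat_lit 0, nat_lit 0, nat_lit 0, nat_lit 0, [], [nat_lit 23, nat_lit 40, nat_lit 40, nat_lit 80, nat_lit 12, nat_lit 538, nat_lit 300, nat_lit 14]⟩,
 zbF0, [⟨nat_lit 0, nat_lit 87, nat_lit 44, nat_lit 100, nat_lit 282125806⟩, ⟨nat_lit 16, nat_lit 46, nat_lit 100, nat_lit 75, nat_lit 59917967⟩]⟩
noncomputable def p121_l1 : Lf2 := ⟨nat_lit 0, nat_lit 20, [nat_lit 5, nat_lit 5, nat_lit 5, nat_lit 20], false, nat_lit 0, nat_lit 80, nat_lit 0, nat_lit 300, ⟨nat_lit 251, nat_lit 0, nat_lit 749, nat_lit 7, nat_lit 238, nat_lit 749, nat_lit 33, nat_lit 749, nat_lit 10417, nat_lit 240, nat_lit 71778, nat_lit 200, nat_lit 49486639, nat_lit 0, nat_lit 0, nat_lit 2872546, false, false⟩,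
 nat_lit 0, nat_lit 0, nat_lit 3029, nat_lit 0, nat_lit 2489, nat_lit 1927, nat_lit 0, nat_lit 0, nat_lit 0, nat_lit 118, nat_lit 0, nat_lit 0, nat_lit 0, nat_lit 0, nat_lit 0, nat_lit 187250, nat_lit 0, nat_lit 0, [(nat_lit 25, [(nat_lit 4, nat_lit 749)])],
 ⟨p121_k0, nat_lit 0, nat_lit 0, nat_lit 143, nat_lit 0, nat_lit 0, [nat_lit 780710000, nat_lit 552743867, nat_lit 183062578], [], [nat_lit 20448967843, nat_lit 21682596868, nat_lit 22711117957, nat_lit 23856169340, nat_lit 19989503089, nat_lit 21151286254, nat_lit 22185080641, nat_lit 23205315681], nat_lit 0, nat_lit 0, nat_lit 0, nat_lit 0, nat_lit 0, nat_lit 0, [], [nat_lit 20, nat_lit 40, nat_lit 40, nat_lit 80, nat_lit 16, nat_lit 317, nat_lit 100, nat_lit 12]⟩, ⟨p121_k1, nat_lit 0, nat_lit 0, nat_lit 500, nat_lit 0, nat_lit 484034, [nat_lit 823782000, nat_lit 1568750000, nat_lit 2979872000], [], [nat_lit 9544309858, nat_lit 9720732103, nat_lit 9641421736,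 nat_lit 9785428920, nat_lit 8559392999, nat_lit 8657187244, nat_lit 9388186059, nat_lit 8552498991], nat_lit 1271250, nat_lit 1271250, nat_lit 1033601, nat_lit 1780500, nat_lit 0, nat_lit 2118750, [nat_lit 780000, nat_lit 1435000, nat_lit 1271250], [nat_lit 23, nat_lit 40, nat_lit 40, nat_lit 80, nat_lit 12, nat_lit 456, nat_lit 225, nat_lit 12]⟩,
 ⟨nat_lit 2236, nat_lit 3163, ⟨.ofNat (nat_lit 515097), .ofNat (nat_lit 649422), .ofNat (nat_lit 537188), .ofNat (nat_lit 671514), .ofNat (nat_lit 522299), .ofNat (nat_lit 647962), .ofNat (nat_lit 545010), .ofNat (nat_lit 670673)⟩, ⟨.ofNat (nat_lit 0), .ofNat (nat_lit 139899), .ofNat (nat_lit 0), .ofNat (nat_lit 184209), .ofNat (nat_lit 0), .ofNat (nat_lit 146758), .ofNat (nat_lit 0), .ofNat (nat_lit 192306)⟩⟩, [⟨nat_lit 3, nat_lit 100, nat_lit 74, nat_lit 33, nat_lit 54218823⟩, ⟨nat_lit 19, nat_lit 94, nat_lit 100, nat_lit 75, nat_lit 35154915⟩]⟩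
noncomputable def p121_l2 : Lf2 := ⟨nat_lit 0, nat_lit 20, [nat_lit 5, nat_lit 5, nat_lit 5, nat_lit 20], false, nat_lit 0, nat_lit 80, nat_lit 0, nat_lit 300, ⟨nat_lit 165, nat_lit 244, nat_lit 591, nat_lit 7, nat_lit 250, nat_lit 835, nat_lit 34, nat_lit 591, nat_lit 11267, nat_lit 241, nat_lit 73168, nat_lit 200, nat_lit 48159746, nat_lit 18840254, nat_lit 0, nat_lit 2970404, true, false⟩,
 nat_lit 0, nat_lit 0, nat_lit 2507, nat_lit 0, nat_lit 2460, nat_lit 1595, nat_lit 0, nat_lit 0, nat_lit 0, nat_lit 83, nat_lit 0, nat_lit 0, nat_lit 0, nat_lit 0, nat_lit 2, nat_lit 208750, nat_lit 0, nat_lit 0, [(nat_lit 28, [(nat_lit 0, nat_lit 244), (nat_lit 4, nat_lit 591)])],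
 ⟨p121_k2, nat_lit 0, nat_lit 0, nat_lit 161, nat_lit 0, nat_lit 0, [nat_lit 803586000, nat_lit 122457600, nat_lit 145877600], [], [nat_lit 22602330697, nat_lit 23730782480, nat_lit 23817691280, nat_lit 24976345440, nat_lit 22080517512, nat_lit 23122138704, nat_lit 23256404080, nat_lit 24253119200], nat_lit 0, nat_lit 0, nat_lit 0, nat_lit 0, nat_lit 0, nat_lit 0, [], [nat_lit 55, nat_lit 40, nat_lit 40, nat_lit 80, nat_lit 3, nat_lit 317, nat_lit 100, nat_lit 11]⟩, ⟨p121_k3, nat_lit 0, nat_lit 0, nat_lit 634, nat_lit 0, nat_lit 795979, [nat_lit 541530000, nat_lit 1314720000, nat_lit 1958880000], [], [nat_lit 5844757735, nat_lit 5953665325, nat_lit 5892271530, nat_lit 6027606290, nat_lit 5195803712, nat_lit 4818522852, nat_lit 4738253850, nat_lit 4788530183], nat_lit 1271250, nat_lit 1271250, nat_lit 1271250, nat_lit 1271250, nat_lit 0, nat_lit 2118750, [nat_lit 780000, nat_lit 1762500, nat_lit 1271250], [nat_lit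 79, nat_lit 40, nat_lit 40, nat_lit 80, nat_lit 14, nat_lit 456, nat_lit 225, nat_lit 11]⟩,
 ⟨nat_lit 0, nat_lit 2237, ⟨.ofNat (nat_lit 575619), .ofNat (nat_lit 646249), .ofNat (nat_lit 597467), .ofNat (nat_lit 668096), .ofNat (nat_lit 585925), .ofNat (nat_lit 648136), .ofNat (nat_lit 609999), .ofNat (nat_lit 672209)⟩, ⟨.ofNat (nat_lit 0), .ofNat (nat_lit 146756), .ofNat (nat_lit 0), .ofNat (nat_lit 192306), .ofNat (nat_lit 0), .ofNat (nat_lit 149997), .ofNat (nat_lit 0), .ofNat (nat_lit 199999)⟩⟩, [⟨nat_lit 0, nat_lit 90, nat_lit 32, nat_lit 100, nat_lit 417028716⟩, ⟨nat_lit 3, nat_lit 100, nat_lit 44, nat_lit 64, nat_lit 82698208⟩, ⟨nat_lit 19, nat_lit 94, nat_lit 100, nat_lit 75, nat_lit 12883269⟩]⟩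
noncomputable def p121_l3 : Lf2 := ⟨nat_lit 0, nat_lit 20, [nat_lit 5, nat_lit 5, nat_lit 5, nat_lit 20], false, nat_lit 0, nat_lit 80, nat_lit 0, nat_lit 280, ⟨nat_lit 1000, nat_lit 0, nat_lit 0, nat_lit 0, nat_lit 0, nat_lit 0, nat_lit 0, nat_lit 0, nat_lit 0, nat_lit 0, nat_lit 0, nat_lit 0, nat_lit 0, nat_lit 0, nat_lit 0, nat_lit 0, false, false⟩,
 nat_lit 0, nat_lit 0, nat_lit 11519, nat_lit 0, nat_lit 4685, nat_lit 7974, nat_lit 0, nat_lit 0, nat_lit 0, nat_lit 240, nat_lit 0, nat_lit 0, nat_lit 0, nat_lit 0, nat_lit 0, nat_lit 0, nat_lit 0, nat_lit 0, [],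
 ⟨p121_k0, nat_lit 0, nat_lit 0, nat_lit 153, nat_lit 0, nat_lit 0, [nat_lit 938000000, nat_lit 3282000000, nat_lit 6250000000], [], [nat_lit 28381654765, nat_lit 31725987669, nat_lit 30225342680, nat_lit 33202312080, nat_lit 26158528741, nat_lit 29297123201, nat_lit 27947021860, nat_lit 30747453240], nat_lit 0, nat_lit 0, nat_lit 0, nat_lit 0, nat_lit 0, nat_lit 0, [], [nat_lit 20, nat_lit 40, nat_lit 40, nat_lit 80, nat_lit 16, nat_lit 317, nat_lit 100, nat_lit 11]⟩, ⟨p121_k4, nat_lit 0, nat_lit 0, nat_lit 581, nat_lit 0, nat_lit 827374, [nat_lit 3282000000, nat_lit 6250000000, nat_lit 9842000000], [], [nat_lit 36377171246, nat_lit 37040355752, nat_lit 36797284280, nat_lit 37399383888, nat_lit 32236471241, nat_lit 32621322912, nat_lit 32148139540, nat_lit 32753100308], nat_lit 1271250, nat_lit 1271250, nat_lit 1236400, nat_lit 1794000, nat_lit 0, nat_lit 1977500, [nat_lit 780000, nat_lit 1435000, nat_lit 1271250],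 [nat_lit 8, nat_lit 40, nat_lit 40, nat_lit 80, nat_lit 1, nat_lit 373, nat_lit 150, nat_lit 10]⟩,
 zbF0, [⟨nat_lit 0, nat_lit 84, nat_lit 44, nat_lit 100, nat_lit 2594477438⟩, ⟨nat_lit 3, nat_lit 100, nat_lit 61, nat_lit 47, nat_lit 25308307⟩, ⟨nat_lit 7, nat_lit 100, nat_lit 85, nat_lit 73, nat_lit 149412182⟩]⟩
noncomputable def p121_l4 : Lf2 := ⟨nat_lit 0, nat_lit 20, [nat_lit 5, nat_lit 5, nat_lit 5, nat_lit 20], false, nat_lit 80, nat_lit 200, nat_lit 0, nat_lit 300, ⟨nat_lit 267, nat_lit 118, nat_lit 615, nat_lit 7, nat_lit 238, nat_lit 733, nat_lit 102, nat_lit 615, nat_lit 96267, nat_lit 291, nat_lit 71778, nat_lit 200, nat_lit 45609557, nat_lit 16918107, nat_lit 4472336, nat_lit 4189155, false, false⟩,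
 nat_lit 0, nat_lit 0, nat_lit 3296, nat_lit 0, nat_lit 3938, nat_lit 2097, nat_lit 0, nat_lit 0, nat_lit 0, nat_lit 124, nat_lit 0, nat_lit 0, nat_lit 0, nat_lit 0, nat_lit 0, nat_lit 143275, nat_lit 0, nat_lit 0, [(nat_lit 25, [(nat_lit 0, nat_lit 118), (nat_lit 3, nat_lit 615)])],
 ⟨p121_k0, nat_lit 0, nat_lit 0, nat_lit 73, nat_lit 0, nat_lit 0, [nat_lit 1305902000, nat_lit 906448401, nat_lit 1095558000], [], [nat_lit 19806419418, nat_lit 21459082278, nat_lit 22191960992, nat_lit 23822604224, nat_lit 21474188992, nat_lit 22837391357, nat_lit 23462162072, nat_lit 24919554960], nat_lit 0, nat_lit 0, nat_lit 0, nat_lit 0, nat_lit 0, nat_lit 0, [], [nat_lit 20, nat_lit 40, nat_lit 40, nat_lit 80, nat_lit 16, nat_lit 345, nat_lit 125, nat_lit 12]⟩, ⟨p121_k1, nat_lit 0, nat_lit 0, nat_lit 500, nat_lit 0, nat_lit 484034, [nat_lit 876294000, nat_lit 1668750000, nat_lit 3169824000], [], [nat_lit 10101666392, nat_lit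 10290780100, nat_lit 10202672868, nat_lit 10404998220, nat_lit 8998398642, nat_lit 9102776851, nat_lit 9948837621, nat_lit 9034651598], nat_lit 1271250, nat_lit 1271250, nat_lit 1033601, nat_lit 1780500, nat_lit 0, nat_lit 2118750, [nat_lit 780000, nat_lit 1435000, nat_lit 1271250], [nat_lit 23, nat_lit 40, nat_lit 40, nat_lit 80, nat_lit 12, nat_lit 456, nat_lit 225, nat_lit 12]⟩,
 ⟨nat_lit 2236, nat_lit 3163, ⟨.ofNat (nat_lit 515097), .ofNat (nat_lit 649422), .ofNat (nat_lit 537188), .ofNat (nat_lit 671514), .ofNat (nat_lit 522299), .ofNat (nat_lit 647962), .ofNat (nat_lit 545010), .ofNat (nat_lit 670673)⟩, ⟨.ofNat (nat_lit 139899), .ofNat (nat_lit 322759), .ofNat (nat_lit 184209), .ofNat (nat_lit 367069), .ofNat (nat_lit 146758), .ofNat (nat_lit 317804), .ofNat (nat_lit 192306), .ofNat (nat_lit 363353)⟩⟩, [⟨nat_lit 0, nat_lit 87, nat_lit 44, nat_lit 100, nat_lit 7618583⟩, ⟨nat_lit 16, nat_lit 54, nat_lit 100,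 nat_lit 73, nat_lit 269715459⟩, ⟨nat_lit 19, nat_lit 94, nat_lit 100, nat_lit 75, nat_lit 36037935⟩]⟩
noncomputable def p121_l5 : Lf2 := ⟨nat_lit 0, nat_lit 20, [nat_lit 5, nat_lit 5, nat_lit 5, nat_lit 20], true, nat_lit 80, nat_lit 164, nat_lit 0, nat_lit 300, ⟨nat_lit 0, nat_lit 688, nat_lit 312, nat_lit 7, nat_lit 250, nat_lit 1000, nat_lit 91, nat_lit 312, nat_lit 79350, nat_lit 284, nat_lit 73168, nat_lit 200, nat_lit 44986207, nat_lit 18240661, nat_lit 3773132, nat_lit 4138342, true, false⟩,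
 nat_lit 0, nat_lit 0, nat_lit 0, nat_lit 3484, nat_lit 3214, nat_lit 0, nat_lit 0, nat_lit 0, nat_lit 0, nat_lit 0, nat_lit 0, nat_lit 0, nat_lit 0, nat_lit 0, nat_lit 0, nat_lit 228160, nat_lit 0, nat_lit 0, [(nat_lit 28, [(nat_lit 0, nat_lit 688), (nat_lit 3, nat_lit 312)])],
 ⟨p121_k2, nat_lit 0, nat_lit 0, nat_lit 105, nat_lit 0, nat_lit 0, [nat_lit 1002246400, nat_lit 683430400, nat_lit 592700800], [], [nat_lit 21852353945, nat_lit 23249951252, nat_lit 23197232264, nat_lit 24556030064, nat_lit 22582068794, nat_lit 23813106606, nat_lit 23801826279, nat_lit 24938537068], nat_lit 0, nat_lit 0, nat_lit 0, nat_lit 0, nat_lit 0, nat_lit 0, [], [nat_lit 55, nat_lit 40, nat_lit 40, nat_lit 80, nat_lit 3, nat_lit 345, nat_lit 125, nat_lit 12]⟩, C1.Rw.none,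
 ⟨nat_lit 0, nat_lit 2237, ⟨.ofNat (nat_lit 575619), .ofNat (nat_lit 646249), .ofNat (nat_lit 597467), .ofNat (nat_lit 668096), .ofNat (nat_lit 585925), .ofNat (nat_lit 648136), .ofNat (nat_lit 609999), .ofNat (nat_lit 672209)⟩, ⟨.ofNat (nat_lit 146756), .ofNat (nat_lit 266484), .ofNat (nat_lit 192306), .ofNat (nat_lit 312035), .ofNat (nat_lit 149997), .ofNat (nat_lit 254993), .ofNat (nat_lit 199999), .ofNat (nat_lit 304995)⟩⟩, [⟨nat_lit 4, nat_lit 100, nat_lit 35, nat_lit 80, nat_lit 152264484⟩]⟩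
noncomputable def p121_l6 : Lf2 := ⟨nat_lit 0, nat_lit 20, [nat_lit 5, nat_lit 5, nat_lit 5, nat_lit 20], false, nat_lit 80, nat_lit 200, nat_lit 0, nat_lit 280, ⟨nat_lit 1000, nat_lit 0, nat_lit 0, nat_lit 0, nat_lit 0, nat_lit 0, nat_lit 0, nat_lit 0, nat_lit 0, nat_lit 0, nat_lit 0, nat_lit 0, nat_lit 0, nat_lit 0, nat_lit 0, nat_lit 0, false, false⟩,
 nat_lit 0, nat_lit 0, nat_lit 11483, nat_lit 0, nat_lit 7272, nat_lit 7949, nat_lit 0, nat_lit 0, nat_lit 0, nat_lit 244, nat_lit 0, nat_lit 0, nat_lit 0, nat_lit 0, nat_lit 0, nat_lit 0, nat_lit 0, nat_lit 0, [],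
 ⟨p121_k0, nat_lit 0, nat_lit 0, nat_lit 105, nat_lit 0, nat_lit 0, [nat_lit 938000000, nat_lit 3282000000, nat_lit 6250000000], [], [nat_lit 24262964922, nat_lit 28908054797, nat_lit 26322811648, nat_lit 30411324896, nat_lit 24823505095, nat_lit 28672478823, nat_lit 26410149456, nat_lit 29809179536], nat_lit 0, nat_lit 0, nat_lit 0, nat_lit 0, nat_lit 0, nat_lit 0, [], [nat_lit 20, nat_lit 40, nat_lit 40, nat_lit 80, nat_lit 16, nat_lit 345, nat_lit 125, nat_lit 12]⟩, ⟨p121_k4, nat_lit 0, nat_lit 0, nat_lit 581, nat_lit 0, nat_lit 827374, [nat_lit 3282000000, nat_lit 6250000000, nat_lit 9842000000], [], [nat_lit 36371490136, nat_lit 37033992052, nat_lit 36794128780, nat_lit 37361243260, nat_lit 32257979741, nat_lit 32642834942, nat_lit 32173309290, nat_lit 32738346758], nat_lit 1271250, nat_lit 1271250, nat_lit 1236400, nat_lit 1794000, nat_lit 0, nat_lit 1977500, [nat_lit 780000, nat_lit 1435000, nat_lit 1271250],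 [nat_lit 8, nat_lit 40, nat_lit 40, nat_lit 80, nat_lit 1, nat_lit 373, nat_lit 150, nat_lit 10]⟩,
 zbF0, [⟨nat_lit 0, nat_lit 84, nat_lit 44, nat_lit 100, nat_lit 2295693114⟩, ⟨nat_lit 4, nat_lit 100, nat_lit 46, nat_lit 75, nat_lit 519952898⟩, ⟨nat_lit 7, nat_lit 100, nat_lit 85, nat_lit 73, nat_lit 150230327⟩]⟩
noncomputable def p121_l7 : Lf2 := ⟨nat_lit 0, nat_lit 20, [nat_lit 5, nat_lit 5, nat_lit 5, nat_lit 20], false, nat_lit 0, nat_lit 80, nat_lit 0, nat_lit 300, ⟨nat_lit 1000, nat_lit 0, nat_lit 0, nat_lit 0, nat_lit 0, nat_lit 0, nat_lit 0, nat_lit 0, nat_lit 0, nat_lit 0, nat_lit 0, nat_lit 0, nat_lit 0, nat_lit 0, nat_lit 0, nat_lit 0, false, false⟩,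
 nat_lit 0, nat_lit 0, nat_lit 10415, nat_lit 0, nat_lit 4321, nat_lit 6627, nat_lit 466, nat_lit 0, nat_lit 0, nat_lit 790, nat_lit 0, nat_lit 0, nat_lit 0, nat_lit 0, nat_lit 0, nat_lit 0, nat_lit 0, nat_lit 0, [],
 ⟨p121_k0, nat_lit 0, nat_lit 0, nat_lit 179, nat_lit 0, nat_lit 0, [nat_lit 938000000, nat_lit 3282000000, nat_lit 6250000000], [], [nat_lit 26980469172, nat_lit 27613359827, nat_lit 34525615884, nat_lit 35194331996, nat_lit 24984689916, nat_lit 25581437860, nat_lit 31297586584, nat_lit 31835411625], nat_lit 0, nat_lit 0, nat_lit 0, nat_lit 0, nat_lit 0, nat_lit 0, [], [nat_lit 20, nat_lit 40, nat_lit 40, nat_lit 80, nat_lit 16, nat_lit 226, nat_lit 20, nat_lit 8]⟩, ⟨p121_k1, nat_lit 0, nat_lit 0, nat_lit 388, nat_lit 0, nat_lit 337477, [nat_lit 3282000000, nat_lit 6250000000, nat_lit 11872000000], [], [nat_lit 32788814728, nat_lit 33504327116, nat_lit 37639185504, nat_lit 38093631385, nat_lit 29560492872,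 nat_lit 29980907186, nat_lit 33639236639, nat_lit 34152449374], nat_lit 1271250, nat_lit 1271250, nat_lit 1271250, nat_lit 1271250, nat_lit 0, nat_lit 2118750, [nat_lit 780000, nat_lit 1435000, nat_lit 1271250], [nat_lit 23, nat_lit 40, nat_lit 40, nat_lit 80, nat_lit 12, nat_lit 483, nat_lit 250, nat_lit 12]⟩,
 zbF0, [⟨nat_lit 7, nat_lit 100, nat_lit 94, nat_lit 75, nat_lit 163072272⟩]⟩
noncomputable def p121_l8 : Lf2 := ⟨nat_lit 0, nat_lit 20, [nat_lit 5, nat_lit 5, nat_lit 5, nat_lit 20], false, nat_lit 0, nat_lit 80, nat_lit 0, nat_lit 300, ⟨nat_lit 1000, nat_lit 0, nat_lit 0, nat_lit 0, nat_lit 0, nat_lit 0, nat_lit 0, nat_lit 0, nat_lit 0, nat_lit 0, nat_lit 0, nat_lit 0, nat_lit 0, nat_lit 0, nat_lit 0, nat_lit 0, false, false⟩,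
 nat_lit 0, nat_lit 0, nat_lit 11832, nat_lit 0, nat_lit 3645, nat_lit 7529, nat_lit 548, nat_lit 0, nat_lit 0, nat_lit 719, nat_lit 0, nat_lit 0, nat_lit 0, nat_lit 0, nat_lit 0, nat_lit 0, nat_lit 0, nat_lit 0, [],
 ⟨p121_k5, nat_lit 0, nat_lit 0, nat_lit 183, nat_lit 0, nat_lit 0, [nat_lit 938000000, nat_lit 3282000000, nat_lit 6250000000], [], [nat_lit 25251944955, nat_lit 26148505250, nat_lit 32926759213, nat_lit 33551450535, nat_lit 23572737200, nat_lit 24123203480, nat_lit 30051974318, nat_lit 30653135205], nat_lit 0, nat_lit 0, nat_lit 0, nat_lit 0, nat_lit 0, nat_lit 0, [], [nat_lit 20, nat_lit 40, nat_lit 40, nat_lit 80, nat_lit 16, nat_lit 226, nat_lit 20, nat_lit 7]⟩, ⟨p121_k1, nat_lit 0, nat_lit 0, nat_lit 469, nat_lit 0, nat_lit 484034, [nat_lit 3282000000, nat_lit 6250000000, nat_lit 11872000000], [], [nat_lit 33916498718, nat_lit 34487694966, nat_lit 38623381175, nat_lit 39448174049, nat_lit 29457606422,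 nat_lit 29763856139, nat_lit 32993013833, nat_lit 33688570937], nat_lit 1271250, nat_lit 1271250, nat_lit 1271250, nat_lit 1271250, nat_lit 0, nat_lit 2118750, [nat_lit 780000, nat_lit 1435000, nat_lit 1271250], [nat_lit 23, nat_lit 40, nat_lit 40, nat_lit 80, nat_lit 12, nat_lit 483, nat_lit 250, nat_lit 12]⟩,
 zbF0, [⟨nat_lit 19, nat_lit 94, nat_lit 100, nat_lit 75, nat_lit 120084068⟩]⟩
noncomputable def p121_l9 : Lf2 := ⟨nat_lit 0, nat_lit 20, [nat_lit 5, nat_lit 5, nat_lit 5, nat_lit 20], false, nat_lit 0, nat_lit 80, nat_lit 0, nat_lit 280, ⟨nat_lit 1000, nat_lit 0, nat_lit 0, nat_lit 0, nat_lit 0, nat_lit 0, nat_lit 0, nat_lit 0, nat_lit 0, nat_lit 0, nat_lit 0, nat_lit 0, nat_lit 0, nat_lit 0, nat_lit 0, nat_lit 0, false, false⟩,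
 nat_lit 0, nat_lit 0, nat_lit 9033, nat_lit 0, nat_lit 4389, nat_lit 6253, nat_lit 313, nat_lit 0, nat_lit 0, nat_lit 723, nat_lit 0, nat_lit 0, nat_lit 0, nat_lit 0, nat_lit 0, nat_lit 0, nat_lit 0, nat_lit 0, [],
 ⟨p121_k0, nat_lit 0, nat_lit 0, nat_lit 190, nat_lit 0, nat_lit 0, [nat_lit 938000000, nat_lit 3282000000, nat_lit 6250000000], [], [nat_lit 29381166298, nat_lit 30657019088, nat_lit 35722159470, nat_lit 36618437656, nat_lit 27335628994, nat_lit 28538435986, nat_lit 33473369717, nat_lit 34337315321], nat_lit 0, nat_lit 0, nat_lit 0, nat_lit 0, nat_lit 0, nat_lit 0, [], [nat_lit 20, nat_lit 40, nat_lit 40, nat_lit 80, nat_lit 16, nat_lit 226, nat_lit 20, nat_lit 8]⟩, ⟨p121_k4, nat_lit 0, nat_lit 0, nat_lit 451, nat_lit 0, nat_lit 566623, [nat_lit 3282000000, nat_lit 6250000000, nat_lit 9842000000], [], [nat_lit 31172792615, nat_lit 31869031821, nat_lit 36721505395, nat_lit 37963335755, nat_lit 28750870700,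 nat_lit 29167959054, nat_lit 32521992270, nat_lit 33352821219], nat_lit 1271250, nat_lit 1271250, nat_lit 1271250, nat_lit 1271250, nat_lit 0, nat_lit 1977500, [nat_lit 780000, nat_lit 1435000, nat_lit 1271250], [nat_lit 8, nat_lit 40, nat_lit 40, nat_lit 80, nat_lit 1, nat_lit 401, nat_lit 175, nat_lit 11]⟩,
 zbF0, [⟨nat_lit 7, nat_lit 100, nat_lit 85, nat_lit 73, nat_lit 202631104⟩, ⟨nat_lit 22, nat_lit 85, nat_lit 100, nat_lit 32, nat_lit 6372333⟩]⟩
noncomputable def p121_l10 : Lf2 := ⟨nat_lit 0, nat_lit 15, [nat_lit 30, nat_lit 5, nat_lit 5, nat_lit 20], false, nat_lit 0, nat_lit 80, nat_lit 0, nat_lit 276, ⟨nat_lit 1000, nat_lit 0, nat_lit 0, nat_lit 0, nat_lit 0, nat_lit 0, nat_lit 0, nat_lit 0, nat_lit 0, nat_lit 0, nat_lit 0, nat_lit 0, nat_lit 0, nat_lit 0, nat_lit 0, nat_lit 0, false, false⟩,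
 nat_lit 0, nat_lit 0, nat_lit 12079, nat_lit 0, nat_lit 4229, nat_lit 7686, nat_lit 228, nat_lit 0, nat_lit 0, nat_lit 653, nat_lit 0, nat_lit 0, nat_lit 0, nat_lit 0, nat_lit 0, nat_lit 0, nat_lit 0, nat_lit 0, [],
 ⟨p121_k6, nat_lit 0, nat_lit 0, nat_lit 166, nat_lit 0, nat_lit 0, [nat_lit 938000000, nat_lit 3282000000, nat_lit 4688000000], [], [nat_lit 27720128074, nat_lit 28430581487, nat_lit 34510069070, nat_lit 35205992523, nat_lit 25730607746, nat_lit 26399207569, nat_lit 31017989148, nat_lit 31686439337], nat_lit 0, nat_lit 0, nat_lit 0, nat_lit 0, nat_lit 0, nat_lit 0, [], [nat_lit 35, nat_lit 40, nat_lit 40, nat_lit 80, nat_lit 22, nat_lit 226, nat_lit 20, nat_lit 9]⟩, ⟨p121_k7, nat_lit 0, nat_lit 0, nat_lit 453, nat_lit 0, nat_lit 581011, [nat_lit 3282000000, nat_lit 6250000000, nat_lit 9842000000], [], [nat_lit 33122956587, nat_lit 33725833287, nat_lit 36792088658, nat_lit 37539824587, nat_lit 28426914701,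 nat_lit 28781274083, nat_lit 31181290456, nat_lit 31916531622], nat_lit 1271250, nat_lit 1271250, nat_lit 1271250, nat_lit 1271250, nat_lit 0, nat_lit 1949250, [nat_lit 780000, nat_lit 1435000, nat_lit 1271250], [nat_lit 8, nat_lit 40, nat_lit 40, nat_lit 80, nat_lit 1, nat_lit 401, nat_lit 175, nat_lit 11]⟩,
 zbF0, [⟨nat_lit 7, nat_lit 100, nat_lit 92, nat_lit 68, nat_lit 128158783⟩]⟩
noncomputable def p121_l11 : Lf2 := ⟨nat_lit 0, nat_lit 15, [nat_lit 30, nat_lit 5, nat_lit 5, nat_lit 20], false, nat_lit 8, nat_lit 80, nat_lit 0, nat_lit 276, ⟨nat_lit 442, nat_lit 558, nat_lit 0, nat_lit 7, nat_lit 293, nat_lit 558, nat_lit 36, nat_lit 0, nat_lit 0, nat_lit 0, nat_lit 0, nat_lit 0, nat_lit 42882416, nat_lit 23203665, nat_lit 913919, nat_lit 3643950, true, true⟩,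
 nat_lit 0, nat_lit 0, nat_lit 5457, nat_lit 0, nat_lit 3001, nat_lit 3472, nat_lit 0, nat_lit 0, nat_lit 0, nat_lit 265, nat_lit 0, nat_lit 0, nat_lit 0, nat_lit 0, nat_lit 0, nat_lit 139500, nat_lit 0, nat_lit 0, [(nat_lit 28, [(nat_lit 0, nat_lit 558)])],
 ⟨p121_k8, nat_lit 0, nat_lit 0, nat_lit 135, nat_lit 0, nat_lit 0, [nat_lit 850728801, nat_lit 2034312000], [], [nat_lit 26068962449, nat_lit 26732501792, nat_lit 30530882799, nat_lit 31053663786, nat_lit 25283531209, nat_lit 25882245154, nat_lit 29431516136, nat_lit 29909939626], nat_lit 0, nat_lit 0, nat_lit 0, nat_lit 0, nat_lit 0, nat_lit 0, [], [nat_lit 66, nat_lit 40, nat_lit 40, nat_lit 80, nat_lit 67, nat_lit 226, nat_lit 20, nat_lit 11]⟩, ⟨p121_k7, nat_lit 0, nat_lit 0, nat_lit 505, nat_lit 0, nat_lit 736610, [nat_lit 1450644000, nat_lit 2762500000, nat_lit 4350164000], [], [nat_lit 15224498375, nat_lit 15423162831, nat_lit 16233111459, nat_lit 16436452744,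 nat_lit 13008484515, nat_lit 13116563381, nat_lit 13687646779, nat_lit 13806851185], nat_lit 1271250, nat_lit 1271250, nat_lit 1271250, nat_lit 1271250, nat_lit 0, nat_lit 1949250, [nat_lit 780000, nat_lit 1435000, nat_lit 1271250], [nat_lit 8, nat_lit 40, nat_lit 40, nat_lit 80, nat_lit 1, nat_lit 401, nat_lit 175, nat_lit 11]⟩,
 ⟨nat_lit 0, nat_lit 1582, ⟨.ofNat (nat_lit 646579), .ofNat (nat_lit 800872), .ofNat (nat_lit 669237), .ofNat (nat_lit 824188), .ofNat (nat_lit 648683), .ofNat (nat_lit 789996), .ofNat (nat_lit 673026), .ofNat (nat_lit 814997)⟩, ⟨.ofNat (nat_lit 20000), .ofNat (nat_lit 149570), .ofNat (nat_lit 20000), .ofNat (nat_lit 172886), .ofNat (nat_lit 20000), .ofNat (nat_lit 149998), .ofNat (nat_lit 20000), .ofNat (nat_lit 174999)⟩⟩, [⟨nat_lit 19, nat_lit 92, nat_lit 100, nat_lit 68, nat_lit 23661824⟩, ⟨nat_lit 22, nat_lit 89, nat_lit 100, nat_lit 64, nat_lit 25982855⟩]⟩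
noncomputable def p121_l12 : Lf2 := ⟨nat_lit 0, nat_lit 20, [nat_lit 5, nat_lit 5, nat_lit 5, nat_lit 20], false, nat_lit 8, nat_lit 80, nat_lit 0, nat_lit 300, ⟨nat_lit 1000, nat_lit 0, nat_lit 0, nat_lit 0, nat_lit 0, nat_lit 0, nat_lit 0, nat_lit 0, nat_lit 0, nat_lit 0, nat_lit 0, nat_lit 0, nat_lit 0, nat_lit 0, nat_lit 0, nat_lit 0, false, false⟩,
 nat_lit 0, nat_lit 0, nat_lit 12294, nat_lit 0, nat_lit 3051, nat_lit 7823, nat_lit 551, nat_lit 0, nat_lit 0, nat_lit 733, nat_lit 0, nat_lit 0, nat_lit 0, nat_lit 0, nat_lit 0, nat_lit 0, nat_lit 0, nat_lit 0, [],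
 ⟨p121_k9, nat_lit 0, nat_lit 0, nat_lit 171, nat_lit 0, nat_lit 0, [nat_lit 938000000, nat_lit 3282000000, nat_lit 6250000000], [], [nat_lit 24614306780, nat_lit 25427664296, nat_lit 30840579304, nat_lit 31436797973, nat_lit 23064726092, nat_lit 23569413707, nat_lit 28826895012, nat_lit 29402377912], nat_lit 0, nat_lit 0, nat_lit 0, nat_lit 0, nat_lit 0, nat_lit 0, [], [nat_lit 20, nat_lit 40, nat_lit 40, nat_lit 80, nat_lit 16, nat_lit 226, nat_lit 20, nat_lit 7]⟩, ⟨p121_k1, nat_lit 0, nat_lit 0, nat_lit 393, nat_lit 0, nat_lit 362927, [nat_lit 3282000000, nat_lit 6250000000, nat_lit 11872000000], [], [nat_lit 33096209066, nat_lit 33837968734, nat_lit 37851020916, nat_lit 38734926743, nat_lit 28324537578, nat_lit 28746148490, nat_lit 32128868477, nat_lit 33049916858], nat_lit 1271250, nat_lit 1271250, nat_lit 1271250, nat_lit 1271250, nat_lit 0, nat_lit 2118750, [nat_lit 780000, nat_lit 1435000, nat_lit 1271250],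 [nat_lit 23, nat_lit 40, nat_lit 40, nat_lit 80, nat_lit 12, nat_lit 483, nat_lit 250, nat_lit 12]⟩,
 zbF0, [⟨nat_lit 7, nat_lit 100, nat_lit 97, nat_lit 82, nat_lit 107979190⟩]⟩
noncomputable def p121_l13 : Lf2 := ⟨nat_lit 0, nat_lit 20, [nat_lit 5, nat_lit 5, nat_lit 5, nat_lit 20], false, nat_lit 20, nat_lit 80, nat_lit 0, nat_lit 300, ⟨nat_lit 1000, nat_lit 0, nat_lit 0, nat_lit 0, nat_lit 0, nat_lit 0, nat_lit 0, nat_lit 0, nat_lit 0, nat_lit 0, nat_lit 0, nat_lit 0, nat_lit 0, nat_lit 0, nat_lit 0, nat_lit 0, false, false⟩,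
 nat_lit 0, nat_lit 0, nat_lit 12057, nat_lit 0, nat_lit 3482, nat_lit 7672, nat_lit 198, nat_lit 0, nat_lit 0, nat_lit 717, nat_lit 0, nat_lit 0, nat_lit 0, nat_lit 0, nat_lit 0, nat_lit 0, nat_lit 0, nat_lit 0, [],
 ⟨p121_k10, nat_lit 0, nat_lit 0, nat_lit 147, nat_lit 0, nat_lit 0, [nat_lit 938000000, nat_lit 3282000000, nat_lit 4688000000], [], [nat_lit 26800251267, nat_lit 27469852064, nat_lit 31388467034, nat_lit 32030789572, nat_lit 25716172520, nat_lit 26325094746, nat_lit 29952263121, nat_lit 30457652913], nat_lit 0, nat_lit 0, nat_lit 0, nat_lit 0, nat_lit 0, nat_lit 0, [], [nat_lit 35, nat_lit 40, nat_lit 40, nat_lit 80, nat_lit 22, nat_lit 226, nat_lit 20, nat_lit 9]⟩, ⟨p121_k1, nat_lit 0, nat_lit 0, nat_lit 490, nat_lit 0, nat_lit 515508, [nat_lit 3282000000, nat_lit 6250000000, nat_lit 11872000000], [], [nat_lit 33686491974, nat_lit 34260135238, nat_lit 37126346515, nat_lit 37633757987, nat_lit 29049933046,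 nat_lit 29354779718, nat_lit 31623420858, nat_lit 32170068969], nat_lit 1271250, nat_lit 1271250, nat_lit 1271250, nat_lit 1271250, nat_lit 0, nat_lit 2118750, [nat_lit 780000, nat_lit 1435000, nat_lit 1271250], [nat_lit 23, nat_lit 40, nat_lit 40, nat_lit 80, nat_lit 12, nat_lit 483, nat_lit 250, nat_lit 12]⟩,
 zbF0, [⟨nat_lit 0, nat_lit 92, nat_lit 23, nat_lit 100, nat_lit 433231976⟩, ⟨nat_lit 19, nat_lit 97, nat_lit 100, nat_lit 82, nat_lit 112650055⟩]⟩
noncomputable def p121_l14 : Lf2 := ⟨nat_lit 0, nat_lit 20, [nat_lit 5, nat_lit 5, nat_lit 5, nat_lit 20], false, nat_lit 0, nat_lit 80, nat_lit 0, nat_lit 280, ⟨nat_lit 1000, nat_lit 0, nat_lit 0, nat_lit 0, nat_lit 0, nat_lit 0, nat_lit 0, nat_lit 0, nat_lit 0, nat_lit 0, nat_lit 0, nat_lit 0, nat_lit 0, nat_lit 0, nat_lit 0, nat_lit 0, false, false⟩,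
 nat_lit 0, nat_lit 0, nat_lit 9339, nat_lit 0, nat_lit 3161, nat_lit 6465, nat_lit 529, nat_lit 0, nat_lit 0, nat_lit 686, nat_lit 0, nat_lit 0, nat_lit 0, nat_lit 0, nat_lit 0, nat_lit 0, nat_lit 0, nat_lit 0, [],
 ⟨p121_k9, nat_lit 0, nat_lit 0, nat_lit 189, nat_lit 0, nat_lit 0, [nat_lit 938000000, nat_lit 3282000000, nat_lit 6250000000], [], [nat_lit 25065773050, nat_lit 25897781781, nat_lit 32090407963, nat_lit 32677347044, nat_lit 23372395212, nat_lit 23878067451, nat_lit 29709563169, nat_lit 30274618867], nat_lit 0, nat_lit 0, nat_lit 0, nat_lit 0, nat_lit 0, nat_lit 0, [], [nat_lit 20, nat_lit 40, nat_lit 40, nat_lit 80, nat_lit 16, nat_lit 226, nat_lit 20, nat_lit 7]⟩, ⟨p121_k4, nat_lit 0, nat_lit 0, nat_lit 492, nat_lit 0, nat_lit 694413, [nat_lit 3282000000, nat_lit 6250000000, nat_lit 9842000000], [], [nat_lit 32557808800, nat_lit 33098923600, nat_lit 36076214225, nat_lit 37305892520, nat_lit 29618376150,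 nat_lit 29948003880, nat_lit 32283653580, nat_lit 32752876545], nat_lit 1271250, nat_lit 1271250, nat_lit 1271250, nat_lit 1271250, nat_lit 0, nat_lit 1977500, [nat_lit 780000, nat_lit 1435000, nat_lit 1271250], [nat_lit 8, nat_lit 40, nat_lit 40, nat_lit 80, nat_lit 1, nat_lit 401, nat_lit 175, nat_lit 11]⟩,
 zbF0, [⟨nat_lit 7, nat_lit 100, nat_lit 85, nat_lit 73, nat_lit 192547929⟩]⟩
noncomputable def p121_l15 : Lf2 := ⟨nat_lit 0, nat_lit 20, [nat_lit 5, nat_lit 5, nat_lit 5, nat_lit 20], false, nat_lit 8, nat_lit 80, nat_lit 0, nat_lit 280, ⟨nat_lit 1000, nat_lit 0, nat_lit 0, nat_lit 0, nat_lit 0, nat_lit 0, nat_lit 0, nat_lit 0, nat_lit 0, nat_lit 0, nat_lit 0, nat_lit 0, nat_lit 0, nat_lit 0, nat_lit 0, nat_lit 0, false, false⟩,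
 nat_lit 0, nat_lit 0, nat_lit 9255, nat_lit 0, nat_lit 3582, nat_lit 6407, nat_lit 159, nat_lit 0, nat_lit 0, nat_lit 705, nat_lit 0, nat_lit 0, nat_lit 0, nat_lit 0, nat_lit 0, nat_lit 0, nat_lit 0, nat_lit 0, [],
 ⟨p121_k10, nat_lit 0, nat_lit 0, nat_lit 164, nat_lit 0, nat_lit 0, [nat_lit 938000000, nat_lit 3282000000, nat_lit 4688000000], [], [nat_lit 27644884174, nat_lit 28329904192, nat_lit 32814270412, nat_lit 33385097024, nat_lit 26285282021, nat_lit 26886400741, nat_lit 31071489223, nat_lit 31568218106], nat_lit 0, nat_lit 0, nat_lit 0, nat_lit 0, nat_lit 0, nat_lit 0, [], [nat_lit 35, nat_lit 40, nat_lit 40, nat_lit 80, nat_lit 22, nat_lit 226, nat_lit 20, nat_lit 9]⟩, ⟨p121_k4, nat_lit 0, nat_lit 0, nat_lit 567, nat_lit 0, nat_lit 827374, [nat_lit 3282000000, nat_lit 6250000000, nat_lit 9842000000], [], [nat_lit 32358092790, nat_lit 32898191430, nat_lit 35203745593, nat_lit 35622565560, nat_lit 29590470974,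 nat_lit 29947536393, nat_lit 31899474649, nat_lit 32238690678], nat_lit 1271250, nat_lit 1271250, nat_lit 1271250, nat_lit 1271250, nat_lit 0, nat_lit 1977500, [nat_lit 780000, nat_lit 1435000, nat_lit 1271250], [nat_lit 8, nat_lit 40, nat_lit 40, nat_lit 80, nat_lit 1, nat_lit 401, nat_lit 175, nat_lit 11]⟩,
 zbF0, [⟨nat_lit 0, nat_lit 89, nat_lit 24, nat_lit 100, nat_lit 517688512⟩, ⟨nat_lit 4, nat_lit 100, nat_lit 26, nat_lit 84, nat_lit 13991402⟩, ⟨nat_lit 19, nat_lit 85, nat_lit 100, nat_lit 73, nat_lit 185898520⟩]⟩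
noncomputable def p121_l16 : Lf2 := ⟨nat_lit 0, nat_lit 15, [nat_lit 30, nat_lit 5, nat_lit 5, nat_lit 20], false, nat_lit 80, nat_lit 176, nat_lit 0, nat_lit 276, ⟨nat_lit 1000, nat_lit 0, nat_lit 0, nat_lit 0, nat_lit 0, nat_lit 0, nat_lit 0, nat_lit 0, nat_lit 0, nat_lit 0, nat_lit 0, nat_lit 0, nat_lit 0, nat_lit 0, nat_lit 0, nat_lit 0, false, false⟩,
 nat_lit 0, nat_lit 0, nat_lit 13033, nat_lit 0, nat_lit 6288, nat_lit 8293, nat_lit 0, nat_lit 0, nat_lit 0, nat_lit 414, nat_lit 0, nat_lit 0, nat_lit 0, nat_lit 0, nat_lit 0, nat_lit 0, nat_lit 0, nat_lit 0, [],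
 ⟨p121_k11, nat_lit 0, nat_lit 0, nat_lit 126, nat_lit 0, nat_lit 0, [nat_lit 938000000, nat_lit 3282000000, nat_lit 6250000000], [], [nat_lit 26624915392, nat_lit 28485270288, nat_lit 34852754912, nat_lit 36125980263, nat_lit 26560154976, nat_lit 28182340884, nat_lit 33720777263, nat_lit 34841991857], nat_lit 0, nat_lit 0, nat_lit 0, nat_lit 0, nat_lit 0, nat_lit 0, [], [nat_lit 20, nat_lit 40, nat_lit 40, nat_lit 80, nat_lit 16, nat_lit 260, nat_lit 50, nat_lit 8]⟩, ⟨p121_k7, nat_lit 0, nat_lit 0, nat_lit 377, nat_lit 0, nat_lit 431431, [nat_lit 3282000000, nat_lit 6250000000, nat_lit 9842000000], [], [nat_lit 34033695904, nat_lit 34803175190, nat_lit 40458927964, nat_lit 41057055851, nat_lit 29496135198, nat_lit 29952997827, nat_lit 33531941576, nat_lit 33942053209], nat_lit 1271250, nat_lit 1271250, nat_lit 1271250, nat_lit 1271250, nat_lit 0, nat_lit 1949250, [nat_lit 780000, nat_lit 1435000, nat_lit 1271250],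 [nat_lit 8, nat_lit 40, nat_lit 40, nat_lit 80, nat_lit 1, nat_lit 401, nat_lit 175, nat_lit 11]⟩,
 zbF0, [⟨nat_lit 16, nat_lit 55, nat_lit 100, nat_lit 69, nat_lit 406090001⟩, ⟨nat_lit 7, nat_lit 100, nat_lit 92, nat_lit 68, nat_lit 73387469⟩]⟩
noncomputable def p121_l17 : Lf2 := ⟨nat_lit 0, nat_lit 15, [nat_lit 30, nat_lit 5, nat_lit 5, nat_lit 20], false, nat_lit 80, nat_lit 140, nat_lit 0, nat_lit 276, ⟨nat_lit 1000, nat_lit 0, nat_lit 0, nat_lit 0, nat_lit 0, nat_lit 0, nat_lit 0, nat_lit 0, nat_lit 0, nat_lit 0, nat_lit 0, nat_lit 0, nat_lit 0, nat_lit 0, nat_lit 0, nat_lit 0, false, false⟩,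
 nat_lit 0, nat_lit 0, nat_lit 12870, nat_lit 0, nat_lit 5208, nat_lit 8190, nat_lit 0, nat_lit 0, nat_lit 0, nat_lit 592, nat_lit 0, nat_lit 0, nat_lit 0, nat_lit 0, nat_lit 0, nat_lit 0, nat_lit 0, nat_lit 0, [],
 ⟨p121_k6, nat_lit 0, nat_lit 0, nat_lit 114, nat_lit 0, nat_lit 0, [nat_lit 938000000, nat_lit 3282000000, nat_lit 4688000000], [], [nat_lit 26523399216, nat_lit 28110198688, nat_lit 32861406343, nat_lit 34330365850, nat_lit 26517034200, nat_lit 27984116008, nat_lit 32291864457, nat_lit 33490869674], nat_lit 0, nat_lit 0, nat_lit 0, nat_lit 0, nat_lit 0, nat_lit 0, [], [nat_lit 35, nat_lit 40, nat_lit 40, nat_lit 80, nat_lit 22, nat_lit 249, nat_lit 40, nat_lit 10]⟩, ⟨p121_k7, nat_lit 0, nat_lit 0, nat_lit 506, nat_lit 0, nat_lit 736610, [nat_lit 3282000000, nat_lit 6250000000, nat_lit 9842000000], [], [nat_lit 33542167520, nat_lit 33993467960, nat_lit 37333602128, nat_lit 38726557597, nat_lit 28136634664,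 nat_lit 28376192203, nat_lit 31318531725, nat_lit 32364832717], nat_lit 1271250, nat_lit 1271250, nat_lit 1271250, nat_lit 1271250, nat_lit 0, nat_lit 1949250, [nat_lit 780000, nat_lit 1435000, nat_lit 1271250], [nat_lit 8, nat_lit 40, nat_lit 40, nat_lit 80, nat_lit 1, nat_lit 401, nat_lit 175, nat_lit 11]⟩,
 zbF0, [⟨nat_lit 4, nat_lit 100, nat_lit 36, nat_lit 77, nat_lit 3323073251⟩, ⟨nat_lit 7, nat_lit 100, nat_lit 92, nat_lit 68, nat_lit 95149004⟩]⟩
noncomputable def p121_l18 : Lf2 := ⟨nat_lit 0, nat_lit 20, [nat_lit 5, nat_lit 5, nat_lit 5, nat_lit 20], false, nat_lit 80, nat_lit 200, nat_lit 0, nat_lit 300, ⟨nat_lit 1000, nat_lit 0, nat_lit 0, nat_lit 0, nat_lit 0, nat_lit 0, nat_lit 0, nat_lit 0, nat_lit 0, nat_lit 0, nat_lit 0, nat_lit 0, nat_lit 0, nat_lit 0, nat_lit 0, nat_lit 0, false, false⟩,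
 nat_lit 0, nat_lit 0, nat_lit 11054, nat_lit 0, nat_lit 6288, nat_lit 7034, nat_lit 0, nat_lit 0, nat_lit 0, nat_lit 774, nat_lit 0, nat_lit 0, nat_lit 0, nat_lit 0, nat_lit 0, nat_lit 0, nat_lit 0, nat_lit 0, [],
 ⟨p121_k0, nat_lit 0, nat_lit 0, nat_lit 126, nat_lit 0, nat_lit 0, [nat_lit 938000000, nat_lit 3282000000, nat_lit 6250000000], [], [nat_lit 26624915392, nat_lit 28485270288, nat_lit 34852754912, nat_lit 36125980263, nat_lit 27051719424, nat_lit 28605902584, nat_lit 33885482093, nat_lit 34961597092], nat_lit 0, nat_lit 0, nat_lit 0, nat_lit 0, nat_lit 0, nat_lit 0, [], [nat_lit 20, nat_lit 40, nat_lit 40, nat_lit 80, nat_lit 16, nat_lit 260, nat_lit 50, nat_lit 8]⟩, ⟨p121_k1, nat_lit 0, nat_lit 0, nat_lit 352, nat_lit 0, nat_lit 216302, [nat_lit 3282000000, nat_lit 6250000000, nat_lit 11872000000], [], [nat_lit 32823172876, nat_lit 33552703972, nat_lit 37890464010, nat_lit 38680900274, nat_lit 29074734324,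 nat_lit 29495555841, nat_lit 32963588882, nat_lit 33481519723], nat_lit 1271250, nat_lit 1271250, nat_lit 1271250, nat_lit 1271250, nat_lit 0, nat_lit 2118750, [nat_lit 780000, nat_lit 1435000, nat_lit 1271250], [nat_lit 23, nat_lit 40, nat_lit 40, nat_lit 80, nat_lit 12, nat_lit 483, nat_lit 250, nat_lit 12]⟩,
 zbF0, [⟨nat_lit 4, nat_lit 100, nat_lit 53, nat_lit 77, nat_lit 442947363⟩, ⟨nat_lit 19, nat_lit 97, nat_lit 100, nat_lit 82, nat_lit 118195241⟩]⟩
noncomputable def p121_l19 : Lf2 := ⟨nat_lit 0, nat_lit 20, [nat_lit 5, nat_lit 5, nat_lit 5, nat_lit 20], false, nat_lit 80, nat_lit 164, nat_lit 0, nat_lit 300, ⟨nat_lit 1000, nat_lit 0, nat_lit 0, nat_lit 0, nat_lit 0, nat_lit 0, nat_lit 0, nat_lit 0, nat_lit 0, nat_lit 0, nat_lit 0, nat_lit 0, nat_lit 0, nat_lit 0, nat_lit 0, nat_lit 0, false, false⟩,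
 nat_lit 0, nat_lit 0, nat_lit 12003, nat_lit 0, nat_lit 5194, nat_lit 7637, nat_lit 0, nat_lit 0, nat_lit 0, nat_lit 718, nat_lit 0, nat_lit 0, nat_lit 0, nat_lit 0, nat_lit 0, nat_lit 0, nat_lit 0, nat_lit 0, [],
 ⟨p121_k9, nat_lit 0, nat_lit 0, nat_lit 128, nat_lit 0, nat_lit 0, [nat_lit 938000000, nat_lit 3282000000, nat_lit 6250000000], [], [nat_lit 28790101420, nat_lit 30272914576, nat_lit 34701612411, nat_lit 35910404869, nat_lit 28768537400, nat_lit 30095364685, nat_lit 33944860683, nat_lit 35034814829], nat_lit 0, nat_lit 0, nat_lit 0, nat_lit 0, nat_lit 0, nat_lit 0, [], [nat_lit 20, nat_lit 40, nat_lit 40, nat_lit 80, nat_lit 16, nat_lit 260, nat_lit 50, nat_lit 8]⟩, ⟨p121_k1, nat_lit 0, nat_lit 0, nat_lit 490, nat_lit 0, nat_lit 515508, [nat_lit 3282000000, nat_lit 6250000000, nat_lit 11872000000], [], [nat_lit 33732995504, nat_lit 34306039848, nat_lit 37821513411, nat_lit 38696968142, nat_lit 29139921416,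 nat_lit 29447800973, nat_lit 32366162273, nat_lit 32875541393], nat_lit 1271250, nat_lit 1271250, nat_lit 1271250, nat_lit 1271250, nat_lit 0, nat_lit 2118750, [nat_lit 780000, nat_lit 1435000, nat_lit 1271250], [nat_lit 23, nat_lit 40, nat_lit 40, nat_lit 80, nat_lit 12, nat_lit 483, nat_lit 250, nat_lit 12]⟩,
 zbF0, [⟨nat_lit 0, nat_lit 90, nat_lit 32, nat_lit 100, nat_lit 155484577⟩, ⟨nat_lit 4, nat_lit 100, nat_lit 34, nat_lit 82, nat_lit 560974479⟩, ⟨nat_lit 7, nat_lit 100, nat_lit 97, nat_lit 82, nat_lit 105046096⟩]⟩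
noncomputable def p121_l20 : Lf2 := ⟨nat_lit 0, nat_lit 20, [nat_lit 5, nat_lit 5, nat_lit 5, nat_lit 20], false, nat_lit 80, nat_lit 200, nat_lit 0, nat_lit 280, ⟨nat_lit 1000, nat_lit 0, nat_lit 0, nat_lit 0, nat_lit 0, nat_lit 0, nat_lit 0, nat_lit 0, nat_lit 0, nat_lit 0, nat_lit 0, nat_lit 0, nat_lit 0, nat_lit 0, nat_lit 0, nat_lit 0, false, false⟩,
 nat_lit 0, nat_lit 0, nat_lit 8902, nat_lit 0, nat_lit 6209, nat_lit 6162, nat_lit 0, nat_lit 0, nat_lit 0, nat_lit 701, nat_lit 0, nat_lit 0, nat_lit 0, nat_lit 0, nat_lit 0, nat_lit 0, nat_lit 0, nat_lit 0, [],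
 ⟨p121_k0, nat_lit 0, nat_lit 0, nat_lit 128, nat_lit 0, nat_lit 0, [nat_lit 938000000, nat_lit 3282000000, nat_lit 6250000000], [], [nat_lit 26649169656, nat_lit 28494760084, nat_lit 35370361688, nat_lit 36602796498, nat_lit 27103227582, nat_lit 28645742837, nat_lit 34358920320, nat_lit 35401949467], nat_lit 0, nat_lit 0, nat_lit 0, nat_lit 0, nat_lit 0, nat_lit 0, [], [nat_lit 20, nat_lit 40, nat_lit 40, nat_lit 80, nat_lit 16, nat_lit 260, nat_lit 50, nat_lit 8]⟩, ⟨p121_k4, nat_lit 0, nat_lit 0, nat_lit 451, nat_lit 0, nat_lit 566623, [nat_lit 3282000000, nat_lit 6250000000, nat_lit 9842000000], [], [nat_lit 31745171335, nat_lit 32438143459, nat_lit 36573030582, nat_lit 37716144738, nat_lit 29502399653, nat_lit 29843013523, nat_lit 32812559216, nat_lit 33252535616], nat_lit 1271250, nat_lit 1271250, nat_lit 1271250, nat_lit 1271250, nat_lit 0, nat_lit 1977500, [nat_lit 780000, nat_lit 1435000, nat_lit 1271250],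 [nat_lit 8, nat_lit 40, nat_lit 40, nat_lit 80, nat_lit 1, nat_lit 401, nat_lit 175, nat_lit 11]⟩,
 zbF0, [⟨nat_lit 4, nat_lit 100, nat_lit 54, nat_lit 73, nat_lit 461794395⟩, ⟨nat_lit 7, nat_lit 100, nat_lit 85, nat_lit 73, nat_lit 168094935⟩]⟩
noncomputable def p121_l21 : Lf2 := ⟨nat_lit 0, nat_lit 20, [nat_lit 5, nat_lit 5, nat_lit 5, nat_lit 20], false, nat_lit 80, nat_lit 164, nat_lit 0, nat_lit 280, ⟨nat_lit 1000, nat_lit 0, nat_lit 0, nat_lit 0, nat_lit 0, nat_lit 0, nat_lit 0, nat_lit 0, nat_lit 0, nat_lit 0, nat_lit 0, nat_lit 0, nat_lit 0, nat_lit 0, nat_lit 0, nat_lit 0, false, false⟩,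
 nat_lit 0, nat_lit 0, nat_lit 9453, nat_lit 0, nat_lit 5194, nat_lit 6544, nat_lit 0, nat_lit 0, nat_lit 0, nat_lit 678, nat_lit 0, nat_lit 0, nat_lit 0, nat_lit 0, nat_lit 0, nat_lit 0, nat_lit 0, nat_lit 0, [],
 ⟨p121_k9, nat_lit 0, nat_lit 0, nat_lit 131, nat_lit 0, nat_lit 0, [nat_lit 938000000, nat_lit 3282000000, nat_lit 6250000000], [], [nat_lit 28790101420, nat_lit 30272914576, nat_lit 35401881906, nat_lit 36568997732, nat_lit 28768537400, nat_lit 30095364685, nat_lit 34576902395, nat_lit 35630305250], nat_lit 0, nat_lit 0, nat_lit 0, nat_lit 0, nat_lit 0, nat_lit 0, [], [nat_lit 20, nat_lit 40, nat_lit 40, nat_lit 80, nat_lit 16, nat_lit 260, nat_lit 50, nat_lit 8]⟩, ⟨p121_k4, nat_lit 0, nat_lit 0, nat_lit 567, nat_lit 0, nat_lit 827374, [nat_lit 3282000000, nat_lit 6250000000, nat_lit 9842000000], [], [nat_lit 32475937180, nat_lit 33018436060, nat_lit 36186537220, nat_lit 37510844432, nat_lit 29467610346,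 nat_lit 29776226370, nat_lit 32034661228, nat_lit 32834192272], nat_lit 1271250, nat_lit 1271250, nat_lit 1271250, nat_lit 1271250, nat_lit 0, nat_lit 1977500, [nat_lit 780000, nat_lit 1435000, nat_lit 1271250], [nat_lit 8, nat_lit 40, nat_lit 40, nat_lit 80, nat_lit 1, nat_lit 401, nat_lit 175, nat_lit 11]⟩,
 zbF0, [⟨nat_lit 4, nat_lit 100, nat_lit 35, nat_lit 80, nat_lit 2179301867⟩, ⟨nat_lit 7, nat_lit 100, nat_lit 85, nat_lit 73, nat_lit 189920395⟩]⟩
noncomputable def b_V_900_700_10_24 : St := ⟨true, nat_lit 0, nat_lit 2, nat_lit 1, nat_lit 80, nat_lit 360, nat_lit 400, nat_lit 280, nat_lit 320, nat_lit 152, nat_lit 392, nat_lit 40, nat_lit 80, nat_lit 0, nat_lit 200, nat_lit 0, nat_lit 300, nat_lit 120, nat_lit 160, nat_lit 0, nat_lit 0, nat_lit 0, nat_lit 0⟩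
theorem d_V_900_700_10_24 (h : EB TB.env) : Dead b_V_900_700_10_24 := chkB_sound0 h (T :=
(.st (nat_lit 1)
(.leaf p121_l0)
(.spl (nat_lit 2) (nat_lit 240)
(.spl (nat_lit 4) (nat_lit 80)
(.spl (nat_lit 1) (nat_lit 300)
(.spl (nat_lit 0) (nat_lit 380)
(.leaf p121_l1)
(.trZ (nat_lit 0) (nat_lit 92) (nat_lit 44) (nat_lit 100) (nat_lit 192) (.leaf p121_l2)))
(.trZ (nat_lit 0) (nat_lit 87) (nat_lit 60) (nat_lit 100) (nat_lit 176) (.trX (nat_lit 19) (nat_lit 94) (nat_lit 100) (nat_lit 87) (nat_lit 280) (.leaf p121_l3))))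
(.spl (nat_lit 1) (nat_lit 300)
(.spl (nat_lit 0) (nat_lit 380)
(.leaf p121_l4)
(.trZ (nat_lit 0) (nat_lit 92) (nat_lit 44) (nat_lit 100) (nat_lit 192) (.trX (nat_lit 16) (nat_lit 44) (nat_lit 100) (nat_lit 82) (nat_lit 164) (.leaf p121_l5))))
(.trZ (nat_lit 0) (nat_lit 87) (nat_lit 60) (nat_lit 100) (nat_lit 176) (.trX (nat_lit 19) (nat_lit 94) (nat_lit 100) (nat_lit 87) (nat_lit 280) (.leaf p121_l6)))))
(.spl (nat_lit 4) (nat_lit 80)
(.spl (nat_lit 0) (nat_lit 380)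
(.spl (nat_lit 1) (nat_lit 300)
(.trX (nat_lit 13) (nat_lit 69) (nat_lit 45) (nat_lit 100) (nat_lit 384) (.spl (nat_lit 0) (nat_lit 370)
(.leaf p121_l7)
(.trX (nat_lit 13) (nat_lit 61) (nat_lit 55) (nat_lit 100) (nat_lit 380) (.leaf p121_l8))))
(.trX (nat_lit 19) (nat_lit 94) (nat_lit 100) (nat_lit 87) (nat_lit 280) (.leaf p121_l9)))
(.trX (nat_lit 13) (nat_lit 54) (nat_lit 57) (nat_lit 100) (nat_lit 380) (.spl (nat_lit 1) (nat_lit 300)
(.trX (nat_lit 13) (nat_lit 50) (nat_lit 65) (nat_lit 100) (nat_lit 368) (.spl (nat_lit 3) (nat_lit 60)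
(.trX (nat_lit 19) (nat_lit 99) (nat_lit 100) (nat_lit 77) (nat_lit 276) (.spl (nat_lit 0) (nat_lit 390)
(.leaf p121_l10)
(.trX (nat_lit 13) (nat_lit 36) (nat_lit 77) (nat_lit 100) (nat_lit 352) (.trZ (nat_lit 3) (nat_lit 100) (nat_lit 52) (nat_lit 53) (nat_lit 8) (.leaf p121_l11)))))
(.trZ (nat_lit 3) (nat_lit 100) (nat_lit 61) (nat_lit 47) (nat_lit 8) (.spl (nat_lit 0) (nat_lit 390)
(.leaf p121_l12)
(.trX (nat_lit 13) (nat_lit 36) (nat_lit 77) (nat_lit 100) (nat_lit 352) (.trZ (nat_lit 3) (nat_lit 100) (nat_lit 44) (nat_lit 64) (nat_lit 20) (.leaf p121_l13)))))))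
(.trX (nat_lit 19) (nat_lit 94) (nat_lit 100) (nat_lit 87) (nat_lit 280) (.spl (nat_lit 0) (nat_lit 390)
(.leaf p121_l14)
(.trX (nat_lit 13) (nat_lit 39) (nat_lit 72) (nat_lit 100) (nat_lit 364) (.trZ (nat_lit 3) (nat_lit 100) (nat_lit 52) (nat_lit 53) (nat_lit 8) (.leaf p121_l15))))))))
(.spl (nat_lit 1) (nat_lit 300)
(.trX (nat_lit 13) (nat_lit 69) (nat_lit 45) (nat_lit 100) (nat_lit 384) (.spl (nat_lit 3) (nat_lit 60)
(.trX (nat_lit 16) (nat_lit 61) (nat_lit 100) (nat_lit 72) (nat_lit 176) (.trX (nat_lit 19) (nat_lit 99) (nat_lit 100) (nat_lit 77) (nat_lit 276) (.spl (nat_lit 0) (nat_lit 380)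
(.leaf p121_l16)
(.trX (nat_lit 13) (nat_lit 50) (nat_lit 65) (nat_lit 100) (nat_lit 368) (.trX (nat_lit 16) (nat_lit 46) (nat_lit 100) (nat_lit 75) (nat_lit 140) (.leaf p121_l17))))))
(.spl (nat_lit 0) (nat_lit 380)
(.leaf p121_l18)
(.trX (nat_lit 13) (nat_lit 50) (nat_lit 65) (nat_lit 100) (nat_lit 368) (.trX (nat_lit 16) (nat_lit 44) (nat_lit 100) (nat_lit 82) (nat_lit 164) (.leaf p121_l19))))))
(.trX (nat_lit 19) (nat_lit 94) (nat_lit 100) (nat_lit 87) (nat_lit 280) (.spl (nat_lit 0) (nat_lit 380)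
(.leaf p121_l20)
(.trX (nat_lit 13) (nat_lit 54) (nat_lit 57) (nat_lit 100) (nat_lit 380) (.trX (nat_lit 16) (nat_lit 44) (nat_lit 100) (nat_lit 82) (nat_lit 164) (.leaf p121_l21)))))))))) (by decide +kernel)
noncomputable def p121_l22 : Lf2 := ⟨nat_lit 0, nat_lit 20, [nat_lit 5, nat_lit 5, nat_lit 5, nat_lit 20], false, nat_lit 0, nat_lit 200, nat_lit 0, nat_lit 300, ⟨nat_lit 1000, nat_lit 0, nat_lit 0, nat_lit 0, nat_lit 0, nat_lit 0, nat_lit 0, nat_lit 0, nat_lit 0, nat_lit 0, nat_lit 0, nat_lit 0, nat_lit 0, nat_lit 0, nat_lit 0, nat_lit 0, false, false⟩,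
 nat_lit 0, nat_lit 0, nat_lit 0, nat_lit 5372, nat_lit 6063, nat_lit 11710, nat_lit 0, nat_lit 0, nat_lit 0, nat_lit 0, nat_lit 0, nat_lit 0, nat_lit 0, nat_lit 0, nat_lit 0, nat_lit 0, nat_lit 0, nat_lit 0, [],
 ⟨p121_k0, nat_lit 0, nat_lit 0, nat_lit 200, nat_lit 0, nat_lit 0, [nat_lit 938000000, nat_lit 3282000000, nat_lit 6250000000], [], [nat_lit 31309675408, nat_lit 34882658696, nat_lit 40450620540, nat_lit 43384639110, nat_lit 28796144143, nat_lit 31600346041, nat_lit 35905168617, nat_lit 37566448356], nat_lit 0, nat_lit 0, nat_lit 0, nat_lit 0, nat_lit 0, nat_lit 0, [], [nat_lit 20, nat_lit 40, nat_lit 40, nat_lit 80, nat_lit 16, nat_lit 373, nat_lit 150, nat_lit 14]⟩, ⟨p121_k1, nat_lit 0, nat_lit 0, nat_lit 239, nat_lit 0, nat_lit 0, [nat_lit 3282000000, nat_lit 6250000000, nat_lit 11872000000], [], [nat_lit 36169802592, nat_lit 40502843289, nat_lit 50937529001, nat_lit 52789746921, nat_lit 31371383224,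 nat_lit 33794541867, nat_lit 38683362727, nat_lit 40142199119], nat_lit 0, nat_lit 0, nat_lit 0, nat_lit 0, nat_lit 0, nat_lit 0, [], [nat_lit 23, nat_lit 40, nat_lit 40, nat_lit 80, nat_lit 12, nat_lit 538, nat_lit 300, nat_lit 14]⟩,
 zbF0, [⟨nat_lit 0, nat_lit 87, nat_lit 44, nat_lit 100, nat_lit 282125806⟩, ⟨nat_lit 16, nat_lit 46, nat_lit 100, nat_lit 75, nat_lit 59917967⟩]⟩
noncomputable def p121_l23 : Lf2 := ⟨nat_lit 0, nat_lit 20, [nat_lit 5, nat_lit 5, nat_lit 5, nat_lit 20], true, nat_lit 0, nat_lit 200, nat_lit 0, nat_lit 300, ⟨nat_lit 0, nat_lit 1000, nat_lit 0, nat_lit 7, nat_lit 242, nat_lit 1000, nat_lit 67, nat_lit 0, nat_lit 0, nat_lit 0, nat_lit 0, nat_lit 0, nat_lit 0, nat_lit 0, nat_lit 0, nat_lit 5000000, false, false⟩,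
 nat_lit 0, nat_lit 0, nat_lit 0, nat_lit 4902, nat_lit 3740, nat_lit 0, nat_lit 0, nat_lit 0, nat_lit 0, nat_lit 0, nat_lit 0, nat_lit 0, nat_lit 0, nat_lit 0, nat_lit 0, nat_lit 250000, nat_lit 0, nat_lit 0, [(nat_lit 25, [(nat_lit 0, nat_lit 1000)]), (nat_lit 28, [(nat_lit 0, nat_lit 1000)])],
 ⟨p121_k0, nat_lit 0, nat_lit 0, nat_lit 155, nat_lit 0, nat_lit 0, [nat_lit 781600001, nat_lit 1368800000, nat_lit 2118000000], [], [nat_lit 22853741264, nat_lit 26261760433, nat_lit 25253221120, nat_lit 28179982320, nat_lit 22587291513, nat_lit 25304941928, nat_lit 24581020520, nat_lit 26936733120], nat_lit 0, nat_lit 0, nat_lit 0, nat_lit 0, nat_lit 0, nat_lit 0, [], [nat_lit 20, nat_lit 40, nat_lit 40, nat_lit 80, nat_lit 16, nat_lit 345, nat_lit 125, nat_lit 13]⟩, C1.Rw.none,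
 ⟨nat_lit 0, nat_lit 3163, ⟨.ofNat (nat_lit 507176), .ofNat (nat_lit 646918), .ofNat (nat_lit 548877), .ofNat (nat_lit 688618), .ofNat (nat_lit 531701), .ofNat (nat_lit 647345), .ofNat (nat_lit 579091), .ofNat (nat_lit 694736)⟩, ⟨.ofNat (nat_lit 0), .ofNat (nat_lit 322753), .ofNat (nat_lit 0), .ofNat (nat_lit 367065), .ofNat (nat_lit 0), .ofNat (nat_lit 299993), .ofNat (nat_lit 0), .ofNat (nat_lit 349995)⟩⟩, [⟨nat_lit 0, nat_lit 87, nat_lit 44, nat_lit 100, nat_lit 136480863⟩, ⟨nat_lit 4, nat_lit 100, nat_lit 46, nat_lit 75, nat_lit 92824115⟩]⟩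
noncomputable def p121_l24 : Lf2 := ⟨nat_lit 0, nat_lit 20, [nat_lit 5, nat_lit 5, nat_lit 5, nat_lit 20], true, nat_lit 0, nat_lit 200, nat_lit 0, nat_lit 300, ⟨nat_lit 0, nat_lit 1000, nat_lit 0, nat_lit 7, nat_lit 304, nat_lit 1000, nat_lit 67, nat_lit 0, nat_lit 0, nat_lit 0, nat_lit 0, nat_lit 0, nat_lit 0, nat_lit 0, nat_lit 0, nat_lit 5000000, true, true⟩,
 nat_lit 0, nat_lit 0, nat_lit 0, nat_lit 5142, nat_lit 3635, nat_lit 0, nat_lit 0, nat_lit 0, nat_lit 0, nat_lit 0, nat_lit 0, nat_lit 0, nat_lit 0, nat_lit 0, nat_lit 0, nat_lit 250000, nat_lit 0, nat_lit 0, [(nat_lit 25, [(nat_lit 0, nat_lit 1000)]), (nat_lit 28, [(nat_lit 0, nat_lit 1000)])],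
 ⟨p121_k0, nat_lit 0, nat_lit 0, nat_lit 196, nat_lit 0, nat_lit 0, [nat_lit 781600001, nat_lit 1368800000, nat_lit 2118000000], [], [nat_lit 26637112320, nat_lit 28965468020, nat_lit 32538271141, nat_lit 35003385325, nat_lit 26253850730, nat_lit 28140589980, nat_lit 30828073507, nat_lit 32238124734], nat_lit 0, nat_lit 0, nat_lit 0, nat_lit 0, nat_lit 0, nat_lit 0, [], [nat_lit 20, nat_lit 40, nat_lit 40, nat_lit 80, nat_lit 16, nat_lit 260, nat_lit 50, nat_lit 9]⟩, C1.Rw.none,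
 ⟨nat_lit 0, nat_lit 3163, ⟨.ofNat (nat_lit 646918), .ofNat (nat_lit 869001), .ofNat (nat_lit 667768), .ofNat (nat_lit 891156), .ofNat (nat_lit 647345), .ofNat (nat_lit 829996), .ofNat (nat_lit 671040), .ofNat (nat_lit 854997)⟩, ⟨.ofNat (nat_lit 0), .ofNat (nat_lit 322753), .ofNat (nat_lit 0), .ofNat (nat_lit 367065), .ofNat (nat_lit 0), .ofNat (nat_lit 299993), .ofNat (nat_lit 0), .ofNat (nat_lit 349995)⟩⟩, [⟨nat_lit 13, nat_lit 49, nat_lit 68, nat_lit 100, nat_lit 198171804⟩, ⟨nat_lit 13, nat_lit 69, nat_lit 45, nat_lit 100, nat_lit 176028795⟩, ⟨nat_lit 4, nat_lit 100, nat_lit 46, nat_lit 75, nat_lit 8600606⟩]⟩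
noncomputable def p121_l25 : Lf2 := ⟨nat_lit 0, nat_lit 20, [nat_lit 5, nat_lit 5, nat_lit 5, nat_lit 20], false, nat_lit 0, nat_lit 200, nat_lit 0, nat_lit 280, ⟨nat_lit 269, nat_lit 731, nat_lit 0, nat_lit 7, nat_lit 315, nat_lit 731, nat_lit 67, nat_lit 0, nat_lit 0, nat_lit 0, nat_lit 0, nat_lit 0, nat_lit 0, nat_lit 0, nat_lit 0, nat_lit 5000000, true, true⟩,
 nat_lit 0, nat_lit 0, nat_lit 2520, nat_lit 0, nat_lit 3979, nat_lit 1744, nat_lit 0, nat_lit 0, nat_lit 0, nat_lit 161, nat_lit 0, nat_lit 0, nat_lit 0, nat_lit 0, nat_lit 0, nat_lit 182750, nat_lit 0, nat_lit 0, [(nat_lit 25, [(nat_lit 0, nat_lit 731)]), (nat_lit 28, [(nat_lit 0, nat_lit 731)])],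
 ⟨p121_k0, nat_lit 0, nat_lit 0, nat_lit 200, nat_lit 0, nat_lit 0, [nat_lit 823671601, nat_lit 1883450800, nat_lit 3229508000], [], [nat_lit 28625668928, nat_lit 31055924308, nat_lit 34755205420, nat_lit 36593051497, nat_lit 27869224442, nat_lit 29829631292, nat_lit 32855385662, nat_lit 34278092415], nat_lit 0, nat_lit 0, nat_lit 0, nat_lit 0, nat_lit 0, nat_lit 0, [], [nat_lit 20, nat_lit 40, nat_lit 40, nat_lit 80, nat_lit 16, nat_lit 260, nat_lit 50, nat_lit 9]⟩, ⟨p121_k4, nat_lit 0, nat_lit 0, nat_lit 567, nat_lit 0, nat_lit 827374, [nat_lit 882858000, nat_lit 1681250000, nat_lit 2647498000], [], [nat_lit 9208931246, nat_lit 9354577238, nat_lit 10239418126, nat_lit 10387006440, nat_lit 8412655119, nat_lit 8501292156, nat_lit 9027851665, nat_lit 9075499264], nat_lit 1271250, nat_lit 1271250, nat_lit 1271250, nat_lit 1271250, nat_lit 0, nat_lit 1977500, [nat_lit 780000, nat_lit 1435000, nat_lit 1271250], [nat_lit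 8, nat_lit 40, nat_lit 40, nat_lit 80, nat_lit 1, nat_lit 401, nat_lit 175, nat_lit 11]⟩,
 ⟨nat_lit 0, nat_lit 3163, ⟨.ofNat (nat_lit 667768), .ofNat (nat_lit 903347), .ofNat (nat_lit 688618), .ofNat (nat_lit 925502), .ofNat (nat_lit 671040), .ofNat (nat_lit 864997), .ofNat (nat_lit 694736), .ofNat (nat_lit 889997)⟩, ⟨.ofNat (nat_lit 0), .ofNat (nat_lit 322753), .ofNat (nat_lit 0), .ofNat (nat_lit 367065), .ofNat (nat_lit 0), .ofNat (nat_lit 299993), .ofNat (nat_lit 0), .ofNat (nat_lit 349995)⟩⟩, [⟨nat_lit 13, nat_lit 52, nat_lit 61, nat_lit 100, nat_lit 218132309⟩, ⟨nat_lit 16, nat_lit 46, nat_lit 100, nat_lit 75, nat_lit 106666247⟩, ⟨nat_lit 7, nat_lit 100, nat_lit 85, nat_lit 73, nat_lit 37956253⟩]⟩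
noncomputable def b_V_900_700_10_25 : St := ⟨true, nat_lit 0, nat_lit 2, nat_lit 2, nat_lit 80, nat_lit 360, nat_lit 400, nat_lit 280, nat_lit 320, nat_lit 152, nat_lit 392, nat_lit 40, nat_lit 80, nat_lit 0, nat_lit 200, nat_lit 0, nat_lit 300, nat_lit 120, nat_lit 160, nat_lit 0, nat_lit 0, nat_lit 0, nat_lit 0⟩
theorem d_V_900_700_10_25 (h : EB TB.env) : Dead b_V_900_700_10_25 := chkB_sound0 h (T :=
(.st (nat_lit 1)
(.leaf p121_l22)
(.spl (nat_lit 2) (nat_lit 240)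
(.leaf p121_l23)
(.spl (nat_lit 1) (nat_lit 300)
(.trX (nat_lit 13) (nat_lit 69) (nat_lit 45) (nat_lit 100) (nat_lit 384) (.leaf p121_l24))
(.trX (nat_lit 19) (nat_lit 94) (nat_lit 100) (nat_lit 87) (nat_lit 280) (.leaf p121_l25)))))) (by decide +kernel)
noncomputable def p121_l26 : Lf2 := ⟨nat_lit 0, nat_lit 20, [nat_lit 5, nat_lit 5, nat_lit 5, nat_lit 20], false, nat_lit 0, nat_lit 200, nat_lit 0, nat_lit 300, ⟨nat_lit 1000, nat_lit 0, nat_lit 0, nat_lit 0, nat_lit 0, nat_lit 0, nat_lit 0, nat_lit 0, nat_lit 0, nat_lit 0, nat_lit 0, nat_lit 0, nat_lit 0, nat_lit 0, nat_lit 0, nat_lit 0, false, false⟩,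
 nat_lit 0, nat_lit 5618, nat_lit 0, nat_lit 0, nat_lit 4893, nat_lit 10212, nat_lit 256, nat_lit 0, nat_lit 0, nat_lit 0, nat_lit 0, nat_lit 0, nat_lit 0, nat_lit 0, nat_lit 0, nat_lit 0, nat_lit 0, nat_lit 0, [],
 ⟨p121_k0, nat_lit 0, nat_lit 0, nat_lit 355, nat_lit 0, nat_lit 545471, [nat_lit 938000000, nat_lit 3282000000, nat_lit 6250000000], [], [nat_lit 31865533704, nat_lit 34100818752, nat_lit 38052149424, nat_lit 39571703646, nat_lit 30738839620, nat_lit 32524636304, nat_lit 35689892425, nat_lit 36825256367], nat_lit 1271250, nat_lit 1271250, nat_lit 1033601, nat_lit 3070600, nat_lit 0, nat_lit 1412500, [nat_lit 230000, nat_lit 780000, nat_lit 1435000], [nat_lit 20, nat_lit 40, nat_lit 40, nat_lit 80, nat_lit 16, nat_lit 373, nat_lit 150, nat_lit 14]⟩, ⟨p121_k1, nat_lit 0, nat_lit 0, nat_lit 239, nat_lit 0, nat_lit 0, [nat_lit 3282000000, nat_lit 6250000000, nat_lit 11872000000], [], [nat_lit 35583372743,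 nat_lit 39528854474, nat_lit 49322954640, nat_lit 51069785264, nat_lit 32231093813, nat_lit 34479300736, nat_lit 39323801768, nat_lit 40233352797], nat_lit 0, nat_lit 0, nat_lit 0, nat_lit 0, nat_lit 0, nat_lit 0, [], [nat_lit 23, nat_lit 40, nat_lit 40, nat_lit 80, nat_lit 12, nat_lit 538, nat_lit 300, nat_lit 14]⟩,
 zbF0, [⟨nat_lit 0, nat_lit 87, nat_lit 44, nat_lit 100, nat_lit 447450908⟩, ⟨nat_lit 16, nat_lit 46, nat_lit 100, nat_lit 75, nat_lit 338702846⟩]⟩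
noncomputable def p121_l27 : Lf2 := ⟨nat_lit 0, nat_lit 20, [nat_lit 5, nat_lit 5, nat_lit 5, nat_lit 20], false, nat_lit 0, nat_lit 200, nat_lit 0, nat_lit 300, ⟨nat_lit 1000, nat_lit 0, nat_lit 0, nat_lit 0, nat_lit 0, nat_lit 0, nat_lit 0, nat_lit 0, nat_lit 0, nat_lit 0, nat_lit 0, nat_lit 0, nat_lit 0, nat_lit 0, nat_lit 0, nat_lit 0, false, false⟩,
 nat_lit 8292, nat_lit 0, nat_lit 6576, nat_lit 0, nat_lit 7222, nat_lit 9461, nat_lit 0, nat_lit 0, nat_lit 0, nat_lit 174, nat_lit 0, nat_lit 0, nat_lit 0, nat_lit 0, nat_lit 0, nat_lit 0, nat_lit 0, nat_lit 0, [],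
 ⟨p121_k0, nat_lit 0, nat_lit 0, nat_lit 231, nat_lit 0, nat_lit 236435, [nat_lit 938000000, nat_lit 3282000000, nat_lit 6250000000], [], [nat_lit 30554835397, nat_lit 32553641933, nat_lit 32456327904, nat_lit 34151776324, nat_lit 26843500348, nat_lit 28400181532, nat_lit 28181766756, nat_lit 29509214406], nat_lit 1271250, nat_lit 1271250, nat_lit 1033601, nat_lit 1780500, nat_lit 0, nat_lit 1412500, [nat_lit 230000, nat_lit 780000, nat_lit 1435000], [nat_lit 20, nat_lit 40, nat_lit 40, nat_lit 80, nat_lit 16, nat_lit 345, nat_lit 125, nat_lit 13]⟩, ⟨p121_k1, nat_lit 0, nat_lit 0, nat_lit 402, nat_lit 0, nat_lit 354694, [nat_lit 3282000000, nat_lit 6250000000, nat_lit 11872000000], [], [nat_lit 42240747253, nat_lit 44253083230, nat_lit 42706716304, nat_lit 44332969672, nat_lit 36368416861, nat_lit 37462829645, nat_lit 35973597621, nat_lit 36703245957], nat_lit 1271250, nat_lit 1271250, nat_lit 1033601, nat_lit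 1780500, nat_lit 0, nat_lit 2118750, [nat_lit 780000, nat_lit 1435000, nat_lit 1271250], [nat_lit 23, nat_lit 40, nat_lit 40, nat_lit 80, nat_lit 12, nat_lit 456, nat_lit 225, nat_lit 12]⟩,
 zbF0, [⟨nat_lit 0, nat_lit 82, nat_lit 44, nat_lit 100, nat_lit 1183329962⟩, ⟨nat_lit 4, nat_lit 100, nat_lit 54, nat_lit 73, nat_lit 101908438⟩, ⟨nat_lit 7, nat_lit 100, nat_lit 90, nat_lit 74, nat_lit 80251719⟩]⟩
noncomputable def p121_l28 : Lf2 := ⟨nat_lit 0, nat_lit 20, [nat_lit 5, nat_lit 5, nat_lit 5, nat_lit 20], false, nat_lit 0, nat_lit 164, nat_lit 0, nat_lit 300, ⟨nat_lit 1000, nat_lit 0, nat_lit 0, nat_lit 0, nat_lit 0, nat_lit 0, nat_lit 0, nat_lit 0, nat_lit 0, nat_lit 0, nat_lit 0, nat_lit 0, nat_lit 0, nat_lit 0, nat_lit 0, nat_lit 0, false, false⟩,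
 nat_lit 4070, nat_lit 0, nat_lit 9811, nat_lit 0, nat_lit 3803, nat_lit 8833, nat_lit 474, nat_lit 0, nat_lit 0, nat_lit 680, nat_lit 0, nat_lit 0, nat_lit 0, nat_lit 0, nat_lit 0, nat_lit 0, nat_lit 0, nat_lit 0, [],
 ⟨p121_k9, nat_lit 0, nat_lit 0, nat_lit 255, nat_lit 0, nat_lit 309114, [nat_lit 938000000, nat_lit 3282000000, nat_lit 6250000000], [], [nat_lit 24913424019, nat_lit 26931070599, nat_lit 26501959150, nat_lit 28337224976, nat_lit 22956621610, nat_lit 24205699925, nat_lit 23968243809, nat_lit 25532794495], nat_lit 1271250, nat_lit 1271250, nat_lit 1271250, nat_lit 1271250, nat_lit 0, nat_lit 1133651, [nat_lit 230000, nat_lit 780000, nat_lit 1435000], [nat_lit 20, nat_lit 40, nat_lit 40, nat_lit 80, nat_lit 16, nat_lit 345, nat_lit 125, nat_lit 12]⟩, ⟨p121_k1, nat_lit 0, nat_lit 0, nat_lit 496, nat_lit 0, nat_lit 506197, [nat_lit 3282000000, nat_lit 6250000000, nat_lit 11872000000], [], [nat_lit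 32818648108, nat_lit 34609840042, nat_lit 33421535212, nat_lit 35004526916, nat_lit 28623257566, nat_lit 28463569058, nat_lit 27374104188, nat_lit 28958584211], nat_lit 1271250, nat_lit 1271250, nat_lit 1271250, nat_lit 1271250, nat_lit 0, nat_lit 2118750, [nat_lit 780000, nat_lit 1435000, nat_lit 1271250], [nat_lit 23, nat_lit 40, nat_lit 40, nat_lit 80, nat_lit 12, nat_lit 456, nat_lit 225, nat_lit 11]⟩,
 zbF0, [⟨nat_lit 0, nat_lit 88, nat_lit 32, nat_lit 100, nat_lit 1710117864⟩, ⟨nat_lit 4, nat_lit 100, nat_lit 35, nat_lit 80, nat_lit 233029003⟩, ⟨nat_lit 7, nat_lit 100, nat_lit 90, nat_lit 74, nat_lit 119854104⟩]⟩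
noncomputable def p121_l29 : Lf2 := ⟨nat_lit 0, nat_lit 20, [nat_lit 5, nat_lit 5, nat_lit 5, nat_lit 20], false, nat_lit 0, nat_lit 200, nat_lit 0, nat_lit 300, ⟨nat_lit 1000, nat_lit 0, nat_lit 0, nat_lit 0, nat_lit 0, nat_lit 0, nat_lit 0, nat_lit 0, nat_lit 0, nat_lit 0, nat_lit 0, nat_lit 0, nat_lit 0, nat_lit 0, nat_lit 0, nat_lit 0, false, false⟩,
 nat_lit 11625, nat_lit 0, nat_lit 0, nat_lit 0, nat_lit 5955, nat_lit 7397, nat_lit 0, nat_lit 0, nat_lit 0, nat_lit 705, nat_lit 0, nat_lit 0, nat_lit 0, nat_lit 0, nat_lit 0, nat_lit 0, nat_lit 0, nat_lit 0, [],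
 ⟨p121_k0, nat_lit 0, nat_lit 0, nat_lit 252, nat_lit 0, nat_lit 236435, [nat_lit 938000000, nat_lit 3282000000, nat_lit 6250000000], [], [nat_lit 33319874560, nat_lit 34827667610, nat_lit 40468529100, nat_lit 41493329532, nat_lit 30506023570, nat_lit 31611581715, nat_lit 36060182874, nat_lit 36884640911], nat_lit 1271250, nat_lit 1271250, nat_lit 1271250, nat_lit 1271250, nat_lit 0, nat_lit 1412500, [nat_lit 230000, nat_lit 780000, nat_lit 1435000], [nat_lit 20, nat_lit 40, nat_lit 40, nat_lit 80, nat_lit 16, nat_lit 260, nat_lit 50, nat_lit 9]⟩, ⟨p121_k1, nat_lit 0, nat_lit 0, nat_lit 395, nat_lit 0, nat_lit 354694, [nat_lit 3282000000, nat_lit 6250000000, nat_lit 11872000000], [], [nat_lit 34432761674, nat_lit 35570636602, nat_lit 39527500715, nat_lit 41076290459, nat_lit 30137869346, nat_lit 30752959015, nat_lit 33765906404, nat_lit 35289617803], nat_lit 1271250, nat_lit 1271250, nat_lit 1271250, nat_lit 1271250,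 nat_lit 0, nat_lit 2118750, [nat_lit 780000, nat_lit 1435000, nat_lit 1271250], [nat_lit 23, nat_lit 40, nat_lit 40, nat_lit 80, nat_lit 12, nat_lit 538, nat_lit 300, nat_lit 13]⟩,
 zbF0, [⟨nat_lit 4, nat_lit 100, nat_lit 54, nat_lit 73, nat_lit 192345357⟩, ⟨nat_lit 7, nat_lit 100, nat_lit 90, nat_lit 74, nat_lit 145916824⟩]⟩
noncomputable def p121_l30 : Lf2 := ⟨nat_lit 0, nat_lit 20, [nat_lit 5, nat_lit 5, nat_lit 5, nat_lit 20], false, nat_lit 0, nat_lit 164, nat_lit 0, nat_lit 300, ⟨nat_lit 1000, nat_lit 0, nat_lit 0, nat_lit 0, nat_lit 0, nat_lit 0, nat_lit 0, nat_lit 0, nat_lit 0, nat_lit 0, nat_lit 0, nat_lit 0, nat_lit 0, nat_lit 0, nat_lit 0, nat_lit 0, false, false⟩,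
 nat_lit 10901, nat_lit 0, nat_lit 0, nat_lit 0, nat_lit 3245, nat_lit 6937, nat_lit 481, nat_lit 0, nat_lit 0, nat_lit 712, nat_lit 0, nat_lit 0, nat_lit 0, nat_lit 0, nat_lit 0, nat_lit 0, nat_lit 0, nat_lit 0, [],
 ⟨p121_k9, nat_lit 0, nat_lit 0, nat_lit 283, nat_lit 0, nat_lit 309114, [nat_lit 938000000, nat_lit 3282000000, nat_lit 6250000000], [], [nat_lit 26012280355, nat_lit 26945995415, nat_lit 32343977335, nat_lit 33530959580, nat_lit 25790922896, nat_lit 26591070060, nat_lit 29934802236, nat_lit 30842724287], nat_lit 1271250, nat_lit 1271250, nat_lit 1271250, nat_lit 1271250, nat_lit 0, nat_lit 1133651, [nat_lit 230000, nat_lit 780000, nat_lit 1435000], [nat_lit 20, nat_lit 40, nat_lit 40, nat_lit 80, nat_lit 16, nat_lit 260, nat_lit 50, nat_lit 9]⟩, ⟨p121_k1, nat_lit 0, nat_lit 0, nat_lit 487, nat_lit 0, nat_lit 506197, [nat_lit 3282000000, nat_lit 6250000000, nat_lit 11872000000], [], [nat_lit 35161778604,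 nat_lit 36283910492, nat_lit 38837610338, nat_lit 39701601394, nat_lit 31438401316, nat_lit 32062517565, nat_lit 34132602906, nat_lit 34928061822], nat_lit 1271250, nat_lit 1271250, nat_lit 1271250, nat_lit 1271250, nat_lit 0, nat_lit 2118750, [nat_lit 780000, nat_lit 1435000, nat_lit 1271250], [nat_lit 23, nat_lit 40, nat_lit 40, nat_lit 80, nat_lit 12, nat_lit 483, nat_lit 250, nat_lit 12]⟩,
 zbF0, [⟨nat_lit 0, nat_lit 88, nat_lit 32, nat_lit 100, nat_lit 180842546⟩, ⟨nat_lit 4, nat_lit 100, nat_lit 35, nat_lit 80, nat_lit 487953945⟩, ⟨nat_lit 7, nat_lit 100, nat_lit 90, nat_lit 74, nat_lit 151924943⟩]⟩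
noncomputable def p121_l31 : Lf2 := ⟨nat_lit 0, nat_lit 20, [nat_lit 5, nat_lit 5, nat_lit 5, nat_lit 20], false, nat_lit 0, nat_lit 200, nat_lit 0, nat_lit 300, ⟨nat_lit 846, nat_lit 154, nat_lit 0, nat_lit 7, nat_lit 285, nat_lit 154, nat_lit 67, nat_lit 0, nat_lit 0, nat_lit 0, nat_lit 0, nat_lit 0, nat_lit 0, nat_lit 0, nat_lit 0, nat_lit 5000000, false, false⟩,
 nat_lit 0, nat_lit 4941, nat_lit 0, nat_lit 0, nat_lit 4303, nat_lit 8640, nat_lit 179, nat_lit 0, nat_lit 0, nat_lit 0, nat_lit 0, nat_lit 0, nat_lit 0, nat_lit 0, nat_lit 0, nat_lit 154000, nat_lit 0, nat_lit 0, [(nat_lit 25, [(nat_lit 2, nat_lit 154)]), (nat_lit 28, [(nat_lit 2, nat_lit 154)])],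
 ⟨p121_k0, nat_lit 0, nat_lit 0, nat_lit 355, nat_lit 0, nat_lit 545471, [nat_lit 1019681600, nat_lit 2717908267, nat_lit 4687084800], [], [nat_lit 29975795488, nat_lit 32056941785, nat_lit 36039602400, nat_lit 37648941318, nat_lit 29688517318, nat_lit 31333805206, nat_lit 34529055440, nat_lit 35589836834], nat_lit 1271250, nat_lit 1271250, nat_lit 1033601, nat_lit 3070600, nat_lit 0, nat_lit 1412500, [nat_lit 230000, nat_lit 780000, nat_lit 1435000], [nat_lit 20, nat_lit 40, nat_lit 40, nat_lit 80, nat_lit 16, nat_lit 373, nat_lit 150, nat_lit 14]⟩, ⟨p121_k1, nat_lit 0, nat_lit 0, nat_lit 239, nat_lit 0, nat_lit 0, [nat_lit 2776572000, nat_lit 5287500000, nat_lit 10043712000], [], [nat_lit 30103787016, nat_lit 33441832210, nat_lit 41727918053, nat_lit 43205782349, nat_lit 27267133475, nat_lit 29169192212, nat_lit 33267659257, nat_lit 34037141797], nat_lit 0, nat_lit 0, nat_lit 0, nat_lit 0, nat_lit 0, nat_lit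 0, [], [nat_lit 23, nat_lit 40, nat_lit 40, nat_lit 80, nat_lit 12, nat_lit 538, nat_lit 300, nat_lit 14]⟩,
 ⟨nat_lit 0, nat_lit 3163, ⟨.ofNat (nat_lit 507176), .ofNat (nat_lit 881191), .ofNat (nat_lit 548877), .ofNat (nat_lit 925502), .ofNat (nat_lit 531701), .ofNat (nat_lit 839996), .ofNat (nat_lit 579091), .ofNat (nat_lit 889997)⟩, ⟨.ofNat (nat_lit 0), .ofNat (nat_lit 322753), .ofNat (nat_lit 0), .ofNat (nat_lit 367065), .ofNat (nat_lit 0), .ofNat (nat_lit 299993), .ofNat (nat_lit 0), .ofNat (nat_lit 349995)⟩⟩, [⟨nat_lit 0, nat_lit 87, nat_lit 44, nat_lit 100, nat_lit 283453239⟩, ⟨nat_lit 4, nat_lit 100, nat_lit 46, nat_lit 75, nat_lit 361023301⟩]⟩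
noncomputable def p121_l32 : Lf2 := ⟨nat_lit 0, nat_lit 20, [nat_lit 5, nat_lit 5, nat_lit 5, nat_lit 20], false, nat_lit 0, nat_lit 200, nat_lit 0, nat_lit 300, ⟨nat_lit 492, nat_lit 508, nat_lit 0, nat_lit 7, nat_lit 287, nat_lit 508, nat_lit 69, nat_lit 0, nat_lit 0, nat_lit 0, nat_lit 0, nat_lit 0, nat_lit 0, nat_lit 0, nat_lit 0, nat_lit 5000000, false, false⟩,
 nat_lit 5633, nat_lit 0, nat_lit 0, nat_lit 0, nat_lit 4641, nat_lit 3584, nat_lit 0, nat_lit 0, nat_lit 0, nat_lit 280, nat_lit 0, nat_lit 0, nat_lit 0, nat_lit 0, nat_lit 0, nat_lit 127000, nat_lit 0, nat_lit 0, [(nat_lit 25, [(nat_lit 0, nat_lit 508)])],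
 ⟨p121_k0, nat_lit 0, nat_lit 0, nat_lit 252, nat_lit 0, nat_lit 236435, [nat_lit 849608000, nat_lit 2310094400, nat_lit 4150944000], [], [nat_lit 28114864324, nat_lit 29563689839, nat_lit 36488304580, nat_lit 37405264507, nat_lit 27351767905, nat_lit 28439031123, nat_lit 33939115768, nat_lit 34497323403], nat_lit 1271250, nat_lit 1271250, nat_lit 1033601, nat_lit 3070600, nat_lit 0, nat_lit 1412500, [nat_lit 230000, nat_lit 780000, nat_lit 1435000], [nat_lit 20, nat_lit 40, nat_lit 40, nat_lit 80, nat_lit 16, nat_lit 373, nat_lit 150, nat_lit 14]⟩, ⟨p121_k1, nat_lit 0, nat_lit 0, nat_lit 402, nat_lit 0, nat_lit 354694, [nat_lit 1614744000, nat_lit 3075000000, nat_lit 5841024000], [], [nat_lit 18102951140, nat_lit 18782738829, nat_lit 20634797847, nat_lit 21044250192, nat_lit 18400752061, nat_lit 16783847100, nat_lit 17525292311, nat_lit 17731729386], nat_lit 1271250, nat_lit 1271250, nat_lit 1271250, nat_lit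 1271250, nat_lit 0, nat_lit 2118750, [nat_lit 780000, nat_lit 1435000, nat_lit 1271250], [nat_lit 23, nat_lit 40, nat_lit 40, nat_lit 80, nat_lit 12, nat_lit 538, nat_lit 300, nat_lit 14]⟩,
 ⟨nat_lit 2236, nat_lit 3163, ⟨.ofNat (nat_lit 515097), .ofNat (nat_lit 881194), .ofNat (nat_lit 559279), .ofNat (nat_lit 925504), .ofNat (nat_lit 522299), .ofNat (nat_lit 864770), .ofNat (nat_lit 567721), .ofNat (nat_lit 910319)⟩, ⟨.ofNat (nat_lit 0), .ofNat (nat_lit 322759), .ofNat (nat_lit 0), .ofNat (nat_lit 367069), .ofNat (nat_lit 0), .ofNat (nat_lit 317804), .ofNat (nat_lit 0), .ofNat (nat_lit 363353)⟩⟩, [⟨nat_lit 4, nat_lit 100, nat_lit 54, nat_lit 73, nat_lit 96227116⟩, ⟨nat_lit 7, nat_lit 100, nat_lit 90, nat_lit 74, nat_lit 50326767⟩]⟩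
noncomputable def p121_l33 : Lf2 := ⟨nat_lit 0, nat_lit 20, [nat_lit 5, nat_lit 5, nat_lit 5, nat_lit 20], false, nat_lit 0, nat_lit 164, nat_lit 0, nat_lit 300, ⟨nat_lit 507, nat_lit 493, nat_lit 0, nat_lit 7, nat_lit 293, nat_lit 493, nat_lit 57, nat_lit 0, nat_lit 0, nat_lit 0, nat_lit 0, nat_lit 0, nat_lit 0, nat_lit 0, nat_lit 0, nat_lit 5000000, true, false⟩,
 nat_lit 5640, nat_lit 0, nat_lit 0, nat_lit 0, nat_lit 2924, nat_lit 3588, nat_lit 166, nat_lit 0, nat_lit 0, nat_lit 345, nat_lit 0, nat_lit 0, nat_lit 0, nat_lit 0, nat_lit 0, nat_lit 197200, nat_lit 0, nat_lit 0, [(nat_lit 28, [(nat_lit 1, nat_lit 493)])],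
 ⟨p121_k9, nat_lit 0, nat_lit 0, nat_lit 283, nat_lit 0, nat_lit 309114, [nat_lit 819482800, nat_lit 1824100400, nat_lit 3236784000], [], [nat_lit 26438456591, nat_lit 27401803290, nat_lit 31694147874, nat_lit 32511886016, nat_lit 26636952929, nat_lit 27462792585, nat_lit 31210192777, nat_lit 31814964662], nat_lit 1271250, nat_lit 1271250, nat_lit 1271250, nat_lit 1271250, nat_lit 0, nat_lit 1133651, [nat_lit 230000, nat_lit 780000, nat_lit 1435000], [nat_lit 20, nat_lit 40, nat_lit 40, nat_lit 80, nat_lit 16, nat_lit 373, nat_lit 150, nat_lit 14]⟩, ⟨p121_k1, nat_lit 0, nat_lit 0, nat_lit 496, nat_lit 0, nat_lit 506197, [nat_lit 1663974000, nat_lit 3168750000, nat_lit 6019104000], [], [nat_lit 17762811189, nat_lit 18403959614, nat_lit 19953847662, nat_lit 20402456628, nat_lit 15996646238, nat_lit 16357697559, nat_lit 17245707093, nat_lit 17514133973], nat_lit 1271250, nat_lit 1271250, nat_lit 1271250, nat_lit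 1271250, nat_lit 0, nat_lit 2118750, [nat_lit 780000, nat_lit 1435000, nat_lit 1271250], [nat_lit 23, nat_lit 40, nat_lit 40, nat_lit 80, nat_lit 12, nat_lit 483, nat_lit 250, nat_lit 12]⟩,
 ⟨nat_lit 0, nat_lit 2237, ⟨.ofNat (nat_lit 575619), .ofNat (nat_lit 847661), .ofNat (nat_lit 619314), .ofNat (nat_lit 893212), .ofNat (nat_lit 585925), .ofNat (nat_lit 824994), .ofNat (nat_lit 634072), .ofNat (nat_lit 874997)⟩, ⟨.ofNat (nat_lit 0), .ofNat (nat_lit 266484), .ofNat (nat_lit 0), .ofNat (nat_lit 312035), .ofNat (nat_lit 0), .ofNat (nat_lit 254993), .ofNat (nat_lit 0), .ofNat (nat_lit 304995)⟩⟩, [⟨nat_lit 4, nat_lit 100, nat_lit 35, nat_lit 80, nat_lit 302022108⟩, ⟨nat_lit 7, nat_lit 100, nat_lit 90, nat_lit 74, nat_lit 65071984⟩]⟩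
noncomputable def b_V_900_700_10_26 : St := ⟨true, nat_lit 1, nat_lit 2, nat_lit 0, nat_lit 80, nat_lit 360, nat_lit 400, nat_lit 280, nat_lit 320, nat_lit 152, nat_lit 392, nat_lit 40, nat_lit 80, nat_lit 0, nat_lit 200, nat_lit 0, nat_lit 300, nat_lit 120, nat_lit 160, nat_lit 0, nat_lit 0, nat_lit 0, nat_lit 0⟩
theorem d_V_900_700_10_26 (h : EB TB.env) : Dead b_V_900_700_10_26 := chkB_sound0 h (T :=
(.gv
(.st (nat_lit 1)
(.leaf p121_l26)
(.spl (nat_lit 2) (nat_lit 240)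
(.spl (nat_lit 0) (nat_lit 380)
(.leaf p121_l27)
(.trZ (nat_lit 0) (nat_lit 92) (nat_lit 44) (nat_lit 100) (nat_lit 192) (.trX (nat_lit 16) (nat_lit 44) (nat_lit 100) (nat_lit 82) (nat_lit 164) (.leaf p121_l28))))
(.spl (nat_lit 0) (nat_lit 380)
(.leaf p121_l29)
(.trX (nat_lit 13) (nat_lit 54) (nat_lit 57) (nat_lit 100) (nat_lit 380) (.trX (nat_lit 16) (nat_lit 44) (nat_lit 100) (nat_lit 82) (nat_lit 164) (.leaf p121_l30))))))
(.st (nat_lit 1)
(.leaf p121_l31)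
(.spl (nat_lit 0) (nat_lit 380)
(.leaf p121_l32)
(.trZ (nat_lit 0) (nat_lit 92) (nat_lit 44) (nat_lit 100) (nat_lit 192) (.trX (nat_lit 13) (nat_lit 54) (nat_lit 57) (nat_lit 100) (nat_lit 380) (.trX (nat_lit 16) (nat_lit 44) (nat_lit 100) (nat_lit 82) (nat_lit 164) (.leaf p121_l33)))))))) (by decide +kernel)
noncomputable def p121_l34 : Lf2 := ⟨nat_lit 0, nat_lit 20, [nat_lit 5, nat_lit 5, nat_lit 5, nat_lit 20], false, nat_lit 0, nat_lit 200, nat_lit 0, nat_lit 300, ⟨nat_lit 1000, nat_lit 0, nat_lit 0, nat_lit 0, nat_lit 0, nat_lit 0, nat_lit 0, nat_lit 0, nat_lit 0, nat_lit 0, nat_lit 0, nat_lit 0, nat_lit 0, nat_lit 0, nat_lit 0, nat_lit 0, false, false⟩,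
 nat_lit 0, nat_lit 0, nat_lit 0, nat_lit 8099, nat_lit 5976, nat_lit 10501, nat_lit 0, nat_lit 0, nat_lit 0, nat_lit 0, nat_lit 0, nat_lit 0, nat_lit 0, nat_lit 0, nat_lit 0, nat_lit 0, nat_lit 0, nat_lit 0, [],
 ⟨p121_k0, nat_lit 0, nat_lit 0, nat_lit 200, nat_lit 0, nat_lit 0, [nat_lit 938000000, nat_lit 3282000000, nat_lit 6250000000], [], [nat_lit 31366337255, nat_lit 34907445831, nat_lit 40465046881, nat_lit 43101113140, nat_lit 28942718784, nat_lit 31723713642, nat_lit 36030041213, nat_lit 37681361332], nat_lit 0, nat_lit 0, nat_lit 0, nat_lit 0, nat_lit 0, nat_lit 0, [], [nat_lit 20, nat_lit 40, nat_lit 40, nat_lit 80, nat_lit 16, nat_lit 373, nat_lit 150, nat_lit 14]⟩, ⟨p121_k1, nat_lit 0, nat_lit 0, nat_lit 239, nat_lit 0, nat_lit 0, [nat_lit 3282000000, nat_lit 6250000000, nat_lit 11872000000], [], [nat_lit 35696509076, nat_lit 39716760193, nat_lit 49634444620, nat_lit 51401606973, nat_lit 32065235095,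 nat_lit 34347194385, nat_lit 39200245771, nat_lit 40110853327], nat_lit 0, nat_lit 0, nat_lit 0, nat_lit 0, nat_lit 0, nat_lit 0, [], [nat_lit 23, nat_lit 40, nat_lit 40, nat_lit 80, nat_lit 12, nat_lit 538, nat_lit 300, nat_lit 14]⟩,
 zbF0, [⟨nat_lit 0, nat_lit 87, nat_lit 44, nat_lit 100, nat_lit 274083446⟩, ⟨nat_lit 4, nat_lit 100, nat_lit 46, nat_lit 75, nat_lit 222117869⟩]⟩
noncomputable def p121_l35 : Lf2 := ⟨nat_lit 0, nat_lit 15, [nat_lit 30, nat_lit 5, nat_lit 5, nat_lit 20], false, nat_lit 0, nat_lit 176, nat_lit 0, nat_lit 276, ⟨nat_lit 1000, nat_lit 0, nat_lit 0, nat_lit 0, nat_lit 0, nat_lit 0, nat_lit 0, nat_lit 0, nat_lit 0, nat_lit 0, nat_lit 0, nat_lit 0, nat_lit 0, nat_lit 0, nat_lit 0, nat_lit 0, false, false⟩,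
 nat_lit 0, nat_lit 0, nat_lit 14960, nat_lit 0, nat_lit 5797, nat_lit 9519, nat_lit 0, nat_lit 0, nat_lit 0, nat_lit 0, nat_lit 0, nat_lit 0, nat_lit 0, nat_lit 0, nat_lit 0, nat_lit 0, nat_lit 0, nat_lit 0, [],
 ⟨p121_k11, nat_lit 0, nat_lit 0, nat_lit 200, nat_lit 0, nat_lit 0, [nat_lit 938000000, nat_lit 3282000000, nat_lit 6250000000], [], [nat_lit 31482917377, nat_lit 34958444649, nat_lit 40494728660, nat_lit 42518395278, nat_lit 28756216868, nat_lit 31604724110, nat_lit 36169612651, nat_lit 37866119264], nat_lit 0, nat_lit 0, nat_lit 0, nat_lit 0, nat_lit 0, nat_lit 0, [], [nat_lit 20, nat_lit 40, nat_lit 40, nat_lit 80, nat_lit 16, nat_lit 373, nat_lit 150, nat_lit 14]⟩, ⟨p121_k7, nat_lit 0, nat_lit 0, nat_lit 298, nat_lit 0, nat_lit 168735, [nat_lit 3282000000, nat_lit 6250000000, nat_lit 9842000000], [], [nat_lit 36504944259, nat_lit 39166620253, nat_lit 45654715252, nat_lit 46838172827, nat_lit 34543893612,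 nat_lit 33539975080, nat_lit 36856102473, nat_lit 37490930894], nat_lit 1271250, nat_lit 1271250, nat_lit 1271250, nat_lit 1271250, nat_lit 0, nat_lit 1949250, [nat_lit 780000, nat_lit 1435000, nat_lit 1271250], [nat_lit 8, nat_lit 40, nat_lit 40, nat_lit 80, nat_lit 1, nat_lit 401, nat_lit 175, nat_lit 11]⟩,
 zbF0, [⟨nat_lit 0, nat_lit 87, nat_lit 44, nat_lit 100, nat_lit 432080761⟩, ⟨nat_lit 4, nat_lit 100, nat_lit 47, nat_lit 72, nat_lit 162877611⟩, ⟨nat_lit 7, nat_lit 100, nat_lit 88, nat_lit 67, nat_lit 9184334⟩]⟩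
noncomputable def p121_l36 : Lf2 := ⟨nat_lit 0, nat_lit 20, [nat_lit 5, nat_lit 5, nat_lit 5, nat_lit 20], false, nat_lit 0, nat_lit 200, nat_lit 0, nat_lit 300, ⟨nat_lit 1000, nat_lit 0, nat_lit 0, nat_lit 0, nat_lit 0, nat_lit 0, nat_lit 0, nat_lit 0, nat_lit 0, nat_lit 0, nat_lit 0, nat_lit 0, nat_lit 0, nat_lit 0, nat_lit 0, nat_lit 0, false, false⟩,
 nat_lit 0, nat_lit 0, nat_lit 16048, nat_lit 0, nat_lit 5797, nat_lit 10212, nat_lit 0, nat_lit 0, nat_lit 0, nat_lit 140, nat_lit 0, nat_lit 0, nat_lit 0, nat_lit 0, nat_lit 0, nat_lit 0, nat_lit 0, nat_lit 0, [],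
 ⟨p121_k0, nat_lit 0, nat_lit 0, nat_lit 200, nat_lit 0, nat_lit 0, [nat_lit 938000000, nat_lit 3282000000, nat_lit 6250000000], [], [nat_lit 31482917377, nat_lit 34958444649, nat_lit 40494728660, nat_lit 42518395278, nat_lit 29244291898, nat_lit 31977538936, nat_lit 36286962992, nat_lit 37917791477], nat_lit 0, nat_lit 0, nat_lit 0, nat_lit 0, nat_lit 0, nat_lit 0, [], [nat_lit 20, nat_lit 40, nat_lit 40, nat_lit 80, nat_lit 16, nat_lit 373, nat_lit 150, nat_lit 14]⟩, ⟨p121_k1, nat_lit 0, nat_lit 0, nat_lit 335, nat_lit 0, nat_lit 149743, [nat_lit 3282000000, nat_lit 6250000000, nat_lit 11872000000], [], [nat_lit 42502714184, nat_lit 44592584604, nat_lit 48909161193, nat_lit 49730470226, nat_lit 36071676463, nat_lit 36839785584, nat_lit 38156068535, nat_lit 38890665297], nat_lit 1271250, nat_lit 1271250, nat_lit 1271250, nat_lit 1271250, nat_lit 0, nat_lit 2118750, [nat_lit 780000, nat_lit 1435000, nat_lit 1271250],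 [nat_lit 23, nat_lit 40, nat_lit 40, nat_lit 80, nat_lit 12, nat_lit 538, nat_lit 300, nat_lit 14]⟩,
 zbF0, [⟨nat_lit 0, nat_lit 87, nat_lit 44, nat_lit 100, nat_lit 623463646⟩, ⟨nat_lit 4, nat_lit 100, nat_lit 45, nat_lit 79, nat_lit 115973408⟩]⟩
noncomputable def p121_l37 : Lf2 := ⟨nat_lit 0, nat_lit 20, [nat_lit 5, nat_lit 5, nat_lit 5, nat_lit 20], false, nat_lit 0, nat_lit 200, nat_lit 0, nat_lit 300, ⟨nat_lit 1000, nat_lit 0, nat_lit 0, nat_lit 0, nat_lit 0, nat_lit 0, nat_lit 0, nat_lit 0, nat_lit 0, nat_lit 0, nat_lit 0, nat_lit 0, nat_lit 0, nat_lit 0, nat_lit 0, nat_lit 0, false, false⟩,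
 nat_lit 0, nat_lit 0, nat_lit 0, nat_lit 8099, nat_lit 5976, nat_lit 10501, nat_lit 0, nat_lit 0, nat_lit 0, nat_lit 0, nat_lit 0, nat_lit 0, nat_lit 0, nat_lit 0, nat_lit 0, nat_lit 0, nat_lit 0, nat_lit 0, [],
 ⟨p121_k0, nat_lit 0, nat_lit 0, nat_lit 200, nat_lit 0, nat_lit 0, [nat_lit 938000000, nat_lit 3282000000, nat_lit 6250000000], [], [nat_lit 31366337255, nat_lit 34907445831, nat_lit 40465046881, nat_lit 43101113140, nat_lit 28942718784, nat_lit 31723713642, nat_lit 36030041213, nat_lit 37681361332], nat_lit 0, nat_lit 0, nat_lit 0, nat_lit 0, nat_lit 0, nat_lit 0, [], [nat_lit 20, nat_lit 40, nat_lit 40, nat_lit 80, nat_lit 16, nat_lit 373, nat_lit 150, nat_lit 14]⟩, ⟨p121_k1, nat_lit 0, nat_lit 0, nat_lit 239, nat_lit 0, nat_lit 0, [nat_lit 3282000000, nat_lit 6250000000, nat_lit 11872000000], [], [nat_lit 35696509076, nat_lit 39716760193, nat_lit 49634444620, nat_lit 51401606973, nat_lit 32065235095,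 nat_lit 34347194385, nat_lit 39200245771, nat_lit 40110853327], nat_lit 0, nat_lit 0, nat_lit 0, nat_lit 0, nat_lit 0, nat_lit 0, [], [nat_lit 23, nat_lit 40, nat_lit 40, nat_lit 80, nat_lit 12, nat_lit 538, nat_lit 300, nat_lit 14]⟩,
 zbF0, [⟨nat_lit 0, nat_lit 87, nat_lit 44, nat_lit 100, nat_lit 274083446⟩, ⟨nat_lit 4, nat_lit 100, nat_lit 46, nat_lit 75, nat_lit 222117869⟩]⟩
noncomputable def p121_l38 : Lf2 := ⟨nat_lit 0, nat_lit 20, [nat_lit 5, nat_lit 5, nat_lit 5, nat_lit 20], false, nat_lit 0, nat_lit 200, nat_lit 0, nat_lit 300, ⟨nat_lit 504, nat_lit 496, nat_lit 0, nat_lit 7, nat_lit 287, nat_lit 496, nat_lit 69, nat_lit 0, nat_lit 0, nat_lit 0, nat_lit 0, nat_lit 0, nat_lit 0, nat_lit 0, nat_lit 0, nat_lit 5000000, false, false⟩,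
 nat_lit 0, nat_lit 0, nat_lit 8093, nat_lit 0, nat_lit 4674, nat_lit 5150, nat_lit 0, nat_lit 0, nat_lit 0, nat_lit 71, nat_lit 0, nat_lit 0, nat_lit 0, nat_lit 0, nat_lit 0, nat_lit 124000, nat_lit 0, nat_lit 0, [(nat_lit 25, [(nat_lit 0, nat_lit 496)])],
 ⟨p121_k0, nat_lit 0, nat_lit 0, nat_lit 190, nat_lit 0, nat_lit 0, [nat_lit 851696000, nat_lit 2333052801, nat_lit 4200528000], [], [nat_lit 28115367106, nat_lit 29647410618, nat_lit 36582000520, nat_lit 37503619947, nat_lit 27037340116, nat_lit 28254184858, nat_lit 33799880208, nat_lit 34551014829], nat_lit 0, nat_lit 0, nat_lit 0, nat_lit 0, nat_lit 0, nat_lit 0, [], [nat_lit 20, nat_lit 40, nat_lit 40, nat_lit 80, nat_lit 16, nat_lit 373, nat_lit 150, nat_lit 14]⟩, ⟨p121_k1, nat_lit 0, nat_lit 0, nat_lit 335, nat_lit 0, nat_lit 149387, [nat_lit 1654128000, nat_lit 3150000000, nat_lit 5983488000], [], [nat_lit 21411290521, nat_lit 22464910630, nat_lit 24640418399,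 nat_lit 25061856437, nat_lit 18178694829, nat_lit 18553460052, nat_lit 19216086706, nat_lit 19595339386], nat_lit 1271250, nat_lit 1271250, nat_lit 1271250, nat_lit 1271250, nat_lit 0, nat_lit 2118750, [nat_lit 780000, nat_lit 1435000, nat_lit 1271250], [nat_lit 23, nat_lit 40, nat_lit 40, nat_lit 80, nat_lit 12, nat_lit 538, nat_lit 300, nat_lit 14]⟩,
 ⟨nat_lit 2236, nat_lit 3163, ⟨.ofNat (nat_lit 515097), .ofNat (nat_lit 881194), .ofNat (nat_lit 559279), .ofNat (nat_lit 925504), .ofNat (nat_lit 522299), .ofNat (nat_lit 864770), .ofNat (nat_lit 567721), .ofNat (nat_lit 910319)⟩, ⟨.ofNat (nat_lit 0), .ofNat (nat_lit 322759), .ofNat (nat_lit 0), .ofNat (nat_lit 367069), .ofNat (nat_lit 0), .ofNat (nat_lit 317804), .ofNat (nat_lit 0), .ofNat (nat_lit 363353)⟩⟩, [⟨nat_lit 16, nat_lit 54, nat_lit 100, nat_lit 73, nat_lit 96422849⟩]⟩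
noncomputable def p121_l39 : Lf2 := ⟨nat_lit 0, nat_lit 20, [nat_lit 5, nat_lit 5, nat_lit 5, nat_lit 20], false, nat_lit 0, nat_lit 164, nat_lit 0, nat_lit 300, ⟨nat_lit 302, nat_lit 698, nat_lit 0, nat_lit 7, nat_lit 293, nat_lit 698, nat_lit 57, nat_lit 0, nat_lit 0, nat_lit 0, nat_lit 0, nat_lit 0, nat_lit 0, nat_lit 0, nat_lit 0, nat_lit 5000000, true, false⟩,
 nat_lit 0, nat_lit 0, nat_lit 3648, nat_lit 0, nat_lit 3081, nat_lit 2321, nat_lit 135, nat_lit 0, nat_lit 0, nat_lit 159, nat_lit 0, nat_lit 0, nat_lit 0, nat_lit 0, nat_lit 0, nat_lit 174500, nat_lit 0, nat_lit 0, [(nat_lit 28, [(nat_lit 0, nat_lit 698)])],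
 ⟨p121_k9, nat_lit 0, nat_lit 0, nat_lit 194, nat_lit 0, nat_lit 0, [nat_lit 828832800, nat_lit 1747516801, nat_lit 3064038667], [], [nat_lit 25802749130, nat_lit 26973165624, nat_lit 31848913323, nat_lit 33010311404, nat_lit 25438686893, nat_lit 26417383206, nat_lit 30647502539, nat_lit 31344820184], nat_lit 0, nat_lit 0, nat_lit 0, nat_lit 0, nat_lit 0, nat_lit 0, [], [nat_lit 20, nat_lit 40, nat_lit 40, nat_lit 80, nat_lit 16, nat_lit 373, nat_lit 150, nat_lit 14]⟩, ⟨p121_k1, nat_lit 0, nat_lit 0, nat_lit 417, nat_lit 0, nat_lit 427877, [nat_lit 991164000, nat_lit 1887500000, nat_lit 3585344000], [], [nat_lit 11140602689, nat_lit 11531644588, nat_lit 12692195392, nat_lit 12959835344, nat_lit 9867675685, nat_lit 10080959944, nat_lit 10663009655, nat_lit 10795433044], nat_lit 1271250, nat_lit 1271250, nat_lit 1271250, nat_lit 1271250, nat_lit 0, nat_lit 2118750, [nat_lit 780000, nat_lit 1435000, nat_lit 1271250],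 [nat_lit 23, nat_lit 40, nat_lit 40, nat_lit 80, nat_lit 12, nat_lit 483, nat_lit 250, nat_lit 12]⟩,
 ⟨nat_lit 0, nat_lit 2237, ⟨.ofNat (nat_lit 575619), .ofNat (nat_lit 847661), .ofNat (nat_lit 619314), .ofNat (nat_lit 893212), .ofNat (nat_lit 585925), .ofNat (nat_lit 824994), .ofNat (nat_lit 634072), .ofNat (nat_lit 874997)⟩, ⟨.ofNat (nat_lit 0), .ofNat (nat_lit 266484), .ofNat (nat_lit 0), .ofNat (nat_lit 312035), .ofNat (nat_lit 0), .ofNat (nat_lit 254993), .ofNat (nat_lit 0), .ofNat (nat_lit 304995)⟩⟩, [⟨nat_lit 13, nat_lit 36, nat_lit 77, nat_lit 100, nat_lit 300066557⟩, ⟨nat_lit 4, nat_lit 100, nat_lit 35, nat_lit 80, nat_lit 141492346⟩, ⟨nat_lit 7, nat_lit 100, nat_lit 90, nat_lit 74, nat_lit 27688906⟩]⟩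
noncomputable def p121_l40 : Lf2 := ⟨nat_lit 0, nat_lit 20, [nat_lit 5, nat_lit 5, nat_lit 5, nat_lit 20], false, nat_lit 0, nat_lit 200, nat_lit 0, nat_lit 300, ⟨nat_lit 1000, nat_lit 0, nat_lit 0, nat_lit 0, nat_lit 0, nat_lit 0, nat_lit 0, nat_lit 0, nat_lit 0, nat_lit 0, nat_lit 0, nat_lit 0, nat_lit 0, nat_lit 0, nat_lit 0, nat_lit 0, false, false⟩,
 nat_lit 0, nat_lit 6656, nat_lit 0, nat_lit 0, nat_lit 5797, nat_lit 8421, nat_lit 0, nat_lit 0, nat_lit 0, nat_lit 0, nat_lit 0, nat_lit 0, nat_lit 0, nat_lit 0, nat_lit 0, nat_lit 0, nat_lit 0, nat_lit 0, [],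
 ⟨p121_k0, nat_lit 0, nat_lit 0, nat_lit 259, nat_lit 0, nat_lit 249585, [nat_lit 938000000, nat_lit 3282000000, nat_lit 6250000000], [], [nat_lit 31482917377, nat_lit 34958444649, nat_lit 40494728660, nat_lit 42518395278, nat_lit 29615767969, nat_lit 32054533347, nat_lit 36286962992, nat_lit 37917791477], nat_lit 1271250, nat_lit 1271250, nat_lit 1033601, nat_lit 3070600, nat_lit 0, nat_lit 1412500, [nat_lit 230000, nat_lit 780000, nat_lit 1435000], [nat_lit 20, nat_lit 40, nat_lit 40, nat_lit 80, nat_lit 16, nat_lit 373, nat_lit 150, nat_lit 14]⟩, ⟨p121_k1, nat_lit 0, nat_lit 0, nat_lit 239, nat_lit 0, nat_lit 0, [nat_lit 3282000000, nat_lit 6250000000, nat_lit 11872000000], [], [nat_lit 35252796330, nat_lit 38364359169, nat_lit 47392579020, nat_lit 49013409212, nat_lit 33258958743, nat_lit 35297994417, nat_lit 40089506923, nat_lit 40992510415], nat_lit 0, nat_lit 0, nat_lit 0, nat_lit 0, nat_lit 0, nat_lit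 0, [], [nat_lit 23, nat_lit 40, nat_lit 40, nat_lit 80, nat_lit 12, nat_lit 538, nat_lit 300, nat_lit 14]⟩,
 zbF0, [⟨nat_lit 0, nat_lit 87, nat_lit 44, nat_lit 100, nat_lit 337184059⟩, ⟨nat_lit 4, nat_lit 100, nat_lit 46, nat_lit 75, nat_lit 242442248⟩, ⟨nat_lit 19, nat_lit 90, nat_lit 100, nat_lit 74, nat_lit 70475967⟩]⟩
noncomputable def p121_l41 : Lf2 := ⟨nat_lit 0, nat_lit 20, [nat_lit 5, nat_lit 5, nat_lit 5, nat_lit 20], false, nat_lit 0, nat_lit 200, nat_lit 0, nat_lit 300, ⟨nat_lit 1000, nat_lit 0, nat_lit 0, nat_lit 0, nat_lit 0, nat_lit 0, nat_lit 0, nat_lit 0, nat_lit 0, nat_lit 0, nat_lit 0, nat_lit 0, nat_lit 0, nat_lit 0, nat_lit 0, nat_lit 0, false, false⟩,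
 nat_lit 18405, nat_lit 0, nat_lit 0, nat_lit 0, nat_lit 5955, nat_lit 11711, nat_lit 0, nat_lit 0, nat_lit 0, nat_lit 0, nat_lit 0, nat_lit 0, nat_lit 0, nat_lit 0, nat_lit 0, nat_lit 0, nat_lit 0, nat_lit 0, [],
 ⟨p121_k0, nat_lit 0, nat_lit 0, nat_lit 209, nat_lit 0, nat_lit 56081, [nat_lit 938000000, nat_lit 3282000000, nat_lit 6250000000], [], [nat_lit 31380014252, nat_lit 33146721593, nat_lit 40468529100, nat_lit 41493329532, nat_lit 28978098870, nat_lit 30365795449, nat_lit 36060182874, nat_lit 36884640911], nat_lit 1271250, nat_lit 1271250, nat_lit 1033601, nat_lit 3070600, nat_lit 0, nat_lit 1412500, [nat_lit 230000, nat_lit 780000, nat_lit 1435000], [nat_lit 20, nat_lit 40, nat_lit 40, nat_lit 80, nat_lit 16, nat_lit 373, nat_lit 150, nat_lit 14]⟩, ⟨p121_k1, nat_lit 0, nat_lit 0, nat_lit 275, nat_lit 0, nat_lit 84511, [nat_lit 3282000000, nat_lit 6250000000, nat_lit 11872000000], [], [nat_lit 44409256752,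 nat_lit 46653886330, nat_lit 50948191376, nat_lit 52790895093, nat_lit 35832327811, nat_lit 36979841495, nat_lit 38682935197, nat_lit 40143324224], nat_lit 1271250, nat_lit 1271250, nat_lit 1271250, nat_lit 1271250, nat_lit 0, nat_lit 2118750, [nat_lit 780000, nat_lit 1435000, nat_lit 1271250], [nat_lit 23, nat_lit 40, nat_lit 40, nat_lit 80, nat_lit 12, nat_lit 538, nat_lit 300, nat_lit 14]⟩,
 zbF0, [⟨nat_lit 0, nat_lit 82, nat_lit 44, nat_lit 100, nat_lit 377118231⟩, ⟨nat_lit 4, nat_lit 100, nat_lit 54, nat_lit 73, nat_lit 219945436⟩]⟩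
noncomputable def p121_l42 : Lf2 := ⟨nat_lit 0, nat_lit 20, [nat_lit 5, nat_lit 5, nat_lit 5, nat_lit 20], false, nat_lit 0, nat_lit 164, nat_lit 0, nat_lit 300, ⟨nat_lit 1000, nat_lit 0, nat_lit 0, nat_lit 0, nat_lit 0, nat_lit 0, nat_lit 0, nat_lit 0, nat_lit 0, nat_lit 0, nat_lit 0, nat_lit 0, nat_lit 0, nat_lit 0, nat_lit 0, nat_lit 0, false, false⟩,
 nat_lit 12067, nat_lit 0, nat_lit 0, nat_lit 0, nat_lit 3211, nat_lit 7679, nat_lit 384, nat_lit 0, nat_lit 0, nat_lit 593, nat_lit 0, nat_lit 0, nat_lit 0, nat_lit 0, nat_lit 0, nat_lit 0, nat_lit 0, nat_lit 0, [],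
 ⟨p121_k9, nat_lit 0, nat_lit 0, nat_lit 231, nat_lit 0, nat_lit 143734, [nat_lit 938000000, nat_lit 3282000000, nat_lit 6250000000], [], [nat_lit 27161350410, nat_lit 28213595240, nat_lit 32695082294, nat_lit 33437042346, nat_lit 26919398272, nat_lit 27818577889, nat_lit 31723733525, nat_lit 32369947387], nat_lit 1271250, nat_lit 1271250, nat_lit 1271250, nat_lit 1271250, nat_lit 0, nat_lit 1133651, [nat_lit 230000, nat_lit 780000, nat_lit 1435000], [nat_lit 20, nat_lit 40, nat_lit 40, nat_lit 80, nat_lit 16, nat_lit 373, nat_lit 150, nat_lit 14]⟩, ⟨p121_k1, nat_lit 0, nat_lit 0, nat_lit 357, nat_lit 0, nat_lit 236648, [nat_lit 3282000000, nat_lit 6250000000, nat_lit 11872000000], [], [nat_lit 35201424355, nat_lit 36890372811, nat_lit 40754385680, nat_lit 41644219973, nat_lit 31149541578, nat_lit 32112126595, nat_lit 34131692708, nat_lit 35090129788], nat_lit 1271250, nat_lit 1271250, nat_lit 1271250, nat_lit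 1271250, nat_lit 0, nat_lit 2118750, [nat_lit 780000, nat_lit 1435000, nat_lit 1271250], [nat_lit 23, nat_lit 40, nat_lit 40, nat_lit 80, nat_lit 12, nat_lit 483, nat_lit 250, nat_lit 12]⟩,
 zbF0, [⟨nat_lit 0, nat_lit 88, nat_lit 32, nat_lit 100, nat_lit 641849653⟩, ⟨nat_lit 4, nat_lit 100, nat_lit 35, nat_lit 80, nat_lit 483588683⟩, ⟨nat_lit 7, nat_lit 100, nat_lit 90, nat_lit 74, nat_lit 107186456⟩]⟩
noncomputable def p121_l43 : Lf2 := ⟨nat_lit 0, nat_lit 20, [nat_lit 5, nat_lit 5, nat_lit 5, nat_lit 20], false, nat_lit 0, nat_lit 200, nat_lit 0, nat_lit 300, ⟨nat_lit 1000, nat_lit 0, nat_lit 0, nat_lit 0, nat_lit 0, nat_lit 0, nat_lit 0, nat_lit 0, nat_lit 0, nat_lit 0, nat_lit 0, nat_lit 0, nat_lit 0, nat_lit 0, nat_lit 0, nat_lit 0, false, false⟩,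
 nat_lit 0, nat_lit 6656, nat_lit 0, nat_lit 0, nat_lit 5797, nat_lit 8421, nat_lit 0, nat_lit 0, nat_lit 0, nat_lit 0, nat_lit 0, nat_lit 0, nat_lit 0, nat_lit 0, nat_lit 0, nat_lit 0, nat_lit 0, nat_lit 0, [],
 ⟨p121_k0, nat_lit 0, nat_lit 0, nat_lit 259, nat_lit 0, nat_lit 249585, [nat_lit 938000000, nat_lit 3282000000, nat_lit 6250000000], [], [nat_lit 31482917377, nat_lit 34958444649, nat_lit 40494728660, nat_lit 42518395278, nat_lit 29615767969, nat_lit 32054533347, nat_lit 36286962992, nat_lit 37917791477], nat_lit 1271250, nat_lit 1271250, nat_lit 1033601, nat_lit 3070600, nat_lit 0, nat_lit 1412500, [nat_lit 230000, nat_lit 780000, nat_lit 1435000], [nat_lit 20, nat_lit 40, nat_lit 40, nat_lit 80, nat_lit 16, nat_lit 373, nat_lit 150, nat_lit 14]⟩, ⟨p121_k1, nat_lit 0, nat_lit 0, nat_lit 239, nat_lit 0, nat_lit 0, [nat_lit 3282000000, nat_lit 6250000000, nat_lit 11872000000], [], [nat_lit 35252796330,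 nat_lit 38364359169, nat_lit 47392579020, nat_lit 49013409212, nat_lit 33258958743, nat_lit 35297994417, nat_lit 40089506923, nat_lit 40992510415], nat_lit 0, nat_lit 0, nat_lit 0, nat_lit 0, nat_lit 0, nat_lit 0, [], [nat_lit 23, nat_lit 40, nat_lit 40, nat_lit 80, nat_lit 12, nat_lit 538, nat_lit 300, nat_lit 14]⟩,
 zbF0, [⟨nat_lit 0, nat_lit 87, nat_lit 44, nat_lit 100, nat_lit 337184059⟩, ⟨nat_lit 4, nat_lit 100, nat_lit 46, nat_lit 75, nat_lit 242442248⟩, ⟨nat_lit 7, nat_lit 100, nat_lit 90, nat_lit 74, nat_lit 70475967⟩]⟩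
noncomputable def p121_l44 : Lf2 := ⟨nat_lit 0, nat_lit 20, [nat_lit 5, nat_lit 5, nat_lit 5, nat_lit 20], false, nat_lit 0, nat_lit 200, nat_lit 0, nat_lit 300, ⟨nat_lit 495, nat_lit 505, nat_lit 0, nat_lit 7, nat_lit 285, nat_lit 505, nat_lit 67, nat_lit 0, nat_lit 0, nat_lit 0, nat_lit 0, nat_lit 0, nat_lit 0, nat_lit 0, nat_lit 0, nat_lit 5000000, false, false⟩,
 nat_lit 5847, nat_lit 0, nat_lit 0, nat_lit 0, nat_lit 4517, nat_lit 3720, nat_lit 0, nat_lit 0, nat_lit 0, nat_lit 264, nat_lit 0, nat_lit 0, nat_lit 0, nat_lit 0, nat_lit 0, nat_lit 126250, nat_lit 0, nat_lit 0, [(nat_lit 25, [(nat_lit 0, nat_lit 505)]), (nat_lit 28, [(nat_lit 0, nat_lit 505)])],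
 ⟨p121_k0, nat_lit 0, nat_lit 0, nat_lit 237, nat_lit 0, nat_lit 157039, [nat_lit 859018000, nat_lit 2315834000, nat_lit 4163340000], [], [nat_lit 28339311588, nat_lit 31149808937, nat_lit 36533658260, nat_lit 38347224654, nat_lit 27694017649, nat_lit 29840200115, nat_lit 34193568347, nat_lit 35435145141], nat_lit 1271250, nat_lit 1271250, nat_lit 1033601, nat_lit 3070600, nat_lit 0, nat_lit 1412500, [nat_lit 230000, nat_lit 780000, nat_lit 1435000], [nat_lit 20, nat_lit 40, nat_lit 40, nat_lit 80, nat_lit 16, nat_lit 373, nat_lit 150, nat_lit 14]⟩, ⟨p121_k1, nat_lit 0, nat_lit 0, nat_lit 364, nat_lit 0, nat_lit 236648, [nat_lit 1624590000, nat_lit 3093750000, nat_lit 5876640000], [], [nat_lit 17997846253, nat_lit 18894510769, nat_lit 21051050184, nat_lit 21462573744, nat_lit 18461161885, nat_lit 16767847827, nat_lit 17749735320, nat_lit 17952322584], nat_lit 1271250, nat_lit 1271250, nat_lit 1271250, nat_lit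 1271250, nat_lit 0, nat_lit 2118750, [nat_lit 780000, nat_lit 1435000, nat_lit 1271250], [nat_lit 23, nat_lit 40, nat_lit 40, nat_lit 80, nat_lit 12, nat_lit 538, nat_lit 300, nat_lit 14]⟩,
 ⟨nat_lit 0, nat_lit 3163, ⟨.ofNat (nat_lit 507176), .ofNat (nat_lit 881191), .ofNat (nat_lit 548877), .ofNat (nat_lit 925502), .ofNat (nat_lit 531701), .ofNat (nat_lit 839996), .ofNat (nat_lit 579091), .ofNat (nat_lit 889997)⟩, ⟨.ofNat (nat_lit 0), .ofNat (nat_lit 322753), .ofNat (nat_lit 0), .ofNat (nat_lit 367065), .ofNat (nat_lit 0), .ofNat (nat_lit 299993), .ofNat (nat_lit 0), .ofNat (nat_lit 349995)⟩⟩, [⟨nat_lit 4, nat_lit 100, nat_lit 46, nat_lit 75, nat_lit 118756319⟩, ⟨nat_lit 19, nat_lit 90, nat_lit 100, nat_lit 74, nat_lit 46382543⟩]⟩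
noncomputable def b_V_900_700_10_27 : St := ⟨true, nat_lit 2, nat_lit 2, nat_lit 0, nat_lit 80, nat_lit 360, nat_lit 400, nat_lit 280, nat_lit 320, nat_lit 152, nat_lit 392, nat_lit 40, nat_lit 80, nat_lit 0, nat_lit 200, nat_lit 0, nat_lit 300, nat_lit 160, nat_lit 184, nat_lit 0, nat_lit 0, nat_lit 0, nat_lit 0⟩
theorem d_V_900_700_10_27 (h : EB TB.env) : Dead b_V_900_700_10_27 := chkB_sound0 h (T :=
(.st (nat_lit 0)
(.gv
(.st (nat_lit 1)
(.leaf p121_l34)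
(.spl (nat_lit 3) (nat_lit 60)
(.trX (nat_lit 16) (nat_lit 61) (nat_lit 100) (nat_lit 72) (nat_lit 176) (.trX (nat_lit 19) (nat_lit 99) (nat_lit 100) (nat_lit 77) (nat_lit 276) (.leaf p121_l35)))
(.leaf p121_l36)))
(.st (nat_lit 1)
(.leaf p121_l37)
(.spl (nat_lit 0) (nat_lit 380)
(.leaf p121_l38)
(.trZ (nat_lit 0) (nat_lit 92) (nat_lit 44) (nat_lit 100) (nat_lit 192) (.trX (nat_lit 13) (nat_lit 54) (nat_lit 57) (nat_lit 100) (nat_lit 380) (.trX (nat_lit 16) (nat_lit 44) (nat_lit 100) (nat_lit 82) (nat_lit 164) (.leaf p121_l39)))))))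
(.gv
(.st (nat_lit 1)
(.leaf p121_l40)
(.spl (nat_lit 0) (nat_lit 380)
(.leaf p121_l41)
(.trZ (nat_lit 0) (nat_lit 92) (nat_lit 44) (nat_lit 100) (nat_lit 192) (.trX (nat_lit 13) (nat_lit 54) (nat_lit 57) (nat_lit 100) (nat_lit 380) (.trX (nat_lit 16) (nat_lit 44) (nat_lit 100) (nat_lit 82) (nat_lit 164) (.leaf p121_l42))))))
(.st (nat_lit 1)
(.leaf p121_l43)
(.leaf p121_l44))))) (by decide +kernel)
noncomputable def p121_l45 : Lf2 := ⟨nat_lit 0, nat_lit 10, [nat_lit 0, nat_lit 5, nat_lit 5, nat_lit 20], true, nat_lit 8, nat_lit 80, nat_lit 0, nat_lit 336, ⟨nat_lit 0, nat_lit 1000, nat_lit 0, nat_lit 7, nat_lit 238, nat_lit 1000, nat_lit 43, nat_lit 0, nat_lit 0, nat_lit 0, nat_lit 0, nat_lit 0, nat_lit 48393865, nat_lit 17352913, nat_lit 1253222, nat_lit 3401156, false, false⟩,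
 nat_lit 0, nat_lit 0, nat_lit 0, nat_lit 0, nat_lit 3036, nat_lit 0, nat_lit 0, nat_lit 0, nat_lit 0, nat_lit 0, nat_lit 0, nat_lit 0, nat_lit 0, nat_lit 0, nat_lit 0, nat_lit 342700, nat_lit 0, nat_lit 0, [(nat_lit 24, [(nat_lit 0, nat_lit 382), (nat_lit 1, nat_lit 618)]), (nat_lit 27, [(nat_lit 0, nat_lit 382), (nat_lit 1, nat_lit 618)])],
 ⟨p121_k12, nat_lit 0, nat_lit 0, nat_lit 133, nat_lit 0, nat_lit 0, [nat_lit 822329600, nat_lit 1138622400, nat_lit 1241358400], [], [nat_lit 20554648984, nat_lit 24061180817, nat_lit 22962980672, nat_lit 26205056455, nat_lit 19939201060, nat_lit 22563262592, nat_lit 22273886816, nat_lit 24560981008], nat_lit 0, nat_lit 0, nat_lit 0, nat_lit 0, nat_lit 0, nat_lit 0, [], [nat_lit 35, nat_lit 40, nat_lit 40, nat_lit 80, nat_lit 22, nat_lit 317, nat_lit 100, nat_lit 14]⟩, C1.Rw.none,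
 ⟨nat_lit 0, nat_lit 3163, ⟨.ofNat (nat_lit 507176), .ofNat (nat_lit 646918), .ofNat (nat_lit 528026), .ofNat (nat_lit 667768), .ofNat (nat_lit 531701), .ofNat (nat_lit 647345), .ofNat (nat_lit 555396), .ofNat (nat_lit 671040)⟩, ⟨.ofNat (nat_lit 20000), .ofNat (nat_lit 184209), .ofNat (nat_lit 20000), .ofNat (nat_lit 200000), .ofNat (nat_lit 20000), .ofNat (nat_lit 199999), .ofNat (nat_lit 20000), .ofNat (nat_lit 200000)⟩⟩, [⟨nat_lit 3, nat_lit 100, nat_lit 75, nat_lit 35, nat_lit 222725158⟩]⟩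
noncomputable def p121_l46 : Lf2 := ⟨nat_lit 0, nat_lit 10, [nat_lit 0, nat_lit 5, nat_lit 5, nat_lit 20], false, nat_lit 8, nat_lit 80, nat_lit 0, nat_lit 320, ⟨nat_lit 112, nat_lit 888, nat_lit 0, nat_lit 7, nat_lit 254, nat_lit 888, nat_lit 43, nat_lit 0, nat_lit 0, nat_lit 0, nat_lit 0, nat_lit 0, nat_lit 46738315, nat_lit 19025345, nat_lit 1236340, nat_lit 3517244, true, false⟩,
 nat_lit 0, nat_lit 0, nat_lit 1187, nat_lit 0, nat_lit 3133, nat_lit 821, nat_lit 0, nat_lit 0, nat_lit 0, nat_lit 49, nat_lit 0, nat_lit 0, nat_lit 0, nat_lit 0, nat_lit 0, nat_lit 355200, nat_lit 0, nat_lit 0, [(nat_lit 24, [(nat_lit 1, nat_lit 888)]), (nat_lit 27, [(nat_lit 1, nat_lit 888)])],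
 ⟨p121_k12, nat_lit 0, nat_lit 0, nat_lit 131, nat_lit 0, nat_lit 0, [nat_lit 858080000, nat_lit 1253216000, nat_lit 1372563200], [], [nat_lit 21272393335, nat_lit 24705492270, nat_lit 23140709464, nat_lit 26437632424, nat_lit 20588406157, nat_lit 23161206114, nat_lit 22392516048, nat_lit 24711927924], nat_lit 0, nat_lit 0, nat_lit 0, nat_lit 0, nat_lit 0, nat_lit 0, [], [nat_lit 35, nat_lit 40, nat_lit 40, nat_lit 80, nat_lit 22, nat_lit 226, nat_lit 20, nat_lit 9]⟩, ⟨p121_k13, nat_lit 0, nat_lit 0, nat_lit 1073, nat_lit 0, nat_lit 2066522, [nat_lit 367584000, nat_lit 700000000, nat_lit 892416000], [], [nat_lit 3503752496, nat_lit 3528081788, nat_lit 3494474511, nat_lit 3514455541, nat_lit 3161980058, nat_lit 3188588258, nat_lit 3982073485, nat_lit 3624247203], nat_lit 1271250, nat_lit 1271250, nat_lit 1236400, nat_lit 1794000, nat_lit 0, nat_lit 2260000, [nat_lit 780000, nat_lit 1435000, nat_lit 1271250], [nat_lit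 18, nat_lit 40, nat_lit 40, nat_lit 80, nat_lit 2, nat_lit 379, nat_lit 150, nat_lit 12]⟩,
 ⟨nat_lit 0, nat_lit 3163, ⟨.ofNat (nat_lit 566138), .ofNat (nat_lit 667768), .ofNat (nat_lit 586988), .ofNat (nat_lit 688618), .ofNat (nat_lit 586935), .ofNat (nat_lit 671040), .ofNat (nat_lit 610631), .ofNat (nat_lit 694736)⟩, ⟨.ofNat (nat_lit 20000), .ofNat (nat_lit 184209), .ofNat (nat_lit 20000), .ofNat (nat_lit 200000), .ofNat (nat_lit 20000), .ofNat (nat_lit 199999), .ofNat (nat_lit 20000), .ofNat (nat_lit 200000)⟩⟩, [⟨nat_lit 0, nat_lit 84, nat_lit 44, nat_lit 100, nat_lit 55341649⟩, ⟨nat_lit 3, nat_lit 100, nat_lit 50, nat_lit 65, nat_lit 283483532⟩, ⟨nat_lit 19, nat_lit 93, nat_lit 100, nat_lit 97, nat_lit 16937586⟩]⟩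
noncomputable def p121_l47 : Lf2 := ⟨nat_lit 0, nat_lit 10, [nat_lit 0, nat_lit 5, nat_lit 5, nat_lit 20], true, nat_lit 80, nat_lit 160, nat_lit 0, nat_lit 336, ⟨nat_lit 0, nat_lit 1000, nat_lit 0, nat_lit 7, nat_lit 242, nat_lit 1000, nat_lit 105, nat_lit 0, nat_lit 0, nat_lit 0, nat_lit 0, nat_lit 0, nat_lit 45055954, nat_lit 17307834, nat_lit 4636212, nat_lit 4252006, false, false⟩,
 nat_lit 0, nat_lit 0, nat_lit 0, nat_lit 0, nat_lit 3241, nat_lit 0, nat_lit 0, nat_lit 0, nat_lit 0, nat_lit 0, nat_lit 0, nat_lit 0, nat_lit 0, nat_lit 0, nat_lit 0, nat_lit 346750, nat_lit 0, nat_lit 0, [(nat_lit 24, [(nat_lit 0, nat_lit 871), (nat_lit 2, nat_lit 129)]), (nat_lit 27, [(nat_lit 0, nat_lit 871), (nat_lit 2, nat_lit 129)])],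
 ⟨p121_k14, nat_lit 0, nat_lit 0, nat_lit 87, nat_lit 0, nat_lit 0, [nat_lit 953040801, nat_lit 1217588000], [], [nat_lit 19116223482, nat_lit 22385611151, nat_lit 21637857554, nat_lit 24594985016, nat_lit 20100276944, nat_lit 22861119028, nat_lit 22403115206, nat_lit 24878631520], nat_lit 0, nat_lit 0, nat_lit 0, nat_lit 0, nat_lit 0, nat_lit 0, [], [nat_lit 86, nat_lit 40, nat_lit 40, nat_lit 80, nat_lit 87, nat_lit 317, nat_lit 100, nat_lit 14]⟩, C1.Rw.none,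
 ⟨nat_lit 0, nat_lit 3163, ⟨.ofNat (nat_lit 507176), .ofNat (nat_lit 646918), .ofNat (nat_lit 548877), .ofNat (nat_lit 688618), .ofNat (nat_lit 531701), .ofNat (nat_lit 647345), .ofNat (nat_lit 579091), .ofNat (nat_lit 694736)⟩, ⟨.ofNat (nat_lit 184209), .ofNat (nat_lit 306113), .ofNat (nat_lit 200000), .ofNat (nat_lit 350425), .ofNat (nat_lit 199999), .ofNat (nat_lit 299996), .ofNat (nat_lit 200000), .ofNat (nat_lit 349998)⟩⟩, []⟩
noncomputable def p121_l48 : Lf2 := ⟨nat_lit 0, nat_lit 10, [nat_lit 0, nat_lit 5, nat_lit 5, nat_lit 20], true, nat_lit 160, nat_lit 248, nat_lit 0, nat_lit 336, ⟨nat_lit 0, nat_lit 1000, nat_lit 0, nat_lit 7, nat_lit 242, nat_lit 1000, nat_lit 155, nat_lit 0, nat_lit 0, nat_lit 0, nat_lit 0, nat_lit 0, nat_lit 42149577, nat_lit 16647739, nat_lit 8202684, nat_lit 4802575, false, false⟩,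
 nat_lit 0, nat_lit 0, nat_lit 0, nat_lit 0, nat_lit 3730, nat_lit 0, nat_lit 0, nat_lit 0, nat_lit 0, nat_lit 0, nat_lit 0, nat_lit 0, nat_lit 0, nat_lit 0, nat_lit 0, nat_lit 250000, nat_lit 0, nat_lit 0, [(nat_lit 24, [(nat_lit 0, nat_lit 1000)]), (nat_lit 27, [(nat_lit 0, nat_lit 1000)])],
 ⟨p121_k14, nat_lit 0, nat_lit 0, nat_lit 65, nat_lit 0, nat_lit 0, [nat_lit 780800001, nat_lit 1705600000], [], [nat_lit 20171840201, nat_lit 23315863448, nat_lit 22507421760, nat_lit 25374829600, nat_lit 22742086205, nat_lit 25641703269, nat_lit 24663927936, nat_lit 27337003117], nat_lit 0, nat_lit 0, nat_lit 0, nat_lit 0, nat_lit 0, nat_lit 0, [], [nat_lit 86, nat_lit 40, nat_lit 40, nat_lit 80, nat_lit 87, nat_lit 272, nat_lit 60, nat_lit 11]⟩, C1.Rw.none,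
 ⟨nat_lit 0, nat_lit 3163, ⟨.ofNat (nat_lit 507176), .ofNat (nat_lit 646918), .ofNat (nat_lit 548877), .ofNat (nat_lit 688618), .ofNat (nat_lit 531701), .ofNat (nat_lit 647345), .ofNat (nat_lit 579091), .ofNat (nat_lit 694736)⟩, ⟨.ofNat (nat_lit 306113), .ofNat (nat_lit 440207), .ofNat (nat_lit 350425), .ofNat (nat_lit 484518), .ofNat (nat_lit 299996), .ofNat (nat_lit 409993), .ofNat (nat_lit 349998), .ofNat (nat_lit 459993)⟩⟩, [⟨nat_lit 16, nat_lit 62, nat_lit 100, nat_lit 94, nat_lit 219193632⟩]⟩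
noncomputable def b_V_900_700_20_0 : St := ⟨true, nat_lit 0, nat_lit 1, nat_lit 1, nat_lit 120, nat_lit 360, nat_lit 400, nat_lit 280, nat_lit 320, nat_lit 152, nat_lit 240, nat_lit 80, nat_lit 120, nat_lit 8, nat_lit 248, nat_lit 0, nat_lit 336, nat_lit 0, nat_lit 40, nat_lit 0, nat_lit 0, nat_lit 0, nat_lit 0⟩
theorem d_V_900_700_20_0 (h : EB TB.env) : Dead b_V_900_700_20_0 := chkB_sound0 h (T :=
(.spl (nat_lit 4) (nat_lit 160)
(.spl (nat_lit 4) (nat_lit 80)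
(.spl (nat_lit 1) (nat_lit 300)
(.leaf p121_l45)
(.trZ (nat_lit 0) (nat_lit 87) (nat_lit 60) (nat_lit 100) (nat_lit 176) (.trX (nat_lit 19) (nat_lit 94) (nat_lit 88) (nat_lit 100) (nat_lit 320) (.leaf p121_l46))))
(.leaf p121_l47))
(.leaf p121_l48))) (by decide +kernel)
noncomputable def p121_l49 : Lf2 := ⟨nat_lit 0, nat_lit 10, [nat_lit 0, nat_lit 5, nat_lit 5, nat_lit 20], true, nat_lit 8, nat_lit 80, nat_lit 0, nat_lit 336, ⟨nat_lit 0, nat_lit 1000, nat_lit 0, nat_lit 7, nat_lit 275, nat_lit 1000, nat_lit 43, nat_lit 0, nat_lit 0, nat_lit 0, nat_lit 0, nat_lit 0, nat_lit 44549023, nat_lit 21242057, nat_lit 1208920, nat_lit 3645394, true, false⟩,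
 nat_lit 0, nat_lit 0, nat_lit 0, nat_lit 0, nat_lit 2969, nat_lit 0, nat_lit 0, nat_lit 0, nat_lit 0, nat_lit 0, nat_lit 0, nat_lit 0, nat_lit 0, nat_lit 0, nat_lit 0, nat_lit 323800, nat_lit 0, nat_lit 0, [(nat_lit 24, [(nat_lit 0, nat_lit 508), (nat_lit 1, nat_lit 492)]), (nat_lit 27, [(nat_lit 0, nat_lit 508), (nat_lit 1, nat_lit 492)])],
 ⟨p121_k12, nat_lit 0, nat_lit 0, nat_lit 136, nat_lit 0, nat_lit 0, [nat_lit 813862400, nat_lit 1185225600, nat_lit 1336009600], [], [nat_lit 23184339988, nat_lit 26044411198, nat_lit 24635881917, nat_lit 27580634465, nat_lit 22535432464, nat_lit 24800204132, nat_lit 23925293648, nat_lit 26031747388], nat_lit 0, nat_lit 0, nat_lit 0, nat_lit 0, nat_lit 0, nat_lit 0, [], [nat_lit 35, nat_lit 40, nat_lit 40, nat_lit 80, nat_lit 22, nat_lit 226, nat_lit 20, nat_lit 9]⟩, C1.Rw.none,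
 ⟨nat_lit 0, nat_lit 3163, ⟨.ofNat (nat_lit 646918), .ofNat (nat_lit 710256), .ofNat (nat_lit 667768), .ofNat (nat_lit 731287), .ofNat (nat_lit 647345), .ofNat (nat_lit 699730), .ofNat (nat_lit 671040), .ofNat (nat_lit 723606)⟩, ⟨.ofNat (nat_lit 20000), .ofNat (nat_lit 184209), .ofNat (nat_lit 20000), .ofNat (nat_lit 200000), .ofNat (nat_lit 20000), .ofNat (nat_lit 199999), .ofNat (nat_lit 20000), .ofNat (nat_lit 200000)⟩⟩, [⟨nat_lit 3, nat_lit 100, nat_lit 75, nat_lit 35, nat_lit 219027129⟩]⟩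
noncomputable def p121_l50 : Lf2 := ⟨nat_lit 0, nat_lit 10, [nat_lit 0, nat_lit 5, nat_lit 5, nat_lit 20], false, nat_lit 8, nat_lit 80, nat_lit 0, nat_lit 300, ⟨nat_lit 114, nat_lit 886, nat_lit 0, nat_lit 7, nat_lit 300, nat_lit 886, nat_lit 43, nat_lit 0, nat_lit 0, nat_lit 0, nat_lit 0, nat_lit 0, nat_lit 42031919, nat_lit 23820711, nat_lit 1147370, nat_lit 3752175, true, true⟩,
 nat_lit 0, nat_lit 0, nat_lit 1523, nat_lit 0, nat_lit 2675, nat_lit 969, nat_lit 0, nat_lit 0, nat_lit 0, nat_lit 68, nat_lit 0, nat_lit 0, nat_lit 0, nat_lit 0, nat_lit 0, nat_lit 472000, nat_lit 0, nat_lit 0, [(nat_lit 24, [(nat_lit 1, nat_lit 690), (nat_lit 2, nat_lit 196)])],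
 ⟨p121_k12, nat_lit 0, nat_lit 0, nat_lit 131, nat_lit 0, nat_lit 0, [nat_lit 979780000, nat_lit 969639201, nat_lit 783092800], [], [nat_lit 24589068502, nat_lit 25120889899, nat_lit 26159913522, nat_lit 26658865781, nat_lit 24057635601, nat_lit 24562459226, nat_lit 25558843301, nat_lit 26035061776], nat_lit 0, nat_lit 0, nat_lit 0, nat_lit 0, nat_lit 0, nat_lit 0, [], [nat_lit 35, nat_lit 40, nat_lit 40, nat_lit 80, nat_lit 22, nat_lit 226, nat_lit 20, nat_lit 9]⟩, ⟨p121_k15, nat_lit 0, nat_lit 0, nat_lit 942, nat_lit 0, nat_lit 1715010, [nat_lit 374148000, nat_lit 712500000, nat_lit 1121988000], [], [nat_lit 4020934812, nat_lit 4041805248, nat_lit 4062675684, nat_lit 4079211156, nat_lit 3411175716, nat_lit 3414695723, nat_lit 3418215729, nat_lit 3427185762], nat_lit 1271250, nat_lit 1271250, nat_lit 1271250, nat_lit 1271250, nat_lit 0, nat_lit 2118750, [nat_lit 780000, nat_lit 1435000, nat_lit 1271250], [nat_lit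 8, nat_lit 40, nat_lit 40, nat_lit 80, nat_lit 1, nat_lit 351, nat_lit 75, nat_lit 10]⟩,
 ⟨nat_lit 2738, nat_lit 3163, ⟨.ofNat (nat_lit 710514), .ofNat (nat_lit 771478), .ofNat (nat_lit 732657), .ofNat (nat_lit 793629), .ofNat (nat_lit 707780), .ofNat (nat_lit 766852), .ofNat (nat_lit 730185), .ofNat (nat_lit 789265)⟩, ⟨.ofNat (nat_lit 20000), .ofNat (nat_lit 184209), .ofNat (nat_lit 20000), .ofNat (nat_lit 200000), .ofNat (nat_lit 20000), .ofNat (nat_lit 188310), .ofNat (nat_lit 20000), .ofNat (nat_lit 200000)⟩⟩, [⟨nat_lit 3, nat_lit 100, nat_lit 57, nat_lit 62, nat_lit 193026176⟩, ⟨nat_lit 22, nat_lit 88, nat_lit 100, nat_lit 63, nat_lit 17342805⟩]⟩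
noncomputable def p121_l51 : Lf2 := ⟨nat_lit 0, nat_lit 10, [nat_lit 0, nat_lit 5, nat_lit 5, nat_lit 20], false, nat_lit 12, nat_lit 80, nat_lit 0, nat_lit 300, ⟨nat_lit 106, nat_lit 894, nat_lit 0, nat_lit 7, nat_lit 299, nat_lit 894, nat_lit 45, nat_lit 0, nat_lit 0, nat_lit 0, nat_lit 0, nat_lit 0, nat_lit 42100472, nat_lit 23652055, nat_lit 1247473, nat_lit 3777932, true, true⟩,
 nat_lit 0, nat_lit 0, nat_lit 1426, nat_lit 0, nat_lit 2515, nat_lit 907, nat_lit 225, nat_lit 0, nat_lit 0, nat_lit 61, nat_lit 0, nat_lit 0, nat_lit 0, nat_lit 0, nat_lit 0, nat_lit 223500, nat_lit 0, nat_lit 0, [(nat_lit 24, [(nat_lit 0, nat_lit 894)])],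
 ⟨p121_k16, nat_lit 0, nat_lit 0, nat_lit 133, nat_lit 0, nat_lit 0, [nat_lit 781728801, nat_lit 1570168800, nat_lit 2021734400], [], [nat_lit 24835128996, nat_lit 25352718589, nat_lit 26336708214, nat_lit 26822913459, nat_lit 24400678657, nat_lit 24893643882, nat_lit 25841250902, nat_lit 26299596152], nat_lit 0, nat_lit 0, nat_lit 0, nat_lit 0, nat_lit 0, nat_lit 0, [], [nat_lit 35, nat_lit 40, nat_lit 40, nat_lit 80, nat_lit 22, nat_lit 226, nat_lit 20, nat_lit 9]⟩, ⟨p121_k15, nat_lit 0, nat_lit 0, nat_lit 1022, nat_lit 0, nat_lit 1872350, [nat_lit 347892000, nat_lit 662500000, nat_lit 1043252000], [], [nat_lit 3812542796, nat_lit 3822594312, nat_lit 3832645828, nat_lit 3839397684, nat_lit 3206922800, nat_lit 3203676996, nat_lit 3200431192, nat_lit 3194812489], nat_lit 1271250, nat_lit 1271250, nat_lit 1271250, nat_lit 1271250, nat_lit 0, nat_lit 2118750, [nat_lit 780000, nat_lit 1435000, nat_lit 1271250], [nat_lit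 8, nat_lit 40, nat_lit 40, nat_lit 80, nat_lit 1, nat_lit 371, nat_lit 75, nat_lit 10]⟩,
 ⟨nat_lit 2236, nat_lit 2739, ⟨.ofNat (nat_lit 707780), .ofNat (nat_lit 766852), .ofNat (nat_lit 730177), .ofNat (nat_lit 789269), .ofNat (nat_lit 705116), .ofNat (nat_lit 762142), .ofNat (nat_lit 727870), .ofNat (nat_lit 784917)⟩, ⟨.ofNat (nat_lit 30000), .ofNat (nat_lit 188310), .ofNat (nat_lit 30000), .ofNat (nat_lit 200000), .ofNat (nat_lit 30000), .ofNat (nat_lit 192306), .ofNat (nat_lit 30000), .ofNat (nat_lit 200000)⟩⟩, [⟨nat_lit 3, nat_lit 100, nat_lit 48, nat_lit 71, nat_lit 217252461⟩, ⟨nat_lit 22, nat_lit 88, nat_lit 100, nat_lit 65, nat_lit 14674369⟩]⟩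
noncomputable def p121_l52 : Lf2 := ⟨nat_lit 0, nat_lit 10, [nat_lit 0, nat_lit 5, nat_lit 5, nat_lit 20], true, nat_lit 20, nat_lit 80, nat_lit 0, nat_lit 300, ⟨nat_lit 0, nat_lit 1000, nat_lit 0, nat_lit 7, nat_lit 296, nat_lit 1000, nat_lit 50, nat_lit 0, nat_lit 0, nat_lit 0, nat_lit 0, nat_lit 0, nat_lit 42186192, nat_lit 23368282, nat_lit 1445526, nat_lit 3828510, true, true⟩,
 nat_lit 0, nat_lit 0, nat_lit 0, nat_lit 0, nat_lit 2198, nat_lit 0, nat_lit 0, nat_lit 0, nat_lit 0, nat_lit 0, nat_lit 0, nat_lit 0, nat_lit 0, nat_lit 0, nat_lit 0, nat_lit 375100, nat_lit 0, nat_lit 0, [(nat_lit 27, [(nat_lit 0, nat_lit 166), (nat_lit 1, nat_lit 834)])],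
 ⟨p121_k17, nat_lit 0, nat_lit 0, nat_lit 124, nat_lit 0, nat_lit 0, [nat_lit 711411200, nat_lit 443654400], [], [nat_lit 24382171425, nat_lit 25462092442, nat_lit 25925506284, nat_lit 27098892808, nat_lit 24152636904, nat_lit 25186597816, nat_lit 25642344684, nat_lit 26603019568], nat_lit 0, nat_lit 0, nat_lit 0, nat_lit 0, nat_lit 0, nat_lit 0, [], [nat_lit 66, nat_lit 40, nat_lit 40, nat_lit 80, nat_lit 67, nat_lit 226, nat_lit 20, nat_lit 11]⟩, C1.Rw.none,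
 ⟨nat_lit 0, nat_lit 2237, ⟨.ofNat (nat_lit 705063), .ofNat (nat_lit 762141), .ofNat (nat_lit 726954), .ofNat (nat_lit 784917), .ofNat (nat_lit 699935), .ofNat (nat_lit 749998), .ofNat (nat_lit 724051), .ofNat (nat_lit 774999)⟩, ⟨.ofNat (nat_lit 50000), .ofNat (nat_lit 192306), .ofNat (nat_lit 50000), .ofNat (nat_lit 200000), .ofNat (nat_lit 50000), .ofNat (nat_lit 199999), .ofNat (nat_lit 50000), .ofNat (nat_lit 200000)⟩⟩, [⟨nat_lit 3, nat_lit 100, nat_lit 54, nat_lit 57, nat_lit 228368850⟩]⟩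
noncomputable def p121_l53 : Lf2 := ⟨nat_lit 0, nat_lit 10, [nat_lit 0, nat_lit 5, nat_lit 5, nat_lit 20], false, nat_lit 8, nat_lit 80, nat_lit 0, nat_lit 320, ⟨nat_lit 203, nat_lit 797, nat_lit 0, nat_lit 7, nat_lit 297, nat_lit 797, nat_lit 43, nat_lit 0, nat_lit 0, nat_lit 0, nat_lit 0, nat_lit 0, nat_lit 42379540, nat_lit 23459474, nat_lit 1160986, nat_lit 3740910, true, false⟩,
 nat_lit 0, nat_lit 0, nat_lit 1922, nat_lit 0, nat_lit 2701, nat_lit 1330, nat_lit 90, nat_lit 0, nat_lit 0, nat_lit 189, nat_lit 0, nat_lit 0, nat_lit 0, nat_lit 0, nat_lit 0, nat_lit 408800, nat_lit 0, nat_lit 0, [(nat_lit 24, [(nat_lit 1, nat_lit 647), (nat_lit 2, nat_lit 150)])],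
 ⟨p121_k12, nat_lit 0, nat_lit 0, nat_lit 135, nat_lit 0, nat_lit 0, [nat_lit 959270000, nat_lit 1240600667, nat_lit 1255480800], [], [nat_lit 23384502469, nat_lit 24532797799, nat_lit 26378482232, nat_lit 27367435290, nat_lit 22896340273, nat_lit 23984081059, nat_lit 25761238493, nat_lit 26701908325], nat_lit 0, nat_lit 0, nat_lit 0, nat_lit 0, nat_lit 0, nat_lit 0, [], [nat_lit 35, nat_lit 40, nat_lit 40, nat_lit 80, nat_lit 22, nat_lit 226, nat_lit 20, nat_lit 9]⟩, ⟨p121_k13, nat_lit 0, nat_lit 0, nat_lit 920, nat_lit 0, nat_lit 1786275, [nat_lit 666246000, nat_lit 1268750000, nat_lit 1617504000], [], [nat_lit 6475334201, nat_lit 6547043573, nat_lit 6689493881, nat_lit 6746610521, nat_lit 6146375312, nat_lit 6182160026, nat_lit 6236278314, nat_lit 6262360902], nat_lit 1271250, nat_lit 1271250, nat_lit 1271250, nat_lit 1271250, nat_lit 0, nat_lit 2260000, [nat_lit 780000, nat_lit 1435000, nat_lit 1271250], [nat_lit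 18, nat_lit 40, nat_lit 40, nat_lit 80, nat_lit 2, nat_lit 350, nat_lit 100, nat_lit 11]⟩,
 ⟨nat_lit 2236, nat_lit 3163, ⟨.ofNat (nat_lit 671514), .ofNat (nat_lit 793619), .ofNat (nat_lit 693606), .ofNat (nat_lit 815720), .ofNat (nat_lit 670673), .ofNat (nat_lit 784902), .ofNat (nat_lit 693384), .ofNat (nat_lit 807623)⟩, ⟨.ofNat (nat_lit 20000), .ofNat (nat_lit 184209), .ofNat (nat_lit 20000), .ofNat (nat_lit 200000), .ofNat (nat_lit 20000), .ofNat (nat_lit 192306), .ofNat (nat_lit 20000), .ofNat (nat_lit 200000)⟩⟩, [⟨nat_lit 3, nat_lit 100, nat_lit 48, nat_lit 71, nat_lit 116831847⟩, ⟨nat_lit 22, nat_lit 95, nat_lit 100, nat_lit 65, nat_lit 48557878⟩]⟩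
noncomputable def p121_l54 : Lf2 := ⟨nat_lit 0, nat_lit 10, [nat_lit 0, nat_lit 5, nat_lit 5, nat_lit 20], true, nat_lit 20, nat_lit 80, nat_lit 0, nat_lit 320, ⟨nat_lit 0, nat_lit 1000, nat_lit 0, nat_lit 7, nat_lit 295, nat_lit 1000, nat_lit 50, nat_lit 0, nat_lit 0, nat_lit 0, nat_lit 0, nat_lit 0, nat_lit 42354241, nat_lit 23196920, nat_lit 1448839, nat_lit 3821802, true, false⟩,
 nat_lit 0, nat_lit 0, nat_lit 0, nat_lit 0, nat_lit 2198, nat_lit 0, nat_lit 0, nat_lit 0, nat_lit 0, nat_lit 0, nat_lit 0, nat_lit 0, nat_lit 0, nat_lit 0, nat_lit 0, nat_lit 375100, nat_lit 0, nat_lit 0, [(nat_lit 27, [(nat_lit 0, nat_lit 166), (nat_lit 1, nat_lit 834)])],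
 ⟨p121_k17, nat_lit 0, nat_lit 0, nat_lit 124, nat_lit 0, nat_lit 0, [nat_lit 711411200, nat_lit 443654400], [], [nat_lit 22982893485, nat_lit 24143100548, nat_lit 25925506284, nat_lit 27098892808, nat_lit 22797786960, nat_lit 23906624816, nat_lit 25642344684, nat_lit 26603019568], nat_lit 0, nat_lit 0, nat_lit 0, nat_lit 0, nat_lit 0, nat_lit 0, [], [nat_lit 66, nat_lit 40, nat_lit 40, nat_lit 80, nat_lit 67, nat_lit 226, nat_lit 20, nat_lit 11]⟩, C1.Rw.none,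
 ⟨nat_lit 0, nat_lit 2237, ⟨.ofNat (nat_lit 668096), .ofNat (nat_lit 784917), .ofNat (nat_lit 689944), .ofNat (nat_lit 807594), .ofNat (nat_lit 672209), .ofNat (nat_lit 774999), .ofNat (nat_lit 696283), .ofNat (nat_lit 799902)⟩, ⟨.ofNat (nat_lit 50000), .ofNat (nat_lit 192306), .ofNat (nat_lit 50000), .ofNat (nat_lit 200000), .ofNat (nat_lit 50000), .ofNat (nat_lit 199999), .ofNat (nat_lit 50000), .ofNat (nat_lit 200000)⟩⟩, [⟨nat_lit 3, nat_lit 100, nat_lit 54, nat_lit 57, nat_lit 228791993⟩]⟩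
noncomputable def p121_l55 : Lf2 := ⟨nat_lit 0, nat_lit 10, [nat_lit 0, nat_lit 5, nat_lit 5, nat_lit 20], false, nat_lit 8, nat_lit 40, nat_lit 0, nat_lit 200, ⟨nat_lit 104, nat_lit 896, nat_lit 0, nat_lit 8, nat_lit 321, nat_lit 896, nat_lit 24, nat_lit 0, nat_lit 0, nat_lit 0, nat_lit 0, nat_lit 0, nat_lit 40456084, nat_lit 26071362, nat_lit 472554, nat_lit 3586926, true, true⟩,
 nat_lit 0, nat_lit 0, nat_lit 1368, nat_lit 0, nat_lit 2649, nat_lit 870, nat_lit 32, nat_lit 0, nat_lit 0, nat_lit 50, nat_lit 0, nat_lit 0, nat_lit 0, nat_lit 0, nat_lit 0, nat_lit 419600, nat_lit 0, nat_lit 0, [(nat_lit 24, [(nat_lit 1, nat_lit 794), (nat_lit 2, nat_lit 102)])],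
 ⟨p121_k12, nat_lit 0, nat_lit 0, nat_lit 151, nat_lit 0, nat_lit 0, [nat_lit 920600000, nat_lit 1084985067, nat_lit 1032043200], [], [nat_lit 26274654293, nat_lit 27253892497, nat_lit 28121068262, nat_lit 29271521033, nat_lit 26014700203, nat_lit 26972847904, nat_lit 27674470905, nat_lit 28556360561], nat_lit 0, nat_lit 0, nat_lit 0, nat_lit 0, nat_lit 0, nat_lit 0, [], [nat_lit 35, nat_lit 40, nat_lit 40, nat_lit 80, nat_lit 22, nat_lit 215, nat_lit 10, nat_lit 8]⟩, ⟨p121_k15, nat_lit 0, nat_lit 0, nat_lit 987, nat_lit 0, nat_lit 1806868, [nat_lit 341328000, nat_lit 650000000, nat_lit 1023568000], [], [nat_lit 3837142226, nat_lit 3841831552, nat_lit 3896294618, nat_lit 3952662340, nat_lit 3285302894, nat_lit 3286385107, nat_lit 3310105226, nat_lit 3310012631], nat_lit 1271250, nat_lit 1271250, nat_lit 1271250, nat_lit 1271250, nat_lit 0, nat_lit 1412500, [nat_lit 780000, nat_lit 1435000, nat_lit 1271250], [nat_lit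 8, nat_lit 40, nat_lit 40, nat_lit 80, nat_lit 1, nat_lit 353, nat_lit 50, nat_lit 9]⟩,
 ⟨nat_lit 2236, nat_lit 3163, ⟨.ofNat (nat_lit 771478), .ofNat (nat_lit 832432), .ofNat (nat_lit 782556), .ofNat (nat_lit 843509), .ofNat (nat_lit 762142), .ofNat (nat_lit 819158), .ofNat (nat_lit 773529), .ofNat (nat_lit 830545)⟩, ⟨.ofNat (nat_lit 20000), .ofNat (nat_lit 100000), .ofNat (nat_lit 20000), .ofNat (nat_lit 100000), .ofNat (nat_lit 20000), .ofNat (nat_lit 100000), .ofNat (nat_lit 20000), .ofNat (nat_lit 100000)⟩⟩, [⟨nat_lit 3, nat_lit 100, nat_lit 61, nat_lit 55, nat_lit 38327393⟩, ⟨nat_lit 3, nat_lit 100, nat_lit 48, nat_lit 71, nat_lit 291484488⟩]⟩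
noncomputable def p121_l56 : Lf2 := ⟨nat_lit 0, nat_lit 10, [nat_lit 0, nat_lit 5, nat_lit 5, nat_lit 20], false, nat_lit 40, nat_lit 80, nat_lit 0, nat_lit 260, ⟨nat_lit 110, nat_lit 890, nat_lit 0, nat_lit 8, nat_lit 322, nat_lit 890, nat_lit 59, nat_lit 0, nat_lit 0, nat_lit 0, nat_lit 0, nat_lit 0, nat_lit 39463443, nat_lit 25751590, nat_lit 1784967, nat_lit 4021824, true, true⟩,
 nat_lit 0, nat_lit 0, nat_lit 1457, nat_lit 0, nat_lit 2647, nat_lit 926, nat_lit 89, nat_lit 0, nat_lit 0, nat_lit 63, nat_lit 0, nat_lit 0, nat_lit 0, nat_lit 0, nat_lit 0, nat_lit 356000, nat_lit 0, nat_lit 0, [(nat_lit 24, [(nat_lit 1, nat_lit 890)])],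
 ⟨p121_k12, nat_lit 0, nat_lit 0, nat_lit 125, nat_lit 0, nat_lit 0, [nat_lit 857900000, nat_lit 1248646667, nat_lit 1365096000], [], [nat_lit 25847748468, nat_lit 26337172463, nat_lit 27540147080, nat_lit 27989401025, nat_lit 25470119158, nat_lit 25946397637, nat_lit 27135435123, nat_lit 27606465569], nat_lit 0, nat_lit 0, nat_lit 0, nat_lit 0, nat_lit 0, nat_lit 0, [], [nat_lit 35, nat_lit 40, nat_lit 40, nat_lit 80, nat_lit 22, nat_lit 226, nat_lit 20, nat_lit 8]⟩, ⟨p121_k15, nat_lit 0, nat_lit 0, nat_lit 907, nat_lit 0, nat_lit 1645547, [nat_lit 361020000, nat_lit 687500000, nat_lit 1082620000], [], [nat_lit 3980842360, nat_lit 3988912160, nat_lit 4060769907, nat_lit 4120573409, nat_lit 3373110258, nat_lit 3374863559, nat_lit 3402212018, nat_lit 3402347646], nat_lit 1271250, nat_lit 1271250, nat_lit 1271250, nat_lit 1271250, nat_lit 0, nat_lit 1836250, [nat_lit 780000, nat_lit 1435000, nat_lit 1271250], [nat_lit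 8, nat_lit 40, nat_lit 40, nat_lit 80, nat_lit 1, nat_lit 341, nat_lit 75, nat_lit 9]⟩,
 ⟨nat_lit 2738, nat_lit 3163, ⟨.ofNat (nat_lit 771478), .ofNat (nat_lit 832432), .ofNat (nat_lit 782555), .ofNat (nat_lit 843509), .ofNat (nat_lit 766852), .ofNat (nat_lit 825913), .ofNat (nat_lit 778060), .ofNat (nat_lit 837122)⟩, ⟨.ofNat (nat_lit 100000), .ofNat (nat_lit 184209), .ofNat (nat_lit 100000), .ofNat (nat_lit 200000), .ofNat (nat_lit 100000), .ofNat (nat_lit 188310), .ofNat (nat_lit 100000), .ofNat (nat_lit 200000)⟩⟩, [⟨nat_lit 22, nat_lit 71, nat_lit 100, nat_lit 71, nat_lit 8675100⟩]⟩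
noncomputable def p121_l57 : Lf2 := ⟨nat_lit 0, nat_lit 10, [nat_lit 0, nat_lit 5, nat_lit 5, nat_lit 20], false, nat_lit 40, nat_lit 80, nat_lit 0, nat_lit 260, ⟨nat_lit 121, nat_lit 879, nat_lit 0, nat_lit 8, nat_lit 320, nat_lit 879, nat_lit 59, nat_lit 0, nat_lit 0, nat_lit 0, nat_lit 0, nat_lit 0, nat_lit 39659347, nat_lit 25531274, nat_lit 1809379, nat_lit 4021551, true, true⟩,
 nat_lit 0, nat_lit 0, nat_lit 1602, nat_lit 0, nat_lit 2438, nat_lit 1019, nat_lit 296, nat_lit 0, nat_lit 0, nat_lit 70, nat_lit 0, nat_lit 0, nat_lit 0, nat_lit 0, nat_lit 0, nat_lit 219750, nat_lit 0, nat_lit 0, [(nat_lit 24, [(nat_lit 0, nat_lit 879)])],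
 ⟨p121_k16, nat_lit 0, nat_lit 0, nat_lit 128, nat_lit 0, nat_lit 0, [nat_lit 784350800, nat_lit 1598890801, nat_lit 2066470400], [], [nat_lit 25963344406, nat_lit 26450089674, nat_lit 27616730238, nat_lit 28064292266, nat_lit 25696242712, nat_lit 26169645942, nat_lit 27308034154, nat_lit 27747244793], nat_lit 0, nat_lit 0, nat_lit 0, nat_lit 0, nat_lit 0, nat_lit 0, [], [nat_lit 35, nat_lit 40, nat_lit 40, nat_lit 80, nat_lit 22, nat_lit 226, nat_lit 20, nat_lit 8]⟩, ⟨p121_k15, nat_lit 0, nat_lit 0, nat_lit 987, nat_lit 0, nat_lit 1806868, [nat_lit 397122000, nat_lit 756250000, nat_lit 1190882000], [], [nat_lit 4376228076, nat_lit 4385100760, nat_lit 4462671850, nat_lit 4528468361, nat_lit 3707305413, nat_lit 3709227927, nat_lit 3739301409, nat_lit 3739443918], nat_lit 1271250, nat_lit 1271250, nat_lit 1271250, nat_lit 1271250, nat_lit 0, nat_lit 1836250, [nat_lit 780000, nat_lit 1435000, nat_lit 1271250], [nat_lit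 8, nat_lit 40, nat_lit 40, nat_lit 80, nat_lit 1, nat_lit 361, nat_lit 75, nat_lit 10]⟩,
 ⟨nat_lit 2236, nat_lit 2739, ⟨.ofNat (nat_lit 766852), .ofNat (nat_lit 825913), .ofNat (nat_lit 778061), .ofNat (nat_lit 837122), .ofNat (nat_lit 762142), .ofNat (nat_lit 819158), .ofNat (nat_lit 773529), .ofNat (nat_lit 830545)⟩, ⟨.ofNat (nat_lit 100000), .ofNat (nat_lit 188310), .ofNat (nat_lit 100000), .ofNat (nat_lit 200000), .ofNat (nat_lit 100000), .ofNat (nat_lit 192306), .ofNat (nat_lit 100000), .ofNat (nat_lit 200000)⟩⟩, [⟨nat_lit 13, nat_lit 53, nat_lit 65, nat_lit 100, nat_lit 206645324⟩, ⟨nat_lit 3, nat_lit 100, nat_lit 48, nat_lit 71, nat_lit 195878270⟩, ⟨nat_lit 22, nat_lit 71, nat_lit 100, nat_lit 71, nat_lit 9538405⟩]⟩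
noncomputable def p121_l58 : Lf2 := ⟨nat_lit 0, nat_lit 10, [nat_lit 0, nat_lit 5, nat_lit 5, nat_lit 20], false, nat_lit 8, nat_lit 40, nat_lit 0, nat_lit 144, ⟨nat_lit 117, nat_lit 883, nat_lit 0, nat_lit 9, nat_lit 338, nat_lit 883, nat_lit 24, nat_lit 0, nat_lit 0, nat_lit 0, nat_lit 0, nat_lit 0, nat_lit 38751903, nat_lit 27788374, nat_lit 459723, nat_lit 3631189, true, true⟩,
 nat_lit 0, nat_lit 0, nat_lit 1493, nat_lit 0, nat_lit 2696, nat_lit 950, nat_lit 85, nat_lit 0, nat_lit 0, nat_lit 61, nat_lit 0, nat_lit 0, nat_lit 0, nat_lit 0, nat_lit 0, nat_lit 382600, nat_lit 0, nat_lit 0, [(nat_lit 24, [(nat_lit 1, nat_lit 834), (nat_lit 2, nat_lit 49)])],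
 ⟨p121_k12, nat_lit 0, nat_lit 0, nat_lit 162, nat_lit 0, nat_lit 0, [nat_lit 888910000, nat_lit 1192602800, nat_lit 1241996800], [], [nat_lit 28242593248, nat_lit 29401074052, nat_lit 29401074052, nat_lit 30498351550, nat_lit 27900816667, nat_lit 28770781912, nat_lit 28770781912, nat_lit 29744876276], nat_lit 0, nat_lit 0, nat_lit 0, nat_lit 0, nat_lit 0, nat_lit 0, [], [nat_lit 35, nat_lit 40, nat_lit 40, nat_lit 80, nat_lit 22, nat_lit 215, nat_lit 10, nat_lit 8]⟩, ⟨p121_k15, nat_lit 0, nat_lit 0, nat_lit 979, nat_lit 0, nat_lit 1806868, [nat_lit 383994000, nat_lit 731250000, nat_lit 1151514000], [], [nat_lit 4533075513, nat_lit 4539354982, nat_lit 4572441106, nat_lit 4601565833, nat_lit 4026135071, nat_lit 4030244344, nat_lit 4058402943, nat_lit 4061516917], nat_lit 1271250, nat_lit 1271250, nat_lit 1271250, nat_lit 1271250, nat_lit 0, nat_lit 968401, [nat_lit 780000, nat_lit 1435000, nat_lit 1271250], [nat_lit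 8, nat_lit 40, nat_lit 40, nat_lit 80, nat_lit 1, nat_lit 347, nat_lit 40, nat_lit 9]⟩,
 ⟨nat_lit 2236, nat_lit 3163, ⟨.ofNat (nat_lit 832432), .ofNat (nat_lit 862908), .ofNat (nat_lit 843509), .ofNat (nat_lit 873986), .ofNat (nat_lit 819158), .ofNat (nat_lit 847666), .ofNat (nat_lit 830545), .ofNat (nat_lit 859053)⟩, ⟨.ofNat (nat_lit 20000), .ofNat (nat_lit 100000), .ofNat (nat_lit 20000), .ofNat (nat_lit 100000), .ofNat (nat_lit 20000), .ofNat (nat_lit 100000), .ofNat (nat_lit 20000), .ofNat (nat_lit 100000)⟩⟩, [⟨nat_lit 13, nat_lit 58, nat_lit 60, nat_lit 100, nat_lit 272839989⟩, ⟨nat_lit 3, nat_lit 100, nat_lit 61, nat_lit 55, nat_lit 263260091⟩, ⟨nat_lit 6, nat_lit 100, nat_lit 97, nat_lit 6, nat_lit 959293⟩]⟩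
noncomputable def p121_l59 : Lf2 := ⟨nat_lit 0, nat_lit 10, [nat_lit 0, nat_lit 5, nat_lit 5, nat_lit 20], false, nat_lit 40, nat_lit 80, nat_lit 0, nat_lit 200, ⟨nat_lit 111, nat_lit 889, nat_lit 0, nat_lit 9, nat_lit 338, nat_lit 889, nat_lit 59, nat_lit 0, nat_lit 0, nat_lit 0, nat_lit 0, nat_lit 0, nat_lit 37936286, nat_lit 27315860, nat_lit 1747854, nat_lit 4056035, true, true⟩,
 nat_lit 0, nat_lit 0, nat_lit 1460, nat_lit 0, nat_lit 2595, nat_lit 929, nat_lit 84, nat_lit 0, nat_lit 0, nat_lit 53, nat_lit 0, nat_lit 0, nat_lit 0, nat_lit 0, nat_lit 0, nat_lit 385600, nat_lit 0, nat_lit 0, [(nat_lit 24, [(nat_lit 1, nat_lit 839), (nat_lit 2, nat_lit 50)])],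
 ⟨p121_k12, nat_lit 0, nat_lit 0, nat_lit 134, nat_lit 0, nat_lit 0, [nat_lit 888990000, nat_lit 1177424667, nat_lit 1216549600], [], [nat_lit 27692738657, nat_lit 28569982494, nat_lit 28569982494, nat_lit 29493981570, nat_lit 27344048687, nat_lit 28195872927, nat_lit 28195872927, nat_lit 29089085292], nat_lit 0, nat_lit 0, nat_lit 0, nat_lit 0, nat_lit 0, nat_lit 0, [], [nat_lit 35, nat_lit 40, nat_lit 40, nat_lit 80, nat_lit 22, nat_lit 226, nat_lit 20, nat_lit 8]⟩, ⟨p121_k15, nat_lit 0, nat_lit 0, nat_lit 979, nat_lit 0, nat_lit 1806868, [nat_lit 364302000, nat_lit 693750000, nat_lit 1092462000], [], [nat_lit 4161217325, nat_lit 4221393026, nat_lit 4362016887, nat_lit 4433068442, nat_lit 3531758579, nat_lit 3531328816, nat_lit 3553965273, nat_lit 3555069582], nat_lit 1271250, nat_lit 1271250, nat_lit 1271250, nat_lit 1271250, nat_lit 0, nat_lit 1412500, [nat_lit 780000, nat_lit 1435000, nat_lit 1271250], [nat_lit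 8, nat_lit 40, nat_lit 40, nat_lit 80, nat_lit 1, nat_lit 354, nat_lit 50, nat_lit 9]⟩,
 ⟨nat_lit 2236, nat_lit 3163, ⟨.ofNat (nat_lit 832432), .ofNat (nat_lit 862908), .ofNat (nat_lit 843509), .ofNat (nat_lit 873986), .ofNat (nat_lit 819158), .ofNat (nat_lit 847666), .ofNat (nat_lit 830545), .ofNat (nat_lit 859053)⟩, ⟨.ofNat (nat_lit 100000), .ofNat (nat_lit 184209), .ofNat (nat_lit 100000), .ofNat (nat_lit 200000), .ofNat (nat_lit 100000), .ofNat (nat_lit 192306), .ofNat (nat_lit 100000), .ofNat (nat_lit 200000)⟩⟩, [⟨nat_lit 13, nat_lit 58, nat_lit 60, nat_lit 100, nat_lit 409795449⟩]⟩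
noncomputable def p121_l60 : Lf2 := ⟨nat_lit 0, nat_lit 10, [nat_lit 0, nat_lit 5, nat_lit 5, nat_lit 20], false, nat_lit 8, nat_lit 80, nat_lit 0, nat_lit 260, ⟨nat_lit 362, nat_lit 638, nat_lit 0, nat_lit 8, nat_lit 334, nat_lit 638, nat_lit 43, nat_lit 0, nat_lit 0, nat_lit 0, nat_lit 0, nat_lit 0, nat_lit 38812970, nat_lit 27095148, nat_lit 1091882, nat_lit 3847994, true, true⟩,
 nat_lit 0, nat_lit 0, nat_lit 3343, nat_lit 0, nat_lit 2791, nat_lit 2219, nat_lit 120, nat_lit 0, nat_lit 0, nat_lit 868, nat_lit 0, nat_lit 0, nat_lit 0, nat_lit 0, nat_lit 0, nat_lit 330800, nat_lit 0, nat_lit 0, [(nat_lit 24, [(nat_lit 1, nat_lit 512), (nat_lit 2, nat_lit 126)])],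
 ⟨p121_k12, nat_lit 0, nat_lit 0, nat_lit 160, nat_lit 0, nat_lit 0, [nat_lit 958700001, nat_lit 1639145867, nat_lit 1922217600], [], [nat_lit 27187197580, nat_lit 27686725854, nat_lit 30009847078, nat_lit 30447627065, nat_lit 26513968585, nat_lit 26989064459, nat_lit 29236090284, nat_lit 29680740031], nat_lit 0, nat_lit 0, nat_lit 0, nat_lit 0, nat_lit 0, nat_lit 0, [], [nat_lit 35, nat_lit 40, nat_lit 40, nat_lit 80, nat_lit 22, nat_lit 226, nat_lit 20, nat_lit 8]⟩, ⟨p121_k18, nat_lit 0, nat_lit 0, nat_lit 831, nat_lit 0, nat_lit 1612297, [nat_lit 1188084000, nat_lit 2262500000, nat_lit 2884416000], [], [nat_lit 12426668056, nat_lit 12470028808, nat_lit 12825460166, nat_lit 12871540178, nat_lit 11548100345, nat_lit 11585561249, nat_lit 11899850553, nat_lit 11928788407], nat_lit 1271250, nat_lit 1271250, nat_lit 1271250, nat_lit 1271250, nat_lit 0, nat_lit 1836250, [nat_lit 780000, nat_lit 1435000, nat_lit 1271250],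 [nat_lit 18, nat_lit 40, nat_lit 40, nat_lit 80, nat_lit 2, nat_lit 326, nat_lit 75, nat_lit 10]⟩,
 ⟨nat_lit 2738, nat_lit 3163, ⟨.ofNat (nat_lit 782555), .ofNat (nat_lit 880081), .ofNat (nat_lit 793629), .ofNat (nat_lit 891158), .ofNat (nat_lit 778060), .ofNat (nat_lit 872559), .ofNat (nat_lit 789265), .ofNat (nat_lit 883768)⟩, ⟨.ofNat (nat_lit 20000), .ofNat (nat_lit 184209), .ofNat (nat_lit 20000), .ofNat (nat_lit 200000), .ofNat (nat_lit 20000), .ofNat (nat_lit 188310), .ofNat (nat_lit 20000), .ofNat (nat_lit 200000)⟩⟩, [⟨nat_lit 10, nat_lit 100, nat_lit 55, nat_lit 67, nat_lit 119349814⟩]⟩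
noncomputable def p121_l61 : Lf2 := ⟨nat_lit 0, nat_lit 10, [nat_lit 0, nat_lit 5, nat_lit 5, nat_lit 20], false, nat_lit 12, nat_lit 80, nat_lit 0, nat_lit 260, ⟨nat_lit 238, nat_lit 762, nat_lit 0, nat_lit 8, nat_lit 330, nat_lit 762, nat_lit 45, nat_lit 0, nat_lit 0, nat_lit 0, nat_lit 0, nat_lit 0, nat_lit 39086331, nat_lit 26722199, nat_lit 1191470, nat_lit 3870462, true, true⟩,
 nat_lit 0, nat_lit 0, nat_lit 2312, nat_lit 0, nat_lit 2484, nat_lit 1535, nat_lit 255, nat_lit 0, nat_lit 0, nat_lit 452, nat_lit 0, nat_lit 0, nat_lit 0, nat_lit 0, nat_lit 0, nat_lit 190500, nat_lit 0, nat_lit 0, [(nat_lit 24, [(nat_lit 0, nat_lit 762)])],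
 ⟨p121_k16, nat_lit 0, nat_lit 0, nat_lit 159, nat_lit 0, nat_lit 0, [nat_lit 804802401, nat_lit 1822922401, nat_lit 2415411200], [], [nat_lit 26810408759, nat_lit 27287241075, nat_lit 29361928237, nat_lit 29801077372, nat_lit 26333309413, nat_lit 26788507389, nat_lit 28841810934, nat_lit 29272741260], nat_lit 0, nat_lit 0, nat_lit 0, nat_lit 0, nat_lit 0, nat_lit 0, [], [nat_lit 35, nat_lit 40, nat_lit 40, nat_lit 80, nat_lit 22, nat_lit 226, nat_lit 20, nat_lit 8]⟩, ⟨p121_k18, nat_lit 0, nat_lit 0, nat_lit 896, nat_lit 0, nat_lit 1760023, [nat_lit 781116000, nat_lit 1487500000, nat_lit 1896384000], [], [nat_lit 8359059269, nat_lit 8382516526, nat_lit 8570954587, nat_lit 8588941740, nat_lit 7643139588, nat_lit 7655182711, nat_lit 7776509959, nat_lit 7784403676], nat_lit 1271250, nat_lit 1271250, nat_lit 1271250, nat_lit 1271250, nat_lit 0, nat_lit 1836250, [nat_lit 780000, nat_lit 1435000, nat_lit 1271250], [nat_lit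 18, nat_lit 40, nat_lit 40, nat_lit 80, nat_lit 2, nat_lit 342, nat_lit 75, nat_lit 10]⟩,
 ⟨nat_lit 2236, nat_lit 2739, ⟨.ofNat (nat_lit 778061), .ofNat (nat_lit 866653), .ofNat (nat_lit 789269), .ofNat (nat_lit 877861), .ofNat (nat_lit 773529), .ofNat (nat_lit 859053), .ofNat (nat_lit 784917), .ofNat (nat_lit 870440)⟩, ⟨.ofNat (nat_lit 30000), .ofNat (nat_lit 188310), .ofNat (nat_lit 30000), .ofNat (nat_lit 200000), .ofNat (nat_lit 30000), .ofNat (nat_lit 192306), .ofNat (nat_lit 30000), .ofNat (nat_lit 200000)⟩⟩, [⟨nat_lit 13, nat_lit 49, nat_lit 68, nat_lit 100, nat_lit 169357793⟩, ⟨nat_lit 3, nat_lit 100, nat_lit 56, nat_lit 60, nat_lit 44461369⟩, ⟨nat_lit 22, nat_lit 71, nat_lit 100, nat_lit 50, nat_lit 70681944⟩]⟩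
noncomputable def p121_l62 : Lf2 := ⟨nat_lit 0, nat_lit 10, [nat_lit 0, nat_lit 5, nat_lit 5, nat_lit 20], false, nat_lit 20, nat_lit 80, nat_lit 0, nat_lit 260, ⟨nat_lit 91, nat_lit 909, nat_lit 0, nat_lit 8, nat_lit 322, nat_lit 909, nat_lit 49, nat_lit 0, nat_lit 0, nat_lit 0, nat_lit 0, nat_lit 0, nat_lit 39733377, nat_lit 25880990, nat_lit 1385633, nat_lit 3906672, true, true⟩,
 nat_lit 0, nat_lit 0, nat_lit 1197, nat_lit 0, nat_lit 2153, nat_lit 761, nat_lit 7, nat_lit 0, nat_lit 0, nat_lit 45, nat_lit 0, nat_lit 0, nat_lit 0, nat_lit 0, nat_lit 0, nat_lit 363600, nat_lit 0, nat_lit 0, [(nat_lit 27, [(nat_lit 1, nat_lit 909)])],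
 ⟨p121_k17, nat_lit 0, nat_lit 0, nat_lit 131, nat_lit 0, nat_lit 0, [nat_lit 719476401, nat_lit 593541600], [], [nat_lit 26117752053, nat_lit 26613602805, nat_lit 28118923738, nat_lit 28636707687, nat_lit 25858741953, nat_lit 26334568870, nat_lit 27787075621, nat_lit 28218463838], nat_lit 0, nat_lit 0, nat_lit 0, nat_lit 0, nat_lit 0, nat_lit 0, [], [nat_lit 66, nat_lit 40, nat_lit 40, nat_lit 80, nat_lit 67, nat_lit 226, nat_lit 20, nat_lit 11]⟩, ⟨p121_k15, nat_lit 0, nat_lit 0, nat_lit 1078, nat_lit 0, nat_lit 2036097, [nat_lit 298662000, nat_lit 568750000, nat_lit 895622000], [], [nat_lit 3429148605, nat_lit 3431682156, nat_lit 3466885789, nat_lit 3562117215, nat_lit 2915048143, nat_lit 2912770872, nat_lit 2931098263, nat_lit 2926160772], nat_lit 1271250, nat_lit 1271250, nat_lit 1271250, nat_lit 1271250, nat_lit 0, nat_lit 1836250, [nat_lit 780000, nat_lit 1435000, nat_lit 1271250], [nat_lit 8, nat_lit 40,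 nat_lit 40, nat_lit 80, nat_lit 1, nat_lit 386, nat_lit 75, nat_lit 10]⟩,
 ⟨nat_lit 1581, nat_lit 2237, ⟨.ofNat (nat_lit 762142), .ofNat (nat_lit 830561), .ofNat (nat_lit 784917), .ofNat (nat_lit 853335), .ofNat (nat_lit 757166), .ofNat (nat_lit 822729), .ofNat (nat_lit 780481), .ofNat (nat_lit 846044)⟩, ⟨.ofNat (nat_lit 50000), .ofNat (nat_lit 192306), .ofNat (nat_lit 50000), .ofNat (nat_lit 200000), .ofNat (nat_lit 50000), .ofNat (nat_lit 196201), .ofNat (nat_lit 50000), .ofNat (nat_lit 200000)⟩⟩, [⟨nat_lit 13, nat_lit 50, nat_lit 65, nat_lit 100, nat_lit 302520901⟩, ⟨nat_lit 3, nat_lit 100, nat_lit 44, nat_lit 71, nat_lit 221977608⟩, ⟨nat_lit 10, nat_lit 100, nat_lit 50, nat_lit 71, nat_lit 8835121⟩]⟩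
noncomputable def p121_l63 : Lf2 := ⟨nat_lit 0, nat_lit 10, [nat_lit 0, nat_lit 5, nat_lit 5, nat_lit 20], true, nat_lit 36, nat_lit 80, nat_lit 0, nat_lit 260, ⟨nat_lit 0, nat_lit 1000, nat_lit 0, nat_lit 8, nat_lit 315, nat_lit 1000, nat_lit 58, nat_lit 0, nat_lit 0, nat_lit 0, nat_lit 0, nat_lit 0, nat_lit 40169914, nat_lit 25062605, nat_lit 1767481, nat_lit 3993283, true, true⟩,
 nat_lit 0, nat_lit 0, nat_lit 0, nat_lit 0, nat_lit 2213, nat_lit 0, nat_lit 0, nat_lit 0, nat_lit 0, nat_lit 0, nat_lit 0, nat_lit 0, nat_lit 0, nat_lit 0, nat_lit 0, nat_lit 361150, nat_lit 0, nat_lit 0, [(nat_lit 27, [(nat_lit 0, nat_lit 259), (nat_lit 1, nat_lit 741)])],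
 ⟨p121_k19, nat_lit 0, nat_lit 0, nat_lit 124, nat_lit 0, nat_lit 0, [nat_lit 719148800, nat_lit 510465600], [], [nat_lit 26427220703, nat_lit 26926204961, nat_lit 27767408348, nat_lit 28307382444, nat_lit 26198770411, nat_lit 26679168668, nat_lit 27452159463, nat_lit 27934143551], nat_lit 0, nat_lit 0, nat_lit 0, nat_lit 0, nat_lit 0, nat_lit 0, [], [nat_lit 66, nat_lit 40, nat_lit 40, nat_lit 80, nat_lit 67, nat_lit 226, nat_lit 20, nat_lit 10]⟩, C1.Rw.none,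
 ⟨nat_lit 0, nat_lit 1582, ⟨.ofNat (nat_lit 757165), .ofNat (nat_lit 800872), .ofNat (nat_lit 780481), .ofNat (nat_lit 824188), .ofNat (nat_lit 749998), .ofNat (nat_lit 789996), .ofNat (nat_lit 774999), .ofNat (nat_lit 814997)⟩, ⟨.ofNat (nat_lit 90000), .ofNat (nat_lit 196201), .ofNat (nat_lit 90000), .ofNat (nat_lit 200000), .ofNat (nat_lit 90000), .ofNat (nat_lit 199999), .ofNat (nat_lit 90000), .ofNat (nat_lit 200000)⟩⟩, [⟨nat_lit 13, nat_lit 36, nat_lit 77, nat_lit 100, nat_lit 547600253⟩, ⟨nat_lit 3, nat_lit 100, nat_lit 39, nat_lit 72, nat_lit 337555435⟩]⟩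
noncomputable def p121_l64 : Lf2 := ⟨nat_lit 0, nat_lit 10, [nat_lit 0, nat_lit 5, nat_lit 5, nat_lit 20], false, nat_lit 8, nat_lit 80, nat_lit 0, nat_lit 260, ⟨nat_lit 344, nat_lit 656, nat_lit 0, nat_lit 8, nat_lit 343, nat_lit 656, nat_lit 43, nat_lit 0, nat_lit 0, nat_lit 0, nat_lit 0, nat_lit 0, nat_lit 37971056, nat_lit 27952923, nat_lit 1076021, nat_lit 3864225, true, true⟩,
 nat_lit 0, nat_lit 0, nat_lit 2905, nat_lit 0, nat_lit 2786, nat_lit 2011, nat_lit 119, nat_lit 0, nat_lit 0, nat_lit 527, nat_lit 0, nat_lit 0, nat_lit 0, nat_lit 0, nat_lit 0, nat_lit 384800, nat_lit 0, nat_lit 0, [(nat_lit 24, [(nat_lit 1, nat_lit 452), (nat_lit 2, nat_lit 204)])],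
 ⟨p121_k12, nat_lit 0, nat_lit 0, nat_lit 163, nat_lit 0, nat_lit 0, [nat_lit 1005440001, nat_lit 1483351467, nat_lit 1617456000], [], [nat_lit 27204272612, nat_lit 27698801634, nat_lit 30457481871, nat_lit 30893045080, nat_lit 26621163879, nat_lit 27088158749, nat_lit 29716940897, nat_lit 30133607273], nat_lit 0, nat_lit 0, nat_lit 0, nat_lit 0, nat_lit 0, nat_lit 0, [], [nat_lit 35, nat_lit 40, nat_lit 40, nat_lit 80, nat_lit 22, nat_lit 226, nat_lit 20, nat_lit 8]⟩, ⟨p121_k13, nat_lit 0, nat_lit 0, nat_lit 851, nat_lit 0, nat_lit 1654012, [nat_lit 1129008000, nat_lit 2150000000, nat_lit 2740992000], [], [nat_lit 11978251536, nat_lit 12092877918, nat_lit 12584534643, nat_lit 12707164418, nat_lit 11470826909, nat_lit 11571028452, nat_lit 11952751763, nat_lit 12031587065], nat_lit 1271250, nat_lit 1271250, nat_lit 1271250, nat_lit 1271250, nat_lit 0, nat_lit 1836250, [nat_lit 780000, nat_lit 1435000, nat_lit 1271250],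 [nat_lit 18, nat_lit 40, nat_lit 40, nat_lit 80, nat_lit 2, nat_lit 335, nat_lit 75, nat_lit 10]⟩,
 ⟨nat_lit 2738, nat_lit 3163, ⟨.ofNat (nat_lit 793629), .ofNat (nat_lit 903349), .ofNat (nat_lit 815772), .ofNat (nat_lit 925504), .ofNat (nat_lit 789265), .ofNat (nat_lit 895580), .ofNat (nat_lit 811670), .ofNat (nat_lit 917997)⟩, ⟨.ofNat (nat_lit 20000), .ofNat (nat_lit 184209), .ofNat (nat_lit 20000), .ofNat (nat_lit 200000), .ofNat (nat_lit 20000), .ofNat (nat_lit 188310), .ofNat (nat_lit 20000), .ofNat (nat_lit 200000)⟩⟩, [⟨nat_lit 13, nat_lit 68, nat_lit 45, nat_lit 100, nat_lit 4251083⟩, ⟨nat_lit 10, nat_lit 100, nat_lit 55, nat_lit 67, nat_lit 123954694⟩]⟩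
noncomputable def p121_l65 : Lf2 := ⟨nat_lit 0, nat_lit 10, [nat_lit 0, nat_lit 5, nat_lit 5, nat_lit 20], false, nat_lit 12, nat_lit 80, nat_lit 0, nat_lit 260, ⟨nat_lit 313, nat_lit 687, nat_lit 0, nat_lit 8, nat_lit 339, nat_lit 687, nat_lit 45, nat_lit 0, nat_lit 0, nat_lit 0, nat_lit 0, nat_lit 0, nat_lit 38240173, nat_lit 27585492, nat_lit 1174335, nat_lit 3887910, true, true⟩,
 nat_lit 0, nat_lit 0, nat_lit 2728, nat_lit 0, nat_lit 2405, nat_lit 1888, nat_lit 459, nat_lit 0, nat_lit 0, nat_lit 423, nat_lit 0, nat_lit 0, nat_lit 0, nat_lit 0, nat_lit 0, nat_lit 171750, nat_lit 0, nat_lit 0, [(nat_lit 24, [(nat_lit 0, nat_lit 687)])],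
 ⟨p121_k16, nat_lit 0, nat_lit 0, nat_lit 162, nat_lit 0, nat_lit 0, [nat_lit 817912401, nat_lit 1966532400, nat_lit 2639091200], [], [nat_lit 26604580009, nat_lit 27087354252, nat_lit 29557358788, nat_lit 29994786548, nat_lit 26245514513, nat_lit 26705861663, nat_lit 29079853591, nat_lit 29498625896], nat_lit 0, nat_lit 0, nat_lit 0, nat_lit 0, nat_lit 0, nat_lit 0, [], [nat_lit 35, nat_lit 40, nat_lit 40, nat_lit 80, nat_lit 22, nat_lit 226, nat_lit 20, nat_lit 8]⟩, ⟨p121_k13, nat_lit 0, nat_lit 0, nat_lit 905, nat_lit 0, nat_lit 1786275, [nat_lit 1027266000, nat_lit 1956250000, nat_lit 2493984000], [], [nat_lit 11081621502, nat_lit 11171376090, nat_lit 11490607819, nat_lit 11571418819, nat_lit 10426925175, nat_lit 10483015672, nat_lit 10743734378, nat_lit 10804627471], nat_lit 1271250, nat_lit 1271250, nat_lit 1271250, nat_lit 1271250, nat_lit 0, nat_lit 1836250, [nat_lit 780000, nat_lit 1435000, nat_lit 1271250],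 [nat_lit 18, nat_lit 40, nat_lit 40, nat_lit 80, nat_lit 2, nat_lit 348, nat_lit 75, nat_lit 11]⟩,
 ⟨nat_lit 2236, nat_lit 2739, ⟨.ofNat (nat_lit 789269), .ofNat (nat_lit 889674), .ofNat (nat_lit 811671), .ofNat (nat_lit 912091), .ofNat (nat_lit 784917), .ofNat (nat_lit 881843), .ofNat (nat_lit 807675), .ofNat (nat_lit 904617)⟩, ⟨.ofNat (nat_lit 30000), .ofNat (nat_lit 188310), .ofNat (nat_lit 30000), .ofNat (nat_lit 200000), .ofNat (nat_lit 30000), .ofNat (nat_lit 192306), .ofNat (nat_lit 30000), .ofNat (nat_lit 200000)⟩⟩, [⟨nat_lit 13, nat_lit 58, nat_lit 56, nat_lit 100, nat_lit 34944263⟩, ⟨nat_lit 10, nat_lit 100, nat_lit 53, nat_lit 68, nat_lit 107984218⟩]⟩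
noncomputable def p121_l66 : Lf2 := ⟨nat_lit 0, nat_lit 10, [nat_lit 0, nat_lit 5, nat_lit 5, nat_lit 20], false, nat_lit 20, nat_lit 80, nat_lit 0, nat_lit 260, ⟨nat_lit 181, nat_lit 819, nat_lit 0, nat_lit 8, nat_lit 333, nat_lit 819, nat_lit 50, nat_lit 0, nat_lit 0, nat_lit 0, nat_lit 0, nat_lit 0, nat_lit 38704432, nat_lit 26925483, nat_lit 1370085, nat_lit 3933092, true, true⟩,
 nat_lit 0, nat_lit 0, nat_lit 1677, nat_lit 0, nat_lit 2224, nat_lit 1161, nat_lit 72, nat_lit 0, nat_lit 0, nat_lit 209, nat_lit 0, nat_lit 0, nat_lit 0, nat_lit 0, nat_lit 0, nat_lit 327600, nat_lit 0, nat_lit 0, [(nat_lit 27, [(nat_lit 1, nat_lit 819)])],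
 ⟨p121_k17, nat_lit 0, nat_lit 0, nat_lit 136, nat_lit 0, nat_lit 0, [nat_lit 741112401, nat_lit 859725600], [], [nat_lit 26454766969, nat_lit 27435516741, nat_lit 29014041310, nat_lit 29937700454, nat_lit 26220438685, nat_lit 27160667901, nat_lit 28625976149, nat_lit 29511629606], nat_lit 0, nat_lit 0, nat_lit 0, nat_lit 0, nat_lit 0, nat_lit 0, [], [nat_lit 66, nat_lit 40, nat_lit 40, nat_lit 80, nat_lit 67, nat_lit 226, nat_lit 20, nat_lit 11]⟩, ⟨p121_k13, nat_lit 0, nat_lit 0, nat_lit 1029, nat_lit 0, nat_lit 2066522, [nat_lit 594042000, nat_lit 1131250000, nat_lit 1442208000], [], [nat_lit 6390460422, nat_lit 6426943058, nat_lit 6546637955, nat_lit 6728589530, nat_lit 5913519148, nat_lit 5932827063, nat_lit 6012121538, nat_lit 6025397592], nat_lit 1271250, nat_lit 1271250, nat_lit 1271250, nat_lit 1271250, nat_lit 0, nat_lit 1836250, [nat_lit 780000, nat_lit 1435000, nat_lit 1271250], [nat_lit 18, nat_lit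 40, nat_lit 40, nat_lit 80, nat_lit 2, nat_lit 378, nat_lit 75, nat_lit 12]⟩,
 ⟨nat_lit 0, nat_lit 2237, ⟨.ofNat (nat_lit 784917), .ofNat (nat_lit 870437), .ofNat (nat_lit 807594), .ofNat (nat_lit 893212), .ofNat (nat_lit 774999), .ofNat (nat_lit 849996), .ofNat (nat_lit 799902), .ofNat (nat_lit 874997)⟩, ⟨.ofNat (nat_lit 50000), .ofNat (nat_lit 192306), .ofNat (nat_lit 50000), .ofNat (nat_lit 200000), .ofNat (nat_lit 50000), .ofNat (nat_lit 199999), .ofNat (nat_lit 50000), .ofNat (nat_lit 200000)⟩⟩, [⟨nat_lit 13, nat_lit 37, nat_lit 74, nat_lit 100, nat_lit 233446318⟩, ⟨nat_lit 3, nat_lit 100, nat_lit 36, nat_lit 77, nat_lit 182233225⟩, ⟨nat_lit 10, nat_lit 100, nat_lit 50, nat_lit 71, nat_lit 47061606⟩]⟩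
noncomputable def b_V_900_700_20_1 : St := ⟨true, nat_lit 0, nat_lit 1, nat_lit 1, nat_lit 120, nat_lit 360, nat_lit 400, nat_lit 280, nat_lit 320, nat_lit 240, nat_lit 392, nat_lit 80, nat_lit 120, nat_lit 8, nat_lit 80, nat_lit 0, nat_lit 336, nat_lit 0, nat_lit 40, nat_lit 0, nat_lit 0, nat_lit 0, nat_lit 0⟩
theorem d_V_900_700_20_1 (h : EB TB.env) : Dead b_V_900_700_20_1 := chkB_sound0 h (T :=
(.spl (nat_lit 2) (nat_lit 320)
(.spl (nat_lit 1) (nat_lit 300)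
(.spl (nat_lit 2) (nat_lit 280)
(.leaf p121_l49)
(.trX (nat_lit 22) (nat_lit 100) (nat_lit 95) (nat_lit 87) (nat_lit 300) (.spl (nat_lit 0) (nat_lit 380)
(.spl (nat_lit 0) (nat_lit 370)
(.leaf p121_l50)
(.trZ (nat_lit 3) (nat_lit 100) (nat_lit 66) (nat_lit 45) (nat_lit 12) (.leaf p121_l51)))
(.trZ (nat_lit 3) (nat_lit 100) (nat_lit 54) (nat_lit 57) (nat_lit 20) (.leaf p121_l52)))))
(.trX (nat_lit 19) (nat_lit 94) (nat_lit 88) (nat_lit 100) (nat_lit 320) (.spl (nat_lit 0) (nat_lit 380)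
(.leaf p121_l53)
(.trZ (nat_lit 3) (nat_lit 100) (nat_lit 54) (nat_lit 57) (nat_lit 20) (.leaf p121_l54)))))
(.trX (nat_lit 22) (nat_lit 83) (nat_lit 100) (nat_lit 83) (nat_lit 260) (.spl (nat_lit 1) (nat_lit 300)
(.trX (nat_lit 13) (nat_lit 69) (nat_lit 45) (nat_lit 100) (nat_lit 384) (.spl (nat_lit 0) (nat_lit 380)
(.spl (nat_lit 1) (nat_lit 290)
(.trX (nat_lit 13) (nat_lit 67) (nat_lit 50) (nat_lit 100) (nat_lit 380) (.spl (nat_lit 2) (nat_lit 360)
(.spl (nat_lit 4) (nat_lit 40)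
(.trX (nat_lit 22) (nat_lit 80) (nat_lit 100) (nat_lit 60) (nat_lit 200) (.leaf p121_l55))
(.spl (nat_lit 0) (nat_lit 370)
(.leaf p121_l56)
(.leaf p121_l57)))
(.trX (nat_lit 22) (nat_lit 60) (nat_lit 100) (nat_lit 80) (nat_lit 200) (.spl (nat_lit 4) (nat_lit 40)
(.trX (nat_lit 22) (nat_lit 625) (nat_lit 1000) (nat_lit 625) (nat_lit 144) (.leaf p121_l58))
(.leaf p121_l59)))))
(.spl (nat_lit 0) (nat_lit 370)
(.leaf p121_l60)
(.trX (nat_lit 13) (nat_lit 61) (nat_lit 55) (nat_lit 100) (nat_lit 380) (.trZ (nat_lit 3) (nat_lit 100) (nat_lit 66) (nat_lit 45) (nat_lit 12) (.leaf p121_l61)))))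
(.trX (nat_lit 13) (nat_lit 50) (nat_lit 65) (nat_lit 100) (nat_lit 368) (.trZ (nat_lit 3) (nat_lit 100) (nat_lit 54) (nat_lit 57) (nat_lit 20) (.spl (nat_lit 0) (nat_lit 390)
(.leaf p121_l62)
(.trX (nat_lit 13) (nat_lit 36) (nat_lit 77) (nat_lit 100) (nat_lit 352) (.trZ (nat_lit 3) (nat_lit 100) (nat_lit 39) (nat_lit 72) (nat_lit 36) (.leaf p121_l63))))))))
(.spl (nat_lit 0) (nat_lit 380)
(.spl (nat_lit 0) (nat_lit 370)
(.leaf p121_l64)
(.trX (nat_lit 13) (nat_lit 66) (nat_lit 45) (nat_lit 100) (nat_lit 388) (.trZ (nat_lit 3) (nat_lit 100) (nat_lit 66) (nat_lit 45) (nat_lit 12) (.leaf p121_l65))))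
(.trX (nat_lit 13) (nat_lit 54) (nat_lit 57) (nat_lit 100) (nat_lit 380) (.trZ (nat_lit 3) (nat_lit 100) (nat_lit 54) (nat_lit 57) (nat_lit 20) (.leaf p121_l66)))))))) (by decide +kernel)
noncomputable def p121_l67 : Lf2 := ⟨nat_lit 0, nat_lit 10, [nat_lit 0, nat_lit 5, nat_lit 5, nat_lit 20], true, nat_lit 80, nat_lit 160, nat_lit 0, nat_lit 336, ⟨nat_lit 0, nat_lit 1000, nat_lit 0, nat_lit 7, nat_lit 291, nat_lit 1000, nat_lit 105, nat_lit 0, nat_lit 0, nat_lit 0, nat_lit 0, nat_lit 0, nat_lit 40608823, nat_lit 22019916, nat_lit 4371261, nat_lit 4485919, true, false⟩,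
 nat_lit 0, nat_lit 0, nat_lit 0, nat_lit 0, nat_lit 3090, nat_lit 0, nat_lit 0, nat_lit 0, nat_lit 0, nat_lit 0, nat_lit 0, nat_lit 0, nat_lit 0, nat_lit 0, nat_lit 0, nat_lit 313750, nat_lit 0, nat_lit 0, [(nat_lit 24, [(nat_lit 0, nat_lit 575), (nat_lit 1, nat_lit 425)]), (nat_lit 27, [(nat_lit 0, nat_lit 575), (nat_lit 1, nat_lit 425)])],
 ⟨p121_k12, nat_lit 0, nat_lit 0, nat_lit 102, nat_lit 0, nat_lit 0, [nat_lit 809360001, nat_lit 1210006667, nat_lit 1386340000], [], [nat_lit 22217991988, nat_lit 24585694907, nat_lit 25244129188, nat_lit 27673464440, nat_lit 23002776468, nat_lit 25153265508, nat_lit 25766448068, nat_lit 27768890960], nat_lit 0, nat_lit 0, nat_lit 0, nat_lit 0, nat_lit 0, nat_lit 0, [], [nat_lit 35, nat_lit 40, nat_lit 40, nat_lit 80, nat_lit 22, nat_lit 249, nat_lit 40, nat_lit 10]⟩, C1.Rw.none,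
 ⟨nat_lit 0, nat_lit 3163, ⟨.ofNat (nat_lit 646918), .ofNat (nat_lit 771478), .ofNat (nat_lit 688618), .ofNat (nat_lit 815384), .ofNat (nat_lit 647345), .ofNat (nat_lit 749999), .ofNat (nat_lit 694736), .ofNat (nat_lit 799594)⟩, ⟨.ofNat (nat_lit 184209), .ofNat (nat_lit 306113), .ofNat (nat_lit 200000), .ofNat (nat_lit 350425), .ofNat (nat_lit 199999), .ofNat (nat_lit 299996), .ofNat (nat_lit 200000), .ofNat (nat_lit 349998)⟩⟩, []⟩
noncomputable def p121_l68 : Lf2 := ⟨nat_lit 0, nat_lit 10, [nat_lit 0, nat_lit 5, nat_lit 5, nat_lit 20], true, nat_lit 80, nat_lit 160, nat_lit 0, nat_lit 336, ⟨nat_lit 0, nat_lit 1000, nat_lit 0, nat_lit 8, nat_lit 323, nat_lit 1000, nat_lit 105, nat_lit 0, nat_lit 0, nat_lit 0, nat_lit 0, nat_lit 0, nat_lit 37783028, nat_lit 25046864, nat_lit 4170108, nat_lit 4565759, true, true⟩,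
 nat_lit 0, nat_lit 0, nat_lit 0, nat_lit 0, nat_lit 2690, nat_lit 0, nat_lit 0, nat_lit 0, nat_lit 0, nat_lit 0, nat_lit 0, nat_lit 0, nat_lit 0, nat_lit 0, nat_lit 0, nat_lit 400000, nat_lit 0, nat_lit 0, [(nat_lit 24, [(nat_lit 1, nat_lit 1000)])],
 ⟨p121_k12, nat_lit 0, nat_lit 0, nat_lit 105, nat_lit 0, nat_lit 0, [nat_lit 848000000, nat_lit 997333334, nat_lit 954400000], [], [nat_lit 25187744654, nat_lit 26146051314, nat_lit 26846235094, nat_lit 27731494460, nat_lit 25839650734, nat_lit 26718852994, nat_lit 27363326974, nat_lit 28173887914], nat_lit 0, nat_lit 0, nat_lit 0, nat_lit 0, nat_lit 0, nat_lit 0, [], [nat_lit 35, nat_lit 40, nat_lit 40, nat_lit 80, nat_lit 22, nat_lit 249, nat_lit 40, nat_lit 9]⟩, C1.Rw.none,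
 ⟨nat_lit 2236, nat_lit 3163, ⟨.ofNat (nat_lit 771478), .ofNat (nat_lit 832432), .ofNat (nat_lit 793619), .ofNat (nat_lit 854586), .ofNat (nat_lit 762142), .ofNat (nat_lit 819158), .ofNat (nat_lit 784902), .ofNat (nat_lit 841932)⟩, ⟨.ofNat (nat_lit 184209), .ofNat (nat_lit 306116), .ofNat (nat_lit 200000), .ofNat (nat_lit 350426), .ofNat (nat_lit 192306), .ofNat (nat_lit 306337), .ofNat (nat_lit 200000), .ofNat (nat_lit 351886)⟩⟩, []⟩
noncomputable def p121_l69 : Lf2 := ⟨nat_lit 0, nat_lit 10, [nat_lit 0, nat_lit 5, nat_lit 5, nat_lit 20], false, nat_lit 80, nat_lit 160, nat_lit 0, nat_lit 320, ⟨nat_lit 128, nat_lit 872, nat_lit 0, nat_lit 8, nat_lit 332, nat_lit 872, nat_lit 105, nat_lit 0, nat_lit 0, nat_lit 0, nat_lit 0, nat_lit 0, nat_lit 37023095, nat_lit 25865312, nat_lit 4111593, nat_lit 4578476, true, true⟩,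
 nat_lit 0, nat_lit 0, nat_lit 1218, nat_lit 0, nat_lit 3103, nat_lit 842, nat_lit 0, nat_lit 0, nat_lit 0, nat_lit 64, nat_lit 0, nat_lit 0, nat_lit 0, nat_lit 0, nat_lit 0, nat_lit 327500, nat_lit 0, nat_lit 0, [(nat_lit 24, [(nat_lit 0, nat_lit 142), (nat_lit 1, nat_lit 730)])],
 ⟨p121_k12, nat_lit 0, nat_lit 0, nat_lit 105, nat_lit 0, nat_lit 0, [nat_lit 847478400, nat_lit 1342291734, nat_lit 1538971200], [], [nat_lit 25549302218, nat_lit 26562832760, nat_lit 27297049396, nat_lit 28475032402, nat_lit 26067409514, nat_lit 26994335576, nat_lit 27660261602, nat_lit 28511513780], nat_lit 0, nat_lit 0, nat_lit 0, nat_lit 0, nat_lit 0, nat_lit 0, [], [nat_lit 35, nat_lit 40, nat_lit 40, nat_lit 80, nat_lit 22, nat_lit 249, nat_lit 40, nat_lit 9]⟩, ⟨p121_k13, nat_lit 0, nat_lit 0, nat_lit 905, nat_lit 0, nat_lit 1786275, [nat_lit 420096000, nat_lit 800000000, nat_lit 1019904000], [], [nat_lit 4544538532, nat_lit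 4576967816, nat_lit 4630200484, nat_lit 4658085112, nat_lit 4206289128, nat_lit 4219966552, nat_lit 4250795680, nat_lit 4261355688], nat_lit 1271250, nat_lit 1271250, nat_lit 1271250, nat_lit 1271250, nat_lit 0, nat_lit 2260000, [nat_lit 780000, nat_lit 1435000, nat_lit 1271250], [nat_lit 18, nat_lit 40, nat_lit 40, nat_lit 80, nat_lit 2, nat_lit 352, nat_lit 100, nat_lit 11]⟩,
 ⟨nat_lit 2236, nat_lit 3163, ⟨.ofNat (nat_lit 793619), .ofNat (nat_lit 854586), .ofNat (nat_lit 815720), .ofNat (nat_lit 876741), .ofNat (nat_lit 784902), .ofNat (nat_lit 841932), .ofNat (nat_lit 807623), .ofNat (nat_lit 864706)⟩, ⟨.ofNat (nat_lit 184209), .ofNat (nat_lit 306116), .ofNat (nat_lit 200000), .ofNat (nat_lit 350426), .ofNat (nat_lit 192306), .ofNat (nat_lit 306337), .ofNat (nat_lit 200000), .ofNat (nat_lit 351886)⟩⟩, [⟨nat_lit 22, nat_lit 77, nat_lit 100, nat_lit 99, nat_lit 22849406⟩]⟩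
noncomputable def p121_l70 : Lf2 := ⟨nat_lit 0, nat_lit 10, [nat_lit 0, nat_lit 5, nat_lit 5, nat_lit 20], true, nat_lit 80, nat_lit 160, nat_lit 0, nat_lit 336, ⟨nat_lit 0, nat_lit 1000, nat_lit 0, nat_lit 8, nat_lit 323, nat_lit 1000, nat_lit 105, nat_lit 0, nat_lit 0, nat_lit 0, nat_lit 0, nat_lit 0, nat_lit 37794299, nat_lit 25006599, nat_lit 4199102, nat_lit 4570267, true, true⟩,
 nat_lit 0, nat_lit 0, nat_lit 0, nat_lit 0, nat_lit 2313, nat_lit 0, nat_lit 0, nat_lit 0, nat_lit 0, nat_lit 0, nat_lit 0, nat_lit 0, nat_lit 0, nat_lit 0, nat_lit 0, nat_lit 322600, nat_lit 0, nat_lit 0, [(nat_lit 27, [(nat_lit 0, nat_lit 516), (nat_lit 1, nat_lit 484)])],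
 ⟨p121_k17, nat_lit 0, nat_lit 0, nat_lit 97, nat_lit 0, nat_lit 0, [nat_lit 740531200, nat_lit 695094400], [], [nat_lit 25533956386, nat_lit 26532494368, nat_lit 27191911898, nat_lit 28109610908, nat_lit 26298508412, nat_lit 27215661416, nat_lit 27827977714, nat_lit 28673940024], nat_lit 0, nat_lit 0, nat_lit 0, nat_lit 0, nat_lit 0, nat_lit 0, [], [nat_lit 66, nat_lit 40, nat_lit 40, nat_lit 80, nat_lit 67, nat_lit 249, nat_lit 40, nat_lit 12]⟩, C1.Rw.none,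
 ⟨nat_lit 0, nat_lit 2237, ⟨.ofNat (nat_lit 762141), .ofNat (nat_lit 819154), .ofNat (nat_lit 807594), .ofNat (nat_lit 864705), .ofNat (nat_lit 749998), .ofNat (nat_lit 799995), .ofNat (nat_lit 799902), .ofNat (nat_lit 849998)⟩, ⟨.ofNat (nat_lit 192306), .ofNat (nat_lit 306334), .ofNat (nat_lit 200000), .ofNat (nat_lit 351885), .ofNat (nat_lit 199999), .ofNat (nat_lit 299996), .ofNat (nat_lit 200000), .ofNat (nat_lit 349998)⟩⟩, [⟨nat_lit 13, nat_lit 36, nat_lit 77, nat_lit 100, nat_lit 47497795⟩]⟩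
noncomputable def p121_l71 : Lf2 := ⟨nat_lit 0, nat_lit 10, [nat_lit 0, nat_lit 5, nat_lit 5, nat_lit 20], false, nat_lit 80, nat_lit 160, nat_lit 8, nat_lit 288, ⟨nat_lit 65, nat_lit 935, nat_lit 0, nat_lit 9, nat_lit 338, nat_lit 935, nat_lit 105, nat_lit 0, nat_lit 0, nat_lit 0, nat_lit 0, nat_lit 0, nat_lit 36533883, nat_lit 26394628, nat_lit 4071489, nat_lit 4584474, true, true⟩,
 nat_lit 0, nat_lit 0, nat_lit 852, nat_lit 0, nat_lit 2829, nat_lit 542, nat_lit 0, nat_lit 0, nat_lit 0, nat_lit 26, nat_lit 0, nat_lit 0, nat_lit 0, nat_lit 0, nat_lit 0, nat_lit 374000, nat_lit 0, nat_lit 0, [(nat_lit 24, [(nat_lit 1, nat_lit 935)]), (nat_lit 27, [(nat_lit 1, nat_lit 935)])],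
 ⟨p121_k12, nat_lit 0, nat_lit 0, nat_lit 119, nat_lit 0, nat_lit 0, [nat_lit 853850000, nat_lit 1145836667, nat_lit 1197084000], [], [nat_lit 27079739483, nat_lit 29121230944, nat_lit 28209638898, nat_lit 30347231647, nat_lit 27547632591, nat_lit 29196144699, nat_lit 28536739856, nat_lit 30324301329], nat_lit 0, nat_lit 0, nat_lit 0, nat_lit 0, nat_lit 0, nat_lit 0, [], [nat_lit 35, nat_lit 40, nat_lit 40, nat_lit 80, nat_lit 22, nat_lit 249, nat_lit 40, nat_lit 9]⟩, ⟨p121_k15, nat_lit 0, nat_lit 0, nat_lit 1149, nat_lit 0, nat_lit 2205925, [nat_lit 213330000, nat_lit 406250000, nat_lit 639730000], [], [nat_lit 2548069380, nat_lit 2544261919, nat_lit 2568237915, nat_lit 2631077116, nat_lit 2157755038, nat_lit 2149225550, nat_lit 2191277326, nat_lit 2233061246], nat_lit 1271250, nat_lit 1271250, nat_lit 1271250, nat_lit 1271250, nat_lit 43600, nat_lit 2042100, [nat_lit 780000, nat_lit 1435000, nat_lit 1271250],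 [nat_lit 8, nat_lit 40, nat_lit 40, nat_lit 80, nat_lit 1, nat_lit 409, nat_lit 75, nat_lit 11]⟩,
 ⟨nat_lit 0, nat_lit 3163, ⟨.ofNat (nat_lit 832430), .ofNat (nat_lit 869001), .ofNat (nat_lit 854585), .ofNat (nat_lit 891156), .ofNat (nat_lit 799997), .ofNat (nat_lit 829996), .ofNat (nat_lit 824998), .ofNat (nat_lit 854997)⟩, ⟨.ofNat (nat_lit 184209), .ofNat (nat_lit 306113), .ofNat (nat_lit 200000), .ofNat (nat_lit 350425), .ofNat (nat_lit 199999), .ofNat (nat_lit 299996), .ofNat (nat_lit 200000), .ofNat (nat_lit 349998)⟩⟩, [⟨nat_lit 13, nat_lit 49, nat_lit 68, nat_lit 100, nat_lit 362721254⟩, ⟨nat_lit 22, nat_lit 51, nat_lit 100, nat_lit 92, nat_lit 9817893⟩]⟩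
noncomputable def p121_l72 : Lf2 := ⟨nat_lit 0, nat_lit 10, [nat_lit 0, nat_lit 5, nat_lit 5, nat_lit 20], false, nat_lit 80, nat_lit 160, nat_lit 8, nat_lit 288, ⟨nat_lit 151, nat_lit 849, nat_lit 0, nat_lit 9, nat_lit 353, nat_lit 849, nat_lit 105, nat_lit 0, nat_lit 0, nat_lit 0, nat_lit 0, nat_lit 0, nat_lit 35272861, nat_lit 27756169, nat_lit 3970970, nat_lit 4594118, true, true⟩,
 nat_lit 0, nat_lit 0, nat_lit 1425, nat_lit 0, nat_lit 2825, nat_lit 986, nat_lit 0, nat_lit 0, nat_lit 0, nat_lit 77, nat_lit 0, nat_lit 0, nat_lit 0, nat_lit 0, nat_lit 0, nat_lit 406200, nat_lit 0, nat_lit 0, [(nat_lit 24, [(nat_lit 1, nat_lit 738), (nat_lit 2, nat_lit 111)])],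
 ⟨p121_k12, nat_lit 0, nat_lit 0, nat_lit 115, nat_lit 0, nat_lit 0, [nat_lit 930410000, nat_lit 1179133200, nat_lit 1180112000], [], [nat_lit 27177330000, nat_lit 28073421900, nat_lit 28657840940, nat_lit 29702510550, nat_lit 27646638900, nat_lit 28470500850, nat_lit 28964818021, nat_lit 29732326491], nat_lit 0, nat_lit 0, nat_lit 0, nat_lit 0, nat_lit 0, nat_lit 0, [], [nat_lit 35, nat_lit 40, nat_lit 40, nat_lit 80, nat_lit 22, nat_lit 249, nat_lit 40, nat_lit 9]⟩, ⟨p121_k13, nat_lit 0, nat_lit 0, nat_lit 895, nat_lit 0, nat_lit 1786275, [nat_lit 495582000, nat_lit 943750000, nat_lit 1203168000], [], [nat_lit 5473510604, nat_lit 5506193182, nat_lit 5567555655, nat_lit 5757494458, nat_lit 5048181060, nat_lit 5063443388, nat_lit 5109092320, nat_lit 5123811725], nat_lit 1271250, nat_lit 1271250, nat_lit 1271250, nat_lit 1271250, nat_lit 43600, nat_lit 2042100, [nat_lit 780000, nat_lit 1435000, nat_lit 1271250],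 [nat_lit 18, nat_lit 40, nat_lit 40, nat_lit 80, nat_lit 2, nat_lit 349, nat_lit 75, nat_lit 10]⟩,
 ⟨nat_lit 2236, nat_lit 3163, ⟨.ofNat (nat_lit 854586), .ofNat (nat_lit 903349), .ofNat (nat_lit 876741), .ofNat (nat_lit 925504), .ofNat (nat_lit 841932), .ofNat (nat_lit 887545), .ofNat (nat_lit 864706), .ofNat (nat_lit 910319)⟩, ⟨.ofNat (nat_lit 184209), .ofNat (nat_lit 306116), .ofNat (nat_lit 200000), .ofNat (nat_lit 350426), .ofNat (nat_lit 192306), .ofNat (nat_lit 306337), .ofNat (nat_lit 200000), .ofNat (nat_lit 351886)⟩⟩, [⟨nat_lit 13, nat_lit 50, nat_lit 65, nat_lit 100, nat_lit 239063203⟩, ⟨nat_lit 10, nat_lit 90, nat_lit 48, nat_lit 100, nat_lit 32895106⟩]⟩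
noncomputable def p121_l73 : Lf2 := ⟨nat_lit 0, nat_lit 10, [nat_lit 0, nat_lit 5, nat_lit 5, nat_lit 20], true, nat_lit 80, nat_lit 160, nat_lit 8, nat_lit 288, ⟨nat_lit 0, nat_lit 1000, nat_lit 0, nat_lit 9, nat_lit 344, nat_lit 1000, nat_lit 105, nat_lit 0, nat_lit 0, nat_lit 0, nat_lit 0, nat_lit 0, nat_lit 36049404, nat_lit 26889054, nat_lit 4061542, nat_lit 4594332, true, true⟩,
 nat_lit 0, nat_lit 0, nat_lit 0, nat_lit 0, nat_lit 2390, nat_lit 0, nat_lit 0, nat_lit 0, nat_lit 0, nat_lit 0, nat_lit 0, nat_lit 0, nat_lit 0, nat_lit 0, nat_lit 0, nat_lit 327550, nat_lit 0, nat_lit 0, [(nat_lit 27, [(nat_lit 0, nat_lit 483), (nat_lit 1, nat_lit 517)])],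
 ⟨p121_k17, nat_lit 0, nat_lit 0, nat_lit 105, nat_lit 0, nat_lit 0, [nat_lit 737785601, nat_lit 671387200], [], [nat_lit 27338694364, nat_lit 28259063040, nat_lit 28207978854, nat_lit 29221558360, nat_lit 27973312064, nat_lit 28810335884, nat_lit 28775728604, nat_lit 29623645065], nat_lit 0, nat_lit 0, nat_lit 0, nat_lit 0, nat_lit 0, nat_lit 0, [], [nat_lit 66, nat_lit 40, nat_lit 40, nat_lit 80, nat_lit 67, nat_lit 249, nat_lit 40, nat_lit 11]⟩, C1.Rw.none,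
 ⟨nat_lit 0, nat_lit 2237, ⟨.ofNat (nat_lit 841930), .ofNat (nat_lit 870437), .ofNat (nat_lit 864705), .ofNat (nat_lit 893212), .ofNat (nat_lit 824997), .ofNat (nat_lit 849996), .ofNat (nat_lit 849998), .ofNat (nat_lit 874997)⟩, ⟨.ofNat (nat_lit 192306), .ofNat (nat_lit 306334), .ofNat (nat_lit 200000), .ofNat (nat_lit 351885), .ofNat (nat_lit 199999), .ofNat (nat_lit 299996), .ofNat (nat_lit 200000), .ofNat (nat_lit 349998)⟩⟩, [⟨nat_lit 13, nat_lit 54, nat_lit 57, nat_lit 100, nat_lit 403951962⟩]⟩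
noncomputable def b_V_900_700_20_2 : St := ⟨true, nat_lit 0, nat_lit 1, nat_lit 1, nat_lit 120, nat_lit 360, nat_lit 400, nat_lit 280, nat_lit 320, nat_lit 240, nat_lit 392, nat_lit 80, nat_lit 120, nat_lit 80, nat_lit 160, nat_lit 0, nat_lit 336, nat_lit 0, nat_lit 40, nat_lit 0, nat_lit 0, nat_lit 0, nat_lit 0⟩
theorem d_V_900_700_20_2 (h : EB TB.env) : Dead b_V_900_700_20_2 := chkB_sound0 h (T :=
(.spl (nat_lit 2) (nat_lit 320)
(.leaf p121_l67)
(.spl (nat_lit 2) (nat_lit 360)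
(.spl (nat_lit 0) (nat_lit 380)
(.spl (nat_lit 1) (nat_lit 300)
(.leaf p121_l68)
(.trX (nat_lit 19) (nat_lit 94) (nat_lit 88) (nat_lit 100) (nat_lit 320) (.leaf p121_l69)))
(.leaf p121_l70))
(.trZ (nat_lit 9) (nat_lit 100) (nat_lit 75) (nat_lit 35) (nat_lit 8) (.trX (nat_lit 22) (nat_lit 61) (nat_lit 92) (nat_lit 100) (nat_lit 288) (.spl (nat_lit 1) (nat_lit 300)
(.trX (nat_lit 13) (nat_lit 69) (nat_lit 45) (nat_lit 100) (nat_lit 384) (.leaf p121_l71))
(.spl (nat_lit 0) (nat_lit 380)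
(.leaf p121_l72)
(.trX (nat_lit 13) (nat_lit 54) (nat_lit 57) (nat_lit 100) (nat_lit 380) (.leaf p121_l73))))))))) (by decide +kernel)
noncomputable def p121_l74 : Lf2 := ⟨nat_lit 0, nat_lit 10, [nat_lit 0, nat_lit 5, nat_lit 5, nat_lit 20], true, nat_lit 160, nat_lit 200, nat_lit 0, nat_lit 336, ⟨nat_lit 0, nat_lit 1000, nat_lit 0, nat_lit 7, nat_lit 291, nat_lit 1000, nat_lit 142, nat_lit 0, nat_lit 0, nat_lit 0, nat_lit 0, nat_lit 0, nat_lit 38880447, nat_lit 21339476, nat_lit 6780077, nat_lit 4877427, true, false⟩,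
 nat_lit 0, nat_lit 0, nat_lit 0, nat_lit 0, nat_lit 3360, nat_lit 0, nat_lit 0, nat_lit 0, nat_lit 0, nat_lit 0, nat_lit 0, nat_lit 0, nat_lit 0, nat_lit 0, nat_lit 0, nat_lit 250000, nat_lit 0, nat_lit 0, [(nat_lit 24, [(nat_lit 0, nat_lit 1000)]), (nat_lit 27, [(nat_lit 0, nat_lit 1000)])],
 ⟨p121_k12, nat_lit 0, nat_lit 0, nat_lit 75, nat_lit 0, nat_lit 0, [nat_lit 780800001, nat_lit 1367200000, nat_lit 1705600000], [], [nat_lit 22727012320, nat_lit 25259820000, nat_lit 25867074560, nat_lit 28109291840, nat_lit 23667337360, nat_lit 26048058960, nat_lit 26610560240, nat_lit 28772654400], nat_lit 0, nat_lit 0, nat_lit 0, nat_lit 0, nat_lit 0, nat_lit 0, [], [nat_lit 35, nat_lit 40, nat_lit 40, nat_lit 80, nat_lit 22, nat_lit 203, nat_lit 0, nat_lit 7]⟩, C1.Rw.none,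
 ⟨nat_lit 0, nat_lit 3163, ⟨.ofNat (nat_lit 646918), .ofNat (nat_lit 771478), .ofNat (nat_lit 688618), .ofNat (nat_lit 815384), .ofNat (nat_lit 647345), .ofNat (nat_lit 749999), .ofNat (nat_lit 694736), .ofNat (nat_lit 799594)⟩, ⟨.ofNat (nat_lit 306113), .ofNat (nat_lit 367065), .ofNat (nat_lit 350425), .ofNat (nat_lit 411376), .ofNat (nat_lit 299996), .ofNat (nat_lit 349995), .ofNat (nat_lit 349998), .ofNat (nat_lit 399996)⟩⟩, []⟩
noncomputable def p121_l75 : Lf2 := ⟨nat_lit 0, nat_lit 10, [nat_lit 0, nat_lit 5, nat_lit 5, nat_lit 20], true, nat_lit 200, nat_lit 248, nat_lit 4, nat_lit 336, ⟨nat_lit 0, nat_lit 1000, nat_lit 0, nat_lit 7, nat_lit 279, nat_lit 1000, nat_lit 166, nat_lit 0, nat_lit 0, nat_lit 0, nat_lit 0, nat_lit 0, nat_lit 38549724, nat_lit 19827016, nat_lit 8623260, nat_lit 5063609, true, false⟩,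
 nat_lit 0, nat_lit 0, nat_lit 0, nat_lit 0, nat_lit 3585, nat_lit 0, nat_lit 0, nat_lit 0, nat_lit 0, nat_lit 0, nat_lit 0, nat_lit 0, nat_lit 0, nat_lit 0, nat_lit 0, nat_lit 250000, nat_lit 0, nat_lit 0, [(nat_lit 24, [(nat_lit 0, nat_lit 1000)]), (nat_lit 27, [(nat_lit 0, nat_lit 1000)])],
 ⟨p121_k14, nat_lit 0, nat_lit 0, nat_lit 63, nat_lit 0, nat_lit 0, [nat_lit 780800001, nat_lit 1705600000], [], [nat_lit 23531983210, nat_lit 26074755670, nat_lit 24930828660, nat_lit 27441070370, nat_lit 24749506472, nat_lit 27198236783, nat_lit 26026193167, nat_lit 28446083535], nat_lit 0, nat_lit 0, nat_lit 0, nat_lit 0, nat_lit 0, nat_lit 0, [], [nat_lit 86, nat_lit 40, nat_lit 40, nat_lit 80, nat_lit 87, nat_lit 203, nat_lit 0, nat_lit 7]⟩, C1.Rw.none,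
 ⟨nat_lit 0, nat_lit 3163, ⟨.ofNat (nat_lit 646918), .ofNat (nat_lit 710256), .ofNat (nat_lit 688618), .ofNat (nat_lit 752137), .ofNat (nat_lit 647345), .ofNat (nat_lit 699730), .ofNat (nat_lit 694736), .ofNat (nat_lit 747301)⟩, ⟨.ofNat (nat_lit 367065), .ofNat (nat_lit 440207), .ofNat (nat_lit 411376), .ofNat (nat_lit 484518), .ofNat (nat_lit 349995), .ofNat (nat_lit 409993), .ofNat (nat_lit 399996), .ofNat (nat_lit 459993)⟩⟩, [⟨nat_lit 16, nat_lit 62, nat_lit 100, nat_lit 94, nat_lit 219958985⟩]⟩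
noncomputable def p121_l76 : Lf2 := ⟨nat_lit 0, nat_lit 10, [nat_lit 0, nat_lit 5, nat_lit 5, nat_lit 20], true, nat_lit 200, nat_lit 248, nat_lit 16, nat_lit 336, ⟨nat_lit 0, nat_lit 1000, nat_lit 0, nat_lit 7, nat_lit 298, nat_lit 1000, nat_lit 166, nat_lit 0, nat_lit 0, nat_lit 0, nat_lit 0, nat_lit 0, nat_lit 37136862, nat_lit 21462658, nat_lit 8400480, nat_lit 5114187, true, true⟩,
 nat_lit 0, nat_lit 0, nat_lit 0, nat_lit 0, nat_lit 3420, nat_lit 0, nat_lit 0, nat_lit 0, nat_lit 0, nat_lit 0, nat_lit 0, nat_lit 0, nat_lit 0, nat_lit 0, nat_lit 0, nat_lit 250000, nat_lit 0, nat_lit 0, [(nat_lit 24, [(nat_lit 0, nat_lit 1000)]), (nat_lit 27, [(nat_lit 0, nat_lit 1000)])],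
 ⟨p121_k14, nat_lit 0, nat_lit 0, nat_lit 71, nat_lit 0, nat_lit 0, [nat_lit 780800001, nat_lit 1705600000], [], [nat_lit 25014616320, nat_lit 27267041240, nat_lit 26588485280, nat_lit 28843810800, nat_lit 26111920633, nat_lit 28279034169, nat_lit 27559611896, nat_lit 29729913312], nat_lit 0, nat_lit 0, nat_lit 0, nat_lit 0, nat_lit 0, nat_lit 0, [], [nat_lit 86, nat_lit 40, nat_lit 40, nat_lit 80, nat_lit 87, nat_lit 203, nat_lit 0, nat_lit 6]⟩, C1.Rw.none,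
 ⟨nat_lit 0, nat_lit 3163, ⟨.ofNat (nat_lit 710256), .ofNat (nat_lit 771478), .ofNat (nat_lit 731287), .ofNat (nat_lit 793633), .ofNat (nat_lit 699730), .ofNat (nat_lit 749999), .ofNat (nat_lit 723606), .ofNat (nat_lit 774999)⟩, ⟨.ofNat (nat_lit 367065), .ofNat (nat_lit 440207), .ofNat (nat_lit 411376), .ofNat (nat_lit 484518), .ofNat (nat_lit 349995), .ofNat (nat_lit 409993), .ofNat (nat_lit 399996), .ofNat (nat_lit 459993)⟩⟩, [⟨nat_lit 16, nat_lit 62, nat_lit 100, nat_lit 94, nat_lit 201644130⟩]⟩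
noncomputable def p121_l77 : Lf2 := ⟨nat_lit 0, nat_lit 10, [nat_lit 0, nat_lit 5, nat_lit 5, nat_lit 20], false, nat_lit 200, nat_lit 248, nat_lit 16, nat_lit 320, ⟨nat_lit 99, nat_lit 901, nat_lit 0, nat_lit 7, nat_lit 306, nat_lit 901, nat_lit 169, nat_lit 0, nat_lit 0, nat_lit 0, nat_lit 0, nat_lit 0, nat_lit 36358898, nat_lit 22129080, nat_lit 8512022, nat_lit 5156642, true, false⟩,
 nat_lit 0, nat_lit 0, nat_lit 972, nat_lit 0, nat_lit 3064, nat_lit 672, nat_lit 0, nat_lit 0, nat_lit 0, nat_lit 57, nat_lit 0, nat_lit 0, nat_lit 0, nat_lit 0, nat_lit 0, nat_lit 225250, nat_lit 0, nat_lit 0, [(nat_lit 24, [(nat_lit 0, nat_lit 901)])],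
 ⟨p121_k12, nat_lit 0, nat_lit 0, nat_lit 56, nat_lit 0, nat_lit 0, [nat_lit 780505201, nat_lit 1556765201, nat_lit 2000857600], [], [nat_lit 24624566609, nat_lit 25739039145, nat_lit 26224965313, nat_lit 27299964056, nat_lit 25781836424, nat_lit 26812741235, nat_lit 27257864337, nat_lit 28294255884], nat_lit 0, nat_lit 0, nat_lit 0, nat_lit 0, nat_lit 0, nat_lit 0, [], [nat_lit 35, nat_lit 40, nat_lit 40, nat_lit 80, nat_lit 22, nat_lit 203, nat_lit 0, nat_lit 6]⟩, ⟨p121_k13, nat_lit 0, nat_lit 0, nat_lit 874, nat_lit 0, nat_lit 1720221, [nat_lit 324918000, nat_lit 618750000, nat_lit 788832000], [], [nat_lit 3199925073, nat_lit 3213834125, nat_lit 3252100992, nat_lit 3264279900, nat_lit 3002404443, nat_lit 3009618144, nat_lit 3028746219, nat_lit 3034703406], nat_lit 1271250, nat_lit 1271250, nat_lit 1271250, nat_lit 1271250, nat_lit 88400, nat_lit 2281000, [nat_lit 780000, nat_lit 1435000, nat_lit 1271250], [nat_lit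 18, nat_lit 40, nat_lit 40, nat_lit 80, nat_lit 2, nat_lit 338, nat_lit 100, nat_lit 10]⟩,
 ⟨nat_lit 2236, nat_lit 3163, ⟨.ofNat (nat_lit 732571), .ofNat (nat_lit 793619), .ofNat (nat_lit 743617), .ofNat (nat_lit 804673), .ofNat (nat_lit 727793), .ofNat (nat_lit 784902), .ofNat (nat_lit 739148), .ofNat (nat_lit 796267)⟩, ⟨.ofNat (nat_lit 367069), .ofNat (nat_lit 440213), .ofNat (nat_lit 411379), .ofNat (nat_lit 484523), .ofNat (nat_lit 363353), .ofNat (nat_lit 431772), .ofNat (nat_lit 408901), .ofNat (nat_lit 477320)⟩⟩, [⟨nat_lit 16, nat_lit 62, nat_lit 100, nat_lit 94, nat_lit 243483557⟩, ⟨nat_lit 19, nat_lit 94, nat_lit 88, nat_lit 100, nat_lit 15867783⟩]⟩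
noncomputable def p121_l78 : Lf2 := ⟨nat_lit 0, nat_lit 10, [nat_lit 0, nat_lit 5, nat_lit 5, nat_lit 20], true, nat_lit 200, nat_lit 208, nat_lit 16, nat_lit 320, ⟨nat_lit 0, nat_lit 1000, nat_lit 0, nat_lit 7, nat_lit 303, nat_lit 1000, nat_lit 154, nat_lit 0, nat_lit 0, nat_lit 0, nat_lit 0, nat_lit 0, nat_lit 37263051, nat_lit 22225543, nat_lit 7511406, nat_lit 5025344, true, false⟩,
 nat_lit 0, nat_lit 0, nat_lit 0, nat_lit 0, nat_lit 2655, nat_lit 0, nat_lit 0, nat_lit 0, nat_lit 0, nat_lit 0, nat_lit 0, nat_lit 0, nat_lit 0, nat_lit 0, nat_lit 0, nat_lit 250000, nat_lit 0, nat_lit 0, [(nat_lit 27, [(nat_lit 0, nat_lit 1000)])],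
 ⟨p121_k17, nat_lit 0, nat_lit 0, nat_lit 63, nat_lit 0, nat_lit 0, [nat_lit 780800001, nat_lit 1042800000], [], [nat_lit 25470646177, nat_lit 26478279532, nat_lit 26882628427, nat_lit 27936566700, nat_lit 25638413025, nat_lit 26634288894, nat_lit 27033966730, nat_lit 28079786577], nat_lit 0, nat_lit 0, nat_lit 0, nat_lit 0, nat_lit 0, nat_lit 0, [], [nat_lit 66, nat_lit 40, nat_lit 40, nat_lit 80, nat_lit 67, nat_lit 203, nat_lit 0, nat_lit 8]⟩, C1.Rw.none,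
 ⟨nat_lit 0, nat_lit 2237, ⟨.ofNat (nat_lit 726954), .ofNat (nat_lit 784917), .ofNat (nat_lit 737878), .ofNat (nat_lit 796304), .ofNat (nat_lit 724051), .ofNat (nat_lit 774999), .ofNat (nat_lit 736088), .ofNat (nat_lit 787499)⟩, ⟨.ofNat (nat_lit 363347), .ofNat (nat_lit 374750), .ofNat (nat_lit 408898), .ofNat (nat_lit 420300), .ofNat (nat_lit 349993), .ofNat (nat_lit 359993), .ofNat (nat_lit 399996), .ofNat (nat_lit 409994)⟩⟩, [⟨nat_lit 16, nat_lit 44, nat_lit 100, nat_lit 92, nat_lit 297343352⟩]⟩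
noncomputable def p121_l79 : Lf2 := ⟨nat_lit 0, nat_lit 10, [nat_lit 0, nat_lit 5, nat_lit 5, nat_lit 20], false, nat_lit 200, nat_lit 248, nat_lit 16, nat_lit 312, ⟨nat_lit 124, nat_lit 876, nat_lit 0, nat_lit 7, nat_lit 311, nat_lit 876, nat_lit 169, nat_lit 0, nat_lit 0, nat_lit 0, nat_lit 0, nat_lit 0, nat_lit 36025842, nat_lit 22519350, nat_lit 8454808, nat_lit 5164451, true, false⟩,
 nat_lit 0, nat_lit 0, nat_lit 1099, nat_lit 0, nat_lit 3109, nat_lit 792, nat_lit 0, nat_lit 0, nat_lit 0, nat_lit 107, nat_lit 0, nat_lit 0, nat_lit 0, nat_lit 0, nat_lit 0, nat_lit 219000, nat_lit 0, nat_lit 0, [(nat_lit 24, [(nat_lit 0, nat_lit 876)])],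
 ⟨p121_k12, nat_lit 0, nat_lit 0, nat_lit 56, nat_lit 0, nat_lit 0, [nat_lit 784875200, nat_lit 1604635200, nat_lit 2075417600], [], [nat_lit 24655641348, nat_lit 25777089964, nat_lit 26263032422, nat_lit 27346430111, nat_lit 25812821595, nat_lit 26849866242, nat_lit 27295199926, nat_lit 28338550005], nat_lit 0, nat_lit 0, nat_lit 0, nat_lit 0, nat_lit 0, nat_lit 0, [], [nat_lit 35, nat_lit 40, nat_lit 40, nat_lit 80, nat_lit 22, nat_lit 203, nat_lit 0, nat_lit 6]⟩, ⟨p121_k20, nat_lit 0, nat_lit 0, nat_lit 858, nat_lit 0, nat_lit 1686097, [nat_lit 406968000, nat_lit 775000000, nat_lit 988032000], [], [nat_lit 3840633971, nat_lit 3863290183, nat_lit 3923962464, nat_lit 3944186558, nat_lit 3676637126, nat_lit 3688765115, nat_lit 3720138751, nat_lit 3744872269], nat_lit 1271250, nat_lit 1271250, nat_lit 1271250, nat_lit 1271250, nat_lit 88400, nat_lit 2223300, [nat_lit 780000, nat_lit 1435000, nat_lit 1271250], [nat_lit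 18, nat_lit 40, nat_lit 40, nat_lit 80, nat_lit 2, nat_lit 334, nat_lit 100, nat_lit 10]⟩,
 ⟨nat_lit 2236, nat_lit 3163, ⟨.ofNat (nat_lit 743617), .ofNat (nat_lit 804673), .ofNat (nat_lit 754663), .ofNat (nat_lit 815720), .ofNat (nat_lit 739148), .ofNat (nat_lit 796267), .ofNat (nat_lit 750503), .ofNat (nat_lit 807623)⟩, ⟨.ofNat (nat_lit 367069), .ofNat (nat_lit 440213), .ofNat (nat_lit 411379), .ofNat (nat_lit 484523), .ofNat (nat_lit 363353), .ofNat (nat_lit 431772), .ofNat (nat_lit 408901), .ofNat (nat_lit 477320)⟩⟩, [⟨nat_lit 16, nat_lit 62, nat_lit 100, nat_lit 94, nat_lit 253004835⟩, ⟨nat_lit 19, nat_lit 91, nat_lit 91, nat_lit 100, nat_lit 21653072⟩]⟩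
noncomputable def p121_l80 : Lf2 := ⟨nat_lit 0, nat_lit 10, [nat_lit 0, nat_lit 5, nat_lit 5, nat_lit 20], true, nat_lit 200, nat_lit 208, nat_lit 16, nat_lit 312, ⟨nat_lit 0, nat_lit 1000, nat_lit 0, nat_lit 7, nat_lit 308, nat_lit 1000, nat_lit 154, nat_lit 0, nat_lit 0, nat_lit 0, nat_lit 0, nat_lit 0, nat_lit 36900076, nat_lit 22640727, nat_lit 7459197, nat_lit 5034572, true, false⟩,
 nat_lit 0, nat_lit 0, nat_lit 0, nat_lit 0, nat_lit 2655, nat_lit 0, nat_lit 0, nat_lit 0, nat_lit 0, nat_lit 0, nat_lit 0, nat_lit 0, nat_lit 0, nat_lit 0, nat_lit 0, nat_lit 250000, nat_lit 0, nat_lit 0, [(nat_lit 27, [(nat_lit 0, nat_lit 1000)])],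
 ⟨p121_k17, nat_lit 0, nat_lit 0, nat_lit 63, nat_lit 0, nat_lit 0, [nat_lit 780800001, nat_lit 1042800000], [], [nat_lit 25470646177, nat_lit 26478279532, nat_lit 26882628427, nat_lit 27936566700, nat_lit 25638413025, nat_lit 26634288894, nat_lit 27033966730, nat_lit 28079786577], nat_lit 0, nat_lit 0, nat_lit 0, nat_lit 0, nat_lit 0, nat_lit 0, [], [nat_lit 66, nat_lit 40, nat_lit 40, nat_lit 80, nat_lit 67, nat_lit 203, nat_lit 0, nat_lit 8]⟩, C1.Rw.none,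
 ⟨nat_lit 0, nat_lit 2237, ⟨.ofNat (nat_lit 737878), .ofNat (nat_lit 796304), .ofNat (nat_lit 748802), .ofNat (nat_lit 807594), .ofNat (nat_lit 736088), .ofNat (nat_lit 787499), .ofNat (nat_lit 748125), .ofNat (nat_lit 799902)⟩, ⟨.ofNat (nat_lit 363347), .ofNat (nat_lit 374750), .ofNat (nat_lit 408898), .ofNat (nat_lit 420300), .ofNat (nat_lit 349993), .ofNat (nat_lit 359993), .ofNat (nat_lit 399996), .ofNat (nat_lit 409994)⟩⟩, [⟨nat_lit 16, nat_lit 44, nat_lit 100, nat_lit 92, nat_lit 298666931⟩]⟩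
noncomputable def b_V_900_700_20_3 : St := ⟨true, nat_lit 0, nat_lit 1, nat_lit 1, nat_lit 120, nat_lit 360, nat_lit 400, nat_lit 280, nat_lit 320, nat_lit 240, nat_lit 320, nat_lit 80, nat_lit 120, nat_lit 160, nat_lit 248, nat_lit 0, nat_lit 336, nat_lit 0, nat_lit 40, nat_lit 0, nat_lit 0, nat_lit 0, nat_lit 0⟩
theorem d_V_900_700_20_3 (h : EB TB.env) : Dead b_V_900_700_20_3 := chkB_sound0 h (T :=
(.spl (nat_lit 4) (nat_lit 200)
(.leaf p121_l74)
(.trZ (nat_lit 9) (nat_lit 100) (nat_lit 98) (nat_lit 20) (nat_lit 4) (.spl (nat_lit 2) (nat_lit 280)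
(.leaf p121_l75)
(.trZ (nat_lit 9) (nat_lit 100) (nat_lit 92) (nat_lit 40) (nat_lit 16) (.spl (nat_lit 1) (nat_lit 300)
(.leaf p121_l76)
(.trX (nat_lit 19) (nat_lit 94) (nat_lit 88) (nat_lit 100) (nat_lit 320) (.spl (nat_lit 1) (nat_lit 310)
(.spl (nat_lit 0) (nat_lit 380)
(.leaf p121_l77)
(.trX (nat_lit 16) (nat_lit 44) (nat_lit 100) (nat_lit 92) (nat_lit 208) (.leaf p121_l78)))
(.trX (nat_lit 19) (nat_lit 91) (nat_lit 91) (nat_lit 100) (nat_lit 312) (.spl (nat_lit 0) (nat_lit 380)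
(.leaf p121_l79)
(.trX (nat_lit 16) (nat_lit 44) (nat_lit 100) (nat_lit 92) (nat_lit 208) (.leaf p121_l80)))))))))))) (by decide +kernel)
noncomputable def p121_l81 : Lf2 := ⟨nat_lit 0, nat_lit 10, [nat_lit 0, nat_lit 5, nat_lit 5, nat_lit 20], true, nat_lit 160, nat_lit 200, nat_lit 16, nat_lit 336, ⟨nat_lit 0, nat_lit 1000, nat_lit 0, nat_lit 8, nat_lit 321, nat_lit 1000, nat_lit 143, nat_lit 0, nat_lit 0, nat_lit 0, nat_lit 0, nat_lit 0, nat_lit 36404678, nat_lit 24012081, nat_lit 6583241, nat_lit 4954589, true, true⟩,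
 nat_lit 0, nat_lit 0, nat_lit 0, nat_lit 0, nat_lit 2680, nat_lit 0, nat_lit 92, nat_lit 0, nat_lit 0, nat_lit 0, nat_lit 0, nat_lit 0, nat_lit 0, nat_lit 0, nat_lit 0, nat_lit 294400, nat_lit 0, nat_lit 0, [(nat_lit 24, [(nat_lit 0, nat_lit 704), (nat_lit 1, nat_lit 296)])],
 ⟨p121_k12, nat_lit 0, nat_lit 0, nat_lit 80, nat_lit 0, nat_lit 0, [nat_lit 788300800, nat_lit 1257719467, nat_lit 1483244800], [], [nat_lit 25441688580, nat_lit 26405124020, nat_lit 27104526820, nat_lit 27991784820, nat_lit 26216803940, nat_lit 27128751020, nat_lit 27790148980, nat_lit 28628889427], nat_lit 0, nat_lit 0, nat_lit 0, nat_lit 0, nat_lit 0, nat_lit 0, [], [nat_lit 35, nat_lit 40, nat_lit 40, nat_lit 80, nat_lit 22, nat_lit 203, nat_lit 0, nat_lit 6]⟩, C1.Rw.none,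
 ⟨nat_lit 2236, nat_lit 3163, ⟨.ofNat (nat_lit 771478), .ofNat (nat_lit 832432), .ofNat (nat_lit 782556), .ofNat (nat_lit 843509), .ofNat (nat_lit 762142), .ofNat (nat_lit 819158), .ofNat (nat_lit 773529), .ofNat (nat_lit 830545)⟩, ⟨.ofNat (nat_lit 306116), .ofNat (nat_lit 367069), .ofNat (nat_lit 350426), .ofNat (nat_lit 411379), .ofNat (nat_lit 306337), .ofNat (nat_lit 363353), .ofNat (nat_lit 351886), .ofNat (nat_lit 408901)⟩⟩, [⟨nat_lit 13, nat_lit 48, nat_lit 71, nat_lit 100, nat_lit 8009319⟩]⟩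
noncomputable def p121_l82 : Lf2 := ⟨nat_lit 0, nat_lit 10, [nat_lit 0, nat_lit 5, nat_lit 5, nat_lit 20], false, nat_lit 200, nat_lit 248, nat_lit 40, nat_lit 336, ⟨nat_lit 135, nat_lit 865, nat_lit 0, nat_lit 8, nat_lit 321, nat_lit 865, nat_lit 170, nat_lit 0, nat_lit 0, nat_lit 0, nat_lit 0, nat_lit 0, nat_lit 35250760, nat_lit 23383760, nat_lit 8365480, nat_lit 5183552, true, true⟩,
 nat_lit 0, nat_lit 0, nat_lit 1490, nat_lit 0, nat_lit 2695, nat_lit 947, nat_lit 213, nat_lit 0, nat_lit 0, nat_lit 121, nat_lit 0, nat_lit 0, nat_lit 0, nat_lit 0, nat_lit 0, nat_lit 216250, nat_lit 0, nat_lit 0, [(nat_lit 24, [(nat_lit 0, nat_lit 865)])],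
 ⟨p121_k21, nat_lit 0, nat_lit 0, nat_lit 68, nat_lit 0, nat_lit 0, [nat_lit 786798001, nat_lit 1168384000, nat_lit 2108224000], [], [nat_lit 26227946911, nat_lit 26684831371, nat_lit 27803914371, nat_lit 28224691733, nat_lit 27222805678, nat_lit 27648303447, nat_lit 28689265629, nat_lit 29083066980], nat_lit 0, nat_lit 0, nat_lit 0, nat_lit 0, nat_lit 0, nat_lit 0, [], [nat_lit 152, nat_lit 40, nat_lit 40, nat_lit 80, nat_lit 33, nat_lit 203, nat_lit 0, nat_lit 6]⟩, ⟨p121_k22, nat_lit 0, nat_lit 0, nat_lit 867, nat_lit 0, nat_lit 1612536, [nat_lit 443070000, nat_lit 632880000, nat_lit 1328670000], [], [nat_lit 4656917765, nat_lit 4664771468, nat_lit 4748459341, nat_lit 4755057249, nat_lit 4390141157, nat_lit 4392821463, nat_lit 4434787749, nat_lit 4436603619], nat_lit 1271250, nat_lit 1271250, nat_lit 1271250, nat_lit 1271250, nat_lit 230001, nat_lit 2431500, [nat_lit 780000, nat_lit 1100000, nat_lit 2127500],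 [nat_lit 42, nat_lit 40, nat_lit 40, nat_lit 80, nat_lit 13, nat_lit 340, nat_lit 100, nat_lit 9]⟩,
 ⟨nat_lit 2738, nat_lit 3163, ⟨.ofNat (nat_lit 771478), .ofNat (nat_lit 832432), .ofNat (nat_lit 777017), .ofNat (nat_lit 837970), .ofNat (nat_lit 766852), .ofNat (nat_lit 825913), .ofNat (nat_lit 772456), .ofNat (nat_lit 831518)⟩, ⟨.ofNat (nat_lit 367069), .ofNat (nat_lit 440213), .ofNat (nat_lit 411379), .ofNat (nat_lit 484523), .ofNat (nat_lit 365494), .ofNat (nat_lit 436368), .ofNat (nat_lit 410329), .ofNat (nat_lit 481203)⟩⟩, [⟨nat_lit 16, nat_lit 57, nat_lit 100, nat_lit 87, nat_lit 276246503⟩, ⟨nat_lit 19, nat_lit 100, nat_lit 80, nat_lit 100, nat_lit 21519512⟩]⟩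
noncomputable def p121_l83 : Lf2 := ⟨nat_lit 0, nat_lit 10, [nat_lit 0, nat_lit 5, nat_lit 5, nat_lit 20], true, nat_lit 200, nat_lit 232, nat_lit 40, nat_lit 336, ⟨nat_lit 0, nat_lit 1000, nat_lit 0, nat_lit 8, nat_lit 319, nat_lit 1000, nat_lit 164, nat_lit 0, nat_lit 0, nat_lit 0, nat_lit 0, nat_lit 0, nat_lit 35670255, nat_lit 23328965, nat_lit 8000780, nat_lit 5134157, true, true⟩,
 nat_lit 0, nat_lit 0, nat_lit 0, nat_lit 0, nat_lit 2646, nat_lit 0, nat_lit 126, nat_lit 0, nat_lit 0, nat_lit 0, nat_lit 0, nat_lit 0, nat_lit 0, nat_lit 0, nat_lit 0, nat_lit 250000, nat_lit 0, nat_lit 0, [(nat_lit 24, [(nat_lit 0, nat_lit 1000)])],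
 ⟨p121_k23, nat_lit 0, nat_lit 0, nat_lit 73, nat_lit 0, nat_lit 0, [nat_lit 763200001, nat_lit 1033600001, nat_lit 1705600000], [], [nat_lit 26606178737, nat_lit 27060087525, nat_lit 28138782901, nat_lit 28585919306, nat_lit 27207032934, nat_lit 27640513686, nat_lit 28669382312, nat_lit 29129723017], nat_lit 0, nat_lit 0, nat_lit 0, nat_lit 0, nat_lit 0, nat_lit 0, [], [nat_lit 152, nat_lit 40, nat_lit 40, nat_lit 80, nat_lit 33, nat_lit 203, nat_lit 0, nat_lit 6]⟩, C1.Rw.none,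
 ⟨nat_lit 2236, nat_lit 2739, ⟨.ofNat (nat_lit 766852), .ofNat (nat_lit 825913), .ofNat (nat_lit 772456), .ofNat (nat_lit 831518), .ofNat (nat_lit 762142), .ofNat (nat_lit 819158), .ofNat (nat_lit 767836), .ofNat (nat_lit 824851)⟩, ⟨.ofNat (nat_lit 365494), .ofNat (nat_lit 412743), .ofNat (nat_lit 410329), .ofNat (nat_lit 457578), .ofNat (nat_lit 363353), .ofNat (nat_lit 408965), .ofNat (nat_lit 408901), .ofNat (nat_lit 454514)⟩⟩, [⟨nat_lit 16, nat_lit 53, nat_lit 100, nat_lit 93, nat_lit 210137723⟩]⟩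
noncomputable def p121_l84 : Lf2 := ⟨nat_lit 0, nat_lit 10, [nat_lit 0, nat_lit 5, nat_lit 5, nat_lit 20], false, nat_lit 200, nat_lit 248, nat_lit 40, nat_lit 332, ⟨nat_lit 158, nat_lit 842, nat_lit 0, nat_lit 8, nat_lit 323, nat_lit 842, nat_lit 170, nat_lit 0, nat_lit 0, nat_lit 0, nat_lit 0, nat_lit 0, nat_lit 35088476, nat_lit 23574963, nat_lit 8336561, nat_lit 5186054, true, true⟩,
 nat_lit 0, nat_lit 0, nat_lit 1652, nat_lit 0, nat_lit 2703, nat_lit 1074, nat_lit 224, nat_lit 0, nat_lit 0, nat_lit 144, nat_lit 0, nat_lit 0, nat_lit 0, nat_lit 0, nat_lit 0, nat_lit 210500, nat_lit 0, nat_lit 0, [(nat_lit 24, [(nat_lit 0, nat_lit 842)])],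
 ⟨p121_k21, nat_lit 0, nat_lit 0, nat_lit 68, nat_lit 0, nat_lit 0, [nat_lit 790818400, nat_lit 1191347201, nat_lit 2176819200], [], [nat_lit 26239016764, nat_lit 26696387048, nat_lit 27816382848, nat_lit 28237264431, nat_lit 27233608001, nat_lit 27659531644, nat_lit 28701261502, nat_lit 29093699259], nat_lit 0, nat_lit 0, nat_lit 0, nat_lit 0, nat_lit 0, nat_lit 0, [], [nat_lit 152, nat_lit 40, nat_lit 40, nat_lit 80, nat_lit 33, nat_lit 203, nat_lit 0, nat_lit 6]⟩, ⟨p121_k24, nat_lit 0, nat_lit 0, nat_lit 860, nat_lit 0, nat_lit 1595065, [nat_lit 518556000, nat_lit 740704000, nat_lit 1555036000], [], [nat_lit 5419545411, nat_lit 5428855190, nat_lit 5525282616, nat_lit 5533159016, nat_lit 5124499059, nat_lit 5127996781, nat_lit 5177986443, nat_lit 5180490437], nat_lit 1271250, nat_lit 1271250, nat_lit 1271250, nat_lit 1271250, nat_lit 230001, nat_lit 2401750, [nat_lit 780000, nat_lit 1100000, nat_lit 2127500],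 [nat_lit 42, nat_lit 40, nat_lit 40, nat_lit 80, nat_lit 13, nat_lit 338, nat_lit 100, nat_lit 9]⟩,
 ⟨nat_lit 2738, nat_lit 3163, ⟨.ofNat (nat_lit 777017), .ofNat (nat_lit 837970), .ofNat (nat_lit 782555), .ofNat (nat_lit 843509), .ofNat (nat_lit 772456), .ofNat (nat_lit 831518), .ofNat (nat_lit 778060), .ofNat (nat_lit 837122)⟩, ⟨.ofNat (nat_lit 367069), .ofNat (nat_lit 440213), .ofNat (nat_lit 411379), .ofNat (nat_lit 484523), .ofNat (nat_lit 365494), .ofNat (nat_lit 436368), .ofNat (nat_lit 410329), .ofNat (nat_lit 481203)⟩⟩, [⟨nat_lit 16, nat_lit 57, nat_lit 100, nat_lit 87, nat_lit 285478751⟩, ⟨nat_lit 19, nat_lit 99, nat_lit 82, nat_lit 100, nat_lit 25425439⟩]⟩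
noncomputable def p121_l85 : Lf2 := ⟨nat_lit 0, nat_lit 10, [nat_lit 0, nat_lit 5, nat_lit 5, nat_lit 20], true, nat_lit 200, nat_lit 232, nat_lit 40, nat_lit 332, ⟨nat_lit 0, nat_lit 1000, nat_lit 0, nat_lit 8, nat_lit 321, nat_lit 1000, nat_lit 164, nat_lit 0, nat_lit 0, nat_lit 0, nat_lit 0, nat_lit 0, nat_lit 35502602, nat_lit 23524533, nat_lit 7972865, nat_lit 5136989, true, true⟩,
 nat_lit 0, nat_lit 0, nat_lit 0, nat_lit 0, nat_lit 2646, nat_lit 0, nat_lit 126, nat_lit 0, nat_lit 0, nat_lit 0, nat_lit 0, nat_lit 0, nat_lit 0, nat_lit 0, nat_lit 0, nat_lit 250000, nat_lit 0, nat_lit 0, [(nat_lit 24, [(nat_lit 0, nat_lit 1000)])],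
 ⟨p121_k23, nat_lit 0, nat_lit 0, nat_lit 73, nat_lit 0, nat_lit 0, [nat_lit 763200001, nat_lit 1033600001, nat_lit 1705600000], [], [nat_lit 26606178737, nat_lit 27060087525, nat_lit 28138782901, nat_lit 28585919306, nat_lit 27207032934, nat_lit 27640513686, nat_lit 28669382312, nat_lit 29129723017], nat_lit 0, nat_lit 0, nat_lit 0, nat_lit 0, nat_lit 0, nat_lit 0, [], [nat_lit 152, nat_lit 40, nat_lit 40, nat_lit 80, nat_lit 33, nat_lit 203, nat_lit 0, nat_lit 6]⟩, C1.Rw.none,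
 ⟨nat_lit 2236, nat_lit 2739, ⟨.ofNat (nat_lit 772456), .ofNat (nat_lit 831518), .ofNat (nat_lit 778061), .ofNat (nat_lit 837122), .ofNat (nat_lit 767836), .ofNat (nat_lit 824851), .ofNat (nat_lit 773529), .ofNat (nat_lit 830545)⟩, ⟨.ofNat (nat_lit 365494), .ofNat (nat_lit 412743), .ofNat (nat_lit 410329), .ofNat (nat_lit 457578), .ofNat (nat_lit 363353), .ofNat (nat_lit 408965), .ofNat (nat_lit 408901), .ofNat (nat_lit 454514)⟩⟩, [⟨nat_lit 16, nat_lit 53, nat_lit 100, nat_lit 93, nat_lit 210713511⟩]⟩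
noncomputable def p121_l86 : Lf2 := ⟨nat_lit 0, nat_lit 10, [nat_lit 0, nat_lit 5, nat_lit 5, nat_lit 20], false, nat_lit 160, nat_lit 248, nat_lit 16, nat_lit 328, ⟨nat_lit 158, nat_lit 842, nat_lit 0, nat_lit 8, nat_lit 325, nat_lit 842, nat_lit 158, nat_lit 0, nat_lit 0, nat_lit 0, nat_lit 0, nat_lit 0, nat_lit 35443099, nat_lit 24060488, nat_lit 7496413, nat_lit 5089355, true, true⟩,
 nat_lit 0, nat_lit 0, nat_lit 1632, nat_lit 0, nat_lit 2565, nat_lit 1083, nat_lit 141, nat_lit 0, nat_lit 0, nat_lit 86, nat_lit 0, nat_lit 0, nat_lit 0, nat_lit 0, nat_lit 0, nat_lit 336800, nat_lit 0, nat_lit 0, [(nat_lit 24, [(nat_lit 1, nat_lit 842)])],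
 ⟨p121_k21, nat_lit 0, nat_lit 0, nat_lit 74, nat_lit 0, nat_lit 0, [nat_lit 727500000, nat_lit 1130947734, nat_lit 1557831466], [], [nat_lit 25305145556, nat_lit 25779172191, nat_lit 26945470476, nat_lit 27382886296, nat_lit 27084498059, nat_lit 27503075382, nat_lit 28531562842, nat_lit 28940307194], nat_lit 0, nat_lit 0, nat_lit 0, nat_lit 0, nat_lit 0, nat_lit 0, [], [nat_lit 152, nat_lit 40, nat_lit 40, nat_lit 80, nat_lit 33, nat_lit 203, nat_lit 0, nat_lit 6]⟩, ⟨p121_k25, nat_lit 0, nat_lit 0, nat_lit 796, nat_lit 0, nat_lit 1579057, [nat_lit 518556000, nat_lit 740704000, nat_lit 1258944000], [], [nat_lit 5505140788, nat_lit 5515983699, nat_lit 5623324945, nat_lit 5632598677, nat_lit 5126771572, nat_lit 5131173593, nat_lit 5187415905, nat_lit 5190752940], nat_lit 1271250, nat_lit 1271250, nat_lit 1271250, nat_lit 1271250, nat_lit 88400, nat_lit 2338700, [nat_lit 780000, nat_lit 1100000, nat_lit 1785000],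 [nat_lit 36, nat_lit 40, nat_lit 40, nat_lit 80, nat_lit 7, nat_lit 322, nat_lit 100, nat_lit 10]⟩,
 ⟨nat_lit 2738, nat_lit 3163, ⟨.ofNat (nat_lit 782555), .ofNat (nat_lit 843509), .ofNat (nat_lit 788092), .ofNat (nat_lit 849048), .ofNat (nat_lit 778060), .ofNat (nat_lit 837122), .ofNat (nat_lit 783663), .ofNat (nat_lit 842726)⟩, ⟨.ofNat (nat_lit 306116), .ofNat (nat_lit 440213), .ofNat (nat_lit 350426), .ofNat (nat_lit 484523), .ofNat (nat_lit 306433), .ofNat (nat_lit 436368), .ofNat (nat_lit 351268), .ofNat (nat_lit 481203)⟩⟩, [⟨nat_lit 4, nat_lit 100, nat_lit 57, nat_lit 87, nat_lit 271437543⟩, ⟨nat_lit 19, nat_lit 97, nat_lit 84, nat_lit 100, nat_lit 23748814⟩]⟩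
noncomputable def p121_l87 : Lf2 := ⟨nat_lit 0, nat_lit 10, [nat_lit 0, nat_lit 5, nat_lit 5, nat_lit 20], false, nat_lit 160, nat_lit 232, nat_lit 16, nat_lit 328, ⟨nat_lit 120, nat_lit 880, nat_lit 0, nat_lit 8, nat_lit 323, nat_lit 880, nat_lit 152, nat_lit 0, nat_lit 0, nat_lit 0, nat_lit 0, nat_lit 0, nat_lit 35835824, nat_lit 23998630, nat_lit 7165546, nat_lit 5040644, true, true⟩,
 nat_lit 0, nat_lit 0, nat_lit 1320, nat_lit 0, nat_lit 2659, nat_lit 876, nat_lit 168, nat_lit 0, nat_lit 0, nat_lit 57, nat_lit 0, nat_lit 0, nat_lit 0, nat_lit 0, nat_lit 0, nat_lit 220000, nat_lit 0, nat_lit 0, [(nat_lit 24, [(nat_lit 0, nat_lit 880)])],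
 ⟨p121_k16, nat_lit 0, nat_lit 0, nat_lit 80, nat_lit 0, nat_lit 0, [nat_lit 784176001, nat_lit 1596976000, nat_lit 2063488000], [], [nat_lit 25924102086, nat_lit 26404415347, nat_lit 27543500665, nat_lit 27984485393, nat_lit 27274856393, nat_lit 27709062638, nat_lit 28739041514, nat_lit 29147249950], nat_lit 0, nat_lit 0, nat_lit 0, nat_lit 0, nat_lit 0, nat_lit 0, [], [nat_lit 35, nat_lit 40, nat_lit 40, nat_lit 80, nat_lit 22, nat_lit 203, nat_lit 0, nat_lit 6]⟩, ⟨p121_k18, nat_lit 0, nat_lit 0, nat_lit 873, nat_lit 0, nat_lit 1728745, [nat_lit 393840000, nat_lit 750000000, nat_lit 956160000], [], [nat_lit 4227261200, nat_lit 4240577718, nat_lit 4368044830, nat_lit 4379485002, nat_lit 3905108297, nat_lit 3911252106, nat_lit 3981005903, nat_lit 3985932875], nat_lit 1271250, nat_lit 1271250, nat_lit 1271250, nat_lit 1271250, nat_lit 88400, nat_lit 2338700, [nat_lit 780000, nat_lit 1435000, nat_lit 1271250], [nat_lit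 18, nat_lit 40, nat_lit 40, nat_lit 80, nat_lit 2, nat_lit 342, nat_lit 100, nat_lit 10]⟩,
 ⟨nat_lit 2236, nat_lit 2739, ⟨.ofNat (nat_lit 778061), .ofNat (nat_lit 837122), .ofNat (nat_lit 783665), .ofNat (nat_lit 842726), .ofNat (nat_lit 773529), .ofNat (nat_lit 830545), .ofNat (nat_lit 779223), .ofNat (nat_lit 836239)⟩, ⟨.ofNat (nat_lit 306433), .ofNat (nat_lit 412743), .ofNat (nat_lit 351268), .ofNat (nat_lit 457578), .ofNat (nat_lit 306337), .ofNat (nat_lit 408965), .ofNat (nat_lit 351886), .ofNat (nat_lit 454514)⟩⟩, [⟨nat_lit 16, nat_lit 53, nat_lit 100, nat_lit 93, nat_lit 248539396⟩, ⟨nat_lit 19, nat_lit 97, nat_lit 84, nat_lit 100, nat_lit 17079442⟩]⟩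
noncomputable def p121_l88 : Lf2 := ⟨nat_lit 0, nat_lit 10, [nat_lit 0, nat_lit 5, nat_lit 5, nat_lit 20], false, nat_lit 160, nat_lit 248, nat_lit 16, nat_lit 324, ⟨nat_lit 207, nat_lit 793, nat_lit 0, nat_lit 8, nat_lit 327, nat_lit 793, nat_lit 158, nat_lit 0, nat_lit 0, nat_lit 0, nat_lit 0, nat_lit 0, nat_lit 35276676, nat_lit 24253115, nat_lit 7470209, nat_lit 5091568, true, true⟩,
 nat_lit 0, nat_lit 0, nat_lit 1947, nat_lit 0, nat_lit 2563, nat_lit 1320, nat_lit 180, nat_lit 0, nat_lit 0, nat_lit 186, nat_lit 0, nat_lit 0, nat_lit 0, nat_lit 0, nat_lit 0, nat_lit 317200, nat_lit 0, nat_lit 0, [(nat_lit 24, [(nat_lit 1, nat_lit 793)])],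
 ⟨p121_k21, nat_lit 0, nat_lit 0, nat_lit 74, nat_lit 0, nat_lit 0, [nat_lit 739750000, nat_lit 1183384267, nat_lit 1730912533], [], [nat_lit 25297286501, nat_lit 25771179378, nat_lit 26937219885, nat_lit 27372733381, nat_lit 27076793382, nat_lit 27495264237, nat_lit 28528960260, nat_lit 28939603204], nat_lit 0, nat_lit 0, nat_lit 0, nat_lit 0, nat_lit 0, nat_lit 0, [], [nat_lit 152, nat_lit 40, nat_lit 40, nat_lit 80, nat_lit 33, nat_lit 203, nat_lit 0, nat_lit 6]⟩, ⟨p121_k26, nat_lit 0, nat_lit 0, nat_lit 790, nat_lit 0, nat_lit 1564546, [nat_lit 679374000, nat_lit 970416000, nat_lit 1649376000], [], [nat_lit 6987637420, nat_lit 7002056736, nat_lit 7138929947, nat_lit 7151442261, nat_lit 6598108780, nat_lit 6604725379, nat_lit 6680472930, nat_lit 6685781691], nat_lit 1271250, nat_lit 1271250, nat_lit 1271250, nat_lit 1271250, nat_lit 88400, nat_lit 2309850, [nat_lit 780000, nat_lit 1100000, nat_lit 1785000],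 [nat_lit 36, nat_lit 40, nat_lit 40, nat_lit 80, nat_lit 7, nat_lit 321, nat_lit 100, nat_lit 10]⟩,
 ⟨nat_lit 2738, nat_lit 3163, ⟨.ofNat (nat_lit 788092), .ofNat (nat_lit 849048), .ofNat (nat_lit 793629), .ofNat (nat_lit 854586), .ofNat (nat_lit 783663), .ofNat (nat_lit 842726), .ofNat (nat_lit 789265), .ofNat (nat_lit 848331)⟩, ⟨.ofNat (nat_lit 306116), .ofNat (nat_lit 440213), .ofNat (nat_lit 350426), .ofNat (nat_lit 484523), .ofNat (nat_lit 306433), .ofNat (nat_lit 436368), .ofNat (nat_lit 351268), .ofNat (nat_lit 481203)⟩⟩, [⟨nat_lit 4, nat_lit 100, nat_lit 57, nat_lit 87, nat_lit 291471690⟩, ⟨nat_lit 19, nat_lit 96, nat_lit 86, nat_lit 100, nat_lit 33083543⟩]⟩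
noncomputable def p121_l89 : Lf2 := ⟨nat_lit 0, nat_lit 10, [nat_lit 0, nat_lit 5, nat_lit 5, nat_lit 20], false, nat_lit 160, nat_lit 232, nat_lit 16, nat_lit 324, ⟨nat_lit 141, nat_lit 859, nat_lit 0, nat_lit 8, nat_lit 325, nat_lit 859, nat_lit 152, nat_lit 0, nat_lit 0, nat_lit 0, nat_lit 0, nat_lit 0, nat_lit 35664137, nat_lit 24195599, nat_lit 7140264, nat_lit 5043183, true, true⟩,
 nat_lit 0, nat_lit 0, nat_lit 1398, nat_lit 0, nat_lit 2680, nat_lit 948, nat_lit 175, nat_lit 0, nat_lit 0, nat_lit 81, nat_lit 0, nat_lit 0, nat_lit 0, nat_lit 0, nat_lit 0, nat_lit 214750, nat_lit 0, nat_lit 0, [(nat_lit 24, [(nat_lit 0, nat_lit 859)])],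
 ⟨p121_k16, nat_lit 0, nat_lit 0, nat_lit 80, nat_lit 0, nat_lit 0, [nat_lit 787846801, nat_lit 1637186800, nat_lit 2126118400], [], [nat_lit 25931438401, nat_lit 26413156121, nat_lit 27554740481, nat_lit 28000270920, nat_lit 27280306526, nat_lit 27715684722, nat_lit 28749784225, nat_lit 29169359313], nat_lit 0, nat_lit 0, nat_lit 0, nat_lit 0, nat_lit 0, nat_lit 0, [], [nat_lit 35, nat_lit 40, nat_lit 40, nat_lit 80, nat_lit 22, nat_lit 203, nat_lit 0, nat_lit 6]⟩, ⟨p121_k27, nat_lit 0, nat_lit 0, nat_lit 863, nat_lit 0, nat_lit 1707806, [nat_lit 462762000, nat_lit 881250000, nat_lit 1123488000], [], [nat_lit 4804454108, nat_lit 4814137139, nat_lit 4907008874, nat_lit 4915361279, nat_lit 4510401583, nat_lit 4514608502, nat_lit 4565154986, nat_lit 4583186389], nat_lit 1271250, nat_lit 1271250, nat_lit 1271250, nat_lit 1271250, nat_lit 88400, nat_lit 2309850, [nat_lit 780000, nat_lit 1435000, nat_lit 1271250],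 [nat_lit 18, nat_lit 40, nat_lit 40, nat_lit 80, nat_lit 2, nat_lit 339, nat_lit 100, nat_lit 10]⟩,
 ⟨nat_lit 2236, nat_lit 2739, ⟨.ofNat (nat_lit 783665), .ofNat (nat_lit 842726), .ofNat (nat_lit 789269), .ofNat (nat_lit 848331), .ofNat (nat_lit 779223), .ofNat (nat_lit 836239), .ofNat (nat_lit 784917), .ofNat (nat_lit 841932)⟩, ⟨.ofNat (nat_lit 306433), .ofNat (nat_lit 412743), .ofNat (nat_lit 351268), .ofNat (nat_lit 457578), .ofNat (nat_lit 306337), .ofNat (nat_lit 408965), .ofNat (nat_lit 351886), .ofNat (nat_lit 454514)⟩⟩, [⟨nat_lit 16, nat_lit 53, nat_lit 100, nat_lit 93, nat_lit 256782064⟩, ⟨nat_lit 19, nat_lit 96, nat_lit 86, nat_lit 100, nat_lit 22155816⟩]⟩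
noncomputable def p121_l90 : Lf2 := ⟨nat_lit 0, nat_lit 10, [nat_lit 0, nat_lit 5, nat_lit 5, nat_lit 20], false, nat_lit 160, nat_lit 248, nat_lit 16, nat_lit 320, ⟨nat_lit 212, nat_lit 788, nat_lit 0, nat_lit 8, nat_lit 329, nat_lit 788, nat_lit 157, nat_lit 0, nat_lit 0, nat_lit 0, nat_lit 0, nat_lit 0, nat_lit 35207038, nat_lit 24362850, nat_lit 7430112, nat_lit 5089243, true, true⟩,
 nat_lit 0, nat_lit 0, nat_lit 1931, nat_lit 0, nat_lit 2549, nat_lit 1336, nat_lit 178, nat_lit 0, nat_lit 0, nat_lit 191, nat_lit 0, nat_lit 0, nat_lit 0, nat_lit 0, nat_lit 0, nat_lit 315200, nat_lit 0, nat_lit 0, [(nat_lit 24, [(nat_lit 1, nat_lit 788)])],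
 ⟨p121_k21, nat_lit 0, nat_lit 0, nat_lit 80, nat_lit 0, nat_lit 0, [nat_lit 741000000, nat_lit 1188734934, nat_lit 1748573866], [], [nat_lit 25337148230, nat_lit 26283061372, nat_lit 26974340862, nat_lit 27843772078, nat_lit 27117735760, nat_lit 27953186911, nat_lit 28562413446, nat_lit 29367292575], nat_lit 0, nat_lit 0, nat_lit 0, nat_lit 0, nat_lit 0, nat_lit 0, [], [nat_lit 152, nat_lit 40, nat_lit 40, nat_lit 80, nat_lit 33, nat_lit 203, nat_lit 0, nat_lit 6]⟩, ⟨p121_k28, nat_lit 0, nat_lit 0, nat_lit 854, nat_lit 0, nat_lit 1688665, [nat_lit 695784000, nat_lit 993856000, nat_lit 1689216000], [], [nat_lit 7145435172, nat_lit 7159079887, nat_lit 7287469534, nat_lit 7299302988, nat_lit 6738851106, nat_lit 6745133856, nat_lit 6816470106, nat_lit 6821492970], nat_lit 1271250, nat_lit 1271250, nat_lit 1271250, nat_lit 1271250, nat_lit 88400, nat_lit 2281000, [nat_lit 780000, nat_lit 1100000, nat_lit 1785000],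 [nat_lit 36, nat_lit 40, nat_lit 40, nat_lit 80, nat_lit 7, nat_lit 337, nat_lit 100, nat_lit 10]⟩,
 ⟨nat_lit 2236, nat_lit 3163, ⟨.ofNat (nat_lit 793619), .ofNat (nat_lit 854586), .ofNat (nat_lit 799146), .ofNat (nat_lit 860125), .ofNat (nat_lit 784902), .ofNat (nat_lit 841932), .ofNat (nat_lit 790584), .ofNat (nat_lit 847626)⟩, ⟨.ofNat (nat_lit 306116), .ofNat (nat_lit 440213), .ofNat (nat_lit 350426), .ofNat (nat_lit 484523), .ofNat (nat_lit 306337), .ofNat (nat_lit 431772), .ofNat (nat_lit 351886), .ofNat (nat_lit 477320)⟩⟩, [⟨nat_lit 4, nat_lit 100, nat_lit 53, nat_lit 87, nat_lit 319227806⟩, ⟨nat_lit 19, nat_lit 94, nat_lit 88, nat_lit 100, nat_lit 34310469⟩]⟩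
noncomputable def p121_l91 : Lf2 := ⟨nat_lit 0, nat_lit 10, [nat_lit 0, nat_lit 5, nat_lit 5, nat_lit 20], false, nat_lit 160, nat_lit 248, nat_lit 16, nat_lit 316, ⟨nat_lit 222, nat_lit 778, nat_lit 0, nat_lit 8, nat_lit 331, nat_lit 778, nat_lit 157, nat_lit 0, nat_lit 0, nat_lit 0, nat_lit 0, nat_lit 0, nat_lit 35040129, nat_lit 24556116, nat_lit 7403755, nat_lit 5091146, true, true⟩,
 nat_lit 0, nat_lit 0, nat_lit 1956, nat_lit 0, nat_lit 2558, nat_lit 1382, nat_lit 183, nat_lit 0, nat_lit 0, nat_lit 193, nat_lit 0, nat_lit 0, nat_lit 0, nat_lit 0, nat_lit 0, nat_lit 311200, nat_lit 0, nat_lit 0, [(nat_lit 24, [(nat_lit 1, nat_lit 778)])],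
 ⟨p121_k21, nat_lit 0, nat_lit 0, nat_lit 80, nat_lit 0, nat_lit 0, [nat_lit 743500000, nat_lit 1199436267, nat_lit 1783896533], [], [nat_lit 25342954571, nat_lit 26290071535, nat_lit 26981909115, nat_lit 27852366187, nat_lit 27122847398, nat_lit 27959256765, nat_lit 28568867827, nat_lit 29377082348], nat_lit 0, nat_lit 0, nat_lit 0, nat_lit 0, nat_lit 0, nat_lit 0, [], [nat_lit 152, nat_lit 40, nat_lit 40, nat_lit 80, nat_lit 33, nat_lit 203, nat_lit 0, nat_lit 6]⟩, ⟨p121_k29, nat_lit 0, nat_lit 0, nat_lit 846, nat_lit 0, nat_lit 1670886, [nat_lit 728604000, nat_lit 1040736000, nat_lit 1768896000], [], [nat_lit 7425380303, nat_lit 7440861493, nat_lit 7582214250, nat_lit 7595724142, nat_lit 7033841931, nat_lit 7041444013, nat_lit 7128332749, nat_lit 7136116187], nat_lit 1271250, nat_lit 1271250, nat_lit 1271250, nat_lit 1271250, nat_lit 88400, nat_lit 2252150, [nat_lit 780000, nat_lit 1100000, nat_lit 1785000],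 [nat_lit 36, nat_lit 40, nat_lit 40, nat_lit 80, nat_lit 7, nat_lit 335, nat_lit 100, nat_lit 10]⟩,
 ⟨nat_lit 2236, nat_lit 3163, ⟨.ofNat (nat_lit 799146), .ofNat (nat_lit 860125), .ofNat (nat_lit 804673), .ofNat (nat_lit 865664), .ofNat (nat_lit 790584), .ofNat (nat_lit 847626), .ofNat (nat_lit 796267), .ofNat (nat_lit 853319)⟩, ⟨.ofNat (nat_lit 306116), .ofNat (nat_lit 440213), .ofNat (nat_lit 350426), .ofNat (nat_lit 484523), .ofNat (nat_lit 306337), .ofNat (nat_lit 431772), .ofNat (nat_lit 351886), .ofNat (nat_lit 477320)⟩⟩, [⟨nat_lit 16, nat_lit 53, nat_lit 100, nat_lit 87, nat_lit 320397593⟩, ⟨nat_lit 19, nat_lit 93, nat_lit 90, nat_lit 100, nat_lit 36683842⟩]⟩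
noncomputable def p121_l92 : Lf2 := ⟨nat_lit 0, nat_lit 10, [nat_lit 0, nat_lit 5, nat_lit 5, nat_lit 20], false, nat_lit 160, nat_lit 248, nat_lit 16, nat_lit 312, ⟨nat_lit 233, nat_lit 767, nat_lit 0, nat_lit 8, nat_lit 335, nat_lit 767, nat_lit 158, nat_lit 0, nat_lit 0, nat_lit 0, nat_lit 0, nat_lit 0, nat_lit 34698784, nat_lit 24922993, nat_lit 7378223, nat_lit 5097626, true, true⟩,
 nat_lit 0, nat_lit 0, nat_lit 1999, nat_lit 0, nat_lit 2558, nat_lit 1440, nat_lit 86, nat_lit 0, nat_lit 0, nat_lit 167, nat_lit 0, nat_lit 0, nat_lit 0, nat_lit 0, nat_lit 0, nat_lit 429200, nat_lit 0, nat_lit 0, [(nat_lit 24, [(nat_lit 1, nat_lit 563), (nat_lit 2, nat_lit 204)])],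
 ⟨p121_k21, nat_lit 0, nat_lit 0, nat_lit 74, nat_lit 0, nat_lit 0, [nat_lit 745597200, nat_lit 1162519734, nat_lit 1237897066], [], [nat_lit 25283446054, nat_lit 25757004536, nat_lit 26922400598, nat_lit 27357629134, nat_lit 27063338881, nat_lit 27481543565, nat_lit 28523584699, nat_lit 28933972457], nat_lit 0, nat_lit 0, nat_lit 0, nat_lit 0, nat_lit 0, nat_lit 0, [], [nat_lit 152, nat_lit 40, nat_lit 40, nat_lit 80, nat_lit 33, nat_lit 203, nat_lit 0, nat_lit 6]⟩, ⟨p121_k30, nat_lit 0, nat_lit 0, nat_lit 787, nat_lit 0, nat_lit 1561410, [nat_lit 764706000, nat_lit 1092304000, nat_lit 1856544000], [], [nat_lit 7731968483, nat_lit 7772636995, nat_lit 7930212197, nat_lit 7966023326, nat_lit 7391239143, nat_lit 7413039115, nat_lit 7508445096, nat_lit 7527164982], nat_lit 1271250, nat_lit 1271250, nat_lit 1271250, nat_lit 1271250, nat_lit 88400, nat_lit 2223300, [nat_lit 780000, nat_lit 1100000, nat_lit 1785000],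 [nat_lit 36, nat_lit 40, nat_lit 40, nat_lit 80, nat_lit 7, nat_lit 321, nat_lit 100, nat_lit 10]⟩,
 ⟨nat_lit 2738, nat_lit 3163, ⟨.ofNat (nat_lit 804700), .ofNat (nat_lit 865664), .ofNat (nat_lit 815772), .ofNat (nat_lit 876741), .ofNat (nat_lit 800467), .ofNat (nat_lit 859539), .ofNat (nat_lit 811670), .ofNat (nat_lit 870748)⟩, ⟨.ofNat (nat_lit 306116), .ofNat (nat_lit 440213), .ofNat (nat_lit 350426), .ofNat (nat_lit 484523), .ofNat (nat_lit 306433), .ofNat (nat_lit 436368), .ofNat (nat_lit 351268), .ofNat (nat_lit 481203)⟩⟩, [⟨nat_lit 4, nat_lit 100, nat_lit 57, nat_lit 87, nat_lit 299824867⟩, ⟨nat_lit 19, nat_lit 91, nat_lit 91, nat_lit 100, nat_lit 39881595⟩]⟩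
noncomputable def p121_l93 : Lf2 := ⟨nat_lit 0, nat_lit 10, [nat_lit 0, nat_lit 5, nat_lit 5, nat_lit 20], false, nat_lit 160, nat_lit 232, nat_lit 16, nat_lit 312, ⟨nat_lit 214, nat_lit 786, nat_lit 0, nat_lit 8, nat_lit 333, nat_lit 786, nat_lit 152, nat_lit 0, nat_lit 0, nat_lit 0, nat_lit 0, nat_lit 0, nat_lit 35068146, nat_lit 24880378, nat_lit 7051476, nat_lit 5050296, true, true⟩,
 nat_lit 0, nat_lit 0, nat_lit 1859, nat_lit 0, nat_lit 2466, nat_lit 1340, nat_lit 246, nat_lit 0, nat_lit 0, nat_lit 153, nat_lit 0, nat_lit 0, nat_lit 0, nat_lit 0, nat_lit 0, nat_lit 241500, nat_lit 0, nat_lit 0, [(nat_lit 24, [(nat_lit 0, nat_lit 486), (nat_lit 1, nat_lit 300)])],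
 ⟨p121_k23, nat_lit 0, nat_lit 0, nat_lit 80, nat_lit 0, nat_lit 0, [nat_lit 778047200, nat_lit 1225737601, nat_lit 2118473600], [], [nat_lit 25693995090, nat_lit 26161400704, nat_lit 27277518636, nat_lit 27707503908, nat_lit 27062084309, nat_lit 27485519765, nat_lit 28505725155, nat_lit 28921215845], nat_lit 0, nat_lit 0, nat_lit 0, nat_lit 0, nat_lit 0, nat_lit 0, [], [nat_lit 152, nat_lit 40, nat_lit 40, nat_lit 80, nat_lit 33, nat_lit 203, nat_lit 0, nat_lit 6]⟩, ⟨p121_k30, nat_lit 0, nat_lit 0, nat_lit 851, nat_lit 0, nat_lit 1686097, [nat_lit 702348000, nat_lit 1003232000, nat_lit 1705152000], [], [nat_lit 7199829075, nat_lit 7231969545, nat_lit 7359169533, nat_lit 7387305881, nat_lit 6832651148, nat_lit 6849057968, nat_lit 6924955454, nat_lit 6940118297], nat_lit 1271250, nat_lit 1271250, nat_lit 1271250, nat_lit 1271250, nat_lit 88400, nat_lit 2223300, [nat_lit 780000, nat_lit 1100000, nat_lit 1785000],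 [nat_lit 36, nat_lit 40, nat_lit 40, nat_lit 80, nat_lit 7, nat_lit 337, nat_lit 100, nat_lit 10]⟩,
 ⟨nat_lit 2236, nat_lit 2739, ⟨.ofNat (nat_lit 800472), .ofNat (nat_lit 859539), .ofNat (nat_lit 811671), .ofNat (nat_lit 870748), .ofNat (nat_lit 796297), .ofNat (nat_lit 853319), .ofNat (nat_lit 807675), .ofNat (nat_lit 864706)⟩, ⟨.ofNat (nat_lit 306433), .ofNat (nat_lit 412743), .ofNat (nat_lit 351268), .ofNat (nat_lit 457578), .ofNat (nat_lit 306337), .ofNat (nat_lit 408965), .ofNat (nat_lit 351886), .ofNat (nat_lit 454514)⟩⟩, [⟨nat_lit 16, nat_lit 53, nat_lit 100, nat_lit 93, nat_lit 289468567⟩, ⟨nat_lit 19, nat_lit 91, nat_lit 91, nat_lit 100, nat_lit 35753783⟩]⟩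
noncomputable def p121_l94 : Lf2 := ⟨nat_lit 0, nat_lit 10, [nat_lit 0, nat_lit 5, nat_lit 5, nat_lit 20], true, nat_lit 160, nat_lit 208, nat_lit 16, nat_lit 336, ⟨nat_lit 0, nat_lit 1000, nat_lit 0, nat_lit 8, nat_lit 323, nat_lit 1000, nat_lit 144, nat_lit 0, nat_lit 0, nat_lit 0, nat_lit 0, nat_lit 0, nat_lit 36239418, nat_lit 24171481, nat_lit 6589101, nat_lit 4960667, true, true⟩,
 nat_lit 0, nat_lit 0, nat_lit 0, nat_lit 0, nat_lit 2567, nat_lit 0, nat_lit 0, nat_lit 0, nat_lit 0, nat_lit 0, nat_lit 0, nat_lit 0, nat_lit 0, nat_lit 0, nat_lit 0, nat_lit 250000, nat_lit 0, nat_lit 0, [(nat_lit 27, [(nat_lit 0, nat_lit 1000)])],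
 ⟨p121_k17, nat_lit 0, nat_lit 0, nat_lit 73, nat_lit 0, nat_lit 0, [nat_lit 780800001, nat_lit 1042800000], [], [nat_lit 26209367776, nat_lit 27182343666, nat_lit 27815757880, nat_lit 28810990120, nat_lit 27122401662, nat_lit 28033397697, nat_lit 28627846308, nat_lit 29569586330], nat_lit 0, nat_lit 0, nat_lit 0, nat_lit 0, nat_lit 0, nat_lit 0, [], [nat_lit 66, nat_lit 40, nat_lit 40, nat_lit 80, nat_lit 67, nat_lit 203, nat_lit 0, nat_lit 8]⟩, C1.Rw.none,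
 ⟨nat_lit 0, nat_lit 2237, ⟨.ofNat (nat_lit 762141), .ofNat (nat_lit 819154), .ofNat (nat_lit 807594), .ofNat (nat_lit 864705), .ofNat (nat_lit 749998), .ofNat (nat_lit 799995), .ofNat (nat_lit 799902), .ofNat (nat_lit 849998)⟩, ⟨.ofNat (nat_lit 306334), .ofNat (nat_lit 374750), .ofNat (nat_lit 351885), .ofNat (nat_lit 420300), .ofNat (nat_lit 299996), .ofNat (nat_lit 359993), .ofNat (nat_lit 349998), .ofNat (nat_lit 409994)⟩⟩, [⟨nat_lit 16, nat_lit 44, nat_lit 100, nat_lit 92, nat_lit 265987114⟩]⟩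
noncomputable def b_V_900_700_20_4 : St := ⟨true, nat_lit 0, nat_lit 1, nat_lit 1, nat_lit 120, nat_lit 360, nat_lit 400, nat_lit 280, nat_lit 320, nat_lit 320, nat_lit 360, nat_lit 80, nat_lit 120, nat_lit 160, nat_lit 248, nat_lit 16, nat_lit 336, nat_lit 0, nat_lit 40, nat_lit 0, nat_lit 0, nat_lit 0, nat_lit 0⟩
theorem d_V_900_700_20_4 (h : EB TB.env) : Dead b_V_900_700_20_4 := chkB_sound0 h (T :=
(.spl (nat_lit 0) (nat_lit 380)
(.spl (nat_lit 1) (nat_lit 300)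
(.spl (nat_lit 1) (nat_lit 290)
(.spl (nat_lit 4) (nat_lit 200)
(.leaf p121_l81)
(.trZ (nat_lit 9) (nat_lit 100) (nat_lit 80) (nat_lit 60) (nat_lit 40) (.spl (nat_lit 1) (nat_lit 285)
(.spl (nat_lit 0) (nat_lit 370)
(.leaf p121_l82)
(.trX (nat_lit 16) (nat_lit 53) (nat_lit 100) (nat_lit 93) (nat_lit 232) (.leaf p121_l83)))
(.trX (nat_lit 19) (nat_lit 99) (nat_lit 82) (nat_lit 100) (nat_lit 332) (.spl (nat_lit 0) (nat_lit 370)
(.leaf p121_l84)
(.trX (nat_lit 16) (nat_lit 53) (nat_lit 100) (nat_lit 93) (nat_lit 232) (.leaf p121_l85)))))))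
(.trX (nat_lit 19) (nat_lit 97) (nat_lit 84) (nat_lit 100) (nat_lit 328) (.spl (nat_lit 1) (nat_lit 295)
(.spl (nat_lit 0) (nat_lit 370)
(.leaf p121_l86)
(.trX (nat_lit 16) (nat_lit 53) (nat_lit 100) (nat_lit 93) (nat_lit 232) (.leaf p121_l87)))
(.trX (nat_lit 19) (nat_lit 96) (nat_lit 86) (nat_lit 100) (nat_lit 324) (.spl (nat_lit 0) (nat_lit 370)
(.leaf p121_l88)
(.trX (nat_lit 16) (nat_lit 53) (nat_lit 100) (nat_lit 93) (nat_lit 232) (.leaf p121_l89)))))))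
(.trX (nat_lit 19) (nat_lit 94) (nat_lit 88) (nat_lit 100) (nat_lit 320) (.spl (nat_lit 1) (nat_lit 310)
(.spl (nat_lit 1) (nat_lit 305)
(.leaf p121_l90)
(.trX (nat_lit 19) (nat_lit 93) (nat_lit 90) (nat_lit 100) (nat_lit 316) (.leaf p121_l91)))
(.trX (nat_lit 19) (nat_lit 91) (nat_lit 91) (nat_lit 100) (nat_lit 312) (.spl (nat_lit 0) (nat_lit 370)
(.leaf p121_l92)
(.trX (nat_lit 16) (nat_lit 53) (nat_lit 100) (nat_lit 93) (nat_lit 232) (.leaf p121_l93)))))))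
(.trX (nat_lit 16) (nat_lit 44) (nat_lit 100) (nat_lit 92) (nat_lit 208) (.leaf p121_l94)))) (by decide +kernel)
noncomputable def p121_l95 : Lf2 := ⟨nat_lit 0, nat_lit 10, [nat_lit 0, nat_lit 5, nat_lit 5, nat_lit 20], false, nat_lit 160, nat_lit 200, nat_lit 48, nat_lit 320, ⟨nat_lit 67, nat_lit 933, nat_lit 0, nat_lit 9, nat_lit 343, nat_lit 933, nat_lit 143, nat_lit 0, nat_lit 0, nat_lit 0, nat_lit 0, nat_lit 0, nat_lit 34666326, nat_lit 25973296, nat_lit 6360378, nat_lit 4975063, true, true⟩,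
 nat_lit 0, nat_lit 0, nat_lit 838, nat_lit 0, nat_lit 2726, nat_lit 532, nat_lit 115, nat_lit 0, nat_lit 0, nat_lit 28, nat_lit 0, nat_lit 0, nat_lit 0, nat_lit 0, nat_lit 0, nat_lit 267750, nat_lit 0, nat_lit 0, [(nat_lit 24, [(nat_lit 0, nat_lit 703), (nat_lit 1, nat_lit 230)])],
 ⟨p121_k12, nat_lit 0, nat_lit 0, nat_lit 85, nat_lit 0, nat_lit 0, [nat_lit 794415601, nat_lit 1410422267, nat_lit 1732644800], [], [nat_lit 27219173325, nat_lit 27672121357, nat_lit 28306248602, nat_lit 28734589503, nat_lit 27899738142, nat_lit 28328880806, nat_lit 28929723389, nat_lit 29339135340], nat_lit 0, nat_lit 0, nat_lit 0, nat_lit 0, nat_lit 0, nat_lit 0, [], [nat_lit 35, nat_lit 40, nat_lit 40, nat_lit 80, nat_lit 22, nat_lit 203, nat_lit 0, nat_lit 6]⟩, ⟨p121_k15, nat_lit 0, nat_lit 0, nat_lit 898, nat_lit 0, nat_lit 1715010, [nat_lit 219894000, nat_lit 418750000, nat_lit 659414000], [], [nat_lit 2603149434, nat_lit 2607083346,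 nat_lit 2624119897, nat_lit 2626733052, nat_lit 2337025736, nat_lit 2333631154, nat_lit 2346531808, nat_lit 2358388088], nat_lit 1271250, nat_lit 1271250, nat_lit 1271250, nat_lit 1271250, nat_lit 279600, nat_lit 2323000, [nat_lit 780000, nat_lit 1435000, nat_lit 1271250], [nat_lit 8, nat_lit 40, nat_lit 40, nat_lit 80, nat_lit 1, nat_lit 350, nat_lit 100, nat_lit 9]⟩,
 ⟨nat_lit 2738, nat_lit 3163, ⟨.ofNat (nat_lit 832432), .ofNat (nat_lit 869004), .ofNat (nat_lit 854586), .ofNat (nat_lit 891158), .ofNat (nat_lit 825913), .ofNat (nat_lit 861350), .ofNat (nat_lit 848331), .ofNat (nat_lit 883768)⟩, ⟨.ofNat (nat_lit 306116), .ofNat (nat_lit 367069), .ofNat (nat_lit 350426), .ofNat (nat_lit 411379), .ofNat (nat_lit 306433), .ofNat (nat_lit 365494), .ofNat (nat_lit 351268), .ofNat (nat_lit 410329)⟩⟩, [⟨nat_lit 13, nat_lit 63, nat_lit 54, nat_lit 100, nat_lit 258617305⟩, ⟨nat_lit 22, nat_lit 51, nat_lit 91, nat_lit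 100, nat_lit 15763367⟩]⟩
noncomputable def p121_l96 : Lf2 := ⟨nat_lit 0, nat_lit 10, [nat_lit 0, nat_lit 5, nat_lit 5, nat_lit 20], true, nat_lit 160, nat_lit 200, nat_lit 48, nat_lit 320, ⟨nat_lit 0, nat_lit 1000, nat_lit 0, nat_lit 9, nat_lit 339, nat_lit 1000, nat_lit 143, nat_lit 0, nat_lit 0, nat_lit 0, nat_lit 0, nat_lit 0, nat_lit 34976726, nat_lit 25635791, nat_lit 6387483, nat_lit 4971225, true, true⟩,
 nat_lit 0, nat_lit 0, nat_lit 0, nat_lit 0, nat_lit 2542, nat_lit 0, nat_lit 135, nat_lit 0, nat_lit 0, nat_lit 0, nat_lit 0, nat_lit 0, nat_lit 0, nat_lit 0, nat_lit 0, nat_lit 250000, nat_lit 0, nat_lit 0, [(nat_lit 24, [(nat_lit 0, nat_lit 1000)])],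
 ⟨p121_k16, nat_lit 0, nat_lit 0, nat_lit 87, nat_lit 0, nat_lit 0, [nat_lit 763200001, nat_lit 1367200000, nat_lit 1705600000], [], [nat_lit 27433757233, nat_lit 27868073897, nat_lit 28283496948, nat_lit 28726377004, nat_lit 28106147182, nat_lit 28518304691, nat_lit 28912883957, nat_lit 29364536553], nat_lit 0, nat_lit 0, nat_lit 0, nat_lit 0, nat_lit 0, nat_lit 0, [], [nat_lit 35, nat_lit 40, nat_lit 40, nat_lit 80, nat_lit 22, nat_lit 203, nat_lit 0, nat_lit 6]⟩, C1.Rw.none,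
 ⟨nat_lit 2236, nat_lit 2739, ⟨.ofNat (nat_lit 825913), .ofNat (nat_lit 855444), .ofNat (nat_lit 848331), .ofNat (nat_lit 877861), .ofNat (nat_lit 819158), .ofNat (nat_lit 847666), .ofNat (nat_lit 841932), .ofNat (nat_lit 870440)⟩, ⟨.ofNat (nat_lit 306433), .ofNat (nat_lit 365494), .ofNat (nat_lit 351268), .ofNat (nat_lit 410329), .ofNat (nat_lit 306337), .ofNat (nat_lit 363353), .ofNat (nat_lit 351886), .ofNat (nat_lit 408901)⟩⟩, [⟨nat_lit 13, nat_lit 61, nat_lit 55, nat_lit 100, nat_lit 323858039⟩]⟩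
noncomputable def p121_l97 : Lf2 := ⟨nat_lit 0, nat_lit 5, [nat_lit 4, nat_lit 5, nat_lit 5, nat_lit 20], true, nat_lit 200, nat_lit 248, nat_lit 80, nat_lit 336, ⟨nat_lit 0, nat_lit 1000, nat_lit 0, nat_lit 9, nat_lit 338, nat_lit 1000, nat_lit 169, nat_lit 0, nat_lit 0, nat_lit 0, nat_lit 0, nat_lit 0, nat_lit 34002597, nat_lit 24902602, nat_lit 8094801, nat_lit 5192787, true, true⟩,
 nat_lit 0, nat_lit 0, nat_lit 0, nat_lit 0, nat_lit 2692, nat_lit 0, nat_lit 0, nat_lit 0, nat_lit 0, nat_lit 0, nat_lit 0, nat_lit 0, nat_lit 0, nat_lit 0, nat_lit 0, nat_lit 257950, nat_lit 0, nat_lit 0, [(nat_lit 24, [(nat_lit 0, nat_lit 947), (nat_lit 1, nat_lit 53)])],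
 ⟨p121_k31, nat_lit 0, nat_lit 0, nat_lit 69, nat_lit 0, nat_lit 0, [nat_lit 767694401, nat_lit 1346720800], [], [nat_lit 27805218914, nat_lit 28667658340, nat_lit 28667658340, nat_lit 29567107278, nat_lit 28727875628, nat_lit 29531836191, nat_lit 29531836191, nat_lit 30392072672], nat_lit 0, nat_lit 0, nat_lit 0, nat_lit 0, nat_lit 0, nat_lit 0, [], [nat_lit 66, nat_lit 40, nat_lit 40, nat_lit 80, nat_lit 67, nat_lit 203, nat_lit 0, nat_lit 7]⟩, C1.Rw.none,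
 ⟨nat_lit 2236, nat_lit 3163, ⟨.ofNat (nat_lit 832432), .ofNat (nat_lit 862908), .ofNat (nat_lit 843509), .ofNat (nat_lit 873986), .ofNat (nat_lit 819158), .ofNat (nat_lit 847666), .ofNat (nat_lit 830545), .ofNat (nat_lit 859053)⟩, ⟨.ofNat (nat_lit 367069), .ofNat (nat_lit 440213), .ofNat (nat_lit 411379), .ofNat (nat_lit 484523), .ofNat (nat_lit 363353), .ofNat (nat_lit 431772), .ofNat (nat_lit 408901), .ofNat (nat_lit 477320)⟩⟩, [⟨nat_lit 13, nat_lit 67, nat_lit 50, nat_lit 100, nat_lit 285069215⟩, ⟨nat_lit 16, nat_lit 62, nat_lit 100, nat_lit 94, nat_lit 186214988⟩]⟩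
noncomputable def p121_l98 : Lf2 := ⟨nat_lit 0, nat_lit 10, [nat_lit 0, nat_lit 5, nat_lit 5, nat_lit 20], false, nat_lit 200, nat_lit 248, nat_lit 80, nat_lit 336, ⟨nat_lit 142, nat_lit 858, nat_lit 0, nat_lit 9, nat_lit 337, nat_lit 858, nat_lit 170, nat_lit 0, nat_lit 0, nat_lit 0, nat_lit 0, nat_lit 0, nat_lit 34072166, nat_lit 24775429, nat_lit 8152405, nat_lit 5196959, true, true⟩,
 nat_lit 0, nat_lit 0, nat_lit 1702, nat_lit 0, nat_lit 2802, nat_lit 1082, nat_lit 88, nat_lit 0, nat_lit 0, nat_lit 72, nat_lit 0, nat_lit 0, nat_lit 0, nat_lit 0, nat_lit 0, nat_lit 306450, nat_lit 0, nat_lit 0, [(nat_lit 24, [(nat_lit 0, nat_lit 245), (nat_lit 1, nat_lit 613)])],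
 ⟨p121_k12, nat_lit 0, nat_lit 0, nat_lit 74, nat_lit 0, nat_lit 0, [nat_lit 840004000, nat_lit 1412373334, nat_lit 1668615200], [], [nat_lit 27967843032, nat_lit 28393413811, nat_lit 28650492170, nat_lit 29068144175, nat_lit 28846873201, nat_lit 29243765206, nat_lit 29481947541, nat_lit 29915585033], nat_lit 0, nat_lit 0, nat_lit 0, nat_lit 0, nat_lit 0, nat_lit 0, [], [nat_lit 35, nat_lit 40, nat_lit 40, nat_lit 80, nat_lit 22, nat_lit 203, nat_lit 0, nat_lit 6]⟩, ⟨p121_k15, nat_lit 0, nat_lit 0, nat_lit 635, nat_lit 0, nat_lit 1180542, [nat_lit 466044000, nat_lit 887500000, nat_lit 1397564000], [], [nat_lit 4990891648, nat_lit 4997546910, nat_lit 5059616506, nat_lit 5065778385, nat_lit 4844012449, nat_lit 4846534614, nat_lit 4887520796, nat_lit 4902343173], nat_lit 1271250, nat_lit 1271250, nat_lit 1271250, nat_lit 1271250, nat_lit 490000, nat_lit 2490000, [nat_lit 780000, nat_lit 1435000, nat_lit 1271250],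 [nat_lit 8, nat_lit 40, nat_lit 40, nat_lit 80, nat_lit 1, nat_lit 317, nat_lit 100, nat_lit 8]⟩,
 ⟨nat_lit 2738, nat_lit 3163, ⟨.ofNat (nat_lit 832432), .ofNat (nat_lit 856813), .ofNat (nat_lit 835755), .ofNat (nat_lit 860136), .ofNat (nat_lit 825913), .ofNat (nat_lit 849538), .ofNat (nat_lit 829276), .ofNat (nat_lit 852901)⟩, ⟨.ofNat (nat_lit 367069), .ofNat (nat_lit 440213), .ofNat (nat_lit 411379), .ofNat (nat_lit 484523), .ofNat (nat_lit 365494), .ofNat (nat_lit 436368), .ofNat (nat_lit 410329), .ofNat (nat_lit 481203)⟩⟩, [⟨nat_lit 13, nat_lit 66, nat_lit 53, nat_lit 100, nat_lit 219062840⟩, ⟨nat_lit 16, nat_lit 62, nat_lit 100, nat_lit 94, nat_lit 227604173⟩, ⟨nat_lit 19, nat_lit 100, nat_lit 80, nat_lit 100, nat_lit 26275110⟩]⟩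
noncomputable def p121_l99 : Lf2 := ⟨nat_lit 0, nat_lit 10, [nat_lit 0, nat_lit 5, nat_lit 5, nat_lit 20], false, nat_lit 200, nat_lit 248, nat_lit 80, nat_lit 336, ⟨nat_lit 152, nat_lit 848, nat_lit 0, nat_lit 9, nat_lit 340, nat_lit 848, nat_lit 170, nat_lit 0, nat_lit 0, nat_lit 0, nat_lit 0, nat_lit 0, nat_lit 33847986, nat_lit 25021963, nat_lit 8130051, nat_lit 5200231, true, true⟩,
 nat_lit 0, nat_lit 0, nat_lit 1747, nat_lit 0, nat_lit 2813, nat_lit 1126, nat_lit 100, nat_lit 0, nat_lit 0, nat_lit 82, nat_lit 0, nat_lit 0, nat_lit 0, nat_lit 0, nat_lit 0, nat_lit 291200, nat_lit 0, nat_lit 0, [(nat_lit 24, [(nat_lit 0, nat_lit 320), (nat_lit 1, nat_lit 528)])],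
 ⟨p121_k12, nat_lit 0, nat_lit 0, nat_lit 74, nat_lit 0, nat_lit 0, [nat_lit 834544000, nat_lit 1462960000, nat_lit 1762291200], [], [nat_lit 27988503604, nat_lit 28205386410, nat_lit 28856034827, nat_lit 29063183660, nat_lit 28866780046, nat_lit 29068519376, nat_lit 29674862236, nat_lit 29889257658], nat_lit 0, nat_lit 0, nat_lit 0, nat_lit 0, nat_lit 0, nat_lit 0, [], [nat_lit 35, nat_lit 40, nat_lit 40, nat_lit 80, nat_lit 22, nat_lit 203, nat_lit 0, nat_lit 6]⟩, ⟨p121_k32, nat_lit 0, nat_lit 0, nat_lit 604, nat_lit 0, nat_lit 1096517, [nat_lit 498864000, nat_lit 950000000, nat_lit 1495984000], [], [nat_lit 5357852569, nat_lit 5362625380, nat_lit 5448305852, nat_lit 5452648638, nat_lit 5217613471, nat_lit 5219500454, nat_lit 5270985430, nat_lit 5272575721], nat_lit 1271250, nat_lit 1271250, nat_lit 1271250, nat_lit 1271250, nat_lit 490000, nat_lit 2490000, [nat_lit 780000, nat_lit 1435000, nat_lit 1271250],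 [nat_lit 8, nat_lit 40, nat_lit 40, nat_lit 80, nat_lit 1, nat_lit 317, nat_lit 100, nat_lit 8]⟩,
 ⟨nat_lit 2958, nat_lit 3163, ⟨.ofNat (nat_lit 835755), .ofNat (nat_lit 866231), .ofNat (nat_lit 837970), .ofNat (nat_lit 868447), .ofNat (nat_lit 832532), .ofNat (nat_lit 862543), .ofNat (nat_lit 834760), .ofNat (nat_lit 864771)⟩, ⟨.ofNat (nat_lit 367069), .ofNat (nat_lit 440213), .ofNat (nat_lit 411379), .ofNat (nat_lit 484523), .ofNat (nat_lit 366336), .ofNat (nat_lit 438361), .ofNat (nat_lit 410890), .ofNat (nat_lit 482915)⟩⟩, [⟨nat_lit 13, nat_lit 66, nat_lit 52, nat_lit 100, nat_lit 220053265⟩, ⟨nat_lit 16, nat_lit 62, nat_lit 100, nat_lit 94, nat_lit 228937108⟩, ⟨nat_lit 19, nat_lit 99, nat_lit 81, nat_lit 100, nat_lit 28522813⟩]⟩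
noncomputable def p121_l100 : Lf2 := ⟨nat_lit 0, nat_lit 10, [nat_lit 0, nat_lit 5, nat_lit 5, nat_lit 20], true, nat_lit 200, nat_lit 240, nat_lit 80, nat_lit 336, ⟨nat_lit 0, nat_lit 1000, nat_lit 0, nat_lit 9, nat_lit 338, nat_lit 1000, nat_lit 167, nat_lit 0, nat_lit 0, nat_lit 0, nat_lit 0, nat_lit 0, nat_lit 34148377, nat_lit 24879754, nat_lit 7971869, nat_lit 5176320, true, true⟩,
 nat_lit 0, nat_lit 0, nat_lit 0, nat_lit 0, nat_lit 2639, nat_lit 0, nat_lit 124, nat_lit 0, nat_lit 0, nat_lit 0, nat_lit 0, nat_lit 0, nat_lit 0, nat_lit 0, nat_lit 0, nat_lit 250000, nat_lit 0, nat_lit 0, [(nat_lit 24, [(nat_lit 0, nat_lit 1000)])],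
 ⟨p121_k33, nat_lit 0, nat_lit 0, nat_lit 74, nat_lit 0, nat_lit 0, [nat_lit 763200001, nat_lit 1367200000, nat_lit 1705600000], [], [nat_lit 27988953071, nat_lit 28197533916, nat_lit 28655454460, nat_lit 28860285113, nat_lit 28665885840, nat_lit 28863125086, nat_lit 29296218038, nat_lit 29513474790], nat_lit 0, nat_lit 0, nat_lit 0, nat_lit 0, nat_lit 0, nat_lit 0, [], [nat_lit 35, nat_lit 40, nat_lit 40, nat_lit 80, nat_lit 22, nat_lit 203, nat_lit 0, nat_lit 6]⟩, C1.Rw.none,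
 ⟨nat_lit 2738, nat_lit 2959, ⟨.ofNat (nat_lit 832532), .ofNat (nat_lit 856541), .ofNat (nat_lit 834760), .ofNat (nat_lit 858769), .ofNat (nat_lit 829276), .ofNat (nat_lit 852901), .ofNat (nat_lit 831518), .ofNat (nat_lit 855142)⟩, ⟨.ofNat (nat_lit 366336), .ofNat (nat_lit 426357), .ofNat (nat_lit 410890), .ofNat (nat_lit 470911), .ofNat (nat_lit 365494), .ofNat (nat_lit 424556), .ofNat (nat_lit 410329), .ofNat (nat_lit 469390)⟩⟩, [⟨nat_lit 13, nat_lit 62, nat_lit 56, nat_lit 100, nat_lit 303514731⟩, ⟨nat_lit 16, nat_lit 58, nat_lit 100, nat_lit 93, nat_lit 185408618⟩]⟩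
noncomputable def p121_l101 : Lf2 := ⟨nat_lit 0, nat_lit 10, [nat_lit 0, nat_lit 5, nat_lit 5, nat_lit 20], true, nat_lit 200, nat_lit 232, nat_lit 80, nat_lit 336, ⟨nat_lit 0, nat_lit 1000, nat_lit 0, nat_lit 9, nat_lit 332, nat_lit 1000, nat_lit 164, nat_lit 0, nat_lit 0, nat_lit 0, nat_lit 0, nat_lit 0, nat_lit 34645677, nat_lit 24526310, nat_lit 7828013, nat_lit 5148037, true, true⟩,
 nat_lit 0, nat_lit 0, nat_lit 0, nat_lit 0, nat_lit 2568, nat_lit 0, nat_lit 134, nat_lit 0, nat_lit 0, nat_lit 0, nat_lit 0, nat_lit 0, nat_lit 0, nat_lit 0, nat_lit 0, nat_lit 250000, nat_lit 0, nat_lit 0, [(nat_lit 24, [(nat_lit 0, nat_lit 1000)])],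
 ⟨p121_k16, nat_lit 0, nat_lit 0, nat_lit 75, nat_lit 0, nat_lit 0, [nat_lit 763200001, nat_lit 1367200000, nat_lit 1705600000], [], [nat_lit 28096811925, nat_lit 28510310761, nat_lit 28420532466, nat_lit 28853743634, nat_lit 28633266002, nat_lit 29038792692, nat_lit 28943138699, nat_lit 29386553379], nat_lit 0, nat_lit 0, nat_lit 0, nat_lit 0, nat_lit 0, nat_lit 0, [], [nat_lit 35, nat_lit 40, nat_lit 40, nat_lit 80, nat_lit 22, nat_lit 203, nat_lit 0, nat_lit 6]⟩, C1.Rw.none,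
 ⟨nat_lit 2236, nat_lit 2739, ⟨.ofNat (nat_lit 825913), .ofNat (nat_lit 837726), .ofNat (nat_lit 831518), .ofNat (nat_lit 843330), .ofNat (nat_lit 819158), .ofNat (nat_lit 830561), .ofNat (nat_lit 824851), .ofNat (nat_lit 836255)⟩, ⟨.ofNat (nat_lit 365494), .ofNat (nat_lit 412743), .ofNat (nat_lit 410329), .ofNat (nat_lit 457578), .ofNat (nat_lit 363353), .ofNat (nat_lit 408965), .ofNat (nat_lit 408901), .ofNat (nat_lit 454514)⟩⟩, [⟨nat_lit 13, nat_lit 58, nat_lit 60, nat_lit 100, nat_lit 328407817⟩, ⟨nat_lit 16, nat_lit 53, nat_lit 100, nat_lit 93, nat_lit 211305208⟩]⟩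
noncomputable def p121_l102 : Lf2 := ⟨nat_lit 0, nat_lit 10, [nat_lit 0, nat_lit 5, nat_lit 5, nat_lit 20], true, nat_lit 200, nat_lit 224, nat_lit 80, nat_lit 316, ⟨nat_lit 0, nat_lit 1000, nat_lit 0, nat_lit 9, nat_lit 341, nat_lit 1000, nat_lit 158, nat_lit 0, nat_lit 0, nat_lit 0, nat_lit 0, nat_lit 0, nat_lit 34263837, nat_lit 25403564, nat_lit 7332599, nat_lit 5103353, true, true⟩,
 nat_lit 0, nat_lit 0, nat_lit 0, nat_lit 0, nat_lit 2680, nat_lit 0, nat_lit 91, nat_lit 0, nat_lit 0, nat_lit 0, nat_lit 0, nat_lit 0, nat_lit 0, nat_lit 0, nat_lit 0, nat_lit 290950, nat_lit 0, nat_lit 0, [(nat_lit 24, [(nat_lit 0, nat_lit 727), (nat_lit 1, nat_lit 273)])],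
 ⟨p121_k12, nat_lit 0, nat_lit 0, nat_lit 77, nat_lit 0, nat_lit 0, [nat_lit 786350400, nat_lit 1266226400, nat_lit 1500522400], [], [nat_lit 27810516805, nat_lit 28229793665, nat_lit 28650753245, nat_lit 29089358050, nat_lit 28221890102, nat_lit 28627424141, nat_lit 29034961104, nat_lit 29479940200], nat_lit 0, nat_lit 0, nat_lit 0, nat_lit 0, nat_lit 0, nat_lit 0, [], [nat_lit 35, nat_lit 40, nat_lit 40, nat_lit 80, nat_lit 22, nat_lit 203, nat_lit 0, nat_lit 6]⟩, C1.Rw.none,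
 ⟨nat_lit 2738, nat_lit 3163, ⟨.ofNat (nat_lit 837970), .ofNat (nat_lit 868447), .ofNat (nat_lit 843509), .ofNat (nat_lit 873986), .ofNat (nat_lit 831518), .ofNat (nat_lit 861048), .ofNat (nat_lit 837122), .ofNat (nat_lit 866653)⟩, ⟨.ofNat (nat_lit 367069), .ofNat (nat_lit 403641), .ofNat (nat_lit 389224), .ofNat (nat_lit 425796), .ofNat (nat_lit 365494), .ofNat (nat_lit 400931), .ofNat (nat_lit 387912), .ofNat (nat_lit 423348)⟩⟩, [⟨nat_lit 13, nat_lit 67, nat_lit 50, nat_lit 100, nat_lit 282421096⟩, ⟨nat_lit 16, nat_lit 60, nat_lit 100, nat_lit 87, nat_lit 184001162⟩]⟩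
noncomputable def p121_l103 : Lf2 := ⟨nat_lit 0, nat_lit 10, [nat_lit 0, nat_lit 5, nat_lit 5, nat_lit 20], false, nat_lit 200, nat_lit 248, nat_lit 80, nat_lit 332, ⟨nat_lit 162, nat_lit 838, nat_lit 0, nat_lit 9, nat_lit 341, nat_lit 838, nat_lit 174, nat_lit 0, nat_lit 0, nat_lit 0, nat_lit 0, nat_lit 0, nat_lit 33648074, nat_lit 24946085, nat_lit 8405841, nat_lit 5233099, true, true⟩,
 nat_lit 0, nat_lit 0, nat_lit 1781, nat_lit 0, nat_lit 2802, nat_lit 1157, nat_lit 91, nat_lit 0, nat_lit 0, nat_lit 95, nat_lit 0, nat_lit 0, nat_lit 0, nat_lit 0, nat_lit 0, nat_lit 300700, nat_lit 0, nat_lit 0, [(nat_lit 24, [(nat_lit 0, nat_lit 230), (nat_lit 1, nat_lit 608)])],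
 ⟨p121_k12, nat_lit 0, nat_lit 0, nat_lit 77, nat_lit 0, nat_lit 0, [nat_lit 843076000, nat_lit 1452518667, nat_lit 1732019200], [], [nat_lit 28019197157, nat_lit 28444767936, nat_lit 28872048283, nat_lit 29285817047, nat_lit 28898227326, nat_lit 29295119331, nat_lit 29692011336, nat_lit 30094338976], nat_lit 0, nat_lit 0, nat_lit 0, nat_lit 0, nat_lit 0, nat_lit 0, [], [nat_lit 35, nat_lit 40, nat_lit 40, nat_lit 80, nat_lit 22, nat_lit 203, nat_lit 0, nat_lit 6]⟩, ⟨p121_k34, nat_lit 0, nat_lit 0, nat_lit 570, nat_lit 0, nat_lit 1001463, [nat_lit 531684000, nat_lit 1012500000, nat_lit 1594404000], [], [nat_lit 5514036193, nat_lit 5524559851, nat_lit 5635559827, nat_lit 5645242286, nat_lit 5482410120, nat_lit 5487521776, nat_lit 5557377335, nat_lit 5561918617], nat_lit 1271250, nat_lit 1271250, nat_lit 1271250, nat_lit 1271250, nat_lit 490000, nat_lit 2458750, [nat_lit 780000, nat_lit 1435000, nat_lit 1271250],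 [nat_lit 8, nat_lit 40, nat_lit 40, nat_lit 80, nat_lit 1, nat_lit 317, nat_lit 100, nat_lit 8]⟩,
 ⟨nat_lit 2738, nat_lit 3163, ⟨.ofNat (nat_lit 837970), .ofNat (nat_lit 868447), .ofNat (nat_lit 841293), .ofNat (nat_lit 871770), .ofNat (nat_lit 831518), .ofNat (nat_lit 861048), .ofNat (nat_lit 834880), .ofNat (nat_lit 864411)⟩, ⟨.ofNat (nat_lit 389224), .ofNat (nat_lit 462368), .ofNat (nat_lit 411379), .ofNat (nat_lit 484523), .ofNat (nat_lit 387912), .ofNat (nat_lit 458785), .ofNat (nat_lit 410329), .ofNat (nat_lit 481203)⟩⟩, [⟨nat_lit 13, nat_lit 67, nat_lit 51, nat_lit 100, nat_lit 214665904⟩, ⟨nat_lit 16, nat_lit 62, nat_lit 100, nat_lit 94, nat_lit 226706712⟩, ⟨nat_lit 19, nat_lit 99, nat_lit 82, nat_lit 100, nat_lit 32304767⟩]⟩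
noncomputable def p121_l104 : Lf2 := ⟨nat_lit 0, nat_lit 10, [nat_lit 0, nat_lit 5, nat_lit 5, nat_lit 20], false, nat_lit 200, nat_lit 248, nat_lit 80, nat_lit 332, ⟨nat_lit 164, nat_lit 836, nat_lit 0, nat_lit 9, nat_lit 342, nat_lit 836, nat_lit 174, nat_lit 0, nat_lit 0, nat_lit 0, nat_lit 0, nat_lit 0, nat_lit 33570213, nat_lit 25039047, nat_lit 8390740, nat_lit 5233436, true, true⟩,
 nat_lit 0, nat_lit 0, nat_lit 1763, nat_lit 0, nat_lit 2814, nat_lit 1161, nat_lit 87, nat_lit 0, nat_lit 0, nat_lit 81, nat_lit 0, nat_lit 0, nat_lit 0, nat_lit 0, nat_lit 0, nat_lit 309050, nat_lit 0, nat_lit 0, [(nat_lit 24, [(nat_lit 0, nat_lit 169), (nat_lit 1, nat_lit 667)])],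
 ⟨p121_k12, nat_lit 0, nat_lit 0, nat_lit 77, nat_lit 0, nat_lit 0, [nat_lit 848428800, nat_lit 1434526134, nat_lit 1693663200], [], [nat_lit 27998532649, nat_lit 28424722502, nat_lit 28852851331, nat_lit 29267197079, nat_lit 28876853911, nat_lit 29274285825, nat_lit 29672486281, nat_lit 30108818386], nat_lit 0, nat_lit 0, nat_lit 0, nat_lit 0, nat_lit 0, nat_lit 0, [], [nat_lit 35, nat_lit 40, nat_lit 40, nat_lit 80, nat_lit 22, nat_lit 203, nat_lit 0, nat_lit 6]⟩, ⟨p121_k35, nat_lit 0, nat_lit 0, nat_lit 511, nat_lit 0, nat_lit 995479, [nat_lit 538248000, nat_lit 1025000000, nat_lit 1306752000], [], [nat_lit 5491225572, nat_lit 5499190178, nat_lit 5623754448, nat_lit 5631111395, nat_lit 5526392446, nat_lit 5530443891, nat_lit 5609938664, nat_lit 5620695510], nat_lit 1271250, nat_lit 1271250, nat_lit 1271250, nat_lit 1271250, nat_lit 490000, nat_lit 2458750, [nat_lit 780000, nat_lit 1435000, nat_lit 1271250],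 [nat_lit 18, nat_lit 40, nat_lit 40, nat_lit 80, nat_lit 2, nat_lit 317, nat_lit 100, nat_lit 9]⟩,
 ⟨nat_lit 2738, nat_lit 3163, ⟨.ofNat (nat_lit 841293), .ofNat (nat_lit 871770), .ofNat (nat_lit 843509), .ofNat (nat_lit 873986), .ofNat (nat_lit 834880), .ofNat (nat_lit 864411), .ofNat (nat_lit 837122), .ofNat (nat_lit 866653)⟩, ⟨.ofNat (nat_lit 389224), .ofNat (nat_lit 462368), .ofNat (nat_lit 411379), .ofNat (nat_lit 484523), .ofNat (nat_lit 387912), .ofNat (nat_lit 458785), .ofNat (nat_lit 410329), .ofNat (nat_lit 481203)⟩⟩, [⟨nat_lit 13, nat_lit 63, nat_lit 54, nat_lit 100, nat_lit 127692559⟩, ⟨nat_lit 13, nat_lit 67, nat_lit 50, nat_lit 100, nat_lit 96217418⟩, ⟨nat_lit 16, nat_lit 62, nat_lit 100, nat_lit 94, nat_lit 227561712⟩, ⟨nat_lit 19, nat_lit 98, nat_lit 83, nat_lit 100, nat_lit 34465425⟩]⟩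
noncomputable def p121_l105 : Lf2 := ⟨nat_lit 0, nat_lit 10, [nat_lit 0, nat_lit 5, nat_lit 5, nat_lit 20], true, nat_lit 200, nat_lit 232, nat_lit 80, nat_lit 332, ⟨nat_lit 0, nat_lit 1000, nat_lit 0, nat_lit 9, nat_lit 336, nat_lit 1000, nat_lit 164, nat_lit 0, nat_lit 0, nat_lit 0, nat_lit 0, nat_lit 0, nat_lit 34397421, nat_lit 24817194, nat_lit 7785385, nat_lit 5150174, true, true⟩,
 nat_lit 0, nat_lit 0, nat_lit 0, nat_lit 0, nat_lit 2561, nat_lit 0, nat_lit 133, nat_lit 0, nat_lit 0, nat_lit 0, nat_lit 0, nat_lit 0, nat_lit 0, nat_lit 0, nat_lit 0, nat_lit 250000, nat_lit 0, nat_lit 0, [(nat_lit 24, [(nat_lit 0, nat_lit 1000)])],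
 ⟨p121_k16, nat_lit 0, nat_lit 0, nat_lit 78, nat_lit 0, nat_lit 0, [nat_lit 763200001, nat_lit 1367200000, nat_lit 1705600000], [], [nat_lit 28107289687, nat_lit 28520427396, nat_lit 28592456219, nat_lit 29026589856, nat_lit 28644136271, nat_lit 29039464538, nat_lit 29109116660, nat_lit 29551817753], nat_lit 0, nat_lit 0, nat_lit 0, nat_lit 0, nat_lit 0, nat_lit 0, [], [nat_lit 35, nat_lit 40, nat_lit 40, nat_lit 80, nat_lit 22, nat_lit 203, nat_lit 0, nat_lit 6]⟩, C1.Rw.none,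
 ⟨nat_lit 2236, nat_lit 2739, ⟨.ofNat (nat_lit 831518), .ofNat (nat_lit 849236), .ofNat (nat_lit 837122), .ofNat (nat_lit 854840), .ofNat (nat_lit 824851), .ofNat (nat_lit 841956), .ofNat (nat_lit 830545), .ofNat (nat_lit 847650)⟩, ⟨.ofNat (nat_lit 365494), .ofNat (nat_lit 412743), .ofNat (nat_lit 410329), .ofNat (nat_lit 457578), .ofNat (nat_lit 363353), .ofNat (nat_lit 408965), .ofNat (nat_lit 408901), .ofNat (nat_lit 454514)⟩⟩, [⟨nat_lit 13, nat_lit 59, nat_lit 58, nat_lit 100, nat_lit 321882667⟩, ⟨nat_lit 16, nat_lit 53, nat_lit 100, nat_lit 93, nat_lit 210140688⟩]⟩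
noncomputable def p121_l106 : Lf2 := ⟨nat_lit 0, nat_lit 5, [nat_lit 4, nat_lit 5, nat_lit 5, nat_lit 20], true, nat_lit 200, nat_lit 248, nat_lit 80, nat_lit 328, ⟨nat_lit 0, nat_lit 1000, nat_lit 0, nat_lit 9, nat_lit 344, nat_lit 1000, nat_lit 169, nat_lit 0, nat_lit 0, nat_lit 0, nat_lit 0, nat_lit 0, nat_lit 33601001, nat_lit 25378089, nat_lit 8020910, nat_lit 5194564, true, true⟩,
 nat_lit 0, nat_lit 0, nat_lit 0, nat_lit 0, nat_lit 2684, nat_lit 0, nat_lit 0, nat_lit 0, nat_lit 0, nat_lit 0, nat_lit 0, nat_lit 0, nat_lit 0, nat_lit 0, nat_lit 0, nat_lit 256300, nat_lit 0, nat_lit 0, [(nat_lit 24, [(nat_lit 0, nat_lit 958), (nat_lit 1, nat_lit 42)])],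
 ⟨p121_k31, nat_lit 0, nat_lit 0, nat_lit 70, nat_lit 0, nat_lit 0, [nat_lit 766761601, nat_lit 1350971200], [], [nat_lit 27815097826, nat_lit 28675751970, nat_lit 28849776434, nat_lit 29741015543, nat_lit 28738146694, nat_lit 29541343879, nat_lit 29702278344, nat_lit 30554026185], nat_lit 0, nat_lit 0, nat_lit 0, nat_lit 0, nat_lit 0, nat_lit 0, [], [nat_lit 66, nat_lit 40, nat_lit 40, nat_lit 80, nat_lit 67, nat_lit 203, nat_lit 0, nat_lit 7]⟩, C1.Rw.none,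
 ⟨nat_lit 2236, nat_lit 3163, ⟨.ofNat (nat_lit 843509), .ofNat (nat_lit 880081), .ofNat (nat_lit 854586), .ofNat (nat_lit 891158), .ofNat (nat_lit 830545), .ofNat (nat_lit 864754), .ofNat (nat_lit 841932), .ofNat (nat_lit 876141)⟩, ⟨.ofNat (nat_lit 367069), .ofNat (nat_lit 440213), .ofNat (nat_lit 411379), .ofNat (nat_lit 484523), .ofNat (nat_lit 363353), .ofNat (nat_lit 431772), .ofNat (nat_lit 408901), .ofNat (nat_lit 477320)⟩⟩, [⟨nat_lit 13, nat_lit 69, nat_lit 45, nat_lit 100, nat_lit 274840199⟩, ⟨nat_lit 16, nat_lit 62, nat_lit 100, nat_lit 94, nat_lit 185442545⟩]⟩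
noncomputable def p121_l107 : Lf2 := ⟨nat_lit 0, nat_lit 10, [nat_lit 0, nat_lit 5, nat_lit 5, nat_lit 20], false, nat_lit 200, nat_lit 248, nat_lit 80, nat_lit 328, ⟨nat_lit 277, nat_lit 723, nat_lit 0, nat_lit 9, nat_lit 346, nat_lit 723, nat_lit 170, nat_lit 0, nat_lit 0, nat_lit 0, nat_lit 0, nat_lit 0, nat_lit 33477227, nat_lit 25480541, nat_lit 8042232, nat_lit 5199565, true, true⟩,
 nat_lit 0, nat_lit 0, nat_lit 2577, nat_lit 0, nat_lit 2582, nat_lit 1711, nat_lit 213, nat_lit 0, nat_lit 0, nat_lit 259, nat_lit 0, nat_lit 0, nat_lit 0, nat_lit 0, nat_lit 0, nat_lit 289200, nat_lit 0, nat_lit 0, [(nat_lit 24, [(nat_lit 1, nat_lit 723)])],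
 ⟨p121_k21, nat_lit 0, nat_lit 0, nat_lit 79, nat_lit 0, nat_lit 0, [nat_lit 757250000, nat_lit 1258293601, nat_lit 1988607200], [], [nat_lit 27728423762, nat_lit 28142644851, nat_lit 28726178675, nat_lit 29149609078, nat_lit 28624450221, nat_lit 29036062871, nat_lit 29612320582, nat_lit 30002869205], nat_lit 0, nat_lit 0, nat_lit 0, nat_lit 0, nat_lit 0, nat_lit 0, [], [nat_lit 152, nat_lit 40, nat_lit 40, nat_lit 80, nat_lit 33, nat_lit 203, nat_lit 0, nat_lit 6]⟩, ⟨p121_k25, nat_lit 0, nat_lit 0, nat_lit 606, nat_lit 0, nat_lit 1218646, [nat_lit 909114000, nat_lit 1298576000, nat_lit 2207136000], [], [nat_lit 9111426716, nat_lit 9160832868, nat_lit 9304224213, nat_lit 9349548162, nat_lit 9178986722, nat_lit 9205569039, nat_lit 9303531014, nat_lit 9340738320], nat_lit 1271250, nat_lit 1271250, nat_lit 1271250, nat_lit 1271250, nat_lit 490000, nat_lit 2427500, [nat_lit 780000, nat_lit 1100000, nat_lit 1785000],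 [nat_lit 36, nat_lit 40, nat_lit 40, nat_lit 80, nat_lit 7, nat_lit 317, nat_lit 100, nat_lit 9]⟩,
 ⟨nat_lit 2738, nat_lit 3163, ⟨.ofNat (nat_lit 843509), .ofNat (nat_lit 880081), .ofNat (nat_lit 854586), .ofNat (nat_lit 891158), .ofNat (nat_lit 837122), .ofNat (nat_lit 872559), .ofNat (nat_lit 848331), .ofNat (nat_lit 883768)⟩, ⟨.ofNat (nat_lit 367069), .ofNat (nat_lit 440213), .ofNat (nat_lit 411379), .ofNat (nat_lit 484523), .ofNat (nat_lit 365494), .ofNat (nat_lit 436368), .ofNat (nat_lit 410329), .ofNat (nat_lit 481203)⟩⟩, [⟨nat_lit 13, nat_lit 64, nat_lit 52, nat_lit 100, nat_lit 181725344⟩, ⟨nat_lit 16, nat_lit 57, nat_lit 100, nat_lit 87, nat_lit 336251509⟩, ⟨nat_lit 19, nat_lit 97, nat_lit 84, nat_lit 100, nat_lit 58743702⟩]⟩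
noncomputable def p121_l108 : Lf2 := ⟨nat_lit 0, nat_lit 10, [nat_lit 0, nat_lit 5, nat_lit 5, nat_lit 20], false, nat_lit 200, nat_lit 232, nat_lit 80, nat_lit 328, ⟨nat_lit 214, nat_lit 786, nat_lit 0, nat_lit 9, nat_lit 342, nat_lit 786, nat_lit 164, nat_lit 0, nat_lit 0, nat_lit 0, nat_lit 0, nat_lit 0, nat_lit 33985914, nat_lit 25300002, nat_lit 7714084, nat_lit 5152672, true, true⟩,
 nat_lit 0, nat_lit 0, nat_lit 2101, nat_lit 0, nat_lit 2498, nat_lit 1395, nat_lit 263, nat_lit 0, nat_lit 0, nat_lit 148, nat_lit 0, nat_lit 0, nat_lit 0, nat_lit 0, nat_lit 0, nat_lit 196500, nat_lit 0, nat_lit 0, [(nat_lit 24, [(nat_lit 0, nat_lit 786)])],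
 ⟨p121_k23, nat_lit 0, nat_lit 0, nat_lit 81, nat_lit 0, nat_lit 0, [nat_lit 800607200, nat_lit 1247257601, nat_lit 2343833600], [], [nat_lit 28082261589, nat_lit 28492149160, nat_lit 28884658314, nat_lit 29305115807, nat_lit 28622640734, nat_lit 29014991149, nat_lit 29391002771, nat_lit 29818997672], nat_lit 0, nat_lit 0, nat_lit 0, nat_lit 0, nat_lit 0, nat_lit 0, [], [nat_lit 152, nat_lit 40, nat_lit 40, nat_lit 80, nat_lit 33, nat_lit 203, nat_lit 0, nat_lit 6]⟩, ⟨p121_k25, nat_lit 0, nat_lit 0, nat_lit 657, nat_lit 0, nat_lit 1360715, [nat_lit 702348000, nat_lit 1003232000, nat_lit 1705152000], [], [nat_lit 7228122388, nat_lit 7258499272, nat_lit 7333415615, nat_lit 7361474659, nat_lit 7151209868, nat_lit 7165825998, nat_lit 7217353296, nat_lit 7240921565], nat_lit 1271250, nat_lit 1271250, nat_lit 1271250, nat_lit 1271250, nat_lit 490000, nat_lit 2427500, [nat_lit 780000, nat_lit 1100000, nat_lit 1785000],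 [nat_lit 36, nat_lit 40, nat_lit 40, nat_lit 80, nat_lit 7, nat_lit 317, nat_lit 100, nat_lit 9]⟩,
 ⟨nat_lit 2236, nat_lit 2739, ⟨.ofNat (nat_lit 837122), .ofNat (nat_lit 866653), .ofNat (nat_lit 848331), .ofNat (nat_lit 877861), .ofNat (nat_lit 830545), .ofNat (nat_lit 859053), .ofNat (nat_lit 841932), .ofNat (nat_lit 870440)⟩, ⟨.ofNat (nat_lit 365494), .ofNat (nat_lit 412743), .ofNat (nat_lit 410329), .ofNat (nat_lit 457578), .ofNat (nat_lit 363353), .ofNat (nat_lit 408965), .ofNat (nat_lit 408901), .ofNat (nat_lit 454514)⟩⟩, [⟨nat_lit 13, nat_lit 61, nat_lit 55, nat_lit 100, nat_lit 202060706⟩, ⟨nat_lit 16, nat_lit 53, nat_lit 100, nat_lit 93, nat_lit 290716342⟩, ⟨nat_lit 19, nat_lit 97, nat_lit 84, nat_lit 100, nat_lit 42999141⟩]⟩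
noncomputable def p121_l109 : Lf2 := ⟨nat_lit 0, nat_lit 10, [nat_lit 0, nat_lit 5, nat_lit 5, nat_lit 20], false, nat_lit 160, nat_lit 248, nat_lit 48, nat_lit 320, ⟨nat_lit 1000, nat_lit 0, nat_lit 0, nat_lit 0, nat_lit 0, nat_lit 0, nat_lit 0, nat_lit 0, nat_lit 0, nat_lit 0, nat_lit 0, nat_lit 0, nat_lit 0, nat_lit 0, nat_lit 0, nat_lit 0, false, false⟩,
 nat_lit 0, nat_lit 0, nat_lit 2103, nat_lit 0, nat_lit 4031, nat_lit 1455, nat_lit 351, nat_lit 0, nat_lit 0, nat_lit 559, nat_lit 0, nat_lit 306, nat_lit 0, nat_lit 0, nat_lit 0, nat_lit 0, nat_lit 0, nat_lit 0, [],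
 ⟨p121_k21, nat_lit 0, nat_lit 0, nat_lit 89, nat_lit 0, nat_lit 0, [nat_lit 938000000, nat_lit 2032000001, nat_lit 4688000000], [], [nat_lit 28861075311, nat_lit 29902153734, nat_lit 30537039285, nat_lit 31569908397, nat_lit 30236535112, nat_lit 31156637670, nat_lit 31710668528, nat_lit 32676363713], nat_lit 0, nat_lit 0, nat_lit 0, nat_lit 0, nat_lit 0, nat_lit 0, [], [nat_lit 152, nat_lit 40, nat_lit 40, nat_lit 80, nat_lit 33, nat_lit 203, nat_lit 0, nat_lit 6]⟩, ⟨p121_k28, nat_lit 0, nat_lit 0, nat_lit 0, nat_lit 0, nat_lit 1786275, [nat_lit 3282000000, nat_lit 4688000000, nat_lit 7968000000], [], [nat_lit 24366957292, nat_lit 24789245950, nat_lit 25178617819, nat_lit 25581167806, nat_lit 27654499790, nat_lit 28156864950, nat_lit 28650321895, nat_lit 29143243060], nat_lit 1271250, nat_lit 1271250, nat_lit 1271250, nat_lit 1271250, nat_lit 279600, nat_lit 2323000, [nat_lit 780000, nat_lit 1100000, nat_lit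 1785000], [nat_lit 36, nat_lit 40, nat_lit 40, nat_lit 80]⟩,
 zbF0, [⟨nat_lit 16, nat_lit 62, nat_lit 100, nat_lit 94, nat_lit 469339089⟩, ⟨nat_lit 19, nat_lit 94, nat_lit 88, nat_lit 100, nat_lit 111189955⟩]⟩
noncomputable def p121_l110 : Lf2 := ⟨nat_lit 0, nat_lit 5, [nat_lit 4, nat_lit 5, nat_lit 5, nat_lit 20], false, nat_lit 160, nat_lit 248, nat_lit 48, nat_lit 320, ⟨nat_lit 145, nat_lit 855, nat_lit 0, nat_lit 9, nat_lit 351, nat_lit 855, nat_lit 157, nat_lit 0, nat_lit 0, nat_lit 0, nat_lit 0, nat_lit 0, nat_lit 33570753, nat_lit 26262928, nat_lit 7166319, nat_lit 5098878, true, true⟩,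
 nat_lit 0, nat_lit 0, nat_lit 1397, nat_lit 0, nat_lit 2791, nat_lit 966, nat_lit 0, nat_lit 0, nat_lit 0, nat_lit 281, nat_lit 0, nat_lit 0, nat_lit 0, nat_lit 0, nat_lit 0, nat_lit 271950, nat_lit 0, nat_lit 0, [(nat_lit 24, [(nat_lit 0, nat_lit 467), (nat_lit 1, nat_lit 388)])],
 ⟨p121_k31, nat_lit 0, nat_lit 0, nat_lit 75, nat_lit 0, nat_lit 0, [nat_lit 821448401, nat_lit 1494922800], [], [nat_lit 27258145710, nat_lit 28178900296, nat_lit 28743376448, nat_lit 29680068541, nat_lit 28885993091, nat_lit 29699400451, nat_lit 30193898643, nat_lit 31039325633], nat_lit 0, nat_lit 0, nat_lit 0, nat_lit 0, nat_lit 0, nat_lit 0, [], [nat_lit 66, nat_lit 40, nat_lit 40, nat_lit 80, nat_lit 67, nat_lit 203, nat_lit 0, nat_lit 8]⟩, ⟨p121_k36, nat_lit 0, nat_lit 0, nat_lit 752, nat_lit 0, nat_lit 1676324, [nat_lit 475890000, nat_lit 906250000], [], [nat_lit 4198889163, nat_lit 4226333816, nat_lit 4335702356, nat_lit 4360214504,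 nat_lit 4114387660, nat_lit 4129015182, nat_lit 4201233561, nat_lit 4218652259], nat_lit 1271250, nat_lit 1271250, nat_lit 1271250, nat_lit 1271250, nat_lit 279600, nat_lit 2323000, [nat_lit 780000, nat_lit 1435000], [nat_lit 49, nat_lit 40, nat_lit 40, nat_lit 80, nat_lit 16, nat_lit 317, nat_lit 100, nat_lit 11]⟩,
 ⟨nat_lit 2236, nat_lit 3163, ⟨.ofNat (nat_lit 854586), .ofNat (nat_lit 903349), .ofNat (nat_lit 865664), .ofNat (nat_lit 914427), .ofNat (nat_lit 841932), .ofNat (nat_lit 887545), .ofNat (nat_lit 853319), .ofNat (nat_lit 898932)⟩, ⟨.ofNat (nat_lit 306116), .ofNat (nat_lit 440213), .ofNat (nat_lit 350426), .ofNat (nat_lit 484523), .ofNat (nat_lit 306337), .ofNat (nat_lit 431772), .ofNat (nat_lit 351886), .ofNat (nat_lit 477320)⟩⟩, [⟨nat_lit 13, nat_lit 72, nat_lit 40, nat_lit 100, nat_lit 207958324⟩, ⟨nat_lit 16, nat_lit 62, nat_lit 100, nat_lit 94, nat_lit 215826178⟩, ⟨nat_lit 19, nat_lit 94, nat_lit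 88, nat_lit 100, nat_lit 27615670⟩]⟩
noncomputable def p121_l111 : Lf2 := ⟨nat_lit 0, nat_lit 10, [nat_lit 0, nat_lit 5, nat_lit 5, nat_lit 20], false, nat_lit 160, nat_lit 248, nat_lit 48, nat_lit 320, ⟨nat_lit 324, nat_lit 676, nat_lit 0, nat_lit 9, nat_lit 351, nat_lit 676, nat_lit 157, nat_lit 0, nat_lit 0, nat_lit 0, nat_lit 0, nat_lit 0, nat_lit 33570753, nat_lit 26262928, nat_lit 7166319, nat_lit 5098878, true, true⟩,
 nat_lit 0, nat_lit 0, nat_lit 2994, nat_lit 0, nat_lit 2628, nat_lit 2072, nat_lit 0, nat_lit 0, nat_lit 0, nat_lit 350, nat_lit 0, nat_lit 0, nat_lit 0, nat_lit 0, nat_lit 0, nat_lit 556000, nat_lit 0, nat_lit 0, [(nat_lit 24, [(nat_lit 1, nat_lit 200), (nat_lit 2, nat_lit 476)])],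
 ⟨p121_k21, nat_lit 0, nat_lit 0, nat_lit 89, nat_lit 0, nat_lit 0, [nat_lit 767476801, nat_lit 1194984534, nat_lit 779527466], [], [nat_lit 27255790689, nat_lit 28091222081, nat_lit 28592480917, nat_lit 29431646044, nat_lit 28800258738, nat_lit 29591049154, nat_lit 30073174937, nat_lit 30824134337], nat_lit 0, nat_lit 0, nat_lit 0, nat_lit 0, nat_lit 0, nat_lit 0, [], [nat_lit 152, nat_lit 40, nat_lit 40, nat_lit 80, nat_lit 33, nat_lit 203, nat_lit 0, nat_lit 6]⟩, ⟨p121_k28, nat_lit 0, nat_lit 0, nat_lit 669, nat_lit 0, nat_lit 1344206, [nat_lit 1063368000, nat_lit 1518912000, nat_lit 2581632000], [], [nat_lit 9604119166, nat_lit 9659763724, nat_lit 9901812471, nat_lit 9995070927, nat_lit 9438906376, nat_lit 9475308700, nat_lit 9830701705, nat_lit 9909812488], nat_lit 1271250, nat_lit 1271250, nat_lit 1271250, nat_lit 1271250, nat_lit 279600, nat_lit 2323000, [nat_lit 780000, nat_lit 1100000, nat_lit 1785000],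 [nat_lit 36, nat_lit 40, nat_lit 40, nat_lit 80, nat_lit 7, nat_lit 317, nat_lit 100, nat_lit 9]⟩,
 ⟨nat_lit 2236, nat_lit 3163, ⟨.ofNat (nat_lit 854586), .ofNat (nat_lit 903349), .ofNat (nat_lit 865664), .ofNat (nat_lit 914427), .ofNat (nat_lit 841932), .ofNat (nat_lit 887545), .ofNat (nat_lit 853319), .ofNat (nat_lit 898932)⟩, ⟨.ofNat (nat_lit 306116), .ofNat (nat_lit 440213), .ofNat (nat_lit 350426), .ofNat (nat_lit 484523), .ofNat (nat_lit 306337), .ofNat (nat_lit 431772), .ofNat (nat_lit 351886), .ofNat (nat_lit 477320)⟩⟩, [⟨nat_lit 13, nat_lit 62, nat_lit 53, nat_lit 100, nat_lit 233218687⟩, ⟨nat_lit 4, nat_lit 100, nat_lit 53, nat_lit 87, nat_lit 357779370⟩, ⟨nat_lit 19, nat_lit 94, nat_lit 88, nat_lit 100, nat_lit 64292672⟩]⟩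
noncomputable def p121_l112 : Lf2 := ⟨nat_lit 0, nat_lit 5, [nat_lit 4, nat_lit 5, nat_lit 5, nat_lit 20], false, nat_lit 160, nat_lit 248, nat_lit 48, nat_lit 312, ⟨nat_lit 155, nat_lit 845, nat_lit 0, nat_lit 9, nat_lit 357, nat_lit 845, nat_lit 158, nat_lit 0, nat_lit 0, nat_lit 0, nat_lit 0, nat_lit 0, nat_lit 33135860, nat_lit 26742165, nat_lit 7121975, nat_lit 5101470, true, true⟩,
 nat_lit 0, nat_lit 0, nat_lit 1409, nat_lit 0, nat_lit 2746, nat_lit 1015, nat_lit 0, nat_lit 0, nat_lit 0, nat_lit 137, nat_lit 0, nat_lit 0, nat_lit 0, nat_lit 0, nat_lit 0, nat_lit 399800, nat_lit 0, nat_lit 0, [(nat_lit 24, [(nat_lit 1, nat_lit 742), (nat_lit 2, nat_lit 103)])],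
 ⟨p121_k31, nat_lit 0, nat_lit 0, nat_lit 73, nat_lit 0, nat_lit 0, [nat_lit 925810000, nat_lit 1187942934], [], [nat_lit 27199507582, nat_lit 27657179340, nat_lit 28664057208, nat_lit 29134891883, nat_lit 28832096667, nat_lit 29236653348, nat_lit 30138854574, nat_lit 30559385783], nat_lit 0, nat_lit 0, nat_lit 0, nat_lit 0, nat_lit 0, nat_lit 0, [], [nat_lit 66, nat_lit 40, nat_lit 40, nat_lit 80, nat_lit 67, nat_lit 203, nat_lit 0, nat_lit 8]⟩, ⟨p121_k37, nat_lit 0, nat_lit 0, nat_lit 693, nat_lit 0, nat_lit 1521371, [nat_lit 508710000, nat_lit 968750000], [], [nat_lit 4550787052, nat_lit 4579954011, nat_lit 4693715665, nat_lit 4719743096, nat_lit 4433936662, nat_lit 4453261376, nat_lit 4539167222, nat_lit 4556928188], nat_lit 1271250, nat_lit 1271250, nat_lit 1271250, nat_lit 1271250, nat_lit 279600, nat_lit 2262900, [nat_lit 780000, nat_lit 1435000], [nat_lit 49, nat_lit 40, nat_lit 40, nat_lit 80, nat_lit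 16, nat_lit 317, nat_lit 100, nat_lit 11]⟩,
 ⟨nat_lit 2738, nat_lit 3163, ⟨.ofNat (nat_lit 865664), .ofNat (nat_lit 914427), .ofNat (nat_lit 876741), .ofNat (nat_lit 925504), .ofNat (nat_lit 859539), .ofNat (nat_lit 906789), .ofNat (nat_lit 870748), .ofNat (nat_lit 917997)⟩, ⟨.ofNat (nat_lit 306116), .ofNat (nat_lit 440213), .ofNat (nat_lit 350426), .ofNat (nat_lit 484523), .ofNat (nat_lit 306433), .ofNat (nat_lit 436368), .ofNat (nat_lit 351268), .ofNat (nat_lit 481203)⟩⟩, [⟨nat_lit 13, nat_lit 75, nat_lit 35, nat_lit 100, nat_lit 182625821⟩, ⟨nat_lit 16, nat_lit 62, nat_lit 100, nat_lit 94, nat_lit 221165326⟩, ⟨nat_lit 19, nat_lit 91, nat_lit 91, nat_lit 100, nat_lit 29886915⟩]⟩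
noncomputable def p121_l113 : Lf2 := ⟨nat_lit 0, nat_lit 5, [nat_lit 4, nat_lit 5, nat_lit 5, nat_lit 20], false, nat_lit 160, nat_lit 232, nat_lit 48, nat_lit 312, ⟨nat_lit 201, nat_lit 799, nat_lit 0, nat_lit 9, nat_lit 353, nat_lit 799, nat_lit 152, nat_lit 0, nat_lit 0, nat_lit 0, nat_lit 0, nat_lit 0, nat_lit 33613793, nat_lit 26557835, nat_lit 6828372, nat_lit 5056676, true, true⟩,
 nat_lit 0, nat_lit 0, nat_lit 1862, nat_lit 0, nat_lit 2483, nat_lit 1342, nat_lit 380, nat_lit 0, nat_lit 0, nat_lit 177, nat_lit 0, nat_lit 0, nat_lit 0, nat_lit 0, nat_lit 0, nat_lit 199750, nat_lit 0, nat_lit 0, [(nat_lit 24, [(nat_lit 0, nat_lit 799)])],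
 ⟨p121_k38, nat_lit 0, nat_lit 0, nat_lit 74, nat_lit 0, nat_lit 0, [nat_lit 798334801, nat_lit 1752074800], [], [nat_lit 27353221815, nat_lit 27795081224, nat_lit 28563623717, nat_lit 29020796819, nat_lit 28622053541, nat_lit 29023424704, nat_lit 29722474636, nat_lit 30143956939], nat_lit 0, nat_lit 0, nat_lit 0, nat_lit 0, nat_lit 0, nat_lit 0, [], [nat_lit 66, nat_lit 40, nat_lit 40, nat_lit 80, nat_lit 67, nat_lit 203, nat_lit 0, nat_lit 8]⟩, ⟨p121_k37, nat_lit 0, nat_lit 0, nat_lit 739, nat_lit 0, nat_lit 1643408, [nat_lit 659682000, nat_lit 1256250000], [], [nat_lit 5888066148, nat_lit 5920534383, nat_lit 6031753770, nat_lit 6061018380, nat_lit 5687019695, nat_lit 5707884213, nat_lit 5791891009, nat_lit 5820052757], nat_lit 1271250, nat_lit 1271250, nat_lit 1271250, nat_lit 1271250, nat_lit 279600, nat_lit 2262900, [nat_lit 780000, nat_lit 1435000], [nat_lit 49, nat_lit 40, nat_lit 40, nat_lit 80, nat_lit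 16, nat_lit 317, nat_lit 100, nat_lit 11]⟩,
 ⟨nat_lit 2236, nat_lit 2739, ⟨.ofNat (nat_lit 859539), .ofNat (nat_lit 900882), .ofNat (nat_lit 870748), .ofNat (nat_lit 912091), .ofNat (nat_lit 853319), .ofNat (nat_lit 893230), .ofNat (nat_lit 864706), .ofNat (nat_lit 904617)⟩, ⟨.ofNat (nat_lit 306433), .ofNat (nat_lit 412743), .ofNat (nat_lit 351268), .ofNat (nat_lit 457578), .ofNat (nat_lit 306337), .ofNat (nat_lit 408965), .ofNat (nat_lit 351886), .ofNat (nat_lit 454514)⟩⟩, [⟨nat_lit 13, nat_lit 66, nat_lit 45, nat_lit 100, nat_lit 202755279⟩, ⟨nat_lit 16, nat_lit 53, nat_lit 100, nat_lit 93, nat_lit 280142074⟩, ⟨nat_lit 19, nat_lit 91, nat_lit 91, nat_lit 100, nat_lit 37987805⟩]⟩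
noncomputable def p121_l114 : Lf2 := ⟨nat_lit 0, nat_lit 10, [nat_lit 0, nat_lit 5, nat_lit 5, nat_lit 20], false, nat_lit 160, nat_lit 248, nat_lit 48, nat_lit 312, ⟨nat_lit 543, nat_lit 457, nat_lit 0, nat_lit 9, nat_lit 355, nat_lit 457, nat_lit 157, nat_lit 0, nat_lit 0, nat_lit 0, nat_lit 0, nat_lit 0, nat_lit 33249378, nat_lit 26637490, nat_lit 7113132, nat_lit 5098428, true, true⟩,
 nat_lit 0, nat_lit 0, nat_lit 4703, nat_lit 0, nat_lit 3160, nat_lit 3390, nat_lit 91, nat_lit 0, nat_lit 0, nat_lit 489, nat_lit 0, nat_lit 0, nat_lit 0, nat_lit 0, nat_lit 0, nat_lit 323200, nat_lit 0, nat_lit 0, [(nat_lit 24, [(nat_lit 1, nat_lit 223), (nat_lit 2, nat_lit 234)])],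
 ⟨p121_k12, nat_lit 0, nat_lit 0, nat_lit 90, nat_lit 0, nat_lit 0, [nat_lit 1041950001, nat_lit 1893896134, nat_lit 2269074400], [], [nat_lit 27867144166, nat_lit 28806219606, nat_lit 29369664871, nat_lit 30242448305, nat_lit 29379597190, nat_lit 30210833777, nat_lit 30720004668, nat_lit 31526476481], nat_lit 0, nat_lit 0, nat_lit 0, nat_lit 0, nat_lit 0, nat_lit 0, [], [nat_lit 35, nat_lit 40, nat_lit 40, nat_lit 80, nat_lit 22, nat_lit 203, nat_lit 0, nat_lit 6]⟩, ⟨p121_k20, nat_lit 0, nat_lit 0, nat_lit 669, nat_lit 0, nat_lit 1331252, [nat_lit 1782126000, nat_lit 3393750000, nat_lit 4326624000], [], [nat_lit 16658778446, nat_lit 16760052616, nat_lit 17153220028, nat_lit 17243746270, nat_lit 16295583718, nat_lit 16363468419, nat_lit 16695103539, nat_lit 16766069412], nat_lit 1271250, nat_lit 1271250, nat_lit 1271250, nat_lit 1271250, nat_lit 279600, nat_lit 2262900, [nat_lit 780000, nat_lit 1435000, nat_lit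 1271250], [nat_lit 18, nat_lit 40, nat_lit 40, nat_lit 80, nat_lit 2, nat_lit 317, nat_lit 100, nat_lit 9]⟩,
 ⟨nat_lit 2236, nat_lit 3163, ⟨.ofNat (nat_lit 865664), .ofNat (nat_lit 914427), .ofNat (nat_lit 876741), .ofNat (nat_lit 925504), .ofNat (nat_lit 853319), .ofNat (nat_lit 898932), .ofNat (nat_lit 864706), .ofNat (nat_lit 910319)⟩, ⟨.ofNat (nat_lit 306116), .ofNat (nat_lit 440213), .ofNat (nat_lit 350426), .ofNat (nat_lit 484523), .ofNat (nat_lit 306337), .ofNat (nat_lit 431772), .ofNat (nat_lit 351886), .ofNat (nat_lit 477320)⟩⟩, [⟨nat_lit 13, nat_lit 52, nat_lit 61, nat_lit 100, nat_lit 132157482⟩, ⟨nat_lit 4, nat_lit 100, nat_lit 53, nat_lit 87, nat_lit 429989581⟩, ⟨nat_lit 19, nat_lit 91, nat_lit 91, nat_lit 100, nat_lit 106552058⟩]⟩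
noncomputable def p121_l115 : Lf2 := ⟨nat_lit 0, nat_lit 10, [nat_lit 0, nat_lit 5, nat_lit 5, nat_lit 20], true, nat_lit 160, nat_lit 208, nat_lit 48, nat_lit 328, ⟨nat_lit 0, nat_lit 1000, nat_lit 0, nat_lit 9, nat_lit 341, nat_lit 1000, nat_lit 145, nat_lit 0, nat_lit 0, nat_lit 0, nat_lit 0, nat_lit 0, nat_lit 34782549, nat_lit 25734413, nat_lit 6483038, nat_lit 4988172, true, true⟩,
 nat_lit 0, nat_lit 0, nat_lit 0, nat_lit 0, nat_lit 2521, nat_lit 0, nat_lit 0, nat_lit 0, nat_lit 0, nat_lit 0, nat_lit 0, nat_lit 0, nat_lit 0, nat_lit 0, nat_lit 0, nat_lit 250000, nat_lit 0, nat_lit 0, [(nat_lit 27, [(nat_lit 0, nat_lit 1000)])],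
 ⟨p121_k17, nat_lit 0, nat_lit 0, nat_lit 75, nat_lit 0, nat_lit 0, [nat_lit 780800001, nat_lit 1042800000], [], [nat_lit 27850725516, nat_lit 28294869599, nat_lit 28700337288, nat_lit 29173145294, nat_lit 28666541710, nat_lit 29083438725, nat_lit 29464918508, nat_lit 29911353156], nat_lit 0, nat_lit 0, nat_lit 0, nat_lit 0, nat_lit 0, nat_lit 0, [], [nat_lit 66, nat_lit 40, nat_lit 40, nat_lit 80, nat_lit 67, nat_lit 203, nat_lit 0, nat_lit 8]⟩, C1.Rw.none,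
 ⟨nat_lit 1581, nat_lit 2237, ⟨.ofNat (nat_lit 819158), .ofNat (nat_lit 847666), .ofNat (nat_lit 864706), .ofNat (nat_lit 893214), .ofNat (nat_lit 811802), .ofNat (nat_lit 839120), .ofNat (nat_lit 858432), .ofNat (nat_lit 885750)⟩, ⟨.ofNat (nat_lit 306337), .ofNat (nat_lit 374756), .ofNat (nat_lit 351886), .ofNat (nat_lit 420305), .ofNat (nat_lit 305473), .ofNat (nat_lit 371036), .ofNat (nat_lit 352103), .ofNat (nat_lit 417666)⟩⟩, [⟨nat_lit 13, nat_lit 54, nat_lit 57, nat_lit 100, nat_lit 382992136⟩, ⟨nat_lit 16, nat_lit 44, nat_lit 100, nat_lit 92, nat_lit 255958893⟩]⟩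
noncomputable def p121_l116 : Lf2 := ⟨nat_lit 0, nat_lit 10, [nat_lit 0, nat_lit 5, nat_lit 5, nat_lit 20], true, nat_lit 160, nat_lit 184, nat_lit 48, nat_lit 308, ⟨nat_lit 0, nat_lit 1000, nat_lit 0, nat_lit 9, nat_lit 333, nat_lit 1000, nat_lit 137, nat_lit 0, nat_lit 0, nat_lit 0, nat_lit 0, nat_lit 0, nat_lit 35700491, nat_lit 25239305, nat_lit 6060204, nat_lit 4909693, true, true⟩,
 nat_lit 0, nat_lit 0, nat_lit 0, nat_lit 0, nat_lit 2436, nat_lit 0, nat_lit 31, nat_lit 0, nat_lit 0, nat_lit 0, nat_lit 0, nat_lit 0, nat_lit 0, nat_lit 0, nat_lit 0, nat_lit 250000, nat_lit 0, nat_lit 0, [(nat_lit 27, [(nat_lit 0, nat_lit 1000)])],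
 ⟨p121_k19, nat_lit 0, nat_lit 0, nat_lit 74, nat_lit 0, nat_lit 0, [nat_lit 780800001, nat_lit 1042800000], [], [nat_lit 28147448254, nat_lit 28619944960, nat_lit 28311716694, nat_lit 28799214364, nat_lit 28545462039, nat_lit 29006810359, nat_lit 28707318550, nat_lit 29180625824], nat_lit 0, nat_lit 0, nat_lit 0, nat_lit 0, nat_lit 0, nat_lit 0, [], [nat_lit 66, nat_lit 40, nat_lit 40, nat_lit 80, nat_lit 67, nat_lit 203, nat_lit 0, nat_lit 7]⟩, C1.Rw.none,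
 ⟨nat_lit 0, nat_lit 1582, ⟨.ofNat (nat_lit 811799), .ofNat (nat_lit 817262), .ofNat (nat_lit 858431), .ofNat (nat_lit 863894), .ofNat (nat_lit 799996), .ofNat (nat_lit 804996), .ofNat (nat_lit 849998), .ofNat (nat_lit 854998)⟩, ⟨.ofNat (nat_lit 305469), .ofNat (nat_lit 338250), .ofNat (nat_lit 352101), .ofNat (nat_lit 384882), .ofNat (nat_lit 299995), .ofNat (nat_lit 329995), .ofNat (nat_lit 349997), .ofNat (nat_lit 379997)⟩⟩, [⟨nat_lit 13, nat_lit 39, nat_lit 72, nat_lit 100, nat_lit 554776171⟩, ⟨nat_lit 16, nat_lit 31, nat_lit 100, nat_lit 92, nat_lit 388947635⟩]⟩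
noncomputable def b_V_900_700_20_5 : St := ⟨true, nat_lit 0, nat_lit 1, nat_lit 1, nat_lit 120, nat_lit 360, nat_lit 400, nat_lit 280, nat_lit 320, nat_lit 360, nat_lit 392, nat_lit 80, nat_lit 120, nat_lit 160, nat_lit 248, nat_lit 16, nat_lit 336, nat_lit 0, nat_lit 40, nat_lit 0, nat_lit 0, nat_lit 0, nat_lit 0⟩
theorem d_V_900_700_20_5 (h : EB TB.env) : Dead b_V_900_700_20_5 := chkB_sound0 h (T :=
(.trZ (nat_lit 9) (nat_lit 100) (nat_lit 61) (nat_lit 68) (nat_lit 48) (.spl (nat_lit 0) (nat_lit 380)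
(.spl (nat_lit 1) (nat_lit 300)
(.trX (nat_lit 13) (nat_lit 69) (nat_lit 45) (nat_lit 100) (nat_lit 384) (.spl (nat_lit 4) (nat_lit 200)
(.trX (nat_lit 22) (nat_lit 60) (nat_lit 80) (nat_lit 100) (nat_lit 320) (.spl (nat_lit 0) (nat_lit 370)
(.leaf p121_l95)
(.trX (nat_lit 13) (nat_lit 61) (nat_lit 55) (nat_lit 100) (nat_lit 380) (.leaf p121_l96))))
(.trZ (nat_lit 9) (nat_lit 100) (nat_lit 60) (nat_lit 80) (nat_lit 80) (.spl (nat_lit 1) (nat_lit 290)
(.trX (nat_lit 13) (nat_lit 67) (nat_lit 50) (nat_lit 100) (nat_lit 380) (.spl (nat_lit 6) (nat_lit 20)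
(.leaf p121_l97)
(.spl (nat_lit 1) (nat_lit 285)
(.spl (nat_lit 0) (nat_lit 370)
(.spl (nat_lit 1) (nat_lit 283)
(.trX (nat_lit 13) (nat_lit 66) (nat_lit 53) (nat_lit 100) (nat_lit 376) (.leaf p121_l98))
(.spl (nat_lit 0) (nat_lit 365)
(.leaf p121_l99)
(.trX (nat_lit 13) (nat_lit 62) (nat_lit 56) (nat_lit 100) (nat_lit 376) (.trX (nat_lit 16) (nat_lit 58) (nat_lit 100) (nat_lit 93) (nat_lit 240) (.leaf p121_l100)))))
(.trX (nat_lit 13) (nat_lit 58) (nat_lit 60) (nat_lit 100) (nat_lit 368) (.trX (nat_lit 16) (nat_lit 53) (nat_lit 100) (nat_lit 93) (nat_lit 232) (.leaf p121_l101))))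
(.trX (nat_lit 19) (nat_lit 99) (nat_lit 82) (nat_lit 100) (nat_lit 332) (.spl (nat_lit 0) (nat_lit 370)
(.spl (nat_lit 3) (nat_lit 100)
(.trX (nat_lit 16) (nat_lit 60) (nat_lit 100) (nat_lit 87) (nat_lit 224) (.trX (nat_lit 19) (nat_lit 100) (nat_lit 91) (nat_lit 96) (nat_lit 316) (.leaf p121_l102)))
(.spl (nat_lit 1) (nat_lit 288)
(.leaf p121_l103)
(.leaf p121_l104)))
(.trX (nat_lit 13) (nat_lit 59) (nat_lit 58) (nat_lit 100) (nat_lit 372) (.trX (nat_lit 16) (nat_lit 53) (nat_lit 100) (nat_lit 93) (nat_lit 232) (.leaf p121_l105))))))))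
(.trX (nat_lit 19) (nat_lit 97) (nat_lit 84) (nat_lit 100) (nat_lit 328) (.spl (nat_lit 6) (nat_lit 20)
(.leaf p121_l106)
(.spl (nat_lit 0) (nat_lit 370)
(.leaf p121_l107)
(.trX (nat_lit 13) (nat_lit 61) (nat_lit 55) (nat_lit 100) (nat_lit 380) (.trX (nat_lit 16) (nat_lit 53) (nat_lit 100) (nat_lit 93) (nat_lit 232) (.leaf p121_l108))))))))))
(.trX (nat_lit 19) (nat_lit 94) (nat_lit 88) (nat_lit 100) (nat_lit 320) (.spl (nat_lit 8) (nat_lit 800)
(.leaf p121_l109)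
(.spl (nat_lit 1) (nat_lit 310)
(.spl (nat_lit 6) (nat_lit 20)
(.leaf p121_l110)
(.leaf p121_l111))
(.trX (nat_lit 19) (nat_lit 91) (nat_lit 91) (nat_lit 100) (nat_lit 312) (.spl (nat_lit 6) (nat_lit 20)
(.spl (nat_lit 0) (nat_lit 370)
(.leaf p121_l112)
(.trX (nat_lit 13) (nat_lit 66) (nat_lit 45) (nat_lit 100) (nat_lit 388) (.trX (nat_lit 16) (nat_lit 53) (nat_lit 100) (nat_lit 93) (nat_lit 232) (.leaf p121_l113))))
(.leaf p121_l114)))))))
(.trX (nat_lit 13) (nat_lit 54) (nat_lit 57) (nat_lit 100) (nat_lit 380) (.trX (nat_lit 16) (nat_lit 44) (nat_lit 100) (nat_lit 92) (nat_lit 208) (.trX (nat_lit 22) (nat_lit 60) (nat_lit 78) (nat_lit 100) (nat_lit 328) (.spl (nat_lit 0) (nat_lit 390)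
(.leaf p121_l115)
(.trX (nat_lit 13) (nat_lit 39) (nat_lit 72) (nat_lit 100) (nat_lit 364) (.trX (nat_lit 16) (nat_lit 31) (nat_lit 100) (nat_lit 92) (nat_lit 184) (.trX (nat_lit 22) (nat_lit 60) (nat_lit 85) (nat_lit 100) (nat_lit 308) (.leaf p121_l116))))))))))) (by decide +kernel)
noncomputable def p121_l117 : Lf2 := ⟨nat_lit 0, nat_lit 10, [nat_lit 0, nat_lit 5, nat_lit 5, nat_lit 20], false, nat_lit 8, nat_lit 248, nat_lit 0, nat_lit 336, ⟨nat_lit 1000, nat_lit 0, nat_lit 0, nat_lit 0, nat_lit 0, nat_lit 0, nat_lit 0, nat_lit 0, nat_lit 0, nat_lit 0, nat_lit 0, nat_lit 0, nat_lit 0, nat_lit 0, nat_lit 0, nat_lit 0, false, false⟩,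
 nat_lit 0, nat_lit 0, nat_lit 0, nat_lit 0, nat_lit 6285, nat_lit 12269, nat_lit 0, nat_lit 0, nat_lit 0, nat_lit 0, nat_lit 0, nat_lit 0, nat_lit 0, nat_lit 0, nat_lit 0, nat_lit 0, nat_lit 0, nat_lit 0, [],
 ⟨p121_k14, nat_lit 0, nat_lit 0, nat_lit 168, nat_lit 0, nat_lit 0, [nat_lit 938000000, nat_lit 4688000000], [], [nat_lit 26181154183, nat_lit 32102219030, nat_lit 40356872066, nat_lit 43526165764, nat_lit 25322631818, nat_lit 28380618710, nat_lit 34467764754, nat_lit 36836388207], nat_lit 0, nat_lit 0, nat_lit 0, nat_lit 0, nat_lit 0, nat_lit 0, [], [nat_lit 86, nat_lit 40, nat_lit 40, nat_lit 80, nat_lit 87, nat_lit 401, nat_lit 175, nat_lit 18]⟩, ⟨p121_k39, nat_lit 0, nat_lit 0, nat_lit 198, nat_lit 0, nat_lit 0, [nat_lit 3282000000, nat_lit 9842000000], [], [nat_lit 29168366740, nat_lit 34358637229, nat_lit 50654905090, nat_lit 54305106712, nat_lit 29056335006, nat_lit 31564687139, nat_lit 40874855125,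 nat_lit 42619097375], nat_lit 0, nat_lit 0, nat_lit 0, nat_lit 0, nat_lit 0, nat_lit 0, [], [nat_lit 82, nat_lit 40, nat_lit 40, nat_lit 80, nat_lit 63, nat_lit 428, nat_lit 200, nat_lit 12]⟩,
 zbF0, [⟨nat_lit 4, nat_lit 100, nat_lit 44, nat_lit 87, nat_lit 79675644⟩, ⟨nat_lit 19, nat_lit 100, nat_lit 80, nat_lit 100, nat_lit 15483337⟩]⟩
noncomputable def p121_l118 : Lf2 := ⟨nat_lit 0, nat_lit 10, [nat_lit 0, nat_lit 5, nat_lit 5, nat_lit 20], true, nat_lit 8, nat_lit 248, nat_lit 0, nat_lit 336, ⟨nat_lit 0, nat_lit 1000, nat_lit 0, nat_lit 7, nat_lit 242, nat_lit 1000, nat_lit 94, nat_lit 0, nat_lit 0, nat_lit 0, nat_lit 0, nat_lit 0, nat_lit 0, nat_lit 0, nat_lit 0, nat_lit 5000000, false, false⟩,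
 nat_lit 0, nat_lit 0, nat_lit 0, nat_lit 0, nat_lit 3918, nat_lit 0, nat_lit 0, nat_lit 0, nat_lit 0, nat_lit 0, nat_lit 0, nat_lit 0, nat_lit 0, nat_lit 0, nat_lit 0, nat_lit 250000, nat_lit 0, nat_lit 0, [(nat_lit 24, [(nat_lit 0, nat_lit 1000)]), (nat_lit 27, [(nat_lit 0, nat_lit 1000)])],
 ⟨p121_k14, nat_lit 0, nat_lit 0, nat_lit 138, nat_lit 0, nat_lit 0, [nat_lit 780800001, nat_lit 1705600000], [], [nat_lit 21874879036, nat_lit 26244066537, nat_lit 24606531486, nat_lit 28319819388, nat_lit 23096972439, nat_lit 25843235991, nat_lit 24777851069, nat_lit 27516920846], nat_lit 0, nat_lit 0, nat_lit 0, nat_lit 0, nat_lit 0, nat_lit 0, [], [nat_lit 86, nat_lit 40, nat_lit 40, nat_lit 80, nat_lit 87, nat_lit 345, nat_lit 125, nat_lit 15]⟩, C1.Rw.none,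
 ⟨nat_lit 0, nat_lit 3163, ⟨.ofNat (nat_lit 507176), .ofNat (nat_lit 646918), .ofNat (nat_lit 548877), .ofNat (nat_lit 688618), .ofNat (nat_lit 531701), .ofNat (nat_lit 647345), .ofNat (nat_lit 579091), .ofNat (nat_lit 694736)⟩, ⟨.ofNat (nat_lit 20000), .ofNat (nat_lit 440207), .ofNat (nat_lit 20000), .ofNat (nat_lit 484518), .ofNat (nat_lit 20000), .ofNat (nat_lit 409993), .ofNat (nat_lit 20000), .ofNat (nat_lit 459993)⟩⟩, [⟨nat_lit 16, nat_lit 62, nat_lit 100, nat_lit 94, nat_lit 85995874⟩]⟩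
noncomputable def p121_l119 : Lf2 := ⟨nat_lit 0, nat_lit 10, [nat_lit 0, nat_lit 5, nat_lit 5, nat_lit 20], true, nat_lit 8, nat_lit 248, nat_lit 0, nat_lit 336, ⟨nat_lit 0, nat_lit 1000, nat_lit 0, nat_lit 7, nat_lit 311, nat_lit 1000, nat_lit 94, nat_lit 0, nat_lit 0, nat_lit 0, nat_lit 0, nat_lit 0, nat_lit 0, nat_lit 0, nat_lit 0, nat_lit 5000000, true, true⟩,
 nat_lit 0, nat_lit 0, nat_lit 0, nat_lit 0, nat_lit 3137, nat_lit 0, nat_lit 0, nat_lit 0, nat_lit 0, nat_lit 0, nat_lit 0, nat_lit 0, nat_lit 0, nat_lit 0, nat_lit 0, nat_lit 250000, nat_lit 0, nat_lit 0, [(nat_lit 24, [(nat_lit 0, nat_lit 1000)]), (nat_lit 27, [(nat_lit 0, nat_lit 1000)])],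
 ⟨p121_k12, nat_lit 0, nat_lit 0, nat_lit 171, nat_lit 0, nat_lit 0, [nat_lit 780800001, nat_lit 1367200000, nat_lit 1705600000], [], [nat_lit 24119870107, nat_lit 26447223185, nat_lit 31356951863, nat_lit 33606858814, nat_lit 26030618443, nat_lit 27745809610, nat_lit 30618525259, nat_lit 32375097760], nat_lit 0, nat_lit 0, nat_lit 0, nat_lit 0, nat_lit 0, nat_lit 0, [], [nat_lit 35, nat_lit 40, nat_lit 40, nat_lit 80, nat_lit 22, nat_lit 289, nat_lit 75, nat_lit 12]⟩, C1.Rw.none,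
 ⟨nat_lit 0, nat_lit 3163, ⟨.ofNat (nat_lit 646918), .ofNat (nat_lit 881191), .ofNat (nat_lit 688618), .ofNat (nat_lit 925502), .ofNat (nat_lit 647345), .ofNat (nat_lit 839996), .ofNat (nat_lit 694736), .ofNat (nat_lit 889997)⟩, ⟨.ofNat (nat_lit 20000), .ofNat (nat_lit 440207), .ofNat (nat_lit 20000), .ofNat (nat_lit 484518), .ofNat (nat_lit 20000), .ofNat (nat_lit 409993), .ofNat (nat_lit 20000), .ofNat (nat_lit 459993)⟩⟩, [⟨nat_lit 13, nat_lit 75, nat_lit 35, nat_lit 100, nat_lit 264805658⟩, ⟨nat_lit 16, nat_lit 62, nat_lit 100, nat_lit 94, nat_lit 61376424⟩]⟩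
noncomputable def b_V_900_700_20_6 : St := ⟨true, nat_lit 0, nat_lit 2, nat_lit 2, nat_lit 120, nat_lit 360, nat_lit 400, nat_lit 280, nat_lit 320, nat_lit 152, nat_lit 392, nat_lit 80, nat_lit 120, nat_lit 8, nat_lit 248, nat_lit 0, nat_lit 336, nat_lit 0, nat_lit 40, nat_lit 0, nat_lit 0, nat_lit 0, nat_lit 0⟩
theorem d_V_900_700_20_6 (h : EB TB.env) : Dead b_V_900_700_20_6 := chkB_sound0 h (T :=
(.st (nat_lit 1)
(.leaf p121_l117)
(.spl (nat_lit 2) (nat_lit 240)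
(.leaf p121_l118)
(.leaf p121_l119)))) (by decide +kernel)
noncomputable def p121_l120 : Lf2 := ⟨nat_lit 0, nat_lit 10, [nat_lit 0, nat_lit 5, nat_lit 5, nat_lit 20], false, nat_lit 8, nat_lit 248, nat_lit 0, nat_lit 160, ⟨nat_lit 768, nat_lit 0, nat_lit 232, nat_lit 7, nat_lit 242, nat_lit 232, nat_lit 94, nat_lit 232, nat_lit 58017, nat_lit 274, nat_lit 118222, nat_lit 200, nat_lit 45628235, nat_lit 0, nat_lit 0, nat_lit 4117582, false, false⟩,
 nat_lit 0, nat_lit 5776, nat_lit 0, nat_lit 0, nat_lit 5030, nat_lit 5453, nat_lit 0, nat_lit 0, nat_lit 0, nat_lit 547, nat_lit 0, nat_lit 0, nat_lit 0, nat_lit 0, nat_lit 0, nat_lit 232000, nat_lit 0, nat_lit 0, [(nat_lit 24, [(nat_lit 6, nat_lit 232)]), (nat_lit 27, [(nat_lit 6, nat_lit 232)])],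
 ⟨p121_k14, nat_lit 0, nat_lit 0, nat_lit 613, nat_lit 0, nat_lit 1355184, [nat_lit 1173619200, nat_lit 2524646400], [], [nat_lit 28383721639, nat_lit 29665790115, nat_lit 29052719409, nat_lit 30986051113, nat_lit 27739420714, nat_lit 28855124976, nat_lit 28270900900, nat_lit 29253259748], nat_lit 1271250, nat_lit 1271250, nat_lit 1033601, nat_lit 1780500, nat_lit 43600, nat_lit 1756600, [nat_lit 230000, nat_lit 1100000], [nat_lit 86, nat_lit 40, nat_lit 40, nat_lit 80, nat_lit 87, nat_lit 345, nat_lit 125, nat_lit 15]⟩, ⟨p121_k40, nat_lit 0, nat_lit 0, nat_lit 182, nat_lit 0, nat_lit 0, [nat_lit 2520576000, nat_lit 6119424000, nat_lit 7558656000], [], [nat_lit 18583615578, nat_lit 21334345945, nat_lit 20952353072, nat_lit 23499050228, nat_lit 15162551476, nat_lit 17732112298, nat_lit 17461253352, nat_lit 19593124628], nat_lit 0, nat_lit 0, nat_lit 0, nat_lit 0, nat_lit 0, nat_lit 0, [], [nat_lit 99, nat_lit 40,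 nat_lit 40, nat_lit 80, nat_lit 17, nat_lit 317, nat_lit 100, nat_lit 9]⟩,
 ⟨nat_lit 0, nat_lit 3163, ⟨.ofNat (nat_lit 507176), .ofNat (nat_lit 646918), .ofNat (nat_lit 548877), .ofNat (nat_lit 688618), .ofNat (nat_lit 531701), .ofNat (nat_lit 647345), .ofNat (nat_lit 579091), .ofNat (nat_lit 694736)⟩, ⟨.ofNat (nat_lit 20000), .ofNat (nat_lit 440207), .ofNat (nat_lit 20000), .ofNat (nat_lit 484518), .ofNat (nat_lit 20000), .ofNat (nat_lit 409993), .ofNat (nat_lit 20000), .ofNat (nat_lit 459993)⟩⟩, [⟨nat_lit 0, nat_lit 87, nat_lit 44, nat_lit 100, nat_lit 532131413⟩, ⟨nat_lit 4, nat_lit 100, nat_lit 44, nat_lit 87, nat_lit 275233251⟩]⟩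
noncomputable def p121_l121 : Lf2 := ⟨nat_lit 0, nat_lit 10, [nat_lit 0, nat_lit 5, nat_lit 5, nat_lit 20], false, nat_lit 8, nat_lit 248, nat_lit 160, nat_lit 336, ⟨nat_lit 726, nat_lit 0, nat_lit 274, nat_lit 7, nat_lit 242, nat_lit 274, nat_lit 96, nat_lit 274, nat_lit 58017, nat_lit 274, nat_lit 115962, nat_lit 200, nat_lit 45505741, nat_lit 0, nat_lit 0, nat_lit 4143723, false, false⟩,
 nat_lit 0, nat_lit 5196, nat_lit 0, nat_lit 0, nat_lit 4525, nat_lit 3658, nat_lit 94, nat_lit 0, nat_lit 0, nat_lit 0, nat_lit 0, nat_lit 0, nat_lit 0, nat_lit 0, nat_lit 0, nat_lit 274000, nat_lit 0, nat_lit 0, [(nat_lit 24, [(nat_lit 6, nat_lit 274)])],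
 ⟨p121_k12, nat_lit 0, nat_lit 0, nat_lit 540, nat_lit 0, nat_lit 1201296, [nat_lit 1051107200, nat_lit 1769227734, nat_lit 2062203200], [], [nat_lit 23942989558, nat_lit 25362769698, nat_lit 25739976030, nat_lit 27757596745, nat_lit 24627105910, nat_lit 25300995947, nat_lit 25794795694, nat_lit 26624322845], nat_lit 1271250, nat_lit 1271250, nat_lit 1033601, nat_lit 1780500, nat_lit 43600, nat_lit 1756600, [nat_lit 230000, nat_lit 780000, nat_lit 1100000], [nat_lit 35, nat_lit 40, nat_lit 40, nat_lit 80, nat_lit 22, nat_lit 345, nat_lit 125, nat_lit 15]⟩, ⟨p121_k15, nat_lit 0, nat_lit 0, nat_lit 62, nat_lit 0, nat_lit 0, [nat_lit 2382732000, nat_lit 4537500000, nat_lit 7145292000], [], [nat_lit 9654543377, nat_lit 12162350588, nat_lit 12316888440, nat_lit 14416750160, nat_lit 16705297009, nat_lit 18501825792, nat_lit 18244171183, nat_lit 19762521290], nat_lit 0, nat_lit 0, nat_lit 0, nat_lit 0, nat_lit 0, nat_lit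 0, [], [nat_lit 8, nat_lit 40, nat_lit 40, nat_lit 80, nat_lit 1, nat_lit 373, nat_lit 150, nat_lit 10]⟩,
 ⟨nat_lit 2236, nat_lit 3163, ⟨.ofNat (nat_lit 515097), .ofNat (nat_lit 649422), .ofNat (nat_lit 559279), .ofNat (nat_lit 693606), .ofNat (nat_lit 522299), .ofNat (nat_lit 647962), .ofNat (nat_lit 567721), .ofNat (nat_lit 693384)⟩, ⟨.ofNat (nat_lit 20000), .ofNat (nat_lit 440213), .ofNat (nat_lit 20000), .ofNat (nat_lit 484523), .ofNat (nat_lit 20000), .ofNat (nat_lit 431772), .ofNat (nat_lit 20000), .ofNat (nat_lit 477320)⟩⟩, [⟨nat_lit 0, nat_lit 87, nat_lit 53, nat_lit 100, nat_lit 387213261⟩, ⟨nat_lit 16, nat_lit 53, nat_lit 100, nat_lit 87, nat_lit 185184198⟩, ⟨nat_lit 19, nat_lit 100, nat_lit 80, nat_lit 100, nat_lit 318040861⟩]⟩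
noncomputable def p121_l122 : Lf2 := ⟨nat_lit 0, nat_lit 10, [nat_lit 0, nat_lit 5, nat_lit 5, nat_lit 20], false, nat_lit 20, nat_lit 208, nat_lit 160, nat_lit 336, ⟨nat_lit 1000, nat_lit 0, nat_lit 0, nat_lit 0, nat_lit 0, nat_lit 0, nat_lit 0, nat_lit 0, nat_lit 0, nat_lit 0, nat_lit 0, nat_lit 0, nat_lit 0, nat_lit 0, nat_lit 0, nat_lit 0, false, false⟩,
 nat_lit 0, nat_lit 4506, nat_lit 0, nat_lit 0, nat_lit 4210, nat_lit 5029, nat_lit 545, nat_lit 0, nat_lit 0, nat_lit 0, nat_lit 0, nat_lit 0, nat_lit 0, nat_lit 0, nat_lit 0, nat_lit 0, nat_lit 0, nat_lit 0, [],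
 ⟨p121_k17, nat_lit 0, nat_lit 0, nat_lit 484, nat_lit 0, nat_lit 1233514, [nat_lit 938000000, nat_lit 3282000000], [], [nat_lit 24981032950, nat_lit 27093979288, nat_lit 26595998395, nat_lit 28515459980, nat_lit 24004433850, nat_lit 25632619834, nat_lit 25317638461, nat_lit 26850304265], nat_lit 1271250, nat_lit 1271250, nat_lit 1271250, nat_lit 1271250, nat_lit 111251, nat_lit 1474250, [nat_lit 230000, nat_lit 780000], [nat_lit 66, nat_lit 40, nat_lit 40, nat_lit 80, nat_lit 67, nat_lit 272, nat_lit 60, nat_lit 15]⟩, ⟨p121_k15, nat_lit 0, nat_lit 0, nat_lit 55, nat_lit 0, nat_lit 0, [nat_lit 3282000000, nat_lit 6250000000, nat_lit 9842000000], [], [nat_lit 14718158099, nat_lit 17923387837, nat_lit 16976330416, nat_lit 19865745040, nat_lit 23717946680, nat_lit 26025788081, nat_lit 25124758195, nat_lit 27214428871], nat_lit 0, nat_lit 0, nat_lit 0, nat_lit 0, nat_lit 0, nat_lit 0, [], [nat_lit 8, nat_lit 40, nat_lit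 40, nat_lit 80, nat_lit 1, nat_lit 373, nat_lit 150, nat_lit 10]⟩,
 zbF0, [⟨nat_lit 0, nat_lit 88, nat_lit 32, nat_lit 100, nat_lit 423034076⟩, ⟨nat_lit 0, nat_lit 92, nat_lit 44, nat_lit 100, nat_lit 133395690⟩, ⟨nat_lit 16, nat_lit 44, nat_lit 100, nat_lit 92, nat_lit 293430013⟩, ⟨nat_lit 19, nat_lit 100, nat_lit 80, nat_lit 100, nat_lit 459900143⟩]⟩
noncomputable def p121_l123 : Lf2 := ⟨nat_lit 0, nat_lit 10, [nat_lit 0, nat_lit 5, nat_lit 5, nat_lit 20], false, nat_lit 8, nat_lit 160, nat_lit 0, nat_lit 336, ⟨nat_lit 762, nat_lit 0, nat_lit 238, nat_lit 7, nat_lit 314, nat_lit 238, nat_lit 70, nat_lit 238, nat_lit 45067, nat_lit 267, nat_lit 579758, nat_lit 200, nat_lit 39827169, nat_lit 0, nat_lit 0, nat_lit 4140295, true, true⟩,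
 nat_lit 0, nat_lit 4767, nat_lit 0, nat_lit 0, nat_lit 4151, nat_lit 4584, nat_lit 129, nat_lit 0, nat_lit 0, nat_lit 650, nat_lit 0, nat_lit 0, nat_lit 0, nat_lit 0, nat_lit 0, nat_lit 238000, nat_lit 0, nat_lit 0, [(nat_lit 24, [(nat_lit 6, nat_lit 238)])],
 ⟨p121_k12, nat_lit 0, nat_lit 0, nat_lit 510, nat_lit 0, nat_lit 1126724, [nat_lit 1036246401, nat_lit 1967986134, nat_lit 2407198400], [], [nat_lit 28457917625, nat_lit 28830881287, nat_lit 34255909641, nat_lit 34892422129, nat_lit 27940518870, nat_lit 28275993832, nat_lit 31600448143, nat_lit 31883291377], nat_lit 1271250, nat_lit 1271250, nat_lit 1271250, nat_lit 1271250, nat_lit 43600, nat_lit 1100001, [nat_lit 230000, nat_lit 780000, nat_lit 1100000], [nat_lit 35, nat_lit 40, nat_lit 40, nat_lit 80, nat_lit 22, nat_lit 249, nat_lit 40, nat_lit 10]⟩, ⟨p121_k15, nat_lit 0, nat_lit 0, nat_lit 216, nat_lit 0, nat_lit 0, [nat_lit 2500884000, nat_lit 4762500000,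 nat_lit 7499604000], [], [nat_lit 19863860258, nat_lit 21925956578, nat_lit 27180104638, nat_lit 28436977503, nat_lit 21540047614, nat_lit 22731933289, nat_lit 26295260474, nat_lit 27137625390], nat_lit 0, nat_lit 0, nat_lit 0, nat_lit 0, nat_lit 0, nat_lit 0, [], [nat_lit 8, nat_lit 40, nat_lit 40, nat_lit 80, nat_lit 1, nat_lit 428, nat_lit 200, nat_lit 12]⟩,
 ⟨nat_lit 2738, nat_lit 3163, ⟨.ofNat (nat_lit 649542), .ofNat (nat_lit 881194), .ofNat (nat_lit 693828), .ofNat (nat_lit 925504), .ofNat (nat_lit 648700), .ofNat (nat_lit 873162), .ofNat (nat_lit 693511), .ofNat (nat_lit 917997)⟩, ⟨.ofNat (nat_lit 20000), .ofNat (nat_lit 306116), .ofNat (nat_lit 20000), .ofNat (nat_lit 350426), .ofNat (nat_lit 20000), .ofNat (nat_lit 306433), .ofNat (nat_lit 20000), .ofNat (nat_lit 351268)⟩⟩, [⟨nat_lit 7, nat_lit 100, nat_lit 100, nat_lit 100, nat_lit 144268159⟩]⟩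
noncomputable def p121_l124 : Lf2 := ⟨nat_lit 0, nat_lit 10, [nat_lit 0, nat_lit 5, nat_lit 5, nat_lit 20], false, nat_lit 12, nat_lit 160, nat_lit 0, nat_lit 336, ⟨nat_lit 1000, nat_lit 0, nat_lit 0, nat_lit 0, nat_lit 0, nat_lit 0, nat_lit 0, nat_lit 0, nat_lit 0, nat_lit 0, nat_lit 0, nat_lit 0, nat_lit 0, nat_lit 0, nat_lit 0, nat_lit 0, false, false⟩,
 nat_lit 0, nat_lit 4703, nat_lit 0, nat_lit 0, nat_lit 4244, nat_lit 6237, nat_lit 600, nat_lit 0, nat_lit 0, nat_lit 840, nat_lit 0, nat_lit 0, nat_lit 0, nat_lit 0, nat_lit 0, nat_lit 0, nat_lit 0, nat_lit 0, [],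
 ⟨p121_k16, nat_lit 0, nat_lit 0, nat_lit 514, nat_lit 0, nat_lit 1145386, [nat_lit 938000000, nat_lit 3282000000, nat_lit 4688000000], [], [nat_lit 26024201819, nat_lit 26993301567, nat_lit 34712285837, nat_lit 35362893504, nat_lit 25193377600, nat_lit 25629740640, nat_lit 31083071413, nat_lit 31658710719], nat_lit 1271250, nat_lit 1271250, nat_lit 1271250, nat_lit 1271250, nat_lit 65850, nat_lit 1100001, [nat_lit 230000, nat_lit 780000, nat_lit 1100000], [nat_lit 35, nat_lit 40, nat_lit 40, nat_lit 80, nat_lit 22, nat_lit 249, nat_lit 40, nat_lit 10]⟩, ⟨p121_k15, nat_lit 0, nat_lit 0, nat_lit 215, nat_lit 0, nat_lit 0, [nat_lit 3282000000, nat_lit 6250000000, nat_lit 9842000000], [], [nat_lit 26186261820, nat_lit 28945407736, nat_lit 35668145351, nat_lit 37518044311, nat_lit 28197474135, nat_lit 29699522716, nat_lit 34231047377, nat_lit 35362520016], nat_lit 0, nat_lit 0, nat_lit 0, nat_lit 0, nat_lit 0, nat_lit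 0, [], [nat_lit 8, nat_lit 40, nat_lit 40, nat_lit 80, nat_lit 1, nat_lit 428, nat_lit 200, nat_lit 12]⟩,
 zbF0, [⟨nat_lit 7, nat_lit 100, nat_lit 100, nat_lit 100, nat_lit 157296194⟩]⟩
noncomputable def p121_l125 : Lf2 := ⟨nat_lit 0, nat_lit 10, [nat_lit 0, nat_lit 5, nat_lit 5, nat_lit 20], false, nat_lit 160, nat_lit 248, nat_lit 0, nat_lit 336, ⟨nat_lit 943, nat_lit 0, nat_lit 57, nat_lit 7, nat_lit 306, nat_lit 57, nat_lit 157, nat_lit 57, nat_lit 61189, nat_lit 275, nat_lit 511066, nat_lit 200, nat_lit 36885826, nat_lit 0, nat_lit 0, nat_lit 5058293, true, true⟩,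
 nat_lit 0, nat_lit 5781, nat_lit 0, nat_lit 0, nat_lit 5035, nat_lit 6806, nat_lit 265, nat_lit 0, nat_lit 0, nat_lit 818, nat_lit 0, nat_lit 0, nat_lit 0, nat_lit 0, nat_lit 0, nat_lit 57000, nat_lit 0, nat_lit 0, [(nat_lit 24, [(nat_lit 6, nat_lit 57)])],
 ⟨p121_k12, nat_lit 0, nat_lit 0, nat_lit 421, nat_lit 0, nat_lit 1085646, [nat_lit 961529601, nat_lit 2967299200, nat_lit 4141757600], [], [nat_lit 27555916918, nat_lit 28380697263, nat_lit 31883632665, nat_lit 32587130799, nat_lit 28805328768, nat_lit 29620692182, nat_lit 32603769837, nat_lit 33560701747], nat_lit 1271250, nat_lit 1271250, nat_lit 1271250, nat_lit 1271250, nat_lit 1100001, nat_lit 1853500, [nat_lit 230000, nat_lit 780000, nat_lit 1100000], [nat_lit 35, nat_lit 40, nat_lit 40, nat_lit 80, nat_lit 22, nat_lit 232, nat_lit 0, nat_lit 8]⟩, ⟨p121_k15, nat_lit 0, nat_lit 0, nat_lit 211, nat_lit 0, nat_lit 0, [nat_lit 3094926000, nat_lit 5893750000,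 nat_lit 9281006000], [], [nat_lit 24674036762, nat_lit 26085669222, nat_lit 34816134263, nat_lit 36126409409, nat_lit 25782920171, nat_lit 26529955740, nat_lit 32579796538, nat_lit 33286676315], nat_lit 0, nat_lit 0, nat_lit 0, nat_lit 0, nat_lit 0, nat_lit 0, [], [nat_lit 8, nat_lit 40, nat_lit 40, nat_lit 80, nat_lit 1, nat_lit 428, nat_lit 200, nat_lit 12]⟩,
 ⟨nat_lit 2236, nat_lit 3163, ⟨.ofNat (nat_lit 649422), .ofNat (nat_lit 869004), .ofNat (nat_lit 671514), .ofNat (nat_lit 891158), .ofNat (nat_lit 647962), .ofNat (nat_lit 853367), .ofNat (nat_lit 670673), .ofNat (nat_lit 876141)⟩, ⟨.ofNat (nat_lit 306116), .ofNat (nat_lit 440213), .ofNat (nat_lit 350426), .ofNat (nat_lit 484523), .ofNat (nat_lit 306337), .ofNat (nat_lit 431772), .ofNat (nat_lit 351886), .ofNat (nat_lit 477320)⟩⟩, [⟨nat_lit 4, nat_lit 100, nat_lit 53, nat_lit 87, nat_lit 579200605⟩, ⟨nat_lit 7, nat_lit 94, nat_lit 100, nat_lit 97, nat_lit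 140667063⟩]⟩
noncomputable def p121_l126 : Lf2 := ⟨nat_lit 0, nat_lit 10, [nat_lit 0, nat_lit 5, nat_lit 5, nat_lit 20], false, nat_lit 160, nat_lit 248, nat_lit 0, nat_lit 320, ⟨nat_lit 1000, nat_lit 0, nat_lit 0, nat_lit 0, nat_lit 0, nat_lit 0, nat_lit 0, nat_lit 0, nat_lit 0, nat_lit 0, nat_lit 0, nat_lit 0, nat_lit 0, nat_lit 0, nat_lit 0, nat_lit 0, false, false⟩,
 nat_lit 0, nat_lit 6415, nat_lit 0, nat_lit 0, nat_lit 5587, nat_lit 5429, nat_lit 291, nat_lit 0, nat_lit 0, nat_lit 1758, nat_lit 0, nat_lit 0, nat_lit 0, nat_lit 0, nat_lit 0, nat_lit 0, nat_lit 0, nat_lit 0, [],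
 ⟨p121_k12, nat_lit 0, nat_lit 0, nat_lit 459, nat_lit 0, nat_lit 1201296, [nat_lit 938000000, nat_lit 3282000000, nat_lit 4688000000], [], [nat_lit 28394461269, nat_lit 29225282626, nat_lit 32683814328, nat_lit 33941352603, nat_lit 29487718870, nat_lit 30247868194, nat_lit 33613970093, nat_lit 34730582465], nat_lit 1271250, nat_lit 1271250, nat_lit 1271250, nat_lit 1271250, nat_lit 1100001, nat_lit 1853500, [nat_lit 230000, nat_lit 780000, nat_lit 1100000], [nat_lit 35, nat_lit 40, nat_lit 40, nat_lit 80, nat_lit 22, nat_lit 243, nat_lit 0, nat_lit 9]⟩, ⟨p121_k13, nat_lit 0, nat_lit 0, nat_lit 196, nat_lit 0, nat_lit 0, [nat_lit 3282000000, nat_lit 6250000000, nat_lit 7968000000], [], [nat_lit 22746373214, nat_lit 23992079110, nat_lit 34563093757, nat_lit 35725034680, nat_lit 25704128860, nat_lit 26435563422, nat_lit 33000910085, nat_lit 33706078588], nat_lit 0, nat_lit 0, nat_lit 0, nat_lit 0, nat_lit 0, nat_lit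 0, [], [nat_lit 18, nat_lit 40, nat_lit 40, nat_lit 80, nat_lit 2, nat_lit 317, nat_lit 100, nat_lit 10]⟩,
 zbF0, [⟨nat_lit 16, nat_lit 53, nat_lit 100, nat_lit 87, nat_lit 574821344⟩, ⟨nat_lit 7, nat_lit 100, nat_lit 93, nat_lit 97, nat_lit 170639824⟩]⟩
noncomputable def p121_l127 : Lf2 := ⟨nat_lit 0, nat_lit 10, [nat_lit 0, nat_lit 5, nat_lit 5, nat_lit 20], false, nat_lit 20, nat_lit 208, nat_lit 0, nat_lit 336, ⟨nat_lit 1000, nat_lit 0, nat_lit 0, nat_lit 0, nat_lit 0, nat_lit 0, nat_lit 0, nat_lit 0, nat_lit 0, nat_lit 0, nat_lit 0, nat_lit 0, nat_lit 0, nat_lit 0, nat_lit 0, nat_lit 0, false, false⟩,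
 nat_lit 0, nat_lit 4467, nat_lit 0, nat_lit 0, nat_lit 4173, nat_lit 6447, nat_lit 454, nat_lit 0, nat_lit 0, nat_lit 840, nat_lit 0, nat_lit 0, nat_lit 0, nat_lit 0, nat_lit 0, nat_lit 0, nat_lit 0, nat_lit 0, [],
 ⟨p121_k17, nat_lit 0, nat_lit 0, nat_lit 491, nat_lit 0, nat_lit 1233514, [nat_lit 938000000, nat_lit 3282000000], [], [nat_lit 26522899364, nat_lit 28432634074, nat_lit 34279607999, nat_lit 35598695562, nat_lit 26486038278, nat_lit 27287218087, nat_lit 31663703719, nat_lit 32749313560], nat_lit 1271250, nat_lit 1271250, nat_lit 1271250, nat_lit 1271250, nat_lit 111251, nat_lit 1474250, [nat_lit 230000, nat_lit 780000], [nat_lit 66, nat_lit 40, nat_lit 40, nat_lit 80, nat_lit 67, nat_lit 272, nat_lit 60, nat_lit 14]⟩, ⟨p121_k15, nat_lit 0, nat_lit 0, nat_lit 212, nat_lit 0, nat_lit 0, [nat_lit 3282000000, nat_lit 6250000000, nat_lit 9842000000], [], [nat_lit 26219412420, nat_lit 29028846616, nat_lit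 35252996320, nat_lit 37259194616, nat_lit 28051702887, nat_lit 29570965978, nat_lit 33736785072, nat_lit 34914769108], nat_lit 0, nat_lit 0, nat_lit 0, nat_lit 0, nat_lit 0, nat_lit 0, [], [nat_lit 8, nat_lit 40, nat_lit 40, nat_lit 80, nat_lit 1, nat_lit 428, nat_lit 200, nat_lit 12]⟩,
 zbF0, [⟨nat_lit 0, nat_lit 88, nat_lit 32, nat_lit 100, nat_lit 9801805⟩, ⟨nat_lit 16, nat_lit 32, nat_lit 100, nat_lit 88, nat_lit 309876374⟩, ⟨nat_lit 7, nat_lit 100, nat_lit 100, nat_lit 100, nat_lit 154488565⟩]⟩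
noncomputable def p121_l128 : Lf2 := ⟨nat_lit 0, nat_lit 10, [nat_lit 0, nat_lit 5, nat_lit 5, nat_lit 20], false, nat_lit 8, nat_lit 248, nat_lit 0, nat_lit 160, ⟨nat_lit 376, nat_lit 624, nat_lit 0, nat_lit 7, nat_lit 242, nat_lit 624, nat_lit 96, nat_lit 0, nat_lit 0, nat_lit 0, nat_lit 0, nat_lit 0, nat_lit 45505741, nat_lit 17423713, nat_lit 4070546, nat_lit 4143723, false, false⟩,
 nat_lit 4839, nat_lit 0, nat_lit 0, nat_lit 0, nat_lit 3921, nat_lit 3079, nat_lit 104, nat_lit 0, nat_lit 0, nat_lit 269, nat_lit 0, nat_lit 0, nat_lit 0, nat_lit 0, nat_lit 0, nat_lit 388800, nat_lit 0, nat_lit 0, [(nat_lit 24, [(nat_lit 1, nat_lit 392), (nat_lit 2, nat_lit 232)])],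
 ⟨p121_k12, nat_lit 0, nat_lit 0, nat_lit 347, nat_lit 0, nat_lit 694821, [nat_lit 1025680001, nat_lit 1515297067, nat_lit 1651654400], [], [nat_lit 21880336926, nat_lit 24065914122, nat_lit 24612133354, nat_lit 26469572906, nat_lit 23700824220, nat_lit 24632838926, nat_lit 25218408781, nat_lit 26152403638], nat_lit 1271250, nat_lit 1271250, nat_lit 1033601, nat_lit 1780500, nat_lit 43600, nat_lit 1756600, [nat_lit 230000, nat_lit 780000, nat_lit 1100000], [nat_lit 35, nat_lit 40, nat_lit 40, nat_lit 80, nat_lit 22, nat_lit 345, nat_lit 125, nat_lit 15]⟩, ⟨p121_k15, nat_lit 0, nat_lit 0, nat_lit 664, nat_lit 0, nat_lit 1022996, [nat_lit 1234032000, nat_lit 2350000000, nat_lit 3700592000], [], [nat_lit 13191164989, nat_lit 12410238755, nat_lit 12094845301, nat_lit 12489603353, nat_lit 10256254338, nat_lit 10645536708, nat_lit 10563956808, nat_lit 10725971112], nat_lit 1271250, nat_lit 1271250, nat_lit 1033601,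 nat_lit 1780500, nat_lit 0, nat_lit 1100001, [nat_lit 780000, nat_lit 1435000, nat_lit 1271250], [nat_lit 8, nat_lit 40, nat_lit 40, nat_lit 80, nat_lit 1, nat_lit 317, nat_lit 100, nat_lit 9]⟩,
 ⟨nat_lit 2236, nat_lit 3163, ⟨.ofNat (nat_lit 515097), .ofNat (nat_lit 649422), .ofNat (nat_lit 559279), .ofNat (nat_lit 693606), .ofNat (nat_lit 522299), .ofNat (nat_lit 647962), .ofNat (nat_lit 567721), .ofNat (nat_lit 693384)⟩, ⟨.ofNat (nat_lit 20000), .ofNat (nat_lit 440213), .ofNat (nat_lit 20000), .ofNat (nat_lit 484523), .ofNat (nat_lit 20000), .ofNat (nat_lit 431772), .ofNat (nat_lit 20000), .ofNat (nat_lit 477320)⟩⟩, [⟨nat_lit 0, nat_lit 82, nat_lit 44, nat_lit 100, nat_lit 410342085⟩]⟩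
noncomputable def p121_l129 : Lf2 := ⟨nat_lit 0, nat_lit 10, [nat_lit 0, nat_lit 5, nat_lit 5, nat_lit 20], false, nat_lit 20, nat_lit 208, nat_lit 0, nat_lit 160, ⟨nat_lit 283, nat_lit 717, nat_lit 0, nat_lit 7, nat_lit 255, nat_lit 717, nat_lit 88, nat_lit 0, nat_lit 0, nat_lit 0, nat_lit 0, nat_lit 0, nat_lit 44699475, nat_lit 18733567, nat_lit 3566958, nat_lit 4126228, true, false⟩,
 nat_lit 4138, nat_lit 0, nat_lit 0, nat_lit 0, nat_lit 3292, nat_lit 2633, nat_lit 136, nat_lit 0, nat_lit 0, nat_lit 276, nat_lit 0, nat_lit 0, nat_lit 0, nat_lit 0, nat_lit 0, nat_lit 286800, nat_lit 0, nat_lit 0, [(nat_lit 27, [(nat_lit 1, nat_lit 717)])],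
 ⟨p121_k17, nat_lit 0, nat_lit 0, nat_lit 305, nat_lit 0, nat_lit 720718, [nat_lit 765633200, nat_lit 1161400800], [], [nat_lit 23216935301, nat_lit 25056338018, nat_lit 24782352154, nat_lit 26460482096, nat_lit 23519345947, nat_lit 24739974847, nat_lit 24610258050, nat_lit 25960010973], nat_lit 1271250, nat_lit 1271250, nat_lit 1271250, nat_lit 1271250, nat_lit 111251, nat_lit 1474250, [nat_lit 230000, nat_lit 780000], [nat_lit 66, nat_lit 40, nat_lit 40, nat_lit 80, nat_lit 67, nat_lit 272, nat_lit 60, nat_lit 15]⟩, ⟨p121_k15, nat_lit 0, nat_lit 0, nat_lit 726, nat_lit 0, nat_lit 1154044, [nat_lit 928806000, nat_lit 1768750000, nat_lit 2785286000], [], [nat_lit 7920264451, nat_lit 8235953874, nat_lit 8010833796, nat_lit 8291530508, nat_lit 6490329913, nat_lit 6734921281, nat_lit 6529425412, nat_lit 6740899348], nat_lit 1271250, nat_lit 1271250, nat_lit 1271250, nat_lit 1271250, nat_lit 0, nat_lit 1100001, [nat_lit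 780000, nat_lit 1435000, nat_lit 1271250], [nat_lit 8, nat_lit 40, nat_lit 40, nat_lit 80, nat_lit 1, nat_lit 317, nat_lit 100, nat_lit 9]⟩,
 ⟨nat_lit 0, nat_lit 2237, ⟨.ofNat (nat_lit 575619), .ofNat (nat_lit 646249), .ofNat (nat_lit 619314), .ofNat (nat_lit 689944), .ofNat (nat_lit 585925), .ofNat (nat_lit 648136), .ofNat (nat_lit 634072), .ofNat (nat_lit 696283)⟩, ⟨.ofNat (nat_lit 50000), .ofNat (nat_lit 374750), .ofNat (nat_lit 50000), .ofNat (nat_lit 420300), .ofNat (nat_lit 50000), .ofNat (nat_lit 359993), .ofNat (nat_lit 50000), .ofNat (nat_lit 409994)⟩⟩, [⟨nat_lit 0, nat_lit 92, nat_lit 44, nat_lit 100, nat_lit 437221118⟩]⟩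
noncomputable def p121_l130 : Lf2 := ⟨nat_lit 0, nat_lit 10, [nat_lit 0, nat_lit 5, nat_lit 5, nat_lit 20], false, nat_lit 8, nat_lit 160, nat_lit 160, nat_lit 336, ⟨nat_lit 416, nat_lit 530, nat_lit 54, nat_lit 7, nat_lit 242, nat_lit 584, nat_lit 70, nat_lit 54, nat_lit 45067, nat_lit 267, nat_lit 115962, nat_lit 200, nat_lit 46788433, nat_lit 17662698, nat_lit 2548869, nat_lit 3803533, false, false⟩,
 nat_lit 5340, nat_lit 0, nat_lit 0, nat_lit 0, nat_lit 3580, nat_lit 3397, nat_lit 114, nat_lit 0, nat_lit 0, nat_lit 313, nat_lit 0, nat_lit 0, nat_lit 0, nat_lit 0, nat_lit 0, nat_lit 409400, nat_lit 0, nat_lit 0, [(nat_lit 24, [(nat_lit 1, nat_lit 237), (nat_lit 2, nat_lit 293), (nat_lit 5, nat_lit 54)])],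
 ⟨p121_k12, nat_lit 0, nat_lit 0, nat_lit 347, nat_lit 0, nat_lit 694821, [nat_lit 1060663200, nat_lit 1421346401, nat_lit 1464232800], [], [nat_lit 22646405573, nat_lit 23783922062, nat_lit 24675208901, nat_lit 25745743743, nat_lit 22970803908, nat_lit 23996788499, nat_lit 24877944161, nat_lit 25931051081], nat_lit 1271250, nat_lit 1271250, nat_lit 1033601, nat_lit 1780500, nat_lit 43600, nat_lit 1100001, [nat_lit 230000, nat_lit 780000, nat_lit 1100000], [nat_lit 35, nat_lit 40, nat_lit 40, nat_lit 80, nat_lit 22, nat_lit 317, nat_lit 100, nat_lit 14]⟩, ⟨p121_k15, nat_lit 0, nat_lit 0, nat_lit 573, nat_lit 0, nat_lit 1022996, [nat_lit 1365312000, nat_lit 2600000000, nat_lit 4094272000], [], [nat_lit 10456536233, nat_lit 11042265186, nat_lit 10712935597, nat_lit 11190984069, nat_lit 11845987763, nat_lit 12290959010, nat_lit 11892654056, nat_lit 12249297444], nat_lit 1271250, nat_lit 1271250, nat_lit 1033601,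 nat_lit 1780500, nat_lit 1271250, nat_lit 1271250, [nat_lit 780000, nat_lit 1435000, nat_lit 1271250], [nat_lit 8, nat_lit 40, nat_lit 40, nat_lit 80, nat_lit 1, nat_lit 373, nat_lit 150, nat_lit 10]⟩,
 ⟨nat_lit 2236, nat_lit 3163, ⟨.ofNat (nat_lit 515097), .ofNat (nat_lit 649422), .ofNat (nat_lit 559279), .ofNat (nat_lit 693606), .ofNat (nat_lit 522299), .ofNat (nat_lit 647962), .ofNat (nat_lit 567721), .ofNat (nat_lit 693384)⟩, ⟨.ofNat (nat_lit 20000), .ofNat (nat_lit 306116), .ofNat (nat_lit 20000), .ofNat (nat_lit 350426), .ofNat (nat_lit 20000), .ofNat (nat_lit 306337), .ofNat (nat_lit 20000), .ofNat (nat_lit 351886)⟩⟩, [⟨nat_lit 0, nat_lit 82, nat_lit 44, nat_lit 100, nat_lit 340065515⟩, ⟨nat_lit 19, nat_lit 100, nat_lit 100, nat_lit 100, nat_lit 125063292⟩]⟩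
noncomputable def p121_l131 : Lf2 := ⟨nat_lit 0, nat_lit 10, [nat_lit 0, nat_lit 5, nat_lit 5, nat_lit 20], false, nat_lit 160, nat_lit 248, nat_lit 160, nat_lit 336, ⟨nat_lit 341, nat_lit 659, nat_lit 0, nat_lit 7, nat_lit 242, nat_lit 659, nat_lit 157, nat_lit 0, nat_lit 0, nat_lit 0, nat_lit 0, nat_lit 0, nat_lit 41989037, nat_lit 16631906, nat_lit 8379057, nat_lit 4826137, false, false⟩,
 nat_lit 4480, nat_lit 0, nat_lit 0, nat_lit 0, nat_lit 3901, nat_lit 2850, nat_lit 120, nat_lit 0, nat_lit 0, nat_lit 297, nat_lit 0, nat_lit 0, nat_lit 0, nat_lit 0, nat_lit 0, nat_lit 418400, nat_lit 0, nat_lit 0, [(nat_lit 24, [(nat_lit 1, nat_lit 401), (nat_lit 2, nat_lit 258)])],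
 ⟨p121_k12, nat_lit 0, nat_lit 0, nat_lit 272, nat_lit 0, nat_lit 694821, [nat_lit 1038650000, nat_lit 1397110267, nat_lit 1441792800], [], [nat_lit 20478401109, nat_lit 21672277304, nat_lit 22482975769, nat_lit 23952142290, nat_lit 22655012075, nat_lit 24237185119, nat_lit 24766183434, nat_lit 26133417562], nat_lit 1271250, nat_lit 1271250, nat_lit 1033601, nat_lit 1780500, nat_lit 1100001, nat_lit 1853500, [nat_lit 230000, nat_lit 780000, nat_lit 1100000], [nat_lit 35, nat_lit 40, nat_lit 40, nat_lit 80, nat_lit 22, nat_lit 272, nat_lit 60, nat_lit 11]⟩, ⟨p121_k15, nat_lit 0, nat_lit 0, nat_lit 573, nat_lit 0, nat_lit 1022996, [nat_lit 1119162000, nat_lit 2131250000, nat_lit 3356122000], [], [nat_lit 8064843052, nat_lit 8660083091, nat_lit 8430049672, nat_lit 8919452720, nat_lit 9463588071, nat_lit 9830259713, nat_lit 9490152418, nat_lit 10072039061], nat_lit 1271250, nat_lit 1271250, nat_lit 1033601, nat_lit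 1780500, nat_lit 1271250, nat_lit 1271250, [nat_lit 780000, nat_lit 1435000, nat_lit 1271250], [nat_lit 8, nat_lit 40, nat_lit 40, nat_lit 80, nat_lit 1, nat_lit 373, nat_lit 150, nat_lit 10]⟩,
 ⟨nat_lit 2236, nat_lit 3163, ⟨.ofNat (nat_lit 515097), .ofNat (nat_lit 649422), .ofNat (nat_lit 559279), .ofNat (nat_lit 693606), .ofNat (nat_lit 522299), .ofNat (nat_lit 647962), .ofNat (nat_lit 567721), .ofNat (nat_lit 693384)⟩, ⟨.ofNat (nat_lit 306116), .ofNat (nat_lit 440213), .ofNat (nat_lit 350426), .ofNat (nat_lit 484523), .ofNat (nat_lit 306337), .ofNat (nat_lit 431772), .ofNat (nat_lit 351886), .ofNat (nat_lit 477320)⟩⟩, [⟨nat_lit 0, nat_lit 87, nat_lit 53, nat_lit 100, nat_lit 156593960⟩, ⟨nat_lit 16, nat_lit 62, nat_lit 100, nat_lit 94, nat_lit 336191996⟩, ⟨nat_lit 7, nat_lit 100, nat_lit 100, nat_lit 100, nat_lit 111005585⟩]⟩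
noncomputable def p121_l132 : Lf2 := ⟨nat_lit 0, nat_lit 10, [nat_lit 0, nat_lit 5, nat_lit 5, nat_lit 20], false, nat_lit 20, nat_lit 208, nat_lit 160, nat_lit 336, ⟨nat_lit 259, nat_lit 741, nat_lit 0, nat_lit 7, nat_lit 255, nat_lit 741, nat_lit 88, nat_lit 0, nat_lit 0, nat_lit 0, nat_lit 0, nat_lit 0, nat_lit 44699475, nat_lit 18733567, nat_lit 3566958, nat_lit 4126228, true, false⟩,
 nat_lit 3386, nat_lit 0, nat_lit 0, nat_lit 0, nat_lit 3163, nat_lit 2154, nat_lit 132, nat_lit 0, nat_lit 0, nat_lit 176, nat_lit 0, nat_lit 0, nat_lit 0, nat_lit 0, nat_lit 0, nat_lit 296400, nat_lit 0, nat_lit 0, [(nat_lit 27, [(nat_lit 1, nat_lit 741)])],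
 ⟨p121_k17, nat_lit 0, nat_lit 0, nat_lit 305, nat_lit 0, nat_lit 720718, [nat_lit 759863600, nat_lit 1090418400], [], [nat_lit 22969039226, nat_lit 24770002807, nat_lit 24527493369, nat_lit 26171710694, nat_lit 23966027942, nat_lit 24940213014, nat_lit 25057074605, nat_lit 26037536354], nat_lit 1271250, nat_lit 1271250, nat_lit 1271250, nat_lit 1271250, nat_lit 111251, nat_lit 1474250, [nat_lit 230000, nat_lit 780000], [nat_lit 66, nat_lit 40, nat_lit 40, nat_lit 80, nat_lit 67, nat_lit 272, nat_lit 60, nat_lit 15]⟩, ⟨p121_k15, nat_lit 0, nat_lit 0, nat_lit 612, nat_lit 0, nat_lit 1154044, [nat_lit 850038000, nat_lit 1618750000, nat_lit 2549078000], [], [nat_lit 6945808703, nat_lit 7191507823, nat_lit 7011380280, nat_lit 7230800572, nat_lit 7465834555, nat_lit 7645771420, nat_lit 7471661245, nat_lit 7642584850], nat_lit 1271250, nat_lit 1271250, nat_lit 1271250, nat_lit 1271250, nat_lit 1100001, nat_lit 2607000,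 [nat_lit 780000, nat_lit 1435000, nat_lit 1271250], [nat_lit 8, nat_lit 40, nat_lit 40, nat_lit 80, nat_lit 1, nat_lit 373, nat_lit 150, nat_lit 10]⟩,
 ⟨nat_lit 0, nat_lit 2237, ⟨.ofNat (nat_lit 575619), .ofNat (nat_lit 646249), .ofNat (nat_lit 619314), .ofNat (nat_lit 689944), .ofNat (nat_lit 585925), .ofNat (nat_lit 648136), .ofNat (nat_lit 634072), .ofNat (nat_lit 696283)⟩, ⟨.ofNat (nat_lit 50000), .ofNat (nat_lit 374750), .ofNat (nat_lit 50000), .ofNat (nat_lit 420300), .ofNat (nat_lit 50000), .ofNat (nat_lit 359993), .ofNat (nat_lit 50000), .ofNat (nat_lit 409994)⟩⟩, [⟨nat_lit 0, nat_lit 88, nat_lit 32, nat_lit 100, nat_lit 184300658⟩, ⟨nat_lit 0, nat_lit 92, nat_lit 44, nat_lit 100, nat_lit 178923596⟩, ⟨nat_lit 7, nat_lit 100, nat_lit 100, nat_lit 100, nat_lit 70525411⟩]⟩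
noncomputable def p121_l133 : Lf2 := ⟨nat_lit 0, nat_lit 10, [nat_lit 0, nat_lit 5, nat_lit 5, nat_lit 20], false, nat_lit 8, nat_lit 160, nat_lit 0, nat_lit 160, ⟨nat_lit 864, nat_lit 136, nat_lit 0, nat_lit 7, nat_lit 313, nat_lit 136, nat_lit 70, nat_lit 0, nat_lit 0, nat_lit 0, nat_lit 0, nat_lit 0, nat_lit 39906392, nat_lit 24756320, nat_lit 2337288, nat_lit 4138385, true, true⟩,
 nat_lit 9899, nat_lit 0, nat_lit 0, nat_lit 0, nat_lit 4930, nat_lit 6299, nat_lit 238, nat_lit 0, nat_lit 0, nat_lit 602, nat_lit 0, nat_lit 0, nat_lit 0, nat_lit 0, nat_lit 0, nat_lit 136000, nat_lit 0, nat_lit 0, [(nat_lit 24, [(nat_lit 2, nat_lit 136)])],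
 ⟨p121_k12, nat_lit 0, nat_lit 0, nat_lit 363, nat_lit 0, nat_lit 694821, [nat_lit 1010080000, nat_lit 2771347200, nat_lit 3766028800], [], [nat_lit 26726781251, nat_lit 28621255114, nat_lit 36483018230, nat_lit 37869798332, nat_lit 25588800370, nat_lit 26497054220, nat_lit 31718342457, nat_lit 32940042293], nat_lit 1271250, nat_lit 1271250, nat_lit 1271250, nat_lit 1271250, nat_lit 43600, nat_lit 1100001, [nat_lit 230000, nat_lit 780000, nat_lit 1100000], [nat_lit 35, nat_lit 40, nat_lit 40, nat_lit 80, nat_lit 22, nat_lit 249, nat_lit 40, nat_lit 10]⟩, ⟨p121_k15, nat_lit 0, nat_lit 0, nat_lit 640, nat_lit 0, nat_lit 1022996, [nat_lit 2835648000, nat_lit 5400000000, nat_lit 8503488000], [], [nat_lit 31001715830, nat_lit 31887115210, nat_lit 34527245254, nat_lit 35235311158, nat_lit 27597052250, nat_lit 28342430632, nat_lit 30674202690, nat_lit 31188699750], nat_lit 1271250, nat_lit 1271250, nat_lit 1271250, nat_lit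 1271250, nat_lit 0, nat_lit 1100001, [nat_lit 780000, nat_lit 1435000, nat_lit 1271250], [nat_lit 8, nat_lit 40, nat_lit 40, nat_lit 80, nat_lit 1, nat_lit 373, nat_lit 150, nat_lit 10]⟩,
 ⟨nat_lit 2236, nat_lit 3163, ⟨.ofNat (nat_lit 649422), .ofNat (nat_lit 881194), .ofNat (nat_lit 693606), .ofNat (nat_lit 925504), .ofNat (nat_lit 647962), .ofNat (nat_lit 864770), .ofNat (nat_lit 693384), .ofNat (nat_lit 910319)⟩, ⟨.ofNat (nat_lit 20000), .ofNat (nat_lit 306116), .ofNat (nat_lit 20000), .ofNat (nat_lit 350426), .ofNat (nat_lit 20000), .ofNat (nat_lit 306337), .ofNat (nat_lit 20000), .ofNat (nat_lit 351886)⟩⟩, []⟩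
noncomputable def p121_l134 : Lf2 := ⟨nat_lit 0, nat_lit 10, [nat_lit 0, nat_lit 5, nat_lit 5, nat_lit 20], false, nat_lit 8, nat_lit 160, nat_lit 160, nat_lit 336, ⟨nat_lit 630, nat_lit 370, nat_lit 0, nat_lit 7, nat_lit 314, nat_lit 370, nat_lit 70, nat_lit 0, nat_lit 0, nat_lit 0, nat_lit 0, nat_lit 0, nat_lit 39827169, nat_lit 24839828, nat_lit 2333003, nat_lit 4140295, true, true⟩,
 nat_lit 6411, nat_lit 0, nat_lit 0, nat_lit 0, nat_lit 4518, nat_lit 4079, nat_lit 127, nat_lit 0, nat_lit 0, nat_lit 483, nat_lit 0, nat_lit 0, nat_lit 0, nat_lit 0, nat_lit 0, nat_lit 370000, nat_lit 0, nat_lit 0, [(nat_lit 24, [(nat_lit 2, nat_lit 370)])],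
 ⟨p121_k12, nat_lit 0, nat_lit 0, nat_lit 348, nat_lit 0, nat_lit 651689, [nat_lit 1134100000, nat_lit 1892724000, nat_lit 2179696000], [], [nat_lit 25726905006, nat_lit 26734787161, nat_lit 35305137949, nat_lit 35968446414, nat_lit 23109138712, nat_lit 23580963660, nat_lit 31141081346, nat_lit 31726604553], nat_lit 1271250, nat_lit 1271250, nat_lit 1271250, nat_lit 1271250, nat_lit 43600, nat_lit 1100001, [nat_lit 230000, nat_lit 780000, nat_lit 1100000], [nat_lit 35, nat_lit 40, nat_lit 40, nat_lit 80, nat_lit 22, nat_lit 249, nat_lit 40, nat_lit 10]⟩, ⟨p121_k15, nat_lit 0, nat_lit 0, nat_lit 499, nat_lit 0, nat_lit 959492, [nat_lit 2067660000, nat_lit 3937500000, nat_lit 6200460000], [], [nat_lit 20527935303, nat_lit 21253233924, nat_lit 23203436357, nat_lit 23720732829, nat_lit 22260683605, nat_lit 22748884586, nat_lit 24170833207, nat_lit 24477978320], nat_lit 1271250, nat_lit 1271250, nat_lit 1271250, nat_lit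 1271250, nat_lit 1100001, nat_lit 2607000, [nat_lit 780000, nat_lit 1435000, nat_lit 1271250], [nat_lit 8, nat_lit 40, nat_lit 40, nat_lit 80, nat_lit 1, nat_lit 428, nat_lit 200, nat_lit 11]⟩,
 ⟨nat_lit 2738, nat_lit 3163, ⟨.ofNat (nat_lit 649542), .ofNat (nat_lit 881194), .ofNat (nat_lit 693828), .ofNat (nat_lit 925504), .ofNat (nat_lit 648700), .ofNat (nat_lit 873162), .ofNat (nat_lit 693511), .ofNat (nat_lit 917997)⟩, ⟨.ofNat (nat_lit 20000), .ofNat (nat_lit 306116), .ofNat (nat_lit 20000), .ofNat (nat_lit 350426), .ofNat (nat_lit 20000), .ofNat (nat_lit 306433), .ofNat (nat_lit 20000), .ofNat (nat_lit 351268)⟩⟩, [⟨nat_lit 7, nat_lit 100, nat_lit 100, nat_lit 100, nat_lit 113909508⟩, ⟨nat_lit 22, nat_lit 86, nat_lit 100, nat_lit 86, nat_lit 69558373⟩]⟩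
noncomputable def p121_l135 : Lf2 := ⟨nat_lit 0, nat_lit 10, [nat_lit 0, nat_lit 5, nat_lit 5, nat_lit 20], false, nat_lit 12, nat_lit 160, nat_lit 160, nat_lit 336, ⟨nat_lit 773, nat_lit 227, nat_lit 0, nat_lit 7, nat_lit 311, nat_lit 227, nat_lit 72, nat_lit 0, nat_lit 0, nat_lit 0, nat_lit 0, nat_lit 0, nat_lit 40018280, nat_lit 24534863, nat_lit 2446857, nat_lit 4158534, true, true⟩,
 nat_lit 7866, nat_lit 0, nat_lit 0, nat_lit 0, nat_lit 3645, nat_lit 5005, nat_lit 967, nat_lit 0, nat_lit 0, nat_lit 510, nat_lit 0, nat_lit 0, nat_lit 0, nat_lit 0, nat_lit 0, nat_lit 56750, nat_lit 0, nat_lit 0, [(nat_lit 24, [(nat_lit 0, nat_lit 227)])],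
 ⟨p121_k16, nat_lit 0, nat_lit 0, nat_lit 351, nat_lit 0, nat_lit 665918, [nat_lit 898320400, nat_lit 2847340400, nat_lit 4010995200], [], [nat_lit 24857352964, nat_lit 25747255957, nat_lit 33007593157, nat_lit 33613632642, nat_lit 23236804915, nat_lit 23752765150, nat_lit 30223367924, nat_lit 30761430522], nat_lit 1271250, nat_lit 1271250, nat_lit 1271250, nat_lit 1271250, nat_lit 65850, nat_lit 1100001, [nat_lit 230000, nat_lit 780000, nat_lit 1100000], [nat_lit 35, nat_lit 40, nat_lit 40, nat_lit 80, nat_lit 22, nat_lit 249, nat_lit 40, nat_lit 10]⟩, ⟨p121_k15, nat_lit 0, nat_lit 0, nat_lit 528, nat_lit 0, nat_lit 1022996, [nat_lit 2536986000, nat_lit 4831250000, nat_lit 7607866000], [], [nat_lit 25715435358, nat_lit 26451541186, nat_lit 28444187030, nat_lit 28996360064, nat_lit 27377615652, nat_lit 27912001188, nat_lit 29573718845, nat_lit 29958139373], nat_lit 1271250, nat_lit 1271250, nat_lit 1271250, nat_lit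 1271250, nat_lit 1100001, nat_lit 2607000, [nat_lit 780000, nat_lit 1435000, nat_lit 1271250], [nat_lit 8, nat_lit 40, nat_lit 40, nat_lit 80, nat_lit 1, nat_lit 428, nat_lit 200, nat_lit 11]⟩,
 ⟨nat_lit 2236, nat_lit 2739, ⟨.ofNat (nat_lit 648684), .ofNat (nat_lit 867256), .ofNat (nat_lit 693478), .ofNat (nat_lit 912091), .ofNat (nat_lit 648065), .ofNat (nat_lit 859069), .ofNat (nat_lit 693574), .ofNat (nat_lit 904617)⟩, ⟨.ofNat (nat_lit 30000), .ofNat (nat_lit 306433), .ofNat (nat_lit 30000), .ofNat (nat_lit 351268), .ofNat (nat_lit 30000), .ofNat (nat_lit 306337), .ofNat (nat_lit 30000), .ofNat (nat_lit 351886)⟩⟩, [⟨nat_lit 7, nat_lit 100, nat_lit 100, nat_lit 100, nat_lit 217985275⟩]⟩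
noncomputable def p121_l136 : Lf2 := ⟨nat_lit 0, nat_lit 10, [nat_lit 0, nat_lit 5, nat_lit 5, nat_lit 20], false, nat_lit 20, nat_lit 160, nat_lit 0, nat_lit 336, ⟨nat_lit 365, nat_lit 635, nat_lit 0, nat_lit 7, nat_lit 300, nat_lit 635, nat_lit 76, nat_lit 0, nat_lit 0, nat_lit 0, nat_lit 0, nat_lit 0, nat_lit 40977099, nat_lit 23327351, nat_lit 2695550, nat_lit 4172639, true, true⟩,
 nat_lit 4330, nat_lit 0, nat_lit 0, nat_lit 0, nat_lit 3290, nat_lit 2755, nat_lit 194, nat_lit 0, nat_lit 0, nat_lit 236, nat_lit 0, nat_lit 0, nat_lit 0, nat_lit 0, nat_lit 0, nat_lit 254000, nat_lit 0, nat_lit 0, [(nat_lit 27, [(nat_lit 1, nat_lit 635)])],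
 ⟨p121_k17, nat_lit 0, nat_lit 0, nat_lit 299, nat_lit 0, nat_lit 636601, [nat_lit 785346000, nat_lit 1403924000], [], [nat_lit 24778400855, nat_lit 25617202938, nat_lit 31140421993, nat_lit 31752721109, nat_lit 23858052230, nat_lit 24350755190, nat_lit 29175037284, nat_lit 29719618590], nat_lit 1271250, nat_lit 1271250, nat_lit 1271250, nat_lit 1271250, nat_lit 111251, nat_lit 1100001, [nat_lit 230000, nat_lit 780000], [nat_lit 66, nat_lit 40, nat_lit 40, nat_lit 80, nat_lit 67, nat_lit 249, nat_lit 40, nat_lit 13]⟩, ⟨p121_k15, nat_lit 0, nat_lit 0, nat_lit 639, nat_lit 0, nat_lit 1019352, [nat_lit 1197930000, nat_lit 2281250000, nat_lit 3592330000], [], [nat_lit 12837918780, nat_lit 13026252710, nat_lit 13928567436, nat_lit 14048214442, nat_lit 11914866525, nat_lit 12026035398, nat_lit 12549095089, nat_lit 12616885191], nat_lit 1271250, nat_lit 1271250, nat_lit 1271250, nat_lit 1271250, nat_lit 0, nat_lit 2373000,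 [nat_lit 780000, nat_lit 1435000, nat_lit 1271250], [nat_lit 8, nat_lit 40, nat_lit 40, nat_lit 80, nat_lit 1, nat_lit 428, nat_lit 200, nat_lit 12]⟩,
 ⟨nat_lit 1581, nat_lit 2237, ⟨.ofNat (nat_lit 648016), .ofNat (nat_lit 830561), .ofNat (nat_lit 670745), .ofNat (nat_lit 853335), .ofNat (nat_lit 647799), .ofNat (nat_lit 822729), .ofNat (nat_lit 671069), .ofNat (nat_lit 846044)⟩, ⟨.ofNat (nat_lit 50000), .ofNat (nat_lit 306337), .ofNat (nat_lit 50000), .ofNat (nat_lit 351886), .ofNat (nat_lit 50000), .ofNat (nat_lit 305473), .ofNat (nat_lit 50000), .ofNat (nat_lit 352103)⟩⟩, [⟨nat_lit 22, nat_lit 94, nat_lit 100, nat_lit 92, nat_lit 55263089⟩]⟩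
noncomputable def p121_l137 : Lf2 := ⟨nat_lit 0, nat_lit 10, [nat_lit 0, nat_lit 5, nat_lit 5, nat_lit 20], false, nat_lit 36, nat_lit 160, nat_lit 0, nat_lit 336, ⟨nat_lit 262, nat_lit 738, nat_lit 0, nat_lit 7, nat_lit 293, nat_lit 738, nat_lit 83, nat_lit 0, nat_lit 0, nat_lit 0, nat_lit 0, nat_lit 0, nat_lit 41256288, nat_lit 22615336, nat_lit 3128376, nat_lit 4245106, true, true⟩,
 nat_lit 3160, nat_lit 0, nat_lit 0, nat_lit 0, nat_lit 3024, nat_lit 2010, nat_lit 95, nat_lit 0, nat_lit 0, nat_lit 173, nat_lit 0, nat_lit 0, nat_lit 0, nat_lit 0, nat_lit 0, nat_lit 295200, nat_lit 0, nat_lit 0, [(nat_lit 27, [(nat_lit 1, nat_lit 738)])],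
 ⟨p121_k19, nat_lit 0, nat_lit 0, nat_lit 293, nat_lit 0, nat_lit 653963, [nat_lit 760584800, nat_lit 1099291200], [], [nat_lit 24643661517, nat_lit 25439580236, nat_lit 29727773217, nat_lit 30339793081, nat_lit 25134371088, nat_lit 25612551808, nat_lit 28796949648, nat_lit 29216089837], nat_lit 1271250, nat_lit 1271250, nat_lit 1271250, nat_lit 1271250, nat_lit 205650, nat_lit 1100001, [nat_lit 230000, nat_lit 780000], [nat_lit 66, nat_lit 40, nat_lit 40, nat_lit 80, nat_lit 67, nat_lit 249, nat_lit 40, nat_lit 13]⟩, ⟨p121_k15, nat_lit 0, nat_lit 0, nat_lit 672, nat_lit 0, nat_lit 1090413, [nat_lit 859884000, nat_lit 1637500000, nat_lit 2578604000], [], [nat_lit 9062334481, nat_lit 9197975677, nat_lit 9720046747, nat_lit 9815360320, nat_lit 8392419989, nat_lit 8471969793, nat_lit 8763621576, nat_lit 8813394790], nat_lit 1271250, nat_lit 1271250, nat_lit 1271250, nat_lit 1271250, nat_lit 0, nat_lit 2373000, [nat_lit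 780000, nat_lit 1435000, nat_lit 1271250], [nat_lit 8, nat_lit 40, nat_lit 40, nat_lit 80, nat_lit 1, nat_lit 401, nat_lit 175, nat_lit 11]⟩,
 ⟨nat_lit 0, nat_lit 1582, ⟨.ofNat (nat_lit 646579), .ofNat (nat_lit 800872), .ofNat (nat_lit 669237), .ofNat (nat_lit 824188), .ofNat (nat_lit 648683), .ofNat (nat_lit 789996), .ofNat (nat_lit 673026), .ofNat (nat_lit 814997)⟩, ⟨.ofNat (nat_lit 90000), .ofNat (nat_lit 305469), .ofNat (nat_lit 90000), .ofNat (nat_lit 352101), .ofNat (nat_lit 90000), .ofNat (nat_lit 299995), .ofNat (nat_lit 90000), .ofNat (nat_lit 349997)⟩⟩, [⟨nat_lit 3, nat_lit 100, nat_lit 26, nat_lit 85, nat_lit 50116184⟩, ⟨nat_lit 22, nat_lit 100, nat_lit 98, nat_lit 98, nat_lit 35428751⟩]⟩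
noncomputable def p121_l138 : Lf2 := ⟨nat_lit 0, nat_lit 10, [nat_lit 0, nat_lit 5, nat_lit 5, nat_lit 20], false, nat_lit 20, nat_lit 160, nat_lit 0, nat_lit 320, ⟨nat_lit 1000, nat_lit 0, nat_lit 0, nat_lit 0, nat_lit 0, nat_lit 0, nat_lit 0, nat_lit 0, nat_lit 0, nat_lit 0, nat_lit 0, nat_lit 0, nat_lit 0, nat_lit 0, nat_lit 0, nat_lit 0, false, false⟩,
 nat_lit 8598, nat_lit 0, nat_lit 0, nat_lit 0, nat_lit 3833, nat_lit 5952, nat_lit 422, nat_lit 0, nat_lit 0, nat_lit 1259, nat_lit 0, nat_lit 0, nat_lit 0, nat_lit 0, nat_lit 0, nat_lit 0, nat_lit 0, nat_lit 0, [],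
 ⟨p121_k17, nat_lit 0, nat_lit 0, nat_lit 324, nat_lit 0, nat_lit 720718, [nat_lit 938000000, nat_lit 3282000000], [], [nat_lit 25851178534, nat_lit 27671531154, nat_lit 33344133869, nat_lit 34610759602, nat_lit 24460260400, nat_lit 25484056118, nat_lit 30592855746, nat_lit 31718335578], nat_lit 1271250, nat_lit 1271250, nat_lit 1271250, nat_lit 1271250, nat_lit 111251, nat_lit 1100001, [nat_lit 230000, nat_lit 780000], [nat_lit 66, nat_lit 40, nat_lit 40, nat_lit 80, nat_lit 67, nat_lit 249, nat_lit 40, nat_lit 13]⟩, ⟨p121_k13, nat_lit 0, nat_lit 0, nat_lit 584, nat_lit 0, nat_lit 1038082, [nat_lit 3282000000, nat_lit 6250000000, nat_lit 7968000000], [], [nat_lit 29348859083, nat_lit 29955261579, nat_lit 34693254600, nat_lit 35975002256, nat_lit 29179759545, nat_lit 29583430713, nat_lit 32823464712, nat_lit 33584695024], nat_lit 1271250, nat_lit 1271250, nat_lit 1271250, nat_lit 1271250, nat_lit 0, nat_lit 2260000,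 [nat_lit 780000, nat_lit 1435000, nat_lit 1271250], [nat_lit 18, nat_lit 40, nat_lit 40, nat_lit 80, nat_lit 2, nat_lit 317, nat_lit 100, nat_lit 10]⟩,
 zbF0, [⟨nat_lit 0, nat_lit 87, nat_lit 32, nat_lit 100, nat_lit 46636471⟩, ⟨nat_lit 4, nat_lit 100, nat_lit 32, nat_lit 88, nat_lit 206296173⟩, ⟨nat_lit 7, nat_lit 100, nat_lit 93, nat_lit 97, nat_lit 164211984⟩]⟩
noncomputable def p121_l139 : Lf2 := ⟨nat_lit 0, nat_lit 10, [nat_lit 0, nat_lit 5, nat_lit 5, nat_lit 20], false, nat_lit 160, nat_lit 248, nat_lit 0, nat_lit 336, ⟨nat_lit 336, nat_lit 664, nat_lit 0, nat_lit 7, nat_lit 288, nat_lit 664, nat_lit 157, nat_lit 0, nat_lit 0, nat_lit 0, nat_lit 0, nat_lit 0, nat_lit 38355807, nat_lit 20742196, nat_lit 7901997, nat_lit 5013212, true, false⟩,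
 nat_lit 4180, nat_lit 0, nat_lit 0, nat_lit 0, nat_lit 3640, nat_lit 2660, nat_lit 124, nat_lit 0, nat_lit 0, nat_lit 229, nat_lit 0, nat_lit 0, nat_lit 0, nat_lit 0, nat_lit 0, nat_lit 358000, nat_lit 0, nat_lit 0, [(nat_lit 24, [(nat_lit 1, nat_lit 510), (nat_lit 2, nat_lit 154)])],
 ⟨p121_k12, nat_lit 0, nat_lit 0, nat_lit 259, nat_lit 0, nat_lit 644924, [nat_lit 973720000, nat_lit 1538580800, nat_lit 1739867200], [], [nat_lit 23541878400, nat_lit 24524943440, nat_lit 26039483360, nat_lit 27174200160, nat_lit 25299139665, nat_lit 26192673768, nat_lit 27746344960, nat_lit 28861220633], nat_lit 1271250, nat_lit 1271250, nat_lit 1271250, nat_lit 1271250, nat_lit 1100001, nat_lit 1853500, [nat_lit 230000, nat_lit 780000, nat_lit 1100000], [nat_lit 35, nat_lit 40, nat_lit 40, nat_lit 80, nat_lit 22, nat_lit 203, nat_lit 0, nat_lit 7]⟩, ⟨p121_k15, nat_lit 0, nat_lit 0, nat_lit 613, nat_lit 0, nat_lit 949532, [nat_lit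 1102752000, nat_lit 2100000000, nat_lit 3306912000], [], [nat_lit 11246944153, nat_lit 11422046801, nat_lit 11789043977, nat_lit 11923721457, nat_lit 10356478855, nat_lit 10457867471, nat_lit 10638157600, nat_lit 10710814924], nat_lit 1271250, nat_lit 1271250, nat_lit 1271250, nat_lit 1271250, nat_lit 0, nat_lit 2373000, [nat_lit 780000, nat_lit 1435000, nat_lit 1271250], [nat_lit 8, nat_lit 40, nat_lit 40, nat_lit 80, nat_lit 1, nat_lit 401, nat_lit 175, nat_lit 11]⟩,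
 ⟨nat_lit 2236, nat_lit 3163, ⟨.ofNat (nat_lit 649422), .ofNat (nat_lit 771478), .ofNat (nat_lit 671514), .ofNat (nat_lit 793619), .ofNat (nat_lit 647962), .ofNat (nat_lit 762142), .ofNat (nat_lit 670673), .ofNat (nat_lit 784902)⟩, ⟨.ofNat (nat_lit 306116), .ofNat (nat_lit 440213), .ofNat (nat_lit 350426), .ofNat (nat_lit 484523), .ofNat (nat_lit 306337), .ofNat (nat_lit 431772), .ofNat (nat_lit 351886), .ofNat (nat_lit 477320)⟩⟩, [⟨nat_lit 4, nat_lit 100, nat_lit 53, nat_lit 87, nat_lit 387813731⟩, ⟨nat_lit 19, nat_lit 100, nat_lit 94, nat_lit 97, nat_lit 46978475⟩]⟩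
noncomputable def p121_l140 : Lf2 := ⟨nat_lit 0, nat_lit 10, [nat_lit 0, nat_lit 5, nat_lit 5, nat_lit 20], false, nat_lit 160, nat_lit 248, nat_lit 16, nat_lit 336, ⟨nat_lit 344, nat_lit 656, nat_lit 0, nat_lit 8, nat_lit 330, nat_lit 656, nat_lit 157, nat_lit 0, nat_lit 0, nat_lit 0, nat_lit 0, nat_lit 0, nat_lit 35098048, nat_lit 24489036, nat_lit 7412916, nat_lit 5090510, true, true⟩,
 nat_lit 4016, nat_lit 0, nat_lit 0, nat_lit 0, nat_lit 3497, nat_lit 2555, nat_lit 110, nat_lit 0, nat_lit 0, nat_lit 218, nat_lit 0, nat_lit 0, nat_lit 0, nat_lit 0, nat_lit 0, nat_lit 345800, nat_lit 0, nat_lit 0, [(nat_lit 24, [(nat_lit 1, nat_lit 517), (nat_lit 2, nat_lit 139)])],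
 ⟨p121_k12, nat_lit 0, nat_lit 0, nat_lit 271, nat_lit 0, nat_lit 644924, [nat_lit 965140001, nat_lit 1578910134, nat_lit 1815420000], [], [nat_lit 26952159938, nat_lit 27767263460, nat_lit 29325281721, nat_lit 30323405812, nat_lit 28369087411, nat_lit 29183660232, nat_lit 30668813379, nat_lit 31593765544], nat_lit 1271250, nat_lit 1271250, nat_lit 1271250, nat_lit 1271250, nat_lit 1100001, nat_lit 1853500, [nat_lit 230000, nat_lit 780000, nat_lit 1100000], [nat_lit 35, nat_lit 40, nat_lit 40, nat_lit 80, nat_lit 22, nat_lit 203, nat_lit 0, nat_lit 6]⟩, ⟨p121_k15, nat_lit 0, nat_lit 0, nat_lit 595, nat_lit 0, nat_lit 949532, [nat_lit 1129008000, nat_lit 2150000000, nat_lit 3385648000], [], [nat_lit 12629506103, nat_lit 12765036846, nat_lit 13268718138, nat_lit 13373071139, nat_lit 11734584024, nat_lit 11811730671, nat_lit 12152557051, nat_lit 12224191624], nat_lit 1271250, nat_lit 1271250, nat_lit 1271250, nat_lit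 1271250, nat_lit 88400, nat_lit 2396400, [nat_lit 780000, nat_lit 1435000, nat_lit 1271250], [nat_lit 8, nat_lit 40, nat_lit 40, nat_lit 80, nat_lit 1, nat_lit 317, nat_lit 100, nat_lit 8]⟩,
 ⟨nat_lit 2236, nat_lit 3163, ⟨.ofNat (nat_lit 771478), .ofNat (nat_lit 869004), .ofNat (nat_lit 793619), .ofNat (nat_lit 891158), .ofNat (nat_lit 762142), .ofNat (nat_lit 853367), .ofNat (nat_lit 784902), .ofNat (nat_lit 876141)⟩, ⟨.ofNat (nat_lit 306116), .ofNat (nat_lit 440213), .ofNat (nat_lit 350426), .ofNat (nat_lit 484523), .ofNat (nat_lit 306337), .ofNat (nat_lit 431772), .ofNat (nat_lit 351886), .ofNat (nat_lit 477320)⟩⟩, [⟨nat_lit 13, nat_lit 59, nat_lit 58, nat_lit 100, nat_lit 115877715⟩, ⟨nat_lit 16, nat_lit 53, nat_lit 100, nat_lit 87, nat_lit 347178035⟩, ⟨nat_lit 19, nat_lit 100, nat_lit 94, nat_lit 97, nat_lit 49873083⟩]⟩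
noncomputable def p121_l141 : Lf2 := ⟨nat_lit 0, nat_lit 10, [nat_lit 0, nat_lit 5, nat_lit 5, nat_lit 20], false, nat_lit 160, nat_lit 248, nat_lit 0, nat_lit 320, ⟨nat_lit 1000, nat_lit 0, nat_lit 0, nat_lit 0, nat_lit 0, nat_lit 0, nat_lit 0, nat_lit 0, nat_lit 0, nat_lit 0, nat_lit 0, nat_lit 0, nat_lit 0, nat_lit 0, nat_lit 0, nat_lit 0, false, false⟩,
 nat_lit 8276, nat_lit 0, nat_lit 0, nat_lit 0, nat_lit 5838, nat_lit 5729, nat_lit 41, nat_lit 0, nat_lit 0, nat_lit 1493, nat_lit 0, nat_lit 0, nat_lit 0, nat_lit 0, nat_lit 0, nat_lit 0, nat_lit 0, nat_lit 0, [],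
 ⟨p121_k12, nat_lit 0, nat_lit 0, nat_lit 287, nat_lit 0, nat_lit 694821, [nat_lit 938000000, nat_lit 3282000000, nat_lit 4688000000], [], [nat_lit 25028127615, nat_lit 26235884083, nat_lit 32990558690, nat_lit 34323892768, nat_lit 26609808404, nat_lit 27648189531, nat_lit 33920993674, nat_lit 35061950657], nat_lit 1271250, nat_lit 1271250, nat_lit 1271250, nat_lit 1271250, nat_lit 1100001, nat_lit 1853500, [nat_lit 230000, nat_lit 780000, nat_lit 1100000], [nat_lit 35, nat_lit 40, nat_lit 40, nat_lit 80, nat_lit 22, nat_lit 203, nat_lit 0, nat_lit 7]⟩, ⟨p121_k13, nat_lit 0, nat_lit 0, nat_lit 539, nat_lit 0, nat_lit 920202, [nat_lit 3282000000, nat_lit 6250000000, nat_lit 7968000000], [], [nat_lit 28462676842, nat_lit 29147822418, nat_lit 35348923237, nat_lit 36539950120, nat_lit 29081318374, nat_lit 29480441106, nat_lit 33334808885, nat_lit 34050530188], nat_lit 1271250, nat_lit 1271250, nat_lit 1271250, nat_lit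 1271250, nat_lit 0, nat_lit 2260000, [nat_lit 780000, nat_lit 1435000, nat_lit 1271250], [nat_lit 18, nat_lit 40, nat_lit 40, nat_lit 80, nat_lit 2, nat_lit 317, nat_lit 100, nat_lit 10]⟩,
 zbF0, [⟨nat_lit 4, nat_lit 100, nat_lit 53, nat_lit 87, nat_lit 539752749⟩, ⟨nat_lit 19, nat_lit 93, nat_lit 100, nat_lit 97, nat_lit 162494235⟩]⟩
noncomputable def p121_l142 : Lf2 := ⟨nat_lit 0, nat_lit 10, [nat_lit 0, nat_lit 5, nat_lit 5, nat_lit 20], false, nat_lit 160, nat_lit 208, nat_lit 0, nat_lit 336, ⟨nat_lit 265, nat_lit 735, nat_lit 0, nat_lit 7, nat_lit 298, nat_lit 735, nat_lit 144, nat_lit 0, nat_lit 0, nat_lit 0, nat_lit 0, nat_lit 0, nat_lit 38181872, nat_lit 21981114, nat_lit 6837014, nat_lit 4915533, true, true⟩,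
 nat_lit 3140, nat_lit 0, nat_lit 0, nat_lit 0, nat_lit 2934, nat_lit 1998, nat_lit 95, nat_lit 0, nat_lit 0, nat_lit 160, nat_lit 0, nat_lit 0, nat_lit 0, nat_lit 0, nat_lit 0, nat_lit 294000, nat_lit 0, nat_lit 0, [(nat_lit 27, [(nat_lit 1, nat_lit 735)])],
 ⟨p121_k17, nat_lit 0, nat_lit 0, nat_lit 252, nat_lit 0, nat_lit 680980, [nat_lit 761306001, nat_lit 1108164000], [], [nat_lit 24381998216, nat_lit 25375732892, nat_lit 28688221667, nat_lit 29728233922, nat_lit 25386143346, nat_lit 26315667846, nat_lit 29450290360, nat_lit 30419923315], nat_lit 1271250, nat_lit 1271250, nat_lit 1271250, nat_lit 1271250, nat_lit 1100001, nat_lit 1511000, [nat_lit 230000, nat_lit 780000], [nat_lit 66, nat_lit 40, nat_lit 40, nat_lit 80, nat_lit 67, nat_lit 203, nat_lit 0, nat_lit 9]⟩, ⟨p121_k15, nat_lit 0, nat_lit 0, nat_lit 672, nat_lit 0, nat_lit 1090413, [nat_lit 869730000, nat_lit 1656250000, nat_lit 2608130000], [], [nat_lit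 9402063396, nat_lit 9538768152, nat_lit 10193779812, nat_lit 10280547284, nat_lit 8679187177, nat_lit 8742137928, nat_lit 9122032279, nat_lit 9167084787], nat_lit 1271250, nat_lit 1271250, nat_lit 1271250, nat_lit 1271250, nat_lit 0, nat_lit 2373000, [nat_lit 780000, nat_lit 1435000, nat_lit 1271250], [nat_lit 8, nat_lit 40, nat_lit 40, nat_lit 80, nat_lit 1, nat_lit 428, nat_lit 200, nat_lit 12]⟩,
 ⟨nat_lit 0, nat_lit 2237, ⟨.ofNat (nat_lit 646249), .ofNat (nat_lit 830557), .ofNat (nat_lit 668096), .ofNat (nat_lit 853333), .ofNat (nat_lit 648136), .ofNat (nat_lit 809995), .ofNat (nat_lit 672209), .ofNat (nat_lit 834997)⟩, ⟨.ofNat (nat_lit 306334), .ofNat (nat_lit 374750), .ofNat (nat_lit 351885), .ofNat (nat_lit 420300), .ofNat (nat_lit 299996), .ofNat (nat_lit 359993), .ofNat (nat_lit 349998), .ofNat (nat_lit 409994)⟩⟩, [⟨nat_lit 13, nat_lit 50, nat_lit 65, nat_lit 100, nat_lit 41799952⟩, ⟨nat_lit 16, nat_lit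 44, nat_lit 100, nat_lit 92, nat_lit 301777472⟩, ⟨nat_lit 4, nat_lit 100, nat_lit 32, nat_lit 88, nat_lit 86118483⟩, ⟨nat_lit 19, nat_lit 100, nat_lit 94, nat_lit 97, nat_lit 34586643⟩]⟩
noncomputable def p121_l143 : Lf2 := ⟨nat_lit 0, nat_lit 10, [nat_lit 0, nat_lit 5, nat_lit 5, nat_lit 20], false, nat_lit 160, nat_lit 208, nat_lit 0, nat_lit 320, ⟨nat_lit 1000, nat_lit 0, nat_lit 0, nat_lit 0, nat_lit 0, nat_lit 0, nat_lit 0, nat_lit 0, nat_lit 0, nat_lit 0, nat_lit 0, nat_lit 0, nat_lit 0, nat_lit 0, nat_lit 0, nat_lit 0, false, false⟩,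
 nat_lit 8707, nat_lit 0, nat_lit 0, nat_lit 0, nat_lit 3950, nat_lit 6027, nat_lit 209, nat_lit 0, nat_lit 0, nat_lit 1423, nat_lit 0, nat_lit 0, nat_lit 0, nat_lit 0, nat_lit 0, nat_lit 0, nat_lit 0, nat_lit 0, [],
 ⟨p121_k17, nat_lit 0, nat_lit 0, nat_lit 264, nat_lit 0, nat_lit 720718, [nat_lit 938000000, nat_lit 3282000000], [], [nat_lit 24144711825, nat_lit 25598068000, nat_lit 30762009900, nat_lit 31902758700, nat_lit 25118780565, nat_lit 26598151481, nat_lit 31366798530, nat_lit 32426582340], nat_lit 1271250, nat_lit 1271250, nat_lit 1271250, nat_lit 1271250, nat_lit 1100001, nat_lit 1511000, [nat_lit 230000, nat_lit 780000], [nat_lit 66, nat_lit 40, nat_lit 40, nat_lit 80, nat_lit 67, nat_lit 203, nat_lit 0, nat_lit 9]⟩, ⟨p121_k13, nat_lit 0, nat_lit 0, nat_lit 584, nat_lit 0, nat_lit 1038082, [nat_lit 3282000000, nat_lit 6250000000, nat_lit 7968000000], [], [nat_lit 28041268133, nat_lit 28649935479,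 nat_lit 34879839600, nat_lit 36169576856, nat_lit 28413856545, nat_lit 28817916513, nat_lit 32901858912, nat_lit 33666112174], nat_lit 1271250, nat_lit 1271250, nat_lit 1271250, nat_lit 1271250, nat_lit 0, nat_lit 2260000, [nat_lit 780000, nat_lit 1435000, nat_lit 1271250], [nat_lit 18, nat_lit 40, nat_lit 40, nat_lit 80, nat_lit 2, nat_lit 317, nat_lit 100, nat_lit 10]⟩,
 zbF0, [⟨nat_lit 16, nat_lit 44, nat_lit 100, nat_lit 92, nat_lit 55696454⟩, ⟨nat_lit 4, nat_lit 100, nat_lit 32, nat_lit 88, nat_lit 843933478⟩, ⟨nat_lit 19, nat_lit 94, nat_lit 88, nat_lit 100, nat_lit 26771717⟩, ⟨nat_lit 7, nat_lit 100, nat_lit 93, nat_lit 97, nat_lit 134342086⟩]⟩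
noncomputable def b_V_900_700_20_7 : St := ⟨true, nat_lit 1, nat_lit 2, nat_lit 1, nat_lit 120, nat_lit 360, nat_lit 400, nat_lit 280, nat_lit 320, nat_lit 152, nat_lit 392, nat_lit 80, nat_lit 120, nat_lit 8, nat_lit 248, nat_lit 0, nat_lit 336, nat_lit 0, nat_lit 40, nat_lit 0, nat_lit 0, nat_lit 0, nat_lit 0⟩
theorem d_V_900_700_20_7 (h : EB TB.env) : Dead b_V_900_700_20_7 := chkB_sound0 h (T :=
(.st (nat_lit 1)
(.spl (nat_lit 2) (nat_lit 240)
(.spl (nat_lit 5) (nat_lit 160)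
(.leaf p121_l120)
(.spl (nat_lit 0) (nat_lit 380)
(.leaf p121_l121)
(.trZ (nat_lit 0) (nat_lit 92) (nat_lit 44) (nat_lit 100) (nat_lit 192) (.trZ (nat_lit 3) (nat_lit 100) (nat_lit 54) (nat_lit 57) (nat_lit 20) (.trX (nat_lit 16) (nat_lit 44) (nat_lit 100) (nat_lit 92) (nat_lit 208) (.leaf p121_l122))))))
(.spl (nat_lit 0) (nat_lit 380)
(.spl (nat_lit 4) (nat_lit 160)
(.spl (nat_lit 0) (nat_lit 370)
(.leaf p121_l123)
(.trX (nat_lit 13) (nat_lit 66) (nat_lit 45) (nat_lit 100) (nat_lit 388) (.trZ (nat_lit 3) (nat_lit 100) (nat_lit 66) (nat_lit 45) (nat_lit 12) (.leaf p121_l124))))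
(.spl (nat_lit 1) (nat_lit 300)
(.trX (nat_lit 13) (nat_lit 69) (nat_lit 45) (nat_lit 100) (nat_lit 384) (.leaf p121_l125))
(.trX (nat_lit 19) (nat_lit 94) (nat_lit 88) (nat_lit 100) (nat_lit 320) (.leaf p121_l126))))
(.trX (nat_lit 13) (nat_lit 54) (nat_lit 57) (nat_lit 100) (nat_lit 380) (.trZ (nat_lit 3) (nat_lit 100) (nat_lit 54) (nat_lit 57) (nat_lit 20) (.trX (nat_lit 16) (nat_lit 44) (nat_lit 100) (nat_lit 92) (nat_lit 208) (.leaf p121_l127))))))
(.spl (nat_lit 2) (nat_lit 240)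
(.spl (nat_lit 5) (nat_lit 160)
(.spl (nat_lit 0) (nat_lit 380)
(.leaf p121_l128)
(.trZ (nat_lit 0) (nat_lit 92) (nat_lit 44) (nat_lit 100) (nat_lit 192) (.trZ (nat_lit 3) (nat_lit 100) (nat_lit 54) (nat_lit 57) (nat_lit 20) (.trX (nat_lit 16) (nat_lit 44) (nat_lit 100) (nat_lit 92) (nat_lit 208) (.leaf p121_l129)))))
(.spl (nat_lit 0) (nat_lit 380)
(.spl (nat_lit 4) (nat_lit 160)
(.leaf p121_l130)
(.leaf p121_l131))
(.trZ (nat_lit 0) (nat_lit 92) (nat_lit 44) (nat_lit 100) (nat_lit 192) (.trZ (nat_lit 3) (nat_lit 100) (nat_lit 54) (nat_lit 57) (nat_lit 20) (.trX (nat_lit 16) (nat_lit 44) (nat_lit 100) (nat_lit 92) (nat_lit 208) (.leaf p121_l132))))))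
(.spl (nat_lit 4) (nat_lit 160)
(.spl (nat_lit 0) (nat_lit 380)
(.spl (nat_lit 5) (nat_lit 160)
(.leaf p121_l133)
(.spl (nat_lit 0) (nat_lit 370)
(.leaf p121_l134)
(.trX (nat_lit 13) (nat_lit 66) (nat_lit 45) (nat_lit 100) (nat_lit 388) (.trZ (nat_lit 3) (nat_lit 100) (nat_lit 66) (nat_lit 45) (nat_lit 12) (.leaf p121_l135)))))
(.trX (nat_lit 13) (nat_lit 54) (nat_lit 57) (nat_lit 100) (nat_lit 380) (.trZ (nat_lit 3) (nat_lit 100) (nat_lit 54) (nat_lit 57) (nat_lit 20) (.spl (nat_lit 1) (nat_lit 300)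
(.trX (nat_lit 13) (nat_lit 50) (nat_lit 65) (nat_lit 100) (nat_lit 368) (.spl (nat_lit 0) (nat_lit 390)
(.leaf p121_l136)
(.trX (nat_lit 13) (nat_lit 36) (nat_lit 77) (nat_lit 100) (nat_lit 352) (.trZ (nat_lit 3) (nat_lit 100) (nat_lit 39) (nat_lit 72) (nat_lit 36) (.leaf p121_l137)))))
(.trX (nat_lit 19) (nat_lit 94) (nat_lit 88) (nat_lit 100) (nat_lit 320) (.leaf p121_l138))))))
(.spl (nat_lit 0) (nat_lit 380)
(.spl (nat_lit 1) (nat_lit 300)
(.trX (nat_lit 13) (nat_lit 69) (nat_lit 45) (nat_lit 100) (nat_lit 384) (.spl (nat_lit 2) (nat_lit 320)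
(.leaf p121_l139)
(.trZ (nat_lit 9) (nat_lit 100) (nat_lit 82) (nat_lit 44) (nat_lit 16) (.leaf p121_l140))))
(.trX (nat_lit 19) (nat_lit 94) (nat_lit 88) (nat_lit 100) (nat_lit 320) (.leaf p121_l141)))
(.trX (nat_lit 13) (nat_lit 54) (nat_lit 57) (nat_lit 100) (nat_lit 380) (.trX (nat_lit 16) (nat_lit 44) (nat_lit 100) (nat_lit 92) (nat_lit 208) (.spl (nat_lit 1) (nat_lit 300)
(.trX (nat_lit 13) (nat_lit 50) (nat_lit 65) (nat_lit 100) (nat_lit 368) (.leaf p121_l142))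
(.trX (nat_lit 19) (nat_lit 94) (nat_lit 88) (nat_lit 100) (nat_lit 320) (.leaf p121_l143)))))))))) (by decide +kernel)

end B2
end Pool.Agent.Lib.MP_6947cd_al
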