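import Pool.Agent.Lib.MP_6947cd_al.ZB.Pre

/-!
Problem MP_6947cd_al (Chollet).  Case B, second entry in [2/5, 17/20]: certificates of the tree, part P122 (generated).
-/

set_option autoImplicit false
set_option linter.all false

namespace Pool.Agent.Lib.MP_6947cd_al
namespace B2

open Ent Fr B1 PkA

noncomputable def p122_k0 : C1.Kn := ⟨[nat_lit 20, nat_lit 60, nat_lit 80], [nat_lit 0, nat_lit 0, nat_lit 1613], [(nat_lit 0, nat_lit 0, nat_lit 0), (nat_lit 0, nat_lit 0, nat_lit 0), (nat_lit 1000, nat_lit 614, nat_lit 668)], (nat_lit 63, nat_lit 100, nat_lit 62)⟩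
noncomputable def p122_k1 : C1.Kn := ⟨[nat_lit 60, nat_lit 100, nat_lit 140], [nat_lit 0, nat_lit 0, nat_lit 2047], [(nat_lit 0, nat_lit 0, nat_lit 0), (nat_lit 0, nat_lit 0, nat_lit 0), (nat_lit 1000, nat_lit 993, nat_lit 781)], (nat_lit 94, nat_lit 100, nat_lit 62)⟩
noncomputable def p122_k2 : C1.Kn := ⟨[nat_lit 60, nat_lit 100, nat_lit 120], [nat_lit 0, nat_lit 609, nat_lit 1609], [(nat_lit 0, nat_lit 0, nat_lit 0), (nat_lit 1000, nat_lit 905, nat_lit 238), (nat_lit 1000, nat_lit 882, nat_lit 668)], (nat_lit 87, nat_lit 100, nat_lit 60)⟩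
noncomputable def p122_k3 : C1.Kn := ⟨[nat_lit 20, nat_lit 60, nat_lit 80], [nat_lit 0, nat_lit 698, nat_lit 2008], [(nat_lit 0, nat_lit 0, nat_lit 0), (nat_lit 1000, nat_lit 782, nat_lit 272), (nat_lit 1000, nat_lit 540, nat_lit 733)], (nat_lit 57, nat_lit 100, nat_lit 64)⟩
noncomputable def p122_k4 : C1.Kn := ⟨[nat_lit 20, nat_lit 60], [nat_lit 0, nat_lit 1415], [(nat_lit 0, nat_lit 0, nat_lit 0), (nat_lit 1000, nat_lit 558, nat_lit 551)], (nat_lit 49, nat_lit 100, nat_lit 68)⟩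
noncomputable def p122_k5 : C1.Kn := ⟨[nat_lit 20, nat_lit 80, nat_lit 100], [nat_lit 0, nat_lit 0, nat_lit 2559], [(nat_lit 0, nat_lit 0, nat_lit 0), (nat_lit 0, nat_lit 0, nat_lit 0), (nat_lit 1000, nat_lit 600, nat_lit 787)], (nat_lit 60, nat_lit 100, nat_lit 80)⟩
noncomputable def p122_k6 : C1.Kn := ⟨[nat_lit 60, nat_lit 120, nat_lit 160], [nat_lit 0, nat_lit 0, nat_lit 3243], [(nat_lit 0, nat_lit 0, nat_lit 0), (nat_lit 0, nat_lit 0, nat_lit 0), (nat_lit 878, nat_lit 1000, nat_lit 945)], (nat_lit 100, nat_lit 95, nat_lit 87)⟩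
noncomputable def p122_k7 : C1.Kn := ⟨[nat_lit 20, nat_lit 80, nat_lit 100], [nat_lit 0, nat_lit 2121, nat_lit 3610], [(nat_lit 0, nat_lit 0, nat_lit 0), (nat_lit 1000, nat_lit 558, nat_lit 551), (nat_lit 1000, nat_lit 436, nat_lit 895)], (nat_lit 44, nat_lit 100, nat_lit 82)⟩
noncomputable def p122_k8 : C1.Kn := ⟨[nat_lit 20, nat_lit 60, nat_lit 100], [nat_lit 0, nat_lit 0, nat_lit 2559], [(nat_lit 0, nat_lit 0, nat_lit 0), (nat_lit 0, nat_lit 0, nat_lit 0), (nat_lit 1000, nat_lit 600, nat_lit 787)], (nat_lit 60, nat_lit 100, nat_lit 80)⟩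
noncomputable def p122_k9 : C1.Kn := ⟨[nat_lit 60, nat_lit 100, nat_lit 160], [nat_lit 0, nat_lit 0, nat_lit 3069], [(nat_lit 0, nat_lit 0, nat_lit 0), (nat_lit 0, nat_lit 0, nat_lit 0), (nat_lit 1000, nat_lit 999, nat_lit 798)], (nat_lit 100, nat_lit 95, nat_lit 87)⟩
noncomputable def p122_k10 : C1.Kn := ⟨[nat_lit 20, nat_lit 60, nat_lit 100], [nat_lit 0, nat_lit 1415, nat_lit 3591], [(nat_lit 0, nat_lit 0, nat_lit 0), (nat_lit 1000, nat_lit 558, nat_lit 551), (nat_lit 1000, nat_lit 439, nat_lit 849)], (nat_lit 44, nat_lit 100, nat_lit 82)⟩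
noncomputable def p122_k11 : C1.Kn := ⟨[nat_lit 60, nat_lit 100, nat_lit 140], [nat_lit 0, nat_lit 609, nat_lit 2558], [(nat_lit 0, nat_lit 0, nat_lit 0), (nat_lit 1000, nat_lit 905, nat_lit 238), (nat_lit 1000, nat_lit 904, nat_lit 760)], (nat_lit 94, nat_lit 100, nat_lit 87)⟩
noncomputable def p122_k12 : C1.Kn := ⟨[nat_lit 20, nat_lit 100], [nat_lit 0, nat_lit 0], [(nat_lit 0, nat_lit 0, nat_lit 0), (nat_lit 0, nat_lit 0, nat_lit 0)], (nat_lit 60, nat_lit 100, nat_lit 80)⟩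
noncomputable def p122_k13 : C1.Kn := ⟨[nat_lit 20, nat_lit 60, nat_lit 100], [nat_lit 0, nat_lit 698, nat_lit 3028], [(nat_lit 0, nat_lit 0, nat_lit 0), (nat_lit 1000, nat_lit 782, nat_lit 272), (nat_lit 1000, nat_lit 527, nat_lit 841)], (nat_lit 53, nat_lit 100, nat_lit 80)⟩
noncomputable def p122_k14 : C1.Kn := ⟨[nat_lit 20, nat_lit 60, nat_lit 100], [nat_lit 0, nat_lit 1056, nat_lit 3301], [(nat_lit 0, nat_lit 0, nat_lit 0), (nat_lit 1000, nat_lit 671, nat_lit 411), (nat_lit 1000, nat_lit 484, nat_lit 867)], (nat_lit 49, nat_lit 100, nat_lit 81)⟩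
noncomputable def p122_k15 : C1.Kn := ⟨[nat_lit 60, nat_lit 100, nat_lit 160], [nat_lit 0, nat_lit 302, nat_lit 3303], [(nat_lit 0, nat_lit 0, nat_lit 0), (nat_lit 1000, nat_lit 953, nat_lit 118), (nat_lit 1000, nat_lit 952, nat_lit 781)], (nat_lit 100, nat_lit 100, nat_lit 89)⟩
noncomputable def p122_k16 : C1.Kn := ⟨[nat_lit 20, nat_lit 60, nat_lit 80], [nat_lit 0, nat_lit 2136, nat_lit 3185], [(nat_lit 0, nat_lit 0, nat_lit 0), (nat_lit 1000, nat_lit 343, nat_lit 808), (nat_lit 1000, nat_lit 338, nat_lit 820)], (nat_lit 33, nat_lit 100, nat_lit 84)⟩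
noncomputable def p122_k17 : C1.Kn := ⟨[nat_lit 60, nat_lit 100, nat_lit 140], [nat_lit 0, nat_lit 909, nat_lit 2819], [(nat_lit 0, nat_lit 0, nat_lit 0), (nat_lit 1000, nat_lit 858, nat_lit 354), (nat_lit 1000, nat_lit 858, nat_lit 746)], (nat_lit 89, nat_lit 100, nat_lit 85)⟩
noncomputable def p122_k18 : C1.Kn := ⟨[nat_lit 20, nat_lit 60, nat_lit 80], [nat_lit 0, nat_lit 1776, nat_lit 2828], [(nat_lit 0, nat_lit 0, nat_lit 0), (nat_lit 1000, nat_lit 445, nat_lit 693), (nat_lit 1000, nat_lit 394, nat_lit 822)], (nat_lit 39, nat_lit 100, nat_lit 83)⟩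
noncomputable def p122_k19 : C1.Kn := ⟨[nat_lit 60, nat_lit 100, nat_lit 160], [nat_lit 0, nat_lit 151, nat_lit 3185], [(nat_lit 0, nat_lit 0, nat_lit 0), (nat_lit 1000, nat_lit 977, nat_lit 59), (nat_lit 1000, nat_lit 976, nat_lit 789)], (nat_lit 100, nat_lit 98, nat_lit 88)⟩
noncomputable def p122_k20 : C1.Kn := ⟨[nat_lit 60, nat_lit 100, nat_lit 160], [nat_lit 0, nat_lit 238, nat_lit 3259], [(nat_lit 0, nat_lit 0, nat_lit 0), (nat_lit 1000, nat_lit 963, nat_lit 93), (nat_lit 1000, nat_lit 962, nat_lit 786)], (nat_lit 100, nat_lit 99, nat_lit 89)⟩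
noncomputable def p122_k21 : C1.Kn := ⟨[nat_lit 60, nat_lit 100, nat_lit 160], [nat_lit 0, nat_lit 455, nat_lit 3416], [(nat_lit 0, nat_lit 0, nat_lit 0), (nat_lit 1000, nat_lit 929, nat_lit 178), (nat_lit 1000, nat_lit 928, nat_lit 770)], (nat_lit 97, nat_lit 100, nat_lit 88)⟩
noncomputable def p122_k22 : C1.Kn := ⟨[nat_lit 20, nat_lit 80], [nat_lit 0, nat_lit 3199], [(nat_lit 0, nat_lit 0, nat_lit 0), (nat_lit 1000, nat_lit 333, nat_lit 833)], (nat_lit 33, nat_lit 100, nat_lit 84)⟩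
noncomputable def p122_k23 : C1.Kn := ⟨[nat_lit 60, nat_lit 120, nat_lit 160], [nat_lit 0, nat_lit 453, nat_lit 3555], [(nat_lit 0, nat_lit 0, nat_lit 0), (nat_lit 1000, nat_lit 953, nat_lit 118), (nat_lit 904, nat_lit 1000, nat_lit 997)], (nat_lit 100, nat_lit 100, nat_lit 89)⟩
noncomputable def p122_k24 : C1.Kn := ⟨[nat_lit 60, nat_lit 120, nat_lit 160], [nat_lit 0, nat_lit 683, nat_lit 3718], [(nat_lit 0, nat_lit 0, nat_lit 0), (nat_lit 1000, nat_lit 929, nat_lit 178), (nat_lit 889, nat_lit 972, nat_lit 1000)], (nat_lit 97, nat_lit 100, nat_lit 88)⟩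
noncomputable def p122_k25 : C1.Kn := ⟨[nat_lit 20, nat_lit 60, nat_lit 100], [nat_lit 0, nat_lit 339, nat_lit 2783], [(nat_lit 0, nat_lit 0, nat_lit 0), (nat_lit 1000, nat_lit 894, nat_lit 132), (nat_lit 1000, nat_lit 565, nat_lit 820)], (nat_lit 57, nat_lit 100, nat_lit 80)⟩
noncomputable def p122_k26 : C1.Kn := ⟨[nat_lit 20, nat_lit 40, nat_lit 100], [nat_lit 0, nat_lit 0, nat_lit 2396], [(nat_lit 0, nat_lit 0, nat_lit 0), (nat_lit 0, nat_lit 0, nat_lit 0), (nat_lit 1000, nat_lit 625, nat_lit 623)], (nat_lit 60, nat_lit 100, nat_lit 80)⟩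
noncomputable def p122_k27 : C1.Kn := ⟨[nat_lit 60, nat_lit 80, nat_lit 160], [nat_lit 0, nat_lit 0, nat_lit 2127], [(nat_lit 0, nat_lit 0, nat_lit 0), (nat_lit 0, nat_lit 0, nat_lit 0), (nat_lit 1000, nat_lit 917, nat_lit 415)], (nat_lit 100, nat_lit 95, nat_lit 87)⟩
noncomputable def p122_k28 : C1.Kn := ⟨[nat_lit 60, nat_lit 120, nat_lit 160], [nat_lit 0, nat_lit 226, nat_lit 3397], [(nat_lit 0, nat_lit 0, nat_lit 0), (nat_lit 1000, nat_lit 977, nat_lit 59), (nat_lit 889, nat_lit 1000, nat_lit 972)], (nat_lit 100, nat_lit 98, nat_lit 88)⟩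
noncomputable def p122_k29 : C1.Kn := ⟨[nat_lit 20, nat_lit 80, nat_lit 100], [nat_lit 0, nat_lit 1046, nat_lit 3028], [(nat_lit 0, nat_lit 0, nat_lit 0), (nat_lit 1000, nat_lit 782, nat_lit 272), (nat_lit 1000, nat_lit 527, nat_lit 841)], (nat_lit 53, nat_lit 100, nat_lit 80)⟩
noncomputable def p122_k30 : C1.Kn := ⟨[nat_lit 20, nat_lit 80, nat_lit 100], [nat_lit 0, nat_lit 0, nat_lit 2559], [(nat_lit 0, nat_lit 0, nat_lit 0), (nat_lit 0, nat_lit 0, nat_lit 0), (nat_lit 1000, nat_lit 600, nat_lit 787)], (nat_lit 61, nat_lit 100, nat_lit 72)⟩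
noncomputable def p122_k31 : C1.Kn := ⟨[nat_lit 60, nat_lit 120, nat_lit 140], [nat_lit 0, nat_lit 0, nat_lit 2047], [(nat_lit 0, nat_lit 0, nat_lit 0), (nat_lit 0, nat_lit 0, nat_lit 0), (nat_lit 1000, nat_lit 993, nat_lit 781)], (nat_lit 99, nat_lit 100, nat_lit 77)⟩
noncomputable def p122_k32 : C1.Kn := ⟨[nat_lit 60, nat_lit 100, nat_lit 160], [nat_lit 0, nat_lit 84, nat_lit 3141], [(nat_lit 0, nat_lit 0, nat_lit 0), (nat_lit 1000, nat_lit 987, nat_lit 33), (nat_lit 1000, nat_lit 986, nat_lit 794)], (nat_lit 100, nat_lit 96, nat_lit 88)⟩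
noncomputable def p122_k33 : C1.Kn := ⟨[nat_lit 20, nat_lit 30, nat_lit 50, nat_lit 100], [nat_lit 0, nat_lit 176, nat_lit 678, nat_lit 2861], [(nat_lit 0, nat_lit 0, nat_lit 0), (nat_lit 1000, nat_lit 782, nat_lit 272), (nat_lit 1000, nat_lit 698, nat_lit 392), (nat_lit 1000, nat_lit 553, nat_lit 682)], (nat_lit 53, nat_lit 100, nat_lit 80)⟩
noncomputable def p122_k34 : C1.Kn := ⟨[nat_lit 60, nat_lit 80, nat_lit 160], [nat_lit 0, nat_lit 75, nat_lit 2196], [(nat_lit 0, nat_lit 0, nat_lit 0), (nat_lit 1000, nat_lit 977, nat_lit 59), (nat_lit 1000, nat_lit 905, nat_lit 414)], (nat_lit 100, nat_lit 98, nat_lit 88)⟩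
noncomputable def p122_k35 : C1.Kn := ⟨[nat_lit 20, nat_lit 40, nat_lit 100], [nat_lit 0, nat_lit 0, nat_lit 2396], [(nat_lit 0, nat_lit 0, nat_lit 0), (nat_lit 0, nat_lit 0, nat_lit 0), (nat_lit 1000, nat_lit 625, nat_lit 623)], (nat_lit 61, nat_lit 100, nat_lit 72)⟩
noncomputable def p122_k36 : C1.Kn := ⟨[nat_lit 60, nat_lit 80, nat_lit 140], [nat_lit 0, nat_lit 0, nat_lit 1595], [(nat_lit 0, nat_lit 0, nat_lit 0), (nat_lit 0, nat_lit 0, nat_lit 0), (nat_lit 1000, nat_lit 917, nat_lit 415)], (nat_lit 99, nat_lit 100, nat_lit 77)⟩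
noncomputable def p122_k37 : C1.Kn := ⟨[nat_lit 20, nat_lit 40, nat_lit 80], [nat_lit 0, nat_lit 350, nat_lit 1914], [(nat_lit 0, nat_lit 0, nat_lit 0), (nat_lit 1000, nat_lit 782, nat_lit 272), (nat_lit 1000, nat_lit 579, nat_lit 610)], (nat_lit 54, nat_lit 100, nat_lit 73)⟩
noncomputable def p122_k38 : C1.Kn := ⟨[nat_lit 20, nat_lit 40, nat_lit 100], [nat_lit 0, nat_lit 350, nat_lit 2695], [(nat_lit 0, nat_lit 0, nat_lit 0), (nat_lit 1000, nat_lit 782, nat_lit 272), (nat_lit 1000, nat_lit 579, nat_lit 610)], (nat_lit 53, nat_lit 100, nat_lit 80)⟩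
noncomputable def p122_k39 : C1.Kn := ⟨[nat_lit 60, nat_lit 80, nat_lit 160], [nat_lit 0, nat_lit 151, nat_lit 2257], [(nat_lit 0, nat_lit 0, nat_lit 0), (nat_lit 1000, nat_lit 953, nat_lit 118), (nat_lit 1000, nat_lit 894, nat_lit 411)], (nat_lit 100, nat_lit 100, nat_lit 89)⟩
noncomputable def p122_k40 : C1.Kn := ⟨[nat_lit 20, nat_lit 40, nat_lit 100], [nat_lit 0, nat_lit 530, nat_lit 2842], [(nat_lit 0, nat_lit 0, nat_lit 0), (nat_lit 1000, nat_lit 671, nat_lit 411), (nat_lit 1000, nat_lit 556, nat_lit 602)], (nat_lit 49, nat_lit 100, nat_lit 81)⟩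
noncomputable def p122_k41 : C1.Kn := ⟨[nat_lit 60, nat_lit 80, nat_lit 160], [nat_lit 0, nat_lit 228, nat_lit 2314], [(nat_lit 0, nat_lit 0, nat_lit 0), (nat_lit 1000, nat_lit 929, nat_lit 178), (nat_lit 1000, nat_lit 883, nat_lit 407)], (nat_lit 97, nat_lit 100, nat_lit 88)⟩
noncomputable def p122_l0 : Lf2 := ⟨nat_lit 0, nat_lit 10, [nat_lit 0, nat_lit 5, nat_lit 5, nat_lit 20], false, nat_lit 8, nat_lit 248, nat_lit 0, nat_lit 336, ⟨nat_lit 655, nat_lit 345, nat_lit 0, nat_lit 7, nat_lit 238, nat_lit 345, nat_lit 94, nat_lit 0, nat_lit 0, nat_lit 0, nat_lit 0, nat_lit 0, nat_lit 0, nat_lit 0, nat_lit 0, nat_lit 5000000, false, false⟩,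
 nat_lit 0, nat_lit 5408, nat_lit 0, nat_lit 0, nat_lit 4710, nat_lit 5054, nat_lit 120, nat_lit 0, nat_lit 0, nat_lit 816, nat_lit 0, nat_lit 0, nat_lit 0, nat_lit 0, nat_lit 0, nat_lit 345000, nat_lit 0, nat_lit 0, [(nat_lit 24, [(nat_lit 2, nat_lit 345)]), (nat_lit 27, [(nat_lit 2, nat_lit 345)])],
 ⟨p122_k0, nat_lit 0, nat_lit 0, nat_lit 572, nat_lit 0, nat_lit 1246722, [nat_lit 1120850001, nat_lit 1986594001, nat_lit 2349176000], [], [nat_lit 25139900379, nat_lit 28204208816, nat_lit 26398575031, nat_lit 30218790185, nat_lit 25768023645, nat_lit 27141568969, nat_lit 26723121515, nat_lit 28276151027], nat_lit 1271250, nat_lit 1271250, nat_lit 1033601, nat_lit 1780500, nat_lit 43600, nat_lit 1756600, [nat_lit 230000, nat_lit 780000, nat_lit 1100000], [nat_lit 35, nat_lit 40, nat_lit 40, nat_lit 80, nat_lit 22, nat_lit 345, nat_lit 125, nat_lit 15]⟩, ⟨p122_k1, nat_lit 0, nat_lit 0, nat_lit 164, nat_lit 0, nat_lit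 0, [nat_lit 2149710000, nat_lit 4093750000, nat_lit 6446510000], [], [nat_lit 13646079245, nat_lit 14881840623, nat_lit 15604641360, nat_lit 16624255756, nat_lit 16554009308, nat_lit 17347494654, nat_lit 17553762785, nat_lit 18210701459], nat_lit 0, nat_lit 0, nat_lit 0, nat_lit 0, nat_lit 0, nat_lit 0, [], [nat_lit 8, nat_lit 40, nat_lit 40, nat_lit 80, nat_lit 1, nat_lit 373, nat_lit 150, nat_lit 11]⟩,
 ⟨nat_lit 0, nat_lit 3163, ⟨.ofNat (nat_lit 507176), .ofNat (nat_lit 646918), .ofNat (nat_lit 528026), .ofNat (nat_lit 667768), .ofNat (nat_lit 531701), .ofNat (nat_lit 647345), .ofNat (nat_lit 555396), .ofNat (nat_lit 671040)⟩, ⟨.ofNat (nat_lit 20000), .ofNat (nat_lit 440207), .ofNat (nat_lit 20000), .ofNat (nat_lit 484518), .ofNat (nat_lit 20000), .ofNat (nat_lit 409993), .ofNat (nat_lit 20000), .ofNat (nat_lit 459993)⟩⟩, [⟨nat_lit 0, nat_lit 89, nat_lit 44, nat_lit 100, nat_lit 485291830⟩, ⟨nat_lit 4, nat_lit 100,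 nat_lit 44, nat_lit 87, nat_lit 248202652⟩, ⟨nat_lit 19, nat_lit 100, nat_lit 94, nat_lit 97, nat_lit 152283158⟩]⟩
noncomputable def p122_l1 : Lf2 := ⟨nat_lit 0, nat_lit 10, [nat_lit 0, nat_lit 5, nat_lit 5, nat_lit 20], false, nat_lit 8, nat_lit 248, nat_lit 0, nat_lit 320, ⟨nat_lit 679, nat_lit 321, nat_lit 0, nat_lit 7, nat_lit 254, nat_lit 321, nat_lit 94, nat_lit 0, nat_lit 0, nat_lit 0, nat_lit 0, nat_lit 0, nat_lit 0, nat_lit 0, nat_lit 0, nat_lit 5000000, true, false⟩,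
 nat_lit 0, nat_lit 5547, nat_lit 0, nat_lit 0, nat_lit 4831, nat_lit 3522, nat_lit 112, nat_lit 0, nat_lit 0, nat_lit 1350, nat_lit 0, nat_lit 0, nat_lit 0, nat_lit 0, nat_lit 0, nat_lit 321000, nat_lit 0, nat_lit 0, [(nat_lit 24, [(nat_lit 2, nat_lit 321)]), (nat_lit 27, [(nat_lit 2, nat_lit 321)])],
 ⟨p122_k0, nat_lit 0, nat_lit 0, nat_lit 606, nat_lit 0, nat_lit 1355184, [nat_lit 1108130000, nat_lit 2076709201, nat_lit 2511876800], [], [nat_lit 26154908031, nat_lit 28795755568, nat_lit 27015449614, nat_lit 30508910723, nat_lit 26344003446, nat_lit 27555027252, nat_lit 26933054887, nat_lit 28390670246], nat_lit 1271250, nat_lit 1271250, nat_lit 1236400, nat_lit 1794000, nat_lit 43600, nat_lit 1756600, [nat_lit 230000, nat_lit 780000, nat_lit 1100000], [nat_lit 35, nat_lit 40, nat_lit 40, nat_lit 80, nat_lit 22, nat_lit 289, nat_lit 75, nat_lit 13]⟩, ⟨p122_k2, nat_lit 0, nat_lit 0, nat_lit 142, nat_lit 0, nat_lit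 0, [nat_lit 2228478000, nat_lit 4243750000, nat_lit 5410272000], [], [nat_lit 13170378554, nat_lit 14228595727, nat_lit 14839041988, nat_lit 15764855810, nat_lit 16221128787, nat_lit 16851934637, nat_lit 17167328366, nat_lit 17850456080], nat_lit 0, nat_lit 0, nat_lit 0, nat_lit 0, nat_lit 0, nat_lit 0, [], [nat_lit 18, nat_lit 40, nat_lit 40, nat_lit 80, nat_lit 2, nat_lit 373, nat_lit 150, nat_lit 12]⟩,
 ⟨nat_lit 0, nat_lit 3163, ⟨.ofNat (nat_lit 566138), .ofNat (nat_lit 667768), .ofNat (nat_lit 586988), .ofNat (nat_lit 688618), .ofNat (nat_lit 586935), .ofNat (nat_lit 671040), .ofNat (nat_lit 610631), .ofNat (nat_lit 694736)⟩, ⟨.ofNat (nat_lit 20000), .ofNat (nat_lit 440207), .ofNat (nat_lit 20000), .ofNat (nat_lit 484518), .ofNat (nat_lit 20000), .ofNat (nat_lit 409993), .ofNat (nat_lit 20000), .ofNat (nat_lit 459993)⟩⟩, [⟨nat_lit 0, nat_lit 84, nat_lit 44, nat_lit 100, nat_lit 510022403⟩, ⟨nat_lit 4, nat_lit 100,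 nat_lit 44, nat_lit 87, nat_lit 244954234⟩, ⟨nat_lit 7, nat_lit 100, nat_lit 93, nat_lit 97, nat_lit 175775083⟩]⟩
noncomputable def p122_l2 : Lf2 := ⟨nat_lit 0, nat_lit 10, [nat_lit 0, nat_lit 5, nat_lit 5, nat_lit 20], false, nat_lit 8, nat_lit 160, nat_lit 0, nat_lit 336, ⟨nat_lit 687, nat_lit 313, nat_lit 0, nat_lit 7, nat_lit 313, nat_lit 313, nat_lit 70, nat_lit 0, nat_lit 0, nat_lit 0, nat_lit 0, nat_lit 0, nat_lit 0, nat_lit 0, nat_lit 0, nat_lit 5000000, true, true⟩,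
 nat_lit 0, nat_lit 5012, nat_lit 0, nat_lit 0, nat_lit 4365, nat_lit 4130, nat_lit 128, nat_lit 0, nat_lit 0, nat_lit 624, nat_lit 0, nat_lit 0, nat_lit 0, nat_lit 0, nat_lit 0, nat_lit 313000, nat_lit 0, nat_lit 0, [(nat_lit 24, [(nat_lit 2, nat_lit 313)])],
 ⟨p122_k0, nat_lit 0, nat_lit 0, nat_lit 535, nat_lit 0, nat_lit 1201296, [nat_lit 1103890001, nat_lit 2106747601, nat_lit 2566110400], [], [nat_lit 28928500829, nat_lit 29667728430, nat_lit 34867721243, nat_lit 36171996022, nat_lit 28300666910, nat_lit 28967269650, nat_lit 32071198729, nat_lit 32681563830], nat_lit 1271250, nat_lit 1271250, nat_lit 1271250, nat_lit 1271250, nat_lit 43600, nat_lit 1100001, [nat_lit 230000, nat_lit 780000, nat_lit 1100000], [nat_lit 35, nat_lit 40, nat_lit 40, nat_lit 80, nat_lit 22, nat_lit 251, nat_lit 40, nat_lit 10]⟩, ⟨p122_k1, nat_lit 0, nat_lit 0, nat_lit 216, nat_lit 0, nat_lit 0, [nat_lit 2254734000, nat_lit 4293750000,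 nat_lit 6761454000], [], [nat_lit 17665380768, nat_lit 19523839816, nat_lit 24261052226, nat_lit 25631348946, nat_lit 19263116385, nat_lit 20496244105, nat_lit 23707999246, nat_lit 24467368394], nat_lit 0, nat_lit 0, nat_lit 0, nat_lit 0, nat_lit 0, nat_lit 0, [], [nat_lit 8, nat_lit 40, nat_lit 40, nat_lit 80, nat_lit 1, nat_lit 428, nat_lit 200, nat_lit 12]⟩,
 ⟨nat_lit 2236, nat_lit 3163, ⟨.ofNat (nat_lit 649422), .ofNat (nat_lit 881194), .ofNat (nat_lit 693606), .ofNat (nat_lit 925504), .ofNat (nat_lit 647962), .ofNat (nat_lit 864770), .ofNat (nat_lit 693384), .ofNat (nat_lit 910319)⟩, ⟨.ofNat (nat_lit 20000), .ofNat (nat_lit 306116), .ofNat (nat_lit 20000), .ofNat (nat_lit 350426), .ofNat (nat_lit 20000), .ofNat (nat_lit 306337), .ofNat (nat_lit 20000), .ofNat (nat_lit 351886)⟩⟩, [⟨nat_lit 19, nat_lit 100, nat_lit 100, nat_lit 100, nat_lit 112769738⟩]⟩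
noncomputable def p122_l3 : Lf2 := ⟨nat_lit 0, nat_lit 10, [nat_lit 0, nat_lit 5, nat_lit 5, nat_lit 20], false, nat_lit 160, nat_lit 248, nat_lit 0, nat_lit 336, ⟨nat_lit 683, nat_lit 317, nat_lit 0, nat_lit 7, nat_lit 314, nat_lit 317, nat_lit 158, nat_lit 0, nat_lit 0, nat_lit 0, nat_lit 0, nat_lit 0, nat_lit 0, nat_lit 0, nat_lit 0, nat_lit 5000000, true, true⟩,
 nat_lit 0, nat_lit 4885, nat_lit 0, nat_lit 0, nat_lit 4254, nat_lit 4340, nat_lit 119, nat_lit 0, nat_lit 0, nat_lit 574, nat_lit 0, nat_lit 0, nat_lit 0, nat_lit 0, nat_lit 0, nat_lit 317000, nat_lit 0, nat_lit 0, [(nat_lit 24, [(nat_lit 2, nat_lit 317)])],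
 ⟨p122_k0, nat_lit 0, nat_lit 0, nat_lit 434, nat_lit 0, nat_lit 1126724, [nat_lit 1106010000, nat_lit 2091728401, nat_lit 2538993600], [], [nat_lit 27259591719, nat_lit 27620288473, nat_lit 31124050233, nat_lit 31411810746, nat_lit 28405399896, nat_lit 28732393891, nat_lit 32072255544, nat_lit 32477104498], nat_lit 1271250, nat_lit 1271250, nat_lit 1271250, nat_lit 1271250, nat_lit 1100001, nat_lit 1853500, [nat_lit 230000, nat_lit 780000, nat_lit 1100000], [nat_lit 35, nat_lit 40, nat_lit 40, nat_lit 80, nat_lit 22, nat_lit 235, nat_lit 0, nat_lit 8]⟩, ⟨p122_k1, nat_lit 0, nat_lit 0, nat_lit 216, nat_lit 0, nat_lit 0, [nat_lit 2241606000, nat_lit 4268750000, nat_lit 6722086000], [], [nat_lit 17896074862, nat_lit 19799759854, nat_lit 24644376634, nat_lit 26116934865, nat_lit 19201462260, nat_lit 20235275680, nat_lit 23498976014, nat_lit 24262282194], nat_lit 0, nat_lit 0, nat_lit 0, nat_lit 0, nat_lit 0, nat_lit 0,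 [], [nat_lit 8, nat_lit 40, nat_lit 40, nat_lit 80, nat_lit 1, nat_lit 428, nat_lit 200, nat_lit 12]⟩,
 ⟨nat_lit 2738, nat_lit 3163, ⟨.ofNat (nat_lit 649542), .ofNat (nat_lit 881194), .ofNat (nat_lit 693828), .ofNat (nat_lit 925504), .ofNat (nat_lit 648700), .ofNat (nat_lit 873162), .ofNat (nat_lit 693511), .ofNat (nat_lit 917997)⟩, ⟨.ofNat (nat_lit 306116), .ofNat (nat_lit 440213), .ofNat (nat_lit 350426), .ofNat (nat_lit 484523), .ofNat (nat_lit 306433), .ofNat (nat_lit 436368), .ofNat (nat_lit 351268), .ofNat (nat_lit 481203)⟩⟩, [⟨nat_lit 4, nat_lit 100, nat_lit 57, nat_lit 87, nat_lit 470209882⟩, ⟨nat_lit 7, nat_lit 100, nat_lit 100, nat_lit 100, nat_lit 101822932⟩]⟩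
noncomputable def p122_l4 : Lf2 := ⟨nat_lit 0, nat_lit 10, [nat_lit 0, nat_lit 5, nat_lit 5, nat_lit 20], false, nat_lit 160, nat_lit 232, nat_lit 0, nat_lit 336, ⟨nat_lit 1000, nat_lit 0, nat_lit 0, nat_lit 0, nat_lit 0, nat_lit 0, nat_lit 0, nat_lit 0, nat_lit 0, nat_lit 0, nat_lit 0, nat_lit 0, nat_lit 0, nat_lit 0, nat_lit 0, nat_lit 0, false, false⟩,
 nat_lit 0, nat_lit 4674, nat_lit 0, nat_lit 0, nat_lit 4218, nat_lit 6384, nat_lit 536, nat_lit 0, nat_lit 0, nat_lit 840, nat_lit 0, nat_lit 0, nat_lit 0, nat_lit 0, nat_lit 0, nat_lit 0, nat_lit 0, nat_lit 0, [],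
 ⟨p122_k3, nat_lit 0, nat_lit 0, nat_lit 441, nat_lit 0, nat_lit 1145386, [nat_lit 938000000, nat_lit 3282000000, nat_lit 4688000000], [], [nat_lit 24775446358, nat_lit 25238408620, nat_lit 31045755402, nat_lit 31619763665, nat_lit 26031097575, nat_lit 26447802942, nat_lit 31917818883, nat_lit 32430036973], nat_lit 1271250, nat_lit 1271250, nat_lit 1271250, nat_lit 1271250, nat_lit 1100001, nat_lit 1716500, [nat_lit 230000, nat_lit 780000, nat_lit 1100000], [nat_lit 35, nat_lit 40, nat_lit 40, nat_lit 80, nat_lit 22, nat_lit 236, nat_lit 0, nat_lit 8]⟩, ⟨p122_k1, nat_lit 0, nat_lit 0, nat_lit 215, nat_lit 0, nat_lit 0, [nat_lit 3282000000, nat_lit 6250000000, nat_lit 9842000000], [], [nat_lit 26209467240, nat_lit 29003814952, nat_lit 35808356773, nat_lit 37911372093, nat_lit 28095434261, nat_lit 29609451113, nat_lit 34184026193, nat_lit 35320343058], nat_lit 0, nat_lit 0, nat_lit 0, nat_lit 0, nat_lit 0, nat_lit 0,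 [], [nat_lit 8, nat_lit 40, nat_lit 40, nat_lit 80, nat_lit 1, nat_lit 428, nat_lit 200, nat_lit 12]⟩,
 zbF0, [⟨nat_lit 16, nat_lit 53, nat_lit 100, nat_lit 93, nat_lit 357532360⟩, ⟨nat_lit 4, nat_lit 100, nat_lit 48, nat_lit 87, nat_lit 198964017⟩, ⟨nat_lit 19, nat_lit 100, nat_lit 100, nat_lit 100, nat_lit 150827586⟩]⟩
noncomputable def p122_l5 : Lf2 := ⟨nat_lit 0, nat_lit 10, [nat_lit 0, nat_lit 5, nat_lit 5, nat_lit 20], false, nat_lit 20, nat_lit 208, nat_lit 0, nat_lit 336, ⟨nat_lit 1000, nat_lit 0, nat_lit 0, nat_lit 0, nat_lit 0, nat_lit 0, nat_lit 0, nat_lit 0, nat_lit 0, nat_lit 0, nat_lit 0, nat_lit 0, nat_lit 0, nat_lit 0, nat_lit 0, nat_lit 0, false, false⟩,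
 nat_lit 0, nat_lit 4467, nat_lit 0, nat_lit 0, nat_lit 4173, nat_lit 6447, nat_lit 454, nat_lit 0, nat_lit 0, nat_lit 840, nat_lit 0, nat_lit 0, nat_lit 0, nat_lit 0, nat_lit 0, nat_lit 0, nat_lit 0, nat_lit 0, [],
 ⟨p122_k4, nat_lit 0, nat_lit 0, nat_lit 491, nat_lit 0, nat_lit 1233514, [nat_lit 938000000, nat_lit 3282000000], [], [nat_lit 26522899364, nat_lit 28432634074, nat_lit 34279607999, nat_lit 35598695562, nat_lit 26486038278, nat_lit 27287218087, nat_lit 31663703719, nat_lit 32749313560], nat_lit 1271250, nat_lit 1271250, nat_lit 1271250, nat_lit 1271250, nat_lit 111251, nat_lit 1474250, [nat_lit 230000, nat_lit 780000], [nat_lit 66, nat_lit 40, nat_lit 40, nat_lit 80, nat_lit 67, nat_lit 272, nat_lit 60, nat_lit 14]⟩, ⟨p122_k1, nat_lit 0, nat_lit 0, nat_lit 212, nat_lit 0, nat_lit 0, [nat_lit 3282000000, nat_lit 6250000000, nat_lit 9842000000], [], [nat_lit 26219412420, nat_lit 29028846616, nat_lit 35252996320,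 nat_lit 37259194616, nat_lit 28051702887, nat_lit 29570965978, nat_lit 33736785072, nat_lit 34914769108], nat_lit 0, nat_lit 0, nat_lit 0, nat_lit 0, nat_lit 0, nat_lit 0, [], [nat_lit 8, nat_lit 40, nat_lit 40, nat_lit 80, nat_lit 1, nat_lit 428, nat_lit 200, nat_lit 12]⟩,
 zbF0, [⟨nat_lit 0, nat_lit 88, nat_lit 32, nat_lit 100, nat_lit 9801805⟩, ⟨nat_lit 4, nat_lit 100, nat_lit 32, nat_lit 88, nat_lit 309876374⟩, ⟨nat_lit 19, nat_lit 100, nat_lit 100, nat_lit 100, nat_lit 154488565⟩]⟩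
noncomputable def p122_l6 : Lf2 := ⟨nat_lit 0, nat_lit 10, [nat_lit 0, nat_lit 5, nat_lit 5, nat_lit 20], false, nat_lit 8, nat_lit 248, nat_lit 0, nat_lit 336, ⟨nat_lit 234, nat_lit 766, nat_lit 0, nat_lit 7, nat_lit 242, nat_lit 766, nat_lit 94, nat_lit 0, nat_lit 0, nat_lit 0, nat_lit 0, nat_lit 0, nat_lit 0, nat_lit 0, nat_lit 0, nat_lit 5000000, false, false⟩,
 nat_lit 3582, nat_lit 679, nat_lit 0, nat_lit 0, nat_lit 3710, nat_lit 2279, nat_lit 91, nat_lit 0, nat_lit 0, nat_lit 211, nat_lit 0, nat_lit 0, nat_lit 0, nat_lit 0, nat_lit 0, nat_lit 340600, nat_lit 0, nat_lit 0, [(nat_lit 24, [(nat_lit 1, nat_lit 709), (nat_lit 2, nat_lit 57)]), (nat_lit 27, [(nat_lit 1, nat_lit 709), (nat_lit 2, nat_lit 57)])],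
 ⟨p122_k0, nat_lit 0, nat_lit 0, nat_lit 390, nat_lit 0, nat_lit 783829, [nat_lit 904400000, nat_lit 1448147734, nat_lit 1654463200], [], [nat_lit 23050364060, nat_lit 25729281696, nat_lit 24768292195, nat_lit 27821099785, nat_lit 24699331256, nat_lit 26219833850, nat_lit 25914264091, nat_lit 27324960728], nat_lit 1271250, nat_lit 1271250, nat_lit 1033601, nat_lit 1780500, nat_lit 43600, nat_lit 1756600, [nat_lit 230000, nat_lit 780000, nat_lit 1100000], [nat_lit 35, nat_lit 40, nat_lit 40, nat_lit 80, nat_lit 22, nat_lit 345, nat_lit 125, nat_lit 15]⟩, ⟨p122_k1, nat_lit 0, nat_lit 0, nat_lit 739, nat_lit 0, nat_lit 1154044, [nat_lit 767988000, nat_lit 1462500000, nat_lit 2303028000], [], [nat_lit 8455331925, nat_lit 6458448308, nat_lit 6164587291, nat_lit 7006481519, nat_lit 6051204188, nat_lit 6821190917, nat_lit 9119342572, nat_lit 7142432226], nat_lit 1271250, nat_lit 1271250, nat_lit 1033601, nat_lit 1780500,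 nat_lit 0, nat_lit 2373000, [nat_lit 780000, nat_lit 1435000, nat_lit 1271250], [nat_lit 8, nat_lit 40, nat_lit 40, nat_lit 80, nat_lit 1, nat_lit 373, nat_lit 150, nat_lit 11]⟩,
 ⟨nat_lit 0, nat_lit 3163, ⟨.ofNat (nat_lit 507176), .ofNat (nat_lit 646918), .ofNat (nat_lit 548877), .ofNat (nat_lit 688618), .ofNat (nat_lit 531701), .ofNat (nat_lit 647345), .ofNat (nat_lit 579091), .ofNat (nat_lit 694736)⟩, ⟨.ofNat (nat_lit 20000), .ofNat (nat_lit 440207), .ofNat (nat_lit 20000), .ofNat (nat_lit 484518), .ofNat (nat_lit 20000), .ofNat (nat_lit 409993), .ofNat (nat_lit 20000), .ofNat (nat_lit 459993)⟩⟩, [⟨nat_lit 0, nat_lit 87, nat_lit 44, nat_lit 100, nat_lit 38594119⟩, ⟨nat_lit 4, nat_lit 100, nat_lit 44, nat_lit 87, nat_lit 191332122⟩, ⟨nat_lit 7, nat_lit 100, nat_lit 100, nat_lit 100, nat_lit 46219909⟩]⟩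
noncomputable def p122_l7 : Lf2 := ⟨nat_lit 0, nat_lit 10, [nat_lit 0, nat_lit 5, nat_lit 5, nat_lit 20], false, nat_lit 8, nat_lit 248, nat_lit 0, nat_lit 336, ⟨nat_lit 363, nat_lit 637, nat_lit 0, nat_lit 7, nat_lit 313, nat_lit 637, nat_lit 96, nat_lit 0, nat_lit 0, nat_lit 0, nat_lit 0, nat_lit 0, nat_lit 0, nat_lit 0, nat_lit 0, nat_lit 5000000, true, true⟩,
 nat_lit 4140, nat_lit 0, nat_lit 0, nat_lit 0, nat_lit 3605, nat_lit 2634, nat_lit 121, nat_lit 0, nat_lit 0, nat_lit 224, nat_lit 0, nat_lit 0, nat_lit 0, nat_lit 0, nat_lit 0, nat_lit 306400, nat_lit 0, nat_lit 0, [(nat_lit 24, [(nat_lit 1, nat_lit 551), (nat_lit 2, nat_lit 86)])],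
 ⟨p122_k0, nat_lit 0, nat_lit 0, nat_lit 363, nat_lit 0, nat_lit 694821, [nat_lit 933990000, nat_lit 1700235867, nat_lit 2047775200], [], [nat_lit 26271584695, nat_lit 27193141028, nat_lit 32694932376, nat_lit 33888226544, nat_lit 27679395319, nat_lit 28384733051, nat_lit 31563212784, nat_lit 32122794949], nat_lit 1271250, nat_lit 1271250, nat_lit 1271250, nat_lit 1271250, nat_lit 43600, nat_lit 1756600, [nat_lit 230000, nat_lit 780000, nat_lit 1100000], [nat_lit 35, nat_lit 40, nat_lit 40, nat_lit 80, nat_lit 22, nat_lit 289, nat_lit 75, nat_lit 12]⟩, ⟨p122_k1, nat_lit 0, nat_lit 0, nat_lit 640, nat_lit 0, nat_lit 1022996, [nat_lit 1191366000, nat_lit 2268750000, nat_lit 3572646000], [], [nat_lit 13259891372, nat_lit 13631533796, nat_lit 14616396673, nat_lit 14829415530, nat_lit 12379623035, nat_lit 12595236253, nat_lit 13196348455, nat_lit 13305446299], nat_lit 1271250, nat_lit 1271250, nat_lit 1271250, nat_lit 1271250,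 nat_lit 0, nat_lit 2373000, [nat_lit 780000, nat_lit 1435000, nat_lit 1271250], [nat_lit 8, nat_lit 40, nat_lit 40, nat_lit 80, nat_lit 1, nat_lit 428, nat_lit 200, nat_lit 12]⟩,
 ⟨nat_lit 2236, nat_lit 3163, ⟨.ofNat (nat_lit 649422), .ofNat (nat_lit 881194), .ofNat (nat_lit 693606), .ofNat (nat_lit 925504), .ofNat (nat_lit 647962), .ofNat (nat_lit 864770), .ofNat (nat_lit 693384), .ofNat (nat_lit 910319)⟩, ⟨.ofNat (nat_lit 20000), .ofNat (nat_lit 440213), .ofNat (nat_lit 20000), .ofNat (nat_lit 484523), .ofNat (nat_lit 20000), .ofNat (nat_lit 431772), .ofNat (nat_lit 20000), .ofNat (nat_lit 477320)⟩⟩, [⟨nat_lit 13, nat_lit 61, nat_lit 55, nat_lit 100, nat_lit 65470785⟩, ⟨nat_lit 16, nat_lit 53, nat_lit 100, nat_lit 87, nat_lit 125679049⟩, ⟨nat_lit 19, nat_lit 100, nat_lit 100, nat_lit 100, nat_lit 46031329⟩]⟩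
noncomputable def p122_l8 : Lf2 := ⟨nat_lit 0, nat_lit 10, [nat_lit 0, nat_lit 5, nat_lit 5, nat_lit 20], false, nat_lit 20, nat_lit 208, nat_lit 0, nat_lit 336, ⟨nat_lit 282, nat_lit 718, nat_lit 0, nat_lit 7, nat_lit 306, nat_lit 718, nat_lit 88, nat_lit 0, nat_lit 0, nat_lit 0, nat_lit 0, nat_lit 0, nat_lit 0, nat_lit 0, nat_lit 0, nat_lit 5000000, true, true⟩,
 nat_lit 3326, nat_lit 0, nat_lit 0, nat_lit 0, nat_lit 3107, nat_lit 2116, nat_lit 140, nat_lit 0, nat_lit 0, nat_lit 164, nat_lit 0, nat_lit 0, nat_lit 0, nat_lit 0, nat_lit 0, nat_lit 287200, nat_lit 0, nat_lit 0, [(nat_lit 27, [(nat_lit 1, nat_lit 718)])],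
 ⟨p122_k4, nat_lit 0, nat_lit 0, nat_lit 324, nat_lit 0, nat_lit 720718, [nat_lit 765392800, nat_lit 1158443200], [], [nat_lit 24416856997, nat_lit 26046352566, nat_lit 31346621462, nat_lit 32501225758, nat_lit 25816804837, nat_lit 26703502287, nat_lit 30246658264, nat_lit 31206571497], nat_lit 1271250, nat_lit 1271250, nat_lit 1271250, nat_lit 1271250, nat_lit 111251, nat_lit 1474250, [nat_lit 230000, nat_lit 780000], [nat_lit 66, nat_lit 40, nat_lit 40, nat_lit 80, nat_lit 67, nat_lit 272, nat_lit 60, nat_lit 14]⟩, ⟨p122_k1, nat_lit 0, nat_lit 0, nat_lit 714, nat_lit 0, nat_lit 1154044, [nat_lit 925524000, nat_lit 1762500000, nat_lit 2775444000], [], [nat_lit 10667709924, nat_lit 10879643724, nat_lit 11362155128, nat_lit 11484111776, nat_lit 9741289450, nat_lit 9857791258, nat_lit 10121866942, nat_lit 10185774656], nat_lit 1271250, nat_lit 1271250, nat_lit 1271250, nat_lit 1271250, nat_lit 0, nat_lit 2373000, [nat_lit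 780000, nat_lit 1435000, nat_lit 1271250], [nat_lit 8, nat_lit 40, nat_lit 40, nat_lit 80, nat_lit 1, nat_lit 428, nat_lit 200, nat_lit 12]⟩,
 ⟨nat_lit 0, nat_lit 2237, ⟨.ofNat (nat_lit 646249), .ofNat (nat_lit 847661), .ofNat (nat_lit 689944), .ofNat (nat_lit 893212), .ofNat (nat_lit 648136), .ofNat (nat_lit 824994), .ofNat (nat_lit 696283), .ofNat (nat_lit 874997)⟩, ⟨.ofNat (nat_lit 50000), .ofNat (nat_lit 374750), .ofNat (nat_lit 50000), .ofNat (nat_lit 420300), .ofNat (nat_lit 50000), .ofNat (nat_lit 359993), .ofNat (nat_lit 50000), .ofNat (nat_lit 409994)⟩⟩, [⟨nat_lit 13, nat_lit 36, nat_lit 77, nat_lit 100, nat_lit 143125373⟩, ⟨nat_lit 13, nat_lit 54, nat_lit 57, nat_lit 100, nat_lit 78949303⟩, ⟨nat_lit 16, nat_lit 32, nat_lit 100, nat_lit 88, nat_lit 163152002⟩, ⟨nat_lit 7, nat_lit 100, nat_lit 100, nat_lit 100, nat_lit 33945382⟩]⟩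
noncomputable def b_V_900_700_20_8 : St := ⟨true, nat_lit 1, nat_lit 2, nat_lit 2, nat_lit 120, nat_lit 360, nat_lit 400, nat_lit 280, nat_lit 320, nat_lit 152, nat_lit 392, nat_lit 80, nat_lit 120, nat_lit 8, nat_lit 248, nat_lit 0, nat_lit 336, nat_lit 0, nat_lit 40, nat_lit 0, nat_lit 0, nat_lit 0, nat_lit 0⟩
theorem d_V_900_700_20_8 (h : EB TB.env) : Dead b_V_900_700_20_8 := chkB_sound0 h (T :=
(.st (nat_lit 1)
(.spl (nat_lit 2) (nat_lit 240)
(.spl (nat_lit 1) (nat_lit 300)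
(.leaf p122_l0)
(.trZ (nat_lit 0) (nat_lit 87) (nat_lit 60) (nat_lit 100) (nat_lit 176) (.trX (nat_lit 19) (nat_lit 94) (nat_lit 88) (nat_lit 100) (nat_lit 320) (.leaf p122_l1))))
(.spl (nat_lit 0) (nat_lit 380)
(.spl (nat_lit 4) (nat_lit 160)
(.leaf p122_l2)
(.spl (nat_lit 0) (nat_lit 370)
(.leaf p122_l3)
(.trX (nat_lit 13) (nat_lit 66) (nat_lit 45) (nat_lit 100) (nat_lit 388) (.trX (nat_lit 16) (nat_lit 53) (nat_lit 100) (nat_lit 93) (nat_lit 232) (.leaf p122_l4)))))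
(.trX (nat_lit 13) (nat_lit 54) (nat_lit 57) (nat_lit 100) (nat_lit 380) (.trZ (nat_lit 3) (nat_lit 100) (nat_lit 54) (nat_lit 57) (nat_lit 20) (.trX (nat_lit 16) (nat_lit 44) (nat_lit 100) (nat_lit 92) (nat_lit 208) (.leaf p122_l5))))))
(.spl (nat_lit 2) (nat_lit 240)
(.leaf p122_l6)
(.spl (nat_lit 0) (nat_lit 380)
(.leaf p122_l7)
(.trX (nat_lit 13) (nat_lit 54) (nat_lit 57) (nat_lit 100) (nat_lit 380) (.trZ (nat_lit 3) (nat_lit 100) (nat_lit 54) (nat_lit 57) (nat_lit 20) (.trX (nat_lit 16) (nat_lit 44) (nat_lit 100) (nat_lit 92) (nat_lit 208) (.leaf p122_l8)))))))) (by decide +kernel)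
noncomputable def p122_l9 : Lf2 := ⟨nat_lit 0, nat_lit 20, [nat_lit 5, nat_lit 5, nat_lit 5, nat_lit 20], false, nat_lit 8, nat_lit 80, nat_lit 0, nat_lit 336, ⟨nat_lit 94, nat_lit 37, nat_lit 869, nat_lit 7, nat_lit 226, nat_lit 906, nat_lit 43, nat_lit 869, nat_lit 17067, nat_lit 247, nat_lit 4943, nat_lit 208, nat_lit 49626980, nat_lit 16126571, nat_lit 1246449, nat_lit 3299142, false, false⟩,
 nat_lit 0, nat_lit 0, nat_lit 1374, nat_lit 0, nat_lit 2257, nat_lit 874, nat_lit 0, nat_lit 0, nat_lit 0, nat_lit 0, nat_lit 0, nat_lit 0, nat_lit 0, nat_lit 0, nat_lit 48, nat_lit 226500, nat_lit 0, nat_lit 0, [(nat_lit 25, [(nat_lit 0, nat_lit 37), (nat_lit 4, nat_lit 869)])],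
 ⟨p122_k5, nat_lit 0, nat_lit 0, nat_lit 147, nat_lit 0, nat_lit 0, [nat_lit 980698400, nat_lit 378122001, nat_lit 9526000], [], [nat_lit 19280996368, nat_lit 20546634408, nat_lit 20422591365, nat_lit 21611711909, nat_lit 19011228703, nat_lit 20132381179, nat_lit 20058436432, nat_lit 21219484007], nat_lit 0, nat_lit 0, nat_lit 0, nat_lit 0, nat_lit 0, nat_lit 0, [], [nat_lit 55, nat_lit 40, nat_lit 40, nat_lit 80, nat_lit 3, nat_lit 289, nat_lit 75, nat_lit 10]⟩, ⟨p122_k6, nat_lit 0, nat_lit 0, nat_lit 830, nat_lit 0, nat_lit 1188424, [nat_lit 308508000, nat_lit 748992000, nat_lit 1115968000], [], [nat_lit 4157207087, nat_lit 4175428472, nat_lit 4090831280, nat_lit 4105606820, nat_lit 3510286539, nat_lit 3509214955, nat_lit 3802219468, nat_lit 3423145391], nat_lit 1271250, nat_lit 1271250, nat_lit 1033601, nat_lit 1441000, nat_lit 0, nat_lit 2373000, [nat_lit 780000, nat_lit 1762500, nat_lit 1271250], [nat_lit 79,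 nat_lit 40, nat_lit 40, nat_lit 80, nat_lit 14, nat_lit 456, nat_lit 225, nat_lit 12]⟩,
 ⟨nat_lit 2236, nat_lit 3163, ⟨.ofNat (nat_lit 515097), .ofNat (nat_lit 588366), .ofNat (nat_lit 537188), .ofNat (nat_lit 610457), .ofNat (nat_lit 522299), .ofNat (nat_lit 590843), .ofNat (nat_lit 545010), .ofNat (nat_lit 613554)⟩, ⟨.ofNat (nat_lit 20000), .ofNat (nat_lit 184209), .ofNat (nat_lit 20000), .ofNat (nat_lit 200000), .ofNat (nat_lit 20000), .ofNat (nat_lit 192306), .ofNat (nat_lit 20000), .ofNat (nat_lit 200000)⟩⟩, [⟨nat_lit 3, nat_lit 100, nat_lit 61, nat_lit 55, nat_lit 79009129⟩, ⟨nat_lit 3, nat_lit 100, nat_lit 48, nat_lit 71, nat_lit 143008005⟩, ⟨nat_lit 10, nat_lit 74, nat_lit 100, nat_lit 59, nat_lit 12872061⟩]⟩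
noncomputable def p122_l10 : Lf2 := ⟨nat_lit 0, nat_lit 20, [nat_lit 5, nat_lit 5, nat_lit 5, nat_lit 20], true, nat_lit 20, nat_lit 80, nat_lit 0, nat_lit 336, ⟨nat_lit 0, nat_lit 325, nat_lit 675, nat_lit 7, nat_lit 239, nat_lit 1000, nat_lit 50, nat_lit 675, nat_lit 22817, nat_lit 252, nat_lit 6707, nat_lit 206, nat_lit 48002040, nat_lit 17458835, nat_lit 1539125, nat_lit 3501269, true, false⟩,
 nat_lit 0, nat_lit 0, nat_lit 0, nat_lit 0, nat_lit 2272, nat_lit 0, nat_lit 0, nat_lit 0, nat_lit 0, nat_lit 0, nat_lit 0, nat_lit 0, nat_lit 0, nat_lit 0, nat_lit 55, nat_lit 250000, nat_lit 0, nat_lit 0, [(nat_lit 28, [(nat_lit 0, nat_lit 325), (nat_lit 4, nat_lit 675)])],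
 ⟨p122_k7, nat_lit 0, nat_lit 0, nat_lit 148, nat_lit 0, nat_lit 0, [nat_lit 988100001, nat_lit 172130000, nat_lit 115380000], [], [nat_lit 21272314203, nat_lit 22792292162, nat_lit 21457858402, nat_lit 22972363352, nat_lit 20912234310, nat_lit 22233770539, nat_lit 21095733874, nat_lit 22427635972], nat_lit 0, nat_lit 0, nat_lit 0, nat_lit 0, nat_lit 0, nat_lit 0, [], [nat_lit 55, nat_lit 40, nat_lit 40, nat_lit 80, nat_lit 3, nat_lit 289, nat_lit 75, nat_lit 10]⟩, C1.Rw.none,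
 ⟨nat_lit 0, nat_lit 2237, ⟨.ofNat (nat_lit 575619), .ofNat (nat_lit 587391), .ofNat (nat_lit 597467), .ofNat (nat_lit 609239), .ofNat (nat_lit 585925), .ofNat (nat_lit 596294), .ofNat (nat_lit 609999), .ofNat (nat_lit 620367)⟩, ⟨.ofNat (nat_lit 50000), .ofNat (nat_lit 192306), .ofNat (nat_lit 50000), .ofNat (nat_lit 200000), .ofNat (nat_lit 50000), .ofNat (nat_lit 199999), .ofNat (nat_lit 50000), .ofNat (nat_lit 200000)⟩⟩, [⟨nat_lit 0, nat_lit 92, nat_lit 44, nat_lit 100, nat_lit 538789500⟩, ⟨nat_lit 3, nat_lit 100, nat_lit 54, nat_lit 57, nat_lit 277301192⟩]⟩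
noncomputable def p122_l11 : Lf2 := ⟨nat_lit 0, nat_lit 20, [nat_lit 5, nat_lit 5, nat_lit 5, nat_lit 20], false, nat_lit 8, nat_lit 80, nat_lit 0, nat_lit 336, ⟨nat_lit 123, nat_lit 163, nat_lit 714, nat_lit 7, nat_lit 252, nat_lit 877, nat_lit 43, nat_lit 714, nat_lit 17067, nat_lit 247, nat_lit 71778, nat_lit 200, nat_lit 46908354, nat_lit 18869985, nat_lit 1221661, nat_lit 3501726, true, false⟩,
 nat_lit 0, nat_lit 0, nat_lit 1618, nat_lit 0, nat_lit 2477, nat_lit 1029, nat_lit 0, nat_lit 0, nat_lit 0, nat_lit 90, nat_lit 0, nat_lit 0, nat_lit 0, nat_lit 0, nat_lit 11, nat_lit 219250, nat_lit 0, nat_lit 0, [(nat_lit 25, [(nat_lit 0, nat_lit 163), (nat_lit 4, nat_lit 714)])],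
 ⟨p122_k8, nat_lit 0, nat_lit 0, nat_lit 137, nat_lit 0, nat_lit 0, [nat_lit 803698000, nat_lit 500427601, nat_lit 20723599], [], [nat_lit 20980260772, nat_lit 22215650264, nat_lit 22211841128, nat_lit 23390257635, nat_lit 20494514304, nat_lit 21641474551, nat_lit 21664205571, nat_lit 22762817345], nat_lit 0, nat_lit 0, nat_lit 0, nat_lit 0, nat_lit 0, nat_lit 0, [], [nat_lit 20, nat_lit 40, nat_lit 40, nat_lit 80, nat_lit 16, nat_lit 226, nat_lit 20, nat_lit 8]⟩, ⟨p122_k9, nat_lit 0, nat_lit 0, nat_lit 811, nat_lit 0, nat_lit 1188424, [nat_lit 403686000, nat_lit 768750000, nat_lit 1460256000], [], [nat_lit 4052258754, nat_lit 4097005950, nat_lit 4064430906, nat_lit 4103922882, nat_lit 3748565583, nat_lit 3661088757, nat_lit 3622951923, nat_lit 3646549359], nat_lit 1271250, nat_lit 1271250, nat_lit 1271250, nat_lit 1271250, nat_lit 0, nat_lit 2373000, [nat_lit 780000, nat_lit 1435000, nat_lit 1271250], [nat_lit 23,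 nat_lit 40, nat_lit 40, nat_lit 80, nat_lit 12, nat_lit 456, nat_lit 225, nat_lit 11]⟩,
 ⟨nat_lit 2236, nat_lit 3163, ⟨.ofNat (nat_lit 588366), .ofNat (nat_lit 649422), .ofNat (nat_lit 610457), .ofNat (nat_lit 671514), .ofNat (nat_lit 590843), .ofNat (nat_lit 647962), .ofNat (nat_lit 613554), .ofNat (nat_lit 670673)⟩, ⟨.ofNat (nat_lit 20000), .ofNat (nat_lit 184209), .ofNat (nat_lit 20000), .ofNat (nat_lit 200000), .ofNat (nat_lit 20000), .ofNat (nat_lit 192306), .ofNat (nat_lit 20000), .ofNat (nat_lit 200000)⟩⟩, [⟨nat_lit 3, nat_lit 100, nat_lit 48, nat_lit 71, nat_lit 221235136⟩, ⟨nat_lit 22, nat_lit 100, nat_lit 84, nat_lit 63, nat_lit 26053649⟩]⟩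
noncomputable def p122_l12 : Lf2 := ⟨nat_lit 0, nat_lit 20, [nat_lit 5, nat_lit 5, nat_lit 5, nat_lit 20], true, nat_lit 20, nat_lit 80, nat_lit 0, nat_lit 336, ⟨nat_lit 0, nat_lit 1000, nat_lit 0, nat_lit 7, nat_lit 252, nat_lit 1000, nat_lit 50, nat_lit 0, nat_lit 0, nat_lit 0, nat_lit 0, nat_lit 0, nat_lit 46629130, nat_lit 18849561, nat_lit 1521309, nat_lit 3596860, true, false⟩,
 nat_lit 0, nat_lit 0, nat_lit 0, nat_lit 0, nat_lit 2398, nat_lit 0, nat_lit 45, nat_lit 0, nat_lit 0, nat_lit 0, nat_lit 0, nat_lit 0, nat_lit 0, nat_lit 0, nat_lit 0, nat_lit 400000, nat_lit 0, nat_lit 0, [(nat_lit 28, [(nat_lit 1, nat_lit 1000)])],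
 ⟨p122_k10, nat_lit 0, nat_lit 0, nat_lit 141, nat_lit 0, nat_lit 0, [nat_lit 697600000, nat_lit 324800000, nat_lit 138000000], [], [nat_lit 21869070100, nat_lit 23250368618, nat_lit 23016121501, nat_lit 24459229124, nat_lit 21435429673, nat_lit 22591980073, nat_lit 22553460629, nat_lit 23638116105], nat_lit 0, nat_lit 0, nat_lit 0, nat_lit 0, nat_lit 0, nat_lit 0, [], [nat_lit 20, nat_lit 40, nat_lit 40, nat_lit 80, nat_lit 16, nat_lit 226, nat_lit 20, nat_lit 8]⟩, C1.Rw.none,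
 ⟨nat_lit 0, nat_lit 2237, ⟨.ofNat (nat_lit 587391), .ofNat (nat_lit 646249), .ofNat (nat_lit 609239), .ofNat (nat_lit 668096), .ofNat (nat_lit 596294), .ofNat (nat_lit 648136), .ofNat (nat_lit 620367), .ofNat (nat_lit 672209)⟩, ⟨.ofNat (nat_lit 50000), .ofNat (nat_lit 192306), .ofNat (nat_lit 50000), .ofNat (nat_lit 200000), .ofNat (nat_lit 50000), .ofNat (nat_lit 199999), .ofNat (nat_lit 50000), .ofNat (nat_lit 200000)⟩⟩, [⟨nat_lit 3, nat_lit 100, nat_lit 54, nat_lit 57, nat_lit 265250157⟩]⟩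
noncomputable def p122_l13 : Lf2 := ⟨nat_lit 0, nat_lit 20, [nat_lit 5, nat_lit 5, nat_lit 5, nat_lit 20], false, nat_lit 8, nat_lit 80, nat_lit 0, nat_lit 160, ⟨nat_lit 468, nat_lit 532, nat_lit 0, nat_lit 7, nat_lit 254, nat_lit 532, nat_lit 43, nat_lit 0, nat_lit 0, nat_lit 0, nat_lit 0, nat_lit 0, nat_lit 46738315, nat_lit 19025345, nat_lit 1236340, nat_lit 3517244, true, false⟩,
 nat_lit 0, nat_lit 0, nat_lit 4867, nat_lit 0, nat_lit 3035, nat_lit 3369, nat_lit 157, nat_lit 0, nat_lit 0, nat_lit 595, nat_lit 0, nat_lit 0, nat_lit 0, nat_lit 0, nat_lit 0, nat_lit 449800, nat_lit 0, nat_lit 0, [(nat_lit 25, [(nat_lit 1, nat_lit 137), (nat_lit 2, nat_lit 395)]), (nat_lit 28, [(nat_lit 1, nat_lit 137), (nat_lit 2, nat_lit 395)])],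
 ⟨p122_k8, nat_lit 0, nat_lit 0, nat_lit 148, nat_lit 0, nat_lit 0, [nat_lit 1134739601, nat_lit 1522799601, nat_lit 1513676400], [], [nat_lit 22113453603, nat_lit 24640030494, nat_lit 23857222462, nat_lit 26203053354, nat_lit 21461708076, nat_lit 23849707780, nat_lit 23147102968, nat_lit 25385409725], nat_lit 0, nat_lit 0, nat_lit 0, nat_lit 0, nat_lit 0, nat_lit 0, [], [nat_lit 20, nat_lit 40, nat_lit 40, nat_lit 80, nat_lit 16, nat_lit 317, nat_lit 100, nat_lit 11]⟩, ⟨p122_k11, nat_lit 0, nat_lit 0, nat_lit 866, nat_lit 0, nat_lit 1455935, [nat_lit 1535976000, nat_lit 2925000000, nat_lit 4606056000], [], [nat_lit 11431345206, nat_lit 11621871473, nat_lit 11546932347, nat_lit 12253355280, nat_lit 9989892212, nat_lit 10139748312, nat_lit 10209124281, nat_lit 10162267254], nat_lit 1271250, nat_lit 1271250, nat_lit 1236400, nat_lit 1794000, nat_lit 0, nat_lit 1100001, [nat_lit 780000, nat_lit 1435000, nat_lit 1271250],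 [nat_lit 8, nat_lit 40, nat_lit 40, nat_lit 80, nat_lit 1, nat_lit 317, nat_lit 100, nat_lit 9]⟩,
 ⟨nat_lit 0, nat_lit 3163, ⟨.ofNat (nat_lit 566138), .ofNat (nat_lit 667768), .ofNat (nat_lit 586988), .ofNat (nat_lit 688618), .ofNat (nat_lit 586935), .ofNat (nat_lit 671040), .ofNat (nat_lit 610631), .ofNat (nat_lit 694736)⟩, ⟨.ofNat (nat_lit 20000), .ofNat (nat_lit 184209), .ofNat (nat_lit 20000), .ofNat (nat_lit 200000), .ofNat (nat_lit 20000), .ofNat (nat_lit 199999), .ofNat (nat_lit 20000), .ofNat (nat_lit 200000)⟩⟩, [⟨nat_lit 0, nat_lit 84, nat_lit 44, nat_lit 100, nat_lit 851921840⟩, ⟨nat_lit 3, nat_lit 100, nat_lit 50, nat_lit 65, nat_lit 86359558⟩]⟩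
noncomputable def p122_l14 : Lf2 := ⟨nat_lit 0, nat_lit 20, [nat_lit 5, nat_lit 5, nat_lit 5, nat_lit 20], false, nat_lit 8, nat_lit 80, nat_lit 160, nat_lit 320, ⟨nat_lit 244, nat_lit 232, nat_lit 524, nat_lit 7, nat_lit 254, nat_lit 756, nat_lit 43, nat_lit 524, nat_lit 17067, nat_lit 247, nat_lit 115962, nat_lit 200, nat_lit 46713973, nat_lit 19066506, nat_lit 1219521, nat_lit 3514439, true, false⟩,
 nat_lit 0, nat_lit 0, nat_lit 2408, nat_lit 0, nat_lit 2568, nat_lit 1667, nat_lit 28, nat_lit 0, nat_lit 0, nat_lit 178, nat_lit 0, nat_lit 0, nat_lit 0, nat_lit 0, nat_lit 0, nat_lit 302400, nat_lit 0, nat_lit 0, [(nat_lit 25, [(nat_lit 1, nat_lit 232), (nat_lit 5, nat_lit 524)])],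
 ⟨p122_k8, nat_lit 0, nat_lit 0, nat_lit 137, nat_lit 0, nat_lit 0, [nat_lit 805499201, nat_lit 658817601, nat_lit 143495999], [], [nat_lit 20706018648, nat_lit 21907983645, nat_lit 22443436586, nat_lit 23584314207, nat_lit 20234302618, nat_lit 21373282442, nat_lit 21920073453, nat_lit 22952739933], nat_lit 0, nat_lit 0, nat_lit 0, nat_lit 0, nat_lit 0, nat_lit 0, [], [nat_lit 20, nat_lit 40, nat_lit 40, nat_lit 80, nat_lit 16, nat_lit 317, nat_lit 100, nat_lit 11]⟩, ⟨p122_k11, nat_lit 0, nat_lit 0, nat_lit 628, nat_lit 0, nat_lit 1185407, [nat_lit 800808000, nat_lit 1525000000, nat_lit 2401448000], [], [nat_lit 6711532063, nat_lit 6812297712, nat_lit 6784732474, nat_lit 6891345818, nat_lit 7092568074, nat_lit 7178312739, nat_lit 7954072974, nat_lit 7199242038], nat_lit 1271250, nat_lit 1271250, nat_lit 1236400, nat_lit 1794000, nat_lit 1100001, nat_lit 2470000, [nat_lit 780000, nat_lit 1435000, nat_lit 1271250], [nat_lit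 8, nat_lit 40, nat_lit 40, nat_lit 80, nat_lit 1, nat_lit 373, nat_lit 150, nat_lit 10]⟩,
 ⟨nat_lit 2236, nat_lit 3163, ⟨.ofNat (nat_lit 573823), .ofNat (nat_lit 671514), .ofNat (nat_lit 595914), .ofNat (nat_lit 693606), .ofNat (nat_lit 579282), .ofNat (nat_lit 670673), .ofNat (nat_lit 601993), .ofNat (nat_lit 693384)⟩, ⟨.ofNat (nat_lit 20000), .ofNat (nat_lit 184209), .ofNat (nat_lit 20000), .ofNat (nat_lit 200000), .ofNat (nat_lit 20000), .ofNat (nat_lit 192306), .ofNat (nat_lit 20000), .ofNat (nat_lit 200000)⟩⟩, [⟨nat_lit 0, nat_lit 82, nat_lit 44, nat_lit 100, nat_lit 128821925⟩, ⟨nat_lit 3, nat_lit 100, nat_lit 48, nat_lit 71, nat_lit 195046923⟩, ⟨nat_lit 7, nat_lit 100, nat_lit 93, nat_lit 97, nat_lit 71371232⟩]⟩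
noncomputable def p122_l15 : Lf2 := ⟨nat_lit 0, nat_lit 20, [nat_lit 5, nat_lit 5, nat_lit 5, nat_lit 20], false, nat_lit 20, nat_lit 80, nat_lit 160, nat_lit 320, ⟨nat_lit 316, nat_lit 684, nat_lit 0, nat_lit 7, nat_lit 265, nat_lit 684, nat_lit 50, nat_lit 0, nat_lit 0, nat_lit 0, nat_lit 0, nat_lit 0, nat_lit 45346914, nat_lit 20150969, nat_lit 1502117, nat_lit 3675591, true, false⟩,
 nat_lit 0, nat_lit 0, nat_lit 3266, nat_lit 0, nat_lit 2279, nat_lit 2261, nat_lit 256, nat_lit 0, nat_lit 0, nat_lit 247, nat_lit 0, nat_lit 0, nat_lit 0, nat_lit 0, nat_lit 0, nat_lit 273600, nat_lit 0, nat_lit 0, [(nat_lit 28, [(nat_lit 1, nat_lit 684)])],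
 ⟨p122_k10, nat_lit 0, nat_lit 0, nat_lit 141, nat_lit 0, nat_lit 0, [nat_lit 773566400, nat_lit 1259275201, nat_lit 2069392000], [], [nat_lit 21987953723, nat_lit 23349318593, nat_lit 22784985822, nat_lit 24192843102, nat_lit 21614183576, nat_lit 22803539065, nat_lit 22393984584, nat_lit 23640838672], nat_lit 0, nat_lit 0, nat_lit 0, nat_lit 0, nat_lit 0, nat_lit 0, [], [nat_lit 20, nat_lit 40, nat_lit 40, nat_lit 80, nat_lit 16, nat_lit 226, nat_lit 20, nat_lit 7]⟩, ⟨p122_k11, nat_lit 0, nat_lit 0, nat_lit 747, nat_lit 0, nat_lit 1455935, [nat_lit 1037112000, nat_lit 1975000000, nat_lit 3110072000], [], [nat_lit 8072934791, nat_lit 8201030437, nat_lit 8131789967, nat_lit 8251137061, nat_lit 8522987239, nat_lit 8634847017, nat_lit 8555176555, nat_lit 8677013744], nat_lit 1271250, nat_lit 1271250, nat_lit 1271250, nat_lit 1271250, nat_lit 1100001, nat_lit 2470000, [nat_lit 780000, nat_lit 1435000, nat_lit 1271250],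 [nat_lit 8, nat_lit 40, nat_lit 40, nat_lit 80, nat_lit 1, nat_lit 373, nat_lit 150, nat_lit 10]⟩,
 ⟨nat_lit 0, nat_lit 2237, ⟨.ofNat (nat_lit 626896), .ofNat (nat_lit 668096), .ofNat (nat_lit 648744), .ofNat (nat_lit 689944), .ofNat (nat_lit 635920), .ofNat (nat_lit 672209), .ofNat (nat_lit 659993), .ofNat (nat_lit 696283)⟩, ⟨.ofNat (nat_lit 50000), .ofNat (nat_lit 192306), .ofNat (nat_lit 50000), .ofNat (nat_lit 200000), .ofNat (nat_lit 50000), .ofNat (nat_lit 199999), .ofNat (nat_lit 50000), .ofNat (nat_lit 200000)⟩⟩, [⟨nat_lit 0, nat_lit 87, nat_lit 44, nat_lit 100, nat_lit 578036168⟩, ⟨nat_lit 3, nat_lit 100, nat_lit 54, nat_lit 57, nat_lit 101676013⟩, ⟨nat_lit 7, nat_lit 100, nat_lit 93, nat_lit 97, nat_lit 92773809⟩]⟩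
noncomputable def p122_l16 : Lf2 := ⟨nat_lit 0, nat_lit 20, [nat_lit 5, nat_lit 5, nat_lit 5, nat_lit 20], true, nat_lit 80, nat_lit 160, nat_lit 0, nat_lit 336, ⟨nat_lit 0, nat_lit 643, nat_lit 357, nat_lit 7, nat_lit 238, nat_lit 1000, nat_lit 105, nat_lit 357, nat_lit 101400, nat_lit 293, nat_lit 70830, nat_lit 200, nat_lit 45472850, nat_lit 16870033, nat_lit 4657117, nat_lit 4222812, false, false⟩,
 nat_lit 0, nat_lit 0, nat_lit 0, nat_lit 0, nat_lit 3488, nat_lit 0, nat_lit 0, nat_lit 0, nat_lit 0, nat_lit 0, nat_lit 0, nat_lit 0, nat_lit 0, nat_lit 0, nat_lit 0, nat_lit 226795, nat_lit 0, nat_lit 0, [(nat_lit 25, [(nat_lit 0, nat_lit 643), (nat_lit 3, nat_lit 357)]), (nat_lit 28, [(nat_lit 0, nat_lit 643), (nat_lit 3, nat_lit 357)])],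
 ⟨p122_k12, nat_lit 0, nat_lit 0, nat_lit 106, nat_lit 0, nat_lit 0, [nat_lit 1062916001, nat_lit 884065200], [], [nat_lit 19753236895, nat_lit 22843743498, nat_lit 22118981970, nat_lit 24951350688, nat_lit 20582695916, nat_lit 23269519441, nat_lit 22734409074, nat_lit 25129267360], nat_lit 0, nat_lit 0, nat_lit 0, nat_lit 0, nat_lit 0, nat_lit 0, [], [nat_lit 88, nat_lit 40, nat_lit 40, nat_lit 80, nat_lit 89, nat_lit 317, nat_lit 100, nat_lit 11]⟩, C1.Rw.none,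
 ⟨nat_lit 0, nat_lit 3163, ⟨.ofNat (nat_lit 507176), .ofNat (nat_lit 646918), .ofNat (nat_lit 528026), .ofNat (nat_lit 667768), .ofNat (nat_lit 531701), .ofNat (nat_lit 647345), .ofNat (nat_lit 555396), .ofNat (nat_lit 671040)⟩, ⟨.ofNat (nat_lit 184209), .ofNat (nat_lit 306113), .ofNat (nat_lit 200000), .ofNat (nat_lit 350425), .ofNat (nat_lit 199999), .ofNat (nat_lit 299996), .ofNat (nat_lit 200000), .ofNat (nat_lit 349998)⟩⟩, []⟩
noncomputable def p122_l17 : Lf2 := ⟨nat_lit 0, nat_lit 20, [nat_lit 5, nat_lit 5, nat_lit 5, nat_lit 20], false, nat_lit 80, nat_lit 160, nat_lit 0, nat_lit 320, ⟨nat_lit 135, nat_lit 755, nat_lit 110, nat_lit 7, nat_lit 254, nat_lit 865, nat_lit 105, nat_lit 110, nat_lit 101400, nat_lit 293, nat_lit 118222, nat_lit 200, nat_lit 43991870, nat_lit 18428545, nat_lit 4579585, nat_lit 4320687, true, false⟩,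
 nat_lit 0, nat_lit 0, nat_lit 1561, nat_lit 0, nat_lit 4055, nat_lit 1080, nat_lit 0, nat_lit 0, nat_lit 0, nat_lit 21, nat_lit 0, nat_lit 0, nat_lit 0, nat_lit 0, nat_lit 0, nat_lit 268050, nat_lit 0, nat_lit 0, [(nat_lit 25, [(nat_lit 0, nat_lit 362), (nat_lit 1, nat_lit 393), (nat_lit 3, nat_lit 110)]), (nat_lit 28, [(nat_lit 0, nat_lit 362), (nat_lit 1, nat_lit 393), (nat_lit 3, nat_lit 110)])],
 ⟨p122_k8, nat_lit 0, nat_lit 0, nat_lit 105, nat_lit 0, nat_lit 0, [nat_lit 914231601, nat_lit 1308918000, nat_lit 1822915600], [], [nat_lit 20991964804, nat_lit 24227295793, nat_lit 22883397720, nat_lit 25769447840, nat_lit 21504085965, nat_lit 24421200361, nat_lit 23217536940, nat_lit 25827550780], nat_lit 0, nat_lit 0, nat_lit 0, nat_lit 0, nat_lit 0, nat_lit 0, [], [nat_lit 20, nat_lit 40, nat_lit 40, nat_lit 80, nat_lit 16, nat_lit 317, nat_lit 100, nat_lit 11]⟩, ⟨p122_k11, nat_lit 0, nat_lit 0, nat_lit 866, nat_lit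 0, nat_lit 1455935, [nat_lit 443070000, nat_lit 843750000, nat_lit 1328670000], [], [nat_lit 4751517931, nat_lit 4833956275, nat_lit 4805188530, nat_lit 4875699570, nat_lit 4316010954, nat_lit 4356430278, nat_lit 4776210675, nat_lit 4320164850], nat_lit 1271250, nat_lit 1271250, nat_lit 1236400, nat_lit 1794000, nat_lit 0, nat_lit 2260000, [nat_lit 780000, nat_lit 1435000, nat_lit 1271250], [nat_lit 8, nat_lit 40, nat_lit 40, nat_lit 80, nat_lit 1, nat_lit 373, nat_lit 150, nat_lit 10]⟩,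
 ⟨nat_lit 0, nat_lit 3163, ⟨.ofNat (nat_lit 566138), .ofNat (nat_lit 667768), .ofNat (nat_lit 586988), .ofNat (nat_lit 688618), .ofNat (nat_lit 586935), .ofNat (nat_lit 671040), .ofNat (nat_lit 610631), .ofNat (nat_lit 694736)⟩, ⟨.ofNat (nat_lit 184209), .ofNat (nat_lit 306113), .ofNat (nat_lit 200000), .ofNat (nat_lit 350425), .ofNat (nat_lit 199999), .ofNat (nat_lit 299996), .ofNat (nat_lit 200000), .ofNat (nat_lit 349998)⟩⟩, [⟨nat_lit 0, nat_lit 84, nat_lit 44, nat_lit 100, nat_lit 279523442⟩, ⟨nat_lit 19, nat_lit 94, nat_lit 88, nat_lit 100, nat_lit 17289525⟩]⟩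
noncomputable def p122_l18 : Lf2 := ⟨nat_lit 0, nat_lit 20, [nat_lit 5, nat_lit 5, nat_lit 5, nat_lit 20], false, nat_lit 160, nat_lit 248, nat_lit 0, nat_lit 336, ⟨nat_lit 95, nat_lit 905, nat_lit 0, nat_lit 7, nat_lit 238, nat_lit 905, nat_lit 155, nat_lit 0, nat_lit 0, nat_lit 0, nat_lit 0, nat_lit 0, nat_lit 42516972, nat_lit 16238117, nat_lit 8244911, nat_lit 4777315, false, false⟩,
 nat_lit 0, nat_lit 0, nat_lit 1327, nat_lit 0, nat_lit 3347, nat_lit 844, nat_lit 0, nat_lit 0, nat_lit 0, nat_lit 6, nat_lit 0, nat_lit 0, nat_lit 0, nat_lit 0, nat_lit 0, nat_lit 226250, nat_lit 0, nat_lit 0, [(nat_lit 25, [(nat_lit 0, nat_lit 905)]), (nat_lit 28, [(nat_lit 0, nat_lit 905)])],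
 ⟨p122_k8, nat_lit 0, nat_lit 0, nat_lit 58, nat_lit 0, nat_lit 0, [nat_lit 796458001, nat_lit 1550554000, nat_lit 2510540000], [], [nat_lit 19619991226, nat_lit 22906590568, nat_lit 22071747240, nat_lit 24986191840, nat_lit 22297810639, nat_lit 25231133949, nat_lit 24431127780, nat_lit 26970468593], nat_lit 0, nat_lit 0, nat_lit 0, nat_lit 0, nat_lit 0, nat_lit 0, [], [nat_lit 20, nat_lit 40, nat_lit 40, nat_lit 80, nat_lit 16, nat_lit 345, nat_lit 125, nat_lit 12]⟩, ⟨p122_k9, nat_lit 0, nat_lit 0, nat_lit 976, nat_lit 0, nat_lit 1511242, [nat_lit 311790000, nat_lit 593750000, nat_lit 1127840000], [], [nat_lit 3602764855, nat_lit 3629164765, nat_lit 3548708538, nat_lit 3636013942, nat_lit 3277347823, nat_lit 3364548585, nat_lit 3749018656, nat_lit 3383781963], nat_lit 1271250, nat_lit 1271250, nat_lit 1033601, nat_lit 1780500, nat_lit 0, nat_lit 2373000, [nat_lit 780000, nat_lit 1435000, nat_lit 1271250], [nat_lit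 23, nat_lit 40, nat_lit 40, nat_lit 80, nat_lit 12, nat_lit 456, nat_lit 225, nat_lit 12]⟩,
 ⟨nat_lit 0, nat_lit 3163, ⟨.ofNat (nat_lit 507176), .ofNat (nat_lit 646918), .ofNat (nat_lit 528026), .ofNat (nat_lit 667768), .ofNat (nat_lit 531701), .ofNat (nat_lit 647345), .ofNat (nat_lit 555396), .ofNat (nat_lit 671040)⟩, ⟨.ofNat (nat_lit 306113), .ofNat (nat_lit 440207), .ofNat (nat_lit 350425), .ofNat (nat_lit 484518), .ofNat (nat_lit 299996), .ofNat (nat_lit 409993), .ofNat (nat_lit 349998), .ofNat (nat_lit 459993)⟩⟩, [⟨nat_lit 0, nat_lit 94, nat_lit 62, nat_lit 100, nat_lit 6426320⟩, ⟨nat_lit 16, nat_lit 62, nat_lit 100, nat_lit 94, nat_lit 271176525⟩, ⟨nat_lit 19, nat_lit 100, nat_lit 94, nat_lit 97, nat_lit 14617543⟩]⟩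
noncomputable def p122_l19 : Lf2 := ⟨nat_lit 0, nat_lit 20, [nat_lit 5, nat_lit 5, nat_lit 5, nat_lit 20], false, nat_lit 160, nat_lit 248, nat_lit 0, nat_lit 320, ⟨nat_lit 164, nat_lit 836, nat_lit 0, nat_lit 7, nat_lit 254, nat_lit 836, nat_lit 155, nat_lit 0, nat_lit 0, nat_lit 0, nat_lit 0, nat_lit 0, nat_lit 41211893, nat_lit 17697135, nat_lit 8090972, nat_lit 4861705, true, false⟩,
 nat_lit 0, nat_lit 0, nat_lit 1758, nat_lit 0, nat_lit 3467, nat_lit 1216, nat_lit 0, nat_lit 0, nat_lit 0, nat_lit 102, nat_lit 0, nat_lit 0, nat_lit 0, nat_lit 0, nat_lit 0, nat_lit 209000, nat_lit 0, nat_lit 0, [(nat_lit 25, [(nat_lit 0, nat_lit 836)]), (nat_lit 28, [(nat_lit 0, nat_lit 836)])],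
 ⟨p122_k8, nat_lit 0, nat_lit 0, nat_lit 55, nat_lit 0, nat_lit 0, [nat_lit 807249600, nat_lit 1682564800, nat_lit 2795648000], [], [nat_lit 20224090790, nat_lit 23447061557, nat_lit 22146028440, nat_lit 25107958240, nat_lit 22813543410, nat_lit 25693068197, nat_lit 24503703012, nat_lit 27085309697], nat_lit 0, nat_lit 0, nat_lit 0, nat_lit 0, nat_lit 0, nat_lit 0, [], [nat_lit 20, nat_lit 40, nat_lit 40, nat_lit 80, nat_lit 16, nat_lit 345, nat_lit 125, nat_lit 12]⟩, ⟨p122_k11, nat_lit 0, nat_lit 0, nat_lit 866, nat_lit 0, nat_lit 1455935, [nat_lit 538248000, nat_lit 1025000000, nat_lit 1614088000], [], [nat_lit 4951930760, nat_lit 5049871080, nat_lit 5026558068, nat_lit 5110873652, nat_lit 4523215624, nat_lit 4573070027, nat_lit 5758639154, nat_lit 5228655282], nat_lit 1271250, nat_lit 1271250, nat_lit 1236400, nat_lit 1794000, nat_lit 0, nat_lit 2260000, [nat_lit 780000, nat_lit 1435000, nat_lit 1271250], [nat_lit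 8, nat_lit 40, nat_lit 40, nat_lit 80, nat_lit 1, nat_lit 373, nat_lit 150, nat_lit 10]⟩,
 ⟨nat_lit 0, nat_lit 3163, ⟨.ofNat (nat_lit 566138), .ofNat (nat_lit 667768), .ofNat (nat_lit 586988), .ofNat (nat_lit 688618), .ofNat (nat_lit 586935), .ofNat (nat_lit 671040), .ofNat (nat_lit 610631), .ofNat (nat_lit 694736)⟩, ⟨.ofNat (nat_lit 306113), .ofNat (nat_lit 440207), .ofNat (nat_lit 350425), .ofNat (nat_lit 484518), .ofNat (nat_lit 299996), .ofNat (nat_lit 409993), .ofNat (nat_lit 349998), .ofNat (nat_lit 459993)⟩⟩, [⟨nat_lit 0, nat_lit 87, nat_lit 60, nat_lit 100, nat_lit 33284520⟩, ⟨nat_lit 16, nat_lit 62, nat_lit 100, nat_lit 94, nat_lit 297356012⟩, ⟨nat_lit 7, nat_lit 100, nat_lit 93, nat_lit 97, nat_lit 25327188⟩]⟩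
noncomputable def b_V_900_700_20_9 : St := ⟨true, nat_lit 0, nat_lit 1, nat_lit 1, nat_lit 120, nat_lit 360, nat_lit 400, nat_lit 280, nat_lit 320, nat_lit 152, nat_lit 240, nat_lit 80, nat_lit 120, nat_lit 8, nat_lit 248, nat_lit 0, nat_lit 336, nat_lit 40, nat_lit 80, nat_lit 0, nat_lit 0, nat_lit 0, nat_lit 0⟩
theorem d_V_900_700_20_9 (h : EB TB.env) : Dead b_V_900_700_20_9 := chkB_sound0 h (T :=
(.spl (nat_lit 4) (nat_lit 160)
(.spl (nat_lit 4) (nat_lit 80)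
(.spl (nat_lit 1) (nat_lit 300)
(.spl (nat_lit 2) (nat_lit 200)
(.spl (nat_lit 0) (nat_lit 380)
(.leaf p122_l9)
(.trZ (nat_lit 0) (nat_lit 92) (nat_lit 44) (nat_lit 100) (nat_lit 192) (.trZ (nat_lit 3) (nat_lit 100) (nat_lit 54) (nat_lit 57) (nat_lit 20) (.leaf p122_l10))))
(.spl (nat_lit 0) (nat_lit 380)
(.leaf p122_l11)
(.trZ (nat_lit 3) (nat_lit 100) (nat_lit 54) (nat_lit 57) (nat_lit 20) (.leaf p122_l12))))
(.trZ (nat_lit 0) (nat_lit 87) (nat_lit 60) (nat_lit 100) (nat_lit 176) (.trX (nat_lit 19) (nat_lit 94) (nat_lit 88) (nat_lit 100) (nat_lit 320) (.spl (nat_lit 5) (nat_lit 160)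
(.leaf p122_l13)
(.spl (nat_lit 0) (nat_lit 380)
(.leaf p122_l14)
(.trZ (nat_lit 0) (nat_lit 87) (nat_lit 44) (nat_lit 100) (nat_lit 212) (.trZ (nat_lit 3) (nat_lit 100) (nat_lit 54) (nat_lit 57) (nat_lit 20) (.leaf p122_l15))))))))
(.spl (nat_lit 1) (nat_lit 300)
(.leaf p122_l16)
(.trZ (nat_lit 0) (nat_lit 87) (nat_lit 60) (nat_lit 100) (nat_lit 176) (.trX (nat_lit 19) (nat_lit 94) (nat_lit 88) (nat_lit 100) (nat_lit 320) (.leaf p122_l17)))))
(.spl (nat_lit 1) (nat_lit 300)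
(.leaf p122_l18)
(.trZ (nat_lit 0) (nat_lit 87) (nat_lit 60) (nat_lit 100) (nat_lit 176) (.trX (nat_lit 19) (nat_lit 94) (nat_lit 88) (nat_lit 100) (nat_lit 320) (.leaf p122_l19)))))) (by decide +kernel)
noncomputable def p122_l20 : Lf2 := ⟨nat_lit 0, nat_lit 20, [nat_lit 5, nat_lit 5, nat_lit 5, nat_lit 20], false, nat_lit 8, nat_lit 80, nat_lit 0, nat_lit 160, ⟨nat_lit 464, nat_lit 536, nat_lit 0, nat_lit 7, nat_lit 288, nat_lit 536, nat_lit 43, nat_lit 0, nat_lit 0, nat_lit 0, nat_lit 0, nat_lit 0, nat_lit 43229079, nat_lit 22605197, nat_lit 1165724, nat_lit 3702503, true, false⟩,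
 nat_lit 0, nat_lit 0, nat_lit 5777, nat_lit 0, nat_lit 3019, nat_lit 3675, nat_lit 150, nat_lit 0, nat_lit 0, nat_lit 345, nat_lit 0, nat_lit 0, nat_lit 0, nat_lit 0, nat_lit 0, nat_lit 435200, nat_lit 0, nat_lit 0, [(nat_lit 25, [(nat_lit 1, nat_lit 168), (nat_lit 2, nat_lit 368)])],
 ⟨p122_k8, nat_lit 0, nat_lit 0, nat_lit 146, nat_lit 0, nat_lit 0, [nat_lit 1117529601, nat_lit 1551022934, nat_lit 1619079822], [], [nat_lit 24035973864, nat_lit 24604404924, nat_lit 26945602029, nat_lit 27483580420, nat_lit 23335442984, nat_lit 23873932796, nat_lit 26119755210, nat_lit 26642798849], nat_lit 0, nat_lit 0, nat_lit 0, nat_lit 0, nat_lit 0, nat_lit 0, [], [nat_lit 20, nat_lit 40, nat_lit 40, nat_lit 80, nat_lit 16, nat_lit 226, nat_lit 20, nat_lit 7]⟩, ⟨p122_k9, nat_lit 0, nat_lit 0, nat_lit 711, nat_lit 0, nat_lit 1036458, [nat_lit 1522848000, nat_lit 2900000000, nat_lit 5508608000], [], [nat_lit 15664577711, nat_lit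 15875697407, nat_lit 16301506363, nat_lit 16461301497, nat_lit 13488289275, nat_lit 13654872961, nat_lit 14102420180, nat_lit 14289123064], nat_lit 1271250, nat_lit 1271250, nat_lit 1271250, nat_lit 1271250, nat_lit 0, nat_lit 1100001, [nat_lit 780000, nat_lit 1435000, nat_lit 1271250], [nat_lit 23, nat_lit 40, nat_lit 40, nat_lit 80, nat_lit 12, nat_lit 428, nat_lit 200, nat_lit 11]⟩,
 ⟨nat_lit 2738, nat_lit 3163, ⟨.ofNat (nat_lit 649542), .ofNat (nat_lit 771478), .ofNat (nat_lit 671685), .ofNat (nat_lit 793629), .ofNat (nat_lit 648700), .ofNat (nat_lit 766852), .ofNat (nat_lit 671105), .ofNat (nat_lit 789265)⟩, ⟨.ofNat (nat_lit 20000), .ofNat (nat_lit 184209), .ofNat (nat_lit 20000), .ofNat (nat_lit 200000), .ofNat (nat_lit 20000), .ofNat (nat_lit 188310), .ofNat (nat_lit 20000), .ofNat (nat_lit 200000)⟩⟩, [⟨nat_lit 3, nat_lit 100, nat_lit 65, nat_lit 50, nat_lit 68164206⟩]⟩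
noncomputable def p122_l21 : Lf2 := ⟨nat_lit 0, nat_lit 20, [nat_lit 5, nat_lit 5, nat_lit 5, nat_lit 20], false, nat_lit 12, nat_lit 80, nat_lit 0, nat_lit 160, ⟨nat_lit 242, nat_lit 758, nat_lit 0, nat_lit 7, nat_lit 287, nat_lit 758, nat_lit 45, nat_lit 0, nat_lit 0, nat_lit 0, nat_lit 0, nat_lit 0, nat_lit 43234291, nat_lit 22503593, nat_lit 1262116, nat_lit 3729346, true, false⟩,
 nat_lit 0, nat_lit 0, nat_lit 3016, nat_lit 0, nat_lit 2562, nat_lit 1919, nat_lit 334, nat_lit 0, nat_lit 0, nat_lit 180, nat_lit 0, nat_lit 0, nat_lit 0, nat_lit 0, nat_lit 0, nat_lit 189500, nat_lit 0, nat_lit 0, [(nat_lit 25, [(nat_lit 0, nat_lit 758)])],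
 ⟨p122_k13, nat_lit 0, nat_lit 0, nat_lit 146, nat_lit 0, nat_lit 0, [nat_lit 806108001, nat_lit 1831794401, nat_lit 3117944000], [], [nat_lit 23682071173, nat_lit 23946756401, nat_lit 26397555649, nat_lit 26626243915, nat_lit 23253437927, nat_lit 23505283015, nat_lit 25863272485, nat_lit 26083570179], nat_lit 0, nat_lit 0, nat_lit 0, nat_lit 0, nat_lit 0, nat_lit 0, [], [nat_lit 20, nat_lit 40, nat_lit 40, nat_lit 80, nat_lit 16, nat_lit 226, nat_lit 20, nat_lit 7]⟩, ⟨p122_k9, nat_lit 0, nat_lit 0, nat_lit 737, nat_lit 0, nat_lit 1111711, [nat_lit 794244000, nat_lit 1512500000, nat_lit 2873024000], [], [nat_lit 8160137452, nat_lit 8270263504, nat_lit 8492280544, nat_lit 8581472580, nat_lit 7023087792, nat_lit 7109965578, nat_lit 7344156604, nat_lit 7441537724], nat_lit 1271250, nat_lit 1271250, nat_lit 1271250, nat_lit 1271250, nat_lit 0, nat_lit 1100001, [nat_lit 780000, nat_lit 1435000, nat_lit 1271250], [nat_lit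 23, nat_lit 40, nat_lit 40, nat_lit 80, nat_lit 12, nat_lit 428, nat_lit 200, nat_lit 11]⟩,
 ⟨nat_lit 2500, nat_lit 2739, ⟨.ofNat (nat_lit 648720), .ofNat (nat_lit 766852), .ofNat (nat_lit 671134), .ofNat (nat_lit 789269), .ofNat (nat_lit 648376), .ofNat (nat_lit 764515), .ofNat (nat_lit 670953), .ofNat (nat_lit 787095)⟩, ⟨.ofNat (nat_lit 30000), .ofNat (nat_lit 188310), .ofNat (nat_lit 30000), .ofNat (nat_lit 200000), .ofNat (nat_lit 30000), .ofNat (nat_lit 190321), .ofNat (nat_lit 30000), .ofNat (nat_lit 200000)⟩⟩, [⟨nat_lit 3, nat_lit 100, nat_lit 58, nat_lit 57, nat_lit 137698699⟩]⟩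
noncomputable def p122_l22 : Lf2 := ⟨nat_lit 0, nat_lit 20, [nat_lit 5, nat_lit 5, nat_lit 5, nat_lit 20], false, nat_lit 16, nat_lit 80, nat_lit 0, nat_lit 160, ⟨nat_lit 224, nat_lit 776, nat_lit 0, nat_lit 7, nat_lit 287, nat_lit 776, nat_lit 47, nat_lit 0, nat_lit 0, nat_lit 0, nat_lit 0, nat_lit 0, nat_lit 43213849, nat_lit 22430087, nat_lit 1356064, nat_lit 3756033, true, false⟩,
 nat_lit 0, nat_lit 0, nat_lit 2840, nat_lit 0, nat_lit 2388, nat_lit 1807, nat_lit 320, nat_lit 0, nat_lit 0, nat_lit 152, nat_lit 0, nat_lit 0, nat_lit 0, nat_lit 0, nat_lit 0, nat_lit 194000, nat_lit 0, nat_lit 0, [(nat_lit 25, [(nat_lit 0, nat_lit 776)])],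
 ⟨p122_k14, nat_lit 0, nat_lit 0, nat_lit 146, nat_lit 0, nat_lit 0, [nat_lit 802976001, nat_lit 1797356800, nat_lit 3043568000], [], [nat_lit 23584323568, nat_lit 23841163203, nat_lit 26218903786, nat_lit 26441817549, nat_lit 23262905390, nat_lit 23508125602, nat_lit 25803279824, nat_lit 26031007308], nat_lit 0, nat_lit 0, nat_lit 0, nat_lit 0, nat_lit 0, nat_lit 0, [], [nat_lit 20, nat_lit 40, nat_lit 40, nat_lit 80, nat_lit 16, nat_lit 226, nat_lit 20, nat_lit 7]⟩, ⟨p122_k9, nat_lit 0, nat_lit 0, nat_lit 798, nat_lit 0, nat_lit 1188424, [nat_lit 735168000, nat_lit 1400000000, nat_lit 2659328000], [], [nat_lit 7847478648, nat_lit 7919759326, nat_lit 8051054024, nat_lit 8106107444, nat_lit 6794228140, nat_lit 6848839138, nat_lit 6988952596, nat_lit 7051475776], nat_lit 1271250, nat_lit 1271250, nat_lit 1271250, nat_lit 1271250, nat_lit 0, nat_lit 1100001, [nat_lit 780000, nat_lit 1435000, nat_lit 1271250], [nat_lit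 23, nat_lit 40, nat_lit 40, nat_lit 80, nat_lit 12, nat_lit 428, nat_lit 200, nat_lit 11]⟩,
 ⟨nat_lit 2236, nat_lit 2500, ⟨.ofNat (nat_lit 648374), .ofNat (nat_lit 764515), .ofNat (nat_lit 670948), .ofNat (nat_lit 787095), .ofNat (nat_lit 648099), .ofNat (nat_lit 762142), .ofNat (nat_lit 670867), .ofNat (nat_lit 784917)⟩, ⟨.ofNat (nat_lit 40000), .ofNat (nat_lit 190321), .ofNat (nat_lit 40000), .ofNat (nat_lit 200000), .ofNat (nat_lit 40000), .ofNat (nat_lit 192306), .ofNat (nat_lit 40000), .ofNat (nat_lit 200000)⟩⟩, [⟨nat_lit 3, nat_lit 100, nat_lit 53, nat_lit 62, nat_lit 140779254⟩]⟩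
noncomputable def p122_l23 : Lf2 := ⟨nat_lit 0, nat_lit 20, [nat_lit 5, nat_lit 5, nat_lit 5, nat_lit 20], false, nat_lit 8, nat_lit 80, nat_lit 160, nat_lit 336, ⟨nat_lit 238, nat_lit 762, nat_lit 0, nat_lit 7, nat_lit 286, nat_lit 762, nat_lit 43, nat_lit 0, nat_lit 0, nat_lit 0, nat_lit 0, nat_lit 0, nat_lit 43453319, nat_lit 22377669, nat_lit 1169012, nat_lit 3692328, true, false⟩,
 nat_lit 0, nat_lit 0, nat_lit 2934, nat_lit 0, nat_lit 2989, nat_lit 1867, nat_lit 2, nat_lit 0, nat_lit 0, nat_lit 185, nat_lit 0, nat_lit 0, nat_lit 0, nat_lit 0, nat_lit 0, nat_lit 472800, nat_lit 0, nat_lit 0, [(nat_lit 25, [(nat_lit 1, nat_lit 482), (nat_lit 2, nat_lit 280)])],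
 ⟨p122_k8, nat_lit 0, nat_lit 0, nat_lit 146, nat_lit 0, nat_lit 0, [nat_lit 1041589601, nat_lit 1157482934, nat_lit 838759289], [], [nat_lit 23937958059, nat_lit 24503924130, nat_lit 26848614762, nat_lit 27408686979, nat_lit 23255405831, nat_lit 23791611203, nat_lit 26031456855, nat_lit 26493574854], nat_lit 0, nat_lit 0, nat_lit 0, nat_lit 0, nat_lit 0, nat_lit 0, [], [nat_lit 20, nat_lit 40, nat_lit 40, nat_lit 80, nat_lit 16, nat_lit 226, nat_lit 20, nat_lit 7]⟩, ⟨p122_k9, nat_lit 0, nat_lit 0, nat_lit 557, nat_lit 0, nat_lit 963764, [nat_lit 781116000, nat_lit 1487500000, nat_lit 2825536000], [], [nat_lit 6553547263, nat_lit 6612874672, nat_lit 6917972367, nat_lit 6964474776, nat_lit 7105940211, nat_lit 7156790714, nat_lit 7409355536, nat_lit 7447598506], nat_lit 1271250, nat_lit 1271250, nat_lit 1271250, nat_lit 1271250, nat_lit 1100001, nat_lit 2607000, [nat_lit 780000, nat_lit 1435000, nat_lit 1271250], [nat_lit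 23, nat_lit 40, nat_lit 40, nat_lit 80, nat_lit 12, nat_lit 483, nat_lit 250, nat_lit 11]⟩,
 ⟨nat_lit 2738, nat_lit 3163, ⟨.ofNat (nat_lit 649542), .ofNat (nat_lit 771478), .ofNat (nat_lit 660614), .ofNat (nat_lit 782555), .ofNat (nat_lit 648700), .ofNat (nat_lit 766852), .ofNat (nat_lit 659903), .ofNat (nat_lit 778060)⟩, ⟨.ofNat (nat_lit 20000), .ofNat (nat_lit 184209), .ofNat (nat_lit 20000), .ofNat (nat_lit 200000), .ofNat (nat_lit 20000), .ofNat (nat_lit 188310), .ofNat (nat_lit 20000), .ofNat (nat_lit 200000)⟩⟩, [⟨nat_lit 10, nat_lit 100, nat_lit 93, nat_lit 64, nat_lit 114360131⟩]⟩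
noncomputable def p122_l24 : Lf2 := ⟨nat_lit 0, nat_lit 20, [nat_lit 5, nat_lit 5, nat_lit 5, nat_lit 20], false, nat_lit 12, nat_lit 80, nat_lit 160, nat_lit 336, ⟨nat_lit 233, nat_lit 767, nat_lit 0, nat_lit 7, nat_lit 285, nat_lit 767, nat_lit 45, nat_lit 0, nat_lit 0, nat_lit 0, nat_lit 0, nat_lit 0, nat_lit 43483523, nat_lit 22246190, nat_lit 1270287, nat_lit 3719135, true, false⟩,
 nat_lit 0, nat_lit 0, nat_lit 2879, nat_lit 0, nat_lit 2673, nat_lit 1832, nat_lit 300, nat_lit 0, nat_lit 0, nat_lit 178, nat_lit 0, nat_lit 0, nat_lit 0, nat_lit 0, nat_lit 0, nat_lit 191750, nat_lit 0, nat_lit 0, [(nat_lit 25, [(nat_lit 0, nat_lit 767)])],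
 ⟨p122_k13, nat_lit 0, nat_lit 0, nat_lit 148, nat_lit 0, nat_lit 0, [nat_lit 804542000, nat_lit 1814575601, nat_lit 3080756000], [], [nat_lit 23862314862, nat_lit 24400768664, nat_lit 26603713992, nat_lit 27206025595, nat_lit 23370225297, nat_lit 23882367901, nat_lit 26004009104, nat_lit 26447454347], nat_lit 0, nat_lit 0, nat_lit 0, nat_lit 0, nat_lit 0, nat_lit 0, [], [nat_lit 20, nat_lit 40, nat_lit 40, nat_lit 80, nat_lit 16, nat_lit 226, nat_lit 20, nat_lit 7]⟩, ⟨p122_k9, nat_lit 0, nat_lit 0, nat_lit 653, nat_lit 0, nat_lit 1119789, [nat_lit 764706000, nat_lit 1456250000, nat_lit 2766176000], [], [nat_lit 6429348518, nat_lit 6487453922, nat_lit 6786095742, nat_lit 6830589698, nat_lit 6939982215, nat_lit 6989773253, nat_lit 7236890524, nat_lit 7291148703], nat_lit 1271250, nat_lit 1271250, nat_lit 1271250, nat_lit 1271250, nat_lit 1100001, nat_lit 2607000, [nat_lit 780000, nat_lit 1435000, nat_lit 1271250], [nat_lit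 23, nat_lit 40, nat_lit 40, nat_lit 80, nat_lit 12, nat_lit 483, nat_lit 250, nat_lit 11]⟩,
 ⟨nat_lit 2236, nat_lit 2739, ⟨.ofNat (nat_lit 648684), .ofNat (nat_lit 766852), .ofNat (nat_lit 659883), .ofNat (nat_lit 778061), .ofNat (nat_lit 648065), .ofNat (nat_lit 762142), .ofNat (nat_lit 659443), .ofNat (nat_lit 773529)⟩, ⟨.ofNat (nat_lit 30000), .ofNat (nat_lit 188310), .ofNat (nat_lit 30000), .ofNat (nat_lit 200000), .ofNat (nat_lit 30000), .ofNat (nat_lit 192306), .ofNat (nat_lit 30000), .ofNat (nat_lit 200000)⟩⟩, [⟨nat_lit 10, nat_lit 100, nat_lit 93, nat_lit 66, nat_lit 107188098⟩]⟩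
noncomputable def p122_l25 : Lf2 := ⟨nat_lit 0, nat_lit 20, [nat_lit 5, nat_lit 5, nat_lit 5, nat_lit 20], false, nat_lit 8, nat_lit 80, nat_lit 160, nat_lit 328, ⟨nat_lit 247, nat_lit 753, nat_lit 0, nat_lit 7, nat_lit 290, nat_lit 753, nat_lit 43, nat_lit 0, nat_lit 0, nat_lit 0, nat_lit 0, nat_lit 0, nat_lit 43050658, nat_lit 22778046, nat_lit 1171296, nat_lit 3712751, true, false⟩,
 nat_lit 0, nat_lit 0, nat_lit 2698, nat_lit 0, nat_lit 3161, nat_lit 1791, nat_lit 103, nat_lit 0, nat_lit 0, nat_lit 195, nat_lit 0, nat_lit 0, nat_lit 0, nat_lit 0, nat_lit 0, nat_lit 301200, nat_lit 0, nat_lit 0, [(nat_lit 25, [(nat_lit 1, nat_lit 753)])],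
 ⟨p122_k8, nat_lit 0, nat_lit 0, nat_lit 150, nat_lit 0, nat_lit 0, [nat_lit 867820401, nat_lit 1565260400, nat_lit 2232895600], [], [nat_lit 24334986734, nat_lit 25549307904, nat_lit 27375407187, nat_lit 28508213135, nat_lit 23545679121, nat_lit 24644284777, nat_lit 26361774497, nat_lit 27306337799], nat_lit 0, nat_lit 0, nat_lit 0, nat_lit 0, nat_lit 0, nat_lit 0, [], [nat_lit 20, nat_lit 40, nat_lit 40, nat_lit 80, nat_lit 16, nat_lit 226, nat_lit 20, nat_lit 7]⟩, ⟨p122_k15, nat_lit 0, nat_lit 0, nat_lit 651, nat_lit 0, nat_lit 1116671, [nat_lit 810654000, nat_lit 1543750000, nat_lit 2932384000], [], [nat_lit 6707234514, nat_lit 6767959363, nat_lit 7072692646, nat_lit 7119909763, nat_lit 7206956159, nat_lit 7260994329, nat_lit 7525468902, nat_lit 7596813345], nat_lit 1271250, nat_lit 1271250, nat_lit 1271250, nat_lit 1271250, nat_lit 1100001, nat_lit 2538500, [nat_lit 780000, nat_lit 1435000, nat_lit 1271250], [nat_lit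 23, nat_lit 40, nat_lit 40, nat_lit 80, nat_lit 12, nat_lit 483, nat_lit 250, nat_lit 11]⟩,
 ⟨nat_lit 2236, nat_lit 3163, ⟨.ofNat (nat_lit 660469), .ofNat (nat_lit 782556), .ofNat (nat_lit 671514), .ofNat (nat_lit 793619), .ofNat (nat_lit 659318), .ofNat (nat_lit 773529), .ofNat (nat_lit 670673), .ofNat (nat_lit 784902)⟩, ⟨.ofNat (nat_lit 20000), .ofNat (nat_lit 184209), .ofNat (nat_lit 20000), .ofNat (nat_lit 200000), .ofNat (nat_lit 20000), .ofNat (nat_lit 192306), .ofNat (nat_lit 20000), .ofNat (nat_lit 200000)⟩⟩, [⟨nat_lit 22, nat_lit 94, nat_lit 100, nat_lit 61, nat_lit 122987993⟩]⟩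
noncomputable def p122_l26 : Lf2 := ⟨nat_lit 0, nat_lit 20, [nat_lit 5, nat_lit 5, nat_lit 5, nat_lit 20], false, nat_lit 20, nat_lit 80, nat_lit 0, nat_lit 336, ⟨nat_lit 118, nat_lit 882, nat_lit 0, nat_lit 7, nat_lit 275, nat_lit 882, nat_lit 50, nat_lit 0, nat_lit 0, nat_lit 0, nat_lit 0, nat_lit 0, nat_lit 44368741, nat_lit 21145312, nat_lit 1485947, nat_lit 3729049, true, false⟩,
 nat_lit 0, nat_lit 0, nat_lit 1532, nat_lit 0, nat_lit 2479, nat_lit 974, nat_lit 57, nat_lit 0, nat_lit 0, nat_lit 77, nat_lit 0, nat_lit 0, nat_lit 0, nat_lit 0, nat_lit 0, nat_lit 352800, nat_lit 0, nat_lit 0, [(nat_lit 28, [(nat_lit 1, nat_lit 882)])],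
 ⟨p122_k10, nat_lit 0, nat_lit 0, nat_lit 145, nat_lit 0, nat_lit 0, [nat_lit 725967200, nat_lit 673749600, nat_lit 859216000], [], [nat_lit 23747181512, nat_lit 24868465895, nat_lit 25065242452, nat_lit 26117651546, nat_lit 23336744150, nat_lit 24402336233, nat_lit 24606751639, nat_lit 25607510145], nat_lit 0, nat_lit 0, nat_lit 0, nat_lit 0, nat_lit 0, nat_lit 0, [], [nat_lit 20, nat_lit 40, nat_lit 40, nat_lit 80, nat_lit 16, nat_lit 226, nat_lit 20, nat_lit 7]⟩, ⟨p122_k9, nat_lit 0, nat_lit 0, nat_lit 932, nat_lit 0, nat_lit 1511242, [nat_lit 387276000, nat_lit 737500000, nat_lit 1400896000], [], [nat_lit 4179744699, nat_lit 4204743631, nat_lit 4199131619, nat_lit 4225602360, nat_lit 3669343354, nat_lit 3682052715, nat_lit 3668372367, nat_lit 3679276761], nat_lit 1271250, nat_lit 1271250, nat_lit 1271250, nat_lit 1271250, nat_lit 0, nat_lit 2373000, [nat_lit 780000, nat_lit 1435000, nat_lit 1271250], [nat_lit 23,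 nat_lit 40, nat_lit 40, nat_lit 80, nat_lit 12, nat_lit 483, nat_lit 250, nat_lit 12]⟩,
 ⟨nat_lit 0, nat_lit 2237, ⟨.ofNat (nat_lit 646249), .ofNat (nat_lit 705063), .ofNat (nat_lit 668096), .ofNat (nat_lit 726954), .ofNat (nat_lit 648136), .ofNat (nat_lit 699935), .ofNat (nat_lit 672209), .ofNat (nat_lit 724051)⟩, ⟨.ofNat (nat_lit 50000), .ofNat (nat_lit 192306), .ofNat (nat_lit 50000), .ofNat (nat_lit 200000), .ofNat (nat_lit 50000), .ofNat (nat_lit 199999), .ofNat (nat_lit 50000), .ofNat (nat_lit 200000)⟩⟩, [⟨nat_lit 3, nat_lit 100, nat_lit 36, nat_lit 77, nat_lit 269894365⟩, ⟨nat_lit 22, nat_lit 100, nat_lit 96, nat_lit 69, nat_lit 20645486⟩]⟩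
noncomputable def p122_l27 : Lf2 := ⟨nat_lit 0, nat_lit 20, [nat_lit 5, nat_lit 5, nat_lit 5, nat_lit 20], false, nat_lit 20, nat_lit 40, nat_lit 0, nat_lit 248, ⟨nat_lit 113, nat_lit 887, nat_lit 0, nat_lit 7, nat_lit 296, nat_lit 887, nat_lit 30, nat_lit 0, nat_lit 0, nat_lit 0, nat_lit 0, nat_lit 0, nat_lit 42746072, nat_lit 23571154, nat_lit 682774, nat_lit 3574706, true, true⟩,
 nat_lit 0, nat_lit 0, nat_lit 1475, nat_lit 0, nat_lit 2248, nat_lit 938, nat_lit 105, nat_lit 0, nat_lit 0, nat_lit 63, nat_lit 0, nat_lit 0, nat_lit 0, nat_lit 0, nat_lit 0, nat_lit 354800, nat_lit 0, nat_lit 0, [(nat_lit 28, [(nat_lit 1, nat_lit 887)])],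
 ⟨p122_k10, nat_lit 0, nat_lit 0, nat_lit 151, nat_lit 0, nat_lit 0, [nat_lit 724765200, nat_lit 658963601, nat_lit 828656000], [], [nat_lit 24684037949, nat_lit 25690455709, nat_lit 26118913305, nat_lit 27225502608, nat_lit 24573076197, nat_lit 25565887061, nat_lit 25992119309, nat_lit 26913396432], nat_lit 0, nat_lit 0, nat_lit 0, nat_lit 0, nat_lit 0, nat_lit 0, [], [nat_lit 20, nat_lit 40, nat_lit 40, nat_lit 80, nat_lit 16, nat_lit 215, nat_lit 10, nat_lit 7]⟩, ⟨p122_k9, nat_lit 0, nat_lit 0, nat_lit 912, nat_lit 0, nat_lit 1511242, [nat_lit 370866000, nat_lit 706250000, nat_lit 1341536000], [], [nat_lit 4092750421, nat_lit 4112517057, nat_lit 4132283693, nat_lit 4240029327, nat_lit 3456715045, nat_lit 3463711088, nat_lit 3470707131, nat_lit 3474427374], nat_lit 1271250, nat_lit 1271250, nat_lit 1271250, nat_lit 1271250, nat_lit 0, nat_lit 1751500, [nat_lit 780000, nat_lit 1435000, nat_lit 1271250], [nat_lit 23,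 nat_lit 40, nat_lit 40, nat_lit 80, nat_lit 12, nat_lit 456, nat_lit 225, nat_lit 11]⟩,
 ⟨nat_lit 0, nat_lit 2237, ⟨.ofNat (nat_lit 705063), .ofNat (nat_lit 762141), .ofNat (nat_lit 726954), .ofNat (nat_lit 784917), .ofNat (nat_lit 699935), .ofNat (nat_lit 749998), .ofNat (nat_lit 724051), .ofNat (nat_lit 774999)⟩, ⟨.ofNat (nat_lit 50000), .ofNat (nat_lit 100000), .ofNat (nat_lit 50000), .ofNat (nat_lit 100000), .ofNat (nat_lit 50000), .ofNat (nat_lit 100000), .ofNat (nat_lit 50000), .ofNat (nat_lit 100000)⟩⟩, [⟨nat_lit 3, nat_lit 100, nat_lit 36, nat_lit 77, nat_lit 338078397⟩, ⟨nat_lit 22, nat_lit 87, nat_lit 100, nat_lit 53, nat_lit 6760898⟩]⟩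
noncomputable def p122_l28 : Lf2 := ⟨nat_lit 0, nat_lit 20, [nat_lit 5, nat_lit 5, nat_lit 5, nat_lit 20], false, nat_lit 40, nat_lit 80, nat_lit 0, nat_lit 300, ⟨nat_lit 144, nat_lit 856, nat_lit 0, nat_lit 7, nat_lit 297, nat_lit 856, nat_lit 59, nat_lit 0, nat_lit 0, nat_lit 0, nat_lit 0, nat_lit 0, nat_lit 41775501, nat_lit 23337253, nat_lit 1887246, nat_lit 3958544, true, true⟩,
 nat_lit 0, nat_lit 0, nat_lit 1804, nat_lit 0, nat_lit 2206, nat_lit 1148, nat_lit 127, nat_lit 0, nat_lit 0, nat_lit 84, nat_lit 0, nat_lit 0, nat_lit 0, nat_lit 0, nat_lit 0, nat_lit 342400, nat_lit 0, nat_lit 0, [(nat_lit 28, [(nat_lit 1, nat_lit 856)])],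
 ⟨p122_k10, nat_lit 0, nat_lit 0, nat_lit 136, nat_lit 0, nat_lit 0, [nat_lit 732217600, nat_lit 750636801, nat_lit 1018128000], [], [nat_lit 24312042847, nat_lit 24815892771, nat_lit 25747979171, nat_lit 26214900127, nat_lit 24053906823, nat_lit 24544322437, nat_lit 25459271103, nat_lit 25914360069], nat_lit 0, nat_lit 0, nat_lit 0, nat_lit 0, nat_lit 0, nat_lit 0, [], [nat_lit 20, nat_lit 40, nat_lit 40, nat_lit 80, nat_lit 16, nat_lit 226, nat_lit 20, nat_lit 7]⟩, ⟨p122_k9, nat_lit 0, nat_lit 0, nat_lit 847, nat_lit 0, nat_lit 1346795, [nat_lit 472608000, nat_lit 900000000, nat_lit 1709568000], [], [nat_lit 5295035596, nat_lit 5335318172, nat_lit 5375600748, nat_lit 5409346140, nat_lit 4577444584, nat_lit 4592475570, nat_lit 4607506556, nat_lit 4618003988], nat_lit 1271250, nat_lit 1271250, nat_lit 1271250, nat_lit 1271250, nat_lit 0, nat_lit 2118750, [nat_lit 780000, nat_lit 1435000, nat_lit 1271250], [nat_lit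 23, nat_lit 40, nat_lit 40, nat_lit 80, nat_lit 12, nat_lit 483, nat_lit 250, nat_lit 12]⟩,
 ⟨nat_lit 1581, nat_lit 2237, ⟨.ofNat (nat_lit 705117), .ofNat (nat_lit 762142), .ofNat (nat_lit 727846), .ofNat (nat_lit 784917), .ofNat (nat_lit 702521), .ofNat (nat_lit 757166), .ofNat (nat_lit 725790), .ofNat (nat_lit 780481)⟩, ⟨.ofNat (nat_lit 100000), .ofNat (nat_lit 192306), .ofNat (nat_lit 100000), .ofNat (nat_lit 200000), .ofNat (nat_lit 100000), .ofNat (nat_lit 196201), .ofNat (nat_lit 100000), .ofNat (nat_lit 200000)⟩⟩, [⟨nat_lit 3, nat_lit 100, nat_lit 44, nat_lit 71, nat_lit 175337862⟩, ⟨nat_lit 22, nat_lit 90, nat_lit 100, nat_lit 74, nat_lit 19140477⟩]⟩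
noncomputable def p122_l29 : Lf2 := ⟨nat_lit 0, nat_lit 20, [nat_lit 5, nat_lit 5, nat_lit 5, nat_lit 20], false, nat_lit 40, nat_lit 80, nat_lit 0, nat_lit 300, ⟨nat_lit 120, nat_lit 880, nat_lit 0, nat_lit 7, nat_lit 296, nat_lit 880, nat_lit 60, nat_lit 0, nat_lit 0, nat_lit 0, nat_lit 0, nat_lit 0, nat_lit 41913931, nat_lit 23176621, nat_lit 1909448, nat_lit 3957675, true, true⟩,
 nat_lit 0, nat_lit 0, nat_lit 1543, nat_lit 0, nat_lit 2405, nat_lit 981, nat_lit 105, nat_lit 0, nat_lit 0, nat_lit 73, nat_lit 0, nat_lit 0, nat_lit 0, nat_lit 0, nat_lit 0, nat_lit 220000, nat_lit 0, nat_lit 0, [(nat_lit 28, [(nat_lit 0, nat_lit 880)])],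
 ⟨p122_k16, nat_lit 0, nat_lit 0, nat_lit 125, nat_lit 0, nat_lit 0, [nat_lit 800368000, nat_lit 1314320000, nat_lit 1773792000], [], [nat_lit 25238648103, nat_lit 25788309205, nat_lit 26741739168, nat_lit 27249187225, nat_lit 24923157905, nat_lit 25427596955, nat_lit 26364241775, nat_lit 26885063480], nat_lit 0, nat_lit 0, nat_lit 0, nat_lit 0, nat_lit 0, nat_lit 0, [], [nat_lit 35, nat_lit 40, nat_lit 40, nat_lit 80, nat_lit 22, nat_lit 226, nat_lit 20, nat_lit 8]⟩, ⟨p122_k9, nat_lit 0, nat_lit 0, nat_lit 912, nat_lit 0, nat_lit 1511242, [nat_lit 393840000, nat_lit 750000000, nat_lit 1424640000], [], [nat_lit 4377876243, nat_lit 4399151025, nat_lit 4420425807, nat_lit 4437204675, nat_lit 3763049898, nat_lit 3776382140, nat_lit 3789714381, nat_lit 3799252475], nat_lit 1271250, nat_lit 1271250, nat_lit 1271250, nat_lit 1271250, nat_lit 0, nat_lit 2118750, [nat_lit 780000, nat_lit 1435000, nat_lit 1271250], [nat_lit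 23, nat_lit 40, nat_lit 40, nat_lit 80, nat_lit 12, nat_lit 483, nat_lit 250, nat_lit 12]⟩,
 ⟨nat_lit 0, nat_lit 1582, ⟨.ofNat (nat_lit 702515), .ofNat (nat_lit 757165), .ofNat (nat_lit 725184), .ofNat (nat_lit 780481), .ofNat (nat_lit 699984), .ofNat (nat_lit 749998), .ofNat (nat_lit 724337), .ofNat (nat_lit 774999)⟩, ⟨.ofNat (nat_lit 100000), .ofNat (nat_lit 196201), .ofNat (nat_lit 100000), .ofNat (nat_lit 200000), .ofNat (nat_lit 100000), .ofNat (nat_lit 199999), .ofNat (nat_lit 100000), .ofNat (nat_lit 200000)⟩⟩, [⟨nat_lit 3, nat_lit 100, nat_lit 26, nat_lit 85, nat_lit 359715862⟩, ⟨nat_lit 3, nat_lit 100, nat_lit 39, nat_lit 72, nat_lit 5953596⟩, ⟨nat_lit 22, nat_lit 90, nat_lit 100, nat_lit 74, nat_lit 16531935⟩]⟩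
noncomputable def p122_l30 : Lf2 := ⟨nat_lit 0, nat_lit 20, [nat_lit 5, nat_lit 5, nat_lit 5, nat_lit 20], false, nat_lit 8, nat_lit 80, nat_lit 0, nat_lit 320, ⟨nat_lit 702, nat_lit 298, nat_lit 0, nat_lit 7, nat_lit 297, nat_lit 298, nat_lit 43, nat_lit 0, nat_lit 0, nat_lit 0, nat_lit 0, nat_lit 0, nat_lit 42338630, nat_lit 23509173, nat_lit 1152197, nat_lit 3740189, true, false⟩,
 nat_lit 0, nat_lit 0, nat_lit 6100, nat_lit 0, nat_lit 3931, nat_lit 4222, nat_lit 185, nat_lit 0, nat_lit 0, nat_lit 988, nat_lit 0, nat_lit 0, nat_lit 0, nat_lit 0, nat_lit 0, nat_lit 298000, nat_lit 0, nat_lit 0, [(nat_lit 25, [(nat_lit 2, nat_lit 298)])],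
 ⟨p122_k8, nat_lit 0, nat_lit 0, nat_lit 146, nat_lit 0, nat_lit 0, [nat_lit 1096059200, nat_lit 2190445867, nat_lit 3225657600], [], [nat_lit 24844993167, nat_lit 25560852025, nat_lit 28891527601, nat_lit 29658150574, nat_lit 23368769516, nat_lit 23976706304, nat_lit 26407377020, nat_lit 26949134857], nat_lit 0, nat_lit 0, nat_lit 0, nat_lit 0, nat_lit 0, nat_lit 0, [], [nat_lit 20, nat_lit 40, nat_lit 40, nat_lit 80, nat_lit 16, nat_lit 226, nat_lit 20, nat_lit 7]⟩, ⟨p122_k11, nat_lit 0, nat_lit 0, nat_lit 652, nat_lit 0, nat_lit 1058008, [nat_lit 2303964000, nat_lit 4387500000, nat_lit 6909084000], [], [nat_lit 20205020180, nat_lit 20576993576, nat_lit 21368756988, nat_lit 21672010264, nat_lit 19670249548, nat_lit 19877676456, nat_lit 20569791628, nat_lit 21238924112], nat_lit 1271250, nat_lit 1271250, nat_lit 1271250, nat_lit 1271250, nat_lit 0, nat_lit 2260000, [nat_lit 780000, nat_lit 1435000, nat_lit 1271250],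 [nat_lit 8, nat_lit 40, nat_lit 40, nat_lit 80, nat_lit 1, nat_lit 401, nat_lit 175, nat_lit 11]⟩,
 ⟨nat_lit 2738, nat_lit 3163, ⟨.ofNat (nat_lit 671685), .ofNat (nat_lit 793629), .ofNat (nat_lit 693828), .ofNat (nat_lit 815772), .ofNat (nat_lit 671105), .ofNat (nat_lit 789265), .ofNat (nat_lit 693511), .ofNat (nat_lit 811670)⟩, ⟨.ofNat (nat_lit 20000), .ofNat (nat_lit 184209), .ofNat (nat_lit 20000), .ofNat (nat_lit 200000), .ofNat (nat_lit 20000), .ofNat (nat_lit 188310), .ofNat (nat_lit 20000), .ofNat (nat_lit 200000)⟩⟩, [⟨nat_lit 19, nat_lit 93, nat_lit 100, nat_lit 97, nat_lit 98994565⟩, ⟨nat_lit 22, nat_lit 95, nat_lit 100, nat_lit 65, nat_lit 48417190⟩]⟩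
noncomputable def p122_l31 : Lf2 := ⟨nat_lit 0, nat_lit 20, [nat_lit 5, nat_lit 5, nat_lit 5, nat_lit 20], false, nat_lit 12, nat_lit 80, nat_lit 0, nat_lit 320, ⟨nat_lit 317, nat_lit 683, nat_lit 0, nat_lit 7, nat_lit 296, nat_lit 683, nat_lit 45, nat_lit 0, nat_lit 0, nat_lit 0, nat_lit 0, nat_lit 0, nat_lit 42355909, nat_lit 23392260, nat_lit 1251831, nat_lit 3767861, true, false⟩,
 nat_lit 0, nat_lit 0, nat_lit 3121, nat_lit 0, nat_lit 2899, nat_lit 2160, nat_lit 301, nat_lit 0, nat_lit 0, nat_lit 236, nat_lit 0, nat_lit 0, nat_lit 0, nat_lit 0, nat_lit 0, nat_lit 170750, nat_lit 0, nat_lit 0, [(nat_lit 25, [(nat_lit 0, nat_lit 683)])],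
 ⟨p122_k13, nat_lit 0, nat_lit 0, nat_lit 148, nat_lit 0, nat_lit 0, [nat_lit 819158001, nat_lit 1975284401, nat_lit 3427844000], [], [nat_lit 24065792418, nat_lit 24622740241, nat_lit 27095921619, nat_lit 27756689873, nat_lit 23444503501, nat_lit 23973855553, nat_lit 26127048842, nat_lit 26583848651], nat_lit 0, nat_lit 0, nat_lit 0, nat_lit 0, nat_lit 0, nat_lit 0, [], [nat_lit 20, nat_lit 40, nat_lit 40, nat_lit 80, nat_lit 16, nat_lit 226, nat_lit 20, nat_lit 7]⟩, ⟨p122_k11, nat_lit 0, nat_lit 0, nat_lit 724, nat_lit 0, nat_lit 1185407, [nat_lit 1040394000, nat_lit 1981250000, nat_lit 3119914000], [], [nat_lit 9908009668, nat_lit 10056840148, nat_lit 10367180310, nat_lit 10523356856, nat_lit 9260795398, nat_lit 9336755280, nat_lit 9518555278, nat_lit 9795463520], nat_lit 1271250, nat_lit 1271250, nat_lit 1271250, nat_lit 1271250, nat_lit 0, nat_lit 2260000, [nat_lit 780000, nat_lit 1435000, nat_lit 1271250], [nat_lit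 8, nat_lit 40, nat_lit 40, nat_lit 80, nat_lit 1, nat_lit 401, nat_lit 175, nat_lit 11]⟩,
 ⟨nat_lit 2236, nat_lit 2739, ⟨.ofNat (nat_lit 671081), .ofNat (nat_lit 789269), .ofNat (nat_lit 693478), .ofNat (nat_lit 811671), .ofNat (nat_lit 670819), .ofNat (nat_lit 784917), .ofNat (nat_lit 693574), .ofNat (nat_lit 807675)⟩, ⟨.ofNat (nat_lit 30000), .ofNat (nat_lit 188310), .ofNat (nat_lit 30000), .ofNat (nat_lit 200000), .ofNat (nat_lit 30000), .ofNat (nat_lit 192306), .ofNat (nat_lit 30000), .ofNat (nat_lit 200000)⟩⟩, [⟨nat_lit 22, nat_lit 95, nat_lit 100, nat_lit 66, nat_lit 75772245⟩]⟩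
noncomputable def p122_l32 : Lf2 := ⟨nat_lit 0, nat_lit 20, [nat_lit 5, nat_lit 5, nat_lit 5, nat_lit 20], false, nat_lit 20, nat_lit 80, nat_lit 0, nat_lit 320, ⟨nat_lit 262, nat_lit 738, nat_lit 0, nat_lit 7, nat_lit 295, nat_lit 738, nat_lit 49, nat_lit 0, nat_lit 0, nat_lit 0, nat_lit 0, nat_lit 0, nat_lit 42298486, nat_lit 23262120, nat_lit 1439394, nat_lit 3821819, true, false⟩,
 nat_lit 0, nat_lit 0, nat_lit 2614, nat_lit 0, nat_lit 2269, nat_lit 1809, nat_lit 185, nat_lit 0, nat_lit 0, nat_lit 176, nat_lit 0, nat_lit 0, nat_lit 0, nat_lit 0, nat_lit 0, nat_lit 295200, nat_lit 0, nat_lit 0, [(nat_lit 28, [(nat_lit 1, nat_lit 738)])],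
 ⟨p122_k10, nat_lit 0, nat_lit 0, nat_lit 147, nat_lit 0, nat_lit 0, [nat_lit 760584800, nat_lit 1099586400, nat_lit 1739344000], [], [nat_lit 23490030182, nat_lit 24031554289, nat_lit 26224989890, nat_lit 26692886473, nat_lit 23184884003, nat_lit 23703538058, nat_lit 25833007901, nat_lit 26282782021], nat_lit 0, nat_lit 0, nat_lit 0, nat_lit 0, nat_lit 0, nat_lit 0, [], [nat_lit 20, nat_lit 40, nat_lit 40, nat_lit 80, nat_lit 16, nat_lit 226, nat_lit 20, nat_lit 7]⟩, ⟨p122_k11, nat_lit 0, nat_lit 0, nat_lit 774, nat_lit 0, nat_lit 1318078, [nat_lit 859884000, nat_lit 1637500000, nat_lit 2578604000], [], [nat_lit 8398658812, nat_lit 8492355072, nat_lit 8752949050, nat_lit 8857576684, nat_lit 7734828754, nat_lit 7786863552, nat_lit 7928903960, nat_lit 8115122104], nat_lit 1271250, nat_lit 1271250, nat_lit 1271250, nat_lit 1271250, nat_lit 0, nat_lit 2260000, [nat_lit 780000, nat_lit 1435000, nat_lit 1271250], [nat_lit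 8, nat_lit 40, nat_lit 40, nat_lit 80, nat_lit 1, nat_lit 401, nat_lit 175, nat_lit 11]⟩,
 ⟨nat_lit 1581, nat_lit 2237, ⟨.ofNat (nat_lit 670745), .ofNat (nat_lit 784917), .ofNat (nat_lit 693473), .ofNat (nat_lit 807675), .ofNat (nat_lit 671069), .ofNat (nat_lit 780481), .ofNat (nat_lit 694338), .ofNat (nat_lit 803781)⟩, ⟨.ofNat (nat_lit 50000), .ofNat (nat_lit 192306), .ofNat (nat_lit 50000), .ofNat (nat_lit 200000), .ofNat (nat_lit 50000), .ofNat (nat_lit 196201), .ofNat (nat_lit 50000), .ofNat (nat_lit 200000)⟩⟩, [⟨nat_lit 3, nat_lit 100, nat_lit 44, nat_lit 71, nat_lit 18638059⟩, ⟨nat_lit 22, nat_lit 96, nat_lit 100, nat_lit 69, nat_lit 56417791⟩]⟩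
noncomputable def p122_l33 : Lf2 := ⟨nat_lit 0, nat_lit 20, [nat_lit 5, nat_lit 5, nat_lit 5, nat_lit 20], false, nat_lit 36, nat_lit 80, nat_lit 0, nat_lit 320, ⟨nat_lit 178, nat_lit 822, nat_lit 0, nat_lit 7, nat_lit 295, nat_lit 822, nat_lit 58, nat_lit 0, nat_lit 0, nat_lit 0, nat_lit 0, nat_lit 0, nat_lit 42098778, nat_lit 23082744, nat_lit 1818478, nat_lit 3927381, true, false⟩,
 nat_lit 0, nat_lit 0, nat_lit 1758, nat_lit 0, nat_lit 2505, nat_lit 1217, nat_lit 114, nat_lit 0, nat_lit 0, nat_lit 120, nat_lit 0, nat_lit 0, nat_lit 0, nat_lit 0, nat_lit 0, nat_lit 205500, nat_lit 0, nat_lit 0, [(nat_lit 28, [(nat_lit 0, nat_lit 822)])],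
 ⟨p122_k16, nat_lit 0, nat_lit 0, nat_lit 128, nat_lit 0, nat_lit 0, [nat_lit 809439201, nat_lit 1444008001, nat_lit 1965864800], [], [nat_lit 24332213546, nat_lit 24877472946, nat_lit 27046359729, nat_lit 27552182623, nat_lit 24052591128, nat_lit 24580136093, nat_lit 26652124863, nat_lit 27142912893], nat_lit 0, nat_lit 0, nat_lit 0, nat_lit 0, nat_lit 0, nat_lit 0, [], [nat_lit 35, nat_lit 40, nat_lit 40, nat_lit 80, nat_lit 22, nat_lit 226, nat_lit 20, nat_lit 9]⟩, ⟨p122_k11, nat_lit 0, nat_lit 0, nat_lit 847, nat_lit 0, nat_lit 1455935, [nat_lit 584196000, nat_lit 1112500000, nat_lit 1751876000], [], [nat_lit 5838766492, nat_lit 5890982380, nat_lit 6009080202, nat_lit 6059072316, nat_lit 5395198730, nat_lit 5424338652, nat_lit 5460953360, nat_lit 5503625912], nat_lit 1271250, nat_lit 1271250, nat_lit 1271250, nat_lit 1271250, nat_lit 0, nat_lit 2260000, [nat_lit 780000, nat_lit 1435000, nat_lit 1271250], [nat_lit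 8, nat_lit 40, nat_lit 40, nat_lit 80, nat_lit 1, nat_lit 401, nat_lit 175, nat_lit 11]⟩,
 ⟨nat_lit 0, nat_lit 1582, ⟨.ofNat (nat_lit 669237), .ofNat (nat_lit 780481), .ofNat (nat_lit 691895), .ofNat (nat_lit 803773), .ofNat (nat_lit 673026), .ofNat (nat_lit 774999), .ofNat (nat_lit 697369), .ofNat (nat_lit 799976)⟩, ⟨.ofNat (nat_lit 90000), .ofNat (nat_lit 196201), .ofNat (nat_lit 90000), .ofNat (nat_lit 200000), .ofNat (nat_lit 90000), .ofNat (nat_lit 199999), .ofNat (nat_lit 90000), .ofNat (nat_lit 200000)⟩⟩, [⟨nat_lit 3, nat_lit 100, nat_lit 26, nat_lit 85, nat_lit 275167692⟩, ⟨nat_lit 22, nat_lit 98, nat_lit 100, nat_lit 76, nat_lit 32371968⟩]⟩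
noncomputable def b_V_900_700_20_10 : St := ⟨true, nat_lit 0, nat_lit 1, nat_lit 1, nat_lit 120, nat_lit 360, nat_lit 400, nat_lit 280, nat_lit 320, nat_lit 240, nat_lit 320, nat_lit 80, nat_lit 120, nat_lit 8, nat_lit 80, nat_lit 0, nat_lit 336, nat_lit 40, nat_lit 80, nat_lit 0, nat_lit 0, nat_lit 0, nat_lit 0⟩
theorem d_V_900_700_20_10 (h : EB TB.env) : Dead b_V_900_700_20_10 := chkB_sound0 h (T :=
(.spl (nat_lit 1) (nat_lit 300)
(.spl (nat_lit 0) (nat_lit 380)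
(.spl (nat_lit 5) (nat_lit 160)
(.spl (nat_lit 0) (nat_lit 370)
(.leaf p122_l20)
(.trZ (nat_lit 3) (nat_lit 100) (nat_lit 66) (nat_lit 45) (nat_lit 12) (.spl (nat_lit 0) (nat_lit 375)
(.leaf p122_l21)
(.trZ (nat_lit 3) (nat_lit 100) (nat_lit 61) (nat_lit 51) (nat_lit 16) (.leaf p122_l22)))))
(.spl (nat_lit 1) (nat_lit 290)
(.spl (nat_lit 0) (nat_lit 370)
(.leaf p122_l23)
(.trZ (nat_lit 3) (nat_lit 100) (nat_lit 66) (nat_lit 45) (nat_lit 12) (.leaf p122_l24)))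
(.trX (nat_lit 19) (nat_lit 97) (nat_lit 84) (nat_lit 100) (nat_lit 328) (.leaf p122_l25))))
(.trZ (nat_lit 3) (nat_lit 100) (nat_lit 54) (nat_lit 57) (nat_lit 20) (.spl (nat_lit 2) (nat_lit 280)
(.leaf p122_l26)
(.trX (nat_lit 22) (nat_lit 100) (nat_lit 95) (nat_lit 87) (nat_lit 300) (.spl (nat_lit 4) (nat_lit 40)
(.trX (nat_lit 22) (nat_lit 94) (nat_lit 100) (nat_lit 62) (nat_lit 248) (.leaf p122_l27))
(.spl (nat_lit 0) (nat_lit 390)
(.leaf p122_l28)
(.leaf p122_l29)))))))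
(.trX (nat_lit 19) (nat_lit 94) (nat_lit 88) (nat_lit 100) (nat_lit 320) (.spl (nat_lit 0) (nat_lit 380)
(.spl (nat_lit 0) (nat_lit 370)
(.leaf p122_l30)
(.trZ (nat_lit 3) (nat_lit 100) (nat_lit 66) (nat_lit 45) (nat_lit 12) (.leaf p122_l31)))
(.trZ (nat_lit 3) (nat_lit 100) (nat_lit 54) (nat_lit 57) (nat_lit 20) (.spl (nat_lit 0) (nat_lit 390)
(.leaf p122_l32)
(.trZ (nat_lit 3) (nat_lit 100) (nat_lit 39) (nat_lit 72) (nat_lit 36) (.leaf p122_l33)))))))) (by decide +kernel)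
noncomputable def p122_l34 : Lf2 := ⟨nat_lit 0, nat_lit 20, [nat_lit 5, nat_lit 5, nat_lit 5, nat_lit 20], false, nat_lit 8, nat_lit 80, nat_lit 0, nat_lit 160, ⟨nat_lit 756, nat_lit 244, nat_lit 0, nat_lit 8, nat_lit 331, nat_lit 244, nat_lit 43, nat_lit 0, nat_lit 0, nat_lit 0, nat_lit 0, nat_lit 0, nat_lit 39021739, nat_lit 26882529, nat_lit 1095732, nat_lit 3843409, true, true⟩,
 nat_lit 0, nat_lit 0, nat_lit 8757, nat_lit 0, nat_lit 3287, nat_lit 5572, nat_lit 269, nat_lit 0, nat_lit 0, nat_lit 526, nat_lit 0, nat_lit 0, nat_lit 0, nat_lit 0, nat_lit 0, nat_lit 244000, nat_lit 0, nat_lit 0, [(nat_lit 25, [(nat_lit 2, nat_lit 244)])],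
 ⟨p122_k8, nat_lit 0, nat_lit 0, nat_lit 168, nat_lit 0, nat_lit 0, [nat_lit 1067417600, nat_lit 2388244267, nat_lit 3773692800], [], [nat_lit 28576454145, nat_lit 29063385120, nat_lit 31390964503, nat_lit 31869520364, nat_lit 27565506832, nat_lit 28045233949, nat_lit 30264944517, nat_lit 30704274678], nat_lit 0, nat_lit 0, nat_lit 0, nat_lit 0, nat_lit 0, nat_lit 0, [], [nat_lit 20, nat_lit 40, nat_lit 40, nat_lit 80, nat_lit 16, nat_lit 226, nat_lit 20, nat_lit 7]⟩, ⟨p122_k9, nat_lit 0, nat_lit 0, nat_lit 698, nat_lit 0, nat_lit 1036458, [nat_lit 2481192000, nat_lit 4725000000, nat_lit 8975232000], [], [nat_lit 28567325442, nat_lit 28829506298, nat_lit 29843827747, nat_lit 30081534956, nat_lit 25148420162, nat_lit 25353869042, nat_lit 26366088785, nat_lit 26599451850], nat_lit 1271250, nat_lit 1271250, nat_lit 1271250, nat_lit 1271250, nat_lit 0, nat_lit 1100001, [nat_lit 780000, nat_lit 1435000, nat_lit 1271250],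 [nat_lit 23, nat_lit 40, nat_lit 40, nat_lit 80, nat_lit 12, nat_lit 345, nat_lit 125, nat_lit 8]⟩,
 ⟨nat_lit 2738, nat_lit 3163, ⟨.ofNat (nat_lit 771478), .ofNat (nat_lit 869004), .ofNat (nat_lit 793629), .ofNat (nat_lit 891158), .ofNat (nat_lit 766852), .ofNat (nat_lit 861350), .ofNat (nat_lit 789265), .ofNat (nat_lit 883768)⟩, ⟨.ofNat (nat_lit 20000), .ofNat (nat_lit 184209), .ofNat (nat_lit 20000), .ofNat (nat_lit 200000), .ofNat (nat_lit 20000), .ofNat (nat_lit 188310), .ofNat (nat_lit 20000), .ofNat (nat_lit 200000)⟩⟩, [⟨nat_lit 10, nat_lit 100, nat_lit 66, nat_lit 63, nat_lit 5247776⟩]⟩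
noncomputable def p122_l35 : Lf2 := ⟨nat_lit 0, nat_lit 20, [nat_lit 5, nat_lit 5, nat_lit 5, nat_lit 20], false, nat_lit 12, nat_lit 80, nat_lit 0, nat_lit 160, ⟨nat_lit 239, nat_lit 761, nat_lit 0, nat_lit 8, nat_lit 323, nat_lit 761, nat_lit 45, nat_lit 0, nat_lit 0, nat_lit 0, nat_lit 0, nat_lit 0, nat_lit 39731935, nat_lit 26063922, nat_lit 1204143, nat_lit 3854662, true, true⟩,
 nat_lit 0, nat_lit 0, nat_lit 2831, nat_lit 0, nat_lit 2481, nat_lit 1801, nat_lit 295, nat_lit 0, nat_lit 0, nat_lit 167, nat_lit 0, nat_lit 0, nat_lit 0, nat_lit 0, nat_lit 0, nat_lit 190250, nat_lit 0, nat_lit 0, [(nat_lit 25, [(nat_lit 0, nat_lit 761)])],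
 ⟨p122_k13, nat_lit 0, nat_lit 0, nat_lit 162, nat_lit 0, nat_lit 0, [nat_lit 805586001, nat_lit 1826054800, nat_lit 3105548000], [], [nat_lit 26928945530, nat_lit 27381186621, nat_lit 28953854333, nat_lit 29364859841, nat_lit 26442402543, nat_lit 26874502314, nat_lit 28414053497, nat_lit 28852518469], nat_lit 0, nat_lit 0, nat_lit 0, nat_lit 0, nat_lit 0, nat_lit 0, [], [nat_lit 20, nat_lit 40, nat_lit 40, nat_lit 80, nat_lit 16, nat_lit 226, nat_lit 20, nat_lit 7]⟩, ⟨p122_k9, nat_lit 0, nat_lit 0, nat_lit 727, nat_lit 0, nat_lit 1119789, [nat_lit 784398000, nat_lit 1493750000, nat_lit 2837408000], [], [nat_lit 8866651933, nat_lit 8908007880, nat_lit 9188550205, nat_lit 9235827440, nat_lit 7750232829, nat_lit 7782481773, nat_lit 8058494813, nat_lit 8097358541], nat_lit 1271250, nat_lit 1271250, nat_lit 1271250, nat_lit 1271250, nat_lit 0, nat_lit 1100001, [nat_lit 780000, nat_lit 1435000, nat_lit 1271250], [nat_lit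 23, nat_lit 40, nat_lit 40, nat_lit 80, nat_lit 12, nat_lit 345, nat_lit 125, nat_lit 8]⟩,
 ⟨nat_lit 2236, nat_lit 2739, ⟨.ofNat (nat_lit 766852), .ofNat (nat_lit 843632), .ofNat (nat_lit 778061), .ofNat (nat_lit 854840), .ofNat (nat_lit 762142), .ofNat (nat_lit 836262), .ofNat (nat_lit 773529), .ofNat (nat_lit 847650)⟩, ⟨.ofNat (nat_lit 30000), .ofNat (nat_lit 188310), .ofNat (nat_lit 30000), .ofNat (nat_lit 200000), .ofNat (nat_lit 30000), .ofNat (nat_lit 192306), .ofNat (nat_lit 30000), .ofNat (nat_lit 200000)⟩⟩, [⟨nat_lit 13, nat_lit 48, nat_lit 71, nat_lit 100, nat_lit 244100184⟩, ⟨nat_lit 3, nat_lit 100, nat_lit 56, nat_lit 60, nat_lit 135739637⟩]⟩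
noncomputable def p122_l36 : Lf2 := ⟨nat_lit 0, nat_lit 20, [nat_lit 5, nat_lit 5, nat_lit 5, nat_lit 20], false, nat_lit 12, nat_lit 80, nat_lit 0, nat_lit 160, ⟨nat_lit 1000, nat_lit 0, nat_lit 0, nat_lit 0, nat_lit 0, nat_lit 0, nat_lit 0, nat_lit 0, nat_lit 0, nat_lit 0, nat_lit 0, nat_lit 0, nat_lit 0, nat_lit 0, nat_lit 0, nat_lit 0, false, false⟩,
 nat_lit 0, nat_lit 0, nat_lit 10561, nat_lit 0, nat_lit 3333, nat_lit 7013, nat_lit 540, nat_lit 0, nat_lit 0, nat_lit 869, nat_lit 0, nat_lit 0, nat_lit 0, nat_lit 0, nat_lit 0, nat_lit 0, nat_lit 0, nat_lit 0, [],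
 ⟨p122_k13, nat_lit 0, nat_lit 0, nat_lit 167, nat_lit 0, nat_lit 0, [nat_lit 938000000, nat_lit 3282000000, nat_lit 6250000000], [], [nat_lit 28109589987, nat_lit 28814160211, nat_lit 31627925686, nat_lit 32224910547, nat_lit 26938102763, nat_lit 27420548066, nat_lit 29659591289, nat_lit 30145896381], nat_lit 0, nat_lit 0, nat_lit 0, nat_lit 0, nat_lit 0, nat_lit 0, [], [nat_lit 20, nat_lit 40, nat_lit 40, nat_lit 80, nat_lit 16, nat_lit 226, nat_lit 20, nat_lit 7]⟩, ⟨p122_k15, nat_lit 0, nat_lit 0, nat_lit 724, nat_lit 0, nat_lit 1116671, [nat_lit 3282000000, nat_lit 6250000000, nat_lit 11872000000], [], [nat_lit 34661992526, nat_lit 34909553554, nat_lit 36665479748, nat_lit 37332810400, nat_lit 30884523240, nat_lit 31031735826, nat_lit 32491105814, nat_lit 32649619047], nat_lit 1271250, nat_lit 1271250, nat_lit 1271250, nat_lit 1271250, nat_lit 0, nat_lit 1100001, [nat_lit 780000, nat_lit 1435000, nat_lit 1271250],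 [nat_lit 23, nat_lit 40, nat_lit 40, nat_lit 80, nat_lit 12, nat_lit 345, nat_lit 125, nat_lit 8]⟩,
 zbF0, []⟩
noncomputable def p122_l37 : Lf2 := ⟨nat_lit 0, nat_lit 20, [nat_lit 5, nat_lit 5, nat_lit 5, nat_lit 20], false, nat_lit 16, nat_lit 80, nat_lit 160, nat_lit 260, ⟨nat_lit 223, nat_lit 777, nat_lit 0, nat_lit 8, nat_lit 327, nat_lit 777, nat_lit 47, nat_lit 0, nat_lit 0, nat_lit 0, nat_lit 0, nat_lit 0, nat_lit 39351662, nat_lit 26379005, nat_lit 1269333, nat_lit 3885507, true, true⟩,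
 nat_lit 0, nat_lit 0, nat_lit 2818, nat_lit 0, nat_lit 2669, nat_lit 1793, nat_lit 176, nat_lit 0, nat_lit 0, nat_lit 157, nat_lit 0, nat_lit 0, nat_lit 0, nat_lit 0, nat_lit 0, nat_lit 319200, nat_lit 0, nat_lit 0, [(nat_lit 25, [(nat_lit 1, nat_lit 763), (nat_lit 2, nat_lit 14)])],
 ⟨p122_k8, nat_lit 0, nat_lit 0, nat_lit 162, nat_lit 0, nat_lit 0, [nat_lit 874314001, nat_lit 1491180667, nat_lit 2037464400], [], [nat_lit 26968944054, nat_lit 27894799940, nat_lit 29422271900, nat_lit 30237261214, nat_lit 26426453849, nat_lit 27312871607, nat_lit 28781161805, nat_lit 29564188969], nat_lit 0, nat_lit 0, nat_lit 0, nat_lit 0, nat_lit 0, nat_lit 0, [], [nat_lit 20, nat_lit 40, nat_lit 40, nat_lit 80, nat_lit 16, nat_lit 226, nat_lit 20, nat_lit 7]⟩, ⟨p122_k9, nat_lit 0, nat_lit 0, nat_lit 638, nat_lit 0, nat_lit 1119789, [nat_lit 731886000, nat_lit 1393750000, nat_lit 2647456000], [], [nat_lit 6668931495, nat_lit 6698376831,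 nat_lit 7045399672, nat_lit 7079941573, nat_lit 6696387120, nat_lit 6729888236, nat_lit 7141174032, nat_lit 7203170974], nat_lit 1271250, nat_lit 1271250, nat_lit 1271250, nat_lit 1271250, nat_lit 1100001, nat_lit 1956250, [nat_lit 780000, nat_lit 1435000, nat_lit 1271250], [nat_lit 23, nat_lit 40, nat_lit 40, nat_lit 80, nat_lit 12, nat_lit 373, nat_lit 150, nat_lit 8]⟩,
 ⟨nat_lit 2236, nat_lit 3163, ⟨.ofNat (nat_lit 771478), .ofNat (nat_lit 862908), .ofNat (nat_lit 782556), .ofNat (nat_lit 873986), .ofNat (nat_lit 762142), .ofNat (nat_lit 847666), .ofNat (nat_lit 773529), .ofNat (nat_lit 859053)⟩, ⟨.ofNat (nat_lit 40000), .ofNat (nat_lit 184209), .ofNat (nat_lit 40000), .ofNat (nat_lit 200000), .ofNat (nat_lit 40000), .ofNat (nat_lit 192306), .ofNat (nat_lit 40000), .ofNat (nat_lit 200000)⟩⟩, [⟨nat_lit 13, nat_lit 48, nat_lit 71, nat_lit 100, nat_lit 71152881⟩, ⟨nat_lit 22, nat_lit 67, nat_lit 100, nat_lit 66, nat_lit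 134934738⟩]⟩
noncomputable def p122_l38 : Lf2 := ⟨nat_lit 0, nat_lit 20, [nat_lit 5, nat_lit 5, nat_lit 5, nat_lit 20], false, nat_lit 16, nat_lit 80, nat_lit 160, nat_lit 260, ⟨nat_lit 310, nat_lit 690, nat_lit 0, nat_lit 8, nat_lit 332, nat_lit 690, nat_lit 47, nat_lit 0, nat_lit 0, nat_lit 0, nat_lit 0, nat_lit 0, nat_lit 38820645, nat_lit 26921235, nat_lit 1258120, nat_lit 3897610, true, true⟩,
 nat_lit 0, nat_lit 0, nat_lit 3349, nat_lit 0, nat_lit 2842, nat_lit 2223, nat_lit 177, nat_lit 0, nat_lit 0, nat_lit 282, nat_lit 0, nat_lit 0, nat_lit 0, nat_lit 0, nat_lit 0, nat_lit 323400, nat_lit 0, nat_lit 0, [(nat_lit 25, [(nat_lit 1, nat_lit 611), (nat_lit 2, nat_lit 79)])],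
 ⟨p122_k8, nat_lit 0, nat_lit 0, nat_lit 165, nat_lit 0, nat_lit 0, [nat_lit 922956401, nat_lit 1599629734, nat_lit 2188682000], [], [nat_lit 27094949948, nat_lit 28042654696, nat_lit 29839451296, nat_lit 30942650095, nat_lit 26457195701, nat_lit 27364058945, nat_lit 29026110258, nat_lit 29831511529], nat_lit 0, nat_lit 0, nat_lit 0, nat_lit 0, nat_lit 0, nat_lit 0, [], [nat_lit 20, nat_lit 40, nat_lit 40, nat_lit 80, nat_lit 16, nat_lit 226, nat_lit 20, nat_lit 7]⟩, ⟨p122_k15, nat_lit 0, nat_lit 0, nat_lit 632, nat_lit 0, nat_lit 1116671, [nat_lit 1017420000, nat_lit 1937500000, nat_lit 3680320000], [], [nat_lit 9263892396, nat_lit 9325962104, nat_lit 9819695318, nat_lit 9867778611, nat_lit 9364216724, nat_lit 9411818056, nat_lit 9815904844, nat_lit 9954628999], nat_lit 1271250, nat_lit 1271250, nat_lit 1271250, nat_lit 1271250, nat_lit 1100001, nat_lit 1956250, [nat_lit 780000, nat_lit 1435000, nat_lit 1271250],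 [nat_lit 23, nat_lit 40, nat_lit 40, nat_lit 80, nat_lit 12, nat_lit 373, nat_lit 150, nat_lit 8]⟩,
 ⟨nat_lit 2236, nat_lit 3163, ⟨.ofNat (nat_lit 782556), .ofNat (nat_lit 880081), .ofNat (nat_lit 793619), .ofNat (nat_lit 891158), .ofNat (nat_lit 773529), .ofNat (nat_lit 864754), .ofNat (nat_lit 784902), .ofNat (nat_lit 876141)⟩, ⟨.ofNat (nat_lit 40000), .ofNat (nat_lit 184209), .ofNat (nat_lit 40000), .ofNat (nat_lit 200000), .ofNat (nat_lit 40000), .ofNat (nat_lit 192306), .ofNat (nat_lit 40000), .ofNat (nat_lit 200000)⟩⟩, [⟨nat_lit 22, nat_lit 66, nat_lit 100, nat_lit 66, nat_lit 159294241⟩]⟩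
noncomputable def p122_l39 : Lf2 := ⟨nat_lit 0, nat_lit 20, [nat_lit 5, nat_lit 5, nat_lit 5, nat_lit 20], false, nat_lit 8, nat_lit 80, nat_lit 0, nat_lit 260, ⟨nat_lit 766, nat_lit 234, nat_lit 0, nat_lit 8, nat_lit 341, nat_lit 234, nat_lit 43, nat_lit 0, nat_lit 0, nat_lit 0, nat_lit 0, nat_lit 0, nat_lit 38077552, nat_lit 27836772, nat_lit 1085676, nat_lit 3864736, true, true⟩,
 nat_lit 0, nat_lit 0, nat_lit 6447, nat_lit 0, nat_lit 3840, nat_lit 4463, nat_lit 289, nat_lit 0, nat_lit 0, nat_lit 1083, nat_lit 0, nat_lit 0, nat_lit 0, nat_lit 0, nat_lit 0, nat_lit 234000, nat_lit 0, nat_lit 0, [(nat_lit 25, [(nat_lit 2, nat_lit 234)])],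
 ⟨p122_k8, nat_lit 0, nat_lit 0, nat_lit 180, nat_lit 0, nat_lit 0, [nat_lit 1062113600, nat_lit 2424873601, nat_lit 3875180800], [], [nat_lit 28683430912, nat_lit 30198260497, nat_lit 33366781565, nat_lit 34594392106, nat_lit 26624761366, nat_lit 27662878082, nat_lit 30584813568, nat_lit 31772142241], nat_lit 0, nat_lit 0, nat_lit 0, nat_lit 0, nat_lit 0, nat_lit 0, [], [nat_lit 20, nat_lit 40, nat_lit 40, nat_lit 80, nat_lit 16, nat_lit 226, nat_lit 20, nat_lit 7]⟩, ⟨p122_k11, nat_lit 0, nat_lit 0, nat_lit 711, nat_lit 0, nat_lit 1185407, [nat_lit 2514012000, nat_lit 4787500000, nat_lit 7538972000], [], [nat_lit 24534137705, nat_lit 24867498879, nat_lit 27272648125, nat_lit 28192206068, nat_lit 23166745765, nat_lit 23385390790, nat_lit 24324121375, nat_lit 24698003235], nat_lit 1271250, nat_lit 1271250, nat_lit 1271250, nat_lit 1271250, nat_lit 0, nat_lit 1836250, [nat_lit 780000, nat_lit 1435000, nat_lit 1271250],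 [nat_lit 8, nat_lit 40, nat_lit 40, nat_lit 80, nat_lit 1, nat_lit 300, nat_lit 75, nat_lit 8]⟩,
 ⟨nat_lit 2236, nat_lit 3163, ⟨.ofNat (nat_lit 793619), .ofNat (nat_lit 903349), .ofNat (nat_lit 815720), .ofNat (nat_lit 925504), .ofNat (nat_lit 784902), .ofNat (nat_lit 887545), .ofNat (nat_lit 807623), .ofNat (nat_lit 910319)⟩, ⟨.ofNat (nat_lit 20000), .ofNat (nat_lit 184209), .ofNat (nat_lit 20000), .ofNat (nat_lit 200000), .ofNat (nat_lit 20000), .ofNat (nat_lit 192306), .ofNat (nat_lit 20000), .ofNat (nat_lit 200000)⟩⟩, [⟨nat_lit 22, nat_lit 64, nat_lit 100, nat_lit 64, nat_lit 155704447⟩]⟩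
noncomputable def p122_l40 : Lf2 := ⟨nat_lit 0, nat_lit 20, [nat_lit 5, nat_lit 5, nat_lit 5, nat_lit 20], false, nat_lit 20, nat_lit 80, nat_lit 0, nat_lit 260, ⟨nat_lit 197, nat_lit 803, nat_lit 0, nat_lit 8, nat_lit 317, nat_lit 803, nat_lit 49, nat_lit 0, nat_lit 0, nat_lit 0, nat_lit 0, nat_lit 0, nat_lit 40164133, nat_lit 25440726, nat_lit 1395141, nat_lit 3894894, true, true⟩,
 nat_lit 0, nat_lit 0, nat_lit 2481, nat_lit 0, nat_lit 2195, nat_lit 1578, nat_lit 135, nat_lit 0, nat_lit 0, nat_lit 120, nat_lit 0, nat_lit 0, nat_lit 0, nat_lit 0, nat_lit 0, nat_lit 321200, nat_lit 0, nat_lit 0, [(nat_lit 28, [(nat_lit 1, nat_lit 803)])],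
 ⟨p122_k10, nat_lit 0, nat_lit 0, nat_lit 156, nat_lit 0, nat_lit 0, [nat_lit 744958800, nat_lit 907368401, nat_lit 1342064000], [], [nat_lit 26392387350, nat_lit 26855062715, nat_lit 27933415825, nat_lit 28359878658, nat_lit 26041281555, nat_lit 26486136155, nat_lit 27529128655, nat_lit 27940092895], nat_lit 0, nat_lit 0, nat_lit 0, nat_lit 0, nat_lit 0, nat_lit 0, [], [nat_lit 20, nat_lit 40, nat_lit 40, nat_lit 80, nat_lit 16, nat_lit 226, nat_lit 20, nat_lit 7]⟩, ⟨p122_k9, nat_lit 0, nat_lit 0, nat_lit 816, nat_lit 0, nat_lit 1282101, [nat_lit 646554000, nat_lit 1231250000, nat_lit 2338784000], [], [nat_lit 7267908260, nat_lit 7290937111, nat_lit 7600639908, nat_lit 7691708871, nat_lit 6190746908, nat_lit 6202058916, nat_lit 6309815213, nat_lit 6333331713], nat_lit 1271250, nat_lit 1271250, nat_lit 1271250, nat_lit 1271250, nat_lit 0, nat_lit 1836250, [nat_lit 780000, nat_lit 1435000, nat_lit 1271250], [nat_lit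 23, nat_lit 40, nat_lit 40, nat_lit 80, nat_lit 12, nat_lit 373, nat_lit 150, nat_lit 9]⟩,
 ⟨nat_lit 1581, nat_lit 2237, ⟨.ofNat (nat_lit 762142), .ofNat (nat_lit 819158), .ofNat (nat_lit 773529), .ofNat (nat_lit 830545), .ofNat (nat_lit 757166), .ofNat (nat_lit 811802), .ofNat (nat_lit 768823), .ofNat (nat_lit 823459)⟩, ⟨.ofNat (nat_lit 50000), .ofNat (nat_lit 192306), .ofNat (nat_lit 50000), .ofNat (nat_lit 200000), .ofNat (nat_lit 50000), .ofNat (nat_lit 196201), .ofNat (nat_lit 50000), .ofNat (nat_lit 200000)⟩⟩, [⟨nat_lit 13, nat_lit 34, nat_lit 81, nat_lit 100, nat_lit 339390975⟩, ⟨nat_lit 3, nat_lit 100, nat_lit 44, nat_lit 71, nat_lit 150832298⟩, ⟨nat_lit 22, nat_lit 72, nat_lit 100, nat_lit 66, nat_lit 15987523⟩]⟩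
noncomputable def p122_l41 : Lf2 := ⟨nat_lit 0, nat_lit 20, [nat_lit 5, nat_lit 5, nat_lit 5, nat_lit 20], false, nat_lit 36, nat_lit 80, nat_lit 0, nat_lit 260, ⟨nat_lit 146, nat_lit 854, nat_lit 0, nat_lit 8, nat_lit 310, nat_lit 854, nat_lit 58, nat_lit 0, nat_lit 0, nat_lit 0, nat_lit 0, nat_lit 0, nat_lit 40597466, nat_lit 24623320, nat_lit 1779214, nat_lit 3980459, true, true⟩,
 nat_lit 0, nat_lit 0, nat_lit 1881, nat_lit 0, nat_lit 2419, nat_lit 1196, nat_lit 120, nat_lit 0, nat_lit 0, nat_lit 81, nat_lit 0, nat_lit 0, nat_lit 0, nat_lit 0, nat_lit 0, nat_lit 213500, nat_lit 0, nat_lit 0, [(nat_lit 28, [(nat_lit 0, nat_lit 854)])],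
 ⟨p122_k16, nat_lit 0, nat_lit 0, nat_lit 133, nat_lit 0, nat_lit 0, [nat_lit 804434400, nat_lit 1372456000, nat_lit 1859893600], [], [nat_lit 26924251463, nat_lit 27423532883, nat_lit 27890374165, nat_lit 28455711040, nat_lit 26565389098, nat_lit 27049915812, nat_lit 27506569244, nat_lit 27967777885], nat_lit 0, nat_lit 0, nat_lit 0, nat_lit 0, nat_lit 0, nat_lit 0, [], [nat_lit 35, nat_lit 40, nat_lit 40, nat_lit 80, nat_lit 22, nat_lit 226, nat_lit 20, nat_lit 8]⟩, ⟨p122_k9, nat_lit 0, nat_lit 0, nat_lit 877, nat_lit 0, nat_lit 1450788, [nat_lit 479172000, nat_lit 912500000, nat_lit 1733312000], [], [nat_lit 5438451431, nat_lit 5448631023, nat_lit 5563558203, nat_lit 5636463015, nat_lit 4598916057, nat_lit 4601024461, nat_lit 4621829121, nat_lit 4643885507], nat_lit 1271250, nat_lit 1271250, nat_lit 1271250, nat_lit 1271250, nat_lit 0, nat_lit 1836250, [nat_lit 780000, nat_lit 1435000, nat_lit 1271250], [nat_lit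 23, nat_lit 40, nat_lit 40, nat_lit 80, nat_lit 12, nat_lit 373, nat_lit 150, nat_lit 9]⟩,
 ⟨nat_lit 0, nat_lit 1582, ⟨.ofNat (nat_lit 757165), .ofNat (nat_lit 789945), .ofNat (nat_lit 768823), .ofNat (nat_lit 801603), .ofNat (nat_lit 749998), .ofNat (nat_lit 779997), .ofNat (nat_lit 762499), .ofNat (nat_lit 792497)⟩, ⟨.ofNat (nat_lit 90000), .ofNat (nat_lit 196201), .ofNat (nat_lit 90000), .ofNat (nat_lit 200000), .ofNat (nat_lit 90000), .ofNat (nat_lit 199999), .ofNat (nat_lit 90000), .ofNat (nat_lit 200000)⟩⟩, [⟨nat_lit 13, nat_lit 35, nat_lit 79, nat_lit 100, nat_lit 400367485⟩, ⟨nat_lit 3, nat_lit 100, nat_lit 39, nat_lit 72, nat_lit 227720542⟩, ⟨nat_lit 22, nat_lit 75, nat_lit 100, nat_lit 71, nat_lit 11205444⟩]⟩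
noncomputable def p122_l42 : Lf2 := ⟨nat_lit 0, nat_lit 20, [nat_lit 5, nat_lit 5, nat_lit 5, nat_lit 20], false, nat_lit 20, nat_lit 80, nat_lit 0, nat_lit 260, ⟨nat_lit 266, nat_lit 734, nat_lit 0, nat_lit 8, nat_lit 324, nat_lit 734, nat_lit 49, nat_lit 0, nat_lit 0, nat_lit 0, nat_lit 0, nat_lit 0, nat_lit 39515908, nat_lit 26103329, nat_lit 1380763, nat_lit 3912246, true, true⟩,
 nat_lit 0, nat_lit 0, nat_lit 2905, nat_lit 0, nat_lit 2215, nat_lit 1929, nat_lit 165, nat_lit 0, nat_lit 0, nat_lit 224, nat_lit 0, nat_lit 0, nat_lit 0, nat_lit 0, nat_lit 0, nat_lit 293600, nat_lit 0, nat_lit 0, [(nat_lit 28, [(nat_lit 1, nat_lit 734)])],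
 ⟨p122_k10, nat_lit 0, nat_lit 0, nat_lit 159, nat_lit 0, nat_lit 0, [nat_lit 761546400, nat_lit 1111415200, nat_lit 1763792000], [], [nat_lit 26513583600, nat_lit 26977670105, nat_lit 28386082471, nat_lit 28808017617, nat_lit 26151430185, nat_lit 26597614385, nat_lit 27958988484, nat_lit 28364338811], nat_lit 0, nat_lit 0, nat_lit 0, nat_lit 0, nat_lit 0, nat_lit 0, [], [nat_lit 20, nat_lit 40, nat_lit 40, nat_lit 80, nat_lit 16, nat_lit 226, nat_lit 20, nat_lit 7]⟩, ⟨p122_k15, nat_lit 0, nat_lit 0, nat_lit 809, nat_lit 0, nat_lit 1265359, [nat_lit 873012000, nat_lit 1662500000, nat_lit 3157952000], [], [nat_lit 9361070488, nat_lit 9409639384, nat_lit 9683714432, nat_lit 9723743723, nat_lit 8303341767, nat_lit 8331339221, nat_lit 8512142053, nat_lit 8533889432], nat_lit 1271250, nat_lit 1271250, nat_lit 1271250, nat_lit 1271250, nat_lit 0, nat_lit 1836250, [nat_lit 780000, nat_lit 1435000, nat_lit 1271250], [nat_lit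 23, nat_lit 40, nat_lit 40, nat_lit 80, nat_lit 12, nat_lit 373, nat_lit 150, nat_lit 9]⟩,
 ⟨nat_lit 1581, nat_lit 2237, ⟨.ofNat (nat_lit 773529), .ofNat (nat_lit 841948), .ofNat (nat_lit 784917), .ofNat (nat_lit 853335), .ofNat (nat_lit 768823), .ofNat (nat_lit 834386), .ofNat (nat_lit 780481), .ofNat (nat_lit 846044)⟩, ⟨.ofNat (nat_lit 50000), .ofNat (nat_lit 192306), .ofNat (nat_lit 50000), .ofNat (nat_lit 200000), .ofNat (nat_lit 50000), .ofNat (nat_lit 196201), .ofNat (nat_lit 50000), .ofNat (nat_lit 200000)⟩⟩, [⟨nat_lit 13, nat_lit 35, nat_lit 79, nat_lit 100, nat_lit 217154941⟩, ⟨nat_lit 3, nat_lit 100, nat_lit 44, nat_lit 71, nat_lit 65128387⟩, ⟨nat_lit 22, nat_lit 70, nat_lit 100, nat_lit 66, nat_lit 48749026⟩]⟩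
noncomputable def p122_l43 : Lf2 := ⟨nat_lit 0, nat_lit 20, [nat_lit 5, nat_lit 5, nat_lit 5, nat_lit 20], false, nat_lit 36, nat_lit 80, nat_lit 0, nat_lit 260, ⟨nat_lit 186, nat_lit 814, nat_lit 0, nat_lit 8, nat_lit 317, nat_lit 814, nat_lit 58, nat_lit 0, nat_lit 0, nat_lit 0, nat_lit 0, nat_lit 0, nat_lit 39942098, nat_lit 25296769, nat_lit 1761133, nat_lit 3999706, true, true⟩,
 nat_lit 0, nat_lit 0, nat_lit 2158, nat_lit 0, nat_lit 2366, nat_lit 1433, nat_lit 136, nat_lit 0, nat_lit 0, nat_lit 147, nat_lit 0, nat_lit 0, nat_lit 0, nat_lit 0, nat_lit 0, nat_lit 203500, nat_lit 0, nat_lit 0, [(nat_lit 28, [(nat_lit 0, nat_lit 814)])],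
 ⟨p122_k16, nat_lit 0, nat_lit 0, nat_lit 135, nat_lit 0, nat_lit 0, [nat_lit 810690401, nat_lit 1461896001, nat_lit 1992357600], [], [nat_lit 26952345008, nat_lit 27447595054, nat_lit 28232285525, nat_lit 28695311305, nat_lit 26615281975, nat_lit 27095949971, nat_lit 27862305616, nat_lit 28312325715], nat_lit 0, nat_lit 0, nat_lit 0, nat_lit 0, nat_lit 0, nat_lit 0, [], [nat_lit 35, nat_lit 40, nat_lit 40, nat_lit 80, nat_lit 22, nat_lit 226, nat_lit 20, nat_lit 8]⟩, ⟨p122_k15, nat_lit 0, nat_lit 0, nat_lit 864, nat_lit 0, nat_lit 1419729, [nat_lit 610452000, nat_lit 1162500000, nat_lit 2208192000], [], [nat_lit 6362870255, nat_lit 6386345160, nat_lit 6678916172, nat_lit 6766391015, nat_lit 5495582001, nat_lit 5506825768, nat_lit 5560483130, nat_lit 5571513784], nat_lit 1271250, nat_lit 1271250, nat_lit 1271250, nat_lit 1271250, nat_lit 0, nat_lit 1836250, [nat_lit 780000, nat_lit 1435000, nat_lit 1271250], [nat_lit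 23, nat_lit 40, nat_lit 40, nat_lit 80, nat_lit 12, nat_lit 373, nat_lit 150, nat_lit 9]⟩,
 ⟨nat_lit 0, nat_lit 1582, ⟨.ofNat (nat_lit 768823), .ofNat (nat_lit 812530), .ofNat (nat_lit 780481), .ofNat (nat_lit 824188), .ofNat (nat_lit 762499), .ofNat (nat_lit 802497), .ofNat (nat_lit 774999), .ofNat (nat_lit 814997)⟩, ⟨.ofNat (nat_lit 90000), .ofNat (nat_lit 196201), .ofNat (nat_lit 90000), .ofNat (nat_lit 200000), .ofNat (nat_lit 90000), .ofNat (nat_lit 199999), .ofNat (nat_lit 90000), .ofNat (nat_lit 200000)⟩⟩, [⟨nat_lit 13, nat_lit 25, nat_lit 86, nat_lit 100, nat_lit 169473027⟩, ⟨nat_lit 13, nat_lit 36, nat_lit 77, nat_lit 100, nat_lit 229284029⟩, ⟨nat_lit 3, nat_lit 100, nat_lit 39, nat_lit 72, nat_lit 186110464⟩, ⟨nat_lit 22, nat_lit 73, nat_lit 100, nat_lit 70, nat_lit 17097292⟩]⟩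
noncomputable def p122_l44 : Lf2 := ⟨nat_lit 0, nat_lit 20, [nat_lit 5, nat_lit 5, nat_lit 5, nat_lit 20], false, nat_lit 20, nat_lit 80, nat_lit 0, nat_lit 260, ⟨nat_lit 434, nat_lit 566, nat_lit 0, nat_lit 8, nat_lit 334, nat_lit 566, nat_lit 49, nat_lit 0, nat_lit 0, nat_lit 0, nat_lit 0, nat_lit 0, nat_lit 38558375, nat_lit 27082849, nat_lit 1358776, nat_lit 3933827, true, true⟩,
 nat_lit 0, nat_lit 0, nat_lit 3833, nat_lit 0, nat_lit 2432, nat_lit 2653, nat_lit 214, nat_lit 0, nat_lit 0, nat_lit 484, nat_lit 0, nat_lit 0, nat_lit 0, nat_lit 0, nat_lit 0, nat_lit 226400, nat_lit 0, nat_lit 0, [(nat_lit 28, [(nat_lit 1, nat_lit 566)])],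
 ⟨p122_k10, nat_lit 0, nat_lit 0, nat_lit 163, nat_lit 0, nat_lit 0, [nat_lit 801933600, nat_lit 1608224801, nat_lit 2790608000], [], [nat_lit 26963713770, nat_lit 27443111144, nat_lit 29489430174, nat_lit 30014656241, nat_lit 26505909965, nat_lit 26942304038, nat_lit 28824427414, nat_lit 29234036884], nat_lit 0, nat_lit 0, nat_lit 0, nat_lit 0, nat_lit 0, nat_lit 0, [], [nat_lit 20, nat_lit 40, nat_lit 40, nat_lit 80, nat_lit 16, nat_lit 226, nat_lit 20, nat_lit 7]⟩, ⟨p122_k11, nat_lit 0, nat_lit 0, nat_lit 760, nat_lit 0, nat_lit 1318078, [nat_lit 1424388000, nat_lit 2712500000, nat_lit 4271428000], [], [nat_lit 14574443156, nat_lit 14715239840, nat_lit 15230600546, nat_lit 15794318092, nat_lit 13444332069, nat_lit 13532181453, nat_lit 13866386275, nat_lit 13949901567], nat_lit 1271250, nat_lit 1271250, nat_lit 1271250, nat_lit 1271250, nat_lit 0, nat_lit 1836250, [nat_lit 780000, nat_lit 1435000, nat_lit 1271250],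 [nat_lit 8, nat_lit 40, nat_lit 40, nat_lit 80, nat_lit 1, nat_lit 310, nat_lit 75, nat_lit 8]⟩,
 ⟨nat_lit 1581, nat_lit 2237, ⟨.ofNat (nat_lit 784917), .ofNat (nat_lit 870440), .ofNat (nat_lit 807675), .ofNat (nat_lit 893214), .ofNat (nat_lit 780481), .ofNat (nat_lit 862435), .ofNat (nat_lit 803781), .ofNat (nat_lit 885750)⟩, ⟨.ofNat (nat_lit 50000), .ofNat (nat_lit 192306), .ofNat (nat_lit 50000), .ofNat (nat_lit 200000), .ofNat (nat_lit 50000), .ofNat (nat_lit 196201), .ofNat (nat_lit 50000), .ofNat (nat_lit 200000)⟩⟩, [⟨nat_lit 22, nat_lit 67, nat_lit 100, nat_lit 67, nat_lit 86563847⟩]⟩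
noncomputable def p122_l45 : Lf2 := ⟨nat_lit 0, nat_lit 20, [nat_lit 5, nat_lit 5, nat_lit 5, nat_lit 20], false, nat_lit 36, nat_lit 80, nat_lit 0, nat_lit 260, ⟨nat_lit 286, nat_lit 714, nat_lit 0, nat_lit 8, nat_lit 327, nat_lit 714, nat_lit 58, nat_lit 0, nat_lit 0, nat_lit 0, nat_lit 0, nat_lit 0, nat_lit 38973484, nat_lit 26293098, nat_lit 1733418, nat_lit 4023861, true, true⟩,
 nat_lit 0, nat_lit 0, nat_lit 2691, nat_lit 0, nat_lit 2326, nat_lit 1862, nat_lit 127, nat_lit 0, nat_lit 0, nat_lit 269, nat_lit 0, nat_lit 0, nat_lit 0, nat_lit 0, nat_lit 0, nat_lit 231900, nat_lit 0, nat_lit 0, [(nat_lit 28, [(nat_lit 0, nat_lit 358), (nat_lit 1, nat_lit 356)])],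
 ⟨p122_k16, nat_lit 0, nat_lit 0, nat_lit 138, nat_lit 0, nat_lit 0, [nat_lit 796426400, nat_lit 1428748800, nat_lit 1903864800], [], [nat_lit 26937892324, nat_lit 27430099824, nat_lit 28699206605, nat_lit 29149139894, nat_lit 26617281617, nat_lit 27095037373, nat_lit 28333335883, nat_lit 28769454983], nat_lit 0, nat_lit 0, nat_lit 0, nat_lit 0, nat_lit 0, nat_lit 0, [], [nat_lit 35, nat_lit 40, nat_lit 40, nat_lit 80, nat_lit 22, nat_lit 226, nat_lit 20, nat_lit 8]⟩, ⟨p122_k11, nat_lit 0, nat_lit 0, nat_lit 821, nat_lit 0, nat_lit 1455935, [nat_lit 938652000, nat_lit 1787500000, nat_lit 2814812000], [], [nat_lit 9552212991, nat_lit 9631214931, nat_lit 9818830680, nat_lit 10230815379, nat_lit 8684764466, nat_lit 8730052795, nat_lit 8833699416, nat_lit 8869985470], nat_lit 1271250, nat_lit 1271250, nat_lit 1271250, nat_lit 1271250, nat_lit 0, nat_lit 1836250, [nat_lit 780000, nat_lit 1435000, nat_lit 1271250], [nat_lit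 8, nat_lit 40, nat_lit 40, nat_lit 80, nat_lit 1, nat_lit 324, nat_lit 75, nat_lit 9]⟩,
 ⟨nat_lit 0, nat_lit 1582, ⟨.ofNat (nat_lit 780481), .ofNat (nat_lit 840578), .ofNat (nat_lit 803773), .ofNat (nat_lit 863894), .ofNat (nat_lit 774999), .ofNat (nat_lit 829997), .ofNat (nat_lit 799976), .ofNat (nat_lit 854998)⟩, ⟨.ofNat (nat_lit 90000), .ofNat (nat_lit 196201), .ofNat (nat_lit 90000), .ofNat (nat_lit 200000), .ofNat (nat_lit 90000), .ofNat (nat_lit 199999), .ofNat (nat_lit 90000), .ofNat (nat_lit 200000)⟩⟩, [⟨nat_lit 13, nat_lit 27, nat_lit 83, nat_lit 100, nat_lit 324108625⟩, ⟨nat_lit 3, nat_lit 100, nat_lit 26, nat_lit 85, nat_lit 133411628⟩, ⟨nat_lit 22, nat_lit 70, nat_lit 100, nat_lit 70, nat_lit 45241273⟩]⟩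
noncomputable def b_V_900_700_20_11 : St := ⟨true, nat_lit 0, nat_lit 1, nat_lit 1, nat_lit 120, nat_lit 360, nat_lit 400, nat_lit 280, nat_lit 320, nat_lit 320, nat_lit 392, nat_lit 80, nat_lit 120, nat_lit 8, nat_lit 80, nat_lit 0, nat_lit 336, nat_lit 40, nat_lit 80, nat_lit 0, nat_lit 0, nat_lit 0, nat_lit 0⟩
theorem d_V_900_700_20_11 (h : EB TB.env) : Dead b_V_900_700_20_11 := chkB_sound0 h (T :=
(.trX (nat_lit 22) (nat_lit 83) (nat_lit 100) (nat_lit 83) (nat_lit 260) (.spl (nat_lit 0) (nat_lit 380)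
(.spl (nat_lit 1) (nat_lit 300)
(.trX (nat_lit 13) (nat_lit 69) (nat_lit 45) (nat_lit 100) (nat_lit 384) (.spl (nat_lit 5) (nat_lit 160)
(.spl (nat_lit 0) (nat_lit 370)
(.leaf p122_l34)
(.trX (nat_lit 13) (nat_lit 61) (nat_lit 55) (nat_lit 100) (nat_lit 380) (.trZ (nat_lit 3) (nat_lit 100) (nat_lit 66) (nat_lit 45) (nat_lit 12) (.spl (nat_lit 1) (nat_lit 290)
(.trX (nat_lit 13) (nat_lit 59) (nat_lit 58) (nat_lit 100) (nat_lit 372) (.leaf p122_l35))
(.leaf p122_l36)))))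
(.trZ (nat_lit 22) (nat_lit 82) (nat_lit 100) (nat_lit 44) (nat_lit 16) (.spl (nat_lit 1) (nat_lit 290)
(.trX (nat_lit 13) (nat_lit 67) (nat_lit 50) (nat_lit 100) (nat_lit 380) (.leaf p122_l37))
(.leaf p122_l38)))))
(.leaf p122_l39))
(.trX (nat_lit 13) (nat_lit 54) (nat_lit 57) (nat_lit 100) (nat_lit 380) (.trZ (nat_lit 3) (nat_lit 100) (nat_lit 54) (nat_lit 57) (nat_lit 20) (.spl (nat_lit 1) (nat_lit 300)
(.trX (nat_lit 13) (nat_lit 50) (nat_lit 65) (nat_lit 100) (nat_lit 368) (.spl (nat_lit 1) (nat_lit 290)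
(.trX (nat_lit 13) (nat_lit 49) (nat_lit 68) (nat_lit 100) (nat_lit 360) (.spl (nat_lit 0) (nat_lit 390)
(.leaf p122_l40)
(.trX (nat_lit 13) (nat_lit 35) (nat_lit 79) (nat_lit 100) (nat_lit 344) (.trZ (nat_lit 3) (nat_lit 100) (nat_lit 39) (nat_lit 72) (nat_lit 36) (.leaf p122_l41)))))
(.spl (nat_lit 0) (nat_lit 390)
(.leaf p122_l42)
(.trX (nat_lit 13) (nat_lit 36) (nat_lit 77) (nat_lit 100) (nat_lit 352) (.trZ (nat_lit 3) (nat_lit 100) (nat_lit 39) (nat_lit 72) (nat_lit 36) (.leaf p122_l43))))))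
(.spl (nat_lit 0) (nat_lit 390)
(.leaf p122_l44)
(.trX (nat_lit 13) (nat_lit 39) (nat_lit 72) (nat_lit 100) (nat_lit 364) (.trZ (nat_lit 3) (nat_lit 100) (nat_lit 39) (nat_lit 72) (nat_lit 36) (.leaf p122_l45)))))))))) (by decide +kernel)
noncomputable def p122_l46 : Lf2 := ⟨nat_lit 0, nat_lit 20, [nat_lit 5, nat_lit 5, nat_lit 5, nat_lit 20], false, nat_lit 80, nat_lit 160, nat_lit 0, nat_lit 336, ⟨nat_lit 151, nat_lit 849, nat_lit 0, nat_lit 7, nat_lit 276, nat_lit 849, nat_lit 105, nat_lit 0, nat_lit 0, nat_lit 0, nat_lit 0, nat_lit 0, nat_lit 41954814, nat_lit 20584435, nat_lit 4460751, nat_lit 4429850, true, false⟩,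
 nat_lit 0, nat_lit 0, nat_lit 1952, nat_lit 0, nat_lit 4257, nat_lit 1241, nat_lit 0, nat_lit 0, nat_lit 0, nat_lit 107, nat_lit 0, nat_lit 0, nat_lit 0, nat_lit 0, nat_lit 0, nat_lit 299550, nat_lit 0, nat_lit 0, [(nat_lit 25, [(nat_lit 0, nat_lit 267), (nat_lit 1, nat_lit 582)])],
 ⟨p122_k8, nat_lit 0, nat_lit 0, nat_lit 96, nat_lit 0, nat_lit 0, [nat_lit 837299601, nat_lit 1444293200, nat_lit 2041902400], [], [nat_lit 23040367288, nat_lit 24521144532, nat_lit 24662648456, nat_lit 26026769012, nat_lit 23308776516, nat_lit 24646576924, nat_lit 24776339760, nat_lit 26009942304], nat_lit 0, nat_lit 0, nat_lit 0, nat_lit 0, nat_lit 0, nat_lit 0, [], [nat_lit 20, nat_lit 40, nat_lit 40, nat_lit 80, nat_lit 16, nat_lit 249, nat_lit 40, nat_lit 8]⟩, ⟨p122_k9, nat_lit 0, nat_lit 0, nat_lit 798, nat_lit 0, nat_lit 1188424, [nat_lit 495582000, nat_lit 943750000, nat_lit 1792672000], [], [nat_lit 5133234009, nat_lit 5181835745,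 nat_lit 5185275433, nat_lit 5230364470, nat_lit 4578955606, nat_lit 4608304386, nat_lit 4599149333, nat_lit 4630202771], nat_lit 1271250, nat_lit 1271250, nat_lit 1271250, nat_lit 1271250, nat_lit 0, nat_lit 2373000, [nat_lit 780000, nat_lit 1435000, nat_lit 1271250], [nat_lit 23, nat_lit 40, nat_lit 40, nat_lit 80, nat_lit 12, nat_lit 483, nat_lit 250, nat_lit 12]⟩,
 ⟨nat_lit 2236, nat_lit 3163, ⟨.ofNat (nat_lit 649422), .ofNat (nat_lit 710480), .ofNat (nat_lit 671514), .ofNat (nat_lit 732571), .ofNat (nat_lit 647962), .ofNat (nat_lit 705082), .ofNat (nat_lit 670673), .ofNat (nat_lit 727793)⟩, ⟨.ofNat (nat_lit 184209), .ofNat (nat_lit 306116), .ofNat (nat_lit 200000), .ofNat (nat_lit 350426), .ofNat (nat_lit 192306), .ofNat (nat_lit 306337), .ofNat (nat_lit 200000), .ofNat (nat_lit 351886)⟩⟩, [⟨nat_lit 7, nat_lit 94, nat_lit 100, nat_lit 97, nat_lit 20246867⟩]⟩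
noncomputable def p122_l47 : Lf2 := ⟨nat_lit 0, nat_lit 20, [nat_lit 5, nat_lit 5, nat_lit 5, nat_lit 20], false, nat_lit 80, nat_lit 160, nat_lit 0, nat_lit 336, ⟨nat_lit 141, nat_lit 859, nat_lit 0, nat_lit 7, nat_lit 297, nat_lit 859, nat_lit 105, nat_lit 0, nat_lit 0, nat_lit 0, nat_lit 0, nat_lit 0, nat_lit 40032529, nat_lit 22633882, nat_lit 4333589, nat_lit 4506612, true, true⟩,
 nat_lit 0, nat_lit 0, nat_lit 1717, nat_lit 0, nat_lit 4288, nat_lit 1092, nat_lit 0, nat_lit 0, nat_lit 0, nat_lit 87, nat_lit 0, nat_lit 0, nat_lit 0, nat_lit 0, nat_lit 0, nat_lit 243250, nat_lit 0, nat_lit 0, [(nat_lit 25, [(nat_lit 0, nat_lit 669), (nat_lit 1, nat_lit 190)])],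
 ⟨p122_k8, nat_lit 0, nat_lit 0, nat_lit 108, nat_lit 0, nat_lit 0, [nat_lit 803886000, nat_lit 1568894534, nat_lit 2472080000], [], [nat_lit 25086998304, nat_lit 26454272688, nat_lit 26963452736, nat_lit 28211652496, nat_lit 25189854240, nat_lit 26427914336, nat_lit 26890203680, nat_lit 28022007792], nat_lit 0, nat_lit 0, nat_lit 0, nat_lit 0, nat_lit 0, nat_lit 0, [], [nat_lit 20, nat_lit 40, nat_lit 40, nat_lit 80, nat_lit 16, nat_lit 249, nat_lit 40, nat_lit 8]⟩, ⟨p122_k9, nat_lit 0, nat_lit 0, nat_lit 732, nat_lit 0, nat_lit 1119789, [nat_lit 462762000, nat_lit 881250000, nat_lit 1673952000], [], [nat_lit 5110711353, nat_lit 5138951799, nat_lit 5223673137, nat_lit 5248006695, nat_lit 4549481611, nat_lit 4560360676, nat_lit 4592997871, nat_lit 4613793339], nat_lit 1271250, nat_lit 1271250, nat_lit 1271250, nat_lit 1271250, nat_lit 0, nat_lit 2373000, [nat_lit 780000, nat_lit 1435000, nat_lit 1271250], [nat_lit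 23, nat_lit 40, nat_lit 40, nat_lit 80, nat_lit 12, nat_lit 483, nat_lit 250, nat_lit 12]⟩,
 ⟨nat_lit 2236, nat_lit 3163, ⟨.ofNat (nat_lit 710480), .ofNat (nat_lit 771478), .ofNat (nat_lit 721526), .ofNat (nat_lit 782556), .ofNat (nat_lit 705082), .ofNat (nat_lit 762142), .ofNat (nat_lit 716437), .ofNat (nat_lit 773529)⟩, ⟨.ofNat (nat_lit 184209), .ofNat (nat_lit 306116), .ofNat (nat_lit 200000), .ofNat (nat_lit 350426), .ofNat (nat_lit 192306), .ofNat (nat_lit 306337), .ofNat (nat_lit 200000), .ofNat (nat_lit 351886)⟩⟩, [⟨nat_lit 22, nat_lit 94, nat_lit 88, nat_lit 100, nat_lit 18276431⟩]⟩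
noncomputable def p122_l48 : Lf2 := ⟨nat_lit 0, nat_lit 20, [nat_lit 5, nat_lit 5, nat_lit 5, nat_lit 20], false, nat_lit 80, nat_lit 160, nat_lit 0, nat_lit 328, ⟨nat_lit 186, nat_lit 814, nat_lit 0, nat_lit 7, nat_lit 302, nat_lit 814, nat_lit 105, nat_lit 0, nat_lit 0, nat_lit 0, nat_lit 0, nat_lit 0, nat_lit 39636048, nat_lit 23058075, nat_lit 4305877, nat_lit 4519403, true, true⟩,
 nat_lit 0, nat_lit 0, nat_lit 2060, nat_lit 0, nat_lit 4172, nat_lit 1367, nat_lit 0, nat_lit 0, nat_lit 0, nat_lit 143, nat_lit 0, nat_lit 0, nat_lit 0, nat_lit 0, nat_lit 0, nat_lit 275200, nat_lit 0, nat_lit 0, [(nat_lit 25, [(nat_lit 0, nat_lit 336), (nat_lit 1, nat_lit 478)])],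
 ⟨p122_k8, nat_lit 0, nat_lit 0, nat_lit 108, nat_lit 0, nat_lit 0, [nat_lit 834986401, nat_lit 1549388534, nat_lit 2311613600], [], [nat_lit 24948338976, nat_lit 26296395872, nat_lit 26805181984, nat_lit 28034876904, nat_lit 25091740160, nat_lit 26313120384, nat_lit 26775747520, nat_lit 27893060448], nat_lit 0, nat_lit 0, nat_lit 0, nat_lit 0, nat_lit 0, nat_lit 0, [], [nat_lit 20, nat_lit 40, nat_lit 40, nat_lit 80, nat_lit 16, nat_lit 249, nat_lit 40, nat_lit 8]⟩, ⟨p122_k15, nat_lit 0, nat_lit 0, nat_lit 730, nat_lit 0, nat_lit 1116671, [nat_lit 610452000, nat_lit 1162500000, nat_lit 2208192000], [], [nat_lit 6157702114, nat_lit 6194901585, nat_lit 6301561470, nat_lit 6366445355, nat_lit 5635124173, nat_lit 5660818067, nat_lit 5734008452, nat_lit 5755811048], nat_lit 1271250, nat_lit 1271250, nat_lit 1271250, nat_lit 1271250, nat_lit 0, nat_lit 2316500, [nat_lit 780000, nat_lit 1435000, nat_lit 1271250], [nat_lit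 23, nat_lit 40, nat_lit 40, nat_lit 80, nat_lit 12, nat_lit 483, nat_lit 250, nat_lit 12]⟩,
 ⟨nat_lit 2236, nat_lit 3163, ⟨.ofNat (nat_lit 721526), .ofNat (nat_lit 782556), .ofNat (nat_lit 732571), .ofNat (nat_lit 793619), .ofNat (nat_lit 716437), .ofNat (nat_lit 773529), .ofNat (nat_lit 727793), .ofNat (nat_lit 784902)⟩, ⟨.ofNat (nat_lit 184209), .ofNat (nat_lit 306116), .ofNat (nat_lit 200000), .ofNat (nat_lit 350426), .ofNat (nat_lit 192306), .ofNat (nat_lit 306337), .ofNat (nat_lit 200000), .ofNat (nat_lit 351886)⟩⟩, [⟨nat_lit 19, nat_lit 100, nat_lit 97, nat_lit 98, nat_lit 25749450⟩]⟩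
noncomputable def p122_l49 : Lf2 := ⟨nat_lit 0, nat_lit 20, [nat_lit 5, nat_lit 5, nat_lit 5, nat_lit 20], false, nat_lit 80, nat_lit 160, nat_lit 0, nat_lit 320, ⟨nat_lit 231, nat_lit 769, nat_lit 0, nat_lit 7, nat_lit 294, nat_lit 769, nat_lit 105, nat_lit 0, nat_lit 0, nat_lit 0, nat_lit 0, nat_lit 0, nat_lit 40285699, nat_lit 22363275, nat_lit 4351026, nat_lit 4497906, true, false⟩,
 nat_lit 0, nat_lit 0, nat_lit 2255, nat_lit 0, nat_lit 4297, nat_lit 1560, nat_lit 0, nat_lit 0, nat_lit 0, nat_lit 176, nat_lit 0, nat_lit 0, nat_lit 0, nat_lit 0, nat_lit 0, nat_lit 283150, nat_lit 0, nat_lit 0, [(nat_lit 25, [(nat_lit 0, nat_lit 163), (nat_lit 1, nat_lit 606)])],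
 ⟨p122_k8, nat_lit 0, nat_lit 0, nat_lit 108, nat_lit 0, nat_lit 0, [nat_lit 853158801, nat_lit 1588549200, nat_lit 2343595200], [], [nat_lit 23329779448, nat_lit 24818032372, nat_lit 26834797584, nat_lit 28225535824, nat_lit 23585172836, nat_lit 24929467004, nat_lit 26758149120, nat_lit 27891705918], nat_lit 0, nat_lit 0, nat_lit 0, nat_lit 0, nat_lit 0, nat_lit 0, [], [nat_lit 20, nat_lit 40, nat_lit 40, nat_lit 80, nat_lit 16, nat_lit 249, nat_lit 40, nat_lit 8]⟩, ⟨p122_k11, nat_lit 0, nat_lit 0, nat_lit 693, nat_lit 0, nat_lit 1116530, [nat_lit 758142000, nat_lit 1443750000, nat_lit 2273502000], [], [nat_lit 7256384304, nat_lit 7310530464, nat_lit 7582151982, nat_lit 7627878489, nat_lit 6798856614, nat_lit 6826631397, nat_lit 6968350494, nat_lit 7010996469], nat_lit 1271250, nat_lit 1271250, nat_lit 1271250, nat_lit 1271250, nat_lit 0, nat_lit 2260000, [nat_lit 780000, nat_lit 1435000, nat_lit 1271250], [nat_lit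 8, nat_lit 40, nat_lit 40, nat_lit 80, nat_lit 1, nat_lit 401, nat_lit 175, nat_lit 11]⟩,
 ⟨nat_lit 2236, nat_lit 3163, ⟨.ofNat (nat_lit 671514), .ofNat (nat_lit 793619), .ofNat (nat_lit 682560), .ofNat (nat_lit 804673), .ofNat (nat_lit 670673), .ofNat (nat_lit 784902), .ofNat (nat_lit 682029), .ofNat (nat_lit 796267)⟩, ⟨.ofNat (nat_lit 184209), .ofNat (nat_lit 306116), .ofNat (nat_lit 200000), .ofNat (nat_lit 350426), .ofNat (nat_lit 192306), .ofNat (nat_lit 306337), .ofNat (nat_lit 200000), .ofNat (nat_lit 351886)⟩⟩, [⟨nat_lit 7, nat_lit 100, nat_lit 97, nat_lit 98, nat_lit 34810523⟩]⟩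
noncomputable def p122_l50 : Lf2 := ⟨nat_lit 0, nat_lit 20, [nat_lit 5, nat_lit 5, nat_lit 5, nat_lit 20], false, nat_lit 80, nat_lit 160, nat_lit 0, nat_lit 312, ⟨nat_lit 396, nat_lit 604, nat_lit 0, nat_lit 7, nat_lit 299, nat_lit 604, nat_lit 105, nat_lit 0, nat_lit 0, nat_lit 0, nat_lit 0, nat_lit 0, nat_lit 39888013, nat_lit 22788443, nat_lit 4323544, nat_lit 4511393, true, false⟩,
 nat_lit 0, nat_lit 0, nat_lit 3371, nat_lit 0, nat_lit 3614, nat_lit 2430, nat_lit 202, nat_lit 0, nat_lit 0, nat_lit 301, nat_lit 0, nat_lit 0, nat_lit 0, nat_lit 0, nat_lit 0, nat_lit 241600, nat_lit 0, nat_lit 0, [(nat_lit 25, [(nat_lit 1, nat_lit 604)])],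
 ⟨p122_k8, nat_lit 0, nat_lit 0, nat_lit 108, nat_lit 0, nat_lit 0, [nat_lit 881707201, nat_lit 1904960534, nat_lit 3027780800], [], [nat_lit 22608288226, nat_lit 23968893914, nat_lit 25916542258, nat_lit 27171945488, nat_lit 23085927082, nat_lit 24319340298, nat_lit 26097871090, nat_lit 27145805716], nat_lit 0, nat_lit 0, nat_lit 0, nat_lit 0, nat_lit 0, nat_lit 0, [], [nat_lit 20, nat_lit 40, nat_lit 40, nat_lit 80, nat_lit 16, nat_lit 249, nat_lit 40, nat_lit 8]⟩, ⟨p122_k17, nat_lit 0, nat_lit 0, nat_lit 693, nat_lit 0, nat_lit 1118502, [nat_lit 1299672000, nat_lit 2475000000, nat_lit 3897432000], [], [nat_lit 11817085799, nat_lit 11918311643, nat_lit 12424516751, nat_lit 12506574035, nat_lit 11427600471, nat_lit 11497487006, nat_lit 11826990857, nat_lit 11882550249], nat_lit 1271250, nat_lit 1271250, nat_lit 1271250, nat_lit 1271250, nat_lit 0, nat_lit 2203500, [nat_lit 780000, nat_lit 1435000, nat_lit 1271250],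 [nat_lit 8, nat_lit 40, nat_lit 40, nat_lit 80, nat_lit 1, nat_lit 401, nat_lit 175, nat_lit 11]⟩,
 ⟨nat_lit 2236, nat_lit 3163, ⟨.ofNat (nat_lit 682560), .ofNat (nat_lit 804673), .ofNat (nat_lit 693606), .ofNat (nat_lit 815720), .ofNat (nat_lit 682029), .ofNat (nat_lit 796267), .ofNat (nat_lit 693384), .ofNat (nat_lit 807623)⟩, ⟨.ofNat (nat_lit 184209), .ofNat (nat_lit 306116), .ofNat (nat_lit 200000), .ofNat (nat_lit 350426), .ofNat (nat_lit 192306), .ofNat (nat_lit 306337), .ofNat (nat_lit 200000), .ofNat (nat_lit 351886)⟩⟩, [⟨nat_lit 7, nat_lit 100, nat_lit 90, nat_lit 95, nat_lit 73347754⟩]⟩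
noncomputable def p122_l51 : Lf2 := ⟨nat_lit 0, nat_lit 20, [nat_lit 5, nat_lit 5, nat_lit 5, nat_lit 20], true, nat_lit 80, nat_lit 160, nat_lit 0, nat_lit 336, ⟨nat_lit 0, nat_lit 1000, nat_lit 0, nat_lit 7, nat_lit 279, nat_lit 1000, nat_lit 105, nat_lit 0, nat_lit 0, nat_lit 0, nat_lit 0, nat_lit 0, nat_lit 41628848, nat_lit 20901105, nat_lit 4470047, nat_lit 4448999, true, false⟩,
 nat_lit 0, nat_lit 0, nat_lit 0, nat_lit 0, nat_lit 2680, nat_lit 0, nat_lit 145, nat_lit 0, nat_lit 0, nat_lit 0, nat_lit 0, nat_lit 0, nat_lit 0, nat_lit 0, nat_lit 0, nat_lit 250900, nat_lit 0, nat_lit 0, [(nat_lit 28, [(nat_lit 0, nat_lit 994), (nat_lit 1, nat_lit 6)])],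
 ⟨p122_k7, nat_lit 0, nat_lit 0, nat_lit 110, nat_lit 0, nat_lit 0, [nat_lit 781096000, nat_lit 1552223200, nat_lit 1551865600], [], [nat_lit 22600491790, nat_lit 23785587680, nat_lit 23936420195, nat_lit 25267264640, nat_lit 23358776275, nat_lit 24453953555, nat_lit 24639495875, nat_lit 25684971840], nat_lit 0, nat_lit 0, nat_lit 0, nat_lit 0, nat_lit 0, nat_lit 0, [], [nat_lit 55, nat_lit 40, nat_lit 40, nat_lit 80, nat_lit 3, nat_lit 249, nat_lit 40, nat_lit 8]⟩, C1.Rw.none,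
 ⟨nat_lit 0, nat_lit 2237, ⟨.ofNat (nat_lit 646249), .ofNat (nat_lit 705063), .ofNat (nat_lit 689944), .ofNat (nat_lit 748802), .ofNat (nat_lit 648136), .ofNat (nat_lit 699935), .ofNat (nat_lit 696283), .ofNat (nat_lit 748125)⟩, ⟨.ofNat (nat_lit 192306), .ofNat (nat_lit 306334), .ofNat (nat_lit 200000), .ofNat (nat_lit 351885), .ofNat (nat_lit 199999), .ofNat (nat_lit 299996), .ofNat (nat_lit 200000), .ofNat (nat_lit 349998)⟩⟩, []⟩
noncomputable def p122_l52 : Lf2 := ⟨nat_lit 0, nat_lit 20, [nat_lit 5, nat_lit 5, nat_lit 5, nat_lit 20], false, nat_lit 80, nat_lit 160, nat_lit 0, nat_lit 336, ⟨nat_lit 123, nat_lit 877, nat_lit 0, nat_lit 7, nat_lit 298, nat_lit 877, nat_lit 105, nat_lit 0, nat_lit 0, nat_lit 0, nat_lit 0, nat_lit 0, nat_lit 39963728, nat_lit 22670672, nat_lit 4365600, nat_lit 4514636, true, true⟩,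
 nat_lit 0, nat_lit 0, nat_lit 1508, nat_lit 0, nat_lit 2759, nat_lit 959, nat_lit 176, nat_lit 0, nat_lit 0, nat_lit 70, nat_lit 0, nat_lit 0, nat_lit 0, nat_lit 0, nat_lit 0, nat_lit 219250, nat_lit 0, nat_lit 0, [(nat_lit 28, [(nat_lit 0, nat_lit 877)])],
 ⟨p122_k10, nat_lit 0, nat_lit 0, nat_lit 110, nat_lit 0, nat_lit 0, [nat_lit 800837201, nat_lit 1354003200, nat_lit 2267011334], [], [nat_lit 24308287418, nat_lit 24586779421, nat_lit 25853029328, nat_lit 26164524157, nat_lit 24874997999, nat_lit 25124413366, nat_lit 26261937905, nat_lit 26496945184], nat_lit 0, nat_lit 0, nat_lit 0, nat_lit 0, nat_lit 0, nat_lit 0, [], [nat_lit 20, nat_lit 40, nat_lit 40, nat_lit 80, nat_lit 16, nat_lit 249, nat_lit 40, nat_lit 8]⟩, ⟨p122_k9, nat_lit 0, nat_lit 0, nat_lit 818, nat_lit 0, nat_lit 1266899, [nat_lit 403686000, nat_lit 768750000, nat_lit 1460256000], [], [nat_lit 4647405550, nat_lit 4682025014, nat_lit 4716644478,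 nat_lit 4745780244, nat_lit 4092859231, nat_lit 4102687632, nat_lit 4112516033, nat_lit 4118771093], nat_lit 1271250, nat_lit 1271250, nat_lit 1271250, nat_lit 1271250, nat_lit 0, nat_lit 2373000, [nat_lit 780000, nat_lit 1435000, nat_lit 1271250], [nat_lit 23, nat_lit 40, nat_lit 40, nat_lit 80, nat_lit 12, nat_lit 483, nat_lit 250, nat_lit 12]⟩,
 ⟨nat_lit 1936, nat_lit 2237, ⟨.ofNat (nat_lit 705125), .ofNat (nat_lit 762142), .ofNat (nat_lit 727891), .ofNat (nat_lit 784917), .ofNat (nat_lit 703818), .ofNat (nat_lit 759709), .ofNat (nat_lit 726821), .ofNat (nat_lit 782720)⟩, ⟨.ofNat (nat_lit 192306), .ofNat (nat_lit 306337), .ofNat (nat_lit 200000), .ofNat (nat_lit 351886), .ofNat (nat_lit 194266), .ofNat (nat_lit 306044), .ofNat (nat_lit 200000), .ofNat (nat_lit 352066)⟩⟩, [⟨nat_lit 19, nat_lit 100, nat_lit 94, nat_lit 97, nat_lit 14364065⟩]⟩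
noncomputable def p122_l53 : Lf2 := ⟨nat_lit 0, nat_lit 20, [nat_lit 5, nat_lit 5, nat_lit 5, nat_lit 20], true, nat_lit 80, nat_lit 160, nat_lit 0, nat_lit 336, ⟨nat_lit 0, nat_lit 1000, nat_lit 0, nat_lit 7, nat_lit 297, nat_lit 1000, nat_lit 105, nat_lit 0, nat_lit 0, nat_lit 0, nat_lit 0, nat_lit 0, nat_lit 40019069, nat_lit 22601149, nat_lit 4379782, nat_lit 4514384, true, true⟩,
 nat_lit 0, nat_lit 0, nat_lit 0, nat_lit 0, nat_lit 2600, nat_lit 0, nat_lit 61, nat_lit 0, nat_lit 0, nat_lit 0, nat_lit 0, nat_lit 0, nat_lit 0, nat_lit 0, nat_lit 0, nat_lit 250000, nat_lit 0, nat_lit 0, [(nat_lit 28, [(nat_lit 0, nat_lit 1000)])],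
 ⟨p122_k18, nat_lit 0, nat_lit 0, nat_lit 97, nat_lit 0, nat_lit 0, [nat_lit 781600001, nat_lit 1046000001, nat_lit 1376400000], [], [nat_lit 24412218201, nat_lit 24694041101, nat_lit 25958514601, nat_lit 26218292301, nat_lit 25082417901, nat_lit 25339980901, nat_lit 26506356601, nat_lit 26744540301], nat_lit 0, nat_lit 0, nat_lit 0, nat_lit 0, nat_lit 0, nat_lit 0, [], [nat_lit 35, nat_lit 40, nat_lit 40, nat_lit 80, nat_lit 22, nat_lit 249, nat_lit 40, nat_lit 9]⟩, C1.Rw.none,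
 ⟨nat_lit 1581, nat_lit 1937, ⟨.ofNat (nat_lit 703818), .ofNat (nat_lit 759709), .ofNat (nat_lit 726815), .ofNat (nat_lit 782720), .ofNat (nat_lit 702528), .ofNat (nat_lit 757166), .ofNat (nat_lit 725829), .ofNat (nat_lit 780481)⟩, ⟨.ofNat (nat_lit 194266), .ofNat (nat_lit 306044), .ofNat (nat_lit 200000), .ofNat (nat_lit 352066), .ofNat (nat_lit 196201), .ofNat (nat_lit 305473), .ofNat (nat_lit 200000), .ofNat (nat_lit 352103)⟩⟩, []⟩
noncomputable def p122_l54 : Lf2 := ⟨nat_lit 0, nat_lit 20, [nat_lit 5, nat_lit 5, nat_lit 5, nat_lit 20], true, nat_lit 80, nat_lit 160, nat_lit 0, nat_lit 336, ⟨nat_lit 0, nat_lit 1000, nat_lit 0, nat_lit 7, nat_lit 296, nat_lit 1000, nat_lit 105, nat_lit 0, nat_lit 0, nat_lit 0, nat_lit 0, nat_lit 0, nat_lit 40132370, nat_lit 22487530, nat_lit 4380100, nat_lit 4509361, true, true⟩,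
 nat_lit 0, nat_lit 0, nat_lit 0, nat_lit 0, nat_lit 2664, nat_lit 0, nat_lit 38, nat_lit 0, nat_lit 0, nat_lit 0, nat_lit 0, nat_lit 0, nat_lit 0, nat_lit 0, nat_lit 0, nat_lit 250000, nat_lit 0, nat_lit 0, [(nat_lit 28, [(nat_lit 0, nat_lit 1000)])],
 ⟨p122_k16, nat_lit 0, nat_lit 0, nat_lit 102, nat_lit 0, nat_lit 0, [nat_lit 781600001, nat_lit 1046000001, nat_lit 1376400000], [], [nat_lit 25014903516, nat_lit 25530927092, nat_lit 26428110988, nat_lit 26939227748, nat_lit 25669497796, nat_lit 26141660436, nat_lit 26970491876, nat_lit 27436784228], nat_lit 0, nat_lit 0, nat_lit 0, nat_lit 0, nat_lit 0, nat_lit 0, [], [nat_lit 35, nat_lit 40, nat_lit 40, nat_lit 80, nat_lit 22, nat_lit 249, nat_lit 40, nat_lit 9]⟩, C1.Rw.none,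
 ⟨nat_lit 0, nat_lit 1582, ⟨.ofNat (nat_lit 702515), .ofNat (nat_lit 757165), .ofNat (nat_lit 725184), .ofNat (nat_lit 780481), .ofNat (nat_lit 699984), .ofNat (nat_lit 749998), .ofNat (nat_lit 724337), .ofNat (nat_lit 774999)⟩, ⟨.ofNat (nat_lit 196201), .ofNat (nat_lit 305469), .ofNat (nat_lit 200000), .ofNat (nat_lit 352101), .ofNat (nat_lit 199999), .ofNat (nat_lit 299995), .ofNat (nat_lit 200000), .ofNat (nat_lit 349997)⟩⟩, [⟨nat_lit 3, nat_lit 100, nat_lit 26, nat_lit 85, nat_lit 33138318⟩]⟩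
noncomputable def p122_l55 : Lf2 := ⟨nat_lit 0, nat_lit 20, [nat_lit 5, nat_lit 5, nat_lit 5, nat_lit 20], false, nat_lit 80, nat_lit 160, nat_lit 0, nat_lit 320, ⟨nat_lit 283, nat_lit 717, nat_lit 0, nat_lit 7, nat_lit 307, nat_lit 717, nat_lit 105, nat_lit 0, nat_lit 0, nat_lit 0, nat_lit 0, nat_lit 0, nat_lit 39158690, nat_lit 23533145, nat_lit 4308165, nat_lit 4539268, true, false⟩,
 nat_lit 0, nat_lit 0, nat_lit 2761, nat_lit 0, nat_lit 2813, nat_lit 1911, nat_lit 234, nat_lit 0, nat_lit 0, nat_lit 204, nat_lit 0, nat_lit 0, nat_lit 0, nat_lit 0, nat_lit 0, nat_lit 179250, nat_lit 0, nat_lit 0, [(nat_lit 28, [(nat_lit 0, nat_lit 717)])],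
 ⟨p122_k10, nat_lit 0, nat_lit 0, nat_lit 110, nat_lit 0, nat_lit 0, [nat_lit 825861201, nat_lit 1705747201, nat_lit 2979438000], [], [nat_lit 24368639838, nat_lit 24649368359, nat_lit 25936329296, nat_lit 26250428599, nat_lit 24915544699, nat_lit 25166850768, nat_lit 26308961041, nat_lit 26558195035], nat_lit 0, nat_lit 0, nat_lit 0, nat_lit 0, nat_lit 0, nat_lit 0, [], [nat_lit 20, nat_lit 40, nat_lit 40, nat_lit 80, nat_lit 16, nat_lit 249, nat_lit 40, nat_lit 8]⟩, ⟨p122_k11, nat_lit 0, nat_lit 0, nat_lit 741, nat_lit 0, nat_lit 1251042, [nat_lit 928806000, nat_lit 1768750000, nat_lit 2785286000], [], [nat_lit 9175465448, nat_lit 9296582784, nat_lit 9409533570, nat_lit 9525804064, nat_lit 8508146856, nat_lit 8577093336, nat_lit 8648394830, nat_lit 8730855016], nat_lit 1271250, nat_lit 1271250, nat_lit 1271250, nat_lit 1271250, nat_lit 0, nat_lit 2260000, [nat_lit 780000, nat_lit 1435000, nat_lit 1271250], [nat_lit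 8, nat_lit 40, nat_lit 40, nat_lit 80, nat_lit 1, nat_lit 317, nat_lit 100, nat_lit 8]⟩,
 ⟨nat_lit 1936, nat_lit 2237, ⟨.ofNat (nat_lit 727891), .ofNat (nat_lit 784917), .ofNat (nat_lit 750656), .ofNat (nat_lit 807688), .ofNat (nat_lit 726821), .ofNat (nat_lit 782720), .ofNat (nat_lit 749823), .ofNat (nat_lit 805728)⟩, ⟨.ofNat (nat_lit 192306), .ofNat (nat_lit 306337), .ofNat (nat_lit 200000), .ofNat (nat_lit 351886), .ofNat (nat_lit 194266), .ofNat (nat_lit 306044), .ofNat (nat_lit 200000), .ofNat (nat_lit 352066)⟩⟩, [⟨nat_lit 4, nat_lit 100, nat_lit 41, nat_lit 87, nat_lit 135904396⟩, ⟨nat_lit 7, nat_lit 100, nat_lit 93, nat_lit 97, nat_lit 44285475⟩]⟩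
noncomputable def p122_l56 : Lf2 := ⟨nat_lit 0, nat_lit 20, [nat_lit 5, nat_lit 5, nat_lit 5, nat_lit 20], false, nat_lit 80, nat_lit 160, nat_lit 0, nat_lit 320, ⟨nat_lit 189, nat_lit 811, nat_lit 0, nat_lit 7, nat_lit 306, nat_lit 811, nat_lit 105, nat_lit 0, nat_lit 0, nat_lit 0, nat_lit 0, nat_lit 0, nat_lit 39204168, nat_lit 23474201, nat_lit 4321631, nat_lit 4539610, true, false⟩,
 nat_lit 0, nat_lit 0, nat_lit 1875, nat_lit 0, nat_lit 2759, nat_lit 1297, nat_lit 108, nat_lit 0, nat_lit 0, nat_lit 125, nat_lit 0, nat_lit 0, nat_lit 0, nat_lit 0, nat_lit 0, nat_lit 202750, nat_lit 0, nat_lit 0, [(nat_lit 28, [(nat_lit 0, nat_lit 811)])],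
 ⟨p122_k18, nat_lit 0, nat_lit 0, nat_lit 97, nat_lit 0, nat_lit 0, [nat_lit 811159601, nat_lit 1468604001, nat_lit 2002292400], [], [nat_lit 24608538217, nat_lit 24903539018, nat_lit 26202879445, nat_lit 26476018986, nat_lit 25203531915, nat_lit 25467196142, nat_lit 26648523328, nat_lit 26892085209], nat_lit 0, nat_lit 0, nat_lit 0, nat_lit 0, nat_lit 0, nat_lit 0, [], [nat_lit 35, nat_lit 40, nat_lit 40, nat_lit 80, nat_lit 22, nat_lit 249, nat_lit 40, nat_lit 9]⟩, ⟨p122_k11, nat_lit 0, nat_lit 0, nat_lit 766, nat_lit 0, nat_lit 1318078, [nat_lit 620298000, nat_lit 1181250000, nat_lit 1860138000], [], [nat_lit 6215361464, nat_lit 6301137414, nat_lit 6376601396, nat_lit 6452065378, nat_lit 5686409539, nat_lit 5731103319, nat_lit 5778422097, nat_lit 5847606872], nat_lit 1271250, nat_lit 1271250, nat_lit 1271250, nat_lit 1271250, nat_lit 0, nat_lit 2260000, [nat_lit 780000, nat_lit 1435000, nat_lit 1271250], [nat_lit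 8, nat_lit 40, nat_lit 40, nat_lit 80, nat_lit 1, nat_lit 317, nat_lit 100, nat_lit 8]⟩,
 ⟨nat_lit 1581, nat_lit 1937, ⟨.ofNat (nat_lit 726815), .ofNat (nat_lit 782720), .ofNat (nat_lit 749811), .ofNat (nat_lit 805728), .ofNat (nat_lit 725829), .ofNat (nat_lit 780481), .ofNat (nat_lit 749129), .ofNat (nat_lit 803793)⟩, ⟨.ofNat (nat_lit 194266), .ofNat (nat_lit 306044), .ofNat (nat_lit 200000), .ofNat (nat_lit 352066), .ofNat (nat_lit 196201), .ofNat (nat_lit 305473), .ofNat (nat_lit 200000), .ofNat (nat_lit 352103)⟩⟩, [⟨nat_lit 4, nat_lit 100, nat_lit 35, nat_lit 88, nat_lit 66178472⟩, ⟨nat_lit 19, nat_lit 93, nat_lit 100, nat_lit 97, nat_lit 28048499⟩]⟩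
noncomputable def p122_l57 : Lf2 := ⟨nat_lit 0, nat_lit 20, [nat_lit 5, nat_lit 5, nat_lit 5, nat_lit 20], false, nat_lit 80, nat_lit 160, nat_lit 0, nat_lit 320, ⟨nat_lit 164, nat_lit 836, nat_lit 0, nat_lit 7, nat_lit 305, nat_lit 836, nat_lit 105, nat_lit 0, nat_lit 0, nat_lit 0, nat_lit 0, nat_lit 0, nat_lit 39292352, nat_lit 23387123, nat_lit 4320525, nat_lit 4535897, true, false⟩,
 nat_lit 0, nat_lit 0, nat_lit 1622, nat_lit 0, nat_lit 2785, nat_lit 1122, nat_lit 76, nat_lit 0, nat_lit 0, nat_lit 108, nat_lit 0, nat_lit 0, nat_lit 0, nat_lit 0, nat_lit 0, nat_lit 209000, nat_lit 0, nat_lit 0, [(nat_lit 28, [(nat_lit 0, nat_lit 836)])],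
 ⟨p122_k16, nat_lit 0, nat_lit 0, nat_lit 102, nat_lit 0, nat_lit 0, [nat_lit 807249600, nat_lit 1412704001, nat_lit 1919502400], [], [nat_lit 25160649411, nat_lit 25685933601, nat_lit 26596776105, nat_lit 27144132060, nat_lit 25775648861, nat_lit 26255828961, nat_lit 27089601436, nat_lit 27536974540], nat_lit 0, nat_lit 0, nat_lit 0, nat_lit 0, nat_lit 0, nat_lit 0, [], [nat_lit 35, nat_lit 40, nat_lit 40, nat_lit 80, nat_lit 22, nat_lit 249, nat_lit 40, nat_lit 9]⟩, ⟨p122_k11, nat_lit 0, nat_lit 0, nat_lit 835, nat_lit 0, nat_lit 1455935, [nat_lit 538248000, nat_lit 1025000000, nat_lit 1614088000], [], [nat_lit 5465464912, nat_lit 5511271284, nat_lit 5556043000, nat_lit 5619623328, nat_lit 5009057592, nat_lit 5031795892, nat_lit 5050250564, nat_lit 5076911300], nat_lit 1271250, nat_lit 1271250, nat_lit 1271250, nat_lit 1271250, nat_lit 0, nat_lit 2260000, [nat_lit 780000, nat_lit 1435000, nat_lit 1271250], [nat_lit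 8, nat_lit 40, nat_lit 40, nat_lit 80, nat_lit 1, nat_lit 329, nat_lit 100, nat_lit 9]⟩,
 ⟨nat_lit 0, nat_lit 1582, ⟨.ofNat (nat_lit 725184), .ofNat (nat_lit 780481), .ofNat (nat_lit 747842), .ofNat (nat_lit 803773), .ofNat (nat_lit 724337), .ofNat (nat_lit 774999), .ofNat (nat_lit 748680), .ofNat (nat_lit 799976)⟩, ⟨.ofNat (nat_lit 196201), .ofNat (nat_lit 305469), .ofNat (nat_lit 200000), .ofNat (nat_lit 352101), .ofNat (nat_lit 199999), .ofNat (nat_lit 299995), .ofNat (nat_lit 200000), .ofNat (nat_lit 349997)⟩⟩, [⟨nat_lit 16, nat_lit 23, nat_lit 100, nat_lit 91, nat_lit 75224818⟩, ⟨nat_lit 19, nat_lit 93, nat_lit 100, nat_lit 97, nat_lit 24272685⟩]⟩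
noncomputable def b_V_900_700_20_12 : St := ⟨true, nat_lit 0, nat_lit 1, nat_lit 1, nat_lit 120, nat_lit 360, nat_lit 400, nat_lit 280, nat_lit 320, nat_lit 240, nat_lit 320, nat_lit 80, nat_lit 120, nat_lit 80, nat_lit 160, nat_lit 0, nat_lit 336, nat_lit 40, nat_lit 80, nat_lit 0, nat_lit 0, nat_lit 0, nat_lit 0⟩
theorem d_V_900_700_20_12 (h : EB TB.env) : Dead b_V_900_700_20_12 := chkB_sound0 h (T :=
(.spl (nat_lit 0) (nat_lit 380)
(.spl (nat_lit 1) (nat_lit 300)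
(.spl (nat_lit 2) (nat_lit 280)
(.leaf p122_l46)
(.spl (nat_lit 1) (nat_lit 290)
(.leaf p122_l47)
(.trX (nat_lit 19) (nat_lit 97) (nat_lit 84) (nat_lit 100) (nat_lit 328) (.leaf p122_l48))))
(.trX (nat_lit 19) (nat_lit 94) (nat_lit 88) (nat_lit 100) (nat_lit 320) (.spl (nat_lit 1) (nat_lit 310)
(.leaf p122_l49)
(.trX (nat_lit 19) (nat_lit 91) (nat_lit 91) (nat_lit 100) (nat_lit 312) (.leaf p122_l50)))))
(.spl (nat_lit 2) (nat_lit 280)
(.leaf p122_l51)
(.spl (nat_lit 1) (nat_lit 300)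
(.spl (nat_lit 0) (nat_lit 390)
(.spl (nat_lit 0) (nat_lit 385)
(.leaf p122_l52)
(.leaf p122_l53))
(.leaf p122_l54))
(.trX (nat_lit 19) (nat_lit 94) (nat_lit 88) (nat_lit 100) (nat_lit 320) (.spl (nat_lit 0) (nat_lit 390)
(.spl (nat_lit 0) (nat_lit 385)
(.leaf p122_l55)
(.leaf p122_l56))
(.leaf p122_l57))))))) (by decide +kernel)
noncomputable def p122_l58 : Lf2 := ⟨nat_lit 0, nat_lit 20, [nat_lit 5, nat_lit 5, nat_lit 5, nat_lit 20], false, nat_lit 80, nat_lit 160, nat_lit 0, nat_lit 160, ⟨nat_lit 204, nat_lit 796, nat_lit 0, nat_lit 8, nat_lit 327, nat_lit 796, nat_lit 105, nat_lit 0, nat_lit 0, nat_lit 0, nat_lit 0, nat_lit 0, nat_lit 37472424, nat_lit 25381193, nat_lit 4146383, nat_lit 4571394, true, true⟩,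
 nat_lit 0, nat_lit 0, nat_lit 2387, nat_lit 0, nat_lit 3298, nat_lit 1518, nat_lit 47, nat_lit 0, nat_lit 0, nat_lit 141, nat_lit 0, nat_lit 0, nat_lit 0, nat_lit 0, nat_lit 0, nat_lit 334600, nat_lit 0, nat_lit 0, [(nat_lit 25, [(nat_lit 1, nat_lit 769), (nat_lit 2, nat_lit 27)])],
 ⟨p122_k8, nat_lit 0, nat_lit 0, nat_lit 125, nat_lit 0, nat_lit 0, [nat_lit 880650001, nat_lit 1429883334, nat_lit 1873521200], [], [nat_lit 26038470633, nat_lit 27111522311, nat_lit 28886483435, nat_lit 29976648642, nat_lit 26418773706, nat_lit 27317593753, nat_lit 28943236579, nat_lit 29820114247], nat_lit 0, nat_lit 0, nat_lit 0, nat_lit 0, nat_lit 0, nat_lit 0, [], [nat_lit 20, nat_lit 40, nat_lit 40, nat_lit 80, nat_lit 16, nat_lit 249, nat_lit 40, nat_lit 8]⟩, ⟨p122_k9, nat_lit 0, nat_lit 0, nat_lit 727, nat_lit 0, nat_lit 1119789, [nat_lit 669528000, nat_lit 1275000000, nat_lit 2421888000], [], [nat_lit 7659919803, nat_lit 7695261705,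 nat_lit 7981412691, nat_lit 8008232955, nat_lit 6724342923, nat_lit 6751979493, nat_lit 7020909396, nat_lit 7052938587], nat_lit 1271250, nat_lit 1271250, nat_lit 1271250, nat_lit 1271250, nat_lit 0, nat_lit 1100001, [nat_lit 780000, nat_lit 1435000, nat_lit 1271250], [nat_lit 23, nat_lit 40, nat_lit 40, nat_lit 80, nat_lit 12, nat_lit 345, nat_lit 125, nat_lit 8]⟩,
 ⟨nat_lit 2236, nat_lit 3163, ⟨.ofNat (nat_lit 771478), .ofNat (nat_lit 862908), .ofNat (nat_lit 782556), .ofNat (nat_lit 873986), .ofNat (nat_lit 762142), .ofNat (nat_lit 847666), .ofNat (nat_lit 773529), .ofNat (nat_lit 859053)⟩, ⟨.ofNat (nat_lit 184209), .ofNat (nat_lit 306116), .ofNat (nat_lit 200000), .ofNat (nat_lit 350426), .ofNat (nat_lit 192306), .ofNat (nat_lit 306337), .ofNat (nat_lit 200000), .ofNat (nat_lit 351886)⟩⟩, [⟨nat_lit 13, nat_lit 48, nat_lit 71, nat_lit 100, nat_lit 309617442⟩]⟩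
noncomputable def p122_l59 : Lf2 := ⟨nat_lit 0, nat_lit 20, [nat_lit 5, nat_lit 5, nat_lit 5, nat_lit 20], false, nat_lit 80, nat_lit 160, nat_lit 160, nat_lit 336, ⟨nat_lit 227, nat_lit 773, nat_lit 0, nat_lit 8, nat_lit 322, nat_lit 773, nat_lit 104, nat_lit 0, nat_lit 0, nat_lit 0, nat_lit 0, nat_lit 0, nat_lit 37886932, nat_lit 24948844, nat_lit 4164224, nat_lit 4561427, true, true⟩,
 nat_lit 0, nat_lit 0, nat_lit 2628, nat_lit 0, nat_lit 3293, nat_lit 1672, nat_lit 114, nat_lit 0, nat_lit 0, nat_lit 146, nat_lit 0, nat_lit 0, nat_lit 0, nat_lit 0, nat_lit 0, nat_lit 309200, nat_lit 0, nat_lit 0, [(nat_lit 25, [(nat_lit 1, nat_lit 773)])],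
 ⟨p122_k8, nat_lit 0, nat_lit 0, nat_lit 115, nat_lit 0, nat_lit 0, [nat_lit 865956401, nat_lit 1519663067, nat_lit 2126199600], [], [nat_lit 25850195201, nat_lit 26351933212, nat_lit 27601694476, nat_lit 28209395169, nat_lit 26219589354, nat_lit 26671807891, nat_lit 27779778973, nat_lit 28200825151], nat_lit 0, nat_lit 0, nat_lit 0, nat_lit 0, nat_lit 0, nat_lit 0, [], [nat_lit 20, nat_lit 40, nat_lit 40, nat_lit 80, nat_lit 16, nat_lit 249, nat_lit 40, nat_lit 8]⟩, ⟨p122_k9, nat_lit 0, nat_lit 0, nat_lit 548, nat_lit 0, nat_lit 963764, [nat_lit 745014000, nat_lit 1418750000, nat_lit 2694944000], [], [nat_lit 7312495486, nat_lit 7355880794, nat_lit 7556140202, nat_lit 7592927425, nat_lit 7571019604, nat_lit 7594447781, nat_lit 7724339643, nat_lit 7752888424], nat_lit 1271250, nat_lit 1271250, nat_lit 1271250, nat_lit 1271250, nat_lit 1100001, nat_lit 2607000, [nat_lit 780000, nat_lit 1435000, nat_lit 1271250], [nat_lit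 23, nat_lit 40, nat_lit 40, nat_lit 80, nat_lit 12, nat_lit 401, nat_lit 175, nat_lit 9]⟩,
 ⟨nat_lit 2738, nat_lit 3163, ⟨.ofNat (nat_lit 771478), .ofNat (nat_lit 832432), .ofNat (nat_lit 782555), .ofNat (nat_lit 843509), .ofNat (nat_lit 766852), .ofNat (nat_lit 825913), .ofNat (nat_lit 778060), .ofNat (nat_lit 837122)⟩, ⟨.ofNat (nat_lit 184209), .ofNat (nat_lit 306116), .ofNat (nat_lit 200000), .ofNat (nat_lit 350426), .ofNat (nat_lit 188310), .ofNat (nat_lit 306433), .ofNat (nat_lit 200000), .ofNat (nat_lit 351268)⟩⟩, [⟨nat_lit 10, nat_lit 100, nat_lit 63, nat_lit 94, nat_lit 94958851⟩]⟩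
noncomputable def p122_l60 : Lf2 := ⟨nat_lit 0, nat_lit 20, [nat_lit 5, nat_lit 5, nat_lit 5, nat_lit 20], false, nat_lit 80, nat_lit 160, nat_lit 160, nat_lit 336, ⟨nat_lit 221, nat_lit 779, nat_lit 0, nat_lit 8, nat_lit 319, nat_lit 779, nat_lit 105, nat_lit 0, nat_lit 0, nat_lit 0, nat_lit 0, nat_lit 0, nat_lit 38110788, nat_lit 24684834, nat_lit 4204378, nat_lit 4560738, true, true⟩,
 nat_lit 0, nat_lit 0, nat_lit 2562, nat_lit 0, nat_lit 3060, nat_lit 1630, nat_lit 222, nat_lit 0, nat_lit 0, nat_lit 143, nat_lit 0, nat_lit 0, nat_lit 0, nat_lit 0, nat_lit 0, nat_lit 194750, nat_lit 0, nat_lit 0, [(nat_lit 25, [(nat_lit 0, nat_lit 779)])],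
 ⟨p122_k13, nat_lit 0, nat_lit 0, nat_lit 117, nat_lit 0, nat_lit 0, [nat_lit 802454001, nat_lit 1791617201, nat_lit 3031172000], [], [nat_lit 26076634601, nat_lit 26320195911, nat_lit 27808976980, nat_lit 28103297510, nat_lit 26508565982, nat_lit 26726964062, nat_lit 27975248042, nat_lit 28180861450], nat_lit 0, nat_lit 0, nat_lit 0, nat_lit 0, nat_lit 0, nat_lit 0, [], [nat_lit 20, nat_lit 40, nat_lit 40, nat_lit 80, nat_lit 16, nat_lit 249, nat_lit 40, nat_lit 8]⟩, ⟨p122_k9, nat_lit 0, nat_lit 0, nat_lit 563, nat_lit 0, nat_lit 1007443, [nat_lit 725322000, nat_lit 1381250000, nat_lit 2623712000], [], [nat_lit 7102454161, nat_lit 7123573080, nat_lit 7339737029, nat_lit 7357640570, nat_lit 7353565730, nat_lit 7364959473, nat_lit 7502816343, nat_lit 7515936831], nat_lit 1271250, nat_lit 1271250, nat_lit 1271250, nat_lit 1271250, nat_lit 1100001, nat_lit 2607000, [nat_lit 780000, nat_lit 1435000, nat_lit 1271250], [nat_lit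 23, nat_lit 40, nat_lit 40, nat_lit 80, nat_lit 12, nat_lit 401, nat_lit 175, nat_lit 9]⟩,
 ⟨nat_lit 2500, nat_lit 2739, ⟨.ofNat (nat_lit 766852), .ofNat (nat_lit 825913), .ofNat (nat_lit 772456), .ofNat (nat_lit 831518), .ofNat (nat_lit 764515), .ofNat (nat_lit 822579), .ofNat (nat_lit 770160), .ofNat (nat_lit 828224)⟩, ⟨.ofNat (nat_lit 188310), .ofNat (nat_lit 306433), .ofNat (nat_lit 200000), .ofNat (nat_lit 351268), .ofNat (nat_lit 190321), .ofNat (nat_lit 306450), .ofNat (nat_lit 200000), .ofNat (nat_lit 351611)⟩⟩, [⟨nat_lit 10, nat_lit 100, nat_lit 63, nat_lit 94, nat_lit 92688421⟩]⟩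
noncomputable def p122_l61 : Lf2 := ⟨nat_lit 0, nat_lit 20, [nat_lit 5, nat_lit 5, nat_lit 5, nat_lit 20], false, nat_lit 80, nat_lit 160, nat_lit 160, nat_lit 336, ⟨nat_lit 128, nat_lit 872, nat_lit 0, nat_lit 8, nat_lit 318, nat_lit 872, nat_lit 105, nat_lit 0, nat_lit 0, nat_lit 0, nat_lit 0, nat_lit 0, nat_lit 38199685, nat_lit 24575397, nat_lit 4224918, nat_lit 4561124, true, true⟩,
 nat_lit 0, nat_lit 0, nat_lit 1483, nat_lit 0, nat_lit 2780, nat_lit 943, nat_lit 200, nat_lit 0, nat_lit 0, nat_lit 83, nat_lit 0, nat_lit 0, nat_lit 0, nat_lit 0, nat_lit 0, nat_lit 218000, nat_lit 0, nat_lit 0, [(nat_lit 25, [(nat_lit 0, nat_lit 872)])],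
 ⟨p122_k14, nat_lit 0, nat_lit 0, nat_lit 119, nat_lit 0, nat_lit 0, [nat_lit 786272001, nat_lit 1613689600, nat_lit 2646896000], [], [nat_lit 25972158331, nat_lit 26202048721, nat_lit 27610656130, nat_lit 27893524520, nat_lit 26483438281, nat_lit 26694481321, nat_lit 27894091231, nat_lit 28088795441], nat_lit 0, nat_lit 0, nat_lit 0, nat_lit 0, nat_lit 0, nat_lit 0, [], [nat_lit 20, nat_lit 40, nat_lit 40, nat_lit 80, nat_lit 16, nat_lit 249, nat_lit 40, nat_lit 8]⟩, ⟨p122_k9, nat_lit 0, nat_lit 0, nat_lit 608, nat_lit 0, nat_lit 1087231, [nat_lit 420096000, nat_lit 800000000, nat_lit 1519616000], [], [nat_lit 4116111349, nat_lit 4128343298, nat_lit 4253503973, nat_lit 4263875349, nat_lit 4261834716, nat_lit 4268439048, nat_lit 4348680413, nat_lit 4357370435], nat_lit 1271250, nat_lit 1271250, nat_lit 1271250, nat_lit 1271250, nat_lit 1100001, nat_lit 2607000, [nat_lit 780000, nat_lit 1435000, nat_lit 1271250], [nat_lit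 23, nat_lit 40, nat_lit 40, nat_lit 80, nat_lit 12, nat_lit 401, nat_lit 175, nat_lit 9]⟩,
 ⟨nat_lit 2236, nat_lit 2500, ⟨.ofNat (nat_lit 764515), .ofNat (nat_lit 822579), .ofNat (nat_lit 770160), .ofNat (nat_lit 828224), .ofNat (nat_lit 762142), .ofNat (nat_lit 819158), .ofNat (nat_lit 767836), .ofNat (nat_lit 824851)⟩, ⟨.ofNat (nat_lit 190321), .ofNat (nat_lit 306450), .ofNat (nat_lit 200000), .ofNat (nat_lit 351611), .ofNat (nat_lit 192306), .ofNat (nat_lit 306337), .ofNat (nat_lit 200000), .ofNat (nat_lit 351886)⟩⟩, [⟨nat_lit 13, nat_lit 48, nat_lit 71, nat_lit 100, nat_lit 179011191⟩, ⟨nat_lit 22, nat_lit 77, nat_lit 100, nat_lit 99, nat_lit 41679361⟩]⟩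
noncomputable def p122_l62 : Lf2 := ⟨nat_lit 0, nat_lit 20, [nat_lit 5, nat_lit 5, nat_lit 5, nat_lit 20], false, nat_lit 80, nat_lit 160, nat_lit 160, nat_lit 332, ⟨nat_lit 241, nat_lit 759, nat_lit 0, nat_lit 8, nat_lit 321, nat_lit 759, nat_lit 105, nat_lit 0, nat_lit 0, nat_lit 0, nat_lit 0, nat_lit 0, nat_lit 37918115, nat_lit 24892047, nat_lit 4189838, nat_lit 4564709, true, true⟩,
 nat_lit 0, nat_lit 0, nat_lit 2694, nat_lit 0, nat_lit 3089, nat_lit 1751, nat_lit 226, nat_lit 0, nat_lit 0, nat_lit 173, nat_lit 0, nat_lit 0, nat_lit 0, nat_lit 0, nat_lit 0, nat_lit 189750, nat_lit 0, nat_lit 0, [(nat_lit 25, [(nat_lit 0, nat_lit 759)])],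
 ⟨p122_k13, nat_lit 0, nat_lit 0, nat_lit 117, nat_lit 0, nat_lit 0, [nat_lit 805934001, nat_lit 1829881200, nat_lit 3113812000], [], [nat_lit 26123451735, nat_lit 26367922587, nat_lit 27858814437, nat_lit 28154321082, nat_lit 26536616433, nat_lit 26755776285, nat_lit 28014474801, nat_lit 28220102108], nat_lit 0, nat_lit 0, nat_lit 0, nat_lit 0, nat_lit 0, nat_lit 0, [], [nat_lit 20, nat_lit 40, nat_lit 40, nat_lit 80, nat_lit 16, nat_lit 249, nat_lit 40, nat_lit 8]⟩, ⟨p122_k19, nat_lit 0, nat_lit 0, nat_lit 563, nat_lit 0, nat_lit 1008758, [nat_lit 790962000, nat_lit 1506250000, nat_lit 2861152000], [], [nat_lit 7399994433, nat_lit 7423028927, nat_lit 7654343421, nat_lit 7673914275, nat_lit 7725637737, nat_lit 7745569337, nat_lit 7951981983, nat_lit 7972329689], nat_lit 1271250, nat_lit 1271250, nat_lit 1271250, nat_lit 1271250, nat_lit 1100001, nat_lit 2572750, [nat_lit 780000, nat_lit 1435000, nat_lit 1271250],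 [nat_lit 23, nat_lit 40, nat_lit 40, nat_lit 80, nat_lit 12, nat_lit 401, nat_lit 175, nat_lit 9]⟩,
 ⟨nat_lit 2500, nat_lit 2739, ⟨.ofNat (nat_lit 772456), .ofNat (nat_lit 831518), .ofNat (nat_lit 778061), .ofNat (nat_lit 837122), .ofNat (nat_lit 770160), .ofNat (nat_lit 828224), .ofNat (nat_lit 775805), .ofNat (nat_lit 833869)⟩, ⟨.ofNat (nat_lit 188310), .ofNat (nat_lit 306433), .ofNat (nat_lit 200000), .ofNat (nat_lit 351268), .ofNat (nat_lit 190321), .ofNat (nat_lit 306450), .ofNat (nat_lit 200000), .ofNat (nat_lit 351611)⟩⟩, [⟨nat_lit 10, nat_lit 100, nat_lit 62, nat_lit 94, nat_lit 108964960⟩]⟩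
noncomputable def p122_l63 : Lf2 := ⟨nat_lit 0, nat_lit 20, [nat_lit 5, nat_lit 5, nat_lit 5, nat_lit 20], false, nat_lit 80, nat_lit 160, nat_lit 160, nat_lit 332, ⟨nat_lit 240, nat_lit 760, nat_lit 0, nat_lit 8, nat_lit 320, nat_lit 760, nat_lit 105, nat_lit 0, nat_lit 0, nat_lit 0, nat_lit 0, nat_lit 0, nat_lit 38005228, nat_lit 24784529, nat_lit 4210243, nat_lit 4565246, true, true⟩,
 nat_lit 0, nat_lit 0, nat_lit 2628, nat_lit 0, nat_lit 2869, nat_lit 1708, nat_lit 233, nat_lit 0, nat_lit 0, nat_lit 158, nat_lit 0, nat_lit 0, nat_lit 0, nat_lit 0, nat_lit 0, nat_lit 190000, nat_lit 0, nat_lit 0, [(nat_lit 25, [(nat_lit 0, nat_lit 760)])],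
 ⟨p122_k14, nat_lit 0, nat_lit 0, nat_lit 119, nat_lit 0, nat_lit 0, [nat_lit 805760001, nat_lit 1827968000, nat_lit 3109680000], [], [nat_lit 26099703993, nat_lit 26332306702, nat_lit 27767245712, nat_lit 28053754246, nat_lit 26580303640, nat_lit 26793684532, nat_lit 28003221013, nat_lit 28199911658], nat_lit 0, nat_lit 0, nat_lit 0, nat_lit 0, nat_lit 0, nat_lit 0, [], [nat_lit 20, nat_lit 40, nat_lit 40, nat_lit 80, nat_lit 16, nat_lit 249, nat_lit 40, nat_lit 8]⟩, ⟨p122_k19, nat_lit 0, nat_lit 0, nat_lit 605, nat_lit 0, nat_lit 1085153, [nat_lit 787680000, nat_lit 1500000000, nat_lit 2849280000], [], [nat_lit 7670458070, nat_lit 7693402864, nat_lit 7922537108, nat_lit 7942090220, nat_lit 7930493046, nat_lit 7943433827, nat_lit 8092848412, nat_lit 8104379510], nat_lit 1271250, nat_lit 1271250, nat_lit 1271250, nat_lit 1271250, nat_lit 1100001, nat_lit 2572750, [nat_lit 780000, nat_lit 1435000, nat_lit 1271250],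 [nat_lit 23, nat_lit 40, nat_lit 40, nat_lit 80, nat_lit 12, nat_lit 401, nat_lit 175, nat_lit 9]⟩,
 ⟨nat_lit 2236, nat_lit 2500, ⟨.ofNat (nat_lit 770160), .ofNat (nat_lit 828224), .ofNat (nat_lit 775805), .ofNat (nat_lit 833869), .ofNat (nat_lit 767836), .ofNat (nat_lit 824851), .ofNat (nat_lit 773529), .ofNat (nat_lit 830545)⟩, ⟨.ofNat (nat_lit 190321), .ofNat (nat_lit 306450), .ofNat (nat_lit 200000), .ofNat (nat_lit 351611), .ofNat (nat_lit 192306), .ofNat (nat_lit 306337), .ofNat (nat_lit 200000), .ofNat (nat_lit 351886)⟩⟩, [⟨nat_lit 7, nat_lit 92, nat_lit 100, nat_lit 96, nat_lit 854576⟩, ⟨nat_lit 10, nat_lit 100, nat_lit 62, nat_lit 94, nat_lit 100248585⟩]⟩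
noncomputable def p122_l64 : Lf2 := ⟨nat_lit 0, nat_lit 20, [nat_lit 5, nat_lit 5, nat_lit 5, nat_lit 20], false, nat_lit 80, nat_lit 160, nat_lit 160, nat_lit 288, ⟨nat_lit 137, nat_lit 863, nat_lit 0, nat_lit 9, nat_lit 338, nat_lit 863, nat_lit 105, nat_lit 0, nat_lit 0, nat_lit 0, nat_lit 0, nat_lit 0, nat_lit 36482683, nat_lit 26448290, nat_lit 4069027, nat_lit 4585326, true, true⟩,
 nat_lit 0, nat_lit 0, nat_lit 1658, nat_lit 0, nat_lit 4039, nat_lit 1055, nat_lit 0, nat_lit 0, nat_lit 0, nat_lit 85, nat_lit 0, nat_lit 0, nat_lit 0, nat_lit 0, nat_lit 0, nat_lit 228650, nat_lit 0, nat_lit 0, [(nat_lit 25, [(nat_lit 0, nat_lit 777), (nat_lit 1, nat_lit 86)])],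
 ⟨p122_k8, nat_lit 0, nat_lit 0, nat_lit 125, nat_lit 0, nat_lit 0, [nat_lit 794786801, nat_lit 1599375067, nat_lit 2580643200], [], [nat_lit 29107303400, nat_lit 30202369680, nat_lit 30202369680, nat_lit 31421249631, nat_lit 28945007108, nat_lit 29943922172, nat_lit 29943922172, nat_lit 30892355246], nat_lit 0, nat_lit 0, nat_lit 0, nat_lit 0, nat_lit 0, nat_lit 0, [], [nat_lit 20, nat_lit 40, nat_lit 40, nat_lit 80, nat_lit 16, nat_lit 249, nat_lit 40, nat_lit 7]⟩, ⟨p122_k9, nat_lit 0, nat_lit 0, nat_lit 629, nat_lit 0, nat_lit 1119789, [nat_lit 449634000, nat_lit 856250000, nat_lit 1626464000], [], [nat_lit 4545730471, nat_lit 4560785532, nat_lit 4612351553, nat_lit 4625715869, nat_lit 4508675839, nat_lit 4517277088, nat_lit 4602609206, nat_lit 4636930797], nat_lit 1271250, nat_lit 1271250, nat_lit 1271250, nat_lit 1271250, nat_lit 1100001, nat_lit 2196000, [nat_lit 780000, nat_lit 1435000, nat_lit 1271250], [nat_lit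 23, nat_lit 40, nat_lit 40, nat_lit 80, nat_lit 12, nat_lit 373, nat_lit 150, nat_lit 8]⟩,
 ⟨nat_lit 2236, nat_lit 3163, ⟨.ofNat (nat_lit 832432), .ofNat (nat_lit 862908), .ofNat (nat_lit 843509), .ofNat (nat_lit 873986), .ofNat (nat_lit 819158), .ofNat (nat_lit 847666), .ofNat (nat_lit 830545), .ofNat (nat_lit 859053)⟩, ⟨.ofNat (nat_lit 184209), .ofNat (nat_lit 306116), .ofNat (nat_lit 200000), .ofNat (nat_lit 350426), .ofNat (nat_lit 192306), .ofNat (nat_lit 306337), .ofNat (nat_lit 200000), .ofNat (nat_lit 351886)⟩⟩, [⟨nat_lit 13, nat_lit 48, nat_lit 71, nat_lit 100, nat_lit 458243380⟩, ⟨nat_lit 22, nat_lit 61, nat_lit 92, nat_lit 100, nat_lit 45673480⟩]⟩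
noncomputable def p122_l65 : Lf2 := ⟨nat_lit 0, nat_lit 20, [nat_lit 5, nat_lit 5, nat_lit 5, nat_lit 20], false, nat_lit 80, nat_lit 160, nat_lit 0, nat_lit 160, ⟨nat_lit 274, nat_lit 726, nat_lit 0, nat_lit 8, nat_lit 325, nat_lit 726, nat_lit 105, nat_lit 0, nat_lit 0, nat_lit 0, nat_lit 0, nat_lit 0, nat_lit 37591817, nat_lit 25252648, nat_lit 4155535, nat_lit 4569300, true, true⟩,
 nat_lit 0, nat_lit 0, nat_lit 2989, nat_lit 0, nat_lit 3215, nat_lit 1984, nat_lit 39, nat_lit 0, nat_lit 0, nat_lit 240, nat_lit 0, nat_lit 0, nat_lit 0, nat_lit 0, nat_lit 0, nat_lit 402000, nat_lit 0, nat_lit 0, [(nat_lit 25, [(nat_lit 1, nat_lit 540), (nat_lit 2, nat_lit 186)])],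
 ⟨p122_k8, nat_lit 0, nat_lit 0, nat_lit 119, nat_lit 0, nat_lit 0, [nat_lit 986326401, nat_lit 1369566401, nat_lit 1481531200], [], [nat_lit 25859532557, nat_lit 26832121487, nat_lit 27538270075, nat_lit 28676669810, nat_lit 26282891057, nat_lit 27172769537, nat_lit 27807657377, nat_lit 28654546470], nat_lit 0, nat_lit 0, nat_lit 0, nat_lit 0, nat_lit 0, nat_lit 0, [], [nat_lit 20, nat_lit 40, nat_lit 40, nat_lit 80, nat_lit 16, nat_lit 249, nat_lit 40, nat_lit 8]⟩, ⟨p122_k15, nat_lit 0, nat_lit 0, nat_lit 724, nat_lit 0, nat_lit 1116671, [nat_lit 899268000, nat_lit 1712500000, nat_lit 3252928000], [], [nat_lit 9244082042, nat_lit 9312298132, nat_lit 9630197606, nat_lit 9751713076, nat_lit 8140178430, nat_lit 8195064676, nat_lit 8431656458, nat_lit 8478804476], nat_lit 1271250, nat_lit 1271250, nat_lit 1271250, nat_lit 1271250, nat_lit 0, nat_lit 1100001, [nat_lit 780000, nat_lit 1435000, nat_lit 1271250], [nat_lit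 23, nat_lit 40, nat_lit 40, nat_lit 80, nat_lit 12, nat_lit 345, nat_lit 125, nat_lit 8]⟩,
 ⟨nat_lit 2236, nat_lit 3163, ⟨.ofNat (nat_lit 782556), .ofNat (nat_lit 843509), .ofNat (nat_lit 793619), .ofNat (nat_lit 854586), .ofNat (nat_lit 773529), .ofNat (nat_lit 830545), .ofNat (nat_lit 784902), .ofNat (nat_lit 841932)⟩, ⟨.ofNat (nat_lit 184209), .ofNat (nat_lit 306116), .ofNat (nat_lit 200000), .ofNat (nat_lit 350426), .ofNat (nat_lit 192306), .ofNat (nat_lit 306337), .ofNat (nat_lit 200000), .ofNat (nat_lit 351886)⟩⟩, []⟩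
noncomputable def p122_l66 : Lf2 := ⟨nat_lit 0, nat_lit 20, [nat_lit 5, nat_lit 5, nat_lit 5, nat_lit 20], false, nat_lit 80, nat_lit 160, nat_lit 160, nat_lit 328, ⟨nat_lit 292, nat_lit 708, nat_lit 0, nat_lit 8, nat_lit 326, nat_lit 708, nat_lit 104, nat_lit 0, nat_lit 0, nat_lit 0, nat_lit 0, nat_lit 0, nat_lit 37507393, nat_lit 25357202, nat_lit 4135405, nat_lit 4568467, true, true⟩,
 nat_lit 0, nat_lit 0, nat_lit 3049, nat_lit 0, nat_lit 3267, nat_lit 2024, nat_lit 41, nat_lit 0, nat_lit 0, nat_lit 221, nat_lit 0, nat_lit 0, nat_lit 0, nat_lit 0, nat_lit 0, nat_lit 407400, nat_lit 0, nat_lit 0, [(nat_lit 25, [(nat_lit 1, nat_lit 501), (nat_lit 2, nat_lit 207)])],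
 ⟨p122_k8, nat_lit 0, nat_lit 0, nat_lit 115, nat_lit 0, nat_lit 0, [nat_lit 1001099601, nat_lit 1381559601, nat_lit 1476463600], [], [nat_lit 25790552711, nat_lit 26280016628, nat_lit 27559139444, nat_lit 28164713311, nat_lit 26196642011, nat_lit 26644313123, nat_lit 27729190027, nat_lit 28168488769], nat_lit 0, nat_lit 0, nat_lit 0, nat_lit 0, nat_lit 0, nat_lit 0, [], [nat_lit 20, nat_lit 40, nat_lit 40, nat_lit 80, nat_lit 16, nat_lit 249, nat_lit 40, nat_lit 8]⟩, ⟨p122_k15, nat_lit 0, nat_lit 0, nat_lit 550, nat_lit 0, nat_lit 973976, [nat_lit 958344000, nat_lit 1825000000, nat_lit 3466624000], [], [nat_lit 8848932055, nat_lit 8904782175, nat_lit 9149751155, nat_lit 9198155864, nat_lit 9304744490, nat_lit 9354117806, nat_lit 9576540395, nat_lit 9618414307], nat_lit 1271250, nat_lit 1271250, nat_lit 1271250, nat_lit 1271250, nat_lit 1100001, nat_lit 2538500, [nat_lit 780000, nat_lit 1435000, nat_lit 1271250], [nat_lit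 23, nat_lit 40, nat_lit 40, nat_lit 80, nat_lit 12, nat_lit 401, nat_lit 175, nat_lit 9]⟩,
 ⟨nat_lit 2738, nat_lit 3163, ⟨.ofNat (nat_lit 782555), .ofNat (nat_lit 843509), .ofNat (nat_lit 793629), .ofNat (nat_lit 854586), .ofNat (nat_lit 778060), .ofNat (nat_lit 837122), .ofNat (nat_lit 789265), .ofNat (nat_lit 848331)⟩, ⟨.ofNat (nat_lit 184209), .ofNat (nat_lit 306116), .ofNat (nat_lit 200000), .ofNat (nat_lit 350426), .ofNat (nat_lit 188310), .ofNat (nat_lit 306433), .ofNat (nat_lit 200000), .ofNat (nat_lit 351268)⟩⟩, [⟨nat_lit 19, nat_lit 100, nat_lit 97, nat_lit 98, nat_lit 80244634⟩]⟩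
noncomputable def p122_l67 : Lf2 := ⟨nat_lit 0, nat_lit 20, [nat_lit 5, nat_lit 5, nat_lit 5, nat_lit 20], false, nat_lit 80, nat_lit 160, nat_lit 160, nat_lit 328, ⟨nat_lit 266, nat_lit 734, nat_lit 0, nat_lit 8, nat_lit 325, nat_lit 734, nat_lit 105, nat_lit 0, nat_lit 0, nat_lit 0, nat_lit 0, nat_lit 0, nat_lit 37630436, nat_lit 25201632, nat_lit 4167932, nat_lit 4570200, true, true⟩,
 nat_lit 0, nat_lit 0, nat_lit 2785, nat_lit 0, nat_lit 3125, nat_lit 1849, nat_lit 232, nat_lit 0, nat_lit 0, nat_lit 194, nat_lit 0, nat_lit 0, nat_lit 0, nat_lit 0, nat_lit 0, nat_lit 183500, nat_lit 0, nat_lit 0, [(nat_lit 25, [(nat_lit 0, nat_lit 734)])],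
 ⟨p122_k13, nat_lit 0, nat_lit 0, nat_lit 117, nat_lit 0, nat_lit 0, [nat_lit 810284000, nat_lit 1877711201, nat_lit 3217112000], [], [nat_lit 26170566576, nat_lit 26416166514, nat_lit 27920681625, nat_lit 28217660688, nat_lit 26560464701, nat_lit 26780570201, nat_lit 28054079826, nat_lit 28264027813], nat_lit 0, nat_lit 0, nat_lit 0, nat_lit 0, nat_lit 0, nat_lit 0, [], [nat_lit 20, nat_lit 40, nat_lit 40, nat_lit 80, nat_lit 16, nat_lit 249, nat_lit 40, nat_lit 8]⟩, ⟨p122_k15, nat_lit 0, nat_lit 0, nat_lit 575, nat_lit 0, nat_lit 1044641, [nat_lit 873012000, nat_lit 1662500000, nat_lit 3157952000], [], [nat_lit 8137046501, nat_lit 8187921948, nat_lit 8411249320, nat_lit 8454748458, nat_lit 8483054015, nat_lit 8528016416, nat_lit 8730759063, nat_lit 8768874261], nat_lit 1271250, nat_lit 1271250, nat_lit 1271250, nat_lit 1271250, nat_lit 1100001, nat_lit 2538500, [nat_lit 780000, nat_lit 1435000, nat_lit 1271250],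 [nat_lit 23, nat_lit 40, nat_lit 40, nat_lit 80, nat_lit 12, nat_lit 401, nat_lit 175, nat_lit 9]⟩,
 ⟨nat_lit 2500, nat_lit 2739, ⟨.ofNat (nat_lit 778061), .ofNat (nat_lit 837122), .ofNat (nat_lit 789269), .ofNat (nat_lit 848331), .ofNat (nat_lit 775805), .ofNat (nat_lit 833869), .ofNat (nat_lit 787095), .ofNat (nat_lit 845160)⟩, ⟨.ofNat (nat_lit 188310), .ofNat (nat_lit 306433), .ofNat (nat_lit 200000), .ofNat (nat_lit 351268), .ofNat (nat_lit 190321), .ofNat (nat_lit 306450), .ofNat (nat_lit 200000), .ofNat (nat_lit 351611)⟩⟩, [⟨nat_lit 19, nat_lit 100, nat_lit 97, nat_lit 98, nat_lit 70886772⟩]⟩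
noncomputable def p122_l68 : Lf2 := ⟨nat_lit 0, nat_lit 20, [nat_lit 5, nat_lit 5, nat_lit 5, nat_lit 20], false, nat_lit 80, nat_lit 160, nat_lit 160, nat_lit 328, ⟨nat_lit 265, nat_lit 735, nat_lit 0, nat_lit 8, nat_lit 324, nat_lit 735, nat_lit 105, nat_lit 0, nat_lit 0, nat_lit 0, nat_lit 0, nat_lit 0, nat_lit 37714877, nat_lit 25096994, nat_lit 4188129, nat_lit 4570955, true, true⟩,
 nat_lit 0, nat_lit 0, nat_lit 2772, nat_lit 0, nat_lit 2889, nat_lit 1840, nat_lit 240, nat_lit 0, nat_lit 0, nat_lit 193, nat_lit 0, nat_lit 0, nat_lit 0, nat_lit 0, nat_lit 0, nat_lit 183750, nat_lit 0, nat_lit 0, [(nat_lit 25, [(nat_lit 0, nat_lit 735)])],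
 ⟨p122_k14, nat_lit 0, nat_lit 0, nat_lit 119, nat_lit 0, nat_lit 0, [nat_lit 810110001, nat_lit 1875798001, nat_lit 3212980000], [], [nat_lit 26132978189, nat_lit 26366190408, nat_lit 27802434382, nat_lit 28089760926, nat_lit 26606683386, nat_lit 26820589638, nat_lit 28032356809, nat_lit 28229493844], nat_lit 0, nat_lit 0, nat_lit 0, nat_lit 0, nat_lit 0, nat_lit 0, [], [nat_lit 20, nat_lit 40, nat_lit 40, nat_lit 80, nat_lit 16, nat_lit 249, nat_lit 40, nat_lit 8]⟩, ⟨p122_k15, nat_lit 0, nat_lit 0, nat_lit 632, nat_lit 0, nat_lit 1116671, [nat_lit 869730000, nat_lit 1656250000, nat_lit 3146080000], [], [nat_lit 8117974855, nat_lit 8168659715, nat_lit 8391080500, nat_lit 8434423385, nat_lit 8460360247, nat_lit 8505159372, nat_lit 8707090832, nat_lit 8745074602], nat_lit 1271250, nat_lit 1271250, nat_lit 1271250, nat_lit 1271250, nat_lit 1100001, nat_lit 2538500, [nat_lit 780000, nat_lit 1435000, nat_lit 1271250],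 [nat_lit 23, nat_lit 40, nat_lit 40, nat_lit 80, nat_lit 12, nat_lit 401, nat_lit 175, nat_lit 9]⟩,
 ⟨nat_lit 2236, nat_lit 2500, ⟨.ofNat (nat_lit 775805), .ofNat (nat_lit 833869), .ofNat (nat_lit 787095), .ofNat (nat_lit 845160), .ofNat (nat_lit 773529), .ofNat (nat_lit 830545), .ofNat (nat_lit 784917), .ofNat (nat_lit 841932)⟩, ⟨.ofNat (nat_lit 190321), .ofNat (nat_lit 306450), .ofNat (nat_lit 200000), .ofNat (nat_lit 351611), .ofNat (nat_lit 192306), .ofNat (nat_lit 306337), .ofNat (nat_lit 200000), .ofNat (nat_lit 351886)⟩⟩, [⟨nat_lit 7, nat_lit 97, nat_lit 100, nat_lit 98, nat_lit 70542709⟩]⟩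
noncomputable def p122_l69 : Lf2 := ⟨nat_lit 0, nat_lit 20, [nat_lit 5, nat_lit 5, nat_lit 5, nat_lit 20], false, nat_lit 80, nat_lit 160, nat_lit 8, nat_lit 288, ⟨nat_lit 262, nat_lit 738, nat_lit 0, nat_lit 9, nat_lit 346, nat_lit 738, nat_lit 104, nat_lit 0, nat_lit 0, nat_lit 0, nat_lit 0, nat_lit 0, nat_lit 35905250, nat_lit 27085296, nat_lit 4009454, nat_lit 4588282, true, true⟩,
 nat_lit 0, nat_lit 0, nat_lit 2811, nat_lit 0, nat_lit 3229, nat_lit 1866, nat_lit 13, nat_lit 0, nat_lit 0, nat_lit 187, nat_lit 0, nat_lit 0, nat_lit 0, nat_lit 0, nat_lit 0, nat_lit 405600, nat_lit 0, nat_lit 0, [(nat_lit 25, [(nat_lit 1, nat_lit 554), (nat_lit 2, nat_lit 184)])],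
 ⟨p122_k8, nat_lit 0, nat_lit 0, nat_lit 123, nat_lit 0, nat_lit 0, [nat_lit 983960801, nat_lit 1344974134, nat_lit 1427141600], [], [nat_lit 27694484425, nat_lit 28192396965, nat_lit 28942860658, nat_lit 29506521565, nat_lit 27911566860, nat_lit 28321018191, nat_lit 28959028218, nat_lit 29411299768], nat_lit 0, nat_lit 0, nat_lit 0, nat_lit 0, nat_lit 0, nat_lit 0, [], [nat_lit 20, nat_lit 40, nat_lit 40, nat_lit 80, nat_lit 16, nat_lit 249, nat_lit 40, nat_lit 7]⟩, ⟨p122_k15, nat_lit 0, nat_lit 0, nat_lit 667, nat_lit 0, nat_lit 973976, [nat_lit 859884000, nat_lit 1637500000, nat_lit 3110464000], [], [nat_lit 9486570881, nat_lit 9600267799, nat_lit 9934006148, nat_lit 10037632120, nat_lit 8512346785, nat_lit 8542954306, nat_lit 8660116222, nat_lit 8687069636], nat_lit 1271250, nat_lit 1271250, nat_lit 1271250, nat_lit 1271250, nat_lit 43600, nat_lit 2042100, [nat_lit 780000, nat_lit 1435000, nat_lit 1271250], [nat_lit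 23, nat_lit 40, nat_lit 40, nat_lit 80, nat_lit 12, nat_lit 373, nat_lit 150, nat_lit 9]⟩,
 ⟨nat_lit 2738, nat_lit 3163, ⟨.ofNat (nat_lit 843509), .ofNat (nat_lit 880081), .ofNat (nat_lit 854586), .ofNat (nat_lit 891158), .ofNat (nat_lit 837122), .ofNat (nat_lit 872559), .ofNat (nat_lit 848331), .ofNat (nat_lit 883768)⟩, ⟨.ofNat (nat_lit 184209), .ofNat (nat_lit 306116), .ofNat (nat_lit 200000), .ofNat (nat_lit 350426), .ofNat (nat_lit 188310), .ofNat (nat_lit 306433), .ofNat (nat_lit 200000), .ofNat (nat_lit 351268)⟩⟩, [⟨nat_lit 13, nat_lit 64, nat_lit 52, nat_lit 100, nat_lit 161308505⟩, ⟨nat_lit 10, nat_lit 90, nat_lit 51, nat_lit 100, nat_lit 44666536⟩]⟩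
noncomputable def p122_l70 : Lf2 := ⟨nat_lit 0, nat_lit 20, [nat_lit 5, nat_lit 5, nat_lit 5, nat_lit 20], false, nat_lit 80, nat_lit 160, nat_lit 8, nat_lit 288, ⟨nat_lit 240, nat_lit 760, nat_lit 0, nat_lit 9, nat_lit 342, nat_lit 760, nat_lit 105, nat_lit 0, nat_lit 0, nat_lit 0, nat_lit 0, nat_lit 0, nat_lit 36214105, nat_lit 26722780, nat_lit 4063115, nat_lit 4590798, true, true⟩,
 nat_lit 0, nat_lit 0, nat_lit 2588, nat_lit 0, nat_lit 3075, nat_lit 1718, nat_lit 223, nat_lit 0, nat_lit 0, nat_lit 154, nat_lit 0, nat_lit 0, nat_lit 0, nat_lit 0, nat_lit 0, nat_lit 190000, nat_lit 0, nat_lit 0, [(nat_lit 25, [(nat_lit 0, nat_lit 760)])],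
 ⟨p122_k13, nat_lit 0, nat_lit 0, nat_lit 125, nat_lit 0, nat_lit 0, [nat_lit 805760001, nat_lit 1827968000, nat_lit 3109680000], [], [nat_lit 27834754975, nat_lit 28424623050, nat_lit 28983263363, nat_lit 29541903675, nat_lit 28059562925, nat_lit 28470410350, nat_lit 28983689250, nat_lit 29496968150], nat_lit 0, nat_lit 0, nat_lit 0, nat_lit 0, nat_lit 0, nat_lit 0, [], [nat_lit 20, nat_lit 40, nat_lit 40, nat_lit 80, nat_lit 16, nat_lit 249, nat_lit 40, nat_lit 7]⟩, ⟨p122_k15, nat_lit 0, nat_lit 0, nat_lit 715, nat_lit 0, nat_lit 1116671, [nat_lit 787680000, nat_lit 1500000000, nat_lit 2849280000], [], [nat_lit 8898818045, nat_lit 8980031542, nat_lit 9218039339, nat_lit 9314872203, nat_lit 7846842748, nat_lit 7863845583, nat_lit 8021631510, nat_lit 8081282046], nat_lit 1271250, nat_lit 1271250, nat_lit 1271250, nat_lit 1271250, nat_lit 43600, nat_lit 2042100, [nat_lit 780000, nat_lit 1435000, nat_lit 1271250], [nat_lit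 23, nat_lit 40, nat_lit 40, nat_lit 80, nat_lit 12, nat_lit 373, nat_lit 150, nat_lit 9]⟩,
 ⟨nat_lit 2236, nat_lit 2739, ⟨.ofNat (nat_lit 837122), .ofNat (nat_lit 866653), .ofNat (nat_lit 848331), .ofNat (nat_lit 877861), .ofNat (nat_lit 830545), .ofNat (nat_lit 859053), .ofNat (nat_lit 841932), .ofNat (nat_lit 870440)⟩, ⟨.ofNat (nat_lit 188310), .ofNat (nat_lit 306433), .ofNat (nat_lit 200000), .ofNat (nat_lit 351268), .ofNat (nat_lit 192306), .ofNat (nat_lit 306337), .ofNat (nat_lit 200000), .ofNat (nat_lit 351886)⟩⟩, [⟨nat_lit 13, nat_lit 49, nat_lit 68, nat_lit 100, nat_lit 384107836⟩, ⟨nat_lit 22, nat_lit 61, nat_lit 92, nat_lit 100, nat_lit 34522464⟩]⟩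
noncomputable def p122_l71 : Lf2 := ⟨nat_lit 0, nat_lit 20, [nat_lit 5, nat_lit 5, nat_lit 5, nat_lit 20], false, nat_lit 80, nat_lit 160, nat_lit 0, nat_lit 336, ⟨nat_lit 111, nat_lit 889, nat_lit 0, nat_lit 8, nat_lit 315, nat_lit 889, nat_lit 105, nat_lit 0, nat_lit 0, nat_lit 0, nat_lit 0, nat_lit 0, nat_lit 38439667, nat_lit 24300801, nat_lit 4259532, nat_lit 4558436, true, true⟩,
 nat_lit 0, nat_lit 0, nat_lit 1372, nat_lit 0, nat_lit 2806, nat_lit 872, nat_lit 138, nat_lit 0, nat_lit 0, nat_lit 64, nat_lit 0, nat_lit 0, nat_lit 0, nat_lit 0, nat_lit 0, nat_lit 222250, nat_lit 0, nat_lit 0, [(nat_lit 28, [(nat_lit 0, nat_lit 889)])],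
 ⟨p122_k10, nat_lit 0, nat_lit 0, nat_lit 121, nat_lit 0, nat_lit 0, [nat_lit 798960400, nat_lit 1327622400, nat_lit 2213579334], [], [nat_lit 26217225276, nat_lit 26733645606, nat_lit 27738852999, nat_lit 28312682582, nat_lit 26664519776, nat_lit 27119418888, nat_lit 28010884543, nat_lit 28457976520], nat_lit 0, nat_lit 0, nat_lit 0, nat_lit 0, nat_lit 0, nat_lit 0, [], [nat_lit 20, nat_lit 40, nat_lit 40, nat_lit 80, nat_lit 16, nat_lit 249, nat_lit 40, nat_lit 8]⟩, ⟨p122_k9, nat_lit 0, nat_lit 0, nat_lit 806, nat_lit 0, nat_lit 1251736, [nat_lit 364302000, nat_lit 693750000, nat_lit 1317792000], [], [nat_lit 4215639252, nat_lit 4222188887, nat_lit 4289790587, nat_lit 4296676960, nat_lit 3662392633, nat_lit 3663750821, nat_lit 3792738233, nat_lit 3805658528], nat_lit 1271250, nat_lit 1271250, nat_lit 1271250, nat_lit 1271250, nat_lit 0, nat_lit 2373000, [nat_lit 780000, nat_lit 1435000, nat_lit 1271250], [nat_lit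 23, nat_lit 40, nat_lit 40, nat_lit 80, nat_lit 12, nat_lit 401, nat_lit 175, nat_lit 10]⟩,
 ⟨nat_lit 1581, nat_lit 2237, ⟨.ofNat (nat_lit 762142), .ofNat (nat_lit 813456), .ofNat (nat_lit 767836), .ofNat (nat_lit 819150), .ofNat (nat_lit 757166), .ofNat (nat_lit 806338), .ofNat (nat_lit 762995), .ofNat (nat_lit 812167)⟩, ⟨.ofNat (nat_lit 192306), .ofNat (nat_lit 306337), .ofNat (nat_lit 200000), .ofNat (nat_lit 351886), .ofNat (nat_lit 196201), .ofNat (nat_lit 305473), .ofNat (nat_lit 200000), .ofNat (nat_lit 352103)⟩⟩, [⟨nat_lit 13, nat_lit 42, nat_lit 75, nat_lit 100, nat_lit 336824204⟩, ⟨nat_lit 22, nat_lit 79, nat_lit 100, nat_lit 99, nat_lit 13097073⟩, ⟨nat_lit 10, nat_lit 73, nat_lit 73, nat_lit 100, nat_lit 3365651⟩]⟩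
noncomputable def p122_l72 : Lf2 := ⟨nat_lit 0, nat_lit 20, [nat_lit 5, nat_lit 5, nat_lit 5, nat_lit 20], false, nat_lit 80, nat_lit 160, nat_lit 0, nat_lit 332, ⟨nat_lit 117, nat_lit 883, nat_lit 0, nat_lit 8, nat_lit 318, nat_lit 883, nat_lit 105, nat_lit 0, nat_lit 0, nat_lit 0, nat_lit 0, nat_lit 0, nat_lit 38184944, nat_lit 24574671, nat_lit 4240385, nat_lit 4564185, true, true⟩,
 nat_lit 0, nat_lit 0, nat_lit 1387, nat_lit 0, nat_lit 2821, nat_lit 901, nat_lit 136, nat_lit 0, nat_lit 0, nat_lit 74, nat_lit 0, nat_lit 0, nat_lit 0, nat_lit 0, nat_lit 0, nat_lit 220750, nat_lit 0, nat_lit 0, [(nat_lit 28, [(nat_lit 0, nat_lit 883)])],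
 ⟨p122_k10, nat_lit 0, nat_lit 0, nat_lit 122, nat_lit 0, nat_lit 0, [nat_lit 799898801, nat_lit 1340812800, nat_lit 2240295334], [], [nat_lit 26268262756, nat_lit 26785763911, nat_lit 27967338214, nat_lit 28536428835, nat_lit 26698038308, nat_lit 27153826200, nat_lit 28212660642, nat_lit 28658874189], nat_lit 0, nat_lit 0, nat_lit 0, nat_lit 0, nat_lit 0, nat_lit 0, [], [nat_lit 20, nat_lit 40, nat_lit 40, nat_lit 80, nat_lit 16, nat_lit 249, nat_lit 40, nat_lit 8]⟩, ⟨p122_k19, nat_lit 0, nat_lit 0, nat_lit 793, nat_lit 0, nat_lit 1230615, [nat_lit 383994000, nat_lit 731250000, nat_lit 1389024000], [], [nat_lit 4277249491, nat_lit 4281430962, nat_lit 4455698362, nat_lit 4471659156, nat_lit 3752075362, nat_lit 3760875251, nat_lit 3930867381, nat_lit 3939021060], nat_lit 1271250, nat_lit 1271250, nat_lit 1271250, nat_lit 1271250, nat_lit 0, nat_lit 2344750, [nat_lit 780000, nat_lit 1435000, nat_lit 1271250], [nat_lit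 23, nat_lit 40, nat_lit 40, nat_lit 80, nat_lit 12, nat_lit 401, nat_lit 175, nat_lit 10]⟩,
 ⟨nat_lit 1581, nat_lit 2237, ⟨.ofNat (nat_lit 767836), .ofNat (nat_lit 824851), .ofNat (nat_lit 771252), .ofNat (nat_lit 828268), .ofNat (nat_lit 762995), .ofNat (nat_lit 817630), .ofNat (nat_lit 766492), .ofNat (nat_lit 821128)⟩, ⟨.ofNat (nat_lit 192306), .ofNat (nat_lit 306337), .ofNat (nat_lit 200000), .ofNat (nat_lit 351886), .ofNat (nat_lit 196201), .ofNat (nat_lit 305473), .ofNat (nat_lit 200000), .ofNat (nat_lit 352103)⟩⟩, [⟨nat_lit 13, nat_lit 42, nat_lit 74, nat_lit 100, nat_lit 339920894⟩, ⟨nat_lit 22, nat_lit 77, nat_lit 100, nat_lit 99, nat_lit 6567135⟩, ⟨nat_lit 10, nat_lit 75, nat_lit 72, nat_lit 100, nat_lit 12633580⟩]⟩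
noncomputable def p122_l73 : Lf2 := ⟨nat_lit 0, nat_lit 20, [nat_lit 5, nat_lit 5, nat_lit 5, nat_lit 20], false, nat_lit 80, nat_lit 160, nat_lit 0, nat_lit 332, ⟨nat_lit 125, nat_lit 875, nat_lit 0, nat_lit 8, nat_lit 319, nat_lit 875, nat_lit 105, nat_lit 0, nat_lit 0, nat_lit 0, nat_lit 0, nat_lit 0, nat_lit 38086119, nat_lit 24680975, nat_lit 4232906, nat_lit 4566305, true, true⟩,
 nat_lit 0, nat_lit 0, nat_lit 1399, nat_lit 0, nat_lit 2788, nat_lit 921, nat_lit 143, nat_lit 0, nat_lit 0, nat_lit 85, nat_lit 0, nat_lit 0, nat_lit 0, nat_lit 0, nat_lit 0, nat_lit 218750, nat_lit 0, nat_lit 0, [(nat_lit 28, [(nat_lit 0, nat_lit 875)])],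
 ⟨p122_k10, nat_lit 0, nat_lit 0, nat_lit 122, nat_lit 0, nat_lit 0, [nat_lit 801150000, nat_lit 1358400000, nat_lit 2275916667], [], [nat_lit 26221199958, nat_lit 26736323298, nat_lit 27907927192, nat_lit 28474318380, nat_lit 26696148558, nat_lit 27149981134, nat_lit 28189345654, nat_lit 28613109492], nat_lit 0, nat_lit 0, nat_lit 0, nat_lit 0, nat_lit 0, nat_lit 0, [], [nat_lit 20, nat_lit 40, nat_lit 40, nat_lit 80, nat_lit 16, nat_lit 249, nat_lit 40, nat_lit 8]⟩, ⟨p122_k20, nat_lit 0, nat_lit 0, nat_lit 783, nat_lit 0, nat_lit 1219479, [nat_lit 410250000, nat_lit 781250000, nat_lit 1484000000], [], [nat_lit 4574661217, nat_lit 4577699536, nat_lit 4665143006, nat_lit 4672226188, nat_lit 4105922683, nat_lit 4107761552, nat_lit 4168337288, nat_lit 4169739185], nat_lit 1271250, nat_lit 1271250, nat_lit 1271250, nat_lit 1271250, nat_lit 0, nat_lit 2344750, [nat_lit 780000, nat_lit 1435000, nat_lit 1271250], [nat_lit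 23, nat_lit 40, nat_lit 40, nat_lit 80, nat_lit 12, nat_lit 401, nat_lit 175, nat_lit 10]⟩,
 ⟨nat_lit 1581, nat_lit 2237, ⟨.ofNat (nat_lit 771252), .ofNat (nat_lit 828268), .ofNat (nat_lit 773529), .ofNat (nat_lit 830545), .ofNat (nat_lit 766492), .ofNat (nat_lit 821128), .ofNat (nat_lit 768823), .ofNat (nat_lit 823459)⟩, ⟨.ofNat (nat_lit 192306), .ofNat (nat_lit 306337), .ofNat (nat_lit 200000), .ofNat (nat_lit 351886), .ofNat (nat_lit 196201), .ofNat (nat_lit 305473), .ofNat (nat_lit 200000), .ofNat (nat_lit 352103)⟩⟩, [⟨nat_lit 13, nat_lit 42, nat_lit 74, nat_lit 100, nat_lit 301036455⟩, ⟨nat_lit 10, nat_lit 75, nat_lit 72, nat_lit 100, nat_lit 21759787⟩]⟩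
noncomputable def p122_l74 : Lf2 := ⟨nat_lit 0, nat_lit 20, [nat_lit 5, nat_lit 5, nat_lit 5, nat_lit 20], false, nat_lit 80, nat_lit 160, nat_lit 0, nat_lit 160, ⟨nat_lit 255, nat_lit 745, nat_lit 0, nat_lit 8, nat_lit 324, nat_lit 745, nat_lit 105, nat_lit 0, nat_lit 0, nat_lit 0, nat_lit 0, nat_lit 0, nat_lit 37659542, nat_lit 25140154, nat_lit 4200304, nat_lit 4574743, true, true⟩,
 nat_lit 0, nat_lit 0, nat_lit 2812, nat_lit 0, nat_lit 2463, nat_lit 1867, nat_lit 145, nat_lit 0, nat_lit 0, nat_lit 212, nat_lit 0, nat_lit 0, nat_lit 0, nat_lit 0, nat_lit 0, nat_lit 298000, nat_lit 0, nat_lit 0, [(nat_lit 28, [(nat_lit 1, nat_lit 745)])],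
 ⟨p122_k10, nat_lit 0, nat_lit 0, nat_lit 124, nat_lit 0, nat_lit 0, [nat_lit 758902000, nat_lit 1078886000, nat_lit 1696560000], [], [nat_lit 25781868819, nat_lit 26254552262, nat_lit 27733207956, nat_lit 28262286131, nat_lit 26389409241, nat_lit 26823984917, nat_lit 28140271412, nat_lit 28534703233], nat_lit 0, nat_lit 0, nat_lit 0, nat_lit 0, nat_lit 0, nat_lit 0, [], [nat_lit 20, nat_lit 40, nat_lit 40, nat_lit 80, nat_lit 16, nat_lit 249, nat_lit 40, nat_lit 8]⟩, ⟨p122_k15, nat_lit 0, nat_lit 0, nat_lit 809, nat_lit 0, nat_lit 1265359, [nat_lit 836910000, nat_lit 1593750000, nat_lit 3027360000], [], [nat_lit 8902709498, nat_lit 8949258888, nat_lit 9247017252, nat_lit 9356810408, nat_lit 7878280066, nat_lit 7914717676, nat_lit 8130556162, nat_lit 8160016725], nat_lit 1271250, nat_lit 1271250, nat_lit 1271250, nat_lit 1271250, nat_lit 0, nat_lit 1100001, [nat_lit 780000, nat_lit 1435000, nat_lit 1271250], [nat_lit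 23, nat_lit 40, nat_lit 40, nat_lit 80, nat_lit 12, nat_lit 345, nat_lit 125, nat_lit 8]⟩,
 ⟨nat_lit 1581, nat_lit 2237, ⟨.ofNat (nat_lit 773529), .ofNat (nat_lit 841948), .ofNat (nat_lit 784917), .ofNat (nat_lit 853335), .ofNat (nat_lit 768823), .ofNat (nat_lit 834386), .ofNat (nat_lit 780481), .ofNat (nat_lit 846044)⟩, ⟨.ofNat (nat_lit 192306), .ofNat (nat_lit 306337), .ofNat (nat_lit 200000), .ofNat (nat_lit 351886), .ofNat (nat_lit 196201), .ofNat (nat_lit 305473), .ofNat (nat_lit 200000), .ofNat (nat_lit 352103)⟩⟩, [⟨nat_lit 13, nat_lit 35, nat_lit 79, nat_lit 100, nat_lit 308831261⟩, ⟨nat_lit 16, nat_lit 38, nat_lit 100, nat_lit 87, nat_lit 183687287⟩]⟩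
noncomputable def p122_l75 : Lf2 := ⟨nat_lit 0, nat_lit 20, [nat_lit 5, nat_lit 5, nat_lit 5, nat_lit 20], false, nat_lit 80, nat_lit 160, nat_lit 160, nat_lit 328, ⟨nat_lit 229, nat_lit 771, nat_lit 0, nat_lit 8, nat_lit 323, nat_lit 771, nat_lit 105, nat_lit 0, nat_lit 0, nat_lit 0, nat_lit 0, nat_lit 0, nat_lit 37803508, nat_lit 24989404, nat_lit 4207088, nat_lit 4571309, true, true⟩,
 nat_lit 0, nat_lit 0, nat_lit 2448, nat_lit 0, nat_lit 2826, nat_lit 1625, nat_lit 181, nat_lit 0, nat_lit 0, nat_lit 160, nat_lit 0, nat_lit 0, nat_lit 0, nat_lit 0, nat_lit 0, nat_lit 192750, nat_lit 0, nat_lit 0, [(nat_lit 28, [(nat_lit 0, nat_lit 771)])],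
 ⟨p122_k10, nat_lit 0, nat_lit 0, nat_lit 122, nat_lit 0, nat_lit 0, [nat_lit 817415600, nat_lit 1587033601, nat_lit 2738994000], [], [nat_lit 26262602957, nat_lit 26521533672, nat_lit 28192366098, nat_lit 28474172502, nat_lit 26720946857, nat_lit 26948988933, nat_lit 28380449573, nat_lit 28600585535], nat_lit 0, nat_lit 0, nat_lit 0, nat_lit 0, nat_lit 0, nat_lit 0, [], [nat_lit 20, nat_lit 40, nat_lit 40, nat_lit 80, nat_lit 16, nat_lit 249, nat_lit 40, nat_lit 8]⟩, ⟨p122_k15, nat_lit 0, nat_lit 0, nat_lit 652, nat_lit 0, nat_lit 1158368, [nat_lit 751578000, nat_lit 1431250000, nat_lit 2718688000], [], [nat_lit 7229309258, nat_lit 7245047261, nat_lit 7429884729, nat_lit 7442917726, nat_lit 7426610107, nat_lit 7440255207, nat_lit 7606528859, nat_lit 7617519342], nat_lit 1271250, nat_lit 1271250, nat_lit 1271250, nat_lit 1271250, nat_lit 1100001, nat_lit 2538500, [nat_lit 780000, nat_lit 1435000, nat_lit 1271250],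 [nat_lit 23, nat_lit 40, nat_lit 40, nat_lit 80, nat_lit 12, nat_lit 401, nat_lit 175, nat_lit 9]⟩,
 ⟨nat_lit 1936, nat_lit 2237, ⟨.ofNat (nat_lit 773529), .ofNat (nat_lit 836247), .ofNat (nat_lit 779223), .ofNat (nat_lit 841940), .ofNat (nat_lit 771215), .ofNat (nat_lit 832693), .ofNat (nat_lit 776967), .ofNat (nat_lit 838446)⟩, ⟨.ofNat (nat_lit 192306), .ofNat (nat_lit 306337), .ofNat (nat_lit 200000), .ofNat (nat_lit 351886), .ofNat (nat_lit 194266), .ofNat (nat_lit 306044), .ofNat (nat_lit 200000), .ofNat (nat_lit 352066)⟩⟩, [⟨nat_lit 13, nat_lit 43, nat_lit 73, nat_lit 100, nat_lit 266347828⟩, ⟨nat_lit 4, nat_lit 100, nat_lit 41, nat_lit 87, nat_lit 55737063⟩, ⟨nat_lit 7, nat_lit 95, nat_lit 100, nat_lit 98, nat_lit 58194125⟩]⟩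
noncomputable def p122_l76 : Lf2 := ⟨nat_lit 0, nat_lit 20, [nat_lit 5, nat_lit 5, nat_lit 5, nat_lit 20], false, nat_lit 80, nat_lit 160, nat_lit 160, nat_lit 328, ⟨nat_lit 173, nat_lit 827, nat_lit 0, nat_lit 8, nat_lit 319, nat_lit 827, nat_lit 105, nat_lit 0, nat_lit 0, nat_lit 0, nat_lit 0, nat_lit 0, nat_lit 38087836, nat_lit 24673457, nat_lit 4238707, nat_lit 4567207, true, true⟩,
 nat_lit 0, nat_lit 0, nat_lit 1856, nat_lit 0, nat_lit 2795, nat_lit 1232, nat_lit 88, nat_lit 0, nat_lit 0, nat_lit 121, nat_lit 0, nat_lit 0, nat_lit 0, nat_lit 0, nat_lit 0, nat_lit 206750, nat_lit 0, nat_lit 0, [(nat_lit 28, [(nat_lit 0, nat_lit 827)])],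
 ⟨p122_k18, nat_lit 0, nat_lit 0, nat_lit 107, nat_lit 0, nat_lit 0, [nat_lit 808657201, nat_lit 1432828001, nat_lit 1949306800], [], [nat_lit 26383869550, nat_lit 26626956207, nat_lit 28005789664, nat_lit 28292246486, nat_lit 26900494990, nat_lit 27123328847, nat_lit 28220008013, nat_lit 28442953050], nat_lit 0, nat_lit 0, nat_lit 0, nat_lit 0, nat_lit 0, nat_lit 0, [], [nat_lit 35, nat_lit 40, nat_lit 40, nat_lit 80, nat_lit 22, nat_lit 249, nat_lit 40, nat_lit 9]⟩, ⟨p122_k15, nat_lit 0, nat_lit 0, nat_lit 679, nat_lit 0, nat_lit 1234455, [nat_lit 567786000, nat_lit 1081250000, nat_lit 2053856000], [], [nat_lit 5438188786, nat_lit 5450065653, nat_lit 5560068162, nat_lit 5570184302, nat_lit 5587916884, nat_lit 5598208313, nat_lit 5697038776, nat_lit 5705688626], nat_lit 1271250, nat_lit 1271250, nat_lit 1271250, nat_lit 1271250, nat_lit 1100001, nat_lit 2538500, [nat_lit 780000, nat_lit 1435000, nat_lit 1271250],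 [nat_lit 23, nat_lit 40, nat_lit 40, nat_lit 80, nat_lit 12, nat_lit 401, nat_lit 175, nat_lit 9]⟩,
 ⟨nat_lit 1581, nat_lit 1937, ⟨.ofNat (nat_lit 771215), .ofNat (nat_lit 821515), .ofNat (nat_lit 776967), .ofNat (nat_lit 827268), .ofNat (nat_lit 768823), .ofNat (nat_lit 817996), .ofNat (nat_lit 774652), .ofNat (nat_lit 823824)⟩, ⟨.ofNat (nat_lit 194266), .ofNat (nat_lit 306044), .ofNat (nat_lit 200000), .ofNat (nat_lit 352066), .ofNat (nat_lit 196201), .ofNat (nat_lit 305473), .ofNat (nat_lit 200000), .ofNat (nat_lit 352103)⟩⟩, [⟨nat_lit 13, nat_lit 39, nat_lit 76, nat_lit 100, nat_lit 124675034⟩, ⟨nat_lit 13, nat_lit 35, nat_lit 79, nat_lit 100, nat_lit 240033855⟩, ⟨nat_lit 16, nat_lit 35, nat_lit 100, nat_lit 88, nat_lit 4955845⟩, ⟨nat_lit 19, nat_lit 100, nat_lit 95, nat_lit 98, nat_lit 44172318⟩]⟩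
noncomputable def p122_l77 : Lf2 := ⟨nat_lit 0, nat_lit 20, [nat_lit 5, nat_lit 5, nat_lit 5, nat_lit 20], false, nat_lit 80, nat_lit 160, nat_lit 160, nat_lit 324, ⟨nat_lit 269, nat_lit 731, nat_lit 0, nat_lit 8, nat_lit 326, nat_lit 731, nat_lit 105, nat_lit 0, nat_lit 0, nat_lit 0, nat_lit 0, nat_lit 0, nat_lit 37512962, nat_lit 25302309, nat_lit 4184729, nat_lit 4576659, true, true⟩,
 nat_lit 0, nat_lit 0, nat_lit 2688, nat_lit 0, nat_lit 2698, nat_lit 1822, nat_lit 108, nat_lit 0, nat_lit 0, nat_lit 192, nat_lit 0, nat_lit 0, nat_lit 0, nat_lit 0, nat_lit 0, nat_lit 292400, nat_lit 0, nat_lit 0, [(nat_lit 28, [(nat_lit 1, nat_lit 731)])],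
 ⟨p122_k10, nat_lit 0, nat_lit 0, nat_lit 123, nat_lit 0, nat_lit 0, [nat_lit 762267600, nat_lit 1120286801, nat_lit 1782128000], [], [nat_lit 26108910536, nat_lit 26363229731, nat_lit 28170310776, nat_lit 28444122917, nat_lit 26622468836, nat_lit 26846718784, nat_lit 28418072657, nat_lit 28621009478], nat_lit 0, nat_lit 0, nat_lit 0, nat_lit 0, nat_lit 0, nat_lit 0, [], [nat_lit 20, nat_lit 40, nat_lit 40, nat_lit 80, nat_lit 16, nat_lit 249, nat_lit 40, nat_lit 8]⟩, ⟨p122_k21, nat_lit 0, nat_lit 0, nat_lit 650, nat_lit 0, nat_lit 1154778, [nat_lit 882858000, nat_lit 1681250000, nat_lit 3193568000], [], [nat_lit 8444362277, nat_lit 8463097950, nat_lit 8708176021, nat_lit 8730707332, nat_lit 8676932878, nat_lit 8693576251, nat_lit 8910662620, nat_lit 8923996798], nat_lit 1271250, nat_lit 1271250, nat_lit 1271250, nat_lit 1271250, nat_lit 1100001, nat_lit 2504250, [nat_lit 780000, nat_lit 1435000, nat_lit 1271250],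 [nat_lit 23, nat_lit 40, nat_lit 40, nat_lit 80, nat_lit 12, nat_lit 401, nat_lit 175, nat_lit 9]⟩,
 ⟨nat_lit 1936, nat_lit 2237, ⟨.ofNat (nat_lit 779223), .ofNat (nat_lit 847642), .ofNat (nat_lit 784917), .ofNat (nat_lit 853335), .ofNat (nat_lit 776967), .ofNat (nat_lit 844034), .ofNat (nat_lit 782720), .ofNat (nat_lit 849787)⟩, ⟨.ofNat (nat_lit 192306), .ofNat (nat_lit 306337), .ofNat (nat_lit 200000), .ofNat (nat_lit 351886), .ofNat (nat_lit 194266), .ofNat (nat_lit 306044), .ofNat (nat_lit 200000), .ofNat (nat_lit 352066)⟩⟩, [⟨nat_lit 13, nat_lit 43, nat_lit 72, nat_lit 100, nat_lit 237467112⟩, ⟨nat_lit 16, nat_lit 41, nat_lit 100, nat_lit 87, nat_lit 84658606⟩, ⟨nat_lit 19, nat_lit 100, nat_lit 98, nat_lit 99, nat_lit 67104728⟩]⟩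
noncomputable def p122_l78 : Lf2 := ⟨nat_lit 0, nat_lit 20, [nat_lit 5, nat_lit 5, nat_lit 5, nat_lit 20], false, nat_lit 80, nat_lit 160, nat_lit 160, nat_lit 324, ⟨nat_lit 214, nat_lit 786, nat_lit 0, nat_lit 8, nat_lit 323, nat_lit 786, nat_lit 105, nat_lit 0, nat_lit 0, nat_lit 0, nat_lit 0, nat_lit 0, nat_lit 37795481, nat_lit 24988130, nat_lit 4216389, nat_lit 4573122, true, true⟩,
 nat_lit 0, nat_lit 0, nat_lit 2154, nat_lit 0, nat_lit 2803, nat_lit 1460, nat_lit 99, nat_lit 0, nat_lit 0, nat_lit 156, nat_lit 0, nat_lit 0, nat_lit 0, nat_lit 0, nat_lit 0, nat_lit 196500, nat_lit 0, nat_lit 0, [(nat_lit 28, [(nat_lit 0, nat_lit 786)])],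
 ⟨p122_k18, nat_lit 0, nat_lit 0, nat_lit 108, nat_lit 0, nat_lit 0, [nat_lit 815069601, nat_lit 1524504001, nat_lit 2085082400], [], [nat_lit 26449816414, nat_lit 26693170499, nat_lit 28218741304, nat_lit 28502550405, nat_lit 26963668510, nat_lit 27186733475, nat_lit 28419855753, nat_lit 28640110525], nat_lit 0, nat_lit 0, nat_lit 0, nat_lit 0, nat_lit 0, nat_lit 0, [], [nat_lit 35, nat_lit 40, nat_lit 40, nat_lit 80, nat_lit 22, nat_lit 249, nat_lit 40, nat_lit 9]⟩, ⟨p122_k21, nat_lit 0, nat_lit 0, nat_lit 676, nat_lit 0, nat_lit 1227516, [nat_lit 702348000, nat_lit 1337500000, nat_lit 2540608000], [], [nat_lit 6612899991, nat_lit 6627774804, nat_lit 6803965623, nat_lit 6822462376, nat_lit 6826802482, nat_lit 6840003653, nat_lit 6976715533, nat_lit 6987719725], nat_lit 1271250, nat_lit 1271250, nat_lit 1271250, nat_lit 1271250, nat_lit 1100001, nat_lit 2504250, [nat_lit 780000, nat_lit 1435000, nat_lit 1271250],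 [nat_lit 23, nat_lit 40, nat_lit 40, nat_lit 80, nat_lit 12, nat_lit 401, nat_lit 175, nat_lit 9]⟩,
 ⟨nat_lit 1581, nat_lit 1937, ⟨.ofNat (nat_lit 776967), .ofNat (nat_lit 832857), .ofNat (nat_lit 782720), .ofNat (nat_lit 838609), .ofNat (nat_lit 774652), .ofNat (nat_lit 829288), .ofNat (nat_lit 780481), .ofNat (nat_lit 835117)⟩, ⟨.ofNat (nat_lit 194266), .ofNat (nat_lit 306044), .ofNat (nat_lit 200000), .ofNat (nat_lit 352066), .ofNat (nat_lit 196201), .ofNat (nat_lit 305473), .ofNat (nat_lit 200000), .ofNat (nat_lit 352103)⟩⟩, [⟨nat_lit 13, nat_lit 35, nat_lit 78, nat_lit 100, nat_lit 340888575⟩, ⟨nat_lit 4, nat_lit 100, nat_lit 35, nat_lit 88, nat_lit 37164566⟩, ⟨nat_lit 19, nat_lit 100, nat_lit 98, nat_lit 99, nat_lit 53762332⟩]⟩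
noncomputable def p122_l79 : Lf2 := ⟨nat_lit 0, nat_lit 20, [nat_lit 5, nat_lit 5, nat_lit 5, nat_lit 20], true, nat_lit 80, nat_lit 160, nat_lit 0, nat_lit 336, ⟨nat_lit 0, nat_lit 1000, nat_lit 0, nat_lit 8, nat_lit 310, nat_lit 1000, nat_lit 105, nat_lit 0, nat_lit 0, nat_lit 0, nat_lit 0, nat_lit 0, nat_lit 38868158, nat_lit 23842224, nat_lit 4289618, nat_lit 4547557, true, true⟩,
 nat_lit 0, nat_lit 0, nat_lit 0, nat_lit 0, nat_lit 2622, nat_lit 0, nat_lit 42, nat_lit 0, nat_lit 0, nat_lit 0, nat_lit 0, nat_lit 0, nat_lit 0, nat_lit 0, nat_lit 0, nat_lit 250000, nat_lit 0, nat_lit 0, [(nat_lit 28, [(nat_lit 0, nat_lit 1000)])],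
 ⟨p122_k16, nat_lit 0, nat_lit 0, nat_lit 108, nat_lit 0, nat_lit 0, [nat_lit 781600001, nat_lit 1046000001, nat_lit 1376400000], [], [nat_lit 26413483512, nat_lit 26923919560, nat_lit 27397717818, nat_lit 27973314896, nat_lit 26969218586, nat_lit 27437233600, nat_lit 27874063987, nat_lit 28319546791], nat_lit 0, nat_lit 0, nat_lit 0, nat_lit 0, nat_lit 0, nat_lit 0, [], [nat_lit 35, nat_lit 40, nat_lit 40, nat_lit 80, nat_lit 22, nat_lit 249, nat_lit 40, nat_lit 9]⟩, C1.Rw.none,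
 ⟨nat_lit 0, nat_lit 1582, ⟨.ofNat (nat_lit 757165), .ofNat (nat_lit 789945), .ofNat (nat_lit 768823), .ofNat (nat_lit 801603), .ofNat (nat_lit 749998), .ofNat (nat_lit 779997), .ofNat (nat_lit 762499), .ofNat (nat_lit 792497)⟩, ⟨.ofNat (nat_lit 196201), .ofNat (nat_lit 305469), .ofNat (nat_lit 200000), .ofNat (nat_lit 352101), .ofNat (nat_lit 199999), .ofNat (nat_lit 299995), .ofNat (nat_lit 200000), .ofNat (nat_lit 349997)⟩⟩, [⟨nat_lit 13, nat_lit 35, nat_lit 79, nat_lit 100, nat_lit 596630269⟩]⟩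
noncomputable def p122_l80 : Lf2 := ⟨nat_lit 0, nat_lit 20, [nat_lit 5, nat_lit 5, nat_lit 5, nat_lit 20], false, nat_lit 80, nat_lit 160, nat_lit 0, nat_lit 328, ⟨nat_lit 111, nat_lit 889, nat_lit 0, nat_lit 8, nat_lit 317, nat_lit 889, nat_lit 105, nat_lit 0, nat_lit 0, nat_lit 0, nat_lit 0, nat_lit 0, nat_lit 38269510, nat_lit 24485402, nat_lit 4245088, nat_lit 4562047, true, true⟩,
 nat_lit 0, nat_lit 0, nat_lit 1239, nat_lit 0, nat_lit 2779, nat_lit 822, nat_lit 61, nat_lit 0, nat_lit 0, nat_lit 75, nat_lit 0, nat_lit 0, nat_lit 0, nat_lit 0, nat_lit 0, nat_lit 222250, nat_lit 0, nat_lit 0, [(nat_lit 28, [(nat_lit 0, nat_lit 889)])],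
 ⟨p122_k16, nat_lit 0, nat_lit 0, nat_lit 110, nat_lit 0, nat_lit 0, [nat_lit 798960400, nat_lit 1294196001, nat_lit 1743987600], [], [nat_lit 26568833702, nat_lit 27133718964, nat_lit 28067663346, nat_lit 28645171108, nat_lit 27045858965, nat_lit 27499929911, nat_lit 28248536189, nat_lit 28771489868], nat_lit 0, nat_lit 0, nat_lit 0, nat_lit 0, nat_lit 0, nat_lit 0, [], [nat_lit 35, nat_lit 40, nat_lit 40, nat_lit 80, nat_lit 22, nat_lit 249, nat_lit 40, nat_lit 9]⟩, ⟨p122_k15, nat_lit 0, nat_lit 0, nat_lit 864, nat_lit 0, nat_lit 1419729, [nat_lit 364302000, nat_lit 693750000, nat_lit 1317792000], [], [nat_lit 4074626316, nat_lit 4088834034, nat_lit 4139980080, nat_lit 4152261086, nat_lit 3624611858, nat_lit 3629100396, nat_lit 3654854244, nat_lit 3660343310], nat_lit 1271250, nat_lit 1271250, nat_lit 1271250, nat_lit 1271250, nat_lit 0, nat_lit 2316500, [nat_lit 780000, nat_lit 1435000, nat_lit 1271250], [nat_lit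 23, nat_lit 40, nat_lit 40, nat_lit 80, nat_lit 12, nat_lit 401, nat_lit 175, nat_lit 10]⟩,
 ⟨nat_lit 0, nat_lit 1582, ⟨.ofNat (nat_lit 768823), .ofNat (nat_lit 812530), .ofNat (nat_lit 780481), .ofNat (nat_lit 824188), .ofNat (nat_lit 762499), .ofNat (nat_lit 802497), .ofNat (nat_lit 774999), .ofNat (nat_lit 814997)⟩, ⟨.ofNat (nat_lit 196201), .ofNat (nat_lit 305469), .ofNat (nat_lit 200000), .ofNat (nat_lit 352101), .ofNat (nat_lit 199999), .ofNat (nat_lit 299995), .ofNat (nat_lit 200000), .ofNat (nat_lit 349997)⟩⟩, [⟨nat_lit 13, nat_lit 25, nat_lit 86, nat_lit 100, nat_lit 97514851⟩, ⟨nat_lit 13, nat_lit 36, nat_lit 77, nat_lit 100, nat_lit 324943084⟩, ⟨nat_lit 10, nat_lit 77, nat_lit 74, nat_lit 100, nat_lit 18143961⟩]⟩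
noncomputable def b_V_900_700_20_13 : St := ⟨true, nat_lit 0, nat_lit 1, nat_lit 1, nat_lit 120, nat_lit 360, nat_lit 400, nat_lit 280, nat_lit 300, nat_lit 320, nat_lit 392, nat_lit 80, nat_lit 120, nat_lit 80, nat_lit 160, nat_lit 0, nat_lit 336, nat_lit 40, nat_lit 80, nat_lit 0, nat_lit 0, nat_lit 0, nat_lit 0⟩
theorem d_V_900_700_20_13 (h : EB TB.env) : Dead b_V_900_700_20_13 := chkB_sound0 h (T :=
(.trX (nat_lit 13) (nat_lit 69) (nat_lit 45) (nat_lit 100) (nat_lit 384) (.spl (nat_lit 0) (nat_lit 380)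
(.spl (nat_lit 1) (nat_lit 290)
(.trX (nat_lit 13) (nat_lit 67) (nat_lit 50) (nat_lit 100) (nat_lit 380) (.spl (nat_lit 5) (nat_lit 160)
(.leaf p122_l58)
(.spl (nat_lit 2) (nat_lit 360)
(.spl (nat_lit 0) (nat_lit 370)
(.leaf p122_l59)
(.spl (nat_lit 1) (nat_lit 285)
(.spl (nat_lit 0) (nat_lit 375)
(.leaf p122_l60)
(.leaf p122_l61))
(.trX (nat_lit 19) (nat_lit 99) (nat_lit 82) (nat_lit 100) (nat_lit 332) (.spl (nat_lit 0) (nat_lit 375)
(.leaf p122_l62)
(.leaf p122_l63)))))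
(.trX (nat_lit 22) (nat_lit 61) (nat_lit 92) (nat_lit 100) (nat_lit 288) (.leaf p122_l64)))))
(.trX (nat_lit 19) (nat_lit 97) (nat_lit 84) (nat_lit 100) (nat_lit 328) (.spl (nat_lit 2) (nat_lit 360)
(.spl (nat_lit 5) (nat_lit 160)
(.leaf p122_l65)
(.spl (nat_lit 0) (nat_lit 370)
(.leaf p122_l66)
(.spl (nat_lit 0) (nat_lit 375)
(.leaf p122_l67)
(.leaf p122_l68))))
(.trZ (nat_lit 9) (nat_lit 100) (nat_lit 75) (nat_lit 35) (nat_lit 8) (.trX (nat_lit 22) (nat_lit 61) (nat_lit 92) (nat_lit 100) (nat_lit 288) (.spl (nat_lit 0) (nat_lit 370)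
(.leaf p122_l69)
(.trX (nat_lit 13) (nat_lit 61) (nat_lit 55) (nat_lit 100) (nat_lit 380) (.leaf p122_l70))))))))
(.trX (nat_lit 13) (nat_lit 50) (nat_lit 65) (nat_lit 100) (nat_lit 368) (.spl (nat_lit 0) (nat_lit 390)
(.spl (nat_lit 1) (nat_lit 290)
(.trX (nat_lit 13) (nat_lit 49) (nat_lit 68) (nat_lit 100) (nat_lit 360) (.spl (nat_lit 1) (nat_lit 285)
(.trX (nat_lit 13) (nat_lit 48) (nat_lit 70) (nat_lit 100) (nat_lit 356) (.leaf p122_l71))
(.trX (nat_lit 19) (nat_lit 99) (nat_lit 82) (nat_lit 100) (nat_lit 332) (.spl (nat_lit 1) (nat_lit 288)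
(.leaf p122_l72)
(.leaf p122_l73)))))
(.trX (nat_lit 19) (nat_lit 97) (nat_lit 84) (nat_lit 100) (nat_lit 328) (.spl (nat_lit 5) (nat_lit 160)
(.leaf p122_l74)
(.spl (nat_lit 1) (nat_lit 295)
(.trX (nat_lit 13) (nat_lit 50) (nat_lit 66) (nat_lit 100) (nat_lit 364) (.spl (nat_lit 0) (nat_lit 385)
(.leaf p122_l75)
(.trX (nat_lit 13) (nat_lit 43) (nat_lit 72) (nat_lit 100) (nat_lit 356) (.leaf p122_l76))))
(.trX (nat_lit 19) (nat_lit 96) (nat_lit 86) (nat_lit 100) (nat_lit 324) (.spl (nat_lit 0) (nat_lit 385)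
(.leaf p122_l77)
(.trX (nat_lit 13) (nat_lit 44) (nat_lit 71) (nat_lit 100) (nat_lit 360) (.leaf p122_l78))))))))
(.trX (nat_lit 13) (nat_lit 36) (nat_lit 77) (nat_lit 100) (nat_lit 352) (.spl (nat_lit 1) (nat_lit 290)
(.trX (nat_lit 13) (nat_lit 35) (nat_lit 79) (nat_lit 100) (nat_lit 344) (.leaf p122_l79))
(.trX (nat_lit 19) (nat_lit 97) (nat_lit 84) (nat_lit 100) (nat_lit 328) (.leaf p122_l80))))))))) (by decide +kernel)
noncomputable def p122_l81 : Lf2 := ⟨nat_lit 0, nat_lit 20, [nat_lit 5, nat_lit 5, nat_lit 5, nat_lit 20], false, nat_lit 80, nat_lit 160, nat_lit 0, nat_lit 160, ⟨nat_lit 1000, nat_lit 0, nat_lit 0, nat_lit 0, nat_lit 0, nat_lit 0, nat_lit 0, nat_lit 0, nat_lit 0, nat_lit 0, nat_lit 0, nat_lit 0, nat_lit 0, nat_lit 0, nat_lit 0, nat_lit 0, false, false⟩,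
 nat_lit 0, nat_lit 0, nat_lit 8305, nat_lit 0, nat_lit 4632, nat_lit 5749, nat_lit 441, nat_lit 0, nat_lit 0, nat_lit 1479, nat_lit 0, nat_lit 0, nat_lit 0, nat_lit 0, nat_lit 0, nat_lit 0, nat_lit 0, nat_lit 0, [],
 ⟨p122_k8, nat_lit 0, nat_lit 0, nat_lit 128, nat_lit 0, nat_lit 0, [nat_lit 938000000, nat_lit 3282000000, nat_lit 6250000000], [], [nat_lit 27767073741, nat_lit 28938532669, nat_lit 32088421767, nat_lit 33387066672, nat_lit 27666988781, nat_lit 28731698160, nat_lit 31300808935, nat_lit 32485871101], nat_lit 0, nat_lit 0, nat_lit 0, nat_lit 0, nat_lit 0, nat_lit 0, [], [nat_lit 20, nat_lit 40, nat_lit 40, nat_lit 80, nat_lit 16, nat_lit 249, nat_lit 40, nat_lit 8]⟩, ⟨p122_k11, nat_lit 0, nat_lit 0, nat_lit 711, nat_lit 0, nat_lit 1185407, [nat_lit 3282000000, nat_lit 6250000000, nat_lit 9842000000], [], [nat_lit 32087427781, nat_lit 32521947523, nat_lit 35401311869, nat_lit 36594277816, nat_lit 29853356653,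 nat_lit 30209527747, nat_lit 31583165655, nat_lit 31911938476], nat_lit 1271250, nat_lit 1271250, nat_lit 1271250, nat_lit 1271250, nat_lit 0, nat_lit 1100001, [nat_lit 780000, nat_lit 1435000, nat_lit 1271250], [nat_lit 8, nat_lit 40, nat_lit 40, nat_lit 80, nat_lit 1, nat_lit 287, nat_lit 40, nat_lit 7]⟩,
 zbF0, []⟩
noncomputable def p122_l82 : Lf2 := ⟨nat_lit 0, nat_lit 20, [nat_lit 5, nat_lit 5, nat_lit 5, nat_lit 20], false, nat_lit 80, nat_lit 160, nat_lit 160, nat_lit 320, ⟨nat_lit 1000, nat_lit 0, nat_lit 0, nat_lit 0, nat_lit 0, nat_lit 0, nat_lit 0, nat_lit 0, nat_lit 0, nat_lit 0, nat_lit 0, nat_lit 0, nat_lit 0, nat_lit 0, nat_lit 0, nat_lit 0, false, false⟩,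
 nat_lit 0, nat_lit 0, nat_lit 7810, nat_lit 0, nat_lit 4682, nat_lit 5406, nat_lit 401, nat_lit 0, nat_lit 0, nat_lit 1483, nat_lit 0, nat_lit 0, nat_lit 0, nat_lit 0, nat_lit 0, nat_lit 0, nat_lit 0, nat_lit 0, [],
 ⟨p122_k8, nat_lit 0, nat_lit 0, nat_lit 126, nat_lit 0, nat_lit 0, [nat_lit 938000000, nat_lit 3282000000, nat_lit 6250000000], [], [nat_lit 28036378141, nat_lit 28625243955, nat_lit 32183346527, nat_lit 32836182750, nat_lit 27919004181, nat_lit 28452861201, nat_lit 31370864895, nat_lit 31966469608], nat_lit 0, nat_lit 0, nat_lit 0, nat_lit 0, nat_lit 0, nat_lit 0, [], [nat_lit 20, nat_lit 40, nat_lit 40, nat_lit 80, nat_lit 16, nat_lit 249, nat_lit 40, nat_lit 8]⟩, ⟨p122_k11, nat_lit 0, nat_lit 0, nat_lit 505, nat_lit 0, nat_lit 985614, [nat_lit 3282000000, nat_lit 6250000000, nat_lit 9842000000], [], [nat_lit 29360235107, nat_lit 29589854755, nat_lit 31451387579, nat_lit 31636086506, nat_lit 31130846047,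 nat_lit 31291363425, nat_lit 32975311177, nat_lit 33327490904], nat_lit 1271250, nat_lit 1271250, nat_lit 1271250, nat_lit 1271250, nat_lit 1100001, nat_lit 2470000, [nat_lit 780000, nat_lit 1435000, nat_lit 1271250], [nat_lit 8, nat_lit 40, nat_lit 40, nat_lit 80, nat_lit 1, nat_lit 317, nat_lit 100, nat_lit 8]⟩,
 zbF0, [⟨nat_lit 7, nat_lit 100, nat_lit 97, nat_lit 98, nat_lit 292094010⟩]⟩
noncomputable def p122_l83 : Lf2 := ⟨nat_lit 0, nat_lit 20, [nat_lit 5, nat_lit 5, nat_lit 5, nat_lit 20], false, nat_lit 80, nat_lit 160, nat_lit 160, nat_lit 320, ⟨nat_lit 660, nat_lit 340, nat_lit 0, nat_lit 8, nat_lit 336, nat_lit 340, nat_lit 105, nat_lit 0, nat_lit 0, nat_lit 0, nat_lit 0, nat_lit 0, nat_lit 36705892, nat_lit 26191722, nat_lit 4102386, nat_lit 4585445, true, true⟩,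
 nat_lit 0, nat_lit 0, nat_lit 5396, nat_lit 0, nat_lit 3199, nat_lit 3735, nat_lit 390, nat_lit 0, nat_lit 0, nat_lit 825, nat_lit 0, nat_lit 0, nat_lit 0, nat_lit 0, nat_lit 0, nat_lit 85000, nat_lit 0, nat_lit 0, [(nat_lit 25, [(nat_lit 0, nat_lit 340)])],
 ⟨p122_k13, nat_lit 0, nat_lit 0, nat_lit 126, nat_lit 0, nat_lit 0, [nat_lit 878840000, nat_lit 2631512001, nat_lit 4845120000], [], [nat_lit 26656695398, nat_lit 27142014647, nat_lit 29449335229, nat_lit 30010801432, nat_lit 27044146913, nat_lit 27488245577, nat_lit 29488515113, nat_lit 29884790698], nat_lit 0, nat_lit 0, nat_lit 0, nat_lit 0, nat_lit 0, nat_lit 0, [], [nat_lit 20, nat_lit 40, nat_lit 40, nat_lit 80, nat_lit 16, nat_lit 249, nat_lit 40, nat_lit 8]⟩, ⟨p122_k11, nat_lit 0, nat_lit 0, nat_lit 576, nat_lit 0, nat_lit 1116530, [nat_lit 2166120000, nat_lit 4125000000, nat_lit 6495720000], [], [nat_lit 20180033385, nat_lit 20295115440, nat_lit 21147185673,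 nat_lit 21240364675, nat_lit 20903838435, nat_lit 20980812345, nat_lit 21783696504, nat_lit 21870008931], nat_lit 1271250, nat_lit 1271250, nat_lit 1271250, nat_lit 1271250, nat_lit 1100001, nat_lit 2470000, [nat_lit 780000, nat_lit 1435000, nat_lit 1271250], [nat_lit 8, nat_lit 40, nat_lit 40, nat_lit 80, nat_lit 1, nat_lit 317, nat_lit 100, nat_lit 8]⟩,
 ⟨nat_lit 2236, nat_lit 2739, ⟨.ofNat (nat_lit 789269), .ofNat (nat_lit 883768), .ofNat (nat_lit 800472), .ofNat (nat_lit 894976), .ofNat (nat_lit 784917), .ofNat (nat_lit 876141), .ofNat (nat_lit 796297), .ofNat (nat_lit 887529)⟩, ⟨.ofNat (nat_lit 188310), .ofNat (nat_lit 306433), .ofNat (nat_lit 200000), .ofNat (nat_lit 351268), .ofNat (nat_lit 192306), .ofNat (nat_lit 306337), .ofNat (nat_lit 200000), .ofNat (nat_lit 351886)⟩⟩, [⟨nat_lit 7, nat_lit 100, nat_lit 97, nat_lit 98, nat_lit 176392583⟩, ⟨nat_lit 10, nat_lit 100, nat_lit 59, nat_lit 94, nat_lit 364327⟩]⟩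
noncomputable def p122_l84 : Lf2 := ⟨nat_lit 0, nat_lit 20, [nat_lit 5, nat_lit 5, nat_lit 5, nat_lit 20], false, nat_lit 80, nat_lit 160, nat_lit 160, nat_lit 312, ⟨nat_lit 763, nat_lit 237, nat_lit 0, nat_lit 8, nat_lit 344, nat_lit 237, nat_lit 105, nat_lit 0, nat_lit 0, nat_lit 0, nat_lit 0, nat_lit 0, nat_lit 36052127, nat_lit 26913312, nat_lit 4034561, nat_lit 4589488, true, true⟩,
 nat_lit 0, nat_lit 0, nat_lit 5833, nat_lit 0, nat_lit 3739, nat_lit 4205, nat_lit 238, nat_lit 0, nat_lit 0, nat_lit 753, nat_lit 0, nat_lit 0, nat_lit 0, nat_lit 0, nat_lit 0, nat_lit 237000, nat_lit 0, nat_lit 0, [(nat_lit 25, [(nat_lit 2, nat_lit 237)])],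
 ⟨p122_k8, nat_lit 0, nat_lit 0, nat_lit 128, nat_lit 0, nat_lit 0, [nat_lit 1063704801, nat_lit 2413884800, nat_lit 3844734400], [], [nat_lit 27020249482, nat_lit 28079677988, nat_lit 30393065553, nat_lit 31566198594, nat_lit 27249798579, nat_lit 28194734787, nat_lit 30275814360, nat_lit 31128545689], nat_lit 0, nat_lit 0, nat_lit 0, nat_lit 0, nat_lit 0, nat_lit 0, [], [nat_lit 20, nat_lit 40, nat_lit 40, nat_lit 80, nat_lit 16, nat_lit 249, nat_lit 40, nat_lit 8]⟩, ⟨p122_k17, nat_lit 0, nat_lit 0, nat_lit 576, nat_lit 0, nat_lit 1118502, [nat_lit 2504166000, nat_lit 4768750000, nat_lit 7509446000], [], [nat_lit 22912091955, nat_lit 23089346682, nat_lit 24485543702, nat_lit 24628429753, nat_lit 24154032027, nat_lit 24280900700, nat_lit 25473603226, nat_lit 25607738921], nat_lit 1271250, nat_lit 1271250, nat_lit 1271250, nat_lit 1271250, nat_lit 1100001, nat_lit 2401500, [nat_lit 780000, nat_lit 1435000, nat_lit 1271250],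 [nat_lit 8, nat_lit 40, nat_lit 40, nat_lit 80, nat_lit 1, nat_lit 317, nat_lit 100, nat_lit 8]⟩,
 ⟨nat_lit 2236, nat_lit 3163, ⟨.ofNat (nat_lit 804673), .ofNat (nat_lit 914427), .ofNat (nat_lit 815720), .ofNat (nat_lit 925504), .ofNat (nat_lit 796267), .ofNat (nat_lit 898932), .ofNat (nat_lit 807623), .ofNat (nat_lit 910319)⟩, ⟨.ofNat (nat_lit 184209), .ofNat (nat_lit 306116), .ofNat (nat_lit 200000), .ofNat (nat_lit 350426), .ofNat (nat_lit 192306), .ofNat (nat_lit 306337), .ofNat (nat_lit 200000), .ofNat (nat_lit 351886)⟩⟩, [⟨nat_lit 7, nat_lit 100, nat_lit 90, nat_lit 95, nat_lit 236323757⟩]⟩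
noncomputable def p122_l85 : Lf2 := ⟨nat_lit 0, nat_lit 20, [nat_lit 5, nat_lit 5, nat_lit 5, nat_lit 20], false, nat_lit 80, nat_lit 160, nat_lit 0, nat_lit 300, ⟨nat_lit 311, nat_lit 689, nat_lit 0, nat_lit 8, nat_lit 330, nat_lit 689, nat_lit 103, nat_lit 0, nat_lit 0, nat_lit 0, nat_lit 0, nat_lit 0, nat_lit 37259662, nat_lit 25709502, nat_lit 4030836, nat_lit 4557801, true, true⟩,
 nat_lit 0, nat_lit 0, nat_lit 2968, nat_lit 0, nat_lit 2484, nat_lit 2054, nat_lit 171, nat_lit 0, nat_lit 0, nat_lit 210, nat_lit 0, nat_lit 0, nat_lit 0, nat_lit 0, nat_lit 0, nat_lit 275600, nat_lit 0, nat_lit 0, [(nat_lit 28, [(nat_lit 1, nat_lit 689)])],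
 ⟨p122_k10, nat_lit 0, nat_lit 0, nat_lit 126, nat_lit 0, nat_lit 0, [nat_lit 772364400, nat_lit 1244489200, nat_lit 2038832000], [], [nat_lit 25842365367, nat_lit 26316486491, nat_lit 27978089484, nat_lit 28503430872, nat_lit 26442312063, nat_lit 26878132031, nat_lit 28351342440, nat_lit 28748102373], nat_lit 0, nat_lit 0, nat_lit 0, nat_lit 0, nat_lit 0, nat_lit 0, [], [nat_lit 20, nat_lit 40, nat_lit 40, nat_lit 80, nat_lit 16, nat_lit 249, nat_lit 40, nat_lit 8]⟩, ⟨p122_k11, nat_lit 0, nat_lit 0, nat_lit 725, nat_lit 0, nat_lit 1222735, [nat_lit 1020702000, nat_lit 1943750000, nat_lit 3060862000], [], [nat_lit 10746000308, nat_lit 10808029600, nat_lit 11174995151, nat_lit 11238216577, nat_lit 9852284675, nat_lit 9882840715, nat_lit 10111292729, nat_lit 10146229126], nat_lit 1271250, nat_lit 1271250, nat_lit 1271250, nat_lit 1271250, nat_lit 0, nat_lit 2118750, [nat_lit 780000, nat_lit 1435000, nat_lit 1271250],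 [nat_lit 8, nat_lit 40, nat_lit 40, nat_lit 80, nat_lit 1, nat_lit 304, nat_lit 75, nat_lit 8]⟩,
 ⟨nat_lit 1581, nat_lit 2237, ⟨.ofNat (nat_lit 784917), .ofNat (nat_lit 859037), .ofNat (nat_lit 796304), .ofNat (nat_lit 870424), .ofNat (nat_lit 780481), .ofNat (nat_lit 851507), .ofNat (nat_lit 792138), .ofNat (nat_lit 863165)⟩, ⟨.ofNat (nat_lit 192306), .ofNat (nat_lit 306337), .ofNat (nat_lit 200000), .ofNat (nat_lit 329112), .ofNat (nat_lit 196201), .ofNat (nat_lit 305473), .ofNat (nat_lit 200000), .ofNat (nat_lit 328788)⟩⟩, [⟨nat_lit 13, nat_lit 36, nat_lit 77, nat_lit 100, nat_lit 243004258⟩, ⟨nat_lit 16, nat_lit 39, nat_lit 100, nat_lit 85, nat_lit 218380046⟩, ⟨nat_lit 7, nat_lit 100, nat_lit 94, nat_lit 92, nat_lit 43959376⟩]⟩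
noncomputable def p122_l86 : Lf2 := ⟨nat_lit 0, nat_lit 20, [nat_lit 5, nat_lit 5, nat_lit 5, nat_lit 20], false, nat_lit 80, nat_lit 160, nat_lit 0, nat_lit 320, ⟨nat_lit 575, nat_lit 425, nat_lit 0, nat_lit 8, nat_lit 330, nat_lit 425, nat_lit 108, nat_lit 0, nat_lit 0, nat_lit 0, nat_lit 0, nat_lit 0, nat_lit 37018625, nat_lit 25655788, nat_lit 4325587, nat_lit 4614894, true, true⟩,
 nat_lit 0, nat_lit 0, nat_lit 4831, nat_lit 0, nat_lit 2620, nat_lit 3344, nat_lit 301, nat_lit 0, nat_lit 0, nat_lit 671, nat_lit 0, nat_lit 0, nat_lit 0, nat_lit 0, nat_lit 0, nat_lit 170000, nat_lit 0, nat_lit 0, [(nat_lit 28, [(nat_lit 1, nat_lit 425)])],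
 ⟨p122_k10, nat_lit 0, nat_lit 0, nat_lit 124, nat_lit 0, nat_lit 0, [nat_lit 835830000, nat_lit 2025190001, nat_lit 3652400000], [], [nat_lit 26014369185, nat_lit 26256085095, nat_lit 28235109220, nat_lit 28503048480, nat_lit 26565137465, nat_lit 26787076585, nat_lit 28502566545, nat_lit 28701873390], nat_lit 0, nat_lit 0, nat_lit 0, nat_lit 0, nat_lit 0, nat_lit 0, [], [nat_lit 20, nat_lit 40, nat_lit 40, nat_lit 80, nat_lit 16, nat_lit 249, nat_lit 40, nat_lit 8]⟩, ⟨p122_k11, nat_lit 0, nat_lit 0, nat_lit 625, nat_lit 0, nat_lit 1009304, [nat_lit 1887150000, nat_lit 3593750000, nat_lit 5659150000], [], [nat_lit 19090872241, nat_lit 19212879121, nat_lit 19897062342, nat_lit 20000314552, nat_lit 18148792691, nat_lit 18215043630, nat_lit 18690984928, nat_lit 18757210204], nat_lit 1271250, nat_lit 1271250, nat_lit 1271250, nat_lit 1271250, nat_lit 0, nat_lit 2260000, [nat_lit 780000, nat_lit 1435000, nat_lit 1271250],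 [nat_lit 8, nat_lit 40, nat_lit 40, nat_lit 80, nat_lit 1, nat_lit 317, nat_lit 100, nat_lit 8]⟩,
 ⟨nat_lit 1936, nat_lit 2237, ⟨.ofNat (nat_lit 784917), .ofNat (nat_lit 859037), .ofNat (nat_lit 796304), .ofNat (nat_lit 870424), .ofNat (nat_lit 782720), .ofNat (nat_lit 855376), .ofNat (nat_lit 794226), .ofNat (nat_lit 866881)⟩, ⟨.ofNat (nat_lit 200000), .ofNat (nat_lit 329112), .ofNat (nat_lit 200000), .ofNat (nat_lit 351886), .ofNat (nat_lit 200000), .ofNat (nat_lit 329055), .ofNat (nat_lit 200000), .ofNat (nat_lit 352066)⟩⟩, [⟨nat_lit 7, nat_lit 95, nat_lit 95, nat_lit 100, nat_lit 80644438⟩, ⟨nat_lit 22, nat_lit 73, nat_lit 100, nat_lit 97, nat_lit 14841664⟩]⟩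
noncomputable def p122_l87 : Lf2 := ⟨nat_lit 0, nat_lit 20, [nat_lit 5, nat_lit 5, nat_lit 5, nat_lit 20], false, nat_lit 80, nat_lit 160, nat_lit 0, nat_lit 320, ⟨nat_lit 275, nat_lit 725, nat_lit 0, nat_lit 8, nat_lit 328, nat_lit 725, nat_lit 108, nat_lit 0, nat_lit 0, nat_lit 0, nat_lit 0, nat_lit 0, nat_lit 37209287, nat_lit 25449834, nat_lit 4340879, nat_lit 4611907, true, true⟩,
 nat_lit 0, nat_lit 0, nat_lit 2538, nat_lit 0, nat_lit 2689, nat_lit 1756, nat_lit 147, nat_lit 0, nat_lit 0, nat_lit 211, nat_lit 0, nat_lit 0, nat_lit 0, nat_lit 0, nat_lit 0, nat_lit 181250, nat_lit 0, nat_lit 0, [(nat_lit 28, [(nat_lit 0, nat_lit 725)])],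
 ⟨p122_k18, nat_lit 0, nat_lit 0, nat_lit 111, nat_lit 0, nat_lit 0, [nat_lit 824610001, nat_lit 1660900001, nat_lit 2287090000], [], [nat_lit 26244738977, nat_lit 26484998122, nat_lit 28427027671, nat_lit 28700484673, nat_lit 26798111225, nat_lit 27017882901, nat_lit 28646545355, nat_lit 28859852943], nat_lit 0, nat_lit 0, nat_lit 0, nat_lit 0, nat_lit 0, nat_lit 0, [], [nat_lit 35, nat_lit 40, nat_lit 40, nat_lit 80, nat_lit 22, nat_lit 249, nat_lit 40, nat_lit 9]⟩, ⟨p122_k11, nat_lit 0, nat_lit 0, nat_lit 648, nat_lit 0, nat_lit 1075254, [nat_lit 902550000, nat_lit 1718750000, nat_lit 2706550000], [], [nat_lit 9448945109, nat_lit 9507765529, nat_lit 9810547379, nat_lit 9860460964, nat_lit 8825401159, nat_lit 8855677070, nat_lit 9034441890, nat_lit 9058881630], nat_lit 1271250, nat_lit 1271250, nat_lit 1271250, nat_lit 1271250, nat_lit 0, nat_lit 2260000, [nat_lit 780000, nat_lit 1435000, nat_lit 1271250], [nat_lit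 8, nat_lit 40, nat_lit 40, nat_lit 80, nat_lit 1, nat_lit 317, nat_lit 100, nat_lit 8]⟩,
 ⟨nat_lit 1581, nat_lit 1937, ⟨.ofNat (nat_lit 782720), .ofNat (nat_lit 849787), .ofNat (nat_lit 794226), .ofNat (nat_lit 861293), .ofNat (nat_lit 780481), .ofNat (nat_lit 846044), .ofNat (nat_lit 792138), .ofNat (nat_lit 857701)⟩, ⟨.ofNat (nat_lit 200000), .ofNat (nat_lit 329055), .ofNat (nat_lit 200000), .ofNat (nat_lit 352066), .ofNat (nat_lit 200000), .ofNat (nat_lit 328788), .ofNat (nat_lit 200000), .ofNat (nat_lit 352103)⟩⟩, [⟨nat_lit 13, nat_lit 36, nat_lit 77, nat_lit 100, nat_lit 306179208⟩, ⟨nat_lit 4, nat_lit 100, nat_lit 35, nat_lit 90, nat_lit 73257893⟩, ⟨nat_lit 19, nat_lit 95, nat_lit 95, nat_lit 100, nat_lit 40467267⟩]⟩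
noncomputable def p122_l88 : Lf2 := ⟨nat_lit 0, nat_lit 20, [nat_lit 5, nat_lit 5, nat_lit 5, nat_lit 20], false, nat_lit 80, nat_lit 160, nat_lit 0, nat_lit 320, ⟨nat_lit 207, nat_lit 793, nat_lit 0, nat_lit 8, nat_lit 324, nat_lit 793, nat_lit 105, nat_lit 0, nat_lit 0, nat_lit 0, nat_lit 0, nat_lit 0, nat_lit 37677416, nat_lit 25122560, nat_lit 4200024, nat_lit 4574134, true, true⟩,
 nat_lit 0, nat_lit 0, nat_lit 2004, nat_lit 0, nat_lit 2705, nat_lit 1387, nat_lit 100, nat_lit 0, nat_lit 0, nat_lit 125, nat_lit 0, nat_lit 0, nat_lit 0, nat_lit 0, nat_lit 0, nat_lit 198250, nat_lit 0, nat_lit 0, [(nat_lit 28, [(nat_lit 0, nat_lit 793)])],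
 ⟨p122_k16, nat_lit 0, nat_lit 0, nat_lit 112, nat_lit 0, nat_lit 0, [nat_lit 813974801, nat_lit 1508852001, nat_lit 2061901200], [], [nat_lit 26531804202, nat_lit 27048463922, nat_lit 28318101175, nat_lit 28877702880, nat_lit 27057767157, nat_lit 27530638022, nat_lit 28578762707, nat_lit 29013831782], nat_lit 0, nat_lit 0, nat_lit 0, nat_lit 0, nat_lit 0, nat_lit 0, [], [nat_lit 35, nat_lit 40, nat_lit 40, nat_lit 80, nat_lit 22, nat_lit 249, nat_lit 40, nat_lit 9]⟩, ⟨p122_k11, nat_lit 0, nat_lit 0, nat_lit 788, nat_lit 0, nat_lit 1394307, [nat_lit 679374000, nat_lit 1293750000, nat_lit 2037294000], [], [nat_lit 7306077244, nat_lit 7344962493, nat_lit 7516582568, nat_lit 7552192563, nat_lit 6644240549, nat_lit 6659395648, nat_lit 6755387099, nat_lit 6777320291], nat_lit 1271250, nat_lit 1271250, nat_lit 1271250, nat_lit 1271250, nat_lit 0, nat_lit 2260000, [nat_lit 780000, nat_lit 1435000, nat_lit 1271250], [nat_lit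 8, nat_lit 40, nat_lit 40, nat_lit 80, nat_lit 1, nat_lit 321, nat_lit 100, nat_lit 8]⟩,
 ⟨nat_lit 0, nat_lit 1582, ⟨.ofNat (nat_lit 780481), .ofNat (nat_lit 835115), .ofNat (nat_lit 792138), .ofNat (nat_lit 846773), .ofNat (nat_lit 774999), .ofNat (nat_lit 824997), .ofNat (nat_lit 787499), .ofNat (nat_lit 837498)⟩, ⟨.ofNat (nat_lit 196201), .ofNat (nat_lit 305469), .ofNat (nat_lit 200000), .ofNat (nat_lit 352101), .ofNat (nat_lit 199999), .ofNat (nat_lit 299995), .ofNat (nat_lit 200000), .ofNat (nat_lit 349997)⟩⟩, [⟨nat_lit 13, nat_lit 26, nat_lit 84, nat_lit 100, nat_lit 291599852⟩, ⟨nat_lit 13, nat_lit 37, nat_lit 74, nat_lit 100, nat_lit 141859014⟩, ⟨nat_lit 16, nat_lit 23, nat_lit 100, nat_lit 91, nat_lit 99405420⟩, ⟨nat_lit 19, nat_lit 97, nat_lit 100, nat_lit 98, nat_lit 27625695⟩]⟩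
noncomputable def p122_l89 : Lf2 := ⟨nat_lit 0, nat_lit 20, [nat_lit 5, nat_lit 5, nat_lit 5, nat_lit 20], false, nat_lit 80, nat_lit 160, nat_lit 0, nat_lit 312, ⟨nat_lit 405, nat_lit 595, nat_lit 0, nat_lit 8, nat_lit 337, nat_lit 595, nat_lit 105, nat_lit 0, nat_lit 0, nat_lit 0, nat_lit 0, nat_lit 0, nat_lit 36602895, nat_lit 26279742, nat_lit 4117363, nat_lit 4590717, true, true⟩,
 nat_lit 0, nat_lit 0, nat_lit 3314, nat_lit 0, nat_lit 2517, nat_lit 2389, nat_lit 212, nat_lit 0, nat_lit 0, nat_lit 300, nat_lit 0, nat_lit 0, nat_lit 0, nat_lit 0, nat_lit 0, nat_lit 238000, nat_lit 0, nat_lit 0, [(nat_lit 28, [(nat_lit 1, nat_lit 595)])],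
 ⟨p122_k10, nat_lit 0, nat_lit 0, nat_lit 128, nat_lit 0, nat_lit 0, [nat_lit 794962001, nat_lit 1522466000, nat_lit 2613360000], [], [nat_lit 25975385048, nat_lit 26451765385, nat_lit 28454066493, nat_lit 28971081401, nat_lit 26563398746, nat_lit 27001174030, nat_lit 28788876000, nat_lit 29175821020], nat_lit 0, nat_lit 0, nat_lit 0, nat_lit 0, nat_lit 0, nat_lit 0, [], [nat_lit 20, nat_lit 40, nat_lit 40, nat_lit 80, nat_lit 16, nat_lit 249, nat_lit 40, nat_lit 8]⟩, ⟨p122_k17, nat_lit 0, nat_lit 0, nat_lit 731, nat_lit 0, nat_lit 1243573, [nat_lit 1329210000, nat_lit 2531250000, nat_lit 3986010000], [], [nat_lit 13620796284, nat_lit 13697705168, nat_lit 14266633288, nat_lit 14513942202, nat_lit 13051749528, nat_lit 13101279389, nat_lit 13455453783, nat_lit 13494909385], nat_lit 1271250, nat_lit 1271250, nat_lit 1271250, nat_lit 1271250, nat_lit 0, nat_lit 2203500, [nat_lit 780000, nat_lit 1435000, nat_lit 1271250],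 [nat_lit 8, nat_lit 40, nat_lit 40, nat_lit 80, nat_lit 1, nat_lit 317, nat_lit 100, nat_lit 8]⟩,
 ⟨nat_lit 1581, nat_lit 2237, ⟨.ofNat (nat_lit 796304), .ofNat (nat_lit 881827), .ofNat (nat_lit 807675), .ofNat (nat_lit 893214), .ofNat (nat_lit 792138), .ofNat (nat_lit 874092), .ofNat (nat_lit 803781), .ofNat (nat_lit 885750)⟩, ⟨.ofNat (nat_lit 192306), .ofNat (nat_lit 306337), .ofNat (nat_lit 200000), .ofNat (nat_lit 351886), .ofNat (nat_lit 196201), .ofNat (nat_lit 305473), .ofNat (nat_lit 200000), .ofNat (nat_lit 352103)⟩⟩, [⟨nat_lit 13, nat_lit 37, nat_lit 74, nat_lit 100, nat_lit 160768965⟩, ⟨nat_lit 4, nat_lit 100, nat_lit 38, nat_lit 87, nat_lit 211062524⟩, ⟨nat_lit 19, nat_lit 90, nat_lit 100, nat_lit 95, nat_lit 67197302⟩]⟩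
noncomputable def p122_l90 : Lf2 := ⟨nat_lit 0, nat_lit 20, [nat_lit 5, nat_lit 5, nat_lit 5, nat_lit 20], false, nat_lit 80, nat_lit 160, nat_lit 0, nat_lit 312, ⟨nat_lit 294, nat_lit 706, nat_lit 0, nat_lit 8, nat_lit 330, nat_lit 706, nat_lit 105, nat_lit 0, nat_lit 0, nat_lit 0, nat_lit 0, nat_lit 0, nat_lit 37180303, nat_lit 25658272, nat_lit 4161425, nat_lit 4582574, true, true⟩,
 nat_lit 0, nat_lit 0, nat_lit 2502, nat_lit 0, nat_lit 2528, nat_lit 1803, nat_lit 157, nat_lit 0, nat_lit 0, nat_lit 206, nat_lit 0, nat_lit 0, nat_lit 0, nat_lit 0, nat_lit 0, nat_lit 176500, nat_lit 0, nat_lit 0, [(nat_lit 28, [(nat_lit 0, nat_lit 706)])],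
 ⟨p122_k16, nat_lit 0, nat_lit 0, nat_lit 113, nat_lit 0, nat_lit 0, [nat_lit 827581600, nat_lit 1703384000, nat_lit 2350010400], [], [nat_lit 26396339215, nat_lit 26899726767, nat_lit 28187283132, nat_lit 28726305421, nat_lit 26986406191, nat_lit 27448307727, nat_lit 28638440545, nat_lit 29060052716], nat_lit 0, nat_lit 0, nat_lit 0, nat_lit 0, nat_lit 0, nat_lit 0, [], [nat_lit 35, nat_lit 40, nat_lit 40, nat_lit 80, nat_lit 22, nat_lit 249, nat_lit 40, nat_lit 9]⟩, ⟨p122_k17, nat_lit 0, nat_lit 0, nat_lit 779, nat_lit 0, nat_lit 1373518, [nat_lit 964908000, nat_lit 1837500000, nat_lit 2893548000], [], [nat_lit 9890813164, nat_lit 9936972094, nat_lit 10163035549, nat_lit 10246881982, nat_lit 9339100443, nat_lit 9369224499, nat_lit 9518062994, nat_lit 9557614372], nat_lit 1271250, nat_lit 1271250, nat_lit 1271250, nat_lit 1271250, nat_lit 0, nat_lit 2203500, [nat_lit 780000, nat_lit 1435000, nat_lit 1271250], [nat_lit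 8, nat_lit 40, nat_lit 40, nat_lit 80, nat_lit 1, nat_lit 320, nat_lit 100, nat_lit 8]⟩,
 ⟨nat_lit 0, nat_lit 1582, ⟨.ofNat (nat_lit 792138), .ofNat (nat_lit 852236), .ofNat (nat_lit 803773), .ofNat (nat_lit 863894), .ofNat (nat_lit 787499), .ofNat (nat_lit 842497), .ofNat (nat_lit 799976), .ofNat (nat_lit 854998)⟩, ⟨.ofNat (nat_lit 196201), .ofNat (nat_lit 305469), .ofNat (nat_lit 200000), .ofNat (nat_lit 352101), .ofNat (nat_lit 199999), .ofNat (nat_lit 299995), .ofNat (nat_lit 200000), .ofNat (nat_lit 349997)⟩⟩, [⟨nat_lit 13, nat_lit 27, nat_lit 82, nat_lit 100, nat_lit 342950858⟩, ⟨nat_lit 16, nat_lit 23, nat_lit 100, nat_lit 91, nat_lit 234553132⟩, ⟨nat_lit 19, nat_lit 90, nat_lit 100, nat_lit 95, nat_lit 50277582⟩]⟩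
noncomputable def b_V_900_700_20_14 : St := ⟨true, nat_lit 0, nat_lit 1, nat_lit 1, nat_lit 120, nat_lit 360, nat_lit 400, nat_lit 300, nat_lit 320, nat_lit 320, nat_lit 392, nat_lit 80, nat_lit 120, nat_lit 80, nat_lit 160, nat_lit 0, nat_lit 336, nat_lit 40, nat_lit 80, nat_lit 0, nat_lit 0, nat_lit 0, nat_lit 0⟩
theorem d_V_900_700_20_14 (h : EB TB.env) : Dead b_V_900_700_20_14 := chkB_sound0 h (T :=
(.trX (nat_lit 19) (nat_lit 94) (nat_lit 88) (nat_lit 100) (nat_lit 320) (.spl (nat_lit 0) (nat_lit 380)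
(.spl (nat_lit 5) (nat_lit 160)
(.leaf p122_l81)
(.spl (nat_lit 1) (nat_lit 310)
(.spl (nat_lit 0) (nat_lit 370)
(.leaf p122_l82)
(.trX (nat_lit 13) (nat_lit 63) (nat_lit 50) (nat_lit 100) (nat_lit 384) (.leaf p122_l83)))
(.trX (nat_lit 19) (nat_lit 91) (nat_lit 91) (nat_lit 100) (nat_lit 312) (.leaf p122_l84))))
(.trX (nat_lit 13) (nat_lit 54) (nat_lit 57) (nat_lit 100) (nat_lit 380) (.spl (nat_lit 1) (nat_lit 310)
(.trX (nat_lit 13) (nat_lit 52) (nat_lit 61) (nat_lit 100) (nat_lit 372) (.spl (nat_lit 0) (nat_lit 390)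
(.spl (nat_lit 3) (nat_lit 100)
(.trX (nat_lit 19) (nat_lit 100) (nat_lit 100) (nat_lit 100) (nat_lit 300) (.leaf p122_l85))
(.spl (nat_lit 0) (nat_lit 385)
(.leaf p122_l86)
(.trX (nat_lit 13) (nat_lit 45) (nat_lit 67) (nat_lit 100) (nat_lit 368) (.leaf p122_l87))))
(.trX (nat_lit 13) (nat_lit 37) (nat_lit 74) (nat_lit 100) (nat_lit 360) (.leaf p122_l88))))
(.trX (nat_lit 19) (nat_lit 91) (nat_lit 91) (nat_lit 100) (nat_lit 312) (.spl (nat_lit 0) (nat_lit 390)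
(.leaf p122_l89)
(.trX (nat_lit 13) (nat_lit 39) (nat_lit 72) (nat_lit 100) (nat_lit 364) (.leaf p122_l90))))))))) (by decide +kernel)
noncomputable def p122_l91 : Lf2 := ⟨nat_lit 0, nat_lit 20, [nat_lit 5, nat_lit 5, nat_lit 5, nat_lit 20], false, nat_lit 160, nat_lit 248, nat_lit 0, nat_lit 336, ⟨nat_lit 120, nat_lit 880, nat_lit 0, nat_lit 7, nat_lit 275, nat_lit 880, nat_lit 155, nat_lit 0, nat_lit 0, nat_lit 0, nat_lit 0, nat_lit 0, nat_lit 39487647, nat_lit 19640756, nat_lit 7871597, nat_lit 4951014, true, false⟩,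
 nat_lit 0, nat_lit 0, nat_lit 1584, nat_lit 0, nat_lit 3033, nat_lit 1007, nat_lit 0, nat_lit 0, nat_lit 0, nat_lit 91, nat_lit 0, nat_lit 0, nat_lit 0, nat_lit 0, nat_lit 0, nat_lit 220000, nat_lit 0, nat_lit 0, [(nat_lit 25, [(nat_lit 0, nat_lit 880)]), (nat_lit 28, [(nat_lit 0, nat_lit 880)])],
 ⟨p122_k8, nat_lit 0, nat_lit 0, nat_lit 60, nat_lit 0, nat_lit 0, [nat_lit 800368000, nat_lit 1598384000, nat_lit 2613840000], [], [nat_lit 22270636360, nat_lit 24815896492, nat_lit 23780318884, nat_lit 26136402684, nat_lit 24535364209, nat_lit 26745475442, nat_lit 25835086993, nat_lit 27888437286], nat_lit 0, nat_lit 0, nat_lit 0, nat_lit 0, nat_lit 0, nat_lit 0, [], [nat_lit 20, nat_lit 40, nat_lit 40, nat_lit 80, nat_lit 16, nat_lit 289, nat_lit 75, nat_lit 9]⟩, ⟨p122_k9, nat_lit 0, nat_lit 0, nat_lit 932, nat_lit 0, nat_lit 1511242, [nat_lit 393840000, nat_lit 750000000, nat_lit 1424640000], [], [nat_lit 4120810008,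 nat_lit 4161097436, nat_lit 4166425324, nat_lit 4201329664, nat_lit 3618681296, nat_lit 3631200708, nat_lit 3616484587, nat_lit 3625536988], nat_lit 1271250, nat_lit 1271250, nat_lit 1271250, nat_lit 1271250, nat_lit 0, nat_lit 2373000, [nat_lit 780000, nat_lit 1435000, nat_lit 1271250], [nat_lit 23, nat_lit 40, nat_lit 40, nat_lit 80, nat_lit 12, nat_lit 483, nat_lit 250, nat_lit 12]⟩,
 ⟨nat_lit 0, nat_lit 3163, ⟨.ofNat (nat_lit 646918), .ofNat (nat_lit 710256), .ofNat (nat_lit 667768), .ofNat (nat_lit 731287), .ofNat (nat_lit 647345), .ofNat (nat_lit 699730), .ofNat (nat_lit 671040), .ofNat (nat_lit 723606)⟩, ⟨.ofNat (nat_lit 306113), .ofNat (nat_lit 440207), .ofNat (nat_lit 350425), .ofNat (nat_lit 484518), .ofNat (nat_lit 299996), .ofNat (nat_lit 409993), .ofNat (nat_lit 349998), .ofNat (nat_lit 459993)⟩⟩, [⟨nat_lit 16, nat_lit 44, nat_lit 100, nat_lit 87, nat_lit 169282753⟩, ⟨nat_lit 16, nat_lit 62, nat_lit 100,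 nat_lit 94, nat_lit 145013223⟩, ⟨nat_lit 7, nat_lit 94, nat_lit 100, nat_lit 97, nat_lit 14501409⟩]⟩
noncomputable def p122_l92 : Lf2 := ⟨nat_lit 0, nat_lit 20, [nat_lit 5, nat_lit 5, nat_lit 5, nat_lit 20], false, nat_lit 160, nat_lit 248, nat_lit 4, nat_lit 336, ⟨nat_lit 138, nat_lit 862, nat_lit 0, nat_lit 7, nat_lit 296, nat_lit 862, nat_lit 157, nat_lit 0, nat_lit 0, nat_lit 0, nat_lit 0, nat_lit 0, nat_lit 37693187, nat_lit 21499942, nat_lit 7806871, nat_lit 5035644, true, true⟩,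
 nat_lit 0, nat_lit 0, nat_lit 1739, nat_lit 0, nat_lit 3055, nat_lit 1106, nat_lit 0, nat_lit 0, nat_lit 0, nat_lit 103, nat_lit 0, nat_lit 0, nat_lit 0, nat_lit 0, nat_lit 0, nat_lit 215500, nat_lit 0, nat_lit 0, [(nat_lit 25, [(nat_lit 0, nat_lit 862)])],
 ⟨p122_k8, nat_lit 0, nat_lit 0, nat_lit 59, nat_lit 0, nat_lit 0, [nat_lit 788012000, nat_lit 1632821600, nat_lit 2688216000], [], [nat_lit 23806971740, nat_lit 24988760240, nat_lit 25507329160, nat_lit 26593027440, nat_lit 25861269789, nat_lit 26890946633, nat_lit 27336139020, nat_lit 28285826774], nat_lit 0, nat_lit 0, nat_lit 0, nat_lit 0, nat_lit 0, nat_lit 0, [], [nat_lit 20, nat_lit 40, nat_lit 40, nat_lit 80, nat_lit 16, nat_lit 289, nat_lit 75, nat_lit 9]⟩, ⟨p122_k9, nat_lit 0, nat_lit 0, nat_lit 719, nat_lit 0, nat_lit 1087231, [nat_lit 452916000, nat_lit 862500000, nat_lit 1638336000], [], [nat_lit 4657734417, nat_lit 4671512358, nat_lit 4767957950,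 nat_lit 4779776134, nat_lit 4230197408, nat_lit 4239125906, nat_lit 4301625386, nat_lit 4309030412], nat_lit 1271250, nat_lit 1271250, nat_lit 1271250, nat_lit 1271250, nat_lit 21650, nat_lit 2378850, [nat_lit 780000, nat_lit 1435000, nat_lit 1271250], [nat_lit 23, nat_lit 40, nat_lit 40, nat_lit 80, nat_lit 12, nat_lit 483, nat_lit 250, nat_lit 12]⟩,
 ⟨nat_lit 2236, nat_lit 3163, ⟨.ofNat (nat_lit 710480), .ofNat (nat_lit 771478), .ofNat (nat_lit 716003), .ofNat (nat_lit 777017), .ofNat (nat_lit 705082), .ofNat (nat_lit 762142), .ofNat (nat_lit 710759), .ofNat (nat_lit 767836)⟩, ⟨.ofNat (nat_lit 306116), .ofNat (nat_lit 440213), .ofNat (nat_lit 350426), .ofNat (nat_lit 484523), .ofNat (nat_lit 306337), .ofNat (nat_lit 431772), .ofNat (nat_lit 351886), .ofNat (nat_lit 477320)⟩⟩, [⟨nat_lit 4, nat_lit 100, nat_lit 53, nat_lit 87, nat_lit 306484046⟩, ⟨nat_lit 19, nat_lit 100, nat_lit 80, nat_lit 100, nat_lit 19185220⟩]⟩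
noncomputable def p122_l93 : Lf2 := ⟨nat_lit 0, nat_lit 20, [nat_lit 5, nat_lit 5, nat_lit 5, nat_lit 20], false, nat_lit 160, nat_lit 248, nat_lit 4, nat_lit 332, ⟨nat_lit 151, nat_lit 849, nat_lit 0, nat_lit 7, nat_lit 298, nat_lit 849, nat_lit 157, nat_lit 0, nat_lit 0, nat_lit 0, nat_lit 0, nat_lit 0, nat_lit 37518499, nat_lit 21700094, nat_lit 7781407, nat_lit 5040978, true, true⟩,
 nat_lit 0, nat_lit 0, nat_lit 1790, nat_lit 0, nat_lit 3077, nat_lit 1163, nat_lit 0, nat_lit 0, nat_lit 0, nat_lit 115, nat_lit 0, nat_lit 0, nat_lit 0, nat_lit 0, nat_lit 0, nat_lit 212250, nat_lit 0, nat_lit 0, [(nat_lit 25, [(nat_lit 0, nat_lit 849)])],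
 ⟨p122_k8, nat_lit 0, nat_lit 0, nat_lit 59, nat_lit 0, nat_lit 0, [nat_lit 790274001, nat_lit 1657693200, nat_lit 2741932000], [], [nat_lit 23824058596, nat_lit 25009593696, nat_lit 25528310984, nat_lit 26617271776, nat_lit 25877886584, nat_lit 26910565125, nat_lit 27355588148, nat_lit 28307878603], nat_lit 0, nat_lit 0, nat_lit 0, nat_lit 0, nat_lit 0, nat_lit 0, [], [nat_lit 20, nat_lit 40, nat_lit 40, nat_lit 80, nat_lit 16, nat_lit 289, nat_lit 75, nat_lit 9]⟩, ⟨p122_k19, nat_lit 0, nat_lit 0, nat_lit 717, nat_lit 0, nat_lit 1085153, [nat_lit 495582000, nat_lit 943750000, nat_lit 1792672000], [], [nat_lit 5020761945, nat_lit 5035822075, nat_lit 5139167456, nat_lit 5152152057, nat_lit 4588788665, nat_lit 4598886246, nat_lit 4667942149, nat_lit 4676412565], nat_lit 1271250, nat_lit 1271250, nat_lit 1271250, nat_lit 1271250, nat_lit 21650, nat_lit 2350450, [nat_lit 780000, nat_lit 1435000, nat_lit 1271250], [nat_lit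 23, nat_lit 40, nat_lit 40, nat_lit 80, nat_lit 12, nat_lit 483, nat_lit 250, nat_lit 12]⟩,
 ⟨nat_lit 2236, nat_lit 3163, ⟨.ofNat (nat_lit 716003), .ofNat (nat_lit 777017), .ofNat (nat_lit 721526), .ofNat (nat_lit 782556), .ofNat (nat_lit 710759), .ofNat (nat_lit 767836), .ofNat (nat_lit 716437), .ofNat (nat_lit 773529)⟩, ⟨.ofNat (nat_lit 306116), .ofNat (nat_lit 440213), .ofNat (nat_lit 350426), .ofNat (nat_lit 484523), .ofNat (nat_lit 306337), .ofNat (nat_lit 431772), .ofNat (nat_lit 351886), .ofNat (nat_lit 477320)⟩⟩, [⟨nat_lit 4, nat_lit 100, nat_lit 53, nat_lit 87, nat_lit 315680955⟩, ⟨nat_lit 19, nat_lit 99, nat_lit 82, nat_lit 100, nat_lit 21530094⟩]⟩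
noncomputable def p122_l94 : Lf2 := ⟨nat_lit 0, nat_lit 20, [nat_lit 5, nat_lit 5, nat_lit 5, nat_lit 20], false, nat_lit 160, nat_lit 208, nat_lit 4, nat_lit 336, ⟨nat_lit 105, nat_lit 895, nat_lit 0, nat_lit 7, nat_lit 295, nat_lit 895, nat_lit 145, nat_lit 0, nat_lit 0, nat_lit 0, nat_lit 0, nat_lit 0, nat_lit 38376159, nat_lit 21665694, nat_lit 6958147, nat_lit 4919882, true, true⟩,
 nat_lit 0, nat_lit 0, nat_lit 1529, nat_lit 0, nat_lit 3450, nat_lit 973, nat_lit 0, nat_lit 0, nat_lit 0, nat_lit 56, nat_lit 0, nat_lit 0, nat_lit 0, nat_lit 0, nat_lit 0, nat_lit 223750, nat_lit 0, nat_lit 0, [(nat_lit 28, [(nat_lit 0, nat_lit 895)])],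
 ⟨p122_k7, nat_lit 0, nat_lit 0, nat_lit 73, nat_lit 0, nat_lit 0, [nat_lit 798022000, nat_lit 1888798000, nat_lit 2052808000], [], [nat_lit 25525534500, nat_lit 26118449150, nat_lit 27109494700, nat_lit 27653541950, nat_lit 26452907521, nat_lit 27003783681, nat_lit 27921313421, nat_lit 28427811020], nat_lit 0, nat_lit 0, nat_lit 0, nat_lit 0, nat_lit 0, nat_lit 0, [], [nat_lit 55, nat_lit 40, nat_lit 40, nat_lit 80, nat_lit 3, nat_lit 272, nat_lit 60, nat_lit 8]⟩, ⟨p122_k6, nat_lit 0, nat_lit 0, nat_lit 823, nat_lit 0, nat_lit 1282101, [nat_lit 344610000, nat_lit 836640000, nat_lit 1246560000], [], [nat_lit 4092575251, nat_lit 4101316625, nat_lit 4127540746, nat_lit 4134000369, nat_lit 3382073145, nat_lit 3380643222, nat_lit 3376353451, nat_lit 3402962708], nat_lit 1271250, nat_lit 1271250, nat_lit 1271250, nat_lit 1271250, nat_lit 21650, nat_lit 2378850, [nat_lit 780000, nat_lit 1762500, nat_lit 1271250], [nat_lit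 79, nat_lit 40, nat_lit 40, nat_lit 80, nat_lit 14, nat_lit 483, nat_lit 250, nat_lit 12]⟩,
 ⟨nat_lit 1581, nat_lit 2237, ⟨.ofNat (nat_lit 705117), .ofNat (nat_lit 762142), .ofNat (nat_lit 716482), .ofNat (nat_lit 773529), .ofNat (nat_lit 702521), .ofNat (nat_lit 757166), .ofNat (nat_lit 714155), .ofNat (nat_lit 768823)⟩, ⟨.ofNat (nat_lit 306337), .ofNat (nat_lit 374756), .ofNat (nat_lit 351886), .ofNat (nat_lit 420305), .ofNat (nat_lit 305473), .ofNat (nat_lit 371036), .ofNat (nat_lit 352103), .ofNat (nat_lit 417666)⟩⟩, [⟨nat_lit 16, nat_lit 44, nat_lit 100, nat_lit 92, nat_lit 183824090⟩, ⟨nat_lit 4, nat_lit 100, nat_lit 38, nat_lit 87, nat_lit 144236611⟩, ⟨nat_lit 19, nat_lit 100, nat_lit 80, nat_lit 100, nat_lit 8645014⟩]⟩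
noncomputable def p122_l95 : Lf2 := ⟨nat_lit 0, nat_lit 20, [nat_lit 5, nat_lit 5, nat_lit 5, nat_lit 20], true, nat_lit 160, nat_lit 184, nat_lit 4, nat_lit 336, ⟨nat_lit 0, nat_lit 1000, nat_lit 0, nat_lit 7, nat_lit 293, nat_lit 1000, nat_lit 137, nat_lit 0, nat_lit 0, nat_lit 0, nat_lit 0, nat_lit 0, nat_lit 38888997, nat_lit 21674545, nat_lit 6436458, nat_lit 4839096, true, true⟩,
 nat_lit 0, nat_lit 0, nat_lit 0, nat_lit 0, nat_lit 2789, nat_lit 0, nat_lit 37, nat_lit 0, nat_lit 0, nat_lit 0, nat_lit 0, nat_lit 0, nat_lit 0, nat_lit 0, nat_lit 0, nat_lit 250000, nat_lit 0, nat_lit 0, [(nat_lit 28, [(nat_lit 0, nat_lit 1000)])],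
 ⟨p122_k22, nat_lit 0, nat_lit 0, nat_lit 77, nat_lit 0, nat_lit 0, [nat_lit 781600001, nat_lit 1376400000], [], [nat_lit 25440584632, nat_lit 25958600747, nat_lit 26847306964, nat_lit 27389407016, nat_lit 25901583955, nat_lit 26402508873, nat_lit 27261090105, nat_lit 27813052403], nat_lit 0, nat_lit 0, nat_lit 0, nat_lit 0, nat_lit 0, nat_lit 0, [], [nat_lit 86, nat_lit 40, nat_lit 40, nat_lit 80, nat_lit 87, nat_lit 203, nat_lit 0, nat_lit 6]⟩, C1.Rw.none,
 ⟨nat_lit 0, nat_lit 1582, ⟨.ofNat (nat_lit 702515), .ofNat (nat_lit 757165), .ofNat (nat_lit 713855), .ofNat (nat_lit 768823), .ofNat (nat_lit 699984), .ofNat (nat_lit 749998), .ofNat (nat_lit 712166), .ofNat (nat_lit 762499)⟩, ⟨.ofNat (nat_lit 305469), .ofNat (nat_lit 338250), .ofNat (nat_lit 352101), .ofNat (nat_lit 384882), .ofNat (nat_lit 299995), .ofNat (nat_lit 329995), .ofNat (nat_lit 349997), .ofNat (nat_lit 379997)⟩⟩, [⟨nat_lit 16, nat_lit 31, nat_lit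 100, nat_lit 92, nat_lit 389077293⟩]⟩
noncomputable def p122_l96 : Lf2 := ⟨nat_lit 0, nat_lit 20, [nat_lit 5, nat_lit 5, nat_lit 5, nat_lit 20], false, nat_lit 160, nat_lit 248, nat_lit 4, nat_lit 328, ⟨nat_lit 165, nat_lit 835, nat_lit 0, nat_lit 7, nat_lit 302, nat_lit 835, nat_lit 157, nat_lit 0, nat_lit 0, nat_lit 0, nat_lit 0, nat_lit 0, nat_lit 37257504, nat_lit 21999427, nat_lit 7743069, nat_lit 5048500, true, true⟩,
 nat_lit 0, nat_lit 0, nat_lit 1834, nat_lit 0, nat_lit 3102, nat_lit 1217, nat_lit 0, nat_lit 0, nat_lit 0, nat_lit 127, nat_lit 0, nat_lit 0, nat_lit 0, nat_lit 0, nat_lit 0, nat_lit 208750, nat_lit 0, nat_lit 0, [(nat_lit 25, [(nat_lit 0, nat_lit 835)])],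
 ⟨p122_k8, nat_lit 0, nat_lit 0, nat_lit 59, nat_lit 0, nat_lit 0, [nat_lit 792710001, nat_lit 1684478000, nat_lit 2799780000], [], [nat_lit 23841997096, nat_lit 25031789696, nat_lit 25550675584, nat_lit 26643343776, nat_lit 25895290924, nat_lit 26931380485, nat_lit 27376211048, nat_lit 28331659808], nat_lit 0, nat_lit 0, nat_lit 0, nat_lit 0, nat_lit 0, nat_lit 0, [], [nat_lit 20, nat_lit 40, nat_lit 40, nat_lit 80, nat_lit 16, nat_lit 289, nat_lit 75, nat_lit 9]⟩, ⟨p122_k15, nat_lit 0, nat_lit 0, nat_lit 727, nat_lit 0, nat_lit 1116671, [nat_lit 541530000, nat_lit 1031250000, nat_lit 1958880000], [], [nat_lit 5417005635, nat_lit 5449882606, nat_lit 5544134660, nat_lit 5606425815, nat_lit 4976544955, nat_lit 4999314384, nat_lit 5064160816, nat_lit 5090915271], nat_lit 1271250, nat_lit 1271250, nat_lit 1271250, nat_lit 1271250, nat_lit 21650, nat_lit 2322050, [nat_lit 780000, nat_lit 1435000, nat_lit 1271250], [nat_lit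 23, nat_lit 40, nat_lit 40, nat_lit 80, nat_lit 12, nat_lit 483, nat_lit 250, nat_lit 12]⟩,
 ⟨nat_lit 2236, nat_lit 3163, ⟨.ofNat (nat_lit 721526), .ofNat (nat_lit 782556), .ofNat (nat_lit 732571), .ofNat (nat_lit 793619), .ofNat (nat_lit 716437), .ofNat (nat_lit 773529), .ofNat (nat_lit 727793), .ofNat (nat_lit 784902)⟩, ⟨.ofNat (nat_lit 306116), .ofNat (nat_lit 440213), .ofNat (nat_lit 350426), .ofNat (nat_lit 484523), .ofNat (nat_lit 306337), .ofNat (nat_lit 431772), .ofNat (nat_lit 351886), .ofNat (nat_lit 477320)⟩⟩, [⟨nat_lit 16, nat_lit 53, nat_lit 100, nat_lit 87, nat_lit 321920244⟩, ⟨nat_lit 19, nat_lit 97, nat_lit 84, nat_lit 100, nat_lit 23904300⟩]⟩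
noncomputable def p122_l97 : Lf2 := ⟨nat_lit 0, nat_lit 20, [nat_lit 5, nat_lit 5, nat_lit 5, nat_lit 20], false, nat_lit 160, nat_lit 208, nat_lit 4, nat_lit 328, ⟨nat_lit 152, nat_lit 848, nat_lit 0, nat_lit 7, nat_lit 298, nat_lit 848, nat_lit 144, nat_lit 0, nat_lit 0, nat_lit 0, nat_lit 0, nat_lit 0, nat_lit 38230283, nat_lit 21926742, nat_lit 6842975, nat_lit 4914052, true, true⟩,
 nat_lit 0, nat_lit 0, nat_lit 1969, nat_lit 0, nat_lit 2724, nat_lit 1307, nat_lit 0, nat_lit 0, nat_lit 0, nat_lit 87, nat_lit 0, nat_lit 0, nat_lit 0, nat_lit 0, nat_lit 0, nat_lit 323750, nat_lit 0, nat_lit 0, [(nat_lit 28, [(nat_lit 0, nat_lit 103), (nat_lit 1, nat_lit 745)])],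
 ⟨p122_k7, nat_lit 0, nat_lit 0, nat_lit 78, nat_lit 0, nat_lit 0, [nat_lit 742792800, nat_lit 1020509200, nat_lit 1213531200], [], [nat_lit 24938442040, nat_lit 25964784720, nat_lit 26374683240, nat_lit 27363033264, nat_lit 25897362516, nat_lit 26856385220, nat_lit 27238926677, nat_lit 28162678743], nat_lit 0, nat_lit 0, nat_lit 0, nat_lit 0, nat_lit 0, nat_lit 0, [], [nat_lit 55, nat_lit 40, nat_lit 40, nat_lit 80, nat_lit 3, nat_lit 272, nat_lit 60, nat_lit 8]⟩, ⟨p122_k23, nat_lit 0, nat_lit 0, nat_lit 863, nat_lit 0, nat_lit 1390710, [nat_lit 498864000, nat_lit 1211136000, nat_lit 1804544000], [], [nat_lit 5744369112, nat_lit 5751165270, nat_lit 5795632735, nat_lit 5800876071, nat_lit 4816379707, nat_lit 4816466026, nat_lit 4814978316, nat_lit 4814018664], nat_lit 1271250, nat_lit 1271250, nat_lit 1271250, nat_lit 1271250, nat_lit 21650, nat_lit 2322050, [nat_lit 780000, nat_lit 1762500, nat_lit 1271250], [nat_lit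 79, nat_lit 40, nat_lit 40, nat_lit 80, nat_lit 14, nat_lit 483, nat_lit 250, nat_lit 12]⟩,
 ⟨nat_lit 0, nat_lit 2237, ⟨.ofNat (nat_lit 716031), .ofNat (nat_lit 773529), .ofNat (nat_lit 721492), .ofNat (nat_lit 779223), .ofNat (nat_lit 712015), .ofNat (nat_lit 762499), .ofNat (nat_lit 718033), .ofNat (nat_lit 768749)⟩, ⟨.ofNat (nat_lit 306334), .ofNat (nat_lit 374750), .ofNat (nat_lit 351885), .ofNat (nat_lit 420300), .ofNat (nat_lit 299996), .ofNat (nat_lit 359993), .ofNat (nat_lit 349998), .ofNat (nat_lit 409994)⟩⟩, [⟨nat_lit 16, nat_lit 44, nat_lit 100, nat_lit 92, nat_lit 144227338⟩, ⟨nat_lit 4, nat_lit 100, nat_lit 32, nat_lit 88, nat_lit 279609080⟩, ⟨nat_lit 19, nat_lit 97, nat_lit 84, nat_lit 100, nat_lit 13762191⟩]⟩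
noncomputable def p122_l98 : Lf2 := ⟨nat_lit 0, nat_lit 20, [nat_lit 5, nat_lit 5, nat_lit 5, nat_lit 20], false, nat_lit 160, nat_lit 208, nat_lit 4, nat_lit 324, ⟨nat_lit 170, nat_lit 830, nat_lit 0, nat_lit 7, nat_lit 300, nat_lit 830, nat_lit 144, nat_lit 0, nat_lit 0, nat_lit 0, nat_lit 0, nat_lit 0, nat_lit 38041523, nat_lit 22138808, nat_lit 6819669, nat_lit 4919728, true, true⟩,
 nat_lit 0, nat_lit 0, nat_lit 2050, nat_lit 0, nat_lit 2722, nat_lit 1390, nat_lit 0, nat_lit 0, nat_lit 0, nat_lit 102, nat_lit 0, nat_lit 0, nat_lit 0, nat_lit 0, nat_lit 0, nat_lit 325850, nat_lit 0, nat_lit 0, [(nat_lit 28, [(nat_lit 0, nat_lit 41), (nat_lit 1, nat_lit 789)])],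
 ⟨p122_k7, nat_lit 0, nat_lit 0, nat_lit 78, nat_lit 0, nat_lit 0, [nat_lit 741912001, nat_lit 1016842800, nat_lit 1235358400], [], [nat_lit 24935460022, nat_lit 25961504562, nat_lit 26371432622, nat_lit 27359459792, nat_lit 25894464788, nat_lit 26853221500, nat_lit 27235803293, nat_lit 28159279108], nat_lit 0, nat_lit 0, nat_lit 0, nat_lit 0, nat_lit 0, nat_lit 0, [], [nat_lit 55, nat_lit 40, nat_lit 40, nat_lit 80, nat_lit 3, nat_lit 272, nat_lit 60, nat_lit 8]⟩, ⟨p122_k24, nat_lit 0, nat_lit 0, nat_lit 857, nat_lit 0, nat_lit 1377207, [nat_lit 557940000, nat_lit 1354560000, nat_lit 2018240000], [], [nat_lit 5962980986, nat_lit 5985038027, nat_lit 6130530336, nat_lit 6149618384, nat_lit 5221710083, nat_lit 5231532665, nat_lit 5294615714, nat_lit 5302844330], nat_lit 1271250, nat_lit 1271250, nat_lit 1271250, nat_lit 1271250, nat_lit 21650, nat_lit 2293650, [nat_lit 780000, nat_lit 1762500, nat_lit 1271250], [nat_lit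 79, nat_lit 40, nat_lit 40, nat_lit 80, nat_lit 14, nat_lit 483, nat_lit 250, nat_lit 12]⟩,
 ⟨nat_lit 0, nat_lit 2237, ⟨.ofNat (nat_lit 721492), .ofNat (nat_lit 779223), .ofNat (nat_lit 726954), .ofNat (nat_lit 784917), .ofNat (nat_lit 718033), .ofNat (nat_lit 768749), .ofNat (nat_lit 724051), .ofNat (nat_lit 774999)⟩, ⟨.ofNat (nat_lit 306334), .ofNat (nat_lit 374750), .ofNat (nat_lit 351885), .ofNat (nat_lit 420300), .ofNat (nat_lit 299996), .ofNat (nat_lit 359993), .ofNat (nat_lit 349998), .ofNat (nat_lit 409994)⟩⟩, [⟨nat_lit 16, nat_lit 32, nat_lit 100, nat_lit 88, nat_lit 243552549⟩, ⟨nat_lit 16, nat_lit 44, nat_lit 100, nat_lit 92, nat_lit 177855446⟩, ⟨nat_lit 19, nat_lit 96, nat_lit 86, nat_lit 100, nat_lit 19414342⟩]⟩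
noncomputable def b_V_900_700_20_15 : St := ⟨true, nat_lit 0, nat_lit 1, nat_lit 1, nat_lit 120, nat_lit 360, nat_lit 400, nat_lit 280, nat_lit 300, nat_lit 240, nat_lit 320, nat_lit 80, nat_lit 120, nat_lit 160, nat_lit 248, nat_lit 0, nat_lit 336, nat_lit 40, nat_lit 80, nat_lit 0, nat_lit 0, nat_lit 0, nat_lit 0⟩
theorem d_V_900_700_20_15 (h : EB TB.env) : Dead b_V_900_700_20_15 := chkB_sound0 h (T :=
(.spl (nat_lit 2) (nat_lit 280)
(.leaf p122_l91)
(.trZ (nat_lit 9) (nat_lit 100) (nat_lit 94) (nat_lit 21) (nat_lit 4) (.spl (nat_lit 1) (nat_lit 290)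
(.spl (nat_lit 0) (nat_lit 380)
(.spl (nat_lit 1) (nat_lit 285)
(.leaf p122_l92)
(.trX (nat_lit 19) (nat_lit 99) (nat_lit 82) (nat_lit 100) (nat_lit 332) (.leaf p122_l93)))
(.trX (nat_lit 16) (nat_lit 44) (nat_lit 100) (nat_lit 92) (nat_lit 208) (.spl (nat_lit 0) (nat_lit 390)
(.leaf p122_l94)
(.trX (nat_lit 16) (nat_lit 31) (nat_lit 100) (nat_lit 92) (nat_lit 184) (.leaf p122_l95)))))
(.trX (nat_lit 19) (nat_lit 97) (nat_lit 84) (nat_lit 100) (nat_lit 328) (.spl (nat_lit 0) (nat_lit 380)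
(.leaf p122_l96)
(.trX (nat_lit 16) (nat_lit 44) (nat_lit 100) (nat_lit 92) (nat_lit 208) (.spl (nat_lit 1) (nat_lit 295)
(.leaf p122_l97)
(.trX (nat_lit 19) (nat_lit 96) (nat_lit 86) (nat_lit 100) (nat_lit 324) (.leaf p122_l98)))))))))) (by decide +kernel)
noncomputable def p122_l99 : Lf2 := ⟨nat_lit 0, nat_lit 20, [nat_lit 5, nat_lit 5, nat_lit 5, nat_lit 20], false, nat_lit 160, nat_lit 248, nat_lit 16, nat_lit 336, ⟨nat_lit 1000, nat_lit 0, nat_lit 0, nat_lit 0, nat_lit 0, nat_lit 0, nat_lit 0, nat_lit 0, nat_lit 0, nat_lit 0, nat_lit 0, nat_lit 0, nat_lit 0, nat_lit 0, nat_lit 0, nat_lit 0, false, false⟩,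
 nat_lit 0, nat_lit 0, nat_lit 3712, nat_lit 0, nat_lit 5349, nat_lit 2361, nat_lit 253, nat_lit 0, nat_lit 0, nat_lit 393, nat_lit 0, nat_lit 316, nat_lit 0, nat_lit 0, nat_lit 0, nat_lit 0, nat_lit 0, nat_lit 0, [],
 ⟨p122_k8, nat_lit 0, nat_lit 0, nat_lit 91, nat_lit 0, nat_lit 0, [nat_lit 938000000, nat_lit 3282000000, nat_lit 6250000000], [], [nat_lit 28224079265, nat_lit 28540166384, nat_lit 31742675162, nat_lit 32069330301, nat_lit 29620684712, nat_lit 29892021486, nat_lit 32840926235, nat_lit 33121263151], nat_lit 0, nat_lit 0, nat_lit 0, nat_lit 0, nat_lit 0, nat_lit 0, [], [nat_lit 20, nat_lit 40, nat_lit 40, nat_lit 80, nat_lit 16, nat_lit 289, nat_lit 75, nat_lit 9]⟩, ⟨p122_k9, nat_lit 0, nat_lit 0, nat_lit 0, nat_lit 0, nat_lit 962770, [nat_lit 3282000000, nat_lit 6250000000, nat_lit 11872000000], [], [nat_lit 24885791904, nat_lit 25315019462, nat_lit 26524973091, nat_lit 27025239605, nat_lit 27676200133,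 nat_lit 28035109927, nat_lit 29404768551, nat_lit 29824590250], nat_lit 1271250, nat_lit 1271250, nat_lit 1271250, nat_lit 1271250, nat_lit 88400, nat_lit 2396400, [nat_lit 780000, nat_lit 1435000, nat_lit 1271250], [nat_lit 23, nat_lit 40, nat_lit 40, nat_lit 80]⟩,
 zbF0, [⟨nat_lit 16, nat_lit 62, nat_lit 100, nat_lit 94, nat_lit 457639545⟩, ⟨nat_lit 19, nat_lit 100, nat_lit 80, nat_lit 100, nat_lit 77669617⟩]⟩
noncomputable def p122_l100 : Lf2 := ⟨nat_lit 0, nat_lit 20, [nat_lit 5, nat_lit 5, nat_lit 5, nat_lit 20], false, nat_lit 160, nat_lit 240, nat_lit 16, nat_lit 336, ⟨nat_lit 1000, nat_lit 0, nat_lit 0, nat_lit 0, nat_lit 0, nat_lit 0, nat_lit 0, nat_lit 0, nat_lit 0, nat_lit 0, nat_lit 0, nat_lit 0, nat_lit 0, nat_lit 0, nat_lit 0, nat_lit 0, false, false⟩,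
 nat_lit 0, nat_lit 0, nat_lit 2922, nat_lit 0, nat_lit 6273, nat_lit 1859, nat_lit 56, nat_lit 0, nat_lit 0, nat_lit 370, nat_lit 0, nat_lit 348, nat_lit 0, nat_lit 0, nat_lit 0, nat_lit 0, nat_lit 0, nat_lit 0, [],
 ⟨p122_k25, nat_lit 0, nat_lit 0, nat_lit 95, nat_lit 0, nat_lit 0, [nat_lit 938000000, nat_lit 3282000000, nat_lit 6250000000], [], [nat_lit 29738712843, nat_lit 30083657406, nat_lit 33412762077, nat_lit 33700227260, nat_lit 30754141059, nat_lit 31053295521, nat_lit 34009223637, nat_lit 34318213538], nat_lit 0, nat_lit 0, nat_lit 0, nat_lit 0, nat_lit 0, nat_lit 0, [], [nat_lit 20, nat_lit 40, nat_lit 40, nat_lit 80, nat_lit 16, nat_lit 272, nat_lit 60, nat_lit 8]⟩, ⟨p122_k9, nat_lit 0, nat_lit 0, nat_lit 0, nat_lit 0, nat_lit 1036458, [nat_lit 3282000000, nat_lit 6250000000, nat_lit 11872000000], [], [nat_lit 23697769382, nat_lit 24123194592, nat_lit 25284284585, nat_lit 25773409950, nat_lit 27114157724,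 nat_lit 27495043093, nat_lit 28816541531, nat_lit 29256158501], nat_lit 1271250, nat_lit 1271250, nat_lit 1271250, nat_lit 1271250, nat_lit 88400, nat_lit 2396400, [nat_lit 780000, nat_lit 1435000, nat_lit 1271250], [nat_lit 23, nat_lit 40, nat_lit 40, nat_lit 80]⟩,
 zbF0, [⟨nat_lit 16, nat_lit 58, nat_lit 100, nat_lit 93, nat_lit 452035403⟩, ⟨nat_lit 19, nat_lit 100, nat_lit 80, nat_lit 100, nat_lit 16296095⟩, ⟨nat_lit 7, nat_lit 94, nat_lit 100, nat_lit 97, nat_lit 57211819⟩]⟩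
noncomputable def p122_l101 : Lf2 := ⟨nat_lit 0, nat_lit 20, [nat_lit 5, nat_lit 5, nat_lit 5, nat_lit 20], false, nat_lit 160, nat_lit 232, nat_lit 16, nat_lit 336, ⟨nat_lit 1000, nat_lit 0, nat_lit 0, nat_lit 0, nat_lit 0, nat_lit 0, nat_lit 0, nat_lit 0, nat_lit 0, nat_lit 0, nat_lit 0, nat_lit 0, nat_lit 0, nat_lit 0, nat_lit 0, nat_lit 0, false, false⟩,
 nat_lit 0, nat_lit 0, nat_lit 2950, nat_lit 0, nat_lit 5820, nat_lit 1877, nat_lit 113, nat_lit 0, nat_lit 0, nat_lit 345, nat_lit 0, nat_lit 341, nat_lit 0, nat_lit 0, nat_lit 0, nat_lit 0, nat_lit 0, nat_lit 0, [],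
 ⟨p122_k13, nat_lit 0, nat_lit 0, nat_lit 99, nat_lit 0, nat_lit 0, [nat_lit 938000000, nat_lit 3282000000, nat_lit 6250000000], [], [nat_lit 29652802540, nat_lit 30314396380, nat_lit 32906441420, nat_lit 33466649980, nat_lit 30575723831, nat_lit 31159680665, nat_lit 33440953875, nat_lit 34052019963], nat_lit 0, nat_lit 0, nat_lit 0, nat_lit 0, nat_lit 0, nat_lit 0, [], [nat_lit 20, nat_lit 40, nat_lit 40, nat_lit 80, nat_lit 16, nat_lit 272, nat_lit 60, nat_lit 8]⟩, ⟨p122_k9, nat_lit 0, nat_lit 0, nat_lit 0, nat_lit 0, nat_lit 1188424, [nat_lit 3282000000, nat_lit 6250000000, nat_lit 11872000000], [], [nat_lit 24526481072, nat_lit 24952042620, nat_lit 26011934930, nat_lit 26397642709, nat_lit 27607432031, nat_lit 27964741068, nat_lit 29155713353, nat_lit 29580382480], nat_lit 1271250, nat_lit 1271250, nat_lit 1271250, nat_lit 1271250, nat_lit 88400, nat_lit 2396400, [nat_lit 780000, nat_lit 1435000, nat_lit 1271250],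 [nat_lit 23, nat_lit 40, nat_lit 40, nat_lit 80]⟩,
 zbF0, [⟨nat_lit 4, nat_lit 100, nat_lit 48, nat_lit 87, nat_lit 606431228⟩, ⟨nat_lit 19, nat_lit 100, nat_lit 80, nat_lit 100, nat_lit 69777524⟩]⟩
noncomputable def p122_l102 : Lf2 := ⟨nat_lit 0, nat_lit 20, [nat_lit 5, nat_lit 5, nat_lit 5, nat_lit 20], false, nat_lit 160, nat_lit 208, nat_lit 16, nat_lit 336, ⟨nat_lit 1000, nat_lit 0, nat_lit 0, nat_lit 0, nat_lit 0, nat_lit 0, nat_lit 0, nat_lit 0, nat_lit 0, nat_lit 0, nat_lit 0, nat_lit 0, nat_lit 0, nat_lit 0, nat_lit 0, nat_lit 0, false, false⟩,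
 nat_lit 0, nat_lit 0, nat_lit 3419, nat_lit 0, nat_lit 3073, nat_lit 2175, nat_lit 486, nat_lit 0, nat_lit 0, nat_lit 362, nat_lit 0, nat_lit 323, nat_lit 0, nat_lit 0, nat_lit 0, nat_lit 0, nat_lit 0, nat_lit 0, [],
 ⟨p122_k10, nat_lit 0, nat_lit 0, nat_lit 102, nat_lit 0, nat_lit 0, [nat_lit 938000000, nat_lit 3282000000, nat_lit 6250000000], [], [nat_lit 26676231482, nat_lit 27747458312, nat_lit 28878298551, nat_lit 29937501536, nat_lit 27462409156, nat_lit 28569255882, nat_lit 29624218862, nat_lit 30612380958], nat_lit 0, nat_lit 0, nat_lit 0, nat_lit 0, nat_lit 0, nat_lit 0, [], [nat_lit 20, nat_lit 40, nat_lit 40, nat_lit 80, nat_lit 16, nat_lit 272, nat_lit 60, nat_lit 8]⟩, ⟨p122_k9, nat_lit 0, nat_lit 0, nat_lit 0, nat_lit 0, nat_lit 1511242, [nat_lit 3282000000, nat_lit 6250000000, nat_lit 11872000000], [], [nat_lit 25107991950, nat_lit 25535810671, nat_lit 26306284903, nat_lit 26699561709, nat_lit 27864265950,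 nat_lit 28216662390, nat_lit 29077812835, nat_lit 29512594709], nat_lit 1271250, nat_lit 1271250, nat_lit 1271250, nat_lit 1271250, nat_lit 88400, nat_lit 2396400, [nat_lit 780000, nat_lit 1435000, nat_lit 1271250], [nat_lit 23, nat_lit 40, nat_lit 40, nat_lit 80]⟩,
 zbF0, [⟨nat_lit 16, nat_lit 44, nat_lit 100, nat_lit 92, nat_lit 689406471⟩, ⟨nat_lit 19, nat_lit 100, nat_lit 94, nat_lit 97, nat_lit 75860781⟩]⟩
noncomputable def b_V_900_700_20_16 : St := ⟨true, nat_lit 0, nat_lit 1, nat_lit 1, nat_lit 120, nat_lit 360, nat_lit 400, nat_lit 280, nat_lit 300, nat_lit 320, nat_lit 384, nat_lit 80, nat_lit 120, nat_lit 160, nat_lit 248, nat_lit 16, nat_lit 336, nat_lit 40, nat_lit 80, nat_lit 0, nat_lit 0, nat_lit 0, nat_lit 800⟩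
theorem d_V_900_700_20_16 (h : EB TB.env) : Dead b_V_900_700_20_16 := chkB_sound0 h (T :=
(.spl (nat_lit 0) (nat_lit 380)
(.spl (nat_lit 0) (nat_lit 370)
(.spl (nat_lit 0) (nat_lit 365)
(.leaf p122_l99)
(.trX (nat_lit 16) (nat_lit 58) (nat_lit 100) (nat_lit 93) (nat_lit 240) (.leaf p122_l100)))
(.trX (nat_lit 13) (nat_lit 61) (nat_lit 55) (nat_lit 100) (nat_lit 380) (.trX (nat_lit 16) (nat_lit 53) (nat_lit 100) (nat_lit 93) (nat_lit 232) (.leaf p122_l101))))
(.trX (nat_lit 13) (nat_lit 50) (nat_lit 65) (nat_lit 100) (nat_lit 368) (.trX (nat_lit 16) (nat_lit 44) (nat_lit 100) (nat_lit 92) (nat_lit 208) (.leaf p122_l102))))) (by decide +kernel)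
noncomputable def p122_l103 : Lf2 := ⟨nat_lit 0, nat_lit 20, [nat_lit 5, nat_lit 5, nat_lit 5, nat_lit 20], false, nat_lit 160, nat_lit 248, nat_lit 160, nat_lit 240, ⟨nat_lit 806, nat_lit 194, nat_lit 0, nat_lit 8, nat_lit 328, nat_lit 194, nat_lit 158, nat_lit 0, nat_lit 0, nat_lit 0, nat_lit 0, nat_lit 0, nat_lit 35244640, nat_lit 24290210, nat_lit 7465150, nat_lit 5091970, true, true⟩,
 nat_lit 0, nat_lit 0, nat_lit 8224, nat_lit 0, nat_lit 2984, nat_lit 5233, nat_lit 542, nat_lit 0, nat_lit 0, nat_lit 1068, nat_lit 0, nat_lit 0, nat_lit 0, nat_lit 0, nat_lit 0, nat_lit 77600, nat_lit 0, nat_lit 0, [(nat_lit 25, [(nat_lit 1, nat_lit 194)])],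
 ⟨p122_k26, nat_lit 0, nat_lit 0, nat_lit 94, nat_lit 0, nat_lit 0, [nat_lit 890120800, nat_lit 1834896001, nat_lit 5215048800], [], [nat_lit 26100919256, nat_lit 26576617648, nat_lit 28637262632, nat_lit 29064599285, nat_lit 27741863724, nat_lit 28159971228, nat_lit 30105296726, nat_lit 30532404837], nat_lit 0, nat_lit 0, nat_lit 0, nat_lit 0, nat_lit 0, nat_lit 0, [], [nat_lit 131, nat_lit 40, nat_lit 40, nat_lit 80, nat_lit 64, nat_lit 289, nat_lit 75, nat_lit 9]⟩, ⟨p122_k27, nat_lit 0, nat_lit 0, nat_lit 542, nat_lit 0, nat_lit 963764, [nat_lit 2645292000, nat_lit 3778528000, nat_lit 9568832000], [], [nat_lit 22772813968, nat_lit 22947056933, nat_lit 24358920470, nat_lit 24518889037, nat_lit 23044668928, nat_lit 23210561275, nat_lit 24450165096, nat_lit 24586147254], nat_lit 1271250, nat_lit 1271250, nat_lit 1271250, nat_lit 1271250, nat_lit 1100001, nat_lit 1785000, [nat_lit 780000, nat_lit 1100000, nat_lit 2470000],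 [nat_lit 158, nat_lit 40, nat_lit 40, nat_lit 80, nat_lit 65, nat_lit 373, nat_lit 150, nat_lit 8]⟩,
 ⟨nat_lit 2738, nat_lit 3163, ⟨.ofNat (nat_lit 771478), .ofNat (nat_lit 862908), .ofNat (nat_lit 782555), .ofNat (nat_lit 873986), .ofNat (nat_lit 766852), .ofNat (nat_lit 855444), .ofNat (nat_lit 778060), .ofNat (nat_lit 866653)⟩, ⟨.ofNat (nat_lit 306116), .ofNat (nat_lit 440213), .ofNat (nat_lit 350426), .ofNat (nat_lit 484523), .ofNat (nat_lit 306433), .ofNat (nat_lit 436368), .ofNat (nat_lit 351268), .ofNat (nat_lit 481203)⟩⟩, [⟨nat_lit 16, nat_lit 57, nat_lit 100, nat_lit 87, nat_lit 521128851⟩]⟩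
noncomputable def p122_l104 : Lf2 := ⟨nat_lit 0, nat_lit 20, [nat_lit 5, nat_lit 5, nat_lit 5, nat_lit 20], false, nat_lit 160, nat_lit 232, nat_lit 160, nat_lit 240, ⟨nat_lit 215, nat_lit 785, nat_lit 0, nat_lit 8, nat_lit 323, nat_lit 785, nat_lit 152, nat_lit 0, nat_lit 0, nat_lit 0, nat_lit 0, nat_lit 0, nat_lit 35828753, nat_lit 24006739, nat_lit 7164508, nat_lit 5040753, true, true⟩,
 nat_lit 0, nat_lit 0, nat_lit 2746, nat_lit 0, nat_lit 2631, nat_lit 1747, nat_lit 272, nat_lit 0, nat_lit 0, nat_lit 143, nat_lit 0, nat_lit 0, nat_lit 0, nat_lit 0, nat_lit 0, nat_lit 196250, nat_lit 0, nat_lit 0, [(nat_lit 25, [(nat_lit 0, nat_lit 785)])],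
 ⟨p122_k13, nat_lit 0, nat_lit 0, nat_lit 93, nat_lit 0, nat_lit 0, [nat_lit 801410000, nat_lit 1780138000, nat_lit 3006380000], [], [nat_lit 26043235917, nat_lit 26496898330, nat_lit 28064707330, nat_lit 28471311988, nat_lit 27320454620, nat_lit 27731381458, nat_lit 29234048651, nat_lit 29637977450], nat_lit 0, nat_lit 0, nat_lit 0, nat_lit 0, nat_lit 0, nat_lit 0, [], [nat_lit 20, nat_lit 40, nat_lit 40, nat_lit 80, nat_lit 16, nat_lit 272, nat_lit 60, nat_lit 8]⟩, ⟨p122_k9, nat_lit 0, nat_lit 0, nat_lit 638, nat_lit 0, nat_lit 1119789, [nat_lit 705630000, nat_lit 1343750000, nat_lit 2552480000], [], [nat_lit 6420229629, nat_lit 6448513695, nat_lit 6658757140, nat_lit 6684771509, nat_lit 6329424569, nat_lit 6351167706, nat_lit 6591568894, nat_lit 6618505060], nat_lit 1271250, nat_lit 1271250, nat_lit 1271250, nat_lit 1271250, nat_lit 1100001, nat_lit 1785000, [nat_lit 780000, nat_lit 1435000, nat_lit 1271250], [nat_lit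 23, nat_lit 40, nat_lit 40, nat_lit 80, nat_lit 12, nat_lit 373, nat_lit 150, nat_lit 8]⟩,
 ⟨nat_lit 2236, nat_lit 2739, ⟨.ofNat (nat_lit 766852), .ofNat (nat_lit 843632), .ofNat (nat_lit 778061), .ofNat (nat_lit 854840), .ofNat (nat_lit 762142), .ofNat (nat_lit 836262), .ofNat (nat_lit 773529), .ofNat (nat_lit 847650)⟩, ⟨.ofNat (nat_lit 306433), .ofNat (nat_lit 412743), .ofNat (nat_lit 351268), .ofNat (nat_lit 457578), .ofNat (nat_lit 306337), .ofNat (nat_lit 408965), .ofNat (nat_lit 351886), .ofNat (nat_lit 454514)⟩⟩, [⟨nat_lit 13, nat_lit 53, nat_lit 65, nat_lit 100, nat_lit 230675537⟩, ⟨nat_lit 4, nat_lit 100, nat_lit 48, nat_lit 87, nat_lit 341238327⟩]⟩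
noncomputable def b_V_900_700_20_17 : St := ⟨true, nat_lit 0, nat_lit 1, nat_lit 1, nat_lit 120, nat_lit 360, nat_lit 380, nat_lit 280, nat_lit 290, nat_lit 320, nat_lit 380, nat_lit 80, nat_lit 120, nat_lit 160, nat_lit 248, nat_lit 160, nat_lit 240, nat_lit 40, nat_lit 80, nat_lit 0, nat_lit 0, nat_lit 800, nat_lit 0⟩
theorem d_V_900_700_20_17 (h : EB TB.env) : Dead b_V_900_700_20_17 := chkB_sound0 h (T :=
(.spl (nat_lit 0) (nat_lit 370)
(.leaf p122_l103)
(.trX (nat_lit 13) (nat_lit 59) (nat_lit 58) (nat_lit 100) (nat_lit 372) (.trX (nat_lit 16) (nat_lit 53) (nat_lit 100) (nat_lit 93) (nat_lit 232) (.leaf p122_l104))))) (by decide +kernel)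
noncomputable def p122_l105 : Lf2 := ⟨nat_lit 0, nat_lit 20, [nat_lit 5, nat_lit 5, nat_lit 5, nat_lit 20], false, nat_lit 160, nat_lit 200, nat_lit 240, nat_lit 336, ⟨nat_lit 101, nat_lit 899, nat_lit 0, nat_lit 8, nat_lit 315, nat_lit 899, nat_lit 143, nat_lit 0, nat_lit 0, nat_lit 0, nat_lit 0, nat_lit 0, nat_lit 36867935, nat_lit 23488782, nat_lit 6643283, nat_lit 4945825, true, true⟩,
 nat_lit 0, nat_lit 0, nat_lit 1523, nat_lit 0, nat_lit 4385, nat_lit 969, nat_lit 0, nat_lit 0, nat_lit 0, nat_lit 50, nat_lit 0, nat_lit 0, nat_lit 0, nat_lit 0, nat_lit 0, nat_lit 224750, nat_lit 0, nat_lit 0, [(nat_lit 25, [(nat_lit 0, nat_lit 899)])],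
 ⟨p122_k5, nat_lit 0, nat_lit 0, nat_lit 0, nat_lit 0, nat_lit 0, [nat_lit 781574001, nat_lit 2015812401, nat_lit 2535332000], [], [nat_lit 25848462861, nat_lit 27064811311, nat_lit 26865200131, nat_lit 28023095176, nat_lit 26543658741, nat_lit 27685440091, nat_lit 27496168111, nat_lit 28583894029], nat_lit 0, nat_lit 0, nat_lit 0, nat_lit 0, nat_lit 0, nat_lit 0, [], [nat_lit 55, nat_lit 40, nat_lit 40, nat_lit 80]⟩, ⟨p122_k6, nat_lit 0, nat_lit 0, nat_lit 589, nat_lit 0, nat_lit 1119789, [nat_lit 331482000, nat_lit 804768000, nat_lit 1199072000], [], [nat_lit 2957604812, nat_lit 2970937058, nat_lit 3002046284, nat_lit 3019956099, nat_lit 3124195732, nat_lit 3142008741, nat_lit 3182031954, nat_lit 3197880316], nat_lit 1271250, nat_lit 1271250, nat_lit 1271250, nat_lit 1271250, nat_lit 1271250, nat_lit 1271250, [nat_lit 780000, nat_lit 1762500, nat_lit 1271250], [nat_lit 79, nat_lit 40, nat_lit 40, nat_lit 80, nat_lit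 14, nat_lit 401, nat_lit 175, nat_lit 9]⟩,
 ⟨nat_lit 2236, nat_lit 3163, ⟨.ofNat (nat_lit 771478), .ofNat (nat_lit 801955), .ofNat (nat_lit 782556), .ofNat (nat_lit 813032), .ofNat (nat_lit 762142), .ofNat (nat_lit 790650), .ofNat (nat_lit 773529), .ofNat (nat_lit 802037)⟩, ⟨.ofNat (nat_lit 306116), .ofNat (nat_lit 367069), .ofNat (nat_lit 350426), .ofNat (nat_lit 411379), .ofNat (nat_lit 306337), .ofNat (nat_lit 363353), .ofNat (nat_lit 351886), .ofNat (nat_lit 408901)⟩⟩, [⟨nat_lit 19, nat_lit 100, nat_lit 91, nat_lit 96, nat_lit 35796648⟩]⟩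
noncomputable def p122_l106 : Lf2 := ⟨nat_lit 0, nat_lit 20, [nat_lit 5, nat_lit 5, nat_lit 5, nat_lit 20], false, nat_lit 200, nat_lit 248, nat_lit 240, nat_lit 336, ⟨nat_lit 56, nat_lit 944, nat_lit 0, nat_lit 8, nat_lit 315, nat_lit 944, nat_lit 169, nat_lit 0, nat_lit 0, nat_lit 0, nat_lit 0, nat_lit 0, nat_lit 35711211, nat_lit 22888575, nat_lit 8400214, nat_lit 5171004, true, true⟩,
 nat_lit 0, nat_lit 0, nat_lit 1471, nat_lit 0, nat_lit 4220, nat_lit 935, nat_lit 0, nat_lit 0, nat_lit 0, nat_lit 26, nat_lit 0, nat_lit 0, nat_lit 0, nat_lit 0, nat_lit 0, nat_lit 236000, nat_lit 0, nat_lit 0, [(nat_lit 25, [(nat_lit 0, nat_lit 944)])],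
 ⟨p122_k5, nat_lit 0, nat_lit 0, nat_lit 0, nat_lit 0, nat_lit 0, [nat_lit 773744001, nat_lit 1882054401, nat_lit 2349392000], [], [nat_lit 26470606881, nat_lit 27591844081, nat_lit 27408371521, nat_lit 28477365731, nat_lit 27412321337, nat_lit 28445403185, nat_lit 28273802993, nat_lit 29349821330], nat_lit 0, nat_lit 0, nat_lit 0, nat_lit 0, nat_lit 0, nat_lit 0, [], [nat_lit 55, nat_lit 40, nat_lit 40, nat_lit 80]⟩, ⟨p122_k6, nat_lit 0, nat_lit 0, nat_lit 589, nat_lit 0, nat_lit 1119789, [nat_lit 183792000, nat_lit 446208000, nat_lit 664832000], [], [nat_lit 864032758, nat_lit 881276197, nat_lit 921382006, nat_lit 936444044, nat_lit 981626901, nat_lit 990457384, nat_lit 1019858252, nat_lit 1027705148], nat_lit 1271250, nat_lit 1271250, nat_lit 1271250, nat_lit 1271250, nat_lit 1271250, nat_lit 1271250, [nat_lit 780000, nat_lit 1762500, nat_lit 1271250], [nat_lit 79, nat_lit 40, nat_lit 40, nat_lit 80, nat_lit 14,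 nat_lit 401, nat_lit 175, nat_lit 9]⟩,
 ⟨nat_lit 2236, nat_lit 3163, ⟨.ofNat (nat_lit 771478), .ofNat (nat_lit 801955), .ofNat (nat_lit 782556), .ofNat (nat_lit 813032), .ofNat (nat_lit 762142), .ofNat (nat_lit 790650), .ofNat (nat_lit 773529), .ofNat (nat_lit 802037)⟩, ⟨.ofNat (nat_lit 367069), .ofNat (nat_lit 440213), .ofNat (nat_lit 411379), .ofNat (nat_lit 484523), .ofNat (nat_lit 363353), .ofNat (nat_lit 431772), .ofNat (nat_lit 408901), .ofNat (nat_lit 477320)⟩⟩, [⟨nat_lit 4, nat_lit 100, nat_lit 53, nat_lit 87, nat_lit 280011464⟩, ⟨nat_lit 19, nat_lit 100, nat_lit 80, nat_lit 100, nat_lit 18655204⟩]⟩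
noncomputable def p122_l107 : Lf2 := ⟨nat_lit 0, nat_lit 20, [nat_lit 5, nat_lit 5, nat_lit 5, nat_lit 20], false, nat_lit 160, nat_lit 224, nat_lit 240, nat_lit 320, ⟨nat_lit 111, nat_lit 889, nat_lit 0, nat_lit 8, nat_lit 326, nat_lit 889, nat_lit 146, nat_lit 0, nat_lit 0, nat_lit 0, nat_lit 0, nat_lit 0, nat_lit 35925079, nat_lit 24372477, nat_lit 6702444, nat_lit 4984173, true, true⟩,
 nat_lit 0, nat_lit 0, nat_lit 1597, nat_lit 0, nat_lit 4223, nat_lit 1015, nat_lit 0, nat_lit 0, nat_lit 0, nat_lit 55, nat_lit 0, nat_lit 0, nat_lit 0, nat_lit 0, nat_lit 0, nat_lit 222250, nat_lit 0, nat_lit 0, [(nat_lit 25, [(nat_lit 0, nat_lit 889)])],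
 ⟨p122_k5, nat_lit 0, nat_lit 0, nat_lit 0, nat_lit 0, nat_lit 0, [nat_lit 783314001, nat_lit 2045536400, nat_lit 2576652000], [], [nat_lit 26930677854, nat_lit 28068012345, nat_lit 27931198600, nat_lit 29011740672, nat_lit 27955221861, nat_lit 28983218817, nat_lit 28855761775, nat_lit 29833654665], nat_lit 0, nat_lit 0, nat_lit 0, nat_lit 0, nat_lit 0, nat_lit 0, [], [nat_lit 55, nat_lit 40, nat_lit 40, nat_lit 80]⟩, ⟨p122_k6, nat_lit 0, nat_lit 0, nat_lit 565, nat_lit 0, nat_lit 1060419, [nat_lit 364302000, nat_lit 884448000, nat_lit 1317792000], [], [nat_lit 3511776716, nat_lit 3518416161, nat_lit 3560313796, nat_lit 3566135256, nat_lit 3571685376, nat_lit 3575770275, nat_lit 3608247508, nat_lit 3612619192], nat_lit 1271250, nat_lit 1271250, nat_lit 1271250, nat_lit 1271250, nat_lit 1271250, nat_lit 1271250, [nat_lit 780000, nat_lit 1762500, nat_lit 1271250], [nat_lit 79, nat_lit 40, nat_lit 40, nat_lit 80, nat_lit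 14, nat_lit 401, nat_lit 175, nat_lit 9]⟩,
 ⟨nat_lit 2236, nat_lit 3163, ⟨.ofNat (nat_lit 801955), .ofNat (nat_lit 832432), .ofNat (nat_lit 807494), .ofNat (nat_lit 837970), .ofNat (nat_lit 790650), .ofNat (nat_lit 819158), .ofNat (nat_lit 796344), .ofNat (nat_lit 824851)⟩, ⟨.ofNat (nat_lit 306116), .ofNat (nat_lit 403641), .ofNat (nat_lit 328271), .ofNat (nat_lit 425796), .ofNat (nat_lit 306337), .ofNat (nat_lit 397562), .ofNat (nat_lit 329112), .ofNat (nat_lit 420336)⟩⟩, [⟨nat_lit 13, nat_lit 48, nat_lit 71, nat_lit 100, nat_lit 161073026⟩, ⟨nat_lit 4, nat_lit 100, nat_lit 53, nat_lit 84, nat_lit 239750327⟩, ⟨nat_lit 19, nat_lit 100, nat_lit 88, nat_lit 94, nat_lit 31806773⟩]⟩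
noncomputable def p122_l108 : Lf2 := ⟨nat_lit 0, nat_lit 20, [nat_lit 5, nat_lit 5, nat_lit 5, nat_lit 20], false, nat_lit 160, nat_lit 224, nat_lit 240, nat_lit 316, ⟨nat_lit 124, nat_lit 876, nat_lit 0, nat_lit 8, nat_lit 329, nat_lit 876, nat_lit 146, nat_lit 0, nat_lit 0, nat_lit 0, nat_lit 0, nat_lit 0, nat_lit 35645590, nat_lit 24668350, nat_lit 6686060, nat_lit 4990570, true, true⟩,
 nat_lit 0, nat_lit 0, nat_lit 1684, nat_lit 0, nat_lit 4356, nat_lit 1094, nat_lit 0, nat_lit 0, nat_lit 0, nat_lit 64, nat_lit 0, nat_lit 0, nat_lit 0, nat_lit 0, nat_lit 0, nat_lit 219000, nat_lit 0, nat_lit 0, [(nat_lit 25, [(nat_lit 0, nat_lit 876)])],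
 ⟨p122_k5, nat_lit 0, nat_lit 0, nat_lit 0, nat_lit 0, nat_lit 0, [nat_lit 785576000, nat_lit 2084177600, nat_lit 2630368000], [], [nat_lit 26939965688, nat_lit 27517072914, nat_lit 27953800000, nat_lit 28501829192, nat_lit 27952198789, nat_lit 28473373588, nat_lit 28863766797, nat_lit 29360270081], nat_lit 0, nat_lit 0, nat_lit 0, nat_lit 0, nat_lit 0, nat_lit 0, [], [nat_lit 55, nat_lit 40, nat_lit 40, nat_lit 80]⟩, ⟨p122_k28, nat_lit 0, nat_lit 0, nat_lit 508, nat_lit 0, nat_lit 910774, [nat_lit 406968000, nat_lit 988032000, nat_lit 1472128000], [], [nat_lit 3809119401, nat_lit 3822012018, nat_lit 3888976920, nat_lit 3900679072, nat_lit 3942659305, nat_lit 3952061986, nat_lit 4006203986, nat_lit 4017494090], nat_lit 1271250, nat_lit 1271250, nat_lit 1271250, nat_lit 1271250, nat_lit 1271250, nat_lit 1271250, [nat_lit 780000, nat_lit 1762500, nat_lit 1271250], [nat_lit 79, nat_lit 40, nat_lit 40, nat_lit 80, nat_lit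 14, nat_lit 401, nat_lit 175, nat_lit 9]⟩,
 ⟨nat_lit 2738, nat_lit 3163, ⟨.ofNat (nat_lit 807494), .ofNat (nat_lit 837970), .ofNat (nat_lit 813032), .ofNat (nat_lit 843509), .ofNat (nat_lit 801987), .ofNat (nat_lit 831518), .ofNat (nat_lit 807591), .ofNat (nat_lit 837122)⟩, ⟨.ofNat (nat_lit 306116), .ofNat (nat_lit 403641), .ofNat (nat_lit 328271), .ofNat (nat_lit 425796), .ofNat (nat_lit 306433), .ofNat (nat_lit 400931), .ofNat (nat_lit 328850), .ofNat (nat_lit 423348)⟩⟩, [⟨nat_lit 4, nat_lit 100, nat_lit 57, nat_lit 84, nat_lit 222867550⟩, ⟨nat_lit 19, nat_lit 100, nat_lit 91, nat_lit 96, nat_lit 39317277⟩]⟩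
noncomputable def p122_l109 : Lf2 := ⟨nat_lit 0, nat_lit 20, [nat_lit 5, nat_lit 5, nat_lit 5, nat_lit 20], false, nat_lit 160, nat_lit 208, nat_lit 240, nat_lit 316, ⟨nat_lit 119, nat_lit 881, nat_lit 0, nat_lit 8, nat_lit 327, nat_lit 881, nat_lit 141, nat_lit 0, nat_lit 0, nat_lit 0, nat_lit 0, nat_lit 0, nat_lit 36044313, nat_lit 24578749, nat_lit 6376938, nat_lit 4940636, true, true⟩,
 nat_lit 0, nat_lit 0, nat_lit 1625, nat_lit 0, nat_lit 4281, nat_lit 1056, nat_lit 0, nat_lit 0, nat_lit 0, nat_lit 61, nat_lit 0, nat_lit 0, nat_lit 0, nat_lit 0, nat_lit 0, nat_lit 220250, nat_lit 0, nat_lit 0, [(nat_lit 25, [(nat_lit 0, nat_lit 881)])],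
 ⟨p122_k29, nat_lit 0, nat_lit 0, nat_lit 0, nat_lit 0, nat_lit 0, [nat_lit 784706000, nat_lit 2069315601, nat_lit 2609708000], [], [nat_lit 27514004178, nat_lit 28086352016, nat_lit 28491637293, nat_lit 29035291585, nat_lit 28236970806, nat_lit 28767903766, nat_lit 29141406191, nat_lit 29646402581], nat_lit 0, nat_lit 0, nat_lit 0, nat_lit 0, nat_lit 0, nat_lit 0, [], [nat_lit 55, nat_lit 40, nat_lit 40, nat_lit 80]⟩, ⟨p122_k28, nat_lit 0, nat_lit 0, nat_lit 563, nat_lit 0, nat_lit 1058499, [nat_lit 390558000, nat_lit 948192000, nat_lit 1412768000], [], [nat_lit 3736589280, nat_lit 3743813573, nat_lit 3787573319, nat_lit 3793942474, nat_lit 3797915547, nat_lit 3802601620, nat_lit 3837113292, nat_lit 3844675779], nat_lit 1271250, nat_lit 1271250, nat_lit 1271250, nat_lit 1271250, nat_lit 1271250, nat_lit 1271250, [nat_lit 780000, nat_lit 1762500, nat_lit 1271250], [nat_lit 79, nat_lit 40, nat_lit 40, nat_lit 80, nat_lit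 14, nat_lit 401, nat_lit 175, nat_lit 9]⟩,
 ⟨nat_lit 2236, nat_lit 2739, ⟨.ofNat (nat_lit 801987), .ofNat (nat_lit 831518), .ofNat (nat_lit 807591), .ofNat (nat_lit 837122), .ofNat (nat_lit 796344), .ofNat (nat_lit 824851), .ofNat (nat_lit 802037), .ofNat (nat_lit 830545)⟩, ⟨.ofNat (nat_lit 306433), .ofNat (nat_lit 377306), .ofNat (nat_lit 328850), .ofNat (nat_lit 399724), .ofNat (nat_lit 306337), .ofNat (nat_lit 374756), .ofNat (nat_lit 329112), .ofNat (nat_lit 397530)⟩⟩, [⟨nat_lit 13, nat_lit 48, nat_lit 70, nat_lit 100, nat_lit 151747085⟩, ⟨nat_lit 16, nat_lit 49, nat_lit 100, nat_lit 84, nat_lit 258391987⟩, ⟨nat_lit 19, nat_lit 100, nat_lit 91, nat_lit 96, nat_lit 33424135⟩]⟩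
noncomputable def p122_l110 : Lf2 := ⟨nat_lit 0, nat_lit 20, [nat_lit 5, nat_lit 5, nat_lit 5, nat_lit 20], false, nat_lit 160, nat_lit 180, nat_lit 240, nat_lit 332, ⟨nat_lit 107, nat_lit 893, nat_lit 0, nat_lit 8, nat_lit 327, nat_lit 893, nat_lit 142, nat_lit 0, nat_lit 0, nat_lit 0, nat_lit 0, nat_lit 0, nat_lit 36003546, nat_lit 24564417, nat_lit 6432037, nat_lit 4948752, true, true⟩,
 nat_lit 0, nat_lit 0, nat_lit 1540, nat_lit 0, nat_lit 4288, nat_lit 980, nat_lit 0, nat_lit 0, nat_lit 0, nat_lit 52, nat_lit 0, nat_lit 0, nat_lit 0, nat_lit 0, nat_lit 0, nat_lit 223250, nat_lit 0, nat_lit 0, [(nat_lit 25, [(nat_lit 0, nat_lit 893)])],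
 ⟨p122_k5, nat_lit 0, nat_lit 0, nat_lit 0, nat_lit 0, nat_lit 0, [nat_lit 782618001, nat_lit 2033646801, nat_lit 2560124000], [], [nat_lit 26904442625, nat_lit 28050026721, nat_lit 27911470001, nat_lit 28999595233, nat_lit 27222732437, nat_lit 28333762567, nat_lit 28198166753, nat_lit 29254425065], nat_lit 0, nat_lit 0, nat_lit 0, nat_lit 0, nat_lit 0, nat_lit 0, [], [nat_lit 55, nat_lit 40, nat_lit 40, nat_lit 80]⟩, ⟨p122_k6, nat_lit 0, nat_lit 0, nat_lit 516, nat_lit 0, nat_lit 929630, [nat_lit 351174000, nat_lit 852576000, nat_lit 1270304000], [], [nat_lit 3294821626, nat_lit 3310562371, nat_lit 3353650768, nat_lit 3377240127, nat_lit 3456862787, nat_lit 3474257220, nat_lit 3518351536, nat_lit 3533726589], nat_lit 1271250, nat_lit 1271250, nat_lit 1271250, nat_lit 1271250, nat_lit 1271250, nat_lit 1271250, [nat_lit 780000, nat_lit 1762500, nat_lit 1271250], [nat_lit 79, nat_lit 40, nat_lit 40, nat_lit 80, nat_lit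 14, nat_lit 401, nat_lit 175, nat_lit 9]⟩,
 ⟨nat_lit 2236, nat_lit 3163, ⟨.ofNat (nat_lit 801955), .ofNat (nat_lit 832432), .ofNat (nat_lit 813032), .ofNat (nat_lit 843509), .ofNat (nat_lit 790650), .ofNat (nat_lit 819158), .ofNat (nat_lit 802037), .ofNat (nat_lit 830545)⟩, ⟨.ofNat (nat_lit 328271), .ofNat (nat_lit 358747), .ofNat (nat_lit 350426), .ofNat (nat_lit 380902), .ofNat (nat_lit 329112), .ofNat (nat_lit 357619), .ofNat (nat_lit 351886), .ofNat (nat_lit 380394)⟩⟩, [⟨nat_lit 13, nat_lit 48, nat_lit 71, nat_lit 100, nat_lit 326120346⟩, ⟨nat_lit 22, nat_lit 67, nat_lit 85, nat_lit 100, nat_lit 52270991⟩]⟩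
noncomputable def p122_l111 : Lf2 := ⟨nat_lit 0, nat_lit 15, [nat_lit 30, nat_lit 5, nat_lit 5, nat_lit 20], false, nat_lit 180, nat_lit 200, nat_lit 240, nat_lit 336, ⟨nat_lit 91, nat_lit 909, nat_lit 0, nat_lit 8, nat_lit 326, nat_lit 909, nat_lit 154, nat_lit 0, nat_lit 0, nat_lit 0, nat_lit 0, nat_lit 0, nat_lit 35597072, nat_lit 24187185, nat_lit 7215743, nat_lit 5053745, true, true⟩,
 nat_lit 0, nat_lit 0, nat_lit 1292, nat_lit 0, nat_lit 4192, nat_lit 822, nat_lit 0, nat_lit 0, nat_lit 0, nat_lit 32, nat_lit 0, nat_lit 0, nat_lit 0, nat_lit 0, nat_lit 0, nat_lit 227250, nat_lit 0, nat_lit 0, [(nat_lit 25, [(nat_lit 0, nat_lit 909)])],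
 ⟨p122_k30, nat_lit 0, nat_lit 0, nat_lit 0, nat_lit 0, nat_lit 0, [nat_lit 779834001, nat_lit 1986088400, nat_lit 2494012000], [], [nat_lit 27199138324, nat_lit 28298554494, nat_lit 28165478368, nat_lit 29210497928, nat_lit 27520205032, nat_lit 28585637308, nat_lit 28455467536, nat_lit 29468581168], nat_lit 0, nat_lit 0, nat_lit 0, nat_lit 0, nat_lit 0, nat_lit 0, [], [nat_lit 55, nat_lit 40, nat_lit 40, nat_lit 80]⟩, ⟨p122_k31, nat_lit 0, nat_lit 0, nat_lit 452, nat_lit 0, nat_lit 888949, [nat_lit 298662000, nat_lit 725088000, nat_lit 895622000], [], [nat_lit 2831904614, nat_lit 2840032745, nat_lit 2886035800, nat_lit 2894614423, nat_lit 2969898076, nat_lit 2976027345, nat_lit 3020187939, nat_lit 3028410110], nat_lit 1271250, nat_lit 1271250, nat_lit 1271250, nat_lit 1271250, nat_lit 1271250, nat_lit 1271250, [nat_lit 780000, nat_lit 1762500, nat_lit 1271250], [nat_lit 99, nat_lit 40, nat_lit 40, nat_lit 80, nat_lit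 17, nat_lit 317, nat_lit 100, nat_lit 7]⟩,
 ⟨nat_lit 2236, nat_lit 3163, ⟨.ofNat (nat_lit 801955), .ofNat (nat_lit 832432), .ofNat (nat_lit 807494), .ofNat (nat_lit 837970), .ofNat (nat_lit 790650), .ofNat (nat_lit 819158), .ofNat (nat_lit 796344), .ofNat (nat_lit 824851)⟩, ⟨.ofNat (nat_lit 358747), .ofNat (nat_lit 389224), .ofNat (nat_lit 380902), .ofNat (nat_lit 411379), .ofNat (nat_lit 357619), .ofNat (nat_lit 386127), .ofNat (nat_lit 380394), .ofNat (nat_lit 408901)⟩⟩, [⟨nat_lit 13, nat_lit 48, nat_lit 71, nat_lit 100, nat_lit 341521735⟩, ⟨nat_lit 22, nat_lit 66, nat_lit 78, nat_lit 100, nat_lit 44665304⟩]⟩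
noncomputable def p122_l112 : Lf2 := ⟨nat_lit 0, nat_lit 20, [nat_lit 5, nat_lit 5, nat_lit 5, nat_lit 20], false, nat_lit 180, nat_lit 200, nat_lit 240, nat_lit 336, ⟨nat_lit 991, nat_lit 9, nat_lit 0, nat_lit 8, nat_lit 325, nat_lit 9, nat_lit 154, nat_lit 0, nat_lit 0, nat_lit 0, nat_lit 0, nat_lit 0, nat_lit 35631047, nat_lit 24148123, nat_lit 7220830, nat_lit 5053267, true, true⟩,
 nat_lit 0, nat_lit 0, nat_lit 8887, nat_lit 0, nat_lit 6192, nat_lit 5655, nat_lit 332, nat_lit 0, nat_lit 0, nat_lit 763, nat_lit 0, nat_lit 0, nat_lit 0, nat_lit 0, nat_lit 0, nat_lit 2250, nat_lit 0, nat_lit 0, [(nat_lit 25, [(nat_lit 0, nat_lit 9)])],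
 ⟨p122_k8, nat_lit 0, nat_lit 0, nat_lit 0, nat_lit 0, nat_lit 0, [nat_lit 936434000, nat_lit 3264781201, nat_lit 6212812000], [], [nat_lit 28566459772, nat_lit 29822109282, nat_lit 29644586308, nat_lit 30831540672, nat_lit 28795058172, nat_lit 30007986792, nat_lit 29834220492, nat_lit 31016838640], nat_lit 0, nat_lit 0, nat_lit 0, nat_lit 0, nat_lit 0, nat_lit 0, [], [nat_lit 20, nat_lit 40, nat_lit 40, nat_lit 80]⟩, ⟨p122_k9, nat_lit 0, nat_lit 0, nat_lit 375, nat_lit 0, nat_lit 642891, [nat_lit 3252462000, nat_lit 6193750000, nat_lit 11765152000], [], [nat_lit 32443306135, nat_lit 32503690655, nat_lit 33003457177, nat_lit 33059946167, nat_lit 34350151059, nat_lit 34407064198, nat_lit 34903939506, nat_lit 34965071112], nat_lit 1271250, nat_lit 1271250, nat_lit 1271250, nat_lit 1271250, nat_lit 1271250, nat_lit 1271250, [nat_lit 780000, nat_lit 1435000, nat_lit 1271250], [nat_lit 23, nat_lit 40, nat_lit 40, nat_lit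 80, nat_lit 12, nat_lit 401, nat_lit 175, nat_lit 9]⟩,
 ⟨nat_lit 2236, nat_lit 3163, ⟨.ofNat (nat_lit 801955), .ofNat (nat_lit 832432), .ofNat (nat_lit 805278), .ofNat (nat_lit 835755), .ofNat (nat_lit 790650), .ofNat (nat_lit 819158), .ofNat (nat_lit 794066), .ofNat (nat_lit 822574)⟩, ⟨.ofNat (nat_lit 358747), .ofNat (nat_lit 389224), .ofNat (nat_lit 380902), .ofNat (nat_lit 411379), .ofNat (nat_lit 357619), .ofNat (nat_lit 386127), .ofNat (nat_lit 380394), .ofNat (nat_lit 408901)⟩⟩, [⟨nat_lit 16, nat_lit 53, nat_lit 100, nat_lit 90, nat_lit 513575125⟩, ⟨nat_lit 7, nat_lit 85, nat_lit 100, nat_lit 98, nat_lit 351837598⟩]⟩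
noncomputable def p122_l113 : Lf2 := ⟨nat_lit 0, nat_lit 20, [nat_lit 5, nat_lit 5, nat_lit 5, nat_lit 20], false, nat_lit 180, nat_lit 200, nat_lit 240, nat_lit 336, ⟨nat_lit 1000, nat_lit 0, nat_lit 0, nat_lit 0, nat_lit 0, nat_lit 0, nat_lit 0, nat_lit 0, nat_lit 0, nat_lit 0, nat_lit 0, nat_lit 0, nat_lit 0, nat_lit 0, nat_lit 0, nat_lit 0, false, false⟩,
 nat_lit 0, nat_lit 0, nat_lit 8841, nat_lit 0, nat_lit 6746, nat_lit 5699, nat_lit 271, nat_lit 0, nat_lit 0, nat_lit 771, nat_lit 0, nat_lit 0, nat_lit 0, nat_lit 0, nat_lit 0, nat_lit 0, nat_lit 0, nat_lit 0, [],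
 ⟨p122_k8, nat_lit 0, nat_lit 0, nat_lit 0, nat_lit 0, nat_lit 0, [nat_lit 938000000, nat_lit 3282000000, nat_lit 6250000000], [], [nat_lit 28903265286, nat_lit 30219819479, nat_lit 30028382379, nat_lit 31271189361, nat_lit 29113657861, nat_lit 30384436546, nat_lit 30197048771, nat_lit 31404429070], nat_lit 0, nat_lit 0, nat_lit 0, nat_lit 0, nat_lit 0, nat_lit 0, [], [nat_lit 20, nat_lit 40, nat_lit 40, nat_lit 80]⟩, ⟨p122_k32, nat_lit 0, nat_lit 0, nat_lit 375, nat_lit 0, nat_lit 642533, [nat_lit 3282000000, nat_lit 6250000000, nat_lit 11872000000], [], [nat_lit 32438677535, nat_lit 32479298167, nat_lit 32999803611, nat_lit 33037806270, nat_lit 34346831369, nat_lit 34385121113, nat_lit 34900471817, nat_lit 34939984639], nat_lit 1271250, nat_lit 1271250, nat_lit 1271250, nat_lit 1271250, nat_lit 1271250, nat_lit 1271250, [nat_lit 780000, nat_lit 1435000, nat_lit 1271250], [nat_lit 23, nat_lit 40, nat_lit 40, nat_lit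 80, nat_lit 12, nat_lit 401, nat_lit 175, nat_lit 9]⟩,
 zbF0, [⟨nat_lit 4, nat_lit 100, nat_lit 53, nat_lit 90, nat_lit 488231960⟩, ⟨nat_lit 7, nat_lit 86, nat_lit 100, nat_lit 98, nat_lit 354277741⟩]⟩
noncomputable def p122_l114 : Lf2 := ⟨nat_lit 0, nat_lit 20, [nat_lit 5, nat_lit 5, nat_lit 5, nat_lit 20], false, nat_lit 180, nat_lit 200, nat_lit 240, nat_lit 332, ⟨nat_lit 276, nat_lit 724, nat_lit 0, nat_lit 8, nat_lit 329, nat_lit 724, nat_lit 154, nat_lit 0, nat_lit 0, nat_lit 0, nat_lit 0, nat_lit 0, nat_lit 35326468, nat_lit 24482670, nat_lit 7190862, nat_lit 5059045, true, true⟩,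
 nat_lit 0, nat_lit 0, nat_lit 3200, nat_lit 0, nat_lit 3090, nat_lit 2080, nat_lit 137, nat_lit 0, nat_lit 0, nat_lit 207, nat_lit 0, nat_lit 0, nat_lit 0, nat_lit 0, nat_lit 0, nat_lit 359200, nat_lit 0, nat_lit 0, [(nat_lit 25, [(nat_lit 1, nat_lit 608), (nat_lit 2, nat_lit 116)])],
 ⟨p122_k8, nat_lit 0, nat_lit 0, nat_lit 0, nat_lit 0, nat_lit 0, [nat_lit 942860801, nat_lit 1470940801, nat_lit 1829180800], [], [nat_lit 26795957740, nat_lit 27253271372, nat_lit 27610971085, nat_lit 28048081100, nat_lit 27127436486, nat_lit 27571000628, nat_lit 27918009765, nat_lit 28359407113], nat_lit 0, nat_lit 0, nat_lit 0, nat_lit 0, nat_lit 0, nat_lit 0, [], [nat_lit 20, nat_lit 40, nat_lit 40, nat_lit 80]⟩, ⟨p122_k19, nat_lit 0, nat_lit 0, nat_lit 412, nat_lit 0, nat_lit 755753, [nat_lit 905832000, nat_lit 1725000000, nat_lit 3276672000], [], [nat_lit 8040231777, nat_lit 8067369511, nat_lit 8203176571, nat_lit 8228043611,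 nat_lit 8516881236, nat_lit 8543242763, nat_lit 8682530474, nat_lit 8709096147], nat_lit 1271250, nat_lit 1271250, nat_lit 1271250, nat_lit 1271250, nat_lit 1271250, nat_lit 1271250, [nat_lit 780000, nat_lit 1435000, nat_lit 1271250], [nat_lit 23, nat_lit 40, nat_lit 40, nat_lit 80, nat_lit 12, nat_lit 401, nat_lit 175, nat_lit 9]⟩,
 ⟨nat_lit 2738, nat_lit 3163, ⟨.ofNat (nat_lit 807494), .ofNat (nat_lit 837970), .ofNat (nat_lit 813032), .ofNat (nat_lit 843509), .ofNat (nat_lit 801987), .ofNat (nat_lit 831518), .ofNat (nat_lit 807591), .ofNat (nat_lit 837122)⟩, ⟨.ofNat (nat_lit 358747), .ofNat (nat_lit 389224), .ofNat (nat_lit 380902), .ofNat (nat_lit 411379), .ofNat (nat_lit 358381), .ofNat (nat_lit 387912), .ofNat (nat_lit 380798), .ofNat (nat_lit 410329)⟩⟩, [⟨nat_lit 19, nat_lit 100, nat_lit 88, nat_lit 99, nat_lit 95077545⟩]⟩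
noncomputable def p122_l115 : Lf2 := ⟨nat_lit 0, nat_lit 20, [nat_lit 5, nat_lit 5, nat_lit 5, nat_lit 20], false, nat_lit 180, nat_lit 200, nat_lit 240, nat_lit 332, ⟨nat_lit 524, nat_lit 476, nat_lit 0, nat_lit 8, nat_lit 327, nat_lit 476, nat_lit 154, nat_lit 0, nat_lit 0, nat_lit 0, nat_lit 0, nat_lit 0, nat_lit 35523192, nat_lit 24282408, nat_lit 7194400, nat_lit 5053600, true, true⟩,
 nat_lit 0, nat_lit 0, nat_lit 5067, nat_lit 0, nat_lit 2848, nat_lit 3294, nat_lit 423, nat_lit 0, nat_lit 0, nat_lit 665, nat_lit 0, nat_lit 0, nat_lit 0, nat_lit 0, nat_lit 0, nat_lit 119000, nat_lit 0, nat_lit 0, [(nat_lit 25, [(nat_lit 0, nat_lit 476)])],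
 ⟨p122_k33, nat_lit 0, nat_lit 0, nat_lit 0, nat_lit 0, nat_lit 0, [nat_lit 855176000, nat_lit 1171189201, nat_lit 1960104400, nat_lit 4283168000], [], [nat_lit 27043127501, nat_lit 27479383361, nat_lit 27821142697, nat_lit 28242420321, nat_lit 27323780001, nat_lit 27748551769, nat_lit 28081244481, nat_lit 28491264800], nat_lit 0, nat_lit 0, nat_lit 0, nat_lit 0, nat_lit 0, nat_lit 0, [], [nat_lit 257, nat_lit 40, nat_lit 20, nat_lit 40]⟩, ⟨p122_k34, nat_lit 0, nat_lit 0, nat_lit 500, nat_lit 0, nat_lit 900876, [nat_lit 1719768000, nat_lit 2456512000, nat_lit 6220928000], [], [nat_lit 15328864172, nat_lit 15373017700, nat_lit 15593627177, nat_lit 15640414051, nat_lit 16062506722, nat_lit 16100030270, nat_lit 16314135796, nat_lit 16362795297], nat_lit 1271250, nat_lit 1271250, nat_lit 1271250, nat_lit 1271250, nat_lit 1271250, nat_lit 1271250, [nat_lit 780000, nat_lit 1100000, nat_lit 2470000], [nat_lit 158, nat_lit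 40, nat_lit 40, nat_lit 80, nat_lit 65, nat_lit 401, nat_lit 175, nat_lit 9]⟩,
 ⟨nat_lit 2236, nat_lit 2739, ⟨.ofNat (nat_lit 801987), .ofNat (nat_lit 831518), .ofNat (nat_lit 807591), .ofNat (nat_lit 837122), .ofNat (nat_lit 796344), .ofNat (nat_lit 824851), .ofNat (nat_lit 802037), .ofNat (nat_lit 830545)⟩, ⟨.ofNat (nat_lit 358381), .ofNat (nat_lit 387912), .ofNat (nat_lit 380798), .ofNat (nat_lit 410329), .ofNat (nat_lit 357619), .ofNat (nat_lit 386127), .ofNat (nat_lit 380394), .ofNat (nat_lit 408901)⟩⟩, [⟨nat_lit 13, nat_lit 48, nat_lit 70, nat_lit 100, nat_lit 93771812⟩, ⟨nat_lit 4, nat_lit 100, nat_lit 48, nat_lit 89, nat_lit 299668243⟩, ⟨nat_lit 19, nat_lit 100, nat_lit 88, nat_lit 99, nat_lit 170416926⟩]⟩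
noncomputable def p122_l116 : Lf2 := ⟨nat_lit 0, nat_lit 15, [nat_lit 30, nat_lit 5, nat_lit 5, nat_lit 20], false, nat_lit 200, nat_lit 248, nat_lit 240, nat_lit 336, ⟨nat_lit 881, nat_lit 119, nat_lit 0, nat_lit 8, nat_lit 328, nat_lit 119, nat_lit 174, nat_lit 0, nat_lit 0, nat_lit 0, nat_lit 0, nat_lit 0, nat_lit 34542919, nat_lit 23879889, nat_lit 8577192, nat_lit 5225743, true, true⟩,
 nat_lit 0, nat_lit 0, nat_lit 8946, nat_lit 0, nat_lit 4633, nat_lit 5692, nat_lit 393, nat_lit 0, nat_lit 0, nat_lit 1041, nat_lit 0, nat_lit 0, nat_lit 0, nat_lit 0, nat_lit 0, nat_lit 119000, nat_lit 0, nat_lit 0, [(nat_lit 25, [(nat_lit 2, nat_lit 119)])],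
 ⟨p122_k35, nat_lit 0, nat_lit 0, nat_lit 0, nat_lit 0, nat_lit 0, [nat_lit 906393601, nat_lit 1919568801, nat_lit 5042292800], [], [nat_lit 27917733453, nat_lit 28442800425, nat_lit 28832433008, nat_lit 29331281265, nat_lit 28690261638, nat_lit 29173765754, nat_lit 29572392409, nat_lit 30108344899], nat_lit 0, nat_lit 0, nat_lit 0, nat_lit 0, nat_lit 0, nat_lit 0, [], [nat_lit 131, nat_lit 40, nat_lit 40, nat_lit 80]⟩, ⟨p122_k36, nat_lit 0, nat_lit 0, nat_lit 0, nat_lit 0, nat_lit 773290, [nat_lit 2891442000, nat_lit 4130128000, nat_lit 8670802000], [], [nat_lit 25226854530, nat_lit 25400647404, nat_lit 25732818322, nat_lit 25893802901, nat_lit 26902090868, nat_lit 27075526034, nat_lit 27410013997, nat_lit 27570522125], nat_lit 1271250, nat_lit 1271250, nat_lit 1271250, nat_lit 1271250, nat_lit 1271250, nat_lit 1271250, [nat_lit 780000, nat_lit 1100000, nat_lit 2127500], [nat_lit 42, nat_lit 40, nat_lit 40, nat_lit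 80]⟩,
 ⟨nat_lit 2738, nat_lit 3163, ⟨.ofNat (nat_lit 801955), .ofNat (nat_lit 832432), .ofNat (nat_lit 813032), .ofNat (nat_lit 843509), .ofNat (nat_lit 796383), .ofNat (nat_lit 825913), .ofNat (nat_lit 807591), .ofNat (nat_lit 837122)⟩, ⟨.ofNat (nat_lit 389224), .ofNat (nat_lit 462368), .ofNat (nat_lit 411379), .ofNat (nat_lit 484523), .ofNat (nat_lit 387912), .ofNat (nat_lit 458785), .ofNat (nat_lit 410329), .ofNat (nat_lit 481203)⟩⟩, [⟨nat_lit 16, nat_lit 57, nat_lit 100, nat_lit 90, nat_lit 524730424⟩, ⟨nat_lit 7, nat_lit 87, nat_lit 100, nat_lit 99, nat_lit 308736156⟩]⟩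
noncomputable def p122_l117 : Lf2 := ⟨nat_lit 0, nat_lit 15, [nat_lit 30, nat_lit 5, nat_lit 5, nat_lit 20], false, nat_lit 200, nat_lit 232, nat_lit 240, nat_lit 336, ⟨nat_lit 279, nat_lit 721, nat_lit 0, nat_lit 8, nat_lit 325, nat_lit 721, nat_lit 169, nat_lit 0, nat_lit 0, nat_lit 0, nat_lit 0, nat_lit 0, nat_lit 34962625, nat_lit 23815687, nat_lit 8221688, nat_lit 5178849, true, true⟩,
 nat_lit 0, nat_lit 0, nat_lit 2913, nat_lit 0, nat_lit 2756, nat_lit 1853, nat_lit 269, nat_lit 0, nat_lit 0, nat_lit 313, nat_lit 0, nat_lit 0, nat_lit 0, nat_lit 0, nat_lit 0, nat_lit 180250, nat_lit 0, nat_lit 0, [(nat_lit 25, [(nat_lit 0, nat_lit 721)])],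
 ⟨p122_k37, nat_lit 0, nat_lit 0, nat_lit 0, nat_lit 0, nat_lit 0, [nat_lit 812546001, nat_lit 1310134801, nat_lit 2544899600], [], [nat_lit 27220235323, nat_lit 27662791167, nat_lit 28010751787, nat_lit 28441702038, nat_lit 27857848975, nat_lit 28280058982, nat_lit 28611881086, nat_lit 29023628419], nat_lit 0, nat_lit 0, nat_lit 0, nat_lit 0, nat_lit 0, nat_lit 0, [], [nat_lit 152, nat_lit 40, nat_lit 20, nat_lit 40]⟩, ⟨p122_k36, nat_lit 0, nat_lit 0, nat_lit 0, nat_lit 0, nat_lit 919642, [nat_lit 915678000, nat_lit 1307952000, nat_lit 2745918000], [], [nat_lit 8125129238, nat_lit 8169860059, nat_lit 8265093746, nat_lit 8306303053, nat_lit 8544635388, nat_lit 8589413956, nat_lit 8685526106, nat_lit 8726746569], nat_lit 1271250, nat_lit 1271250, nat_lit 1271250, nat_lit 1271250, nat_lit 1271250, nat_lit 1271250, [nat_lit 780000, nat_lit 1100000, nat_lit 2127500], [nat_lit 42, nat_lit 40, nat_lit 20, nat_lit 40]⟩,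
 ⟨nat_lit 2236, nat_lit 2739, ⟨.ofNat (nat_lit 796383), .ofNat (nat_lit 825913), .ofNat (nat_lit 807591), .ofNat (nat_lit 837122), .ofNat (nat_lit 790650), .ofNat (nat_lit 819158), .ofNat (nat_lit 802037), .ofNat (nat_lit 830545)⟩, ⟨.ofNat (nat_lit 387912), .ofNat (nat_lit 435161), .ofNat (nat_lit 410329), .ofNat (nat_lit 457578), .ofNat (nat_lit 386127), .ofNat (nat_lit 431740), .ofNat (nat_lit 408901), .ofNat (nat_lit 454514)⟩⟩, [⟨nat_lit 13, nat_lit 53, nat_lit 65, nat_lit 100, nat_lit 118552642⟩, ⟨nat_lit 13, nat_lit 48, nat_lit 71, nat_lit 100, nat_lit 98367146⟩, ⟨nat_lit 16, nat_lit 48, nat_lit 100, nat_lit 89, nat_lit 391146979⟩, ⟨nat_lit 7, nat_lit 87, nat_lit 100, nat_lit 99, nat_lit 92089079⟩]⟩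
noncomputable def p122_l118 : Lf2 := ⟨nat_lit 0, nat_lit 20, [nat_lit 5, nat_lit 5, nat_lit 5, nat_lit 20], false, nat_lit 200, nat_lit 248, nat_lit 240, nat_lit 336, ⟨nat_lit 1000, nat_lit 0, nat_lit 0, nat_lit 0, nat_lit 0, nat_lit 0, nat_lit 0, nat_lit 0, nat_lit 0, nat_lit 0, nat_lit 0, nat_lit 0, nat_lit 0, nat_lit 0, nat_lit 0, nat_lit 0, false, false⟩,
 nat_lit 0, nat_lit 0, nat_lit 9455, nat_lit 0, nat_lit 9105, nat_lit 6016, nat_lit 0, nat_lit 0, nat_lit 0, nat_lit 806, nat_lit 37, nat_lit 0, nat_lit 0, nat_lit 0, nat_lit 0, nat_lit 0, nat_lit 0, nat_lit 0, [],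
 ⟨p122_k8, nat_lit 0, nat_lit 0, nat_lit 0, nat_lit 0, nat_lit 0, [nat_lit 938000000, nat_lit 3282000000, nat_lit 6250000000], [], [nat_lit 30401944305, nat_lit 31160499987, nat_lit 31673665980, nat_lit 32386405525, nat_lit 30905738383, nat_lit 31592629954, nat_lit 32046584779, nat_lit 32692008625], nat_lit 0, nat_lit 0, nat_lit 0, nat_lit 0, nat_lit 0, nat_lit 0, [], [nat_lit 20, nat_lit 40, nat_lit 40, nat_lit 80]⟩, ⟨p122_k9, nat_lit 0, nat_lit 0, nat_lit 0, nat_lit 0, nat_lit 542136, [nat_lit 3726000000, nat_lit 6990000000, nat_lit 13056000000], [], [nat_lit 33685616282, nat_lit 33914342714, nat_lit 34326911002, nat_lit 34540225986, nat_lit 35675478030, nat_lit 35866265136, nat_lit 36237104372, nat_lit 36413691535], nat_lit 1271250, nat_lit 1271250, nat_lit 1271250, nat_lit 1271250, nat_lit 1271250, nat_lit 1271250, [nat_lit 780000, nat_lit 1435000, nat_lit 1271250], [nat_lit 23, nat_lit 40, nat_lit 40, nat_lit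 80]⟩,
 zbF0, [⟨nat_lit 4, nat_lit 100, nat_lit 57, nat_lit 90, nat_lit 484455785⟩, ⟨nat_lit 7, nat_lit 87, nat_lit 100, nat_lit 99, nat_lit 367723946⟩]⟩
noncomputable def p122_l119 : Lf2 := ⟨nat_lit 0, nat_lit 20, [nat_lit 5, nat_lit 5, nat_lit 5, nat_lit 20], false, nat_lit 200, nat_lit 232, nat_lit 240, nat_lit 336, ⟨nat_lit 1000, nat_lit 0, nat_lit 0, nat_lit 0, nat_lit 0, nat_lit 0, nat_lit 0, nat_lit 0, nat_lit 0, nat_lit 0, nat_lit 0, nat_lit 0, nat_lit 0, nat_lit 0, nat_lit 0, nat_lit 0, false, false⟩,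
 nat_lit 0, nat_lit 0, nat_lit 9340, nat_lit 0, nat_lit 4411, nat_lit 5943, nat_lit 452, nat_lit 0, nat_lit 0, nat_lit 780, nat_lit 0, nat_lit 0, nat_lit 0, nat_lit 0, nat_lit 0, nat_lit 0, nat_lit 0, nat_lit 0, [],
 ⟨p122_k13, nat_lit 0, nat_lit 0, nat_lit 0, nat_lit 0, nat_lit 0, [nat_lit 938000000, nat_lit 3282000000, nat_lit 6250000000], [], [nat_lit 28387162325, nat_lit 28643900362, nat_lit 29258892655, nat_lit 29503007765, nat_lit 28820244024, nat_lit 29063821701, nat_lit 29684565993, nat_lit 29943196698], nat_lit 0, nat_lit 0, nat_lit 0, nat_lit 0, nat_lit 0, nat_lit 0, [], [nat_lit 20, nat_lit 40, nat_lit 40, nat_lit 80]⟩, ⟨p122_k9, nat_lit 0, nat_lit 0, nat_lit 0, nat_lit 0, nat_lit 581329, [nat_lit 3282000000, nat_lit 6250000000, nat_lit 11872000000], [], [nat_lit 32042944000, nat_lit 32170345133, nat_lit 32754299144, nat_lit 32873087256, nat_lit 34133963562, nat_lit 34229433294, nat_lit 34808452591, nat_lit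 34931852670], nat_lit 1271250, nat_lit 1271250, nat_lit 1271250, nat_lit 1271250, nat_lit 1271250, nat_lit 1271250, [nat_lit 780000, nat_lit 1435000, nat_lit 1271250], [nat_lit 23, nat_lit 40, nat_lit 40, nat_lit 80]⟩,
 zbF0, [⟨nat_lit 16, nat_lit 51, nat_lit 100, nat_lit 89, nat_lit 613368648⟩, ⟨nat_lit 19, nat_lit 100, nat_lit 80, nat_lit 100, nat_lit 355144452⟩]⟩
noncomputable def p122_l120 : Lf2 := ⟨nat_lit 0, nat_lit 20, [nat_lit 5, nat_lit 5, nat_lit 5, nat_lit 20], false, nat_lit 200, nat_lit 220, nat_lit 240, nat_lit 336, ⟨nat_lit 757, nat_lit 243, nat_lit 0, nat_lit 8, nat_lit 324, nat_lit 243, nat_lit 165, nat_lit 0, nat_lit 0, nat_lit 0, nat_lit 0, nat_lit 0, nat_lit 35249497, nat_lit 23756932, nat_lit 7993571, nat_lit 5147231, true, true⟩,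
 nat_lit 0, nat_lit 0, nat_lit 9367, nat_lit 0, nat_lit 2954, nat_lit 5960, nat_lit 445, nat_lit 0, nat_lit 0, nat_lit 561, nat_lit 0, nat_lit 0, nat_lit 0, nat_lit 0, nat_lit 0, nat_lit 60750, nat_lit 0, nat_lit 0, [(nat_lit 25, [(nat_lit 0, nat_lit 243)])],
 ⟨p122_k14, nat_lit 0, nat_lit 0, nat_lit 0, nat_lit 0, nat_lit 0, [nat_lit 895718001, nat_lit 2817092401, nat_lit 5245924000], [], [nat_lit 27759157160, nat_lit 27973921635, nat_lit 28507497228, nat_lit 28719900431, nat_lit 28076941150, nat_lit 28285655275, nat_lit 28816866346, nat_lit 29052886524], nat_lit 0, nat_lit 0, nat_lit 0, nat_lit 0, nat_lit 0, nat_lit 0, [], [nat_lit 20, nat_lit 40, nat_lit 40, nat_lit 80]⟩, ⟨p122_k9, nat_lit 0, nat_lit 0, nat_lit 0, nat_lit 0, nat_lit 654805, [nat_lit 2484474000, nat_lit 4731250000, nat_lit 8987104000], [], [nat_lit 22024107351, nat_lit 22098498977, nat_lit 22483158167, nat_lit 22551092847, nat_lit 23457269163, nat_lit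 23528014968, nat_lit 23912149774, nat_lit 23981967602], nat_lit 1271250, nat_lit 1271250, nat_lit 1271250, nat_lit 1271250, nat_lit 1271250, nat_lit 1271250, [nat_lit 780000, nat_lit 1435000, nat_lit 1271250], [nat_lit 23, nat_lit 40, nat_lit 40, nat_lit 80]⟩,
 ⟨nat_lit 2236, nat_lit 2500, ⟨.ofNat (nat_lit 793547), .ofNat (nat_lit 822579), .ofNat (nat_lit 799192), .ofNat (nat_lit 828224), .ofNat (nat_lit 790650), .ofNat (nat_lit 819158), .ofNat (nat_lit 796344), .ofNat (nat_lit 824851)⟩, ⟨.ofNat (nat_lit 387095), .ofNat (nat_lit 416128), .ofNat (nat_lit 409676), .ofNat (nat_lit 438708), .ofNat (nat_lit 386127), .ofNat (nat_lit 414635), .ofNat (nat_lit 408901), .ofNat (nat_lit 437409)⟩⟩, [⟨nat_lit 4, nat_lit 100, nat_lit 46, nat_lit 89, nat_lit 930539556⟩, ⟨nat_lit 7, nat_lit 85, nat_lit 100, nat_lit 98, nat_lit 267311058⟩]⟩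
noncomputable def p122_l121 : Lf2 := ⟨nat_lit 0, nat_lit 20, [nat_lit 5, nat_lit 5, nat_lit 5, nat_lit 20], false, nat_lit 200, nat_lit 232, nat_lit 240, nat_lit 332, ⟨nat_lit 1000, nat_lit 0, nat_lit 0, nat_lit 0, nat_lit 0, nat_lit 0, nat_lit 0, nat_lit 0, nat_lit 0, nat_lit 0, nat_lit 0, nat_lit 0, nat_lit 0, nat_lit 0, nat_lit 0, nat_lit 0, false, false⟩,
 nat_lit 0, nat_lit 0, nat_lit 11655, nat_lit 0, nat_lit 4380, nat_lit 7577, nat_lit 463, nat_lit 0, nat_lit 0, nat_lit 756, nat_lit 0, nat_lit 0, nat_lit 0, nat_lit 0, nat_lit 0, nat_lit 0, nat_lit 0, nat_lit 0, [],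
 ⟨p122_k13, nat_lit 0, nat_lit 0, nat_lit 0, nat_lit 0, nat_lit 0, [nat_lit 938000000, nat_lit 3282000000, nat_lit 6250000000], [], [nat_lit 28293005605, nat_lit 28804863130, nat_lit 29205137720, nat_lit 29755812100, nat_lit 28738786848, nat_lit 29281467298, nat_lit 29661218416, nat_lit 30201214837], nat_lit 0, nat_lit 0, nat_lit 0, nat_lit 0, nat_lit 0, nat_lit 0, [], [nat_lit 20, nat_lit 40, nat_lit 40, nat_lit 80]⟩, ⟨p122_k19, nat_lit 0, nat_lit 0, nat_lit 0, nat_lit 0, nat_lit 664517, [nat_lit 3282000000, nat_lit 6250000000, nat_lit 11872000000], [], [nat_lit 28944385128, nat_lit 29042703779, nat_lit 29543837765, nat_lit 29665862013, nat_lit 30721114641, nat_lit 30816592455, nat_lit 31333216495, nat_lit 31429451469], nat_lit 1271250, nat_lit 1271250, nat_lit 1271250, nat_lit 1271250, nat_lit 1271250, nat_lit 1271250, [nat_lit 780000, nat_lit 1435000, nat_lit 1271250], [nat_lit 23, nat_lit 40, nat_lit 40, nat_lit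 80]⟩,
 zbF0, [⟨nat_lit 16, nat_lit 48, nat_lit 100, nat_lit 89, nat_lit 1096868653⟩, ⟨nat_lit 7, nat_lit 88, nat_lit 100, nat_lit 99, nat_lit 346331247⟩]⟩
noncomputable def p122_l122 : Lf2 := ⟨nat_lit 0, nat_lit 20, [nat_lit 5, nat_lit 5, nat_lit 5, nat_lit 20], false, nat_lit 200, nat_lit 248, nat_lit 240, nat_lit 336, ⟨nat_lit 0, nat_lit 1000, nat_lit 0, nat_lit 8, nat_lit 327, nat_lit 1000, nat_lit 174, nat_lit 0, nat_lit 0, nat_lit 0, nat_lit 0, nat_lit 0, nat_lit 34655332, nat_lit 23789742, nat_lit 8554926, nat_lit 5220277, true, true⟩,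
 nat_lit 0, nat_lit 0, nat_lit 100000, nat_lit 0, nat_lit 3055, nat_lit 63636, nat_lit 0, nat_lit 0, nat_lit 0, nat_lit 2686, nat_lit 4255, nat_lit 0, nat_lit 0, nat_lit 0, nat_lit 0, nat_lit 351550, nat_lit 0, nat_lit 0, [(nat_lit 25, [(nat_lit 0, nat_lit 323), (nat_lit 1, nat_lit 677)])],
 ⟨p122_k5, nat_lit 0, nat_lit 0, nat_lit 0, nat_lit 0, nat_lit 0, [nat_lit 904816001, nat_lit 1222744000, nat_lit 1303704400], [], [nat_lit 27109655087, nat_lit 28008866847, nat_lit 27913959592, nat_lit 28800313845, nat_lit 28030152660, nat_lit 28866802630, nat_lit 28776717578, nat_lit 29671554114], nat_lit 0, nat_lit 0, nat_lit 0, nat_lit 0, nat_lit 0, nat_lit 0, [], [nat_lit 55, nat_lit 40, nat_lit 40, nat_lit 80]⟩, ⟨p122_k6, nat_lit 0, nat_lit 0, nat_lit 516, nat_lit 0, nat_lit 929630, [nat_lit 51060000000, nat_lit 102120000000, nat_lit 136160000000], [], [nat_lit 114430097102, nat_lit 113903827382, nat_lit 114532932878, nat_lit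 113927881790, nat_lit 107930314334, nat_lit 107263593599, nat_lit 107843973010, nat_lit 107097333106], nat_lit 1271250, nat_lit 1271250, nat_lit 1271250, nat_lit 1271250, nat_lit 1271250, nat_lit 1271250, [nat_lit 780000, nat_lit 1762500, nat_lit 1271250], [nat_lit 79, nat_lit 40, nat_lit 40, nat_lit 80, nat_lit 14, nat_lit 401, nat_lit 175, nat_lit 9]⟩,
 ⟨nat_lit 2236, nat_lit 3163, ⟨.ofNat (nat_lit 801955), .ofNat (nat_lit 832432), .ofNat (nat_lit 813032), .ofNat (nat_lit 843509), .ofNat (nat_lit 790650), .ofNat (nat_lit 819158), .ofNat (nat_lit 802037), .ofNat (nat_lit 830545)⟩, ⟨.ofNat (nat_lit 389224), .ofNat (nat_lit 462368), .ofNat (nat_lit 411379), .ofNat (nat_lit 484523), .ofNat (nat_lit 386127), .ofNat (nat_lit 454546), .ofNat (nat_lit 408901), .ofNat (nat_lit 477320)⟩⟩, [⟨nat_lit 13, nat_lit 48, nat_lit 71, nat_lit 100, nat_lit 328953301⟩, ⟨nat_lit 16, nat_lit 53, nat_lit 100, nat_lit 90, nat_lit 15174489381⟩,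 ⟨nat_lit 7, nat_lit 87, nat_lit 100, nat_lit 99, nat_lit 1789684612⟩]⟩
noncomputable def p122_l123 : Lf2 := ⟨nat_lit 0, nat_lit 20, [nat_lit 5, nat_lit 5, nat_lit 5, nat_lit 20], true, nat_lit 200, nat_lit 248, nat_lit 240, nat_lit 336, ⟨nat_lit 0, nat_lit 1000, nat_lit 0, nat_lit 8, nat_lit 327, nat_lit 1000, nat_lit 174, nat_lit 0, nat_lit 0, nat_lit 0, nat_lit 0, nat_lit 0, nat_lit 34655332, nat_lit 23789742, nat_lit 8554926, nat_lit 5220277, true, true⟩,
 nat_lit 0, nat_lit 0, nat_lit 0, nat_lit 0, nat_lit 100000, nat_lit 0, nat_lit 0, nat_lit 6140, nat_lit 0, nat_lit 0, nat_lit 0, nat_lit 0, nat_lit 0, nat_lit 0, nat_lit 0, nat_lit 250000, nat_lit 0, nat_lit 0, [(nat_lit 25, [(nat_lit 0, nat_lit 1000)])],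
 ⟨p122_k5, nat_lit 0, nat_lit 0, nat_lit 0, nat_lit 0, nat_lit 0, [nat_lit 25324000000, nat_lit 99955600000, nat_lit 124918000000], [], [nat_lit 98802015000, nat_lit 110889247500, nat_lit 108298872000, nat_lit 120769350000, nat_lit 94885879000, nat_lit 105816419501, nat_lit 103046256401, nat_lit 114824686601], nat_lit 0, nat_lit 0, nat_lit 0, nat_lit 0, nat_lit 0, nat_lit 0, [], [nat_lit 55, nat_lit 40, nat_lit 40, nat_lit 80]⟩, C1.Rw.none,
 ⟨nat_lit 2236, nat_lit 3163, ⟨.ofNat (nat_lit 801955), .ofNat (nat_lit 832432), .ofNat (nat_lit 813032), .ofNat (nat_lit 843509), .ofNat (nat_lit 790650), .ofNat (nat_lit 819158), .ofNat (nat_lit 802037), .ofNat (nat_lit 830545)⟩, ⟨.ofNat (nat_lit 389224), .ofNat (nat_lit 462368), .ofNat (nat_lit 411379), .ofNat (nat_lit 484523), .ofNat (nat_lit 386127), .ofNat (nat_lit 454546), .ofNat (nat_lit 408901), .ofNat (nat_lit 477320)⟩⟩, [⟨nat_lit 16, nat_lit 62, nat_lit 100, nat_lit 94,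 nat_lit 4349857445⟩]⟩
noncomputable def b_V_900_700_20_18 : St := ⟨true, nat_lit 0, nat_lit 1, nat_lit 1, nat_lit 120, nat_lit 360, nat_lit 380, nat_lit 280, nat_lit 290, nat_lit 320, nat_lit 360, nat_lit 80, nat_lit 120, nat_lit 160, nat_lit 248, nat_lit 240, nat_lit 336, nat_lit 40, nat_lit 80, nat_lit 300, nat_lit 460, nat_lit 800, nat_lit 0⟩
theorem d_V_900_700_20_18 (h : EB TB.env) : Dead b_V_900_700_20_18 := chkB_sound0 h (T :=
(.spl (nat_lit 2) (nat_lit 340)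
(.spl (nat_lit 4) (nat_lit 200)
(.leaf p122_l105)
(.leaf p122_l106))
(.spl (nat_lit 3) (nat_lit 100)
(.trX (nat_lit 16) (nat_lit 60) (nat_lit 100) (nat_lit 87) (nat_lit 224) (.trX (nat_lit 19) (nat_lit 100) (nat_lit 88) (nat_lit 94) (nat_lit 320) (.spl (nat_lit 1) (nat_lit 285)
(.leaf p122_l107)
(.trX (nat_lit 19) (nat_lit 100) (nat_lit 91) (nat_lit 96) (nat_lit 316) (.spl (nat_lit 0) (nat_lit 370)
(.leaf p122_l108)
(.trX (nat_lit 16) (nat_lit 53) (nat_lit 100) (nat_lit 87) (nat_lit 208) (.leaf p122_l109)))))))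
(.spl (nat_lit 4) (nat_lit 200)
(.spl (nat_lit 4) (nat_lit 180)
(.trX (nat_lit 22) (nat_lit 72) (nat_lit 77) (nat_lit 100) (nat_lit 332) (.leaf p122_l110))
(.spl (nat_lit 1) (nat_lit 285)
(.spl (nat_lit 6) (nat_lit 60)
(.leaf p122_l111)
(.spl (nat_lit 1) (nat_lit 283)
(.leaf p122_l112)
(.leaf p122_l113)))
(.trX (nat_lit 19) (nat_lit 99) (nat_lit 82) (nat_lit 100) (nat_lit 332) (.spl (nat_lit 0) (nat_lit 370)
(.leaf p122_l114)
(.leaf p122_l115)))))
(.spl (nat_lit 7) (nat_lit 380)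
(.spl (nat_lit 8) (nat_lit 1200)
(.spl (nat_lit 6) (nat_lit 60)
(.spl (nat_lit 0) (nat_lit 370)
(.leaf p122_l116)
(.trX (nat_lit 16) (nat_lit 53) (nat_lit 100) (nat_lit 93) (nat_lit 232) (.leaf p122_l117)))
(.spl (nat_lit 0) (nat_lit 370)
(.leaf p122_l118)
(.trX (nat_lit 16) (nat_lit 53) (nat_lit 100) (nat_lit 93) (nat_lit 232) (.spl (nat_lit 1) (nat_lit 285)
(.spl (nat_lit 0) (nat_lit 375)
(.leaf p122_l119)
(.trX (nat_lit 16) (nat_lit 49) (nat_lit 100) (nat_lit 92) (nat_lit 220) (.leaf p122_l120)))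
(.trX (nat_lit 19) (nat_lit 99) (nat_lit 82) (nat_lit 100) (nat_lit 332) (.leaf p122_l121))))))
(.leaf p122_l122))
(.leaf p122_l123)))))) (by decide +kernel)
noncomputable def p122_l124 : Lf2 := ⟨nat_lit 0, nat_lit 20, [nat_lit 5, nat_lit 5, nat_lit 5, nat_lit 20], false, nat_lit 160, nat_lit 224, nat_lit 240, nat_lit 320, ⟨nat_lit 209, nat_lit 791, nat_lit 0, nat_lit 9, nat_lit 337, nat_lit 791, nat_lit 146, nat_lit 0, nat_lit 0, nat_lit 0, nat_lit 0, nat_lit 0, nat_lit 35023935, nat_lit 25398277, nat_lit 6577788, nat_lit 4994204, true, true⟩,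
 nat_lit 0, nat_lit 0, nat_lit 2681, nat_lit 0, nat_lit 3622, nat_lit 1706, nat_lit 195, nat_lit 0, nat_lit 0, nat_lit 158, nat_lit 0, nat_lit 0, nat_lit 0, nat_lit 0, nat_lit 0, nat_lit 221900, nat_lit 0, nat_lit 0, [(nat_lit 25, [(nat_lit 0, nat_lit 630), (nat_lit 1, nat_lit 161)])],
 ⟨p122_k8, nat_lit 0, nat_lit 0, nat_lit 0, nat_lit 0, nat_lit 0, [nat_lit 813374801, nat_lit 1709625467, nat_lit 2787937200], [], [nat_lit 27683411159, nat_lit 28638134231, nat_lit 28638134231, nat_lit 29569988601, nat_lit 28601502500, nat_lit 29471901930, nat_lit 29471901930, nat_lit 30454337093], nat_lit 0, nat_lit 0, nat_lit 0, nat_lit 0, nat_lit 0, nat_lit 0, [], [nat_lit 20, nat_lit 40, nat_lit 40, nat_lit 80]⟩, ⟨p122_k9, nat_lit 0, nat_lit 0, nat_lit 557, nat_lit 0, nat_lit 1060419, [nat_lit 685938000, nat_lit 1306250000, nat_lit 2481248000], [], [nat_lit 6128410696, nat_lit 6148637330, nat_lit 6280892272, nat_lit 6299271110,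 nat_lit 6361100176, nat_lit 6380024676, nat_lit 6559417392, nat_lit 6585666146], nat_lit 1271250, nat_lit 1271250, nat_lit 1271250, nat_lit 1271250, nat_lit 1271250, nat_lit 1271250, [nat_lit 780000, nat_lit 1435000, nat_lit 1271250], [nat_lit 23, nat_lit 40, nat_lit 40, nat_lit 80, nat_lit 12, nat_lit 401, nat_lit 175, nat_lit 9]⟩,
 ⟨nat_lit 2236, nat_lit 3163, ⟨.ofNat (nat_lit 832432), .ofNat (nat_lit 862908), .ofNat (nat_lit 837970), .ofNat (nat_lit 868447), .ofNat (nat_lit 819158), .ofNat (nat_lit 847666), .ofNat (nat_lit 824851), .ofNat (nat_lit 853359)⟩, ⟨.ofNat (nat_lit 306116), .ofNat (nat_lit 403641), .ofNat (nat_lit 328271), .ofNat (nat_lit 425796), .ofNat (nat_lit 306337), .ofNat (nat_lit 397562), .ofNat (nat_lit 329112), .ofNat (nat_lit 420336)⟩⟩, [⟨nat_lit 13, nat_lit 58, nat_lit 61, nat_lit 100, nat_lit 378358827⟩, ⟨nat_lit 4, nat_lit 100, nat_lit 53, nat_lit 84, nat_lit 283456650⟩, ⟨nat_lit 19, nat_lit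 100, nat_lit 88, nat_lit 94, nat_lit 69456683⟩]⟩
noncomputable def p122_l125 : Lf2 := ⟨nat_lit 0, nat_lit 20, [nat_lit 5, nat_lit 5, nat_lit 5, nat_lit 20], false, nat_lit 160, nat_lit 248, nat_lit 240, nat_lit 336, ⟨nat_lit 822, nat_lit 178, nat_lit 0, nat_lit 9, nat_lit 339, nat_lit 178, nat_lit 162, nat_lit 0, nat_lit 0, nat_lit 0, nat_lit 0, nat_lit 0, nat_lit 34261193, nat_lit 25109201, nat_lit 7629606, nat_lit 5136755, true, true⟩,
 nat_lit 0, nat_lit 0, nat_lit 8193, nat_lit 0, nat_lit 2944, nat_lit 5213, nat_lit 544, nat_lit 0, nat_lit 0, nat_lit 1075, nat_lit 0, nat_lit 0, nat_lit 0, nat_lit 0, nat_lit 0, nat_lit 71200, nat_lit 0, nat_lit 0, [(nat_lit 25, [(nat_lit 1, nat_lit 178)])],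
 ⟨p122_k26, nat_lit 0, nat_lit 0, nat_lit 0, nat_lit 0, nat_lit 0, [nat_lit 894069601, nat_lit 1851152001, nat_lit 5300405600], [], [nat_lit 27832065089, nat_lit 28270650840, nat_lit 28712086512, nat_lit 29133433164, nat_lit 29279735669, nat_lit 29664822818, nat_lit 30110532038, nat_lit 30535695427], nat_lit 0, nat_lit 0, nat_lit 0, nat_lit 0, nat_lit 0, nat_lit 0, [], [nat_lit 131, nat_lit 40, nat_lit 40, nat_lit 80]⟩, ⟨p122_k27, nat_lit 0, nat_lit 0, nat_lit 405, nat_lit 0, nat_lit 746419, [nat_lit 2697804000, nat_lit 3853536000, nat_lit 9758784000], [], [nat_lit 24363650059, nat_lit 24452709147, nat_lit 24974684111, nat_lit 25056984551, nat_lit 25806398559, nat_lit 25871740579, nat_lit 26441496441, nat_lit 26534683832], nat_lit 1271250, nat_lit 1271250, nat_lit 1271250, nat_lit 1271250, nat_lit 1271250, nat_lit 1271250, [nat_lit 780000, nat_lit 1100000, nat_lit 2470000], [nat_lit 158, nat_lit 40, nat_lit 40, nat_lit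 80, nat_lit 65, nat_lit 401, nat_lit 175, nat_lit 9]⟩,
 ⟨nat_lit 2738, nat_lit 3163, ⟨.ofNat (nat_lit 832432), .ofNat (nat_lit 862908), .ofNat (nat_lit 837970), .ofNat (nat_lit 868447), .ofNat (nat_lit 825913), .ofNat (nat_lit 855444), .ofNat (nat_lit 831518), .ofNat (nat_lit 861048)⟩, ⟨.ofNat (nat_lit 328271), .ofNat (nat_lit 462368), .ofNat (nat_lit 350426), .ofNat (nat_lit 484523), .ofNat (nat_lit 328850), .ofNat (nat_lit 458785), .ofNat (nat_lit 351268), .ofNat (nat_lit 481203)⟩⟩, [⟨nat_lit 13, nat_lit 57, nat_lit 62, nat_lit 100, nat_lit 110553719⟩, ⟨nat_lit 16, nat_lit 57, nat_lit 100, nat_lit 90, nat_lit 490969071⟩, ⟨nat_lit 19, nat_lit 100, nat_lit 85, nat_lit 98, nat_lit 283261212⟩]⟩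
noncomputable def p122_l126 : Lf2 := ⟨nat_lit 0, nat_lit 20, [nat_lit 5, nat_lit 5, nat_lit 5, nat_lit 20], false, nat_lit 160, nat_lit 232, nat_lit 240, nat_lit 336, ⟨nat_lit 540, nat_lit 460, nat_lit 0, nat_lit 9, nat_lit 333, nat_lit 460, nat_lit 157, nat_lit 0, nat_lit 0, nat_lit 0, nat_lit 0, nat_lit 0, nat_lit 34881127, nat_lit 24759992, nat_lit 7358881, nat_lit 5090563, true, true⟩,
 nat_lit 0, nat_lit 0, nat_lit 5380, nat_lit 0, nat_lit 2786, nat_lit 3423, nat_lit 395, nat_lit 0, nat_lit 0, nat_lit 706, nat_lit 0, nat_lit 0, nat_lit 0, nat_lit 0, nat_lit 0, nat_lit 184000, nat_lit 0, nat_lit 0, [(nat_lit 25, [(nat_lit 1, nat_lit 460)])],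
 ⟨p122_k38, nat_lit 0, nat_lit 0, nat_lit 0, nat_lit 0, nat_lit 0, [nat_lit 824472000, nat_lit 1564640001, nat_lit 3795992000], [], [nat_lit 27538714935, nat_lit 27755246719, nat_lit 27877427538, nat_lit 28090090196, nat_lit 28648720925, nat_lit 28843774967, nat_lit 28973721559, nat_lit 29200317493], nat_lit 0, nat_lit 0, nat_lit 0, nat_lit 0, nat_lit 0, nat_lit 0, [], [nat_lit 131, nat_lit 40, nat_lit 40, nat_lit 80]⟩, ⟨p122_k27, nat_lit 0, nat_lit 0, nat_lit 466, nat_lit 0, nat_lit 821375, [nat_lit 1772280000, nat_lit 2531520000, nat_lit 6410880000], [], [nat_lit 16011025830, nat_lit 16069530288, nat_lit 16171560107, nat_lit 16228289236, nat_lit 16958854567, nat_lit 17001784159, nat_lit 17108549136, nat_lit 17172693432], nat_lit 1271250, nat_lit 1271250, nat_lit 1271250, nat_lit 1271250, nat_lit 1271250, nat_lit 1271250, [nat_lit 780000, nat_lit 1100000, nat_lit 2470000], [nat_lit 158, nat_lit 40, nat_lit 40, nat_lit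 80, nat_lit 65, nat_lit 401, nat_lit 175, nat_lit 9]⟩,
 ⟨nat_lit 2500, nat_lit 2739, ⟨.ofNat (nat_lit 825913), .ofNat (nat_lit 837726), .ofNat (nat_lit 831518), .ofNat (nat_lit 843330), .ofNat (nat_lit 822579), .ofNat (nat_lit 834192), .ofNat (nat_lit 828224), .ofNat (nat_lit 839837)⟩, ⟨.ofNat (nat_lit 328850), .ofNat (nat_lit 435161), .ofNat (nat_lit 351268), .ofNat (nat_lit 457578), .ofNat (nat_lit 329031), .ofNat (nat_lit 433547), .ofNat (nat_lit 351611), .ofNat (nat_lit 456128)⟩⟩, [⟨nat_lit 13, nat_lit 53, nat_lit 66, nat_lit 100, nat_lit 228982135⟩, ⟨nat_lit 4, nat_lit 100, nat_lit 51, nat_lit 89, nat_lit 424529577⟩, ⟨nat_lit 19, nat_lit 100, nat_lit 80, nat_lit 100, nat_lit 182285490⟩]⟩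
noncomputable def p122_l127 : Lf2 := ⟨nat_lit 0, nat_lit 20, [nat_lit 5, nat_lit 5, nat_lit 5, nat_lit 20], false, nat_lit 160, nat_lit 220, nat_lit 240, nat_lit 336, ⟨nat_lit 231, nat_lit 769, nat_lit 0, nat_lit 9, nat_lit 331, nat_lit 769, nat_lit 153, nat_lit 0, nat_lit 0, nat_lit 0, nat_lit 0, nat_lit 0, nat_lit 35223729, nat_lit 24633947, nat_lit 7142324, nat_lit 5056469, true, true⟩,
 nat_lit 0, nat_lit 0, nat_lit 2857, nat_lit 0, nat_lit 2740, nat_lit 1818, nat_lit 260, nat_lit 0, nat_lit 0, nat_lit 171, nat_lit 0, nat_lit 0, nat_lit 0, nat_lit 0, nat_lit 0, nat_lit 192250, nat_lit 0, nat_lit 0, [(nat_lit 25, [(nat_lit 0, nat_lit 769)])],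
 ⟨p122_k14, nat_lit 0, nat_lit 0, nat_lit 0, nat_lit 0, nat_lit 0, [nat_lit 804194000, nat_lit 1810749201, nat_lit 3072492000], [], [nat_lit 27682651960, nat_lit 27897965020, nat_lit 27849163649, nat_lit 28062563789, nat_lit 28593640623, nat_lit 28820443630, nat_lit 28767177797, nat_lit 28998675311], nat_lit 0, nat_lit 0, nat_lit 0, nat_lit 0, nat_lit 0, nat_lit 0, [], [nat_lit 20, nat_lit 40, nat_lit 40, nat_lit 80]⟩, ⟨p122_k9, nat_lit 0, nat_lit 0, nat_lit 501, nat_lit 0, nat_lit 898098, [nat_lit 758142000, nat_lit 1443750000, nat_lit 2742432000], [], [nat_lit 6864689181, nat_lit 6885420324, nat_lit 6897285801, nat_lit 6925040277, nat_lit 7299934222, nat_lit 7320159605, nat_lit 7332685544, nat_lit 7359713534], nat_lit 1271250, nat_lit 1271250, nat_lit 1271250, nat_lit 1271250, nat_lit 1271250, nat_lit 1271250, [nat_lit 780000, nat_lit 1435000, nat_lit 1271250], [nat_lit 23, nat_lit 40, nat_lit 40, nat_lit 80, nat_lit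 12, nat_lit 401, nat_lit 175, nat_lit 9]⟩,
 ⟨nat_lit 2236, nat_lit 2500, ⟨.ofNat (nat_lit 822579), .ofNat (nat_lit 828386), .ofNat (nat_lit 828224), .ofNat (nat_lit 834031), .ofNat (nat_lit 819158), .ofNat (nat_lit 824859), .ofNat (nat_lit 824851), .ofNat (nat_lit 830553)⟩, ⟨.ofNat (nat_lit 329031), .ofNat (nat_lit 416128), .ofNat (nat_lit 351611), .ofNat (nat_lit 438708), .ofNat (nat_lit 329112), .ofNat (nat_lit 414635), .ofNat (nat_lit 351886), .ofNat (nat_lit 437409)⟩⟩, [⟨nat_lit 13, nat_lit 53, nat_lit 65, nat_lit 100, nat_lit 247937661⟩, ⟨nat_lit 16, nat_lit 49, nat_lit 100, nat_lit 92, nat_lit 428661153⟩, ⟨nat_lit 22, nat_lit 60, nat_lit 74, nat_lit 100, nat_lit 133057367⟩]⟩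
noncomputable def p122_l128 : Lf2 := ⟨nat_lit 0, nat_lit 20, [nat_lit 5, nat_lit 5, nat_lit 5, nat_lit 20], false, nat_lit 160, nat_lit 248, nat_lit 240, nat_lit 332, ⟨nat_lit 640, nat_lit 360, nat_lit 0, nat_lit 9, nat_lit 341, nat_lit 360, nat_lit 158, nat_lit 0, nat_lit 0, nat_lit 0, nat_lit 0, nat_lit 0, nat_lit 34277445, nat_lit 25412355, nat_lit 7310200, nat_lit 5100457, true, true⟩,
 nat_lit 0, nat_lit 0, nat_lit 6361, nat_lit 0, nat_lit 2846, nat_lit 4135, nat_lit 446, nat_lit 0, nat_lit 0, nat_lit 846, nat_lit 0, nat_lit 0, nat_lit 0, nat_lit 0, nat_lit 0, nat_lit 144000, nat_lit 0, nat_lit 0, [(nat_lit 25, [(nat_lit 1, nat_lit 360)])],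
 ⟨p122_k26, nat_lit 0, nat_lit 0, nat_lit 0, nat_lit 0, nat_lit 0, [nat_lit 849152000, nat_lit 1666240000, nat_lit 4329472000], [], [nat_lit 27616506192, nat_lit 28049568160, nat_lit 28485811008, nat_lit 28902425926, nat_lit 29077921585, nat_lit 29458146272, nat_lit 29898619352, nat_lit 30319018172], nat_lit 0, nat_lit 0, nat_lit 0, nat_lit 0, nat_lit 0, nat_lit 0, [], [nat_lit 131, nat_lit 40, nat_lit 40, nat_lit 80]⟩, ⟨p122_k34, nat_lit 0, nat_lit 0, nat_lit 510, nat_lit 0, nat_lit 934001, [nat_lit 2100480000, nat_lit 3000320000, nat_lit 7598080000], [], [nat_lit 18376924700, nat_lit 18433951590, nat_lit 18801817317, nat_lit 18878692363, nat_lit 19496055389, nat_lit 19561131696, nat_lit 19947853518, nat_lit 20004777249], nat_lit 1271250, nat_lit 1271250, nat_lit 1271250, nat_lit 1271250, nat_lit 1271250, nat_lit 1271250, [nat_lit 780000, nat_lit 1100000, nat_lit 2470000], [nat_lit 158, nat_lit 40, nat_lit 40, nat_lit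 80, nat_lit 65, nat_lit 401, nat_lit 175, nat_lit 9]⟩,
 ⟨nat_lit 2738, nat_lit 3163, ⟨.ofNat (nat_lit 837970), .ofNat (nat_lit 868447), .ofNat (nat_lit 843509), .ofNat (nat_lit 873986), .ofNat (nat_lit 831518), .ofNat (nat_lit 861048), .ofNat (nat_lit 837122), .ofNat (nat_lit 866653)⟩, ⟨.ofNat (nat_lit 306116), .ofNat (nat_lit 440213), .ofNat (nat_lit 350426), .ofNat (nat_lit 484523), .ofNat (nat_lit 306433), .ofNat (nat_lit 436368), .ofNat (nat_lit 351268), .ofNat (nat_lit 481203)⟩⟩, [⟨nat_lit 13, nat_lit 58, nat_lit 60, nat_lit 100, nat_lit 126190473⟩, ⟨nat_lit 4, nat_lit 100, nat_lit 57, nat_lit 87, nat_lit 442928086⟩, ⟨nat_lit 7, nat_lit 92, nat_lit 100, nat_lit 96, nat_lit 228501511⟩]⟩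
noncomputable def p122_l129 : Lf2 := ⟨nat_lit 0, nat_lit 20, [nat_lit 5, nat_lit 5, nat_lit 5, nat_lit 20], false, nat_lit 160, nat_lit 232, nat_lit 240, nat_lit 332, ⟨nat_lit 573, nat_lit 427, nat_lit 0, nat_lit 9, nat_lit 337, nat_lit 427, nat_lit 153, nat_lit 0, nat_lit 0, nat_lit 0, nat_lit 0, nat_lit 0, nat_lit 34809778, nat_lit 25165449, nat_lit 7024773, nat_lit 5054012, true, true⟩,
 nat_lit 0, nat_lit 0, nat_lit 5544, nat_lit 0, nat_lit 2792, nat_lit 3604, nat_lit 416, nat_lit 0, nat_lit 0, nat_lit 728, nat_lit 0, nat_lit 0, nat_lit 0, nat_lit 0, nat_lit 0, nat_lit 170800, nat_lit 0, nat_lit 0, [(nat_lit 25, [(nat_lit 1, nat_lit 427)])],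
 ⟨p122_k38, nat_lit 0, nat_lit 0, nat_lit 0, nat_lit 0, nat_lit 0, [nat_lit 832616401, nat_lit 1598168001, nat_lit 3972040400], [], [nat_lit 27540848353, nat_lit 27753714337, nat_lit 28045353200, nat_lit 28256231790, nat_lit 28651461947, nat_lit 28855556385, nat_lit 29166148714, nat_lit 29390764558], nat_lit 0, nat_lit 0, nat_lit 0, nat_lit 0, nat_lit 0, nat_lit 0, [], [nat_lit 131, nat_lit 40, nat_lit 40, nat_lit 80]⟩, ⟨p122_k34, nat_lit 0, nat_lit 0, nat_lit 534, nat_lit 0, nat_lit 1008758, [nat_lit 1880586000, nat_lit 2686224000, nat_lit 6802656000], [], [nat_lit 17038352871, nat_lit 17089512781, nat_lit 17251623868, nat_lit 17300421293, nat_lit 17830517884, nat_lit 17883818917, nat_lit 18068444635, nat_lit 18121438673], nat_lit 1271250, nat_lit 1271250, nat_lit 1271250, nat_lit 1271250, nat_lit 1271250, nat_lit 1271250, [nat_lit 780000, nat_lit 1100000, nat_lit 2470000], [nat_lit 158, nat_lit 40, nat_lit 40, nat_lit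 80, nat_lit 65, nat_lit 401, nat_lit 175, nat_lit 9]⟩,
 ⟨nat_lit 2500, nat_lit 2739, ⟨.ofNat (nat_lit 831518), .ofNat (nat_lit 849236), .ofNat (nat_lit 837122), .ofNat (nat_lit 854840), .ofNat (nat_lit 828224), .ofNat (nat_lit 845644), .ofNat (nat_lit 833869), .ofNat (nat_lit 851289)⟩, ⟨.ofNat (nat_lit 306433), .ofNat (nat_lit 412743), .ofNat (nat_lit 351268), .ofNat (nat_lit 457578), .ofNat (nat_lit 306450), .ofNat (nat_lit 410966), .ofNat (nat_lit 351611), .ofNat (nat_lit 456128)⟩⟩, [⟨nat_lit 13, nat_lit 56, nat_lit 62, nat_lit 100, nat_lit 176898907⟩, ⟨nat_lit 4, nat_lit 100, nat_lit 51, nat_lit 87, nat_lit 453783222⟩, ⟨nat_lit 19, nat_lit 100, nat_lit 92, nat_lit 96, nat_lit 118587587⟩, ⟨nat_lit 19, nat_lit 99, nat_lit 82, nat_lit 100, nat_lit 71439815⟩]⟩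
noncomputable def p122_l130 : Lf2 := ⟨nat_lit 0, nat_lit 20, [nat_lit 5, nat_lit 5, nat_lit 5, nat_lit 20], false, nat_lit 160, nat_lit 220, nat_lit 240, nat_lit 332, ⟨nat_lit 254, nat_lit 746, nat_lit 0, nat_lit 9, nat_lit 334, nat_lit 746, nat_lit 149, nat_lit 0, nat_lit 0, nat_lit 0, nat_lit 0, nat_lit 0, nat_lit 35151535, nat_lit 25040103, nat_lit 6808362, nat_lit 5019197, true, true⟩,
 nat_lit 0, nat_lit 0, nat_lit 3013, nat_lit 0, nat_lit 2624, nat_lit 1958, nat_lit 281, nat_lit 0, nat_lit 0, nat_lit 191, nat_lit 0, nat_lit 0, nat_lit 0, nat_lit 0, nat_lit 0, nat_lit 186500, nat_lit 0, nat_lit 0, [(nat_lit 25, [(nat_lit 0, nat_lit 746)])],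
 ⟨p122_k14, nat_lit 0, nat_lit 0, nat_lit 0, nat_lit 0, nat_lit 0, [nat_lit 808196000, nat_lit 1854752801, nat_lit 3167528000], [], [nat_lit 27630572267, nat_lit 27839088815, nat_lit 27953426932, nat_lit 28158352876, nat_lit 28559594756, nat_lit 28752242027, nat_lit 28873466586, nat_lit 29099394540], nat_lit 0, nat_lit 0, nat_lit 0, nat_lit 0, nat_lit 0, nat_lit 0, [], [nat_lit 20, nat_lit 40, nat_lit 40, nat_lit 80]⟩, ⟨p122_k19, nat_lit 0, nat_lit 0, nat_lit 565, nat_lit 0, nat_lit 1085153, [nat_lit 833628000, nat_lit 1587500000, nat_lit 3015488000], [], [nat_lit 7564204081, nat_lit 7588787750, nat_lit 7635751839, nat_lit 7659479110, nat_lit 7918420241, nat_lit 7935725118, nat_lit 7988048893, nat_lit 8019911361], nat_lit 1271250, nat_lit 1271250, nat_lit 1271250, nat_lit 1271250, nat_lit 1271250, nat_lit 1271250, [nat_lit 780000, nat_lit 1435000, nat_lit 1271250], [nat_lit 23, nat_lit 40, nat_lit 40, nat_lit 80, nat_lit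 12, nat_lit 401, nat_lit 175, nat_lit 9]⟩,
 ⟨nat_lit 2236, nat_lit 2500, ⟨.ofNat (nat_lit 828224), .ofNat (nat_lit 839837), .ofNat (nat_lit 833869), .ofNat (nat_lit 845482), .ofNat (nat_lit 824851), .ofNat (nat_lit 836255), .ofNat (nat_lit 830545), .ofNat (nat_lit 841948)⟩, ⟨.ofNat (nat_lit 306450), .ofNat (nat_lit 393547), .ofNat (nat_lit 351611), .ofNat (nat_lit 438708), .ofNat (nat_lit 306337), .ofNat (nat_lit 391861), .ofNat (nat_lit 351886), .ofNat (nat_lit 437409)⟩⟩, [⟨nat_lit 13, nat_lit 51, nat_lit 66, nat_lit 100, nat_lit 356959331⟩, ⟨nat_lit 16, nat_lit 49, nat_lit 100, nat_lit 92, nat_lit 318364174⟩, ⟨nat_lit 19, nat_lit 99, nat_lit 82, nat_lit 100, nat_lit 82258887⟩]⟩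
noncomputable def b_V_900_700_20_19 : St := ⟨true, nat_lit 0, nat_lit 1, nat_lit 1, nat_lit 120, nat_lit 360, nat_lit 380, nat_lit 280, nat_lit 290, nat_lit 360, nat_lit 380, nat_lit 80, nat_lit 120, nat_lit 160, nat_lit 248, nat_lit 240, nat_lit 336, nat_lit 40, nat_lit 80, nat_lit 300, nat_lit 460, nat_lit 800, nat_lit 0⟩
theorem d_V_900_700_20_19 (h : EB TB.env) : Dead b_V_900_700_20_19 := chkB_sound0 h (T :=
(.spl (nat_lit 1) (nat_lit 285)
(.spl (nat_lit 3) (nat_lit 100)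
(.trX (nat_lit 16) (nat_lit 60) (nat_lit 100) (nat_lit 87) (nat_lit 224) (.trX (nat_lit 19) (nat_lit 100) (nat_lit 88) (nat_lit 94) (nat_lit 320) (.leaf p122_l124)))
(.spl (nat_lit 0) (nat_lit 370)
(.leaf p122_l125)
(.trX (nat_lit 13) (nat_lit 58) (nat_lit 60) (nat_lit 100) (nat_lit 368) (.trX (nat_lit 16) (nat_lit 53) (nat_lit 100) (nat_lit 93) (nat_lit 232) (.spl (nat_lit 0) (nat_lit 375)
(.leaf p122_l126)
(.trX (nat_lit 13) (nat_lit 53) (nat_lit 65) (nat_lit 100) (nat_lit 364) (.trX (nat_lit 16) (nat_lit 49) (nat_lit 100) (nat_lit 92) (nat_lit 220) (.leaf p122_l127))))))))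
(.trX (nat_lit 19) (nat_lit 99) (nat_lit 82) (nat_lit 100) (nat_lit 332) (.spl (nat_lit 0) (nat_lit 370)
(.leaf p122_l128)
(.trX (nat_lit 13) (nat_lit 59) (nat_lit 58) (nat_lit 100) (nat_lit 372) (.trX (nat_lit 16) (nat_lit 53) (nat_lit 100) (nat_lit 93) (nat_lit 232) (.spl (nat_lit 0) (nat_lit 375)
(.leaf p122_l129)
(.trX (nat_lit 13) (nat_lit 54) (nat_lit 63) (nat_lit 100) (nat_lit 368) (.trX (nat_lit 16) (nat_lit 49) (nat_lit 100) (nat_lit 92) (nat_lit 220) (.leaf p122_l130)))))))))) (by decide +kernel)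
noncomputable def p122_l131 : Lf2 := ⟨nat_lit 0, nat_lit 20, [nat_lit 5, nat_lit 5, nat_lit 5, nat_lit 20], false, nat_lit 160, nat_lit 248, nat_lit 16, nat_lit 160, ⟨nat_lit 276, nat_lit 724, nat_lit 0, nat_lit 8, nat_lit 332, nat_lit 724, nat_lit 157, nat_lit 0, nat_lit 0, nat_lit 0, nat_lit 0, nat_lit 0, nat_lit 34931356, nat_lit 24682134, nat_lit 7386510, nat_lit 5092273, true, true⟩,
 nat_lit 0, nat_lit 0, nat_lit 3173, nat_lit 0, nat_lit 2878, nat_lit 2107, nat_lit 178, nat_lit 0, nat_lit 0, nat_lit 255, nat_lit 0, nat_lit 0, nat_lit 0, nat_lit 0, nat_lit 0, nat_lit 296200, nat_lit 0, nat_lit 0, [(nat_lit 25, [(nat_lit 1, nat_lit 713), (nat_lit 2, nat_lit 11)])],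
 ⟨p122_k8, nat_lit 0, nat_lit 0, nat_lit 101, nat_lit 0, nat_lit 0, [nat_lit 877382801, nat_lit 1616162800, nat_lit 2334650800], [], [nat_lit 25933132603, nat_lit 26870553391, nat_lit 28578592780, nat_lit 29412589330, nat_lit 27584356866, nat_lit 28410340289, nat_lit 30019389663, nat_lit 30802131272], nat_lit 0, nat_lit 0, nat_lit 0, nat_lit 0, nat_lit 0, nat_lit 0, [], [nat_lit 20, nat_lit 40, nat_lit 40, nat_lit 80, nat_lit 16, nat_lit 289, nat_lit 75, nat_lit 9]⟩, ⟨p122_k15, nat_lit 0, nat_lit 0, nat_lit 714, nat_lit 0, nat_lit 1116671, [nat_lit 905832000, nat_lit 1725000000, nat_lit 3276672000], [], [nat_lit 8646452923, nat_lit 8714785738, nat_lit 9280046327, nat_lit 9373819025, nat_lit 7618346592, nat_lit 7673773022, nat_lit 8122368473, nat_lit 8164686648], nat_lit 1271250, nat_lit 1271250, nat_lit 1271250, nat_lit 1271250, nat_lit 88400, nat_lit 1100001, [nat_lit 780000, nat_lit 1435000, nat_lit 1271250], [nat_lit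 23, nat_lit 40, nat_lit 40, nat_lit 80, nat_lit 12, nat_lit 345, nat_lit 125, nat_lit 8]⟩,
 ⟨nat_lit 2236, nat_lit 3163, ⟨.ofNat (nat_lit 782556), .ofNat (nat_lit 880081), .ofNat (nat_lit 793619), .ofNat (nat_lit 891158), .ofNat (nat_lit 773529), .ofNat (nat_lit 864754), .ofNat (nat_lit 784902), .ofNat (nat_lit 876141)⟩, ⟨.ofNat (nat_lit 306116), .ofNat (nat_lit 440213), .ofNat (nat_lit 350426), .ofNat (nat_lit 484523), .ofNat (nat_lit 306337), .ofNat (nat_lit 431772), .ofNat (nat_lit 351886), .ofNat (nat_lit 477320)⟩⟩, [⟨nat_lit 13, nat_lit 49, nat_lit 68, nat_lit 100, nat_lit 262538926⟩, ⟨nat_lit 4, nat_lit 100, nat_lit 53, nat_lit 87, nat_lit 338953594⟩]⟩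
noncomputable def p122_l132 : Lf2 := ⟨nat_lit 0, nat_lit 20, [nat_lit 5, nat_lit 5, nat_lit 5, nat_lit 20], false, nat_lit 160, nat_lit 248, nat_lit 160, nat_lit 328, ⟨nat_lit 689, nat_lit 311, nat_lit 0, nat_lit 8, nat_lit 334, nat_lit 311, nat_lit 158, nat_lit 0, nat_lit 0, nat_lit 0, nat_lit 0, nat_lit 0, nat_lit 34824994, nat_lit 24776563, nat_lit 7398443, nat_lit 5096518, true, true⟩,
 nat_lit 0, nat_lit 0, nat_lit 6367, nat_lit 0, nat_lit 3245, nat_lit 4228, nat_lit 463, nat_lit 0, nat_lit 0, nat_lit 919, nat_lit 0, nat_lit 0, nat_lit 0, nat_lit 0, nat_lit 0, nat_lit 124400, nat_lit 0, nat_lit 0, [(nat_lit 25, [(nat_lit 1, nat_lit 311)])],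
 ⟨p122_k26, nat_lit 0, nat_lit 0, nat_lit 96, nat_lit 0, nat_lit 0, [nat_lit 861245200, nat_lit 1716024001, nat_lit 4590877200], [], [nat_lit 26347297421, nat_lit 26822430716, nat_lit 29015213946, nat_lit 29433825698, nat_lit 27927613525, nat_lit 28344872198, nat_lit 30401623873, nat_lit 30817368300], nat_lit 0, nat_lit 0, nat_lit 0, nat_lit 0, nat_lit 0, nat_lit 0, [], [nat_lit 131, nat_lit 40, nat_lit 40, nat_lit 80, nat_lit 64, nat_lit 289, nat_lit 75, nat_lit 9]⟩, ⟨p122_k39, nat_lit 0, nat_lit 0, nat_lit 544, nat_lit 0, nat_lit 973976, [nat_lit 2261298000, nat_lit 3230032000, nat_lit 8179808000], [], [nat_lit 18962241660, nat_lit 19110460822, nat_lit 20237204933, nat_lit 20355909877, nat_lit 20222499880, nat_lit 20367021987, nat_lit 21471752631, nat_lit 21593885561], nat_lit 1271250, nat_lit 1271250, nat_lit 1271250, nat_lit 1271250, nat_lit 1100001, nat_lit 2538500, [nat_lit 780000, nat_lit 1100000, nat_lit 2470000],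 [nat_lit 158, nat_lit 40, nat_lit 40, nat_lit 80, nat_lit 65, nat_lit 401, nat_lit 175, nat_lit 9]⟩,
 ⟨nat_lit 2738, nat_lit 3163, ⟨.ofNat (nat_lit 782555), .ofNat (nat_lit 880081), .ofNat (nat_lit 793629), .ofNat (nat_lit 891158), .ofNat (nat_lit 778060), .ofNat (nat_lit 872559), .ofNat (nat_lit 789265), .ofNat (nat_lit 883768)⟩, ⟨.ofNat (nat_lit 306116), .ofNat (nat_lit 440213), .ofNat (nat_lit 350426), .ofNat (nat_lit 484523), .ofNat (nat_lit 306433), .ofNat (nat_lit 436368), .ofNat (nat_lit 351268), .ofNat (nat_lit 481203)⟩⟩, [⟨nat_lit 13, nat_lit 64, nat_lit 52, nat_lit 100, nat_lit 22746604⟩, ⟨nat_lit 16, nat_lit 57, nat_lit 100, nat_lit 87, nat_lit 452008658⟩, ⟨nat_lit 7, nat_lit 97, nat_lit 100, nat_lit 98, nat_lit 196687493⟩]⟩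
noncomputable def p122_l133 : Lf2 := ⟨nat_lit 0, nat_lit 20, [nat_lit 5, nat_lit 5, nat_lit 5, nat_lit 20], false, nat_lit 160, nat_lit 208, nat_lit 160, nat_lit 312, ⟨nat_lit 285, nat_lit 715, nat_lit 0, nat_lit 8, nat_lit 328, nat_lit 715, nat_lit 141, nat_lit 0, nat_lit 0, nat_lit 0, nat_lit 0, nat_lit 0, nat_lit 35958765, nat_lit 24675332, nat_lit 6365903, nat_lit 4941817, true, true⟩,
 nat_lit 0, nat_lit 0, nat_lit 3163, nat_lit 0, nat_lit 2677, nat_lit 2100, nat_lit 291, nat_lit 0, nat_lit 0, nat_lit 217, nat_lit 0, nat_lit 0, nat_lit 0, nat_lit 0, nat_lit 0, nat_lit 178750, nat_lit 0, nat_lit 0, [(nat_lit 25, [(nat_lit 0, nat_lit 715)])],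
 ⟨p122_k13, nat_lit 0, nat_lit 0, nat_lit 96, nat_lit 0, nat_lit 0, [nat_lit 813590001, nat_lit 1914062001, nat_lit 3295620000], [], [nat_lit 26128367740, nat_lit 26584832611, nat_lit 28324504283, nat_lit 28729726648, nat_lit 26976637879, nat_lit 27404297395, nat_lit 29077807969, nat_lit 29489438195], nat_lit 0, nat_lit 0, nat_lit 0, nat_lit 0, nat_lit 0, nat_lit 0, [], [nat_lit 20, nat_lit 40, nat_lit 40, nat_lit 80, nat_lit 16, nat_lit 272, nat_lit 60, nat_lit 8]⟩, ⟨p122_k15, nat_lit 0, nat_lit 0, nat_lit 579, nat_lit 0, nat_lit 1057400, [nat_lit 935370000, nat_lit 1781250000, nat_lit 3383520000], [], [nat_lit 8136048315, nat_lit 8163283455, nat_lit 8619487064, nat_lit 8650992284, nat_lit 8482167904, nat_lit 8507621135, nat_lit 8895344173, nat_lit 8915201501], nat_lit 1271250, nat_lit 1271250, nat_lit 1271250, nat_lit 1271250, nat_lit 1100001, nat_lit 2401500, [nat_lit 780000, nat_lit 1435000, nat_lit 1271250], [nat_lit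 23, nat_lit 40, nat_lit 40, nat_lit 80, nat_lit 12, nat_lit 401, nat_lit 175, nat_lit 9]⟩,
 ⟨nat_lit 2236, nat_lit 2739, ⟨.ofNat (nat_lit 778061), .ofNat (nat_lit 860747), .ofNat (nat_lit 783665), .ofNat (nat_lit 866351), .ofNat (nat_lit 773529), .ofNat (nat_lit 853351), .ofNat (nat_lit 779223), .ofNat (nat_lit 859045)⟩, ⟨.ofNat (nat_lit 306433), .ofNat (nat_lit 377306), .ofNat (nat_lit 328850), .ofNat (nat_lit 399724), .ofNat (nat_lit 306337), .ofNat (nat_lit 374756), .ofNat (nat_lit 329112), .ofNat (nat_lit 397530)⟩⟩, [⟨nat_lit 13, nat_lit 49, nat_lit 68, nat_lit 100, nat_lit 222178268⟩, ⟨nat_lit 4, nat_lit 100, nat_lit 49, nat_lit 84, nat_lit 367639503⟩, ⟨nat_lit 19, nat_lit 100, nat_lit 94, nat_lit 97, nat_lit 74286181⟩]⟩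
noncomputable def p122_l134 : Lf2 := ⟨nat_lit 0, nat_lit 20, [nat_lit 5, nat_lit 5, nat_lit 5, nat_lit 20], false, nat_lit 160, nat_lit 232, nat_lit 160, nat_lit 328, ⟨nat_lit 831, nat_lit 169, nat_lit 0, nat_lit 8, nat_lit 328, nat_lit 169, nat_lit 157, nat_lit 0, nat_lit 0, nat_lit 0, nat_lit 0, nat_lit 0, nat_lit 35243038, nat_lit 24340987, nat_lit 7415975, nat_lit 5086631, true, true⟩,
 nat_lit 0, nat_lit 0, nat_lit 7838, nat_lit 0, nat_lit 2716, nat_lit 5205, nat_lit 617, nat_lit 0, nat_lit 0, nat_lit 1124, nat_lit 0, nat_lit 0, nat_lit 0, nat_lit 0, nat_lit 0, nat_lit 42250, nat_lit 0, nat_lit 0, [(nat_lit 25, [(nat_lit 0, nat_lit 169)])],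
 ⟨p122_k38, nat_lit 0, nat_lit 0, nat_lit 94, nat_lit 0, nat_lit 0, [nat_lit 908594001, nat_lit 1862797200, nat_lit 5551692000], [], [nat_lit 26005788138, nat_lit 26235208572, nat_lit 28287110171, nat_lit 28534554195, nat_lit 27274112339, nat_lit 27484201181, nat_lit 29493452747, nat_lit 29700380961], nat_lit 0, nat_lit 0, nat_lit 0, nat_lit 0, nat_lit 0, nat_lit 0, [], [nat_lit 131, nat_lit 40, nat_lit 40, nat_lit 80, nat_lit 64, nat_lit 272, nat_lit 60, nat_lit 8]⟩, ⟨p122_k39, nat_lit 0, nat_lit 0, nat_lit 500, nat_lit 0, nat_lit 834165, [nat_lit 2727342000, nat_lit 3895728000, nat_lit 9865632000], [], [nat_lit 22281615359, nat_lit 22371155839, nat_lit 23756161258, nat_lit 23835276130, nat_lit 23905461755, nat_lit 23993437353, nat_lit 25371949512, nat_lit 25455163848], nat_lit 1271250, nat_lit 1271250, nat_lit 1271250, nat_lit 1271250, nat_lit 1100001, nat_lit 2538500, [nat_lit 780000, nat_lit 1100000, nat_lit 2470000],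 [nat_lit 158, nat_lit 40, nat_lit 40, nat_lit 80, nat_lit 65, nat_lit 401, nat_lit 175, nat_lit 9]⟩,
 ⟨nat_lit 2500, nat_lit 2739, ⟨.ofNat (nat_lit 778061), .ofNat (nat_lit 860747), .ofNat (nat_lit 783665), .ofNat (nat_lit 866351), .ofNat (nat_lit 775805), .ofNat (nat_lit 857095), .ofNat (nat_lit 781450), .ofNat (nat_lit 862740)⟩, ⟨.ofNat (nat_lit 328850), .ofNat (nat_lit 435161), .ofNat (nat_lit 351268), .ofNat (nat_lit 457578), .ofNat (nat_lit 329031), .ofNat (nat_lit 433547), .ofNat (nat_lit 351611), .ofNat (nat_lit 456128)⟩⟩, [⟨nat_lit 4, nat_lit 100, nat_lit 51, nat_lit 89, nat_lit 554573159⟩, ⟨nat_lit 19, nat_lit 99, nat_lit 91, nat_lit 100, nat_lit 238512647⟩]⟩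
noncomputable def p122_l135 : Lf2 := ⟨nat_lit 0, nat_lit 20, [nat_lit 5, nat_lit 5, nat_lit 5, nat_lit 20], false, nat_lit 160, nat_lit 220, nat_lit 160, nat_lit 328, ⟨nat_lit 712, nat_lit 288, nat_lit 0, nat_lit 8, nat_lit 326, nat_lit 288, nat_lit 153, nat_lit 0, nat_lit 0, nat_lit 0, nat_lit 0, nat_lit 0, nat_lit 35575525, nat_lit 24229277, nat_lit 7195198, nat_lit 5052099, true, true⟩,
 nat_lit 0, nat_lit 0, nat_lit 6659, nat_lit 0, nat_lit 2624, nat_lit 4422, nat_lit 512, nat_lit 0, nat_lit 0, nat_lit 969, nat_lit 0, nat_lit 0, nat_lit 0, nat_lit 0, nat_lit 0, nat_lit 115200, nat_lit 0, nat_lit 0, [(nat_lit 25, [(nat_lit 1, nat_lit 288)])],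
 ⟨p122_k40, nat_lit 0, nat_lit 0, nat_lit 95, nat_lit 0, nat_lit 0, [nat_lit 866921600, nat_lit 1739392001, nat_lit 4713577600], [], [nat_lit 26292353544, nat_lit 26514411168, nat_lit 28253273036, nat_lit 28457849290, nat_lit 27337427838, nat_lit 27542225928, nat_lit 29217976600, nat_lit 29434292497], nat_lit 0, nat_lit 0, nat_lit 0, nat_lit 0, nat_lit 0, nat_lit 0, [], [nat_lit 131, nat_lit 40, nat_lit 40, nat_lit 80, nat_lit 64, nat_lit 272, nat_lit 60, nat_lit 8]⟩, ⟨p122_k39, nat_lit 0, nat_lit 0, nat_lit 522, nat_lit 0, nat_lit 904246, [nat_lit 2336784000, nat_lit 3337856000, nat_lit 8452864000], [], [nat_lit 19203104064, nat_lit 19279766235, nat_lit 20257761261, nat_lit 20321944656, nat_lit 20633196750, nat_lit 20707930354, nat_lit 21666093243, nat_lit 21728552568], nat_lit 1271250, nat_lit 1271250, nat_lit 1271250, nat_lit 1271250, nat_lit 1100001, nat_lit 2538500, [nat_lit 780000, nat_lit 1100000, nat_lit 2470000],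 [nat_lit 158, nat_lit 40, nat_lit 40, nat_lit 80, nat_lit 65, nat_lit 401, nat_lit 175, nat_lit 9]⟩,
 ⟨nat_lit 2236, nat_lit 2500, ⟨.ofNat (nat_lit 775805), .ofNat (nat_lit 851289), .ofNat (nat_lit 781450), .ofNat (nat_lit 856934), .ofNat (nat_lit 773529), .ofNat (nat_lit 847650), .ofNat (nat_lit 779223), .ofNat (nat_lit 853343)⟩, ⟨.ofNat (nat_lit 329031), .ofNat (nat_lit 416128), .ofNat (nat_lit 351611), .ofNat (nat_lit 438708), .ofNat (nat_lit 329112), .ofNat (nat_lit 414635), .ofNat (nat_lit 351886), .ofNat (nat_lit 437409)⟩⟩, [⟨nat_lit 4, nat_lit 100, nat_lit 46, nat_lit 89, nat_lit 559638075⟩, ⟨nat_lit 19, nat_lit 97, nat_lit 84, nat_lit 100, nat_lit 209318351⟩]⟩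
noncomputable def p122_l136 : Lf2 := ⟨nat_lit 0, nat_lit 20, [nat_lit 5, nat_lit 5, nat_lit 5, nat_lit 20], false, nat_lit 160, nat_lit 232, nat_lit 160, nat_lit 324, ⟨nat_lit 691, nat_lit 309, nat_lit 0, nat_lit 8, nat_lit 331, nat_lit 309, nat_lit 152, nat_lit 0, nat_lit 0, nat_lit 0, nat_lit 0, nat_lit 0, nat_lit 35225907, nat_lit 24698961, nat_lit 7075132, nat_lit 5048670, true, true⟩,
 nat_lit 0, nat_lit 0, nat_lit 6186, nat_lit 0, nat_lit 2977, nat_lit 4194, nat_lit 469, nat_lit 0, nat_lit 0, nat_lit 949, nat_lit 0, nat_lit 0, nat_lit 0, nat_lit 0, nat_lit 0, nat_lit 77250, nat_lit 0, nat_lit 0, [(nat_lit 25, [(nat_lit 0, nat_lit 309)])],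
 ⟨p122_k38, nat_lit 0, nat_lit 0, nat_lit 99, nat_lit 0, nat_lit 0, [nat_lit 884234001, nat_lit 1722629201, nat_lit 4973212000], [], [nat_lit 26633114280, nat_lit 27083180783, nat_lit 28955461609, nat_lit 29355283474, nat_lit 27846432099, nat_lit 28253418018, nat_lit 29972476107, nat_lit 30429358201], nat_lit 0, nat_lit 0, nat_lit 0, nat_lit 0, nat_lit 0, nat_lit 0, [], [nat_lit 131, nat_lit 40, nat_lit 40, nat_lit 80, nat_lit 64, nat_lit 272, nat_lit 60, nat_lit 8]⟩, ⟨p122_k41, nat_lit 0, nat_lit 0, nat_lit 605, nat_lit 0, nat_lit 1083326, [nat_lit 2267862000, nat_lit 3239408000, nat_lit 8203552000], [], [nat_lit 18696845401, nat_lit 18757613726, nat_lit 19919053551, nat_lit 19992635168, nat_lit 19986038011, nat_lit 20046031634, nat_lit 20959014822, nat_lit 21007513847], nat_lit 1271250, nat_lit 1271250, nat_lit 1271250, nat_lit 1271250, nat_lit 1100001, nat_lit 2504250, [nat_lit 780000, nat_lit 1100000, nat_lit 2470000],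 [nat_lit 158, nat_lit 40, nat_lit 40, nat_lit 80, nat_lit 65, nat_lit 401, nat_lit 175, nat_lit 9]⟩,
 ⟨nat_lit 2236, nat_lit 2739, ⟨.ofNat (nat_lit 783665), .ofNat (nat_lit 872257), .ofNat (nat_lit 789269), .ofNat (nat_lit 877861), .ofNat (nat_lit 779223), .ofNat (nat_lit 864746), .ofNat (nat_lit 784917), .ofNat (nat_lit 870440)⟩, ⟨.ofNat (nat_lit 306433), .ofNat (nat_lit 412743), .ofNat (nat_lit 351268), .ofNat (nat_lit 457578), .ofNat (nat_lit 306337), .ofNat (nat_lit 408965), .ofNat (nat_lit 351886), .ofNat (nat_lit 454514)⟩⟩, [⟨nat_lit 4, nat_lit 100, nat_lit 48, nat_lit 87, nat_lit 548700707⟩, ⟨nat_lit 7, nat_lit 98, nat_lit 100, nat_lit 99, nat_lit 188646677⟩]⟩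
noncomputable def b_V_900_700_20_20 : St := ⟨true, nat_lit 0, nat_lit 1, nat_lit 1, nat_lit 120, nat_lit 360, nat_lit 380, nat_lit 290, nat_lit 300, nat_lit 320, nat_lit 384, nat_lit 80, nat_lit 120, nat_lit 160, nat_lit 248, nat_lit 16, nat_lit 336, nat_lit 40, nat_lit 80, nat_lit 0, nat_lit 0, nat_lit 800, nat_lit 0⟩
theorem d_V_900_700_20_20 (h : EB TB.env) : Dead b_V_900_700_20_20 := chkB_sound0 h (T :=
(.trX (nat_lit 19) (nat_lit 97) (nat_lit 84) (nat_lit 100) (nat_lit 328) (.spl (nat_lit 5) (nat_lit 160)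
(.leaf p122_l131)
(.spl (nat_lit 0) (nat_lit 370)
(.leaf p122_l132)
(.trX (nat_lit 13) (nat_lit 61) (nat_lit 55) (nat_lit 100) (nat_lit 380) (.trX (nat_lit 16) (nat_lit 53) (nat_lit 100) (nat_lit 93) (nat_lit 232) (.spl (nat_lit 1) (nat_lit 295)
(.trX (nat_lit 13) (nat_lit 60) (nat_lit 57) (nat_lit 100) (nat_lit 376) (.spl (nat_lit 3) (nat_lit 100)
(.trX (nat_lit 16) (nat_lit 53) (nat_lit 100) (nat_lit 87) (nat_lit 208) (.trX (nat_lit 19) (nat_lit 100) (nat_lit 94) (nat_lit 97) (nat_lit 312) (.leaf p122_l133)))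
(.spl (nat_lit 0) (nat_lit 375)
(.leaf p122_l134)
(.trX (nat_lit 13) (nat_lit 55) (nat_lit 61) (nat_lit 100) (nat_lit 372) (.trX (nat_lit 16) (nat_lit 49) (nat_lit 100) (nat_lit 92) (nat_lit 220) (.leaf p122_l135))))))
(.trX (nat_lit 19) (nat_lit 96) (nat_lit 86) (nat_lit 100) (nat_lit 324) (.leaf p122_l136))))))))) (by decide +kernel)

end B2
end Pool.Agent.Lib.MP_6947cd_al
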