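import Pool.Agent.Lib.MP_6947cd_al.ZB.Pre

/-!
Problem MP_6947cd_al (Chollet).  Case B, second entry in [2/5, 17/20]: certificates of the tree, part P123 (generated).
-/

set_option autoImplicit false
set_option linter.all false

namespace Pool.Agent.Lib.MP_6947cd_al
namespace B2

open Ent Fr B1 PkA

noncomputable def p123_k0 : C1.Kn := ⟨[nat_lit 20, nat_lit 60, nat_lit 100], [nat_lit 0, nat_lit 1415, nat_lit 3591], [(nat_lit 0, nat_lit 0, nat_lit 0), (nat_lit 1000, nat_lit 558, nat_lit 551), (nat_lit 1000, nat_lit 439, nat_lit 849)], (nat_lit 44, nat_lit 100, nat_lit 82)⟩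
noncomputable def p123_k1 : C1.Kn := ⟨[nat_lit 60, nat_lit 100, nat_lit 160], [nat_lit 0, nat_lit 0, nat_lit 3069], [(nat_lit 0, nat_lit 0, nat_lit 0), (nat_lit 0, nat_lit 0, nat_lit 0), (nat_lit 1000, nat_lit 999, nat_lit 798)], (nat_lit 100, nat_lit 95, nat_lit 87)⟩
noncomputable def p123_k2 : C1.Kn := ⟨[nat_lit 20, nat_lit 60, nat_lit 80], [nat_lit 0, nat_lit 1634, nat_lit 2698], [(nat_lit 0, nat_lit 0, nat_lit 0), (nat_lit 1000, nat_lit 489, nat_lit 638), (nat_lit 1000, nat_lit 414, nat_lit 822)], (nat_lit 41, nat_lit 100, nat_lit 82)⟩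
noncomputable def p123_k3 : C1.Kn := ⟨[nat_lit 20, nat_lit 60, nat_lit 80], [nat_lit 0, nat_lit 1776, nat_lit 2828], [(nat_lit 0, nat_lit 0, nat_lit 0), (nat_lit 1000, nat_lit 445, nat_lit 693), (nat_lit 1000, nat_lit 394, nat_lit 822)], (nat_lit 39, nat_lit 100, nat_lit 83)⟩
noncomputable def p123_k4 : C1.Kn := ⟨[nat_lit 60, nat_lit 100, nat_lit 160], [nat_lit 0, nat_lit 53, nat_lit 3119], [(nat_lit 0, nat_lit 0, nat_lit 0), (nat_lit 1000, nat_lit 992, nat_lit 21), (nat_lit 1000, nat_lit 991, nat_lit 797)], (nat_lit 100, nat_lit 96, nat_lit 88)⟩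
noncomputable def p123_k5 : C1.Kn := ⟨[nat_lit 60, nat_lit 100, nat_lit 160], [nat_lit 0, nat_lit 84, nat_lit 3141], [(nat_lit 0, nat_lit 0, nat_lit 0), (nat_lit 1000, nat_lit 987, nat_lit 33), (nat_lit 1000, nat_lit 986, nat_lit 794)], (nat_lit 100, nat_lit 96, nat_lit 88)⟩
noncomputable def p123_k6 : C1.Kn := ⟨[nat_lit 60, nat_lit 100, nat_lit 160], [nat_lit 0, nat_lit 117, nat_lit 3162], [(nat_lit 0, nat_lit 0, nat_lit 0), (nat_lit 1000, nat_lit 982, nat_lit 46), (nat_lit 1000, nat_lit 981, nat_lit 791)], (nat_lit 100, nat_lit 97, nat_lit 88)⟩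
noncomputable def p123_k7 : C1.Kn := ⟨[nat_lit 60, nat_lit 100, nat_lit 160], [nat_lit 0, nat_lit 151, nat_lit 3185], [(nat_lit 0, nat_lit 0, nat_lit 0), (nat_lit 1000, nat_lit 977, nat_lit 59), (nat_lit 1000, nat_lit 976, nat_lit 789)], (nat_lit 100, nat_lit 98, nat_lit 88)⟩
noncomputable def p123_k8 : C1.Kn := ⟨[nat_lit 60, nat_lit 100, nat_lit 160], [nat_lit 0, nat_lit 205, nat_lit 3236], [(nat_lit 0, nat_lit 0, nat_lit 0), (nat_lit 1000, nat_lit 968, nat_lit 80), (nat_lit 1000, nat_lit 967, nat_lit 788)], (nat_lit 100, nat_lit 99, nat_lit 89)⟩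
noncomputable def p123_k9 : C1.Kn := ⟨[nat_lit 60, nat_lit 100, nat_lit 160], [nat_lit 0, nat_lit 238, nat_lit 3259], [(nat_lit 0, nat_lit 0, nat_lit 0), (nat_lit 1000, nat_lit 963, nat_lit 93), (nat_lit 1000, nat_lit 962, nat_lit 786)], (nat_lit 100, nat_lit 99, nat_lit 89)⟩
noncomputable def p123_k10 : C1.Kn := ⟨[nat_lit 20, nat_lit 60, nat_lit 80], [nat_lit 0, nat_lit 2136, nat_lit 3185], [(nat_lit 0, nat_lit 0, nat_lit 0), (nat_lit 1000, nat_lit 343, nat_lit 808), (nat_lit 1000, nat_lit 338, nat_lit 820)], (nat_lit 33, nat_lit 100, nat_lit 84)⟩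
noncomputable def p123_k11 : C1.Kn := ⟨[nat_lit 60, nat_lit 100, nat_lit 160], [nat_lit 0, nat_lit 302, nat_lit 3303], [(nat_lit 0, nat_lit 0, nat_lit 0), (nat_lit 1000, nat_lit 953, nat_lit 118), (nat_lit 1000, nat_lit 952, nat_lit 781)], (nat_lit 100, nat_lit 100, nat_lit 89)⟩
noncomputable def p123_k12 : C1.Kn := ⟨[nat_lit 60, nat_lit 100, nat_lit 160], [nat_lit 0, nat_lit 390, nat_lit 3377], [(nat_lit 0, nat_lit 0, nat_lit 0), (nat_lit 1000, nat_lit 939, nat_lit 152), (nat_lit 1000, nat_lit 939, nat_lit 778)], (nat_lit 98, nat_lit 100, nat_lit 89)⟩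
noncomputable def p123_k13 : C1.Kn := ⟨[nat_lit 60, nat_lit 100, nat_lit 160], [nat_lit 0, nat_lit 455, nat_lit 3416], [(nat_lit 0, nat_lit 0, nat_lit 0), (nat_lit 1000, nat_lit 929, nat_lit 178), (nat_lit 1000, nat_lit 928, nat_lit 770)], (nat_lit 97, nat_lit 100, nat_lit 88)⟩
noncomputable def p123_k14 : C1.Kn := ⟨[nat_lit 20, nat_lit 60, nat_lit 100], [nat_lit 0, nat_lit 0, nat_lit 2559], [(nat_lit 0, nat_lit 0, nat_lit 0), (nat_lit 0, nat_lit 0, nat_lit 0), (nat_lit 1000, nat_lit 600, nat_lit 787)], (nat_lit 60, nat_lit 100, nat_lit 80)⟩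
noncomputable def p123_k15 : C1.Kn := ⟨[nat_lit 60, nat_lit 100, nat_lit 140], [nat_lit 0, nat_lit 609, nat_lit 2558], [(nat_lit 0, nat_lit 0, nat_lit 0), (nat_lit 1000, nat_lit 905, nat_lit 238), (nat_lit 1000, nat_lit 904, nat_lit 760)], (nat_lit 94, nat_lit 100, nat_lit 87)⟩
noncomputable def p123_k16 : C1.Kn := ⟨[nat_lit 20, nat_lit 80, nat_lit 100], [nat_lit 0, nat_lit 0, nat_lit 2559], [(nat_lit 0, nat_lit 0, nat_lit 0), (nat_lit 0, nat_lit 0, nat_lit 0), (nat_lit 1000, nat_lit 600, nat_lit 787)], (nat_lit 60, nat_lit 100, nat_lit 80)⟩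
noncomputable def p123_k17 : C1.Kn := ⟨[nat_lit 60, nat_lit 120, nat_lit 140], [nat_lit 0, nat_lit 1362, nat_lit 2909], [(nat_lit 0, nat_lit 0, nat_lit 0), (nat_lit 1000, nat_lit 858, nat_lit 354), (nat_lit 1000, nat_lit 909, nat_lit 910)], (nat_lit 89, nat_lit 100, nat_lit 85)⟩
noncomputable def p123_k18 : C1.Kn := ⟨[nat_lit 20, nat_lit 60, nat_lit 100], [nat_lit 0, nat_lit 339, nat_lit 2783], [(nat_lit 0, nat_lit 0, nat_lit 0), (nat_lit 1000, nat_lit 894, nat_lit 132), (nat_lit 1000, nat_lit 565, nat_lit 820)], (nat_lit 57, nat_lit 100, nat_lit 80)⟩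
noncomputable def p123_k19 : C1.Kn := ⟨[nat_lit 20, nat_lit 60, nat_lit 100], [nat_lit 0, nat_lit 698, nat_lit 3028], [(nat_lit 0, nat_lit 0, nat_lit 0), (nat_lit 1000, nat_lit 782, nat_lit 272), (nat_lit 1000, nat_lit 527, nat_lit 841)], (nat_lit 53, nat_lit 100, nat_lit 80)⟩
noncomputable def p123_k20 : C1.Kn := ⟨[nat_lit 20, nat_lit 60, nat_lit 100], [nat_lit 0, nat_lit 1056, nat_lit 3301], [(nat_lit 0, nat_lit 0, nat_lit 0), (nat_lit 1000, nat_lit 671, nat_lit 411), (nat_lit 1000, nat_lit 484, nat_lit 867)], (nat_lit 49, nat_lit 100, nat_lit 81)⟩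
noncomputable def p123_k21 : C1.Kn := ⟨[nat_lit 60, nat_lit 100, nat_lit 140], [nat_lit 0, nat_lit 909, nat_lit 2819], [(nat_lit 0, nat_lit 0, nat_lit 0), (nat_lit 1000, nat_lit 858, nat_lit 354), (nat_lit 1000, nat_lit 858, nat_lit 746)], (nat_lit 89, nat_lit 100, nat_lit 85)⟩
noncomputable def p123_k22 : C1.Kn := ⟨[nat_lit 60, nat_lit 100, nat_lit 140], [nat_lit 0, nat_lit 755, nat_lit 2690], [(nat_lit 0, nat_lit 0, nat_lit 0), (nat_lit 1000, nat_lit 882, nat_lit 294), (nat_lit 1000, nat_lit 882, nat_lit 755)], (nat_lit 91, nat_lit 100, nat_lit 86)⟩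
noncomputable def p123_k23 : C1.Kn := ⟨[nat_lit 20, nat_lit 100], [nat_lit 0, nat_lit 0], [(nat_lit 0, nat_lit 0, nat_lit 0), (nat_lit 0, nat_lit 0, nat_lit 0)], (nat_lit 60, nat_lit 100, nat_lit 80)⟩
noncomputable def p123_k24 : C1.Kn := ⟨[nat_lit 60, nat_lit 160], [nat_lit 0, nat_lit 0], [(nat_lit 0, nat_lit 0, nat_lit 0), (nat_lit 0, nat_lit 0, nat_lit 0)], (nat_lit 100, nat_lit 95, nat_lit 87)⟩
noncomputable def p123_k25 : C1.Kn := ⟨[nat_lit 20, nat_lit 80, nat_lit 140], [nat_lit 0, nat_lit 0, nat_lit 4928], [(nat_lit 0, nat_lit 0, nat_lit 0), (nat_lit 0, nat_lit 0, nat_lit 0), (nat_lit 950, nat_lit 618, nat_lit 1000)], (nat_lit 62, nat_lit 100, nat_lit 94)⟩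
noncomputable def p123_k26 : C1.Kn := ⟨[nat_lit 60, nat_lit 120, nat_lit 180], [nat_lit 0, nat_lit 0, nat_lit 4796], [(nat_lit 0, nat_lit 0, nat_lit 0), (nat_lit 0, nat_lit 0, nat_lit 0), (nat_lit 802, nat_lit 1000, nat_lit 999)], (nat_lit 100, nat_lit 80, nat_lit 100)⟩
noncomputable def p123_k27 : C1.Kn := ⟨[nat_lit 20, nat_lit 60, nat_lit 120], [nat_lit 0, nat_lit 0, nat_lit 3661], [(nat_lit 0, nat_lit 0, nat_lit 0), (nat_lit 0, nat_lit 0, nat_lit 0), (nat_lit 1000, nat_lit 611, nat_lit 913)], (nat_lit 60, nat_lit 100, nat_lit 87)⟩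
noncomputable def p123_k28 : C1.Kn := ⟨[nat_lit 60, nat_lit 100, nat_lit 160], [nat_lit 0, nat_lit 0, nat_lit 3069], [(nat_lit 0, nat_lit 0, nat_lit 0), (nat_lit 0, nat_lit 0, nat_lit 0), (nat_lit 1000, nat_lit 999, nat_lit 798)], (nat_lit 100, nat_lit 88, nat_lit 94)⟩
noncomputable def p123_k29 : C1.Kn := ⟨[nat_lit 20, nat_lit 60, nat_lit 140], [nat_lit 0, nat_lit 0, nat_lit 4874], [(nat_lit 0, nat_lit 0, nat_lit 0), (nat_lit 0, nat_lit 0, nat_lit 0), (nat_lit 1000, nat_lit 619, nat_lit 951)], (nat_lit 62, nat_lit 100, nat_lit 94)⟩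
noncomputable def p123_k30 : C1.Kn := ⟨[nat_lit 60, nat_lit 100, nat_lit 180], [nat_lit 0, nat_lit 0, nat_lit 4090], [(nat_lit 0, nat_lit 0, nat_lit 0), (nat_lit 0, nat_lit 0, nat_lit 0), (nat_lit 1000, nat_lit 999, nat_lit 798)], (nat_lit 100, nat_lit 80, nat_lit 100)⟩
noncomputable def p123_k31 : C1.Kn := ⟨[nat_lit 60, nat_lit 100, nat_lit 160], [nat_lit 0, nat_lit 302, nat_lit 3303], [(nat_lit 0, nat_lit 0, nat_lit 0), (nat_lit 1000, nat_lit 953, nat_lit 118), (nat_lit 1000, nat_lit 952, nat_lit 781)], (nat_lit 100, nat_lit 94, nat_lit 97)⟩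
noncomputable def p123_k32 : C1.Kn := ⟨[nat_lit 20, nat_lit 60, nat_lit 120], [nat_lit 0, nat_lit 339, nat_lit 3911], [(nat_lit 0, nat_lit 0, nat_lit 0), (nat_lit 1000, nat_lit 894, nat_lit 132), (nat_lit 1000, nat_lit 574, nat_lit 928)], (nat_lit 58, nat_lit 100, nat_lit 93)⟩
noncomputable def p123_k33 : C1.Kn := ⟨[nat_lit 20, nat_lit 60, nat_lit 120], [nat_lit 0, nat_lit 698, nat_lit 4166], [(nat_lit 0, nat_lit 0, nat_lit 0), (nat_lit 1000, nat_lit 782, nat_lit 272), (nat_lit 1000, nat_lit 529, nat_lit 902)], (nat_lit 53, nat_lit 100, nat_lit 93)⟩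
noncomputable def p123_k34 : C1.Kn := ⟨[nat_lit 20, nat_lit 60, nat_lit 120], [nat_lit 0, nat_lit 1056, nat_lit 4422], [(nat_lit 0, nat_lit 0, nat_lit 0), (nat_lit 1000, nat_lit 671, nat_lit 411), (nat_lit 1000, nat_lit 484, nat_lit 876)], (nat_lit 49, nat_lit 100, nat_lit 92)⟩
noncomputable def p123_k35 : C1.Kn := ⟨[nat_lit 20, nat_lit 60, nat_lit 100], [nat_lit 0, nat_lit 1415, nat_lit 3591], [(nat_lit 0, nat_lit 0, nat_lit 0), (nat_lit 1000, nat_lit 558, nat_lit 551), (nat_lit 1000, nat_lit 439, nat_lit 849)], (nat_lit 44, nat_lit 100, nat_lit 87)⟩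
noncomputable def p123_k36 : C1.Kn := ⟨[nat_lit 20, nat_lit 60, nat_lit 120], [nat_lit 0, nat_lit 1415, nat_lit 4677], [(nat_lit 0, nat_lit 0, nat_lit 0), (nat_lit 1000, nat_lit 558, nat_lit 551), (nat_lit 1000, nat_lit 439, nat_lit 849)], (nat_lit 44, nat_lit 100, nat_lit 92)⟩
noncomputable def p123_k37 : C1.Kn := ⟨[nat_lit 20, nat_lit 60, nat_lit 100], [nat_lit 0, nat_lit 1776, nat_lit 3880], [(nat_lit 0, nat_lit 0, nat_lit 0), (nat_lit 1000, nat_lit 445, nat_lit 693), (nat_lit 1000, nat_lit 394, nat_lit 822)], (nat_lit 38, nat_lit 100, nat_lit 92)⟩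
noncomputable def p123_k38 : C1.Kn := ⟨[nat_lit 20, nat_lit 60, nat_lit 100], [nat_lit 0, nat_lit 2136, nat_lit 4235], [(nat_lit 0, nat_lit 0, nat_lit 0), (nat_lit 1000, nat_lit 343, nat_lit 808), (nat_lit 1000, nat_lit 338, nat_lit 820)], (nat_lit 31, nat_lit 100, nat_lit 92)⟩
noncomputable def p123_k39 : C1.Kn := ⟨[nat_lit 60, nat_lit 100, nat_lit 180], [nat_lit 0, nat_lit 302, nat_lit 4303], [(nat_lit 0, nat_lit 0, nat_lit 0), (nat_lit 1000, nat_lit 953, nat_lit 118), (nat_lit 1000, nat_lit 952, nat_lit 781)], (nat_lit 97, nat_lit 84, nat_lit 100)⟩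
noncomputable def p123_k40 : C1.Kn := ⟨[nat_lit 20, nat_lit 80, nat_lit 120], [nat_lit 0, nat_lit 2121, nat_lit 4818], [(nat_lit 0, nat_lit 0, nat_lit 0), (nat_lit 1000, nat_lit 558, nat_lit 551), (nat_lit 1000, nat_lit 443, nat_lit 981)], (nat_lit 44, nat_lit 100, nat_lit 92)⟩
noncomputable def p123_k41 : C1.Kn := ⟨[nat_lit 60, nat_lit 100, nat_lit 160], [nat_lit 0, nat_lit 609, nat_lit 3531], [(nat_lit 0, nat_lit 0, nat_lit 0), (nat_lit 1000, nat_lit 905, nat_lit 238), (nat_lit 1000, nat_lit 904, nat_lit 760)], (nat_lit 94, nat_lit 88, nat_lit 100)⟩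
noncomputable def p123_k42 : C1.Kn := ⟨[nat_lit 60, nat_lit 100, nat_lit 160], [nat_lit 0, nat_lit 609, nat_lit 3531], [(nat_lit 0, nat_lit 0, nat_lit 0), (nat_lit 1000, nat_lit 905, nat_lit 238), (nat_lit 1000, nat_lit 904, nat_lit 760)], (nat_lit 100, nat_lit 100, nat_lit 100)⟩
noncomputable def p123_k43 : C1.Kn := ⟨[nat_lit 20, nat_lit 60, nat_lit 120], [nat_lit 0, nat_lit 698, nat_lit 4166], [(nat_lit 0, nat_lit 0, nat_lit 0), (nat_lit 1000, nat_lit 782, nat_lit 272), (nat_lit 1000, nat_lit 529, nat_lit 902)], (nat_lit 53, nat_lit 100, nat_lit 87)⟩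
noncomputable def p123_k44 : C1.Kn := ⟨[nat_lit 20, nat_lit 60, nat_lit 100], [nat_lit 0, nat_lit 1056, nat_lit 3301], [(nat_lit 0, nat_lit 0, nat_lit 0), (nat_lit 1000, nat_lit 671, nat_lit 411), (nat_lit 1000, nat_lit 484, nat_lit 867)], (nat_lit 48, nat_lit 100, nat_lit 87)⟩
noncomputable def p123_k45 : C1.Kn := ⟨[nat_lit 20, nat_lit 60, nat_lit 80], [nat_lit 0, nat_lit 2136, nat_lit 3185], [(nat_lit 0, nat_lit 0, nat_lit 0), (nat_lit 1000, nat_lit 343, nat_lit 808), (nat_lit 1000, nat_lit 338, nat_lit 820)], (nat_lit 32, nat_lit 100, nat_lit 88)⟩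
noncomputable def p123_k46 : C1.Kn := ⟨[nat_lit 20, nat_lit 60, nat_lit 100], [nat_lit 0, nat_lit 1990, nat_lit 4061], [(nat_lit 0, nat_lit 0, nat_lit 0), (nat_lit 1000, nat_lit 380, nat_lit 773), (nat_lit 1000, nat_lit 365, nat_lit 809)], (nat_lit 34, nat_lit 100, nat_lit 92)⟩
noncomputable def p123_k47 : C1.Kn := ⟨[nat_lit 20, nat_lit 60, nat_lit 100], [nat_lit 0, nat_lit 2600, nat_lit 4863], [(nat_lit 0, nat_lit 0, nat_lit 0), (nat_lit 1000, nat_lit 245, nat_lit 872), (nat_lit 1000, nat_lit 240, nat_lit 884)], (nat_lit 23, nat_lit 100, nat_lit 93)⟩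
noncomputable def p123_k48 : C1.Kn := ⟨[nat_lit 60, nat_lit 100, nat_lit 160], [nat_lit 0, nat_lit 909, nat_lit 3774], [(nat_lit 0, nat_lit 0, nat_lit 0), (nat_lit 1000, nat_lit 858, nat_lit 354), (nat_lit 1000, nat_lit 858, nat_lit 746)], (nat_lit 91, nat_lit 91, nat_lit 100)⟩
noncomputable def p123_l0 : Lf2 := ⟨nat_lit 0, nat_lit 20, [nat_lit 5, nat_lit 5, nat_lit 5, nat_lit 20], false, nat_lit 160, nat_lit 208, nat_lit 16, nat_lit 336, ⟨nat_lit 206, nat_lit 794, nat_lit 0, nat_lit 8, nat_lit 315, nat_lit 794, nat_lit 145, nat_lit 0, nat_lit 0, nat_lit 0, nat_lit 0, nat_lit 0, nat_lit 36753672, nat_lit 23476443, nat_lit 6769885, nat_lit 4964656, true, true⟩,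
 nat_lit 0, nat_lit 0, nat_lit 2707, nat_lit 0, nat_lit 2398, nat_lit 1722, nat_lit 122, nat_lit 0, nat_lit 0, nat_lit 153, nat_lit 0, nat_lit 0, nat_lit 0, nat_lit 0, nat_lit 0, nat_lit 317600, nat_lit 0, nat_lit 0, [(nat_lit 28, [(nat_lit 1, nat_lit 794)])],
 ⟨p123_k0, nat_lit 0, nat_lit 0, nat_lit 85, nat_lit 0, nat_lit 0, [nat_lit 747122401, nat_lit 933983201, nat_lit 1397072000], [], [nat_lit 26208722791, nat_lit 26340562998, nat_lit 27521328908, nat_lit 27643952309, nat_lit 27049561207, nat_lit 27173332918, nat_lit 28282881268, nat_lit 28398210354], nat_lit 0, nat_lit 0, nat_lit 0, nat_lit 0, nat_lit 0, nat_lit 0, [], [nat_lit 20, nat_lit 40, nat_lit 40, nat_lit 80, nat_lit 16, nat_lit 272, nat_lit 60, nat_lit 8]⟩, ⟨p123_k1, nat_lit 0, nat_lit 0, nat_lit 716, nat_lit 0, nat_lit 1117510, [nat_lit 676092000, nat_lit 1287500000, nat_lit 2445632000], [], [nat_lit 6722626790, nat_lit 6729561559, nat_lit 7097764354,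 nat_lit 7112954076, nat_lit 6071623505, nat_lit 6080046342, nat_lit 6298247966, nat_lit 6305295786], nat_lit 1271250, nat_lit 1271250, nat_lit 1271250, nat_lit 1271250, nat_lit 88400, nat_lit 2396400, [nat_lit 780000, nat_lit 1435000, nat_lit 1271250], [nat_lit 23, nat_lit 40, nat_lit 40, nat_lit 80, nat_lit 12, nat_lit 401, nat_lit 175, nat_lit 10]⟩,
 ⟨nat_lit 2061, nat_lit 2237, ⟨.ofNat (nat_lit 762142), .ofNat (nat_lit 813456), .ofNat (nat_lit 764420), .ofNat (nat_lit 815734), .ofNat (nat_lit 760692), .ofNat (nat_lit 811408), .ofNat (nat_lit 762983), .ofNat (nat_lit 813699)⟩, ⟨.ofNat (nat_lit 306337), .ofNat (nat_lit 374756), .ofNat (nat_lit 351886), .ofNat (nat_lit 420305), .ofNat (nat_lit 306188), .ofNat (nat_lit 373809), .ofNat (nat_lit 352008), .ofNat (nat_lit 419629)⟩⟩, [⟨nat_lit 13, nat_lit 46, nat_lit 72, nat_lit 100, nat_lit 255760863⟩, ⟨nat_lit 16, nat_lit 44, nat_lit 100, nat_lit 92, nat_lit 337282907⟩,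 ⟨nat_lit 19, nat_lit 100, nat_lit 80, nat_lit 100, nat_lit 27301958⟩]⟩
noncomputable def p123_l1 : Lf2 := ⟨nat_lit 0, nat_lit 20, [nat_lit 5, nat_lit 5, nat_lit 5, nat_lit 20], false, nat_lit 160, nat_lit 204, nat_lit 16, nat_lit 336, ⟨nat_lit 161, nat_lit 839, nat_lit 0, nat_lit 8, nat_lit 314, nat_lit 839, nat_lit 144, nat_lit 0, nat_lit 0, nat_lit 0, nat_lit 0, nat_lit 0, nat_lit 36943654, nat_lit 23352863, nat_lit 6703483, nat_lit 4950130, true, true⟩,
 nat_lit 0, nat_lit 0, nat_lit 2112, nat_lit 0, nat_lit 2726, nat_lit 1343, nat_lit 100, nat_lit 0, nat_lit 0, nat_lit 120, nat_lit 0, nat_lit 0, nat_lit 0, nat_lit 0, nat_lit 0, nat_lit 209750, nat_lit 0, nat_lit 0, [(nat_lit 28, [(nat_lit 0, nat_lit 839)])],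
 ⟨p123_k2, nat_lit 0, nat_lit 0, nat_lit 79, nat_lit 0, nat_lit 0, [nat_lit 806780401, nat_lit 1405996000, nat_lit 1909567600], [], [nat_lit 26586109092, nat_lit 26683067922, nat_lit 27853220345, nat_lit 27945467699, nat_lit 27370673710, nat_lit 27461906573, nat_lit 28560780323, nat_lit 28654225582], nat_lit 0, nat_lit 0, nat_lit 0, nat_lit 0, nat_lit 0, nat_lit 0, [], [nat_lit 35, nat_lit 40, nat_lit 40, nat_lit 80, nat_lit 22, nat_lit 203, nat_lit 0, nat_lit 6]⟩, ⟨p123_k1, nat_lit 0, nat_lit 0, nat_lit 727, nat_lit 0, nat_lit 1150538, [nat_lit 528402000, nat_lit 1006250000, nat_lit 1911392000], [], [nat_lit 5261687392, nat_lit 5267108656, nat_lit 5508631236, nat_lit 5520695165, nat_lit 4754769605, nat_lit 4758138951, nat_lit 4903820888, nat_lit 4909450355], nat_lit 1271250, nat_lit 1271250, nat_lit 1271250, nat_lit 1271250, nat_lit 88400, nat_lit 2396400, [nat_lit 780000, nat_lit 1435000, nat_lit 1271250], [nat_lit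 23, nat_lit 40, nat_lit 40, nat_lit 80, nat_lit 12, nat_lit 401, nat_lit 175, nat_lit 10]⟩,
 ⟨nat_lit 1936, nat_lit 2062, ⟨.ofNat (nat_lit 760692), .ofNat (nat_lit 805773), .ofNat (nat_lit 762983), .ofNat (nat_lit 808064), .ofNat (nat_lit 759709), .ofNat (nat_lit 804421), .ofNat (nat_lit 762010), .ofNat (nat_lit 806722)⟩, ⟨.ofNat (nat_lit 306188), .ofNat (nat_lit 368174), .ofNat (nat_lit 352008), .ofNat (nat_lit 413994), .ofNat (nat_lit 306044), .ofNat (nat_lit 367522), .ofNat (nat_lit 352066), .ofNat (nat_lit 413544)⟩⟩, [⟨nat_lit 13, nat_lit 44, nat_lit 73, nat_lit 100, nat_lit 330995622⟩, ⟨nat_lit 16, nat_lit 40, nat_lit 100, nat_lit 92, nat_lit 355037715⟩, ⟨nat_lit 19, nat_lit 100, nat_lit 80, nat_lit 100, nat_lit 21484195⟩]⟩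
noncomputable def p123_l2 : Lf2 := ⟨nat_lit 0, nat_lit 20, [nat_lit 5, nat_lit 5, nat_lit 5, nat_lit 20], false, nat_lit 160, nat_lit 196, nat_lit 16, nat_lit 336, ⟨nat_lit 155, nat_lit 845, nat_lit 0, nat_lit 8, nat_lit 312, nat_lit 845, nat_lit 142, nat_lit 0, nat_lit 0, nat_lit 0, nat_lit 0, nat_lit 0, nat_lit 37206079, nat_lit 23233478, nat_lit 6560443, nat_lit 4923735, true, true⟩,
 nat_lit 0, nat_lit 0, nat_lit 2063, nat_lit 0, nat_lit 2724, nat_lit 1312, nat_lit 96, nat_lit 0, nat_lit 0, nat_lit 116, nat_lit 0, nat_lit 0, nat_lit 0, nat_lit 0, nat_lit 0, nat_lit 211250, nat_lit 0, nat_lit 0, [(nat_lit 28, [(nat_lit 0, nat_lit 845)])],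
 ⟨p123_k3, nat_lit 0, nat_lit 0, nat_lit 81, nat_lit 0, nat_lit 0, [nat_lit 805842000, nat_lit 1392580001, nat_lit 1889698000], [], [nat_lit 26658216654, nat_lit 26900546852, nat_lit 27760604691, nat_lit 27993233850, nat_lit 27295554704, nat_lit 27526178231, nat_lit 28344005246, nat_lit 28596302841], nat_lit 0, nat_lit 0, nat_lit 0, nat_lit 0, nat_lit 0, nat_lit 0, [], [nat_lit 35, nat_lit 40, nat_lit 40, nat_lit 80, nat_lit 22, nat_lit 203, nat_lit 0, nat_lit 6]⟩, ⟨p123_k1, nat_lit 0, nat_lit 0, nat_lit 776, nat_lit 0, nat_lit 1234080, [nat_lit 508710000, nat_lit 968750000, nat_lit 1840160000], [], [nat_lit 5141159588, nat_lit 5146693759, nat_lit 5253214925, nat_lit 5262586638, nat_lit 4541531881, nat_lit 4543346915, nat_lit 4663028029, nat_lit 4668551680], nat_lit 1271250, nat_lit 1271250, nat_lit 1271250, nat_lit 1271250, nat_lit 88400, nat_lit 2396400, [nat_lit 780000, nat_lit 1435000, nat_lit 1271250], [nat_lit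 23, nat_lit 40, nat_lit 40, nat_lit 80, nat_lit 12, nat_lit 401, nat_lit 175, nat_lit 10]⟩,
 ⟨nat_lit 1581, nat_lit 1937, ⟨.ofNat (nat_lit 759709), .ofNat (nat_lit 798832), .ofNat (nat_lit 762010), .ofNat (nat_lit 801133), .ofNat (nat_lit 757166), .ofNat (nat_lit 795411), .ofNat (nat_lit 759497), .ofNat (nat_lit 797742)⟩, ⟨.ofNat (nat_lit 306044), .ofNat (nat_lit 356345), .ofNat (nat_lit 352066), .ofNat (nat_lit 402366), .ofNat (nat_lit 305473), .ofNat (nat_lit 354645), .ofNat (nat_lit 352103), .ofNat (nat_lit 401275)⟩⟩, [⟨nat_lit 13, nat_lit 42, nat_lit 75, nat_lit 100, nat_lit 356866366⟩, ⟨nat_lit 16, nat_lit 38, nat_lit 100, nat_lit 92, nat_lit 372522695⟩, ⟨nat_lit 19, nat_lit 100, nat_lit 80, nat_lit 100, nat_lit 20455815⟩]⟩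
noncomputable def p123_l3 : Lf2 := ⟨nat_lit 0, nat_lit 20, [nat_lit 5, nat_lit 5, nat_lit 5, nat_lit 20], false, nat_lit 160, nat_lit 208, nat_lit 16, nat_lit 336, ⟨nat_lit 213, nat_lit 787, nat_lit 0, nat_lit 8, nat_lit 316, nat_lit 787, nat_lit 145, nat_lit 0, nat_lit 0, nat_lit 0, nat_lit 0, nat_lit 0, nat_lit 36721200, nat_lit 23517802, nat_lit 6760998, nat_lit 4964778, true, true⟩,
 nat_lit 0, nat_lit 0, nat_lit 2732, nat_lit 0, nat_lit 2398, nat_lit 1753, nat_lit 125, nat_lit 0, nat_lit 0, nat_lit 159, nat_lit 0, nat_lit 0, nat_lit 0, nat_lit 0, nat_lit 0, nat_lit 314800, nat_lit 0, nat_lit 0, [(nat_lit 28, [(nat_lit 1, nat_lit 787)])],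
 ⟨p123_k0, nat_lit 0, nat_lit 0, nat_lit 86, nat_lit 0, nat_lit 0, [nat_lit 748805201, nat_lit 954683600, nat_lit 1439856000], [], [nat_lit 26219523966, nat_lit 26439257643, nat_lit 27532130083, nat_lit 27736502419, nat_lit 27060362382, nat_lit 27266648567, nat_lit 28293682443, nat_lit 28489042714], nat_lit 0, nat_lit 0, nat_lit 0, nat_lit 0, nat_lit 0, nat_lit 0, [], [nat_lit 20, nat_lit 40, nat_lit 40, nat_lit 80, nat_lit 16, nat_lit 272, nat_lit 60, nat_lit 8]⟩, ⟨p123_k4, nat_lit 0, nat_lit 0, nat_lit 724, nat_lit 0, nat_lit 1142057, [nat_lit 699066000, nat_lit 1331250000, nat_lit 2528736000], [], [nat_lit 6933416144, nat_lit 6937008009, nat_lit 7313697197, nat_lit 7321508058, nat_lit 6282323690, nat_lit 6284571958, nat_lit 6512626593, nat_lit 6518229467], nat_lit 1271250, nat_lit 1271250, nat_lit 1271250, nat_lit 1271250, nat_lit 88400, nat_lit 2396400, [nat_lit 780000, nat_lit 1435000, nat_lit 1271250], [nat_lit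 23, nat_lit 40, nat_lit 40, nat_lit 80, nat_lit 12, nat_lit 401, nat_lit 175, nat_lit 10]⟩,
 ⟨nat_lit 1936, nat_lit 2237, ⟨.ofNat (nat_lit 764420), .ofNat (nat_lit 815734), .ofNat (nat_lit 765558), .ofNat (nat_lit 816872), .ofNat (nat_lit 762010), .ofNat (nat_lit 812311), .ofNat (nat_lit 763161), .ofNat (nat_lit 813461)⟩, ⟨.ofNat (nat_lit 306337), .ofNat (nat_lit 374756), .ofNat (nat_lit 351886), .ofNat (nat_lit 420305), .ofNat (nat_lit 306044), .ofNat (nat_lit 373111), .ofNat (nat_lit 352066), .ofNat (nat_lit 419133)⟩⟩, [⟨nat_lit 13, nat_lit 45, nat_lit 73, nat_lit 100, nat_lit 256892695⟩, ⟨nat_lit 16, nat_lit 44, nat_lit 100, nat_lit 92, nat_lit 340413946⟩, ⟨nat_lit 19, nat_lit 100, nat_lit 81, nat_lit 100, nat_lit 28588782⟩]⟩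
noncomputable def p123_l4 : Lf2 := ⟨nat_lit 0, nat_lit 20, [nat_lit 5, nat_lit 5, nat_lit 5, nat_lit 20], false, nat_lit 160, nat_lit 196, nat_lit 16, nat_lit 336, ⟨nat_lit 161, nat_lit 839, nat_lit 0, nat_lit 8, nat_lit 312, nat_lit 839, nat_lit 142, nat_lit 0, nat_lit 0, nat_lit 0, nat_lit 0, nat_lit 0, nat_lit 37150787, nat_lit 23295670, nat_lit 6553543, nat_lit 4924973, true, true⟩,
 nat_lit 0, nat_lit 0, nat_lit 2094, nat_lit 0, nat_lit 2727, nat_lit 1344, nat_lit 98, nat_lit 0, nat_lit 0, nat_lit 122, nat_lit 0, nat_lit 0, nat_lit 0, nat_lit 0, nat_lit 0, nat_lit 209750, nat_lit 0, nat_lit 0, [(nat_lit 28, [(nat_lit 0, nat_lit 839)])],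
 ⟨p123_k3, nat_lit 0, nat_lit 0, nat_lit 81, nat_lit 0, nat_lit 0, [nat_lit 806780401, nat_lit 1405996000, nat_lit 1909567600], [], [nat_lit 26659502056, nat_lit 26901932572, nat_lit 27762717866, nat_lit 27995439138, nat_lit 27296680466, nat_lit 27527396008, nat_lit 28347648735, nat_lit 28600050058], nat_lit 0, nat_lit 0, nat_lit 0, nat_lit 0, nat_lit 0, nat_lit 0, [], [nat_lit 35, nat_lit 40, nat_lit 40, nat_lit 80, nat_lit 22, nat_lit 203, nat_lit 0, nat_lit 6]⟩, ⟨p123_k4, nat_lit 0, nat_lit 0, nat_lit 767, nat_lit 0, nat_lit 1224371, [nat_lit 528402000, nat_lit 1006250000, nat_lit 1911392000], [], [nat_lit 5318346291, nat_lit 5321222157, nat_lit 5433677494, nat_lit 5436220525, nat_lit 4710823279, nat_lit 4711788533, nat_lit 4835848654, nat_lit 4840245939], nat_lit 1271250, nat_lit 1271250, nat_lit 1271250, nat_lit 1271250, nat_lit 88400, nat_lit 2396400, [nat_lit 780000, nat_lit 1435000, nat_lit 1271250], [nat_lit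 23, nat_lit 40, nat_lit 40, nat_lit 80, nat_lit 12, nat_lit 401, nat_lit 175, nat_lit 10]⟩,
 ⟨nat_lit 1581, nat_lit 1937, ⟨.ofNat (nat_lit 762010), .ofNat (nat_lit 801133), .ofNat (nat_lit 763161), .ofNat (nat_lit 802283), .ofNat (nat_lit 759497), .ofNat (nat_lit 797742), .ofNat (nat_lit 760663), .ofNat (nat_lit 798908)⟩, ⟨.ofNat (nat_lit 306044), .ofNat (nat_lit 356345), .ofNat (nat_lit 352066), .ofNat (nat_lit 402366), .ofNat (nat_lit 305473), .ofNat (nat_lit 354645), .ofNat (nat_lit 352103), .ofNat (nat_lit 401275)⟩⟩, [⟨nat_lit 13, nat_lit 42, nat_lit 75, nat_lit 100, nat_lit 343289551⟩, ⟨nat_lit 16, nat_lit 38, nat_lit 100, nat_lit 92, nat_lit 375903622⟩, ⟨nat_lit 19, nat_lit 100, nat_lit 81, nat_lit 100, nat_lit 21700847⟩]⟩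
noncomputable def p123_l5 : Lf2 := ⟨nat_lit 0, nat_lit 20, [nat_lit 5, nat_lit 5, nat_lit 5, nat_lit 20], false, nat_lit 160, nat_lit 208, nat_lit 16, nat_lit 336, ⟨nat_lit 217, nat_lit 783, nat_lit 0, nat_lit 8, nat_lit 316, nat_lit 783, nat_lit 145, nat_lit 0, nat_lit 0, nat_lit 0, nat_lit 0, nat_lit 0, nat_lit 36685315, nat_lit 23558426, nat_lit 6756259, nat_lit 4965492, true, true⟩,
 nat_lit 0, nat_lit 0, nat_lit 2750, nat_lit 0, nat_lit 2400, nat_lit 1772, nat_lit 127, nat_lit 0, nat_lit 0, nat_lit 162, nat_lit 0, nat_lit 0, nat_lit 0, nat_lit 0, nat_lit 0, nat_lit 313200, nat_lit 0, nat_lit 0, [(nat_lit 28, [(nat_lit 1, nat_lit 783)])],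
 ⟨p123_k0, nat_lit 0, nat_lit 0, nat_lit 86, nat_lit 0, nat_lit 0, [nat_lit 749766800, nat_lit 966512400, nat_lit 1464304000], [], [nat_lit 26221024675, nat_lit 26440819275, nat_lit 27533914076, nat_lit 27738339106, nat_lit 27061709875, nat_lit 27268050135, nat_lit 28295274140, nat_lit 28491368794], nat_lit 0, nat_lit 0, nat_lit 0, nat_lit 0, nat_lit 0, nat_lit 0, [], [nat_lit 20, nat_lit 40, nat_lit 40, nat_lit 80, nat_lit 16, nat_lit 272, nat_lit 60, nat_lit 8]⟩, ⟨p123_k5, nat_lit 0, nat_lit 0, nat_lit 724, nat_lit 0, nat_lit 1140837, [nat_lit 712194000, nat_lit 1356250000, nat_lit 2576224000], [], [nat_lit 7050415626, nat_lit 7054078311, nat_lit 7441065369, nat_lit 7449001624, nat_lit 6399605635, nat_lit 6404042918, nat_lit 6634603891, nat_lit 6638603927], nat_lit 1271250, nat_lit 1271250, nat_lit 1271250, nat_lit 1271250, nat_lit 88400, nat_lit 2396400, [nat_lit 780000, nat_lit 1435000, nat_lit 1271250], [nat_lit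 23, nat_lit 40, nat_lit 40, nat_lit 80, nat_lit 12, nat_lit 401, nat_lit 175, nat_lit 10]⟩,
 ⟨nat_lit 1936, nat_lit 2237, ⟨.ofNat (nat_lit 765558), .ofNat (nat_lit 816872), .ofNat (nat_lit 766697), .ofNat (nat_lit 818011), .ofNat (nat_lit 763161), .ofNat (nat_lit 813461), .ofNat (nat_lit 764311), .ofNat (nat_lit 814612)⟩, ⟨.ofNat (nat_lit 306337), .ofNat (nat_lit 374756), .ofNat (nat_lit 351886), .ofNat (nat_lit 420305), .ofNat (nat_lit 306044), .ofNat (nat_lit 373111), .ofNat (nat_lit 352066), .ofNat (nat_lit 419133)⟩⟩, [⟨nat_lit 13, nat_lit 45, nat_lit 72, nat_lit 100, nat_lit 254383855⟩, ⟨nat_lit 16, nat_lit 44, nat_lit 100, nat_lit 92, nat_lit 342313338⟩, ⟨nat_lit 19, nat_lit 99, nat_lit 81, nat_lit 100, nat_lit 29673711⟩]⟩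
noncomputable def p123_l6 : Lf2 := ⟨nat_lit 0, nat_lit 20, [nat_lit 5, nat_lit 5, nat_lit 5, nat_lit 20], false, nat_lit 160, nat_lit 208, nat_lit 16, nat_lit 336, ⟨nat_lit 226, nat_lit 774, nat_lit 0, nat_lit 8, nat_lit 317, nat_lit 774, nat_lit 145, nat_lit 0, nat_lit 0, nat_lit 0, nat_lit 0, nat_lit 0, nat_lit 36649448, nat_lit 23599036, nat_lit 6751516, nat_lit 4966196, true, true⟩,
 nat_lit 0, nat_lit 0, nat_lit 2768, nat_lit 0, nat_lit 2404, nat_lit 1792, nat_lit 131, nat_lit 0, nat_lit 0, nat_lit 170, nat_lit 0, nat_lit 0, nat_lit 0, nat_lit 0, nat_lit 0, nat_lit 309600, nat_lit 0, nat_lit 0, [(nat_lit 28, [(nat_lit 1, nat_lit 774)])],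
 ⟨p123_k0, nat_lit 0, nat_lit 0, nat_lit 86, nat_lit 0, nat_lit 0, [nat_lit 751930400, nat_lit 993127201, nat_lit 1519312000], [], [nat_lit 26230378495, nat_lit 26450294941, nat_lit 27543834464, nat_lit 27748364880, nat_lit 27070757264, nat_lit 27277205675, nat_lit 28304809934, nat_lit 28497164816], nat_lit 0, nat_lit 0, nat_lit 0, nat_lit 0, nat_lit 0, nat_lit 0, [], [nat_lit 20, nat_lit 40, nat_lit 40, nat_lit 80, nat_lit 16, nat_lit 272, nat_lit 60, nat_lit 8]⟩, ⟨p123_k6, nat_lit 0, nat_lit 0, nat_lit 723, nat_lit 0, nat_lit 1139614, [nat_lit 741732000, nat_lit 1412500000, nat_lit 2683072000], [], [nat_lit 7471244038, nat_lit 7475071571, nat_lit 7750986268, nat_lit 7759169871, nat_lit 6840219621, nat_lit 6842660833, nat_lit 6980884578, nat_lit 6982865107], nat_lit 1271250, nat_lit 1271250, nat_lit 1271250, nat_lit 1271250, nat_lit 88400, nat_lit 2396400, [nat_lit 780000, nat_lit 1435000, nat_lit 1271250], [nat_lit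 23, nat_lit 40, nat_lit 40, nat_lit 80, nat_lit 12, nat_lit 401, nat_lit 175, nat_lit 10]⟩,
 ⟨nat_lit 1936, nat_lit 2237, ⟨.ofNat (nat_lit 766697), .ofNat (nat_lit 818011), .ofNat (nat_lit 767836), .ofNat (nat_lit 819150), .ofNat (nat_lit 764311), .ofNat (nat_lit 814612), .ofNat (nat_lit 765462), .ofNat (nat_lit 815762)⟩, ⟨.ofNat (nat_lit 306337), .ofNat (nat_lit 374756), .ofNat (nat_lit 351886), .ofNat (nat_lit 420305), .ofNat (nat_lit 306044), .ofNat (nat_lit 373111), .ofNat (nat_lit 352066), .ofNat (nat_lit 419133)⟩⟩, [⟨nat_lit 13, nat_lit 45, nat_lit 72, nat_lit 100, nat_lit 217666262⟩, ⟨nat_lit 16, nat_lit 44, nat_lit 100, nat_lit 92, nat_lit 345944168⟩, ⟨nat_lit 19, nat_lit 99, nat_lit 82, nat_lit 100, nat_lit 31630234⟩]⟩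
noncomputable def p123_l7 : Lf2 := ⟨nat_lit 0, nat_lit 20, [nat_lit 5, nat_lit 5, nat_lit 5, nat_lit 20], false, nat_lit 160, nat_lit 196, nat_lit 16, nat_lit 336, ⟨nat_lit 167, nat_lit 833, nat_lit 0, nat_lit 8, nat_lit 313, nat_lit 833, nat_lit 142, nat_lit 0, nat_lit 0, nat_lit 0, nat_lit 0, nat_lit 0, nat_lit 37095542, nat_lit 23357822, nat_lit 6546636, nat_lit 4926189, true, true⟩,
 nat_lit 0, nat_lit 0, nat_lit 2118, nat_lit 0, nat_lit 2729, nat_lit 1365, nat_lit 100, nat_lit 0, nat_lit 0, nat_lit 126, nat_lit 0, nat_lit 0, nat_lit 0, nat_lit 0, nat_lit 0, nat_lit 208250, nat_lit 0, nat_lit 0, [(nat_lit 28, [(nat_lit 0, nat_lit 833)])],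
 ⟨p123_k3, nat_lit 0, nat_lit 0, nat_lit 81, nat_lit 0, nat_lit 0, [nat_lit 807718800, nat_lit 1419412001, nat_lit 1929437200], [], [nat_lit 26661403322, nat_lit 26903900717, nat_lit 27764858183, nat_lit 27997640863, nat_lit 27298475306, nat_lit 27529252191, nat_lit 28350077727, nat_lit 28602548202], nat_lit 0, nat_lit 0, nat_lit 0, nat_lit 0, nat_lit 0, nat_lit 0, [], [nat_lit 35, nat_lit 40, nat_lit 40, nat_lit 80, nat_lit 22, nat_lit 203, nat_lit 0, nat_lit 6]⟩, ⟨p123_k5, nat_lit 0, nat_lit 0, nat_lit 770, nat_lit 0, nat_lit 1228240, [nat_lit 548094000, nat_lit 1043750000, nat_lit 1982624000], [], [nat_lit 5591850010, nat_lit 5597821261, nat_lit 5710538818, nat_lit 5715831604, nat_lit 4989431008, nat_lit 4991503459, nat_lit 5049976891, nat_lit 5055955654], nat_lit 1271250, nat_lit 1271250, nat_lit 1271250, nat_lit 1271250, nat_lit 88400, nat_lit 2396400, [nat_lit 780000, nat_lit 1435000, nat_lit 1271250], [nat_lit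 23, nat_lit 40, nat_lit 40, nat_lit 80, nat_lit 12, nat_lit 401, nat_lit 175, nat_lit 10]⟩,
 ⟨nat_lit 1581, nat_lit 1937, ⟨.ofNat (nat_lit 763161), .ofNat (nat_lit 802283), .ofNat (nat_lit 765462), .ofNat (nat_lit 804584), .ofNat (nat_lit 760663), .ofNat (nat_lit 798908), .ofNat (nat_lit 762995), .ofNat (nat_lit 801240)⟩, ⟨.ofNat (nat_lit 306044), .ofNat (nat_lit 356345), .ofNat (nat_lit 352066), .ofNat (nat_lit 402366), .ofNat (nat_lit 305473), .ofNat (nat_lit 354645), .ofNat (nat_lit 352103), .ofNat (nat_lit 401275)⟩⟩, [⟨nat_lit 13, nat_lit 42, nat_lit 75, nat_lit 100, nat_lit 312479913⟩, ⟨nat_lit 16, nat_lit 38, nat_lit 100, nat_lit 92, nat_lit 378894371⟩, ⟨nat_lit 19, nat_lit 99, nat_lit 81, nat_lit 100, nat_lit 22120423⟩]⟩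
noncomputable def p123_l8 : Lf2 := ⟨nat_lit 0, nat_lit 20, [nat_lit 5, nat_lit 5, nat_lit 5, nat_lit 20], false, nat_lit 160, nat_lit 208, nat_lit 16, nat_lit 332, ⟨nat_lit 226, nat_lit 774, nat_lit 0, nat_lit 8, nat_lit 318, nat_lit 774, nat_lit 145, nat_lit 0, nat_lit 0, nat_lit 0, nat_lit 0, nat_lit 0, nat_lit 36507456, nat_lit 23759860, nat_lit 6732684, nat_lit 4968892, true, true⟩,
 nat_lit 0, nat_lit 0, nat_lit 2785, nat_lit 0, nat_lit 2400, nat_lit 1810, nat_lit 129, nat_lit 0, nat_lit 0, nat_lit 170, nat_lit 0, nat_lit 0, nat_lit 0, nat_lit 0, nat_lit 0, nat_lit 309600, nat_lit 0, nat_lit 0, [(nat_lit 28, [(nat_lit 1, nat_lit 774)])],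
 ⟨p123_k0, nat_lit 0, nat_lit 0, nat_lit 89, nat_lit 0, nat_lit 0, [nat_lit 751930400, nat_lit 993127201, nat_lit 1519312000], [], [nat_lit 26255752525, nat_lit 26475547125, nat_lit 27714518525, nat_lit 27917235825, nat_lit 27096437725, nat_lit 27302777985, nat_lit 28467064685, nat_lit 28657762125], nat_lit 0, nat_lit 0, nat_lit 0, nat_lit 0, nat_lit 0, nat_lit 0, [], [nat_lit 20, nat_lit 40, nat_lit 40, nat_lit 80, nat_lit 16, nat_lit 272, nat_lit 60, nat_lit 8]⟩, ⟨p123_k7, nat_lit 0, nat_lit 0, nat_lit 725, nat_lit 0, nat_lit 1144615, [nat_lit 741732000, nat_lit 1412500000, nat_lit 2683072000], [], [nat_lit 7316636992, nat_lit 7324283349, nat_lit 7766661579, nat_lit 7782811236, nat_lit 6643742326, nat_lit 6648703066, nat_lit 6909607767, nat_lit 6920358175], nat_lit 1271250, nat_lit 1271250, nat_lit 1271250, nat_lit 1271250, nat_lit 88400, nat_lit 2367550, [nat_lit 780000, nat_lit 1435000, nat_lit 1271250], [nat_lit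 23, nat_lit 40, nat_lit 40, nat_lit 80, nat_lit 12, nat_lit 401, nat_lit 175, nat_lit 10]⟩,
 ⟨nat_lit 1936, nat_lit 2237, ⟨.ofNat (nat_lit 767836), .ofNat (nat_lit 824851), .ofNat (nat_lit 770113), .ofNat (nat_lit 827129), .ofNat (nat_lit 765462), .ofNat (nat_lit 821351), .ofNat (nat_lit 767763), .ofNat (nat_lit 823652)⟩, ⟨.ofNat (nat_lit 306337), .ofNat (nat_lit 374756), .ofNat (nat_lit 351886), .ofNat (nat_lit 420305), .ofNat (nat_lit 306044), .ofNat (nat_lit 373111), .ofNat (nat_lit 352066), .ofNat (nat_lit 419133)⟩⟩, [⟨nat_lit 13, nat_lit 45, nat_lit 72, nat_lit 100, nat_lit 251128836⟩, ⟨nat_lit 16, nat_lit 44, nat_lit 100, nat_lit 92, nat_lit 344362957⟩, ⟨nat_lit 19, nat_lit 99, nat_lit 82, nat_lit 100, nat_lit 30092058⟩]⟩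
noncomputable def p123_l9 : Lf2 := ⟨nat_lit 0, nat_lit 20, [nat_lit 5, nat_lit 5, nat_lit 5, nat_lit 20], false, nat_lit 160, nat_lit 208, nat_lit 16, nat_lit 332, ⟨nat_lit 240, nat_lit 760, nat_lit 0, nat_lit 8, nat_lit 319, nat_lit 760, nat_lit 145, nat_lit 0, nat_lit 0, nat_lit 0, nat_lit 0, nat_lit 0, nat_lit 36453845, nat_lit 23820603, nat_lit 6725552, nat_lit 4969872, true, true⟩,
 nat_lit 0, nat_lit 0, nat_lit 2826, nat_lit 0, nat_lit 2406, nat_lit 1853, nat_lit 136, nat_lit 0, nat_lit 0, nat_lit 181, nat_lit 0, nat_lit 0, nat_lit 0, nat_lit 0, nat_lit 0, nat_lit 304000, nat_lit 0, nat_lit 0, [(nat_lit 28, [(nat_lit 1, nat_lit 760)])],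
 ⟨p123_k0, nat_lit 0, nat_lit 0, nat_lit 89, nat_lit 0, nat_lit 0, [nat_lit 755296000, nat_lit 1034528001, nat_lit 1604880000], [], [nat_lit 26261737580, nat_lit 26481714949, nat_lit 27721447860, nat_lit 27924320497, nat_lit 27101963132, nat_lit 27308465620, nat_lit 28473404103, nat_lit 28664238784], nat_lit 0, nat_lit 0, nat_lit 0, nat_lit 0, nat_lit 0, nat_lit 0, [], [nat_lit 20, nat_lit 40, nat_lit 40, nat_lit 80, nat_lit 16, nat_lit 272, nat_lit 60, nat_lit 8]⟩, ⟨p123_k8, nat_lit 0, nat_lit 0, nat_lit 721, nat_lit 0, nat_lit 1136563, [nat_lit 787680000, nat_lit 1500000000, nat_lit 2849280000], [], [nat_lit 7905502799, nat_lit 7909579533, nat_lit 8244125781, nat_lit 8252599510, nat_lit 7253429693, nat_lit 7256118680, nat_lit 7420414010, nat_lit 7422566949], nat_lit 1271250, nat_lit 1271250, nat_lit 1271250, nat_lit 1271250, nat_lit 88400, nat_lit 2367550, [nat_lit 780000, nat_lit 1435000, nat_lit 1271250], [nat_lit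 23, nat_lit 40, nat_lit 40, nat_lit 80, nat_lit 12, nat_lit 401, nat_lit 175, nat_lit 10]⟩,
 ⟨nat_lit 1936, nat_lit 2237, ⟨.ofNat (nat_lit 770113), .ofNat (nat_lit 827129), .ofNat (nat_lit 771252), .ofNat (nat_lit 828268), .ofNat (nat_lit 767763), .ofNat (nat_lit 823652), .ofNat (nat_lit 768914), .ofNat (nat_lit 824803)⟩, ⟨.ofNat (nat_lit 306337), .ofNat (nat_lit 374756), .ofNat (nat_lit 351886), .ofNat (nat_lit 420305), .ofNat (nat_lit 306044), .ofNat (nat_lit 373111), .ofNat (nat_lit 352066), .ofNat (nat_lit 419133)⟩⟩, [⟨nat_lit 13, nat_lit 45, nat_lit 71, nat_lit 100, nat_lit 210956314⟩, ⟨nat_lit 16, nat_lit 44, nat_lit 100, nat_lit 92, nat_lit 351145055⟩, ⟨nat_lit 19, nat_lit 98, nat_lit 83, nat_lit 100, nat_lit 33384062⟩]⟩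
noncomputable def p123_l10 : Lf2 := ⟨nat_lit 0, nat_lit 20, [nat_lit 5, nat_lit 5, nat_lit 5, nat_lit 20], false, nat_lit 160, nat_lit 196, nat_lit 16, nat_lit 332, ⟨nat_lit 190, nat_lit 810, nat_lit 0, nat_lit 8, nat_lit 315, nat_lit 810, nat_lit 142, nat_lit 0, nat_lit 0, nat_lit 0, nat_lit 0, nat_lit 0, nat_lit 36915997, nat_lit 23559904, nat_lit 6524099, nat_lit 4929986, true, true⟩,
 nat_lit 0, nat_lit 0, nat_lit 2339, nat_lit 0, nat_lit 2524, nat_lit 1520, nat_lit 147, nat_lit 0, nat_lit 0, nat_lit 144, nat_lit 0, nat_lit 0, nat_lit 0, nat_lit 0, nat_lit 0, nat_lit 202500, nat_lit 0, nat_lit 0, [(nat_lit 28, [(nat_lit 0, nat_lit 810)])],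
 ⟨p123_k3, nat_lit 0, nat_lit 0, nat_lit 82, nat_lit 0, nat_lit 0, [nat_lit 811316001, nat_lit 1470840000, nat_lit 2005604000], [], [nat_lit 26452057455, nat_lit 26687699753, nat_lit 27681908625, nat_lit 27902353408, nat_lit 27100038095, nat_lit 27324527312, nat_lit 28272707026, nat_lit 28512251370], nat_lit 0, nat_lit 0, nat_lit 0, nat_lit 0, nat_lit 0, nat_lit 0, [], [nat_lit 35, nat_lit 40, nat_lit 40, nat_lit 80, nat_lit 22, nat_lit 203, nat_lit 0, nat_lit 6]⟩, ⟨p123_k7, nat_lit 0, nat_lit 0, nat_lit 771, nat_lit 0, nat_lit 1230615, [nat_lit 623580000, nat_lit 1187500000, nat_lit 2255680000], [], [nat_lit 6351360741, nat_lit 6361559991, nat_lit 6504048435, nat_lit 6512947784, nat_lit 5684116466, nat_lit 5687882699, nat_lit 5758685702, nat_lit 5765151619], nat_lit 1271250, nat_lit 1271250, nat_lit 1271250, nat_lit 1271250, nat_lit 88400, nat_lit 2367550, [nat_lit 780000, nat_lit 1435000, nat_lit 1271250], [nat_lit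 23, nat_lit 40, nat_lit 40, nat_lit 80, nat_lit 12, nat_lit 401, nat_lit 175, nat_lit 10]⟩,
 ⟨nat_lit 1581, nat_lit 1937, ⟨.ofNat (nat_lit 765462), .ofNat (nat_lit 810173), .ofNat (nat_lit 768914), .ofNat (nat_lit 813625), .ofNat (nat_lit 762995), .ofNat (nat_lit 806703), .ofNat (nat_lit 766492), .ofNat (nat_lit 810201)⟩, ⟨.ofNat (nat_lit 306044), .ofNat (nat_lit 356345), .ofNat (nat_lit 352066), .ofNat (nat_lit 402366), .ofNat (nat_lit 305473), .ofNat (nat_lit 354645), .ofNat (nat_lit 352103), .ofNat (nat_lit 401275)⟩⟩, [⟨nat_lit 13, nat_lit 42, nat_lit 74, nat_lit 100, nat_lit 286497748⟩, ⟨nat_lit 16, nat_lit 38, nat_lit 100, nat_lit 92, nat_lit 394259247⟩, ⟨nat_lit 19, nat_lit 99, nat_lit 82, nat_lit 100, nat_lit 24926080⟩]⟩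
noncomputable def p123_l11 : Lf2 := ⟨nat_lit 0, nat_lit 20, [nat_lit 5, nat_lit 5, nat_lit 5, nat_lit 20], false, nat_lit 160, nat_lit 208, nat_lit 16, nat_lit 332, ⟨nat_lit 245, nat_lit 755, nat_lit 0, nat_lit 8, nat_lit 320, nat_lit 755, nat_lit 145, nat_lit 0, nat_lit 0, nat_lit 0, nat_lit 0, nat_lit 0, nat_lit 36400295, nat_lit 23881291, nat_lit 6718414, nat_lit 4970829, true, true⟩,
 nat_lit 0, nat_lit 0, nat_lit 2850, nat_lit 0, nat_lit 2409, nat_lit 1876, nat_lit 139, nat_lit 0, nat_lit 0, nat_lit 185, nat_lit 0, nat_lit 0, nat_lit 0, nat_lit 0, nat_lit 0, nat_lit 302000, nat_lit 0, nat_lit 0, [(nat_lit 28, [(nat_lit 1, nat_lit 755)])],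
 ⟨p123_k0, nat_lit 0, nat_lit 0, nat_lit 89, nat_lit 0, nat_lit 0, [nat_lit 756498000, nat_lit 1049314001, nat_lit 1635440000], [], [nat_lit 26257636245, nat_lit 26477704999, nat_lit 27717818665, nat_lit 27920768971, nat_lit 27097631974, nat_lit 27304215575, nat_lit 28469479949, nat_lit 28665004580], nat_lit 0, nat_lit 0, nat_lit 0, nat_lit 0, nat_lit 0, nat_lit 0, [], [nat_lit 20, nat_lit 40, nat_lit 40, nat_lit 80, nat_lit 16, nat_lit 272, nat_lit 60, nat_lit 8]⟩, ⟨p123_k9, nat_lit 0, nat_lit 0, nat_lit 723, nat_lit 0, nat_lit 1141642, [nat_lit 804090000, nat_lit 1531250000, nat_lit 2908640000], [], [nat_lit 8045980541, nat_lit 8054311421, nat_lit 8399480384, nat_lit 8416735177, nat_lit 7389437017, nat_lit 7394951846, nat_lit 7559407612, nat_lit 7567149095], nat_lit 1271250, nat_lit 1271250, nat_lit 1271250, nat_lit 1271250, nat_lit 88400, nat_lit 2367550, [nat_lit 780000, nat_lit 1435000, nat_lit 1271250], [nat_lit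 23, nat_lit 40, nat_lit 40, nat_lit 80, nat_lit 12, nat_lit 401, nat_lit 175, nat_lit 10]⟩,
 ⟨nat_lit 1936, nat_lit 2237, ⟨.ofNat (nat_lit 771252), .ofNat (nat_lit 828268), .ofNat (nat_lit 773529), .ofNat (nat_lit 830545), .ofNat (nat_lit 768914), .ofNat (nat_lit 824803), .ofNat (nat_lit 771215), .ofNat (nat_lit 827104)⟩, ⟨.ofNat (nat_lit 306337), .ofNat (nat_lit 374756), .ofNat (nat_lit 351886), .ofNat (nat_lit 420305), .ofNat (nat_lit 306044), .ofNat (nat_lit 373111), .ofNat (nat_lit 352066), .ofNat (nat_lit 419133)⟩⟩, [⟨nat_lit 13, nat_lit 46, nat_lit 71, nat_lit 100, nat_lit 203078477⟩, ⟨nat_lit 16, nat_lit 44, nat_lit 100, nat_lit 92, nat_lit 354219042⟩, ⟨nat_lit 19, nat_lit 98, nat_lit 83, nat_lit 100, nat_lit 34404131⟩]⟩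
noncomputable def p123_l12 : Lf2 := ⟨nat_lit 0, nat_lit 20, [nat_lit 5, nat_lit 5, nat_lit 5, nat_lit 20], false, nat_lit 160, nat_lit 196, nat_lit 16, nat_lit 332, ⟨nat_lit 203, nat_lit 797, nat_lit 0, nat_lit 8, nat_lit 316, nat_lit 797, nat_lit 142, nat_lit 0, nat_lit 0, nat_lit 0, nat_lit 0, nat_lit 0, nat_lit 36824360, nat_lit 23663097, nat_lit 6512543, nat_lit 4931833, true, true⟩,
 nat_lit 0, nat_lit 0, nat_lit 2397, nat_lit 0, nat_lit 2527, nat_lit 1578, nat_lit 152, nat_lit 0, nat_lit 0, nat_lit 155, nat_lit 0, nat_lit 0, nat_lit 0, nat_lit 0, nat_lit 0, nat_lit 199250, nat_lit 0, nat_lit 0, [(nat_lit 28, [(nat_lit 0, nat_lit 797)])],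
 ⟨p123_k3, nat_lit 0, nat_lit 0, nat_lit 82, nat_lit 0, nat_lit 0, [nat_lit 813349200, nat_lit 1499908001, nat_lit 2048654800], [], [nat_lit 26451106355, nat_lit 26686848971, nat_lit 27681368046, nat_lit 27902701038, nat_lit 27098927355, nat_lit 27323508587, nat_lit 28274443591, nat_lit 28516055628], nat_lit 0, nat_lit 0, nat_lit 0, nat_lit 0, nat_lit 0, nat_lit 0, [], [nat_lit 35, nat_lit 40, nat_lit 40, nat_lit 80, nat_lit 22, nat_lit 203, nat_lit 0, nat_lit 6]⟩, ⟨p123_k9, nat_lit 0, nat_lit 0, nat_lit 761, nat_lit 0, nat_lit 1219479, [nat_lit 666246000, nat_lit 1268750000, nat_lit 2410016000], [], [nat_lit 6770090159, nat_lit 6777363059, nat_lit 6930814578, nat_lit 6937183301, nat_lit 6097534000, nat_lit 6100325508, nat_lit 6177130056, nat_lit 6179328944], nat_lit 1271250, nat_lit 1271250, nat_lit 1271250, nat_lit 1271250, nat_lit 88400, nat_lit 2367550, [nat_lit 780000, nat_lit 1435000, nat_lit 1271250], [nat_lit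 23, nat_lit 40, nat_lit 40, nat_lit 80, nat_lit 12, nat_lit 401, nat_lit 175, nat_lit 10]⟩,
 ⟨nat_lit 1581, nat_lit 1937, ⟨.ofNat (nat_lit 768914), .ofNat (nat_lit 813625), .ofNat (nat_lit 771215), .ofNat (nat_lit 815926), .ofNat (nat_lit 766492), .ofNat (nat_lit 810201), .ofNat (nat_lit 768823), .ofNat (nat_lit 812532)⟩, ⟨.ofNat (nat_lit 306044), .ofNat (nat_lit 356345), .ofNat (nat_lit 352066), .ofNat (nat_lit 402366), .ofNat (nat_lit 305473), .ofNat (nat_lit 354645), .ofNat (nat_lit 352103), .ofNat (nat_lit 401275)⟩⟩, [⟨nat_lit 13, nat_lit 43, nat_lit 73, nat_lit 100, nat_lit 269883885⟩, ⟨nat_lit 16, nat_lit 38, nat_lit 100, nat_lit 92, nat_lit 400506933⟩, ⟨nat_lit 19, nat_lit 98, nat_lit 83, nat_lit 100, nat_lit 27464115⟩]⟩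
noncomputable def p123_l13 : Lf2 := ⟨nat_lit 0, nat_lit 20, [nat_lit 5, nat_lit 5, nat_lit 5, nat_lit 20], true, nat_lit 160, nat_lit 184, nat_lit 16, nat_lit 336, ⟨nat_lit 0, nat_lit 1000, nat_lit 0, nat_lit 8, nat_lit 310, nat_lit 1000, nat_lit 137, nat_lit 0, nat_lit 0, nat_lit 0, nat_lit 0, nat_lit 0, nat_lit 37519706, nat_lit 23200239, nat_lit 6280055, nat_lit 4878331, true, true⟩,
 nat_lit 0, nat_lit 0, nat_lit 0, nat_lit 0, nat_lit 2667, nat_lit 0, nat_lit 41, nat_lit 0, nat_lit 0, nat_lit 0, nat_lit 0, nat_lit 0, nat_lit 0, nat_lit 0, nat_lit 0, nat_lit 250000, nat_lit 0, nat_lit 0, [(nat_lit 28, [(nat_lit 0, nat_lit 1000)])],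
 ⟨p123_k10, nat_lit 0, nat_lit 0, nat_lit 83, nat_lit 0, nat_lit 0, [nat_lit 781600001, nat_lit 1046000001, nat_lit 1376400000], [], [nat_lit 26836527067, nat_lit 27317375360, nat_lit 27763353881, nat_lit 28268334172, nat_lit 27255741927, nat_lit 27721191690, nat_lit 28151920725, nat_lit 28664095514], nat_lit 0, nat_lit 0, nat_lit 0, nat_lit 0, nat_lit 0, nat_lit 0, [], [nat_lit 35, nat_lit 40, nat_lit 40, nat_lit 80, nat_lit 22, nat_lit 203, nat_lit 0, nat_lit 6]⟩, C1.Rw.none,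
 ⟨nat_lit 0, nat_lit 1582, ⟨.ofNat (nat_lit 757165), .ofNat (nat_lit 789945), .ofNat (nat_lit 768823), .ofNat (nat_lit 801603), .ofNat (nat_lit 749998), .ofNat (nat_lit 779997), .ofNat (nat_lit 762499), .ofNat (nat_lit 792497)⟩, ⟨.ofNat (nat_lit 305469), .ofNat (nat_lit 338250), .ofNat (nat_lit 352101), .ofNat (nat_lit 384882), .ofNat (nat_lit 299995), .ofNat (nat_lit 329995), .ofNat (nat_lit 349997), .ofNat (nat_lit 379997)⟩⟩, [⟨nat_lit 13, nat_lit 35, nat_lit 79, nat_lit 100, nat_lit 555098364⟩, ⟨nat_lit 16, nat_lit 31, nat_lit 100, nat_lit 92, nat_lit 376945672⟩]⟩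
noncomputable def p123_l14 : Lf2 := ⟨nat_lit 0, nat_lit 20, [nat_lit 5, nat_lit 5, nat_lit 5, nat_lit 20], false, nat_lit 160, nat_lit 208, nat_lit 16, nat_lit 328, ⟨nat_lit 257, nat_lit 743, nat_lit 0, nat_lit 8, nat_lit 322, nat_lit 743, nat_lit 145, nat_lit 0, nat_lit 0, nat_lit 0, nat_lit 0, nat_lit 0, nat_lit 36223414, nat_lit 24081835, nat_lit 6694751, nat_lit 4973844, true, true⟩,
 nat_lit 0, nat_lit 0, nat_lit 2900, nat_lit 0, nat_lit 2409, nat_lit 1925, nat_lit 143, nat_lit 0, nat_lit 0, nat_lit 195, nat_lit 0, nat_lit 0, nat_lit 0, nat_lit 0, nat_lit 0, nat_lit 297200, nat_lit 0, nat_lit 0, [(nat_lit 28, [(nat_lit 1, nat_lit 743)])],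
 ⟨p123_k0, nat_lit 0, nat_lit 0, nat_lit 91, nat_lit 0, nat_lit 0, [nat_lit 759382800, nat_lit 1084800400, nat_lit 1708784000], [], [nat_lit 26288977545, nat_lit 26509046299, nat_lit 27904729657, nat_lit 28105982324, nat_lit 27128973274, nat_lit 27335556875, nat_lit 28647306606, nat_lit 28839798897], nat_lit 0, nat_lit 0, nat_lit 0, nat_lit 0, nat_lit 0, nat_lit 0, [], [nat_lit 20, nat_lit 40, nat_lit 40, nat_lit 80, nat_lit 16, nat_lit 272, nat_lit 60, nat_lit 8]⟩, ⟨p123_k11, nat_lit 0, nat_lit 0, nat_lit 724, nat_lit 0, nat_lit 1146102, [nat_lit 843474000, nat_lit 1606250000, nat_lit 3051104000], [], [nat_lit 8429920500, nat_lit 8443060008, nat_lit 8839533112, nat_lit 8866050850, nat_lit 7753382475, nat_lit 7762336331, nat_lit 7955168882, nat_lit 7962255748], nat_lit 1271250, nat_lit 1271250, nat_lit 1271250, nat_lit 1271250, nat_lit 88400, nat_lit 2338700, [nat_lit 780000, nat_lit 1435000, nat_lit 1271250], [nat_lit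 23, nat_lit 40, nat_lit 40, nat_lit 80, nat_lit 12, nat_lit 401, nat_lit 175, nat_lit 10]⟩,
 ⟨nat_lit 1936, nat_lit 2237, ⟨.ofNat (nat_lit 773529), .ofNat (nat_lit 836247), .ofNat (nat_lit 776946), .ofNat (nat_lit 839663), .ofNat (nat_lit 771215), .ofNat (nat_lit 832693), .ofNat (nat_lit 774666), .ofNat (nat_lit 836144)⟩, ⟨.ofNat (nat_lit 306337), .ofNat (nat_lit 374756), .ofNat (nat_lit 351886), .ofNat (nat_lit 420305), .ofNat (nat_lit 306044), .ofNat (nat_lit 373111), .ofNat (nat_lit 352066), .ofNat (nat_lit 419133)⟩⟩, [⟨nat_lit 13, nat_lit 46, nat_lit 70, nat_lit 100, nat_lit 201844161⟩, ⟨nat_lit 16, nat_lit 44, nat_lit 100, nat_lit 92, nat_lit 359100717⟩, ⟨nat_lit 19, nat_lit 97, nat_lit 84, nat_lit 100, nat_lit 35670203⟩]⟩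
noncomputable def p123_l15 : Lf2 := ⟨nat_lit 0, nat_lit 20, [nat_lit 5, nat_lit 5, nat_lit 5, nat_lit 20], false, nat_lit 160, nat_lit 196, nat_lit 16, nat_lit 328, ⟨nat_lit 212, nat_lit 788, nat_lit 0, nat_lit 8, nat_lit 319, nat_lit 788, nat_lit 142, nat_lit 0, nat_lit 0, nat_lit 0, nat_lit 0, nat_lit 0, nat_lit 36645728, nat_lit 23864357, nat_lit 6489915, nat_lit 4935261, true, true⟩,
 nat_lit 0, nat_lit 0, nat_lit 2432, nat_lit 0, nat_lit 2525, nat_lit 1615, nat_lit 153, nat_lit 0, nat_lit 0, nat_lit 162, nat_lit 0, nat_lit 0, nat_lit 0, nat_lit 0, nat_lit 0, nat_lit 197000, nat_lit 0, nat_lit 0, [(nat_lit 28, [(nat_lit 0, nat_lit 788)])],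
 ⟨p123_k3, nat_lit 0, nat_lit 0, nat_lit 83, nat_lit 0, nat_lit 0, [nat_lit 814756801, nat_lit 1520032000, nat_lit 2078459200], [], [nat_lit 26474712589, nat_lit 26710388326, nat_lit 27858449100, nat_lit 28077023184, nat_lit 27122640015, nat_lit 27347159904, nat_lit 28442031063, nat_lit 28679301436], nat_lit 0, nat_lit 0, nat_lit 0, nat_lit 0, nat_lit 0, nat_lit 0, [], [nat_lit 35, nat_lit 40, nat_lit 40, nat_lit 80, nat_lit 22, nat_lit 203, nat_lit 0, nat_lit 6]⟩, ⟨p123_k11, nat_lit 0, nat_lit 0, nat_lit 763, nat_lit 0, nat_lit 1222504, [nat_lit 695784000, nat_lit 1325000000, nat_lit 2516864000], [], [nat_lit 7047214365, nat_lit 7058616163, nat_lit 7234177553, nat_lit 7244012168, nat_lit 6361659505, nat_lit 6366267749, nat_lit 6456699869, nat_lit 6460273197], nat_lit 1271250, nat_lit 1271250, nat_lit 1271250, nat_lit 1271250, nat_lit 88400, nat_lit 2338700, [nat_lit 780000, nat_lit 1435000, nat_lit 1271250], [nat_lit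 23, nat_lit 40, nat_lit 40, nat_lit 80, nat_lit 12, nat_lit 401, nat_lit 175, nat_lit 10]⟩,
 ⟨nat_lit 1581, nat_lit 1937, ⟨.ofNat (nat_lit 771215), .ofNat (nat_lit 821515), .ofNat (nat_lit 774666), .ofNat (nat_lit 824967), .ofNat (nat_lit 768823), .ofNat (nat_lit 817996), .ofNat (nat_lit 772321), .ofNat (nat_lit 821493)⟩, ⟨.ofNat (nat_lit 306044), .ofNat (nat_lit 356345), .ofNat (nat_lit 352066), .ofNat (nat_lit 402366), .ofNat (nat_lit 305473), .ofNat (nat_lit 354645), .ofNat (nat_lit 352103), .ofNat (nat_lit 401275)⟩⟩, [⟨nat_lit 13, nat_lit 43, nat_lit 73, nat_lit 100, nat_lit 264184592⟩, ⟨nat_lit 16, nat_lit 38, nat_lit 100, nat_lit 92, nat_lit 402712830⟩, ⟨nat_lit 19, nat_lit 97, nat_lit 84, nat_lit 100, nat_lit 28753723⟩]⟩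
noncomputable def p123_l16 : Lf2 := ⟨nat_lit 0, nat_lit 20, [nat_lit 5, nat_lit 5, nat_lit 5, nat_lit 20], false, nat_lit 160, nat_lit 208, nat_lit 16, nat_lit 328, ⟨nat_lit 268, nat_lit 732, nat_lit 0, nat_lit 8, nat_lit 323, nat_lit 732, nat_lit 145, nat_lit 0, nat_lit 0, nat_lit 0, nat_lit 0, nat_lit 0, nat_lit 36190047, nat_lit 24134164, nat_lit 6675789, nat_lit 4972659, true, true⟩,
 nat_lit 0, nat_lit 0, nat_lit 2954, nat_lit 0, nat_lit 2407, nat_lit 1986, nat_lit 147, nat_lit 0, nat_lit 0, nat_lit 204, nat_lit 0, nat_lit 0, nat_lit 0, nat_lit 0, nat_lit 0, nat_lit 292800, nat_lit 0, nat_lit 0, [(nat_lit 28, [(nat_lit 1, nat_lit 732)])],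
 ⟨p123_k0, nat_lit 0, nat_lit 0, nat_lit 95, nat_lit 0, nat_lit 0, [nat_lit 762027200, nat_lit 1117329601, nat_lit 1776016000], [], [nat_lit 26315431585, nat_lit 26755447246, nat_lit 27930831148, nat_lit 28333234741, nat_lit 27155580529, nat_lit 27568639580, nat_lit 28673609247, nat_lit 29065854157], nat_lit 0, nat_lit 0, nat_lit 0, nat_lit 0, nat_lit 0, nat_lit 0, [], [nat_lit 20, nat_lit 40, nat_lit 40, nat_lit 80, nat_lit 16, nat_lit 272, nat_lit 60, nat_lit 8]⟩, ⟨p123_k12, nat_lit 0, nat_lit 0, nat_lit 754, nat_lit 0, nat_lit 1212093, [nat_lit 879576000, nat_lit 1675000000, nat_lit 3181696000], [], [nat_lit 8868310798, nat_lit 8877929739, nat_lit 9157407823, nat_lit 9166177762, nat_lit 8050385232, nat_lit 8054398349, nat_lit 8227293442, nat_lit 8236620489], nat_lit 1271250, nat_lit 1271250, nat_lit 1271250, nat_lit 1271250, nat_lit 88400, nat_lit 2338700, [nat_lit 780000, nat_lit 1435000, nat_lit 1271250], [nat_lit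 23, nat_lit 40, nat_lit 40, nat_lit 80, nat_lit 12, nat_lit 401, nat_lit 175, nat_lit 10]⟩,
 ⟨nat_lit 1581, nat_lit 2237, ⟨.ofNat (nat_lit 776946), .ofNat (nat_lit 839663), .ofNat (nat_lit 779223), .ofNat (nat_lit 841940), .ofNat (nat_lit 772321), .ofNat (nat_lit 832420), .ofNat (nat_lit 774652), .ofNat (nat_lit 834752)⟩, ⟨.ofNat (nat_lit 306337), .ofNat (nat_lit 374756), .ofNat (nat_lit 351886), .ofNat (nat_lit 420305), .ofNat (nat_lit 305473), .ofNat (nat_lit 371036), .ofNat (nat_lit 352103), .ofNat (nat_lit 417666)⟩⟩, [⟨nat_lit 13, nat_lit 43, nat_lit 72, nat_lit 100, nat_lit 197822360⟩, ⟨nat_lit 4, nat_lit 100, nat_lit 38, nat_lit 87, nat_lit 442269601⟩, ⟨nat_lit 19, nat_lit 97, nat_lit 85, nat_lit 100, nat_lit 37515900⟩]⟩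
noncomputable def p123_l17 : Lf2 := ⟨nat_lit 0, nat_lit 20, [nat_lit 5, nat_lit 5, nat_lit 5, nat_lit 20], false, nat_lit 160, nat_lit 208, nat_lit 16, nat_lit 324, ⟨nat_lit 288, nat_lit 712, nat_lit 0, nat_lit 8, nat_lit 326, nat_lit 712, nat_lit 145, nat_lit 0, nat_lit 0, nat_lit 0, nat_lit 0, nat_lit 0, nat_lit 35923290, nat_lit 24422416, nat_lit 6654294, nat_lit 4978437, true, true⟩,
 nat_lit 0, nat_lit 0, nat_lit 3028, nat_lit 0, nat_lit 2419, nat_lit 2053, nat_lit 156, nat_lit 0, nat_lit 0, nat_lit 221, nat_lit 0, nat_lit 0, nat_lit 0, nat_lit 0, nat_lit 0, nat_lit 284800, nat_lit 0, nat_lit 0, [(nat_lit 28, [(nat_lit 1, nat_lit 712)])],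
 ⟨p123_k0, nat_lit 0, nat_lit 0, nat_lit 94, nat_lit 0, nat_lit 0, [nat_lit 766835200, nat_lit 1176473600, nat_lit 1898256000], [], [nat_lit 26332691870, nat_lit 26553065239, nat_lit 28105965365, nat_lit 28305770204, nat_lit 27171921519, nat_lit 27378775499, nat_lit 28838429665, nat_lit 29026434760], nat_lit 0, nat_lit 0, nat_lit 0, nat_lit 0, nat_lit 0, nat_lit 0, [], [nat_lit 20, nat_lit 40, nat_lit 40, nat_lit 80, nat_lit 16, nat_lit 272, nat_lit 60, nat_lit 8]⟩, ⟨p123_k13, nat_lit 0, nat_lit 0, nat_lit 726, nat_lit 0, nat_lit 1154778, [nat_lit 945216000, nat_lit 1800000000, nat_lit 3419136000], [], [nat_lit 9364081870, nat_lit 9388748613, nat_lit 9870773536, nat_lit 9918775845, nat_lit 8666117049, nat_lit 8683554235, nat_lit 8916372042, nat_lit 8937772490], nat_lit 1271250, nat_lit 1271250, nat_lit 1271250, nat_lit 1271250, nat_lit 88400, nat_lit 2309850, [nat_lit 780000, nat_lit 1435000, nat_lit 1271250], [nat_lit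 23, nat_lit 40, nat_lit 40, nat_lit 80, nat_lit 12, nat_lit 401, nat_lit 175, nat_lit 10]⟩,
 ⟨nat_lit 1936, nat_lit 2237, ⟨.ofNat (nat_lit 779223), .ofNat (nat_lit 847642), .ofNat (nat_lit 784917), .ofNat (nat_lit 853335), .ofNat (nat_lit 776967), .ofNat (nat_lit 844034), .ofNat (nat_lit 782720), .ofNat (nat_lit 849787)⟩, ⟨.ofNat (nat_lit 306337), .ofNat (nat_lit 374756), .ofNat (nat_lit 351886), .ofNat (nat_lit 420305), .ofNat (nat_lit 306044), .ofNat (nat_lit 373111), .ofNat (nat_lit 352066), .ofNat (nat_lit 419133)⟩⟩, [⟨nat_lit 13, nat_lit 47, nat_lit 68, nat_lit 100, nat_lit 182553826⟩, ⟨nat_lit 16, nat_lit 44, nat_lit 100, nat_lit 92, nat_lit 370650888⟩, ⟨nat_lit 19, nat_lit 96, nat_lit 86, nat_lit 100, nat_lit 40615246⟩]⟩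
noncomputable def p123_l18 : Lf2 := ⟨nat_lit 0, nat_lit 20, [nat_lit 5, nat_lit 5, nat_lit 5, nat_lit 20], false, nat_lit 160, nat_lit 196, nat_lit 16, nat_lit 324, ⟨nat_lit 252, nat_lit 748, nat_lit 0, nat_lit 8, nat_lit 323, nat_lit 748, nat_lit 142, nat_lit 0, nat_lit 0, nat_lit 0, nat_lit 0, nat_lit 0, nat_lit 36340565, nat_lit 24208488, nat_lit 6450947, nat_lit 4940585, true, true⟩,
 nat_lit 0, nat_lit 0, nat_lit 2697, nat_lit 0, nat_lit 2409, nat_lit 1828, nat_lit 83, nat_lit 0, nat_lit 0, nat_lit 196, nat_lit 0, nat_lit 0, nat_lit 0, nat_lit 0, nat_lit 0, nat_lit 299200, nat_lit 0, nat_lit 0, [(nat_lit 28, [(nat_lit 1, nat_lit 748)])],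
 ⟨p123_k3, nat_lit 0, nat_lit 0, nat_lit 84, nat_lit 0, nat_lit 0, [nat_lit 758180800, nat_lit 1070014401, nat_lit 1329180800], [], [nat_lit 26358923702, nat_lit 26590720457, nat_lit 27876566856, nat_lit 28089935220, nat_lit 27013023830, nat_lit 27233985819, nat_lit 28461162803, nat_lit 28693574233], nat_lit 0, nat_lit 0, nat_lit 0, nat_lit 0, nat_lit 0, nat_lit 0, [], [nat_lit 35, nat_lit 40, nat_lit 40, nat_lit 80, nat_lit 22, nat_lit 203, nat_lit 0, nat_lit 6]⟩, ⟨p123_k13, nat_lit 0, nat_lit 0, nat_lit 765, nat_lit 0, nat_lit 1227516, [nat_lit 827064000, nat_lit 1575000000, nat_lit 2991744000], [], [nat_lit 8275107538, nat_lit 8297736738, nat_lit 8516233865, nat_lit 8535548609, nat_lit 7526839914, nat_lit 7536728571, nat_lit 7654145865, nat_lit 7669726861], nat_lit 1271250, nat_lit 1271250, nat_lit 1271250, nat_lit 1271250, nat_lit 88400, nat_lit 2309850, [nat_lit 780000, nat_lit 1435000, nat_lit 1271250], [nat_lit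 23, nat_lit 40, nat_lit 40, nat_lit 80, nat_lit 12, nat_lit 401, nat_lit 175, nat_lit 10]⟩,
 ⟨nat_lit 1581, nat_lit 1937, ⟨.ofNat (nat_lit 776967), .ofNat (nat_lit 832857), .ofNat (nat_lit 782720), .ofNat (nat_lit 838609), .ofNat (nat_lit 774652), .ofNat (nat_lit 829288), .ofNat (nat_lit 780481), .ofNat (nat_lit 835117)⟩, ⟨.ofNat (nat_lit 306044), .ofNat (nat_lit 356345), .ofNat (nat_lit 352066), .ofNat (nat_lit 402366), .ofNat (nat_lit 305473), .ofNat (nat_lit 354645), .ofNat (nat_lit 352103), .ofNat (nat_lit 401275)⟩⟩, [⟨nat_lit 13, nat_lit 44, nat_lit 71, nat_lit 100, nat_lit 224199616⟩, ⟨nat_lit 16, nat_lit 38, nat_lit 100, nat_lit 92, nat_lit 423906592⟩, ⟨nat_lit 19, nat_lit 96, nat_lit 86, nat_lit 100, nat_lit 35250342⟩]⟩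
noncomputable def p123_l19 : Lf2 := ⟨nat_lit 0, nat_lit 20, [nat_lit 5, nat_lit 5, nat_lit 5, nat_lit 20], false, nat_lit 160, nat_lit 184, nat_lit 16, nat_lit 328, ⟨nat_lit 195, nat_lit 805, nat_lit 0, nat_lit 8, nat_lit 317, nat_lit 805, nat_lit 137, nat_lit 0, nat_lit 0, nat_lit 0, nat_lit 0, nat_lit 0, nat_lit 36963858, nat_lit 23821846, nat_lit 6214296, nat_lit 4890401, true, true⟩,
 nat_lit 0, nat_lit 0, nat_lit 2261, nat_lit 0, nat_lit 2513, nat_lit 1501, nat_lit 132, nat_lit 0, nat_lit 0, nat_lit 149, nat_lit 0, nat_lit 0, nat_lit 0, nat_lit 0, nat_lit 0, nat_lit 201250, nat_lit 0, nat_lit 0, [(nat_lit 28, [(nat_lit 0, nat_lit 805)])],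
 ⟨p123_k10, nat_lit 0, nat_lit 0, nat_lit 85, nat_lit 0, nat_lit 0, [nat_lit 812098001, nat_lit 1482020000, nat_lit 2022162000], [], [nat_lit 26696746450, nat_lit 27167295377, nat_lit 27909938363, nat_lit 28394079279, nat_lit 27121708683, nat_lit 27577427432, nat_lit 28297531262, nat_lit 28787219822], nat_lit 0, nat_lit 0, nat_lit 0, nat_lit 0, nat_lit 0, nat_lit 0, [], [nat_lit 35, nat_lit 40, nat_lit 40, nat_lit 80, nat_lit 22, nat_lit 203, nat_lit 0, nat_lit 6]⟩, ⟨p123_k11, nat_lit 0, nat_lit 0, nat_lit 854, nat_lit 0, nat_lit 1419729, [nat_lit 639990000, nat_lit 1218750000, nat_lit 2315040000], [], [nat_lit 6598557865, nat_lit 6622683062, nat_lit 6711561464, nat_lit 6732240118, nat_lit 5856133683, nat_lit 5863176346, nat_lit 5907543170, nat_lit 5912252399], nat_lit 1271250, nat_lit 1271250, nat_lit 1271250, nat_lit 1271250, nat_lit 88400, nat_lit 2338700, [nat_lit 780000, nat_lit 1435000, nat_lit 1271250], [nat_lit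 23, nat_lit 40, nat_lit 40, nat_lit 80, nat_lit 12, nat_lit 401, nat_lit 175, nat_lit 10]⟩,
 ⟨nat_lit 0, nat_lit 1582, ⟨.ofNat (nat_lit 768823), .ofNat (nat_lit 812530), .ofNat (nat_lit 780481), .ofNat (nat_lit 824188), .ofNat (nat_lit 762499), .ofNat (nat_lit 802497), .ofNat (nat_lit 774999), .ofNat (nat_lit 814997)⟩, ⟨.ofNat (nat_lit 305469), .ofNat (nat_lit 338250), .ofNat (nat_lit 352101), .ofNat (nat_lit 384882), .ofNat (nat_lit 299995), .ofNat (nat_lit 329995), .ofNat (nat_lit 349997), .ofNat (nat_lit 379997)⟩⟩, [⟨nat_lit 13, nat_lit 36, nat_lit 77, nat_lit 100, nat_lit 336365982⟩, ⟨nat_lit 16, nat_lit 31, nat_lit 100, nat_lit 92, nat_lit 490990654⟩, ⟨nat_lit 19, nat_lit 97, nat_lit 84, nat_lit 100, nat_lit 24881520⟩]⟩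
noncomputable def b_V_900_700_20_21 : St := ⟨true, nat_lit 0, nat_lit 1, nat_lit 1, nat_lit 120, nat_lit 380, nat_lit 400, nat_lit 280, nat_lit 300, nat_lit 320, nat_lit 384, nat_lit 80, nat_lit 120, nat_lit 160, nat_lit 248, nat_lit 16, nat_lit 336, nat_lit 40, nat_lit 80, nat_lit 0, nat_lit 0, nat_lit 800, nat_lit 0⟩
theorem d_V_900_700_20_21 (h : EB TB.env) : Dead b_V_900_700_20_21 := chkB_sound0 h (T :=
(.trX (nat_lit 13) (nat_lit 50) (nat_lit 65) (nat_lit 100) (nat_lit 368) (.trX (nat_lit 16) (nat_lit 44) (nat_lit 100) (nat_lit 92) (nat_lit 208) (.spl (nat_lit 1) (nat_lit 290)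
(.trX (nat_lit 13) (nat_lit 49) (nat_lit 68) (nat_lit 100) (nat_lit 360) (.spl (nat_lit 0) (nat_lit 390)
(.spl (nat_lit 1) (nat_lit 285)
(.trX (nat_lit 13) (nat_lit 48) (nat_lit 70) (nat_lit 100) (nat_lit 356) (.spl (nat_lit 1) (nat_lit 283)
(.spl (nat_lit 1) (nat_lit 282)
(.spl (nat_lit 0) (nat_lit 385)
(.spl (nat_lit 0) (nat_lit 383)
(.leaf p123_l0)
(.trX (nat_lit 13) (nat_lit 44) (nat_lit 73) (nat_lit 100) (nat_lit 352) (.trX (nat_lit 16) (nat_lit 40) (nat_lit 100) (nat_lit 92) (nat_lit 204) (.leaf p123_l1))))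
(.trX (nat_lit 13) (nat_lit 42) (nat_lit 75) (nat_lit 100) (nat_lit 348) (.trX (nat_lit 16) (nat_lit 38) (nat_lit 100) (nat_lit 92) (nat_lit 196) (.leaf p123_l2))))
(.spl (nat_lit 0) (nat_lit 385)
(.leaf p123_l3)
(.trX (nat_lit 13) (nat_lit 42) (nat_lit 75) (nat_lit 100) (nat_lit 348) (.trX (nat_lit 16) (nat_lit 38) (nat_lit 100) (nat_lit 92) (nat_lit 196) (.leaf p123_l4)))))
(.spl (nat_lit 0) (nat_lit 385)
(.spl (nat_lit 1) (nat_lit 284)
(.leaf p123_l5)
(.leaf p123_l6))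
(.trX (nat_lit 13) (nat_lit 42) (nat_lit 75) (nat_lit 100) (nat_lit 348) (.trX (nat_lit 16) (nat_lit 38) (nat_lit 100) (nat_lit 92) (nat_lit 196) (.leaf p123_l7))))))
(.trX (nat_lit 19) (nat_lit 99) (nat_lit 82) (nat_lit 100) (nat_lit 332) (.spl (nat_lit 1) (nat_lit 288)
(.spl (nat_lit 0) (nat_lit 385)
(.spl (nat_lit 1) (nat_lit 287)
(.leaf p123_l8)
(.leaf p123_l9))
(.trX (nat_lit 13) (nat_lit 42) (nat_lit 74) (nat_lit 100) (nat_lit 352) (.trX (nat_lit 16) (nat_lit 38) (nat_lit 100) (nat_lit 92) (nat_lit 196) (.leaf p123_l10))))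
(.spl (nat_lit 0) (nat_lit 385)
(.leaf p123_l11)
(.trX (nat_lit 13) (nat_lit 43) (nat_lit 73) (nat_lit 100) (nat_lit 352) (.trX (nat_lit 16) (nat_lit 38) (nat_lit 100) (nat_lit 92) (nat_lit 196) (.leaf p123_l12)))))))
(.trX (nat_lit 13) (nat_lit 35) (nat_lit 79) (nat_lit 100) (nat_lit 344) (.trX (nat_lit 16) (nat_lit 31) (nat_lit 100) (nat_lit 92) (nat_lit 184) (.leaf p123_l13)))))
(.trX (nat_lit 19) (nat_lit 97) (nat_lit 84) (nat_lit 100) (nat_lit 328) (.spl (nat_lit 0) (nat_lit 390)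
(.spl (nat_lit 1) (nat_lit 295)
(.trX (nat_lit 13) (nat_lit 50) (nat_lit 66) (nat_lit 100) (nat_lit 364) (.spl (nat_lit 1) (nat_lit 293)
(.spl (nat_lit 0) (nat_lit 385)
(.leaf p123_l14)
(.trX (nat_lit 13) (nat_lit 43) (nat_lit 73) (nat_lit 100) (nat_lit 356) (.trX (nat_lit 16) (nat_lit 38) (nat_lit 100) (nat_lit 92) (nat_lit 196) (.leaf p123_l15))))
(.leaf p123_l16)))
(.trX (nat_lit 19) (nat_lit 96) (nat_lit 86) (nat_lit 100) (nat_lit 324) (.spl (nat_lit 0) (nat_lit 385)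
(.leaf p123_l17)
(.trX (nat_lit 13) (nat_lit 44) (nat_lit 71) (nat_lit 100) (nat_lit 360) (.trX (nat_lit 16) (nat_lit 38) (nat_lit 100) (nat_lit 92) (nat_lit 196) (.leaf p123_l18))))))
(.trX (nat_lit 13) (nat_lit 36) (nat_lit 77) (nat_lit 100) (nat_lit 352) (.trX (nat_lit 16) (nat_lit 31) (nat_lit 100) (nat_lit 92) (nat_lit 184) (.leaf p123_l19))))))))) (by decide +kernel)
noncomputable def p123_l20 : Lf2 := ⟨nat_lit 0, nat_lit 20, [nat_lit 5, nat_lit 5, nat_lit 5, nat_lit 20], false, nat_lit 160, nat_lit 248, nat_lit 0, nat_lit 320, ⟨nat_lit 389, nat_lit 611, nat_lit 0, nat_lit 7, nat_lit 294, nat_lit 611, nat_lit 157, nat_lit 0, nat_lit 0, nat_lit 0, nat_lit 0, nat_lit 0, nat_lit 37828079, nat_lit 21345497, nat_lit 7826424, nat_lit 5031360, true, false⟩,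
 nat_lit 0, nat_lit 0, nat_lit 3414, nat_lit 0, nat_lit 3486, nat_lit 2363, nat_lit 0, nat_lit 0, nat_lit 0, nat_lit 487, nat_lit 0, nat_lit 0, nat_lit 0, nat_lit 0, nat_lit 0, nat_lit 152750, nat_lit 0, nat_lit 0, [(nat_lit 25, [(nat_lit 0, nat_lit 611)])],
 ⟨p123_k14, nat_lit 0, nat_lit 0, nat_lit 59, nat_lit 0, nat_lit 0, [nat_lit 831686001, nat_lit 2113034800, nat_lit 3725348000], [], [nat_lit 22567357920, nat_lit 23926964892, nat_lit 25911338112, nat_lit 27060951968, nat_lit 24842565833, nat_lit 26017488002, nat_lit 27710121064, nat_lit 28710798100], nat_lit 0, nat_lit 0, nat_lit 0, nat_lit 0, nat_lit 0, nat_lit 0, [], [nat_lit 20, nat_lit 40, nat_lit 40, nat_lit 80, nat_lit 16, nat_lit 289, nat_lit 75, nat_lit 9]⟩, ⟨p123_k15, nat_lit 0, nat_lit 0, nat_lit 693, nat_lit 0, nat_lit 1116530, [nat_lit 1276698000, nat_lit 2431250000, nat_lit 3828538000], [], [nat_lit 11812974899, nat_lit 11902634588, nat_lit 12364677381,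 nat_lit 12437224705, nat_lit 11308316051, nat_lit 11356945900, nat_lit 11577396813, nat_lit 11614821845], nat_lit 1271250, nat_lit 1271250, nat_lit 1271250, nat_lit 1271250, nat_lit 0, nat_lit 2260000, [nat_lit 780000, nat_lit 1435000, nat_lit 1271250], [nat_lit 8, nat_lit 40, nat_lit 40, nat_lit 80, nat_lit 1, nat_lit 401, nat_lit 175, nat_lit 11]⟩,
 ⟨nat_lit 2236, nat_lit 3163, ⟨.ofNat (nat_lit 671514), .ofNat (nat_lit 793619), .ofNat (nat_lit 682560), .ofNat (nat_lit 804673), .ofNat (nat_lit 670673), .ofNat (nat_lit 784902), .ofNat (nat_lit 682029), .ofNat (nat_lit 796267)⟩, ⟨.ofNat (nat_lit 306116), .ofNat (nat_lit 440213), .ofNat (nat_lit 350426), .ofNat (nat_lit 484523), .ofNat (nat_lit 306337), .ofNat (nat_lit 431772), .ofNat (nat_lit 351886), .ofNat (nat_lit 477320)⟩⟩, [⟨nat_lit 4, nat_lit 100, nat_lit 53, nat_lit 87, nat_lit 405792211⟩, ⟨nat_lit 19, nat_lit 94, nat_lit 88, nat_lit 100, nat_lit 63066955⟩]⟩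
noncomputable def p123_l21 : Lf2 := ⟨nat_lit 0, nat_lit 20, [nat_lit 5, nat_lit 5, nat_lit 5, nat_lit 20], false, nat_lit 160, nat_lit 208, nat_lit 0, nat_lit 320, ⟨nat_lit 323, nat_lit 677, nat_lit 0, nat_lit 7, nat_lit 292, nat_lit 677, nat_lit 144, nat_lit 0, nat_lit 0, nat_lit 0, nat_lit 0, nat_lit 0, nat_lit 38652489, nat_lit 21453011, nat_lit 6894500, nat_lit 4900390, true, false⟩,
 nat_lit 0, nat_lit 0, nat_lit 3174, nat_lit 0, nat_lit 2466, nat_lit 2197, nat_lit 202, nat_lit 0, nat_lit 0, nat_lit 233, nat_lit 0, nat_lit 0, nat_lit 0, nat_lit 0, nat_lit 0, nat_lit 270800, nat_lit 0, nat_lit 0, [(nat_lit 28, [(nat_lit 1, nat_lit 677)])],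
 ⟨p123_k0, nat_lit 0, nat_lit 0, nat_lit 78, nat_lit 0, nat_lit 0, [nat_lit 775249200, nat_lit 1279975600, nat_lit 2112176000], [], [nat_lit 23440806418, nat_lit 24465983778, nat_lit 26004388830, nat_lit 26982186704, nat_lit 24441882529, nat_lit 25400352604, nat_lit 26895605802, nat_lit 27859264653], nat_lit 0, nat_lit 0, nat_lit 0, nat_lit 0, nat_lit 0, nat_lit 0, [], [nat_lit 20, nat_lit 40, nat_lit 40, nat_lit 80, nat_lit 16, nat_lit 272, nat_lit 60, nat_lit 8]⟩, ⟨p123_k15, nat_lit 0, nat_lit 0, nat_lit 804, nat_lit 0, nat_lit 1394307, [nat_lit 1060086000, nat_lit 2018750000, nat_lit 3178966000], [], [nat_lit 10330699059, nat_lit 10396306107, nat_lit 10719191771, nat_lit 10771025561, nat_lit 9615123067, nat_lit 9647493879, nat_lit 9789292993, nat_lit 9829867992], nat_lit 1271250, nat_lit 1271250, nat_lit 1271250, nat_lit 1271250, nat_lit 0, nat_lit 2260000, [nat_lit 780000, nat_lit 1435000, nat_lit 1271250], [nat_lit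 8, nat_lit 40, nat_lit 40, nat_lit 80, nat_lit 1, nat_lit 401, nat_lit 175, nat_lit 11]⟩,
 ⟨nat_lit 0, nat_lit 2237, ⟨.ofNat (nat_lit 668096), .ofNat (nat_lit 784917), .ofNat (nat_lit 679020), .ofNat (nat_lit 796304), .ofNat (nat_lit 672209), .ofNat (nat_lit 774999), .ofNat (nat_lit 684246), .ofNat (nat_lit 787499)⟩, ⟨.ofNat (nat_lit 306334), .ofNat (nat_lit 374750), .ofNat (nat_lit 351885), .ofNat (nat_lit 420300), .ofNat (nat_lit 299996), .ofNat (nat_lit 359993), .ofNat (nat_lit 349998), .ofNat (nat_lit 409994)⟩⟩, [⟨nat_lit 4, nat_lit 100, nat_lit 32, nat_lit 88, nat_lit 602711642⟩, ⟨nat_lit 19, nat_lit 94, nat_lit 88, nat_lit 100, nat_lit 48096696⟩]⟩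
noncomputable def p123_l22 : Lf2 := ⟨nat_lit 0, nat_lit 20, [nat_lit 5, nat_lit 5, nat_lit 5, nat_lit 20], false, nat_lit 160, nat_lit 248, nat_lit 0, nat_lit 312, ⟨nat_lit 293, nat_lit 707, nat_lit 0, nat_lit 7, nat_lit 298, nat_lit 707, nat_lit 155, nat_lit 0, nat_lit 0, nat_lit 0, nat_lit 0, nat_lit 0, nat_lit 37687106, nat_lit 21688158, nat_lit 7624736, nat_lit 5018471, true, false⟩,
 nat_lit 0, nat_lit 0, nat_lit 2508, nat_lit 0, nat_lit 3881, nat_lit 1808, nat_lit 0, nat_lit 0, nat_lit 0, nat_lit 294, nat_lit 0, nat_lit 0, nat_lit 0, nat_lit 0, nat_lit 0, nat_lit 176750, nat_lit 0, nat_lit 0, [(nat_lit 25, [(nat_lit 0, nat_lit 707)]), (nat_lit 28, [(nat_lit 0, nat_lit 707)])],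
 ⟨p123_k16, nat_lit 0, nat_lit 0, nat_lit 78, nat_lit 0, nat_lit 0, [nat_lit 827425200, nat_lit 2586513200, nat_lit 3328676000], [], [nat_lit 23298718272, nat_lit 26016787300, nat_lit 26580848876, nat_lit 28875278416, nat_lit 25455721420, nat_lit 27800595563, nat_lit 28253967063, nat_lit 30246175604], nat_lit 0, nat_lit 0, nat_lit 0, nat_lit 0, nat_lit 0, nat_lit 0, [], [nat_lit 55, nat_lit 40, nat_lit 40, nat_lit 80, nat_lit 3, nat_lit 289, nat_lit 75, nat_lit 9]⟩, ⟨p123_k17, nat_lit 0, nat_lit 0, nat_lit 801, nat_lit 0, nat_lit 1373518, [nat_lit 961626000, nat_lit 2334624000, nat_lit 2883706000], [], [nat_lit 8943616652, nat_lit 9010400756, nat_lit 9344354111, nat_lit 9398576516, nat_lit 8573830749, nat_lit 8610956631, nat_lit 8773624159, nat_lit 8802402471], nat_lit 1271250, nat_lit 1271250, nat_lit 1271250, nat_lit 1271250, nat_lit 0, nat_lit 2203500, [nat_lit 780000, nat_lit 1762500, nat_lit 1271250], [nat_lit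 99, nat_lit 40, nat_lit 40, nat_lit 80, nat_lit 17, nat_lit 401, nat_lit 175, nat_lit 11]⟩,
 ⟨nat_lit 0, nat_lit 3163, ⟨.ofNat (nat_lit 678193), .ofNat (nat_lit 804711), .ofNat (nat_lit 688618), .ofNat (nat_lit 815384), .ofNat (nat_lit 682888), .ofNat (nat_lit 787499), .ofNat (nat_lit 694736), .ofNat (nat_lit 799594)⟩, ⟨.ofNat (nat_lit 306113), .ofNat (nat_lit 440207), .ofNat (nat_lit 350425), .ofNat (nat_lit 484518), .ofNat (nat_lit 299996), .ofNat (nat_lit 409993), .ofNat (nat_lit 349998), .ofNat (nat_lit 459993)⟩⟩, [⟨nat_lit 4, nat_lit 100, nat_lit 44, nat_lit 87, nat_lit 444488950⟩, ⟨nat_lit 19, nat_lit 91, nat_lit 91, nat_lit 100, nat_lit 48582617⟩]⟩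
noncomputable def p123_l23 : Lf2 := ⟨nat_lit 0, nat_lit 20, [nat_lit 5, nat_lit 5, nat_lit 5, nat_lit 20], false, nat_lit 160, nat_lit 248, nat_lit 16, nat_lit 160, ⟨nat_lit 1000, nat_lit 0, nat_lit 0, nat_lit 0, nat_lit 0, nat_lit 0, nat_lit 0, nat_lit 0, nat_lit 0, nat_lit 0, nat_lit 0, nat_lit 0, nat_lit 0, nat_lit 0, nat_lit 0, nat_lit 0, false, false⟩,
 nat_lit 0, nat_lit 0, nat_lit 8420, nat_lit 0, nat_lit 4272, nat_lit 5829, nat_lit 450, nat_lit 0, nat_lit 0, nat_lit 1474, nat_lit 0, nat_lit 0, nat_lit 0, nat_lit 0, nat_lit 0, nat_lit 0, nat_lit 0, nat_lit 0, [],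
 ⟨p123_k14, nat_lit 0, nat_lit 0, nat_lit 103, nat_lit 0, nat_lit 0, [nat_lit 938000000, nat_lit 3282000000, nat_lit 6250000000], [], [nat_lit 27075876170, nat_lit 28207506736, nat_lit 30891414816, nat_lit 31937822919, nat_lit 28685356128, nat_lit 29779020580, nat_lit 32094670790, nat_lit 33004366412], nat_lit 0, nat_lit 0, nat_lit 0, nat_lit 0, nat_lit 0, nat_lit 0, [], [nat_lit 20, nat_lit 40, nat_lit 40, nat_lit 80, nat_lit 16, nat_lit 289, nat_lit 75, nat_lit 9]⟩, ⟨p123_k15, nat_lit 0, nat_lit 0, nat_lit 701, nat_lit 0, nat_lit 1185407, [nat_lit 3282000000, nat_lit 6250000000, nat_lit 9842000000], [], [nat_lit 31309156567, nat_lit 31737961433, nat_lit 34593341204, nat_lit 35787618953, nat_lit 29375361288, nat_lit 29731484862, nat_lit 31119692553, nat_lit 31457586069], nat_lit 1271250, nat_lit 1271250, nat_lit 1271250, nat_lit 1271250, nat_lit 88400, nat_lit 1100001, [nat_lit 780000, nat_lit 1435000, nat_lit 1271250],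 [nat_lit 8, nat_lit 40, nat_lit 40, nat_lit 80, nat_lit 1, nat_lit 285, nat_lit 40, nat_lit 7]⟩,
 zbF0, [⟨nat_lit 4, nat_lit 100, nat_lit 53, nat_lit 87, nat_lit 642458440⟩]⟩
noncomputable def p123_l24 : Lf2 := ⟨nat_lit 0, nat_lit 20, [nat_lit 5, nat_lit 5, nat_lit 5, nat_lit 20], false, nat_lit 160, nat_lit 248, nat_lit 160, nat_lit 320, ⟨nat_lit 1000, nat_lit 0, nat_lit 0, nat_lit 0, nat_lit 0, nat_lit 0, nat_lit 0, nat_lit 0, nat_lit 0, nat_lit 0, nat_lit 0, nat_lit 0, nat_lit 0, nat_lit 0, nat_lit 0, nat_lit 0, false, false⟩,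
 nat_lit 0, nat_lit 0, nat_lit 8247, nat_lit 0, nat_lit 4333, nat_lit 5709, nat_lit 432, nat_lit 0, nat_lit 0, nat_lit 1110, nat_lit 0, nat_lit 0, nat_lit 0, nat_lit 0, nat_lit 0, nat_lit 0, nat_lit 0, nat_lit 0, [],
 ⟨p123_k14, nat_lit 0, nat_lit 0, nat_lit 97, nat_lit 0, nat_lit 0, [nat_lit 938000000, nat_lit 3282000000, nat_lit 6250000000], [], [nat_lit 27195624880, nat_lit 27479981303, nat_lit 30906282224, nat_lit 31169544353, nat_lit 28697515156, nat_lit 28945541350, nat_lit 32099623682, nat_lit 32328821964], nat_lit 0, nat_lit 0, nat_lit 0, nat_lit 0, nat_lit 0, nat_lit 0, [], [nat_lit 20, nat_lit 40, nat_lit 40, nat_lit 80, nat_lit 16, nat_lit 289, nat_lit 75, nat_lit 9]⟩, ⟨p123_k15, nat_lit 0, nat_lit 0, nat_lit 509, nat_lit 0, nat_lit 996357, [nat_lit 3282000000, nat_lit 6250000000, nat_lit 9842000000], [], [nat_lit 29970640596, nat_lit 30430552842, nat_lit 32093144525, nat_lit 32462219866, nat_lit 31680013708,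 nat_lit 31998844442, nat_lit 33312548965, nat_lit 34027566748], nat_lit 1271250, nat_lit 1271250, nat_lit 1271250, nat_lit 1271250, nat_lit 1100001, nat_lit 2470000, [nat_lit 780000, nat_lit 1435000, nat_lit 1271250], [nat_lit 8, nat_lit 40, nat_lit 40, nat_lit 80, nat_lit 1, nat_lit 317, nat_lit 100, nat_lit 8]⟩,
 zbF0, [⟨nat_lit 4, nat_lit 100, nat_lit 59, nat_lit 87, nat_lit 544790918⟩, ⟨nat_lit 19, nat_lit 93, nat_lit 100, nat_lit 97, nat_lit 303186893⟩]⟩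
noncomputable def p123_l25 : Lf2 := ⟨nat_lit 0, nat_lit 20, [nat_lit 5, nat_lit 5, nat_lit 5, nat_lit 20], false, nat_lit 160, nat_lit 240, nat_lit 160, nat_lit 320, ⟨nat_lit 1000, nat_lit 0, nat_lit 0, nat_lit 0, nat_lit 0, nat_lit 0, nat_lit 0, nat_lit 0, nat_lit 0, nat_lit 0, nat_lit 0, nat_lit 0, nat_lit 0, nat_lit 0, nat_lit 0, nat_lit 0, false, false⟩,
 nat_lit 0, nat_lit 0, nat_lit 8054, nat_lit 0, nat_lit 3884, nat_lit 5575, nat_lit 466, nat_lit 0, nat_lit 0, nat_lit 1282, nat_lit 0, nat_lit 0, nat_lit 0, nat_lit 0, nat_lit 0, nat_lit 0, nat_lit 0, nat_lit 0, [],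
 ⟨p123_k18, nat_lit 0, nat_lit 0, nat_lit 100, nat_lit 0, nat_lit 0, [nat_lit 938000000, nat_lit 3282000000, nat_lit 6250000000], [], [nat_lit 27045956194, nat_lit 27316289898, nat_lit 30554222286, nat_lit 30805264969, nat_lit 28341796868, nat_lit 28580360318, nat_lit 31594054282, nat_lit 31816357704], nat_lit 0, nat_lit 0, nat_lit 0, nat_lit 0, nat_lit 0, nat_lit 0, [], [nat_lit 20, nat_lit 40, nat_lit 40, nat_lit 80, nat_lit 16, nat_lit 272, nat_lit 60, nat_lit 8]⟩, ⟨p123_k15, nat_lit 0, nat_lit 0, nat_lit 544, nat_lit 0, nat_lit 1058008, [nat_lit 3282000000, nat_lit 6250000000, nat_lit 9842000000], [], [nat_lit 30255000350, nat_lit 30656988500, nat_lit 32127342841, nat_lit 32447000020, nat_lit 31666887750, nat_lit 31941974100, nat_lit 33323297210, nat_lit 33873711701], nat_lit 1271250, nat_lit 1271250, nat_lit 1271250, nat_lit 1271250, nat_lit 1100001, nat_lit 2470000, [nat_lit 780000, nat_lit 1435000, nat_lit 1271250],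 [nat_lit 8, nat_lit 40, nat_lit 40, nat_lit 80, nat_lit 1, nat_lit 317, nat_lit 100, nat_lit 8]⟩,
 zbF0, [⟨nat_lit 4, nat_lit 100, nat_lit 55, nat_lit 87, nat_lit 592895554⟩, ⟨nat_lit 7, nat_lit 100, nat_lit 93, nat_lit 97, nat_lit 292842272⟩]⟩
noncomputable def p123_l26 : Lf2 := ⟨nat_lit 0, nat_lit 20, [nat_lit 5, nat_lit 5, nat_lit 5, nat_lit 20], false, nat_lit 160, nat_lit 232, nat_lit 160, nat_lit 320, ⟨nat_lit 1000, nat_lit 0, nat_lit 0, nat_lit 0, nat_lit 0, nat_lit 0, nat_lit 0, nat_lit 0, nat_lit 0, nat_lit 0, nat_lit 0, nat_lit 0, nat_lit 0, nat_lit 0, nat_lit 0, nat_lit 0, false, false⟩,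
 nat_lit 0, nat_lit 0, nat_lit 8041, nat_lit 0, nat_lit 3376, nat_lit 5566, nat_lit 507, nat_lit 0, nat_lit 0, nat_lit 1396, nat_lit 0, nat_lit 0, nat_lit 0, nat_lit 0, nat_lit 0, nat_lit 0, nat_lit 0, nat_lit 0, [],
 ⟨p123_k19, nat_lit 0, nat_lit 0, nat_lit 98, nat_lit 0, nat_lit 0, [nat_lit 938000000, nat_lit 3282000000, nat_lit 6250000000], [], [nat_lit 26741308572, nat_lit 26995776928, nat_lit 29639637574, nat_lit 29881943827, nat_lit 27935319564, nat_lit 28163877770, nat_lit 30670590887, nat_lit 30892463550], nat_lit 0, nat_lit 0, nat_lit 0, nat_lit 0, nat_lit 0, nat_lit 0, [], [nat_lit 20, nat_lit 40, nat_lit 40, nat_lit 80, nat_lit 16, nat_lit 272, nat_lit 60, nat_lit 8]⟩, ⟨p123_k15, nat_lit 0, nat_lit 0, nat_lit 537, nat_lit 0, nat_lit 1050446, [nat_lit 3282000000, nat_lit 6250000000, nat_lit 9842000000], [], [nat_lit 29434370828, nat_lit 29635346714, nat_lit 31084457711, nat_lit 31248927713, nat_lit 30848352060,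 nat_lit 30985953474, nat_lit 32664460777, nat_lit 33031349445], nat_lit 1271250, nat_lit 1271250, nat_lit 1271250, nat_lit 1271250, nat_lit 1100001, nat_lit 2470000, [nat_lit 780000, nat_lit 1435000, nat_lit 1271250], [nat_lit 8, nat_lit 40, nat_lit 40, nat_lit 80, nat_lit 1, nat_lit 317, nat_lit 100, nat_lit 8]⟩,
 zbF0, [⟨nat_lit 4, nat_lit 100, nat_lit 51, nat_lit 87, nat_lit 640180246⟩, ⟨nat_lit 19, nat_lit 97, nat_lit 100, nat_lit 98, nat_lit 280558693⟩]⟩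
noncomputable def p123_l27 : Lf2 := ⟨nat_lit 0, nat_lit 20, [nat_lit 5, nat_lit 5, nat_lit 5, nat_lit 20], false, nat_lit 160, nat_lit 220, nat_lit 160, nat_lit 320, ⟨nat_lit 844, nat_lit 156, nat_lit 0, nat_lit 8, nat_lit 334, nat_lit 156, nat_lit 149, nat_lit 0, nat_lit 0, nat_lit 0, nat_lit 0, nat_lit 0, nat_lit 35160482, nat_lit 25029865, nat_lit 6809653, nat_lit 5019112, true, true⟩,
 nat_lit 0, nat_lit 0, nat_lit 6858, nat_lit 0, nat_lit 2953, nat_lit 4747, nat_lit 482, nat_lit 0, nat_lit 0, nat_lit 1105, nat_lit 0, nat_lit 0, nat_lit 0, nat_lit 0, nat_lit 0, nat_lit 39000, nat_lit 0, nat_lit 0, [(nat_lit 25, [(nat_lit 0, nat_lit 156)])],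
 ⟨p123_k20, nat_lit 0, nat_lit 0, nat_lit 99, nat_lit 0, nat_lit 0, [nat_lit 910856000, nat_lit 2983540800, nat_lit 5605408000], [], [nat_lit 26334513731, nat_lit 26571153540, nat_lit 29067926108, nat_lit 29320585186, nat_lit 27351599439, nat_lit 27569054760, nat_lit 29987142860, nat_lit 30219077917], nat_lit 0, nat_lit 0, nat_lit 0, nat_lit 0, nat_lit 0, nat_lit 0, [], [nat_lit 20, nat_lit 40, nat_lit 40, nat_lit 80, nat_lit 16, nat_lit 272, nat_lit 60, nat_lit 8]⟩, ⟨p123_k15, nat_lit 0, nat_lit 0, nat_lit 576, nat_lit 0, nat_lit 1116530, [nat_lit 2770008000, nat_lit 5275000000, nat_lit 8306648000], [], [nat_lit 25490549401, nat_lit 25637756476, nat_lit 26642538804, nat_lit 26763631109, nat_lit 26423990251, nat_lit 26523477249, nat_lit 27592055180, nat_lit 27729670605], nat_lit 1271250, nat_lit 1271250, nat_lit 1271250, nat_lit 1271250, nat_lit 1100001, nat_lit 2470000, [nat_lit 780000, nat_lit 1435000, nat_lit 1271250],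 [nat_lit 8, nat_lit 40, nat_lit 40, nat_lit 80, nat_lit 1, nat_lit 317, nat_lit 100, nat_lit 8]⟩,
 ⟨nat_lit 2236, nat_lit 2500, ⟨.ofNat (nat_lit 787095), .ofNat (nat_lit 874192), .ofNat (nat_lit 798385), .ofNat (nat_lit 885482), .ofNat (nat_lit 784917), .ofNat (nat_lit 870440), .ofNat (nat_lit 796303), .ofNat (nat_lit 881827)⟩, ⟨.ofNat (nat_lit 306450), .ofNat (nat_lit 393547), .ofNat (nat_lit 351611), .ofNat (nat_lit 438708), .ofNat (nat_lit 306337), .ofNat (nat_lit 391861), .ofNat (nat_lit 351886), .ofNat (nat_lit 437409)⟩⟩, [⟨nat_lit 4, nat_lit 100, nat_lit 46, nat_lit 87, nat_lit 627885819⟩, ⟨nat_lit 19, nat_lit 97, nat_lit 100, nat_lit 98, nat_lit 228469890⟩]⟩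
noncomputable def p123_l28 : Lf2 := ⟨nat_lit 0, nat_lit 20, [nat_lit 5, nat_lit 5, nat_lit 5, nat_lit 20], false, nat_lit 160, nat_lit 232, nat_lit 160, nat_lit 312, ⟨nat_lit 1000, nat_lit 0, nat_lit 0, nat_lit 0, nat_lit 0, nat_lit 0, nat_lit 0, nat_lit 0, nat_lit 0, nat_lit 0, nat_lit 0, nat_lit 0, nat_lit 0, nat_lit 0, nat_lit 0, nat_lit 0, false, false⟩,
 nat_lit 0, nat_lit 0, nat_lit 8036, nat_lit 0, nat_lit 3347, nat_lit 5793, nat_lit 505, nat_lit 0, nat_lit 0, nat_lit 762, nat_lit 0, nat_lit 0, nat_lit 0, nat_lit 0, nat_lit 0, nat_lit 0, nat_lit 0, nat_lit 0, [],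
 ⟨p123_k19, nat_lit 0, nat_lit 0, nat_lit 102, nat_lit 0, nat_lit 0, [nat_lit 938000000, nat_lit 3282000000, nat_lit 6250000000], [], [nat_lit 26769924734, nat_lit 27277050048, nat_lit 29837023519, nat_lit 30315037370, nat_lit 27967152421, nat_lit 28425355332, nat_lit 30852221108, nat_lit 31282814732], nat_lit 0, nat_lit 0, nat_lit 0, nat_lit 0, nat_lit 0, nat_lit 0, [], [nat_lit 20, nat_lit 40, nat_lit 40, nat_lit 80, nat_lit 16, nat_lit 272, nat_lit 60, nat_lit 8]⟩, ⟨p123_k21, nat_lit 0, nat_lit 0, nat_lit 576, nat_lit 0, nat_lit 1118502, [nat_lit 3282000000, nat_lit 6250000000, nat_lit 9842000000], [], [nat_lit 29772813294, nat_lit 29998049316, nat_lit 31733589386, nat_lit 31923526948, nat_lit 31340077627, nat_lit 31505659489, nat_lit 33251856278, nat_lit 33626227497], nat_lit 1271250, nat_lit 1271250, nat_lit 1271250, nat_lit 1271250, nat_lit 1100001, nat_lit 2401500, [nat_lit 780000, nat_lit 1435000, nat_lit 1271250],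 [nat_lit 8, nat_lit 40, nat_lit 40, nat_lit 80, nat_lit 1, nat_lit 317, nat_lit 100, nat_lit 8]⟩,
 zbF0, [⟨nat_lit 4, nat_lit 100, nat_lit 48, nat_lit 87, nat_lit 676743803⟩, ⟨nat_lit 7, nat_lit 100, nat_lit 90, nat_lit 95, nat_lit 318290002⟩]⟩
noncomputable def p123_l29 : Lf2 := ⟨nat_lit 0, nat_lit 20, [nat_lit 5, nat_lit 5, nat_lit 5, nat_lit 20], false, nat_lit 160, nat_lit 208, nat_lit 16, nat_lit 320, ⟨nat_lit 438, nat_lit 562, nat_lit 0, nat_lit 8, nat_lit 329, nat_lit 562, nat_lit 145, nat_lit 0, nat_lit 0, nat_lit 0, nat_lit 0, nat_lit 0, nat_lit 35714819, nat_lit 24673553, nat_lit 6611628, nat_lit 4979493, true, true⟩,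
 nat_lit 0, nat_lit 0, nat_lit 3885, nat_lit 0, nat_lit 2461, nat_lit 2689, nat_lit 234, nat_lit 0, nat_lit 0, nat_lit 428, nat_lit 0, nat_lit 0, nat_lit 0, nat_lit 0, nat_lit 0, nat_lit 224800, nat_lit 0, nat_lit 0, [(nat_lit 28, [(nat_lit 1, nat_lit 562)])],
 ⟨p123_k0, nat_lit 0, nat_lit 0, nat_lit 100, nat_lit 0, nat_lit 0, [nat_lit 802895200, nat_lit 1620053601, nat_lit 2815056000], [], [nat_lit 26379477680, nat_lit 26822783183, nat_lit 28317500492, nat_lit 28715766056, nat_lit 27215489792, nat_lit 27631468936, nat_lit 29077005012, nat_lit 29507722736], nat_lit 0, nat_lit 0, nat_lit 0, nat_lit 0, nat_lit 0, nat_lit 0, [], [nat_lit 20, nat_lit 40, nat_lit 40, nat_lit 80, nat_lit 16, nat_lit 272, nat_lit 60, nat_lit 8]⟩, ⟨p123_k15, nat_lit 0, nat_lit 0, nat_lit 714, nat_lit 0, nat_lit 1221555, [nat_lit 1437516000, nat_lit 2737500000, nat_lit 4310796000], [], [nat_lit 14730285088, nat_lit 14770511157, nat_lit 15273898352,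 nat_lit 15307609912, nat_lit 13998476046, nat_lit 14019394959, nat_lit 14318929042, nat_lit 14335454988], nat_lit 1271250, nat_lit 1271250, nat_lit 1271250, nat_lit 1271250, nat_lit 88400, nat_lit 2281000, [nat_lit 780000, nat_lit 1435000, nat_lit 1271250], [nat_lit 8, nat_lit 40, nat_lit 40, nat_lit 80, nat_lit 1, nat_lit 317, nat_lit 100, nat_lit 8]⟩,
 ⟨nat_lit 1581, nat_lit 2237, ⟨.ofNat (nat_lit 784917), .ofNat (nat_lit 859037), .ofNat (nat_lit 790610), .ofNat (nat_lit 864730), .ofNat (nat_lit 780481), .ofNat (nat_lit 851507), .ofNat (nat_lit 786310), .ofNat (nat_lit 857336)⟩, ⟨.ofNat (nat_lit 306337), .ofNat (nat_lit 374756), .ofNat (nat_lit 351886), .ofNat (nat_lit 420305), .ofNat (nat_lit 305473), .ofNat (nat_lit 371036), .ofNat (nat_lit 352103), .ofNat (nat_lit 417666)⟩⟩, [⟨nat_lit 13, nat_lit 36, nat_lit 77, nat_lit 100, nat_lit 130121601⟩, ⟨nat_lit 16, nat_lit 38, nat_lit 100, nat_lit 87, nat_lit 561703279⟩,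 ⟨nat_lit 19, nat_lit 94, nat_lit 88, nat_lit 100, nat_lit 71174855⟩]⟩
noncomputable def p123_l30 : Lf2 := ⟨nat_lit 0, nat_lit 20, [nat_lit 5, nat_lit 5, nat_lit 5, nat_lit 20], false, nat_lit 160, nat_lit 184, nat_lit 16, nat_lit 320, ⟨nat_lit 251, nat_lit 749, nat_lit 0, nat_lit 8, nat_lit 322, nat_lit 749, nat_lit 137, nat_lit 0, nat_lit 0, nat_lit 0, nat_lit 0, nat_lit 0, nat_lit 36592228, nat_lit 24238146, nat_lit 6169626, nat_lit 4897244, true, true⟩,
 nat_lit 0, nat_lit 0, nat_lit 2412, nat_lit 0, nat_lit 2526, nat_lit 1669, nat_lit 147, nat_lit 0, nat_lit 0, nat_lit 168, nat_lit 0, nat_lit 0, nat_lit 0, nat_lit 0, nat_lit 0, nat_lit 187250, nat_lit 0, nat_lit 0, [(nat_lit 28, [(nat_lit 0, nat_lit 749)])],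
 ⟨p123_k10, nat_lit 0, nat_lit 0, nat_lit 86, nat_lit 0, nat_lit 0, [nat_lit 820856400, nat_lit 1607236001, nat_lit 2207611600], [], [nat_lit 26734086023, nat_lit 27205504377, nat_lit 28100870377, nat_lit 28581860759, nat_lit 27158563088, nat_lit 27615103286, nat_lit 28483175706, nat_lit 28968905550], nat_lit 0, nat_lit 0, nat_lit 0, nat_lit 0, nat_lit 0, nat_lit 0, [], [nat_lit 35, nat_lit 40, nat_lit 40, nat_lit 80, nat_lit 22, nat_lit 203, nat_lit 0, nat_lit 6]⟩, ⟨p123_k15, nat_lit 0, nat_lit 0, nat_lit 767, nat_lit 0, nat_lit 1364925, [nat_lit 823782000, nat_lit 1568750000, nat_lit 2470342000], [], [nat_lit 8570707802, nat_lit 8590553929, nat_lit 8756110803, nat_lit 8773519589, nat_lit 7991218110, nat_lit 8000484127, nat_lit 8092815528, nat_lit 8100423702], nat_lit 1271250, nat_lit 1271250, nat_lit 1271250, nat_lit 1271250, nat_lit 88400, nat_lit 2281000, [nat_lit 780000, nat_lit 1435000, nat_lit 1271250], [nat_lit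 8, nat_lit 40, nat_lit 40, nat_lit 80, nat_lit 1, nat_lit 317, nat_lit 100, nat_lit 8]⟩,
 ⟨nat_lit 0, nat_lit 1582, ⟨.ofNat (nat_lit 780481), .ofNat (nat_lit 829651), .ofNat (nat_lit 786310), .ofNat (nat_lit 835480), .ofNat (nat_lit 774999), .ofNat (nat_lit 819997), .ofNat (nat_lit 781249), .ofNat (nat_lit 826247)⟩, ⟨.ofNat (nat_lit 305469), .ofNat (nat_lit 338250), .ofNat (nat_lit 352101), .ofNat (nat_lit 384882), .ofNat (nat_lit 299995), .ofNat (nat_lit 329995), .ofNat (nat_lit 349997), .ofNat (nat_lit 379997)⟩⟩, [⟨nat_lit 13, nat_lit 37, nat_lit 76, nat_lit 100, nat_lit 284147545⟩, ⟨nat_lit 16, nat_lit 31, nat_lit 100, nat_lit 92, nat_lit 520578271⟩, ⟨nat_lit 19, nat_lit 94, nat_lit 88, nat_lit 100, nat_lit 38715079⟩]⟩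
noncomputable def p123_l31 : Lf2 := ⟨nat_lit 0, nat_lit 20, [nat_lit 5, nat_lit 5, nat_lit 5, nat_lit 20], false, nat_lit 160, nat_lit 208, nat_lit 16, nat_lit 316, ⟨nat_lit 426, nat_lit 574, nat_lit 0, nat_lit 8, nat_lit 329, nat_lit 574, nat_lit 144, nat_lit 0, nat_lit 0, nat_lit 0, nat_lit 0, nat_lit 0, nat_lit 35712347, nat_lit 24768637, nat_lit 6519016, nat_lit 4968170, true, true⟩,
 nat_lit 0, nat_lit 0, nat_lit 3691, nat_lit 0, nat_lit 2458, nat_lit 2607, nat_lit 234, nat_lit 0, nat_lit 0, nat_lit 351, nat_lit 0, nat_lit 0, nat_lit 0, nat_lit 0, nat_lit 0, nat_lit 229600, nat_lit 0, nat_lit 0, [(nat_lit 28, [(nat_lit 1, nat_lit 574)])],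
 ⟨p123_k0, nat_lit 0, nat_lit 0, nat_lit 103, nat_lit 0, nat_lit 0, [nat_lit 800010400, nat_lit 1584567200, nat_lit 2741712000], [], [nat_lit 26305446590, nat_lit 27191692058, nat_lit 28246534279, nat_lit 29191393449, nat_lit 27141688526, nat_lit 27973322359, nat_lit 29069027305, nat_lit 29930121839], nat_lit 0, nat_lit 0, nat_lit 0, nat_lit 0, nat_lit 0, nat_lit 0, [], [nat_lit 20, nat_lit 40, nat_lit 40, nat_lit 80, nat_lit 16, nat_lit 272, nat_lit 60, nat_lit 8]⟩, ⟨p123_k22, nat_lit 0, nat_lit 0, nat_lit 762, nat_lit 0, nat_lit 1353938, [nat_lit 1398132000, nat_lit 2662500000, nat_lit 4192692000], [], [nat_lit 14182663901, nat_lit 14222292485, nat_lit 14707276544, nat_lit 14740909622, nat_lit 13624496234, nat_lit 13646043341, nat_lit 13940298466, nat_lit 13957648216], nat_lit 1271250, nat_lit 1271250, nat_lit 1271250, nat_lit 1271250, nat_lit 88400, nat_lit 2252150, [nat_lit 780000, nat_lit 1435000, nat_lit 1271250],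 [nat_lit 8, nat_lit 40, nat_lit 40, nat_lit 80, nat_lit 1, nat_lit 317, nat_lit 100, nat_lit 8]⟩,
 ⟨nat_lit 0, nat_lit 2237, ⟨.ofNat (nat_lit 790610), .ofNat (nat_lit 864728), .ofNat (nat_lit 796304), .ofNat (nat_lit 870422), .ofNat (nat_lit 781249), .ofNat (nat_lit 846247), .ofNat (nat_lit 787499), .ofNat (nat_lit 852497)⟩, ⟨.ofNat (nat_lit 306334), .ofNat (nat_lit 374750), .ofNat (nat_lit 351885), .ofNat (nat_lit 420300), .ofNat (nat_lit 299996), .ofNat (nat_lit 359993), .ofNat (nat_lit 349998), .ofNat (nat_lit 409994)⟩⟩, [⟨nat_lit 13, nat_lit 37, nat_lit 75, nat_lit 100, nat_lit 131542734⟩, ⟨nat_lit 16, nat_lit 32, nat_lit 100, nat_lit 88, nat_lit 651133002⟩, ⟨nat_lit 19, nat_lit 93, nat_lit 90, nat_lit 100, nat_lit 72230387⟩]⟩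
noncomputable def p123_l32 : Lf2 := ⟨nat_lit 0, nat_lit 20, [nat_lit 5, nat_lit 5, nat_lit 5, nat_lit 20], false, nat_lit 160, nat_lit 208, nat_lit 16, nat_lit 312, ⟨nat_lit 496, nat_lit 504, nat_lit 0, nat_lit 8, nat_lit 335, nat_lit 504, nat_lit 144, nat_lit 0, nat_lit 0, nat_lit 0, nat_lit 0, nat_lit 0, nat_lit 35274128, nat_lit 25265999, nat_lit 6459873, nat_lit 4972890, true, true⟩,
 nat_lit 0, nat_lit 0, nat_lit 4022, nat_lit 0, nat_lit 2545, nat_lit 2899, nat_lit 248, nat_lit 0, nat_lit 0, nat_lit 441, nat_lit 0, nat_lit 0, nat_lit 0, nat_lit 0, nat_lit 0, nat_lit 201600, nat_lit 0, nat_lit 0, [(nat_lit 28, [(nat_lit 1, nat_lit 504)])],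
 ⟨p123_k0, nat_lit 0, nat_lit 0, nat_lit 105, nat_lit 0, nat_lit 0, [nat_lit 816838401, nat_lit 1791571200, nat_lit 3169552000], [], [nat_lit 26529274751, nat_lit 27426120821, nat_lit 28801557636, nat_lit 29689915794, nat_lit 27358851791, nat_lit 28199894814, nat_lit 29591481863, nat_lit 30430762902], nat_lit 0, nat_lit 0, nat_lit 0, nat_lit 0, nat_lit 0, nat_lit 0, [], [nat_lit 20, nat_lit 40, nat_lit 40, nat_lit 80, nat_lit 16, nat_lit 272, nat_lit 60, nat_lit 8]⟩, ⟨p123_k21, nat_lit 0, nat_lit 0, nat_lit 769, nat_lit 0, nat_lit 1373518, [nat_lit 1627872000, nat_lit 3100000000, nat_lit 4881632000], [], [nat_lit 16551538974, nat_lit 16644558471, nat_lit 17252358504, nat_lit 17329370895, nat_lit 15989934143, nat_lit 16042078355, nat_lit 16447685217, nat_lit 16497237407], nat_lit 1271250, nat_lit 1271250, nat_lit 1271250, nat_lit 1271250, nat_lit 88400, nat_lit 2223300, [nat_lit 780000, nat_lit 1435000, nat_lit 1271250],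 [nat_lit 8, nat_lit 40, nat_lit 40, nat_lit 80, nat_lit 1, nat_lit 319, nat_lit 100, nat_lit 8]⟩,
 ⟨nat_lit 0, nat_lit 2237, ⟨.ofNat (nat_lit 796304), .ofNat (nat_lit 881824), .ofNat (nat_lit 807594), .ofNat (nat_lit 893212), .ofNat (nat_lit 787499), .ofNat (nat_lit 862496), .ofNat (nat_lit 799902), .ofNat (nat_lit 874997)⟩, ⟨.ofNat (nat_lit 306334), .ofNat (nat_lit 374750), .ofNat (nat_lit 351885), .ofNat (nat_lit 420300), .ofNat (nat_lit 299996), .ofNat (nat_lit 359993), .ofNat (nat_lit 349998), .ofNat (nat_lit 409994)⟩⟩, [⟨nat_lit 13, nat_lit 38, nat_lit 73, nat_lit 100, nat_lit 80618117⟩, ⟨nat_lit 4, nat_lit 100, nat_lit 32, nat_lit 88, nat_lit 701294559⟩, ⟨nat_lit 19, nat_lit 91, nat_lit 91, nat_lit 100, nat_lit 86635077⟩]⟩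
noncomputable def b_V_900_700_20_22 : St := ⟨true, nat_lit 0, nat_lit 1, nat_lit 1, nat_lit 120, nat_lit 360, nat_lit 400, nat_lit 300, nat_lit 320, nat_lit 240, nat_lit 392, nat_lit 80, nat_lit 120, nat_lit 160, nat_lit 248, nat_lit 0, nat_lit 336, nat_lit 40, nat_lit 80, nat_lit 0, nat_lit 0, nat_lit 0, nat_lit 0⟩
theorem d_V_900_700_20_22 (h : EB TB.env) : Dead b_V_900_700_20_22 := chkB_sound0 h (T :=
(.trX (nat_lit 19) (nat_lit 94) (nat_lit 88) (nat_lit 100) (nat_lit 320) (.spl (nat_lit 2) (nat_lit 320)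
(.spl (nat_lit 1) (nat_lit 310)
(.spl (nat_lit 0) (nat_lit 380)
(.leaf p123_l20)
(.trX (nat_lit 16) (nat_lit 44) (nat_lit 100) (nat_lit 92) (nat_lit 208) (.leaf p123_l21)))
(.trX (nat_lit 19) (nat_lit 91) (nat_lit 91) (nat_lit 100) (nat_lit 312) (.leaf p123_l22)))
(.trZ (nat_lit 9) (nat_lit 100) (nat_lit 82) (nat_lit 44) (nat_lit 16) (.spl (nat_lit 0) (nat_lit 380)
(.spl (nat_lit 5) (nat_lit 160)
(.leaf p123_l23)
(.spl (nat_lit 0) (nat_lit 370)
(.spl (nat_lit 0) (nat_lit 365)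
(.leaf p123_l24)
(.trX (nat_lit 16) (nat_lit 58) (nat_lit 100) (nat_lit 93) (nat_lit 240) (.leaf p123_l25)))
(.trX (nat_lit 13) (nat_lit 66) (nat_lit 45) (nat_lit 100) (nat_lit 388) (.trX (nat_lit 16) (nat_lit 53) (nat_lit 100) (nat_lit 93) (nat_lit 232) (.spl (nat_lit 1) (nat_lit 310)
(.trX (nat_lit 13) (nat_lit 63) (nat_lit 50) (nat_lit 100) (nat_lit 384) (.spl (nat_lit 0) (nat_lit 375)
(.leaf p123_l26)
(.trX (nat_lit 13) (nat_lit 58) (nat_lit 56) (nat_lit 100) (nat_lit 380) (.trX (nat_lit 16) (nat_lit 49) (nat_lit 100) (nat_lit 92) (nat_lit 220) (.leaf p123_l27)))))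
(.trX (nat_lit 19) (nat_lit 91) (nat_lit 91) (nat_lit 100) (nat_lit 312) (.leaf p123_l28)))))))
(.trX (nat_lit 13) (nat_lit 54) (nat_lit 57) (nat_lit 100) (nat_lit 380) (.trX (nat_lit 16) (nat_lit 44) (nat_lit 100) (nat_lit 92) (nat_lit 208) (.spl (nat_lit 1) (nat_lit 310)
(.trX (nat_lit 13) (nat_lit 52) (nat_lit 61) (nat_lit 100) (nat_lit 372) (.spl (nat_lit 1) (nat_lit 305)
(.spl (nat_lit 0) (nat_lit 390)
(.leaf p123_l29)
(.trX (nat_lit 13) (nat_lit 37) (nat_lit 76) (nat_lit 100) (nat_lit 356) (.trX (nat_lit 16) (nat_lit 31) (nat_lit 100) (nat_lit 92) (nat_lit 184) (.leaf p123_l30))))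
(.trX (nat_lit 19) (nat_lit 93) (nat_lit 90) (nat_lit 100) (nat_lit 316) (.leaf p123_l31))))
(.trX (nat_lit 19) (nat_lit 91) (nat_lit 91) (nat_lit 100) (nat_lit 312) (.leaf p123_l32)))))))))) (by decide +kernel)
noncomputable def p123_l33 : Lf2 := ⟨nat_lit 0, nat_lit 20, [nat_lit 5, nat_lit 5, nat_lit 5, nat_lit 20], false, nat_lit 8, nat_lit 248, nat_lit 0, nat_lit 336, ⟨nat_lit 623, nat_lit 377, nat_lit 0, nat_lit 7, nat_lit 285, nat_lit 377, nat_lit 94, nat_lit 0, nat_lit 0, nat_lit 0, nat_lit 0, nat_lit 0, nat_lit 0, nat_lit 0, nat_lit 0, nat_lit 5000000, false, false⟩,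
 nat_lit 0, nat_lit 0, nat_lit 0, nat_lit 0, nat_lit 5506, nat_lit 8074, nat_lit 0, nat_lit 0, nat_lit 0, nat_lit 0, nat_lit 0, nat_lit 0, nat_lit 0, nat_lit 0, nat_lit 0, nat_lit 122900, nat_lit 0, nat_lit 0, [(nat_lit 25, [(nat_lit 0, nat_lit 186), (nat_lit 1, nat_lit 191)]), (nat_lit 28, [(nat_lit 0, nat_lit 186), (nat_lit 1, nat_lit 191)])],
 ⟨p123_k23, nat_lit 0, nat_lit 0, nat_lit 194, nat_lit 0, nat_lit 0, [nat_lit 919101360, nat_lit 4462501200], [], [nat_lit 27816006523, nat_lit 31164093525, nat_lit 38129763477, nat_lit 41071546922, nat_lit 27254183965, nat_lit 29686214909, nat_lit 33514890770, nat_lit 35732403055], nat_lit 0, nat_lit 0, nat_lit 0, nat_lit 0, nat_lit 0, nat_lit 0, [], [nat_lit 88, nat_lit 40, nat_lit 40, nat_lit 80, nat_lit 89, nat_lit 401, nat_lit 175, nat_lit 15]⟩, ⟨p123_k24, nat_lit 0, nat_lit 0, nat_lit 223, nat_lit 0, nat_lit 0, [nat_lit 2044686000, nat_lit 7396256000], [], [nat_lit 27262718633,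 nat_lit 28741449677, nat_lit 32643713367, nat_lit 35001248812, nat_lit 21784624925, nat_lit 22385584096, nat_lit 25955742820, nat_lit 27068074884], nat_lit 0, nat_lit 0, nat_lit 0, nat_lit 0, nat_lit 0, nat_lit 0, [], [nat_lit 135, nat_lit 40, nat_lit 40, nat_lit 80, nat_lit 134, nat_lit 538, nat_lit 300, nat_lit 14]⟩,
 ⟨nat_lit 0, nat_lit 3163, ⟨.ofNat (nat_lit 507176), .ofNat (nat_lit 881191), .ofNat (nat_lit 548877), .ofNat (nat_lit 925502), .ofNat (nat_lit 531701), .ofNat (nat_lit 839996), .ofNat (nat_lit 579091), .ofNat (nat_lit 889997)⟩, ⟨.ofNat (nat_lit 20000), .ofNat (nat_lit 440207), .ofNat (nat_lit 20000), .ofNat (nat_lit 484518), .ofNat (nat_lit 20000), .ofNat (nat_lit 409993), .ofNat (nat_lit 20000), .ofNat (nat_lit 459993)⟩⟩, [⟨nat_lit 4, nat_lit 100, nat_lit 44, nat_lit 87, nat_lit 42508630⟩]⟩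
noncomputable def p123_l34 : Lf2 := ⟨nat_lit 0, nat_lit 20, [nat_lit 5, nat_lit 5, nat_lit 5, nat_lit 20], true, nat_lit 8, nat_lit 248, nat_lit 0, nat_lit 336, ⟨nat_lit 0, nat_lit 1000, nat_lit 0, nat_lit 7, nat_lit 242, nat_lit 1000, nat_lit 94, nat_lit 0, nat_lit 0, nat_lit 0, nat_lit 0, nat_lit 0, nat_lit 0, nat_lit 0, nat_lit 0, nat_lit 5000000, false, false⟩,
 nat_lit 0, nat_lit 0, nat_lit 0, nat_lit 0, nat_lit 4565, nat_lit 0, nat_lit 0, nat_lit 0, nat_lit 0, nat_lit 0, nat_lit 0, nat_lit 0, nat_lit 0, nat_lit 0, nat_lit 0, nat_lit 250000, nat_lit 0, nat_lit 0, [(nat_lit 25, [(nat_lit 0, nat_lit 1000)]), (nat_lit 28, [(nat_lit 0, nat_lit 1000)])],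
 ⟨p123_k14, nat_lit 0, nat_lit 0, nat_lit 151, nat_lit 0, nat_lit 0, [nat_lit 781600001, nat_lit 1368800000, nat_lit 2118000000], [], [nat_lit 23051963962, nat_lit 27845344383, nat_lit 25814667598, nat_lit 29871125077, nat_lit 23454063421, nat_lit 26536808707, nat_lit 25174324707, nat_lit 28136105799], nat_lit 0, nat_lit 0, nat_lit 0, nat_lit 0, nat_lit 0, nat_lit 0, [], [nat_lit 20, nat_lit 40, nat_lit 40, nat_lit 80, nat_lit 16, nat_lit 345, nat_lit 125, nat_lit 13]⟩, C1.Rw.none,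
 ⟨nat_lit 0, nat_lit 3163, ⟨.ofNat (nat_lit 507176), .ofNat (nat_lit 646918), .ofNat (nat_lit 548877), .ofNat (nat_lit 688618), .ofNat (nat_lit 531701), .ofNat (nat_lit 647345), .ofNat (nat_lit 579091), .ofNat (nat_lit 694736)⟩, ⟨.ofNat (nat_lit 20000), .ofNat (nat_lit 440207), .ofNat (nat_lit 20000), .ofNat (nat_lit 484518), .ofNat (nat_lit 20000), .ofNat (nat_lit 409993), .ofNat (nat_lit 20000), .ofNat (nat_lit 459993)⟩⟩, [⟨nat_lit 4, nat_lit 100, nat_lit 44, nat_lit 87, nat_lit 55635840⟩]⟩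
noncomputable def p123_l35 : Lf2 := ⟨nat_lit 0, nat_lit 20, [nat_lit 5, nat_lit 5, nat_lit 5, nat_lit 20], true, nat_lit 8, nat_lit 160, nat_lit 0, nat_lit 336, ⟨nat_lit 0, nat_lit 1000, nat_lit 0, nat_lit 7, nat_lit 311, nat_lit 1000, nat_lit 69, nat_lit 0, nat_lit 0, nat_lit 0, nat_lit 0, nat_lit 0, nat_lit 0, nat_lit 0, nat_lit 0, nat_lit 5000000, true, true⟩,
 nat_lit 0, nat_lit 0, nat_lit 0, nat_lit 0, nat_lit 2736, nat_lit 0, nat_lit 16, nat_lit 0, nat_lit 0, nat_lit 0, nat_lit 0, nat_lit 0, nat_lit 0, nat_lit 0, nat_lit 0, nat_lit 400000, nat_lit 0, nat_lit 0, [(nat_lit 25, [(nat_lit 1, nat_lit 1000)]), (nat_lit 28, [(nat_lit 1, nat_lit 1000)])],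
 ⟨p123_k14, nat_lit 0, nat_lit 0, nat_lit 191, nat_lit 0, nat_lit 0, [nat_lit 844800000, nat_lit 1002133334, nat_lit 915200000], [], [nat_lit 24635034004, nat_lit 26643592688, nat_lit 30210519842, nat_lit 32343313043, nat_lit 24691904480, nat_lit 26441553088, nat_lit 29436151188, nat_lit 30840098570], nat_lit 0, nat_lit 0, nat_lit 0, nat_lit 0, nat_lit 0, nat_lit 0, [], [nat_lit 20, nat_lit 40, nat_lit 40, nat_lit 80, nat_lit 16, nat_lit 249, nat_lit 40, nat_lit 8]⟩, C1.Rw.none,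
 ⟨nat_lit 0, nat_lit 3163, ⟨.ofNat (nat_lit 646918), .ofNat (nat_lit 881191), .ofNat (nat_lit 688618), .ofNat (nat_lit 925502), .ofNat (nat_lit 647345), .ofNat (nat_lit 839996), .ofNat (nat_lit 694736), .ofNat (nat_lit 889997)⟩, ⟨.ofNat (nat_lit 20000), .ofNat (nat_lit 306113), .ofNat (nat_lit 20000), .ofNat (nat_lit 350425), .ofNat (nat_lit 20000), .ofNat (nat_lit 299996), .ofNat (nat_lit 20000), .ofNat (nat_lit 349998)⟩⟩, [⟨nat_lit 13, nat_lit 75, nat_lit 35, nat_lit 100, nat_lit 271667302⟩]⟩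
noncomputable def p123_l36 : Lf2 := ⟨nat_lit 0, nat_lit 20, [nat_lit 5, nat_lit 5, nat_lit 5, nat_lit 20], false, nat_lit 160, nat_lit 248, nat_lit 0, nat_lit 336, ⟨nat_lit 176, nat_lit 824, nat_lit 0, nat_lit 7, nat_lit 304, nat_lit 824, nat_lit 155, nat_lit 0, nat_lit 0, nat_lit 0, nat_lit 0, nat_lit 0, nat_lit 0, nat_lit 0, nat_lit 0, nat_lit 5000000, true, true⟩,
 nat_lit 0, nat_lit 0, nat_lit 2121, nat_lit 0, nat_lit 3541, nat_lit 1349, nat_lit 0, nat_lit 0, nat_lit 0, nat_lit 102, nat_lit 0, nat_lit 0, nat_lit 0, nat_lit 0, nat_lit 0, nat_lit 324950, nat_lit 0, nat_lit 0, [(nat_lit 25, [(nat_lit 0, nat_lit 31), (nat_lit 1, nat_lit 793)]), (nat_lit 28, [(nat_lit 0, nat_lit 31), (nat_lit 1, nat_lit 793)])],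
 ⟨p123_k14, nat_lit 0, nat_lit 0, nat_lit 106, nat_lit 0, nat_lit 0, [nat_lit 859244001, nat_lit 1414756534, nat_lit 1891411600], [], [nat_lit 23611092708, nat_lit 26054216916, nat_lit 29499222272, nat_lit 31463392536, nat_lit 25618709849, nat_lit 27738263334, nat_lit 30713590601, nat_lit 32588481470], nat_lit 0, nat_lit 0, nat_lit 0, nat_lit 0, nat_lit 0, nat_lit 0, [], [nat_lit 20, nat_lit 40, nat_lit 40, nat_lit 80, nat_lit 16, nat_lit 289, nat_lit 75, nat_lit 9]⟩, ⟨p123_k1, nat_lit 0, nat_lit 0, nat_lit 932, nat_lit 0, nat_lit 1511242, [nat_lit 577632000, nat_lit 1100000000, nat_lit 2089472000], [], [nat_lit 6969916070, nat_lit 7008785358, nat_lit 7235519295, nat_lit 7254614880, nat_lit 6187649675, nat_lit 6204375239, nat_lit 6329761381, nat_lit 6333183945], nat_lit 1271250, nat_lit 1271250, nat_lit 1271250, nat_lit 1271250, nat_lit 0, nat_lit 2373000, [nat_lit 780000, nat_lit 1435000, nat_lit 1271250], [nat_lit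 23, nat_lit 40, nat_lit 40, nat_lit 80, nat_lit 12, nat_lit 538, nat_lit 300, nat_lit 13]⟩,
 ⟨nat_lit 0, nat_lit 3163, ⟨.ofNat (nat_lit 646918), .ofNat (nat_lit 869001), .ofNat (nat_lit 667768), .ofNat (nat_lit 891156), .ofNat (nat_lit 647345), .ofNat (nat_lit 829996), .ofNat (nat_lit 671040), .ofNat (nat_lit 854997)⟩, ⟨.ofNat (nat_lit 306113), .ofNat (nat_lit 440207), .ofNat (nat_lit 350425), .ofNat (nat_lit 484518), .ofNat (nat_lit 299996), .ofNat (nat_lit 409993), .ofNat (nat_lit 349998), .ofNat (nat_lit 459993)⟩⟩, [⟨nat_lit 13, nat_lit 69, nat_lit 45, nat_lit 100, nat_lit 229249309⟩, ⟨nat_lit 16, nat_lit 62, nat_lit 100, nat_lit 94, nat_lit 315653565⟩, ⟨nat_lit 7, nat_lit 94, nat_lit 100, nat_lit 97, nat_lit 19754854⟩]⟩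
noncomputable def p123_l37 : Lf2 := ⟨nat_lit 0, nat_lit 20, [nat_lit 5, nat_lit 5, nat_lit 5, nat_lit 20], false, nat_lit 160, nat_lit 248, nat_lit 0, nat_lit 320, ⟨nat_lit 303, nat_lit 697, nat_lit 0, nat_lit 7, nat_lit 315, nat_lit 697, nat_lit 155, nat_lit 0, nat_lit 0, nat_lit 0, nat_lit 0, nat_lit 0, nat_lit 0, nat_lit 0, nat_lit 0, nat_lit 5000000, true, true⟩,
 nat_lit 0, nat_lit 0, nat_lit 2863, nat_lit 0, nat_lit 2892, nat_lit 1982, nat_lit 156, nat_lit 0, nat_lit 0, nat_lit 166, nat_lit 0, nat_lit 0, nat_lit 0, nat_lit 0, nat_lit 0, nat_lit 278800, nat_lit 0, nat_lit 0, [(nat_lit 25, [(nat_lit 1, nat_lit 697)]), (nat_lit 28, [(nat_lit 1, nat_lit 697)])],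
 ⟨p123_k14, nat_lit 0, nat_lit 0, nat_lit 108, nat_lit 0, nat_lit 0, [nat_lit 873039601, nat_lit 1692932934, nat_lit 2531644400], [], [nat_lit 23489425197, nat_lit 25674361837, nat_lit 29301203872, nat_lit 30928921152, nat_lit 25501988519, nat_lit 27414182047, nat_lit 30588494499, nat_lit 32030540451], nat_lit 0, nat_lit 0, nat_lit 0, nat_lit 0, nat_lit 0, nat_lit 0, [], [nat_lit 20, nat_lit 40, nat_lit 40, nat_lit 80, nat_lit 16, nat_lit 289, nat_lit 75, nat_lit 9]⟩, ⟨p123_k15, nat_lit 0, nat_lit 0, nat_lit 847, nat_lit 0, nat_lit 1455935, [nat_lit 994446000, nat_lit 1893750000, nat_lit 2982126000], [], [nat_lit 11138402882, nat_lit 11224180456, nat_lit 11743787263, nat_lit 11834970408, nat_lit 10328076520, nat_lit 10366118484, nat_lit 10590829734, nat_lit 10611015592], nat_lit 1271250, nat_lit 1271250, nat_lit 1271250, nat_lit 1271250, nat_lit 0, nat_lit 2260000, [nat_lit 780000, nat_lit 1435000, nat_lit 1271250],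 [nat_lit 8, nat_lit 40, nat_lit 40, nat_lit 80, nat_lit 1, nat_lit 428, nat_lit 200, nat_lit 12]⟩,
 ⟨nat_lit 0, nat_lit 3163, ⟨.ofNat (nat_lit 667768), .ofNat (nat_lit 903347), .ofNat (nat_lit 688618), .ofNat (nat_lit 925502), .ofNat (nat_lit 671040), .ofNat (nat_lit 864997), .ofNat (nat_lit 694736), .ofNat (nat_lit 889997)⟩, ⟨.ofNat (nat_lit 306113), .ofNat (nat_lit 440207), .ofNat (nat_lit 350425), .ofNat (nat_lit 484518), .ofNat (nat_lit 299996), .ofNat (nat_lit 409993), .ofNat (nat_lit 349998), .ofNat (nat_lit 459993)⟩⟩, [⟨nat_lit 13, nat_lit 75, nat_lit 35, nat_lit 100, nat_lit 115038006⟩, ⟨nat_lit 16, nat_lit 44, nat_lit 100, nat_lit 87, nat_lit 213493620⟩, ⟨nat_lit 16, nat_lit 62, nat_lit 100, nat_lit 94, nat_lit 206904075⟩, ⟨nat_lit 19, nat_lit 93, nat_lit 100, nat_lit 97, nat_lit 41063013⟩]⟩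
noncomputable def b_V_900_700_20_23 : St := ⟨true, nat_lit 0, nat_lit 2, nat_lit 2, nat_lit 120, nat_lit 360, nat_lit 400, nat_lit 280, nat_lit 320, nat_lit 152, nat_lit 392, nat_lit 80, nat_lit 120, nat_lit 8, nat_lit 248, nat_lit 0, nat_lit 336, nat_lit 40, nat_lit 80, nat_lit 0, nat_lit 0, nat_lit 0, nat_lit 0⟩
theorem d_V_900_700_20_23 (h : EB TB.env) : Dead b_V_900_700_20_23 := chkB_sound0 h (T :=
(.st (nat_lit 1)
(.leaf p123_l33)
(.spl (nat_lit 2) (nat_lit 240)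
(.leaf p123_l34)
(.spl (nat_lit 4) (nat_lit 160)
(.leaf p123_l35)
(.spl (nat_lit 1) (nat_lit 300)
(.trX (nat_lit 13) (nat_lit 69) (nat_lit 45) (nat_lit 100) (nat_lit 384) (.leaf p123_l36))
(.trX (nat_lit 19) (nat_lit 94) (nat_lit 88) (nat_lit 100) (nat_lit 320) (.leaf p123_l37))))))) (by decide +kernel)
noncomputable def p123_l38 : Lf2 := ⟨nat_lit 0, nat_lit 20, [nat_lit 5, nat_lit 5, nat_lit 5, nat_lit 20], false, nat_lit 8, nat_lit 248, nat_lit 0, nat_lit 160, ⟨nat_lit 1000, nat_lit 0, nat_lit 0, nat_lit 0, nat_lit 0, nat_lit 0, nat_lit 0, nat_lit 0, nat_lit 0, nat_lit 0, nat_lit 0, nat_lit 0, nat_lit 0, nat_lit 0, nat_lit 0, nat_lit 0, false, false⟩,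
 nat_lit 0, nat_lit 5683, nat_lit 0, nat_lit 0, nat_lit 4949, nat_lit 7006, nat_lit 418, nat_lit 0, nat_lit 0, nat_lit 769, nat_lit 0, nat_lit 0, nat_lit 0, nat_lit 0, nat_lit 0, nat_lit 0, nat_lit 0, nat_lit 0, [],
 ⟨p123_k14, nat_lit 0, nat_lit 0, nat_lit 519, nat_lit 0, nat_lit 957443, [nat_lit 938000000, nat_lit 3282000000, nat_lit 6250000000], [], [nat_lit 32009512155, nat_lit 33794068447, nat_lit 37561024713, nat_lit 39316447186, nat_lit 31948158939, nat_lit 33386133431, nat_lit 36590774453, nat_lit 37438066646], nat_lit 1271250, nat_lit 1271250, nat_lit 1033601, nat_lit 3070600, nat_lit 43600, nat_lit 1756600, [nat_lit 230000, nat_lit 780000, nat_lit 1435000], [nat_lit 20, nat_lit 40, nat_lit 40, nat_lit 80, nat_lit 16, nat_lit 401, nat_lit 175, nat_lit 15]⟩, ⟨p123_k1, nat_lit 0, nat_lit 0, nat_lit 239, nat_lit 0, nat_lit 0, [nat_lit 3282000000, nat_lit 6250000000, nat_lit 11872000000], [], [nat_lit 28968659001,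 nat_lit 31401081100, nat_lit 38492273095, nat_lit 40013555207, nat_lit 24678867081, nat_lit 26713195804, nat_lit 32228357467, nat_lit 33246361436], nat_lit 0, nat_lit 0, nat_lit 0, nat_lit 0, nat_lit 0, nat_lit 0, [], [nat_lit 23, nat_lit 40, nat_lit 40, nat_lit 80, nat_lit 12, nat_lit 456, nat_lit 225, nat_lit 12]⟩,
 zbF0, [⟨nat_lit 0, nat_lit 87, nat_lit 44, nat_lit 100, nat_lit 369293801⟩, ⟨nat_lit 16, nat_lit 44, nat_lit 100, nat_lit 87, nat_lit 341286900⟩]⟩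
noncomputable def p123_l39 : Lf2 := ⟨nat_lit 0, nat_lit 20, [nat_lit 5, nat_lit 5, nat_lit 5, nat_lit 20], false, nat_lit 8, nat_lit 248, nat_lit 160, nat_lit 336, ⟨nat_lit 1000, nat_lit 0, nat_lit 0, nat_lit 0, nat_lit 0, nat_lit 0, nat_lit 0, nat_lit 0, nat_lit 0, nat_lit 0, nat_lit 0, nat_lit 0, nat_lit 0, nat_lit 0, nat_lit 0, nat_lit 0, false, false⟩,
 nat_lit 0, nat_lit 6824, nat_lit 0, nat_lit 0, nat_lit 5943, nat_lit 6992, nat_lit 417, nat_lit 0, nat_lit 0, nat_lit 0, nat_lit 0, nat_lit 0, nat_lit 0, nat_lit 0, nat_lit 0, nat_lit 0, nat_lit 0, nat_lit 0, [],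
 ⟨p123_k14, nat_lit 0, nat_lit 0, nat_lit 440, nat_lit 0, nat_lit 798466, [nat_lit 938000000, nat_lit 3282000000, nat_lit 6250000000], [], [nat_lit 26356818733, nat_lit 28407374343, nat_lit 39379117075, nat_lit 40913822650, nat_lit 25646613223, nat_lit 26547244073, nat_lit 35291980919, nat_lit 35200570817], nat_lit 1271250, nat_lit 1271250, nat_lit 1033601, nat_lit 3070600, nat_lit 43600, nat_lit 1756600, [nat_lit 230000, nat_lit 780000, nat_lit 1435000], [nat_lit 20, nat_lit 40, nat_lit 40, nat_lit 80, nat_lit 16, nat_lit 401, nat_lit 175, nat_lit 15]⟩, ⟨p123_k1, nat_lit 0, nat_lit 0, nat_lit 86, nat_lit 0, nat_lit 0, [nat_lit 3282000000, nat_lit 6250000000, nat_lit 11872000000], [], [nat_lit 16029609082, nat_lit 19671468212, nat_lit 30117318023, nat_lit 31946966893, nat_lit 25751572109, nat_lit 28053422932, nat_lit 34858618348, nat_lit 36288148761], nat_lit 0, nat_lit 0, nat_lit 0, nat_lit 0, nat_lit 0, nat_lit 0,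 [], [nat_lit 23, nat_lit 40, nat_lit 40, nat_lit 80, nat_lit 12, nat_lit 538, nat_lit 300, nat_lit 13]⟩,
 zbF0, [⟨nat_lit 0, nat_lit 82, nat_lit 44, nat_lit 100, nat_lit 171064796⟩, ⟨nat_lit 4, nat_lit 100, nat_lit 53, nat_lit 87, nat_lit 110322922⟩, ⟨nat_lit 7, nat_lit 100, nat_lit 100, nat_lit 100, nat_lit 351729566⟩]⟩
noncomputable def p123_l40 : Lf2 := ⟨nat_lit 0, nat_lit 20, [nat_lit 5, nat_lit 5, nat_lit 5, nat_lit 20], false, nat_lit 20, nat_lit 208, nat_lit 160, nat_lit 336, ⟨nat_lit 1000, nat_lit 0, nat_lit 0, nat_lit 0, nat_lit 0, nat_lit 0, nat_lit 0, nat_lit 0, nat_lit 0, nat_lit 0, nat_lit 0, nat_lit 0, nat_lit 0, nat_lit 0, nat_lit 0, nat_lit 0, false, false⟩,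
 nat_lit 0, nat_lit 3947, nat_lit 0, nat_lit 0, nat_lit 3688, nat_lit 8251, nat_lit 519, nat_lit 0, nat_lit 0, nat_lit 0, nat_lit 0, nat_lit 0, nat_lit 0, nat_lit 0, nat_lit 0, nat_lit 0, nat_lit 0, nat_lit 0, [],
 ⟨p123_k0, nat_lit 0, nat_lit 0, nat_lit 455, nat_lit 0, nat_lit 870873, [nat_lit 938000000, nat_lit 3282000000, nat_lit 6250000000], [], [nat_lit 24609168362, nat_lit 25935320527, nat_lit 32945181666, nat_lit 34189433972, nat_lit 25701297562, nat_lit 26516802527, nat_lit 31017968220, nat_lit 32047409338], nat_lit 1271250, nat_lit 1271250, nat_lit 1271250, nat_lit 1271250, nat_lit 111251, nat_lit 1474250, [nat_lit 230000, nat_lit 780000, nat_lit 1435000], [nat_lit 20, nat_lit 40, nat_lit 40, nat_lit 80, nat_lit 16, nat_lit 373, nat_lit 150, nat_lit 13]⟩, ⟨p123_k1, nat_lit 0, nat_lit 0, nat_lit 81, nat_lit 0, nat_lit 0, [nat_lit 3282000000, nat_lit 6250000000, nat_lit 11872000000], [], [nat_lit 15634598400,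 nat_lit 19375467352, nat_lit 29557219464, nat_lit 32209845594, nat_lit 25290619220, nat_lit 28284752387, nat_lit 35373727654, nat_lit 36972820077], nat_lit 0, nat_lit 0, nat_lit 0, nat_lit 0, nat_lit 0, nat_lit 0, [], [nat_lit 23, nat_lit 40, nat_lit 40, nat_lit 80, nat_lit 12, nat_lit 538, nat_lit 300, nat_lit 13]⟩,
 zbF0, [⟨nat_lit 4, nat_lit 100, nat_lit 32, nat_lit 88, nat_lit 376713767⟩, ⟨nat_lit 19, nat_lit 100, nat_lit 80, nat_lit 100, nat_lit 385614166⟩]⟩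
noncomputable def p123_l41 : Lf2 := ⟨nat_lit 0, nat_lit 20, [nat_lit 5, nat_lit 5, nat_lit 5, nat_lit 20], false, nat_lit 8, nat_lit 248, nat_lit 0, nat_lit 160, ⟨nat_lit 787, nat_lit 0, nat_lit 213, nat_lit 7, nat_lit 242, nat_lit 213, nat_lit 94, nat_lit 213, nat_lit 58017, nat_lit 274, nat_lit 118222, nat_lit 200, nat_lit 45628235, nat_lit 0, nat_lit 0, nat_lit 4117582, false, false⟩,
 nat_lit 8922, nat_lit 0, nat_lit 0, nat_lit 0, nat_lit 4615, nat_lit 5677, nat_lit 147, nat_lit 0, nat_lit 0, nat_lit 663, nat_lit 0, nat_lit 0, nat_lit 0, nat_lit 0, nat_lit 0, nat_lit 213000, nat_lit 0, nat_lit 0, [(nat_lit 25, [(nat_lit 6, nat_lit 213)]), (nat_lit 28, [(nat_lit 6, nat_lit 213)])],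
 ⟨p123_k14, nat_lit 0, nat_lit 0, nat_lit 355, nat_lit 0, nat_lit 573986, [nat_lit 1024904000, nat_lit 2137622001, nat_lit 3242014000], [], [nat_lit 23958992672, nat_lit 27969090739, nat_lit 25908032058, nat_lit 29991009597, nat_lit 24449264849, nat_lit 26590407835, nat_lit 25598243452, nat_lit 28183956259], nat_lit 1271250, nat_lit 1271250, nat_lit 1033601, nat_lit 1780500, nat_lit 43600, nat_lit 1756600, [nat_lit 230000, nat_lit 780000, nat_lit 1435000], [nat_lit 20, nat_lit 40, nat_lit 40, nat_lit 80, nat_lit 16, nat_lit 345, nat_lit 125, nat_lit 13]⟩, ⟨p123_k1, nat_lit 0, nat_lit 0, nat_lit 672, nat_lit 0, nat_lit 853753, [nat_lit 2582934000, nat_lit 4918750000, nat_lit 9343264000], [], [nat_lit 27089900123, nat_lit 26967090815, nat_lit 26419909033, nat_lit 27367566065, nat_lit 22708153957, nat_lit 23649087931, nat_lit 23105606281, nat_lit 24040792936], nat_lit 1271250, nat_lit 1271250, nat_lit 1033601, nat_lit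 1780500, nat_lit 0, nat_lit 1100001, [nat_lit 780000, nat_lit 1435000, nat_lit 1271250], [nat_lit 23, nat_lit 40, nat_lit 40, nat_lit 80, nat_lit 12, nat_lit 428, nat_lit 200, nat_lit 11]⟩,
 ⟨nat_lit 0, nat_lit 3163, ⟨.ofNat (nat_lit 507176), .ofNat (nat_lit 646918), .ofNat (nat_lit 548877), .ofNat (nat_lit 688618), .ofNat (nat_lit 531701), .ofNat (nat_lit 647345), .ofNat (nat_lit 579091), .ofNat (nat_lit 694736)⟩, ⟨.ofNat (nat_lit 20000), .ofNat (nat_lit 440207), .ofNat (nat_lit 20000), .ofNat (nat_lit 484518), .ofNat (nat_lit 20000), .ofNat (nat_lit 409993), .ofNat (nat_lit 20000), .ofNat (nat_lit 459993)⟩⟩, [⟨nat_lit 0, nat_lit 87, nat_lit 44, nat_lit 100, nat_lit 741934753⟩, ⟨nat_lit 4, nat_lit 100, nat_lit 44, nat_lit 87, nat_lit 240421147⟩]⟩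
noncomputable def p123_l42 : Lf2 := ⟨nat_lit 0, nat_lit 20, [nat_lit 5, nat_lit 5, nat_lit 5, nat_lit 20], false, nat_lit 8, nat_lit 160, nat_lit 160, nat_lit 336, ⟨nat_lit 516, nat_lit 0, nat_lit 484, nat_lit 7, nat_lit 242, nat_lit 484, nat_lit 69, nat_lit 484, nat_lit 45067, nat_lit 267, nat_lit 118222, nat_lit 200, nat_lit 46829039, nat_lit 0, nat_lit 0, nat_lit 3796428, false, false⟩,
 nat_lit 6394, nat_lit 0, nat_lit 0, nat_lit 0, nat_lit 3597, nat_lit 4068, nat_lit 122, nat_lit 0, nat_lit 0, nat_lit 409, nat_lit 0, nat_lit 0, nat_lit 0, nat_lit 0, nat_lit 0, nat_lit 213400, nat_lit 0, nat_lit 0, [(nat_lit 25, [(nat_lit 5, nat_lit 451), (nat_lit 6, nat_lit 33)]), (nat_lit 28, [(nat_lit 5, nat_lit 451), (nat_lit 6, nat_lit 33)])],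
 ⟨p123_k14, nat_lit 0, nat_lit 0, nat_lit 355, nat_lit 0, nat_lit 573986, [nat_lit 856032400, nat_lit 1302205334, nat_lit 1584081600], [], [nat_lit 22087726616, nat_lit 25449614931, nat_lit 24007131653, nat_lit 27550160769, nat_lit 22078845758, nat_lit 23876647503, nat_lit 23595361998, nat_lit 25239871840], nat_lit 1271250, nat_lit 1271250, nat_lit 1033601, nat_lit 1780500, nat_lit 43600, nat_lit 1100001, [nat_lit 230000, nat_lit 780000, nat_lit 1435000], [nat_lit 20, nat_lit 40, nat_lit 40, nat_lit 80, nat_lit 16, nat_lit 317, nat_lit 100, nat_lit 12]⟩, ⟨p123_k1, nat_lit 0, nat_lit 0, nat_lit 540, nat_lit 0, nat_lit 853753, [nat_lit 1693512000, nat_lit 3225000000, nat_lit 6125952000], [], [nat_lit 12829945460, nat_lit 13675047371, nat_lit 13266047991, nat_lit 13960784103, nat_lit 14735596536, nat_lit 15321215008, nat_lit 14701886315, nat_lit 15438678951], nat_lit 1271250, nat_lit 1271250, nat_lit 1033601, nat_lit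 1780500, nat_lit 1271250, nat_lit 1271250, [nat_lit 780000, nat_lit 1435000, nat_lit 1271250], [nat_lit 23, nat_lit 40, nat_lit 40, nat_lit 80, nat_lit 12, nat_lit 456, nat_lit 225, nat_lit 11]⟩,
 ⟨nat_lit 0, nat_lit 3163, ⟨.ofNat (nat_lit 507176), .ofNat (nat_lit 646918), .ofNat (nat_lit 548877), .ofNat (nat_lit 688618), .ofNat (nat_lit 531701), .ofNat (nat_lit 647345), .ofNat (nat_lit 579091), .ofNat (nat_lit 694736)⟩, ⟨.ofNat (nat_lit 20000), .ofNat (nat_lit 306113), .ofNat (nat_lit 20000), .ofNat (nat_lit 350425), .ofNat (nat_lit 20000), .ofNat (nat_lit 299996), .ofNat (nat_lit 20000), .ofNat (nat_lit 349998)⟩⟩, [⟨nat_lit 0, nat_lit 87, nat_lit 44, nat_lit 100, nat_lit 460966021⟩, ⟨nat_lit 19, nat_lit 100, nat_lit 100, nat_lit 100, nat_lit 122904348⟩, ⟨nat_lit 19, nat_lit 100, nat_lit 80, nat_lit 100, nat_lit 12398192⟩, ⟨nat_lit 10, nat_lit 73, nat_lit 100, nat_lit 67, nat_lit 34853789⟩]⟩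
noncomputable def p123_l43 : Lf2 := ⟨nat_lit 0, nat_lit 20, [nat_lit 5, nat_lit 5, nat_lit 5, nat_lit 20], false, nat_lit 160, nat_lit 248, nat_lit 160, nat_lit 336, ⟨nat_lit 508, nat_lit 492, nat_lit 0, nat_lit 7, nat_lit 242, nat_lit 492, nat_lit 155, nat_lit 0, nat_lit 0, nat_lit 0, nat_lit 0, nat_lit 0, nat_lit 42149577, nat_lit 16647739, nat_lit 8202684, nat_lit 4802575, false, false⟩,
 nat_lit 6459, nat_lit 0, nat_lit 0, nat_lit 0, nat_lit 5625, nat_lit 4110, nat_lit 97, nat_lit 0, nat_lit 0, nat_lit 436, nat_lit 0, nat_lit 0, nat_lit 0, nat_lit 0, nat_lit 0, nat_lit 196800, nat_lit 0, nat_lit 0, [(nat_lit 25, [(nat_lit 1, nat_lit 492)]), (nat_lit 28, [(nat_lit 1, nat_lit 492)])],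
 ⟨p123_k14, nat_lit 0, nat_lit 0, nat_lit 272, nat_lit 0, nat_lit 573986, [nat_lit 892145600, nat_lit 2160305601, nat_lit 3625278400], [], [nat_lit 21916924351, nat_lit 25340855900, nat_lit 23571849050, nat_lit 27297724000, nat_lit 23827638510, nat_lit 27673110220, nat_lit 25808847601, nat_lit 29150535550], nat_lit 1271250, nat_lit 1271250, nat_lit 1033601, nat_lit 1780500, nat_lit 1100001, nat_lit 1853500, [nat_lit 230000, nat_lit 780000, nat_lit 1435000], [nat_lit 20, nat_lit 40, nat_lit 40, nat_lit 80, nat_lit 16, nat_lit 345, nat_lit 125, nat_lit 12]⟩, ⟨p123_k1, nat_lit 0, nat_lit 0, nat_lit 540, nat_lit 0, nat_lit 853753, [nat_lit 1667256000, nat_lit 3175000000, nat_lit 6030976000], [], [nat_lit 12020428041, nat_lit 12861590100, nat_lit 12437461588, nat_lit 13127412212, nat_lit 13902305765, nat_lit 14726715221, nat_lit 14163871989, nat_lit 14909974407], nat_lit 1271250, nat_lit 1271250, nat_lit 1033601, nat_lit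 1780500, nat_lit 1271250, nat_lit 1271250, [nat_lit 780000, nat_lit 1435000, nat_lit 1271250], [nat_lit 23, nat_lit 40, nat_lit 40, nat_lit 80, nat_lit 12, nat_lit 456, nat_lit 225, nat_lit 11]⟩,
 ⟨nat_lit 0, nat_lit 3163, ⟨.ofNat (nat_lit 507176), .ofNat (nat_lit 646918), .ofNat (nat_lit 548877), .ofNat (nat_lit 688618), .ofNat (nat_lit 531701), .ofNat (nat_lit 647345), .ofNat (nat_lit 579091), .ofNat (nat_lit 694736)⟩, ⟨.ofNat (nat_lit 306113), .ofNat (nat_lit 440207), .ofNat (nat_lit 350425), .ofNat (nat_lit 484518), .ofNat (nat_lit 299996), .ofNat (nat_lit 409993), .ofNat (nat_lit 349998), .ofNat (nat_lit 459993)⟩⟩, [⟨nat_lit 0, nat_lit 87, nat_lit 44, nat_lit 100, nat_lit 403481012⟩, ⟨nat_lit 16, nat_lit 62, nat_lit 100, nat_lit 94, nat_lit 371142550⟩, ⟨nat_lit 19, nat_lit 100, nat_lit 80, nat_lit 100, nat_lit 154075128⟩, ⟨nat_lit 7, nat_lit 100, nat_lit 100, nat_lit 100, nat_lit 12349032⟩]⟩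
noncomputable def p123_l44 : Lf2 := ⟨nat_lit 0, nat_lit 20, [nat_lit 5, nat_lit 5, nat_lit 5, nat_lit 20], false, nat_lit 8, nat_lit 248, nat_lit 0, nat_lit 160, ⟨nat_lit 1000, nat_lit 0, nat_lit 0, nat_lit 0, nat_lit 0, nat_lit 0, nat_lit 0, nat_lit 0, nat_lit 0, nat_lit 0, nat_lit 0, nat_lit 0, nat_lit 0, nat_lit 0, nat_lit 0, nat_lit 0, false, false⟩,
 nat_lit 11103, nat_lit 0, nat_lit 0, nat_lit 0, nat_lit 5557, nat_lit 7065, nat_lit 398, nat_lit 0, nat_lit 0, nat_lit 821, nat_lit 0, nat_lit 0, nat_lit 0, nat_lit 0, nat_lit 0, nat_lit 0, nat_lit 0, nat_lit 0, [],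
 ⟨p123_k14, nat_lit 0, nat_lit 0, nat_lit 330, nat_lit 0, nat_lit 478680, [nat_lit 938000000, nat_lit 3282000000, nat_lit 6250000000], [], [nat_lit 27667018485, nat_lit 29958326219, nat_lit 38275569046, nat_lit 39753908151, nat_lit 26577249185, nat_lit 27427104533, nat_lit 33577274047, nat_lit 34690976705], nat_lit 1271250, nat_lit 1271250, nat_lit 1271250, nat_lit 1271250, nat_lit 43600, nat_lit 1756600, [nat_lit 230000, nat_lit 780000, nat_lit 1435000], [nat_lit 20, nat_lit 40, nat_lit 40, nat_lit 80, nat_lit 16, nat_lit 289, nat_lit 75, nat_lit 10]⟩, ⟨p123_k1, nat_lit 0, nat_lit 0, nat_lit 556, nat_lit 0, nat_lit 711993, [nat_lit 3282000000, nat_lit 6250000000, nat_lit 11872000000], [], [nat_lit 34216780935, nat_lit 35414162955, nat_lit 39127685285, nat_lit 40169040213, nat_lit 30140597315, nat_lit 31119701775, nat_lit 34660389208, nat_lit 35484277140], nat_lit 1271250, nat_lit 1271250, nat_lit 1271250, nat_lit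 1271250, nat_lit 0, nat_lit 1100001, [nat_lit 780000, nat_lit 1435000, nat_lit 1271250], [nat_lit 23, nat_lit 40, nat_lit 40, nat_lit 80, nat_lit 12, nat_lit 456, nat_lit 225, nat_lit 11]⟩,
 zbF0, [⟨nat_lit 16, nat_lit 53, nat_lit 100, nat_lit 87, nat_lit 155865776⟩]⟩
noncomputable def p123_l45 : Lf2 := ⟨nat_lit 0, nat_lit 20, [nat_lit 5, nat_lit 5, nat_lit 5, nat_lit 20], false, nat_lit 8, nat_lit 248, nat_lit 160, nat_lit 336, ⟨nat_lit 1000, nat_lit 0, nat_lit 0, nat_lit 0, nat_lit 0, nat_lit 0, nat_lit 0, nat_lit 0, nat_lit 0, nat_lit 0, nat_lit 0, nat_lit 0, nat_lit 0, nat_lit 0, nat_lit 0, nat_lit 0, false, false⟩,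
 nat_lit 11079, nat_lit 0, nat_lit 0, nat_lit 0, nat_lit 5639, nat_lit 7050, nat_lit 402, nat_lit 0, nat_lit 0, nat_lit 762, nat_lit 0, nat_lit 0, nat_lit 0, nat_lit 0, nat_lit 0, nat_lit 0, nat_lit 0, nat_lit 0, [],
 ⟨p123_k14, nat_lit 0, nat_lit 0, nat_lit 316, nat_lit 0, nat_lit 432485, [nat_lit 938000000, nat_lit 3282000000, nat_lit 6250000000], [], [nat_lit 27820136199, nat_lit 28976663291, nat_lit 38510001529, nat_lit 39255158193, nat_lit 26231572369, nat_lit 26658052530, nat_lit 33677576572, nat_lit 34238404510], nat_lit 1271250, nat_lit 1271250, nat_lit 1271250, nat_lit 1271250, nat_lit 43600, nat_lit 1756600, [nat_lit 230000, nat_lit 780000, nat_lit 1435000], [nat_lit 20, nat_lit 40, nat_lit 40, nat_lit 80, nat_lit 16, nat_lit 289, nat_lit 75, nat_lit 10]⟩, ⟨p123_k1, nat_lit 0, nat_lit 0, nat_lit 398, nat_lit 0, nat_lit 643283, [nat_lit 3282000000, nat_lit 6250000000, nat_lit 11872000000], [], [nat_lit 28408678750,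 nat_lit 29707571150, nat_lit 33127128310, nat_lit 34001520281, nat_lit 31265052910, nat_lit 32064262031, nat_lit 35060492752, nat_lit 36357732808], nat_lit 1271250, nat_lit 1271250, nat_lit 1271250, nat_lit 1271250, nat_lit 1100001, nat_lit 2607000, [nat_lit 780000, nat_lit 1435000, nat_lit 1271250], [nat_lit 23, nat_lit 40, nat_lit 40, nat_lit 80, nat_lit 12, nat_lit 538, nat_lit 300, nat_lit 13]⟩,
 zbF0, [⟨nat_lit 4, nat_lit 100, nat_lit 57, nat_lit 87, nat_lit 141374930⟩, ⟨nat_lit 7, nat_lit 100, nat_lit 100, nat_lit 100, nat_lit 295350921⟩]⟩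
noncomputable def p123_l46 : Lf2 := ⟨nat_lit 0, nat_lit 20, [nat_lit 5, nat_lit 5, nat_lit 5, nat_lit 20], false, nat_lit 12, nat_lit 232, nat_lit 160, nat_lit 336, ⟨nat_lit 1000, nat_lit 0, nat_lit 0, nat_lit 0, nat_lit 0, nat_lit 0, nat_lit 0, nat_lit 0, nat_lit 0, nat_lit 0, nat_lit 0, nat_lit 0, nat_lit 0, nat_lit 0, nat_lit 0, nat_lit 0, false, false⟩,
 nat_lit 11193, nat_lit 0, nat_lit 0, nat_lit 0, nat_lit 4389, nat_lit 7122, nat_lit 497, nat_lit 0, nat_lit 0, nat_lit 762, nat_lit 0, nat_lit 0, nat_lit 0, nat_lit 0, nat_lit 0, nat_lit 0, nat_lit 0, nat_lit 0, [],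
 ⟨p123_k19, nat_lit 0, nat_lit 0, nat_lit 322, nat_lit 0, nat_lit 458299, [nat_lit 938000000, nat_lit 3282000000, nat_lit 6250000000], [], [nat_lit 26306661058, nat_lit 27294931974, nat_lit 35124940994, nat_lit 35786337285, nat_lit 25578451727, nat_lit 26018818131, nat_lit 32134229190, nat_lit 32655350913], nat_lit 1271250, nat_lit 1271250, nat_lit 1271250, nat_lit 1271250, nat_lit 65850, nat_lit 1644350, [nat_lit 230000, nat_lit 780000, nat_lit 1435000], [nat_lit 20, nat_lit 40, nat_lit 40, nat_lit 80, nat_lit 16, nat_lit 272, nat_lit 60, nat_lit 9]⟩, ⟨p123_k1, nat_lit 0, nat_lit 0, nat_lit 420, nat_lit 0, nat_lit 711993, [nat_lit 3282000000, nat_lit 6250000000, nat_lit 11872000000], [], [nat_lit 28200942910, nat_lit 29503937006, nat_lit 32776233548, nat_lit 33630276841, nat_lit 31050473845, nat_lit 31852814290, nat_lit 34725754714, nat_lit 36190848194], nat_lit 1271250, nat_lit 1271250, nat_lit 1271250, nat_lit 1271250,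 nat_lit 1100001, nat_lit 2607000, [nat_lit 780000, nat_lit 1435000, nat_lit 1271250], [nat_lit 23, nat_lit 40, nat_lit 40, nat_lit 80, nat_lit 12, nat_lit 538, nat_lit 300, nat_lit 13]⟩,
 zbF0, [⟨nat_lit 4, nat_lit 100, nat_lit 48, nat_lit 87, nat_lit 268245931⟩, ⟨nat_lit 7, nat_lit 100, nat_lit 100, nat_lit 100, nat_lit 295036161⟩]⟩
noncomputable def p123_l47 : Lf2 := ⟨nat_lit 0, nat_lit 20, [nat_lit 5, nat_lit 5, nat_lit 5, nat_lit 20], false, nat_lit 20, nat_lit 208, nat_lit 0, nat_lit 160, ⟨nat_lit 1000, nat_lit 0, nat_lit 0, nat_lit 0, nat_lit 0, nat_lit 0, nat_lit 0, nat_lit 0, nat_lit 0, nat_lit 0, nat_lit 0, nat_lit 0, nat_lit 0, nat_lit 0, nat_lit 0, nat_lit 0, false, false⟩,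
 nat_lit 11295, nat_lit 0, nat_lit 0, nat_lit 0, nat_lit 3575, nat_lit 7187, nat_lit 522, nat_lit 0, nat_lit 0, nat_lit 821, nat_lit 0, nat_lit 0, nat_lit 0, nat_lit 0, nat_lit 0, nat_lit 0, nat_lit 0, nat_lit 0, [],
 ⟨p123_k0, nat_lit 0, nat_lit 0, nat_lit 338, nat_lit 0, nat_lit 526718, [nat_lit 938000000, nat_lit 3282000000, nat_lit 6250000000], [], [nat_lit 25341460963, nat_lit 27093988350, nat_lit 32634274088, nat_lit 33861090550, nat_lit 25329945300, nat_lit 26239075050, nat_lit 30867518505, nat_lit 31883872890], nat_lit 1271250, nat_lit 1271250, nat_lit 1271250, nat_lit 1271250, nat_lit 111251, nat_lit 1474250, [nat_lit 230000, nat_lit 780000, nat_lit 1435000], [nat_lit 20, nat_lit 40, nat_lit 40, nat_lit 80, nat_lit 16, nat_lit 272, nat_lit 60, nat_lit 9]⟩, ⟨p123_k1, nat_lit 0, nat_lit 0, nat_lit 647, nat_lit 0, nat_lit 853753, [nat_lit 3282000000, nat_lit 6250000000, nat_lit 11872000000], [], [nat_lit 33854602463,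 nat_lit 35057536459, nat_lit 38222485716, nat_lit 39286431904, nat_lit 29667380787, nat_lit 30649301495, nat_lit 33731331334, nat_lit 34599170990], nat_lit 1271250, nat_lit 1271250, nat_lit 1271250, nat_lit 1271250, nat_lit 0, nat_lit 1100001, [nat_lit 780000, nat_lit 1435000, nat_lit 1271250], [nat_lit 23, nat_lit 40, nat_lit 40, nat_lit 80, nat_lit 12, nat_lit 456, nat_lit 225, nat_lit 11]⟩,
 zbF0, [⟨nat_lit 0, nat_lit 88, nat_lit 32, nat_lit 100, nat_lit 21931222⟩, ⟨nat_lit 4, nat_lit 100, nat_lit 32, nat_lit 88, nat_lit 497885492⟩]⟩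
noncomputable def p123_l48 : Lf2 := ⟨nat_lit 0, nat_lit 20, [nat_lit 5, nat_lit 5, nat_lit 5, nat_lit 20], false, nat_lit 20, nat_lit 208, nat_lit 160, nat_lit 336, ⟨nat_lit 1000, nat_lit 0, nat_lit 0, nat_lit 0, nat_lit 0, nat_lit 0, nat_lit 0, nat_lit 0, nat_lit 0, nat_lit 0, nat_lit 0, nat_lit 0, nat_lit 0, nat_lit 0, nat_lit 0, nat_lit 0, false, false⟩,
 nat_lit 11293, nat_lit 0, nat_lit 0, nat_lit 0, nat_lit 3624, nat_lit 7186, nat_lit 501, nat_lit 0, nat_lit 0, nat_lit 796, nat_lit 0, nat_lit 0, nat_lit 0, nat_lit 0, nat_lit 0, nat_lit 0, nat_lit 0, nat_lit 0, [],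
 ⟨p123_k0, nat_lit 0, nat_lit 0, nat_lit 338, nat_lit 0, nat_lit 526718, [nat_lit 938000000, nat_lit 3282000000, nat_lit 6250000000], [], [nat_lit 25438267788, nat_lit 27203676712, nat_lit 32769092418, nat_lit 34003469556, nat_lit 25446272649, nat_lit 26291132975, nat_lit 30932757762, nat_lit 31954786925], nat_lit 1271250, nat_lit 1271250, nat_lit 1271250, nat_lit 1271250, nat_lit 111251, nat_lit 1474250, [nat_lit 230000, nat_lit 780000, nat_lit 1435000], [nat_lit 20, nat_lit 40, nat_lit 40, nat_lit 80, nat_lit 16, nat_lit 272, nat_lit 60, nat_lit 9]⟩, ⟨p123_k1, nat_lit 0, nat_lit 0, nat_lit 517, nat_lit 0, nat_lit 853753, [nat_lit 3282000000, nat_lit 6250000000, nat_lit 11872000000], [], [nat_lit 27690207580, nat_lit 28996847628, nat_lit 31961696328, nat_lit 33092324580, nat_lit 30533655648, nat_lit 31667914245, nat_lit 34256104424, nat_lit 35757360285], nat_lit 1271250, nat_lit 1271250, nat_lit 1271250, nat_lit 1271250,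 nat_lit 1100001, nat_lit 2607000, [nat_lit 780000, nat_lit 1435000, nat_lit 1271250], [nat_lit 23, nat_lit 40, nat_lit 40, nat_lit 80, nat_lit 12, nat_lit 538, nat_lit 300, nat_lit 13]⟩,
 zbF0, [⟨nat_lit 4, nat_lit 100, nat_lit 32, nat_lit 88, nat_lit 491988069⟩, ⟨nat_lit 19, nat_lit 100, nat_lit 80, nat_lit 100, nat_lit 8323236⟩, ⟨nat_lit 7, nat_lit 100, nat_lit 100, nat_lit 100, nat_lit 295813874⟩]⟩
noncomputable def p123_l49 : Lf2 := ⟨nat_lit 0, nat_lit 20, [nat_lit 5, nat_lit 5, nat_lit 5, nat_lit 20], false, nat_lit 8, nat_lit 248, nat_lit 0, nat_lit 160, ⟨nat_lit 1000, nat_lit 0, nat_lit 0, nat_lit 0, nat_lit 0, nat_lit 0, nat_lit 0, nat_lit 0, nat_lit 0, nat_lit 0, nat_lit 0, nat_lit 0, nat_lit 0, nat_lit 0, nat_lit 0, nat_lit 0, false, false⟩,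
 nat_lit 0, nat_lit 5683, nat_lit 0, nat_lit 0, nat_lit 4949, nat_lit 7006, nat_lit 418, nat_lit 0, nat_lit 0, nat_lit 769, nat_lit 0, nat_lit 0, nat_lit 0, nat_lit 0, nat_lit 0, nat_lit 0, nat_lit 0, nat_lit 0, [],
 ⟨p123_k14, nat_lit 0, nat_lit 0, nat_lit 519, nat_lit 0, nat_lit 957443, [nat_lit 938000000, nat_lit 3282000000, nat_lit 6250000000], [], [nat_lit 32009512155, nat_lit 33794068447, nat_lit 37561024713, nat_lit 39316447186, nat_lit 31948158939, nat_lit 33386133431, nat_lit 36590774453, nat_lit 37438066646], nat_lit 1271250, nat_lit 1271250, nat_lit 1033601, nat_lit 3070600, nat_lit 43600, nat_lit 1756600, [nat_lit 230000, nat_lit 780000, nat_lit 1435000], [nat_lit 20, nat_lit 40, nat_lit 40, nat_lit 80, nat_lit 16, nat_lit 401, nat_lit 175, nat_lit 15]⟩, ⟨p123_k1, nat_lit 0, nat_lit 0, nat_lit 239, nat_lit 0, nat_lit 0, [nat_lit 3282000000, nat_lit 6250000000, nat_lit 11872000000], [], [nat_lit 28968659001,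 nat_lit 31401081100, nat_lit 38492273095, nat_lit 40013555207, nat_lit 24678867081, nat_lit 26713195804, nat_lit 32228357467, nat_lit 33246361436], nat_lit 0, nat_lit 0, nat_lit 0, nat_lit 0, nat_lit 0, nat_lit 0, [], [nat_lit 23, nat_lit 40, nat_lit 40, nat_lit 80, nat_lit 12, nat_lit 456, nat_lit 225, nat_lit 12]⟩,
 zbF0, [⟨nat_lit 0, nat_lit 87, nat_lit 44, nat_lit 100, nat_lit 289250818⟩, ⟨nat_lit 4, nat_lit 100, nat_lit 44, nat_lit 87, nat_lit 421329883⟩]⟩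
noncomputable def p123_l50 : Lf2 := ⟨nat_lit 0, nat_lit 20, [nat_lit 5, nat_lit 5, nat_lit 5, nat_lit 20], false, nat_lit 8, nat_lit 248, nat_lit 160, nat_lit 336, ⟨nat_lit 853, nat_lit 147, nat_lit 0, nat_lit 7, nat_lit 287, nat_lit 147, nat_lit 96, nat_lit 0, nat_lit 0, nat_lit 0, nat_lit 0, nat_lit 0, nat_lit 0, nat_lit 0, nat_lit 0, nat_lit 5000000, false, false⟩,
 nat_lit 0, nat_lit 5885, nat_lit 0, nat_lit 0, nat_lit 5125, nat_lit 5964, nat_lit 319, nat_lit 0, nat_lit 0, nat_lit 0, nat_lit 0, nat_lit 0, nat_lit 0, nat_lit 0, nat_lit 0, nat_lit 147000, nat_lit 0, nat_lit 0, [(nat_lit 25, [(nat_lit 2, nat_lit 147)])],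
 ⟨p123_k14, nat_lit 0, nat_lit 0, nat_lit 440, nat_lit 0, nat_lit 798466, [nat_lit 1015968800, nat_lit 2743548800, nat_lit 4758126400], [], [nat_lit 25987718450, nat_lit 27004965931, nat_lit 37040510111, nat_lit 38455765500, nat_lit 25991705265, nat_lit 26824508565, nat_lit 35354663265, nat_lit 34120653761], nat_lit 1271250, nat_lit 1271250, nat_lit 1033601, nat_lit 3070600, nat_lit 43600, nat_lit 1756600, [nat_lit 230000, nat_lit 780000, nat_lit 1435000], [nat_lit 20, nat_lit 40, nat_lit 40, nat_lit 80, nat_lit 16, nat_lit 401, nat_lit 175, nat_lit 15]⟩, ⟨p123_k1, nat_lit 0, nat_lit 0, nat_lit 86, nat_lit 0, nat_lit 0, [nat_lit 2799546000, nat_lit 5331250000, nat_lit 10126816000], [], [nat_lit 13673489701, nat_lit 16779938002, nat_lit 25690126385, nat_lit 27250797390, nat_lit 21966207270, nat_lit 23929656607, nat_lit 29734200796, nat_lit 30953579741], nat_lit 0, nat_lit 0, nat_lit 0, nat_lit 0, nat_lit 0, nat_lit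 0, [], [nat_lit 23, nat_lit 40, nat_lit 40, nat_lit 80, nat_lit 12, nat_lit 538, nat_lit 300, nat_lit 13]⟩,
 ⟨nat_lit 2236, nat_lit 3163, ⟨.ofNat (nat_lit 515097), .ofNat (nat_lit 881194), .ofNat (nat_lit 559279), .ofNat (nat_lit 925504), .ofNat (nat_lit 522299), .ofNat (nat_lit 864770), .ofNat (nat_lit 567721), .ofNat (nat_lit 910319)⟩, ⟨.ofNat (nat_lit 20000), .ofNat (nat_lit 440213), .ofNat (nat_lit 20000), .ofNat (nat_lit 484523), .ofNat (nat_lit 20000), .ofNat (nat_lit 431772), .ofNat (nat_lit 20000), .ofNat (nat_lit 477320)⟩⟩, [⟨nat_lit 0, nat_lit 82, nat_lit 44, nat_lit 100, nat_lit 105129163⟩, ⟨nat_lit 16, nat_lit 53, nat_lit 100, nat_lit 87, nat_lit 135083194⟩, ⟨nat_lit 7, nat_lit 100, nat_lit 100, nat_lit 100, nat_lit 300059058⟩]⟩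
noncomputable def p123_l51 : Lf2 := ⟨nat_lit 0, nat_lit 20, [nat_lit 5, nat_lit 5, nat_lit 5, nat_lit 20], false, nat_lit 20, nat_lit 208, nat_lit 160, nat_lit 336, ⟨nat_lit 1000, nat_lit 0, nat_lit 0, nat_lit 0, nat_lit 0, nat_lit 0, nat_lit 0, nat_lit 0, nat_lit 0, nat_lit 0, nat_lit 0, nat_lit 0, nat_lit 0, nat_lit 0, nat_lit 0, nat_lit 0, false, false⟩,
 nat_lit 0, nat_lit 3947, nat_lit 0, nat_lit 0, nat_lit 3688, nat_lit 8251, nat_lit 519, nat_lit 0, nat_lit 0, nat_lit 0, nat_lit 0, nat_lit 0, nat_lit 0, nat_lit 0, nat_lit 0, nat_lit 0, nat_lit 0, nat_lit 0, [],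
 ⟨p123_k0, nat_lit 0, nat_lit 0, nat_lit 455, nat_lit 0, nat_lit 870873, [nat_lit 938000000, nat_lit 3282000000, nat_lit 6250000000], [], [nat_lit 24609168362, nat_lit 25935320527, nat_lit 32945181666, nat_lit 34189433972, nat_lit 25701297562, nat_lit 26516802527, nat_lit 31017968220, nat_lit 32047409338], nat_lit 1271250, nat_lit 1271250, nat_lit 1271250, nat_lit 1271250, nat_lit 111251, nat_lit 1474250, [nat_lit 230000, nat_lit 780000, nat_lit 1435000], [nat_lit 20, nat_lit 40, nat_lit 40, nat_lit 80, nat_lit 16, nat_lit 373, nat_lit 150, nat_lit 13]⟩, ⟨p123_k1, nat_lit 0, nat_lit 0, nat_lit 81, nat_lit 0, nat_lit 0, [nat_lit 3282000000, nat_lit 6250000000, nat_lit 11872000000], [], [nat_lit 15634598400, nat_lit 19375467352, nat_lit 29557219464, nat_lit 32209845594, nat_lit 25290619220, nat_lit 28284752387, nat_lit 35373727654, nat_lit 36972820077], nat_lit 0, nat_lit 0, nat_lit 0, nat_lit 0, nat_lit 0, nat_lit 0,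 [], [nat_lit 23, nat_lit 40, nat_lit 40, nat_lit 80, nat_lit 12, nat_lit 538, nat_lit 300, nat_lit 13]⟩,
 zbF0, [⟨nat_lit 4, nat_lit 100, nat_lit 32, nat_lit 88, nat_lit 376713767⟩, ⟨nat_lit 19, nat_lit 100, nat_lit 80, nat_lit 100, nat_lit 387457955⟩]⟩
noncomputable def p123_l52 : Lf2 := ⟨nat_lit 0, nat_lit 20, [nat_lit 5, nat_lit 5, nat_lit 5, nat_lit 20], false, nat_lit 8, nat_lit 160, nat_lit 0, nat_lit 336, ⟨nat_lit 425, nat_lit 575, nat_lit 0, nat_lit 7, nat_lit 287, nat_lit 575, nat_lit 70, nat_lit 0, nat_lit 0, nat_lit 0, nat_lit 0, nat_lit 0, nat_lit 0, nat_lit 0, nat_lit 0, nat_lit 5000000, false, false⟩,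
 nat_lit 4717, nat_lit 0, nat_lit 0, nat_lit 0, nat_lit 4108, nat_lit 3001, nat_lit 0, nat_lit 0, nat_lit 0, nat_lit 227, nat_lit 0, nat_lit 0, nat_lit 0, nat_lit 0, nat_lit 0, nat_lit 292400, nat_lit 0, nat_lit 0, [(nat_lit 25, [(nat_lit 1, nat_lit 471), (nat_lit 2, nat_lit 104)])],
 ⟨p123_k14, nat_lit 0, nat_lit 0, nat_lit 330, nat_lit 0, nat_lit 478680, [nat_lit 949264401, nat_lit 1827237734, nat_lit 2681834000], [], [nat_lit 25853884420, nat_lit 26953415375, nat_lit 34132975534, nat_lit 35399721343, nat_lit 25344305346, nat_lit 26271931103, nat_lit 32423152132, nat_lit 31975890039], nat_lit 1271250, nat_lit 1271250, nat_lit 1033601, nat_lit 3070600, nat_lit 43600, nat_lit 1100001, [nat_lit 230000, nat_lit 780000, nat_lit 1435000], [nat_lit 20, nat_lit 40, nat_lit 40, nat_lit 80, nat_lit 16, nat_lit 373, nat_lit 150, nat_lit 14]⟩, ⟨p123_k1, nat_lit 0, nat_lit 0, nat_lit 577, nat_lit 0, nat_lit 711993, [nat_lit 1394850000,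 nat_lit 2656250000, nat_lit 5045600000], [], [nat_lit 15383635137, nat_lit 15998343858, nat_lit 17568560113, nat_lit 17990069737, nat_lit 16949613960, nat_lit 15180604459, nat_lit 15727136348, nat_lit 15842904735], nat_lit 1271250, nat_lit 1271250, nat_lit 1271250, nat_lit 1271250, nat_lit 0, nat_lit 2373000, [nat_lit 780000, nat_lit 1435000, nat_lit 1271250], [nat_lit 23, nat_lit 40, nat_lit 40, nat_lit 80, nat_lit 12, nat_lit 538, nat_lit 300, nat_lit 14]⟩,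
 ⟨nat_lit 2236, nat_lit 3163, ⟨.ofNat (nat_lit 515097), .ofNat (nat_lit 881194), .ofNat (nat_lit 559279), .ofNat (nat_lit 925504), .ofNat (nat_lit 522299), .ofNat (nat_lit 864770), .ofNat (nat_lit 567721), .ofNat (nat_lit 910319)⟩, ⟨.ofNat (nat_lit 20000), .ofNat (nat_lit 306116), .ofNat (nat_lit 20000), .ofNat (nat_lit 350426), .ofNat (nat_lit 20000), .ofNat (nat_lit 306337), .ofNat (nat_lit 20000), .ofNat (nat_lit 351886)⟩⟩, [⟨nat_lit 7, nat_lit 100, nat_lit 100, nat_lit 100, nat_lit 23903095⟩, ⟨nat_lit 22, nat_lit 100, nat_lit 89, nat_lit 87, nat_lit 28212881⟩]⟩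
noncomputable def p123_l53 : Lf2 := ⟨nat_lit 0, nat_lit 20, [nat_lit 5, nat_lit 5, nat_lit 5, nat_lit 20], false, nat_lit 20, nat_lit 160, nat_lit 0, nat_lit 336, ⟨nat_lit 333, nat_lit 667, nat_lit 0, nat_lit 7, nat_lit 293, nat_lit 667, nat_lit 75, nat_lit 0, nat_lit 0, nat_lit 0, nat_lit 0, nat_lit 0, nat_lit 0, nat_lit 0, nat_lit 0, nat_lit 5000000, true, false⟩,
 nat_lit 3725, nat_lit 0, nat_lit 0, nat_lit 0, nat_lit 3213, nat_lit 2370, nat_lit 55, nat_lit 0, nat_lit 0, nat_lit 206, nat_lit 0, nat_lit 0, nat_lit 0, nat_lit 0, nat_lit 0, nat_lit 266800, nat_lit 0, nat_lit 0, [(nat_lit 28, [(nat_lit 1, nat_lit 667)])],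
 ⟨p123_k0, nat_lit 0, nat_lit 0, nat_lit 338, nat_lit 0, nat_lit 526718, [nat_lit 777653200, nat_lit 1309547600, nat_lit 2173296000], [], [nat_lit 24564368908, nat_lit 25629707096, nat_lit 31638269279, nat_lit 32809229322, nat_lit 25003975804, nat_lit 25928080855, nat_lit 30085337195, nat_lit 30753810480], nat_lit 1271250, nat_lit 1271250, nat_lit 1271250, nat_lit 1271250, nat_lit 111251, nat_lit 1100001, [nat_lit 230000, nat_lit 780000, nat_lit 1435000], [nat_lit 20, nat_lit 40, nat_lit 40, nat_lit 80, nat_lit 16, nat_lit 373, nat_lit 150, nat_lit 13]⟩, ⟨p123_k1, nat_lit 0, nat_lit 0, nat_lit 659, nat_lit 0, nat_lit 853753, [nat_lit 1092906000, nat_lit 2081250000, nat_lit 3953376000], [], [nat_lit 11786799503, nat_lit 12233478897, nat_lit 13296486882, nat_lit 13582591380, nat_lit 11237917672, nat_lit 11459691332, nat_lit 11892348730, nat_lit 11991725880], nat_lit 1271250, nat_lit 1271250, nat_lit 1271250, nat_lit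 1271250, nat_lit 0, nat_lit 2373000, [nat_lit 780000, nat_lit 1435000, nat_lit 1271250], [nat_lit 23, nat_lit 40, nat_lit 40, nat_lit 80, nat_lit 12, nat_lit 538, nat_lit 300, nat_lit 13]⟩,
 ⟨nat_lit 0, nat_lit 2237, ⟨.ofNat (nat_lit 575619), .ofNat (nat_lit 847661), .ofNat (nat_lit 619314), .ofNat (nat_lit 893212), .ofNat (nat_lit 585925), .ofNat (nat_lit 824994), .ofNat (nat_lit 634072), .ofNat (nat_lit 874997)⟩, ⟨.ofNat (nat_lit 50000), .ofNat (nat_lit 306334), .ofNat (nat_lit 50000), .ofNat (nat_lit 351885), .ofNat (nat_lit 50000), .ofNat (nat_lit 299996), .ofNat (nat_lit 50000), .ofNat (nat_lit 349998)⟩⟩, [⟨nat_lit 13, nat_lit 36, nat_lit 77, nat_lit 100, nat_lit 221220139⟩, ⟨nat_lit 7, nat_lit 100, nat_lit 100, nat_lit 100, nat_lit 32821672⟩, ⟨nat_lit 10, nat_lit 79, nat_lit 97, nat_lit 100, nat_lit 6425234⟩]⟩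
noncomputable def p123_l54 : Lf2 := ⟨nat_lit 0, nat_lit 20, [nat_lit 5, nat_lit 5, nat_lit 5, nat_lit 20], false, nat_lit 160, nat_lit 248, nat_lit 0, nat_lit 336, ⟨nat_lit 426, nat_lit 574, nat_lit 0, nat_lit 7, nat_lit 278, nat_lit 574, nat_lit 155, nat_lit 0, nat_lit 0, nat_lit 0, nat_lit 0, nat_lit 0, nat_lit 0, nat_lit 0, nat_lit 0, nat_lit 5000000, false, false⟩,
 nat_lit 4800, nat_lit 0, nat_lit 0, nat_lit 0, nat_lit 4180, nat_lit 3054, nat_lit 0, nat_lit 0, nat_lit 0, nat_lit 188, nat_lit 0, nat_lit 0, nat_lit 0, nat_lit 0, nat_lit 0, nat_lit 327400, nat_lit 0, nat_lit 0, [(nat_lit 25, [(nat_lit 1, nat_lit 411), (nat_lit 2, nat_lit 163)]), (nat_lit 28, [(nat_lit 1, nat_lit 411), (nat_lit 2, nat_lit 163)])],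
 ⟨p123_k14, nat_lit 0, nat_lit 0, nat_lit 257, nat_lit 0, nat_lit 526963, [nat_lit 986150001, nat_lit 1747916667, nat_lit 2403142800], [], [nat_lit 23737788877, nat_lit 25885783280, nat_lit 30229362208, nat_lit 32485694897, nat_lit 25454538693, nat_lit 27492852549, nat_lit 31464160988, nat_lit 33470336845], nat_lit 1271250, nat_lit 1271250, nat_lit 1033601, nat_lit 3002700, nat_lit 1100001, nat_lit 1853500, [nat_lit 230000, nat_lit 780000, nat_lit 1435000], [nat_lit 20, nat_lit 40, nat_lit 40, nat_lit 80, nat_lit 16, nat_lit 401, nat_lit 175, nat_lit 14]⟩, ⟨p123_k1, nat_lit 0, nat_lit 0, nat_lit 648, nat_lit 0, nat_lit 783809, [nat_lit 1398132000, nat_lit 2662500000, nat_lit 5057472000], [], [nat_lit 15668767510, nat_lit 15978536984, nat_lit 17734327928, nat_lit 17898702910, nat_lit 16977520984, nat_lit 15598041400, nat_lit 15881808154, nat_lit 15942243386], nat_lit 1271250, nat_lit 1271250, nat_lit 1271250, nat_lit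 1271250, nat_lit 0, nat_lit 2373000, [nat_lit 780000, nat_lit 1435000, nat_lit 1271250], [nat_lit 23, nat_lit 40, nat_lit 40, nat_lit 80, nat_lit 12, nat_lit 538, nat_lit 300, nat_lit 14]⟩,
 ⟨nat_lit 0, nat_lit 3163, ⟨.ofNat (nat_lit 507176), .ofNat (nat_lit 869001), .ofNat (nat_lit 528026), .ofNat (nat_lit 891156), .ofNat (nat_lit 531701), .ofNat (nat_lit 829996), .ofNat (nat_lit 555396), .ofNat (nat_lit 854997)⟩, ⟨.ofNat (nat_lit 306113), .ofNat (nat_lit 440207), .ofNat (nat_lit 350425), .ofNat (nat_lit 484518), .ofNat (nat_lit 299996), .ofNat (nat_lit 409993), .ofNat (nat_lit 349998), .ofNat (nat_lit 459993)⟩⟩, [⟨nat_lit 16, nat_lit 62, nat_lit 100, nat_lit 94, nat_lit 192025355⟩, ⟨nat_lit 4, nat_lit 100, nat_lit 44, nat_lit 87, nat_lit 257073470⟩, ⟨nat_lit 19, nat_lit 100, nat_lit 80, nat_lit 100, nat_lit 51295654⟩]⟩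
noncomputable def p123_l55 : Lf2 := ⟨nat_lit 0, nat_lit 20, [nat_lit 5, nat_lit 5, nat_lit 5, nat_lit 20], false, nat_lit 160, nat_lit 248, nat_lit 0, nat_lit 320, ⟨nat_lit 661, nat_lit 339, nat_lit 0, nat_lit 7, nat_lit 297, nat_lit 339, nat_lit 155, nat_lit 0, nat_lit 0, nat_lit 0, nat_lit 0, nat_lit 0, nat_lit 0, nat_lit 0, nat_lit 0, nat_lit 5000000, true, false⟩,
 nat_lit 6509, nat_lit 0, nat_lit 0, nat_lit 0, nat_lit 4757, nat_lit 4506, nat_lit 66, nat_lit 0, nat_lit 0, nat_lit 319, nat_lit 0, nat_lit 0, nat_lit 0, nat_lit 0, nat_lit 0, nat_lit 339000, nat_lit 0, nat_lit 0, [(nat_lit 25, [(nat_lit 2, nat_lit 339)]), (nat_lit 28, [(nat_lit 2, nat_lit 339)])],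
 ⟨p123_k14, nat_lit 0, nat_lit 0, nat_lit 282, nat_lit 0, nat_lit 573986, [nat_lit 1117805601, nat_lit 2040265601, nat_lit 2809556800], [], [nat_lit 22936699044, nat_lit 25094058936, nat_lit 31475948835, nat_lit 33876809468, nat_lit 24402028015, nat_lit 26994005953, nat_lit 32598712831, nat_lit 34670933378], nat_lit 1271250, nat_lit 1271250, nat_lit 1236400, nat_lit 3118301, nat_lit 1100001, nat_lit 1853500, [nat_lit 230000, nat_lit 780000, nat_lit 1435000], [nat_lit 20, nat_lit 40, nat_lit 40, nat_lit 80, nat_lit 16, nat_lit 401, nat_lit 175, nat_lit 14]⟩, ⟨p123_k15, nat_lit 0, nat_lit 0, nat_lit 552, nat_lit 0, nat_lit 765714, [nat_lit 2169402000, nat_lit 4131250000, nat_lit 6505562000], [], [nat_lit 21607078107, nat_lit 22114362185, nat_lit 25723115111, nat_lit 26291866415, nat_lit 20763438274, nat_lit 21041779679, nat_lit 23013786007, nat_lit 23333086533], nat_lit 1271250, nat_lit 1271250, nat_lit 1271250, nat_lit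 1271250, nat_lit 0, nat_lit 2260000, [nat_lit 780000, nat_lit 1435000, nat_lit 1271250], [nat_lit 8, nat_lit 40, nat_lit 40, nat_lit 80, nat_lit 1, nat_lit 428, nat_lit 200, nat_lit 12]⟩,
 ⟨nat_lit 0, nat_lit 3163, ⟨.ofNat (nat_lit 566138), .ofNat (nat_lit 903347), .ofNat (nat_lit 586988), .ofNat (nat_lit 925502), .ofNat (nat_lit 586935), .ofNat (nat_lit 864997), .ofNat (nat_lit 610631), .ofNat (nat_lit 889997)⟩, ⟨.ofNat (nat_lit 306113), .ofNat (nat_lit 440207), .ofNat (nat_lit 350425), .ofNat (nat_lit 484518), .ofNat (nat_lit 299996), .ofNat (nat_lit 409993), .ofNat (nat_lit 349998), .ofNat (nat_lit 459993)⟩⟩, [⟨nat_lit 4, nat_lit 100, nat_lit 44, nat_lit 87, nat_lit 577478278⟩, ⟨nat_lit 7, nat_lit 100, nat_lit 93, nat_lit 97, nat_lit 84738241⟩]⟩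
noncomputable def b_V_900_700_20_24 : St := ⟨true, nat_lit 1, nat_lit 2, nat_lit 0, nat_lit 120, nat_lit 360, nat_lit 400, nat_lit 280, nat_lit 320, nat_lit 152, nat_lit 392, nat_lit 80, nat_lit 120, nat_lit 8, nat_lit 248, nat_lit 0, nat_lit 336, nat_lit 40, nat_lit 80, nat_lit 0, nat_lit 0, nat_lit 0, nat_lit 0⟩
theorem d_V_900_700_20_24 (h : EB TB.env) : Dead b_V_900_700_20_24 := chkB_sound0 h (T :=
(.gv
(.st (nat_lit 1)
(.spl (nat_lit 5) (nat_lit 160)
(.leaf p123_l38)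
(.spl (nat_lit 0) (nat_lit 380)
(.leaf p123_l39)
(.trZ (nat_lit 0) (nat_lit 92) (nat_lit 44) (nat_lit 100) (nat_lit 192) (.trX (nat_lit 13) (nat_lit 54) (nat_lit 57) (nat_lit 100) (nat_lit 380) (.trZ (nat_lit 3) (nat_lit 100) (nat_lit 54) (nat_lit 57) (nat_lit 20) (.trX (nat_lit 16) (nat_lit 44) (nat_lit 100) (nat_lit 92) (nat_lit 208) (.leaf p123_l40)))))))
(.spl (nat_lit 2) (nat_lit 240)
(.spl (nat_lit 5) (nat_lit 160)
(.leaf p123_l41)
(.spl (nat_lit 4) (nat_lit 160)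
(.leaf p123_l42)
(.leaf p123_l43)))
(.spl (nat_lit 0) (nat_lit 380)
(.spl (nat_lit 5) (nat_lit 160)
(.leaf p123_l44)
(.spl (nat_lit 0) (nat_lit 370)
(.leaf p123_l45)
(.trX (nat_lit 13) (nat_lit 66) (nat_lit 45) (nat_lit 100) (nat_lit 388) (.trZ (nat_lit 3) (nat_lit 100) (nat_lit 66) (nat_lit 45) (nat_lit 12) (.trX (nat_lit 16) (nat_lit 53) (nat_lit 100) (nat_lit 93) (nat_lit 232) (.leaf p123_l46))))))
(.trX (nat_lit 13) (nat_lit 54) (nat_lit 57) (nat_lit 100) (nat_lit 380) (.trZ (nat_lit 3) (nat_lit 100) (nat_lit 54) (nat_lit 57) (nat_lit 20) (.trX (nat_lit 16) (nat_lit 44) (nat_lit 100) (nat_lit 92) (nat_lit 208) (.spl (nat_lit 5) (nat_lit 160)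
(.leaf p123_l47)
(.leaf p123_l48))))))))
(.st (nat_lit 1)
(.spl (nat_lit 5) (nat_lit 160)
(.leaf p123_l49)
(.spl (nat_lit 0) (nat_lit 380)
(.leaf p123_l50)
(.trZ (nat_lit 0) (nat_lit 92) (nat_lit 44) (nat_lit 100) (nat_lit 192) (.trX (nat_lit 13) (nat_lit 54) (nat_lit 57) (nat_lit 100) (nat_lit 380) (.trZ (nat_lit 3) (nat_lit 100) (nat_lit 54) (nat_lit 57) (nat_lit 20) (.trX (nat_lit 16) (nat_lit 44) (nat_lit 100) (nat_lit 92) (nat_lit 208) (.leaf p123_l51)))))))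
(.spl (nat_lit 4) (nat_lit 160)
(.spl (nat_lit 0) (nat_lit 380)
(.leaf p123_l52)
(.trZ (nat_lit 0) (nat_lit 92) (nat_lit 44) (nat_lit 100) (nat_lit 192) (.trX (nat_lit 13) (nat_lit 54) (nat_lit 57) (nat_lit 100) (nat_lit 380) (.trZ (nat_lit 3) (nat_lit 100) (nat_lit 54) (nat_lit 57) (nat_lit 20) (.leaf p123_l53)))))
(.spl (nat_lit 1) (nat_lit 300)
(.trX (nat_lit 13) (nat_lit 69) (nat_lit 45) (nat_lit 100) (nat_lit 384) (.leaf p123_l54))
(.trZ (nat_lit 0) (nat_lit 87) (nat_lit 60) (nat_lit 100) (nat_lit 176) (.trX (nat_lit 19) (nat_lit 94) (nat_lit 88) (nat_lit 100) (nat_lit 320) (.leaf p123_l55)))))))) (by decide +kernel)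
noncomputable def p123_l56 : Lf2 := ⟨nat_lit 0, nat_lit 30, [nat_lit 15, nat_lit 5, nat_lit 5, nat_lit 20], false, nat_lit 8, nat_lit 248, nat_lit 0, nat_lit 160, ⟨nat_lit 1000, nat_lit 0, nat_lit 0, nat_lit 0, nat_lit 0, nat_lit 0, nat_lit 0, nat_lit 0, nat_lit 0, nat_lit 0, nat_lit 0, nat_lit 0, nat_lit 0, nat_lit 0, nat_lit 0, nat_lit 0, false, false⟩,
 nat_lit 0, nat_lit 0, nat_lit 0, nat_lit 4000, nat_lit 6713, nat_lit 8047, nat_lit 432, nat_lit 0, nat_lit 0, nat_lit 703, nat_lit 0, nat_lit 0, nat_lit 0, nat_lit 0, nat_lit 0, nat_lit 0, nat_lit 0, nat_lit 0, [],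
 ⟨p123_k25, nat_lit 0, nat_lit 0, nat_lit 217, nat_lit 0, nat_lit 0, [nat_lit 938000000, nat_lit 4688000000, nat_lit 9842000000], [], [nat_lit 28876235909, nat_lit 33161487837, nat_lit 41580495270, nat_lit 44874788183, nat_lit 25916892334, nat_lit 28839427246, nat_lit 34991295004, nat_lit 37442942309], nat_lit 0, nat_lit 0, nat_lit 0, nat_lit 0, nat_lit 0, nat_lit 0, [], [nat_lit 81, nat_lit 40, nat_lit 40, nat_lit 80, nat_lit 13, nat_lit 401, nat_lit 175, nat_lit 11]⟩, ⟨p123_k26, nat_lit 0, nat_lit 0, nat_lit 276, nat_lit 0, nat_lit 0, [nat_lit 3282000000, nat_lit 7968000000, nat_lit 14058000000], [], [nat_lit 33234785464, nat_lit 35287056213, nat_lit 40849367166, nat_lit 42836530086, nat_lit 27152214828, nat_lit 28865590692, nat_lit 34184275232, nat_lit 35405902624], nat_lit 0, nat_lit 0, nat_lit 0, nat_lit 0, nat_lit 0, nat_lit 0, [], [nat_lit 84, nat_lit 40, nat_lit 40, nat_lit 80, nat_lit 28, nat_lit 456, nat_lit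 225, nat_lit 10]⟩,
 zbF0, [⟨nat_lit 0, nat_lit 87, nat_lit 44, nat_lit 100, nat_lit 220989090⟩, ⟨nat_lit 4, nat_lit 100, nat_lit 44, nat_lit 87, nat_lit 39351360⟩]⟩
noncomputable def p123_l57 : Lf2 := ⟨nat_lit 0, nat_lit 30, [nat_lit 15, nat_lit 5, nat_lit 5, nat_lit 20], false, nat_lit 8, nat_lit 248, nat_lit 160, nat_lit 336, ⟨nat_lit 1000, nat_lit 0, nat_lit 0, nat_lit 0, nat_lit 0, nat_lit 0, nat_lit 0, nat_lit 0, nat_lit 0, nat_lit 0, nat_lit 0, nat_lit 0, nat_lit 0, nat_lit 0, nat_lit 0, nat_lit 0, false, false⟩,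
 nat_lit 0, nat_lit 0, nat_lit 0, nat_lit 0, nat_lit 6679, nat_lit 10842, nat_lit 343, nat_lit 0, nat_lit 0, nat_lit 0, nat_lit 0, nat_lit 0, nat_lit 0, nat_lit 0, nat_lit 0, nat_lit 0, nat_lit 0, nat_lit 0, [],
 ⟨p123_k25, nat_lit 0, nat_lit 0, nat_lit 217, nat_lit 0, nat_lit 0, [nat_lit 938000000, nat_lit 4688000000, nat_lit 9842000000], [], [nat_lit 30224284691, nat_lit 34260042647, nat_lit 41483291557, nat_lit 44767654626, nat_lit 27341131683, nat_lit 30213777517, nat_lit 34949706153, nat_lit 37394758104], nat_lit 0, nat_lit 0, nat_lit 0, nat_lit 0, nat_lit 0, nat_lit 0, [], [nat_lit 81, nat_lit 40, nat_lit 40, nat_lit 80, nat_lit 13, nat_lit 401, nat_lit 175, nat_lit 11]⟩, ⟨p123_k26, nat_lit 0, nat_lit 0, nat_lit 101, nat_lit 0, nat_lit 0, [nat_lit 3282000000, nat_lit 7968000000, nat_lit 14058000000], [], [nat_lit 15298604986, nat_lit 19721445549, nat_lit 33617021853, nat_lit 36541091529, nat_lit 26156529116,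 nat_lit 30010293265, nat_lit 39247951604, nat_lit 40907089857], nat_lit 0, nat_lit 0, nat_lit 0, nat_lit 0, nat_lit 0, nat_lit 0, [], [nat_lit 84, nat_lit 40, nat_lit 40, nat_lit 80, nat_lit 28, nat_lit 538, nat_lit 300, nat_lit 12]⟩,
 zbF0, [⟨nat_lit 4, nat_lit 100, nat_lit 44, nat_lit 87, nat_lit 42524529⟩, ⟨nat_lit 19, nat_lit 100, nat_lit 80, nat_lit 100, nat_lit 388371728⟩]⟩
noncomputable def b_V_900_700_20_25 : St := ⟨true, nat_lit 0, nat_lit 0, nat_lit 1, nat_lit 120, nat_lit 360, nat_lit 400, nat_lit 280, nat_lit 320, nat_lit 152, nat_lit 392, nat_lit 80, nat_lit 120, nat_lit 8, nat_lit 248, nat_lit 0, nat_lit 336, nat_lit 80, nat_lit 120, nat_lit 0, nat_lit 0, nat_lit 0, nat_lit 0⟩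
theorem d_V_900_700_20_25 (h : EB TB.env) : Dead b_V_900_700_20_25 := chkB_sound0 h (T :=
(.spl (nat_lit 5) (nat_lit 160)
(.leaf p123_l56)
(.leaf p123_l57))) (by decide +kernel)
noncomputable def p123_l58 : Lf2 := ⟨nat_lit 0, nat_lit 25, [nat_lit 44, nat_lit 5, nat_lit 5, nat_lit 20], false, nat_lit 8, nat_lit 160, nat_lit 0, nat_lit 160, ⟨nat_lit 244, nat_lit 0, nat_lit 756, nat_lit 7, nat_lit 238, nat_lit 756, nat_lit 67, nat_lit 756, nat_lit 43350, nat_lit 266, nat_lit 71778, nat_lit 200, nat_lit 47342686, nat_lit 0, nat_lit 0, nat_lit 3740493, false, false⟩,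
 nat_lit 0, nat_lit 0, nat_lit 3093, nat_lit 0, nat_lit 2366, nat_lit 1968, nat_lit 79, nat_lit 0, nat_lit 0, nat_lit 216, nat_lit 0, nat_lit 0, nat_lit 0, nat_lit 0, nat_lit 29, nat_lit 248550, nat_lit 0, nat_lit 0, [(nat_lit 26, [(nat_lit 4, nat_lit 359), (nat_lit 5, nat_lit 397)])],
 ⟨p123_k27, nat_lit 0, nat_lit 0, nat_lit 162, nat_lit 0, nat_lit 0, [nat_lit 895716401, nat_lit 784547601, nat_lit 14046800], [], [nat_lit 19882862136, nat_lit 21077729744, nat_lit 22069360614, nat_lit 23153551267, nat_lit 20497359552, nat_lit 21474880565, nat_lit 22421051019, nat_lit 23370076336], nat_lit 0, nat_lit 0, nat_lit 0, nat_lit 0, nat_lit 0, nat_lit 0, [], [nat_lit 54, nat_lit 40, nat_lit 40, nat_lit 80, nat_lit 43, nat_lit 317, nat_lit 100, nat_lit 10]⟩, ⟨p123_k28, nat_lit 0, nat_lit 0, nat_lit 606, nat_lit 0, nat_lit 738735, [nat_lit 800808000, nat_lit 1525000000, nat_lit 2896768000], [], [nat_lit 8539837834, nat_lit 7511813674,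 nat_lit 7473779352, nat_lit 7625415120, nat_lit 6165967129, nat_lit 6316671221, nat_lit 6894158368, nat_lit 6483054480], nat_lit 1271250, nat_lit 1271250, nat_lit 1033601, nat_lit 1780500, nat_lit 0, nat_lit 1100001, [nat_lit 780000, nat_lit 1435000, nat_lit 1271250], [nat_lit 23, nat_lit 40, nat_lit 40, nat_lit 80, nat_lit 12, nat_lit 401, nat_lit 175, nat_lit 10]⟩,
 ⟨nat_lit 2236, nat_lit 3163, ⟨.ofNat (nat_lit 515097), .ofNat (nat_lit 649422), .ofNat (nat_lit 537188), .ofNat (nat_lit 671514), .ofNat (nat_lit 522299), .ofNat (nat_lit 647962), .ofNat (nat_lit 545010), .ofNat (nat_lit 670673)⟩, ⟨.ofNat (nat_lit 20000), .ofNat (nat_lit 306116), .ofNat (nat_lit 20000), .ofNat (nat_lit 328271), .ofNat (nat_lit 20000), .ofNat (nat_lit 306337), .ofNat (nat_lit 20000), .ofNat (nat_lit 329112)⟩⟩, [⟨nat_lit 0, nat_lit 87, nat_lit 44, nat_lit 100, nat_lit 2220772⟩]⟩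
noncomputable def p123_l59 : Lf2 := ⟨nat_lit 0, nat_lit 30, [nat_lit 15, nat_lit 5, nat_lit 5, nat_lit 20], false, nat_lit 16, nat_lit 160, nat_lit 0, nat_lit 160, ⟨nat_lit 1000, nat_lit 0, nat_lit 0, nat_lit 0, nat_lit 0, nat_lit 0, nat_lit 0, nat_lit 0, nat_lit 0, nat_lit 0, nat_lit 0, nat_lit 0, nat_lit 0, nat_lit 0, nat_lit 0, nat_lit 0, false, false⟩,
 nat_lit 0, nat_lit 0, nat_lit 10414, nat_lit 0, nat_lit 5378, nat_lit 6626, nat_lit 598, nat_lit 0, nat_lit 0, nat_lit 929, nat_lit 0, nat_lit 0, nat_lit 0, nat_lit 0, nat_lit 0, nat_lit 0, nat_lit 0, nat_lit 0, [],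
 ⟨p123_k29, nat_lit 0, nat_lit 0, nat_lit 183, nat_lit 0, nat_lit 0, [nat_lit 938000000, nat_lit 3282000000, nat_lit 9842000000], [], [nat_lit 25188090395, nat_lit 26941220976, nat_lit 26998795006, nat_lit 29127908189, nat_lit 22378275179, nat_lit 23730222273, nat_lit 23881818108, nat_lit 25134297548], nat_lit 0, nat_lit 0, nat_lit 0, nat_lit 0, nat_lit 0, nat_lit 0, [], [nat_lit 93, nat_lit 40, nat_lit 40, nat_lit 80, nat_lit 63, nat_lit 317, nat_lit 100, nat_lit 9]⟩, ⟨p123_k30, nat_lit 0, nat_lit 0, nat_lit 596, nat_lit 0, nat_lit 570338, [nat_lit 3282000000, nat_lit 6250000000, nat_lit 14058000000], [], [nat_lit 34023507060, nat_lit 32957209307, nat_lit 33081700670, nat_lit 33750699994, nat_lit 28192166983, nat_lit 28862611548, nat_lit 30113168048, nat_lit 29450462646], nat_lit 1271250, nat_lit 1271250, nat_lit 1033601, nat_lit 1780500, nat_lit 0, nat_lit 1100001, [nat_lit 780000, nat_lit 1435000, nat_lit 1271250],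 [nat_lit 71, nat_lit 40, nat_lit 40, nat_lit 80, nat_lit 68, nat_lit 401, nat_lit 175, nat_lit 9]⟩,
 zbF0, [⟨nat_lit 0, nat_lit 87, nat_lit 44, nat_lit 100, nat_lit 898212321⟩]⟩
noncomputable def p123_l60 : Lf2 := ⟨nat_lit 0, nat_lit 25, [nat_lit 44, nat_lit 5, nat_lit 5, nat_lit 20], false, nat_lit 8, nat_lit 80, nat_lit 160, nat_lit 320, ⟨nat_lit 165, nat_lit 0, nat_lit 835, nat_lit 7, nat_lit 226, nat_lit 835, nat_lit 43, nat_lit 835, nat_lit 17067, nat_lit 247, nat_lit 4943, nat_lit 208, nat_lit 49626980, nat_lit 0, nat_lit 0, nat_lit 3299142, false, false⟩,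
 nat_lit 0, nat_lit 0, nat_lit 2087, nat_lit 0, nat_lit 2483, nat_lit 1327, nat_lit 58, nat_lit 0, nat_lit 0, nat_lit 126, nat_lit 0, nat_lit 0, nat_lit 0, nat_lit 0, nat_lit 35, nat_lit 208750, nat_lit 0, nat_lit 0, [(nat_lit 26, [(nat_lit 4, nat_lit 835)])],
 ⟨p123_k27, nat_lit 0, nat_lit 0, nat_lit 162, nat_lit 0, nat_lit 0, [nat_lit 902650001, nat_lit 678298001, nat_lit 6766000], [], [nat_lit 19858701034, nat_lit 21119384543, nat_lit 20916920448, nat_lit 22078782533, nat_lit 19319417387, nat_lit 20495448830, nat_lit 20365266340, nat_lit 21464938086], nat_lit 0, nat_lit 0, nat_lit 0, nat_lit 0, nat_lit 0, nat_lit 0, [], [nat_lit 54, nat_lit 40, nat_lit 40, nat_lit 80, nat_lit 43, nat_lit 289, nat_lit 75, nat_lit 9]⟩, ⟨p123_k28, nat_lit 0, nat_lit 0, nat_lit 498, nat_lit 0, nat_lit 738735, [nat_lit 541530000, nat_lit 1031250000, nat_lit 1958880000], [], [nat_lit 4308926540, nat_lit 4405555926, nat_lit 4284268972,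 nat_lit 4371109484, nat_lit 4619264239, nat_lit 4700525522, nat_lit 5184372460, nat_lit 4626657600], nat_lit 1271250, nat_lit 1271250, nat_lit 1033601, nat_lit 1441000, nat_lit 1100001, nat_lit 2470000, [nat_lit 780000, nat_lit 1435000, nat_lit 1271250], [nat_lit 23, nat_lit 40, nat_lit 40, nat_lit 80, nat_lit 12, nat_lit 456, nat_lit 225, nat_lit 11]⟩,
 ⟨nat_lit 2236, nat_lit 3163, ⟨.ofNat (nat_lit 515097), .ofNat (nat_lit 588366), .ofNat (nat_lit 537188), .ofNat (nat_lit 610457), .ofNat (nat_lit 522299), .ofNat (nat_lit 590843), .ofNat (nat_lit 545010), .ofNat (nat_lit 613554)⟩, ⟨.ofNat (nat_lit 20000), .ofNat (nat_lit 184209), .ofNat (nat_lit 20000), .ofNat (nat_lit 200000), .ofNat (nat_lit 20000), .ofNat (nat_lit 192306), .ofNat (nat_lit 20000), .ofNat (nat_lit 200000)⟩⟩, [⟨nat_lit 0, nat_lit 87, nat_lit 44, nat_lit 100, nat_lit 65800762⟩, ⟨nat_lit 3, nat_lit 100, nat_lit 63, nat_lit 50, nat_lit 182183583⟩, ⟨nat_lit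 19, nat_lit 100, nat_lit 97, nat_lit 94, nat_lit 47931152⟩]⟩
noncomputable def p123_l61 : Lf2 := ⟨nat_lit 0, nat_lit 25, [nat_lit 44, nat_lit 5, nat_lit 5, nat_lit 20], false, nat_lit 8, nat_lit 80, nat_lit 160, nat_lit 320, ⟨nat_lit 192, nat_lit 0, nat_lit 808, nat_lit 7, nat_lit 250, nat_lit 808, nat_lit 43, nat_lit 808, nat_lit 17067, nat_lit 247, nat_lit 49688, nat_lit 200, nat_lit 47141506, nat_lit 0, nat_lit 0, nat_lit 3486174, true, false⟩,
 nat_lit 0, nat_lit 0, nat_lit 2409, nat_lit 0, nat_lit 2488, nat_lit 1533, nat_lit 61, nat_lit 0, nat_lit 0, nat_lit 155, nat_lit 0, nat_lit 0, nat_lit 0, nat_lit 0, nat_lit 24, nat_lit 202000, nat_lit 0, nat_lit 0, [(nat_lit 26, [(nat_lit 4, nat_lit 808)])],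
 ⟨p123_k27, nat_lit 0, nat_lit 0, nat_lit 158, nat_lit 0, nat_lit 0, [nat_lit 864320001, nat_lit 644070401, nat_lit 27356800], [], [nat_lit 21175770345, nat_lit 22334014853, nat_lit 22323886793, nat_lit 23413715023, nat_lit 20620767445, nat_lit 21721322501, nat_lit 21735839925, nat_lit 22769096565], nat_lit 0, nat_lit 0, nat_lit 0, nat_lit 0, nat_lit 0, nat_lit 0, [], [nat_lit 54, nat_lit 40, nat_lit 40, nat_lit 80, nat_lit 43, nat_lit 317, nat_lit 100, nat_lit 10]⟩, ⟨p123_k28, nat_lit 0, nat_lit 0, nat_lit 408, nat_lit 0, nat_lit 671617, [nat_lit 630144000, nat_lit 1200000000, nat_lit 2279424000], [], [nat_lit 4856139222, nat_lit 4906593135, nat_lit 4909936074, nat_lit 4955172990, nat_lit 5242345749, nat_lit 5288289915, nat_lit 5283568413, nat_lit 5337553215], nat_lit 1271250, nat_lit 1271250, nat_lit 1271250, nat_lit 1271250, nat_lit 1100001, nat_lit 2470000, [nat_lit 780000, nat_lit 1435000, nat_lit 1271250], [nat_lit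 23, nat_lit 40, nat_lit 40, nat_lit 80, nat_lit 12, nat_lit 456, nat_lit 225, nat_lit 11]⟩,
 ⟨nat_lit 2236, nat_lit 3163, ⟨.ofNat (nat_lit 588366), .ofNat (nat_lit 649422), .ofNat (nat_lit 599411), .ofNat (nat_lit 660469), .ofNat (nat_lit 590843), .ofNat (nat_lit 647962), .ofNat (nat_lit 602198), .ofNat (nat_lit 659318)⟩, ⟨.ofNat (nat_lit 20000), .ofNat (nat_lit 184209), .ofNat (nat_lit 20000), .ofNat (nat_lit 200000), .ofNat (nat_lit 20000), .ofNat (nat_lit 192306), .ofNat (nat_lit 20000), .ofNat (nat_lit 200000)⟩⟩, [⟨nat_lit 3, nat_lit 100, nat_lit 50, nat_lit 65, nat_lit 70186365⟩, ⟨nat_lit 22, nat_lit 100, nat_lit 84, nat_lit 63, nat_lit 87361098⟩]⟩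
noncomputable def p123_l62 : Lf2 := ⟨nat_lit 0, nat_lit 25, [nat_lit 44, nat_lit 5, nat_lit 5, nat_lit 20], false, nat_lit 8, nat_lit 80, nat_lit 160, nat_lit 312, ⟨nat_lit 285, nat_lit 0, nat_lit 715, nat_lit 7, nat_lit 254, nat_lit 715, nat_lit 43, nat_lit 715, nat_lit 17067, nat_lit 247, nat_lit 71778, nat_lit 200, nat_lit 46675512, nat_lit 0, nat_lit 0, nat_lit 3516928, true, false⟩,
 nat_lit 0, nat_lit 0, nat_lit 3167, nat_lit 0, nat_lit 2422, nat_lit 2103, nat_lit 59, nat_lit 0, nat_lit 0, nat_lit 242, nat_lit 0, nat_lit 0, nat_lit 0, nat_lit 0, nat_lit 34, nat_lit 286000, nat_lit 0, nat_lit 0, [(nat_lit 26, [(nat_lit 5, nat_lit 715)])],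
 ⟨p123_k27, nat_lit 0, nat_lit 0, nat_lit 158, nat_lit 0, nat_lit 0, [nat_lit 924708000, nat_lit 906648001, nat_lit 20388000], [], [nat_lit 21028877962, nat_lit 22174608369, nat_lit 22174074174, nat_lit 23272970696, nat_lit 20597592334, nat_lit 21607284254, nat_lit 21644868102, nat_lit 22653126397], nat_lit 0, nat_lit 0, nat_lit 0, nat_lit 0, nat_lit 0, nat_lit 0, [], [nat_lit 54, nat_lit 40, nat_lit 40, nat_lit 80, nat_lit 43, nat_lit 317, nat_lit 100, nat_lit 10]⟩, ⟨p123_k31, nat_lit 0, nat_lit 0, nat_lit 417, nat_lit 0, nat_lit 694001, [nat_lit 935370000, nat_lit 1781250000, nat_lit 3383520000], [], [nat_lit 6960058192, nat_lit 7033844176, nat_lit 7047992621, nat_lit 7141873892, nat_lit 7555093723, nat_lit 7624474603, nat_lit 7679306342, nat_lit 7768840775], nat_lit 1271250, nat_lit 1271250, nat_lit 1271250, nat_lit 1271250, nat_lit 1100001, nat_lit 2401500, [nat_lit 780000, nat_lit 1435000, nat_lit 1271250], [nat_lit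 23, nat_lit 40, nat_lit 40, nat_lit 80, nat_lit 12, nat_lit 456, nat_lit 225, nat_lit 11]⟩,
 ⟨nat_lit 2236, nat_lit 3163, ⟨.ofNat (nat_lit 599411), .ofNat (nat_lit 660469), .ofNat (nat_lit 610457), .ofNat (nat_lit 671514), .ofNat (nat_lit 602198), .ofNat (nat_lit 659318), .ofNat (nat_lit 613554), .ofNat (nat_lit 670673)⟩, ⟨.ofNat (nat_lit 20000), .ofNat (nat_lit 184209), .ofNat (nat_lit 20000), .ofNat (nat_lit 200000), .ofNat (nat_lit 20000), .ofNat (nat_lit 192306), .ofNat (nat_lit 20000), .ofNat (nat_lit 200000)⟩⟩, [⟨nat_lit 3, nat_lit 100, nat_lit 50, nat_lit 65, nat_lit 108727437⟩, ⟨nat_lit 7, nat_lit 100, nat_lit 100, nat_lit 95, nat_lit 64731411⟩, ⟨nat_lit 22, nat_lit 100, nat_lit 84, nat_lit 63, nat_lit 34024713⟩]⟩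
noncomputable def p123_l63 : Lf2 := ⟨nat_lit 0, nat_lit 25, [nat_lit 44, nat_lit 5, nat_lit 5, nat_lit 20], false, nat_lit 80, nat_lit 160, nat_lit 160, nat_lit 320, ⟨nat_lit 106, nat_lit 122, nat_lit 772, nat_lit 7, nat_lit 238, nat_lit 894, nat_lit 102, nat_lit 772, nat_lit 98817, nat_lit 292, nat_lit 71778, nat_lit 200, nat_lit 45576388, nat_lit 16911823, nat_lit 4511789, nat_lit 4196714, false, false⟩,
 nat_lit 0, nat_lit 0, nat_lit 1315, nat_lit 0, nat_lit 3442, nat_lit 836, nat_lit 0, nat_lit 0, nat_lit 0, nat_lit 84, nat_lit 0, nat_lit 0, nat_lit 0, nat_lit 0, nat_lit 18, nat_lit 184900, nat_lit 0, nat_lit 0, [(nat_lit 26, [(nat_lit 0, nat_lit 122), (nat_lit 3, nat_lit 772)])],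
 ⟨p123_k27, nat_lit 0, nat_lit 0, nat_lit 81, nat_lit 0, nat_lit 0, [nat_lit 1151087200, nat_lit 541745601, nat_lit 39169600], [], [nat_lit 19862749141, nat_lit 21292433109, nat_lit 22028238888, nat_lit 23266933996, nat_lit 20505573997, nat_lit 21775482907, nat_lit 22483076200, nat_lit 23587104180], nat_lit 0, nat_lit 0, nat_lit 0, nat_lit 0, nat_lit 0, nat_lit 0, [], [nat_lit 54, nat_lit 40, nat_lit 40, nat_lit 80, nat_lit 43, nat_lit 317, nat_lit 100, nat_lit 10]⟩, ⟨p123_k28, nat_lit 0, nat_lit 0, nat_lit 498, nat_lit 0, nat_lit 738735, [nat_lit 347892000, nat_lit 662500000, nat_lit 1258432000], [], [nat_lit 2754220596, nat_lit 2815988496, nat_lit 2770796712, nat_lit 2820670256, nat_lit 2960168176, nat_lit 3016625613, nat_lit 2963122396, nat_lit 3010022492], nat_lit 1271250, nat_lit 1271250, nat_lit 1033601, nat_lit 1780500, nat_lit 1271250, nat_lit 1271250, [nat_lit 780000, nat_lit 1435000, nat_lit 1271250], [nat_lit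 23, nat_lit 40, nat_lit 40, nat_lit 80, nat_lit 12, nat_lit 456, nat_lit 225, nat_lit 11]⟩,
 ⟨nat_lit 2236, nat_lit 3163, ⟨.ofNat (nat_lit 515097), .ofNat (nat_lit 649422), .ofNat (nat_lit 537188), .ofNat (nat_lit 671514), .ofNat (nat_lit 522299), .ofNat (nat_lit 647962), .ofNat (nat_lit 545010), .ofNat (nat_lit 670673)⟩, ⟨.ofNat (nat_lit 184209), .ofNat (nat_lit 306116), .ofNat (nat_lit 200000), .ofNat (nat_lit 328271), .ofNat (nat_lit 192306), .ofNat (nat_lit 306337), .ofNat (nat_lit 200000), .ofNat (nat_lit 329112)⟩⟩, [⟨nat_lit 7, nat_lit 97, nat_lit 100, nat_lit 94, nat_lit 31530975⟩]⟩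
noncomputable def p123_l64 : Lf2 := ⟨nat_lit 0, nat_lit 25, [nat_lit 44, nat_lit 5, nat_lit 5, nat_lit 20], false, nat_lit 16, nat_lit 80, nat_lit 160, nat_lit 336, ⟨nat_lit 1000, nat_lit 0, nat_lit 0, nat_lit 0, nat_lit 0, nat_lit 0, nat_lit 0, nat_lit 0, nat_lit 0, nat_lit 0, nat_lit 0, nat_lit 0, nat_lit 0, nat_lit 0, nat_lit 0, nat_lit 0, false, false⟩,
 nat_lit 0, nat_lit 0, nat_lit 12220, nat_lit 0, nat_lit 4606, nat_lit 7776, nat_lit 611, nat_lit 0, nat_lit 0, nat_lit 884, nat_lit 0, nat_lit 0, nat_lit 0, nat_lit 0, nat_lit 0, nat_lit 0, nat_lit 0, nat_lit 0, [],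
 ⟨p123_k27, nat_lit 0, nat_lit 0, nat_lit 148, nat_lit 0, nat_lit 0, [nat_lit 938000000, nat_lit 3282000000, nat_lit 7968000000], [], [nat_lit 23652028828, nat_lit 24045523008, nat_lit 25707998425, nat_lit 26046426362, nat_lit 21879700509, nat_lit 22253988476, nat_lit 23899978757, nat_lit 24231176216], nat_lit 0, nat_lit 0, nat_lit 0, nat_lit 0, nat_lit 0, nat_lit 0, [], [nat_lit 54, nat_lit 40, nat_lit 40, nat_lit 80, nat_lit 43, nat_lit 317, nat_lit 100, nat_lit 10]⟩, ⟨p123_k28, nat_lit 0, nat_lit 0, nat_lit 241, nat_lit 0, nat_lit 347417, [nat_lit 3282000000, nat_lit 6250000000, nat_lit 11872000000], [], [nat_lit 22203510758, nat_lit 23274262192, nat_lit 23588292876, nat_lit 24473654076, nat_lit 27322134187, nat_lit 27987802987, nat_lit 27681790669, nat_lit 28393052487], nat_lit 1271250, nat_lit 1271250, nat_lit 1033601, nat_lit 1780500, nat_lit 1271250, nat_lit 1271250, [nat_lit 780000, nat_lit 1435000, nat_lit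 1271250], [nat_lit 23, nat_lit 40, nat_lit 40, nat_lit 80, nat_lit 12, nat_lit 456, nat_lit 225, nat_lit 11]⟩,
 zbF0, [⟨nat_lit 0, nat_lit 87, nat_lit 57, nat_lit 100, nat_lit 661965509⟩, ⟨nat_lit 3, nat_lit 100, nat_lit 65, nat_lit 52, nat_lit 14000586⟩, ⟨nat_lit 19, nat_lit 100, nat_lit 90, nat_lit 100, nat_lit 339749346⟩]⟩
noncomputable def p123_l65 : Lf2 := ⟨nat_lit 0, nat_lit 30, [nat_lit 15, nat_lit 5, nat_lit 5, nat_lit 20], false, nat_lit 16, nat_lit 80, nat_lit 160, nat_lit 336, ⟨nat_lit 1000, nat_lit 0, nat_lit 0, nat_lit 0, nat_lit 0, nat_lit 0, nat_lit 0, nat_lit 0, nat_lit 0, nat_lit 0, nat_lit 0, nat_lit 0, nat_lit 0, nat_lit 0, nat_lit 0, nat_lit 0, false, false⟩,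
 nat_lit 0, nat_lit 0, nat_lit 12336, nat_lit 10790, nat_lit 4624, nat_lit 7849, nat_lit 726, nat_lit 0, nat_lit 0, nat_lit 1014, nat_lit 0, nat_lit 0, nat_lit 0, nat_lit 0, nat_lit 0, nat_lit 0, nat_lit 0, nat_lit 0, [],
 ⟨p123_k29, nat_lit 0, nat_lit 0, nat_lit 176, nat_lit 0, nat_lit 0, [nat_lit 938000000, nat_lit 3282000000, nat_lit 9842000000], [], [nat_lit 23164205152, nat_lit 23526354134, nat_lit 25621386733, nat_lit 26073731665, nat_lit 21318001525, nat_lit 21664014918, nat_lit 23819294752, nat_lit 24211703564], nat_lit 0, nat_lit 0, nat_lit 0, nat_lit 0, nat_lit 0, nat_lit 0, [], [nat_lit 93, nat_lit 40, nat_lit 40, nat_lit 80, nat_lit 63, nat_lit 317, nat_lit 100, nat_lit 9]⟩, ⟨p123_k30, nat_lit 0, nat_lit 0, nat_lit 217, nat_lit 0, nat_lit 180922, [nat_lit 3282000000, nat_lit 6250000000, nat_lit 14058000000], [], [nat_lit 21461275330, nat_lit 22670787078, nat_lit 23339221368, nat_lit 23883016206, nat_lit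 27095336284, nat_lit 27840311024, nat_lit 27272621527, nat_lit 27883407925], nat_lit 1271250, nat_lit 1271250, nat_lit 1033601, nat_lit 1780500, nat_lit 1271250, nat_lit 1271250, [nat_lit 780000, nat_lit 1435000, nat_lit 1271250], [nat_lit 71, nat_lit 40, nat_lit 40, nat_lit 80, nat_lit 68, nat_lit 456, nat_lit 225, nat_lit 10]⟩,
 zbF0, [⟨nat_lit 0, nat_lit 90, nat_lit 59, nat_lit 100, nat_lit 598932876⟩, ⟨nat_lit 3, nat_lit 100, nat_lit 65, nat_lit 52, nat_lit 22603347⟩, ⟨nat_lit 19, nat_lit 100, nat_lit 90, nat_lit 100, nat_lit 341924719⟩]⟩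
noncomputable def p123_l66 : Lf2 := ⟨nat_lit 0, nat_lit 30, [nat_lit 15, nat_lit 5, nat_lit 5, nat_lit 20], false, nat_lit 16, nat_lit 80, nat_lit 160, nat_lit 336, ⟨nat_lit 1000, nat_lit 0, nat_lit 0, nat_lit 0, nat_lit 0, nat_lit 0, nat_lit 0, nat_lit 0, nat_lit 0, nat_lit 0, nat_lit 0, nat_lit 0, nat_lit 0, nat_lit 0, nat_lit 0, nat_lit 0, false, false⟩,
 nat_lit 0, nat_lit 0, nat_lit 12117, nat_lit 0, nat_lit 4487, nat_lit 7710, nat_lit 543, nat_lit 0, nat_lit 0, nat_lit 1021, nat_lit 0, nat_lit 0, nat_lit 0, nat_lit 0, nat_lit 0, nat_lit 0, nat_lit 0, nat_lit 0, [],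
 ⟨p123_k32, nat_lit 0, nat_lit 0, nat_lit 150, nat_lit 0, nat_lit 0, [nat_lit 938000000, nat_lit 3282000000, nat_lit 7968000000], [], [nat_lit 23970220151, nat_lit 24353518416, nat_lit 25953162566, nat_lit 26322900970, nat_lit 22255126618, nat_lit 22619816970, nat_lit 24142706833, nat_lit 24460986852], nat_lit 0, nat_lit 0, nat_lit 0, nat_lit 0, nat_lit 0, nat_lit 0, [], [nat_lit 54, nat_lit 40, nat_lit 40, nat_lit 80, nat_lit 43, nat_lit 317, nat_lit 100, nat_lit 10]⟩, ⟨p123_k30, nat_lit 0, nat_lit 0, nat_lit 387, nat_lit 0, nat_lit 430049, [nat_lit 3282000000, nat_lit 6250000000, nat_lit 14058000000], [], [nat_lit 22598812230, nat_lit 23511699850, nat_lit 23680616720, nat_lit 24361926210, nat_lit 26932729206, nat_lit 27662881203, nat_lit 27745312640, nat_lit 28513395145], nat_lit 1271250, nat_lit 1271250, nat_lit 1100001, nat_lit 1785000, nat_lit 1271250, nat_lit 1271250, [nat_lit 780000, nat_lit 1435000, nat_lit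 1271250], [nat_lit 71, nat_lit 40, nat_lit 40, nat_lit 80, nat_lit 68, nat_lit 456, nat_lit 225, nat_lit 10]⟩,
 zbF0, [⟨nat_lit 0, nat_lit 90, nat_lit 55, nat_lit 100, nat_lit 573463015⟩, ⟨nat_lit 3, nat_lit 100, nat_lit 61, nat_lit 56, nat_lit 7460666⟩, ⟨nat_lit 7, nat_lit 90, nat_lit 100, nat_lit 100, nat_lit 346358158⟩]⟩
noncomputable def p123_l67 : Lf2 := ⟨nat_lit 0, nat_lit 30, [nat_lit 15, nat_lit 5, nat_lit 5, nat_lit 20], true, nat_lit 80, nat_lit 160, nat_lit 160, nat_lit 336, ⟨nat_lit 0, nat_lit 1000, nat_lit 0, nat_lit 7, nat_lit 238, nat_lit 1000, nat_lit 108, nat_lit 0, nat_lit 0, nat_lit 0, nat_lit 0, nat_lit 0, nat_lit 45292091, nat_lit 16826334, nat_lit 4881575, nat_lit 4263833, false, false⟩,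
 nat_lit 0, nat_lit 0, nat_lit 0, nat_lit 6976, nat_lit 3084, nat_lit 0, nat_lit 0, nat_lit 0, nat_lit 0, nat_lit 0, nat_lit 0, nat_lit 0, nat_lit 0, nat_lit 0, nat_lit 0, nat_lit 250000, nat_lit 0, nat_lit 0, [(nat_lit 26, [(nat_lit 0, nat_lit 1000)])],
 ⟨p123_k29, nat_lit 0, nat_lit 0, nat_lit 57, nat_lit 0, nat_lit 0, [nat_lit 765600000, nat_lit 1432000001, nat_lit 2936000000], [], [nat_lit 18667649560, nat_lit 19487977497, nat_lit 21316534257, nat_lit 22023528457, nat_lit 19640436725, nat_lit 20381091377, nat_lit 22079717281, nat_lit 22720928365], nat_lit 0, nat_lit 0, nat_lit 0, nat_lit 0, nat_lit 0, nat_lit 0, [], [nat_lit 93, nat_lit 40, nat_lit 40, nat_lit 80, nat_lit 63, nat_lit 317, nat_lit 100, nat_lit 8]⟩, C1.Rw.none,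
 ⟨nat_lit 2738, nat_lit 3163, ⟨.ofNat (nat_lit 515404), .ofNat (nat_lit 649542), .ofNat (nat_lit 537547), .ofNat (nat_lit 671685), .ofNat (nat_lit 518725), .ofNat (nat_lit 648700), .ofNat (nat_lit 541130), .ofNat (nat_lit 671105)⟩, ⟨.ofNat (nat_lit 200000), .ofNat (nat_lit 328271), .ofNat (nat_lit 200000), .ofNat (nat_lit 350426), .ofNat (nat_lit 200000), .ofNat (nat_lit 328850), .ofNat (nat_lit 200000), .ofNat (nat_lit 351268)⟩⟩, []⟩
noncomputable def p123_l68 : Lf2 := ⟨nat_lit 0, nat_lit 30, [nat_lit 15, nat_lit 5, nat_lit 5, nat_lit 20], false, nat_lit 20, nat_lit 160, nat_lit 160, nat_lit 240, ⟨nat_lit 1000, nat_lit 0, nat_lit 0, nat_lit 0, nat_lit 0, nat_lit 0, nat_lit 0, nat_lit 0, nat_lit 0, nat_lit 0, nat_lit 0, nat_lit 0, nat_lit 0, nat_lit 0, nat_lit 0, nat_lit 0, false, false⟩,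
 nat_lit 0, nat_lit 0, nat_lit 9750, nat_lit 0, nat_lit 4215, nat_lit 6204, nat_lit 567, nat_lit 0, nat_lit 0, nat_lit 976, nat_lit 0, nat_lit 0, nat_lit 0, nat_lit 0, nat_lit 0, nat_lit 0, nat_lit 0, nat_lit 0, [],
 ⟨p123_k33, nat_lit 0, nat_lit 0, nat_lit 153, nat_lit 0, nat_lit 0, [nat_lit 938000000, nat_lit 3282000000, nat_lit 7968000000], [], [nat_lit 23507812733, nat_lit 24436148513, nat_lit 25645488629, nat_lit 26605876643, nat_lit 22028570572, nat_lit 22658052706, nat_lit 23586752570, nat_lit 24206333290], nat_lit 0, nat_lit 0, nat_lit 0, nat_lit 0, nat_lit 0, nat_lit 0, [], [nat_lit 54, nat_lit 40, nat_lit 40, nat_lit 80, nat_lit 43, nat_lit 317, nat_lit 100, nat_lit 10]⟩, ⟨p123_k30, nat_lit 0, nat_lit 0, nat_lit 432, nat_lit 0, nat_lit 570338, [nat_lit 3282000000, nat_lit 6250000000, nat_lit 14058000000], [], [nat_lit 25703530935, nat_lit 26489876664, nat_lit 26726268832, nat_lit 27434292504, nat_lit 26777619002,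 nat_lit 27475257359, nat_lit 28813744976, nat_lit 28157563376], nat_lit 1271250, nat_lit 1271250, nat_lit 1167600, nat_lit 1789500, nat_lit 1100001, nat_lit 1785000, [nat_lit 780000, nat_lit 1435000, nat_lit 1271250], [nat_lit 71, nat_lit 40, nat_lit 40, nat_lit 80, nat_lit 68, nat_lit 428, nat_lit 200, nat_lit 9]⟩,
 zbF0, [⟨nat_lit 0, nat_lit 87, nat_lit 44, nat_lit 100, nat_lit 778431365⟩]⟩
noncomputable def p123_l69 : Lf2 := ⟨nat_lit 0, nat_lit 30, [nat_lit 15, nat_lit 5, nat_lit 5, nat_lit 20], false, nat_lit 20, nat_lit 80, nat_lit 240, nat_lit 336, ⟨nat_lit 798, nat_lit 0, nat_lit 202, nat_lit 7, nat_lit 243, nat_lit 202, nat_lit 50, nat_lit 202, nat_lit 22817, nat_lit 252, nat_lit 71018, nat_lit 200, nat_lit 47601591, nat_lit 0, nat_lit 0, nat_lit 3534643, true, false⟩,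
 nat_lit 0, nat_lit 0, nat_lit 9268, nat_lit 0, nat_lit 3295, nat_lit 5897, nat_lit 501, nat_lit 0, nat_lit 0, nat_lit 763, nat_lit 0, nat_lit 0, nat_lit 0, nat_lit 0, nat_lit 0, nat_lit 50500, nat_lit 0, nat_lit 0, [(nat_lit 26, [(nat_lit 4, nat_lit 202)])],
 ⟨p123_k33, nat_lit 0, nat_lit 0, nat_lit 150, nat_lit 0, nat_lit 0, [nat_lit 895580000, nat_lit 2550517600, nat_lit 5838839200], [], [nat_lit 21828464611, nat_lit 22169841244, nat_lit 23948819799, nat_lit 24368549451, nat_lit 20914117076, nat_lit 21214896912, nat_lit 22598571660, nat_lit 22867054910], nat_lit 0, nat_lit 0, nat_lit 0, nat_lit 0, nat_lit 0, nat_lit 0, [], [nat_lit 54, nat_lit 40, nat_lit 40, nat_lit 80, nat_lit 43, nat_lit 317, nat_lit 100, nat_lit 10]⟩, ⟨p123_k30, nat_lit 0, nat_lit 0, nat_lit 391, nat_lit 0, nat_lit 499388, [nat_lit 2619036000, nat_lit 4987500000, nat_lit 11218284000], [], [nat_lit 19950650158, nat_lit 20541172821, nat_lit 20465773314,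 nat_lit 20966585492, nat_lit 22367240159, nat_lit 22802817617, nat_lit 22616428626, nat_lit 23219707150], nat_lit 1271250, nat_lit 1271250, nat_lit 1167600, nat_lit 1789500, nat_lit 1271250, nat_lit 1271250, [nat_lit 780000, nat_lit 1435000, nat_lit 1271250], [nat_lit 71, nat_lit 40, nat_lit 40, nat_lit 80, nat_lit 68, nat_lit 456, nat_lit 225, nat_lit 10]⟩,
 ⟨nat_lit 2500, nat_lit 2739, ⟨.ofNat (nat_lit 542397), .ofNat (nat_lit 648720), .ofNat (nat_lit 564810), .ofNat (nat_lit 671134), .ofNat (nat_lit 543847), .ofNat (nat_lit 648376), .ofNat (nat_lit 566424), .ofNat (nat_lit 670953)⟩, ⟨.ofNat (nat_lit 50000), .ofNat (nat_lit 200000), .ofNat (nat_lit 50000), .ofNat (nat_lit 200000), .ofNat (nat_lit 50000), .ofNat (nat_lit 200000), .ofNat (nat_lit 50000), .ofNat (nat_lit 200000)⟩⟩, [⟨nat_lit 0, nat_lit 87, nat_lit 48, nat_lit 100, nat_lit 470590638⟩, ⟨nat_lit 19, nat_lit 100, nat_lit 90, nat_lit 100, nat_lit 315512733⟩]⟩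
noncomputable def p123_l70 : Lf2 := ⟨nat_lit 0, nat_lit 30, [nat_lit 15, nat_lit 5, nat_lit 5, nat_lit 20], false, nat_lit 28, nat_lit 80, nat_lit 240, nat_lit 336, ⟨nat_lit 652, nat_lit 0, nat_lit 348, nat_lit 7, nat_lit 247, nat_lit 348, nat_lit 54, nat_lit 348, nat_lit 26667, nat_lit 255, nat_lit 70646, nat_lit 200, nat_lit 47055635, nat_lit 0, nat_lit 0, nat_lit 3617040, true, false⟩,
 nat_lit 0, nat_lit 0, nat_lit 7113, nat_lit 0, nat_lit 2499, nat_lit 4526, nat_lit 433, nat_lit 0, nat_lit 0, nat_lit 617, nat_lit 0, nat_lit 0, nat_lit 0, nat_lit 0, nat_lit 0, nat_lit 87000, nat_lit 0, nat_lit 0, [(nat_lit 26, [(nat_lit 4, nat_lit 348)])],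
 ⟨p123_k34, nat_lit 0, nat_lit 0, nat_lit 147, nat_lit 0, nat_lit 0, [nat_lit 864920001, nat_lit 2021822401, nat_lit 4299940800], [], [nat_lit 21192342958, nat_lit 21486908612, nat_lit 22713817193, nat_lit 23067988561, nat_lit 20782053225, nat_lit 21044790534, nat_lit 22328652397, nat_lit 22628075170], nat_lit 0, nat_lit 0, nat_lit 0, nat_lit 0, nat_lit 0, nat_lit 0, [], [nat_lit 54, nat_lit 40, nat_lit 40, nat_lit 80, nat_lit 43, nat_lit 317, nat_lit 100, nat_lit 10]⟩, ⟨p123_k30, nat_lit 0, nat_lit 0, nat_lit 412, nat_lit 0, nat_lit 570338, [nat_lit 2139864000, nat_lit 4075000000, nat_lit 9165816000], [], [nat_lit 16920300798, nat_lit 17381259774, nat_lit 17335955678, nat_lit 17738277962, nat_lit 18814499126, nat_lit 19157509782, nat_lit 19022224087, nat_lit 19504097938], nat_lit 1271250, nat_lit 1271250, nat_lit 1271250, nat_lit 1271250, nat_lit 1271250, nat_lit 1271250, [nat_lit 780000, nat_lit 1435000, nat_lit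 1271250], [nat_lit 71, nat_lit 40, nat_lit 40, nat_lit 80, nat_lit 68, nat_lit 456, nat_lit 225, nat_lit 10]⟩,
 ⟨nat_lit 2236, nat_lit 2500, ⟨.ofNat (nat_lit 561261), .ofNat (nat_lit 648374), .ofNat (nat_lit 583836), .ofNat (nat_lit 670948), .ofNat (nat_lit 562560), .ofNat (nat_lit 648099), .ofNat (nat_lit 585329), .ofNat (nat_lit 670867)⟩, ⟨.ofNat (nat_lit 70000), .ofNat (nat_lit 200000), .ofNat (nat_lit 70000), .ofNat (nat_lit 200000), .ofNat (nat_lit 70000), .ofNat (nat_lit 200000), .ofNat (nat_lit 70000), .ofNat (nat_lit 200000)⟩⟩, [⟨nat_lit 0, nat_lit 87, nat_lit 44, nat_lit 100, nat_lit 389597320⟩, ⟨nat_lit 7, nat_lit 90, nat_lit 100, nat_lit 100, nat_lit 253996154⟩]⟩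
noncomputable def p123_l71 : Lf2 := ⟨nat_lit 0, nat_lit 30, [nat_lit 15, nat_lit 5, nat_lit 5, nat_lit 20], false, nat_lit 80, nat_lit 160, nat_lit 240, nat_lit 336, ⟨nat_lit 231, nat_lit 0, nat_lit 769, nat_lit 7, nat_lit 243, nat_lit 769, nat_lit 108, nat_lit 769, nat_lit 109350, nat_lit 296, nat_lit 70912, nat_lit 200, nat_lit 44796743, nat_lit 0, nat_lit 0, nat_lit 4299272, true, false⟩,
 nat_lit 0, nat_lit 0, nat_lit 2686, nat_lit 0, nat_lit 3955, nat_lit 1709, nat_lit 5, nat_lit 0, nat_lit 0, nat_lit 216, nat_lit 0, nat_lit 0, nat_lit 0, nat_lit 0, nat_lit 0, nat_lit 153800, nat_lit 0, nat_lit 0, [(nat_lit 26, [(nat_lit 3, nat_lit 769)])],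
 ⟨p123_k33, nat_lit 0, nat_lit 0, nat_lit 81, nat_lit 0, nat_lit 0, [nat_lit 1099490001, nat_lit 569737001, nat_lit 302608000], [], [nat_lit 21382105588, nat_lit 22132044135, nat_lit 23183898705, nat_lit 23846408540, nat_lit 21741470086, nat_lit 22419223847, nat_lit 23377427590, nat_lit 23995087950], nat_lit 0, nat_lit 0, nat_lit 0, nat_lit 0, nat_lit 0, nat_lit 0, [], [nat_lit 54, nat_lit 40, nat_lit 40, nat_lit 80, nat_lit 43, nat_lit 317, nat_lit 100, nat_lit 9]⟩, ⟨p123_k30, nat_lit 0, nat_lit 0, nat_lit 415, nat_lit 0, nat_lit 570338, [nat_lit 758142000, nat_lit 1443750000, nat_lit 3247398000], [], [nat_lit 5834032639, nat_lit 6005043928, nat_lit 5982927908, nat_lit 6127946224, nat_lit 6533792236, nat_lit 6661310970, nat_lit 6584699647, nat_lit 6722891155], nat_lit 1271250, nat_lit 1271250, nat_lit 1167600, nat_lit 1789500, nat_lit 1271250, nat_lit 1271250, [nat_lit 780000, nat_lit 1435000, nat_lit 1271250], [nat_lit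 71, nat_lit 40, nat_lit 40, nat_lit 80, nat_lit 68, nat_lit 456, nat_lit 225, nat_lit 10]⟩,
 ⟨nat_lit 2236, nat_lit 2739, ⟨.ofNat (nat_lit 542311), .ofNat (nat_lit 648684), .ofNat (nat_lit 564708), .ofNat (nat_lit 671081), .ofNat (nat_lit 545375), .ofNat (nat_lit 648065), .ofNat (nat_lit 568129), .ofNat (nat_lit 670819)⟩, ⟨.ofNat (nat_lit 200000), .ofNat (nat_lit 328850), .ofNat (nat_lit 200000), .ofNat (nat_lit 351268), .ofNat (nat_lit 200000), .ofNat (nat_lit 329112), .ofNat (nat_lit 200000), .ofNat (nat_lit 351886)⟩⟩, [⟨nat_lit 0, nat_lit 87, nat_lit 44, nat_lit 100, nat_lit 124461084⟩, ⟨nat_lit 19, nat_lit 100, nat_lit 90, nat_lit 100, nat_lit 88236136⟩]⟩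
noncomputable def p123_l72 : Lf2 := ⟨nat_lit 0, nat_lit 25, [nat_lit 44, nat_lit 5, nat_lit 5, nat_lit 20], false, nat_lit 20, nat_lit 80, nat_lit 0, nat_lit 320, ⟨nat_lit 114, nat_lit 404, nat_lit 482, nat_lit 7, nat_lit 250, nat_lit 886, nat_lit 50, nat_lit 482, nat_lit 22817, nat_lit 252, nat_lit 73168, nat_lit 200, nat_lit 46857307, nat_lit 18618220, nat_lit 1524473, nat_lit 3581795, true, false⟩,
 nat_lit 0, nat_lit 0, nat_lit 1473, nat_lit 0, nat_lit 2182, nat_lit 937, nat_lit 0, nat_lit 0, nat_lit 0, nat_lit 78, nat_lit 0, nat_lit 0, nat_lit 0, nat_lit 0, nat_lit 33, nat_lit 293800, nat_lit 0, nat_lit 0, [(nat_lit 29, [(nat_lit 0, nat_lit 404), (nat_lit 5, nat_lit 482)])],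
 ⟨p123_k35, nat_lit 0, nat_lit 0, nat_lit 141, nat_lit 0, nat_lit 0, [nat_lit 840813601, nat_lit 371853867, nat_lit 16014400], [], [nat_lit 21540647152, nat_lit 22717961774, nat_lit 22861072878, nat_lit 23975704916, nat_lit 21231713926, nat_lit 22358974442, nat_lit 22524585438, nat_lit 23571081922], nat_lit 0, nat_lit 0, nat_lit 0, nat_lit 0, nat_lit 0, nat_lit 0, [], [nat_lit 20, nat_lit 40, nat_lit 40, nat_lit 80, nat_lit 16, nat_lit 317, nat_lit 100, nat_lit 11]⟩, ⟨p123_k28, nat_lit 0, nat_lit 0, nat_lit 726, nat_lit 0, nat_lit 1043300, [nat_lit 374148000, nat_lit 712500000, nat_lit 1353408000], [], [nat_lit 3832265261, nat_lit 3874404705, nat_lit 3847697088, nat_lit 3935517844, nat_lit 3524351767, nat_lit 3340091240, nat_lit 3296332168, nat_lit 3335882448], nat_lit 1271250, nat_lit 1271250, nat_lit 1271250, nat_lit 1271250, nat_lit 0, nat_lit 2260000, [nat_lit 780000, nat_lit 1435000, nat_lit 1271250], [nat_lit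 23, nat_lit 40, nat_lit 40, nat_lit 80, nat_lit 12, nat_lit 456, nat_lit 225, nat_lit 11]⟩,
 ⟨nat_lit 0, nat_lit 2237, ⟨.ofNat (nat_lit 575619), .ofNat (nat_lit 646249), .ofNat (nat_lit 597467), .ofNat (nat_lit 668096), .ofNat (nat_lit 585925), .ofNat (nat_lit 648136), .ofNat (nat_lit 609999), .ofNat (nat_lit 672209)⟩, ⟨.ofNat (nat_lit 50000), .ofNat (nat_lit 192306), .ofNat (nat_lit 50000), .ofNat (nat_lit 200000), .ofNat (nat_lit 50000), .ofNat (nat_lit 199999), .ofNat (nat_lit 50000), .ofNat (nat_lit 200000)⟩⟩, [⟨nat_lit 3, nat_lit 100, nat_lit 37, nat_lit 74, nat_lit 247988003⟩, ⟨nat_lit 10, nat_lit 80, nat_lit 100, nat_lit 66, nat_lit 17778365⟩]⟩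
noncomputable def p123_l73 : Lf2 := ⟨nat_lit 0, nat_lit 30, [nat_lit 15, nat_lit 5, nat_lit 5, nat_lit 20], false, nat_lit 32, nat_lit 80, nat_lit 0, nat_lit 336, ⟨nat_lit 260, nat_lit 0, nat_lit 740, nat_lit 7, nat_lit 248, nat_lit 740, nat_lit 56, nat_lit 740, nat_lit 29400, nat_lit 257, nat_lit 47702, nat_lit 200, nat_lit 46832941, nat_lit 0, nat_lit 0, nat_lit 3654201, true, false⟩,
 nat_lit 0, nat_lit 0, nat_lit 3123, nat_lit 0, nat_lit 2305, nat_lit 1987, nat_lit 0, nat_lit 0, nat_lit 0, nat_lit 186, nat_lit 0, nat_lit 0, nat_lit 0, nat_lit 0, nat_lit 86, nat_lit 296000, nat_lit 0, nat_lit 0, [(nat_lit 29, [(nat_lit 5, nat_lit 740)])],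
 ⟨p123_k36, nat_lit 0, nat_lit 0, nat_lit 147, nat_lit 0, nat_lit 0, [nat_lit 1027144001, nat_lit 573152001, nat_lit 418808000], [], [nat_lit 21496457831, nat_lit 21775952920, nat_lit 22730432995, nat_lit 22993413457, nat_lit 21172682067, nat_lit 21442808039, nat_lit 22386793182, nat_lit 22637820282], nat_lit 0, nat_lit 0, nat_lit 0, nat_lit 0, nat_lit 0, nat_lit 0, [], [nat_lit 54, nat_lit 40, nat_lit 40, nat_lit 80, nat_lit 43, nat_lit 317, nat_lit 100, nat_lit 10]⟩, ⟨p123_k30, nat_lit 0, nat_lit 0, nat_lit 586, nat_lit 0, nat_lit 578049, [nat_lit 853320000, nat_lit 1625000000, nat_lit 3655080000], [], [nat_lit 8668591324, nat_lit 8770676261, nat_lit 8840215980, nat_lit 8931225329, nat_lit 8534751479, nat_lit 8102235497, nat_lit 8109887204, nat_lit 8188237036], nat_lit 1271250, nat_lit 1271250, nat_lit 1271250, nat_lit 1271250, nat_lit 0, nat_lit 2373000, [nat_lit 780000, nat_lit 1435000, nat_lit 1271250], [nat_lit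 71, nat_lit 40, nat_lit 40, nat_lit 80, nat_lit 68, nat_lit 456, nat_lit 225, nat_lit 10]⟩,
 ⟨nat_lit 1936, nat_lit 2237, ⟨.ofNat (nat_lit 579655), .ofNat (nat_lit 648093), .ofNat (nat_lit 591038), .ofNat (nat_lit 659476), .ofNat (nat_lit 580827), .ofNat (nat_lit 647913), .ofNat (nat_lit 592328), .ofNat (nat_lit 659414)⟩, ⟨.ofNat (nat_lit 80000), .ofNat (nat_lit 200000), .ofNat (nat_lit 80000), .ofNat (nat_lit 200000), .ofNat (nat_lit 80000), .ofNat (nat_lit 200000), .ofNat (nat_lit 80000), .ofNat (nat_lit 200000)⟩⟩, [⟨nat_lit 3, nat_lit 100, nat_lit 46, nat_lit 71, nat_lit 184439697⟩, ⟨nat_lit 7, nat_lit 87, nat_lit 100, nat_lit 99, nat_lit 29667657⟩, ⟨nat_lit 22, nat_lit 100, nat_lit 78, nat_lit 70, nat_lit 12607777⟩]⟩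
noncomputable def p123_l74 : Lf2 := ⟨nat_lit 0, nat_lit 30, [nat_lit 15, nat_lit 5, nat_lit 5, nat_lit 20], false, nat_lit 40, nat_lit 80, nat_lit 0, nat_lit 336, ⟨nat_lit 206, nat_lit 181, nat_lit 613, nat_lit 7, nat_lit 252, nat_lit 794, nat_lit 60, nat_lit 613, nat_lit 33750, nat_lit 260, nat_lit 47780, nat_lit 200, nat_lit 46302385, nat_lit 18676799, nat_lit 2020816, nat_lit 3733147, true, false⟩,
 nat_lit 0, nat_lit 0, nat_lit 2491, nat_lit 0, nat_lit 2660, nat_lit 1585, nat_lit 0, nat_lit 0, nat_lit 0, nat_lit 160, nat_lit 0, nat_lit 0, nat_lit 0, nat_lit 0, nat_lit 0, nat_lit 198500, nat_lit 0, nat_lit 0, [(nat_lit 29, [(nat_lit 0, nat_lit 181), (nat_lit 4, nat_lit 613)])],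
 ⟨p123_k37, nat_lit 0, nat_lit 0, nat_lit 124, nat_lit 0, nat_lit 0, [nat_lit 801558401, nat_lit 244489867, nat_lit 3552400], [], [nat_lit 22541133045, nat_lit 22850258341, nat_lit 23554827592, nat_lit 23869266890, nat_lit 22142076587, nat_lit 22442116361, nat_lit 23140885112, nat_lit 23423620342], nat_lit 0, nat_lit 0, nat_lit 0, nat_lit 0, nat_lit 0, nat_lit 0, [], [nat_lit 20, nat_lit 40, nat_lit 40, nat_lit 80, nat_lit 16, nat_lit 226, nat_lit 20, nat_lit 7]⟩, ⟨p123_k30, nat_lit 0, nat_lit 0, nat_lit 607, nat_lit 0, nat_lit 654000, [nat_lit 676092000, nat_lit 1287500000, nat_lit 2895948000], [], [nat_lit 6953239308, nat_lit 7012945701, nat_lit 7026193300, nat_lit 7080612601, nat_lit 6323093326, nat_lit 6321706959, nat_lit 6286162428, nat_lit 6320961376], nat_lit 1271250, nat_lit 1271250, nat_lit 1271250, nat_lit 1271250, nat_lit 0, nat_lit 2373000, [nat_lit 780000, nat_lit 1435000, nat_lit 1271250], [nat_lit 71,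 nat_lit 40, nat_lit 40, nat_lit 80, nat_lit 68, nat_lit 456, nat_lit 225, nat_lit 10]⟩,
 ⟨nat_lit 1581, nat_lit 1937, ⟨.ofNat (nat_lit 597576), .ofNat (nat_lit 647901), .ofNat (nat_lit 609074), .ofNat (nat_lit 659399), .ofNat (nat_lit 598668), .ofNat (nat_lit 647865), .ofNat (nat_lit 610318), .ofNat (nat_lit 659515)⟩, ⟨.ofNat (nat_lit 100000), .ofNat (nat_lit 200000), .ofNat (nat_lit 100000), .ofNat (nat_lit 200000), .ofNat (nat_lit 100000), .ofNat (nat_lit 200000), .ofNat (nat_lit 100000), .ofNat (nat_lit 200000)⟩⟩, [⟨nat_lit 3, nat_lit 100, nat_lit 39, nat_lit 76, nat_lit 238864561⟩, ⟨nat_lit 22, nat_lit 100, nat_lit 78, nat_lit 72, nat_lit 38422776⟩]⟩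
noncomputable def p123_l75 : Lf2 := ⟨nat_lit 0, nat_lit 30, [nat_lit 15, nat_lit 5, nat_lit 5, nat_lit 20], false, nat_lit 48, nat_lit 80, nat_lit 0, nat_lit 336, ⟨nat_lit 196, nat_lit 231, nat_lit 573, nat_lit 7, nat_lit 255, nat_lit 804, nat_lit 64, nat_lit 572, nat_lit 38400, nat_lit 263, nat_lit 50460, nat_lit 200, nat_lit 45785378, nat_lit 18997958, nat_lit 2216664, nat_lit 3809562, true, false⟩,
 nat_lit 0, nat_lit 0, nat_lit 2368, nat_lit 0, nat_lit 2691, nat_lit 1506, nat_lit 0, nat_lit 0, nat_lit 0, nat_lit 152, nat_lit 0, nat_lit 0, nat_lit 0, nat_lit 0, nat_lit 0, nat_lit 201000, nat_lit 0, nat_lit 0, [(nat_lit 29, [(nat_lit 0, nat_lit 231), (nat_lit 4, nat_lit 573)])],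
 ⟨p123_k38, nat_lit 0, nat_lit 0, nat_lit 125, nat_lit 0, nat_lit 0, [nat_lit 800794400, nat_lit 304487201, nat_lit 135252400], [], [nat_lit 23208968962, nat_lit 23835771192, nat_lit 23871445292, nat_lit 24502078239, nat_lit 22869200886, nat_lit 23460660314, nat_lit 23524138639, nat_lit 24092347360], nat_lit 0, nat_lit 0, nat_lit 0, nat_lit 0, nat_lit 0, nat_lit 0, [], [nat_lit 20, nat_lit 40, nat_lit 40, nat_lit 80, nat_lit 16, nat_lit 226, nat_lit 20, nat_lit 7]⟩, ⟨p123_k30, nat_lit 0, nat_lit 0, nat_lit 684, nat_lit 0, nat_lit 810236, [nat_lit 643272000, nat_lit 1225000000, nat_lit 2755368000], [], [nat_lit 6647678946, nat_lit 6702792483, nat_lit 6694016024, nat_lit 6745779642, nat_lit 5997514875, nat_lit 6022362716, nat_lit 5992324540, nat_lit 6018257519], nat_lit 1271250, nat_lit 1271250, nat_lit 1271250, nat_lit 1271250, nat_lit 0, nat_lit 2373000, [nat_lit 780000, nat_lit 1435000, nat_lit 1271250], [nat_lit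 71, nat_lit 40, nat_lit 40, nat_lit 80, nat_lit 68, nat_lit 456, nat_lit 225, nat_lit 10]⟩,
 ⟨nat_lit 0, nat_lit 1582, ⟨.ofNat (nat_lit 613011), .ofNat (nat_lit 646579), .ofNat (nat_lit 624340), .ofNat (nat_lit 657909), .ofNat (nat_lit 617897), .ofNat (nat_lit 648683), .ofNat (nat_lit 630068), .ofNat (nat_lit 660855)⟩, ⟨.ofNat (nat_lit 120000), .ofNat (nat_lit 200000), .ofNat (nat_lit 120000), .ofNat (nat_lit 200000), .ofNat (nat_lit 120000), .ofNat (nat_lit 200000), .ofNat (nat_lit 120000), .ofNat (nat_lit 200000)⟩⟩, [⟨nat_lit 0, nat_lit 93, nat_lit 23, nat_lit 100, nat_lit 174356173⟩, ⟨nat_lit 3, nat_lit 100, nat_lit 36, nat_lit 77, nat_lit 275183714⟩, ⟨nat_lit 22, nat_lit 100, nat_lit 78, nat_lit 74, nat_lit 35526039⟩]⟩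
noncomputable def p123_l76 : Lf2 := ⟨nat_lit 0, nat_lit 30, [nat_lit 15, nat_lit 5, nat_lit 5, nat_lit 20], false, nat_lit 32, nat_lit 80, nat_lit 0, nat_lit 160, ⟨nat_lit 1000, nat_lit 0, nat_lit 0, nat_lit 0, nat_lit 0, nat_lit 0, nat_lit 0, nat_lit 0, nat_lit 0, nat_lit 0, nat_lit 0, nat_lit 0, nat_lit 0, nat_lit 0, nat_lit 0, nat_lit 0, false, false⟩,
 nat_lit 0, nat_lit 0, nat_lit 10911, nat_lit 0, nat_lit 2805, nat_lit 7246, nat_lit 624, nat_lit 0, nat_lit 0, nat_lit 930, nat_lit 0, nat_lit 0, nat_lit 0, nat_lit 0, nat_lit 0, nat_lit 0, nat_lit 0, nat_lit 0, [],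
 ⟨p123_k36, nat_lit 0, nat_lit 0, nat_lit 154, nat_lit 0, nat_lit 0, [nat_lit 938000000, nat_lit 3282000000, nat_lit 7968000000], [], [nat_lit 22376559571, nat_lit 23866554912, nat_lit 23550707407, nat_lit 25089438209, nat_lit 21823819890, nat_lit 22980376800, nat_lit 22879385180, nat_lit 23967176240], nat_lit 0, nat_lit 0, nat_lit 0, nat_lit 0, nat_lit 0, nat_lit 0, [], [nat_lit 54, nat_lit 40, nat_lit 40, nat_lit 80, nat_lit 43, nat_lit 317, nat_lit 100, nat_lit 10]⟩, ⟨p123_k39, nat_lit 0, nat_lit 0, nat_lit 699, nat_lit 0, nat_lit 815825, [nat_lit 3282000000, nat_lit 6250000000, nat_lit 14058000000], [], [nat_lit 30058018230, nat_lit 30346320078, nat_lit 30446860976, nat_lit 30913327886, nat_lit 25613489800, nat_lit 25848788570, nat_lit 25890175324, nat_lit 26230722152], nat_lit 1271250, nat_lit 1271250, nat_lit 1271250, nat_lit 1271250, nat_lit 0, nat_lit 1100001, [nat_lit 780000, nat_lit 1435000, nat_lit 1271250],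 [nat_lit 71, nat_lit 40, nat_lit 40, nat_lit 80, nat_lit 68, nat_lit 401, nat_lit 175, nat_lit 9]⟩,
 zbF0, [⟨nat_lit 0, nat_lit 89, nat_lit 32, nat_lit 100, nat_lit 2208592956⟩]⟩
noncomputable def p123_l77 : Lf2 := ⟨nat_lit 0, nat_lit 30, [nat_lit 15, nat_lit 5, nat_lit 5, nat_lit 20], false, nat_lit 32, nat_lit 80, nat_lit 160, nat_lit 328, ⟨nat_lit 510, nat_lit 82, nat_lit 408, nat_lit 7, nat_lit 255, nat_lit 490, nat_lit 56, nat_lit 408, nat_lit 29400, nat_lit 257, nat_lit 73168, nat_lit 200, nat_lit 46143311, nat_lit 19038747, nat_lit 1817942, nat_lit 3699395, true, false⟩,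
 nat_lit 0, nat_lit 0, nat_lit 5278, nat_lit 0, nat_lit 2290, nat_lit 3505, nat_lit 246, nat_lit 0, nat_lit 0, nat_lit 446, nat_lit 0, nat_lit 0, nat_lit 0, nat_lit 0, nat_lit 0, nat_lit 196000, nat_lit 0, nat_lit 0, [(nat_lit 29, [(nat_lit 1, nat_lit 82), (nat_lit 5, nat_lit 408)])],
 ⟨p123_k36, nat_lit 0, nat_lit 0, nat_lit 154, nat_lit 0, nat_lit 0, [nat_lit 777837600, nat_lit 977578401, nat_lit 2018871200], [], [nat_lit 21935541711, nat_lit 23037868506, nat_lit 22996908427, nat_lit 24032109978, nat_lit 21617197070, nat_lit 22682773050, nat_lit 22660104690, nat_lit 23661823890], nat_lit 0, nat_lit 0, nat_lit 0, nat_lit 0, nat_lit 0, nat_lit 0, [], [nat_lit 54, nat_lit 40, nat_lit 40, nat_lit 80, nat_lit 43, nat_lit 317, nat_lit 100, nat_lit 10]⟩, ⟨p123_k39, nat_lit 0, nat_lit 0, nat_lit 573, nat_lit 0, nat_lit 815825, [nat_lit 1673820000, nat_lit 3187500000, nat_lit 7169580000], [], [nat_lit 13503411855, nat_lit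 13660886160, nat_lit 13745690320, nat_lit 13888989050, nat_lit 14686309318, nat_lit 14786311646, nat_lit 14760520529, nat_lit 14902869789], nat_lit 1271250, nat_lit 1271250, nat_lit 1271250, nat_lit 1271250, nat_lit 1100001, nat_lit 2538500, [nat_lit 780000, nat_lit 1435000, nat_lit 1271250], [nat_lit 71, nat_lit 40, nat_lit 40, nat_lit 80, nat_lit 68, nat_lit 456, nat_lit 225, nat_lit 10]⟩,
 ⟨nat_lit 0, nat_lit 2237, ⟨.ofNat (nat_lit 598315), .ofNat (nat_lit 657173), .ofNat (nat_lit 609239), .ofNat (nat_lit 668096), .ofNat (nat_lit 608330), .ofNat (nat_lit 660173), .ofNat (nat_lit 620367), .ofNat (nat_lit 672209)⟩, ⟨.ofNat (nat_lit 80000), .ofNat (nat_lit 200000), .ofNat (nat_lit 80000), .ofNat (nat_lit 200000), .ofNat (nat_lit 80000), .ofNat (nat_lit 200000), .ofNat (nat_lit 80000), .ofNat (nat_lit 200000)⟩⟩, [⟨nat_lit 0, nat_lit 89, nat_lit 32, nat_lit 100, nat_lit 911201111⟩, ⟨nat_lit 3, nat_lit 100, nat_lit 35,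 nat_lit 79, nat_lit 88481499⟩, ⟨nat_lit 19, nat_lit 99, nat_lit 92, nat_lit 100, nat_lit 146924699⟩]⟩
noncomputable def p123_l78 : Lf2 := ⟨nat_lit 0, nat_lit 30, [nat_lit 15, nat_lit 5, nat_lit 5, nat_lit 20], false, nat_lit 80, nat_lit 120, nat_lit 0, nat_lit 336, ⟨nat_lit 142, nat_lit 10, nat_lit 848, nat_lit 7, nat_lit 248, nat_lit 858, nat_lit 94, nat_lit 848, nat_lit 84017, nat_lit 286, nat_lit 49096, nat_lit 200, nat_lit 45056953, nat_lit 17979952, nat_lit 3963095, nat_lit 4161312, true, false⟩,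
 nat_lit 0, nat_lit 0, nat_lit 1751, nat_lit 0, nat_lit 2473, nat_lit 1114, nat_lit 0, nat_lit 0, nat_lit 0, nat_lit 102, nat_lit 0, nat_lit 0, nat_lit 0, nat_lit 0, nat_lit 72, nat_lit 214500, nat_lit 0, nat_lit 0, [(nat_lit 29, [(nat_lit 0, nat_lit 10), (nat_lit 4, nat_lit 848)])],
 ⟨p123_k36, nat_lit 0, nat_lit 0, nat_lit 125, nat_lit 0, nat_lit 0, [nat_lit 1074848800, nat_lit 445443201, nat_lit 286807200], [], [nat_lit 21203028708, nat_lit 22339345160, nat_lit 22428594194, nat_lit 23486933048, nat_lit 21602397961, nat_lit 22689564502, nat_lit 22782686460, nat_lit 23797940988], nat_lit 0, nat_lit 0, nat_lit 0, nat_lit 0, nat_lit 0, nat_lit 0, [], [nat_lit 54, nat_lit 40, nat_lit 40, nat_lit 80, nat_lit 43, nat_lit 317, nat_lit 100, nat_lit 9]⟩, ⟨p123_k30, nat_lit 0, nat_lit 0, nat_lit 784, nat_lit 0, nat_lit 1013859, [nat_lit 466044000, nat_lit 887500000, nat_lit 1996236000], [], [nat_lit 5007549307, nat_lit 5038919351,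 nat_lit 5033202116, nat_lit 5060688690, nat_lit 4627771598, nat_lit 4475273649, nat_lit 4427895726, nat_lit 4452702425], nat_lit 1271250, nat_lit 1271250, nat_lit 1271250, nat_lit 1271250, nat_lit 0, nat_lit 2373000, [nat_lit 780000, nat_lit 1435000, nat_lit 1271250], [nat_lit 71, nat_lit 40, nat_lit 40, nat_lit 80, nat_lit 68, nat_lit 456, nat_lit 225, nat_lit 10]⟩,
 ⟨nat_lit 0, nat_lit 2237, ⟨.ofNat (nat_lit 575619), .ofNat (nat_lit 646249), .ofNat (nat_lit 586543), .ofNat (nat_lit 657173), .ofNat (nat_lit 585925), .ofNat (nat_lit 648136), .ofNat (nat_lit 597962), .ofNat (nat_lit 660173)⟩, ⟨.ofNat (nat_lit 192306), .ofNat (nat_lit 249320), .ofNat (nat_lit 200000), .ofNat (nat_lit 294870), .ofNat (nat_lit 199999), .ofNat (nat_lit 249997), .ofNat (nat_lit 200000), .ofNat (nat_lit 299999)⟩⟩, [⟨nat_lit 0, nat_lit 91, nat_lit 31, nat_lit 100, nat_lit 173142075⟩, ⟨nat_lit 7, nat_lit 91, nat_lit 100, nat_lit 96, nat_lit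 18481542⟩]⟩
noncomputable def p123_l79 : Lf2 := ⟨nat_lit 0, nat_lit 30, [nat_lit 15, nat_lit 5, nat_lit 5, nat_lit 20], false, nat_lit 80, nat_lit 120, nat_lit 0, nat_lit 328, ⟨nat_lit 175, nat_lit 0, nat_lit 825, nat_lit 7, nat_lit 255, nat_lit 825, nat_lit 94, nat_lit 825, nat_lit 84017, nat_lit 286, nat_lit 70888, nat_lit 200, nat_lit 44405954, nat_lit 0, nat_lit 0, nat_lit 4199635, true, false⟩,
 nat_lit 0, nat_lit 0, nat_lit 1908, nat_lit 0, nat_lit 2701, nat_lit 1267, nat_lit 5, nat_lit 0, nat_lit 0, nat_lit 151, nat_lit 0, nat_lit 0, nat_lit 0, nat_lit 0, nat_lit 59, nat_lit 206250, nat_lit 0, nat_lit 0, [(nat_lit 29, [(nat_lit 4, nat_lit 825)])],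
 ⟨p123_k36, nat_lit 0, nat_lit 0, nat_lit 115, nat_lit 0, nat_lit 0, [nat_lit 1028470001, nat_lit 411480000, nat_lit 287880000], [], [nat_lit 21482046484, nat_lit 22064315248, nat_lit 22543378654, nat_lit 23089047350, nat_lit 21837677804, nat_lit 22394386676, nat_lit 22857990896, nat_lit 23380089818], nat_lit 0, nat_lit 0, nat_lit 0, nat_lit 0, nat_lit 0, nat_lit 0, [], [nat_lit 54, nat_lit 40, nat_lit 40, nat_lit 80, nat_lit 43, nat_lit 317, nat_lit 100, nat_lit 9]⟩, ⟨p123_k39, nat_lit 0, nat_lit 0, nat_lit 728, nat_lit 0, nat_lit 860009, [nat_lit 574350000, nat_lit 1093750000, nat_lit 2460150000], [], [nat_lit 5454379135, nat_lit 5504821681, nat_lit 5522482527, nat_lit 5568173081, nat_lit 5012512211, nat_lit 5054891061, nat_lit 5065292574, nat_lit 5106289271], nat_lit 1271250, nat_lit 1271250, nat_lit 1271250, nat_lit 1271250, nat_lit 0, nat_lit 2316500, [nat_lit 780000, nat_lit 1435000, nat_lit 1271250], [nat_lit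 71, nat_lit 40, nat_lit 40, nat_lit 80, nat_lit 68, nat_lit 456, nat_lit 225, nat_lit 10]⟩,
 ⟨nat_lit 1581, nat_lit 2237, ⟨.ofNat (nat_lit 602279), .ofNat (nat_lit 659380), .ofNat (nat_lit 613644), .ofNat (nat_lit 670745), .ofNat (nat_lit 604713), .ofNat (nat_lit 659434), .ofNat (nat_lit 616347), .ofNat (nat_lit 671069)⟩, ⟨.ofNat (nat_lit 192306), .ofNat (nat_lit 249322), .ofNat (nat_lit 200000), .ofNat (nat_lit 294870), .ofNat (nat_lit 196201), .ofNat (nat_lit 250837), .ofNat (nat_lit 200000), .ofNat (nat_lit 297467)⟩⟩, [⟨nat_lit 0, nat_lit 88, nat_lit 32, nat_lit 100, nat_lit 249331533⟩, ⟨nat_lit 7, nat_lit 97, nat_lit 100, nat_lit 98, nat_lit 26309678⟩]⟩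
noncomputable def p123_l80 : Lf2 := ⟨nat_lit 0, nat_lit 30, [nat_lit 15, nat_lit 5, nat_lit 5, nat_lit 20], false, nat_lit 80, nat_lit 120, nat_lit 0, nat_lit 328, ⟨nat_lit 175, nat_lit 279, nat_lit 546, nat_lit 7, nat_lit 263, nat_lit 825, nat_lit 95, nat_lit 546, nat_lit 84017, nat_lit 286, nat_lit 74802, nat_lit 200, nat_lit 43616482, nat_lit 19461445, nat_lit 3922073, nat_lit 4251732, true, false⟩,
 nat_lit 0, nat_lit 0, nat_lit 1952, nat_lit 0, nat_lit 3213, nat_lit 1296, nat_lit 0, nat_lit 0, nat_lit 0, nat_lit 146, nat_lit 0, nat_lit 0, nat_lit 0, nat_lit 0, nat_lit 0, nat_lit 176220, nat_lit 0, nat_lit 0, [(nat_lit 29, [(nat_lit 0, nat_lit 279), (nat_lit 3, nat_lit 546)])],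
 ⟨p123_k38, nat_lit 0, nat_lit 0, nat_lit 105, nat_lit 0, nat_lit 0, [nat_lit 1007714001, nat_lit 451296801, nat_lit 499063600], [], [nat_lit 23410416236, nat_lit 24181681431, nat_lit 23756695856, nat_lit 24554587288, nat_lit 23641931236, nat_lit 24342088119, nat_lit 23962910001, nat_lit 24702403324], nat_lit 0, nat_lit 0, nat_lit 0, nat_lit 0, nat_lit 0, nat_lit 0, [], [nat_lit 20, nat_lit 40, nat_lit 40, nat_lit 80, nat_lit 16, nat_lit 238, nat_lit 30, nat_lit 8]⟩, ⟨p123_k39, nat_lit 0, nat_lit 0, nat_lit 770, nat_lit 0, nat_lit 1008927, [nat_lit 574350000, nat_lit 1093750000, nat_lit 2460150000], [], [nat_lit 5619732789, nat_lit 5654766875, nat_lit 5630529488, nat_lit 5664406478, nat_lit 5132184923, nat_lit 5160830342, nat_lit 5138954479, nat_lit 5166600133], nat_lit 1271250, nat_lit 1271250, nat_lit 1271250, nat_lit 1271250, nat_lit 0, nat_lit 2316500, [nat_lit 780000, nat_lit 1435000, nat_lit 1271250], [nat_lit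 71, nat_lit 40, nat_lit 40, nat_lit 80, nat_lit 68, nat_lit 456, nat_lit 225, nat_lit 10]⟩,
 ⟨nat_lit 0, nat_lit 1582, ⟨.ofNat (nat_lit 641124), .ofNat (nat_lit 657909), .ofNat (nat_lit 652453), .ofNat (nat_lit 669237), .ofNat (nat_lit 645461), .ofNat (nat_lit 660855), .ofNat (nat_lit 657633), .ofNat (nat_lit 673026)⟩, ⟨.ofNat (nat_lit 196201), .ofNat (nat_lit 250836), .ofNat (nat_lit 200000), .ofNat (nat_lit 297467), .ofNat (nat_lit 199999), .ofNat (nat_lit 249998), .ofNat (nat_lit 200000), .ofNat (nat_lit 299999)⟩⟩, [⟨nat_lit 0, nat_lit 90, nat_lit 32, nat_lit 100, nat_lit 818906857⟩, ⟨nat_lit 7, nat_lit 97, nat_lit 100, nat_lit 98, nat_lit 25678857⟩]⟩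
noncomputable def p123_l81 : Lf2 := ⟨nat_lit 0, nat_lit 30, [nat_lit 15, nat_lit 5, nat_lit 5, nat_lit 20], true, nat_lit 120, nat_lit 160, nat_lit 0, nat_lit 336, ⟨nat_lit 0, nat_lit 1000, nat_lit 0, nat_lit 7, nat_lit 250, nat_lit 1000, nat_lit 120, nat_lit 0, nat_lit 0, nat_lit 0, nat_lit 0, nat_lit 0, nat_lit 43478507, nat_lit 17891810, nat_lit 5629683, nat_lit 4482712, true, false⟩,
 nat_lit 0, nat_lit 0, nat_lit 0, nat_lit 0, nat_lit 3567, nat_lit 0, nat_lit 0, nat_lit 0, nat_lit 0, nat_lit 0, nat_lit 0, nat_lit 0, nat_lit 0, nat_lit 0, nat_lit 0, nat_lit 250000, nat_lit 0, nat_lit 0, [(nat_lit 29, [(nat_lit 0, nat_lit 1000)])],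
 ⟨p123_k40, nat_lit 0, nat_lit 0, nat_lit 77, nat_lit 0, nat_lit 0, [nat_lit 781600001, nat_lit 1553200001, nat_lit 2175066667], [], [nat_lit 22147918064, nat_lit 23756165438, nat_lit 23538117454, nat_lit 25137380116, nat_lit 22426703992, nat_lit 23876606338, nat_lit 23754967503, nat_lit 25209430240], nat_lit 0, nat_lit 0, nat_lit 0, nat_lit 0, nat_lit 0, nat_lit 0, [], [nat_lit 57, nat_lit 40, nat_lit 40, nat_lit 80, nat_lit 7, nat_lit 317, nat_lit 100, nat_lit 9]⟩, C1.Rw.none,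
 ⟨nat_lit 0, nat_lit 2237, ⟨.ofNat (nat_lit 575619), .ofNat (nat_lit 646249), .ofNat (nat_lit 597467), .ofNat (nat_lit 668096), .ofNat (nat_lit 585925), .ofNat (nat_lit 648136), .ofNat (nat_lit 609999), .ofNat (nat_lit 672209)⟩, ⟨.ofNat (nat_lit 249320), .ofNat (nat_lit 306334), .ofNat (nat_lit 294870), .ofNat (nat_lit 351885), .ofNat (nat_lit 249997), .ofNat (nat_lit 299996), .ofNat (nat_lit 299999), .ofNat (nat_lit 349998)⟩⟩, []⟩
noncomputable def b_V_900_700_20_26 : St := ⟨true, nat_lit 0, nat_lit 1, nat_lit 1, nat_lit 120, nat_lit 360, nat_lit 400, nat_lit 280, nat_lit 300, nat_lit 152, nat_lit 240, nat_lit 80, nat_lit 120, nat_lit 8, nat_lit 160, nat_lit 0, nat_lit 336, nat_lit 80, nat_lit 120, nat_lit 0, nat_lit 0, nat_lit 0, nat_lit 0⟩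
theorem d_V_900_700_20_26 (h : EB TB.env) : Dead b_V_900_700_20_26 := chkB_sound0 h (T :=
(.spl (nat_lit 0) (nat_lit 380)
(.spl (nat_lit 5) (nat_lit 160)
(.spl (nat_lit 3) (nat_lit 100)
(.leaf p123_l58)
(.trZ (nat_lit 3) (nat_lit 100) (nat_lit 69) (nat_lit 45) (nat_lit 16) (.leaf p123_l59)))
(.spl (nat_lit 3) (nat_lit 100)
(.trX (nat_lit 19) (nat_lit 100) (nat_lit 88) (nat_lit 94) (nat_lit 320) (.spl (nat_lit 4) (nat_lit 80)
(.spl (nat_lit 2) (nat_lit 200)
(.leaf p123_l60)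
(.spl (nat_lit 1) (nat_lit 290)
(.leaf p123_l61)
(.trX (nat_lit 19) (nat_lit 100) (nat_lit 94) (nat_lit 97) (nat_lit 312) (.leaf p123_l62))))
(.leaf p123_l63)))
(.trZ (nat_lit 3) (nat_lit 100) (nat_lit 69) (nat_lit 45) (nat_lit 16) (.spl (nat_lit 0) (nat_lit 370)
(.spl (nat_lit 4) (nat_lit 80)
(.spl (nat_lit 0) (nat_lit 365)
(.spl (nat_lit 6) (nat_lit 100)
(.leaf p123_l64)
(.leaf p123_l65))
(.trZ (nat_lit 0) (nat_lit 93) (nat_lit 58) (nat_lit 100) (nat_lit 160) (.leaf p123_l66)))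
(.leaf p123_l67))
(.trZ (nat_lit 0) (nat_lit 93) (nat_lit 53) (nat_lit 100) (nat_lit 168) (.trZ (nat_lit 3) (nat_lit 100) (nat_lit 61) (nat_lit 55) (nat_lit 20) (.spl (nat_lit 5) (nat_lit 240)
(.leaf p123_l68)
(.spl (nat_lit 4) (nat_lit 80)
(.spl (nat_lit 0) (nat_lit 375)
(.leaf p123_l69)
(.trZ (nat_lit 0) (nat_lit 92) (nat_lit 49) (nat_lit 100) (nat_lit 180) (.trZ (nat_lit 3) (nat_lit 100) (nat_lit 56) (nat_lit 60) (nat_lit 28) (.leaf p123_l70))))
(.leaf p123_l71)))))))))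
(.trZ (nat_lit 0) (nat_lit 92) (nat_lit 44) (nat_lit 100) (nat_lit 192) (.trZ (nat_lit 3) (nat_lit 100) (nat_lit 54) (nat_lit 57) (nat_lit 20) (.spl (nat_lit 4) (nat_lit 80)
(.spl (nat_lit 3) (nat_lit 100)
(.trX (nat_lit 19) (nat_lit 100) (nat_lit 88) (nat_lit 94) (nat_lit 320) (.leaf p123_l72))
(.trZ (nat_lit 3) (nat_lit 100) (nat_lit 50) (nat_lit 65) (nat_lit 32) (.spl (nat_lit 1) (nat_lit 290)
(.spl (nat_lit 0) (nat_lit 390)
(.spl (nat_lit 0) (nat_lit 385)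
(.leaf p123_l73)
(.trZ (nat_lit 0) (nat_lit 92) (nat_lit 38) (nat_lit 100) (nat_lit 204) (.trZ (nat_lit 3) (nat_lit 100) (nat_lit 44) (nat_lit 71) (nat_lit 40) (.leaf p123_l74))))
(.trZ (nat_lit 0) (nat_lit 92) (nat_lit 31) (nat_lit 100) (nat_lit 216) (.trZ (nat_lit 3) (nat_lit 100) (nat_lit 36) (nat_lit 77) (nat_lit 48) (.leaf p123_l75))))
(.trZ (nat_lit 0) (nat_lit 89) (nat_lit 44) (nat_lit 100) (nat_lit 200) (.trX (nat_lit 19) (nat_lit 97) (nat_lit 84) (nat_lit 100) (nat_lit 328) (.spl (nat_lit 5) (nat_lit 160)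
(.leaf p123_l76)
(.leaf p123_l77)))))))
(.spl (nat_lit 4) (nat_lit 120)
(.spl (nat_lit 1) (nat_lit 290)
(.leaf p123_l78)
(.trZ (nat_lit 0) (nat_lit 89) (nat_lit 44) (nat_lit 100) (nat_lit 200) (.trX (nat_lit 19) (nat_lit 97) (nat_lit 84) (nat_lit 100) (nat_lit 328) (.spl (nat_lit 0) (nat_lit 390)
(.leaf p123_l79)
(.trZ (nat_lit 0) (nat_lit 90) (nat_lit 32) (nat_lit 100) (nat_lit 228) (.leaf p123_l80))))))
(.leaf p123_l81))))))) (by decide +kernel)
noncomputable def p123_l82 : Lf2 := ⟨nat_lit 0, nat_lit 30, [nat_lit 15, nat_lit 5, nat_lit 5, nat_lit 20], false, nat_lit 8, nat_lit 160, nat_lit 0, nat_lit 160, ⟨nat_lit 1000, nat_lit 0, nat_lit 0, nat_lit 0, nat_lit 0, nat_lit 0, nat_lit 0, nat_lit 0, nat_lit 0, nat_lit 0, nat_lit 0, nat_lit 0, nat_lit 0, nat_lit 0, nat_lit 0, nat_lit 0, false, false⟩,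
 nat_lit 0, nat_lit 0, nat_lit 10404, nat_lit 0, nat_lit 5287, nat_lit 7202, nat_lit 606, nat_lit 0, nat_lit 0, nat_lit 1194, nat_lit 0, nat_lit 0, nat_lit 0, nat_lit 0, nat_lit 0, nat_lit 0, nat_lit 0, nat_lit 0, [],
 ⟨p123_k29, nat_lit 0, nat_lit 0, nat_lit 185, nat_lit 0, nat_lit 0, [nat_lit 938000000, nat_lit 3282000000, nat_lit 9842000000], [], [nat_lit 25654074558, nat_lit 27367205379, nat_lit 27167928742, nat_lit 29382553973, nat_lit 22654830044, nat_lit 23945856348, nat_lit 23894644832, nat_lit 25054414230], nat_lit 0, nat_lit 0, nat_lit 0, nat_lit 0, nat_lit 0, nat_lit 0, [], [nat_lit 93, nat_lit 40, nat_lit 40, nat_lit 80, nat_lit 63, nat_lit 317, nat_lit 100, nat_lit 9]⟩, ⟨p123_k41, nat_lit 0, nat_lit 0, nat_lit 647, nat_lit 0, nat_lit 808497, [nat_lit 3282000000, nat_lit 6250000000, nat_lit 11872000000], [], [nat_lit 23889516374, nat_lit 24627382479, nat_lit 24870457466, nat_lit 26187228960, nat_lit 20015671984,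 nat_lit 20722787872, nat_lit 21954632094, nat_lit 21502066696], nat_lit 1271250, nat_lit 1271250, nat_lit 1236400, nat_lit 1794000, nat_lit 0, nat_lit 1100001, [nat_lit 780000, nat_lit 1435000, nat_lit 1271250], [nat_lit 23, nat_lit 40, nat_lit 40, nat_lit 80, nat_lit 12, nat_lit 428, nat_lit 200, nat_lit 11]⟩,
 zbF0, [⟨nat_lit 0, nat_lit 82, nat_lit 44, nat_lit 100, nat_lit 813751554⟩]⟩
noncomputable def p123_l83 : Lf2 := ⟨nat_lit 0, nat_lit 30, [nat_lit 15, nat_lit 5, nat_lit 5, nat_lit 20], false, nat_lit 8, nat_lit 160, nat_lit 160, nat_lit 240, ⟨nat_lit 1000, nat_lit 0, nat_lit 0, nat_lit 0, nat_lit 0, nat_lit 0, nat_lit 0, nat_lit 0, nat_lit 0, nat_lit 0, nat_lit 0, nat_lit 0, nat_lit 0, nat_lit 0, nat_lit 0, nat_lit 0, false, false⟩,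
 nat_lit 0, nat_lit 0, nat_lit 9464, nat_lit 0, nat_lit 5287, nat_lit 6551, nat_lit 606, nat_lit 0, nat_lit 0, nat_lit 891, nat_lit 0, nat_lit 0, nat_lit 0, nat_lit 0, nat_lit 0, nat_lit 0, nat_lit 0, nat_lit 0, [],
 ⟨p123_k29, nat_lit 0, nat_lit 0, nat_lit 185, nat_lit 0, nat_lit 0, [nat_lit 938000000, nat_lit 3282000000, nat_lit 9842000000], [], [nat_lit 25654074558, nat_lit 27367205379, nat_lit 27167928742, nat_lit 29382553973, nat_lit 22654830044, nat_lit 23945856348, nat_lit 23894644832, nat_lit 25054414230], nat_lit 0, nat_lit 0, nat_lit 0, nat_lit 0, nat_lit 0, nat_lit 0, [], [nat_lit 93, nat_lit 40, nat_lit 40, nat_lit 80, nat_lit 63, nat_lit 317, nat_lit 100, nat_lit 9]⟩, ⟨p123_k41, nat_lit 0, nat_lit 0, nat_lit 515, nat_lit 0, nat_lit 808497, [nat_lit 3282000000, nat_lit 6250000000, nat_lit 11872000000], [], [nat_lit 23799170413, nat_lit 24527538321, nat_lit 24568695589, nat_lit 25203928273, nat_lit 24633450195,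 nat_lit 25249387987, nat_lit 25174130319, nat_lit 25712304327], nat_lit 1271250, nat_lit 1271250, nat_lit 1236400, nat_lit 1794000, nat_lit 1100001, nat_lit 1785000, [nat_lit 780000, nat_lit 1435000, nat_lit 1271250], [nat_lit 23, nat_lit 40, nat_lit 40, nat_lit 80, nat_lit 12, nat_lit 428, nat_lit 200, nat_lit 10]⟩,
 zbF0, [⟨nat_lit 0, nat_lit 82, nat_lit 44, nat_lit 100, nat_lit 882918599⟩]⟩
noncomputable def p123_l84 : Lf2 := ⟨nat_lit 0, nat_lit 30, [nat_lit 15, nat_lit 5, nat_lit 5, nat_lit 20], false, nat_lit 8, nat_lit 160, nat_lit 240, nat_lit 320, ⟨nat_lit 1000, nat_lit 0, nat_lit 0, nat_lit 0, nat_lit 0, nat_lit 0, nat_lit 0, nat_lit 0, nat_lit 0, nat_lit 0, nat_lit 0, nat_lit 0, nat_lit 0, nat_lit 0, nat_lit 0, nat_lit 0, false, false⟩,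
 nat_lit 0, nat_lit 0, nat_lit 9620, nat_lit 0, nat_lit 5452, nat_lit 6660, nat_lit 613, nat_lit 0, nat_lit 0, nat_lit 909, nat_lit 0, nat_lit 0, nat_lit 0, nat_lit 0, nat_lit 0, nat_lit 0, nat_lit 0, nat_lit 0, [],
 ⟨p123_k29, nat_lit 0, nat_lit 0, nat_lit 180, nat_lit 0, nat_lit 0, [nat_lit 938000000, nat_lit 3282000000, nat_lit 9842000000], [], [nat_lit 25648603118, nat_lit 26503748657, nat_lit 27470953119, nat_lit 28602683954, nat_lit 22310200774, nat_lit 22966586766, nat_lit 23571663782, nat_lit 24223743382], nat_lit 0, nat_lit 0, nat_lit 0, nat_lit 0, nat_lit 0, nat_lit 0, [], [nat_lit 93, nat_lit 40, nat_lit 40, nat_lit 80, nat_lit 63, nat_lit 317, nat_lit 100, nat_lit 9]⟩, ⟨p123_k41, nat_lit 0, nat_lit 0, nat_lit 405, nat_lit 0, nat_lit 686082, [nat_lit 3282000000, nat_lit 6250000000, nat_lit 11872000000], [], [nat_lit 24051046212, nat_lit 24669838932, nat_lit 24580379915, nat_lit 25283666605, nat_lit 26168405069,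 nat_lit 26847199461, nat_lit 26820651605, nat_lit 27450955445], nat_lit 1271250, nat_lit 1271250, nat_lit 1236400, nat_lit 1794000, nat_lit 1271250, nat_lit 1271250, [nat_lit 780000, nat_lit 1435000, nat_lit 1271250], [nat_lit 23, nat_lit 40, nat_lit 40, nat_lit 80, nat_lit 12, nat_lit 456, nat_lit 225, nat_lit 11]⟩,
 zbF0, [⟨nat_lit 0, nat_lit 80, nat_lit 53, nat_lit 100, nat_lit 708070604⟩, ⟨nat_lit 7, nat_lit 100, nat_lit 93, nat_lit 97, nat_lit 420563075⟩]⟩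
noncomputable def p123_l85 : Lf2 := ⟨nat_lit 0, nat_lit 30, [nat_lit 15, nat_lit 5, nat_lit 5, nat_lit 20], false, nat_lit 12, nat_lit 160, nat_lit 240, nat_lit 320, ⟨nat_lit 687, nat_lit 313, nat_lit 0, nat_lit 7, nat_lit 259, nat_lit 313, nat_lit 72, nat_lit 0, nat_lit 0, nat_lit 0, nat_lit 0, nat_lit 0, nat_lit 45051277, nat_lit 19330961, nat_lit 2617762, nat_lit 3937742, true, false⟩,
 nat_lit 0, nat_lit 0, nat_lit 6500, nat_lit 0, nat_lit 3878, nat_lit 4499, nat_lit 469, nat_lit 0, nat_lit 0, nat_lit 612, nat_lit 0, nat_lit 0, nat_lit 0, nat_lit 0, nat_lit 0, nat_lit 78250, nat_lit 0, nat_lit 0, [(nat_lit 26, [(nat_lit 0, nat_lit 313)])],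
 ⟨p123_k33, nat_lit 0, nat_lit 0, nat_lit 156, nat_lit 0, nat_lit 0, [nat_lit 884038800, nat_lit 2683168400, nat_lit 6260522400], [], [nat_lit 23626003651, nat_lit 24636777502, nat_lit 25311235741, nat_lit 26231944817, nat_lit 22149131295, nat_lit 22795490221, nat_lit 23335964194, nat_lit 23933850620], nat_lit 0, nat_lit 0, nat_lit 0, nat_lit 0, nat_lit 0, nat_lit 0, [], [nat_lit 54, nat_lit 40, nat_lit 40, nat_lit 80, nat_lit 43, nat_lit 317, nat_lit 100, nat_lit 10]⟩, ⟨p123_k41, nat_lit 0, nat_lit 0, nat_lit 491, nat_lit 0, nat_lit 808497, [nat_lit 2254734000, nat_lit 4293750000, nat_lit 8156064000], [], [nat_lit 16973903518, nat_lit 17383760456, nat_lit 17300969512, nat_lit 17670780436, nat_lit 18331153538, nat_lit 18779914693, nat_lit 18722185140, nat_lit 19125416044], nat_lit 1271250, nat_lit 1271250, nat_lit 1271250, nat_lit 1271250, nat_lit 1271250, nat_lit 1271250, [nat_lit 780000, nat_lit 1435000, nat_lit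 1271250], [nat_lit 23, nat_lit 40, nat_lit 40, nat_lit 80, nat_lit 12, nat_lit 456, nat_lit 225, nat_lit 11]⟩,
 ⟨nat_lit 2236, nat_lit 2739, ⟨.ofNat (nat_lit 600166), .ofNat (nat_lit 671081), .ofNat (nat_lit 622563), .ofNat (nat_lit 693478), .ofNat (nat_lit 602359), .ofNat (nat_lit 670819), .ofNat (nat_lit 625113), .ofNat (nat_lit 693574)⟩, ⟨.ofNat (nat_lit 30000), .ofNat (nat_lit 306433), .ofNat (nat_lit 30000), .ofNat (nat_lit 351268), .ofNat (nat_lit 30000), .ofNat (nat_lit 306337), .ofNat (nat_lit 30000), .ofNat (nat_lit 351886)⟩⟩, [⟨nat_lit 0, nat_lit 82, nat_lit 44, nat_lit 100, nat_lit 499994083⟩, ⟨nat_lit 7, nat_lit 100, nat_lit 93, nat_lit 97, nat_lit 286637904⟩]⟩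
noncomputable def p123_l86 : Lf2 := ⟨nat_lit 0, nat_lit 25, [nat_lit 44, nat_lit 5, nat_lit 5, nat_lit 20], false, nat_lit 20, nat_lit 160, nat_lit 0, nat_lit 300, ⟨nat_lit 322, nat_lit 395, nat_lit 283, nat_lit 7, nat_lit 265, nat_lit 678, nat_lit 73, nat_lit 283, nat_lit 50417, nat_lit 270, nat_lit 121316, nat_lit 200, nat_lit 44412544, nat_lit 19920894, nat_lit 2666562, nat_lit 3987473, true, false⟩,
 nat_lit 0, nat_lit 0, nat_lit 3268, nat_lit 0, nat_lit 2824, nat_lit 2262, nat_lit 52, nat_lit 0, nat_lit 0, nat_lit 304, nat_lit 0, nat_lit 0, nat_lit 0, nat_lit 0, nat_lit 0, nat_lit 271200, nat_lit 0, nat_lit 0, [(nat_lit 29, [(nat_lit 1, nat_lit 395), (nat_lit 5, nat_lit 283)])],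
 ⟨p123_k35, nat_lit 0, nat_lit 0, nat_lit 141, nat_lit 0, nat_lit 0, [nat_lit 745892801, nat_lit 705976134, nat_lit 829447200], [], [nat_lit 23029448702, nat_lit 24557057723, nat_lit 23857748188, nat_lit 25412846312, nat_lit 22793375883, nat_lit 23938852987, nat_lit 23524398550, nat_lit 24629353124], nat_lit 0, nat_lit 0, nat_lit 0, nat_lit 0, nat_lit 0, nat_lit 0, [], [nat_lit 20, nat_lit 40, nat_lit 40, nat_lit 80, nat_lit 16, nat_lit 249, nat_lit 40, nat_lit 8]⟩, ⟨p123_k42, nat_lit 0, nat_lit 0, nat_lit 716, nat_lit 0, nat_lit 1039114, [nat_lit 1056804000, nat_lit 2012500000, nat_lit 3822784000], [], [nat_lit 8927911893, nat_lit 9125622015, nat_lit 9044536648, nat_lit 9285182448, nat_lit 8285916642, nat_lit 8407861394, nat_lit 8329383279, nat_lit 8442592276], nat_lit 1271250, nat_lit 1271250, nat_lit 1271250, nat_lit 1271250, nat_lit 0, nat_lit 2118750, [nat_lit 780000, nat_lit 1435000, nat_lit 1271250], [nat_lit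 23, nat_lit 40, nat_lit 40, nat_lit 80, nat_lit 12, nat_lit 456, nat_lit 225, nat_lit 11]⟩,
 ⟨nat_lit 0, nat_lit 2237, ⟨.ofNat (nat_lit 626896), .ofNat (nat_lit 668096), .ofNat (nat_lit 648744), .ofNat (nat_lit 689944), .ofNat (nat_lit 635920), .ofNat (nat_lit 672209), .ofNat (nat_lit 659993), .ofNat (nat_lit 696283)⟩, ⟨.ofNat (nat_lit 50000), .ofNat (nat_lit 306334), .ofNat (nat_lit 50000), .ofNat (nat_lit 329109), .ofNat (nat_lit 50000), .ofNat (nat_lit 299996), .ofNat (nat_lit 50000), .ofNat (nat_lit 324996)⟩⟩, [⟨nat_lit 0, nat_lit 87, nat_lit 44, nat_lit 100, nat_lit 668777083⟩, ⟨nat_lit 7, nat_lit 100, nat_lit 91, nat_lit 91, nat_lit 53028978⟩]⟩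
noncomputable def p123_l87 : Lf2 := ⟨nat_lit 0, nat_lit 30, [nat_lit 15, nat_lit 5, nat_lit 5, nat_lit 20], false, nat_lit 32, nat_lit 160, nat_lit 0, nat_lit 320, ⟨nat_lit 542, nat_lit 214, nat_lit 244, nat_lit 7, nat_lit 265, nat_lit 458, nat_lit 84, nat_lit 244, nat_lit 66150, nat_lit 278, nat_lit 117426, nat_lit 200, nat_lit 43899696, nat_lit 19816598, nat_lit 3283706, nat_lit 4131001, true, false⟩,
 nat_lit 0, nat_lit 0, nat_lit 5342, nat_lit 0, nat_lit 3279, nat_lit 3698, nat_lit 317, nat_lit 0, nat_lit 0, nat_lit 496, nat_lit 0, nat_lit 0, nat_lit 0, nat_lit 0, nat_lit 0, nat_lit 101080, nat_lit 0, nat_lit 0, [(nat_lit 29, [(nat_lit 0, nat_lit 214), (nat_lit 3, nat_lit 244)])],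
 ⟨p123_k36, nat_lit 0, nat_lit 0, nat_lit 149, nat_lit 0, nat_lit 0, [nat_lit 955184800, nat_lit 1811420800, nat_lit 4180768800], [], [nat_lit 23468091296, nat_lit 24329838569, nat_lit 24412822967, nat_lit 25243944975, nat_lit 22918746465, nat_lit 23486910353, nat_lit 23601920289, nat_lit 24187331395], nat_lit 0, nat_lit 0, nat_lit 0, nat_lit 0, nat_lit 0, nat_lit 0, [], [nat_lit 54, nat_lit 40, nat_lit 40, nat_lit 80, nat_lit 43, nat_lit 317, nat_lit 100, nat_lit 9]⟩, ⟨p123_k41, nat_lit 0, nat_lit 0, nat_lit 576, nat_lit 0, nat_lit 756256, [nat_lit 1778844000, nat_lit 3387500000, nat_lit 6434624000], [], [nat_lit 15025350926, nat_lit 15368751321, nat_lit 15219334632, nat_lit 15737301936, nat_lit 14435549295, nat_lit 14695234374, nat_lit 14558487332, nat_lit 14800900208], nat_lit 1271250, nat_lit 1271250, nat_lit 1271250, nat_lit 1271250, nat_lit 0, nat_lit 2260000, [nat_lit 780000, nat_lit 1435000, nat_lit 1271250],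 [nat_lit 23, nat_lit 40, nat_lit 40, nat_lit 80, nat_lit 12, nat_lit 456, nat_lit 225, nat_lit 11]⟩,
 ⟨nat_lit 1581, nat_lit 2237, ⟨.ofNat (nat_lit 630774), .ofNat (nat_lit 670745), .ofNat (nat_lit 653503), .ofNat (nat_lit 693473), .ofNat (nat_lit 632764), .ofNat (nat_lit 671069), .ofNat (nat_lit 656033), .ofNat (nat_lit 694338)⟩, ⟨.ofNat (nat_lit 80000), .ofNat (nat_lit 329112), .ofNat (nat_lit 80000), .ofNat (nat_lit 351886), .ofNat (nat_lit 80000), .ofNat (nat_lit 328788), .ofNat (nat_lit 80000), .ofNat (nat_lit 352103)⟩⟩, [⟨nat_lit 0, nat_lit 85, nat_lit 39, nat_lit 100, nat_lit 974988813⟩, ⟨nat_lit 19, nat_lit 94, nat_lit 97, nat_lit 100, nat_lit 91013620⟩]⟩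
noncomputable def b_V_900_700_20_27 : St := ⟨true, nat_lit 0, nat_lit 1, nat_lit 1, nat_lit 120, nat_lit 360, nat_lit 400, nat_lit 300, nat_lit 320, nat_lit 152, nat_lit 240, nat_lit 80, nat_lit 120, nat_lit 8, nat_lit 160, nat_lit 0, nat_lit 336, nat_lit 80, nat_lit 120, nat_lit 0, nat_lit 0, nat_lit 0, nat_lit 0⟩
theorem d_V_900_700_20_27 (h : EB TB.env) : Dead b_V_900_700_20_27 := chkB_sound0 h (T :=
(.trZ (nat_lit 0) (nat_lit 87) (nat_lit 60) (nat_lit 100) (nat_lit 176) (.trX (nat_lit 19) (nat_lit 94) (nat_lit 88) (nat_lit 100) (nat_lit 320) (.spl (nat_lit 0) (nat_lit 380)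
(.spl (nat_lit 5) (nat_lit 160)
(.leaf p123_l82)
(.spl (nat_lit 5) (nat_lit 240)
(.leaf p123_l83)
(.spl (nat_lit 0) (nat_lit 370)
(.leaf p123_l84)
(.trZ (nat_lit 0) (nat_lit 87) (nat_lit 53) (nat_lit 100) (nat_lit 192) (.trZ (nat_lit 3) (nat_lit 100) (nat_lit 66) (nat_lit 45) (nat_lit 12) (.leaf p123_l85))))))
(.trZ (nat_lit 0) (nat_lit 87) (nat_lit 44) (nat_lit 100) (nat_lit 212) (.trZ (nat_lit 3) (nat_lit 100) (nat_lit 54) (nat_lit 57) (nat_lit 20) (.spl (nat_lit 3) (nat_lit 100)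
(.trX (nat_lit 19) (nat_lit 100) (nat_lit 100) (nat_lit 100) (nat_lit 300) (.leaf p123_l86))
(.trZ (nat_lit 3) (nat_lit 100) (nat_lit 50) (nat_lit 65) (nat_lit 32) (.spl (nat_lit 0) (nat_lit 390)
(.leaf p123_l87)
(.emL (nat_lit 0) (nat_lit 88) (nat_lit 32) (nat_lit 100))))))))))) (by decide +kernel)
noncomputable def p123_l88 : Lf2 := ⟨nat_lit 0, nat_lit 30, [nat_lit 15, nat_lit 5, nat_lit 5, nat_lit 20], true, nat_lit 160, nat_lit 248, nat_lit 0, nat_lit 336, ⟨nat_lit 0, nat_lit 1000, nat_lit 0, nat_lit 7, nat_lit 223, nat_lit 1000, nat_lit 158, nat_lit 0, nat_lit 0, nat_lit 0, nat_lit 0, nat_lit 0, nat_lit 43522565, nat_lit 14888539, nat_lit 8588896, nat_lit 4714559, false, false⟩,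
 nat_lit 0, nat_lit 0, nat_lit 0, nat_lit 7091, nat_lit 3158, nat_lit 0, nat_lit 0, nat_lit 0, nat_lit 0, nat_lit 0, nat_lit 0, nat_lit 0, nat_lit 0, nat_lit 0, nat_lit 0, nat_lit 250000, nat_lit 0, nat_lit 0, [(nat_lit 26, [(nat_lit 0, nat_lit 1000)])],
 ⟨p123_k29, nat_lit 0, nat_lit 0, nat_lit 42, nat_lit 0, nat_lit 0, [nat_lit 765600000, nat_lit 1432000001, nat_lit 2936000000], [], [nat_lit 19601326600, nat_lit 20350739374, nat_lit 20751060329, nat_lit 21446760805, nat_lit 22260188859, nat_lit 22905638224, nat_lit 23213809542, nat_lit 23815084857], nat_lit 0, nat_lit 0, nat_lit 0, nat_lit 0, nat_lit 0, nat_lit 0, [], [nat_lit 93, nat_lit 40, nat_lit 40, nat_lit 80, nat_lit 63, nat_lit 345, nat_lit 125, nat_lit 9]⟩, C1.Rw.none,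
 ⟨nat_lit 2738, nat_lit 3163, ⟨.ofNat (nat_lit 515404), .ofNat (nat_lit 588571), .ofNat (nat_lit 526476), .ofNat (nat_lit 599642), .ofNat (nat_lit 518725), .ofNat (nat_lit 589621), .ofNat (nat_lit 529928), .ofNat (nat_lit 600823)⟩, ⟨.ofNat (nat_lit 306116), .ofNat (nat_lit 440213), .ofNat (nat_lit 350426), .ofNat (nat_lit 484523), .ofNat (nat_lit 306433), .ofNat (nat_lit 436368), .ofNat (nat_lit 351268), .ofNat (nat_lit 481203)⟩⟩, [⟨nat_lit 4, nat_lit 100, nat_lit 57, nat_lit 87, nat_lit 283997853⟩]⟩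
noncomputable def p123_l89 : Lf2 := ⟨nat_lit 0, nat_lit 30, [nat_lit 15, nat_lit 5, nat_lit 5, nat_lit 20], false, nat_lit 160, nat_lit 248, nat_lit 0, nat_lit 328, ⟨nat_lit 206, nat_lit 794, nat_lit 0, nat_lit 7, nat_lit 232, nat_lit 794, nat_lit 158, nat_lit 0, nat_lit 0, nat_lit 0, nat_lit 0, nat_lit 0, nat_lit 42860110, nat_lit 15625392, nat_lit 8514498, nat_lit 4766306, false, false⟩,
 nat_lit 0, nat_lit 0, nat_lit 2311, nat_lit 3949, nat_lit 3598, nat_lit 1534, nat_lit 0, nat_lit 0, nat_lit 0, nat_lit 120, nat_lit 0, nat_lit 0, nat_lit 0, nat_lit 0, nat_lit 0, nat_lit 198500, nat_lit 0, nat_lit 0, [(nat_lit 26, [(nat_lit 0, nat_lit 794)])],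
 ⟨p123_k29, nat_lit 0, nat_lit 0, nat_lit 40, nat_lit 0, nat_lit 0, [nat_lit 801114401, nat_lit 1813100001, nat_lit 4326500000], [], [nat_lit 19979098091, nat_lit 20766377027, nat_lit 20890651369, nat_lit 21633221525, nat_lit 22634303899, nat_lit 23381247472, nat_lit 23402304426, nat_lit 24108315353], nat_lit 0, nat_lit 0, nat_lit 0, nat_lit 0, nat_lit 0, nat_lit 0, [], [nat_lit 93, nat_lit 40, nat_lit 40, nat_lit 80, nat_lit 63, nat_lit 345, nat_lit 125, nat_lit 9]⟩, ⟨p123_k39, nat_lit 0, nat_lit 0, nat_lit 594, nat_lit 0, nat_lit 579257, [nat_lit 676092000, nat_lit 1287500000, nat_lit 2895948000], [], [nat_lit 7032072620, nat_lit 7116833720, nat_lit 7070146290, nat_lit 7149936704, nat_lit 6626987713, nat_lit 6703008240, nat_lit 7040573458, nat_lit 6698580277], nat_lit 1271250, nat_lit 1271250, nat_lit 1133651, nat_lit 1443250, nat_lit 0, nat_lit 2316500, [nat_lit 780000, nat_lit 1435000, nat_lit 1271250], [nat_lit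 71, nat_lit 40, nat_lit 40, nat_lit 80, nat_lit 68, nat_lit 456, nat_lit 225, nat_lit 10]⟩,
 ⟨nat_lit 2738, nat_lit 3163, ⟨.ofNat (nat_lit 544767), .ofNat (nat_lit 599642), .ofNat (nat_lit 555839), .ofNat (nat_lit 610714), .ofNat (nat_lit 547651), .ofNat (nat_lit 600823), .ofNat (nat_lit 558854), .ofNat (nat_lit 612026)⟩, ⟨.ofNat (nat_lit 306116), .ofNat (nat_lit 440213), .ofNat (nat_lit 350426), .ofNat (nat_lit 484523), .ofNat (nat_lit 306433), .ofNat (nat_lit 436368), .ofNat (nat_lit 351268), .ofNat (nat_lit 481203)⟩⟩, [⟨nat_lit 0, nat_lit 88, nat_lit 57, nat_lit 100, nat_lit 109001069⟩, ⟨nat_lit 16, nat_lit 62, nat_lit 100, nat_lit 94, nat_lit 308944788⟩, ⟨nat_lit 19, nat_lit 100, nat_lit 97, nat_lit 98, nat_lit 10429660⟩, ⟨nat_lit 19, nat_lit 97, nat_lit 84, nat_lit 100, nat_lit 22097929⟩]⟩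
noncomputable def p123_l90 : Lf2 := ⟨nat_lit 0, nat_lit 30, [nat_lit 15, nat_lit 5, nat_lit 5, nat_lit 20], true, nat_lit 160, nat_lit 232, nat_lit 0, nat_lit 336, ⟨nat_lit 0, nat_lit 1000, nat_lit 0, nat_lit 7, nat_lit 231, nat_lit 1000, nat_lit 152, nat_lit 0, nat_lit 0, nat_lit 0, nat_lit 0, nat_lit 0, nat_lit 43209496, nat_lit 15682347, nat_lit 8108157, nat_lit 4713521, true, false⟩,
 nat_lit 0, nat_lit 0, nat_lit 0, nat_lit 6976, nat_lit 3131, nat_lit 0, nat_lit 0, nat_lit 0, nat_lit 0, nat_lit 0, nat_lit 0, nat_lit 0, nat_lit 0, nat_lit 0, nat_lit 0, nat_lit 250000, nat_lit 0, nat_lit 0, [(nat_lit 26, [(nat_lit 0, nat_lit 1000)])],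
 ⟨p123_k33, nat_lit 0, nat_lit 0, nat_lit 44, nat_lit 0, nat_lit 0, [nat_lit 765600000, nat_lit 1368800000, nat_lit 2512800000], [], [nat_lit 20620165288, nat_lit 21348998917, nat_lit 21395504578, nat_lit 22088328960, nat_lit 22586625498, nat_lit 23283036748, nat_lit 23259928558, nat_lit 23940272397], nat_lit 0, nat_lit 0, nat_lit 0, nat_lit 0, nat_lit 0, nat_lit 0, [], [nat_lit 54, nat_lit 40, nat_lit 40, nat_lit 80, nat_lit 43, nat_lit 345, nat_lit 125, nat_lit 10]⟩, C1.Rw.none,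
 ⟨nat_lit 2236, nat_lit 2739, ⟨.ofNat (nat_lit 542311), .ofNat (nat_lit 589588), .ofNat (nat_lit 564708), .ofNat (nat_lit 611985), .ofNat (nat_lit 545375), .ofNat (nat_lit 591016), .ofNat (nat_lit 568129), .ofNat (nat_lit 613770)⟩, ⟨.ofNat (nat_lit 306433), .ofNat (nat_lit 412743), .ofNat (nat_lit 351268), .ofNat (nat_lit 457578), .ofNat (nat_lit 306337), .ofNat (nat_lit 408965), .ofNat (nat_lit 351886), .ofNat (nat_lit 454514)⟩⟩, [⟨nat_lit 0, nat_lit 89, nat_lit 48, nat_lit 100, nat_lit 265881527⟩, ⟨nat_lit 16, nat_lit 53, nat_lit 100, nat_lit 93, nat_lit 276707602⟩]⟩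
noncomputable def p123_l91 : Lf2 := ⟨nat_lit 0, nat_lit 30, [nat_lit 15, nat_lit 5, nat_lit 5, nat_lit 20], false, nat_lit 160, nat_lit 248, nat_lit 0, nat_lit 336, ⟨nat_lit 285, nat_lit 715, nat_lit 0, nat_lit 7, nat_lit 252, nat_lit 715, nat_lit 157, nat_lit 0, nat_lit 0, nat_lit 0, nat_lit 0, nat_lit 0, nat_lit 41197371, nat_lit 17520683, nat_lit 8281946, nat_lit 4876424, true, false⟩,
 nat_lit 0, nat_lit 0, nat_lit 3556, nat_lit 155, nat_lit 3715, nat_lit 2262, nat_lit 0, nat_lit 0, nat_lit 0, nat_lit 241, nat_lit 0, nat_lit 0, nat_lit 0, nat_lit 0, nat_lit 0, nat_lit 178750, nat_lit 0, nat_lit 0, [(nat_lit 26, [(nat_lit 0, nat_lit 715)])],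
 ⟨p123_k29, nat_lit 0, nat_lit 0, nat_lit 45, nat_lit 0, nat_lit 0, [nat_lit 814734000, nat_lit 1959250001, nat_lit 4859750000], [], [nat_lit 20972581941, nat_lit 22508353030, nat_lit 22303405801, nat_lit 23804218350, nat_lit 23470151452, nat_lit 24903992786, nat_lit 24653691825, nat_lit 25988169902], nat_lit 0, nat_lit 0, nat_lit 0, nat_lit 0, nat_lit 0, nat_lit 0, [], [nat_lit 93, nat_lit 40, nat_lit 40, nat_lit 80, nat_lit 63, nat_lit 345, nat_lit 125, nat_lit 9]⟩, ⟨p123_k30, nat_lit 0, nat_lit 0, nat_lit 648, nat_lit 0, nat_lit 763018, [nat_lit 935370000, nat_lit 1781250000, nat_lit 4006530000], [], [nat_lit 9162015034, nat_lit 9330201406, nat_lit 9270685978, nat_lit 9443347342, nat_lit 8850060920, nat_lit 8466686159, nat_lit 8405340466, nat_lit 8546946128], nat_lit 1271250, nat_lit 1271250, nat_lit 1271250, nat_lit 1271250, nat_lit 0, nat_lit 2373000, [nat_lit 780000, nat_lit 1435000, nat_lit 1271250], [nat_lit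 71, nat_lit 40, nat_lit 40, nat_lit 80, nat_lit 68, nat_lit 456, nat_lit 225, nat_lit 10]⟩,
 ⟨nat_lit 2236, nat_lit 3163, ⟨.ofNat (nat_lit 588366), .ofNat (nat_lit 649422), .ofNat (nat_lit 610457), .ofNat (nat_lit 671514), .ofNat (nat_lit 590843), .ofNat (nat_lit 647962), .ofNat (nat_lit 613554), .ofNat (nat_lit 670673)⟩, ⟨.ofNat (nat_lit 306116), .ofNat (nat_lit 440213), .ofNat (nat_lit 350426), .ofNat (nat_lit 484523), .ofNat (nat_lit 306337), .ofNat (nat_lit 431772), .ofNat (nat_lit 351886), .ofNat (nat_lit 477320)⟩⟩, [⟨nat_lit 16, nat_lit 62, nat_lit 100, nat_lit 94, nat_lit 343094104⟩, ⟨nat_lit 7, nat_lit 94, nat_lit 100, nat_lit 97, nat_lit 42377987⟩]⟩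
noncomputable def p123_l92 : Lf2 := ⟨nat_lit 0, nat_lit 30, [nat_lit 15, nat_lit 5, nat_lit 5, nat_lit 20], true, nat_lit 160, nat_lit 208, nat_lit 0, nat_lit 336, ⟨nat_lit 0, nat_lit 1000, nat_lit 0, nat_lit 7, nat_lit 250, nat_lit 1000, nat_lit 144, nat_lit 0, nat_lit 0, nat_lit 0, nat_lit 0, nat_lit 0, nat_lit 42156016, nat_lit 17556568, nat_lit 7287416, nat_lit 4733837, true, false⟩,
 nat_lit 0, nat_lit 0, nat_lit 0, nat_lit 0, nat_lit 2753, nat_lit 0, nat_lit 0, nat_lit 0, nat_lit 0, nat_lit 0, nat_lit 0, nat_lit 0, nat_lit 0, nat_lit 0, nat_lit 0, nat_lit 250000, nat_lit 0, nat_lit 0, [(nat_lit 29, [(nat_lit 0, nat_lit 1000)])],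
 ⟨p123_k36, nat_lit 0, nat_lit 0, nat_lit 55, nat_lit 0, nat_lit 0, [nat_lit 781600001, nat_lit 1054800000, nat_lit 2212560000], [], [nat_lit 21729776160, nat_lit 23064842559, nat_lit 23087844785, nat_lit 24383448160, nat_lit 22933927812, nat_lit 24215861941, nat_lit 24190391901, nat_lit 25437278856], nat_lit 0, nat_lit 0, nat_lit 0, nat_lit 0, nat_lit 0, nat_lit 0, [], [nat_lit 54, nat_lit 40, nat_lit 40, nat_lit 80, nat_lit 43, nat_lit 345, nat_lit 125, nat_lit 10]⟩, C1.Rw.none,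
 ⟨nat_lit 0, nat_lit 2237, ⟨.ofNat (nat_lit 575619), .ofNat (nat_lit 646249), .ofNat (nat_lit 597467), .ofNat (nat_lit 668096), .ofNat (nat_lit 585925), .ofNat (nat_lit 648136), .ofNat (nat_lit 609999), .ofNat (nat_lit 672209)⟩, ⟨.ofNat (nat_lit 306334), .ofNat (nat_lit 374750), .ofNat (nat_lit 351885), .ofNat (nat_lit 420300), .ofNat (nat_lit 299996), .ofNat (nat_lit 359993), .ofNat (nat_lit 349998), .ofNat (nat_lit 409994)⟩⟩, [⟨nat_lit 16, nat_lit 44, nat_lit 100, nat_lit 92, nat_lit 321690091⟩]⟩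
noncomputable def p123_l93 : Lf2 := ⟨nat_lit 0, nat_lit 30, [nat_lit 15, nat_lit 5, nat_lit 5, nat_lit 20], false, nat_lit 160, nat_lit 248, nat_lit 0, nat_lit 320, ⟨nat_lit 355, nat_lit 645, nat_lit 0, nat_lit 7, nat_lit 254, nat_lit 645, nat_lit 157, nat_lit 0, nat_lit 0, nat_lit 0, nat_lit 0, nat_lit 0, nat_lit 41045332, nat_lit 17691830, nat_lit 8262838, nat_lit 4885458, true, false⟩,
 nat_lit 0, nat_lit 0, nat_lit 3932, nat_lit 0, nat_lit 3729, nat_lit 2722, nat_lit 0, nat_lit 0, nat_lit 0, nat_lit 94, nat_lit 0, nat_lit 0, nat_lit 0, nat_lit 0, nat_lit 0, nat_lit 161250, nat_lit 0, nat_lit 0, [(nat_lit 26, [(nat_lit 0, nat_lit 645)])],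
 ⟨p123_k29, nat_lit 0, nat_lit 0, nat_lit 45, nat_lit 0, nat_lit 0, [nat_lit 826802000, nat_lit 2088750001, nat_lit 5332250000], [], [nat_lit 20486922377, nat_lit 22061153430, nat_lit 22426170681, nat_lit 23832434139, nat_lit 23097914415, nat_lit 24462462938, nat_lit 24707000351, nat_lit 25999102521], nat_lit 0, nat_lit 0, nat_lit 0, nat_lit 0, nat_lit 0, nat_lit 0, [], [nat_lit 93, nat_lit 40, nat_lit 40, nat_lit 80, nat_lit 63, nat_lit 345, nat_lit 125, nat_lit 9]⟩, ⟨p123_k41, nat_lit 0, nat_lit 0, nat_lit 647, nat_lit 0, nat_lit 808497, [nat_lit 1165110000, nat_lit 2218750000, nat_lit 4214560000], [], [nat_lit 12751297833, nat_lit 13003779513, nat_lit 12950609286, nat_lit 13168012244, nat_lit 11739333525, nat_lit 11879178638, nat_lit 12611235722, nat_lit 12053708014], nat_lit 1271250, nat_lit 1271250, nat_lit 1236400, nat_lit 1794000, nat_lit 0, nat_lit 2260000, [nat_lit 780000, nat_lit 1435000, nat_lit 1271250],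 [nat_lit 23, nat_lit 40, nat_lit 40, nat_lit 80, nat_lit 12, nat_lit 456, nat_lit 225, nat_lit 11]⟩,
 ⟨nat_lit 2236, nat_lit 3163, ⟨.ofNat (nat_lit 573823), .ofNat (nat_lit 671514), .ofNat (nat_lit 595914), .ofNat (nat_lit 693606), .ofNat (nat_lit 579282), .ofNat (nat_lit 670673), .ofNat (nat_lit 601993), .ofNat (nat_lit 693384)⟩, ⟨.ofNat (nat_lit 306116), .ofNat (nat_lit 440213), .ofNat (nat_lit 350426), .ofNat (nat_lit 484523), .ofNat (nat_lit 306337), .ofNat (nat_lit 431772), .ofNat (nat_lit 351886), .ofNat (nat_lit 477320)⟩⟩, [⟨nat_lit 0, nat_lit 84, nat_lit 53, nat_lit 100, nat_lit 229339168⟩, ⟨nat_lit 4, nat_lit 100, nat_lit 53, nat_lit 87, nat_lit 446045238⟩, ⟨nat_lit 7, nat_lit 100, nat_lit 93, nat_lit 97, nat_lit 53443547⟩]⟩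
noncomputable def p123_l94 : Lf2 := ⟨nat_lit 0, nat_lit 30, [nat_lit 15, nat_lit 5, nat_lit 5, nat_lit 20], false, nat_lit 160, nat_lit 208, nat_lit 0, nat_lit 320, ⟨nat_lit 386, nat_lit 614, nat_lit 0, nat_lit 7, nat_lit 265, nat_lit 614, nat_lit 144, nat_lit 0, nat_lit 0, nat_lit 0, nat_lit 0, nat_lit 0, nat_lit 40917783, nat_lit 18926253, nat_lit 7155964, nat_lit 4803784, true, false⟩,
 nat_lit 0, nat_lit 0, nat_lit 3860, nat_lit 0, nat_lit 3541, nat_lit 2672, nat_lit 0, nat_lit 0, nat_lit 0, nat_lit 349, nat_lit 0, nat_lit 0, nat_lit 0, nat_lit 0, nat_lit 0, nat_lit 153500, nat_lit 0, nat_lit 0, [(nat_lit 29, [(nat_lit 0, nat_lit 614)])],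
 ⟨p123_k36, nat_lit 0, nat_lit 0, nat_lit 55, nat_lit 0, nat_lit 0, [nat_lit 841970400, nat_lit 1914499200, nat_lit 4388997840], [], [nat_lit 22861192633, nat_lit 24365285305, nat_lit 23712530002, nat_lit 25183047520, nat_lit 24021995655, nat_lit 25451975257, nat_lit 24801420339, nat_lit 26201495755], nat_lit 0, nat_lit 0, nat_lit 0, nat_lit 0, nat_lit 0, nat_lit 0, [], [nat_lit 54, nat_lit 40, nat_lit 40, nat_lit 80, nat_lit 43, nat_lit 345, nat_lit 125, nat_lit 10]⟩, ⟨p123_k41, nat_lit 0, nat_lit 0, nat_lit 727, nat_lit 0, nat_lit 1068819, [nat_lit 1266852000, nat_lit 2412500000, nat_lit 4582592000], [], [nat_lit 11032336131, nat_lit 11255319104, nat_lit 11166133179, nat_lit 11384067635, nat_lit 10401708394, nat_lit 10538570310, nat_lit 10445666487, nat_lit 10572599611], nat_lit 1271250, nat_lit 1271250, nat_lit 1271250, nat_lit 1271250, nat_lit 0, nat_lit 2260000, [nat_lit 780000, nat_lit 1435000, nat_lit 1271250],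 [nat_lit 23, nat_lit 40, nat_lit 40, nat_lit 80, nat_lit 12, nat_lit 456, nat_lit 225, nat_lit 11]⟩,
 ⟨nat_lit 0, nat_lit 2237, ⟨.ofNat (nat_lit 626896), .ofNat (nat_lit 668096), .ofNat (nat_lit 648744), .ofNat (nat_lit 689944), .ofNat (nat_lit 635920), .ofNat (nat_lit 672209), .ofNat (nat_lit 659993), .ofNat (nat_lit 696283)⟩, ⟨.ofNat (nat_lit 306334), .ofNat (nat_lit 374750), .ofNat (nat_lit 351885), .ofNat (nat_lit 420300), .ofNat (nat_lit 299996), .ofNat (nat_lit 359993), .ofNat (nat_lit 349998), .ofNat (nat_lit 409994)⟩⟩, [⟨nat_lit 0, nat_lit 87, nat_lit 44, nat_lit 100, nat_lit 289095076⟩, ⟨nat_lit 16, nat_lit 44, nat_lit 100, nat_lit 92, nat_lit 493542144⟩, ⟨nat_lit 7, nat_lit 100, nat_lit 93, nat_lit 97, nat_lit 65163096⟩]⟩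
noncomputable def b_V_900_700_20_28 : St := ⟨true, nat_lit 0, nat_lit 1, nat_lit 1, nat_lit 120, nat_lit 360, nat_lit 400, nat_lit 280, nat_lit 320, nat_lit 152, nat_lit 240, nat_lit 80, nat_lit 120, nat_lit 160, nat_lit 248, nat_lit 0, nat_lit 336, nat_lit 80, nat_lit 120, nat_lit 0, nat_lit 0, nat_lit 0, nat_lit 0⟩
theorem d_V_900_700_20_28 (h : EB TB.env) : Dead b_V_900_700_20_28 := chkB_sound0 h (T :=
(.spl (nat_lit 1) (nat_lit 300)
(.spl (nat_lit 0) (nat_lit 380)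
(.spl (nat_lit 2) (nat_lit 200)
(.spl (nat_lit 0) (nat_lit 370)
(.spl (nat_lit 1) (nat_lit 290)
(.leaf p123_l88)
(.trZ (nat_lit 0) (nat_lit 91) (nat_lit 61) (nat_lit 100) (nat_lit 164) (.trX (nat_lit 19) (nat_lit 97) (nat_lit 84) (nat_lit 100) (nat_lit 328) (.leaf p123_l89))))
(.trZ (nat_lit 0) (nat_lit 93) (nat_lit 53) (nat_lit 100) (nat_lit 168) (.trX (nat_lit 16) (nat_lit 53) (nat_lit 100) (nat_lit 93) (nat_lit 232) (.leaf p123_l90))))
(.leaf p123_l91))
(.trZ (nat_lit 0) (nat_lit 92) (nat_lit 44) (nat_lit 100) (nat_lit 192) (.trX (nat_lit 16) (nat_lit 44) (nat_lit 100) (nat_lit 92) (nat_lit 208) (.leaf p123_l92))))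
(.trZ (nat_lit 0) (nat_lit 87) (nat_lit 60) (nat_lit 100) (nat_lit 176) (.trX (nat_lit 19) (nat_lit 94) (nat_lit 88) (nat_lit 100) (nat_lit 320) (.spl (nat_lit 0) (nat_lit 380)
(.leaf p123_l93)
(.trZ (nat_lit 0) (nat_lit 87) (nat_lit 44) (nat_lit 100) (nat_lit 212) (.trX (nat_lit 16) (nat_lit 44) (nat_lit 100) (nat_lit 92) (nat_lit 208) (.leaf p123_l94)))))))) (by decide +kernel)
noncomputable def p123_l95 : Lf2 := ⟨nat_lit 0, nat_lit 30, [nat_lit 15, nat_lit 5, nat_lit 5, nat_lit 20], false, nat_lit 8, nat_lit 80, nat_lit 0, nat_lit 160, ⟨nat_lit 1000, nat_lit 0, nat_lit 0, nat_lit 0, nat_lit 0, nat_lit 0, nat_lit 0, nat_lit 0, nat_lit 0, nat_lit 0, nat_lit 0, nat_lit 0, nat_lit 0, nat_lit 0, nat_lit 0, nat_lit 0, false, false⟩,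
 nat_lit 0, nat_lit 0, nat_lit 10871, nat_lit 0, nat_lit 3995, nat_lit 6917, nat_lit 667, nat_lit 0, nat_lit 0, nat_lit 944, nat_lit 0, nat_lit 0, nat_lit 0, nat_lit 0, nat_lit 0, nat_lit 0, nat_lit 0, nat_lit 0, [],
 ⟨p123_k29, nat_lit 0, nat_lit 0, nat_lit 200, nat_lit 0, nat_lit 0, [nat_lit 938000000, nat_lit 3282000000, nat_lit 9842000000], [], [nat_lit 26377482623, nat_lit 26962144019, nat_lit 33358117336, nat_lit 33901505754, nat_lit 24699912790, nat_lit 25255745085, nat_lit 31441405004, nat_lit 31960598038], nat_lit 0, nat_lit 0, nat_lit 0, nat_lit 0, nat_lit 0, nat_lit 0, [], [nat_lit 93, nat_lit 40, nat_lit 40, nat_lit 80, nat_lit 63, nat_lit 345, nat_lit 125, nat_lit 9]⟩, ⟨p123_k30, nat_lit 0, nat_lit 0, nat_lit 587, nat_lit 0, nat_lit 616652, [nat_lit 3282000000, nat_lit 6250000000, nat_lit 14058000000], [], [nat_lit 32371396640, nat_lit 33049292998, nat_lit 37428272929, nat_lit 38099477374, nat_lit 27892332584,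 nat_lit 28455117132, nat_lit 32851403275, nat_lit 33416064985], nat_lit 1271250, nat_lit 1271250, nat_lit 1271250, nat_lit 1271250, nat_lit 0, nat_lit 1100001, [nat_lit 780000, nat_lit 1435000, nat_lit 1271250], [nat_lit 71, nat_lit 40, nat_lit 40, nat_lit 80, nat_lit 68, nat_lit 456, nat_lit 225, nat_lit 10]⟩,
 zbF0, []⟩
noncomputable def p123_l96 : Lf2 := ⟨nat_lit 0, nat_lit 30, [nat_lit 15, nat_lit 5, nat_lit 5, nat_lit 20], false, nat_lit 12, nat_lit 80, nat_lit 0, nat_lit 160, ⟨nat_lit 1000, nat_lit 0, nat_lit 0, nat_lit 0, nat_lit 0, nat_lit 0, nat_lit 0, nat_lit 0, nat_lit 0, nat_lit 0, nat_lit 0, nat_lit 0, nat_lit 0, nat_lit 0, nat_lit 0, nat_lit 0, false, false⟩,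
 nat_lit 0, nat_lit 0, nat_lit 11328, nat_lit 0, nat_lit 3472, nat_lit 7208, nat_lit 640, nat_lit 0, nat_lit 0, nat_lit 899, nat_lit 0, nat_lit 0, nat_lit 0, nat_lit 0, nat_lit 0, nat_lit 0, nat_lit 0, nat_lit 0, [],
 ⟨p123_k33, nat_lit 0, nat_lit 0, nat_lit 180, nat_lit 0, nat_lit 0, [nat_lit 938000000, nat_lit 3282000000, nat_lit 7968000000], [], [nat_lit 24520349872, nat_lit 25387379679, nat_lit 32014459645, nat_lit 32622215623, nat_lit 23190855552, nat_lit 23727226464, nat_lit 29727611168, nat_lit 30315866688], nat_lit 0, nat_lit 0, nat_lit 0, nat_lit 0, nat_lit 0, nat_lit 0, [], [nat_lit 54, nat_lit 40, nat_lit 40, nat_lit 80, nat_lit 43, nat_lit 226, nat_lit 20, nat_lit 6]⟩, ⟨p123_k30, nat_lit 0, nat_lit 0, nat_lit 634, nat_lit 0, nat_lit 763018, [nat_lit 3282000000, nat_lit 6250000000, nat_lit 14058000000], [], [nat_lit 33943375802, nat_lit 34465119194, nat_lit 38164506144, nat_lit 38773701330, nat_lit 29467096794,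 nat_lit 29891543562, nat_lit 33653507056, nat_lit 34087528608], nat_lit 1271250, nat_lit 1271250, nat_lit 1271250, nat_lit 1271250, nat_lit 0, nat_lit 1100001, [nat_lit 780000, nat_lit 1435000, nat_lit 1271250], [nat_lit 71, nat_lit 40, nat_lit 40, nat_lit 80, nat_lit 68, nat_lit 456, nat_lit 225, nat_lit 10]⟩,
 zbF0, []⟩
noncomputable def p123_l97 : Lf2 := ⟨nat_lit 0, nat_lit 25, [nat_lit 44, nat_lit 5, nat_lit 5, nat_lit 20], false, nat_lit 8, nat_lit 80, nat_lit 160, nat_lit 320, ⟨nat_lit 1000, nat_lit 0, nat_lit 0, nat_lit 0, nat_lit 0, nat_lit 0, nat_lit 0, nat_lit 0, nat_lit 0, nat_lit 0, nat_lit 0, nat_lit 0, nat_lit 0, nat_lit 0, nat_lit 0, nat_lit 0, false, false⟩,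
 nat_lit 0, nat_lit 0, nat_lit 9703, nat_lit 0, nat_lit 4513, nat_lit 6174, nat_lit 605, nat_lit 0, nat_lit 0, nat_lit 873, nat_lit 0, nat_lit 0, nat_lit 0, nat_lit 0, nat_lit 0, nat_lit 0, nat_lit 0, nat_lit 0, [],
 ⟨p123_k27, nat_lit 0, nat_lit 0, nat_lit 165, nat_lit 0, nat_lit 0, [nat_lit 938000000, nat_lit 3282000000, nat_lit 7968000000], [], [nat_lit 26054231770, nat_lit 26727750196, nat_lit 30222431699, nat_lit 31047946553, nat_lit 24082680311, nat_lit 24721140273, nat_lit 27630930636, nat_lit 28279831576], nat_lit 0, nat_lit 0, nat_lit 0, nat_lit 0, nat_lit 0, nat_lit 0, [], [nat_lit 54, nat_lit 40, nat_lit 40, nat_lit 80, nat_lit 43, nat_lit 226, nat_lit 20, nat_lit 6]⟩, ⟨p123_k28, nat_lit 0, nat_lit 0, nat_lit 376, nat_lit 0, nat_lit 595645, [nat_lit 3282000000, nat_lit 6250000000, nat_lit 11872000000], [], [nat_lit 27131429446, nat_lit 27723937410, nat_lit 29321913543, nat_lit 29970163335, nat_lit 30006141183,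 nat_lit 30556870352, nat_lit 32262683168, nat_lit 32862939052], nat_lit 1271250, nat_lit 1271250, nat_lit 1271250, nat_lit 1271250, nat_lit 1100001, nat_lit 2470000, [nat_lit 780000, nat_lit 1435000, nat_lit 1271250], [nat_lit 23, nat_lit 40, nat_lit 40, nat_lit 80, nat_lit 12, nat_lit 483, nat_lit 250, nat_lit 11]⟩,
 zbF0, [⟨nat_lit 7, nat_lit 97, nat_lit 100, nat_lit 94, nat_lit 326313522⟩, ⟨nat_lit 22, nat_lit 94, nat_lit 100, nat_lit 59, nat_lit 11076353⟩]⟩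
noncomputable def p123_l98 : Lf2 := ⟨nat_lit 0, nat_lit 25, [nat_lit 44, nat_lit 5, nat_lit 5, nat_lit 20], false, nat_lit 12, nat_lit 80, nat_lit 160, nat_lit 320, ⟨nat_lit 354, nat_lit 646, nat_lit 0, nat_lit 7, nat_lit 287, nat_lit 646, nat_lit 45, nat_lit 0, nat_lit 0, nat_lit 0, nat_lit 0, nat_lit 0, nat_lit 43234291, nat_lit 22503593, nat_lit 1262116, nat_lit 3729346, true, false⟩,
 nat_lit 0, nat_lit 0, nat_lit 4295, nat_lit 0, nat_lit 3174, nat_lit 2733, nat_lit 412, nat_lit 0, nat_lit 0, nat_lit 280, nat_lit 0, nat_lit 0, nat_lit 0, nat_lit 0, nat_lit 0, nat_lit 161500, nat_lit 0, nat_lit 0, [(nat_lit 26, [(nat_lit 0, nat_lit 646)])],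
 ⟨p123_k43, nat_lit 0, nat_lit 0, nat_lit 165, nat_lit 0, nat_lit 0, [nat_lit 826629601, nat_lit 2046072800, nat_lit 4443940800], [], [nat_lit 23939847437, nat_lit 24353662313, nat_lit 27738223004, nat_lit 28082484484, nat_lit 22261752086, nat_lit 22519709288, nat_lit 25830183620, nat_lit 26161694314], nat_lit 0, nat_lit 0, nat_lit 0, nat_lit 0, nat_lit 0, nat_lit 0, [], [nat_lit 54, nat_lit 40, nat_lit 40, nat_lit 80, nat_lit 43, nat_lit 226, nat_lit 20, nat_lit 6]⟩, ⟨p123_k28, nat_lit 0, nat_lit 0, nat_lit 401, nat_lit 0, nat_lit 666482, [nat_lit 1161828000, nat_lit 2212500000, nat_lit 4202688000], [], [nat_lit 9434062368, nat_lit 9600190800, nat_lit 10024438716, nat_lit 10209288690, nat_lit 10077755088, nat_lit 10228825764, nat_lit 10690732224, nat_lit 10860383370], nat_lit 1271250, nat_lit 1271250, nat_lit 1271250, nat_lit 1271250, nat_lit 1100001, nat_lit 2470000, [nat_lit 780000, nat_lit 1435000, nat_lit 1271250],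 [nat_lit 23, nat_lit 40, nat_lit 40, nat_lit 80, nat_lit 12, nat_lit 483, nat_lit 250, nat_lit 11]⟩,
 ⟨nat_lit 2500, nat_lit 2739, ⟨.ofNat (nat_lit 648720), .ofNat (nat_lit 766852), .ofNat (nat_lit 671134), .ofNat (nat_lit 789269), .ofNat (nat_lit 648376), .ofNat (nat_lit 764515), .ofNat (nat_lit 670953), .ofNat (nat_lit 787095)⟩, ⟨.ofNat (nat_lit 30000), .ofNat (nat_lit 188310), .ofNat (nat_lit 30000), .ofNat (nat_lit 200000), .ofNat (nat_lit 30000), .ofNat (nat_lit 190321), .ofNat (nat_lit 30000), .ofNat (nat_lit 200000)⟩⟩, [⟨nat_lit 22, nat_lit 95, nat_lit 100, nat_lit 66, nat_lit 158179067⟩]⟩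
noncomputable def p123_l99 : Lf2 := ⟨nat_lit 0, nat_lit 25, [nat_lit 44, nat_lit 5, nat_lit 5, nat_lit 20], false, nat_lit 16, nat_lit 80, nat_lit 160, nat_lit 320, ⟨nat_lit 255, nat_lit 745, nat_lit 0, nat_lit 7, nat_lit 287, nat_lit 745, nat_lit 47, nat_lit 0, nat_lit 0, nat_lit 0, nat_lit 0, nat_lit 0, nat_lit 43213849, nat_lit 22430087, nat_lit 1356064, nat_lit 3756033, true, false⟩,
 nat_lit 0, nat_lit 0, nat_lit 3090, nat_lit 0, nat_lit 2964, nat_lit 1966, nat_lit 204, nat_lit 0, nat_lit 0, nat_lit 202, nat_lit 0, nat_lit 0, nat_lit 0, nat_lit 0, nat_lit 0, nat_lit 186250, nat_lit 0, nat_lit 0, [(nat_lit 26, [(nat_lit 0, nat_lit 745)])],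
 ⟨p123_k44, nat_lit 0, nat_lit 0, nat_lit 146, nat_lit 0, nat_lit 0, [nat_lit 809562000, nat_lit 1856666001, nat_lit 3150800000], [], [nat_lit 24527113958, nat_lit 24807424902, nat_lit 27541707989, nat_lit 27816175052, nat_lit 23894238065, nat_lit 24161388901, nat_lit 26553977267, nat_lit 26784297629], nat_lit 0, nat_lit 0, nat_lit 0, nat_lit 0, nat_lit 0, nat_lit 0, [], [nat_lit 20, nat_lit 40, nat_lit 40, nat_lit 80, nat_lit 16, nat_lit 226, nat_lit 20, nat_lit 7]⟩, ⟨p123_k28, nat_lit 0, nat_lit 0, nat_lit 454, nat_lit 0, nat_lit 738735, [nat_lit 836910000, nat_lit 1593750000, nat_lit 3027360000], [], [nat_lit 6797644900, nat_lit 6917294064, nat_lit 7225680346, nat_lit 7358800532, nat_lit 7264542526, nat_lit 7374047418, nat_lit 7708841448, nat_lit 7830311832], nat_lit 1271250, nat_lit 1271250, nat_lit 1271250, nat_lit 1271250, nat_lit 1100001, nat_lit 2470000, [nat_lit 780000, nat_lit 1435000, nat_lit 1271250], [nat_lit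 23, nat_lit 40, nat_lit 40, nat_lit 80, nat_lit 12, nat_lit 483, nat_lit 250, nat_lit 11]⟩,
 ⟨nat_lit 2236, nat_lit 2500, ⟨.ofNat (nat_lit 648374), .ofNat (nat_lit 764515), .ofNat (nat_lit 670948), .ofNat (nat_lit 787095), .ofNat (nat_lit 648099), .ofNat (nat_lit 762142), .ofNat (nat_lit 670867), .ofNat (nat_lit 784917)⟩, ⟨.ofNat (nat_lit 40000), .ofNat (nat_lit 190321), .ofNat (nat_lit 40000), .ofNat (nat_lit 200000), .ofNat (nat_lit 40000), .ofNat (nat_lit 192306), .ofNat (nat_lit 40000), .ofNat (nat_lit 200000)⟩⟩, [⟨nat_lit 22, nat_lit 96, nat_lit 100, nat_lit 68, nat_lit 109322043⟩]⟩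
noncomputable def p123_l100 : Lf2 := ⟨nat_lit 0, nat_lit 25, [nat_lit 44, nat_lit 5, nat_lit 5, nat_lit 20], false, nat_lit 16, nat_lit 80, nat_lit 160, nat_lit 260, ⟨nat_lit 654, nat_lit 346, nat_lit 0, nat_lit 8, nat_lit 330, nat_lit 346, nat_lit 47, nat_lit 0, nat_lit 0, nat_lit 0, nat_lit 0, nat_lit 0, nat_lit 39030333, nat_lit 26707090, nat_lit 1262577, nat_lit 3893006, true, true⟩,
 nat_lit 0, nat_lit 0, nat_lit 7801, nat_lit 0, nat_lit 3868, nat_lit 4964, nat_lit 191, nat_lit 0, nat_lit 0, nat_lit 508, nat_lit 0, nat_lit 0, nat_lit 0, nat_lit 0, nat_lit 0, nat_lit 346000, nat_lit 0, nat_lit 0, [(nat_lit 26, [(nat_lit 2, nat_lit 346)])],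
 ⟨p123_k27, nat_lit 0, nat_lit 0, nat_lit 179, nat_lit 0, nat_lit 0, [nat_lit 1120411200, nat_lit 2124284001, nat_lit 3114173600], [], [nat_lit 28453724125, nat_lit 29967490935, nat_lit 32593454942, nat_lit 33852160539, nat_lit 26509280706, nat_lit 27563763856, nat_lit 30114182420, nat_lit 31334998624], nat_lit 0, nat_lit 0, nat_lit 0, nat_lit 0, nat_lit 0, nat_lit 0, [], [nat_lit 54, nat_lit 40, nat_lit 40, nat_lit 80, nat_lit 43, nat_lit 226, nat_lit 20, nat_lit 6]⟩, ⟨p123_k28, nat_lit 0, nat_lit 0, nat_lit 447, nat_lit 0, nat_lit 738735, [nat_lit 2146428000, nat_lit 4087500000, nat_lit 7764288000], [], [nat_lit 18849949292, nat_lit 19190360272, nat_lit 20411031308, nat_lit 20775352952, nat_lit 19168757606, nat_lit 19434882663, nat_lit 20764023560, nat_lit 21266825432], nat_lit 1271250, nat_lit 1271250, nat_lit 1271250, nat_lit 1271250, nat_lit 1100001, nat_lit 1956250, [nat_lit 780000, nat_lit 1435000, nat_lit 1271250],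 [nat_lit 23, nat_lit 40, nat_lit 40, nat_lit 80, nat_lit 12, nat_lit 373, nat_lit 150, nat_lit 8]⟩,
 ⟨nat_lit 2236, nat_lit 3163, ⟨.ofNat (nat_lit 771478), .ofNat (nat_lit 869004), .ofNat (nat_lit 793619), .ofNat (nat_lit 891158), .ofNat (nat_lit 762142), .ofNat (nat_lit 853367), .ofNat (nat_lit 784902), .ofNat (nat_lit 876141)⟩, ⟨.ofNat (nat_lit 40000), .ofNat (nat_lit 184209), .ofNat (nat_lit 40000), .ofNat (nat_lit 200000), .ofNat (nat_lit 40000), .ofNat (nat_lit 192306), .ofNat (nat_lit 40000), .ofNat (nat_lit 200000)⟩⟩, [⟨nat_lit 22, nat_lit 83, nat_lit 100, nat_lit 83, nat_lit 216753022⟩]⟩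
noncomputable def p123_l101 : Lf2 := ⟨nat_lit 0, nat_lit 30, [nat_lit 15, nat_lit 5, nat_lit 5, nat_lit 20], false, nat_lit 16, nat_lit 80, nat_lit 160, nat_lit 336, ⟨nat_lit 1000, nat_lit 0, nat_lit 0, nat_lit 0, nat_lit 0, nat_lit 0, nat_lit 0, nat_lit 0, nat_lit 0, nat_lit 0, nat_lit 0, nat_lit 0, nat_lit 0, nat_lit 0, nat_lit 0, nat_lit 0, false, false⟩,
 nat_lit 0, nat_lit 0, nat_lit 10718, nat_lit 0, nat_lit 4927, nat_lit 6820, nat_lit 664, nat_lit 0, nat_lit 0, nat_lit 918, nat_lit 0, nat_lit 0, nat_lit 0, nat_lit 0, nat_lit 0, nat_lit 0, nat_lit 0, nat_lit 0, [],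
 ⟨p123_k29, nat_lit 0, nat_lit 0, nat_lit 196, nat_lit 0, nat_lit 0, [nat_lit 938000000, nat_lit 3282000000, nat_lit 9842000000], [], [nat_lit 26099933061, nat_lit 27156622501, nat_lit 35436037653, nat_lit 36145644691, nat_lit 23677806684, nat_lit 24293977591, nat_lit 32055387029, nat_lit 32743268183], nat_lit 0, nat_lit 0, nat_lit 0, nat_lit 0, nat_lit 0, nat_lit 0, [], [nat_lit 93, nat_lit 40, nat_lit 40, nat_lit 80, nat_lit 63, nat_lit 345, nat_lit 125, nat_lit 9]⟩, ⟨p123_k30, nat_lit 0, nat_lit 0, nat_lit 371, nat_lit 0, nat_lit 430049, [nat_lit 3282000000, nat_lit 6250000000, nat_lit 14058000000], [], [nat_lit 26423343060, nat_lit 27154169820, nat_lit 31375489188, nat_lit 31870884481, nat_lit 29682273925, nat_lit 30136225076, nat_lit 34374330375, nat_lit 34850572631], nat_lit 1271250, nat_lit 1271250, nat_lit 1271250, nat_lit 1271250, nat_lit 1100001, nat_lit 2607000, [nat_lit 780000, nat_lit 1435000, nat_lit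 1271250], [nat_lit 71, nat_lit 40, nat_lit 40, nat_lit 80, nat_lit 68, nat_lit 538, nat_lit 300, nat_lit 12]⟩,
 zbF0, [⟨nat_lit 19, nat_lit 100, nat_lit 90, nat_lit 100, nat_lit 250681719⟩, ⟨nat_lit 10, nat_lit 100, nat_lit 92, nat_lit 67, nat_lit 101286935⟩]⟩
noncomputable def p123_l102 : Lf2 := ⟨nat_lit 0, nat_lit 30, [nat_lit 15, nat_lit 5, nat_lit 5, nat_lit 20], false, nat_lit 20, nat_lit 80, nat_lit 160, nat_lit 336, ⟨nat_lit 1000, nat_lit 0, nat_lit 0, nat_lit 0, nat_lit 0, nat_lit 0, nat_lit 0, nat_lit 0, nat_lit 0, nat_lit 0, nat_lit 0, nat_lit 0, nat_lit 0, nat_lit 0, nat_lit 0, nat_lit 0, false, false⟩,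
 nat_lit 0, nat_lit 0, nat_lit 9541, nat_lit 0, nat_lit 3573, nat_lit 6071, nat_lit 639, nat_lit 0, nat_lit 0, nat_lit 913, nat_lit 0, nat_lit 0, nat_lit 0, nat_lit 0, nat_lit 0, nat_lit 0, nat_lit 0, nat_lit 0, [],
 ⟨p123_k33, nat_lit 0, nat_lit 0, nat_lit 176, nat_lit 0, nat_lit 0, [nat_lit 938000000, nat_lit 3282000000, nat_lit 7968000000], [], [nat_lit 24461508859, nat_lit 25337509664, nat_lit 32015517367, nat_lit 32628771299, nat_lit 23014071158, nat_lit 23587130500, nat_lit 29916979250, nat_lit 30512769117], nat_lit 0, nat_lit 0, nat_lit 0, nat_lit 0, nat_lit 0, nat_lit 0, [], [nat_lit 54, nat_lit 40, nat_lit 40, nat_lit 80, nat_lit 43, nat_lit 226, nat_lit 20, nat_lit 6]⟩, ⟨p123_k30, nat_lit 0, nat_lit 0, nat_lit 417, nat_lit 0, nat_lit 570338, [nat_lit 3282000000, nat_lit 6250000000, nat_lit 14058000000], [], [nat_lit 27770370182, nat_lit 28460048396, nat_lit 32367625526, nat_lit 32822674351, nat_lit 31067698398,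 nat_lit 31520243980, nat_lit 35423611959, nat_lit 35881699265], nat_lit 1271250, nat_lit 1271250, nat_lit 1271250, nat_lit 1271250, nat_lit 1100001, nat_lit 2607000, [nat_lit 780000, nat_lit 1435000, nat_lit 1271250], [nat_lit 71, nat_lit 40, nat_lit 40, nat_lit 80, nat_lit 68, nat_lit 538, nat_lit 300, nat_lit 12]⟩,
 zbF0, [⟨nat_lit 7, nat_lit 90, nat_lit 100, nat_lit 100, nat_lit 300121565⟩, ⟨nat_lit 22, nat_lit 100, nat_lit 76, nat_lit 82, nat_lit 18483380⟩]⟩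
noncomputable def p123_l103 : Lf2 := ⟨nat_lit 0, nat_lit 30, [nat_lit 15, nat_lit 5, nat_lit 5, nat_lit 20], false, nat_lit 8, nat_lit 80, nat_lit 0, nat_lit 160, ⟨nat_lit 1000, nat_lit 0, nat_lit 0, nat_lit 0, nat_lit 0, nat_lit 0, nat_lit 0, nat_lit 0, nat_lit 0, nat_lit 0, nat_lit 0, nat_lit 0, nat_lit 0, nat_lit 0, nat_lit 0, nat_lit 0, false, false⟩,
 nat_lit 0, nat_lit 0, nat_lit 8874, nat_lit 0, nat_lit 4172, nat_lit 6143, nat_lit 655, nat_lit 0, nat_lit 0, nat_lit 832, nat_lit 0, nat_lit 0, nat_lit 0, nat_lit 0, nat_lit 0, nat_lit 0, nat_lit 0, nat_lit 0, [],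
 ⟨p123_k29, nat_lit 0, nat_lit 0, nat_lit 212, nat_lit 0, nat_lit 0, [nat_lit 938000000, nat_lit 3282000000, nat_lit 9842000000], [], [nat_lit 26477436774, nat_lit 27671313255, nat_lit 34315947228, nat_lit 35592038773, nat_lit 24679897474, nat_lit 25814480378, nat_lit 31814820900, nat_lit 32850060929], nat_lit 0, nat_lit 0, nat_lit 0, nat_lit 0, nat_lit 0, nat_lit 0, [], [nat_lit 93, nat_lit 40, nat_lit 40, nat_lit 80, nat_lit 63, nat_lit 345, nat_lit 125, nat_lit 9]⟩, ⟨p123_k41, nat_lit 0, nat_lit 0, nat_lit 605, nat_lit 0, nat_lit 808497, [nat_lit 3282000000, nat_lit 6250000000, nat_lit 11872000000], [], [nat_lit 31608464374, nat_lit 32120514024, nat_lit 36486989229, nat_lit 37664533427, nat_lit 28490160126, nat_lit 28911721172, nat_lit 32276428140, nat_lit 32637329867], nat_lit 1271250, nat_lit 1271250, nat_lit 1271250, nat_lit 1271250, nat_lit 0, nat_lit 1100001, [nat_lit 780000, nat_lit 1435000, nat_lit 1271250],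 [nat_lit 23, nat_lit 40, nat_lit 40, nat_lit 80, nat_lit 12, nat_lit 456, nat_lit 225, nat_lit 11]⟩,
 zbF0, []⟩
noncomputable def p123_l104 : Lf2 := ⟨nat_lit 0, nat_lit 30, [nat_lit 15, nat_lit 5, nat_lit 5, nat_lit 20], false, nat_lit 8, nat_lit 80, nat_lit 160, nat_lit 320, ⟨nat_lit 1000, nat_lit 0, nat_lit 0, nat_lit 0, nat_lit 0, nat_lit 0, nat_lit 0, nat_lit 0, nat_lit 0, nat_lit 0, nat_lit 0, nat_lit 0, nat_lit 0, nat_lit 0, nat_lit 0, nat_lit 0, false, false⟩,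
 nat_lit 0, nat_lit 0, nat_lit 8595, nat_lit 0, nat_lit 4371, nat_lit 5950, nat_lit 666, nat_lit 0, nat_lit 0, nat_lit 803, nat_lit 0, nat_lit 0, nat_lit 0, nat_lit 0, nat_lit 0, nat_lit 0, nat_lit 0, nat_lit 0, [],
 ⟨p123_k29, nat_lit 0, nat_lit 0, nat_lit 200, nat_lit 0, nat_lit 0, [nat_lit 938000000, nat_lit 3282000000, nat_lit 9842000000], [], [nat_lit 26216778058, nat_lit 26827519078, nat_lit 34307040354, nat_lit 34977045234, nat_lit 24284357832, nat_lit 24865683004, nat_lit 31275528544, nat_lit 31816211255], nat_lit 0, nat_lit 0, nat_lit 0, nat_lit 0, nat_lit 0, nat_lit 0, [], [nat_lit 93, nat_lit 40, nat_lit 40, nat_lit 80, nat_lit 63, nat_lit 345, nat_lit 125, nat_lit 9]⟩, ⟨p123_k41, nat_lit 0, nat_lit 0, nat_lit 410, nat_lit 0, nat_lit 686082, [nat_lit 3282000000, nat_lit 6250000000, nat_lit 11872000000], [], [nat_lit 27917571525, nat_lit 28466615525, nat_lit 31583420605, nat_lit 31983158805, nat_lit 29909547425,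 nat_lit 30311455475, nat_lit 33223194875, nat_lit 33823108000], nat_lit 1271250, nat_lit 1271250, nat_lit 1271250, nat_lit 1271250, nat_lit 1100001, nat_lit 2470000, [nat_lit 780000, nat_lit 1435000, nat_lit 1271250], [nat_lit 23, nat_lit 40, nat_lit 40, nat_lit 80, nat_lit 12, nat_lit 538, nat_lit 300, nat_lit 13]⟩,
 zbF0, [⟨nat_lit 7, nat_lit 100, nat_lit 93, nat_lit 97, nat_lit 307683979⟩, ⟨nat_lit 10, nat_lit 100, nat_lit 91, nat_lit 64, nat_lit 8113057⟩]⟩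
noncomputable def p123_l105 : Lf2 := ⟨nat_lit 0, nat_lit 30, [nat_lit 15, nat_lit 5, nat_lit 5, nat_lit 20], false, nat_lit 12, nat_lit 80, nat_lit 160, nat_lit 320, ⟨nat_lit 1000, nat_lit 0, nat_lit 0, nat_lit 0, nat_lit 0, nat_lit 0, nat_lit 0, nat_lit 0, nat_lit 0, nat_lit 0, nat_lit 0, nat_lit 0, nat_lit 0, nat_lit 0, nat_lit 0, nat_lit 0, false, false⟩,
 nat_lit 0, nat_lit 0, nat_lit 8722, nat_lit 0, nat_lit 3498, nat_lit 6038, nat_lit 640, nat_lit 0, nat_lit 0, nat_lit 864, nat_lit 0, nat_lit 0, nat_lit 0, nat_lit 0, nat_lit 0, nat_lit 0, nat_lit 0, nat_lit 0, [],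
 ⟨p123_k33, nat_lit 0, nat_lit 0, nat_lit 182, nat_lit 0, nat_lit 0, [nat_lit 938000000, nat_lit 3282000000, nat_lit 7968000000], [], [nat_lit 24570997736, nat_lit 25441465131, nat_lit 32338003583, nat_lit 32940439969, nat_lit 23139551468, nat_lit 23677907676, nat_lit 30019292378, nat_lit 30602632464], nat_lit 0, nat_lit 0, nat_lit 0, nat_lit 0, nat_lit 0, nat_lit 0, [], [nat_lit 54, nat_lit 40, nat_lit 40, nat_lit 80, nat_lit 43, nat_lit 226, nat_lit 20, nat_lit 6]⟩, ⟨p123_k41, nat_lit 0, nat_lit 0, nat_lit 500, nat_lit 0, nat_lit 808497, [nat_lit 3282000000, nat_lit 6250000000, nat_lit 11872000000], [], [nat_lit 27176828536, nat_lit 27663364648, nat_lit 31137293592, nat_lit 31569073202, nat_lit 29567732960, nat_lit 30018153312, nat_lit 33168479368, nat_lit 33920474016], nat_lit 1271250, nat_lit 1271250, nat_lit 1271250, nat_lit 1271250, nat_lit 1100001, nat_lit 2470000, [nat_lit 780000, nat_lit 1435000, nat_lit 1271250],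 [nat_lit 23, nat_lit 40, nat_lit 40, nat_lit 80, nat_lit 12, nat_lit 538, nat_lit 300, nat_lit 13]⟩,
 zbF0, [⟨nat_lit 19, nat_lit 93, nat_lit 100, nat_lit 97, nat_lit 330337271⟩]⟩
noncomputable def b_V_900_700_20_29 : St := ⟨true, nat_lit 0, nat_lit 1, nat_lit 1, nat_lit 120, nat_lit 360, nat_lit 380, nat_lit 280, nat_lit 320, nat_lit 240, nat_lit 392, nat_lit 80, nat_lit 120, nat_lit 8, nat_lit 80, nat_lit 0, nat_lit 336, nat_lit 80, nat_lit 120, nat_lit 0, nat_lit 0, nat_lit 0, nat_lit 0⟩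
theorem d_V_900_700_20_29 (h : EB TB.env) : Dead b_V_900_700_20_29 := chkB_sound0 h (T :=
(.spl (nat_lit 1) (nat_lit 300)
(.trX (nat_lit 13) (nat_lit 69) (nat_lit 45) (nat_lit 100) (nat_lit 384) (.spl (nat_lit 5) (nat_lit 160)
(.spl (nat_lit 0) (nat_lit 370)
(.leaf p123_l95)
(.trX (nat_lit 13) (nat_lit 61) (nat_lit 55) (nat_lit 100) (nat_lit 380) (.trZ (nat_lit 3) (nat_lit 100) (nat_lit 66) (nat_lit 45) (nat_lit 12) (.leaf p123_l96))))
(.spl (nat_lit 3) (nat_lit 100)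
(.trX (nat_lit 19) (nat_lit 100) (nat_lit 88) (nat_lit 94) (nat_lit 320) (.spl (nat_lit 2) (nat_lit 320)
(.spl (nat_lit 0) (nat_lit 370)
(.leaf p123_l97)
(.trZ (nat_lit 3) (nat_lit 100) (nat_lit 66) (nat_lit 45) (nat_lit 12) (.spl (nat_lit 0) (nat_lit 375)
(.leaf p123_l98)
(.trZ (nat_lit 3) (nat_lit 100) (nat_lit 61) (nat_lit 51) (nat_lit 16) (.leaf p123_l99)))))
(.trZ (nat_lit 22) (nat_lit 82) (nat_lit 100) (nat_lit 44) (nat_lit 16) (.trX (nat_lit 22) (nat_lit 83) (nat_lit 100) (nat_lit 83) (nat_lit 260) (.leaf p123_l100)))))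
(.trZ (nat_lit 3) (nat_lit 100) (nat_lit 69) (nat_lit 45) (nat_lit 16) (.spl (nat_lit 0) (nat_lit 370)
(.leaf p123_l101)
(.trX (nat_lit 13) (nat_lit 61) (nat_lit 55) (nat_lit 100) (nat_lit 380) (.trZ (nat_lit 3) (nat_lit 100) (nat_lit 61) (nat_lit 55) (nat_lit 20) (.leaf p123_l102))))))))
(.trX (nat_lit 19) (nat_lit 94) (nat_lit 88) (nat_lit 100) (nat_lit 320) (.spl (nat_lit 5) (nat_lit 160)
(.leaf p123_l103)
(.trX (nat_lit 10) (nat_lit 100) (nat_lit 44) (nat_lit 82) (nat_lit 384) (.spl (nat_lit 0) (nat_lit 370)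
(.leaf p123_l104)
(.trZ (nat_lit 3) (nat_lit 100) (nat_lit 66) (nat_lit 45) (nat_lit 12) (.leaf p123_l105)))))))) (by decide +kernel)
noncomputable def p123_l106 : Lf2 := ⟨nat_lit 0, nat_lit 25, [nat_lit 44, nat_lit 5, nat_lit 5, nat_lit 20], false, nat_lit 20, nat_lit 80, nat_lit 0, nat_lit 320, ⟨nat_lit 126, nat_lit 874, nat_lit 0, nat_lit 7, nat_lit 272, nat_lit 874, nat_lit 50, nat_lit 0, nat_lit 0, nat_lit 0, nat_lit 0, nat_lit 0, nat_lit 44601103, nat_lit 20908994, nat_lit 1489903, nat_lit 3716858, true, false⟩,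
 nat_lit 0, nat_lit 0, nat_lit 1599, nat_lit 0, nat_lit 2604, nat_lit 1017, nat_lit 40, nat_lit 0, nat_lit 0, nat_lit 84, nat_lit 0, nat_lit 0, nat_lit 0, nat_lit 0, nat_lit 0, nat_lit 349600, nat_lit 0, nat_lit 0, [(nat_lit 29, [(nat_lit 1, nat_lit 874)])],
 ⟨p123_k35, nat_lit 0, nat_lit 0, nat_lit 145, nat_lit 0, nat_lit 0, [nat_lit 728589600, nat_lit 703700000, nat_lit 869656000], [], [nat_lit 23908211610, nat_lit 25127890772, nat_lit 25283422158, nat_lit 26414163508, nat_lit 23408335600, nat_lit 24449346808, nat_lit 24644176464, nat_lit 25663961720], nat_lit 0, nat_lit 0, nat_lit 0, nat_lit 0, nat_lit 0, nat_lit 0, [], [nat_lit 20, nat_lit 40, nat_lit 40, nat_lit 80, nat_lit 16, nat_lit 226, nat_lit 20, nat_lit 7]⟩, ⟨p123_k28, nat_lit 0, nat_lit 0, nat_lit 693, nat_lit 0, nat_lit 984139, [nat_lit 413532000, nat_lit 787500000, nat_lit 1495872000], [], [nat_lit 4352512140, nat_lit 4371562161, nat_lit 4435162452,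 nat_lit 4477871556, nat_lit 3742280208, nat_lit 3755875995, nat_lit 3779774784, nat_lit 3797337186], nat_lit 1271250, nat_lit 1271250, nat_lit 1271250, nat_lit 1271250, nat_lit 0, nat_lit 2260000, [nat_lit 780000, nat_lit 1435000, nat_lit 1271250], [nat_lit 23, nat_lit 40, nat_lit 40, nat_lit 80, nat_lit 12, nat_lit 456, nat_lit 225, nat_lit 11]⟩,
 ⟨nat_lit 0, nat_lit 2237, ⟨.ofNat (nat_lit 646249), .ofNat (nat_lit 705063), .ofNat (nat_lit 657173), .ofNat (nat_lit 716031), .ofNat (nat_lit 648136), .ofNat (nat_lit 699935), .ofNat (nat_lit 660173), .ofNat (nat_lit 712015)⟩, ⟨.ofNat (nat_lit 50000), .ofNat (nat_lit 192306), .ofNat (nat_lit 50000), .ofNat (nat_lit 200000), .ofNat (nat_lit 50000), .ofNat (nat_lit 199999), .ofNat (nat_lit 50000), .ofNat (nat_lit 200000)⟩⟩, [⟨nat_lit 3, nat_lit 100, nat_lit 37, nat_lit 74, nat_lit 320037595⟩, ⟨nat_lit 22, nat_lit 100, nat_lit 96, nat_lit 69, nat_lit 18183708⟩]⟩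
noncomputable def p123_l107 : Lf2 := ⟨nat_lit 0, nat_lit 25, [nat_lit 44, nat_lit 5, nat_lit 5, nat_lit 20], false, nat_lit 20, nat_lit 80, nat_lit 0, nat_lit 312, ⟨nat_lit 137, nat_lit 863, nat_lit 0, nat_lit 7, nat_lit 277, nat_lit 863, nat_lit 50, nat_lit 0, nat_lit 0, nat_lit 0, nat_lit 0, nat_lit 0, nat_lit 44136477, nat_lit 21381599, nat_lit 1481924, nat_lit 3740922, true, false⟩,
 nat_lit 0, nat_lit 0, nat_lit 1548, nat_lit 0, nat_lit 2533, nat_lit 1027, nat_lit 56, nat_lit 0, nat_lit 0, nat_lit 95, nat_lit 0, nat_lit 0, nat_lit 0, nat_lit 0, nat_lit 0, nat_lit 345200, nat_lit 0, nat_lit 0, [(nat_lit 29, [(nat_lit 1, nat_lit 863)])],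
 ⟨p123_k35, nat_lit 0, nat_lit 0, nat_lit 145, nat_lit 0, nat_lit 0, [nat_lit 731225200, nat_lit 736150001, nat_lit 937372000], [], [nat_lit 23802121649, nat_lit 24964759769, nat_lit 25127116279, nat_lit 26245470791, nat_lit 23399785701, nat_lit 24437474516, nat_lit 24637748878, nat_lit 25646726940], nat_lit 0, nat_lit 0, nat_lit 0, nat_lit 0, nat_lit 0, nat_lit 0, [], [nat_lit 20, nat_lit 40, nat_lit 40, nat_lit 80, nat_lit 16, nat_lit 226, nat_lit 20, nat_lit 7]⟩, ⟨p123_k31, nat_lit 0, nat_lit 0, nat_lit 690, nat_lit 0, nat_lit 979947, [nat_lit 449634000, nat_lit 856250000, nat_lit 1626464000], [], [nat_lit 4578207494, nat_lit 4629271250, nat_lit 4710355286, nat_lit 4755790178, nat_lit 4011519094, nat_lit 4031539095, nat_lit 4059562284, nat_lit 4079669669], nat_lit 1271250, nat_lit 1271250, nat_lit 1271250, nat_lit 1271250, nat_lit 0, nat_lit 2203500, [nat_lit 780000, nat_lit 1435000, nat_lit 1271250], [nat_lit 23,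 nat_lit 40, nat_lit 40, nat_lit 80, nat_lit 12, nat_lit 456, nat_lit 225, nat_lit 11]⟩,
 ⟨nat_lit 0, nat_lit 2237, ⟨.ofNat (nat_lit 657173), .ofNat (nat_lit 716031), .ofNat (nat_lit 668096), .ofNat (nat_lit 726954), .ofNat (nat_lit 660173), .ofNat (nat_lit 712015), .ofNat (nat_lit 672209), .ofNat (nat_lit 724051)⟩, ⟨.ofNat (nat_lit 50000), .ofNat (nat_lit 192306), .ofNat (nat_lit 50000), .ofNat (nat_lit 200000), .ofNat (nat_lit 50000), .ofNat (nat_lit 199999), .ofNat (nat_lit 50000), .ofNat (nat_lit 200000)⟩⟩, [⟨nat_lit 3, nat_lit 100, nat_lit 37, nat_lit 74, nat_lit 271144289⟩, ⟨nat_lit 22, nat_lit 100, nat_lit 96, nat_lit 69, nat_lit 20588154⟩]⟩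
noncomputable def p123_l108 : Lf2 := ⟨nat_lit 0, nat_lit 25, [nat_lit 44, nat_lit 5, nat_lit 5, nat_lit 20], false, nat_lit 20, nat_lit 80, nat_lit 0, nat_lit 160, ⟨nat_lit 614, nat_lit 386, nat_lit 0, nat_lit 7, nat_lit 297, nat_lit 386, nat_lit 49, nat_lit 0, nat_lit 0, nat_lit 0, nat_lit 0, nat_lit 0, nat_lit 42104051, nat_lit 23460382, nat_lit 1435567, nat_lit 3829504, true, true⟩,
 nat_lit 0, nat_lit 0, nat_lit 7166, nat_lit 0, nat_lit 2582, nat_lit 4560, nat_lit 327, nat_lit 0, nat_lit 0, nat_lit 486, nat_lit 0, nat_lit 0, nat_lit 0, nat_lit 0, nat_lit 0, nat_lit 154400, nat_lit 0, nat_lit 0, [(nat_lit 29, [(nat_lit 1, nat_lit 386)])],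
 ⟨p123_k35, nat_lit 0, nat_lit 0, nat_lit 147, nat_lit 0, nat_lit 0, [nat_lit 845514400, nat_lit 2143300001, nat_lit 3873784000], [], [nat_lit 25323108641, nat_lit 25853328936, nat_lit 26819085308, nat_lit 27445170690, nat_lit 24844459303, nat_lit 25316830161, nat_lit 26242395803, nat_lit 26712978163], nat_lit 0, nat_lit 0, nat_lit 0, nat_lit 0, nat_lit 0, nat_lit 0, [], [nat_lit 20, nat_lit 40, nat_lit 40, nat_lit 80, nat_lit 16, nat_lit 226, nat_lit 20, nat_lit 7]⟩, ⟨p123_k28, nat_lit 0, nat_lit 0, nat_lit 652, nat_lit 0, nat_lit 888058, [nat_lit 2015148000, nat_lit 3837500000, nat_lit 7289408000], [], [nat_lit 21035233650, nat_lit 21367899790, nat_lit 21700565930, nat_lit 21991635450, nat_lit 18220707890, nat_lit 18490302422, nat_lit 18780417016, nat_lit 19115402120], nat_lit 1271250, nat_lit 1271250, nat_lit 1271250, nat_lit 1271250, nat_lit 0, nat_lit 1100001, [nat_lit 780000, nat_lit 1435000, nat_lit 1271250],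 [nat_lit 23, nat_lit 40, nat_lit 40, nat_lit 80, nat_lit 12, nat_lit 428, nat_lit 200, nat_lit 10]⟩,
 ⟨nat_lit 1581, nat_lit 2237, ⟨.ofNat (nat_lit 705117), .ofNat (nat_lit 762142), .ofNat (nat_lit 727846), .ofNat (nat_lit 784917), .ofNat (nat_lit 702521), .ofNat (nat_lit 757166), .ofNat (nat_lit 725790), .ofNat (nat_lit 780481)⟩, ⟨.ofNat (nat_lit 50000), .ofNat (nat_lit 192306), .ofNat (nat_lit 50000), .ofNat (nat_lit 200000), .ofNat (nat_lit 50000), .ofNat (nat_lit 196201), .ofNat (nat_lit 50000), .ofNat (nat_lit 200000)⟩⟩, []⟩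
noncomputable def p123_l109 : Lf2 := ⟨nat_lit 0, nat_lit 25, [nat_lit 44, nat_lit 5, nat_lit 5, nat_lit 20], false, nat_lit 20, nat_lit 80, nat_lit 160, nat_lit 300, ⟨nat_lit 243, nat_lit 757, nat_lit 0, nat_lit 7, nat_lit 297, nat_lit 757, nat_lit 49, nat_lit 0, nat_lit 0, nat_lit 0, nat_lit 0, nat_lit 0, nat_lit 42104051, nat_lit 23460382, nat_lit 1435567, nat_lit 3829504, true, true⟩,
 nat_lit 0, nat_lit 0, nat_lit 2943, nat_lit 0, nat_lit 2646, nat_lit 1872, nat_lit 89, nat_lit 0, nat_lit 0, nat_lit 189, nat_lit 0, nat_lit 0, nat_lit 0, nat_lit 0, nat_lit 0, nat_lit 302800, nat_lit 0, nat_lit 0, [(nat_lit 29, [(nat_lit 1, nat_lit 757)])],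
 ⟨p123_k35, nat_lit 0, nat_lit 0, nat_lit 147, nat_lit 0, nat_lit 0, [nat_lit 756622800, nat_lit 1048850000, nat_lit 1589908000], [], [nat_lit 25480109592, nat_lit 26049143980, nat_lit 27037947687, nat_lit 27600805570, nat_lit 24893734506, nat_lit 25369896370, nat_lit 26283656309, nat_lit 26758493389], nat_lit 0, nat_lit 0, nat_lit 0, nat_lit 0, nat_lit 0, nat_lit 0, [], [nat_lit 20, nat_lit 40, nat_lit 40, nat_lit 80, nat_lit 16, nat_lit 226, nat_lit 20, nat_lit 7]⟩, ⟨p123_k28, nat_lit 0, nat_lit 0, nat_lit 524, nat_lit 0, nat_lit 888058, [nat_lit 797526000, nat_lit 1518750000, nat_lit 2884896000], [], [nat_lit 6689648322, nat_lit 6790016880, nat_lit 6923359503, nat_lit 7050196197, nat_lit 6993266805, nat_lit 7091587251, nat_lit 7233416379, nat_lit 7357476308], nat_lit 1271250, nat_lit 1271250, nat_lit 1271250, nat_lit 1271250, nat_lit 1100001, nat_lit 2298750, [nat_lit 780000, nat_lit 1435000, nat_lit 1271250], [nat_lit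 23, nat_lit 40, nat_lit 40, nat_lit 80, nat_lit 12, nat_lit 483, nat_lit 250, nat_lit 11]⟩,
 ⟨nat_lit 1581, nat_lit 2237, ⟨.ofNat (nat_lit 705117), .ofNat (nat_lit 762142), .ofNat (nat_lit 727846), .ofNat (nat_lit 784917), .ofNat (nat_lit 702521), .ofNat (nat_lit 757166), .ofNat (nat_lit 725790), .ofNat (nat_lit 780481)⟩, ⟨.ofNat (nat_lit 50000), .ofNat (nat_lit 192306), .ofNat (nat_lit 50000), .ofNat (nat_lit 200000), .ofNat (nat_lit 50000), .ofNat (nat_lit 196201), .ofNat (nat_lit 50000), .ofNat (nat_lit 200000)⟩⟩, [⟨nat_lit 22, nat_lit 88, nat_lit 100, nat_lit 67, nat_lit 108747261⟩]⟩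
noncomputable def p123_l110 : Lf2 := ⟨nat_lit 0, nat_lit 25, [nat_lit 44, nat_lit 5, nat_lit 5, nat_lit 20], false, nat_lit 36, nat_lit 80, nat_lit 0, nat_lit 300, ⟨nat_lit 114, nat_lit 886, nat_lit 0, nat_lit 7, nat_lit 293, nat_lit 886, nat_lit 58, nat_lit 0, nat_lit 0, nat_lit 0, nat_lit 0, nat_lit 0, nat_lit 42214535, nat_lit 22964090, nat_lit 1821375, nat_lit 3922762, true, true⟩,
 nat_lit 0, nat_lit 0, nat_lit 1419, nat_lit 0, nat_lit 2543, nat_lit 903, nat_lit 78, nat_lit 0, nat_lit 0, nat_lit 74, nat_lit 0, nat_lit 0, nat_lit 0, nat_lit 0, nat_lit 0, nat_lit 221500, nat_lit 0, nat_lit 0, [(nat_lit 29, [(nat_lit 0, nat_lit 886)])],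
 ⟨p123_k45, nat_lit 0, nat_lit 0, nat_lit 128, nat_lit 0, nat_lit 0, [nat_lit 799429601, nat_lit 1300904001, nat_lit 1753922400], [], [nat_lit 25766336173, nat_lit 26277408947, nat_lit 27174933980, nat_lit 27648133829, nat_lit 25442630644, nat_lit 25937671089, nat_lit 26815259127, nat_lit 27274281129], nat_lit 0, nat_lit 0, nat_lit 0, nat_lit 0, nat_lit 0, nat_lit 0, [], [nat_lit 35, nat_lit 40, nat_lit 40, nat_lit 80, nat_lit 22, nat_lit 226, nat_lit 20, nat_lit 8]⟩, ⟨p123_k28, nat_lit 0, nat_lit 0, nat_lit 685, nat_lit 0, nat_lit 984139, [nat_lit 374148000, nat_lit 712500000, nat_lit 1353408000], [], [nat_lit 4080908016, nat_lit 4100829504, nat_lit 4216099632, nat_lit 4249383201, nat_lit 3490823529, nat_lit 3501447516, nat_lit 3543133764, nat_lit 3557792910], nat_lit 1271250, nat_lit 1271250, nat_lit 1271250, nat_lit 1271250, nat_lit 0, nat_lit 2118750, [nat_lit 780000, nat_lit 1435000, nat_lit 1271250], [nat_lit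 23, nat_lit 40, nat_lit 40, nat_lit 80, nat_lit 12, nat_lit 483, nat_lit 250, nat_lit 12]⟩,
 ⟨nat_lit 0, nat_lit 1582, ⟨.ofNat (nat_lit 702515), .ofNat (nat_lit 757165), .ofNat (nat_lit 713855), .ofNat (nat_lit 768823), .ofNat (nat_lit 699984), .ofNat (nat_lit 749998), .ofNat (nat_lit 712166), .ofNat (nat_lit 762499)⟩, ⟨.ofNat (nat_lit 90000), .ofNat (nat_lit 196201), .ofNat (nat_lit 90000), .ofNat (nat_lit 200000), .ofNat (nat_lit 90000), .ofNat (nat_lit 199999), .ofNat (nat_lit 90000), .ofNat (nat_lit 200000)⟩⟩, [⟨nat_lit 3, nat_lit 100, nat_lit 27, nat_lit 83, nat_lit 350879044⟩, ⟨nat_lit 22, nat_lit 90, nat_lit 100, nat_lit 73, nat_lit 13282797⟩]⟩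
noncomputable def p123_l111 : Lf2 := ⟨nat_lit 0, nat_lit 25, [nat_lit 44, nat_lit 5, nat_lit 5, nat_lit 20], false, nat_lit 36, nat_lit 80, nat_lit 0, nat_lit 300, ⟨nat_lit 149, nat_lit 851, nat_lit 0, nat_lit 7, nat_lit 298, nat_lit 851, nat_lit 58, nat_lit 0, nat_lit 0, nat_lit 0, nat_lit 0, nat_lit 0, nat_lit 41751023, nat_lit 23439318, nat_lit 1809659, nat_lit 3940802, true, true⟩,
 nat_lit 0, nat_lit 0, nat_lit 1652, nat_lit 0, nat_lit 2555, nat_lit 1097, nat_lit 88, nat_lit 0, nat_lit 0, nat_lit 100, nat_lit 0, nat_lit 0, nat_lit 0, nat_lit 0, nat_lit 0, nat_lit 212750, nat_lit 0, nat_lit 0, [(nat_lit 29, [(nat_lit 0, nat_lit 851)])],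
 ⟨p123_k45, nat_lit 0, nat_lit 0, nat_lit 128, nat_lit 0, nat_lit 0, [nat_lit 804903600, nat_lit 1379164001, nat_lit 1869828400], [], [nat_lit 25789208069, nat_lit 26301212615, nat_lit 27199412021, nat_lit 27673426077, nat_lit 25460906636, nat_lit 25956836461, nat_lit 26835066091, nat_lit 27294865861], nat_lit 0, nat_lit 0, nat_lit 0, nat_lit 0, nat_lit 0, nat_lit 0, [], [nat_lit 35, nat_lit 40, nat_lit 40, nat_lit 80, nat_lit 22, nat_lit 226, nat_lit 20, nat_lit 8]⟩, ⟨p123_k31, nat_lit 0, nat_lit 0, nat_lit 683, nat_lit 0, nat_lit 979947, [nat_lit 489018000, nat_lit 931250000, nat_lit 1768928000], [], [nat_lit 5204376896, nat_lit 5253537484, nat_lit 5394695723, nat_lit 5437532786, nat_lit 4523376337, nat_lit 4538064539, nat_lit 4594706801, nat_lit 4620407151], nat_lit 1271250, nat_lit 1271250, nat_lit 1271250, nat_lit 1271250, nat_lit 0, nat_lit 2118750, [nat_lit 780000, nat_lit 1435000, nat_lit 1271250], [nat_lit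 23, nat_lit 40, nat_lit 40, nat_lit 80, nat_lit 12, nat_lit 483, nat_lit 250, nat_lit 12]⟩,
 ⟨nat_lit 0, nat_lit 1582, ⟨.ofNat (nat_lit 713855), .ofNat (nat_lit 768823), .ofNat (nat_lit 725184), .ofNat (nat_lit 780481), .ofNat (nat_lit 712166), .ofNat (nat_lit 762499), .ofNat (nat_lit 724337), .ofNat (nat_lit 774999)⟩, ⟨.ofNat (nat_lit 90000), .ofNat (nat_lit 196201), .ofNat (nat_lit 90000), .ofNat (nat_lit 200000), .ofNat (nat_lit 90000), .ofNat (nat_lit 199999), .ofNat (nat_lit 90000), .ofNat (nat_lit 200000)⟩⟩, [⟨nat_lit 3, nat_lit 100, nat_lit 27, nat_lit 83, nat_lit 325938563⟩, ⟨nat_lit 22, nat_lit 90, nat_lit 100, nat_lit 73, nat_lit 20165018⟩]⟩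
noncomputable def p123_l112 : Lf2 := ⟨nat_lit 0, nat_lit 30, [nat_lit 15, nat_lit 5, nat_lit 5, nat_lit 20], false, nat_lit 32, nat_lit 80, nat_lit 0, nat_lit 160, ⟨nat_lit 1000, nat_lit 0, nat_lit 0, nat_lit 0, nat_lit 0, nat_lit 0, nat_lit 0, nat_lit 0, nat_lit 0, nat_lit 0, nat_lit 0, nat_lit 0, nat_lit 0, nat_lit 0, nat_lit 0, nat_lit 0, false, false⟩,
 nat_lit 0, nat_lit 0, nat_lit 12318, nat_lit 0, nat_lit 2939, nat_lit 7838, nat_lit 617, nat_lit 0, nat_lit 0, nat_lit 940, nat_lit 0, nat_lit 0, nat_lit 0, nat_lit 0, nat_lit 0, nat_lit 0, nat_lit 0, nat_lit 0, [],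
 ⟨p123_k36, nat_lit 0, nat_lit 0, nat_lit 159, nat_lit 0, nat_lit 0, [nat_lit 938000000, nat_lit 3282000000, nat_lit 7968000000], [], [nat_lit 23794427839, nat_lit 24581251859, nat_lit 27347253551, nat_lit 28004866946, nat_lit 22844971139, nat_lit 23397795891, nat_lit 26130695888, nat_lit 26771048706], nat_lit 0, nat_lit 0, nat_lit 0, nat_lit 0, nat_lit 0, nat_lit 0, [], [nat_lit 54, nat_lit 40, nat_lit 40, nat_lit 80, nat_lit 43, nat_lit 226, nat_lit 20, nat_lit 6]⟩, ⟨p123_k30, nat_lit 0, nat_lit 0, nat_lit 619, nat_lit 0, nat_lit 716601, [nat_lit 3282000000, nat_lit 6250000000, nat_lit 14058000000], [], [nat_lit 31606736272, nat_lit 32137031284, nat_lit 34443462000, nat_lit 35359609328, nat_lit 26750025088, nat_lit 27450557656, nat_lit 29011174040, nat_lit 29563810120], nat_lit 1271250, nat_lit 1271250, nat_lit 1271250, nat_lit 1271250, nat_lit 0, nat_lit 1100001, [nat_lit 780000, nat_lit 1435000, nat_lit 1271250],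 [nat_lit 71, nat_lit 40, nat_lit 40, nat_lit 80, nat_lit 68, nat_lit 428, nat_lit 200, nat_lit 10]⟩,
 zbF0, []⟩
noncomputable def p123_l113 : Lf2 := ⟨nat_lit 0, nat_lit 30, [nat_lit 15, nat_lit 5, nat_lit 5, nat_lit 20], false, nat_lit 32, nat_lit 80, nat_lit 160, nat_lit 336, ⟨nat_lit 725, nat_lit 275, nat_lit 0, nat_lit 7, nat_lit 284, nat_lit 275, nat_lit 56, nat_lit 0, nat_lit 0, nat_lit 0, nat_lit 0, nat_lit 0, nat_lit 43189394, nat_lit 22052153, nat_lit 1758453, nat_lit 3860058, true, false⟩,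
 nat_lit 0, nat_lit 0, nat_lit 6978, nat_lit 0, nat_lit 2721, nat_lit 4440, nat_lit 482, nat_lit 0, nat_lit 0, nat_lit 670, nat_lit 0, nat_lit 0, nat_lit 0, nat_lit 0, nat_lit 0, nat_lit 110000, nat_lit 0, nat_lit 0, [(nat_lit 29, [(nat_lit 1, nat_lit 275)])],
 ⟨p123_k36, nat_lit 0, nat_lit 0, nat_lit 157, nat_lit 0, nat_lit 0, [nat_lit 872110000, nat_lit 2470750000, nat_lit 5791870000], [], [nat_lit 23397927434, nat_lit 23777138030, nat_lit 26873401426, nat_lit 27191350285, nat_lit 22732601146, nat_lit 23000193366, nat_lit 25876223388, nat_lit 26156002375], nat_lit 0, nat_lit 0, nat_lit 0, nat_lit 0, nat_lit 0, nat_lit 0, [], [nat_lit 54, nat_lit 40, nat_lit 40, nat_lit 80, nat_lit 43, nat_lit 226, nat_lit 20, nat_lit 6]⟩, ⟨p123_k30, nat_lit 0, nat_lit 0, nat_lit 420, nat_lit 0, nat_lit 578049, [nat_lit 2379450000, nat_lit 4531250000, nat_lit 10192050000], [], [nat_lit 19955271520, nat_lit 20210858430, nat_lit 21622399260,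 nat_lit 21827426505, nat_lit 22352900129, nat_lit 22516303730, nat_lit 23934276761, nat_lit 24140355889], nat_lit 1271250, nat_lit 1271250, nat_lit 1271250, nat_lit 1271250, nat_lit 1100001, nat_lit 2607000, [nat_lit 780000, nat_lit 1435000, nat_lit 1271250], [nat_lit 71, nat_lit 40, nat_lit 40, nat_lit 80, nat_lit 68, nat_lit 483, nat_lit 250, nat_lit 10]⟩,
 ⟨nat_lit 1936, nat_lit 2237, ⟨.ofNat (nat_lit 648093), .ofNat (nat_lit 762142), .ofNat (nat_lit 659476), .ofNat (nat_lit 773529), .ofNat (nat_lit 647913), .ofNat (nat_lit 759709), .ofNat (nat_lit 659414), .ofNat (nat_lit 771215)⟩, ⟨.ofNat (nat_lit 80000), .ofNat (nat_lit 200000), .ofNat (nat_lit 80000), .ofNat (nat_lit 200000), .ofNat (nat_lit 80000), .ofNat (nat_lit 200000), .ofNat (nat_lit 80000), .ofNat (nat_lit 200000)⟩⟩, [⟨nat_lit 7, nat_lit 87, nat_lit 100, nat_lit 99, nat_lit 221187578⟩, ⟨nat_lit 22, nat_lit 100, nat_lit 76, nat_lit 82, nat_lit 14685685⟩]⟩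
noncomputable def p123_l114 : Lf2 := ⟨nat_lit 0, nat_lit 30, [nat_lit 15, nat_lit 5, nat_lit 5, nat_lit 20], false, nat_lit 32, nat_lit 80, nat_lit 160, nat_lit 328, ⟨nat_lit 1000, nat_lit 0, nat_lit 0, nat_lit 0, nat_lit 0, nat_lit 0, nat_lit 0, nat_lit 0, nat_lit 0, nat_lit 0, nat_lit 0, nat_lit 0, nat_lit 0, nat_lit 0, nat_lit 0, nat_lit 0, false, false⟩,
 nat_lit 0, nat_lit 0, nat_lit 9227, nat_lit 0, nat_lit 2956, nat_lit 6127, nat_lit 622, nat_lit 0, nat_lit 0, nat_lit 944, nat_lit 0, nat_lit 0, nat_lit 0, nat_lit 0, nat_lit 0, nat_lit 0, nat_lit 0, nat_lit 0, [],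
 ⟨p123_k36, nat_lit 0, nat_lit 0, nat_lit 157, nat_lit 0, nat_lit 0, [nat_lit 938000000, nat_lit 3282000000, nat_lit 7968000000], [], [nat_lit 23825347596, nat_lit 24219867055, nat_lit 27384205322, nat_lit 27713858732, nat_lit 22754547506, nat_lit 23036629050, nat_lit 26156919952, nat_lit 26477916288], nat_lit 0, nat_lit 0, nat_lit 0, nat_lit 0, nat_lit 0, nat_lit 0, [], [nat_lit 54, nat_lit 40, nat_lit 40, nat_lit 80, nat_lit 43, nat_lit 226, nat_lit 20, nat_lit 6]⟩, ⟨p123_k39, nat_lit 0, nat_lit 0, nat_lit 428, nat_lit 0, nat_lit 603623, [nat_lit 3282000000, nat_lit 6250000000, nat_lit 14058000000], [], [nat_lit 26099135259, nat_lit 26451721902, nat_lit 28329077489, nat_lit 28611900830, nat_lit 29011603667, nat_lit 29243451602, nat_lit 31188214885, nat_lit 31480138387], nat_lit 1271250, nat_lit 1271250, nat_lit 1271250, nat_lit 1271250, nat_lit 1100001, nat_lit 2538500, [nat_lit 780000, nat_lit 1435000, nat_lit 1271250],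 [nat_lit 71, nat_lit 40, nat_lit 40, nat_lit 80, nat_lit 68, nat_lit 483, nat_lit 250, nat_lit 10]⟩,
 zbF0, [⟨nat_lit 19, nat_lit 99, nat_lit 92, nat_lit 100, nat_lit 312660314⟩]⟩
noncomputable def p123_l115 : Lf2 := ⟨nat_lit 0, nat_lit 30, [nat_lit 15, nat_lit 5, nat_lit 5, nat_lit 20], false, nat_lit 40, nat_lit 80, nat_lit 160, nat_lit 336, ⟨nat_lit 331, nat_lit 669, nat_lit 0, nat_lit 7, nat_lit 286, nat_lit 669, nat_lit 60, nat_lit 0, nat_lit 0, nat_lit 0, nat_lit 0, nat_lit 0, nat_lit 42857516, nat_lit 22199200, nat_lit 1943284, nat_lit 3920772, true, false⟩,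
 nat_lit 0, nat_lit 0, nat_lit 3876, nat_lit 0, nat_lit 2737, nat_lit 2466, nat_lit 218, nat_lit 0, nat_lit 0, nat_lit 277, nat_lit 0, nat_lit 0, nat_lit 0, nat_lit 0, nat_lit 0, nat_lit 167250, nat_lit 0, nat_lit 0, [(nat_lit 29, [(nat_lit 0, nat_lit 669)])],
 ⟨p123_k37, nat_lit 0, nat_lit 0, nat_lit 135, nat_lit 0, nat_lit 0, [nat_lit 833368401, nat_lit 1786116001, nat_lit 3263851600], [], [nat_lit 24187783088, nat_lit 24371216006, nat_lit 27075718702, nat_lit 27234441705, nat_lit 23744497602, nat_lit 23916179186, nat_lit 26506820187, nat_lit 26654252714], nat_lit 0, nat_lit 0, nat_lit 0, nat_lit 0, nat_lit 0, nat_lit 0, [], [nat_lit 20, nat_lit 40, nat_lit 40, nat_lit 80, nat_lit 16, nat_lit 226, nat_lit 20, nat_lit 7]⟩, ⟨p123_k30, nat_lit 0, nat_lit 0, nat_lit 456, nat_lit 0, nat_lit 686933, [nat_lit 1086342000, nat_lit 2068750000, nat_lit 4653198000], [], [nat_lit 9194997630, nat_lit 9384569478, nat_lit 9786414934,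 nat_lit 9933505440, nat_lit 9931742343, nat_lit 10043182702, nat_lit 10444162192, nat_lit 10591812963], nat_lit 1271250, nat_lit 1271250, nat_lit 1271250, nat_lit 1271250, nat_lit 1100001, nat_lit 2607000, [nat_lit 780000, nat_lit 1435000, nat_lit 1271250], [nat_lit 71, nat_lit 40, nat_lit 40, nat_lit 80, nat_lit 68, nat_lit 483, nat_lit 250, nat_lit 10]⟩,
 ⟨nat_lit 1732, nat_lit 1937, ⟨.ofNat (nat_lit 647923), .ofNat (nat_lit 759709), .ofNat (nat_lit 670928), .ofNat (nat_lit 782720), .ofNat (nat_lit 647878), .ofNat (nat_lit 758202), .ofNat (nat_lit 671056), .ofNat (nat_lit 781384)⟩, ⟨.ofNat (nat_lit 100000), .ofNat (nat_lit 200000), .ofNat (nat_lit 100000), .ofNat (nat_lit 200000), .ofNat (nat_lit 100000), .ofNat (nat_lit 200000), .ofNat (nat_lit 100000), .ofNat (nat_lit 200000)⟩⟩, [⟨nat_lit 19, nat_lit 100, nat_lit 90, nat_lit 100, nat_lit 33467968⟩, ⟨nat_lit 22, nat_lit 99, nat_lit 100, nat_lit 77, nat_lit 79764502⟩]⟩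
noncomputable def p123_l116 : Lf2 := ⟨nat_lit 0, nat_lit 30, [nat_lit 15, nat_lit 5, nat_lit 5, nat_lit 20], false, nat_lit 44, nat_lit 80, nat_lit 160, nat_lit 336, ⟨nat_lit 321, nat_lit 679, nat_lit 0, nat_lit 7, nat_lit 286, nat_lit 679, nat_lit 62, nat_lit 0, nat_lit 0, nat_lit 0, nat_lit 0, nat_lit 0, nat_lit 42806871, nat_lit 22152455, nat_lit 2040674, nat_lit 3945767, true, false⟩,
 nat_lit 0, nat_lit 0, nat_lit 3765, nat_lit 0, nat_lit 2738, nat_lit 2395, nat_lit 206, nat_lit 0, nat_lit 0, nat_lit 269, nat_lit 0, nat_lit 0, nat_lit 0, nat_lit 0, nat_lit 0, nat_lit 169750, nat_lit 0, nat_lit 0, [(nat_lit 29, [(nat_lit 0, nat_lit 679)])],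
 ⟨p123_k46, nat_lit 0, nat_lit 0, nat_lit 134, nat_lit 0, nat_lit 0, [nat_lit 831804401, nat_lit 1763756001, nat_lit 3219215600], [], [nat_lit 24300291545, nat_lit 24417809894, nat_lit 27151914767, nat_lit 27271357967, nat_lit 23896422199, nat_lit 24010894254, nat_lit 26634718471, nat_lit 26733020514], nat_lit 0, nat_lit 0, nat_lit 0, nat_lit 0, nat_lit 0, nat_lit 0, [], [nat_lit 20, nat_lit 40, nat_lit 40, nat_lit 80, nat_lit 16, nat_lit 226, nat_lit 20, nat_lit 7]⟩, ⟨p123_k30, nat_lit 0, nat_lit 0, nat_lit 490, nat_lit 0, nat_lit 716601, [nat_lit 1053522000, nat_lit 2006250000, nat_lit 4512618000], [], [nat_lit 8902757158, nat_lit 9086667042, nat_lit 9476363118, nat_lit 9619025874, nat_lit 9616682763, nat_lit 9730775674, nat_lit 10118795076, nat_lit 10265070959], nat_lit 1271250, nat_lit 1271250, nat_lit 1271250, nat_lit 1271250, nat_lit 1100001, nat_lit 2607000, [nat_lit 780000, nat_lit 1435000, nat_lit 1271250],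 [nat_lit 71, nat_lit 40, nat_lit 40, nat_lit 80, nat_lit 68, nat_lit 483, nat_lit 250, nat_lit 10]⟩,
 ⟨nat_lit 1581, nat_lit 1733, ⟨.ofNat (nat_lit 647882), .ofNat (nat_lit 758202), .ofNat (nat_lit 671062), .ofNat (nat_lit 781384), .ofNat (nat_lit 647890), .ofNat (nat_lit 757166), .ofNat (nat_lit 671202), .ofNat (nat_lit 780481)⟩, ⟨.ofNat (nat_lit 110000), .ofNat (nat_lit 200000), .ofNat (nat_lit 110000), .ofNat (nat_lit 200000), .ofNat (nat_lit 110000), .ofNat (nat_lit 200000), .ofNat (nat_lit 110000), .ofNat (nat_lit 200000)⟩⟩, [⟨nat_lit 7, nat_lit 90, nat_lit 100, nat_lit 100, nat_lit 27662633⟩, ⟨nat_lit 22, nat_lit 99, nat_lit 100, nat_lit 79, nat_lit 81726700⟩]⟩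
noncomputable def p123_l117 : Lf2 := ⟨nat_lit 0, nat_lit 30, [nat_lit 15, nat_lit 5, nat_lit 5, nat_lit 20], false, nat_lit 48, nat_lit 80, nat_lit 0, nat_lit 160, ⟨nat_lit 473, nat_lit 527, nat_lit 0, nat_lit 7, nat_lit 285, nat_lit 527, nat_lit 64, nat_lit 0, nat_lit 0, nat_lit 0, nat_lit 0, nat_lit 0, nat_lit 42806623, nat_lit 22052348, nat_lit 2141029, nat_lit 3968409, true, false⟩,
 nat_lit 0, nat_lit 0, nat_lit 5214, nat_lit 0, nat_lit 2584, nat_lit 3318, nat_lit 293, nat_lit 0, nat_lit 0, nat_lit 393, nat_lit 0, nat_lit 0, nat_lit 0, nat_lit 0, nat_lit 0, nat_lit 131750, nat_lit 0, nat_lit 0, [(nat_lit 29, [(nat_lit 0, nat_lit 527)])],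
 ⟨p123_k38, nat_lit 0, nat_lit 0, nat_lit 135, nat_lit 0, nat_lit 0, [nat_lit 855577200, nat_lit 2103628001, nat_lit 3897682800], [], [nat_lit 23935348329, nat_lit 24507201684, nat_lit 26861637733, nat_lit 27478507808, nat_lit 23620815861, nat_lit 24179573165, nat_lit 26309251541, nat_lit 26795915264], nat_lit 0, nat_lit 0, nat_lit 0, nat_lit 0, nat_lit 0, nat_lit 0, [], [nat_lit 20, nat_lit 40, nat_lit 40, nat_lit 80, nat_lit 16, nat_lit 226, nat_lit 20, nat_lit 7]⟩, ⟨p123_k30, nat_lit 0, nat_lit 0, nat_lit 721, nat_lit 0, nat_lit 868718, [nat_lit 1552386000, nat_lit 2956250000, nat_lit 6649434000], [], [nat_lit 16730044122, nat_lit 16975588300, nat_lit 17495797134, nat_lit 17687013092, nat_lit 14698525842, nat_lit 14898928562, nat_lit 15311974178, nat_lit 15468855860], nat_lit 1271250, nat_lit 1271250, nat_lit 1271250, nat_lit 1271250, nat_lit 0, nat_lit 1100001, [nat_lit 780000, nat_lit 1435000, nat_lit 1271250],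 [nat_lit 71, nat_lit 40, nat_lit 40, nat_lit 80, nat_lit 68, nat_lit 428, nat_lit 200, nat_lit 10]⟩,
 ⟨nat_lit 0, nat_lit 1582, ⟨.ofNat (nat_lit 646579), .ofNat (nat_lit 757165), .ofNat (nat_lit 669237), .ofNat (nat_lit 780481), .ofNat (nat_lit 648683), .ofNat (nat_lit 749998), .ofNat (nat_lit 673026), .ofNat (nat_lit 774999)⟩, ⟨.ofNat (nat_lit 120000), .ofNat (nat_lit 200000), .ofNat (nat_lit 120000), .ofNat (nat_lit 200000), .ofNat (nat_lit 120000), .ofNat (nat_lit 200000), .ofNat (nat_lit 120000), .ofNat (nat_lit 200000)⟩⟩, [⟨nat_lit 3, nat_lit 100, nat_lit 25, nat_lit 86, nat_lit 1047882610⟩]⟩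
noncomputable def p123_l118 : Lf2 := ⟨nat_lit 0, nat_lit 30, [nat_lit 15, nat_lit 5, nat_lit 5, nat_lit 20], false, nat_lit 48, nat_lit 80, nat_lit 160, nat_lit 336, ⟨nat_lit 303, nat_lit 697, nat_lit 0, nat_lit 7, nat_lit 283, nat_lit 697, nat_lit 64, nat_lit 0, nat_lit 0, nat_lit 0, nat_lit 0, nat_lit 0, nat_lit 42993486, nat_lit 21860260, nat_lit 2146254, nat_lit 3960024, true, false⟩,
 nat_lit 0, nat_lit 0, nat_lit 3576, nat_lit 0, nat_lit 2874, nat_lit 2275, nat_lit 178, nat_lit 0, nat_lit 0, nat_lit 257, nat_lit 0, nat_lit 0, nat_lit 0, nat_lit 0, nat_lit 0, nat_lit 174250, nat_lit 0, nat_lit 0, [(nat_lit 29, [(nat_lit 0, nat_lit 697)])],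
 ⟨p123_k38, nat_lit 0, nat_lit 0, nat_lit 133, nat_lit 0, nat_lit 0, [nat_lit 828989201, nat_lit 1723508001, nat_lit 3138870800], [], [nat_lit 24577923628, nat_lit 24890245095, nat_lit 27459574001, nat_lit 27782300645, nat_lit 24053375398, nat_lit 24345562045, nat_lit 26865249188, nat_lit 27125909223], nat_lit 0, nat_lit 0, nat_lit 0, nat_lit 0, nat_lit 0, nat_lit 0, [], [nat_lit 20, nat_lit 40, nat_lit 40, nat_lit 80, nat_lit 16, nat_lit 226, nat_lit 20, nat_lit 7]⟩, ⟨p123_k30, nat_lit 0, nat_lit 0, nat_lit 515, nat_lit 0, nat_lit 731329, [nat_lit 994446000, nat_lit 1893750000, nat_lit 4259574000], [], [nat_lit 8324363374, nat_lit 8411295260, nat_lit 8866034214, nat_lit 8933398518, nat_lit 8995964989, nat_lit 9051769525, nat_lit 9509457716, nat_lit 9577082120], nat_lit 1271250, nat_lit 1271250, nat_lit 1271250, nat_lit 1271250, nat_lit 1100001, nat_lit 2607000, [nat_lit 780000, nat_lit 1435000, nat_lit 1271250], [nat_lit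 71, nat_lit 40, nat_lit 40, nat_lit 80, nat_lit 68, nat_lit 483, nat_lit 250, nat_lit 10]⟩,
 ⟨nat_lit 1118, nat_lit 1582, ⟨.ofNat (nat_lit 647829), .ofNat (nat_lit 757166), .ofNat (nat_lit 659470), .ofNat (nat_lit 768823), .ofNat (nat_lit 648063), .ofNat (nat_lit 754383), .ofNat (nat_lit 659923), .ofNat (nat_lit 766259)⟩, ⟨.ofNat (nat_lit 120000), .ofNat (nat_lit 200000), .ofNat (nat_lit 120000), .ofNat (nat_lit 200000), .ofNat (nat_lit 120000), .ofNat (nat_lit 200000), .ofNat (nat_lit 120000), .ofNat (nat_lit 200000)⟩⟩, [⟨nat_lit 3, nat_lit 100, nat_lit 24, nat_lit 88, nat_lit 21913264⟩, ⟨nat_lit 22, nat_lit 100, nat_lit 100, nat_lit 80, nat_lit 109136663⟩]⟩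
noncomputable def p123_l119 : Lf2 := ⟨nat_lit 0, nat_lit 30, [nat_lit 15, nat_lit 5, nat_lit 5, nat_lit 20], false, nat_lit 64, nat_lit 80, nat_lit 160, nat_lit 336, ⟨nat_lit 291, nat_lit 709, nat_lit 0, nat_lit 7, nat_lit 282, nat_lit 709, nat_lit 72, nat_lit 0, nat_lit 0, nat_lit 0, nat_lit 0, nat_lit 0, nat_lit 42744046, nat_lit 21699166, nat_lit 2556788, nat_lit 4060270, true, false⟩,
 nat_lit 0, nat_lit 0, nat_lit 3436, nat_lit 0, nat_lit 2766, nat_lit 2186, nat_lit 169, nat_lit 0, nat_lit 0, nat_lit 247, nat_lit 0, nat_lit 0, nat_lit 0, nat_lit 0, nat_lit 0, nat_lit 177250, nat_lit 0, nat_lit 0, [(nat_lit 29, [(nat_lit 0, nat_lit 709)])],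
 ⟨p123_k47, nat_lit 0, nat_lit 0, nat_lit 126, nat_lit 0, nat_lit 0, [nat_lit 827112400, nat_lit 1696676000, nat_lit 3085307600], [], [nat_lit 24362776426, nat_lit 24653598106, nat_lit 27176811675, nat_lit 27491430024, nat_lit 24174231912, nat_lit 24461648685, nat_lit 26861780522, nat_lit 27111157256], nat_lit 0, nat_lit 0, nat_lit 0, nat_lit 0, nat_lit 0, nat_lit 0, [], [nat_lit 20, nat_lit 40, nat_lit 40, nat_lit 80, nat_lit 16, nat_lit 226, nat_lit 20, nat_lit 7]⟩, ⟨p123_k30, nat_lit 0, nat_lit 0, nat_lit 562, nat_lit 0, nat_lit 810236, [nat_lit 955062000, nat_lit 1818750000, nat_lit 4090878000], [], [nat_lit 7989352250, nat_lit 8072851534, nat_lit 8509588434, nat_lit 8574287367, nat_lit 8634179715, nat_lit 8690077081, nat_lit 9129648529, nat_lit 9194597490], nat_lit 1271250, nat_lit 1271250, nat_lit 1271250, nat_lit 1271250, nat_lit 1100001, nat_lit 2607000, [nat_lit 780000, nat_lit 1435000, nat_lit 1271250], [nat_lit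 71, nat_lit 40, nat_lit 40, nat_lit 80, nat_lit 68, nat_lit 483, nat_lit 250, nat_lit 10]⟩,
 ⟨nat_lit 0, nat_lit 1119, ⟨.ofNat (nat_lit 647199), .ofNat (nat_lit 754382), .ofNat (nat_lit 658842), .ofNat (nat_lit 766258), .ofNat (nat_lit 649068), .ofNat (nat_lit 749998), .ofNat (nat_lit 661336), .ofNat (nat_lit 762498)⟩, ⟨.ofNat (nat_lit 160000), .ofNat (nat_lit 200000), .ofNat (nat_lit 160000), .ofNat (nat_lit 200000), .ofNat (nat_lit 160000), .ofNat (nat_lit 200000), .ofNat (nat_lit 160000), .ofNat (nat_lit 200000)⟩⟩, [⟨nat_lit 3, nat_lit 100, nat_lit 18, nat_lit 91, nat_lit 577416813⟩, ⟨nat_lit 22, nat_lit 100, nat_lit 98, nat_lit 84, nat_lit 99948485⟩]⟩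
noncomputable def p123_l120 : Lf2 := ⟨nat_lit 0, nat_lit 30, [nat_lit 15, nat_lit 5, nat_lit 5, nat_lit 20], false, nat_lit 48, nat_lit 80, nat_lit 160, nat_lit 328, ⟨nat_lit 418, nat_lit 582, nat_lit 0, nat_lit 7, nat_lit 288, nat_lit 582, nat_lit 64, nat_lit 0, nat_lit 0, nat_lit 0, nat_lit 0, nat_lit 0, nat_lit 42534750, nat_lit 22331931, nat_lit 2133319, nat_lit 3980241, true, false⟩,
 nat_lit 0, nat_lit 0, nat_lit 4300, nat_lit 0, nat_lit 2772, nat_lit 2855, nat_lit 236, nat_lit 0, nat_lit 0, nat_lit 362, nat_lit 0, nat_lit 0, nat_lit 0, nat_lit 0, nat_lit 0, nat_lit 145500, nat_lit 0, nat_lit 0, [(nat_lit 29, [(nat_lit 0, nat_lit 582)])],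
 ⟨p123_k38, nat_lit 0, nat_lit 0, nat_lit 133, nat_lit 0, nat_lit 0, [nat_lit 846975200, nat_lit 1980648000, nat_lit 3652184800], [], [nat_lit 24304754906, nat_lit 24599255117, nat_lit 27249265383, nat_lit 27566965324, nat_lit 23932637888, nat_lit 24220319654, nat_lit 26662202328, nat_lit 26909121274], nat_lit 0, nat_lit 0, nat_lit 0, nat_lit 0, nat_lit 0, nat_lit 0, [], [nat_lit 20, nat_lit 40, nat_lit 40, nat_lit 80, nat_lit 16, nat_lit 226, nat_lit 20, nat_lit 7]⟩, ⟨p123_k39, nat_lit 0, nat_lit 0, nat_lit 531, nat_lit 0, nat_lit 743797, [nat_lit 1371876000, nat_lit 2612500000, nat_lit 5876244000], [], [nat_lit 11369553480, nat_lit 11486837006, nat_lit 12087253213, nat_lit 12179534312, nat_lit 12204518463, nat_lit 12278119129, nat_lit 12900217687, nat_lit 12995540384], nat_lit 1271250, nat_lit 1271250, nat_lit 1271250, nat_lit 1271250, nat_lit 1100001, nat_lit 2538500, [nat_lit 780000, nat_lit 1435000, nat_lit 1271250],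 [nat_lit 71, nat_lit 40, nat_lit 40, nat_lit 80, nat_lit 68, nat_lit 483, nat_lit 250, nat_lit 10]⟩,
 ⟨nat_lit 1118, nat_lit 1582, ⟨.ofNat (nat_lit 659470), .ofNat (nat_lit 768823), .ofNat (nat_lit 671111), .ofNat (nat_lit 780481), .ofNat (nat_lit 659923), .ofNat (nat_lit 766259), .ofNat (nat_lit 671782), .ofNat (nat_lit 778134)⟩, ⟨.ofNat (nat_lit 120000), .ofNat (nat_lit 200000), .ofNat (nat_lit 120000), .ofNat (nat_lit 200000), .ofNat (nat_lit 120000), .ofNat (nat_lit 200000), .ofNat (nat_lit 120000), .ofNat (nat_lit 200000)⟩⟩, [⟨nat_lit 19, nat_lit 99, nat_lit 92, nat_lit 100, nat_lit 70348859⟩, ⟨nat_lit 22, nat_lit 100, nat_lit 100, nat_lit 80, nat_lit 60531405⟩]⟩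
noncomputable def p123_l121 : Lf2 := ⟨nat_lit 0, nat_lit 30, [nat_lit 15, nat_lit 5, nat_lit 5, nat_lit 20], false, nat_lit 64, nat_lit 80, nat_lit 160, nat_lit 328, ⟨nat_lit 379, nat_lit 621, nat_lit 0, nat_lit 7, nat_lit 289, nat_lit 621, nat_lit 72, nat_lit 0, nat_lit 0, nat_lit 0, nat_lit 0, nat_lit 0, nat_lit 42078246, nat_lit 22387920, nat_lit 2533834, nat_lit 4088905, true, false⟩,
 nat_lit 0, nat_lit 0, nat_lit 3887, nat_lit 0, nat_lit 2813, nat_lit 2581, nat_lit 189, nat_lit 0, nat_lit 0, nat_lit 326, nat_lit 0, nat_lit 0, nat_lit 0, nat_lit 0, nat_lit 0, nat_lit 155250, nat_lit 0, nat_lit 0, [(nat_lit 29, [(nat_lit 0, nat_lit 621)])],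
 ⟨p123_k47, nat_lit 0, nat_lit 0, nat_lit 126, nat_lit 0, nat_lit 0, [nat_lit 840875600, nat_lit 1893444001, nat_lit 3478104400], [], [nat_lit 24698966555, nat_lit 24991093114, nat_lit 27266074442, nat_lit 27582984333, nat_lit 24501269988, nat_lit 24786668659, nat_lit 26945098409, nat_lit 27193420805], nat_lit 0, nat_lit 0, nat_lit 0, nat_lit 0, nat_lit 0, nat_lit 0, [], [nat_lit 20, nat_lit 40, nat_lit 40, nat_lit 80, nat_lit 16, nat_lit 226, nat_lit 20, nat_lit 7]⟩, ⟨p123_k39, nat_lit 0, nat_lit 0, nat_lit 561, nat_lit 0, nat_lit 815825, [nat_lit 1243878000, nat_lit 2368750000, nat_lit 5327982000], [], [nat_lit 10420282542, nat_lit 10524339005, nat_lit 11014670040, nat_lit 11098323682, nat_lit 11151801165, nat_lit 11216936030, nat_lit 11725169359, nat_lit 11811573283], nat_lit 1271250, nat_lit 1271250, nat_lit 1271250, nat_lit 1271250, nat_lit 1100001, nat_lit 2538500, [nat_lit 780000, nat_lit 1435000, nat_lit 1271250],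 [nat_lit 71, nat_lit 40, nat_lit 40, nat_lit 80, nat_lit 68, nat_lit 483, nat_lit 250, nat_lit 10]⟩,
 ⟨nat_lit 0, nat_lit 1119, ⟨.ofNat (nat_lit 669653), .ofNat (nat_lit 766258), .ofNat (nat_lit 681296), .ofNat (nat_lit 778134), .ofNat (nat_lit 671522), .ofNat (nat_lit 762498), .ofNat (nat_lit 683789), .ofNat (nat_lit 774999)⟩, ⟨.ofNat (nat_lit 160000), .ofNat (nat_lit 200000), .ofNat (nat_lit 160000), .ofNat (nat_lit 200000), .ofNat (nat_lit 160000), .ofNat (nat_lit 200000), .ofNat (nat_lit 160000), .ofNat (nat_lit 200000)⟩⟩, [⟨nat_lit 0, nat_lit 93, nat_lit 17, nat_lit 100, nat_lit 348568532⟩, ⟨nat_lit 3, nat_lit 100, nat_lit 18, nat_lit 91, nat_lit 284219864⟩, ⟨nat_lit 22, nat_lit 100, nat_lit 100, nat_lit 85, nat_lit 125191629⟩]⟩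
noncomputable def p123_l122 : Lf2 := ⟨nat_lit 0, nat_lit 25, [nat_lit 44, nat_lit 5, nat_lit 5, nat_lit 20], false, nat_lit 20, nat_lit 80, nat_lit 0, nat_lit 260, ⟨nat_lit 379, nat_lit 621, nat_lit 0, nat_lit 8, nat_lit 317, nat_lit 621, nat_lit 49, nat_lit 0, nat_lit 0, nat_lit 0, nat_lit 0, nat_lit 0, nat_lit 40164133, nat_lit 25440726, nat_lit 1395141, nat_lit 3894894, true, true⟩,
 nat_lit 0, nat_lit 0, nat_lit 4380, nat_lit 0, nat_lit 2276, nat_lit 2787, nat_lit 221, nat_lit 0, nat_lit 0, nat_lit 274, nat_lit 0, nat_lit 0, nat_lit 0, nat_lit 0, nat_lit 0, nat_lit 248400, nat_lit 0, nat_lit 0, [(nat_lit 29, [(nat_lit 1, nat_lit 621)])],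
 ⟨p123_k35, nat_lit 0, nat_lit 0, nat_lit 156, nat_lit 0, nat_lit 0, [nat_lit 789208401, nat_lit 1450050000, nat_lit 2427124000], [], [nat_lit 26589879788, nat_lit 27058270270, nat_lit 28146079968, nat_lit 28577420904, nat_lit 26194031132, nat_lit 26644270612, nat_lit 27696181212, nat_lit 28111748844], nat_lit 0, nat_lit 0, nat_lit 0, nat_lit 0, nat_lit 0, nat_lit 0, [], [nat_lit 20, nat_lit 40, nat_lit 40, nat_lit 80, nat_lit 16, nat_lit 226, nat_lit 20, nat_lit 7]⟩, ⟨p123_k28, nat_lit 0, nat_lit 0, nat_lit 598, nat_lit 0, nat_lit 824770, [nat_lit 1243878000, nat_lit 2368750000, nat_lit 4499488000], [], [nat_lit 13806496632, nat_lit 13867412107, nat_lit 14217694318, nat_lit 14305557661, nat_lit 12001967691, nat_lit 12063387437, nat_lit 12424815422, nat_lit 12493680367], nat_lit 1271250, nat_lit 1271250, nat_lit 1271250, nat_lit 1271250, nat_lit 0, nat_lit 1836250, [nat_lit 780000, nat_lit 1435000, nat_lit 1271250],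 [nat_lit 23, nat_lit 40, nat_lit 40, nat_lit 80, nat_lit 12, nat_lit 373, nat_lit 150, nat_lit 9]⟩,
 ⟨nat_lit 1581, nat_lit 2237, ⟨.ofNat (nat_lit 762142), .ofNat (nat_lit 819158), .ofNat (nat_lit 773529), .ofNat (nat_lit 830545), .ofNat (nat_lit 757166), .ofNat (nat_lit 811802), .ofNat (nat_lit 768823), .ofNat (nat_lit 823459)⟩, ⟨.ofNat (nat_lit 50000), .ofNat (nat_lit 192306), .ofNat (nat_lit 50000), .ofNat (nat_lit 200000), .ofNat (nat_lit 50000), .ofNat (nat_lit 196201), .ofNat (nat_lit 50000), .ofNat (nat_lit 200000)⟩⟩, [⟨nat_lit 13, nat_lit 34, nat_lit 81, nat_lit 100, nat_lit 137534892⟩, ⟨nat_lit 22, nat_lit 72, nat_lit 100, nat_lit 66, nat_lit 62937677⟩]⟩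
noncomputable def p123_l123 : Lf2 := ⟨nat_lit 0, nat_lit 25, [nat_lit 44, nat_lit 5, nat_lit 5, nat_lit 20], false, nat_lit 36, nat_lit 80, nat_lit 0, nat_lit 260, ⟨nat_lit 190, nat_lit 810, nat_lit 0, nat_lit 8, nat_lit 310, nat_lit 810, nat_lit 58, nat_lit 0, nat_lit 0, nat_lit 0, nat_lit 0, nat_lit 0, nat_lit 40597466, nat_lit 24623320, nat_lit 1779214, nat_lit 3980459, true, true⟩,
 nat_lit 0, nat_lit 0, nat_lit 2383, nat_lit 0, nat_lit 2467, nat_lit 1516, nat_lit 113, nat_lit 0, nat_lit 0, nat_lit 124, nat_lit 0, nat_lit 0, nat_lit 0, nat_lit 0, nat_lit 0, nat_lit 202500, nat_lit 0, nat_lit 0, [(nat_lit 29, [(nat_lit 0, nat_lit 810)])],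
 ⟨p123_k45, nat_lit 0, nat_lit 0, nat_lit 133, nat_lit 0, nat_lit 0, [nat_lit 811316001, nat_lit 1470840000, nat_lit 2005604000], [], [nat_lit 27129253146, nat_lit 27630506223, nat_lit 28099281943, nat_lit 28577379587, nat_lit 26799161783, nat_lit 27253257921, nat_lit 27695503378, nat_lit 28159905891], nat_lit 0, nat_lit 0, nat_lit 0, nat_lit 0, nat_lit 0, nat_lit 0, [], [nat_lit 35, nat_lit 40, nat_lit 40, nat_lit 80, nat_lit 22, nat_lit 226, nat_lit 20, nat_lit 8]⟩, ⟨p123_k28, nat_lit 0, nat_lit 0, nat_lit 680, nat_lit 0, nat_lit 984139, [nat_lit 623580000, nat_lit 1187500000, nat_lit 2255680000], [], [nat_lit 7007368792, nat_lit 7062929308, nat_lit 7194702789, nat_lit 7244923701, nat_lit 5780723830, nat_lit 5798107526, nat_lit 5866038072, nat_lit 5896598259], nat_lit 1271250, nat_lit 1271250, nat_lit 1271250, nat_lit 1271250, nat_lit 0, nat_lit 1836250, [nat_lit 780000, nat_lit 1435000, nat_lit 1271250], [nat_lit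 23, nat_lit 40, nat_lit 40, nat_lit 80, nat_lit 12, nat_lit 373, nat_lit 150, nat_lit 9]⟩,
 ⟨nat_lit 0, nat_lit 1582, ⟨.ofNat (nat_lit 757165), .ofNat (nat_lit 789945), .ofNat (nat_lit 768823), .ofNat (nat_lit 801603), .ofNat (nat_lit 749998), .ofNat (nat_lit 779997), .ofNat (nat_lit 762499), .ofNat (nat_lit 792497)⟩, ⟨.ofNat (nat_lit 90000), .ofNat (nat_lit 196201), .ofNat (nat_lit 90000), .ofNat (nat_lit 200000), .ofNat (nat_lit 90000), .ofNat (nat_lit 199999), .ofNat (nat_lit 90000), .ofNat (nat_lit 200000)⟩⟩, [⟨nat_lit 13, nat_lit 25, nat_lit 87, nat_lit 100, nat_lit 264584358⟩, ⟨nat_lit 13, nat_lit 35, nat_lit 79, nat_lit 100, nat_lit 209493254⟩, ⟨nat_lit 3, nat_lit 100, nat_lit 39, nat_lit 72, nat_lit 192437091⟩, ⟨nat_lit 22, nat_lit 75, nat_lit 100, nat_lit 71, nat_lit 12170781⟩]⟩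
noncomputable def p123_l124 : Lf2 := ⟨nat_lit 0, nat_lit 25, [nat_lit 44, nat_lit 5, nat_lit 5, nat_lit 20], false, nat_lit 20, nat_lit 80, nat_lit 0, nat_lit 260, ⟨nat_lit 806, nat_lit 194, nat_lit 0, nat_lit 8, nat_lit 324, nat_lit 194, nat_lit 49, nat_lit 0, nat_lit 0, nat_lit 0, nat_lit 0, nat_lit 0, nat_lit 39515908, nat_lit 26103329, nat_lit 1380763, nat_lit 3912246, true, true⟩,
 nat_lit 0, nat_lit 0, nat_lit 8633, nat_lit 0, nat_lit 3038, nat_lit 5733, nat_lit 378, nat_lit 0, nat_lit 0, nat_lit 591, nat_lit 0, nat_lit 0, nat_lit 0, nat_lit 0, nat_lit 0, nat_lit 77600, nat_lit 0, nat_lit 0, [(nat_lit 29, [(nat_lit 1, nat_lit 194)])],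
 ⟨p123_k35, nat_lit 0, nat_lit 0, nat_lit 159, nat_lit 0, nat_lit 0, [nat_lit 891517600, nat_lit 2709700001, nat_lit 5055736000], [], [nat_lit 27882200972, nat_lit 28554069210, nat_lit 30470400663, nat_lit 31062100720, nat_lit 26443060177, nat_lit 26933315052, nat_lit 28802714856, nat_lit 29377171801], nat_lit 0, nat_lit 0, nat_lit 0, nat_lit 0, nat_lit 0, nat_lit 0, [], [nat_lit 20, nat_lit 40, nat_lit 40, nat_lit 80, nat_lit 16, nat_lit 226, nat_lit 20, nat_lit 7]⟩, ⟨p123_k31, nat_lit 0, nat_lit 0, nat_lit 604, nat_lit 0, nat_lit 834205, [nat_lit 2645292000, nat_lit 5037500000, nat_lit 9568832000], [], [nat_lit 28269065557, nat_lit 28499181144, nat_lit 29883563673, nat_lit 30226775347, nat_lit 24249844527, nat_lit 24366765435, nat_lit 25310139901, nat_lit 25460358479], nat_lit 1271250, nat_lit 1271250, nat_lit 1271250, nat_lit 1271250, nat_lit 0, nat_lit 1836250, [nat_lit 780000, nat_lit 1435000, nat_lit 1271250],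 [nat_lit 23, nat_lit 40, nat_lit 40, nat_lit 80, nat_lit 12, nat_lit 373, nat_lit 150, nat_lit 9]⟩,
 ⟨nat_lit 1581, nat_lit 2237, ⟨.ofNat (nat_lit 773529), .ofNat (nat_lit 841948), .ofNat (nat_lit 784917), .ofNat (nat_lit 853335), .ofNat (nat_lit 768823), .ofNat (nat_lit 834386), .ofNat (nat_lit 780481), .ofNat (nat_lit 846044)⟩, ⟨.ofNat (nat_lit 50000), .ofNat (nat_lit 192306), .ofNat (nat_lit 50000), .ofNat (nat_lit 200000), .ofNat (nat_lit 50000), .ofNat (nat_lit 196201), .ofNat (nat_lit 50000), .ofNat (nat_lit 200000)⟩⟩, [⟨nat_lit 22, nat_lit 83, nat_lit 100, nat_lit 83, nat_lit 66985255⟩]⟩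
noncomputable def p123_l125 : Lf2 := ⟨nat_lit 0, nat_lit 25, [nat_lit 44, nat_lit 5, nat_lit 5, nat_lit 20], false, nat_lit 36, nat_lit 80, nat_lit 0, nat_lit 260, ⟨nat_lit 243, nat_lit 757, nat_lit 0, nat_lit 8, nat_lit 317, nat_lit 757, nat_lit 58, nat_lit 0, nat_lit 0, nat_lit 0, nat_lit 0, nat_lit 0, nat_lit 39942098, nat_lit 25296769, nat_lit 1761133, nat_lit 3999706, true, true⟩,
 nat_lit 0, nat_lit 0, nat_lit 2696, nat_lit 0, nat_lit 2426, nat_lit 1790, nat_lit 140, nat_lit 0, nat_lit 0, nat_lit 172, nat_lit 0, nat_lit 0, nat_lit 0, nat_lit 0, nat_lit 0, nat_lit 189250, nat_lit 0, nat_lit 0, [(nat_lit 29, [(nat_lit 0, nat_lit 757)])],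
 ⟨p123_k45, nat_lit 0, nat_lit 0, nat_lit 135, nat_lit 0, nat_lit 0, [nat_lit 819605201, nat_lit 1589348000, nat_lit 2181118800], [], [nat_lit 27087157117, nat_lit 27586970982, nat_lit 28376406788, nat_lit 28843468362, nat_lit 26725808370, nat_lit 27210451951, nat_lit 27981363636, nat_lit 28435250735], nat_lit 0, nat_lit 0, nat_lit 0, nat_lit 0, nat_lit 0, nat_lit 0, [], [nat_lit 35, nat_lit 40, nat_lit 40, nat_lit 80, nat_lit 22, nat_lit 226, nat_lit 20, nat_lit 8]⟩, ⟨p123_k31, nat_lit 0, nat_lit 0, nat_lit 677, nat_lit 0, nat_lit 979947, [nat_lit 797526000, nat_lit 1518750000, nat_lit 2884896000], [], [nat_lit 8613509434, nat_lit 8683378676, nat_lit 8914353238, nat_lit 8975701867, nat_lit 7335952282, nat_lit 7373084176, nat_lit 7502467627, nat_lit 7534833273], nat_lit 1271250, nat_lit 1271250, nat_lit 1271250, nat_lit 1271250, nat_lit 0, nat_lit 1836250, [nat_lit 780000, nat_lit 1435000, nat_lit 1271250], [nat_lit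 23, nat_lit 40, nat_lit 40, nat_lit 80, nat_lit 12, nat_lit 373, nat_lit 150, nat_lit 9]⟩,
 ⟨nat_lit 0, nat_lit 1582, ⟨.ofNat (nat_lit 768823), .ofNat (nat_lit 812530), .ofNat (nat_lit 780481), .ofNat (nat_lit 824188), .ofNat (nat_lit 762499), .ofNat (nat_lit 802497), .ofNat (nat_lit 774999), .ofNat (nat_lit 814997)⟩, ⟨.ofNat (nat_lit 90000), .ofNat (nat_lit 196201), .ofNat (nat_lit 90000), .ofNat (nat_lit 200000), .ofNat (nat_lit 90000), .ofNat (nat_lit 199999), .ofNat (nat_lit 90000), .ofNat (nat_lit 200000)⟩⟩, [⟨nat_lit 13, nat_lit 25, nat_lit 86, nat_lit 100, nat_lit 452282352⟩, ⟨nat_lit 3, nat_lit 100, nat_lit 27, nat_lit 83, nat_lit 206235667⟩, ⟨nat_lit 22, nat_lit 73, nat_lit 100, nat_lit 70, nat_lit 26636692⟩]⟩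
noncomputable def p123_l126 : Lf2 := ⟨nat_lit 0, nat_lit 30, [nat_lit 15, nat_lit 5, nat_lit 5, nat_lit 20], false, nat_lit 32, nat_lit 80, nat_lit 0, nat_lit 260, ⟨nat_lit 1000, nat_lit 0, nat_lit 0, nat_lit 0, nat_lit 0, nat_lit 0, nat_lit 0, nat_lit 0, nat_lit 0, nat_lit 0, nat_lit 0, nat_lit 0, nat_lit 0, nat_lit 0, nat_lit 0, nat_lit 0, false, false⟩,
 nat_lit 0, nat_lit 0, nat_lit 11907, nat_lit 0, nat_lit 2861, nat_lit 7577, nat_lit 590, nat_lit 0, nat_lit 0, nat_lit 768, nat_lit 0, nat_lit 0, nat_lit 0, nat_lit 0, nat_lit 0, nat_lit 0, nat_lit 0, nat_lit 0, [],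
 ⟨p123_k36, nat_lit 0, nat_lit 0, nat_lit 169, nat_lit 0, nat_lit 0, [nat_lit 938000000, nat_lit 3282000000, nat_lit 7968000000], [], [nat_lit 27177710130, nat_lit 27827553695, nat_lit 29694530901, nat_lit 30268413873, nat_lit 26185237406, nat_lit 26645372210, nat_lit 28473492732, nat_lit 29033980908], nat_lit 0, nat_lit 0, nat_lit 0, nat_lit 0, nat_lit 0, nat_lit 0, [], [nat_lit 54, nat_lit 40, nat_lit 40, nat_lit 80, nat_lit 43, nat_lit 226, nat_lit 20, nat_lit 6]⟩, ⟨p123_k30, nat_lit 0, nat_lit 0, nat_lit 607, nat_lit 0, nat_lit 716601, [nat_lit 3282000000, nat_lit 6250000000, nat_lit 14058000000], [], [nat_lit 36411243500, nat_lit 37314639412, nat_lit 39370599086, nat_lit 40112575776, nat_lit 30915771994, nat_lit 31153821476, nat_lit 32338194979, nat_lit 32829256101], nat_lit 1271250, nat_lit 1271250, nat_lit 1271250, nat_lit 1271250, nat_lit 0, nat_lit 1836250, [nat_lit 780000, nat_lit 1435000, nat_lit 1271250],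 [nat_lit 71, nat_lit 40, nat_lit 40, nat_lit 80, nat_lit 68, nat_lit 483, nat_lit 250, nat_lit 11]⟩,
 zbF0, [⟨nat_lit 22, nat_lit 83, nat_lit 100, nat_lit 83, nat_lit 44717185⟩]⟩
noncomputable def p123_l127 : Lf2 := ⟨nat_lit 0, nat_lit 30, [nat_lit 15, nat_lit 5, nat_lit 5, nat_lit 20], false, nat_lit 48, nat_lit 80, nat_lit 0, nat_lit 260, ⟨nat_lit 322, nat_lit 678, nat_lit 0, nat_lit 8, nat_lit 310, nat_lit 678, nat_lit 64, nat_lit 0, nat_lit 0, nat_lit 0, nat_lit 0, nat_lit 0, nat_lit 40396419, nat_lit 24535136, nat_lit 2068445, nat_lit 4058369, true, true⟩,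
 nat_lit 0, nat_lit 0, nat_lit 3897, nat_lit 0, nat_lit 2452, nat_lit 2479, nat_lit 222, nat_lit 0, nat_lit 0, nat_lit 249, nat_lit 0, nat_lit 0, nat_lit 0, nat_lit 0, nat_lit 0, nat_lit 205500, nat_lit 0, nat_lit 0, [(nat_lit 29, [(nat_lit 0, nat_lit 438), (nat_lit 1, nat_lit 240)])],
 ⟨p123_k38, nat_lit 0, nat_lit 0, nat_lit 141, nat_lit 0, nat_lit 0, [nat_lit 811992800, nat_lit 1594632000, nat_lit 2817503200], [], [nat_lit 26712503194, nat_lit 27195804461, nat_lit 27726270493, nat_lit 28296356872, nat_lit 26439470518, nat_lit 26906236832, nat_lit 27405010120, nat_lit 27914530420], nat_lit 0, nat_lit 0, nat_lit 0, nat_lit 0, nat_lit 0, nat_lit 0, [], [nat_lit 20, nat_lit 40, nat_lit 40, nat_lit 80, nat_lit 16, nat_lit 226, nat_lit 20, nat_lit 7]⟩, ⟨p123_k30, nat_lit 0, nat_lit 0, nat_lit 637, nat_lit 0, nat_lit 810236, [nat_lit 1056804000, nat_lit 2012500000, nat_lit 4526676000], [], [nat_lit 11737279658, nat_lit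 11883684124, nat_lit 12208416655, nat_lit 12341676496, nat_lit 9773096588, nat_lit 9810491159, nat_lit 10034371164, nat_lit 10122672618], nat_lit 1271250, nat_lit 1271250, nat_lit 1271250, nat_lit 1271250, nat_lit 0, nat_lit 1836250, [nat_lit 780000, nat_lit 1435000, nat_lit 1271250], [nat_lit 71, nat_lit 40, nat_lit 40, nat_lit 80, nat_lit 68, nat_lit 456, nat_lit 225, nat_lit 10]⟩,
 ⟨nat_lit 0, nat_lit 1582, ⟨.ofNat (nat_lit 757165), .ofNat (nat_lit 789945), .ofNat (nat_lit 768823), .ofNat (nat_lit 801603), .ofNat (nat_lit 749998), .ofNat (nat_lit 779997), .ofNat (nat_lit 762499), .ofNat (nat_lit 792497)⟩, ⟨.ofNat (nat_lit 120000), .ofNat (nat_lit 200000), .ofNat (nat_lit 120000), .ofNat (nat_lit 200000), .ofNat (nat_lit 120000), .ofNat (nat_lit 200000), .ofNat (nat_lit 120000), .ofNat (nat_lit 200000)⟩⟩, [⟨nat_lit 13, nat_lit 25, nat_lit 87, nat_lit 100, nat_lit 673509589⟩, ⟨nat_lit 3, nat_lit 100, nat_lit 25, nat_lit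 86, nat_lit 203184924⟩, ⟨nat_lit 22, nat_lit 76, nat_lit 100, nat_lit 74, nat_lit 21914523⟩]⟩
noncomputable def p123_l128 : Lf2 := ⟨nat_lit 0, nat_lit 30, [nat_lit 15, nat_lit 5, nat_lit 5, nat_lit 20], false, nat_lit 48, nat_lit 80, nat_lit 0, nat_lit 260, ⟨nat_lit 1000, nat_lit 0, nat_lit 0, nat_lit 0, nat_lit 0, nat_lit 0, nat_lit 0, nat_lit 0, nat_lit 0, nat_lit 0, nat_lit 0, nat_lit 0, nat_lit 0, nat_lit 0, nat_lit 0, nat_lit 0, false, false⟩,
 nat_lit 0, nat_lit 0, nat_lit 10577, nat_lit 0, nat_lit 2836, nat_lit 7024, nat_lit 453, nat_lit 0, nat_lit 0, nat_lit 790, nat_lit 0, nat_lit 0, nat_lit 0, nat_lit 0, nat_lit 0, nat_lit 0, nat_lit 0, nat_lit 0, [],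
 ⟨p123_k38, nat_lit 0, nat_lit 0, nat_lit 142, nat_lit 0, nat_lit 0, [nat_lit 938000000, nat_lit 3282000000, nat_lit 6250000000], [], [nat_lit 27381223732, nat_lit 28022931632, nat_lit 28972778002, nat_lit 29564797481, nat_lit 26744406949, nat_lit 27234378176, nat_lit 28172173917, nat_lit 28754511472], nat_lit 0, nat_lit 0, nat_lit 0, nat_lit 0, nat_lit 0, nat_lit 0, [], [nat_lit 20, nat_lit 40, nat_lit 40, nat_lit 80, nat_lit 16, nat_lit 226, nat_lit 20, nat_lit 7]⟩, ⟨p123_k39, nat_lit 0, nat_lit 0, nat_lit 637, nat_lit 0, nat_lit 815825, [nat_lit 3282000000, nat_lit 6250000000, nat_lit 14058000000], [], [nat_lit 35553826022, nat_lit 35992015294, nat_lit 37363075552, nat_lit 37750850815, nat_lit 30250498088, nat_lit 30372106798, nat_lit 31333896122, nat_lit 31595254658], nat_lit 1271250, nat_lit 1271250, nat_lit 1271250, nat_lit 1271250, nat_lit 0, nat_lit 1836250, [nat_lit 780000, nat_lit 1435000, nat_lit 1271250],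 [nat_lit 71, nat_lit 40, nat_lit 40, nat_lit 80, nat_lit 68, nat_lit 483, nat_lit 250, nat_lit 11]⟩,
 zbF0, [⟨nat_lit 13, nat_lit 25, nat_lit 86, nat_lit 100, nat_lit 2233742678⟩, ⟨nat_lit 22, nat_lit 83, nat_lit 100, nat_lit 83, nat_lit 91114319⟩]⟩
noncomputable def b_V_900_700_20_30 : St := ⟨true, nat_lit 0, nat_lit 1, nat_lit 1, nat_lit 120, nat_lit 380, nat_lit 400, nat_lit 280, nat_lit 300, nat_lit 240, nat_lit 380, nat_lit 80, nat_lit 120, nat_lit 20, nat_lit 80, nat_lit 0, nat_lit 336, nat_lit 80, nat_lit 120, nat_lit 0, nat_lit 0, nat_lit 0, nat_lit 0⟩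
theorem d_V_900_700_20_30 (h : EB TB.env) : Dead b_V_900_700_20_30 := chkB_sound0 h (T :=
(.trX (nat_lit 13) (nat_lit 50) (nat_lit 65) (nat_lit 100) (nat_lit 368) (.spl (nat_lit 2) (nat_lit 320)
(.spl (nat_lit 3) (nat_lit 100)
(.trX (nat_lit 19) (nat_lit 100) (nat_lit 88) (nat_lit 94) (nat_lit 320) (.spl (nat_lit 2) (nat_lit 280)
(.spl (nat_lit 1) (nat_lit 290)
(.leaf p123_l106)
(.trX (nat_lit 19) (nat_lit 100) (nat_lit 94) (nat_lit 97) (nat_lit 312) (.leaf p123_l107)))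
(.trX (nat_lit 22) (nat_lit 100) (nat_lit 95) (nat_lit 87) (nat_lit 300) (.spl (nat_lit 0) (nat_lit 390)
(.spl (nat_lit 5) (nat_lit 160)
(.leaf p123_l108)
(.leaf p123_l109))
(.trZ (nat_lit 3) (nat_lit 100) (nat_lit 39) (nat_lit 72) (nat_lit 36) (.spl (nat_lit 1) (nat_lit 290)
(.leaf p123_l110)
(.leaf p123_l111)))))))
(.trZ (nat_lit 3) (nat_lit 100) (nat_lit 50) (nat_lit 65) (nat_lit 32) (.spl (nat_lit 0) (nat_lit 390)
(.spl (nat_lit 5) (nat_lit 160)
(.leaf p123_l112)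
(.spl (nat_lit 0) (nat_lit 385)
(.spl (nat_lit 1) (nat_lit 290)
(.leaf p123_l113)
(.trX (nat_lit 19) (nat_lit 97) (nat_lit 84) (nat_lit 100) (nat_lit 328) (.leaf p123_l114)))
(.trZ (nat_lit 3) (nat_lit 100) (nat_lit 44) (nat_lit 71) (nat_lit 40) (.spl (nat_lit 0) (nat_lit 388)
(.leaf p123_l115)
(.trZ (nat_lit 3) (nat_lit 100) (nat_lit 39) (nat_lit 74) (nat_lit 44) (.leaf p123_l116))))))
(.trZ (nat_lit 3) (nat_lit 100) (nat_lit 36) (nat_lit 77) (nat_lit 48) (.spl (nat_lit 5) (nat_lit 160)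
(.leaf p123_l117)
(.spl (nat_lit 1) (nat_lit 290)
(.spl (nat_lit 0) (nat_lit 395)
(.leaf p123_l118)
(.trZ (nat_lit 3) (nat_lit 100) (nat_lit 26) (nat_lit 85) (nat_lit 64) (.leaf p123_l119)))
(.trX (nat_lit 19) (nat_lit 97) (nat_lit 84) (nat_lit 100) (nat_lit 328) (.spl (nat_lit 0) (nat_lit 395)
(.leaf p123_l120)
(.trZ (nat_lit 0) (nat_lit 92) (nat_lit 23) (nat_lit 100) (nat_lit 248) (.trZ (nat_lit 3) (nat_lit 100) (nat_lit 26) (nat_lit 85) (nat_lit 64) (.leaf p123_l121)))))))))))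
(.trX (nat_lit 22) (nat_lit 83) (nat_lit 100) (nat_lit 83) (nat_lit 260) (.spl (nat_lit 3) (nat_lit 100)
(.spl (nat_lit 1) (nat_lit 290)
(.trX (nat_lit 13) (nat_lit 49) (nat_lit 68) (nat_lit 100) (nat_lit 360) (.spl (nat_lit 0) (nat_lit 390)
(.leaf p123_l122)
(.trX (nat_lit 13) (nat_lit 35) (nat_lit 79) (nat_lit 100) (nat_lit 344) (.trZ (nat_lit 3) (nat_lit 100) (nat_lit 39) (nat_lit 72) (nat_lit 36) (.leaf p123_l123)))))
(.spl (nat_lit 0) (nat_lit 390)
(.leaf p123_l124)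
(.trX (nat_lit 13) (nat_lit 36) (nat_lit 77) (nat_lit 100) (nat_lit 352) (.trZ (nat_lit 3) (nat_lit 100) (nat_lit 39) (nat_lit 72) (nat_lit 36) (.leaf p123_l125)))))
(.trZ (nat_lit 3) (nat_lit 100) (nat_lit 50) (nat_lit 65) (nat_lit 32) (.spl (nat_lit 0) (nat_lit 390)
(.leaf p123_l126)
(.trX (nat_lit 13) (nat_lit 36) (nat_lit 77) (nat_lit 100) (nat_lit 352) (.trZ (nat_lit 3) (nat_lit 100) (nat_lit 36) (nat_lit 77) (nat_lit 48) (.spl (nat_lit 1) (nat_lit 290)
(.trX (nat_lit 13) (nat_lit 35) (nat_lit 79) (nat_lit 100) (nat_lit 344) (.leaf p123_l127))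
(.leaf p123_l128))))))))))) (by decide +kernel)
noncomputable def p123_l129 : Lf2 := ⟨nat_lit 0, nat_lit 25, [nat_lit 44, nat_lit 5, nat_lit 5, nat_lit 20], false, nat_lit 20, nat_lit 80, nat_lit 0, nat_lit 300, ⟨nat_lit 394, nat_lit 606, nat_lit 0, nat_lit 7, nat_lit 295, nat_lit 606, nat_lit 49, nat_lit 0, nat_lit 0, nat_lit 0, nat_lit 0, nat_lit 0, nat_lit 42298486, nat_lit 23262120, nat_lit 1439394, nat_lit 3821819, true, false⟩,
 nat_lit 0, nat_lit 0, nat_lit 3811, nat_lit 0, nat_lit 2586, nat_lit 2638, nat_lit 195, nat_lit 0, nat_lit 0, nat_lit 323, nat_lit 0, nat_lit 0, nat_lit 0, nat_lit 0, nat_lit 0, nat_lit 242400, nat_lit 0, nat_lit 0, [(nat_lit 29, [(nat_lit 1, nat_lit 606)])],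
 ⟨p123_k35, nat_lit 0, nat_lit 0, nat_lit 147, nat_lit 0, nat_lit 0, [nat_lit 792802400, nat_lit 1494300000, nat_lit 2519464000], [], [nat_lit 24000037525, nat_lit 24530206044, nat_lit 26828410884, nat_lit 27454897870, nat_lit 23586946150, nat_lit 24092463878, nat_lit 26206290119, nat_lit 26677138399], nat_lit 0, nat_lit 0, nat_lit 0, nat_lit 0, nat_lit 0, nat_lit 0, [], [nat_lit 20, nat_lit 40, nat_lit 40, nat_lit 80, nat_lit 16, nat_lit 226, nat_lit 20, nat_lit 7]⟩, ⟨p123_k42, nat_lit 0, nat_lit 0, nat_lit 664, nat_lit 0, nat_lit 909170, [nat_lit 1293108000, nat_lit 2462500000, nat_lit 4677568000], [], [nat_lit 11840338230, nat_lit 12072909278, nat_lit 12857358015, nat_lit 13250587003, nat_lit 10945247194, nat_lit 11088146608, nat_lit 11541233018, nat_lit 11780638028], nat_lit 1271250, nat_lit 1271250, nat_lit 1271250, nat_lit 1271250, nat_lit 0, nat_lit 2118750, [nat_lit 780000, nat_lit 1435000, nat_lit 1271250],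 [nat_lit 23, nat_lit 40, nat_lit 40, nat_lit 80, nat_lit 12, nat_lit 483, nat_lit 250, nat_lit 12]⟩,
 ⟨nat_lit 1581, nat_lit 2237, ⟨.ofNat (nat_lit 670745), .ofNat (nat_lit 784917), .ofNat (nat_lit 693473), .ofNat (nat_lit 807675), .ofNat (nat_lit 671069), .ofNat (nat_lit 780481), .ofNat (nat_lit 694338), .ofNat (nat_lit 803781)⟩, ⟨.ofNat (nat_lit 50000), .ofNat (nat_lit 192306), .ofNat (nat_lit 50000), .ofNat (nat_lit 200000), .ofNat (nat_lit 50000), .ofNat (nat_lit 196201), .ofNat (nat_lit 50000), .ofNat (nat_lit 200000)⟩⟩, [⟨nat_lit 7, nat_lit 100, nat_lit 91, nat_lit 91, nat_lit 21910269⟩, ⟨nat_lit 22, nat_lit 96, nat_lit 100, nat_lit 69, nat_lit 43074211⟩]⟩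
noncomputable def p123_l130 : Lf2 := ⟨nat_lit 0, nat_lit 25, [nat_lit 44, nat_lit 5, nat_lit 5, nat_lit 20], false, nat_lit 36, nat_lit 80, nat_lit 0, nat_lit 300, ⟨nat_lit 277, nat_lit 723, nat_lit 0, nat_lit 7, nat_lit 295, nat_lit 723, nat_lit 58, nat_lit 0, nat_lit 0, nat_lit 0, nat_lit 0, nat_lit 0, nat_lit 42098778, nat_lit 23082744, nat_lit 1818478, nat_lit 3927381, true, false⟩,
 nat_lit 0, nat_lit 0, nat_lit 2685, nat_lit 0, nat_lit 2850, nat_lit 1858, nat_lit 99, nat_lit 0, nat_lit 0, nat_lit 227, nat_lit 0, nat_lit 0, nat_lit 0, nat_lit 0, nat_lit 0, nat_lit 180750, nat_lit 0, nat_lit 0, [(nat_lit 29, [(nat_lit 0, nat_lit 723)])],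
 ⟨p123_k45, nat_lit 0, nat_lit 0, nat_lit 128, nat_lit 0, nat_lit 0, [nat_lit 824922800, nat_lit 1665372001, nat_lit 2293713200], [], [nat_lit 24672033509, nat_lit 25247416636, nat_lit 27704433391, nat_lit 28351766200, nat_lit 24261791176, nat_lit 24818072226, nat_lit 26934570726, nat_lit 27413490626], nat_lit 0, nat_lit 0, nat_lit 0, nat_lit 0, nat_lit 0, nat_lit 0, [], [nat_lit 35, nat_lit 40, nat_lit 40, nat_lit 80, nat_lit 22, nat_lit 226, nat_lit 20, nat_lit 9]⟩, ⟨p123_k42, nat_lit 0, nat_lit 0, nat_lit 709, nat_lit 0, nat_lit 1039114, [nat_lit 909114000, nat_lit 1731250000, nat_lit 3288544000], [], [nat_lit 8552503757, nat_lit 8676168383, nat_lit 9042729969, nat_lit 9319409563, nat_lit 7953879147, nat_lit 8037994568, nat_lit 8204299377, nat_lit 8284864760], nat_lit 1271250, nat_lit 1271250, nat_lit 1271250, nat_lit 1271250, nat_lit 0, nat_lit 2118750, [nat_lit 780000, nat_lit 1435000, nat_lit 1271250], [nat_lit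 23, nat_lit 40, nat_lit 40, nat_lit 80, nat_lit 12, nat_lit 483, nat_lit 250, nat_lit 12]⟩,
 ⟨nat_lit 0, nat_lit 1582, ⟨.ofNat (nat_lit 669237), .ofNat (nat_lit 780481), .ofNat (nat_lit 691895), .ofNat (nat_lit 803773), .ofNat (nat_lit 673026), .ofNat (nat_lit 774999), .ofNat (nat_lit 697369), .ofNat (nat_lit 799976)⟩, ⟨.ofNat (nat_lit 90000), .ofNat (nat_lit 196201), .ofNat (nat_lit 90000), .ofNat (nat_lit 200000), .ofNat (nat_lit 90000), .ofNat (nat_lit 199999), .ofNat (nat_lit 90000), .ofNat (nat_lit 200000)⟩⟩, [⟨nat_lit 3, nat_lit 100, nat_lit 27, nat_lit 83, nat_lit 361101528⟩, ⟨nat_lit 22, nat_lit 98, nat_lit 100, nat_lit 76, nat_lit 43946714⟩]⟩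
noncomputable def p123_l131 : Lf2 := ⟨nat_lit 0, nat_lit 30, [nat_lit 15, nat_lit 5, nat_lit 5, nat_lit 20], false, nat_lit 32, nat_lit 80, nat_lit 0, nat_lit 320, ⟨nat_lit 969, nat_lit 31, nat_lit 0, nat_lit 7, nat_lit 295, nat_lit 31, nat_lit 56, nat_lit 0, nat_lit 0, nat_lit 0, nat_lit 0, nat_lit 0, nat_lit 42083492, nat_lit 23183694, nat_lit 1732814, nat_lit 3907037, true, false⟩,
 nat_lit 0, nat_lit 0, nat_lit 9092, nat_lit 0, nat_lit 2925, nat_lit 6294, nat_lit 602, nat_lit 0, nat_lit 0, nat_lit 782, nat_lit 0, nat_lit 0, nat_lit 0, nat_lit 0, nat_lit 0, nat_lit 12400, nat_lit 0, nat_lit 0, [(nat_lit 29, [(nat_lit 1, nat_lit 31)])],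
 ⟨p123_k36, nat_lit 0, nat_lit 0, nat_lit 159, nat_lit 0, nat_lit 0, [nat_lit 930572400, nat_lit 3190550000, nat_lit 7722690800], [], [nat_lit 23768964511, nat_lit 24553964496, nat_lit 27316822680, nat_lit 27973041491, nat_lit 22818325650, nat_lit 23377367600, nat_lit 26109099600, nat_lit 26748101950], nat_lit 0, nat_lit 0, nat_lit 0, nat_lit 0, nat_lit 0, nat_lit 0, [], [nat_lit 54, nat_lit 40, nat_lit 40, nat_lit 80, nat_lit 43, nat_lit 226, nat_lit 20, nat_lit 6]⟩, ⟨p123_k41, nat_lit 0, nat_lit 0, nat_lit 570, nat_lit 0, nat_lit 756256, [nat_lit 3180258000, nat_lit 6056250000, nat_lit 11503968000], [], [nat_lit 29898496698, nat_lit 30466068420, nat_lit 31614142476, nat_lit 32568477774, nat_lit 28136812452, nat_lit 28515627960, nat_lit 29352167832, nat_lit 29694985614], nat_lit 1271250, nat_lit 1271250, nat_lit 1271250, nat_lit 1271250, nat_lit 0, nat_lit 2260000, [nat_lit 780000, nat_lit 1435000, nat_lit 1271250],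 [nat_lit 23, nat_lit 40, nat_lit 40, nat_lit 80, nat_lit 12, nat_lit 483, nat_lit 250, nat_lit 12]⟩,
 ⟨nat_lit 1581, nat_lit 2237, ⟨.ofNat (nat_lit 670745), .ofNat (nat_lit 784917), .ofNat (nat_lit 693473), .ofNat (nat_lit 807675), .ofNat (nat_lit 671069), .ofNat (nat_lit 780481), .ofNat (nat_lit 694338), .ofNat (nat_lit 803781)⟩, ⟨.ofNat (nat_lit 80000), .ofNat (nat_lit 200000), .ofNat (nat_lit 80000), .ofNat (nat_lit 200000), .ofNat (nat_lit 80000), .ofNat (nat_lit 200000), .ofNat (nat_lit 80000), .ofNat (nat_lit 200000)⟩⟩, [⟨nat_lit 0, nat_lit 84, nat_lit 33, nat_lit 100, nat_lit 394782022⟩, ⟨nat_lit 19, nat_lit 94, nat_lit 97, nat_lit 100, nat_lit 143498126⟩]⟩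
noncomputable def p123_l132 : Lf2 := ⟨nat_lit 0, nat_lit 30, [nat_lit 15, nat_lit 5, nat_lit 5, nat_lit 20], false, nat_lit 48, nat_lit 80, nat_lit 0, nat_lit 320, ⟨nat_lit 514, nat_lit 486, nat_lit 0, nat_lit 7, nat_lit 295, nat_lit 486, nat_lit 64, nat_lit 0, nat_lit 0, nat_lit 0, nat_lit 0, nat_lit 0, nat_lit 41851821, nat_lit 23034776, nat_lit 2113403, nat_lit 4008053, true, false⟩,
 nat_lit 0, nat_lit 0, nat_lit 4818, nat_lit 0, nat_lit 2467, nat_lit 3335, nat_lit 310, nat_lit 0, nat_lit 0, nat_lit 415, nat_lit 0, nat_lit 0, nat_lit 0, nat_lit 0, nat_lit 0, nat_lit 121500, nat_lit 0, nat_lit 0, [(nat_lit 29, [(nat_lit 0, nat_lit 486)])],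
 ⟨p123_k38, nat_lit 0, nat_lit 0, nat_lit 133, nat_lit 0, nat_lit 0, [nat_lit 861989600, nat_lit 2195304000, nat_lit 4080690400], [], [nat_lit 23982277967, nat_lit 24262868988, nat_lit 26688441468, nat_lit 26929931134, nat_lit 23703582693, nat_lit 23977793982, nat_lit 26366422283, nat_lit 26602900927], nat_lit 0, nat_lit 0, nat_lit 0, nat_lit 0, nat_lit 0, nat_lit 0, [], [nat_lit 20, nat_lit 40, nat_lit 40, nat_lit 80, nat_lit 16, nat_lit 226, nat_lit 20, nat_lit 7]⟩, ⟨p123_k41, nat_lit 0, nat_lit 0, nat_lit 617, nat_lit 0, nat_lit 819274, [nat_lit 1686948000, nat_lit 3212500000, nat_lit 6102208000], [], [nat_lit 15866883276, nat_lit 16167865942, nat_lit 16775912250, nat_lit 17270699055, nat_lit 14940531542, nat_lit 15140664392, nat_lit 15582654822, nat_lit 15762900356], nat_lit 1271250, nat_lit 1271250, nat_lit 1271250, nat_lit 1271250, nat_lit 0, nat_lit 2260000, [nat_lit 780000, nat_lit 1435000, nat_lit 1271250],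 [nat_lit 23, nat_lit 40, nat_lit 40, nat_lit 80, nat_lit 12, nat_lit 483, nat_lit 250, nat_lit 12]⟩,
 ⟨nat_lit 1118, nat_lit 1582, ⟨.ofNat (nat_lit 671111), .ofNat (nat_lit 780481), .ofNat (nat_lit 694394), .ofNat (nat_lit 803793), .ofNat (nat_lit 671782), .ofNat (nat_lit 778134), .ofNat (nat_lit 695501), .ofNat (nat_lit 801882)⟩, ⟨.ofNat (nat_lit 120000), .ofNat (nat_lit 200000), .ofNat (nat_lit 120000), .ofNat (nat_lit 200000), .ofNat (nat_lit 120000), .ofNat (nat_lit 200000), .ofNat (nat_lit 120000), .ofNat (nat_lit 200000)⟩⟩, [⟨nat_lit 0, nat_lit 88, nat_lit 24, nat_lit 100, nat_lit 250566881⟩, ⟨nat_lit 19, nat_lit 94, nat_lit 97, nat_lit 100, nat_lit 51496196⟩, ⟨nat_lit 22, nat_lit 100, nat_lit 100, nat_lit 80, nat_lit 28850724⟩]⟩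
noncomputable def p123_l133 : Lf2 := ⟨nat_lit 0, nat_lit 30, [nat_lit 15, nat_lit 5, nat_lit 5, nat_lit 20], false, nat_lit 64, nat_lit 80, nat_lit 0, nat_lit 320, ⟨nat_lit 457, nat_lit 543, nat_lit 0, nat_lit 7, nat_lit 299, nat_lit 543, nat_lit 72, nat_lit 0, nat_lit 0, nat_lit 0, nat_lit 0, nat_lit 0, nat_lit 41189915, nat_lit 23308241, nat_lit 2501844, nat_lit 4122982, true, false⟩,
 nat_lit 0, nat_lit 0, nat_lit 4248, nat_lit 0, nat_lit 2579, nat_lit 2940, nat_lit 250, nat_lit 0, nat_lit 0, nat_lit 343, nat_lit 0, nat_lit 0, nat_lit 0, nat_lit 0, nat_lit 0, nat_lit 135750, nat_lit 0, nat_lit 0, [(nat_lit 29, [(nat_lit 0, nat_lit 543)])],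
 ⟨p123_k47, nat_lit 0, nat_lit 0, nat_lit 126, nat_lit 0, nat_lit 0, [nat_lit 853074801, nat_lit 2067852001, nat_lit 3826265200], [], [nat_lit 24569741782, nat_lit 24844303931, nat_lit 26821659817, nat_lit 27127160757, nat_lit 24406232825, nat_lit 24677664430, nat_lit 26555283733, nat_lit 26795596192], nat_lit 0, nat_lit 0, nat_lit 0, nat_lit 0, nat_lit 0, nat_lit 0, [], [nat_lit 20, nat_lit 40, nat_lit 40, nat_lit 80, nat_lit 16, nat_lit 226, nat_lit 20, nat_lit 7]⟩, ⟨p123_k41, nat_lit 0, nat_lit 0, nat_lit 653, nat_lit 0, nat_lit 883629, [nat_lit 1499874000, nat_lit 2856250000, nat_lit 5425504000], [], [nat_lit 14758168813, nat_lit 15014596328, nat_lit 15424235670, nat_lit 15637190270, nat_lit 13803130388, nat_lit 13951130369, nat_lit 14172590514, nat_lit 14313392628], nat_lit 1271250, nat_lit 1271250, nat_lit 1271250, nat_lit 1271250, nat_lit 0, nat_lit 2260000, [nat_lit 780000, nat_lit 1435000, nat_lit 1271250],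 [nat_lit 23, nat_lit 40, nat_lit 40, nat_lit 80, nat_lit 12, nat_lit 483, nat_lit 250, nat_lit 12]⟩,
 ⟨nat_lit 0, nat_lit 1119, ⟨.ofNat (nat_lit 692107), .ofNat (nat_lit 778134), .ofNat (nat_lit 715394), .ofNat (nat_lit 801880), .ofNat (nat_lit 693975), .ofNat (nat_lit 774999), .ofNat (nat_lit 718510), .ofNat (nat_lit 799994)⟩, ⟨.ofNat (nat_lit 160000), .ofNat (nat_lit 200000), .ofNat (nat_lit 160000), .ofNat (nat_lit 200000), .ofNat (nat_lit 160000), .ofNat (nat_lit 200000), .ofNat (nat_lit 160000), .ofNat (nat_lit 200000)⟩⟩, [⟨nat_lit 0, nat_lit 92, nat_lit 17, nat_lit 100, nat_lit 479305525⟩, ⟨nat_lit 3, nat_lit 100, nat_lit 18, nat_lit 91, nat_lit 192907701⟩, ⟨nat_lit 22, nat_lit 98, nat_lit 100, nat_lit 84, nat_lit 77863940⟩]⟩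
noncomputable def p123_l134 : Lf2 := ⟨nat_lit 0, nat_lit 30, [nat_lit 15, nat_lit 5, nat_lit 5, nat_lit 20], false, nat_lit 20, nat_lit 80, nat_lit 0, nat_lit 260, ⟨nat_lit 1000, nat_lit 0, nat_lit 0, nat_lit 0, nat_lit 0, nat_lit 0, nat_lit 0, nat_lit 0, nat_lit 0, nat_lit 0, nat_lit 0, nat_lit 0, nat_lit 0, nat_lit 0, nat_lit 0, nat_lit 0, false, false⟩,
 nat_lit 0, nat_lit 0, nat_lit 9730, nat_lit 0, nat_lit 2953, nat_lit 6736, nat_lit 572, nat_lit 0, nat_lit 0, nat_lit 752, nat_lit 0, nat_lit 0, nat_lit 0, nat_lit 0, nat_lit 0, nat_lit 0, nat_lit 0, nat_lit 0, [],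
 ⟨p123_k36, nat_lit 0, nat_lit 0, nat_lit 178, nat_lit 0, nat_lit 0, [nat_lit 938000000, nat_lit 3282000000, nat_lit 7968000000], [], [nat_lit 27684032482, nat_lit 28347366635, nat_lit 30922906709, nat_lit 31488327796, nat_lit 26333465488, nat_lit 26799098580, nat_lit 29304061137, nat_lit 29853600555], nat_lit 0, nat_lit 0, nat_lit 0, nat_lit 0, nat_lit 0, nat_lit 0, [], [nat_lit 54, nat_lit 40, nat_lit 40, nat_lit 80, nat_lit 43, nat_lit 226, nat_lit 20, nat_lit 6]⟩, ⟨p123_k41, nat_lit 0, nat_lit 0, nat_lit 661, nat_lit 0, nat_lit 936108, [nat_lit 3282000000, nat_lit 6250000000, nat_lit 11872000000], [], [nat_lit 33411069216, nat_lit 34411784176, nat_lit 37217095416, nat_lit 38009925632, nat_lit 29660919536, nat_lit 29971350448, nat_lit 31622388506, nat_lit 32329842736], nat_lit 1271250, nat_lit 1271250, nat_lit 1271250, nat_lit 1271250, nat_lit 0, nat_lit 1836250, [nat_lit 780000, nat_lit 1435000, nat_lit 1271250],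 [nat_lit 23, nat_lit 40, nat_lit 40, nat_lit 80, nat_lit 12, nat_lit 373, nat_lit 150, nat_lit 9]⟩,
 zbF0, [⟨nat_lit 22, nat_lit 83, nat_lit 100, nat_lit 83, nat_lit 89489536⟩]⟩
noncomputable def p123_l135 : Lf2 := ⟨nat_lit 0, nat_lit 30, [nat_lit 15, nat_lit 5, nat_lit 5, nat_lit 20], false, nat_lit 36, nat_lit 80, nat_lit 0, nat_lit 260, ⟨nat_lit 436, nat_lit 564, nat_lit 0, nat_lit 8, nat_lit 324, nat_lit 564, nat_lit 58, nat_lit 0, nat_lit 0, nat_lit 0, nat_lit 0, nat_lit 0, nat_lit 39294268, nat_lit 25963007, nat_lit 1742725, nat_lit 4016425, true, true⟩,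
 nat_lit 0, nat_lit 0, nat_lit 4326, nat_lit 0, nat_lit 2476, nat_lit 2994, nat_lit 284, nat_lit 0, nat_lit 0, nat_lit 347, nat_lit 0, nat_lit 0, nat_lit 0, nat_lit 0, nat_lit 0, nat_lit 141000, nat_lit 0, nat_lit 0, [(nat_lit 29, [(nat_lit 0, nat_lit 564)])],
 ⟨p123_k38, nat_lit 0, nat_lit 0, nat_lit 151, nat_lit 0, nat_lit 0, [nat_lit 849790400, nat_lit 2020896001, nat_lit 3732529600], [], [nat_lit 27004544474, nat_lit 27484741061, nat_lit 28784212414, nat_lit 29337048537, nat_lit 26619330884, nat_lit 27082866364, nat_lit 28268672868, nat_lit 28761887072], nat_lit 0, nat_lit 0, nat_lit 0, nat_lit 0, nat_lit 0, nat_lit 0, [], [nat_lit 20, nat_lit 40, nat_lit 40, nat_lit 80, nat_lit 16, nat_lit 226, nat_lit 20, nat_lit 7]⟩, ⟨p123_k41, nat_lit 0, nat_lit 0, nat_lit 685, nat_lit 0, nat_lit 1007207, [nat_lit 1430952000, nat_lit 2725000000, nat_lit 5176192000], [], [nat_lit 14398506467, nat_lit 14618542763, nat_lit 15478303347,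 nat_lit 15667681431, nat_lit 12466124366, nat_lit 12533580011, nat_lit 13126812178, nat_lit 13267726396], nat_lit 1271250, nat_lit 1271250, nat_lit 1271250, nat_lit 1271250, nat_lit 0, nat_lit 1836250, [nat_lit 780000, nat_lit 1435000, nat_lit 1271250], [nat_lit 23, nat_lit 40, nat_lit 40, nat_lit 80, nat_lit 12, nat_lit 373, nat_lit 150, nat_lit 9]⟩,
 ⟨nat_lit 0, nat_lit 1582, ⟨.ofNat (nat_lit 780481), .ofNat (nat_lit 835115), .ofNat (nat_lit 792138), .ofNat (nat_lit 846773), .ofNat (nat_lit 774999), .ofNat (nat_lit 824997), .ofNat (nat_lit 787499), .ofNat (nat_lit 837498)⟩, ⟨.ofNat (nat_lit 90000), .ofNat (nat_lit 196201), .ofNat (nat_lit 90000), .ofNat (nat_lit 200000), .ofNat (nat_lit 90000), .ofNat (nat_lit 199999), .ofNat (nat_lit 90000), .ofNat (nat_lit 200000)⟩⟩, [⟨nat_lit 13, nat_lit 26, nat_lit 84, nat_lit 100, nat_lit 503291238⟩, ⟨nat_lit 22, nat_lit 71, nat_lit 100, nat_lit 70, nat_lit 57039538⟩]⟩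
noncomputable def p123_l136 : Lf2 := ⟨nat_lit 0, nat_lit 30, [nat_lit 15, nat_lit 5, nat_lit 5, nat_lit 20], false, nat_lit 36, nat_lit 80, nat_lit 0, nat_lit 260, ⟨nat_lit 1000, nat_lit 0, nat_lit 0, nat_lit 0, nat_lit 0, nat_lit 0, nat_lit 0, nat_lit 0, nat_lit 0, nat_lit 0, nat_lit 0, nat_lit 0, nat_lit 0, nat_lit 0, nat_lit 0, nat_lit 0, false, false⟩,
 nat_lit 0, nat_lit 0, nat_lit 8587, nat_lit 0, nat_lit 2836, nat_lit 6190, nat_lit 453, nat_lit 0, nat_lit 0, nat_lit 826, nat_lit 0, nat_lit 0, nat_lit 0, nat_lit 0, nat_lit 0, nat_lit 0, nat_lit 0, nat_lit 0, [],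
 ⟨p123_k38, nat_lit 0, nat_lit 0, nat_lit 152, nat_lit 0, nat_lit 0, [nat_lit 938000000, nat_lit 3282000000, nat_lit 6250000000], [], [nat_lit 27673347827, nat_lit 28319289728, nat_lit 29887646706, nat_lit 30464556343, nat_lit 26744406949, nat_lit 27234378176, nat_lit 28775084239, nat_lit 29339500650], nat_lit 0, nat_lit 0, nat_lit 0, nat_lit 0, nat_lit 0, nat_lit 0, [], [nat_lit 20, nat_lit 40, nat_lit 40, nat_lit 80, nat_lit 16, nat_lit 226, nat_lit 20, nat_lit 7]⟩, ⟨p123_k48, nat_lit 0, nat_lit 0, nat_lit 684, nat_lit 0, nat_lit 1007983, [nat_lit 3282000000, nat_lit 6250000000, nat_lit 11872000000], [], [nat_lit 32044769840, nat_lit 32527147540, nat_lit 34579714311, nat_lit 34992784065, nat_lit 28352884898, nat_lit 28516210010, nat_lit 30155870281, nat_lit 30647225107], nat_lit 1271250, nat_lit 1271250, nat_lit 1271250, nat_lit 1271250, nat_lit 0, nat_lit 1836250, [nat_lit 780000, nat_lit 1435000, nat_lit 1271250],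 [nat_lit 23, nat_lit 40, nat_lit 40, nat_lit 80, nat_lit 12, nat_lit 373, nat_lit 150, nat_lit 9]⟩,
 zbF0, [⟨nat_lit 22, nat_lit 83, nat_lit 100, nat_lit 83, nat_lit 126707544⟩]⟩
noncomputable def b_V_900_700_20_31 : St := ⟨true, nat_lit 0, nat_lit 1, nat_lit 1, nat_lit 120, nat_lit 380, nat_lit 400, nat_lit 300, nat_lit 320, nat_lit 240, nat_lit 380, nat_lit 80, nat_lit 120, nat_lit 20, nat_lit 80, nat_lit 0, nat_lit 336, nat_lit 80, nat_lit 120, nat_lit 0, nat_lit 0, nat_lit 0, nat_lit 0⟩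
theorem d_V_900_700_20_31 (h : EB TB.env) : Dead b_V_900_700_20_31 := chkB_sound0 h (T :=
(.trX (nat_lit 19) (nat_lit 94) (nat_lit 88) (nat_lit 100) (nat_lit 320) (.spl (nat_lit 2) (nat_lit 320)
(.spl (nat_lit 3) (nat_lit 100)
(.trX (nat_lit 19) (nat_lit 100) (nat_lit 100) (nat_lit 100) (nat_lit 300) (.spl (nat_lit 0) (nat_lit 390)
(.leaf p123_l129)
(.trZ (nat_lit 3) (nat_lit 100) (nat_lit 39) (nat_lit 72) (nat_lit 36) (.leaf p123_l130))))
(.trZ (nat_lit 3) (nat_lit 100) (nat_lit 50) (nat_lit 65) (nat_lit 32) (.spl (nat_lit 0) (nat_lit 390)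
(.leaf p123_l131)
(.trZ (nat_lit 3) (nat_lit 100) (nat_lit 36) (nat_lit 77) (nat_lit 48) (.spl (nat_lit 0) (nat_lit 395)
(.leaf p123_l132)
(.trZ (nat_lit 0) (nat_lit 91) (nat_lit 23) (nat_lit 100) (nat_lit 256) (.trZ (nat_lit 3) (nat_lit 100) (nat_lit 26) (nat_lit 85) (nat_lit 64) (.leaf p123_l133))))))))
(.trX (nat_lit 22) (nat_lit 83) (nat_lit 100) (nat_lit 83) (nat_lit 260) (.spl (nat_lit 0) (nat_lit 390)
(.leaf p123_l134)
(.trX (nat_lit 13) (nat_lit 39) (nat_lit 72) (nat_lit 100) (nat_lit 364) (.trZ (nat_lit 3) (nat_lit 100) (nat_lit 39) (nat_lit 72) (nat_lit 36) (.spl (nat_lit 1) (nat_lit 310)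
(.trX (nat_lit 13) (nat_lit 37) (nat_lit 74) (nat_lit 100) (nat_lit 360) (.leaf p123_l135))
(.leaf p123_l136))))))))) (by decide +kernel)

end B2
end Pool.Agent.Lib.MP_6947cd_al
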