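import Pool.Agent.Lib.MP_6947cd_al.ZB.Pre

/-!
Problem MP_6947cd_al (Chollet).  Case B, second entry in [2/5, 17/20]: certificates of the tree, part P124 (generated).
-/

set_option autoImplicit false
set_option linter.all false

namespace Pool.Agent.Lib.MP_6947cd_al
namespace B2

open Ent Fr B1 PkA

noncomputable def p124_k0 : C1.Kn := ⟨[nat_lit 20, nat_lit 60, nat_lit 120], [nat_lit 0, nat_lit 0, nat_lit 3661], [(nat_lit 0, nat_lit 0, nat_lit 0), (nat_lit 0, nat_lit 0, nat_lit 0), (nat_lit 1000, nat_lit 611, nat_lit 913)], (nat_lit 60, nat_lit 100, nat_lit 87)⟩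
noncomputable def p124_k1 : C1.Kn := ⟨[nat_lit 60, nat_lit 100, nat_lit 160], [nat_lit 0, nat_lit 0, nat_lit 3069], [(nat_lit 0, nat_lit 0, nat_lit 0), (nat_lit 0, nat_lit 0, nat_lit 0), (nat_lit 1000, nat_lit 999, nat_lit 798)], (nat_lit 100, nat_lit 88, nat_lit 94)⟩
noncomputable def p124_k2 : C1.Kn := ⟨[nat_lit 20, nat_lit 60, nat_lit 120], [nat_lit 0, nat_lit 698, nat_lit 4166], [(nat_lit 0, nat_lit 0, nat_lit 0), (nat_lit 1000, nat_lit 782, nat_lit 272), (nat_lit 1000, nat_lit 529, nat_lit 902)], (nat_lit 53, nat_lit 100, nat_lit 87)⟩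
noncomputable def p124_k3 : C1.Kn := ⟨[nat_lit 20, nat_lit 60, nat_lit 100], [nat_lit 0, nat_lit 1056, nat_lit 3301], [(nat_lit 0, nat_lit 0, nat_lit 0), (nat_lit 1000, nat_lit 671, nat_lit 411), (nat_lit 1000, nat_lit 484, nat_lit 867)], (nat_lit 48, nat_lit 100, nat_lit 87)⟩
noncomputable def p124_k4 : C1.Kn := ⟨[nat_lit 60, nat_lit 100, nat_lit 160], [nat_lit 0, nat_lit 151, nat_lit 3185], [(nat_lit 0, nat_lit 0, nat_lit 0), (nat_lit 1000, nat_lit 977, nat_lit 59), (nat_lit 1000, nat_lit 976, nat_lit 789)], (nat_lit 100, nat_lit 91, nat_lit 96)⟩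
noncomputable def p124_k5 : C1.Kn := ⟨[nat_lit 60, nat_lit 100, nat_lit 160], [nat_lit 0, nat_lit 302, nat_lit 3303], [(nat_lit 0, nat_lit 0, nat_lit 0), (nat_lit 1000, nat_lit 953, nat_lit 118), (nat_lit 1000, nat_lit 952, nat_lit 781)], (nat_lit 100, nat_lit 94, nat_lit 97)⟩
noncomputable def p124_k6 : C1.Kn := ⟨[nat_lit 20, nat_lit 60, nat_lit 140], [nat_lit 0, nat_lit 0, nat_lit 4874], [(nat_lit 0, nat_lit 0, nat_lit 0), (nat_lit 0, nat_lit 0, nat_lit 0), (nat_lit 1000, nat_lit 619, nat_lit 951)], (nat_lit 62, nat_lit 100, nat_lit 94)⟩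
noncomputable def p124_k7 : C1.Kn := ⟨[nat_lit 60, nat_lit 100, nat_lit 180], [nat_lit 0, nat_lit 0, nat_lit 4090], [(nat_lit 0, nat_lit 0, nat_lit 0), (nat_lit 0, nat_lit 0, nat_lit 0), (nat_lit 1000, nat_lit 999, nat_lit 798)], (nat_lit 100, nat_lit 80, nat_lit 100)⟩
noncomputable def p124_k8 : C1.Kn := ⟨[nat_lit 20, nat_lit 60, nat_lit 120], [nat_lit 0, nat_lit 339, nat_lit 3911], [(nat_lit 0, nat_lit 0, nat_lit 0), (nat_lit 1000, nat_lit 894, nat_lit 132), (nat_lit 1000, nat_lit 574, nat_lit 928)], (nat_lit 58, nat_lit 100, nat_lit 93)⟩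
noncomputable def p124_k9 : C1.Kn := ⟨[nat_lit 20, nat_lit 60, nat_lit 120], [nat_lit 0, nat_lit 698, nat_lit 4166], [(nat_lit 0, nat_lit 0, nat_lit 0), (nat_lit 1000, nat_lit 782, nat_lit 272), (nat_lit 1000, nat_lit 529, nat_lit 902)], (nat_lit 53, nat_lit 100, nat_lit 93)⟩
noncomputable def p124_k10 : C1.Kn := ⟨[nat_lit 60, nat_lit 100, nat_lit 180], [nat_lit 0, nat_lit 302, nat_lit 4303], [(nat_lit 0, nat_lit 0, nat_lit 0), (nat_lit 1000, nat_lit 953, nat_lit 118), (nat_lit 1000, nat_lit 952, nat_lit 781)], (nat_lit 97, nat_lit 84, nat_lit 100)⟩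
noncomputable def p124_k11 : C1.Kn := ⟨[nat_lit 60, nat_lit 100, nat_lit 160], [nat_lit 0, nat_lit 609, nat_lit 3531], [(nat_lit 0, nat_lit 0, nat_lit 0), (nat_lit 1000, nat_lit 905, nat_lit 238), (nat_lit 1000, nat_lit 904, nat_lit 760)], (nat_lit 100, nat_lit 100, nat_lit 100)⟩
noncomputable def p124_k12 : C1.Kn := ⟨[nat_lit 60, nat_lit 100, nat_lit 160], [nat_lit 0, nat_lit 609, nat_lit 3531], [(nat_lit 0, nat_lit 0, nat_lit 0), (nat_lit 1000, nat_lit 905, nat_lit 238), (nat_lit 1000, nat_lit 904, nat_lit 760)], (nat_lit 94, nat_lit 88, nat_lit 100)⟩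
noncomputable def p124_k13 : C1.Kn := ⟨[nat_lit 20, nat_lit 60, nat_lit 100], [nat_lit 0, nat_lit 1415, nat_lit 3591], [(nat_lit 0, nat_lit 0, nat_lit 0), (nat_lit 1000, nat_lit 558, nat_lit 551), (nat_lit 1000, nat_lit 439, nat_lit 849)], (nat_lit 44, nat_lit 100, nat_lit 87)⟩
noncomputable def p124_k14 : C1.Kn := ⟨[nat_lit 20, nat_lit 60, nat_lit 80], [nat_lit 0, nat_lit 2136, nat_lit 3185], [(nat_lit 0, nat_lit 0, nat_lit 0), (nat_lit 1000, nat_lit 343, nat_lit 808), (nat_lit 1000, nat_lit 338, nat_lit 820)], (nat_lit 32, nat_lit 100, nat_lit 88)⟩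
noncomputable def p124_k15 : C1.Kn := ⟨[nat_lit 20, nat_lit 60, nat_lit 100], [nat_lit 0, nat_lit 1776, nat_lit 3880], [(nat_lit 0, nat_lit 0, nat_lit 0), (nat_lit 1000, nat_lit 445, nat_lit 693), (nat_lit 1000, nat_lit 394, nat_lit 822)], (nat_lit 38, nat_lit 100, nat_lit 87)⟩
noncomputable def p124_k16 : C1.Kn := ⟨[nat_lit 20, nat_lit 40, nat_lit 80], [nat_lit 0, nat_lit 1153, nat_lit 3001], [(nat_lit 0, nat_lit 0, nat_lit 0), (nat_lit 1000, nat_lit 394, nat_lit 710), (nat_lit 1000, nat_lit 386, nat_lit 722)], (nat_lit 32, nat_lit 100, nat_lit 88)⟩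
noncomputable def p124_k17 : C1.Kn := ⟨[nat_lit 60, nat_lit 100, nat_lit 160], [nat_lit 0, nat_lit 455, nat_lit 3416], [(nat_lit 0, nat_lit 0, nat_lit 0), (nat_lit 1000, nat_lit 929, nat_lit 178), (nat_lit 1000, nat_lit 928, nat_lit 770)], (nat_lit 100, nat_lit 97, nat_lit 98)⟩
noncomputable def p124_k18 : C1.Kn := ⟨[nat_lit 60, nat_lit 100, nat_lit 160], [nat_lit 0, nat_lit 909, nat_lit 3774], [(nat_lit 0, nat_lit 0, nat_lit 0), (nat_lit 1000, nat_lit 858, nat_lit 354), (nat_lit 1000, nat_lit 858, nat_lit 746)], (nat_lit 93, nat_lit 100, nat_lit 97)⟩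
noncomputable def p124_k19 : C1.Kn := ⟨[nat_lit 20, nat_lit 60, nat_lit 80], [nat_lit 0, nat_lit 2600, nat_lit 3731], [(nat_lit 0, nat_lit 0, nat_lit 0), (nat_lit 1000, nat_lit 245, nat_lit 872), (nat_lit 1000, nat_lit 240, nat_lit 884)], (nat_lit 23, nat_lit 100, nat_lit 91)⟩
noncomputable def p124_k20 : C1.Kn := ⟨[nat_lit 20, nat_lit 60, nat_lit 120], [nat_lit 0, nat_lit 1415, nat_lit 4677], [(nat_lit 0, nat_lit 0, nat_lit 0), (nat_lit 1000, nat_lit 558, nat_lit 551), (nat_lit 1000, nat_lit 439, nat_lit 849)], (nat_lit 44, nat_lit 100, nat_lit 92)⟩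
noncomputable def p124_k21 : C1.Kn := ⟨[nat_lit 20, nat_lit 60, nat_lit 100], [nat_lit 0, nat_lit 2136, nat_lit 4235], [(nat_lit 0, nat_lit 0, nat_lit 0), (nat_lit 1000, nat_lit 343, nat_lit 808), (nat_lit 1000, nat_lit 338, nat_lit 820)], (nat_lit 31, nat_lit 100, nat_lit 92)⟩
noncomputable def p124_k22 : C1.Kn := ⟨[nat_lit 20, nat_lit 60, nat_lit 100], [nat_lit 0, nat_lit 1776, nat_lit 3880], [(nat_lit 0, nat_lit 0, nat_lit 0), (nat_lit 1000, nat_lit 445, nat_lit 693), (nat_lit 1000, nat_lit 394, nat_lit 822)], (nat_lit 38, nat_lit 100, nat_lit 92)⟩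
noncomputable def p124_k23 : C1.Kn := ⟨[nat_lit 20, nat_lit 60, nat_lit 100], [nat_lit 0, nat_lit 2600, nat_lit 4863], [(nat_lit 0, nat_lit 0, nat_lit 0), (nat_lit 1000, nat_lit 245, nat_lit 872), (nat_lit 1000, nat_lit 240, nat_lit 884)], (nat_lit 23, nat_lit 100, nat_lit 93)⟩
noncomputable def p124_k24 : C1.Kn := ⟨[nat_lit 20, nat_lit 40, nat_lit 60, nat_lit 100], [nat_lit 0, nat_lit 1153, nat_lit 2077, nat_lit 4371], [(nat_lit 0, nat_lit 0, nat_lit 0), (nat_lit 1000, nat_lit 394, nat_lit 710), (nat_lit 1000, nat_lit 386, nat_lit 722), (nat_lit 1000, nat_lit 317, nat_lit 896)], (nat_lit 31, nat_lit 100, nat_lit 92)⟩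
noncomputable def p124_k25 : C1.Kn := ⟨[nat_lit 20, nat_lit 60, nat_lit 100], [nat_lit 0, nat_lit 1990, nat_lit 4061], [(nat_lit 0, nat_lit 0, nat_lit 0), (nat_lit 1000, nat_lit 380, nat_lit 773), (nat_lit 1000, nat_lit 365, nat_lit 809)], (nat_lit 34, nat_lit 100, nat_lit 92)⟩
noncomputable def p124_k26 : C1.Kn := ⟨[nat_lit 60, nat_lit 100, nat_lit 180], [nat_lit 0, nat_lit 151, nat_lit 4195], [(nat_lit 0, nat_lit 0, nat_lit 0), (nat_lit 1000, nat_lit 977, nat_lit 59), (nat_lit 1000, nat_lit 976, nat_lit 789)], (nat_lit 99, nat_lit 82, nat_lit 100)⟩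
noncomputable def p124_k27 : C1.Kn := ⟨[nat_lit 20, nat_lit 60, nat_lit 100], [nat_lit 0, nat_lit 2299, nat_lit 4469], [(nat_lit 0, nat_lit 0, nat_lit 0), (nat_lit 1000, nat_lit 309, nat_lit 828), (nat_lit 1000, nat_lit 302, nat_lit 848)], (nat_lit 28, nat_lit 100, nat_lit 92)⟩
noncomputable def p124_k28 : C1.Kn := ⟨[nat_lit 20, nat_lit 60, nat_lit 100], [nat_lit 0, nat_lit 2391, nat_lit 4579], [(nat_lit 0, nat_lit 0, nat_lit 0), (nat_lit 1000, nat_lit 288, nat_lit 845), (nat_lit 1000, nat_lit 284, nat_lit 855)], (nat_lit 27, nat_lit 100, nat_lit 93)⟩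
noncomputable def p124_k29 : C1.Kn := ⟨[nat_lit 20, nat_lit 60, nat_lit 80], [nat_lit 0, nat_lit 2866, nat_lit 4034], [(nat_lit 0, nat_lit 0, nat_lit 0), (nat_lit 1000, nat_lit 190, nat_lit 906), (nat_lit 1000, nat_lit 187, nat_lit 913)], (nat_lit 18, nat_lit 100, nat_lit 94)⟩
noncomputable def p124_k30 : C1.Kn := ⟨[nat_lit 20, nat_lit 60, nat_lit 80], [nat_lit 0, nat_lit 3038, nat_lit 4229], [(nat_lit 0, nat_lit 0, nat_lit 0), (nat_lit 1000, nat_lit 155, nat_lit 926), (nat_lit 1000, nat_lit 153, nat_lit 931)], (nat_lit 15, nat_lit 100, nat_lit 95)⟩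
noncomputable def p124_k31 : C1.Kn := ⟨[nat_lit 20, nat_lit 40, nat_lit 60, nat_lit 100], [nat_lit 0, nat_lit 1518, nat_lit 2558, nat_lit 4957], [(nat_lit 0, nat_lit 0, nat_lit 0), (nat_lit 1000, nat_lit 282, nat_lit 802), (nat_lit 1000, nat_lit 275, nat_lit 813), (nat_lit 1000, nat_lit 225, nat_lit 937)], (nat_lit 23, nat_lit 100, nat_lit 93)⟩
noncomputable def p124_k32 : C1.Kn := ⟨[nat_lit 20, nat_lit 60, nat_lit 100], [nat_lit 0, nat_lit 2136, nat_lit 4235], [(nat_lit 0, nat_lit 0, nat_lit 0), (nat_lit 1000, nat_lit 343, nat_lit 808), (nat_lit 1000, nat_lit 338, nat_lit 820)], (nat_lit 32, nat_lit 100, nat_lit 91)⟩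
noncomputable def p124_k33 : C1.Kn := ⟨[nat_lit 60, nat_lit 100, nat_lit 180], [nat_lit 0, nat_lit 302, nat_lit 4303], [(nat_lit 0, nat_lit 0, nat_lit 0), (nat_lit 1000, nat_lit 953, nat_lit 118), (nat_lit 1000, nat_lit 952, nat_lit 781)], (nat_lit 99, nat_lit 89, nat_lit 100)⟩
noncomputable def p124_k34 : C1.Kn := ⟨[nat_lit 20, nat_lit 60, nat_lit 80], [nat_lit 0, nat_lit 2600, nat_lit 3731], [(nat_lit 0, nat_lit 0, nat_lit 0), (nat_lit 1000, nat_lit 245, nat_lit 872), (nat_lit 1000, nat_lit 240, nat_lit 884)], (nat_lit 23, nat_lit 100, nat_lit 92)⟩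
noncomputable def p124_k35 : C1.Kn := ⟨[nat_lit 20, nat_lit 60, nat_lit 100], [nat_lit 0, nat_lit 1273, nat_lit 3475], [(nat_lit 0, nat_lit 0, nat_lit 0), (nat_lit 1000, nat_lit 603, nat_lit 496), (nat_lit 1000, nat_lit 457, nat_lit 859)], (nat_lit 46, nat_lit 100, nat_lit 87)⟩
noncomputable def p124_k36 : C1.Kn := ⟨[nat_lit 20, nat_lit 60, nat_lit 120], [nat_lit 0, nat_lit 1056, nat_lit 4422], [(nat_lit 0, nat_lit 0, nat_lit 0), (nat_lit 1000, nat_lit 671, nat_lit 411), (nat_lit 1000, nat_lit 484, nat_lit 876)], (nat_lit 49, nat_lit 100, nat_lit 92)⟩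
noncomputable def p124_k37 : C1.Kn := ⟨[nat_lit 20, nat_lit 60, nat_lit 100], [nat_lit 0, nat_lit 1990, nat_lit 4061], [(nat_lit 0, nat_lit 0, nat_lit 0), (nat_lit 1000, nat_lit 380, nat_lit 773), (nat_lit 1000, nat_lit 365, nat_lit 809)], (nat_lit 35, nat_lit 100, nat_lit 88)⟩
noncomputable def p124_k38 : C1.Kn := ⟨[nat_lit 20, nat_lit 60, nat_lit 120], [nat_lit 0, nat_lit 1634, nat_lit 4823], [(nat_lit 0, nat_lit 0, nat_lit 0), (nat_lit 1000, nat_lit 489, nat_lit 638), (nat_lit 1000, nat_lit 412, nat_lit 830)], (nat_lit 40, nat_lit 100, nat_lit 92)⟩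
noncomputable def p124_k39 : C1.Kn := ⟨[nat_lit 60, nat_lit 100, nat_lit 180], [nat_lit 0, nat_lit 84, nat_lit 4157], [(nat_lit 0, nat_lit 0, nat_lit 0), (nat_lit 1000, nat_lit 987, nat_lit 33), (nat_lit 1000, nat_lit 986, nat_lit 794)], (nat_lit 99, nat_lit 81, nat_lit 100)⟩
noncomputable def p124_k40 : C1.Kn := ⟨[nat_lit 60, nat_lit 100, nat_lit 180], [nat_lit 0, nat_lit 455, nat_lit 4402], [(nat_lit 0, nat_lit 0, nat_lit 0), (nat_lit 1000, nat_lit 929, nat_lit 178), (nat_lit 1000, nat_lit 928, nat_lit 770)], (nat_lit 96, nat_lit 86, nat_lit 100)⟩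
noncomputable def p124_k41 : C1.Kn := ⟨[nat_lit 60, nat_lit 100, nat_lit 160], [nat_lit 0, nat_lit 909, nat_lit 3774], [(nat_lit 0, nat_lit 0, nat_lit 0), (nat_lit 1000, nat_lit 858, nat_lit 354), (nat_lit 1000, nat_lit 858, nat_lit 746)], (nat_lit 91, nat_lit 91, nat_lit 100)⟩
noncomputable def p124_l0 : Lf2 := ⟨nat_lit 0, nat_lit 25, [nat_lit 44, nat_lit 5, nat_lit 5, nat_lit 20], false, nat_lit 80, nat_lit 160, nat_lit 0, nat_lit 160, ⟨nat_lit 495, nat_lit 505, nat_lit 0, nat_lit 7, nat_lit 288, nat_lit 505, nat_lit 102, nat_lit 0, nat_lit 0, nat_lit 0, nat_lit 0, nat_lit 0, nat_lit 40987106, nat_lit 21758041, nat_lit 4254853, nat_lit 4449732, true, false⟩,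
 nat_lit 0, nat_lit 0, nat_lit 6028, nat_lit 0, nat_lit 3564, nat_lit 3836, nat_lit 332, nat_lit 0, nat_lit 0, nat_lit 406, nat_lit 0, nat_lit 0, nat_lit 0, nat_lit 0, nat_lit 0, nat_lit 202000, nat_lit 0, nat_lit 0, [(nat_lit 26, [(nat_lit 1, nat_lit 505)])],
 ⟨p124_k0, nat_lit 0, nat_lit 0, nat_lit 127, nat_lit 0, nat_lit 0, [nat_lit 894166001, nat_lit 2145851000, nat_lit 4346342000], [], [nat_lit 22936496596, nat_lit 24195721132, nat_lit 25992035060, nat_lit 27094815888, nat_lit 23325746260, nat_lit 24469851284, nat_lit 26111834708, nat_lit 27091544232], nat_lit 0, nat_lit 0, nat_lit 0, nat_lit 0, nat_lit 0, nat_lit 0, [], [nat_lit 54, nat_lit 40, nat_lit 40, nat_lit 80, nat_lit 43, nat_lit 249, nat_lit 40, nat_lit 7]⟩, ⟨p124_k1, nat_lit 0, nat_lit 0, nat_lit 565, nat_lit 0, nat_lit 738735, [nat_lit 1624590000, nat_lit 3093750000, nat_lit 5876640000], [], [nat_lit 15935233214, nat_lit 16239294888, nat_lit 16889363058,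 nat_lit 17125318122, nat_lit 13609141426, nat_lit 13855380498, nat_lit 14528385660, nat_lit 14801188740], nat_lit 1271250, nat_lit 1271250, nat_lit 1271250, nat_lit 1271250, nat_lit 0, nat_lit 1100001, [nat_lit 780000, nat_lit 1435000, nat_lit 1271250], [nat_lit 23, nat_lit 40, nat_lit 40, nat_lit 80, nat_lit 12, nat_lit 428, nat_lit 200, nat_lit 11]⟩,
 ⟨nat_lit 2236, nat_lit 3163, ⟨.ofNat (nat_lit 649422), .ofNat (nat_lit 771478), .ofNat (nat_lit 671514), .ofNat (nat_lit 793619), .ofNat (nat_lit 647962), .ofNat (nat_lit 762142), .ofNat (nat_lit 670673), .ofNat (nat_lit 784902)⟩, ⟨.ofNat (nat_lit 184209), .ofNat (nat_lit 306116), .ofNat (nat_lit 200000), .ofNat (nat_lit 328271), .ofNat (nat_lit 192306), .ofNat (nat_lit 306337), .ofNat (nat_lit 200000), .ofNat (nat_lit 329112)⟩⟩, []⟩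
noncomputable def p124_l1 : Lf2 := ⟨nat_lit 0, nat_lit 25, [nat_lit 44, nat_lit 5, nat_lit 5, nat_lit 20], false, nat_lit 80, nat_lit 160, nat_lit 160, nat_lit 320, ⟨nat_lit 1000, nat_lit 0, nat_lit 0, nat_lit 0, nat_lit 0, nat_lit 0, nat_lit 0, nat_lit 0, nat_lit 0, nat_lit 0, nat_lit 0, nat_lit 0, nat_lit 0, nat_lit 0, nat_lit 0, nat_lit 0, false, false⟩,
 nat_lit 0, nat_lit 0, nat_lit 9248, nat_lit 0, nat_lit 9758, nat_lit 5884, nat_lit 20, nat_lit 0, nat_lit 0, nat_lit 823, nat_lit 0, nat_lit 0, nat_lit 0, nat_lit 0, nat_lit 0, nat_lit 0, nat_lit 0, nat_lit 0, [],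
 ⟨p124_k0, nat_lit 0, nat_lit 0, nat_lit 123, nat_lit 0, nat_lit 0, [nat_lit 938000000, nat_lit 3282000000, nat_lit 7968000000], [], [nat_lit 28471131012, nat_lit 29621887858, nat_lit 34053376344, nat_lit 35351503540, nat_lit 26740645220, nat_lit 27764909284, nat_lit 31535730552, nat_lit 32695680902], nat_lit 0, nat_lit 0, nat_lit 0, nat_lit 0, nat_lit 0, nat_lit 0, [], [nat_lit 54, nat_lit 40, nat_lit 40, nat_lit 80, nat_lit 43, nat_lit 249, nat_lit 40, nat_lit 7]⟩, ⟨p124_k1, nat_lit 0, nat_lit 0, nat_lit 376, nat_lit 0, nat_lit 595645, [nat_lit 3282000000, nat_lit 6250000000, nat_lit 11872000000], [], [nat_lit 28604950786, nat_lit 29190908810, nat_lit 30495024818, nat_lit 30999341105, nat_lit 31033180873, nat_lit 31573886432, nat_lit 32913315584, nat_lit 33387069232], nat_lit 1271250, nat_lit 1271250, nat_lit 1271250, nat_lit 1271250, nat_lit 1100001, nat_lit 2470000, [nat_lit 780000, nat_lit 1435000, nat_lit 1271250],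 [nat_lit 23, nat_lit 40, nat_lit 40, nat_lit 80, nat_lit 12, nat_lit 483, nat_lit 250, nat_lit 11]⟩,
 zbF0, [⟨nat_lit 19, nat_lit 100, nat_lit 97, nat_lit 94, nat_lit 318037993⟩]⟩
noncomputable def p124_l2 : Lf2 := ⟨nat_lit 0, nat_lit 25, [nat_lit 44, nat_lit 5, nat_lit 5, nat_lit 20], false, nat_lit 80, nat_lit 160, nat_lit 160, nat_lit 320, ⟨nat_lit 562, nat_lit 438, nat_lit 0, nat_lit 7, nat_lit 285, nat_lit 438, nat_lit 102, nat_lit 0, nat_lit 0, nat_lit 0, nat_lit 0, nat_lit 0, nat_lit 41205236, nat_lit 21516332, nat_lit 4278432, nat_lit 4442468, true, false⟩,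
 nat_lit 0, nat_lit 0, nat_lit 5233, nat_lit 0, nat_lit 2980, nat_lit 3330, nat_lit 476, nat_lit 0, nat_lit 0, nat_lit 465, nat_lit 0, nat_lit 0, nat_lit 0, nat_lit 0, nat_lit 0, nat_lit 109500, nat_lit 0, nat_lit 0, [(nat_lit 26, [(nat_lit 0, nat_lit 438)])],
 ⟨p124_k2, nat_lit 0, nat_lit 0, nat_lit 125, nat_lit 0, nat_lit 0, [nat_lit 862488800, nat_lit 2444018400, nat_lit 5578622400], [], [nat_lit 22506798380, nat_lit 22797036510, nat_lit 25549634400, nat_lit 25871788280, nat_lit 23050293580, nat_lit 23309554360, nat_lit 25865022620, nat_lit 26159220370], nat_lit 0, nat_lit 0, nat_lit 0, nat_lit 0, nat_lit 0, nat_lit 0, [], [nat_lit 54, nat_lit 40, nat_lit 40, nat_lit 80, nat_lit 43, nat_lit 249, nat_lit 40, nat_lit 7]⟩, ⟨p124_k1, nat_lit 0, nat_lit 0, nat_lit 376, nat_lit 0, nat_lit 597269, [nat_lit 1844484000, nat_lit 3512500000, nat_lit 6672064000], [], [nat_lit 15987385414, nat_lit 16152301526, nat_lit 17050208806,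 nat_lit 17182134260, nat_lit 17371561959, nat_lit 17524356599, nat_lit 18416347360, nat_lit 18553838232], nat_lit 1271250, nat_lit 1271250, nat_lit 1271250, nat_lit 1271250, nat_lit 1100001, nat_lit 2470000, [nat_lit 780000, nat_lit 1435000, nat_lit 1271250], [nat_lit 23, nat_lit 40, nat_lit 40, nat_lit 80, nat_lit 12, nat_lit 483, nat_lit 250, nat_lit 11]⟩,
 ⟨nat_lit 2500, nat_lit 2739, ⟨.ofNat (nat_lit 648720), .ofNat (nat_lit 766852), .ofNat (nat_lit 659927), .ofNat (nat_lit 778061), .ofNat (nat_lit 648376), .ofNat (nat_lit 764515), .ofNat (nat_lit 659665), .ofNat (nat_lit 775805)⟩, ⟨.ofNat (nat_lit 188310), .ofNat (nat_lit 306433), .ofNat (nat_lit 200000), .ofNat (nat_lit 328850), .ofNat (nat_lit 190321), .ofNat (nat_lit 306450), .ofNat (nat_lit 200000), .ofNat (nat_lit 329031)⟩⟩, [⟨nat_lit 7, nat_lit 94, nat_lit 100, nat_lit 92, nat_lit 183924322⟩]⟩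
noncomputable def p124_l3 : Lf2 := ⟨nat_lit 0, nat_lit 25, [nat_lit 44, nat_lit 5, nat_lit 5, nat_lit 20], false, nat_lit 80, nat_lit 160, nat_lit 160, nat_lit 320, ⟨nat_lit 657, nat_lit 343, nat_lit 0, nat_lit 7, nat_lit 283, nat_lit 343, nat_lit 103, nat_lit 0, nat_lit 0, nat_lit 0, nat_lit 0, nat_lit 0, nat_lit 41345184, nat_lit 21354242, nat_lit 4300574, nat_lit 4438703, true, false⟩,
 nat_lit 0, nat_lit 0, nat_lit 6064, nat_lit 0, nat_lit 6115, nat_lit 3858, nat_lit 0, nat_lit 0, nat_lit 0, nat_lit 529, nat_lit 0, nat_lit 0, nat_lit 0, nat_lit 0, nat_lit 0, nat_lit 85750, nat_lit 0, nat_lit 0, [(nat_lit 26, [(nat_lit 0, nat_lit 343)])],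
 ⟨p124_k3, nat_lit 0, nat_lit 0, nat_lit 108, nat_lit 0, nat_lit 0, [nat_lit 878866801, nat_lit 2625772401, nat_lit 4823120000], [], [nat_lit 26622166095, nat_lit 27079171740, nat_lit 30556610015, nat_lit 31029968080, nat_lit 26144549290, nat_lit 26554408180, nat_lit 29536612595, nat_lit 29877132810], nat_lit 0, nat_lit 0, nat_lit 0, nat_lit 0, nat_lit 0, nat_lit 0, [], [nat_lit 20, nat_lit 40, nat_lit 40, nat_lit 80, nat_lit 16, nat_lit 249, nat_lit 40, nat_lit 8]⟩, ⟨p124_k1, nat_lit 0, nat_lit 0, nat_lit 391, nat_lit 0, nat_lit 639765, [nat_lit 2156274000, nat_lit 4106250000, nat_lit 7799904000], [], [nat_lit 19031900166, nat_lit 19128099797, nat_lit 20273476722, nat_lit 20350527575, nat_lit 20528759367, nat_lit 20602749729, nat_lit 21656208087, nat_lit 21729020541], nat_lit 1271250, nat_lit 1271250, nat_lit 1271250, nat_lit 1271250, nat_lit 1100001, nat_lit 2470000, [nat_lit 780000, nat_lit 1435000, nat_lit 1271250],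 [nat_lit 23, nat_lit 40, nat_lit 40, nat_lit 80, nat_lit 12, nat_lit 483, nat_lit 250, nat_lit 11]⟩,
 ⟨nat_lit 2236, nat_lit 2500, ⟨.ofNat (nat_lit 648374), .ofNat (nat_lit 764515), .ofNat (nat_lit 654017), .ofNat (nat_lit 770160), .ofNat (nat_lit 648099), .ofNat (nat_lit 762142), .ofNat (nat_lit 653791), .ofNat (nat_lit 767836)⟩, ⟨.ofNat (nat_lit 190321), .ofNat (nat_lit 306450), .ofNat (nat_lit 200000), .ofNat (nat_lit 329031), .ofNat (nat_lit 192306), .ofNat (nat_lit 306337), .ofNat (nat_lit 200000), .ofNat (nat_lit 329112)⟩⟩, [⟨nat_lit 7, nat_lit 93, nat_lit 100, nat_lit 92, nat_lit 207078505⟩]⟩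
noncomputable def p124_l4 : Lf2 := ⟨nat_lit 0, nat_lit 25, [nat_lit 44, nat_lit 5, nat_lit 5, nat_lit 20], false, nat_lit 80, nat_lit 160, nat_lit 160, nat_lit 316, ⟨nat_lit 478, nat_lit 522, nat_lit 0, nat_lit 7, nat_lit 286, nat_lit 522, nat_lit 103, nat_lit 0, nat_lit 0, nat_lit 0, nat_lit 0, nat_lit 0, nat_lit 41140021, nat_lit 21572438, nat_lit 4287541, nat_lit 4447145, true, false⟩,
 nat_lit 0, nat_lit 0, nat_lit 5328, nat_lit 0, nat_lit 2949, nat_lit 3463, nat_lit 346, nat_lit 0, nat_lit 0, nat_lit 359, nat_lit 0, nat_lit 0, nat_lit 0, nat_lit 0, nat_lit 0, nat_lit 130500, nat_lit 0, nat_lit 0, [(nat_lit 26, [(nat_lit 0, nat_lit 522)])],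
 ⟨p124_k3, nat_lit 0, nat_lit 0, nat_lit 108, nat_lit 0, nat_lit 0, [nat_lit 848007201, nat_lit 2283309601, nat_lit 4078480000], [], [nat_lit 22836557447, nat_lit 23145638074, nat_lit 25825463089, nat_lit 26146121808, nat_lit 23453718893, nat_lit 23729086903, nat_lit 26181896547, nat_lit 26423029266], nat_lit 0, nat_lit 0, nat_lit 0, nat_lit 0, nat_lit 0, nat_lit 0, [], [nat_lit 20, nat_lit 40, nat_lit 40, nat_lit 80, nat_lit 16, nat_lit 249, nat_lit 40, nat_lit 8]⟩, ⟨p124_k4, nat_lit 0, nat_lit 0, nat_lit 395, nat_lit 0, nat_lit 650781, [nat_lit 1568796000, nat_lit 2987500000, nat_lit 5674816000], [], [nat_lit 13388412369, nat_lit 13444077357, nat_lit 14052001107, nat_lit 14094598361, nat_lit 14015272712, nat_lit 14066826310, nat_lit 14621608668, nat_lit 14663775174], nat_lit 1271250, nat_lit 1271250, nat_lit 1271250, nat_lit 1271250, nat_lit 1100001, nat_lit 2435750, [nat_lit 780000, nat_lit 1435000, nat_lit 1271250],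 [nat_lit 23, nat_lit 40, nat_lit 40, nat_lit 80, nat_lit 12, nat_lit 483, nat_lit 250, nat_lit 11]⟩,
 ⟨nat_lit 2236, nat_lit 2500, ⟨.ofNat (nat_lit 654017), .ofNat (nat_lit 770160), .ofNat (nat_lit 659661), .ofNat (nat_lit 775805), .ofNat (nat_lit 653791), .ofNat (nat_lit 767836), .ofNat (nat_lit 659483), .ofNat (nat_lit 773529)⟩, ⟨.ofNat (nat_lit 190321), .ofNat (nat_lit 306450), .ofNat (nat_lit 200000), .ofNat (nat_lit 329031), .ofNat (nat_lit 192306), .ofNat (nat_lit 306337), .ofNat (nat_lit 200000), .ofNat (nat_lit 329112)⟩⟩, [⟨nat_lit 19, nat_lit 100, nat_lit 96, nat_lit 93, nat_lit 134335767⟩]⟩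
noncomputable def p124_l5 : Lf2 := ⟨nat_lit 0, nat_lit 25, [nat_lit 44, nat_lit 5, nat_lit 5, nat_lit 20], false, nat_lit 80, nat_lit 160, nat_lit 160, nat_lit 312, ⟨nat_lit 1000, nat_lit 0, nat_lit 0, nat_lit 0, nat_lit 0, nat_lit 0, nat_lit 0, nat_lit 0, nat_lit 0, nat_lit 0, nat_lit 0, nat_lit 0, nat_lit 0, nat_lit 0, nat_lit 0, nat_lit 0, false, false⟩,
 nat_lit 0, nat_lit 0, nat_lit 9355, nat_lit 0, nat_lit 6362, nat_lit 6212, nat_lit 371, nat_lit 0, nat_lit 0, nat_lit 901, nat_lit 0, nat_lit 0, nat_lit 0, nat_lit 0, nat_lit 0, nat_lit 0, nat_lit 0, nat_lit 0, [],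
 ⟨p124_k2, nat_lit 0, nat_lit 0, nat_lit 125, nat_lit 0, nat_lit 0, [nat_lit 938000000, nat_lit 3282000000, nat_lit 7968000000], [], [nat_lit 25643227512, nat_lit 26113870492, nat_lit 30440446060, nat_lit 30925717182, nat_lit 24986235726, nat_lit 25375295565, nat_lit 29273297378, nat_lit 29710088703], nat_lit 0, nat_lit 0, nat_lit 0, nat_lit 0, nat_lit 0, nat_lit 0, [], [nat_lit 54, nat_lit 40, nat_lit 40, nat_lit 80, nat_lit 43, nat_lit 249, nat_lit 40, nat_lit 7]⟩, ⟨p124_k5, nat_lit 0, nat_lit 0, nat_lit 387, nat_lit 0, nat_lit 626153, [nat_lit 3282000000, nat_lit 6250000000, nat_lit 11872000000], [], [nat_lit 25505913214, nat_lit 25802596330, nat_lit 27803126907, nat_lit 28127814355, nat_lit 28215066333, nat_lit 28496218376, nat_lit 30554917944, nat_lit 30862861592], nat_lit 1271250, nat_lit 1271250, nat_lit 1271250, nat_lit 1271250, nat_lit 1100001, nat_lit 2401500, [nat_lit 780000, nat_lit 1435000, nat_lit 1271250],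 [nat_lit 23, nat_lit 40, nat_lit 40, nat_lit 80, nat_lit 12, nat_lit 483, nat_lit 250, nat_lit 11]⟩,
 zbF0, [⟨nat_lit 7, nat_lit 100, nat_lit 100, nat_lit 95, nat_lit 327666908⟩]⟩
noncomputable def p124_l6 : Lf2 := ⟨nat_lit 0, nat_lit 25, [nat_lit 44, nat_lit 5, nat_lit 5, nat_lit 20], false, nat_lit 80, nat_lit 160, nat_lit 160, nat_lit 312, ⟨nat_lit 580, nat_lit 420, nat_lit 0, nat_lit 7, nat_lit 289, nat_lit 420, nat_lit 103, nat_lit 0, nat_lit 0, nat_lit 0, nat_lit 0, nat_lit 0, nat_lit 40833333, nat_lit 21898863, nat_lit 4267804, nat_lit 4459243, true, false⟩,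
 nat_lit 0, nat_lit 0, nat_lit 6067, nat_lit 0, nat_lit 5879, nat_lit 4029, nat_lit 0, nat_lit 0, nat_lit 0, nat_lit 445, nat_lit 0, nat_lit 0, nat_lit 0, nat_lit 0, nat_lit 0, nat_lit 105000, nat_lit 0, nat_lit 0, [(nat_lit 26, [(nat_lit 0, nat_lit 420)])],
 ⟨p124_k3, nat_lit 0, nat_lit 0, nat_lit 108, nat_lit 0, nat_lit 0, [nat_lit 865592000, nat_lit 2478456000, nat_lit 4502800000], [], [nat_lit 26341221987, nat_lit 26787201004, nat_lit 30203940819, nat_lit 30665916368, nat_lit 25944743634, nat_lit 26345024228, nat_lit 29287788087, nat_lit 29620427636], nat_lit 0, nat_lit 0, nat_lit 0, nat_lit 0, nat_lit 0, nat_lit 0, [], [nat_lit 20, nat_lit 40, nat_lit 40, nat_lit 80, nat_lit 16, nat_lit 249, nat_lit 40, nat_lit 8]⟩, ⟨p124_k5, nat_lit 0, nat_lit 0, nat_lit 411, nat_lit 0, nat_lit 694001, [nat_lit 1903560000, nat_lit 3625000000, nat_lit 6885760000], [], [nat_lit 16083199328, nat_lit 16217654236, nat_lit 16877730006,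 nat_lit 16981523712, nat_lit 16853551229, nat_lit 16980045707, nat_lit 17603799468, nat_lit 17743793486], nat_lit 1271250, nat_lit 1271250, nat_lit 1271250, nat_lit 1271250, nat_lit 1100001, nat_lit 2401500, [nat_lit 780000, nat_lit 1435000, nat_lit 1271250], [nat_lit 23, nat_lit 40, nat_lit 40, nat_lit 80, nat_lit 12, nat_lit 483, nat_lit 250, nat_lit 11]⟩,
 ⟨nat_lit 2236, nat_lit 2500, ⟨.ofNat (nat_lit 659661), .ofNat (nat_lit 775805), .ofNat (nat_lit 670948), .ofNat (nat_lit 787095), .ofNat (nat_lit 659483), .ofNat (nat_lit 773529), .ofNat (nat_lit 670867), .ofNat (nat_lit 784917)⟩, ⟨.ofNat (nat_lit 190321), .ofNat (nat_lit 306450), .ofNat (nat_lit 200000), .ofNat (nat_lit 329031), .ofNat (nat_lit 192306), .ofNat (nat_lit 306337), .ofNat (nat_lit 200000), .ofNat (nat_lit 329112)⟩⟩, [⟨nat_lit 7, nat_lit 100, nat_lit 100, nat_lit 95, nat_lit 162236910⟩]⟩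
noncomputable def p124_l7 : Lf2 := ⟨nat_lit 0, nat_lit 30, [nat_lit 15, nat_lit 5, nat_lit 5, nat_lit 20], false, nat_lit 80, nat_lit 160, nat_lit 0, nat_lit 336, ⟨nat_lit 1000, nat_lit 0, nat_lit 0, nat_lit 0, nat_lit 0, nat_lit 0, nat_lit 0, nat_lit 0, nat_lit 0, nat_lit 0, nat_lit 0, nat_lit 0, nat_lit 0, nat_lit 0, nat_lit 0, nat_lit 0, false, false⟩,
 nat_lit 0, nat_lit 0, nat_lit 11713, nat_lit 0, nat_lit 4974, nat_lit 7453, nat_lit 659, nat_lit 0, nat_lit 0, nat_lit 838, nat_lit 0, nat_lit 0, nat_lit 0, nat_lit 0, nat_lit 0, nat_lit 0, nat_lit 0, nat_lit 0, [],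
 ⟨p124_k6, nat_lit 0, nat_lit 0, nat_lit 143, nat_lit 0, nat_lit 0, [nat_lit 938000000, nat_lit 3282000000, nat_lit 9842000000], [], [nat_lit 23377001434, nat_lit 23720607499, nat_lit 27596564632, nat_lit 28014891126, nat_lit 23126557434, nat_lit 23437169784, nat_lit 27117974456, nat_lit 27496244231], nat_lit 0, nat_lit 0, nat_lit 0, nat_lit 0, nat_lit 0, nat_lit 0, [], [nat_lit 93, nat_lit 40, nat_lit 40, nat_lit 80, nat_lit 63, nat_lit 345, nat_lit 125, nat_lit 9]⟩, ⟨p124_k7, nat_lit 0, nat_lit 0, nat_lit 439, nat_lit 0, nat_lit 362223, [nat_lit 3282000000, nat_lit 6250000000, nat_lit 14058000000], [], [nat_lit 32771014260, nat_lit 33465298282, nat_lit 35407002000, nat_lit 36304339768, nat_lit 29982290582, nat_lit 30322197565, nat_lit 31545072573, nat_lit 31991161673], nat_lit 1271250, nat_lit 1271250, nat_lit 1271250, nat_lit 1271250, nat_lit 0, nat_lit 2373000, [nat_lit 780000, nat_lit 1435000, nat_lit 1271250], [nat_lit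 71, nat_lit 40, nat_lit 40, nat_lit 80, nat_lit 68, nat_lit 483, nat_lit 250, nat_lit 11]⟩,
 zbF0, [⟨nat_lit 7, nat_lit 90, nat_lit 100, nat_lit 100, nat_lit 140664064⟩]⟩
noncomputable def p124_l8 : Lf2 := ⟨nat_lit 0, nat_lit 30, [nat_lit 15, nat_lit 5, nat_lit 5, nat_lit 20], false, nat_lit 80, nat_lit 160, nat_lit 0, nat_lit 336, ⟨nat_lit 495, nat_lit 505, nat_lit 0, nat_lit 7, nat_lit 288, nat_lit 505, nat_lit 108, nat_lit 0, nat_lit 0, nat_lit 0, nat_lit 0, nat_lit 0, nat_lit 40709408, nat_lit 21690489, nat_lit 4600103, nat_lit 4515261, true, false⟩,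
 nat_lit 0, nat_lit 0, nat_lit 5798, nat_lit 0, nat_lit 3758, nat_lit 3689, nat_lit 372, nat_lit 0, nat_lit 0, nat_lit 415, nat_lit 0, nat_lit 0, nat_lit 0, nat_lit 0, nat_lit 0, nat_lit 126250, nat_lit 0, nat_lit 0, [(nat_lit 26, [(nat_lit 0, nat_lit 505)])],
 ⟨p124_k8, nat_lit 0, nat_lit 0, nat_lit 123, nat_lit 0, nat_lit 0, [nat_lit 850938000, nat_lit 2315834000, nat_lit 5213124000], [], [nat_lit 23326113435, nat_lit 23649080858, nat_lit 26378914024, nat_lit 26674723540, nat_lit 23619112252, nat_lit 23912220284, nat_lit 26399122351, nat_lit 26649066902], nat_lit 0, nat_lit 0, nat_lit 0, nat_lit 0, nat_lit 0, nat_lit 0, [], [nat_lit 54, nat_lit 40, nat_lit 40, nat_lit 80, nat_lit 43, nat_lit 249, nat_lit 40, nat_lit 7]⟩, ⟨p124_k7, nat_lit 0, nat_lit 0, nat_lit 460, nat_lit 0, nat_lit 430049, [nat_lit 1624590000, nat_lit 3093750000, nat_lit 6958710000], [], [nat_lit 16219642410, nat_lit 16563305816, nat_lit 17523829930,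 nat_lit 17968000644, nat_lit 14839496407, nat_lit 15010171203, nat_lit 15615494535, nat_lit 15836307463], nat_lit 1271250, nat_lit 1271250, nat_lit 1271250, nat_lit 1271250, nat_lit 0, nat_lit 2373000, [nat_lit 780000, nat_lit 1435000, nat_lit 1271250], [nat_lit 71, nat_lit 40, nat_lit 40, nat_lit 80, nat_lit 68, nat_lit 483, nat_lit 250, nat_lit 11]⟩,
 ⟨nat_lit 2738, nat_lit 2959, ⟨.ofNat (nat_lit 649121), .ofNat (nat_lit 769170), .ofNat (nat_lit 671394), .ofNat (nat_lit 791446), .ofNat (nat_lit 648722), .ofNat (nat_lit 766852), .ofNat (nat_lit 671136), .ofNat (nat_lit 789269)⟩, ⟨.ofNat (nat_lit 200000), .ofNat (nat_lit 328592), .ofNat (nat_lit 200000), .ofNat (nat_lit 350869), .ofNat (nat_lit 200000), .ofNat (nat_lit 328850), .ofNat (nat_lit 200000), .ofNat (nat_lit 351268)⟩⟩, [⟨nat_lit 7, nat_lit 90, nat_lit 100, nat_lit 100, nat_lit 61949253⟩]⟩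
noncomputable def p124_l9 : Lf2 := ⟨nat_lit 0, nat_lit 30, [nat_lit 15, nat_lit 5, nat_lit 5, nat_lit 20], false, nat_lit 80, nat_lit 160, nat_lit 0, nat_lit 160, ⟨nat_lit 1000, nat_lit 0, nat_lit 0, nat_lit 0, nat_lit 0, nat_lit 0, nat_lit 0, nat_lit 0, nat_lit 0, nat_lit 0, nat_lit 0, nat_lit 0, nat_lit 0, nat_lit 0, nat_lit 0, nat_lit 0, false, false⟩,
 nat_lit 0, nat_lit 0, nat_lit 11016, nat_lit 0, nat_lit 3580, nat_lit 7009, nat_lit 629, nat_lit 0, nat_lit 0, nat_lit 997, nat_lit 0, nat_lit 0, nat_lit 0, nat_lit 0, nat_lit 0, nat_lit 0, nat_lit 0, nat_lit 0, [],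
 ⟨p124_k9, nat_lit 0, nat_lit 0, nat_lit 127, nat_lit 0, nat_lit 0, [nat_lit 938000000, nat_lit 3282000000, nat_lit 7968000000], [], [nat_lit 22794327830, nat_lit 23425286290, nat_lit 26417312400, nat_lit 27119497360, nat_lit 23120364090, nat_lit 23696854200, nat_lit 26469684020, nat_lit 27108674520], nat_lit 0, nat_lit 0, nat_lit 0, nat_lit 0, nat_lit 0, nat_lit 0, [], [nat_lit 54, nat_lit 40, nat_lit 40, nat_lit 80, nat_lit 43, nat_lit 249, nat_lit 40, nat_lit 7]⟩, ⟨p124_k7, nat_lit 0, nat_lit 0, nat_lit 572, nat_lit 0, nat_lit 570338, [nat_lit 3282000000, nat_lit 6250000000, nat_lit 14058000000], [], [nat_lit 31530039030, nat_lit 32210748196, nat_lit 33697115226, nat_lit 34502670424, nat_lit 26959143518, nat_lit 27523643314, nat_lit 29572112532, nat_lit 30283409976], nat_lit 1271250, nat_lit 1271250, nat_lit 1271250, nat_lit 1271250, nat_lit 0, nat_lit 1100001, [nat_lit 780000, nat_lit 1435000, nat_lit 1271250], [nat_lit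 71, nat_lit 40, nat_lit 40, nat_lit 80, nat_lit 68, nat_lit 428, nat_lit 200, nat_lit 10]⟩,
 zbF0, []⟩
noncomputable def p124_l10 : Lf2 := ⟨nat_lit 0, nat_lit 25, [nat_lit 44, nat_lit 5, nat_lit 5, nat_lit 20], false, nat_lit 80, nat_lit 160, nat_lit 160, nat_lit 336, ⟨nat_lit 613, nat_lit 387, nat_lit 0, nat_lit 7, nat_lit 287, nat_lit 387, nat_lit 108, nat_lit 0, nat_lit 0, nat_lit 0, nat_lit 0, nat_lit 0, nat_lit 40774011, nat_lit 21616326, nat_lit 4609663, nat_lit 4513473, true, false⟩,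
 nat_lit 0, nat_lit 0, nat_lit 5454, nat_lit 0, nat_lit 3052, nat_lit 3470, nat_lit 509, nat_lit 0, nat_lit 0, nat_lit 500, nat_lit 0, nat_lit 0, nat_lit 0, nat_lit 0, nat_lit 0, nat_lit 96750, nat_lit 0, nat_lit 0, [(nat_lit 26, [(nat_lit 0, nat_lit 387)])],
 ⟨p124_k2, nat_lit 0, nat_lit 0, nat_lit 127, nat_lit 0, nat_lit 0, [nat_lit 871281200, nat_lit 2541591600, nat_lit 5856837600], [], [nat_lit 22342197302, nat_lit 22928731426, nat_lit 25653755760, nat_lit 26305008784, nat_lit 22854803946, nat_lit 23389476362, nat_lit 25937581988, nat_lit 26532048888], nat_lit 0, nat_lit 0, nat_lit 0, nat_lit 0, nat_lit 0, nat_lit 0, [], [nat_lit 54, nat_lit 40, nat_lit 40, nat_lit 80, nat_lit 43, nat_lit 249, nat_lit 40, nat_lit 7]⟩, ⟨p124_k1, nat_lit 0, nat_lit 0, nat_lit 360, nat_lit 0, nat_lit 550777, [nat_lit 2011866000, nat_lit 3831250000, nat_lit 7277536000], [], [nat_lit 17902259484, nat_lit 18222215314, nat_lit 19019040444,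 nat_lit 19305679686, nat_lit 19684822892, nat_lit 19998981046, nat_lit 20762726712, nat_lit 21085748695], nat_lit 1271250, nat_lit 1271250, nat_lit 1271250, nat_lit 1271250, nat_lit 1100001, nat_lit 2607000, [nat_lit 780000, nat_lit 1435000, nat_lit 1271250], [nat_lit 23, nat_lit 40, nat_lit 40, nat_lit 80, nat_lit 12, nat_lit 483, nat_lit 250, nat_lit 11]⟩,
 ⟨nat_lit 2236, nat_lit 2739, ⟨.ofNat (nat_lit 648684), .ofNat (nat_lit 766852), .ofNat (nat_lit 671081), .ofNat (nat_lit 789269), .ofNat (nat_lit 648065), .ofNat (nat_lit 762142), .ofNat (nat_lit 670819), .ofNat (nat_lit 784917)⟩, ⟨.ofNat (nat_lit 200000), .ofNat (nat_lit 328850), .ofNat (nat_lit 200000), .ofNat (nat_lit 351268), .ofNat (nat_lit 200000), .ofNat (nat_lit 329112), .ofNat (nat_lit 200000), .ofNat (nat_lit 351886)⟩⟩, [⟨nat_lit 7, nat_lit 90, nat_lit 100, nat_lit 100, nat_lit 190425939⟩]⟩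
noncomputable def p124_l11 : Lf2 := ⟨nat_lit 0, nat_lit 30, [nat_lit 15, nat_lit 5, nat_lit 5, nat_lit 20], false, nat_lit 80, nat_lit 160, nat_lit 160, nat_lit 336, ⟨nat_lit 1000, nat_lit 0, nat_lit 0, nat_lit 0, nat_lit 0, nat_lit 0, nat_lit 0, nat_lit 0, nat_lit 0, nat_lit 0, nat_lit 0, nat_lit 0, nat_lit 0, nat_lit 0, nat_lit 0, nat_lit 0, false, false⟩,
 nat_lit 0, nat_lit 0, nat_lit 7926, nat_lit 0, nat_lit 9689, nat_lit 5043, nat_lit 0, nat_lit 0, nat_lit 0, nat_lit 919, nat_lit 0, nat_lit 0, nat_lit 0, nat_lit 0, nat_lit 0, nat_lit 0, nat_lit 0, nat_lit 0, [],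
 ⟨p124_k9, nat_lit 0, nat_lit 0, nat_lit 127, nat_lit 0, nat_lit 0, [nat_lit 938000000, nat_lit 3282000000, nat_lit 7968000000], [], [nat_lit 29863347989, nat_lit 31008299382, nat_lit 35251720570, nat_lit 36543191888, nat_lit 28030750772, nat_lit 29049977284, nat_lit 32626144841, nat_lit 33780276766], nat_lit 0, nat_lit 0, nat_lit 0, nat_lit 0, nat_lit 0, nat_lit 0, [], [nat_lit 54, nat_lit 40, nat_lit 40, nat_lit 80, nat_lit 43, nat_lit 249, nat_lit 40, nat_lit 7]⟩, ⟨p124_k7, nat_lit 0, nat_lit 0, nat_lit 253, nat_lit 0, nat_lit 315542, [nat_lit 3282000000, nat_lit 6250000000, nat_lit 14058000000], [], [nat_lit 25955924798, nat_lit 26333464228, nat_lit 28486719626, nat_lit 28796230769, nat_lit 29879902676, nat_lit 30156960469, nat_lit 31750240515, nat_lit 32061207552], nat_lit 1271250, nat_lit 1271250, nat_lit 1271250, nat_lit 1271250, nat_lit 1100001, nat_lit 2607000, [nat_lit 780000, nat_lit 1435000, nat_lit 1271250],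 [nat_lit 71, nat_lit 40, nat_lit 40, nat_lit 80, nat_lit 68, nat_lit 483, nat_lit 250, nat_lit 10]⟩,
 zbF0, [⟨nat_lit 7, nat_lit 87, nat_lit 100, nat_lit 99, nat_lit 324341500⟩]⟩
noncomputable def p124_l12 : Lf2 := ⟨nat_lit 0, nat_lit 30, [nat_lit 15, nat_lit 5, nat_lit 5, nat_lit 20], false, nat_lit 80, nat_lit 160, nat_lit 160, nat_lit 328, ⟨nat_lit 1000, nat_lit 0, nat_lit 0, nat_lit 0, nat_lit 0, nat_lit 0, nat_lit 0, nat_lit 0, nat_lit 0, nat_lit 0, nat_lit 0, nat_lit 0, nat_lit 0, nat_lit 0, nat_lit 0, nat_lit 0, false, false⟩,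
 nat_lit 0, nat_lit 0, nat_lit 9932, nat_lit 0, nat_lit 9451, nat_lit 6595, nat_lit 3, nat_lit 0, nat_lit 0, nat_lit 947, nat_lit 0, nat_lit 0, nat_lit 0, nat_lit 0, nat_lit 0, nat_lit 0, nat_lit 0, nat_lit 0, [],
 ⟨p124_k9, nat_lit 0, nat_lit 0, nat_lit 127, nat_lit 0, nat_lit 0, [nat_lit 938000000, nat_lit 3282000000, nat_lit 7968000000], [], [nat_lit 29867916901, nat_lit 30992843688, nat_lit 34907541630, nat_lit 36176054992, nat_lit 28119417698, nat_lit 29121268306, nat_lit 32386295819, nat_lit 33520358394], nat_lit 0, nat_lit 0, nat_lit 0, nat_lit 0, nat_lit 0, nat_lit 0, [], [nat_lit 54, nat_lit 40, nat_lit 40, nat_lit 80, nat_lit 43, nat_lit 249, nat_lit 40, nat_lit 7]⟩, ⟨p124_k10, nat_lit 0, nat_lit 0, nat_lit 267, nat_lit 0, nat_lit 356867, [nat_lit 3282000000, nat_lit 6250000000, nat_lit 14058000000], [], [nat_lit 25271275740, nat_lit 25632524595, nat_lit 27532803290, nat_lit 27820064675, nat_lit 28137165278,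 nat_lit 28370475199, nat_lit 30343661589, nat_lit 30640654607], nat_lit 1271250, nat_lit 1271250, nat_lit 1271250, nat_lit 1271250, nat_lit 1100001, nat_lit 2538500, [nat_lit 780000, nat_lit 1435000, nat_lit 1271250], [nat_lit 71, nat_lit 40, nat_lit 40, nat_lit 80, nat_lit 68, nat_lit 483, nat_lit 250, nat_lit 10]⟩,
 zbF0, [⟨nat_lit 7, nat_lit 92, nat_lit 99, nat_lit 100, nat_lit 311043956⟩]⟩
noncomputable def p124_l13 : Lf2 := ⟨nat_lit 0, nat_lit 25, [nat_lit 44, nat_lit 5, nat_lit 5, nat_lit 20], false, nat_lit 80, nat_lit 160, nat_lit 0, nat_lit 160, ⟨nat_lit 1000, nat_lit 0, nat_lit 0, nat_lit 0, nat_lit 0, nat_lit 0, nat_lit 0, nat_lit 0, nat_lit 0, nat_lit 0, nat_lit 0, nat_lit 0, nat_lit 0, nat_lit 0, nat_lit 0, nat_lit 0, false, false⟩,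
 nat_lit 0, nat_lit 0, nat_lit 9615, nat_lit 0, nat_lit 8387, nat_lit 6656, nat_lit 186, nat_lit 0, nat_lit 0, nat_lit 981, nat_lit 0, nat_lit 0, nat_lit 0, nat_lit 0, nat_lit 0, nat_lit 0, nat_lit 0, nat_lit 0, [],
 ⟨p124_k0, nat_lit 0, nat_lit 0, nat_lit 127, nat_lit 0, nat_lit 0, [nat_lit 938000000, nat_lit 3282000000, nat_lit 7968000000], [], [nat_lit 26938642018, nat_lit 29123356376, nat_lit 32202981516, nat_lit 34534737104, nat_lit 25677345330, nat_lit 27525685522, nat_lit 30269688828, nat_lit 32358370378], nat_lit 0, nat_lit 0, nat_lit 0, nat_lit 0, nat_lit 0, nat_lit 0, [], [nat_lit 54, nat_lit 40, nat_lit 40, nat_lit 80, nat_lit 43, nat_lit 249, nat_lit 40, nat_lit 7]⟩, ⟨p124_k11, nat_lit 0, nat_lit 0, nat_lit 580, nat_lit 0, nat_lit 784276, [nat_lit 3282000000, nat_lit 6250000000, nat_lit 11872000000], [], [nat_lit 27893823756, nat_lit 28601263900, nat_lit 30824872861, nat_lit 31821312416, nat_lit 24861548812,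 nat_lit 25441942556, nat_lit 26647253964, nat_lit 27136755900], nat_lit 1271250, nat_lit 1271250, nat_lit 1271250, nat_lit 1271250, nat_lit 0, nat_lit 1100001, [nat_lit 780000, nat_lit 1435000, nat_lit 1271250], [nat_lit 23, nat_lit 40, nat_lit 40, nat_lit 80, nat_lit 12, nat_lit 428, nat_lit 200, nat_lit 11]⟩,
 zbF0, []⟩
noncomputable def p124_l14 : Lf2 := ⟨nat_lit 0, nat_lit 25, [nat_lit 44, nat_lit 5, nat_lit 5, nat_lit 20], false, nat_lit 80, nat_lit 160, nat_lit 160, nat_lit 300, ⟨nat_lit 468, nat_lit 532, nat_lit 0, nat_lit 7, nat_lit 297, nat_lit 532, nat_lit 102, nat_lit 0, nat_lit 0, nat_lit 0, nat_lit 0, nat_lit 0, nat_lit 40182721, nat_lit 22614927, nat_lit 4202352, nat_lit 4479276, true, false⟩,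
 nat_lit 0, nat_lit 0, nat_lit 4261, nat_lit 0, nat_lit 4412, nat_lit 2949, nat_lit 291, nat_lit 0, nat_lit 0, nat_lit 405, nat_lit 0, nat_lit 0, nat_lit 0, nat_lit 0, nat_lit 0, nat_lit 133000, nat_lit 0, nat_lit 0, [(nat_lit 26, [(nat_lit 0, nat_lit 532)])],
 ⟨p124_k0, nat_lit 0, nat_lit 0, nat_lit 127, nat_lit 0, nat_lit 0, [nat_lit 846283201, nat_lit 2264177600, nat_lit 5065833600], [], [nat_lit 23898268093, nat_lit 25300188981, nat_lit 27159002205, nat_lit 28402933904, nat_lit 23997311805, nat_lit 25265238397, nat_lit 26948448189, nat_lit 28018682389], nat_lit 0, nat_lit 0, nat_lit 0, nat_lit 0, nat_lit 0, nat_lit 0, [], [nat_lit 54, nat_lit 40, nat_lit 40, nat_lit 80, nat_lit 43, nat_lit 249, nat_lit 40, nat_lit 7]⟩, ⟨p124_k11, nat_lit 0, nat_lit 0, nat_lit 492, nat_lit 0, nat_lit 784276, [nat_lit 1535976000, nat_lit 2925000000, nat_lit 5556096000], [], [nat_lit 12033979023, nat_lit 12303879999, nat_lit 12910060641,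 nat_lit 13145920587, nat_lit 12936255266, nat_lit 13191318228, nat_lit 13782808850, nat_lit 14014006491], nat_lit 1271250, nat_lit 1271250, nat_lit 1271250, nat_lit 1271250, nat_lit 1100001, nat_lit 2298750, [nat_lit 780000, nat_lit 1435000, nat_lit 1271250], [nat_lit 23, nat_lit 40, nat_lit 40, nat_lit 80, nat_lit 12, nat_lit 483, nat_lit 250, nat_lit 11]⟩,
 ⟨nat_lit 2236, nat_lit 3163, ⟨.ofNat (nat_lit 671514), .ofNat (nat_lit 793619), .ofNat (nat_lit 693606), .ofNat (nat_lit 815720), .ofNat (nat_lit 670673), .ofNat (nat_lit 784902), .ofNat (nat_lit 693384), .ofNat (nat_lit 807623)⟩, ⟨.ofNat (nat_lit 184209), .ofNat (nat_lit 306116), .ofNat (nat_lit 200000), .ofNat (nat_lit 328271), .ofNat (nat_lit 192306), .ofNat (nat_lit 306337), .ofNat (nat_lit 200000), .ofNat (nat_lit 329112)⟩⟩, [⟨nat_lit 7, nat_lit 100, nat_lit 91, nat_lit 91, nat_lit 162449195⟩]⟩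
noncomputable def p124_l15 : Lf2 := ⟨nat_lit 0, nat_lit 30, [nat_lit 15, nat_lit 5, nat_lit 5, nat_lit 20], false, nat_lit 80, nat_lit 160, nat_lit 0, nat_lit 320, ⟨nat_lit 1000, nat_lit 0, nat_lit 0, nat_lit 0, nat_lit 0, nat_lit 0, nat_lit 0, nat_lit 0, nat_lit 0, nat_lit 0, nat_lit 0, nat_lit 0, nat_lit 0, nat_lit 0, nat_lit 0, nat_lit 0, false, false⟩,
 nat_lit 0, nat_lit 0, nat_lit 9305, nat_lit 0, nat_lit 4930, nat_lit 6441, nat_lit 653, nat_lit 0, nat_lit 0, nat_lit 822, nat_lit 0, nat_lit 0, nat_lit 0, nat_lit 0, nat_lit 0, nat_lit 0, nat_lit 0, nat_lit 0, [],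
 ⟨p124_k6, nat_lit 0, nat_lit 0, nat_lit 145, nat_lit 0, nat_lit 0, [nat_lit 938000000, nat_lit 3282000000, nat_lit 9842000000], [], [nat_lit 23475894630, nat_lit 24159828980, nat_lit 27537179240, nat_lit 28369587900, nat_lit 23241466630, nat_lit 23860072530, nat_lit 27077342920, nat_lit 27830172170], nat_lit 0, nat_lit 0, nat_lit 0, nat_lit 0, nat_lit 0, nat_lit 0, [], [nat_lit 93, nat_lit 40, nat_lit 40, nat_lit 80, nat_lit 63, nat_lit 345, nat_lit 125, nat_lit 9]⟩, ⟨p124_k12, nat_lit 0, nat_lit 0, nat_lit 490, nat_lit 0, nat_lit 516785, [nat_lit 3282000000, nat_lit 6250000000, nat_lit 11872000000], [], [nat_lit 29727183204, nat_lit 30485411630, nat_lit 32419903946, nat_lit 33401190206, nat_lit 28120466222, nat_lit 28547016662, nat_lit 29950643744, nat_lit 30599446456], nat_lit 1271250, nat_lit 1271250, nat_lit 1271250, nat_lit 1271250, nat_lit 0, nat_lit 2260000, [nat_lit 780000, nat_lit 1435000, nat_lit 1271250],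 [nat_lit 23, nat_lit 40, nat_lit 40, nat_lit 80, nat_lit 12, nat_lit 483, nat_lit 250, nat_lit 12]⟩,
 zbF0, [⟨nat_lit 7, nat_lit 97, nat_lit 94, nat_lit 100, nat_lit 160284452⟩]⟩
noncomputable def p124_l16 : Lf2 := ⟨nat_lit 0, nat_lit 30, [nat_lit 15, nat_lit 5, nat_lit 5, nat_lit 20], false, nat_lit 80, nat_lit 160, nat_lit 0, nat_lit 320, ⟨nat_lit 910, nat_lit 90, nat_lit 0, nat_lit 7, nat_lit 296, nat_lit 90, nat_lit 108, nat_lit 0, nat_lit 0, nat_lit 0, nat_lit 0, nat_lit 0, nat_lit 39973426, nat_lit 22474367, nat_lit 4552207, nat_lit 4542733, true, false⟩,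
 nat_lit 0, nat_lit 0, nat_lit 8470, nat_lit 0, nat_lit 3477, nat_lit 5863, nat_lit 601, nat_lit 0, nat_lit 0, nat_lit 748, nat_lit 0, nat_lit 0, nat_lit 0, nat_lit 0, nat_lit 0, nat_lit 22500, nat_lit 0, nat_lit 0, [(nat_lit 26, [(nat_lit 0, nat_lit 90)])],
 ⟨p124_k9, nat_lit 0, nat_lit 0, nat_lit 127, nat_lit 0, nat_lit 0, [nat_lit 922484001, nat_lit 3109812000, nat_lit 7477032000], [], [nat_lit 22686764627, nat_lit 23309056976, nat_lit 26268361010, nat_lit 26960610384, nat_lit 23049196246, nat_lit 23615412544, nat_lit 26365883813, nat_lit 26996188838], nat_lit 0, nat_lit 0, nat_lit 0, nat_lit 0, nat_lit 0, nat_lit 0, [], [nat_lit 54, nat_lit 40, nat_lit 40, nat_lit 80, nat_lit 43, nat_lit 249, nat_lit 40, nat_lit 7]⟩, ⟨p124_k12, nat_lit 0, nat_lit 0, nat_lit 529, nat_lit 0, nat_lit 633883, [nat_lit 2986620000, nat_lit 5687500000, nat_lit 10803520000], [], [nat_lit 27048855642, nat_lit 27738915480, nat_lit 29503586508,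 nat_lit 30396668308, nat_lit 25584850216, nat_lit 25972959196, nat_lit 27254307762, nat_lit 27846860808], nat_lit 1271250, nat_lit 1271250, nat_lit 1271250, nat_lit 1271250, nat_lit 0, nat_lit 2260000, [nat_lit 780000, nat_lit 1435000, nat_lit 1271250], [nat_lit 23, nat_lit 40, nat_lit 40, nat_lit 80, nat_lit 12, nat_lit 483, nat_lit 250, nat_lit 12]⟩,
 ⟨nat_lit 2236, nat_lit 2739, ⟨.ofNat (nat_lit 671081), .ofNat (nat_lit 789269), .ofNat (nat_lit 693478), .ofNat (nat_lit 811671), .ofNat (nat_lit 670819), .ofNat (nat_lit 784917), .ofNat (nat_lit 693574), .ofNat (nat_lit 807675)⟩, ⟨.ofNat (nat_lit 200000), .ofNat (nat_lit 328850), .ofNat (nat_lit 200000), .ofNat (nat_lit 351268), .ofNat (nat_lit 200000), .ofNat (nat_lit 329112), .ofNat (nat_lit 200000), .ofNat (nat_lit 351886)⟩⟩, [⟨nat_lit 7, nat_lit 97, nat_lit 94, nat_lit 100, nat_lit 150219870⟩]⟩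
noncomputable def b_V_900_700_20_32 : St := ⟨true, nat_lit 0, nat_lit 1, nat_lit 1, nat_lit 120, nat_lit 360, nat_lit 380, nat_lit 280, nat_lit 320, nat_lit 240, nat_lit 320, nat_lit 80, nat_lit 120, nat_lit 80, nat_lit 160, nat_lit 0, nat_lit 336, nat_lit 80, nat_lit 120, nat_lit 0, nat_lit 0, nat_lit 0, nat_lit 0⟩
theorem d_V_900_700_20_32 (h : EB TB.env) : Dead b_V_900_700_20_32 := chkB_sound0 h (T :=
(.spl (nat_lit 1) (nat_lit 300)
(.spl (nat_lit 3) (nat_lit 100)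
(.trX (nat_lit 19) (nat_lit 100) (nat_lit 88) (nat_lit 94) (nat_lit 320) (.spl (nat_lit 5) (nat_lit 160)
(.leaf p124_l0)
(.spl (nat_lit 0) (nat_lit 370)
(.leaf p124_l1)
(.spl (nat_lit 1) (nat_lit 290)
(.spl (nat_lit 0) (nat_lit 375)
(.leaf p124_l2)
(.spl (nat_lit 1) (nat_lit 285)
(.leaf p124_l3)
(.trX (nat_lit 19) (nat_lit 100) (nat_lit 91) (nat_lit 96) (nat_lit 316) (.leaf p124_l4))))
(.trX (nat_lit 19) (nat_lit 100) (nat_lit 94) (nat_lit 97) (nat_lit 312) (.spl (nat_lit 0) (nat_lit 375)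
(.leaf p124_l5)
(.leaf p124_l6)))))))
(.spl (nat_lit 0) (nat_lit 370)
(.spl (nat_lit 0) (nat_lit 365)
(.leaf p124_l7)
(.leaf p124_l8))
(.spl (nat_lit 5) (nat_lit 160)
(.leaf p124_l9)
(.spl (nat_lit 6) (nat_lit 100)
(.leaf p124_l10)
(.spl (nat_lit 1) (nat_lit 290)
(.leaf p124_l11)
(.trX (nat_lit 19) (nat_lit 97) (nat_lit 84) (nat_lit 100) (nat_lit 328) (.leaf p124_l12)))))))
(.trX (nat_lit 19) (nat_lit 94) (nat_lit 88) (nat_lit 100) (nat_lit 320) (.spl (nat_lit 3) (nat_lit 100)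
(.trX (nat_lit 19) (nat_lit 100) (nat_lit 100) (nat_lit 100) (nat_lit 300) (.spl (nat_lit 5) (nat_lit 160)
(.leaf p124_l13)
(.leaf p124_l14)))
(.spl (nat_lit 0) (nat_lit 370)
(.leaf p124_l15)
(.leaf p124_l16)))))) (by decide +kernel)
noncomputable def p124_l17 : Lf2 := ⟨nat_lit 0, nat_lit 25, [nat_lit 44, nat_lit 5, nat_lit 5, nat_lit 20], false, nat_lit 80, nat_lit 160, nat_lit 0, nat_lit 336, ⟨nat_lit 118, nat_lit 882, nat_lit 0, nat_lit 7, nat_lit 275, nat_lit 882, nat_lit 105, nat_lit 0, nat_lit 0, nat_lit 0, nat_lit 0, nat_lit 0, nat_lit 41999547, nat_lit 20494356, nat_lit 4506097, nat_lit 4433890, true, false⟩,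
 nat_lit 0, nat_lit 0, nat_lit 1435, nat_lit 0, nat_lit 3032, nat_lit 913, nat_lit 27, nat_lit 0, nat_lit 0, nat_lit 81, nat_lit 0, nat_lit 0, nat_lit 0, nat_lit 0, nat_lit 0, nat_lit 352800, nat_lit 0, nat_lit 0, [(nat_lit 29, [(nat_lit 1, nat_lit 882)])],
 ⟨p124_k13, nat_lit 0, nat_lit 0, nat_lit 0, nat_lit 0, nat_lit 0, [nat_lit 726672800, nat_lit 680100000, nat_lit 820408000], [], [nat_lit 23143811407, nat_lit 23769728679, nat_lit 24527649007, nat_lit 25107246695, nat_lit 23697925199, nat_lit 24267389703, nat_lit 24967774079, nat_lit 25496502751], nat_lit 0, nat_lit 0, nat_lit 0, nat_lit 0, nat_lit 0, nat_lit 0, [], [nat_lit 20, nat_lit 40, nat_lit 40, nat_lit 80]⟩, ⟨p124_k1, nat_lit 0, nat_lit 0, nat_lit 659, nat_lit 0, nat_lit 888058, [nat_lit 387276000, nat_lit 737500000, nat_lit 1400896000], [], [nat_lit 4095584518, nat_lit 4145947322, nat_lit 4155255706, nat_lit 4213738202, nat_lit 3615068773, nat_lit 3648526894,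 nat_lit 3647506725, nat_lit 3679593694], nat_lit 1271250, nat_lit 1271250, nat_lit 1271250, nat_lit 1271250, nat_lit 0, nat_lit 2373000, [nat_lit 780000, nat_lit 1435000, nat_lit 1271250], [nat_lit 23, nat_lit 40, nat_lit 40, nat_lit 80, nat_lit 12, nat_lit 483, nat_lit 250, nat_lit 12]⟩,
 ⟨nat_lit 1581, nat_lit 2237, ⟨.ofNat (nat_lit 648016), .ofNat (nat_lit 705117), .ofNat (nat_lit 670745), .ofNat (nat_lit 727846), .ofNat (nat_lit 647799), .ofNat (nat_lit 702521), .ofNat (nat_lit 671069), .ofNat (nat_lit 725790)⟩, ⟨.ofNat (nat_lit 192306), .ofNat (nat_lit 306337), .ofNat (nat_lit 200000), .ofNat (nat_lit 351886), .ofNat (nat_lit 196201), .ofNat (nat_lit 305473), .ofNat (nat_lit 200000), .ofNat (nat_lit 352103)⟩⟩, [⟨nat_lit 7, nat_lit 94, nat_lit 100, nat_lit 97, nat_lit 14754433⟩]⟩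
noncomputable def p124_l18 : Lf2 := ⟨nat_lit 0, nat_lit 25, [nat_lit 44, nat_lit 5, nat_lit 5, nat_lit 20], true, nat_lit 80, nat_lit 160, nat_lit 0, nat_lit 336, ⟨nat_lit 0, nat_lit 1000, nat_lit 0, nat_lit 7, nat_lit 274, nat_lit 1000, nat_lit 105, nat_lit 0, nat_lit 0, nat_lit 0, nat_lit 0, nat_lit 0, nat_lit 42043407, nat_lit 20449500, nat_lit 4507093, nat_lit 4431573, true, false⟩,
 nat_lit 0, nat_lit 0, nat_lit 0, nat_lit 0, nat_lit 2645, nat_lit 0, nat_lit 0, nat_lit 0, nat_lit 0, nat_lit 0, nat_lit 0, nat_lit 0, nat_lit 0, nat_lit 0, nat_lit 0, nat_lit 250000, nat_lit 0, nat_lit 0, [(nat_lit 29, [(nat_lit 0, nat_lit 1000)])],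
 ⟨p124_k14, nat_lit 0, nat_lit 0, nat_lit 0, nat_lit 0, nat_lit 0, [nat_lit 781600001, nat_lit 1046000001, nat_lit 1376400000], [], [nat_lit 23853442426, nat_lit 24465230121, nat_lit 25217244546, nat_lit 25796724100, nat_lit 24590043091, nat_lit 25147390661, nat_lit 25847122856, nat_lit 26365702381], nat_lit 0, nat_lit 0, nat_lit 0, nat_lit 0, nat_lit 0, nat_lit 0, [], [nat_lit 35, nat_lit 40, nat_lit 40, nat_lit 80]⟩, C1.Rw.none,
 ⟨nat_lit 0, nat_lit 1582, ⟨.ofNat (nat_lit 646579), .ofNat (nat_lit 702515), .ofNat (nat_lit 669237), .ofNat (nat_lit 725184), .ofNat (nat_lit 648683), .ofNat (nat_lit 699984), .ofNat (nat_lit 673026), .ofNat (nat_lit 724337)⟩, ⟨.ofNat (nat_lit 196201), .ofNat (nat_lit 305469), .ofNat (nat_lit 200000), .ofNat (nat_lit 352101), .ofNat (nat_lit 199999), .ofNat (nat_lit 299995), .ofNat (nat_lit 200000), .ofNat (nat_lit 349997)⟩⟩, []⟩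
noncomputable def p124_l19 : Lf2 := ⟨nat_lit 0, nat_lit 25, [nat_lit 44, nat_lit 5, nat_lit 5, nat_lit 20], false, nat_lit 80, nat_lit 160, nat_lit 0, nat_lit 160, ⟨nat_lit 282, nat_lit 718, nat_lit 0, nat_lit 7, nat_lit 297, nat_lit 718, nat_lit 105, nat_lit 0, nat_lit 0, nat_lit 0, nat_lit 0, nat_lit 0, nat_lit 39992427, nat_lit 22635520, nat_lit 4372053, nat_lit 4514369, true, true⟩,
 nat_lit 0, nat_lit 0, nat_lit 3199, nat_lit 0, nat_lit 2674, nat_lit 2035, nat_lit 137, nat_lit 0, nat_lit 0, nat_lit 218, nat_lit 0, nat_lit 0, nat_lit 0, nat_lit 0, nat_lit 0, nat_lit 287200, nat_lit 0, nat_lit 0, [(nat_lit 29, [(nat_lit 1, nat_lit 718)])],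
 ⟨p124_k13, nat_lit 0, nat_lit 0, nat_lit 0, nat_lit 0, nat_lit 0, [nat_lit 765967200, nat_lit 1163900001, nat_lit 1829992000], [], [nat_lit 24310818749, nat_lit 24860761865, nat_lit 25828335793, nat_lit 26336699396, nat_lit 24913224629, nat_lit 25406103153, nat_lit 26289970145, nat_lit 26746252247], nat_lit 0, nat_lit 0, nat_lit 0, nat_lit 0, nat_lit 0, nat_lit 0, [], [nat_lit 20, nat_lit 40, nat_lit 40, nat_lit 80]⟩, ⟨p124_k1, nat_lit 0, nat_lit 0, nat_lit 652, nat_lit 0, nat_lit 888058, [nat_lit 925524000, nat_lit 1762500000, nat_lit 3347904000], [], [nat_lit 9908115488, nat_lit 10039093900, nat_lit 10190956230, nat_lit 10324157610, nat_lit 8649561230, nat_lit 8773050446, nat_lit 8896539662, nat_lit 9005695260], nat_lit 1271250, nat_lit 1271250, nat_lit 1271250, nat_lit 1271250, nat_lit 0, nat_lit 1100001, [nat_lit 780000, nat_lit 1435000, nat_lit 1271250], [nat_lit 23, nat_lit 40, nat_lit 40, nat_lit 80, nat_lit 12,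 nat_lit 428, nat_lit 200, nat_lit 10]⟩,
 ⟨nat_lit 1581, nat_lit 2237, ⟨.ofNat (nat_lit 705117), .ofNat (nat_lit 762142), .ofNat (nat_lit 727846), .ofNat (nat_lit 784917), .ofNat (nat_lit 702521), .ofNat (nat_lit 757166), .ofNat (nat_lit 725790), .ofNat (nat_lit 780481)⟩, ⟨.ofNat (nat_lit 192306), .ofNat (nat_lit 306337), .ofNat (nat_lit 200000), .ofNat (nat_lit 351886), .ofNat (nat_lit 196201), .ofNat (nat_lit 305473), .ofNat (nat_lit 200000), .ofNat (nat_lit 352103)⟩⟩, [⟨nat_lit 4, nat_lit 100, nat_lit 38, nat_lit 87, nat_lit 234540334⟩]⟩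
noncomputable def p124_l20 : Lf2 := ⟨nat_lit 0, nat_lit 25, [nat_lit 44, nat_lit 5, nat_lit 5, nat_lit 20], false, nat_lit 80, nat_lit 160, nat_lit 160, nat_lit 320, ⟨nat_lit 286, nat_lit 714, nat_lit 0, nat_lit 7, nat_lit 295, nat_lit 714, nat_lit 103, nat_lit 0, nat_lit 0, nat_lit 0, nat_lit 0, nat_lit 0, nat_lit 40265282, nat_lit 22493054, nat_lit 4241664, nat_lit 4481781, true, true⟩,
 nat_lit 0, nat_lit 0, nat_lit 3371, nat_lit 0, nat_lit 2685, nat_lit 2145, nat_lit 148, nat_lit 0, nat_lit 0, nat_lit 210, nat_lit 0, nat_lit 0, nat_lit 0, nat_lit 0, nat_lit 0, nat_lit 285600, nat_lit 0, nat_lit 0, [(nat_lit 29, [(nat_lit 1, nat_lit 714)])],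
 ⟨p124_k13, nat_lit 0, nat_lit 0, nat_lit 0, nat_lit 0, nat_lit 0, [nat_lit 766925600, nat_lit 1175700000, nat_lit 1854616000], [], [nat_lit 24211756560, nat_lit 24487183705, nat_lit 25738877520, nat_lit 26046803255, nat_lit 24805988860, nat_lit 25052813265, nat_lit 26184053650, nat_lit 26413010203], nat_lit 0, nat_lit 0, nat_lit 0, nat_lit 0, nat_lit 0, nat_lit 0, [], [nat_lit 20, nat_lit 40, nat_lit 40, nat_lit 80]⟩, ⟨p124_k1, nat_lit 0, nat_lit 0, nat_lit 421, nat_lit 0, nat_lit 729606, [nat_lit 938652000, nat_lit 1787500000, nat_lit 3395392000], [], [nat_lit 8282258952, nat_lit 8341283203, nat_lit 8518355956, nat_lit 8569152988, nat_lit 8633621194, nat_lit 8687162825, nat_lit 8847787718, nat_lit 8893578606], nat_lit 1271250, nat_lit 1271250, nat_lit 1271250, nat_lit 1271250, nat_lit 1100001, nat_lit 2470000, [nat_lit 780000, nat_lit 1435000, nat_lit 1271250], [nat_lit 23, nat_lit 40, nat_lit 40, nat_lit 80, nat_lit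 12, nat_lit 483, nat_lit 250, nat_lit 11]⟩,
 ⟨nat_lit 1936, nat_lit 2237, ⟨.ofNat (nat_lit 705125), .ofNat (nat_lit 762142), .ofNat (nat_lit 716508), .ofNat (nat_lit 773529), .ofNat (nat_lit 703818), .ofNat (nat_lit 759709), .ofNat (nat_lit 715319), .ofNat (nat_lit 771215)⟩, ⟨.ofNat (nat_lit 192306), .ofNat (nat_lit 306337), .ofNat (nat_lit 200000), .ofNat (nat_lit 329112), .ofNat (nat_lit 194266), .ofNat (nat_lit 306044), .ofNat (nat_lit 200000), .ofNat (nat_lit 329055)⟩⟩, [⟨nat_lit 4, nat_lit 100, nat_lit 41, nat_lit 85, nat_lit 213764586⟩, ⟨nat_lit 19, nat_lit 100, nat_lit 94, nat_lit 92, nat_lit 80757424⟩]⟩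
noncomputable def p124_l21 : Lf2 := ⟨nat_lit 0, nat_lit 25, [nat_lit 44, nat_lit 5, nat_lit 5, nat_lit 20], false, nat_lit 80, nat_lit 160, nat_lit 160, nat_lit 320, ⟨nat_lit 259, nat_lit 741, nat_lit 0, nat_lit 7, nat_lit 295, nat_lit 741, nat_lit 103, nat_lit 0, nat_lit 0, nat_lit 0, nat_lit 0, nat_lit 0, nat_lit 40324657, nat_lit 22421190, nat_lit 4254153, nat_lit 4481045, true, true⟩,
 nat_lit 0, nat_lit 0, nat_lit 3057, nat_lit 0, nat_lit 2795, nat_lit 1945, nat_lit 204, nat_lit 0, nat_lit 0, nat_lit 190, nat_lit 0, nat_lit 0, nat_lit 0, nat_lit 0, nat_lit 0, nat_lit 185250, nat_lit 0, nat_lit 0, [(nat_lit 29, [(nat_lit 0, nat_lit 741)])],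
 ⟨p124_k15, nat_lit 0, nat_lit 0, nat_lit 0, nat_lit 0, nat_lit 0, [nat_lit 822107601, nat_lit 1625124001, nat_lit 2942472400], [], [nat_lit 24764477835, nat_lit 25044460850, nat_lit 26277673953, nat_lit 26535487815, nat_lit 25293265156, nat_lit 25543940991, nat_lit 26665673744, nat_lit 26897500636], nat_lit 0, nat_lit 0, nat_lit 0, nat_lit 0, nat_lit 0, nat_lit 0, [], [nat_lit 20, nat_lit 40, nat_lit 40, nat_lit 80]⟩, ⟨p124_k1, nat_lit 0, nat_lit 0, nat_lit 495, nat_lit 0, nat_lit 805156, [nat_lit 850038000, nat_lit 1618750000, nat_lit 3074848000], [], [nat_lit 7496419508, nat_lit 7549873272, nat_lit 7710234564, nat_lit 7756230007, nat_lit 7812642306, nat_lit 7861126065, nat_lit 8006577342, nat_lit 8048034749], nat_lit 1271250, nat_lit 1271250, nat_lit 1271250, nat_lit 1271250, nat_lit 1100001, nat_lit 2470000, [nat_lit 780000, nat_lit 1435000, nat_lit 1271250], [nat_lit 23, nat_lit 40, nat_lit 40, nat_lit 80, nat_lit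 12, nat_lit 483, nat_lit 250, nat_lit 11]⟩,
 ⟨nat_lit 1581, nat_lit 1937, ⟨.ofNat (nat_lit 703818), .ofNat (nat_lit 759709), .ofNat (nat_lit 715317), .ofNat (nat_lit 771215), .ofNat (nat_lit 702528), .ofNat (nat_lit 757166), .ofNat (nat_lit 714179), .ofNat (nat_lit 768823)⟩, ⟨.ofNat (nat_lit 194266), .ofNat (nat_lit 306044), .ofNat (nat_lit 200000), .ofNat (nat_lit 329055), .ofNat (nat_lit 196201), .ofNat (nat_lit 305473), .ofNat (nat_lit 200000), .ofNat (nat_lit 328788)⟩⟩, [⟨nat_lit 4, nat_lit 100, nat_lit 36, nat_lit 86, nat_lit 220785266⟩, ⟨nat_lit 7, nat_lit 94, nat_lit 100, nat_lit 92, nat_lit 73236423⟩]⟩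
noncomputable def p124_l22 : Lf2 := ⟨nat_lit 0, nat_lit 25, [nat_lit 44, nat_lit 5, nat_lit 5, nat_lit 20], false, nat_lit 80, nat_lit 160, nat_lit 160, nat_lit 336, ⟨nat_lit 434, nat_lit 566, nat_lit 0, nat_lit 7, nat_lit 295, nat_lit 566, nat_lit 108, nat_lit 0, nat_lit 0, nat_lit 0, nat_lit 0, nat_lit 0, nat_lit 40071151, nat_lit 22367022, nat_lit 4561827, nat_lit 4539764, true, true⟩,
 nat_lit 0, nat_lit 0, nat_lit 3993, nat_lit 0, nat_lit 2753, nat_lit 2540, nat_lit 217, nat_lit 0, nat_lit 0, nat_lit 347, nat_lit 0, nat_lit 0, nat_lit 0, nat_lit 0, nat_lit 0, nat_lit 226400, nat_lit 0, nat_lit 0, [(nat_lit 29, [(nat_lit 1, nat_lit 566)])],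
 ⟨p124_k13, nat_lit 0, nat_lit 0, nat_lit 0, nat_lit 0, nat_lit 0, [nat_lit 802386400, nat_lit 1612300001, nat_lit 2765704000], [], [nat_lit 24347017153, nat_lit 24903504155, nat_lit 25876187171, nat_lit 26466184662, nat_lit 24920258013, nat_lit 25418668591, nat_lit 26306478315, nat_lit 26774766507], nat_lit 0, nat_lit 0, nat_lit 0, nat_lit 0, nat_lit 0, nat_lit 0, [], [nat_lit 20, nat_lit 40, nat_lit 40, nat_lit 80]⟩, ⟨p124_k1, nat_lit 0, nat_lit 0, nat_lit 387, nat_lit 0, nat_lit 632573, [nat_lit 1424388000, nat_lit 2712500000, nat_lit 5152448000], [], [nat_lit 12995371042, nat_lit 13110032182, nat_lit 13454015602, nat_lit 13555781540, nat_lit 14159590366, nat_lit 14260234707, nat_lit 14562167733, nat_lit 14659706281], nat_lit 1271250, nat_lit 1271250, nat_lit 1271250, nat_lit 1271250, nat_lit 1100001, nat_lit 2607000, [nat_lit 780000, nat_lit 1435000, nat_lit 1271250], [nat_lit 23, nat_lit 40, nat_lit 40, nat_lit 80,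 nat_lit 12, nat_lit 483, nat_lit 250, nat_lit 11]⟩,
 ⟨nat_lit 1581, nat_lit 2237, ⟨.ofNat (nat_lit 705117), .ofNat (nat_lit 762142), .ofNat (nat_lit 716482), .ofNat (nat_lit 773529), .ofNat (nat_lit 702521), .ofNat (nat_lit 757166), .ofNat (nat_lit 714155), .ofNat (nat_lit 768823)⟩, ⟨.ofNat (nat_lit 200000), .ofNat (nat_lit 329112), .ofNat (nat_lit 200000), .ofNat (nat_lit 351886), .ofNat (nat_lit 200000), .ofNat (nat_lit 328788), .ofNat (nat_lit 200000), .ofNat (nat_lit 352103)⟩⟩, [⟨nat_lit 19, nat_lit 100, nat_lit 87, nat_lit 99, nat_lit 131471086⟩]⟩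
noncomputable def p124_l23 : Lf2 := ⟨nat_lit 0, nat_lit 25, [nat_lit 44, nat_lit 5, nat_lit 5, nat_lit 20], false, nat_lit 80, nat_lit 160, nat_lit 160, nat_lit 328, ⟨nat_lit 350, nat_lit 650, nat_lit 0, nat_lit 7, nat_lit 300, nat_lit 650, nat_lit 105, nat_lit 0, nat_lit 0, nat_lit 0, nat_lit 0, nat_lit 0, nat_lit 39761485, nat_lit 22887155, nat_lit 4351360, nat_lit 4521221, true, true⟩,
 nat_lit 0, nat_lit 0, nat_lit 3601, nat_lit 0, nat_lit 2718, nat_lit 2391, nat_lit 179, nat_lit 0, nat_lit 0, nat_lit 261, nat_lit 0, nat_lit 0, nat_lit 0, nat_lit 0, nat_lit 0, nat_lit 260000, nat_lit 0, nat_lit 0, [(nat_lit 29, [(nat_lit 1, nat_lit 650)])],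
 ⟨p124_k13, nat_lit 0, nat_lit 0, nat_lit 0, nat_lit 0, nat_lit 0, [nat_lit 782260000, nat_lit 1364500001, nat_lit 2248600000], [], [nat_lit 24257125743, nat_lit 24533919649, nat_lit 25789783056, nat_lit 26099300414, nat_lit 24839296503, nat_lit 25087276337, nat_lit 26221319115, nat_lit 26450800472], nat_lit 0, nat_lit 0, nat_lit 0, nat_lit 0, nat_lit 0, nat_lit 0, [], [nat_lit 20, nat_lit 40, nat_lit 40, nat_lit 80]⟩, ⟨p124_k5, nat_lit 0, nat_lit 0, nat_lit 476, nat_lit 0, nat_lit 763453, [nat_lit 1148700000, nat_lit 2187500000, nat_lit 4155200000], [], [nat_lit 9957585677, nat_lit 10058770505, nat_lit 10350525594, nat_lit 10439911027, nat_lit 10698185589, nat_lit 10762016280, nat_lit 10944859802, nat_lit 11000041943], nat_lit 1271250, nat_lit 1271250, nat_lit 1271250, nat_lit 1271250, nat_lit 1100001, nat_lit 2538500, [nat_lit 780000, nat_lit 1435000, nat_lit 1271250], [nat_lit 23, nat_lit 40, nat_lit 40, nat_lit 80,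 nat_lit 12, nat_lit 483, nat_lit 250, nat_lit 11]⟩,
 ⟨nat_lit 1936, nat_lit 2237, ⟨.ofNat (nat_lit 716508), .ofNat (nat_lit 773529), .ofNat (nat_lit 727891), .ofNat (nat_lit 784917), .ofNat (nat_lit 715319), .ofNat (nat_lit 771215), .ofNat (nat_lit 726821), .ofNat (nat_lit 782720)⟩, ⟨.ofNat (nat_lit 192306), .ofNat (nat_lit 306337), .ofNat (nat_lit 200000), .ofNat (nat_lit 351886), .ofNat (nat_lit 194266), .ofNat (nat_lit 306044), .ofNat (nat_lit 200000), .ofNat (nat_lit 352066)⟩⟩, [⟨nat_lit 4, nat_lit 100, nat_lit 41, nat_lit 87, nat_lit 187692769⟩, ⟨nat_lit 7, nat_lit 97, nat_lit 100, nat_lit 98, nat_lit 97749958⟩]⟩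
noncomputable def p124_l24 : Lf2 := ⟨nat_lit 0, nat_lit 25, [nat_lit 44, nat_lit 5, nat_lit 5, nat_lit 20], false, nat_lit 80, nat_lit 160, nat_lit 160, nat_lit 328, ⟨nat_lit 320, nat_lit 680, nat_lit 0, nat_lit 7, nat_lit 299, nat_lit 680, nat_lit 105, nat_lit 0, nat_lit 0, nat_lit 0, nat_lit 0, nat_lit 0, nat_lit 39814337, nat_lit 22820296, nat_lit 4365367, nat_lit 4521129, true, true⟩,
 nat_lit 0, nat_lit 0, nat_lit 3293, nat_lit 0, nat_lit 2816, nat_lit 2186, nat_lit 230, nat_lit 0, nat_lit 0, nat_lit 238, nat_lit 0, nat_lit 0, nat_lit 0, nat_lit 0, nat_lit 0, nat_lit 170000, nat_lit 0, nat_lit 0, [(nat_lit 29, [(nat_lit 0, nat_lit 680)])],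
 ⟨p124_k15, nat_lit 0, nat_lit 0, nat_lit 0, nat_lit 0, nat_lit 0, [nat_lit 831648001, nat_lit 1761520001, nat_lit 3214752000], [], [nat_lit 24721908388, nat_lit 25002761160, nat_lit 26255201068, nat_lit 26569445064, nat_lit 25242667845, nat_lit 25494078953, nat_lit 26617499465, nat_lit 26849966049], nat_lit 0, nat_lit 0, nat_lit 0, nat_lit 0, nat_lit 0, nat_lit 0, [], [nat_lit 20, nat_lit 40, nat_lit 40, nat_lit 80]⟩, ⟨p124_k5, nat_lit 0, nat_lit 0, nat_lit 504, nat_lit 0, nat_lit 834205, [nat_lit 1050240000, nat_lit 2000000000, nat_lit 3799040000], [], [nat_lit 9111916502, nat_lit 9204427750, nat_lit 9471173704, nat_lit 9552897162, nat_lit 9789045879, nat_lit 9847405480, nat_lit 10014577202, nat_lit 10065029722], nat_lit 1271250, nat_lit 1271250, nat_lit 1271250, nat_lit 1271250, nat_lit 1100001, nat_lit 2538500, [nat_lit 780000, nat_lit 1435000, nat_lit 1271250], [nat_lit 23, nat_lit 40, nat_lit 40, nat_lit 80, nat_lit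 12, nat_lit 483, nat_lit 250, nat_lit 11]⟩,
 ⟨nat_lit 1581, nat_lit 1937, ⟨.ofNat (nat_lit 715317), .ofNat (nat_lit 771215), .ofNat (nat_lit 726815), .ofNat (nat_lit 782720), .ofNat (nat_lit 714179), .ofNat (nat_lit 768823), .ofNat (nat_lit 725829), .ofNat (nat_lit 780481)⟩, ⟨.ofNat (nat_lit 194266), .ofNat (nat_lit 306044), .ofNat (nat_lit 200000), .ofNat (nat_lit 352066), .ofNat (nat_lit 196201), .ofNat (nat_lit 305473), .ofNat (nat_lit 200000), .ofNat (nat_lit 352103)⟩⟩, [⟨nat_lit 4, nat_lit 100, nat_lit 35, nat_lit 88, nat_lit 182142505⟩, ⟨nat_lit 19, nat_lit 100, nat_lit 97, nat_lit 98, nat_lit 89409915⟩]⟩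
noncomputable def p124_l25 : Lf2 := ⟨nat_lit 0, nat_lit 25, [nat_lit 44, nat_lit 5, nat_lit 5, nat_lit 20], false, nat_lit 80, nat_lit 160, nat_lit 0, nat_lit 336, ⟨nat_lit 105, nat_lit 895, nat_lit 0, nat_lit 7, nat_lit 292, nat_lit 895, nat_lit 105, nat_lit 0, nat_lit 0, nat_lit 0, nat_lit 0, nat_lit 0, nat_lit 40450251, nat_lit 22147686, nat_lit 4402063, nat_lit 4498113, true, true⟩,
 nat_lit 0, nat_lit 0, nat_lit 1280, nat_lit 0, nat_lit 2941, nat_lit 814, nat_lit 34, nat_lit 0, nat_lit 0, nat_lit 65, nat_lit 0, nat_lit 0, nat_lit 0, nat_lit 0, nat_lit 0, nat_lit 223750, nat_lit 0, nat_lit 0, [(nat_lit 29, [(nat_lit 0, nat_lit 895)])],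
 ⟨p124_k14, nat_lit 0, nat_lit 0, nat_lit 0, nat_lit 0, nat_lit 0, [nat_lit 798022000, nat_lit 1280780001, nat_lit 1724118000], [], [nat_lit 25318996717, nat_lit 25871919530, nat_lit 26864259383, nat_lit 27421032038, nat_lit 25882948287, nat_lit 26373464947, nat_lit 27213607682, nat_lit 27718153126], nat_lit 0, nat_lit 0, nat_lit 0, nat_lit 0, nat_lit 0, nat_lit 0, [], [nat_lit 35, nat_lit 40, nat_lit 40, nat_lit 80]⟩, ⟨p124_k1, nat_lit 0, nat_lit 0, nat_lit 676, nat_lit 0, nat_lit 956415, [nat_lit 344610000, nat_lit 656250000, nat_lit 1246560000], [], [nat_lit 3892359286, nat_lit 3899249157, nat_lit 3954571398, nat_lit 3969828595, nat_lit 3381691902, nat_lit 3385737975, nat_lit 3415192108, nat_lit 3421980113], nat_lit 1271250, nat_lit 1271250, nat_lit 1271250, nat_lit 1271250, nat_lit 0, nat_lit 2373000, [nat_lit 780000, nat_lit 1435000, nat_lit 1271250], [nat_lit 23, nat_lit 40, nat_lit 40, nat_lit 80, nat_lit 12, nat_lit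 483, nat_lit 250, nat_lit 12]⟩,
 ⟨nat_lit 0, nat_lit 1582, ⟨.ofNat (nat_lit 702515), .ofNat (nat_lit 757165), .ofNat (nat_lit 708190), .ofNat (nat_lit 762994), .ofNat (nat_lit 699984), .ofNat (nat_lit 749998), .ofNat (nat_lit 706080), .ofNat (nat_lit 756248)⟩, ⟨.ofNat (nat_lit 196201), .ofNat (nat_lit 305469), .ofNat (nat_lit 200000), .ofNat (nat_lit 352101), .ofNat (nat_lit 199999), .ofNat (nat_lit 299995), .ofNat (nat_lit 200000), .ofNat (nat_lit 349997)⟩⟩, [⟨nat_lit 13, nat_lit 24, nat_lit 87, nat_lit 100, nat_lit 343089278⟩, ⟨nat_lit 19, nat_lit 100, nat_lit 89, nat_lit 95, nat_lit 8011201⟩, ⟨nat_lit 22, nat_lit 94, nat_lit 88, nat_lit 100, nat_lit 4388455⟩]⟩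
noncomputable def p124_l26 : Lf2 := ⟨nat_lit 0, nat_lit 25, [nat_lit 44, nat_lit 5, nat_lit 5, nat_lit 20], false, nat_lit 80, nat_lit 160, nat_lit 0, nat_lit 332, ⟨nat_lit 117, nat_lit 883, nat_lit 0, nat_lit 7, nat_lit 295, nat_lit 883, nat_lit 105, nat_lit 0, nat_lit 0, nat_lit 0, nat_lit 0, nat_lit 0, nat_lit 40238067, nat_lit 22374494, nat_lit 4387439, nat_lit 4505695, true, true⟩,
 nat_lit 0, nat_lit 0, nat_lit 1349, nat_lit 0, nat_lit 2946, nat_lit 877, nat_lit 38, nat_lit 0, nat_lit 0, nat_lit 74, nat_lit 0, nat_lit 0, nat_lit 0, nat_lit 0, nat_lit 0, nat_lit 220750, nat_lit 0, nat_lit 0, [(nat_lit 29, [(nat_lit 0, nat_lit 883)])],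
 ⟨p124_k14, nat_lit 0, nat_lit 0, nat_lit 0, nat_lit 0, nat_lit 0, [nat_lit 799898801, nat_lit 1307612001, nat_lit 1763857200], [], [nat_lit 25314409848, nat_lit 25872959130, nat_lit 26865623148, nat_lit 27423550136, nat_lit 25876725268, nat_lit 26367573228, nat_lit 27208367096, nat_lit 27717847506], nat_lit 0, nat_lit 0, nat_lit 0, nat_lit 0, nat_lit 0, nat_lit 0, [], [nat_lit 35, nat_lit 40, nat_lit 40, nat_lit 80]⟩, ⟨p124_k4, nat_lit 0, nat_lit 0, nat_lit 674, nat_lit 0, nat_lit 953521, [nat_lit 383994000, nat_lit 731250000, nat_lit 1389024000], [], [nat_lit 4185114216, nat_lit 4196820321, nat_lit 4277184760, nat_lit 4287312565, nat_lit 3738791745, nat_lit 3743589600, nat_lit 3776164126, nat_lit 3781039750], nat_lit 1271250, nat_lit 1271250, nat_lit 1271250, nat_lit 1271250, nat_lit 0, nat_lit 2344750, [nat_lit 780000, nat_lit 1435000, nat_lit 1271250], [nat_lit 23, nat_lit 40, nat_lit 40, nat_lit 80, nat_lit 12, nat_lit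 483, nat_lit 250, nat_lit 12]⟩,
 ⟨nat_lit 0, nat_lit 1582, ⟨.ofNat (nat_lit 708190), .ofNat (nat_lit 762994), .ofNat (nat_lit 713855), .ofNat (nat_lit 768823), .ofNat (nat_lit 706080), .ofNat (nat_lit 756248), .ofNat (nat_lit 712166), .ofNat (nat_lit 762499)⟩, ⟨.ofNat (nat_lit 196201), .ofNat (nat_lit 305469), .ofNat (nat_lit 200000), .ofNat (nat_lit 352101), .ofNat (nat_lit 199999), .ofNat (nat_lit 299995), .ofNat (nat_lit 200000), .ofNat (nat_lit 349997)⟩⟩, [⟨nat_lit 13, nat_lit 25, nat_lit 87, nat_lit 100, nat_lit 341533923⟩, ⟨nat_lit 7, nat_lit 92, nat_lit 100, nat_lit 96, nat_lit 13941686⟩, ⟨nat_lit 22, nat_lit 94, nat_lit 88, nat_lit 100, nat_lit 1096207⟩]⟩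
noncomputable def p124_l27 : Lf2 := ⟨nat_lit 0, nat_lit 25, [nat_lit 44, nat_lit 5, nat_lit 5, nat_lit 20], false, nat_lit 80, nat_lit 160, nat_lit 0, nat_lit 328, ⟨nat_lit 178, nat_lit 822, nat_lit 0, nat_lit 7, nat_lit 297, nat_lit 822, nat_lit 105, nat_lit 0, nat_lit 0, nat_lit 0, nat_lit 0, nat_lit 0, nat_lit 40026642, nat_lit 22600635, nat_lit 4372723, nat_lit 4512954, true, true⟩,
 nat_lit 0, nat_lit 0, nat_lit 1933, nat_lit 0, nat_lit 2827, nat_lit 1283, nat_lit 0, nat_lit 0, nat_lit 0, nat_lit 115, nat_lit 0, nat_lit 0, nat_lit 0, nat_lit 0, nat_lit 0, nat_lit 205500, nat_lit 0, nat_lit 0, [(nat_lit 29, [(nat_lit 0, nat_lit 822)])],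
 ⟨p124_k16, nat_lit 0, nat_lit 0, nat_lit 0, nat_lit 0, nat_lit 0, [nat_lit 809439201, nat_lit 993320801, nat_lit 1965864800], [], [nat_lit 25830530754, nat_lit 26426698460, nat_lit 27411647351, nat_lit 27959419136, nat_lit 26438863609, nat_lit 26942231766, nat_lit 27822544171, nat_lit 28303891770], nat_lit 0, nat_lit 0, nat_lit 0, nat_lit 0, nat_lit 0, nat_lit 0, [], [nat_lit 152, nat_lit 40, nat_lit 40, nat_lit 80]⟩, ⟨p124_k5, nat_lit 0, nat_lit 0, nat_lit 673, nat_lit 0, nat_lit 951559, [nat_lit 584196000, nat_lit 1112500000, nat_lit 2113216000], [], [nat_lit 6301609954, nat_lit 6319400464, nat_lit 6439281710, nat_lit 6454746060, nat_lit 5661094828, nat_lit 5668855269, nat_lit 5720174959, nat_lit 5727508514], nat_lit 1271250, nat_lit 1271250, nat_lit 1271250, nat_lit 1271250, nat_lit 0, nat_lit 2316500, [nat_lit 780000, nat_lit 1435000, nat_lit 1271250], [nat_lit 23, nat_lit 40, nat_lit 40, nat_lit 80, nat_lit 12,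 nat_lit 483, nat_lit 250, nat_lit 12]⟩,
 ⟨nat_lit 0, nat_lit 1582, ⟨.ofNat (nat_lit 713855), .ofNat (nat_lit 768823), .ofNat (nat_lit 719520), .ofNat (nat_lit 774652), .ofNat (nat_lit 712166), .ofNat (nat_lit 762499), .ofNat (nat_lit 718252), .ofNat (nat_lit 768749)⟩, ⟨.ofNat (nat_lit 196201), .ofNat (nat_lit 305469), .ofNat (nat_lit 200000), .ofNat (nat_lit 352101), .ofNat (nat_lit 199999), .ofNat (nat_lit 299995), .ofNat (nat_lit 200000), .ofNat (nat_lit 349997)⟩⟩, [⟨nat_lit 13, nat_lit 25, nat_lit 86, nat_lit 100, nat_lit 205938793⟩, ⟨nat_lit 16, nat_lit 23, nat_lit 100, nat_lit 91, nat_lit 213903496⟩, ⟨nat_lit 22, nat_lit 94, nat_lit 88, nat_lit 100, nat_lit 23566645⟩]⟩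
noncomputable def p124_l28 : Lf2 := ⟨nat_lit 0, nat_lit 25, [nat_lit 44, nat_lit 5, nat_lit 5, nat_lit 20], false, nat_lit 80, nat_lit 160, nat_lit 0, nat_lit 324, ⟨nat_lit 248, nat_lit 752, nat_lit 0, nat_lit 7, nat_lit 299, nat_lit 752, nat_lit 105, nat_lit 0, nat_lit 0, nat_lit 0, nat_lit 0, nat_lit 0, nat_lit 39815911, nat_lit 22826174, nat_lit 4357915, nat_lit 4519898, true, true⟩,
 nat_lit 0, nat_lit 0, nat_lit 2562, nat_lit 0, nat_lit 2814, nat_lit 1737, nat_lit 99, nat_lit 0, nat_lit 0, nat_lit 187, nat_lit 0, nat_lit 0, nat_lit 0, nat_lit 0, nat_lit 0, nat_lit 188000, nat_lit 0, nat_lit 0, [(nat_lit 29, [(nat_lit 0, nat_lit 752)])],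
 ⟨p124_k14, nat_lit 0, nat_lit 0, nat_lit 0, nat_lit 0, nat_lit 0, [nat_lit 820387201, nat_lit 1600528000, nat_lit 2197676800], [], [nat_lit 25219508790, nat_lit 25747012466, nat_lit 26654363607, nat_lit 27201108977, nat_lit 25825018570, nat_lit 26307120210, nat_lit 27142076900, nat_lit 27588842378], nat_lit 0, nat_lit 0, nat_lit 0, nat_lit 0, nat_lit 0, nat_lit 0, [], [nat_lit 35, nat_lit 40, nat_lit 40, nat_lit 80]⟩, ⟨p124_k17, nat_lit 0, nat_lit 0, nat_lit 672, nat_lit 0, nat_lit 950513, [nat_lit 813936000, nat_lit 1550000000, nat_lit 2944256000], [], [nat_lit 8205479404, nat_lit 8230247654, nat_lit 8394124600, nat_lit 8415725914, nat_lit 7507388901, nat_lit 7525035699, nat_lit 7641014408, nat_lit 7656144914], nat_lit 1271250, nat_lit 1271250, nat_lit 1271250, nat_lit 1271250, nat_lit 0, nat_lit 2288250, [nat_lit 780000, nat_lit 1435000, nat_lit 1271250], [nat_lit 23, nat_lit 40, nat_lit 40, nat_lit 80, nat_lit 12,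 nat_lit 483, nat_lit 250, nat_lit 12]⟩,
 ⟨nat_lit 0, nat_lit 1582, ⟨.ofNat (nat_lit 719520), .ofNat (nat_lit 774652), .ofNat (nat_lit 725184), .ofNat (nat_lit 780481), .ofNat (nat_lit 718252), .ofNat (nat_lit 768749), .ofNat (nat_lit 724337), .ofNat (nat_lit 774999)⟩, ⟨.ofNat (nat_lit 196201), .ofNat (nat_lit 305469), .ofNat (nat_lit 200000), .ofNat (nat_lit 352101), .ofNat (nat_lit 199999), .ofNat (nat_lit 299995), .ofNat (nat_lit 200000), .ofNat (nat_lit 349997)⟩⟩, [⟨nat_lit 13, nat_lit 25, nat_lit 85, nat_lit 100, nat_lit 162213342⟩, ⟨nat_lit 4, nat_lit 100, nat_lit 23, nat_lit 91, nat_lit 247081185⟩, ⟨nat_lit 7, nat_lit 98, nat_lit 100, nat_lit 99, nat_lit 34730818⟩]⟩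
noncomputable def p124_l29 : Lf2 := ⟨nat_lit 0, nat_lit 25, [nat_lit 44, nat_lit 5, nat_lit 5, nat_lit 20], false, nat_lit 80, nat_lit 160, nat_lit 0, nat_lit 160, ⟨nat_lit 1000, nat_lit 0, nat_lit 0, nat_lit 0, nat_lit 0, nat_lit 0, nat_lit 0, nat_lit 0, nat_lit 0, nat_lit 0, nat_lit 0, nat_lit 0, nat_lit 0, nat_lit 0, nat_lit 0, nat_lit 0, false, false⟩,
 nat_lit 0, nat_lit 0, nat_lit 9648, nat_lit 0, nat_lit 3119, nat_lit 6679, nat_lit 482, nat_lit 0, nat_lit 0, nat_lit 978, nat_lit 0, nat_lit 0, nat_lit 0, nat_lit 0, nat_lit 0, nat_lit 0, nat_lit 0, nat_lit 0, [],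
 ⟨p124_k13, nat_lit 0, nat_lit 0, nat_lit 0, nat_lit 0, nat_lit 0, [nat_lit 938000000, nat_lit 3282000000, nat_lit 6250000000], [], [nat_lit 23456999494, nat_lit 24091046568, nat_lit 26432502908, nat_lit 27066078426, nat_lit 23993042362, nat_lit 24557204982, nat_lit 26708620046, nat_lit 27205335861], nat_lit 0, nat_lit 0, nat_lit 0, nat_lit 0, nat_lit 0, nat_lit 0, [], [nat_lit 20, nat_lit 40, nat_lit 40, nat_lit 80]⟩, ⟨p124_k11, nat_lit 0, nat_lit 0, nat_lit 664, nat_lit 0, nat_lit 909170, [nat_lit 3282000000, nat_lit 6250000000, nat_lit 11872000000], [], [nat_lit 28151217854, nat_lit 28772903672, nat_lit 30875031774, nat_lit 31871992714, nat_lit 25233711514, nat_lit 25740843340, nat_lit 26779888382, nat_lit 27186338900], nat_lit 1271250, nat_lit 1271250, nat_lit 1271250, nat_lit 1271250, nat_lit 0, nat_lit 1100001, [nat_lit 780000, nat_lit 1435000, nat_lit 1271250], [nat_lit 23, nat_lit 40, nat_lit 40, nat_lit 80, nat_lit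 12, nat_lit 428, nat_lit 200, nat_lit 11]⟩,
 zbF0, [⟨nat_lit 0, nat_lit 84, nat_lit 33, nat_lit 100, nat_lit 536247167⟩, ⟨nat_lit 4, nat_lit 100, nat_lit 38, nat_lit 87, nat_lit 528442043⟩]⟩
noncomputable def p124_l30 : Lf2 := ⟨nat_lit 0, nat_lit 25, [nat_lit 44, nat_lit 5, nat_lit 5, nat_lit 20], false, nat_lit 80, nat_lit 160, nat_lit 160, nat_lit 320, ⟨nat_lit 438, nat_lit 562, nat_lit 0, nat_lit 7, nat_lit 296, nat_lit 562, nat_lit 105, nat_lit 0, nat_lit 0, nat_lit 0, nat_lit 0, nat_lit 0, nat_lit 40153270, nat_lit 22467901, nat_lit 4378829, nat_lit 4508222, true, false⟩,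
 nat_lit 0, nat_lit 0, nat_lit 4020, nat_lit 0, nat_lit 2929, nat_lit 2783, nat_lit 202, nat_lit 0, nat_lit 0, nat_lit 362, nat_lit 0, nat_lit 0, nat_lit 0, nat_lit 0, nat_lit 0, nat_lit 224800, nat_lit 0, nat_lit 0, [(nat_lit 29, [(nat_lit 1, nat_lit 562)])],
 ⟨p124_k13, nat_lit 0, nat_lit 0, nat_lit 0, nat_lit 0, nat_lit 0, [nat_lit 803344801, nat_lit 1624100000, nat_lit 2790328000], [], [nat_lit 23162276054, nat_lit 23470422221, nat_lit 26115269968, nat_lit 26434964067, nat_lit 23752434078, nat_lit 24032985972, nat_lit 26442699086, nat_lit 26689768789], nat_lit 0, nat_lit 0, nat_lit 0, nat_lit 0, nat_lit 0, nat_lit 0, [], [nat_lit 20, nat_lit 40, nat_lit 40, nat_lit 80]⟩, ⟨p124_k11, nat_lit 0, nat_lit 0, nat_lit 514, nat_lit 0, nat_lit 846040, [nat_lit 1437516000, nat_lit 2737500000, nat_lit 5199936000], [], [nat_lit 11541889990, nat_lit 11756850098, nat_lit 12270367684, nat_lit 12491403894, nat_lit 12426159454, nat_lit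 12624675490, nat_lit 13122403326, nat_lit 13371748168], nat_lit 1271250, nat_lit 1271250, nat_lit 1271250, nat_lit 1271250, nat_lit 1100001, nat_lit 2470000, [nat_lit 780000, nat_lit 1435000, nat_lit 1271250], [nat_lit 23, nat_lit 40, nat_lit 40, nat_lit 80, nat_lit 12, nat_lit 483, nat_lit 250, nat_lit 11]⟩,
 ⟨nat_lit 1936, nat_lit 2237, ⟨.ofNat (nat_lit 670859), .ofNat (nat_lit 784917), .ofNat (nat_lit 693625), .ofNat (nat_lit 807688), .ofNat (nat_lit 670915), .ofNat (nat_lit 782720), .ofNat (nat_lit 693918), .ofNat (nat_lit 805728)⟩, ⟨.ofNat (nat_lit 192306), .ofNat (nat_lit 306337), .ofNat (nat_lit 200000), .ofNat (nat_lit 351886), .ofNat (nat_lit 194266), .ofNat (nat_lit 306044), .ofNat (nat_lit 200000), .ofNat (nat_lit 352066)⟩⟩, [⟨nat_lit 4, nat_lit 100, nat_lit 41, nat_lit 87, nat_lit 214343597⟩, ⟨nat_lit 7, nat_lit 100, nat_lit 93, nat_lit 97, nat_lit 139121360⟩]⟩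
noncomputable def p124_l31 : Lf2 := ⟨nat_lit 0, nat_lit 25, [nat_lit 44, nat_lit 5, nat_lit 5, nat_lit 20], false, nat_lit 80, nat_lit 160, nat_lit 160, nat_lit 320, ⟨nat_lit 387, nat_lit 613, nat_lit 0, nat_lit 7, nat_lit 295, nat_lit 613, nat_lit 105, nat_lit 0, nat_lit 0, nat_lit 0, nat_lit 0, nat_lit 0, nat_lit 40178301, nat_lit 22430798, nat_lit 4390901, nat_lit 4508948, true, false⟩,
 nat_lit 0, nat_lit 0, nat_lit 3631, nat_lit 0, nat_lit 2838, nat_lit 2513, nat_lit 252, nat_lit 0, nat_lit 0, nat_lit 307, nat_lit 0, nat_lit 0, nat_lit 0, nat_lit 0, nat_lit 0, nat_lit 153250, nat_lit 0, nat_lit 0, [(nat_lit 29, [(nat_lit 0, nat_lit 613)])],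
 ⟨p124_k15, nat_lit 0, nat_lit 0, nat_lit 0, nat_lit 0, nat_lit 0, [nat_lit 842126801, nat_lit 1911332000, nat_lit 3513813200], [], [nat_lit 23411905662, nat_lit 23715800036, nat_lit 26290199174, nat_lit 26605504252, nat_lit 24046277645, nat_lit 24317262265, nat_lit 26644843078, nat_lit 26877979815], nat_lit 0, nat_lit 0, nat_lit 0, nat_lit 0, nat_lit 0, nat_lit 0, [], [nat_lit 20, nat_lit 40, nat_lit 40, nat_lit 80]⟩, ⟨p124_k11, nat_lit 0, nat_lit 0, nat_lit 536, nat_lit 0, nat_lit 909170, [nat_lit 1270134000, nat_lit 2418750000, nat_lit 4594464000], [], [nat_lit 10651854616, nat_lit 10815720718, nat_lit 11172538316, nat_lit 11331270264, nat_lit 11281076826, nat_lit 11431843868, nat_lit 11765969566, nat_lit 11918667763], nat_lit 1271250, nat_lit 1271250, nat_lit 1271250, nat_lit 1271250, nat_lit 1100001, nat_lit 2470000, [nat_lit 780000, nat_lit 1435000, nat_lit 1271250], [nat_lit 23, nat_lit 40, nat_lit 40, nat_lit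 80, nat_lit 12, nat_lit 483, nat_lit 250, nat_lit 11]⟩,
 ⟨nat_lit 1581, nat_lit 1937, ⟨.ofNat (nat_lit 670898), .ofNat (nat_lit 782720), .ofNat (nat_lit 693894), .ofNat (nat_lit 805728), .ofNat (nat_lit 671166), .ofNat (nat_lit 780481), .ofNat (nat_lit 694466), .ofNat (nat_lit 803793)⟩, ⟨.ofNat (nat_lit 194266), .ofNat (nat_lit 306044), .ofNat (nat_lit 200000), .ofNat (nat_lit 352066), .ofNat (nat_lit 196201), .ofNat (nat_lit 305473), .ofNat (nat_lit 200000), .ofNat (nat_lit 352103)⟩⟩, [⟨nat_lit 4, nat_lit 100, nat_lit 35, nat_lit 88, nat_lit 221443050⟩, ⟨nat_lit 7, nat_lit 100, nat_lit 93, nat_lit 97, nat_lit 116688182⟩]⟩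
noncomputable def p124_l32 : Lf2 := ⟨nat_lit 0, nat_lit 25, [nat_lit 44, nat_lit 5, nat_lit 5, nat_lit 20], false, nat_lit 80, nat_lit 160, nat_lit 0, nat_lit 320, ⟨nat_lit 304, nat_lit 696, nat_lit 0, nat_lit 7, nat_lit 292, nat_lit 696, nat_lit 105, nat_lit 0, nat_lit 0, nat_lit 0, nat_lit 0, nat_lit 0, nat_lit 40450385, nat_lit 22147543, nat_lit 4402072, nat_lit 4498108, true, false⟩,
 nat_lit 0, nat_lit 0, nat_lit 2927, nat_lit 0, nat_lit 2833, nat_lit 2026, nat_lit 115, nat_lit 0, nat_lit 0, nat_lit 244, nat_lit 0, nat_lit 0, nat_lit 0, nat_lit 0, nat_lit 0, nat_lit 174000, nat_lit 0, nat_lit 0, [(nat_lit 29, [(nat_lit 0, nat_lit 696)])],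
 ⟨p124_k14, nat_lit 0, nat_lit 0, nat_lit 0, nat_lit 0, nat_lit 0, [nat_lit 829145600, nat_lit 1725744001, nat_lit 2383126400], [], [nat_lit 23968467828, nat_lit 24537264134, nat_lit 26686024054, nat_lit 27234269569, nat_lit 24672139672, nat_lit 25190586134, nat_lit 27166483329, nat_lit 27614346570], nat_lit 0, nat_lit 0, nat_lit 0, nat_lit 0, nat_lit 0, nat_lit 0, [], [nat_lit 35, nat_lit 40, nat_lit 40, nat_lit 80]⟩, ⟨p124_k11, nat_lit 0, nat_lit 0, nat_lit 689, nat_lit 0, nat_lit 978835, [nat_lit 997728000, nat_lit 1900000000, nat_lit 3609088000], [], [nat_lit 9533717684, nat_lit 9601530740, nat_lit 9970999548, nat_lit 10122392192, nat_lit 8931883188, nat_lit 8975069088, nat_lit 9188338724, nat_lit 9226828416], nat_lit 1271250, nat_lit 1271250, nat_lit 1271250, nat_lit 1271250, nat_lit 0, nat_lit 2260000, [nat_lit 780000, nat_lit 1435000, nat_lit 1271250], [nat_lit 23, nat_lit 40, nat_lit 40, nat_lit 80, nat_lit 12,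 nat_lit 483, nat_lit 250, nat_lit 12]⟩,
 ⟨nat_lit 0, nat_lit 1582, ⟨.ofNat (nat_lit 669237), .ofNat (nat_lit 780481), .ofNat (nat_lit 680566), .ofNat (nat_lit 792138), .ofNat (nat_lit 673026), .ofNat (nat_lit 774999), .ofNat (nat_lit 685198), .ofNat (nat_lit 787499)⟩, ⟨.ofNat (nat_lit 196201), .ofNat (nat_lit 305469), .ofNat (nat_lit 200000), .ofNat (nat_lit 352101), .ofNat (nat_lit 199999), .ofNat (nat_lit 299995), .ofNat (nat_lit 200000), .ofNat (nat_lit 349997)⟩⟩, [⟨nat_lit 4, nat_lit 100, nat_lit 23, nat_lit 91, nat_lit 329880878⟩, ⟨nat_lit 19, nat_lit 97, nat_lit 100, nat_lit 98, nat_lit 44303342⟩]⟩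
noncomputable def p124_l33 : Lf2 := ⟨nat_lit 0, nat_lit 25, [nat_lit 44, nat_lit 5, nat_lit 5, nat_lit 20], false, nat_lit 80, nat_lit 160, nat_lit 0, nat_lit 312, ⟨nat_lit 487, nat_lit 513, nat_lit 0, nat_lit 7, nat_lit 300, nat_lit 513, nat_lit 105, nat_lit 0, nat_lit 0, nat_lit 0, nat_lit 0, nat_lit 0, nat_lit 39742695, nat_lit 22904568, nat_lit 4352737, nat_lit 4522243, true, false⟩,
 nat_lit 0, nat_lit 0, nat_lit 4056, nat_lit 0, nat_lit 2724, nat_lit 2924, nat_lit 202, nat_lit 0, nat_lit 0, nat_lit 404, nat_lit 0, nat_lit 0, nat_lit 0, nat_lit 0, nat_lit 0, nat_lit 128250, nat_lit 0, nat_lit 0, [(nat_lit 29, [(nat_lit 0, nat_lit 513)])],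
 ⟨p124_k14, nat_lit 0, nat_lit 0, nat_lit 0, nat_lit 0, nat_lit 0, [nat_lit 857766800, nat_lit 2134932000, nat_lit 2989149200], [], [nat_lit 24098377777, nat_lit 24646151819, nat_lit 26518907470, nat_lit 27038265584, nat_lit 24804824603, nat_lit 25306912851, nat_lit 27037388778, nat_lit 27512037566], nat_lit 0, nat_lit 0, nat_lit 0, nat_lit 0, nat_lit 0, nat_lit 0, [], [nat_lit 35, nat_lit 40, nat_lit 40, nat_lit 80]⟩, ⟨p124_k18, nat_lit 0, nat_lit 0, nat_lit 685, nat_lit 0, nat_lit 980126, [nat_lit 1598334000, nat_lit 3043750000, nat_lit 5781664000], [], [nat_lit 14643292752, nat_lit 14749734222, nat_lit 15515191157, nat_lit 15747127944, nat_lit 14037002434, nat_lit 14119245336, nat_lit 14494160178, nat_lit 14574545315], nat_lit 1271250, nat_lit 1271250, nat_lit 1271250, nat_lit 1271250, nat_lit 0, nat_lit 2203500, [nat_lit 780000, nat_lit 1435000, nat_lit 1271250], [nat_lit 23, nat_lit 40, nat_lit 40, nat_lit 80, nat_lit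 12, nat_lit 483, nat_lit 250, nat_lit 12]⟩,
 ⟨nat_lit 0, nat_lit 1582, ⟨.ofNat (nat_lit 697350), .ofNat (nat_lit 792138), .ofNat (nat_lit 708679), .ofNat (nat_lit 803773), .ofNat (nat_lit 700591), .ofNat (nat_lit 787499), .ofNat (nat_lit 712763), .ofNat (nat_lit 799976)⟩, ⟨.ofNat (nat_lit 196201), .ofNat (nat_lit 305469), .ofNat (nat_lit 200000), .ofNat (nat_lit 352101), .ofNat (nat_lit 199999), .ofNat (nat_lit 299995), .ofNat (nat_lit 200000), .ofNat (nat_lit 349997)⟩⟩, [⟨nat_lit 0, nat_lit 88, nat_lit 24, nat_lit 100, nat_lit 93979107⟩, ⟨nat_lit 4, nat_lit 100, nat_lit 23, nat_lit 91, nat_lit 578790094⟩, ⟨nat_lit 7, nat_lit 100, nat_lit 90, nat_lit 95, nat_lit 82238609⟩]⟩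
noncomputable def b_V_900_700_20_33 : St := ⟨true, nat_lit 0, nat_lit 1, nat_lit 1, nat_lit 120, nat_lit 380, nat_lit 400, nat_lit 280, nat_lit 320, nat_lit 240, nat_lit 320, nat_lit 80, nat_lit 120, nat_lit 80, nat_lit 160, nat_lit 0, nat_lit 336, nat_lit 80, nat_lit 100, nat_lit 0, nat_lit 600, nat_lit 0, nat_lit 0⟩
theorem d_V_900_700_20_33 (h : EB TB.env) : Dead b_V_900_700_20_33 := chkB_sound0 h (T :=
(.spl (nat_lit 1) (nat_lit 300)
(.spl (nat_lit 2) (nat_lit 280)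
(.spl (nat_lit 0) (nat_lit 390)
(.leaf p124_l17)
(.leaf p124_l18))
(.spl (nat_lit 0) (nat_lit 390)
(.spl (nat_lit 5) (nat_lit 160)
(.leaf p124_l19)
(.spl (nat_lit 1) (nat_lit 290)
(.spl (nat_lit 3) (nat_lit 100)
(.trX (nat_lit 19) (nat_lit 100) (nat_lit 88) (nat_lit 94) (nat_lit 320) (.spl (nat_lit 0) (nat_lit 385)
(.leaf p124_l20)
(.leaf p124_l21)))
(.leaf p124_l22))
(.trX (nat_lit 19) (nat_lit 97) (nat_lit 84) (nat_lit 100) (nat_lit 328) (.spl (nat_lit 0) (nat_lit 385)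
(.leaf p124_l23)
(.leaf p124_l24)))))
(.spl (nat_lit 1) (nat_lit 290)
(.spl (nat_lit 1) (nat_lit 285)
(.leaf p124_l25)
(.trX (nat_lit 19) (nat_lit 99) (nat_lit 82) (nat_lit 100) (nat_lit 332) (.leaf p124_l26)))
(.trX (nat_lit 19) (nat_lit 97) (nat_lit 84) (nat_lit 100) (nat_lit 328) (.spl (nat_lit 1) (nat_lit 295)
(.leaf p124_l27)
(.trX (nat_lit 19) (nat_lit 96) (nat_lit 86) (nat_lit 100) (nat_lit 324) (.leaf p124_l28)))))))
(.trX (nat_lit 19) (nat_lit 94) (nat_lit 88) (nat_lit 100) (nat_lit 320) (.spl (nat_lit 0) (nat_lit 390)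
(.spl (nat_lit 5) (nat_lit 160)
(.leaf p124_l29)
(.spl (nat_lit 0) (nat_lit 385)
(.leaf p124_l30)
(.leaf p124_l31)))
(.spl (nat_lit 1) (nat_lit 310)
(.leaf p124_l32)
(.trZ (nat_lit 0) (nat_lit 87) (nat_lit 32) (nat_lit 100) (nat_lit 252) (.trX (nat_lit 19) (nat_lit 91) (nat_lit 91) (nat_lit 100) (nat_lit 312) (.leaf p124_l33)))))))) (by decide +kernel)
noncomputable def p124_l34 : Lf2 := ⟨nat_lit 0, nat_lit 25, [nat_lit 44, nat_lit 5, nat_lit 5, nat_lit 20], false, nat_lit 80, nat_lit 160, nat_lit 0, nat_lit 320, ⟨nat_lit 91, nat_lit 909, nat_lit 0, nat_lit 7, nat_lit 275, nat_lit 909, nat_lit 103, nat_lit 0, nat_lit 0, nat_lit 0, nat_lit 0, nat_lit 0, nat_lit 42108265, nat_lit 20528838, nat_lit 4362897, nat_lit 4407040, true, false⟩,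
 nat_lit 0, nat_lit 0, nat_lit 1094, nat_lit 0, nat_lit 4052, nat_lit 696, nat_lit 0, nat_lit 0, nat_lit 0, nat_lit 69, nat_lit 0, nat_lit 0, nat_lit 0, nat_lit 0, nat_lit 0, nat_lit 250650, nat_lit 0, nat_lit 0, [(nat_lit 29, [(nat_lit 0, nat_lit 753), (nat_lit 1, nat_lit 156)])],
 ⟨p124_k13, nat_lit 0, nat_lit 0, nat_lit 0, nat_lit 0, nat_lit 0, [nat_lit 782853200, nat_lit 1138092000, nat_lit 1928573200], [], [nat_lit 24432440752, nat_lit 25153672944, nat_lit 25916034352, nat_lit 26580122720, nat_lit 24629611664, nat_lit 25281871608, nat_lit 25977327344, nat_lit 26579389936], nat_lit 0, nat_lit 0, nat_lit 0, nat_lit 0, nat_lit 0, nat_lit 0, [], [nat_lit 20, nat_lit 40, nat_lit 40, nat_lit 80]⟩, ⟨p124_k1, nat_lit 0, nat_lit 0, nat_lit 541, nat_lit 0, nat_lit 666444, [nat_lit 298662000, nat_lit 568750000, nat_lit 1080352000], [], [nat_lit 2997522214, nat_lit 3049686926, nat_lit 3068656742, nat_lit 3129367614, nat_lit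 2638839731, nat_lit 2677654919, nat_lit 2685131767, nat_lit 2719168695], nat_lit 1271250, nat_lit 1271250, nat_lit 1271250, nat_lit 1271250, nat_lit 0, nat_lit 2260000, [nat_lit 780000, nat_lit 1435000, nat_lit 1271250], [nat_lit 23, nat_lit 40, nat_lit 40, nat_lit 80, nat_lit 12, nat_lit 456, nat_lit 225, nat_lit 11]⟩,
 ⟨nat_lit 1581, nat_lit 2237, ⟨.ofNat (nat_lit 648016), .ofNat (nat_lit 705117), .ofNat (nat_lit 670745), .ofNat (nat_lit 727846), .ofNat (nat_lit 647799), .ofNat (nat_lit 702521), .ofNat (nat_lit 671069), .ofNat (nat_lit 725790)⟩, ⟨.ofNat (nat_lit 192306), .ofNat (nat_lit 306337), .ofNat (nat_lit 200000), .ofNat (nat_lit 329112), .ofNat (nat_lit 196201), .ofNat (nat_lit 305473), .ofNat (nat_lit 200000), .ofNat (nat_lit 328788)⟩⟩, [⟨nat_lit 7, nat_lit 97, nat_lit 100, nat_lit 94, nat_lit 10966083⟩]⟩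
noncomputable def p124_l35 : Lf2 := ⟨nat_lit 0, nat_lit 25, [nat_lit 44, nat_lit 5, nat_lit 5, nat_lit 20], true, nat_lit 80, nat_lit 160, nat_lit 0, nat_lit 320, ⟨nat_lit 0, nat_lit 1000, nat_lit 0, nat_lit 7, nat_lit 274, nat_lit 1000, nat_lit 103, nat_lit 0, nat_lit 0, nat_lit 0, nat_lit 0, nat_lit 0, nat_lit 42157578, nat_lit 20485501, nat_lit 4356921, nat_lit 4403399, true, false⟩,
 nat_lit 0, nat_lit 0, nat_lit 0, nat_lit 0, nat_lit 3171, nat_lit 0, nat_lit 0, nat_lit 0, nat_lit 0, nat_lit 0, nat_lit 0, nat_lit 0, nat_lit 0, nat_lit 0, nat_lit 0, nat_lit 250000, nat_lit 0, nat_lit 0, [(nat_lit 29, [(nat_lit 0, nat_lit 1000)])],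
 ⟨p124_k14, nat_lit 0, nat_lit 0, nat_lit 0, nat_lit 0, nat_lit 0, [nat_lit 781600001, nat_lit 1046000001, nat_lit 1376400000], [], [nat_lit 23853070892, nat_lit 24532295932, nat_lit 25304223822, nat_lit 26032266208, nat_lit 24359182713, nat_lit 24975583100, nat_lit 25674287017, nat_lit 26245211724], nat_lit 0, nat_lit 0, nat_lit 0, nat_lit 0, nat_lit 0, nat_lit 0, [], [nat_lit 35, nat_lit 40, nat_lit 40, nat_lit 80]⟩, C1.Rw.none,
 ⟨nat_lit 0, nat_lit 1582, ⟨.ofNat (nat_lit 646579), .ofNat (nat_lit 702515), .ofNat (nat_lit 669237), .ofNat (nat_lit 725184), .ofNat (nat_lit 648683), .ofNat (nat_lit 699984), .ofNat (nat_lit 673026), .ofNat (nat_lit 724337)⟩, ⟨.ofNat (nat_lit 196201), .ofNat (nat_lit 305469), .ofNat (nat_lit 200000), .ofNat (nat_lit 328785), .ofNat (nat_lit 199999), .ofNat (nat_lit 299995), .ofNat (nat_lit 200000), .ofNat (nat_lit 324996)⟩⟩, [⟨nat_lit 4, nat_lit 100, nat_lit 24, nat_lit 89, nat_lit 8100634⟩]⟩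
noncomputable def p124_l36 : Lf2 := ⟨nat_lit 0, nat_lit 25, [nat_lit 44, nat_lit 5, nat_lit 5, nat_lit 20], false, nat_lit 80, nat_lit 160, nat_lit 0, nat_lit 160, ⟨nat_lit 1000, nat_lit 0, nat_lit 0, nat_lit 0, nat_lit 0, nat_lit 0, nat_lit 0, nat_lit 0, nat_lit 0, nat_lit 0, nat_lit 0, nat_lit 0, nat_lit 0, nat_lit 0, nat_lit 0, nat_lit 0, false, false⟩,
 nat_lit 0, nat_lit 0, nat_lit 11297, nat_lit 0, nat_lit 6804, nat_lit 7188, nat_lit 0, nat_lit 0, nat_lit 0, nat_lit 847, nat_lit 0, nat_lit 0, nat_lit 0, nat_lit 0, nat_lit 0, nat_lit 0, nat_lit 0, nat_lit 0, [],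
 ⟨p124_k13, nat_lit 0, nat_lit 0, nat_lit 0, nat_lit 0, nat_lit 0, [nat_lit 938000000, nat_lit 3282000000, nat_lit 6250000000], [], [nat_lit 30176025504, nat_lit 31068073040, nat_lit 32302742328, nat_lit 33107238548, nat_lit 29215214688, nat_lit 30015135072, nat_lit 31116290336, nat_lit 31839346784], nat_lit 0, nat_lit 0, nat_lit 0, nat_lit 0, nat_lit 0, nat_lit 0, [], [nat_lit 20, nat_lit 40, nat_lit 40, nat_lit 80]⟩, ⟨p124_k1, nat_lit 0, nat_lit 0, nat_lit 516, nat_lit 0, nat_lit 604963, [nat_lit 3282000000, nat_lit 6250000000, nat_lit 11872000000], [], [nat_lit 32844423842, nat_lit 33097298601, nat_lit 34160297841, nat_lit 34472424445, nat_lit 28117364257, nat_lit 28410174961, nat_lit 29288607073, nat_lit 29546280717], nat_lit 1271250, nat_lit 1271250, nat_lit 1271250, nat_lit 1271250, nat_lit 0, nat_lit 1100001, [nat_lit 780000, nat_lit 1435000, nat_lit 1271250], [nat_lit 23, nat_lit 40, nat_lit 40, nat_lit 80, nat_lit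 12, nat_lit 428, nat_lit 200, nat_lit 10]⟩,
 zbF0, [⟨nat_lit 4, nat_lit 100, nat_lit 39, nat_lit 85, nat_lit 274137795⟩]⟩
noncomputable def p124_l37 : Lf2 := ⟨nat_lit 0, nat_lit 25, [nat_lit 44, nat_lit 5, nat_lit 5, nat_lit 20], false, nat_lit 80, nat_lit 160, nat_lit 160, nat_lit 320, ⟨nat_lit 454, nat_lit 546, nat_lit 0, nat_lit 7, nat_lit 295, nat_lit 546, nat_lit 103, nat_lit 0, nat_lit 0, nat_lit 0, nat_lit 0, nat_lit 0, nat_lit 40296076, nat_lit 22456751, nat_lit 4247173, nat_lit 4481251, true, true⟩,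
 nat_lit 0, nat_lit 0, nat_lit 4030, nat_lit 0, nat_lit 2763, nat_lit 2564, nat_lit 220, nat_lit 0, nat_lit 0, nat_lit 348, nat_lit 0, nat_lit 0, nat_lit 0, nat_lit 0, nat_lit 0, nat_lit 218400, nat_lit 0, nat_lit 0, [(nat_lit 29, [(nat_lit 1, nat_lit 546)])],
 ⟨p124_k13, nat_lit 0, nat_lit 0, nat_lit 0, nat_lit 0, nat_lit 0, [nat_lit 807178401, nat_lit 1671300000, nat_lit 2888824000], [], [nat_lit 24436248288, nat_lit 24993563630, nat_lit 25966893366, nat_lit 26482575202, nat_lit 25005979349, nat_lit 25505090187, nat_lit 26393398991, nat_lit 26855103240], nat_lit 0, nat_lit 0, nat_lit 0, nat_lit 0, nat_lit 0, nat_lit 0, [], [nat_lit 20, nat_lit 40, nat_lit 40, nat_lit 80]⟩, ⟨p124_k1, nat_lit 0, nat_lit 0, nat_lit 378, nat_lit 0, nat_lit 604963, [nat_lit 1490028000, nat_lit 2837500000, nat_lit 5389888000], [], [nat_lit 14047236304, nat_lit 14166481068, nat_lit 14524215360, nat_lit 14630339526, nat_lit 14990633220, nat_lit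 15079316514, nat_lit 15345366396, nat_lit 15424229942], nat_lit 1271250, nat_lit 1271250, nat_lit 1271250, nat_lit 1271250, nat_lit 1100001, nat_lit 2470000, [nat_lit 780000, nat_lit 1435000, nat_lit 1271250], [nat_lit 23, nat_lit 40, nat_lit 40, nat_lit 80, nat_lit 12, nat_lit 483, nat_lit 250, nat_lit 11]⟩,
 ⟨nat_lit 1581, nat_lit 2237, ⟨.ofNat (nat_lit 705117), .ofNat (nat_lit 762142), .ofNat (nat_lit 716482), .ofNat (nat_lit 773529), .ofNat (nat_lit 702521), .ofNat (nat_lit 757166), .ofNat (nat_lit 714155), .ofNat (nat_lit 768823)⟩, ⟨.ofNat (nat_lit 192306), .ofNat (nat_lit 306337), .ofNat (nat_lit 200000), .ofNat (nat_lit 329112), .ofNat (nat_lit 196201), .ofNat (nat_lit 305473), .ofNat (nat_lit 200000), .ofNat (nat_lit 328788)⟩⟩, [⟨nat_lit 4, nat_lit 100, nat_lit 39, nat_lit 85, nat_lit 313863173⟩, ⟨nat_lit 7, nat_lit 94, nat_lit 100, nat_lit 92, nat_lit 137644602⟩]⟩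
noncomputable def p124_l38 : Lf2 := ⟨nat_lit 0, nat_lit 25, [nat_lit 44, nat_lit 5, nat_lit 5, nat_lit 20], false, nat_lit 80, nat_lit 160, nat_lit 0, nat_lit 312, ⟨nat_lit 1000, nat_lit 0, nat_lit 0, nat_lit 0, nat_lit 0, nat_lit 0, nat_lit 0, nat_lit 0, nat_lit 0, nat_lit 0, nat_lit 0, nat_lit 0, nat_lit 0, nat_lit 0, nat_lit 0, nat_lit 0, false, false⟩,
 nat_lit 0, nat_lit 0, nat_lit 10711, nat_lit 0, nat_lit 7153, nat_lit 7113, nat_lit 0, nat_lit 0, nat_lit 0, nat_lit 789, nat_lit 0, nat_lit 0, nat_lit 0, nat_lit 0, nat_lit 0, nat_lit 0, nat_lit 0, nat_lit 0, [],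
 ⟨p124_k13, nat_lit 0, nat_lit 0, nat_lit 0, nat_lit 0, nat_lit 0, [nat_lit 938000000, nat_lit 3282000000, nat_lit 6250000000], [], [nat_lit 30168234428, nat_lit 30628712729, nat_lit 32631178576, nat_lit 33154600419, nat_lit 29077803616, nat_lit 29490309660, nat_lit 31021461452, nat_lit 31480868245], nat_lit 0, nat_lit 0, nat_lit 0, nat_lit 0, nat_lit 0, nat_lit 0, [], [nat_lit 20, nat_lit 40, nat_lit 40, nat_lit 80]⟩, ⟨p124_k5, nat_lit 0, nat_lit 0, nat_lit 500, nat_lit 0, nat_lit 558158, [nat_lit 3282000000, nat_lit 6250000000, nat_lit 11872000000], [], [nat_lit 32656557334, nat_lit 32983319598, nat_lit 33922348109, nat_lit 34207852092, nat_lit 28815189074, nat_lit 29008423393, nat_lit 29971549320, nat_lit 30265115514], nat_lit 1271250, nat_lit 1271250, nat_lit 1271250, nat_lit 1271250, nat_lit 0, nat_lit 2203500, [nat_lit 780000, nat_lit 1435000, nat_lit 1271250], [nat_lit 23, nat_lit 40, nat_lit 40, nat_lit 80, nat_lit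 12, nat_lit 483, nat_lit 250, nat_lit 12]⟩,
 zbF0, [⟨nat_lit 4, nat_lit 100, nat_lit 41, nat_lit 85, nat_lit 176156483⟩, ⟨nat_lit 7, nat_lit 100, nat_lit 100, nat_lit 95, nat_lit 126132673⟩]⟩
noncomputable def p124_l39 : Lf2 := ⟨nat_lit 0, nat_lit 25, [nat_lit 44, nat_lit 5, nat_lit 5, nat_lit 20], false, nat_lit 80, nat_lit 160, nat_lit 0, nat_lit 312, ⟨nat_lit 405, nat_lit 595, nat_lit 0, nat_lit 7, nat_lit 299, nat_lit 595, nat_lit 103, nat_lit 0, nat_lit 0, nat_lit 0, nat_lit 0, nat_lit 0, nat_lit 39912469, nat_lit 22861158, nat_lit 4226373, nat_lit 4494982, true, true⟩,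
 nat_lit 0, nat_lit 0, nat_lit 4223, nat_lit 0, nat_lit 2845, nat_lit 2804, nat_lit 252, nat_lit 0, nat_lit 0, nat_lit 307, nat_lit 0, nat_lit 0, nat_lit 0, nat_lit 0, nat_lit 0, nat_lit 148750, nat_lit 0, nat_lit 0, [(nat_lit 29, [(nat_lit 0, nat_lit 595)])],
 ⟨p124_k15, nat_lit 0, nat_lit 0, nat_lit 0, nat_lit 0, nat_lit 0, [nat_lit 844942001, nat_lit 1951580001, nat_lit 3594158000], [], [nat_lit 24835118085, nat_lit 25117171950, nat_lit 26355420028, nat_lit 26616977630, nat_lit 25344910606, nat_lit 25597337091, nat_lit 26723088319, nat_lit 26956441370], nat_lit 0, nat_lit 0, nat_lit 0, nat_lit 0, nat_lit 0, nat_lit 0, [], [nat_lit 20, nat_lit 40, nat_lit 40, nat_lit 80]⟩, ⟨p124_k5, nat_lit 0, nat_lit 0, nat_lit 522, nat_lit 0, nat_lit 626031, [nat_lit 1329210000, nat_lit 2531250000, nat_lit 4808160000], [], [nat_lit 13558185035, nat_lit 13665766774, nat_lit 14043505762, nat_lit 14158521446, nat_lit 12056425332, nat_lit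 12134736848, nat_lit 12359201394, nat_lit 12432564711], nat_lit 1271250, nat_lit 1271250, nat_lit 1271250, nat_lit 1271250, nat_lit 0, nat_lit 2203500, [nat_lit 780000, nat_lit 1435000, nat_lit 1271250], [nat_lit 23, nat_lit 40, nat_lit 40, nat_lit 80, nat_lit 12, nat_lit 483, nat_lit 250, nat_lit 12]⟩,
 ⟨nat_lit 1581, nat_lit 1937, ⟨.ofNat (nat_lit 715317), .ofNat (nat_lit 771215), .ofNat (nat_lit 726815), .ofNat (nat_lit 782720), .ofNat (nat_lit 714179), .ofNat (nat_lit 768823), .ofNat (nat_lit 725829), .ofNat (nat_lit 780481)⟩, ⟨.ofNat (nat_lit 194266), .ofNat (nat_lit 306044), .ofNat (nat_lit 200000), .ofNat (nat_lit 329055), .ofNat (nat_lit 196201), .ofNat (nat_lit 305473), .ofNat (nat_lit 200000), .ofNat (nat_lit 328788)⟩⟩, [⟨nat_lit 4, nat_lit 100, nat_lit 36, nat_lit 86, nat_lit 305498748⟩, ⟨nat_lit 7, nat_lit 100, nat_lit 100, nat_lit 95, nat_lit 49166962⟩]⟩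
noncomputable def p124_l40 : Lf2 := ⟨nat_lit 0, nat_lit 25, [nat_lit 44, nat_lit 5, nat_lit 5, nat_lit 20], false, nat_lit 80, nat_lit 160, nat_lit 0, nat_lit 320, ⟨nat_lit 83, nat_lit 917, nat_lit 0, nat_lit 7, nat_lit 296, nat_lit 917, nat_lit 103, nat_lit 0, nat_lit 0, nat_lit 0, nat_lit 0, nat_lit 0, nat_lit 40179441, nat_lit 22572266, nat_lit 4248293, nat_lit 4486691, true, true⟩,
 nat_lit 0, nat_lit 0, nat_lit 1000, nat_lit 0, nat_lit 2713, nat_lit 636, nat_lit 0, nat_lit 0, nat_lit 0, nat_lit 56, nat_lit 0, nat_lit 0, nat_lit 0, nat_lit 0, nat_lit 0, nat_lit 229250, nat_lit 0, nat_lit 0, [(nat_lit 29, [(nat_lit 0, nat_lit 917)])],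
 ⟨p124_k14, nat_lit 0, nat_lit 0, nat_lit 0, nat_lit 0, nat_lit 0, [nat_lit 794581201, nat_lit 1231588001, nat_lit 1651262800], [], [nat_lit 25500891926, nat_lit 25793807133, nat_lit 27064280269, nat_lit 27333665727, nat_lit 26086693588, nat_lit 26348592681, nat_lit 27505657550, nat_lit 27747619914], nat_lit 0, nat_lit 0, nat_lit 0, nat_lit 0, nat_lit 0, nat_lit 0, [], [nat_lit 35, nat_lit 40, nat_lit 40, nat_lit 80]⟩, ⟨p124_k1, nat_lit 0, nat_lit 0, nat_lit 561, nat_lit 0, nat_lit 740168, [nat_lit 272406000, nat_lit 518750000, nat_lit 985376000], [], [nat_lit 2960274460, nat_lit 2991316052, nat_lit 3041915744, nat_lit 3090038520, nat_lit 2570638632, nat_lit 2592519852, nat_lit 2614401072, nat_lit 2641737520], nat_lit 1271250, nat_lit 1271250, nat_lit 1271250, nat_lit 1271250, nat_lit 0, nat_lit 2260000, [nat_lit 780000, nat_lit 1435000, nat_lit 1271250], [nat_lit 23, nat_lit 40, nat_lit 40, nat_lit 80, nat_lit 12, nat_lit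 483, nat_lit 250, nat_lit 12]⟩,
 ⟨nat_lit 1118, nat_lit 1582, ⟨.ofNat (nat_lit 702528), .ofNat (nat_lit 757166), .ofNat (nat_lit 725811), .ofNat (nat_lit 780481), .ofNat (nat_lit 701254), .ofNat (nat_lit 754383), .ofNat (nat_lit 724973), .ofNat (nat_lit 778134)⟩, ⟨.ofNat (nat_lit 196201), .ofNat (nat_lit 305473), .ofNat (nat_lit 200000), .ofNat (nat_lit 328788), .ofNat (nat_lit 198112), .ofNat (nat_lit 304366), .ofNat (nat_lit 200000), .ofNat (nat_lit 328117)⟩⟩, [⟨nat_lit 4, nat_lit 100, nat_lit 28, nat_lit 88, nat_lit 110889731⟩, ⟨nat_lit 19, nat_lit 100, nat_lit 97, nat_lit 94, nat_lit 8908265⟩]⟩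
noncomputable def p124_l41 : Lf2 := ⟨nat_lit 0, nat_lit 25, [nat_lit 44, nat_lit 5, nat_lit 5, nat_lit 20], false, nat_lit 80, nat_lit 144, nat_lit 0, nat_lit 320, ⟨nat_lit 92, nat_lit 908, nat_lit 0, nat_lit 7, nat_lit 295, nat_lit 908, nat_lit 99, nat_lit 0, nat_lit 0, nat_lit 0, nat_lit 0, nat_lit 0, nat_lit 40442254, nat_lit 22566439, nat_lit 3991307, nat_lit 4433580, true, true⟩,
 nat_lit 0, nat_lit 0, nat_lit 1105, nat_lit 0, nat_lit 2778, nat_lit 703, nat_lit 45, nat_lit 0, nat_lit 0, nat_lit 60, nat_lit 0, nat_lit 0, nat_lit 0, nat_lit 0, nat_lit 0, nat_lit 227000, nat_lit 0, nat_lit 0, [(nat_lit 29, [(nat_lit 0, nat_lit 908)])],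
 ⟨p124_k19, nat_lit 0, nat_lit 0, nat_lit 0, nat_lit 0, nat_lit 0, [nat_lit 795988801, nat_lit 1251712000, nat_lit 1681067200], [], [nat_lit 25394907580, nat_lit 25657281806, nat_lit 26860046134, nat_lit 27131997629, nat_lit 25870726760, nat_lit 26115088117, nat_lit 27188935566, nat_lit 27423536487], nat_lit 0, nat_lit 0, nat_lit 0, nat_lit 0, nat_lit 0, nat_lit 0, [], [nat_lit 35, nat_lit 40, nat_lit 40, nat_lit 80]⟩, ⟨p124_k1, nat_lit 0, nat_lit 0, nat_lit 599, nat_lit 0, nat_lit 815235, [nat_lit 301944000, nat_lit 575000000, nat_lit 1092224000], [], [nat_lit 3326982132, nat_lit 3361394774, nat_lit 3412703084, nat_lit 3466012606, nat_lit 2877358024, nat_lit 2901637248, nat_lit 2925916472, nat_lit 2949226106], nat_lit 1271250, nat_lit 1271250, nat_lit 1271250, nat_lit 1271250, nat_lit 0, nat_lit 2260000, [nat_lit 780000, nat_lit 1435000, nat_lit 1271250], [nat_lit 23, nat_lit 40, nat_lit 40, nat_lit 80, nat_lit 12, nat_lit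 483, nat_lit 250, nat_lit 12]⟩,
 ⟨nat_lit 0, nat_lit 1119, ⟨.ofNat (nat_lit 701253), .ofNat (nat_lit 754382), .ofNat (nat_lit 724541), .ofNat (nat_lit 778134), .ofNat (nat_lit 699996), .ofNat (nat_lit 749998), .ofNat (nat_lit 724533), .ofNat (nat_lit 774999)⟩, ⟨.ofNat (nat_lit 198112), .ofNat (nat_lit 283112), .ofNat (nat_lit 200000), .ofNat (nat_lit 306864), .ofNat (nat_lit 199999), .ofNat (nat_lit 279996), .ofNat (nat_lit 200000), .ofNat (nat_lit 304997)⟩⟩, [⟨nat_lit 13, nat_lit 18, nat_lit 91, nat_lit 100, nat_lit 140479724⟩, ⟨nat_lit 4, nat_lit 100, nat_lit 17, nat_lit 92, nat_lit 132744911⟩, ⟨nat_lit 7, nat_lit 97, nat_lit 100, nat_lit 94, nat_lit 9508487⟩]⟩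
noncomputable def p124_l42 : Lf2 := ⟨nat_lit 0, nat_lit 25, [nat_lit 44, nat_lit 5, nat_lit 5, nat_lit 20], false, nat_lit 80, nat_lit 160, nat_lit 0, nat_lit 160, ⟨nat_lit 1000, nat_lit 0, nat_lit 0, nat_lit 0, nat_lit 0, nat_lit 0, nat_lit 0, nat_lit 0, nat_lit 0, nat_lit 0, nat_lit 0, nat_lit 0, nat_lit 0, nat_lit 0, nat_lit 0, nat_lit 0, false, false⟩,
 nat_lit 0, nat_lit 0, nat_lit 9471, nat_lit 0, nat_lit 3411, nat_lit 6556, nat_lit 425, nat_lit 0, nat_lit 0, nat_lit 831, nat_lit 0, nat_lit 0, nat_lit 0, nat_lit 0, nat_lit 0, nat_lit 0, nat_lit 0, nat_lit 0, [],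
 ⟨p124_k13, nat_lit 0, nat_lit 0, nat_lit 0, nat_lit 0, nat_lit 0, [nat_lit 938000000, nat_lit 3282000000, nat_lit 6250000000], [], [nat_lit 24110170614, nat_lit 25384236773, nat_lit 27108702927, nat_lit 28230565076, nat_lit 24623309602, nat_lit 25683512561, nat_lit 27268925849, nat_lit 28291171613], nat_lit 0, nat_lit 0, nat_lit 0, nat_lit 0, nat_lit 0, nat_lit 0, [], [nat_lit 20, nat_lit 40, nat_lit 40, nat_lit 80]⟩, ⟨p124_k11, nat_lit 0, nat_lit 0, nat_lit 634, nat_lit 0, nat_lit 834554, [nat_lit 3282000000, nat_lit 6250000000, nat_lit 11872000000], [], [nat_lit 30274793118, nat_lit 30861902342, nat_lit 32405873511, nat_lit 33394733671, nat_lit 26604990142, nat_lit 27042120310, nat_lit 28243764564, nat_lit 28709315140], nat_lit 1271250, nat_lit 1271250, nat_lit 1271250, nat_lit 1271250, nat_lit 0, nat_lit 1100001, [nat_lit 780000, nat_lit 1435000, nat_lit 1271250], [nat_lit 23, nat_lit 40, nat_lit 40, nat_lit 80, nat_lit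 12, nat_lit 428, nat_lit 200, nat_lit 11]⟩,
 zbF0, [⟨nat_lit 0, nat_lit 87, nat_lit 32, nat_lit 100, nat_lit 477123800⟩, ⟨nat_lit 4, nat_lit 100, nat_lit 32, nat_lit 87, nat_lit 610270005⟩]⟩
noncomputable def p124_l43 : Lf2 := ⟨nat_lit 0, nat_lit 25, [nat_lit 44, nat_lit 5, nat_lit 5, nat_lit 20], false, nat_lit 80, nat_lit 160, nat_lit 160, nat_lit 300, ⟨nat_lit 1000, nat_lit 0, nat_lit 0, nat_lit 0, nat_lit 0, nat_lit 0, nat_lit 0, nat_lit 0, nat_lit 0, nat_lit 0, nat_lit 0, nat_lit 0, nat_lit 0, nat_lit 0, nat_lit 0, nat_lit 0, false, false⟩,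
 nat_lit 0, nat_lit 0, nat_lit 9238, nat_lit 0, nat_lit 6804, nat_lit 6395, nat_lit 0, nat_lit 0, nat_lit 0, nat_lit 839, nat_lit 0, nat_lit 0, nat_lit 0, nat_lit 0, nat_lit 0, nat_lit 0, nat_lit 0, nat_lit 0, [],
 ⟨p124_k13, nat_lit 0, nat_lit 0, nat_lit 0, nat_lit 0, nat_lit 0, [nat_lit 938000000, nat_lit 3282000000, nat_lit 6250000000], [], [nat_lit 28423286304, nat_lit 29401681888, nat_lit 32302742328, nat_lit 33107238548, nat_lit 27657411328, nat_lit 28533056616, nat_lit 31116290336, nat_lit 31839346784], nat_lit 0, nat_lit 0, nat_lit 0, nat_lit 0, nat_lit 0, nat_lit 0, [], [nat_lit 20, nat_lit 40, nat_lit 40, nat_lit 80]⟩, ⟨p124_k11, nat_lit 0, nat_lit 0, nat_lit 417, nat_lit 0, nat_lit 709890, [nat_lit 3282000000, nat_lit 6250000000, nat_lit 11872000000], [], [nat_lit 25786058905, nat_lit 26416848085, nat_lit 27712806315, nat_lit 28217982585, nat_lit 27607973663, nat_lit 28058242215, nat_lit 29326193233, nat_lit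 29857972500], nat_lit 1271250, nat_lit 1271250, nat_lit 1271250, nat_lit 1271250, nat_lit 1100001, nat_lit 2298750, [nat_lit 780000, nat_lit 1435000, nat_lit 1271250], [nat_lit 23, nat_lit 40, nat_lit 40, nat_lit 80, nat_lit 12, nat_lit 483, nat_lit 250, nat_lit 11]⟩,
 zbF0, [⟨nat_lit 0, nat_lit 84, nat_lit 33, nat_lit 100, nat_lit 306768826⟩, ⟨nat_lit 4, nat_lit 100, nat_lit 39, nat_lit 85, nat_lit 261643460⟩, ⟨nat_lit 7, nat_lit 100, nat_lit 91, nat_lit 91, nat_lit 336003229⟩]⟩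
noncomputable def p124_l44 : Lf2 := ⟨nat_lit 0, nat_lit 25, [nat_lit 44, nat_lit 5, nat_lit 5, nat_lit 20], false, nat_lit 80, nat_lit 160, nat_lit 160, nat_lit 300, ⟨nat_lit 1000, nat_lit 0, nat_lit 0, nat_lit 0, nat_lit 0, nat_lit 0, nat_lit 0, nat_lit 0, nat_lit 0, nat_lit 0, nat_lit 0, nat_lit 0, nat_lit 0, nat_lit 0, nat_lit 0, nat_lit 0, false, false⟩,
 nat_lit 0, nat_lit 0, nat_lit 8688, nat_lit 0, nat_lit 3000, nat_lit 6014, nat_lit 324, nat_lit 0, nat_lit 0, nat_lit 816, nat_lit 0, nat_lit 0, nat_lit 0, nat_lit 0, nat_lit 0, nat_lit 0, nat_lit 0, nat_lit 0, [],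
 ⟨p124_k14, nat_lit 0, nat_lit 0, nat_lit 0, nat_lit 0, nat_lit 0, [nat_lit 938000000, nat_lit 3282000000, nat_lit 4688000000], [], [nat_lit 24230775500, nat_lit 24813947500, nat_lit 26982219500, nat_lit 27520999500, nat_lit 24883256500, nat_lit 25414163500, nat_lit 27406579500, nat_lit 27892495500], nat_lit 0, nat_lit 0, nat_lit 0, nat_lit 0, nat_lit 0, nat_lit 0, [], [nat_lit 35, nat_lit 40, nat_lit 40, nat_lit 80]⟩, ⟨p124_k11, nat_lit 0, nat_lit 0, nat_lit 509, nat_lit 0, nat_lit 834554, [nat_lit 3282000000, nat_lit 6250000000, nat_lit 11872000000], [], [nat_lit 27491784008, nat_lit 28042148968, nat_lit 29185268592, nat_lit 29629738408, nat_lit 29121059622, nat_lit 29539969788, nat_lit 30656643069, nat_lit 31092043130], nat_lit 1271250, nat_lit 1271250, nat_lit 1271250, nat_lit 1271250, nat_lit 1100001, nat_lit 2298750, [nat_lit 780000, nat_lit 1435000, nat_lit 1271250], [nat_lit 23, nat_lit 40, nat_lit 40, nat_lit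 80, nat_lit 12, nat_lit 483, nat_lit 250, nat_lit 11]⟩,
 zbF0, [⟨nat_lit 0, nat_lit 89, nat_lit 24, nat_lit 100, nat_lit 693236816⟩, ⟨nat_lit 4, nat_lit 100, nat_lit 24, nat_lit 89, nat_lit 885753152⟩, ⟨nat_lit 7, nat_lit 100, nat_lit 91, nat_lit 91, nat_lit 328393096⟩]⟩
noncomputable def b_V_900_700_20_34 : St := ⟨true, nat_lit 0, nat_lit 1, nat_lit 1, nat_lit 120, nat_lit 380, nat_lit 400, nat_lit 280, nat_lit 320, nat_lit 240, nat_lit 320, nat_lit 80, nat_lit 100, nat_lit 80, nat_lit 160, nat_lit 0, nat_lit 336, nat_lit 100, nat_lit 120, nat_lit 0, nat_lit 600, nat_lit 0, nat_lit 0⟩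
theorem d_V_900_700_20_34 (h : EB TB.env) : Dead b_V_900_700_20_34 := chkB_sound0 h (T :=
(.trX (nat_lit 19) (nat_lit 100) (nat_lit 88) (nat_lit 94) (nat_lit 320) (.spl (nat_lit 1) (nat_lit 300)
(.spl (nat_lit 2) (nat_lit 280)
(.spl (nat_lit 0) (nat_lit 390)
(.leaf p124_l34)
(.leaf p124_l35))
(.spl (nat_lit 0) (nat_lit 390)
(.spl (nat_lit 1) (nat_lit 290)
(.spl (nat_lit 5) (nat_lit 160)
(.leaf p124_l36)
(.leaf p124_l37))
(.trX (nat_lit 19) (nat_lit 100) (nat_lit 94) (nat_lit 97) (nat_lit 312) (.spl (nat_lit 0) (nat_lit 385)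
(.leaf p124_l38)
(.leaf p124_l39))))
(.spl (nat_lit 0) (nat_lit 395)
(.leaf p124_l40)
(.trX (nat_lit 16) (nat_lit 23) (nat_lit 100) (nat_lit 91) (nat_lit 144) (.leaf p124_l41)))))
(.trX (nat_lit 19) (nat_lit 100) (nat_lit 100) (nat_lit 100) (nat_lit 300) (.spl (nat_lit 5) (nat_lit 160)
(.leaf p124_l42)
(.spl (nat_lit 0) (nat_lit 390)
(.leaf p124_l43)
(.leaf p124_l44))))))) (by decide +kernel)
noncomputable def p124_l45 : Lf2 := ⟨nat_lit 0, nat_lit 30, [nat_lit 15, nat_lit 5, nat_lit 5, nat_lit 20], false, nat_lit 80, nat_lit 160, nat_lit 0, nat_lit 160, ⟨nat_lit 1000, nat_lit 0, nat_lit 0, nat_lit 0, nat_lit 0, nat_lit 0, nat_lit 0, nat_lit 0, nat_lit 0, nat_lit 0, nat_lit 0, nat_lit 0, nat_lit 0, nat_lit 0, nat_lit 0, nat_lit 0, false, false⟩,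
 nat_lit 0, nat_lit 0, nat_lit 11016, nat_lit 0, nat_lit 3109, nat_lit 7009, nat_lit 589, nat_lit 0, nat_lit 0, nat_lit 997, nat_lit 0, nat_lit 0, nat_lit 0, nat_lit 0, nat_lit 0, nat_lit 0, nat_lit 0, nat_lit 0, [],
 ⟨p124_k20, nat_lit 0, nat_lit 0, nat_lit 0, nat_lit 0, nat_lit 0, [nat_lit 938000000, nat_lit 3282000000, nat_lit 7968000000], [], [nat_lit 23052182217, nat_lit 23643512150, nat_lit 24493367044, nat_lit 25214517138, nat_lit 23503311833, nat_lit 24033480545, nat_lit 24849903576, nat_lit 25505465784], nat_lit 0, nat_lit 0, nat_lit 0, nat_lit 0, nat_lit 0, nat_lit 0, [], [nat_lit 54, nat_lit 40, nat_lit 40, nat_lit 80]⟩, ⟨p124_k7, nat_lit 0, nat_lit 0, nat_lit 556, nat_lit 0, nat_lit 520119, [nat_lit 3282000000, nat_lit 6250000000, nat_lit 14058000000], [], [nat_lit 31530039030, nat_lit 32210748196, nat_lit 32478032782, nat_lit 33087574004, nat_lit 26959143518, nat_lit 27523643314, nat_lit 27971865760, nat_lit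 28771989146], nat_lit 1271250, nat_lit 1271250, nat_lit 1271250, nat_lit 1271250, nat_lit 0, nat_lit 1100001, [nat_lit 780000, nat_lit 1435000, nat_lit 1271250], [nat_lit 71, nat_lit 40, nat_lit 40, nat_lit 80, nat_lit 68, nat_lit 428, nat_lit 200, nat_lit 10]⟩,
 zbF0, [⟨nat_lit 0, nat_lit 88, nat_lit 32, nat_lit 100, nat_lit 285742989⟩]⟩
noncomputable def p124_l46 : Lf2 := ⟨nat_lit 0, nat_lit 30, [nat_lit 15, nat_lit 5, nat_lit 5, nat_lit 20], false, nat_lit 80, nat_lit 160, nat_lit 0, nat_lit 160, ⟨nat_lit 1000, nat_lit 0, nat_lit 0, nat_lit 0, nat_lit 0, nat_lit 0, nat_lit 0, nat_lit 0, nat_lit 0, nat_lit 0, nat_lit 0, nat_lit 0, nat_lit 0, nat_lit 0, nat_lit 0, nat_lit 0, false, false⟩,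
 nat_lit 0, nat_lit 0, nat_lit 12047, nat_lit 0, nat_lit 2960, nat_lit 7666, nat_lit 431, nat_lit 0, nat_lit 0, nat_lit 902, nat_lit 0, nat_lit 0, nat_lit 0, nat_lit 0, nat_lit 0, nat_lit 0, nat_lit 0, nat_lit 0, [],
 ⟨p124_k21, nat_lit 0, nat_lit 0, nat_lit 0, nat_lit 0, nat_lit 0, [nat_lit 938000000, nat_lit 3282000000, nat_lit 6250000000], [], [nat_lit 23825966495, nat_lit 24431794935, nat_lit 25143287895, nat_lit 25705145815, nat_lit 24397183255, nat_lit 24948788055, nat_lit 25607736495, nat_lit 26120642455], nat_lit 0, nat_lit 0, nat_lit 0, nat_lit 0, nat_lit 0, nat_lit 0, [], [nat_lit 20, nat_lit 40, nat_lit 40, nat_lit 80]⟩, ⟨p124_k7, nat_lit 0, nat_lit 0, nat_lit 603, nat_lit 0, nat_lit 666039, [nat_lit 3282000000, nat_lit 6250000000, nat_lit 14058000000], [], [nat_lit 32587294604, nat_lit 33115254888, nat_lit 33269987884, nat_lit 33737580448, nat_lit 27681193588, nat_lit 28116161192, nat_lit 28423329128, nat_lit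 29046753704], nat_lit 1271250, nat_lit 1271250, nat_lit 1271250, nat_lit 1271250, nat_lit 0, nat_lit 1100001, [nat_lit 780000, nat_lit 1435000, nat_lit 1271250], [nat_lit 71, nat_lit 40, nat_lit 40, nat_lit 80, nat_lit 68, nat_lit 428, nat_lit 200, nat_lit 10]⟩,
 zbF0, [⟨nat_lit 0, nat_lit 92, nat_lit 23, nat_lit 100, nat_lit 1443696707⟩, ⟨nat_lit 4, nat_lit 100, nat_lit 23, nat_lit 92, nat_lit 907211049⟩]⟩
noncomputable def p124_l47 : Lf2 := ⟨nat_lit 0, nat_lit 30, [nat_lit 15, nat_lit 5, nat_lit 5, nat_lit 20], false, nat_lit 80, nat_lit 160, nat_lit 160, nat_lit 336, ⟨nat_lit 326, nat_lit 674, nat_lit 0, nat_lit 7, nat_lit 273, nat_lit 674, nat_lit 108, nat_lit 0, nat_lit 0, nat_lit 0, nat_lit 0, nat_lit 0, nat_lit 42057605, nat_lit 20241914, nat_lit 4700481, nat_lit 4457965, true, false⟩,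
 nat_lit 0, nat_lit 0, nat_lit 3663, nat_lit 0, nat_lit 5190, nat_lit 2331, nat_lit 116, nat_lit 0, nat_lit 0, nat_lit 291, nat_lit 0, nat_lit 0, nat_lit 0, nat_lit 0, nat_lit 0, nat_lit 168500, nat_lit 0, nat_lit 0, [(nat_lit 29, [(nat_lit 0, nat_lit 674)])],
 ⟨p124_k20, nat_lit 0, nat_lit 0, nat_lit 0, nat_lit 0, nat_lit 0, [nat_lit 832586401, nat_lit 1780867200, nat_lit 4050691440], [], [nat_lit 25841708160, nat_lit 26224917675, nat_lit 27297434080, nat_lit 27749235310, nat_lit 25523190580, nat_lit 25868572340, nat_lit 26832094980, nat_lit 27183810300], nat_lit 0, nat_lit 0, nat_lit 0, nat_lit 0, nat_lit 0, nat_lit 0, [], [nat_lit 54, nat_lit 40, nat_lit 40, nat_lit 80]⟩, ⟨p124_k7, nat_lit 0, nat_lit 0, nat_lit 271, nat_lit 0, nat_lit 386797, [nat_lit 1069932000, nat_lit 2037500000, nat_lit 4582908000], [], [nat_lit 8537146938, nat_lit 8658264749, nat_lit 8878352742, nat_lit 8986858688, nat_lit 9592108581, nat_lit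 9666348861, nat_lit 9771145666, nat_lit 9841251697], nat_lit 1271250, nat_lit 1271250, nat_lit 1271250, nat_lit 1271250, nat_lit 1100001, nat_lit 2607000, [nat_lit 780000, nat_lit 1435000, nat_lit 1271250], [nat_lit 71, nat_lit 40, nat_lit 40, nat_lit 80, nat_lit 68, nat_lit 483, nat_lit 250, nat_lit 10]⟩,
 ⟨nat_lit 1936, nat_lit 2237, ⟨.ofNat (nat_lit 648093), .ofNat (nat_lit 705125), .ofNat (nat_lit 659476), .ofNat (nat_lit 716508), .ofNat (nat_lit 647913), .ofNat (nat_lit 703818), .ofNat (nat_lit 659414), .ofNat (nat_lit 715319)⟩, ⟨.ofNat (nat_lit 200000), .ofNat (nat_lit 329112), .ofNat (nat_lit 200000), .ofNat (nat_lit 351886), .ofNat (nat_lit 200000), .ofNat (nat_lit 329055), .ofNat (nat_lit 200000), .ofNat (nat_lit 352066)⟩⟩, [⟨nat_lit 7, nat_lit 87, nat_lit 100, nat_lit 99, nat_lit 99715767⟩]⟩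
noncomputable def p124_l48 : Lf2 := ⟨nat_lit 0, nat_lit 30, [nat_lit 15, nat_lit 5, nat_lit 5, nat_lit 20], false, nat_lit 80, nat_lit 160, nat_lit 160, nat_lit 328, ⟨nat_lit 918, nat_lit 82, nat_lit 0, nat_lit 7, nat_lit 277, nat_lit 82, nat_lit 108, nat_lit 0, nat_lit 0, nat_lit 0, nat_lit 0, nat_lit 0, nat_lit 41644058, nat_lit 20683024, nat_lit 4672918, nat_lit 4477236, true, false⟩,
 nat_lit 0, nat_lit 0, nat_lit 9121, nat_lit 0, nat_lit 9501, nat_lit 6057, nat_lit 4, nat_lit 0, nat_lit 0, nat_lit 870, nat_lit 0, nat_lit 0, nat_lit 0, nat_lit 0, nat_lit 0, nat_lit 20500, nat_lit 0, nat_lit 0, [(nat_lit 29, [(nat_lit 0, nat_lit 82)])],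
 ⟨p124_k20, nat_lit 0, nat_lit 0, nat_lit 0, nat_lit 0, nat_lit 0, [nat_lit 925175200, nat_lit 3099369600, nat_lit 7480231200], [], [nat_lit 30480710538, nat_lit 31244662780, nat_lit 33031263716, nat_lit 33747125299, nat_lit 28590911056, nat_lit 29112019398, nat_lit 30701549464, nat_lit 31339700520], nat_lit 0, nat_lit 0, nat_lit 0, nat_lit 0, nat_lit 0, nat_lit 0, [], [nat_lit 54, nat_lit 40, nat_lit 40, nat_lit 80]⟩, ⟨p124_k10, nat_lit 0, nat_lit 0, nat_lit 368, nat_lit 0, nat_lit 422051, [nat_lit 3012876000, nat_lit 5737500000, nat_lit 12905244000], [], [nat_lit 23184941715, nat_lit 23516619804, nat_lit 24102282960, nat_lit 24400681938, nat_lit 25815550629, nat_lit 26035480700, nat_lit 26652343878, nat_lit 26960421259], nat_lit 1271250, nat_lit 1271250, nat_lit 1271250, nat_lit 1271250, nat_lit 1100001, nat_lit 2538500, [nat_lit 780000, nat_lit 1435000, nat_lit 1271250], [nat_lit 71, nat_lit 40, nat_lit 40, nat_lit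 80, nat_lit 68, nat_lit 483, nat_lit 250, nat_lit 10]⟩,
 ⟨nat_lit 1936, nat_lit 2237, ⟨.ofNat (nat_lit 659476), .ofNat (nat_lit 716508), .ofNat (nat_lit 670859), .ofNat (nat_lit 727891), .ofNat (nat_lit 659414), .ofNat (nat_lit 715319), .ofNat (nat_lit 670915), .ofNat (nat_lit 726821)⟩, ⟨.ofNat (nat_lit 200000), .ofNat (nat_lit 329112), .ofNat (nat_lit 200000), .ofNat (nat_lit 351886), .ofNat (nat_lit 200000), .ofNat (nat_lit 329055), .ofNat (nat_lit 200000), .ofNat (nat_lit 352066)⟩⟩, [⟨nat_lit 7, nat_lit 92, nat_lit 99, nat_lit 100, nat_lit 285662864⟩]⟩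
noncomputable def p124_l49 : Lf2 := ⟨nat_lit 0, nat_lit 30, [nat_lit 15, nat_lit 5, nat_lit 5, nat_lit 20], false, nat_lit 80, nat_lit 160, nat_lit 160, nat_lit 336, ⟨nat_lit 257, nat_lit 743, nat_lit 0, nat_lit 7, nat_lit 275, nat_lit 743, nat_lit 108, nat_lit 0, nat_lit 0, nat_lit 0, nat_lit 0, nat_lit 0, nat_lit 41871688, nat_lit 20440500, nat_lit 4687812, nat_lit 4466726, true, false⟩,
 nat_lit 0, nat_lit 0, nat_lit 2861, nat_lit 0, nat_lit 4695, nat_lit 1820, nat_lit 9, nat_lit 0, nat_lit 0, nat_lit 226, nat_lit 0, nat_lit 0, nat_lit 0, nat_lit 0, nat_lit 0, nat_lit 185750, nat_lit 0, nat_lit 0, [(nat_lit 29, [(nat_lit 0, nat_lit 743)])],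
 ⟨p124_k22, nat_lit 0, nat_lit 0, nat_lit 0, nat_lit 0, nat_lit 0, [nat_lit 821794800, nat_lit 1620652001, nat_lit 2933545200], [], [nat_lit 25641707005, nat_lit 26032365990, nat_lit 27156202335, nat_lit 27514877650, nat_lit 25575431710, nat_lit 25927658480, nat_lit 26944153100, nat_lit 27268298960], nat_lit 0, nat_lit 0, nat_lit 0, nat_lit 0, nat_lit 0, nat_lit 0, [], [nat_lit 20, nat_lit 40, nat_lit 40, nat_lit 80]⟩, ⟨p124_k7, nat_lit 0, nat_lit 0, nat_lit 400, nat_lit 0, nat_lit 520119, [nat_lit 843474000, nat_lit 1606250000, nat_lit 3612906000], [], [nat_lit 6803647240, nat_lit 6993959548, nat_lit 7072280016, nat_lit 7242862810, nat_lit 7636539103, nat_lit 7753512169, nat_lit 7778302991, nat_lit 7881468413], nat_lit 1271250, nat_lit 1271250, nat_lit 1271250, nat_lit 1271250, nat_lit 1100001, nat_lit 2607000, [nat_lit 780000, nat_lit 1435000, nat_lit 1271250], [nat_lit 71, nat_lit 40, nat_lit 40, nat_lit 80, nat_lit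 68, nat_lit 483, nat_lit 250, nat_lit 10]⟩,
 ⟨nat_lit 1581, nat_lit 1937, ⟨.ofNat (nat_lit 647901), .ofNat (nat_lit 703818), .ofNat (nat_lit 670898), .ofNat (nat_lit 726815), .ofNat (nat_lit 647865), .ofNat (nat_lit 702528), .ofNat (nat_lit 671166), .ofNat (nat_lit 725829)⟩, ⟨.ofNat (nat_lit 200000), .ofNat (nat_lit 329055), .ofNat (nat_lit 200000), .ofNat (nat_lit 352066), .ofNat (nat_lit 200000), .ofNat (nat_lit 328788), .ofNat (nat_lit 200000), .ofNat (nat_lit 352103)⟩⟩, [⟨nat_lit 19, nat_lit 100, nat_lit 90, nat_lit 100, nat_lit 76766150⟩]⟩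
noncomputable def p124_l50 : Lf2 := ⟨nat_lit 0, nat_lit 30, [nat_lit 15, nat_lit 5, nat_lit 5, nat_lit 20], false, nat_lit 80, nat_lit 120, nat_lit 160, nat_lit 336, ⟨nat_lit 340, nat_lit 660, nat_lit 0, nat_lit 7, nat_lit 272, nat_lit 660, nat_lit 97, nat_lit 0, nat_lit 0, nat_lit 0, nat_lit 0, nat_lit 0, nat_lit 42614418, nat_lit 20354516, nat_lit 4031066, nat_lit 4328542, true, false⟩,
 nat_lit 0, nat_lit 0, nat_lit 3816, nat_lit 0, nat_lit 2832, nat_lit 2428, nat_lit 229, nat_lit 0, nat_lit 0, nat_lit 303, nat_lit 0, nat_lit 0, nat_lit 0, nat_lit 0, nat_lit 0, nat_lit 165000, nat_lit 0, nat_lit 0, [(nat_lit 29, [(nat_lit 0, nat_lit 660)])],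
 ⟨p124_k21, nat_lit 0, nat_lit 0, nat_lit 0, nat_lit 0, nat_lit 0, [nat_lit 834776001, nat_lit 1806240001, nat_lit 3304024000], [], [nat_lit 23530999029, nat_lit 23834613065, nat_lit 24851079445, nat_lit 25158909380, nat_lit 23822464226, nat_lit 24106384328, nat_lit 25083941673, nat_lit 25353286763], nat_lit 0, nat_lit 0, nat_lit 0, nat_lit 0, nat_lit 0, nat_lit 0, [], [nat_lit 20, nat_lit 40, nat_lit 40, nat_lit 80]⟩, ⟨p124_k7, nat_lit 0, nat_lit 0, nat_lit 405, nat_lit 0, nat_lit 533707, [nat_lit 1115880000, nat_lit 2125000000, nat_lit 4779720000], [], [nat_lit 8915386674, nat_lit 9041648406, nat_lit 9271183042, nat_lit 9384304982, nat_lit 10015868188, nat_lit 10093289603, nat_lit 10202703363, nat_lit 10271809060], nat_lit 1271250, nat_lit 1271250, nat_lit 1271250, nat_lit 1271250, nat_lit 1100001, nat_lit 2607000, [nat_lit 780000, nat_lit 1435000, nat_lit 1271250], [nat_lit 71, nat_lit 40, nat_lit 40, nat_lit 80, nat_lit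 68, nat_lit 483, nat_lit 250, nat_lit 10]⟩,
 ⟨nat_lit 1118, nat_lit 1582, ⟨.ofNat (nat_lit 647829), .ofNat (nat_lit 702528), .ofNat (nat_lit 659470), .ofNat (nat_lit 714169), .ofNat (nat_lit 648063), .ofNat (nat_lit 701254), .ofNat (nat_lit 659923), .ofNat (nat_lit 713114)⟩, ⟨.ofNat (nat_lit 200000), .ofNat (nat_lit 274152), .ofNat (nat_lit 200000), .ofNat (nat_lit 297467), .ofNat (nat_lit 200000), .ofNat (nat_lit 274990), .ofNat (nat_lit 200000), .ofNat (nat_lit 298741)⟩⟩, [⟨nat_lit 19, nat_lit 100, nat_lit 87, nat_lit 99, nat_lit 103922462⟩]⟩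
noncomputable def p124_l51 : Lf2 := ⟨nat_lit 0, nat_lit 30, [nat_lit 15, nat_lit 5, nat_lit 5, nat_lit 20], false, nat_lit 80, nat_lit 120, nat_lit 160, nat_lit 336, ⟨nat_lit 240, nat_lit 760, nat_lit 0, nat_lit 7, nat_lit 272, nat_lit 760, nat_lit 97, nat_lit 0, nat_lit 0, nat_lit 0, nat_lit 0, nat_lit 0, nat_lit 42622739, nat_lit 20335065, nat_lit 4042196, nat_lit 4329773, true, false⟩,
 nat_lit 0, nat_lit 0, nat_lit 2694, nat_lit 0, nat_lit 2760, nat_lit 1714, nat_lit 171, nat_lit 0, nat_lit 0, nat_lit 214, nat_lit 0, nat_lit 0, nat_lit 0, nat_lit 0, nat_lit 0, nat_lit 190000, nat_lit 0, nat_lit 0, [(nat_lit 29, [(nat_lit 0, nat_lit 760)])],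
 ⟨p124_k23, nat_lit 0, nat_lit 0, nat_lit 0, nat_lit 0, nat_lit 0, [nat_lit 819136000, nat_lit 1582640001, nat_lit 2857664000], [], [nat_lit 23818816075, nat_lit 24119066055, nat_lit 25110902395, nat_lit 25391908480, nat_lit 24122125985, nat_lit 24402987095, nat_lit 25350949615, nat_lit 25612115415], nat_lit 0, nat_lit 0, nat_lit 0, nat_lit 0, nat_lit 0, nat_lit 0, [], [nat_lit 20, nat_lit 40, nat_lit 40, nat_lit 80]⟩, ⟨p124_k7, nat_lit 0, nat_lit 0, nat_lit 430, nat_lit 0, nat_lit 609335, [nat_lit 787680000, nat_lit 1500000000, nat_lit 3373920000], [], [nat_lit 6291511012, nat_lit 6380639118, nat_lit 6542663756, nat_lit 6622516196, nat_lit 7068313353, nat_lit 7122964033, nat_lit 7200192861, nat_lit 7249125363], nat_lit 1271250, nat_lit 1271250, nat_lit 1271250, nat_lit 1271250, nat_lit 1100001, nat_lit 2607000, [nat_lit 780000, nat_lit 1435000, nat_lit 1271250], [nat_lit 71, nat_lit 40, nat_lit 40, nat_lit 80, nat_lit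 68, nat_lit 483, nat_lit 250, nat_lit 10]⟩,
 ⟨nat_lit 0, nat_lit 1119, ⟨.ofNat (nat_lit 647199), .ofNat (nat_lit 701253), .ofNat (nat_lit 658842), .ofNat (nat_lit 712899), .ofNat (nat_lit 649068), .ofNat (nat_lit 699996), .ofNat (nat_lit 661336), .ofNat (nat_lit 712266)⟩, ⟨.ofNat (nat_lit 200000), .ofNat (nat_lit 274990), .ofNat (nat_lit 200000), .ofNat (nat_lit 298741), .ofNat (nat_lit 200000), .ofNat (nat_lit 274999), .ofNat (nat_lit 200000), .ofNat (nat_lit 299999)⟩⟩, [⟨nat_lit 7, nat_lit 87, nat_lit 100, nat_lit 99, nat_lit 73368914⟩]⟩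
noncomputable def p124_l52 : Lf2 := ⟨nat_lit 0, nat_lit 30, [nat_lit 15, nat_lit 5, nat_lit 5, nat_lit 20], false, nat_lit 120, nat_lit 160, nat_lit 160, nat_lit 336, ⟨nat_lit 207, nat_lit 793, nat_lit 0, nat_lit 7, nat_lit 272, nat_lit 793, nat_lit 125, nat_lit 0, nat_lit 0, nat_lit 0, nat_lit 0, nat_lit 0, nat_lit 41247615, nat_lit 19926572, nat_lit 5825813, nat_lit 4646833, true, false⟩,
 nat_lit 0, nat_lit 0, nat_lit 2320, nat_lit 0, nat_lit 4608, nat_lit 1476, nat_lit 0, nat_lit 0, nat_lit 0, nat_lit 184, nat_lit 0, nat_lit 0, nat_lit 0, nat_lit 0, nat_lit 0, nat_lit 198250, nat_lit 0, nat_lit 0, [(nat_lit 29, [(nat_lit 0, nat_lit 793)])],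
 ⟨p124_k21, nat_lit 0, nat_lit 0, nat_lit 0, nat_lit 0, nat_lit 0, [nat_lit 813974801, nat_lit 1508852001, nat_lit 2710365200], [], [nat_lit 25884034704, nat_lit 26251679640, nat_lit 27288900812, nat_lit 27626946022, nat_lit 25847437432, nat_lit 26196133220, nat_lit 27182243344, nat_lit 27503261728], nat_lit 0, nat_lit 0, nat_lit 0, nat_lit 0, nat_lit 0, nat_lit 0, [], [nat_lit 20, nat_lit 40, nat_lit 40, nat_lit 80]⟩, ⟨p124_k7, nat_lit 0, nat_lit 0, nat_lit 405, nat_lit 0, nat_lit 533707, [nat_lit 679374000, nat_lit 1293750000, nat_lit 2910006000], [], [nat_lit 5437718788, nat_lit 5514548746, nat_lit 5654291260, nat_lit 5723131207, nat_lit 6107871662, nat_lit 6155002556, nat_lit 6221699659, nat_lit 6263239434], nat_lit 1271250, nat_lit 1271250, nat_lit 1271250, nat_lit 1271250, nat_lit 1100001, nat_lit 2607000, [nat_lit 780000, nat_lit 1435000, nat_lit 1271250], [nat_lit 71, nat_lit 40, nat_lit 40, nat_lit 80, nat_lit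 68, nat_lit 483, nat_lit 250, nat_lit 10]⟩,
 ⟨nat_lit 1118, nat_lit 1582, ⟨.ofNat (nat_lit 647829), .ofNat (nat_lit 702528), .ofNat (nat_lit 659470), .ofNat (nat_lit 714169), .ofNat (nat_lit 648063), .ofNat (nat_lit 701254), .ofNat (nat_lit 659923), .ofNat (nat_lit 713114)⟩, ⟨.ofNat (nat_lit 274152), .ofNat (nat_lit 328788), .ofNat (nat_lit 297467), .ofNat (nat_lit 352103), .ofNat (nat_lit 274990), .ofNat (nat_lit 328117), .ofNat (nat_lit 298741), .ofNat (nat_lit 351868)⟩⟩, [⟨nat_lit 16, nat_lit 28, nat_lit 100, nat_lit 91, nat_lit 111415249⟩, ⟨nat_lit 19, nat_lit 100, nat_lit 87, nat_lit 99, nat_lit 63190062⟩]⟩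
noncomputable def p124_l53 : Lf2 := ⟨nat_lit 0, nat_lit 30, [nat_lit 15, nat_lit 5, nat_lit 5, nat_lit 20], false, nat_lit 120, nat_lit 160, nat_lit 160, nat_lit 336, ⟨nat_lit 285, nat_lit 715, nat_lit 0, nat_lit 7, nat_lit 272, nat_lit 715, nat_lit 125, nat_lit 0, nat_lit 0, nat_lit 0, nat_lit 0, nat_lit 0, nat_lit 41269200, nat_lit 19912132, nat_lit 5818668, nat_lit 4644765, true, false⟩,
 nat_lit 0, nat_lit 0, nat_lit 3202, nat_lit 0, nat_lit 2786, nat_lit 2037, nat_lit 184, nat_lit 0, nat_lit 0, nat_lit 255, nat_lit 0, nat_lit 0, nat_lit 0, nat_lit 0, nat_lit 0, nat_lit 178750, nat_lit 0, nat_lit 0, [(nat_lit 29, [(nat_lit 0, nat_lit 715)])],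
 ⟨p124_k23, nat_lit 0, nat_lit 0, nat_lit 0, nat_lit 0, nat_lit 0, [nat_lit 826174001, nat_lit 1683260001, nat_lit 3058526000], [], [nat_lit 24115951047, nat_lit 24397916793, nat_lit 25346652703, nat_lit 25617508248, nat_lit 24418395749, nat_lit 24687326889, nat_lit 25598739011, nat_lit 25849099729], nat_lit 0, nat_lit 0, nat_lit 0, nat_lit 0, nat_lit 0, nat_lit 0, [], [nat_lit 20, nat_lit 40, nat_lit 40, nat_lit 80]⟩, ⟨p124_k7, nat_lit 0, nat_lit 0, nat_lit 430, nat_lit 0, nat_lit 609335, [nat_lit 935370000, nat_lit 1781250000, nat_lit 4006530000], [], [nat_lit 7457231046, nat_lit 7563100749, nat_lit 7755507618, nat_lit 7850355303, nat_lit 8379571401, nat_lit 8444472799, nat_lit 8536121058, nat_lit 8603133705], nat_lit 1271250, nat_lit 1271250, nat_lit 1271250, nat_lit 1271250, nat_lit 1100001, nat_lit 2607000, [nat_lit 780000, nat_lit 1435000, nat_lit 1271250], [nat_lit 71, nat_lit 40, nat_lit 40, nat_lit 80, nat_lit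 68, nat_lit 483, nat_lit 250, nat_lit 10]⟩,
 ⟨nat_lit 0, nat_lit 1119, ⟨.ofNat (nat_lit 647199), .ofNat (nat_lit 701253), .ofNat (nat_lit 658842), .ofNat (nat_lit 712899), .ofNat (nat_lit 649068), .ofNat (nat_lit 699996), .ofNat (nat_lit 661336), .ofNat (nat_lit 712266)⟩, ⟨.ofNat (nat_lit 274990), .ofNat (nat_lit 328114), .ofNat (nat_lit 298741), .ofNat (nat_lit 351866), .ofNat (nat_lit 274999), .ofNat (nat_lit 324996), .ofNat (nat_lit 299999), .ofNat (nat_lit 349997)⟩⟩, [⟨nat_lit 4, nat_lit 100, nat_lit 17, nat_lit 94, nat_lit 582483679⟩, ⟨nat_lit 7, nat_lit 87, nat_lit 100, nat_lit 99, nat_lit 87195634⟩]⟩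
noncomputable def p124_l54 : Lf2 := ⟨nat_lit 0, nat_lit 30, [nat_lit 15, nat_lit 5, nat_lit 5, nat_lit 20], false, nat_lit 80, nat_lit 160, nat_lit 160, nat_lit 328, ⟨nat_lit 583, nat_lit 417, nat_lit 0, nat_lit 7, nat_lit 277, nat_lit 417, nat_lit 108, nat_lit 0, nat_lit 0, nat_lit 0, nat_lit 0, nat_lit 0, nat_lit 41706781, nat_lit 20636698, nat_lit 4656521, nat_lit 4471492, true, false⟩,
 nat_lit 0, nat_lit 0, nat_lit 5264, nat_lit 0, nat_lit 2924, nat_lit 3495, nat_lit 285, nat_lit 0, nat_lit 0, nat_lit 530, nat_lit 0, nat_lit 0, nat_lit 0, nat_lit 0, nat_lit 0, nat_lit 104250, nat_lit 0, nat_lit 0, [(nat_lit 29, [(nat_lit 0, nat_lit 417)])],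
 ⟨p124_k24, nat_lit 0, nat_lit 0, nat_lit 0, nat_lit 0, nat_lit 0, [nat_lit 872781200, nat_lit 1505078800, nat_lit 2349588000, nat_lit 4388678800], [], [nat_lit 23750949453, nat_lit 24366774557, nat_lit 25079051165, nat_lit 25649702781, nat_lit 24312314397, nat_lit 24861075917, nat_lit 25520459453, nat_lit 26030844477], nat_lit 0, nat_lit 0, nat_lit 0, nat_lit 0, nat_lit 0, nat_lit 0, [], [nat_lit 182, nat_lit 40, nat_lit 40, nat_lit 80]⟩, ⟨p124_k10, nat_lit 0, nat_lit 0, nat_lit 436, nat_lit 0, nat_lit 625486, [nat_lit 1913406000, nat_lit 3643750000, nat_lit 8195814000], [], [nat_lit 15677763300, nat_lit 15841979252, nat_lit 16214905357, nat_lit 16399453100, nat_lit 17343483971, nat_lit 17478410649, nat_lit 17686586388, nat_lit 17813276657], nat_lit 1271250, nat_lit 1271250, nat_lit 1271250, nat_lit 1271250, nat_lit 1100001, nat_lit 2538500, [nat_lit 780000, nat_lit 1435000, nat_lit 1271250], [nat_lit 71, nat_lit 40,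 nat_lit 40, nat_lit 80, nat_lit 68, nat_lit 483, nat_lit 250, nat_lit 10]⟩,
 ⟨nat_lit 0, nat_lit 1582, ⟨.ofNat (nat_lit 657909), .ofNat (nat_lit 713855), .ofNat (nat_lit 669237), .ofNat (nat_lit 725184), .ofNat (nat_lit 660855), .ofNat (nat_lit 712166), .ofNat (nat_lit 673026), .ofNat (nat_lit 724337)⟩, ⟨.ofNat (nat_lit 200000), .ofNat (nat_lit 328785), .ofNat (nat_lit 200000), .ofNat (nat_lit 352101), .ofNat (nat_lit 200000), .ofNat (nat_lit 324996), .ofNat (nat_lit 200000), .ofNat (nat_lit 349997)⟩⟩, [⟨nat_lit 0, nat_lit 91, nat_lit 23, nat_lit 100, nat_lit 421033451⟩, ⟨nat_lit 4, nat_lit 100, nat_lit 23, nat_lit 92, nat_lit 533234243⟩, ⟨nat_lit 19, nat_lit 99, nat_lit 92, nat_lit 100, nat_lit 175598929⟩]⟩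
noncomputable def p124_l55 : Lf2 := ⟨nat_lit 0, nat_lit 30, [nat_lit 15, nat_lit 5, nat_lit 5, nat_lit 20], false, nat_lit 80, nat_lit 160, nat_lit 0, nat_lit 160, ⟨nat_lit 1000, nat_lit 0, nat_lit 0, nat_lit 0, nat_lit 0, nat_lit 0, nat_lit 0, nat_lit 0, nat_lit 0, nat_lit 0, nat_lit 0, nat_lit 0, nat_lit 0, nat_lit 0, nat_lit 0, nat_lit 0, false, false⟩,
 nat_lit 0, nat_lit 0, nat_lit 9756, nat_lit 0, nat_lit 3061, nat_lit 6754, nat_lit 561, nat_lit 0, nat_lit 0, nat_lit 827, nat_lit 0, nat_lit 0, nat_lit 0, nat_lit 0, nat_lit 0, nat_lit 0, nat_lit 0, nat_lit 0, [],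
 ⟨p124_k20, nat_lit 0, nat_lit 0, nat_lit 0, nat_lit 0, nat_lit 0, [nat_lit 938000000, nat_lit 3282000000, nat_lit 7968000000], [], [nat_lit 23466179493, nat_lit 24640762207, nat_lit 24756763141, nat_lit 25860880928, nat_lit 23956715957, nat_lit 25005241839, nat_lit 25128524397, nat_lit 26107762968], nat_lit 0, nat_lit 0, nat_lit 0, nat_lit 0, nat_lit 0, nat_lit 0, [], [nat_lit 54, nat_lit 40, nat_lit 40, nat_lit 80]⟩, ⟨p124_k12, nat_lit 0, nat_lit 0, nat_lit 552, nat_lit 0, nat_lit 700702, [nat_lit 3282000000, nat_lit 6250000000, nat_lit 11872000000], [], [nat_lit 29758475562, nat_lit 30350090078, nat_lit 30531628554, nat_lit 31594938659, nat_lit 25859696122, nat_lit 26345658790, nat_lit 26475259398, nat_lit 26910584718], nat_lit 1271250, nat_lit 1271250, nat_lit 1271250, nat_lit 1271250, nat_lit 0, nat_lit 1100001, [nat_lit 780000, nat_lit 1435000, nat_lit 1271250], [nat_lit 23, nat_lit 40, nat_lit 40, nat_lit 80, nat_lit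 12, nat_lit 428, nat_lit 200, nat_lit 11]⟩,
 zbF0, [⟨nat_lit 0, nat_lit 87, nat_lit 32, nat_lit 100, nat_lit 1129628325⟩, ⟨nat_lit 4, nat_lit 100, nat_lit 32, nat_lit 90, nat_lit 629930527⟩]⟩
noncomputable def p124_l56 : Lf2 := ⟨nat_lit 0, nat_lit 30, [nat_lit 15, nat_lit 5, nat_lit 5, nat_lit 20], false, nat_lit 80, nat_lit 160, nat_lit 160, nat_lit 320, ⟨nat_lit 1000, nat_lit 0, nat_lit 0, nat_lit 0, nat_lit 0, nat_lit 0, nat_lit 0, nat_lit 0, nat_lit 0, nat_lit 0, nat_lit 0, nat_lit 0, nat_lit 0, nat_lit 0, nat_lit 0, nat_lit 0, false, false⟩,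
 nat_lit 0, nat_lit 0, nat_lit 8214, nat_lit 0, nat_lit 3109, nat_lit 5686, nat_lit 567, nat_lit 0, nat_lit 0, nat_lit 855, nat_lit 0, nat_lit 0, nat_lit 0, nat_lit 0, nat_lit 0, nat_lit 0, nat_lit 0, nat_lit 0, [],
 ⟨p124_k20, nat_lit 0, nat_lit 0, nat_lit 0, nat_lit 0, nat_lit 0, [nat_lit 938000000, nat_lit 3282000000, nat_lit 7968000000], [], [nat_lit 23373725967, nat_lit 23965055900, nat_lit 24668032879, nat_lit 25216311834, nat_lit 23824855583, nat_lit 24352530412, nat_lit 25001568869, nat_lit 25505465784], nat_lit 0, nat_lit 0, nat_lit 0, nat_lit 0, nat_lit 0, nat_lit 0, [], [nat_lit 54, nat_lit 40, nat_lit 40, nat_lit 80]⟩, ⟨p124_k12, nat_lit 0, nat_lit 0, nat_lit 371, nat_lit 0, nat_lit 578748, [nat_lit 3282000000, nat_lit 6250000000, nat_lit 11872000000], [], [nat_lit 25952739256, nat_lit 26651524436, nat_lit 26945312304, nat_lit 27580407100, nat_lit 28772686644, nat_lit 29312345476, nat_lit 29483375116, nat_lit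 29973323274], nat_lit 1271250, nat_lit 1271250, nat_lit 1271250, nat_lit 1271250, nat_lit 1100001, nat_lit 2470000, [nat_lit 780000, nat_lit 1435000, nat_lit 1271250], [nat_lit 23, nat_lit 40, nat_lit 40, nat_lit 80, nat_lit 12, nat_lit 483, nat_lit 250, nat_lit 11]⟩,
 zbF0, [⟨nat_lit 0, nat_lit 84, nat_lit 33, nat_lit 100, nat_lit 672370270⟩, ⟨nat_lit 7, nat_lit 97, nat_lit 94, nat_lit 100, nat_lit 318309832⟩]⟩
noncomputable def p124_l57 : Lf2 := ⟨nat_lit 0, nat_lit 30, [nat_lit 15, nat_lit 5, nat_lit 5, nat_lit 20], false, nat_lit 80, nat_lit 160, nat_lit 160, nat_lit 320, ⟨nat_lit 1000, nat_lit 0, nat_lit 0, nat_lit 0, nat_lit 0, nat_lit 0, nat_lit 0, nat_lit 0, nat_lit 0, nat_lit 0, nat_lit 0, nat_lit 0, nat_lit 0, nat_lit 0, nat_lit 0, nat_lit 0, false, false⟩,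
 nat_lit 0, nat_lit 0, nat_lit 9219, nat_lit 0, nat_lit 3089, nat_lit 6382, nat_lit 423, nat_lit 0, nat_lit 0, nat_lit 820, nat_lit 0, nat_lit 0, nat_lit 0, nat_lit 0, nat_lit 0, nat_lit 0, nat_lit 0, nat_lit 0, [],
 ⟨p124_k21, nat_lit 0, nat_lit 0, nat_lit 0, nat_lit 0, nat_lit 0, [nat_lit 938000000, nat_lit 3282000000, nat_lit 6250000000], [], [nat_lit 23902650033, nat_lit 24533893727, nat_lit 25245137765, nat_lit 25904506272, nat_lit 24393489267, nat_lit 24955282487, nat_lit 25612671833, nat_lit 26145427071], nat_lit 0, nat_lit 0, nat_lit 0, nat_lit 0, nat_lit 0, nat_lit 0, [], [nat_lit 20, nat_lit 40, nat_lit 40, nat_lit 80]⟩, ⟨p124_k12, nat_lit 0, nat_lit 0, nat_lit 414, nat_lit 0, nat_lit 700702, [nat_lit 3282000000, nat_lit 6250000000, nat_lit 11872000000], [], [nat_lit 26105168348, nat_lit 26735587236, nat_lit 26957595060, nat_lit 27526438772, nat_lit 28327177444, nat_lit 28749974636, nat_lit 28923417032, nat_lit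 29448918996], nat_lit 1271250, nat_lit 1271250, nat_lit 1271250, nat_lit 1271250, nat_lit 1100001, nat_lit 2470000, [nat_lit 780000, nat_lit 1435000, nat_lit 1271250], [nat_lit 23, nat_lit 40, nat_lit 40, nat_lit 80, nat_lit 12, nat_lit 483, nat_lit 250, nat_lit 11]⟩,
 zbF0, [⟨nat_lit 0, nat_lit 89, nat_lit 24, nat_lit 100, nat_lit 808039638⟩, ⟨nat_lit 4, nat_lit 100, nat_lit 23, nat_lit 92, nat_lit 853691624⟩, ⟨nat_lit 7, nat_lit 97, nat_lit 94, nat_lit 100, nat_lit 302757125⟩]⟩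
noncomputable def b_V_900_700_20_35 : St := ⟨true, nat_lit 0, nat_lit 1, nat_lit 1, nat_lit 120, nat_lit 380, nat_lit 400, nat_lit 280, nat_lit 320, nat_lit 240, nat_lit 280, nat_lit 100, nat_lit 120, nat_lit 80, nat_lit 160, nat_lit 0, nat_lit 336, nat_lit 100, nat_lit 120, nat_lit 0, nat_lit 600, nat_lit 0, nat_lit 0⟩
theorem d_V_900_700_20_35 (h : EB TB.env) : Dead b_V_900_700_20_35 := chkB_sound0 h (T :=
(.spl (nat_lit 1) (nat_lit 300)
(.spl (nat_lit 5) (nat_lit 160)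
(.spl (nat_lit 0) (nat_lit 390)
(.leaf p124_l45)
(.leaf p124_l46))
(.spl (nat_lit 0) (nat_lit 390)
(.spl (nat_lit 0) (nat_lit 385)
(.spl (nat_lit 1) (nat_lit 290)
(.leaf p124_l47)
(.trX (nat_lit 19) (nat_lit 97) (nat_lit 84) (nat_lit 100) (nat_lit 328) (.leaf p124_l48)))
(.leaf p124_l49))
(.spl (nat_lit 1) (nat_lit 290)
(.spl (nat_lit 4) (nat_lit 120)
(.spl (nat_lit 0) (nat_lit 395)
(.leaf p124_l50)
(.leaf p124_l51))
(.spl (nat_lit 0) (nat_lit 395)
(.leaf p124_l52)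
(.leaf p124_l53)))
(.trX (nat_lit 19) (nat_lit 97) (nat_lit 84) (nat_lit 100) (nat_lit 328) (.leaf p124_l54)))))
(.trX (nat_lit 19) (nat_lit 94) (nat_lit 88) (nat_lit 100) (nat_lit 320) (.spl (nat_lit 5) (nat_lit 160)
(.leaf p124_l55)
(.spl (nat_lit 0) (nat_lit 390)
(.leaf p124_l56)
(.leaf p124_l57)))))) (by decide +kernel)
noncomputable def p124_l58 : Lf2 := ⟨nat_lit 0, nat_lit 30, [nat_lit 15, nat_lit 5, nat_lit 5, nat_lit 20], false, nat_lit 80, nat_lit 160, nat_lit 0, nat_lit 160, ⟨nat_lit 1000, nat_lit 0, nat_lit 0, nat_lit 0, nat_lit 0, nat_lit 0, nat_lit 0, nat_lit 0, nat_lit 0, nat_lit 0, nat_lit 0, nat_lit 0, nat_lit 0, nat_lit 0, nat_lit 0, nat_lit 0, false, false⟩,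
 nat_lit 0, nat_lit 0, nat_lit 10761, nat_lit 0, nat_lit 3082, nat_lit 6847, nat_lit 569, nat_lit 0, nat_lit 0, nat_lit 953, nat_lit 0, nat_lit 0, nat_lit 0, nat_lit 0, nat_lit 0, nat_lit 0, nat_lit 0, nat_lit 0, [],
 ⟨p124_k20, nat_lit 0, nat_lit 0, nat_lit 0, nat_lit 0, nat_lit 0, [nat_lit 938000000, nat_lit 3282000000, nat_lit 7968000000], [], [nat_lit 24639384667, nat_lit 25185652257, nat_lit 26351286544, nat_lit 27005433428, nat_lit 24993495339, nat_lit 25482740877, nat_lit 26564811708, nat_lit 27161808358], nat_lit 0, nat_lit 0, nat_lit 0, nat_lit 0, nat_lit 0, nat_lit 0, [], [nat_lit 54, nat_lit 40, nat_lit 40, nat_lit 80]⟩, ⟨p124_k7, nat_lit 0, nat_lit 0, nat_lit 550, nat_lit 0, nat_lit 520119, [nat_lit 3282000000, nat_lit 6250000000, nat_lit 14058000000], [], [nat_lit 33327561206, nat_lit 33933480432, nat_lit 34539399658, nat_lit 35072449744, nat_lit 28743332030, nat_lit 29246160466, nat_lit 30035278956, nat_lit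 30740790408], nat_lit 1271250, nat_lit 1271250, nat_lit 1271250, nat_lit 1271250, nat_lit 0, nat_lit 1100001, [nat_lit 780000, nat_lit 1435000, nat_lit 1271250], [nat_lit 71, nat_lit 40, nat_lit 40, nat_lit 80, nat_lit 68, nat_lit 428, nat_lit 200, nat_lit 9]⟩,
 zbF0, []⟩
noncomputable def p124_l59 : Lf2 := ⟨nat_lit 0, nat_lit 30, [nat_lit 15, nat_lit 5, nat_lit 5, nat_lit 20], false, nat_lit 80, nat_lit 160, nat_lit 160, nat_lit 336, ⟨nat_lit 1000, nat_lit 0, nat_lit 0, nat_lit 0, nat_lit 0, nat_lit 0, nat_lit 0, nat_lit 0, nat_lit 0, nat_lit 0, nat_lit 0, nat_lit 0, nat_lit 0, nat_lit 0, nat_lit 0, nat_lit 0, false, false⟩,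
 nat_lit 0, nat_lit 0, nat_lit 11219, nat_lit 0, nat_lit 3093, nat_lit 7139, nat_lit 573, nat_lit 0, nat_lit 0, nat_lit 892, nat_lit 0, nat_lit 0, nat_lit 0, nat_lit 0, nat_lit 0, nat_lit 0, nat_lit 0, nat_lit 0, [],
 ⟨p124_k20, nat_lit 0, nat_lit 0, nat_lit 0, nat_lit 0, nat_lit 0, [nat_lit 938000000, nat_lit 3282000000, nat_lit 7968000000], [], [nat_lit 24580684633, nat_lit 24854228151, nat_lit 26368255056, nat_lit 26695859039, nat_lit 24925549761, nat_lit 25170518530, nat_lit 26576824742, nat_lit 26875786855], nat_lit 0, nat_lit 0, nat_lit 0, nat_lit 0, nat_lit 0, nat_lit 0, [], [nat_lit 54, nat_lit 40, nat_lit 40, nat_lit 80]⟩, ⟨p124_k7, nat_lit 0, nat_lit 0, nat_lit 276, nat_lit 0, nat_lit 386797, [nat_lit 3282000000, nat_lit 6250000000, nat_lit 14058000000], [], [nat_lit 27261305436, nat_lit 27593986336, nat_lit 28592029036, nat_lit 28884449173, nat_lit 30001342133, nat_lit 30202011101, nat_lit 31205224700, nat_lit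 31499449493], nat_lit 1271250, nat_lit 1271250, nat_lit 1271250, nat_lit 1271250, nat_lit 1100001, nat_lit 2607000, [nat_lit 780000, nat_lit 1435000, nat_lit 1271250], [nat_lit 71, nat_lit 40, nat_lit 40, nat_lit 80, nat_lit 68, nat_lit 483, nat_lit 250, nat_lit 10]⟩,
 zbF0, [⟨nat_lit 19, nat_lit 100, nat_lit 87, nat_lit 99, nat_lit 305546375⟩]⟩
noncomputable def p124_l60 : Lf2 := ⟨nat_lit 0, nat_lit 30, [nat_lit 15, nat_lit 5, nat_lit 5, nat_lit 20], false, nat_lit 80, nat_lit 160, nat_lit 160, nat_lit 336, ⟨nat_lit 765, nat_lit 235, nat_lit 0, nat_lit 7, nat_lit 294, nat_lit 235, nat_lit 108, nat_lit 0, nat_lit 0, nat_lit 0, nat_lit 0, nat_lit 0, nat_lit 40191081, nat_lit 22237510, nat_lit 4571409, nat_lit 4535704, true, true⟩,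
 nat_lit 0, nat_lit 0, nat_lit 8609, nat_lit 0, nat_lit 6287, nat_lit 5478, nat_lit 0, nat_lit 0, nat_lit 0, nat_lit 669, nat_lit 0, nat_lit 0, nat_lit 0, nat_lit 0, nat_lit 0, nat_lit 58750, nat_lit 0, nat_lit 0, [(nat_lit 29, [(nat_lit 0, nat_lit 235)])],
 ⟨p124_k22, nat_lit 0, nat_lit 0, nat_lit 0, nat_lit 0, nat_lit 0, [nat_lit 901246000, nat_lit 2756540000, nat_lit 5201054000], [], [nat_lit 29563232191, nat_lit 29817998899, nat_lit 31776947701, nat_lit 32065939980, nat_lit 28751201140, nat_lit 28980026186, nat_lit 30553203305, nat_lit 30760432384], nat_lit 0, nat_lit 0, nat_lit 0, nat_lit 0, nat_lit 0, nat_lit 0, [], [nat_lit 20, nat_lit 40, nat_lit 40, nat_lit 80]⟩, ⟨p124_k7, nat_lit 0, nat_lit 0, nat_lit 280, nat_lit 0, nat_lit 401293, [nat_lit 2510730000, nat_lit 4781250000, nat_lit 10754370000], [], [nat_lit 20997996642, nat_lit 21125364575, nat_lit 22016940102, nat_lit 22128869822, nat_lit 23092049323, nat_lit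 23168799099, nat_lit 23870869958, nat_lit 23957871227], nat_lit 1271250, nat_lit 1271250, nat_lit 1271250, nat_lit 1271250, nat_lit 1100001, nat_lit 2607000, [nat_lit 780000, nat_lit 1435000, nat_lit 1271250], [nat_lit 71, nat_lit 40, nat_lit 40, nat_lit 80, nat_lit 68, nat_lit 483, nat_lit 250, nat_lit 10]⟩,
 ⟨nat_lit 1732, nat_lit 1937, ⟨.ofNat (nat_lit 703819), .ofNat (nat_lit 759709), .ofNat (nat_lit 709571), .ofNat (nat_lit 765462), .ofNat (nat_lit 703043), .ofNat (nat_lit 758202), .ofNat (nat_lit 708838), .ofNat (nat_lit 763997)⟩, ⟨.ofNat (nat_lit 200000), .ofNat (nat_lit 329055), .ofNat (nat_lit 200000), .ofNat (nat_lit 352066), .ofNat (nat_lit 200000), .ofNat (nat_lit 328928), .ofNat (nat_lit 200000), .ofNat (nat_lit 352110)⟩⟩, [⟨nat_lit 19, nat_lit 100, nat_lit 85, nat_lit 98, nat_lit 231308640⟩]⟩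
noncomputable def p124_l61 : Lf2 := ⟨nat_lit 0, nat_lit 30, [nat_lit 15, nat_lit 5, nat_lit 5, nat_lit 20], false, nat_lit 80, nat_lit 160, nat_lit 160, nat_lit 336, ⟨nat_lit 516, nat_lit 484, nat_lit 0, nat_lit 7, nat_lit 293, nat_lit 484, nat_lit 108, nat_lit 0, nat_lit 0, nat_lit 0, nat_lit 0, nat_lit 0, nat_lit 40224788, nat_lit 22202107, nat_lit 4573105, nat_lit 4534399, true, true⟩,
 nat_lit 0, nat_lit 0, nat_lit 5657, nat_lit 0, nat_lit 2924, nat_lit 3599, nat_lit 277, nat_lit 0, nat_lit 0, nat_lit 442, nat_lit 0, nat_lit 0, nat_lit 0, nat_lit 0, nat_lit 0, nat_lit 121000, nat_lit 0, nat_lit 0, [(nat_lit 29, [(nat_lit 0, nat_lit 484)])],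
 ⟨p124_k25, nat_lit 0, nat_lit 0, nat_lit 0, nat_lit 0, nat_lit 0, [nat_lit 862302401, nat_lit 2199776000, nat_lit 4089617600], [], [nat_lit 25043478392, nat_lit 25157608715, nat_lit 26618681719, nat_lit 26746462896, nat_lit 25486461200, nat_lit 25588538204, nat_lit 26879426002, nat_lit 26975934156], nat_lit 0, nat_lit 0, nat_lit 0, nat_lit 0, nat_lit 0, nat_lit 0, [], [nat_lit 20, nat_lit 40, nat_lit 40, nat_lit 80]⟩, ⟨p124_k7, nat_lit 0, nat_lit 0, nat_lit 367, nat_lit 0, nat_lit 430966, [nat_lit 1693512000, nat_lit 3225000000, nat_lit 7253928000], [], [nat_lit 14442291744, nat_lit 14527526112, nat_lit 15124166688, nat_lit 15199209365, nat_lit 15866701868, nat_lit 15918505496, nat_lit 16281130894, nat_lit 16328291372], nat_lit 1271250, nat_lit 1271250, nat_lit 1271250, nat_lit 1271250, nat_lit 1100001, nat_lit 2607000, [nat_lit 780000, nat_lit 1435000, nat_lit 1271250], [nat_lit 71, nat_lit 40, nat_lit 40, nat_lit 80,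 nat_lit 68, nat_lit 483, nat_lit 250, nat_lit 10]⟩,
 ⟨nat_lit 1581, nat_lit 1733, ⟨.ofNat (nat_lit 703044), .ofNat (nat_lit 758202), .ofNat (nat_lit 708839), .ofNat (nat_lit 763997), .ofNat (nat_lit 702530), .ofNat (nat_lit 757166), .ofNat (nat_lit 708358), .ofNat (nat_lit 762995)⟩, ⟨.ofNat (nat_lit 200000), .ofNat (nat_lit 328928), .ofNat (nat_lit 200000), .ofNat (nat_lit 352110), .ofNat (nat_lit 200000), .ofNat (nat_lit 328788), .ofNat (nat_lit 200000), .ofNat (nat_lit 352103)⟩⟩, [⟨nat_lit 4, nat_lit 100, nat_lit 33, nat_lit 90, nat_lit 300881720⟩, ⟨nat_lit 19, nat_lit 100, nat_lit 85, nat_lit 98, nat_lit 152932947⟩]⟩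
noncomputable def p124_l62 : Lf2 := ⟨nat_lit 0, nat_lit 30, [nat_lit 15, nat_lit 5, nat_lit 5, nat_lit 20], false, nat_lit 80, nat_lit 160, nat_lit 160, nat_lit 332, ⟨nat_lit 907, nat_lit 93, nat_lit 0, nat_lit 7, nat_lit 296, nat_lit 93, nat_lit 108, nat_lit 0, nat_lit 0, nat_lit 0, nat_lit 0, nat_lit 0, nat_lit 40000428, nat_lit 22442507, nat_lit 4557065, nat_lit 4542249, true, true⟩,
 nat_lit 0, nat_lit 0, nat_lit 9537, nat_lit 0, nat_lit 6721, nat_lit 6200, nat_lit 0, nat_lit 0, nat_lit 0, nat_lit 822, nat_lit 0, nat_lit 0, nat_lit 0, nat_lit 0, nat_lit 0, nat_lit 23250, nat_lit 0, nat_lit 0, [(nat_lit 29, [(nat_lit 0, nat_lit 93)])],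
 ⟨p124_k22, nat_lit 0, nat_lit 0, nat_lit 0, nat_lit 0, nat_lit 0, [nat_lit 923454801, nat_lit 3074052001, nat_lit 5834885200], [], [nat_lit 30205349753, nat_lit 30647935910, nat_lit 32467364883, nat_lit 32969950934, nat_lit 29229755820, nat_lit 29626732328, nat_lit 31082664015, nat_lit 31442797099], nat_lit 0, nat_lit 0, nat_lit 0, nat_lit 0, nat_lit 0, nat_lit 0, [], [nat_lit 20, nat_lit 40, nat_lit 40, nat_lit 80]⟩, ⟨p124_k26, nat_lit 0, nat_lit 0, nat_lit 372, nat_lit 0, nat_lit 445105, [nat_lit 2976774000, nat_lit 5668750000, nat_lit 12750606000], [], [nat_lit 24512509860, nat_lit 24661441383, nat_lit 25686338798, nat_lit 25817647071, nat_lit 26858117514, nat_lit 26952932098, nat_lit 27994659942, nat_lit 28128633746], nat_lit 1271250, nat_lit 1271250, nat_lit 1271250, nat_lit 1271250, nat_lit 1100001, nat_lit 2572750, [nat_lit 780000, nat_lit 1435000, nat_lit 1271250], [nat_lit 71, nat_lit 40, nat_lit 40, nat_lit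 80, nat_lit 68, nat_lit 483, nat_lit 250, nat_lit 10]⟩,
 ⟨nat_lit 1581, nat_lit 1937, ⟨.ofNat (nat_lit 709568), .ofNat (nat_lit 765462), .ofNat (nat_lit 715317), .ofNat (nat_lit 771215), .ofNat (nat_lit 708354), .ofNat (nat_lit 762995), .ofNat (nat_lit 714179), .ofNat (nat_lit 768823)⟩, ⟨.ofNat (nat_lit 200000), .ofNat (nat_lit 329055), .ofNat (nat_lit 200000), .ofNat (nat_lit 352066), .ofNat (nat_lit 200000), .ofNat (nat_lit 328788), .ofNat (nat_lit 200000), .ofNat (nat_lit 352103)⟩⟩, [⟨nat_lit 4, nat_lit 100, nat_lit 35, nat_lit 90, nat_lit 168765217⟩, ⟨nat_lit 19, nat_lit 100, nat_lit 88, nat_lit 99, nat_lit 275698236⟩]⟩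
noncomputable def p124_l63 : Lf2 := ⟨nat_lit 0, nat_lit 30, [nat_lit 15, nat_lit 5, nat_lit 5, nat_lit 20], false, nat_lit 80, nat_lit 160, nat_lit 160, nat_lit 328, ⟨nat_lit 1000, nat_lit 0, nat_lit 0, nat_lit 0, nat_lit 0, nat_lit 0, nat_lit 0, nat_lit 0, nat_lit 0, nat_lit 0, nat_lit 0, nat_lit 0, nat_lit 0, nat_lit 0, nat_lit 0, nat_lit 0, false, false⟩,
 nat_lit 0, nat_lit 0, nat_lit 9754, nat_lit 0, nat_lit 3093, nat_lit 6477, nat_lit 573, nat_lit 0, nat_lit 0, nat_lit 910, nat_lit 0, nat_lit 0, nat_lit 0, nat_lit 0, nat_lit 0, nat_lit 0, nat_lit 0, nat_lit 0, [],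
 ⟨p124_k20, nat_lit 0, nat_lit 0, nat_lit 0, nat_lit 0, nat_lit 0, [nat_lit 938000000, nat_lit 3282000000, nat_lit 7968000000], [], [nat_lit 24580684633, nat_lit 24854228151, nat_lit 26368255056, nat_lit 26695859039, nat_lit 24925549761, nat_lit 25170518530, nat_lit 26576824742, nat_lit 26875786855], nat_lit 0, nat_lit 0, nat_lit 0, nat_lit 0, nat_lit 0, nat_lit 0, [], [nat_lit 54, nat_lit 40, nat_lit 40, nat_lit 80]⟩, ⟨p124_k10, nat_lit 0, nat_lit 0, nat_lit 364, nat_lit 0, nat_lit 422051, [nat_lit 3282000000, nat_lit 6250000000, nat_lit 14058000000], [], [nat_lit 26998958698, nat_lit 27322305398, nat_lit 28255141189, nat_lit 28541283580, nat_lit 29450673563, nat_lit 29661873018, nat_lit 30625014290, nat_lit 30920729097], nat_lit 1271250, nat_lit 1271250, nat_lit 1271250, nat_lit 1271250, nat_lit 1100001, nat_lit 2538500, [nat_lit 780000, nat_lit 1435000, nat_lit 1271250], [nat_lit 71, nat_lit 40, nat_lit 40, nat_lit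 80, nat_lit 68, nat_lit 483, nat_lit 250, nat_lit 10]⟩,
 zbF0, [⟨nat_lit 19, nat_lit 99, nat_lit 92, nat_lit 100, nat_lit 298953661⟩]⟩
noncomputable def p124_l64 : Lf2 := ⟨nat_lit 0, nat_lit 30, [nat_lit 15, nat_lit 5, nat_lit 5, nat_lit 20], false, nat_lit 80, nat_lit 160, nat_lit 160, nat_lit 328, ⟨nat_lit 1000, nat_lit 0, nat_lit 0, nat_lit 0, nat_lit 0, nat_lit 0, nat_lit 0, nat_lit 0, nat_lit 0, nat_lit 0, nat_lit 0, nat_lit 0, nat_lit 0, nat_lit 0, nat_lit 0, nat_lit 0, false, false⟩,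
 nat_lit 0, nat_lit 0, nat_lit 8689, nat_lit 0, nat_lit 7152, nat_lit 5770, nat_lit 0, nat_lit 0, nat_lit 0, nat_lit 906, nat_lit 0, nat_lit 0, nat_lit 0, nat_lit 0, nat_lit 0, nat_lit 0, nat_lit 0, nat_lit 0, [],
 ⟨p124_k22, nat_lit 0, nat_lit 0, nat_lit 0, nat_lit 0, nat_lit 0, [nat_lit 938000000, nat_lit 3282000000, nat_lit 6250000000], [], [nat_lit 30628693636, nat_lit 31089130520, nat_lit 33153009596, nat_lit 33676383208, nat_lit 29490667440, nat_lit 29903137536, nat_lit 31479733988, nat_lit 31949833688], nat_lit 0, nat_lit 0, nat_lit 0, nat_lit 0, nat_lit 0, nat_lit 0, [], [nat_lit 20, nat_lit 40, nat_lit 40, nat_lit 80]⟩, ⟨p124_k10, nat_lit 0, nat_lit 0, nat_lit 386, nat_lit 0, nat_lit 488493, [nat_lit 3282000000, nat_lit 6250000000, nat_lit 14058000000], [], [nat_lit 28230831230, nat_lit 28544209230, nat_lit 29450403140, nat_lit 29729841050, nat_lit 30789017679, nat_lit 31003033575, nat_lit 31899862991, nat_lit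 32187919362], nat_lit 1271250, nat_lit 1271250, nat_lit 1271250, nat_lit 1271250, nat_lit 1100001, nat_lit 2538500, [nat_lit 780000, nat_lit 1435000, nat_lit 1271250], [nat_lit 71, nat_lit 40, nat_lit 40, nat_lit 80, nat_lit 68, nat_lit 483, nat_lit 250, nat_lit 10]⟩,
 zbF0, [⟨nat_lit 16, nat_lit 35, nat_lit 100, nat_lit 90, nat_lit 184390618⟩, ⟨nat_lit 19, nat_lit 99, nat_lit 92, nat_lit 100, nat_lit 302452072⟩]⟩
noncomputable def p124_l65 : Lf2 := ⟨nat_lit 0, nat_lit 30, [nat_lit 15, nat_lit 5, nat_lit 5, nat_lit 20], false, nat_lit 80, nat_lit 160, nat_lit 0, nat_lit 160, ⟨nat_lit 1000, nat_lit 0, nat_lit 0, nat_lit 0, nat_lit 0, nat_lit 0, nat_lit 0, nat_lit 0, nat_lit 0, nat_lit 0, nat_lit 0, nat_lit 0, nat_lit 0, nat_lit 0, nat_lit 0, nat_lit 0, false, false⟩,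
 nat_lit 0, nat_lit 0, nat_lit 11829, nat_lit 0, nat_lit 3168, nat_lit 7527, nat_lit 409, nat_lit 0, nat_lit 0, nat_lit 892, nat_lit 0, nat_lit 0, nat_lit 0, nat_lit 0, nat_lit 0, nat_lit 0, nat_lit 0, nat_lit 0, [],
 ⟨p124_k21, nat_lit 0, nat_lit 0, nat_lit 0, nat_lit 0, nat_lit 0, [nat_lit 938000000, nat_lit 3282000000, nat_lit 6250000000], [], [nat_lit 25435199305, nat_lit 26027592064, nat_lit 27146392072, nat_lit 27808834688, nat_lit 25795522137, nat_lit 26311497169, nat_lit 27262980392, nat_lit 27867228992], nat_lit 0, nat_lit 0, nat_lit 0, nat_lit 0, nat_lit 0, nat_lit 0, [], [nat_lit 20, nat_lit 40, nat_lit 40, nat_lit 80]⟩, ⟨p124_k7, nat_lit 0, nat_lit 0, nat_lit 596, nat_lit 0, nat_lit 666039, [nat_lit 3282000000, nat_lit 6250000000, nat_lit 14058000000], [], [nat_lit 33799937948, nat_lit 34266536106, nat_lit 34782193500, nat_lit 35683146612, nat_lit 28962884316, nat_lit 29582814988, nat_lit 30202745660, nat_lit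 30750044980], nat_lit 1271250, nat_lit 1271250, nat_lit 1271250, nat_lit 1271250, nat_lit 0, nat_lit 1100001, [nat_lit 780000, nat_lit 1435000, nat_lit 1271250], [nat_lit 71, nat_lit 40, nat_lit 40, nat_lit 80, nat_lit 68, nat_lit 428, nat_lit 200, nat_lit 9]⟩,
 zbF0, [⟨nat_lit 4, nat_lit 100, nat_lit 23, nat_lit 92, nat_lit 868580897⟩]⟩
noncomputable def p124_l66 : Lf2 := ⟨nat_lit 0, nat_lit 30, [nat_lit 15, nat_lit 5, nat_lit 5, nat_lit 20], false, nat_lit 80, nat_lit 160, nat_lit 160, nat_lit 240, ⟨nat_lit 1000, nat_lit 0, nat_lit 0, nat_lit 0, nat_lit 0, nat_lit 0, nat_lit 0, nat_lit 0, nat_lit 0, nat_lit 0, nat_lit 0, nat_lit 0, nat_lit 0, nat_lit 0, nat_lit 0, nat_lit 0, false, false⟩,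
 nat_lit 0, nat_lit 0, nat_lit 9140, nat_lit 0, nat_lit 3168, nat_lit 5816, nat_lit 409, nat_lit 0, nat_lit 0, nat_lit 907, nat_lit 0, nat_lit 0, nat_lit 0, nat_lit 0, nat_lit 0, nat_lit 0, nat_lit 0, nat_lit 0, [],
 ⟨p124_k21, nat_lit 0, nat_lit 0, nat_lit 0, nat_lit 0, nat_lit 0, [nat_lit 938000000, nat_lit 3282000000, nat_lit 6250000000], [], [nat_lit 25435199305, nat_lit 26027592064, nat_lit 27146392072, nat_lit 27808834688, nat_lit 25795522137, nat_lit 26311497169, nat_lit 27262980392, nat_lit 27867228992], nat_lit 0, nat_lit 0, nat_lit 0, nat_lit 0, nat_lit 0, nat_lit 0, [], [nat_lit 20, nat_lit 40, nat_lit 40, nat_lit 80]⟩, ⟨p124_k7, nat_lit 0, nat_lit 0, nat_lit 426, nat_lit 0, nat_lit 609335, [nat_lit 3282000000, nat_lit 6250000000, nat_lit 14058000000], [], [nat_lit 29511667946, nat_lit 29763295770, nat_lit 30541818634, nat_lit 30821692762, nat_lit 30043030954, nat_lit 30258382448, nat_lit 31230240704, nat_lit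 31521299936], nat_lit 1271250, nat_lit 1271250, nat_lit 1271250, nat_lit 1271250, nat_lit 1100001, nat_lit 1785000, [nat_lit 780000, nat_lit 1435000, nat_lit 1271250], [nat_lit 71, nat_lit 40, nat_lit 40, nat_lit 80, nat_lit 68, nat_lit 456, nat_lit 225, nat_lit 10]⟩,
 zbF0, [⟨nat_lit 4, nat_lit 100, nat_lit 23, nat_lit 92, nat_lit 868580897⟩]⟩
noncomputable def p124_l67 : Lf2 := ⟨nat_lit 0, nat_lit 30, [nat_lit 15, nat_lit 5, nat_lit 5, nat_lit 20], false, nat_lit 80, nat_lit 160, nat_lit 240, nat_lit 336, ⟨nat_lit 511, nat_lit 489, nat_lit 0, nat_lit 7, nat_lit 293, nat_lit 489, nat_lit 108, nat_lit 0, nat_lit 0, nat_lit 0, nat_lit 0, nat_lit 0, nat_lit 40252741, nat_lit 22173411, nat_lit 4573848, nat_lit 4533212, true, true⟩,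
 nat_lit 0, nat_lit 0, nat_lit 4948, nat_lit 0, nat_lit 2876, nat_lit 3148, nat_lit 267, nat_lit 0, nat_lit 0, nat_lit 438, nat_lit 0, nat_lit 0, nat_lit 0, nat_lit 0, nat_lit 0, nat_lit 122250, nat_lit 0, nat_lit 0, [(nat_lit 29, [(nat_lit 0, nat_lit 489)])],
 ⟨p124_k21, nat_lit 0, nat_lit 0, nat_lit 0, nat_lit 0, nat_lit 0, [nat_lit 861520401, nat_lit 2188596000, nat_lit 4067299600], [], [nat_lit 25114111235, nat_lit 25227446352, nat_lit 26667788304, nat_lit 26794643447, nat_lit 25584722148, nat_lit 25686126904, nat_lit 26947259104, nat_lit 27040976814], nat_lit 0, nat_lit 0, nat_lit 0, nat_lit 0, nat_lit 0, nat_lit 0, [], [nat_lit 20, nat_lit 40, nat_lit 40, nat_lit 80]⟩, ⟨p124_k7, nat_lit 0, nat_lit 0, nat_lit 321, nat_lit 0, nat_lit 460896, [nat_lit 1677102000, nat_lit 3193750000, nat_lit 7183638000], [], [nat_lit 15328568096, nat_lit 15397439883, nat_lit 15879542388, nat_lit 15940463200, nat_lit 16458203644, nat_lit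 16509657726, nat_lit 16869836301, nat_lit 16914808895], nat_lit 1271250, nat_lit 1271250, nat_lit 1271250, nat_lit 1271250, nat_lit 1271250, nat_lit 1271250, [nat_lit 780000, nat_lit 1435000, nat_lit 1271250], [nat_lit 71, nat_lit 40, nat_lit 40, nat_lit 80, nat_lit 68, nat_lit 483, nat_lit 250, nat_lit 10]⟩,
 ⟨nat_lit 1414, nat_lit 1582, ⟨.ofNat (nat_lit 702530), .ofNat (nat_lit 757166), .ofNat (nat_lit 708358), .ofNat (nat_lit 762995), .ofNat (nat_lit 702018), .ofNat (nat_lit 756095), .ofNat (nat_lit 707884), .ofNat (nat_lit 761962)⟩, ⟨.ofNat (nat_lit 200000), .ofNat (nat_lit 328788), .ofNat (nat_lit 200000), .ofNat (nat_lit 352103), .ofNat (nat_lit 200000), .ofNat (nat_lit 328588), .ofNat (nat_lit 200000), .ofNat (nat_lit 352055)⟩⟩, [⟨nat_lit 4, nat_lit 100, nat_lit 30, nat_lit 91, nat_lit 315134096⟩, ⟨nat_lit 7, nat_lit 85, nat_lit 100, nat_lit 98, nat_lit 180967063⟩]⟩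
noncomputable def p124_l68 : Lf2 := ⟨nat_lit 0, nat_lit 30, [nat_lit 15, nat_lit 5, nat_lit 5, nat_lit 20], false, nat_lit 80, nat_lit 160, nat_lit 240, nat_lit 336, ⟨nat_lit 513, nat_lit 487, nat_lit 0, nat_lit 7, nat_lit 293, nat_lit 487, nat_lit 108, nat_lit 0, nat_lit 0, nat_lit 0, nat_lit 0, nat_lit 0, nat_lit 40274288, nat_lit 22151674, nat_lit 4574038, nat_lit 4532237, true, true⟩,
 nat_lit 0, nat_lit 0, nat_lit 4882, nat_lit 0, nat_lit 2875, nat_lit 3106, nat_lit 253, nat_lit 0, nat_lit 0, nat_lit 441, nat_lit 0, nat_lit 0, nat_lit 0, nat_lit 0, nat_lit 0, nat_lit 121750, nat_lit 0, nat_lit 0, [(nat_lit 29, [(nat_lit 0, nat_lit 487)])],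
 ⟨p124_k27, nat_lit 0, nat_lit 0, nat_lit 0, nat_lit 0, nat_lit 0, [nat_lit 861833201, nat_lit 2193068001, nat_lit 4076226800], [], [nat_lit 25236571475, nat_lit 25293230750, nat_lit 26792985100, nat_lit 26856403026, nat_lit 25696410377, nat_lit 25747105751, nat_lit 27051151277, nat_lit 27098004039], nat_lit 0, nat_lit 0, nat_lit 0, nat_lit 0, nat_lit 0, nat_lit 0, [], [nat_lit 20, nat_lit 40, nat_lit 40, nat_lit 80]⟩, ⟨p124_k7, nat_lit 0, nat_lit 0, nat_lit 363, nat_lit 0, nat_lit 475912, [nat_lit 1683666000, nat_lit 3206250000, nat_lit 7211754000], [], [nat_lit 15471324706, nat_lit 15540250097, nat_lit 16022727830, nat_lit 16083779497, nat_lit 16603942892, nat_lit 16655618258, nat_lit 17017345818, nat_lit 17071852635], nat_lit 1271250, nat_lit 1271250, nat_lit 1271250, nat_lit 1271250, nat_lit 1271250, nat_lit 1271250, [nat_lit 780000, nat_lit 1435000, nat_lit 1271250], [nat_lit 71, nat_lit 40, nat_lit 40, nat_lit 80,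 nat_lit 68, nat_lit 483, nat_lit 250, nat_lit 10]⟩,
 ⟨nat_lit 1322, nat_lit 1415, ⟨.ofNat (nat_lit 702019), .ofNat (nat_lit 756095), .ofNat (nat_lit 707885), .ofNat (nat_lit 761962), .ofNat (nat_lit 701764), .ofNat (nat_lit 755542), .ofNat (nat_lit 707652), .ofNat (nat_lit 761430)⟩, ⟨.ofNat (nat_lit 200000), .ofNat (nat_lit 328588), .ofNat (nat_lit 200000), .ofNat (nat_lit 352055), .ofNat (nat_lit 200000), .ofNat (nat_lit 328458), .ofNat (nat_lit 200000), .ofNat (nat_lit 352011)⟩⟩, [⟨nat_lit 4, nat_lit 100, nat_lit 28, nat_lit 91, nat_lit 334254255⟩, ⟨nat_lit 19, nat_lit 100, nat_lit 85, nat_lit 98, nat_lit 181935356⟩]⟩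
noncomputable def p124_l69 : Lf2 := ⟨nat_lit 0, nat_lit 30, [nat_lit 15, nat_lit 5, nat_lit 5, nat_lit 20], false, nat_lit 80, nat_lit 120, nat_lit 240, nat_lit 336, ⟨nat_lit 540, nat_lit 460, nat_lit 0, nat_lit 7, nat_lit 292, nat_lit 460, nat_lit 97, nat_lit 0, nat_lit 0, nat_lit 0, nat_lit 0, nat_lit 0, nat_lit 40761704, nat_lit 22308911, nat_lit 3929385, nat_lit 4408737, true, true⟩,
 nat_lit 0, nat_lit 0, nat_lit 4904, nat_lit 0, nat_lit 2830, nat_lit 3120, nat_lit 256, nat_lit 0, nat_lit 0, nat_lit 464, nat_lit 0, nat_lit 0, nat_lit 0, nat_lit 0, nat_lit 0, nat_lit 115000, nat_lit 0, nat_lit 0, [(nat_lit 29, [(nat_lit 0, nat_lit 460)])],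
 ⟨p124_k28, nat_lit 0, nat_lit 0, nat_lit 0, nat_lit 0, nat_lit 0, [nat_lit 866056000, nat_lit 2253440001, nat_lit 4196744000], [], [nat_lit 25280009866, nat_lit 25392582910, nat_lit 26781343359, nat_lit 26907311050, nat_lit 25527489884, nat_lit 25633006483, nat_lit 26931703682, nat_lit 27030267598], nat_lit 0, nat_lit 0, nat_lit 0, nat_lit 0, nat_lit 0, nat_lit 0, [], [nat_lit 20, nat_lit 40, nat_lit 40, nat_lit 80]⟩, ⟨p124_k7, nat_lit 0, nat_lit 0, nat_lit 373, nat_lit 0, nat_lit 506043, [nat_lit 1772280000, nat_lit 3375000000, nat_lit 7591320000], [], [nat_lit 16561249040, nat_lit 16633207850, nat_lit 17136919520, nat_lit 17200888400, nat_lit 17749520048, nat_lit 17803969923, nat_lit 18185119041, nat_lit 18235863990], nat_lit 1271250, nat_lit 1271250, nat_lit 1271250, nat_lit 1271250, nat_lit 1271250, nat_lit 1271250, [nat_lit 780000, nat_lit 1435000, nat_lit 1271250], [nat_lit 71, nat_lit 40, nat_lit 40, nat_lit 80,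 nat_lit 68, nat_lit 483, nat_lit 250, nat_lit 10]⟩,
 ⟨nat_lit 1118, nat_lit 1323, ⟨.ofNat (nat_lit 701764), .ofNat (nat_lit 755542), .ofNat (nat_lit 707650), .ofNat (nat_lit 761430), .ofNat (nat_lit 701256), .ofNat (nat_lit 754383), .ofNat (nat_lit 707192), .ofNat (nat_lit 760321)⟩, ⟨.ofNat (nat_lit 200000), .ofNat (nat_lit 274681), .ofNat (nat_lit 200000), .ofNat (nat_lit 298233), .ofNat (nat_lit 200000), .ofNat (nat_lit 274990), .ofNat (nat_lit 200000), .ofNat (nat_lit 298741)⟩⟩, [⟨nat_lit 19, nat_lit 100, nat_lit 85, nat_lit 98, nat_lit 191501450⟩]⟩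
noncomputable def p124_l70 : Lf2 := ⟨nat_lit 0, nat_lit 30, [nat_lit 15, nat_lit 5, nat_lit 5, nat_lit 20], false, nat_lit 120, nat_lit 160, nat_lit 240, nat_lit 336, ⟨nat_lit 520, nat_lit 480, nat_lit 0, nat_lit 7, nat_lit 292, nat_lit 480, nat_lit 125, nat_lit 0, nat_lit 0, nat_lit 0, nat_lit 0, nat_lit 0, nat_lit 39510564, nat_lit 21817757, nat_lit 5671679, nat_lit 4718494, true, true⟩,
 nat_lit 0, nat_lit 0, nat_lit 4800, nat_lit 0, nat_lit 2829, nat_lit 3054, nat_lit 250, nat_lit 0, nat_lit 0, nat_lit 446, nat_lit 0, nat_lit 0, nat_lit 0, nat_lit 0, nat_lit 0, nat_lit 120000, nat_lit 0, nat_lit 0, [(nat_lit 29, [(nat_lit 0, nat_lit 480)])],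
 ⟨p124_k28, nat_lit 0, nat_lit 0, nat_lit 0, nat_lit 0, nat_lit 0, [nat_lit 862928000, nat_lit 2208720000, nat_lit 4107472000], [], [nat_lit 25521524192, nat_lit 25627025715, nat_lit 26926231843, nat_lit 27028814665, nat_lit 25770432755, nat_lit 25871179265, nat_lit 27116358438, nat_lit 27209503471], nat_lit 0, nat_lit 0, nat_lit 0, nat_lit 0, nat_lit 0, nat_lit 0, [], [nat_lit 20, nat_lit 40, nat_lit 40, nat_lit 80]⟩, ⟨p124_k7, nat_lit 0, nat_lit 0, nat_lit 373, nat_lit 0, nat_lit 506043, [nat_lit 1706640000, nat_lit 3250000000, nat_lit 7310160000], [], [nat_lit 15867790596, nat_lit 15937281273, nat_lit 16423716012, nat_lit 16485413819, nat_lit 17013363997, nat_lit 17065779056, nat_lit 17432684475, nat_lit 17478743540], nat_lit 1271250, nat_lit 1271250, nat_lit 1271250, nat_lit 1271250, nat_lit 1271250, nat_lit 1271250, [nat_lit 780000, nat_lit 1435000, nat_lit 1271250], [nat_lit 71, nat_lit 40, nat_lit 40, nat_lit 80,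 nat_lit 68, nat_lit 483, nat_lit 250, nat_lit 10]⟩,
 ⟨nat_lit 1118, nat_lit 1323, ⟨.ofNat (nat_lit 701764), .ofNat (nat_lit 755542), .ofNat (nat_lit 707650), .ofNat (nat_lit 761430), .ofNat (nat_lit 701256), .ofNat (nat_lit 754383), .ofNat (nat_lit 707192), .ofNat (nat_lit 760321)⟩, ⟨.ofNat (nat_lit 274681), .ofNat (nat_lit 328458), .ofNat (nat_lit 298233), .ofNat (nat_lit 352011), .ofNat (nat_lit 274990), .ofNat (nat_lit 328117), .ofNat (nat_lit 298741), .ofNat (nat_lit 351868)⟩⟩, [⟨nat_lit 16, nat_lit 25, nat_lit 100, nat_lit 92, nat_lit 520894860⟩, ⟨nat_lit 7, nat_lit 85, nat_lit 100, nat_lit 98, nat_lit 184220361⟩]⟩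
noncomputable def p124_l71 : Lf2 := ⟨nat_lit 0, nat_lit 30, [nat_lit 15, nat_lit 5, nat_lit 5, nat_lit 20], false, nat_lit 80, nat_lit 160, nat_lit 240, nat_lit 332, ⟨nat_lit 571, nat_lit 429, nat_lit 0, nat_lit 7, nat_lit 295, nat_lit 429, nat_lit 108, nat_lit 0, nat_lit 0, nat_lit 0, nat_lit 0, nat_lit 0, nat_lit 40067724, nat_lit 22373964, nat_lit 4558312, nat_lit 4539393, true, true⟩,
 nat_lit 0, nat_lit 0, nat_lit 5204, nat_lit 0, nat_lit 2931, nat_lit 3383, nat_lit 279, nat_lit 0, nat_lit 0, nat_lit 506, nat_lit 0, nat_lit 0, nat_lit 0, nat_lit 0, nat_lit 0, nat_lit 107250, nat_lit 0, nat_lit 0, [(nat_lit 29, [(nat_lit 0, nat_lit 429)])],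
 ⟨p124_k21, nat_lit 0, nat_lit 0, nat_lit 0, nat_lit 0, nat_lit 0, [nat_lit 870904400, nat_lit 2322756001, nat_lit 4335115600], [], [nat_lit 25226442785, nat_lit 25512058512, nat_lit 26757936274, nat_lit 27077726835, nat_lit 25660073357, nat_lit 25915510960, nat_lit 27042512501, nat_lit 27283083062], nat_lit 0, nat_lit 0, nat_lit 0, nat_lit 0, nat_lit 0, nat_lit 0, [], [nat_lit 20, nat_lit 40, nat_lit 40, nat_lit 80]⟩, ⟨p124_k26, nat_lit 0, nat_lit 0, nat_lit 376, nat_lit 0, nat_lit 517069, [nat_lit 1874022000, nat_lit 3568750000, nat_lit 8027118000], [], [nat_lit 16834063655, nat_lit 16910486934, nat_lit 17436833918, nat_lit 17504641227, nat_lit 18003864945, nat_lit 18062241741, nat_lit 18564442480, nat_lit 18646098089], nat_lit 1271250, nat_lit 1271250, nat_lit 1271250, nat_lit 1271250, nat_lit 1271250, nat_lit 1271250, [nat_lit 780000, nat_lit 1435000, nat_lit 1271250], [nat_lit 71, nat_lit 40, nat_lit 40, nat_lit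 80, nat_lit 68, nat_lit 483, nat_lit 250, nat_lit 10]⟩,
 ⟨nat_lit 1118, nat_lit 1582, ⟨.ofNat (nat_lit 708349), .ofNat (nat_lit 762995), .ofNat (nat_lit 714169), .ofNat (nat_lit 768823), .ofNat (nat_lit 707184), .ofNat (nat_lit 760321), .ofNat (nat_lit 713114), .ofNat (nat_lit 766259)⟩, ⟨.ofNat (nat_lit 200000), .ofNat (nat_lit 328788), .ofNat (nat_lit 200000), .ofNat (nat_lit 352103), .ofNat (nat_lit 200000), .ofNat (nat_lit 328117), .ofNat (nat_lit 200000), .ofNat (nat_lit 351868)⟩⟩, [⟨nat_lit 16, nat_lit 28, nat_lit 100, nat_lit 91, nat_lit 362056116⟩, ⟨nat_lit 7, nat_lit 88, nat_lit 100, nat_lit 99, nat_lit 205512978⟩]⟩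
noncomputable def p124_l72 : Lf2 := ⟨nat_lit 0, nat_lit 30, [nat_lit 15, nat_lit 5, nat_lit 5, nat_lit 20], false, nat_lit 80, nat_lit 120, nat_lit 240, nat_lit 336, ⟨nat_lit 521, nat_lit 479, nat_lit 0, nat_lit 7, nat_lit 293, nat_lit 479, nat_lit 97, nat_lit 0, nat_lit 0, nat_lit 0, nat_lit 0, nat_lit 0, nat_lit 40680399, nat_lit 22390271, nat_lit 3929330, nat_lit 4412510, true, true⟩,
 nat_lit 0, nat_lit 0, nat_lit 4635, nat_lit 0, nat_lit 2921, nat_lit 2949, nat_lit 225, nat_lit 0, nat_lit 0, nat_lit 445, nat_lit 0, nat_lit 0, nat_lit 0, nat_lit 0, nat_lit 0, nat_lit 119750, nat_lit 0, nat_lit 0, [(nat_lit 29, [(nat_lit 0, nat_lit 479)])],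
 ⟨p124_k23, nat_lit 0, nat_lit 0, nat_lit 0, nat_lit 0, nat_lit 0, [nat_lit 863084401, nat_lit 2210956001, nat_lit 4111935600], [], [nat_lit 25560952992, nat_lit 25675033615, nat_lit 27060853985, nat_lit 27188577286, nat_lit 25804117456, nat_lit 25908686862, nat_lit 27190568186, nat_lit 27291090502], nat_lit 0, nat_lit 0, nat_lit 0, nat_lit 0, nat_lit 0, nat_lit 0, [], [nat_lit 20, nat_lit 40, nat_lit 40, nat_lit 80]⟩, ⟨p124_k7, nat_lit 0, nat_lit 0, nat_lit 392, nat_lit 0, nat_lit 563774, [nat_lit 1709922000, nat_lit 3256250000, nat_lit 7324218000], [], [nat_lit 16127684246, nat_lit 16262881164, nat_lit 16677982386, nat_lit 16801176131, nat_lit 17269354154, nat_lit 17374467095, nat_lit 17689805920, nat_lit 17782538019], nat_lit 1271250, nat_lit 1271250, nat_lit 1271250, nat_lit 1271250, nat_lit 1271250, nat_lit 1271250, [nat_lit 780000, nat_lit 1435000, nat_lit 1271250], [nat_lit 71, nat_lit 40, nat_lit 40, nat_lit 80,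 nat_lit 68, nat_lit 483, nat_lit 250, nat_lit 10]⟩,
 ⟨nat_lit 866, nat_lit 1119, ⟨.ofNat (nat_lit 701256), .ofNat (nat_lit 754383), .ofNat (nat_lit 713126), .ofNat (nat_lit 766259), .ofNat (nat_lit 700751), .ofNat (nat_lit 753113), .ofNat (nat_lit 712749), .ofNat (nat_lit 765116)⟩, ⟨.ofNat (nat_lit 200000), .ofNat (nat_lit 274990), .ofNat (nat_lit 200000), .ofNat (nat_lit 298741), .ofNat (nat_lit 200000), .ofNat (nat_lit 275238), .ofNat (nat_lit 200000), .ofNat (nat_lit 299246)⟩⟩, [⟨nat_lit 19, nat_lit 100, nat_lit 87, nat_lit 99, nat_lit 181967166⟩]⟩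
noncomputable def p124_l73 : Lf2 := ⟨nat_lit 0, nat_lit 30, [nat_lit 15, nat_lit 5, nat_lit 5, nat_lit 20], false, nat_lit 80, nat_lit 120, nat_lit 240, nat_lit 336, ⟨nat_lit 464, nat_lit 536, nat_lit 0, nat_lit 7, nat_lit 293, nat_lit 536, nat_lit 97, nat_lit 0, nat_lit 0, nat_lit 0, nat_lit 0, nat_lit 0, nat_lit 40700955, nat_lit 22365136, nat_lit 3933909, nat_lit 4412310, true, true⟩,
 nat_lit 0, nat_lit 0, nat_lit 4022, nat_lit 0, nat_lit 2878, nat_lit 2559, nat_lit 135, nat_lit 0, nat_lit 0, nat_lit 392, nat_lit 0, nat_lit 0, nat_lit 0, nat_lit 0, nat_lit 0, nat_lit 134000, nat_lit 0, nat_lit 0, [(nat_lit 29, [(nat_lit 0, nat_lit 536)])],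
 ⟨p124_k29, nat_lit 0, nat_lit 0, nat_lit 0, nat_lit 0, nat_lit 0, [nat_lit 854169601, nat_lit 2083504000, nat_lit 2912982400], [], [nat_lit 25503086205, nat_lit 25563165434, nat_lit 27115194458, nat_lit 27178641321, nat_lit 25779236040, nat_lit 25834223986, nat_lit 27228958559, nat_lit 27282147842], nat_lit 0, nat_lit 0, nat_lit 0, nat_lit 0, nat_lit 0, nat_lit 0, [], [nat_lit 35, nat_lit 40, nat_lit 40, nat_lit 80]⟩, ⟨p124_k7, nat_lit 0, nat_lit 0, nat_lit 397, nat_lit 0, nat_lit 578856, [nat_lit 1522848000, nat_lit 2900000000, nat_lit 6522912000], [], [nat_lit 14600031708, nat_lit 14710466747, nat_lit 15041771864, nat_lit 15140401613, nat_lit 15556379193, nat_lit 15650041606, nat_lit 15931028844, nat_lit 16013880991], nat_lit 1271250, nat_lit 1271250, nat_lit 1271250, nat_lit 1271250, nat_lit 1271250, nat_lit 1271250, [nat_lit 780000, nat_lit 1435000, nat_lit 1271250], [nat_lit 71, nat_lit 40, nat_lit 40, nat_lit 80,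 nat_lit 68, nat_lit 483, nat_lit 250, nat_lit 10]⟩,
 ⟨nat_lit 707, nat_lit 867, ⟨.ofNat (nat_lit 700751), .ofNat (nat_lit 753113), .ofNat (nat_lit 712753), .ofNat (nat_lit 765116), .ofNat (nat_lit 700500), .ofNat (nat_lit 752397), .ofNat (nat_lit 712585), .ofNat (nat_lit 764486)⟩, ⟨.ofNat (nat_lit 200000), .ofNat (nat_lit 275238), .ofNat (nat_lit 200000), .ofNat (nat_lit 299246), .ofNat (nat_lit 200000), .ofNat (nat_lit 275321), .ofNat (nat_lit 200000), .ofNat (nat_lit 299497)⟩⟩, [⟨nat_lit 19, nat_lit 100, nat_lit 87, nat_lit 99, nat_lit 136389122⟩, ⟨nat_lit 22, nat_lit 100, nat_lit 100, nat_lit 100, nat_lit 25492749⟩]⟩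
noncomputable def p124_l74 : Lf2 := ⟨nat_lit 0, nat_lit 30, [nat_lit 15, nat_lit 5, nat_lit 5, nat_lit 20], false, nat_lit 80, nat_lit 120, nat_lit 240, nat_lit 336, ⟨nat_lit 402, nat_lit 598, nat_lit 0, nat_lit 7, nat_lit 292, nat_lit 598, nat_lit 97, nat_lit 0, nat_lit 0, nat_lit 0, nat_lit 0, nat_lit 0, nat_lit 40824060, nat_lit 22233059, nat_lit 3942881, nat_lit 4408023, true, true⟩,
 nat_lit 0, nat_lit 0, nat_lit 3700, nat_lit 0, nat_lit 2868, nat_lit 2354, nat_lit 114, nat_lit 0, nat_lit 0, nat_lit 345, nat_lit 0, nat_lit 0, nat_lit 0, nat_lit 0, nat_lit 0, nat_lit 149500, nat_lit 0, nat_lit 0, [(nat_lit 29, [(nat_lit 0, nat_lit 598)])],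
 ⟨p124_k30, nat_lit 0, nat_lit 0, nat_lit 0, nat_lit 0, nat_lit 0, [nat_lit 844472801, nat_lit 1944872001, nat_lit 2707663200], [], [nat_lit 25551064290, nat_lit 25671041390, nat_lit 26987461761, nat_lit 27115379666, nat_lit 25813918992, nat_lit 25923734496, nat_lit 27119083753, nat_lit 27225515614], nat_lit 0, nat_lit 0, nat_lit 0, nat_lit 0, nat_lit 0, nat_lit 0, [], [nat_lit 35, nat_lit 40, nat_lit 40, nat_lit 80]⟩, ⟨p124_k7, nat_lit 0, nat_lit 0, nat_lit 407, nat_lit 0, nat_lit 609335, [nat_lit 1319364000, nat_lit 2512500000, nat_lit 5651316000], [], [nat_lit 12277108694, nat_lit 12384496498, nat_lit 12663704789, nat_lit 12760273569, nat_lit 13162540277, nat_lit 13243587134, nat_lit 13454308964, nat_lit 13531659771], nat_lit 1271250, nat_lit 1271250, nat_lit 1271250, nat_lit 1271250, nat_lit 1271250, nat_lit 1271250, [nat_lit 780000, nat_lit 1435000, nat_lit 1271250], [nat_lit 71, nat_lit 40, nat_lit 40, nat_lit 80,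 nat_lit 68, nat_lit 483, nat_lit 250, nat_lit 10]⟩,
 ⟨nat_lit 0, nat_lit 708, ⟨.ofNat (nat_lit 700499), .ofNat (nat_lit 747207), .ofNat (nat_lit 712441), .ofNat (nat_lit 759295), .ofNat (nat_lit 699998), .ofNat (nat_lit 744998), .ofNat (nat_lit 712352), .ofNat (nat_lit 757498)⟩, ⟨.ofNat (nat_lit 200000), .ofNat (nat_lit 275321), .ofNat (nat_lit 200000), .ofNat (nat_lit 299497), .ofNat (nat_lit 200000), .ofNat (nat_lit 274999), .ofNat (nat_lit 200000), .ofNat (nat_lit 299999)⟩⟩, [⟨nat_lit 13, nat_lit 11, nat_lit 95, nat_lit 100, nat_lit 419564245⟩, ⟨nat_lit 4, nat_lit 100, nat_lit 11, nat_lit 96, nat_lit 269657293⟩, ⟨nat_lit 7, nat_lit 87, nat_lit 100, nat_lit 99, nat_lit 140825694⟩]⟩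
noncomputable def p124_l75 : Lf2 := ⟨nat_lit 0, nat_lit 30, [nat_lit 15, nat_lit 5, nat_lit 5, nat_lit 20], false, nat_lit 120, nat_lit 160, nat_lit 240, nat_lit 336, ⟨nat_lit 469, nat_lit 531, nat_lit 0, nat_lit 7, nat_lit 292, nat_lit 531, nat_lit 125, nat_lit 0, nat_lit 0, nat_lit 0, nat_lit 0, nat_lit 0, nat_lit 39546701, nat_lit 21778054, nat_lit 5675245, nat_lit 4717252, true, true⟩,
 nat_lit 0, nat_lit 0, nat_lit 4539, nat_lit 0, nat_lit 2555, nat_lit 2888, nat_lit 247, nat_lit 0, nat_lit 0, nat_lit 402, nat_lit 0, nat_lit 0, nat_lit 0, nat_lit 0, nat_lit 0, nat_lit 132750, nat_lit 0, nat_lit 0, [(nat_lit 29, [(nat_lit 0, nat_lit 531)])],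
 ⟨p124_k31, nat_lit 0, nat_lit 0, nat_lit 0, nat_lit 0, nat_lit 0, [nat_lit 854951601, nat_lit 1361028400, nat_lit 2094684000, nat_lit 3879828400], [], [nat_lit 25296822228, nat_lit 25448878565, nat_lit 26660474208, nat_lit 26804091272, nat_lit 25591524051, nat_lit 25736887680, nat_lit 26918033226, nat_lit 27074651404], nat_lit 0, nat_lit 0, nat_lit 0, nat_lit 0, nat_lit 0, nat_lit 0, [], [nat_lit 182, nat_lit 40, nat_lit 40, nat_lit 80]⟩, ⟨p124_k7, nat_lit 0, nat_lit 0, nat_lit 388, nat_lit 0, nat_lit 551991, [nat_lit 1539258000, nat_lit 2931250000, nat_lit 6593202000], [], [nat_lit 14070987168, nat_lit 14134193250, nat_lit 14576635820, nat_lit 14632546946, nat_lit 15107742581, nat_lit 15154968022, nat_lit 15485546110, nat_lit 15526824809], nat_lit 1271250, nat_lit 1271250, nat_lit 1271250, nat_lit 1271250, nat_lit 1271250, nat_lit 1271250, [nat_lit 780000, nat_lit 1435000, nat_lit 1271250], [nat_lit 71, nat_lit 40,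 nat_lit 40, nat_lit 80, nat_lit 68, nat_lit 483, nat_lit 250, nat_lit 10]⟩,
 ⟨nat_lit 707, nat_lit 1119, ⟨.ofNat (nat_lit 701256), .ofNat (nat_lit 754383), .ofNat (nat_lit 707184), .ofNat (nat_lit 760321), .ofNat (nat_lit 700499), .ofNat (nat_lit 752397), .ofNat (nat_lit 706534), .ofNat (nat_lit 758441)⟩, ⟨.ofNat (nat_lit 274990), .ofNat (nat_lit 328117), .ofNat (nat_lit 298741), .ofNat (nat_lit 351868), .ofNat (nat_lit 275321), .ofNat (nat_lit 327218), .ofNat (nat_lit 299497), .ofNat (nat_lit 351395)⟩⟩, [⟨nat_lit 13, nat_lit 15, nat_lit 93, nat_lit 100, nat_lit 126397076⟩, ⟨nat_lit 4, nat_lit 100, nat_lit 19, nat_lit 93, nat_lit 702847081⟩, ⟨nat_lit 7, nat_lit 85, nat_lit 100, nat_lit 98, nat_lit 166076389⟩]⟩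
noncomputable def p124_l76 : Lf2 := ⟨nat_lit 0, nat_lit 30, [nat_lit 15, nat_lit 5, nat_lit 5, nat_lit 20], false, nat_lit 120, nat_lit 148, nat_lit 240, nat_lit 336, ⟨nat_lit 466, nat_lit 534, nat_lit 0, nat_lit 7, nat_lit 289, nat_lit 534, nat_lit 122, nat_lit 0, nat_lit 0, nat_lit 0, nat_lit 0, nat_lit 0, nat_lit 39918311, nat_lit 21596974, nat_lit 5484715, nat_lit 4675264, true, true⟩,
 nat_lit 0, nat_lit 0, nat_lit 4328, nat_lit 0, nat_lit 2791, nat_lit 2754, nat_lit 141, nat_lit 0, nat_lit 0, nat_lit 403, nat_lit 0, nat_lit 0, nat_lit 0, nat_lit 0, nat_lit 0, nat_lit 133500, nat_lit 0, nat_lit 0, [(nat_lit 29, [(nat_lit 0, nat_lit 534)])],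
 ⟨p124_k30, nat_lit 0, nat_lit 0, nat_lit 0, nat_lit 0, nat_lit 0, [nat_lit 854482401, nat_lit 2087976001, nat_lit 2919605600], [], [nat_lit 25651399780, nat_lit 25762430140, nat_lit 26821332623, nat_lit 26943424982, nat_lit 25839412669, nat_lit 25946891578, nat_lit 26970945025, nat_lit 27071786544], nat_lit 0, nat_lit 0, nat_lit 0, nat_lit 0, nat_lit 0, nat_lit 0, [], [nat_lit 35, nat_lit 40, nat_lit 40, nat_lit 80]⟩, ⟨p124_k7, nat_lit 0, nat_lit 0, nat_lit 398, nat_lit 0, nat_lit 582791, [nat_lit 1529412000, nat_lit 2912500000, nat_lit 6551028000], [], [nat_lit 14146296290, nat_lit 14208638792, nat_lit 14545288303, nat_lit 14602016552, nat_lit 15173360398, nat_lit 15220326075, nat_lit 15473940729, nat_lit 15516327650], nat_lit 1271250, nat_lit 1271250, nat_lit 1271250, nat_lit 1271250, nat_lit 1271250, nat_lit 1271250, [nat_lit 780000, nat_lit 1435000, nat_lit 1271250], [nat_lit 71, nat_lit 40, nat_lit 40, nat_lit 80,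 nat_lit 68, nat_lit 483, nat_lit 250, nat_lit 10]⟩,
 ⟨nat_lit 0, nat_lit 708, ⟨.ofNat (nat_lit 700499), .ofNat (nat_lit 742017), .ofNat (nat_lit 706471), .ofNat (nat_lit 748061), .ofNat (nat_lit 699998), .ofNat (nat_lit 739998), .ofNat (nat_lit 706176), .ofNat (nat_lit 746248)⟩, ⟨.ofNat (nat_lit 275321), .ofNat (nat_lit 311647), .ofNat (nat_lit 299497), .ofNat (nat_lit 335825), .ofNat (nat_lit 274999), .ofNat (nat_lit 309997), .ofNat (nat_lit 299999), .ofNat (nat_lit 334997)⟩⟩, [⟨nat_lit 13, nat_lit 16, nat_lit 92, nat_lit 100, nat_lit 164257970⟩, ⟨nat_lit 16, nat_lit 15, nat_lit 100, nat_lit 95, nat_lit 830347168⟩, ⟨nat_lit 7, nat_lit 85, nat_lit 100, nat_lit 98, nat_lit 166381796⟩]⟩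
noncomputable def p124_l77 : Lf2 := ⟨nat_lit 0, nat_lit 30, [nat_lit 15, nat_lit 5, nat_lit 5, nat_lit 20], false, nat_lit 120, nat_lit 160, nat_lit 240, nat_lit 332, ⟨nat_lit 620, nat_lit 380, nat_lit 0, nat_lit 7, nat_lit 294, nat_lit 380, nat_lit 125, nat_lit 0, nat_lit 0, nat_lit 0, nat_lit 0, nat_lit 0, nat_lit 39373302, nat_lit 21979747, nat_lit 5646951, nat_lit 4721708, true, true⟩,
 nat_lit 0, nat_lit 0, nat_lit 5417, nat_lit 0, nat_lit 2594, nat_lit 3522, nat_lit 289, nat_lit 0, nat_lit 0, nat_lit 550, nat_lit 0, nat_lit 0, nat_lit 0, nat_lit 0, nat_lit 0, nat_lit 95000, nat_lit 0, nat_lit 0, [(nat_lit 29, [(nat_lit 0, nat_lit 380)])],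
 ⟨p124_k31, nat_lit 0, nat_lit 0, nat_lit 0, nat_lit 0, nat_lit 0, [nat_lit 878568000, nat_lit 1551832001, nat_lit 2432320001, nat_lit 4553832000], [], [nat_lit 25321879669, nat_lit 25576776739, nat_lit 26704281814, nat_lit 26978995652, nat_lit 25609386665, nat_lit 25853024887, nat_lit 26976969463, nat_lit 27239534976], nat_lit 0, nat_lit 0, nat_lit 0, nat_lit 0, nat_lit 0, nat_lit 0, [], [nat_lit 182, nat_lit 40, nat_lit 40, nat_lit 80]⟩, ⟨p124_k26, nat_lit 0, nat_lit 0, nat_lit 401, nat_lit 0, nat_lit 590327, [nat_lit 2034840000, nat_lit 3875000000, nat_lit 8715960000], [], [nat_lit 18546524029, nat_lit 18628903990, nat_lit 19196510237, nat_lit 19269836718, nat_lit 19814239379, nat_lit 19877651953, nat_lit 20437673773, nat_lit 20516623507], nat_lit 1271250, nat_lit 1271250, nat_lit 1271250, nat_lit 1271250, nat_lit 1271250, nat_lit 1271250, [nat_lit 780000, nat_lit 1435000, nat_lit 1271250], [nat_lit 71, nat_lit 40,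 nat_lit 40, nat_lit 80, nat_lit 68, nat_lit 483, nat_lit 250, nat_lit 10]⟩,
 ⟨nat_lit 0, nat_lit 1119, ⟨.ofNat (nat_lit 707077), .ofNat (nat_lit 760320), .ofNat (nat_lit 712899), .ofNat (nat_lit 766258), .ofNat (nat_lit 706132), .ofNat (nat_lit 756248), .ofNat (nat_lit 712266), .ofNat (nat_lit 762498)⟩, ⟨.ofNat (nat_lit 274990), .ofNat (nat_lit 328114), .ofNat (nat_lit 298741), .ofNat (nat_lit 351866), .ofNat (nat_lit 274999), .ofNat (nat_lit 324996), .ofNat (nat_lit 299999), .ofNat (nat_lit 349997)⟩⟩, [⟨nat_lit 4, nat_lit 100, nat_lit 17, nat_lit 94, nat_lit 960667276⟩, ⟨nat_lit 7, nat_lit 88, nat_lit 100, nat_lit 99, nat_lit 223024951⟩]⟩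
noncomputable def p124_l78 : Lf2 := ⟨nat_lit 0, nat_lit 28, [nat_lit 157, nat_lit 5, nat_lit 5, nat_lit 20], false, nat_lit 80, nat_lit 160, nat_lit 160, nat_lit 328, ⟨nat_lit 1000, nat_lit 0, nat_lit 0, nat_lit 0, nat_lit 0, nat_lit 0, nat_lit 0, nat_lit 0, nat_lit 0, nat_lit 0, nat_lit 0, nat_lit 0, nat_lit 0, nat_lit 0, nat_lit 0, nat_lit 0, false, false⟩,
 nat_lit 0, nat_lit 0, nat_lit 8565, nat_lit 0, nat_lit 3077, nat_lit 5688, nat_lit 429, nat_lit 0, nat_lit 0, nat_lit 900, nat_lit 0, nat_lit 0, nat_lit 0, nat_lit 0, nat_lit 0, nat_lit 0, nat_lit 0, nat_lit 0, [],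
 ⟨p124_k32, nat_lit 0, nat_lit 0, nat_lit 0, nat_lit 0, nat_lit 0, [nat_lit 938000000, nat_lit 3282000000, nat_lit 6250000000], [], [nat_lit 25168216914, nat_lit 25527013305, nat_lit 26997238158, nat_lit 27324070445, nat_lit 25542655319, nat_lit 25803204820, nat_lit 27155926263, nat_lit 27454213776], nat_lit 0, nat_lit 0, nat_lit 0, nat_lit 0, nat_lit 0, nat_lit 0, [], [nat_lit 20, nat_lit 40, nat_lit 40, nat_lit 80]⟩, ⟨p124_k33, nat_lit 0, nat_lit 0, nat_lit 404, nat_lit 0, nat_lit 541508, [nat_lit 3282000000, nat_lit 6250000000, nat_lit 14058000000], [], [nat_lit 28485125428, nat_lit 28765752140, nat_lit 29668700716, nat_lit 29947361020, nat_lit 31023910358, nat_lit 31235115186, nat_lit 32069454791, nat_lit 32345341253], nat_lit 1271250, nat_lit 1271250, nat_lit 1271250, nat_lit 1271250, nat_lit 1100001, nat_lit 2538500, [nat_lit 780000, nat_lit 1435000, nat_lit 1271250], [nat_lit 71, nat_lit 40, nat_lit 40, nat_lit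 80, nat_lit 68, nat_lit 483, nat_lit 250, nat_lit 10]⟩,
 zbF0, [⟨nat_lit 4, nat_lit 100, nat_lit 28, nat_lit 91, nat_lit 718239284⟩, ⟨nat_lit 19, nat_lit 99, nat_lit 92, nat_lit 100, nat_lit 302861370⟩]⟩
noncomputable def p124_l79 : Lf2 := ⟨nat_lit 0, nat_lit 28, [nat_lit 157, nat_lit 5, nat_lit 5, nat_lit 20], false, nat_lit 80, nat_lit 160, nat_lit 160, nat_lit 328, ⟨nat_lit 1000, nat_lit 0, nat_lit 0, nat_lit 0, nat_lit 0, nat_lit 0, nat_lit 0, nat_lit 0, nat_lit 0, nat_lit 0, nat_lit 0, nat_lit 0, nat_lit 0, nat_lit 0, nat_lit 0, nat_lit 0, false, false⟩,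
 nat_lit 0, nat_lit 0, nat_lit 8661, nat_lit 0, nat_lit 3155, nat_lit 5751, nat_lit 265, nat_lit 0, nat_lit 0, nat_lit 876, nat_lit 0, nat_lit 0, nat_lit 0, nat_lit 0, nat_lit 0, nat_lit 0, nat_lit 0, nat_lit 0, [],
 ⟨p124_k34, nat_lit 0, nat_lit 0, nat_lit 0, nat_lit 0, nat_lit 0, [nat_lit 938000000, nat_lit 3282000000, nat_lit 4688000000], [], [nat_lit 25819150480, nat_lit 26132105525, nat_lit 27455678675, nat_lit 27786272980, nat_lit 26213688655, nat_lit 26470096025, nat_lit 27658856368, nat_lit 27920763705], nat_lit 0, nat_lit 0, nat_lit 0, nat_lit 0, nat_lit 0, nat_lit 0, [], [nat_lit 35, nat_lit 40, nat_lit 40, nat_lit 80]⟩, ⟨p124_k33, nat_lit 0, nat_lit 0, nat_lit 426, nat_lit 0, nat_lit 610117, [nat_lit 3282000000, nat_lit 6250000000, nat_lit 14058000000], [], [nat_lit 28966950220, nat_lit 29218112384, nat_lit 29944998778, nat_lit 30191954290, nat_lit 31255156303, nat_lit 31468350826, nat_lit 32213849128, nat_lit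 32444336888], nat_lit 1271250, nat_lit 1271250, nat_lit 1271250, nat_lit 1271250, nat_lit 1100001, nat_lit 2538500, [nat_lit 780000, nat_lit 1435000, nat_lit 1271250], [nat_lit 71, nat_lit 40, nat_lit 40, nat_lit 80, nat_lit 68, nat_lit 483, nat_lit 250, nat_lit 10]⟩,
 zbF0, [⟨nat_lit 0, nat_lit 93, nat_lit 17, nat_lit 100, nat_lit 454087110⟩, ⟨nat_lit 4, nat_lit 100, nat_lit 17, nat_lit 94, nat_lit 1170786596⟩, ⟨nat_lit 19, nat_lit 99, nat_lit 92, nat_lit 100, nat_lit 296267830⟩]⟩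
noncomputable def p124_l80 : Lf2 := ⟨nat_lit 0, nat_lit 30, [nat_lit 15, nat_lit 5, nat_lit 5, nat_lit 20], false, nat_lit 80, nat_lit 160, nat_lit 160, nat_lit 328, ⟨nat_lit 1000, nat_lit 0, nat_lit 0, nat_lit 0, nat_lit 0, nat_lit 0, nat_lit 0, nat_lit 0, nat_lit 0, nat_lit 0, nat_lit 0, nat_lit 0, nat_lit 0, nat_lit 0, nat_lit 0, nat_lit 0, false, false⟩,
 nat_lit 0, nat_lit 0, nat_lit 8565, nat_lit 0, nat_lit 3168, nat_lit 5688, nat_lit 396, nat_lit 0, nat_lit 0, nat_lit 900, nat_lit 0, nat_lit 0, nat_lit 0, nat_lit 0, nat_lit 0, nat_lit 0, nat_lit 0, nat_lit 0, [],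
 ⟨p124_k24, nat_lit 0, nat_lit 0, nat_lit 0, nat_lit 0, nat_lit 0, [nat_lit 938000000, nat_lit 2032000001, nat_lit 3282000000, nat_lit 6250000000], [], [nat_lit 25438946180, nat_lit 26029809292, nat_lit 27146392072, nat_lit 27808834688, nat_lit 25799269012, nat_lit 26315244044, nat_lit 27262980392, nat_lit 27867228992], nat_lit 0, nat_lit 0, nat_lit 0, nat_lit 0, nat_lit 0, nat_lit 0, [], [nat_lit 182, nat_lit 40, nat_lit 40, nat_lit 80]⟩, ⟨p124_k10, nat_lit 0, nat_lit 0, nat_lit 394, nat_lit 0, nat_lit 513522, [nat_lit 3282000000, nat_lit 6250000000, nat_lit 14058000000], [], [nat_lit 28485125428, nat_lit 28765752140, nat_lit 29668700716, nat_lit 29947361020, nat_lit 31023910358, nat_lit 31235115186, nat_lit 32069454791, nat_lit 32345341253], nat_lit 1271250, nat_lit 1271250, nat_lit 1271250, nat_lit 1271250, nat_lit 1100001, nat_lit 2538500, [nat_lit 780000, nat_lit 1435000, nat_lit 1271250], [nat_lit 71, nat_lit 40,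 nat_lit 40, nat_lit 80, nat_lit 68, nat_lit 483, nat_lit 250, nat_lit 10]⟩,
 zbF0, [⟨nat_lit 0, nat_lit 91, nat_lit 23, nat_lit 100, nat_lit 141726114⟩, ⟨nat_lit 4, nat_lit 100, nat_lit 23, nat_lit 92, nat_lit 868580897⟩, ⟨nat_lit 19, nat_lit 99, nat_lit 92, nat_lit 100, nat_lit 302861370⟩]⟩
noncomputable def b_V_900_700_20_36 : St := ⟨true, nat_lit 0, nat_lit 1, nat_lit 1, nat_lit 120, nat_lit 380, nat_lit 400, nat_lit 280, nat_lit 300, nat_lit 280, nat_lit 320, nat_lit 100, nat_lit 120, nat_lit 80, nat_lit 160, nat_lit 0, nat_lit 336, nat_lit 100, nat_lit 120, nat_lit 0, nat_lit 600, nat_lit 0, nat_lit 0⟩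
theorem d_V_900_700_20_36 (h : EB TB.env) : Dead b_V_900_700_20_36 := chkB_sound0 h (T :=
(.spl (nat_lit 0) (nat_lit 390)
(.spl (nat_lit 5) (nat_lit 160)
(.leaf p124_l58)
(.spl (nat_lit 1) (nat_lit 290)
(.spl (nat_lit 0) (nat_lit 385)
(.leaf p124_l59)
(.spl (nat_lit 1) (nat_lit 285)
(.spl (nat_lit 0) (nat_lit 388)
(.leaf p124_l60)
(.leaf p124_l61))
(.trX (nat_lit 19) (nat_lit 99) (nat_lit 82) (nat_lit 100) (nat_lit 332) (.leaf p124_l62))))
(.trX (nat_lit 19) (nat_lit 97) (nat_lit 84) (nat_lit 100) (nat_lit 328) (.spl (nat_lit 0) (nat_lit 385)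
(.leaf p124_l63)
(.leaf p124_l64)))))
(.spl (nat_lit 5) (nat_lit 160)
(.leaf p124_l65)
(.spl (nat_lit 1) (nat_lit 290)
(.spl (nat_lit 5) (nat_lit 240)
(.leaf p124_l66)
(.spl (nat_lit 0) (nat_lit 395)
(.spl (nat_lit 1) (nat_lit 285)
(.spl (nat_lit 0) (nat_lit 393)
(.spl (nat_lit 0) (nat_lit 392)
(.leaf p124_l67)
(.leaf p124_l68))
(.spl (nat_lit 4) (nat_lit 120)
(.leaf p124_l69)
(.leaf p124_l70)))
(.trX (nat_lit 19) (nat_lit 99) (nat_lit 82) (nat_lit 100) (nat_lit 332) (.leaf p124_l71)))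
(.spl (nat_lit 4) (nat_lit 120)
(.spl (nat_lit 0) (nat_lit 398)
(.spl (nat_lit 0) (nat_lit 397)
(.leaf p124_l72)
(.leaf p124_l73))
(.trX (nat_lit 13) (nat_lit 16) (nat_lit 92) (nat_lit 100) (nat_lit 316) (.leaf p124_l74)))
(.spl (nat_lit 1) (nat_lit 285)
(.spl (nat_lit 0) (nat_lit 398)
(.leaf p124_l75)
(.trX (nat_lit 13) (nat_lit 16) (nat_lit 92) (nat_lit 100) (nat_lit 312) (.trX (nat_lit 16) (nat_lit 15) (nat_lit 100) (nat_lit 95) (nat_lit 148) (.leaf p124_l76))))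
(.trX (nat_lit 19) (nat_lit 99) (nat_lit 82) (nat_lit 100) (nat_lit 332) (.leaf p124_l77))))))
(.trX (nat_lit 19) (nat_lit 97) (nat_lit 84) (nat_lit 100) (nat_lit 328) (.spl (nat_lit 6) (nat_lit 112)
(.spl (nat_lit 0) (nat_lit 395)
(.leaf p124_l78)
(.leaf p124_l79))
(.leaf p124_l80))))))) (by decide +kernel)
noncomputable def p124_l81 : Lf2 := ⟨nat_lit 0, nat_lit 30, [nat_lit 15, nat_lit 5, nat_lit 5, nat_lit 20], false, nat_lit 80, nat_lit 160, nat_lit 0, nat_lit 320, ⟨nat_lit 1000, nat_lit 0, nat_lit 0, nat_lit 0, nat_lit 0, nat_lit 0, nat_lit 0, nat_lit 0, nat_lit 0, nat_lit 0, nat_lit 0, nat_lit 0, nat_lit 0, nat_lit 0, nat_lit 0, nat_lit 0, false, false⟩,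
 nat_lit 0, nat_lit 0, nat_lit 9135, nat_lit 0, nat_lit 3093, nat_lit 6324, nat_lit 573, nat_lit 0, nat_lit 0, nat_lit 795, nat_lit 0, nat_lit 0, nat_lit 0, nat_lit 0, nat_lit 0, nat_lit 0, nat_lit 0, nat_lit 0, [],
 ⟨p124_k20, nat_lit 0, nat_lit 0, nat_lit 0, nat_lit 0, nat_lit 0, [nat_lit 938000000, nat_lit 3282000000, nat_lit 7968000000], [], [nat_lit 24580684633, nat_lit 24854228151, nat_lit 26368255056, nat_lit 26695859039, nat_lit 24925549761, nat_lit 25170518530, nat_lit 26576824742, nat_lit 26875786855], nat_lit 0, nat_lit 0, nat_lit 0, nat_lit 0, nat_lit 0, nat_lit 0, [], [nat_lit 54, nat_lit 40, nat_lit 40, nat_lit 80]⟩, ⟨p124_k12, nat_lit 0, nat_lit 0, nat_lit 487, nat_lit 0, nat_lit 519564, [nat_lit 3282000000, nat_lit 6250000000, nat_lit 11872000000], [], [nat_lit 31382673413, nat_lit 32062551093, nat_lit 32666356877, nat_lit 33604650659, nat_lit 29380674141, nat_lit 29762003547, nat_lit 30317714891, nat_lit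 30876113059], nat_lit 1271250, nat_lit 1271250, nat_lit 1271250, nat_lit 1271250, nat_lit 0, nat_lit 2260000, [nat_lit 780000, nat_lit 1435000, nat_lit 1271250], [nat_lit 23, nat_lit 40, nat_lit 40, nat_lit 80, nat_lit 12, nat_lit 483, nat_lit 250, nat_lit 12]⟩,
 zbF0, [⟨nat_lit 7, nat_lit 97, nat_lit 94, nat_lit 100, nat_lit 157867163⟩]⟩
noncomputable def p124_l82 : Lf2 := ⟨nat_lit 0, nat_lit 30, [nat_lit 15, nat_lit 5, nat_lit 5, nat_lit 20], false, nat_lit 80, nat_lit 160, nat_lit 0, nat_lit 320, ⟨nat_lit 1000, nat_lit 0, nat_lit 0, nat_lit 0, nat_lit 0, nat_lit 0, nat_lit 0, nat_lit 0, nat_lit 0, nat_lit 0, nat_lit 0, nat_lit 0, nat_lit 0, nat_lit 0, nat_lit 0, nat_lit 0, false, false⟩,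
 nat_lit 0, nat_lit 0, nat_lit 9023, nat_lit 0, nat_lit 7280, nat_lit 6246, nat_lit 0, nat_lit 0, nat_lit 0, nat_lit 795, nat_lit 0, nat_lit 0, nat_lit 0, nat_lit 0, nat_lit 0, nat_lit 0, nat_lit 0, nat_lit 0, [],
 ⟨p124_k22, nat_lit 0, nat_lit 0, nat_lit 0, nat_lit 0, nat_lit 0, [nat_lit 938000000, nat_lit 3282000000, nat_lit 6250000000], [], [nat_lit 30657050220, nat_lit 31249461960, nat_lit 33356634940, nat_lit 33886182120, nat_lit 29444871600, nat_lit 29861943040, nat_lit 31624918820, nat_lit 32100415320], nat_lit 0, nat_lit 0, nat_lit 0, nat_lit 0, nat_lit 0, nat_lit 0, [], [nat_lit 20, nat_lit 40, nat_lit 40, nat_lit 80]⟩, ⟨p124_k12, nat_lit 0, nat_lit 0, nat_lit 506, nat_lit 0, nat_lit 578748, [nat_lit 3282000000, nat_lit 6250000000, nat_lit 11872000000], [], [nat_lit 31527666677, nat_lit 32204945397, nat_lit 32806905233, nat_lit 33541672211, nat_lit 29617791489, nat_lit 29995461365, nat_lit 30455557667, nat_lit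 30920961811], nat_lit 1271250, nat_lit 1271250, nat_lit 1271250, nat_lit 1271250, nat_lit 0, nat_lit 2260000, [nat_lit 780000, nat_lit 1435000, nat_lit 1271250], [nat_lit 23, nat_lit 40, nat_lit 40, nat_lit 80, nat_lit 12, nat_lit 483, nat_lit 250, nat_lit 12]⟩,
 zbF0, [⟨nat_lit 4, nat_lit 100, nat_lit 35, nat_lit 90, nat_lit 172584266⟩, ⟨nat_lit 19, nat_lit 94, nat_lit 97, nat_lit 100, nat_lit 153762770⟩]⟩
noncomputable def p124_l83 : Lf2 := ⟨nat_lit 0, nat_lit 30, [nat_lit 15, nat_lit 5, nat_lit 5, nat_lit 20], false, nat_lit 80, nat_lit 160, nat_lit 0, nat_lit 320, ⟨nat_lit 1000, nat_lit 0, nat_lit 0, nat_lit 0, nat_lit 0, nat_lit 0, nat_lit 0, nat_lit 0, nat_lit 0, nat_lit 0, nat_lit 0, nat_lit 0, nat_lit 0, nat_lit 0, nat_lit 0, nat_lit 0, false, false⟩,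
 nat_lit 0, nat_lit 0, nat_lit 9058, nat_lit 0, nat_lit 3077, nat_lit 6270, nat_lit 416, nat_lit 0, nat_lit 0, nat_lit 795, nat_lit 0, nat_lit 0, nat_lit 0, nat_lit 0, nat_lit 0, nat_lit 0, nat_lit 0, nat_lit 0, [],
 ⟨p124_k24, nat_lit 0, nat_lit 0, nat_lit 0, nat_lit 0, nat_lit 0, [nat_lit 938000000, nat_lit 2032000001, nat_lit 3282000000, nat_lit 6250000000], [], [nat_lit 25168216914, nat_lit 25527013305, nat_lit 26997238158, nat_lit 27324070445, nat_lit 25537902194, nat_lit 25799290664, nat_lit 27155926263, nat_lit 27454213776], nat_lit 0, nat_lit 0, nat_lit 0, nat_lit 0, nat_lit 0, nat_lit 0, [], [nat_lit 182, nat_lit 40, nat_lit 40, nat_lit 80]⟩, ⟨p124_k12, nat_lit 0, nat_lit 0, nat_lit 526, nat_lit 0, nat_lit 639162, [nat_lit 3282000000, nat_lit 6250000000, nat_lit 11872000000], [], [nat_lit 31483053365, nat_lit 32161131765, nat_lit 32763659585, nat_lit 33561050195, nat_lit 29544832305, nat_lit 29922439925, nat_lit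 30385262915, nat_lit 30907162195], nat_lit 1271250, nat_lit 1271250, nat_lit 1271250, nat_lit 1271250, nat_lit 0, nat_lit 2260000, [nat_lit 780000, nat_lit 1435000, nat_lit 1271250], [nat_lit 23, nat_lit 40, nat_lit 40, nat_lit 80, nat_lit 12, nat_lit 483, nat_lit 250, nat_lit 12]⟩,
 zbF0, [⟨nat_lit 4, nat_lit 100, nat_lit 28, nat_lit 91, nat_lit 718239284⟩, ⟨nat_lit 19, nat_lit 94, nat_lit 97, nat_lit 100, nat_lit 159317904⟩]⟩
noncomputable def p124_l84 : Lf2 := ⟨nat_lit 0, nat_lit 30, [nat_lit 15, nat_lit 5, nat_lit 5, nat_lit 20], false, nat_lit 80, nat_lit 160, nat_lit 0, nat_lit 320, ⟨nat_lit 1000, nat_lit 0, nat_lit 0, nat_lit 0, nat_lit 0, nat_lit 0, nat_lit 0, nat_lit 0, nat_lit 0, nat_lit 0, nat_lit 0, nat_lit 0, nat_lit 0, nat_lit 0, nat_lit 0, nat_lit 0, false, false⟩,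
 nat_lit 0, nat_lit 0, nat_lit 9334, nat_lit 0, nat_lit 3168, nat_lit 6461, nat_lit 345, nat_lit 0, nat_lit 0, nat_lit 738, nat_lit 0, nat_lit 0, nat_lit 0, nat_lit 0, nat_lit 0, nat_lit 0, nat_lit 0, nat_lit 0, [],
 ⟨p124_k31, nat_lit 0, nat_lit 0, nat_lit 0, nat_lit 0, nat_lit 0, [nat_lit 938000000, nat_lit 2032000001, nat_lit 3282000000, nat_lit 6250000000], [], [nat_lit 25799224611, nat_lit 26094656167, nat_lit 27477613380, nat_lit 27808834688, nat_lit 26122103403, nat_lit 26380090919, nat_lit 27565104692, nat_lit 27867228992], nat_lit 0, nat_lit 0, nat_lit 0, nat_lit 0, nat_lit 0, nat_lit 0, [], [nat_lit 182, nat_lit 40, nat_lit 40, nat_lit 80]⟩, ⟨p124_k12, nat_lit 0, nat_lit 0, nat_lit 547, nat_lit 0, nat_lit 700702, [nat_lit 3282000000, nat_lit 6250000000, nat_lit 11872000000], [], [nat_lit 32886955786, nat_lit 33413690308, nat_lit 33879899472, nat_lit 34346108636, nat_lit 30321384600, nat_lit 30603201220, nat_lit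 30953993430, nat_lit 31426299626], nat_lit 1271250, nat_lit 1271250, nat_lit 1271250, nat_lit 1271250, nat_lit 0, nat_lit 2260000, [nat_lit 780000, nat_lit 1435000, nat_lit 1271250], [nat_lit 23, nat_lit 40, nat_lit 40, nat_lit 80, nat_lit 12, nat_lit 483, nat_lit 250, nat_lit 12]⟩,
 zbF0, [⟨nat_lit 0, nat_lit 92, nat_lit 17, nat_lit 100, nat_lit 478972776⟩, ⟨nat_lit 4, nat_lit 100, nat_lit 17, nat_lit 94, nat_lit 1150135907⟩, ⟨nat_lit 7, nat_lit 97, nat_lit 94, nat_lit 100, nat_lit 148815135⟩]⟩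
noncomputable def b_V_900_700_20_37 : St := ⟨true, nat_lit 0, nat_lit 1, nat_lit 1, nat_lit 120, nat_lit 380, nat_lit 400, nat_lit 300, nat_lit 320, nat_lit 280, nat_lit 320, nat_lit 100, nat_lit 120, nat_lit 80, nat_lit 160, nat_lit 0, nat_lit 336, nat_lit 100, nat_lit 120, nat_lit 0, nat_lit 600, nat_lit 0, nat_lit 0⟩
theorem d_V_900_700_20_37 (h : EB TB.env) : Dead b_V_900_700_20_37 := chkB_sound0 h (T :=
(.trX (nat_lit 19) (nat_lit 94) (nat_lit 88) (nat_lit 100) (nat_lit 320) (.spl (nat_lit 0) (nat_lit 390)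
(.spl (nat_lit 0) (nat_lit 385)
(.leaf p124_l81)
(.leaf p124_l82))
(.spl (nat_lit 0) (nat_lit 395)
(.leaf p124_l83)
(.leaf p124_l84))))) (by decide +kernel)
noncomputable def p124_l85 : Lf2 := ⟨nat_lit 0, nat_lit 25, [nat_lit 44, nat_lit 5, nat_lit 5, nat_lit 20], false, nat_lit 80, nat_lit 160, nat_lit 0, nat_lit 160, ⟨nat_lit 1000, nat_lit 0, nat_lit 0, nat_lit 0, nat_lit 0, nat_lit 0, nat_lit 0, nat_lit 0, nat_lit 0, nat_lit 0, nat_lit 0, nat_lit 0, nat_lit 0, nat_lit 0, nat_lit 0, nat_lit 0, false, false⟩,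
 nat_lit 0, nat_lit 0, nat_lit 11256, nat_lit 0, nat_lit 5138, nat_lit 7162, nat_lit 372, nat_lit 0, nat_lit 0, nat_lit 745, nat_lit 0, nat_lit 0, nat_lit 0, nat_lit 0, nat_lit 0, nat_lit 0, nat_lit 0, nat_lit 0, [],
 ⟨p124_k0, nat_lit 0, nat_lit 0, nat_lit 143, nat_lit 0, nat_lit 0, [nat_lit 938000000, nat_lit 3282000000, nat_lit 7968000000], [], [nat_lit 29115994020, nat_lit 30387644596, nat_lit 32583510928, nat_lit 33848795984, nat_lit 28735045988, nat_lit 29775836108, nat_lit 31763994865, nat_lit 32738732667], nat_lit 0, nat_lit 0, nat_lit 0, nat_lit 0, nat_lit 0, nat_lit 0, [], [nat_lit 54, nat_lit 40, nat_lit 40, nat_lit 80, nat_lit 43, nat_lit 249, nat_lit 40, nat_lit 7]⟩, ⟨p124_k1, nat_lit 0, nat_lit 0, nat_lit 559, nat_lit 0, nat_lit 738735, [nat_lit 3282000000, nat_lit 6250000000, nat_lit 11872000000], [], [nat_lit 36588742030, nat_lit 37038578799, nat_lit 38737190756, nat_lit 39100246623, nat_lit 32027975079,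 nat_lit 32410358483, nat_lit 33983916309, nat_lit 34410506307], nat_lit 1271250, nat_lit 1271250, nat_lit 1271250, nat_lit 1271250, nat_lit 0, nat_lit 1100001, [nat_lit 780000, nat_lit 1435000, nat_lit 1271250], [nat_lit 23, nat_lit 40, nat_lit 40, nat_lit 80, nat_lit 12, nat_lit 345, nat_lit 125, nat_lit 8]⟩,
 zbF0, []⟩
noncomputable def p124_l86 : Lf2 := ⟨nat_lit 0, nat_lit 25, [nat_lit 44, nat_lit 5, nat_lit 5, nat_lit 20], false, nat_lit 80, nat_lit 160, nat_lit 160, nat_lit 320, ⟨nat_lit 1000, nat_lit 0, nat_lit 0, nat_lit 0, nat_lit 0, nat_lit 0, nat_lit 0, nat_lit 0, nat_lit 0, nat_lit 0, nat_lit 0, nat_lit 0, nat_lit 0, nat_lit 0, nat_lit 0, nat_lit 0, false, false⟩,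
 nat_lit 0, nat_lit 0, nat_lit 8823, nat_lit 0, nat_lit 5196, nat_lit 5614, nat_lit 377, nat_lit 0, nat_lit 0, nat_lit 760, nat_lit 0, nat_lit 0, nat_lit 0, nat_lit 0, nat_lit 0, nat_lit 0, nat_lit 0, nat_lit 0, [],
 ⟨p124_k0, nat_lit 0, nat_lit 0, nat_lit 140, nat_lit 0, nat_lit 0, [nat_lit 938000000, nat_lit 3282000000, nat_lit 7968000000], [], [nat_lit 29057314215, nat_lit 29696890711, nat_lit 32548478663, nat_lit 33256038996, nat_lit 28597807271, nat_lit 29121007791, nat_lit 31698415937, nat_lit 32186537188], nat_lit 0, nat_lit 0, nat_lit 0, nat_lit 0, nat_lit 0, nat_lit 0, [], [nat_lit 54, nat_lit 40, nat_lit 40, nat_lit 80, nat_lit 43, nat_lit 249, nat_lit 40, nat_lit 7]⟩, ⟨p124_k1, nat_lit 0, nat_lit 0, nat_lit 382, nat_lit 0, nat_lit 595645, [nat_lit 3282000000, nat_lit 6250000000, nat_lit 11872000000], [], [nat_lit 32175416528, nat_lit 32642684664, nat_lit 34253356564, nat_lit 34624973074, nat_lit 33983041920,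 nat_lit 34330662168, nat_lit 35885306938, nat_lit 36270171733], nat_lit 1271250, nat_lit 1271250, nat_lit 1271250, nat_lit 1271250, nat_lit 1100001, nat_lit 2470000, [nat_lit 780000, nat_lit 1435000, nat_lit 1271250], [nat_lit 23, nat_lit 40, nat_lit 40, nat_lit 80, nat_lit 12, nat_lit 401, nat_lit 175, nat_lit 9]⟩,
 zbF0, [⟨nat_lit 19, nat_lit 100, nat_lit 97, nat_lit 94, nat_lit 293797803⟩]⟩
noncomputable def p124_l87 : Lf2 := ⟨nat_lit 0, nat_lit 25, [nat_lit 44, nat_lit 5, nat_lit 5, nat_lit 20], false, nat_lit 80, nat_lit 160, nat_lit 160, nat_lit 320, ⟨nat_lit 1000, nat_lit 0, nat_lit 0, nat_lit 0, nat_lit 0, nat_lit 0, nat_lit 0, nat_lit 0, nat_lit 0, nat_lit 0, nat_lit 0, nat_lit 0, nat_lit 0, nat_lit 0, nat_lit 0, nat_lit 0, false, false⟩,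
 nat_lit 0, nat_lit 0, nat_lit 8879, nat_lit 0, nat_lit 4058, nat_lit 5650, nat_lit 497, nat_lit 0, nat_lit 0, nat_lit 766, nat_lit 0, nat_lit 0, nat_lit 0, nat_lit 0, nat_lit 0, nat_lit 0, nat_lit 0, nat_lit 0, [],
 ⟨p124_k2, nat_lit 0, nat_lit 0, nat_lit 138, nat_lit 0, nat_lit 0, [nat_lit 938000000, nat_lit 3282000000, nat_lit 7968000000], [], [nat_lit 27495059778, nat_lit 27778047382, nat_lit 30305421782, nat_lit 30629068370, nat_lit 27395031868, nat_lit 27629417101, nat_lit 29865342751, nat_lit 30160778827], nat_lit 0, nat_lit 0, nat_lit 0, nat_lit 0, nat_lit 0, nat_lit 0, [], [nat_lit 54, nat_lit 40, nat_lit 40, nat_lit 80, nat_lit 43, nat_lit 249, nat_lit 40, nat_lit 7]⟩, ⟨p124_k1, nat_lit 0, nat_lit 0, nat_lit 381, nat_lit 0, nat_lit 597269, [nat_lit 3282000000, nat_lit 6250000000, nat_lit 11872000000], [], [nat_lit 31997399300, nat_lit 32231161600, nat_lit 33658231160, nat_lit 33853049546, nat_lit 33796682250,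 nat_lit 33970383150, nat_lit 35355226681, nat_lit 35554571371], nat_lit 1271250, nat_lit 1271250, nat_lit 1271250, nat_lit 1271250, nat_lit 1100001, nat_lit 2470000, [nat_lit 780000, nat_lit 1435000, nat_lit 1271250], [nat_lit 23, nat_lit 40, nat_lit 40, nat_lit 80, nat_lit 12, nat_lit 401, nat_lit 175, nat_lit 9]⟩,
 zbF0, [⟨nat_lit 7, nat_lit 94, nat_lit 100, nat_lit 92, nat_lit 302119534⟩]⟩
noncomputable def p124_l88 : Lf2 := ⟨nat_lit 0, nat_lit 25, [nat_lit 44, nat_lit 5, nat_lit 5, nat_lit 20], false, nat_lit 80, nat_lit 160, nat_lit 160, nat_lit 320, ⟨nat_lit 1000, nat_lit 0, nat_lit 0, nat_lit 0, nat_lit 0, nat_lit 0, nat_lit 0, nat_lit 0, nat_lit 0, nat_lit 0, nat_lit 0, nat_lit 0, nat_lit 0, nat_lit 0, nat_lit 0, nat_lit 0, false, false⟩,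
 nat_lit 0, nat_lit 0, nat_lit 8899, nat_lit 0, nat_lit 3682, nat_lit 5662, nat_lit 451, nat_lit 0, nat_lit 0, nat_lit 770, nat_lit 0, nat_lit 0, nat_lit 0, nat_lit 0, nat_lit 0, nat_lit 0, nat_lit 0, nat_lit 0, [],
 ⟨p124_k3, nat_lit 0, nat_lit 0, nat_lit 119, nat_lit 0, nat_lit 0, [nat_lit 938000000, nat_lit 3282000000, nat_lit 6250000000], [], [nat_lit 26969806994, nat_lit 27143669148, nat_lit 29442793574, nat_lit 29632513942, nat_lit 27061916711, nat_lit 27206630797, nat_lit 29200980103, nat_lit 29374348062], nat_lit 0, nat_lit 0, nat_lit 0, nat_lit 0, nat_lit 0, nat_lit 0, [], [nat_lit 20, nat_lit 40, nat_lit 40, nat_lit 80, nat_lit 16, nat_lit 249, nat_lit 40, nat_lit 8]⟩, ⟨p124_k1, nat_lit 0, nat_lit 0, nat_lit 383, nat_lit 0, nat_lit 609500, [nat_lit 3282000000, nat_lit 6250000000, nat_lit 11872000000], [], [nat_lit 31899697724, nat_lit 32016600246, nat_lit 33280598538, nat_lit 33381042167, nat_lit 33715381110,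 nat_lit 33805908178, nat_lit 35041840037, nat_lit 35144344553], nat_lit 1271250, nat_lit 1271250, nat_lit 1271250, nat_lit 1271250, nat_lit 1100001, nat_lit 2470000, [nat_lit 780000, nat_lit 1435000, nat_lit 1271250], [nat_lit 23, nat_lit 40, nat_lit 40, nat_lit 80, nat_lit 12, nat_lit 401, nat_lit 175, nat_lit 9]⟩,
 zbF0, [⟨nat_lit 7, nat_lit 93, nat_lit 100, nat_lit 92, nat_lit 303608927⟩]⟩
noncomputable def p124_l89 : Lf2 := ⟨nat_lit 0, nat_lit 25, [nat_lit 44, nat_lit 5, nat_lit 5, nat_lit 20], false, nat_lit 80, nat_lit 160, nat_lit 160, nat_lit 320, ⟨nat_lit 287, nat_lit 713, nat_lit 0, nat_lit 8, nat_lit 318, nat_lit 713, nat_lit 103, nat_lit 0, nat_lit 0, nat_lit 0, nat_lit 0, nat_lit 0, nat_lit 38314885, nat_lit 24586621, nat_lit 4098494, nat_lit 4536062, true, true⟩,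
 nat_lit 0, nat_lit 0, nat_lit 3288, nat_lit 0, nat_lit 2836, nat_lit 2092, nat_lit 242, nat_lit 0, nat_lit 0, nat_lit 203, nat_lit 0, nat_lit 0, nat_lit 0, nat_lit 0, nat_lit 0, nat_lit 178250, nat_lit 0, nat_lit 0, [(nat_lit 26, [(nat_lit 0, nat_lit 713)])],
 ⟨p124_k35, nat_lit 0, nat_lit 0, nat_lit 119, nat_lit 0, nat_lit 0, [nat_lit 815078800, nat_lit 1917888401, nat_lit 3283920000], [], [nat_lit 26138286138, nat_lit 26230924945, nat_lit 27880279697, nat_lit 27994343224, nat_lit 26618811846, nat_lit 26703817465, nat_lit 28069299179, nat_lit 28156063688], nat_lit 0, nat_lit 0, nat_lit 0, nat_lit 0, nat_lit 0, nat_lit 0, [], [nat_lit 20, nat_lit 40, nat_lit 40, nat_lit 80, nat_lit 16, nat_lit 249, nat_lit 40, nat_lit 8]⟩, ⟨p124_k1, nat_lit 0, nat_lit 0, nat_lit 393, nat_lit 0, nat_lit 639765, [nat_lit 941934000, nat_lit 1793750000, nat_lit 3407264000], [], [nat_lit 8873015362, nat_lit 8898576071, nat_lit 9169339946,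 nat_lit 9190730401, nat_lit 9136975361, nat_lit 9160078696, nat_lit 9410329385, nat_lit 9433342766], nat_lit 1271250, nat_lit 1271250, nat_lit 1271250, nat_lit 1271250, nat_lit 1100001, nat_lit 2470000, [nat_lit 780000, nat_lit 1435000, nat_lit 1271250], [nat_lit 23, nat_lit 40, nat_lit 40, nat_lit 80, nat_lit 12, nat_lit 401, nat_lit 175, nat_lit 9]⟩,
 ⟨nat_lit 2236, nat_lit 2346, ⟨.ofNat (nat_lit 763097), .ofNat (nat_lit 820539), .ofNat (nat_lit 768770), .ofNat (nat_lit 826213), .ofNat (nat_lit 762142), .ofNat (nat_lit 819158), .ofNat (nat_lit 767836), .ofNat (nat_lit 824851)⟩, ⟨.ofNat (nat_lit 191515), .ofNat (nat_lit 306401), .ofNat (nat_lit 200000), .ofNat (nat_lit 329093), .ofNat (nat_lit 192306), .ofNat (nat_lit 306337), .ofNat (nat_lit 200000), .ofNat (nat_lit 329112)⟩⟩, [⟨nat_lit 13, nat_lit 49, nat_lit 69, nat_lit 100, nat_lit 193487273⟩, ⟨nat_lit 7, nat_lit 93, nat_lit 100, nat_lit 92, nat_lit 78158905⟩]⟩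
noncomputable def p124_l90 : Lf2 := ⟨nat_lit 0, nat_lit 25, [nat_lit 44, nat_lit 5, nat_lit 5, nat_lit 20], false, nat_lit 80, nat_lit 160, nat_lit 160, nat_lit 316, ⟨nat_lit 927, nat_lit 73, nat_lit 0, nat_lit 8, nat_lit 323, nat_lit 73, nat_lit 103, nat_lit 0, nat_lit 0, nat_lit 0, nat_lit 0, nat_lit 0, nat_lit 37894602, nat_lit 25041232, nat_lit 4064166, nat_lit 4544220, true, true⟩,
 nat_lit 0, nat_lit 0, nat_lit 10125, nat_lit 0, nat_lit 3792, nat_lit 6583, nat_lit 373, nat_lit 0, nat_lit 0, nat_lit 697, nat_lit 0, nat_lit 0, nat_lit 0, nat_lit 0, nat_lit 0, nat_lit 18250, nat_lit 0, nat_lit 0, [(nat_lit 26, [(nat_lit 0, nat_lit 73)])],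
 ⟨p124_k3, nat_lit 0, nat_lit 0, nat_lit 121, nat_lit 0, nat_lit 0, [nat_lit 925414801, nat_lit 3142336401, nat_lit 5946320000], [], [nat_lit 27480552739, nat_lit 27774286019, nat_lit 29888182743, nat_lit 30205163904, nat_lit 27540228892, nat_lit 27783290803, nat_lit 29620764224, nat_lit 29861502004], nat_lit 0, nat_lit 0, nat_lit 0, nat_lit 0, nat_lit 0, nat_lit 0, [], [nat_lit 20, nat_lit 40, nat_lit 40, nat_lit 80, nat_lit 16, nat_lit 249, nat_lit 40, nat_lit 8]⟩, ⟨p124_k4, nat_lit 0, nat_lit 0, nat_lit 397, nat_lit 0, nat_lit 650781, [nat_lit 3042414000, nat_lit 5793750000, nat_lit 11005344000], [], [nat_lit 27623504273, nat_lit 27706275638, nat_lit 28985719570, nat_lit 29084969586, nat_lit 28751992471, nat_lit 28828157546, nat_lit 30175120958, nat_lit 30266967782], nat_lit 1271250, nat_lit 1271250, nat_lit 1271250, nat_lit 1271250, nat_lit 1100001, nat_lit 2435750, [nat_lit 780000, nat_lit 1435000, nat_lit 1271250],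 [nat_lit 23, nat_lit 40, nat_lit 40, nat_lit 80, nat_lit 12, nat_lit 401, nat_lit 175, nat_lit 9]⟩,
 ⟨nat_lit 2236, nat_lit 2500, ⟨.ofNat (nat_lit 770160), .ofNat (nat_lit 839837), .ofNat (nat_lit 775805), .ofNat (nat_lit 845482), .ofNat (nat_lit 767836), .ofNat (nat_lit 836255), .ofNat (nat_lit 773529), .ofNat (nat_lit 841948)⟩, ⟨.ofNat (nat_lit 190321), .ofNat (nat_lit 306450), .ofNat (nat_lit 200000), .ofNat (nat_lit 329031), .ofNat (nat_lit 192306), .ofNat (nat_lit 306337), .ofNat (nat_lit 200000), .ofNat (nat_lit 329112)⟩⟩, [⟨nat_lit 7, nat_lit 96, nat_lit 100, nat_lit 93, nat_lit 261454974⟩]⟩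
noncomputable def p124_l91 : Lf2 := ⟨nat_lit 0, nat_lit 25, [nat_lit 44, nat_lit 5, nat_lit 5, nat_lit 20], false, nat_lit 80, nat_lit 160, nat_lit 160, nat_lit 312, ⟨nat_lit 1000, nat_lit 0, nat_lit 0, nat_lit 0, nat_lit 0, nat_lit 0, nat_lit 0, nat_lit 0, nat_lit 0, nat_lit 0, nat_lit 0, nat_lit 0, nat_lit 0, nat_lit 0, nat_lit 0, nat_lit 0, false, false⟩,
 nat_lit 0, nat_lit 0, nat_lit 10069, nat_lit 0, nat_lit 3502, nat_lit 6687, nat_lit 576, nat_lit 0, nat_lit 0, nat_lit 761, nat_lit 0, nat_lit 0, nat_lit 0, nat_lit 0, nat_lit 0, nat_lit 0, nat_lit 0, nat_lit 0, [],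
 ⟨p124_k2, nat_lit 0, nat_lit 0, nat_lit 142, nat_lit 0, nat_lit 0, [nat_lit 938000000, nat_lit 3282000000, nat_lit 7968000000], [], [nat_lit 26763809348, nat_lit 27246450856, nat_lit 29783859113, nat_lit 30374352558, nat_lit 26934575892, nat_lit 27375837632, nat_lit 29573167020, nat_lit 30114308524], nat_lit 0, nat_lit 0, nat_lit 0, nat_lit 0, nat_lit 0, nat_lit 0, [], [nat_lit 54, nat_lit 40, nat_lit 40, nat_lit 80, nat_lit 43, nat_lit 249, nat_lit 40, nat_lit 7]⟩, ⟨p124_k5, nat_lit 0, nat_lit 0, nat_lit 413, nat_lit 0, nat_lit 694001, [nat_lit 3282000000, nat_lit 6250000000, nat_lit 11872000000], [], [nat_lit 29992199198, nat_lit 30171783536, nat_lit 31863594334, nat_lit 32066755516, nat_lit 31199593903, nat_lit 31371072361, nat_lit 33099337999, nat_lit 33290387375], nat_lit 1271250, nat_lit 1271250, nat_lit 1271250, nat_lit 1271250, nat_lit 1100001, nat_lit 2401500, [nat_lit 780000, nat_lit 1435000, nat_lit 1271250],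 [nat_lit 23, nat_lit 40, nat_lit 40, nat_lit 80, nat_lit 12, nat_lit 401, nat_lit 175, nat_lit 9]⟩,
 zbF0, [⟨nat_lit 7, nat_lit 100, nat_lit 100, nat_lit 95, nat_lit 275572147⟩]⟩
noncomputable def p124_l92 : Lf2 := ⟨nat_lit 0, nat_lit 30, [nat_lit 15, nat_lit 5, nat_lit 5, nat_lit 20], false, nat_lit 80, nat_lit 160, nat_lit 0, nat_lit 160, ⟨nat_lit 1000, nat_lit 0, nat_lit 0, nat_lit 0, nat_lit 0, nat_lit 0, nat_lit 0, nat_lit 0, nat_lit 0, nat_lit 0, nat_lit 0, nat_lit 0, nat_lit 0, nat_lit 0, nat_lit 0, nat_lit 0, false, false⟩,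
 nat_lit 0, nat_lit 0, nat_lit 10468, nat_lit 0, nat_lit 4561, nat_lit 6661, nat_lit 549, nat_lit 0, nat_lit 0, nat_lit 867, nat_lit 0, nat_lit 0, nat_lit 0, nat_lit 0, nat_lit 0, nat_lit 0, nat_lit 0, nat_lit 0, [],
 ⟨p124_k6, nat_lit 0, nat_lit 0, nat_lit 162, nat_lit 0, nat_lit 0, [nat_lit 938000000, nat_lit 3282000000, nat_lit 9842000000], [], [nat_lit 28586994250, nat_lit 29590430226, nat_lit 31384489119, nat_lit 32706700648, nat_lit 28309754702, nat_lit 29222506672, nat_lit 30886579425, nat_lit 31890657071], nat_lit 0, nat_lit 0, nat_lit 0, nat_lit 0, nat_lit 0, nat_lit 0, [], [nat_lit 93, nat_lit 40, nat_lit 40, nat_lit 80, nat_lit 63, nat_lit 249, nat_lit 40, nat_lit 6]⟩, ⟨p124_k7, nat_lit 0, nat_lit 0, nat_lit 561, nat_lit 0, nat_lit 570338, [nat_lit 3282000000, nat_lit 6250000000, nat_lit 14058000000], [], [nat_lit 35959964654, nat_lit 36490459472, nat_lit 38361286474, nat_lit 38776453899, nat_lit 31362314626,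 nat_lit 31803074616, nat_lit 33529592536, nat_lit 34089484966], nat_lit 1271250, nat_lit 1271250, nat_lit 1271250, nat_lit 1271250, nat_lit 0, nat_lit 1100001, [nat_lit 780000, nat_lit 1435000, nat_lit 1271250], [nat_lit 71, nat_lit 40, nat_lit 40, nat_lit 80, nat_lit 68, nat_lit 456, nat_lit 225, nat_lit 10]⟩,
 zbF0, []⟩
noncomputable def p124_l93 : Lf2 := ⟨nat_lit 0, nat_lit 30, [nat_lit 15, nat_lit 5, nat_lit 5, nat_lit 20], false, nat_lit 80, nat_lit 160, nat_lit 160, nat_lit 336, ⟨nat_lit 1000, nat_lit 0, nat_lit 0, nat_lit 0, nat_lit 0, nat_lit 0, nat_lit 0, nat_lit 0, nat_lit 0, nat_lit 0, nat_lit 0, nat_lit 0, nat_lit 0, nat_lit 0, nat_lit 0, nat_lit 0, false, false⟩,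
 nat_lit 0, nat_lit 0, nat_lit 9762, nat_lit 0, nat_lit 5104, nat_lit 6212, nat_lit 470, nat_lit 0, nat_lit 0, nat_lit 845, nat_lit 0, nat_lit 0, nat_lit 0, nat_lit 0, nat_lit 0, nat_lit 0, nat_lit 0, nat_lit 0, [],
 ⟨p124_k6, nat_lit 0, nat_lit 0, nat_lit 160, nat_lit 0, nat_lit 0, [nat_lit 938000000, nat_lit 3282000000, nat_lit 9842000000], [], [nat_lit 29330006836, nat_lit 29913299780, nat_lit 32504071752, nat_lit 33080667565, nat_lit 28775103828, nat_lit 29254494868, nat_lit 31604522158, nat_lit 32051684325], nat_lit 0, nat_lit 0, nat_lit 0, nat_lit 0, nat_lit 0, nat_lit 0, [], [nat_lit 93, nat_lit 40, nat_lit 40, nat_lit 80, nat_lit 63, nat_lit 249, nat_lit 40, nat_lit 6]⟩, ⟨p124_k7, nat_lit 0, nat_lit 0, nat_lit 371, nat_lit 0, nat_lit 430049, [nat_lit 3282000000, nat_lit 6250000000, nat_lit 14058000000], [], [nat_lit 30693260438, nat_lit 31260519230, nat_lit 33197186371, nat_lit 33645361850, nat_lit 33075693562,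 nat_lit 33427323486, nat_lit 35361122936, nat_lit 35812456778], nat_lit 1271250, nat_lit 1271250, nat_lit 1271250, nat_lit 1271250, nat_lit 1100001, nat_lit 2607000, [nat_lit 780000, nat_lit 1435000, nat_lit 1271250], [nat_lit 71, nat_lit 40, nat_lit 40, nat_lit 80, nat_lit 68, nat_lit 538, nat_lit 300, nat_lit 11]⟩,
 zbF0, [⟨nat_lit 19, nat_lit 100, nat_lit 90, nat_lit 100, nat_lit 280864326⟩, ⟨nat_lit 22, nat_lit 68, nat_lit 100, nat_lit 96, nat_lit 13927528⟩]⟩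
noncomputable def p124_l94 : Lf2 := ⟨nat_lit 0, nat_lit 30, [nat_lit 15, nat_lit 5, nat_lit 5, nat_lit 20], false, nat_lit 80, nat_lit 160, nat_lit 160, nat_lit 336, ⟨nat_lit 1000, nat_lit 0, nat_lit 0, nat_lit 0, nat_lit 0, nat_lit 0, nat_lit 0, nat_lit 0, nat_lit 0, nat_lit 0, nat_lit 0, nat_lit 0, nat_lit 0, nat_lit 0, nat_lit 0, nat_lit 0, false, false⟩,
 nat_lit 0, nat_lit 0, nat_lit 8745, nat_lit 0, nat_lit 4154, nat_lit 5564, nat_lit 454, nat_lit 0, nat_lit 0, nat_lit 843, nat_lit 0, nat_lit 0, nat_lit 0, nat_lit 0, nat_lit 0, nat_lit 0, nat_lit 0, nat_lit 0, [],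
 ⟨p124_k9, nat_lit 0, nat_lit 0, nat_lit 140, nat_lit 0, nat_lit 0, [nat_lit 938000000, nat_lit 3282000000, nat_lit 7968000000], [], [nat_lit 28058630764, nat_lit 28344722816, nat_lit 31006314451, nat_lit 31325879959, nat_lit 27920802684, nat_lit 28157433863, nat_lit 30511418401, nat_lit 30765102444], nat_lit 0, nat_lit 0, nat_lit 0, nat_lit 0, nat_lit 0, nat_lit 0, [], [nat_lit 54, nat_lit 40, nat_lit 40, nat_lit 80, nat_lit 43, nat_lit 249, nat_lit 40, nat_lit 7]⟩, ⟨p124_k7, nat_lit 0, nat_lit 0, nat_lit 392, nat_lit 0, nat_lit 499388, [nat_lit 3282000000, nat_lit 6250000000, nat_lit 14058000000], [], [nat_lit 31814020442, nat_lit 32322693810, nat_lit 34009197034, nat_lit 34461926334, nat_lit 34269303537, nat_lit 34628344024, nat_lit 36252338746, nat_lit 36707746050], nat_lit 1271250, nat_lit 1271250, nat_lit 1271250, nat_lit 1271250, nat_lit 1100001, nat_lit 2607000, [nat_lit 780000, nat_lit 1435000, nat_lit 1271250],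 [nat_lit 71, nat_lit 40, nat_lit 40, nat_lit 80, nat_lit 68, nat_lit 538, nat_lit 300, nat_lit 11]⟩,
 zbF0, [⟨nat_lit 7, nat_lit 90, nat_lit 100, nat_lit 100, nat_lit 292149966⟩]⟩
noncomputable def p124_l95 : Lf2 := ⟨nat_lit 0, nat_lit 30, [nat_lit 15, nat_lit 5, nat_lit 5, nat_lit 20], false, nat_lit 80, nat_lit 160, nat_lit 160, nat_lit 336, ⟨nat_lit 1000, nat_lit 0, nat_lit 0, nat_lit 0, nat_lit 0, nat_lit 0, nat_lit 0, nat_lit 0, nat_lit 0, nat_lit 0, nat_lit 0, nat_lit 0, nat_lit 0, nat_lit 0, nat_lit 0, nat_lit 0, false, false⟩,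
 nat_lit 0, nat_lit 0, nat_lit 8812, nat_lit 0, nat_lit 3302, nat_lit 5607, nat_lit 561, nat_lit 0, nat_lit 0, nat_lit 820, nat_lit 0, nat_lit 0, nat_lit 0, nat_lit 0, nat_lit 0, nat_lit 0, nat_lit 0, nat_lit 0, [],
 ⟨p124_k36, nat_lit 0, nat_lit 0, nat_lit 139, nat_lit 0, nat_lit 0, [nat_lit 938000000, nat_lit 3282000000, nat_lit 7968000000], [], [nat_lit 26441952558, nat_lit 26700492634, nat_lit 29229628039, nat_lit 29523987602, nat_lit 26623126243, nat_lit 26834510270, nat_lit 29132864830, nat_lit 29402683241], nat_lit 0, nat_lit 0, nat_lit 0, nat_lit 0, nat_lit 0, nat_lit 0, [], [nat_lit 54, nat_lit 40, nat_lit 40, nat_lit 80, nat_lit 43, nat_lit 249, nat_lit 40, nat_lit 7]⟩, ⟨p124_k7, nat_lit 0, nat_lit 0, nat_lit 414, nat_lit 0, nat_lit 570338, [nat_lit 3282000000, nat_lit 6250000000, nat_lit 14058000000], [], [nat_lit 32324192684, nat_lit 32772289808, nat_lit 33917464399, nat_lit 34384251389, nat_lit 34485762964,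 nat_lit 34842963311, nat_lit 35951726007, nat_lit 36330552800], nat_lit 1271250, nat_lit 1271250, nat_lit 1271250, nat_lit 1271250, nat_lit 1100001, nat_lit 2607000, [nat_lit 780000, nat_lit 1435000, nat_lit 1271250], [nat_lit 71, nat_lit 40, nat_lit 40, nat_lit 80, nat_lit 68, nat_lit 538, nat_lit 300, nat_lit 11]⟩,
 zbF0, [⟨nat_lit 7, nat_lit 90, nat_lit 100, nat_lit 100, nat_lit 283665588⟩]⟩
noncomputable def b_V_900_700_20_38 : St := ⟨true, nat_lit 0, nat_lit 1, nat_lit 1, nat_lit 120, nat_lit 360, nat_lit 380, nat_lit 280, nat_lit 300, nat_lit 320, nat_lit 384, nat_lit 80, nat_lit 120, nat_lit 80, nat_lit 160, nat_lit 0, nat_lit 336, nat_lit 80, nat_lit 120, nat_lit 0, nat_lit 0, nat_lit 0, nat_lit 0⟩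
theorem d_V_900_700_20_38 (h : EB TB.env) : Dead b_V_900_700_20_38 := chkB_sound0 h (T :=
(.spl (nat_lit 3) (nat_lit 100)
(.trX (nat_lit 19) (nat_lit 100) (nat_lit 88) (nat_lit 94) (nat_lit 320) (.spl (nat_lit 5) (nat_lit 160)
(.leaf p124_l85)
(.spl (nat_lit 0) (nat_lit 370)
(.leaf p124_l86)
(.trX (nat_lit 13) (nat_lit 61) (nat_lit 55) (nat_lit 100) (nat_lit 380) (.spl (nat_lit 1) (nat_lit 290)
(.trX (nat_lit 13) (nat_lit 59) (nat_lit 58) (nat_lit 100) (nat_lit 372) (.spl (nat_lit 0) (nat_lit 375)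
(.leaf p124_l87)
(.trX (nat_lit 13) (nat_lit 54) (nat_lit 63) (nat_lit 100) (nat_lit 368) (.spl (nat_lit 1) (nat_lit 285)
(.trX (nat_lit 13) (nat_lit 53) (nat_lit 65) (nat_lit 100) (nat_lit 364) (.spl (nat_lit 0) (nat_lit 378)
(.leaf p124_l88)
(.trX (nat_lit 13) (nat_lit 50) (nat_lit 68) (nat_lit 100) (nat_lit 360) (.leaf p124_l89))))
(.trX (nat_lit 19) (nat_lit 100) (nat_lit 91) (nat_lit 96) (nat_lit 316) (.leaf p124_l90))))))
(.trX (nat_lit 19) (nat_lit 100) (nat_lit 94) (nat_lit 97) (nat_lit 312) (.leaf p124_l91)))))))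
(.spl (nat_lit 5) (nat_lit 160)
(.leaf p124_l92)
(.spl (nat_lit 0) (nat_lit 370)
(.leaf p124_l93)
(.trX (nat_lit 13) (nat_lit 61) (nat_lit 55) (nat_lit 100) (nat_lit 380) (.spl (nat_lit 0) (nat_lit 375)
(.leaf p124_l94)
(.trX (nat_lit 13) (nat_lit 56) (nat_lit 60) (nat_lit 100) (nat_lit 372) (.leaf p124_l95)))))))) (by decide +kernel)
noncomputable def p124_l96 : Lf2 := ⟨nat_lit 0, nat_lit 25, [nat_lit 44, nat_lit 5, nat_lit 5, nat_lit 20], false, nat_lit 80, nat_lit 160, nat_lit 0, nat_lit 160, ⟨nat_lit 274, nat_lit 726, nat_lit 0, nat_lit 8, nat_lit 322, nat_lit 726, nat_lit 103, nat_lit 0, nat_lit 0, nat_lit 0, nat_lit 0, nat_lit 0, nat_lit 37943540, nat_lit 24974617, nat_lit 4081843, nat_lit 4545655, true, true⟩,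
 nat_lit 0, nat_lit 0, nat_lit 2998, nat_lit 0, nat_lit 2694, nat_lit 1907, nat_lit 96, nat_lit 0, nat_lit 0, nat_lit 201, nat_lit 0, nat_lit 0, nat_lit 0, nat_lit 0, nat_lit 0, nat_lit 290400, nat_lit 0, nat_lit 0, [(nat_lit 29, [(nat_lit 1, nat_lit 726)])],
 ⟨p124_k13, nat_lit 0, nat_lit 0, nat_lit 124, nat_lit 0, nat_lit 0, [nat_lit 764050401, nat_lit 1140300001, nat_lit 1780744000], [], [nat_lit 26241688308, nat_lit 26750038478, nat_lit 28257427411, nat_lit 28714019140, nat_lit 26763984410, nat_lit 27212247298, nat_lit 28558826670, nat_lit 28964505559], nat_lit 0, nat_lit 0, nat_lit 0, nat_lit 0, nat_lit 0, nat_lit 0, [], [nat_lit 20, nat_lit 40, nat_lit 40, nat_lit 80, nat_lit 16, nat_lit 249, nat_lit 40, nat_lit 8]⟩, ⟨p124_k1, nat_lit 0, nat_lit 0, nat_lit 647, nat_lit 0, nat_lit 888058, [nat_lit 899268000, nat_lit 1712500000, nat_lit 3252928000], [], [nat_lit 10253873942, nat_lit 10342864022, nat_lit 10641171886,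 nat_lit 10748251733, nat_lit 9020811263, nat_lit 9125620761, nat_lit 9377985426, nat_lit 9467587588], nat_lit 1271250, nat_lit 1271250, nat_lit 1271250, nat_lit 1271250, nat_lit 0, nat_lit 1100001, [nat_lit 780000, nat_lit 1435000, nat_lit 1271250], [nat_lit 23, nat_lit 40, nat_lit 40, nat_lit 80, nat_lit 12, nat_lit 345, nat_lit 125, nat_lit 8]⟩,
 ⟨nat_lit 1581, nat_lit 2237, ⟨.ofNat (nat_lit 762142), .ofNat (nat_lit 830561), .ofNat (nat_lit 784917), .ofNat (nat_lit 853335), .ofNat (nat_lit 757166), .ofNat (nat_lit 822729), .ofNat (nat_lit 780481), .ofNat (nat_lit 846044)⟩, ⟨.ofNat (nat_lit 192306), .ofNat (nat_lit 306337), .ofNat (nat_lit 200000), .ofNat (nat_lit 329112), .ofNat (nat_lit 196201), .ofNat (nat_lit 305473), .ofNat (nat_lit 200000), .ofNat (nat_lit 328788)⟩⟩, [⟨nat_lit 13, nat_lit 34, nat_lit 81, nat_lit 100, nat_lit 340446966⟩, ⟨nat_lit 4, nat_lit 100, nat_lit 39, nat_lit 85, nat_lit 211499193⟩]⟩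
noncomputable def p124_l97 : Lf2 := ⟨nat_lit 0, nat_lit 25, [nat_lit 44, nat_lit 5, nat_lit 5, nat_lit 20], false, nat_lit 80, nat_lit 160, nat_lit 0, nat_lit 160, ⟨nat_lit 194, nat_lit 806, nat_lit 0, nat_lit 8, nat_lit 315, nat_lit 806, nat_lit 103, nat_lit 0, nat_lit 0, nat_lit 0, nat_lit 0, nat_lit 0, nat_lit 38572867, nat_lit 24307966, nat_lit 4119167, nat_lit 4530469, true, true⟩,
 nat_lit 0, nat_lit 0, nat_lit 2314, nat_lit 0, nat_lit 2789, nat_lit 1472, nat_lit 81, nat_lit 0, nat_lit 0, nat_lit 137, nat_lit 0, nat_lit 0, nat_lit 0, nat_lit 0, nat_lit 0, nat_lit 201500, nat_lit 0, nat_lit 0, [(nat_lit 29, [(nat_lit 0, nat_lit 806)])],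
 ⟨p124_k14, nat_lit 0, nat_lit 0, nat_lit 110, nat_lit 0, nat_lit 0, [nat_lit 811941600, nat_lit 1479784000, nat_lit 2018850400], [], [nat_lit 26673002486, nat_lit 27192279627, nat_lit 28085998534, nat_lit 28664353628, nat_lit 27171482374, nat_lit 27616803427, nat_lit 28341359911, nat_lit 28788921018], nat_lit 0, nat_lit 0, nat_lit 0, nat_lit 0, nat_lit 0, nat_lit 0, [], [nat_lit 35, nat_lit 40, nat_lit 40, nat_lit 80, nat_lit 22, nat_lit 249, nat_lit 40, nat_lit 9]⟩, ⟨p124_k1, nat_lit 0, nat_lit 0, nat_lit 700, nat_lit 0, nat_lit 1043300, [nat_lit 636708000, nat_lit 1212500000, nat_lit 2303168000], [], [nat_lit 7143003463, nat_lit 7210097647, nat_lit 7297801838, nat_lit 7356175740, nat_lit 6227687831, nat_lit 6282713060, nat_lit 6376476664, nat_lit 6445262993], nat_lit 1271250, nat_lit 1271250, nat_lit 1271250, nat_lit 1271250, nat_lit 0, nat_lit 1100001, [nat_lit 780000, nat_lit 1435000, nat_lit 1271250], [nat_lit 23,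 nat_lit 40, nat_lit 40, nat_lit 80, nat_lit 12, nat_lit 345, nat_lit 125, nat_lit 8]⟩,
 ⟨nat_lit 0, nat_lit 1582, ⟨.ofNat (nat_lit 757165), .ofNat (nat_lit 800872), .ofNat (nat_lit 780481), .ofNat (nat_lit 824188), .ofNat (nat_lit 749998), .ofNat (nat_lit 789996), .ofNat (nat_lit 774999), .ofNat (nat_lit 814997)⟩, ⟨.ofNat (nat_lit 196201), .ofNat (nat_lit 305469), .ofNat (nat_lit 200000), .ofNat (nat_lit 328785), .ofNat (nat_lit 199999), .ofNat (nat_lit 299995), .ofNat (nat_lit 200000), .ofNat (nat_lit 324996)⟩⟩, [⟨nat_lit 13, nat_lit 25, nat_lit 86, nat_lit 100, nat_lit 32336310⟩, ⟨nat_lit 13, nat_lit 36, nat_lit 77, nat_lit 100, nat_lit 351128559⟩, ⟨nat_lit 16, nat_lit 24, nat_lit 100, nat_lit 89, nat_lit 266708971⟩]⟩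
noncomputable def p124_l98 : Lf2 := ⟨nat_lit 0, nat_lit 25, [nat_lit 44, nat_lit 5, nat_lit 5, nat_lit 20], false, nat_lit 80, nat_lit 160, nat_lit 160, nat_lit 320, ⟨nat_lit 269, nat_lit 731, nat_lit 0, nat_lit 8, nat_lit 316, nat_lit 731, nat_lit 103, nat_lit 0, nat_lit 0, nat_lit 0, nat_lit 0, nat_lit 0, nat_lit 38479296, nat_lit 24403150, nat_lit 4117554, nat_lit 4533529, true, true⟩,
 nat_lit 0, nat_lit 0, nat_lit 3086, nat_lit 0, nat_lit 2767, nat_lit 1963, nat_lit 105, nat_lit 0, nat_lit 0, nat_lit 191, nat_lit 0, nat_lit 0, nat_lit 0, nat_lit 0, nat_lit 0, nat_lit 292400, nat_lit 0, nat_lit 0, [(nat_lit 29, [(nat_lit 1, nat_lit 731)])],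
 ⟨p124_k13, nat_lit 0, nat_lit 0, nat_lit 119, nat_lit 0, nat_lit 0, [nat_lit 762852400, nat_lit 1125550001, nat_lit 1749964000], [], [nat_lit 26119049719, nat_lit 26375854812, nat_lit 27669645167, nat_lit 27954936250, nat_lit 26544557169, nat_lit 26770851311, nat_lit 27922071313, nat_lit 28142785749], nat_lit 0, nat_lit 0, nat_lit 0, nat_lit 0, nat_lit 0, nat_lit 0, [], [nat_lit 20, nat_lit 40, nat_lit 40, nat_lit 80, nat_lit 16, nat_lit 249, nat_lit 40, nat_lit 8]⟩, ⟨p124_k1, nat_lit 0, nat_lit 0, nat_lit 418, nat_lit 0, nat_lit 716656, [nat_lit 882858000, nat_lit 1681250000, nat_lit 3193568000], [], [nat_lit 8296049314, nat_lit 8320004237, nat_lit 8546072472, nat_lit 8566506344, nat_lit 8550196517, nat_lit 8571846202, nat_lit 8780825712, nat_lit 8799153485], nat_lit 1271250, nat_lit 1271250, nat_lit 1271250, nat_lit 1271250, nat_lit 1100001, nat_lit 2470000, [nat_lit 780000, nat_lit 1435000, nat_lit 1271250], [nat_lit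 23, nat_lit 40, nat_lit 40, nat_lit 80, nat_lit 12, nat_lit 401, nat_lit 175, nat_lit 9]⟩,
 ⟨nat_lit 1936, nat_lit 2237, ⟨.ofNat (nat_lit 762142), .ofNat (nat_lit 813456), .ofNat (nat_lit 767836), .ofNat (nat_lit 819150), .ofNat (nat_lit 759709), .ofNat (nat_lit 810010), .ofNat (nat_lit 765462), .ofNat (nat_lit 815762)⟩, ⟨.ofNat (nat_lit 192306), .ofNat (nat_lit 306337), .ofNat (nat_lit 200000), .ofNat (nat_lit 329112), .ofNat (nat_lit 194266), .ofNat (nat_lit 306044), .ofNat (nat_lit 200000), .ofNat (nat_lit 329055)⟩⟩, [⟨nat_lit 13, nat_lit 41, nat_lit 76, nat_lit 100, nat_lit 276087313⟩, ⟨nat_lit 4, nat_lit 100, nat_lit 41, nat_lit 85, nat_lit 178473770⟩, ⟨nat_lit 7, nat_lit 93, nat_lit 100, nat_lit 92, nat_lit 73429479⟩]⟩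
noncomputable def p124_l99 : Lf2 := ⟨nat_lit 0, nat_lit 25, [nat_lit 44, nat_lit 5, nat_lit 5, nat_lit 20], false, nat_lit 80, nat_lit 160, nat_lit 160, nat_lit 320, ⟨nat_lit 252, nat_lit 748, nat_lit 0, nat_lit 8, nat_lit 313, nat_lit 748, nat_lit 103, nat_lit 0, nat_lit 0, nat_lit 0, nat_lit 0, nat_lit 0, nat_lit 38749534, nat_lit 24106330, nat_lit 4144136, nat_lit 4528204, true, true⟩,
 nat_lit 0, nat_lit 0, nat_lit 2912, nat_lit 0, nat_lit 2852, nat_lit 1852, nat_lit 185, nat_lit 0, nat_lit 0, nat_lit 180, nat_lit 0, nat_lit 0, nat_lit 0, nat_lit 0, nat_lit 0, nat_lit 187000, nat_lit 0, nat_lit 0, [(nat_lit 29, [(nat_lit 0, nat_lit 748)])],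
 ⟨p124_k15, nat_lit 0, nat_lit 0, nat_lit 118, nat_lit 0, nat_lit 0, [nat_lit 821012800, nat_lit 1609472001, nat_lit 2911227200], [], [nat_lit 26485992694, nat_lit 26641913153, nat_lit 27710014465, nat_lit 27886932476, nat_lit 26886856616, nat_lit 27024144028, nat_lit 27926050575, nat_lit 28055584372], nat_lit 0, nat_lit 0, nat_lit 0, nat_lit 0, nat_lit 0, nat_lit 0, [], [nat_lit 20, nat_lit 40, nat_lit 40, nat_lit 80, nat_lit 16, nat_lit 249, nat_lit 40, nat_lit 8]⟩, ⟨p124_k1, nat_lit 0, nat_lit 0, nat_lit 470, nat_lit 0, nat_lit 763512, [nat_lit 827064000, nat_lit 1575000000, nat_lit 2991744000], [], [nat_lit 7713134552, nat_lit 7735559758, nat_lit 7895571677, nat_lit 7915416554, nat_lit 7959858556, nat_lit 7980112458, nat_lit 8128086241, nat_lit 8145905790], nat_lit 1271250, nat_lit 1271250, nat_lit 1271250, nat_lit 1271250, nat_lit 1100001, nat_lit 2470000, [nat_lit 780000, nat_lit 1435000, nat_lit 1271250], [nat_lit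 23, nat_lit 40, nat_lit 40, nat_lit 80, nat_lit 12, nat_lit 401, nat_lit 175, nat_lit 9]⟩,
 ⟨nat_lit 1732, nat_lit 1937, ⟨.ofNat (nat_lit 759709), .ofNat (nat_lit 798832), .ofNat (nat_lit 765462), .ofNat (nat_lit 804584), .ofNat (nat_lit 758202), .ofNat (nat_lit 796812), .ofNat (nat_lit 763997), .ofNat (nat_lit 802608)⟩, ⟨.ofNat (nat_lit 194266), .ofNat (nat_lit 306044), .ofNat (nat_lit 200000), .ofNat (nat_lit 329055), .ofNat (nat_lit 195430), .ofNat (nat_lit 305745), .ofNat (nat_lit 200000), .ofNat (nat_lit 328928)⟩⟩, [⟨nat_lit 13, nat_lit 37, nat_lit 79, nat_lit 100, nat_lit 307757627⟩, ⟨nat_lit 4, nat_lit 100, nat_lit 37, nat_lit 85, nat_lit 180644840⟩, ⟨nat_lit 7, nat_lit 93, nat_lit 100, nat_lit 92, nat_lit 69415381⟩]⟩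
noncomputable def p124_l100 : Lf2 := ⟨nat_lit 0, nat_lit 25, [nat_lit 44, nat_lit 5, nat_lit 5, nat_lit 20], false, nat_lit 80, nat_lit 160, nat_lit 160, nat_lit 320, ⟨nat_lit 245, nat_lit 755, nat_lit 0, nat_lit 8, nat_lit 311, nat_lit 755, nat_lit 103, nat_lit 0, nat_lit 0, nat_lit 0, nat_lit 0, nat_lit 0, nat_lit 38894307, nat_lit 23947867, nat_lit 4157826, nat_lit 4525074, true, true⟩,
 nat_lit 0, nat_lit 0, nat_lit 2840, nat_lit 0, nat_lit 2851, nat_lit 1807, nat_lit 176, nat_lit 0, nat_lit 0, nat_lit 176, nat_lit 0, nat_lit 0, nat_lit 0, nat_lit 0, nat_lit 0, nat_lit 188750, nat_lit 0, nat_lit 0, [(nat_lit 29, [(nat_lit 0, nat_lit 755)])],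
 ⟨p124_k37, nat_lit 0, nat_lit 0, nat_lit 118, nat_lit 0, nat_lit 0, [nat_lit 819918000, nat_lit 1593820001, nat_lit 2879982000], [], [nat_lit 26620060126, nat_lit 26723992687, nat_lit 27687326022, nat_lit 27806460513, nat_lit 27001404694, nat_lit 27092917784, nat_lit 27885408522, nat_lit 27976309303], nat_lit 0, nat_lit 0, nat_lit 0, nat_lit 0, nat_lit 0, nat_lit 0, [], [nat_lit 20, nat_lit 40, nat_lit 40, nat_lit 80, nat_lit 16, nat_lit 249, nat_lit 40, nat_lit 8]⟩, ⟨p124_k1, nat_lit 0, nat_lit 0, nat_lit 489, nat_lit 0, nat_lit 795069, [nat_lit 804090000, nat_lit 1531250000, nat_lit 2908640000], [], [nat_lit 7460896480, nat_lit 7482690947, nat_lit 7613039164, nat_lit 7632677093, nat_lit 7709553140, nat_lit 7729230817, nat_lit 7849821402, nat_lit 7867464558], nat_lit 1271250, nat_lit 1271250, nat_lit 1271250, nat_lit 1271250, nat_lit 1100001, nat_lit 2470000, [nat_lit 780000, nat_lit 1435000, nat_lit 1271250], [nat_lit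 23, nat_lit 40, nat_lit 40, nat_lit 80, nat_lit 12, nat_lit 401, nat_lit 175, nat_lit 9]⟩,
 ⟨nat_lit 1581, nat_lit 1733, ⟨.ofNat (nat_lit 758202), .ofNat (nat_lit 791296), .ofNat (nat_lit 763997), .ofNat (nat_lit 797092), .ofNat (nat_lit 757166), .ofNat (nat_lit 789947), .ofNat (nat_lit 762995), .ofNat (nat_lit 795776)⟩, ⟨.ofNat (nat_lit 195430), .ofNat (nat_lit 305745), .ofNat (nat_lit 200000), .ofNat (nat_lit 328928), .ofNat (nat_lit 196201), .ofNat (nat_lit 305473), .ofNat (nat_lit 200000), .ofNat (nat_lit 328788)⟩⟩, [⟨nat_lit 13, nat_lit 34, nat_lit 81, nat_lit 100, nat_lit 343200133⟩, ⟨nat_lit 16, nat_lit 34, nat_lit 100, nat_lit 86, nat_lit 190214319⟩, ⟨nat_lit 19, nat_lit 100, nat_lit 93, nat_lit 92, nat_lit 67760611⟩]⟩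
noncomputable def p124_l101 : Lf2 := ⟨nat_lit 0, nat_lit 25, [nat_lit 44, nat_lit 5, nat_lit 5, nat_lit 20], false, nat_lit 80, nat_lit 160, nat_lit 160, nat_lit 316, ⟨nat_lit 303, nat_lit 697, nat_lit 0, nat_lit 8, nat_lit 319, nat_lit 697, nat_lit 103, nat_lit 0, nat_lit 0, nat_lit 0, nat_lit 0, nat_lit 0, nat_lit 38184039, nat_lit 24719816, nat_lit 4096145, nat_lit 4540124, true, true⟩,
 nat_lit 0, nat_lit 0, nat_lit 3264, nat_lit 0, nat_lit 2730, nat_lit 2121, nat_lit 125, nat_lit 0, nat_lit 0, nat_lit 218, nat_lit 0, nat_lit 0, nat_lit 0, nat_lit 0, nat_lit 0, nat_lit 278800, nat_lit 0, nat_lit 0, [(nat_lit 29, [(nat_lit 1, nat_lit 697)])],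
 ⟨p124_k13, nat_lit 0, nat_lit 0, nat_lit 120, nat_lit 0, nat_lit 0, [nat_lit 770998801, nat_lit 1225850001, nat_lit 1959268000], [], [nat_lit 26099284485, nat_lit 26354756560, nat_lit 27803507820, nat_lit 28084331185, nat_lit 26588927587, nat_lit 26814125567, nat_lit 28073219247, nat_lit 28280493712], nat_lit 0, nat_lit 0, nat_lit 0, nat_lit 0, nat_lit 0, nat_lit 0, [], [nat_lit 20, nat_lit 40, nat_lit 40, nat_lit 80, nat_lit 16, nat_lit 249, nat_lit 40, nat_lit 8]⟩, ⟨p124_k4, nat_lit 0, nat_lit 0, nat_lit 422, nat_lit 0, nat_lit 724282, [nat_lit 994446000, nat_lit 1893750000, nat_lit 3597216000], [], [nat_lit 9318879906, nat_lit 9345971893, nat_lit 9624931116, nat_lit 9647762317, nat_lit 9598412518, nat_lit 9623368439, nat_lit 9884593298, nat_lit 9907695351], nat_lit 1271250, nat_lit 1271250, nat_lit 1271250, nat_lit 1271250, nat_lit 1100001, nat_lit 2435750, [nat_lit 780000, nat_lit 1435000, nat_lit 1271250], [nat_lit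 23, nat_lit 40, nat_lit 40, nat_lit 80, nat_lit 12, nat_lit 401, nat_lit 175, nat_lit 9]⟩,
 ⟨nat_lit 1936, nat_lit 2237, ⟨.ofNat (nat_lit 767836), .ofNat (nat_lit 824851), .ofNat (nat_lit 773529), .ofNat (nat_lit 830545), .ofNat (nat_lit 765462), .ofNat (nat_lit 821351), .ofNat (nat_lit 771215), .ofNat (nat_lit 827104)⟩, ⟨.ofNat (nat_lit 192306), .ofNat (nat_lit 306337), .ofNat (nat_lit 200000), .ofNat (nat_lit 329112), .ofNat (nat_lit 194266), .ofNat (nat_lit 306044), .ofNat (nat_lit 200000), .ofNat (nat_lit 329055)⟩⟩, [⟨nat_lit 13, nat_lit 42, nat_lit 75, nat_lit 100, nat_lit 231567582⟩, ⟨nat_lit 4, nat_lit 100, nat_lit 41, nat_lit 85, nat_lit 195110019⟩, ⟨nat_lit 7, nat_lit 96, nat_lit 100, nat_lit 93, nat_lit 81537374⟩]⟩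
noncomputable def p124_l102 : Lf2 := ⟨nat_lit 0, nat_lit 25, [nat_lit 44, nat_lit 5, nat_lit 5, nat_lit 20], false, nat_lit 80, nat_lit 160, nat_lit 160, nat_lit 316, ⟨nat_lit 277, nat_lit 723, nat_lit 0, nat_lit 8, nat_lit 316, nat_lit 723, nat_lit 103, nat_lit 0, nat_lit 0, nat_lit 0, nat_lit 0, nat_lit 0, nat_lit 38472700, nat_lit 24401957, nat_lit 4125343, nat_lit 4535065, true, true⟩,
 nat_lit 0, nat_lit 0, nat_lit 3008, nat_lit 0, nat_lit 2851, nat_lit 1955, nat_lit 191, nat_lit 0, nat_lit 0, nat_lit 201, nat_lit 0, nat_lit 0, nat_lit 0, nat_lit 0, nat_lit 0, nat_lit 180750, nat_lit 0, nat_lit 0, [(nat_lit 29, [(nat_lit 0, nat_lit 723)])],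
 ⟨p124_k15, nat_lit 0, nat_lit 0, nat_lit 120, nat_lit 0, nat_lit 0, [nat_lit 824922800, nat_lit 1665372001, nat_lit 3022817200], [], [nat_lit 26524671485, nat_lit 26784502887, nat_lit 27907872423, nat_lit 28199676699, nat_lit 26934654858, nat_lit 27163437584, nat_lit 28122185788, nat_lit 28338393881], nat_lit 0, nat_lit 0, nat_lit 0, nat_lit 0, nat_lit 0, nat_lit 0, [], [nat_lit 20, nat_lit 40, nat_lit 40, nat_lit 80, nat_lit 16, nat_lit 249, nat_lit 40, nat_lit 8]⟩, ⟨p124_k4, nat_lit 0, nat_lit 0, nat_lit 490, nat_lit 0, nat_lit 799146, [nat_lit 909114000, nat_lit 1731250000, nat_lit 3288544000], [], [nat_lit 8437766522, nat_lit 8462514376, nat_lit 8661947218, nat_lit 8683558197, nat_lit 8707512134, nat_lit 8730295096, nat_lit 8917068244, nat_lit 8939169183], nat_lit 1271250, nat_lit 1271250, nat_lit 1271250, nat_lit 1271250, nat_lit 1100001, nat_lit 2435750, [nat_lit 780000, nat_lit 1435000, nat_lit 1271250], [nat_lit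 23, nat_lit 40, nat_lit 40, nat_lit 80, nat_lit 12, nat_lit 401, nat_lit 175, nat_lit 9]⟩,
 ⟨nat_lit 1581, nat_lit 1937, ⟨.ofNat (nat_lit 765462), .ofNat (nat_lit 810173), .ofNat (nat_lit 771215), .ofNat (nat_lit 815926), .ofNat (nat_lit 762995), .ofNat (nat_lit 806703), .ofNat (nat_lit 768823), .ofNat (nat_lit 812532)⟩, ⟨.ofNat (nat_lit 194266), .ofNat (nat_lit 306044), .ofNat (nat_lit 200000), .ofNat (nat_lit 329055), .ofNat (nat_lit 196201), .ofNat (nat_lit 305473), .ofNat (nat_lit 200000), .ofNat (nat_lit 328788)⟩⟩, [⟨nat_lit 13, nat_lit 34, nat_lit 80, nat_lit 100, nat_lit 318323513⟩, ⟨nat_lit 16, nat_lit 36, nat_lit 100, nat_lit 86, nat_lit 193869688⟩, ⟨nat_lit 19, nat_lit 100, nat_lit 96, nat_lit 93, nat_lit 75301618⟩]⟩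
noncomputable def p124_l103 : Lf2 := ⟨nat_lit 0, nat_lit 25, [nat_lit 44, nat_lit 5, nat_lit 5, nat_lit 20], false, nat_lit 80, nat_lit 160, nat_lit 160, nat_lit 320, ⟨nat_lit 145, nat_lit 855, nat_lit 0, nat_lit 8, nat_lit 310, nat_lit 855, nat_lit 103, nat_lit 0, nat_lit 0, nat_lit 0, nat_lit 0, nat_lit 0, nat_lit 38965427, nat_lit 23887464, nat_lit 4147109, nat_lit 4520618, true, true⟩,
 nat_lit 0, nat_lit 0, nat_lit 1716, nat_lit 0, nat_lit 3038, nat_lit 1091, nat_lit 28, nat_lit 0, nat_lit 0, nat_lit 96, nat_lit 0, nat_lit 0, nat_lit 0, nat_lit 0, nat_lit 0, nat_lit 213750, nat_lit 0, nat_lit 0, [(nat_lit 29, [(nat_lit 0, nat_lit 855)])],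
 ⟨p124_k14, nat_lit 0, nat_lit 0, nat_lit 108, nat_lit 0, nat_lit 0, [nat_lit 804278001, nat_lit 1370220000, nat_lit 1856582000], [], [nat_lit 27084321194, nat_lit 27648752484, nat_lit 28148865295, nat_lit 28752303185, nat_lit 27393649359, nat_lit 27905828868, nat_lit 28367961784, nat_lit 28856966446], nat_lit 0, nat_lit 0, nat_lit 0, nat_lit 0, nat_lit 0, nat_lit 0, [], [nat_lit 35, nat_lit 40, nat_lit 40, nat_lit 80, nat_lit 22, nat_lit 249, nat_lit 40, nat_lit 9]⟩, ⟨p124_k1, nat_lit 0, nat_lit 0, nat_lit 555, nat_lit 0, nat_lit 984139, [nat_lit 475890000, nat_lit 906250000, nat_lit 1721440000], [], [nat_lit 4612218884, nat_lit 4630373902, nat_lit 4680222198, nat_lit 4696292846, nat_lit 4668256876, nat_lit 4684330916, nat_lit 4730456016, nat_lit 4745525038], nat_lit 1271250, nat_lit 1271250, nat_lit 1271250, nat_lit 1271250, nat_lit 1100001, nat_lit 2470000, [nat_lit 780000, nat_lit 1435000, nat_lit 1271250], [nat_lit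 23, nat_lit 40, nat_lit 40, nat_lit 80, nat_lit 12, nat_lit 401, nat_lit 175, nat_lit 9]⟩,
 ⟨nat_lit 0, nat_lit 1582, ⟨.ofNat (nat_lit 757165), .ofNat (nat_lit 789945), .ofNat (nat_lit 768823), .ofNat (nat_lit 801603), .ofNat (nat_lit 749998), .ofNat (nat_lit 779997), .ofNat (nat_lit 762499), .ofNat (nat_lit 792497)⟩, ⟨.ofNat (nat_lit 196201), .ofNat (nat_lit 305469), .ofNat (nat_lit 200000), .ofNat (nat_lit 328785), .ofNat (nat_lit 199999), .ofNat (nat_lit 299995), .ofNat (nat_lit 200000), .ofNat (nat_lit 324996)⟩⟩, [⟨nat_lit 13, nat_lit 35, nat_lit 79, nat_lit 100, nat_lit 464188277⟩, ⟨nat_lit 16, nat_lit 32, nat_lit 100, nat_lit 88, nat_lit 96103034⟩, ⟨nat_lit 19, nat_lit 100, nat_lit 94, nat_lit 92, nat_lit 36951004⟩]⟩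
noncomputable def p124_l104 : Lf2 := ⟨nat_lit 0, nat_lit 25, [nat_lit 44, nat_lit 5, nat_lit 5, nat_lit 20], false, nat_lit 80, nat_lit 160, nat_lit 160, nat_lit 312, ⟨nat_lit 737, nat_lit 263, nat_lit 0, nat_lit 8, nat_lit 323, nat_lit 263, nat_lit 103, nat_lit 0, nat_lit 0, nat_lit 0, nat_lit 0, nat_lit 0, nat_lit 37890406, nat_lit 25034982, nat_lit 4074612, nat_lit 4546138, true, true⟩,
 nat_lit 0, nat_lit 0, nat_lit 6568, nat_lit 0, nat_lit 2962, nat_lit 4361, nat_lit 331, nat_lit 0, nat_lit 0, nat_lit 559, nat_lit 0, nat_lit 0, nat_lit 0, nat_lit 0, nat_lit 0, nat_lit 105200, nat_lit 0, nat_lit 0, [(nat_lit 29, [(nat_lit 1, nat_lit 263)])],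
 ⟨p124_k13, nat_lit 0, nat_lit 0, nat_lit 122, nat_lit 0, nat_lit 0, [nat_lit 874985200, nat_lit 2506150000, nat_lit 4630972000], [], [nat_lit 26488324459, nat_lit 26752154914, nat_lit 28441269627, nat_lit 28728540531, nat_lit 26902058438, nat_lit 27118023971, nat_lit 28568842852, nat_lit 28787790133], nat_lit 0, nat_lit 0, nat_lit 0, nat_lit 0, nat_lit 0, nat_lit 0, [], [nat_lit 20, nat_lit 40, nat_lit 40, nat_lit 80, nat_lit 16, nat_lit 249, nat_lit 40, nat_lit 8]⟩, ⟨p124_k5, nat_lit 0, nat_lit 0, nat_lit 432, nat_lit 0, nat_lit 732179, [nat_lit 2418834000, nat_lit 4606250000, nat_lit 8749664000], [], [nat_lit 23800993105, nat_lit 23867858092, nat_lit 24635691554, nat_lit 24706374343, nat_lit 24742731514, nat_lit 24805814390, nat_lit 25615339684, nat_lit 25682118565], nat_lit 1271250, nat_lit 1271250, nat_lit 1271250, nat_lit 1271250, nat_lit 1100001, nat_lit 2401500, [nat_lit 780000, nat_lit 1435000, nat_lit 1271250],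 [nat_lit 23, nat_lit 40, nat_lit 40, nat_lit 80, nat_lit 12, nat_lit 401, nat_lit 175, nat_lit 9]⟩,
 ⟨nat_lit 1936, nat_lit 2237, ⟨.ofNat (nat_lit 773529), .ofNat (nat_lit 836247), .ofNat (nat_lit 779223), .ofNat (nat_lit 841940), .ofNat (nat_lit 771215), .ofNat (nat_lit 832693), .ofNat (nat_lit 776967), .ofNat (nat_lit 838446)⟩, ⟨.ofNat (nat_lit 192306), .ofNat (nat_lit 306337), .ofNat (nat_lit 200000), .ofNat (nat_lit 329112), .ofNat (nat_lit 194266), .ofNat (nat_lit 306044), .ofNat (nat_lit 200000), .ofNat (nat_lit 329055)⟩⟩, [⟨nat_lit 4, nat_lit 100, nat_lit 41, nat_lit 85, nat_lit 368257799⟩, ⟨nat_lit 7, nat_lit 99, nat_lit 100, nat_lit 94, nat_lit 207326897⟩]⟩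
noncomputable def p124_l105 : Lf2 := ⟨nat_lit 0, nat_lit 25, [nat_lit 44, nat_lit 5, nat_lit 5, nat_lit 20], false, nat_lit 80, nat_lit 160, nat_lit 160, nat_lit 312, ⟨nat_lit 321, nat_lit 679, nat_lit 0, nat_lit 8, nat_lit 319, nat_lit 679, nat_lit 103, nat_lit 0, nat_lit 0, nat_lit 0, nat_lit 0, nat_lit 0, nat_lit 38177256, nat_lit 24718873, nat_lit 4103871, nat_lit 4541657, true, true⟩,
 nat_lit 0, nat_lit 0, nat_lit 3265, nat_lit 0, nat_lit 2861, nat_lit 2168, nat_lit 203, nat_lit 0, nat_lit 0, nat_lit 237, nat_lit 0, nat_lit 0, nat_lit 0, nat_lit 0, nat_lit 0, nat_lit 169750, nat_lit 0, nat_lit 0, [(nat_lit 29, [(nat_lit 0, nat_lit 679)])],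
 ⟨p124_k15, nat_lit 0, nat_lit 0, nat_lit 121, nat_lit 0, nat_lit 0, [nat_lit 831804401, nat_lit 1763756001, nat_lit 3219215600], [], [nat_lit 26577181980, nat_lit 26837373657, nat_lit 28125658425, nat_lit 28414863061, nat_lit 26987934040, nat_lit 27217013026, nat_lit 28325248564, nat_lit 28537676978], nat_lit 0, nat_lit 0, nat_lit 0, nat_lit 0, nat_lit 0, nat_lit 0, [], [nat_lit 20, nat_lit 40, nat_lit 40, nat_lit 80, nat_lit 16, nat_lit 249, nat_lit 40, nat_lit 8]⟩, ⟨p124_k5, nat_lit 0, nat_lit 0, nat_lit 491, nat_lit 0, nat_lit 803982, [nat_lit 1053522000, nat_lit 2006250000, nat_lit 3810912000], [], [nat_lit 9721970235, nat_lit 9750767475, nat_lit 10007892521, nat_lit 10032742430, nat_lit 10038638666, nat_lit 10065623493, nat_lit 10314095472, nat_lit 10347949485], nat_lit 1271250, nat_lit 1271250, nat_lit 1271250, nat_lit 1271250, nat_lit 1100001, nat_lit 2401500, [nat_lit 780000, nat_lit 1435000, nat_lit 1271250],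 [nat_lit 23, nat_lit 40, nat_lit 40, nat_lit 80, nat_lit 12, nat_lit 401, nat_lit 175, nat_lit 9]⟩,
 ⟨nat_lit 1581, nat_lit 1937, ⟨.ofNat (nat_lit 771215), .ofNat (nat_lit 821515), .ofNat (nat_lit 776967), .ofNat (nat_lit 827268), .ofNat (nat_lit 768823), .ofNat (nat_lit 817996), .ofNat (nat_lit 774652), .ofNat (nat_lit 823824)⟩, ⟨.ofNat (nat_lit 194266), .ofNat (nat_lit 306044), .ofNat (nat_lit 200000), .ofNat (nat_lit 329055), .ofNat (nat_lit 196201), .ofNat (nat_lit 305473), .ofNat (nat_lit 200000), .ofNat (nat_lit 328788)⟩⟩, [⟨nat_lit 13, nat_lit 35, nat_lit 79, nat_lit 100, nat_lit 282277237⟩, ⟨nat_lit 4, nat_lit 100, nat_lit 36, nat_lit 86, nat_lit 222028033⟩, ⟨nat_lit 7, nat_lit 99, nat_lit 100, nat_lit 94, nat_lit 86914665⟩]⟩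
noncomputable def p124_l106 : Lf2 := ⟨nat_lit 0, nat_lit 25, [nat_lit 44, nat_lit 5, nat_lit 5, nat_lit 20], false, nat_lit 80, nat_lit 160, nat_lit 160, nat_lit 308, ⟨nat_lit 747, nat_lit 253, nat_lit 0, nat_lit 8, nat_lit 325, nat_lit 253, nat_lit 103, nat_lit 0, nat_lit 0, nat_lit 0, nat_lit 0, nat_lit 0, nat_lit 37648010, nat_lit 25292033, nat_lit 4059957, nat_lit 4551262, true, true⟩,
 nat_lit 0, nat_lit 0, nat_lit 6494, nat_lit 0, nat_lit 2908, nat_lit 4403, nat_lit 339, nat_lit 0, nat_lit 0, nat_lit 573, nat_lit 0, nat_lit 0, nat_lit 0, nat_lit 0, nat_lit 0, nat_lit 101200, nat_lit 0, nat_lit 0, [(nat_lit 29, [(nat_lit 1, nat_lit 253)])],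
 ⟨p124_k13, nat_lit 0, nat_lit 0, nat_lit 124, nat_lit 0, nat_lit 0, [nat_lit 877381200, nat_lit 2535650000, nat_lit 4692532000], [], [nat_lit 26512411782, nat_lit 26982117467, nat_lit 28560913296, nat_lit 29125110693, nat_lit 26960181342, nat_lit 27388992030, nat_lit 28761180352, nat_lit 29177278600], nat_lit 0, nat_lit 0, nat_lit 0, nat_lit 0, nat_lit 0, nat_lit 0, [], [nat_lit 20, nat_lit 40, nat_lit 40, nat_lit 80, nat_lit 16, nat_lit 249, nat_lit 40, nat_lit 8]⟩, ⟨p124_k17, nat_lit 0, nat_lit 0, nat_lit 492, nat_lit 0, nat_lit 809184, [nat_lit 2451654000, nat_lit 4668750000, nat_lit 8868384000], [], [nat_lit 23342778229, nat_lit 23425629904, nat_lit 24369002943, nat_lit 24444516223, nat_lit 24319021315, nat_lit 24386663102, nat_lit 25294809693, nat_lit 25362336235], nat_lit 1271250, nat_lit 1271250, nat_lit 1271250, nat_lit 1271250, nat_lit 1100001, nat_lit 2367250, [nat_lit 780000, nat_lit 1435000, nat_lit 1271250],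 [nat_lit 23, nat_lit 40, nat_lit 40, nat_lit 80, nat_lit 12, nat_lit 401, nat_lit 175, nat_lit 9]⟩,
 ⟨nat_lit 1581, nat_lit 2237, ⟨.ofNat (nat_lit 779223), .ofNat (nat_lit 847642), .ofNat (nat_lit 784917), .ofNat (nat_lit 853335), .ofNat (nat_lit 774652), .ofNat (nat_lit 840215), .ofNat (nat_lit 780481), .ofNat (nat_lit 846044)⟩, ⟨.ofNat (nat_lit 192306), .ofNat (nat_lit 306337), .ofNat (nat_lit 200000), .ofNat (nat_lit 329112), .ofNat (nat_lit 196201), .ofNat (nat_lit 305473), .ofNat (nat_lit 200000), .ofNat (nat_lit 328788)⟩⟩, [⟨nat_lit 4, nat_lit 100, nat_lit 39, nat_lit 85, nat_lit 392282450⟩, ⟨nat_lit 19, nat_lit 98, nat_lit 100, nat_lit 94, nat_lit 213123953⟩]⟩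
noncomputable def p124_l107 : Lf2 := ⟨nat_lit 0, nat_lit 25, [nat_lit 44, nat_lit 5, nat_lit 5, nat_lit 20], false, nat_lit 80, nat_lit 160, nat_lit 160, nat_lit 312, ⟨nat_lit 235, nat_lit 765, nat_lit 0, nat_lit 8, nat_lit 317, nat_lit 765, nat_lit 103, nat_lit 0, nat_lit 0, nat_lit 0, nat_lit 0, nat_lit 0, nat_lit 38363643, nat_lit 24532261, nat_lit 4104096, nat_lit 4535320, true, true⟩,
 nat_lit 0, nat_lit 0, nat_lit 2474, nat_lit 0, nat_lit 2803, nat_lit 1643, nat_lit 89, nat_lit 0, nat_lit 0, nat_lit 165, nat_lit 0, nat_lit 0, nat_lit 0, nat_lit 0, nat_lit 0, nat_lit 191250, nat_lit 0, nat_lit 0, [(nat_lit 29, [(nat_lit 0, nat_lit 765)])],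
 ⟨p124_k14, nat_lit 0, nat_lit 0, nat_lit 110, nat_lit 0, nat_lit 0, [nat_lit 818354001, nat_lit 1571460000, nat_lit 2154626000], [], [nat_lit 26757413873, nat_lit 27253559379, nat_lit 28111667797, nat_lit 28691209156, nat_lit 27250976849, nat_lit 27697106780, nat_lit 28400380899, nat_lit 28846185722], nat_lit 0, nat_lit 0, nat_lit 0, nat_lit 0, nat_lit 0, nat_lit 0, [], [nat_lit 35, nat_lit 40, nat_lit 40, nat_lit 80, nat_lit 22, nat_lit 249, nat_lit 40, nat_lit 9]⟩, ⟨p124_k5, nat_lit 0, nat_lit 0, nat_lit 552, nat_lit 0, nat_lit 979947, [nat_lit 771270000, nat_lit 1468750000, nat_lit 2789920000], [], [nat_lit 7235962624, nat_lit 7280905857, nat_lit 7430005781, nat_lit 7469711227, nat_lit 7414294748, nat_lit 7442601834, nat_lit 7584176936, nat_lit 7623956395], nat_lit 1271250, nat_lit 1271250, nat_lit 1271250, nat_lit 1271250, nat_lit 1100001, nat_lit 2401500, [nat_lit 780000, nat_lit 1435000, nat_lit 1271250], [nat_lit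 23, nat_lit 40, nat_lit 40, nat_lit 80, nat_lit 12, nat_lit 401, nat_lit 175, nat_lit 9]⟩,
 ⟨nat_lit 0, nat_lit 1582, ⟨.ofNat (nat_lit 768823), .ofNat (nat_lit 812530), .ofNat (nat_lit 780481), .ofNat (nat_lit 824188), .ofNat (nat_lit 762499), .ofNat (nat_lit 802497), .ofNat (nat_lit 774999), .ofNat (nat_lit 814997)⟩, ⟨.ofNat (nat_lit 196201), .ofNat (nat_lit 305469), .ofNat (nat_lit 200000), .ofNat (nat_lit 328785), .ofNat (nat_lit 199999), .ofNat (nat_lit 299995), .ofNat (nat_lit 200000), .ofNat (nat_lit 324996)⟩⟩, [⟨nat_lit 13, nat_lit 36, nat_lit 77, nat_lit 100, nat_lit 145818351⟩, ⟨nat_lit 16, nat_lit 24, nat_lit 100, nat_lit 89, nat_lit 494697911⟩, ⟨nat_lit 7, nat_lit 100, nat_lit 100, nat_lit 95, nat_lit 4760174⟩, ⟨nat_lit 22, nat_lit 80, nat_lit 100, nat_lit 100, nat_lit 65994450⟩]⟩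
noncomputable def b_V_900_700_20_39 : St := ⟨true, nat_lit 0, nat_lit 1, nat_lit 1, nat_lit 120, nat_lit 380, nat_lit 400, nat_lit 280, nat_lit 300, nat_lit 320, nat_lit 368, nat_lit 80, nat_lit 100, nat_lit 80, nat_lit 160, nat_lit 0, nat_lit 336, nat_lit 80, nat_lit 120, nat_lit 0, nat_lit 0, nat_lit 0, nat_lit 0⟩
theorem d_V_900_700_20_39 (h : EB TB.env) : Dead b_V_900_700_20_39 := chkB_sound0 h (T :=
(.trX (nat_lit 19) (nat_lit 100) (nat_lit 88) (nat_lit 94) (nat_lit 320) (.spl (nat_lit 5) (nat_lit 160)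
(.spl (nat_lit 0) (nat_lit 390)
(.leaf p124_l96)
(.trX (nat_lit 13) (nat_lit 36) (nat_lit 77) (nat_lit 100) (nat_lit 352) (.leaf p124_l97)))
(.spl (nat_lit 1) (nat_lit 290)
(.trX (nat_lit 13) (nat_lit 49) (nat_lit 68) (nat_lit 100) (nat_lit 360) (.spl (nat_lit 0) (nat_lit 390)
(.spl (nat_lit 1) (nat_lit 285)
(.trX (nat_lit 13) (nat_lit 48) (nat_lit 70) (nat_lit 100) (nat_lit 356) (.spl (nat_lit 0) (nat_lit 385)
(.leaf p124_l98)
(.trX (nat_lit 13) (nat_lit 42) (nat_lit 75) (nat_lit 100) (nat_lit 348) (.spl (nat_lit 0) (nat_lit 388)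
(.leaf p124_l99)
(.trX (nat_lit 13) (nat_lit 38) (nat_lit 78) (nat_lit 100) (nat_lit 344) (.leaf p124_l100))))))
(.trX (nat_lit 19) (nat_lit 100) (nat_lit 91) (nat_lit 96) (nat_lit 316) (.spl (nat_lit 0) (nat_lit 385)
(.leaf p124_l101)
(.trX (nat_lit 13) (nat_lit 43) (nat_lit 73) (nat_lit 100) (nat_lit 352) (.leaf p124_l102)))))
(.trX (nat_lit 13) (nat_lit 35) (nat_lit 79) (nat_lit 100) (nat_lit 344) (.leaf p124_l103))))
(.trX (nat_lit 19) (nat_lit 100) (nat_lit 94) (nat_lit 97) (nat_lit 312) (.spl (nat_lit 0) (nat_lit 390)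
(.spl (nat_lit 1) (nat_lit 295)
(.trX (nat_lit 13) (nat_lit 50) (nat_lit 66) (nat_lit 100) (nat_lit 364) (.spl (nat_lit 0) (nat_lit 385)
(.leaf p124_l104)
(.trX (nat_lit 13) (nat_lit 43) (nat_lit 72) (nat_lit 100) (nat_lit 356) (.leaf p124_l105))))
(.trX (nat_lit 19) (nat_lit 100) (nat_lit 97) (nat_lit 98) (nat_lit 308) (.leaf p124_l106)))
(.trX (nat_lit 13) (nat_lit 36) (nat_lit 77) (nat_lit 100) (nat_lit 352) (.leaf p124_l107)))))))) (by decide +kernel)
noncomputable def p124_l108 : Lf2 := ⟨nat_lit 0, nat_lit 30, [nat_lit 15, nat_lit 5, nat_lit 5, nat_lit 20], false, nat_lit 80, nat_lit 160, nat_lit 0, nat_lit 160, ⟨nat_lit 1000, nat_lit 0, nat_lit 0, nat_lit 0, nat_lit 0, nat_lit 0, nat_lit 0, nat_lit 0, nat_lit 0, nat_lit 0, nat_lit 0, nat_lit 0, nat_lit 0, nat_lit 0, nat_lit 0, nat_lit 0, false, false⟩,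
 nat_lit 0, nat_lit 0, nat_lit 11168, nat_lit 0, nat_lit 2826, nat_lit 7106, nat_lit 579, nat_lit 0, nat_lit 0, nat_lit 838, nat_lit 0, nat_lit 0, nat_lit 0, nat_lit 0, nat_lit 0, nat_lit 0, nat_lit 0, nat_lit 0, [],
 ⟨p124_k20, nat_lit 0, nat_lit 0, nat_lit 141, nat_lit 0, nat_lit 0, [nat_lit 938000000, nat_lit 3282000000, nat_lit 7968000000], [], [nat_lit 26159076177, nat_lit 26626906523, nat_lit 28408392312, nat_lit 28966118302, nat_lit 26568686057, nat_lit 26998262135, nat_lit 28571320873, nat_lit 29053086766], nat_lit 0, nat_lit 0, nat_lit 0, nat_lit 0, nat_lit 0, nat_lit 0, [], [nat_lit 54, nat_lit 40, nat_lit 40, nat_lit 80, nat_lit 43, nat_lit 249, nat_lit 40, nat_lit 7]⟩, ⟨p124_k7, nat_lit 0, nat_lit 0, nat_lit 607, nat_lit 0, nat_lit 716601, [nat_lit 3282000000, nat_lit 6250000000, nat_lit 14058000000], [], [nat_lit 36635283092, nat_lit 37039582552, nat_lit 38033039678, nat_lit 38688353526, nat_lit 31929889252,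 nat_lit 32355848440, nat_lit 33553359525, nat_lit 34008373875], nat_lit 1271250, nat_lit 1271250, nat_lit 1271250, nat_lit 1271250, nat_lit 0, nat_lit 1100001, [nat_lit 780000, nat_lit 1435000, nat_lit 1271250], [nat_lit 71, nat_lit 40, nat_lit 40, nat_lit 80, nat_lit 68, nat_lit 456, nat_lit 225, nat_lit 10]⟩,
 zbF0, []⟩
noncomputable def p124_l109 : Lf2 := ⟨nat_lit 0, nat_lit 30, [nat_lit 15, nat_lit 5, nat_lit 5, nat_lit 20], false, nat_lit 80, nat_lit 160, nat_lit 0, nat_lit 160, ⟨nat_lit 427, nat_lit 573, nat_lit 0, nat_lit 8, nat_lit 315, nat_lit 573, nat_lit 108, nat_lit 0, nat_lit 0, nat_lit 0, nat_lit 0, nat_lit 0, nat_lit 38374061, nat_lit 24211135, nat_lit 4414804, nat_lit 4585900, true, true⟩,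
 nat_lit 0, nat_lit 0, nat_lit 4703, nat_lit 0, nat_lit 2688, nat_lit 2992, nat_lit 269, nat_lit 0, nat_lit 0, nat_lit 355, nat_lit 0, nat_lit 0, nat_lit 0, nat_lit 0, nat_lit 0, nat_lit 143250, nat_lit 0, nat_lit 0, [(nat_lit 29, [(nat_lit 0, nat_lit 573)])],
 ⟨p124_k21, nat_lit 0, nat_lit 0, nat_lit 124, nat_lit 0, nat_lit 0, [nat_lit 848382801, nat_lit 2000772000, nat_lit 3692357200], [], [nat_lit 26359646152, nat_lit 26975787008, nat_lit 27900813135, nat_lit 28470610176, nat_lit 26816430119, nat_lit 27264337495, nat_lit 28119202728, nat_lit 28642375719], nat_lit 0, nat_lit 0, nat_lit 0, nat_lit 0, nat_lit 0, nat_lit 0, [], [nat_lit 20, nat_lit 40, nat_lit 40, nat_lit 80, nat_lit 16, nat_lit 249, nat_lit 40, nat_lit 8]⟩, ⟨p124_k7, nat_lit 0, nat_lit 0, nat_lit 681, nat_lit 0, nat_lit 868718, [nat_lit 1401414000, nat_lit 2668750000, nat_lit 6002766000], [], [nat_lit 15801048186, nat_lit 15973666728, nat_lit 16187181953,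 nat_lit 16339135361, nat_lit 13832823942, nat_lit 13977145540, nat_lit 14229354272, nat_lit 14435353864], nat_lit 1271250, nat_lit 1271250, nat_lit 1271250, nat_lit 1271250, nat_lit 0, nat_lit 1100001, [nat_lit 780000, nat_lit 1435000, nat_lit 1271250], [nat_lit 71, nat_lit 40, nat_lit 40, nat_lit 80, nat_lit 68, nat_lit 456, nat_lit 225, nat_lit 10]⟩,
 ⟨nat_lit 0, nat_lit 1582, ⟨.ofNat (nat_lit 757165), .ofNat (nat_lit 800872), .ofNat (nat_lit 780481), .ofNat (nat_lit 824188), .ofNat (nat_lit 749998), .ofNat (nat_lit 789996), .ofNat (nat_lit 774999), .ofNat (nat_lit 814997)⟩, ⟨.ofNat (nat_lit 200000), .ofNat (nat_lit 328785), .ofNat (nat_lit 200000), .ofNat (nat_lit 352101), .ofNat (nat_lit 200000), .ofNat (nat_lit 324996), .ofNat (nat_lit 200000), .ofNat (nat_lit 349997)⟩⟩, [⟨nat_lit 13, nat_lit 25, nat_lit 86, nat_lit 100, nat_lit 623393018⟩, ⟨nat_lit 16, nat_lit 23, nat_lit 100, nat_lit 92, nat_lit 381337650⟩]⟩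
noncomputable def p124_l110 : Lf2 := ⟨nat_lit 0, nat_lit 30, [nat_lit 15, nat_lit 5, nat_lit 5, nat_lit 20], false, nat_lit 80, nat_lit 160, nat_lit 160, nat_lit 336, ⟨nat_lit 1000, nat_lit 0, nat_lit 0, nat_lit 0, nat_lit 0, nat_lit 0, nat_lit 0, nat_lit 0, nat_lit 0, nat_lit 0, nat_lit 0, nat_lit 0, nat_lit 0, nat_lit 0, nat_lit 0, nat_lit 0, false, false⟩,
 nat_lit 0, nat_lit 0, nat_lit 9025, nat_lit 0, nat_lit 3156, nat_lit 5743, nat_lit 543, nat_lit 0, nat_lit 0, nat_lit 841, nat_lit 0, nat_lit 0, nat_lit 0, nat_lit 0, nat_lit 0, nat_lit 0, nat_lit 0, nat_lit 0, [],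
 ⟨p124_k20, nat_lit 0, nat_lit 0, nat_lit 137, nat_lit 0, nat_lit 0, [nat_lit 938000000, nat_lit 3282000000, nat_lit 7968000000], [], [nat_lit 26501358777, nat_lit 26663823874, nat_lit 28570450104, nat_lit 28749398291, nat_lit 26700591617, nat_lit 26834721638, nat_lit 28576946248, nat_lit 28740898935], nat_lit 0, nat_lit 0, nat_lit 0, nat_lit 0, nat_lit 0, nat_lit 0, [], [nat_lit 54, nat_lit 40, nat_lit 40, nat_lit 80, nat_lit 43, nat_lit 249, nat_lit 40, nat_lit 7]⟩, ⟨p124_k7, nat_lit 0, nat_lit 0, nat_lit 406, nat_lit 0, nat_lit 548214, [nat_lit 3282000000, nat_lit 6250000000, nat_lit 14058000000], [], [nat_lit 31604159266, nat_lit 31828692804, nat_lit 32957341042, nat_lit 33201771773, nat_lit 33972210947, nat_lit 34149873676, nat_lit 35146922031, nat_lit 35392708709], nat_lit 1271250, nat_lit 1271250, nat_lit 1271250, nat_lit 1271250, nat_lit 1100001, nat_lit 2607000, [nat_lit 780000, nat_lit 1435000, nat_lit 1271250],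 [nat_lit 71, nat_lit 40, nat_lit 40, nat_lit 80, nat_lit 68, nat_lit 483, nat_lit 250, nat_lit 10]⟩,
 zbF0, [⟨nat_lit 7, nat_lit 87, nat_lit 100, nat_lit 99, nat_lit 293633315⟩]⟩
noncomputable def p124_l111 : Lf2 := ⟨nat_lit 0, nat_lit 30, [nat_lit 15, nat_lit 5, nat_lit 5, nat_lit 20], false, nat_lit 80, nat_lit 160, nat_lit 160, nat_lit 336, ⟨nat_lit 911, nat_lit 89, nat_lit 0, nat_lit 8, nat_lit 316, nat_lit 89, nat_lit 108, nat_lit 0, nat_lit 0, nat_lit 0, nat_lit 0, nat_lit 0, nat_lit 38203531, nat_lit 24375183, nat_lit 4421286, nat_lit 4592973, true, true⟩,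
 nat_lit 0, nat_lit 0, nat_lit 8166, nat_lit 0, nat_lit 2860, nat_lit 5196, nat_lit 521, nat_lit 0, nat_lit 0, nat_lit 762, nat_lit 0, nat_lit 0, nat_lit 0, nat_lit 0, nat_lit 0, nat_lit 35600, nat_lit 0, nat_lit 0, [(nat_lit 29, [(nat_lit 1, nat_lit 89)])],
 ⟨p124_k38, nat_lit 0, nat_lit 0, nat_lit 137, nat_lit 0, nat_lit 0, [nat_lit 916675601, nat_lit 3019450000, nat_lit 7263725200], [], [nat_lit 26198650817, nat_lit 26325197280, nat_lit 28008177030, nat_lit 28123842231, nat_lit 26520556522, nat_lit 26612339234, nat_lit 28160290934, nat_lit 28266415838], nat_lit 0, nat_lit 0, nat_lit 0, nat_lit 0, nat_lit 0, nat_lit 0, [], [nat_lit 54, nat_lit 40, nat_lit 40, nat_lit 80, nat_lit 43, nat_lit 249, nat_lit 40, nat_lit 7]⟩, ⟨p124_k7, nat_lit 0, nat_lit 0, nat_lit 416, nat_lit 0, nat_lit 578049, [nat_lit 2989902000, nat_lit 5693750000, nat_lit 12806838000], [], [nat_lit 28963570688, nat_lit 29167992818, nat_lit 29999979997,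 nat_lit 30225635912, nat_lit 31066401745, nat_lit 31233382923, nat_lit 31988148200, nat_lit 32174172922], nat_lit 1271250, nat_lit 1271250, nat_lit 1271250, nat_lit 1271250, nat_lit 1100001, nat_lit 2607000, [nat_lit 780000, nat_lit 1435000, nat_lit 1271250], [nat_lit 71, nat_lit 40, nat_lit 40, nat_lit 80, nat_lit 68, nat_lit 483, nat_lit 250, nat_lit 10]⟩,
 ⟨nat_lit 1936, nat_lit 2062, ⟨.ofNat (nat_lit 760692), .ofNat (nat_lit 811408), .ofNat (nat_lit 772147), .ofNat (nat_lit 822863), .ofNat (nat_lit 759709), .ofNat (nat_lit 810010), .ofNat (nat_lit 771215), .ofNat (nat_lit 821515)⟩, ⟨.ofNat (nat_lit 200000), .ofNat (nat_lit 329098), .ofNat (nat_lit 200000), .ofNat (nat_lit 352008), .ofNat (nat_lit 200000), .ofNat (nat_lit 329055), .ofNat (nat_lit 200000), .ofNat (nat_lit 352066)⟩⟩, [⟨nat_lit 7, nat_lit 87, nat_lit 100, nat_lit 99, nat_lit 265993234⟩]⟩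
noncomputable def p124_l112 : Lf2 := ⟨nat_lit 0, nat_lit 25, [nat_lit 44, nat_lit 5, nat_lit 5, nat_lit 20], false, nat_lit 80, nat_lit 160, nat_lit 160, nat_lit 336, ⟨nat_lit 411, nat_lit 589, nat_lit 0, nat_lit 8, nat_lit 312, nat_lit 589, nat_lit 108, nat_lit 0, nat_lit 0, nat_lit 0, nat_lit 0, nat_lit 0, nat_lit 38565013, nat_lit 23986113, nat_lit 4448874, nat_lit 4584372, true, true⟩,
 nat_lit 0, nat_lit 0, nat_lit 3619, nat_lit 0, nat_lit 2941, nat_lit 2302, nat_lit 232, nat_lit 0, nat_lit 0, nat_lit 310, nat_lit 0, nat_lit 0, nat_lit 0, nat_lit 0, nat_lit 0, nat_lit 147250, nat_lit 0, nat_lit 0, [(nat_lit 29, [(nat_lit 0, nat_lit 589)])],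
 ⟨p124_k15, nat_lit 0, nat_lit 0, nat_lit 119, nat_lit 0, nat_lit 0, [nat_lit 845880400, nat_lit 1964996001, nat_lit 3620939600], [], [nat_lit 26640177740, nat_lit 26903251617, nat_lit 27867198349, nat_lit 28165897569, nat_lit 26975125678, nat_lit 27206574744, nat_lit 28049079930, nat_lit 28276483872], nat_lit 0, nat_lit 0, nat_lit 0, nat_lit 0, nat_lit 0, nat_lit 0, [], [nat_lit 20, nat_lit 40, nat_lit 40, nat_lit 80, nat_lit 16, nat_lit 249, nat_lit 40, nat_lit 8]⟩, ⟨p124_k1, nat_lit 0, nat_lit 0, nat_lit 380, nat_lit 0, nat_lit 603655, [nat_lit 1348902000, nat_lit 2568750000, nat_lit 4879392000], [], [nat_lit 13278722992, nat_lit 13326725258, nat_lit 13634537248, nat_lit 13678278447, nat_lit 14174041865, nat_lit 14207922528, nat_lit 14479695646, nat_lit 14521939311], nat_lit 1271250, nat_lit 1271250, nat_lit 1271250, nat_lit 1271250, nat_lit 1100001, nat_lit 2607000, [nat_lit 780000, nat_lit 1435000, nat_lit 1271250],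 [nat_lit 23, nat_lit 40, nat_lit 40, nat_lit 80, nat_lit 12, nat_lit 401, nat_lit 175, nat_lit 9]⟩,
 ⟨nat_lit 1581, nat_lit 1937, ⟨.ofNat (nat_lit 759709), .ofNat (nat_lit 798832), .ofNat (nat_lit 765462), .ofNat (nat_lit 804584), .ofNat (nat_lit 757166), .ofNat (nat_lit 795411), .ofNat (nat_lit 762995), .ofNat (nat_lit 801240)⟩, ⟨.ofNat (nat_lit 200000), .ofNat (nat_lit 329055), .ofNat (nat_lit 200000), .ofNat (nat_lit 352066), .ofNat (nat_lit 200000), .ofNat (nat_lit 328788), .ofNat (nat_lit 200000), .ofNat (nat_lit 352103)⟩⟩, [⟨nat_lit 13, nat_lit 34, nat_lit 81, nat_lit 100, nat_lit 254246142⟩, ⟨nat_lit 16, nat_lit 35, nat_lit 100, nat_lit 90, nat_lit 149746129⟩, ⟨nat_lit 19, nat_lit 100, nat_lit 85, nat_lit 98, nat_lit 119921928⟩]⟩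
noncomputable def p124_l113 : Lf2 := ⟨nat_lit 0, nat_lit 25, [nat_lit 44, nat_lit 5, nat_lit 5, nat_lit 20], false, nat_lit 80, nat_lit 160, nat_lit 160, nat_lit 332, ⟨nat_lit 1000, nat_lit 0, nat_lit 0, nat_lit 0, nat_lit 0, nat_lit 0, nat_lit 0, nat_lit 0, nat_lit 0, nat_lit 0, nat_lit 0, nat_lit 0, nat_lit 0, nat_lit 0, nat_lit 0, nat_lit 0, false, false⟩,
 nat_lit 0, nat_lit 0, nat_lit 8829, nat_lit 0, nat_lit 3146, nat_lit 5740, nat_lit 443, nat_lit 0, nat_lit 0, nat_lit 789, nat_lit 0, nat_lit 0, nat_lit 0, nat_lit 0, nat_lit 0, nat_lit 0, nat_lit 0, nat_lit 0, [],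
 ⟨p124_k15, nat_lit 0, nat_lit 0, nat_lit 120, nat_lit 0, nat_lit 0, [nat_lit 938000000, nat_lit 3282000000, nat_lit 6250000000], [], [nat_lit 26780172658, nat_lit 27110332884, nat_lit 28436262322, nat_lit 28740564745, nat_lit 26996710668, nat_lit 27237099174, nat_lit 28456532803, nat_lit 28735089526], nat_lit 0, nat_lit 0, nat_lit 0, nat_lit 0, nat_lit 0, nat_lit 0, [], [nat_lit 20, nat_lit 40, nat_lit 40, nat_lit 80, nat_lit 16, nat_lit 249, nat_lit 40, nat_lit 8]⟩, ⟨p124_k4, nat_lit 0, nat_lit 0, nat_lit 383, nat_lit 0, nat_lit 612920, [nat_lit 3282000000, nat_lit 6250000000, nat_lit 11872000000], [], [nat_lit 30771950210, nat_lit 30899193740, nat_lit 31805661482, nat_lit 31920919325, nat_lit 33183304454, nat_lit 33287610618, nat_lit 34110604156, nat_lit 34224873566], nat_lit 1271250, nat_lit 1271250, nat_lit 1271250, nat_lit 1271250, nat_lit 1100001, nat_lit 2572750, [nat_lit 780000, nat_lit 1435000, nat_lit 1271250],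 [nat_lit 23, nat_lit 40, nat_lit 40, nat_lit 80, nat_lit 12, nat_lit 401, nat_lit 175, nat_lit 9]⟩,
 zbF0, [⟨nat_lit 4, nat_lit 100, nat_lit 35, nat_lit 90, nat_lit 525810413⟩, ⟨nat_lit 19, nat_lit 100, nat_lit 88, nat_lit 99, nat_lit 299865056⟩]⟩
noncomputable def p124_l114 : Lf2 := ⟨nat_lit 0, nat_lit 30, [nat_lit 15, nat_lit 5, nat_lit 5, nat_lit 20], false, nat_lit 80, nat_lit 160, nat_lit 160, nat_lit 336, ⟨nat_lit 1000, nat_lit 0, nat_lit 0, nat_lit 0, nat_lit 0, nat_lit 0, nat_lit 0, nat_lit 0, nat_lit 0, nat_lit 0, nat_lit 0, nat_lit 0, nat_lit 0, nat_lit 0, nat_lit 0, nat_lit 0, false, false⟩,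
 nat_lit 0, nat_lit 0, nat_lit 10929, nat_lit 0, nat_lit 3151, nat_lit 6954, nat_lit 427, nat_lit 0, nat_lit 0, nat_lit 852, nat_lit 0, nat_lit 0, nat_lit 0, nat_lit 0, nat_lit 0, nat_lit 0, nat_lit 0, nat_lit 0, [],
 ⟨p124_k22, nat_lit 0, nat_lit 0, nat_lit 119, nat_lit 0, nat_lit 0, [nat_lit 938000000, nat_lit 3282000000, nat_lit 6250000000], [], [nat_lit 26938717135, nat_lit 27101100926, nat_lit 28445218083, nat_lit 28627926637, nat_lit 27185019458, nat_lit 27327621774, nat_lit 28463071194, nat_lit 28630316386], nat_lit 0, nat_lit 0, nat_lit 0, nat_lit 0, nat_lit 0, nat_lit 0, [], [nat_lit 20, nat_lit 40, nat_lit 40, nat_lit 80, nat_lit 16, nat_lit 249, nat_lit 40, nat_lit 8]⟩, ⟨p124_k7, nat_lit 0, nat_lit 0, nat_lit 368, nat_lit 0, nat_lit 430271, [nat_lit 3282000000, nat_lit 6250000000, nat_lit 14058000000], [], [nat_lit 29402734096, nat_lit 29693399878, nat_lit 30650948240, nat_lit 30909195811, nat_lit 31648738351,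 nat_lit 31827134147, nat_lit 32784937297, nat_lit 33044957126], nat_lit 1271250, nat_lit 1271250, nat_lit 1271250, nat_lit 1271250, nat_lit 1100001, nat_lit 2607000, [nat_lit 780000, nat_lit 1435000, nat_lit 1271250], [nat_lit 71, nat_lit 40, nat_lit 40, nat_lit 80, nat_lit 68, nat_lit 483, nat_lit 250, nat_lit 10]⟩,
 zbF0, [⟨nat_lit 19, nat_lit 100, nat_lit 87, nat_lit 99, nat_lit 291773050⟩]⟩
noncomputable def p124_l115 : Lf2 := ⟨nat_lit 0, nat_lit 30, [nat_lit 15, nat_lit 5, nat_lit 5, nat_lit 20], false, nat_lit 80, nat_lit 160, nat_lit 160, nat_lit 336, ⟨nat_lit 1000, nat_lit 0, nat_lit 0, nat_lit 0, nat_lit 0, nat_lit 0, nat_lit 0, nat_lit 0, nat_lit 0, nat_lit 0, nat_lit 0, nat_lit 0, nat_lit 0, nat_lit 0, nat_lit 0, nat_lit 0, false, false⟩,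
 nat_lit 0, nat_lit 0, nat_lit 8901, nat_lit 0, nat_lit 3146, nat_lit 5664, nat_lit 416, nat_lit 0, nat_lit 0, nat_lit 855, nat_lit 0, nat_lit 0, nat_lit 0, nat_lit 0, nat_lit 0, nat_lit 0, nat_lit 0, nat_lit 0, [],
 ⟨p124_k25, nat_lit 0, nat_lit 0, nat_lit 119, nat_lit 0, nat_lit 0, [nat_lit 938000000, nat_lit 3282000000, nat_lit 6250000000], [], [nat_lit 26998261796, nat_lit 27110332884, nat_lit 28413771903, nat_lit 28536785763, nat_lit 27231299106, nat_lit 27326308064, nat_lit 28435286043, nat_lit 28547840732], nat_lit 0, nat_lit 0, nat_lit 0, nat_lit 0, nat_lit 0, nat_lit 0, [], [nat_lit 20, nat_lit 40, nat_lit 40, nat_lit 80, nat_lit 16, nat_lit 249, nat_lit 40, nat_lit 8]⟩, ⟨p124_k7, nat_lit 0, nat_lit 0, nat_lit 377, nat_lit 0, nat_lit 459417, [nat_lit 3282000000, nat_lit 6250000000, nat_lit 14058000000], [], [nat_lit 31452482386, nat_lit 31730915098, nat_lit 32465278003, nat_lit 32719648478, nat_lit 33935674297,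 nat_lit 34113648270, nat_lit 34846136382, nat_lit 35101823784], nat_lit 1271250, nat_lit 1271250, nat_lit 1271250, nat_lit 1271250, nat_lit 1100001, nat_lit 2607000, [nat_lit 780000, nat_lit 1435000, nat_lit 1271250], [nat_lit 71, nat_lit 40, nat_lit 40, nat_lit 80, nat_lit 68, nat_lit 483, nat_lit 250, nat_lit 10]⟩,
 zbF0, [⟨nat_lit 4, nat_lit 100, nat_lit 33, nat_lit 90, nat_lit 561156906⟩, ⟨nat_lit 19, nat_lit 100, nat_lit 87, nat_lit 99, nat_lit 299080890⟩]⟩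
noncomputable def p124_l116 : Lf2 := ⟨nat_lit 0, nat_lit 25, [nat_lit 44, nat_lit 5, nat_lit 5, nat_lit 20], false, nat_lit 80, nat_lit 160, nat_lit 160, nat_lit 328, ⟨nat_lit 913, nat_lit 87, nat_lit 0, nat_lit 8, nat_lit 324, nat_lit 87, nat_lit 108, nat_lit 0, nat_lit 0, nat_lit 0, nat_lit 0, nat_lit 0, nat_lit 37550137, nat_lit 25081702, nat_lit 4368161, nat_lit 4606027, true, true⟩,
 nat_lit 0, nat_lit 0, nat_lit 9211, nat_lit 0, nat_lit 3100, nat_lit 6117, nat_lit 419, nat_lit 0, nat_lit 0, nat_lit 683, nat_lit 0, nat_lit 0, nat_lit 0, nat_lit 0, nat_lit 0, nat_lit 34800, nat_lit 0, nat_lit 0, [(nat_lit 29, [(nat_lit 1, nat_lit 87)])],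
 ⟨p124_k13, nat_lit 0, nat_lit 0, nat_lit 124, nat_lit 0, nat_lit 0, [nat_lit 917154800, nat_lit 3025350000, nat_lit 5714428000], [], [nat_lit 26601530575, nat_lit 27139135075, nat_lit 28918035600, nat_lit 29497385560, nat_lit 26940701950, nat_lit 27379599550, nat_lit 28915219960, nat_lit 29446685300], nat_lit 0, nat_lit 0, nat_lit 0, nat_lit 0, nat_lit 0, nat_lit 0, [], [nat_lit 20, nat_lit 40, nat_lit 40, nat_lit 80, nat_lit 16, nat_lit 249, nat_lit 40, nat_lit 8]⟩, ⟨p124_k5, nat_lit 0, nat_lit 0, nat_lit 398, nat_lit 0, nat_lit 651711, [nat_lit 2996466000, nat_lit 5706250000, nat_lit 10839136000], [], [nat_lit 27313207685, nat_lit 27545605807, nat_lit 28793015383, nat_lit 28987983831, nat_lit 28889257453, nat_lit 29036705753, nat_lit 30175325257, nat_lit 30348581283], nat_lit 1271250, nat_lit 1271250, nat_lit 1271250, nat_lit 1271250, nat_lit 1100001, nat_lit 2538500, [nat_lit 780000, nat_lit 1435000, nat_lit 1271250],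 [nat_lit 23, nat_lit 40, nat_lit 40, nat_lit 80, nat_lit 12, nat_lit 401, nat_lit 175, nat_lit 9]⟩,
 ⟨nat_lit 1581, nat_lit 2237, ⟨.ofNat (nat_lit 773529), .ofNat (nat_lit 841948), .ofNat (nat_lit 784917), .ofNat (nat_lit 853335), .ofNat (nat_lit 768823), .ofNat (nat_lit 834386), .ofNat (nat_lit 780481), .ofNat (nat_lit 846044)⟩, ⟨.ofNat (nat_lit 200000), .ofNat (nat_lit 329112), .ofNat (nat_lit 200000), .ofNat (nat_lit 351886), .ofNat (nat_lit 200000), .ofNat (nat_lit 328788), .ofNat (nat_lit 200000), .ofNat (nat_lit 352103)⟩⟩, [⟨nat_lit 19, nat_lit 99, nat_lit 92, nat_lit 100, nat_lit 249637786⟩]⟩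
noncomputable def p124_l117 : Lf2 := ⟨nat_lit 0, nat_lit 30, [nat_lit 15, nat_lit 5, nat_lit 5, nat_lit 20], false, nat_lit 80, nat_lit 160, nat_lit 160, nat_lit 328, ⟨nat_lit 1000, nat_lit 0, nat_lit 0, nat_lit 0, nat_lit 0, nat_lit 0, nat_lit 0, nat_lit 0, nat_lit 0, nat_lit 0, nat_lit 0, nat_lit 0, nat_lit 0, nat_lit 0, nat_lit 0, nat_lit 0, false, false⟩,
 nat_lit 0, nat_lit 0, nat_lit 8244, nat_lit 0, nat_lit 3142, nat_lit 5475, nat_lit 531, nat_lit 0, nat_lit 0, nat_lit 861, nat_lit 0, nat_lit 0, nat_lit 0, nat_lit 0, nat_lit 0, nat_lit 0, nat_lit 0, nat_lit 0, [],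
 ⟨p124_k20, nat_lit 0, nat_lit 0, nat_lit 141, nat_lit 0, nat_lit 0, [nat_lit 938000000, nat_lit 3282000000, nat_lit 7968000000], [], [nat_lit 26675291789, nat_lit 27182023781, nat_lit 28996156104, nat_lit 29578820688, nat_lit 26892705169, nat_lit 27339061795, nat_lit 28972653264, nat_lit 29507017923], nat_lit 0, nat_lit 0, nat_lit 0, nat_lit 0, nat_lit 0, nat_lit 0, [], [nat_lit 54, nat_lit 40, nat_lit 40, nat_lit 80, nat_lit 43, nat_lit 249, nat_lit 40, nat_lit 7]⟩, ⟨p124_k10, nat_lit 0, nat_lit 0, nat_lit 387, nat_lit 0, nat_lit 488493, [nat_lit 3282000000, nat_lit 6250000000, nat_lit 14058000000], [], [nat_lit 30670315375, nat_lit 30919811575, nat_lit 32281965425, nat_lit 32518329796, nat_lit 32776879815, nat_lit 32966165900, nat_lit 34284517134, nat_lit 34504557094], nat_lit 1271250, nat_lit 1271250, nat_lit 1271250, nat_lit 1271250, nat_lit 1100001, nat_lit 2538500, [nat_lit 780000, nat_lit 1435000, nat_lit 1271250],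 [nat_lit 71, nat_lit 40, nat_lit 40, nat_lit 80, nat_lit 68, nat_lit 483, nat_lit 250, nat_lit 10]⟩,
 zbF0, [⟨nat_lit 19, nat_lit 99, nat_lit 92, nat_lit 100, nat_lit 288280182⟩]⟩
noncomputable def p124_l118 : Lf2 := ⟨nat_lit 0, nat_lit 25, [nat_lit 44, nat_lit 5, nat_lit 5, nat_lit 20], false, nat_lit 80, nat_lit 160, nat_lit 160, nat_lit 336, ⟨nat_lit 203, nat_lit 797, nat_lit 0, nat_lit 8, nat_lit 310, nat_lit 797, nat_lit 108, nat_lit 0, nat_lit 0, nat_lit 0, nat_lit 0, nat_lit 0, nat_lit 38762350, nat_lit 23792842, nat_lit 4444808, nat_lit 4576335, true, true⟩,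
 nat_lit 0, nat_lit 0, nat_lit 2323, nat_lit 0, nat_lit 2964, nat_lit 1478, nat_lit 65, nat_lit 0, nat_lit 0, nat_lit 144, nat_lit 0, nat_lit 0, nat_lit 0, nat_lit 0, nat_lit 0, nat_lit 199250, nat_lit 0, nat_lit 0, [(nat_lit 29, [(nat_lit 0, nat_lit 797)])],
 ⟨p124_k14, nat_lit 0, nat_lit 0, nat_lit 108, nat_lit 0, nat_lit 0, [nat_lit 813349200, nat_lit 1499908001, nat_lit 2048654800], [], [nat_lit 26886859807, nat_lit 27454789424, nat_lit 28008154507, nat_lit 28613733153, nat_lit 27222359439, nat_lit 27733074379, nat_lit 28192759227, nat_lit 28677990311], nat_lit 0, nat_lit 0, nat_lit 0, nat_lit 0, nat_lit 0, nat_lit 0, [], [nat_lit 35, nat_lit 40, nat_lit 40, nat_lit 80, nat_lit 22, nat_lit 249, nat_lit 40, nat_lit 9]⟩, ⟨p124_k1, nat_lit 0, nat_lit 0, nat_lit 485, nat_lit 0, nat_lit 785386, [nat_lit 666246000, nat_lit 1268750000, nat_lit 2410016000], [], [nat_lit 6273063528, nat_lit 6309226721, nat_lit 6398791186,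 nat_lit 6431418068, nat_lit 6548549465, nat_lit 6578986920, nat_lit 6658533481, nat_lit 6696649756], nat_lit 1271250, nat_lit 1271250, nat_lit 1271250, nat_lit 1271250, nat_lit 1100001, nat_lit 2607000, [nat_lit 780000, nat_lit 1435000, nat_lit 1271250], [nat_lit 23, nat_lit 40, nat_lit 40, nat_lit 80, nat_lit 12, nat_lit 401, nat_lit 175, nat_lit 9]⟩,
 ⟨nat_lit 0, nat_lit 1582, ⟨.ofNat (nat_lit 757165), .ofNat (nat_lit 789945), .ofNat (nat_lit 768823), .ofNat (nat_lit 801603), .ofNat (nat_lit 749998), .ofNat (nat_lit 779997), .ofNat (nat_lit 762499), .ofNat (nat_lit 792497)⟩, ⟨.ofNat (nat_lit 200000), .ofNat (nat_lit 328785), .ofNat (nat_lit 200000), .ofNat (nat_lit 352101), .ofNat (nat_lit 200000), .ofNat (nat_lit 324996), .ofNat (nat_lit 200000), .ofNat (nat_lit 349997)⟩⟩, [⟨nat_lit 13, nat_lit 25, nat_lit 87, nat_lit 100, nat_lit 571646612⟩, ⟨nat_lit 13, nat_lit 35, nat_lit 79, nat_lit 100, nat_lit 23342548⟩, ⟨nat_lit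 16, nat_lit 31, nat_lit 100, nat_lit 92, nat_lit 25891647⟩, ⟨nat_lit 7, nat_lit 87, nat_lit 100, nat_lit 99, nat_lit 54586316⟩]⟩
noncomputable def p124_l119 : Lf2 := ⟨nat_lit 0, nat_lit 30, [nat_lit 15, nat_lit 5, nat_lit 5, nat_lit 20], false, nat_lit 80, nat_lit 120, nat_lit 160, nat_lit 300, ⟨nat_lit 1000, nat_lit 0, nat_lit 0, nat_lit 0, nat_lit 0, nat_lit 0, nat_lit 0, nat_lit 0, nat_lit 0, nat_lit 0, nat_lit 0, nat_lit 0, nat_lit 0, nat_lit 0, nat_lit 0, nat_lit 0, false, false⟩,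
 nat_lit 0, nat_lit 0, nat_lit 9450, nat_lit 0, nat_lit 3071, nat_lit 6013, nat_lit 402, nat_lit 0, nat_lit 0, nat_lit 892, nat_lit 0, nat_lit 0, nat_lit 0, nat_lit 0, nat_lit 0, nat_lit 0, nat_lit 0, nat_lit 0, [],
 ⟨p124_k21, nat_lit 0, nat_lit 0, nat_lit 121, nat_lit 0, nat_lit 0, [nat_lit 938000000, nat_lit 3282000000, nat_lit 6250000000], [], [nat_lit 27050734077, nat_lit 27640489636, nat_lit 27997183210, nat_lit 28618496546, nat_lit 27196546947, nat_lit 27692713230, nat_lit 28037202652, nat_lit 28631983369], nat_lit 0, nat_lit 0, nat_lit 0, nat_lit 0, nat_lit 0, nat_lit 0, [], [nat_lit 20, nat_lit 40, nat_lit 40, nat_lit 80, nat_lit 16, nat_lit 238, nat_lit 30, nat_lit 7]⟩, ⟨p124_k7, nat_lit 0, nat_lit 0, nat_lit 417, nat_lit 0, nat_lit 582791, [nat_lit 3282000000, nat_lit 6250000000, nat_lit 14058000000], [], [nat_lit 30414658212, nat_lit 30555529352, nat_lit 31153425692, nat_lit 31285287342, nat_lit 32010374002,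 nat_lit 32110401755, nat_lit 32760940414, nat_lit 32909202096], nat_lit 1271250, nat_lit 1271250, nat_lit 1271250, nat_lit 1271250, nat_lit 1100001, nat_lit 2298750, [nat_lit 780000, nat_lit 1435000, nat_lit 1271250], [nat_lit 71, nat_lit 40, nat_lit 40, nat_lit 80, nat_lit 68, nat_lit 483, nat_lit 250, nat_lit 10]⟩,
 zbF0, [⟨nat_lit 13, nat_lit 24, nat_lit 87, nat_lit 100, nat_lit 2054245012⟩, ⟨nat_lit 22, nat_lit 87, nat_lit 95, nat_lit 100, nat_lit 316264263⟩]⟩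
noncomputable def p124_l120 : Lf2 := ⟨nat_lit 0, nat_lit 30, [nat_lit 15, nat_lit 5, nat_lit 5, nat_lit 20], false, nat_lit 120, nat_lit 160, nat_lit 160, nat_lit 240, ⟨nat_lit 1000, nat_lit 0, nat_lit 0, nat_lit 0, nat_lit 0, nat_lit 0, nat_lit 0, nat_lit 0, nat_lit 0, nat_lit 0, nat_lit 0, nat_lit 0, nat_lit 0, nat_lit 0, nat_lit 0, nat_lit 0, false, false⟩,
 nat_lit 0, nat_lit 0, nat_lit 9832, nat_lit 0, nat_lit 2972, nat_lit 6256, nat_lit 412, nat_lit 0, nat_lit 0, nat_lit 952, nat_lit 0, nat_lit 0, nat_lit 0, nat_lit 0, nat_lit 0, nat_lit 0, nat_lit 0, nat_lit 0, [],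
 ⟨p124_k21, nat_lit 0, nat_lit 0, nat_lit 108, nat_lit 0, nat_lit 0, [nat_lit 938000000, nat_lit 3282000000, nat_lit 6250000000], [], [nat_lit 27053590694, nat_lit 27549914596, nat_lit 27695044641, nat_lit 28287378959, nat_lit 27222976616, nat_lit 27697413772, nat_lit 27826737573, nat_lit 28332724269], nat_lit 0, nat_lit 0, nat_lit 0, nat_lit 0, nat_lit 0, nat_lit 0, [], [nat_lit 20, nat_lit 40, nat_lit 40, nat_lit 80, nat_lit 16, nat_lit 249, nat_lit 40, nat_lit 7]⟩, ⟨p124_k7, nat_lit 0, nat_lit 0, nat_lit 413, nat_lit 0, nat_lit 572613, [nat_lit 3282000000, nat_lit 6250000000, nat_lit 14058000000], [], [nat_lit 29254444944, nat_lit 29339658939, nat_lit 29854004752, nat_lit 29934755215, nat_lit 29691623248, nat_lit 29765073298, nat_lit 30413761837, nat_lit 30520754555], nat_lit 1271250, nat_lit 1271250, nat_lit 1271250, nat_lit 1271250, nat_lit 1100001, nat_lit 1785000, [nat_lit 780000, nat_lit 1435000, nat_lit 1271250],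 [nat_lit 71, nat_lit 40, nat_lit 40, nat_lit 80, nat_lit 68, nat_lit 456, nat_lit 225, nat_lit 10]⟩,
 zbF0, [⟨nat_lit 13, nat_lit 24, nat_lit 88, nat_lit 100, nat_lit 1155702754⟩, ⟨nat_lit 4, nat_lit 100, nat_lit 23, nat_lit 92, nat_lit 917680560⟩]⟩
noncomputable def p124_l121 : Lf2 := ⟨nat_lit 0, nat_lit 30, [nat_lit 15, nat_lit 5, nat_lit 5, nat_lit 20], false, nat_lit 120, nat_lit 160, nat_lit 240, nat_lit 336, ⟨nat_lit 375, nat_lit 625, nat_lit 0, nat_lit 8, nat_lit 306, nat_lit 625, nat_lit 125, nat_lit 0, nat_lit 0, nat_lit 0, nat_lit 0, nat_lit 0, nat_lit 38352242, nat_lit 23103442, nat_lit 5544316, nat_lit 4752029, true, true⟩,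
 nat_lit 0, nat_lit 0, nat_lit 4115, nat_lit 0, nat_lit 2815, nat_lit 2618, nat_lit 212, nat_lit 0, nat_lit 0, nat_lit 319, nat_lit 0, nat_lit 0, nat_lit 0, nat_lit 0, nat_lit 0, nat_lit 156250, nat_lit 0, nat_lit 0, [(nat_lit 29, [(nat_lit 0, nat_lit 625)])],
 ⟨p124_k21, nat_lit 0, nat_lit 0, nat_lit 108, nat_lit 0, nat_lit 0, [nat_lit 840250001, nat_lit 1884500000, nat_lit 3460250000], [], [nat_lit 26901823073, nat_lit 27397305250, nat_lit 27531590152, nat_lit 28038795018, nat_lit 27087800196, nat_lit 27552672441, nat_lit 27682521830, nat_lit 28140699236], nat_lit 0, nat_lit 0, nat_lit 0, nat_lit 0, nat_lit 0, nat_lit 0, [], [nat_lit 20, nat_lit 40, nat_lit 40, nat_lit 80, nat_lit 16, nat_lit 249, nat_lit 40, nat_lit 7]⟩, ⟨p124_k7, nat_lit 0, nat_lit 0, nat_lit 393, nat_lit 0, nat_lit 572613, [nat_lit 1230750000, nat_lit 2343750000, nat_lit 5271750000], [], [nat_lit 11131998794, nat_lit 11159188814, nat_lit 11331939767,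 nat_lit 11357532117, nat_lit 11856191447, nat_lit 11875629641, nat_lit 12043956526, nat_lit 12073143215], nat_lit 1271250, nat_lit 1271250, nat_lit 1271250, nat_lit 1271250, nat_lit 1271250, nat_lit 1271250, [nat_lit 780000, nat_lit 1435000, nat_lit 1271250], [nat_lit 71, nat_lit 40, nat_lit 40, nat_lit 80, nat_lit 68, nat_lit 483, nat_lit 250, nat_lit 10]⟩,
 ⟨nat_lit 0, nat_lit 1582, ⟨.ofNat (nat_lit 757165), .ofNat (nat_lit 779018), .ofNat (nat_lit 760662), .ofNat (nat_lit 782516), .ofNat (nat_lit 749998), .ofNat (nat_lit 769997), .ofNat (nat_lit 753748), .ofNat (nat_lit 773746)⟩, ⟨.ofNat (nat_lit 274152), .ofNat (nat_lit 328785), .ofNat (nat_lit 297467), .ofNat (nat_lit 352101), .ofNat (nat_lit 274999), .ofNat (nat_lit 324996), .ofNat (nat_lit 299999), .ofNat (nat_lit 349997)⟩⟩, [⟨nat_lit 4, nat_lit 100, nat_lit 23, nat_lit 92, nat_lit 901006423⟩, ⟨nat_lit 7, nat_lit 85, nat_lit 100, nat_lit 98, nat_lit 21389894⟩,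 ⟨nat_lit 22, nat_lit 81, nat_lit 88, nat_lit 100, nat_lit 134949858⟩]⟩
noncomputable def p124_l122 : Lf2 := ⟨nat_lit 0, nat_lit 30, [nat_lit 15, nat_lit 5, nat_lit 5, nat_lit 20], false, nat_lit 120, nat_lit 160, nat_lit 160, nat_lit 336, ⟨nat_lit 572, nat_lit 428, nat_lit 0, nat_lit 8, nat_lit 309, nat_lit 428, nat_lit 125, nat_lit 0, nat_lit 0, nat_lit 0, nat_lit 0, nat_lit 0, nat_lit 38164292, nat_lit 23309952, nat_lit 5525756, nat_lit 4756919, true, true⟩,
 nat_lit 0, nat_lit 0, nat_lit 5203, nat_lit 0, nat_lit 2850, nat_lit 3353, nat_lit 282, nat_lit 0, nat_lit 0, nat_lit 493, nat_lit 0, nat_lit 0, nat_lit 0, nat_lit 0, nat_lit 0, nat_lit 107000, nat_lit 0, nat_lit 0, [(nat_lit 29, [(nat_lit 0, nat_lit 428)])],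
 ⟨p124_k21, nat_lit 0, nat_lit 0, nat_lit 109, nat_lit 0, nat_lit 0, [nat_lit 871060800, nat_lit 2324992000, nat_lit 4339579200], [], [nat_lit 26854992325, nat_lit 27361626500, nat_lit 27701038613, nat_lit 28277358150, nat_lit 27048026300, nat_lit 27515030850, nat_lit 27793985400, nat_lit 28345009200], nat_lit 0, nat_lit 0, nat_lit 0, nat_lit 0, nat_lit 0, nat_lit 0, [], [nat_lit 20, nat_lit 40, nat_lit 40, nat_lit 80, nat_lit 16, nat_lit 249, nat_lit 40, nat_lit 7]⟩, ⟨p124_k39, nat_lit 0, nat_lit 0, nat_lit 413, nat_lit 0, nat_lit 571774, [nat_lit 1877304000, nat_lit 3575000000, nat_lit 8041176000], [], [nat_lit 17572707325, nat_lit 17604774707, nat_lit 17988452333, nat_lit 18018499539, nat_lit 18954586366, nat_lit 18974857398, nat_lit 19356207041, nat_lit 19386411951], nat_lit 1271250, nat_lit 1271250, nat_lit 1271250, nat_lit 1271250, nat_lit 1100001, nat_lit 2607000, [nat_lit 780000, nat_lit 1435000, nat_lit 1271250],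 [nat_lit 71, nat_lit 40, nat_lit 40, nat_lit 80, nat_lit 68, nat_lit 483, nat_lit 250, nat_lit 10]⟩,
 ⟨nat_lit 0, nat_lit 1582, ⟨.ofNat (nat_lit 760662), .ofNat (nat_lit 787979), .ofNat (nat_lit 762994), .ofNat (nat_lit 790311), .ofNat (nat_lit 753748), .ofNat (nat_lit 778747), .ofNat (nat_lit 756248), .ofNat (nat_lit 781247)⟩, ⟨.ofNat (nat_lit 274152), .ofNat (nat_lit 328785), .ofNat (nat_lit 297467), .ofNat (nat_lit 352101), .ofNat (nat_lit 274999), .ofNat (nat_lit 324996), .ofNat (nat_lit 299999), .ofNat (nat_lit 349997)⟩⟩, [⟨nat_lit 13, nat_lit 24, nat_lit 87, nat_lit 100, nat_lit 514747302⟩, ⟨nat_lit 16, nat_lit 23, nat_lit 100, nat_lit 92, nat_lit 606721675⟩, ⟨nat_lit 7, nat_lit 86, nat_lit 100, nat_lit 98, nat_lit 172991262⟩]⟩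
noncomputable def p124_l123 : Lf2 := ⟨nat_lit 0, nat_lit 30, [nat_lit 15, nat_lit 5, nat_lit 5, nat_lit 20], false, nat_lit 80, nat_lit 160, nat_lit 160, nat_lit 332, ⟨nat_lit 1000, nat_lit 0, nat_lit 0, nat_lit 0, nat_lit 0, nat_lit 0, nat_lit 0, nat_lit 0, nat_lit 0, nat_lit 0, nat_lit 0, nat_lit 0, nat_lit 0, nat_lit 0, nat_lit 0, nat_lit 0, false, false⟩,
 nat_lit 0, nat_lit 0, nat_lit 8461, nat_lit 0, nat_lit 3136, nat_lit 5501, nat_lit 403, nat_lit 0, nat_lit 0, nat_lit 856, nat_lit 0, nat_lit 0, nat_lit 0, nat_lit 0, nat_lit 0, nat_lit 0, nat_lit 0, nat_lit 0, [],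
 ⟨p124_k21, nat_lit 0, nat_lit 0, nat_lit 120, nat_lit 0, nat_lit 0, [nat_lit 938000000, nat_lit 3282000000, nat_lit 6250000000], [], [nat_lit 27093942344, nat_lit 27423620260, nat_lit 28315157754, nat_lit 28625486301, nat_lit 27283241099, nat_lit 27526110084, nat_lit 28347565408, nat_lit 28631398829], nat_lit 0, nat_lit 0, nat_lit 0, nat_lit 0, nat_lit 0, nat_lit 0, [], [nat_lit 20, nat_lit 40, nat_lit 40, nat_lit 80, nat_lit 16, nat_lit 249, nat_lit 40, nat_lit 8]⟩, ⟨p124_k26, nat_lit 0, nat_lit 0, nat_lit 395, nat_lit 0, nat_lit 517069, [nat_lit 3282000000, nat_lit 6250000000, nat_lit 14058000000], [], [nat_lit 31245419864, nat_lit 31370252100, nat_lit 32011897341, nat_lit 32134985600, nat_lit 33511925185, nat_lit 33602499867, nat_lit 34244692218, nat_lit 34362396382], nat_lit 1271250, nat_lit 1271250, nat_lit 1271250, nat_lit 1271250, nat_lit 1100001, nat_lit 2572750, [nat_lit 780000, nat_lit 1435000, nat_lit 1271250],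 [nat_lit 71, nat_lit 40, nat_lit 40, nat_lit 80, nat_lit 68, nat_lit 483, nat_lit 250, nat_lit 10]⟩,
 zbF0, [⟨nat_lit 4, nat_lit 100, nat_lit 28, nat_lit 91, nat_lit 657208150⟩, ⟨nat_lit 19, nat_lit 100, nat_lit 88, nat_lit 99, nat_lit 295280176⟩]⟩
noncomputable def p124_l124 : Lf2 := ⟨nat_lit 0, nat_lit 30, [nat_lit 15, nat_lit 5, nat_lit 5, nat_lit 20], false, nat_lit 80, nat_lit 160, nat_lit 160, nat_lit 332, ⟨nat_lit 1000, nat_lit 0, nat_lit 0, nat_lit 0, nat_lit 0, nat_lit 0, nat_lit 0, nat_lit 0, nat_lit 0, nat_lit 0, nat_lit 0, nat_lit 0, nat_lit 0, nat_lit 0, nat_lit 0, nat_lit 0, false, false⟩,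
 nat_lit 0, nat_lit 0, nat_lit 9022, nat_lit 0, nat_lit 3136, nat_lit 5865, nat_lit 340, nat_lit 0, nat_lit 0, nat_lit 868, nat_lit 0, nat_lit 0, nat_lit 0, nat_lit 0, nat_lit 0, nat_lit 0, nat_lit 0, nat_lit 0, [],
 ⟨p124_k23, nat_lit 0, nat_lit 0, nat_lit 118, nat_lit 0, nat_lit 0, [nat_lit 938000000, nat_lit 3282000000, nat_lit 6250000000], [], [nat_lit 27486934972, nat_lit 27757034212, nat_lit 27824242274, nat_lit 28147470401, nat_lit 27686982860, nat_lit 27933898788, nat_lit 27994347794, nat_lit 28237087064], nat_lit 0, nat_lit 0, nat_lit 0, nat_lit 0, nat_lit 0, nat_lit 0, [], [nat_lit 20, nat_lit 40, nat_lit 40, nat_lit 80, nat_lit 16, nat_lit 249, nat_lit 40, nat_lit 7]⟩, ⟨p124_k26, nat_lit 0, nat_lit 0, nat_lit 419, nat_lit 0, nat_lit 590327, [nat_lit 3282000000, nat_lit 6250000000, nat_lit 14058000000], [], [nat_lit 30406741658, nat_lit 30546911055, nat_lit 30696112959, nat_lit 30832749098, nat_lit 32690550315,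 nat_lit 32780472327, nat_lit 32928922855, nat_lit 33068054669], nat_lit 1271250, nat_lit 1271250, nat_lit 1271250, nat_lit 1271250, nat_lit 1100001, nat_lit 2572750, [nat_lit 780000, nat_lit 1435000, nat_lit 1271250], [nat_lit 71, nat_lit 40, nat_lit 40, nat_lit 80, nat_lit 68, nat_lit 483, nat_lit 250, nat_lit 10]⟩,
 zbF0, [⟨nat_lit 13, nat_lit 18, nat_lit 91, nat_lit 100, nat_lit 694164494⟩, ⟨nat_lit 4, nat_lit 100, nat_lit 17, nat_lit 94, nat_lit 1107962399⟩, ⟨nat_lit 19, nat_lit 100, nat_lit 88, nat_lit 99, nat_lit 295302107⟩]⟩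
noncomputable def p124_l125 : Lf2 := ⟨nat_lit 0, nat_lit 25, [nat_lit 44, nat_lit 5, nat_lit 5, nat_lit 20], false, nat_lit 80, nat_lit 160, nat_lit 160, nat_lit 328, ⟨nat_lit 273, nat_lit 727, nat_lit 0, nat_lit 8, nat_lit 315, nat_lit 727, nat_lit 108, nat_lit 0, nat_lit 0, nat_lit 0, nat_lit 0, nat_lit 0, nat_lit 38360198, nat_lit 24226078, nat_lit 4413724, nat_lit 4586223, true, true⟩,
 nat_lit 0, nat_lit 0, nat_lit 2790, nat_lit 0, nat_lit 2868, nat_lit 1852, nat_lit 108, nat_lit 0, nat_lit 0, nat_lit 205, nat_lit 0, nat_lit 0, nat_lit 0, nat_lit 0, nat_lit 0, nat_lit 181750, nat_lit 0, nat_lit 0, [(nat_lit 29, [(nat_lit 0, nat_lit 727)])],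
 ⟨p124_k14, nat_lit 0, nat_lit 0, nat_lit 109, nat_lit 0, nat_lit 0, [nat_lit 824297201, nat_lit 1656428001, nat_lit 2280466800], [], [nat_lit 26663095784, nat_lit 27288179888, nat_lit 28033825188, nat_lit 28624931080, nat_lit 27052694890, nat_lit 27541362548, nat_lit 28179854356, nat_lit 28721671274], nat_lit 0, nat_lit 0, nat_lit 0, nat_lit 0, nat_lit 0, nat_lit 0, [], [nat_lit 35, nat_lit 40, nat_lit 40, nat_lit 80, nat_lit 22, nat_lit 249, nat_lit 40, nat_lit 9]⟩, ⟨p124_k5, nat_lit 0, nat_lit 0, nat_lit 467, nat_lit 0, nat_lit 764068, [nat_lit 895986000, nat_lit 1706250000, nat_lit 3241056000], [], [nat_lit 8092769590, nat_lit 8127588289, nat_lit 8346281534, nat_lit 8377811399, nat_lit 8559126518, nat_lit 8582217569, nat_lit 8781256818, nat_lit 8809329022], nat_lit 1271250, nat_lit 1271250, nat_lit 1271250, nat_lit 1271250, nat_lit 1100001, nat_lit 2538500, [nat_lit 780000, nat_lit 1435000, nat_lit 1271250], [nat_lit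 23, nat_lit 40, nat_lit 40, nat_lit 80, nat_lit 12, nat_lit 401, nat_lit 175, nat_lit 9]⟩,
 ⟨nat_lit 0, nat_lit 1582, ⟨.ofNat (nat_lit 768823), .ofNat (nat_lit 807066), .ofNat (nat_lit 774652), .ofNat (nat_lit 812895), .ofNat (nat_lit 762499), .ofNat (nat_lit 797496), .ofNat (nat_lit 768749), .ofNat (nat_lit 803747)⟩, ⟨.ofNat (nat_lit 200000), .ofNat (nat_lit 328785), .ofNat (nat_lit 200000), .ofNat (nat_lit 352101), .ofNat (nat_lit 200000), .ofNat (nat_lit 324996), .ofNat (nat_lit 200000), .ofNat (nat_lit 349997)⟩⟩, [⟨nat_lit 13, nat_lit 25, nat_lit 86, nat_lit 100, nat_lit 585390365⟩, ⟨nat_lit 16, nat_lit 23, nat_lit 100, nat_lit 92, nat_lit 113989396⟩, ⟨nat_lit 19, nat_lit 99, nat_lit 91, nat_lit 100, nat_lit 75365544⟩]⟩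
noncomputable def p124_l126 : Lf2 := ⟨nat_lit 0, nat_lit 30, [nat_lit 15, nat_lit 5, nat_lit 5, nat_lit 20], false, nat_lit 80, nat_lit 160, nat_lit 160, nat_lit 328, ⟨nat_lit 1000, nat_lit 0, nat_lit 0, nat_lit 0, nat_lit 0, nat_lit 0, nat_lit 0, nat_lit 0, nat_lit 0, nat_lit 0, nat_lit 0, nat_lit 0, nat_lit 0, nat_lit 0, nat_lit 0, nat_lit 0, false, false⟩,
 nat_lit 0, nat_lit 0, nat_lit 8834, nat_lit 0, nat_lit 3125, nat_lit 5866, nat_lit 392, nat_lit 0, nat_lit 0, nat_lit 877, nat_lit 0, nat_lit 0, nat_lit 0, nat_lit 0, nat_lit 0, nat_lit 0, nat_lit 0, nat_lit 0, [],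
 ⟨p124_k21, nat_lit 0, nat_lit 0, nat_lit 123, nat_lit 0, nat_lit 0, [nat_lit 938000000, nat_lit 3282000000, nat_lit 6250000000], [], [nat_lit 27193728625, nat_lit 27734207500, nat_lit 28498792338, nat_lit 29112051450, nat_lit 27441014000, nat_lit 27914814500, nat_lit 28520043200, nat_lit 29081233601], nat_lit 0, nat_lit 0, nat_lit 0, nat_lit 0, nat_lit 0, nat_lit 0, [], [nat_lit 20, nat_lit 40, nat_lit 40, nat_lit 80, nat_lit 16, nat_lit 249, nat_lit 40, nat_lit 8]⟩, ⟨p124_k10, nat_lit 0, nat_lit 0, nat_lit 421, nat_lit 0, nat_lit 598272, [nat_lit 3282000000, nat_lit 6250000000, nat_lit 14058000000], [], [nat_lit 29713248737, nat_lit 29853422876, nat_lit 30713740092, nat_lit 30841546157, nat_lit 31837087746, nat_lit 31928354769, nat_lit 32806684104, nat_lit 32938632936], nat_lit 1271250, nat_lit 1271250, nat_lit 1271250, nat_lit 1271250, nat_lit 1100001, nat_lit 2538500, [nat_lit 780000, nat_lit 1435000, nat_lit 1271250],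 [nat_lit 71, nat_lit 40, nat_lit 40, nat_lit 80, nat_lit 68, nat_lit 483, nat_lit 250, nat_lit 10]⟩,
 zbF0, [⟨nat_lit 13, nat_lit 25, nat_lit 86, nat_lit 100, nat_lit 940642621⟩, ⟨nat_lit 4, nat_lit 100, nat_lit 23, nat_lit 92, nat_lit 838058706⟩, ⟨nat_lit 19, nat_lit 99, nat_lit 91, nat_lit 100, nat_lit 291109733⟩]⟩
noncomputable def p124_l127 : Lf2 := ⟨nat_lit 0, nat_lit 30, [nat_lit 15, nat_lit 5, nat_lit 5, nat_lit 20], false, nat_lit 80, nat_lit 160, nat_lit 160, nat_lit 324, ⟨nat_lit 501, nat_lit 499, nat_lit 0, nat_lit 8, nat_lit 318, nat_lit 499, nat_lit 108, nat_lit 0, nat_lit 0, nat_lit 0, nat_lit 0, nat_lit 0, nat_lit 38063928, nat_lit 24545561, nat_lit 4390511, nat_lit 4592841, true, true⟩,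
 nat_lit 0, nat_lit 0, nat_lit 4609, nat_lit 0, nat_lit 2952, nat_lit 3125, nat_lit 248, nat_lit 0, nat_lit 0, nat_lit 412, nat_lit 0, nat_lit 0, nat_lit 0, nat_lit 0, nat_lit 0, nat_lit 124750, nat_lit 0, nat_lit 0, [(nat_lit 29, [(nat_lit 0, nat_lit 499)])],
 ⟨p124_k21, nat_lit 0, nat_lit 0, nat_lit 124, nat_lit 0, nat_lit 0, [nat_lit 859956401, nat_lit 2166236000, nat_lit 4022663600], [], [nat_lit 26838020224, nat_lit 27433963232, nat_lit 28384862098, nat_lit 28977028705, nat_lit 27155130970, nat_lit 27618680874, nat_lit 28474211713, nat_lit 29016948634], nat_lit 0, nat_lit 0, nat_lit 0, nat_lit 0, nat_lit 0, nat_lit 0, [], [nat_lit 20, nat_lit 40, nat_lit 40, nat_lit 80, nat_lit 16, nat_lit 249, nat_lit 40, nat_lit 8]⟩, ⟨p124_k40, nat_lit 0, nat_lit 0, nat_lit 541, nat_lit 0, nat_lit 791254, [nat_lit 1644282000, nat_lit 3131250000, nat_lit 7043058000], [], [nat_lit 15176410090, nat_lit 15231371824, nat_lit 15631767971,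 nat_lit 15680865492, nat_lit 15823588574, nat_lit 15858402633, nat_lit 16263489372, nat_lit 16314886771], nat_lit 1271250, nat_lit 1271250, nat_lit 1271250, nat_lit 1271250, nat_lit 1100001, nat_lit 2504250, [nat_lit 780000, nat_lit 1435000, nat_lit 1271250], [nat_lit 71, nat_lit 40, nat_lit 40, nat_lit 80, nat_lit 68, nat_lit 483, nat_lit 250, nat_lit 10]⟩,
 ⟨nat_lit 0, nat_lit 1582, ⟨.ofNat (nat_lit 774652), .ofNat (nat_lit 818359), .ofNat (nat_lit 780481), .ofNat (nat_lit 824188), .ofNat (nat_lit 768749), .ofNat (nat_lit 808747), .ofNat (nat_lit 774999), .ofNat (nat_lit 814997)⟩, ⟨.ofNat (nat_lit 200000), .ofNat (nat_lit 328785), .ofNat (nat_lit 200000), .ofNat (nat_lit 352101), .ofNat (nat_lit 200000), .ofNat (nat_lit 324996), .ofNat (nat_lit 200000), .ofNat (nat_lit 349997)⟩⟩, [⟨nat_lit 13, nat_lit 25, nat_lit 85, nat_lit 100, nat_lit 531236120⟩, ⟨nat_lit 4, nat_lit 100, nat_lit 23, nat_lit 92, nat_lit 414073297⟩,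 ⟨nat_lit 19, nat_lit 98, nat_lit 93, nat_lit 100, nat_lit 134627425⟩]⟩
noncomputable def b_V_900_700_20_40 : St := ⟨true, nat_lit 0, nat_lit 1, nat_lit 1, nat_lit 120, nat_lit 380, nat_lit 400, nat_lit 280, nat_lit 300, nat_lit 320, nat_lit 368, nat_lit 100, nat_lit 120, nat_lit 80, nat_lit 160, nat_lit 0, nat_lit 336, nat_lit 80, nat_lit 120, nat_lit 0, nat_lit 0, nat_lit 0, nat_lit 0⟩
theorem d_V_900_700_20_40 (h : EB TB.env) : Dead b_V_900_700_20_40 := chkB_sound0 h (T :=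
(.spl (nat_lit 5) (nat_lit 160)
(.spl (nat_lit 0) (nat_lit 390)
(.leaf p124_l108)
(.trX (nat_lit 13) (nat_lit 36) (nat_lit 77) (nat_lit 100) (nat_lit 352) (.leaf p124_l109)))
(.spl (nat_lit 0) (nat_lit 390)
(.spl (nat_lit 1) (nat_lit 290)
(.trX (nat_lit 13) (nat_lit 49) (nat_lit 68) (nat_lit 100) (nat_lit 360) (.spl (nat_lit 0) (nat_lit 385)
(.spl (nat_lit 0) (nat_lit 383)
(.leaf p124_l110)
(.trX (nat_lit 13) (nat_lit 45) (nat_lit 71) (nat_lit 100) (nat_lit 356) (.leaf p124_l111)))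
(.trX (nat_lit 13) (nat_lit 43) (nat_lit 73) (nat_lit 100) (nat_lit 352) (.spl (nat_lit 6) (nat_lit 100)
(.spl (nat_lit 1) (nat_lit 285)
(.trX (nat_lit 13) (nat_lit 42) (nat_lit 75) (nat_lit 100) (nat_lit 348) (.leaf p124_l112))
(.trX (nat_lit 19) (nat_lit 99) (nat_lit 82) (nat_lit 100) (nat_lit 332) (.leaf p124_l113)))
(.spl (nat_lit 0) (nat_lit 388)
(.leaf p124_l114)
(.trX (nat_lit 13) (nat_lit 38) (nat_lit 77) (nat_lit 100) (nat_lit 348) (.leaf p124_l115)))))))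
(.trX (nat_lit 19) (nat_lit 97) (nat_lit 84) (nat_lit 100) (nat_lit 328) (.spl (nat_lit 6) (nat_lit 100)
(.leaf p124_l116)
(.leaf p124_l117))))
(.trX (nat_lit 13) (nat_lit 36) (nat_lit 77) (nat_lit 100) (nat_lit 352) (.spl (nat_lit 1) (nat_lit 290)
(.trX (nat_lit 13) (nat_lit 35) (nat_lit 79) (nat_lit 100) (nat_lit 344) (.spl (nat_lit 6) (nat_lit 100)
(.leaf p124_l118)
(.spl (nat_lit 1) (nat_lit 285)
(.trX (nat_lit 13) (nat_lit 34) (nat_lit 80) (nat_lit 100) (nat_lit 340) (.spl (nat_lit 4) (nat_lit 120)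
(.trX (nat_lit 22) (nat_lit 87) (nat_lit 95) (nat_lit 100) (nat_lit 300) (.leaf p124_l119))
(.spl (nat_lit 1) (nat_lit 283)
(.trX (nat_lit 13) (nat_lit 34) (nat_lit 81) (nat_lit 100) (nat_lit 336) (.spl (nat_lit 5) (nat_lit 240)
(.leaf p124_l120)
(.leaf p124_l121)))
(.leaf p124_l122))))
(.trX (nat_lit 19) (nat_lit 99) (nat_lit 82) (nat_lit 100) (nat_lit 332) (.spl (nat_lit 0) (nat_lit 395)
(.leaf p124_l123)
(.trX (nat_lit 13) (nat_lit 25) (nat_lit 86) (nat_lit 100) (nat_lit 328) (.leaf p124_l124)))))))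
(.trX (nat_lit 19) (nat_lit 97) (nat_lit 84) (nat_lit 100) (nat_lit 328) (.spl (nat_lit 1) (nat_lit 295)
(.trX (nat_lit 13) (nat_lit 35) (nat_lit 78) (nat_lit 100) (nat_lit 348) (.spl (nat_lit 6) (nat_lit 100)
(.leaf p124_l125)
(.leaf p124_l126)))
(.trX (nat_lit 19) (nat_lit 96) (nat_lit 86) (nat_lit 100) (nat_lit 324) (.leaf p124_l127))))))))) (by decide +kernel)
noncomputable def p124_l128 : Lf2 := ⟨nat_lit 0, nat_lit 30, [nat_lit 15, nat_lit 5, nat_lit 5, nat_lit 20], false, nat_lit 80, nat_lit 160, nat_lit 0, nat_lit 160, ⟨nat_lit 1000, nat_lit 0, nat_lit 0, nat_lit 0, nat_lit 0, nat_lit 0, nat_lit 0, nat_lit 0, nat_lit 0, nat_lit 0, nat_lit 0, nat_lit 0, nat_lit 0, nat_lit 0, nat_lit 0, nat_lit 0, false, false⟩,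
 nat_lit 0, nat_lit 0, nat_lit 8866, nat_lit 0, nat_lit 4524, nat_lit 6137, nat_lit 571, nat_lit 0, nat_lit 0, nat_lit 792, nat_lit 0, nat_lit 0, nat_lit 0, nat_lit 0, nat_lit 0, nat_lit 0, nat_lit 0, nat_lit 0, [],
 ⟨p124_k6, nat_lit 0, nat_lit 0, nat_lit 164, nat_lit 0, nat_lit 0, [nat_lit 938000000, nat_lit 3282000000, nat_lit 9842000000], [], [nat_lit 28288370250, nat_lit 29288142634, nat_lit 31883384285, nat_lit 33166849704, nat_lit 28024949018, nat_lit 28934564498, nat_lit 31343810624, nat_lit 32322277661], nat_lit 0, nat_lit 0, nat_lit 0, nat_lit 0, nat_lit 0, nat_lit 0, [], [nat_lit 93, nat_lit 40, nat_lit 40, nat_lit 80, nat_lit 63, nat_lit 249, nat_lit 40, nat_lit 6]⟩, ⟨p124_k12, nat_lit 0, nat_lit 0, nat_lit 579, nat_lit 0, nat_lit 808497, [nat_lit 3282000000, nat_lit 6250000000, nat_lit 11872000000], [], [nat_lit 33924716124, nat_lit 34388293112, nat_lit 36921686253, nat_lit 37651759364, nat_lit 30448434834,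 nat_lit 30906811780, nat_lit 32607550293, nat_lit 32968468278], nat_lit 1271250, nat_lit 1271250, nat_lit 1271250, nat_lit 1271250, nat_lit 0, nat_lit 1100001, [nat_lit 780000, nat_lit 1435000, nat_lit 1271250], [nat_lit 23, nat_lit 40, nat_lit 40, nat_lit 80, nat_lit 12, nat_lit 345, nat_lit 125, nat_lit 8]⟩,
 zbF0, []⟩
noncomputable def p124_l129 : Lf2 := ⟨nat_lit 0, nat_lit 30, [nat_lit 15, nat_lit 5, nat_lit 5, nat_lit 20], false, nat_lit 80, nat_lit 160, nat_lit 160, nat_lit 320, ⟨nat_lit 1000, nat_lit 0, nat_lit 0, nat_lit 0, nat_lit 0, nat_lit 0, nat_lit 0, nat_lit 0, nat_lit 0, nat_lit 0, nat_lit 0, nat_lit 0, nat_lit 0, nat_lit 0, nat_lit 0, nat_lit 0, false, false⟩,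
 nat_lit 0, nat_lit 0, nat_lit 8490, nat_lit 0, nat_lit 4568, nat_lit 5877, nat_lit 571, nat_lit 0, nat_lit 0, nat_lit 794, nat_lit 0, nat_lit 0, nat_lit 0, nat_lit 0, nat_lit 0, nat_lit 0, nat_lit 0, nat_lit 0, [],
 ⟨p124_k6, nat_lit 0, nat_lit 0, nat_lit 162, nat_lit 0, nat_lit 0, [nat_lit 938000000, nat_lit 3282000000, nat_lit 9842000000], [], [nat_lit 28245008250, nat_lit 28747072794, nat_lit 31966918074, nat_lit 32611742901, nat_lit 27965154426, nat_lit 28421827106, nat_lit 31309225569, nat_lit 31800547837], nat_lit 0, nat_lit 0, nat_lit 0, nat_lit 0, nat_lit 0, nat_lit 0, [], [nat_lit 93, nat_lit 40, nat_lit 40, nat_lit 80, nat_lit 63, nat_lit 249, nat_lit 40, nat_lit 6]⟩, ⟨p124_k12, nat_lit 0, nat_lit 0, nat_lit 411, nat_lit 0, nat_lit 686082, [nat_lit 3282000000, nat_lit 6250000000, nat_lit 11872000000], [], [nat_lit 30008479406, nat_lit 30452011594, nat_lit 32193435011, nat_lit 32584391068, nat_lit 31682802494,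 nat_lit 32092960758, nat_lit 33743085717, nat_lit 34220459644], nat_lit 1271250, nat_lit 1271250, nat_lit 1271250, nat_lit 1271250, nat_lit 1100001, nat_lit 2470000, [nat_lit 780000, nat_lit 1435000, nat_lit 1271250], [nat_lit 23, nat_lit 40, nat_lit 40, nat_lit 80, nat_lit 12, nat_lit 401, nat_lit 175, nat_lit 9]⟩,
 zbF0, [⟨nat_lit 7, nat_lit 100, nat_lit 93, nat_lit 97, nat_lit 305598750⟩]⟩
noncomputable def p124_l130 : Lf2 := ⟨nat_lit 0, nat_lit 30, [nat_lit 15, nat_lit 5, nat_lit 5, nat_lit 20], false, nat_lit 80, nat_lit 160, nat_lit 160, nat_lit 320, ⟨nat_lit 1000, nat_lit 0, nat_lit 0, nat_lit 0, nat_lit 0, nat_lit 0, nat_lit 0, nat_lit 0, nat_lit 0, nat_lit 0, nat_lit 0, nat_lit 0, nat_lit 0, nat_lit 0, nat_lit 0, nat_lit 0, false, false⟩,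
 nat_lit 0, nat_lit 0, nat_lit 8575, nat_lit 0, nat_lit 3602, nat_lit 5936, nat_lit 574, nat_lit 0, nat_lit 0, nat_lit 767, nat_lit 0, nat_lit 0, nat_lit 0, nat_lit 0, nat_lit 0, nat_lit 0, nat_lit 0, nat_lit 0, [],
 ⟨p124_k9, nat_lit 0, nat_lit 0, nat_lit 144, nat_lit 0, nat_lit 0, [nat_lit 938000000, nat_lit 3282000000, nat_lit 7968000000], [], [nat_lit 26697626748, nat_lit 27185893656, nat_lit 30463724422, nat_lit 31047668015, nat_lit 26831820492, nat_lit 27280149260, nat_lit 30161652983, nat_lit 30697018088], nat_lit 0, nat_lit 0, nat_lit 0, nat_lit 0, nat_lit 0, nat_lit 0, [], [nat_lit 54, nat_lit 40, nat_lit 40, nat_lit 80, nat_lit 43, nat_lit 249, nat_lit 40, nat_lit 7]⟩, ⟨p124_k12, nat_lit 0, nat_lit 0, nat_lit 492, nat_lit 0, nat_lit 808497, [nat_lit 3282000000, nat_lit 6250000000, nat_lit 11872000000], [], [nat_lit 30551571953, nat_lit 30943843441, nat_lit 32325675882, nat_lit 32688935998, nat_lit 31944025375,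 nat_lit 32306022271, nat_lit 33602866430, nat_lit 34047909873], nat_lit 1271250, nat_lit 1271250, nat_lit 1271250, nat_lit 1271250, nat_lit 1100001, nat_lit 2470000, [nat_lit 780000, nat_lit 1435000, nat_lit 1271250], [nat_lit 23, nat_lit 40, nat_lit 40, nat_lit 80, nat_lit 12, nat_lit 401, nat_lit 175, nat_lit 9]⟩,
 zbF0, [⟨nat_lit 7, nat_lit 100, nat_lit 93, nat_lit 97, nat_lit 296134864⟩]⟩
noncomputable def p124_l131 : Lf2 := ⟨nat_lit 0, nat_lit 30, [nat_lit 15, nat_lit 5, nat_lit 5, nat_lit 20], false, nat_lit 80, nat_lit 160, nat_lit 0, nat_lit 160, ⟨nat_lit 935, nat_lit 65, nat_lit 0, nat_lit 8, nat_lit 333, nat_lit 65, nat_lit 105, nat_lit 0, nat_lit 0, nat_lit 0, nat_lit 0, nat_lit 0, nat_lit 36938289, nat_lit 25929062, nat_lit 4132649, nat_lit 4584447, true, true⟩,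
 nat_lit 0, nat_lit 0, nat_lit 8223, nat_lit 0, nat_lit 2881, nat_lit 5692, nat_lit 524, nat_lit 0, nat_lit 0, nat_lit 996, nat_lit 0, nat_lit 0, nat_lit 0, nat_lit 0, nat_lit 0, nat_lit 26000, nat_lit 0, nat_lit 0, [(nat_lit 29, [(nat_lit 1, nat_lit 65)])],
 ⟨p124_k20, nat_lit 0, nat_lit 0, nat_lit 147, nat_lit 0, nat_lit 0, [nat_lit 922426001, nat_lit 3090250001, nat_lit 7453642000], [], [nat_lit 26372214164, nat_lit 27314642166, nat_lit 29163695049, nat_lit 30252031844, nat_lit 26761329944, nat_lit 27626323430, nat_lit 29216490322, nat_lit 30217730346], nat_lit 0, nat_lit 0, nat_lit 0, nat_lit 0, nat_lit 0, nat_lit 0, [], [nat_lit 54, nat_lit 40, nat_lit 40, nat_lit 80, nat_lit 43, nat_lit 249, nat_lit 40, nat_lit 7]⟩, ⟨p124_k12, nat_lit 0, nat_lit 0, nat_lit 706, nat_lit 0, nat_lit 1068819, [nat_lit 3068670000, nat_lit 5843750000, nat_lit 11100320000], [], [nat_lit 30767661308, nat_lit 31165972548, nat_lit 32753845115,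 nat_lit 33965795446, nat_lit 28036998138, nat_lit 28361926632, nat_lit 29330941836, nat_lit 29594329550], nat_lit 1271250, nat_lit 1271250, nat_lit 1271250, nat_lit 1271250, nat_lit 0, nat_lit 1100001, [nat_lit 780000, nat_lit 1435000, nat_lit 1271250], [nat_lit 23, nat_lit 40, nat_lit 40, nat_lit 80, nat_lit 12, nat_lit 345, nat_lit 125, nat_lit 8]⟩,
 ⟨nat_lit 0, nat_lit 2237, ⟨.ofNat (nat_lit 784917), .ofNat (nat_lit 870437), .ofNat (nat_lit 807594), .ofNat (nat_lit 893212), .ofNat (nat_lit 774999), .ofNat (nat_lit 849996), .ofNat (nat_lit 799902), .ofNat (nat_lit 874997)⟩, ⟨.ofNat (nat_lit 192306), .ofNat (nat_lit 306334), .ofNat (nat_lit 200000), .ofNat (nat_lit 351885), .ofNat (nat_lit 199999), .ofNat (nat_lit 299996), .ofNat (nat_lit 200000), .ofNat (nat_lit 349998)⟩⟩, [⟨nat_lit 16, nat_lit 32, nat_lit 100, nat_lit 88, nat_lit 625815160⟩]⟩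
noncomputable def p124_l132 : Lf2 := ⟨nat_lit 0, nat_lit 25, [nat_lit 44, nat_lit 5, nat_lit 5, nat_lit 20], false, nat_lit 80, nat_lit 160, nat_lit 160, nat_lit 300, ⟨nat_lit 1000, nat_lit 0, nat_lit 0, nat_lit 0, nat_lit 0, nat_lit 0, nat_lit 0, nat_lit 0, nat_lit 0, nat_lit 0, nat_lit 0, nat_lit 0, nat_lit 0, nat_lit 0, nat_lit 0, nat_lit 0, false, false⟩,
 nat_lit 0, nat_lit 0, nat_lit 8916, nat_lit 0, nat_lit 3146, nat_lit 6172, nat_lit 470, nat_lit 0, nat_lit 0, nat_lit 788, nat_lit 0, nat_lit 0, nat_lit 0, nat_lit 0, nat_lit 0, nat_lit 0, nat_lit 0, nat_lit 0, [],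
 ⟨p124_k13, nat_lit 0, nat_lit 0, nat_lit 126, nat_lit 0, nat_lit 0, [nat_lit 938000000, nat_lit 3282000000, nat_lit 6250000000], [], [nat_lit 26570545322, nat_lit 27111464352, nat_lit 29229170846, nat_lit 29805803266, nat_lit 26879427204, nat_lit 27331326814, nat_lit 29185287819, nat_lit 29714352272], nat_lit 0, nat_lit 0, nat_lit 0, nat_lit 0, nat_lit 0, nat_lit 0, [], [nat_lit 20, nat_lit 40, nat_lit 40, nat_lit 80, nat_lit 16, nat_lit 249, nat_lit 40, nat_lit 8]⟩, ⟨p124_k11, nat_lit 0, nat_lit 0, nat_lit 505, nat_lit 0, nat_lit 845324, [nat_lit 3282000000, nat_lit 6250000000, nat_lit 11872000000], [], [nat_lit 29205105556, nat_lit 29401389744, nat_lit 30779109631, nat_lit 30988648409, nat_lit 30423488310, nat_lit 30615466343, nat_lit 31958114267, nat_lit 32202066490], nat_lit 1271250, nat_lit 1271250, nat_lit 1271250, nat_lit 1271250, nat_lit 1100001, nat_lit 2298750, [nat_lit 780000, nat_lit 1435000, nat_lit 1271250],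 [nat_lit 23, nat_lit 40, nat_lit 40, nat_lit 80, nat_lit 12, nat_lit 401, nat_lit 175, nat_lit 9]⟩,
 zbF0, [⟨nat_lit 4, nat_lit 100, nat_lit 39, nat_lit 85, nat_lit 483426321⟩, ⟨nat_lit 7, nat_lit 100, nat_lit 94, nat_lit 92, nat_lit 304201574⟩]⟩
noncomputable def p124_l133 : Lf2 := ⟨nat_lit 0, nat_lit 25, [nat_lit 44, nat_lit 5, nat_lit 5, nat_lit 20], false, nat_lit 80, nat_lit 160, nat_lit 160, nat_lit 300, ⟨nat_lit 436, nat_lit 564, nat_lit 0, nat_lit 8, nat_lit 324, nat_lit 564, nat_lit 103, nat_lit 0, nat_lit 0, nat_lit 0, nat_lit 0, nat_lit 0, nat_lit 37768468, nat_lit 25170978, nat_lit 4060554, nat_lit 4547612, true, true⟩,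
 nat_lit 0, nat_lit 0, nat_lit 4034, nat_lit 0, nat_lit 2645, nat_lit 2792, nat_lit 176, nat_lit 0, nat_lit 0, nat_lit 342, nat_lit 0, nat_lit 0, nat_lit 0, nat_lit 0, nat_lit 0, nat_lit 141000, nat_lit 0, nat_lit 0, [(nat_lit 29, [(nat_lit 0, nat_lit 564)])],
 ⟨p124_k14, nat_lit 0, nat_lit 0, nat_lit 112, nat_lit 0, nat_lit 0, [nat_lit 849790400, nat_lit 2020896001, nat_lit 2820257600], [], [nat_lit 26644859500, nat_lit 27157020180, nat_lit 28285712415, nat_lit 28759866720, nat_lit 27192194215, nat_lit 27661705080, nat_lit 28704000345, nat_lit 29135738520], nat_lit 0, nat_lit 0, nat_lit 0, nat_lit 0, nat_lit 0, nat_lit 0, [], [nat_lit 35, nat_lit 40, nat_lit 40, nat_lit 80, nat_lit 22, nat_lit 249, nat_lit 40, nat_lit 9]⟩, ⟨p124_k11, nat_lit 0, nat_lit 0, nat_lit 551, nat_lit 0, nat_lit 978835, [nat_lit 1430952000, nat_lit 2725000000, nat_lit 5176192000], [], [nat_lit 12804175500, nat_lit 12887643860, nat_lit 13272951648,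 nat_lit 13361606812, nat_lit 13298970494, nat_lit 13380580427, nat_lit 13720502640, nat_lit 13790989880], nat_lit 1271250, nat_lit 1271250, nat_lit 1271250, nat_lit 1271250, nat_lit 1100001, nat_lit 2298750, [nat_lit 780000, nat_lit 1435000, nat_lit 1271250], [nat_lit 23, nat_lit 40, nat_lit 40, nat_lit 80, nat_lit 12, nat_lit 401, nat_lit 175, nat_lit 9]⟩,
 ⟨nat_lit 0, nat_lit 1582, ⟨.ofNat (nat_lit 780481), .ofNat (nat_lit 835115), .ofNat (nat_lit 792138), .ofNat (nat_lit 846773), .ofNat (nat_lit 774999), .ofNat (nat_lit 824997), .ofNat (nat_lit 787499), .ofNat (nat_lit 837498)⟩, ⟨.ofNat (nat_lit 196201), .ofNat (nat_lit 305469), .ofNat (nat_lit 200000), .ofNat (nat_lit 328785), .ofNat (nat_lit 199999), .ofNat (nat_lit 299995), .ofNat (nat_lit 200000), .ofNat (nat_lit 324996)⟩⟩, [⟨nat_lit 4, nat_lit 100, nat_lit 24, nat_lit 89, nat_lit 820549578⟩, ⟨nat_lit 19, nat_lit 94, nat_lit 100, nat_lit 92, nat_lit 54145494⟩,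 ⟨nat_lit 22, nat_lit 77, nat_lit 100, nat_lit 99, nat_lit 84333019⟩]⟩
noncomputable def p124_l134 : Lf2 := ⟨nat_lit 0, nat_lit 30, [nat_lit 15, nat_lit 5, nat_lit 5, nat_lit 20], false, nat_lit 80, nat_lit 160, nat_lit 160, nat_lit 320, ⟨nat_lit 1000, nat_lit 0, nat_lit 0, nat_lit 0, nat_lit 0, nat_lit 0, nat_lit 0, nat_lit 0, nat_lit 0, nat_lit 0, nat_lit 0, nat_lit 0, nat_lit 0, nat_lit 0, nat_lit 0, nat_lit 0, false, false⟩,
 nat_lit 0, nat_lit 0, nat_lit 8769, nat_lit 0, nat_lit 3069, nat_lit 6070, nat_lit 550, nat_lit 0, nat_lit 0, nat_lit 776, nat_lit 0, nat_lit 0, nat_lit 0, nat_lit 0, nat_lit 0, nat_lit 0, nat_lit 0, nat_lit 0, [],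
 ⟨p124_k20, nat_lit 0, nat_lit 0, nat_lit 142, nat_lit 0, nat_lit 0, [nat_lit 938000000, nat_lit 3282000000, nat_lit 7968000000], [], [nat_lit 26390010798, nat_lit 26984125726, nat_lit 29083652319, nat_lit 29654318864, nat_lit 26702222708, nat_lit 27146514911, nat_lit 29077983668, nat_lit 29601829708], nat_lit 0, nat_lit 0, nat_lit 0, nat_lit 0, nat_lit 0, nat_lit 0, [], [nat_lit 54, nat_lit 40, nat_lit 40, nat_lit 80, nat_lit 43, nat_lit 249, nat_lit 40, nat_lit 7]⟩, ⟨p124_k12, nat_lit 0, nat_lit 0, nat_lit 411, nat_lit 0, nat_lit 692851, [nat_lit 3282000000, nat_lit 6250000000, nat_lit 11872000000], [], [nat_lit 29575855960, nat_lit 29815022450, nat_lit 31236063274, nat_lit 31445496330, nat_lit 31145226160, nat_lit 31311377340, nat_lit 32640533211, nat_lit 32833443684], nat_lit 1271250, nat_lit 1271250, nat_lit 1271250, nat_lit 1271250, nat_lit 1100001, nat_lit 2470000, [nat_lit 780000, nat_lit 1435000, nat_lit 1271250],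 [nat_lit 23, nat_lit 40, nat_lit 40, nat_lit 80, nat_lit 12, nat_lit 401, nat_lit 175, nat_lit 9]⟩,
 zbF0, [⟨nat_lit 19, nat_lit 95, nat_lit 95, nat_lit 100, nat_lit 281977590⟩]⟩
noncomputable def p124_l135 : Lf2 := ⟨nat_lit 0, nat_lit 30, [nat_lit 15, nat_lit 5, nat_lit 5, nat_lit 20], false, nat_lit 80, nat_lit 160, nat_lit 160, nat_lit 320, ⟨nat_lit 1000, nat_lit 0, nat_lit 0, nat_lit 0, nat_lit 0, nat_lit 0, nat_lit 0, nat_lit 0, nat_lit 0, nat_lit 0, nat_lit 0, nat_lit 0, nat_lit 0, nat_lit 0, nat_lit 0, nat_lit 0, false, false⟩,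
 nat_lit 0, nat_lit 0, nat_lit 8915, nat_lit 0, nat_lit 2784, nat_lit 6171, nat_lit 446, nat_lit 0, nat_lit 0, nat_lit 784, nat_lit 0, nat_lit 0, nat_lit 0, nat_lit 0, nat_lit 0, nat_lit 0, nat_lit 0, nat_lit 0, [],
 ⟨p124_k21, nat_lit 0, nat_lit 0, nat_lit 125, nat_lit 0, nat_lit 0, [nat_lit 938000000, nat_lit 3282000000, nat_lit 6250000000], [], [nat_lit 26653994766, nat_lit 27148654190, nat_lit 28466789840, nat_lit 29032853824, nat_lit 27104395806, nat_lit 27557991374, nat_lit 28711608680, nat_lit 29195109088], nat_lit 0, nat_lit 0, nat_lit 0, nat_lit 0, nat_lit 0, nat_lit 0, [], [nat_lit 20, nat_lit 40, nat_lit 40, nat_lit 80, nat_lit 16, nat_lit 249, nat_lit 40, nat_lit 8]⟩, ⟨p124_k12, nat_lit 0, nat_lit 0, nat_lit 497, nat_lit 0, nat_lit 823786, [nat_lit 3282000000, nat_lit 6250000000, nat_lit 11872000000], [], [nat_lit 29268852858, nat_lit 29465136417, nat_lit 30415569426, nat_lit 30634824871, nat_lit 30791052250,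 nat_lit 30971755303, nat_lit 31943720662, nat_lit 32183735513], nat_lit 1271250, nat_lit 1271250, nat_lit 1271250, nat_lit 1271250, nat_lit 1100001, nat_lit 2470000, [nat_lit 780000, nat_lit 1435000, nat_lit 1271250], [nat_lit 23, nat_lit 40, nat_lit 40, nat_lit 80, nat_lit 12, nat_lit 401, nat_lit 175, nat_lit 9]⟩,
 zbF0, [⟨nat_lit 4, nat_lit 100, nat_lit 23, nat_lit 92, nat_lit 931854968⟩, ⟨nat_lit 19, nat_lit 95, nat_lit 95, nat_lit 100, nat_lit 280098131⟩, ⟨nat_lit 22, nat_lit 77, nat_lit 100, nat_lit 99, nat_lit 7295105⟩]⟩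
noncomputable def p124_l136 : Lf2 := ⟨nat_lit 0, nat_lit 30, [nat_lit 15, nat_lit 5, nat_lit 5, nat_lit 20], false, nat_lit 80, nat_lit 160, nat_lit 160, nat_lit 312, ⟨nat_lit 1000, nat_lit 0, nat_lit 0, nat_lit 0, nat_lit 0, nat_lit 0, nat_lit 0, nat_lit 0, nat_lit 0, nat_lit 0, nat_lit 0, nat_lit 0, nat_lit 0, nat_lit 0, nat_lit 0, nat_lit 0, false, false⟩,
 nat_lit 0, nat_lit 0, nat_lit 7914, nat_lit 0, nat_lit 2865, nat_lit 5705, nat_lit 556, nat_lit 0, nat_lit 0, nat_lit 805, nat_lit 0, nat_lit 0, nat_lit 0, nat_lit 0, nat_lit 0, nat_lit 0, nat_lit 0, nat_lit 0, [],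
 ⟨p124_k20, nat_lit 0, nat_lit 0, nat_lit 147, nat_lit 0, nat_lit 0, [nat_lit 938000000, nat_lit 3282000000, nat_lit 7968000000], [], [nat_lit 26463173730, nat_lit 27403633060, nat_lit 29132502585, nat_lit 30218452260, nat_lit 26858251430, nat_lit 27721545620, nat_lit 29303309570, nat_lit 30216717710], nat_lit 0, nat_lit 0, nat_lit 0, nat_lit 0, nat_lit 0, nat_lit 0, [], [nat_lit 54, nat_lit 40, nat_lit 40, nat_lit 80, nat_lit 43, nat_lit 249, nat_lit 40, nat_lit 7]⟩, ⟨p124_k41, nat_lit 0, nat_lit 0, nat_lit 560, nat_lit 0, nat_lit 1007983, [nat_lit 3282000000, nat_lit 6250000000, nat_lit 11872000000], [], [nat_lit 29759740875, nat_lit 29932399420, nat_lit 31406709963, nat_lit 31599112565, nat_lit 31221364302, nat_lit 31384571254, nat_lit 32662310853, nat_lit 33047368702], nat_lit 1271250, nat_lit 1271250, nat_lit 1271250, nat_lit 1271250, nat_lit 1100001, nat_lit 2401500, [nat_lit 780000, nat_lit 1435000, nat_lit 1271250],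 [nat_lit 23, nat_lit 40, nat_lit 40, nat_lit 80, nat_lit 12, nat_lit 401, nat_lit 175, nat_lit 9]⟩,
 zbF0, [⟨nat_lit 16, nat_lit 32, nat_lit 100, nat_lit 88, nat_lit 660028136⟩, ⟨nat_lit 7, nat_lit 100, nat_lit 90, nat_lit 95, nat_lit 316330245⟩]⟩
noncomputable def b_V_900_700_20_41 : St := ⟨true, nat_lit 0, nat_lit 1, nat_lit 1, nat_lit 120, nat_lit 360, nat_lit 400, nat_lit 300, nat_lit 320, nat_lit 320, nat_lit 392, nat_lit 80, nat_lit 120, nat_lit 80, nat_lit 160, nat_lit 0, nat_lit 336, nat_lit 80, nat_lit 120, nat_lit 0, nat_lit 0, nat_lit 0, nat_lit 0⟩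
theorem d_V_900_700_20_41 (h : EB TB.env) : Dead b_V_900_700_20_41 := chkB_sound0 h (T :=
(.trX (nat_lit 19) (nat_lit 94) (nat_lit 88) (nat_lit 100) (nat_lit 320) (.spl (nat_lit 0) (nat_lit 380)
(.spl (nat_lit 5) (nat_lit 160)
(.leaf p124_l128)
(.spl (nat_lit 0) (nat_lit 370)
(.leaf p124_l129)
(.trX (nat_lit 13) (nat_lit 66) (nat_lit 45) (nat_lit 100) (nat_lit 388) (.leaf p124_l130))))
(.trX (nat_lit 13) (nat_lit 54) (nat_lit 57) (nat_lit 100) (nat_lit 380) (.spl (nat_lit 5) (nat_lit 160)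
(.leaf p124_l131)
(.spl (nat_lit 1) (nat_lit 310)
(.trX (nat_lit 13) (nat_lit 52) (nat_lit 61) (nat_lit 100) (nat_lit 372) (.spl (nat_lit 3) (nat_lit 100)
(.trX (nat_lit 19) (nat_lit 100) (nat_lit 100) (nat_lit 100) (nat_lit 300) (.spl (nat_lit 0) (nat_lit 390)
(.leaf p124_l132)
(.trX (nat_lit 13) (nat_lit 37) (nat_lit 74) (nat_lit 100) (nat_lit 360) (.leaf p124_l133))))
(.spl (nat_lit 0) (nat_lit 390)
(.leaf p124_l134)
(.trX (nat_lit 13) (nat_lit 37) (nat_lit 74) (nat_lit 100) (nat_lit 360) (.leaf p124_l135)))))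
(.trX (nat_lit 19) (nat_lit 91) (nat_lit 91) (nat_lit 100) (nat_lit 312) (.leaf p124_l136)))))))) (by decide +kernel)

end B2
end Pool.Agent.Lib.MP_6947cd_al
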