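import Pool.Agent.Lib.MP_6947cd_al.ZB.Pre

/-!
Problem MP_6947cd_al (Chollet).  Case B, second entry in [2/5, 17/20]: certificates of the tree, part P126 (generated).
-/

set_option autoImplicit false
set_option linter.all false

namespace Pool.Agent.Lib.MP_6947cd_al
namespace B2

open Ent Fr B1 PkA

noncomputable def p126_k0 : C1.Kn := ⟨[nat_lit 20, nat_lit 80, nat_lit 120], [nat_lit 0, nat_lit 2121, nat_lit 4818], [(nat_lit 0, nat_lit 0, nat_lit 0), (nat_lit 1000, nat_lit 558, nat_lit 551), (nat_lit 1000, nat_lit 443, nat_lit 981)], (nat_lit 44, nat_lit 100, nat_lit 92)⟩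
noncomputable def p126_k1 : C1.Kn := ⟨[nat_lit 60, nat_lit 120, nat_lit 180], [nat_lit 0, nat_lit 0, nat_lit 4796], [(nat_lit 0, nat_lit 0, nat_lit 0), (nat_lit 0, nat_lit 0, nat_lit 0), (nat_lit 802, nat_lit 1000, nat_lit 999)], (nat_lit 100, nat_lit 80, nat_lit 100)⟩
noncomputable def p126_k2 : C1.Kn := ⟨[nat_lit 20, nat_lit 60, nat_lit 100], [nat_lit 0, nat_lit 1776, nat_lit 3880], [(nat_lit 0, nat_lit 0, nat_lit 0), (nat_lit 1000, nat_lit 445, nat_lit 693), (nat_lit 1000, nat_lit 394, nat_lit 822)], (nat_lit 38, nat_lit 100, nat_lit 92)⟩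
noncomputable def p126_k3 : C1.Kn := ⟨[nat_lit 60, nat_lit 100, nat_lit 180], [nat_lit 0, nat_lit 0, nat_lit 4090], [(nat_lit 0, nat_lit 0, nat_lit 0), (nat_lit 0, nat_lit 0, nat_lit 0), (nat_lit 1000, nat_lit 999, nat_lit 798)], (nat_lit 100, nat_lit 80, nat_lit 100)⟩
noncomputable def p126_k4 : C1.Kn := ⟨[nat_lit 60, nat_lit 100, nat_lit 180], [nat_lit 0, nat_lit 302, nat_lit 4303], [(nat_lit 0, nat_lit 0, nat_lit 0), (nat_lit 1000, nat_lit 953, nat_lit 118), (nat_lit 1000, nat_lit 952, nat_lit 781)], (nat_lit 97, nat_lit 84, nat_lit 100)⟩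
noncomputable def p126_k5 : C1.Kn := ⟨[nat_lit 20, nat_lit 60, nat_lit 100], [nat_lit 0, nat_lit 2136, nat_lit 4235], [(nat_lit 0, nat_lit 0, nat_lit 0), (nat_lit 1000, nat_lit 343, nat_lit 808), (nat_lit 1000, nat_lit 338, nat_lit 820)], (nat_lit 31, nat_lit 100, nat_lit 92)⟩
noncomputable def p126_k6 : C1.Kn := ⟨[nat_lit 20, nat_lit 80, nat_lit 100], [nat_lit 0, nat_lit 3199, nat_lit 4400], [(nat_lit 0, nat_lit 0, nat_lit 0), (nat_lit 1000, nat_lit 333, nat_lit 833), (nat_lit 1000, nat_lit 312, nat_lit 938)], (nat_lit 31, nat_lit 100, nat_lit 92)⟩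
noncomputable def p126_k7 : C1.Kn := ⟨[nat_lit 20, nat_lit 80, nat_lit 100], [nat_lit 0, nat_lit 3758, nat_lit 4955], [(nat_lit 0, nat_lit 0, nat_lit 0), (nat_lit 1000, nat_lit 228, nat_lit 923), (nat_lit 1000, nat_lit 226, nat_lit 935)], (nat_lit 23, nat_lit 100, nat_lit 93)⟩
noncomputable def p126_k8 : C1.Kn := ⟨[nat_lit 60, nat_lit 100, nat_lit 180], [nat_lit 0, nat_lit 151, nat_lit 4195], [(nat_lit 0, nat_lit 0, nat_lit 0), (nat_lit 1000, nat_lit 977, nat_lit 59), (nat_lit 1000, nat_lit 976, nat_lit 789)], (nat_lit 99, nat_lit 82, nat_lit 100)⟩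
noncomputable def p126_k9 : C1.Kn := ⟨[nat_lit 20, nat_lit 40, nat_lit 100], [nat_lit 0, nat_lit 1518, nat_lit 4640], [(nat_lit 0, nat_lit 0, nat_lit 0), (nat_lit 1000, nat_lit 282, nat_lit 802), (nat_lit 1000, nat_lit 275, nat_lit 813)], (nat_lit 23, nat_lit 100, nat_lit 93)⟩
noncomputable def p126_k10 : C1.Kn := ⟨[nat_lit 60, nat_lit 80, nat_lit 180], [nat_lit 0, nat_lit 0, nat_lit 2658], [(nat_lit 0, nat_lit 0, nat_lit 0), (nat_lit 0, nat_lit 0, nat_lit 0), (nat_lit 1000, nat_lit 917, nat_lit 415)], (nat_lit 100, nat_lit 80, nat_lit 100)⟩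
noncomputable def p126_k11 : C1.Kn := ⟨[nat_lit 20, nat_lit 40, nat_lit 80], [nat_lit 0, nat_lit 1734, nat_lit 3930], [(nat_lit 0, nat_lit 0, nat_lit 0), (nat_lit 1000, nat_lit 217, nat_lit 853), (nat_lit 1000, nat_lit 214, nat_lit 858)], (nat_lit 18, nat_lit 100, nat_lit 94)⟩
noncomputable def p126_k12 : C1.Kn := ⟨[nat_lit 20, nat_lit 60, nat_lit 80], [nat_lit 0, nat_lit 3038, nat_lit 4229], [(nat_lit 0, nat_lit 0, nat_lit 0), (nat_lit 1000, nat_lit 155, nat_lit 926), (nat_lit 1000, nat_lit 153, nat_lit 931)], (nat_lit 15, nat_lit 100, nat_lit 95)⟩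
noncomputable def p126_k13 : C1.Kn := ⟨[nat_lit 20, nat_lit 60, nat_lit 100], [nat_lit 0, nat_lit 2600, nat_lit 4863], [(nat_lit 0, nat_lit 0, nat_lit 0), (nat_lit 1000, nat_lit 245, nat_lit 872), (nat_lit 1000, nat_lit 240, nat_lit 884)], (nat_lit 23, nat_lit 100, nat_lit 93)⟩
noncomputable def p126_k14 : C1.Kn := ⟨[nat_lit 60, nat_lit 100, nat_lit 180], [nat_lit 0, nat_lit 455, nat_lit 4402], [(nat_lit 0, nat_lit 0, nat_lit 0), (nat_lit 1000, nat_lit 929, nat_lit 178), (nat_lit 1000, nat_lit 928, nat_lit 770)], (nat_lit 96, nat_lit 86, nat_lit 100)⟩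
noncomputable def p126_k15 : C1.Kn := ⟨[nat_lit 20, nat_lit 60, nat_lit 100], [nat_lit 0, nat_lit 1415, nat_lit 3591], [(nat_lit 0, nat_lit 0, nat_lit 0), (nat_lit 1000, nat_lit 558, nat_lit 551), (nat_lit 1000, nat_lit 439, nat_lit 849)], (nat_lit 44, nat_lit 100, nat_lit 87)⟩
noncomputable def p126_k16 : C1.Kn := ⟨[nat_lit 60, nat_lit 100, nat_lit 160], [nat_lit 0, nat_lit 609, nat_lit 3531], [(nat_lit 0, nat_lit 0, nat_lit 0), (nat_lit 1000, nat_lit 905, nat_lit 238), (nat_lit 1000, nat_lit 904, nat_lit 760)], (nat_lit 100, nat_lit 100, nat_lit 100)⟩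
noncomputable def p126_k17 : C1.Kn := ⟨[nat_lit 20, nat_lit 60, nat_lit 80], [nat_lit 0, nat_lit 2136, nat_lit 3185], [(nat_lit 0, nat_lit 0, nat_lit 0), (nat_lit 1000, nat_lit 343, nat_lit 808), (nat_lit 1000, nat_lit 338, nat_lit 820)], (nat_lit 32, nat_lit 100, nat_lit 88)⟩
noncomputable def p126_k18 : C1.Kn := ⟨[nat_lit 20, nat_lit 60, nat_lit 120], [nat_lit 0, nat_lit 1415, nat_lit 4677], [(nat_lit 0, nat_lit 0, nat_lit 0), (nat_lit 1000, nat_lit 558, nat_lit 551), (nat_lit 1000, nat_lit 439, nat_lit 849)], (nat_lit 44, nat_lit 100, nat_lit 92)⟩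
noncomputable def p126_k19 : C1.Kn := ⟨[nat_lit 60, nat_lit 100, nat_lit 160], [nat_lit 0, nat_lit 609, nat_lit 3531], [(nat_lit 0, nat_lit 0, nat_lit 0), (nat_lit 1000, nat_lit 905, nat_lit 238), (nat_lit 1000, nat_lit 904, nat_lit 760)], (nat_lit 94, nat_lit 88, nat_lit 100)⟩
noncomputable def p126_k20 : C1.Kn := ⟨[nat_lit 20, nat_lit 60, nat_lit 120], [nat_lit 0, nat_lit 0, nat_lit 3661], [(nat_lit 0, nat_lit 0, nat_lit 0), (nat_lit 0, nat_lit 0, nat_lit 0), (nat_lit 1000, nat_lit 611, nat_lit 913)], (nat_lit 60, nat_lit 100, nat_lit 87)⟩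
noncomputable def p126_k21 : C1.Kn := ⟨[nat_lit 60, nat_lit 100, nat_lit 160], [nat_lit 0, nat_lit 0, nat_lit 3069], [(nat_lit 0, nat_lit 0, nat_lit 0), (nat_lit 0, nat_lit 0, nat_lit 0), (nat_lit 1000, nat_lit 999, nat_lit 798)], (nat_lit 100, nat_lit 88, nat_lit 94)⟩
noncomputable def p126_k22 : C1.Kn := ⟨[nat_lit 20, nat_lit 80, nat_lit 140], [nat_lit 0, nat_lit 0, nat_lit 4928], [(nat_lit 0, nat_lit 0, nat_lit 0), (nat_lit 0, nat_lit 0, nat_lit 0), (nat_lit 950, nat_lit 618, nat_lit 1000)], (nat_lit 62, nat_lit 100, nat_lit 94)⟩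
noncomputable def p126_k23 : C1.Kn := ⟨[nat_lit 20, nat_lit 80, nat_lit 120], [nat_lit 0, nat_lit 508, nat_lit 3912], [(nat_lit 0, nat_lit 0, nat_lit 0), (nat_lit 1000, nat_lit 894, nat_lit 132), (nat_lit 1000, nat_lit 576, nat_lit 936)], (nat_lit 58, nat_lit 100, nat_lit 93)⟩
noncomputable def p126_k24 : C1.Kn := ⟨[nat_lit 20, nat_lit 80, nat_lit 120], [nat_lit 0, nat_lit 1046, nat_lit 4184], [(nat_lit 0, nat_lit 0, nat_lit 0), (nat_lit 1000, nat_lit 782, nat_lit 272), (nat_lit 1000, nat_lit 536, nat_lit 947)], (nat_lit 53, nat_lit 100, nat_lit 93)⟩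
noncomputable def p126_k25 : C1.Kn := ⟨[nat_lit 60, nat_lit 120, nat_lit 180], [nat_lit 0, nat_lit 453, nat_lit 5083], [(nat_lit 0, nat_lit 0, nat_lit 0), (nat_lit 1000, nat_lit 953, nat_lit 118), (nat_lit 831, nat_lit 971, nat_lit 1000)], (nat_lit 97, nat_lit 84, nat_lit 100)⟩
noncomputable def p126_k26 : C1.Kn := ⟨[nat_lit 20, nat_lit 60, nat_lit 140], [nat_lit 0, nat_lit 0, nat_lit 4874], [(nat_lit 0, nat_lit 0, nat_lit 0), (nat_lit 0, nat_lit 0, nat_lit 0), (nat_lit 1000, nat_lit 619, nat_lit 951)], (nat_lit 62, nat_lit 100, nat_lit 94)⟩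
noncomputable def p126_k27 : C1.Kn := ⟨[nat_lit 20, nat_lit 60, nat_lit 120], [nat_lit 0, nat_lit 698, nat_lit 4166], [(nat_lit 0, nat_lit 0, nat_lit 0), (nat_lit 1000, nat_lit 782, nat_lit 272), (nat_lit 1000, nat_lit 529, nat_lit 902)], (nat_lit 53, nat_lit 100, nat_lit 93)⟩
noncomputable def p126_k28 : C1.Kn := ⟨[nat_lit 20, nat_lit 80, nat_lit 100], [nat_lit 0, nat_lit 2121, nat_lit 3610], [(nat_lit 0, nat_lit 0, nat_lit 0), (nat_lit 1000, nat_lit 558, nat_lit 551), (nat_lit 1000, nat_lit 436, nat_lit 895)], (nat_lit 44, nat_lit 100, nat_lit 87)⟩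
noncomputable def p126_k29 : C1.Kn := ⟨[nat_lit 60, nat_lit 120, nat_lit 160], [nat_lit 0, nat_lit 0, nat_lit 3243], [(nat_lit 0, nat_lit 0, nat_lit 0), (nat_lit 0, nat_lit 0, nat_lit 0), (nat_lit 878, nat_lit 1000, nat_lit 945)], (nat_lit 100, nat_lit 88, nat_lit 94)⟩
noncomputable def p126_k30 : C1.Kn := ⟨[nat_lit 60, nat_lit 120, nat_lit 160], [nat_lit 0, nat_lit 913, nat_lit 3885], [(nat_lit 0, nat_lit 0, nat_lit 0), (nat_lit 1000, nat_lit 905, nat_lit 238), (nat_lit 886, nat_lit 948, nat_lit 1000)], (nat_lit 94, nat_lit 88, nat_lit 100)⟩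
noncomputable def p126_k31 : C1.Kn := ⟨[nat_lit 20, nat_lit 80, nat_lit 120], [nat_lit 0, nat_lit 0, nat_lit 3661], [(nat_lit 0, nat_lit 0, nat_lit 0), (nat_lit 0, nat_lit 0, nat_lit 0), (nat_lit 1000, nat_lit 611, nat_lit 913)], (nat_lit 60, nat_lit 100, nat_lit 87)⟩
noncomputable def p126_k32 : C1.Kn := ⟨[nat_lit 20, nat_lit 80], [nat_lit 0, nat_lit 0], [(nat_lit 0, nat_lit 0, nat_lit 0), (nat_lit 0, nat_lit 0, nat_lit 0)], (nat_lit 63, nat_lit 100, nat_lit 62)⟩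
noncomputable def p126_k33 : C1.Kn := ⟨[nat_lit 40, nat_lit 100], [nat_lit 0, nat_lit 0], [(nat_lit 0, nat_lit 0, nat_lit 0), (nat_lit 0, nat_lit 0, nat_lit 0)], (nat_lit 80, nat_lit 100, nat_lit 60)⟩
noncomputable def p126_k34 : C1.Kn := ⟨[nat_lit 20, nat_lit 60, nat_lit 80], [nat_lit 0, nat_lit 0, nat_lit 1613], [(nat_lit 0, nat_lit 0, nat_lit 0), (nat_lit 0, nat_lit 0, nat_lit 0), (nat_lit 1000, nat_lit 614, nat_lit 668)], (nat_lit 63, nat_lit 100, nat_lit 62)⟩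
noncomputable def p126_k35 : C1.Kn := ⟨[nat_lit 20, nat_lit 60], [nat_lit 0, nat_lit 0], [(nat_lit 0, nat_lit 0, nat_lit 0), (nat_lit 0, nat_lit 0, nat_lit 0)], (nat_lit 68, nat_lit 100, nat_lit 49)⟩
noncomputable def p126_k36 : C1.Kn := ⟨[nat_lit 40, nat_lit 80, nat_lit 100], [nat_lit 0, nat_lit 0, nat_lit 1280], [(nat_lit 0, nat_lit 0, nat_lit 0), (nat_lit 0, nat_lit 0, nat_lit 0), (nat_lit 1000, nat_lit 800, nat_lit 600)], (nat_lit 80, nat_lit 100, nat_lit 60)⟩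
noncomputable def p126_k37 : C1.Kn := ⟨[nat_lit 20, nat_lit 60], [nat_lit 0, nat_lit 1415], [(nat_lit 0, nat_lit 0, nat_lit 0), (nat_lit 1000, nat_lit 558, nat_lit 551)], (nat_lit 49, nat_lit 100, nat_lit 68)⟩
noncomputable def p126_k38 : C1.Kn := ⟨[nat_lit 40, nat_lit 80, nat_lit 100], [nat_lit 0, nat_lit 395, nat_lit 1536], [(nat_lit 0, nat_lit 0, nat_lit 0), (nat_lit 1000, nat_lit 908, nat_lit 154), (nat_lit 1000, nat_lit 760, nat_lit 642)], (nat_lit 76, nat_lit 100, nat_lit 60)⟩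
noncomputable def p126_k39 : C1.Kn := ⟨[nat_lit 40, nat_lit 80, nat_lit 100], [nat_lit 0, nat_lit 0, nat_lit 1280], [(nat_lit 0, nat_lit 0, nat_lit 0), (nat_lit 0, nat_lit 0, nat_lit 0), (nat_lit 1000, nat_lit 800, nat_lit 600)], (nat_lit 82, nat_lit 100, nat_lit 44)⟩
noncomputable def p126_k40 : C1.Kn := ⟨[nat_lit 20, nat_lit 40], [nat_lit 0, nat_lit 710], [(nat_lit 0, nat_lit 0, nat_lit 0), (nat_lit 1000, nat_lit 558, nat_lit 551)], (nat_lit 56, nat_lit 100, nat_lit 56)⟩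
noncomputable def p126_k41 : C1.Kn := ⟨[nat_lit 20, nat_lit 60, nat_lit 80], [nat_lit 0, nat_lit 698, nat_lit 2008], [(nat_lit 0, nat_lit 0, nat_lit 0), (nat_lit 1000, nat_lit 782, nat_lit 272), (nat_lit 1000, nat_lit 540, nat_lit 733)], (nat_lit 57, nat_lit 100, nat_lit 64)⟩
noncomputable def p126_k42 : C1.Kn := ⟨[nat_lit 40, nat_lit 80], [nat_lit 0, nat_lit 395], [(nat_lit 0, nat_lit 0, nat_lit 0), (nat_lit 1000, nat_lit 908, nat_lit 154)], (nat_lit 79, nat_lit 100, nat_lit 45)⟩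
noncomputable def p126_l0 : Lf2 := ⟨nat_lit 0, nat_lit 30, [nat_lit 15, nat_lit 5, nat_lit 5, nat_lit 20], false, nat_lit 32, nat_lit 160, nat_lit 0, nat_lit 160, ⟨nat_lit 1000, nat_lit 0, nat_lit 0, nat_lit 0, nat_lit 0, nat_lit 0, nat_lit 0, nat_lit 0, nat_lit 0, nat_lit 0, nat_lit 0, nat_lit 0, nat_lit 0, nat_lit 0, nat_lit 0, nat_lit 0, false, false⟩,
 nat_lit 0, nat_lit 0, nat_lit 10146, nat_lit 0, nat_lit 5334, nat_lit 6456, nat_lit 347, nat_lit 0, nat_lit 0, nat_lit 658, nat_lit 0, nat_lit 0, nat_lit 0, nat_lit 0, nat_lit 0, nat_lit 0, nat_lit 0, nat_lit 0, [],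
 ⟨p126_k0, nat_lit 0, nat_lit 0, nat_lit 175, nat_lit 0, nat_lit 0, [nat_lit 938000000, nat_lit 4688000000, nat_lit 7968000000], [], [nat_lit 28283065427, nat_lit 28699908003, nat_lit 35874692037, nat_lit 36262009823, nat_lit 25844628154, nat_lit 26195266490, nat_lit 31970124707, nat_lit 32312965451], nat_lit 0, nat_lit 0, nat_lit 0, nat_lit 0, nat_lit 0, nat_lit 0, [], [nat_lit 57, nat_lit 40, nat_lit 40, nat_lit 80, nat_lit 7, nat_lit 249, nat_lit 40, nat_lit 7]⟩, ⟨p126_k1, nat_lit 0, nat_lit 0, nat_lit 416, nat_lit 0, nat_lit 268528, [nat_lit 3282000000, nat_lit 7968000000, nat_lit 14058000000], [], [nat_lit 35831424456, nat_lit 36607285224, nat_lit 40344065013, nat_lit 40857376031, nat_lit 31264898600, nat_lit 31920081208, nat_lit 35458281184, nat_lit 36094490228], nat_lit 1271250, nat_lit 1271250, nat_lit 1271250, nat_lit 1271250, nat_lit 0, nat_lit 1100001, [nat_lit 780000, nat_lit 1762500, nat_lit 1271250],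 [nat_lit 84, nat_lit 40, nat_lit 40, nat_lit 80, nat_lit 28, nat_lit 456, nat_lit 225, nat_lit 10]⟩,
 zbF0, []⟩
noncomputable def p126_l1 : Lf2 := ⟨nat_lit 0, nat_lit 30, [nat_lit 15, nat_lit 5, nat_lit 5, nat_lit 20], false, nat_lit 32, nat_lit 160, nat_lit 160, nat_lit 336, ⟨nat_lit 1000, nat_lit 0, nat_lit 0, nat_lit 0, nat_lit 0, nat_lit 0, nat_lit 0, nat_lit 0, nat_lit 0, nat_lit 0, nat_lit 0, nat_lit 0, nat_lit 0, nat_lit 0, nat_lit 0, nat_lit 0, false, false⟩,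
 nat_lit 0, nat_lit 0, nat_lit 7926, nat_lit 0, nat_lit 6748, nat_lit 5043, nat_lit 85, nat_lit 0, nat_lit 0, nat_lit 650, nat_lit 0, nat_lit 0, nat_lit 0, nat_lit 0, nat_lit 0, nat_lit 0, nat_lit 0, nat_lit 0, [],
 ⟨p126_k0, nat_lit 0, nat_lit 0, nat_lit 175, nat_lit 0, nat_lit 0, [nat_lit 938000000, nat_lit 4688000000, nat_lit 7968000000], [], [nat_lit 32816119120, nat_lit 33281038790, nat_lit 39408354732, nat_lit 39853065194, nat_lit 29133773038, nat_lit 29536028030, nat_lit 34717772702, nat_lit 35008467044], nat_lit 0, nat_lit 0, nat_lit 0, nat_lit 0, nat_lit 0, nat_lit 0, [], [nat_lit 57, nat_lit 40, nat_lit 40, nat_lit 80, nat_lit 7, nat_lit 249, nat_lit 40, nat_lit 7]⟩, ⟨p126_k1, nat_lit 0, nat_lit 0, nat_lit 256, nat_lit 0, nat_lit 268528, [nat_lit 3282000000, nat_lit 7968000000, nat_lit 14058000000], [], [nat_lit 27960018548, nat_lit 28715097408, nat_lit 32486089399, nat_lit 33068083309, nat_lit 31883996426,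 nat_lit 32438650893, nat_lit 35890157674, nat_lit 36430253074], nat_lit 1271250, nat_lit 1271250, nat_lit 1271250, nat_lit 1271250, nat_lit 1100001, nat_lit 2607000, [nat_lit 780000, nat_lit 1762500, nat_lit 1271250], [nat_lit 84, nat_lit 40, nat_lit 40, nat_lit 80, nat_lit 28, nat_lit 538, nat_lit 300, nat_lit 12]⟩,
 zbF0, [⟨nat_lit 7, nat_lit 90, nat_lit 100, nat_lit 100, nat_lit 323939237⟩]⟩
noncomputable def p126_l2 : Lf2 := ⟨nat_lit 0, nat_lit 30, [nat_lit 15, nat_lit 5, nat_lit 5, nat_lit 20], false, nat_lit 40, nat_lit 160, nat_lit 0, nat_lit 160, ⟨nat_lit 1000, nat_lit 0, nat_lit 0, nat_lit 0, nat_lit 0, nat_lit 0, nat_lit 0, nat_lit 0, nat_lit 0, nat_lit 0, nat_lit 0, nat_lit 0, nat_lit 0, nat_lit 0, nat_lit 0, nat_lit 0, false, false⟩,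
 nat_lit 0, nat_lit 0, nat_lit 11369, nat_lit 0, nat_lit 6216, nat_lit 7234, nat_lit 0, nat_lit 0, nat_lit 0, nat_lit 1006, nat_lit 0, nat_lit 0, nat_lit 0, nat_lit 0, nat_lit 0, nat_lit 0, nat_lit 0, nat_lit 0, [],
 ⟨p126_k2, nat_lit 0, nat_lit 0, nat_lit 145, nat_lit 0, nat_lit 0, [nat_lit 938000000, nat_lit 3282000000, nat_lit 6250000000], [], [nat_lit 31063932596, nat_lit 31539769160, nat_lit 37303333452, nat_lit 37735919176, nat_lit 28347769388, nat_lit 28761727464, nat_lit 33678924972, nat_lit 33986331176], nat_lit 0, nat_lit 0, nat_lit 0, nat_lit 0, nat_lit 0, nat_lit 0, [], [nat_lit 20, nat_lit 40, nat_lit 40, nat_lit 80, nat_lit 16, nat_lit 249, nat_lit 40, nat_lit 8]⟩, ⟨p126_k3, nat_lit 0, nat_lit 0, nat_lit 431, nat_lit 0, nat_lit 338090, [nat_lit 3282000000, nat_lit 6250000000, nat_lit 14058000000], [], [nat_lit 31014039780, nat_lit 31701628096, nat_lit 35435781752, nat_lit 36192177060, nat_lit 26218556468,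 nat_lit 26854281128, nat_lit 30781136144, nat_lit 31407745460], nat_lit 1271250, nat_lit 1271250, nat_lit 1271250, nat_lit 1271250, nat_lit 0, nat_lit 1100001, [nat_lit 780000, nat_lit 1435000, nat_lit 1271250], [nat_lit 71, nat_lit 40, nat_lit 40, nat_lit 80, nat_lit 68, nat_lit 456, nat_lit 225, nat_lit 10]⟩,
 zbF0, []⟩
noncomputable def p126_l3 : Lf2 := ⟨nat_lit 0, nat_lit 30, [nat_lit 15, nat_lit 5, nat_lit 5, nat_lit 20], false, nat_lit 40, nat_lit 160, nat_lit 160, nat_lit 336, ⟨nat_lit 1000, nat_lit 0, nat_lit 0, nat_lit 0, nat_lit 0, nat_lit 0, nat_lit 0, nat_lit 0, nat_lit 0, nat_lit 0, nat_lit 0, nat_lit 0, nat_lit 0, nat_lit 0, nat_lit 0, nat_lit 0, false, false⟩,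
 nat_lit 0, nat_lit 0, nat_lit 7887, nat_lit 0, nat_lit 6517, nat_lit 5019, nat_lit 0, nat_lit 0, nat_lit 0, nat_lit 962, nat_lit 0, nat_lit 0, nat_lit 0, nat_lit 0, nat_lit 0, nat_lit 0, nat_lit 0, nat_lit 0, [],
 ⟨p126_k2, nat_lit 0, nat_lit 0, nat_lit 144, nat_lit 0, nat_lit 0, [nat_lit 938000000, nat_lit 3282000000, nat_lit 6250000000], [], [nat_lit 31171886171, nat_lit 31662297983, nat_lit 37424199883, nat_lit 37881285693, nat_lit 28218495306, nat_lit 28644669768, nat_lit 33232145963, nat_lit 33554963667], nat_lit 0, nat_lit 0, nat_lit 0, nat_lit 0, nat_lit 0, nat_lit 0, [], [nat_lit 20, nat_lit 40, nat_lit 40, nat_lit 80, nat_lit 16, nat_lit 249, nat_lit 40, nat_lit 8]⟩, ⟨p126_k3, nat_lit 0, nat_lit 0, nat_lit 247, nat_lit 0, nat_lit 277909, [nat_lit 3282000000, nat_lit 6250000000, nat_lit 14058000000], [], [nat_lit 25441850184, nat_lit 25818789374, nat_lit 29221437608, nat_lit 29520756853, nat_lit 29365718065,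 nat_lit 29620941920, nat_lit 33040230806, nat_lit 33322516569], nat_lit 1271250, nat_lit 1271250, nat_lit 1271250, nat_lit 1271250, nat_lit 1100001, nat_lit 2607000, [nat_lit 780000, nat_lit 1435000, nat_lit 1271250], [nat_lit 71, nat_lit 40, nat_lit 40, nat_lit 80, nat_lit 68, nat_lit 483, nat_lit 250, nat_lit 10]⟩,
 zbF0, [⟨nat_lit 7, nat_lit 87, nat_lit 100, nat_lit 99, nat_lit 339767840⟩]⟩
noncomputable def p126_l4 : Lf2 := ⟨nat_lit 0, nat_lit 30, [nat_lit 15, nat_lit 5, nat_lit 5, nat_lit 20], false, nat_lit 40, nat_lit 160, nat_lit 160, nat_lit 328, ⟨nat_lit 1000, nat_lit 0, nat_lit 0, nat_lit 0, nat_lit 0, nat_lit 0, nat_lit 0, nat_lit 0, nat_lit 0, nat_lit 0, nat_lit 0, nat_lit 0, nat_lit 0, nat_lit 0, nat_lit 0, nat_lit 0, false, false⟩,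
 nat_lit 0, nat_lit 0, nat_lit 9932, nat_lit 0, nat_lit 6301, nat_lit 6595, nat_lit 0, nat_lit 0, nat_lit 0, nat_lit 947, nat_lit 0, nat_lit 0, nat_lit 0, nat_lit 0, nat_lit 0, nat_lit 0, nat_lit 0, nat_lit 0, [],
 ⟨p126_k2, nat_lit 0, nat_lit 0, nat_lit 145, nat_lit 0, nat_lit 0, [nat_lit 938000000, nat_lit 3282000000, nat_lit 6250000000], [], [nat_lit 31094417825, nat_lit 31574370323, nat_lit 37505073260, nat_lit 37941220611, nat_lit 28311263418, nat_lit 28728671304, nat_lit 33671737542, nat_lit 33981395736], nat_lit 0, nat_lit 0, nat_lit 0, nat_lit 0, nat_lit 0, nat_lit 0, [], [nat_lit 20, nat_lit 40, nat_lit 40, nat_lit 80, nat_lit 16, nat_lit 249, nat_lit 40, nat_lit 8]⟩, ⟨p126_k4, nat_lit 0, nat_lit 0, nat_lit 261, nat_lit 0, nat_lit 317468, [nat_lit 3282000000, nat_lit 6250000000, nat_lit 14058000000], [], [nat_lit 25271275740, nat_lit 25632524595, nat_lit 29042086415, nat_lit 29359903835, nat_lit 28137165278,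 nat_lit 28370475199, nat_lit 32193148508, nat_lit 32608826296], nat_lit 1271250, nat_lit 1271250, nat_lit 1271250, nat_lit 1271250, nat_lit 1100001, nat_lit 2538500, [nat_lit 780000, nat_lit 1435000, nat_lit 1271250], [nat_lit 71, nat_lit 40, nat_lit 40, nat_lit 80, nat_lit 68, nat_lit 483, nat_lit 250, nat_lit 10]⟩,
 zbF0, [⟨nat_lit 7, nat_lit 92, nat_lit 99, nat_lit 100, nat_lit 311043956⟩]⟩
noncomputable def p126_l5 : Lf2 := ⟨nat_lit 1, nat_lit 30, [nat_lit 15, nat_lit 5, nat_lit 5, nat_lit 20], false, nat_lit 32, nat_lit 160, nat_lit 0, nat_lit 336, zbN0,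
 nat_lit 0, nat_lit 0, nat_lit 0, nat_lit 0, nat_lit 0, nat_lit 0, nat_lit 0, nat_lit 0, nat_lit 0, nat_lit 0, nat_lit 0, nat_lit 0, nat_lit 0, nat_lit 0, nat_lit 0, nat_lit 0, nat_lit 0, nat_lit 0, [],
 C1.Rw.none, C1.Rw.none,
 zbF0, []⟩
noncomputable def p126_l6 : Lf2 := ⟨nat_lit 0, nat_lit 30, [nat_lit 15, nat_lit 5, nat_lit 5, nat_lit 20], false, nat_lit 48, nat_lit 160, nat_lit 0, nat_lit 160, ⟨nat_lit 1000, nat_lit 0, nat_lit 0, nat_lit 0, nat_lit 0, nat_lit 0, nat_lit 0, nat_lit 0, nat_lit 0, nat_lit 0, nat_lit 0, nat_lit 0, nat_lit 0, nat_lit 0, nat_lit 0, nat_lit 0, false, false⟩,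
 nat_lit 0, nat_lit 0, nat_lit 10852, nat_lit 0, nat_lit 3299, nat_lit 6905, nat_lit 334, nat_lit 0, nat_lit 0, nat_lit 908, nat_lit 0, nat_lit 0, nat_lit 0, nat_lit 0, nat_lit 0, nat_lit 0, nat_lit 0, nat_lit 0, [],
 ⟨p126_k5, nat_lit 0, nat_lit 0, nat_lit 142, nat_lit 0, nat_lit 0, [nat_lit 938000000, nat_lit 3282000000, nat_lit 6250000000], [], [nat_lit 25760627348, nat_lit 26426140662, nat_lit 30126556787, nat_lit 30650877471, nat_lit 25516649823, nat_lit 26068262882, nat_lit 29418838253, nat_lit 29887860810], nat_lit 0, nat_lit 0, nat_lit 0, nat_lit 0, nat_lit 0, nat_lit 0, [], [nat_lit 20, nat_lit 40, nat_lit 40, nat_lit 80, nat_lit 16, nat_lit 249, nat_lit 40, nat_lit 8]⟩, ⟨p126_k3, nat_lit 0, nat_lit 0, nat_lit 545, nat_lit 0, nat_lit 485673, [nat_lit 3282000000, nat_lit 6250000000, nat_lit 14058000000], [], [nat_lit 32870355960, nat_lit 33530436070, nat_lit 36171466637, nat_lit 36644875638, nat_lit 28385820560,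 nat_lit 28948381380, nat_lit 31319279173, nat_lit 31955483745], nat_lit 1271250, nat_lit 1271250, nat_lit 1271250, nat_lit 1271250, nat_lit 0, nat_lit 1100001, [nat_lit 780000, nat_lit 1435000, nat_lit 1271250], [nat_lit 71, nat_lit 40, nat_lit 40, nat_lit 80, nat_lit 68, nat_lit 456, nat_lit 225, nat_lit 10]⟩,
 zbF0, [⟨nat_lit 0, nat_lit 92, nat_lit 23, nat_lit 100, nat_lit 458886424⟩, ⟨nat_lit 4, nat_lit 100, nat_lit 23, nat_lit 92, nat_lit 586987367⟩]⟩
noncomputable def p126_l7 : Lf2 := ⟨nat_lit 0, nat_lit 30, [nat_lit 15, nat_lit 5, nat_lit 5, nat_lit 20], false, nat_lit 48, nat_lit 80, nat_lit 160, nat_lit 336, ⟨nat_lit 249, nat_lit 260, nat_lit 491, nat_lit 7, nat_lit 272, nat_lit 751, nat_lit 64, nat_lit 491, nat_lit 38400, nat_lit 263, nat_lit 156460, nat_lit 200, nat_lit 44073059, nat_lit 20751715, nat_lit 2175226, nat_lit 3907502, true, false⟩,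
 nat_lit 0, nat_lit 0, nat_lit 2792, nat_lit 0, nat_lit 2820, nat_lit 1776, nat_lit 30, nat_lit 0, nat_lit 0, nat_lit 222, nat_lit 0, nat_lit 0, nat_lit 0, nat_lit 0, nat_lit 0, nat_lit 187750, nat_lit 0, nat_lit 0, [(nat_lit 29, [(nat_lit 0, nat_lit 260), (nat_lit 4, nat_lit 491)])],
 ⟨p126_k5, nat_lit 0, nat_lit 0, nat_lit 129, nat_lit 0, nat_lit 0, [nat_lit 810723601, nat_lit 591827734, nat_lit 733312000], [], [nat_lit 24113754918, nat_lit 24742944768, nat_lit 25548047377, nat_lit 26250342464, nat_lit 23621627732, nat_lit 24201231152, nat_lit 24913281950, nat_lit 25485391360], nat_lit 0, nat_lit 0, nat_lit 0, nat_lit 0, nat_lit 0, nat_lit 0, [], [nat_lit 20, nat_lit 40, nat_lit 40, nat_lit 80, nat_lit 16, nat_lit 226, nat_lit 20, nat_lit 7]⟩, ⟨p126_k3, nat_lit 0, nat_lit 0, nat_lit 370, nat_lit 0, nat_lit 428982, [nat_lit 817218000, nat_lit 1556250000, nat_lit 3500442000], [], [nat_lit 6683581044, nat_lit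 6739846569, nat_lit 6817777344, nat_lit 6874958805, nat_lit 7337708593, nat_lit 7394403470, nat_lit 7474613741, nat_lit 7524581495], nat_lit 1271250, nat_lit 1271250, nat_lit 1271250, nat_lit 1271250, nat_lit 1100001, nat_lit 2607000, [nat_lit 780000, nat_lit 1435000, nat_lit 1271250], [nat_lit 71, nat_lit 40, nat_lit 40, nat_lit 80, nat_lit 68, nat_lit 483, nat_lit 250, nat_lit 10]⟩,
 ⟨nat_lit 0, nat_lit 1582, ⟨.ofNat (nat_lit 646579), .ofNat (nat_lit 702515), .ofNat (nat_lit 657909), .ofNat (nat_lit 713855), .ofNat (nat_lit 648683), .ofNat (nat_lit 699984), .ofNat (nat_lit 660855), .ofNat (nat_lit 712166)⟩, ⟨.ofNat (nat_lit 120000), .ofNat (nat_lit 200000), .ofNat (nat_lit 120000), .ofNat (nat_lit 200000), .ofNat (nat_lit 120000), .ofNat (nat_lit 200000), .ofNat (nat_lit 120000), .ofNat (nat_lit 200000)⟩⟩, [⟨nat_lit 3, nat_lit 100, nat_lit 25, nat_lit 86, nat_lit 350449169⟩, ⟨nat_lit 22, nat_lit 100, nat_lit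 91, nat_lit 77, nat_lit 97781295⟩]⟩
noncomputable def p126_l8 : Lf2 := ⟨nat_lit 0, nat_lit 30, [nat_lit 15, nat_lit 5, nat_lit 5, nat_lit 20], false, nat_lit 48, nat_lit 80, nat_lit 160, nat_lit 300, ⟨nat_lit 1000, nat_lit 0, nat_lit 0, nat_lit 0, nat_lit 0, nat_lit 0, nat_lit 0, nat_lit 0, nat_lit 0, nat_lit 0, nat_lit 0, nat_lit 0, nat_lit 0, nat_lit 0, nat_lit 0, nat_lit 0, false, false⟩,
 nat_lit 0, nat_lit 0, nat_lit 11552, nat_lit 0, nat_lit 3163, nat_lit 7351, nat_lit 409, nat_lit 0, nat_lit 0, nat_lit 936, nat_lit 0, nat_lit 0, nat_lit 0, nat_lit 0, nat_lit 0, nat_lit 0, nat_lit 0, nat_lit 0, [],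
 ⟨p126_k5, nat_lit 0, nat_lit 0, nat_lit 141, nat_lit 0, nat_lit 0, [nat_lit 938000000, nat_lit 3282000000, nat_lit 6250000000], [], [nat_lit 26188670809, nat_lit 26929988458, nat_lit 29297541502, nat_lit 29931238690, nat_lit 25473565924, nat_lit 26026002365, nat_lit 28363350124, nat_lit 28986374185], nat_lit 0, nat_lit 0, nat_lit 0, nat_lit 0, nat_lit 0, nat_lit 0, [], [nat_lit 20, nat_lit 40, nat_lit 40, nat_lit 80, nat_lit 16, nat_lit 226, nat_lit 20, nat_lit 7]⟩, ⟨p126_k3, nat_lit 0, nat_lit 0, nat_lit 367, nat_lit 0, nat_lit 428982, [nat_lit 3282000000, nat_lit 6250000000, nat_lit 14058000000], [], [nat_lit 26343814324, nat_lit 26679484424, nat_lit 28643597877, nat_lit 28912579490, nat_lit 28098937217, nat_lit 28330760267, nat_lit 30535616263, nat_lit 30843013531], nat_lit 1271250, nat_lit 1271250, nat_lit 1271250, nat_lit 1271250, nat_lit 1100001, nat_lit 2298750, [nat_lit 780000, nat_lit 1435000, nat_lit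 1271250], [nat_lit 71, nat_lit 40, nat_lit 40, nat_lit 80, nat_lit 68, nat_lit 483, nat_lit 250, nat_lit 10]⟩,
 zbF0, [⟨nat_lit 3, nat_lit 100, nat_lit 25, nat_lit 86, nat_lit 2525084477⟩, ⟨nat_lit 22, nat_lit 100, nat_lit 95, nat_lit 87, nat_lit 320172341⟩]⟩
noncomputable def p126_l9 : Lf2 := ⟨nat_lit 0, nat_lit 30, [nat_lit 15, nat_lit 5, nat_lit 5, nat_lit 20], false, nat_lit 48, nat_lit 80, nat_lit 160, nat_lit 328, ⟨nat_lit 1000, nat_lit 0, nat_lit 0, nat_lit 0, nat_lit 0, nat_lit 0, nat_lit 0, nat_lit 0, nat_lit 0, nat_lit 0, nat_lit 0, nat_lit 0, nat_lit 0, nat_lit 0, nat_lit 0, nat_lit 0, false, false⟩,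
 nat_lit 0, nat_lit 0, nat_lit 8342, nat_lit 0, nat_lit 3196, nat_lit 5540, nat_lit 364, nat_lit 0, nat_lit 0, nat_lit 914, nat_lit 0, nat_lit 0, nat_lit 0, nat_lit 0, nat_lit 0, nat_lit 0, nat_lit 0, nat_lit 0, [],
 ⟨p126_k5, nat_lit 0, nat_lit 0, nat_lit 142, nat_lit 0, nat_lit 0, [nat_lit 938000000, nat_lit 3282000000, nat_lit 6250000000], [], [nat_lit 25330602891, nat_lit 25986211148, nat_lit 29786129775, nat_lit 30409265724, nat_lit 24723927472, nat_lit 25321928092, nat_lit 28943925535, nat_lit 29449542659], nat_lit 0, nat_lit 0, nat_lit 0, nat_lit 0, nat_lit 0, nat_lit 0, [], [nat_lit 20, nat_lit 40, nat_lit 40, nat_lit 80, nat_lit 16, nat_lit 226, nat_lit 20, nat_lit 7]⟩, ⟨p126_k4, nat_lit 0, nat_lit 0, nat_lit 379, nat_lit 0, nat_lit 455984, [nat_lit 3282000000, nat_lit 6250000000, nat_lit 14058000000], [], [nat_lit 27830662340, nat_lit 28082566870, nat_lit 30827124658, nat_lit 31077354566, nat_lit 30485957980,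 nat_lit 30720884257, nat_lit 33470204203, nat_lit 33702661823], nat_lit 1271250, nat_lit 1271250, nat_lit 1271250, nat_lit 1271250, nat_lit 1100001, nat_lit 2538500, [nat_lit 780000, nat_lit 1435000, nat_lit 1271250], [nat_lit 71, nat_lit 40, nat_lit 40, nat_lit 80, nat_lit 68, nat_lit 483, nat_lit 250, nat_lit 10]⟩,
 zbF0, [⟨nat_lit 0, nat_lit 91, nat_lit 23, nat_lit 100, nat_lit 404407883⟩, ⟨nat_lit 3, nat_lit 100, nat_lit 25, nat_lit 86, nat_lit 1321238805⟩, ⟨nat_lit 7, nat_lit 92, nat_lit 99, nat_lit 100, nat_lit 307512316⟩]⟩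
noncomputable def p126_l10 : Lf2 := ⟨nat_lit 0, nat_lit 30, [nat_lit 15, nat_lit 5, nat_lit 5, nat_lit 20], false, nat_lit 80, nat_lit 160, nat_lit 160, nat_lit 336, ⟨nat_lit 1000, nat_lit 0, nat_lit 0, nat_lit 0, nat_lit 0, nat_lit 0, nat_lit 0, nat_lit 0, nat_lit 0, nat_lit 0, nat_lit 0, nat_lit 0, nat_lit 0, nat_lit 0, nat_lit 0, nat_lit 0, false, false⟩,
 nat_lit 0, nat_lit 0, nat_lit 7887, nat_lit 0, nat_lit 7189, nat_lit 5019, nat_lit 0, nat_lit 0, nat_lit 0, nat_lit 603, nat_lit 0, nat_lit 0, nat_lit 0, nat_lit 0, nat_lit 0, nat_lit 0, nat_lit 0, nat_lit 0, [],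
 ⟨p126_k6, nat_lit 0, nat_lit 0, nat_lit 108, nat_lit 0, nat_lit 0, [nat_lit 938000000, nat_lit 4688000000, nat_lit 6250000000], [], [nat_lit 29391410858, nat_lit 29898597005, nat_lit 31117795698, nat_lit 31705149385, nat_lit 28383331656, nat_lit 28836779910, nat_lit 29891229752, nat_lit 30305029924], nat_lit 0, nat_lit 0, nat_lit 0, nat_lit 0, nat_lit 0, nat_lit 0, [], [nat_lit 55, nat_lit 40, nat_lit 40, nat_lit 80, nat_lit 3, nat_lit 249, nat_lit 40, nat_lit 8]⟩, ⟨p126_k1, nat_lit 0, nat_lit 0, nat_lit 272, nat_lit 0, nat_lit 353925, [nat_lit 3282000000, nat_lit 7968000000, nat_lit 14058000000], [], [nat_lit 28699950184, nat_lit 29076889374, nat_lit 29853019312, nat_lit 30196724761, nat_lit 32623818065, nat_lit 32877443100, nat_lit 33516946012, nat_lit 33804461598], nat_lit 1271250, nat_lit 1271250, nat_lit 1271250, nat_lit 1271250, nat_lit 1100001, nat_lit 2607000, [nat_lit 780000, nat_lit 1762500, nat_lit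 1271250], [nat_lit 84, nat_lit 40, nat_lit 40, nat_lit 80, nat_lit 28, nat_lit 483, nat_lit 250, nat_lit 10]⟩,
 zbF0, [⟨nat_lit 0, nat_lit 92, nat_lit 23, nat_lit 100, nat_lit 382617608⟩, ⟨nat_lit 4, nat_lit 100, nat_lit 28, nat_lit 91, nat_lit 390989704⟩, ⟨nat_lit 19, nat_lit 100, nat_lit 87, nat_lit 99, nat_lit 334369155⟩]⟩
noncomputable def p126_l11 : Lf2 := ⟨nat_lit 0, nat_lit 30, [nat_lit 15, nat_lit 5, nat_lit 5, nat_lit 20], false, nat_lit 80, nat_lit 120, nat_lit 160, nat_lit 336, ⟨nat_lit 213, nat_lit 787, nat_lit 0, nat_lit 7, nat_lit 272, nat_lit 787, nat_lit 97, nat_lit 0, nat_lit 0, nat_lit 0, nat_lit 0, nat_lit 0, nat_lit 42622739, nat_lit 20335065, nat_lit 4042196, nat_lit 4329773, true, false⟩,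
 nat_lit 0, nat_lit 0, nat_lit 2830, nat_lit 0, nat_lit 2751, nat_lit 1800, nat_lit 163, nat_lit 0, nat_lit 0, nat_lit 127, nat_lit 0, nat_lit 0, nat_lit 0, nat_lit 0, nat_lit 0, nat_lit 196750, nat_lit 0, nat_lit 0, [(nat_lit 29, [(nat_lit 0, nat_lit 787)])],
 ⟨p126_k7, nat_lit 0, nat_lit 0, nat_lit 110, nat_lit 0, nat_lit 0, [nat_lit 814913201, nat_lit 2081770801, nat_lit 2737146800], [], [nat_lit 23772830970, nat_lit 24072660443, nat_lit 25064180352, nat_lit 25377886048, nat_lit 24077815412, nat_lit 24358294148, nat_lit 25305988957, nat_lit 25570822868], nat_lit 0, nat_lit 0, nat_lit 0, nat_lit 0, nat_lit 0, nat_lit 0, [], [nat_lit 55, nat_lit 40, nat_lit 40, nat_lit 80, nat_lit 3, nat_lit 238, nat_lit 30, nat_lit 7]⟩, ⟨p126_k1, nat_lit 0, nat_lit 0, nat_lit 371, nat_lit 0, nat_lit 428982, [nat_lit 699066000, nat_lit 1697184000, nat_lit 2994354000], [], [nat_lit 6314170324, nat_lit 6362849701, nat_lit 6418560496,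 nat_lit 6460655464, nat_lit 6689223685, nat_lit 6732650836, nat_lit 6777078642, nat_lit 6816154843], nat_lit 1271250, nat_lit 1271250, nat_lit 1271250, nat_lit 1271250, nat_lit 1100001, nat_lit 2607000, [nat_lit 780000, nat_lit 1762500, nat_lit 1271250], [nat_lit 84, nat_lit 40, nat_lit 40, nat_lit 80, nat_lit 28, nat_lit 483, nat_lit 250, nat_lit 10]⟩,
 ⟨nat_lit 0, nat_lit 1119, ⟨.ofNat (nat_lit 647199), .ofNat (nat_lit 701253), .ofNat (nat_lit 658842), .ofNat (nat_lit 712899), .ofNat (nat_lit 649068), .ofNat (nat_lit 699996), .ofNat (nat_lit 661336), .ofNat (nat_lit 712266)⟩, ⟨.ofNat (nat_lit 200000), .ofNat (nat_lit 274990), .ofNat (nat_lit 200000), .ofNat (nat_lit 298741), .ofNat (nat_lit 200000), .ofNat (nat_lit 274999), .ofNat (nat_lit 200000), .ofNat (nat_lit 299999)⟩⟩, [⟨nat_lit 7, nat_lit 87, nat_lit 100, nat_lit 99, nat_lit 59407047⟩]⟩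
noncomputable def p126_l12 : Lf2 := ⟨nat_lit 0, nat_lit 30, [nat_lit 15, nat_lit 5, nat_lit 5, nat_lit 20], false, nat_lit 120, nat_lit 160, nat_lit 160, nat_lit 336, ⟨nat_lit 251, nat_lit 749, nat_lit 0, nat_lit 7, nat_lit 272, nat_lit 749, nat_lit 125, nat_lit 0, nat_lit 0, nat_lit 0, nat_lit 0, nat_lit 0, nat_lit 41269200, nat_lit 19912132, nat_lit 5818668, nat_lit 4644765, true, false⟩,
 nat_lit 0, nat_lit 0, nat_lit 3327, nat_lit 0, nat_lit 2763, nat_lit 2116, nat_lit 172, nat_lit 0, nat_lit 0, nat_lit 150, nat_lit 0, nat_lit 0, nat_lit 0, nat_lit 0, nat_lit 0, nat_lit 187250, nat_lit 0, nat_lit 0, [(nat_lit 29, [(nat_lit 0, nat_lit 749)])],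
 ⟨p126_k7, nat_lit 0, nat_lit 0, nat_lit 87, nat_lit 0, nat_lit 0, [nat_lit 820856400, nat_lit 2207611600, nat_lit 2906763600], [], [nat_lit 24106393468, nat_lit 24387382036, nat_lit 25335433794, nat_lit 25596700178, nat_lit 24412855534, nat_lit 24680878404, nat_lit 25591763205, nat_lit 25841318624], nat_lit 0, nat_lit 0, nat_lit 0, nat_lit 0, nat_lit 0, nat_lit 0, [], [nat_lit 55, nat_lit 40, nat_lit 40, nat_lit 80, nat_lit 3, nat_lit 249, nat_lit 40, nat_lit 8]⟩, ⟨p126_k1, nat_lit 0, nat_lit 0, nat_lit 371, nat_lit 0, nat_lit 428982, [nat_lit 823782000, nat_lit 1999968000, nat_lit 3528558000], [], [nat_lit 7438598420, nat_lit 7495952363, nat_lit 7561802168, nat_lit 7611412440, nat_lit 7886923036, nat_lit 7938099245, nat_lit 7990676265, nat_lit 8038780594], nat_lit 1271250, nat_lit 1271250, nat_lit 1271250, nat_lit 1271250, nat_lit 1100001, nat_lit 2607000, [nat_lit 780000, nat_lit 1762500, nat_lit 1271250],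 [nat_lit 84, nat_lit 40, nat_lit 40, nat_lit 80, nat_lit 28, nat_lit 483, nat_lit 250, nat_lit 10]⟩,
 ⟨nat_lit 0, nat_lit 1119, ⟨.ofNat (nat_lit 647199), .ofNat (nat_lit 701253), .ofNat (nat_lit 658842), .ofNat (nat_lit 712899), .ofNat (nat_lit 649068), .ofNat (nat_lit 699996), .ofNat (nat_lit 661336), .ofNat (nat_lit 712266)⟩, ⟨.ofNat (nat_lit 274990), .ofNat (nat_lit 328114), .ofNat (nat_lit 298741), .ofNat (nat_lit 351866), .ofNat (nat_lit 274999), .ofNat (nat_lit 324996), .ofNat (nat_lit 299999), .ofNat (nat_lit 349997)⟩⟩, [⟨nat_lit 4, nat_lit 100, nat_lit 17, nat_lit 94, nat_lit 556074191⟩, ⟨nat_lit 19, nat_lit 100, nat_lit 87, nat_lit 99, nat_lit 69823082⟩]⟩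
noncomputable def p126_l13 : Lf2 := ⟨nat_lit 0, nat_lit 30, [nat_lit 15, nat_lit 5, nat_lit 5, nat_lit 20], false, nat_lit 80, nat_lit 160, nat_lit 160, nat_lit 336, ⟨nat_lit 1000, nat_lit 0, nat_lit 0, nat_lit 0, nat_lit 0, nat_lit 0, nat_lit 0, nat_lit 0, nat_lit 0, nat_lit 0, nat_lit 0, nat_lit 0, nat_lit 0, nat_lit 0, nat_lit 0, nat_lit 0, false, false⟩,
 nat_lit 0, nat_lit 0, nat_lit 7806, nat_lit 0, nat_lit 6545, nat_lit 4967, nat_lit 0, nat_lit 0, nat_lit 0, nat_lit 859, nat_lit 0, nat_lit 0, nat_lit 0, nat_lit 0, nat_lit 0, nat_lit 0, nat_lit 0, nat_lit 0, [],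
 ⟨p126_k5, nat_lit 0, nat_lit 0, nat_lit 119, nat_lit 0, nat_lit 0, [nat_lit 938000000, nat_lit 3282000000, nat_lit 6250000000], [], [nat_lit 31052400950, nat_lit 31487697715, nat_lit 34208308633, nat_lit 34580029802, nat_lit 30098489560, nat_lit 30489139220, nat_lit 32930385845, nat_lit 33265166908], nat_lit 0, nat_lit 0, nat_lit 0, nat_lit 0, nat_lit 0, nat_lit 0, [], [nat_lit 20, nat_lit 40, nat_lit 40, nat_lit 80, nat_lit 16, nat_lit 249, nat_lit 40, nat_lit 8]⟩, ⟨p126_k3, nat_lit 0, nat_lit 0, nat_lit 259, nat_lit 0, nat_lit 323482, [nat_lit 3282000000, nat_lit 6250000000, nat_lit 14058000000], [], [nat_lit 27986208366, nat_lit 28157541845, nat_lit 30136240810, nat_lit 30281657000, nat_lit 31485657164, nat_lit 31600838131, nat_lit 33225245628, nat_lit 33357608183], nat_lit 1271250, nat_lit 1271250, nat_lit 1271250, nat_lit 1271250, nat_lit 1100001, nat_lit 2607000, [nat_lit 780000, nat_lit 1435000, nat_lit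 1271250], [nat_lit 71, nat_lit 40, nat_lit 40, nat_lit 80, nat_lit 68, nat_lit 483, nat_lit 250, nat_lit 10]⟩,
 zbF0, [⟨nat_lit 4, nat_lit 100, nat_lit 28, nat_lit 91, nat_lit 406486442⟩, ⟨nat_lit 19, nat_lit 100, nat_lit 85, nat_lit 98, nat_lit 322246352⟩]⟩
noncomputable def p126_l14 : Lf2 := ⟨nat_lit 0, nat_lit 30, [nat_lit 15, nat_lit 5, nat_lit 5, nat_lit 20], false, nat_lit 80, nat_lit 160, nat_lit 160, nat_lit 332, ⟨nat_lit 1000, nat_lit 0, nat_lit 0, nat_lit 0, nat_lit 0, nat_lit 0, nat_lit 0, nat_lit 0, nat_lit 0, nat_lit 0, nat_lit 0, nat_lit 0, nat_lit 0, nat_lit 0, nat_lit 0, nat_lit 0, false, false⟩,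
 nat_lit 0, nat_lit 0, nat_lit 10513, nat_lit 0, nat_lit 6509, nat_lit 6835, nat_lit 0, nat_lit 0, nat_lit 0, nat_lit 902, nat_lit 0, nat_lit 0, nat_lit 0, nat_lit 0, nat_lit 0, nat_lit 0, nat_lit 0, nat_lit 0, [],
 ⟨p126_k5, nat_lit 0, nat_lit 0, nat_lit 120, nat_lit 0, nat_lit 0, [nat_lit 938000000, nat_lit 3282000000, nat_lit 6250000000], [], [nat_lit 31050222590, nat_lit 31484028343, nat_lit 34427786786, nat_lit 34794088387, nat_lit 30110075512, nat_lit 30499431044, nat_lit 33142021741, nat_lit 33472049140], nat_lit 0, nat_lit 0, nat_lit 0, nat_lit 0, nat_lit 0, nat_lit 0, [], [nat_lit 20, nat_lit 40, nat_lit 40, nat_lit 80, nat_lit 16, nat_lit 249, nat_lit 40, nat_lit 8]⟩, ⟨p126_k8, nat_lit 0, nat_lit 0, nat_lit 265, nat_lit 0, nat_lit 339802, [nat_lit 3282000000, nat_lit 6250000000, nat_lit 14058000000], [], [nat_lit 27085313290, nat_lit 27249510540, nat_lit 29297359130, nat_lit 29430141100, nat_lit 29671529263,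 nat_lit 29773607645, nat_lit 31800847878, nat_lit 31936461012], nat_lit 1271250, nat_lit 1271250, nat_lit 1271250, nat_lit 1271250, nat_lit 1100001, nat_lit 2572750, [nat_lit 780000, nat_lit 1435000, nat_lit 1271250], [nat_lit 71, nat_lit 40, nat_lit 40, nat_lit 80, nat_lit 68, nat_lit 483, nat_lit 250, nat_lit 10]⟩,
 zbF0, [⟨nat_lit 4, nat_lit 100, nat_lit 28, nat_lit 91, nat_lit 327188278⟩, ⟨nat_lit 19, nat_lit 100, nat_lit 88, nat_lit 99, nat_lit 303362692⟩]⟩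
noncomputable def p126_l15 : Lf2 := ⟨nat_lit 1, nat_lit 30, [nat_lit 15, nat_lit 5, nat_lit 5, nat_lit 20], false, nat_lit 80, nat_lit 160, nat_lit 160, nat_lit 336, zbN0,
 nat_lit 0, nat_lit 0, nat_lit 0, nat_lit 0, nat_lit 0, nat_lit 0, nat_lit 0, nat_lit 0, nat_lit 0, nat_lit 0, nat_lit 0, nat_lit 0, nat_lit 0, nat_lit 0, nat_lit 0, nat_lit 0, nat_lit 0, nat_lit 0, [],
 C1.Rw.none, C1.Rw.none,
 zbF0, []⟩
noncomputable def p126_l16 : Lf2 := ⟨nat_lit 0, nat_lit 30, [nat_lit 15, nat_lit 5, nat_lit 5, nat_lit 20], false, nat_lit 80, nat_lit 160, nat_lit 160, nat_lit 336, ⟨nat_lit 962, nat_lit 38, nat_lit 0, nat_lit 7, nat_lit 293, nat_lit 38, nat_lit 108, nat_lit 0, nat_lit 0, nat_lit 0, nat_lit 0, nat_lit 0, nat_lit 40235922, nat_lit 22199012, nat_lit 4565066, nat_lit 4532684, true, true⟩,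
 nat_lit 0, nat_lit 0, nat_lit 9082, nat_lit 0, nat_lit 3163, nat_lit 5779, nat_lit 365, nat_lit 0, nat_lit 0, nat_lit 0, nat_lit 0, nat_lit 0, nat_lit 0, nat_lit 0, nat_lit 0, nat_lit 9500, nat_lit 0, nat_lit 0, [(nat_lit 29, [(nat_lit 0, nat_lit 38)])],
 ⟨p126_k9, nat_lit 0, nat_lit 0, nat_lit 114, nat_lit 0, nat_lit 0, [nat_lit 932056800, nat_lit 1983983201, nat_lit 6080383200], [], [nat_lit 25680863801, nat_lit 25801655907, nat_lit 27670124489, nat_lit 27801218675, nat_lit 25998281348, nat_lit 26101511518, nat_lit 27743777384, nat_lit 27863406436], nat_lit 0, nat_lit 0, nat_lit 0, nat_lit 0, nat_lit 0, nat_lit 0, [], [nat_lit 131, nat_lit 40, nat_lit 40, nat_lit 80, nat_lit 64, nat_lit 249, nat_lit 40, nat_lit 8]⟩, ⟨p126_k10, nat_lit 0, nat_lit 0, nat_lit 255, nat_lit 0, nat_lit 353466, [nat_lit 3157284000, nat_lit 4509856000, nat_lit 13523796000], [], [nat_lit 37281387200, nat_lit 37445624851, nat_lit 38747463096,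 nat_lit 38891830560, nat_lit 40343418697, nat_lit 40450689009, nat_lit 41436101546, nat_lit 41543236434], nat_lit 1271250, nat_lit 1271250, nat_lit 1271250, nat_lit 1271250, nat_lit 1100001, nat_lit 2607000, [nat_lit 780000, nat_lit 1100000, nat_lit 2812500], [nat_lit 253, nat_lit 40, nat_lit 40, nat_lit 80, nat_lit 144, nat_lit 483, nat_lit 250, nat_lit 10]⟩,
 ⟨nat_lit 866, nat_lit 1119, ⟨.ofNat (nat_lit 701256), .ofNat (nat_lit 759696), .ofNat (nat_lit 707191), .ofNat (nat_lit 765634), .ofNat (nat_lit 700751), .ofNat (nat_lit 758349), .ofNat (nat_lit 706750), .ofNat (nat_lit 764351)⟩, ⟨.ofNat (nat_lit 200000), .ofNat (nat_lit 328117), .ofNat (nat_lit 200000), .ofNat (nat_lit 351868), .ofNat (nat_lit 200000), .ofNat (nat_lit 327600), .ofNat (nat_lit 200000), .ofNat (nat_lit 351607)⟩⟩, [⟨nat_lit 4, nat_lit 100, nat_lit 21, nat_lit 93, nat_lit 910952937⟩, ⟨nat_lit 7, nat_lit 85, nat_lit 100, nat_lit 98, nat_lit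 311396027⟩]⟩
noncomputable def p126_l17 : Lf2 := ⟨nat_lit 0, nat_lit 30, [nat_lit 15, nat_lit 5, nat_lit 5, nat_lit 20], false, nat_lit 80, nat_lit 156, nat_lit 160, nat_lit 336, ⟨nat_lit 1000, nat_lit 0, nat_lit 0, nat_lit 0, nat_lit 0, nat_lit 0, nat_lit 0, nat_lit 0, nat_lit 0, nat_lit 0, nat_lit 0, nat_lit 0, nat_lit 0, nat_lit 0, nat_lit 0, nat_lit 0, false, false⟩,
 nat_lit 0, nat_lit 0, nat_lit 9437, nat_lit 0, nat_lit 3155, nat_lit 6005, nat_lit 263, nat_lit 0, nat_lit 0, nat_lit 0, nat_lit 0, nat_lit 0, nat_lit 0, nat_lit 0, nat_lit 0, nat_lit 0, nat_lit 0, nat_lit 0, [],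
 ⟨p126_k11, nat_lit 0, nat_lit 0, nat_lit 97, nat_lit 0, nat_lit 0, [nat_lit 938000000, nat_lit 2032000001, nat_lit 4688000000], [], [nat_lit 25804098123, nat_lit 25866689133, nat_lit 27408070590, nat_lit 27474840202, nat_lit 26143469897, nat_lit 26198267460, nat_lit 27499498723, nat_lit 27560677011], nat_lit 0, nat_lit 0, nat_lit 0, nat_lit 0, nat_lit 0, nat_lit 0, [], [nat_lit 152, nat_lit 40, nat_lit 40, nat_lit 80, nat_lit 33, nat_lit 249, nat_lit 40, nat_lit 9]⟩, ⟨p126_k10, nat_lit 0, nat_lit 0, nat_lit 258, nat_lit 0, nat_lit 368507, [nat_lit 3282000000, nat_lit 4688000000, nat_lit 14058000000], [], [nat_lit 38757645880, nat_lit 38928351470, nat_lit 39986726128, nat_lit 40140577072, nat_lit 41940831244, nat_lit 42050158557, nat_lit 42846359074, nat_lit 42960887839], nat_lit 1271250, nat_lit 1271250, nat_lit 1271250, nat_lit 1271250, nat_lit 1100001, nat_lit 2607000, [nat_lit 780000, nat_lit 1100000, nat_lit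 2812500], [nat_lit 253, nat_lit 40, nat_lit 40, nat_lit 80, nat_lit 144, nat_lit 483, nat_lit 250, nat_lit 10]⟩,
 zbF0, [⟨nat_lit 16, nat_lit 17, nat_lit 100, nat_lit 94, nat_lit 1169121580⟩, ⟨nat_lit 19, nat_lit 100, nat_lit 85, nat_lit 98, nat_lit 323557767⟩]⟩
noncomputable def p126_l18 : Lf2 := ⟨nat_lit 0, nat_lit 30, [nat_lit 15, nat_lit 5, nat_lit 5, nat_lit 20], false, nat_lit 80, nat_lit 148, nat_lit 160, nat_lit 336, ⟨nat_lit 697, nat_lit 303, nat_lit 0, nat_lit 7, nat_lit 289, nat_lit 303, nat_lit 105, nat_lit 0, nat_lit 0, nat_lit 0, nat_lit 0, nat_lit 0, nat_lit 40715105, nat_lit 21900968, nat_lit 4383927, nat_lit 4482751, true, true⟩,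
 nat_lit 0, nat_lit 0, nat_lit 7849, nat_lit 0, nat_lit 3034, nat_lit 4994, nat_lit 168, nat_lit 0, nat_lit 0, nat_lit 613, nat_lit 0, nat_lit 0, nat_lit 0, nat_lit 0, nat_lit 0, nat_lit 75750, nat_lit 0, nat_lit 0, [(nat_lit 29, [(nat_lit 0, nat_lit 303)])],
 ⟨p126_k12, nat_lit 0, nat_lit 0, nat_lit 100, nat_lit 0, nat_lit 0, [nat_lit 890610801, nat_lit 2604492001, nat_lit 3684585200], [], [nat_lit 25848280310, nat_lit 25971267920, nat_lit 27106399757, nat_lit 27224783162, nat_lit 26190169108, nat_lit 26298991288, nat_lit 27356191865, nat_lit 27462574736], nat_lit 0, nat_lit 0, nat_lit 0, nat_lit 0, nat_lit 0, nat_lit 0, [], [nat_lit 35, nat_lit 40, nat_lit 40, nat_lit 80, nat_lit 22, nat_lit 249, nat_lit 40, nat_lit 9]⟩, ⟨p126_k3, nat_lit 0, nat_lit 0, nat_lit 278, nat_lit 0, nat_lit 398795, [nat_lit 2287554000, nat_lit 4356250000, nat_lit 9798426000], [], [nat_lit 19082286162, nat_lit 19198353181, nat_lit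 19825115081, nat_lit 19929923940, nat_lit 20989835521, nat_lit 21061231881, nat_lit 21556514393, nat_lit 21638273971], nat_lit 1271250, nat_lit 1271250, nat_lit 1271250, nat_lit 1271250, nat_lit 1100001, nat_lit 2607000, [nat_lit 780000, nat_lit 1435000, nat_lit 1271250], [nat_lit 71, nat_lit 40, nat_lit 40, nat_lit 80, nat_lit 68, nat_lit 483, nat_lit 250, nat_lit 10]⟩,
 ⟨nat_lit 0, nat_lit 708, ⟨.ofNat (nat_lit 700499), .ofNat (nat_lit 742017), .ofNat (nat_lit 706471), .ofNat (nat_lit 748061), .ofNat (nat_lit 699998), .ofNat (nat_lit 739998), .ofNat (nat_lit 706176), .ofNat (nat_lit 746248)⟩, ⟨.ofNat (nat_lit 200000), .ofNat (nat_lit 311647), .ofNat (nat_lit 200000), .ofNat (nat_lit 335825), .ofNat (nat_lit 200000), .ofNat (nat_lit 309997), .ofNat (nat_lit 200000), .ofNat (nat_lit 334997)⟩⟩, [⟨nat_lit 16, nat_lit 11, nat_lit 100, nat_lit 96, nat_lit 1235529535⟩, ⟨nat_lit 19, nat_lit 100, nat_lit 85, nat_lit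 98, nat_lit 212007422⟩]⟩
noncomputable def p126_l19 : Lf2 := ⟨nat_lit 1, nat_lit 30, [nat_lit 15, nat_lit 5, nat_lit 5, nat_lit 20], false, nat_lit 80, nat_lit 160, nat_lit 160, nat_lit 336, zbN0,
 nat_lit 0, nat_lit 0, nat_lit 0, nat_lit 0, nat_lit 0, nat_lit 0, nat_lit 0, nat_lit 0, nat_lit 0, nat_lit 0, nat_lit 0, nat_lit 0, nat_lit 0, nat_lit 0, nat_lit 0, nat_lit 0, nat_lit 0, nat_lit 0, [],
 C1.Rw.none, C1.Rw.none,
 zbF0, []⟩
noncomputable def p126_l20 : Lf2 := ⟨nat_lit 0, nat_lit 30, [nat_lit 15, nat_lit 5, nat_lit 5, nat_lit 20], false, nat_lit 80, nat_lit 160, nat_lit 160, nat_lit 332, ⟨nat_lit 1000, nat_lit 0, nat_lit 0, nat_lit 0, nat_lit 0, nat_lit 0, nat_lit 0, nat_lit 0, nat_lit 0, nat_lit 0, nat_lit 0, nat_lit 0, nat_lit 0, nat_lit 0, nat_lit 0, nat_lit 0, false, false⟩,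
 nat_lit 0, nat_lit 0, nat_lit 10510, nat_lit 0, nat_lit 3173, nat_lit 6833, nat_lit 357, nat_lit 0, nat_lit 0, nat_lit 906, nat_lit 0, nat_lit 0, nat_lit 0, nat_lit 0, nat_lit 0, nat_lit 0, nat_lit 0, nat_lit 0, [],
 ⟨p126_k13, nat_lit 0, nat_lit 0, nat_lit 117, nat_lit 0, nat_lit 0, [nat_lit 938000000, nat_lit 3282000000, nat_lit 6250000000], [], [nat_lit 25718715496, nat_lit 25896098681, nat_lit 27888416373, nat_lit 28083391429, nat_lit 26035169133, nat_lit 26190063679, nat_lit 27941136804, nat_lit 28119121177], nat_lit 0, nat_lit 0, nat_lit 0, nat_lit 0, nat_lit 0, nat_lit 0, [], [nat_lit 20, nat_lit 40, nat_lit 40, nat_lit 80, nat_lit 16, nat_lit 249, nat_lit 40, nat_lit 8]⟩, ⟨p126_k8, nat_lit 0, nat_lit 0, nat_lit 277, nat_lit 0, nat_lit 386372, [nat_lit 3282000000, nat_lit 6250000000, nat_lit 14058000000], [], [nat_lit 27034324342, nat_lit 27198507492, nat_lit 28634296826, nat_lit 28775061388, nat_lit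 29620815833, nat_lit 29722894562, nat_lit 31180346088, nat_lit 31324012557], nat_lit 1271250, nat_lit 1271250, nat_lit 1271250, nat_lit 1271250, nat_lit 1100001, nat_lit 2572750, [nat_lit 780000, nat_lit 1435000, nat_lit 1271250], [nat_lit 71, nat_lit 40, nat_lit 40, nat_lit 80, nat_lit 68, nat_lit 483, nat_lit 250, nat_lit 10]⟩,
 zbF0, [⟨nat_lit 16, nat_lit 19, nat_lit 100, nat_lit 93, nat_lit 1043144517⟩, ⟨nat_lit 19, nat_lit 100, nat_lit 88, nat_lit 99, nat_lit 303843437⟩]⟩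
noncomputable def p126_l21 : Lf2 := ⟨nat_lit 0, nat_lit 30, [nat_lit 15, nat_lit 5, nat_lit 5, nat_lit 20], false, nat_lit 80, nat_lit 148, nat_lit 160, nat_lit 332, ⟨nat_lit 1000, nat_lit 0, nat_lit 0, nat_lit 0, nat_lit 0, nat_lit 0, nat_lit 0, nat_lit 0, nat_lit 0, nat_lit 0, nat_lit 0, nat_lit 0, nat_lit 0, nat_lit 0, nat_lit 0, nat_lit 0, false, false⟩,
 nat_lit 0, nat_lit 0, nat_lit 10510, nat_lit 0, nat_lit 3138, nat_lit 6833, nat_lit 245, nat_lit 0, nat_lit 0, nat_lit 906, nat_lit 0, nat_lit 0, nat_lit 0, nat_lit 0, nat_lit 0, nat_lit 0, nat_lit 0, nat_lit 0, [],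
 ⟨p126_k12, nat_lit 0, nat_lit 0, nat_lit 101, nat_lit 0, nat_lit 0, [nat_lit 938000000, nat_lit 3282000000, nat_lit 4688000000], [], [nat_lit 25855354203, nat_lit 25980850624, nat_lit 27445971096, nat_lit 27579177350, nat_lit 26162959220, nat_lit 26273367035, nat_lit 27529559111, nat_lit 27652795467], nat_lit 0, nat_lit 0, nat_lit 0, nat_lit 0, nat_lit 0, nat_lit 0, [], [nat_lit 35, nat_lit 40, nat_lit 40, nat_lit 80, nat_lit 22, nat_lit 249, nat_lit 40, nat_lit 9]⟩, ⟨p126_k8, nat_lit 0, nat_lit 0, nat_lit 362, nat_lit 0, nat_lit 415545, [nat_lit 3282000000, nat_lit 6250000000, nat_lit 14058000000], [], [nat_lit 27034324342, nat_lit 27198507492, nat_lit 28198961440, nat_lit 28345663008, nat_lit 29620815833, nat_lit 29722894562, nat_lit 30738345291, nat_lit 30888005866], nat_lit 1271250, nat_lit 1271250, nat_lit 1271250, nat_lit 1271250, nat_lit 1100001, nat_lit 2572750, [nat_lit 780000, nat_lit 1435000, nat_lit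 1271250], [nat_lit 71, nat_lit 40, nat_lit 40, nat_lit 80, nat_lit 68, nat_lit 483, nat_lit 250, nat_lit 10]⟩,
 zbF0, [⟨nat_lit 0, nat_lit 96, nat_lit 11, nat_lit 100, nat_lit 193842517⟩, ⟨nat_lit 4, nat_lit 100, nat_lit 11, nat_lit 96, nat_lit 1747865195⟩, ⟨nat_lit 19, nat_lit 100, nat_lit 88, nat_lit 99, nat_lit 303843437⟩]⟩
noncomputable def p126_l22 : Lf2 := ⟨nat_lit 0, nat_lit 30, [nat_lit 15, nat_lit 5, nat_lit 5, nat_lit 20], false, nat_lit 80, nat_lit 160, nat_lit 160, nat_lit 328, ⟨nat_lit 1000, nat_lit 0, nat_lit 0, nat_lit 0, nat_lit 0, nat_lit 0, nat_lit 0, nat_lit 0, nat_lit 0, nat_lit 0, nat_lit 0, nat_lit 0, nat_lit 0, nat_lit 0, nat_lit 0, nat_lit 0, false, false⟩,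
 nat_lit 0, nat_lit 0, nat_lit 9848, nat_lit 0, nat_lit 6641, nat_lit 6540, nat_lit 0, nat_lit 0, nat_lit 0, nat_lit 952, nat_lit 0, nat_lit 0, nat_lit 0, nat_lit 0, nat_lit 0, nat_lit 0, nat_lit 0, nat_lit 0, [],
 ⟨p126_k5, nat_lit 0, nat_lit 0, nat_lit 121, nat_lit 0, nat_lit 0, [nat_lit 938000000, nat_lit 3282000000, nat_lit 6250000000], [], [nat_lit 29406030402, nat_lit 29887612345, nat_lit 34859977159, nat_lit 35318145085, nat_lit 28596446664, nat_lit 29027653790, nat_lit 33335194340, nat_lit 33665191919], nat_lit 0, nat_lit 0, nat_lit 0, nat_lit 0, nat_lit 0, nat_lit 0, [], [nat_lit 20, nat_lit 40, nat_lit 40, nat_lit 80, nat_lit 16, nat_lit 249, nat_lit 40, nat_lit 8]⟩, ⟨p126_k4, nat_lit 0, nat_lit 0, nat_lit 272, nat_lit 0, nat_lit 359374, [nat_lit 3282000000, nat_lit 6250000000, nat_lit 14058000000], [], [nat_lit 25291540180, nat_lit 25471655610, nat_lit 28589079193, nat_lit 28718956728, nat_lit 28162903730,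 nat_lit 28279472783, nat_lit 31498672340, nat_lit 31633124216], nat_lit 1271250, nat_lit 1271250, nat_lit 1271250, nat_lit 1271250, nat_lit 1100001, nat_lit 2538500, [nat_lit 780000, nat_lit 1435000, nat_lit 1271250], [nat_lit 71, nat_lit 40, nat_lit 40, nat_lit 80, nat_lit 68, nat_lit 483, nat_lit 250, nat_lit 10]⟩,
 zbF0, [⟨nat_lit 4, nat_lit 100, nat_lit 28, nat_lit 91, nat_lit 440536405⟩, ⟨nat_lit 7, nat_lit 91, nat_lit 99, nat_lit 100, nat_lit 313146600⟩]⟩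
noncomputable def p126_l23 : Lf2 := ⟨nat_lit 0, nat_lit 30, [nat_lit 15, nat_lit 5, nat_lit 5, nat_lit 20], false, nat_lit 80, nat_lit 160, nat_lit 160, nat_lit 324, ⟨nat_lit 1000, nat_lit 0, nat_lit 0, nat_lit 0, nat_lit 0, nat_lit 0, nat_lit 0, nat_lit 0, nat_lit 0, nat_lit 0, nat_lit 0, nat_lit 0, nat_lit 0, nat_lit 0, nat_lit 0, nat_lit 0, false, false⟩,
 nat_lit 0, nat_lit 0, nat_lit 9071, nat_lit 0, nat_lit 6437, nat_lit 6151, nat_lit 0, nat_lit 0, nat_lit 0, nat_lit 962, nat_lit 0, nat_lit 0, nat_lit 0, nat_lit 0, nat_lit 0, nat_lit 0, nat_lit 0, nat_lit 0, [],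
 ⟨p126_k5, nat_lit 0, nat_lit 0, nat_lit 122, nat_lit 0, nat_lit 0, [nat_lit 938000000, nat_lit 3282000000, nat_lit 6250000000], [], [nat_lit 29411472714, nat_lit 29883523165, nat_lit 34862890882, nat_lit 35218469934, nat_lit 28675781448, nat_lit 29098709030, nat_lit 33562027827, nat_lit 33882650218], nat_lit 0, nat_lit 0, nat_lit 0, nat_lit 0, nat_lit 0, nat_lit 0, [], [nat_lit 20, nat_lit 40, nat_lit 40, nat_lit 80, nat_lit 16, nat_lit 249, nat_lit 40, nat_lit 8]⟩, ⟨p126_k14, nat_lit 0, nat_lit 0, nat_lit 278, nat_lit 0, nat_lit 375826, [nat_lit 3282000000, nat_lit 6250000000, nat_lit 14058000000], [], [nat_lit 25218804047, nat_lit 25395319476, nat_lit 28563075611, nat_lit 28689922811, nat_lit 27936173822, nat_lit 28053754577, nat_lit 31366984433, nat_lit 31499895079], nat_lit 1271250, nat_lit 1271250, nat_lit 1271250, nat_lit 1271250, nat_lit 1100001, nat_lit 2504250, [nat_lit 780000, nat_lit 1435000, nat_lit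 1271250], [nat_lit 71, nat_lit 40, nat_lit 40, nat_lit 80, nat_lit 68, nat_lit 483, nat_lit 250, nat_lit 10]⟩,
 zbF0, [⟨nat_lit 0, nat_lit 91, nat_lit 23, nat_lit 100, nat_lit 57388414⟩, ⟨nat_lit 4, nat_lit 100, nat_lit 28, nat_lit 91, nat_lit 458980136⟩, ⟨nat_lit 7, nat_lit 93, nat_lit 98, nat_lit 100, nat_lit 312779278⟩]⟩
noncomputable def p126_l24 : Lf2 := ⟨nat_lit 0, nat_lit 30, [nat_lit 15, nat_lit 5, nat_lit 5, nat_lit 20], false, nat_lit 80, nat_lit 160, nat_lit 160, nat_lit 328, ⟨nat_lit 1000, nat_lit 0, nat_lit 0, nat_lit 0, nat_lit 0, nat_lit 0, nat_lit 0, nat_lit 0, nat_lit 0, nat_lit 0, nat_lit 0, nat_lit 0, nat_lit 0, nat_lit 0, nat_lit 0, nat_lit 0, false, false⟩,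
 nat_lit 0, nat_lit 0, nat_lit 8759, nat_lit 0, nat_lit 3201, nat_lit 5816, nat_lit 325, nat_lit 0, nat_lit 0, nat_lit 929, nat_lit 0, nat_lit 0, nat_lit 0, nat_lit 0, nat_lit 0, nat_lit 0, nat_lit 0, nat_lit 0, [],
 ⟨p126_k13, nat_lit 0, nat_lit 0, nat_lit 120, nat_lit 0, nat_lit 0, [nat_lit 938000000, nat_lit 3282000000, nat_lit 6250000000], [], [nat_lit 25145312427, nat_lit 25461355949, nat_lit 28403485308, nat_lit 28666189377, nat_lit 25535665131, nat_lit 25818075779, nat_lit 28521959124, nat_lit 28762371600], nat_lit 0, nat_lit 0, nat_lit 0, nat_lit 0, nat_lit 0, nat_lit 0, [], [nat_lit 20, nat_lit 40, nat_lit 40, nat_lit 80, nat_lit 16, nat_lit 249, nat_lit 40, nat_lit 8]⟩, ⟨p126_k4, nat_lit 0, nat_lit 0, nat_lit 378, nat_lit 0, nat_lit 455984, [nat_lit 3282000000, nat_lit 6250000000, nat_lit 14058000000], [], [nat_lit 27097705742, nat_lit 27374112425, nat_lit 29615442153, nat_lit 29881276659, nat_lit 29898831802,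 nat_lit 30125340050, nat_lit 32357464290, nat_lit 32631717025], nat_lit 1271250, nat_lit 1271250, nat_lit 1271250, nat_lit 1271250, nat_lit 1100001, nat_lit 2538500, [nat_lit 780000, nat_lit 1435000, nat_lit 1271250], [nat_lit 71, nat_lit 40, nat_lit 40, nat_lit 80, nat_lit 68, nat_lit 483, nat_lit 250, nat_lit 10]⟩,
 zbF0, [⟨nat_lit 0, nat_lit 93, nat_lit 17, nat_lit 100, nat_lit 499302948⟩, ⟨nat_lit 4, nat_lit 100, nat_lit 17, nat_lit 94, nat_lit 1178307521⟩, ⟨nat_lit 7, nat_lit 92, nat_lit 99, nat_lit 100, nat_lit 311432861⟩]⟩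
noncomputable def p126_l25 : Lf2 := ⟨nat_lit 1, nat_lit 30, [nat_lit 15, nat_lit 5, nat_lit 5, nat_lit 20], false, nat_lit 32, nat_lit 160, nat_lit 0, nat_lit 336, zbN0,
 nat_lit 0, nat_lit 0, nat_lit 0, nat_lit 0, nat_lit 0, nat_lit 0, nat_lit 0, nat_lit 0, nat_lit 0, nat_lit 0, nat_lit 0, nat_lit 0, nat_lit 0, nat_lit 0, nat_lit 0, nat_lit 0, nat_lit 0, nat_lit 0, [],
 C1.Rw.none, C1.Rw.none,
 zbF0, []⟩
noncomputable def b_V_900_700_20_55 : St := ⟨true, nat_lit 0, nat_lit 1, nat_lit 1, nat_lit 120, nat_lit 380, nat_lit 400, nat_lit 280, nat_lit 300, nat_lit 240, nat_lit 368, nat_lit 100, nat_lit 120, nat_lit 20, nat_lit 160, nat_lit 0, nat_lit 336, nat_lit 120, nat_lit 160, nat_lit 0, nat_lit 0, nat_lit 0, nat_lit 0⟩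
theorem d_V_900_700_20_55 (h : EB TB.env) : Dead b_V_900_700_20_55 := chkB_sound0 h (T :=
(.trZ (nat_lit 3) (nat_lit 100) (nat_lit 50) (nat_lit 65) (nat_lit 32) (.spl (nat_lit 6) (nat_lit 152)
(.spl (nat_lit 0) (nat_lit 390)
(.spl (nat_lit 6) (nat_lit 144)
(.spl (nat_lit 0) (nat_lit 385)
(.spl (nat_lit 5) (nat_lit 160)
(.leaf p126_l0)
(.leaf p126_l1))
(.trX (nat_lit 13) (nat_lit 44) (nat_lit 71) (nat_lit 100) (nat_lit 360) (.trZ (nat_lit 3) (nat_lit 100) (nat_lit 44) (nat_lit 71) (nat_lit 40) (.spl (nat_lit 5) (nat_lit 160)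
(.leaf p126_l2)
(.spl (nat_lit 1) (nat_lit 290)
(.trX (nat_lit 13) (nat_lit 43) (nat_lit 73) (nat_lit 100) (nat_lit 352) (.leaf p126_l3))
(.trX (nat_lit 19) (nat_lit 97) (nat_lit 84) (nat_lit 100) (nat_lit 328) (.leaf p126_l4)))))))
(.leaf p126_l5))
(.trX (nat_lit 13) (nat_lit 36) (nat_lit 77) (nat_lit 100) (nat_lit 352) (.trZ (nat_lit 3) (nat_lit 100) (nat_lit 36) (nat_lit 77) (nat_lit 48) (.spl (nat_lit 5) (nat_lit 160)
(.leaf p126_l6)
(.spl (nat_lit 4) (nat_lit 80)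
(.spl (nat_lit 1) (nat_lit 290)
(.trX (nat_lit 13) (nat_lit 35) (nat_lit 79) (nat_lit 100) (nat_lit 344) (.spl (nat_lit 2) (nat_lit 280)
(.leaf p126_l7)
(.trX (nat_lit 22) (nat_lit 100) (nat_lit 95) (nat_lit 87) (nat_lit 300) (.leaf p126_l8))))
(.trX (nat_lit 19) (nat_lit 97) (nat_lit 84) (nat_lit 100) (nat_lit 328) (.leaf p126_l9)))
(.spl (nat_lit 1) (nat_lit 290)
(.trX (nat_lit 13) (nat_lit 35) (nat_lit 79) (nat_lit 100) (nat_lit 344) (.spl (nat_lit 2) (nat_lit 280)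
(.spl (nat_lit 0) (nat_lit 395)
(.leaf p126_l10)
(.spl (nat_lit 4) (nat_lit 120)
(.leaf p126_l11)
(.leaf p126_l12)))
(.spl (nat_lit 0) (nat_lit 395)
(.spl (nat_lit 6) (nat_lit 144)
(.spl (nat_lit 1) (nat_lit 285)
(.trX (nat_lit 13) (nat_lit 34) (nat_lit 80) (nat_lit 100) (nat_lit 340) (.leaf p126_l13))
(.trX (nat_lit 19) (nat_lit 99) (nat_lit 82) (nat_lit 100) (nat_lit 332) (.leaf p126_l14)))
(.leaf p126_l15))
(.trX (nat_lit 13) (nat_lit 25) (nat_lit 86) (nat_lit 100) (nat_lit 328) (.spl (nat_lit 1) (nat_lit 285)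
(.trX (nat_lit 13) (nat_lit 25) (nat_lit 87) (nat_lit 100) (nat_lit 324) (.spl (nat_lit 6) (nat_lit 144)
(.spl (nat_lit 0) (nat_lit 398)
(.spl (nat_lit 0) (nat_lit 397)
(.leaf p126_l16)
(.trX (nat_lit 13) (nat_lit 19) (nat_lit 90) (nat_lit 100) (nat_lit 316) (.trX (nat_lit 16) (nat_lit 18) (nat_lit 100) (nat_lit 94) (nat_lit 156) (.leaf p126_l17))))
(.trX (nat_lit 13) (nat_lit 16) (nat_lit 92) (nat_lit 100) (nat_lit 312) (.trX (nat_lit 16) (nat_lit 15) (nat_lit 100) (nat_lit 95) (nat_lit 148) (.leaf p126_l18))))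
(.leaf p126_l19)))
(.trX (nat_lit 19) (nat_lit 99) (nat_lit 82) (nat_lit 100) (nat_lit 332) (.spl (nat_lit 0) (nat_lit 398)
(.leaf p126_l20)
(.trX (nat_lit 13) (nat_lit 16) (nat_lit 92) (nat_lit 100) (nat_lit 316) (.trX (nat_lit 16) (nat_lit 15) (nat_lit 100) (nat_lit 95) (nat_lit 148) (.leaf p126_l21))))))))))
(.trX (nat_lit 19) (nat_lit 97) (nat_lit 84) (nat_lit 100) (nat_lit 328) (.spl (nat_lit 0) (nat_lit 395)
(.spl (nat_lit 1) (nat_lit 295)
(.trX (nat_lit 13) (nat_lit 35) (nat_lit 78) (nat_lit 100) (nat_lit 348) (.leaf p126_l22))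
(.trX (nat_lit 19) (nat_lit 96) (nat_lit 86) (nat_lit 100) (nat_lit 324) (.leaf p126_l23)))
(.trZ (nat_lit 0) (nat_lit 92) (nat_lit 23) (nat_lit 100) (nat_lit 248) (.trX (nat_lit 13) (nat_lit 26) (nat_lit 85) (nat_lit 100) (nat_lit 336) (.leaf p126_l24)))))))))))
(.leaf p126_l25)))) (by decide +kernel)
noncomputable def p126_l26 : Lf2 := ⟨nat_lit 0, nat_lit 25, [nat_lit 44, nat_lit 5, nat_lit 5, nat_lit 20], false, nat_lit 20, nat_lit 160, nat_lit 0, nat_lit 300, ⟨nat_lit 1000, nat_lit 0, nat_lit 0, nat_lit 0, nat_lit 0, nat_lit 0, nat_lit 0, nat_lit 0, nat_lit 0, nat_lit 0, nat_lit 0, nat_lit 0, nat_lit 0, nat_lit 0, nat_lit 0, nat_lit 0, false, false⟩,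
 nat_lit 0, nat_lit 0, nat_lit 9205, nat_lit 0, nat_lit 4688, nat_lit 6372, nat_lit 366, nat_lit 0, nat_lit 0, nat_lit 757, nat_lit 0, nat_lit 0, nat_lit 0, nat_lit 0, nat_lit 0, nat_lit 0, nat_lit 0, nat_lit 0, [],
 ⟨p126_k15, nat_lit 0, nat_lit 0, nat_lit 163, nat_lit 0, nat_lit 0, [nat_lit 938000000, nat_lit 3282000000, nat_lit 6250000000], [], [nat_lit 27540358856, nat_lit 28562920000, nat_lit 35696576166, nat_lit 36395852069, nat_lit 24900069484, nat_lit 25462486396, nat_lit 31828982256, nat_lit 32447512632], nat_lit 0, nat_lit 0, nat_lit 0, nat_lit 0, nat_lit 0, nat_lit 0, [], [nat_lit 20, nat_lit 40, nat_lit 40, nat_lit 80, nat_lit 16, nat_lit 249, nat_lit 40, nat_lit 8]⟩, ⟨p126_k16, nat_lit 0, nat_lit 0, nat_lit 413, nat_lit 0, nat_lit 424350, [nat_lit 3282000000, nat_lit 6250000000, nat_lit 11872000000], [], [nat_lit 32283856913, nat_lit 32835254577, nat_lit 36781450357, nat_lit 37559609189, nat_lit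 29028653143, nat_lit 29346254765, nat_lit 32546275172, nat_lit 33348890750], nat_lit 1271250, nat_lit 1271250, nat_lit 1271250, nat_lit 1271250, nat_lit 0, nat_lit 2118750, [nat_lit 780000, nat_lit 1435000, nat_lit 1271250], [nat_lit 23, nat_lit 40, nat_lit 40, nat_lit 80, nat_lit 12, nat_lit 483, nat_lit 250, nat_lit 12]⟩,
 zbF0, [⟨nat_lit 4, nat_lit 100, nat_lit 39, nat_lit 85, nat_lit 31216799⟩, ⟨nat_lit 19, nat_lit 91, nat_lit 100, nat_lit 91, nat_lit 133423408⟩]⟩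
noncomputable def p126_l27 : Lf2 := ⟨nat_lit 0, nat_lit 25, [nat_lit 44, nat_lit 5, nat_lit 5, nat_lit 20], false, nat_lit 36, nat_lit 160, nat_lit 0, nat_lit 300, ⟨nat_lit 1000, nat_lit 0, nat_lit 0, nat_lit 0, nat_lit 0, nat_lit 0, nat_lit 0, nat_lit 0, nat_lit 0, nat_lit 0, nat_lit 0, nat_lit 0, nat_lit 0, nat_lit 0, nat_lit 0, nat_lit 0, false, false⟩,
 nat_lit 0, nat_lit 0, nat_lit 8818, nat_lit 0, nat_lit 3573, nat_lit 6104, nat_lit 182, nat_lit 0, nat_lit 0, nat_lit 769, nat_lit 0, nat_lit 0, nat_lit 0, nat_lit 0, nat_lit 0, nat_lit 0, nat_lit 0, nat_lit 0, [],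
 ⟨p126_k17, nat_lit 0, nat_lit 0, nat_lit 138, nat_lit 0, nat_lit 0, [nat_lit 938000000, nat_lit 3282000000, nat_lit 4688000000], [], [nat_lit 26719741064, nat_lit 27389927797, nat_lit 31813865853, nat_lit 32372310268, nat_lit 26328648308, nat_lit 26888031134, nat_lit 30710987887, nat_lit 31164792986], nat_lit 0, nat_lit 0, nat_lit 0, nat_lit 0, nat_lit 0, nat_lit 0, [], [nat_lit 35, nat_lit 40, nat_lit 40, nat_lit 80, nat_lit 22, nat_lit 249, nat_lit 40, nat_lit 10]⟩, ⟨p126_k16, nat_lit 0, nat_lit 0, nat_lit 501, nat_lit 0, nat_lit 549132, [nat_lit 3282000000, nat_lit 6250000000, nat_lit 11872000000], [], [nat_lit 32494566141, nat_lit 33041377789, nat_lit 35690741934, nat_lit 36162695449, nat_lit 29579547501, nat_lit 29968094943, nat_lit 31945216888, nat_lit 32368516809], nat_lit 1271250, nat_lit 1271250, nat_lit 1271250, nat_lit 1271250, nat_lit 0, nat_lit 2118750, [nat_lit 780000, nat_lit 1435000, nat_lit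 1271250], [nat_lit 23, nat_lit 40, nat_lit 40, nat_lit 80, nat_lit 12, nat_lit 483, nat_lit 250, nat_lit 12]⟩,
 zbF0, [⟨nat_lit 0, nat_lit 89, nat_lit 24, nat_lit 100, nat_lit 573788444⟩, ⟨nat_lit 4, nat_lit 100, nat_lit 24, nat_lit 89, nat_lit 498058208⟩, ⟨nat_lit 19, nat_lit 91, nat_lit 100, nat_lit 91, nat_lit 141752722⟩]⟩
noncomputable def p126_l28 : Lf2 := ⟨nat_lit 0, nat_lit 30, [nat_lit 15, nat_lit 5, nat_lit 5, nat_lit 20], false, nat_lit 32, nat_lit 160, nat_lit 0, nat_lit 160, ⟨nat_lit 1000, nat_lit 0, nat_lit 0, nat_lit 0, nat_lit 0, nat_lit 0, nat_lit 0, nat_lit 0, nat_lit 0, nat_lit 0, nat_lit 0, nat_lit 0, nat_lit 0, nat_lit 0, nat_lit 0, nat_lit 0, false, false⟩,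
 nat_lit 0, nat_lit 0, nat_lit 8655, nat_lit 0, nat_lit 3319, nat_lit 5991, nat_lit 469, nat_lit 0, nat_lit 0, nat_lit 854, nat_lit 0, nat_lit 0, nat_lit 0, nat_lit 0, nat_lit 0, nat_lit 0, nat_lit 0, nat_lit 0, [],
 ⟨p126_k18, nat_lit 0, nat_lit 0, nat_lit 174, nat_lit 0, nat_lit 0, [nat_lit 938000000, nat_lit 3282000000, nat_lit 7968000000], [], [nat_lit 25814484674, nat_lit 27072339564, nat_lit 31547451427, nat_lit 32728040900, nat_lit 25298883236, nat_lit 26257909324, nat_lit 30080965436, nat_lit 30908134854], nat_lit 0, nat_lit 0, nat_lit 0, nat_lit 0, nat_lit 0, nat_lit 0, [], [nat_lit 54, nat_lit 40, nat_lit 40, nat_lit 80, nat_lit 43, nat_lit 249, nat_lit 40, nat_lit 7]⟩, ⟨p126_k19, nat_lit 0, nat_lit 0, nat_lit 500, nat_lit 0, nat_lit 546234, [nat_lit 3282000000, nat_lit 6250000000, nat_lit 11872000000], [], [nat_lit 30667091114, nat_lit 31211969106, nat_lit 35312873446, nat_lit 36076181048, nat_lit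 27011524102, nat_lit 27561414342, nat_lit 30899948370, nat_lit 31394452938], nat_lit 1271250, nat_lit 1271250, nat_lit 1271250, nat_lit 1271250, nat_lit 0, nat_lit 1100001, [nat_lit 780000, nat_lit 1435000, nat_lit 1271250], [nat_lit 23, nat_lit 40, nat_lit 40, nat_lit 80, nat_lit 12, nat_lit 456, nat_lit 225, nat_lit 11]⟩,
 zbF0, [⟨nat_lit 0, nat_lit 87, nat_lit 32, nat_lit 100, nat_lit 308979832⟩, ⟨nat_lit 4, nat_lit 100, nat_lit 32, nat_lit 90, nat_lit 288785980⟩]⟩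
noncomputable def p126_l29 : Lf2 := ⟨nat_lit 0, nat_lit 30, [nat_lit 15, nat_lit 5, nat_lit 5, nat_lit 20], false, nat_lit 32, nat_lit 160, nat_lit 160, nat_lit 320, ⟨nat_lit 1000, nat_lit 0, nat_lit 0, nat_lit 0, nat_lit 0, nat_lit 0, nat_lit 0, nat_lit 0, nat_lit 0, nat_lit 0, nat_lit 0, nat_lit 0, nat_lit 0, nat_lit 0, nat_lit 0, nat_lit 0, false, false⟩,
 nat_lit 0, nat_lit 0, nat_lit 8180, nat_lit 0, nat_lit 5213, nat_lit 5663, nat_lit 370, nat_lit 0, nat_lit 0, nat_lit 874, nat_lit 0, nat_lit 0, nat_lit 0, nat_lit 0, nat_lit 0, nat_lit 0, nat_lit 0, nat_lit 0, [],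
 ⟨p126_k18, nat_lit 0, nat_lit 0, nat_lit 172, nat_lit 0, nat_lit 0, [nat_lit 938000000, nat_lit 3282000000, nat_lit 7968000000], [], [nat_lit 28049459038, nat_lit 29013499347, nat_lit 36454845959, nat_lit 37190295530, nat_lit 25717466578, nat_lit 26409909282, nat_lit 32588007306, nat_lit 33240794982], nat_lit 0, nat_lit 0, nat_lit 0, nat_lit 0, nat_lit 0, nat_lit 0, [], [nat_lit 54, nat_lit 40, nat_lit 40, nat_lit 80, nat_lit 43, nat_lit 249, nat_lit 40, nat_lit 7]⟩, ⟨p126_k19, nat_lit 0, nat_lit 0, nat_lit 324, nat_lit 0, nat_lit 424429, [nat_lit 3282000000, nat_lit 6250000000, nat_lit 11872000000], [], [nat_lit 26077518106, nat_lit 26657018188, nat_lit 30301734225, nat_lit 30820006472, nat_lit 28569644852, nat_lit 29109286500, nat_lit 32702039569, nat_lit 33270967606], nat_lit 1271250, nat_lit 1271250, nat_lit 1271250, nat_lit 1271250, nat_lit 1100001, nat_lit 2470000, [nat_lit 780000, nat_lit 1435000, nat_lit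 1271250], [nat_lit 23, nat_lit 40, nat_lit 40, nat_lit 80, nat_lit 12, nat_lit 538, nat_lit 300, nat_lit 13]⟩,
 zbF0, [⟨nat_lit 7, nat_lit 97, nat_lit 94, nat_lit 100, nat_lit 320338259⟩]⟩
noncomputable def p126_l30 : Lf2 := ⟨nat_lit 0, nat_lit 30, [nat_lit 15, nat_lit 5, nat_lit 5, nat_lit 20], false, nat_lit 48, nat_lit 160, nat_lit 160, nat_lit 320, ⟨nat_lit 1000, nat_lit 0, nat_lit 0, nat_lit 0, nat_lit 0, nat_lit 0, nat_lit 0, nat_lit 0, nat_lit 0, nat_lit 0, nat_lit 0, nat_lit 0, nat_lit 0, nat_lit 0, nat_lit 0, nat_lit 0, false, false⟩,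
 nat_lit 0, nat_lit 0, nat_lit 8059, nat_lit 0, nat_lit 3306, nat_lit 5579, nat_lit 325, nat_lit 0, nat_lit 0, nat_lit 809, nat_lit 0, nat_lit 0, nat_lit 0, nat_lit 0, nat_lit 0, nat_lit 0, nat_lit 0, nat_lit 0, [],
 ⟨p126_k5, nat_lit 0, nat_lit 0, nat_lit 145, nat_lit 0, nat_lit 0, [nat_lit 938000000, nat_lit 3282000000, nat_lit 6250000000], [], [nat_lit 25881978980, nat_lit 26548165453, nat_lit 30791302579, nat_lit 31298343851, nat_lit 25675827893, nat_lit 26185893949, nat_lit 30025297135, nat_lit 30481556017], nat_lit 0, nat_lit 0, nat_lit 0, nat_lit 0, nat_lit 0, nat_lit 0, [], [nat_lit 20, nat_lit 40, nat_lit 40, nat_lit 80, nat_lit 16, nat_lit 249, nat_lit 40, nat_lit 8]⟩, ⟨p126_k19, nat_lit 0, nat_lit 0, nat_lit 362, nat_lit 0, nat_lit 546234, [nat_lit 3282000000, nat_lit 6250000000, nat_lit 11872000000], [], [nat_lit 27732439648, nat_lit 28253081018, nat_lit 30737865087, nat_lit 31139800575, nat_lit 29690259278,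 nat_lit 30105096608, nat_lit 32449084832, nat_lit 32957569755], nat_lit 1271250, nat_lit 1271250, nat_lit 1271250, nat_lit 1271250, nat_lit 1100001, nat_lit 2470000, [nat_lit 780000, nat_lit 1435000, nat_lit 1271250], [nat_lit 23, nat_lit 40, nat_lit 40, nat_lit 80, nat_lit 12, nat_lit 538, nat_lit 300, nat_lit 13]⟩,
 zbF0, [⟨nat_lit 0, nat_lit 89, nat_lit 24, nat_lit 100, nat_lit 484510083⟩, ⟨nat_lit 4, nat_lit 100, nat_lit 23, nat_lit 92, nat_lit 575278260⟩, ⟨nat_lit 7, nat_lit 97, nat_lit 94, nat_lit 100, nat_lit 299333685⟩]⟩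
noncomputable def b_V_900_700_20_56 : St := ⟨true, nat_lit 0, nat_lit 1, nat_lit 1, nat_lit 120, nat_lit 380, nat_lit 400, nat_lit 300, nat_lit 320, nat_lit 240, nat_lit 380, nat_lit 80, nat_lit 120, nat_lit 20, nat_lit 160, nat_lit 0, nat_lit 336, nat_lit 120, nat_lit 160, nat_lit 0, nat_lit 0, nat_lit 0, nat_lit 0⟩
theorem d_V_900_700_20_56 (h : EB TB.env) : Dead b_V_900_700_20_56 := chkB_sound0 h (T :=
(.trX (nat_lit 19) (nat_lit 94) (nat_lit 88) (nat_lit 100) (nat_lit 320) (.spl (nat_lit 3) (nat_lit 100)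
(.trX (nat_lit 19) (nat_lit 100) (nat_lit 100) (nat_lit 100) (nat_lit 300) (.spl (nat_lit 0) (nat_lit 390)
(.leaf p126_l26)
(.trX (nat_lit 13) (nat_lit 39) (nat_lit 72) (nat_lit 100) (nat_lit 364) (.trZ (nat_lit 3) (nat_lit 100) (nat_lit 39) (nat_lit 72) (nat_lit 36) (.leaf p126_l27)))))
(.trZ (nat_lit 3) (nat_lit 100) (nat_lit 50) (nat_lit 65) (nat_lit 32) (.spl (nat_lit 5) (nat_lit 160)
(.leaf p126_l28)
(.spl (nat_lit 0) (nat_lit 390)
(.leaf p126_l29)
(.trX (nat_lit 13) (nat_lit 39) (nat_lit 72) (nat_lit 100) (nat_lit 364) (.trZ (nat_lit 3) (nat_lit 100) (nat_lit 36) (nat_lit 77) (nat_lit 48) (.leaf p126_l30))))))))) (by decide +kernel)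
noncomputable def p126_l31 : Lf2 := ⟨nat_lit 0, nat_lit 25, [nat_lit 44, nat_lit 5, nat_lit 5, nat_lit 20], false, nat_lit 160, nat_lit 224, nat_lit 0, nat_lit 320, ⟨nat_lit 1000, nat_lit 0, nat_lit 0, nat_lit 0, nat_lit 0, nat_lit 0, nat_lit 0, nat_lit 0, nat_lit 0, nat_lit 0, nat_lit 0, nat_lit 0, nat_lit 0, nat_lit 0, nat_lit 0, nat_lit 0, false, false⟩,
 nat_lit 0, nat_lit 0, nat_lit 11278, nat_lit 0, nat_lit 7913, nat_lit 7176, nat_lit 0, nat_lit 0, nat_lit 0, nat_lit 767, nat_lit 0, nat_lit 0, nat_lit 0, nat_lit 0, nat_lit 0, nat_lit 0, nat_lit 0, nat_lit 0, [],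
 ⟨p126_k20, nat_lit 0, nat_lit 0, nat_lit 111, nat_lit 0, nat_lit 0, [nat_lit 938000000, nat_lit 3282000000, nat_lit 7968000000], [], [nat_lit 28094280420, nat_lit 29873409028, nat_lit 35619168505, nat_lit 36823895492, nat_lit 29135059237, nat_lit 30713349192, nat_lit 35694181279, nat_lit 36988201394], nat_lit 0, nat_lit 0, nat_lit 0, nat_lit 0, nat_lit 0, nat_lit 0, [], [nat_lit 54, nat_lit 40, nat_lit 40, nat_lit 80, nat_lit 43, nat_lit 272, nat_lit 60, nat_lit 7]⟩, ⟨p126_k21, nat_lit 0, nat_lit 0, nat_lit 344, nat_lit 0, nat_lit 191534, [nat_lit 3282000000, nat_lit 6250000000, nat_lit 11872000000], [], [nat_lit 32862353314, nat_lit 33596775458, nat_lit 38103750466, nat_lit 38899667362, nat_lit 29321072834, nat_lit 29712170882, nat_lit 33587759841, nat_lit 34383676737], nat_lit 1271250, nat_lit 1271250, nat_lit 1271250, nat_lit 1271250, nat_lit 0, nat_lit 2260000, [nat_lit 780000, nat_lit 1435000, nat_lit 1271250],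 [nat_lit 23, nat_lit 40, nat_lit 40, nat_lit 80, nat_lit 12, nat_lit 538, nat_lit 300, nat_lit 13]⟩,
 zbF0, [⟨nat_lit 16, nat_lit 53, nat_lit 100, nat_lit 84, nat_lit 599095875⟩, ⟨nat_lit 19, nat_lit 100, nat_lit 97, nat_lit 94, nat_lit 122351758⟩]⟩
noncomputable def p126_l32 : Lf2 := ⟨nat_lit 0, nat_lit 30, [nat_lit 15, nat_lit 5, nat_lit 5, nat_lit 20], false, nat_lit 160, nat_lit 248, nat_lit 0, nat_lit 336, ⟨nat_lit 1000, nat_lit 0, nat_lit 0, nat_lit 0, nat_lit 0, nat_lit 0, nat_lit 0, nat_lit 0, nat_lit 0, nat_lit 0, nat_lit 0, nat_lit 0, nat_lit 0, nat_lit 0, nat_lit 0, nat_lit 0, false, false⟩,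
 nat_lit 0, nat_lit 0, nat_lit 13506, nat_lit 11599, nat_lit 9909, nat_lit 8594, nat_lit 0, nat_lit 0, nat_lit 0, nat_lit 540, nat_lit 0, nat_lit 0, nat_lit 0, nat_lit 0, nat_lit 0, nat_lit 0, nat_lit 0, nat_lit 0, [],
 ⟨p126_k22, nat_lit 0, nat_lit 0, nat_lit 96, nat_lit 0, nat_lit 0, [nat_lit 938000000, nat_lit 4688000000, nat_lit 9842000000], [], [nat_lit 30525779144, nat_lit 30995668619, nat_lit 38033111050, nat_lit 38344267102, nat_lit 31604348369, nat_lit 31997836379, nat_lit 38211370658, nat_lit 38607033576], nat_lit 0, nat_lit 0, nat_lit 0, nat_lit 0, nat_lit 0, nat_lit 0, [], [nat_lit 81, nat_lit 40, nat_lit 40, nat_lit 80, nat_lit 13, nat_lit 401, nat_lit 175, nat_lit 10]⟩, ⟨p126_k1, nat_lit 0, nat_lit 0, nat_lit 286, nat_lit 0, nat_lit 43071, [nat_lit 3282000000, nat_lit 7968000000, nat_lit 14058000000], [], [nat_lit 36246330344, nat_lit 37113115976, nat_lit 43370975122, nat_lit 44083994556, nat_lit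 31983540498, nat_lit 32391223828, nat_lit 36055927965, nat_lit 36851074680], nat_lit 1271250, nat_lit 1271250, nat_lit 1271250, nat_lit 1271250, nat_lit 0, nat_lit 2373000, [nat_lit 780000, nat_lit 1762500, nat_lit 1271250], [nat_lit 84, nat_lit 40, nat_lit 40, nat_lit 80, nat_lit 28, nat_lit 538, nat_lit 300, nat_lit 12]⟩,
 zbF0, [⟨nat_lit 4, nat_lit 100, nat_lit 59, nat_lit 90, nat_lit 496964059⟩, ⟨nat_lit 7, nat_lit 90, nat_lit 100, nat_lit 100, nat_lit 81782619⟩]⟩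
noncomputable def p126_l33 : Lf2 := ⟨nat_lit 0, nat_lit 30, [nat_lit 15, nat_lit 5, nat_lit 5, nat_lit 20], false, nat_lit 160, nat_lit 240, nat_lit 0, nat_lit 336, ⟨nat_lit 1000, nat_lit 0, nat_lit 0, nat_lit 0, nat_lit 0, nat_lit 0, nat_lit 0, nat_lit 0, nat_lit 0, nat_lit 0, nat_lit 0, nat_lit 0, nat_lit 0, nat_lit 0, nat_lit 0, nat_lit 0, false, false⟩,
 nat_lit 0, nat_lit 0, nat_lit 13506, nat_lit 6369, nat_lit 8831, nat_lit 8594, nat_lit 0, nat_lit 0, nat_lit 0, nat_lit 502, nat_lit 0, nat_lit 0, nat_lit 0, nat_lit 0, nat_lit 0, nat_lit 0, nat_lit 0, nat_lit 0, [],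
 ⟨p126_k23, nat_lit 0, nat_lit 0, nat_lit 97, nat_lit 0, nat_lit 0, [nat_lit 938000000, nat_lit 4688000000, nat_lit 7968000000], [], [nat_lit 28012905364, nat_lit 28491198188, nat_lit 36860125310, nat_lit 37298190869, nat_lit 29183512531, nat_lit 29592908282, nat_lit 37074898897, nat_lit 37450327477], nat_lit 0, nat_lit 0, nat_lit 0, nat_lit 0, nat_lit 0, nat_lit 0, [], [nat_lit 57, nat_lit 40, nat_lit 40, nat_lit 80, nat_lit 7, nat_lit 272, nat_lit 60, nat_lit 7]⟩, ⟨p126_k1, nat_lit 0, nat_lit 0, nat_lit 294, nat_lit 0, nat_lit 67464, [nat_lit 3282000000, nat_lit 7968000000, nat_lit 14058000000], [], [nat_lit 36815855344, nat_lit 37682640976, nat_lit 43940500122, nat_lit 44653519556, nat_lit 32553065498, nat_lit 32960748828, nat_lit 36533908493, nat_lit 36853096905], nat_lit 1271250, nat_lit 1271250, nat_lit 1271250, nat_lit 1271250, nat_lit 0, nat_lit 2373000, [nat_lit 780000, nat_lit 1762500, nat_lit 1271250],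 [nat_lit 84, nat_lit 40, nat_lit 40, nat_lit 80, nat_lit 28, nat_lit 538, nat_lit 300, nat_lit 12]⟩,
 zbF0, [⟨nat_lit 4, nat_lit 100, nat_lit 55, nat_lit 90, nat_lit 433336678⟩, ⟨nat_lit 7, nat_lit 90, nat_lit 100, nat_lit 100, nat_lit 73299624⟩]⟩
noncomputable def p126_l34 : Lf2 := ⟨nat_lit 1, nat_lit 30, [nat_lit 15, nat_lit 5, nat_lit 5, nat_lit 20], false, nat_lit 160, nat_lit 248, nat_lit 0, nat_lit 336, zbN0,
 nat_lit 0, nat_lit 0, nat_lit 0, nat_lit 0, nat_lit 0, nat_lit 0, nat_lit 0, nat_lit 0, nat_lit 0, nat_lit 0, nat_lit 0, nat_lit 0, nat_lit 0, nat_lit 0, nat_lit 0, nat_lit 0, nat_lit 0, nat_lit 0, [],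
 C1.Rw.none, C1.Rw.none,
 zbF0, []⟩
noncomputable def p126_l35 : Lf2 := ⟨nat_lit 0, nat_lit 30, [nat_lit 15, nat_lit 5, nat_lit 5, nat_lit 20], false, nat_lit 160, nat_lit 232, nat_lit 0, nat_lit 336, ⟨nat_lit 1000, nat_lit 0, nat_lit 0, nat_lit 0, nat_lit 0, nat_lit 0, nat_lit 0, nat_lit 0, nat_lit 0, nat_lit 0, nat_lit 0, nat_lit 0, nat_lit 0, nat_lit 0, nat_lit 0, nat_lit 0, false, false⟩,
 nat_lit 0, nat_lit 0, nat_lit 13629, nat_lit 0, nat_lit 8087, nat_lit 8673, nat_lit 0, nat_lit 0, nat_lit 0, nat_lit 605, nat_lit 0, nat_lit 0, nat_lit 0, nat_lit 0, nat_lit 0, nat_lit 0, nat_lit 0, nat_lit 0, [],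
 ⟨p126_k24, nat_lit 0, nat_lit 0, nat_lit 94, nat_lit 0, nat_lit 0, [nat_lit 938000000, nat_lit 4688000000, nat_lit 7968000000], [], [nat_lit 28890467276, nat_lit 29792734972, nat_lit 35437828194, nat_lit 36071991443, nat_lit 29935792651, nat_lit 30722995489, nat_lit 35599155819, nat_lit 36353510436], nat_lit 0, nat_lit 0, nat_lit 0, nat_lit 0, nat_lit 0, nat_lit 0, [], [nat_lit 57, nat_lit 40, nat_lit 40, nat_lit 80, nat_lit 7, nat_lit 272, nat_lit 60, nat_lit 7]⟩, ⟨p126_k1, nat_lit 0, nat_lit 0, nat_lit 372, nat_lit 0, nat_lit 135170, [nat_lit 3282000000, nat_lit 7968000000, nat_lit 14058000000], [], [nat_lit 35222126048, nat_lit 35657198720, nat_lit 41610477198, nat_lit 41990818646, nat_lit 30863684140, nat_lit 31067502831, nat_lit 35193347219, nat_lit 35616878880], nat_lit 1271250, nat_lit 1271250, nat_lit 1271250, nat_lit 1271250, nat_lit 0, nat_lit 2373000, [nat_lit 780000, nat_lit 1762500, nat_lit 1271250],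 [nat_lit 84, nat_lit 40, nat_lit 40, nat_lit 80, nat_lit 28, nat_lit 483, nat_lit 250, nat_lit 11]⟩,
 zbF0, [⟨nat_lit 4, nat_lit 100, nat_lit 48, nat_lit 89, nat_lit 626514657⟩, ⟨nat_lit 19, nat_lit 100, nat_lit 87, nat_lit 99, nat_lit 95605086⟩]⟩
noncomputable def p126_l36 : Lf2 := ⟨nat_lit 0, nat_lit 30, [nat_lit 15, nat_lit 5, nat_lit 5, nat_lit 20], false, nat_lit 160, nat_lit 232, nat_lit 0, nat_lit 328, ⟨nat_lit 1000, nat_lit 0, nat_lit 0, nat_lit 0, nat_lit 0, nat_lit 0, nat_lit 0, nat_lit 0, nat_lit 0, nat_lit 0, nat_lit 0, nat_lit 0, nat_lit 0, nat_lit 0, nat_lit 0, nat_lit 0, false, false⟩,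
 nat_lit 0, nat_lit 0, nat_lit 11730, nat_lit 0, nat_lit 7970, nat_lit 7790, nat_lit 0, nat_lit 0, nat_lit 0, nat_lit 642, nat_lit 0, nat_lit 0, nat_lit 0, nat_lit 0, nat_lit 0, nat_lit 0, nat_lit 0, nat_lit 0, [],
 ⟨p126_k24, nat_lit 0, nat_lit 0, nat_lit 103, nat_lit 0, nat_lit 0, [nat_lit 938000000, nat_lit 4688000000, nat_lit 7968000000], [], [nat_lit 28953255560, nat_lit 29846981320, nat_lit 35962509305, nat_lit 36575329430, nat_lit 30007039263, nat_lit 30787107604, nat_lit 36063967313, nat_lit 36791634028], nat_lit 0, nat_lit 0, nat_lit 0, nat_lit 0, nat_lit 0, nat_lit 0, [], [nat_lit 57, nat_lit 40, nat_lit 40, nat_lit 80, nat_lit 7, nat_lit 272, nat_lit 60, nat_lit 7]⟩, ⟨p126_k25, nat_lit 0, nat_lit 0, nat_lit 389, nat_lit 0, nat_lit 186589, [nat_lit 3282000000, nat_lit 7968000000, nat_lit 14058000000], [], [nat_lit 34158308600, nat_lit 34574605160, nat_lit 40400188060, nat_lit 40753624150, nat_lit 30390250567,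 nat_lit 30601651767, nat_lit 34799182048, nat_lit 35203896275], nat_lit 1271250, nat_lit 1271250, nat_lit 1271250, nat_lit 1271250, nat_lit 0, nat_lit 2316500, [nat_lit 780000, nat_lit 1762500, nat_lit 1271250], [nat_lit 84, nat_lit 40, nat_lit 40, nat_lit 80, nat_lit 28, nat_lit 538, nat_lit 300, nat_lit 12]⟩,
 zbF0, [⟨nat_lit 4, nat_lit 100, nat_lit 48, nat_lit 89, nat_lit 628116418⟩, ⟨nat_lit 7, nat_lit 92, nat_lit 99, nat_lit 100, nat_lit 103898793⟩]⟩
noncomputable def p126_l37 : Lf2 := ⟨nat_lit 1, nat_lit 30, [nat_lit 15, nat_lit 5, nat_lit 5, nat_lit 20], false, nat_lit 160, nat_lit 248, nat_lit 0, nat_lit 336, zbN0,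
 nat_lit 0, nat_lit 0, nat_lit 0, nat_lit 0, nat_lit 0, nat_lit 0, nat_lit 0, nat_lit 0, nat_lit 0, nat_lit 0, nat_lit 0, nat_lit 0, nat_lit 0, nat_lit 0, nat_lit 0, nat_lit 0, nat_lit 0, nat_lit 0, [],
 C1.Rw.none, C1.Rw.none,
 zbF0, []⟩
noncomputable def p126_l38 : Lf2 := ⟨nat_lit 1, nat_lit 30, [nat_lit 15, nat_lit 5, nat_lit 5, nat_lit 20], false, nat_lit 160, nat_lit 248, nat_lit 0, nat_lit 336, zbN0,
 nat_lit 0, nat_lit 0, nat_lit 0, nat_lit 0, nat_lit 0, nat_lit 0, nat_lit 0, nat_lit 0, nat_lit 0, nat_lit 0, nat_lit 0, nat_lit 0, nat_lit 0, nat_lit 0, nat_lit 0, nat_lit 0, nat_lit 0, nat_lit 0, [],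
 C1.Rw.none, C1.Rw.none,
 zbF0, []⟩
noncomputable def p126_l39 : Lf2 := ⟨nat_lit 0, nat_lit 30, [nat_lit 15, nat_lit 5, nat_lit 5, nat_lit 20], false, nat_lit 160, nat_lit 248, nat_lit 0, nat_lit 160, ⟨nat_lit 1000, nat_lit 0, nat_lit 0, nat_lit 0, nat_lit 0, nat_lit 0, nat_lit 0, nat_lit 0, nat_lit 0, nat_lit 0, nat_lit 0, nat_lit 0, nat_lit 0, nat_lit 0, nat_lit 0, nat_lit 0, false, false⟩,
 nat_lit 0, nat_lit 0, nat_lit 9056, nat_lit 0, nat_lit 4272, nat_lit 6269, nat_lit 533, nat_lit 0, nat_lit 0, nat_lit 844, nat_lit 0, nat_lit 0, nat_lit 0, nat_lit 0, nat_lit 0, nat_lit 0, nat_lit 0, nat_lit 0, [],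
 ⟨p126_k26, nat_lit 0, nat_lit 0, nat_lit 131, nat_lit 0, nat_lit 0, [nat_lit 938000000, nat_lit 3282000000, nat_lit 9842000000], [], [nat_lit 25420972902, nat_lit 26572794102, nat_lit 31126222509, nat_lit 31942072368, nat_lit 27003850695, nat_lit 28000948234, nat_lit 32094670790, nat_lit 33004366412], nat_lit 0, nat_lit 0, nat_lit 0, nat_lit 0, nat_lit 0, nat_lit 0, [], [nat_lit 93, nat_lit 40, nat_lit 40, nat_lit 80, nat_lit 63, nat_lit 401, nat_lit 175, nat_lit 10]⟩, ⟨p126_k19, nat_lit 0, nat_lit 0, nat_lit 470, nat_lit 0, nat_lit 483966, [nat_lit 3282000000, nat_lit 6250000000, nat_lit 11872000000], [], [nat_lit 30389842176, nat_lit 30962069788, nat_lit 36763416301, nat_lit 38006797912, nat_lit 26247756836, nat_lit 26706445612, nat_lit 30667125045, nat_lit 31302578734], nat_lit 1271250, nat_lit 1271250, nat_lit 1271250, nat_lit 1271250, nat_lit 0, nat_lit 1100001, [nat_lit 780000, nat_lit 1435000, nat_lit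 1271250], [nat_lit 23, nat_lit 40, nat_lit 40, nat_lit 80, nat_lit 12, nat_lit 456, nat_lit 225, nat_lit 11]⟩,
 zbF0, [⟨nat_lit 4, nat_lit 100, nat_lit 53, nat_lit 87, nat_lit 624792137⟩]⟩
noncomputable def p126_l40 : Lf2 := ⟨nat_lit 0, nat_lit 30, [nat_lit 15, nat_lit 5, nat_lit 5, nat_lit 20], false, nat_lit 160, nat_lit 248, nat_lit 160, nat_lit 320, ⟨nat_lit 1000, nat_lit 0, nat_lit 0, nat_lit 0, nat_lit 0, nat_lit 0, nat_lit 0, nat_lit 0, nat_lit 0, nat_lit 0, nat_lit 0, nat_lit 0, nat_lit 0, nat_lit 0, nat_lit 0, nat_lit 0, false, false⟩,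
 nat_lit 0, nat_lit 0, nat_lit 8998, nat_lit 0, nat_lit 9628, nat_lit 6229, nat_lit 0, nat_lit 0, nat_lit 0, nat_lit 606, nat_lit 0, nat_lit 0, nat_lit 0, nat_lit 0, nat_lit 0, nat_lit 0, nat_lit 0, nat_lit 0, [],
 ⟨p126_k26, nat_lit 0, nat_lit 0, nat_lit 123, nat_lit 0, nat_lit 0, [nat_lit 938000000, nat_lit 3282000000, nat_lit 9842000000], [], [nat_lit 30675997248, nat_lit 31597637648, nat_lit 38607153322, nat_lit 39201851613, nat_lit 31779705857, nat_lit 32552304007, nat_lit 38556927435, nat_lit 39311202886], nat_lit 0, nat_lit 0, nat_lit 0, nat_lit 0, nat_lit 0, nat_lit 0, [], [nat_lit 93, nat_lit 40, nat_lit 40, nat_lit 80, nat_lit 63, nat_lit 401, nat_lit 175, nat_lit 10]⟩, ⟨p126_k19, nat_lit 0, nat_lit 0, nat_lit 259, nat_lit 0, nat_lit 366986, [nat_lit 3282000000, nat_lit 6250000000, nat_lit 11872000000], [], [nat_lit 27901770554, nat_lit 28709859104, nat_lit 33435480634, nat_lit 33936455588, nat_lit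 30984363516, nat_lit 31533314164, nat_lit 35171188050, nat_lit 35589265286], nat_lit 1271250, nat_lit 1271250, nat_lit 1271250, nat_lit 1271250, nat_lit 1100001, nat_lit 2470000, [nat_lit 780000, nat_lit 1435000, nat_lit 1271250], [nat_lit 23, nat_lit 40, nat_lit 40, nat_lit 80, nat_lit 12, nat_lit 538, nat_lit 300, nat_lit 13]⟩,
 zbF0, [⟨nat_lit 4, nat_lit 100, nat_lit 57, nat_lit 87, nat_lit 526693096⟩, ⟨nat_lit 19, nat_lit 93, nat_lit 100, nat_lit 97, nat_lit 321701964⟩]⟩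
noncomputable def p126_l41 : Lf2 := ⟨nat_lit 0, nat_lit 30, [nat_lit 15, nat_lit 5, nat_lit 5, nat_lit 20], false, nat_lit 160, nat_lit 232, nat_lit 160, nat_lit 320, ⟨nat_lit 1000, nat_lit 0, nat_lit 0, nat_lit 0, nat_lit 0, nat_lit 0, nat_lit 0, nat_lit 0, nat_lit 0, nat_lit 0, nat_lit 0, nat_lit 0, nat_lit 0, nat_lit 0, nat_lit 0, nat_lit 0, false, false⟩,
 nat_lit 0, nat_lit 0, nat_lit 8317, nat_lit 0, nat_lit 8011, nat_lit 5757, nat_lit 0, nat_lit 0, nat_lit 0, nat_lit 821, nat_lit 0, nat_lit 0, nat_lit 0, nat_lit 0, nat_lit 0, nat_lit 0, nat_lit 0, nat_lit 0, [],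
 ⟨p126_k27, nat_lit 0, nat_lit 0, nat_lit 114, nat_lit 0, nat_lit 0, [nat_lit 938000000, nat_lit 3282000000, nat_lit 7968000000], [], [nat_lit 28931252828, nat_lit 29827971916, nat_lit 36489587344, nat_lit 37301539600, nat_lit 29982072501, nat_lit 30764640966, nat_lit 36718077911, nat_lit 37427790040], nat_lit 0, nat_lit 0, nat_lit 0, nat_lit 0, nat_lit 0, nat_lit 0, [], [nat_lit 54, nat_lit 40, nat_lit 40, nat_lit 80, nat_lit 43, nat_lit 272, nat_lit 60, nat_lit 7]⟩, ⟨p126_k19, nat_lit 0, nat_lit 0, nat_lit 345, nat_lit 0, nat_lit 483966, [nat_lit 3282000000, nat_lit 6250000000, nat_lit 11872000000], [], [nat_lit 27081062880, nat_lit 27664152482, nat_lit 31187986074, nat_lit 31691901195, nat_lit 29080530328, nat_lit 29621404112, nat_lit 33117195112, nat_lit 33846122814], nat_lit 1271250, nat_lit 1271250, nat_lit 1271250, nat_lit 1271250, nat_lit 1100001, nat_lit 2470000, [nat_lit 780000, nat_lit 1435000, nat_lit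 1271250], [nat_lit 23, nat_lit 40, nat_lit 40, nat_lit 80, nat_lit 12, nat_lit 538, nat_lit 300, nat_lit 13]⟩,
 zbF0, [⟨nat_lit 16, nat_lit 48, nat_lit 100, nat_lit 87, nat_lit 641986142⟩, ⟨nat_lit 19, nat_lit 93, nat_lit 100, nat_lit 97, nat_lit 316563150⟩]⟩
noncomputable def p126_l42 : Lf2 := ⟨nat_lit 0, nat_lit 30, [nat_lit 15, nat_lit 5, nat_lit 5, nat_lit 20], false, nat_lit 160, nat_lit 208, nat_lit 0, nat_lit 160, ⟨nat_lit 1000, nat_lit 0, nat_lit 0, nat_lit 0, nat_lit 0, nat_lit 0, nat_lit 0, nat_lit 0, nat_lit 0, nat_lit 0, nat_lit 0, nat_lit 0, nat_lit 0, nat_lit 0, nat_lit 0, nat_lit 0, false, false⟩,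
 nat_lit 0, nat_lit 0, nat_lit 11646, nat_lit 0, nat_lit 8147, nat_lit 7411, nat_lit 0, nat_lit 0, nat_lit 0, nat_lit 906, nat_lit 0, nat_lit 0, nat_lit 0, nat_lit 0, nat_lit 0, nat_lit 0, nat_lit 0, nat_lit 0, [],
 ⟨p126_k18, nat_lit 0, nat_lit 0, nat_lit 114, nat_lit 0, nat_lit 0, [nat_lit 938000000, nat_lit 3282000000, nat_lit 7968000000], [], [nat_lit 29764916332, nat_lit 31578212684, nat_lit 35817116528, nat_lit 37576522193, nat_lit 30381717098, nat_lit 32040631288, nat_lit 36027233010, nat_lit 37637777222], nat_lit 0, nat_lit 0, nat_lit 0, nat_lit 0, nat_lit 0, nat_lit 0, [], [nat_lit 54, nat_lit 40, nat_lit 40, nat_lit 80, nat_lit 43, nat_lit 272, nat_lit 60, nat_lit 7]⟩, ⟨p126_k3, nat_lit 0, nat_lit 0, nat_lit 613, nat_lit 0, nat_lit 697535, [nat_lit 3282000000, nat_lit 6250000000, nat_lit 14058000000], [], [nat_lit 33269844384, nat_lit 33794343298, nat_lit 37425296661, nat_lit 38162133194, nat_lit 28603054748,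 nat_lit 29102957132, nat_lit 32414013969, nat_lit 32871264457], nat_lit 1271250, nat_lit 1271250, nat_lit 1271250, nat_lit 1271250, nat_lit 0, nat_lit 1100001, [nat_lit 780000, nat_lit 1435000, nat_lit 1271250], [nat_lit 71, nat_lit 40, nat_lit 40, nat_lit 80, nat_lit 68, nat_lit 456, nat_lit 225, nat_lit 10]⟩,
 zbF0, [⟨nat_lit 16, nat_lit 44, nat_lit 100, nat_lit 92, nat_lit 1637174958⟩, ⟨nat_lit 4, nat_lit 100, nat_lit 32, nat_lit 88, nat_lit 993309069⟩]⟩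
noncomputable def p126_l43 : Lf2 := ⟨nat_lit 0, nat_lit 30, [nat_lit 15, nat_lit 5, nat_lit 5, nat_lit 20], false, nat_lit 160, nat_lit 208, nat_lit 160, nat_lit 336, ⟨nat_lit 645, nat_lit 355, nat_lit 0, nat_lit 7, nat_lit 286, nat_lit 355, nat_lit 145, nat_lit 0, nat_lit 0, nat_lit 0, nat_lit 0, nat_lit 0, nat_lit 39096650, nat_lit 20857015, nat_lit 7046335, nat_lit 4894650, true, false⟩,
 nat_lit 0, nat_lit 0, nat_lit 8708, nat_lit 0, nat_lit 4861, nat_lit 5541, nat_lit 0, nat_lit 0, nat_lit 0, nat_lit 392, nat_lit 0, nat_lit 0, nat_lit 0, nat_lit 0, nat_lit 0, nat_lit 88750, nat_lit 0, nat_lit 0, [(nat_lit 29, [(nat_lit 0, nat_lit 355)])],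
 ⟨p126_k0, nat_lit 0, nat_lit 0, nat_lit 73, nat_lit 0, nat_lit 0, [nat_lit 882478000, nat_lit 3575146000, nat_lit 5861198667], [], [nat_lit 25239005466, nat_lit 26005641783, nat_lit 28536735126, nat_lit 29254657759, nat_lit 26232960097, nat_lit 26939660956, nat_lit 29285080836, nat_lit 29974023764], nat_lit 0, nat_lit 0, nat_lit 0, nat_lit 0, nat_lit 0, nat_lit 0, [], [nat_lit 57, nat_lit 40, nat_lit 40, nat_lit 80, nat_lit 7, nat_lit 272, nat_lit 60, nat_lit 7]⟩, ⟨p126_k1, nat_lit 0, nat_lit 0, nat_lit 414, nat_lit 0, nat_lit 545302, [nat_lit 2116890000, nat_lit 5139360000, nat_lit 9067410000], [], [nat_lit 18752940932, nat_lit 19048112570, nat_lit 19697912980, nat_lit 20051032324, nat_lit 19978357399, nat_lit 20241314385, nat_lit 21011536613, nat_lit 21328359106], nat_lit 1271250, nat_lit 1271250, nat_lit 1271250, nat_lit 1271250, nat_lit 1100001, nat_lit 2607000, [nat_lit 780000, nat_lit 1762500, nat_lit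 1271250], [nat_lit 84, nat_lit 40, nat_lit 40, nat_lit 80, nat_lit 28, nat_lit 483, nat_lit 250, nat_lit 10]⟩,
 ⟨nat_lit 1581, nat_lit 2237, ⟨.ofNat (nat_lit 648016), .ofNat (nat_lit 762142), .ofNat (nat_lit 670745), .ofNat (nat_lit 784917), .ofNat (nat_lit 647799), .ofNat (nat_lit 757166), .ofNat (nat_lit 671069), .ofNat (nat_lit 780481)⟩, ⟨.ofNat (nat_lit 306337), .ofNat (nat_lit 374756), .ofNat (nat_lit 351886), .ofNat (nat_lit 420305), .ofNat (nat_lit 305473), .ofNat (nat_lit 371036), .ofNat (nat_lit 352103), .ofNat (nat_lit 417666)⟩⟩, [⟨nat_lit 4, nat_lit 100, nat_lit 38, nat_lit 87, nat_lit 1628800592⟩, ⟨nat_lit 19, nat_lit 100, nat_lit 94, nat_lit 97, nat_lit 186722530⟩]⟩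
noncomputable def p126_l44 : Lf2 := ⟨nat_lit 0, nat_lit 30, [nat_lit 15, nat_lit 5, nat_lit 5, nat_lit 20], false, nat_lit 160, nat_lit 184, nat_lit 160, nat_lit 336, ⟨nat_lit 608, nat_lit 392, nat_lit 0, nat_lit 7, nat_lit 285, nat_lit 392, nat_lit 137, nat_lit 0, nat_lit 0, nat_lit 0, nat_lit 0, nat_lit 0, nat_lit 39580930, nat_lit 20906740, nat_lit 6512330, nat_lit 4814044, true, false⟩,
 nat_lit 0, nat_lit 0, nat_lit 8694, nat_lit 0, nat_lit 4657, nat_lit 5532, nat_lit 0, nat_lit 0, nat_lit 0, nat_lit 368, nat_lit 0, nat_lit 0, nat_lit 0, nat_lit 0, nat_lit 0, nat_lit 98000, nat_lit 0, nat_lit 0, [(nat_lit 29, [(nat_lit 0, nat_lit 392)])],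
 ⟨p126_k6, nat_lit 0, nat_lit 0, nat_lit 78, nat_lit 0, nat_lit 0, [nat_lit 876691200, nat_lit 3389852800, nat_lit 4500268800], [], [nat_lit 25887015171, nat_lit 26635516500, nat_lit 29015732607, nat_lit 29744476808, nat_lit 26357931705, nat_lit 27077437712, nat_lit 29382571609, nat_lit 30084281872], nat_lit 0, nat_lit 0, nat_lit 0, nat_lit 0, nat_lit 0, nat_lit 0, [], [nat_lit 55, nat_lit 40, nat_lit 40, nat_lit 80, nat_lit 3, nat_lit 260, nat_lit 50, nat_lit 8]⟩, ⟨p126_k1, nat_lit 0, nat_lit 0, nat_lit 471, nat_lit 0, nat_lit 697535, [nat_lit 1995456000, nat_lit 4844544000, nat_lit 8547264000], [], [nat_lit 17494054096, nat_lit 17784815344, nat_lit 18345506928, nat_lit 18691040512, nat_lit 18704943367, nat_lit 18962714994, nat_lit 19673183546, nat_lit 19953301098], nat_lit 1271250, nat_lit 1271250, nat_lit 1271250, nat_lit 1271250, nat_lit 1100001, nat_lit 2607000, [nat_lit 780000, nat_lit 1762500, nat_lit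 1271250], [nat_lit 84, nat_lit 40, nat_lit 40, nat_lit 80, nat_lit 28, nat_lit 483, nat_lit 250, nat_lit 10]⟩,
 ⟨nat_lit 0, nat_lit 1582, ⟨.ofNat (nat_lit 646579), .ofNat (nat_lit 757165), .ofNat (nat_lit 669237), .ofNat (nat_lit 780481), .ofNat (nat_lit 648683), .ofNat (nat_lit 749998), .ofNat (nat_lit 673026), .ofNat (nat_lit 774999)⟩, ⟨.ofNat (nat_lit 305469), .ofNat (nat_lit 338250), .ofNat (nat_lit 352101), .ofNat (nat_lit 384882), .ofNat (nat_lit 299995), .ofNat (nat_lit 329995), .ofNat (nat_lit 349997), .ofNat (nat_lit 379997)⟩⟩, [⟨nat_lit 16, nat_lit 31, nat_lit 100, nat_lit 92, nat_lit 2139970621⟩, ⟨nat_lit 7, nat_lit 94, nat_lit 100, nat_lit 97, nat_lit 177465370⟩]⟩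
noncomputable def p126_l45 : Lf2 := ⟨nat_lit 0, nat_lit 25, [nat_lit 44, nat_lit 5, nat_lit 5, nat_lit 20], false, nat_lit 160, nat_lit 188, nat_lit 160, nat_lit 320, ⟨nat_lit 1000, nat_lit 0, nat_lit 0, nat_lit 0, nat_lit 0, nat_lit 0, nat_lit 0, nat_lit 0, nat_lit 0, nat_lit 0, nat_lit 0, nat_lit 0, nat_lit 0, nat_lit 0, nat_lit 0, nat_lit 0, false, false⟩,
 nat_lit 0, nat_lit 0, nat_lit 13768, nat_lit 0, nat_lit 6495, nat_lit 8761, nat_lit 0, nat_lit 0, nat_lit 0, nat_lit 474, nat_lit 0, nat_lit 0, nat_lit 0, nat_lit 0, nat_lit 0, nat_lit 0, nat_lit 0, nat_lit 0, [],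
 ⟨p126_k28, nat_lit 0, nat_lit 0, nat_lit 103, nat_lit 0, nat_lit 0, [nat_lit 938000000, nat_lit 4688000000, nat_lit 6250000000], [], [nat_lit 31200250580, nat_lit 32607761960, nat_lit 33814774929, nat_lit 35089399189, nat_lit 31497082749, nat_lit 32838664058, nat_lit 33983952845, nat_lit 35241672356], nat_lit 0, nat_lit 0, nat_lit 0, nat_lit 0, nat_lit 0, nat_lit 0, [], [nat_lit 55, nat_lit 40, nat_lit 40, nat_lit 80, nat_lit 3, nat_lit 260, nat_lit 50, nat_lit 8]⟩, ⟨p126_k29, nat_lit 0, nat_lit 0, nat_lit 346, nat_lit 0, nat_lit 488121, [nat_lit 3282000000, nat_lit 7968000000, nat_lit 11872000000], [], [nat_lit 31644671972, nat_lit 32134359336, nat_lit 33405623934, nat_lit 33792690145, nat_lit 32359695048, nat_lit 32846165124, nat_lit 34354881815, nat_lit 34830213426], nat_lit 1271250, nat_lit 1271250, nat_lit 1271250, nat_lit 1271250, nat_lit 1100001, nat_lit 2470000, [nat_lit 780000, nat_lit 1762500, nat_lit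 1271250], [nat_lit 79, nat_lit 40, nat_lit 40, nat_lit 80, nat_lit 14, nat_lit 401, nat_lit 175, nat_lit 9]⟩,
 zbF0, [⟨nat_lit 13, nat_lit 35, nat_lit 79, nat_lit 100, nat_lit 234415381⟩, ⟨nat_lit 4, nat_lit 100, nat_lit 32, nat_lit 87, nat_lit 2768687155⟩, ⟨nat_lit 7, nat_lit 97, nat_lit 100, nat_lit 94, nat_lit 262595880⟩]⟩
noncomputable def p126_l46 : Lf2 := ⟨nat_lit 0, nat_lit 30, [nat_lit 15, nat_lit 5, nat_lit 5, nat_lit 20], false, nat_lit 160, nat_lit 208, nat_lit 160, nat_lit 336, ⟨nat_lit 1000, nat_lit 0, nat_lit 0, nat_lit 0, nat_lit 0, nat_lit 0, nat_lit 0, nat_lit 0, nat_lit 0, nat_lit 0, nat_lit 0, nat_lit 0, nat_lit 0, nat_lit 0, nat_lit 0, nat_lit 0, false, false⟩,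
 nat_lit 0, nat_lit 0, nat_lit 7810, nat_lit 324, nat_lit 8105, nat_lit 4969, nat_lit 0, nat_lit 0, nat_lit 0, nat_lit 597, nat_lit 0, nat_lit 0, nat_lit 0, nat_lit 0, nat_lit 0, nat_lit 0, nat_lit 0, nat_lit 0, [],
 ⟨p126_k0, nat_lit 0, nat_lit 0, nat_lit 93, nat_lit 0, nat_lit 0, [nat_lit 938000000, nat_lit 4688000000, nat_lit 7968000000], [], [nat_lit 33130434310, nat_lit 33872082435, nat_lit 35327642870, nat_lit 35987139965, nat_lit 33387105244, nat_lit 34066283196, nat_lit 35383902573, nat_lit 36182005797], nat_lit 0, nat_lit 0, nat_lit 0, nat_lit 0, nat_lit 0, nat_lit 0, [], [nat_lit 57, nat_lit 40, nat_lit 40, nat_lit 80, nat_lit 7, nat_lit 272, nat_lit 60, nat_lit 7]⟩, ⟨p126_k1, nat_lit 0, nat_lit 0, nat_lit 258, nat_lit 0, nat_lit 280421, [nat_lit 3282000000, nat_lit 7968000000, nat_lit 14058000000], [], [nat_lit 31385714508, nat_lit 31694137777, nat_lit 32944670332, nat_lit 33217959776, nat_lit 34510816774,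 nat_lit 34735426136, nat_lit 35702728464, nat_lit 35899486477], nat_lit 1271250, nat_lit 1271250, nat_lit 1271250, nat_lit 1271250, nat_lit 1100001, nat_lit 2607000, [nat_lit 780000, nat_lit 1762500, nat_lit 1271250], [nat_lit 84, nat_lit 40, nat_lit 40, nat_lit 80, nat_lit 28, nat_lit 483, nat_lit 250, nat_lit 10]⟩,
 zbF0, [⟨nat_lit 13, nat_lit 42, nat_lit 75, nat_lit 100, nat_lit 42125678⟩, ⟨nat_lit 16, nat_lit 38, nat_lit 100, nat_lit 90, nat_lit 636064381⟩, ⟨nat_lit 19, nat_lit 100, nat_lit 87, nat_lit 99, nat_lit 307678826⟩]⟩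
noncomputable def p126_l47 : Lf2 := ⟨nat_lit 0, nat_lit 30, [nat_lit 15, nat_lit 5, nat_lit 5, nat_lit 20], false, nat_lit 160, nat_lit 184, nat_lit 160, nat_lit 336, ⟨nat_lit 1000, nat_lit 0, nat_lit 0, nat_lit 0, nat_lit 0, nat_lit 0, nat_lit 0, nat_lit 0, nat_lit 0, nat_lit 0, nat_lit 0, nat_lit 0, nat_lit 0, nat_lit 0, nat_lit 0, nat_lit 0, false, false⟩,
 nat_lit 0, nat_lit 0, nat_lit 13098, nat_lit 0, nat_lit 4744, nat_lit 8335, nat_lit 208, nat_lit 0, nat_lit 0, nat_lit 582, nat_lit 0, nat_lit 0, nat_lit 0, nat_lit 0, nat_lit 0, nat_lit 0, nat_lit 0, nat_lit 0, [],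
 ⟨p126_k6, nat_lit 0, nat_lit 0, nat_lit 89, nat_lit 0, nat_lit 0, [nat_lit 938000000, nat_lit 4688000000, nat_lit 6250000000], [], [nat_lit 29410410024, nat_lit 30004794752, nat_lit 30491244841, nat_lit 31133168519, nat_lit 29713653344, nat_lit 30285947773, nat_lit 30755047156, nat_lit 31419654073], nat_lit 0, nat_lit 0, nat_lit 0, nat_lit 0, nat_lit 0, nat_lit 0, [], [nat_lit 55, nat_lit 40, nat_lit 40, nat_lit 80, nat_lit 3, nat_lit 260, nat_lit 50, nat_lit 8]⟩, ⟨p126_k1, nat_lit 0, nat_lit 0, nat_lit 368, nat_lit 0, nat_lit 428982, [nat_lit 3282000000, nat_lit 7968000000, nat_lit 14058000000], [], [nat_lit 31542075200, nat_lit 31707500105, nat_lit 32275468913, nat_lit 32521300915, nat_lit 33081221424, nat_lit 33310199854, nat_lit 33906150663, nat_lit 34124012421], nat_lit 1271250, nat_lit 1271250, nat_lit 1271250, nat_lit 1271250, nat_lit 1100001, nat_lit 2607000, [nat_lit 780000, nat_lit 1762500, nat_lit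 1271250], [nat_lit 84, nat_lit 40, nat_lit 40, nat_lit 80, nat_lit 28, nat_lit 483, nat_lit 250, nat_lit 10]⟩,
 zbF0, [⟨nat_lit 16, nat_lit 31, nat_lit 100, nat_lit 92, nat_lit 2750710322⟩, ⟨nat_lit 7, nat_lit 87, nat_lit 100, nat_lit 99, nat_lit 276773138⟩]⟩
noncomputable def p126_l48 : Lf2 := ⟨nat_lit 0, nat_lit 30, [nat_lit 15, nat_lit 5, nat_lit 5, nat_lit 20], false, nat_lit 160, nat_lit 208, nat_lit 160, nat_lit 328, ⟨nat_lit 1000, nat_lit 0, nat_lit 0, nat_lit 0, nat_lit 0, nat_lit 0, nat_lit 0, nat_lit 0, nat_lit 0, nat_lit 0, nat_lit 0, nat_lit 0, nat_lit 0, nat_lit 0, nat_lit 0, nat_lit 0, false, false⟩,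
 nat_lit 0, nat_lit 0, nat_lit 11519, nat_lit 0, nat_lit 4882, nat_lit 7649, nat_lit 307, nat_lit 0, nat_lit 0, nat_lit 593, nat_lit 0, nat_lit 0, nat_lit 0, nat_lit 0, nat_lit 0, nat_lit 0, nat_lit 0, nat_lit 0, [],
 ⟨p126_k0, nat_lit 0, nat_lit 0, nat_lit 112, nat_lit 0, nat_lit 0, [nat_lit 938000000, nat_lit 4688000000, nat_lit 7968000000], [], [nat_lit 29485308254, nat_lit 30608111954, nat_lit 31615954418, nat_lit 32660991557, nat_lit 30040909860, nat_lit 31080431134, nat_lit 32009146945, nat_lit 33117099492], nat_lit 0, nat_lit 0, nat_lit 0, nat_lit 0, nat_lit 0, nat_lit 0, [], [nat_lit 57, nat_lit 40, nat_lit 40, nat_lit 80, nat_lit 7, nat_lit 272, nat_lit 60, nat_lit 7]⟩, ⟨p126_k25, nat_lit 0, nat_lit 0, nat_lit 378, nat_lit 0, nat_lit 455984, [nat_lit 3282000000, nat_lit 7968000000, nat_lit 14058000000], [], [nat_lit 31237575948, nat_lit 31505311376, nat_lit 33014216976, nat_lit 33232885075, nat_lit 32653666078,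 nat_lit 32888166949, nat_lit 34303422146, nat_lit 34506884359], nat_lit 1271250, nat_lit 1271250, nat_lit 1271250, nat_lit 1271250, nat_lit 1100001, nat_lit 2538500, [nat_lit 780000, nat_lit 1762500, nat_lit 1271250], [nat_lit 84, nat_lit 40, nat_lit 40, nat_lit 80, nat_lit 28, nat_lit 483, nat_lit 250, nat_lit 10]⟩,
 zbF0, [⟨nat_lit 4, nat_lit 100, nat_lit 32, nat_lit 90, nat_lit 2081863771⟩, ⟨nat_lit 7, nat_lit 92, nat_lit 99, nat_lit 100, nat_lit 267243768⟩]⟩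
noncomputable def p126_l49 : Lf2 := ⟨nat_lit 1, nat_lit 30, [nat_lit 15, nat_lit 5, nat_lit 5, nat_lit 20], false, nat_lit 160, nat_lit 208, nat_lit 160, nat_lit 336, zbN0,
 nat_lit 0, nat_lit 0, nat_lit 0, nat_lit 0, nat_lit 0, nat_lit 0, nat_lit 0, nat_lit 0, nat_lit 0, nat_lit 0, nat_lit 0, nat_lit 0, nat_lit 0, nat_lit 0, nat_lit 0, nat_lit 0, nat_lit 0, nat_lit 0, [],
 C1.Rw.none, C1.Rw.none,
 zbF0, []⟩
noncomputable def p126_l50 : Lf2 := ⟨nat_lit 0, nat_lit 30, [nat_lit 15, nat_lit 5, nat_lit 5, nat_lit 20], false, nat_lit 160, nat_lit 208, nat_lit 0, nat_lit 160, ⟨nat_lit 1000, nat_lit 0, nat_lit 0, nat_lit 0, nat_lit 0, nat_lit 0, nat_lit 0, nat_lit 0, nat_lit 0, nat_lit 0, nat_lit 0, nat_lit 0, nat_lit 0, nat_lit 0, nat_lit 0, nat_lit 0, false, false⟩,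
 nat_lit 0, nat_lit 0, nat_lit 9318, nat_lit 0, nat_lit 7908, nat_lit 6450, nat_lit 0, nat_lit 0, nat_lit 0, nat_lit 791, nat_lit 0, nat_lit 0, nat_lit 0, nat_lit 0, nat_lit 0, nat_lit 0, nat_lit 0, nat_lit 0, [],
 ⟨p126_k18, nat_lit 0, nat_lit 0, nat_lit 121, nat_lit 0, nat_lit 0, [nat_lit 938000000, nat_lit 3282000000, nat_lit 7968000000], [], [nat_lit 29875727248, nat_lit 31654125776, nat_lit 36580133252, nat_lit 38141619528, nat_lit 30505963447, nat_lit 32133813181, nat_lit 36636532768, nat_lit 38154699682], nat_lit 0, nat_lit 0, nat_lit 0, nat_lit 0, nat_lit 0, nat_lit 0, [], [nat_lit 54, nat_lit 40, nat_lit 40, nat_lit 80, nat_lit 43, nat_lit 272, nat_lit 60, nat_lit 7]⟩, ⟨p126_k19, nat_lit 0, nat_lit 0, nat_lit 563, nat_lit 0, nat_lit 733121, [nat_lit 3282000000, nat_lit 6250000000, nat_lit 11872000000], [], [nat_lit 31697330400, nat_lit 32120328600, nat_lit 36487811575, nat_lit 37269114275, nat_lit 27762882650,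 nat_lit 28186077550, nat_lit 30871455200, nat_lit 31301805000], nat_lit 1271250, nat_lit 1271250, nat_lit 1271250, nat_lit 1271250, nat_lit 0, nat_lit 1100001, [nat_lit 780000, nat_lit 1435000, nat_lit 1271250], [nat_lit 23, nat_lit 40, nat_lit 40, nat_lit 80, nat_lit 12, nat_lit 456, nat_lit 225, nat_lit 11]⟩,
 zbF0, [⟨nat_lit 16, nat_lit 44, nat_lit 100, nat_lit 92, nat_lit 1693152311⟩, ⟨nat_lit 4, nat_lit 100, nat_lit 32, nat_lit 88, nat_lit 195248945⟩]⟩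
noncomputable def p126_l51 : Lf2 := ⟨nat_lit 0, nat_lit 30, [nat_lit 15, nat_lit 5, nat_lit 5, nat_lit 20], false, nat_lit 160, nat_lit 208, nat_lit 160, nat_lit 320, ⟨nat_lit 1000, nat_lit 0, nat_lit 0, nat_lit 0, nat_lit 0, nat_lit 0, nat_lit 0, nat_lit 0, nat_lit 0, nat_lit 0, nat_lit 0, nat_lit 0, nat_lit 0, nat_lit 0, nat_lit 0, nat_lit 0, false, false⟩,
 nat_lit 0, nat_lit 0, nat_lit 9305, nat_lit 0, nat_lit 8609, nat_lit 6441, nat_lit 0, nat_lit 0, nat_lit 0, nat_lit 822, nat_lit 0, nat_lit 0, nat_lit 0, nat_lit 0, nat_lit 0, nat_lit 0, nat_lit 0, nat_lit 0, [],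
 ⟨p126_k18, nat_lit 0, nat_lit 0, nat_lit 84, nat_lit 0, nat_lit 0, [nat_lit 938000000, nat_lit 3282000000, nat_lit 7968000000], [], [nat_lit 29550712804, nat_lit 31431468548, nat_lit 32977632598, nat_lit 34726937096, nat_lit 30141542148, nat_lit 31860505619, nat_lit 33187557936, nat_lit 35051796733], nat_lit 0, nat_lit 0, nat_lit 0, nat_lit 0, nat_lit 0, nat_lit 0, [], [nat_lit 54, nat_lit 40, nat_lit 40, nat_lit 80, nat_lit 43, nat_lit 272, nat_lit 60, nat_lit 7]⟩, ⟨p126_k19, nat_lit 0, nat_lit 0, nat_lit 443, nat_lit 0, nat_lit 733121, [nat_lit 3282000000, nat_lit 6250000000, nat_lit 11872000000], [], [nat_lit 26278667654, nat_lit 26738612718, nat_lit 27835341152, nat_lit 28341107418, nat_lit 28120466222, nat_lit 28547016662, nat_lit 29950643744, nat_lit 30599446456], nat_lit 1271250, nat_lit 1271250, nat_lit 1271250, nat_lit 1271250, nat_lit 1100001, nat_lit 2470000, [nat_lit 780000, nat_lit 1435000, nat_lit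 1271250], [nat_lit 23, nat_lit 40, nat_lit 40, nat_lit 80, nat_lit 12, nat_lit 483, nat_lit 250, nat_lit 11]⟩,
 zbF0, [⟨nat_lit 0, nat_lit 87, nat_lit 32, nat_lit 100, nat_lit 236460972⟩, ⟨nat_lit 4, nat_lit 100, nat_lit 32, nat_lit 88, nat_lit 1697469721⟩, ⟨nat_lit 7, nat_lit 100, nat_lit 93, nat_lit 97, nat_lit 311254610⟩]⟩
noncomputable def p126_l52 : Lf2 := ⟨nat_lit 0, nat_lit 30, [nat_lit 15, nat_lit 5, nat_lit 5, nat_lit 20], false, nat_lit 160, nat_lit 208, nat_lit 160, nat_lit 320, ⟨nat_lit 1000, nat_lit 0, nat_lit 0, nat_lit 0, nat_lit 0, nat_lit 0, nat_lit 0, nat_lit 0, nat_lit 0, nat_lit 0, nat_lit 0, nat_lit 0, nat_lit 0, nat_lit 0, nat_lit 0, nat_lit 0, false, false⟩,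
 nat_lit 0, nat_lit 0, nat_lit 8719, nat_lit 0, nat_lit 6553, nat_lit 6036, nat_lit 122, nat_lit 0, nat_lit 0, nat_lit 746, nat_lit 0, nat_lit 0, nat_lit 0, nat_lit 0, nat_lit 0, nat_lit 0, nat_lit 0, nat_lit 0, [],
 ⟨p126_k18, nat_lit 0, nat_lit 0, nat_lit 121, nat_lit 0, nat_lit 0, [nat_lit 938000000, nat_lit 3282000000, nat_lit 7968000000], [], [nat_lit 31817860316, nat_lit 33127565366, nat_lit 34902013757, nat_lit 36006039982, nat_lit 32218478009, nat_lit 33423302623, nat_lit 35046449392, nat_lit 36193709536], nat_lit 0, nat_lit 0, nat_lit 0, nat_lit 0, nat_lit 0, nat_lit 0, [], [nat_lit 54, nat_lit 40, nat_lit 40, nat_lit 80, nat_lit 43, nat_lit 272, nat_lit 60, nat_lit 7]⟩, ⟨p126_k19, nat_lit 0, nat_lit 0, nat_lit 435, nat_lit 0, nat_lit 733121, [nat_lit 3282000000, nat_lit 6250000000, nat_lit 11872000000], [], [nat_lit 30619446658, nat_lit 30981773986, nat_lit 32115333942, nat_lit 32461755318, nat_lit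 31694179318, nat_lit 32026769046, nat_lit 33230982626, nat_lit 33675882232], nat_lit 1271250, nat_lit 1271250, nat_lit 1271250, nat_lit 1271250, nat_lit 1100001, nat_lit 2470000, [nat_lit 780000, nat_lit 1435000, nat_lit 1271250], [nat_lit 23, nat_lit 40, nat_lit 40, nat_lit 80, nat_lit 12, nat_lit 401, nat_lit 175, nat_lit 9]⟩,
 zbF0, [⟨nat_lit 13, nat_lit 37, nat_lit 74, nat_lit 100, nat_lit 1358527⟩, ⟨nat_lit 16, nat_lit 32, nat_lit 100, nat_lit 88, nat_lit 1619664446⟩, ⟨nat_lit 19, nat_lit 93, nat_lit 100, nat_lit 97, nat_lit 285985447⟩]⟩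
noncomputable def b_V_900_700_20_57 : St := ⟨true, nat_lit 0, nat_lit 1, nat_lit 1, nat_lit 120, nat_lit 360, nat_lit 400, nat_lit 280, nat_lit 320, nat_lit 240, nat_lit 392, nat_lit 80, nat_lit 120, nat_lit 160, nat_lit 248, nat_lit 0, nat_lit 336, nat_lit 120, nat_lit 160, nat_lit 0, nat_lit 0, nat_lit 0, nat_lit 0⟩
theorem d_V_900_700_20_57 (h : EB TB.env) : Dead b_V_900_700_20_57 := chkB_sound0 h (T :=
(.spl (nat_lit 0) (nat_lit 380)
(.spl (nat_lit 1) (nat_lit 300)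
(.trX (nat_lit 13) (nat_lit 69) (nat_lit 45) (nat_lit 100) (nat_lit 384) (.spl (nat_lit 6) (nat_lit 144)
(.spl (nat_lit 3) (nat_lit 100)
(.trX (nat_lit 16) (nat_lit 60) (nat_lit 100) (nat_lit 87) (nat_lit 224) (.trX (nat_lit 19) (nat_lit 100) (nat_lit 88) (nat_lit 94) (nat_lit 320) (.leaf p126_l31)))
(.spl (nat_lit 6) (nat_lit 136)
(.spl (nat_lit 0) (nat_lit 370)
(.spl (nat_lit 6) (nat_lit 128)
(.spl (nat_lit 0) (nat_lit 365)
(.leaf p126_l32)
(.trX (nat_lit 16) (nat_lit 58) (nat_lit 100) (nat_lit 93) (nat_lit 240) (.leaf p126_l33)))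
(.leaf p126_l34))
(.trX (nat_lit 13) (nat_lit 61) (nat_lit 55) (nat_lit 100) (nat_lit 380) (.trX (nat_lit 16) (nat_lit 53) (nat_lit 100) (nat_lit 93) (nat_lit 232) (.spl (nat_lit 1) (nat_lit 290)
(.trX (nat_lit 13) (nat_lit 59) (nat_lit 58) (nat_lit 100) (nat_lit 372) (.leaf p126_l35))
(.trX (nat_lit 19) (nat_lit 97) (nat_lit 84) (nat_lit 100) (nat_lit 328) (.leaf p126_l36))))))
(.leaf p126_l37)))
(.leaf p126_l38)))
(.trX (nat_lit 19) (nat_lit 94) (nat_lit 88) (nat_lit 100) (nat_lit 320) (.spl (nat_lit 5) (nat_lit 160)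
(.leaf p126_l39)
(.spl (nat_lit 0) (nat_lit 370)
(.leaf p126_l40)
(.trX (nat_lit 13) (nat_lit 66) (nat_lit 45) (nat_lit 100) (nat_lit 388) (.trX (nat_lit 16) (nat_lit 53) (nat_lit 100) (nat_lit 93) (nat_lit 232) (.leaf p126_l41)))))))
(.trX (nat_lit 13) (nat_lit 54) (nat_lit 57) (nat_lit 100) (nat_lit 380) (.trX (nat_lit 16) (nat_lit 44) (nat_lit 100) (nat_lit 92) (nat_lit 208) (.spl (nat_lit 1) (nat_lit 300)
(.trX (nat_lit 13) (nat_lit 50) (nat_lit 65) (nat_lit 100) (nat_lit 368) (.spl (nat_lit 5) (nat_lit 160)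
(.leaf p126_l42)
(.spl (nat_lit 2) (nat_lit 320)
(.spl (nat_lit 0) (nat_lit 390)
(.leaf p126_l43)
(.trX (nat_lit 16) (nat_lit 31) (nat_lit 100) (nat_lit 92) (nat_lit 184) (.leaf p126_l44)))
(.spl (nat_lit 3) (nat_lit 100)
(.trX (nat_lit 16) (nat_lit 44) (nat_lit 100) (nat_lit 87) (nat_lit 188) (.trX (nat_lit 19) (nat_lit 100) (nat_lit 88) (nat_lit 94) (nat_lit 320) (.leaf p126_l45)))
(.spl (nat_lit 6) (nat_lit 152)
(.spl (nat_lit 1) (nat_lit 290)
(.trX (nat_lit 13) (nat_lit 49) (nat_lit 68) (nat_lit 100) (nat_lit 360) (.spl (nat_lit 0) (nat_lit 390)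
(.leaf p126_l46)
(.trX (nat_lit 13) (nat_lit 35) (nat_lit 79) (nat_lit 100) (nat_lit 344) (.trX (nat_lit 16) (nat_lit 31) (nat_lit 100) (nat_lit 92) (nat_lit 184) (.leaf p126_l47)))))
(.trX (nat_lit 19) (nat_lit 97) (nat_lit 84) (nat_lit 100) (nat_lit 328) (.leaf p126_l48)))
(.leaf p126_l49))))))
(.trX (nat_lit 19) (nat_lit 94) (nat_lit 88) (nat_lit 100) (nat_lit 320) (.spl (nat_lit 5) (nat_lit 160)
(.leaf p126_l50)
(.spl (nat_lit 2) (nat_lit 320)
(.leaf p126_l51)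
(.leaf p126_l52))))))))) (by decide +kernel)
noncomputable def p126_l53 : Lf2 := ⟨nat_lit 0, nat_lit 30, [nat_lit 15, nat_lit 5, nat_lit 5, nat_lit 20], false, nat_lit 8, nat_lit 248, nat_lit 0, nat_lit 160, ⟨nat_lit 939, nat_lit 61, nat_lit 0, nat_lit 7, nat_lit 285, nat_lit 61, nat_lit 94, nat_lit 0, nat_lit 0, nat_lit 0, nat_lit 0, nat_lit 0, nat_lit 0, nat_lit 0, nat_lit 0, nat_lit 5000000, false, false⟩,
 nat_lit 0, nat_lit 0, nat_lit 0, nat_lit 10521, nat_lit 6162, nat_lit 7190, nat_lit 189, nat_lit 0, nat_lit 0, nat_lit 612, nat_lit 0, nat_lit 0, nat_lit 0, nat_lit 0, nat_lit 0, nat_lit 24400, nat_lit 0, nat_lit 0, [(nat_lit 26, [(nat_lit 1, nat_lit 61)]), (nat_lit 29, [(nat_lit 1, nat_lit 61)])],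
 ⟨p126_k22, nat_lit 0, nat_lit 0, nat_lit 217, nat_lit 0, nat_lit 0, [nat_lit 940025201, nat_lit 4462080400, nat_lit 9287485600], [], [nat_lit 31698459122, nat_lit 35531596299, nat_lit 40965342492, nat_lit 43142233727, nat_lit 29747931317, nat_lit 32152100609, nat_lit 35906565221, nat_lit 37529085366], nat_lit 0, nat_lit 0, nat_lit 0, nat_lit 0, nat_lit 0, nat_lit 0, [], [nat_lit 81, nat_lit 40, nat_lit 40, nat_lit 80, nat_lit 13, nat_lit 401, nat_lit 175, nat_lit 11]⟩, ⟨p126_k1, nat_lit 0, nat_lit 0, nat_lit 276, nat_lit 0, nat_lit 0, [nat_lit 3081798000, nat_lit 7481952000, nat_lit 13200462000], [], [nat_lit 32113949220, nat_lit 33996220288, nat_lit 38633845260, nat_lit 39881231663, nat_lit 26798532634, nat_lit 28374326367, nat_lit 32683288981, nat_lit 33815887397], nat_lit 0, nat_lit 0, nat_lit 0, nat_lit 0, nat_lit 0, nat_lit 0, [], [nat_lit 84, nat_lit 40, nat_lit 40, nat_lit 80, nat_lit 28, nat_lit 456,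 nat_lit 225, nat_lit 10]⟩,
 ⟨nat_lit 0, nat_lit 3163, ⟨.ofNat (nat_lit 507176), .ofNat (nat_lit 881191), .ofNat (nat_lit 548877), .ofNat (nat_lit 925502), .ofNat (nat_lit 531701), .ofNat (nat_lit 839996), .ofNat (nat_lit 579091), .ofNat (nat_lit 889997)⟩, ⟨.ofNat (nat_lit 20000), .ofNat (nat_lit 440207), .ofNat (nat_lit 20000), .ofNat (nat_lit 484518), .ofNat (nat_lit 20000), .ofNat (nat_lit 409993), .ofNat (nat_lit 20000), .ofNat (nat_lit 459993)⟩⟩, [⟨nat_lit 0, nat_lit 87, nat_lit 44, nat_lit 100, nat_lit 363856136⟩, ⟨nat_lit 16, nat_lit 44, nat_lit 100, nat_lit 87, nat_lit 122552384⟩]⟩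
noncomputable def p126_l54 : Lf2 := ⟨nat_lit 0, nat_lit 30, [nat_lit 15, nat_lit 5, nat_lit 5, nat_lit 20], false, nat_lit 8, nat_lit 248, nat_lit 160, nat_lit 336, ⟨nat_lit 1000, nat_lit 0, nat_lit 0, nat_lit 0, nat_lit 0, nat_lit 0, nat_lit 0, nat_lit 0, nat_lit 0, nat_lit 0, nat_lit 0, nat_lit 0, nat_lit 0, nat_lit 0, nat_lit 0, nat_lit 0, false, false⟩,
 nat_lit 0, nat_lit 0, nat_lit 0, nat_lit 5259, nat_lit 6317, nat_lit 10842, nat_lit 207, nat_lit 0, nat_lit 0, nat_lit 0, nat_lit 0, nat_lit 0, nat_lit 0, nat_lit 0, nat_lit 0, nat_lit 0, nat_lit 0, nat_lit 0, [],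
 ⟨p126_k22, nat_lit 0, nat_lit 0, nat_lit 217, nat_lit 0, nat_lit 0, [nat_lit 938000000, nat_lit 4688000000, nat_lit 9842000000], [], [nat_lit 32078580546, nat_lit 35972464764, nat_lit 41417442939, nat_lit 43626997347, nat_lit 30006632990, nat_lit 32393993887, nat_lit 36130746254, nat_lit 37769514441], nat_lit 0, nat_lit 0, nat_lit 0, nat_lit 0, nat_lit 0, nat_lit 0, [], [nat_lit 81, nat_lit 40, nat_lit 40, nat_lit 80, nat_lit 13, nat_lit 401, nat_lit 175, nat_lit 11]⟩, ⟨p126_k1, nat_lit 0, nat_lit 0, nat_lit 101, nat_lit 0, nat_lit 0, [nat_lit 3282000000, nat_lit 7968000000, nat_lit 14058000000], [], [nat_lit 15298604986, nat_lit 19721445549, nat_lit 33617021853, nat_lit 36541091529, nat_lit 26156529116, nat_lit 30010293265, nat_lit 39247951604, nat_lit 40907089857], nat_lit 0, nat_lit 0, nat_lit 0, nat_lit 0, nat_lit 0, nat_lit 0, [], [nat_lit 84, nat_lit 40, nat_lit 40, nat_lit 80, nat_lit 28, nat_lit 538,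 nat_lit 300, nat_lit 12]⟩,
 zbF0, [⟨nat_lit 4, nat_lit 100, nat_lit 44, nat_lit 87, nat_lit 223638553⟩, ⟨nat_lit 19, nat_lit 100, nat_lit 80, nat_lit 100, nat_lit 388371728⟩]⟩
noncomputable def p126_l55 : Lf2 := ⟨nat_lit 0, nat_lit 30, [nat_lit 15, nat_lit 5, nat_lit 5, nat_lit 20], true, nat_lit 8, nat_lit 248, nat_lit 0, nat_lit 336, ⟨nat_lit 0, nat_lit 1000, nat_lit 0, nat_lit 7, nat_lit 242, nat_lit 1000, nat_lit 94, nat_lit 0, nat_lit 0, nat_lit 0, nat_lit 0, nat_lit 0, nat_lit 0, nat_lit 0, nat_lit 0, nat_lit 5000000, false, false⟩,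
 nat_lit 0, nat_lit 0, nat_lit 0, nat_lit 4072, nat_lit 5336, nat_lit 0, nat_lit 53, nat_lit 0, nat_lit 0, nat_lit 0, nat_lit 0, nat_lit 0, nat_lit 0, nat_lit 0, nat_lit 0, nat_lit 250000, nat_lit 0, nat_lit 0, [(nat_lit 26, [(nat_lit 0, nat_lit 1000)]), (nat_lit 29, [(nat_lit 0, nat_lit 1000)])],
 ⟨p126_k26, nat_lit 0, nat_lit 0, nat_lit 197, nat_lit 0, nat_lit 0, [nat_lit 781600001, nat_lit 1432000001, nat_lit 2936000000], [], [nat_lit 26902455327, nat_lit 30411869557, nat_lit 28714003584, nat_lit 31719744375, nat_lit 25531933079, nat_lit 28097657345, nat_lit 26744863623, nat_lit 28956824602], nat_lit 0, nat_lit 0, nat_lit 0, nat_lit 0, nat_lit 0, nat_lit 0, [], [nat_lit 93, nat_lit 40, nat_lit 40, nat_lit 80, nat_lit 63, nat_lit 345, nat_lit 125, nat_lit 9]⟩, C1.Rw.none,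
 ⟨nat_lit 0, nat_lit 3163, ⟨.ofNat (nat_lit 507176), .ofNat (nat_lit 646918), .ofNat (nat_lit 548877), .ofNat (nat_lit 688618), .ofNat (nat_lit 531701), .ofNat (nat_lit 647345), .ofNat (nat_lit 579091), .ofNat (nat_lit 694736)⟩, ⟨.ofNat (nat_lit 20000), .ofNat (nat_lit 440207), .ofNat (nat_lit 20000), .ofNat (nat_lit 484518), .ofNat (nat_lit 20000), .ofNat (nat_lit 409993), .ofNat (nat_lit 20000), .ofNat (nat_lit 459993)⟩⟩, [⟨nat_lit 0, nat_lit 87, nat_lit 44, nat_lit 100, nat_lit 130170923⟩]⟩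
noncomputable def p126_l56 : Lf2 := ⟨nat_lit 0, nat_lit 30, [nat_lit 15, nat_lit 5, nat_lit 5, nat_lit 20], true, nat_lit 8, nat_lit 160, nat_lit 0, nat_lit 336, ⟨nat_lit 0, nat_lit 1000, nat_lit 0, nat_lit 7, nat_lit 291, nat_lit 1000, nat_lit 69, nat_lit 0, nat_lit 0, nat_lit 0, nat_lit 0, nat_lit 0, nat_lit 0, nat_lit 0, nat_lit 0, nat_lit 5000000, true, false⟩,
 nat_lit 0, nat_lit 0, nat_lit 0, nat_lit 5333, nat_lit 3075, nat_lit 0, nat_lit 203, nat_lit 0, nat_lit 0, nat_lit 0, nat_lit 0, nat_lit 0, nat_lit 0, nat_lit 0, nat_lit 0, nat_lit 261850, nat_lit 0, nat_lit 0, [(nat_lit 26, [(nat_lit 0, nat_lit 921), (nat_lit 1, nat_lit 79)]), (nat_lit 29, [(nat_lit 0, nat_lit 921), (nat_lit 1, nat_lit 79)])],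
 ⟨p126_k26, nat_lit 0, nat_lit 0, nat_lit 196, nat_lit 0, nat_lit 0, [nat_lit 787098401, nat_lit 1399736401, nat_lit 2760362686], [], [nat_lit 24911362958, nat_lit 27191073936, nat_lit 27701283116, nat_lit 29654068101, nat_lit 24479234539, nat_lit 26217008239, nat_lit 26698176839, nat_lit 28209596639], nat_lit 0, nat_lit 0, nat_lit 0, nat_lit 0, nat_lit 0, nat_lit 0, [], [nat_lit 93, nat_lit 40, nat_lit 40, nat_lit 80, nat_lit 63, nat_lit 345, nat_lit 125, nat_lit 9]⟩, C1.Rw.none,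
 ⟨nat_lit 0, nat_lit 3163, ⟨.ofNat (nat_lit 646918), .ofNat (nat_lit 771478), .ofNat (nat_lit 688618), .ofNat (nat_lit 815384), .ofNat (nat_lit 647345), .ofNat (nat_lit 749999), .ofNat (nat_lit 694736), .ofNat (nat_lit 799594)⟩, ⟨.ofNat (nat_lit 20000), .ofNat (nat_lit 306113), .ofNat (nat_lit 20000), .ofNat (nat_lit 350425), .ofNat (nat_lit 20000), .ofNat (nat_lit 299996), .ofNat (nat_lit 20000), .ofNat (nat_lit 349998)⟩⟩, [⟨nat_lit 3, nat_lit 100, nat_lit 50, nat_lit 65, nat_lit 43265673⟩]⟩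
noncomputable def p126_l57 : Lf2 := ⟨nat_lit 0, nat_lit 30, [nat_lit 15, nat_lit 5, nat_lit 5, nat_lit 20], false, nat_lit 8, nat_lit 160, nat_lit 0, nat_lit 336, ⟨nat_lit 77, nat_lit 923, nat_lit 0, nat_lit 8, nat_lit 330, nat_lit 923, nat_lit 70, nat_lit 0, nat_lit 0, nat_lit 0, nat_lit 0, nat_lit 0, nat_lit 0, nat_lit 0, nat_lit 0, nat_lit 5000000, true, true⟩,
 nat_lit 0, nat_lit 0, nat_lit 833, nat_lit 5305, nat_lit 3083, nat_lit 529, nat_lit 219, nat_lit 0, nat_lit 0, nat_lit 57, nat_lit 0, nat_lit 0, nat_lit 0, nat_lit 0, nat_lit 0, nat_lit 235850, nat_lit 0, nat_lit 0, [(nat_lit 26, [(nat_lit 0, nat_lit 889), (nat_lit 1, nat_lit 34)])],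
 ⟨p126_k26, nat_lit 0, nat_lit 0, nat_lit 207, nat_lit 0, nat_lit 0, [nat_lit 781785200, nat_lit 1560564401, nat_lit 3380159257], [], [nat_lit 28811557902, nat_lit 29527167889, nat_lit 30815069762, nat_lit 31856682910, nat_lit 27718556358, nat_lit 28352345250, nat_lit 29498810495, nat_lit 30066286046], nat_lit 0, nat_lit 0, nat_lit 0, nat_lit 0, nat_lit 0, nat_lit 0, [], [nat_lit 93, nat_lit 40, nat_lit 40, nat_lit 80, nat_lit 63, nat_lit 249, nat_lit 40, nat_lit 6]⟩, ⟨p126_k3, nat_lit 0, nat_lit 0, nat_lit 449, nat_lit 0, nat_lit 398926, [nat_lit 252714000, nat_lit 481250000, nat_lit 1082466000], [], [nat_lit 2959392568, nat_lit 2990944228, nat_lit 3116462608, nat_lit 3139616718, nat_lit 2612440763, nat_lit 2631983803, nat_lit 2717008428, nat_lit 2743310971], nat_lit 1271250, nat_lit 1271250, nat_lit 1271250, nat_lit 1271250, nat_lit 0, nat_lit 2373000, [nat_lit 780000, nat_lit 1435000, nat_lit 1271250], [nat_lit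 71, nat_lit 40, nat_lit 40, nat_lit 80, nat_lit 68, nat_lit 538, nat_lit 300, nat_lit 12]⟩,
 ⟨nat_lit 2236, nat_lit 3163, ⟨.ofNat (nat_lit 771478), .ofNat (nat_lit 869004), .ofNat (nat_lit 793619), .ofNat (nat_lit 891158), .ofNat (nat_lit 762142), .ofNat (nat_lit 853367), .ofNat (nat_lit 784902), .ofNat (nat_lit 876141)⟩, ⟨.ofNat (nat_lit 20000), .ofNat (nat_lit 306116), .ofNat (nat_lit 20000), .ofNat (nat_lit 350426), .ofNat (nat_lit 20000), .ofNat (nat_lit 306337), .ofNat (nat_lit 20000), .ofNat (nat_lit 351886)⟩⟩, [⟨nat_lit 13, nat_lit 59, nat_lit 58, nat_lit 100, nat_lit 355295470⟩, ⟨nat_lit 10, nat_lit 100, nat_lit 45, nat_lit 83, nat_lit 23289522⟩]⟩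
noncomputable def p126_l58 : Lf2 := ⟨nat_lit 0, nat_lit 30, [nat_lit 15, nat_lit 5, nat_lit 5, nat_lit 20], true, nat_lit 20, nat_lit 160, nat_lit 0, nat_lit 336, ⟨nat_lit 0, nat_lit 1000, nat_lit 0, nat_lit 8, nat_lit 320, nat_lit 1000, nat_lit 75, nat_lit 0, nat_lit 0, nat_lit 0, nat_lit 0, nat_lit 0, nat_lit 0, nat_lit 0, nat_lit 0, nat_lit 5000000, true, true⟩,
 nat_lit 0, nat_lit 0, nat_lit 0, nat_lit 4907, nat_lit 2644, nat_lit 0, nat_lit 0, nat_lit 0, nat_lit 0, nat_lit 0, nat_lit 0, nat_lit 0, nat_lit 0, nat_lit 0, nat_lit 0, nat_lit 396550, nat_lit 0, nat_lit 0, [(nat_lit 29, [(nat_lit 0, nat_lit 23), (nat_lit 1, nat_lit 977)])],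
 ⟨p126_k18, nat_lit 0, nat_lit 0, nat_lit 178, nat_lit 0, nat_lit 0, [nat_lit 700313600, nat_lit 348624400, nat_lit 99990400], [], [nat_lit 27438668424, nat_lit 28421697372, nat_lit 29422827632, nat_lit 30541814814, nat_lit 27005003128, nat_lit 27827604784, nat_lit 28659087034, nat_lit 29448106276], nat_lit 0, nat_lit 0, nat_lit 0, nat_lit 0, nat_lit 0, nat_lit 0, [], [nat_lit 54, nat_lit 40, nat_lit 40, nat_lit 80, nat_lit 43, nat_lit 249, nat_lit 40, nat_lit 7]⟩, C1.Rw.none,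
 ⟨nat_lit 0, nat_lit 2237, ⟨.ofNat (nat_lit 762141), .ofNat (nat_lit 830557), .ofNat (nat_lit 784917), .ofNat (nat_lit 853333), .ofNat (nat_lit 749998), .ofNat (nat_lit 809995), .ofNat (nat_lit 774999), .ofNat (nat_lit 834997)⟩, ⟨.ofNat (nat_lit 50000), .ofNat (nat_lit 306334), .ofNat (nat_lit 50000), .ofNat (nat_lit 351885), .ofNat (nat_lit 50000), .ofNat (nat_lit 299996), .ofNat (nat_lit 50000), .ofNat (nat_lit 349998)⟩⟩, [⟨nat_lit 13, nat_lit 50, nat_lit 65, nat_lit 100, nat_lit 594549191⟩]⟩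
noncomputable def p126_l59 : Lf2 := ⟨nat_lit 0, nat_lit 30, [nat_lit 15, nat_lit 5, nat_lit 5, nat_lit 20], false, nat_lit 8, nat_lit 160, nat_lit 0, nat_lit 320, ⟨nat_lit 801, nat_lit 199, nat_lit 0, nat_lit 8, nat_lit 343, nat_lit 199, nat_lit 70, nat_lit 0, nat_lit 0, nat_lit 0, nat_lit 0, nat_lit 0, nat_lit 0, nat_lit 0, nat_lit 0, nat_lit 5000000, true, true⟩,
 nat_lit 0, nat_lit 0, nat_lit 6860, nat_lit 0, nat_lit 4189, nat_lit 4749, nat_lit 447, nat_lit 0, nat_lit 0, nat_lit 590, nat_lit 0, nat_lit 0, nat_lit 0, nat_lit 0, nat_lit 0, nat_lit 79600, nat_lit 0, nat_lit 0, [(nat_lit 26, [(nat_lit 1, nat_lit 199)])],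
 ⟨p126_k26, nat_lit 0, nat_lit 0, nat_lit 206, nat_lit 0, nat_lit 0, [nat_lit 920726800, nat_lit 2832578401, nat_lit 8033010400], [], [nat_lit 30478943658, nat_lit 30874042087, nat_lit 34364549085, nat_lit 35003836087, nat_lit 28198573252, nat_lit 28551075864, nat_lit 30867770015, nat_lit 31245411851], nat_lit 0, nat_lit 0, nat_lit 0, nat_lit 0, nat_lit 0, nat_lit 0, [], [nat_lit 93, nat_lit 40, nat_lit 40, nat_lit 80, nat_lit 63, nat_lit 249, nat_lit 40, nat_lit 6]⟩, ⟨p126_k19, nat_lit 0, nat_lit 0, nat_lit 398, nat_lit 0, nat_lit 366986, [nat_lit 2628882000, nat_lit 5006250000, nat_lit 9509472000], [], [nat_lit 28216641786, nat_lit 28563919566, nat_lit 30121300161, nat_lit 30457454471, nat_lit 25760911656, nat_lit 26028041514, nat_lit 27173757724, nat_lit 27459364432], nat_lit 1271250, nat_lit 1271250, nat_lit 1271250, nat_lit 1271250, nat_lit 0, nat_lit 2260000, [nat_lit 780000, nat_lit 1435000, nat_lit 1271250],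 [nat_lit 23, nat_lit 40, nat_lit 40, nat_lit 80, nat_lit 12, nat_lit 401, nat_lit 175, nat_lit 10]⟩,
 ⟨nat_lit 2738, nat_lit 3163, ⟨.ofNat (nat_lit 793629), .ofNat (nat_lit 903349), .ofNat (nat_lit 815772), .ofNat (nat_lit 925504), .ofNat (nat_lit 789265), .ofNat (nat_lit 895580), .ofNat (nat_lit 811670), .ofNat (nat_lit 917997)⟩, ⟨.ofNat (nat_lit 20000), .ofNat (nat_lit 306116), .ofNat (nat_lit 20000), .ofNat (nat_lit 350426), .ofNat (nat_lit 20000), .ofNat (nat_lit 306433), .ofNat (nat_lit 20000), .ofNat (nat_lit 351268)⟩⟩, [⟨nat_lit 19, nat_lit 93, nat_lit 100, nat_lit 97, nat_lit 112734752⟩]⟩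
noncomputable def p126_l60 : Lf2 := ⟨nat_lit 0, nat_lit 30, [nat_lit 15, nat_lit 5, nat_lit 5, nat_lit 20], false, nat_lit 12, nat_lit 160, nat_lit 0, nat_lit 320, ⟨nat_lit 455, nat_lit 545, nat_lit 0, nat_lit 8, nat_lit 339, nat_lit 545, nat_lit 72, nat_lit 0, nat_lit 0, nat_lit 0, nat_lit 0, nat_lit 0, nat_lit 0, nat_lit 0, nat_lit 0, nat_lit 5000000, true, true⟩,
 nat_lit 0, nat_lit 0, nat_lit 3878, nat_lit 0, nat_lit 3220, nat_lit 2684, nat_lit 326, nat_lit 0, nat_lit 0, nat_lit 328, nat_lit 0, nat_lit 0, nat_lit 0, nat_lit 0, nat_lit 0, nat_lit 136250, nat_lit 0, nat_lit 0, [(nat_lit 26, [(nat_lit 0, nat_lit 545)])],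
 ⟨p126_k27, nat_lit 0, nat_lit 0, nat_lit 185, nat_lit 0, nat_lit 0, [nat_lit 844042001, nat_lit 2239306001, nat_lit 4994916000], [], [nat_lit 28705346845, nat_lit 29119308498, nat_lit 31798086664, nat_lit 32372504317, nat_lit 27687532961, nat_lit 28045384041, nat_lit 29816233734, nat_lit 30132932556], nat_lit 0, nat_lit 0, nat_lit 0, nat_lit 0, nat_lit 0, nat_lit 0, [], [nat_lit 54, nat_lit 40, nat_lit 40, nat_lit 80, nat_lit 43, nat_lit 249, nat_lit 40, nat_lit 7]⟩, ⟨p126_k19, nat_lit 0, nat_lit 0, nat_lit 463, nat_lit 0, nat_lit 483966, [nat_lit 1493310000, nat_lit 2843750000, nat_lit 5401760000], [], [nat_lit 16224856600, nat_lit 16422088128, nat_lit 17201653844, nat_lit 17395552087, nat_lit 14780802062, nat_lit 14932657624, nat_lit 15506501583, nat_lit 15622132978], nat_lit 1271250, nat_lit 1271250, nat_lit 1271250, nat_lit 1271250, nat_lit 0, nat_lit 2260000, [nat_lit 780000, nat_lit 1435000, nat_lit 1271250],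 [nat_lit 23, nat_lit 40, nat_lit 40, nat_lit 80, nat_lit 12, nat_lit 401, nat_lit 175, nat_lit 10]⟩,
 ⟨nat_lit 2236, nat_lit 2739, ⟨.ofNat (nat_lit 789269), .ofNat (nat_lit 889674), .ofNat (nat_lit 811671), .ofNat (nat_lit 912091), .ofNat (nat_lit 784917), .ofNat (nat_lit 881843), .ofNat (nat_lit 807675), .ofNat (nat_lit 904617)⟩, ⟨.ofNat (nat_lit 30000), .ofNat (nat_lit 306433), .ofNat (nat_lit 30000), .ofNat (nat_lit 351268), .ofNat (nat_lit 30000), .ofNat (nat_lit 306337), .ofNat (nat_lit 30000), .ofNat (nat_lit 351886)⟩⟩, [⟨nat_lit 7, nat_lit 100, nat_lit 93, nat_lit 97, nat_lit 21169298⟩, ⟨nat_lit 10, nat_lit 100, nat_lit 40, nat_lit 84, nat_lit 111358397⟩]⟩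
noncomputable def p126_l61 : Lf2 := ⟨nat_lit 0, nat_lit 30, [nat_lit 15, nat_lit 5, nat_lit 5, nat_lit 20], false, nat_lit 20, nat_lit 160, nat_lit 0, nat_lit 320, ⟨nat_lit 274, nat_lit 726, nat_lit 0, nat_lit 8, nat_lit 333, nat_lit 726, nat_lit 75, nat_lit 0, nat_lit 0, nat_lit 0, nat_lit 0, nat_lit 0, nat_lit 0, nat_lit 0, nat_lit 0, nat_lit 5000000, true, true⟩,
 nat_lit 0, nat_lit 0, nat_lit 2546, nat_lit 0, nat_lit 4144, nat_lit 1762, nat_lit 64, nat_lit 0, nat_lit 0, nat_lit 190, nat_lit 0, nat_lit 0, nat_lit 0, nat_lit 0, nat_lit 0, nat_lit 181500, nat_lit 0, nat_lit 0, [(nat_lit 29, [(nat_lit 0, nat_lit 726)])],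
 ⟨p126_k18, nat_lit 0, nat_lit 0, nat_lit 181, nat_lit 0, nat_lit 0, [nat_lit 824453601, nat_lit 1665052800, nat_lit 3757492560], [], [nat_lit 31294427084, nat_lit 32481294032, nat_lit 34199817558, nat_lit 35514430436, nat_lit 29185414928, nat_lit 30225673328, nat_lit 31725864296, nat_lit 32623138096], nat_lit 0, nat_lit 0, nat_lit 0, nat_lit 0, nat_lit 0, nat_lit 0, [], [nat_lit 54, nat_lit 40, nat_lit 40, nat_lit 80, nat_lit 43, nat_lit 249, nat_lit 40, nat_lit 7]⟩, ⟨p126_k19, nat_lit 0, nat_lit 0, nat_lit 555, nat_lit 0, nat_lit 733121, [nat_lit 899268000, nat_lit 1712500000, nat_lit 3252928000], [], [nat_lit 9753266896, nat_lit 9906735052, nat_lit 10370430126, nat_lit 10500976814, nat_lit 8689539900, nat_lit 8755719308, nat_lit 9214033376, nat_lit 9344580064], nat_lit 1271250, nat_lit 1271250, nat_lit 1271250, nat_lit 1271250, nat_lit 0, nat_lit 2260000, [nat_lit 780000, nat_lit 1435000, nat_lit 1271250],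 [nat_lit 23, nat_lit 40, nat_lit 40, nat_lit 80, nat_lit 12, nat_lit 401, nat_lit 175, nat_lit 10]⟩,
 ⟨nat_lit 0, nat_lit 2237, ⟨.ofNat (nat_lit 784917), .ofNat (nat_lit 870437), .ofNat (nat_lit 807594), .ofNat (nat_lit 893212), .ofNat (nat_lit 774999), .ofNat (nat_lit 849996), .ofNat (nat_lit 799902), .ofNat (nat_lit 874997)⟩, ⟨.ofNat (nat_lit 50000), .ofNat (nat_lit 306334), .ofNat (nat_lit 50000), .ofNat (nat_lit 351885), .ofNat (nat_lit 50000), .ofNat (nat_lit 299996), .ofNat (nat_lit 50000), .ofNat (nat_lit 349998)⟩⟩, [⟨nat_lit 13, nat_lit 37, nat_lit 74, nat_lit 100, nat_lit 528984966⟩, ⟨nat_lit 10, nat_lit 80, nat_lit 66, nat_lit 100, nat_lit 49535036⟩]⟩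
noncomputable def p126_l62 : Lf2 := ⟨nat_lit 0, nat_lit 30, [nat_lit 15, nat_lit 5, nat_lit 5, nat_lit 20], true, nat_lit 160, nat_lit 248, nat_lit 0, nat_lit 336, ⟨nat_lit 0, nat_lit 1000, nat_lit 0, nat_lit 7, nat_lit 286, nat_lit 1000, nat_lit 155, nat_lit 0, nat_lit 0, nat_lit 0, nat_lit 0, nat_lit 0, nat_lit 0, nat_lit 0, nat_lit 0, nat_lit 5000000, true, false⟩,
 nat_lit 0, nat_lit 0, nat_lit 0, nat_lit 9747, nat_lit 5261, nat_lit 0, nat_lit 0, nat_lit 0, nat_lit 0, nat_lit 0, nat_lit 0, nat_lit 0, nat_lit 0, nat_lit 0, nat_lit 0, nat_lit 250000, nat_lit 0, nat_lit 0, [(nat_lit 26, [(nat_lit 0, nat_lit 1000)]), (nat_lit 29, [(nat_lit 0, nat_lit 1000)])],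
 ⟨p126_k26, nat_lit 0, nat_lit 0, nat_lit 92, nat_lit 0, nat_lit 0, [nat_lit 781600001, nat_lit 1432000001, nat_lit 2936000000], [], [nat_lit 26104525576, nat_lit 28663527776, nat_lit 28917369172, nat_lit 31064398264, nat_lit 27598923473, nat_lit 29795534412, nat_lit 29941459833, nat_lit 31790567690], nat_lit 0, nat_lit 0, nat_lit 0, nat_lit 0, nat_lit 0, nat_lit 0, [], [nat_lit 93, nat_lit 40, nat_lit 40, nat_lit 80, nat_lit 63, nat_lit 373, nat_lit 150, nat_lit 9]⟩, C1.Rw.none,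
 ⟨nat_lit 0, nat_lit 3163, ⟨.ofNat (nat_lit 646918), .ofNat (nat_lit 771478), .ofNat (nat_lit 667768), .ofNat (nat_lit 793633), .ofNat (nat_lit 647345), .ofNat (nat_lit 749999), .ofNat (nat_lit 671040), .ofNat (nat_lit 774999)⟩, ⟨.ofNat (nat_lit 306113), .ofNat (nat_lit 440207), .ofNat (nat_lit 350425), .ofNat (nat_lit 484518), .ofNat (nat_lit 299996), .ofNat (nat_lit 409993), .ofNat (nat_lit 349998), .ofNat (nat_lit 459993)⟩⟩, [⟨nat_lit 16, nat_lit 44, nat_lit 100, nat_lit 87, nat_lit 401135427⟩]⟩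
noncomputable def p126_l63 : Lf2 := ⟨nat_lit 0, nat_lit 30, [nat_lit 15, nat_lit 5, nat_lit 5, nat_lit 20], false, nat_lit 160, nat_lit 248, nat_lit 16, nat_lit 336, ⟨nat_lit 836, nat_lit 164, nat_lit 0, nat_lit 8, nat_lit 332, nat_lit 164, nat_lit 158, nat_lit 0, nat_lit 0, nat_lit 0, nat_lit 0, nat_lit 0, nat_lit 0, nat_lit 0, nat_lit 0, nat_lit 5000000, true, true⟩,
 nat_lit 0, nat_lit 0, nat_lit 10363, nat_lit 0, nat_lit 5018, nat_lit 6594, nat_lit 375, nat_lit 0, nat_lit 0, nat_lit 449, nat_lit 0, nat_lit 0, nat_lit 0, nat_lit 0, nat_lit 0, nat_lit 41000, nat_lit 0, nat_lit 0, [(nat_lit 26, [(nat_lit 0, nat_lit 164)])],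
 ⟨p126_k22, nat_lit 0, nat_lit 0, nat_lit 96, nat_lit 0, nat_lit 0, [nat_lit 909726401, nat_lit 4221846400, nat_lit 8678584000], [], [nat_lit 28978349736, nat_lit 29240763573, nat_lit 31837860980, nat_lit 32059874644, nat_lit 30040349272, nat_lit 30266843258, nat_lit 32497359721, nat_lit 32723987056], nat_lit 0, nat_lit 0, nat_lit 0, nat_lit 0, nat_lit 0, nat_lit 0, [], [nat_lit 81, nat_lit 40, nat_lit 40, nat_lit 80, nat_lit 13, nat_lit 289, nat_lit 75, nat_lit 7]⟩, ⟨p126_k1, nat_lit 0, nat_lit 0, nat_lit 378, nat_lit 0, nat_lit 185632, [nat_lit 2743752000, nat_lit 6661248000, nat_lit 11752488000], [], [nat_lit 32095221683, nat_lit 32631084633, nat_lit 34608891015, nat_lit 35186720932, nat_lit 28820209425, nat_lit 29067397485, nat_lit 30331545804, nat_lit 30604919601], nat_lit 1271250, nat_lit 1271250, nat_lit 1271250, nat_lit 1271250, nat_lit 88400, nat_lit 2396400, [nat_lit 780000, nat_lit 1762500, nat_lit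 1271250], [nat_lit 84, nat_lit 40, nat_lit 40, nat_lit 80, nat_lit 28, nat_lit 538, nat_lit 300, nat_lit 12]⟩,
 ⟨nat_lit 2958, nat_lit 3163, ⟨.ofNat (nat_lit 771478), .ofNat (nat_lit 869004), .ofNat (nat_lit 793632), .ofNat (nat_lit 891158), .ofNat (nat_lit 769170), .ofNat (nat_lit 865203), .ofNat (nat_lit 791446), .ofNat (nat_lit 887481)⟩, ⟨.ofNat (nat_lit 306116), .ofNat (nat_lit 440213), .ofNat (nat_lit 350426), .ofNat (nat_lit 484523), .ofNat (nat_lit 306315), .ofNat (nat_lit 438361), .ofNat (nat_lit 350869), .ofNat (nat_lit 482915)⟩⟩, [⟨nat_lit 4, nat_lit 100, nat_lit 59, nat_lit 87, nat_lit 437440881⟩, ⟨nat_lit 19, nat_lit 100, nat_lit 94, nat_lit 97, nat_lit 92734079⟩]⟩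
noncomputable def p126_l64 : Lf2 := ⟨nat_lit 0, nat_lit 30, [nat_lit 15, nat_lit 5, nat_lit 5, nat_lit 20], false, nat_lit 160, nat_lit 240, nat_lit 16, nat_lit 336, ⟨nat_lit 563, nat_lit 437, nat_lit 0, nat_lit 8, nat_lit 331, nat_lit 437, nat_lit 155, nat_lit 0, nat_lit 0, nat_lit 0, nat_lit 0, nat_lit 0, nat_lit 0, nat_lit 0, nat_lit 0, nat_lit 5000000, true, true⟩,
 nat_lit 0, nat_lit 0, nat_lit 6840, nat_lit 0, nat_lit 6301, nat_lit 4352, nat_lit 0, nat_lit 0, nat_lit 0, nat_lit 294, nat_lit 0, nat_lit 0, nat_lit 0, nat_lit 0, nat_lit 0, nat_lit 109250, nat_lit 0, nat_lit 0, [(nat_lit 26, [(nat_lit 0, nat_lit 437)])],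
 ⟨p126_k23, nat_lit 0, nat_lit 0, nat_lit 97, nat_lit 0, nat_lit 0, [nat_lit 862661200, nat_lit 3388886400, nat_lit 5584077600], [], [nat_lit 30332305885, nat_lit 30652685597, nat_lit 33735327374, nat_lit 34002619077, nat_lit 31165985809, nat_lit 31444022486, nat_lit 34104437118, nat_lit 34352497819], nat_lit 0, nat_lit 0, nat_lit 0, nat_lit 0, nat_lit 0, nat_lit 0, [], [nat_lit 57, nat_lit 40, nat_lit 40, nat_lit 80, nat_lit 7, nat_lit 272, nat_lit 60, nat_lit 7]⟩, ⟨p126_k1, nat_lit 0, nat_lit 0, nat_lit 399, nat_lit 0, nat_lit 251690, [nat_lit 1847766000, nat_lit 4485984000, nat_lit 7914654000], [], [nat_lit 21801302320, nat_lit 22160218333, nat_lit 23461949121, nat_lit 23733111055, nat_lit 19702904119, nat_lit 19870450399, nat_lit 20620832399, nat_lit 20771612405], nat_lit 1271250, nat_lit 1271250, nat_lit 1271250, nat_lit 1271250, nat_lit 88400, nat_lit 2396400, [nat_lit 780000, nat_lit 1762500, nat_lit 1271250],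 [nat_lit 84, nat_lit 40, nat_lit 40, nat_lit 80, nat_lit 28, nat_lit 538, nat_lit 300, nat_lit 12]⟩,
 ⟨nat_lit 2738, nat_lit 2959, ⟨.ofNat (nat_lit 769170), .ofNat (nat_lit 865203), .ofNat (nat_lit 791446), .ofNat (nat_lit 887481), .ofNat (nat_lit 766852), .ofNat (nat_lit 861350), .ofNat (nat_lit 789269), .ofNat (nat_lit 883768)⟩, ⟨.ofNat (nat_lit 306315), .ofNat (nat_lit 426357), .ofNat (nat_lit 350869), .ofNat (nat_lit 470911), .ofNat (nat_lit 306433), .ofNat (nat_lit 424556), .ofNat (nat_lit 351268), .ofNat (nat_lit 469390)⟩⟩, [⟨nat_lit 13, nat_lit 61, nat_lit 56, nat_lit 100, nat_lit 213302760⟩, ⟨nat_lit 4, nat_lit 100, nat_lit 55, nat_lit 87, nat_lit 375555155⟩, ⟨nat_lit 19, nat_lit 100, nat_lit 94, nat_lit 97, nat_lit 64480278⟩]⟩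
noncomputable def p126_l65 : Lf2 := ⟨nat_lit 1, nat_lit 30, [nat_lit 15, nat_lit 5, nat_lit 5, nat_lit 20], false, nat_lit 160, nat_lit 248, nat_lit 16, nat_lit 336, zbN0,
 nat_lit 0, nat_lit 0, nat_lit 0, nat_lit 0, nat_lit 0, nat_lit 0, nat_lit 0, nat_lit 0, nat_lit 0, nat_lit 0, nat_lit 0, nat_lit 0, nat_lit 0, nat_lit 0, nat_lit 0, nat_lit 0, nat_lit 0, nat_lit 0, [],
 C1.Rw.none, C1.Rw.none,
 zbF0, []⟩
noncomputable def p126_l66 : Lf2 := ⟨nat_lit 0, nat_lit 30, [nat_lit 15, nat_lit 5, nat_lit 5, nat_lit 20], false, nat_lit 160, nat_lit 232, nat_lit 16, nat_lit 336, ⟨nat_lit 353, nat_lit 647, nat_lit 0, nat_lit 8, nat_lit 328, nat_lit 647, nat_lit 152, nat_lit 0, nat_lit 0, nat_lit 0, nat_lit 0, nat_lit 0, nat_lit 0, nat_lit 0, nat_lit 0, nat_lit 5000000, true, true⟩,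
 nat_lit 0, nat_lit 0, nat_lit 4607, nat_lit 650, nat_lit 5519, nat_lit 2931, nat_lit 0, nat_lit 0, nat_lit 0, nat_lit 191, nat_lit 0, nat_lit 0, nat_lit 0, nat_lit 0, nat_lit 0, nat_lit 161750, nat_lit 0, nat_lit 0, [(nat_lit 26, [(nat_lit 0, nat_lit 647)])],
 ⟨p126_k24, nat_lit 0, nat_lit 0, nat_lit 103, nat_lit 0, nat_lit 0, [nat_lit 826457200, nat_lit 2764598400, nat_lit 4438485600], [], [nat_lit 29787912143, nat_lit 30384938218, nat_lit 32728079374, nat_lit 33235720961, nat_lit 30601329525, nat_lit 31129718766, nat_lit 33194172661, nat_lit 33668473993], nat_lit 0, nat_lit 0, nat_lit 0, nat_lit 0, nat_lit 0, nat_lit 0, [], [nat_lit 57, nat_lit 40, nat_lit 40, nat_lit 80, nat_lit 7, nat_lit 272, nat_lit 60, nat_lit 7]⟩, ⟨p126_k1, nat_lit 0, nat_lit 0, nat_lit 445, nat_lit 0, nat_lit 391762, [nat_lit 1158546000, nat_lit 2812704000, nat_lit 4962474000], [], [nat_lit 13764518113, nat_lit 13917472445, nat_lit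 14639185787, nat_lit 14891912661, nat_lit 12158718576, nat_lit 12267521637, nat_lit 12701524598, nat_lit 12789523155], nat_lit 1271250, nat_lit 1271250, nat_lit 1271250, nat_lit 1271250, nat_lit 88400, nat_lit 2396400, [nat_lit 780000, nat_lit 1762500, nat_lit 1271250], [nat_lit 84, nat_lit 40, nat_lit 40, nat_lit 80, nat_lit 28, nat_lit 538, nat_lit 300, nat_lit 12]⟩,
 ⟨nat_lit 2236, nat_lit 2739, ⟨.ofNat (nat_lit 766852), .ofNat (nat_lit 855444), .ofNat (nat_lit 789269), .ofNat (nat_lit 877861), .ofNat (nat_lit 762142), .ofNat (nat_lit 847666), .ofNat (nat_lit 784917), .ofNat (nat_lit 870440)⟩, ⟨.ofNat (nat_lit 306433), .ofNat (nat_lit 412743), .ofNat (nat_lit 351268), .ofNat (nat_lit 457578), .ofNat (nat_lit 306337), .ofNat (nat_lit 408965), .ofNat (nat_lit 351886), .ofNat (nat_lit 454514)⟩⟩, [⟨nat_lit 13, nat_lit 54, nat_lit 63, nat_lit 100, nat_lit 366209843⟩, ⟨nat_lit 4, nat_lit 100, nat_lit 48, nat_lit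 87, nat_lit 397654126⟩, ⟨nat_lit 7, nat_lit 94, nat_lit 100, nat_lit 97, nat_lit 36573418⟩]⟩
noncomputable def p126_l67 : Lf2 := ⟨nat_lit 1, nat_lit 30, [nat_lit 15, nat_lit 5, nat_lit 5, nat_lit 20], false, nat_lit 160, nat_lit 248, nat_lit 16, nat_lit 336, zbN0,
 nat_lit 0, nat_lit 0, nat_lit 0, nat_lit 0, nat_lit 0, nat_lit 0, nat_lit 0, nat_lit 0, nat_lit 0, nat_lit 0, nat_lit 0, nat_lit 0, nat_lit 0, nat_lit 0, nat_lit 0, nat_lit 0, nat_lit 0, nat_lit 0, [],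
 C1.Rw.none, C1.Rw.none,
 zbF0, []⟩
noncomputable def p126_l68 : Lf2 := ⟨nat_lit 0, nat_lit 30, [nat_lit 15, nat_lit 5, nat_lit 5, nat_lit 20], true, nat_lit 160, nat_lit 208, nat_lit 16, nat_lit 336, ⟨nat_lit 0, nat_lit 1000, nat_lit 0, nat_lit 8, nat_lit 320, nat_lit 1000, nat_lit 144, nat_lit 0, nat_lit 0, nat_lit 0, nat_lit 0, nat_lit 0, nat_lit 0, nat_lit 0, nat_lit 0, nat_lit 5000000, true, true⟩,
 nat_lit 0, nat_lit 0, nat_lit 0, nat_lit 3559, nat_lit 4198, nat_lit 0, nat_lit 0, nat_lit 0, nat_lit 0, nat_lit 0, nat_lit 0, nat_lit 0, nat_lit 0, nat_lit 0, nat_lit 0, nat_lit 250000, nat_lit 0, nat_lit 0, [(nat_lit 29, [(nat_lit 0, nat_lit 1000)])],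
 ⟨p126_k18, nat_lit 0, nat_lit 0, nat_lit 114, nat_lit 0, nat_lit 0, [nat_lit 781600001, nat_lit 1054800000, nat_lit 2212560000], [], [nat_lit 28559510756, nat_lit 29605809056, nat_lit 30571002752, nat_lit 31631214236, nat_lit 29178552815, nat_lit 30150409525, nat_lit 31044532392, nat_lit 32170041738], nat_lit 0, nat_lit 0, nat_lit 0, nat_lit 0, nat_lit 0, nat_lit 0, [], [nat_lit 54, nat_lit 40, nat_lit 40, nat_lit 80, nat_lit 43, nat_lit 272, nat_lit 60, nat_lit 7]⟩, C1.Rw.none,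
 ⟨nat_lit 0, nat_lit 2237, ⟨.ofNat (nat_lit 762141), .ofNat (nat_lit 830557), .ofNat (nat_lit 784917), .ofNat (nat_lit 853333), .ofNat (nat_lit 749998), .ofNat (nat_lit 809995), .ofNat (nat_lit 774999), .ofNat (nat_lit 834997)⟩, ⟨.ofNat (nat_lit 306334), .ofNat (nat_lit 374750), .ofNat (nat_lit 351885), .ofNat (nat_lit 420300), .ofNat (nat_lit 299996), .ofNat (nat_lit 359993), .ofNat (nat_lit 349998), .ofNat (nat_lit 409994)⟩⟩, [⟨nat_lit 13, nat_lit 50, nat_lit 65, nat_lit 100, nat_lit 638698826⟩, ⟨nat_lit 16, nat_lit 44, nat_lit 100, nat_lit 92, nat_lit 358719241⟩]⟩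
noncomputable def p126_l69 : Lf2 := ⟨nat_lit 0, nat_lit 30, [nat_lit 15, nat_lit 5, nat_lit 5, nat_lit 20], false, nat_lit 160, nat_lit 248, nat_lit 0, nat_lit 160, ⟨nat_lit 791, nat_lit 209, nat_lit 0, nat_lit 7, nat_lit 318, nat_lit 209, nat_lit 157, nat_lit 0, nat_lit 0, nat_lit 0, nat_lit 0, nat_lit 0, nat_lit 0, nat_lit 0, nat_lit 0, nat_lit 5000000, true, true⟩,
 nat_lit 0, nat_lit 0, nat_lit 6801, nat_lit 0, nat_lit 5451, nat_lit 4708, nat_lit 317, nat_lit 0, nat_lit 0, nat_lit 648, nat_lit 0, nat_lit 0, nat_lit 0, nat_lit 0, nat_lit 0, nat_lit 52250, nat_lit 0, nat_lit 0, [(nat_lit 26, [(nat_lit 0, nat_lit 209)])],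
 ⟨p126_k26, nat_lit 0, nat_lit 0, nat_lit 131, nat_lit 0, nat_lit 0, [nat_lit 901968400, nat_lit 2895350001, nat_lit 8359354000], [], [nat_lit 26598002366, nat_lit 27902032466, nat_lit 32793233998, nat_lit 33734079845, nat_lit 28075402103, nat_lit 29193150956, nat_lit 33447614686, nat_lit 34551036353], nat_lit 0, nat_lit 0, nat_lit 0, nat_lit 0, nat_lit 0, nat_lit 0, [], [nat_lit 93, nat_lit 40, nat_lit 40, nat_lit 80, nat_lit 63, nat_lit 401, nat_lit 175, nat_lit 10]⟩, ⟨p126_k19, nat_lit 0, nat_lit 0, nat_lit 470, nat_lit 0, nat_lit 483966, [nat_lit 2596062000, nat_lit 4943750000, nat_lit 9390752000], [], [nat_lit 24974657424, nat_lit 25405127480, nat_lit 28804599915, nat_lit 29382164884, nat_lit 21998499884, nat_lit 22321124612, nat_lit 25084202873, nat_lit 25458369341], nat_lit 1271250, nat_lit 1271250, nat_lit 1271250, nat_lit 1271250, nat_lit 0, nat_lit 1100001, [nat_lit 780000, nat_lit 1435000, nat_lit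 1271250], [nat_lit 23, nat_lit 40, nat_lit 40, nat_lit 80, nat_lit 12, nat_lit 456, nat_lit 225, nat_lit 11]⟩,
 ⟨nat_lit 2236, nat_lit 3163, ⟨.ofNat (nat_lit 671514), .ofNat (nat_lit 903349), .ofNat (nat_lit 693606), .ofNat (nat_lit 925504), .ofNat (nat_lit 670673), .ofNat (nat_lit 887545), .ofNat (nat_lit 693384), .ofNat (nat_lit 910319)⟩, ⟨.ofNat (nat_lit 306116), .ofNat (nat_lit 440213), .ofNat (nat_lit 350426), .ofNat (nat_lit 484523), .ofNat (nat_lit 306337), .ofNat (nat_lit 431772), .ofNat (nat_lit 351886), .ofNat (nat_lit 477320)⟩⟩, [⟨nat_lit 16, nat_lit 53, nat_lit 100, nat_lit 87, nat_lit 560439205⟩]⟩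
noncomputable def p126_l70 : Lf2 := ⟨nat_lit 0, nat_lit 30, [nat_lit 15, nat_lit 5, nat_lit 5, nat_lit 20], false, nat_lit 160, nat_lit 248, nat_lit 160, nat_lit 320, ⟨nat_lit 771, nat_lit 229, nat_lit 0, nat_lit 7, nat_lit 319, nat_lit 229, nat_lit 158, nat_lit 0, nat_lit 0, nat_lit 0, nat_lit 0, nat_lit 0, nat_lit 0, nat_lit 0, nat_lit 0, nat_lit 5000000, true, true⟩,
 nat_lit 0, nat_lit 0, nat_lit 8357, nat_lit 0, nat_lit 5037, nat_lit 5785, nat_lit 358, nat_lit 0, nat_lit 0, nat_lit 358, nat_lit 0, nat_lit 0, nat_lit 0, nat_lit 0, nat_lit 0, nat_lit 57250, nat_lit 0, nat_lit 0, [(nat_lit 26, [(nat_lit 0, nat_lit 229)])],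
 ⟨p126_k22, nat_lit 0, nat_lit 0, nat_lit 115, nat_lit 0, nat_lit 0, [nat_lit 898520401, nat_lit 4037090400, nat_lit 8217474000], [], [nat_lit 25992546392, nat_lit 26617837742, nat_lit 32015723267, nat_lit 32485689697, nat_lit 27506984225, nat_lit 28044675596, nat_lit 32941209257, nat_lit 33472843061], nat_lit 0, nat_lit 0, nat_lit 0, nat_lit 0, nat_lit 0, nat_lit 0, [], [nat_lit 81, nat_lit 40, nat_lit 40, nat_lit 80, nat_lit 13, nat_lit 401, nat_lit 175, nat_lit 10]⟩, ⟨p126_k30, nat_lit 0, nat_lit 0, nat_lit 272, nat_lit 0, nat_lit 366986, [nat_lit 2530422000, nat_lit 6143328000, nat_lit 9153312000], [], [nat_lit 22284155022, nat_lit 22895326708, nat_lit 26445351063, nat_lit 26801163999, nat_lit 24280993426, nat_lit 24677425324, nat_lit 27500745413, nat_lit 27823590329], nat_lit 1271250, nat_lit 1271250, nat_lit 1271250, nat_lit 1271250, nat_lit 1100001, nat_lit 2470000, [nat_lit 780000, nat_lit 1762500, nat_lit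 1271250], [nat_lit 79, nat_lit 40, nat_lit 40, nat_lit 80, nat_lit 14, nat_lit 538, nat_lit 300, nat_lit 13]⟩,
 ⟨nat_lit 2738, nat_lit 3163, ⟨.ofNat (nat_lit 671685), .ofNat (nat_lit 903349), .ofNat (nat_lit 693828), .ofNat (nat_lit 925504), .ofNat (nat_lit 671105), .ofNat (nat_lit 895580), .ofNat (nat_lit 693511), .ofNat (nat_lit 917997)⟩, ⟨.ofNat (nat_lit 306116), .ofNat (nat_lit 440213), .ofNat (nat_lit 350426), .ofNat (nat_lit 484523), .ofNat (nat_lit 306433), .ofNat (nat_lit 436368), .ofNat (nat_lit 351268), .ofNat (nat_lit 481203)⟩⟩, [⟨nat_lit 4, nat_lit 100, nat_lit 57, nat_lit 87, nat_lit 530447043⟩, ⟨nat_lit 7, nat_lit 100, nat_lit 93, nat_lit 97, nat_lit 227203359⟩]⟩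
noncomputable def p126_l71 : Lf2 := ⟨nat_lit 0, nat_lit 30, [nat_lit 15, nat_lit 5, nat_lit 5, nat_lit 20], false, nat_lit 160, nat_lit 232, nat_lit 160, nat_lit 320, ⟨nat_lit 870, nat_lit 130, nat_lit 0, nat_lit 7, nat_lit 316, nat_lit 130, nat_lit 152, nat_lit 0, nat_lit 0, nat_lit 0, nat_lit 0, nat_lit 0, nat_lit 0, nat_lit 0, nat_lit 0, nat_lit 5000000, true, true⟩,
 nat_lit 0, nat_lit 0, nat_lit 7022, nat_lit 0, nat_lit 7395, nat_lit 4861, nat_lit 0, nat_lit 0, nat_lit 0, nat_lit 493, nat_lit 0, nat_lit 0, nat_lit 0, nat_lit 0, nat_lit 0, nat_lit 32500, nat_lit 0, nat_lit 0, [(nat_lit 26, [(nat_lit 0, nat_lit 130)])],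
 ⟨p126_k24, nat_lit 0, nat_lit 0, nat_lit 111, nat_lit 0, nat_lit 0, [nat_lit 915588000, nat_lit 4301536000, nat_lit 7258824000], [], [nat_lit 28552654460, nat_lit 29404400620, nat_lit 35808200705, nat_lit 36381221355, nat_lit 29648006868, nat_lit 30393012514, nat_lit 35938494584, nat_lit 36616132806], nat_lit 0, nat_lit 0, nat_lit 0, nat_lit 0, nat_lit 0, nat_lit 0, [], [nat_lit 57, nat_lit 40, nat_lit 40, nat_lit 80, nat_lit 7, nat_lit 272, nat_lit 60, nat_lit 7]⟩, ⟨p126_k30, nat_lit 0, nat_lit 0, nat_lit 347, nat_lit 0, nat_lit 483966, [nat_lit 2855340000, nat_lit 6932160000, nat_lit 10328640000], [], [nat_lit 27670134892, nat_lit 28123209422, nat_lit 30994793768, nat_lit 31394565686, nat_lit 29378315922, nat_lit 29721821970, nat_lit 32370599435, nat_lit 32708463707], nat_lit 1271250, nat_lit 1271250, nat_lit 1271250, nat_lit 1271250, nat_lit 1100001, nat_lit 2470000, [nat_lit 780000, nat_lit 1762500, nat_lit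 1271250], [nat_lit 79, nat_lit 40, nat_lit 40, nat_lit 80, nat_lit 14, nat_lit 538, nat_lit 300, nat_lit 13]⟩,
 ⟨nat_lit 2236, nat_lit 2739, ⟨.ofNat (nat_lit 671081), .ofNat (nat_lit 889674), .ofNat (nat_lit 693478), .ofNat (nat_lit 912091), .ofNat (nat_lit 670819), .ofNat (nat_lit 881843), .ofNat (nat_lit 693574), .ofNat (nat_lit 904617)⟩, ⟨.ofNat (nat_lit 306433), .ofNat (nat_lit 412743), .ofNat (nat_lit 351268), .ofNat (nat_lit 457578), .ofNat (nat_lit 306337), .ofNat (nat_lit 408965), .ofNat (nat_lit 351886), .ofNat (nat_lit 454514)⟩⟩, [⟨nat_lit 4, nat_lit 100, nat_lit 48, nat_lit 87, nat_lit 618339760⟩, ⟨nat_lit 19, nat_lit 93, nat_lit 100, nat_lit 97, nat_lit 261957398⟩]⟩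
noncomputable def p126_l72 : Lf2 := ⟨nat_lit 0, nat_lit 30, [nat_lit 15, nat_lit 5, nat_lit 5, nat_lit 20], false, nat_lit 160, nat_lit 208, nat_lit 0, nat_lit 320, ⟨nat_lit 449, nat_lit 551, nat_lit 0, nat_lit 7, nat_lit 311, nat_lit 551, nat_lit 144, nat_lit 0, nat_lit 0, nat_lit 0, nat_lit 0, nat_lit 0, nat_lit 0, nat_lit 0, nat_lit 0, nat_lit 5000000, true, true⟩,
 nat_lit 0, nat_lit 0, nat_lit 4780, nat_lit 0, nat_lit 2944, nat_lit 3308, nat_lit 282, nat_lit 0, nat_lit 0, nat_lit 219, nat_lit 0, nat_lit 0, nat_lit 0, nat_lit 0, nat_lit 0, nat_lit 137750, nat_lit 0, nat_lit 0, [(nat_lit 29, [(nat_lit 0, nat_lit 551)])],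
 ⟨p126_k0, nat_lit 0, nat_lit 0, nat_lit 121, nat_lit 0, nat_lit 0, [nat_lit 851823601, nat_lit 2960725200, nat_lit 4741071734], [], [nat_lit 24704770563, nat_lit 25758040402, nat_lit 29491958170, nat_lit 30317035104, nat_lit 25613754877, nat_lit 26596398649, nat_lit 30083362681, nat_lit 30970673789], nat_lit 0, nat_lit 0, nat_lit 0, nat_lit 0, nat_lit 0, nat_lit 0, [], [nat_lit 57, nat_lit 40, nat_lit 40, nat_lit 80, nat_lit 7, nat_lit 272, nat_lit 60, nat_lit 7]⟩, ⟨p126_k30, nat_lit 0, nat_lit 0, nat_lit 571, nat_lit 0, nat_lit 733121, [nat_lit 1473618000, nat_lit 3577632000, nat_lit 5330528000], [], [nat_lit 16984686492, nat_lit 17185117712, nat_lit 18352147587, nat_lit 18550941500, nat_lit 15077939244, nat_lit 15170826528, nat_lit 15818039631, nat_lit 15881831456], nat_lit 1271250, nat_lit 1271250, nat_lit 1271250, nat_lit 1271250, nat_lit 0, nat_lit 2260000, [nat_lit 780000, nat_lit 1762500, nat_lit 1271250],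 [nat_lit 79, nat_lit 40, nat_lit 40, nat_lit 80, nat_lit 14, nat_lit 538, nat_lit 300, nat_lit 13]⟩,
 ⟨nat_lit 0, nat_lit 2237, ⟨.ofNat (nat_lit 668096), .ofNat (nat_lit 870437), .ofNat (nat_lit 689944), .ofNat (nat_lit 893212), .ofNat (nat_lit 672209), .ofNat (nat_lit 849996), .ofNat (nat_lit 696283), .ofNat (nat_lit 874997)⟩, ⟨.ofNat (nat_lit 306334), .ofNat (nat_lit 374750), .ofNat (nat_lit 351885), .ofNat (nat_lit 420300), .ofNat (nat_lit 299996), .ofNat (nat_lit 359993), .ofNat (nat_lit 349998), .ofNat (nat_lit 409994)⟩⟩, [⟨nat_lit 13, nat_lit 37, nat_lit 74, nat_lit 100, nat_lit 111497844⟩, ⟨nat_lit 4, nat_lit 100, nat_lit 32, nat_lit 88, nat_lit 787977775⟩, ⟨nat_lit 19, nat_lit 93, nat_lit 100, nat_lit 97, nat_lit 46142659⟩]⟩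
noncomputable def b_V_900_700_20_58 : St := ⟨true, nat_lit 0, nat_lit 2, nat_lit 2, nat_lit 120, nat_lit 360, nat_lit 400, nat_lit 280, nat_lit 320, nat_lit 152, nat_lit 392, nat_lit 80, nat_lit 120, nat_lit 8, nat_lit 248, nat_lit 0, nat_lit 336, nat_lit 120, nat_lit 160, nat_lit 0, nat_lit 0, nat_lit 0, nat_lit 0⟩
theorem d_V_900_700_20_58 (h : EB TB.env) : Dead b_V_900_700_20_58 := chkB_sound0 h (T :=
(.st (nat_lit 1)
(.spl (nat_lit 5) (nat_lit 160)
(.leaf p126_l53)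
(.leaf p126_l54))
(.spl (nat_lit 2) (nat_lit 240)
(.leaf p126_l55)
(.spl (nat_lit 4) (nat_lit 160)
(.spl (nat_lit 2) (nat_lit 320)
(.leaf p126_l56)
(.spl (nat_lit 1) (nat_lit 300)
(.trX (nat_lit 13) (nat_lit 69) (nat_lit 45) (nat_lit 100) (nat_lit 384) (.spl (nat_lit 0) (nat_lit 380)
(.leaf p126_l57)
(.trX (nat_lit 13) (nat_lit 50) (nat_lit 65) (nat_lit 100) (nat_lit 368) (.trZ (nat_lit 3) (nat_lit 100) (nat_lit 54) (nat_lit 57) (nat_lit 20) (.leaf p126_l58)))))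
(.trX (nat_lit 19) (nat_lit 94) (nat_lit 88) (nat_lit 100) (nat_lit 320) (.spl (nat_lit 0) (nat_lit 380)
(.spl (nat_lit 0) (nat_lit 370)
(.leaf p126_l59)
(.trX (nat_lit 13) (nat_lit 66) (nat_lit 45) (nat_lit 100) (nat_lit 388) (.trZ (nat_lit 3) (nat_lit 100) (nat_lit 66) (nat_lit 45) (nat_lit 12) (.leaf p126_l60))))
(.trX (nat_lit 13) (nat_lit 54) (nat_lit 57) (nat_lit 100) (nat_lit 380) (.trZ (nat_lit 3) (nat_lit 100) (nat_lit 54) (nat_lit 57) (nat_lit 20) (.leaf p126_l61)))))))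
(.spl (nat_lit 1) (nat_lit 300)
(.trX (nat_lit 13) (nat_lit 69) (nat_lit 45) (nat_lit 100) (nat_lit 384) (.spl (nat_lit 2) (nat_lit 320)
(.leaf p126_l62)
(.trZ (nat_lit 9) (nat_lit 100) (nat_lit 82) (nat_lit 44) (nat_lit 16) (.spl (nat_lit 0) (nat_lit 380)
(.spl (nat_lit 6) (nat_lit 144)
(.spl (nat_lit 0) (nat_lit 370)
(.spl (nat_lit 6) (nat_lit 136)
(.spl (nat_lit 0) (nat_lit 365)
(.leaf p126_l63)
(.trX (nat_lit 16) (nat_lit 58) (nat_lit 100) (nat_lit 93) (nat_lit 240) (.leaf p126_l64)))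
(.leaf p126_l65))
(.trX (nat_lit 13) (nat_lit 61) (nat_lit 55) (nat_lit 100) (nat_lit 380) (.trX (nat_lit 16) (nat_lit 53) (nat_lit 100) (nat_lit 93) (nat_lit 232) (.leaf p126_l66))))
(.leaf p126_l67))
(.trX (nat_lit 13) (nat_lit 50) (nat_lit 65) (nat_lit 100) (nat_lit 368) (.trX (nat_lit 16) (nat_lit 44) (nat_lit 100) (nat_lit 92) (nat_lit 208) (.leaf p126_l68)))))))
(.trX (nat_lit 19) (nat_lit 94) (nat_lit 88) (nat_lit 100) (nat_lit 320) (.spl (nat_lit 0) (nat_lit 380)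
(.spl (nat_lit 5) (nat_lit 160)
(.leaf p126_l69)
(.spl (nat_lit 0) (nat_lit 370)
(.leaf p126_l70)
(.trX (nat_lit 13) (nat_lit 66) (nat_lit 45) (nat_lit 100) (nat_lit 388) (.trX (nat_lit 16) (nat_lit 53) (nat_lit 100) (nat_lit 93) (nat_lit 232) (.leaf p126_l71)))))
(.trX (nat_lit 13) (nat_lit 54) (nat_lit 57) (nat_lit 100) (nat_lit 380) (.trX (nat_lit 16) (nat_lit 44) (nat_lit 100) (nat_lit 92) (nat_lit 208) (.leaf p126_l72)))))))))) (by decide +kernel)
noncomputable def p126_l73 : Lf2 := ⟨nat_lit 0, nat_lit 30, [nat_lit 15, nat_lit 5, nat_lit 5, nat_lit 20], false, nat_lit 8, nat_lit 248, nat_lit 0, nat_lit 160, ⟨nat_lit 1000, nat_lit 0, nat_lit 0, nat_lit 0, nat_lit 0, nat_lit 0, nat_lit 0, nat_lit 0, nat_lit 0, nat_lit 0, nat_lit 0, nat_lit 0, nat_lit 0, nat_lit 0, nat_lit 0, nat_lit 0, false, false⟩,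
 nat_lit 0, nat_lit 7772, nat_lit 0, nat_lit 3550, nat_lit 6769, nat_lit 5938, nat_lit 378, nat_lit 0, nat_lit 0, nat_lit 817, nat_lit 0, nat_lit 0, nat_lit 0, nat_lit 0, nat_lit 0, nat_lit 0, nat_lit 0, nat_lit 0, [],
 ⟨p126_k22, nat_lit 0, nat_lit 0, nat_lit 443, nat_lit 0, nat_lit 484449, [nat_lit 938000000, nat_lit 4688000000, nat_lit 9842000000], [], [nat_lit 31585787120, nat_lit 34128680240, nat_lit 32226750819, nat_lit 35155634718, nat_lit 28354284307, nat_lit 29759919657, nat_lit 30288508076, nat_lit 30247908165], nat_lit 1271250, nat_lit 1271250, nat_lit 1033601, nat_lit 1780500, nat_lit 43600, nat_lit 1756600, [nat_lit 230000, nat_lit 1100000, nat_lit 2127500], [nat_lit 81, nat_lit 40, nat_lit 40, nat_lit 80, nat_lit 13, nat_lit 345, nat_lit 125, nat_lit 9]⟩, ⟨p126_k1, nat_lit 0, nat_lit 0, nat_lit 266, nat_lit 0, nat_lit 0, [nat_lit 3282000000, nat_lit 7968000000, nat_lit 14058000000], [], [nat_lit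 27381829172, nat_lit 29840633049, nat_lit 29150022220, nat_lit 31215406996, nat_lit 23047307056, nat_lit 25153719998, nat_lit 24619824708, nat_lit 26523098728], nat_lit 0, nat_lit 0, nat_lit 0, nat_lit 0, nat_lit 0, nat_lit 0, [], [nat_lit 84, nat_lit 40, nat_lit 40, nat_lit 80, nat_lit 28, nat_lit 428, nat_lit 200, nat_lit 10]⟩,
 zbF0, [⟨nat_lit 0, nat_lit 87, nat_lit 44, nat_lit 100, nat_lit 864747076⟩, ⟨nat_lit 4, nat_lit 100, nat_lit 44, nat_lit 87, nat_lit 176588917⟩]⟩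
noncomputable def p126_l74 : Lf2 := ⟨nat_lit 0, nat_lit 30, [nat_lit 15, nat_lit 5, nat_lit 5, nat_lit 20], false, nat_lit 8, nat_lit 248, nat_lit 0, nat_lit 160, ⟨nat_lit 1000, nat_lit 0, nat_lit 0, nat_lit 0, nat_lit 0, nat_lit 0, nat_lit 0, nat_lit 0, nat_lit 0, nat_lit 0, nat_lit 0, nat_lit 0, nat_lit 0, nat_lit 0, nat_lit 0, nat_lit 0, false, false⟩,
 nat_lit 0, nat_lit 6473, nat_lit 0, nat_lit 0, nat_lit 5637, nat_lit 7879, nat_lit 419, nat_lit 0, nat_lit 0, nat_lit 676, nat_lit 0, nat_lit 0, nat_lit 0, nat_lit 0, nat_lit 0, nat_lit 0, nat_lit 0, nat_lit 0, [],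
 ⟨p126_k22, nat_lit 0, nat_lit 0, nat_lit 340, nat_lit 0, nat_lit 326884, [nat_lit 938000000, nat_lit 4688000000, nat_lit 9842000000], [], [nat_lit 32629972915, nat_lit 33534572419, nat_lit 38504283663, nat_lit 39994304939, nat_lit 30206711718, nat_lit 31033398975, nat_lit 34596908817, nat_lit 35316349281], nat_lit 1271250, nat_lit 1271250, nat_lit 1271250, nat_lit 1271250, nat_lit 43600, nat_lit 1756600, [nat_lit 230000, nat_lit 1100000, nat_lit 2127500], [nat_lit 81, nat_lit 40, nat_lit 40, nat_lit 80, nat_lit 13, nat_lit 401, nat_lit 175, nat_lit 11]⟩, ⟨p126_k1, nat_lit 0, nat_lit 0, nat_lit 276, nat_lit 0, nat_lit 0, [nat_lit 3282000000, nat_lit 7968000000, nat_lit 14058000000], [], [nat_lit 34660714004, nat_lit 36333470228, nat_lit 41046224993, nat_lit 42382464600, nat_lit 28535610400, nat_lit 29929699244, nat_lit 34452360224, nat_lit 35667329843], nat_lit 0, nat_lit 0, nat_lit 0, nat_lit 0, nat_lit 0, nat_lit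 0, [], [nat_lit 84, nat_lit 40, nat_lit 40, nat_lit 80, nat_lit 28, nat_lit 456, nat_lit 225, nat_lit 10]⟩,
 zbF0, [⟨nat_lit 4, nat_lit 100, nat_lit 53, nat_lit 87, nat_lit 223679521⟩, ⟨nat_lit 9, nat_lit 100, nat_lit 87, nat_lit 27, nat_lit 61659235⟩]⟩
noncomputable def p126_l75 : Lf2 := ⟨nat_lit 0, nat_lit 30, [nat_lit 15, nat_lit 5, nat_lit 5, nat_lit 20], false, nat_lit 20, nat_lit 208, nat_lit 0, nat_lit 160, ⟨nat_lit 1000, nat_lit 0, nat_lit 0, nat_lit 0, nat_lit 0, nat_lit 0, nat_lit 0, nat_lit 0, nat_lit 0, nat_lit 0, nat_lit 0, nat_lit 0, nat_lit 0, nat_lit 0, nat_lit 0, nat_lit 0, false, false⟩,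
 nat_lit 0, nat_lit 4088, nat_lit 0, nat_lit 0, nat_lit 3819, nat_lit 7051, nat_lit 392, nat_lit 0, nat_lit 0, nat_lit 0, nat_lit 0, nat_lit 0, nat_lit 0, nat_lit 0, nat_lit 0, nat_lit 0, nat_lit 0, nat_lit 0, [],
 ⟨p126_k18, nat_lit 0, nat_lit 0, nat_lit 351, nat_lit 0, nat_lit 440114, [nat_lit 938000000, nat_lit 3282000000, nat_lit 7968000000], [], [nat_lit 27469636668, nat_lit 28826115429, nat_lit 33305614346, nat_lit 34570079886, nat_lit 27168946308, nat_lit 28001642051, nat_lit 31650665222, nat_lit 32461701302], nat_lit 1271250, nat_lit 1271250, nat_lit 1271250, nat_lit 1271250, nat_lit 111251, nat_lit 1474250, [nat_lit 230000, nat_lit 780000, nat_lit 1762500], [nat_lit 54, nat_lit 40, nat_lit 40, nat_lit 80, nat_lit 43, nat_lit 272, nat_lit 60, nat_lit 8]⟩, ⟨p126_k3, nat_lit 0, nat_lit 0, nat_lit 262, nat_lit 0, nat_lit 0, [nat_lit 3282000000, nat_lit 6250000000, nat_lit 14058000000], [], [nat_lit 42844166272,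 nat_lit 44604672452, nat_lit 49391294968, nat_lit 50765958052, nat_lit 37764941208, nat_lit 39243697044, nat_lit 42593225656, nat_lit 43646855812], nat_lit 0, nat_lit 0, nat_lit 0, nat_lit 0, nat_lit 0, nat_lit 0, [], [nat_lit 71, nat_lit 40, nat_lit 40, nat_lit 80, nat_lit 68, nat_lit 456, nat_lit 225, nat_lit 10]⟩,
 zbF0, [⟨nat_lit 4, nat_lit 100, nat_lit 32, nat_lit 88, nat_lit 402990397⟩, ⟨nat_lit 9, nat_lit 100, nat_lit 93, nat_lit 15, nat_lit 16712845⟩]⟩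
noncomputable def p126_l76 : Lf2 := ⟨nat_lit 0, nat_lit 30, [nat_lit 15, nat_lit 5, nat_lit 5, nat_lit 20], false, nat_lit 8, nat_lit 248, nat_lit 160, nat_lit 336, ⟨nat_lit 1000, nat_lit 0, nat_lit 0, nat_lit 0, nat_lit 0, nat_lit 0, nat_lit 0, nat_lit 0, nat_lit 0, nat_lit 0, nat_lit 0, nat_lit 0, nat_lit 0, nat_lit 0, nat_lit 0, nat_lit 0, false, false⟩,
 nat_lit 0, nat_lit 7626, nat_lit 0, nat_lit 0, nat_lit 6641, nat_lit 9898, nat_lit 414, nat_lit 0, nat_lit 0, nat_lit 0, nat_lit 0, nat_lit 0, nat_lit 0, nat_lit 0, nat_lit 0, nat_lit 0, nat_lit 0, nat_lit 0, [],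
 ⟨p126_k22, nat_lit 0, nat_lit 0, nat_lit 345, nat_lit 0, nat_lit 326884, [nat_lit 938000000, nat_lit 4688000000, nat_lit 9842000000], [], [nat_lit 35773895650, nat_lit 32262132194, nat_lit 41374652114, nat_lit 43011284618, nat_lit 27123464277, nat_lit 27950941053, nat_lit 34903224495, nat_lit 36122064833], nat_lit 1271250, nat_lit 1271250, nat_lit 1033601, nat_lit 3070600, nat_lit 43600, nat_lit 1756600, [nat_lit 230000, nat_lit 1100000, nat_lit 2127500], [nat_lit 81, nat_lit 40, nat_lit 40, nat_lit 80, nat_lit 13, nat_lit 401, nat_lit 175, nat_lit 11]⟩, ⟨p126_k1, nat_lit 0, nat_lit 0, nat_lit 101, nat_lit 0, nat_lit 0, [nat_lit 3282000000, nat_lit 7968000000, nat_lit 14058000000], [], [nat_lit 16419853447, nat_lit 20570963988, nat_lit 32642815364, nat_lit 35414631433, nat_lit 26759065889, nat_lit 29275044553, nat_lit 38171709891, nat_lit 39774549495], nat_lit 0, nat_lit 0, nat_lit 0, nat_lit 0, nat_lit 0, nat_lit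 0, [], [nat_lit 84, nat_lit 40, nat_lit 40, nat_lit 80, nat_lit 28, nat_lit 538, nat_lit 300, nat_lit 12]⟩,
 zbF0, [⟨nat_lit 4, nat_lit 100, nat_lit 53, nat_lit 87, nat_lit 14960881⟩, ⟨nat_lit 7, nat_lit 100, nat_lit 100, nat_lit 100, nat_lit 385619808⟩]⟩
noncomputable def p126_l77 : Lf2 := ⟨nat_lit 0, nat_lit 30, [nat_lit 15, nat_lit 5, nat_lit 5, nat_lit 20], false, nat_lit 20, nat_lit 208, nat_lit 160, nat_lit 336, ⟨nat_lit 1000, nat_lit 0, nat_lit 0, nat_lit 0, nat_lit 0, nat_lit 0, nat_lit 0, nat_lit 0, nat_lit 0, nat_lit 0, nat_lit 0, nat_lit 0, nat_lit 0, nat_lit 0, nat_lit 0, nat_lit 0, false, false⟩,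
 nat_lit 0, nat_lit 4201, nat_lit 0, nat_lit 1441, nat_lit 3925, nat_lit 8133, nat_lit 404, nat_lit 0, nat_lit 0, nat_lit 0, nat_lit 0, nat_lit 0, nat_lit 0, nat_lit 0, nat_lit 0, nat_lit 0, nat_lit 0, nat_lit 0, [],
 ⟨p126_k18, nat_lit 0, nat_lit 0, nat_lit 351, nat_lit 0, nat_lit 440114, [nat_lit 938000000, nat_lit 3282000000, nat_lit 7968000000], [], [nat_lit 26091237143, nat_lit 27591117725, nat_lit 33597262163, nat_lit 34878083450, nat_lit 25651330283, nat_lit 26846527808, nat_lit 31453936806, nat_lit 32390401710], nat_lit 1271250, nat_lit 1271250, nat_lit 1271250, nat_lit 1271250, nat_lit 111251, nat_lit 1474250, [nat_lit 230000, nat_lit 780000, nat_lit 1762500], [nat_lit 54, nat_lit 40, nat_lit 40, nat_lit 80, nat_lit 43, nat_lit 373, nat_lit 150, nat_lit 11]⟩, ⟨p126_k3, nat_lit 0, nat_lit 0, nat_lit 81, nat_lit 0, nat_lit 0, [nat_lit 3282000000, nat_lit 6250000000, nat_lit 14058000000], [], [nat_lit 15787809601,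 nat_lit 19493897910, nat_lit 29449194712, nat_lit 32080978502, nat_lit 25376162234, nat_lit 28202021850, nat_lit 35247248929, nat_lit 36838149415], nat_lit 0, nat_lit 0, nat_lit 0, nat_lit 0, nat_lit 0, nat_lit 0, [], [nat_lit 71, nat_lit 40, nat_lit 40, nat_lit 80, nat_lit 68, nat_lit 538, nat_lit 300, nat_lit 12]⟩,
 zbF0, [⟨nat_lit 0, nat_lit 88, nat_lit 32, nat_lit 100, nat_lit 18301222⟩, ⟨nat_lit 4, nat_lit 100, nat_lit 32, nat_lit 88, nat_lit 344026066⟩, ⟨nat_lit 19, nat_lit 100, nat_lit 80, nat_lit 100, nat_lit 380914562⟩]⟩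
noncomputable def b_V_900_700_20_59 : St := ⟨true, nat_lit 1, nat_lit 0, nat_lit 1, nat_lit 120, nat_lit 360, nat_lit 400, nat_lit 280, nat_lit 320, nat_lit 152, nat_lit 392, nat_lit 80, nat_lit 120, nat_lit 8, nat_lit 248, nat_lit 0, nat_lit 336, nat_lit 120, nat_lit 160, nat_lit 0, nat_lit 0, nat_lit 0, nat_lit 0⟩
theorem d_V_900_700_20_59 (h : EB TB.env) : Dead b_V_900_700_20_59 := chkB_sound0 h (T :=
(.spl (nat_lit 5) (nat_lit 160)
(.spl (nat_lit 2) (nat_lit 240)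
(.leaf p126_l73)
(.spl (nat_lit 0) (nat_lit 380)
(.leaf p126_l74)
(.trX (nat_lit 13) (nat_lit 54) (nat_lit 57) (nat_lit 100) (nat_lit 380) (.trZ (nat_lit 3) (nat_lit 100) (nat_lit 54) (nat_lit 57) (nat_lit 20) (.trX (nat_lit 16) (nat_lit 44) (nat_lit 100) (nat_lit 92) (nat_lit 208) (.leaf p126_l75))))))
(.spl (nat_lit 0) (nat_lit 380)
(.leaf p126_l76)
(.trZ (nat_lit 0) (nat_lit 92) (nat_lit 44) (nat_lit 100) (nat_lit 192) (.trX (nat_lit 13) (nat_lit 54) (nat_lit 57) (nat_lit 100) (nat_lit 380) (.trZ (nat_lit 3) (nat_lit 100) (nat_lit 54) (nat_lit 57) (nat_lit 20) (.trX (nat_lit 16) (nat_lit 44) (nat_lit 100) (nat_lit 92) (nat_lit 208) (.leaf p126_l77)))))))) (by decide +kernel)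
noncomputable def p126_l78 : Lf2 := ⟨nat_lit 0, nat_lit 30, [nat_lit 15, nat_lit 5, nat_lit 5, nat_lit 20], false, nat_lit 8, nat_lit 160, nat_lit 0, nat_lit 160, ⟨nat_lit 1000, nat_lit 0, nat_lit 0, nat_lit 0, nat_lit 0, nat_lit 0, nat_lit 0, nat_lit 0, nat_lit 0, nat_lit 0, nat_lit 0, nat_lit 0, nat_lit 0, nat_lit 0, nat_lit 0, nat_lit 0, false, false⟩,
 nat_lit 11282, nat_lit 0, nat_lit 0, nat_lit 0, nat_lit 5358, nat_lit 7179, nat_lit 588, nat_lit 0, nat_lit 0, nat_lit 832, nat_lit 0, nat_lit 0, nat_lit 0, nat_lit 0, nat_lit 0, nat_lit 0, nat_lit 0, nat_lit 0, [],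
 ⟨p126_k26, nat_lit 0, nat_lit 0, nat_lit 338, nat_lit 0, nat_lit 308085, [nat_lit 938000000, nat_lit 3282000000, nat_lit 9842000000], [], [nat_lit 25885613837, nat_lit 29807961589, nat_lit 27484392161, nat_lit 31772493564, nat_lit 23191553423, nat_lit 25598265685, nat_lit 24551689032, nat_lit 27026793760], nat_lit 1271250, nat_lit 1271250, nat_lit 1033601, nat_lit 1780500, nat_lit 43600, nat_lit 1100001, [nat_lit 230000, nat_lit 780000, nat_lit 2090000], [nat_lit 93, nat_lit 40, nat_lit 40, nat_lit 80, nat_lit 63, nat_lit 317, nat_lit 100, nat_lit 9]⟩, ⟨p126_k3, nat_lit 0, nat_lit 0, nat_lit 563, nat_lit 0, nat_lit 465553, [nat_lit 3282000000, nat_lit 6250000000, nat_lit 14058000000], [], [nat_lit 34404593016, nat_lit 35529445033, nat_lit 34338382328, nat_lit 35415984100, nat_lit 29059801168, nat_lit 29902291108, nat_lit 29399271592, nat_lit 29730746160], nat_lit 1271250, nat_lit 1271250, nat_lit 1033601, nat_lit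 1780500, nat_lit 0, nat_lit 1100001, [nat_lit 780000, nat_lit 1435000, nat_lit 1271250], [nat_lit 71, nat_lit 40, nat_lit 40, nat_lit 80, nat_lit 68, nat_lit 428, nat_lit 200, nat_lit 10]⟩,
 zbF0, [⟨nat_lit 0, nat_lit 87, nat_lit 44, nat_lit 100, nat_lit 955395337⟩]⟩
noncomputable def p126_l79 : Lf2 := ⟨nat_lit 0, nat_lit 30, [nat_lit 15, nat_lit 5, nat_lit 5, nat_lit 20], false, nat_lit 160, nat_lit 248, nat_lit 0, nat_lit 160, ⟨nat_lit 1000, nat_lit 0, nat_lit 0, nat_lit 0, nat_lit 0, nat_lit 0, nat_lit 0, nat_lit 0, nat_lit 0, nat_lit 0, nat_lit 0, nat_lit 0, nat_lit 0, nat_lit 0, nat_lit 0, nat_lit 0, false, false⟩,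
 nat_lit 11282, nat_lit 0, nat_lit 0, nat_lit 5651, nat_lit 9826, nat_lit 7179, nat_lit 280, nat_lit 0, nat_lit 0, nat_lit 832, nat_lit 0, nat_lit 0, nat_lit 0, nat_lit 0, nat_lit 0, nat_lit 0, nat_lit 0, nat_lit 0, [],
 ⟨p126_k26, nat_lit 0, nat_lit 0, nat_lit 237, nat_lit 0, nat_lit 308085, [nat_lit 938000000, nat_lit 3282000000, nat_lit 9842000000], [], [nat_lit 25249778911, nat_lit 29830034418, nat_lit 26305399616, nat_lit 31560562720, nat_lit 26777232249, nat_lit 32176508955, nat_lit 28349585514, nat_lit 33170931200], nat_lit 1271250, nat_lit 1271250, nat_lit 1033601, nat_lit 1780500, nat_lit 1100001, nat_lit 1853500, [nat_lit 230000, nat_lit 780000, nat_lit 2090000], [nat_lit 93, nat_lit 40, nat_lit 40, nat_lit 80, nat_lit 63, nat_lit 345, nat_lit 125, nat_lit 9]⟩, ⟨p126_k3, nat_lit 0, nat_lit 0, nat_lit 563, nat_lit 0, nat_lit 465553, [nat_lit 3282000000, nat_lit 6250000000, nat_lit 14058000000], [], [nat_lit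 34404593016, nat_lit 35529445033, nat_lit 34338382328, nat_lit 35415984100, nat_lit 29059801168, nat_lit 29902291108, nat_lit 29399271592, nat_lit 29730746160], nat_lit 1271250, nat_lit 1271250, nat_lit 1033601, nat_lit 1780500, nat_lit 0, nat_lit 1100001, [nat_lit 780000, nat_lit 1435000, nat_lit 1271250], [nat_lit 71, nat_lit 40, nat_lit 40, nat_lit 80, nat_lit 68, nat_lit 428, nat_lit 200, nat_lit 10]⟩,
 zbF0, [⟨nat_lit 0, nat_lit 87, nat_lit 44, nat_lit 100, nat_lit 1048227194⟩, ⟨nat_lit 16, nat_lit 44, nat_lit 100, nat_lit 87, nat_lit 787518482⟩]⟩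
noncomputable def p126_l80 : Lf2 := ⟨nat_lit 0, nat_lit 25, [nat_lit 44, nat_lit 5, nat_lit 5, nat_lit 20], false, nat_lit 8, nat_lit 160, nat_lit 160, nat_lit 320, ⟨nat_lit 1000, nat_lit 0, nat_lit 0, nat_lit 0, nat_lit 0, nat_lit 0, nat_lit 0, nat_lit 0, nat_lit 0, nat_lit 0, nat_lit 0, nat_lit 0, nat_lit 0, nat_lit 0, nat_lit 0, nat_lit 0, false, false⟩,
 nat_lit 18714, nat_lit 0, nat_lit 0, nat_lit 0, nat_lit 5460, nat_lit 11908, nat_lit 504, nat_lit 0, nat_lit 0, nat_lit 0, nat_lit 0, nat_lit 0, nat_lit 0, nat_lit 0, nat_lit 0, nat_lit 0, nat_lit 0, nat_lit 0, [],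
 ⟨p126_k20, nat_lit 0, nat_lit 0, nat_lit 241, nat_lit 0, nat_lit 129000, [nat_lit 938000000, nat_lit 3282000000, nat_lit 7968000000], [], [nat_lit 25712301881, nat_lit 27370319305, nat_lit 27485891432, nat_lit 29751474708, nat_lit 22933463937, nat_lit 24152954064, nat_lit 24197011920, nat_lit 25249603120], nat_lit 1271250, nat_lit 1271250, nat_lit 1033601, nat_lit 1780500, nat_lit 43600, nat_lit 1100001, [nat_lit 230000, nat_lit 780000, nat_lit 1762500], [nat_lit 54, nat_lit 40, nat_lit 40, nat_lit 80, nat_lit 43, nat_lit 317, nat_lit 100, nat_lit 10]⟩, ⟨p126_k21, nat_lit 0, nat_lit 0, nat_lit 190, nat_lit 0, nat_lit 194254, [nat_lit 3282000000, nat_lit 6250000000, nat_lit 11872000000], [], [nat_lit 25686734839, nat_lit 29324206036, nat_lit 27606558768, nat_lit 30550954304, nat_lit 32434901857, nat_lit 34699870029, nat_lit 32533654512, nat_lit 34328476816], nat_lit 1271250, nat_lit 1271250, nat_lit 1033601,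 nat_lit 1780500, nat_lit 1271250, nat_lit 1271250, [nat_lit 780000, nat_lit 1435000, nat_lit 1271250], [nat_lit 23, nat_lit 40, nat_lit 40, nat_lit 80, nat_lit 12, nat_lit 456, nat_lit 225, nat_lit 11]⟩,
 zbF0, [⟨nat_lit 0, nat_lit 82, nat_lit 44, nat_lit 100, nat_lit 1124165401⟩, ⟨nat_lit 7, nat_lit 100, nat_lit 97, nat_lit 93, nat_lit 379722666⟩]⟩
noncomputable def p126_l81 : Lf2 := ⟨nat_lit 0, nat_lit 30, [nat_lit 15, nat_lit 5, nat_lit 5, nat_lit 20], false, nat_lit 16, nat_lit 160, nat_lit 160, nat_lit 336, ⟨nat_lit 1000, nat_lit 0, nat_lit 0, nat_lit 0, nat_lit 0, nat_lit 0, nat_lit 0, nat_lit 0, nat_lit 0, nat_lit 0, nat_lit 0, nat_lit 0, nat_lit 0, nat_lit 0, nat_lit 0, nat_lit 0, false, false⟩,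
 nat_lit 18114, nat_lit 0, nat_lit 0, nat_lit 5880, nat_lit 6719, nat_lit 11526, nat_lit 460, nat_lit 0, nat_lit 0, nat_lit 581, nat_lit 0, nat_lit 0, nat_lit 0, nat_lit 0, nat_lit 0, nat_lit 0, nat_lit 0, nat_lit 0, [],
 ⟨p126_k22, nat_lit 0, nat_lit 0, nat_lit 207, nat_lit 0, nat_lit 82620, [nat_lit 938000000, nat_lit 4688000000, nat_lit 9842000000], [], [nat_lit 27985864335, nat_lit 28992944864, nat_lit 29707844309, nat_lit 30562788031, nat_lit 23937977047, nat_lit 24663032568, nat_lit 25189882472, nat_lit 25880966554], nat_lit 1271250, nat_lit 1271250, nat_lit 1033601, nat_lit 1780500, nat_lit 88400, nat_lit 1100001, [nat_lit 230000, nat_lit 1100000, nat_lit 2127500], [nat_lit 81, nat_lit 40, nat_lit 40, nat_lit 80, nat_lit 13, nat_lit 317, nat_lit 100, nat_lit 9]⟩, ⟨p126_k1, nat_lit 0, nat_lit 0, nat_lit 204, nat_lit 0, nat_lit 124502, [nat_lit 3282000000, nat_lit 7968000000, nat_lit 14058000000], [], [nat_lit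 24038522371, nat_lit 27059047176, nat_lit 25570943856, nat_lit 27609589772, nat_lit 30279928417, nat_lit 32008676397, nat_lit 29700299974, nat_lit 31747110298], nat_lit 1271250, nat_lit 1271250, nat_lit 1033601, nat_lit 1780500, nat_lit 1271250, nat_lit 1271250, [nat_lit 780000, nat_lit 1762500, nat_lit 1271250], [nat_lit 84, nat_lit 40, nat_lit 40, nat_lit 80, nat_lit 28, nat_lit 456, nat_lit 225, nat_lit 10]⟩,
 zbF0, [⟨nat_lit 0, nat_lit 87, nat_lit 57, nat_lit 100, nat_lit 840880356⟩, ⟨nat_lit 19, nat_lit 97, nat_lit 94, nat_lit 100, nat_lit 356544565⟩]⟩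
noncomputable def p126_l82 : Lf2 := ⟨nat_lit 0, nat_lit 30, [nat_lit 15, nat_lit 5, nat_lit 5, nat_lit 20], false, nat_lit 20, nat_lit 160, nat_lit 160, nat_lit 336, ⟨nat_lit 1000, nat_lit 0, nat_lit 0, nat_lit 0, nat_lit 0, nat_lit 0, nat_lit 0, nat_lit 0, nat_lit 0, nat_lit 0, nat_lit 0, nat_lit 0, nat_lit 0, nat_lit 0, nat_lit 0, nat_lit 0, false, false⟩,
 nat_lit 18706, nat_lit 0, nat_lit 0, nat_lit 0, nat_lit 6606, nat_lit 11903, nat_lit 260, nat_lit 0, nat_lit 0, nat_lit 558, nat_lit 0, nat_lit 0, nat_lit 0, nat_lit 0, nat_lit 0, nat_lit 0, nat_lit 0, nat_lit 0, [],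
 ⟨p126_k27, nat_lit 0, nat_lit 0, nat_lit 181, nat_lit 0, nat_lit 122692, [nat_lit 938000000, nat_lit 3282000000, nat_lit 7968000000], [], [nat_lit 28607850146, nat_lit 29671706342, nat_lit 30407311525, nat_lit 31332644932, nat_lit 24724676796, nat_lit 25634000708, nat_lit 26300373888, nat_lit 27094516736], nat_lit 1271250, nat_lit 1271250, nat_lit 1167600, nat_lit 1789500, nat_lit 111251, nat_lit 1100001, [nat_lit 230000, nat_lit 780000, nat_lit 1762500], [nat_lit 54, nat_lit 40, nat_lit 40, nat_lit 80, nat_lit 43, nat_lit 317, nat_lit 100, nat_lit 10]⟩, ⟨p126_k3, nat_lit 0, nat_lit 0, nat_lit 218, nat_lit 0, nat_lit 193367, [nat_lit 3282000000, nat_lit 6250000000, nat_lit 14058000000], [], [nat_lit 25358823451, nat_lit 28342281307, nat_lit 26543881148, nat_lit 29028924216, nat_lit 31423004072, nat_lit 33074158452, nat_lit 31089007541, nat_lit 32450102540], nat_lit 1271250, nat_lit 1271250, nat_lit 1271250,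 nat_lit 1271250, nat_lit 1100001, nat_lit 2607000, [nat_lit 780000, nat_lit 1435000, nat_lit 1271250], [nat_lit 71, nat_lit 40, nat_lit 40, nat_lit 80, nat_lit 68, nat_lit 456, nat_lit 225, nat_lit 10]⟩,
 zbF0, [⟨nat_lit 0, nat_lit 87, nat_lit 48, nat_lit 100, nat_lit 921054718⟩, ⟨nat_lit 7, nat_lit 94, nat_lit 97, nat_lit 100, nat_lit 335661677⟩]⟩
noncomputable def p126_l83 : Lf2 := ⟨nat_lit 1, nat_lit 30, [nat_lit 15, nat_lit 5, nat_lit 5, nat_lit 20], false, nat_lit 16, nat_lit 160, nat_lit 160, nat_lit 336, zbN0,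
 nat_lit 0, nat_lit 0, nat_lit 0, nat_lit 0, nat_lit 0, nat_lit 0, nat_lit 0, nat_lit 0, nat_lit 0, nat_lit 0, nat_lit 0, nat_lit 0, nat_lit 0, nat_lit 0, nat_lit 0, nat_lit 0, nat_lit 0, nat_lit 0, [],
 C1.Rw.none, C1.Rw.none,
 zbF0, []⟩
noncomputable def p126_l84 : Lf2 := ⟨nat_lit 0, nat_lit 25, [nat_lit 44, nat_lit 5, nat_lit 5, nat_lit 20], false, nat_lit 20, nat_lit 160, nat_lit 160, nat_lit 320, ⟨nat_lit 1000, nat_lit 0, nat_lit 0, nat_lit 0, nat_lit 0, nat_lit 0, nat_lit 0, nat_lit 0, nat_lit 0, nat_lit 0, nat_lit 0, nat_lit 0, nat_lit 0, nat_lit 0, nat_lit 0, nat_lit 0, false, false⟩,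
 nat_lit 13802, nat_lit 0, nat_lit 0, nat_lit 0, nat_lit 3664, nat_lit 8783, nat_lit 466, nat_lit 0, nat_lit 0, nat_lit 0, nat_lit 0, nat_lit 0, nat_lit 0, nat_lit 0, nat_lit 0, nat_lit 0, nat_lit 0, nat_lit 0, [],
 ⟨p126_k15, nat_lit 0, nat_lit 0, nat_lit 218, nat_lit 0, nat_lit 208195, [nat_lit 938000000, nat_lit 3282000000, nat_lit 6250000000], [], [nat_lit 24048466822, nat_lit 25882048860, nat_lit 25517293768, nat_lit 27293218232, nat_lit 23378647192, nat_lit 24370385025, nat_lit 24301807252, nat_lit 25307858080], nat_lit 1271250, nat_lit 1271250, nat_lit 1271250, nat_lit 1271250, nat_lit 111251, nat_lit 1100001, [nat_lit 230000, nat_lit 780000, nat_lit 1435000], [nat_lit 20, nat_lit 40, nat_lit 40, nat_lit 80, nat_lit 16, nat_lit 317, nat_lit 100, nat_lit 11]⟩, ⟨p126_k21, nat_lit 0, nat_lit 0, nat_lit 229, nat_lit 0, nat_lit 342481, [nat_lit 3282000000, nat_lit 6250000000, nat_lit 11872000000], [], [nat_lit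 28564756689, nat_lit 31329700461, nat_lit 29985321268, nat_lit 32448179304, nat_lit 34020834308, nat_lit 35807596282, nat_lit 34626267012, nat_lit 36205814316], nat_lit 1271250, nat_lit 1271250, nat_lit 1271250, nat_lit 1271250, nat_lit 1100001, nat_lit 2470000, [nat_lit 780000, nat_lit 1435000, nat_lit 1271250], [nat_lit 23, nat_lit 40, nat_lit 40, nat_lit 80, nat_lit 12, nat_lit 456, nat_lit 225, nat_lit 11]⟩,
 zbF0, [⟨nat_lit 0, nat_lit 88, nat_lit 32, nat_lit 100, nat_lit 1056651820⟩, ⟨nat_lit 4, nat_lit 100, nat_lit 32, nat_lit 87, nat_lit 289041536⟩, ⟨nat_lit 7, nat_lit 100, nat_lit 97, nat_lit 93, nat_lit 409633359⟩]⟩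
noncomputable def p126_l85 : Lf2 := ⟨nat_lit 0, nat_lit 30, [nat_lit 15, nat_lit 5, nat_lit 5, nat_lit 20], false, nat_lit 32, nat_lit 160, nat_lit 160, nat_lit 336, ⟨nat_lit 508, nat_lit 0, nat_lit 492, nat_lit 7, nat_lit 255, nat_lit 492, nat_lit 84, nat_lit 492, nat_lit 66150, nat_lit 278, nat_lit 121316, nat_lit 200, nat_lit 44912642, nat_lit 0, nat_lit 0, nat_lit 4069397, true, false⟩,
 nat_lit 7714, nat_lit 0, nat_lit 0, nat_lit 0, nat_lit 3299, nat_lit 4908, nat_lit 186, nat_lit 0, nat_lit 0, nat_lit 243, nat_lit 0, nat_lit 0, nat_lit 0, nat_lit 0, nat_lit 0, nat_lit 120305, nat_lit 0, nat_lit 0, [(nat_lit 29, [(nat_lit 3, nat_lit 49), (nat_lit 4, nat_lit 443)])],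
 ⟨p126_k0, nat_lit 0, nat_lit 0, nat_lit 252, nat_lit 0, nat_lit 209983, [nat_lit 870027200, nat_lit 1517249201, nat_lit 2578743600], [], [nat_lit 23218868379, nat_lit 24708927188, nat_lit 24471172595, nat_lit 26116654695, nat_lit 22686089827, nat_lit 23881847100, nat_lit 23822943544, nat_lit 24937485280], nat_lit 1271250, nat_lit 1271250, nat_lit 1271250, nat_lit 1271250, nat_lit 181601, nat_lit 1100001, [nat_lit 230000, nat_lit 1100000, nat_lit 1785000], [nat_lit 57, nat_lit 40, nat_lit 40, nat_lit 80, nat_lit 7, nat_lit 317, nat_lit 100, nat_lit 10]⟩, ⟨p126_k1, nat_lit 0, nat_lit 0, nat_lit 279, nat_lit 0, nat_lit 346874, [nat_lit 1667256000, nat_lit 4047744000, nat_lit 7141464000], [], [nat_lit 14163303340, nat_lit 15028834566, nat_lit 14435944092, nat_lit 15200357596, nat_lit 17254878031, nat_lit 16982044897, nat_lit 16339388041, nat_lit 16989208038], nat_lit 1271250, nat_lit 1271250, nat_lit 1271250, nat_lit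 1271250, nat_lit 1100001, nat_lit 2607000, [nat_lit 780000, nat_lit 1762500, nat_lit 1271250], [nat_lit 84, nat_lit 40, nat_lit 40, nat_lit 80, nat_lit 28, nat_lit 456, nat_lit 225, nat_lit 10]⟩,
 ⟨nat_lit 0, nat_lit 2237, ⟨.ofNat (nat_lit 575619), .ofNat (nat_lit 646249), .ofNat (nat_lit 619314), .ofNat (nat_lit 689944), .ofNat (nat_lit 585925), .ofNat (nat_lit 648136), .ofNat (nat_lit 634072), .ofNat (nat_lit 696283)⟩, ⟨.ofNat (nat_lit 80000), .ofNat (nat_lit 329109), .ofNat (nat_lit 80000), .ofNat (nat_lit 351885), .ofNat (nat_lit 80000), .ofNat (nat_lit 324996), .ofNat (nat_lit 80000), .ofNat (nat_lit 349998)⟩⟩, [⟨nat_lit 0, nat_lit 88, nat_lit 32, nat_lit 100, nat_lit 787243594⟩, ⟨nat_lit 19, nat_lit 100, nat_lit 80, nat_lit 100, nat_lit 125115797⟩, ⟨nat_lit 7, nat_lit 94, nat_lit 97, nat_lit 100, nat_lit 46408309⟩]⟩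
noncomputable def p126_l86 : Lf2 := ⟨nat_lit 0, nat_lit 25, [nat_lit 44, nat_lit 5, nat_lit 5, nat_lit 20], false, nat_lit 160, nat_lit 224, nat_lit 160, nat_lit 320, ⟨nat_lit 1000, nat_lit 0, nat_lit 0, nat_lit 0, nat_lit 0, nat_lit 0, nat_lit 0, nat_lit 0, nat_lit 0, nat_lit 0, nat_lit 0, nat_lit 0, nat_lit 0, nat_lit 0, nat_lit 0, nat_lit 0, false, false⟩,
 nat_lit 22586, nat_lit 0, nat_lit 0, nat_lit 0, nat_lit 10081, nat_lit 14372, nat_lit 0, nat_lit 0, nat_lit 0, nat_lit 0, nat_lit 0, nat_lit 0, nat_lit 0, nat_lit 0, nat_lit 0, nat_lit 0, nat_lit 0, nat_lit 0, [],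
 ⟨p126_k31, nat_lit 0, nat_lit 0, nat_lit 130, nat_lit 0, nat_lit 129000, [nat_lit 938000000, nat_lit 4688000000, nat_lit 7968000000], [], [nat_lit 25050383682, nat_lit 27544641566, nat_lit 26772537540, nat_lit 28868228836, nat_lit 26502880733, nat_lit 28700411765, nat_lit 27697180932, nat_lit 30192172939], nat_lit 1271250, nat_lit 1271250, nat_lit 1033601, nat_lit 1780500, nat_lit 1100001, nat_lit 1648000, [nat_lit 230000, nat_lit 1100000, nat_lit 1785000], [nat_lit 57, nat_lit 40, nat_lit 40, nat_lit 80, nat_lit 7, nat_lit 345, nat_lit 125, nat_lit 10]⟩, ⟨p126_k29, nat_lit 0, nat_lit 0, nat_lit 194, nat_lit 0, nat_lit 194254, [nat_lit 3282000000, nat_lit 7968000000, nat_lit 11872000000], [], [nat_lit 23855156906, nat_lit 27998905197, nat_lit 25730952112, nat_lit 29055030336, nat_lit 31154686305, nat_lit 33674041780, nat_lit 30883671408, nat_lit 32848233744], nat_lit 1271250, nat_lit 1271250, nat_lit 1033601,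 nat_lit 1780500, nat_lit 1271250, nat_lit 1271250, [nat_lit 780000, nat_lit 1762500, nat_lit 1271250], [nat_lit 79, nat_lit 40, nat_lit 40, nat_lit 80, nat_lit 14, nat_lit 456, nat_lit 225, nat_lit 11]⟩,
 zbF0, [⟨nat_lit 0, nat_lit 82, nat_lit 44, nat_lit 100, nat_lit 1159964657⟩, ⟨nat_lit 4, nat_lit 100, nat_lit 53, nat_lit 84, nat_lit 684241514⟩, ⟨nat_lit 7, nat_lit 100, nat_lit 97, nat_lit 93, nat_lit 380265741⟩]⟩
noncomputable def p126_l87 : Lf2 := ⟨nat_lit 0, nat_lit 30, [nat_lit 15, nat_lit 5, nat_lit 5, nat_lit 20], false, nat_lit 160, nat_lit 248, nat_lit 160, nat_lit 336, ⟨nat_lit 1000, nat_lit 0, nat_lit 0, nat_lit 0, nat_lit 0, nat_lit 0, nat_lit 0, nat_lit 0, nat_lit 0, nat_lit 0, nat_lit 0, nat_lit 0, nat_lit 0, nat_lit 0, nat_lit 0, nat_lit 0, false, false⟩,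
 nat_lit 16793, nat_lit 0, nat_lit 0, nat_lit 13849, nat_lit 6289, nat_lit 10686, nat_lit 0, nat_lit 0, nat_lit 0, nat_lit 599, nat_lit 0, nat_lit 0, nat_lit 0, nat_lit 0, nat_lit 0, nat_lit 0, nat_lit 0, nat_lit 0, [],
 ⟨p126_k22, nat_lit 0, nat_lit 0, nat_lit 72, nat_lit 0, nat_lit 82620, [nat_lit 938000000, nat_lit 4688000000, nat_lit 9842000000], [], [nat_lit 21569144420, nat_lit 22621986103, nat_lit 23971085968, nat_lit 24864667201, nat_lit 24334677337, nat_lit 25223610478, nat_lit 26210430551, nat_lit 27104320328], nat_lit 1271250, nat_lit 1271250, nat_lit 1033601, nat_lit 1780500, nat_lit 1100001, nat_lit 1853500, [nat_lit 230000, nat_lit 1100000, nat_lit 2127500], [nat_lit 81, nat_lit 40, nat_lit 40, nat_lit 80, nat_lit 13, nat_lit 345, nat_lit 125, nat_lit 9]⟩, ⟨p126_k1, nat_lit 0, nat_lit 0, nat_lit 204, nat_lit 0, nat_lit 124502, [nat_lit 3282000000, nat_lit 7968000000, nat_lit 14058000000], [], [nat_lit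 24151442635, nat_lit 27034556208, nat_lit 26388720816, nat_lit 27688438292, nat_lit 30254102454, nat_lit 31928297608, nat_lit 29847388750, nat_lit 31164006780], nat_lit 1271250, nat_lit 1271250, nat_lit 1033601, nat_lit 1780500, nat_lit 1271250, nat_lit 1271250, [nat_lit 780000, nat_lit 1762500, nat_lit 1271250], [nat_lit 84, nat_lit 40, nat_lit 40, nat_lit 80, nat_lit 28, nat_lit 456, nat_lit 225, nat_lit 10]⟩,
 zbF0, [⟨nat_lit 0, nat_lit 87, nat_lit 57, nat_lit 100, nat_lit 783216577⟩, ⟨nat_lit 4, nat_lit 100, nat_lit 57, nat_lit 90, nat_lit 651498299⟩, ⟨nat_lit 7, nat_lit 94, nat_lit 97, nat_lit 100, nat_lit 337254813⟩]⟩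
noncomputable def p126_l88 : Lf2 := ⟨nat_lit 0, nat_lit 30, [nat_lit 15, nat_lit 5, nat_lit 5, nat_lit 20], false, nat_lit 160, nat_lit 232, nat_lit 160, nat_lit 336, ⟨nat_lit 1000, nat_lit 0, nat_lit 0, nat_lit 0, nat_lit 0, nat_lit 0, nat_lit 0, nat_lit 0, nat_lit 0, nat_lit 0, nat_lit 0, nat_lit 0, nat_lit 0, nat_lit 0, nat_lit 0, nat_lit 0, false, false⟩,
 nat_lit 17234, nat_lit 0, nat_lit 0, nat_lit 7283, nat_lit 10061, nat_lit 10967, nat_lit 0, nat_lit 0, nat_lit 0, nat_lit 578, nat_lit 0, nat_lit 0, nat_lit 0, nat_lit 0, nat_lit 0, nat_lit 0, nat_lit 0, nat_lit 0, [],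
 ⟨p126_k24, nat_lit 0, nat_lit 0, nat_lit 125, nat_lit 0, nat_lit 122692, [nat_lit 938000000, nat_lit 4688000000, nat_lit 7968000000], [], [nat_lit 26333955432, nat_lit 27545080504, nat_lit 27831116228, nat_lit 28877501716, nat_lit 27716567570, nat_lit 28765932131, nat_lit 29070050835, nat_lit 30342552765], nat_lit 1271250, nat_lit 1271250, nat_lit 1167600, nat_lit 1789500, nat_lit 1100001, nat_lit 1716500, [nat_lit 230000, nat_lit 1100000, nat_lit 1785000], [nat_lit 57, nat_lit 40, nat_lit 40, nat_lit 80, nat_lit 7, nat_lit 345, nat_lit 125, nat_lit 10]⟩, ⟨p126_k1, nat_lit 0, nat_lit 0, nat_lit 224, nat_lit 0, nat_lit 193367, [nat_lit 3282000000, nat_lit 7968000000, nat_lit 14058000000], [], [nat_lit 24288800466, nat_lit 27125912850, nat_lit 26545966952, nat_lit 27886552924, nat_lit 30178485688, nat_lit 31811531377, nat_lit 30022675392, nat_lit 31357119700], nat_lit 1271250, nat_lit 1271250, nat_lit 1167600,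 nat_lit 1789500, nat_lit 1271250, nat_lit 1271250, [nat_lit 780000, nat_lit 1762500, nat_lit 1271250], [nat_lit 84, nat_lit 40, nat_lit 40, nat_lit 80, nat_lit 28, nat_lit 456, nat_lit 225, nat_lit 10]⟩,
 zbF0, [⟨nat_lit 0, nat_lit 87, nat_lit 48, nat_lit 100, nat_lit 899547445⟩, ⟨nat_lit 4, nat_lit 100, nat_lit 48, nat_lit 89, nat_lit 699735078⟩, ⟨nat_lit 7, nat_lit 94, nat_lit 97, nat_lit 100, nat_lit 337200412⟩]⟩
noncomputable def p126_l89 : Lf2 := ⟨nat_lit 1, nat_lit 30, [nat_lit 15, nat_lit 5, nat_lit 5, nat_lit 20], false, nat_lit 160, nat_lit 248, nat_lit 160, nat_lit 336, zbN0,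
 nat_lit 0, nat_lit 0, nat_lit 0, nat_lit 0, nat_lit 0, nat_lit 0, nat_lit 0, nat_lit 0, nat_lit 0, nat_lit 0, nat_lit 0, nat_lit 0, nat_lit 0, nat_lit 0, nat_lit 0, nat_lit 0, nat_lit 0, nat_lit 0, [],
 C1.Rw.none, C1.Rw.none,
 zbF0, []⟩
noncomputable def p126_l90 : Lf2 := ⟨nat_lit 0, nat_lit 30, [nat_lit 15, nat_lit 5, nat_lit 5, nat_lit 20], false, nat_lit 160, nat_lit 208, nat_lit 160, nat_lit 336, ⟨nat_lit 431, nat_lit 0, nat_lit 569, nat_lit 7, nat_lit 250, nat_lit 569, nat_lit 144, nat_lit 569, nat_lit 194400, nat_lit 323, nat_lit 73168, nat_lit 200, nat_lit 42156016, nat_lit 0, nat_lit 0, nat_lit 4733837, true, false⟩,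
 nat_lit 7355, nat_lit 0, nat_lit 0, nat_lit 0, nat_lit 5270, nat_lit 4680, nat_lit 0, nat_lit 0, nat_lit 0, nat_lit 326, nat_lit 0, nat_lit 0, nat_lit 0, nat_lit 0, nat_lit 0, nat_lit 110955, nat_lit 0, nat_lit 0, [(nat_lit 29, [(nat_lit 3, nat_lit 569)])],
 ⟨p126_k18, nat_lit 0, nat_lit 0, nat_lit 161, nat_lit 0, nat_lit 236854, [nat_lit 1056124401, nat_lit 964121600, nat_lit 2104796400], [], [nat_lit 24106361037, nat_lit 25629363017, nat_lit 25235616520, nat_lit 26937498400, nat_lit 25013958388, nat_lit 26663342804, nat_lit 26137915221, nat_lit 27878311769], nat_lit 1271250, nat_lit 1271250, nat_lit 1271250, nat_lit 1271250, nat_lit 1100001, nat_lit 1511000, [nat_lit 230000, nat_lit 780000, nat_lit 1762500], [nat_lit 54, nat_lit 40, nat_lit 40, nat_lit 80, nat_lit 43, nat_lit 345, nat_lit 125, nat_lit 10]⟩, ⟨p126_k3, nat_lit 0, nat_lit 0, nat_lit 366, nat_lit 0, nat_lit 391263, [nat_lit 1414542000, nat_lit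 2693750000, nat_lit 6058998000], [], [nat_lit 10540175895, nat_lit 10777158923, nat_lit 10588256312, nat_lit 11096871456, nat_lit 12485123488, nat_lit 12815132704, nat_lit 12529955472, nat_lit 12815044978], nat_lit 1271250, nat_lit 1271250, nat_lit 1271250, nat_lit 1271250, nat_lit 1100001, nat_lit 2607000, [nat_lit 780000, nat_lit 1435000, nat_lit 1271250], [nat_lit 71, nat_lit 40, nat_lit 40, nat_lit 80, nat_lit 68, nat_lit 456, nat_lit 225, nat_lit 10]⟩,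
 ⟨nat_lit 0, nat_lit 2237, ⟨.ofNat (nat_lit 575619), .ofNat (nat_lit 646249), .ofNat (nat_lit 597467), .ofNat (nat_lit 668096), .ofNat (nat_lit 585925), .ofNat (nat_lit 648136), .ofNat (nat_lit 609999), .ofNat (nat_lit 672209)⟩, ⟨.ofNat (nat_lit 306334), .ofNat (nat_lit 374750), .ofNat (nat_lit 351885), .ofNat (nat_lit 420300), .ofNat (nat_lit 299996), .ofNat (nat_lit 359993), .ofNat (nat_lit 349998), .ofNat (nat_lit 409994)⟩⟩, [⟨nat_lit 0, nat_lit 90, nat_lit 32, nat_lit 100, nat_lit 309820037⟩, ⟨nat_lit 4, nat_lit 100, nat_lit 32, nat_lit 88, nat_lit 644928708⟩, ⟨nat_lit 19, nat_lit 100, nat_lit 94, nat_lit 97, nat_lit 117768544⟩, ⟨nat_lit 19, nat_lit 100, nat_lit 80, nat_lit 100, nat_lit 32854966⟩]⟩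
noncomputable def p126_l91 : Lf2 := ⟨nat_lit 0, nat_lit 30, [nat_lit 15, nat_lit 5, nat_lit 5, nat_lit 20], false, nat_lit 160, nat_lit 208, nat_lit 160, nat_lit 320, ⟨nat_lit 1000, nat_lit 0, nat_lit 0, nat_lit 0, nat_lit 0, nat_lit 0, nat_lit 0, nat_lit 0, nat_lit 0, nat_lit 0, nat_lit 0, nat_lit 0, nat_lit 0, nat_lit 0, nat_lit 0, nat_lit 0, false, false⟩,
 nat_lit 14395, nat_lit 0, nat_lit 0, nat_lit 0, nat_lit 9616, nat_lit 9965, nat_lit 0, nat_lit 0, nat_lit 0, nat_lit 0, nat_lit 0, nat_lit 0, nat_lit 0, nat_lit 0, nat_lit 0, nat_lit 0, nat_lit 0, nat_lit 0, [],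
 ⟨p126_k18, nat_lit 0, nat_lit 0, nat_lit 171, nat_lit 0, nat_lit 281826, [nat_lit 938000000, nat_lit 3282000000, nat_lit 7968000000], [], [nat_lit 28362653068, nat_lit 30516452557, nat_lit 29083823296, nat_lit 31347471520, nat_lit 29020189831, nat_lit 31299191917, nat_lit 29618043933, nat_lit 32093142535], nat_lit 1271250, nat_lit 1271250, nat_lit 1271250, nat_lit 1271250, nat_lit 1100001, nat_lit 1511000, [nat_lit 230000, nat_lit 780000, nat_lit 1762500], [nat_lit 54, nat_lit 40, nat_lit 40, nat_lit 80, nat_lit 43, nat_lit 345, nat_lit 125, nat_lit 10]⟩, ⟨p126_k19, nat_lit 0, nat_lit 0, nat_lit 254, nat_lit 0, nat_lit 415667, [nat_lit 3282000000, nat_lit 6250000000, nat_lit 11872000000], [], [nat_lit 29584065371, nat_lit 31006024187, nat_lit 30408075530, nat_lit 31730572920, nat_lit 34349094243, nat_lit 35247845928, nat_lit 34665243720, nat_lit 35495730180], nat_lit 1271250, nat_lit 1271250, nat_lit 1271250,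 nat_lit 1271250, nat_lit 1100001, nat_lit 2470000, [nat_lit 780000, nat_lit 1435000, nat_lit 1271250], [nat_lit 23, nat_lit 40, nat_lit 40, nat_lit 80, nat_lit 12, nat_lit 456, nat_lit 225, nat_lit 11]⟩,
 zbF0, [⟨nat_lit 0, nat_lit 87, nat_lit 32, nat_lit 100, nat_lit 920629541⟩, ⟨nat_lit 4, nat_lit 100, nat_lit 32, nat_lit 88, nat_lit 976110946⟩, ⟨nat_lit 7, nat_lit 100, nat_lit 93, nat_lit 97, nat_lit 390410124⟩]⟩
noncomputable def p126_l92 : Lf2 := ⟨nat_lit 0, nat_lit 30, [nat_lit 15, nat_lit 5, nat_lit 5, nat_lit 20], false, nat_lit 8, nat_lit 248, nat_lit 0, nat_lit 160, ⟨nat_lit 1000, nat_lit 0, nat_lit 0, nat_lit 0, nat_lit 0, nat_lit 0, nat_lit 0, nat_lit 0, nat_lit 0, nat_lit 0, nat_lit 0, nat_lit 0, nat_lit 0, nat_lit 0, nat_lit 0, nat_lit 0, false, false⟩,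
 nat_lit 10813, nat_lit 0, nat_lit 0, nat_lit 0, nat_lit 5409, nat_lit 6880, nat_lit 501, nat_lit 0, nat_lit 0, nat_lit 906, nat_lit 0, nat_lit 0, nat_lit 0, nat_lit 0, nat_lit 0, nat_lit 0, nat_lit 0, nat_lit 0, [],
 ⟨p126_k26, nat_lit 0, nat_lit 0, nat_lit 305, nat_lit 0, nat_lit 207882, [nat_lit 938000000, nat_lit 3282000000, nat_lit 9842000000], [], [nat_lit 29535250447, nat_lit 30571959094, nat_lit 37852447003, nat_lit 39309174095, nat_lit 27205919840, nat_lit 27902185422, nat_lit 33396240222, nat_lit 34495588289], nat_lit 1271250, nat_lit 1271250, nat_lit 1271250, nat_lit 1271250, nat_lit 43600, nat_lit 1756600, [nat_lit 230000, nat_lit 780000, nat_lit 2090000], [nat_lit 93, nat_lit 40, nat_lit 40, nat_lit 80, nat_lit 63, nat_lit 401, nat_lit 175, nat_lit 11]⟩, ⟨p126_k3, nat_lit 0, nat_lit 0, nat_lit 425, nat_lit 0, nat_lit 314133, [nat_lit 3282000000, nat_lit 6250000000, nat_lit 14058000000], [], [nat_lit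 32964795160, nat_lit 34276551340, nat_lit 38383355116, nat_lit 39673806508, nat_lit 28480889260, nat_lit 29605078700, nat_lit 33349173728, nat_lit 34441278049], nat_lit 1271250, nat_lit 1271250, nat_lit 1271250, nat_lit 1271250, nat_lit 0, nat_lit 1100001, [nat_lit 780000, nat_lit 1435000, nat_lit 1271250], [nat_lit 71, nat_lit 40, nat_lit 40, nat_lit 80, nat_lit 68, nat_lit 456, nat_lit 225, nat_lit 10]⟩,
 zbF0, [⟨nat_lit 16, nat_lit 53, nat_lit 100, nat_lit 87, nat_lit 150932030⟩]⟩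
noncomputable def p126_l93 : Lf2 := ⟨nat_lit 0, nat_lit 30, [nat_lit 15, nat_lit 5, nat_lit 5, nat_lit 20], false, nat_lit 8, nat_lit 160, nat_lit 160, nat_lit 336, ⟨nat_lit 1000, nat_lit 0, nat_lit 0, nat_lit 0, nat_lit 0, nat_lit 0, nat_lit 0, nat_lit 0, nat_lit 0, nat_lit 0, nat_lit 0, nat_lit 0, nat_lit 0, nat_lit 0, nat_lit 0, nat_lit 0, false, false⟩,
 nat_lit 10356, nat_lit 0, nat_lit 0, nat_lit 0, nat_lit 5591, nat_lit 6590, nat_lit 538, nat_lit 0, nat_lit 0, nat_lit 200, nat_lit 0, nat_lit 0, nat_lit 0, nat_lit 0, nat_lit 0, nat_lit 0, nat_lit 0, nat_lit 0, [],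
 ⟨p126_k26, nat_lit 0, nat_lit 0, nat_lit 293, nat_lit 0, nat_lit 159398, [nat_lit 938000000, nat_lit 3282000000, nat_lit 9842000000], [], [nat_lit 28384773172, nat_lit 29155115584, nat_lit 38372772758, nat_lit 39114424772, nat_lit 24898875288, nat_lit 25307128283, nat_lit 32644482248, nat_lit 33295965554], nat_lit 1271250, nat_lit 1271250, nat_lit 1271250, nat_lit 1271250, nat_lit 43600, nat_lit 1100001, [nat_lit 230000, nat_lit 780000, nat_lit 2090000], [nat_lit 93, nat_lit 40, nat_lit 40, nat_lit 80, nat_lit 63, nat_lit 373, nat_lit 150, nat_lit 10]⟩, ⟨p126_k3, nat_lit 0, nat_lit 0, nat_lit 245, nat_lit 0, nat_lit 240869, [nat_lit 3282000000, nat_lit 6250000000, nat_lit 14058000000], [], [nat_lit 33959813440, nat_lit 35809655480, nat_lit 40628403448, nat_lit 41738218168, nat_lit 38301358424, nat_lit 39468282400, nat_lit 42574993933, nat_lit 43229245081], nat_lit 1271250, nat_lit 1271250, nat_lit 1271250, nat_lit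 1271250, nat_lit 1100001, nat_lit 2607000, [nat_lit 780000, nat_lit 1435000, nat_lit 1271250], [nat_lit 71, nat_lit 40, nat_lit 40, nat_lit 80, nat_lit 68, nat_lit 538, nat_lit 300, nat_lit 12]⟩,
 zbF0, [⟨nat_lit 7, nat_lit 100, nat_lit 100, nat_lit 100, nat_lit 257341346⟩, ⟨nat_lit 22, nat_lit 86, nat_lit 100, nat_lit 86, nat_lit 18490243⟩]⟩
noncomputable def p126_l94 : Lf2 := ⟨nat_lit 0, nat_lit 30, [nat_lit 15, nat_lit 5, nat_lit 5, nat_lit 20], false, nat_lit 12, nat_lit 160, nat_lit 160, nat_lit 336, ⟨nat_lit 1000, nat_lit 0, nat_lit 0, nat_lit 0, nat_lit 0, nat_lit 0, nat_lit 0, nat_lit 0, nat_lit 0, nat_lit 0, nat_lit 0, nat_lit 0, nat_lit 0, nat_lit 0, nat_lit 0, nat_lit 0, false, false⟩,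
 nat_lit 11208, nat_lit 0, nat_lit 0, nat_lit 0, nat_lit 4749, nat_lit 7132, nat_lit 508, nat_lit 0, nat_lit 0, nat_lit 611, nat_lit 0, nat_lit 0, nat_lit 0, nat_lit 0, nat_lit 0, nat_lit 0, nat_lit 0, nat_lit 0, [],
 ⟨p126_k27, nat_lit 0, nat_lit 0, nat_lit 266, nat_lit 0, nat_lit 198711, [nat_lit 938000000, nat_lit 3282000000, nat_lit 7968000000], [], [nat_lit 27007939168, nat_lit 28043807466, nat_lit 36149464140, nat_lit 36837645984, nat_lit 24239765238, nat_lit 24732423428, nat_lit 31807863169, nat_lit 32415182337], nat_lit 1271250, nat_lit 1271250, nat_lit 1271250, nat_lit 1271250, nat_lit 65850, nat_lit 1100001, [nat_lit 230000, nat_lit 780000, nat_lit 1762500], [nat_lit 54, nat_lit 40, nat_lit 40, nat_lit 80, nat_lit 43, nat_lit 249, nat_lit 40, nat_lit 7]⟩, ⟨p126_k3, nat_lit 0, nat_lit 0, nat_lit 266, nat_lit 0, nat_lit 314133, [nat_lit 3282000000, nat_lit 6250000000, nat_lit 14058000000], [], [nat_lit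 29818286906, nat_lit 31303039658, nat_lit 35086267916, nat_lit 36232835876, nat_lit 33055632113, nat_lit 33966388343, nat_lit 36967767419, nat_lit 37623315142], nat_lit 1271250, nat_lit 1271250, nat_lit 1271250, nat_lit 1271250, nat_lit 1100001, nat_lit 2607000, [nat_lit 780000, nat_lit 1435000, nat_lit 1271250], [nat_lit 71, nat_lit 40, nat_lit 40, nat_lit 80, nat_lit 68, nat_lit 538, nat_lit 300, nat_lit 12]⟩,
 zbF0, [⟨nat_lit 7, nat_lit 100, nat_lit 100, nat_lit 100, nat_lit 277724726⟩]⟩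
noncomputable def p126_l95 : Lf2 := ⟨nat_lit 0, nat_lit 30, [nat_lit 15, nat_lit 5, nat_lit 5, nat_lit 20], false, nat_lit 160, nat_lit 248, nat_lit 160, nat_lit 336, ⟨nat_lit 1000, nat_lit 0, nat_lit 0, nat_lit 0, nat_lit 0, nat_lit 0, nat_lit 0, nat_lit 0, nat_lit 0, nat_lit 0, nat_lit 0, nat_lit 0, nat_lit 0, nat_lit 0, nat_lit 0, nat_lit 0, false, false⟩,
 nat_lit 11946, nat_lit 0, nat_lit 0, nat_lit 3899, nat_lit 9628, nat_lit 7602, nat_lit 0, nat_lit 0, nat_lit 0, nat_lit 604, nat_lit 0, nat_lit 0, nat_lit 0, nat_lit 0, nat_lit 0, nat_lit 0, nat_lit 0, nat_lit 0, [],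
 ⟨p126_k22, nat_lit 0, nat_lit 0, nat_lit 177, nat_lit 0, nat_lit 159398, [nat_lit 938000000, nat_lit 4688000000, nat_lit 9842000000], [], [nat_lit 30675997248, nat_lit 31597637648, nat_lit 38607153322, nat_lit 39201851613, nat_lit 31779705857, nat_lit 32552304007, nat_lit 38556927435, nat_lit 39311202886], nat_lit 1271250, nat_lit 1271250, nat_lit 1271250, nat_lit 1271250, nat_lit 1100001, nat_lit 1853500, [nat_lit 230000, nat_lit 1100000, nat_lit 2127500], [nat_lit 81, nat_lit 40, nat_lit 40, nat_lit 80, nat_lit 13, nat_lit 401, nat_lit 175, nat_lit 10]⟩, ⟨p126_k1, nat_lit 0, nat_lit 0, nat_lit 253, nat_lit 0, nat_lit 240869, [nat_lit 3282000000, nat_lit 7968000000, nat_lit 14058000000], [], [nat_lit 26922614432, nat_lit 28893447144, nat_lit 34011782735, nat_lit 35150062991, nat_lit 31302936828, nat_lit 32506845760, nat_lit 35984361392, nat_lit 37020130913], nat_lit 1271250, nat_lit 1271250, nat_lit 1271250,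 nat_lit 1271250, nat_lit 1100001, nat_lit 2607000, [nat_lit 780000, nat_lit 1762500, nat_lit 1271250], [nat_lit 84, nat_lit 40, nat_lit 40, nat_lit 80, nat_lit 28, nat_lit 538, nat_lit 300, nat_lit 12]⟩,
 zbF0, [⟨nat_lit 4, nat_lit 100, nat_lit 57, nat_lit 87, nat_lit 526693096⟩, ⟨nat_lit 7, nat_lit 100, nat_lit 100, nat_lit 100, nat_lit 281318557⟩]⟩
noncomputable def p126_l96 : Lf2 := ⟨nat_lit 0, nat_lit 30, [nat_lit 15, nat_lit 5, nat_lit 5, nat_lit 20], false, nat_lit 160, nat_lit 232, nat_lit 160, nat_lit 336, ⟨nat_lit 1000, nat_lit 0, nat_lit 0, nat_lit 0, nat_lit 0, nat_lit 0, nat_lit 0, nat_lit 0, nat_lit 0, nat_lit 0, nat_lit 0, nat_lit 0, nat_lit 0, nat_lit 0, nat_lit 0, nat_lit 0, false, false⟩,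
 nat_lit 13135, nat_lit 0, nat_lit 0, nat_lit 0, nat_lit 7856, nat_lit 8358, nat_lit 0, nat_lit 0, nat_lit 0, nat_lit 547, nat_lit 0, nat_lit 0, nat_lit 0, nat_lit 0, nat_lit 0, nat_lit 0, nat_lit 0, nat_lit 0, [],
 ⟨p126_k24, nat_lit 0, nat_lit 0, nat_lit 171, nat_lit 0, nat_lit 198711, [nat_lit 938000000, nat_lit 4688000000, nat_lit 7968000000], [], [nat_lit 29014433888, nat_lit 29899836736, nat_lit 36478499238, nat_lit 37070504744, nat_lit 30076459038, nat_lit 30849575820, nat_lit 36521916522, nat_lit 37223558106], nat_lit 1271250, nat_lit 1271250, nat_lit 1271250, nat_lit 1271250, nat_lit 1100001, nat_lit 1716500, [nat_lit 230000, nat_lit 1100000, nat_lit 1785000], [nat_lit 57, nat_lit 40, nat_lit 40, nat_lit 80, nat_lit 7, nat_lit 272, nat_lit 60, nat_lit 7]⟩, ⟨p126_k1, nat_lit 0, nat_lit 0, nat_lit 277, nat_lit 0, nat_lit 314133, [nat_lit 3282000000, nat_lit 7968000000, nat_lit 14058000000], [], [nat_lit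 29641094300, nat_lit 31063365588, nat_lit 34620693870, nat_lit 35715484267, nat_lit 32313790664, nat_lit 33129431838, nat_lit 36114259459, nat_lit 37649627602], nat_lit 1271250, nat_lit 1271250, nat_lit 1271250, nat_lit 1271250, nat_lit 1100001, nat_lit 2607000, [nat_lit 780000, nat_lit 1762500, nat_lit 1271250], [nat_lit 84, nat_lit 40, nat_lit 40, nat_lit 80, nat_lit 28, nat_lit 538, nat_lit 300, nat_lit 12]⟩,
 zbF0, [⟨nat_lit 16, nat_lit 48, nat_lit 100, nat_lit 87, nat_lit 644156454⟩, ⟨nat_lit 7, nat_lit 100, nat_lit 100, nat_lit 100, nat_lit 283495410⟩]⟩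
noncomputable def p126_l97 : Lf2 := ⟨nat_lit 0, nat_lit 30, [nat_lit 15, nat_lit 5, nat_lit 5, nat_lit 20], false, nat_lit 20, nat_lit 208, nat_lit 0, nat_lit 160, ⟨nat_lit 1000, nat_lit 0, nat_lit 0, nat_lit 0, nat_lit 0, nat_lit 0, nat_lit 0, nat_lit 0, nat_lit 0, nat_lit 0, nat_lit 0, nat_lit 0, nat_lit 0, nat_lit 0, nat_lit 0, nat_lit 0, false, false⟩,
 nat_lit 10369, nat_lit 0, nat_lit 0, nat_lit 0, nat_lit 3641, nat_lit 6598, nat_lit 418, nat_lit 0, nat_lit 0, nat_lit 853, nat_lit 0, nat_lit 0, nat_lit 0, nat_lit 0, nat_lit 0, nat_lit 0, nat_lit 0, nat_lit 0, [],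
 ⟨p126_k18, nat_lit 0, nat_lit 0, nat_lit 284, nat_lit 0, nat_lit 281826, [nat_lit 938000000, nat_lit 3282000000, nat_lit 7968000000], [], [nat_lit 26992643202, nat_lit 28317559181, nat_lit 32815866125, nat_lit 34052866354, nat_lit 26896456756, nat_lit 27688903127, nat_lit 31306495605, nat_lit 32104152457], nat_lit 1271250, nat_lit 1271250, nat_lit 1271250, nat_lit 1271250, nat_lit 111251, nat_lit 1474250, [nat_lit 230000, nat_lit 780000, nat_lit 1762500], [nat_lit 54, nat_lit 40, nat_lit 40, nat_lit 80, nat_lit 43, nat_lit 272, nat_lit 60, nat_lit 8]⟩, ⟨p126_k3, nat_lit 0, nat_lit 0, nat_lit 528, nat_lit 0, nat_lit 465553, [nat_lit 3282000000, nat_lit 6250000000, nat_lit 14058000000], [], [nat_lit 34808191836, nat_lit 35633202844, nat_lit 38478895394, nat_lit 39318389098, nat_lit 29979266156, nat_lit 31055999670, nat_lit 33599971522, nat_lit 34635512940], nat_lit 1271250, nat_lit 1271250, nat_lit 1271250, nat_lit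 1271250, nat_lit 0, nat_lit 1100001, [nat_lit 780000, nat_lit 1435000, nat_lit 1271250], [nat_lit 71, nat_lit 40, nat_lit 40, nat_lit 80, nat_lit 68, nat_lit 456, nat_lit 225, nat_lit 10]⟩,
 zbF0, [⟨nat_lit 0, nat_lit 88, nat_lit 32, nat_lit 100, nat_lit 200875106⟩, ⟨nat_lit 4, nat_lit 100, nat_lit 32, nat_lit 88, nat_lit 519561069⟩]⟩
noncomputable def p126_l98 : Lf2 := ⟨nat_lit 0, nat_lit 30, [nat_lit 15, nat_lit 5, nat_lit 5, nat_lit 20], false, nat_lit 20, nat_lit 80, nat_lit 160, nat_lit 336, ⟨nat_lit 1000, nat_lit 0, nat_lit 0, nat_lit 0, nat_lit 0, nat_lit 0, nat_lit 0, nat_lit 0, nat_lit 0, nat_lit 0, nat_lit 0, nat_lit 0, nat_lit 0, nat_lit 0, nat_lit 0, nat_lit 0, false, false⟩,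
 nat_lit 11213, nat_lit 0, nat_lit 0, nat_lit 0, nat_lit 3639, nat_lit 7135, nat_lit 413, nat_lit 0, nat_lit 0, nat_lit 895, nat_lit 0, nat_lit 0, nat_lit 0, nat_lit 0, nat_lit 0, nat_lit 0, nat_lit 0, nat_lit 0, [],
 ⟨p126_k18, nat_lit 0, nat_lit 0, nat_lit 271, nat_lit 0, nat_lit 235523, [nat_lit 938000000, nat_lit 3282000000, nat_lit 7968000000], [], [nat_lit 27064631583, nat_lit 27726912254, nat_lit 32810363336, nat_lit 33428709151, nat_lit 25701205144, nat_lit 26208039498, nat_lit 31101104802, nat_lit 31566671251], nat_lit 1271250, nat_lit 1271250, nat_lit 1271250, nat_lit 1271250, nat_lit 111251, nat_lit 490000, [nat_lit 230000, nat_lit 780000, nat_lit 1762500], [nat_lit 54, nat_lit 40, nat_lit 40, nat_lit 80, nat_lit 43, nat_lit 226, nat_lit 20, nat_lit 6]⟩, ⟨p126_k3, nat_lit 0, nat_lit 0, nat_lit 334, nat_lit 0, nat_lit 389064, [nat_lit 3282000000, nat_lit 6250000000, nat_lit 14058000000], [], [nat_lit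 26749951420, nat_lit 27668301190, nat_lit 31030262810, nat_lit 32196482870, nat_lit 29420463983, nat_lit 30334766250, nat_lit 34177539036, nat_lit 35699155169], nat_lit 1271250, nat_lit 1271250, nat_lit 1271250, nat_lit 1271250, nat_lit 1100001, nat_lit 2607000, [nat_lit 780000, nat_lit 1435000, nat_lit 1271250], [nat_lit 71, nat_lit 40, nat_lit 40, nat_lit 80, nat_lit 68, nat_lit 538, nat_lit 300, nat_lit 12]⟩,
 zbF0, [⟨nat_lit 19, nat_lit 100, nat_lit 100, nat_lit 100, nat_lit 304164760⟩]⟩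
noncomputable def p126_l99 : Lf2 := ⟨nat_lit 0, nat_lit 30, [nat_lit 15, nat_lit 5, nat_lit 5, nat_lit 20], false, nat_lit 36, nat_lit 80, nat_lit 160, nat_lit 336, ⟨nat_lit 1000, nat_lit 0, nat_lit 0, nat_lit 0, nat_lit 0, nat_lit 0, nat_lit 0, nat_lit 0, nat_lit 0, nat_lit 0, nat_lit 0, nat_lit 0, nat_lit 0, nat_lit 0, nat_lit 0, nat_lit 0, false, false⟩,
 nat_lit 10850, nat_lit 0, nat_lit 0, nat_lit 0, nat_lit 3487, nat_lit 6904, nat_lit 301, nat_lit 0, nat_lit 0, nat_lit 927, nat_lit 0, nat_lit 0, nat_lit 0, nat_lit 0, nat_lit 0, nat_lit 0, nat_lit 0, nat_lit 0, [],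
 ⟨p126_k5, nat_lit 0, nat_lit 0, nat_lit 238, nat_lit 0, nat_lit 269995, [nat_lit 938000000, nat_lit 3282000000, nat_lit 6250000000], [], [nat_lit 26539190982, nat_lit 27228467396, nat_lit 31555238368, nat_lit 32144270345, nat_lit 25660956359, nat_lit 26177219553, nat_lit 30418516178, nat_lit 30927112647], nat_lit 1271250, nat_lit 1271250, nat_lit 1271250, nat_lit 1271250, nat_lit 205650, nat_lit 490000, [nat_lit 230000, nat_lit 780000, nat_lit 1435000], [nat_lit 20, nat_lit 40, nat_lit 40, nat_lit 80, nat_lit 16, nat_lit 226, nat_lit 20, nat_lit 7]⟩, ⟨p126_k3, nat_lit 0, nat_lit 0, nat_lit 382, nat_lit 0, nat_lit 465553, [nat_lit 3282000000, nat_lit 6250000000, nat_lit 14058000000], [], [nat_lit 26302754468, nat_lit 27633788226, nat_lit 30257068476, nat_lit 31324237924, nat_lit 29419035023, nat_lit 30720680276, nat_lit 33358088642, nat_lit 34439449912], nat_lit 1271250, nat_lit 1271250, nat_lit 1271250, nat_lit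 1271250, nat_lit 1100001, nat_lit 2607000, [nat_lit 780000, nat_lit 1435000, nat_lit 1271250], [nat_lit 71, nat_lit 40, nat_lit 40, nat_lit 80, nat_lit 68, nat_lit 538, nat_lit 300, nat_lit 12]⟩,
 zbF0, [⟨nat_lit 0, nat_lit 91, nat_lit 23, nat_lit 100, nat_lit 266749707⟩, ⟨nat_lit 7, nat_lit 100, nat_lit 100, nat_lit 100, nat_lit 316933096⟩]⟩
noncomputable def p126_l100 : Lf2 := ⟨nat_lit 0, nat_lit 30, [nat_lit 15, nat_lit 5, nat_lit 5, nat_lit 20], false, nat_lit 80, nat_lit 208, nat_lit 160, nat_lit 336, ⟨nat_lit 1000, nat_lit 0, nat_lit 0, nat_lit 0, nat_lit 0, nat_lit 0, nat_lit 0, nat_lit 0, nat_lit 0, nat_lit 0, nat_lit 0, nat_lit 0, nat_lit 0, nat_lit 0, nat_lit 0, nat_lit 0, false, false⟩,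
 nat_lit 12905, nat_lit 0, nat_lit 0, nat_lit 0, nat_lit 3581, nat_lit 8212, nat_lit 521, nat_lit 0, nat_lit 0, nat_lit 599, nat_lit 0, nat_lit 0, nat_lit 0, nat_lit 0, nat_lit 0, nat_lit 0, nat_lit 0, nat_lit 0, [],
 ⟨p126_k0, nat_lit 0, nat_lit 0, nat_lit 204, nat_lit 0, nat_lit 212702, [nat_lit 938000000, nat_lit 4688000000, nat_lit 7968000000], [], [nat_lit 23821038565, nat_lit 24085195927, nat_lit 30528365349, nat_lit 30826558673, nat_lit 24961899050, nat_lit 25183239118, nat_lit 30875506986, nat_lit 31129769300], nat_lit 1271250, nat_lit 1271250, nat_lit 1271250, nat_lit 1271250, nat_lit 490000, nat_lit 1490000, [nat_lit 230000, nat_lit 1100000, nat_lit 1785000], [nat_lit 57, nat_lit 40, nat_lit 40, nat_lit 80, nat_lit 7, nat_lit 272, nat_lit 60, nat_lit 8]⟩, ⟨p126_k1, nat_lit 0, nat_lit 0, nat_lit 288, nat_lit 0, nat_lit 351365, [nat_lit 3282000000, nat_lit 7968000000, nat_lit 14058000000], [], [nat_lit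 29114090700, nat_lit 30527771932, nat_lit 33713075340, nat_lit 34537221972, nat_lit 31803651465, nat_lit 32619462467, nat_lit 35501832845, nat_lit 36928310282], nat_lit 1271250, nat_lit 1271250, nat_lit 1271250, nat_lit 1271250, nat_lit 1100001, nat_lit 2607000, [nat_lit 780000, nat_lit 1762500, nat_lit 1271250], [nat_lit 84, nat_lit 40, nat_lit 40, nat_lit 80, nat_lit 28, nat_lit 538, nat_lit 300, nat_lit 12]⟩,
 zbF0, [⟨nat_lit 4, nat_lit 100, nat_lit 41, nat_lit 87, nat_lit 617746634⟩, ⟨nat_lit 19, nat_lit 100, nat_lit 100, nat_lit 100, nat_lit 287820953⟩]⟩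
noncomputable def p126_l101 : Lf2 := ⟨nat_lit 0, nat_lit 30, [nat_lit 15, nat_lit 5, nat_lit 5, nat_lit 20], false, nat_lit 80, nat_lit 196, nat_lit 160, nat_lit 336, ⟨nat_lit 1000, nat_lit 0, nat_lit 0, nat_lit 0, nat_lit 0, nat_lit 0, nat_lit 0, nat_lit 0, nat_lit 0, nat_lit 0, nat_lit 0, nat_lit 0, nat_lit 0, nat_lit 0, nat_lit 0, nat_lit 0, false, false⟩,
 nat_lit 6633, nat_lit 0, nat_lit 4257, nat_lit 0, nat_lit 6305, nat_lit 6929, nat_lit 0, nat_lit 0, nat_lit 0, nat_lit 858, nat_lit 0, nat_lit 0, nat_lit 0, nat_lit 0, nat_lit 0, nat_lit 0, nat_lit 0, nat_lit 0, [],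
 ⟨p126_k2, nat_lit 0, nat_lit 0, nat_lit 202, nat_lit 0, nat_lit 230496, [nat_lit 938000000, nat_lit 3282000000, nat_lit 6250000000], [], [nat_lit 28949111195, nat_lit 29414994210, nat_lit 35689763644, nat_lit 36020736981, nat_lit 28918807122, nat_lit 29310820290, nat_lit 34562485552, nat_lit 34843844878], nat_lit 1271250, nat_lit 1271250, nat_lit 1271250, nat_lit 1271250, nat_lit 490000, nat_lit 1396250, [nat_lit 230000, nat_lit 780000, nat_lit 1435000], [nat_lit 20, nat_lit 40, nat_lit 40, nat_lit 80, nat_lit 16, nat_lit 260, nat_lit 50, nat_lit 8]⟩, ⟨p126_k3, nat_lit 0, nat_lit 0, nat_lit 324, nat_lit 0, nat_lit 389064, [nat_lit 3282000000, nat_lit 6250000000, nat_lit 14058000000], [], [nat_lit 28026436768, nat_lit 28928709832, nat_lit 31453815305, nat_lit 32404624464, nat_lit 30256831853, nat_lit 31165731202, nat_lit 33668610046, nat_lit 34965042854], nat_lit 1271250, nat_lit 1271250, nat_lit 1271250, nat_lit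 1271250, nat_lit 1100001, nat_lit 2607000, [nat_lit 780000, nat_lit 1435000, nat_lit 1271250], [nat_lit 71, nat_lit 40, nat_lit 40, nat_lit 80, nat_lit 68, nat_lit 538, nat_lit 300, nat_lit 12]⟩,
 zbF0, [⟨nat_lit 4, nat_lit 100, nat_lit 35, nat_lit 88, nat_lit 552867477⟩, ⟨nat_lit 7, nat_lit 100, nat_lit 100, nat_lit 100, nat_lit 291999606⟩]⟩
noncomputable def p126_l102 : Lf2 := ⟨nat_lit 0, nat_lit 30, [nat_lit 15, nat_lit 5, nat_lit 5, nat_lit 20], false, nat_lit 80, nat_lit 184, nat_lit 160, nat_lit 336, ⟨nat_lit 1000, nat_lit 0, nat_lit 0, nat_lit 0, nat_lit 0, nat_lit 0, nat_lit 0, nat_lit 0, nat_lit 0, nat_lit 0, nat_lit 0, nat_lit 0, nat_lit 0, nat_lit 0, nat_lit 0, nat_lit 0, false, false⟩,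
 nat_lit 11158, nat_lit 0, nat_lit 0, nat_lit 0, nat_lit 4813, nat_lit 7100, nat_lit 169, nat_lit 0, nat_lit 0, nat_lit 848, nat_lit 0, nat_lit 0, nat_lit 0, nat_lit 0, nat_lit 0, nat_lit 0, nat_lit 0, nat_lit 0, [],
 ⟨p126_k5, nat_lit 0, nat_lit 0, nat_lit 213, nat_lit 0, nat_lit 269995, [nat_lit 938000000, nat_lit 3282000000, nat_lit 6250000000], [], [nat_lit 27218188411, nat_lit 28010533009, nat_lit 32691712183, nat_lit 33280121784, nat_lit 27497083202, nat_lit 28183595847, nat_lit 32253620125, nat_lit 32768749572], nat_lit 1271250, nat_lit 1271250, nat_lit 1271250, nat_lit 1271250, nat_lit 490000, nat_lit 1302500, [nat_lit 230000, nat_lit 780000, nat_lit 1435000], [nat_lit 20, nat_lit 40, nat_lit 40, nat_lit 80, nat_lit 16, nat_lit 260, nat_lit 50, nat_lit 8]⟩, ⟨p126_k3, nat_lit 0, nat_lit 0, nat_lit 382, nat_lit 0, nat_lit 465553, [nat_lit 3282000000, nat_lit 6250000000, nat_lit 14058000000], [], [nat_lit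 28007571200, nat_lit 28911180800, nat_lit 30969017440, nat_lit 31991478640, nat_lit 30082935921, nat_lit 30993399440, nat_lit 33033138824, nat_lit 34647865712], nat_lit 1271250, nat_lit 1271250, nat_lit 1271250, nat_lit 1271250, nat_lit 1100001, nat_lit 2607000, [nat_lit 780000, nat_lit 1435000, nat_lit 1271250], [nat_lit 71, nat_lit 40, nat_lit 40, nat_lit 80, nat_lit 68, nat_lit 538, nat_lit 300, nat_lit 12]⟩,
 zbF0, [⟨nat_lit 0, nat_lit 91, nat_lit 23, nat_lit 100, nat_lit 153989663⟩, ⟨nat_lit 4, nat_lit 100, nat_lit 23, nat_lit 91, nat_lit 860793269⟩, ⟨nat_lit 7, nat_lit 100, nat_lit 100, nat_lit 100, nat_lit 287176728⟩]⟩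
noncomputable def b_V_900_700_20_60 : St := ⟨true, nat_lit 1, nat_lit 1, nat_lit 1, nat_lit 120, nat_lit 360, nat_lit 400, nat_lit 280, nat_lit 320, nat_lit 152, nat_lit 392, nat_lit 80, nat_lit 120, nat_lit 8, nat_lit 248, nat_lit 0, nat_lit 336, nat_lit 120, nat_lit 160, nat_lit 0, nat_lit 0, nat_lit 0, nat_lit 0⟩
theorem d_V_900_700_20_60 (h : EB TB.env) : Dead b_V_900_700_20_60 := chkB_sound0 h (T :=
(.spl (nat_lit 2) (nat_lit 240)
(.spl (nat_lit 5) (nat_lit 160)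
(.spl (nat_lit 4) (nat_lit 160)
(.leaf p126_l78)
(.leaf p126_l79))
(.spl (nat_lit 4) (nat_lit 160)
(.spl (nat_lit 0) (nat_lit 380)
(.spl (nat_lit 3) (nat_lit 100)
(.trX (nat_lit 19) (nat_lit 100) (nat_lit 88) (nat_lit 94) (nat_lit 320) (.leaf p126_l80))
(.trZ (nat_lit 3) (nat_lit 100) (nat_lit 69) (nat_lit 45) (nat_lit 16) (.spl (nat_lit 6) (nat_lit 144)
(.spl (nat_lit 0) (nat_lit 370)
(.leaf p126_l81)
(.trZ (nat_lit 0) (nat_lit 93) (nat_lit 53) (nat_lit 100) (nat_lit 168) (.trZ (nat_lit 3) (nat_lit 100) (nat_lit 61) (nat_lit 55) (nat_lit 20) (.leaf p126_l82))))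
(.leaf p126_l83))))
(.trZ (nat_lit 0) (nat_lit 92) (nat_lit 44) (nat_lit 100) (nat_lit 192) (.trZ (nat_lit 3) (nat_lit 100) (nat_lit 54) (nat_lit 57) (nat_lit 20) (.spl (nat_lit 3) (nat_lit 100)
(.trX (nat_lit 19) (nat_lit 100) (nat_lit 88) (nat_lit 94) (nat_lit 320) (.leaf p126_l84))
(.trZ (nat_lit 3) (nat_lit 100) (nat_lit 50) (nat_lit 65) (nat_lit 32) (.leaf p126_l85))))))
(.spl (nat_lit 0) (nat_lit 380)
(.spl (nat_lit 3) (nat_lit 100)
(.trX (nat_lit 16) (nat_lit 60) (nat_lit 100) (nat_lit 87) (nat_lit 224) (.trX (nat_lit 19) (nat_lit 100) (nat_lit 88) (nat_lit 94) (nat_lit 320) (.leaf p126_l86)))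
(.spl (nat_lit 6) (nat_lit 144)
(.spl (nat_lit 0) (nat_lit 370)
(.leaf p126_l87)
(.trZ (nat_lit 0) (nat_lit 93) (nat_lit 53) (nat_lit 100) (nat_lit 168) (.trX (nat_lit 16) (nat_lit 53) (nat_lit 100) (nat_lit 93) (nat_lit 232) (.leaf p126_l88))))
(.leaf p126_l89)))
(.trZ (nat_lit 0) (nat_lit 92) (nat_lit 44) (nat_lit 100) (nat_lit 192) (.trX (nat_lit 16) (nat_lit 44) (nat_lit 100) (nat_lit 92) (nat_lit 208) (.spl (nat_lit 1) (nat_lit 300)
(.leaf p126_l90)
(.trZ (nat_lit 0) (nat_lit 87) (nat_lit 44) (nat_lit 100) (nat_lit 212) (.trX (nat_lit 19) (nat_lit 94) (nat_lit 88) (nat_lit 100) (nat_lit 320) (.leaf p126_l91)))))))))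
(.spl (nat_lit 0) (nat_lit 380)
(.spl (nat_lit 5) (nat_lit 160)
(.leaf p126_l92)
(.spl (nat_lit 4) (nat_lit 160)
(.spl (nat_lit 0) (nat_lit 370)
(.leaf p126_l93)
(.trX (nat_lit 13) (nat_lit 66) (nat_lit 45) (nat_lit 100) (nat_lit 388) (.trZ (nat_lit 3) (nat_lit 100) (nat_lit 66) (nat_lit 45) (nat_lit 12) (.leaf p126_l94))))
(.spl (nat_lit 0) (nat_lit 370)
(.leaf p126_l95)
(.trX (nat_lit 13) (nat_lit 66) (nat_lit 45) (nat_lit 100) (nat_lit 388) (.trX (nat_lit 16) (nat_lit 53) (nat_lit 100) (nat_lit 93) (nat_lit 232) (.leaf p126_l96))))))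
(.trX (nat_lit 13) (nat_lit 54) (nat_lit 57) (nat_lit 100) (nat_lit 380) (.trZ (nat_lit 3) (nat_lit 100) (nat_lit 54) (nat_lit 57) (nat_lit 20) (.trX (nat_lit 16) (nat_lit 44) (nat_lit 100) (nat_lit 92) (nat_lit 208) (.spl (nat_lit 5) (nat_lit 160)
(.leaf p126_l97)
(.spl (nat_lit 4) (nat_lit 80)
(.spl (nat_lit 0) (nat_lit 390)
(.leaf p126_l98)
(.trX (nat_lit 13) (nat_lit 39) (nat_lit 72) (nat_lit 100) (nat_lit 364) (.trZ (nat_lit 3) (nat_lit 100) (nat_lit 39) (nat_lit 72) (nat_lit 36) (.leaf p126_l99))))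
(.spl (nat_lit 0) (nat_lit 390)
(.spl (nat_lit 0) (nat_lit 385)
(.leaf p126_l100)
(.trX (nat_lit 13) (nat_lit 47) (nat_lit 64) (nat_lit 100) (nat_lit 372) (.trX (nat_lit 16) (nat_lit 38) (nat_lit 100) (nat_lit 92) (nat_lit 196) (.leaf p126_l101))))
(.trX (nat_lit 13) (nat_lit 39) (nat_lit 72) (nat_lit 100) (nat_lit 364) (.trX (nat_lit 16) (nat_lit 31) (nat_lit 100) (nat_lit 92) (nat_lit 184) (.leaf p126_l102)))))))))))) (by decide +kernel)
noncomputable def p126_l103 : Lf2 := ⟨nat_lit 0, nat_lit 30, [nat_lit 15, nat_lit 5, nat_lit 5, nat_lit 20], false, nat_lit 8, nat_lit 248, nat_lit 0, nat_lit 160, ⟨nat_lit 1000, nat_lit 0, nat_lit 0, nat_lit 0, nat_lit 0, nat_lit 0, nat_lit 0, nat_lit 0, nat_lit 0, nat_lit 0, nat_lit 0, nat_lit 0, nat_lit 0, nat_lit 0, nat_lit 0, nat_lit 0, false, false⟩,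
 nat_lit 0, nat_lit 7772, nat_lit 0, nat_lit 3550, nat_lit 6769, nat_lit 5938, nat_lit 378, nat_lit 0, nat_lit 0, nat_lit 817, nat_lit 0, nat_lit 0, nat_lit 0, nat_lit 0, nat_lit 0, nat_lit 0, nat_lit 0, nat_lit 0, [],
 ⟨p126_k22, nat_lit 0, nat_lit 0, nat_lit 443, nat_lit 0, nat_lit 484449, [nat_lit 938000000, nat_lit 4688000000, nat_lit 9842000000], [], [nat_lit 31585787120, nat_lit 34128680240, nat_lit 32226750819, nat_lit 35155634718, nat_lit 28354284307, nat_lit 29759919657, nat_lit 30288508076, nat_lit 30247908165], nat_lit 1271250, nat_lit 1271250, nat_lit 1033601, nat_lit 1780500, nat_lit 43600, nat_lit 1756600, [nat_lit 230000, nat_lit 1100000, nat_lit 2127500], [nat_lit 81, nat_lit 40, nat_lit 40, nat_lit 80, nat_lit 13, nat_lit 345, nat_lit 125, nat_lit 9]⟩, ⟨p126_k1, nat_lit 0, nat_lit 0, nat_lit 266, nat_lit 0, nat_lit 0, [nat_lit 3282000000, nat_lit 7968000000, nat_lit 14058000000], [], [nat_lit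 27381829172, nat_lit 29840633049, nat_lit 29150022220, nat_lit 31215406996, nat_lit 23047307056, nat_lit 25153719998, nat_lit 24619824708, nat_lit 26523098728], nat_lit 0, nat_lit 0, nat_lit 0, nat_lit 0, nat_lit 0, nat_lit 0, [], [nat_lit 84, nat_lit 40, nat_lit 40, nat_lit 80, nat_lit 28, nat_lit 428, nat_lit 200, nat_lit 10]⟩,
 zbF0, [⟨nat_lit 0, nat_lit 87, nat_lit 44, nat_lit 100, nat_lit 864747076⟩, ⟨nat_lit 16, nat_lit 44, nat_lit 100, nat_lit 87, nat_lit 176588917⟩]⟩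
noncomputable def p126_l104 : Lf2 := ⟨nat_lit 0, nat_lit 30, [nat_lit 15, nat_lit 5, nat_lit 5, nat_lit 20], false, nat_lit 8, nat_lit 248, nat_lit 0, nat_lit 160, ⟨nat_lit 1000, nat_lit 0, nat_lit 0, nat_lit 0, nat_lit 0, nat_lit 0, nat_lit 0, nat_lit 0, nat_lit 0, nat_lit 0, nat_lit 0, nat_lit 0, nat_lit 0, nat_lit 0, nat_lit 0, nat_lit 0, false, false⟩,
 nat_lit 0, nat_lit 6323, nat_lit 0, nat_lit 0, nat_lit 5507, nat_lit 6550, nat_lit 470, nat_lit 0, nat_lit 0, nat_lit 674, nat_lit 0, nat_lit 0, nat_lit 0, nat_lit 0, nat_lit 0, nat_lit 0, nat_lit 0, nat_lit 0, [],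
 ⟨p126_k26, nat_lit 0, nat_lit 0, nat_lit 334, nat_lit 0, nat_lit 326884, [nat_lit 938000000, nat_lit 3282000000, nat_lit 9842000000], [], [nat_lit 30412730897, nat_lit 31458385493, nat_lit 38132622410, nat_lit 39603660159, nat_lit 27879274051, nat_lit 28579998222, nat_lit 33516113971, nat_lit 34624967105], nat_lit 1271250, nat_lit 1271250, nat_lit 1271250, nat_lit 1271250, nat_lit 43600, nat_lit 1756600, [nat_lit 230000, nat_lit 780000, nat_lit 2090000], [nat_lit 93, nat_lit 40, nat_lit 40, nat_lit 80, nat_lit 63, nat_lit 401, nat_lit 175, nat_lit 11]⟩, ⟨p126_k3, nat_lit 0, nat_lit 0, nat_lit 265, nat_lit 0, nat_lit 0, [nat_lit 3282000000, nat_lit 6250000000, nat_lit 14058000000], [], [nat_lit 34535879100, nat_lit 36244692100, nat_lit 40947383460, nat_lit 42223368180, nat_lit 29999669900, nat_lit 31441333700, nat_lit 35232839461, nat_lit 36100238620], nat_lit 0, nat_lit 0, nat_lit 0, nat_lit 0, nat_lit 0, nat_lit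 0, [], [nat_lit 71, nat_lit 40, nat_lit 40, nat_lit 80, nat_lit 68, nat_lit 456, nat_lit 225, nat_lit 10]⟩,
 zbF0, [⟨nat_lit 4, nat_lit 100, nat_lit 53, nat_lit 87, nat_lit 141401186⟩, ⟨nat_lit 9, nat_lit 100, nat_lit 87, nat_lit 27, nat_lit 4149678⟩]⟩
noncomputable def p126_l105 : Lf2 := ⟨nat_lit 0, nat_lit 30, [nat_lit 15, nat_lit 5, nat_lit 5, nat_lit 20], false, nat_lit 20, nat_lit 208, nat_lit 0, nat_lit 160, ⟨nat_lit 1000, nat_lit 0, nat_lit 0, nat_lit 0, nat_lit 0, nat_lit 0, nat_lit 0, nat_lit 0, nat_lit 0, nat_lit 0, nat_lit 0, nat_lit 0, nat_lit 0, nat_lit 0, nat_lit 0, nat_lit 0, false, false⟩,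
 nat_lit 0, nat_lit 4088, nat_lit 0, nat_lit 0, nat_lit 3819, nat_lit 7051, nat_lit 392, nat_lit 0, nat_lit 0, nat_lit 0, nat_lit 0, nat_lit 0, nat_lit 0, nat_lit 0, nat_lit 0, nat_lit 0, nat_lit 0, nat_lit 0, [],
 ⟨p126_k18, nat_lit 0, nat_lit 0, nat_lit 351, nat_lit 0, nat_lit 440114, [nat_lit 938000000, nat_lit 3282000000, nat_lit 7968000000], [], [nat_lit 27469636668, nat_lit 28826115429, nat_lit 33305614346, nat_lit 34570079886, nat_lit 27168946308, nat_lit 28001642051, nat_lit 31650665222, nat_lit 32461701302], nat_lit 1271250, nat_lit 1271250, nat_lit 1271250, nat_lit 1271250, nat_lit 111251, nat_lit 1474250, [nat_lit 230000, nat_lit 780000, nat_lit 1762500], [nat_lit 54, nat_lit 40, nat_lit 40, nat_lit 80, nat_lit 43, nat_lit 272, nat_lit 60, nat_lit 8]⟩, ⟨p126_k3, nat_lit 0, nat_lit 0, nat_lit 262, nat_lit 0, nat_lit 0, [nat_lit 3282000000, nat_lit 6250000000, nat_lit 14058000000], [], [nat_lit 42844166272,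 nat_lit 44604672452, nat_lit 49391294968, nat_lit 50765958052, nat_lit 37764941208, nat_lit 39243697044, nat_lit 42593225656, nat_lit 43646855812], nat_lit 0, nat_lit 0, nat_lit 0, nat_lit 0, nat_lit 0, nat_lit 0, [], [nat_lit 71, nat_lit 40, nat_lit 40, nat_lit 80, nat_lit 68, nat_lit 456, nat_lit 225, nat_lit 10]⟩,
 zbF0, [⟨nat_lit 4, nat_lit 100, nat_lit 32, nat_lit 88, nat_lit 402990397⟩, ⟨nat_lit 9, nat_lit 100, nat_lit 93, nat_lit 15, nat_lit 16712845⟩]⟩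
noncomputable def p126_l106 : Lf2 := ⟨nat_lit 0, nat_lit 30, [nat_lit 15, nat_lit 5, nat_lit 5, nat_lit 20], false, nat_lit 8, nat_lit 248, nat_lit 160, nat_lit 336, ⟨nat_lit 979, nat_lit 21, nat_lit 0, nat_lit 7, nat_lit 287, nat_lit 21, nat_lit 96, nat_lit 0, nat_lit 0, nat_lit 0, nat_lit 0, nat_lit 0, nat_lit 0, nat_lit 0, nat_lit 0, nat_lit 5000000, false, false⟩,
 nat_lit 0, nat_lit 7441, nat_lit 0, nat_lit 0, nat_lit 6480, nat_lit 9695, nat_lit 402, nat_lit 0, nat_lit 0, nat_lit 0, nat_lit 0, nat_lit 0, nat_lit 0, nat_lit 0, nat_lit 0, nat_lit 21000, nat_lit 0, nat_lit 0, [(nat_lit 26, [(nat_lit 2, nat_lit 21)])],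
 ⟨p126_k22, nat_lit 0, nat_lit 0, nat_lit 345, nat_lit 0, nat_lit 326884, [nat_lit 962208800, nat_lit 4549542800, nat_lit 9483093200], [], [nat_lit 35413628688, nat_lit 31987002096, nat_lit 40914363946, nat_lit 42527486084, nat_lit 27073717428, nat_lit 27898372656, nat_lit 34713363591, nat_lit 35909513921], nat_lit 1271250, nat_lit 1271250, nat_lit 1033601, nat_lit 3070600, nat_lit 43600, nat_lit 1756600, [nat_lit 230000, nat_lit 1100000, nat_lit 2127500], [nat_lit 81, nat_lit 40, nat_lit 40, nat_lit 80, nat_lit 13, nat_lit 401, nat_lit 175, nat_lit 11]⟩, ⟨p126_k1, nat_lit 0, nat_lit 0, nat_lit 101, nat_lit 0, nat_lit 0, [nat_lit 3213078000, nat_lit 7800672000, nat_lit 13762782000], [], [nat_lit 16069266371, nat_lit 20134601964, nat_lit 31962329689, nat_lit 34676721146, nat_lit 26194024739, nat_lit 28663166306, nat_lit 37375642524, nat_lit 38945112219], nat_lit 0, nat_lit 0, nat_lit 0, nat_lit 0, nat_lit 0, nat_lit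 0, [], [nat_lit 84, nat_lit 40, nat_lit 40, nat_lit 80, nat_lit 28, nat_lit 538, nat_lit 300, nat_lit 12]⟩,
 ⟨nat_lit 2236, nat_lit 3163, ⟨.ofNat (nat_lit 515097), .ofNat (nat_lit 881194), .ofNat (nat_lit 559279), .ofNat (nat_lit 925504), .ofNat (nat_lit 522299), .ofNat (nat_lit 864770), .ofNat (nat_lit 567721), .ofNat (nat_lit 910319)⟩, ⟨.ofNat (nat_lit 20000), .ofNat (nat_lit 440213), .ofNat (nat_lit 20000), .ofNat (nat_lit 484523), .ofNat (nat_lit 20000), .ofNat (nat_lit 431772), .ofNat (nat_lit 20000), .ofNat (nat_lit 477320)⟩⟩, [⟨nat_lit 4, nat_lit 100, nat_lit 53, nat_lit 87, nat_lit 21714520⟩, ⟨nat_lit 7, nat_lit 100, nat_lit 100, nat_lit 100, nat_lit 374962613⟩]⟩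
noncomputable def p126_l107 : Lf2 := ⟨nat_lit 0, nat_lit 30, [nat_lit 15, nat_lit 5, nat_lit 5, nat_lit 20], false, nat_lit 20, nat_lit 208, nat_lit 160, nat_lit 336, ⟨nat_lit 1000, nat_lit 0, nat_lit 0, nat_lit 0, nat_lit 0, nat_lit 0, nat_lit 0, nat_lit 0, nat_lit 0, nat_lit 0, nat_lit 0, nat_lit 0, nat_lit 0, nat_lit 0, nat_lit 0, nat_lit 0, false, false⟩,
 nat_lit 0, nat_lit 4201, nat_lit 0, nat_lit 1441, nat_lit 3925, nat_lit 8133, nat_lit 404, nat_lit 0, nat_lit 0, nat_lit 0, nat_lit 0, nat_lit 0, nat_lit 0, nat_lit 0, nat_lit 0, nat_lit 0, nat_lit 0, nat_lit 0, [],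
 ⟨p126_k18, nat_lit 0, nat_lit 0, nat_lit 351, nat_lit 0, nat_lit 440114, [nat_lit 938000000, nat_lit 3282000000, nat_lit 7968000000], [], [nat_lit 26091237143, nat_lit 27591117725, nat_lit 33597262163, nat_lit 34878083450, nat_lit 25651330283, nat_lit 26846527808, nat_lit 31453936806, nat_lit 32390401710], nat_lit 1271250, nat_lit 1271250, nat_lit 1271250, nat_lit 1271250, nat_lit 111251, nat_lit 1474250, [nat_lit 230000, nat_lit 780000, nat_lit 1762500], [nat_lit 54, nat_lit 40, nat_lit 40, nat_lit 80, nat_lit 43, nat_lit 373, nat_lit 150, nat_lit 11]⟩, ⟨p126_k3, nat_lit 0, nat_lit 0, nat_lit 81, nat_lit 0, nat_lit 0, [nat_lit 3282000000, nat_lit 6250000000, nat_lit 14058000000], [], [nat_lit 15787809601, nat_lit 19493897910, nat_lit 29449194712, nat_lit 32080978502, nat_lit 25376162234, nat_lit 28202021850, nat_lit 35247248929, nat_lit 36838149415], nat_lit 0, nat_lit 0, nat_lit 0, nat_lit 0, nat_lit 0, nat_lit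 0, [], [nat_lit 71, nat_lit 40, nat_lit 40, nat_lit 80, nat_lit 68, nat_lit 538, nat_lit 300, nat_lit 12]⟩,
 zbF0, [⟨nat_lit 0, nat_lit 88, nat_lit 32, nat_lit 100, nat_lit 18301222⟩, ⟨nat_lit 4, nat_lit 100, nat_lit 32, nat_lit 88, nat_lit 344026066⟩, ⟨nat_lit 19, nat_lit 100, nat_lit 80, nat_lit 100, nat_lit 380914562⟩]⟩
noncomputable def p126_l108 : Lf2 := ⟨nat_lit 0, nat_lit 30, [nat_lit 15, nat_lit 5, nat_lit 5, nat_lit 20], false, nat_lit 8, nat_lit 248, nat_lit 0, nat_lit 336, ⟨nat_lit 0, nat_lit 1000, nat_lit 0, nat_lit 7, nat_lit 242, nat_lit 1000, nat_lit 96, nat_lit 0, nat_lit 0, nat_lit 0, nat_lit 0, nat_lit 0, nat_lit 0, nat_lit 0, nat_lit 0, nat_lit 5000000, false, false⟩,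
 nat_lit 0, nat_lit 4639, nat_lit 0, nat_lit 0, nat_lit 4040, nat_lit 0, nat_lit 203, nat_lit 0, nat_lit 0, nat_lit 0, nat_lit 0, nat_lit 0, nat_lit 0, nat_lit 0, nat_lit 0, nat_lit 250000, nat_lit 0, nat_lit 0, [(nat_lit 26, [(nat_lit 0, nat_lit 1000)])],
 ⟨p126_k26, nat_lit 0, nat_lit 0, nat_lit 307, nat_lit 0, nat_lit 207882, [nat_lit 765600000, nat_lit 1432000001, nat_lit 2936000000], [], [nat_lit 24494290504, nat_lit 25538265971, nat_lit 25735027509, nat_lit 26952234202, nat_lit 24038679742, nat_lit 25000033372, nat_lit 25689120747, nat_lit 26242298475], nat_lit 1271250, nat_lit 1271250, nat_lit 1033601, nat_lit 1780500, nat_lit 43600, nat_lit 1756600, [nat_lit 230000, nat_lit 780000, nat_lit 2090000], [nat_lit 93, nat_lit 40, nat_lit 40, nat_lit 80, nat_lit 63, nat_lit 345, nat_lit 125, nat_lit 9]⟩, ⟨p126_k3, nat_lit 0, nat_lit 0, nat_lit 444, nat_lit 0, nat_lit 314133, [nat_lit 0, nat_lit 0, nat_lit 0],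 [], [nat_lit 0, nat_lit 0, nat_lit 0, nat_lit 0, nat_lit 0, nat_lit 0, nat_lit 0, nat_lit 0], nat_lit 1271250, nat_lit 1271250, nat_lit 1033601, nat_lit 1780500, nat_lit 0, nat_lit 2373000, [nat_lit 780000, nat_lit 1435000, nat_lit 1271250], [nat_lit 71, nat_lit 40, nat_lit 40, nat_lit 80, nat_lit 68, nat_lit 456, nat_lit 225, nat_lit 10]⟩,
 ⟨nat_lit 2236, nat_lit 3163, ⟨.ofNat (nat_lit 515097), .ofNat (nat_lit 649422), .ofNat (nat_lit 559279), .ofNat (nat_lit 693606), .ofNat (nat_lit 522299), .ofNat (nat_lit 647962), .ofNat (nat_lit 567721), .ofNat (nat_lit 693384)⟩, ⟨.ofNat (nat_lit 20000), .ofNat (nat_lit 440213), .ofNat (nat_lit 20000), .ofNat (nat_lit 484523), .ofNat (nat_lit 20000), .ofNat (nat_lit 431772), .ofNat (nat_lit 20000), .ofNat (nat_lit 477320)⟩⟩, [⟨nat_lit 4, nat_lit 100, nat_lit 53, nat_lit 87, nat_lit 98149765⟩]⟩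
noncomputable def p126_l109 : Lf2 := ⟨nat_lit 0, nat_lit 30, [nat_lit 15, nat_lit 5, nat_lit 5, nat_lit 20], true, nat_lit 20, nat_lit 208, nat_lit 0, nat_lit 336, ⟨nat_lit 0, nat_lit 1000, nat_lit 0, nat_lit 7, nat_lit 255, nat_lit 1000, nat_lit 88, nat_lit 0, nat_lit 0, nat_lit 0, nat_lit 0, nat_lit 0, nat_lit 0, nat_lit 0, nat_lit 0, nat_lit 5000000, true, false⟩,
 nat_lit 0, nat_lit 3224, nat_lit 0, nat_lit 0, nat_lit 3012, nat_lit 0, nat_lit 42, nat_lit 0, nat_lit 0, nat_lit 0, nat_lit 0, nat_lit 0, nat_lit 0, nat_lit 0, nat_lit 0, nat_lit 400000, nat_lit 0, nat_lit 0, [(nat_lit 29, [(nat_lit 1, nat_lit 1000)])],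
 ⟨p126_k18, nat_lit 0, nat_lit 0, nat_lit 350, nat_lit 0, nat_lit 440114, [nat_lit 698400000, nat_lit 332000000, nat_lit 54800000], [], [nat_lit 22979611124, nat_lit 24434835234, nat_lit 24232193714, nat_lit 25833691456, nat_lit 23534085903, nat_lit 24543970562, nat_lit 24525532541, nat_lit 25688461821], nat_lit 1271250, nat_lit 1271250, nat_lit 1271250, nat_lit 1271250, nat_lit 111251, nat_lit 1474250, [nat_lit 230000, nat_lit 780000, nat_lit 1762500], [nat_lit 54, nat_lit 40, nat_lit 40, nat_lit 80, nat_lit 43, nat_lit 345, nat_lit 125, nat_lit 11]⟩, C1.Rw.none,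
 ⟨nat_lit 0, nat_lit 2237, ⟨.ofNat (nat_lit 575619), .ofNat (nat_lit 646249), .ofNat (nat_lit 619314), .ofNat (nat_lit 689944), .ofNat (nat_lit 585925), .ofNat (nat_lit 648136), .ofNat (nat_lit 634072), .ofNat (nat_lit 696283)⟩, ⟨.ofNat (nat_lit 50000), .ofNat (nat_lit 374750), .ofNat (nat_lit 50000), .ofNat (nat_lit 420300), .ofNat (nat_lit 50000), .ofNat (nat_lit 359993), .ofNat (nat_lit 50000), .ofNat (nat_lit 409994)⟩⟩, [⟨nat_lit 0, nat_lit 92, nat_lit 44, nat_lit 100, nat_lit 298801577⟩, ⟨nat_lit 16, nat_lit 44, nat_lit 100, nat_lit 92, nat_lit 135357591⟩]⟩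
noncomputable def p126_l110 : Lf2 := ⟨nat_lit 0, nat_lit 30, [nat_lit 15, nat_lit 5, nat_lit 5, nat_lit 20], false, nat_lit 8, nat_lit 160, nat_lit 0, nat_lit 336, ⟨nat_lit 445, nat_lit 555, nat_lit 0, nat_lit 7, nat_lit 306, nat_lit 555, nat_lit 70, nat_lit 0, nat_lit 0, nat_lit 0, nat_lit 0, nat_lit 0, nat_lit 0, nat_lit 0, nat_lit 0, nat_lit 5000000, true, true⟩,
 nat_lit 5800, nat_lit 0, nat_lit 0, nat_lit 0, nat_lit 4128, nat_lit 3690, nat_lit 193, nat_lit 0, nat_lit 0, nat_lit 237, nat_lit 0, nat_lit 0, nat_lit 0, nat_lit 0, nat_lit 0, nat_lit 257400, nat_lit 0, nat_lit 0, [(nat_lit 26, [(nat_lit 1, nat_lit 496), (nat_lit 2, nat_lit 59)])],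
 ⟨p126_k22, nat_lit 0, nat_lit 0, nat_lit 292, nat_lit 0, nat_lit 151404, [nat_lit 1022482400, nat_lit 2462015601, nat_lit 4324804400], [], [nat_lit 28692088906, nat_lit 29611861212, nat_lit 33628922358, nat_lit 34931942016, nat_lit 26738757024, nat_lit 27539556672, nat_lit 30618469106, nat_lit 31252151239], nat_lit 1271250, nat_lit 1271250, nat_lit 1271250, nat_lit 1271250, nat_lit 43600, nat_lit 1100001, [nat_lit 230000, nat_lit 1100000, nat_lit 2127500], [nat_lit 81, nat_lit 40, nat_lit 40, nat_lit 80, nat_lit 13, nat_lit 373, nat_lit 150, nat_lit 10]⟩, ⟨p126_k1, nat_lit 0, nat_lit 0, nat_lit 404, nat_lit 0, nat_lit 228789, [nat_lit 1460490000, nat_lit 3545760000, nat_lit 6255810000], [], [nat_lit 17421487040, nat_lit 17667340610, nat_lit 19191706756, nat_lit 19505650966, nat_lit 14609857656, nat_lit 14711323856, nat_lit 16105639626, nat_lit 16249164256], nat_lit 1271250, nat_lit 1271250, nat_lit 1271250,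 nat_lit 1271250, nat_lit 0, nat_lit 2373000, [nat_lit 780000, nat_lit 1762500, nat_lit 1271250], [nat_lit 84, nat_lit 40, nat_lit 40, nat_lit 80, nat_lit 28, nat_lit 538, nat_lit 300, nat_lit 12]⟩,
 ⟨nat_lit 2236, nat_lit 3163, ⟨.ofNat (nat_lit 649422), .ofNat (nat_lit 869004), .ofNat (nat_lit 671514), .ofNat (nat_lit 891158), .ofNat (nat_lit 647962), .ofNat (nat_lit 853367), .ofNat (nat_lit 670673), .ofNat (nat_lit 876141)⟩, ⟨.ofNat (nat_lit 20000), .ofNat (nat_lit 306116), .ofNat (nat_lit 20000), .ofNat (nat_lit 350426), .ofNat (nat_lit 20000), .ofNat (nat_lit 306337), .ofNat (nat_lit 20000), .ofNat (nat_lit 351886)⟩⟩, [⟨nat_lit 22, nat_lit 88, nat_lit 100, nat_lit 87, nat_lit 46875868⟩]⟩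
noncomputable def p126_l111 : Lf2 := ⟨nat_lit 0, nat_lit 30, [nat_lit 15, nat_lit 5, nat_lit 5, nat_lit 20], false, nat_lit 8, nat_lit 160, nat_lit 0, nat_lit 320, ⟨nat_lit 690, nat_lit 310, nat_lit 0, nat_lit 7, nat_lit 318, nat_lit 310, nat_lit 70, nat_lit 0, nat_lit 0, nat_lit 0, nat_lit 0, nat_lit 0, nat_lit 0, nat_lit 0, nat_lit 0, nat_lit 5000000, true, true⟩,
 nat_lit 6874, nat_lit 0, nat_lit 0, nat_lit 0, nat_lit 4733, nat_lit 4758, nat_lit 217, nat_lit 0, nat_lit 0, nat_lit 389, nat_lit 0, nat_lit 0, nat_lit 0, nat_lit 0, nat_lit 0, nat_lit 310000, nat_lit 0, nat_lit 0, [(nat_lit 26, [(nat_lit 2, nat_lit 310)])],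
 ⟨p126_k22, nat_lit 0, nat_lit 0, nat_lit 308, nat_lit 0, nat_lit 207882, [nat_lit 1295368000, nat_lit 2644108000, nat_lit 4543852000], [], [nat_lit 27978244152, nat_lit 28953244004, nat_lit 35919808484, nat_lit 37277821243, nat_lit 25600811492, nat_lit 26319122634, nat_lit 31442321974, nat_lit 32639801606], nat_lit 1271250, nat_lit 1271250, nat_lit 1271250, nat_lit 1271250, nat_lit 43600, nat_lit 1100001, [nat_lit 230000, nat_lit 1100000, nat_lit 2127500], [nat_lit 81, nat_lit 40, nat_lit 40, nat_lit 80, nat_lit 13, nat_lit 373, nat_lit 150, nat_lit 10]⟩, ⟨p126_k30, nat_lit 0, nat_lit 0, nat_lit 378, nat_lit 0, nat_lit 280473, [nat_lit 2264580000, nat_lit 5497920000, nat_lit 8191680000], [], [nat_lit 24010533294, nat_lit 24510621726, nat_lit 27429109502, nat_lit 27888109683, nat_lit 21585163446, nat_lit 21858873074, nat_lit 24157514653, nat_lit 24419132808], nat_lit 1271250, nat_lit 1271250, nat_lit 1271250,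 nat_lit 1271250, nat_lit 0, nat_lit 2260000, [nat_lit 780000, nat_lit 1762500, nat_lit 1271250], [nat_lit 79, nat_lit 40, nat_lit 40, nat_lit 80, nat_lit 14, nat_lit 538, nat_lit 300, nat_lit 13]⟩,
 ⟨nat_lit 2236, nat_lit 3163, ⟨.ofNat (nat_lit 671514), .ofNat (nat_lit 903349), .ofNat (nat_lit 693606), .ofNat (nat_lit 925504), .ofNat (nat_lit 670673), .ofNat (nat_lit 887545), .ofNat (nat_lit 693384), .ofNat (nat_lit 910319)⟩, ⟨.ofNat (nat_lit 20000), .ofNat (nat_lit 306116), .ofNat (nat_lit 20000), .ofNat (nat_lit 350426), .ofNat (nat_lit 20000), .ofNat (nat_lit 306337), .ofNat (nat_lit 20000), .ofNat (nat_lit 351886)⟩⟩, [⟨nat_lit 19, nat_lit 93, nat_lit 100, nat_lit 97, nat_lit 46241727⟩, ⟨nat_lit 22, nat_lit 86, nat_lit 100, nat_lit 86, nat_lit 43294713⟩]⟩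
noncomputable def p126_l112 : Lf2 := ⟨nat_lit 0, nat_lit 30, [nat_lit 15, nat_lit 5, nat_lit 5, nat_lit 20], false, nat_lit 20, nat_lit 160, nat_lit 0, nat_lit 336, ⟨nat_lit 403, nat_lit 597, nat_lit 0, nat_lit 7, nat_lit 306, nat_lit 597, nat_lit 75, nat_lit 0, nat_lit 0, nat_lit 0, nat_lit 0, nat_lit 0, nat_lit 0, nat_lit 0, nat_lit 0, nat_lit 5000000, true, true⟩,
 nat_lit 4339, nat_lit 0, nat_lit 0, nat_lit 0, nat_lit 3429, nat_lit 2761, nat_lit 215, nat_lit 0, nat_lit 0, nat_lit 296, nat_lit 0, nat_lit 0, nat_lit 0, nat_lit 0, nat_lit 0, nat_lit 149250, nat_lit 0, nat_lit 0, [(nat_lit 29, [(nat_lit 0, nat_lit 597)])],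
 ⟨p126_k18, nat_lit 0, nat_lit 0, nat_lit 284, nat_lit 0, nat_lit 281826, [nat_lit 844629200, nat_lit 1952361600, nat_lit 4484851320], [], [nat_lit 26360953533, nat_lit 27648277884, nat_lit 32232570491, nat_lit 33436859226, nat_lit 25326880669, nat_lit 26451273533, nat_lit 30301662596, nat_lit 31137571521], nat_lit 1271250, nat_lit 1271250, nat_lit 1271250, nat_lit 1271250, nat_lit 111251, nat_lit 1100001, [nat_lit 230000, nat_lit 780000, nat_lit 1762500], [nat_lit 54, nat_lit 40, nat_lit 40, nat_lit 80, nat_lit 43, nat_lit 249, nat_lit 40, nat_lit 7]⟩, ⟨p126_k3, nat_lit 0, nat_lit 0, nat_lit 528, nat_lit 0, nat_lit 465553, [nat_lit 1322646000, nat_lit 2518750000, nat_lit 5665374000], [], [nat_lit 15071808416, nat_lit 15404216040, nat_lit 16316435892, nat_lit 16578167214, nat_lit 13359671541, nat_lit 13603932382, nat_lit 14233265929, nat_lit 14466400559], nat_lit 1271250, nat_lit 1271250, nat_lit 1271250, nat_lit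 1271250, nat_lit 0, nat_lit 2373000, [nat_lit 780000, nat_lit 1435000, nat_lit 1271250], [nat_lit 71, nat_lit 40, nat_lit 40, nat_lit 80, nat_lit 68, nat_lit 538, nat_lit 300, nat_lit 12]⟩,
 ⟨nat_lit 0, nat_lit 2237, ⟨.ofNat (nat_lit 646249), .ofNat (nat_lit 847661), .ofNat (nat_lit 689944), .ofNat (nat_lit 893212), .ofNat (nat_lit 648136), .ofNat (nat_lit 824994), .ofNat (nat_lit 696283), .ofNat (nat_lit 874997)⟩, ⟨.ofNat (nat_lit 50000), .ofNat (nat_lit 306334), .ofNat (nat_lit 50000), .ofNat (nat_lit 351885), .ofNat (nat_lit 50000), .ofNat (nat_lit 299996), .ofNat (nat_lit 50000), .ofNat (nat_lit 349998)⟩⟩, [⟨nat_lit 13, nat_lit 36, nat_lit 77, nat_lit 100, nat_lit 218505133⟩, ⟨nat_lit 19, nat_lit 100, nat_lit 100, nat_lit 100, nat_lit 44935962⟩]⟩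
noncomputable def p126_l113 : Lf2 := ⟨nat_lit 0, nat_lit 30, [nat_lit 15, nat_lit 5, nat_lit 5, nat_lit 20], false, nat_lit 160, nat_lit 248, nat_lit 0, nat_lit 336, ⟨nat_lit 699, nat_lit 301, nat_lit 0, nat_lit 7, nat_lit 306, nat_lit 301, nat_lit 157, nat_lit 0, nat_lit 0, nat_lit 0, nat_lit 0, nat_lit 0, nat_lit 0, nat_lit 0, nat_lit 0, nat_lit 5000000, true, true⟩,
 nat_lit 9129, nat_lit 0, nat_lit 0, nat_lit 0, nat_lit 5751, nat_lit 5809, nat_lit 252, nat_lit 0, nat_lit 0, nat_lit 370, nat_lit 0, nat_lit 0, nat_lit 0, nat_lit 0, nat_lit 0, nat_lit 75250, nat_lit 0, nat_lit 0, [(nat_lit 26, [(nat_lit 0, nat_lit 301)])],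
 ⟨p126_k22, nat_lit 0, nat_lit 0, nat_lit 174, nat_lit 0, nat_lit 147071, [nat_lit 886107601, nat_lit 3832437601, nat_lit 7706706000], [], [nat_lit 26965654489, nat_lit 28106832815, nat_lit 32648806855, nat_lit 33640984563, nat_lit 28184476790, nat_lit 29331494886, nat_lit 33314373310, nat_lit 34476388563], nat_lit 1271250, nat_lit 1271250, nat_lit 1271250, nat_lit 1271250, nat_lit 1100001, nat_lit 1853500, [nat_lit 230000, nat_lit 1100000, nat_lit 2127500], [nat_lit 81, nat_lit 40, nat_lit 40, nat_lit 80, nat_lit 13, nat_lit 401, nat_lit 175, nat_lit 10]⟩, ⟨p126_k1, nat_lit 0, nat_lit 0, nat_lit 402, nat_lit 0, nat_lit 221626, [nat_lit 2294118000, nat_lit 5569632000, nat_lit 9826542000], [], [nat_lit 25573480636, nat_lit 26170934488, nat_lit 30195229006, nat_lit 30688687442, nat_lit 22833775504, nat_lit 23118861428, nat_lit 25327682211, nat_lit 25552987212], nat_lit 1271250, nat_lit 1271250, nat_lit 1271250,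 nat_lit 1271250, nat_lit 0, nat_lit 2373000, [nat_lit 780000, nat_lit 1762500, nat_lit 1271250], [nat_lit 84, nat_lit 40, nat_lit 40, nat_lit 80, nat_lit 28, nat_lit 538, nat_lit 300, nat_lit 12]⟩,
 ⟨nat_lit 2236, nat_lit 3163, ⟨.ofNat (nat_lit 649422), .ofNat (nat_lit 869004), .ofNat (nat_lit 671514), .ofNat (nat_lit 891158), .ofNat (nat_lit 647962), .ofNat (nat_lit 853367), .ofNat (nat_lit 670673), .ofNat (nat_lit 876141)⟩, ⟨.ofNat (nat_lit 306116), .ofNat (nat_lit 440213), .ofNat (nat_lit 350426), .ofNat (nat_lit 484523), .ofNat (nat_lit 306337), .ofNat (nat_lit 431772), .ofNat (nat_lit 351886), .ofNat (nat_lit 477320)⟩⟩, [⟨nat_lit 16, nat_lit 53, nat_lit 100, nat_lit 87, nat_lit 483154659⟩, ⟨nat_lit 19, nat_lit 100, nat_lit 94, nat_lit 97, nat_lit 57549744⟩]⟩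
noncomputable def p126_l114 : Lf2 := ⟨nat_lit 1, nat_lit 30, [nat_lit 15, nat_lit 5, nat_lit 5, nat_lit 20], false, nat_lit 160, nat_lit 248, nat_lit 0, nat_lit 336, zbN0,
 nat_lit 0, nat_lit 0, nat_lit 0, nat_lit 0, nat_lit 0, nat_lit 0, nat_lit 0, nat_lit 0, nat_lit 0, nat_lit 0, nat_lit 0, nat_lit 0, nat_lit 0, nat_lit 0, nat_lit 0, nat_lit 0, nat_lit 0, nat_lit 0, [],
 C1.Rw.none, C1.Rw.none,
 zbF0, []⟩
noncomputable def p126_l115 : Lf2 := ⟨nat_lit 0, nat_lit 30, [nat_lit 15, nat_lit 5, nat_lit 5, nat_lit 20], false, nat_lit 160, nat_lit 208, nat_lit 0, nat_lit 336, ⟨nat_lit 600, nat_lit 400, nat_lit 0, nat_lit 7, nat_lit 298, nat_lit 400, nat_lit 144, nat_lit 0, nat_lit 0, nat_lit 0, nat_lit 0, nat_lit 0, nat_lit 0, nat_lit 0, nat_lit 0, nat_lit 5000000, true, true⟩,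
 nat_lit 8231, nat_lit 0, nat_lit 0, nat_lit 0, nat_lit 4387, nat_lit 5237, nat_lit 201, nat_lit 0, nat_lit 0, nat_lit 317, nat_lit 0, nat_lit 0, nat_lit 0, nat_lit 0, nat_lit 0, nat_lit 100000, nat_lit 0, nat_lit 0, [(nat_lit 29, [(nat_lit 0, nat_lit 400)])],
 ⟨p126_k0, nat_lit 0, nat_lit 0, nat_lit 181, nat_lit 0, nat_lit 236854, [nat_lit 875440001, nat_lit 3434080000, nat_lit 5604026667], [], [nat_lit 26117938189, nat_lit 27382214381, nat_lit 30911786705, nat_lit 31915757969, nat_lit 26946108107, nat_lit 28116309529, nat_lit 31363117932, nat_lit 32431728749], nat_lit 1271250, nat_lit 1271250, nat_lit 1271250, nat_lit 1271250, nat_lit 1100001, nat_lit 1511000, [nat_lit 230000, nat_lit 1100000, nat_lit 1785000], [nat_lit 57, nat_lit 40, nat_lit 40, nat_lit 80, nat_lit 7, nat_lit 272, nat_lit 60, nat_lit 7]⟩, ⟨p126_k1, nat_lit 0, nat_lit 0, nat_lit 458, nat_lit 0, nat_lit 391263, [nat_lit 1969200000, nat_lit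 4780800000, nat_lit 8434800000], [], [nat_lit 23450413460, nat_lit 23785031580, nat_lit 25516182434, nat_lit 25982758932, nat_lit 19347441816, nat_lit 19500339472, nat_lit 21252836465, nat_lit 21478931232], nat_lit 1271250, nat_lit 1271250, nat_lit 1271250, nat_lit 1271250, nat_lit 0, nat_lit 2373000, [nat_lit 780000, nat_lit 1762500, nat_lit 1271250], [nat_lit 84, nat_lit 40, nat_lit 40, nat_lit 80, nat_lit 28, nat_lit 538, nat_lit 300, nat_lit 12]⟩,
 ⟨nat_lit 0, nat_lit 2237, ⟨.ofNat (nat_lit 646249), .ofNat (nat_lit 830557), .ofNat (nat_lit 668096), .ofNat (nat_lit 853333), .ofNat (nat_lit 648136), .ofNat (nat_lit 809995), .ofNat (nat_lit 672209), .ofNat (nat_lit 834997)⟩, ⟨.ofNat (nat_lit 306334), .ofNat (nat_lit 374750), .ofNat (nat_lit 351885), .ofNat (nat_lit 420300), .ofNat (nat_lit 299996), .ofNat (nat_lit 359993), .ofNat (nat_lit 349998), .ofNat (nat_lit 409994)⟩⟩, [⟨nat_lit 13, nat_lit 35, nat_lit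 79, nat_lit 100, nat_lit 122010258⟩, ⟨nat_lit 4, nat_lit 100, nat_lit 32, nat_lit 88, nat_lit 846882293⟩, ⟨nat_lit 7, nat_lit 94, nat_lit 100, nat_lit 97, nat_lit 47954768⟩]⟩
noncomputable def p126_l116 : Lf2 := ⟨nat_lit 0, nat_lit 30, [nat_lit 15, nat_lit 5, nat_lit 5, nat_lit 20], false, nat_lit 160, nat_lit 248, nat_lit 0, nat_lit 320, ⟨nat_lit 945, nat_lit 55, nat_lit 0, nat_lit 7, nat_lit 318, nat_lit 55, nat_lit 157, nat_lit 0, nat_lit 0, nat_lit 0, nat_lit 0, nat_lit 0, nat_lit 0, nat_lit 0, nat_lit 0, nat_lit 5000000, true, true⟩,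
 nat_lit 10180, nat_lit 0, nat_lit 0, nat_lit 0, nat_lit 6410, nat_lit 7047, nat_lit 284, nat_lit 0, nat_lit 0, nat_lit 530, nat_lit 0, nat_lit 0, nat_lit 0, nat_lit 0, nat_lit 0, nat_lit 13750, nat_lit 0, nat_lit 0, [(nat_lit 26, [(nat_lit 0, nat_lit 55)])],
 ⟨p126_k22, nat_lit 0, nat_lit 0, nat_lit 192, nat_lit 0, nat_lit 207882, [nat_lit 928518001, nat_lit 4531668000, nat_lit 9451830000], [], [nat_lit 27852850080, nat_lit 29061790740, nat_lit 34226302152, nat_lit 35195657605, nat_lit 29024122321, nat_lit 30240009097, nat_lit 34620664944, nat_lit 35817100481], nat_lit 1271250, nat_lit 1271250, nat_lit 1271250, nat_lit 1271250, nat_lit 1100001, nat_lit 1853500, [nat_lit 230000, nat_lit 1100000, nat_lit 2127500], [nat_lit 81, nat_lit 40, nat_lit 40, nat_lit 80, nat_lit 13, nat_lit 401, nat_lit 175, nat_lit 10]⟩, ⟨p126_k30, nat_lit 0, nat_lit 0, nat_lit 378, nat_lit 0, nat_lit 280473, [nat_lit 3101490000, nat_lit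 7529760000, nat_lit 11219040000], [], [nat_lit 32613990216, nat_lit 33317170224, nat_lit 38103531349, nat_lit 38966367298, nat_lit 28592799324, nat_lit 28962542756, nat_lit 33319022599, nat_lit 34052824980], nat_lit 1271250, nat_lit 1271250, nat_lit 1271250, nat_lit 1271250, nat_lit 0, nat_lit 2260000, [nat_lit 780000, nat_lit 1762500, nat_lit 1271250], [nat_lit 79, nat_lit 40, nat_lit 40, nat_lit 80, nat_lit 14, nat_lit 538, nat_lit 300, nat_lit 13]⟩,
 ⟨nat_lit 2236, nat_lit 3163, ⟨.ofNat (nat_lit 671514), .ofNat (nat_lit 903349), .ofNat (nat_lit 693606), .ofNat (nat_lit 925504), .ofNat (nat_lit 670673), .ofNat (nat_lit 887545), .ofNat (nat_lit 693384), .ofNat (nat_lit 910319)⟩, ⟨.ofNat (nat_lit 306116), .ofNat (nat_lit 440213), .ofNat (nat_lit 350426), .ofNat (nat_lit 484523), .ofNat (nat_lit 306337), .ofNat (nat_lit 431772), .ofNat (nat_lit 351886), .ofNat (nat_lit 477320)⟩⟩, [⟨nat_lit 4, nat_lit 100, nat_lit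 53, nat_lit 87, nat_lit 581553624⟩, ⟨nat_lit 7, nat_lit 100, nat_lit 93, nat_lit 97, nat_lit 109049152⟩]⟩
noncomputable def p126_l117 : Lf2 := ⟨nat_lit 0, nat_lit 30, [nat_lit 15, nat_lit 5, nat_lit 5, nat_lit 20], false, nat_lit 160, nat_lit 208, nat_lit 0, nat_lit 320, ⟨nat_lit 809, nat_lit 191, nat_lit 0, nat_lit 7, nat_lit 311, nat_lit 191, nat_lit 144, nat_lit 0, nat_lit 0, nat_lit 0, nat_lit 0, nat_lit 0, nat_lit 0, nat_lit 0, nat_lit 0, nat_lit 5000000, true, true⟩,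
 nat_lit 9013, nat_lit 0, nat_lit 0, nat_lit 0, nat_lit 4315, nat_lit 6239, nat_lit 251, nat_lit 0, nat_lit 0, nat_lit 419, nat_lit 0, nat_lit 0, nat_lit 0, nat_lit 0, nat_lit 0, nat_lit 76400, nat_lit 0, nat_lit 0, [(nat_lit 29, [(nat_lit 1, nat_lit 191)])],
 ⟨p126_k0, nat_lit 0, nat_lit 0, nat_lit 196, nat_lit 0, nat_lit 281826, [nat_lit 892236401, nat_lit 3830333601, nat_lit 6456578800], [], [nat_lit 26374659536, nat_lit 27504823230, nat_lit 31567982535, nat_lit 32479932410, nat_lit 27101762289, nat_lit 28244120694, nat_lit 31989590890, nat_lit 32954819538], nat_lit 1271250, nat_lit 1271250, nat_lit 1271250, nat_lit 1271250, nat_lit 1100001, nat_lit 1511000, [nat_lit 230000, nat_lit 1100000, nat_lit 1785000], [nat_lit 57, nat_lit 40, nat_lit 40, nat_lit 80, nat_lit 7, nat_lit 272, nat_lit 60, nat_lit 7]⟩, ⟨p126_k30, nat_lit 0, nat_lit 0, nat_lit 421, nat_lit 0, nat_lit 415667, [nat_lit 2655138000, nat_lit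 6446112000, nat_lit 9604448000], [], [nat_lit 29019957029, nat_lit 29437795163, nat_lit 32559978018, nat_lit 33233202313, nat_lit 24967613933, nat_lit 25240414647, nat_lit 28042451893, nat_lit 28715676188], nat_lit 1271250, nat_lit 1271250, nat_lit 1271250, nat_lit 1271250, nat_lit 0, nat_lit 2260000, [nat_lit 780000, nat_lit 1762500, nat_lit 1271250], [nat_lit 79, nat_lit 40, nat_lit 40, nat_lit 80, nat_lit 14, nat_lit 538, nat_lit 300, nat_lit 13]⟩,
 ⟨nat_lit 0, nat_lit 2237, ⟨.ofNat (nat_lit 668096), .ofNat (nat_lit 870437), .ofNat (nat_lit 689944), .ofNat (nat_lit 893212), .ofNat (nat_lit 672209), .ofNat (nat_lit 849996), .ofNat (nat_lit 696283), .ofNat (nat_lit 874997)⟩, ⟨.ofNat (nat_lit 306334), .ofNat (nat_lit 374750), .ofNat (nat_lit 351885), .ofNat (nat_lit 420300), .ofNat (nat_lit 299996), .ofNat (nat_lit 359993), .ofNat (nat_lit 349998), .ofNat (nat_lit 409994)⟩⟩, [⟨nat_lit 16, nat_lit 32, nat_lit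 100, nat_lit 88, nat_lit 913339275⟩, ⟨nat_lit 19, nat_lit 93, nat_lit 100, nat_lit 97, nat_lit 88012873⟩]⟩
noncomputable def b_V_900_700_20_61 : St := ⟨true, nat_lit 1, nat_lit 2, nat_lit 2, nat_lit 120, nat_lit 360, nat_lit 400, nat_lit 280, nat_lit 320, nat_lit 152, nat_lit 392, nat_lit 80, nat_lit 120, nat_lit 8, nat_lit 248, nat_lit 0, nat_lit 336, nat_lit 120, nat_lit 160, nat_lit 0, nat_lit 0, nat_lit 0, nat_lit 0⟩
theorem d_V_900_700_20_61 (h : EB TB.env) : Dead b_V_900_700_20_61 := chkB_sound0 h (T :=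
(.st (nat_lit 1)
(.spl (nat_lit 5) (nat_lit 160)
(.spl (nat_lit 2) (nat_lit 240)
(.leaf p126_l103)
(.spl (nat_lit 0) (nat_lit 380)
(.leaf p126_l104)
(.trX (nat_lit 13) (nat_lit 54) (nat_lit 57) (nat_lit 100) (nat_lit 380) (.trZ (nat_lit 3) (nat_lit 100) (nat_lit 54) (nat_lit 57) (nat_lit 20) (.trX (nat_lit 16) (nat_lit 44) (nat_lit 100) (nat_lit 92) (nat_lit 208) (.leaf p126_l105))))))
(.spl (nat_lit 0) (nat_lit 380)
(.leaf p126_l106)
(.trZ (nat_lit 0) (nat_lit 92) (nat_lit 44) (nat_lit 100) (nat_lit 192) (.trX (nat_lit 13) (nat_lit 54) (nat_lit 57) (nat_lit 100) (nat_lit 380) (.trZ (nat_lit 3) (nat_lit 100) (nat_lit 54) (nat_lit 57) (nat_lit 20) (.trX (nat_lit 16) (nat_lit 44) (nat_lit 100) (nat_lit 92) (nat_lit 208) (.leaf p126_l107)))))))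
(.spl (nat_lit 2) (nat_lit 240)
(.spl (nat_lit 0) (nat_lit 380)
(.leaf p126_l108)
(.trZ (nat_lit 0) (nat_lit 92) (nat_lit 44) (nat_lit 100) (nat_lit 192) (.trZ (nat_lit 3) (nat_lit 100) (nat_lit 54) (nat_lit 57) (nat_lit 20) (.trX (nat_lit 16) (nat_lit 44) (nat_lit 100) (nat_lit 92) (nat_lit 208) (.leaf p126_l109)))))
(.spl (nat_lit 4) (nat_lit 160)
(.spl (nat_lit 0) (nat_lit 380)
(.spl (nat_lit 1) (nat_lit 300)
(.trX (nat_lit 13) (nat_lit 69) (nat_lit 45) (nat_lit 100) (nat_lit 384) (.leaf p126_l110))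
(.trX (nat_lit 19) (nat_lit 94) (nat_lit 88) (nat_lit 100) (nat_lit 320) (.leaf p126_l111)))
(.trX (nat_lit 13) (nat_lit 54) (nat_lit 57) (nat_lit 100) (nat_lit 380) (.trZ (nat_lit 3) (nat_lit 100) (nat_lit 54) (nat_lit 57) (nat_lit 20) (.leaf p126_l112))))
(.spl (nat_lit 1) (nat_lit 300)
(.trX (nat_lit 13) (nat_lit 69) (nat_lit 45) (nat_lit 100) (nat_lit 384) (.spl (nat_lit 0) (nat_lit 380)
(.spl (nat_lit 6) (nat_lit 144)
(.leaf p126_l113)
(.leaf p126_l114))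
(.trX (nat_lit 13) (nat_lit 50) (nat_lit 65) (nat_lit 100) (nat_lit 368) (.trX (nat_lit 16) (nat_lit 44) (nat_lit 100) (nat_lit 92) (nat_lit 208) (.leaf p126_l115)))))
(.trX (nat_lit 19) (nat_lit 94) (nat_lit 88) (nat_lit 100) (nat_lit 320) (.spl (nat_lit 0) (nat_lit 380)
(.leaf p126_l116)
(.trX (nat_lit 13) (nat_lit 54) (nat_lit 57) (nat_lit 100) (nat_lit 380) (.trX (nat_lit 16) (nat_lit 44) (nat_lit 100) (nat_lit 92) (nat_lit 208) (.leaf p126_l117)))))))))) (by decide +kernel)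
noncomputable def p126_l118 : Lf2 := ⟨nat_lit 1, nat_lit 30, [nat_lit 15, nat_lit 5, nat_lit 5, nat_lit 20], false, nat_lit 8, nat_lit 248, nat_lit 0, nat_lit 336, zbN0,
 nat_lit 0, nat_lit 0, nat_lit 0, nat_lit 0, nat_lit 0, nat_lit 0, nat_lit 0, nat_lit 0, nat_lit 0, nat_lit 0, nat_lit 0, nat_lit 0, nat_lit 0, nat_lit 0, nat_lit 0, nat_lit 0, nat_lit 0, nat_lit 0, [],
 C1.Rw.none, C1.Rw.none,
 zbF0, []⟩
noncomputable def p126_l119 : Lf2 := ⟨nat_lit 0, nat_lit 30, [nat_lit 15, nat_lit 5, nat_lit 5, nat_lit 20], false, nat_lit 20, nat_lit 208, nat_lit 0, nat_lit 336, ⟨nat_lit 1000, nat_lit 0, nat_lit 0, nat_lit 0, nat_lit 0, nat_lit 0, nat_lit 0, nat_lit 0, nat_lit 0, nat_lit 0, nat_lit 0, nat_lit 0, nat_lit 0, nat_lit 0, nat_lit 0, nat_lit 0, false, false⟩,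
 nat_lit 0, nat_lit 0, nat_lit 0, nat_lit 13888, nat_lit 5824, nat_lit 11503, nat_lit 123, nat_lit 0, nat_lit 0, nat_lit 0, nat_lit 0, nat_lit 0, nat_lit 0, nat_lit 0, nat_lit 0, nat_lit 0, nat_lit 0, nat_lit 0, [],
 ⟨p126_k0, nat_lit 0, nat_lit 0, nat_lit 189, nat_lit 0, nat_lit 0, [nat_lit 938000000, nat_lit 4688000000, nat_lit 7968000000], [], [nat_lit 31161716577, nat_lit 33042937058, nat_lit 39201961016, nat_lit 40395996356, nat_lit 28976616411, nat_lit 30234179642, nat_lit 35124406025, nat_lit 36086146326], nat_lit 0, nat_lit 0, nat_lit 0, nat_lit 0, nat_lit 0, nat_lit 0, [], [nat_lit 57, nat_lit 40, nat_lit 40, nat_lit 80, nat_lit 7, nat_lit 373, nat_lit 150, nat_lit 11]⟩, ⟨p126_k1, nat_lit 0, nat_lit 0, nat_lit 273, nat_lit 0, nat_lit 0, [nat_lit 3282000000, nat_lit 7968000000, nat_lit 14058000000], [], [nat_lit 43911226025, nat_lit 47226213699, nat_lit 54531431704, nat_lit 56141534356, nat_lit 38368675179,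 nat_lit 39934172046, nat_lit 42741396498, nat_lit 43338190549], nat_lit 0, nat_lit 0, nat_lit 0, nat_lit 0, nat_lit 0, nat_lit 0, [], [nat_lit 84, nat_lit 40, nat_lit 40, nat_lit 80, nat_lit 28, nat_lit 538, nat_lit 300, nat_lit 12]⟩,
 zbF0, [⟨nat_lit 0, nat_lit 88, nat_lit 32, nat_lit 100, nat_lit 393270828⟩, ⟨nat_lit 16, nat_lit 32, nat_lit 100, nat_lit 88, nat_lit 313782884⟩]⟩
noncomputable def p126_l120 : Lf2 := ⟨nat_lit 1, nat_lit 25, [nat_lit 44, nat_lit 5, nat_lit 5, nat_lit 20], false, nat_lit 8, nat_lit 224, nat_lit 0, nat_lit 320, zbN0,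
 nat_lit 0, nat_lit 0, nat_lit 0, nat_lit 0, nat_lit 0, nat_lit 0, nat_lit 0, nat_lit 0, nat_lit 0, nat_lit 0, nat_lit 0, nat_lit 0, nat_lit 0, nat_lit 0, nat_lit 0, nat_lit 0, nat_lit 0, nat_lit 0, [],
 C1.Rw.none, C1.Rw.none,
 zbF0, []⟩
noncomputable def p126_l121 : Lf2 := ⟨nat_lit 1, nat_lit 30, [nat_lit 15, nat_lit 5, nat_lit 5, nat_lit 20], false, nat_lit 16, nat_lit 248, nat_lit 0, nat_lit 336, zbN0,
 nat_lit 0, nat_lit 0, nat_lit 0, nat_lit 0, nat_lit 0, nat_lit 0, nat_lit 0, nat_lit 0, nat_lit 0, nat_lit 0, nat_lit 0, nat_lit 0, nat_lit 0, nat_lit 0, nat_lit 0, nat_lit 0, nat_lit 0, nat_lit 0, [],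
 C1.Rw.none, C1.Rw.none,
 zbF0, []⟩
noncomputable def p126_l122 : Lf2 := ⟨nat_lit 1, nat_lit 30, [nat_lit 15, nat_lit 5, nat_lit 5, nat_lit 20], false, nat_lit 8, nat_lit 248, nat_lit 0, nat_lit 336, zbN0,
 nat_lit 0, nat_lit 0, nat_lit 0, nat_lit 0, nat_lit 0, nat_lit 0, nat_lit 0, nat_lit 0, nat_lit 0, nat_lit 0, nat_lit 0, nat_lit 0, nat_lit 0, nat_lit 0, nat_lit 0, nat_lit 0, nat_lit 0, nat_lit 0, [],
 C1.Rw.none, C1.Rw.none,
 zbF0, []⟩
noncomputable def p126_l123 : Lf2 := ⟨nat_lit 0, nat_lit 30, [nat_lit 15, nat_lit 5, nat_lit 5, nat_lit 20], false, nat_lit 20, nat_lit 208, nat_lit 0, nat_lit 336, ⟨nat_lit 815, nat_lit 185, nat_lit 0, nat_lit 7, nat_lit 293, nat_lit 185, nat_lit 88, nat_lit 0, nat_lit 0, nat_lit 0, nat_lit 0, nat_lit 0, nat_lit 0, nat_lit 0, nat_lit 0, nat_lit 5000000, true, false⟩,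
 nat_lit 0, nat_lit 0, nat_lit 0, nat_lit 10689, nat_lit 4948, nat_lit 9331, nat_lit 128, nat_lit 0, nat_lit 0, nat_lit 0, nat_lit 0, nat_lit 0, nat_lit 0, nat_lit 0, nat_lit 0, nat_lit 74000, nat_lit 0, nat_lit 0, [(nat_lit 29, [(nat_lit 1, nat_lit 185)])],
 ⟨p126_k0, nat_lit 0, nat_lit 0, nat_lit 189, nat_lit 0, nat_lit 0, [nat_lit 893674001, nat_lit 3857276001, nat_lit 6504058000], [], [nat_lit 29153039583, nat_lit 30858349716, nat_lit 36757142982, nat_lit 37856302370, nat_lit 27955271089, nat_lit 29108376277, nat_lit 33761547329, nat_lit 34657443791], nat_lit 0, nat_lit 0, nat_lit 0, nat_lit 0, nat_lit 0, nat_lit 0, [], [nat_lit 57, nat_lit 40, nat_lit 40, nat_lit 80, nat_lit 7, nat_lit 373, nat_lit 150, nat_lit 11]⟩, ⟨p126_k1, nat_lit 0, nat_lit 0, nat_lit 273, nat_lit 0, nat_lit 0, [nat_lit 2674830000, nat_lit 6493920000, nat_lit 11457270000], [], [nat_lit 35757924460, nat_lit 38451552445, nat_lit 44392379348,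 nat_lit 45702289022, nat_lit 31288648581, nat_lit 32562201390, nat_lit 34851624283, nat_lit 35338907173], nat_lit 0, nat_lit 0, nat_lit 0, nat_lit 0, nat_lit 0, nat_lit 0, [], [nat_lit 84, nat_lit 40, nat_lit 40, nat_lit 80, nat_lit 28, nat_lit 538, nat_lit 300, nat_lit 12]⟩,
 ⟨nat_lit 0, nat_lit 2237, ⟨.ofNat (nat_lit 575619), .ofNat (nat_lit 847661), .ofNat (nat_lit 619314), .ofNat (nat_lit 893212), .ofNat (nat_lit 585925), .ofNat (nat_lit 824994), .ofNat (nat_lit 634072), .ofNat (nat_lit 874997)⟩, ⟨.ofNat (nat_lit 50000), .ofNat (nat_lit 374750), .ofNat (nat_lit 50000), .ofNat (nat_lit 420300), .ofNat (nat_lit 50000), .ofNat (nat_lit 359993), .ofNat (nat_lit 50000), .ofNat (nat_lit 409994)⟩⟩, [⟨nat_lit 0, nat_lit 88, nat_lit 32, nat_lit 100, nat_lit 293119318⟩, ⟨nat_lit 16, nat_lit 32, nat_lit 100, nat_lit 88, nat_lit 211562140⟩]⟩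
noncomputable def p126_l124 : Lf2 := ⟨nat_lit 1, nat_lit 25, [nat_lit 44, nat_lit 5, nat_lit 5, nat_lit 20], false, nat_lit 8, nat_lit 224, nat_lit 0, nat_lit 320, zbN0,
 nat_lit 0, nat_lit 0, nat_lit 0, nat_lit 0, nat_lit 0, nat_lit 0, nat_lit 0, nat_lit 0, nat_lit 0, nat_lit 0, nat_lit 0, nat_lit 0, nat_lit 0, nat_lit 0, nat_lit 0, nat_lit 0, nat_lit 0, nat_lit 0, [],
 C1.Rw.none, C1.Rw.none,
 zbF0, []⟩
noncomputable def p126_l125 : Lf2 := ⟨nat_lit 1, nat_lit 30, [nat_lit 15, nat_lit 5, nat_lit 5, nat_lit 20], false, nat_lit 16, nat_lit 248, nat_lit 0, nat_lit 336, zbN0,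
 nat_lit 0, nat_lit 0, nat_lit 0, nat_lit 0, nat_lit 0, nat_lit 0, nat_lit 0, nat_lit 0, nat_lit 0, nat_lit 0, nat_lit 0, nat_lit 0, nat_lit 0, nat_lit 0, nat_lit 0, nat_lit 0, nat_lit 0, nat_lit 0, [],
 C1.Rw.none, C1.Rw.none,
 zbF0, []⟩
noncomputable def p126_l126 : Lf2 := ⟨nat_lit 1, nat_lit 30, [nat_lit 15, nat_lit 5, nat_lit 5, nat_lit 20], false, nat_lit 8, nat_lit 248, nat_lit 0, nat_lit 336, zbN0,
 nat_lit 0, nat_lit 0, nat_lit 0, nat_lit 0, nat_lit 0, nat_lit 0, nat_lit 0, nat_lit 0, nat_lit 0, nat_lit 0, nat_lit 0, nat_lit 0, nat_lit 0, nat_lit 0, nat_lit 0, nat_lit 0, nat_lit 0, nat_lit 0, [],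
 C1.Rw.none, C1.Rw.none,
 zbF0, []⟩
noncomputable def p126_l127 : Lf2 := ⟨nat_lit 0, nat_lit 30, [nat_lit 15, nat_lit 5, nat_lit 5, nat_lit 20], false, nat_lit 20, nat_lit 208, nat_lit 0, nat_lit 336, ⟨nat_lit 1000, nat_lit 0, nat_lit 0, nat_lit 0, nat_lit 0, nat_lit 0, nat_lit 0, nat_lit 0, nat_lit 0, nat_lit 0, nat_lit 0, nat_lit 0, nat_lit 0, nat_lit 0, nat_lit 0, nat_lit 0, false, false⟩,
 nat_lit 0, nat_lit 5799, nat_lit 0, nat_lit 6960, nat_lit 5418, nat_lit 11456, nat_lit 170, nat_lit 0, nat_lit 0, nat_lit 0, nat_lit 0, nat_lit 0, nat_lit 0, nat_lit 0, nat_lit 0, nat_lit 0, nat_lit 0, nat_lit 0, [],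
 ⟨p126_k0, nat_lit 0, nat_lit 0, nat_lit 216, nat_lit 0, nat_lit 67814, [nat_lit 938000000, nat_lit 4688000000, nat_lit 7968000000], [], [nat_lit 30236494950, nat_lit 32036186206, nat_lit 38074600962, nat_lit 39222860545, nat_lit 28597847448, nat_lit 29806281864, nat_lit 34498502011, nat_lit 35429725647], nat_lit 1271250, nat_lit 1271250, nat_lit 1271250, nat_lit 1271250, nat_lit 111251, nat_lit 1474250, [nat_lit 230000, nat_lit 1100000, nat_lit 1785000], [nat_lit 57, nat_lit 40, nat_lit 40, nat_lit 80, nat_lit 7, nat_lit 373, nat_lit 150, nat_lit 11]⟩, ⟨p126_k1, nat_lit 0, nat_lit 0, nat_lit 273, nat_lit 0, nat_lit 0, [nat_lit 3282000000, nat_lit 7968000000, nat_lit 14058000000], [], [nat_lit 43879434848, nat_lit 47185773357, nat_lit 54477167008, nat_lit 56084784112, nat_lit 38388117222, nat_lit 39951125172, nat_lit 42759991297, nat_lit 43357743357], nat_lit 0, nat_lit 0, nat_lit 0, nat_lit 0, nat_lit 0, nat_lit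 0, [], [nat_lit 84, nat_lit 40, nat_lit 40, nat_lit 80, nat_lit 28, nat_lit 538, nat_lit 300, nat_lit 12]⟩,
 zbF0, [⟨nat_lit 0, nat_lit 88, nat_lit 32, nat_lit 100, nat_lit 427563608⟩, ⟨nat_lit 16, nat_lit 32, nat_lit 100, nat_lit 88, nat_lit 356207395⟩]⟩
noncomputable def p126_l128 : Lf2 := ⟨nat_lit 1, nat_lit 25, [nat_lit 44, nat_lit 5, nat_lit 5, nat_lit 20], false, nat_lit 8, nat_lit 224, nat_lit 0, nat_lit 320, zbN0,
 nat_lit 0, nat_lit 0, nat_lit 0, nat_lit 0, nat_lit 0, nat_lit 0, nat_lit 0, nat_lit 0, nat_lit 0, nat_lit 0, nat_lit 0, nat_lit 0, nat_lit 0, nat_lit 0, nat_lit 0, nat_lit 0, nat_lit 0, nat_lit 0, [],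
 C1.Rw.none, C1.Rw.none,
 zbF0, []⟩
noncomputable def p126_l129 : Lf2 := ⟨nat_lit 1, nat_lit 30, [nat_lit 15, nat_lit 5, nat_lit 5, nat_lit 20], false, nat_lit 16, nat_lit 248, nat_lit 0, nat_lit 336, zbN0,
 nat_lit 0, nat_lit 0, nat_lit 0, nat_lit 0, nat_lit 0, nat_lit 0, nat_lit 0, nat_lit 0, nat_lit 0, nat_lit 0, nat_lit 0, nat_lit 0, nat_lit 0, nat_lit 0, nat_lit 0, nat_lit 0, nat_lit 0, nat_lit 0, [],
 C1.Rw.none, C1.Rw.none,
 zbF0, []⟩
noncomputable def p126_l130 : Lf2 := ⟨nat_lit 1, nat_lit 30, [nat_lit 15, nat_lit 5, nat_lit 5, nat_lit 20], false, nat_lit 8, nat_lit 248, nat_lit 0, nat_lit 336, zbN0,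
 nat_lit 0, nat_lit 0, nat_lit 0, nat_lit 0, nat_lit 0, nat_lit 0, nat_lit 0, nat_lit 0, nat_lit 0, nat_lit 0, nat_lit 0, nat_lit 0, nat_lit 0, nat_lit 0, nat_lit 0, nat_lit 0, nat_lit 0, nat_lit 0, [],
 C1.Rw.none, C1.Rw.none,
 zbF0, []⟩
noncomputable def p126_l131 : Lf2 := ⟨nat_lit 0, nat_lit 30, [nat_lit 15, nat_lit 5, nat_lit 5, nat_lit 20], false, nat_lit 20, nat_lit 208, nat_lit 0, nat_lit 336, ⟨nat_lit 752, nat_lit 248, nat_lit 0, nat_lit 7, nat_lit 293, nat_lit 248, nat_lit 88, nat_lit 0, nat_lit 0, nat_lit 0, nat_lit 0, nat_lit 0, nat_lit 0, nat_lit 0, nat_lit 0, nat_lit 5000000, true, false⟩,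
 nat_lit 0, nat_lit 3843, nat_lit 0, nat_lit 8270, nat_lit 3591, nat_lit 8616, nat_lit 255, nat_lit 0, nat_lit 0, nat_lit 0, nat_lit 0, nat_lit 0, nat_lit 0, nat_lit 0, nat_lit 0, nat_lit 99200, nat_lit 0, nat_lit 0, [(nat_lit 29, [(nat_lit 1, nat_lit 248)])],
 ⟨p126_k0, nat_lit 0, nat_lit 0, nat_lit 216, nat_lit 0, nat_lit 67814, [nat_lit 878579200, nat_lit 3574380800, nat_lit 6005526400], [], [nat_lit 26443734463, nat_lit 27671342655, nat_lit 32943622744, nat_lit 33907581654, nat_lit 26560367753, nat_lit 27553724513, nat_lit 31624075975, nat_lit 32417974617], nat_lit 1271250, nat_lit 1271250, nat_lit 1271250, nat_lit 1271250, nat_lit 111251, nat_lit 1474250, [nat_lit 230000, nat_lit 1100000, nat_lit 1785000], [nat_lit 57, nat_lit 40, nat_lit 40, nat_lit 80, nat_lit 7, nat_lit 373, nat_lit 150, nat_lit 11]⟩, ⟨p126_k1, nat_lit 0, nat_lit 0, nat_lit 273, nat_lit 0, nat_lit 0, [nat_lit 2468064000, nat_lit 5991936000,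 nat_lit 10571616000], [], [nat_lit 32998070938, nat_lit 35484637716, nat_lit 40968085760, nat_lit 42177071360, nat_lit 28867414088, nat_lit 30042853682, nat_lit 32155083005, nat_lit 32604570378], nat_lit 0, nat_lit 0, nat_lit 0, nat_lit 0, nat_lit 0, nat_lit 0, [], [nat_lit 84, nat_lit 40, nat_lit 40, nat_lit 80, nat_lit 28, nat_lit 538, nat_lit 300, nat_lit 12]⟩,
 ⟨nat_lit 0, nat_lit 2237, ⟨.ofNat (nat_lit 575619), .ofNat (nat_lit 847661), .ofNat (nat_lit 619314), .ofNat (nat_lit 893212), .ofNat (nat_lit 585925), .ofNat (nat_lit 824994), .ofNat (nat_lit 634072), .ofNat (nat_lit 874997)⟩, ⟨.ofNat (nat_lit 50000), .ofNat (nat_lit 374750), .ofNat (nat_lit 50000), .ofNat (nat_lit 420300), .ofNat (nat_lit 50000), .ofNat (nat_lit 359993), .ofNat (nat_lit 50000), .ofNat (nat_lit 409994)⟩⟩, [⟨nat_lit 0, nat_lit 88, nat_lit 32, nat_lit 100, nat_lit 265141173⟩, ⟨nat_lit 16, nat_lit 32, nat_lit 100, nat_lit 88, nat_lit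 351701489⟩]⟩
noncomputable def p126_l132 : Lf2 := ⟨nat_lit 1, nat_lit 30, [nat_lit 15, nat_lit 5, nat_lit 5, nat_lit 20], false, nat_lit 8, nat_lit 248, nat_lit 0, nat_lit 336, zbN0,
 nat_lit 0, nat_lit 0, nat_lit 0, nat_lit 0, nat_lit 0, nat_lit 0, nat_lit 0, nat_lit 0, nat_lit 0, nat_lit 0, nat_lit 0, nat_lit 0, nat_lit 0, nat_lit 0, nat_lit 0, nat_lit 0, nat_lit 0, nat_lit 0, [],
 C1.Rw.none, C1.Rw.none,
 zbF0, []⟩
noncomputable def p126_l133 : Lf2 := ⟨nat_lit 0, nat_lit 30, [nat_lit 15, nat_lit 5, nat_lit 5, nat_lit 20], false, nat_lit 20, nat_lit 208, nat_lit 0, nat_lit 336, ⟨nat_lit 585, nat_lit 415, nat_lit 0, nat_lit 7, nat_lit 293, nat_lit 415, nat_lit 88, nat_lit 0, nat_lit 0, nat_lit 0, nat_lit 0, nat_lit 0, nat_lit 0, nat_lit 0, nat_lit 0, nat_lit 5000000, true, false⟩,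
 nat_lit 7921, nat_lit 0, nat_lit 0, nat_lit 3368, nat_lit 3429, nat_lit 5040, nat_lit 186, nat_lit 0, nat_lit 0, nat_lit 0, nat_lit 0, nat_lit 0, nat_lit 0, nat_lit 0, nat_lit 0, nat_lit 166000, nat_lit 0, nat_lit 0, [(nat_lit 29, [(nat_lit 1, nat_lit 415)])],
 ⟨p126_k0, nat_lit 0, nat_lit 0, nat_lit 200, nat_lit 0, nat_lit 43642, [nat_lit 838566000, nat_lit 2824484000, nat_lit 4684022000], [], [nat_lit 25973229947, nat_lit 27174543239, nat_lit 32493526586, nat_lit 33436859226, nat_lit 26307725664, nat_lit 27215568255, nat_lit 31374068188, nat_lit 32155790230], nat_lit 1271250, nat_lit 1271250, nat_lit 1271250, nat_lit 1271250, nat_lit 111251, nat_lit 1474250, [nat_lit 230000, nat_lit 1100000, nat_lit 1785000], [nat_lit 57, nat_lit 40, nat_lit 40, nat_lit 80, nat_lit 7, nat_lit 373, nat_lit 150, nat_lit 11]⟩, ⟨p126_k1, nat_lit 0, nat_lit 0, nat_lit 295, nat_lit 0, nat_lit 72208, [nat_lit 1919970000, nat_lit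 4661280000, nat_lit 8223930000], [], [nat_lit 25485476076, nat_lit 26629697052, nat_lit 29950527780, nat_lit 30803103270, nat_lit 23416509831, nat_lit 23970813034, nat_lit 25672043664, nat_lit 26055600607], nat_lit 1271250, nat_lit 1271250, nat_lit 1271250, nat_lit 1271250, nat_lit 0, nat_lit 2373000, [nat_lit 780000, nat_lit 1762500, nat_lit 1271250], [nat_lit 84, nat_lit 40, nat_lit 40, nat_lit 80, nat_lit 28, nat_lit 538, nat_lit 300, nat_lit 12]⟩,
 ⟨nat_lit 0, nat_lit 2237, ⟨.ofNat (nat_lit 575619), .ofNat (nat_lit 847661), .ofNat (nat_lit 619314), .ofNat (nat_lit 893212), .ofNat (nat_lit 585925), .ofNat (nat_lit 824994), .ofNat (nat_lit 634072), .ofNat (nat_lit 874997)⟩, ⟨.ofNat (nat_lit 50000), .ofNat (nat_lit 374750), .ofNat (nat_lit 50000), .ofNat (nat_lit 420300), .ofNat (nat_lit 50000), .ofNat (nat_lit 359993), .ofNat (nat_lit 50000), .ofNat (nat_lit 409994)⟩⟩, [⟨nat_lit 4, nat_lit 100, nat_lit 32,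 nat_lit 88, nat_lit 312208738⟩, ⟨nat_lit 7, nat_lit 100, nat_lit 100, nat_lit 100, nat_lit 40206420⟩]⟩
noncomputable def b_V_900_700_20_62 : St := ⟨true, nat_lit 2, nat_lit 2, nat_lit 0, nat_lit 120, nat_lit 360, nat_lit 400, nat_lit 280, nat_lit 320, nat_lit 152, nat_lit 392, nat_lit 80, nat_lit 120, nat_lit 8, nat_lit 248, nat_lit 0, nat_lit 336, nat_lit 160, nat_lit 168, nat_lit 0, nat_lit 0, nat_lit 0, nat_lit 0⟩
theorem d_V_900_700_20_62 (h : EB TB.env) : Dead b_V_900_700_20_62 := chkB_sound0 h (T :=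
(.st (nat_lit 0)
(.gv
(.st (nat_lit 1)
(.spl (nat_lit 0) (nat_lit 380)
(.leaf p126_l118)
(.trZ (nat_lit 0) (nat_lit 92) (nat_lit 44) (nat_lit 100) (nat_lit 192) (.trX (nat_lit 13) (nat_lit 54) (nat_lit 57) (nat_lit 100) (nat_lit 380) (.trZ (nat_lit 3) (nat_lit 100) (nat_lit 54) (nat_lit 57) (nat_lit 20) (.trX (nat_lit 16) (nat_lit 44) (nat_lit 100) (nat_lit 92) (nat_lit 208) (.leaf p126_l119))))))
(.spl (nat_lit 3) (nat_lit 100)
(.trX (nat_lit 16) (nat_lit 60) (nat_lit 100) (nat_lit 87) (nat_lit 224) (.trX (nat_lit 19) (nat_lit 100) (nat_lit 88) (nat_lit 94) (nat_lit 320) (.leaf p126_l120)))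
(.trZ (nat_lit 3) (nat_lit 100) (nat_lit 69) (nat_lit 45) (nat_lit 16) (.leaf p126_l121))))
(.st (nat_lit 1)
(.spl (nat_lit 0) (nat_lit 380)
(.leaf p126_l122)
(.trZ (nat_lit 0) (nat_lit 92) (nat_lit 44) (nat_lit 100) (nat_lit 192) (.trX (nat_lit 13) (nat_lit 54) (nat_lit 57) (nat_lit 100) (nat_lit 380) (.trZ (nat_lit 3) (nat_lit 100) (nat_lit 54) (nat_lit 57) (nat_lit 20) (.trX (nat_lit 16) (nat_lit 44) (nat_lit 100) (nat_lit 92) (nat_lit 208) (.leaf p126_l123))))))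
(.spl (nat_lit 3) (nat_lit 100)
(.trX (nat_lit 16) (nat_lit 60) (nat_lit 100) (nat_lit 87) (nat_lit 224) (.trX (nat_lit 19) (nat_lit 100) (nat_lit 88) (nat_lit 94) (nat_lit 320) (.leaf p126_l124)))
(.trZ (nat_lit 3) (nat_lit 100) (nat_lit 69) (nat_lit 45) (nat_lit 16) (.leaf p126_l125)))))
(.gv
(.st (nat_lit 1)
(.spl (nat_lit 0) (nat_lit 380)
(.leaf p126_l126)
(.trZ (nat_lit 0) (nat_lit 92) (nat_lit 44) (nat_lit 100) (nat_lit 192) (.trX (nat_lit 13) (nat_lit 54) (nat_lit 57) (nat_lit 100) (nat_lit 380) (.trZ (nat_lit 3) (nat_lit 100) (nat_lit 54) (nat_lit 57) (nat_lit 20) (.trX (nat_lit 16) (nat_lit 44) (nat_lit 100) (nat_lit 92) (nat_lit 208) (.leaf p126_l127))))))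
(.spl (nat_lit 3) (nat_lit 100)
(.trX (nat_lit 16) (nat_lit 60) (nat_lit 100) (nat_lit 87) (nat_lit 224) (.trX (nat_lit 19) (nat_lit 100) (nat_lit 88) (nat_lit 94) (nat_lit 320) (.leaf p126_l128)))
(.trZ (nat_lit 3) (nat_lit 100) (nat_lit 69) (nat_lit 45) (nat_lit 16) (.leaf p126_l129))))
(.st (nat_lit 1)
(.spl (nat_lit 0) (nat_lit 380)
(.leaf p126_l130)
(.trZ (nat_lit 0) (nat_lit 92) (nat_lit 44) (nat_lit 100) (nat_lit 192) (.trX (nat_lit 13) (nat_lit 54) (nat_lit 57) (nat_lit 100) (nat_lit 380) (.trZ (nat_lit 3) (nat_lit 100) (nat_lit 54) (nat_lit 57) (nat_lit 20) (.trX (nat_lit 16) (nat_lit 44) (nat_lit 100) (nat_lit 92) (nat_lit 208) (.leaf p126_l131))))))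
(.spl (nat_lit 0) (nat_lit 380)
(.leaf p126_l132)
(.trZ (nat_lit 0) (nat_lit 92) (nat_lit 44) (nat_lit 100) (nat_lit 192) (.trX (nat_lit 13) (nat_lit 54) (nat_lit 57) (nat_lit 100) (nat_lit 380) (.trZ (nat_lit 3) (nat_lit 100) (nat_lit 54) (nat_lit 57) (nat_lit 20) (.trX (nat_lit 16) (nat_lit 44) (nat_lit 100) (nat_lit 92) (nat_lit 208) (.leaf p126_l133)))))))))) (by decide +kernel)
noncomputable def p126_l134 : Lf2 := ⟨nat_lit 0, nat_lit 10, [nat_lit 0, nat_lit 5, nat_lit 5, nat_lit 20], false, nat_lit 0, nat_lit 200, nat_lit 0, nat_lit 260, ⟨nat_lit 1000, nat_lit 0, nat_lit 0, nat_lit 0, nat_lit 0, nat_lit 0, nat_lit 0, nat_lit 0, nat_lit 0, nat_lit 0, nat_lit 0, nat_lit 0, nat_lit 0, nat_lit 0, nat_lit 0, nat_lit 0, false, false⟩,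
 nat_lit 0, nat_lit 0, nat_lit 0, nat_lit 0, nat_lit 5277, nat_lit 7487, nat_lit 0, nat_lit 0, nat_lit 0, nat_lit 0, nat_lit 0, nat_lit 0, nat_lit 0, nat_lit 0, nat_lit 0, nat_lit 0, nat_lit 0, nat_lit 0, [],
 ⟨p126_k32, nat_lit 0, nat_lit 0, nat_lit 173, nat_lit 0, nat_lit 0, [nat_lit 938000000, nat_lit 4688000000], [], [nat_lit 27913093196, nat_lit 31387046448, nat_lit 38579898884, nat_lit 41383936052, nat_lit 26393344130, nat_lit 29129855284, nat_lit 34036162702, nat_lit 35769892126], nat_lit 0, nat_lit 0, nat_lit 0, nat_lit 0, nat_lit 0, nat_lit 0, [], [nat_lit 86, nat_lit 40, nat_lit 40, nat_lit 80, nat_lit 87, nat_lit 260, nat_lit 50, nat_lit 11]⟩, ⟨p126_k33, nat_lit 0, nat_lit 0, nat_lit 180, nat_lit 0, nat_lit 0, [nat_lit 2032000000, nat_lit 6250000000], [], [nat_lit 27573508308, nat_lit 29328003284, nat_lit 42220727172, nat_lit 43753205688, nat_lit 25829938498, nat_lit 27017312185, nat_lit 34669841210,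 nat_lit 35754095031], nat_lit 0, nat_lit 0, nat_lit 0, nat_lit 0, nat_lit 0, nat_lit 0, [], [nat_lit 69, nat_lit 40, nat_lit 40, nat_lit 80, nat_lit 64, nat_lit 289, nat_lit 75, nat_lit 10]⟩,
 zbF0, [⟨nat_lit 16, nat_lit 46, nat_lit 100, nat_lit 75, nat_lit 49842412⟩, ⟨nat_lit 19, nat_lit 83, nat_lit 100, nat_lit 83, nat_lit 24720378⟩]⟩
noncomputable def p126_l135 : Lf2 := ⟨nat_lit 0, nat_lit 10, [nat_lit 0, nat_lit 5, nat_lit 5, nat_lit 20], true, nat_lit 0, nat_lit 80, nat_lit 0, nat_lit 260, ⟨nat_lit 0, nat_lit 1000, nat_lit 0, nat_lit 8, nat_lit 293, nat_lit 1000, nat_lit 34, nat_lit 0, nat_lit 0, nat_lit 0, nat_lit 0, nat_lit 0, nat_lit 43634506, nat_lit 23365494, nat_lit 0, nat_lit 3233311, true, false⟩,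
 nat_lit 0, nat_lit 0, nat_lit 0, nat_lit 0, nat_lit 2631, nat_lit 0, nat_lit 0, nat_lit 0, nat_lit 0, nat_lit 0, nat_lit 0, nat_lit 0, nat_lit 0, nat_lit 0, nat_lit 0, nat_lit 400000, nat_lit 0, nat_lit 0, [(nat_lit 24, [(nat_lit 1, nat_lit 1000)]), (nat_lit 27, [(nat_lit 1, nat_lit 1000)])],
 ⟨p126_k34, nat_lit 0, nat_lit 0, nat_lit 155, nat_lit 0, nat_lit 0, [nat_lit 848000000, nat_lit 997333334, nat_lit 954400000], [], [nat_lit 21990409030, nat_lit 24430931914, nat_lit 26210045346, nat_lit 28634824036, nat_lit 21544063302, nat_lit 23838929726, nat_lit 25572601290, nat_lit 27431503826], nat_lit 0, nat_lit 0, nat_lit 0, nat_lit 0, nat_lit 0, nat_lit 0, [], [nat_lit 35, nat_lit 40, nat_lit 40, nat_lit 80, nat_lit 22, nat_lit 226, nat_lit 20, nat_lit 9]⟩, C1.Rw.none,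
 ⟨nat_lit 0, nat_lit 3163, ⟨.ofNat (nat_lit 625100), .ofNat (nat_lit 815384), .ofNat (nat_lit 645949), .ofNat (nat_lit 836507), .ofNat (nat_lit 642170), .ofNat (nat_lit 799594), .ofNat (nat_lit 665865), .ofNat (nat_lit 823562)⟩, ⟨.ofNat (nat_lit 0), .ofNat (nat_lit 139898), .ofNat (nat_lit 0), .ofNat (nat_lit 184209), .ofNat (nat_lit 0), .ofNat (nat_lit 149998), .ofNat (nat_lit 0), .ofNat (nat_lit 199999)⟩⟩, [⟨nat_lit 3, nat_lit 100, nat_lit 61, nat_lit 47, nat_lit 44460292⟩]⟩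
noncomputable def p126_l136 : Lf2 := ⟨nat_lit 0, nat_lit 10, [nat_lit 0, nat_lit 5, nat_lit 5, nat_lit 20], true, nat_lit 80, nat_lit 200, nat_lit 0, nat_lit 260, ⟨nat_lit 0, nat_lit 1000, nat_lit 0, nat_lit 8, nat_lit 293, nat_lit 1000, nat_lit 101, nat_lit 0, nat_lit 0, nat_lit 0, nat_lit 0, nat_lit 0, nat_lit 40596714, nat_lit 22275513, nat_lit 4127773, nat_lit 4448521, true, false⟩,
 nat_lit 0, nat_lit 0, nat_lit 0, nat_lit 0, nat_lit 3497, nat_lit 0, nat_lit 0, nat_lit 0, nat_lit 0, nat_lit 0, nat_lit 0, nat_lit 0, nat_lit 0, nat_lit 0, nat_lit 0, nat_lit 250000, nat_lit 0, nat_lit 0, [(nat_lit 24, [(nat_lit 0, nat_lit 1000)]), (nat_lit 27, [(nat_lit 0, nat_lit 1000)])],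
 ⟨p126_k34, nat_lit 0, nat_lit 0, nat_lit 102, nat_lit 0, nat_lit 0, [nat_lit 780800001, nat_lit 1367200000, nat_lit 1705600000], [], [nat_lit 20871138372, nat_lit 23752518736, nat_lit 25603104996, nat_lit 28379819452, nat_lit 22584964718, nat_lit 25025868450, nat_lit 26560155748, nat_lit 28935128180], nat_lit 0, nat_lit 0, nat_lit 0, nat_lit 0, nat_lit 0, nat_lit 0, [], [nat_lit 35, nat_lit 40, nat_lit 40, nat_lit 80, nat_lit 22, nat_lit 260, nat_lit 50, nat_lit 10]⟩, C1.Rw.none,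
 ⟨nat_lit 0, nat_lit 3163, ⟨.ofNat (nat_lit 625100), .ofNat (nat_lit 815384), .ofNat (nat_lit 645949), .ofNat (nat_lit 836507), .ofNat (nat_lit 642170), .ofNat (nat_lit 799594), .ofNat (nat_lit 665865), .ofNat (nat_lit 823562)⟩, ⟨.ofNat (nat_lit 139898), .ofNat (nat_lit 322753), .ofNat (nat_lit 184209), .ofNat (nat_lit 367065), .ofNat (nat_lit 149998), .ofNat (nat_lit 299993), .ofNat (nat_lit 199999), .ofNat (nat_lit 349995)⟩⟩, [⟨nat_lit 16, nat_lit 60, nat_lit 100, nat_lit 80, nat_lit 102566066⟩]⟩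
noncomputable def p126_l137 : Lf2 := ⟨nat_lit 0, nat_lit 5, [nat_lit 4, nat_lit 5, nat_lit 5, nat_lit 20], true, nat_lit 0, nat_lit 80, nat_lit 0, nat_lit 260, ⟨nat_lit 0, nat_lit 1000, nat_lit 0, nat_lit 8, nat_lit 336, nat_lit 1000, nat_lit 34, nat_lit 0, nat_lit 0, nat_lit 0, nat_lit 0, nat_lit 0, nat_lit 39235708, nat_lit 27764292, nat_lit 0, nat_lit 3392086, true, true⟩,
 nat_lit 0, nat_lit 0, nat_lit 0, nat_lit 0, nat_lit 2428, nat_lit 0, nat_lit 0, nat_lit 0, nat_lit 0, nat_lit 0, nat_lit 0, nat_lit 0, nat_lit 0, nat_lit 0, nat_lit 0, nat_lit 361600, nat_lit 0, nat_lit 0, [(nat_lit 24, [(nat_lit 0, nat_lit 256), (nat_lit 1, nat_lit 744)]), (nat_lit 27, [(nat_lit 0, nat_lit 256), (nat_lit 1, nat_lit 744)])],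
 ⟨p126_k35, nat_lit 0, nat_lit 0, nat_lit 140, nat_lit 0, nat_lit 0, [nat_lit 830796800, nat_lit 1085533867], [], [nat_lit 26428382038, nat_lit 28382095174, nat_lit 28127586742, nat_lit 29935200976, nat_lit 26017015270, nat_lit 27864644230, nat_lit 27629401158, nat_lit 29345065211], nat_lit 0, nat_lit 0, nat_lit 0, nat_lit 0, nat_lit 0, nat_lit 0, [], [nat_lit 66, nat_lit 40, nat_lit 40, nat_lit 80, nat_lit 67, nat_lit 226, nat_lit 20, nat_lit 11]⟩, C1.Rw.none,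
 ⟨nat_lit 0, nat_lit 3163, ⟨.ofNat (nat_lit 815384), .ofNat (nat_lit 876741), .ofNat (nat_lit 825991), .ofNat (nat_lit 887819), .ofNat (nat_lit 799594), .ofNat (nat_lit 849999), .ofNat (nat_lit 811624), .ofNat (nat_lit 862499)⟩, ⟨.ofNat (nat_lit 0), .ofNat (nat_lit 139898), .ofNat (nat_lit 0), .ofNat (nat_lit 184209), .ofNat (nat_lit 0), .ofNat (nat_lit 149998), .ofNat (nat_lit 0), .ofNat (nat_lit 199999)⟩⟩, [⟨nat_lit 3, nat_lit 100, nat_lit 61, nat_lit 47, nat_lit 30840853⟩]⟩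
noncomputable def p126_l138 : Lf2 := ⟨nat_lit 0, nat_lit 10, [nat_lit 0, nat_lit 5, nat_lit 5, nat_lit 20], false, nat_lit 0, nat_lit 80, nat_lit 0, nat_lit 260, ⟨nat_lit 137, nat_lit 863, nat_lit 0, nat_lit 8, nat_lit 339, nat_lit 863, nat_lit 33, nat_lit 0, nat_lit 0, nat_lit 0, nat_lit 0, nat_lit 0, nat_lit 39019842, nat_lit 27980158, nat_lit 0, nat_lit 3397550, true, true⟩,
 nat_lit 0, nat_lit 0, nat_lit 1281, nat_lit 0, nat_lit 2702, nat_lit 960, nat_lit 0, nat_lit 0, nat_lit 0, nat_lit 42, nat_lit 0, nat_lit 0, nat_lit 0, nat_lit 0, nat_lit 0, nat_lit 345200, nat_lit 0, nat_lit 0, [(nat_lit 24, [(nat_lit 1, nat_lit 863)])],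
 ⟨p126_k34, nat_lit 0, nat_lit 0, nat_lit 160, nat_lit 0, nat_lit 0, [nat_lit 860330000, nat_lit 1310332667, nat_lit 1465903200], [], [nat_lit 26981906771, nat_lit 27973873111, nat_lit 28695578643, nat_lit 29605631335, nat_lit 26295389219, nat_lit 27234044075, nat_lit 27922458539, nat_lit 28786158923], nat_lit 0, nat_lit 0, nat_lit 0, nat_lit 0, nat_lit 0, nat_lit 0, [], [nat_lit 35, nat_lit 40, nat_lit 40, nat_lit 80, nat_lit 22, nat_lit 226, nat_lit 20, nat_lit 9]⟩, ⟨p126_k36, nat_lit 0, nat_lit 0, nat_lit 772, nat_lit 0, nat_lit 1646173, [nat_lit 278384000, nat_lit 642256000, nat_lit 856250000], [], [nat_lit 5029268724, nat_lit 5051789548, nat_lit 5119352020, nat_lit 5139115738, nat_lit 4530711836, nat_lit 4544386026, nat_lit 4585408594, nat_lit 4597573716], nat_lit 1271250, nat_lit 1271250, nat_lit 1271250, nat_lit 1271250, nat_lit 0, nat_lit 1836250, [nat_lit 490000, nat_lit 1100000, nat_lit 1442500], [nat_lit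 6, nat_lit 40, nat_lit 40, nat_lit 80, nat_lit 3, nat_lit 312, nat_lit 75, nat_lit 11]⟩,
 ⟨nat_lit 2236, nat_lit 3163, ⟨.ofNat (nat_lit 815720), .ofNat (nat_lit 876741), .ofNat (nat_lit 826765), .ofNat (nat_lit 887808), .ofNat (nat_lit 807623), .ofNat (nat_lit 864706), .ofNat (nat_lit 818978), .ofNat (nat_lit 876082)⟩, ⟨.ofNat (nat_lit 0), .ofNat (nat_lit 139899), .ofNat (nat_lit 0), .ofNat (nat_lit 184209), .ofNat (nat_lit 0), .ofNat (nat_lit 146758), .ofNat (nat_lit 0), .ofNat (nat_lit 192306)⟩⟩, [⟨nat_lit 10, nat_lit 100, nat_lit 58, nat_lit 64, nat_lit 34866329⟩]⟩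
noncomputable def p126_l139 : Lf2 := ⟨nat_lit 0, nat_lit 10, [nat_lit 0, nat_lit 5, nat_lit 5, nat_lit 20], true, nat_lit 0, nat_lit 80, nat_lit 0, nat_lit 260, ⟨nat_lit 0, nat_lit 1000, nat_lit 0, nat_lit 8, nat_lit 335, nat_lit 1000, nat_lit 34, nat_lit 0, nat_lit 0, nat_lit 0, nat_lit 0, nat_lit 0, nat_lit 39420990, nat_lit 27579010, nat_lit 0, nat_lit 3387225, true, true⟩,
 nat_lit 0, nat_lit 0, nat_lit 0, nat_lit 0, nat_lit 2120, nat_lit 0, nat_lit 0, nat_lit 0, nat_lit 0, nat_lit 0, nat_lit 0, nat_lit 0, nat_lit 0, nat_lit 0, nat_lit 0, nat_lit 385600, nat_lit 0, nat_lit 0, [(nat_lit 27, [(nat_lit 0, nat_lit 96), (nat_lit 1, nat_lit 904)])],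
 ⟨p126_k37, nat_lit 0, nat_lit 0, nat_lit 140, nat_lit 0, nat_lit 0, [nat_lit 705587200, nat_lit 393366400], [], [nat_lit 26328295360, nat_lit 27345445760, nat_lit 28038581680, nat_lit 29001747360, nat_lit 26086742800, nat_lit 27011638880, nat_lit 27639745760, nat_lit 28554056640], nat_lit 0, nat_lit 0, nat_lit 0, nat_lit 0, nat_lit 0, nat_lit 0, [], [nat_lit 66, nat_lit 40, nat_lit 40, nat_lit 80, nat_lit 67, nat_lit 226, nat_lit 20, nat_lit 11]⟩, C1.Rw.none,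
 ⟨nat_lit 0, nat_lit 2237, ⟨.ofNat (nat_lit 807594), .ofNat (nat_lit 864705), .ofNat (nat_lit 818584), .ofNat (nat_lit 876093), .ofNat (nat_lit 799902), .ofNat (nat_lit 849998), .ofNat (nat_lit 812004), .ofNat (nat_lit 862498)⟩, ⟨.ofNat (nat_lit 0), .ofNat (nat_lit 146756), .ofNat (nat_lit 0), .ofNat (nat_lit 192306), .ofNat (nat_lit 0), .ofNat (nat_lit 149997), .ofNat (nat_lit 0), .ofNat (nat_lit 199999)⟩⟩, [⟨nat_lit 3, nat_lit 100, nat_lit 44, nat_lit 64, nat_lit 48080161⟩]⟩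
noncomputable def p126_l140 : Lf2 := ⟨nat_lit 0, nat_lit 10, [nat_lit 0, nat_lit 5, nat_lit 5, nat_lit 20], false, nat_lit 0, nat_lit 80, nat_lit 0, nat_lit 244, ⟨nat_lit 362, nat_lit 638, nat_lit 0, nat_lit 8, nat_lit 343, nat_lit 638, nat_lit 33, nat_lit 0, nat_lit 0, nat_lit 0, nat_lit 0, nat_lit 0, nat_lit 38590410, nat_lit 28409590, nat_lit 0, nat_lit 3407787, true, true⟩,
 nat_lit 0, nat_lit 0, nat_lit 2527, nat_lit 0, nat_lit 2989, nat_lit 1969, nat_lit 0, nat_lit 0, nat_lit 0, nat_lit 488, nat_lit 0, nat_lit 0, nat_lit 0, nat_lit 0, nat_lit 0, nat_lit 407600, nat_lit 0, nat_lit 0, [(nat_lit 24, [(nat_lit 1, nat_lit 384), (nat_lit 2, nat_lit 254)])],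
 ⟨p126_k34, nat_lit 0, nat_lit 0, nat_lit 160, nat_lit 0, nat_lit 0, [nat_lit 1038060000, nat_lit 1450968800, nat_lit 1532380800], [], [nat_lit 27232009828, nat_lit 28288008392, nat_lit 29210858208, nat_lit 30424148498, nat_lit 26347124764, nat_lit 27322982856, nat_lit 28029200504, nat_lit 28931404642], nat_lit 0, nat_lit 0, nat_lit 0, nat_lit 0, nat_lit 0, nat_lit 0, [], [nat_lit 35, nat_lit 40, nat_lit 40, nat_lit 80, nat_lit 22, nat_lit 226, nat_lit 20, nat_lit 9]⟩, ⟨p126_k38, nat_lit 0, nat_lit 0, nat_lit 903, nat_lit 0, nat_lit 1935597, [nat_lit 735584000, nat_lit 1697056000, nat_lit 2262500000], [], [nat_lit 12089707565, nat_lit 12159780670, nat_lit 12363687540, nat_lit 12427448200, nat_lit 11592870479, nat_lit 11642903980, nat_lit 11788175417, nat_lit 11834551942], nat_lit 1271250, nat_lit 1271250, nat_lit 1271250, nat_lit 1271250, nat_lit 0, nat_lit 1723250, [nat_lit 490000, nat_lit 1100000, nat_lit 1442500],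 [nat_lit 6, nat_lit 40, nat_lit 40, nat_lit 80, nat_lit 3, nat_lit 344, nat_lit 75, nat_lit 12]⟩,
 ⟨nat_lit 2236, nat_lit 3163, ⟨.ofNat (nat_lit 826765), .ofNat (nat_lit 887808), .ofNat (nat_lit 837812), .ofNat (nat_lit 898862), .ofNat (nat_lit 818978), .ofNat (nat_lit 876082), .ofNat (nat_lit 830334), .ofNat (nat_lit 887446)⟩, ⟨.ofNat (nat_lit 0), .ofNat (nat_lit 139899), .ofNat (nat_lit 0), .ofNat (nat_lit 184209), .ofNat (nat_lit 0), .ofNat (nat_lit 146758), .ofNat (nat_lit 0), .ofNat (nat_lit 192306)⟩⟩, [⟨nat_lit 19, nat_lit 74, nat_lit 100, nat_lit 72, nat_lit 62762930⟩, ⟨nat_lit 22, nat_lit 72, nat_lit 100, nat_lit 61, nat_lit 33723237⟩]⟩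
noncomputable def p126_l141 : Lf2 := ⟨nat_lit 0, nat_lit 10, [nat_lit 0, nat_lit 5, nat_lit 5, nat_lit 20], true, nat_lit 0, nat_lit 80, nat_lit 0, nat_lit 244, ⟨nat_lit 0, nat_lit 1000, nat_lit 0, nat_lit 8, nat_lit 339, nat_lit 1000, nat_lit 34, nat_lit 0, nat_lit 0, nat_lit 0, nat_lit 0, nat_lit 0, nat_lit 38967990, nat_lit 28032010, nat_lit 0, nat_lit 3398831, true, true⟩,
 nat_lit 0, nat_lit 0, nat_lit 0, nat_lit 0, nat_lit 2120, nat_lit 0, nat_lit 0, nat_lit 0, nat_lit 0, nat_lit 0, nat_lit 0, nat_lit 0, nat_lit 0, nat_lit 0, nat_lit 0, nat_lit 385600, nat_lit 0, nat_lit 0, [(nat_lit 27, [(nat_lit 0, nat_lit 96), (nat_lit 1, nat_lit 904)])],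
 ⟨p126_k37, nat_lit 0, nat_lit 0, nat_lit 140, nat_lit 0, nat_lit 0, [nat_lit 705587200, nat_lit 393366400], [], [nat_lit 26328295360, nat_lit 27345445760, nat_lit 28038581680, nat_lit 29001747360, nat_lit 26086742800, nat_lit 27011638880, nat_lit 27639745760, nat_lit 28554056640], nat_lit 0, nat_lit 0, nat_lit 0, nat_lit 0, nat_lit 0, nat_lit 0, [], [nat_lit 66, nat_lit 40, nat_lit 40, nat_lit 80, nat_lit 67, nat_lit 226, nat_lit 20, nat_lit 11]⟩, C1.Rw.none,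
 ⟨nat_lit 0, nat_lit 2237, ⟨.ofNat (nat_lit 818584), .ofNat (nat_lit 876093), .ofNat (nat_lit 829507), .ofNat (nat_lit 887481), .ofNat (nat_lit 812004), .ofNat (nat_lit 862498), .ofNat (nat_lit 824041), .ofNat (nat_lit 874999)⟩, ⟨.ofNat (nat_lit 0), .ofNat (nat_lit 146756), .ofNat (nat_lit 0), .ofNat (nat_lit 192306), .ofNat (nat_lit 0), .ofNat (nat_lit 149997), .ofNat (nat_lit 0), .ofNat (nat_lit 199999)⟩⟩, [⟨nat_lit 3, nat_lit 100, nat_lit 44, nat_lit 64, nat_lit 42712096⟩]⟩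
noncomputable def p126_l142 : Lf2 := ⟨nat_lit 0, nat_lit 5, [nat_lit 4, nat_lit 5, nat_lit 5, nat_lit 20], false, nat_lit 0, nat_lit 80, nat_lit 0, nat_lit 200, ⟨nat_lit 127, nat_lit 873, nat_lit 0, nat_lit 9, nat_lit 361, nat_lit 873, nat_lit 33, nat_lit 0, nat_lit 0, nat_lit 0, nat_lit 0, nat_lit 0, nat_lit 36910685, nat_lit 30089315, nat_lit 0, nat_lit 3439776, true, true⟩,
 nat_lit 0, nat_lit 0, nat_lit 1154, nat_lit 0, nat_lit 2503, nat_lit 865, nat_lit 0, nat_lit 0, nat_lit 0, nat_lit 40, nat_lit 0, nat_lit 0, nat_lit 0, nat_lit 0, nat_lit 0, nat_lit 371400, nat_lit 0, nat_lit 0, [(nat_lit 24, [(nat_lit 1, nat_lit 836), (nat_lit 2, nat_lit 37)])],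
 ⟨p126_k35, nat_lit 0, nat_lit 0, nat_lit 146, nat_lit 0, nat_lit 0, [nat_lit 882370000, nat_lit 1223185067], [], [nat_lit 28578392141, nat_lit 29443252919, nat_lit 30135141542, nat_lit 30961098152, nat_lit 28012422069, nat_lit 28833234205, nat_lit 29489883914, nat_lit 30279306488], nat_lit 0, nat_lit 0, nat_lit 0, nat_lit 0, nat_lit 0, nat_lit 0, [], [nat_lit 66, nat_lit 40, nat_lit 40, nat_lit 80, nat_lit 67, nat_lit 226, nat_lit 20, nat_lit 11]⟩, ⟨p126_k39, nat_lit 0, nat_lit 0, nat_lit 893, nat_lit 0, nat_lit 1925698, [nat_lit 258064000, nat_lit 595376000, nat_lit 793750000], [], [nat_lit 5068015416, nat_lit 5083908933, nat_lit 5146648564, nat_lit 5161715490, nat_lit 4625018826, nat_lit 4636090335, nat_lit 4686177089, nat_lit 4696686714], nat_lit 1271250, nat_lit 1271250, nat_lit 1271250, nat_lit 1271250, nat_lit 0, nat_lit 1412500, [nat_lit 490000, nat_lit 1100000, nat_lit 1442500], [nat_lit 6, nat_lit 40,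 nat_lit 40, nat_lit 80, nat_lit 3, nat_lit 339, nat_lit 50, nat_lit 12]⟩,
 ⟨nat_lit 2236, nat_lit 3163, ⟨.ofNat (nat_lit 876741), .ofNat (nat_lit 931599), .ofNat (nat_lit 887808), .ofNat (nat_lit 942677), .ofNat (nat_lit 864706), .ofNat (nat_lit 916020), .ofNat (nat_lit 876082), .ofNat (nat_lit 927408)⟩, ⟨.ofNat (nat_lit 0), .ofNat (nat_lit 139899), .ofNat (nat_lit 0), .ofNat (nat_lit 184209), .ofNat (nat_lit 0), .ofNat (nat_lit 146758), .ofNat (nat_lit 0), .ofNat (nat_lit 192306)⟩⟩, [⟨nat_lit 13, nat_lit 67, nat_lit 43, nat_lit 100, nat_lit 83863094⟩, ⟨nat_lit 13, nat_lit 54, nat_lit 57, nat_lit 100, nat_lit 160352333⟩, ⟨nat_lit 22, nat_lit 53, nat_lit 100, nat_lit 63, nat_lit 24827157⟩]⟩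
noncomputable def p126_l143 : Lf2 := ⟨nat_lit 0, nat_lit 5, [nat_lit 4, nat_lit 5, nat_lit 5, nat_lit 20], true, nat_lit 0, nat_lit 80, nat_lit 0, nat_lit 200, ⟨nat_lit 0, nat_lit 1000, nat_lit 0, nat_lit 9, nat_lit 352, nat_lit 1000, nat_lit 34, nat_lit 0, nat_lit 0, nat_lit 0, nat_lit 0, nat_lit 0, nat_lit 37782652, nat_lit 29217348, nat_lit 0, nat_lit 3424765, true, true⟩,
 nat_lit 0, nat_lit 0, nat_lit 0, nat_lit 0, nat_lit 2103, nat_lit 0, nat_lit 0, nat_lit 0, nat_lit 0, nat_lit 0, nat_lit 0, nat_lit 0, nat_lit 0, nat_lit 0, nat_lit 0, nat_lit 400000, nat_lit 0, nat_lit 0, [(nat_lit 27, [(nat_lit 1, nat_lit 1000)])],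
 ⟨p126_k40, nat_lit 0, nat_lit 0, nat_lit 133, nat_lit 0, nat_lit 0, [nat_lit 697600000, nat_lit 436800000], [], [nat_lit 27997582512, nat_lit 28958139304, nat_lit 29099338750, nat_lit 30096753328, nat_lit 27611197844, nat_lit 28523228436, nat_lit 28659168528, nat_lit 29524733093], nat_lit 0, nat_lit 0, nat_lit 0, nat_lit 0, nat_lit 0, nat_lit 0, [], [nat_lit 193, nat_lit 40, nat_lit 40, nat_lit 80, nat_lit 5, nat_lit 226, nat_lit 20, nat_lit 15]⟩, C1.Rw.none,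
 ⟨nat_lit 0, nat_lit 2237, ⟨.ofNat (nat_lit 864705), .ofNat (nat_lit 898913), .ofNat (nat_lit 876093), .ofNat (nat_lit 910301), .ofNat (nat_lit 849998), .ofNat (nat_lit 879996), .ofNat (nat_lit 862498), .ofNat (nat_lit 892497)⟩, ⟨.ofNat (nat_lit 0), .ofNat (nat_lit 146756), .ofNat (nat_lit 0), .ofNat (nat_lit 192306), .ofNat (nat_lit 0), .ofNat (nat_lit 149997), .ofNat (nat_lit 0), .ofNat (nat_lit 199999)⟩⟩, [⟨nat_lit 13, nat_lit 57, nat_lit 53, nat_lit 100, nat_lit 366436565⟩, ⟨nat_lit 3, nat_lit 100, nat_lit 44, nat_lit 64, nat_lit 45058639⟩]⟩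
noncomputable def p126_l144 : Lf2 := ⟨nat_lit 0, nat_lit 10, [nat_lit 0, nat_lit 5, nat_lit 5, nat_lit 20], false, nat_lit 0, nat_lit 80, nat_lit 0, nat_lit 200, ⟨nat_lit 189, nat_lit 811, nat_lit 0, nat_lit 9, nat_lit 363, nat_lit 811, nat_lit 33, nat_lit 0, nat_lit 0, nat_lit 0, nat_lit 0, nat_lit 0, nat_lit 36784628, nat_lit 30215372, nat_lit 0, nat_lit 3441662, true, true⟩,
 nat_lit 0, nat_lit 0, nat_lit 1646, nat_lit 0, nat_lit 2786, nat_lit 1234, nat_lit 0, nat_lit 0, nat_lit 0, nat_lit 64, nat_lit 0, nat_lit 0, nat_lit 0, nat_lit 0, nat_lit 0, nat_lit 368200, nat_lit 0, nat_lit 0, [(nat_lit 24, [(nat_lit 1, nat_lit 738), (nat_lit 2, nat_lit 73)])],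
 ⟨p126_k34, nat_lit 0, nat_lit 0, nat_lit 169, nat_lit 0, nat_lit 0, [nat_lit 910270000, nat_lit 1321815600, nat_lit 1437721600], [], [nat_lit 29046620008, nat_lit 29475495502, nat_lit 30785786820, nat_lit 31318245444, nat_lit 28292987896, nat_lit 28699780656, nat_lit 29757441832, nat_lit 30133919110], nat_lit 0, nat_lit 0, nat_lit 0, nat_lit 0, nat_lit 0, nat_lit 0, [], [nat_lit 35, nat_lit 40, nat_lit 40, nat_lit 80, nat_lit 22, nat_lit 226, nat_lit 20, nat_lit 8]⟩, ⟨p126_k36, nat_lit 0, nat_lit 0, nat_lit 728, nat_lit 0, nat_lit 1531748, [nat_lit 384048000, nat_lit 886032000, nat_lit 1181250000], [], [nat_lit 7358595484, nat_lit 7392666229, nat_lit 7518395589, nat_lit 7548600189, nat_lit 6731794212, nat_lit 6757058307, nat_lit 6860404984, nat_lit 6886756863], nat_lit 1271250, nat_lit 1271250, nat_lit 1271250, nat_lit 1271250, nat_lit 0, nat_lit 1412500, [nat_lit 490000, nat_lit 1100000, nat_lit 1442500], [nat_lit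 6, nat_lit 40, nat_lit 40, nat_lit 80, nat_lit 3, nat_lit 298, nat_lit 50, nat_lit 10]⟩,
 ⟨nat_lit 2738, nat_lit 3163, ⟨.ofNat (nat_lit 876741), .ofNat (nat_lit 931599), .ofNat (nat_lit 887814), .ofNat (nat_lit 942677), .ofNat (nat_lit 870748), .ofNat (nat_lit 923903), .ofNat (nat_lit 881953), .ofNat (nat_lit 935112)⟩, ⟨.ofNat (nat_lit 0), .ofNat (nat_lit 139899), .ofNat (nat_lit 0), .ofNat (nat_lit 184209), .ofNat (nat_lit 0), .ofNat (nat_lit 143475), .ofNat (nat_lit 0), .ofNat (nat_lit 188310)⟩⟩, [⟨nat_lit 13, nat_lit 72, nat_lit 37, nat_lit 100, nat_lit 138961232⟩, ⟨nat_lit 10, nat_lit 100, nat_lit 45, nat_lit 69, nat_lit 41938126⟩]⟩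
noncomputable def p126_l145 : Lf2 := ⟨nat_lit 0, nat_lit 10, [nat_lit 0, nat_lit 5, nat_lit 5, nat_lit 20], false, nat_lit 0, nat_lit 80, nat_lit 0, nat_lit 200, ⟨nat_lit 171, nat_lit 829, nat_lit 0, nat_lit 9, nat_lit 359, nat_lit 829, nat_lit 34, nat_lit 0, nat_lit 0, nat_lit 0, nat_lit 0, nat_lit 0, nat_lit 37142231, nat_lit 29857769, nat_lit 0, nat_lit 3436124, true, true⟩,
 nat_lit 0, nat_lit 0, nat_lit 1530, nat_lit 0, nat_lit 2542, nat_lit 1147, nat_lit 212, nat_lit 0, nat_lit 0, nat_lit 55, nat_lit 0, nat_lit 0, nat_lit 0, nat_lit 0, nat_lit 0, nat_lit 207250, nat_lit 0, nat_lit 0, [(nat_lit 24, [(nat_lit 0, nat_lit 829)])],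
 ⟨p126_k41, nat_lit 0, nat_lit 0, nat_lit 170, nat_lit 0, nat_lit 0, [nat_lit 793090800, nat_lit 1694630801, nat_lit 2215590400], [], [nat_lit 28699684307, nat_lit 29144529644, nat_lit 30347354664, nat_lit 30868231312, nat_lit 28105972037, nat_lit 28519897041, nat_lit 29403099582, nat_lit 29790202261], nat_lit 0, nat_lit 0, nat_lit 0, nat_lit 0, nat_lit 0, nat_lit 0, [], [nat_lit 35, nat_lit 40, nat_lit 40, nat_lit 80, nat_lit 22, nat_lit 226, nat_lit 20, nat_lit 8]⟩, ⟨p126_k36, nat_lit 0, nat_lit 0, nat_lit 771, nat_lit 0, nat_lit 1646173, [nat_lit 347472000, nat_lit 801648000, nat_lit 1068750000], [], [nat_lit 6722673988, nat_lit 6747506052, nat_lit 6829466641, nat_lit 6851594097, nat_lit 6129776752, nat_lit 6147584400, nat_lit 6213029900, nat_lit 6230672494], nat_lit 1271250, nat_lit 1271250, nat_lit 1271250, nat_lit 1271250, nat_lit 0, nat_lit 1412500, [nat_lit 490000, nat_lit 1100000, nat_lit 1442500], [nat_lit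 6, nat_lit 40, nat_lit 40, nat_lit 80, nat_lit 3, nat_lit 308, nat_lit 50, nat_lit 10]⟩,
 ⟨nat_lit 2236, nat_lit 2739, ⟨.ofNat (nat_lit 870748), .ofNat (nat_lit 917997), .ofNat (nat_lit 881957), .ofNat (nat_lit 929206), .ofNat (nat_lit 864706), .ofNat (nat_lit 910319), .ofNat (nat_lit 876094), .ofNat (nat_lit 921706)⟩, ⟨.ofNat (nat_lit 0), .ofNat (nat_lit 143475), .ofNat (nat_lit 0), .ofNat (nat_lit 188310), .ofNat (nat_lit 0), .ofNat (nat_lit 146758), .ofNat (nat_lit 0), .ofNat (nat_lit 192306)⟩⟩, [⟨nat_lit 13, nat_lit 54, nat_lit 57, nat_lit 100, nat_lit 211159512⟩, ⟨nat_lit 10, nat_lit 100, nat_lit 45, nat_lit 69, nat_lit 35771774⟩]⟩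
noncomputable def p126_l146 : Lf2 := ⟨nat_lit 0, nat_lit 10, [nat_lit 0, nat_lit 5, nat_lit 5, nat_lit 20], true, nat_lit 0, nat_lit 80, nat_lit 0, nat_lit 200, ⟨nat_lit 0, nat_lit 1000, nat_lit 0, nat_lit 9, nat_lit 352, nat_lit 1000, nat_lit 34, nat_lit 0, nat_lit 0, nat_lit 0, nat_lit 0, nat_lit 0, nat_lit 37782652, nat_lit 29217348, nat_lit 0, nat_lit 3424765, true, true⟩,
 nat_lit 0, nat_lit 0, nat_lit 0, nat_lit 0, nat_lit 2158, nat_lit 0, nat_lit 0, nat_lit 0, nat_lit 0, nat_lit 0, nat_lit 0, nat_lit 0, nat_lit 0, nat_lit 0, nat_lit 0, nat_lit 345550, nat_lit 0, nat_lit 0, [(nat_lit 27, [(nat_lit 0, nat_lit 363), (nat_lit 1, nat_lit 637)])],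
 ⟨p126_k37, nat_lit 0, nat_lit 0, nat_lit 149, nat_lit 0, nat_lit 0, [nat_lit 727801601, nat_lit 585179200], [], [nat_lit 28227776085, nat_lit 29133169189, nat_lit 29267934730, nat_lit 30272905260, nat_lit 27880172929, nat_lit 28739284589, nat_lit 28868810178, nat_lit 29685625095], nat_lit 0, nat_lit 0, nat_lit 0, nat_lit 0, nat_lit 0, nat_lit 0, [], [nat_lit 66, nat_lit 40, nat_lit 40, nat_lit 80, nat_lit 67, nat_lit 226, nat_lit 20, nat_lit 10]⟩, C1.Rw.none,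
 ⟨nat_lit 0, nat_lit 2237, ⟨.ofNat (nat_lit 864705), .ofNat (nat_lit 898913), .ofNat (nat_lit 876093), .ofNat (nat_lit 910301), .ofNat (nat_lit 849998), .ofNat (nat_lit 879996), .ofNat (nat_lit 862498), .ofNat (nat_lit 892497)⟩, ⟨.ofNat (nat_lit 0), .ofNat (nat_lit 146756), .ofNat (nat_lit 0), .ofNat (nat_lit 192306), .ofNat (nat_lit 0), .ofNat (nat_lit 149997), .ofNat (nat_lit 0), .ofNat (nat_lit 199999)⟩⟩, [⟨nat_lit 13, nat_lit 57, nat_lit 53, nat_lit 100, nat_lit 344750414⟩, ⟨nat_lit 3, nat_lit 100, nat_lit 44, nat_lit 64, nat_lit 39230134⟩]⟩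
noncomputable def p126_l147 : Lf2 := ⟨nat_lit 0, nat_lit 10, [nat_lit 0, nat_lit 5, nat_lit 5, nat_lit 20], false, nat_lit 0, nat_lit 80, nat_lit 0, nat_lit 200, ⟨nat_lit 493, nat_lit 507, nat_lit 0, nat_lit 9, nat_lit 367, nat_lit 507, nat_lit 33, nat_lit 0, nat_lit 0, nat_lit 0, nat_lit 0, nat_lit 0, nat_lit 36393533, nat_lit 30606467, nat_lit 0, nat_lit 3447060, true, true⟩,
 nat_lit 0, nat_lit 0, nat_lit 3302, nat_lit 0, nat_lit 3241, nat_lit 2574, nat_lit 94, nat_lit 0, nat_lit 0, nat_lit 716, nat_lit 0, nat_lit 0, nat_lit 0, nat_lit 0, nat_lit 0, nat_lit 390000, nat_lit 0, nat_lit 0, [(nat_lit 24, [(nat_lit 1, nat_lit 195), (nat_lit 2, nat_lit 312)])],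
 ⟨p126_k34, nat_lit 0, nat_lit 0, nat_lit 173, nat_lit 0, nat_lit 0, [nat_lit 1085810000, nat_lit 1664992401, nat_lit 1844837600], [], [nat_lit 29889008352, nat_lit 31145544362, nat_lit 32402080372, nat_lit 33518260844, nat_lit 28150349128, nat_lit 29018691191, nat_lit 29966389069, nat_lit 31007572484], nat_lit 0, nat_lit 0, nat_lit 0, nat_lit 0, nat_lit 0, nat_lit 0, [], [nat_lit 35, nat_lit 40, nat_lit 40, nat_lit 80, nat_lit 22, nat_lit 226, nat_lit 20, nat_lit 8]⟩, ⟨p126_k38, nat_lit 0, nat_lit 0, nat_lit 898, nat_lit 0, nat_lit 1935597, [nat_lit 1001776000, nat_lit 2311184000, nat_lit 3081250000], [], [nat_lit 17625910362, nat_lit 17715282012, nat_lit 18054152953, nat_lit 18312866238, nat_lit 16932264581, nat_lit 17001824559, nat_lit 17272589596, nat_lit 17335171970], nat_lit 1271250, nat_lit 1271250, nat_lit 1271250, nat_lit 1271250, nat_lit 0, nat_lit 1412500, [nat_lit 490000, nat_lit 1100000, nat_lit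 1442500], [nat_lit 6, nat_lit 40, nat_lit 40, nat_lit 80, nat_lit 3, nat_lit 342, nat_lit 50, nat_lit 12]⟩,
 ⟨nat_lit 2236, nat_lit 3163, ⟨.ofNat (nat_lit 887808), .ofNat (nat_lit 948772), .ofNat (nat_lit 898862), .ofNat (nat_lit 959850), .ofNat (nat_lit 876082), .ofNat (nat_lit 933109), .ofNat (nat_lit 887446), .ofNat (nat_lit 944496)⟩, ⟨.ofNat (nat_lit 0), .ofNat (nat_lit 139899), .ofNat (nat_lit 0), .ofNat (nat_lit 184209), .ofNat (nat_lit 0), .ofNat (nat_lit 146758), .ofNat (nat_lit 0), .ofNat (nat_lit 192306)⟩⟩, [⟨nat_lit 22, nat_lit 49, nat_lit 100, nat_lit 68, nat_lit 155102812⟩]⟩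
noncomputable def p126_l148 : Lf2 := ⟨nat_lit 0, nat_lit 10, [nat_lit 0, nat_lit 5, nat_lit 5, nat_lit 20], false, nat_lit 0, nat_lit 80, nat_lit 0, nat_lit 200, ⟨nat_lit 198, nat_lit 802, nat_lit 0, nat_lit 9, nat_lit 359, nat_lit 802, nat_lit 34, nat_lit 0, nat_lit 0, nat_lit 0, nat_lit 0, nat_lit 0, nat_lit 37139338, nat_lit 29860662, nat_lit 0, nat_lit 3436171, true, true⟩,
 nat_lit 0, nat_lit 0, nat_lit 1456, nat_lit 0, nat_lit 2353, nat_lit 1134, nat_lit 0, nat_lit 0, nat_lit 0, nat_lit 173, nat_lit 0, nat_lit 0, nat_lit 0, nat_lit 0, nat_lit 0, nat_lit 320800, nat_lit 0, nat_lit 0, [(nat_lit 27, [(nat_lit 1, nat_lit 802)])],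
 ⟨p126_k37, nat_lit 0, nat_lit 0, nat_lit 152, nat_lit 0, nat_lit 0, [nat_lit 745199200, nat_lit 910004800], [], [nat_lit 28603482746, nat_lit 29707629076, nat_lit 30280009711, nat_lit 31294048878, nat_lit 27971480234, nat_lit 28855312044, nat_lit 29326027769, nat_lit 30150276217], nat_lit 0, nat_lit 0, nat_lit 0, nat_lit 0, nat_lit 0, nat_lit 0, [], [nat_lit 66, nat_lit 40, nat_lit 40, nat_lit 80, nat_lit 67, nat_lit 226, nat_lit 20, nat_lit 10]⟩, ⟨p126_k38, nat_lit 0, nat_lit 0, nat_lit 1000, nat_lit 0, nat_lit 2168357, [nat_lit 402336000, nat_lit 928224000, nat_lit 1237500000], [], [nat_lit 7007862904, nat_lit 7037571796, nat_lit 7369493188, nat_lit 7505005256, nat_lit 6630057547, nat_lit 6652467322, nat_lit 6721367775, nat_lit 6741710718], nat_lit 1271250, nat_lit 1271250, nat_lit 1271250, nat_lit 1271250, nat_lit 0, nat_lit 1412500, [nat_lit 490000, nat_lit 1100000, nat_lit 1442500], [nat_lit 6, nat_lit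 40, nat_lit 40, nat_lit 80, nat_lit 3, nat_lit 367, nat_lit 50, nat_lit 13]⟩,
 ⟨nat_lit 0, nat_lit 2237, ⟨.ofNat (nat_lit 876093), .ofNat (nat_lit 921704), .ofNat (nat_lit 887481), .ofNat (nat_lit 933091), .ofNat (nat_lit 862498), .ofNat (nat_lit 902497), .ofNat (nat_lit 874999), .ofNat (nat_lit 914997)⟩, ⟨.ofNat (nat_lit 0), .ofNat (nat_lit 146756), .ofNat (nat_lit 0), .ofNat (nat_lit 192306), .ofNat (nat_lit 0), .ofNat (nat_lit 149997), .ofNat (nat_lit 0), .ofNat (nat_lit 199999)⟩⟩, [⟨nat_lit 13, nat_lit 42, nat_lit 66, nat_lit 100, nat_lit 336001510⟩, ⟨nat_lit 22, nat_lit 52, nat_lit 100, nat_lit 66, nat_lit 36554699⟩]⟩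
noncomputable def p126_l149 : Lf2 := ⟨nat_lit 0, nat_lit 10, [nat_lit 0, nat_lit 5, nat_lit 5, nat_lit 20], true, nat_lit 80, nat_lit 200, nat_lit 0, nat_lit 260, ⟨nat_lit 0, nat_lit 1000, nat_lit 0, nat_lit 8, nat_lit 336, nat_lit 1000, nat_lit 101, nat_lit 0, nat_lit 0, nat_lit 0, nat_lit 0, nat_lit 0, nat_lit 36783859, nat_lit 26351818, nat_lit 3864323, nat_lit 4541315, true, true⟩,
 nat_lit 0, nat_lit 0, nat_lit 0, nat_lit 0, nat_lit 3017, nat_lit 0, nat_lit 0, nat_lit 0, nat_lit 0, nat_lit 0, nat_lit 0, nat_lit 0, nat_lit 0, nat_lit 0, nat_lit 0, nat_lit 323200, nat_lit 0, nat_lit 0, [(nat_lit 24, [(nat_lit 0, nat_lit 512), (nat_lit 1, nat_lit 488)]), (nat_lit 27, [(nat_lit 0, nat_lit 512), (nat_lit 1, nat_lit 488)])],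
 ⟨p126_k34, nat_lit 0, nat_lit 0, nat_lit 112, nat_lit 0, nat_lit 0, [nat_lit 813593600, nat_lit 1186705067, nat_lit 1339014400], [], [nat_lit 25278035543, nat_lit 27546771772, nat_lit 27149956444, nat_lit 29490450912, nat_lit 26539022053, nat_lit 28365876980, nat_lit 28031564441, nat_lit 30056091428], nat_lit 0, nat_lit 0, nat_lit 0, nat_lit 0, nat_lit 0, nat_lit 0, [], [nat_lit 35, nat_lit 40, nat_lit 40, nat_lit 80, nat_lit 22, nat_lit 260, nat_lit 50, nat_lit 10]⟩, C1.Rw.none,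
 ⟨nat_lit 0, nat_lit 3163, ⟨.ofNat (nat_lit 815384), .ofNat (nat_lit 876741), .ofNat (nat_lit 825991), .ofNat (nat_lit 887819), .ofNat (nat_lit 799594), .ofNat (nat_lit 849999), .ofNat (nat_lit 811624), .ofNat (nat_lit 862499)⟩, ⟨.ofNat (nat_lit 139898), .ofNat (nat_lit 322753), .ofNat (nat_lit 184209), .ofNat (nat_lit 367065), .ofNat (nat_lit 149998), .ofNat (nat_lit 299993), .ofNat (nat_lit 199999), .ofNat (nat_lit 349995)⟩⟩, [⟨nat_lit 16, nat_lit 60, nat_lit 100, nat_lit 80, nat_lit 105403548⟩]⟩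
noncomputable def p126_l150 : Lf2 := ⟨nat_lit 0, nat_lit 10, [nat_lit 0, nat_lit 5, nat_lit 5, nat_lit 20], false, nat_lit 80, nat_lit 200, nat_lit 0, nat_lit 244, ⟨nat_lit 188, nat_lit 812, nat_lit 0, nat_lit 8, nat_lit 341, nat_lit 812, nat_lit 101, nat_lit 0, nat_lit 0, nat_lit 0, nat_lit 0, nat_lit 0, nat_lit 36398036, nat_lit 26766463, nat_lit 3835501, nat_lit 4545661, true, true⟩,
 nat_lit 0, nat_lit 0, nat_lit 1504, nat_lit 0, nat_lit 2866, nat_lit 1172, nat_lit 11, nat_lit 0, nat_lit 0, nat_lit 73, nat_lit 0, nat_lit 0, nat_lit 0, nat_lit 0, nat_lit 0, nat_lit 409400, nat_lit 0, nat_lit 0, [(nat_lit 24, [(nat_lit 1, nat_lit 671), (nat_lit 2, nat_lit 141)]), (nat_lit 27, [(nat_lit 1, nat_lit 671), (nat_lit 2, nat_lit 141)])],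
 ⟨p126_k34, nat_lit 0, nat_lit 0, nat_lit 112, nat_lit 0, nat_lit 0, [nat_lit 952340000, nat_lit 1219561867, nat_lit 1226887200], [], [nat_lit 25489534440, nat_lit 27453215088, nat_lit 27182780656, nat_lit 29193896576, nat_lit 26806386420, nat_lit 28510498348, nat_lit 28276435244, nat_lit 29850416744], nat_lit 0, nat_lit 0, nat_lit 0, nat_lit 0, nat_lit 0, nat_lit 0, [], [nat_lit 35, nat_lit 40, nat_lit 40, nat_lit 80, nat_lit 22, nat_lit 260, nat_lit 50, nat_lit 10]⟩, ⟨p126_k38, nat_lit 0, nat_lit 0, nat_lit 1005, nat_lit 0, nat_lit 2168357, [nat_lit 382016000, nat_lit 881344000, nat_lit 1175000000], [], [nat_lit 6142688171, nat_lit 6172478432, nat_lit 6675786300, nat_lit 6828316952, nat_lit 5721574461, nat_lit 5741027353, nat_lit 5797063766, nat_lit 5826927965], nat_lit 1271250, nat_lit 1271250, nat_lit 1271250, nat_lit 1271250, nat_lit 0, nat_lit 1723250, [nat_lit 490000, nat_lit 1100000, nat_lit 1442500],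 [nat_lit 6, nat_lit 40, nat_lit 40, nat_lit 80, nat_lit 3, nat_lit 370, nat_lit 75, nat_lit 13]⟩,
 ⟨nat_lit 0, nat_lit 3163, ⟨.ofNat (nat_lit 825991), .ofNat (nat_lit 887819), .ofNat (nat_lit 836507), .ofNat (nat_lit 898896), .ofNat (nat_lit 811624), .ofNat (nat_lit 862499), .ofNat (nat_lit 823562), .ofNat (nat_lit 874999)⟩, ⟨.ofNat (nat_lit 139898), .ofNat (nat_lit 322753), .ofNat (nat_lit 184209), .ofNat (nat_lit 367065), .ofNat (nat_lit 149998), .ofNat (nat_lit 299993), .ofNat (nat_lit 199999), .ofNat (nat_lit 349995)⟩⟩, [⟨nat_lit 4, nat_lit 100, nat_lit 46, nat_lit 75, nat_lit 268157284⟩, ⟨nat_lit 19, nat_lit 74, nat_lit 100, nat_lit 72, nat_lit 20493413⟩]⟩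
noncomputable def p126_l151 : Lf2 := ⟨nat_lit 0, nat_lit 5, [nat_lit 4, nat_lit 5, nat_lit 5, nat_lit 20], true, nat_lit 80, nat_lit 200, nat_lit 8, nat_lit 260, ⟨nat_lit 0, nat_lit 1000, nat_lit 0, nat_lit 9, nat_lit 358, nat_lit 1000, nat_lit 101, nat_lit 0, nat_lit 0, nat_lit 0, nat_lit 0, nat_lit 0, nat_lit 35036975, nat_lit 28232106, nat_lit 3730919, nat_lit 4553765, true, true⟩,
 nat_lit 0, nat_lit 0, nat_lit 0, nat_lit 0, nat_lit 2773, nat_lit 0, nat_lit 0, nat_lit 0, nat_lit 0, nat_lit 0, nat_lit 0, nat_lit 0, nat_lit 0, nat_lit 0, nat_lit 0, nat_lit 293800, nat_lit 0, nat_lit 0, [(nat_lit 24, [(nat_lit 0, nat_lit 708), (nat_lit 1, nat_lit 292)]), (nat_lit 27, [(nat_lit 0, nat_lit 708), (nat_lit 1, nat_lit 292)])],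
 ⟨p126_k35, nat_lit 0, nat_lit 0, nat_lit 111, nat_lit 0, nat_lit 0, [nat_lit 800422400, nat_lit 1254371200], [], [nat_lit 26865609328, nat_lit 29011250528, nat_lit 28785184859, nat_lit 30836664952, nat_lit 28057564912, nat_lit 29723742932, nat_lit 29527476367, nat_lit 31320051160], nat_lit 0, nat_lit 0, nat_lit 0, nat_lit 0, nat_lit 0, nat_lit 0, [], [nat_lit 66, nat_lit 40, nat_lit 40, nat_lit 80, nat_lit 67, nat_lit 260, nat_lit 50, nat_lit 12]⟩, C1.Rw.none,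
 ⟨nat_lit 0, nat_lit 3163, ⟨.ofNat (nat_lit 876741), .ofNat (nat_lit 931598), .ofNat (nat_lit 887819), .ofNat (nat_lit 942676), .ofNat (nat_lit 849999), .ofNat (nat_lit 894998), .ofNat (nat_lit 862499), .ofNat (nat_lit 907498)⟩, ⟨.ofNat (nat_lit 139898), .ofNat (nat_lit 322753), .ofNat (nat_lit 184209), .ofNat (nat_lit 367065), .ofNat (nat_lit 149998), .ofNat (nat_lit 299993), .ofNat (nat_lit 199999), .ofNat (nat_lit 349995)⟩⟩, [⟨nat_lit 13, nat_lit 79, nat_lit 29, nat_lit 100, nat_lit 231147103⟩, ⟨nat_lit 16, nat_lit 60, nat_lit 100, nat_lit 80, nat_lit 98204754⟩]⟩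
noncomputable def p126_l152 : Lf2 := ⟨nat_lit 0, nat_lit 5, [nat_lit 4, nat_lit 5, nat_lit 5, nat_lit 20], false, nat_lit 80, nat_lit 200, nat_lit 8, nat_lit 244, ⟨nat_lit 263, nat_lit 737, nat_lit 0, nat_lit 9, nat_lit 364, nat_lit 737, nat_lit 101, nat_lit 0, nat_lit 0, nat_lit 0, nat_lit 0, nat_lit 0, nat_lit 34569615, nat_lit 28736389, nat_lit 3693996, nat_lit 4553969, true, true⟩,
 nat_lit 0, nat_lit 0, nat_lit 1863, nat_lit 0, nat_lit 2868, nat_lit 1452, nat_lit 0, nat_lit 0, nat_lit 0, nat_lit 444, nat_lit 0, nat_lit 0, nat_lit 0, nat_lit 0, nat_lit 0, nat_lit 321800, nat_lit 0, nat_lit 0, [(nat_lit 24, [(nat_lit 1, nat_lit 692), (nat_lit 2, nat_lit 45)]), (nat_lit 27, [(nat_lit 1, nat_lit 692), (nat_lit 2, nat_lit 45)])],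
 ⟨p126_k35, nat_lit 0, nat_lit 0, nat_lit 112, nat_lit 0, nat_lit 0, [nat_lit 899570000, nat_lit 1516139600], [], [nat_lit 27390057648, nat_lit 29277269008, nat_lit 29277269008, nat_lit 31251672416, nat_lit 28542854992, nat_lit 30202376912, nat_lit 30202376912, nat_lit 31746345208], nat_lit 0, nat_lit 0, nat_lit 0, nat_lit 0, nat_lit 0, nat_lit 0, [], [nat_lit 66, nat_lit 40, nat_lit 40, nat_lit 80, nat_lit 67, nat_lit 260, nat_lit 50, nat_lit 12]⟩, ⟨p126_k42, nat_lit 0, nat_lit 0, nat_lit 900, nat_lit 0, nat_lit 2112896, [nat_lit 534416000, nat_lit 1232944000], [], [nat_lit 8832721483, nat_lit 8951743783, nat_lit 9700804850, nat_lit 9871194541, nat_lit 8475769681, nat_lit 8508034267, nat_lit 8637134201, nat_lit 8666465826], nat_lit 1271250, nat_lit 1271250, nat_lit 1271250, nat_lit 1271250, nat_lit 43600, nat_lit 1728050, [nat_lit 490000, nat_lit 1100000], [nat_lit 24, nat_lit 40, nat_lit 40, nat_lit 80, nat_lit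 33, nat_lit 348, nat_lit 75, nat_lit 15]⟩,
 ⟨nat_lit 0, nat_lit 3163, ⟨.ofNat (nat_lit 887819), .ofNat (nat_lit 948771), .ofNat (nat_lit 898896), .ofNat (nat_lit 959849), .ofNat (nat_lit 862499), .ofNat (nat_lit 912498), .ofNat (nat_lit 874999), .ofNat (nat_lit 924998)⟩, ⟨.ofNat (nat_lit 139898), .ofNat (nat_lit 322753), .ofNat (nat_lit 184209), .ofNat (nat_lit 367065), .ofNat (nat_lit 149998), .ofNat (nat_lit 299993), .ofNat (nat_lit 199999), .ofNat (nat_lit 349995)⟩⟩, [⟨nat_lit 13, nat_lit 59, nat_lit 50, nat_lit 100, nat_lit 189383142⟩, ⟨nat_lit 16, nat_lit 46, nat_lit 100, nat_lit 75, nat_lit 278925460⟩, ⟨nat_lit 7, nat_lit 100, nat_lit 74, nat_lit 72, nat_lit 35316675⟩]⟩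
noncomputable def p126_l153 : Lf2 := ⟨nat_lit 0, nat_lit 10, [nat_lit 0, nat_lit 5, nat_lit 5, nat_lit 20], false, nat_lit 80, nat_lit 200, nat_lit 8, nat_lit 260, ⟨nat_lit 182, nat_lit 818, nat_lit 0, nat_lit 9, nat_lit 363, nat_lit 818, nat_lit 102, nat_lit 0, nat_lit 0, nat_lit 0, nat_lit 0, nat_lit 0, nat_lit 34620993, nat_lit 28630591, nat_lit 3748416, nat_lit 4563605, true, true⟩,
 nat_lit 0, nat_lit 0, nat_lit 1663, nat_lit 0, nat_lit 2918, nat_lit 1247, nat_lit 0, nat_lit 0, nat_lit 0, nat_lit 56, nat_lit 0, nat_lit 0, nat_lit 0, nat_lit 0, nat_lit 0, nat_lit 384200, nat_lit 0, nat_lit 0, [(nat_lit 24, [(nat_lit 1, nat_lit 723), (nat_lit 2, nat_lit 95)])],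
 ⟨p126_k34, nat_lit 0, nat_lit 0, nat_lit 113, nat_lit 0, nat_lit 0, [nat_lit 923280000, nat_lit 1273480000, nat_lit 1344583200], [], [nat_lit 27319603872, nat_lit 27772966260, nat_lit 29065211121, nat_lit 29588062176, nat_lit 28391497396, nat_lit 28786486413, nat_lit 29813457858, nat_lit 30178217944], nat_lit 0, nat_lit 0, nat_lit 0, nat_lit 0, nat_lit 0, nat_lit 0, [], [nat_lit 35, nat_lit 40, nat_lit 40, nat_lit 80, nat_lit 22, nat_lit 260, nat_lit 50, nat_lit 9]⟩, ⟨p126_k36, nat_lit 0, nat_lit 0, nat_lit 723, nat_lit 0, nat_lit 1531748, [nat_lit 369824000, nat_lit 853216000, nat_lit 1137500000], [], [nat_lit 6729116255, nat_lit 6761692960, nat_lit 7169739676, nat_lit 7304254433, nat_lit 6107341067, nat_lit 6127846323, nat_lit 6212022530, nat_lit 6229645274], nat_lit 1271250, nat_lit 1271250, nat_lit 1271250, nat_lit 1271250, nat_lit 43600, nat_lit 1842250, [nat_lit 490000, nat_lit 1100000, nat_lit 1442500],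 [nat_lit 6, nat_lit 40, nat_lit 40, nat_lit 80, nat_lit 3, nat_lit 304, nat_lit 75, nat_lit 10]⟩,
 ⟨nat_lit 2738, nat_lit 3163, ⟨.ofNat (nat_lit 876741), .ofNat (nat_lit 931599), .ofNat (nat_lit 887814), .ofNat (nat_lit 942677), .ofNat (nat_lit 870748), .ofNat (nat_lit 923903), .ofNat (nat_lit 881953), .ofNat (nat_lit 935112)⟩, ⟨.ofNat (nat_lit 139899), .ofNat (nat_lit 322759), .ofNat (nat_lit 184209), .ofNat (nat_lit 367069), .ofNat (nat_lit 143475), .ofNat (nat_lit 320659), .ofNat (nat_lit 188310), .ofNat (nat_lit 365494)⟩⟩, [⟨nat_lit 13, nat_lit 72, nat_lit 37, nat_lit 100, nat_lit 177108665⟩, ⟨nat_lit 4, nat_lit 100, nat_lit 57, nat_lit 73, nat_lit 151312060⟩, ⟨nat_lit 7, nat_lit 100, nat_lit 79, nat_lit 72, nat_lit 17428515⟩]⟩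
noncomputable def p126_l154 : Lf2 := ⟨nat_lit 0, nat_lit 10, [nat_lit 0, nat_lit 5, nat_lit 5, nat_lit 20], false, nat_lit 80, nat_lit 184, nat_lit 8, nat_lit 260, ⟨nat_lit 165, nat_lit 835, nat_lit 0, nat_lit 9, nat_lit 359, nat_lit 835, nat_lit 97, nat_lit 0, nat_lit 0, nat_lit 0, nat_lit 0, nat_lit 0, nat_lit 35067410, nat_lit 28391114, nat_lit 3541476, nat_lit 4516899, true, true⟩,
 nat_lit 0, nat_lit 0, nat_lit 1544, nat_lit 0, nat_lit 2734, nat_lit 1158, nat_lit 194, nat_lit 0, nat_lit 0, nat_lit 49, nat_lit 0, nat_lit 0, nat_lit 0, nat_lit 0, nat_lit 0, nat_lit 208750, nat_lit 0, nat_lit 0, [(nat_lit 24, [(nat_lit 0, nat_lit 835)])],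
 ⟨p126_k41, nat_lit 0, nat_lit 0, nat_lit 115, nat_lit 0, nat_lit 0, [nat_lit 792042001, nat_lit 1683142001, nat_lit 2197696000], [], [nat_lit 27469947282, nat_lit 27912791126, nat_lit 29001017621, nat_lit 29516957365, nat_lit 28312109102, nat_lit 28707170972, nat_lit 29552112228, nat_lit 29946185351], nat_lit 0, nat_lit 0, nat_lit 0, nat_lit 0, nat_lit 0, nat_lit 0, [], [nat_lit 35, nat_lit 40, nat_lit 40, nat_lit 80, nat_lit 22, nat_lit 260, nat_lit 50, nat_lit 9]⟩, ⟨p126_k36, nat_lit 0, nat_lit 0, nat_lit 766, nat_lit 0, nat_lit 1646173, [nat_lit 335280000, nat_lit 773520000, nat_lit 1031250000], [], [nat_lit 6126528494, nat_lit 6150116720, nat_lit 6501669767, nat_lit 6627438144, nat_lit 5521021552, nat_lit 5534985529, nat_lit 5588636515, nat_lit 5621758091], nat_lit 1271250, nat_lit 1271250, nat_lit 1271250, nat_lit 1271250, nat_lit 43600, nat_lit 1842250, [nat_lit 490000, nat_lit 1100000, nat_lit 1442500],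 [nat_lit 6, nat_lit 40, nat_lit 40, nat_lit 80, nat_lit 3, nat_lit 315, nat_lit 75, nat_lit 11]⟩,
 ⟨nat_lit 2236, nat_lit 2739, ⟨.ofNat (nat_lit 870748), .ofNat (nat_lit 917997), .ofNat (nat_lit 881957), .ofNat (nat_lit 929206), .ofNat (nat_lit 864706), .ofNat (nat_lit 910319), .ofNat (nat_lit 876094), .ofNat (nat_lit 921706)⟩, ⟨.ofNat (nat_lit 143475), .ofNat (nat_lit 297035), .ofNat (nat_lit 188310), .ofNat (nat_lit 341870), .ofNat (nat_lit 146758), .ofNat (nat_lit 294998), .ofNat (nat_lit 192306), .ofNat (nat_lit 340547)⟩⟩, [⟨nat_lit 13, nat_lit 62, nat_lit 49, nat_lit 100, nat_lit 210165066⟩, ⟨nat_lit 4, nat_lit 100, nat_lit 50, nat_lit 74, nat_lit 161003297⟩, ⟨nat_lit 19, nat_lit 79, nat_lit 100, nat_lit 72, nat_lit 15212986⟩]⟩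
noncomputable def p126_l155 : Lf2 := ⟨nat_lit 0, nat_lit 10, [nat_lit 0, nat_lit 5, nat_lit 5, nat_lit 20], false, nat_lit 80, nat_lit 200, nat_lit 8, nat_lit 244, ⟨nat_lit 661, nat_lit 339, nat_lit 0, nat_lit 9, nat_lit 367, nat_lit 339, nat_lit 102, nat_lit 0, nat_lit 0, nat_lit 0, nat_lit 0, nat_lit 0, nat_lit 34276477, nat_lit 28996620, nat_lit 3726903, nat_lit 4564258, true, true⟩,
 nat_lit 0, nat_lit 0, nat_lit 4283, nat_lit 0, nat_lit 3268, nat_lit 3338, nat_lit 115, nat_lit 0, nat_lit 0, nat_lit 857, nat_lit 0, nat_lit 0, nat_lit 0, nat_lit 0, nat_lit 0, nat_lit 339000, nat_lit 0, nat_lit 0, [(nat_lit 24, [(nat_lit 2, nat_lit 339)])],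
 ⟨p126_k34, nat_lit 0, nat_lit 0, nat_lit 118, nat_lit 0, nat_lit 0, [nat_lit 1117670000, nat_lit 2009122801, nat_lit 2389851200], [], [nat_lit 28303459198, nat_lit 29250200174, nat_lit 30196941150, nat_lit 31065862050, nat_lit 29228884022, nat_lit 30060230829, nat_lit 30946113713, nat_lit 31752282261], nat_lit 0, nat_lit 0, nat_lit 0, nat_lit 0, nat_lit 0, nat_lit 0, [], [nat_lit 35, nat_lit 40, nat_lit 40, nat_lit 80, nat_lit 22, nat_lit 260, nat_lit 50, nat_lit 9]⟩, ⟨p126_k38, nat_lit 0, nat_lit 0, nat_lit 756, nat_lit 0, nat_lit 1621305, [nat_lit 1343152000, nat_lit 3098768000, nat_lit 4131250000], [], [nat_lit 23122703754, nat_lit 23265890136, nat_lit 23811015425, nat_lit 23944703262, nat_lit 22513930022, nat_lit 22622590688, nat_lit 23039368347, nat_lit 23137412435], nat_lit 1271250, nat_lit 1271250, nat_lit 1271250, nat_lit 1271250, nat_lit 43600, nat_lit 1728050, [nat_lit 490000, nat_lit 1100000, nat_lit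 1442500], [nat_lit 6, nat_lit 40, nat_lit 40, nat_lit 80, nat_lit 3, nat_lit 312, nat_lit 75, nat_lit 10]⟩,
 ⟨nat_lit 2236, nat_lit 3163, ⟨.ofNat (nat_lit 887808), .ofNat (nat_lit 948772), .ofNat (nat_lit 898862), .ofNat (nat_lit 959850), .ofNat (nat_lit 876082), .ofNat (nat_lit 933109), .ofNat (nat_lit 887446), .ofNat (nat_lit 944496)⟩, ⟨.ofNat (nat_lit 139899), .ofNat (nat_lit 322759), .ofNat (nat_lit 184209), .ofNat (nat_lit 367069), .ofNat (nat_lit 146758), .ofNat (nat_lit 317804), .ofNat (nat_lit 192306), .ofNat (nat_lit 363353)⟩⟩, [⟨nat_lit 13, nat_lit 57, nat_lit 53, nat_lit 100, nat_lit 83891008⟩, ⟨nat_lit 4, nat_lit 100, nat_lit 54, nat_lit 73, nat_lit 391654415⟩, ⟨nat_lit 19, nat_lit 74, nat_lit 100, nat_lit 72, nat_lit 177429710⟩]⟩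
noncomputable def p126_l156 : Lf2 := ⟨nat_lit 0, nat_lit 10, [nat_lit 0, nat_lit 5, nat_lit 5, nat_lit 20], true, nat_lit 80, nat_lit 164, nat_lit 8, nat_lit 260, ⟨nat_lit 0, nat_lit 1000, nat_lit 0, nat_lit 9, nat_lit 356, nat_lit 1000, nat_lit 91, nat_lit 0, nat_lit 0, nat_lit 0, nat_lit 0, nat_lit 0, nat_lit 35440825, nat_lit 28313295, nat_lit 3245880, nat_lit 4451847, true, true⟩,
 nat_lit 0, nat_lit 0, nat_lit 0, nat_lit 0, nat_lit 2637, nat_lit 0, nat_lit 0, nat_lit 0, nat_lit 0, nat_lit 0, nat_lit 0, nat_lit 0, nat_lit 0, nat_lit 0, nat_lit 0, nat_lit 250000, nat_lit 0, nat_lit 0, [(nat_lit 27, [(nat_lit 0, nat_lit 1000)])],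
 ⟨p126_k37, nat_lit 0, nat_lit 0, nat_lit 109, nat_lit 0, nat_lit 0, [nat_lit 780800001, nat_lit 1042800000], [], [nat_lit 27636076758, nat_lit 28744155232, nat_lit 29319169902, nat_lit 30337415962, nat_lit 28189711623, nat_lit 29050328887, nat_lit 29508037225, nat_lit 30440057559], nat_lit 0, nat_lit 0, nat_lit 0, nat_lit 0, nat_lit 0, nat_lit 0, [], [nat_lit 66, nat_lit 40, nat_lit 40, nat_lit 80, nat_lit 67, nat_lit 260, nat_lit 50, nat_lit 12]⟩, C1.Rw.none,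
 ⟨nat_lit 0, nat_lit 2237, ⟨.ofNat (nat_lit 864705), .ofNat (nat_lit 910316), .ofNat (nat_lit 887481), .ofNat (nat_lit 933091), .ofNat (nat_lit 849998), .ofNat (nat_lit 889996), .ofNat (nat_lit 874999), .ofNat (nat_lit 914997)⟩, ⟨.ofNat (nat_lit 146756), .ofNat (nat_lit 266484), .ofNat (nat_lit 192306), .ofNat (nat_lit 312035), .ofNat (nat_lit 149997), .ofNat (nat_lit 254993), .ofNat (nat_lit 199999), .ofNat (nat_lit 304995)⟩⟩, [⟨nat_lit 13, nat_lit 61, nat_lit 47, nat_lit 100, nat_lit 334780317⟩, ⟨nat_lit 16, nat_lit 44, nat_lit 100, nat_lit 82, nat_lit 98679171⟩]⟩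
noncomputable def p126_l157 : Lf2 := ⟨nat_lit 0, nat_lit 10, [nat_lit 0, nat_lit 5, nat_lit 5, nat_lit 20], true, nat_lit 0, nat_lit 200, nat_lit 0, nat_lit 260, ⟨nat_lit 0, nat_lit 1000, nat_lit 0, nat_lit 8, nat_lit 315, nat_lit 1000, nat_lit 67, nat_lit 0, nat_lit 0, nat_lit 0, nat_lit 0, nat_lit 0, nat_lit 0, nat_lit 0, nat_lit 0, nat_lit 5000000, true, false⟩,
 nat_lit 0, nat_lit 0, nat_lit 0, nat_lit 0, nat_lit 3141, nat_lit 0, nat_lit 0, nat_lit 0, nat_lit 0, nat_lit 0, nat_lit 0, nat_lit 0, nat_lit 0, nat_lit 0, nat_lit 0, nat_lit 250000, nat_lit 0, nat_lit 0, [(nat_lit 24, [(nat_lit 0, nat_lit 1000)]), (nat_lit 27, [(nat_lit 0, nat_lit 1000)])],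
 ⟨p126_k34, nat_lit 0, nat_lit 0, nat_lit 178, nat_lit 0, nat_lit 0, [nat_lit 780800001, nat_lit 1367200000, nat_lit 1705600000], [], [nat_lit 23005258661, nat_lit 25461478360, nat_lit 32098651172, nat_lit 34302933716, nat_lit 24027697271, nat_lit 25991653775, nat_lit 30227688317, nat_lit 32077158580], nat_lit 0, nat_lit 0, nat_lit 0, nat_lit 0, nat_lit 0, nat_lit 0, [], [nat_lit 35, nat_lit 40, nat_lit 40, nat_lit 80, nat_lit 22, nat_lit 260, nat_lit 50, nat_lit 11]⟩, C1.Rw.none,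
 ⟨nat_lit 0, nat_lit 3163, ⟨.ofNat (nat_lit 625100), .ofNat (nat_lit 937693), .ofNat (nat_lit 645949), .ofNat (nat_lit 959849), .ofNat (nat_lit 642170), .ofNat (nat_lit 899997), .ofNat (nat_lit 665865), .ofNat (nat_lit 924998)⟩, ⟨.ofNat (nat_lit 0), .ofNat (nat_lit 322753), .ofNat (nat_lit 0), .ofNat (nat_lit 367065), .ofNat (nat_lit 0), .ofNat (nat_lit 299993), .ofNat (nat_lit 0), .ofNat (nat_lit 349995)⟩⟩, [⟨nat_lit 13, nat_lit 84, nat_lit 21, nat_lit 100, nat_lit 287001301⟩]⟩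
noncomputable def b_V_900_800_10_0 : St := ⟨true, nat_lit 0, nat_lit 2, nat_lit 0, nat_lit 80, nat_lit 360, nat_lit 400, nat_lit 320, nat_lit 340, nat_lit 200, nat_lit 400, nat_lit 40, nat_lit 80, nat_lit 0, nat_lit 200, nat_lit 0, nat_lit 260, nat_lit 0, nat_lit 40, nat_lit 0, nat_lit 0, nat_lit 0, nat_lit 0⟩
theorem d_V_900_800_10_0 (h : EB TB.env) : Dead b_V_900_800_10_0 := chkB_sound0 h (T :=
(.gv
(.st (nat_lit 1)
(.leaf p126_l134)
(.spl (nat_lit 2) (nat_lit 320)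
(.spl (nat_lit 4) (nat_lit 80)
(.leaf p126_l135)
(.leaf p126_l136))
(.spl (nat_lit 4) (nat_lit 80)
(.spl (nat_lit 2) (nat_lit 360)
(.spl (nat_lit 1) (nat_lit 330)
(.spl (nat_lit 6) (nat_lit 20)
(.leaf p126_l137)
(.spl (nat_lit 0) (nat_lit 380)
(.leaf p126_l138)
(.leaf p126_l139)))
(.trX (nat_lit 19) (nat_lit 78) (nat_lit 100) (nat_lit 82) (nat_lit 244) (.spl (nat_lit 0) (nat_lit 380)
(.leaf p126_l140)
(.leaf p126_l141))))
(.trX (nat_lit 22) (nat_lit 60) (nat_lit 100) (nat_lit 80) (nat_lit 200) (.spl (nat_lit 1) (nat_lit 330)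
(.trX (nat_lit 13) (nat_lit 79) (nat_lit 29) (nat_lit 100) (nat_lit 396) (.spl (nat_lit 6) (nat_lit 20)
(.spl (nat_lit 0) (nat_lit 380)
(.leaf p126_l142)
(.trX (nat_lit 13) (nat_lit 57) (nat_lit 53) (nat_lit 100) (nat_lit 384) (.leaf p126_l143)))
(.spl (nat_lit 0) (nat_lit 380)
(.spl (nat_lit 0) (nat_lit 370)
(.leaf p126_l144)
(.trX (nat_lit 13) (nat_lit 69) (nat_lit 40) (nat_lit 100) (nat_lit 392) (.leaf p126_l145)))
(.trX (nat_lit 13) (nat_lit 57) (nat_lit 53) (nat_lit 100) (nat_lit 384) (.leaf p126_l146)))))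
(.spl (nat_lit 0) (nat_lit 380)
(.leaf p126_l147)
(.trX (nat_lit 13) (nat_lit 61) (nat_lit 47) (nat_lit 100) (nat_lit 392) (.leaf p126_l148))))))
(.spl (nat_lit 2) (nat_lit 360)
(.spl (nat_lit 1) (nat_lit 330)
(.leaf p126_l149)
(.trX (nat_lit 19) (nat_lit 78) (nat_lit 100) (nat_lit 82) (nat_lit 244) (.leaf p126_l150)))
(.trZ (nat_lit 9) (nat_lit 100) (nat_lit 75) (nat_lit 35) (nat_lit 8) (.spl (nat_lit 6) (nat_lit 20)
(.spl (nat_lit 1) (nat_lit 330)
(.trX (nat_lit 13) (nat_lit 79) (nat_lit 29) (nat_lit 100) (nat_lit 396) (.leaf p126_l151))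
(.trX (nat_lit 19) (nat_lit 78) (nat_lit 100) (nat_lit 82) (nat_lit 244) (.leaf p126_l152)))
(.spl (nat_lit 0) (nat_lit 380)
(.spl (nat_lit 1) (nat_lit 330)
(.trX (nat_lit 13) (nat_lit 79) (nat_lit 29) (nat_lit 100) (nat_lit 396) (.spl (nat_lit 0) (nat_lit 370)
(.leaf p126_l153)
(.trX (nat_lit 13) (nat_lit 69) (nat_lit 40) (nat_lit 100) (nat_lit 392) (.trX (nat_lit 16) (nat_lit 53) (nat_lit 100) (nat_lit 80) (nat_lit 184) (.leaf p126_l154)))))
(.trX (nat_lit 19) (nat_lit 78) (nat_lit 100) (nat_lit 82) (nat_lit 244) (.leaf p126_l155)))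
(.trX (nat_lit 13) (nat_lit 61) (nat_lit 47) (nat_lit 100) (nat_lit 392) (.trX (nat_lit 16) (nat_lit 44) (nat_lit 100) (nat_lit 82) (nat_lit 164) (.leaf p126_l156))))))))))
(.leaf p126_l157))) (by decide +kernel)

end B2
end Pool.Agent.Lib.MP_6947cd_al
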