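import Pool.Agent.Lib.MP_6947cd_al.ZB.Pre

/-!
Problem MP_6947cd_al (Chollet).  Case B, second entry in [2/5, 17/20]: certificates of the tree, part P127 (generated).
-/

set_option autoImplicit false
set_option linter.all false

namespace Pool.Agent.Lib.MP_6947cd_al
namespace B2

open Ent Fr B1 PkA

noncomputable def p127_k0 : C1.Kn := ⟨[nat_lit 20, nat_lit 60, nat_lit 80], [nat_lit 0, nat_lit 0, nat_lit 1613], [(nat_lit 0, nat_lit 0, nat_lit 0), (nat_lit 0, nat_lit 0, nat_lit 0), (nat_lit 1000, nat_lit 614, nat_lit 668)], (nat_lit 63, nat_lit 100, nat_lit 62)⟩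
noncomputable def p127_k1 : C1.Kn := ⟨[nat_lit 40, nat_lit 80, nat_lit 100], [nat_lit 0, nat_lit 0, nat_lit 1280], [(nat_lit 0, nat_lit 0, nat_lit 0), (nat_lit 0, nat_lit 0, nat_lit 0), (nat_lit 1000, nat_lit 800, nat_lit 600)], (nat_lit 80, nat_lit 100, nat_lit 60)⟩
noncomputable def p127_k2 : C1.Kn := ⟨[nat_lit 40, nat_lit 80, nat_lit 100], [nat_lit 0, nat_lit 395, nat_lit 1536], [(nat_lit 0, nat_lit 0, nat_lit 0), (nat_lit 1000, nat_lit 908, nat_lit 154), (nat_lit 1000, nat_lit 760, nat_lit 642)], (nat_lit 76, nat_lit 100, nat_lit 60)⟩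
noncomputable def p127_k3 : C1.Kn := ⟨[nat_lit 20, nat_lit 60, nat_lit 80], [nat_lit 0, nat_lit 698, nat_lit 2008], [(nat_lit 0, nat_lit 0, nat_lit 0), (nat_lit 1000, nat_lit 782, nat_lit 272), (nat_lit 1000, nat_lit 540, nat_lit 733)], (nat_lit 57, nat_lit 100, nat_lit 64)⟩
noncomputable def p127_k4 : C1.Kn := ⟨[nat_lit 20, nat_lit 60], [nat_lit 0, nat_lit 1415], [(nat_lit 0, nat_lit 0, nat_lit 0), (nat_lit 1000, nat_lit 558, nat_lit 551)], (nat_lit 49, nat_lit 100, nat_lit 68)⟩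
noncomputable def p127_k5 : C1.Kn := ⟨[nat_lit 20, nat_lit 60, nat_lit 100], [nat_lit 0, nat_lit 0, nat_lit 2559], [(nat_lit 0, nat_lit 0, nat_lit 0), (nat_lit 0, nat_lit 0, nat_lit 0), (nat_lit 1000, nat_lit 600, nat_lit 787)], (nat_lit 61, nat_lit 100, nat_lit 72)⟩
noncomputable def p127_k6 : C1.Kn := ⟨[nat_lit 40, nat_lit 80, nat_lit 120], [nat_lit 0, nat_lit 0, nat_lit 2151], [(nat_lit 0, nat_lit 0, nat_lit 0), (nat_lit 0, nat_lit 0, nat_lit 0), (nat_lit 1000, nat_lit 815, nat_lit 753)], (nat_lit 81, nat_lit 100, nat_lit 72)⟩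
noncomputable def p127_k7 : C1.Kn := ⟨[nat_lit 20, nat_lit 60, nat_lit 80], [nat_lit 0, nat_lit 698, nat_lit 2008], [(nat_lit 0, nat_lit 0, nat_lit 0), (nat_lit 1000, nat_lit 782, nat_lit 272), (nat_lit 1000, nat_lit 540, nat_lit 733)], (nat_lit 54, nat_lit 100, nat_lit 73)⟩
noncomputable def p127_k8 : C1.Kn := ⟨[nat_lit 20, nat_lit 60, nat_lit 100], [nat_lit 0, nat_lit 0, nat_lit 2559], [(nat_lit 0, nat_lit 0, nat_lit 0), (nat_lit 0, nat_lit 0, nat_lit 0), (nat_lit 1000, nat_lit 600, nat_lit 787)], (nat_lit 60, nat_lit 100, nat_lit 80)⟩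
noncomputable def p127_k9 : C1.Kn := ⟨[nat_lit 40, nat_lit 80, nat_lit 140], [nat_lit 0, nat_lit 0, nat_lit 3199], [(nat_lit 0, nat_lit 0, nat_lit 0), (nat_lit 0, nat_lit 0, nat_lit 0), (nat_lit 1000, nat_lit 833, nat_lit 833)], (nat_lit 83, nat_lit 100, nat_lit 83)⟩
noncomputable def p127_k10 : C1.Kn := ⟨[nat_lit 40, nat_lit 80, nat_lit 140], [nat_lit 0, nat_lit 395, nat_lit 3500], [(nat_lit 0, nat_lit 0, nat_lit 0), (nat_lit 1000, nat_lit 908, nat_lit 154), (nat_lit 1000, nat_lit 776, nat_lit 808)], (nat_lit 78, nat_lit 100, nat_lit 82)⟩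
noncomputable def p127_k11 : C1.Kn := ⟨[nat_lit 20, nat_lit 60, nat_lit 100], [nat_lit 0, nat_lit 1415, nat_lit 3591], [(nat_lit 0, nat_lit 0, nat_lit 0), (nat_lit 1000, nat_lit 558, nat_lit 551), (nat_lit 1000, nat_lit 439, nat_lit 849)], (nat_lit 44, nat_lit 100, nat_lit 82)⟩
noncomputable def p127_k12 : C1.Kn := ⟨[nat_lit 20, nat_lit 60, nat_lit 80], [nat_lit 0, nat_lit 2136, nat_lit 3185], [(nat_lit 0, nat_lit 0, nat_lit 0), (nat_lit 1000, nat_lit 343, nat_lit 808), (nat_lit 1000, nat_lit 338, nat_lit 820)], (nat_lit 33, nat_lit 100, nat_lit 84)⟩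
noncomputable def p127_k13 : C1.Kn := ⟨[nat_lit 20, nat_lit 60, nat_lit 80], [nat_lit 0, nat_lit 1056, nat_lit 2244], [(nat_lit 0, nat_lit 0, nat_lit 0), (nat_lit 1000, nat_lit 671, nat_lit 411), (nat_lit 1000, nat_lit 495, nat_lit 771)], (nat_lit 50, nat_lit 100, nat_lit 74)⟩
noncomputable def p127_k14 : C1.Kn := ⟨[nat_lit 40, nat_lit 80, nat_lit 120], [nat_lit 0, nat_lit 395, nat_lit 2466], [(nat_lit 0, nat_lit 0, nat_lit 0), (nat_lit 1000, nat_lit 908, nat_lit 154), (nat_lit 1000, nat_lit 773, nat_lit 792)], (nat_lit 76, nat_lit 100, nat_lit 72)⟩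
noncomputable def p127_k15 : C1.Kn := ⟨[nat_lit 20, nat_lit 60, nat_lit 80], [nat_lit 0, nat_lit 1415, nat_lit 2514], [(nat_lit 0, nat_lit 0, nat_lit 0), (nat_lit 1000, nat_lit 558, nat_lit 551), (nat_lit 1000, nat_lit 446, nat_lit 804)], (nat_lit 46, nat_lit 100, nat_lit 75)⟩
noncomputable def p127_k16 : C1.Kn := ⟨[nat_lit 20, nat_lit 60], [nat_lit 0, nat_lit 2136], [(nat_lit 0, nat_lit 0, nat_lit 0), (nat_lit 1000, nat_lit 343, nat_lit 808)], (nat_lit 35, nat_lit 100, nat_lit 80)⟩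
noncomputable def p127_k17 : C1.Kn := ⟨[nat_lit 20, nat_lit 60], [nat_lit 0, nat_lit 2600], [(nat_lit 0, nat_lit 0, nat_lit 0), (nat_lit 1000, nat_lit 245, nat_lit 872)], (nat_lit 26, nat_lit 100, nat_lit 84)⟩
noncomputable def p127_k18 : C1.Kn := ⟨[nat_lit 20, nat_lit 60, nat_lit 80], [nat_lit 0, nat_lit 1776, nat_lit 2828], [(nat_lit 0, nat_lit 0, nat_lit 0), (nat_lit 1000, nat_lit 445, nat_lit 693), (nat_lit 1000, nat_lit 394, nat_lit 822)], (nat_lit 39, nat_lit 100, nat_lit 83)⟩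
noncomputable def p127_k19 : C1.Kn := ⟨[nat_lit 20, nat_lit 60], [nat_lit 0, nat_lit 2600], [(nat_lit 0, nat_lit 0, nat_lit 0), (nat_lit 1000, nat_lit 245, nat_lit 872)], (nat_lit 24, nat_lit 100, nat_lit 88)⟩
noncomputable def p127_k20 : C1.Kn := ⟨[nat_lit 20, nat_lit 60, nat_lit 100], [nat_lit 0, nat_lit 698, nat_lit 3028], [(nat_lit 0, nat_lit 0, nat_lit 0), (nat_lit 1000, nat_lit 782, nat_lit 272), (nat_lit 1000, nat_lit 527, nat_lit 841)], (nat_lit 53, nat_lit 100, nat_lit 80)⟩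
noncomputable def p127_k21 : C1.Kn := ⟨[nat_lit 20, nat_lit 60, nat_lit 100], [nat_lit 0, nat_lit 339, nat_lit 2783], [(nat_lit 0, nat_lit 0, nat_lit 0), (nat_lit 1000, nat_lit 894, nat_lit 132), (nat_lit 1000, nat_lit 565, nat_lit 820)], (nat_lit 57, nat_lit 100, nat_lit 73)⟩
noncomputable def p127_k22 : C1.Kn := ⟨[nat_lit 20, nat_lit 60, nat_lit 100], [nat_lit 0, nat_lit 1056, nat_lit 3301], [(nat_lit 0, nat_lit 0, nat_lit 0), (nat_lit 1000, nat_lit 671, nat_lit 411), (nat_lit 1000, nat_lit 484, nat_lit 867)], (nat_lit 49, nat_lit 100, nat_lit 81)⟩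
noncomputable def p127_k23 : C1.Kn := ⟨[nat_lit 40, nat_lit 80, nat_lit 140], [nat_lit 0, nat_lit 192, nat_lit 3351], [(nat_lit 0, nat_lit 0, nat_lit 0), (nat_lit 1000, nat_lit 955, nat_lit 75), (nat_lit 1000, nat_lit 805, nat_lit 822)], (nat_lit 81, nat_lit 100, nat_lit 83)⟩
noncomputable def p127_k24 : C1.Kn := ⟨[nat_lit 20, nat_lit 100], [nat_lit 0, nat_lit 0], [(nat_lit 0, nat_lit 0, nat_lit 0), (nat_lit 0, nat_lit 0, nat_lit 0)], (nat_lit 60, nat_lit 100, nat_lit 80)⟩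
noncomputable def p127_k25 : C1.Kn := ⟨[nat_lit 40, nat_lit 140], [nat_lit 0, nat_lit 0], [(nat_lit 0, nat_lit 0, nat_lit 0), (nat_lit 0, nat_lit 0, nat_lit 0)], (nat_lit 83, nat_lit 100, nat_lit 83)⟩
noncomputable def p127_l0 : Lf2 := ⟨nat_lit 0, nat_lit 10, [nat_lit 0, nat_lit 5, nat_lit 5, nat_lit 20], false, nat_lit 0, nat_lit 200, nat_lit 0, nat_lit 160, ⟨nat_lit 784, nat_lit 0, nat_lit 216, nat_lit 8, nat_lit 314, nat_lit 216, nat_lit 69, nat_lit 216, nat_lit 43350, nat_lit 266, nat_lit 614104, nat_lit 200, nat_lit 41466052, nat_lit 0, nat_lit 0, nat_lit 3323008, true, false⟩,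
 nat_lit 0, nat_lit 4789, nat_lit 0, nat_lit 0, nat_lit 4171, nat_lit 4502, nat_lit 146, nat_lit 0, nat_lit 0, nat_lit 484, nat_lit 0, nat_lit 0, nat_lit 0, nat_lit 0, nat_lit 0, nat_lit 216000, nat_lit 0, nat_lit 0, [(nat_lit 24, [(nat_lit 6, nat_lit 216)])],
 ⟨p127_k0, nat_lit 0, nat_lit 0, nat_lit 666, nat_lit 0, nat_lit 1507068, [nat_lit 1027164801, nat_lit 2089449600, nat_lit 2618028800], [], [nat_lit 31857643512, nat_lit 32492745322, nat_lit 35764433322, nat_lit 36230092503, nat_lit 31737826732, nat_lit 32269576295, nat_lit 34987421984, nat_lit 35479240430], nat_lit 1271250, nat_lit 1271250, nat_lit 1271250, nat_lit 1271250, nat_lit 0, nat_lit 1412500, [nat_lit 230000, nat_lit 780000, nat_lit 1100000], [nat_lit 35, nat_lit 40, nat_lit 40, nat_lit 80, nat_lit 22, nat_lit 289, nat_lit 50, nat_lit 12]⟩, ⟨p127_k1, nat_lit 0, nat_lit 0, nat_lit 172, nat_lit 0, nat_lit 0, [nat_lit 1593088000, nat_lit 3675392000,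 nat_lit 4900000000], [], [nat_lit 19072924480, nat_lit 19702592640, nat_lit 28975001105, nat_lit 29503579662, nat_lit 17127542032, nat_lit 17691383904, nat_lit 24506556785, nat_lit 24849956308], nat_lit 0, nat_lit 0, nat_lit 0, nat_lit 0, nat_lit 0, nat_lit 0, [], [nat_lit 6, nat_lit 40, nat_lit 40, nat_lit 80, nat_lit 3, nat_lit 249, nat_lit 40, nat_lit 9]⟩,
 ⟨nat_lit 2236, nat_lit 3163, ⟨.ofNat (nat_lit 632548), .ofNat (nat_lit 931599), .ofNat (nat_lit 643594), .ofNat (nat_lit 942677), .ofNat (nat_lit 636264), .ofNat (nat_lit 916020), .ofNat (nat_lit 647620), .ofNat (nat_lit 927408)⟩, ⟨.ofNat (nat_lit 0), .ofNat (nat_lit 322759), .ofNat (nat_lit 0), .ofNat (nat_lit 367069), .ofNat (nat_lit 0), .ofNat (nat_lit 317804), .ofNat (nat_lit 0), .ofNat (nat_lit 363353)⟩⟩, [⟨nat_lit 16, nat_lit 54, nat_lit 100, nat_lit 73, nat_lit 286547014⟩]⟩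
noncomputable def p127_l1 : Lf2 := ⟨nat_lit 0, nat_lit 10, [nat_lit 0, nat_lit 5, nat_lit 5, nat_lit 20], false, nat_lit 0, nat_lit 200, nat_lit 0, nat_lit 160, ⟨nat_lit 781, nat_lit 0, nat_lit 219, nat_lit 8, nat_lit 323, nat_lit 219, nat_lit 69, nat_lit 219, nat_lit 43350, nat_lit 266, nat_lit 648450, nat_lit 200, nat_lit 40545807, nat_lit 0, nat_lit 0, nat_lit 3354316, true, false⟩,
 nat_lit 0, nat_lit 4814, nat_lit 0, nat_lit 0, nat_lit 4192, nat_lit 3837, nat_lit 120, nat_lit 0, nat_lit 0, nat_lit 1261, nat_lit 0, nat_lit 0, nat_lit 0, nat_lit 0, nat_lit 0, nat_lit 219000, nat_lit 0, nat_lit 0, [(nat_lit 24, [(nat_lit 6, nat_lit 219)])],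
 ⟨p127_k0, nat_lit 0, nat_lit 0, nat_lit 690, nat_lit 0, nat_lit 1577477, [nat_lit 1028403201, nat_lit 2072886400, nat_lit 2589279200], [], [nat_lit 32672442025, nat_lit 33240623104, nat_lit 36122502433, nat_lit 36550827873, nat_lit 32329086357, nat_lit 32804482914, nat_lit 35424204525, nat_lit 35895117636], nat_lit 1271250, nat_lit 1271250, nat_lit 1271250, nat_lit 1271250, nat_lit 0, nat_lit 1412500, [nat_lit 230000, nat_lit 780000, nat_lit 1100000], [nat_lit 35, nat_lit 40, nat_lit 40, nat_lit 80, nat_lit 22, nat_lit 295, nat_lit 50, nat_lit 13]⟩, ⟨p127_k2, nat_lit 0, nat_lit 0, nat_lit 176, nat_lit 0, nat_lit 0, [nat_lit 1586992000, nat_lit 3661328000, nat_lit 4881250000], [], [nat_lit 17541976548, nat_lit 18383624781, nat_lit 27829480541, nat_lit 28309033542, nat_lit 16146494577, nat_lit 16619955488, nat_lit 23905166035, nat_lit 24327894390], nat_lit 0, nat_lit 0, nat_lit 0, nat_lit 0, nat_lit 0, nat_lit 0,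 [], [nat_lit 6, nat_lit 40, nat_lit 40, nat_lit 80, nat_lit 3, nat_lit 249, nat_lit 40, nat_lit 9]⟩,
 ⟨nat_lit 2236, nat_lit 3163, ⟨.ofNat (nat_lit 661911), .ofNat (nat_lit 948772), .ofNat (nat_lit 672956), .ofNat (nat_lit 959850), .ofNat (nat_lit 664755), .ofNat (nat_lit 933109), .ofNat (nat_lit 676111), .ofNat (nat_lit 944496)⟩, ⟨.ofNat (nat_lit 0), .ofNat (nat_lit 322759), .ofNat (nat_lit 0), .ofNat (nat_lit 367069), .ofNat (nat_lit 0), .ofNat (nat_lit 317804), .ofNat (nat_lit 0), .ofNat (nat_lit 363353)⟩⟩, [⟨nat_lit 16, nat_lit 54, nat_lit 100, nat_lit 73, nat_lit 258216497⟩]⟩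
noncomputable def p127_l2 : Lf2 := ⟨nat_lit 0, nat_lit 10, [nat_lit 0, nat_lit 5, nat_lit 5, nat_lit 20], false, nat_lit 0, nat_lit 200, nat_lit 160, nat_lit 260, ⟨nat_lit 973, nat_lit 0, nat_lit 27, nat_lit 8, nat_lit 318, nat_lit 27, nat_lit 69, nat_lit 27, nat_lit 45067, nat_lit 267, nat_lit 648450, nat_lit 200, nat_lit 41059772, nat_lit 0, nat_lit 0, nat_lit 3337320, true, false⟩,
 nat_lit 0, nat_lit 6145, nat_lit 0, nat_lit 0, nat_lit 5352, nat_lit 6316, nat_lit 256, nat_lit 0, nat_lit 0, nat_lit 612, nat_lit 0, nat_lit 0, nat_lit 0, nat_lit 0, nat_lit 0, nat_lit 27000, nat_lit 0, nat_lit 0, [(nat_lit 24, [(nat_lit 6, nat_lit 27)])],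
 ⟨p127_k0, nat_lit 0, nat_lit 0, nat_lit 664, nat_lit 0, nat_lit 1507786, [nat_lit 949145600, nat_lit 3132931201, nat_lit 4429253600], [], [nat_lit 34371757129, nat_lit 34713337753, nat_lit 38807470784, nat_lit 39513744776, nat_lit 33314187817, nat_lit 33589500098, nat_lit 36450588522, nat_lit 36644026286], nat_lit 1271250, nat_lit 1271250, nat_lit 1271250, nat_lit 1271250, nat_lit 0, nat_lit 1412500, [nat_lit 230000, nat_lit 780000, nat_lit 1100000], [nat_lit 35, nat_lit 40, nat_lit 40, nat_lit 80, nat_lit 22, nat_lit 288, nat_lit 50, nat_lit 12]⟩, ⟨p127_k1, nat_lit 0, nat_lit 0, nat_lit 87, nat_lit 0, nat_lit 0, [nat_lit 1977136000, nat_lit 4561424000, nat_lit 6081250000], [], [nat_lit 18334266256, nat_lit 20018024256, nat_lit 31191474920, nat_lit 32396518710, nat_lit 21829988538, nat_lit 23303463424, nat_lit 32638149721, nat_lit 33624270995], nat_lit 0, nat_lit 0, nat_lit 0, nat_lit 0, nat_lit 0, nat_lit 0,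 [], [nat_lit 6, nat_lit 40, nat_lit 40, nat_lit 80, nat_lit 3, nat_lit 289, nat_lit 75, nat_lit 10]⟩,
 ⟨nat_lit 2738, nat_lit 3163, ⟨.ofNat (nat_lit 632856), .ofNat (nat_lit 937695), .ofNat (nat_lit 654999), .ofNat (nat_lit 959850), .ofNat (nat_lit 634431), .ofNat (nat_lit 929809), .ofNat (nat_lit 656837), .ofNat (nat_lit 952227)⟩, ⟨.ofNat (nat_lit 0), .ofNat (nat_lit 322759), .ofNat (nat_lit 0), .ofNat (nat_lit 367069), .ofNat (nat_lit 0), .ofNat (nat_lit 320659), .ofNat (nat_lit 0), .ofNat (nat_lit 365494)⟩⟩, [⟨nat_lit 16, nat_lit 57, nat_lit 100, nat_lit 73, nat_lit 191057279⟩, ⟨nat_lit 7, nat_lit 100, nat_lit 76, nat_lit 72, nat_lit 673564536⟩]⟩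
noncomputable def p127_l3 : Lf2 := ⟨nat_lit 0, nat_lit 10, [nat_lit 0, nat_lit 5, nat_lit 5, nat_lit 20], false, nat_lit 0, nat_lit 184, nat_lit 160, nat_lit 260, ⟨nat_lit 1000, nat_lit 0, nat_lit 0, nat_lit 0, nat_lit 0, nat_lit 0, nat_lit 0, nat_lit 0, nat_lit 0, nat_lit 0, nat_lit 0, nat_lit 0, nat_lit 0, nat_lit 0, nat_lit 0, nat_lit 0, false, false⟩,
 nat_lit 0, nat_lit 4641, nat_lit 0, nat_lit 0, nat_lit 4187, nat_lit 6342, nat_lit 837, nat_lit 0, nat_lit 0, nat_lit 540, nat_lit 0, nat_lit 0, nat_lit 0, nat_lit 0, nat_lit 0, nat_lit 0, nat_lit 0, nat_lit 0, [],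
 ⟨p127_k3, nat_lit 0, nat_lit 0, nat_lit 662, nat_lit 0, nat_lit 1504348, [nat_lit 938000000, nat_lit 3282000000, nat_lit 4688000000], [], [nat_lit 26973530295, nat_lit 27412484383, nat_lit 35621734831, nat_lit 36254724871, nat_lit 27451979785, nat_lit 27814082911, nat_lit 31835765229, nat_lit 32297063282], nat_lit 1271250, nat_lit 1271250, nat_lit 1271250, nat_lit 1271250, nat_lit 0, nat_lit 1299500, [nat_lit 230000, nat_lit 780000, nat_lit 1100000], [nat_lit 35, nat_lit 40, nat_lit 40, nat_lit 80, nat_lit 22, nat_lit 286, nat_lit 50, nat_lit 12]⟩, ⟨p127_k1, nat_lit 0, nat_lit 0, nat_lit 82, nat_lit 0, nat_lit 0, [nat_lit 2032000000, nat_lit 4688000000, nat_lit 6250000000], [], [nat_lit 19971430935, nat_lit 21620818791, nat_lit 31520071988, nat_lit 32763291466, nat_lit 23180384095, nat_lit 24525915097, nat_lit 33087107582, nat_lit 34105642369], nat_lit 0, nat_lit 0, nat_lit 0, nat_lit 0, nat_lit 0, nat_lit 0,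 [], [nat_lit 6, nat_lit 40, nat_lit 40, nat_lit 80, nat_lit 3, nat_lit 289, nat_lit 75, nat_lit 10]⟩,
 zbF0, [⟨nat_lit 16, nat_lit 53, nat_lit 100, nat_lit 80, nat_lit 105572714⟩, ⟨nat_lit 19, nat_lit 76, nat_lit 100, nat_lit 72, nat_lit 225355044⟩, ⟨nat_lit 19, nat_lit 83, nat_lit 100, nat_lit 83, nat_lit 223072778⟩]⟩
noncomputable def p127_l4 : Lf2 := ⟨nat_lit 0, nat_lit 10, [nat_lit 0, nat_lit 5, nat_lit 5, nat_lit 20], false, nat_lit 0, nat_lit 164, nat_lit 0, nat_lit 260, ⟨nat_lit 1000, nat_lit 0, nat_lit 0, nat_lit 0, nat_lit 0, nat_lit 0, nat_lit 0, nat_lit 0, nat_lit 0, nat_lit 0, nat_lit 0, nat_lit 0, nat_lit 0, nat_lit 0, nat_lit 0, nat_lit 0, false, false⟩,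
 nat_lit 0, nat_lit 4028, nat_lit 0, nat_lit 0, nat_lit 3763, nat_lit 6132, nat_lit 595, nat_lit 0, nat_lit 0, nat_lit 505, nat_lit 0, nat_lit 0, nat_lit 0, nat_lit 0, nat_lit 0, nat_lit 0, nat_lit 0, nat_lit 0, [],
 ⟨p127_k4, nat_lit 0, nat_lit 0, nat_lit 620, nat_lit 0, nat_lit 1567964, [nat_lit 938000000, nat_lit 3282000000], [], [nat_lit 30453219945, nat_lit 31351827783, nat_lit 35215839990, nat_lit 35893282823, nat_lit 30943328193, nat_lit 31705093039, nat_lit 34992099709, nat_lit 35573337176], nat_lit 1271250, nat_lit 1271250, nat_lit 1271250, nat_lit 1271250, nat_lit 0, nat_lit 1133651, [nat_lit 230000, nat_lit 780000], [nat_lit 66, nat_lit 40, nat_lit 40, nat_lit 80, nat_lit 67, nat_lit 275, nat_lit 50, nat_lit 15]⟩, ⟨p127_k1, nat_lit 0, nat_lit 0, nat_lit 173, nat_lit 0, nat_lit 0, [nat_lit 2032000000, nat_lit 4688000000, nat_lit 6250000000], [], [nat_lit 25774042671, nat_lit 27322990527, nat_lit 37634653194,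 nat_lit 39053903765, nat_lit 25203011304, nat_lit 26271232142, nat_lit 32572589889, nat_lit 33591000506], nat_lit 0, nat_lit 0, nat_lit 0, nat_lit 0, nat_lit 0, nat_lit 0, [], [nat_lit 6, nat_lit 40, nat_lit 40, nat_lit 80, nat_lit 3, nat_lit 289, nat_lit 75, nat_lit 10]⟩,
 zbF0, [⟨nat_lit 4, nat_lit 100, nat_lit 35, nat_lit 80, nat_lit 566743382⟩, ⟨nat_lit 7, nat_lit 100, nat_lit 76, nat_lit 72, nat_lit 120264414⟩]⟩
noncomputable def p127_l5 : Lf2 := ⟨nat_lit 0, nat_lit 10, [nat_lit 0, nat_lit 5, nat_lit 5, nat_lit 20], false, nat_lit 0, nat_lit 200, nat_lit 0, nat_lit 260, ⟨nat_lit 704, nat_lit 296, nat_lit 0, nat_lit 8, nat_lit 315, nat_lit 296, nat_lit 67, nat_lit 0, nat_lit 0, nat_lit 0, nat_lit 0, nat_lit 0, nat_lit 41345891, nat_lit 25654109, nat_lit 0, nat_lit 3327322, true, false⟩,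
 nat_lit 5710, nat_lit 0, nat_lit 0, nat_lit 0, nat_lit 4452, nat_lit 4282, nat_lit 148, nat_lit 0, nat_lit 0, nat_lit 459, nat_lit 0, nat_lit 0, nat_lit 0, nat_lit 0, nat_lit 0, nat_lit 296000, nat_lit 0, nat_lit 0, [(nat_lit 24, [(nat_lit 2, nat_lit 296)]), (nat_lit 27, [(nat_lit 2, nat_lit 296)])],
 ⟨p127_k0, nat_lit 0, nat_lit 0, nat_lit 449, nat_lit 0, nat_lit 929726, [nat_lit 1094880000, nat_lit 2170579200, nat_lit 2681356800], [], [nat_lit 26643259228, nat_lit 28693253024, nat_lit 36076607984, nat_lit 38648998352, nat_lit 26516291688, nat_lit 28068599472, nat_lit 32010681968, nat_lit 34142481760], nat_lit 1271250, nat_lit 1271250, nat_lit 1271250, nat_lit 1271250, nat_lit 0, nat_lit 1412500, [nat_lit 230000, nat_lit 780000, nat_lit 1100000], [nat_lit 35, nat_lit 40, nat_lit 40, nat_lit 80, nat_lit 22, nat_lit 260, nat_lit 50, nat_lit 11]⟩, ⟨p127_k1, nat_lit 0, nat_lit 0, nat_lit 558, nat_lit 0, nat_lit 1108855,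 [nat_lit 1430528000, nat_lit 3300352000, nat_lit 4400000000], [], [nat_lit 23714390568, nat_lit 24240207972, nat_lit 27538092344, nat_lit 27918752304, nat_lit 23067484544, nat_lit 23430985787, nat_lit 25573198204, nat_lit 25829400259], nat_lit 1271250, nat_lit 1271250, nat_lit 1271250, nat_lit 1271250, nat_lit 0, nat_lit 1836250, [nat_lit 490000, nat_lit 1100000, nat_lit 1442500], [nat_lit 6, nat_lit 40, nat_lit 40, nat_lit 80, nat_lit 3, nat_lit 289, nat_lit 75, nat_lit 10]⟩,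
 ⟨nat_lit 0, nat_lit 3163, ⟨.ofNat (nat_lit 625100), .ofNat (nat_lit 937693), .ofNat (nat_lit 645949), .ofNat (nat_lit 959849), .ofNat (nat_lit 642170), .ofNat (nat_lit 899997), .ofNat (nat_lit 665865), .ofNat (nat_lit 924998)⟩, ⟨.ofNat (nat_lit 0), .ofNat (nat_lit 322753), .ofNat (nat_lit 0), .ofNat (nat_lit 367065), .ofNat (nat_lit 0), .ofNat (nat_lit 299993), .ofNat (nat_lit 0), .ofNat (nat_lit 349995)⟩⟩, [⟨nat_lit 16, nat_lit 46, nat_lit 100, nat_lit 75, nat_lit 252943169⟩, ⟨nat_lit 7, nat_lit 100, nat_lit 76, nat_lit 72, nat_lit 146667444⟩]⟩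
noncomputable def p127_l6 : Lf2 := ⟨nat_lit 0, nat_lit 10, [nat_lit 0, nat_lit 5, nat_lit 5, nat_lit 20], false, nat_lit 0, nat_lit 200, nat_lit 0, nat_lit 160, ⟨nat_lit 719, nat_lit 281, nat_lit 0, nat_lit 8, nat_lit 318, nat_lit 281, nat_lit 69, nat_lit 0, nat_lit 0, nat_lit 0, nat_lit 0, nat_lit 0, nat_lit 0, nat_lit 0, nat_lit 0, nat_lit 5000000, true, false⟩,
 nat_lit 0, nat_lit 4996, nat_lit 0, nat_lit 0, nat_lit 4350, nat_lit 4008, nat_lit 133, nat_lit 0, nat_lit 0, nat_lit 445, nat_lit 0, nat_lit 0, nat_lit 0, nat_lit 0, nat_lit 0, nat_lit 281000, nat_lit 0, nat_lit 0, [(nat_lit 24, [(nat_lit 2, nat_lit 281)])],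
 ⟨p127_k0, nat_lit 0, nat_lit 0, nat_lit 664, nat_lit 0, nat_lit 1507786, [nat_lit 1086930000, nat_lit 2226901200, nat_lit 2783044800], [], [nat_lit 32235594475, nat_lit 32552288425, nat_lit 36180831800, nat_lit 36413557900, nat_lit 31912597375, nat_lit 32180183775, nat_lit 35254142900, nat_lit 35457978200], nat_lit 1271250, nat_lit 1271250, nat_lit 1271250, nat_lit 1271250, nat_lit 0, nat_lit 1412500, [nat_lit 230000, nat_lit 780000, nat_lit 1100000], [nat_lit 35, nat_lit 40, nat_lit 40, nat_lit 80, nat_lit 22, nat_lit 288, nat_lit 50, nat_lit 12]⟩, ⟨p127_k1, nat_lit 0, nat_lit 0, nat_lit 176, nat_lit 0, nat_lit 0, [nat_lit 1461008000, nat_lit 3370672000, nat_lit 4493750000], [], [nat_lit 17608057648, nat_lit 18743141554, nat_lit 26509360280, nat_lit 27448575738, nat_lit 15940092464, nat_lit 16960796880, nat_lit 22791152440, nat_lit 23405108924], nat_lit 0, nat_lit 0, nat_lit 0, nat_lit 0, nat_lit 0, nat_lit 0,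 [], [nat_lit 6, nat_lit 40, nat_lit 40, nat_lit 80, nat_lit 3, nat_lit 249, nat_lit 40, nat_lit 9]⟩,
 ⟨nat_lit 2738, nat_lit 3163, ⟨.ofNat (nat_lit 632856), .ofNat (nat_lit 937695), .ofNat (nat_lit 654999), .ofNat (nat_lit 959850), .ofNat (nat_lit 634431), .ofNat (nat_lit 929809), .ofNat (nat_lit 656837), .ofNat (nat_lit 952227)⟩, ⟨.ofNat (nat_lit 0), .ofNat (nat_lit 322759), .ofNat (nat_lit 0), .ofNat (nat_lit 367069), .ofNat (nat_lit 0), .ofNat (nat_lit 320659), .ofNat (nat_lit 0), .ofNat (nat_lit 365494)⟩⟩, [⟨nat_lit 16, nat_lit 57, nat_lit 100, nat_lit 73, nat_lit 256936162⟩]⟩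
noncomputable def p127_l7 : Lf2 := ⟨nat_lit 0, nat_lit 10, [nat_lit 0, nat_lit 5, nat_lit 5, nat_lit 20], false, nat_lit 0, nat_lit 184, nat_lit 0, nat_lit 160, ⟨nat_lit 1000, nat_lit 0, nat_lit 0, nat_lit 0, nat_lit 0, nat_lit 0, nat_lit 0, nat_lit 0, nat_lit 0, nat_lit 0, nat_lit 0, nat_lit 0, nat_lit 0, nat_lit 0, nat_lit 0, nat_lit 0, false, false⟩,
 nat_lit 0, nat_lit 4207, nat_lit 0, nat_lit 0, nat_lit 3796, nat_lit 5703, nat_lit 848, nat_lit 0, nat_lit 0, nat_lit 441, nat_lit 0, nat_lit 0, nat_lit 0, nat_lit 0, nat_lit 0, nat_lit 0, nat_lit 0, nat_lit 0, [],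
 ⟨p127_k3, nat_lit 0, nat_lit 0, nat_lit 662, nat_lit 0, nat_lit 1504348, [nat_lit 938000000, nat_lit 3282000000, nat_lit 4688000000], [], [nat_lit 29610154660, nat_lit 30030731983, nat_lit 34707101787, nat_lit 35028575089, nat_lit 30317059116, nat_lit 30665192785, nat_lit 34619098561, nat_lit 34888335291], nat_lit 1271250, nat_lit 1271250, nat_lit 1271250, nat_lit 1271250, nat_lit 0, nat_lit 1299500, [nat_lit 230000, nat_lit 780000, nat_lit 1100000], [nat_lit 35, nat_lit 40, nat_lit 40, nat_lit 80, nat_lit 22, nat_lit 286, nat_lit 50, nat_lit 12]⟩, ⟨p127_k1, nat_lit 0, nat_lit 0, nat_lit 174, nat_lit 0, nat_lit 0, [nat_lit 2032000000, nat_lit 4688000000, nat_lit 6250000000], [], [nat_lit 25675949010, nat_lit 27224906514, nat_lit 36849427292, nat_lit 38193063301, nat_lit 23135822487, nat_lit 24435059530, nat_lit 31352377236, nat_lit 32179957461], nat_lit 0, nat_lit 0, nat_lit 0, nat_lit 0, nat_lit 0, nat_lit 0,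 [], [nat_lit 6, nat_lit 40, nat_lit 40, nat_lit 80, nat_lit 3, nat_lit 249, nat_lit 40, nat_lit 9]⟩,
 zbF0, [⟨nat_lit 16, nat_lit 50, nat_lit 100, nat_lit 74, nat_lit 458326213⟩]⟩
noncomputable def p127_l8 : Lf2 := ⟨nat_lit 0, nat_lit 10, [nat_lit 0, nat_lit 5, nat_lit 5, nat_lit 20], false, nat_lit 0, nat_lit 200, nat_lit 160, nat_lit 260, ⟨nat_lit 744, nat_lit 256, nat_lit 0, nat_lit 8, nat_lit 318, nat_lit 256, nat_lit 69, nat_lit 0, nat_lit 0, nat_lit 0, nat_lit 0, nat_lit 0, nat_lit 0, nat_lit 0, nat_lit 0, nat_lit 5000000, true, false⟩,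
 nat_lit 0, nat_lit 5168, nat_lit 0, nat_lit 0, nat_lit 4501, nat_lit 4058, nat_lit 162, nat_lit 0, nat_lit 0, nat_lit 1216, nat_lit 0, nat_lit 0, nat_lit 0, nat_lit 0, nat_lit 0, nat_lit 256000, nat_lit 0, nat_lit 0, [(nat_lit 24, [(nat_lit 2, nat_lit 256)])],
 ⟨p127_k0, nat_lit 0, nat_lit 0, nat_lit 664, nat_lit 0, nat_lit 1507786, [nat_lit 1073680001, nat_lit 2320771200, nat_lit 2952524800], [], [nat_lit 32057185112, nat_lit 32384178900, nat_lit 36225288292, nat_lit 36871825488, nat_lit 31709343032, nat_lit 31980919059, nat_lit 34898982358, nat_lit 35089042078], nat_lit 1271250, nat_lit 1271250, nat_lit 1271250, nat_lit 1271250, nat_lit 0, nat_lit 1412500, [nat_lit 230000, nat_lit 780000, nat_lit 1100000], [nat_lit 35, nat_lit 40, nat_lit 40, nat_lit 80, nat_lit 22, nat_lit 288, nat_lit 50, nat_lit 12]⟩, ⟨p127_k1, nat_lit 0, nat_lit 0, nat_lit 87, nat_lit 0, nat_lit 0, [nat_lit 1511808000, nat_lit 3487872000,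 nat_lit 4650000000], [], [nat_lit 14700993848, nat_lit 15947409528, nat_lit 22992325536, nat_lit 23725122792, nat_lit 17346069184, nat_lit 18367036687, nat_lit 24086392290, nat_lit 24783377411], nat_lit 0, nat_lit 0, nat_lit 0, nat_lit 0, nat_lit 0, nat_lit 0, [], [nat_lit 6, nat_lit 40, nat_lit 40, nat_lit 80, nat_lit 3, nat_lit 289, nat_lit 75, nat_lit 10]⟩,
 ⟨nat_lit 2738, nat_lit 3163, ⟨.ofNat (nat_lit 632856), .ofNat (nat_lit 937695), .ofNat (nat_lit 654999), .ofNat (nat_lit 959850), .ofNat (nat_lit 634431), .ofNat (nat_lit 929809), .ofNat (nat_lit 656837), .ofNat (nat_lit 952227)⟩, ⟨.ofNat (nat_lit 0), .ofNat (nat_lit 322759), .ofNat (nat_lit 0), .ofNat (nat_lit 367069), .ofNat (nat_lit 0), .ofNat (nat_lit 320659), .ofNat (nat_lit 0), .ofNat (nat_lit 365494)⟩⟩, [⟨nat_lit 4, nat_lit 100, nat_lit 57, nat_lit 73, nat_lit 204219618⟩, ⟨nat_lit 7, nat_lit 100, nat_lit 76, nat_lit 72, nat_lit 506310945⟩]⟩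
noncomputable def p127_l9 : Lf2 := ⟨nat_lit 0, nat_lit 10, [nat_lit 0, nat_lit 5, nat_lit 5, nat_lit 20], false, nat_lit 0, nat_lit 184, nat_lit 160, nat_lit 260, ⟨nat_lit 1000, nat_lit 0, nat_lit 0, nat_lit 0, nat_lit 0, nat_lit 0, nat_lit 0, nat_lit 0, nat_lit 0, nat_lit 0, nat_lit 0, nat_lit 0, nat_lit 0, nat_lit 0, nat_lit 0, nat_lit 0, false, false⟩,
 nat_lit 0, nat_lit 4641, nat_lit 0, nat_lit 0, nat_lit 4187, nat_lit 6342, nat_lit 837, nat_lit 0, nat_lit 0, nat_lit 540, nat_lit 0, nat_lit 0, nat_lit 0, nat_lit 0, nat_lit 0, nat_lit 0, nat_lit 0, nat_lit 0, [],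
 ⟨p127_k3, nat_lit 0, nat_lit 0, nat_lit 662, nat_lit 0, nat_lit 1504348, [nat_lit 938000000, nat_lit 3282000000, nat_lit 4688000000], [], [nat_lit 26973530295, nat_lit 27412484383, nat_lit 35621734831, nat_lit 36254724871, nat_lit 27451979785, nat_lit 27814082911, nat_lit 31835765229, nat_lit 32297063282], nat_lit 1271250, nat_lit 1271250, nat_lit 1271250, nat_lit 1271250, nat_lit 0, nat_lit 1299500, [nat_lit 230000, nat_lit 780000, nat_lit 1100000], [nat_lit 35, nat_lit 40, nat_lit 40, nat_lit 80, nat_lit 22, nat_lit 286, nat_lit 50, nat_lit 12]⟩, ⟨p127_k1, nat_lit 0, nat_lit 0, nat_lit 82, nat_lit 0, nat_lit 0, [nat_lit 2032000000, nat_lit 4688000000, nat_lit 6250000000], [], [nat_lit 19971430935, nat_lit 21620818791, nat_lit 31520071988, nat_lit 32763291466, nat_lit 23180384095, nat_lit 24525915097, nat_lit 33087107582, nat_lit 34105642369], nat_lit 0, nat_lit 0, nat_lit 0, nat_lit 0, nat_lit 0, nat_lit 0,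 [], [nat_lit 6, nat_lit 40, nat_lit 40, nat_lit 80, nat_lit 3, nat_lit 289, nat_lit 75, nat_lit 10]⟩,
 zbF0, [⟨nat_lit 16, nat_lit 53, nat_lit 100, nat_lit 80, nat_lit 105572714⟩, ⟨nat_lit 19, nat_lit 76, nat_lit 100, nat_lit 72, nat_lit 225355044⟩, ⟨nat_lit 19, nat_lit 83, nat_lit 100, nat_lit 83, nat_lit 223072778⟩]⟩
noncomputable def p127_l10 : Lf2 := ⟨nat_lit 0, nat_lit 10, [nat_lit 0, nat_lit 5, nat_lit 5, nat_lit 20], false, nat_lit 0, nat_lit 164, nat_lit 0, nat_lit 260, ⟨nat_lit 1000, nat_lit 0, nat_lit 0, nat_lit 0, nat_lit 0, nat_lit 0, nat_lit 0, nat_lit 0, nat_lit 0, nat_lit 0, nat_lit 0, nat_lit 0, nat_lit 0, nat_lit 0, nat_lit 0, nat_lit 0, false, false⟩,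
 nat_lit 0, nat_lit 4028, nat_lit 0, nat_lit 0, nat_lit 3763, nat_lit 6132, nat_lit 579, nat_lit 0, nat_lit 0, nat_lit 505, nat_lit 0, nat_lit 0, nat_lit 0, nat_lit 0, nat_lit 0, nat_lit 0, nat_lit 0, nat_lit 0, [],
 ⟨p127_k4, nat_lit 0, nat_lit 0, nat_lit 620, nat_lit 0, nat_lit 1567964, [nat_lit 938000000, nat_lit 3282000000], [], [nat_lit 30523969945, nat_lit 31352402245, nat_lit 35215839990, nat_lit 35893282823, nat_lit 30943328193, nat_lit 31705093039, nat_lit 34992099709, nat_lit 35573337176], nat_lit 1271250, nat_lit 1271250, nat_lit 1271250, nat_lit 1271250, nat_lit 0, nat_lit 1133651, [nat_lit 230000, nat_lit 780000], [nat_lit 66, nat_lit 40, nat_lit 40, nat_lit 80, nat_lit 67, nat_lit 275, nat_lit 50, nat_lit 15]⟩, ⟨p127_k1, nat_lit 0, nat_lit 0, nat_lit 173, nat_lit 0, nat_lit 0, [nat_lit 2032000000, nat_lit 4688000000, nat_lit 6250000000], [], [nat_lit 25774042671, nat_lit 27322990527, nat_lit 37634653194,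 nat_lit 39053903765, nat_lit 25203011304, nat_lit 26271232142, nat_lit 32572589889, nat_lit 33591000506], nat_lit 0, nat_lit 0, nat_lit 0, nat_lit 0, nat_lit 0, nat_lit 0, [], [nat_lit 6, nat_lit 40, nat_lit 40, nat_lit 80, nat_lit 3, nat_lit 289, nat_lit 75, nat_lit 10]⟩,
 zbF0, [⟨nat_lit 4, nat_lit 100, nat_lit 35, nat_lit 80, nat_lit 566743382⟩, ⟨nat_lit 7, nat_lit 100, nat_lit 76, nat_lit 72, nat_lit 120264414⟩]⟩
noncomputable def p127_l11 : Lf2 := ⟨nat_lit 0, nat_lit 10, [nat_lit 0, nat_lit 5, nat_lit 5, nat_lit 20], false, nat_lit 0, nat_lit 200, nat_lit 0, nat_lit 260, ⟨nat_lit 556, nat_lit 444, nat_lit 0, nat_lit 8, nat_lit 315, nat_lit 444, nat_lit 67, nat_lit 0, nat_lit 0, nat_lit 0, nat_lit 0, nat_lit 0, nat_lit 0, nat_lit 0, nat_lit 0, nat_lit 5000000, true, false⟩,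
 nat_lit 4534, nat_lit 0, nat_lit 0, nat_lit 0, nat_lit 3948, nat_lit 3400, nat_lit 130, nat_lit 0, nat_lit 0, nat_lit 236, nat_lit 0, nat_lit 0, nat_lit 0, nat_lit 0, nat_lit 0, nat_lit 340200, nat_lit 0, nat_lit 0, [(nat_lit 24, [(nat_lit 1, nat_lit 173), (nat_lit 2, nat_lit 271)]), (nat_lit 27, [(nat_lit 1, nat_lit 173), (nat_lit 2, nat_lit 271)])],
 ⟨p127_k0, nat_lit 0, nat_lit 0, nat_lit 449, nat_lit 0, nat_lit 929726, [nat_lit 1066060001, nat_lit 1869201867, nat_lit 2204924000], [], [nat_lit 26939088809, nat_lit 28726900681, nat_lit 34547324816, nat_lit 36978200048, nat_lit 27364711630, nat_lit 28879741334, nat_lit 32549270028, nat_lit 33827557954], nat_lit 1271250, nat_lit 1271250, nat_lit 1271250, nat_lit 1271250, nat_lit 0, nat_lit 1412500, [nat_lit 230000, nat_lit 780000, nat_lit 1100000], [nat_lit 35, nat_lit 40, nat_lit 40, nat_lit 80, nat_lit 22, nat_lit 260, nat_lit 50, nat_lit 11]⟩, ⟨p127_k1, nat_lit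 0, nat_lit 0, nat_lit 558, nat_lit 0, nat_lit 1108855, [nat_lit 1129792000, nat_lit 2606528000, nat_lit 3475000000], [], [nat_lit 18785121488, nat_lit 19205911616, nat_lit 21673662032, nat_lit 22102520904, nat_lit 18105457004, nat_lit 18392927150, nat_lit 20102104700, nat_lit 20304450926], nat_lit 1271250, nat_lit 1271250, nat_lit 1271250, nat_lit 1271250, nat_lit 0, nat_lit 1836250, [nat_lit 490000, nat_lit 1100000, nat_lit 1442500], [nat_lit 6, nat_lit 40, nat_lit 40, nat_lit 80, nat_lit 3, nat_lit 289, nat_lit 75, nat_lit 10]⟩,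
 ⟨nat_lit 0, nat_lit 3163, ⟨.ofNat (nat_lit 625100), .ofNat (nat_lit 937693), .ofNat (nat_lit 645949), .ofNat (nat_lit 959849), .ofNat (nat_lit 642170), .ofNat (nat_lit 899997), .ofNat (nat_lit 665865), .ofNat (nat_lit 924998)⟩, ⟨.ofNat (nat_lit 0), .ofNat (nat_lit 322753), .ofNat (nat_lit 0), .ofNat (nat_lit 367065), .ofNat (nat_lit 0), .ofNat (nat_lit 299993), .ofNat (nat_lit 0), .ofNat (nat_lit 349995)⟩⟩, [⟨nat_lit 16, nat_lit 46, nat_lit 100, nat_lit 75, nat_lit 115851720⟩, ⟨nat_lit 7, nat_lit 100, nat_lit 76, nat_lit 72, nat_lit 110082708⟩]⟩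
noncomputable def b_V_900_800_10_1 : St := ⟨true, nat_lit 1, nat_lit 2, nat_lit 0, nat_lit 80, nat_lit 360, nat_lit 400, nat_lit 320, nat_lit 340, nat_lit 200, nat_lit 400, nat_lit 40, nat_lit 80, nat_lit 0, nat_lit 200, nat_lit 0, nat_lit 260, nat_lit 0, nat_lit 40, nat_lit 0, nat_lit 0, nat_lit 0, nat_lit 0⟩
theorem d_V_900_800_10_1 (h : EB TB.env) : Dead b_V_900_800_10_1 := chkB_sound0 h (T :=
(.gv
(.st (nat_lit 1)
(.spl (nat_lit 0) (nat_lit 380)
(.spl (nat_lit 5) (nat_lit 160)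
(.spl (nat_lit 1) (nat_lit 330)
(.trX (nat_lit 13) (nat_lit 79) (nat_lit 29) (nat_lit 100) (nat_lit 396) (.leaf p127_l0))
(.trZ (nat_lit 0) (nat_lit 76) (nat_lit 60) (nat_lit 100) (nat_lit 212) (.leaf p127_l1)))
(.spl (nat_lit 0) (nat_lit 370)
(.leaf p127_l2)
(.trZ (nat_lit 0) (nat_lit 80) (nat_lit 53) (nat_lit 100) (nat_lit 216) (.trX (nat_lit 13) (nat_lit 74) (nat_lit 33) (nat_lit 100) (nat_lit 396) (.trX (nat_lit 16) (nat_lit 53) (nat_lit 100) (nat_lit 80) (nat_lit 184) (.leaf p127_l3))))))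
(.trZ (nat_lit 0) (nat_lit 82) (nat_lit 44) (nat_lit 100) (nat_lit 236) (.trX (nat_lit 13) (nat_lit 61) (nat_lit 47) (nat_lit 100) (nat_lit 392) (.trX (nat_lit 16) (nat_lit 44) (nat_lit 100) (nat_lit 82) (nat_lit 164) (.leaf p127_l4)))))
(.leaf p127_l5))
(.st (nat_lit 1)
(.spl (nat_lit 0) (nat_lit 380)
(.spl (nat_lit 5) (nat_lit 160)
(.spl (nat_lit 0) (nat_lit 370)
(.leaf p127_l6)
(.trZ (nat_lit 0) (nat_lit 80) (nat_lit 53) (nat_lit 100) (nat_lit 216) (.trX (nat_lit 13) (nat_lit 74) (nat_lit 33) (nat_lit 100) (nat_lit 396) (.trX (nat_lit 16) (nat_lit 53) (nat_lit 100) (nat_lit 80) (nat_lit 184) (.leaf p127_l7)))))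
(.spl (nat_lit 0) (nat_lit 370)
(.leaf p127_l8)
(.trZ (nat_lit 0) (nat_lit 80) (nat_lit 53) (nat_lit 100) (nat_lit 216) (.trX (nat_lit 13) (nat_lit 74) (nat_lit 33) (nat_lit 100) (nat_lit 396) (.trX (nat_lit 16) (nat_lit 53) (nat_lit 100) (nat_lit 80) (nat_lit 184) (.leaf p127_l9))))))
(.trZ (nat_lit 0) (nat_lit 82) (nat_lit 44) (nat_lit 100) (nat_lit 236) (.trX (nat_lit 13) (nat_lit 61) (nat_lit 47) (nat_lit 100) (nat_lit 392) (.trX (nat_lit 16) (nat_lit 44) (nat_lit 100) (nat_lit 82) (nat_lit 164) (.leaf p127_l10)))))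
(.leaf p127_l11)))) (by decide +kernel)
noncomputable def p127_l12 : Lf2 := ⟨nat_lit 0, nat_lit 15, [nat_lit 30, nat_lit 5, nat_lit 5, nat_lit 20], false, nat_lit 0, nat_lit 80, nat_lit 0, nat_lit 232, ⟨nat_lit 148, nat_lit 852, nat_lit 0, nat_lit 8, nat_lit 294, nat_lit 852, nat_lit 31, nat_lit 0, nat_lit 0, nat_lit 0, nat_lit 0, nat_lit 0, nat_lit 43507637, nat_lit 23492363, nat_lit 0, nat_lit 3239185, true, false⟩,
 nat_lit 0, nat_lit 0, nat_lit 1464, nat_lit 0, nat_lit 2925, nat_lit 1098, nat_lit 91, nat_lit 0, nat_lit 0, nat_lit 49, nat_lit 0, nat_lit 0, nat_lit 0, nat_lit 0, nat_lit 0, nat_lit 340800, nat_lit 0, nat_lit 0, [(nat_lit 25, [(nat_lit 1, nat_lit 852)])],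
 ⟨p127_k5, nat_lit 0, nat_lit 0, nat_lit 151, nat_lit 0, nat_lit 0, [nat_lit 858593601, nat_lit 1339553600, nat_lit 1704750400], [], [nat_lit 22897769677, nat_lit 23500369652, nat_lit 26973848777, nat_lit 27458131702, nat_lit 22229666077, nat_lit 22796421327, nat_lit 26119525077, nat_lit 26577861252], nat_lit 0, nat_lit 0, nat_lit 0, nat_lit 0, nat_lit 0, nat_lit 0, [], [nat_lit 20, nat_lit 40, nat_lit 40, nat_lit 80, nat_lit 16, nat_lit 226, nat_lit 20, nat_lit 8]⟩, ⟨p127_k6, nat_lit 0, nat_lit 0, nat_lit 754, nat_lit 0, nat_lit 1396590, [nat_lit 300736000, nat_lit 693824000, nat_lit 1179264000], [], [nat_lit 4792971578, nat_lit 4877492086, nat_lit 5031107658, nat_lit 5246448320, nat_lit 4265773078, nat_lit 4322009554, nat_lit 4371813172, nat_lit 4412741034], nat_lit 1271250, nat_lit 1271250, nat_lit 1271250, nat_lit 1271250, nat_lit 0, nat_lit 1638500, [nat_lit 490000, nat_lit 1100000, nat_lit 1785000], [nat_lit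 34, nat_lit 40, nat_lit 40, nat_lit 80, nat_lit 7, nat_lit 373, nat_lit 150, nat_lit 12]⟩,
 ⟨nat_lit 2738, nat_lit 3163, ⟨.ofNat (nat_lit 632856), .ofNat (nat_lit 815772), .ofNat (nat_lit 654999), .ofNat (nat_lit 837914), .ofNat (nat_lit 634431), .ofNat (nat_lit 811670), .ofNat (nat_lit 656837), .ofNat (nat_lit 834076)⟩, ⟨.ofNat (nat_lit 0), .ofNat (nat_lit 139899), .ofNat (nat_lit 0), .ofNat (nat_lit 162054), .ofNat (nat_lit 0), .ofNat (nat_lit 143475), .ofNat (nat_lit 0), .ofNat (nat_lit 165893)⟩⟩, [⟨nat_lit 19, nat_lit 76, nat_lit 100, nat_lit 66, nat_lit 8676495⟩, ⟨nat_lit 10, nat_lit 100, nat_lit 97, nat_lit 45, nat_lit 3107175⟩]⟩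
noncomputable def p127_l13 : Lf2 := ⟨nat_lit 0, nat_lit 15, [nat_lit 30, nat_lit 5, nat_lit 5, nat_lit 20], false, nat_lit 0, nat_lit 80, nat_lit 0, nat_lit 232, ⟨nat_lit 137, nat_lit 863, nat_lit 0, nat_lit 8, nat_lit 298, nat_lit 863, nat_lit 31, nat_lit 0, nat_lit 0, nat_lit 0, nat_lit 0, nat_lit 0, nat_lit 43066929, nat_lit 23933071, nat_lit 0, nat_lit 3258979, true, false⟩,
 nat_lit 0, nat_lit 0, nat_lit 1362, nat_lit 0, nat_lit 2791, nat_lit 1021, nat_lit 112, nat_lit 0, nat_lit 0, nat_lit 57, nat_lit 0, nat_lit 0, nat_lit 0, nat_lit 0, nat_lit 0, nat_lit 215750, nat_lit 0, nat_lit 0, [(nat_lit 25, [(nat_lit 0, nat_lit 863)])],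
 ⟨p127_k7, nat_lit 0, nat_lit 0, nat_lit 139, nat_lit 0, nat_lit 0, [nat_lit 787838001, nat_lit 1630908401, nat_lit 2122818800], [], [nat_lit 23600023918, nat_lit 24210006425, nat_lit 27272658520, nat_lit 27774901505, nat_lit 22991523875, nat_lit 23565154240, nat_lit 26497479193, nat_lit 26972575067], nat_lit 0, nat_lit 0, nat_lit 0, nat_lit 0, nat_lit 0, nat_lit 0, [], [nat_lit 35, nat_lit 40, nat_lit 40, nat_lit 80, nat_lit 22, nat_lit 226, nat_lit 20, nat_lit 9]⟩, ⟨p127_k6, nat_lit 0, nat_lit 0, nat_lit 792, nat_lit 0, nat_lit 1505927, [nat_lit 278384000, nat_lit 642256000, nat_lit 1091616000], [], [nat_lit 4407129126, nat_lit 4468588959, nat_lit 4580595232, nat_lit 4866685992, nat_lit 3884733728, nat_lit 3926442937, nat_lit 3945100999, nat_lit 3975293930], nat_lit 1271250, nat_lit 1271250, nat_lit 1271250, nat_lit 1271250, nat_lit 0, nat_lit 1638500, [nat_lit 490000, nat_lit 1100000, nat_lit 1785000], [nat_lit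 34, nat_lit 40, nat_lit 40, nat_lit 80, nat_lit 7, nat_lit 373, nat_lit 150, nat_lit 12]⟩,
 ⟨nat_lit 2236, nat_lit 2739, ⟨.ofNat (nat_lit 658020), .ofNat (nat_lit 811671), .ofNat (nat_lit 680417), .ofNat (nat_lit 834068), .ofNat (nat_lit 659343), .ofNat (nat_lit 807675), .ofNat (nat_lit 682097), .ofNat (nat_lit 830429)⟩, ⟨.ofNat (nat_lit 0), .ofNat (nat_lit 143475), .ofNat (nat_lit 0), .ofNat (nat_lit 165893), .ofNat (nat_lit 0), .ofNat (nat_lit 146758), .ofNat (nat_lit 0), .ofNat (nat_lit 169532)⟩⟩, [⟨nat_lit 19, nat_lit 76, nat_lit 100, nat_lit 66, nat_lit 5624965⟩, ⟨nat_lit 10, nat_lit 100, nat_lit 95, nat_lit 49, nat_lit 850328⟩]⟩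
noncomputable def p127_l14 : Lf2 := ⟨nat_lit 0, nat_lit 20, [nat_lit 5, nat_lit 5, nat_lit 5, nat_lit 20], false, nat_lit 0, nat_lit 80, nat_lit 0, nat_lit 260, ⟨nat_lit 277, nat_lit 723, nat_lit 0, nat_lit 8, nat_lit 291, nat_lit 723, nat_lit 35, nat_lit 0, nat_lit 0, nat_lit 0, nat_lit 0, nat_lit 0, nat_lit 43764683, nat_lit 23235317, nat_lit 0, nat_lit 3227201, true, false⟩,
 nat_lit 0, nat_lit 0, nat_lit 2686, nat_lit 0, nat_lit 3236, nat_lit 2014, nat_lit 40, nat_lit 0, nat_lit 0, nat_lit 152, nat_lit 0, nat_lit 0, nat_lit 0, nat_lit 0, nat_lit 0, nat_lit 352200, nat_lit 0, nat_lit 0, [(nat_lit 25, [(nat_lit 1, nat_lit 618), (nat_lit 2, nat_lit 105)])],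
 ⟨p127_k8, nat_lit 0, nat_lit 0, nat_lit 154, nat_lit 0, nat_lit 0, [nat_lit 936094401, nat_lit 1488434401, nat_lit 1887469600], [], [nat_lit 23338391995, nat_lit 24600708339, nat_lit 27758107080, nat_lit 28928807408, nat_lit 22464894043, nat_lit 23650882683, nat_lit 26441920123, nat_lit 27395347075], nat_lit 0, nat_lit 0, nat_lit 0, nat_lit 0, nat_lit 0, nat_lit 0, [], [nat_lit 20, nat_lit 40, nat_lit 40, nat_lit 80, nat_lit 16, nat_lit 226, nat_lit 20, nat_lit 8]⟩, ⟨p127_k9, nat_lit 0, nat_lit 0, nat_lit 751, nat_lit 0, nat_lit 1249204, [nat_lit 562864000, nat_lit 1298576000, nat_lit 2726234000], [], [nat_lit 8584413280, nat_lit 8668312642, nat_lit 9294427076, nat_lit 9481481064, nat_lit 7720706881, nat_lit 7775850846, nat_lit 8017645873, nat_lit 8081091005], nat_lit 1271250, nat_lit 1271250, nat_lit 1271250, nat_lit 1271250, nat_lit 0, nat_lit 1836250, [nat_lit 490000, nat_lit 1100000, nat_lit 2127500], [nat_lit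 27, nat_lit 40, nat_lit 40, nat_lit 80, nat_lit 13, nat_lit 373, nat_lit 150, nat_lit 10]⟩,
 ⟨nat_lit 2236, nat_lit 3163, ⟨.ofNat (nat_lit 632548), .ofNat (nat_lit 815720), .ofNat (nat_lit 643594), .ofNat (nat_lit 826765), .ofNat (nat_lit 636264), .ofNat (nat_lit 807623), .ofNat (nat_lit 647620), .ofNat (nat_lit 818978)⟩, ⟨.ofNat (nat_lit 0), .ofNat (nat_lit 162054), .ofNat (nat_lit 0), .ofNat (nat_lit 184209), .ofNat (nat_lit 0), .ofNat (nat_lit 169532), .ofNat (nat_lit 0), .ofNat (nat_lit 192306)⟩⟩, [⟨nat_lit 3, nat_lit 100, nat_lit 69, nat_lit 40, nat_lit 1504621⟩, ⟨nat_lit 7, nat_lit 100, nat_lit 79, nat_lit 77, nat_lit 26046206⟩, ⟨nat_lit 10, nat_lit 100, nat_lit 100, nat_lit 60, nat_lit 7651739⟩]⟩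
noncomputable def p127_l15 : Lf2 := ⟨nat_lit 0, nat_lit 20, [nat_lit 5, nat_lit 5, nat_lit 5, nat_lit 20], false, nat_lit 0, nat_lit 80, nat_lit 0, nat_lit 244, ⟨nat_lit 1000, nat_lit 0, nat_lit 0, nat_lit 0, nat_lit 0, nat_lit 0, nat_lit 0, nat_lit 0, nat_lit 0, nat_lit 0, nat_lit 0, nat_lit 0, nat_lit 0, nat_lit 0, nat_lit 0, nat_lit 0, false, false⟩,
 nat_lit 0, nat_lit 0, nat_lit 7313, nat_lit 0, nat_lit 4277, nat_lit 5700, nat_lit 418, nat_lit 0, nat_lit 0, nat_lit 1258, nat_lit 0, nat_lit 0, nat_lit 0, nat_lit 0, nat_lit 0, nat_lit 0, nat_lit 0, nat_lit 0, [],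
 ⟨p127_k8, nat_lit 0, nat_lit 0, nat_lit 154, nat_lit 0, nat_lit 0, [nat_lit 938000000, nat_lit 3282000000, nat_lit 6250000000], [], [nat_lit 26203266574, nat_lit 27696461311, nat_lit 30441571246, nat_lit 31632825740, nat_lit 24260382258, nat_lit 25664522452, nat_lit 28310053126, nat_lit 29436975884], nat_lit 0, nat_lit 0, nat_lit 0, nat_lit 0, nat_lit 0, nat_lit 0, [], [nat_lit 20, nat_lit 40, nat_lit 40, nat_lit 80, nat_lit 16, nat_lit 226, nat_lit 20, nat_lit 8]⟩, ⟨p127_k10, nat_lit 0, nat_lit 0, nat_lit 746, nat_lit 0, nat_lit 1246110, [nat_lit 2032000000, nat_lit 4688000000, nat_lit 9842000000], [], [nat_lit 27915943301, nat_lit 28235761610, nat_lit 30768791400, nat_lit 31652969600, nat_lit 26611864325, nat_lit 26842079992, nat_lit 27876079060, nat_lit 28058799170], nat_lit 1271250, nat_lit 1271250, nat_lit 1271250, nat_lit 1271250, nat_lit 0, nat_lit 1723250, [nat_lit 490000, nat_lit 1100000, nat_lit 2127500],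 [nat_lit 27, nat_lit 40, nat_lit 40, nat_lit 80, nat_lit 13, nat_lit 373, nat_lit 150, nat_lit 10]⟩,
 zbF0, [⟨nat_lit 0, nat_lit 75, nat_lit 46, nat_lit 100, nat_lit 485560636⟩, ⟨nat_lit 7, nat_lit 100, nat_lit 74, nat_lit 77, nat_lit 163704300⟩]⟩
noncomputable def p127_l16 : Lf2 := ⟨nat_lit 0, nat_lit 20, [nat_lit 5, nat_lit 5, nat_lit 5, nat_lit 20], false, nat_lit 0, nat_lit 80, nat_lit 0, nat_lit 260, ⟨nat_lit 153, nat_lit 847, nat_lit 0, nat_lit 8, nat_lit 301, nat_lit 847, nat_lit 34, nat_lit 0, nat_lit 0, nat_lit 0, nat_lit 0, nat_lit 0, nat_lit 42766020, nat_lit 24233980, nat_lit 0, nat_lit 3271952, true, false⟩,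
 nat_lit 0, nat_lit 0, nat_lit 1490, nat_lit 0, nat_lit 2409, nat_lit 1117, nat_lit 62, nat_lit 0, nat_lit 0, nat_lit 75, nat_lit 0, nat_lit 0, nat_lit 0, nat_lit 0, nat_lit 0, nat_lit 338800, nat_lit 0, nat_lit 0, [(nat_lit 28, [(nat_lit 1, nat_lit 847)])],
 ⟨p127_k11, nat_lit 0, nat_lit 0, nat_lit 158, nat_lit 0, nat_lit 0, [nat_lit 734381200, nat_lit 777251600, nat_lit 1073136000], [], [nat_lit 24049619459, nat_lit 24574246847, nat_lit 26921432058, nat_lit 27405437702, nat_lit 23622982883, nat_lit 24118140494, nat_lit 26295678286, nat_lit 26754759606], nat_lit 0, nat_lit 0, nat_lit 0, nat_lit 0, nat_lit 0, nat_lit 0, [], [nat_lit 20, nat_lit 40, nat_lit 40, nat_lit 80, nat_lit 16, nat_lit 226, nat_lit 20, nat_lit 7]⟩, ⟨p127_k9, nat_lit 0, nat_lit 0, nat_lit 891, nat_lit 0, nat_lit 1586653, [nat_lit 310896000, nat_lit 717264000, nat_lit 1505826000], [], [nat_lit 5022177988, nat_lit 5057208379, nat_lit 5226374355,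 nat_lit 5329930608, nat_lit 4479898266, nat_lit 4502128343, nat_lit 4551023367, nat_lit 4568059846], nat_lit 1271250, nat_lit 1271250, nat_lit 1271250, nat_lit 1271250, nat_lit 0, nat_lit 1836250, [nat_lit 490000, nat_lit 1100000, nat_lit 2127500], [nat_lit 27, nat_lit 40, nat_lit 40, nat_lit 80, nat_lit 13, nat_lit 373, nat_lit 150, nat_lit 10]⟩,
 ⟨nat_lit 1581, nat_lit 2237, ⟨.ofNat (nat_lit 687763), .ofNat (nat_lit 807675), .ofNat (nat_lit 699128), .ofNat (nat_lit 819040), .ofNat (nat_lit 688866), .ofNat (nat_lit 803781), .ofNat (nat_lit 700501), .ofNat (nat_lit 815415)⟩, ⟨.ofNat (nat_lit 0), .ofNat (nat_lit 146758), .ofNat (nat_lit 0), .ofNat (nat_lit 192306), .ofNat (nat_lit 0), .ofNat (nat_lit 149571), .ofNat (nat_lit 0), .ofNat (nat_lit 196201)⟩⟩, [⟨nat_lit 19, nat_lit 79, nat_lit 100, nat_lit 72, nat_lit 19411629⟩]⟩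
noncomputable def p127_l17 : Lf2 := ⟨nat_lit 0, nat_lit 20, [nat_lit 5, nat_lit 5, nat_lit 5, nat_lit 20], false, nat_lit 8, nat_lit 80, nat_lit 0, nat_lit 260, ⟨nat_lit 112, nat_lit 888, nat_lit 0, nat_lit 8, nat_lit 308, nat_lit 888, nat_lit 39, nat_lit 0, nat_lit 0, nat_lit 0, nat_lit 0, nat_lit 0, nat_lit 41353389, nat_lit 24660735, nat_lit 985876, nat_lit 3731445, true, false⟩,
 nat_lit 0, nat_lit 0, nat_lit 1109, nat_lit 0, nat_lit 2351, nat_lit 831, nat_lit 105, nat_lit 0, nat_lit 0, nat_lit 52, nat_lit 0, nat_lit 0, nat_lit 0, nat_lit 0, nat_lit 0, nat_lit 222000, nat_lit 0, nat_lit 0, [(nat_lit 28, [(nat_lit 0, nat_lit 888)])],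
 ⟨p127_k12, nat_lit 0, nat_lit 0, nat_lit 145, nat_lit 0, nat_lit 0, [nat_lit 799116801, nat_lit 1296432001, nat_lit 1747299200], [], [nat_lit 25213955765, nat_lit 25734593487, nat_lit 27201901465, nat_lit 27705398933, nat_lit 24823471405, nat_lit 25317844761, nat_lit 26660439520, nat_lit 27140015426], nat_lit 0, nat_lit 0, nat_lit 0, nat_lit 0, nat_lit 0, nat_lit 0, [], [nat_lit 35, nat_lit 40, nat_lit 40, nat_lit 80, nat_lit 22, nat_lit 226, nat_lit 20, nat_lit 9]⟩, ⟨p127_k9, nat_lit 0, nat_lit 0, nat_lit 936, nat_lit 0, nat_lit 1710759, [nat_lit 227584000, nat_lit 525056000, nat_lit 1102304000], [], [nat_lit 3763437833, nat_lit 3782653642, nat_lit 3863858068, nat_lit 3940356293, nat_lit 3319523582, nat_lit 3330976982, nat_lit 3344724172, nat_lit 3353945062], nat_lit 1271250, nat_lit 1271250, nat_lit 1271250, nat_lit 1271250, nat_lit 0, nat_lit 1836250, [nat_lit 490000, nat_lit 1100000, nat_lit 2127500], [nat_lit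 27, nat_lit 40, nat_lit 40, nat_lit 80, nat_lit 13, nat_lit 373, nat_lit 150, nat_lit 10]⟩,
 ⟨nat_lit 0, nat_lit 1582, ⟨.ofNat (nat_lit 725463), .ofNat (nat_lit 803773), .ofNat (nat_lit 736793), .ofNat (nat_lit 815118), .ofNat (nat_lit 728156), .ofNat (nat_lit 799976), .ofNat (nat_lit 740328), .ofNat (nat_lit 812163)⟩, ⟨.ofNat (nat_lit 20000), .ofNat (nat_lit 149570), .ofNat (nat_lit 20000), .ofNat (nat_lit 196201), .ofNat (nat_lit 20000), .ofNat (nat_lit 149998), .ofNat (nat_lit 20000), .ofNat (nat_lit 199999)⟩⟩, [⟨nat_lit 3, nat_lit 100, nat_lit 31, nat_lit 76, nat_lit 182861180⟩, ⟨nat_lit 22, nat_lit 91, nat_lit 100, nat_lit 64, nat_lit 13389918⟩]⟩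
noncomputable def p127_l18 : Lf2 := ⟨nat_lit 0, nat_lit 20, [nat_lit 5, nat_lit 5, nat_lit 5, nat_lit 20], false, nat_lit 0, nat_lit 80, nat_lit 0, nat_lit 244, ⟨nat_lit 202, nat_lit 798, nat_lit 0, nat_lit 8, nat_lit 308, nat_lit 798, nat_lit 34, nat_lit 0, nat_lit 0, nat_lit 0, nat_lit 0, nat_lit 0, nat_lit 42012102, nat_lit 24987898, nat_lit 0, nat_lit 3302544, true, false⟩,
 nat_lit 0, nat_lit 0, nat_lit 1642, nat_lit 0, nat_lit 2252, nat_lit 1279, nat_lit 150, nat_lit 0, nat_lit 0, nat_lit 122, nat_lit 0, nat_lit 0, nat_lit 0, nat_lit 0, nat_lit 0, nat_lit 319200, nat_lit 0, nat_lit 0, [(nat_lit 28, [(nat_lit 1, nat_lit 798)])],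
 ⟨p127_k11, nat_lit 0, nat_lit 0, nat_lit 164, nat_lit 0, nat_lit 0, [nat_lit 746160800, nat_lit 922154401, nat_lit 1372624000], [], [nat_lit 23848938275, nat_lit 24929185474, nat_lit 26375988656, nat_lit 27574474512, nat_lit 23443853376, nat_lit 24464612866, nat_lit 25836764558, nat_lit 26734313632], nat_lit 0, nat_lit 0, nat_lit 0, nat_lit 0, nat_lit 0, nat_lit 0, [], [nat_lit 20, nat_lit 40, nat_lit 40, nat_lit 80, nat_lit 16, nat_lit 226, nat_lit 20, nat_lit 7]⟩, ⟨p127_k10, nat_lit 0, nat_lit 0, nat_lit 920, nat_lit 0, nat_lit 1678267, [nat_lit 410464000, nat_lit 946976000, nat_lit 1988084000], [], [nat_lit 6276058045, nat_lit 6329294372, nat_lit 6549989669, nat_lit 6676542522, nat_lit 5830076322, nat_lit 5864665669, nat_lit 5968676924, nat_lit 5997562519], nat_lit 1271250, nat_lit 1271250, nat_lit 1271250, nat_lit 1271250, nat_lit 0, nat_lit 1723250, [nat_lit 490000, nat_lit 1100000, nat_lit 2127500], [nat_lit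 27, nat_lit 40, nat_lit 40, nat_lit 80, nat_lit 13, nat_lit 373, nat_lit 150, nat_lit 10]⟩,
 ⟨nat_lit 0, nat_lit 2237, ⟨.ofNat (nat_lit 712639), .ofNat (nat_lit 818584), .ofNat (nat_lit 723563), .ofNat (nat_lit 829507), .ofNat (nat_lit 718688), .ofNat (nat_lit 812004), .ofNat (nat_lit 730725), .ofNat (nat_lit 824041)⟩, ⟨.ofNat (nat_lit 0), .ofNat (nat_lit 146756), .ofNat (nat_lit 0), .ofNat (nat_lit 192306), .ofNat (nat_lit 0), .ofNat (nat_lit 149997), .ofNat (nat_lit 0), .ofNat (nat_lit 199999)⟩⟩, [⟨nat_lit 19, nat_lit 74, nat_lit 100, nat_lit 72, nat_lit 36521913⟩]⟩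
noncomputable def b_V_900_800_10_2 : St := ⟨true, nat_lit 0, nat_lit 1, nat_lit 1, nat_lit 80, nat_lit 360, nat_lit 400, nat_lit 320, nat_lit 340, nat_lit 200, nat_lit 320, nat_lit 40, nat_lit 80, nat_lit 0, nat_lit 80, nat_lit 0, nat_lit 260, nat_lit 40, nat_lit 80, nat_lit 0, nat_lit 0, nat_lit 0, nat_lit 0⟩
theorem d_V_900_800_10_2 (h : EB TB.env) : Dead b_V_900_800_10_2 := chkB_sound0 h (T :=
(.spl (nat_lit 0) (nat_lit 380)
(.spl (nat_lit 3) (nat_lit 60)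
(.trX (nat_lit 19) (nat_lit 81) (nat_lit 100) (nat_lit 72) (nat_lit 232) (.spl (nat_lit 0) (nat_lit 370)
(.leaf p127_l12)
(.trZ (nat_lit 0) (nat_lit 80) (nat_lit 53) (nat_lit 100) (nat_lit 216) (.leaf p127_l13))))
(.spl (nat_lit 1) (nat_lit 330)
(.leaf p127_l14)
(.trZ (nat_lit 0) (nat_lit 76) (nat_lit 60) (nat_lit 100) (nat_lit 212) (.trX (nat_lit 19) (nat_lit 78) (nat_lit 100) (nat_lit 82) (nat_lit 244) (.leaf p127_l15)))))
(.trZ (nat_lit 0) (nat_lit 82) (nat_lit 44) (nat_lit 100) (nat_lit 236) (.spl (nat_lit 1) (nat_lit 330)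
(.spl (nat_lit 0) (nat_lit 390)
(.leaf p127_l16)
(.trZ (nat_lit 0) (nat_lit 84) (nat_lit 33) (nat_lit 100) (nat_lit 264) (.trZ (nat_lit 3) (nat_lit 100) (nat_lit 52) (nat_lit 53) (nat_lit 8) (.leaf p127_l17))))
(.trZ (nat_lit 0) (nat_lit 79) (nat_lit 45) (nat_lit 100) (nat_lit 248) (.trX (nat_lit 19) (nat_lit 78) (nat_lit 100) (nat_lit 82) (nat_lit 244) (.leaf p127_l18))))))) (by decide +kernel)
noncomputable def p127_l19 : Lf2 := ⟨nat_lit 0, nat_lit 15, [nat_lit 30, nat_lit 5, nat_lit 5, nat_lit 20], false, nat_lit 0, nat_lit 80, nat_lit 0, nat_lit 232, ⟨nat_lit 312, nat_lit 688, nat_lit 0, nat_lit 8, nat_lit 340, nat_lit 688, nat_lit 31, nat_lit 0, nat_lit 0, nat_lit 0, nat_lit 0, nat_lit 0, nat_lit 38923769, nat_lit 28076231, nat_lit 0, nat_lit 3399914, true, true⟩,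
 nat_lit 0, nat_lit 0, nat_lit 2800, nat_lit 0, nat_lit 2949, nat_lit 2100, nat_lit 137, nat_lit 0, nat_lit 0, nat_lit 145, nat_lit 0, nat_lit 0, nat_lit 0, nat_lit 0, nat_lit 0, nat_lit 402400, nat_lit 0, nat_lit 0, [(nat_lit 25, [(nat_lit 1, nat_lit 476), (nat_lit 2, nat_lit 212)])],
 ⟨p127_k5, nat_lit 0, nat_lit 0, nat_lit 161, nat_lit 0, nat_lit 0, [nat_lit 1006081601, nat_lit 1420241601, nat_lit 1559089600], [], [nat_lit 26843960100, nat_lit 27514097686, nat_lit 29103215328, nat_lit 29706428273, nat_lit 25937526908, nat_lit 26397281267, nat_lit 27523129116, nat_lit 27976274039], nat_lit 0, nat_lit 0, nat_lit 0, nat_lit 0, nat_lit 0, nat_lit 0, [], [nat_lit 20, nat_lit 40, nat_lit 40, nat_lit 80, nat_lit 16, nat_lit 226, nat_lit 20, nat_lit 7]⟩, ⟨p127_k6, nat_lit 0, nat_lit 0, nat_lit 701, nat_lit 0, nat_lit 1328183, [nat_lit 633984000, nat_lit 1462656000, nat_lit 2486016000], [], [nat_lit 11163557802, nat_lit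 11228917266, nat_lit 11424995658, nat_lit 11482857666, nat_lit 10037419713, nat_lit 10089582858, nat_lit 10251869479, nat_lit 10299524261], nat_lit 1271250, nat_lit 1271250, nat_lit 1271250, nat_lit 1271250, nat_lit 0, nat_lit 1638500, [nat_lit 490000, nat_lit 1100000, nat_lit 1785000], [nat_lit 34, nat_lit 40, nat_lit 40, nat_lit 80, nat_lit 7, nat_lit 291, nat_lit 60, nat_lit 9]⟩,
 ⟨nat_lit 2738, nat_lit 3163, ⟨.ofNat (nat_lit 815772), .ofNat (nat_lit 876741), .ofNat (nat_lit 826842), .ofNat (nat_lit 887814), .ofNat (nat_lit 811670), .ofNat (nat_lit 870748), .ofNat (nat_lit 822873), .ofNat (nat_lit 881953)⟩, ⟨.ofNat (nat_lit 0), .ofNat (nat_lit 139899), .ofNat (nat_lit 0), .ofNat (nat_lit 162054), .ofNat (nat_lit 0), .ofNat (nat_lit 143475), .ofNat (nat_lit 0), .ofNat (nat_lit 165893)⟩⟩, [⟨nat_lit 22, nat_lit 72, nat_lit 100, nat_lit 61, nat_lit 58289027⟩]⟩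
noncomputable def p127_l20 : Lf2 := ⟨nat_lit 0, nat_lit 15, [nat_lit 30, nat_lit 5, nat_lit 5, nat_lit 20], false, nat_lit 0, nat_lit 80, nat_lit 0, nat_lit 200, ⟨nat_lit 327, nat_lit 673, nat_lit 0, nat_lit 9, nat_lit 363, nat_lit 673, nat_lit 31, nat_lit 0, nat_lit 0, nat_lit 0, nat_lit 0, nat_lit 0, nat_lit 36784628, nat_lit 30215372, nat_lit 0, nat_lit 3441662, true, true⟩,
 nat_lit 0, nat_lit 0, nat_lit 2781, nat_lit 0, nat_lit 2907, nat_lit 2085, nat_lit 136, nat_lit 0, nat_lit 0, nat_lit 155, nat_lit 0, nat_lit 0, nat_lit 0, nat_lit 0, nat_lit 0, nat_lit 383800, nat_lit 0, nat_lit 0, [(nat_lit 25, [(nat_lit 1, nat_lit 482), (nat_lit 2, nat_lit 191)])],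
 ⟨p127_k5, nat_lit 0, nat_lit 0, nat_lit 187, nat_lit 0, nat_lit 0, [nat_lit 994384001, nat_lit 1483484001, nat_lit 1740205600], [], [nat_lit 29078077047, nat_lit 29589799439, nat_lit 31148783190, nat_lit 31689924399, nat_lit 28231843667, nat_lit 28623946541, nat_lit 29681869908, nat_lit 30082292630], nat_lit 0, nat_lit 0, nat_lit 0, nat_lit 0, nat_lit 0, nat_lit 0, [], [nat_lit 20, nat_lit 40, nat_lit 40, nat_lit 80, nat_lit 16, nat_lit 226, nat_lit 20, nat_lit 7]⟩, ⟨p127_k6, nat_lit 0, nat_lit 0, nat_lit 698, nat_lit 0, nat_lit 1328183, [nat_lit 664464000, nat_lit 1532976000, nat_lit 2605536000], [], [nat_lit 12563855838, nat_lit 12624419196, nat_lit 12847928346, nat_lit 12903659434, nat_lit 11458338723, nat_lit 11512196009, nat_lit 11719823846, nat_lit 11776299941], nat_lit 1271250, nat_lit 1271250, nat_lit 1271250, nat_lit 1271250, nat_lit 0, nat_lit 1412500, [nat_lit 490000, nat_lit 1100000, nat_lit 1785000],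 [nat_lit 34, nat_lit 40, nat_lit 40, nat_lit 80, nat_lit 7, nat_lit 291, nat_lit 50, nat_lit 8]⟩,
 ⟨nat_lit 2738, nat_lit 3163, ⟨.ofNat (nat_lit 876741), .ofNat (nat_lit 931599), .ofNat (nat_lit 887814), .ofNat (nat_lit 942677), .ofNat (nat_lit 870748), .ofNat (nat_lit 923903), .ofNat (nat_lit 881953), .ofNat (nat_lit 935112)⟩, ⟨.ofNat (nat_lit 0), .ofNat (nat_lit 139899), .ofNat (nat_lit 0), .ofNat (nat_lit 162054), .ofNat (nat_lit 0), .ofNat (nat_lit 143475), .ofNat (nat_lit 0), .ofNat (nat_lit 165893)⟩⟩, [⟨nat_lit 13, nat_lit 72, nat_lit 37, nat_lit 100, nat_lit 65612057⟩, ⟨nat_lit 10, nat_lit 100, nat_lit 45, nat_lit 69, nat_lit 73410406⟩]⟩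
noncomputable def p127_l21 : Lf2 := ⟨nat_lit 0, nat_lit 15, [nat_lit 30, nat_lit 5, nat_lit 5, nat_lit 20], false, nat_lit 0, nat_lit 80, nat_lit 0, nat_lit 232, ⟨nat_lit 146, nat_lit 854, nat_lit 0, nat_lit 8, nat_lit 338, nat_lit 854, nat_lit 31, nat_lit 0, nat_lit 0, nat_lit 0, nat_lit 0, nat_lit 0, nat_lit 39114476, nat_lit 27885524, nat_lit 0, nat_lit 3395181, true, true⟩,
 nat_lit 0, nat_lit 0, nat_lit 1348, nat_lit 0, nat_lit 2885, nat_lit 1010, nat_lit 43, nat_lit 0, nat_lit 0, nat_lit 62, nat_lit 0, nat_lit 0, nat_lit 0, nat_lit 0, nat_lit 0, nat_lit 213500, nat_lit 0, nat_lit 0, [(nat_lit 25, [(nat_lit 0, nat_lit 854)])],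
 ⟨p127_k7, nat_lit 0, nat_lit 0, nat_lit 160, nat_lit 0, nat_lit 0, [nat_lit 789404000, nat_lit 1648127200, nat_lit 2149570400], [], [nat_lit 27868887750, nat_lit 28399131730, nat_lit 29640328550, nat_lit 30126429570, nat_lit 26966842500, nat_lit 27448030890, nat_lit 28589803170, nat_lit 29031809130], nat_lit 0, nat_lit 0, nat_lit 0, nat_lit 0, nat_lit 0, nat_lit 0, [], [nat_lit 35, nat_lit 40, nat_lit 40, nat_lit 80, nat_lit 22, nat_lit 226, nat_lit 20, nat_lit 8]⟩, ⟨p127_k6, nat_lit 0, nat_lit 0, nat_lit 751, nat_lit 0, nat_lit 1440452, [nat_lit 296672000, nat_lit 684448000, nat_lit 1163328000], [], [nat_lit 5310595340, nat_lit 5335439430, nat_lit 5409971700, nat_lit 5431770800, nat_lit 4753467816, nat_lit 4770066103, nat_lit 4819860961, nat_lit 4834493292], nat_lit 1271250, nat_lit 1271250, nat_lit 1271250, nat_lit 1271250, nat_lit 0, nat_lit 1638500, [nat_lit 490000, nat_lit 1100000, nat_lit 1785000], [nat_lit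 34, nat_lit 40, nat_lit 40, nat_lit 80, nat_lit 7, nat_lit 303, nat_lit 60, nat_lit 9]⟩,
 ⟨nat_lit 2236, nat_lit 2739, ⟨.ofNat (nat_lit 811671), .ofNat (nat_lit 870748), .ofNat (nat_lit 822869), .ofNat (nat_lit 881957), .ofNat (nat_lit 807675), .ofNat (nat_lit 864706), .ofNat (nat_lit 819051), .ofNat (nat_lit 876094)⟩, ⟨.ofNat (nat_lit 0), .ofNat (nat_lit 143475), .ofNat (nat_lit 0), .ofNat (nat_lit 165893), .ofNat (nat_lit 0), .ofNat (nat_lit 146758), .ofNat (nat_lit 0), .ofNat (nat_lit 169532)⟩⟩, [⟨nat_lit 22, nat_lit 72, nat_lit 100, nat_lit 61, nat_lit 25207594⟩]⟩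
noncomputable def p127_l22 : Lf2 := ⟨nat_lit 0, nat_lit 15, [nat_lit 30, nat_lit 5, nat_lit 5, nat_lit 20], false, nat_lit 0, nat_lit 80, nat_lit 0, nat_lit 200, ⟨nat_lit 256, nat_lit 744, nat_lit 0, nat_lit 9, nat_lit 359, nat_lit 744, nat_lit 31, nat_lit 0, nat_lit 0, nat_lit 0, nat_lit 0, nat_lit 0, nat_lit 37079418, nat_lit 29920582, nat_lit 0, nat_lit 3437139, true, true⟩,
 nat_lit 0, nat_lit 0, nat_lit 2249, nat_lit 0, nat_lit 2740, nat_lit 1686, nat_lit 226, nat_lit 0, nat_lit 0, nat_lit 114, nat_lit 0, nat_lit 0, nat_lit 0, nat_lit 0, nat_lit 0, nat_lit 186000, nat_lit 0, nat_lit 0, [(nat_lit 25, [(nat_lit 0, nat_lit 744)])],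
 ⟨p127_k7, nat_lit 0, nat_lit 0, nat_lit 169, nat_lit 0, nat_lit 0, [nat_lit 808544001, nat_lit 1858579200, nat_lit 2476534400], [], [nat_lit 29143365981, nat_lit 29418700830, nat_lit 30949069893, nat_lit 31216766678, nat_lit 28398871841, nat_lit 28601137541, nat_lit 29666393970, nat_lit 29855170493], nat_lit 0, nat_lit 0, nat_lit 0, nat_lit 0, nat_lit 0, nat_lit 0, [], [nat_lit 35, nat_lit 40, nat_lit 40, nat_lit 80, nat_lit 22, nat_lit 226, nat_lit 20, nat_lit 8]⟩, ⟨p127_k6, nat_lit 0, nat_lit 0, nat_lit 728, nat_lit 0, nat_lit 1383699, [nat_lit 520192000, nat_lit 1200128000, nat_lit 2039808000], [], [nat_lit 9902834346, nat_lit 9948535898, nat_lit 10094090212, nat_lit 10139042531, nat_lit 9033588814, nat_lit 9067378067, nat_lit 9180734642, nat_lit 9210747971], nat_lit 1271250, nat_lit 1271250, nat_lit 1271250, nat_lit 1271250, nat_lit 0, nat_lit 1412500, [nat_lit 490000, nat_lit 1100000, nat_lit 1785000], [nat_lit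 34, nat_lit 40, nat_lit 40, nat_lit 80, nat_lit 7, nat_lit 298, nat_lit 50, nat_lit 9]⟩,
 ⟨nat_lit 2500, nat_lit 2739, ⟨.ofNat (nat_lit 870748), .ofNat (nat_lit 917997), .ofNat (nat_lit 881957), .ofNat (nat_lit 929206), .ofNat (nat_lit 867740), .ofNat (nat_lit 914192), .ofNat (nat_lit 879031), .ofNat (nat_lit 925482)⟩, ⟨.ofNat (nat_lit 0), .ofNat (nat_lit 143475), .ofNat (nat_lit 0), .ofNat (nat_lit 165893), .ofNat (nat_lit 0), .ofNat (nat_lit 145160), .ofNat (nat_lit 0), .ofNat (nat_lit 167740)⟩⟩, [⟨nat_lit 13, nat_lit 65, nat_lit 46, nat_lit 100, nat_lit 112832361⟩, ⟨nat_lit 10, nat_lit 100, nat_lit 45, nat_lit 69, nat_lit 54495543⟩]⟩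
noncomputable def p127_l23 : Lf2 := ⟨nat_lit 0, nat_lit 15, [nat_lit 30, nat_lit 5, nat_lit 5, nat_lit 20], false, nat_lit 0, nat_lit 80, nat_lit 0, nat_lit 200, ⟨nat_lit 261, nat_lit 739, nat_lit 0, nat_lit 9, nat_lit 357, nat_lit 739, nat_lit 31, nat_lit 0, nat_lit 0, nat_lit 0, nat_lit 0, nat_lit 0, nat_lit 37310926, nat_lit 29689074, nat_lit 0, nat_lit 3433312, true, true⟩,
 nat_lit 0, nat_lit 0, nat_lit 2306, nat_lit 0, nat_lit 2549, nat_lit 1729, nat_lit 252, nat_lit 0, nat_lit 0, nat_lit 117, nat_lit 0, nat_lit 0, nat_lit 0, nat_lit 0, nat_lit 0, nat_lit 184750, nat_lit 0, nat_lit 0, [(nat_lit 25, [(nat_lit 0, nat_lit 739)])],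
 ⟨p127_k13, nat_lit 0, nat_lit 0, nat_lit 169, nat_lit 0, nat_lit 0, [nat_lit 809414001, nat_lit 1868145200, nat_lit 2491396400], [], [nat_lit 28880122946, nat_lit 29164568418, nat_lit 30410672434, nat_lit 30674336187, nat_lit 27991899114, nat_lit 28199049783, nat_lit 29115872456, nat_lit 29314155963], nat_lit 0, nat_lit 0, nat_lit 0, nat_lit 0, nat_lit 0, nat_lit 0, [], [nat_lit 35, nat_lit 40, nat_lit 40, nat_lit 80, nat_lit 22, nat_lit 226, nat_lit 20, nat_lit 8]⟩, ⟨p127_k6, nat_lit 0, nat_lit 0, nat_lit 749, nat_lit 0, nat_lit 1440452, [nat_lit 530352000, nat_lit 1223568000, nat_lit 2079648000], [], [nat_lit 10068382342, nat_lit 10107581916, nat_lit 10215941598, nat_lit 10259333482, nat_lit 9134593785, nat_lit 9168994884, nat_lit 9265903449, nat_lit 9299472950], nat_lit 1271250, nat_lit 1271250, nat_lit 1271250, nat_lit 1271250, nat_lit 0, nat_lit 1412500, [nat_lit 490000, nat_lit 1100000, nat_lit 1785000],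 [nat_lit 34, nat_lit 40, nat_lit 40, nat_lit 80, nat_lit 7, nat_lit 302, nat_lit 50, nat_lit 9]⟩,
 ⟨nat_lit 2236, nat_lit 2500, ⟨.ofNat (nat_lit 867740), .ofNat (nat_lit 908386), .ofNat (nat_lit 879031), .ofNat (nat_lit 919676), .ofNat (nat_lit 864706), .ofNat (nat_lit 904617), .ofNat (nat_lit 876094), .ofNat (nat_lit 916004)⟩, ⟨.ofNat (nat_lit 0), .ofNat (nat_lit 145160), .ofNat (nat_lit 0), .ofNat (nat_lit 167740), .ofNat (nat_lit 0), .ofNat (nat_lit 146758), .ofNat (nat_lit 0), .ofNat (nat_lit 169532)⟩⟩, [⟨nat_lit 13, nat_lit 59, nat_lit 52, nat_lit 100, nat_lit 133769050⟩, ⟨nat_lit 10, nat_lit 100, nat_lit 45, nat_lit 69, nat_lit 54340331⟩]⟩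
noncomputable def p127_l24 : Lf2 := ⟨nat_lit 0, nat_lit 15, [nat_lit 30, nat_lit 5, nat_lit 5, nat_lit 20], false, nat_lit 0, nat_lit 80, nat_lit 0, nat_lit 220, ⟨nat_lit 1000, nat_lit 0, nat_lit 0, nat_lit 0, nat_lit 0, nat_lit 0, nat_lit 0, nat_lit 0, nat_lit 0, nat_lit 0, nat_lit 0, nat_lit 0, nat_lit 0, nat_lit 0, nat_lit 0, nat_lit 0, false, false⟩,
 nat_lit 0, nat_lit 0, nat_lit 6647, nat_lit 0, nat_lit 4479, nat_lit 5181, nat_lit 347, nat_lit 0, nat_lit 0, nat_lit 1444, nat_lit 0, nat_lit 0, nat_lit 0, nat_lit 0, nat_lit 0, nat_lit 0, nat_lit 0, nat_lit 0, [],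
 ⟨p127_k5, nat_lit 0, nat_lit 0, nat_lit 194, nat_lit 0, nat_lit 0, [nat_lit 938000000, nat_lit 3282000000, nat_lit 6250000000], [], [nat_lit 31778282498, nat_lit 32865467402, nat_lit 36158533868, nat_lit 37448519636, nat_lit 29799547103, nat_lit 30838728381, nat_lit 33435263803, nat_lit 34287718005], nat_lit 0, nat_lit 0, nat_lit 0, nat_lit 0, nat_lit 0, nat_lit 0, [], [nat_lit 20, nat_lit 40, nat_lit 40, nat_lit 80, nat_lit 16, nat_lit 226, nat_lit 20, nat_lit 7]⟩, ⟨p127_k14, nat_lit 0, nat_lit 0, nat_lit 746, nat_lit 0, nat_lit 1426876, [nat_lit 2032000000, nat_lit 4688000000, nat_lit 7968000000], [], [nat_lit 32254847863, nat_lit 32472662358, nat_lit 36398978090, nat_lit 37028854344, nat_lit 30685581930, nat_lit 30850446934, nat_lit 32066949238, nat_lit 32201000498], nat_lit 1271250, nat_lit 1271250, nat_lit 1271250, nat_lit 1271250, nat_lit 0, nat_lit 1553750, [nat_lit 490000, nat_lit 1100000, nat_lit 1785000],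 [nat_lit 34, nat_lit 40, nat_lit 40, nat_lit 80, nat_lit 7, nat_lit 307, nat_lit 60, nat_lit 9]⟩,
 zbF0, [⟨nat_lit 7, nat_lit 100, nat_lit 74, nat_lit 66, nat_lit 104899274⟩]⟩
noncomputable def p127_l25 : Lf2 := ⟨nat_lit 0, nat_lit 20, [nat_lit 5, nat_lit 5, nat_lit 5, nat_lit 20], false, nat_lit 0, nat_lit 80, nat_lit 0, nat_lit 160, ⟨nat_lit 604, nat_lit 396, nat_lit 0, nat_lit 8, nat_lit 349, nat_lit 396, nat_lit 35, nat_lit 0, nat_lit 0, nat_lit 0, nat_lit 0, nat_lit 0, nat_lit 38009051, nat_lit 28990949, nat_lit 0, nat_lit 3420305, true, true⟩,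
 nat_lit 0, nat_lit 0, nat_lit 5250, nat_lit 0, nat_lit 3081, nat_lit 3937, nat_lit 147, nat_lit 0, nat_lit 0, nat_lit 317, nat_lit 0, nat_lit 0, nat_lit 0, nat_lit 0, nat_lit 0, nat_lit 396000, nat_lit 0, nat_lit 0, [(nat_lit 25, [(nat_lit 2, nat_lit 396)])],
 ⟨p127_k8, nat_lit 0, nat_lit 0, nat_lit 192, nat_lit 0, nat_lit 0, [nat_lit 1148038401, nat_lit 1831478401, nat_lit 2231075200], [], [nat_lit 28497353954, nat_lit 29415444926, nat_lit 31670777970, nat_lit 32778031788, nat_lit 27615671334, nat_lit 28483971554, nat_lit 30577624050, nat_lit 31390031484], nat_lit 0, nat_lit 0, nat_lit 0, nat_lit 0, nat_lit 0, nat_lit 0, [], [nat_lit 20, nat_lit 40, nat_lit 40, nat_lit 80, nat_lit 16, nat_lit 226, nat_lit 20, nat_lit 7]⟩, ⟨p127_k9, nat_lit 0, nat_lit 0, nat_lit 729, nat_lit 0, nat_lit 1249204, [nat_lit 1227328000, nat_lit 2831552000, nat_lit 5944568000], [], [nat_lit 22250920661, nat_lit 22385449741, nat_lit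 23614602465, nat_lit 24050280751, nat_lit 20285380649, nat_lit 20395558269, nat_lit 21191764712, nat_lit 21277810481], nat_lit 1271250, nat_lit 1271250, nat_lit 1271250, nat_lit 1271250, nat_lit 0, nat_lit 1100001, [nat_lit 490000, nat_lit 1100000, nat_lit 2127500], [nat_lit 27, nat_lit 40, nat_lit 40, nat_lit 80, nat_lit 13, nat_lit 293, nat_lit 40, nat_lit 8]⟩,
 ⟨nat_lit 2236, nat_lit 3163, ⟨.ofNat (nat_lit 815720), .ofNat (nat_lit 931599), .ofNat (nat_lit 826765), .ofNat (nat_lit 942677), .ofNat (nat_lit 807623), .ofNat (nat_lit 916020), .ofNat (nat_lit 818978), .ofNat (nat_lit 927408)⟩, ⟨.ofNat (nat_lit 0), .ofNat (nat_lit 162054), .ofNat (nat_lit 0), .ofNat (nat_lit 184209), .ofNat (nat_lit 0), .ofNat (nat_lit 169532), .ofNat (nat_lit 0), .ofNat (nat_lit 192306)⟩⟩, [⟨nat_lit 10, nat_lit 100, nat_lit 63, nat_lit 66, nat_lit 3058485⟩]⟩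
noncomputable def p127_l26 : Lf2 := ⟨nat_lit 0, nat_lit 20, [nat_lit 5, nat_lit 5, nat_lit 5, nat_lit 20], false, nat_lit 16, nat_lit 80, nat_lit 160, nat_lit 260, ⟨nat_lit 403, nat_lit 597, nat_lit 0, nat_lit 8, nat_lit 346, nat_lit 597, nat_lit 43, nat_lit 0, nat_lit 0, nat_lit 0, nat_lit 0, nat_lit 0, nat_lit 37663470, nat_lit 28236838, nat_lit 1099692, nat_lit 3878472, true, true⟩,
 nat_lit 0, nat_lit 0, nat_lit 3572, nat_lit 0, nat_lit 3269, nat_lit 2679, nat_lit 182, nat_lit 0, nat_lit 0, nat_lit 225, nat_lit 0, nat_lit 0, nat_lit 0, nat_lit 0, nat_lit 0, nat_lit 360000, nat_lit 0, nat_lit 0, [(nat_lit 25, [(nat_lit 1, nat_lit 395), (nat_lit 2, nat_lit 202)])],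
 ⟨p127_k8, nat_lit 0, nat_lit 0, nat_lit 165, nat_lit 0, nat_lit 0, [nat_lit 1008326801, nat_lit 1641540134, nat_lit 2092696400], [], [nat_lit 27146314619, nat_lit 28539486436, nat_lit 30985610708, nat_lit 32153528224, nat_lit 25748461666, nat_lit 26730436740, nat_lit 29016182834, nat_lit 30149357192], nat_lit 0, nat_lit 0, nat_lit 0, nat_lit 0, nat_lit 0, nat_lit 0, [], [nat_lit 20, nat_lit 40, nat_lit 40, nat_lit 80, nat_lit 16, nat_lit 226, nat_lit 20, nat_lit 7]⟩, ⟨p127_k9, nat_lit 0, nat_lit 0, nat_lit 618, nat_lit 0, nat_lit 1249204, [nat_lit 818896000, nat_lit 1889264000, nat_lit 3966326000], [], [nat_lit 12545046817, nat_lit 12635077097, nat_lit 13159717084, nat_lit 13255484230, nat_lit 12639132148, nat_lit 12733161687, nat_lit 13277013202, nat_lit 13354607874], nat_lit 1271250, nat_lit 1271250, nat_lit 1271250, nat_lit 1271250, nat_lit 1100001, nat_lit 1956250, [nat_lit 490000, nat_lit 1100000, nat_lit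 2127500], [nat_lit 27, nat_lit 40, nat_lit 40, nat_lit 80, nat_lit 13, nat_lit 289, nat_lit 75, nat_lit 7]⟩,
 ⟨nat_lit 2236, nat_lit 3163, ⟨.ofNat (nat_lit 815720), .ofNat (nat_lit 913313), .ofNat (nat_lit 826765), .ofNat (nat_lit 924391), .ofNat (nat_lit 807623), .ofNat (nat_lit 898916), .ofNat (nat_lit 818978), .ofNat (nat_lit 910303)⟩, ⟨.ofNat (nat_lit 40000), .ofNat (nat_lit 162054), .ofNat (nat_lit 40000), .ofNat (nat_lit 184209), .ofNat (nat_lit 40000), .ofNat (nat_lit 169532), .ofNat (nat_lit 40000), .ofNat (nat_lit 192306)⟩⟩, [⟨nat_lit 22, nat_lit 65, nat_lit 100, nat_lit 79, nat_lit 25879530⟩, ⟨nat_lit 22, nat_lit 66, nat_lit 100, nat_lit 66, nat_lit 174701356⟩]⟩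
noncomputable def p127_l27 : Lf2 := ⟨nat_lit 0, nat_lit 20, [nat_lit 5, nat_lit 5, nat_lit 5, nat_lit 20], false, nat_lit 0, nat_lit 80, nat_lit 0, nat_lit 244, ⟨nat_lit 1000, nat_lit 0, nat_lit 0, nat_lit 0, nat_lit 0, nat_lit 0, nat_lit 0, nat_lit 0, nat_lit 0, nat_lit 0, nat_lit 0, nat_lit 0, nat_lit 0, nat_lit 0, nat_lit 0, nat_lit 0, false, false⟩,
 nat_lit 0, nat_lit 0, nat_lit 6894, nat_lit 0, nat_lit 5022, nat_lit 5374, nat_lit 358, nat_lit 0, nat_lit 0, nat_lit 1198, nat_lit 0, nat_lit 0, nat_lit 0, nat_lit 0, nat_lit 0, nat_lit 0, nat_lit 0, nat_lit 0, [],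
 ⟨p127_k8, nat_lit 0, nat_lit 0, nat_lit 194, nat_lit 0, nat_lit 0, [nat_lit 938000000, nat_lit 3282000000, nat_lit 6250000000], [], [nat_lit 31800295800, nat_lit 33562277216, nat_lit 37806154424, nat_lit 39172373048, nat_lit 28683164484, nat_lit 29773750458, nat_lit 33428142592, nat_lit 34745399928], nat_lit 0, nat_lit 0, nat_lit 0, nat_lit 0, nat_lit 0, nat_lit 0, [], [nat_lit 20, nat_lit 40, nat_lit 40, nat_lit 80, nat_lit 16, nat_lit 226, nat_lit 20, nat_lit 7]⟩, ⟨p127_k10, nat_lit 0, nat_lit 0, nat_lit 727, nat_lit 0, nat_lit 1246110, [nat_lit 2032000000, nat_lit 4688000000, nat_lit 9842000000], [], [nat_lit 32202834306, nat_lit 32455093370, nat_lit 36950357860, nat_lit 37591646976, nat_lit 30535232464, nat_lit 30717558505, nat_lit 32279482415, nat_lit 32763809455], nat_lit 1271250, nat_lit 1271250, nat_lit 1271250, nat_lit 1271250, nat_lit 0, nat_lit 1723250, [nat_lit 490000, nat_lit 1100000, nat_lit 2127500],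 [nat_lit 27, nat_lit 40, nat_lit 40, nat_lit 80, nat_lit 13, nat_lit 305, nat_lit 75, nat_lit 8]⟩,
 zbF0, [⟨nat_lit 22, nat_lit 63, nat_lit 100, nat_lit 62, nat_lit 174191423⟩]⟩
noncomputable def p127_l28 : Lf2 := ⟨nat_lit 0, nat_lit 15, [nat_lit 30, nat_lit 5, nat_lit 5, nat_lit 20], false, nat_lit 0, nat_lit 80, nat_lit 0, nat_lit 232, ⟨nat_lit 145, nat_lit 855, nat_lit 0, nat_lit 8, nat_lit 336, nat_lit 855, nat_lit 32, nat_lit 0, nat_lit 0, nat_lit 0, nat_lit 0, nat_lit 0, nat_lit 39305430, nat_lit 27694570, nat_lit 0, nat_lit 3390275, true, true⟩,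
 nat_lit 0, nat_lit 0, nat_lit 1340, nat_lit 0, nat_lit 2353, nat_lit 1004, nat_lit 38, nat_lit 0, nat_lit 0, nat_lit 62, nat_lit 0, nat_lit 0, nat_lit 0, nat_lit 0, nat_lit 0, nat_lit 342000, nat_lit 0, nat_lit 0, [(nat_lit 28, [(nat_lit 1, nat_lit 855)])],
 ⟨p127_k15, nat_lit 0, nat_lit 0, nat_lit 164, nat_lit 0, nat_lit 0, [nat_lit 732458000, nat_lit 753594000, nat_lit 848708000], [], [nat_lit 26660100622, nat_lit 27247531826, nat_lit 28603482746, nat_lit 29155555911, nat_lit 26248321554, nat_lit 26684998890, nat_lit 27710266710, nat_lit 28114783410], nat_lit 0, nat_lit 0, nat_lit 0, nat_lit 0, nat_lit 0, nat_lit 0, [], [nat_lit 35, nat_lit 40, nat_lit 40, nat_lit 80, nat_lit 22, nat_lit 226, nat_lit 20, nat_lit 8]⟩, ⟨p127_k6, nat_lit 0, nat_lit 0, nat_lit 794, nat_lit 0, nat_lit 1557320, [nat_lit 294640000, nat_lit 679760000, nat_lit 1155360000], [], [nat_lit 5262759316, nat_lit 5287432705, nat_lit 5361452872,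 nat_lit 5395629432, nat_lit 4708546146, nat_lit 4725024749, nat_lit 4774600138, nat_lit 4792042862], nat_lit 1271250, nat_lit 1271250, nat_lit 1271250, nat_lit 1271250, nat_lit 0, nat_lit 1638500, [nat_lit 490000, nat_lit 1100000, nat_lit 1785000], [nat_lit 34, nat_lit 40, nat_lit 40, nat_lit 80, nat_lit 7, nat_lit 314, nat_lit 60, nat_lit 9]⟩,
 ⟨nat_lit 1581, nat_lit 2237, ⟨.ofNat (nat_lit 807675), .ofNat (nat_lit 864706), .ofNat (nat_lit 819040), .ofNat (nat_lit 876094), .ofNat (nat_lit 803781), .ofNat (nat_lit 858432), .ofNat (nat_lit 815415), .ofNat (nat_lit 870089)⟩, ⟨.ofNat (nat_lit 0), .ofNat (nat_lit 146758), .ofNat (nat_lit 0), .ofNat (nat_lit 169532), .ofNat (nat_lit 0), .ofNat (nat_lit 149571), .ofNat (nat_lit 0), .ofNat (nat_lit 172886)⟩⟩, [⟨nat_lit 10, nat_lit 100, nat_lit 52, nat_lit 66, nat_lit 32066429⟩]⟩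
noncomputable def p127_l29 : Lf2 := ⟨nat_lit 0, nat_lit 15, [nat_lit 30, nat_lit 5, nat_lit 5, nat_lit 20], false, nat_lit 0, nat_lit 80, nat_lit 0, nat_lit 220, ⟨nat_lit 1000, nat_lit 0, nat_lit 0, nat_lit 0, nat_lit 0, nat_lit 0, nat_lit 0, nat_lit 0, nat_lit 0, nat_lit 0, nat_lit 0, nat_lit 0, nat_lit 0, nat_lit 0, nat_lit 0, nat_lit 0, false, false⟩,
 nat_lit 0, nat_lit 0, nat_lit 6707, nat_lit 0, nat_lit 2984, nat_lit 5228, nat_lit 486, nat_lit 0, nat_lit 0, nat_lit 1366, nat_lit 0, nat_lit 0, nat_lit 0, nat_lit 0, nat_lit 0, nat_lit 0, nat_lit 0, nat_lit 0, [],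
 ⟨p127_k15, nat_lit 0, nat_lit 0, nat_lit 164, nat_lit 0, nat_lit 0, [nat_lit 938000000, nat_lit 3282000000, nat_lit 4688000000], [], [nat_lit 28275036752, nat_lit 28948734328, nat_lit 30409835088, nat_lit 31016051208, nat_lit 26444280562, nat_lit 26920529170, nat_lit 28260792656, nat_lit 28843216840], nat_lit 0, nat_lit 0, nat_lit 0, nat_lit 0, nat_lit 0, nat_lit 0, [], [nat_lit 35, nat_lit 40, nat_lit 40, nat_lit 80, nat_lit 22, nat_lit 226, nat_lit 20, nat_lit 8]⟩, ⟨p127_k14, nat_lit 0, nat_lit 0, nat_lit 785, nat_lit 0, nat_lit 1534763, [nat_lit 2032000000, nat_lit 4688000000, nat_lit 7968000000], [], [nat_lit 32620178094, nat_lit 32838293154, nat_lit 33480199522, nat_lit 33764494808, nat_lit 31237622236, nat_lit 31414268650, nat_lit 31928006912, nat_lit 32088452346], nat_lit 1271250, nat_lit 1271250, nat_lit 1271250, nat_lit 1271250, nat_lit 0, nat_lit 1553750, [nat_lit 490000, nat_lit 1100000, nat_lit 1785000],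 [nat_lit 34, nat_lit 40, nat_lit 40, nat_lit 80, nat_lit 7, nat_lit 312, nat_lit 60, nat_lit 9]⟩,
 zbF0, [⟨nat_lit 19, nat_lit 74, nat_lit 100, nat_lit 66, nat_lit 263574662⟩]⟩
noncomputable def p127_l30 : Lf2 := ⟨nat_lit 0, nat_lit 15, [nat_lit 30, nat_lit 5, nat_lit 5, nat_lit 20], false, nat_lit 8, nat_lit 80, nat_lit 0, nat_lit 232, ⟨nat_lit 100, nat_lit 900, nat_lit 0, nat_lit 8, nat_lit 337, nat_lit 900, nat_lit 36, nat_lit 0, nat_lit 0, nat_lit 0, nat_lit 0, nat_lit 0, nat_lit 38673536, nat_lit 27468652, nat_lit 857812, nat_lit 3776935, true, true⟩,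
 nat_lit 0, nat_lit 0, nat_lit 926, nat_lit 0, nat_lit 2462, nat_lit 694, nat_lit 4, nat_lit 0, nat_lit 0, nat_lit 40, nat_lit 0, nat_lit 0, nat_lit 0, nat_lit 0, nat_lit 0, nat_lit 225000, nat_lit 0, nat_lit 0, [(nat_lit 28, [(nat_lit 0, nat_lit 900)])],
 ⟨p127_k16, nat_lit 0, nat_lit 0, nat_lit 135, nat_lit 0, nat_lit 0, [nat_lit 797240000, nat_lit 1269600000], [], [nat_lit 27757638244, nat_lit 28007252455, nat_lit 29367736990, nat_lit 29596924223, nat_lit 27251096794, nat_lit 27494926421, nat_lit 28834249506, nat_lit 29058661941], nat_lit 0, nat_lit 0, nat_lit 0, nat_lit 0, nat_lit 0, nat_lit 0, [], [nat_lit 66, nat_lit 40, nat_lit 40, nat_lit 80, nat_lit 67, nat_lit 226, nat_lit 20, nat_lit 11]⟩, ⟨p127_k6, nat_lit 0, nat_lit 0, nat_lit 856, nat_lit 0, nat_lit 1678592, [nat_lit 203200000, nat_lit 468800000, nat_lit 796800000], [], [nat_lit 3770866496, nat_lit 3797971888, nat_lit 3825077280, nat_lit 3848612684,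 nat_lit 3384452049, nat_lit 3401765194, nat_lit 3419078340, nat_lit 3433585471], nat_lit 1271250, nat_lit 1271250, nat_lit 1271250, nat_lit 1271250, nat_lit 0, nat_lit 1638500, [nat_lit 490000, nat_lit 1100000, nat_lit 1785000], [nat_lit 34, nat_lit 40, nat_lit 40, nat_lit 80, nat_lit 7, nat_lit 331, nat_lit 60, nat_lit 10]⟩,
 ⟨nat_lit 1118, nat_lit 1582, ⟨.ofNat (nat_lit 803793), .ofNat (nat_lit 858432), .ofNat (nat_lit 827076), .ofNat (nat_lit 881747), .ofNat (nat_lit 801882), .ofNat (nat_lit 855012), .ofNat (nat_lit 825601), .ofNat (nat_lit 878763)⟩, ⟨.ofNat (nat_lit 20000), .ofNat (nat_lit 149571), .ofNat (nat_lit 20000), .ofNat (nat_lit 172886), .ofNat (nat_lit 20000), .ofNat (nat_lit 150610), .ofNat (nat_lit 20000), .ofNat (nat_lit 174361)⟩⟩, [⟨nat_lit 3, nat_lit 100, nat_lit 31, nat_lit 76, nat_lit 157428654⟩, ⟨nat_lit 22, nat_lit 72, nat_lit 100, nat_lit 63, nat_lit 16243612⟩]⟩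
noncomputable def p127_l31 : Lf2 := ⟨nat_lit 0, nat_lit 15, [nat_lit 30, nat_lit 5, nat_lit 5, nat_lit 20], false, nat_lit 16, nat_lit 80, nat_lit 0, nat_lit 232, ⟨nat_lit 98, nat_lit 902, nat_lit 0, nat_lit 8, nat_lit 336, nat_lit 902, nat_lit 40, nat_lit 0, nat_lit 0, nat_lit 0, nat_lit 0, nat_lit 0, nat_lit 38680897, nat_lit 27310526, nat_lit 1008577, nat_lit 3825573, true, true⟩,
 nat_lit 0, nat_lit 0, nat_lit 909, nat_lit 0, nat_lit 2483, nat_lit 681, nat_lit 0, nat_lit 0, nat_lit 0, nat_lit 40, nat_lit 0, nat_lit 0, nat_lit 0, nat_lit 0, nat_lit 0, nat_lit 225500, nat_lit 0, nat_lit 0, [(nat_lit 28, [(nat_lit 0, nat_lit 902)])],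
 ⟨p127_k17, nat_lit 0, nat_lit 0, nat_lit 134, nat_lit 0, nat_lit 0, [nat_lit 796927201, nat_lit 1265128000], [], [nat_lit 27904740107, nat_lit 28160811870, nat_lit 29536483233, nat_lit 29771514170, nat_lit 27479160582, nat_lit 27723764237, nat_lit 29046806512, nat_lit 29271884489], nat_lit 0, nat_lit 0, nat_lit 0, nat_lit 0, nat_lit 0, nat_lit 0, [], [nat_lit 66, nat_lit 40, nat_lit 40, nat_lit 80, nat_lit 67, nat_lit 226, nat_lit 20, nat_lit 10]⟩, ⟨p127_k6, nat_lit 0, nat_lit 0, nat_lit 879, nat_lit 0, nat_lit 1738418, [nat_lit 199136000, nat_lit 459424000, nat_lit 780864000], [], [nat_lit 3678479592, nat_lit 3705035632, nat_lit 3731591672, nat_lit 3754645514, nat_lit 3298942199, nat_lit 3315892907, nat_lit 3332843614, nat_lit 3347762186], nat_lit 1271250, nat_lit 1271250, nat_lit 1271250, nat_lit 1271250, nat_lit 0, nat_lit 1638500, [nat_lit 490000, nat_lit 1100000, nat_lit 1785000], [nat_lit 34, nat_lit 40,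 nat_lit 40, nat_lit 80, nat_lit 7, nat_lit 337, nat_lit 60, nat_lit 10]⟩,
 ⟨nat_lit 0, nat_lit 1119, ⟨.ofNat (nat_lit 801880), .ofNat (nat_lit 855011), .ofNat (nat_lit 825170), .ofNat (nat_lit 878763), .ofNat (nat_lit 799994), .ofNat (nat_lit 849998), .ofNat (nat_lit 824532), .ofNat (nat_lit 874999)⟩, ⟨.ofNat (nat_lit 40000), .ofNat (nat_lit 150608), .ofNat (nat_lit 40000), .ofNat (nat_lit 174361), .ofNat (nat_lit 40000), .ofNat (nat_lit 149997), .ofNat (nat_lit 40000), .ofNat (nat_lit 174999)⟩⟩, [⟨nat_lit 13, nat_lit 21, nat_lit 85, nat_lit 100, nat_lit 60796603⟩, ⟨nat_lit 3, nat_lit 100, nat_lit 24, nat_lit 81, nat_lit 167417685⟩, ⟨nat_lit 22, nat_lit 72, nat_lit 100, nat_lit 65, nat_lit 15463150⟩]⟩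
noncomputable def p127_l32 : Lf2 := ⟨nat_lit 0, nat_lit 15, [nat_lit 30, nat_lit 5, nat_lit 5, nat_lit 20], false, nat_lit 0, nat_lit 80, nat_lit 0, nat_lit 200, ⟨nat_lit 141, nat_lit 859, nat_lit 0, nat_lit 9, nat_lit 352, nat_lit 859, nat_lit 32, nat_lit 0, nat_lit 0, nat_lit 0, nat_lit 0, nat_lit 0, nat_lit 37782652, nat_lit 29217348, nat_lit 0, nat_lit 3424765, true, true⟩,
 nat_lit 0, nat_lit 0, nat_lit 1309, nat_lit 0, nat_lit 2223, nat_lit 981, nat_lit 38, nat_lit 0, nat_lit 0, nat_lit 59, nat_lit 0, nat_lit 0, nat_lit 0, nat_lit 0, nat_lit 0, nat_lit 343600, nat_lit 0, nat_lit 0, [(nat_lit 28, [(nat_lit 1, nat_lit 859)])],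
 ⟨p127_k15, nat_lit 0, nat_lit 0, nat_lit 174, nat_lit 0, nat_lit 0, [nat_lit 731496400, nat_lit 741765201, nat_lit 830746400], [], [nat_lit 28318625745, nat_lit 29313171116, nat_lit 29464393154, nat_lit 30481084816, nat_lit 27921104911, nat_lit 28714654763, nat_lit 28835616443, nat_lit 29624596805], nat_lit 0, nat_lit 0, nat_lit 0, nat_lit 0, nat_lit 0, nat_lit 0, [], [nat_lit 35, nat_lit 40, nat_lit 40, nat_lit 80, nat_lit 22, nat_lit 226, nat_lit 20, nat_lit 8]⟩, ⟨p127_k6, nat_lit 0, nat_lit 0, nat_lit 852, nat_lit 0, nat_lit 1678870, [nat_lit 286512000, nat_lit 661008000, nat_lit 1123488000], [], [nat_lit 5340992154, nat_lit 5357569443, nat_lit 5501058905, nat_lit 5612054481, nat_lit 4795223208, nat_lit 4809005607, nat_lit 4844165142, nat_lit 4857004930], nat_lit 1271250, nat_lit 1271250, nat_lit 1271250, nat_lit 1271250, nat_lit 0, nat_lit 1412500, [nat_lit 490000, nat_lit 1100000, nat_lit 1785000], [nat_lit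 34, nat_lit 40, nat_lit 40, nat_lit 80, nat_lit 7, nat_lit 328, nat_lit 50, nat_lit 10]⟩,
 ⟨nat_lit 0, nat_lit 2237, ⟨.ofNat (nat_lit 864705), .ofNat (nat_lit 898913), .ofNat (nat_lit 876093), .ofNat (nat_lit 910301), .ofNat (nat_lit 849998), .ofNat (nat_lit 879996), .ofNat (nat_lit 862498), .ofNat (nat_lit 892497)⟩, ⟨.ofNat (nat_lit 0), .ofNat (nat_lit 146756), .ofNat (nat_lit 0), .ofNat (nat_lit 169532), .ofNat (nat_lit 0), .ofNat (nat_lit 149997), .ofNat (nat_lit 0), .ofNat (nat_lit 174999)⟩⟩, [⟨nat_lit 13, nat_lit 40, nat_lit 70, nat_lit 100, nat_lit 332784052⟩, ⟨nat_lit 22, nat_lit 55, nat_lit 100, nat_lit 65, nat_lit 10820069⟩]⟩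
noncomputable def p127_l33 : Lf2 := ⟨nat_lit 0, nat_lit 15, [nat_lit 30, nat_lit 5, nat_lit 5, nat_lit 20], false, nat_lit 0, nat_lit 80, nat_lit 0, nat_lit 200, ⟨nat_lit 417, nat_lit 583, nat_lit 0, nat_lit 9, nat_lit 359, nat_lit 583, nat_lit 32, nat_lit 0, nat_lit 0, nat_lit 0, nat_lit 0, nat_lit 0, nat_lit 37139338, nat_lit 29860662, nat_lit 0, nat_lit 3436171, true, true⟩,
 nat_lit 0, nat_lit 0, nat_lit 3011, nat_lit 0, nat_lit 2539, nat_lit 2347, nat_lit 177, nat_lit 0, nat_lit 0, nat_lit 527, nat_lit 0, nat_lit 0, nat_lit 0, nat_lit 0, nat_lit 0, nat_lit 233200, nat_lit 0, nat_lit 0, [(nat_lit 28, [(nat_lit 1, nat_lit 583)])],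
 ⟨p127_k15, nat_lit 0, nat_lit 0, nat_lit 176, nat_lit 0, nat_lit 0, [nat_lit 797846800, nat_lit 1557952400, nat_lit 2070096800], [], [nat_lit 29135941598, nat_lit 30272007388, nat_lit 30858894461, nat_lit 31900207849, nat_lit 27877109455, nat_lit 28704636891, nat_lit 29200703875, nat_lit 30123815476], nat_lit 0, nat_lit 0, nat_lit 0, nat_lit 0, nat_lit 0, nat_lit 0, [], [nat_lit 35, nat_lit 40, nat_lit 40, nat_lit 80, nat_lit 22, nat_lit 226, nat_lit 20, nat_lit 8]⟩, ⟨p127_k14, nat_lit 0, nat_lit 0, nat_lit 838, nat_lit 0, nat_lit 1646849, [nat_lit 847344000, nat_lit 1954896000, nat_lit 3322656000], [], [nat_lit 14184575457, nat_lit 14503945882, nat_lit 15405914738, nat_lit 15688739422, nat_lit 12487954300, nat_lit 12547257998, nat_lit 13098209023, nat_lit 13329152108], nat_lit 1271250, nat_lit 1271250, nat_lit 1271250, nat_lit 1271250, nat_lit 0, nat_lit 1412500, [nat_lit 490000, nat_lit 1100000, nat_lit 1785000],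 [nat_lit 34, nat_lit 40, nat_lit 40, nat_lit 80, nat_lit 7, nat_lit 326, nat_lit 50, nat_lit 9]⟩,
 ⟨nat_lit 0, nat_lit 2237, ⟨.ofNat (nat_lit 876093), .ofNat (nat_lit 921704), .ofNat (nat_lit 887481), .ofNat (nat_lit 933091), .ofNat (nat_lit 862498), .ofNat (nat_lit 902497), .ofNat (nat_lit 874999), .ofNat (nat_lit 914997)⟩, ⟨.ofNat (nat_lit 0), .ofNat (nat_lit 146756), .ofNat (nat_lit 0), .ofNat (nat_lit 169532), .ofNat (nat_lit 0), .ofNat (nat_lit 149997), .ofNat (nat_lit 0), .ofNat (nat_lit 174999)⟩⟩, [⟨nat_lit 13, nat_lit 42, nat_lit 66, nat_lit 100, nat_lit 649267268⟩, ⟨nat_lit 22, nat_lit 52, nat_lit 100, nat_lit 66, nat_lit 48392883⟩]⟩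
noncomputable def p127_l34 : Lf2 := ⟨nat_lit 0, nat_lit 20, [nat_lit 5, nat_lit 5, nat_lit 5, nat_lit 20], false, nat_lit 8, nat_lit 80, nat_lit 0, nat_lit 260, ⟨nat_lit 356, nat_lit 644, nat_lit 0, nat_lit 8, nat_lit 343, nat_lit 644, nat_lit 40, nat_lit 0, nat_lit 0, nat_lit 0, nat_lit 0, nat_lit 0, nat_lit 37986548, nat_lit 28021833, nat_lit 991619, nat_lit 3837253, true, true⟩,
 nat_lit 0, nat_lit 0, nat_lit 3083, nat_lit 0, nat_lit 2362, nat_lit 2311, nat_lit 202, nat_lit 0, nat_lit 0, nat_lit 190, nat_lit 0, nat_lit 0, nat_lit 0, nat_lit 0, nat_lit 0, nat_lit 257600, nat_lit 0, nat_lit 0, [(nat_lit 28, [(nat_lit 1, nat_lit 644)])],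
 ⟨p127_k11, nat_lit 0, nat_lit 0, nat_lit 178, nat_lit 0, nat_lit 0, [nat_lit 783182401, nat_lit 1377563201, nat_lit 2313872000], [], [nat_lit 26956734282, nat_lit 27190825984, nat_lit 29734901269, nat_lit 29993449888, nat_lit 26508356942, nat_lit 26731346686, nat_lit 28944201895, nat_lit 29140710967], nat_lit 0, nat_lit 0, nat_lit 0, nat_lit 0, nat_lit 0, nat_lit 0, [], [nat_lit 20, nat_lit 40, nat_lit 40, nat_lit 80, nat_lit 16, nat_lit 226, nat_lit 20, nat_lit 7]⟩, ⟨p127_k9, nat_lit 0, nat_lit 0, nat_lit 749, nat_lit 0, nat_lit 1306007, [nat_lit 723392000, nat_lit 1668928000, nat_lit 3503752000], [], [nat_lit 13133571010, nat_lit 13212813898, nat_lit 13670070927, nat_lit 13735257779, nat_lit 12010935904, nat_lit 12064653285, nat_lit 12459763431, nat_lit 12515580546], nat_lit 1271250, nat_lit 1271250, nat_lit 1271250, nat_lit 1271250, nat_lit 0, nat_lit 1836250, [nat_lit 490000, nat_lit 1100000, nat_lit 2127500],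 [nat_lit 27, nat_lit 40, nat_lit 40, nat_lit 80, nat_lit 13, nat_lit 309, nat_lit 75, nat_lit 8]⟩,
 ⟨nat_lit 1936, nat_lit 2237, ⟨.ofNat (nat_lit 807688), .ofNat (nat_lit 898916), .ofNat (nat_lit 819071), .ofNat (nat_lit 910303), .ofNat (nat_lit 805728), .ofNat (nat_lit 895154), .ofNat (nat_lit 817229), .ofNat (nat_lit 906659)⟩, ⟨.ofNat (nat_lit 20000), .ofNat (nat_lit 169532), .ofNat (nat_lit 20000), .ofNat (nat_lit 192306), .ofNat (nat_lit 20000), .ofNat (nat_lit 171255), .ofNat (nat_lit 20000), .ofNat (nat_lit 194266)⟩⟩, [⟨nat_lit 10, nat_lit 100, nat_lit 55, nat_lit 67, nat_lit 82098272⟩, ⟨nat_lit 22, nat_lit 66, nat_lit 100, nat_lit 64, nat_lit 16649031⟩]⟩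
noncomputable def p127_l35 : Lf2 := ⟨nat_lit 0, nat_lit 20, [nat_lit 5, nat_lit 5, nat_lit 5, nat_lit 20], false, nat_lit 16, nat_lit 80, nat_lit 0, nat_lit 260, ⟨nat_lit 279, nat_lit 721, nat_lit 0, nat_lit 8, nat_lit 341, nat_lit 721, nat_lit 45, nat_lit 0, nat_lit 0, nat_lit 0, nat_lit 0, nat_lit 0, nat_lit 38089947, nat_lit 27750572, nat_lit 1159481, nat_lit 3887067, true, true⟩,
 nat_lit 0, nat_lit 0, nat_lit 2445, nat_lit 0, nat_lit 2312, nat_lit 1833, nat_lit 63, nat_lit 0, nat_lit 0, nat_lit 141, nat_lit 0, nat_lit 0, nat_lit 0, nat_lit 0, nat_lit 0, nat_lit 288400, nat_lit 0, nat_lit 0, [(nat_lit 28, [(nat_lit 1, nat_lit 721)])],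
 ⟨p127_k18, nat_lit 0, nat_lit 0, nat_lit 160, nat_lit 0, nat_lit 0, [nat_lit 764671601, nat_lit 1149858801, nat_lit 1450421600], [], [nat_lit 27208571969, nat_lit 27440397974, nat_lit 29543771109, nat_lit 29749837296, nat_lit 26825999735, nat_lit 27048024719, nat_lit 29078701662, nat_lit 29289155046], nat_lit 0, nat_lit 0, nat_lit 0, nat_lit 0, nat_lit 0, nat_lit 0, [], [nat_lit 35, nat_lit 40, nat_lit 40, nat_lit 80, nat_lit 22, nat_lit 226, nat_lit 20, nat_lit 8]⟩, ⟨p127_k9, nat_lit 0, nat_lit 0, nat_lit 768, nat_lit 0, nat_lit 1364023, [nat_lit 566928000, nat_lit 1307952000, nat_lit 2745918000], [], [nat_lit 10255845093, nat_lit 10318061469, nat_lit 10648519899, nat_lit 10700315708, nat_lit 9353277183, nat_lit 9394014932, nat_lit 9614800845, nat_lit 9651342255], nat_lit 1271250, nat_lit 1271250, nat_lit 1271250, nat_lit 1271250, nat_lit 0, nat_lit 1836250, [nat_lit 490000, nat_lit 1100000, nat_lit 2127500],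 [nat_lit 27, nat_lit 40, nat_lit 40, nat_lit 80, nat_lit 13, nat_lit 314, nat_lit 75, nat_lit 8]⟩,
 ⟨nat_lit 1581, nat_lit 1937, ⟨.ofNat (nat_lit 805728), .ofNat (nat_lit 889565), .ofNat (nat_lit 817226), .ofNat (nat_lit 901070), .ofNat (nat_lit 803793), .ofNat (nat_lit 885750), .ofNat (nat_lit 815443), .ofNat (nat_lit 897407)⟩, ⟨.ofNat (nat_lit 40000), .ofNat (nat_lit 171255), .ofNat (nat_lit 40000), .ofNat (nat_lit 194266), .ofNat (nat_lit 40000), .ofNat (nat_lit 172886), .ofNat (nat_lit 40000), .ofNat (nat_lit 196201)⟩⟩, [⟨nat_lit 13, nat_lit 45, nat_lit 66, nat_lit 100, nat_lit 64376456⟩, ⟨nat_lit 10, nat_lit 100, nat_lit 52, nat_lit 69, nat_lit 76448042⟩]⟩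
noncomputable def p127_l36 : Lf2 := ⟨nat_lit 0, nat_lit 20, [nat_lit 5, nat_lit 5, nat_lit 5, nat_lit 20], false, nat_lit 8, nat_lit 80, nat_lit 0, nat_lit 244, ⟨nat_lit 1000, nat_lit 0, nat_lit 0, nat_lit 0, nat_lit 0, nat_lit 0, nat_lit 0, nat_lit 0, nat_lit 0, nat_lit 0, nat_lit 0, nat_lit 0, nat_lit 0, nat_lit 0, nat_lit 0, nat_lit 0, false, false⟩,
 nat_lit 0, nat_lit 0, nat_lit 7068, nat_lit 0, nat_lit 2953, nat_lit 5509, nat_lit 539, nat_lit 0, nat_lit 0, nat_lit 1114, nat_lit 0, nat_lit 0, nat_lit 0, nat_lit 0, nat_lit 0, nat_lit 0, nat_lit 0, nat_lit 0, [],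
 ⟨p127_k11, nat_lit 0, nat_lit 0, nat_lit 185, nat_lit 0, nat_lit 0, [nat_lit 938000000, nat_lit 3282000000, nat_lit 6250000000], [], [nat_lit 27990380544, nat_lit 28658040870, nat_lit 31928992728, nat_lit 32478034971, nat_lit 26311989347, nat_lit 26796043419, nat_lit 29963508439, nat_lit 30494838495], nat_lit 0, nat_lit 0, nat_lit 0, nat_lit 0, nat_lit 0, nat_lit 0, [], [nat_lit 20, nat_lit 40, nat_lit 40, nat_lit 80, nat_lit 16, nat_lit 226, nat_lit 20, nat_lit 7]⟩, ⟨p127_k10, nat_lit 0, nat_lit 0, nat_lit 763, nat_lit 0, nat_lit 1351893, [nat_lit 2032000000, nat_lit 4688000000, nat_lit 9842000000], [], [nat_lit 32524922636, nat_lit 32761283894, nat_lit 36613148006, nat_lit 37283950548, nat_lit 30746749169, nat_lit 30916276208, nat_lit 32018363267, nat_lit 32402300794], nat_lit 1271250, nat_lit 1271250, nat_lit 1271250, nat_lit 1271250, nat_lit 0, nat_lit 1723250, [nat_lit 490000, nat_lit 1100000, nat_lit 2127500],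 [nat_lit 27, nat_lit 40, nat_lit 40, nat_lit 80, nat_lit 13, nat_lit 313, nat_lit 75, nat_lit 8]⟩,
 zbF0, [⟨nat_lit 19, nat_lit 74, nat_lit 100, nat_lit 77, nat_lit 116888900⟩, ⟨nat_lit 22, nat_lit 64, nat_lit 100, nat_lit 64, nat_lit 795360⟩]⟩
noncomputable def p127_l37 : Lf2 := ⟨nat_lit 0, nat_lit 20, [nat_lit 5, nat_lit 5, nat_lit 5, nat_lit 20], false, nat_lit 20, nat_lit 80, nat_lit 0, nat_lit 260, ⟨nat_lit 260, nat_lit 740, nat_lit 0, nat_lit 8, nat_lit 337, nat_lit 740, nat_lit 47, nat_lit 0, nat_lit 0, nat_lit 0, nat_lit 0, nat_lit 0, nat_lit 38336019, nat_lit 27406165, nat_lit 1257816, nat_lit 3910368, true, true⟩,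
 nat_lit 0, nat_lit 0, nat_lit 2357, nat_lit 0, nat_lit 2289, nat_lit 1767, nat_lit 64, nat_lit 0, nat_lit 0, nat_lit 126, nat_lit 0, nat_lit 0, nat_lit 0, nat_lit 0, nat_lit 0, nat_lit 289700, nat_lit 0, nat_lit 0, [(nat_lit 28, [(nat_lit 0, nat_lit 42), (nat_lit 1, nat_lit 698)])],
 ⟨p127_k12, nat_lit 0, nat_lit 0, nat_lit 154, nat_lit 0, nat_lit 0, [nat_lit 763632001, nat_lit 1123962400, nat_lit 1414613600], [], [nat_lit 27218561133, nat_lit 27448981594, nat_lit 29252326631, nat_lit 29474318081, nat_lit 26862919704, nat_lit 27084199327, nat_lit 28885956889, nat_lit 29099398664], nat_lit 0, nat_lit 0, nat_lit 0, nat_lit 0, nat_lit 0, nat_lit 0, [], [nat_lit 35, nat_lit 40, nat_lit 40, nat_lit 80, nat_lit 22, nat_lit 226, nat_lit 20, nat_lit 8]⟩, ⟨p127_k9, nat_lit 0, nat_lit 0, nat_lit 796, nat_lit 0, nat_lit 1423085, [nat_lit 528320000, nat_lit 1218880000, nat_lit 2558920000], [], [nat_lit 9612592718, nat_lit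 9660076826, nat_lit 9869801797, nat_lit 9914042760, nat_lit 8687301733, nat_lit 8717114365, nat_lit 8851447312, nat_lit 8878479019], nat_lit 1271250, nat_lit 1271250, nat_lit 1271250, nat_lit 1271250, nat_lit 0, nat_lit 1836250, [nat_lit 490000, nat_lit 1100000, nat_lit 2127500], [nat_lit 27, nat_lit 40, nat_lit 40, nat_lit 80, nat_lit 13, nat_lit 320, nat_lit 75, nat_lit 8]⟩,
 ⟨nat_lit 1118, nat_lit 1582, ⟨.ofNat (nat_lit 803793), .ofNat (nat_lit 874823), .ofNat (nat_lit 815434), .ofNat (nat_lit 886480), .ofNat (nat_lit 801882), .ofNat (nat_lit 870951), .ofNat (nat_lit 813742), .ofNat (nat_lit 882826)⟩, ⟨.ofNat (nat_lit 50000), .ofNat (nat_lit 172886), .ofNat (nat_lit 50000), .ofNat (nat_lit 196201), .ofNat (nat_lit 50000), .ofNat (nat_lit 174361), .ofNat (nat_lit 50000), .ofNat (nat_lit 198112)⟩⟩, [⟨nat_lit 13, nat_lit 28, nat_lit 81, nat_lit 100, nat_lit 210620588⟩, ⟨nat_lit 22, nat_lit 69, nat_lit 100, nat_lit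 66, nat_lit 53916703⟩]⟩
noncomputable def p127_l38 : Lf2 := ⟨nat_lit 0, nat_lit 20, [nat_lit 5, nat_lit 5, nat_lit 5, nat_lit 20], false, nat_lit 20, nat_lit 80, nat_lit 0, nat_lit 244, ⟨nat_lit 1000, nat_lit 0, nat_lit 0, nat_lit 0, nat_lit 0, nat_lit 0, nat_lit 0, nat_lit 0, nat_lit 0, nat_lit 0, nat_lit 0, nat_lit 0, nat_lit 0, nat_lit 0, nat_lit 0, nat_lit 0, false, false⟩,
 nat_lit 0, nat_lit 0, nat_lit 6944, nat_lit 0, nat_lit 2940, nat_lit 5413, nat_lit 360, nat_lit 0, nat_lit 0, nat_lit 1281, nat_lit 0, nat_lit 0, nat_lit 0, nat_lit 0, nat_lit 0, nat_lit 0, nat_lit 0, nat_lit 0, [],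
 ⟨p127_k12, nat_lit 0, nat_lit 0, nat_lit 159, nat_lit 0, nat_lit 0, [nat_lit 938000000, nat_lit 3282000000, nat_lit 4688000000], [], [nat_lit 28315753300, nat_lit 28646767770, nat_lit 31451556720, nat_lit 31733765790, nat_lit 26836167480, nat_lit 27097396800, nat_lit 29827286910, nat_lit 30101571735], nat_lit 0, nat_lit 0, nat_lit 0, nat_lit 0, nat_lit 0, nat_lit 0, [], [nat_lit 35, nat_lit 40, nat_lit 40, nat_lit 80, nat_lit 22, nat_lit 226, nat_lit 20, nat_lit 8]⟩, ⟨p127_k10, nat_lit 0, nat_lit 0, nat_lit 783, nat_lit 0, nat_lit 1406396, [nat_lit 2032000000, nat_lit 4688000000, nat_lit 9842000000], [], [nat_lit 31667379477, nat_lit 31902937983, nat_lit 35273317015, nat_lit 35969974565, nat_lit 29979094199, nat_lit 30148646956, nat_lit 31021527864, nat_lit 31516551498], nat_lit 1271250, nat_lit 1271250, nat_lit 1271250, nat_lit 1271250, nat_lit 0, nat_lit 1723250, [nat_lit 490000, nat_lit 1100000, nat_lit 2127500],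 [nat_lit 27, nat_lit 40, nat_lit 40, nat_lit 80, nat_lit 13, nat_lit 317, nat_lit 75, nat_lit 8]⟩,
 zbF0, [⟨nat_lit 19, nat_lit 74, nat_lit 100, nat_lit 77, nat_lit 132879024⟩]⟩
noncomputable def p127_l39 : Lf2 := ⟨nat_lit 0, nat_lit 20, [nat_lit 5, nat_lit 5, nat_lit 5, nat_lit 20], false, nat_lit 28, nat_lit 80, nat_lit 0, nat_lit 260, ⟨nat_lit 182, nat_lit 818, nat_lit 0, nat_lit 8, nat_lit 334, nat_lit 818, nat_lit 51, nat_lit 0, nat_lit 0, nat_lit 0, nat_lit 0, nat_lit 0, nat_lit 38534582, nat_lit 27025661, nat_lit 1439757, nat_lit 3957338, true, true⟩,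
 nat_lit 0, nat_lit 0, nat_lit 1664, nat_lit 0, nat_lit 2515, nat_lit 1247, nat_lit 3, nat_lit 0, nat_lit 0, nat_lit 88, nat_lit 0, nat_lit 0, nat_lit 0, nat_lit 0, nat_lit 0, nat_lit 204500, nat_lit 0, nat_lit 0, [(nat_lit 28, [(nat_lit 0, nat_lit 818)])],
 ⟨p127_k19, nat_lit 0, nat_lit 0, nat_lit 129, nat_lit 0, nat_lit 0, [nat_lit 810064801, nat_lit 1452952000], [], [nat_lit 27738817689, nat_lit 27999949194, nat_lit 29573011385, nat_lit 29810206748, nat_lit 27317678077, nat_lit 27569381744, nat_lit 29094268716, nat_lit 29323442243], nat_lit 0, nat_lit 0, nat_lit 0, nat_lit 0, nat_lit 0, nat_lit 0, [], [nat_lit 66, nat_lit 40, nat_lit 40, nat_lit 80, nat_lit 67, nat_lit 226, nat_lit 20, nat_lit 10]⟩, ⟨p127_k9, nat_lit 0, nat_lit 0, nat_lit 835, nat_lit 0, nat_lit 1483345, [nat_lit 369824000, nat_lit 853216000, nat_lit 1791244000], [], [nat_lit 6668907176, nat_lit 6702153970, nat_lit 6817612461, nat_lit 6846508345,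 nat_lit 6010805789, nat_lit 6031608277, nat_lit 6104480647, nat_lit 6122037163], nat_lit 1271250, nat_lit 1271250, nat_lit 1271250, nat_lit 1271250, nat_lit 0, nat_lit 1836250, [nat_lit 490000, nat_lit 1100000, nat_lit 2127500], [nat_lit 27, nat_lit 40, nat_lit 40, nat_lit 80, nat_lit 13, nat_lit 328, nat_lit 75, nat_lit 9]⟩,
 ⟨nat_lit 0, nat_lit 1119, ⟨.ofNat (nat_lit 801880), .ofNat (nat_lit 860324), .ofNat (nat_lit 813527), .ofNat (nat_lit 872200), .ofNat (nat_lit 799994), .ofNat (nat_lit 854998), .ofNat (nat_lit 812265), .ofNat (nat_lit 867498)⟩, ⟨.ofNat (nat_lit 70000), .ofNat (nat_lit 174361), .ofNat (nat_lit 70000), .ofNat (nat_lit 198112), .ofNat (nat_lit 70000), .ofNat (nat_lit 174999), .ofNat (nat_lit 70000), .ofNat (nat_lit 199999)⟩⟩, [⟨nat_lit 13, nat_lit 29, nat_lit 78, nat_lit 100, nat_lit 351109372⟩, ⟨nat_lit 3, nat_lit 100, nat_lit 31, nat_lit 76, nat_lit 97724347⟩, ⟨nat_lit 22, nat_lit 70, nat_lit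 100, nat_lit 68, nat_lit 35850341⟩]⟩
noncomputable def p127_l40 : Lf2 := ⟨nat_lit 0, nat_lit 20, [nat_lit 5, nat_lit 5, nat_lit 5, nat_lit 20], false, nat_lit 28, nat_lit 80, nat_lit 0, nat_lit 244, ⟨nat_lit 1000, nat_lit 0, nat_lit 0, nat_lit 0, nat_lit 0, nat_lit 0, nat_lit 0, nat_lit 0, nat_lit 0, nat_lit 0, nat_lit 0, nat_lit 0, nat_lit 0, nat_lit 0, nat_lit 0, nat_lit 0, false, false⟩,
 nat_lit 0, nat_lit 0, nat_lit 6847, nat_lit 0, nat_lit 3122, nat_lit 5337, nat_lit 190, nat_lit 0, nat_lit 0, nat_lit 1446, nat_lit 0, nat_lit 0, nat_lit 0, nat_lit 0, nat_lit 0, nat_lit 0, nat_lit 0, nat_lit 0, [],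
 ⟨p127_k19, nat_lit 0, nat_lit 0, nat_lit 131, nat_lit 0, nat_lit 0, [nat_lit 938000000, nat_lit 3282000000], [], [nat_lit 28872025261, nat_lit 29210689785, nat_lit 31577328017, nat_lit 31872120643, nat_lit 27549138451, nat_lit 27817294688, nat_lit 30045973811, nat_lit 30333360274], nat_lit 0, nat_lit 0, nat_lit 0, nat_lit 0, nat_lit 0, nat_lit 0, [], [nat_lit 66, nat_lit 40, nat_lit 40, nat_lit 80, nat_lit 67, nat_lit 226, nat_lit 20, nat_lit 10]⟩, ⟨p127_k10, nat_lit 0, nat_lit 0, nat_lit 819, nat_lit 0, nat_lit 1461859, [nat_lit 2032000000, nat_lit 4688000000, nat_lit 9842000000], [], [nat_lit 31213149401, nat_lit 31431961516, nat_lit 34361607933, nat_lit 35074149824, nat_lit 29599473018, nat_lit 29756940010, nat_lit 30554529409, nat_lit 30921920632], nat_lit 1271250, nat_lit 1271250, nat_lit 1271250, nat_lit 1271250, nat_lit 0, nat_lit 1723250, [nat_lit 490000, nat_lit 1100000, nat_lit 2127500], [nat_lit 27,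 nat_lit 40, nat_lit 40, nat_lit 80, nat_lit 13, nat_lit 325, nat_lit 75, nat_lit 8]⟩,
 zbF0, [⟨nat_lit 19, nat_lit 74, nat_lit 100, nat_lit 77, nat_lit 143704471⟩]⟩
noncomputable def b_V_900_800_10_3 : St := ⟨true, nat_lit 0, nat_lit 1, nat_lit 1, nat_lit 80, nat_lit 360, nat_lit 400, nat_lit 320, nat_lit 340, nat_lit 320, nat_lit 400, nat_lit 40, nat_lit 80, nat_lit 0, nat_lit 80, nat_lit 0, nat_lit 260, nat_lit 40, nat_lit 80, nat_lit 0, nat_lit 0, nat_lit 0, nat_lit 0⟩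
theorem d_V_900_800_10_3 (h : EB TB.env) : Dead b_V_900_800_10_3 := chkB_sound0 h (T :=
(.spl (nat_lit 0) (nat_lit 380)
(.spl (nat_lit 3) (nat_lit 60)
(.trX (nat_lit 19) (nat_lit 81) (nat_lit 100) (nat_lit 72) (nat_lit 232) (.spl (nat_lit 1) (nat_lit 330)
(.trX (nat_lit 13) (nat_lit 79) (nat_lit 29) (nat_lit 100) (nat_lit 396) (.spl (nat_lit 0) (nat_lit 370)
(.spl (nat_lit 2) (nat_lit 360)
(.leaf p127_l19)
(.trX (nat_lit 22) (nat_lit 60) (nat_lit 100) (nat_lit 80) (nat_lit 200) (.leaf p127_l20)))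
(.trX (nat_lit 13) (nat_lit 69) (nat_lit 40) (nat_lit 100) (nat_lit 392) (.spl (nat_lit 2) (nat_lit 360)
(.leaf p127_l21)
(.trX (nat_lit 22) (nat_lit 60) (nat_lit 100) (nat_lit 80) (nat_lit 200) (.spl (nat_lit 0) (nat_lit 375)
(.leaf p127_l22)
(.trX (nat_lit 13) (nat_lit 64) (nat_lit 46) (nat_lit 100) (nat_lit 388) (.leaf p127_l23))))))))
(.trX (nat_lit 19) (nat_lit 76) (nat_lit 100) (nat_lit 72) (nat_lit 220) (.leaf p127_l24))))
(.spl (nat_lit 1) (nat_lit 330)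
(.trX (nat_lit 13) (nat_lit 79) (nat_lit 29) (nat_lit 100) (nat_lit 396) (.spl (nat_lit 5) (nat_lit 160)
(.leaf p127_l25)
(.trX (nat_lit 10) (nat_lit 100) (nat_lit 44) (nat_lit 82) (nat_lit 384) (.trZ (nat_lit 22) (nat_lit 82) (nat_lit 100) (nat_lit 44) (nat_lit 16) (.leaf p127_l26)))))
(.trX (nat_lit 19) (nat_lit 78) (nat_lit 100) (nat_lit 82) (nat_lit 244) (.leaf p127_l27))))
(.trX (nat_lit 13) (nat_lit 61) (nat_lit 47) (nat_lit 100) (nat_lit 392) (.spl (nat_lit 3) (nat_lit 60)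
(.trX (nat_lit 19) (nat_lit 81) (nat_lit 100) (nat_lit 72) (nat_lit 232) (.spl (nat_lit 2) (nat_lit 360)
(.spl (nat_lit 0) (nat_lit 390)
(.spl (nat_lit 1) (nat_lit 330)
(.leaf p127_l28)
(.trX (nat_lit 19) (nat_lit 76) (nat_lit 100) (nat_lit 72) (nat_lit 220) (.leaf p127_l29)))
(.trZ (nat_lit 3) (nat_lit 100) (nat_lit 52) (nat_lit 53) (nat_lit 8) (.spl (nat_lit 0) (nat_lit 395)
(.leaf p127_l30)
(.trZ (nat_lit 3) (nat_lit 100) (nat_lit 37) (nat_lit 68) (nat_lit 16) (.leaf p127_l31)))))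
(.trX (nat_lit 22) (nat_lit 60) (nat_lit 100) (nat_lit 80) (nat_lit 200) (.spl (nat_lit 1) (nat_lit 330)
(.trX (nat_lit 13) (nat_lit 57) (nat_lit 53) (nat_lit 100) (nat_lit 384) (.leaf p127_l32))
(.leaf p127_l33)))))
(.trZ (nat_lit 3) (nat_lit 100) (nat_lit 61) (nat_lit 47) (nat_lit 8) (.spl (nat_lit 0) (nat_lit 390)
(.spl (nat_lit 1) (nat_lit 330)
(.trX (nat_lit 13) (nat_lit 57) (nat_lit 53) (nat_lit 100) (nat_lit 384) (.spl (nat_lit 0) (nat_lit 385)
(.leaf p127_l34)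
(.trX (nat_lit 13) (nat_lit 50) (nat_lit 60) (nat_lit 100) (nat_lit 380) (.trZ (nat_lit 3) (nat_lit 100) (nat_lit 53) (nat_lit 55) (nat_lit 16) (.leaf p127_l35)))))
(.trX (nat_lit 19) (nat_lit 78) (nat_lit 100) (nat_lit 82) (nat_lit 244) (.leaf p127_l36)))
(.trX (nat_lit 13) (nat_lit 44) (nat_lit 64) (nat_lit 100) (nat_lit 380) (.trZ (nat_lit 3) (nat_lit 100) (nat_lit 44) (nat_lit 64) (nat_lit 20) (.spl (nat_lit 0) (nat_lit 395)
(.spl (nat_lit 1) (nat_lit 330)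
(.trX (nat_lit 13) (nat_lit 41) (nat_lit 68) (nat_lit 100) (nat_lit 372) (.leaf p127_l37))
(.trX (nat_lit 19) (nat_lit 78) (nat_lit 100) (nat_lit 82) (nat_lit 244) (.leaf p127_l38)))
(.trX (nat_lit 13) (nat_lit 31) (nat_lit 76) (nat_lit 100) (nat_lit 372) (.trZ (nat_lit 3) (nat_lit 100) (nat_lit 31) (nat_lit 76) (nat_lit 28) (.spl (nat_lit 1) (nat_lit 330)
(.trX (nat_lit 13) (nat_lit 29) (nat_lit 78) (nat_lit 100) (nat_lit 364) (.leaf p127_l39))
(.trX (nat_lit 19) (nat_lit 78) (nat_lit 100) (nat_lit 82) (nat_lit 244) (.leaf p127_l40)))))))))))))) (by decide +kernel)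
noncomputable def p127_l41 : Lf2 := ⟨nat_lit 0, nat_lit 20, [nat_lit 5, nat_lit 5, nat_lit 5, nat_lit 20], false, nat_lit 80, nat_lit 200, nat_lit 0, nat_lit 260, ⟨nat_lit 182, nat_lit 818, nat_lit 0, nat_lit 8, nat_lit 292, nat_lit 818, nat_lit 102, nat_lit 0, nat_lit 0, nat_lit 0, nat_lit 0, nat_lit 0, nat_lit 40648315, nat_lit 22164298, nat_lit 4187387, nat_lit 4455543, true, false⟩,
 nat_lit 0, nat_lit 0, nat_lit 1748, nat_lit 0, nat_lit 4678, nat_lit 1311, nat_lit 0, nat_lit 0, nat_lit 0, nat_lit 94, nat_lit 0, nat_lit 0, nat_lit 0, nat_lit 0, nat_lit 0, nat_lit 204500, nat_lit 0, nat_lit 0, [(nat_lit 25, [(nat_lit 0, nat_lit 818)])],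
 ⟨p127_k8, nat_lit 0, nat_lit 0, nat_lit 104, nat_lit 0, nat_lit 0, [nat_lit 795668001, nat_lit 1717002400, nat_lit 2870024000], [], [nat_lit 22391106496, nat_lit 23232799300, nat_lit 27354014816, nat_lit 28005322106, nat_lit 23609119008, nat_lit 24317527342, nat_lit 27752994868, nat_lit 28306827261], nat_lit 0, nat_lit 0, nat_lit 0, nat_lit 0, nat_lit 0, nat_lit 0, [], [nat_lit 20, nat_lit 40, nat_lit 40, nat_lit 80, nat_lit 16, nat_lit 260, nat_lit 50, nat_lit 9]⟩, ⟨p127_k9, nat_lit 0, nat_lit 0, nat_lit 793, nat_lit 0, nat_lit 1352586, [nat_lit 369824000, nat_lit 853216000, nat_lit 1791244000], [], [nat_lit 5763244494, nat_lit 5818201707, nat_lit 6157193518, nat_lit 6279457563, nat_lit 5207495871, nat_lit 5243695487, nat_lit 5348905440, nat_lit 5377884205], nat_lit 1271250, nat_lit 1271250, nat_lit 1271250, nat_lit 1271250, nat_lit 0, nat_lit 1836250, [nat_lit 490000, nat_lit 1100000, nat_lit 2127500], [nat_lit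 27, nat_lit 40, nat_lit 40, nat_lit 80, nat_lit 13, nat_lit 373, nat_lit 150, nat_lit 10]⟩,
 ⟨nat_lit 2738, nat_lit 3163, ⟨.ofNat (nat_lit 632856), .ofNat (nat_lit 815772), .ofNat (nat_lit 643928), .ofNat (nat_lit 826842), .ofNat (nat_lit 634431), .ofNat (nat_lit 811670), .ofNat (nat_lit 645634), .ofNat (nat_lit 822873)⟩, ⟨.ofNat (nat_lit 139899), .ofNat (nat_lit 322759), .ofNat (nat_lit 184209), .ofNat (nat_lit 367069), .ofNat (nat_lit 143475), .ofNat (nat_lit 320659), .ofNat (nat_lit 188310), .ofNat (nat_lit 365494)⟩⟩, [⟨nat_lit 16, nat_lit 57, nat_lit 100, nat_lit 73, nat_lit 105342004⟩, ⟨nat_lit 7, nat_lit 100, nat_lit 79, nat_lit 72, nat_lit 24105166⟩]⟩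
noncomputable def p127_l42 : Lf2 := ⟨nat_lit 0, nat_lit 20, [nat_lit 5, nat_lit 5, nat_lit 5, nat_lit 20], false, nat_lit 80, nat_lit 184, nat_lit 0, nat_lit 260, ⟨nat_lit 175, nat_lit 825, nat_lit 0, nat_lit 8, nat_lit 296, nat_lit 825, nat_lit 97, nat_lit 0, nat_lit 0, nat_lit 0, nat_lit 0, nat_lit 0, nat_lit 40452417, nat_lit 22640980, nat_lit 3906603, nat_lit 4419156, true, false⟩,
 nat_lit 0, nat_lit 0, nat_lit 1709, nat_lit 0, nat_lit 2757, nat_lit 1281, nat_lit 268, nat_lit 0, nat_lit 0, nat_lit 86, nat_lit 0, nat_lit 0, nat_lit 0, nat_lit 0, nat_lit 0, nat_lit 206250, nat_lit 0, nat_lit 0, [(nat_lit 25, [(nat_lit 0, nat_lit 825)])],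
 ⟨p127_k20, nat_lit 0, nat_lit 0, nat_lit 108, nat_lit 0, nat_lit 0, [nat_lit 794450001, nat_lit 1703610001, nat_lit 2841100000], [], [nat_lit 21659441319, nat_lit 22274787139, nat_lit 25338391139, nat_lit 25851280774, nat_lit 22998034917, nat_lit 23536276543, nat_lit 26230210438, nat_lit 26676872583], nat_lit 0, nat_lit 0, nat_lit 0, nat_lit 0, nat_lit 0, nat_lit 0, [], [nat_lit 20, nat_lit 40, nat_lit 40, nat_lit 80, nat_lit 16, nat_lit 260, nat_lit 50, nat_lit 9]⟩, ⟨p127_k9, nat_lit 0, nat_lit 0, nat_lit 854, nat_lit 0, nat_lit 1467291, [nat_lit 355600000, nat_lit 820400000, nat_lit 1722350000], [], [nat_lit 5703493127, nat_lit 5745393519, nat_lit 5978010626, nat_lit 6096633207, nat_lit 5099022917, nat_lit 5125769813, nat_lit 5179025404, nat_lit 5201234766], nat_lit 1271250, nat_lit 1271250, nat_lit 1271250, nat_lit 1271250, nat_lit 0, nat_lit 1836250, [nat_lit 490000, nat_lit 1100000, nat_lit 2127500], [nat_lit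 27, nat_lit 40, nat_lit 40, nat_lit 80, nat_lit 13, nat_lit 373, nat_lit 150, nat_lit 10]⟩,
 ⟨nat_lit 2236, nat_lit 2739, ⟨.ofNat (nat_lit 658020), .ofNat (nat_lit 811671), .ofNat (nat_lit 669219), .ofNat (nat_lit 822869), .ofNat (nat_lit 659343), .ofNat (nat_lit 807675), .ofNat (nat_lit 670720), .ofNat (nat_lit 819051)⟩, ⟨.ofNat (nat_lit 143475), .ofNat (nat_lit 297035), .ofNat (nat_lit 188310), .ofNat (nat_lit 341870), .ofNat (nat_lit 146758), .ofNat (nat_lit 294998), .ofNat (nat_lit 192306), .ofNat (nat_lit 340547)⟩⟩, [⟨nat_lit 4, nat_lit 100, nat_lit 50, nat_lit 74, nat_lit 200435443⟩, ⟨nat_lit 7, nat_lit 100, nat_lit 79, nat_lit 72, nat_lit 22256982⟩]⟩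
noncomputable def p127_l43 : Lf2 := ⟨nat_lit 0, nat_lit 20, [nat_lit 5, nat_lit 5, nat_lit 5, nat_lit 20], true, nat_lit 80, nat_lit 164, nat_lit 0, nat_lit 260, ⟨nat_lit 0, nat_lit 1000, nat_lit 0, nat_lit 8, nat_lit 301, nat_lit 1000, nat_lit 91, nat_lit 0, nat_lit 0, nat_lit 0, nat_lit 0, nat_lit 0, nat_lit 40274246, nat_lit 23183224, nat_lit 3542530, nat_lit 4364407, true, false⟩,
 nat_lit 0, nat_lit 0, nat_lit 0, nat_lit 0, nat_lit 2819, nat_lit 0, nat_lit 123, nat_lit 0, nat_lit 0, nat_lit 0, nat_lit 0, nat_lit 0, nat_lit 0, nat_lit 0, nat_lit 0, nat_lit 250000, nat_lit 0, nat_lit 0, [(nat_lit 28, [(nat_lit 0, nat_lit 1000)])],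
 ⟨p127_k11, nat_lit 0, nat_lit 0, nat_lit 116, nat_lit 0, nat_lit 0, [nat_lit 781600001, nat_lit 1083600000, nat_lit 1719333334], [], [nat_lit 22875817378, nat_lit 24096417480, nat_lit 25945584848, nat_lit 27203139604, nat_lit 23673904560, nat_lit 24731716477, nat_lit 26356033424, nat_lit 27497612489], nat_lit 0, nat_lit 0, nat_lit 0, nat_lit 0, nat_lit 0, nat_lit 0, [], [nat_lit 20, nat_lit 40, nat_lit 40, nat_lit 80, nat_lit 16, nat_lit 260, nat_lit 50, nat_lit 8]⟩, C1.Rw.none,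
 ⟨nat_lit 0, nat_lit 2237, ⟨.ofNat (nat_lit 684059), .ofNat (nat_lit 807594), .ofNat (nat_lit 694982), .ofNat (nat_lit 818584), .ofNat (nat_lit 691099), .ofNat (nat_lit 799902), .ofNat (nat_lit 703135), .ofNat (nat_lit 812004)⟩, ⟨.ofNat (nat_lit 146756), .ofNat (nat_lit 266484), .ofNat (nat_lit 192306), .ofNat (nat_lit 312035), .ofNat (nat_lit 149997), .ofNat (nat_lit 254993), .ofNat (nat_lit 199999), .ofNat (nat_lit 304995)⟩⟩, [⟨nat_lit 16, nat_lit 44, nat_lit 100, nat_lit 82, nat_lit 121339361⟩]⟩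
noncomputable def p127_l44 : Lf2 := ⟨nat_lit 0, nat_lit 20, [nat_lit 5, nat_lit 5, nat_lit 5, nat_lit 20], false, nat_lit 80, nat_lit 200, nat_lit 0, nat_lit 244, ⟨nat_lit 348, nat_lit 652, nat_lit 0, nat_lit 8, nat_lit 299, nat_lit 652, nat_lit 102, nat_lit 0, nat_lit 0, nat_lit 0, nat_lit 0, nat_lit 0, nat_lit 39947640, nat_lit 22903723, nat_lit 4148637, nat_lit 4481008, true, false⟩,
 nat_lit 0, nat_lit 0, nat_lit 2801, nat_lit 0, nat_lit 3927, nat_lit 2183, nat_lit 101, nat_lit 0, nat_lit 0, nat_lit 214, nat_lit 0, nat_lit 0, nat_lit 0, nat_lit 0, nat_lit 0, nat_lit 260800, nat_lit 0, nat_lit 0, [(nat_lit 25, [(nat_lit 1, nat_lit 652)])],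
 ⟨p127_k8, nat_lit 0, nat_lit 0, nat_lit 108, nat_lit 0, nat_lit 0, [nat_lit 877233601, nat_lit 1795526934, nat_lit 2771710400], [], [nat_lit 22151317481, nat_lit 23646369166, nat_lit 26462231769, nat_lit 27656619739, nat_lit 23539759060, nat_lit 24806850213, nat_lit 27186744787, nat_lit 28209406136], nat_lit 0, nat_lit 0, nat_lit 0, nat_lit 0, nat_lit 0, nat_lit 0, [], [nat_lit 20, nat_lit 40, nat_lit 40, nat_lit 80, nat_lit 16, nat_lit 260, nat_lit 50, nat_lit 9]⟩, ⟨p127_k10, nat_lit 0, nat_lit 0, nat_lit 849, nat_lit 0, nat_lit 1453729, [nat_lit 707136000, nat_lit 1631424000, nat_lit 3425016000], [], [nat_lit 10733910023, nat_lit 10822273415, nat_lit 11250680944, nat_lit 11455582000, nat_lit 10019213436, nat_lit 10088911970, nat_lit 10360105400, nat_lit 10417622729], nat_lit 1271250, nat_lit 1271250, nat_lit 1271250, nat_lit 1271250, nat_lit 0, nat_lit 1723250, [nat_lit 490000, nat_lit 1100000, nat_lit 2127500],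 [nat_lit 27, nat_lit 40, nat_lit 40, nat_lit 80, nat_lit 13, nat_lit 373, nat_lit 150, nat_lit 10]⟩,
 ⟨nat_lit 2236, nat_lit 3163, ⟨.ofNat (nat_lit 661911), .ofNat (nat_lit 826765), .ofNat (nat_lit 672956), .ofNat (nat_lit 837812), .ofNat (nat_lit 664755), .ofNat (nat_lit 818978), .ofNat (nat_lit 676111), .ofNat (nat_lit 830334)⟩, ⟨.ofNat (nat_lit 139899), .ofNat (nat_lit 322759), .ofNat (nat_lit 184209), .ofNat (nat_lit 367069), .ofNat (nat_lit 146758), .ofNat (nat_lit 317804), .ofNat (nat_lit 192306), .ofNat (nat_lit 363353)⟩⟩, [⟨nat_lit 16, nat_lit 54, nat_lit 100, nat_lit 73, nat_lit 288513509⟩, ⟨nat_lit 7, nat_lit 100, nat_lit 74, nat_lit 72, nat_lit 70198981⟩]⟩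
noncomputable def p127_l45 : Lf2 := ⟨nat_lit 0, nat_lit 20, [nat_lit 5, nat_lit 5, nat_lit 5, nat_lit 20], false, nat_lit 80, nat_lit 164, nat_lit 0, nat_lit 244, ⟨nat_lit 305, nat_lit 695, nat_lit 0, nat_lit 8, nat_lit 308, nat_lit 695, nat_lit 91, nat_lit 0, nat_lit 0, nat_lit 0, nat_lit 0, nat_lit 0, nat_lit 39559576, nat_lit 23938281, nat_lit 3502143, nat_lit 4386245, true, false⟩,
 nat_lit 0, nat_lit 0, nat_lit 2483, nat_lit 0, nat_lit 2664, nat_lit 1935, nat_lit 144, nat_lit 0, nat_lit 0, nat_lit 184, nat_lit 0, nat_lit 0, nat_lit 0, nat_lit 0, nat_lit 0, nat_lit 278000, nat_lit 0, nat_lit 0, [(nat_lit 28, [(nat_lit 1, nat_lit 695)])],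
 ⟨p127_k11, nat_lit 0, nat_lit 0, nat_lit 116, nat_lit 0, nat_lit 0, [nat_lit 770922000, nat_lit 1226746000, nat_lit 2002160000], [], [nat_lit 23438303600, nat_lit 24554163421, nat_lit 25960672032, nat_lit 26934134624, nat_lit 24255322502, nat_lit 25268788430, nat_lit 26563807273, nat_lit 27452131082], nat_lit 0, nat_lit 0, nat_lit 0, nat_lit 0, nat_lit 0, nat_lit 0, [], [nat_lit 20, nat_lit 40, nat_lit 40, nat_lit 80, nat_lit 16, nat_lit 260, nat_lit 50, nat_lit 8]⟩, ⟨p127_k10, nat_lit 0, nat_lit 0, nat_lit 920, nat_lit 0, nat_lit 1678267, [nat_lit 619760000, nat_lit 1429840000, nat_lit 3001810000], [], [nat_lit 9459782129, nat_lit 9540203605, nat_lit 9894901735, nat_lit 10088100040, nat_lit 8774472180, nat_lit 8826700497, nat_lit 8983475970, nat_lit 9028941147], nat_lit 1271250, nat_lit 1271250, nat_lit 1271250, nat_lit 1271250, nat_lit 0, nat_lit 1723250, [nat_lit 490000, nat_lit 1100000, nat_lit 2127500], [nat_lit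 27, nat_lit 40, nat_lit 40, nat_lit 80, nat_lit 13, nat_lit 373, nat_lit 150, nat_lit 10]⟩,
 ⟨nat_lit 0, nat_lit 2237, ⟨.ofNat (nat_lit 712639), .ofNat (nat_lit 818584), .ofNat (nat_lit 723563), .ofNat (nat_lit 829507), .ofNat (nat_lit 718688), .ofNat (nat_lit 812004), .ofNat (nat_lit 730725), .ofNat (nat_lit 824041)⟩, ⟨.ofNat (nat_lit 146756), .ofNat (nat_lit 266484), .ofNat (nat_lit 192306), .ofNat (nat_lit 312035), .ofNat (nat_lit 149997), .ofNat (nat_lit 254993), .ofNat (nat_lit 199999), .ofNat (nat_lit 304995)⟩⟩, [⟨nat_lit 16, nat_lit 35, nat_lit 100, nat_lit 80, nat_lit 396896577⟩, ⟨nat_lit 7, nat_lit 100, nat_lit 74, nat_lit 72, nat_lit 55220898⟩]⟩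
noncomputable def p127_l46 : Lf2 := ⟨nat_lit 0, nat_lit 15, [nat_lit 30, nat_lit 5, nat_lit 5, nat_lit 20], false, nat_lit 80, nat_lit 176, nat_lit 0, nat_lit 160, ⟨nat_lit 162, nat_lit 838, nat_lit 0, nat_lit 8, nat_lit 339, nat_lit 838, nat_lit 90, nat_lit 0, nat_lit 0, nat_lit 0, nat_lit 0, nat_lit 0, nat_lit 36954412, nat_lit 26769932, nat_lit 3275656, nat_lit 4425970, true, true⟩,
 nat_lit 0, nat_lit 0, nat_lit 1512, nat_lit 0, nat_lit 2991, nat_lit 1133, nat_lit 32, nat_lit 0, nat_lit 0, nat_lit 71, nat_lit 0, nat_lit 0, nat_lit 0, nat_lit 0, nat_lit 0, nat_lit 404200, nat_lit 0, nat_lit 0, [(nat_lit 25, [(nat_lit 1, nat_lit 723), (nat_lit 2, nat_lit 115)])],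
 ⟨p127_k5, nat_lit 0, nat_lit 0, nat_lit 119, nat_lit 0, nat_lit 0, [nat_lit 931612401, nat_lit 1212419067, nat_lit 1225827600], [], [nat_lit 25769665300, nat_lit 26714948182, nat_lit 27395404268, nat_lit 28273394994, nat_lit 26536234106, nat_lit 27384313809, nat_lit 27995481367, nat_lit 28776729959], nat_lit 0, nat_lit 0, nat_lit 0, nat_lit 0, nat_lit 0, nat_lit 0, [], [nat_lit 20, nat_lit 40, nat_lit 40, nat_lit 80, nat_lit 16, nat_lit 260, nat_lit 50, nat_lit 8]⟩, ⟨p127_k6, nat_lit 0, nat_lit 0, nat_lit 751, nat_lit 0, nat_lit 1440452, [nat_lit 329184000, nat_lit 759456000, nat_lit 1290816000], [], [nat_lit 5785733982, nat_lit 5813293520, nat_lit 5915387452, nat_lit 6056060115, nat_lit 5204415694, nat_lit 5226335170, nat_lit 5292093598, nat_lit 5311909705], nat_lit 1271250, nat_lit 1271250, nat_lit 1271250, nat_lit 1271250, nat_lit 0, nat_lit 1100001, [nat_lit 490000, nat_lit 1100000, nat_lit 1785000], [nat_lit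 34, nat_lit 40, nat_lit 40, nat_lit 80, nat_lit 7, nat_lit 294, nat_lit 40, nat_lit 9]⟩,
 ⟨nat_lit 2236, nat_lit 3163, ⟨.ofNat (nat_lit 815720), .ofNat (nat_lit 876741), .ofNat (nat_lit 826765), .ofNat (nat_lit 887808), .ofNat (nat_lit 807623), .ofNat (nat_lit 864706), .ofNat (nat_lit 818978), .ofNat (nat_lit 876082)⟩, ⟨.ofNat (nat_lit 139899), .ofNat (nat_lit 286187), .ofNat (nat_lit 162054), .ofNat (nat_lit 308342), .ofNat (nat_lit 146758), .ofNat (nat_lit 283595), .ofNat (nat_lit 169532), .ofNat (nat_lit 306369)⟩⟩, [⟨nat_lit 16, nat_lit 55, nat_lit 100, nat_lit 69, nat_lit 179362605⟩]⟩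
noncomputable def p127_l47 : Lf2 := ⟨nat_lit 0, nat_lit 15, [nat_lit 30, nat_lit 5, nat_lit 5, nat_lit 20], false, nat_lit 80, nat_lit 176, nat_lit 8, nat_lit 160, ⟨nat_lit 299, nat_lit 701, nat_lit 0, nat_lit 9, nat_lit 363, nat_lit 701, nat_lit 90, nat_lit 0, nat_lit 0, nat_lit 0, nat_lit 0, nat_lit 0, nat_lit 34971450, nat_lit 28890973, nat_lit 3137577, nat_lit 4437081, true, true⟩,
 nat_lit 0, nat_lit 0, nat_lit 2619, nat_lit 0, nat_lit 2914, nat_lit 1964, nat_lit 57, nat_lit 0, nat_lit 0, nat_lit 141, nat_lit 0, nat_lit 0, nat_lit 0, nat_lit 0, nat_lit 0, nat_lit 430400, nat_lit 0, nat_lit 0, [(nat_lit 25, [(nat_lit 1, nat_lit 451), (nat_lit 2, nat_lit 250)])],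
 ⟨p127_k5, nat_lit 0, nat_lit 0, nat_lit 127, nat_lit 0, nat_lit 0, [nat_lit 1028566801, nat_lit 1338046800, nat_lit 1306805200], [], [nat_lit 27595969726, nat_lit 28025846930, nat_lit 29143527661, nat_lit 29580061975, nat_lit 28225959600, nat_lit 28613283984, nat_lit 29620327383, nat_lit 30012563546], nat_lit 0, nat_lit 0, nat_lit 0, nat_lit 0, nat_lit 0, nat_lit 0, [], [nat_lit 20, nat_lit 40, nat_lit 40, nat_lit 80, nat_lit 16, nat_lit 260, nat_lit 50, nat_lit 8]⟩, ⟨p127_k6, nat_lit 0, nat_lit 0, nat_lit 689, nat_lit 0, nat_lit 1328183, [nat_lit 607568000, nat_lit 1401712000, nat_lit 2382432000], [], [nat_lit 11112189859, nat_lit 11167194560, nat_lit 11554465044, nat_lit 11770331875, nat_lit 10143841382, nat_lit 10196627482, nat_lit 10394413949, nat_lit 10443107622], nat_lit 1271250, nat_lit 1271250, nat_lit 1271250, nat_lit 1271250, nat_lit 43600, nat_lit 1100001, [nat_lit 490000, nat_lit 1100000, nat_lit 1785000],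 [nat_lit 34, nat_lit 40, nat_lit 40, nat_lit 80, nat_lit 7, nat_lit 283, nat_lit 40, nat_lit 8]⟩,
 ⟨nat_lit 2738, nat_lit 3163, ⟨.ofNat (nat_lit 876741), .ofNat (nat_lit 931599), .ofNat (nat_lit 887814), .ofNat (nat_lit 942677), .ofNat (nat_lit 870748), .ofNat (nat_lit 923903), .ofNat (nat_lit 881953), .ofNat (nat_lit 935112)⟩, ⟨.ofNat (nat_lit 139899), .ofNat (nat_lit 286187), .ofNat (nat_lit 162054), .ofNat (nat_lit 308342), .ofNat (nat_lit 143475), .ofNat (nat_lit 285223), .ofNat (nat_lit 165893), .ofNat (nat_lit 307640)⟩⟩, [⟨nat_lit 13, nat_lit 72, nat_lit 37, nat_lit 100, nat_lit 140589171⟩, ⟨nat_lit 16, nat_lit 58, nat_lit 100, nat_lit 68, nat_lit 209527748⟩]⟩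
noncomputable def p127_l48 : Lf2 := ⟨nat_lit 0, nat_lit 15, [nat_lit 30, nat_lit 5, nat_lit 5, nat_lit 20], false, nat_lit 80, nat_lit 160, nat_lit 8, nat_lit 160, ⟨nat_lit 175, nat_lit 825, nat_lit 0, nat_lit 9, nat_lit 359, nat_lit 825, nat_lit 86, nat_lit 0, nat_lit 0, nat_lit 0, nat_lit 0, nat_lit 0, nat_lit 35413407, nat_lit 28639413, nat_lit 2947180, nat_lit 4390109, true, true⟩,
 nat_lit 0, nat_lit 0, nat_lit 1599, nat_lit 0, nat_lit 3016, nat_lit 1199, nat_lit 82, nat_lit 0, nat_lit 0, nat_lit 51, nat_lit 0, nat_lit 0, nat_lit 0, nat_lit 0, nat_lit 0, nat_lit 206250, nat_lit 0, nat_lit 0, [(nat_lit 25, [(nat_lit 0, nat_lit 825)])],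
 ⟨p127_k7, nat_lit 0, nat_lit 0, nat_lit 115, nat_lit 0, nat_lit 0, [nat_lit 794450001, nat_lit 1703610001, nat_lit 2235770000], [], [nat_lit 28189273829, nat_lit 28657632701, nat_lit 29653516114, nat_lit 30091968336, nat_lit 28526426606, nat_lit 28947766814, nat_lit 29862682365, nat_lit 30262022209], nat_lit 0, nat_lit 0, nat_lit 0, nat_lit 0, nat_lit 0, nat_lit 0, [], [nat_lit 35, nat_lit 40, nat_lit 40, nat_lit 80, nat_lit 22, nat_lit 249, nat_lit 40, nat_lit 9]⟩, ⟨p127_k6, nat_lit 0, nat_lit 0, nat_lit 744, nat_lit 0, nat_lit 1440452, [nat_lit 355600000, nat_lit 820400000, nat_lit 1394400000], [], [nat_lit 6656009638, nat_lit 6688230687, nat_lit 6819528860, nat_lit 6951107724, nat_lit 6057132291, nat_lit 6082195627, nat_lit 6165791056, nat_lit 6188051130], nat_lit 1271250, nat_lit 1271250, nat_lit 1271250, nat_lit 1271250, nat_lit 43600, nat_lit 1100001, [nat_lit 490000, nat_lit 1100000, nat_lit 1785000], [nat_lit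 34, nat_lit 40, nat_lit 40, nat_lit 80, nat_lit 7, nat_lit 297, nat_lit 40, nat_lit 9]⟩,
 ⟨nat_lit 2236, nat_lit 2739, ⟨.ofNat (nat_lit 870748), .ofNat (nat_lit 917997), .ofNat (nat_lit 881957), .ofNat (nat_lit 929206), .ofNat (nat_lit 864706), .ofNat (nat_lit 910319), .ofNat (nat_lit 876094), .ofNat (nat_lit 921706)⟩, ⟨.ofNat (nat_lit 143475), .ofNat (nat_lit 261598), .ofNat (nat_lit 165893), .ofNat (nat_lit 284015), .ofNat (nat_lit 146758), .ofNat (nat_lit 260789), .ofNat (nat_lit 169532), .ofNat (nat_lit 283563)⟩⟩, [⟨nat_lit 13, nat_lit 62, nat_lit 49, nat_lit 100, nat_lit 246365005⟩, ⟨nat_lit 4, nat_lit 100, nat_lit 51, nat_lit 70, nat_lit 150545016⟩]⟩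
noncomputable def p127_l49 : Lf2 := ⟨nat_lit 0, nat_lit 20, [nat_lit 5, nat_lit 5, nat_lit 5, nat_lit 20], false, nat_lit 80, nat_lit 200, nat_lit 0, nat_lit 160, ⟨nat_lit 1000, nat_lit 0, nat_lit 0, nat_lit 0, nat_lit 0, nat_lit 0, nat_lit 0, nat_lit 0, nat_lit 0, nat_lit 0, nat_lit 0, nat_lit 0, nat_lit 0, nat_lit 0, nat_lit 0, nat_lit 0, false, false⟩,
 nat_lit 0, nat_lit 0, nat_lit 8484, nat_lit 0, nat_lit 4549, nat_lit 6363, nat_lit 434, nat_lit 0, nat_lit 0, nat_lit 597, nat_lit 0, nat_lit 0, nat_lit 0, nat_lit 0, nat_lit 0, nat_lit 0, nat_lit 0, nat_lit 0, [],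
 ⟨p127_k8, nat_lit 0, nat_lit 0, nat_lit 127, nat_lit 0, nat_lit 0, [nat_lit 938000000, nat_lit 3282000000, nat_lit 6250000000], [], [nat_lit 27906999062, nat_lit 28487522185, nat_lit 32215023765, nat_lit 32850144215, nat_lit 28422957652, nat_lit 28918036467, nat_lit 31989236724, nat_lit 32445651454], nat_lit 0, nat_lit 0, nat_lit 0, nat_lit 0, nat_lit 0, nat_lit 0, [], [nat_lit 20, nat_lit 40, nat_lit 40, nat_lit 80, nat_lit 16, nat_lit 260, nat_lit 50, nat_lit 8]⟩, ⟨p127_k9, nat_lit 0, nat_lit 0, nat_lit 683, nat_lit 0, nat_lit 1138964, [nat_lit 2032000000, nat_lit 4688000000, nat_lit 9842000000], [], [nat_lit 35479920681, nat_lit 35747827101, nat_lit 38669093756, nat_lit 39380990194, nat_lit 32254220821, nat_lit 32476147709, nat_lit 34468207437, nat_lit 34695089680], nat_lit 1271250, nat_lit 1271250, nat_lit 1271250, nat_lit 1271250, nat_lit 0, nat_lit 1100001, [nat_lit 490000, nat_lit 1100000, nat_lit 2127500],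 [nat_lit 27, nat_lit 40, nat_lit 40, nat_lit 80, nat_lit 13, nat_lit 282, nat_lit 40, nat_lit 7]⟩,
 zbF0, [⟨nat_lit 4, nat_lit 100, nat_lit 57, nat_lit 76, nat_lit 366755041⟩]⟩
noncomputable def p127_l50 : Lf2 := ⟨nat_lit 0, nat_lit 20, [nat_lit 5, nat_lit 5, nat_lit 5, nat_lit 20], false, nat_lit 80, nat_lit 184, nat_lit 0, nat_lit 160, ⟨nat_lit 655, nat_lit 345, nat_lit 0, nat_lit 8, nat_lit 347, nat_lit 345, nat_lit 102, nat_lit 0, nat_lit 0, nat_lit 0, nat_lit 0, nat_lit 0, nat_lit 35870557, nat_lit 27271271, nat_lit 3858172, nat_lit 4561663, true, true⟩,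
 nat_lit 0, nat_lit 0, nat_lit 5729, nat_lit 0, nat_lit 2982, nat_lit 4296, nat_lit 426, nat_lit 0, nat_lit 0, nat_lit 345, nat_lit 0, nat_lit 0, nat_lit 0, nat_lit 0, nat_lit 0, nat_lit 86250, nat_lit 0, nat_lit 0, [(nat_lit 25, [(nat_lit 0, nat_lit 345)])],
 ⟨p127_k20, nat_lit 0, nat_lit 0, nat_lit 128, nat_lit 0, nat_lit 0, [nat_lit 877970001, nat_lit 2621946001, nat_lit 4824460000], [], [nat_lit 26504863848, nat_lit 26976956730, nat_lit 29579730403, nat_lit 30023355740, nat_lit 27356059762, nat_lit 27776183617, nat_lit 30201586072, nat_lit 30597203361], nat_lit 0, nat_lit 0, nat_lit 0, nat_lit 0, nat_lit 0, nat_lit 0, [], [nat_lit 20, nat_lit 40, nat_lit 40, nat_lit 80, nat_lit 16, nat_lit 260, nat_lit 50, nat_lit 8]⟩, ⟨p127_k9, nat_lit 0, nat_lit 0, nat_lit 729, nat_lit 0, nat_lit 1249204, [nat_lit 1330960000, nat_lit 3070640000, nat_lit 6446510000], [], [nat_lit 23976265197, nat_lit 24122291053, nat_lit 25410036049,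 nat_lit 25892260370, nat_lit 21823022609, nat_lit 21942524138, nat_lit 22750357308, nat_lit 22845764623], nat_lit 1271250, nat_lit 1271250, nat_lit 1271250, nat_lit 1271250, nat_lit 0, nat_lit 1100001, [nat_lit 490000, nat_lit 1100000, nat_lit 2127500], [nat_lit 27, nat_lit 40, nat_lit 40, nat_lit 80, nat_lit 13, nat_lit 293, nat_lit 40, nat_lit 8]⟩,
 ⟨nat_lit 2236, nat_lit 2739, ⟨.ofNat (nat_lit 811671), .ofNat (nat_lit 917997), .ofNat (nat_lit 822869), .ofNat (nat_lit 929206), .ofNat (nat_lit 807675), .ofNat (nat_lit 910319), .ofNat (nat_lit 819051), .ofNat (nat_lit 921706)⟩, ⟨.ofNat (nat_lit 165893), .ofNat (nat_lit 319452), .ofNat (nat_lit 188310), .ofNat (nat_lit 341870), .ofNat (nat_lit 169532), .ofNat (nat_lit 317772), .ofNat (nat_lit 192306), .ofNat (nat_lit 340547)⟩⟩, [⟨nat_lit 4, nat_lit 100, nat_lit 49, nat_lit 78, nat_lit 377955322⟩]⟩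
noncomputable def p127_l51 : Lf2 := ⟨nat_lit 0, nat_lit 15, [nat_lit 30, nat_lit 5, nat_lit 5, nat_lit 20], false, nat_lit 80, nat_lit 176, nat_lit 160, nat_lit 232, ⟨nat_lit 607, nat_lit 393, nat_lit 0, nat_lit 8, nat_lit 351, nat_lit 393, nat_lit 90, nat_lit 0, nat_lit 0, nat_lit 0, nat_lit 0, nat_lit 0, nat_lit 35918486, nat_lit 27889583, nat_lit 3191931, nat_lit 4432106, true, true⟩,
 nat_lit 0, nat_lit 0, nat_lit 5385, nat_lit 0, nat_lit 3342, nat_lit 4038, nat_lit 134, nat_lit 0, nat_lit 0, nat_lit 296, nat_lit 0, nat_lit 0, nat_lit 0, nat_lit 0, nat_lit 0, nat_lit 393000, nat_lit 0, nat_lit 0, [(nat_lit 25, [(nat_lit 2, nat_lit 393)])],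
 ⟨p127_k5, nat_lit 0, nat_lit 0, nat_lit 125, nat_lit 0, nat_lit 0, [nat_lit 1146447200, nat_lit 1842467201, nat_lit 2261521600], [], [nat_lit 26330437935, nat_lit 26577455556, nat_lit 29884046536, nat_lit 30160065019, nat_lit 26972830523, nat_lit 27193718042, nat_lit 29987029510, nat_lit 30193712092], nat_lit 0, nat_lit 0, nat_lit 0, nat_lit 0, nat_lit 0, nat_lit 0, [], [nat_lit 20, nat_lit 40, nat_lit 40, nat_lit 80, nat_lit 16, nat_lit 260, nat_lit 50, nat_lit 8]⟩, ⟨p127_k6, nat_lit 0, nat_lit 0, nat_lit 582, nat_lit 0, nat_lit 1273754, [nat_lit 1233424000, nat_lit 2845616000, nat_lit 4836576000], [], [nat_lit 18945631280, nat_lit 19072619391, nat_lit 20061961644, nat_lit 20180829509, nat_lit 18935522754, nat_lit 19064303216, nat_lit 20058822494, nat_lit 20184000985], nat_lit 1271250, nat_lit 1271250, nat_lit 1271250, nat_lit 1271250, nat_lit 1100001, nat_lit 1716500, [nat_lit 490000, nat_lit 1100000, nat_lit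 1785000], [nat_lit 34, nat_lit 40, nat_lit 40, nat_lit 80, nat_lit 7, nat_lit 272, nat_lit 60, nat_lit 7]⟩,
 ⟨nat_lit 2958, nat_lit 3163, ⟨.ofNat (nat_lit 815784), .ofNat (nat_lit 931599), .ofNat (nat_lit 826861), .ofNat (nat_lit 942677), .ofNat (nat_lit 813720), .ofNat (nat_lit 927764), .ofNat (nat_lit 824858), .ofNat (nat_lit 938902)⟩, ⟨.ofNat (nat_lit 139899), .ofNat (nat_lit 286187), .ofNat (nat_lit 162054), .ofNat (nat_lit 308342), .ofNat (nat_lit 141719), .ofNat (nat_lit 285769), .ofNat (nat_lit 163996), .ofNat (nat_lit 308046)⟩⟩, [⟨nat_lit 13, nat_lit 75, nat_lit 35, nat_lit 100, nat_lit 15250192⟩, ⟨nat_lit 4, nat_lit 100, nat_lit 60, nat_lit 68, nat_lit 266181470⟩, ⟨nat_lit 7, nat_lit 100, nat_lit 78, nat_lit 66, nat_lit 239229103⟩]⟩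
noncomputable def p127_l52 : Lf2 := ⟨nat_lit 0, nat_lit 15, [nat_lit 30, nat_lit 5, nat_lit 5, nat_lit 20], false, nat_lit 80, nat_lit 168, nat_lit 160, nat_lit 232, ⟨nat_lit 294, nat_lit 706, nat_lit 0, nat_lit 8, nat_lit 350, nat_lit 706, nat_lit 88, nat_lit 0, nat_lit 0, nat_lit 0, nat_lit 0, nat_lit 0, nat_lit 36081266, nat_lit 27829141, nat_lit 3089593, nat_lit 4407916, true, true⟩,
 nat_lit 0, nat_lit 0, nat_lit 2607, nat_lit 0, nat_lit 2854, nat_lit 1954, nat_lit 200, nat_lit 0, nat_lit 0, nat_lit 143, nat_lit 0, nat_lit 0, nat_lit 0, nat_lit 0, nat_lit 0, nat_lit 282400, nat_lit 0, nat_lit 0, [(nat_lit 25, [(nat_lit 1, nat_lit 706)])],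
 ⟨p127_k21, nat_lit 0, nat_lit 0, nat_lit 127, nat_lit 0, nat_lit 0, [nat_lit 872200800, nat_lit 1672414134, nat_lit 2483631200], [], [nat_lit 26161613919, nat_lit 26393759496, nat_lit 29263850705, nat_lit 29460475517, nat_lit 26819382694, nat_lit 27030155523, nat_lit 29642932994, nat_lit 29823439286], nat_lit 0, nat_lit 0, nat_lit 0, nat_lit 0, nat_lit 0, nat_lit 0, [], [nat_lit 20, nat_lit 40, nat_lit 40, nat_lit 80, nat_lit 16, nat_lit 260, nat_lit 50, nat_lit 8]⟩, ⟨p127_k6, nat_lit 0, nat_lit 0, nat_lit 611, nat_lit 0, nat_lit 1328183, [nat_lit 597408000, nat_lit 1378272000, nat_lit 2342592000], [], [nat_lit 9191063438, nat_lit 9252563612, nat_lit 9728836773, nat_lit 9785921260, nat_lit 9186478255, nat_lit 9246034195, nat_lit 9724812709, nat_lit 9782905397], nat_lit 1271250, nat_lit 1271250, nat_lit 1271250, nat_lit 1271250, nat_lit 1100001, nat_lit 1716500, [nat_lit 490000, nat_lit 1100000, nat_lit 1785000],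 [nat_lit 34, nat_lit 40, nat_lit 40, nat_lit 80, nat_lit 7, nat_lit 273, nat_lit 60, nat_lit 7]⟩,
 ⟨nat_lit 2738, nat_lit 2959, ⟨.ofNat (nat_lit 813721), .ofNat (nat_lit 927764), .ofNat (nat_lit 824857), .ofNat (nat_lit 938902), .ofNat (nat_lit 811683), .ofNat (nat_lit 923903), .ofNat (nat_lit 822890), .ofNat (nat_lit 935112)⟩, ⟨.ofNat (nat_lit 141719), .ofNat (nat_lit 273765), .ofNat (nat_lit 163996), .ofNat (nat_lit 296042), .ofNat (nat_lit 143475), .ofNat (nat_lit 273410), .ofNat (nat_lit 165893), .ofNat (nat_lit 295828)⟩⟩, [⟨nat_lit 13, nat_lit 70, nat_lit 40, nat_lit 100, nat_lit 100917935⟩, ⟨nat_lit 4, nat_lit 100, nat_lit 57, nat_lit 69, nat_lit 198527362⟩, ⟨nat_lit 7, nat_lit 100, nat_lit 78, nat_lit 66, nat_lit 115808133⟩]⟩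
noncomputable def p127_l53 : Lf2 := ⟨nat_lit 0, nat_lit 15, [nat_lit 30, nat_lit 5, nat_lit 5, nat_lit 20], false, nat_lit 80, nat_lit 160, nat_lit 160, nat_lit 232, ⟨nat_lit 196, nat_lit 804, nat_lit 0, nat_lit 8, nat_lit 347, nat_lit 804, nat_lit 86, nat_lit 0, nat_lit 0, nat_lit 0, nat_lit 0, nat_lit 0, nat_lit 36387454, nat_lit 27607242, nat_lit 3005304, nat_lit 4384120, true, true⟩,
 nat_lit 0, nat_lit 0, nat_lit 1788, nat_lit 0, nat_lit 2966, nat_lit 1340, nat_lit 108, nat_lit 0, nat_lit 0, nat_lit 88, nat_lit 0, nat_lit 0, nat_lit 0, nat_lit 0, nat_lit 0, nat_lit 201000, nat_lit 0, nat_lit 0, [(nat_lit 25, [(nat_lit 0, nat_lit 804)])],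
 ⟨p127_k7, nat_lit 0, nat_lit 0, nat_lit 115, nat_lit 0, nat_lit 0, [nat_lit 798104001, nat_lit 1743787201, nat_lit 2298190400], [], [nat_lit 26433207512, nat_lit 26930813374, nat_lit 29561453674, nat_lit 29992768421, nat_lit 26953640144, nat_lit 27409187726, nat_lit 29798149299, nat_lit 30187894314], nat_lit 0, nat_lit 0, nat_lit 0, nat_lit 0, nat_lit 0, nat_lit 0, [], [nat_lit 35, nat_lit 40, nat_lit 40, nat_lit 80, nat_lit 22, nat_lit 249, nat_lit 40, nat_lit 9]⟩, ⟨p127_k6, nat_lit 0, nat_lit 0, nat_lit 652, nat_lit 0, nat_lit 1440452, [nat_lit 398272000, nat_lit 918848000, nat_lit 1561728000], [], [nat_lit 6245962160, nat_lit 6279323780, nat_lit 6507377852, nat_lit 6538699896, nat_lit 6213145756, nat_lit 6241552346, nat_lit 6460415673, nat_lit 6497625166], nat_lit 1271250, nat_lit 1271250, nat_lit 1271250, nat_lit 1271250, nat_lit 1100001, nat_lit 1716500, [nat_lit 490000, nat_lit 1100000, nat_lit 1785000],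 [nat_lit 34, nat_lit 40, nat_lit 40, nat_lit 80, nat_lit 7, nat_lit 283, nat_lit 60, nat_lit 8]⟩,
 ⟨nat_lit 2236, nat_lit 2739, ⟨.ofNat (nat_lit 811671), .ofNat (nat_lit 917997), .ofNat (nat_lit 822869), .ofNat (nat_lit 929206), .ofNat (nat_lit 807675), .ofNat (nat_lit 910319), .ofNat (nat_lit 819051), .ofNat (nat_lit 921706)⟩, ⟨.ofNat (nat_lit 143475), .ofNat (nat_lit 261598), .ofNat (nat_lit 165893), .ofNat (nat_lit 284015), .ofNat (nat_lit 146758), .ofNat (nat_lit 260789), .ofNat (nat_lit 169532), .ofNat (nat_lit 283563)⟩⟩, [⟨nat_lit 13, nat_lit 62, nat_lit 49, nat_lit 100, nat_lit 13309912⟩, ⟨nat_lit 13, nat_lit 54, nat_lit 57, nat_lit 100, nat_lit 2447080⟩, ⟨nat_lit 4, nat_lit 100, nat_lit 51, nat_lit 70, nat_lit 272606153⟩, ⟨nat_lit 10, nat_lit 100, nat_lit 38, nat_lit 92, nat_lit 103745036⟩]⟩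
noncomputable def p127_l54 : Lf2 := ⟨nat_lit 0, nat_lit 20, [nat_lit 5, nat_lit 5, nat_lit 5, nat_lit 20], false, nat_lit 80, nat_lit 200, nat_lit 160, nat_lit 260, ⟨nat_lit 764, nat_lit 236, nat_lit 0, nat_lit 8, nat_lit 351, nat_lit 236, nat_lit 106, nat_lit 0, nat_lit 0, nat_lit 0, nat_lit 0, nat_lit 0, nat_lit 35443094, nat_lit 27485205, nat_lit 4071701, nat_lit 4608998, true, true⟩,
 nat_lit 0, nat_lit 0, nat_lit 5825, nat_lit 0, nat_lit 3761, nat_lit 4368, nat_lit 234, nat_lit 0, nat_lit 0, nat_lit 454, nat_lit 0, nat_lit 0, nat_lit 0, nat_lit 0, nat_lit 0, nat_lit 236000, nat_lit 0, nat_lit 0, [(nat_lit 25, [(nat_lit 2, nat_lit 236)])],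
 ⟨p127_k8, nat_lit 0, nat_lit 0, nat_lit 127, nat_lit 0, nat_lit 0, [nat_lit 1063174401, nat_lit 2417547734, nat_lit 3854883200], [], [nat_lit 27043797652, nat_lit 27574891899, nat_lit 30693225872, nat_lit 31274104579, nat_lit 27886482601, nat_lit 28333412016, nat_lit 30926249716, nat_lit 31349635504], nat_lit 0, nat_lit 0, nat_lit 0, nat_lit 0, nat_lit 0, nat_lit 0, [], [nat_lit 20, nat_lit 40, nat_lit 40, nat_lit 80, nat_lit 16, nat_lit 260, nat_lit 50, nat_lit 8]⟩, ⟨p127_k9, nat_lit 0, nat_lit 0, nat_lit 581, nat_lit 0, nat_lit 1138964, [nat_lit 1552448000, nat_lit 3581632000, nat_lit 7519288000], [], [nat_lit 25782042558, nat_lit 25956056658, nat_lit 27356416734, nat_lit 27548547100, nat_lit 26224217990, nat_lit 26389410581, nat_lit 27813759197, nat_lit 27982137282], nat_lit 1271250, nat_lit 1271250, nat_lit 1271250, nat_lit 1271250, nat_lit 1100001, nat_lit 1956250, [nat_lit 490000, nat_lit 1100000, nat_lit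 2127500], [nat_lit 27, nat_lit 40, nat_lit 40, nat_lit 80, nat_lit 13, nat_lit 289, nat_lit 75, nat_lit 7]⟩,
 ⟨nat_lit 2738, nat_lit 3163, ⟨.ofNat (nat_lit 815772), .ofNat (nat_lit 931599), .ofNat (nat_lit 826842), .ofNat (nat_lit 942677), .ofNat (nat_lit 811670), .ofNat (nat_lit 923903), .ofNat (nat_lit 822873), .ofNat (nat_lit 935112)⟩, ⟨.ofNat (nat_lit 162054), .ofNat (nat_lit 344914), .ofNat (nat_lit 184209), .ofNat (nat_lit 367069), .ofNat (nat_lit 165893), .ofNat (nat_lit 343077), .ofNat (nat_lit 188310), .ofNat (nat_lit 365494)⟩⟩, [⟨nat_lit 16, nat_lit 57, nat_lit 100, nat_lit 76, nat_lit 321671320⟩, ⟨nat_lit 19, nat_lit 79, nat_lit 100, nat_lit 77, nat_lit 299286008⟩]⟩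
noncomputable def p127_l55 : Lf2 := ⟨nat_lit 0, nat_lit 20, [nat_lit 5, nat_lit 5, nat_lit 5, nat_lit 20], false, nat_lit 80, nat_lit 184, nat_lit 160, nat_lit 260, ⟨nat_lit 635, nat_lit 365, nat_lit 0, nat_lit 8, nat_lit 348, nat_lit 365, nat_lit 102, nat_lit 0, nat_lit 0, nat_lit 0, nat_lit 0, nat_lit 0, nat_lit 35826438, nat_lit 27324876, nat_lit 3848686, nat_lit 4560854, true, true⟩,
 nat_lit 0, nat_lit 0, nat_lit 5590, nat_lit 0, nat_lit 3124, nat_lit 4192, nat_lit 381, nat_lit 0, nat_lit 0, nat_lit 348, nat_lit 0, nat_lit 0, nat_lit 0, nat_lit 0, nat_lit 0, nat_lit 91250, nat_lit 0, nat_lit 0, [(nat_lit 25, [(nat_lit 0, nat_lit 365)])],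
 ⟨p127_k20, nat_lit 0, nat_lit 0, nat_lit 127, nat_lit 0, nat_lit 0, [nat_lit 874490000, nat_lit 2583682000, nat_lit 4741820000], [], [nat_lit 26709156422, nat_lit 26949530384, nat_lit 29768838155, nat_lit 30040511730, nat_lit 27506953918, nat_lit 27719984318, nat_lit 30162445144, nat_lit 30345890068], nat_lit 0, nat_lit 0, nat_lit 0, nat_lit 0, nat_lit 0, nat_lit 0, [], [nat_lit 20, nat_lit 40, nat_lit 40, nat_lit 80, nat_lit 16, nat_lit 260, nat_lit 50, nat_lit 8]⟩, ⟨p127_k9, nat_lit 0, nat_lit 0, nat_lit 599, nat_lit 0, nat_lit 1193550, [nat_lit 1290320000, nat_lit 2976880000, nat_lit 6249670000], [], [nat_lit 19987646444, nat_lit 20129354156, nat_lit 21078814505, nat_lit 21193287442, nat_lit 20141968981, nat_lit 20256513454, nat_lit 21210167868, nat_lit 21339872710], nat_lit 1271250, nat_lit 1271250, nat_lit 1271250, nat_lit 1271250, nat_lit 1100001, nat_lit 1956250, [nat_lit 490000, nat_lit 1100000, nat_lit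 2127500], [nat_lit 27, nat_lit 40, nat_lit 40, nat_lit 80, nat_lit 13, nat_lit 289, nat_lit 75, nat_lit 7]⟩,
 ⟨nat_lit 2500, nat_lit 2739, ⟨.ofNat (nat_lit 811684), .ofNat (nat_lit 917997), .ofNat (nat_lit 822890), .ofNat (nat_lit 929206), .ofNat (nat_lit 809673), .ofNat (nat_lit 914192), .ofNat (nat_lit 820960), .ofNat (nat_lit 925482)⟩, ⟨.ofNat (nat_lit 165893), .ofNat (nat_lit 319452), .ofNat (nat_lit 188310), .ofNat (nat_lit 341870), .ofNat (nat_lit 167740), .ofNat (nat_lit 318708), .ofNat (nat_lit 190321), .ofNat (nat_lit 341289)⟩⟩, [⟨nat_lit 4, nat_lit 100, nat_lit 51, nat_lit 77, nat_lit 324275816⟩, ⟨nat_lit 7, nat_lit 100, nat_lit 79, nat_lit 77, nat_lit 230405495⟩]⟩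
noncomputable def p127_l56 : Lf2 := ⟨nat_lit 0, nat_lit 20, [nat_lit 5, nat_lit 5, nat_lit 5, nat_lit 20], false, nat_lit 80, nat_lit 176, nat_lit 160, nat_lit 260, ⟨nat_lit 364, nat_lit 636, nat_lit 0, nat_lit 8, nat_lit 345, nat_lit 636, nat_lit 100, nat_lit 0, nat_lit 0, nat_lit 0, nat_lit 0, nat_lit 0, nat_lit 36085123, nat_lit 27165468, nat_lit 3749409, nat_lit 4536988, true, true⟩,
 nat_lit 0, nat_lit 0, nat_lit 3216, nat_lit 0, nat_lit 2560, nat_lit 2412, nat_lit 317, nat_lit 0, nat_lit 0, nat_lit 199, nat_lit 0, nat_lit 0, nat_lit 0, nat_lit 0, nat_lit 0, nat_lit 159000, nat_lit 0, nat_lit 0, [(nat_lit 25, [(nat_lit 0, nat_lit 636)])],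
 ⟨p127_k22, nat_lit 0, nat_lit 0, nat_lit 127, nat_lit 0, nat_lit 0, [nat_lit 827336000, nat_lit 2065204800, nat_lit 3622048000], [], [nat_lit 26142722135, nat_lit 26365907915, nat_lit 28755418998, nat_lit 28954074320, nat_lit 26995605776, nat_lit 27196737003, nat_lit 29358722048, nat_lit 29538176045], nat_lit 0, nat_lit 0, nat_lit 0, nat_lit 0, nat_lit 0, nat_lit 0, [], [nat_lit 20, nat_lit 40, nat_lit 40, nat_lit 80, nat_lit 16, nat_lit 260, nat_lit 50, nat_lit 8]⟩, ⟨p127_k9, nat_lit 0, nat_lit 0, nat_lit 618, nat_lit 0, nat_lit 1249204, [nat_lit 739648000, nat_lit 1706432000, nat_lit 3582488000], [], [nat_lit 11414374691, nat_lit 11495652291, nat_lit 12002732479, nat_lit 12068477333, nat_lit 11500962479, nat_lit 11566624028, nat_lit 12071883129, nat_lit 12141004165], nat_lit 1271250, nat_lit 1271250, nat_lit 1271250, nat_lit 1271250, nat_lit 1100001, nat_lit 1956250, [nat_lit 490000, nat_lit 1100000, nat_lit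 2127500], [nat_lit 27, nat_lit 40, nat_lit 40, nat_lit 80, nat_lit 13, nat_lit 289, nat_lit 75, nat_lit 7]⟩,
 ⟨nat_lit 2236, nat_lit 2500, ⟨.ofNat (nat_lit 809673), .ofNat (nat_lit 908386), .ofNat (nat_lit 820960), .ofNat (nat_lit 919676), .ofNat (nat_lit 807688), .ofNat (nat_lit 904617), .ofNat (nat_lit 819072), .ofNat (nat_lit 916004)⟩, ⟨.ofNat (nat_lit 167740), .ofNat (nat_lit 307095), .ofNat (nat_lit 190321), .ofNat (nat_lit 329676), .ofNat (nat_lit 169532), .ofNat (nat_lit 306369), .ofNat (nat_lit 192306), .ofNat (nat_lit 329144)⟩⟩, [⟨nat_lit 16, nat_lit 47, nat_lit 100, nat_lit 78, nat_lit 335107636⟩, ⟨nat_lit 7, nat_lit 100, nat_lit 79, nat_lit 77, nat_lit 96207194⟩, ⟨nat_lit 10, nat_lit 100, nat_lit 41, nat_lit 93, nat_lit 56130675⟩]⟩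
noncomputable def p127_l57 : Lf2 := ⟨nat_lit 0, nat_lit 15, [nat_lit 30, nat_lit 5, nat_lit 5, nat_lit 20], false, nat_lit 80, nat_lit 140, nat_lit 0, nat_lit 232, ⟨nat_lit 130, nat_lit 870, nat_lit 0, nat_lit 8, nat_lit 341, nat_lit 870, nat_lit 80, nat_lit 0, nat_lit 0, nat_lit 0, nat_lit 0, nat_lit 0, nat_lit 37080187, nat_lit 27170833, nat_lit 2748980, nat_lit 4314113, true, true⟩,
 nat_lit 0, nat_lit 0, nat_lit 1238, nat_lit 0, nat_lit 2385, nat_lit 928, nat_lit 0, nat_lit 0, nat_lit 0, nat_lit 51, nat_lit 0, nat_lit 0, nat_lit 0, nat_lit 0, nat_lit 0, nat_lit 348000, nat_lit 0, nat_lit 0, [(nat_lit 28, [(nat_lit 1, nat_lit 870)])],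
 ⟨p127_k15, nat_lit 0, nat_lit 0, nat_lit 119, nat_lit 0, nat_lit 0, [nat_lit 728852000, nat_lit 709236000, nat_lit 781352000], [], [nat_lit 25944036670, nat_lit 26861560560, nat_lit 28464550330, nat_lit 29403429016, nat_lit 26451899710, nat_lit 27314249400, nat_lit 28822056497, nat_lit 29631015260], nat_lit 0, nat_lit 0, nat_lit 0, nat_lit 0, nat_lit 0, nat_lit 0, [], [nat_lit 35, nat_lit 40, nat_lit 40, nat_lit 80, nat_lit 22, nat_lit 249, nat_lit 40, nat_lit 9]⟩, ⟨p127_k6, nat_lit 0, nat_lit 0, nat_lit 856, nat_lit 0, nat_lit 1678870, [nat_lit 264160000, nat_lit 609440000, nat_lit 1035840000], [], [nat_lit 4733370182, nat_lit 4750882494, nat_lit 5133905197, nat_lit 5237782828, nat_lit 4206074751, nat_lit 4217091180, nat_lit 4285363236, nat_lit 4293367260], nat_lit 1271250, nat_lit 1271250, nat_lit 1271250, nat_lit 1271250, nat_lit 0, nat_lit 1638500, [nat_lit 490000, nat_lit 1100000, nat_lit 1785000], [nat_lit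 34, nat_lit 40, nat_lit 40, nat_lit 80, nat_lit 7, nat_lit 333, nat_lit 60, nat_lit 10]⟩,
 ⟨nat_lit 0, nat_lit 2237, ⟨.ofNat (nat_lit 807594), .ofNat (nat_lit 898913), .ofNat (nat_lit 818584), .ofNat (nat_lit 910301), .ofNat (nat_lit 799902), .ofNat (nat_lit 879996), .ofNat (nat_lit 812004), .ofNat (nat_lit 892497)⟩, ⟨.ofNat (nat_lit 146756), .ofNat (nat_lit 232276), .ofNat (nat_lit 169532), .ofNat (nat_lit 255052), .ofNat (nat_lit 149997), .ofNat (nat_lit 224994), .ofNat (nat_lit 174999), .ofNat (nat_lit 249996)⟩⟩, [⟨nat_lit 13, nat_lit 57, nat_lit 53, nat_lit 100, nat_lit 184651217⟩, ⟨nat_lit 16, nat_lit 46, nat_lit 100, nat_lit 75, nat_lit 196989498⟩, ⟨nat_lit 19, nat_lit 78, nat_lit 100, nat_lit 66, nat_lit 786650⟩]⟩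
noncomputable def p127_l58 : Lf2 := ⟨nat_lit 0, nat_lit 20, [nat_lit 5, nat_lit 5, nat_lit 5, nat_lit 20], false, nat_lit 80, nat_lit 164, nat_lit 0, nat_lit 260, ⟨nat_lit 312, nat_lit 688, nat_lit 0, nat_lit 8, nat_lit 341, nat_lit 688, nat_lit 97, nat_lit 0, nat_lit 0, nat_lit 0, nat_lit 0, nat_lit 0, nat_lit 36521135, nat_lit 26873097, nat_lit 3605768, nat_lit 4500178, true, true⟩,
 nat_lit 0, nat_lit 0, nat_lit 2843, nat_lit 0, nat_lit 2389, nat_lit 2132, nat_lit 168, nat_lit 0, nat_lit 0, nat_lit 155, nat_lit 0, nat_lit 0, nat_lit 0, nat_lit 0, nat_lit 0, nat_lit 275200, nat_lit 0, nat_lit 0, [(nat_lit 28, [(nat_lit 1, nat_lit 688)])],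
 ⟨p127_k11, nat_lit 0, nat_lit 0, nat_lit 129, nat_lit 0, nat_lit 0, [nat_lit 772604801, nat_lit 1247446401, nat_lit 2044944000], [], [nat_lit 25959218684, nat_lit 26426836013, nat_lit 28498795308, nat_lit 28909722548, nat_lit 26663468675, nat_lit 27091488574, nat_lit 28998378735, nat_lit 29376840693], nat_lit 0, nat_lit 0, nat_lit 0, nat_lit 0, nat_lit 0, nat_lit 0, [], [nat_lit 20, nat_lit 40, nat_lit 40, nat_lit 80, nat_lit 16, nat_lit 260, nat_lit 50, nat_lit 8]⟩, ⟨p127_k9, nat_lit 0, nat_lit 0, nat_lit 758, nat_lit 0, nat_lit 1333541, [nat_lit 633984000, nat_lit 1462656000, nat_lit 3070704000], [], [nat_lit 11059112615, nat_lit 11094112983, nat_lit 12070519178, nat_lit 12192054649, nat_lit 9964214863, nat_lit 9986850405, nat_lit 10277734428, nat_lit 10297271098], nat_lit 1271250, nat_lit 1271250, nat_lit 1271250, nat_lit 1271250, nat_lit 0, nat_lit 1836250, [nat_lit 490000, nat_lit 1100000, nat_lit 2127500],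 [nat_lit 27, nat_lit 40, nat_lit 40, nat_lit 80, nat_lit 13, nat_lit 311, nat_lit 75, nat_lit 8]⟩,
 ⟨nat_lit 1581, nat_lit 2237, ⟨.ofNat (nat_lit 807675), .ofNat (nat_lit 898916), .ofNat (nat_lit 813357), .ofNat (nat_lit 904609), .ofNat (nat_lit 803781), .ofNat (nat_lit 891213), .ofNat (nat_lit 809598), .ofNat (nat_lit 897042)⟩, ⟨.ofNat (nat_lit 169532), .ofNat (nat_lit 289265), .ofNat (nat_lit 192306), .ofNat (nat_lit 312039), .ofNat (nat_lit 172886), .ofNat (nat_lit 287621), .ofNat (nat_lit 196201), .ofNat (nat_lit 310936)⟩⟩, [⟨nat_lit 13, nat_lit 48, nat_lit 63, nat_lit 100, nat_lit 20528083⟩, ⟨nat_lit 13, nat_lit 39, nat_lit 72, nat_lit 100, nat_lit 169494221⟩, ⟨nat_lit 4, nat_lit 100, nat_lit 40, nat_lit 80, nat_lit 286672251⟩, ⟨nat_lit 19, nat_lit 81, nat_lit 100, nat_lit 78, nat_lit 26724772⟩]⟩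
noncomputable def p127_l59 : Lf2 := ⟨nat_lit 0, nat_lit 20, [nat_lit 5, nat_lit 5, nat_lit 5, nat_lit 20], false, nat_lit 80, nat_lit 164, nat_lit 0, nat_lit 252, ⟨nat_lit 361, nat_lit 639, nat_lit 0, nat_lit 8, nat_lit 344, nat_lit 639, nat_lit 97, nat_lit 0, nat_lit 0, nat_lit 0, nat_lit 0, nat_lit 0, nat_lit 36328217, nat_lit 27079592, nat_lit 3592191, nat_lit 4502085, true, true⟩,
 nat_lit 0, nat_lit 0, nat_lit 3076, nat_lit 0, nat_lit 2379, nat_lit 2352, nat_lit 199, nat_lit 0, nat_lit 0, nat_lit 196, nat_lit 0, nat_lit 0, nat_lit 0, nat_lit 0, nat_lit 0, nat_lit 255600, nat_lit 0, nat_lit 0, [(nat_lit 28, [(nat_lit 1, nat_lit 639)])],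
 ⟨p127_k11, nat_lit 0, nat_lit 0, nat_lit 129, nat_lit 0, nat_lit 0, [nat_lit 784384400, nat_lit 1392349201, nat_lit 2344432000], [], [nat_lit 25942450377, nat_lit 26409383096, nat_lit 28478930913, nat_lit 28889916316, nat_lit 26650377268, nat_lit 27077810185, nat_lit 28997795934, nat_lit 29428643847], nat_lit 0, nat_lit 0, nat_lit 0, nat_lit 0, nat_lit 0, nat_lit 0, [], [nat_lit 20, nat_lit 40, nat_lit 40, nat_lit 80, nat_lit 16, nat_lit 260, nat_lit 50, nat_lit 8]⟩, ⟨p127_k23, nat_lit 0, nat_lit 0, nat_lit 755, nat_lit 0, nat_lit 1327273, [nat_lit 733552000, nat_lit 1692368000, nat_lit 3552962000], [], [nat_lit 12480857204, nat_lit 12521057236, nat_lit 13800484414, nat_lit 13937346533, nat_lit 11299552491, nat_lit 11328504067, nat_lit 11765568393, nat_lit 11796969594], nat_lit 1271250, nat_lit 1271250, nat_lit 1271250, nat_lit 1271250, nat_lit 0, nat_lit 1779750, [nat_lit 490000, nat_lit 1100000, nat_lit 2127500],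 [nat_lit 27, nat_lit 40, nat_lit 40, nat_lit 80, nat_lit 13, nat_lit 310, nat_lit 75, nat_lit 8]⟩,
 ⟨nat_lit 1581, nat_lit 2237, ⟨.ofNat (nat_lit 813357), .ofNat (nat_lit 904609), .ofNat (nat_lit 819040), .ofNat (nat_lit 910303), .ofNat (nat_lit 809598), .ofNat (nat_lit 897042), .ofNat (nat_lit 815415), .ofNat (nat_lit 902871)⟩, ⟨.ofNat (nat_lit 169532), .ofNat (nat_lit 289265), .ofNat (nat_lit 192306), .ofNat (nat_lit 312039), .ofNat (nat_lit 172886), .ofNat (nat_lit 287621), .ofNat (nat_lit 196201), .ofNat (nat_lit 310936)⟩⟩, [⟨nat_lit 13, nat_lit 40, nat_lit 70, nat_lit 100, nat_lit 173784147⟩, ⟨nat_lit 4, nat_lit 100, nat_lit 40, nat_lit 80, nat_lit 323401294⟩, ⟨nat_lit 19, nat_lit 78, nat_lit 100, nat_lit 77, nat_lit 30848475⟩]⟩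
noncomputable def p127_l60 : Lf2 := ⟨nat_lit 0, nat_lit 20, [nat_lit 5, nat_lit 5, nat_lit 5, nat_lit 20], false, nat_lit 80, nat_lit 136, nat_lit 0, nat_lit 260, ⟨nat_lit 228, nat_lit 772, nat_lit 0, nat_lit 8, nat_lit 337, nat_lit 772, nat_lit 89, nat_lit 0, nat_lit 0, nat_lit 0, nat_lit 0, nat_lit 0, nat_lit 37160035, nat_lit 26611236, nat_lit 3228729, nat_lit 4411483, true, true⟩,
 nat_lit 0, nat_lit 0, nat_lit 2146, nat_lit 0, nat_lit 2490, nat_lit 1609, nat_lit 136, nat_lit 0, nat_lit 0, nat_lit 104, nat_lit 0, nat_lit 0, nat_lit 0, nat_lit 0, nat_lit 0, nat_lit 193000, nat_lit 0, nat_lit 0, [(nat_lit 28, [(nat_lit 0, nat_lit 772)])],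
 ⟨p127_k12, nat_lit 0, nat_lit 0, nat_lit 115, nat_lit 0, nat_lit 0, [nat_lit 817259201, nat_lit 1555808001, nat_lit 2131444800], [], [nat_lit 26391164402, nat_lit 26891702562, nat_lit 28517116524, nat_lit 29041041112, nat_lit 26813926484, nat_lit 27285689022, nat_lit 28825162796, nat_lit 29247959976], nat_lit 0, nat_lit 0, nat_lit 0, nat_lit 0, nat_lit 0, nat_lit 0, [], [nat_lit 35, nat_lit 40, nat_lit 40, nat_lit 80, nat_lit 22, nat_lit 249, nat_lit 40, nat_lit 9]⟩, ⟨p127_k9, nat_lit 0, nat_lit 0, nat_lit 835, nat_lit 0, nat_lit 1483345, [nat_lit 463296000, nat_lit 1068864000, nat_lit 2243976000], [], [nat_lit 8129848368, nat_lit 8171534908, nat_lit 8657478248, nat_lit 8847495282, nat_lit 7257209345, nat_lit 7282961982, nat_lit 7399402027, nat_lit 7438512040], nat_lit 1271250, nat_lit 1271250, nat_lit 1271250, nat_lit 1271250, nat_lit 0, nat_lit 1836250, [nat_lit 490000, nat_lit 1100000, nat_lit 2127500], [nat_lit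 27, nat_lit 40, nat_lit 40, nat_lit 80, nat_lit 13, nat_lit 329, nat_lit 75, nat_lit 9]⟩,
 ⟨nat_lit 0, nat_lit 1582, ⟨.ofNat (nat_lit 803773), .ofNat (nat_lit 874821), .ofNat (nat_lit 815118), .ofNat (nat_lit 886479), .ofNat (nat_lit 799976), .ofNat (nat_lit 864997), .ofNat (nat_lit 812163), .ofNat (nat_lit 877498)⟩, ⟨.ofNat (nat_lit 172886), .ofNat (nat_lit 249373), .ofNat (nat_lit 196201), .ofNat (nat_lit 272689), .ofNat (nat_lit 174999), .ofNat (nat_lit 244996), .ofNat (nat_lit 199999), .ofNat (nat_lit 269997)⟩⟩, [⟨nat_lit 13, nat_lit 28, nat_lit 80, nat_lit 100, nat_lit 26693806⟩, ⟨nat_lit 13, nat_lit 41, nat_lit 68, nat_lit 100, nat_lit 217811205⟩, ⟨nat_lit 16, nat_lit 33, nat_lit 100, nat_lit 84, nat_lit 272592882⟩, ⟨nat_lit 19, nat_lit 79, nat_lit 100, nat_lit 77, nat_lit 19665528⟩]⟩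
noncomputable def p127_l61 : Lf2 := ⟨nat_lit 0, nat_lit 20, [nat_lit 5, nat_lit 5, nat_lit 5, nat_lit 20], false, nat_lit 80, nat_lit 200, nat_lit 0, nat_lit 244, ⟨nat_lit 1000, nat_lit 0, nat_lit 0, nat_lit 0, nat_lit 0, nat_lit 0, nat_lit 0, nat_lit 0, nat_lit 0, nat_lit 0, nat_lit 0, nat_lit 0, nat_lit 0, nat_lit 0, nat_lit 0, nat_lit 0, false, false⟩,
 nat_lit 0, nat_lit 0, nat_lit 6446, nat_lit 0, nat_lit 5168, nat_lit 5024, nat_lit 203, nat_lit 0, nat_lit 0, nat_lit 1231, nat_lit 0, nat_lit 0, nat_lit 0, nat_lit 0, nat_lit 0, nat_lit 0, nat_lit 0, nat_lit 0, [],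
 ⟨p127_k8, nat_lit 0, nat_lit 0, nat_lit 128, nat_lit 0, nat_lit 0, [nat_lit 938000000, nat_lit 3282000000, nat_lit 6250000000], [], [nat_lit 29128213159, nat_lit 29787964711, nat_lit 33836619495, nat_lit 34384132087, nat_lit 29395278039, nat_lit 29920647619, nat_lit 33300501831, nat_lit 33768132135], nat_lit 0, nat_lit 0, nat_lit 0, nat_lit 0, nat_lit 0, nat_lit 0, [], [nat_lit 20, nat_lit 40, nat_lit 40, nat_lit 80, nat_lit 16, nat_lit 260, nat_lit 50, nat_lit 8]⟩, ⟨p127_k10, nat_lit 0, nat_lit 0, nat_lit 762, nat_lit 0, nat_lit 1348061, [nat_lit 2032000000, nat_lit 4688000000, nat_lit 9842000000], [], [nat_lit 34471667321, nat_lit 34703973009, nat_lit 36393364721, nat_lit 36583741889, nat_lit 33147616474, nat_lit 33317273445, nat_lit 34567063174, nat_lit 34705072328], nat_lit 1271250, nat_lit 1271250, nat_lit 1271250, nat_lit 1271250, nat_lit 0, nat_lit 1723250, [nat_lit 490000, nat_lit 1100000, nat_lit 2127500],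 [nat_lit 27, nat_lit 40, nat_lit 40, nat_lit 80, nat_lit 13, nat_lit 314, nat_lit 75, nat_lit 8]⟩,
 zbF0, [⟨nat_lit 16, nat_lit 57, nat_lit 100, nat_lit 73, nat_lit 435619669⟩, ⟨nat_lit 19, nat_lit 74, nat_lit 100, nat_lit 72, nat_lit 241098407⟩]⟩
noncomputable def p127_l62 : Lf2 := ⟨nat_lit 0, nat_lit 20, [nat_lit 5, nat_lit 5, nat_lit 5, nat_lit 20], false, nat_lit 80, nat_lit 184, nat_lit 0, nat_lit 244, ⟨nat_lit 1000, nat_lit 0, nat_lit 0, nat_lit 0, nat_lit 0, nat_lit 0, nat_lit 0, nat_lit 0, nat_lit 0, nat_lit 0, nat_lit 0, nat_lit 0, nat_lit 0, nat_lit 0, nat_lit 0, nat_lit 0, false, false⟩,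
 nat_lit 0, nat_lit 0, nat_lit 6748, nat_lit 0, nat_lit 3733, nat_lit 5260, nat_lit 505, nat_lit 0, nat_lit 0, nat_lit 1063, nat_lit 0, nat_lit 0, nat_lit 0, nat_lit 0, nat_lit 0, nat_lit 0, nat_lit 0, nat_lit 0, [],
 ⟨p127_k20, nat_lit 0, nat_lit 0, nat_lit 130, nat_lit 0, nat_lit 0, [nat_lit 938000000, nat_lit 3282000000, nat_lit 6250000000], [], [nat_lit 26852199145, nat_lit 27381537036, nat_lit 31218103170, nat_lit 31797054505, nat_lit 27379699541, nat_lit 27845790907, nat_lit 31109263241, nat_lit 31621913517], nat_lit 0, nat_lit 0, nat_lit 0, nat_lit 0, nat_lit 0, nat_lit 0, [], [nat_lit 20, nat_lit 40, nat_lit 40, nat_lit 80, nat_lit 16, nat_lit 260, nat_lit 50, nat_lit 8]⟩, ⟨p127_k10, nat_lit 0, nat_lit 0, nat_lit 814, nat_lit 0, nat_lit 1453729, [nat_lit 2032000000, nat_lit 4688000000, nat_lit 9842000000], [], [nat_lit 35028150605, nat_lit 35246470305, nat_lit 36743846206, nat_lit 36923900090, nat_lit 33485509518,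 nat_lit 33643105137, nat_lit 34738852515, nat_lit 34867424181], nat_lit 1271250, nat_lit 1271250, nat_lit 1271250, nat_lit 1271250, nat_lit 0, nat_lit 1723250, [nat_lit 490000, nat_lit 1100000, nat_lit 2127500], [nat_lit 27, nat_lit 40, nat_lit 40, nat_lit 80, nat_lit 13, nat_lit 326, nat_lit 75, nat_lit 8]⟩,
 zbF0, [⟨nat_lit 4, nat_lit 100, nat_lit 50, nat_lit 74, nat_lit 524753003⟩, ⟨nat_lit 7, nat_lit 100, nat_lit 74, nat_lit 72, nat_lit 234274290⟩]⟩
noncomputable def p127_l63 : Lf2 := ⟨nat_lit 0, nat_lit 20, [nat_lit 5, nat_lit 5, nat_lit 5, nat_lit 20], false, nat_lit 80, nat_lit 164, nat_lit 0, nat_lit 244, ⟨nat_lit 627, nat_lit 373, nat_lit 0, nat_lit 8, nat_lit 349, nat_lit 373, nat_lit 92, nat_lit 0, nat_lit 0, nat_lit 0, nat_lit 0, nat_lit 0, nat_lit 36002778, nat_lit 27683983, nat_lit 3313239, nat_lit 4454860, true, true⟩,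
 nat_lit 0, nat_lit 0, nat_lit 4417, nat_lit 0, nat_lit 2571, nat_lit 3443, nat_lit 306, nat_lit 0, nat_lit 0, nat_lit 555, nat_lit 0, nat_lit 0, nat_lit 0, nat_lit 0, nat_lit 0, nat_lit 149200, nat_lit 0, nat_lit 0, [(nat_lit 28, [(nat_lit 1, nat_lit 373)])],
 ⟨p127_k11, nat_lit 0, nat_lit 0, nat_lit 131, nat_lit 0, nat_lit 0, [nat_lit 848330800, nat_lit 2178964400, nat_lit 3970224000], [], [nat_lit 26363546134, nat_lit 26820669479, nat_lit 29273982715, nat_lit 29690079315, nat_lit 26994242415, nat_lit 27416625631, nat_lit 29732779115, nat_lit 30158034593], nat_lit 0, nat_lit 0, nat_lit 0, nat_lit 0, nat_lit 0, nat_lit 0, [], [nat_lit 20, nat_lit 40, nat_lit 40, nat_lit 80, nat_lit 16, nat_lit 260, nat_lit 50, nat_lit 8]⟩, ⟨p127_k10, nat_lit 0, nat_lit 0, nat_lit 865, nat_lit 0, nat_lit 1563869, [nat_lit 1274064000, nat_lit 2939376000, nat_lit 6170934000], [], [nat_lit 22286235600, nat_lit 22414314243, nat_lit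 23239265694, nat_lit 23345514681, nat_lit 21182885386, nat_lit 21274123494, nat_lit 21870354552, nat_lit 21944959904], nat_lit 1271250, nat_lit 1271250, nat_lit 1271250, nat_lit 1271250, nat_lit 0, nat_lit 1723250, [nat_lit 490000, nat_lit 1100000, nat_lit 2127500], [nat_lit 27, nat_lit 40, nat_lit 40, nat_lit 80, nat_lit 13, nat_lit 339, nat_lit 75, nat_lit 9]⟩,
 ⟨nat_lit 1581, nat_lit 2237, ⟨.ofNat (nat_lit 819040), .ofNat (nat_lit 921706), .ofNat (nat_lit 830404), .ofNat (nat_lit 933093), .ofNat (nat_lit 815415), .ofNat (nat_lit 913798), .ofNat (nat_lit 827050), .ofNat (nat_lit 925455)⟩, ⟨.ofNat (nat_lit 146758), .ofNat (nat_lit 266490), .ofNat (nat_lit 192306), .ofNat (nat_lit 312039), .ofNat (nat_lit 149571), .ofNat (nat_lit 264306), .ofNat (nat_lit 196201), .ofNat (nat_lit 310936)⟩⟩, [⟨nat_lit 4, nat_lit 100, nat_lit 41, nat_lit 77, nat_lit 463726808⟩, ⟨nat_lit 19, nat_lit 74, nat_lit 100, nat_lit 72, nat_lit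 142653417⟩]⟩
noncomputable def p127_l64 : Lf2 := ⟨nat_lit 0, nat_lit 20, [nat_lit 5, nat_lit 5, nat_lit 5, nat_lit 20], false, nat_lit 80, nat_lit 136, nat_lit 0, nat_lit 244, ⟨nat_lit 311, nat_lit 689, nat_lit 0, nat_lit 8, nat_lit 344, nat_lit 689, nat_lit 84, nat_lit 0, nat_lit 0, nat_lit 0, nat_lit 0, nat_lit 0, nat_lit 36728047, nat_lit 27329639, nat_lit 2942314, nat_lit 4363466, true, true⟩,
 nat_lit 0, nat_lit 0, nat_lit 2364, nat_lit 0, nat_lit 2538, nat_lit 1842, nat_lit 145, nat_lit 0, nat_lit 0, nat_lit 166, nat_lit 0, nat_lit 0, nat_lit 0, nat_lit 0, nat_lit 0, nat_lit 172250, nat_lit 0, nat_lit 0, [(nat_lit 28, [(nat_lit 0, nat_lit 689)])],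
 ⟨p127_k12, nat_lit 0, nat_lit 0, nat_lit 118, nat_lit 0, nat_lit 0, [nat_lit 830240401, nat_lit 1741396000, nat_lit 2406307600], [], [nat_lit 26570807317, nat_lit 27074944709, nat_lit 29057920135, nat_lit 29532922001, nat_lit 26981337306, nat_lit 27456325122, nat_lit 29382211612, nat_lit 29831033141], nat_lit 0, nat_lit 0, nat_lit 0, nat_lit 0, nat_lit 0, nat_lit 0, [], [nat_lit 35, nat_lit 40, nat_lit 40, nat_lit 80, nat_lit 22, nat_lit 249, nat_lit 40, nat_lit 9]⟩, ⟨p127_k10, nat_lit 0, nat_lit 0, nat_lit 905, nat_lit 0, nat_lit 1678267, [nat_lit 631952000, nat_lit 1457968000, nat_lit 3060862000], [], [nat_lit 11302957421, nat_lit 11349659254, nat_lit 11591690376, nat_lit 11630869470, nat_lit 10505572815, nat_lit 10537949886, nat_lit 10752405463, nat_lit 10786844292], nat_lit 1271250, nat_lit 1271250, nat_lit 1271250, nat_lit 1271250, nat_lit 0, nat_lit 1723250, [nat_lit 490000, nat_lit 1100000, nat_lit 2127500],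 [nat_lit 27, nat_lit 40, nat_lit 40, nat_lit 80, nat_lit 13, nat_lit 347, nat_lit 75, nat_lit 9]⟩,
 ⟨nat_lit 0, nat_lit 1582, ⟨.ofNat (nat_lit 815118), .ofNat (nat_lit 897406), .ofNat (nat_lit 826447), .ofNat (nat_lit 909064), .ofNat (nat_lit 812163), .ofNat (nat_lit 887498), .ofNat (nat_lit 824335), .ofNat (nat_lit 899998)⟩, ⟨.ofNat (nat_lit 149570), .ofNat (nat_lit 226057), .ofNat (nat_lit 196201), .ofNat (nat_lit 272689), .ofNat (nat_lit 149998), .ofNat (nat_lit 219995), .ofNat (nat_lit 199999), .ofNat (nat_lit 269997)⟩⟩, [⟨nat_lit 13, nat_lit 44, nat_lit 64, nat_lit 100, nat_lit 178342444⟩, ⟨nat_lit 16, nat_lit 33, nat_lit 100, nat_lit 84, nat_lit 372745759⟩, ⟨nat_lit 7, nat_lit 100, nat_lit 74, nat_lit 72, nat_lit 64895259⟩]⟩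
noncomputable def b_V_900_800_10_4 : St := ⟨true, nat_lit 0, nat_lit 1, nat_lit 1, nat_lit 80, nat_lit 360, nat_lit 400, nat_lit 320, nat_lit 340, nat_lit 200, nat_lit 400, nat_lit 40, nat_lit 80, nat_lit 80, nat_lit 200, nat_lit 0, nat_lit 260, nat_lit 40, nat_lit 80, nat_lit 0, nat_lit 0, nat_lit 0, nat_lit 0⟩
theorem d_V_900_800_10_4 (h : EB TB.env) : Dead b_V_900_800_10_4 := chkB_sound0 h (T :=
(.spl (nat_lit 2) (nat_lit 320)
(.spl (nat_lit 1) (nat_lit 330)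
(.spl (nat_lit 0) (nat_lit 380)
(.spl (nat_lit 0) (nat_lit 370)
(.leaf p127_l41)
(.trZ (nat_lit 0) (nat_lit 80) (nat_lit 53) (nat_lit 100) (nat_lit 216) (.trX (nat_lit 16) (nat_lit 53) (nat_lit 100) (nat_lit 80) (nat_lit 184) (.leaf p127_l42))))
(.trZ (nat_lit 0) (nat_lit 82) (nat_lit 44) (nat_lit 100) (nat_lit 236) (.trX (nat_lit 16) (nat_lit 44) (nat_lit 100) (nat_lit 82) (nat_lit 164) (.leaf p127_l43))))
(.trZ (nat_lit 0) (nat_lit 76) (nat_lit 60) (nat_lit 100) (nat_lit 212) (.trX (nat_lit 19) (nat_lit 78) (nat_lit 100) (nat_lit 82) (nat_lit 244) (.spl (nat_lit 0) (nat_lit 380)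
(.leaf p127_l44)
(.trZ (nat_lit 0) (nat_lit 79) (nat_lit 45) (nat_lit 100) (nat_lit 248) (.trX (nat_lit 16) (nat_lit 44) (nat_lit 100) (nat_lit 82) (nat_lit 164) (.leaf p127_l45)))))))
(.spl (nat_lit 1) (nat_lit 330)
(.trX (nat_lit 13) (nat_lit 79) (nat_lit 29) (nat_lit 100) (nat_lit 396) (.spl (nat_lit 0) (nat_lit 380)
(.spl (nat_lit 5) (nat_lit 160)
(.spl (nat_lit 3) (nat_lit 60)
(.trX (nat_lit 16) (nat_lit 61) (nat_lit 100) (nat_lit 72) (nat_lit 176) (.spl (nat_lit 2) (nat_lit 360)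
(.leaf p127_l46)
(.trZ (nat_lit 9) (nat_lit 100) (nat_lit 75) (nat_lit 35) (nat_lit 8) (.spl (nat_lit 0) (nat_lit 370)
(.leaf p127_l47)
(.trX (nat_lit 13) (nat_lit 69) (nat_lit 40) (nat_lit 100) (nat_lit 392) (.trX (nat_lit 16) (nat_lit 54) (nat_lit 100) (nat_lit 73) (nat_lit 160) (.leaf p127_l48)))))))
(.spl (nat_lit 0) (nat_lit 370)
(.leaf p127_l49)
(.trX (nat_lit 13) (nat_lit 69) (nat_lit 40) (nat_lit 100) (nat_lit 392) (.trX (nat_lit 16) (nat_lit 53) (nat_lit 100) (nat_lit 80) (nat_lit 184) (.leaf p127_l50)))))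
(.spl (nat_lit 3) (nat_lit 60)
(.trX (nat_lit 16) (nat_lit 61) (nat_lit 100) (nat_lit 72) (nat_lit 176) (.trX (nat_lit 19) (nat_lit 81) (nat_lit 100) (nat_lit 72) (nat_lit 232) (.spl (nat_lit 0) (nat_lit 370)
(.spl (nat_lit 0) (nat_lit 365)
(.leaf p127_l51)
(.trX (nat_lit 16) (nat_lit 57) (nat_lit 100) (nat_lit 73) (nat_lit 168) (.leaf p127_l52)))
(.trX (nat_lit 13) (nat_lit 69) (nat_lit 40) (nat_lit 100) (nat_lit 392) (.trX (nat_lit 16) (nat_lit 54) (nat_lit 100) (nat_lit 73) (nat_lit 160) (.leaf p127_l53))))))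
(.spl (nat_lit 0) (nat_lit 370)
(.leaf p127_l54)
(.trX (nat_lit 13) (nat_lit 69) (nat_lit 40) (nat_lit 100) (nat_lit 392) (.trX (nat_lit 16) (nat_lit 53) (nat_lit 100) (nat_lit 80) (nat_lit 184) (.spl (nat_lit 0) (nat_lit 375)
(.leaf p127_l55)
(.trX (nat_lit 13) (nat_lit 64) (nat_lit 46) (nat_lit 100) (nat_lit 388) (.trX (nat_lit 16) (nat_lit 49) (nat_lit 100) (nat_lit 81) (nat_lit 176) (.leaf p127_l56)))))))))
(.trX (nat_lit 13) (nat_lit 57) (nat_lit 53) (nat_lit 100) (nat_lit 384) (.trX (nat_lit 16) (nat_lit 44) (nat_lit 100) (nat_lit 82) (nat_lit 164) (.spl (nat_lit 3) (nat_lit 60)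
(.trX (nat_lit 16) (nat_lit 46) (nat_lit 100) (nat_lit 75) (nat_lit 140) (.trX (nat_lit 19) (nat_lit 81) (nat_lit 100) (nat_lit 72) (nat_lit 232) (.leaf p127_l57)))
(.spl (nat_lit 0) (nat_lit 390)
(.spl (nat_lit 1) (nat_lit 325)
(.leaf p127_l58)
(.trX (nat_lit 19) (nat_lit 81) (nat_lit 100) (nat_lit 83) (nat_lit 252) (.leaf p127_l59)))
(.trX (nat_lit 13) (nat_lit 41) (nat_lit 68) (nat_lit 100) (nat_lit 372) (.trX (nat_lit 16) (nat_lit 33) (nat_lit 100) (nat_lit 84) (nat_lit 136) (.leaf p127_l60)))))))))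
(.trX (nat_lit 19) (nat_lit 78) (nat_lit 100) (nat_lit 82) (nat_lit 244) (.spl (nat_lit 0) (nat_lit 380)
(.spl (nat_lit 0) (nat_lit 370)
(.leaf p127_l61)
(.trX (nat_lit 13) (nat_lit 74) (nat_lit 33) (nat_lit 100) (nat_lit 396) (.trX (nat_lit 16) (nat_lit 53) (nat_lit 100) (nat_lit 80) (nat_lit 184) (.leaf p127_l62))))
(.trX (nat_lit 13) (nat_lit 61) (nat_lit 47) (nat_lit 100) (nat_lit 392) (.trX (nat_lit 16) (nat_lit 44) (nat_lit 100) (nat_lit 82) (nat_lit 164) (.spl (nat_lit 0) (nat_lit 390)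
(.leaf p127_l63)
(.trX (nat_lit 13) (nat_lit 44) (nat_lit 64) (nat_lit 100) (nat_lit 380) (.trX (nat_lit 16) (nat_lit 33) (nat_lit 100) (nat_lit 84) (nat_lit 136) (.leaf p127_l64))))))))))) (by decide +kernel)
noncomputable def p127_l65 : Lf2 := ⟨nat_lit 0, nat_lit 20, [nat_lit 5, nat_lit 5, nat_lit 5, nat_lit 20], false, nat_lit 0, nat_lit 200, nat_lit 0, nat_lit 260, ⟨nat_lit 1000, nat_lit 0, nat_lit 0, nat_lit 0, nat_lit 0, nat_lit 0, nat_lit 0, nat_lit 0, nat_lit 0, nat_lit 0, nat_lit 0, nat_lit 0, nat_lit 0, nat_lit 0, nat_lit 0, nat_lit 0, false, false⟩,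
 nat_lit 0, nat_lit 0, nat_lit 0, nat_lit 0, nat_lit 5966, nat_lit 9999, nat_lit 0, nat_lit 0, nat_lit 0, nat_lit 0, nat_lit 0, nat_lit 0, nat_lit 0, nat_lit 0, nat_lit 0, nat_lit 0, nat_lit 0, nat_lit 0, [],
 ⟨p127_k24, nat_lit 0, nat_lit 0, nat_lit 202, nat_lit 0, nat_lit 0, [nat_lit 938000000, nat_lit 6250000000], [], [nat_lit 32159396680, nat_lit 35421905024, nat_lit 40917819736, nat_lit 43668023416, nat_lit 29525566504, nat_lit 32095585564, nat_lit 36405719780, nat_lit 38016782204], nat_lit 0, nat_lit 0, nat_lit 0, nat_lit 0, nat_lit 0, nat_lit 0, [], [nat_lit 88, nat_lit 40, nat_lit 40, nat_lit 80, nat_lit 89, nat_lit 260, nat_lit 50, nat_lit 9]⟩, ⟨p127_k25, nat_lit 0, nat_lit 0, nat_lit 225, nat_lit 0, nat_lit 0, [nat_lit 2032000000, nat_lit 9842000000], [], [nat_lit 38927210864, nat_lit 40359012956, nat_lit 49248690244, nat_lit 51078257976, nat_lit 31863759030, nat_lit 32806159253, nat_lit 37510486170,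 nat_lit 38773271599], nat_lit 0, nat_lit 0, nat_lit 0, nat_lit 0, nat_lit 0, nat_lit 0, [], [nat_lit 94, nat_lit 40, nat_lit 40, nat_lit 80, nat_lit 95, nat_lit 401, nat_lit 175, nat_lit 11]⟩,
 zbF0, [⟨nat_lit 4, nat_lit 100, nat_lit 46, nat_lit 75, nat_lit 64562320⟩]⟩
noncomputable def p127_l66 : Lf2 := ⟨nat_lit 0, nat_lit 20, [nat_lit 5, nat_lit 5, nat_lit 5, nat_lit 20], false, nat_lit 0, nat_lit 200, nat_lit 0, nat_lit 260, ⟨nat_lit 164, nat_lit 836, nat_lit 0, nat_lit 8, nat_lit 314, nat_lit 836, nat_lit 69, nat_lit 0, nat_lit 0, nat_lit 0, nat_lit 0, nat_lit 0, nat_lit 0, nat_lit 0, nat_lit 0, nat_lit 5000000, true, false⟩,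
 nat_lit 0, nat_lit 0, nat_lit 1510, nat_lit 0, nat_lit 3128, nat_lit 1132, nat_lit 85, nat_lit 0, nat_lit 0, nat_lit 59, nat_lit 0, nat_lit 0, nat_lit 0, nat_lit 0, nat_lit 0, nat_lit 334400, nat_lit 0, nat_lit 0, [(nat_lit 25, [(nat_lit 1, nat_lit 836)])],
 ⟨p127_k8, nat_lit 0, nat_lit 0, nat_lit 192, nat_lit 0, nat_lit 0, [nat_lit 860084801, nat_lit 1376031467, nat_lit 1790107200], [], [nat_lit 23889503090, nat_lit 25053503266, nat_lit 31811776560, nat_lit 32925775527, nat_lit 24369482707, nat_lit 25294416987, nat_lit 30008912181, nat_lit 30936767128], nat_lit 0, nat_lit 0, nat_lit 0, nat_lit 0, nat_lit 0, nat_lit 0, [], [nat_lit 20, nat_lit 40, nat_lit 40, nat_lit 80, nat_lit 16, nat_lit 260, nat_lit 50, nat_lit 9]⟩, ⟨p127_k9, nat_lit 0, nat_lit 0, nat_lit 858, nat_lit 0, nat_lit 1467291, [nat_lit 333248000, nat_lit 768832000, nat_lit 1614088000], [], [nat_lit 5958972135, nat_lit 5999056619, nat_lit 6628589513,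 nat_lit 6711273261, nat_lit 5472382967, nat_lit 5498542159, nat_lit 5719154911, nat_lit 5732717147], nat_lit 1271250, nat_lit 1271250, nat_lit 1271250, nat_lit 1271250, nat_lit 0, nat_lit 1836250, [nat_lit 490000, nat_lit 1100000, nat_lit 2127500], [nat_lit 27, nat_lit 40, nat_lit 40, nat_lit 80, nat_lit 13, nat_lit 401, nat_lit 175, nat_lit 11]⟩,
 ⟨nat_lit 2236, nat_lit 3163, ⟨.ofNat (nat_lit 632548), .ofNat (nat_lit 931599), .ofNat (nat_lit 643594), .ofNat (nat_lit 942677), .ofNat (nat_lit 636264), .ofNat (nat_lit 916020), .ofNat (nat_lit 647620), .ofNat (nat_lit 927408)⟩, ⟨.ofNat (nat_lit 0), .ofNat (nat_lit 322759), .ofNat (nat_lit 0), .ofNat (nat_lit 367069), .ofNat (nat_lit 0), .ofNat (nat_lit 317804), .ofNat (nat_lit 0), .ofNat (nat_lit 363353)⟩⟩, [⟨nat_lit 13, nat_lit 67, nat_lit 43, nat_lit 100, nat_lit 172868541⟩, ⟨nat_lit 13, nat_lit 79, nat_lit 29, nat_lit 100, nat_lit 60287701⟩, ⟨nat_lit 16, nat_lit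 54, nat_lit 100, nat_lit 73, nat_lit 56571843⟩, ⟨nat_lit 19, nat_lit 79, nat_lit 100, nat_lit 72, nat_lit 15428139⟩]⟩
noncomputable def p127_l67 : Lf2 := ⟨nat_lit 0, nat_lit 20, [nat_lit 5, nat_lit 5, nat_lit 5, nat_lit 20], true, nat_lit 0, nat_lit 164, nat_lit 0, nat_lit 260, ⟨nat_lit 0, nat_lit 1000, nat_lit 0, nat_lit 8, nat_lit 318, nat_lit 1000, nat_lit 57, nat_lit 0, nat_lit 0, nat_lit 0, nat_lit 0, nat_lit 0, nat_lit 0, nat_lit 0, nat_lit 0, nat_lit 5000000, true, false⟩,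
 nat_lit 0, nat_lit 0, nat_lit 0, nat_lit 0, nat_lit 2544, nat_lit 0, nat_lit 0, nat_lit 0, nat_lit 0, nat_lit 0, nat_lit 0, nat_lit 0, nat_lit 0, nat_lit 0, nat_lit 0, nat_lit 396700, nat_lit 0, nat_lit 0, [(nat_lit 28, [(nat_lit 0, nat_lit 22), (nat_lit 1, nat_lit 978)])],
 ⟨p127_k11, nat_lit 0, nat_lit 0, nat_lit 196, nat_lit 0, nat_lit 0, [nat_lit 699448000, nat_lit 341493600, nat_lit 169292800], [], [nat_lit 23765527199, nat_lit 25063682337, nat_lit 30443405661, nat_lit 31509171546, nat_lit 24152331424, nat_lit 25120775316, nat_lit 28983512331, nat_lit 29926182821], nat_lit 0, nat_lit 0, nat_lit 0, nat_lit 0, nat_lit 0, nat_lit 0, [], [nat_lit 20, nat_lit 40, nat_lit 40, nat_lit 80, nat_lit 16, nat_lit 260, nat_lit 50, nat_lit 9]⟩, C1.Rw.none,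
 ⟨nat_lit 0, nat_lit 2237, ⟨.ofNat (nat_lit 684059), .ofNat (nat_lit 898913), .ofNat (nat_lit 694982), .ofNat (nat_lit 910301), .ofNat (nat_lit 691099), .ofNat (nat_lit 879996), .ofNat (nat_lit 703135), .ofNat (nat_lit 892497)⟩, ⟨.ofNat (nat_lit 0), .ofNat (nat_lit 266484), .ofNat (nat_lit 0), .ofNat (nat_lit 312035), .ofNat (nat_lit 0), .ofNat (nat_lit 254993), .ofNat (nat_lit 0), .ofNat (nat_lit 304995)⟩⟩, [⟨nat_lit 13, nat_lit 57, nat_lit 53, nat_lit 100, nat_lit 473794210⟩]⟩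
noncomputable def p127_l68 : Lf2 := ⟨nat_lit 0, nat_lit 20, [nat_lit 5, nat_lit 5, nat_lit 5, nat_lit 20], false, nat_lit 0, nat_lit 200, nat_lit 0, nat_lit 244, ⟨nat_lit 240, nat_lit 760, nat_lit 0, nat_lit 8, nat_lit 321, nat_lit 760, nat_lit 67, nat_lit 0, nat_lit 0, nat_lit 0, nat_lit 0, nat_lit 0, nat_lit 0, nat_lit 0, nat_lit 0, nat_lit 5000000, true, false⟩,
 nat_lit 0, nat_lit 0, nat_lit 1882, nat_lit 0, nat_lit 3149, nat_lit 1467, nat_lit 75, nat_lit 0, nat_lit 0, nat_lit 122, nat_lit 0, nat_lit 0, nat_lit 0, nat_lit 0, nat_lit 0, nat_lit 351400, nat_lit 0, nat_lit 0, [(nat_lit 25, [(nat_lit 1, nat_lit 681), (nat_lit 2, nat_lit 79)]), (nat_lit 28, [(nat_lit 1, nat_lit 681), (nat_lit 2, nat_lit 79)])],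
 ⟨p127_k8, nat_lit 0, nat_lit 0, nat_lit 202, nat_lit 0, nat_lit 0, [nat_lit 916432401, nat_lit 1440039067, nat_lit 1815246000], [], [nat_lit 24418602312, nat_lit 26698147930, nat_lit 32122925508, nat_lit 34329454324, nat_lit 24853778592, nat_lit 26675327311, nat_lit 30388666171, nat_lit 32089761620], nat_lit 0, nat_lit 0, nat_lit 0, nat_lit 0, nat_lit 0, nat_lit 0, [], [nat_lit 20, nat_lit 40, nat_lit 40, nat_lit 80, nat_lit 16, nat_lit 260, nat_lit 50, nat_lit 9]⟩, ⟨p127_k10, nat_lit 0, nat_lit 0, nat_lit 936, nat_lit 0, nat_lit 1678267, [nat_lit 487680000, nat_lit 1125120000, nat_lit 2362080000], [], [nat_lit 8258493514, nat_lit 8304500322, nat_lit 9374441070, nat_lit 9538831368, nat_lit 7709820201, nat_lit 7741508625, nat_lit 8042157273, nat_lit 8074435096], nat_lit 1271250, nat_lit 1271250, nat_lit 1271250, nat_lit 1271250, nat_lit 0, nat_lit 1723250, [nat_lit 490000, nat_lit 1100000, nat_lit 2127500], [nat_lit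 27, nat_lit 40, nat_lit 40, nat_lit 80, nat_lit 13, nat_lit 401, nat_lit 175, nat_lit 11]⟩,
 ⟨nat_lit 0, nat_lit 3163, ⟨.ofNat (nat_lit 654579), .ofNat (nat_lit 948771), .ofNat (nat_lit 665005), .ofNat (nat_lit 959849), .ofNat (nat_lit 669787), .ofNat (nat_lit 912498), .ofNat (nat_lit 681635), .ofNat (nat_lit 924998)⟩, ⟨.ofNat (nat_lit 0), .ofNat (nat_lit 322753), .ofNat (nat_lit 0), .ofNat (nat_lit 367065), .ofNat (nat_lit 0), .ofNat (nat_lit 299993), .ofNat (nat_lit 0), .ofNat (nat_lit 349995)⟩⟩, [⟨nat_lit 13, nat_lit 59, nat_lit 50, nat_lit 100, nat_lit 221870563⟩, ⟨nat_lit 16, nat_lit 46, nat_lit 100, nat_lit 75, nat_lit 105297191⟩, ⟨nat_lit 7, nat_lit 100, nat_lit 74, nat_lit 72, nat_lit 18953499⟩]⟩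
noncomputable def b_V_900_800_10_5 : St := ⟨true, nat_lit 0, nat_lit 2, nat_lit 2, nat_lit 80, nat_lit 360, nat_lit 400, nat_lit 320, nat_lit 340, nat_lit 200, nat_lit 400, nat_lit 40, nat_lit 80, nat_lit 0, nat_lit 200, nat_lit 0, nat_lit 260, nat_lit 40, nat_lit 80, nat_lit 0, nat_lit 0, nat_lit 0, nat_lit 0⟩
theorem d_V_900_800_10_5 (h : EB TB.env) : Dead b_V_900_800_10_5 := chkB_sound0 h (T :=
(.st (nat_lit 1)
(.leaf p127_l65)
(.spl (nat_lit 1) (nat_lit 330)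
(.trX (nat_lit 13) (nat_lit 79) (nat_lit 29) (nat_lit 100) (nat_lit 396) (.spl (nat_lit 0) (nat_lit 380)
(.leaf p127_l66)
(.trZ (nat_lit 0) (nat_lit 82) (nat_lit 44) (nat_lit 100) (nat_lit 236) (.trX (nat_lit 13) (nat_lit 57) (nat_lit 53) (nat_lit 100) (nat_lit 384) (.trX (nat_lit 16) (nat_lit 44) (nat_lit 100) (nat_lit 82) (nat_lit 164) (.leaf p127_l67))))))
(.trZ (nat_lit 0) (nat_lit 76) (nat_lit 60) (nat_lit 100) (nat_lit 212) (.trX (nat_lit 19) (nat_lit 78) (nat_lit 100) (nat_lit 82) (nat_lit 244) (.leaf p127_l68)))))) (by decide +kernel)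
noncomputable def p127_l69 : Lf2 := ⟨nat_lit 0, nat_lit 20, [nat_lit 5, nat_lit 5, nat_lit 5, nat_lit 20], false, nat_lit 0, nat_lit 200, nat_lit 0, nat_lit 160, ⟨nat_lit 1000, nat_lit 0, nat_lit 0, nat_lit 0, nat_lit 0, nat_lit 0, nat_lit 0, nat_lit 0, nat_lit 0, nat_lit 0, nat_lit 0, nat_lit 0, nat_lit 0, nat_lit 0, nat_lit 0, nat_lit 0, false, false⟩,
 nat_lit 0, nat_lit 5902, nat_lit 0, nat_lit 0, nat_lit 5140, nat_lit 5343, nat_lit 393, nat_lit 0, nat_lit 0, nat_lit 806, nat_lit 0, nat_lit 0, nat_lit 0, nat_lit 0, nat_lit 0, nat_lit 0, nat_lit 0, nat_lit 0, [],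
 ⟨p127_k8, nat_lit 0, nat_lit 0, nat_lit 657, nat_lit 0, nat_lit 1336542, [nat_lit 938000000, nat_lit 3282000000, nat_lit 6250000000], [], [nat_lit 35594883210, nat_lit 36911810410, nat_lit 39798205760, nat_lit 40936974720, nat_lit 34501635365, nat_lit 35641839320, nat_lit 37967730960, nat_lit 38871674560], nat_lit 1271250, nat_lit 1271250, nat_lit 1271250, nat_lit 1271250, nat_lit 0, nat_lit 1412500, [nat_lit 230000, nat_lit 780000, nat_lit 1435000], [nat_lit 20, nat_lit 40, nat_lit 40, nat_lit 80, nat_lit 16, nat_lit 290, nat_lit 50, nat_lit 10]⟩, ⟨p127_k9, nat_lit 0, nat_lit 0, nat_lit 212, nat_lit 0, nat_lit 0, [nat_lit 2032000000, nat_lit 4688000000, nat_lit 9842000000], [], [nat_lit 26032892754, nat_lit 27328051072, nat_lit 36222338308, nat_lit 37501250232, nat_lit 23417112798, nat_lit 24512569766, nat_lit 31976067788, nat_lit 32815648744], nat_lit 0, nat_lit 0, nat_lit 0, nat_lit 0, nat_lit 0, nat_lit 0,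 [], [nat_lit 27, nat_lit 40, nat_lit 40, nat_lit 80, nat_lit 13, nat_lit 373, nat_lit 150, nat_lit 10]⟩,
 zbF0, [⟨nat_lit 0, nat_lit 79, nat_lit 45, nat_lit 100, nat_lit 218656100⟩, ⟨nat_lit 4, nat_lit 100, nat_lit 46, nat_lit 75, nat_lit 360549487⟩]⟩
noncomputable def p127_l70 : Lf2 := ⟨nat_lit 0, nat_lit 20, [nat_lit 5, nat_lit 5, nat_lit 5, nat_lit 20], false, nat_lit 0, nat_lit 200, nat_lit 160, nat_lit 260, ⟨nat_lit 1000, nat_lit 0, nat_lit 0, nat_lit 0, nat_lit 0, nat_lit 0, nat_lit 0, nat_lit 0, nat_lit 0, nat_lit 0, nat_lit 0, nat_lit 0, nat_lit 0, nat_lit 0, nat_lit 0, nat_lit 0, false, false⟩,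
 nat_lit 0, nat_lit 5902, nat_lit 0, nat_lit 0, nat_lit 5140, nat_lit 5456, nat_lit 371, nat_lit 0, nat_lit 0, nat_lit 754, nat_lit 0, nat_lit 0, nat_lit 0, nat_lit 0, nat_lit 0, nat_lit 0, nat_lit 0, nat_lit 0, [],
 ⟨p127_k8, nat_lit 0, nat_lit 0, nat_lit 657, nat_lit 0, nat_lit 1336542, [nat_lit 938000000, nat_lit 3282000000, nat_lit 6250000000], [], [nat_lit 35946745710, nat_lit 37263672910, nat_lit 39799052575, nat_lit 40936974720, nat_lit 34760428230, nat_lit 35815991895, nat_lit 37967730960, nat_lit 38871674560], nat_lit 1271250, nat_lit 1271250, nat_lit 1271250, nat_lit 1271250, nat_lit 0, nat_lit 1412500, [nat_lit 230000, nat_lit 780000, nat_lit 1435000], [nat_lit 20, nat_lit 40, nat_lit 40, nat_lit 80, nat_lit 16, nat_lit 290, nat_lit 50, nat_lit 10]⟩, ⟨p127_k9, nat_lit 0, nat_lit 0, nat_lit 92, nat_lit 0, nat_lit 0, [nat_lit 2032000000, nat_lit 4688000000, nat_lit 9842000000], [], [nat_lit 21775101818,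 nat_lit 23084704474, nat_lit 30903584416, nat_lit 31888662192, nat_lit 24314334866, nat_lit 25394541866, nat_lit 32373878536, nat_lit 33313033084], nat_lit 0, nat_lit 0, nat_lit 0, nat_lit 0, nat_lit 0, nat_lit 0, [], [nat_lit 27, nat_lit 40, nat_lit 40, nat_lit 80, nat_lit 13, nat_lit 401, nat_lit 175, nat_lit 11]⟩,
 zbF0, [⟨nat_lit 0, nat_lit 79, nat_lit 45, nat_lit 100, nat_lit 259584322⟩, ⟨nat_lit 4, nat_lit 100, nat_lit 46, nat_lit 75, nat_lit 347685691⟩, ⟨nat_lit 7, nat_lit 100, nat_lit 76, nat_lit 72, nat_lit 547323207⟩]⟩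
noncomputable def p127_l71 : Lf2 := ⟨nat_lit 0, nat_lit 20, [nat_lit 5, nat_lit 5, nat_lit 5, nat_lit 20], false, nat_lit 0, nat_lit 200, nat_lit 0, nat_lit 260, ⟨nat_lit 1000, nat_lit 0, nat_lit 0, nat_lit 0, nat_lit 0, nat_lit 0, nat_lit 0, nat_lit 0, nat_lit 0, nat_lit 0, nat_lit 0, nat_lit 0, nat_lit 0, nat_lit 0, nat_lit 0, nat_lit 0, false, false⟩,
 nat_lit 7948, nat_lit 0, nat_lit 0, nat_lit 0, nat_lit 5710, nat_lit 5960, nat_lit 303, nat_lit 0, nat_lit 0, nat_lit 543, nat_lit 0, nat_lit 0, nat_lit 0, nat_lit 0, nat_lit 0, nat_lit 0, nat_lit 0, nat_lit 0, [],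
 ⟨p127_k8, nat_lit 0, nat_lit 0, nat_lit 433, nat_lit 0, nat_lit 753199, [nat_lit 938000000, nat_lit 3282000000, nat_lit 6250000000], [], [nat_lit 29795433990, nat_lit 31805937520, nat_lit 39893747320, nat_lit 42819363960, nat_lit 28171967950, nat_lit 29761200070, nat_lit 33724183640, nat_lit 36124309800], nat_lit 1271250, nat_lit 1271250, nat_lit 1271250, nat_lit 1271250, nat_lit 0, nat_lit 1412500, [nat_lit 230000, nat_lit 780000, nat_lit 1435000], [nat_lit 20, nat_lit 40, nat_lit 40, nat_lit 80, nat_lit 16, nat_lit 260, nat_lit 50, nat_lit 9]⟩, ⟨p127_k9, nat_lit 0, nat_lit 0, nat_lit 599, nat_lit 0, nat_lit 903324, [nat_lit 2032000000, nat_lit 4688000000, nat_lit 9842000000], [], [nat_lit 33505719275, nat_lit 34321321995, nat_lit 38810822795, nat_lit 39309243515, nat_lit 32067639515, nat_lit 32634151715, nat_lit 35578545315, nat_lit 35919004275], nat_lit 1271250, nat_lit 1271250, nat_lit 1271250, nat_lit 1271250,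 nat_lit 0, nat_lit 1836250, [nat_lit 490000, nat_lit 1100000, nat_lit 2127500], [nat_lit 27, nat_lit 40, nat_lit 40, nat_lit 80, nat_lit 13, nat_lit 401, nat_lit 175, nat_lit 11]⟩,
 zbF0, [⟨nat_lit 0, nat_lit 79, nat_lit 45, nat_lit 100, nat_lit 79750318⟩, ⟨nat_lit 4, nat_lit 100, nat_lit 46, nat_lit 75, nat_lit 304851968⟩, ⟨nat_lit 7, nat_lit 100, nat_lit 76, nat_lit 72, nat_lit 193096431⟩]⟩
noncomputable def p127_l72 : Lf2 := ⟨nat_lit 0, nat_lit 20, [nat_lit 5, nat_lit 5, nat_lit 5, nat_lit 20], false, nat_lit 0, nat_lit 200, nat_lit 0, nat_lit 160, ⟨nat_lit 953, nat_lit 47, nat_lit 0, nat_lit 8, nat_lit 315, nat_lit 47, nat_lit 67, nat_lit 0, nat_lit 0, nat_lit 0, nat_lit 0, nat_lit 0, nat_lit 0, nat_lit 0, nat_lit 0, nat_lit 5000000, true, false⟩,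
 nat_lit 0, nat_lit 5698, nat_lit 0, nat_lit 0, nat_lit 4962, nat_lit 5094, nat_lit 357, nat_lit 0, nat_lit 0, nat_lit 752, nat_lit 0, nat_lit 0, nat_lit 0, nat_lit 0, nat_lit 0, nat_lit 47000, nat_lit 0, nat_lit 0, [(nat_lit 25, [(nat_lit 2, nat_lit 47)]), (nat_lit 28, [(nat_lit 2, nat_lit 47)])],
 ⟨p127_k8, nat_lit 0, nat_lit 0, nat_lit 657, nat_lit 0, nat_lit 1336542, [nat_lit 962928801, nat_lit 3109842134, nat_lit 5773006400], [], [nat_lit 35133372757, nat_lit 36444869963, nat_lit 39267626392, nat_lit 40339687112, nat_lit 34230684991, nat_lit 35356783415, nat_lit 37679731176, nat_lit 38537749840], nat_lit 1271250, nat_lit 1271250, nat_lit 1271250, nat_lit 1271250, nat_lit 0, nat_lit 1412500, [nat_lit 230000, nat_lit 780000, nat_lit 1435000], [nat_lit 20, nat_lit 40, nat_lit 40, nat_lit 80, nat_lit 16, nat_lit 290, nat_lit 50, nat_lit 10]⟩, ⟨p127_k9, nat_lit 0, nat_lit 0, nat_lit 212, nat_lit 0, nat_lit 0, [nat_lit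 1936496000, nat_lit 4467664000, nat_lit 9379426000], [], [nat_lit 24968794108, nat_lit 26203351104, nat_lit 34525822448, nat_lit 35744876358, nat_lit 22473811708, nat_lit 23517995096, nat_lit 30470647648, nat_lit 31270899572], nat_lit 0, nat_lit 0, nat_lit 0, nat_lit 0, nat_lit 0, nat_lit 0, [], [nat_lit 27, nat_lit 40, nat_lit 40, nat_lit 80, nat_lit 13, nat_lit 373, nat_lit 150, nat_lit 10]⟩,
 ⟨nat_lit 0, nat_lit 3163, ⟨.ofNat (nat_lit 625100), .ofNat (nat_lit 937693), .ofNat (nat_lit 645949), .ofNat (nat_lit 959849), .ofNat (nat_lit 642170), .ofNat (nat_lit 899997), .ofNat (nat_lit 665865), .ofNat (nat_lit 924998)⟩, ⟨.ofNat (nat_lit 0), .ofNat (nat_lit 322753), .ofNat (nat_lit 0), .ofNat (nat_lit 367065), .ofNat (nat_lit 0), .ofNat (nat_lit 299993), .ofNat (nat_lit 0), .ofNat (nat_lit 349995)⟩⟩, [⟨nat_lit 0, nat_lit 79, nat_lit 45, nat_lit 100, nat_lit 204454083⟩, ⟨nat_lit 4, nat_lit 100, nat_lit 46, nat_lit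 75, nat_lit 362644461⟩]⟩
noncomputable def p127_l73 : Lf2 := ⟨nat_lit 0, nat_lit 20, [nat_lit 5, nat_lit 5, nat_lit 5, nat_lit 20], false, nat_lit 0, nat_lit 200, nat_lit 160, nat_lit 260, ⟨nat_lit 939, nat_lit 61, nat_lit 0, nat_lit 8, nat_lit 315, nat_lit 61, nat_lit 67, nat_lit 0, nat_lit 0, nat_lit 0, nat_lit 0, nat_lit 0, nat_lit 0, nat_lit 0, nat_lit 0, nat_lit 5000000, true, false⟩,
 nat_lit 0, nat_lit 5642, nat_lit 0, nat_lit 0, nat_lit 4914, nat_lit 5125, nat_lit 317, nat_lit 0, nat_lit 0, nat_lit 669, nat_lit 0, nat_lit 0, nat_lit 0, nat_lit 0, nat_lit 0, nat_lit 61000, nat_lit 0, nat_lit 0, [(nat_lit 25, [(nat_lit 2, nat_lit 61)]), (nat_lit 28, [(nat_lit 2, nat_lit 61)])],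
 ⟨p127_k8, nat_lit 0, nat_lit 0, nat_lit 657, nat_lit 0, nat_lit 1336542, [nat_lit 970354401, nat_lit 3058561067, nat_lit 5630923200], [], [nat_lit 35433201816, nat_lit 36729002536, nat_lit 39192549203, nat_lit 40180563464, nat_lit 34424380668, nat_lit 35471735415, nat_lit 37559766501, nat_lit 38416452109], nat_lit 1271250, nat_lit 1271250, nat_lit 1271250, nat_lit 1271250, nat_lit 0, nat_lit 1412500, [nat_lit 230000, nat_lit 780000, nat_lit 1435000], [nat_lit 20, nat_lit 40, nat_lit 40, nat_lit 80, nat_lit 16, nat_lit 290, nat_lit 50, nat_lit 10]⟩, ⟨p127_k9, nat_lit 0, nat_lit 0, nat_lit 92, nat_lit 0, nat_lit 0, [nat_lit 1908048000, nat_lit 4402032000, nat_lit 9241638000], [], [nat_lit 20835318313, nat_lit 22065267339, nat_lit 29018381388, nat_lit 29945302554, nat_lit 23219699519, nat_lit 24234186072, nat_lit 30400418413, nat_lit 31283120719], nat_lit 0, nat_lit 0, nat_lit 0, nat_lit 0, nat_lit 0, nat_lit 0,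 [], [nat_lit 27, nat_lit 40, nat_lit 40, nat_lit 80, nat_lit 13, nat_lit 401, nat_lit 175, nat_lit 11]⟩,
 ⟨nat_lit 0, nat_lit 3163, ⟨.ofNat (nat_lit 625100), .ofNat (nat_lit 937693), .ofNat (nat_lit 645949), .ofNat (nat_lit 959849), .ofNat (nat_lit 642170), .ofNat (nat_lit 899997), .ofNat (nat_lit 665865), .ofNat (nat_lit 924998)⟩, ⟨.ofNat (nat_lit 0), .ofNat (nat_lit 322753), .ofNat (nat_lit 0), .ofNat (nat_lit 367065), .ofNat (nat_lit 0), .ofNat (nat_lit 299993), .ofNat (nat_lit 0), .ofNat (nat_lit 349995)⟩⟩, [⟨nat_lit 0, nat_lit 79, nat_lit 45, nat_lit 100, nat_lit 244638795⟩, ⟨nat_lit 4, nat_lit 100, nat_lit 46, nat_lit 75, nat_lit 343943784⟩, ⟨nat_lit 7, nat_lit 100, nat_lit 76, nat_lit 72, nat_lit 525626426⟩]⟩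
noncomputable def p127_l74 : Lf2 := ⟨nat_lit 0, nat_lit 20, [nat_lit 5, nat_lit 5, nat_lit 5, nat_lit 20], false, nat_lit 0, nat_lit 200, nat_lit 0, nat_lit 260, ⟨nat_lit 643, nat_lit 357, nat_lit 0, nat_lit 8, nat_lit 315, nat_lit 357, nat_lit 67, nat_lit 0, nat_lit 0, nat_lit 0, nat_lit 0, nat_lit 0, nat_lit 0, nat_lit 0, nat_lit 0, nat_lit 5000000, true, false⟩,
 nat_lit 5514, nat_lit 0, nat_lit 0, nat_lit 0, nat_lit 4144, nat_lit 4135, nat_lit 0, nat_lit 0, nat_lit 0, nat_lit 260, nat_lit 0, nat_lit 0, nat_lit 0, nat_lit 0, nat_lit 0, nat_lit 325800, nat_lit 0, nat_lit 0, [(nat_lit 25, [(nat_lit 1, nat_lit 52), (nat_lit 2, nat_lit 305)]), (nat_lit 28, [(nat_lit 1, nat_lit 52), (nat_lit 2, nat_lit 305)])],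
 ⟨p127_k8, nat_lit 0, nat_lit 0, nat_lit 433, nat_lit 0, nat_lit 753199, [nat_lit 1094925601, nat_lit 2046252267, nat_lit 2877206400], [], [nat_lit 29418393069, nat_lit 31106348045, nat_lit 35142046048, nat_lit 37627954944, nat_lit 29174254397, nat_lit 30539062445, nat_lit 33521264652, nat_lit 34567676739], nat_lit 1271250, nat_lit 1271250, nat_lit 1271250, nat_lit 1271250, nat_lit 0, nat_lit 1412500, [nat_lit 230000, nat_lit 780000, nat_lit 1435000], [nat_lit 20, nat_lit 40, nat_lit 40, nat_lit 80, nat_lit 16, nat_lit 260, nat_lit 50, nat_lit 9]⟩, ⟨p127_k9, nat_lit 0, nat_lit 0, nat_lit 599, nat_lit 0, nat_lit 903324, [nat_lit 1306576000, nat_lit 3014384000, nat_lit 6328406000], [], [nat_lit 21344943028, nat_lit 21886791664, nat_lit 25546353440, nat_lit 26164697964, nat_lit 20130371254, nat_lit 20502504021, nat_lit 22376381837, nat_lit 22594196107], nat_lit 1271250, nat_lit 1271250, nat_lit 1271250, nat_lit 1271250,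 nat_lit 0, nat_lit 1836250, [nat_lit 490000, nat_lit 1100000, nat_lit 2127500], [nat_lit 27, nat_lit 40, nat_lit 40, nat_lit 80, nat_lit 13, nat_lit 401, nat_lit 175, nat_lit 11]⟩,
 ⟨nat_lit 0, nat_lit 3163, ⟨.ofNat (nat_lit 625100), .ofNat (nat_lit 937693), .ofNat (nat_lit 645949), .ofNat (nat_lit 959849), .ofNat (nat_lit 642170), .ofNat (nat_lit 899997), .ofNat (nat_lit 665865), .ofNat (nat_lit 924998)⟩, ⟨.ofNat (nat_lit 0), .ofNat (nat_lit 322753), .ofNat (nat_lit 0), .ofNat (nat_lit 367065), .ofNat (nat_lit 0), .ofNat (nat_lit 299993), .ofNat (nat_lit 0), .ofNat (nat_lit 349995)⟩⟩, [⟨nat_lit 4, nat_lit 100, nat_lit 46, nat_lit 75, nat_lit 324601834⟩, ⟨nat_lit 7, nat_lit 100, nat_lit 76, nat_lit 72, nat_lit 74616975⟩]⟩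
noncomputable def b_V_900_800_10_6 : St := ⟨true, nat_lit 1, nat_lit 2, nat_lit 0, nat_lit 80, nat_lit 360, nat_lit 400, nat_lit 320, nat_lit 340, nat_lit 200, nat_lit 400, nat_lit 40, nat_lit 80, nat_lit 0, nat_lit 200, nat_lit 0, nat_lit 260, nat_lit 40, nat_lit 80, nat_lit 0, nat_lit 0, nat_lit 0, nat_lit 0⟩
theorem d_V_900_800_10_6 (h : EB TB.env) : Dead b_V_900_800_10_6 := chkB_sound0 h (T :=
(.gv
(.st (nat_lit 1)
(.spl (nat_lit 5) (nat_lit 160)
(.leaf p127_l69)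
(.leaf p127_l70))
(.leaf p127_l71))
(.st (nat_lit 1)
(.spl (nat_lit 5) (nat_lit 160)
(.leaf p127_l72)
(.leaf p127_l73))
(.leaf p127_l74)))) (by decide +kernel)
noncomputable def p127_l75 : Lf2 := ⟨nat_lit 0, nat_lit 15, [nat_lit 30, nat_lit 5, nat_lit 5, nat_lit 20], false, nat_lit 0, nat_lit 80, nat_lit 0, nat_lit 232, ⟨nat_lit 690, nat_lit 310, nat_lit 0, nat_lit 8, nat_lit 294, nat_lit 310, nat_lit 31, nat_lit 0, nat_lit 0, nat_lit 0, nat_lit 0, nat_lit 0, nat_lit 43531723, nat_lit 23468277, nat_lit 0, nat_lit 3238075, true, false⟩,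
 nat_lit 0, nat_lit 0, nat_lit 6303, nat_lit 0, nat_lit 3849, nat_lit 4727, nat_lit 0, nat_lit 0, nat_lit 0, nat_lit 343, nat_lit 0, nat_lit 0, nat_lit 0, nat_lit 0, nat_lit 0, nat_lit 310000, nat_lit 0, nat_lit 0, [(nat_lit 25, [(nat_lit 2, nat_lit 310)])],
 ⟨p127_k5, nat_lit 0, nat_lit 0, nat_lit 154, nat_lit 0, nat_lit 0, [nat_lit 1102424001, nat_lit 2146490667, nat_lit 3103872000], [], [nat_lit 25125123455, nat_lit 26568037216, nat_lit 29812173320, nat_lit 31056827098, nat_lit 23692535329, nat_lit 24981961589, nat_lit 27841373049, nat_lit 28877222325], nat_lit 0, nat_lit 0, nat_lit 0, nat_lit 0, nat_lit 0, nat_lit 0, [], [nat_lit 20, nat_lit 40, nat_lit 40, nat_lit 80, nat_lit 16, nat_lit 226, nat_lit 20, nat_lit 8]⟩, ⟨p127_k6, nat_lit 0, nat_lit 0, nat_lit 605, nat_lit 0, nat_lit 1043288, [nat_lit 1402080000, nat_lit 3234720000, nat_lit 5497920000], [], [nat_lit 21898828566, nat_lit 22365378982, nat_lit 23237811210,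 nat_lit 23593993216, nat_lit 19853916465, nat_lit 20188368970, nat_lit 20736980335, nat_lit 21031767316], nat_lit 1271250, nat_lit 1271250, nat_lit 1271250, nat_lit 1271250, nat_lit 0, nat_lit 1638500, [nat_lit 490000, nat_lit 1100000, nat_lit 1785000], [nat_lit 34, nat_lit 40, nat_lit 40, nat_lit 80, nat_lit 7, nat_lit 373, nat_lit 150, nat_lit 12]⟩,
 ⟨nat_lit 2236, nat_lit 3163, ⟨.ofNat (nat_lit 632548), .ofNat (nat_lit 815720), .ofNat (nat_lit 654639), .ofNat (nat_lit 837812), .ofNat (nat_lit 636264), .ofNat (nat_lit 807623), .ofNat (nat_lit 658975), .ofNat (nat_lit 830334)⟩, ⟨.ofNat (nat_lit 0), .ofNat (nat_lit 139899), .ofNat (nat_lit 0), .ofNat (nat_lit 162054), .ofNat (nat_lit 0), .ofNat (nat_lit 146758), .ofNat (nat_lit 0), .ofNat (nat_lit 169532)⟩⟩, [⟨nat_lit 0, nat_lit 75, nat_lit 46, nat_lit 100, nat_lit 263884415⟩, ⟨nat_lit 7, nat_lit 100, nat_lit 76, nat_lit 66, nat_lit 115786643⟩]⟩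
noncomputable def p127_l76 : Lf2 := ⟨nat_lit 0, nat_lit 20, [nat_lit 5, nat_lit 5, nat_lit 5, nat_lit 20], false, nat_lit 0, nat_lit 80, nat_lit 0, nat_lit 260, ⟨nat_lit 1000, nat_lit 0, nat_lit 0, nat_lit 0, nat_lit 0, nat_lit 0, nat_lit 0, nat_lit 0, nat_lit 0, nat_lit 0, nat_lit 0, nat_lit 0, nat_lit 0, nat_lit 0, nat_lit 0, nat_lit 0, false, false⟩,
 nat_lit 0, nat_lit 0, nat_lit 8820, nat_lit 0, nat_lit 4995, nat_lit 6614, nat_lit 0, nat_lit 0, nat_lit 0, nat_lit 621, nat_lit 0, nat_lit 0, nat_lit 0, nat_lit 0, nat_lit 0, nat_lit 0, nat_lit 0, nat_lit 0, [],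
 ⟨p127_k8, nat_lit 0, nat_lit 0, nat_lit 151, nat_lit 0, nat_lit 0, [nat_lit 938000000, nat_lit 3282000000, nat_lit 6250000000], [], [nat_lit 28759742940, nat_lit 29592595110, nat_lit 33926304600, nat_lit 34636828795, nat_lit 26298766020, nat_lit 27080483030, nat_lit 30926553060, nat_lit 31535052425], nat_lit 0, nat_lit 0, nat_lit 0, nat_lit 0, nat_lit 0, nat_lit 0, [], [nat_lit 20, nat_lit 40, nat_lit 40, nat_lit 80, nat_lit 16, nat_lit 226, nat_lit 20, nat_lit 8]⟩, ⟨p127_k9, nat_lit 0, nat_lit 0, nat_lit 587, nat_lit 0, nat_lit 868157, [nat_lit 2032000000, nat_lit 4688000000, nat_lit 9842000000], [], [nat_lit 31001975570, nat_lit 31672959238, nat_lit 33022677929, nat_lit 33673454041, nat_lit 28305796301, nat_lit 28889301056, nat_lit 30225742598, nat_lit 30792256712], nat_lit 1271250, nat_lit 1271250, nat_lit 1271250, nat_lit 1271250, nat_lit 0, nat_lit 1836250, [nat_lit 490000, nat_lit 1100000, nat_lit 2127500],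 [nat_lit 27, nat_lit 40, nat_lit 40, nat_lit 80, nat_lit 13, nat_lit 373, nat_lit 150, nat_lit 10]⟩,
 zbF0, [⟨nat_lit 0, nat_lit 73, nat_lit 54, nat_lit 100, nat_lit 313269651⟩, ⟨nat_lit 3, nat_lit 100, nat_lit 74, nat_lit 34, nat_lit 40595645⟩, ⟨nat_lit 7, nat_lit 100, nat_lit 77, nat_lit 77, nat_lit 194646464⟩]⟩
noncomputable def p127_l77 : Lf2 := ⟨nat_lit 0, nat_lit 20, [nat_lit 5, nat_lit 5, nat_lit 5, nat_lit 20], false, nat_lit 4, nat_lit 80, nat_lit 0, nat_lit 260, ⟨nat_lit 1000, nat_lit 0, nat_lit 0, nat_lit 0, nat_lit 0, nat_lit 0, nat_lit 0, nat_lit 0, nat_lit 0, nat_lit 0, nat_lit 0, nat_lit 0, nat_lit 0, nat_lit 0, nat_lit 0, nat_lit 0, false, false⟩,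
 nat_lit 0, nat_lit 0, nat_lit 8820, nat_lit 0, nat_lit 3574, nat_lit 6614, nat_lit 487, nat_lit 0, nat_lit 0, nat_lit 592, nat_lit 0, nat_lit 0, nat_lit 0, nat_lit 0, nat_lit 0, nat_lit 0, nat_lit 0, nat_lit 0, [],
 ⟨p127_k20, nat_lit 0, nat_lit 0, nat_lit 152, nat_lit 0, nat_lit 0, [nat_lit 938000000, nat_lit 3282000000, nat_lit 6250000000], [], [nat_lit 24986931497, nat_lit 25660390569, nat_lit 28938814146, nat_lit 29670917849, nat_lit 23626737454, nat_lit 24231945063, nat_lit 27212627560, nat_lit 27731991858], nat_lit 0, nat_lit 0, nat_lit 0, nat_lit 0, nat_lit 0, nat_lit 0, [], [nat_lit 20, nat_lit 40, nat_lit 40, nat_lit 80, nat_lit 16, nat_lit 226, nat_lit 20, nat_lit 8]⟩, ⟨p127_k9, nat_lit 0, nat_lit 0, nat_lit 618, nat_lit 0, nat_lit 971121, [nat_lit 2032000000, nat_lit 4688000000, nat_lit 9842000000], [], [nat_lit 31744069914, nat_lit 32394092758, nat_lit 33457569832, nat_lit 33964757036, nat_lit 28726802129,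 nat_lit 29291976761, nat_lit 30225742598, nat_lit 30792256712], nat_lit 1271250, nat_lit 1271250, nat_lit 1271250, nat_lit 1271250, nat_lit 0, nat_lit 1836250, [nat_lit 490000, nat_lit 1100000, nat_lit 2127500], [nat_lit 27, nat_lit 40, nat_lit 40, nat_lit 80, nat_lit 13, nat_lit 373, nat_lit 150, nat_lit 10]⟩,
 zbF0, [⟨nat_lit 0, nat_lit 75, nat_lit 46, nat_lit 100, nat_lit 477507798⟩, ⟨nat_lit 7, nat_lit 100, nat_lit 77, nat_lit 77, nat_lit 185364254⟩]⟩
noncomputable def p127_l78 : Lf2 := ⟨nat_lit 0, nat_lit 20, [nat_lit 5, nat_lit 5, nat_lit 5, nat_lit 20], false, nat_lit 0, nat_lit 80, nat_lit 0, nat_lit 260, ⟨nat_lit 156, nat_lit 844, nat_lit 0, nat_lit 8, nat_lit 301, nat_lit 844, nat_lit 34, nat_lit 0, nat_lit 0, nat_lit 0, nat_lit 0, nat_lit 0, nat_lit 42766020, nat_lit 24233980, nat_lit 0, nat_lit 3271952, true, false⟩,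
 nat_lit 0, nat_lit 0, nat_lit 1502, nat_lit 0, nat_lit 2456, nat_lit 1126, nat_lit 57, nat_lit 0, nat_lit 0, nat_lit 81, nat_lit 0, nat_lit 0, nat_lit 0, nat_lit 0, nat_lit 0, nat_lit 337600, nat_lit 0, nat_lit 0, [(nat_lit 28, [(nat_lit 1, nat_lit 844)])],
 ⟨p127_k11, nat_lit 0, nat_lit 0, nat_lit 158, nat_lit 0, nat_lit 0, [nat_lit 735102400, nat_lit 786123201, nat_lit 1091472000], [], [nat_lit 24098013517, nat_lit 24626576412, nat_lit 27013727637, nat_lit 27528847853, nat_lit 23639470540, nat_lit 24138245751, nat_lit 26314275349, nat_lit 26776481229], nat_lit 0, nat_lit 0, nat_lit 0, nat_lit 0, nat_lit 0, nat_lit 0, [], [nat_lit 20, nat_lit 40, nat_lit 40, nat_lit 80, nat_lit 16, nat_lit 226, nat_lit 20, nat_lit 7]⟩, ⟨p127_k9, nat_lit 0, nat_lit 0, nat_lit 738, nat_lit 0, nat_lit 1237046, [nat_lit 316992000, nat_lit 731328000, nat_lit 1535352000], [], [nat_lit 4970574436, nat_lit 5014295829, nat_lit 5320739122,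 nat_lit 5389711450, nat_lit 4456757539, nat_lit 4485319846, nat_lit 4565971849, nat_lit 4601513348], nat_lit 1271250, nat_lit 1271250, nat_lit 1271250, nat_lit 1271250, nat_lit 0, nat_lit 1836250, [nat_lit 490000, nat_lit 1100000, nat_lit 2127500], [nat_lit 27, nat_lit 40, nat_lit 40, nat_lit 80, nat_lit 13, nat_lit 373, nat_lit 150, nat_lit 10]⟩,
 ⟨nat_lit 1581, nat_lit 2237, ⟨.ofNat (nat_lit 687763), .ofNat (nat_lit 807675), .ofNat (nat_lit 699128), .ofNat (nat_lit 819040), .ofNat (nat_lit 688866), .ofNat (nat_lit 803781), .ofNat (nat_lit 700501), .ofNat (nat_lit 815415)⟩, ⟨.ofNat (nat_lit 0), .ofNat (nat_lit 146758), .ofNat (nat_lit 0), .ofNat (nat_lit 192306), .ofNat (nat_lit 0), .ofNat (nat_lit 149571), .ofNat (nat_lit 0), .ofNat (nat_lit 196201)⟩⟩, [⟨nat_lit 7, nat_lit 100, nat_lit 79, nat_lit 72, nat_lit 20040304⟩]⟩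
noncomputable def p127_l79 : Lf2 := ⟨nat_lit 0, nat_lit 20, [nat_lit 5, nat_lit 5, nat_lit 5, nat_lit 20], false, nat_lit 8, nat_lit 80, nat_lit 0, nat_lit 260, ⟨nat_lit 125, nat_lit 875, nat_lit 0, nat_lit 8, nat_lit 308, nat_lit 875, nat_lit 39, nat_lit 0, nat_lit 0, nat_lit 0, nat_lit 0, nat_lit 0, nat_lit 41353389, nat_lit 24660735, nat_lit 985876, nat_lit 3731445, true, false⟩,
 nat_lit 0, nat_lit 0, nat_lit 1203, nat_lit 0, nat_lit 2377, nat_lit 902, nat_lit 102, nat_lit 0, nat_lit 0, nat_lit 65, nat_lit 0, nat_lit 0, nat_lit 0, nat_lit 0, nat_lit 0, nat_lit 218750, nat_lit 0, nat_lit 0, [(nat_lit 28, [(nat_lit 0, nat_lit 875)])],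
 ⟨p127_k12, nat_lit 0, nat_lit 0, nat_lit 145, nat_lit 0, nat_lit 0, [nat_lit 801150000, nat_lit 1325500000, nat_lit 1790350000], [], [nat_lit 25310819565, nat_lit 25833638357, nat_lit 27270001421, nat_lit 27775390457, nat_lit 24904115238, nat_lit 25400511035, nat_lit 26743838536, nat_lit 27192509046], nat_lit 0, nat_lit 0, nat_lit 0, nat_lit 0, nat_lit 0, nat_lit 0, [], [nat_lit 35, nat_lit 40, nat_lit 40, nat_lit 80, nat_lit 22, nat_lit 226, nat_lit 20, nat_lit 9]⟩, ⟨p127_k9, nat_lit 0, nat_lit 0, nat_lit 774, nat_lit 0, nat_lit 1356689, [nat_lit 254000000, nat_lit 586000000, nat_lit 1230250000], [], [nat_lit 4085251330, nat_lit 4110380533, nat_lit 4261650530, nat_lit 4316910338, nat_lit 3592548093, nat_lit 3613831406, nat_lit 3659828849, nat_lit 3686301013], nat_lit 1271250, nat_lit 1271250, nat_lit 1271250, nat_lit 1271250, nat_lit 0, nat_lit 1836250, [nat_lit 490000, nat_lit 1100000, nat_lit 2127500], [nat_lit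 27, nat_lit 40, nat_lit 40, nat_lit 80, nat_lit 13, nat_lit 373, nat_lit 150, nat_lit 10]⟩,
 ⟨nat_lit 0, nat_lit 1582, ⟨.ofNat (nat_lit 725463), .ofNat (nat_lit 803773), .ofNat (nat_lit 736793), .ofNat (nat_lit 815118), .ofNat (nat_lit 728156), .ofNat (nat_lit 799976), .ofNat (nat_lit 740328), .ofNat (nat_lit 812163)⟩, ⟨.ofNat (nat_lit 20000), .ofNat (nat_lit 149570), .ofNat (nat_lit 20000), .ofNat (nat_lit 196201), .ofNat (nat_lit 20000), .ofNat (nat_lit 149998), .ofNat (nat_lit 20000), .ofNat (nat_lit 199999)⟩⟩, [⟨nat_lit 3, nat_lit 100, nat_lit 31, nat_lit 76, nat_lit 158821965⟩, ⟨nat_lit 22, nat_lit 91, nat_lit 100, nat_lit 64, nat_lit 15679659⟩]⟩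
noncomputable def p127_l80 : Lf2 := ⟨nat_lit 0, nat_lit 20, [nat_lit 5, nat_lit 5, nat_lit 5, nat_lit 20], false, nat_lit 0, nat_lit 80, nat_lit 0, nat_lit 244, ⟨nat_lit 200, nat_lit 800, nat_lit 0, nat_lit 8, nat_lit 308, nat_lit 800, nat_lit 34, nat_lit 0, nat_lit 0, nat_lit 0, nat_lit 0, nat_lit 0, nat_lit 42012102, nat_lit 24987898, nat_lit 0, nat_lit 3302544, true, false⟩,
 nat_lit 0, nat_lit 0, nat_lit 1600, nat_lit 0, nat_lit 2486, nat_lit 1247, nat_lit 68, nat_lit 0, nat_lit 0, nat_lit 124, nat_lit 0, nat_lit 0, nat_lit 0, nat_lit 0, nat_lit 0, nat_lit 320000, nat_lit 0, nat_lit 0, [(nat_lit 28, [(nat_lit 1, nat_lit 800)])],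
 ⟨p127_k11, nat_lit 0, nat_lit 0, nat_lit 164, nat_lit 0, nat_lit 0, [nat_lit 745680001, nat_lit 916240001, nat_lit 1360400000], [], [nat_lit 24667509357, nat_lit 25736444172, nat_lit 27189173072, nat_lit 28229149416, nat_lit 24174022863, nat_lit 25156800517, nat_lit 26462252775, nat_lit 27382867207], nat_lit 0, nat_lit 0, nat_lit 0, nat_lit 0, nat_lit 0, nat_lit 0, [], [nat_lit 20, nat_lit 40, nat_lit 40, nat_lit 80, nat_lit 16, nat_lit 226, nat_lit 20, nat_lit 7]⟩, ⟨p127_k10, nat_lit 0, nat_lit 0, nat_lit 772, nat_lit 0, nat_lit 1342968, [nat_lit 406400000, nat_lit 937600000, nat_lit 1968400000], [], [nat_lit 6257174755, nat_lit 6309682932, nat_lit 6492066164, nat_lit 6566889296, nat_lit 5811873758, nat_lit 5852159177, nat_lit 5984982264, nat_lit 6024598910], nat_lit 1271250, nat_lit 1271250, nat_lit 1271250, nat_lit 1271250, nat_lit 0, nat_lit 1723250, [nat_lit 490000, nat_lit 1100000, nat_lit 2127500], [nat_lit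 27, nat_lit 40, nat_lit 40, nat_lit 80, nat_lit 13, nat_lit 373, nat_lit 150, nat_lit 10]⟩,
 ⟨nat_lit 0, nat_lit 2237, ⟨.ofNat (nat_lit 712639), .ofNat (nat_lit 818584), .ofNat (nat_lit 723563), .ofNat (nat_lit 829507), .ofNat (nat_lit 718688), .ofNat (nat_lit 812004), .ofNat (nat_lit 730725), .ofNat (nat_lit 824041)⟩, ⟨.ofNat (nat_lit 0), .ofNat (nat_lit 146756), .ofNat (nat_lit 0), .ofNat (nat_lit 192306), .ofNat (nat_lit 0), .ofNat (nat_lit 149997), .ofNat (nat_lit 0), .ofNat (nat_lit 199999)⟩⟩, [⟨nat_lit 7, nat_lit 100, nat_lit 74, nat_lit 72, nat_lit 42712751⟩]⟩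
noncomputable def p127_l81 : Lf2 := ⟨nat_lit 0, nat_lit 15, [nat_lit 30, nat_lit 5, nat_lit 5, nat_lit 20], false, nat_lit 0, nat_lit 80, nat_lit 0, nat_lit 232, ⟨nat_lit 1000, nat_lit 0, nat_lit 0, nat_lit 0, nat_lit 0, nat_lit 0, nat_lit 0, nat_lit 0, nat_lit 0, nat_lit 0, nat_lit 0, nat_lit 0, nat_lit 0, nat_lit 0, nat_lit 0, nat_lit 0, false, false⟩,
 nat_lit 0, nat_lit 0, nat_lit 8135, nat_lit 0, nat_lit 4563, nat_lit 6101, nat_lit 319, nat_lit 0, nat_lit 0, nat_lit 494, nat_lit 0, nat_lit 0, nat_lit 0, nat_lit 0, nat_lit 0, nat_lit 0, nat_lit 0, nat_lit 0, [],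
 ⟨p127_k5, nat_lit 0, nat_lit 0, nat_lit 194, nat_lit 0, nat_lit 0, [nat_lit 938000000, nat_lit 3282000000, nat_lit 6250000000], [], [nat_lit 32185788506, nat_lit 33282513794, nat_lit 36413414396, nat_lit 37715193092, nat_lit 29870677386, nat_lit 30911500857, nat_lit 33527458591, nat_lit 34386299985], nat_lit 0, nat_lit 0, nat_lit 0, nat_lit 0, nat_lit 0, nat_lit 0, [], [nat_lit 20, nat_lit 40, nat_lit 40, nat_lit 80, nat_lit 16, nat_lit 226, nat_lit 20, nat_lit 7]⟩, ⟨p127_k6, nat_lit 0, nat_lit 0, nat_lit 586, nat_lit 0, nat_lit 1043288, [nat_lit 2032000000, nat_lit 4688000000, nat_lit 7968000000], [], [nat_lit 37169240400, nat_lit 37668454068, nat_lit 39304587308, nat_lit 39715632494, nat_lit 34209815450, nat_lit 34570135154, nat_lit 36013510191, nat_lit 36401417509], nat_lit 1271250, nat_lit 1271250, nat_lit 1271250, nat_lit 1271250, nat_lit 0, nat_lit 1638500, [nat_lit 490000, nat_lit 1100000, nat_lit 1785000],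 [nat_lit 34, nat_lit 40, nat_lit 40, nat_lit 80, nat_lit 7, nat_lit 272, nat_lit 60, nat_lit 8]⟩,
 zbF0, [⟨nat_lit 19, nat_lit 76, nat_lit 100, nat_lit 66, nat_lit 158260538⟩, ⟨nat_lit 22, nat_lit 63, nat_lit 100, nat_lit 62, nat_lit 33967782⟩]⟩
noncomputable def p127_l82 : Lf2 := ⟨nat_lit 0, nat_lit 20, [nat_lit 5, nat_lit 5, nat_lit 5, nat_lit 20], false, nat_lit 0, nat_lit 80, nat_lit 0, nat_lit 260, ⟨nat_lit 1000, nat_lit 0, nat_lit 0, nat_lit 0, nat_lit 0, nat_lit 0, nat_lit 0, nat_lit 0, nat_lit 0, nat_lit 0, nat_lit 0, nat_lit 0, nat_lit 0, nat_lit 0, nat_lit 0, nat_lit 0, false, false⟩,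
 nat_lit 0, nat_lit 0, nat_lit 7849, nat_lit 0, nat_lit 5201, nat_lit 5886, nat_lit 373, nat_lit 0, nat_lit 0, nat_lit 590, nat_lit 0, nat_lit 0, nat_lit 0, nat_lit 0, nat_lit 0, nat_lit 0, nat_lit 0, nat_lit 0, [],
 ⟨p127_k8, nat_lit 0, nat_lit 0, nat_lit 189, nat_lit 0, nat_lit 0, [nat_lit 938000000, nat_lit 3282000000, nat_lit 6250000000], [], [nat_lit 32228266900, nat_lit 33127464414, nat_lit 38349292692, nat_lit 39044967088, nat_lit 28223405422, nat_lit 28775982022, nat_lit 33779687136, nat_lit 34450379330], nat_lit 0, nat_lit 0, nat_lit 0, nat_lit 0, nat_lit 0, nat_lit 0, [], [nat_lit 20, nat_lit 40, nat_lit 40, nat_lit 80, nat_lit 16, nat_lit 226, nat_lit 20, nat_lit 7]⟩, ⟨p127_k9, nat_lit 0, nat_lit 0, nat_lit 572, nat_lit 0, nat_lit 868157, [nat_lit 2032000000, nat_lit 4688000000, nat_lit 9842000000], [], [nat_lit 36242271668, nat_lit 36738039464, nat_lit 38594260422, nat_lit 39091550274, nat_lit 33582215854,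 nat_lit 34016138491, nat_lit 35797401262, nat_lit 36234104235], nat_lit 1271250, nat_lit 1271250, nat_lit 1271250, nat_lit 1271250, nat_lit 0, nat_lit 1836250, [nat_lit 490000, nat_lit 1100000, nat_lit 2127500], [nat_lit 27, nat_lit 40, nat_lit 40, nat_lit 80, nat_lit 13, nat_lit 289, nat_lit 75, nat_lit 7]⟩,
 zbF0, [⟨nat_lit 19, nat_lit 77, nat_lit 100, nat_lit 77, nat_lit 47842540⟩, ⟨nat_lit 22, nat_lit 63, nat_lit 100, nat_lit 62, nat_lit 231034249⟩]⟩
noncomputable def p127_l83 : Lf2 := ⟨nat_lit 0, nat_lit 20, [nat_lit 5, nat_lit 5, nat_lit 5, nat_lit 20], false, nat_lit 4, nat_lit 80, nat_lit 0, nat_lit 260, ⟨nat_lit 1000, nat_lit 0, nat_lit 0, nat_lit 0, nat_lit 0, nat_lit 0, nat_lit 0, nat_lit 0, nat_lit 0, nat_lit 0, nat_lit 0, nat_lit 0, nat_lit 0, nat_lit 0, nat_lit 0, nat_lit 0, false, false⟩,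
 nat_lit 0, nat_lit 0, nat_lit 8180, nat_lit 0, nat_lit 3869, nat_lit 6135, nat_lit 517, nat_lit 0, nat_lit 0, nat_lit 560, nat_lit 0, nat_lit 0, nat_lit 0, nat_lit 0, nat_lit 0, nat_lit 0, nat_lit 0, nat_lit 0, [],
 ⟨p127_k20, nat_lit 0, nat_lit 0, nat_lit 187, nat_lit 0, nat_lit 0, [nat_lit 938000000, nat_lit 3282000000, nat_lit 6250000000], [], [nat_lit 29658699637, nat_lit 30420731503, nat_lit 34487184893, nat_lit 35096263315, nat_lit 27077057837, nat_lit 27565306448, nat_lit 31490110011, nat_lit 32078422866], nat_lit 0, nat_lit 0, nat_lit 0, nat_lit 0, nat_lit 0, nat_lit 0, [], [nat_lit 20, nat_lit 40, nat_lit 40, nat_lit 80, nat_lit 16, nat_lit 226, nat_lit 20, nat_lit 7]⟩, ⟨p127_k9, nat_lit 0, nat_lit 0, nat_lit 605, nat_lit 0, nat_lit 971121, [nat_lit 2032000000, nat_lit 4688000000, nat_lit 9842000000], [], [nat_lit 36867389120, nat_lit 37398486920, nat_lit 39013550066, nat_lit 39438114867, nat_lit 34174987830,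 nat_lit 34535612018, nat_lit 35945589507, nat_lit 36314452650], nat_lit 1271250, nat_lit 1271250, nat_lit 1271250, nat_lit 1271250, nat_lit 0, nat_lit 1836250, [nat_lit 490000, nat_lit 1100000, nat_lit 2127500], [nat_lit 27, nat_lit 40, nat_lit 40, nat_lit 80, nat_lit 13, nat_lit 289, nat_lit 75, nat_lit 7]⟩,
 zbF0, [⟨nat_lit 19, nat_lit 77, nat_lit 100, nat_lit 77, nat_lit 126432298⟩, ⟨nat_lit 22, nat_lit 63, nat_lit 100, nat_lit 63, nat_lit 95069153⟩]⟩
noncomputable def p127_l84 : Lf2 := ⟨nat_lit 0, nat_lit 15, [nat_lit 30, nat_lit 5, nat_lit 5, nat_lit 20], false, nat_lit 0, nat_lit 80, nat_lit 0, nat_lit 232, ⟨nat_lit 1000, nat_lit 0, nat_lit 0, nat_lit 0, nat_lit 0, nat_lit 0, nat_lit 0, nat_lit 0, nat_lit 0, nat_lit 0, nat_lit 0, nat_lit 0, nat_lit 0, nat_lit 0, nat_lit 0, nat_lit 0, false, false⟩,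
 nat_lit 0, nat_lit 0, nat_lit 8428, nat_lit 0, nat_lit 3128, nat_lit 6320, nat_lit 447, nat_lit 0, nat_lit 0, nat_lit 492, nat_lit 0, nat_lit 0, nat_lit 0, nat_lit 0, nat_lit 0, nat_lit 0, nat_lit 0, nat_lit 0, [],
 ⟨p127_k15, nat_lit 0, nat_lit 0, nat_lit 171, nat_lit 0, nat_lit 0, [nat_lit 938000000, nat_lit 3282000000, nat_lit 4688000000], [], [nat_lit 28648619984, nat_lit 29336964376, nat_lit 32224537450, nat_lit 32802061119, nat_lit 26655754752, nat_lit 27116561088, nat_lit 29870266304, nat_lit 30426538375], nat_lit 0, nat_lit 0, nat_lit 0, nat_lit 0, nat_lit 0, nat_lit 0, [], [nat_lit 35, nat_lit 40, nat_lit 40, nat_lit 80, nat_lit 22, nat_lit 226, nat_lit 20, nat_lit 8]⟩, ⟨p127_k6, nat_lit 0, nat_lit 0, nat_lit 608, nat_lit 0, nat_lit 1088435, [nat_lit 2032000000, nat_lit 4688000000, nat_lit 7968000000], [], [nat_lit 36188487000, nat_lit 36439940880, nat_lit 37883598745, nat_lit 38091505401, nat_lit 33005447544,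 nat_lit 33185653912, nat_lit 34430754938, nat_lit 34635617969], nat_lit 1271250, nat_lit 1271250, nat_lit 1271250, nat_lit 1271250, nat_lit 0, nat_lit 1638500, [nat_lit 490000, nat_lit 1100000, nat_lit 1785000], [nat_lit 34, nat_lit 40, nat_lit 40, nat_lit 80, nat_lit 7, nat_lit 272, nat_lit 60, nat_lit 8]⟩,
 zbF0, [⟨nat_lit 7, nat_lit 100, nat_lit 78, nat_lit 66, nat_lit 159574538⟩, ⟨nat_lit 22, nat_lit 67, nat_lit 100, nat_lit 61, nat_lit 18454427⟩]⟩
noncomputable def p127_l85 : Lf2 := ⟨nat_lit 0, nat_lit 15, [nat_lit 30, nat_lit 5, nat_lit 5, nat_lit 20], false, nat_lit 8, nat_lit 80, nat_lit 0, nat_lit 232, ⟨nat_lit 232, nat_lit 768, nat_lit 0, nat_lit 8, nat_lit 337, nat_lit 768, nat_lit 36, nat_lit 0, nat_lit 0, nat_lit 0, nat_lit 0, nat_lit 0, nat_lit 38661707, nat_lit 27480610, nat_lit 857683, nat_lit 3777197, true, true⟩,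
 nat_lit 0, nat_lit 0, nat_lit 2097, nat_lit 0, nat_lit 2414, nat_lit 1572, nat_lit 71, nat_lit 0, nat_lit 0, nat_lit 72, nat_lit 0, nat_lit 0, nat_lit 0, nat_lit 0, nat_lit 0, nat_lit 192000, nat_lit 0, nat_lit 0, [(nat_lit 28, [(nat_lit 0, nat_lit 768)])],
 ⟨p127_k16, nat_lit 0, nat_lit 0, nat_lit 140, nat_lit 0, nat_lit 0, [nat_lit 817884800, nat_lit 1564752000], [], [nat_lit 27833685683, nat_lit 28318437613, nat_lit 29905441204, nat_lit 30339907662, nat_lit 27400466228, nat_lit 27861423848, nat_lit 29381245813, nat_lit 29796537735], nat_lit 0, nat_lit 0, nat_lit 0, nat_lit 0, nat_lit 0, nat_lit 0, [], [nat_lit 66, nat_lit 40, nat_lit 40, nat_lit 80, nat_lit 67, nat_lit 226, nat_lit 20, nat_lit 11]⟩, ⟨p127_k6, nat_lit 0, nat_lit 0, nat_lit 648, nat_lit 0, nat_lit 1205714, [nat_lit 471424000, nat_lit 1087616000, nat_lit 1848576000], [], [nat_lit 8475690048, nat_lit 8534919328, nat_lit 8794290645, nat_lit 8844855185,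 nat_lit 7637684685, nat_lit 7677907199, nat_lit 7856188992, nat_lit 7891415283], nat_lit 1271250, nat_lit 1271250, nat_lit 1271250, nat_lit 1271250, nat_lit 0, nat_lit 1638500, [nat_lit 490000, nat_lit 1100000, nat_lit 1785000], [nat_lit 34, nat_lit 40, nat_lit 40, nat_lit 80, nat_lit 7, nat_lit 279, nat_lit 60, nat_lit 8]⟩,
 ⟨nat_lit 0, nat_lit 1582, ⟨.ofNat (nat_lit 803773), .ofNat (nat_lit 874821), .ofNat (nat_lit 815118), .ofNat (nat_lit 886479), .ofNat (nat_lit 799976), .ofNat (nat_lit 864997), .ofNat (nat_lit 812163), .ofNat (nat_lit 877498)⟩, ⟨.ofNat (nat_lit 20000), .ofNat (nat_lit 149570), .ofNat (nat_lit 20000), .ofNat (nat_lit 172886), .ofNat (nat_lit 20000), .ofNat (nat_lit 149998), .ofNat (nat_lit 20000), .ofNat (nat_lit 174999)⟩⟩, [⟨nat_lit 13, nat_lit 28, nat_lit 80, nat_lit 100, nat_lit 347774135⟩, ⟨nat_lit 22, nat_lit 69, nat_lit 100, nat_lit 63, nat_lit 40227123⟩]⟩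
noncomputable def p127_l86 : Lf2 := ⟨nat_lit 0, nat_lit 20, [nat_lit 5, nat_lit 5, nat_lit 5, nat_lit 20], false, nat_lit 8, nat_lit 80, nat_lit 0, nat_lit 260, ⟨nat_lit 1000, nat_lit 0, nat_lit 0, nat_lit 0, nat_lit 0, nat_lit 0, nat_lit 0, nat_lit 0, nat_lit 0, nat_lit 0, nat_lit 0, nat_lit 0, nat_lit 0, nat_lit 0, nat_lit 0, nat_lit 0, false, false⟩,
 nat_lit 0, nat_lit 0, nat_lit 8875, nat_lit 0, nat_lit 3095, nat_lit 6656, nat_lit 498, nat_lit 0, nat_lit 0, nat_lit 545, nat_lit 0, nat_lit 0, nat_lit 0, nat_lit 0, nat_lit 0, nat_lit 0, nat_lit 0, nat_lit 0, [],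
 ⟨p127_k11, nat_lit 0, nat_lit 0, nat_lit 181, nat_lit 0, nat_lit 0, [nat_lit 938000000, nat_lit 3282000000, nat_lit 6250000000], [], [nat_lit 28343840469, nat_lit 29025869604, nat_lit 31891996890, nat_lit 32464883725, nat_lit 26576596380, nat_lit 27034223910, nat_lit 29804947160, nat_lit 30358805057], nat_lit 0, nat_lit 0, nat_lit 0, nat_lit 0, nat_lit 0, nat_lit 0, [], [nat_lit 20, nat_lit 40, nat_lit 40, nat_lit 80, nat_lit 16, nat_lit 226, nat_lit 20, nat_lit 7]⟩, ⟨p127_k9, nat_lit 0, nat_lit 0, nat_lit 619, nat_lit 0, nat_lit 1014912, [nat_lit 2032000000, nat_lit 4688000000, nat_lit 9842000000], [], [nat_lit 35004051946, nat_lit 35213870066, nat_lit 38220285722, nat_lit 38987744348, nat_lit 31449572173, nat_lit 31629965673, nat_lit 32901692341, nat_lit 33094246728], nat_lit 1271250, nat_lit 1271250, nat_lit 1271250, nat_lit 1271250, nat_lit 0, nat_lit 1836250, [nat_lit 490000, nat_lit 1100000, nat_lit 2127500],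 [nat_lit 27, nat_lit 40, nat_lit 40, nat_lit 80, nat_lit 13, nat_lit 289, nat_lit 75, nat_lit 7]⟩,
 zbF0, [⟨nat_lit 19, nat_lit 79, nat_lit 100, nat_lit 77, nat_lit 80963003⟩, ⟨nat_lit 22, nat_lit 83, nat_lit 100, nat_lit 83, nat_lit 11918242⟩]⟩
noncomputable def p127_l87 : Lf2 := ⟨nat_lit 0, nat_lit 20, [nat_lit 5, nat_lit 5, nat_lit 5, nat_lit 20], false, nat_lit 20, nat_lit 80, nat_lit 0, nat_lit 260, ⟨nat_lit 278, nat_lit 722, nat_lit 0, nat_lit 8, nat_lit 337, nat_lit 722, nat_lit 47, nat_lit 0, nat_lit 0, nat_lit 0, nat_lit 0, nat_lit 0, nat_lit 38402518, nat_lit 27333115, nat_lit 1264367, nat_lit 3910594, true, true⟩,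
 nat_lit 0, nat_lit 0, nat_lit 2390, nat_lit 0, nat_lit 2391, nat_lit 1792, nat_lit 135, nat_lit 0, nat_lit 0, nat_lit 151, nat_lit 0, nat_lit 0, nat_lit 0, nat_lit 0, nat_lit 0, nat_lit 180500, nat_lit 0, nat_lit 0, [(nat_lit 28, [(nat_lit 0, nat_lit 722)])],
 ⟨p127_k12, nat_lit 0, nat_lit 0, nat_lit 157, nat_lit 0, nat_lit 0, [nat_lit 825079201, nat_lit 1667608001, nat_lit 2297024800], [], [nat_lit 27479338328, nat_lit 27947212635, nat_lit 29555995107, nat_lit 30028081744, nat_lit 27069554866, nat_lit 27522085670, nat_lit 29108549719, nat_lit 29541585900], nat_lit 0, nat_lit 0, nat_lit 0, nat_lit 0, nat_lit 0, nat_lit 0, [], [nat_lit 35, nat_lit 40, nat_lit 40, nat_lit 80, nat_lit 22, nat_lit 226, nat_lit 20, nat_lit 8]⟩, ⟨p127_k9, nat_lit 0, nat_lit 0, nat_lit 676, nat_lit 0, nat_lit 1129813, [nat_lit 564896000, nat_lit 1303264000, nat_lit 2736076000], [], [nat_lit 10014560438, nat_lit 10072706308, nat_lit 10328687180,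 nat_lit 10378128580, nat_lit 9070209077, nat_lit 9120349350, nat_lit 9363056718, nat_lit 9418641424], nat_lit 1271250, nat_lit 1271250, nat_lit 1271250, nat_lit 1271250, nat_lit 0, nat_lit 1836250, [nat_lit 490000, nat_lit 1100000, nat_lit 2127500], [nat_lit 27, nat_lit 40, nat_lit 40, nat_lit 80, nat_lit 13, nat_lit 290, nat_lit 75, nat_lit 7]⟩,
 ⟨nat_lit 0, nat_lit 1582, ⟨.ofNat (nat_lit 803773), .ofNat (nat_lit 874821), .ofNat (nat_lit 815118), .ofNat (nat_lit 886479), .ofNat (nat_lit 799976), .ofNat (nat_lit 864997), .ofNat (nat_lit 812163), .ofNat (nat_lit 877498)⟩, ⟨.ofNat (nat_lit 50000), .ofNat (nat_lit 172886), .ofNat (nat_lit 50000), .ofNat (nat_lit 196201), .ofNat (nat_lit 50000), .ofNat (nat_lit 174999), .ofNat (nat_lit 50000), .ofNat (nat_lit 199999)⟩⟩, [⟨nat_lit 13, nat_lit 28, nat_lit 80, nat_lit 100, nat_lit 262794274⟩, ⟨nat_lit 22, nat_lit 69, nat_lit 100, nat_lit 66, nat_lit 63774170⟩]⟩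
noncomputable def p127_l88 : Lf2 := ⟨nat_lit 0, nat_lit 20, [nat_lit 5, nat_lit 5, nat_lit 5, nat_lit 20], false, nat_lit 0, nat_lit 80, nat_lit 0, nat_lit 244, ⟨nat_lit 1000, nat_lit 0, nat_lit 0, nat_lit 0, nat_lit 0, nat_lit 0, nat_lit 0, nat_lit 0, nat_lit 0, nat_lit 0, nat_lit 0, nat_lit 0, nat_lit 0, nat_lit 0, nat_lit 0, nat_lit 0, false, false⟩,
 nat_lit 0, nat_lit 0, nat_lit 7310, nat_lit 0, nat_lit 3033, nat_lit 5698, nat_lit 505, nat_lit 0, nat_lit 0, nat_lit 580, nat_lit 0, nat_lit 0, nat_lit 0, nat_lit 0, nat_lit 0, nat_lit 0, nat_lit 0, nat_lit 0, [],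
 ⟨p127_k11, nat_lit 0, nat_lit 0, nat_lit 195, nat_lit 0, nat_lit 0, [nat_lit 938000000, nat_lit 3282000000, nat_lit 6250000000], [], [nat_lit 28402158824, nat_lit 29080840386, nat_lit 32396362559, nat_lit 32953238247, nat_lit 26597854082, nat_lit 27051936824, nat_lit 30126632119, nat_lit 30663584207], nat_lit 0, nat_lit 0, nat_lit 0, nat_lit 0, nat_lit 0, nat_lit 0, [], [nat_lit 20, nat_lit 40, nat_lit 40, nat_lit 80, nat_lit 16, nat_lit 226, nat_lit 20, nat_lit 7]⟩, ⟨p127_k10, nat_lit 0, nat_lit 0, nat_lit 723, nat_lit 0, nat_lit 1232803, [nat_lit 2032000000, nat_lit 4688000000, nat_lit 9842000000], [], [nat_lit 36104075684, nat_lit 36307729248, nat_lit 37652092394, nat_lit 37830466576, nat_lit 33747556037, nat_lit 33930273729, nat_lit 35117023723, nat_lit 35266166061], nat_lit 1271250, nat_lit 1271250, nat_lit 1271250, nat_lit 1271250, nat_lit 0, nat_lit 1723250, [nat_lit 490000, nat_lit 1100000, nat_lit 2127500],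 [nat_lit 27, nat_lit 40, nat_lit 40, nat_lit 80, nat_lit 13, nat_lit 303, nat_lit 75, nat_lit 8]⟩,
 zbF0, [⟨nat_lit 19, nat_lit 74, nat_lit 100, nat_lit 72, nat_lit 218549563⟩]⟩
noncomputable def p127_l89 : Lf2 := ⟨nat_lit 0, nat_lit 20, [nat_lit 5, nat_lit 5, nat_lit 5, nat_lit 20], false, nat_lit 8, nat_lit 80, nat_lit 0, nat_lit 244, ⟨nat_lit 1000, nat_lit 0, nat_lit 0, nat_lit 0, nat_lit 0, nat_lit 0, nat_lit 0, nat_lit 0, nat_lit 0, nat_lit 0, nat_lit 0, nat_lit 0, nat_lit 0, nat_lit 0, nat_lit 0, nat_lit 0, false, false⟩,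
 nat_lit 0, nat_lit 0, nat_lit 7417, nat_lit 0, nat_lit 3058, nat_lit 5781, nat_lit 335, nat_lit 0, nat_lit 0, nat_lit 587, nat_lit 0, nat_lit 0, nat_lit 0, nat_lit 0, nat_lit 0, nat_lit 0, nat_lit 0, nat_lit 0, [],
 ⟨p127_k12, nat_lit 0, nat_lit 0, nat_lit 167, nat_lit 0, nat_lit 0, [nat_lit 938000000, nat_lit 3282000000, nat_lit 4688000000], [], [nat_lit 28930026906, nat_lit 29269169481, nat_lit 32129163163, nat_lit 32417539034, nat_lit 27170895165, nat_lit 27412089046, nat_lit 30066133837, nat_lit 30344819915], nat_lit 0, nat_lit 0, nat_lit 0, nat_lit 0, nat_lit 0, nat_lit 0, [], [nat_lit 35, nat_lit 40, nat_lit 40, nat_lit 80, nat_lit 22, nat_lit 226, nat_lit 20, nat_lit 8]⟩, ⟨p127_k10, nat_lit 0, nat_lit 0, nat_lit 741, nat_lit 0, nat_lit 1287328, [nat_lit 2032000000, nat_lit 4688000000, nat_lit 9842000000], [], [nat_lit 35493020948, nat_lit 35696966506, nat_lit 36794226633, nat_lit 36979653823, nat_lit 33142042766,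 nat_lit 33324860789, nat_lit 34266099909, nat_lit 34420675243], nat_lit 1271250, nat_lit 1271250, nat_lit 1271250, nat_lit 1271250, nat_lit 0, nat_lit 1723250, [nat_lit 490000, nat_lit 1100000, nat_lit 2127500], [nat_lit 27, nat_lit 40, nat_lit 40, nat_lit 80, nat_lit 13, nat_lit 306, nat_lit 75, nat_lit 8]⟩,
 zbF0, [⟨nat_lit 19, nat_lit 74, nat_lit 100, nat_lit 72, nat_lit 221898524⟩]⟩
noncomputable def p127_l90 : Lf2 := ⟨nat_lit 0, nat_lit 20, [nat_lit 5, nat_lit 5, nat_lit 5, nat_lit 20], false, nat_lit 16, nat_lit 80, nat_lit 0, nat_lit 244, ⟨nat_lit 338, nat_lit 662, nat_lit 0, nat_lit 8, nat_lit 341, nat_lit 662, nat_lit 43, nat_lit 0, nat_lit 0, nat_lit 0, nat_lit 0, nat_lit 0, nat_lit 38112074, nat_lit 27797380, nat_lit 1090546, nat_lit 3865425, true, true⟩,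
 nat_lit 0, nat_lit 0, nat_lit 2541, nat_lit 0, nat_lit 2449, nat_lit 1980, nat_lit 94, nat_lit 0, nat_lit 0, nat_lit 198, nat_lit 0, nat_lit 0, nat_lit 0, nat_lit 0, nat_lit 0, nat_lit 165500, nat_lit 0, nat_lit 0, [(nat_lit 28, [(nat_lit 0, nat_lit 662)])],
 ⟨p127_k19, nat_lit 0, nat_lit 0, nat_lit 136, nat_lit 0, nat_lit 0, [nat_lit 834463201, nat_lit 1801768000], [], [nat_lit 27926443867, nat_lit 28168767873, nat_lit 30048597212, nat_lit 30276307893, nat_lit 27511551836, nat_lit 27743217671, nat_lit 29557496608, nat_lit 29775763976], nat_lit 0, nat_lit 0, nat_lit 0, nat_lit 0, nat_lit 0, nat_lit 0, [], [nat_lit 66, nat_lit 40, nat_lit 40, nat_lit 80, nat_lit 67, nat_lit 226, nat_lit 20, nat_lit 10]⟩, ⟨p127_k10, nat_lit 0, nat_lit 0, nat_lit 760, nat_lit 0, nat_lit 1342968, [nat_lit 686816000, nat_lit 1584544000, nat_lit 3326596000], [], [nat_lit 11884824276, nat_lit 11948963756, nat_lit 12240552146, nat_lit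 12322327612, nat_lit 11105232345, nat_lit 11162500883, nat_lit 11406170916, nat_lit 11455657804], nat_lit 1271250, nat_lit 1271250, nat_lit 1271250, nat_lit 1271250, nat_lit 0, nat_lit 1723250, [nat_lit 490000, nat_lit 1100000, nat_lit 2127500], [nat_lit 27, nat_lit 40, nat_lit 40, nat_lit 80, nat_lit 13, nat_lit 310, nat_lit 75, nat_lit 8]⟩,
 ⟨nat_lit 0, nat_lit 1119, ⟨.ofNat (nat_lit 813527), .ofNat (nat_lit 882825), .ofNat (nat_lit 825170), .ofNat (nat_lit 894701), .ofNat (nat_lit 812265), .ofNat (nat_lit 877498), .ofNat (nat_lit 824532), .ofNat (nat_lit 889999)⟩, ⟨.ofNat (nat_lit 40000), .ofNat (nat_lit 150608), .ofNat (nat_lit 40000), .ofNat (nat_lit 198112), .ofNat (nat_lit 40000), .ofNat (nat_lit 149997), .ofNat (nat_lit 40000), .ofNat (nat_lit 199999)⟩⟩, [⟨nat_lit 13, nat_lit 21, nat_lit 84, nat_lit 100, nat_lit 98428830⟩, ⟨nat_lit 4, nat_lit 100, nat_lit 19, nat_lit 88, nat_lit 292072709⟩, ⟨nat_lit 22,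 nat_lit 69, nat_lit 100, nat_lit 65, nat_lit 86941071⟩]⟩
noncomputable def b_V_900_800_10_7 : St := ⟨true, nat_lit 0, nat_lit 1, nat_lit 1, nat_lit 80, nat_lit 360, nat_lit 400, nat_lit 320, nat_lit 340, nat_lit 200, nat_lit 400, nat_lit 40, nat_lit 80, nat_lit 0, nat_lit 80, nat_lit 0, nat_lit 260, nat_lit 80, nat_lit 120, nat_lit 0, nat_lit 0, nat_lit 0, nat_lit 0⟩
theorem d_V_900_800_10_7 (h : EB TB.env) : Dead b_V_900_800_10_7 := chkB_sound0 h (T :=
(.spl (nat_lit 2) (nat_lit 320)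
(.spl (nat_lit 0) (nat_lit 380)
(.spl (nat_lit 3) (nat_lit 60)
(.trX (nat_lit 19) (nat_lit 81) (nat_lit 100) (nat_lit 72) (nat_lit 232) (.leaf p127_l75))
(.spl (nat_lit 0) (nat_lit 370)
(.leaf p127_l76)
(.trZ (nat_lit 0) (nat_lit 80) (nat_lit 53) (nat_lit 100) (nat_lit 216) (.trZ (nat_lit 3) (nat_lit 100) (nat_lit 74) (nat_lit 33) (nat_lit 4) (.leaf p127_l77)))))
(.trZ (nat_lit 0) (nat_lit 82) (nat_lit 44) (nat_lit 100) (nat_lit 236) (.spl (nat_lit 1) (nat_lit 330)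
(.spl (nat_lit 0) (nat_lit 390)
(.leaf p127_l78)
(.trZ (nat_lit 0) (nat_lit 84) (nat_lit 33) (nat_lit 100) (nat_lit 264) (.trZ (nat_lit 3) (nat_lit 100) (nat_lit 52) (nat_lit 53) (nat_lit 8) (.leaf p127_l79))))
(.trZ (nat_lit 0) (nat_lit 79) (nat_lit 45) (nat_lit 100) (nat_lit 248) (.trX (nat_lit 19) (nat_lit 78) (nat_lit 100) (nat_lit 82) (nat_lit 244) (.leaf p127_l80))))))
(.spl (nat_lit 0) (nat_lit 380)
(.spl (nat_lit 3) (nat_lit 60)
(.trX (nat_lit 19) (nat_lit 81) (nat_lit 100) (nat_lit 72) (nat_lit 232) (.leaf p127_l81))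
(.spl (nat_lit 0) (nat_lit 370)
(.leaf p127_l82)
(.trX (nat_lit 13) (nat_lit 74) (nat_lit 33) (nat_lit 100) (nat_lit 396) (.trZ (nat_lit 3) (nat_lit 100) (nat_lit 74) (nat_lit 33) (nat_lit 4) (.leaf p127_l83)))))
(.trX (nat_lit 13) (nat_lit 61) (nat_lit 47) (nat_lit 100) (nat_lit 392) (.spl (nat_lit 1) (nat_lit 330)
(.trX (nat_lit 13) (nat_lit 57) (nat_lit 53) (nat_lit 100) (nat_lit 384) (.spl (nat_lit 3) (nat_lit 60)
(.trX (nat_lit 19) (nat_lit 81) (nat_lit 100) (nat_lit 72) (nat_lit 232) (.spl (nat_lit 0) (nat_lit 390)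
(.leaf p127_l84)
(.trX (nat_lit 13) (nat_lit 41) (nat_lit 68) (nat_lit 100) (nat_lit 372) (.trZ (nat_lit 3) (nat_lit 100) (nat_lit 52) (nat_lit 53) (nat_lit 8) (.leaf p127_l85)))))
(.trZ (nat_lit 3) (nat_lit 100) (nat_lit 61) (nat_lit 47) (nat_lit 8) (.spl (nat_lit 0) (nat_lit 390)
(.leaf p127_l86)
(.trX (nat_lit 13) (nat_lit 41) (nat_lit 68) (nat_lit 100) (nat_lit 372) (.trZ (nat_lit 3) (nat_lit 100) (nat_lit 44) (nat_lit 64) (nat_lit 20) (.leaf p127_l87)))))))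
(.trX (nat_lit 19) (nat_lit 78) (nat_lit 100) (nat_lit 82) (nat_lit 244) (.spl (nat_lit 0) (nat_lit 390)
(.leaf p127_l88)
(.trX (nat_lit 13) (nat_lit 44) (nat_lit 64) (nat_lit 100) (nat_lit 380) (.trZ (nat_lit 3) (nat_lit 100) (nat_lit 52) (nat_lit 53) (nat_lit 8) (.spl (nat_lit 0) (nat_lit 395)
(.leaf p127_l89)
(.trX (nat_lit 13) (nat_lit 31) (nat_lit 76) (nat_lit 100) (nat_lit 372) (.trZ (nat_lit 3) (nat_lit 100) (nat_lit 37) (nat_lit 68) (nat_lit 16) (.leaf p127_l90))))))))))))) (by decide +kernel)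
noncomputable def p127_l91 : Lf2 := ⟨nat_lit 0, nat_lit 20, [nat_lit 5, nat_lit 5, nat_lit 5, nat_lit 20], false, nat_lit 80, nat_lit 200, nat_lit 0, nat_lit 260, ⟨nat_lit 237, nat_lit 763, nat_lit 0, nat_lit 8, nat_lit 292, nat_lit 763, nat_lit 102, nat_lit 0, nat_lit 0, nat_lit 0, nat_lit 0, nat_lit 0, nat_lit 40648315, nat_lit 22164298, nat_lit 4187387, nat_lit 4455543, true, false⟩,
 nat_lit 0, nat_lit 0, nat_lit 2238, nat_lit 0, nat_lit 4842, nat_lit 1678, nat_lit 0, nat_lit 0, nat_lit 0, nat_lit 129, nat_lit 0, nat_lit 0, nat_lit 0, nat_lit 0, nat_lit 0, nat_lit 190750, nat_lit 0, nat_lit 0, [(nat_lit 25, [(nat_lit 0, nat_lit 763)])],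
 ⟨p127_k8, nat_lit 0, nat_lit 0, nat_lit 104, nat_lit 0, nat_lit 0, [nat_lit 805238001, nat_lit 1822228400, nat_lit 3097284000], [], [nat_lit 22558282144, nat_lit 23416984700, nat_lit 27578170624, nat_lit 28242328460, nat_lit 23725307712, nat_lit 24447180938, nat_lit 27906062252, nat_lit 28469175979], nat_lit 0, nat_lit 0, nat_lit 0, nat_lit 0, nat_lit 0, nat_lit 0, [], [nat_lit 20, nat_lit 40, nat_lit 40, nat_lit 80, nat_lit 16, nat_lit 260, nat_lit 50, nat_lit 9]⟩, ⟨p127_k9, nat_lit 0, nat_lit 0, nat_lit 634, nat_lit 0, nat_lit 1011715, [nat_lit 481584000, nat_lit 1111056000, nat_lit 2332554000], [], [nat_lit 7301656018, nat_lit 7383126539, nat_lit 7986103234, nat_lit 8090019394, nat_lit 6630041404, nat_lit 6687956472, nat_lit 6900389888, nat_lit 6951758483], nat_lit 1271250, nat_lit 1271250, nat_lit 1271250, nat_lit 1271250, nat_lit 0, nat_lit 1836250, [nat_lit 490000, nat_lit 1100000, nat_lit 2127500], [nat_lit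 27, nat_lit 40, nat_lit 40, nat_lit 80, nat_lit 13, nat_lit 373, nat_lit 150, nat_lit 10]⟩,
 ⟨nat_lit 2738, nat_lit 3163, ⟨.ofNat (nat_lit 632856), .ofNat (nat_lit 815772), .ofNat (nat_lit 643928), .ofNat (nat_lit 826842), .ofNat (nat_lit 634431), .ofNat (nat_lit 811670), .ofNat (nat_lit 645634), .ofNat (nat_lit 822873)⟩, ⟨.ofNat (nat_lit 139899), .ofNat (nat_lit 322759), .ofNat (nat_lit 184209), .ofNat (nat_lit 367069), .ofNat (nat_lit 143475), .ofNat (nat_lit 320659), .ofNat (nat_lit 188310), .ofNat (nat_lit 365494)⟩⟩, [⟨nat_lit 16, nat_lit 57, nat_lit 100, nat_lit 73, nat_lit 121427561⟩, ⟨nat_lit 7, nat_lit 100, nat_lit 79, nat_lit 72, nat_lit 32643624⟩]⟩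
noncomputable def p127_l92 : Lf2 := ⟨nat_lit 0, nat_lit 20, [nat_lit 5, nat_lit 5, nat_lit 5, nat_lit 20], false, nat_lit 80, nat_lit 184, nat_lit 0, nat_lit 260, ⟨nat_lit 184, nat_lit 816, nat_lit 0, nat_lit 8, nat_lit 296, nat_lit 816, nat_lit 97, nat_lit 0, nat_lit 0, nat_lit 0, nat_lit 0, nat_lit 0, nat_lit 40452417, nat_lit 22640980, nat_lit 3906603, nat_lit 4419156, true, false⟩,
 nat_lit 0, nat_lit 0, nat_lit 1734, nat_lit 0, nat_lit 2760, nat_lit 1300, nat_lit 272, nat_lit 0, nat_lit 0, nat_lit 100, nat_lit 0, nat_lit 0, nat_lit 0, nat_lit 0, nat_lit 0, nat_lit 204000, nat_lit 0, nat_lit 0, [(nat_lit 25, [(nat_lit 0, nat_lit 816)])],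
 ⟨p127_k20, nat_lit 0, nat_lit 0, nat_lit 108, nat_lit 0, nat_lit 0, [nat_lit 796016001, nat_lit 1720828801, nat_lit 2878288000], [], [nat_lit 21658190170, nat_lit 22273694913, nat_lit 25337888520, nat_lit 25854571920, nat_lit 22995829936, nat_lit 23534310594, nat_lit 26228629318, nat_lit 26676899001], nat_lit 0, nat_lit 0, nat_lit 0, nat_lit 0, nat_lit 0, nat_lit 0, [], [nat_lit 20, nat_lit 40, nat_lit 40, nat_lit 80, nat_lit 16, nat_lit 260, nat_lit 50, nat_lit 9]⟩, ⟨p127_k9, nat_lit 0, nat_lit 0, nat_lit 703, nat_lit 0, nat_lit 1122083, [nat_lit 373888000, nat_lit 862592000, nat_lit 1810928000], [], [nat_lit 5852616556, nat_lit 5903134313, nat_lit 6205028248, nat_lit 6285632584, nat_lit 5190060864, nat_lit 5223162243, nat_lit 5373966148, nat_lit 5407855147], nat_lit 1271250, nat_lit 1271250, nat_lit 1271250, nat_lit 1271250, nat_lit 0, nat_lit 1836250, [nat_lit 490000, nat_lit 1100000, nat_lit 2127500], [nat_lit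 27, nat_lit 40, nat_lit 40, nat_lit 80, nat_lit 13, nat_lit 373, nat_lit 150, nat_lit 10]⟩,
 ⟨nat_lit 2236, nat_lit 2739, ⟨.ofNat (nat_lit 658020), .ofNat (nat_lit 811671), .ofNat (nat_lit 669219), .ofNat (nat_lit 822869), .ofNat (nat_lit 659343), .ofNat (nat_lit 807675), .ofNat (nat_lit 670720), .ofNat (nat_lit 819051)⟩, ⟨.ofNat (nat_lit 143475), .ofNat (nat_lit 297035), .ofNat (nat_lit 188310), .ofNat (nat_lit 341870), .ofNat (nat_lit 146758), .ofNat (nat_lit 294998), .ofNat (nat_lit 192306), .ofNat (nat_lit 340547)⟩⟩, [⟨nat_lit 4, nat_lit 100, nat_lit 50, nat_lit 74, nat_lit 204202255⟩, ⟨nat_lit 7, nat_lit 100, nat_lit 79, nat_lit 72, nat_lit 25296165⟩]⟩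
noncomputable def p127_l93 : Lf2 := ⟨nat_lit 0, nat_lit 20, [nat_lit 5, nat_lit 5, nat_lit 5, nat_lit 20], false, nat_lit 80, nat_lit 164, nat_lit 0, nat_lit 260, ⟨nat_lit 144, nat_lit 856, nat_lit 0, nat_lit 8, nat_lit 301, nat_lit 856, nat_lit 91, nat_lit 0, nat_lit 0, nat_lit 0, nat_lit 0, nat_lit 0, nat_lit 40274246, nat_lit 23183224, nat_lit 3542530, nat_lit 4364407, true, false⟩,
 nat_lit 0, nat_lit 0, nat_lit 1381, nat_lit 0, nat_lit 2816, nat_lit 1035, nat_lit 157, nat_lit 0, nat_lit 0, nat_lit 74, nat_lit 0, nat_lit 0, nat_lit 0, nat_lit 0, nat_lit 0, nat_lit 214000, nat_lit 0, nat_lit 0, [(nat_lit 28, [(nat_lit 0, nat_lit 856)])],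
 ⟨p127_k11, nat_lit 0, nat_lit 0, nat_lit 116, nat_lit 0, nat_lit 0, [nat_lit 804121600, nat_lit 1400169600, nat_lit 2360517334], [], [nat_lit 23194229524, nat_lit 24355862905, nat_lit 26152199471, nat_lit 27197933056, nat_lit 23982683316, nat_lit 25040034445, nat_lit 26664238728, nat_lit 27570406790], nat_lit 0, nat_lit 0, nat_lit 0, nat_lit 0, nat_lit 0, nat_lit 0, [], [nat_lit 20, nat_lit 40, nat_lit 40, nat_lit 80, nat_lit 16, nat_lit 260, nat_lit 50, nat_lit 8]⟩, ⟨p127_k9, nat_lit 0, nat_lit 0, nat_lit 779, nat_lit 0, nat_lit 1356689, [nat_lit 292608000, nat_lit 675072000, nat_lit 1417248000], [], [nat_lit 4714185295, nat_lit 4745215894, nat_lit 4929715768, nat_lit 4993265884, nat_lit 4150000932, nat_lit 4175423825, nat_lit 4250286164, nat_lit 4271003604], nat_lit 1271250, nat_lit 1271250, nat_lit 1271250, nat_lit 1271250, nat_lit 0, nat_lit 1836250, [nat_lit 490000, nat_lit 1100000, nat_lit 2127500], [nat_lit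 27, nat_lit 40, nat_lit 40, nat_lit 80, nat_lit 13, nat_lit 373, nat_lit 150, nat_lit 10]⟩,
 ⟨nat_lit 0, nat_lit 2237, ⟨.ofNat (nat_lit 684059), .ofNat (nat_lit 807594), .ofNat (nat_lit 694982), .ofNat (nat_lit 818584), .ofNat (nat_lit 691099), .ofNat (nat_lit 799902), .ofNat (nat_lit 703135), .ofNat (nat_lit 812004)⟩, ⟨.ofNat (nat_lit 146756), .ofNat (nat_lit 266484), .ofNat (nat_lit 192306), .ofNat (nat_lit 312035), .ofNat (nat_lit 149997), .ofNat (nat_lit 254993), .ofNat (nat_lit 199999), .ofNat (nat_lit 304995)⟩⟩, [⟨nat_lit 4, nat_lit 100, nat_lit 35, nat_lit 80, nat_lit 241304628⟩, ⟨nat_lit 19, nat_lit 79, nat_lit 100, nat_lit 72, nat_lit 18420958⟩]⟩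
noncomputable def p127_l94 : Lf2 := ⟨nat_lit 0, nat_lit 20, [nat_lit 5, nat_lit 5, nat_lit 5, nat_lit 20], false, nat_lit 80, nat_lit 200, nat_lit 0, nat_lit 244, ⟨nat_lit 468, nat_lit 532, nat_lit 0, nat_lit 8, nat_lit 299, nat_lit 532, nat_lit 102, nat_lit 0, nat_lit 0, nat_lit 0, nat_lit 0, nat_lit 0, nat_lit 39947640, nat_lit 22903723, nat_lit 4148637, nat_lit 4481008, true, false⟩,
 nat_lit 0, nat_lit 0, nat_lit 3625, nat_lit 0, nat_lit 5402, nat_lit 2825, nat_lit 0, nat_lit 0, nat_lit 0, nat_lit 303, nat_lit 0, nat_lit 0, nat_lit 0, nat_lit 0, nat_lit 0, nat_lit 133000, nat_lit 0, nat_lit 0, [(nat_lit 25, [(nat_lit 0, nat_lit 532)])],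
 ⟨p127_k8, nat_lit 0, nat_lit 0, nat_lit 108, nat_lit 0, nat_lit 0, [nat_lit 845432001, nat_lit 2264177600, nat_lit 4051776000], [], [nat_lit 23724937916, nat_lit 25516866981, nat_lit 28522062944, nat_lit 29930099984, nat_lit 24639723070, nat_lit 26141711955, nat_lit 28607213612, nat_lit 29796825786], nat_lit 0, nat_lit 0, nat_lit 0, nat_lit 0, nat_lit 0, nat_lit 0, [], [nat_lit 20, nat_lit 40, nat_lit 40, nat_lit 80, nat_lit 16, nat_lit 260, nat_lit 50, nat_lit 9]⟩, ⟨p127_k10, nat_lit 0, nat_lit 0, nat_lit 705, nat_lit 0, nat_lit 1126843, [nat_lit 950976000, nat_lit 2193984000, nat_lit 4606056000], [], [nat_lit 14124206448, nat_lit 14281147978, nat_lit 15019683271, nat_lit 15161186896, nat_lit 13188606338, nat_lit 13319982740, nat_lit 13949824285, nat_lit 14061445133], nat_lit 1271250, nat_lit 1271250, nat_lit 1271250, nat_lit 1271250, nat_lit 0, nat_lit 1723250, [nat_lit 490000, nat_lit 1100000, nat_lit 2127500],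 [nat_lit 27, nat_lit 40, nat_lit 40, nat_lit 80, nat_lit 13, nat_lit 373, nat_lit 150, nat_lit 10]⟩,
 ⟨nat_lit 2236, nat_lit 3163, ⟨.ofNat (nat_lit 661911), .ofNat (nat_lit 826765), .ofNat (nat_lit 672956), .ofNat (nat_lit 837812), .ofNat (nat_lit 664755), .ofNat (nat_lit 818978), .ofNat (nat_lit 676111), .ofNat (nat_lit 830334)⟩, ⟨.ofNat (nat_lit 139899), .ofNat (nat_lit 322759), .ofNat (nat_lit 184209), .ofNat (nat_lit 367069), .ofNat (nat_lit 146758), .ofNat (nat_lit 317804), .ofNat (nat_lit 192306), .ofNat (nat_lit 363353)⟩⟩, [⟨nat_lit 4, nat_lit 100, nat_lit 54, nat_lit 73, nat_lit 283469201⟩, ⟨nat_lit 7, nat_lit 100, nat_lit 74, nat_lit 72, nat_lit 105152475⟩]⟩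
noncomputable def p127_l95 : Lf2 := ⟨nat_lit 0, nat_lit 20, [nat_lit 5, nat_lit 5, nat_lit 5, nat_lit 20], false, nat_lit 80, nat_lit 164, nat_lit 0, nat_lit 244, ⟨nat_lit 213, nat_lit 787, nat_lit 0, nat_lit 8, nat_lit 308, nat_lit 787, nat_lit 91, nat_lit 0, nat_lit 0, nat_lit 0, nat_lit 0, nat_lit 0, nat_lit 39559576, nat_lit 23938281, nat_lit 3502143, nat_lit 4386245, true, false⟩,
 nat_lit 0, nat_lit 0, nat_lit 1699, nat_lit 0, nat_lit 2659, nat_lit 1324, nat_lit 98, nat_lit 0, nat_lit 0, nat_lit 132, nat_lit 0, nat_lit 0, nat_lit 0, nat_lit 0, nat_lit 0, nat_lit 314800, nat_lit 0, nat_lit 0, [(nat_lit 28, [(nat_lit 1, nat_lit 787)])],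
 ⟨p127_k11, nat_lit 0, nat_lit 0, nat_lit 116, nat_lit 0, nat_lit 0, [nat_lit 748805201, nat_lit 954683600, nat_lit 1439856000], [], [nat_lit 23353100502, nat_lit 24468096737, nat_lit 25874371994, nat_lit 26925457044, nat_lit 24171731682, nat_lit 25184455062, nat_lit 26479345685, nat_lit 27367082512], nat_lit 0, nat_lit 0, nat_lit 0, nat_lit 0, nat_lit 0, nat_lit 0, [], [nat_lit 20, nat_lit 40, nat_lit 40, nat_lit 80, nat_lit 16, nat_lit 260, nat_lit 50, nat_lit 8]⟩, ⟨p127_k10, nat_lit 0, nat_lit 0, nat_lit 772, nat_lit 0, nat_lit 1342968, [nat_lit 432816000, nat_lit 998544000, nat_lit 2096346000], [], [nat_lit 6686402930, nat_lit 6742281975, nat_lit 6935296797, nat_lit 6995103458, nat_lit 6218466094, nat_lit 6261354851, nat_lit 6399456440, nat_lit 6441373521], nat_lit 1271250, nat_lit 1271250, nat_lit 1271250, nat_lit 1271250, nat_lit 0, nat_lit 1723250, [nat_lit 490000, nat_lit 1100000, nat_lit 2127500], [nat_lit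 27, nat_lit 40, nat_lit 40, nat_lit 80, nat_lit 13, nat_lit 373, nat_lit 150, nat_lit 10]⟩,
 ⟨nat_lit 0, nat_lit 2237, ⟨.ofNat (nat_lit 712639), .ofNat (nat_lit 818584), .ofNat (nat_lit 723563), .ofNat (nat_lit 829507), .ofNat (nat_lit 718688), .ofNat (nat_lit 812004), .ofNat (nat_lit 730725), .ofNat (nat_lit 824041)⟩, ⟨.ofNat (nat_lit 146756), .ofNat (nat_lit 266484), .ofNat (nat_lit 192306), .ofNat (nat_lit 312035), .ofNat (nat_lit 149997), .ofNat (nat_lit 254993), .ofNat (nat_lit 199999), .ofNat (nat_lit 304995)⟩⟩, [⟨nat_lit 4, nat_lit 100, nat_lit 35, nat_lit 80, nat_lit 289376535⟩, ⟨nat_lit 7, nat_lit 100, nat_lit 74, nat_lit 72, nat_lit 45332868⟩]⟩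
noncomputable def p127_l96 : Lf2 := ⟨nat_lit 0, nat_lit 15, [nat_lit 30, nat_lit 5, nat_lit 5, nat_lit 20], false, nat_lit 80, nat_lit 176, nat_lit 0, nat_lit 232, ⟨nat_lit 1000, nat_lit 0, nat_lit 0, nat_lit 0, nat_lit 0, nat_lit 0, nat_lit 0, nat_lit 0, nat_lit 0, nat_lit 0, nat_lit 0, nat_lit 0, nat_lit 0, nat_lit 0, nat_lit 0, nat_lit 0, false, false⟩,
 nat_lit 0, nat_lit 0, nat_lit 8556, nat_lit 0, nat_lit 5181, nat_lit 6416, nat_lit 0, nat_lit 0, nat_lit 0, nat_lit 318, nat_lit 0, nat_lit 0, nat_lit 0, nat_lit 0, nat_lit 0, nat_lit 0, nat_lit 0, nat_lit 0, [],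
 ⟨p127_k5, nat_lit 0, nat_lit 0, nat_lit 130, nat_lit 0, nat_lit 0, [nat_lit 938000000, nat_lit 3282000000, nat_lit 6250000000], [], [nat_lit 30738430428, nat_lit 32099571942, nat_lit 35218667216, nat_lit 36328871609, nat_lit 30669214605, nat_lit 31763048684, nat_lit 34514455881, nat_lit 35499357715], nat_lit 0, nat_lit 0, nat_lit 0, nat_lit 0, nat_lit 0, nat_lit 0, [], [nat_lit 20, nat_lit 40, nat_lit 40, nat_lit 80, nat_lit 16, nat_lit 260, nat_lit 50, nat_lit 8]⟩, ⟨p127_k6, nat_lit 0, nat_lit 0, nat_lit 551, nat_lit 0, nat_lit 975822, [nat_lit 2032000000, nat_lit 4688000000, nat_lit 7968000000], [], [nat_lit 36847646348, nat_lit 37150808332, nat_lit 39294317491, nat_lit 39535010352, nat_lit 33619070019, nat_lit 33830950570, nat_lit 35349605284, nat_lit 35516655740], nat_lit 1271250, nat_lit 1271250, nat_lit 1271250, nat_lit 1271250, nat_lit 0, nat_lit 1638500, [nat_lit 490000, nat_lit 1100000, nat_lit 1785000],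 [nat_lit 34, nat_lit 40, nat_lit 40, nat_lit 80, nat_lit 7, nat_lit 272, nat_lit 60, nat_lit 8]⟩,
 zbF0, [⟨nat_lit 4, nat_lit 100, nat_lit 55, nat_lit 69, nat_lit 371181636⟩, ⟨nat_lit 7, nat_lit 100, nat_lit 78, nat_lit 66, nat_lit 150386428⟩]⟩
noncomputable def p127_l97 : Lf2 := ⟨nat_lit 0, nat_lit 20, [nat_lit 5, nat_lit 5, nat_lit 5, nat_lit 20], false, nat_lit 80, nat_lit 200, nat_lit 0, nat_lit 260, ⟨nat_lit 1000, nat_lit 0, nat_lit 0, nat_lit 0, nat_lit 0, nat_lit 0, nat_lit 0, nat_lit 0, nat_lit 0, nat_lit 0, nat_lit 0, nat_lit 0, nat_lit 0, nat_lit 0, nat_lit 0, nat_lit 0, false, false⟩,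
 nat_lit 0, nat_lit 0, nat_lit 8101, nat_lit 0, nat_lit 5162, nat_lit 6075, nat_lit 0, nat_lit 0, nat_lit 0, nat_lit 549, nat_lit 0, nat_lit 0, nat_lit 0, nat_lit 0, nat_lit 0, nat_lit 0, nat_lit 0, nat_lit 0, [],
 ⟨p127_k8, nat_lit 0, nat_lit 0, nat_lit 130, nat_lit 0, nat_lit 0, [nat_lit 938000000, nat_lit 3282000000, nat_lit 6250000000], [], [nat_lit 30757647256, nat_lit 32097193484, nat_lit 35210832832, nat_lit 36319074977, nat_lit 31027124676, nat_lit 32077276616, nat_lit 34714815985, nat_lit 35660958180], nat_lit 0, nat_lit 0, nat_lit 0, nat_lit 0, nat_lit 0, nat_lit 0, [], [nat_lit 20, nat_lit 40, nat_lit 40, nat_lit 80, nat_lit 16, nat_lit 260, nat_lit 50, nat_lit 8]⟩, ⟨p127_k9, nat_lit 0, nat_lit 0, nat_lit 584, nat_lit 0, nat_lit 904452, [nat_lit 2032000000, nat_lit 4688000000, nat_lit 9842000000], [], [nat_lit 36349445350, nat_lit 36598811575, nat_lit 38376222341, nat_lit 38573768253, nat_lit 33160374575,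 nat_lit 33330454907, nat_lit 34889222180, nat_lit 35076189244], nat_lit 1271250, nat_lit 1271250, nat_lit 1271250, nat_lit 1271250, nat_lit 0, nat_lit 1836250, [nat_lit 490000, nat_lit 1100000, nat_lit 2127500], [nat_lit 27, nat_lit 40, nat_lit 40, nat_lit 80, nat_lit 13, nat_lit 289, nat_lit 75, nat_lit 7]⟩,
 zbF0, [⟨nat_lit 4, nat_lit 100, nat_lit 53, nat_lit 77, nat_lit 400766529⟩, ⟨nat_lit 7, nat_lit 100, nat_lit 79, nat_lit 77, nat_lit 170223551⟩]⟩
noncomputable def p127_l98 : Lf2 := ⟨nat_lit 0, nat_lit 15, [nat_lit 30, nat_lit 5, nat_lit 5, nat_lit 20], false, nat_lit 80, nat_lit 140, nat_lit 0, nat_lit 232, ⟨nat_lit 692, nat_lit 308, nat_lit 0, nat_lit 8, nat_lit 341, nat_lit 308, nat_lit 80, nat_lit 0, nat_lit 0, nat_lit 0, nat_lit 0, nat_lit 0, nat_lit 37080187, nat_lit 27170833, nat_lit 2748980, nat_lit 4314113, true, true⟩,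
 nat_lit 0, nat_lit 0, nat_lit 6156, nat_lit 0, nat_lit 2685, nat_lit 4617, nat_lit 80, nat_lit 0, nat_lit 0, nat_lit 210, nat_lit 0, nat_lit 0, nat_lit 0, nat_lit 0, nat_lit 0, nat_lit 308000, nat_lit 0, nat_lit 0, [(nat_lit 28, [(nat_lit 2, nat_lit 308)])],
 ⟨p127_k15, nat_lit 0, nat_lit 0, nat_lit 119, nat_lit 0, nat_lit 0, [nat_lit 890568001, nat_lit 1503690134, nat_lit 1856987200], [], [nat_lit 26621514605, nat_lit 27579152695, nat_lit 29211502524, nat_lit 30045522968, nat_lit 27052398845, nat_lit 27950776735, nat_lit 29489037501, nat_lit 30324400267], nat_lit 0, nat_lit 0, nat_lit 0, nat_lit 0, nat_lit 0, nat_lit 0, [], [nat_lit 35, nat_lit 40, nat_lit 40, nat_lit 80, nat_lit 22, nat_lit 249, nat_lit 40, nat_lit 9]⟩, ⟨p127_k6, nat_lit 0, nat_lit 0, nat_lit 648, nat_lit 0, nat_lit 1205714, [nat_lit 1406144000, nat_lit 3244096000, nat_lit 5513856000], [], [nat_lit 25675714488, nat_lit 25851774758, nat_lit 26864894262,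 nat_lit 27009477058, nat_lit 23262690553, nat_lit 23382680929, nat_lit 24083607438, nat_lit 24180751395], nat_lit 1271250, nat_lit 1271250, nat_lit 1271250, nat_lit 1271250, nat_lit 0, nat_lit 1638500, [nat_lit 490000, nat_lit 1100000, nat_lit 1785000], [nat_lit 34, nat_lit 40, nat_lit 40, nat_lit 80, nat_lit 7, nat_lit 281, nat_lit 60, nat_lit 8]⟩,
 ⟨nat_lit 0, nat_lit 2237, ⟨.ofNat (nat_lit 807594), .ofNat (nat_lit 898913), .ofNat (nat_lit 818584), .ofNat (nat_lit 910301), .ofNat (nat_lit 799902), .ofNat (nat_lit 879996), .ofNat (nat_lit 812004), .ofNat (nat_lit 892497)⟩, ⟨.ofNat (nat_lit 146756), .ofNat (nat_lit 232276), .ofNat (nat_lit 169532), .ofNat (nat_lit 255052), .ofNat (nat_lit 149997), .ofNat (nat_lit 224994), .ofNat (nat_lit 174999), .ofNat (nat_lit 249996)⟩⟩, [⟨nat_lit 4, nat_lit 100, nat_lit 36, nat_lit 77, nat_lit 1230370103⟩, ⟨nat_lit 7, nat_lit 100, nat_lit 78, nat_lit 66, nat_lit 102001764⟩]⟩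
noncomputable def p127_l99 : Lf2 := ⟨nat_lit 0, nat_lit 20, [nat_lit 5, nat_lit 5, nat_lit 5, nat_lit 20], false, nat_lit 80, nat_lit 164, nat_lit 0, nat_lit 260, ⟨nat_lit 1000, nat_lit 0, nat_lit 0, nat_lit 0, nat_lit 0, nat_lit 0, nat_lit 0, nat_lit 0, nat_lit 0, nat_lit 0, nat_lit 0, nat_lit 0, nat_lit 0, nat_lit 0, nat_lit 0, nat_lit 0, false, false⟩,
 nat_lit 0, nat_lit 0, nat_lit 9010, nat_lit 0, nat_lit 3158, nat_lit 6757, nat_lit 474, nat_lit 0, nat_lit 0, nat_lit 471, nat_lit 0, nat_lit 0, nat_lit 0, nat_lit 0, nat_lit 0, nat_lit 0, nat_lit 0, nat_lit 0, [],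
 ⟨p127_k11, nat_lit 0, nat_lit 0, nat_lit 128, nat_lit 0, nat_lit 0, [nat_lit 938000000, nat_lit 3282000000, nat_lit 6250000000], [], [nat_lit 26527160006, nat_lit 26799262534, nat_lit 29929647344, nat_lit 30208880732, nat_lit 26862652235, nat_lit 27099231642, nat_lit 29881234904, nat_lit 30136363219], nat_lit 0, nat_lit 0, nat_lit 0, nat_lit 0, nat_lit 0, nat_lit 0, [], [nat_lit 20, nat_lit 40, nat_lit 40, nat_lit 80, nat_lit 16, nat_lit 260, nat_lit 50, nat_lit 8]⟩, ⟨p127_k9, nat_lit 0, nat_lit 0, nat_lit 601, nat_lit 0, nat_lit 959078, [nat_lit 2032000000, nat_lit 4688000000, nat_lit 9842000000], [], [nat_lit 35374855730, nat_lit 35804722958, nat_lit 38486422096, nat_lit 39260495979, nat_lit 31631927781, nat_lit 31812337063, nat_lit 32868399061, nat_lit 33201292043], nat_lit 1271250, nat_lit 1271250, nat_lit 1271250, nat_lit 1271250, nat_lit 0, nat_lit 1836250, [nat_lit 490000, nat_lit 1100000, nat_lit 2127500],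 [nat_lit 27, nat_lit 40, nat_lit 40, nat_lit 80, nat_lit 13, nat_lit 289, nat_lit 75, nat_lit 7]⟩,
 zbF0, [⟨nat_lit 16, nat_lit 43, nat_lit 100, nat_lit 79, nat_lit 544253977⟩, ⟨nat_lit 7, nat_lit 100, nat_lit 79, nat_lit 77, nat_lit 89257431⟩]⟩
noncomputable def p127_l100 : Lf2 := ⟨nat_lit 0, nat_lit 20, [nat_lit 5, nat_lit 5, nat_lit 5, nat_lit 20], false, nat_lit 80, nat_lit 152, nat_lit 0, nat_lit 260, ⟨nat_lit 892, nat_lit 108, nat_lit 0, nat_lit 8, nat_lit 341, nat_lit 108, nat_lit 93, nat_lit 0, nat_lit 0, nat_lit 0, nat_lit 0, nat_lit 0, nat_lit 36670735, nat_lit 26892886, nat_lit 3436379, nat_lit 4464289, true, true⟩,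
 nat_lit 0, nat_lit 0, nat_lit 7955, nat_lit 0, nat_lit 2904, nat_lit 5966, nat_lit 358, nat_lit 0, nat_lit 0, nat_lit 464, nat_lit 0, nat_lit 0, nat_lit 0, nat_lit 0, nat_lit 0, nat_lit 27000, nat_lit 0, nat_lit 0, [(nat_lit 28, [(nat_lit 0, nat_lit 108)])],
 ⟨p127_k18, nat_lit 0, nat_lit 0, nat_lit 114, nat_lit 0, nat_lit 0, [nat_lit 921108800, nat_lit 3040512000, nat_lit 4330347200], [], [nat_lit 26468876132, nat_lit 26715606496, nat_lit 29481476286, nat_lit 29754418356, nat_lit 26899830898, nat_lit 27127888368, nat_lit 29498870556, nat_lit 29752119127], nat_lit 0, nat_lit 0, nat_lit 0, nat_lit 0, nat_lit 0, nat_lit 0, [], [nat_lit 35, nat_lit 40, nat_lit 40, nat_lit 80, nat_lit 22, nat_lit 249, nat_lit 40, nat_lit 9]⟩, ⟨p127_k9, nat_lit 0, nat_lit 0, nat_lit 619, nat_lit 0, nat_lit 1014912, [nat_lit 1812544000, nat_lit 4181696000, nat_lit 8779064000], [], [nat_lit 31531230280, nat_lit 31718478770, nat_lit 33793698152,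 nat_lit 34491436833, nat_lit 28115138752, nat_lit 28276054262, nat_lit 29140908318, nat_lit 29290411480], nat_lit 1271250, nat_lit 1271250, nat_lit 1271250, nat_lit 1271250, nat_lit 0, nat_lit 1836250, [nat_lit 490000, nat_lit 1100000, nat_lit 2127500], [nat_lit 27, nat_lit 40, nat_lit 40, nat_lit 80, nat_lit 13, nat_lit 289, nat_lit 75, nat_lit 7]⟩,
 ⟨nat_lit 1581, nat_lit 1937, ⟨.ofNat (nat_lit 805728), .ofNat (nat_lit 889565), .ofNat (nat_lit 817226), .ofNat (nat_lit 901070), .ofNat (nat_lit 803793), .ofNat (nat_lit 885750), .ofNat (nat_lit 815443), .ofNat (nat_lit 897407)⟩, ⟨.ofNat (nat_lit 171255), .ofNat (nat_lit 271856), .ofNat (nat_lit 194266), .ofNat (nat_lit 294866), .ofNat (nat_lit 172886), .ofNat (nat_lit 271230), .ofNat (nat_lit 196201), .ofNat (nat_lit 294545)⟩⟩, [⟨nat_lit 4, nat_lit 100, nat_lit 37, nat_lit 81, nat_lit 589866870⟩, ⟨nat_lit 7, nat_lit 100, nat_lit 79, nat_lit 77, nat_lit 86304673⟩]⟩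
noncomputable def p127_l101 : Lf2 := ⟨nat_lit 0, nat_lit 20, [nat_lit 5, nat_lit 5, nat_lit 5, nat_lit 20], false, nat_lit 80, nat_lit 136, nat_lit 0, nat_lit 260, ⟨nat_lit 446, nat_lit 554, nat_lit 0, nat_lit 8, nat_lit 337, nat_lit 554, nat_lit 89, nat_lit 0, nat_lit 0, nat_lit 0, nat_lit 0, nat_lit 0, nat_lit 37160035, nat_lit 26611236, nat_lit 3228729, nat_lit 4411483, true, true⟩,
 nat_lit 0, nat_lit 0, nat_lit 3864, nat_lit 0, nat_lit 2593, nat_lit 2897, nat_lit 183, nat_lit 0, nat_lit 0, nat_lit 236, nat_lit 0, nat_lit 0, nat_lit 0, nat_lit 0, nat_lit 0, nat_lit 138500, nat_lit 0, nat_lit 0, [(nat_lit 28, [(nat_lit 0, nat_lit 554)])],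
 ⟨p127_k12, nat_lit 0, nat_lit 0, nat_lit 115, nat_lit 0, nat_lit 0, [nat_lit 851354401, nat_lit 2043256001, nat_lit 2853373600], [], [nat_lit 26645669467, nat_lit 27153930979, nat_lit 28798195363, nat_lit 29251656419, nat_lit 27042098249, nat_lit 27520866962, nat_lit 29077191088, nat_lit 29505668201], nat_lit 0, nat_lit 0, nat_lit 0, nat_lit 0, nat_lit 0, nat_lit 0, [], [nat_lit 35, nat_lit 40, nat_lit 40, nat_lit 80, nat_lit 22, nat_lit 249, nat_lit 40, nat_lit 9]⟩, ⟨p127_k9, nat_lit 0, nat_lit 0, nat_lit 676, nat_lit 0, nat_lit 1129813, [nat_lit 906272000, nat_lit 2090848000, nat_lit 4389532000], [], [nat_lit 16088230564, nat_lit 16181584339, nat_lit 16592682423, nat_lit 16671986064, nat_lit 14492210888, nat_lit 14572655206, nat_lit 14928126810, nat_lit 14996229387], nat_lit 1271250, nat_lit 1271250, nat_lit 1271250, nat_lit 1271250, nat_lit 0, nat_lit 1836250, [nat_lit 490000, nat_lit 1100000, nat_lit 2127500],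 [nat_lit 27, nat_lit 40, nat_lit 40, nat_lit 80, nat_lit 13, nat_lit 290, nat_lit 75, nat_lit 7]⟩,
 ⟨nat_lit 0, nat_lit 1582, ⟨.ofNat (nat_lit 803773), .ofNat (nat_lit 874821), .ofNat (nat_lit 815118), .ofNat (nat_lit 886479), .ofNat (nat_lit 799976), .ofNat (nat_lit 864997), .ofNat (nat_lit 812163), .ofNat (nat_lit 877498)⟩, ⟨.ofNat (nat_lit 172886), .ofNat (nat_lit 249373), .ofNat (nat_lit 196201), .ofNat (nat_lit 272689), .ofNat (nat_lit 174999), .ofNat (nat_lit 244996), .ofNat (nat_lit 199999), .ofNat (nat_lit 269997)⟩⟩, [⟨nat_lit 13, nat_lit 28, nat_lit 80, nat_lit 100, nat_lit 224687782⟩, ⟨nat_lit 16, nat_lit 25, nat_lit 100, nat_lit 86, nat_lit 534529759⟩, ⟨nat_lit 7, nat_lit 100, nat_lit 79, nat_lit 77, nat_lit 72292919⟩]⟩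
noncomputable def p127_l102 : Lf2 := ⟨nat_lit 0, nat_lit 20, [nat_lit 5, nat_lit 5, nat_lit 5, nat_lit 20], false, nat_lit 80, nat_lit 200, nat_lit 0, nat_lit 244, ⟨nat_lit 1000, nat_lit 0, nat_lit 0, nat_lit 0, nat_lit 0, nat_lit 0, nat_lit 0, nat_lit 0, nat_lit 0, nat_lit 0, nat_lit 0, nat_lit 0, nat_lit 0, nat_lit 0, nat_lit 0, nat_lit 0, false, false⟩,
 nat_lit 0, nat_lit 0, nat_lit 7047, nat_lit 0, nat_lit 4959, nat_lit 5492, nat_lit 0, nat_lit 0, nat_lit 0, nat_lit 585, nat_lit 0, nat_lit 0, nat_lit 0, nat_lit 0, nat_lit 0, nat_lit 0, nat_lit 0, nat_lit 0, [],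
 ⟨p127_k8, nat_lit 0, nat_lit 0, nat_lit 131, nat_lit 0, nat_lit 0, [nat_lit 938000000, nat_lit 3282000000, nat_lit 6250000000], [], [nat_lit 30962963892, nat_lit 32175446278, nat_lit 35368685560, nat_lit 36442572902, nat_lit 31314065582, nat_lit 32344349912, nat_lit 34945061728, nat_lit 35863977282], nat_lit 0, nat_lit 0, nat_lit 0, nat_lit 0, nat_lit 0, nat_lit 0, [], [nat_lit 20, nat_lit 40, nat_lit 40, nat_lit 80, nat_lit 16, nat_lit 260, nat_lit 50, nat_lit 8]⟩, ⟨p127_k10, nat_lit 0, nat_lit 0, nat_lit 673, nat_lit 0, nat_lit 1126843, [nat_lit 2032000000, nat_lit 4688000000, nat_lit 9842000000], [], [nat_lit 35833490685, nat_lit 36059783841, nat_lit 37733776005, nat_lit 37941276113, nat_lit 33709734649, nat_lit 33872407003, nat_lit 35369381225, nat_lit 35533407106], nat_lit 1271250, nat_lit 1271250, nat_lit 1271250, nat_lit 1271250, nat_lit 0, nat_lit 1723250, [nat_lit 490000, nat_lit 1100000, nat_lit 2127500],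 [nat_lit 27, nat_lit 40, nat_lit 40, nat_lit 80, nat_lit 13, nat_lit 292, nat_lit 75, nat_lit 8]⟩,
 zbF0, [⟨nat_lit 4, nat_lit 100, nat_lit 54, nat_lit 73, nat_lit 463677571⟩, ⟨nat_lit 19, nat_lit 74, nat_lit 100, nat_lit 72, nat_lit 220679687⟩]⟩
noncomputable def p127_l103 : Lf2 := ⟨nat_lit 0, nat_lit 20, [nat_lit 5, nat_lit 5, nat_lit 5, nat_lit 20], false, nat_lit 80, nat_lit 164, nat_lit 0, nat_lit 244, ⟨nat_lit 735, nat_lit 265, nat_lit 0, nat_lit 8, nat_lit 349, nat_lit 265, nat_lit 92, nat_lit 0, nat_lit 0, nat_lit 0, nat_lit 0, nat_lit 0, nat_lit 36002778, nat_lit 27683983, nat_lit 3313239, nat_lit 4454860, true, true⟩,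
 nat_lit 0, nat_lit 0, nat_lit 5371, nat_lit 0, nat_lit 2622, nat_lit 4186, nat_lit 374, nat_lit 0, nat_lit 0, nat_lit 426, nat_lit 0, nat_lit 0, nat_lit 0, nat_lit 0, nat_lit 0, nat_lit 106000, nat_lit 0, nat_lit 0, [(nat_lit 28, [(nat_lit 1, nat_lit 265)])],
 ⟨p127_k11, nat_lit 0, nat_lit 0, nat_lit 131, nat_lit 0, nat_lit 0, [nat_lit 874294000, nat_lit 2498342001, nat_lit 4630320000], [], [nat_lit 26248407786, nat_lit 26731976528, nat_lit 29330564921, nat_lit 29797261525, nat_lit 26866986007, nat_lit 27309615968, nat_lit 29816015418, nat_lit 30244063719], nat_lit 0, nat_lit 0, nat_lit 0, nat_lit 0, nat_lit 0, nat_lit 0, [], [nat_lit 20, nat_lit 40, nat_lit 40, nat_lit 80, nat_lit 16, nat_lit 260, nat_lit 50, nat_lit 8]⟩, ⟨p127_k10, nat_lit 0, nat_lit 0, nat_lit 723, nat_lit 0, nat_lit 1232803, [nat_lit 1493520000, nat_lit 3445680000, nat_lit 7233870000], [], [nat_lit 26553803288, nat_lit 26703481516, nat_lit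 27690466555, nat_lit 27821572210, nat_lit 24820376100, nat_lit 24954671150, nat_lit 25826898290, nat_lit 25936524715], nat_lit 1271250, nat_lit 1271250, nat_lit 1271250, nat_lit 1271250, nat_lit 0, nat_lit 1723250, [nat_lit 490000, nat_lit 1100000, nat_lit 2127500], [nat_lit 27, nat_lit 40, nat_lit 40, nat_lit 80, nat_lit 13, nat_lit 303, nat_lit 75, nat_lit 8]⟩,
 ⟨nat_lit 1581, nat_lit 2237, ⟨.ofNat (nat_lit 819040), .ofNat (nat_lit 921706), .ofNat (nat_lit 830404), .ofNat (nat_lit 933093), .ofNat (nat_lit 815415), .ofNat (nat_lit 913798), .ofNat (nat_lit 827050), .ofNat (nat_lit 925455)⟩, ⟨.ofNat (nat_lit 146758), .ofNat (nat_lit 266490), .ofNat (nat_lit 192306), .ofNat (nat_lit 312039), .ofNat (nat_lit 149571), .ofNat (nat_lit 264306), .ofNat (nat_lit 196201), .ofNat (nat_lit 310936)⟩⟩, [⟨nat_lit 4, nat_lit 100, nat_lit 41, nat_lit 77, nat_lit 511333469⟩, ⟨nat_lit 7, nat_lit 100, nat_lit 74, nat_lit 72, nat_lit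 157810617⟩]⟩
noncomputable def p127_l104 : Lf2 := ⟨nat_lit 0, nat_lit 20, [nat_lit 5, nat_lit 5, nat_lit 5, nat_lit 20], false, nat_lit 80, nat_lit 136, nat_lit 0, nat_lit 244, ⟨nat_lit 679, nat_lit 321, nat_lit 0, nat_lit 8, nat_lit 344, nat_lit 321, nat_lit 84, nat_lit 0, nat_lit 0, nat_lit 0, nat_lit 0, nat_lit 0, nat_lit 36728047, nat_lit 27329639, nat_lit 2942314, nat_lit 4363466, true, true⟩,
 nat_lit 0, nat_lit 0, nat_lit 5055, nat_lit 0, nat_lit 2651, nat_lit 3940, nat_lit 251, nat_lit 0, nat_lit 0, nat_lit 393, nat_lit 0, nat_lit 0, nat_lit 0, nat_lit 0, nat_lit 0, nat_lit 80250, nat_lit 0, nat_lit 0, [(nat_lit 28, [(nat_lit 0, nat_lit 321)])],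
 ⟨p127_k12, nat_lit 0, nat_lit 0, nat_lit 118, nat_lit 0, nat_lit 0, [nat_lit 887795601, nat_lit 2564244001, nat_lit 3624976400], [], [nat_lit 26775153807, nat_lit 27287764391, nat_lit 29292971902, nat_lit 29769434647, nat_lit 27157453191, nat_lit 27639468065, nat_lit 29579766796, nat_lit 30035487506], nat_lit 0, nat_lit 0, nat_lit 0, nat_lit 0, nat_lit 0, nat_lit 0, [], [nat_lit 35, nat_lit 40, nat_lit 40, nat_lit 80, nat_lit 22, nat_lit 249, nat_lit 40, nat_lit 9]⟩, ⟨p127_k10, nat_lit 0, nat_lit 0, nat_lit 760, nat_lit 0, nat_lit 1342968, [nat_lit 1379728000, nat_lit 3183152000, nat_lit 6682718000], [], [nat_lit 24199345708, nat_lit 24328121398, nat_lit 25008035810, nat_lit 25145501483, nat_lit 22614459585, nat_lit 22729515028, nat_lit 23323116958, nat_lit 23420235705], nat_lit 1271250, nat_lit 1271250, nat_lit 1271250, nat_lit 1271250, nat_lit 0, nat_lit 1723250, [nat_lit 490000, nat_lit 1100000, nat_lit 2127500],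 [nat_lit 27, nat_lit 40, nat_lit 40, nat_lit 80, nat_lit 13, nat_lit 311, nat_lit 75, nat_lit 8]⟩,
 ⟨nat_lit 0, nat_lit 1582, ⟨.ofNat (nat_lit 815118), .ofNat (nat_lit 897406), .ofNat (nat_lit 826447), .ofNat (nat_lit 909064), .ofNat (nat_lit 812163), .ofNat (nat_lit 887498), .ofNat (nat_lit 824335), .ofNat (nat_lit 899998)⟩, ⟨.ofNat (nat_lit 149570), .ofNat (nat_lit 226057), .ofNat (nat_lit 196201), .ofNat (nat_lit 272689), .ofNat (nat_lit 149998), .ofNat (nat_lit 219995), .ofNat (nat_lit 199999), .ofNat (nat_lit 269997)⟩⟩, [⟨nat_lit 16, nat_lit 33, nat_lit 100, nat_lit 84, nat_lit 970793924⟩, ⟨nat_lit 7, nat_lit 100, nat_lit 74, nat_lit 72, nat_lit 146848349⟩]⟩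
noncomputable def b_V_900_800_10_8 : St := ⟨true, nat_lit 0, nat_lit 1, nat_lit 1, nat_lit 80, nat_lit 360, nat_lit 400, nat_lit 320, nat_lit 340, nat_lit 200, nat_lit 400, nat_lit 40, nat_lit 80, nat_lit 80, nat_lit 200, nat_lit 0, nat_lit 260, nat_lit 80, nat_lit 120, nat_lit 0, nat_lit 0, nat_lit 0, nat_lit 0⟩
theorem d_V_900_800_10_8 (h : EB TB.env) : Dead b_V_900_800_10_8 := chkB_sound0 h (T :=
(.spl (nat_lit 2) (nat_lit 320)
(.spl (nat_lit 1) (nat_lit 330)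
(.spl (nat_lit 0) (nat_lit 380)
(.spl (nat_lit 0) (nat_lit 370)
(.leaf p127_l91)
(.trZ (nat_lit 0) (nat_lit 80) (nat_lit 53) (nat_lit 100) (nat_lit 216) (.trX (nat_lit 16) (nat_lit 53) (nat_lit 100) (nat_lit 80) (nat_lit 184) (.leaf p127_l92))))
(.trZ (nat_lit 0) (nat_lit 82) (nat_lit 44) (nat_lit 100) (nat_lit 236) (.trX (nat_lit 16) (nat_lit 44) (nat_lit 100) (nat_lit 82) (nat_lit 164) (.leaf p127_l93))))
(.trZ (nat_lit 0) (nat_lit 76) (nat_lit 60) (nat_lit 100) (nat_lit 212) (.trX (nat_lit 19) (nat_lit 78) (nat_lit 100) (nat_lit 82) (nat_lit 244) (.spl (nat_lit 0) (nat_lit 380)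
(.leaf p127_l94)
(.trZ (nat_lit 0) (nat_lit 79) (nat_lit 45) (nat_lit 100) (nat_lit 248) (.trX (nat_lit 16) (nat_lit 44) (nat_lit 100) (nat_lit 82) (nat_lit 164) (.leaf p127_l95)))))))
(.spl (nat_lit 1) (nat_lit 330)
(.trX (nat_lit 13) (nat_lit 79) (nat_lit 29) (nat_lit 100) (nat_lit 396) (.spl (nat_lit 0) (nat_lit 380)
(.spl (nat_lit 3) (nat_lit 60)
(.trX (nat_lit 16) (nat_lit 61) (nat_lit 100) (nat_lit 72) (nat_lit 176) (.trX (nat_lit 19) (nat_lit 81) (nat_lit 100) (nat_lit 72) (nat_lit 232) (.leaf p127_l96)))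
(.leaf p127_l97))
(.trX (nat_lit 13) (nat_lit 57) (nat_lit 53) (nat_lit 100) (nat_lit 384) (.trX (nat_lit 16) (nat_lit 44) (nat_lit 100) (nat_lit 82) (nat_lit 164) (.spl (nat_lit 3) (nat_lit 60)
(.trX (nat_lit 16) (nat_lit 46) (nat_lit 100) (nat_lit 75) (nat_lit 140) (.trX (nat_lit 19) (nat_lit 81) (nat_lit 100) (nat_lit 72) (nat_lit 232) (.leaf p127_l98)))
(.spl (nat_lit 0) (nat_lit 390)
(.spl (nat_lit 0) (nat_lit 385)
(.leaf p127_l99)
(.trX (nat_lit 13) (nat_lit 50) (nat_lit 60) (nat_lit 100) (nat_lit 380) (.trX (nat_lit 16) (nat_lit 39) (nat_lit 100) (nat_lit 83) (nat_lit 152) (.leaf p127_l100))))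
(.trX (nat_lit 13) (nat_lit 41) (nat_lit 68) (nat_lit 100) (nat_lit 372) (.trX (nat_lit 16) (nat_lit 33) (nat_lit 100) (nat_lit 84) (nat_lit 136) (.leaf p127_l101)))))))))
(.trX (nat_lit 19) (nat_lit 78) (nat_lit 100) (nat_lit 82) (nat_lit 244) (.spl (nat_lit 0) (nat_lit 380)
(.leaf p127_l102)
(.trX (nat_lit 13) (nat_lit 61) (nat_lit 47) (nat_lit 100) (nat_lit 392) (.trX (nat_lit 16) (nat_lit 44) (nat_lit 100) (nat_lit 82) (nat_lit 164) (.spl (nat_lit 0) (nat_lit 390)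
(.leaf p127_l103)
(.trX (nat_lit 13) (nat_lit 44) (nat_lit 64) (nat_lit 100) (nat_lit 380) (.trX (nat_lit 16) (nat_lit 33) (nat_lit 100) (nat_lit 84) (nat_lit 136) (.leaf p127_l104))))))))))) (by decide +kernel)
noncomputable def p127_l105 : Lf2 := ⟨nat_lit 0, nat_lit 20, [nat_lit 5, nat_lit 5, nat_lit 5, nat_lit 20], false, nat_lit 0, nat_lit 200, nat_lit 0, nat_lit 260, ⟨nat_lit 1000, nat_lit 0, nat_lit 0, nat_lit 0, nat_lit 0, nat_lit 0, nat_lit 0, nat_lit 0, nat_lit 0, nat_lit 0, nat_lit 0, nat_lit 0, nat_lit 0, nat_lit 0, nat_lit 0, nat_lit 0, false, false⟩,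
 nat_lit 0, nat_lit 0, nat_lit 0, nat_lit 0, nat_lit 5976, nat_lit 10001, nat_lit 0, nat_lit 0, nat_lit 0, nat_lit 0, nat_lit 0, nat_lit 0, nat_lit 0, nat_lit 0, nat_lit 0, nat_lit 0, nat_lit 0, nat_lit 0, [],
 ⟨p127_k24, nat_lit 0, nat_lit 0, nat_lit 202, nat_lit 0, nat_lit 0, [nat_lit 938000000, nat_lit 6250000000], [], [nat_lit 32152316480, nat_lit 35418117664, nat_lit 40916545696, nat_lit 43701174176, nat_lit 29507946944, nat_lit 32080355104, nat_lit 36391638080, nat_lit 38003792144], nat_lit 0, nat_lit 0, nat_lit 0, nat_lit 0, nat_lit 0, nat_lit 0, [], [nat_lit 88, nat_lit 40, nat_lit 40, nat_lit 80, nat_lit 89, nat_lit 260, nat_lit 50, nat_lit 9]⟩, ⟨p127_k25, nat_lit 0, nat_lit 0, nat_lit 225, nat_lit 0, nat_lit 0, [nat_lit 2032000000, nat_lit 9842000000], [], [nat_lit 38925717136, nat_lit 40357695044, nat_lit 49254285756, nat_lit 51084090024, nat_lit 31859920970, nat_lit 32802414748, nat_lit 37512747830,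 nat_lit 38775675402], nat_lit 0, nat_lit 0, nat_lit 0, nat_lit 0, nat_lit 0, nat_lit 0, [], [nat_lit 94, nat_lit 40, nat_lit 40, nat_lit 80, nat_lit 95, nat_lit 401, nat_lit 175, nat_lit 11]⟩,
 zbF0, [⟨nat_lit 4, nat_lit 100, nat_lit 46, nat_lit 75, nat_lit 61136128⟩]⟩
noncomputable def p127_l106 : Lf2 := ⟨nat_lit 0, nat_lit 20, [nat_lit 5, nat_lit 5, nat_lit 5, nat_lit 20], true, nat_lit 0, nat_lit 200, nat_lit 0, nat_lit 260, ⟨nat_lit 0, nat_lit 1000, nat_lit 0, nat_lit 8, nat_lit 293, nat_lit 1000, nat_lit 67, nat_lit 0, nat_lit 0, nat_lit 0, nat_lit 0, nat_lit 0, nat_lit 0, nat_lit 0, nat_lit 0, nat_lit 5000000, true, false⟩,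
 nat_lit 0, nat_lit 0, nat_lit 0, nat_lit 0, nat_lit 4034, nat_lit 0, nat_lit 0, nat_lit 0, nat_lit 0, nat_lit 0, nat_lit 0, nat_lit 0, nat_lit 0, nat_lit 0, nat_lit 0, nat_lit 250000, nat_lit 0, nat_lit 0, [(nat_lit 25, [(nat_lit 0, nat_lit 1000)]), (nat_lit 28, [(nat_lit 0, nat_lit 1000)])],
 ⟨p127_k8, nat_lit 0, nat_lit 0, nat_lit 164, nat_lit 0, nat_lit 0, [nat_lit 781600001, nat_lit 1368800000, nat_lit 2118000000], [], [nat_lit 25263291320, nat_lit 27889622976, nat_lit 29438086600, nat_lit 32560075704, nat_lit 24665665496, nat_lit 26774110436, nat_lit 27902284244, nat_lit 29590933152], nat_lit 0, nat_lit 0, nat_lit 0, nat_lit 0, nat_lit 0, nat_lit 0, [], [nat_lit 20, nat_lit 40, nat_lit 40, nat_lit 80, nat_lit 16, nat_lit 260, nat_lit 50, nat_lit 9]⟩, C1.Rw.none,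
 ⟨nat_lit 0, nat_lit 3163, ⟨.ofNat (nat_lit 625100), .ofNat (nat_lit 815384), .ofNat (nat_lit 645949), .ofNat (nat_lit 836507), .ofNat (nat_lit 642170), .ofNat (nat_lit 799594), .ofNat (nat_lit 665865), .ofNat (nat_lit 823562)⟩, ⟨.ofNat (nat_lit 0), .ofNat (nat_lit 322753), .ofNat (nat_lit 0), .ofNat (nat_lit 367065), .ofNat (nat_lit 0), .ofNat (nat_lit 299993), .ofNat (nat_lit 0), .ofNat (nat_lit 349995)⟩⟩, []⟩
noncomputable def p127_l107 : Lf2 := ⟨nat_lit 0, nat_lit 20, [nat_lit 5, nat_lit 5, nat_lit 5, nat_lit 20], false, nat_lit 0, nat_lit 200, nat_lit 0, nat_lit 260, ⟨nat_lit 155, nat_lit 845, nat_lit 0, nat_lit 8, nat_lit 350, nat_lit 845, nat_lit 67, nat_lit 0, nat_lit 0, nat_lit 0, nat_lit 0, nat_lit 0, nat_lit 0, nat_lit 0, nat_lit 0, nat_lit 5000000, true, true⟩,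
 nat_lit 0, nat_lit 0, nat_lit 1417, nat_lit 0, nat_lit 3137, nat_lit 1062, nat_lit 104, nat_lit 0, nat_lit 0, nat_lit 62, nat_lit 0, nat_lit 0, nat_lit 0, nat_lit 0, nat_lit 0, nat_lit 288200, nat_lit 0, nat_lit 0, [(nat_lit 25, [(nat_lit 0, nat_lit 332), (nat_lit 1, nat_lit 513)]), (nat_lit 28, [(nat_lit 0, nat_lit 332), (nat_lit 1, nat_lit 513)])],
 ⟨p127_k8, nat_lit 0, nat_lit 0, nat_lit 202, nat_lit 0, nat_lit 0, [nat_lit 838263600, nat_lit 1477246000, nat_lit 2141423600], [], [nat_lit 28091754844, nat_lit 30050488572, nat_lit 32086514004, nat_lit 34289673412, nat_lit 27818061196, nat_lit 29330621134, nat_lit 30508988548, nat_lit 32070857060], nat_lit 0, nat_lit 0, nat_lit 0, nat_lit 0, nat_lit 0, nat_lit 0, [], [nat_lit 20, nat_lit 40, nat_lit 40, nat_lit 80, nat_lit 16, nat_lit 260, nat_lit 50, nat_lit 8]⟩, ⟨p127_k9, nat_lit 0, nat_lit 0, nat_lit 793, nat_lit 0, nat_lit 1418377, [nat_lit 314960000, nat_lit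 726640000, nat_lit 1525510000], [], [nat_lit 5853895872, nat_lit 5906986412, nat_lit 6268675712, nat_lit 6494562258, nat_lit 5248542273, nat_lit 5283975154, nat_lit 5408532293, nat_lit 5434352142], nat_lit 1271250, nat_lit 1271250, nat_lit 1271250, nat_lit 1271250, nat_lit 0, nat_lit 1836250, [nat_lit 490000, nat_lit 1100000, nat_lit 2127500], [nat_lit 27, nat_lit 40, nat_lit 40, nat_lit 80, nat_lit 13, nat_lit 324, nat_lit 75, nat_lit 8]⟩,
 ⟨nat_lit 0, nat_lit 3163, ⟨.ofNat (nat_lit 815384), .ofNat (nat_lit 937693), .ofNat (nat_lit 836507), .ofNat (nat_lit 959849), .ofNat (nat_lit 799594), .ofNat (nat_lit 899997), .ofNat (nat_lit 823562), .ofNat (nat_lit 924998)⟩, ⟨.ofNat (nat_lit 0), .ofNat (nat_lit 322753), .ofNat (nat_lit 0), .ofNat (nat_lit 367065), .ofNat (nat_lit 0), .ofNat (nat_lit 299993), .ofNat (nat_lit 0), .ofNat (nat_lit 349995)⟩⟩, [⟨nat_lit 13, nat_lit 57, nat_lit 53, nat_lit 100, nat_lit 245660197⟩,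 ⟨nat_lit 4, nat_lit 100, nat_lit 46, nat_lit 75, nat_lit 85661028⟩, ⟨nat_lit 10, nat_lit 100, nat_lit 18, nat_lit 92, nat_lit 35431794⟩]⟩
noncomputable def b_V_900_800_10_9 : St := ⟨true, nat_lit 0, nat_lit 2, nat_lit 2, nat_lit 80, nat_lit 360, nat_lit 400, nat_lit 320, nat_lit 340, nat_lit 200, nat_lit 400, nat_lit 40, nat_lit 80, nat_lit 0, nat_lit 200, nat_lit 0, nat_lit 260, nat_lit 80, nat_lit 120, nat_lit 0, nat_lit 0, nat_lit 0, nat_lit 0⟩
theorem d_V_900_800_10_9 (h : EB TB.env) : Dead b_V_900_800_10_9 := chkB_sound0 h (T :=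
(.st (nat_lit 1)
(.leaf p127_l105)
(.spl (nat_lit 2) (nat_lit 320)
(.leaf p127_l106)
(.leaf p127_l107)))) (by decide +kernel)
noncomputable def p127_l108 : Lf2 := ⟨nat_lit 0, nat_lit 20, [nat_lit 5, nat_lit 5, nat_lit 5, nat_lit 20], false, nat_lit 0, nat_lit 200, nat_lit 0, nat_lit 260, ⟨nat_lit 1000, nat_lit 0, nat_lit 0, nat_lit 0, nat_lit 0, nat_lit 0, nat_lit 0, nat_lit 0, nat_lit 0, nat_lit 0, nat_lit 0, nat_lit 0, nat_lit 0, nat_lit 0, nat_lit 0, nat_lit 0, false, false⟩,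
 nat_lit 0, nat_lit 5819, nat_lit 0, nat_lit 0, nat_lit 5068, nat_lit 6762, nat_lit 243, nat_lit 0, nat_lit 0, nat_lit 349, nat_lit 0, nat_lit 0, nat_lit 0, nat_lit 0, nat_lit 0, nat_lit 0, nat_lit 0, nat_lit 0, [],
 ⟨p127_k8, nat_lit 0, nat_lit 0, nat_lit 494, nat_lit 0, nat_lit 921065, [nat_lit 938000000, nat_lit 3282000000, nat_lit 6250000000], [], [nat_lit 33280722942, nat_lit 34228746158, nat_lit 38701367358, nat_lit 39329082206, nat_lit 32392693495, nat_lit 33139762771, nat_lit 36669872223, nat_lit 37177242719], nat_lit 1271250, nat_lit 1271250, nat_lit 1271250, nat_lit 1271250, nat_lit 0, nat_lit 1412500, [nat_lit 230000, nat_lit 780000, nat_lit 1435000], [nat_lit 20, nat_lit 40, nat_lit 40, nat_lit 80, nat_lit 16, nat_lit 260, nat_lit 50, nat_lit 9]⟩, ⟨p127_k9, nat_lit 0, nat_lit 0, nat_lit 212, nat_lit 0, nat_lit 0, [nat_lit 2032000000, nat_lit 4688000000, nat_lit 9842000000], [], [nat_lit 29613387761,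 nat_lit 31365540393, nat_lit 40656387425, nat_lit 41639614485, nat_lit 27547738455, nat_lit 28561377037, nat_lit 34862124821, nat_lit 35552603054], nat_lit 0, nat_lit 0, nat_lit 0, nat_lit 0, nat_lit 0, nat_lit 0, [], [nat_lit 27, nat_lit 40, nat_lit 40, nat_lit 80, nat_lit 13, nat_lit 401, nat_lit 175, nat_lit 11]⟩,
 zbF0, [⟨nat_lit 0, nat_lit 75, nat_lit 46, nat_lit 100, nat_lit 26235620⟩, ⟨nat_lit 4, nat_lit 100, nat_lit 54, nat_lit 73, nat_lit 327469126⟩, ⟨nat_lit 7, nat_lit 100, nat_lit 76, nat_lit 72, nat_lit 213692396⟩]⟩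
noncomputable def p127_l109 : Lf2 := ⟨nat_lit 0, nat_lit 20, [nat_lit 5, nat_lit 5, nat_lit 5, nat_lit 20], false, nat_lit 0, nat_lit 164, nat_lit 0, nat_lit 260, ⟨nat_lit 1000, nat_lit 0, nat_lit 0, nat_lit 0, nat_lit 0, nat_lit 0, nat_lit 0, nat_lit 0, nat_lit 0, nat_lit 0, nat_lit 0, nat_lit 0, nat_lit 0, nat_lit 0, nat_lit 0, nat_lit 0, false, false⟩,
 nat_lit 0, nat_lit 3670, nat_lit 0, nat_lit 0, nat_lit 3429, nat_lit 6644, nat_lit 528, nat_lit 0, nat_lit 0, nat_lit 395, nat_lit 0, nat_lit 0, nat_lit 0, nat_lit 0, nat_lit 0, nat_lit 0, nat_lit 0, nat_lit 0, [],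
 ⟨p127_k11, nat_lit 0, nat_lit 0, nat_lit 514, nat_lit 0, nat_lit 974985, [nat_lit 938000000, nat_lit 3282000000, nat_lit 6250000000], [], [nat_lit 27899252874, nat_lit 28774022425, nat_lit 33628826865, nat_lit 34800645937, nat_lit 28191863748, nat_lit 29056897678, nat_lit 32845390356, nat_lit 33548605888], nat_lit 1271250, nat_lit 1271250, nat_lit 1271250, nat_lit 1271250, nat_lit 0, nat_lit 1133651, [nat_lit 230000, nat_lit 780000, nat_lit 1435000], [nat_lit 20, nat_lit 40, nat_lit 40, nat_lit 80, nat_lit 16, nat_lit 260, nat_lit 50, nat_lit 9]⟩, ⟨p127_k9, nat_lit 0, nat_lit 0, nat_lit 210, nat_lit 0, nat_lit 0, [nat_lit 2032000000, nat_lit 4688000000, nat_lit 9842000000], [], [nat_lit 30389827848, nat_lit 31993735564, nat_lit 39498527255, nat_lit 40508504162, nat_lit 27960100738, nat_lit 28894148914, nat_lit 34046912967, nat_lit 34754532674], nat_lit 0, nat_lit 0, nat_lit 0, nat_lit 0, nat_lit 0, nat_lit 0,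 [], [nat_lit 27, nat_lit 40, nat_lit 40, nat_lit 80, nat_lit 13, nat_lit 401, nat_lit 175, nat_lit 11]⟩,
 zbF0, [⟨nat_lit 0, nat_lit 82, nat_lit 34, nat_lit 100, nat_lit 32091199⟩, ⟨nat_lit 4, nat_lit 100, nat_lit 35, nat_lit 80, nat_lit 523791289⟩, ⟨nat_lit 7, nat_lit 100, nat_lit 76, nat_lit 72, nat_lit 110154490⟩]⟩
noncomputable def p127_l110 : Lf2 := ⟨nat_lit 0, nat_lit 20, [nat_lit 5, nat_lit 5, nat_lit 5, nat_lit 20], false, nat_lit 0, nat_lit 200, nat_lit 0, nat_lit 260, ⟨nat_lit 1000, nat_lit 0, nat_lit 0, nat_lit 0, nat_lit 0, nat_lit 0, nat_lit 0, nat_lit 0, nat_lit 0, nat_lit 0, nat_lit 0, nat_lit 0, nat_lit 0, nat_lit 0, nat_lit 0, nat_lit 0, false, false⟩,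
 nat_lit 8055, nat_lit 0, nat_lit 0, nat_lit 0, nat_lit 5848, nat_lit 6041, nat_lit 42, nat_lit 0, nat_lit 0, nat_lit 492, nat_lit 0, nat_lit 0, nat_lit 0, nat_lit 0, nat_lit 0, nat_lit 0, nat_lit 0, nat_lit 0, [],
 ⟨p127_k8, nat_lit 0, nat_lit 0, nat_lit 394, nat_lit 0, nat_lit 627117, [nat_lit 938000000, nat_lit 3282000000, nat_lit 6250000000], [], [nat_lit 32511306436, nat_lit 34797053316, nat_lit 40312479616, nat_lit 43276844448, nat_lit 30716831684, nat_lit 32520999812, nat_lit 35900146340, nat_lit 37498327412], nat_lit 1271250, nat_lit 1271250, nat_lit 1271250, nat_lit 1271250, nat_lit 0, nat_lit 1412500, [nat_lit 230000, nat_lit 780000, nat_lit 1435000], [nat_lit 20, nat_lit 40, nat_lit 40, nat_lit 80, nat_lit 16, nat_lit 260, nat_lit 50, nat_lit 9]⟩, ⟨p127_k9, nat_lit 0, nat_lit 0, nat_lit 529, nat_lit 0, nat_lit 755584, [nat_lit 2032000000, nat_lit 4688000000, nat_lit 9842000000], [], [nat_lit 34163128704,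 nat_lit 34937609988, nat_lit 39046154320, nat_lit 39545420524, nat_lit 32208139094, nat_lit 32776755877, nat_lit 35715967299, nat_lit 36056131703], nat_lit 1271250, nat_lit 1271250, nat_lit 1271250, nat_lit 1271250, nat_lit 0, nat_lit 1836250, [nat_lit 490000, nat_lit 1100000, nat_lit 2127500], [nat_lit 27, nat_lit 40, nat_lit 40, nat_lit 80, nat_lit 13, nat_lit 401, nat_lit 175, nat_lit 11]⟩,
 zbF0, [⟨nat_lit 0, nat_lit 79, nat_lit 45, nat_lit 100, nat_lit 257713037⟩, ⟨nat_lit 4, nat_lit 100, nat_lit 46, nat_lit 75, nat_lit 287910382⟩, ⟨nat_lit 7, nat_lit 100, nat_lit 76, nat_lit 72, nat_lit 189708384⟩]⟩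
noncomputable def p127_l111 : Lf2 := ⟨nat_lit 0, nat_lit 20, [nat_lit 5, nat_lit 5, nat_lit 5, nat_lit 20], false, nat_lit 0, nat_lit 200, nat_lit 0, nat_lit 260, ⟨nat_lit 932, nat_lit 68, nat_lit 0, nat_lit 8, nat_lit 317, nat_lit 68, nat_lit 69, nat_lit 0, nat_lit 0, nat_lit 0, nat_lit 0, nat_lit 0, nat_lit 0, nat_lit 0, nat_lit 0, nat_lit 5000000, true, false⟩,
 nat_lit 0, nat_lit 5527, nat_lit 0, nat_lit 0, nat_lit 4813, nat_lit 6300, nat_lit 205, nat_lit 0, nat_lit 0, nat_lit 325, nat_lit 0, nat_lit 0, nat_lit 0, nat_lit 0, nat_lit 0, nat_lit 68000, nat_lit 0, nat_lit 0, [(nat_lit 25, [(nat_lit 2, nat_lit 68)])],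
 ⟨p127_k8, nat_lit 0, nat_lit 0, nat_lit 494, nat_lit 0, nat_lit 921065, [nat_lit 974067200, nat_lit 3032920534, nat_lit 5559881600], [], [nat_lit 32590186230, nat_lit 33440809406, nat_lit 37888697165, nat_lit 38509087425, nat_lit 31958683799, nat_lit 32677182168, nat_lit 36109441051, nat_lit 36609049983], nat_lit 1271250, nat_lit 1271250, nat_lit 1271250, nat_lit 1271250, nat_lit 0, nat_lit 1412500, [nat_lit 230000, nat_lit 780000, nat_lit 1435000], [nat_lit 20, nat_lit 40, nat_lit 40, nat_lit 80, nat_lit 16, nat_lit 260, nat_lit 50, nat_lit 9]⟩, ⟨p127_k9, nat_lit 0, nat_lit 0, nat_lit 212, nat_lit 0, nat_lit 0, [nat_lit 1893824000, nat_lit 4369216000, nat_lit 9172744000], [], [nat_lit 27601601049, nat_lit 29234258657, nat_lit 37891972185, nat_lit 38808197561, nat_lit 25681152365, nat_lit 26625703303, nat_lit 32495033313, nat_lit 33138488163], nat_lit 0, nat_lit 0, nat_lit 0, nat_lit 0, nat_lit 0, nat_lit 0, [],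 [nat_lit 27, nat_lit 40, nat_lit 40, nat_lit 80, nat_lit 13, nat_lit 401, nat_lit 175, nat_lit 11]⟩,
 ⟨nat_lit 2236, nat_lit 3163, ⟨.ofNat (nat_lit 632548), .ofNat (nat_lit 937695), .ofNat (nat_lit 654639), .ofNat (nat_lit 959850), .ofNat (nat_lit 636264), .ofNat (nat_lit 921722), .ofNat (nat_lit 658975), .ofNat (nat_lit 944496)⟩, ⟨.ofNat (nat_lit 0), .ofNat (nat_lit 322759), .ofNat (nat_lit 0), .ofNat (nat_lit 367069), .ofNat (nat_lit 0), .ofNat (nat_lit 317804), .ofNat (nat_lit 0), .ofNat (nat_lit 363353)⟩⟩, [⟨nat_lit 4, nat_lit 100, nat_lit 54, nat_lit 73, nat_lit 331562344⟩, ⟨nat_lit 7, nat_lit 100, nat_lit 76, nat_lit 72, nat_lit 191395989⟩]⟩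
noncomputable def p127_l112 : Lf2 := ⟨nat_lit 0, nat_lit 20, [nat_lit 5, nat_lit 5, nat_lit 5, nat_lit 20], false, nat_lit 0, nat_lit 164, nat_lit 0, nat_lit 260, ⟨nat_lit 1000, nat_lit 0, nat_lit 0, nat_lit 0, nat_lit 0, nat_lit 0, nat_lit 0, nat_lit 0, nat_lit 0, nat_lit 0, nat_lit 0, nat_lit 0, nat_lit 0, nat_lit 0, nat_lit 0, nat_lit 0, false, false⟩,
 nat_lit 0, nat_lit 3670, nat_lit 0, nat_lit 0, nat_lit 3429, nat_lit 6644, nat_lit 528, nat_lit 0, nat_lit 0, nat_lit 395, nat_lit 0, nat_lit 0, nat_lit 0, nat_lit 0, nat_lit 0, nat_lit 0, nat_lit 0, nat_lit 0, [],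
 ⟨p127_k11, nat_lit 0, nat_lit 0, nat_lit 514, nat_lit 0, nat_lit 974985, [nat_lit 938000000, nat_lit 3282000000, nat_lit 6250000000], [], [nat_lit 27899252874, nat_lit 28774022425, nat_lit 33628826865, nat_lit 34800645937, nat_lit 28191863748, nat_lit 29056897678, nat_lit 32845390356, nat_lit 33548605888], nat_lit 1271250, nat_lit 1271250, nat_lit 1271250, nat_lit 1271250, nat_lit 0, nat_lit 1133651, [nat_lit 230000, nat_lit 780000, nat_lit 1435000], [nat_lit 20, nat_lit 40, nat_lit 40, nat_lit 80, nat_lit 16, nat_lit 260, nat_lit 50, nat_lit 9]⟩, ⟨p127_k9, nat_lit 0, nat_lit 0, nat_lit 210, nat_lit 0, nat_lit 0, [nat_lit 2032000000, nat_lit 4688000000, nat_lit 9842000000], [], [nat_lit 30389827848, nat_lit 31993735564, nat_lit 39498527255, nat_lit 40508504162, nat_lit 27960100738, nat_lit 28894148914, nat_lit 34046912967, nat_lit 34754532674], nat_lit 0, nat_lit 0, nat_lit 0, nat_lit 0, nat_lit 0, nat_lit 0,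 [], [nat_lit 27, nat_lit 40, nat_lit 40, nat_lit 80, nat_lit 13, nat_lit 401, nat_lit 175, nat_lit 11]⟩,
 zbF0, [⟨nat_lit 0, nat_lit 82, nat_lit 34, nat_lit 100, nat_lit 32091199⟩, ⟨nat_lit 4, nat_lit 100, nat_lit 35, nat_lit 80, nat_lit 523791289⟩, ⟨nat_lit 7, nat_lit 100, nat_lit 76, nat_lit 72, nat_lit 110154490⟩]⟩
noncomputable def p127_l113 : Lf2 := ⟨nat_lit 0, nat_lit 20, [nat_lit 5, nat_lit 5, nat_lit 5, nat_lit 20], false, nat_lit 0, nat_lit 200, nat_lit 0, nat_lit 260, ⟨nat_lit 495, nat_lit 505, nat_lit 0, nat_lit 8, nat_lit 315, nat_lit 505, nat_lit 67, nat_lit 0, nat_lit 0, nat_lit 0, nat_lit 0, nat_lit 0, nat_lit 0, nat_lit 0, nat_lit 0, nat_lit 5000000, true, false⟩,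
 nat_lit 4230, nat_lit 0, nat_lit 0, nat_lit 0, nat_lit 3683, nat_lit 3172, nat_lit 0, nat_lit 0, nat_lit 0, nat_lit 238, nat_lit 0, nat_lit 0, nat_lit 0, nat_lit 0, nat_lit 0, nat_lit 337600, nat_lit 0, nat_lit 0, [(nat_lit 25, [(nat_lit 1, nat_lit 279), (nat_lit 2, nat_lit 226)]), (nat_lit 28, [(nat_lit 1, nat_lit 279), (nat_lit 2, nat_lit 226)])],
 ⟨p127_k8, nat_lit 0, nat_lit 0, nat_lit 394, nat_lit 0, nat_lit 627117, [nat_lit 1031867600, nat_lit 1818094267, nat_lit 2467962000], [], [nat_lit 28860483653, nat_lit 30602898041, nat_lit 34257114477, nat_lit 36099704908, nat_lit 29078236019, nat_lit 30494258875, nat_lit 33475230587, nat_lit 34572701211], nat_lit 1271250, nat_lit 1271250, nat_lit 1271250, nat_lit 1271250, nat_lit 0, nat_lit 1412500, [nat_lit 230000, nat_lit 780000, nat_lit 1435000], [nat_lit 20, nat_lit 40, nat_lit 40, nat_lit 80, nat_lit 16, nat_lit 260, nat_lit 50, nat_lit 9]⟩, ⟨p127_k9, nat_lit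 0, nat_lit 0, nat_lit 529, nat_lit 0, nat_lit 755584, [nat_lit 1005840000, nat_lit 2320560000, nat_lit 4871790000], [], [nat_lit 16514910368, nat_lit 16907422726, nat_lit 19405076392, nat_lit 20100490458, nat_lit 15190537918, nat_lit 15460226571, nat_lit 16899350338, nat_lit 17067070948], nat_lit 1271250, nat_lit 1271250, nat_lit 1271250, nat_lit 1271250, nat_lit 0, nat_lit 1836250, [nat_lit 490000, nat_lit 1100000, nat_lit 2127500], [nat_lit 27, nat_lit 40, nat_lit 40, nat_lit 80, nat_lit 13, nat_lit 401, nat_lit 175, nat_lit 11]⟩,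
 ⟨nat_lit 0, nat_lit 3163, ⟨.ofNat (nat_lit 625100), .ofNat (nat_lit 937693), .ofNat (nat_lit 645949), .ofNat (nat_lit 959849), .ofNat (nat_lit 642170), .ofNat (nat_lit 899997), .ofNat (nat_lit 665865), .ofNat (nat_lit 924998)⟩, ⟨.ofNat (nat_lit 0), .ofNat (nat_lit 322753), .ofNat (nat_lit 0), .ofNat (nat_lit 367065), .ofNat (nat_lit 0), .ofNat (nat_lit 299993), .ofNat (nat_lit 0), .ofNat (nat_lit 349995)⟩⟩, [⟨nat_lit 4, nat_lit 100, nat_lit 46, nat_lit 75, nat_lit 223656408⟩, ⟨nat_lit 7, nat_lit 100, nat_lit 76, nat_lit 72, nat_lit 47520400⟩]⟩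
noncomputable def b_V_900_800_10_10 : St := ⟨true, nat_lit 1, nat_lit 2, nat_lit 0, nat_lit 80, nat_lit 360, nat_lit 400, nat_lit 320, nat_lit 340, nat_lit 200, nat_lit 400, nat_lit 40, nat_lit 80, nat_lit 0, nat_lit 200, nat_lit 0, nat_lit 260, nat_lit 80, nat_lit 120, nat_lit 0, nat_lit 0, nat_lit 0, nat_lit 0⟩
theorem d_V_900_800_10_10 (h : EB TB.env) : Dead b_V_900_800_10_10 := chkB_sound0 h (T :=
(.gv
(.st (nat_lit 1)
(.spl (nat_lit 0) (nat_lit 380)
(.leaf p127_l108)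
(.trZ (nat_lit 0) (nat_lit 82) (nat_lit 44) (nat_lit 100) (nat_lit 236) (.trX (nat_lit 13) (nat_lit 61) (nat_lit 47) (nat_lit 100) (nat_lit 392) (.trX (nat_lit 16) (nat_lit 44) (nat_lit 100) (nat_lit 82) (nat_lit 164) (.leaf p127_l109)))))
(.leaf p127_l110))
(.st (nat_lit 1)
(.spl (nat_lit 0) (nat_lit 380)
(.leaf p127_l111)
(.trZ (nat_lit 0) (nat_lit 82) (nat_lit 44) (nat_lit 100) (nat_lit 236) (.trX (nat_lit 13) (nat_lit 61) (nat_lit 47) (nat_lit 100) (nat_lit 392) (.trX (nat_lit 16) (nat_lit 44) (nat_lit 100) (nat_lit 82) (nat_lit 164) (.leaf p127_l112)))))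
(.leaf p127_l113)))) (by decide +kernel)
noncomputable def p127_l114 : Lf2 := ⟨nat_lit 0, nat_lit 20, [nat_lit 5, nat_lit 5, nat_lit 5, nat_lit 20], false, nat_lit 0, nat_lit 200, nat_lit 0, nat_lit 260, ⟨nat_lit 1000, nat_lit 0, nat_lit 0, nat_lit 0, nat_lit 0, nat_lit 0, nat_lit 0, nat_lit 0, nat_lit 0, nat_lit 0, nat_lit 0, nat_lit 0, nat_lit 0, nat_lit 0, nat_lit 0, nat_lit 0, false, false⟩,
 nat_lit 0, nat_lit 0, nat_lit 0, nat_lit 4085, nat_lit 5737, nat_lit 8567, nat_lit 0, nat_lit 0, nat_lit 0, nat_lit 0, nat_lit 0, nat_lit 0, nat_lit 0, nat_lit 0, nat_lit 0, nat_lit 0, nat_lit 0, nat_lit 0, [],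
 ⟨p127_k8, nat_lit 0, nat_lit 0, nat_lit 202, nat_lit 0, nat_lit 0, [nat_lit 938000000, nat_lit 3282000000, nat_lit 6250000000], [], [nat_lit 32321533260, nat_lit 35508635568, nat_lit 40946995252, nat_lit 42911371224, nat_lit 29929054428, nat_lit 32444363098, nat_lit 36728190710, nat_lit 38314254578], nat_lit 0, nat_lit 0, nat_lit 0, nat_lit 0, nat_lit 0, nat_lit 0, [], [nat_lit 20, nat_lit 40, nat_lit 40, nat_lit 80, nat_lit 16, nat_lit 260, nat_lit 50, nat_lit 9]⟩, ⟨p127_k9, nat_lit 0, nat_lit 0, nat_lit 212, nat_lit 0, nat_lit 0, [nat_lit 2032000000, nat_lit 4688000000, nat_lit 9842000000], [], [nat_lit 33726697176, nat_lit 35766992788, nat_lit 46178448800, nat_lit 47279235510, nat_lit 29455298437, nat_lit 30830467125, nat_lit 37645383886, nat_lit 38394428052], nat_lit 0, nat_lit 0, nat_lit 0, nat_lit 0, nat_lit 0, nat_lit 0, [], [nat_lit 27, nat_lit 40, nat_lit 40, nat_lit 80, nat_lit 13, nat_lit 401, nat_lit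 175, nat_lit 11]⟩,
 zbF0, [⟨nat_lit 0, nat_lit 79, nat_lit 45, nat_lit 100, nat_lit 118857069⟩, ⟨nat_lit 16, nat_lit 46, nat_lit 100, nat_lit 75, nat_lit 142018358⟩]⟩
noncomputable def p127_l115 : Lf2 := ⟨nat_lit 0, nat_lit 20, [nat_lit 5, nat_lit 5, nat_lit 5, nat_lit 20], false, nat_lit 0, nat_lit 200, nat_lit 0, nat_lit 260, ⟨nat_lit 1000, nat_lit 0, nat_lit 0, nat_lit 0, nat_lit 0, nat_lit 0, nat_lit 0, nat_lit 0, nat_lit 0, nat_lit 0, nat_lit 0, nat_lit 0, nat_lit 0, nat_lit 0, nat_lit 0, nat_lit 0, false, false⟩,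
 nat_lit 0, nat_lit 0, nat_lit 7500, nat_lit 0, nat_lit 5888, nat_lit 5625, nat_lit 0, nat_lit 0, nat_lit 0, nat_lit 631, nat_lit 0, nat_lit 0, nat_lit 0, nat_lit 0, nat_lit 0, nat_lit 0, nat_lit 0, nat_lit 0, [],
 ⟨p127_k8, nat_lit 0, nat_lit 0, nat_lit 194, nat_lit 0, nat_lit 0, [nat_lit 938000000, nat_lit 3282000000, nat_lit 6250000000], [], [nat_lit 32214622240, nat_lit 33833034336, nat_lit 40927757248, nat_lit 41921810512, nat_lit 29662999072, nat_lit 30938691112, nat_lit 36515557040, nat_lit 37316830856], nat_lit 0, nat_lit 0, nat_lit 0, nat_lit 0, nat_lit 0, nat_lit 0, [], [nat_lit 20, nat_lit 40, nat_lit 40, nat_lit 80, nat_lit 16, nat_lit 260, nat_lit 50, nat_lit 9]⟩, ⟨p127_k9, nat_lit 0, nat_lit 0, nat_lit 474, nat_lit 0, nat_lit 641926, [nat_lit 2032000000, nat_lit 4688000000, nat_lit 9842000000], [], [nat_lit 32543828750, nat_lit 33297375250, nat_lit 37747898875, nat_lit 38329218125, nat_lit 30710046750,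 nat_lit 31238498875, nat_lit 35308740875, nat_lit 35823968250], nat_lit 1271250, nat_lit 1271250, nat_lit 1271250, nat_lit 1271250, nat_lit 0, nat_lit 1836250, [nat_lit 490000, nat_lit 1100000, nat_lit 2127500], [nat_lit 27, nat_lit 40, nat_lit 40, nat_lit 80, nat_lit 13, nat_lit 401, nat_lit 175, nat_lit 11]⟩,
 zbF0, [⟨nat_lit 0, nat_lit 75, nat_lit 46, nat_lit 100, nat_lit 189221833⟩, ⟨nat_lit 4, nat_lit 100, nat_lit 54, nat_lit 73, nat_lit 212810873⟩, ⟨nat_lit 7, nat_lit 100, nat_lit 76, nat_lit 72, nat_lit 239908828⟩]⟩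
noncomputable def p127_l116 : Lf2 := ⟨nat_lit 0, nat_lit 20, [nat_lit 5, nat_lit 5, nat_lit 5, nat_lit 20], false, nat_lit 0, nat_lit 164, nat_lit 0, nat_lit 260, ⟨nat_lit 1000, nat_lit 0, nat_lit 0, nat_lit 0, nat_lit 0, nat_lit 0, nat_lit 0, nat_lit 0, nat_lit 0, nat_lit 0, nat_lit 0, nat_lit 0, nat_lit 0, nat_lit 0, nat_lit 0, nat_lit 0, false, false⟩,
 nat_lit 0, nat_lit 0, nat_lit 8415, nat_lit 0, nat_lit 3080, nat_lit 6311, nat_lit 501, nat_lit 0, nat_lit 0, nat_lit 468, nat_lit 0, nat_lit 0, nat_lit 0, nat_lit 0, nat_lit 0, nat_lit 0, nat_lit 0, nat_lit 0, [],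
 ⟨p127_k11, nat_lit 0, nat_lit 0, nat_lit 195, nat_lit 0, nat_lit 0, [nat_lit 938000000, nat_lit 3282000000, nat_lit 6250000000], [], [nat_lit 25051458747, nat_lit 25584720743, nat_lit 32542639889, nat_lit 33102961513, nat_lit 24630110143, nat_lit 25087659466, nat_lit 30175803340, nat_lit 30670211579], nat_lit 0, nat_lit 0, nat_lit 0, nat_lit 0, nat_lit 0, nat_lit 0, [], [nat_lit 20, nat_lit 40, nat_lit 40, nat_lit 80, nat_lit 16, nat_lit 260, nat_lit 50, nat_lit 9]⟩, ⟨p127_k9, nat_lit 0, nat_lit 0, nat_lit 506, nat_lit 0, nat_lit 749510, [nat_lit 2032000000, nat_lit 4688000000, nat_lit 9842000000], [], [nat_lit 34380619305, nat_lit 35114444705, nat_lit 38901325622, nat_lit 39564757353, nat_lit 31559926951, nat_lit 32064239206, nat_lit 34511517894, nat_lit 34860629937], nat_lit 1271250, nat_lit 1271250, nat_lit 1271250, nat_lit 1271250, nat_lit 0, nat_lit 1836250, [nat_lit 490000, nat_lit 1100000, nat_lit 2127500],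 [nat_lit 27, nat_lit 40, nat_lit 40, nat_lit 80, nat_lit 13, nat_lit 401, nat_lit 175, nat_lit 11]⟩,
 zbF0, [⟨nat_lit 0, nat_lit 80, nat_lit 35, nat_lit 100, nat_lit 189144244⟩, ⟨nat_lit 4, nat_lit 100, nat_lit 41, nat_lit 77, nat_lit 419086792⟩, ⟨nat_lit 7, nat_lit 100, nat_lit 76, nat_lit 72, nat_lit 146939100⟩]⟩
noncomputable def p127_l117 : Lf2 := ⟨nat_lit 0, nat_lit 20, [nat_lit 5, nat_lit 5, nat_lit 5, nat_lit 20], false, nat_lit 8, nat_lit 136, nat_lit 0, nat_lit 260, ⟨nat_lit 1000, nat_lit 0, nat_lit 0, nat_lit 0, nat_lit 0, nat_lit 0, nat_lit 0, nat_lit 0, nat_lit 0, nat_lit 0, nat_lit 0, nat_lit 0, nat_lit 0, nat_lit 0, nat_lit 0, nat_lit 0, false, false⟩,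
 nat_lit 0, nat_lit 0, nat_lit 8156, nat_lit 0, nat_lit 2738, nat_lit 6117, nat_lit 306, nat_lit 0, nat_lit 0, nat_lit 563, nat_lit 0, nat_lit 0, nat_lit 0, nat_lit 0, nat_lit 0, nat_lit 0, nat_lit 0, nat_lit 0, [],
 ⟨p127_k12, nat_lit 0, nat_lit 0, nat_lit 168, nat_lit 0, nat_lit 0, [nat_lit 938000000, nat_lit 3282000000, nat_lit 4688000000], [], [nat_lit 27044418011, nat_lit 27556589766, nat_lit 31305117088, nat_lit 31731085753, nat_lit 26948498383, nat_lit 27405457026, nat_lit 30840137028, nat_lit 31224371900], nat_lit 0, nat_lit 0, nat_lit 0, nat_lit 0, nat_lit 0, nat_lit 0, [], [nat_lit 35, nat_lit 40, nat_lit 40, nat_lit 80, nat_lit 22, nat_lit 249, nat_lit 40, nat_lit 10]⟩, ⟨p127_k9, nat_lit 0, nat_lit 0, nat_lit 575, nat_lit 0, nat_lit 861537, [nat_lit 2032000000, nat_lit 4688000000, nat_lit 9842000000], [], [nat_lit 34820866714, nat_lit 35394053394, nat_lit 37482924308, nat_lit 37900219935, nat_lit 31992468688,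 nat_lit 32383823976, nat_lit 34171033546, nat_lit 34638895011], nat_lit 1271250, nat_lit 1271250, nat_lit 1271250, nat_lit 1271250, nat_lit 0, nat_lit 1836250, [nat_lit 490000, nat_lit 1100000, nat_lit 2127500], [nat_lit 27, nat_lit 40, nat_lit 40, nat_lit 80, nat_lit 13, nat_lit 401, nat_lit 175, nat_lit 11]⟩,
 zbF0, [⟨nat_lit 0, nat_lit 86, nat_lit 25, nat_lit 100, nat_lit 462318765⟩, ⟨nat_lit 4, nat_lit 100, nat_lit 26, nat_lit 84, nat_lit 625873427⟩, ⟨nat_lit 7, nat_lit 100, nat_lit 76, nat_lit 72, nat_lit 197963605⟩]⟩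
noncomputable def p127_l118 : Lf2 := ⟨nat_lit 0, nat_lit 20, [nat_lit 5, nat_lit 5, nat_lit 5, nat_lit 20], false, nat_lit 0, nat_lit 200, nat_lit 0, nat_lit 260, ⟨nat_lit 1000, nat_lit 0, nat_lit 0, nat_lit 0, nat_lit 0, nat_lit 0, nat_lit 0, nat_lit 0, nat_lit 0, nat_lit 0, nat_lit 0, nat_lit 0, nat_lit 0, nat_lit 0, nat_lit 0, nat_lit 0, false, false⟩,
 nat_lit 0, nat_lit 0, nat_lit 0, nat_lit 4085, nat_lit 5737, nat_lit 8567, nat_lit 0, nat_lit 0, nat_lit 0, nat_lit 0, nat_lit 0, nat_lit 0, nat_lit 0, nat_lit 0, nat_lit 0, nat_lit 0, nat_lit 0, nat_lit 0, [],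
 ⟨p127_k8, nat_lit 0, nat_lit 0, nat_lit 202, nat_lit 0, nat_lit 0, [nat_lit 938000000, nat_lit 3282000000, nat_lit 6250000000], [], [nat_lit 32321533260, nat_lit 35508635568, nat_lit 40946995252, nat_lit 42911371224, nat_lit 29929054428, nat_lit 32444363098, nat_lit 36728190710, nat_lit 38314254578], nat_lit 0, nat_lit 0, nat_lit 0, nat_lit 0, nat_lit 0, nat_lit 0, [], [nat_lit 20, nat_lit 40, nat_lit 40, nat_lit 80, nat_lit 16, nat_lit 260, nat_lit 50, nat_lit 9]⟩, ⟨p127_k9, nat_lit 0, nat_lit 0, nat_lit 212, nat_lit 0, nat_lit 0, [nat_lit 2032000000, nat_lit 4688000000, nat_lit 9842000000], [], [nat_lit 33726697176, nat_lit 35766992788, nat_lit 46178448800, nat_lit 47279235510, nat_lit 29455298437, nat_lit 30830467125, nat_lit 37645383886, nat_lit 38394428052], nat_lit 0, nat_lit 0, nat_lit 0, nat_lit 0, nat_lit 0, nat_lit 0, [], [nat_lit 27, nat_lit 40, nat_lit 40, nat_lit 80, nat_lit 13, nat_lit 401, nat_lit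 175, nat_lit 11]⟩,
 zbF0, [⟨nat_lit 0, nat_lit 79, nat_lit 45, nat_lit 100, nat_lit 118857069⟩, ⟨nat_lit 16, nat_lit 46, nat_lit 100, nat_lit 75, nat_lit 142018358⟩]⟩
noncomputable def p127_l119 : Lf2 := ⟨nat_lit 0, nat_lit 20, [nat_lit 5, nat_lit 5, nat_lit 5, nat_lit 20], false, nat_lit 0, nat_lit 200, nat_lit 0, nat_lit 260, ⟨nat_lit 610, nat_lit 390, nat_lit 0, nat_lit 8, nat_lit 317, nat_lit 390, nat_lit 69, nat_lit 0, nat_lit 0, nat_lit 0, nat_lit 0, nat_lit 0, nat_lit 0, nat_lit 0, nat_lit 0, nat_lit 5000000, true, false⟩,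
 nat_lit 0, nat_lit 0, nat_lit 4689, nat_lit 0, nat_lit 4888, nat_lit 3516, nat_lit 0, nat_lit 0, nat_lit 0, nat_lit 346, nat_lit 0, nat_lit 0, nat_lit 0, nat_lit 0, nat_lit 0, nat_lit 97500, nat_lit 0, nat_lit 0, [(nat_lit 25, [(nat_lit 0, nat_lit 390)])],
 ⟨p127_k8, nat_lit 0, nat_lit 0, nat_lit 194, nat_lit 0, nat_lit 0, [nat_lit 870140001, nat_lit 2535852000, nat_lit 4638520000], [], [nat_lit 29699682240, nat_lit 31153452336, nat_lit 37832201248, nat_lit 38747676512, nat_lit 28201995072, nat_lit 29358232112, nat_lit 34700767040, nat_lit 35447458856], nat_lit 0, nat_lit 0, nat_lit 0, nat_lit 0, nat_lit 0, nat_lit 0, [], [nat_lit 20, nat_lit 40, nat_lit 40, nat_lit 80, nat_lit 16, nat_lit 260, nat_lit 50, nat_lit 9]⟩, ⟨p127_k9, nat_lit 0, nat_lit 0, nat_lit 474, nat_lit 0, nat_lit 641926, [nat_lit 1239520000, nat_lit 2859680000, nat_lit 6003620000], [], [nat_lit 20393404604, nat_lit 20857332928, nat_lit 23353361780,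 nat_lit 23634493812, nat_lit 19183701504, nat_lit 19507829338, nat_lit 21321176384, nat_lit 21569777920], nat_lit 1271250, nat_lit 1271250, nat_lit 1271250, nat_lit 1271250, nat_lit 0, nat_lit 1836250, [nat_lit 490000, nat_lit 1100000, nat_lit 2127500], [nat_lit 27, nat_lit 40, nat_lit 40, nat_lit 80, nat_lit 13, nat_lit 401, nat_lit 175, nat_lit 11]⟩,
 ⟨nat_lit 2236, nat_lit 3163, ⟨.ofNat (nat_lit 632548), .ofNat (nat_lit 937695), .ofNat (nat_lit 654639), .ofNat (nat_lit 959850), .ofNat (nat_lit 636264), .ofNat (nat_lit 921722), .ofNat (nat_lit 658975), .ofNat (nat_lit 944496)⟩, ⟨.ofNat (nat_lit 0), .ofNat (nat_lit 322759), .ofNat (nat_lit 0), .ofNat (nat_lit 367069), .ofNat (nat_lit 0), .ofNat (nat_lit 317804), .ofNat (nat_lit 0), .ofNat (nat_lit 363353)⟩⟩, [⟨nat_lit 4, nat_lit 100, nat_lit 54, nat_lit 73, nat_lit 98303582⟩, ⟨nat_lit 7, nat_lit 100, nat_lit 76, nat_lit 72, nat_lit 118028408⟩]⟩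
noncomputable def p127_l120 : Lf2 := ⟨nat_lit 0, nat_lit 20, [nat_lit 5, nat_lit 5, nat_lit 5, nat_lit 20], false, nat_lit 0, nat_lit 164, nat_lit 0, nat_lit 260, ⟨nat_lit 405, nat_lit 595, nat_lit 0, nat_lit 8, nat_lit 322, nat_lit 595, nat_lit 57, nat_lit 0, nat_lit 0, nat_lit 0, nat_lit 0, nat_lit 0, nat_lit 0, nat_lit 0, nat_lit 0, nat_lit 5000000, true, false⟩,
 nat_lit 0, nat_lit 0, nat_lit 3328, nat_lit 0, nat_lit 2342, nat_lit 2495, nat_lit 184, nat_lit 0, nat_lit 0, nat_lit 205, nat_lit 0, nat_lit 0, nat_lit 0, nat_lit 0, nat_lit 0, nat_lit 238000, nat_lit 0, nat_lit 0, [(nat_lit 28, [(nat_lit 1, nat_lit 595)])],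
 ⟨p127_k11, nat_lit 0, nat_lit 0, nat_lit 200, nat_lit 0, nat_lit 0, [nat_lit 794962001, nat_lit 1522466000, nat_lit 2613360000], [], [nat_lit 25479506112, nat_lit 26438464833, nat_lit 30545814479, nat_lit 31262564598, nat_lit 25815297937, nat_lit 26645729666, nat_lit 30382250737, nat_lit 31089916713], nat_lit 0, nat_lit 0, nat_lit 0, nat_lit 0, nat_lit 0, nat_lit 0, [], [nat_lit 20, nat_lit 40, nat_lit 40, nat_lit 80, nat_lit 16, nat_lit 260, nat_lit 50, nat_lit 9]⟩, ⟨p127_k9, nat_lit 0, nat_lit 0, nat_lit 578, nat_lit 0, nat_lit 861537, [nat_lit 822960000, nat_lit 1898640000, nat_lit 3986010000], [], [nat_lit 14322421835, nat_lit 14569596120, nat_lit 15714859678, nat_lit 15877198120, nat_lit 13233643913, nat_lit 13402739586, nat_lit 14140879951, nat_lit 14248206186], nat_lit 1271250, nat_lit 1271250, nat_lit 1271250, nat_lit 1271250, nat_lit 0, nat_lit 1836250, [nat_lit 490000, nat_lit 1100000, nat_lit 2127500],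 [nat_lit 27, nat_lit 40, nat_lit 40, nat_lit 80, nat_lit 13, nat_lit 401, nat_lit 175, nat_lit 11]⟩,
 ⟨nat_lit 0, nat_lit 2237, ⟨.ofNat (nat_lit 684059), .ofNat (nat_lit 910316), .ofNat (nat_lit 705906), .ofNat (nat_lit 933091), .ofNat (nat_lit 691099), .ofNat (nat_lit 889996), .ofNat (nat_lit 715172), .ofNat (nat_lit 914997)⟩, ⟨.ofNat (nat_lit 0), .ofNat (nat_lit 266484), .ofNat (nat_lit 0), .ofNat (nat_lit 312035), .ofNat (nat_lit 0), .ofNat (nat_lit 254993), .ofNat (nat_lit 0), .ofNat (nat_lit 304995)⟩⟩, [⟨nat_lit 13, nat_lit 41, nat_lit 68, nat_lit 100, nat_lit 196473911⟩, ⟨nat_lit 4, nat_lit 100, nat_lit 35, nat_lit 80, nat_lit 328949288⟩, ⟨nat_lit 7, nat_lit 100, nat_lit 76, nat_lit 72, nat_lit 68997646⟩]⟩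
noncomputable def p127_l121 : Lf2 := ⟨nat_lit 0, nat_lit 20, [nat_lit 5, nat_lit 5, nat_lit 5, nat_lit 20], false, nat_lit 0, nat_lit 200, nat_lit 0, nat_lit 260, ⟨nat_lit 1000, nat_lit 0, nat_lit 0, nat_lit 0, nat_lit 0, nat_lit 0, nat_lit 0, nat_lit 0, nat_lit 0, nat_lit 0, nat_lit 0, nat_lit 0, nat_lit 0, nat_lit 0, nat_lit 0, nat_lit 0, false, false⟩,
 nat_lit 0, nat_lit 5123, nat_lit 0, nat_lit 0, nat_lit 4461, nat_lit 8567, nat_lit 391, nat_lit 0, nat_lit 0, nat_lit 0, nat_lit 0, nat_lit 0, nat_lit 0, nat_lit 0, nat_lit 0, nat_lit 0, nat_lit 0, nat_lit 0, [],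
 ⟨p127_k8, nat_lit 0, nat_lit 0, nat_lit 404, nat_lit 0, nat_lit 652611, [nat_lit 938000000, nat_lit 3282000000, nat_lit 6250000000], [], [nat_lit 32016555629, nat_lit 33804120689, nat_lit 37263792134, nat_lit 38684368311, nat_lit 31222538401, nat_lit 32632124003, nat_lit 35550951149, nat_lit 36860811274], nat_lit 1271250, nat_lit 1271250, nat_lit 1271250, nat_lit 1271250, nat_lit 0, nat_lit 1412500, [nat_lit 230000, nat_lit 780000, nat_lit 1435000], [nat_lit 20, nat_lit 40, nat_lit 40, nat_lit 80, nat_lit 16, nat_lit 260, nat_lit 50, nat_lit 9]⟩, ⟨p127_k9, nat_lit 0, nat_lit 0, nat_lit 212, nat_lit 0, nat_lit 0, [nat_lit 2032000000, nat_lit 4688000000, nat_lit 9842000000], [], [nat_lit 33726697176, nat_lit 35766992788, nat_lit 46178448800, nat_lit 47279235510, nat_lit 29455298437, nat_lit 30830467125, nat_lit 37645383886, nat_lit 38394428052], nat_lit 0, nat_lit 0, nat_lit 0, nat_lit 0, nat_lit 0, nat_lit 0, [],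 [nat_lit 27, nat_lit 40, nat_lit 40, nat_lit 80, nat_lit 13, nat_lit 401, nat_lit 175, nat_lit 11]⟩,
 zbF0, [⟨nat_lit 0, nat_lit 79, nat_lit 45, nat_lit 100, nat_lit 209835077⟩, ⟨nat_lit 16, nat_lit 46, nat_lit 100, nat_lit 75, nat_lit 367927277⟩]⟩
noncomputable def p127_l122 : Lf2 := ⟨nat_lit 0, nat_lit 20, [nat_lit 5, nat_lit 5, nat_lit 5, nat_lit 20], false, nat_lit 0, nat_lit 200, nat_lit 0, nat_lit 260, ⟨nat_lit 1000, nat_lit 0, nat_lit 0, nat_lit 0, nat_lit 0, nat_lit 0, nat_lit 0, nat_lit 0, nat_lit 0, nat_lit 0, nat_lit 0, nat_lit 0, nat_lit 0, nat_lit 0, nat_lit 0, nat_lit 0, false, false⟩,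
 nat_lit 7977, nat_lit 0, nat_lit 0, nat_lit 0, nat_lit 5543, nat_lit 5982, nat_lit 118, nat_lit 0, nat_lit 0, nat_lit 502, nat_lit 0, nat_lit 0, nat_lit 0, nat_lit 0, nat_lit 0, nat_lit 0, nat_lit 0, nat_lit 0, [],
 ⟨p127_k8, nat_lit 0, nat_lit 0, nat_lit 317, nat_lit 0, nat_lit 394302, [nat_lit 938000000, nat_lit 3282000000, nat_lit 6250000000], [], [nat_lit 34073027410, nat_lit 36284770154, nat_lit 40284786806, nat_lit 42265746268, nat_lit 32156681714, nat_lit 33911889716, nat_lit 36882874292, nat_lit 38023250542], nat_lit 1271250, nat_lit 1271250, nat_lit 1271250, nat_lit 1271250, nat_lit 0, nat_lit 1412500, [nat_lit 230000, nat_lit 780000, nat_lit 1435000], [nat_lit 20, nat_lit 40, nat_lit 40, nat_lit 80, nat_lit 16, nat_lit 260, nat_lit 50, nat_lit 9]⟩, ⟨p127_k9, nat_lit 0, nat_lit 0, nat_lit 422, nat_lit 0, nat_lit 476923, [nat_lit 2032000000, nat_lit 4688000000, nat_lit 9842000000], [], [nat_lit 32798935076,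 nat_lit 33713157972, nat_lit 38733517076, nat_lit 39368318148, nat_lit 30579459914, nat_lit 31217358465, nat_lit 34808613848, nat_lit 35216996575], nat_lit 1271250, nat_lit 1271250, nat_lit 1271250, nat_lit 1271250, nat_lit 0, nat_lit 1836250, [nat_lit 490000, nat_lit 1100000, nat_lit 2127500], [nat_lit 27, nat_lit 40, nat_lit 40, nat_lit 80, nat_lit 13, nat_lit 401, nat_lit 175, nat_lit 11]⟩,
 zbF0, [⟨nat_lit 0, nat_lit 79, nat_lit 45, nat_lit 100, nat_lit 383955664⟩, ⟨nat_lit 16, nat_lit 46, nat_lit 100, nat_lit 75, nat_lit 280946502⟩, ⟨nat_lit 7, nat_lit 100, nat_lit 76, nat_lit 72, nat_lit 166290967⟩]⟩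
noncomputable def p127_l123 : Lf2 := ⟨nat_lit 0, nat_lit 20, [nat_lit 5, nat_lit 5, nat_lit 5, nat_lit 20], false, nat_lit 0, nat_lit 200, nat_lit 0, nat_lit 260, ⟨nat_lit 1000, nat_lit 0, nat_lit 0, nat_lit 0, nat_lit 0, nat_lit 0, nat_lit 0, nat_lit 0, nat_lit 0, nat_lit 0, nat_lit 0, nat_lit 0, nat_lit 0, nat_lit 0, nat_lit 0, nat_lit 0, false, false⟩,
 nat_lit 0, nat_lit 5123, nat_lit 0, nat_lit 0, nat_lit 4461, nat_lit 8567, nat_lit 391, nat_lit 0, nat_lit 0, nat_lit 0, nat_lit 0, nat_lit 0, nat_lit 0, nat_lit 0, nat_lit 0, nat_lit 0, nat_lit 0, nat_lit 0, [],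
 ⟨p127_k8, nat_lit 0, nat_lit 0, nat_lit 404, nat_lit 0, nat_lit 652611, [nat_lit 938000000, nat_lit 3282000000, nat_lit 6250000000], [], [nat_lit 32016555629, nat_lit 33804120689, nat_lit 37263792134, nat_lit 38684368311, nat_lit 31222538401, nat_lit 32632124003, nat_lit 35550951149, nat_lit 36860811274], nat_lit 1271250, nat_lit 1271250, nat_lit 1271250, nat_lit 1271250, nat_lit 0, nat_lit 1412500, [nat_lit 230000, nat_lit 780000, nat_lit 1435000], [nat_lit 20, nat_lit 40, nat_lit 40, nat_lit 80, nat_lit 16, nat_lit 260, nat_lit 50, nat_lit 9]⟩, ⟨p127_k9, nat_lit 0, nat_lit 0, nat_lit 212, nat_lit 0, nat_lit 0, [nat_lit 2032000000, nat_lit 4688000000, nat_lit 9842000000], [], [nat_lit 33726697176, nat_lit 35766992788, nat_lit 46178448800, nat_lit 47279235510, nat_lit 29455298437, nat_lit 30830467125, nat_lit 37645383886, nat_lit 38394428052], nat_lit 0, nat_lit 0, nat_lit 0, nat_lit 0, nat_lit 0, nat_lit 0, [],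 [nat_lit 27, nat_lit 40, nat_lit 40, nat_lit 80, nat_lit 13, nat_lit 401, nat_lit 175, nat_lit 11]⟩,
 zbF0, [⟨nat_lit 0, nat_lit 79, nat_lit 45, nat_lit 100, nat_lit 209835077⟩, ⟨nat_lit 16, nat_lit 46, nat_lit 100, nat_lit 75, nat_lit 367927277⟩]⟩
noncomputable def p127_l124 : Lf2 := ⟨nat_lit 0, nat_lit 20, [nat_lit 5, nat_lit 5, nat_lit 5, nat_lit 20], false, nat_lit 0, nat_lit 200, nat_lit 0, nat_lit 260, ⟨nat_lit 1000, nat_lit 0, nat_lit 0, nat_lit 0, nat_lit 0, nat_lit 0, nat_lit 0, nat_lit 0, nat_lit 0, nat_lit 0, nat_lit 0, nat_lit 0, nat_lit 0, nat_lit 0, nat_lit 0, nat_lit 0, false, false⟩,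
 nat_lit 7977, nat_lit 0, nat_lit 0, nat_lit 0, nat_lit 5543, nat_lit 5982, nat_lit 118, nat_lit 0, nat_lit 0, nat_lit 502, nat_lit 0, nat_lit 0, nat_lit 0, nat_lit 0, nat_lit 0, nat_lit 0, nat_lit 0, nat_lit 0, [],
 ⟨p127_k8, nat_lit 0, nat_lit 0, nat_lit 317, nat_lit 0, nat_lit 394302, [nat_lit 938000000, nat_lit 3282000000, nat_lit 6250000000], [], [nat_lit 34073027410, nat_lit 36284770154, nat_lit 40284786806, nat_lit 42265746268, nat_lit 32156681714, nat_lit 33911889716, nat_lit 36882874292, nat_lit 38023250542], nat_lit 1271250, nat_lit 1271250, nat_lit 1271250, nat_lit 1271250, nat_lit 0, nat_lit 1412500, [nat_lit 230000, nat_lit 780000, nat_lit 1435000], [nat_lit 20, nat_lit 40, nat_lit 40, nat_lit 80, nat_lit 16, nat_lit 260, nat_lit 50, nat_lit 9]⟩, ⟨p127_k9, nat_lit 0, nat_lit 0, nat_lit 422, nat_lit 0, nat_lit 476923, [nat_lit 2032000000, nat_lit 4688000000, nat_lit 9842000000], [], [nat_lit 32798935076,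 nat_lit 33713157972, nat_lit 38733517076, nat_lit 39368318148, nat_lit 30579459914, nat_lit 31217358465, nat_lit 34808613848, nat_lit 35216996575], nat_lit 1271250, nat_lit 1271250, nat_lit 1271250, nat_lit 1271250, nat_lit 0, nat_lit 1836250, [nat_lit 490000, nat_lit 1100000, nat_lit 2127500], [nat_lit 27, nat_lit 40, nat_lit 40, nat_lit 80, nat_lit 13, nat_lit 401, nat_lit 175, nat_lit 11]⟩,
 zbF0, [⟨nat_lit 0, nat_lit 79, nat_lit 45, nat_lit 100, nat_lit 383955664⟩, ⟨nat_lit 4, nat_lit 100, nat_lit 46, nat_lit 75, nat_lit 280946502⟩, ⟨nat_lit 7, nat_lit 100, nat_lit 76, nat_lit 72, nat_lit 166290967⟩]⟩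
noncomputable def p127_l125 : Lf2 := ⟨nat_lit 0, nat_lit 20, [nat_lit 5, nat_lit 5, nat_lit 5, nat_lit 20], false, nat_lit 0, nat_lit 200, nat_lit 0, nat_lit 260, ⟨nat_lit 1000, nat_lit 0, nat_lit 0, nat_lit 0, nat_lit 0, nat_lit 0, nat_lit 0, nat_lit 0, nat_lit 0, nat_lit 0, nat_lit 0, nat_lit 0, nat_lit 0, nat_lit 0, nat_lit 0, nat_lit 0, false, false⟩,
 nat_lit 0, nat_lit 0, nat_lit 8190, nat_lit 0, nat_lit 5737, nat_lit 6142, nat_lit 0, nat_lit 0, nat_lit 0, nat_lit 476, nat_lit 0, nat_lit 0, nat_lit 0, nat_lit 0, nat_lit 0, nat_lit 0, nat_lit 0, nat_lit 0, [],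
 ⟨p127_k8, nat_lit 0, nat_lit 0, nat_lit 202, nat_lit 0, nat_lit 0, [nat_lit 938000000, nat_lit 3282000000, nat_lit 6250000000], [], [nat_lit 32321533260, nat_lit 35508635568, nat_lit 40946995252, nat_lit 42911371224, nat_lit 29929054428, nat_lit 32444363098, nat_lit 36728190710, nat_lit 38314254578], nat_lit 0, nat_lit 0, nat_lit 0, nat_lit 0, nat_lit 0, nat_lit 0, [], [nat_lit 20, nat_lit 40, nat_lit 40, nat_lit 80, nat_lit 16, nat_lit 260, nat_lit 50, nat_lit 9]⟩, ⟨p127_k9, nat_lit 0, nat_lit 0, nat_lit 413, nat_lit 0, nat_lit 462814, [nat_lit 2032000000, nat_lit 4688000000, nat_lit 9842000000], [], [nat_lit 33029087456, nat_lit 33954146832, nat_lit 39186869456, nat_lit 39831153408, nat_lit 30631693734, nat_lit 31274584114, nat_lit 34513999626, nat_lit 34893441325], nat_lit 1271250, nat_lit 1271250, nat_lit 1271250, nat_lit 1271250, nat_lit 0, nat_lit 1836250, [nat_lit 490000, nat_lit 1100000, nat_lit 2127500],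 [nat_lit 27, nat_lit 40, nat_lit 40, nat_lit 80, nat_lit 13, nat_lit 401, nat_lit 175, nat_lit 11]⟩,
 zbF0, [⟨nat_lit 0, nat_lit 79, nat_lit 45, nat_lit 100, nat_lit 310391280⟩, ⟨nat_lit 4, nat_lit 100, nat_lit 46, nat_lit 75, nat_lit 230786717⟩, ⟨nat_lit 7, nat_lit 100, nat_lit 76, nat_lit 72, nat_lit 138761974⟩]⟩
noncomputable def p127_l126 : Lf2 := ⟨nat_lit 0, nat_lit 20, [nat_lit 5, nat_lit 5, nat_lit 5, nat_lit 20], false, nat_lit 0, nat_lit 200, nat_lit 0, nat_lit 260, ⟨nat_lit 1000, nat_lit 0, nat_lit 0, nat_lit 0, nat_lit 0, nat_lit 0, nat_lit 0, nat_lit 0, nat_lit 0, nat_lit 0, nat_lit 0, nat_lit 0, nat_lit 0, nat_lit 0, nat_lit 0, nat_lit 0, false, false⟩,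
 nat_lit 0, nat_lit 5248, nat_lit 0, nat_lit 0, nat_lit 4570, nat_lit 8567, nat_lit 289, nat_lit 0, nat_lit 0, nat_lit 0, nat_lit 0, nat_lit 0, nat_lit 0, nat_lit 0, nat_lit 0, nat_lit 0, nat_lit 0, nat_lit 0, [],
 ⟨p127_k8, nat_lit 0, nat_lit 0, nat_lit 306, nat_lit 0, nat_lit 351100, [nat_lit 938000000, nat_lit 3282000000, nat_lit 6250000000], [], [nat_lit 31168836415, nat_lit 33408690215, nat_lit 37573495815, nat_lit 39040177320, nat_lit 30262108270, nat_lit 32066179690, nat_lit 35481557310, nat_lit 36688330910], nat_lit 1271250, nat_lit 1271250, nat_lit 1271250, nat_lit 1271250, nat_lit 0, nat_lit 1412500, [nat_lit 230000, nat_lit 780000, nat_lit 1435000], [nat_lit 20, nat_lit 40, nat_lit 40, nat_lit 80, nat_lit 16, nat_lit 260, nat_lit 50, nat_lit 9]⟩, ⟨p127_k9, nat_lit 0, nat_lit 0, nat_lit 212, nat_lit 0, nat_lit 0, [nat_lit 2032000000, nat_lit 4688000000, nat_lit 9842000000], [], [nat_lit 33726697176, nat_lit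 35766992788, nat_lit 46178448800, nat_lit 47279235510, nat_lit 29455298437, nat_lit 30830467125, nat_lit 37645383886, nat_lit 38394428052], nat_lit 0, nat_lit 0, nat_lit 0, nat_lit 0, nat_lit 0, nat_lit 0, [], [nat_lit 27, nat_lit 40, nat_lit 40, nat_lit 80, nat_lit 13, nat_lit 401, nat_lit 175, nat_lit 11]⟩,
 zbF0, [⟨nat_lit 0, nat_lit 79, nat_lit 45, nat_lit 100, nat_lit 157629477⟩, ⟨nat_lit 16, nat_lit 46, nat_lit 100, nat_lit 75, nat_lit 355208339⟩]⟩
noncomputable def p127_l127 : Lf2 := ⟨nat_lit 0, nat_lit 20, [nat_lit 5, nat_lit 5, nat_lit 5, nat_lit 20], false, nat_lit 0, nat_lit 200, nat_lit 0, nat_lit 260, ⟨nat_lit 1000, nat_lit 0, nat_lit 0, nat_lit 0, nat_lit 0, nat_lit 0, nat_lit 0, nat_lit 0, nat_lit 0, nat_lit 0, nat_lit 0, nat_lit 0, nat_lit 0, nat_lit 0, nat_lit 0, nat_lit 0, false, false⟩,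
 nat_lit 9191, nat_lit 0, nat_lit 0, nat_lit 0, nat_lit 5737, nat_lit 6893, nat_lit 0, nat_lit 0, nat_lit 0, nat_lit 352, nat_lit 0, nat_lit 0, nat_lit 0, nat_lit 0, nat_lit 0, nat_lit 0, nat_lit 0, nat_lit 0, [],
 ⟨p127_k8, nat_lit 0, nat_lit 0, nat_lit 253, nat_lit 0, nat_lit 217123, [nat_lit 938000000, nat_lit 3282000000, nat_lit 6250000000], [], [nat_lit 32321533260, nat_lit 35508635568, nat_lit 40946995252, nat_lit 42911371224, nat_lit 30290982904, nat_lit 32539025790, nat_lit 36728190710, nat_lit 38314254578], nat_lit 1271250, nat_lit 1271250, nat_lit 1271250, nat_lit 1271250, nat_lit 0, nat_lit 1412500, [nat_lit 230000, nat_lit 780000, nat_lit 1435000], [nat_lit 20, nat_lit 40, nat_lit 40, nat_lit 80, nat_lit 16, nat_lit 260, nat_lit 50, nat_lit 9]⟩, ⟨p127_k9, nat_lit 0, nat_lit 0, nat_lit 325, nat_lit 0, nat_lit 263325, [nat_lit 2032000000, nat_lit 4688000000, nat_lit 9842000000], [], [nat_lit 34209170448,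 nat_lit 35367930292, nat_lit 41354029924, nat_lit 42021087432, nat_lit 30916103961, nat_lit 31583694731, nat_lit 35493603605, nat_lit 35943631826], nat_lit 1271250, nat_lit 1271250, nat_lit 1271250, nat_lit 1271250, nat_lit 0, nat_lit 1836250, [nat_lit 490000, nat_lit 1100000, nat_lit 2127500], [nat_lit 27, nat_lit 40, nat_lit 40, nat_lit 80, nat_lit 13, nat_lit 401, nat_lit 175, nat_lit 11]⟩,
 zbF0, [⟨nat_lit 0, nat_lit 79, nat_lit 45, nat_lit 100, nat_lit 258030056⟩, ⟨nat_lit 16, nat_lit 46, nat_lit 100, nat_lit 75, nat_lit 237598560⟩, ⟨nat_lit 7, nat_lit 100, nat_lit 76, nat_lit 72, nat_lit 98901050⟩]⟩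
noncomputable def p127_l128 : Lf2 := ⟨nat_lit 0, nat_lit 20, [nat_lit 5, nat_lit 5, nat_lit 5, nat_lit 20], false, nat_lit 0, nat_lit 200, nat_lit 0, nat_lit 260, ⟨nat_lit 1000, nat_lit 0, nat_lit 0, nat_lit 0, nat_lit 0, nat_lit 0, nat_lit 0, nat_lit 0, nat_lit 0, nat_lit 0, nat_lit 0, nat_lit 0, nat_lit 0, nat_lit 0, nat_lit 0, nat_lit 0, false, false⟩,
 nat_lit 0, nat_lit 5248, nat_lit 0, nat_lit 0, nat_lit 4570, nat_lit 8567, nat_lit 289, nat_lit 0, nat_lit 0, nat_lit 0, nat_lit 0, nat_lit 0, nat_lit 0, nat_lit 0, nat_lit 0, nat_lit 0, nat_lit 0, nat_lit 0, [],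
 ⟨p127_k8, nat_lit 0, nat_lit 0, nat_lit 306, nat_lit 0, nat_lit 351100, [nat_lit 938000000, nat_lit 3282000000, nat_lit 6250000000], [], [nat_lit 31168836415, nat_lit 33408690215, nat_lit 37573495815, nat_lit 39040177320, nat_lit 30262108270, nat_lit 32066179690, nat_lit 35481557310, nat_lit 36688330910], nat_lit 1271250, nat_lit 1271250, nat_lit 1271250, nat_lit 1271250, nat_lit 0, nat_lit 1412500, [nat_lit 230000, nat_lit 780000, nat_lit 1435000], [nat_lit 20, nat_lit 40, nat_lit 40, nat_lit 80, nat_lit 16, nat_lit 260, nat_lit 50, nat_lit 9]⟩, ⟨p127_k9, nat_lit 0, nat_lit 0, nat_lit 212, nat_lit 0, nat_lit 0, [nat_lit 2032000000, nat_lit 4688000000, nat_lit 9842000000], [], [nat_lit 33726697176, nat_lit 35766992788, nat_lit 46178448800, nat_lit 47279235510, nat_lit 29455298437, nat_lit 30830467125, nat_lit 37645383886, nat_lit 38394428052], nat_lit 0, nat_lit 0, nat_lit 0, nat_lit 0, nat_lit 0, nat_lit 0, [],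 [nat_lit 27, nat_lit 40, nat_lit 40, nat_lit 80, nat_lit 13, nat_lit 401, nat_lit 175, nat_lit 11]⟩,
 zbF0, [⟨nat_lit 0, nat_lit 79, nat_lit 45, nat_lit 100, nat_lit 157629477⟩, ⟨nat_lit 4, nat_lit 100, nat_lit 46, nat_lit 75, nat_lit 355208339⟩]⟩
noncomputable def p127_l129 : Lf2 := ⟨nat_lit 0, nat_lit 20, [nat_lit 5, nat_lit 5, nat_lit 5, nat_lit 20], false, nat_lit 0, nat_lit 200, nat_lit 0, nat_lit 260, ⟨nat_lit 1000, nat_lit 0, nat_lit 0, nat_lit 0, nat_lit 0, nat_lit 0, nat_lit 0, nat_lit 0, nat_lit 0, nat_lit 0, nat_lit 0, nat_lit 0, nat_lit 0, nat_lit 0, nat_lit 0, nat_lit 0, false, false⟩,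
 nat_lit 9191, nat_lit 0, nat_lit 0, nat_lit 0, nat_lit 5737, nat_lit 6893, nat_lit 0, nat_lit 0, nat_lit 0, nat_lit 352, nat_lit 0, nat_lit 0, nat_lit 0, nat_lit 0, nat_lit 0, nat_lit 0, nat_lit 0, nat_lit 0, [],
 ⟨p127_k8, nat_lit 0, nat_lit 0, nat_lit 253, nat_lit 0, nat_lit 217123, [nat_lit 938000000, nat_lit 3282000000, nat_lit 6250000000], [], [nat_lit 32321533260, nat_lit 35508635568, nat_lit 40946995252, nat_lit 42911371224, nat_lit 30290982904, nat_lit 32539025790, nat_lit 36728190710, nat_lit 38314254578], nat_lit 1271250, nat_lit 1271250, nat_lit 1271250, nat_lit 1271250, nat_lit 0, nat_lit 1412500, [nat_lit 230000, nat_lit 780000, nat_lit 1435000], [nat_lit 20, nat_lit 40, nat_lit 40, nat_lit 80, nat_lit 16, nat_lit 260, nat_lit 50, nat_lit 9]⟩, ⟨p127_k9, nat_lit 0, nat_lit 0, nat_lit 325, nat_lit 0, nat_lit 263325, [nat_lit 2032000000, nat_lit 4688000000, nat_lit 9842000000], [], [nat_lit 34209170448,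 nat_lit 35367930292, nat_lit 41354029924, nat_lit 42021087432, nat_lit 30916103961, nat_lit 31583694731, nat_lit 35493603605, nat_lit 35943631826], nat_lit 1271250, nat_lit 1271250, nat_lit 1271250, nat_lit 1271250, nat_lit 0, nat_lit 1836250, [nat_lit 490000, nat_lit 1100000, nat_lit 2127500], [nat_lit 27, nat_lit 40, nat_lit 40, nat_lit 80, nat_lit 13, nat_lit 401, nat_lit 175, nat_lit 11]⟩,
 zbF0, [⟨nat_lit 0, nat_lit 79, nat_lit 45, nat_lit 100, nat_lit 258030056⟩, ⟨nat_lit 4, nat_lit 100, nat_lit 46, nat_lit 75, nat_lit 237598560⟩, ⟨nat_lit 7, nat_lit 100, nat_lit 76, nat_lit 72, nat_lit 98901050⟩]⟩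
noncomputable def b_V_900_800_10_11 : St := ⟨true, nat_lit 2, nat_lit 2, nat_lit 0, nat_lit 80, nat_lit 360, nat_lit 400, nat_lit 320, nat_lit 340, nat_lit 200, nat_lit 400, nat_lit 40, nat_lit 80, nat_lit 0, nat_lit 200, nat_lit 0, nat_lit 260, nat_lit 120, nat_lit 192, nat_lit 0, nat_lit 0, nat_lit 0, nat_lit 0⟩
theorem d_V_900_800_10_11 (h : EB TB.env) : Dead b_V_900_800_10_11 := chkB_sound0 h (T :=
(.spl (nat_lit 6) (nat_lit 160)
(.st (nat_lit 0)
(.gv
(.st (nat_lit 1)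
(.leaf p127_l114)
(.spl (nat_lit 0) (nat_lit 380)
(.leaf p127_l115)
(.trZ (nat_lit 0) (nat_lit 82) (nat_lit 44) (nat_lit 100) (nat_lit 236) (.trX (nat_lit 13) (nat_lit 61) (nat_lit 47) (nat_lit 100) (nat_lit 392) (.trX (nat_lit 16) (nat_lit 44) (nat_lit 100) (nat_lit 82) (nat_lit 164) (.spl (nat_lit 0) (nat_lit 390)
(.leaf p127_l116)
(.trZ (nat_lit 0) (nat_lit 84) (nat_lit 33) (nat_lit 100) (nat_lit 264) (.trX (nat_lit 13) (nat_lit 44) (nat_lit 64) (nat_lit 100) (nat_lit 380) (.trZ (nat_lit 3) (nat_lit 100) (nat_lit 52) (nat_lit 53) (nat_lit 8) (.trX (nat_lit 16) (nat_lit 33) (nat_lit 100) (nat_lit 84) (nat_lit 136) (.leaf p127_l117)))))))))))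
(.st (nat_lit 1)
(.leaf p127_l118)
(.spl (nat_lit 0) (nat_lit 380)
(.leaf p127_l119)
(.trZ (nat_lit 0) (nat_lit 82) (nat_lit 44) (nat_lit 100) (nat_lit 236) (.trX (nat_lit 13) (nat_lit 61) (nat_lit 47) (nat_lit 100) (nat_lit 392) (.trX (nat_lit 16) (nat_lit 44) (nat_lit 100) (nat_lit 82) (nat_lit 164) (.leaf p127_l120)))))))
(.gv
(.st (nat_lit 1)
(.leaf p127_l121)
(.leaf p127_l122))
(.st (nat_lit 1)
(.leaf p127_l123)
(.leaf p127_l124))))
(.st (nat_lit 0)
(.leaf p127_l125)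
(.gv
(.st (nat_lit 1)
(.leaf p127_l126)
(.leaf p127_l127))
(.st (nat_lit 1)
(.leaf p127_l128)
(.leaf p127_l129)))))) (by decide +kernel)

end B2
end Pool.Agent.Lib.MP_6947cd_al
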