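import Pool.Agent.Lib.MP_6947cd_al.ZB.Pre

/-!
Problem MP_6947cd_al (Chollet).  Case B, second entry in [2/5, 17/20]: certificates of the tree, part P128 (generated).
-/

set_option autoImplicit false
set_option linter.all false

namespace Pool.Agent.Lib.MP_6947cd_al
namespace B2

open Ent Fr B1 PkA

noncomputable def p128_k0 : C1.Kn := ⟨[nat_lit 20, nat_lit 60, nat_lit 80], [nat_lit 0, nat_lit 0, nat_lit 1613], [(nat_lit 0, nat_lit 0, nat_lit 0), (nat_lit 0, nat_lit 0, nat_lit 0), (nat_lit 1000, nat_lit 614, nat_lit 668)], (nat_lit 63, nat_lit 100, nat_lit 62)⟩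
noncomputable def p128_k1 : C1.Kn := ⟨[nat_lit 40, nat_lit 80, nat_lit 100], [nat_lit 0, nat_lit 0, nat_lit 1280], [(nat_lit 0, nat_lit 0, nat_lit 0), (nat_lit 0, nat_lit 0, nat_lit 0), (nat_lit 1000, nat_lit 800, nat_lit 600)], (nat_lit 80, nat_lit 100, nat_lit 60)⟩
noncomputable def p128_k2 : C1.Kn := ⟨[nat_lit 20, nat_lit 60, nat_lit 80], [nat_lit 0, nat_lit 698, nat_lit 2008], [(nat_lit 0, nat_lit 0, nat_lit 0), (nat_lit 1000, nat_lit 782, nat_lit 272), (nat_lit 1000, nat_lit 540, nat_lit 733)], (nat_lit 57, nat_lit 100, nat_lit 64)⟩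
noncomputable def p128_k3 : C1.Kn := ⟨[nat_lit 20, nat_lit 60, nat_lit 80], [nat_lit 0, nat_lit 339, nat_lit 1800], [(nat_lit 0, nat_lit 0, nat_lit 0), (nat_lit 1000, nat_lit 894, nat_lit 132), (nat_lit 1000, nat_lit 578, nat_lit 704)], (nat_lit 60, nat_lit 100, nat_lit 63)⟩
noncomputable def p128_k4 : C1.Kn := ⟨[nat_lit 40, nat_lit 80, nat_lit 100], [nat_lit 0, nat_lit 395, nat_lit 1536], [(nat_lit 0, nat_lit 0, nat_lit 0), (nat_lit 1000, nat_lit 908, nat_lit 154), (nat_lit 1000, nat_lit 760, nat_lit 642)], (nat_lit 76, nat_lit 100, nat_lit 60)⟩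
noncomputable def p128_k5 : C1.Kn := ⟨[nat_lit 20, nat_lit 60], [nat_lit 0, nat_lit 1415], [(nat_lit 0, nat_lit 0, nat_lit 0), (nat_lit 1000, nat_lit 558, nat_lit 551)], (nat_lit 49, nat_lit 100, nat_lit 68)⟩
noncomputable def p128_k6 : C1.Kn := ⟨[nat_lit 40, nat_lit 80, nat_lit 100], [nat_lit 0, nat_lit 192, nat_lit 1404], [(nat_lit 0, nat_lit 0, nat_lit 0), (nat_lit 1000, nat_lit 955, nat_lit 75), (nat_lit 1000, nat_lit 781, nat_lit 625)], (nat_lit 78, nat_lit 100, nat_lit 60)⟩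
noncomputable def p128_k7 : C1.Kn := ⟨[nat_lit 20, nat_lit 60], [nat_lit 0, nat_lit 2136], [(nat_lit 0, nat_lit 0, nat_lit 0), (nat_lit 1000, nat_lit 343, nat_lit 808)], (nat_lit 38, nat_lit 100, nat_lit 73)⟩
noncomputable def p128_k8 : C1.Kn := ⟨[nat_lit 20, nat_lit 60], [nat_lit 0, nat_lit 0], [(nat_lit 0, nat_lit 0, nat_lit 0), (nat_lit 0, nat_lit 0, nat_lit 0)], (nat_lit 68, nat_lit 100, nat_lit 49)⟩
noncomputable def p128_k9 : C1.Kn := ⟨[nat_lit 40, nat_lit 80, nat_lit 100], [nat_lit 0, nat_lit 0, nat_lit 1280], [(nat_lit 0, nat_lit 0, nat_lit 0), (nat_lit 0, nat_lit 0, nat_lit 0), (nat_lit 1000, nat_lit 800, nat_lit 600)], (nat_lit 82, nat_lit 100, nat_lit 44)⟩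
noncomputable def p128_k10 : C1.Kn := ⟨[nat_lit 20, nat_lit 40, nat_lit 80], [nat_lit 0, nat_lit 0, nat_lit 1598], [(nat_lit 0, nat_lit 0, nat_lit 0), (nat_lit 0, nat_lit 0, nat_lit 0), (nat_lit 1000, nat_lit 625, nat_lit 623)], (nat_lit 63, nat_lit 100, nat_lit 62)⟩
noncomputable def p128_k11 : C1.Kn := ⟨[nat_lit 40, nat_lit 60, nat_lit 100], [nat_lit 0, nat_lit 0, nat_lit 1216], [(nat_lit 0, nat_lit 0, nat_lit 0), (nat_lit 0, nat_lit 0, nat_lit 0), (nat_lit 1000, nat_lit 810, nat_lit 474)], (nat_lit 80, nat_lit 100, nat_lit 60)⟩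
noncomputable def p128_k12 : C1.Kn := ⟨[nat_lit 20, nat_lit 40, nat_lit 80], [nat_lit 0, nat_lit 350, nat_lit 1914], [(nat_lit 0, nat_lit 0, nat_lit 0), (nat_lit 1000, nat_lit 782, nat_lit 272), (nat_lit 1000, nat_lit 579, nat_lit 610)], (nat_lit 57, nat_lit 100, nat_lit 64)⟩
noncomputable def p128_k13 : C1.Kn := ⟨[nat_lit 20, nat_lit 80], [nat_lit 0, nat_lit 0], [(nat_lit 0, nat_lit 0, nat_lit 0), (nat_lit 0, nat_lit 0, nat_lit 0)], (nat_lit 63, nat_lit 100, nat_lit 62)⟩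
noncomputable def p128_k14 : C1.Kn := ⟨[nat_lit 40, nat_lit 100], [nat_lit 0, nat_lit 0], [(nat_lit 0, nat_lit 0, nat_lit 0), (nat_lit 0, nat_lit 0, nat_lit 0)], (nat_lit 80, nat_lit 100, nat_lit 60)⟩
noncomputable def p128_k15 : C1.Kn := ⟨[nat_lit 20, nat_lit 60, nat_lit 100], [nat_lit 0, nat_lit 0, nat_lit 2559], [(nat_lit 0, nat_lit 0, nat_lit 0), (nat_lit 0, nat_lit 0, nat_lit 0), (nat_lit 1000, nat_lit 600, nat_lit 787)], (nat_lit 60, nat_lit 100, nat_lit 80)⟩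
noncomputable def p128_k16 : C1.Kn := ⟨[nat_lit 40, nat_lit 80, nat_lit 140], [nat_lit 0, nat_lit 0, nat_lit 3199], [(nat_lit 0, nat_lit 0, nat_lit 0), (nat_lit 0, nat_lit 0, nat_lit 0), (nat_lit 1000, nat_lit 833, nat_lit 833)], (nat_lit 83, nat_lit 100, nat_lit 83)⟩
noncomputable def p128_k17 : C1.Kn := ⟨[nat_lit 20, nat_lit 60, nat_lit 100], [nat_lit 0, nat_lit 698, nat_lit 3028], [(nat_lit 0, nat_lit 0, nat_lit 0), (nat_lit 1000, nat_lit 782, nat_lit 272), (nat_lit 1000, nat_lit 527, nat_lit 841)], (nat_lit 53, nat_lit 100, nat_lit 80)⟩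
noncomputable def p128_k18 : C1.Kn := ⟨[nat_lit 40, nat_lit 80, nat_lit 140], [nat_lit 0, nat_lit 395, nat_lit 3500], [(nat_lit 0, nat_lit 0, nat_lit 0), (nat_lit 1000, nat_lit 908, nat_lit 154), (nat_lit 1000, nat_lit 776, nat_lit 808)], (nat_lit 78, nat_lit 100, nat_lit 82)⟩
noncomputable def p128_k19 : C1.Kn := ⟨[nat_lit 20, nat_lit 60, nat_lit 100], [nat_lit 0, nat_lit 339, nat_lit 2783], [(nat_lit 0, nat_lit 0, nat_lit 0), (nat_lit 1000, nat_lit 894, nat_lit 132), (nat_lit 1000, nat_lit 565, nat_lit 820)], (nat_lit 57, nat_lit 100, nat_lit 80)⟩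
noncomputable def p128_k20 : C1.Kn := ⟨[nat_lit 20, nat_lit 60, nat_lit 100], [nat_lit 0, nat_lit 1415, nat_lit 3591], [(nat_lit 0, nat_lit 0, nat_lit 0), (nat_lit 1000, nat_lit 558, nat_lit 551), (nat_lit 1000, nat_lit 439, nat_lit 849)], (nat_lit 44, nat_lit 100, nat_lit 82)⟩
noncomputable def p128_k21 : C1.Kn := ⟨[nat_lit 20, nat_lit 60, nat_lit 80], [nat_lit 0, nat_lit 1776, nat_lit 2828], [(nat_lit 0, nat_lit 0, nat_lit 0), (nat_lit 1000, nat_lit 445, nat_lit 693), (nat_lit 1000, nat_lit 394, nat_lit 822)], (nat_lit 39, nat_lit 100, nat_lit 83)⟩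
noncomputable def p128_k22 : C1.Kn := ⟨[nat_lit 20, nat_lit 60, nat_lit 80], [nat_lit 0, nat_lit 2136, nat_lit 3185], [(nat_lit 0, nat_lit 0, nat_lit 0), (nat_lit 1000, nat_lit 343, nat_lit 808), (nat_lit 1000, nat_lit 338, nat_lit 820)], (nat_lit 33, nat_lit 100, nat_lit 84)⟩
noncomputable def p128_k23 : C1.Kn := ⟨[nat_lit 40, nat_lit 80, nat_lit 140], [nat_lit 0, nat_lit 192, nat_lit 3351], [(nat_lit 0, nat_lit 0, nat_lit 0), (nat_lit 1000, nat_lit 955, nat_lit 75), (nat_lit 1000, nat_lit 805, nat_lit 822)], (nat_lit 81, nat_lit 100, nat_lit 83)⟩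
noncomputable def p128_k24 : C1.Kn := ⟨[nat_lit 20, nat_lit 60, nat_lit 80], [nat_lit 0, nat_lit 1415, nat_lit 2514], [(nat_lit 0, nat_lit 0, nat_lit 0), (nat_lit 1000, nat_lit 558, nat_lit 551), (nat_lit 1000, nat_lit 446, nat_lit 804)], (nat_lit 46, nat_lit 100, nat_lit 75)⟩
noncomputable def p128_k25 : C1.Kn := ⟨[nat_lit 40, nat_lit 80, nat_lit 120], [nat_lit 0, nat_lit 0, nat_lit 2151], [(nat_lit 0, nat_lit 0, nat_lit 0), (nat_lit 0, nat_lit 0, nat_lit 0), (nat_lit 1000, nat_lit 815, nat_lit 753)], (nat_lit 81, nat_lit 100, nat_lit 72)⟩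
noncomputable def p128_k26 : C1.Kn := ⟨[nat_lit 20, nat_lit 60], [nat_lit 0, nat_lit 2136], [(nat_lit 0, nat_lit 0, nat_lit 0), (nat_lit 1000, nat_lit 343, nat_lit 808)], (nat_lit 35, nat_lit 100, nat_lit 80)⟩
noncomputable def p128_k27 : C1.Kn := ⟨[nat_lit 20, nat_lit 100], [nat_lit 0, nat_lit 0], [(nat_lit 0, nat_lit 0, nat_lit 0), (nat_lit 0, nat_lit 0, nat_lit 0)], (nat_lit 60, nat_lit 100, nat_lit 80)⟩
noncomputable def p128_k28 : C1.Kn := ⟨[nat_lit 40, nat_lit 140], [nat_lit 0, nat_lit 0], [(nat_lit 0, nat_lit 0, nat_lit 0), (nat_lit 0, nat_lit 0, nat_lit 0)], (nat_lit 83, nat_lit 100, nat_lit 83)⟩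
noncomputable def p128_k29 : C1.Kn := ⟨[nat_lit 20, nat_lit 100], [nat_lit 0, nat_lit 1394], [(nat_lit 0, nat_lit 0, nat_lit 0), (nat_lit 1000, nat_lit 782, nat_lit 272)], (nat_lit 53, nat_lit 100, nat_lit 80)⟩
noncomputable def p128_k30 : C1.Kn := ⟨[nat_lit 20, nat_lit 100], [nat_lit 0, nat_lit 2826], [(nat_lit 0, nat_lit 0, nat_lit 0), (nat_lit 1000, nat_lit 558, nat_lit 551)], (nat_lit 44, nat_lit 100, nat_lit 82)⟩
noncomputable def p128_k31 : C1.Kn := ⟨[nat_lit 20, nat_lit 80, nat_lit 140], [nat_lit 0, nat_lit 0, nat_lit 4928], [(nat_lit 0, nat_lit 0, nat_lit 0), (nat_lit 0, nat_lit 0, nat_lit 0), (nat_lit 950, nat_lit 618, nat_lit 1000)], (nat_lit 62, nat_lit 100, nat_lit 94)⟩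
noncomputable def p128_k32 : C1.Kn := ⟨[nat_lit 40, nat_lit 100, nat_lit 160], [nat_lit 0, nat_lit 0, nat_lit 4607], [(nat_lit 0, nat_lit 0, nat_lit 0), (nat_lit 0, nat_lit 0, nat_lit 0), (nat_lit 846, nat_lit 837, nat_lit 1000)], (nat_lit 87, nat_lit 95, nat_lit 100)⟩
noncomputable def p128_k33 : C1.Kn := ⟨[nat_lit 20, nat_lit 60, nat_lit 140], [nat_lit 0, nat_lit 0, nat_lit 4874], [(nat_lit 0, nat_lit 0, nat_lit 0), (nat_lit 0, nat_lit 0, nat_lit 0), (nat_lit 1000, nat_lit 619, nat_lit 951)], (nat_lit 62, nat_lit 100, nat_lit 94)⟩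
noncomputable def p128_k34 : C1.Kn := ⟨[nat_lit 40, nat_lit 80, nat_lit 160], [nat_lit 0, nat_lit 0, nat_lit 4265], [(nat_lit 0, nat_lit 0, nat_lit 0), (nat_lit 0, nat_lit 0, nat_lit 0), (nat_lit 1000, nat_lit 833, nat_lit 833)], (nat_lit 87, nat_lit 95, nat_lit 100)⟩
noncomputable def p128_k35 : C1.Kn := ⟨[nat_lit 20, nat_lit 60, nat_lit 120], [nat_lit 0, nat_lit 698, nat_lit 4166], [(nat_lit 0, nat_lit 0, nat_lit 0), (nat_lit 1000, nat_lit 782, nat_lit 272), (nat_lit 1000, nat_lit 529, nat_lit 902)], (nat_lit 53, nat_lit 100, nat_lit 93)⟩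
noncomputable def p128_k36 : C1.Kn := ⟨[nat_lit 20, nat_lit 60, nat_lit 120], [nat_lit 0, nat_lit 339, nat_lit 3911], [(nat_lit 0, nat_lit 0, nat_lit 0), (nat_lit 1000, nat_lit 894, nat_lit 132), (nat_lit 1000, nat_lit 574, nat_lit 928)], (nat_lit 58, nat_lit 100, nat_lit 93)⟩
noncomputable def p128_k37 : C1.Kn := ⟨[nat_lit 20, nat_lit 60, nat_lit 120], [nat_lit 0, nat_lit 1056, nat_lit 4422], [(nat_lit 0, nat_lit 0, nat_lit 0), (nat_lit 1000, nat_lit 671, nat_lit 411), (nat_lit 1000, nat_lit 484, nat_lit 876)], (nat_lit 49, nat_lit 100, nat_lit 92)⟩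
noncomputable def p128_k38 : C1.Kn := ⟨[nat_lit 20, nat_lit 60, nat_lit 120], [nat_lit 0, nat_lit 1415, nat_lit 4677], [(nat_lit 0, nat_lit 0, nat_lit 0), (nat_lit 1000, nat_lit 558, nat_lit 551), (nat_lit 1000, nat_lit 439, nat_lit 849)], (nat_lit 44, nat_lit 100, nat_lit 92)⟩
noncomputable def p128_k39 : C1.Kn := ⟨[nat_lit 20, nat_lit 60, nat_lit 100], [nat_lit 0, nat_lit 2136, nat_lit 4235], [(nat_lit 0, nat_lit 0, nat_lit 0), (nat_lit 1000, nat_lit 343, nat_lit 808), (nat_lit 1000, nat_lit 338, nat_lit 820)], (nat_lit 31, nat_lit 100, nat_lit 92)⟩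
noncomputable def p128_k40 : C1.Kn := ⟨[nat_lit 20, nat_lit 60, nat_lit 100], [nat_lit 0, nat_lit 1776, nat_lit 3880], [(nat_lit 0, nat_lit 0, nat_lit 0), (nat_lit 1000, nat_lit 445, nat_lit 693), (nat_lit 1000, nat_lit 394, nat_lit 822)], (nat_lit 38, nat_lit 100, nat_lit 92)⟩
noncomputable def p128_k41 : C1.Kn := ⟨[nat_lit 20, nat_lit 60, nat_lit 100], [nat_lit 0, nat_lit 2600, nat_lit 4863], [(nat_lit 0, nat_lit 0, nat_lit 0), (nat_lit 1000, nat_lit 245, nat_lit 872), (nat_lit 1000, nat_lit 240, nat_lit 884)], (nat_lit 23, nat_lit 100, nat_lit 93)⟩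
noncomputable def p128_k42 : C1.Kn := ⟨[nat_lit 20, nat_lit 60, nat_lit 100], [nat_lit 0, nat_lit 1415, nat_lit 3591], [(nat_lit 0, nat_lit 0, nat_lit 0), (nat_lit 1000, nat_lit 558, nat_lit 551), (nat_lit 1000, nat_lit 439, nat_lit 849)], (nat_lit 44, nat_lit 100, nat_lit 87)⟩
noncomputable def p128_k43 : C1.Kn := ⟨[nat_lit 40, nat_lit 80, nat_lit 140], [nat_lit 0, nat_lit 0, nat_lit 3199], [(nat_lit 0, nat_lit 0, nat_lit 0), (nat_lit 0, nat_lit 0, nat_lit 0), (nat_lit 1000, nat_lit 833, nat_lit 833)], (nat_lit 87, nat_lit 100, nat_lit 94)⟩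
noncomputable def p128_k44 : C1.Kn := ⟨[nat_lit 20, nat_lit 60, nat_lit 80], [nat_lit 0, nat_lit 2136, nat_lit 3185], [(nat_lit 0, nat_lit 0, nat_lit 0), (nat_lit 1000, nat_lit 343, nat_lit 808), (nat_lit 1000, nat_lit 338, nat_lit 820)], (nat_lit 32, nat_lit 100, nat_lit 88)⟩
noncomputable def p128_k45 : C1.Kn := ⟨[nat_lit 40, nat_lit 80, nat_lit 160], [nat_lit 0, nat_lit 395, nat_lit 4535], [(nat_lit 0, nat_lit 0, nat_lit 0), (nat_lit 1000, nat_lit 908, nat_lit 154), (nat_lit 1000, nat_lit 776, nat_lit 808)], (nat_lit 83, nat_lit 98, nat_lit 100)⟩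
noncomputable def p128_l0 : Lf2 := ⟨nat_lit 0, nat_lit 10, [nat_lit 0, nat_lit 5, nat_lit 5, nat_lit 20], false, nat_lit 8, nat_lit 80, nat_lit 0, nat_lit 300, ⟨nat_lit 187, nat_lit 813, nat_lit 0, nat_lit 8, nat_lit 294, nat_lit 813, nat_lit 43, nat_lit 0, nat_lit 0, nat_lit 0, nat_lit 0, nat_lit 0, nat_lit 42646758, nat_lit 23196281, nat_lit 1156961, nat_lit 3727637, true, false⟩,
 nat_lit 0, nat_lit 0, nat_lit 1808, nat_lit 0, nat_lit 2741, nat_lit 1356, nat_lit 81, nat_lit 0, nat_lit 0, nat_lit 62, nat_lit 0, nat_lit 0, nat_lit 0, nat_lit 0, nat_lit 0, nat_lit 460800, nat_lit 0, nat_lit 0, [(nat_lit 24, [(nat_lit 1, nat_lit 587), (nat_lit 2, nat_lit 226)])],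
 ⟨p128_k0, nat_lit 0, nat_lit 0, nat_lit 131, nat_lit 0, nat_lit 0, [nat_lit 1004950000, nat_lit 1092315867, nat_lit 964277600], [], [nat_lit 21789438558, nat_lit 22406881062, nat_lit 26271829476, nat_lit 26819861481, nat_lit 21322358890, nat_lit 21906220356, nat_lit 25637133747, nat_lit 26157759796], nat_lit 0, nat_lit 0, nat_lit 0, nat_lit 0, nat_lit 0, nat_lit 0, [], [nat_lit 35, nat_lit 40, nat_lit 40, nat_lit 80, nat_lit 22, nat_lit 226, nat_lit 20, nat_lit 9]⟩, ⟨p128_k1, nat_lit 0, nat_lit 0, nat_lit 775, nat_lit 0, nat_lit 1610262, [nat_lit 379984000, nat_lit 876656000, nat_lit 1168750000], [], [nat_lit 6318938520, nat_lit 6402195022, nat_lit 6512829308, nat_lit 6574229196, nat_lit 5771558876, nat_lit 5824253714, nat_lit 5848065143, nat_lit 5907928107], nat_lit 1271250, nat_lit 1271250, nat_lit 1271250, nat_lit 1271250, nat_lit 0, nat_lit 2118750, [nat_lit 490000, nat_lit 1100000, nat_lit 1442500], [nat_lit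 6, nat_lit 40, nat_lit 40, nat_lit 80, nat_lit 3, nat_lit 314, nat_lit 75, nat_lit 11]⟩,
 ⟨nat_lit 2738, nat_lit 3163, ⟨.ofNat (nat_lit 632856), .ofNat (nat_lit 815772), .ofNat (nat_lit 654999), .ofNat (nat_lit 837914), .ofNat (nat_lit 634431), .ofNat (nat_lit 811670), .ofNat (nat_lit 656837), .ofNat (nat_lit 834076)⟩, ⟨.ofNat (nat_lit 20000), .ofNat (nat_lit 184209), .ofNat (nat_lit 20000), .ofNat (nat_lit 200000), .ofNat (nat_lit 20000), .ofNat (nat_lit 188310), .ofNat (nat_lit 20000), .ofNat (nat_lit 200000)⟩⟩, [⟨nat_lit 3, nat_lit 100, nat_lit 57, nat_lit 62, nat_lit 116216480⟩, ⟨nat_lit 22, nat_lit 100, nat_lit 98, nat_lit 66, nat_lit 34602951⟩]⟩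
noncomputable def p128_l1 : Lf2 := ⟨nat_lit 0, nat_lit 10, [nat_lit 0, nat_lit 5, nat_lit 5, nat_lit 20], false, nat_lit 12, nat_lit 80, nat_lit 0, nat_lit 300, ⟨nat_lit 179, nat_lit 821, nat_lit 0, nat_lit 8, nat_lit 298, nat_lit 821, nat_lit 45, nat_lit 0, nat_lit 0, nat_lit 0, nat_lit 0, nat_lit 0, nat_lit 42151856, nat_lit 23599789, nat_lit 1248355, nat_lit 3775934, true, false⟩,
 nat_lit 0, nat_lit 0, nat_lit 1732, nat_lit 0, nat_lit 2479, nat_lit 1298, nat_lit 323, nat_lit 0, nat_lit 0, nat_lit 57, nat_lit 0, nat_lit 0, nat_lit 0, nat_lit 0, nat_lit 0, nat_lit 205250, nat_lit 0, nat_lit 0, [(nat_lit 24, [(nat_lit 0, nat_lit 821)])],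
 ⟨p128_k2, nat_lit 0, nat_lit 0, nat_lit 133, nat_lit 0, nat_lit 0, [nat_lit 794489201, nat_lit 1709949201, nat_lit 2239449600], [], [nat_lit 22513963346, nat_lit 23118522326, nat_lit 26234284220, nat_lit 26733448085, nat_lit 22176339576, nat_lit 22750169407, nat_lit 25755623759, nat_lit 26231900474], nat_lit 0, nat_lit 0, nat_lit 0, nat_lit 0, nat_lit 0, nat_lit 0, [], [nat_lit 35, nat_lit 40, nat_lit 40, nat_lit 80, nat_lit 22, nat_lit 226, nat_lit 20, nat_lit 9]⟩, ⟨p128_k1, nat_lit 0, nat_lit 0, nat_lit 826, nat_lit 0, nat_lit 1722006, [nat_lit 363728000, nat_lit 839152000, nat_lit 1118750000], [], [nat_lit 6079742810, nat_lit 6156753461, nat_lit 6252912620, nat_lit 6311685756, nat_lit 5536049500, nat_lit 5579028644, nat_lit 5597798035, nat_lit 5655191604], nat_lit 1271250, nat_lit 1271250, nat_lit 1271250, nat_lit 1271250, nat_lit 0, nat_lit 2118750, [nat_lit 490000, nat_lit 1100000, nat_lit 1442500], [nat_lit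 6, nat_lit 40, nat_lit 40, nat_lit 80, nat_lit 3, nat_lit 327, nat_lit 75, nat_lit 12]⟩,
 ⟨nat_lit 2236, nat_lit 2739, ⟨.ofNat (nat_lit 658020), .ofNat (nat_lit 811671), .ofNat (nat_lit 680417), .ofNat (nat_lit 834068), .ofNat (nat_lit 659343), .ofNat (nat_lit 807675), .ofNat (nat_lit 682097), .ofNat (nat_lit 830429)⟩, ⟨.ofNat (nat_lit 30000), .ofNat (nat_lit 188310), .ofNat (nat_lit 30000), .ofNat (nat_lit 200000), .ofNat (nat_lit 30000), .ofNat (nat_lit 192306), .ofNat (nat_lit 30000), .ofNat (nat_lit 200000)⟩⟩, [⟨nat_lit 3, nat_lit 100, nat_lit 48, nat_lit 71, nat_lit 140263240⟩, ⟨nat_lit 22, nat_lit 100, nat_lit 100, nat_lit 68, nat_lit 31157973⟩]⟩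
noncomputable def p128_l2 : Lf2 := ⟨nat_lit 0, nat_lit 10, [nat_lit 0, nat_lit 5, nat_lit 5, nat_lit 20], false, nat_lit 8, nat_lit 80, nat_lit 0, nat_lit 260, ⟨nat_lit 228, nat_lit 772, nat_lit 0, nat_lit 8, nat_lit 340, nat_lit 772, nat_lit 43, nat_lit 0, nat_lit 0, nat_lit 0, nat_lit 0, nat_lit 0, nat_lit 38239837, nat_lit 27679021, nat_lit 1081142, nat_lit 3859433, true, true⟩,
 nat_lit 0, nat_lit 0, nat_lit 2085, nat_lit 0, nat_lit 2666, nat_lit 1563, nat_lit 226, nat_lit 0, nat_lit 0, nat_lit 82, nat_lit 0, nat_lit 0, nat_lit 0, nat_lit 0, nat_lit 0, nat_lit 397600, nat_lit 0, nat_lit 0, [(nat_lit 24, [(nat_lit 1, nat_lit 624), (nat_lit 2, nat_lit 148)])],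
 ⟨p128_k0, nat_lit 0, nat_lit 0, nat_lit 144, nat_lit 0, nat_lit 0, [nat_lit 960280000, nat_lit 1300657601, nat_lit 1354912000], [], [nat_lit 26491167388, nat_lit 27005776757, nat_lit 28269780550, nat_lit 28741702372, nat_lit 25890837162, nat_lit 26380219772, nat_lit 27587758994, nat_lit 28043176157], nat_lit 0, nat_lit 0, nat_lit 0, nat_lit 0, nat_lit 0, nat_lit 0, [], [nat_lit 35, nat_lit 40, nat_lit 40, nat_lit 80, nat_lit 22, nat_lit 226, nat_lit 20, nat_lit 8]⟩, ⟨p128_k1, nat_lit 0, nat_lit 0, nat_lit 732, nat_lit 0, nat_lit 1541987, [nat_lit 463296000, nat_lit 1068864000, nat_lit 1425000000], [], [nat_lit 8199282208, nat_lit 8245723738, nat_lit 8388451820, nat_lit 8445438333, nat_lit 7471425708, nat_lit 7506674796, nat_lit 7612422060, nat_lit 7643318580], nat_lit 1271250, nat_lit 1271250, nat_lit 1271250, nat_lit 1271250, nat_lit 0, nat_lit 1836250, [nat_lit 490000, nat_lit 1100000, nat_lit 1442500], [nat_lit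 6, nat_lit 40, nat_lit 40, nat_lit 80, nat_lit 3, nat_lit 302, nat_lit 75, nat_lit 10]⟩,
 ⟨nat_lit 2738, nat_lit 3163, ⟨.ofNat (nat_lit 815772), .ofNat (nat_lit 876741), .ofNat (nat_lit 826842), .ofNat (nat_lit 887814), .ofNat (nat_lit 811670), .ofNat (nat_lit 870748), .ofNat (nat_lit 822873), .ofNat (nat_lit 881953)⟩, ⟨.ofNat (nat_lit 20000), .ofNat (nat_lit 184209), .ofNat (nat_lit 20000), .ofNat (nat_lit 200000), .ofNat (nat_lit 20000), .ofNat (nat_lit 188310), .ofNat (nat_lit 20000), .ofNat (nat_lit 200000)⟩⟩, [⟨nat_lit 3, nat_lit 100, nat_lit 57, nat_lit 62, nat_lit 91018210⟩, ⟨nat_lit 22, nat_lit 72, nat_lit 100, nat_lit 63, nat_lit 52588823⟩]⟩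
noncomputable def p128_l3 : Lf2 := ⟨nat_lit 0, nat_lit 10, [nat_lit 0, nat_lit 5, nat_lit 5, nat_lit 20], false, nat_lit 12, nat_lit 80, nat_lit 0, nat_lit 260, ⟨nat_lit 234, nat_lit 766, nat_lit 0, nat_lit 8, nat_lit 338, nat_lit 766, nat_lit 45, nat_lit 0, nat_lit 0, nat_lit 0, nat_lit 0, nat_lit 0, nat_lit 38364732, nat_lit 27458374, nat_lit 1176894, nat_lit 3885572, true, true⟩,
 nat_lit 0, nat_lit 0, nat_lit 2178, nat_lit 0, nat_lit 2290, nat_lit 1633, nat_lit 506, nat_lit 0, nat_lit 0, nat_lit 78, nat_lit 0, nat_lit 0, nat_lit 0, nat_lit 0, nat_lit 0, nat_lit 191500, nat_lit 0, nat_lit 0, [(nat_lit 24, [(nat_lit 0, nat_lit 766)])],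
 ⟨p128_k2, nat_lit 0, nat_lit 0, nat_lit 146, nat_lit 0, nat_lit 0, [nat_lit 804103201, nat_lit 1815263201, nat_lit 2403481600], [], [nat_lit 26014881052, nat_lit 26524582725, nat_lit 27746841834, nat_lit 28214807111, nat_lit 25661441515, nat_lit 26147706325, nat_lit 27320543645, nat_lit 27768219865], nat_lit 0, nat_lit 0, nat_lit 0, nat_lit 0, nat_lit 0, nat_lit 0, [], [nat_lit 35, nat_lit 40, nat_lit 40, nat_lit 80, nat_lit 22, nat_lit 226, nat_lit 20, nat_lit 8]⟩, ⟨p128_k1, nat_lit 0, nat_lit 0, nat_lit 777, nat_lit 0, nat_lit 1656718, [nat_lit 475488000, nat_lit 1096992000, nat_lit 1462500000], [], [nat_lit 8586274720, nat_lit 8624746848, nat_lit 8740163232, nat_lit 8773941638, nat_lit 7761803248, nat_lit 7790260395, nat_lit 7875631834, nat_lit 7900210932], nat_lit 1271250, nat_lit 1271250, nat_lit 1271250, nat_lit 1271250, nat_lit 0, nat_lit 1836250, [nat_lit 490000, nat_lit 1100000, nat_lit 1442500], [nat_lit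 6, nat_lit 40, nat_lit 40, nat_lit 80, nat_lit 3, nat_lit 313, nat_lit 75, nat_lit 11]⟩,
 ⟨nat_lit 2236, nat_lit 2739, ⟨.ofNat (nat_lit 811671), .ofNat (nat_lit 870748), .ofNat (nat_lit 822869), .ofNat (nat_lit 881957), .ofNat (nat_lit 807675), .ofNat (nat_lit 864706), .ofNat (nat_lit 819051), .ofNat (nat_lit 876094)⟩, ⟨.ofNat (nat_lit 30000), .ofNat (nat_lit 188310), .ofNat (nat_lit 30000), .ofNat (nat_lit 200000), .ofNat (nat_lit 30000), .ofNat (nat_lit 192306), .ofNat (nat_lit 30000), .ofNat (nat_lit 200000)⟩⟩, [⟨nat_lit 3, nat_lit 100, nat_lit 56, nat_lit 60, nat_lit 62570958⟩, ⟨nat_lit 22, nat_lit 72, nat_lit 100, nat_lit 64, nat_lit 50225592⟩]⟩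
noncomputable def p128_l4 : Lf2 := ⟨nat_lit 0, nat_lit 10, [nat_lit 0, nat_lit 5, nat_lit 5, nat_lit 20], false, nat_lit 8, nat_lit 80, nat_lit 0, nat_lit 200, ⟨nat_lit 261, nat_lit 739, nat_lit 0, nat_lit 9, nat_lit 363, nat_lit 739, nat_lit 43, nat_lit 0, nat_lit 0, nat_lit 0, nat_lit 0, nat_lit 0, nat_lit 36123014, nat_lit 29841300, nat_lit 1035686, nat_lit 3886121, true, true⟩,
 nat_lit 0, nat_lit 0, nat_lit 2275, nat_lit 0, nat_lit 2702, nat_lit 1706, nat_lit 104, nat_lit 0, nat_lit 0, nat_lit 93, nat_lit 0, nat_lit 0, nat_lit 0, nat_lit 0, nat_lit 0, nat_lit 382000, nat_lit 0, nat_lit 0, [(nat_lit 24, [(nat_lit 1, nat_lit 595), (nat_lit 2, nat_lit 144)])],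
 ⟨p128_k0, nat_lit 0, nat_lit 0, nat_lit 163, nat_lit 0, nat_lit 0, [nat_lit 960770000, nat_lit 1381932134, nat_lit 1490303200], [], [nat_lit 28722508935, nat_lit 28954521252, nat_lit 30392997617, nat_lit 30607510369, nat_lit 28108686126, nat_lit 28326406269, nat_lit 29696575176, nat_lit 29903753357], nat_lit 0, nat_lit 0, nat_lit 0, nat_lit 0, nat_lit 0, nat_lit 0, [], [nat_lit 35, nat_lit 40, nat_lit 40, nat_lit 80, nat_lit 22, nat_lit 226, nat_lit 20, nat_lit 8]⟩, ⟨p128_k1, nat_lit 0, nat_lit 0, nat_lit 711, nat_lit 0, nat_lit 1486322, [nat_lit 530352000, nat_lit 1223568000, nat_lit 1631250000], [], [nat_lit 10113298236, nat_lit 10160349261, nat_lit 10340721534, nat_lit 10405963403, nat_lit 9265471282, nat_lit 9306640515, nat_lit 9461025423, nat_lit 9497408382], nat_lit 1271250, nat_lit 1271250, nat_lit 1271250, nat_lit 1271250, nat_lit 0, nat_lit 1412500, [nat_lit 490000, nat_lit 1100000, nat_lit 1442500],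 [nat_lit 6, nat_lit 40, nat_lit 40, nat_lit 80, nat_lit 3, nat_lit 294, nat_lit 50, nat_lit 10]⟩,
 ⟨nat_lit 2958, nat_lit 3163, ⟨.ofNat (nat_lit 876741), .ofNat (nat_lit 931599), .ofNat (nat_lit 887817), .ofNat (nat_lit 942677), .ofNat (nat_lit 873745), .ofNat (nat_lit 927764), .ofNat (nat_lit 884882), .ofNat (nat_lit 938902)⟩, ⟨.ofNat (nat_lit 20000), .ofNat (nat_lit 184209), .ofNat (nat_lit 20000), .ofNat (nat_lit 200000), .ofNat (nat_lit 20000), .ofNat (nat_lit 186273), .ofNat (nat_lit 20000), .ofNat (nat_lit 200000)⟩⟩, [⟨nat_lit 13, nat_lit 75, nat_lit 35, nat_lit 100, nat_lit 127189563⟩, ⟨nat_lit 3, nat_lit 100, nat_lit 75, nat_lit 35, nat_lit 63066829⟩, ⟨nat_lit 10, nat_lit 100, nat_lit 42, nat_lit 72, nat_lit 61426434⟩]⟩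
noncomputable def p128_l5 : Lf2 := ⟨nat_lit 0, nat_lit 10, [nat_lit 0, nat_lit 5, nat_lit 5, nat_lit 20], false, nat_lit 8, nat_lit 80, nat_lit 0, nat_lit 200, ⟨nat_lit 399, nat_lit 601, nat_lit 0, nat_lit 9, nat_lit 362, nat_lit 601, nat_lit 43, nat_lit 0, nat_lit 0, nat_lit 0, nat_lit 0, nat_lit 0, nat_lit 36238201, nat_lit 29716225, nat_lit 1045574, nat_lit 3887590, true, true⟩,
 nat_lit 0, nat_lit 0, nat_lit 3477, nat_lit 0, nat_lit 2440, nat_lit 2607, nat_lit 1009, nat_lit 0, nat_lit 0, nat_lit 141, nat_lit 0, nat_lit 0, nat_lit 0, nat_lit 0, nat_lit 0, nat_lit 150250, nat_lit 0, nat_lit 0, [(nat_lit 24, [(nat_lit 0, nat_lit 601)])],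
 ⟨p128_k3, nat_lit 0, nat_lit 0, nat_lit 164, nat_lit 0, nat_lit 0, [nat_lit 832945201, nat_lit 2131205200, nat_lit 2895577600], [], [nat_lit 28246731851, nat_lit 28470528242, nat_lit 29877318442, nat_lit 30093498798, nat_lit 27780544973, nat_lit 27993911173, nat_lit 29341952174, nat_lit 29548509558], nat_lit 0, nat_lit 0, nat_lit 0, nat_lit 0, nat_lit 0, nat_lit 0, [], [nat_lit 35, nat_lit 40, nat_lit 40, nat_lit 80, nat_lit 22, nat_lit 226, nat_lit 20, nat_lit 8]⟩, ⟨p128_k1, nat_lit 0, nat_lit 0, nat_lit 732, nat_lit 0, nat_lit 1541987, [nat_lit 810768000, nat_lit 1870512000, nat_lit 2493750000], [], [nat_lit 15476179068, nat_lit 15548107137, nat_lit 15819012998, nat_lit 15905084469, nat_lit 14171384580, nat_lit 14234323314, nat_lit 14470317240, nat_lit 14525941318], nat_lit 1271250, nat_lit 1271250, nat_lit 1271250, nat_lit 1271250, nat_lit 0, nat_lit 1412500, [nat_lit 490000, nat_lit 1100000, nat_lit 1442500],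 [nat_lit 6, nat_lit 40, nat_lit 40, nat_lit 80, nat_lit 3, nat_lit 299, nat_lit 50, nat_lit 10]⟩,
 ⟨nat_lit 2738, nat_lit 2959, ⟨.ofNat (nat_lit 873745), .ofNat (nat_lit 927764), .ofNat (nat_lit 884883), .ofNat (nat_lit 938902), .ofNat (nat_lit 870748), .ofNat (nat_lit 923903), .ofNat (nat_lit 881956), .ofNat (nat_lit 935112)⟩, ⟨.ofNat (nat_lit 20000), .ofNat (nat_lit 186273), .ofNat (nat_lit 20000), .ofNat (nat_lit 200000), .ofNat (nat_lit 20000), .ofNat (nat_lit 188310), .ofNat (nat_lit 20000), .ofNat (nat_lit 200000)⟩⟩, [⟨nat_lit 13, nat_lit 70, nat_lit 40, nat_lit 100, nat_lit 40540432⟩, ⟨nat_lit 10, nat_lit 100, nat_lit 42, nat_lit 72, nat_lit 93885403⟩]⟩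
noncomputable def p128_l6 : Lf2 := ⟨nat_lit 0, nat_lit 10, [nat_lit 0, nat_lit 5, nat_lit 5, nat_lit 20], false, nat_lit 12, nat_lit 80, nat_lit 0, nat_lit 200, ⟨nat_lit 240, nat_lit 760, nat_lit 0, nat_lit 9, nat_lit 359, nat_lit 760, nat_lit 45, nat_lit 0, nat_lit 0, nat_lit 0, nat_lit 0, nat_lit 0, nat_lit 36472713, nat_lit 29390566, nat_lit 1136721, nat_lit 3912579, true, true⟩,
 nat_lit 0, nat_lit 0, nat_lit 2147, nat_lit 0, nat_lit 2328, nat_lit 1610, nat_lit 486, nat_lit 0, nat_lit 0, nat_lit 81, nat_lit 0, nat_lit 0, nat_lit 0, nat_lit 0, nat_lit 0, nat_lit 190000, nat_lit 0, nat_lit 0, [(nat_lit 24, [(nat_lit 0, nat_lit 760)])],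
 ⟨p128_k2, nat_lit 0, nat_lit 0, nat_lit 163, nat_lit 0, nat_lit 0, [nat_lit 805152001, nat_lit 1826752000, nat_lit 2421376000], [], [nat_lit 28104684802, nat_lit 28565460071, nat_lit 29547186104, nat_lit 29976716859, nat_lit 27728663209, nat_lit 28168994489, nat_lit 29108135965, nat_lit 29518879904], nat_lit 0, nat_lit 0, nat_lit 0, nat_lit 0, nat_lit 0, nat_lit 0, [], [nat_lit 35, nat_lit 40, nat_lit 40, nat_lit 80, nat_lit 22, nat_lit 226, nat_lit 20, nat_lit 8]⟩, ⟨p128_k1, nat_lit 0, nat_lit 0, nat_lit 775, nat_lit 0, nat_lit 1656718, [nat_lit 487680000, nat_lit 1125120000, nat_lit 1500000000], [], [nat_lit 9403665840, nat_lit 9438517300, nat_lit 9556269817, nat_lit 9590155651, nat_lit 8585072460, nat_lit 8615145685, nat_lit 8716817900, nat_lit 8743478981], nat_lit 1271250, nat_lit 1271250, nat_lit 1271250, nat_lit 1271250, nat_lit 0, nat_lit 1412500, [nat_lit 490000, nat_lit 1100000, nat_lit 1442500], [nat_lit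 6, nat_lit 40, nat_lit 40, nat_lit 80, nat_lit 3, nat_lit 309, nat_lit 50, nat_lit 10]⟩,
 ⟨nat_lit 2236, nat_lit 2739, ⟨.ofNat (nat_lit 870748), .ofNat (nat_lit 917997), .ofNat (nat_lit 881957), .ofNat (nat_lit 929206), .ofNat (nat_lit 864706), .ofNat (nat_lit 910319), .ofNat (nat_lit 876094), .ofNat (nat_lit 921706)⟩, ⟨.ofNat (nat_lit 30000), .ofNat (nat_lit 188310), .ofNat (nat_lit 30000), .ofNat (nat_lit 200000), .ofNat (nat_lit 30000), .ofNat (nat_lit 192306), .ofNat (nat_lit 30000), .ofNat (nat_lit 200000)⟩⟩, [⟨nat_lit 13, nat_lit 54, nat_lit 57, nat_lit 100, nat_lit 213300324⟩, ⟨nat_lit 3, nat_lit 100, nat_lit 56, nat_lit 60, nat_lit 65775630⟩, ⟨nat_lit 22, nat_lit 55, nat_lit 100, nat_lit 61, nat_lit 48715137⟩]⟩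
noncomputable def p128_l7 : Lf2 := ⟨nat_lit 0, nat_lit 10, [nat_lit 0, nat_lit 5, nat_lit 5, nat_lit 20], false, nat_lit 8, nat_lit 80, nat_lit 0, nat_lit 260, ⟨nat_lit 607, nat_lit 393, nat_lit 0, nat_lit 8, nat_lit 355, nat_lit 393, nat_lit 43, nat_lit 0, nat_lit 0, nat_lit 0, nat_lit 0, nat_lit 0, nat_lit 36844677, nat_lit 29093876, nat_lit 1061447, nat_lit 3882692, true, true⟩,
 nat_lit 0, nat_lit 0, nat_lit 3933, nat_lit 0, nat_lit 3611, nat_lit 3065, nat_lit 108, nat_lit 0, nat_lit 0, nat_lit 953, nat_lit 0, nat_lit 0, nat_lit 0, nat_lit 0, nat_lit 0, nat_lit 393000, nat_lit 0, nat_lit 0, [(nat_lit 24, [(nat_lit 2, nat_lit 393)])],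
 ⟨p128_k0, nat_lit 0, nat_lit 0, nat_lit 168, nat_lit 0, nat_lit 0, [nat_lit 1146290000, nat_lit 1806363600, nat_lit 2023774400], [], [nat_lit 28159759025, nat_lit 29628244139, nat_lit 33237994461, nat_lit 34402014568, nat_lit 26170771560, nat_lit 27167317712, nat_lit 30657028896, nat_lit 31784100364], nat_lit 0, nat_lit 0, nat_lit 0, nat_lit 0, nat_lit 0, nat_lit 0, [], [nat_lit 35, nat_lit 40, nat_lit 40, nat_lit 80, nat_lit 22, nat_lit 226, nat_lit 20, nat_lit 8]⟩, ⟨p128_k4, nat_lit 0, nat_lit 0, nat_lit 766, nat_lit 0, nat_lit 1631301, [nat_lit 1233424000, nat_lit 2845616000, nat_lit 3793750000], [], [nat_lit 20098170172, nat_lit 20247509437, nat_lit 21866008467, nat_lit 22243620498, nat_lit 19744792206, nat_lit 19851777801, nat_lit 20736197058, nat_lit 20836433377], nat_lit 1271250, nat_lit 1271250, nat_lit 1271250, nat_lit 1271250, nat_lit 0, nat_lit 1836250, [nat_lit 490000, nat_lit 1100000, nat_lit 1442500],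 [nat_lit 6, nat_lit 40, nat_lit 40, nat_lit 80, nat_lit 3, nat_lit 317, nat_lit 75, nat_lit 11]⟩,
 ⟨nat_lit 2236, nat_lit 3163, ⟨.ofNat (nat_lit 826765), .ofNat (nat_lit 948772), .ofNat (nat_lit 837812), .ofNat (nat_lit 959850), .ofNat (nat_lit 818978), .ofNat (nat_lit 933109), .ofNat (nat_lit 830334), .ofNat (nat_lit 944496)⟩, ⟨.ofNat (nat_lit 20000), .ofNat (nat_lit 184209), .ofNat (nat_lit 20000), .ofNat (nat_lit 200000), .ofNat (nat_lit 20000), .ofNat (nat_lit 192306), .ofNat (nat_lit 20000), .ofNat (nat_lit 200000)⟩⟩, [⟨nat_lit 22, nat_lit 62, nat_lit 100, nat_lit 65, nat_lit 208610374⟩]⟩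
noncomputable def p128_l8 : Lf2 := ⟨nat_lit 0, nat_lit 10, [nat_lit 0, nat_lit 5, nat_lit 5, nat_lit 20], true, nat_lit 20, nat_lit 80, nat_lit 0, nat_lit 300, ⟨nat_lit 0, nat_lit 1000, nat_lit 0, nat_lit 8, nat_lit 301, nat_lit 1000, nat_lit 49, nat_lit 0, nat_lit 0, nat_lit 0, nat_lit 0, nat_lit 0, nat_lit 41730566, nat_lit 23841335, nat_lit 1428099, nat_lit 3843682, true, false⟩,
 nat_lit 0, nat_lit 0, nat_lit 0, nat_lit 0, nat_lit 2198, nat_lit 0, nat_lit 0, nat_lit 0, nat_lit 0, nat_lit 0, nat_lit 0, nat_lit 0, nat_lit 0, nat_lit 0, nat_lit 0, nat_lit 375100, nat_lit 0, nat_lit 0, [(nat_lit 27, [(nat_lit 0, nat_lit 166), (nat_lit 1, nat_lit 834)])],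
 ⟨p128_k5, nat_lit 0, nat_lit 0, nat_lit 121, nat_lit 0, nat_lit 0, [nat_lit 711411200, nat_lit 443654400], [], [nat_lit 22860286695, nat_lit 23444314481, nat_lit 25925506284, nat_lit 26511361410, nat_lit 22678410925, nat_lit 23236495136, nat_lit 25642344684, nat_lit 26121600106], nat_lit 0, nat_lit 0, nat_lit 0, nat_lit 0, nat_lit 0, nat_lit 0, [], [nat_lit 66, nat_lit 40, nat_lit 40, nat_lit 80, nat_lit 67, nat_lit 226, nat_lit 20, nat_lit 11]⟩, C1.Rw.none,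
 ⟨nat_lit 1581, nat_lit 2237, ⟨.ofNat (nat_lit 687763), .ofNat (nat_lit 807675), .ofNat (nat_lit 699128), .ofNat (nat_lit 819040), .ofNat (nat_lit 688866), .ofNat (nat_lit 803781), .ofNat (nat_lit 700501), .ofNat (nat_lit 815415)⟩, ⟨.ofNat (nat_lit 50000), .ofNat (nat_lit 192306), .ofNat (nat_lit 50000), .ofNat (nat_lit 200000), .ofNat (nat_lit 50000), .ofNat (nat_lit 196201), .ofNat (nat_lit 50000), .ofNat (nat_lit 200000)⟩⟩, [⟨nat_lit 3, nat_lit 100, nat_lit 44, nat_lit 71, nat_lit 276431230⟩]⟩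
noncomputable def p128_l9 : Lf2 := ⟨nat_lit 0, nat_lit 10, [nat_lit 0, nat_lit 5, nat_lit 5, nat_lit 20], false, nat_lit 20, nat_lit 80, nat_lit 0, nat_lit 260, ⟨nat_lit 151, nat_lit 849, nat_lit 0, nat_lit 8, nat_lit 341, nat_lit 849, nat_lit 49, nat_lit 0, nat_lit 0, nat_lit 0, nat_lit 0, nat_lit 0, nat_lit 37927051, nat_lit 27729141, nat_lit 1343808, nat_lit 3945441, true, true⟩,
 nat_lit 0, nat_lit 0, nat_lit 1374, nat_lit 0, nat_lit 2220, nat_lit 1030, nat_lit 52, nat_lit 0, nat_lit 0, nat_lit 51, nat_lit 0, nat_lit 0, nat_lit 0, nat_lit 0, nat_lit 0, nat_lit 339600, nat_lit 0, nat_lit 0, [(nat_lit 27, [(nat_lit 1, nat_lit 849)])],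
 ⟨p128_k5, nat_lit 0, nat_lit 0, nat_lit 135, nat_lit 0, nat_lit 0, [nat_lit 733900400, nat_lit 770997600], [], [nat_lit 26423753020, nat_lit 26913813850, nat_lit 29157206834, nat_lit 29614465694, nat_lit 26191469500, nat_lit 26661289240, nat_lit 28761952053, nat_lit 29201320349], nat_lit 0, nat_lit 0, nat_lit 0, nat_lit 0, nat_lit 0, nat_lit 0, [], [nat_lit 66, nat_lit 40, nat_lit 40, nat_lit 80, nat_lit 67, nat_lit 226, nat_lit 20, nat_lit 11]⟩, ⟨p128_k1, nat_lit 0, nat_lit 0, nat_lit 820, nat_lit 0, nat_lit 1746133, [nat_lit 306832000, nat_lit 707888000, nat_lit 943750000], [], [nat_lit 5699255452, nat_lit 5711678928, nat_lit 5871625888, nat_lit 5895750936, nat_lit 5190731229, nat_lit 5199976605, nat_lit 5319419244, nat_lit 5326682962], nat_lit 1271250, nat_lit 1271250, nat_lit 1271250, nat_lit 1271250, nat_lit 0, nat_lit 1836250, [nat_lit 490000, nat_lit 1100000, nat_lit 1442500], [nat_lit 6, nat_lit 40, nat_lit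 40, nat_lit 80, nat_lit 3, nat_lit 327, nat_lit 75, nat_lit 11]⟩,
 ⟨nat_lit 1581, nat_lit 2237, ⟨.ofNat (nat_lit 807675), .ofNat (nat_lit 898916), .ofNat (nat_lit 813357), .ofNat (nat_lit 904609), .ofNat (nat_lit 803781), .ofNat (nat_lit 891213), .ofNat (nat_lit 809598), .ofNat (nat_lit 897042)⟩, ⟨.ofNat (nat_lit 50000), .ofNat (nat_lit 192306), .ofNat (nat_lit 50000), .ofNat (nat_lit 200000), .ofNat (nat_lit 50000), .ofNat (nat_lit 196201), .ofNat (nat_lit 50000), .ofNat (nat_lit 200000)⟩⟩, [⟨nat_lit 13, nat_lit 48, nat_lit 63, nat_lit 100, nat_lit 193332095⟩, ⟨nat_lit 3, nat_lit 100, nat_lit 44, nat_lit 71, nat_lit 160107354⟩, ⟨nat_lit 10, nat_lit 100, nat_lit 50, nat_lit 71, nat_lit 42786941⟩]⟩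
noncomputable def p128_l10 : Lf2 := ⟨nat_lit 0, nat_lit 10, [nat_lit 0, nat_lit 5, nat_lit 5, nat_lit 20], false, nat_lit 20, nat_lit 80, nat_lit 0, nat_lit 260, ⟨nat_lit 372, nat_lit 628, nat_lit 0, nat_lit 8, nat_lit 344, nat_lit 628, nat_lit 49, nat_lit 0, nat_lit 0, nat_lit 0, nat_lit 0, nat_lit 0, nat_lit 37717512, nat_lit 27943729, nat_lit 1338759, nat_lit 3948840, true, true⟩,
 nat_lit 0, nat_lit 0, nat_lit 2704, nat_lit 0, nat_lit 2570, nat_lit 2067, nat_lit 0, nat_lit 0, nat_lit 0, nat_lit 750, nat_lit 0, nat_lit 0, nat_lit 0, nat_lit 0, nat_lit 0, nat_lit 251200, nat_lit 0, nat_lit 0, [(nat_lit 27, [(nat_lit 1, nat_lit 628)])],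
 ⟨p128_k5, nat_lit 0, nat_lit 0, nat_lit 135, nat_lit 0, nat_lit 0, [nat_lit 787028800, nat_lit 1424627200], [], [nat_lit 27106013470, nat_lit 27623554200, nat_lit 30083471709, nat_lit 30613487131, nat_lit 26694813100, nat_lit 27190433790, nat_lit 29384845713, nat_lit 29816842148], nat_lit 0, nat_lit 0, nat_lit 0, nat_lit 0, nat_lit 0, nat_lit 0, [], [nat_lit 66, nat_lit 40, nat_lit 40, nat_lit 80, nat_lit 67, nat_lit 226, nat_lit 20, nat_lit 11]⟩, ⟨p128_k6, nat_lit 0, nat_lit 0, nat_lit 813, nat_lit 0, nat_lit 1728195, [nat_lit 755904000, nat_lit 1743936000, nat_lit 2325000000], [], [nat_lit 12906347982, nat_lit 12941644056, nat_lit 13375520454, nat_lit 13405418826, nat_lit 12279373722, nat_lit 12303446166, nat_lit 12603789474, nat_lit 12623821631], nat_lit 1271250, nat_lit 1271250, nat_lit 1271250, nat_lit 1271250, nat_lit 0, nat_lit 1836250, [nat_lit 490000, nat_lit 1100000, nat_lit 1442500], [nat_lit 6, nat_lit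 40, nat_lit 40, nat_lit 80, nat_lit 3, nat_lit 325, nat_lit 75, nat_lit 11]⟩,
 ⟨nat_lit 1581, nat_lit 2237, ⟨.ofNat (nat_lit 813357), .ofNat (nat_lit 904609), .ofNat (nat_lit 819040), .ofNat (nat_lit 910303), .ofNat (nat_lit 809598), .ofNat (nat_lit 897042), .ofNat (nat_lit 815415), .ofNat (nat_lit 902871)⟩, ⟨.ofNat (nat_lit 50000), .ofNat (nat_lit 192306), .ofNat (nat_lit 50000), .ofNat (nat_lit 200000), .ofNat (nat_lit 50000), .ofNat (nat_lit 196201), .ofNat (nat_lit 50000), .ofNat (nat_lit 200000)⟩⟩, [⟨nat_lit 22, nat_lit 66, nat_lit 100, nat_lit 67, nat_lit 109737345⟩]⟩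
noncomputable def p128_l11 : Lf2 := ⟨nat_lit 0, nat_lit 10, [nat_lit 0, nat_lit 5, nat_lit 5, nat_lit 20], true, nat_lit 36, nat_lit 80, nat_lit 0, nat_lit 300, ⟨nat_lit 0, nat_lit 1000, nat_lit 0, nat_lit 8, nat_lit 308, nat_lit 1000, nat_lit 58, nat_lit 0, nat_lit 0, nat_lit 0, nat_lit 0, nat_lit 0, nat_lit 40791732, nat_lit 24423801, nat_lit 1784467, nat_lit 3974299, true, false⟩,
 nat_lit 0, nat_lit 0, nat_lit 0, nat_lit 0, nat_lit 2431, nat_lit 0, nat_lit 0, nat_lit 0, nat_lit 0, nat_lit 0, nat_lit 0, nat_lit 0, nat_lit 0, nat_lit 0, nat_lit 0, nat_lit 355300, nat_lit 0, nat_lit 0, [(nat_lit 27, [(nat_lit 0, nat_lit 298), (nat_lit 1, nat_lit 702)])],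
 ⟨p128_k7, nat_lit 0, nat_lit 0, nat_lit 115, nat_lit 0, nat_lit 0, [nat_lit 722393600, nat_lit 538483200], [], [nat_lit 24432831722, nat_lit 25117968179, nat_lit 26774086880, nat_lit 27379791788, nat_lit 23914215847, nat_lit 24467430052, nat_lit 25940507057, nat_lit 26529759396], nat_lit 0, nat_lit 0, nat_lit 0, nat_lit 0, nat_lit 0, nat_lit 0, [], [nat_lit 66, nat_lit 40, nat_lit 40, nat_lit 80, nat_lit 67, nat_lit 226, nat_lit 20, nat_lit 11]⟩, C1.Rw.none,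
 ⟨nat_lit 0, nat_lit 1582, ⟨.ofNat (nat_lit 725463), .ofNat (nat_lit 803773), .ofNat (nat_lit 736793), .ofNat (nat_lit 815118), .ofNat (nat_lit 728156), .ofNat (nat_lit 799976), .ofNat (nat_lit 740328), .ofNat (nat_lit 812163)⟩, ⟨.ofNat (nat_lit 90000), .ofNat (nat_lit 196201), .ofNat (nat_lit 90000), .ofNat (nat_lit 200000), .ofNat (nat_lit 90000), .ofNat (nat_lit 199999), .ofNat (nat_lit 90000), .ofNat (nat_lit 200000)⟩⟩, [⟨nat_lit 3, nat_lit 100, nat_lit 39, nat_lit 72, nat_lit 491455129⟩]⟩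
noncomputable def p128_l12 : Lf2 := ⟨nat_lit 0, nat_lit 10, [nat_lit 0, nat_lit 5, nat_lit 5, nat_lit 20], false, nat_lit 36, nat_lit 80, nat_lit 0, nat_lit 260, ⟨nat_lit 134, nat_lit 866, nat_lit 0, nat_lit 8, nat_lit 337, nat_lit 866, nat_lit 58, nat_lit 0, nat_lit 0, nat_lit 0, nat_lit 0, nat_lit 0, nat_lit 38120532, nat_lit 27171397, nat_lit 1708071, nat_lit 4040943, true, true⟩,
 nat_lit 0, nat_lit 0, nat_lit 1260, nat_lit 0, nat_lit 2207, nat_lit 945, nat_lit 22, nat_lit 0, nat_lit 0, nat_lit 40, nat_lit 0, nat_lit 0, nat_lit 0, nat_lit 0, nat_lit 0, nat_lit 346400, nat_lit 0, nat_lit 0, [(nat_lit 27, [(nat_lit 1, nat_lit 866)])],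
 ⟨p128_k7, nat_lit 0, nat_lit 0, nat_lit 128, nat_lit 0, nat_lit 0, [nat_lit 729813600, nat_lit 720718400], [], [nat_lit 26539136680, nat_lit 27033951494, nat_lit 28710603535, nat_lit 29224039442, nat_lit 26313068929, nat_lit 26793010052, nat_lit 28375834382, nat_lit 28835361878], nat_lit 0, nat_lit 0, nat_lit 0, nat_lit 0, nat_lit 0, nat_lit 0, [], [nat_lit 66, nat_lit 40, nat_lit 40, nat_lit 80, nat_lit 67, nat_lit 226, nat_lit 20, nat_lit 10]⟩, ⟨p128_k1, nat_lit 0, nat_lit 0, nat_lit 883, nat_lit 0, nat_lit 1900050, [nat_lit 272288000, nat_lit 628192000, nat_lit 837500000], [], [nat_lit 5055899840, nat_lit 5073306790, nat_lit 5151177084, nat_lit 5198189547, nat_lit 4547554474, nat_lit 4557452768, nat_lit 4605158215, nat_lit 4614399694], nat_lit 1271250, nat_lit 1271250, nat_lit 1271250, nat_lit 1271250, nat_lit 0, nat_lit 1836250, [nat_lit 490000, nat_lit 1100000, nat_lit 1442500], [nat_lit 6, nat_lit 40, nat_lit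 40, nat_lit 80, nat_lit 3, nat_lit 341, nat_lit 75, nat_lit 12]⟩,
 ⟨nat_lit 0, nat_lit 1582, ⟨.ofNat (nat_lit 803773), .ofNat (nat_lit 874821), .ofNat (nat_lit 815118), .ofNat (nat_lit 886479), .ofNat (nat_lit 799976), .ofNat (nat_lit 864997), .ofNat (nat_lit 812163), .ofNat (nat_lit 877498)⟩, ⟨.ofNat (nat_lit 90000), .ofNat (nat_lit 196201), .ofNat (nat_lit 90000), .ofNat (nat_lit 200000), .ofNat (nat_lit 90000), .ofNat (nat_lit 199999), .ofNat (nat_lit 90000), .ofNat (nat_lit 200000)⟩⟩, [⟨nat_lit 13, nat_lit 41, nat_lit 68, nat_lit 100, nat_lit 234620146⟩, ⟨nat_lit 3, nat_lit 100, nat_lit 39, nat_lit 72, nat_lit 214258970⟩, ⟨nat_lit 10, nat_lit 100, nat_lit 45, nat_lit 75, nat_lit 36697347⟩]⟩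
noncomputable def p128_l13 : Lf2 := ⟨nat_lit 0, nat_lit 10, [nat_lit 0, nat_lit 5, nat_lit 5, nat_lit 20], false, nat_lit 20, nat_lit 80, nat_lit 0, nat_lit 288, ⟨nat_lit 344, nat_lit 656, nat_lit 0, nat_lit 8, nat_lit 328, nat_lit 656, nat_lit 50, nat_lit 0, nat_lit 0, nat_lit 0, nat_lit 0, nat_lit 0, nat_lit 39161375, nat_lit 26457940, nat_lit 1380685, nat_lit 3923043, true, false⟩,
 nat_lit 0, nat_lit 0, nat_lit 2303, nat_lit 0, nat_lit 2360, nat_lit 1795, nat_lit 136, nat_lit 0, nat_lit 0, nat_lit 441, nat_lit 0, nat_lit 0, nat_lit 0, nat_lit 0, nat_lit 0, nat_lit 262400, nat_lit 0, nat_lit 0, [(nat_lit 27, [(nat_lit 1, nat_lit 656)])],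
 ⟨p128_k5, nat_lit 0, nat_lit 0, nat_lit 139, nat_lit 0, nat_lit 0, [nat_lit 780297600, nat_lit 1341814400], [], [nat_lit 24006567008, nat_lit 25154582049, nat_lit 29914935313, nat_lit 30921062896, nat_lit 23796329336, nat_lit 24892564328, nat_lit 29321754409, nat_lit 30146775816], nat_lit 0, nat_lit 0, nat_lit 0, nat_lit 0, nat_lit 0, nat_lit 0, [], [nat_lit 66, nat_lit 40, nat_lit 40, nat_lit 80, nat_lit 67, nat_lit 226, nat_lit 20, nat_lit 11]⟩, ⟨p128_k4, nat_lit 0, nat_lit 0, nat_lit 874, nat_lit 0, nat_lit 1855759, [nat_lit 699008000, nat_lit 1612672000, nat_lit 2150000000], [], [nat_lit 11530635108, nat_lit 11613021987, nat_lit 12486165764, nat_lit 12548212205, nat_lit 11476434931, nat_lit 11533097609, nat_lit 12100430974, nat_lit 12140950792], nat_lit 1271250, nat_lit 1271250, nat_lit 1271250, nat_lit 1271250, nat_lit 0, nat_lit 2034000, [nat_lit 490000, nat_lit 1100000, nat_lit 1442500], [nat_lit 6, nat_lit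 40, nat_lit 40, nat_lit 80, nat_lit 3, nat_lit 346, nat_lit 75, nat_lit 12]⟩,
 ⟨nat_lit 0, nat_lit 2237, ⟨.ofNat (nat_lit 712639), .ofNat (nat_lit 921704), .ofNat (nat_lit 723563), .ofNat (nat_lit 933091), .ofNat (nat_lit 718688), .ofNat (nat_lit 902497), .ofNat (nat_lit 730725), .ofNat (nat_lit 914997)⟩, ⟨.ofNat (nat_lit 50000), .ofNat (nat_lit 192306), .ofNat (nat_lit 50000), .ofNat (nat_lit 200000), .ofNat (nat_lit 50000), .ofNat (nat_lit 199999), .ofNat (nat_lit 50000), .ofNat (nat_lit 200000)⟩⟩, [⟨nat_lit 22, nat_lit 80, nat_lit 100, nat_lit 66, nat_lit 102339192⟩]⟩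
noncomputable def p128_l14 : Lf2 := ⟨nat_lit 0, nat_lit 10, [nat_lit 0, nat_lit 5, nat_lit 5, nat_lit 20], true, nat_lit 80, nat_lit 160, nat_lit 0, nat_lit 300, ⟨nat_lit 0, nat_lit 1000, nat_lit 0, nat_lit 8, nat_lit 294, nat_lit 1000, nat_lit 105, nat_lit 0, nat_lit 0, nat_lit 0, nat_lit 0, nat_lit 0, nat_lit 40340561, nat_lit 22304661, nat_lit 4354778, nat_lit 4495964, true, false⟩,
 nat_lit 0, nat_lit 0, nat_lit 0, nat_lit 0, nat_lit 2696, nat_lit 0, nat_lit 117, nat_lit 0, nat_lit 0, nat_lit 0, nat_lit 0, nat_lit 0, nat_lit 0, nat_lit 0, nat_lit 0, nat_lit 309550, nat_lit 0, nat_lit 0, [(nat_lit 24, [(nat_lit 0, nat_lit 603), (nat_lit 1, nat_lit 397)])],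
 ⟨p128_k0, nat_lit 0, nat_lit 0, nat_lit 93, nat_lit 0, nat_lit 0, [nat_lit 796865600, nat_lit 1220362934, nat_lit 1407373600], [], [nat_lit 20139521787, nat_lit 21460482523, nat_lit 24613910198, nat_lit 25755846032, nat_lit 21129417307, nat_lit 22329524715, nat_lit 25305637526, nat_lit 26296759846], nat_lit 0, nat_lit 0, nat_lit 0, nat_lit 0, nat_lit 0, nat_lit 0, [], [nat_lit 35, nat_lit 40, nat_lit 40, nat_lit 80, nat_lit 22, nat_lit 249, nat_lit 40, nat_lit 10]⟩, C1.Rw.none,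
 ⟨nat_lit 2236, nat_lit 3163, ⟨.ofNat (nat_lit 632548), .ofNat (nat_lit 815720), .ofNat (nat_lit 654639), .ofNat (nat_lit 837812), .ofNat (nat_lit 636264), .ofNat (nat_lit 807623), .ofNat (nat_lit 658975), .ofNat (nat_lit 830334)⟩, ⟨.ofNat (nat_lit 184209), .ofNat (nat_lit 306116), .ofNat (nat_lit 200000), .ofNat (nat_lit 350426), .ofNat (nat_lit 192306), .ofNat (nat_lit 306337), .ofNat (nat_lit 200000), .ofNat (nat_lit 351886)⟩⟩, []⟩
noncomputable def p128_l15 : Lf2 := ⟨nat_lit 0, nat_lit 10, [nat_lit 0, nat_lit 5, nat_lit 5, nat_lit 20], false, nat_lit 80, nat_lit 160, nat_lit 0, nat_lit 300, ⟨nat_lit 153, nat_lit 847, nat_lit 0, nat_lit 8, nat_lit 339, nat_lit 847, nat_lit 105, nat_lit 0, nat_lit 0, nat_lit 0, nat_lit 0, nat_lit 0, nat_lit 36461243, nat_lit 26471435, nat_lit 4067322, nat_lit 4585561, true, true⟩,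
 nat_lit 0, nat_lit 0, nat_lit 1438, nat_lit 0, nat_lit 2918, nat_lit 1078, nat_lit 0, nat_lit 0, nat_lit 0, nat_lit 45, nat_lit 0, nat_lit 0, nat_lit 0, nat_lit 0, nat_lit 0, nat_lit 418600, nat_lit 0, nat_lit 0, [(nat_lit 24, [(nat_lit 1, nat_lit 714), (nat_lit 2, nat_lit 133)])],
 ⟨p128_k0, nat_lit 0, nat_lit 0, nat_lit 105, nat_lit 0, nat_lit 0, [nat_lit 944230000, nat_lit 1151359600, nat_lit 1120576000], [], [nat_lit 25290911304, nat_lit 26279704756, nat_lit 26994426272, nat_lit 28141970612, nat_lit 25868952680, nat_lit 26774501252, nat_lit 27430818008, nat_lit 28263914844], nat_lit 0, nat_lit 0, nat_lit 0, nat_lit 0, nat_lit 0, nat_lit 0, [], [nat_lit 35, nat_lit 40, nat_lit 40, nat_lit 80, nat_lit 22, nat_lit 249, nat_lit 40, nat_lit 9]⟩, ⟨p128_k1, nat_lit 0, nat_lit 0, nat_lit 777, nat_lit 0, nat_lit 1656718, [nat_lit 310896000, nat_lit 717264000, nat_lit 956250000], [], [nat_lit 5591315908, nat_lit 5616461724,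 nat_lit 5691899172, nat_lit 5739202878, nat_lit 5048745344, nat_lit 5061958528, nat_lit 5101598080, nat_lit 5112624357], nat_lit 1271250, nat_lit 1271250, nat_lit 1271250, nat_lit 1271250, nat_lit 0, nat_lit 2118750, [nat_lit 490000, nat_lit 1100000, nat_lit 1442500], [nat_lit 6, nat_lit 40, nat_lit 40, nat_lit 80, nat_lit 3, nat_lit 318, nat_lit 75, nat_lit 11]⟩,
 ⟨nat_lit 2236, nat_lit 3163, ⟨.ofNat (nat_lit 815720), .ofNat (nat_lit 876741), .ofNat (nat_lit 826765), .ofNat (nat_lit 887808), .ofNat (nat_lit 807623), .ofNat (nat_lit 864706), .ofNat (nat_lit 818978), .ofNat (nat_lit 876082)⟩, ⟨.ofNat (nat_lit 184209), .ofNat (nat_lit 306116), .ofNat (nat_lit 200000), .ofNat (nat_lit 350426), .ofNat (nat_lit 192306), .ofNat (nat_lit 306337), .ofNat (nat_lit 200000), .ofNat (nat_lit 351886)⟩⟩, [⟨nat_lit 19, nat_lit 87, nat_lit 95, nat_lit 100, nat_lit 17544156⟩, ⟨nat_lit 10, nat_lit 90, nat_lit 74, nat_lit 100, nat_lit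 1782113⟩]⟩
noncomputable def p128_l16 : Lf2 := ⟨nat_lit 0, nat_lit 10, [nat_lit 0, nat_lit 5, nat_lit 5, nat_lit 20], false, nat_lit 80, nat_lit 160, nat_lit 8, nat_lit 288, ⟨nat_lit 156, nat_lit 844, nat_lit 0, nat_lit 9, nat_lit 361, nat_lit 844, nat_lit 105, nat_lit 0, nat_lit 0, nat_lit 0, nat_lit 0, nat_lit 0, nat_lit 34638282, nat_lit 28443656, nat_lit 3918062, nat_lit 4595142, true, true⟩,
 nat_lit 0, nat_lit 0, nat_lit 1428, nat_lit 0, nat_lit 2810, nat_lit 1070, nat_lit 0, nat_lit 0, nat_lit 0, nat_lit 47, nat_lit 0, nat_lit 0, nat_lit 0, nat_lit 0, nat_lit 0, nat_lit 412000, nat_lit 0, nat_lit 0, [(nat_lit 24, [(nat_lit 1, nat_lit 720), (nat_lit 2, nat_lit 124)])],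
 ⟨p128_k0, nat_lit 0, nat_lit 0, nat_lit 116, nat_lit 0, nat_lit 0, [nat_lit 938920000, nat_lit 1171444800, nat_lit 1159187200], [], [nat_lit 27174874240, nat_lit 28069251160, nat_lit 28856639837, nat_lit 29887473650, nat_lit 27649492360, nat_lit 28471876420, nat_lit 29129783669, nat_lit 29907420613], nat_lit 0, nat_lit 0, nat_lit 0, nat_lit 0, nat_lit 0, nat_lit 0, [], [nat_lit 35, nat_lit 40, nat_lit 40, nat_lit 80, nat_lit 22, nat_lit 249, nat_lit 40, nat_lit 9]⟩, ⟨p128_k1, nat_lit 0, nat_lit 0, nat_lit 770, nat_lit 0, nat_lit 1656718, [nat_lit 316992000, nat_lit 731328000, nat_lit 975000000], [], [nat_lit 5959417744, nat_lit 5981801513, nat_lit 6148520930, nat_lit 6263888447, nat_lit 5421217087, nat_lit 5433336780, nat_lit 5490551375, nat_lit 5502708144], nat_lit 1271250, nat_lit 1271250, nat_lit 1271250, nat_lit 1271250, nat_lit 43600, nat_lit 2042100, [nat_lit 490000, nat_lit 1100000, nat_lit 1442500], [nat_lit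 6, nat_lit 40, nat_lit 40, nat_lit 80, nat_lit 3, nat_lit 320, nat_lit 75, nat_lit 11]⟩,
 ⟨nat_lit 2236, nat_lit 3163, ⟨.ofNat (nat_lit 876741), .ofNat (nat_lit 931599), .ofNat (nat_lit 887808), .ofNat (nat_lit 942677), .ofNat (nat_lit 864706), .ofNat (nat_lit 916020), .ofNat (nat_lit 876082), .ofNat (nat_lit 927408)⟩, ⟨.ofNat (nat_lit 184209), .ofNat (nat_lit 306116), .ofNat (nat_lit 200000), .ofNat (nat_lit 350426), .ofNat (nat_lit 192306), .ofNat (nat_lit 306337), .ofNat (nat_lit 200000), .ofNat (nat_lit 351886)⟩⟩, [⟨nat_lit 13, nat_lit 54, nat_lit 57, nat_lit 100, nat_lit 219358721⟩, ⟨nat_lit 22, nat_lit 46, nat_lit 100, nat_lit 92, nat_lit 32349975⟩]⟩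
noncomputable def p128_l17 : Lf2 := ⟨nat_lit 0, nat_lit 10, [nat_lit 0, nat_lit 5, nat_lit 5, nat_lit 20], false, nat_lit 80, nat_lit 160, nat_lit 0, nat_lit 288, ⟨nat_lit 663, nat_lit 337, nat_lit 0, nat_lit 8, nat_lit 355, nat_lit 337, nat_lit 105, nat_lit 0, nat_lit 0, nat_lit 0, nat_lit 0, nat_lit 0, nat_lit 35130015, nat_lit 27910839, nat_lit 3959146, nat_lit 4594562, true, true⟩,
 nat_lit 0, nat_lit 0, nat_lit 4164, nat_lit 0, nat_lit 3400, nat_lit 3245, nat_lit 109, nat_lit 0, nat_lit 0, nat_lit 1095, nat_lit 0, nat_lit 0, nat_lit 0, nat_lit 0, nat_lit 0, nat_lit 337000, nat_lit 0, nat_lit 0, [(nat_lit 24, [(nat_lit 2, nat_lit 337)])],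
 ⟨p128_k0, nat_lit 0, nat_lit 0, nat_lit 118, nat_lit 0, nat_lit 0, [nat_lit 1116610000, nat_lit 2016632400, nat_lit 2403409600], [], [nat_lit 26399715075, nat_lit 27452958675, nat_lit 30242638400, nat_lit 31341269600, nat_lit 26821603875, nat_lit 27782849475, nat_lit 30225231075, nat_lit 31038206800], nat_lit 0, nat_lit 0, nat_lit 0, nat_lit 0, nat_lit 0, nat_lit 0, [], [nat_lit 35, nat_lit 40, nat_lit 40, nat_lit 80, nat_lit 22, nat_lit 249, nat_lit 40, nat_lit 9]⟩, ⟨p128_k4, nat_lit 0, nat_lit 0, nat_lit 766, nat_lit 0, nat_lit 1631301, [nat_lit 1347216000, nat_lit 3108144000, nat_lit 4143750000], [], [nat_lit 22497888518, nat_lit 22659854583, nat_lit 23856452188, nat_lit 24009636977, nat_lit 22554938553, nat_lit 22680095403, nat_lit 23593950263, nat_lit 23697577794], nat_lit 1271250, nat_lit 1271250, nat_lit 1271250, nat_lit 1271250, nat_lit 0, nat_lit 2034000, [nat_lit 490000, nat_lit 1100000, nat_lit 1442500],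 [nat_lit 6, nat_lit 40, nat_lit 40, nat_lit 80, nat_lit 3, nat_lit 320, nat_lit 75, nat_lit 11]⟩,
 ⟨nat_lit 2236, nat_lit 3163, ⟨.ofNat (nat_lit 826765), .ofNat (nat_lit 948772), .ofNat (nat_lit 837812), .ofNat (nat_lit 959850), .ofNat (nat_lit 818978), .ofNat (nat_lit 933109), .ofNat (nat_lit 830334), .ofNat (nat_lit 944496)⟩, ⟨.ofNat (nat_lit 184209), .ofNat (nat_lit 306116), .ofNat (nat_lit 200000), .ofNat (nat_lit 350426), .ofNat (nat_lit 192306), .ofNat (nat_lit 306337), .ofNat (nat_lit 200000), .ofNat (nat_lit 351886)⟩⟩, [⟨nat_lit 13, nat_lit 57, nat_lit 53, nat_lit 100, nat_lit 6566378⟩, ⟨nat_lit 19, nat_lit 77, nat_lit 100, nat_lit 91, nat_lit 160347620⟩]⟩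
noncomputable def p128_l18 : Lf2 := ⟨nat_lit 0, nat_lit 10, [nat_lit 0, nat_lit 5, nat_lit 5, nat_lit 20], true, nat_lit 80, nat_lit 160, nat_lit 0, nat_lit 300, ⟨nat_lit 0, nat_lit 1000, nat_lit 0, nat_lit 8, nat_lit 301, nat_lit 1000, nat_lit 105, nat_lit 0, nat_lit 0, nat_lit 0, nat_lit 0, nat_lit 0, nat_lit 39711682, nat_lit 22948015, nat_lit 4340303, nat_lit 4521620, true, false⟩,
 nat_lit 0, nat_lit 0, nat_lit 0, nat_lit 0, nat_lit 2396, nat_lit 0, nat_lit 0, nat_lit 0, nat_lit 0, nat_lit 0, nat_lit 0, nat_lit 0, nat_lit 0, nat_lit 0, nat_lit 0, nat_lit 335050, nat_lit 0, nat_lit 0, [(nat_lit 27, [(nat_lit 0, nat_lit 433), (nat_lit 1, nat_lit 567)])],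
 ⟨p128_k5, nat_lit 0, nat_lit 0, nat_lit 83, nat_lit 0, nat_lit 0, [nat_lit 733625601, nat_lit 635467200], [], [nat_lit 22291672854, nat_lit 23476618219, nat_lit 25367916715, nat_lit 26469016336, nat_lit 23269306222, nat_lit 24349994120, nat_lit 26104398307, nat_lit 27032881475], nat_lit 0, nat_lit 0, nat_lit 0, nat_lit 0, nat_lit 0, nat_lit 0, [], [nat_lit 66, nat_lit 40, nat_lit 40, nat_lit 80, nat_lit 67, nat_lit 249, nat_lit 40, nat_lit 12]⟩, C1.Rw.none,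
 ⟨nat_lit 0, nat_lit 2237, ⟨.ofNat (nat_lit 684059), .ofNat (nat_lit 807594), .ofNat (nat_lit 694982), .ofNat (nat_lit 818584), .ofNat (nat_lit 691099), .ofNat (nat_lit 799902), .ofNat (nat_lit 703135), .ofNat (nat_lit 812004)⟩, ⟨.ofNat (nat_lit 192306), .ofNat (nat_lit 306334), .ofNat (nat_lit 200000), .ofNat (nat_lit 351885), .ofNat (nat_lit 199999), .ofNat (nat_lit 299996), .ofNat (nat_lit 200000), .ofNat (nat_lit 349998)⟩⟩, []⟩
noncomputable def p128_l19 : Lf2 := ⟨nat_lit 0, nat_lit 10, [nat_lit 0, nat_lit 5, nat_lit 5, nat_lit 20], false, nat_lit 80, nat_lit 160, nat_lit 0, nat_lit 300, ⟨nat_lit 131, nat_lit 869, nat_lit 0, nat_lit 8, nat_lit 342, nat_lit 869, nat_lit 105, nat_lit 0, nat_lit 0, nat_lit 0, nat_lit 0, nat_lit 0, nat_lit 36129476, nat_lit 26791300, nat_lit 4079224, nat_lit 4595615, true, true⟩,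
 nat_lit 0, nat_lit 0, nat_lit 1206, nat_lit 0, nat_lit 2387, nat_lit 904, nat_lit 0, nat_lit 0, nat_lit 0, nat_lit 38, nat_lit 0, nat_lit 0, nat_lit 0, nat_lit 0, nat_lit 0, nat_lit 340550, nat_lit 0, nat_lit 0, [(nat_lit 27, [(nat_lit 0, nat_lit 47), (nat_lit 1, nat_lit 822)])],
 ⟨p128_k5, nat_lit 0, nat_lit 0, nat_lit 102, nat_lit 0, nat_lit 0, [nat_lit 733002801, nat_lit 745610400], [], [nat_lit 25485483817, nat_lit 25990569726, nat_lit 28403554616, nat_lit 28905617498, nat_lit 26225009191, nat_lit 26688636489, nat_lit 28750413441, nat_lit 29156154248], nat_lit 0, nat_lit 0, nat_lit 0, nat_lit 0, nat_lit 0, nat_lit 0, [], [nat_lit 66, nat_lit 40, nat_lit 40, nat_lit 80, nat_lit 67, nat_lit 249, nat_lit 40, nat_lit 12]⟩, ⟨p128_k1, nat_lit 0, nat_lit 0, nat_lit 832, nat_lit 0, nat_lit 1776047, [nat_lit 266192000, nat_lit 614128000, nat_lit 818750000], [], [nat_lit 4922494908, nat_lit 4944041700, nat_lit 5091346506,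 nat_lit 5193983701, nat_lit 4478086596, nat_lit 4489573612, nat_lit 4560245343, nat_lit 4568756734], nat_lit 1271250, nat_lit 1271250, nat_lit 1271250, nat_lit 1271250, nat_lit 0, nat_lit 2118750, [nat_lit 490000, nat_lit 1100000, nat_lit 1442500], [nat_lit 6, nat_lit 40, nat_lit 40, nat_lit 80, nat_lit 3, nat_lit 335, nat_lit 75, nat_lit 12]⟩,
 ⟨nat_lit 1581, nat_lit 2237, ⟨.ofNat (nat_lit 807675), .ofNat (nat_lit 898916), .ofNat (nat_lit 819040), .ofNat (nat_lit 910303), .ofNat (nat_lit 803781), .ofNat (nat_lit 891213), .ofNat (nat_lit 815415), .ofNat (nat_lit 902871)⟩, ⟨.ofNat (nat_lit 192306), .ofNat (nat_lit 306337), .ofNat (nat_lit 200000), .ofNat (nat_lit 351886), .ofNat (nat_lit 196201), .ofNat (nat_lit 305473), .ofNat (nat_lit 200000), .ofNat (nat_lit 352103)⟩⟩, [⟨nat_lit 13, nat_lit 49, nat_lit 62, nat_lit 100, nat_lit 220332370⟩, ⟨nat_lit 10, nat_lit 88, nat_lit 66, nat_lit 100, nat_lit 19290803⟩]⟩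
noncomputable def p128_l20 : Lf2 := ⟨nat_lit 0, nat_lit 10, [nat_lit 0, nat_lit 5, nat_lit 5, nat_lit 20], false, nat_lit 80, nat_lit 160, nat_lit 0, nat_lit 300, ⟨nat_lit 102, nat_lit 898, nat_lit 0, nat_lit 8, nat_lit 337, nat_lit 898, nat_lit 105, nat_lit 0, nat_lit 0, nat_lit 0, nat_lit 0, nat_lit 0, nat_lit 36603679, nat_lit 26280518, nat_lit 4115803, nat_lit 4590426, true, true⟩,
 nat_lit 0, nat_lit 0, nat_lit 968, nat_lit 0, nat_lit 2601, nat_lit 726, nat_lit 37, nat_lit 0, nat_lit 0, nat_lit 29, nat_lit 0, nat_lit 0, nat_lit 0, nat_lit 0, nat_lit 0, nat_lit 224500, nat_lit 0, nat_lit 0, [(nat_lit 27, [(nat_lit 0, nat_lit 898)])],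
 ⟨p128_k7, nat_lit 0, nat_lit 0, nat_lit 102, nat_lit 0, nat_lit 0, [nat_lit 796834401, nat_lit 1271198400], [], [nat_lit 26256549132, nat_lit 26824797116, nat_lit 28733608470, nat_lit 29268014889, nat_lit 26880025981, nat_lit 27358259635, nat_lit 28917926332, nat_lit 29410055264], nat_lit 0, nat_lit 0, nat_lit 0, nat_lit 0, nat_lit 0, nat_lit 0, [], [nat_lit 66, nat_lit 40, nat_lit 40, nat_lit 80, nat_lit 67, nat_lit 249, nat_lit 40, nat_lit 12]⟩, ⟨p128_k1, nat_lit 0, nat_lit 0, nat_lit 883, nat_lit 0, nat_lit 1900050, [nat_lit 207264000, nat_lit 478176000, nat_lit 637500000], [], [nat_lit 3809038544, nat_lit 3822259442, nat_lit 3888623028, nat_lit 3974065215, nat_lit 3420421916, nat_lit 3426717371, nat_lit 3456379568, nat_lit 3479021314], nat_lit 1271250, nat_lit 1271250, nat_lit 1271250, nat_lit 1271250, nat_lit 0, nat_lit 2118750, [nat_lit 490000, nat_lit 1100000, nat_lit 1442500], [nat_lit 6, nat_lit 40, nat_lit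 40, nat_lit 80, nat_lit 3, nat_lit 346, nat_lit 75, nat_lit 12]⟩,
 ⟨nat_lit 0, nat_lit 1582, ⟨.ofNat (nat_lit 803773), .ofNat (nat_lit 874821), .ofNat (nat_lit 815118), .ofNat (nat_lit 886479), .ofNat (nat_lit 799976), .ofNat (nat_lit 864997), .ofNat (nat_lit 812163), .ofNat (nat_lit 877498)⟩, ⟨.ofNat (nat_lit 196201), .ofNat (nat_lit 305469), .ofNat (nat_lit 200000), .ofNat (nat_lit 352101), .ofNat (nat_lit 199999), .ofNat (nat_lit 299995), .ofNat (nat_lit 200000), .ofNat (nat_lit 349997)⟩⟩, [⟨nat_lit 13, nat_lit 28, nat_lit 80, nat_lit 100, nat_lit 122909333⟩, ⟨nat_lit 13, nat_lit 41, nat_lit 68, nat_lit 100, nat_lit 211091363⟩, ⟨nat_lit 10, nat_lit 89, nat_lit 70, nat_lit 100, nat_lit 14645434⟩]⟩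
noncomputable def p128_l21 : Lf2 := ⟨nat_lit 0, nat_lit 10, [nat_lit 0, nat_lit 5, nat_lit 5, nat_lit 20], false, nat_lit 80, nat_lit 160, nat_lit 0, nat_lit 288, ⟨nat_lit 542, nat_lit 458, nat_lit 0, nat_lit 8, nat_lit 329, nat_lit 458, nat_lit 105, nat_lit 0, nat_lit 0, nat_lit 0, nat_lit 0, nat_lit 0, nat_lit 37236621, nat_lit 25595904, nat_lit 4167475, nat_lit 4581976, true, false⟩,
 nat_lit 0, nat_lit 0, nat_lit 3643, nat_lit 0, nat_lit 2646, nat_lit 2839, nat_lit 222, nat_lit 0, nat_lit 0, nat_lit 964, nat_lit 0, nat_lit 0, nat_lit 0, nat_lit 0, nat_lit 0, nat_lit 183200, nat_lit 0, nat_lit 0, [(nat_lit 27, [(nat_lit 1, nat_lit 458)])],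
 ⟨p128_k5, nat_lit 0, nat_lit 0, nat_lit 105, nat_lit 0, nat_lit 0, [nat_lit 827896800, nat_lit 1927419200], [], [nat_lit 23267899048, nat_lit 23857615715, nat_lit 29337521316, nat_lit 29847276825, nat_lit 24166500826, nat_lit 24703947044, nat_lit 29526249724, nat_lit 29930725779], nat_lit 0, nat_lit 0, nat_lit 0, nat_lit 0, nat_lit 0, nat_lit 0, [], [nat_lit 66, nat_lit 40, nat_lit 40, nat_lit 80, nat_lit 67, nat_lit 249, nat_lit 40, nat_lit 12]⟩, ⟨p128_k4, nat_lit 0, nat_lit 0, nat_lit 828, nat_lit 0, nat_lit 1741433, [nat_lit 1101344000, nat_lit 2540896000, nat_lit 3387500000], [], [nat_lit 16531414285, nat_lit 16686615385, nat_lit 19436196233, nat_lit 19790618391, nat_lit 16784775003, nat_lit 16895148321, nat_lit 18022422099, nat_lit 18102390320], nat_lit 1271250, nat_lit 1271250, nat_lit 1271250, nat_lit 1271250, nat_lit 0, nat_lit 2034000, [nat_lit 490000, nat_lit 1100000, nat_lit 1442500], [nat_lit 6, nat_lit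 40, nat_lit 40, nat_lit 80, nat_lit 3, nat_lit 335, nat_lit 75, nat_lit 12]⟩,
 ⟨nat_lit 1581, nat_lit 2237, ⟨.ofNat (nat_lit 716258), .ofNat (nat_lit 921706), .ofNat (nat_lit 727622), .ofNat (nat_lit 933093), .ofNat (nat_lit 716917), .ofNat (nat_lit 913798), .ofNat (nat_lit 728552), .ofNat (nat_lit 925455)⟩, ⟨.ofNat (nat_lit 192306), .ofNat (nat_lit 306337), .ofNat (nat_lit 200000), .ofNat (nat_lit 351886), .ofNat (nat_lit 196201), .ofNat (nat_lit 305473), .ofNat (nat_lit 200000), .ofNat (nat_lit 352103)⟩⟩, [⟨nat_lit 13, nat_lit 41, nat_lit 68, nat_lit 100, nat_lit 24263710⟩, ⟨nat_lit 4, nat_lit 100, nat_lit 38, nat_lit 87, nat_lit 255876747⟩, ⟨nat_lit 7, nat_lit 100, nat_lit 77, nat_lit 91, nat_lit 95226901⟩]⟩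
noncomputable def p128_l22 : Lf2 := ⟨nat_lit 0, nat_lit 10, [nat_lit 0, nat_lit 5, nat_lit 5, nat_lit 20], false, nat_lit 80, nat_lit 160, nat_lit 0, nat_lit 288, ⟨nat_lit 335, nat_lit 665, nat_lit 0, nat_lit 8, nat_lit 332, nat_lit 665, nat_lit 105, nat_lit 0, nat_lit 0, nat_lit 0, nat_lit 0, nat_lit 0, nat_lit 37016204, nat_lit 25835262, nat_lit 4148534, nat_lit 4585020, true, false⟩,
 nat_lit 0, nat_lit 0, nat_lit 2323, nat_lit 0, nat_lit 2546, nat_lit 1810, nat_lit 75, nat_lit 0, nat_lit 0, nat_lit 478, nat_lit 0, nat_lit 0, nat_lit 0, nat_lit 0, nat_lit 0, nat_lit 266000, nat_lit 0, nat_lit 0, [(nat_lit 27, [(nat_lit 1, nat_lit 665)])],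
 ⟨p128_k7, nat_lit 0, nat_lit 0, nat_lit 105, nat_lit 0, nat_lit 0, [nat_lit 778134000, nat_lit 1315196000], [], [nat_lit 24638964866, nat_lit 25190326532, nat_lit 29029781069, nat_lit 29548959304, nat_lit 25439238498, nat_lit 25943102780, nat_lit 29257013578, nat_lit 29691391484], nat_lit 0, nat_lit 0, nat_lit 0, nat_lit 0, nat_lit 0, nat_lit 0, [], [nat_lit 66, nat_lit 40, nat_lit 40, nat_lit 80, nat_lit 67, nat_lit 249, nat_lit 40, nat_lit 12]⟩, ⟨p128_k4, nat_lit 0, nat_lit 0, nat_lit 869, nat_lit 0, nat_lit 1855759, [nat_lit 680720000, nat_lit 1570480000, nat_lit 2093750000], [], [nat_lit 10682876088, nat_lit 10761850699, nat_lit 11807632148, nat_lit 12040787345, nat_lit 10528743620, nat_lit 10580923474, nat_lit 10984877829, nat_lit 11025327323], nat_lit 1271250, nat_lit 1271250, nat_lit 1271250, nat_lit 1271250, nat_lit 0, nat_lit 2034000, [nat_lit 490000, nat_lit 1100000, nat_lit 1442500], [nat_lit 6, nat_lit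 40, nat_lit 40, nat_lit 80, nat_lit 3, nat_lit 344, nat_lit 75, nat_lit 12]⟩,
 ⟨nat_lit 0, nat_lit 1582, ⟨.ofNat (nat_lit 753577), .ofNat (nat_lit 897406), .ofNat (nat_lit 764906), .ofNat (nat_lit 909064), .ofNat (nat_lit 755721), .ofNat (nat_lit 887498), .ofNat (nat_lit 767892), .ofNat (nat_lit 899998)⟩, ⟨.ofNat (nat_lit 196201), .ofNat (nat_lit 305469), .ofNat (nat_lit 200000), .ofNat (nat_lit 352101), .ofNat (nat_lit 199999), .ofNat (nat_lit 299995), .ofNat (nat_lit 200000), .ofNat (nat_lit 349997)⟩⟩, [⟨nat_lit 13, nat_lit 30, nat_lit 77, nat_lit 100, nat_lit 237437334⟩, ⟨nat_lit 16, nat_lit 23, nat_lit 100, nat_lit 91, nat_lit 198331867⟩, ⟨nat_lit 7, nat_lit 100, nat_lit 77, nat_lit 91, nat_lit 59323460⟩]⟩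
noncomputable def b_V_900_800_20_0 : St := ⟨true, nat_lit 0, nat_lit 1, nat_lit 1, nat_lit 120, nat_lit 360, nat_lit 400, nat_lit 320, nat_lit 340, nat_lit 200, nat_lit 400, nat_lit 80, nat_lit 120, nat_lit 8, nat_lit 160, nat_lit 0, nat_lit 300, nat_lit 0, nat_lit 40, nat_lit 0, nat_lit 0, nat_lit 0, nat_lit 0⟩
theorem d_V_900_800_20_0 (h : EB TB.env) : Dead b_V_900_800_20_0 := chkB_sound0 h (T :=
(.spl (nat_lit 4) (nat_lit 80)
(.spl (nat_lit 0) (nat_lit 380)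
(.spl (nat_lit 2) (nat_lit 320)
(.spl (nat_lit 0) (nat_lit 370)
(.leaf p128_l0)
(.trZ (nat_lit 0) (nat_lit 80) (nat_lit 53) (nat_lit 100) (nat_lit 216) (.trZ (nat_lit 3) (nat_lit 100) (nat_lit 66) (nat_lit 45) (nat_lit 12) (.leaf p128_l1))))
(.trX (nat_lit 22) (nat_lit 83) (nat_lit 100) (nat_lit 83) (nat_lit 260) (.spl (nat_lit 1) (nat_lit 330)
(.trX (nat_lit 13) (nat_lit 79) (nat_lit 29) (nat_lit 100) (nat_lit 396) (.spl (nat_lit 2) (nat_lit 360)
(.spl (nat_lit 0) (nat_lit 370)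
(.leaf p128_l2)
(.trZ (nat_lit 3) (nat_lit 100) (nat_lit 66) (nat_lit 45) (nat_lit 12) (.leaf p128_l3)))
(.trX (nat_lit 22) (nat_lit 60) (nat_lit 100) (nat_lit 80) (nat_lit 200) (.spl (nat_lit 0) (nat_lit 370)
(.spl (nat_lit 0) (nat_lit 365)
(.leaf p128_l4)
(.leaf p128_l5))
(.trX (nat_lit 13) (nat_lit 69) (nat_lit 40) (nat_lit 100) (nat_lit 392) (.trZ (nat_lit 3) (nat_lit 100) (nat_lit 66) (nat_lit 45) (nat_lit 12) (.leaf p128_l6)))))))
(.leaf p128_l7))))
(.trZ (nat_lit 0) (nat_lit 82) (nat_lit 44) (nat_lit 100) (nat_lit 236) (.trX (nat_lit 13) (nat_lit 61) (nat_lit 47) (nat_lit 100) (nat_lit 392) (.trZ (nat_lit 3) (nat_lit 100) (nat_lit 54) (nat_lit 57) (nat_lit 20) (.spl (nat_lit 1) (nat_lit 330)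
(.trX (nat_lit 13) (nat_lit 57) (nat_lit 53) (nat_lit 100) (nat_lit 384) (.spl (nat_lit 0) (nat_lit 390)
(.spl (nat_lit 2) (nat_lit 320)
(.leaf p128_l8)
(.trX (nat_lit 22) (nat_lit 83) (nat_lit 100) (nat_lit 83) (nat_lit 260) (.spl (nat_lit 1) (nat_lit 325)
(.leaf p128_l9)
(.leaf p128_l10))))
(.trZ (nat_lit 0) (nat_lit 84) (nat_lit 33) (nat_lit 100) (nat_lit 264) (.trX (nat_lit 13) (nat_lit 41) (nat_lit 68) (nat_lit 100) (nat_lit 372) (.trZ (nat_lit 3) (nat_lit 100) (nat_lit 39) (nat_lit 72) (nat_lit 36) (.spl (nat_lit 2) (nat_lit 320)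
(.leaf p128_l11)
(.trX (nat_lit 22) (nat_lit 83) (nat_lit 100) (nat_lit 83) (nat_lit 260) (.leaf p128_l12))))))))
(.trZ (nat_lit 0) (nat_lit 79) (nat_lit 45) (nat_lit 100) (nat_lit 248) (.trX (nat_lit 19) (nat_lit 83) (nat_lit 98) (nat_lit 100) (nat_lit 288) (.leaf p128_l13))))))))
(.spl (nat_lit 0) (nat_lit 380)
(.spl (nat_lit 2) (nat_lit 320)
(.leaf p128_l14)
(.spl (nat_lit 1) (nat_lit 330)
(.trX (nat_lit 13) (nat_lit 79) (nat_lit 29) (nat_lit 100) (nat_lit 396) (.spl (nat_lit 2) (nat_lit 360)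
(.leaf p128_l15)
(.trZ (nat_lit 9) (nat_lit 100) (nat_lit 75) (nat_lit 35) (nat_lit 8) (.trX (nat_lit 22) (nat_lit 61) (nat_lit 92) (nat_lit 100) (nat_lit 288) (.leaf p128_l16)))))
(.trX (nat_lit 19) (nat_lit 83) (nat_lit 98) (nat_lit 100) (nat_lit 288) (.leaf p128_l17))))
(.trZ (nat_lit 0) (nat_lit 82) (nat_lit 44) (nat_lit 100) (nat_lit 236) (.trX (nat_lit 13) (nat_lit 61) (nat_lit 47) (nat_lit 100) (nat_lit 392) (.spl (nat_lit 1) (nat_lit 330)
(.trX (nat_lit 13) (nat_lit 57) (nat_lit 53) (nat_lit 100) (nat_lit 384) (.spl (nat_lit 2) (nat_lit 320)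
(.leaf p128_l18)
(.spl (nat_lit 0) (nat_lit 390)
(.leaf p128_l19)
(.trX (nat_lit 13) (nat_lit 41) (nat_lit 68) (nat_lit 100) (nat_lit 372) (.leaf p128_l20)))))
(.trZ (nat_lit 0) (nat_lit 79) (nat_lit 45) (nat_lit 100) (nat_lit 248) (.trX (nat_lit 19) (nat_lit 83) (nat_lit 98) (nat_lit 100) (nat_lit 288) (.spl (nat_lit 0) (nat_lit 390)
(.leaf p128_l21)
(.trZ (nat_lit 0) (nat_lit 82) (nat_lit 34) (nat_lit 100) (nat_lit 276) (.trX (nat_lit 13) (nat_lit 44) (nat_lit 64) (nat_lit 100) (nat_lit 380) (.leaf p128_l22)))))))))))) (by decide +kernel)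
noncomputable def p128_l23 : Lf2 := ⟨nat_lit 0, nat_lit 10, [nat_lit 0, nat_lit 5, nat_lit 5, nat_lit 20], false, nat_lit 160, nat_lit 248, nat_lit 0, nat_lit 300, ⟨nat_lit 1000, nat_lit 0, nat_lit 0, nat_lit 0, nat_lit 0, nat_lit 0, nat_lit 0, nat_lit 0, nat_lit 0, nat_lit 0, nat_lit 0, nat_lit 0, nat_lit 0, nat_lit 0, nat_lit 0, nat_lit 0, false, false⟩,
 nat_lit 0, nat_lit 0, nat_lit 1227, nat_lit 0, nat_lit 6370, nat_lit 919, nat_lit 0, nat_lit 0, nat_lit 0, nat_lit 180, nat_lit 0, nat_lit 399, nat_lit 0, nat_lit 0, nat_lit 0, nat_lit 0, nat_lit 0, nat_lit 0, [],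
 ⟨p128_k0, nat_lit 0, nat_lit 0, nat_lit 98, nat_lit 0, nat_lit 0, [nat_lit 938000000, nat_lit 3282000000, nat_lit 4688000000], [], [nat_lit 22515460760, nat_lit 26806540880, nat_lit 34357133200, nat_lit 37077511640, nat_lit 24984760724, nat_lit 28893604233, nat_lit 35100086181, nat_lit 37421039352], nat_lit 0, nat_lit 0, nat_lit 0, nat_lit 0, nat_lit 0, nat_lit 0, [], [nat_lit 35, nat_lit 40, nat_lit 40, nat_lit 80, nat_lit 22, nat_lit 203, nat_lit 0, nat_lit 7]⟩, ⟨p128_k1, nat_lit 0, nat_lit 0, nat_lit 0, nat_lit 0, nat_lit 1959299, [nat_lit 2032000000, nat_lit 4688000000, nat_lit 6250000000], [], [nat_lit 17504493796, nat_lit 18073880720, nat_lit 23845065764, nat_lit 24600760056, nat_lit 22207170690, nat_lit 22836868673, nat_lit 28280181342, nat_lit 28867018400], nat_lit 1271250, nat_lit 1271250, nat_lit 1271250, nat_lit 1271250, nat_lit 0, nat_lit 2118750, [nat_lit 490000, nat_lit 1100000, nat_lit 1442500],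 [nat_lit 6, nat_lit 40, nat_lit 40, nat_lit 80]⟩,
 zbF0, [⟨nat_lit 16, nat_lit 62, nat_lit 100, nat_lit 94, nat_lit 440590241⟩, ⟨nat_lit 19, nat_lit 87, nat_lit 95, nat_lit 100, nat_lit 59890184⟩]⟩
noncomputable def p128_l24 : Lf2 := ⟨nat_lit 0, nat_lit 10, [nat_lit 0, nat_lit 5, nat_lit 5, nat_lit 20], false, nat_lit 160, nat_lit 248, nat_lit 0, nat_lit 300, ⟨nat_lit 89, nat_lit 911, nat_lit 0, nat_lit 8, nat_lit 294, nat_lit 911, nat_lit 157, nat_lit 0, nat_lit 0, nat_lit 0, nat_lit 0, nat_lit 0, nat_lit 37876241, nat_lit 21290376, nat_lit 7833383, nat_lit 5029796, true, false⟩,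
 nat_lit 0, nat_lit 0, nat_lit 935, nat_lit 0, nat_lit 3047, nat_lit 701, nat_lit 0, nat_lit 0, nat_lit 0, nat_lit 33, nat_lit 0, nat_lit 0, nat_lit 0, nat_lit 0, nat_lit 0, nat_lit 227750, nat_lit 0, nat_lit 0, [(nat_lit 24, [(nat_lit 0, nat_lit 911)])],
 ⟨p128_k0, nat_lit 0, nat_lit 0, nat_lit 59, nat_lit 0, nat_lit 0, [nat_lit 778757201, nat_lit 1537617201, nat_lit 1971033600], [], [nat_lit 20917603653, nat_lit 22285356721, nat_lit 25413539225, nat_lit 26526588418, nat_lit 23373413812, nat_lit 24556939021, nat_lit 27242906429, nat_lit 28277522549], nat_lit 0, nat_lit 0, nat_lit 0, nat_lit 0, nat_lit 0, nat_lit 0, [], [nat_lit 35, nat_lit 40, nat_lit 40, nat_lit 80, nat_lit 22, nat_lit 203, nat_lit 0, nat_lit 7]⟩, ⟨p128_k1, nat_lit 0, nat_lit 0, nat_lit 830, nat_lit 0, nat_lit 1722006, [nat_lit 180848000, nat_lit 417232000, nat_lit 556250000], [], [nat_lit 2603425728, nat_lit 2647058214, nat_lit 2714986144, nat_lit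 2749773666, nat_lit 2326603918, nat_lit 2353137227, nat_lit 2354164627, nat_lit 2373579186], nat_lit 1271250, nat_lit 1271250, nat_lit 1271250, nat_lit 1271250, nat_lit 0, nat_lit 2118750, [nat_lit 490000, nat_lit 1100000, nat_lit 1442500], [nat_lit 6, nat_lit 40, nat_lit 40, nat_lit 80, nat_lit 3, nat_lit 328, nat_lit 75, nat_lit 12]⟩,
 ⟨nat_lit 2236, nat_lit 3163, ⟨.ofNat (nat_lit 632548), .ofNat (nat_lit 815720), .ofNat (nat_lit 654639), .ofNat (nat_lit 837812), .ofNat (nat_lit 636264), .ofNat (nat_lit 807623), .ofNat (nat_lit 658975), .ofNat (nat_lit 830334)⟩, ⟨.ofNat (nat_lit 306116), .ofNat (nat_lit 440213), .ofNat (nat_lit 350426), .ofNat (nat_lit 484523), .ofNat (nat_lit 306337), .ofNat (nat_lit 431772), .ofNat (nat_lit 351886), .ofNat (nat_lit 477320)⟩⟩, [⟨nat_lit 16, nat_lit 62, nat_lit 100, nat_lit 94, nat_lit 223533613⟩, ⟨nat_lit 7, nat_lit 100, nat_lit 81, nat_lit 92, nat_lit 13142535⟩]⟩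
noncomputable def p128_l25 : Lf2 := ⟨nat_lit 0, nat_lit 10, [nat_lit 0, nat_lit 5, nat_lit 5, nat_lit 20], true, nat_lit 160, nat_lit 208, nat_lit 0, nat_lit 300, ⟨nat_lit 0, nat_lit 1000, nat_lit 0, nat_lit 8, nat_lit 303, nat_lit 1000, nat_lit 144, nat_lit 0, nat_lit 0, nat_lit 0, nat_lit 0, nat_lit 0, nat_lit 37805174, nat_lit 22404570, nat_lit 6790256, nat_lit 4926460, true, false⟩,
 nat_lit 0, nat_lit 0, nat_lit 0, nat_lit 0, nat_lit 2655, nat_lit 0, nat_lit 0, nat_lit 0, nat_lit 0, nat_lit 0, nat_lit 0, nat_lit 0, nat_lit 0, nat_lit 0, nat_lit 0, nat_lit 250000, nat_lit 0, nat_lit 0, [(nat_lit 27, [(nat_lit 0, nat_lit 1000)])],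
 ⟨p128_k5, nat_lit 0, nat_lit 0, nat_lit 66, nat_lit 0, nat_lit 0, [nat_lit 780800001, nat_lit 1042800000], [], [nat_lit 23176916037, nat_lit 24331443133, nat_lit 26125936912, nat_lit 27220467320, nat_lit 24283970342, nat_lit 25359914331, nat_lit 27033966730, nat_lit 28079786577], nat_lit 0, nat_lit 0, nat_lit 0, nat_lit 0, nat_lit 0, nat_lit 0, [], [nat_lit 66, nat_lit 40, nat_lit 40, nat_lit 80, nat_lit 67, nat_lit 203, nat_lit 0, nat_lit 9]⟩, C1.Rw.none,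
 ⟨nat_lit 0, nat_lit 2237, ⟨.ofNat (nat_lit 684059), .ofNat (nat_lit 807594), .ofNat (nat_lit 705906), .ofNat (nat_lit 829507), .ofNat (nat_lit 691099), .ofNat (nat_lit 799902), .ofNat (nat_lit 715172), .ofNat (nat_lit 824041)⟩, ⟨.ofNat (nat_lit 306334), .ofNat (nat_lit 374750), .ofNat (nat_lit 351885), .ofNat (nat_lit 420300), .ofNat (nat_lit 299996), .ofNat (nat_lit 359993), .ofNat (nat_lit 349998), .ofNat (nat_lit 409994)⟩⟩, [⟨nat_lit 16, nat_lit 44, nat_lit 100, nat_lit 92, nat_lit 285201956⟩]⟩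
noncomputable def p128_l26 : Lf2 := ⟨nat_lit 0, nat_lit 5, [nat_lit 4, nat_lit 5, nat_lit 5, nat_lit 20], false, nat_lit 160, nat_lit 248, nat_lit 16, nat_lit 300, ⟨nat_lit 89, nat_lit 911, nat_lit 0, nat_lit 8, nat_lit 338, nat_lit 911, nat_lit 157, nat_lit 0, nat_lit 0, nat_lit 0, nat_lit 0, nat_lit 0, nat_lit 34543107, nat_lit 25132377, nat_lit 7324516, nat_lit 5095569, true, true⟩,
 nat_lit 0, nat_lit 0, nat_lit 903, nat_lit 0, nat_lit 2812, nat_lit 677, nat_lit 0, nat_lit 0, nat_lit 0, nat_lit 31, nat_lit 0, nat_lit 0, nat_lit 0, nat_lit 0, nat_lit 0, nat_lit 278450, nat_lit 0, nat_lit 0, [(nat_lit 24, [(nat_lit 0, nat_lit 573), (nat_lit 1, nat_lit 338)])],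
 ⟨p128_k8, nat_lit 0, nat_lit 0, nat_lit 68, nat_lit 0, nat_lit 0, [nat_lit 807419600, nat_lit 1407014000], [], [nat_lit 25387101824, nat_lit 26394541864, nat_lit 27126078160, nat_lit 28124497496, nat_lit 27223895434, nat_lit 28110051285, nat_lit 28753353020, nat_lit 29669748554], nat_lit 0, nat_lit 0, nat_lit 0, nat_lit 0, nat_lit 0, nat_lit 0, [], [nat_lit 66, nat_lit 40, nat_lit 40, nat_lit 80, nat_lit 67, nat_lit 203, nat_lit 0, nat_lit 8]⟩, ⟨p128_k9, nat_lit 0, nat_lit 0, nat_lit 739, nat_lit 0, nat_lit 1584345, [nat_lit 180848000, nat_lit 417232000, nat_lit 556250000], [], [nat_lit 2750181965, nat_lit 2759977539, nat_lit 2830113648, nat_lit 2839488765, nat_lit 2480348672, nat_lit 2486360009, nat_lit 2528439368, nat_lit 2533583339], nat_lit 1271250, nat_lit 1271250, nat_lit 1271250, nat_lit 1271250, nat_lit 88400, nat_lit 2136750, [nat_lit 490000, nat_lit 1100000, nat_lit 1442500], [nat_lit 6, nat_lit 40,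 nat_lit 40, nat_lit 80, nat_lit 3, nat_lit 308, nat_lit 75, nat_lit 11]⟩,
 ⟨nat_lit 2236, nat_lit 3163, ⟨.ofNat (nat_lit 815720), .ofNat (nat_lit 876741), .ofNat (nat_lit 821243), .ofNat (nat_lit 882280), .ofNat (nat_lit 807623), .ofNat (nat_lit 864706), .ofNat (nat_lit 813301), .ofNat (nat_lit 870400)⟩, ⟨.ofNat (nat_lit 306116), .ofNat (nat_lit 440213), .ofNat (nat_lit 350426), .ofNat (nat_lit 484523), .ofNat (nat_lit 306337), .ofNat (nat_lit 431772), .ofNat (nat_lit 351886), .ofNat (nat_lit 477320)⟩⟩, [⟨nat_lit 16, nat_lit 62, nat_lit 100, nat_lit 94, nat_lit 212006573⟩, ⟨nat_lit 19, nat_lit 87, nat_lit 95, nat_lit 100, nat_lit 12576210⟩]⟩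
noncomputable def p128_l27 : Lf2 := ⟨nat_lit 0, nat_lit 10, [nat_lit 0, nat_lit 5, nat_lit 5, nat_lit 20], false, nat_lit 160, nat_lit 248, nat_lit 16, nat_lit 300, ⟨nat_lit 209, nat_lit 791, nat_lit 0, nat_lit 8, nat_lit 338, nat_lit 791, nat_lit 157, nat_lit 0, nat_lit 0, nat_lit 0, nat_lit 0, nat_lit 0, nat_lit 34543107, nat_lit 25132377, nat_lit 7324516, nat_lit 5095569, true, true⟩,
 nat_lit 0, nat_lit 0, nat_lit 2103, nat_lit 0, nat_lit 2852, nat_lit 1576, nat_lit 85, nat_lit 0, nat_lit 0, nat_lit 75, nat_lit 0, nat_lit 0, nat_lit 0, nat_lit 0, nat_lit 0, nat_lit 316400, nat_lit 0, nat_lit 0, [(nat_lit 24, [(nat_lit 1, nat_lit 791)])],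
 ⟨p128_k0, nat_lit 0, nat_lit 0, nat_lit 80, nat_lit 0, nat_lit 0, [nat_lit 866810000, nat_lit 1474828667, nat_lit 1734722400], [], [nat_lit 25672272747, nat_lit 26658714563, nat_lit 27368783083, nat_lit 28277869803, nat_lit 27429471949, nat_lit 28297183026, nat_lit 28919355296, nat_lit 29717638546], nat_lit 0, nat_lit 0, nat_lit 0, nat_lit 0, nat_lit 0, nat_lit 0, [], [nat_lit 35, nat_lit 40, nat_lit 40, nat_lit 80, nat_lit 22, nat_lit 203, nat_lit 0, nat_lit 6]⟩, ⟨p128_k1, nat_lit 0, nat_lit 0, nat_lit 618, nat_lit 0, nat_lit 1289786, [nat_lit 424688000, nat_lit 979792000, nat_lit 1306250000], [], [nat_lit 6365471172, nat_lit 6391690821, nat_lit 6580088132, nat_lit 6605185016, nat_lit 5789134085, nat_lit 5807147532, nat_lit 5933241656, nat_lit 5952740915], nat_lit 1271250, nat_lit 1271250, nat_lit 1271250, nat_lit 1271250, nat_lit 88400, nat_lit 2136750, [nat_lit 490000, nat_lit 1100000, nat_lit 1442500], [nat_lit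 6, nat_lit 40, nat_lit 40, nat_lit 80, nat_lit 3, nat_lit 289, nat_lit 75, nat_lit 10]⟩,
 ⟨nat_lit 2236, nat_lit 3163, ⟨.ofNat (nat_lit 815720), .ofNat (nat_lit 876741), .ofNat (nat_lit 821243), .ofNat (nat_lit 882280), .ofNat (nat_lit 807623), .ofNat (nat_lit 864706), .ofNat (nat_lit 813301), .ofNat (nat_lit 870400)⟩, ⟨.ofNat (nat_lit 306116), .ofNat (nat_lit 440213), .ofNat (nat_lit 350426), .ofNat (nat_lit 484523), .ofNat (nat_lit 306337), .ofNat (nat_lit 431772), .ofNat (nat_lit 351886), .ofNat (nat_lit 477320)⟩⟩, [⟨nat_lit 4, nat_lit 100, nat_lit 53, nat_lit 87, nat_lit 316370992⟩, ⟨nat_lit 19, nat_lit 87, nat_lit 95, nat_lit 100, nat_lit 31084823⟩]⟩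
noncomputable def p128_l28 : Lf2 := ⟨nat_lit 0, nat_lit 10, [nat_lit 0, nat_lit 5, nat_lit 5, nat_lit 20], false, nat_lit 160, nat_lit 248, nat_lit 16, nat_lit 296, ⟨nat_lit 663, nat_lit 337, nat_lit 0, nat_lit 8, nat_lit 340, nat_lit 337, nat_lit 157, nat_lit 0, nat_lit 0, nat_lit 0, nat_lit 0, nat_lit 0, nat_lit 34378730, nat_lit 25323205, nat_lit 7298065, nat_lit 5096624, true, true⟩,
 nat_lit 0, nat_lit 0, nat_lit 5304, nat_lit 0, nat_lit 3383, nat_lit 4056, nat_lit 100, nat_lit 0, nat_lit 0, nat_lit 1544, nat_lit 0, nat_lit 0, nat_lit 0, nat_lit 0, nat_lit 0, nat_lit 337000, nat_lit 0, nat_lit 0, [(nat_lit 24, [(nat_lit 2, nat_lit 337)])],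
 ⟨p128_k0, nat_lit 0, nat_lit 0, nat_lit 80, nat_lit 0, nat_lit 0, [nat_lit 1116610000, nat_lit 2016632400, nat_lit 2403409600], [], [nat_lit 26099343588, nat_lit 27156810902, nat_lit 27899806732, nat_lit 28875509814, nat_lit 27815555325, nat_lit 28747954532, nat_lit 29414442235, nat_lit 30329249443], nat_lit 0, nat_lit 0, nat_lit 0, nat_lit 0, nat_lit 0, nat_lit 0, [], [nat_lit 35, nat_lit 40, nat_lit 40, nat_lit 80, nat_lit 22, nat_lit 203, nat_lit 0, nat_lit 6]⟩, ⟨p128_k6, nat_lit 0, nat_lit 0, nat_lit 749, nat_lit 0, nat_lit 1612156, [nat_lit 1347216000, nat_lit 3108144000, nat_lit 4143750000], [], [nat_lit 18935227465, nat_lit 19002840361, nat_lit 19469295496, nat_lit 19530073256, nat_lit 17896412156, nat_lit 17938195791, nat_lit 18420628701, nat_lit 18528027919], nat_lit 1271250, nat_lit 1271250, nat_lit 1271250, nat_lit 1271250, nat_lit 88400, nat_lit 2107900, [nat_lit 490000, nat_lit 1100000, nat_lit 1442500],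 [nat_lit 6, nat_lit 40, nat_lit 40, nat_lit 80, nat_lit 3, nat_lit 311, nat_lit 75, nat_lit 11]⟩,
 ⟨nat_lit 2236, nat_lit 3163, ⟨.ofNat (nat_lit 821243), .ofNat (nat_lit 882280), .ofNat (nat_lit 826765), .ofNat (nat_lit 887808), .ofNat (nat_lit 813301), .ofNat (nat_lit 870400), .ofNat (nat_lit 818978), .ofNat (nat_lit 876082)⟩, ⟨.ofNat (nat_lit 306116), .ofNat (nat_lit 440213), .ofNat (nat_lit 350426), .ofNat (nat_lit 484523), .ofNat (nat_lit 306337), .ofNat (nat_lit 431772), .ofNat (nat_lit 351886), .ofNat (nat_lit 477320)⟩⟩, [⟨nat_lit 4, nat_lit 100, nat_lit 53, nat_lit 87, nat_lit 496030650⟩, ⟨nat_lit 19, nat_lit 82, nat_lit 100, nat_lit 92, nat_lit 136055903⟩]⟩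
noncomputable def p128_l29 : Lf2 := ⟨nat_lit 0, nat_lit 10, [nat_lit 0, nat_lit 5, nat_lit 5, nat_lit 20], false, nat_lit 160, nat_lit 248, nat_lit 48, nat_lit 300, ⟨nat_lit 303, nat_lit 697, nat_lit 0, nat_lit 9, nat_lit 363, nat_lit 697, nat_lit 158, nat_lit 0, nat_lit 0, nat_lit 0, nat_lit 0, nat_lit 0, nat_lit 32736236, nat_lit 27208993, nat_lit 7054771, nat_lit 5099543, true, true⟩,
 nat_lit 0, nat_lit 0, nat_lit 2589, nat_lit 0, nat_lit 2564, nat_lit 1941, nat_lit 0, nat_lit 0, nat_lit 0, nat_lit 201, nat_lit 0, nat_lit 0, nat_lit 0, nat_lit 0, nat_lit 3, nat_lit 697000, nat_lit 0, nat_lit 0, [(nat_lit 24, [(nat_lit 2, nat_lit 697)])],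
 ⟨p128_k10, nat_lit 0, nat_lit 0, nat_lit 88, nat_lit 0, nat_lit 0, [nat_lit 773519600, nat_lit 1143766401, nat_lit 119757599], [], [nat_lit 27027387362, nat_lit 27477352846, nat_lit 28647263105, nat_lit 29065517354, nat_lit 28699120959, nat_lit 29097788752, nat_lit 30134325013, nat_lit 30502999982], nat_lit 0, nat_lit 0, nat_lit 0, nat_lit 0, nat_lit 0, nat_lit 0, [], [nat_lit 152, nat_lit 40, nat_lit 40, nat_lit 80, nat_lit 33, nat_lit 203, nat_lit 0, nat_lit 6]⟩, ⟨p128_k11, nat_lit 0, nat_lit 0, nat_lit 703, nat_lit 0, nat_lit 1541987, [nat_lit 615696000, nat_lit 994446000, nat_lit 1893750000], [], [nat_lit 9070217309, nat_lit 9134841672, nat_lit 9373450794, nat_lit 9433907598, nat_lit 8773190331, nat_lit 8822283946, nat_lit 9027396320, nat_lit 9077920751], nat_lit 1271250, nat_lit 1271250, nat_lit 1271250, nat_lit 1271250, nat_lit 279600, nat_lit 2172750, [nat_lit 490000, nat_lit 780000, nat_lit 1435000], [nat_lit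 85, nat_lit 40, nat_lit 40, nat_lit 80, nat_lit 16, nat_lit 304, nat_lit 75, nat_lit 10]⟩,
 ⟨nat_lit 2738, nat_lit 3163, ⟨.ofNat (nat_lit 876741), .ofNat (nat_lit 931599), .ofNat (nat_lit 887814), .ofNat (nat_lit 942677), .ofNat (nat_lit 870748), .ofNat (nat_lit 923903), .ofNat (nat_lit 881953), .ofNat (nat_lit 935112)⟩, ⟨.ofNat (nat_lit 306116), .ofNat (nat_lit 440213), .ofNat (nat_lit 350426), .ofNat (nat_lit 484523), .ofNat (nat_lit 306433), .ofNat (nat_lit 436368), .ofNat (nat_lit 351268), .ofNat (nat_lit 481203)⟩⟩, [⟨nat_lit 13, nat_lit 72, nat_lit 37, nat_lit 100, nat_lit 156114660⟩, ⟨nat_lit 16, nat_lit 62, nat_lit 100, nat_lit 94, nat_lit 8653028⟩, ⟨nat_lit 4, nat_lit 100, nat_lit 57, nat_lit 87, nat_lit 312521511⟩, ⟨nat_lit 19, nat_lit 87, nat_lit 95, nat_lit 100, nat_lit 58903481⟩]⟩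
noncomputable def p128_l30 : Lf2 := ⟨nat_lit 0, nat_lit 10, [nat_lit 0, nat_lit 5, nat_lit 5, nat_lit 20], false, nat_lit 160, nat_lit 232, nat_lit 48, nat_lit 300, ⟨nat_lit 249, nat_lit 751, nat_lit 0, nat_lit 9, nat_lit 359, nat_lit 751, nat_lit 152, nat_lit 0, nat_lit 0, nat_lit 0, nat_lit 0, nat_lit 0, nat_lit 33204340, nat_lit 27031687, nat_lit 6763973, nat_lit 5055690, true, true⟩,
 nat_lit 0, nat_lit 0, nat_lit 2171, nat_lit 0, nat_lit 2381, nat_lit 1628, nat_lit 286, nat_lit 0, nat_lit 0, nat_lit 165, nat_lit 0, nat_lit 0, nat_lit 0, nat_lit 0, nat_lit 0, nat_lit 300400, nat_lit 0, nat_lit 0, [(nat_lit 24, [(nat_lit 1, nat_lit 751)])],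
 ⟨p128_k12, nat_lit 0, nat_lit 0, nat_lit 89, nat_lit 0, nat_lit 0, [nat_lit 750250001, nat_lit 1228329867, nat_lit 1884066400], [], [nat_lit 27222619886, nat_lit 27661416697, nat_lit 28601045876, nat_lit 29055202137, nat_lit 28517986934, nat_lit 28916977975, nat_lit 29768510401, nat_lit 30179382877], nat_lit 0, nat_lit 0, nat_lit 0, nat_lit 0, nat_lit 0, nat_lit 0, [], [nat_lit 152, nat_lit 40, nat_lit 40, nat_lit 80, nat_lit 33, nat_lit 203, nat_lit 0, nat_lit 6]⟩, ⟨p128_k11, nat_lit 0, nat_lit 0, nat_lit 743, nat_lit 0, nat_lit 1656718, [nat_lit 505968000, nat_lit 817218000, nat_lit 1556250000], [], [nat_lit 7426377681, nat_lit 7471098186, nat_lit 7618469647, nat_lit 7662420095, nat_lit 7141181506, nat_lit 7181685393, nat_lit 7310835609, nat_lit 7347267664], nat_lit 1271250, nat_lit 1271250, nat_lit 1271250, nat_lit 1271250, nat_lit 279600, nat_lit 2172750, [nat_lit 490000, nat_lit 780000, nat_lit 1435000],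 [nat_lit 85, nat_lit 40, nat_lit 40, nat_lit 80, nat_lit 16, nat_lit 314, nat_lit 75, nat_lit 10]⟩,
 ⟨nat_lit 2236, nat_lit 2739, ⟨.ofNat (nat_lit 870748), .ofNat (nat_lit 917997), .ofNat (nat_lit 881957), .ofNat (nat_lit 929206), .ofNat (nat_lit 864706), .ofNat (nat_lit 910319), .ofNat (nat_lit 876094), .ofNat (nat_lit 921706)⟩, ⟨.ofNat (nat_lit 306433), .ofNat (nat_lit 412743), .ofNat (nat_lit 351268), .ofNat (nat_lit 457578), .ofNat (nat_lit 306337), .ofNat (nat_lit 408965), .ofNat (nat_lit 351886), .ofNat (nat_lit 454514)⟩⟩, [⟨nat_lit 13, nat_lit 69, nat_lit 40, nat_lit 100, nat_lit 178292705⟩, ⟨nat_lit 16, nat_lit 53, nat_lit 100, nat_lit 93, nat_lit 299712704⟩, ⟨nat_lit 19, nat_lit 87, nat_lit 95, nat_lit 100, nat_lit 47762261⟩]⟩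
noncomputable def p128_l31 : Lf2 := ⟨nat_lit 0, nat_lit 10, [nat_lit 0, nat_lit 5, nat_lit 5, nat_lit 20], false, nat_lit 160, nat_lit 208, nat_lit 16, nat_lit 300, ⟨nat_lit 118, nat_lit 882, nat_lit 0, nat_lit 8, nat_lit 336, nat_lit 882, nat_lit 145, nat_lit 0, nat_lit 0, nat_lit 0, nat_lit 0, nat_lit 0, nat_lit 35178456, nat_lit 25283464, nat_lit 6538080, nat_lit 4985248, true, true⟩,
 nat_lit 0, nat_lit 0, nat_lit 1213, nat_lit 0, nat_lit 2368, nat_lit 909, nat_lit 0, nat_lit 0, nat_lit 0, nat_lit 41, nat_lit 0, nat_lit 0, nat_lit 0, nat_lit 0, nat_lit 0, nat_lit 340950, nat_lit 0, nat_lit 0, [(nat_lit 27, [(nat_lit 0, nat_lit 79), (nat_lit 1, nat_lit 803)])],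
 ⟨p128_k5, nat_lit 0, nat_lit 0, nat_lit 70, nat_lit 0, nat_lit 0, [nat_lit 732540000, nat_lit 730150400], [], [nat_lit 25988865696, nat_lit 26461356976, nat_lit 27557861312, nat_lit 28030649712, nat_lit 26913215597, nat_lit 27356237748, nat_lit 28386076381, nat_lit 28843148194], nat_lit 0, nat_lit 0, nat_lit 0, nat_lit 0, nat_lit 0, nat_lit 0, [], [nat_lit 66, nat_lit 40, nat_lit 40, nat_lit 80, nat_lit 67, nat_lit 203, nat_lit 0, nat_lit 8]⟩, ⟨p128_k1, nat_lit 0, nat_lit 0, nat_lit 823, nat_lit 0, nat_lit 1776047, [nat_lit 239776000, nat_lit 553184000, nat_lit 737500000], [], [nat_lit 3674468391, nat_lit 3697082235, nat_lit 3764923767, nat_lit 3784728343, nat_lit 3278739452, nat_lit 3290793731, nat_lit 3326956566, nat_lit 3337017508], nat_lit 1271250, nat_lit 1271250, nat_lit 1271250, nat_lit 1271250, nat_lit 88400, nat_lit 2136750, [nat_lit 490000, nat_lit 1100000, nat_lit 1442500], [nat_lit 6, nat_lit 40, nat_lit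 40, nat_lit 80, nat_lit 3, nat_lit 330, nat_lit 75, nat_lit 11]⟩,
 ⟨nat_lit 1581, nat_lit 2237, ⟨.ofNat (nat_lit 807675), .ofNat (nat_lit 864706), .ofNat (nat_lit 819040), .ofNat (nat_lit 876094), .ofNat (nat_lit 803781), .ofNat (nat_lit 858432), .ofNat (nat_lit 815415), .ofNat (nat_lit 870089)⟩, ⟨.ofNat (nat_lit 306337), .ofNat (nat_lit 374756), .ofNat (nat_lit 351886), .ofNat (nat_lit 420305), .ofNat (nat_lit 305473), .ofNat (nat_lit 371036), .ofNat (nat_lit 352103), .ofNat (nat_lit 417666)⟩⟩, [⟨nat_lit 16, nat_lit 44, nat_lit 100, nat_lit 92, nat_lit 321489424⟩, ⟨nat_lit 19, nat_lit 87, nat_lit 95, nat_lit 100, nat_lit 15951147⟩]⟩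
noncomputable def p128_l32 : Lf2 := ⟨nat_lit 0, nat_lit 10, [nat_lit 0, nat_lit 5, nat_lit 5, nat_lit 20], false, nat_lit 160, nat_lit 208, nat_lit 48, nat_lit 300, ⟨nat_lit 117, nat_lit 883, nat_lit 0, nat_lit 9, nat_lit 354, nat_lit 883, nat_lit 145, nat_lit 0, nat_lit 0, nat_lit 0, nat_lit 0, nat_lit 0, nat_lit 33840532, nat_lit 26809899, nat_lit 6349569, nat_lit 4990645, true, true⟩,
 nat_lit 0, nat_lit 0, nat_lit 1178, nat_lit 0, nat_lit 2350, nat_lit 883, nat_lit 0, nat_lit 0, nat_lit 0, nat_lit 39, nat_lit 0, nat_lit 0, nat_lit 0, nat_lit 0, nat_lit 0, nat_lit 328150, nat_lit 0, nat_lit 0, [(nat_lit 27, [(nat_lit 0, nat_lit 167), (nat_lit 1, nat_lit 716)])],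
 ⟨p128_k5, nat_lit 0, nat_lit 0, nat_lit 76, nat_lit 0, nat_lit 0, [nat_lit 739621201, nat_lit 790412000], [], [nat_lit 27645968302, nat_lit 28079831352, nat_lit 28642903342, nat_lit 29096576851, nat_lit 28475642062, nat_lit 28883405112, nat_lit 29413663786, nat_lit 29844511003], nat_lit 0, nat_lit 0, nat_lit 0, nat_lit 0, nat_lit 0, nat_lit 0, [], [nat_lit 66, nat_lit 40, nat_lit 40, nat_lit 80, nat_lit 67, nat_lit 203, nat_lit 0, nat_lit 8]⟩, ⟨p128_k1, nat_lit 0, nat_lit 0, nat_lit 801, nat_lit 0, nat_lit 1776047, [nat_lit 237744000, nat_lit 548496000, nat_lit 731250000], [], [nat_lit 3734845385, nat_lit 3753786625, nat_lit 3796358921, nat_lit 3813675709, nat_lit 3440413094, nat_lit 3450548846, nat_lit 3478079299, nat_lit 3487021441], nat_lit 1271250, nat_lit 1271250, nat_lit 1271250, nat_lit 1271250, nat_lit 279600, nat_lit 2172750, [nat_lit 490000, nat_lit 1100000, nat_lit 1442500], [nat_lit 6, nat_lit 40,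 nat_lit 40, nat_lit 80, nat_lit 3, nat_lit 327, nat_lit 75, nat_lit 11]⟩,
 ⟨nat_lit 1581, nat_lit 2237, ⟨.ofNat (nat_lit 864706), .ofNat (nat_lit 898916), .ofNat (nat_lit 876094), .ofNat (nat_lit 910303), .ofNat (nat_lit 858432), .ofNat (nat_lit 891213), .ofNat (nat_lit 870089), .ofNat (nat_lit 902871)⟩, ⟨.ofNat (nat_lit 306337), .ofNat (nat_lit 374756), .ofNat (nat_lit 351886), .ofNat (nat_lit 420305), .ofNat (nat_lit 305473), .ofNat (nat_lit 371036), .ofNat (nat_lit 352103), .ofNat (nat_lit 417666)⟩⟩, [⟨nat_lit 13, nat_lit 57, nat_lit 53, nat_lit 100, nat_lit 282684516⟩, ⟨nat_lit 16, nat_lit 44, nat_lit 100, nat_lit 92, nat_lit 310706867⟩, ⟨nat_lit 19, nat_lit 87, nat_lit 95, nat_lit 100, nat_lit 18314063⟩]⟩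
noncomputable def p128_l33 : Lf2 := ⟨nat_lit 0, nat_lit 10, [nat_lit 0, nat_lit 5, nat_lit 5, nat_lit 20], true, nat_lit 160, nat_lit 184, nat_lit 16, nat_lit 300, ⟨nat_lit 0, nat_lit 1000, nat_lit 0, nat_lit 8, nat_lit 337, nat_lit 1000, nat_lit 137, nat_lit 0, nat_lit 0, nat_lit 0, nat_lit 0, nat_lit 0, nat_lit 35415428, nat_lit 25559996, nat_lit 6024576, nat_lit 4912498, true, true⟩,
 nat_lit 0, nat_lit 0, nat_lit 0, nat_lit 0, nat_lit 2426, nat_lit 0, nat_lit 28, nat_lit 0, nat_lit 0, nat_lit 0, nat_lit 0, nat_lit 0, nat_lit 0, nat_lit 0, nat_lit 0, nat_lit 250000, nat_lit 0, nat_lit 0, [(nat_lit 27, [(nat_lit 0, nat_lit 1000)])],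
 ⟨p128_k7, nat_lit 0, nat_lit 0, nat_lit 75, nat_lit 0, nat_lit 0, [nat_lit 780800001, nat_lit 1042800000], [], [nat_lit 26632717484, nat_lit 27109288194, nat_lit 28666648555, nat_lit 29142462134, nat_lit 27078287179, nat_lit 27539901700, nat_lit 29050563411, nat_lit 29513583902], nat_lit 0, nat_lit 0, nat_lit 0, nat_lit 0, nat_lit 0, nat_lit 0, [], [nat_lit 66, nat_lit 40, nat_lit 40, nat_lit 80, nat_lit 67, nat_lit 203, nat_lit 0, nat_lit 8]⟩, C1.Rw.none,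
 ⟨nat_lit 0, nat_lit 1582, ⟨.ofNat (nat_lit 803773), .ofNat (nat_lit 874821), .ofNat (nat_lit 815118), .ofNat (nat_lit 886479), .ofNat (nat_lit 799976), .ofNat (nat_lit 864997), .ofNat (nat_lit 812163), .ofNat (nat_lit 877498)⟩, ⟨.ofNat (nat_lit 305469), .ofNat (nat_lit 338250), .ofNat (nat_lit 352101), .ofNat (nat_lit 384882), .ofNat (nat_lit 299995), .ofNat (nat_lit 329995), .ofNat (nat_lit 349997), .ofNat (nat_lit 379997)⟩⟩, [⟨nat_lit 13, nat_lit 41, nat_lit 68, nat_lit 100, nat_lit 398136524⟩, ⟨nat_lit 16, nat_lit 31, nat_lit 100, nat_lit 92, nat_lit 383605510⟩]⟩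
noncomputable def p128_l34 : Lf2 := ⟨nat_lit 0, nat_lit 10, [nat_lit 0, nat_lit 5, nat_lit 5, nat_lit 20], false, nat_lit 160, nat_lit 248, nat_lit 16, nat_lit 288, ⟨nat_lit 754, nat_lit 246, nat_lit 0, nat_lit 8, nat_lit 355, nat_lit 246, nat_lit 157, nat_lit 0, nat_lit 0, nat_lit 0, nat_lit 0, nat_lit 0, nat_lit 33283220, nat_lit 26598026, nat_lit 7118754, nat_lit 5098511, true, true⟩,
 nat_lit 0, nat_lit 0, nat_lit 5619, nat_lit 0, nat_lit 3455, nat_lit 4379, nat_lit 156, nat_lit 0, nat_lit 0, nat_lit 1679, nat_lit 0, nat_lit 0, nat_lit 0, nat_lit 0, nat_lit 0, nat_lit 246000, nat_lit 0, nat_lit 0, [(nat_lit 24, [(nat_lit 2, nat_lit 246)])],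
 ⟨p128_k0, nat_lit 0, nat_lit 0, nat_lit 93, nat_lit 0, nat_lit 0, [nat_lit 1068380000, nat_lit 2358319200, nat_lit 3020316800], [], [nat_lit 26364977480, nat_lit 27453757830, nat_lit 30194150540, nat_lit 31122507030, nat_lit 28097972739, nat_lit 29035915608, nat_lit 31468429827, nat_lit 32291814169], nat_lit 0, nat_lit 0, nat_lit 0, nat_lit 0, nat_lit 0, nat_lit 0, [], [nat_lit 35, nat_lit 40, nat_lit 40, nat_lit 80, nat_lit 22, nat_lit 203, nat_lit 0, nat_lit 6]⟩, ⟨p128_k4, nat_lit 0, nat_lit 0, nat_lit 757, nat_lit 0, nat_lit 1631301, [nat_lit 1532128000, nat_lit 3534752000, nat_lit 4712500000], [], [nat_lit 19875746994, nat_lit 20117540028, nat_lit 22160510880, nat_lit 22558164924, nat_lit 20008234393, nat_lit 20169872303, nat_lit 21352328331, nat_lit 21490194057], nat_lit 1271250, nat_lit 1271250, nat_lit 1271250, nat_lit 1271250, nat_lit 88400, nat_lit 2050200, [nat_lit 490000, nat_lit 1100000, nat_lit 1442500],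 [nat_lit 6, nat_lit 40, nat_lit 40, nat_lit 80, nat_lit 3, nat_lit 318, nat_lit 75, nat_lit 11]⟩,
 ⟨nat_lit 2236, nat_lit 3163, ⟨.ofNat (nat_lit 826765), .ofNat (nat_lit 948772), .ofNat (nat_lit 837812), .ofNat (nat_lit 959850), .ofNat (nat_lit 818978), .ofNat (nat_lit 933109), .ofNat (nat_lit 830334), .ofNat (nat_lit 944496)⟩, ⟨.ofNat (nat_lit 306116), .ofNat (nat_lit 440213), .ofNat (nat_lit 350426), .ofNat (nat_lit 484523), .ofNat (nat_lit 306337), .ofNat (nat_lit 431772), .ofNat (nat_lit 351886), .ofNat (nat_lit 477320)⟩⟩, [⟨nat_lit 4, nat_lit 100, nat_lit 53, nat_lit 87, nat_lit 506968428⟩, ⟨nat_lit 19, nat_lit 77, nat_lit 100, nat_lit 91, nat_lit 167517261⟩]⟩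
noncomputable def p128_l35 : Lf2 := ⟨nat_lit 0, nat_lit 10, [nat_lit 0, nat_lit 5, nat_lit 5, nat_lit 20], false, nat_lit 160, nat_lit 208, nat_lit 16, nat_lit 288, ⟨nat_lit 738, nat_lit 262, nat_lit 0, nat_lit 8, nat_lit 348, nat_lit 262, nat_lit 144, nat_lit 0, nat_lit 0, nat_lit 0, nat_lit 0, nat_lit 0, nat_lit 34320213, nat_lit 26351318, nat_lit 6328469, nat_lit 4978435, true, true⟩,
 nat_lit 0, nat_lit 0, nat_lit 5668, nat_lit 0, nat_lit 2644, nat_lit 4418, nat_lit 383, nat_lit 0, nat_lit 0, nat_lit 1676, nat_lit 0, nat_lit 0, nat_lit 0, nat_lit 0, nat_lit 0, nat_lit 104800, nat_lit 0, nat_lit 0, [(nat_lit 27, [(nat_lit 1, nat_lit 262)])],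
 ⟨p128_k5, nat_lit 0, nat_lit 0, nat_lit 80, nat_lit 0, nat_lit 0, [nat_lit 875015200, nat_lit 2507108800], [], [nat_lit 26366702931, nat_lit 27401979664, nat_lit 29518391117, nat_lit 30398529808, nat_lit 27318357999, nat_lit 28286423200, nat_lit 30271567928, nat_lit 31097937050], nat_lit 0, nat_lit 0, nat_lit 0, nat_lit 0, nat_lit 0, nat_lit 0, [], [nat_lit 66, nat_lit 40, nat_lit 40, nat_lit 80, nat_lit 67, nat_lit 203, nat_lit 0, nat_lit 8]⟩, ⟨p128_k4, nat_lit 0, nat_lit 0, nat_lit 854, nat_lit 0, nat_lit 1855759, [nat_lit 1499616000, nat_lit 3459744000, nat_lit 4612500000], [], [nat_lit 19561419727, nat_lit 19766169811, nat_lit 21150542336, nat_lit 21556766296, nat_lit 19377534715, nat_lit 19512883860, nat_lit 20388992555, nat_lit 20500529897], nat_lit 1271250, nat_lit 1271250, nat_lit 1271250, nat_lit 1271250, nat_lit 88400, nat_lit 2050200, [nat_lit 490000, nat_lit 1100000, nat_lit 1442500], [nat_lit 6, nat_lit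 40, nat_lit 40, nat_lit 80, nat_lit 3, nat_lit 341, nat_lit 75, nat_lit 12]⟩,
 ⟨nat_lit 0, nat_lit 2237, ⟨.ofNat (nat_lit 818584), .ofNat (nat_lit 921704), .ofNat (nat_lit 829507), .ofNat (nat_lit 933091), .ofNat (nat_lit 812004), .ofNat (nat_lit 902497), .ofNat (nat_lit 824041), .ofNat (nat_lit 914997)⟩, ⟨.ofNat (nat_lit 306334), .ofNat (nat_lit 374750), .ofNat (nat_lit 351885), .ofNat (nat_lit 420300), .ofNat (nat_lit 299996), .ofNat (nat_lit 359993), .ofNat (nat_lit 349998), .ofNat (nat_lit 409994)⟩⟩, [⟨nat_lit 4, nat_lit 100, nat_lit 32, nat_lit 88, nat_lit 955402731⟩, ⟨nat_lit 19, nat_lit 77, nat_lit 100, nat_lit 91, nat_lit 163537591⟩]⟩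
noncomputable def b_V_900_800_20_1 : St := ⟨true, nat_lit 0, nat_lit 1, nat_lit 1, nat_lit 120, nat_lit 360, nat_lit 400, nat_lit 320, nat_lit 340, nat_lit 200, nat_lit 400, nat_lit 80, nat_lit 120, nat_lit 160, nat_lit 248, nat_lit 0, nat_lit 300, nat_lit 0, nat_lit 40, nat_lit 0, nat_lit 0, nat_lit 0, nat_lit 0⟩
theorem d_V_900_800_20_1 (h : EB TB.env) : Dead b_V_900_800_20_1 := chkB_sound0 h (T :=
(.spl (nat_lit 8) (nat_lit 800)
(.leaf p128_l23)
(.spl (nat_lit 2) (nat_lit 320)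
(.spl (nat_lit 0) (nat_lit 380)
(.leaf p128_l24)
(.trZ (nat_lit 0) (nat_lit 82) (nat_lit 44) (nat_lit 100) (nat_lit 236) (.trX (nat_lit 16) (nat_lit 44) (nat_lit 100) (nat_lit 92) (nat_lit 208) (.leaf p128_l25))))
(.trZ (nat_lit 9) (nat_lit 100) (nat_lit 82) (nat_lit 44) (nat_lit 16) (.spl (nat_lit 1) (nat_lit 330)
(.trX (nat_lit 13) (nat_lit 79) (nat_lit 29) (nat_lit 100) (nat_lit 396) (.spl (nat_lit 0) (nat_lit 380)
(.spl (nat_lit 2) (nat_lit 360)
(.spl (nat_lit 1) (nat_lit 325)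
(.spl (nat_lit 6) (nat_lit 20)
(.leaf p128_l26)
(.leaf p128_l27))
(.trX (nat_lit 19) (nat_lit 85) (nat_lit 97) (nat_lit 100) (nat_lit 296) (.leaf p128_l28)))
(.trZ (nat_lit 9) (nat_lit 100) (nat_lit 61) (nat_lit 68) (nat_lit 48) (.spl (nat_lit 0) (nat_lit 370)
(.leaf p128_l29)
(.trX (nat_lit 13) (nat_lit 69) (nat_lit 40) (nat_lit 100) (nat_lit 392) (.trX (nat_lit 16) (nat_lit 53) (nat_lit 100) (nat_lit 93) (nat_lit 232) (.leaf p128_l30))))))
(.trX (nat_lit 13) (nat_lit 57) (nat_lit 53) (nat_lit 100) (nat_lit 384) (.trX (nat_lit 16) (nat_lit 44) (nat_lit 100) (nat_lit 92) (nat_lit 208) (.spl (nat_lit 0) (nat_lit 390)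
(.spl (nat_lit 2) (nat_lit 360)
(.leaf p128_l31)
(.trZ (nat_lit 9) (nat_lit 100) (nat_lit 61) (nat_lit 68) (nat_lit 48) (.leaf p128_l32)))
(.trX (nat_lit 13) (nat_lit 41) (nat_lit 68) (nat_lit 100) (nat_lit 372) (.trX (nat_lit 16) (nat_lit 31) (nat_lit 100) (nat_lit 92) (nat_lit 184) (.leaf p128_l33))))))))
(.trX (nat_lit 19) (nat_lit 83) (nat_lit 98) (nat_lit 100) (nat_lit 288) (.spl (nat_lit 0) (nat_lit 380)
(.leaf p128_l34)
(.trX (nat_lit 13) (nat_lit 61) (nat_lit 47) (nat_lit 100) (nat_lit 392) (.trX (nat_lit 16) (nat_lit 44) (nat_lit 100) (nat_lit 92) (nat_lit 208) (.leaf p128_l35)))))))))) (by decide +kernel)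
noncomputable def p128_l36 : Lf2 := ⟨nat_lit 0, nat_lit 10, [nat_lit 0, nat_lit 5, nat_lit 5, nat_lit 20], false, nat_lit 8, nat_lit 248, nat_lit 0, nat_lit 300, ⟨nat_lit 1000, nat_lit 0, nat_lit 0, nat_lit 0, nat_lit 0, nat_lit 0, nat_lit 0, nat_lit 0, nat_lit 0, nat_lit 0, nat_lit 0, nat_lit 0, nat_lit 0, nat_lit 0, nat_lit 0, nat_lit 0, false, false⟩,
 nat_lit 0, nat_lit 0, nat_lit 0, nat_lit 0, nat_lit 5590, nat_lit 7753, nat_lit 0, nat_lit 0, nat_lit 0, nat_lit 0, nat_lit 0, nat_lit 0, nat_lit 0, nat_lit 0, nat_lit 0, nat_lit 0, nat_lit 0, nat_lit 0, [],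
 ⟨p128_k13, nat_lit 0, nat_lit 0, nat_lit 170, nat_lit 0, nat_lit 0, [nat_lit 938000000, nat_lit 4688000000], [], [nat_lit 27424191540, nat_lit 31022679525, nat_lit 39031034876, nat_lit 41912528564, nat_lit 27058292973, nat_lit 29644110836, nat_lit 34111140048, nat_lit 36286677864], nat_lit 0, nat_lit 0, nat_lit 0, nat_lit 0, nat_lit 0, nat_lit 0, [], [nat_lit 86, nat_lit 40, nat_lit 40, nat_lit 80, nat_lit 87, nat_lit 289, nat_lit 75, nat_lit 12]⟩, ⟨p128_k14, nat_lit 0, nat_lit 0, nat_lit 180, nat_lit 0, nat_lit 0, [nat_lit 2032000000, nat_lit 6250000000], [], [nat_lit 27305987852, nat_lit 29100076396, nat_lit 42964930268, nat_lit 44528868072, nat_lit 26947850658, nat_lit 28039753523, nat_lit 36277451154, nat_lit 37264367657], nat_lit 0, nat_lit 0, nat_lit 0, nat_lit 0, nat_lit 0, nat_lit 0, [], [nat_lit 69, nat_lit 40, nat_lit 40, nat_lit 80, nat_lit 64, nat_lit 289, nat_lit 75, nat_lit 10]⟩,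
 zbF0, [⟨nat_lit 16, nat_lit 62, nat_lit 100, nat_lit 94, nat_lit 92612656⟩, ⟨nat_lit 19, nat_lit 87, nat_lit 95, nat_lit 100, nat_lit 70253271⟩]⟩
noncomputable def p128_l37 : Lf2 := ⟨nat_lit 0, nat_lit 10, [nat_lit 0, nat_lit 5, nat_lit 5, nat_lit 20], true, nat_lit 8, nat_lit 248, nat_lit 0, nat_lit 300, ⟨nat_lit 0, nat_lit 1000, nat_lit 0, nat_lit 8, nat_lit 293, nat_lit 1000, nat_lit 94, nat_lit 0, nat_lit 0, nat_lit 0, nat_lit 0, nat_lit 0, nat_lit 0, nat_lit 0, nat_lit 0, nat_lit 5000000, true, false⟩,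
 nat_lit 0, nat_lit 0, nat_lit 0, nat_lit 0, nat_lit 3420, nat_lit 0, nat_lit 0, nat_lit 0, nat_lit 0, nat_lit 0, nat_lit 0, nat_lit 0, nat_lit 0, nat_lit 0, nat_lit 0, nat_lit 250000, nat_lit 0, nat_lit 0, [(nat_lit 24, [(nat_lit 0, nat_lit 1000)]), (nat_lit 27, [(nat_lit 0, nat_lit 1000)])],
 ⟨p128_k0, nat_lit 0, nat_lit 0, nat_lit 145, nat_lit 0, nat_lit 0, [nat_lit 780800001, nat_lit 1367200000, nat_lit 1705600000], [], [nat_lit 22220954080, nat_lit 25885977912, nat_lit 27722984656, nat_lit 30582646641, nat_lit 23933605081, nat_lit 26166550664, nat_lit 27559611896, nat_lit 29729913312], nat_lit 0, nat_lit 0, nat_lit 0, nat_lit 0, nat_lit 0, nat_lit 0, [], [nat_lit 35, nat_lit 40, nat_lit 40, nat_lit 80, nat_lit 22, nat_lit 289, nat_lit 75, nat_lit 12]⟩, C1.Rw.none,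
 ⟨nat_lit 0, nat_lit 3163, ⟨.ofNat (nat_lit 625100), .ofNat (nat_lit 815384), .ofNat (nat_lit 645949), .ofNat (nat_lit 836507), .ofNat (nat_lit 642170), .ofNat (nat_lit 799594), .ofNat (nat_lit 665865), .ofNat (nat_lit 823562)⟩, ⟨.ofNat (nat_lit 20000), .ofNat (nat_lit 440207), .ofNat (nat_lit 20000), .ofNat (nat_lit 484518), .ofNat (nat_lit 20000), .ofNat (nat_lit 409993), .ofNat (nat_lit 20000), .ofNat (nat_lit 459993)⟩⟩, [⟨nat_lit 16, nat_lit 62, nat_lit 100, nat_lit 94, nat_lit 81991353⟩]⟩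
noncomputable def p128_l38 : Lf2 := ⟨nat_lit 0, nat_lit 10, [nat_lit 0, nat_lit 5, nat_lit 5, nat_lit 20], true, nat_lit 8, nat_lit 248, nat_lit 0, nat_lit 300, ⟨nat_lit 0, nat_lit 1000, nat_lit 0, nat_lit 8, nat_lit 346, nat_lit 1000, nat_lit 94, nat_lit 0, nat_lit 0, nat_lit 0, nat_lit 0, nat_lit 0, nat_lit 0, nat_lit 0, nat_lit 0, nat_lit 5000000, true, true⟩,
 nat_lit 0, nat_lit 0, nat_lit 0, nat_lit 0, nat_lit 3122, nat_lit 0, nat_lit 0, nat_lit 0, nat_lit 0, nat_lit 0, nat_lit 0, nat_lit 0, nat_lit 0, nat_lit 0, nat_lit 0, nat_lit 250000, nat_lit 0, nat_lit 0, [(nat_lit 24, [(nat_lit 0, nat_lit 1000)]), (nat_lit 27, [(nat_lit 0, nat_lit 1000)])],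
 ⟨p128_k0, nat_lit 0, nat_lit 0, nat_lit 172, nat_lit 0, nat_lit 0, [nat_lit 780800001, nat_lit 1367200000, nat_lit 1705600000], [], [nat_lit 27054306328, nat_lit 29780570105, nat_lit 31560316977, nat_lit 33778722501, nat_lit 28272296905, nat_lit 29762744532, nat_lit 30792605405, nat_lit 32525640897], nat_lit 0, nat_lit 0, nat_lit 0, nat_lit 0, nat_lit 0, nat_lit 0, [], [nat_lit 35, nat_lit 40, nat_lit 40, nat_lit 80, nat_lit 22, nat_lit 289, nat_lit 75, nat_lit 12]⟩, C1.Rw.none,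
 ⟨nat_lit 0, nat_lit 3163, ⟨.ofNat (nat_lit 815384), .ofNat (nat_lit 931598), .ofNat (nat_lit 825991), .ofNat (nat_lit 942676), .ofNat (nat_lit 799594), .ofNat (nat_lit 894998), .ofNat (nat_lit 811624), .ofNat (nat_lit 907498)⟩, ⟨.ofNat (nat_lit 20000), .ofNat (nat_lit 440207), .ofNat (nat_lit 20000), .ofNat (nat_lit 484518), .ofNat (nat_lit 20000), .ofNat (nat_lit 409993), .ofNat (nat_lit 20000), .ofNat (nat_lit 459993)⟩⟩, [⟨nat_lit 13, nat_lit 79, nat_lit 29, nat_lit 100, nat_lit 307126347⟩, ⟨nat_lit 16, nat_lit 62, nat_lit 100, nat_lit 94, nat_lit 60220514⟩]⟩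
noncomputable def p128_l39 : Lf2 := ⟨nat_lit 0, nat_lit 10, [nat_lit 0, nat_lit 5, nat_lit 5, nat_lit 20], false, nat_lit 8, nat_lit 248, nat_lit 0, nat_lit 288, ⟨nat_lit 248, nat_lit 752, nat_lit 0, nat_lit 8, nat_lit 352, nat_lit 752, nat_lit 94, nat_lit 0, nat_lit 0, nat_lit 0, nat_lit 0, nat_lit 0, nat_lit 0, nat_lit 0, nat_lit 0, nat_lit 5000000, true, true⟩,
 nat_lit 0, nat_lit 0, nat_lit 1759, nat_lit 0, nat_lit 3182, nat_lit 1371, nat_lit 0, nat_lit 0, nat_lit 0, nat_lit 237, nat_lit 0, nat_lit 0, nat_lit 0, nat_lit 0, nat_lit 0, nat_lit 345200, nat_lit 0, nat_lit 0, [(nat_lit 24, [(nat_lit 1, nat_lit 678), (nat_lit 2, nat_lit 74)]), (nat_lit 27, [(nat_lit 1, nat_lit 678), (nat_lit 2, nat_lit 74)])],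
 ⟨p128_k0, nat_lit 0, nat_lit 0, nat_lit 174, nat_lit 0, nat_lit 0, [nat_lit 916200000, nat_lit 1455140800, nat_lit 1654958400], [], [nat_lit 27208720464, nat_lit 29942062025, nat_lit 31982201465, nat_lit 34190266168, nat_lit 28375180824, nat_lit 29874972923, nat_lit 31055553468, nat_lit 32784700348], nat_lit 0, nat_lit 0, nat_lit 0, nat_lit 0, nat_lit 0, nat_lit 0, [], [nat_lit 35, nat_lit 40, nat_lit 40, nat_lit 80, nat_lit 22, nat_lit 289, nat_lit 75, nat_lit 12]⟩, ⟨p128_k4, nat_lit 0, nat_lit 0, nat_lit 863, nat_lit 0, nat_lit 1855759, [nat_lit 503936000, nat_lit 1162624000, nat_lit 1550000000], [], [nat_lit 8394653046, nat_lit 8446600476, nat_lit 9272959078, nat_lit 9434260536, nat_lit 8140735070, nat_lit 8174460231, nat_lit 8425917824, nat_lit 8479469562], nat_lit 1271250, nat_lit 1271250, nat_lit 1271250, nat_lit 1271250, nat_lit 0, nat_lit 2034000, [nat_lit 490000, nat_lit 1100000, nat_lit 1442500], [nat_lit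 6, nat_lit 40, nat_lit 40, nat_lit 80, nat_lit 3, nat_lit 345, nat_lit 75, nat_lit 12]⟩,
 ⟨nat_lit 0, nat_lit 3163, ⟨.ofNat (nat_lit 825991), .ofNat (nat_lit 948771), .ofNat (nat_lit 836507), .ofNat (nat_lit 959849), .ofNat (nat_lit 811624), .ofNat (nat_lit 912498), .ofNat (nat_lit 823562), .ofNat (nat_lit 924998)⟩, ⟨.ofNat (nat_lit 20000), .ofNat (nat_lit 440207), .ofNat (nat_lit 20000), .ofNat (nat_lit 484518), .ofNat (nat_lit 20000), .ofNat (nat_lit 409993), .ofNat (nat_lit 20000), .ofNat (nat_lit 459993)⟩⟩, [⟨nat_lit 13, nat_lit 59, nat_lit 50, nat_lit 100, nat_lit 233958860⟩, ⟨nat_lit 16, nat_lit 44, nat_lit 100, nat_lit 87, nat_lit 146587461⟩, ⟨nat_lit 19, nat_lit 83, nat_lit 98, nat_lit 100, nat_lit 33262842⟩]⟩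
noncomputable def b_V_900_800_20_2 : St := ⟨true, nat_lit 0, nat_lit 2, nat_lit 2, nat_lit 120, nat_lit 360, nat_lit 400, nat_lit 320, nat_lit 340, nat_lit 200, nat_lit 400, nat_lit 80, nat_lit 120, nat_lit 8, nat_lit 248, nat_lit 0, nat_lit 300, nat_lit 0, nat_lit 40, nat_lit 0, nat_lit 0, nat_lit 0, nat_lit 0⟩
theorem d_V_900_800_20_2 (h : EB TB.env) : Dead b_V_900_800_20_2 := chkB_sound0 h (T :=
(.st (nat_lit 1)
(.leaf p128_l36)
(.spl (nat_lit 2) (nat_lit 320)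
(.leaf p128_l37)
(.spl (nat_lit 1) (nat_lit 330)
(.trX (nat_lit 13) (nat_lit 79) (nat_lit 29) (nat_lit 100) (nat_lit 396) (.leaf p128_l38))
(.trX (nat_lit 19) (nat_lit 83) (nat_lit 98) (nat_lit 100) (nat_lit 288) (.leaf p128_l39)))))) (by decide +kernel)
noncomputable def p128_l40 : Lf2 := ⟨nat_lit 0, nat_lit 10, [nat_lit 0, nat_lit 5, nat_lit 5, nat_lit 20], false, nat_lit 8, nat_lit 248, nat_lit 0, nat_lit 160, ⟨nat_lit 1000, nat_lit 0, nat_lit 0, nat_lit 0, nat_lit 0, nat_lit 0, nat_lit 0, nat_lit 0, nat_lit 0, nat_lit 0, nat_lit 0, nat_lit 0, nat_lit 0, nat_lit 0, nat_lit 0, nat_lit 0, false, false⟩,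
 nat_lit 0, nat_lit 6053, nat_lit 0, nat_lit 0, nat_lit 5271, nat_lit 6139, nat_lit 275, nat_lit 0, nat_lit 0, nat_lit 1778, nat_lit 0, nat_lit 0, nat_lit 0, nat_lit 0, nat_lit 0, nat_lit 0, nat_lit 0, nat_lit 0, [],
 ⟨p128_k0, nat_lit 0, nat_lit 0, nat_lit 588, nat_lit 0, nat_lit 1331539, [nat_lit 938000000, nat_lit 3282000000, nat_lit 4688000000], [], [nat_lit 34332474629, nat_lit 35090778382, nat_lit 38931034735, nat_lit 39500985513, nat_lit 34023473785, nat_lit 34588844554, nat_lit 37338900791, nat_lit 37762735807], nat_lit 1271250, nat_lit 1271250, nat_lit 1271250, nat_lit 1271250, nat_lit 43600, nat_lit 1756600, [nat_lit 230000, nat_lit 780000, nat_lit 1100000], [nat_lit 35, nat_lit 40, nat_lit 40, nat_lit 80, nat_lit 22, nat_lit 289, nat_lit 75, nat_lit 12]⟩, ⟨p128_k1, nat_lit 0, nat_lit 0, nat_lit 176, nat_lit 0, nat_lit 0, [nat_lit 2032000000, nat_lit 4688000000, nat_lit 6250000000], [], [nat_lit 23754679476,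 nat_lit 25554058724, nat_lit 38449352084, nat_lit 39822405336, nat_lit 21073469908, nat_lit 22573976716, nat_lit 31612899416, nat_lit 32816575728], nat_lit 0, nat_lit 0, nat_lit 0, nat_lit 0, nat_lit 0, nat_lit 0, [], [nat_lit 6, nat_lit 40, nat_lit 40, nat_lit 80, nat_lit 3, nat_lit 249, nat_lit 40, nat_lit 9]⟩,
 zbF0, [⟨nat_lit 4, nat_lit 100, nat_lit 53, nat_lit 87, nat_lit 289890265⟩]⟩
noncomputable def p128_l41 : Lf2 := ⟨nat_lit 0, nat_lit 10, [nat_lit 0, nat_lit 5, nat_lit 5, nat_lit 20], false, nat_lit 20, nat_lit 208, nat_lit 0, nat_lit 160, ⟨nat_lit 1000, nat_lit 0, nat_lit 0, nat_lit 0, nat_lit 0, nat_lit 0, nat_lit 0, nat_lit 0, nat_lit 0, nat_lit 0, nat_lit 0, nat_lit 0, nat_lit 0, nat_lit 0, nat_lit 0, nat_lit 0, false, false⟩,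
 nat_lit 0, nat_lit 4064, nat_lit 0, nat_lit 0, nat_lit 3797, nat_lit 5540, nat_lit 557, nat_lit 0, nat_lit 0, nat_lit 592, nat_lit 0, nat_lit 0, nat_lit 0, nat_lit 0, nat_lit 0, nat_lit 0, nat_lit 0, nat_lit 0, [],
 ⟨p128_k5, nat_lit 0, nat_lit 0, nat_lit 533, nat_lit 0, nat_lit 1344724, [nat_lit 938000000, nat_lit 3282000000], [], [nat_lit 28399884054, nat_lit 29298630764, nat_lit 34001726238, nat_lit 35216383215, nat_lit 29543596475, nat_lit 30334001979, nat_lit 33701853939, nat_lit 34300966874], nat_lit 1271250, nat_lit 1271250, nat_lit 1271250, nat_lit 1271250, nat_lit 111251, nat_lit 1474250, [nat_lit 230000, nat_lit 780000], [nat_lit 66, nat_lit 40, nat_lit 40, nat_lit 80, nat_lit 67, nat_lit 272, nat_lit 60, nat_lit 14]⟩, ⟨p128_k1, nat_lit 0, nat_lit 0, nat_lit 173, nat_lit 0, nat_lit 0, [nat_lit 2032000000, nat_lit 4688000000, nat_lit 6250000000], [], [nat_lit 25978309288, nat_lit 27439518008, nat_lit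 36026553393, nat_lit 37372022057, nat_lit 23476562393, nat_lit 24792011649, nat_lit 31271503296, nat_lit 32146051969], nat_lit 0, nat_lit 0, nat_lit 0, nat_lit 0, nat_lit 0, nat_lit 0, [], [nat_lit 6, nat_lit 40, nat_lit 40, nat_lit 80, nat_lit 3, nat_lit 249, nat_lit 40, nat_lit 9]⟩,
 zbF0, [⟨nat_lit 4, nat_lit 100, nat_lit 32, nat_lit 88, nat_lit 492397646⟩]⟩
noncomputable def p128_l42 : Lf2 := ⟨nat_lit 0, nat_lit 10, [nat_lit 0, nat_lit 5, nat_lit 5, nat_lit 20], false, nat_lit 8, nat_lit 248, nat_lit 160, nat_lit 300, ⟨nat_lit 779, nat_lit 0, nat_lit 221, nat_lit 8, nat_lit 294, nat_lit 221, nat_lit 96, nat_lit 221, nat_lit 58017, nat_lit 274, nat_lit 404374, nat_lit 200, nat_lit 40720702, nat_lit 0, nat_lit 0, nat_lit 4393587, true, false⟩,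
 nat_lit 0, nat_lit 5259, nat_lit 0, nat_lit 0, nat_lit 4580, nat_lit 2843, nat_lit 150, nat_lit 0, nat_lit 0, nat_lit 0, nat_lit 0, nat_lit 0, nat_lit 0, nat_lit 0, nat_lit 0, nat_lit 221000, nat_lit 0, nat_lit 0, [(nat_lit 24, [(nat_lit 6, nat_lit 221)])],
 ⟨p128_k0, nat_lit 0, nat_lit 0, nat_lit 588, nat_lit 0, nat_lit 1331539, [nat_lit 1029228801, nat_lit 2061844267, nat_lit 2570112800], [], [nat_lit 27232106476, nat_lit 28008139733, nat_lit 30375645744, nat_lit 32040234753, nat_lit 27597127413, nat_lit 28181116149, nat_lit 29312100773, nat_lit 29790853463], nat_lit 1271250, nat_lit 1271250, nat_lit 1271250, nat_lit 1271250, nat_lit 43600, nat_lit 1756600, [nat_lit 230000, nat_lit 780000, nat_lit 1100000], [nat_lit 35, nat_lit 40, nat_lit 40, nat_lit 80, nat_lit 22, nat_lit 289, nat_lit 75, nat_lit 12]⟩, ⟨p128_k1, nat_lit 0, nat_lit 0, nat_lit 54, nat_lit 0, nat_lit 0, [nat_lit 1582928000, nat_lit 3651952000,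 nat_lit 4868750000], [], [nat_lit 13992386960, nat_lit 15159337738, nat_lit 18362458568, nat_lit 19259949002, nat_lit 18254729343, nat_lit 19139786767, nat_lit 21502875175, nat_lit 22227874951], nat_lit 0, nat_lit 0, nat_lit 0, nat_lit 0, nat_lit 0, nat_lit 0, [], [nat_lit 6, nat_lit 40, nat_lit 40, nat_lit 80, nat_lit 3, nat_lit 289, nat_lit 75, nat_lit 10]⟩,
 ⟨nat_lit 2236, nat_lit 3163, ⟨.ofNat (nat_lit 632548), .ofNat (nat_lit 815720), .ofNat (nat_lit 654639), .ofNat (nat_lit 837812), .ofNat (nat_lit 636264), .ofNat (nat_lit 807623), .ofNat (nat_lit 658975), .ofNat (nat_lit 830334)⟩, ⟨.ofNat (nat_lit 20000), .ofNat (nat_lit 440213), .ofNat (nat_lit 20000), .ofNat (nat_lit 484523), .ofNat (nat_lit 20000), .ofNat (nat_lit 431772), .ofNat (nat_lit 20000), .ofNat (nat_lit 477320)⟩⟩, [⟨nat_lit 0, nat_lit 75, nat_lit 46, nat_lit 100, nat_lit 370136878⟩, ⟨nat_lit 16, nat_lit 53, nat_lit 100, nat_lit 87, nat_lit 160186241⟩,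 ⟨nat_lit 19, nat_lit 87, nat_lit 95, nat_lit 100, nat_lit 282354407⟩, ⟨nat_lit 7, nat_lit 100, nat_lit 81, nat_lit 92, nat_lit 42197941⟩]⟩
noncomputable def p128_l43 : Lf2 := ⟨nat_lit 0, nat_lit 10, [nat_lit 0, nat_lit 5, nat_lit 5, nat_lit 20], false, nat_lit 20, nat_lit 208, nat_lit 160, nat_lit 300, ⟨nat_lit 1000, nat_lit 0, nat_lit 0, nat_lit 0, nat_lit 0, nat_lit 0, nat_lit 0, nat_lit 0, nat_lit 0, nat_lit 0, nat_lit 0, nat_lit 0, nat_lit 0, nat_lit 0, nat_lit 0, nat_lit 0, false, false⟩,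
 nat_lit 0, nat_lit 4444, nat_lit 0, nat_lit 0, nat_lit 4152, nat_lit 3796, nat_lit 533, nat_lit 0, nat_lit 0, nat_lit 0, nat_lit 0, nat_lit 0, nat_lit 0, nat_lit 0, nat_lit 0, nat_lit 0, nat_lit 0, nat_lit 0, [],
 ⟨p128_k5, nat_lit 0, nat_lit 0, nat_lit 523, nat_lit 0, nat_lit 1344724, [nat_lit 938000000, nat_lit 3282000000], [], [nat_lit 26338759198, nat_lit 28259100142, nat_lit 30479373888, nat_lit 32046803792, nat_lit 26685941446, nat_lit 27531396735, nat_lit 28816773789, nat_lit 29832742439], nat_lit 1271250, nat_lit 1271250, nat_lit 1271250, nat_lit 1271250, nat_lit 111251, nat_lit 1474250, [nat_lit 230000, nat_lit 780000], [nat_lit 66, nat_lit 40, nat_lit 40, nat_lit 80, nat_lit 67, nat_lit 272, nat_lit 60, nat_lit 14]⟩, ⟨p128_k1, nat_lit 0, nat_lit 0, nat_lit 54, nat_lit 0, nat_lit 0, [nat_lit 2032000000, nat_lit 4688000000, nat_lit 6250000000], [], [nat_lit 19308457740, nat_lit 20733104732, nat_lit 23562670768,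 nat_lit 24796414096, nat_lit 24426033724, nat_lit 25564616614, nat_lit 27713536664, nat_lit 28658250818], nat_lit 0, nat_lit 0, nat_lit 0, nat_lit 0, nat_lit 0, nat_lit 0, [], [nat_lit 6, nat_lit 40, nat_lit 40, nat_lit 80, nat_lit 3, nat_lit 289, nat_lit 75, nat_lit 9]⟩,
 zbF0, [⟨nat_lit 0, nat_lit 82, nat_lit 34, nat_lit 100, nat_lit 244351593⟩, ⟨nat_lit 16, nat_lit 32, nat_lit 100, nat_lit 88, nat_lit 369929228⟩, ⟨nat_lit 19, nat_lit 87, nat_lit 95, nat_lit 100, nat_lit 422840857⟩]⟩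
noncomputable def p128_l44 : Lf2 := ⟨nat_lit 0, nat_lit 10, [nat_lit 0, nat_lit 5, nat_lit 5, nat_lit 20], false, nat_lit 16, nat_lit 248, nat_lit 160, nat_lit 300, ⟨nat_lit 1000, nat_lit 0, nat_lit 0, nat_lit 0, nat_lit 0, nat_lit 0, nat_lit 0, nat_lit 0, nat_lit 0, nat_lit 0, nat_lit 0, nat_lit 0, nat_lit 0, nat_lit 0, nat_lit 0, nat_lit 0, false, false⟩,
 nat_lit 0, nat_lit 6398, nat_lit 0, nat_lit 0, nat_lit 5572, nat_lit 5453, nat_lit 255, nat_lit 0, nat_lit 0, nat_lit 469, nat_lit 0, nat_lit 0, nat_lit 0, nat_lit 0, nat_lit 0, nat_lit 0, nat_lit 0, nat_lit 0, [],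
 ⟨p128_k0, nat_lit 0, nat_lit 0, nat_lit 556, nat_lit 0, nat_lit 1260975, [nat_lit 938000000, nat_lit 3282000000, nat_lit 4688000000], [], [nat_lit 33488746926, nat_lit 33858037193, nat_lit 38481673498, nat_lit 39198186261, nat_lit 32397262628, nat_lit 32686878002, nat_lit 34396573973, nat_lit 34636289517], nat_lit 1271250, nat_lit 1271250, nat_lit 1271250, nat_lit 1271250, nat_lit 88400, nat_lit 1761700, [nat_lit 230000, nat_lit 780000, nat_lit 1100000], [nat_lit 35, nat_lit 40, nat_lit 40, nat_lit 80, nat_lit 22, nat_lit 289, nat_lit 75, nat_lit 12]⟩, ⟨p128_k1, nat_lit 0, nat_lit 0, nat_lit 87, nat_lit 0, nat_lit 0, [nat_lit 2032000000, nat_lit 4688000000, nat_lit 6250000000], [], [nat_lit 25969585860, nat_lit 27149811970, nat_lit 30903723808, nat_lit 31888562796, nat_lit 29456238249, nat_lit 30405099950, nat_lit 33585949754, nat_lit 34438218507], nat_lit 0, nat_lit 0, nat_lit 0, nat_lit 0, nat_lit 0, nat_lit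 0, [], [nat_lit 6, nat_lit 40, nat_lit 40, nat_lit 80, nat_lit 3, nat_lit 289, nat_lit 75, nat_lit 9]⟩,
 zbF0, [⟨nat_lit 4, nat_lit 100, nat_lit 57, nat_lit 87, nat_lit 147994999⟩, ⟨nat_lit 19, nat_lit 81, nat_lit 100, nat_lit 92, nat_lit 416966436⟩]⟩
noncomputable def p128_l45 : Lf2 := ⟨nat_lit 0, nat_lit 10, [nat_lit 0, nat_lit 5, nat_lit 5, nat_lit 20], false, nat_lit 16, nat_lit 232, nat_lit 160, nat_lit 300, ⟨nat_lit 1000, nat_lit 0, nat_lit 0, nat_lit 0, nat_lit 0, nat_lit 0, nat_lit 0, nat_lit 0, nat_lit 0, nat_lit 0, nat_lit 0, nat_lit 0, nat_lit 0, nat_lit 0, nat_lit 0, nat_lit 0, false, false⟩,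
 nat_lit 0, nat_lit 4372, nat_lit 0, nat_lit 0, nat_lit 3945, nat_lit 5289, nat_lit 860, nat_lit 0, nat_lit 0, nat_lit 447, nat_lit 0, nat_lit 0, nat_lit 0, nat_lit 0, nat_lit 0, nat_lit 0, nat_lit 0, nat_lit 0, [],
 ⟨p128_k2, nat_lit 0, nat_lit 0, nat_lit 561, nat_lit 0, nat_lit 1269335, [nat_lit 938000000, nat_lit 3282000000, nat_lit 4688000000], [], [nat_lit 29386422954, nat_lit 30151057456, nat_lit 34231124304, nat_lit 34842333058, nat_lit 29999051582, nat_lit 30329906157, nat_lit 32193410890, nat_lit 32478570656], nat_lit 1271250, nat_lit 1271250, nat_lit 1271250, nat_lit 1271250, nat_lit 88400, nat_lit 1646300, [nat_lit 230000, nat_lit 780000, nat_lit 1100000], [nat_lit 35, nat_lit 40, nat_lit 40, nat_lit 80, nat_lit 22, nat_lit 272, nat_lit 60, nat_lit 11]⟩, ⟨p128_k1, nat_lit 0, nat_lit 0, nat_lit 82, nat_lit 0, nat_lit 0, [nat_lit 2032000000, nat_lit 4688000000, nat_lit 6250000000], [], [nat_lit 26158344180,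 nat_lit 27320715610, nat_lit 30745422505, nat_lit 31668497265, nat_lit 29639828437, nat_lit 30516482083, nat_lit 33260748670, nat_lit 34010834954], nat_lit 0, nat_lit 0, nat_lit 0, nat_lit 0, nat_lit 0, nat_lit 0, [], [nat_lit 6, nat_lit 40, nat_lit 40, nat_lit 80, nat_lit 3, nat_lit 289, nat_lit 75, nat_lit 9]⟩,
 zbF0, [⟨nat_lit 16, nat_lit 48, nat_lit 100, nat_lit 87, nat_lit 271104973⟩, ⟨nat_lit 19, nat_lit 87, nat_lit 95, nat_lit 100, nat_lit 348566031⟩]⟩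
noncomputable def p128_l46 : Lf2 := ⟨nat_lit 0, nat_lit 10, [nat_lit 0, nat_lit 5, nat_lit 5, nat_lit 20], false, nat_lit 20, nat_lit 208, nat_lit 160, nat_lit 300, ⟨nat_lit 1000, nat_lit 0, nat_lit 0, nat_lit 0, nat_lit 0, nat_lit 0, nat_lit 0, nat_lit 0, nat_lit 0, nat_lit 0, nat_lit 0, nat_lit 0, nat_lit 0, nat_lit 0, nat_lit 0, nat_lit 0, false, false⟩,
 nat_lit 0, nat_lit 4056, nat_lit 0, nat_lit 0, nat_lit 3790, nat_lit 5393, nat_lit 520, nat_lit 0, nat_lit 0, nat_lit 0, nat_lit 0, nat_lit 0, nat_lit 0, nat_lit 0, nat_lit 0, nat_lit 0, nat_lit 0, nat_lit 0, [],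
 ⟨p128_k5, nat_lit 0, nat_lit 0, nat_lit 533, nat_lit 0, nat_lit 1344724, [nat_lit 938000000, nat_lit 3282000000], [], [nat_lit 30942883280, nat_lit 31721445140, nat_lit 33981818419, nat_lit 35195459594, nat_lit 31633339821, nat_lit 32314696377, nat_lit 33746515328, nat_lit 34345296159], nat_lit 1271250, nat_lit 1271250, nat_lit 1271250, nat_lit 1271250, nat_lit 111251, nat_lit 1474250, [nat_lit 230000, nat_lit 780000], [nat_lit 66, nat_lit 40, nat_lit 40, nat_lit 80, nat_lit 67, nat_lit 272, nat_lit 60, nat_lit 14]⟩, ⟨p128_k1, nat_lit 0, nat_lit 0, nat_lit 79, nat_lit 0, nat_lit 0, [nat_lit 2032000000, nat_lit 4688000000, nat_lit 6250000000], [], [nat_lit 25684168660, nat_lit 26940724344, nat_lit 30364665325, nat_lit 31372243924, nat_lit 29485440730, nat_lit 30429874460, nat_lit 33035103804, nat_lit 33908449382], nat_lit 0, nat_lit 0, nat_lit 0, nat_lit 0, nat_lit 0, nat_lit 0, [], [nat_lit 6, nat_lit 40, nat_lit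 40, nat_lit 80, nat_lit 3, nat_lit 289, nat_lit 75, nat_lit 9]⟩,
 zbF0, [⟨nat_lit 4, nat_lit 100, nat_lit 32, nat_lit 88, nat_lit 533662072⟩, ⟨nat_lit 19, nat_lit 87, nat_lit 95, nat_lit 100, nat_lit 343696224⟩, ⟨nat_lit 10, nat_lit 88, nat_lit 63, nat_lit 100, nat_lit 17769084⟩]⟩
noncomputable def p128_l47 : Lf2 := ⟨nat_lit 0, nat_lit 10, [nat_lit 0, nat_lit 5, nat_lit 5, nat_lit 20], false, nat_lit 8, nat_lit 248, nat_lit 0, nat_lit 300, ⟨nat_lit 1000, nat_lit 0, nat_lit 0, nat_lit 0, nat_lit 0, nat_lit 0, nat_lit 0, nat_lit 0, nat_lit 0, nat_lit 0, nat_lit 0, nat_lit 0, nat_lit 0, nat_lit 0, nat_lit 0, nat_lit 0, false, false⟩,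
 nat_lit 7932, nat_lit 0, nat_lit 0, nat_lit 0, nat_lit 6001, nat_lit 5948, nat_lit 288, nat_lit 0, nat_lit 0, nat_lit 432, nat_lit 0, nat_lit 0, nat_lit 0, nat_lit 0, nat_lit 0, nat_lit 0, nat_lit 0, nat_lit 0, [],
 ⟨p128_k0, nat_lit 0, nat_lit 0, nat_lit 380, nat_lit 0, nat_lit 750380, [nat_lit 938000000, nat_lit 3282000000, nat_lit 4688000000], [], [nat_lit 26740816524, nat_lit 29368196034, nat_lit 40234137257, nat_lit 41732354888, nat_lit 25713881279, nat_lit 26659510546, nat_lit 34631945474, nat_lit 35758172292], nat_lit 1271250, nat_lit 1271250, nat_lit 1271250, nat_lit 1271250, nat_lit 43600, nat_lit 1756600, [nat_lit 230000, nat_lit 780000, nat_lit 1100000], [nat_lit 35, nat_lit 40, nat_lit 40, nat_lit 80, nat_lit 22, nat_lit 289, nat_lit 75, nat_lit 12]⟩, ⟨p128_k1, nat_lit 0, nat_lit 0, nat_lit 477, nat_lit 0, nat_lit 899943, [nat_lit 2032000000, nat_lit 4688000000, nat_lit 6250000000], [], [nat_lit 32097736832,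 nat_lit 32946478992, nat_lit 38146409536, nat_lit 39265444752, nat_lit 31938851780, nat_lit 32552335324, nat_lit 36049027796, nat_lit 36445789466], nat_lit 1271250, nat_lit 1271250, nat_lit 1271250, nat_lit 1271250, nat_lit 0, nat_lit 2118750, [nat_lit 490000, nat_lit 1100000, nat_lit 1442500], [nat_lit 6, nat_lit 40, nat_lit 40, nat_lit 80, nat_lit 3, nat_lit 289, nat_lit 75, nat_lit 10]⟩,
 zbF0, [⟨nat_lit 0, nat_lit 75, nat_lit 46, nat_lit 100, nat_lit 170713832⟩, ⟨nat_lit 4, nat_lit 100, nat_lit 53, nat_lit 87, nat_lit 115877672⟩, ⟨nat_lit 7, nat_lit 100, nat_lit 81, nat_lit 92, nat_lit 179170661⟩]⟩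
noncomputable def p128_l48 : Lf2 := ⟨nat_lit 0, nat_lit 10, [nat_lit 0, nat_lit 5, nat_lit 5, nat_lit 20], false, nat_lit 20, nat_lit 208, nat_lit 0, nat_lit 300, ⟨nat_lit 1000, nat_lit 0, nat_lit 0, nat_lit 0, nat_lit 0, nat_lit 0, nat_lit 0, nat_lit 0, nat_lit 0, nat_lit 0, nat_lit 0, nat_lit 0, nat_lit 0, nat_lit 0, nat_lit 0, nat_lit 0, false, false⟩,
 nat_lit 8446, nat_lit 0, nat_lit 0, nat_lit 0, nat_lit 3800, nat_lit 6334, nat_lit 528, nat_lit 0, nat_lit 0, nat_lit 401, nat_lit 0, nat_lit 0, nat_lit 0, nat_lit 0, nat_lit 0, nat_lit 0, nat_lit 0, nat_lit 0, [],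
 ⟨p128_k5, nat_lit 0, nat_lit 0, nat_lit 343, nat_lit 0, nat_lit 765799, [nat_lit 938000000, nat_lit 3282000000], [], [nat_lit 25645503541, nat_lit 27472266341, nat_lit 34010258161, nat_lit 35225350480, nat_lit 25418086544, nat_lit 26347553520, nat_lit 31792533745, nat_lit 32800021153], nat_lit 1271250, nat_lit 1271250, nat_lit 1271250, nat_lit 1271250, nat_lit 111251, nat_lit 1474250, [nat_lit 230000, nat_lit 780000], [nat_lit 66, nat_lit 40, nat_lit 40, nat_lit 80, nat_lit 67, nat_lit 272, nat_lit 60, nat_lit 14]⟩, ⟨p128_k1, nat_lit 0, nat_lit 0, nat_lit 519, nat_lit 0, nat_lit 998859, [nat_lit 2032000000, nat_lit 4688000000, nat_lit 6250000000], [], [nat_lit 33537809740, nat_lit 34254148842, nat_lit 38183362924, nat_lit 39627789078, nat_lit 32335218890, nat_lit 32850109843, nat_lit 35213333911, nat_lit 35550491847], nat_lit 1271250, nat_lit 1271250, nat_lit 1271250, nat_lit 1271250, nat_lit 0, nat_lit 2118750,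 [nat_lit 490000, nat_lit 1100000, nat_lit 1442500], [nat_lit 6, nat_lit 40, nat_lit 40, nat_lit 80, nat_lit 3, nat_lit 289, nat_lit 75, nat_lit 10]⟩,
 zbF0, [⟨nat_lit 0, nat_lit 82, nat_lit 34, nat_lit 100, nat_lit 229486835⟩, ⟨nat_lit 4, nat_lit 100, nat_lit 32, nat_lit 88, nat_lit 417176361⟩, ⟨nat_lit 7, nat_lit 100, nat_lit 81, nat_lit 92, nat_lit 151164197⟩]⟩
noncomputable def p128_l49 : Lf2 := ⟨nat_lit 0, nat_lit 10, [nat_lit 0, nat_lit 5, nat_lit 5, nat_lit 20], false, nat_lit 8, nat_lit 160, nat_lit 0, nat_lit 160, ⟨nat_lit 1000, nat_lit 0, nat_lit 0, nat_lit 0, nat_lit 0, nat_lit 0, nat_lit 0, nat_lit 0, nat_lit 0, nat_lit 0, nat_lit 0, nat_lit 0, nat_lit 0, nat_lit 0, nat_lit 0, nat_lit 0, false, false⟩,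
 nat_lit 0, nat_lit 6366, nat_lit 0, nat_lit 0, nat_lit 5544, nat_lit 5991, nat_lit 284, nat_lit 0, nat_lit 0, nat_lit 592, nat_lit 0, nat_lit 0, nat_lit 0, nat_lit 0, nat_lit 0, nat_lit 0, nat_lit 0, nat_lit 0, [],
 ⟨p128_k0, nat_lit 0, nat_lit 0, nat_lit 588, nat_lit 0, nat_lit 1331539, [nat_lit 938000000, nat_lit 3282000000, nat_lit 4688000000], [], [nat_lit 32611079716, nat_lit 33435295355, nat_lit 38896381082, nat_lit 40330695672, nat_lit 31289925252, nat_lit 31947924096, nat_lit 35327527872, nat_lit 35820361040], nat_lit 1271250, nat_lit 1271250, nat_lit 1271250, nat_lit 1271250, nat_lit 43600, nat_lit 1100001, [nat_lit 230000, nat_lit 780000, nat_lit 1100000], [nat_lit 35, nat_lit 40, nat_lit 40, nat_lit 80, nat_lit 22, nat_lit 265, nat_lit 40, nat_lit 11]⟩, ⟨p128_k1, nat_lit 0, nat_lit 0, nat_lit 176, nat_lit 0, nat_lit 0, [nat_lit 2032000000, nat_lit 4688000000, nat_lit 6250000000], [], [nat_lit 24180038688,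 nat_lit 25827197664, nat_lit 38035284196, nat_lit 39390833784, nat_lit 21463228968, nat_lit 22840874046, nat_lit 31426309304, nat_lit 32615362032], nat_lit 0, nat_lit 0, nat_lit 0, nat_lit 0, nat_lit 0, nat_lit 0, [], [nat_lit 6, nat_lit 40, nat_lit 40, nat_lit 80, nat_lit 3, nat_lit 249, nat_lit 40, nat_lit 9]⟩,
 zbF0, []⟩
noncomputable def p128_l50 : Lf2 := ⟨nat_lit 0, nat_lit 10, [nat_lit 0, nat_lit 5, nat_lit 5, nat_lit 20], false, nat_lit 8, nat_lit 160, nat_lit 160, nat_lit 300, ⟨nat_lit 710, nat_lit 290, nat_lit 0, nat_lit 8, nat_lit 317, nat_lit 290, nat_lit 70, nat_lit 0, nat_lit 0, nat_lit 0, nat_lit 0, nat_lit 0, nat_lit 0, nat_lit 0, nat_lit 0, nat_lit 5000000, true, false⟩,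
 nat_lit 0, nat_lit 5094, nat_lit 0, nat_lit 0, nat_lit 4436, nat_lit 3872, nat_lit 135, nat_lit 0, nat_lit 0, nat_lit 1254, nat_lit 0, nat_lit 0, nat_lit 0, nat_lit 0, nat_lit 0, nat_lit 290000, nat_lit 0, nat_lit 0, [(nat_lit 24, [(nat_lit 2, nat_lit 290)])],
 ⟨p128_k0, nat_lit 0, nat_lit 0, nat_lit 588, nat_lit 0, nat_lit 1331539, [nat_lit 1091700000, nat_lit 2193108000, nat_lit 2722032000], [], [nat_lit 29867692843, nat_lit 30575443191, nat_lit 35652980991, nat_lit 36932362168, nat_lit 29270372713, nat_lit 29885063224, nat_lit 33078273616, nat_lit 33523753528], nat_lit 1271250, nat_lit 1271250, nat_lit 1271250, nat_lit 1271250, nat_lit 43600, nat_lit 1100001, [nat_lit 230000, nat_lit 780000, nat_lit 1100000], [nat_lit 35, nat_lit 40, nat_lit 40, nat_lit 80, nat_lit 22, nat_lit 265, nat_lit 40, nat_lit 11]⟩, ⟨p128_k1, nat_lit 0, nat_lit 0, nat_lit 87, nat_lit 0, nat_lit 0, [nat_lit 1442720000, nat_lit 3328480000,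 nat_lit 4437500000], [], [nat_lit 14029734488, nat_lit 15219089952, nat_lit 21941626712, nat_lit 22640891844, nat_lit 17958693028, nat_lit 18842105076, nat_lit 23846457306, nat_lit 24451589781], nat_lit 0, nat_lit 0, nat_lit 0, nat_lit 0, nat_lit 0, nat_lit 0, [], [nat_lit 6, nat_lit 40, nat_lit 40, nat_lit 80, nat_lit 3, nat_lit 289, nat_lit 75, nat_lit 10]⟩,
 ⟨nat_lit 2236, nat_lit 3163, ⟨.ofNat (nat_lit 632548), .ofNat (nat_lit 937695), .ofNat (nat_lit 654639), .ofNat (nat_lit 959850), .ofNat (nat_lit 636264), .ofNat (nat_lit 921722), .ofNat (nat_lit 658975), .ofNat (nat_lit 944496)⟩, ⟨.ofNat (nat_lit 20000), .ofNat (nat_lit 306116), .ofNat (nat_lit 20000), .ofNat (nat_lit 350426), .ofNat (nat_lit 20000), .ofNat (nat_lit 306337), .ofNat (nat_lit 20000), .ofNat (nat_lit 351886)⟩⟩, [⟨nat_lit 7, nat_lit 100, nat_lit 81, nat_lit 92, nat_lit 336337236⟩]⟩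
noncomputable def p128_l51 : Lf2 := ⟨nat_lit 0, nat_lit 10, [nat_lit 0, nat_lit 5, nat_lit 5, nat_lit 20], false, nat_lit 160, nat_lit 248, nat_lit 0, nat_lit 300, ⟨nat_lit 843, nat_lit 157, nat_lit 0, nat_lit 8, nat_lit 314, nat_lit 157, nat_lit 157, nat_lit 0, nat_lit 0, nat_lit 0, nat_lit 0, nat_lit 0, nat_lit 0, nat_lit 0, nat_lit 0, nat_lit 5000000, true, false⟩,
 nat_lit 0, nat_lit 5566, nat_lit 0, nat_lit 0, nat_lit 4847, nat_lit 5632, nat_lit 220, nat_lit 0, nat_lit 0, nat_lit 1418, nat_lit 0, nat_lit 0, nat_lit 0, nat_lit 0, nat_lit 0, nat_lit 157000, nat_lit 0, nat_lit 0, [(nat_lit 24, [(nat_lit 2, nat_lit 157)])],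
 ⟨p128_k0, nat_lit 0, nat_lit 0, nat_lit 488, nat_lit 0, nat_lit 1264611, [nat_lit 1021210000, nat_lit 2692496400, nat_lit 3623665600], [], [nat_lit 27928377804, nat_lit 28692736184, nat_lit 32526069515, nat_lit 33078429362, nat_lit 29122219396, nat_lit 29824316375, nat_lit 33083570837, nat_lit 33970325570], nat_lit 1271250, nat_lit 1271250, nat_lit 1271250, nat_lit 1271250, nat_lit 1100001, nat_lit 1853500, [nat_lit 230000, nat_lit 780000, nat_lit 1100000], [nat_lit 35, nat_lit 40, nat_lit 40, nat_lit 80, nat_lit 22, nat_lit 250, nat_lit 0, nat_lit 9]⟩, ⟨p128_k1, nat_lit 0, nat_lit 0, nat_lit 172, nat_lit 0, nat_lit 0, [nat_lit 1712976000, nat_lit 3951984000, nat_lit 5268750000], [], [nat_lit 19563019660, nat_lit 20626773614, nat_lit 33336916090, nat_lit 33953318514, nat_lit 21043429797, nat_lit 21535638556, nat_lit 29297113467, nat_lit 29692864514], nat_lit 0, nat_lit 0, nat_lit 0, nat_lit 0, nat_lit 0, nat_lit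 0, [], [nat_lit 6, nat_lit 40, nat_lit 40, nat_lit 80, nat_lit 3, nat_lit 289, nat_lit 75, nat_lit 10]⟩,
 ⟨nat_lit 2236, nat_lit 3163, ⟨.ofNat (nat_lit 632548), .ofNat (nat_lit 931599), .ofNat (nat_lit 643594), .ofNat (nat_lit 942677), .ofNat (nat_lit 636264), .ofNat (nat_lit 916020), .ofNat (nat_lit 647620), .ofNat (nat_lit 927408)⟩, ⟨.ofNat (nat_lit 306116), .ofNat (nat_lit 440213), .ofNat (nat_lit 350426), .ofNat (nat_lit 484523), .ofNat (nat_lit 306337), .ofNat (nat_lit 431772), .ofNat (nat_lit 351886), .ofNat (nat_lit 477320)⟩⟩, [⟨nat_lit 4, nat_lit 100, nat_lit 53, nat_lit 87, nat_lit 552451661⟩, ⟨nat_lit 19, nat_lit 87, nat_lit 95, nat_lit 100, nat_lit 93302117⟩]⟩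
noncomputable def p128_l52 : Lf2 := ⟨nat_lit 0, nat_lit 10, [nat_lit 0, nat_lit 5, nat_lit 5, nat_lit 20], false, nat_lit 160, nat_lit 248, nat_lit 0, nat_lit 288, ⟨nat_lit 757, nat_lit 243, nat_lit 0, nat_lit 8, nat_lit 323, nat_lit 243, nat_lit 157, nat_lit 0, nat_lit 0, nat_lit 0, nat_lit 0, nat_lit 0, nat_lit 0, nat_lit 0, nat_lit 0, nat_lit 5000000, true, false⟩,
 nat_lit 0, nat_lit 5265, nat_lit 0, nat_lit 0, nat_lit 4585, nat_lit 3557, nat_lit 151, nat_lit 0, nat_lit 0, nat_lit 1340, nat_lit 0, nat_lit 0, nat_lit 0, nat_lit 0, nat_lit 0, nat_lit 243000, nat_lit 0, nat_lit 0, [(nat_lit 24, [(nat_lit 2, nat_lit 243)])],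
 ⟨p128_k0, nat_lit 0, nat_lit 0, nat_lit 511, nat_lit 0, nat_lit 1331539, [nat_lit 1066790000, nat_lit 2369583600, nat_lit 3040654400], [], [nat_lit 28266464639, nat_lit 28960569586, nat_lit 32412233500, nat_lit 32923912110, nat_lit 29308562859, nat_lit 29925289552, nat_lit 32942541065, nat_lit 33830299903], nat_lit 1271250, nat_lit 1271250, nat_lit 1271250, nat_lit 1271250, nat_lit 1100001, nat_lit 1853500, [nat_lit 230000, nat_lit 780000, nat_lit 1100000], [nat_lit 35, nat_lit 40, nat_lit 40, nat_lit 80, nat_lit 22, nat_lit 257, nat_lit 0, nat_lit 10]⟩, ⟨p128_k4, nat_lit 0, nat_lit 0, nat_lit 176, nat_lit 0, nat_lit 0, [nat_lit 1538224000, nat_lit 3548816000, nat_lit 4731250000], [], [nat_lit 16758934091, nat_lit 17552983675, nat_lit 26511212997, nat_lit 26966444406, nat_lit 18487956261, nat_lit 18840679101, nat_lit 24801731709, nat_lit 25116458082], nat_lit 0, nat_lit 0, nat_lit 0, nat_lit 0, nat_lit 0, nat_lit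 0, [], [nat_lit 6, nat_lit 40, nat_lit 40, nat_lit 80, nat_lit 3, nat_lit 289, nat_lit 75, nat_lit 10]⟩,
 ⟨nat_lit 2236, nat_lit 3163, ⟨.ofNat (nat_lit 661911), .ofNat (nat_lit 948772), .ofNat (nat_lit 672956), .ofNat (nat_lit 959850), .ofNat (nat_lit 664755), .ofNat (nat_lit 933109), .ofNat (nat_lit 676111), .ofNat (nat_lit 944496)⟩, ⟨.ofNat (nat_lit 306116), .ofNat (nat_lit 440213), .ofNat (nat_lit 350426), .ofNat (nat_lit 484523), .ofNat (nat_lit 306337), .ofNat (nat_lit 431772), .ofNat (nat_lit 351886), .ofNat (nat_lit 477320)⟩⟩, [⟨nat_lit 4, nat_lit 100, nat_lit 53, nat_lit 87, nat_lit 507569413⟩, ⟨nat_lit 19, nat_lit 83, nat_lit 98, nat_lit 100, nat_lit 123207674⟩]⟩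
noncomputable def p128_l53 : Lf2 := ⟨nat_lit 0, nat_lit 10, [nat_lit 0, nat_lit 5, nat_lit 5, nat_lit 20], false, nat_lit 20, nat_lit 208, nat_lit 0, nat_lit 300, ⟨nat_lit 1000, nat_lit 0, nat_lit 0, nat_lit 0, nat_lit 0, nat_lit 0, nat_lit 0, nat_lit 0, nat_lit 0, nat_lit 0, nat_lit 0, nat_lit 0, nat_lit 0, nat_lit 0, nat_lit 0, nat_lit 0, false, false⟩,
 nat_lit 0, nat_lit 4067, nat_lit 0, nat_lit 0, nat_lit 3800, nat_lit 6445, nat_lit 557, nat_lit 0, nat_lit 0, nat_lit 616, nat_lit 0, nat_lit 0, nat_lit 0, nat_lit 0, nat_lit 0, nat_lit 0, nat_lit 0, nat_lit 0, [],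
 ⟨p128_k5, nat_lit 0, nat_lit 0, nat_lit 533, nat_lit 0, nat_lit 1344724, [nat_lit 938000000, nat_lit 3282000000], [], [nat_lit 28380679766, nat_lit 29279738886, nat_lit 34010258161, nat_lit 35225350480, nat_lit 29523705632, nat_lit 30314363185, nat_lit 33682713345, nat_lit 34281968609], nat_lit 1271250, nat_lit 1271250, nat_lit 1271250, nat_lit 1271250, nat_lit 111251, nat_lit 1474250, [nat_lit 230000, nat_lit 780000], [nat_lit 66, nat_lit 40, nat_lit 40, nat_lit 80, nat_lit 67, nat_lit 272, nat_lit 60, nat_lit 14]⟩, ⟨p128_k1, nat_lit 0, nat_lit 0, nat_lit 173, nat_lit 0, nat_lit 0, [nat_lit 2032000000, nat_lit 4688000000, nat_lit 6250000000], [], [nat_lit 25038050354, nat_lit 27267921479, nat_lit 38484881637, nat_lit 39943141899, nat_lit 26199564099, nat_lit 27265215994, nat_lit 34218517082, nat_lit 35157509812], nat_lit 0, nat_lit 0, nat_lit 0, nat_lit 0, nat_lit 0, nat_lit 0, [], [nat_lit 6, nat_lit 40, nat_lit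 40, nat_lit 80, nat_lit 3, nat_lit 289, nat_lit 75, nat_lit 10]⟩,
 zbF0, [⟨nat_lit 4, nat_lit 100, nat_lit 32, nat_lit 88, nat_lit 489808785⟩, ⟨nat_lit 7, nat_lit 100, nat_lit 81, nat_lit 92, nat_lit 135321525⟩]⟩
noncomputable def p128_l54 : Lf2 := ⟨nat_lit 0, nat_lit 10, [nat_lit 0, nat_lit 5, nat_lit 5, nat_lit 20], false, nat_lit 8, nat_lit 248, nat_lit 0, nat_lit 300, ⟨nat_lit 529, nat_lit 471, nat_lit 0, nat_lit 8, nat_lit 315, nat_lit 471, nat_lit 94, nat_lit 0, nat_lit 0, nat_lit 0, nat_lit 0, nat_lit 0, nat_lit 0, nat_lit 0, nat_lit 0, nat_lit 5000000, true, false⟩,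
 nat_lit 4487, nat_lit 0, nat_lit 0, nat_lit 0, nat_lit 3891, nat_lit 3365, nat_lit 132, nat_lit 0, nat_lit 0, nat_lit 212, nat_lit 0, nat_lit 0, nat_lit 0, nat_lit 0, nat_lit 0, nat_lit 325800, nat_lit 0, nat_lit 0, [(nat_lit 24, [(nat_lit 1, nat_lit 242), (nat_lit 2, nat_lit 229)]), (nat_lit 27, [(nat_lit 1, nat_lit 242), (nat_lit 2, nat_lit 229)])],
 ⟨p128_k0, nat_lit 0, nat_lit 0, nat_lit 416, nat_lit 0, nat_lit 832857, [nat_lit 1037590000, nat_lit 1869261467, nat_lit 2232032000], [], [nat_lit 26158135308, nat_lit 28074476654, nat_lit 34057626253, nat_lit 36463972164, nat_lit 27634259612, nat_lit 29152727217, nat_lit 32626894947, nat_lit 33825375413], nat_lit 1271250, nat_lit 1271250, nat_lit 1271250, nat_lit 1271250, nat_lit 43600, nat_lit 1756600, [nat_lit 230000, nat_lit 780000, nat_lit 1100000], [nat_lit 35, nat_lit 40, nat_lit 40, nat_lit 80, nat_lit 22, nat_lit 289, nat_lit 75, nat_lit 12]⟩, ⟨p128_k1,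 nat_lit 0, nat_lit 0, nat_lit 520, nat_lit 0, nat_lit 998859, [nat_lit 1074928000, nat_lit 2479952000, nat_lit 3306250000], [], [nat_lit 17389089352, nat_lit 17795952384, nat_lit 20668356852, nat_lit 21408594846, nat_lit 16890538285, nat_lit 17163368301, nat_lit 18655826269, nat_lit 18829127733], nat_lit 1271250, nat_lit 1271250, nat_lit 1271250, nat_lit 1271250, nat_lit 0, nat_lit 2118750, [nat_lit 490000, nat_lit 1100000, nat_lit 1442500], [nat_lit 6, nat_lit 40, nat_lit 40, nat_lit 80, nat_lit 3, nat_lit 289, nat_lit 75, nat_lit 10]⟩,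
 ⟨nat_lit 0, nat_lit 3163, ⟨.ofNat (nat_lit 625100), .ofNat (nat_lit 937693), .ofNat (nat_lit 645949), .ofNat (nat_lit 959849), .ofNat (nat_lit 642170), .ofNat (nat_lit 899997), .ofNat (nat_lit 665865), .ofNat (nat_lit 924998)⟩, ⟨.ofNat (nat_lit 20000), .ofNat (nat_lit 440207), .ofNat (nat_lit 20000), .ofNat (nat_lit 484518), .ofNat (nat_lit 20000), .ofNat (nat_lit 409993), .ofNat (nat_lit 20000), .ofNat (nat_lit 459993)⟩⟩, [⟨nat_lit 4, nat_lit 100, nat_lit 44, nat_lit 87, nat_lit 161163757⟩, ⟨nat_lit 19, nat_lit 81, nat_lit 100, nat_lit 92, nat_lit 69877259⟩]⟩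
noncomputable def b_V_900_800_20_3 : St := ⟨true, nat_lit 1, nat_lit 2, nat_lit 0, nat_lit 120, nat_lit 360, nat_lit 400, nat_lit 320, nat_lit 340, nat_lit 200, nat_lit 400, nat_lit 80, nat_lit 120, nat_lit 8, nat_lit 248, nat_lit 0, nat_lit 300, nat_lit 0, nat_lit 40, nat_lit 0, nat_lit 0, nat_lit 0, nat_lit 0⟩
theorem d_V_900_800_20_3 (h : EB TB.env) : Dead b_V_900_800_20_3 := chkB_sound0 h (T :=
(.gv
(.st (nat_lit 1)
(.spl (nat_lit 5) (nat_lit 160)
(.spl (nat_lit 0) (nat_lit 380)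
(.leaf p128_l40)
(.trZ (nat_lit 0) (nat_lit 82) (nat_lit 44) (nat_lit 100) (nat_lit 236) (.trX (nat_lit 13) (nat_lit 61) (nat_lit 47) (nat_lit 100) (nat_lit 392) (.trZ (nat_lit 3) (nat_lit 100) (nat_lit 54) (nat_lit 57) (nat_lit 20) (.trX (nat_lit 16) (nat_lit 44) (nat_lit 100) (nat_lit 92) (nat_lit 208) (.leaf p128_l41))))))
(.spl (nat_lit 2) (nat_lit 320)
(.spl (nat_lit 0) (nat_lit 380)
(.leaf p128_l42)
(.trZ (nat_lit 0) (nat_lit 82) (nat_lit 44) (nat_lit 100) (nat_lit 236) (.trZ (nat_lit 3) (nat_lit 100) (nat_lit 54) (nat_lit 57) (nat_lit 20) (.trX (nat_lit 16) (nat_lit 44) (nat_lit 100) (nat_lit 92) (nat_lit 208) (.leaf p128_l43)))))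
(.trZ (nat_lit 22) (nat_lit 82) (nat_lit 100) (nat_lit 44) (nat_lit 16) (.spl (nat_lit 0) (nat_lit 380)
(.spl (nat_lit 0) (nat_lit 370)
(.leaf p128_l44)
(.trX (nat_lit 13) (nat_lit 74) (nat_lit 33) (nat_lit 100) (nat_lit 396) (.trX (nat_lit 16) (nat_lit 53) (nat_lit 100) (nat_lit 93) (nat_lit 232) (.leaf p128_l45))))
(.trX (nat_lit 13) (nat_lit 61) (nat_lit 47) (nat_lit 100) (nat_lit 392) (.trZ (nat_lit 3) (nat_lit 100) (nat_lit 54) (nat_lit 57) (nat_lit 20) (.trX (nat_lit 16) (nat_lit 44) (nat_lit 100) (nat_lit 92) (nat_lit 208) (.leaf p128_l46))))))))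
(.spl (nat_lit 0) (nat_lit 380)
(.leaf p128_l47)
(.trZ (nat_lit 0) (nat_lit 82) (nat_lit 44) (nat_lit 100) (nat_lit 236) (.trX (nat_lit 13) (nat_lit 61) (nat_lit 47) (nat_lit 100) (nat_lit 392) (.trZ (nat_lit 3) (nat_lit 100) (nat_lit 54) (nat_lit 57) (nat_lit 20) (.trX (nat_lit 16) (nat_lit 44) (nat_lit 100) (nat_lit 92) (nat_lit 208) (.leaf p128_l48)))))))
(.st (nat_lit 1)
(.spl (nat_lit 0) (nat_lit 380)
(.spl (nat_lit 4) (nat_lit 160)
(.spl (nat_lit 5) (nat_lit 160)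
(.leaf p128_l49)
(.leaf p128_l50))
(.spl (nat_lit 1) (nat_lit 330)
(.trX (nat_lit 13) (nat_lit 79) (nat_lit 29) (nat_lit 100) (nat_lit 396) (.leaf p128_l51))
(.trZ (nat_lit 0) (nat_lit 76) (nat_lit 60) (nat_lit 100) (nat_lit 212) (.trX (nat_lit 19) (nat_lit 83) (nat_lit 98) (nat_lit 100) (nat_lit 288) (.leaf p128_l52)))))
(.trZ (nat_lit 0) (nat_lit 82) (nat_lit 44) (nat_lit 100) (nat_lit 236) (.trX (nat_lit 13) (nat_lit 61) (nat_lit 47) (nat_lit 100) (nat_lit 392) (.trZ (nat_lit 3) (nat_lit 100) (nat_lit 54) (nat_lit 57) (nat_lit 20) (.trX (nat_lit 16) (nat_lit 44) (nat_lit 100) (nat_lit 92) (nat_lit 208) (.leaf p128_l53))))))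
(.leaf p128_l54)))) (by decide +kernel)
noncomputable def p128_l55 : Lf2 := ⟨nat_lit 0, nat_lit 20, [nat_lit 5, nat_lit 5, nat_lit 5, nat_lit 20], false, nat_lit 8, nat_lit 160, nat_lit 0, nat_lit 160, ⟨nat_lit 1000, nat_lit 0, nat_lit 0, nat_lit 0, nat_lit 0, nat_lit 0, nat_lit 0, nat_lit 0, nat_lit 0, nat_lit 0, nat_lit 0, nat_lit 0, nat_lit 0, nat_lit 0, nat_lit 0, nat_lit 0, false, false⟩,
 nat_lit 0, nat_lit 0, nat_lit 8484, nat_lit 0, nat_lit 5297, nat_lit 6363, nat_lit 506, nat_lit 0, nat_lit 0, nat_lit 660, nat_lit 0, nat_lit 0, nat_lit 0, nat_lit 0, nat_lit 0, nat_lit 0, nat_lit 0, nat_lit 0, [],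
 ⟨p128_k15, nat_lit 0, nat_lit 0, nat_lit 177, nat_lit 0, nat_lit 0, [nat_lit 938000000, nat_lit 3282000000, nat_lit 6250000000], [], [nat_lit 25489862591, nat_lit 26699673556, nat_lit 37852797645, nat_lit 38562834705, nat_lit 22026815190, nat_lit 22753747912, nat_lit 32512433062, nat_lit 33137557263], nat_lit 0, nat_lit 0, nat_lit 0, nat_lit 0, nat_lit 0, nat_lit 0, [], [nat_lit 20, nat_lit 40, nat_lit 40, nat_lit 80, nat_lit 16, nat_lit 249, nat_lit 40, nat_lit 9]⟩, ⟨p128_k16, nat_lit 0, nat_lit 0, nat_lit 634, nat_lit 0, nat_lit 1011715, [nat_lit 2032000000, nat_lit 4688000000, nat_lit 9842000000], [], [nat_lit 32720071416, nat_lit 33069695059, nat_lit 38669093756, nat_lit 39380990194, nat_lit 29941514636, nat_lit 30233267613, nat_lit 34468207437, nat_lit 34695089680], nat_lit 1271250, nat_lit 1271250, nat_lit 1271250, nat_lit 1271250, nat_lit 0, nat_lit 1100001, [nat_lit 490000, nat_lit 1100000, nat_lit 2127500],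 [nat_lit 27, nat_lit 40, nat_lit 40, nat_lit 80, nat_lit 13, nat_lit 373, nat_lit 150, nat_lit 10]⟩,
 zbF0, []⟩
noncomputable def p128_l56 : Lf2 := ⟨nat_lit 0, nat_lit 20, [nat_lit 5, nat_lit 5, nat_lit 5, nat_lit 20], false, nat_lit 12, nat_lit 160, nat_lit 0, nat_lit 160, ⟨nat_lit 799, nat_lit 201, nat_lit 0, nat_lit 8, nat_lit 317, nat_lit 201, nat_lit 72, nat_lit 0, nat_lit 0, nat_lit 0, nat_lit 0, nat_lit 0, nat_lit 39511835, nat_lit 25061203, nat_lit 2426962, nat_lit 4172431, true, false⟩,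
 nat_lit 0, nat_lit 0, nat_lit 6820, nat_lit 0, nat_lit 3743, nat_lit 5114, nat_lit 506, nat_lit 0, nat_lit 0, nat_lit 517, nat_lit 0, nat_lit 0, nat_lit 0, nat_lit 0, nat_lit 0, nat_lit 50250, nat_lit 0, nat_lit 0, [(nat_lit 25, [(nat_lit 0, nat_lit 201)])],
 ⟨p128_k17, nat_lit 0, nat_lit 0, nat_lit 175, nat_lit 0, nat_lit 0, [nat_lit 903026001, nat_lit 2897446801, nat_lit 5419468000], [], [nat_lit 24162750800, nat_lit 25110685090, nat_lit 33545705775, nat_lit 34151324545, nat_lit 22451355712, nat_lit 23048089512, nat_lit 30593095908, nat_lit 31130977850], nat_lit 0, nat_lit 0, nat_lit 0, nat_lit 0, nat_lit 0, nat_lit 0, [], [nat_lit 20, nat_lit 40, nat_lit 40, nat_lit 80, nat_lit 16, nat_lit 249, nat_lit 40, nat_lit 8]⟩, ⟨p128_k16, nat_lit 0, nat_lit 0, nat_lit 703, nat_lit 0, nat_lit 1122083, [nat_lit 1623568000, nat_lit 3745712000, nat_lit 7863758000], [], [nat_lit 26275212365, nat_lit 26546741488, nat_lit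 30652839366, nat_lit 31233198703, nat_lit 23990076531, nat_lit 24215501394, nat_lit 27288111455, nat_lit 27471925537], nat_lit 1271250, nat_lit 1271250, nat_lit 1271250, nat_lit 1271250, nat_lit 0, nat_lit 1100001, [nat_lit 490000, nat_lit 1100000, nat_lit 2127500], [nat_lit 27, nat_lit 40, nat_lit 40, nat_lit 80, nat_lit 13, nat_lit 373, nat_lit 150, nat_lit 10]⟩,
 ⟨nat_lit 2236, nat_lit 2739, ⟨.ofNat (nat_lit 658020), .ofNat (nat_lit 917997), .ofNat (nat_lit 669219), .ofNat (nat_lit 929206), .ofNat (nat_lit 659343), .ofNat (nat_lit 910319), .ofNat (nat_lit 670720), .ofNat (nat_lit 921706)⟩, ⟨.ofNat (nat_lit 30000), .ofNat (nat_lit 306433), .ofNat (nat_lit 30000), .ofNat (nat_lit 351268), .ofNat (nat_lit 30000), .ofNat (nat_lit 306337), .ofNat (nat_lit 30000), .ofNat (nat_lit 351886)⟩⟩, []⟩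
noncomputable def p128_l57 : Lf2 := ⟨nat_lit 0, nat_lit 20, [nat_lit 5, nat_lit 5, nat_lit 5, nat_lit 20], false, nat_lit 8, nat_lit 160, nat_lit 0, nat_lit 160, ⟨nat_lit 1000, nat_lit 0, nat_lit 0, nat_lit 0, nat_lit 0, nat_lit 0, nat_lit 0, nat_lit 0, nat_lit 0, nat_lit 0, nat_lit 0, nat_lit 0, nat_lit 0, nat_lit 0, nat_lit 0, nat_lit 0, false, false⟩,
 nat_lit 0, nat_lit 0, nat_lit 6736, nat_lit 0, nat_lit 5552, nat_lit 5250, nat_lit 396, nat_lit 0, nat_lit 0, nat_lit 1165, nat_lit 0, nat_lit 0, nat_lit 0, nat_lit 0, nat_lit 0, nat_lit 0, nat_lit 0, nat_lit 0, [],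
 ⟨p128_k15, nat_lit 0, nat_lit 0, nat_lit 185, nat_lit 0, nat_lit 0, [nat_lit 938000000, nat_lit 3282000000, nat_lit 6250000000], [], [nat_lit 26457389216, nat_lit 28890796257, nat_lit 38919799133, nat_lit 40355232376, nat_lit 23487576252, nat_lit 24783129440, nat_lit 33164194720, nat_lit 34427936832], nat_lit 0, nat_lit 0, nat_lit 0, nat_lit 0, nat_lit 0, nat_lit 0, [], [nat_lit 20, nat_lit 40, nat_lit 40, nat_lit 80, nat_lit 16, nat_lit 249, nat_lit 40, nat_lit 9]⟩, ⟨p128_k18, nat_lit 0, nat_lit 0, nat_lit 705, nat_lit 0, nat_lit 1126843, [nat_lit 2032000000, nat_lit 4688000000, nat_lit 9842000000], [], [nat_lit 30062599325, nat_lit 30408009601, nat_lit 36596103500, nat_lit 37230060000, nat_lit 28611764151, nat_lit 28901715350, nat_lit 32353371500, nat_lit 32544202250], nat_lit 1271250, nat_lit 1271250, nat_lit 1271250, nat_lit 1271250, nat_lit 0, nat_lit 1100001, [nat_lit 490000, nat_lit 1100000, nat_lit 2127500],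 [nat_lit 27, nat_lit 40, nat_lit 40, nat_lit 80, nat_lit 13, nat_lit 373, nat_lit 150, nat_lit 10]⟩,
 zbF0, []⟩
noncomputable def p128_l58 : Lf2 := ⟨nat_lit 0, nat_lit 20, [nat_lit 5, nat_lit 5, nat_lit 5, nat_lit 20], false, nat_lit 8, nat_lit 160, nat_lit 160, nat_lit 300, ⟨nat_lit 666, nat_lit 334, nat_lit 0, nat_lit 8, nat_lit 294, nat_lit 334, nat_lit 70, nat_lit 0, nat_lit 0, nat_lit 0, nat_lit 0, nat_lit 0, nat_lit 41721985, nat_lit 22878503, nat_lit 2399512, nat_lit 4077313, true, false⟩,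
 nat_lit 0, nat_lit 0, nat_lit 5969, nat_lit 0, nat_lit 4051, nat_lit 4476, nat_lit 268, nat_lit 0, nat_lit 0, nat_lit 411, nat_lit 0, nat_lit 0, nat_lit 0, nat_lit 0, nat_lit 0, nat_lit 334000, nat_lit 0, nat_lit 0, [(nat_lit 25, [(nat_lit 2, nat_lit 334)])],
 ⟨p128_k15, nat_lit 0, nat_lit 0, nat_lit 144, nat_lit 0, nat_lit 0, [nat_lit 1115153600, nat_lit 2058580267, nat_lit 2860300800], [], [nat_lit 23275816284, nat_lit 23788794939, nat_lit 29165940817, nat_lit 29555323632, nat_lit 21308029394, nat_lit 21662137943, nat_lit 26265635644, nat_lit 26604989432], nat_lit 0, nat_lit 0, nat_lit 0, nat_lit 0, nat_lit 0, nat_lit 0, [], [nat_lit 20, nat_lit 40, nat_lit 40, nat_lit 80, nat_lit 16, nat_lit 249, nat_lit 40, nat_lit 9]⟩, ⟨p128_k16, nat_lit 0, nat_lit 0, nat_lit 561, nat_lit 0, nat_lit 1030633, [nat_lit 1353312000, nat_lit 3122208000, nat_lit 6554772000], [], [nat_lit 17898774975, nat_lit 18374270655, nat_lit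 19310186031, nat_lit 19678661556, nat_lit 19047753639, nat_lit 19431756453, nat_lit 20286979974, nat_lit 20740901961], nat_lit 1271250, nat_lit 1271250, nat_lit 1271250, nat_lit 1271250, nat_lit 1100001, nat_lit 2298750, [nat_lit 490000, nat_lit 1100000, nat_lit 2127500], [nat_lit 27, nat_lit 40, nat_lit 40, nat_lit 80, nat_lit 13, nat_lit 401, nat_lit 175, nat_lit 11]⟩,
 ⟨nat_lit 2958, nat_lit 3163, ⟨.ofNat (nat_lit 632913), .ofNat (nat_lit 815784), .ofNat (nat_lit 655065), .ofNat (nat_lit 837936), .ofNat (nat_lit 633646), .ofNat (nat_lit 813720), .ofNat (nat_lit 655920), .ofNat (nat_lit 835995)⟩, ⟨.ofNat (nat_lit 20000), .ofNat (nat_lit 306116), .ofNat (nat_lit 20000), .ofNat (nat_lit 350426), .ofNat (nat_lit 20000), .ofNat (nat_lit 306315), .ofNat (nat_lit 20000), .ofNat (nat_lit 350869)⟩⟩, [⟨nat_lit 0, nat_lit 73, nat_lit 57, nat_lit 100, nat_lit 46307802⟩, ⟨nat_lit 7, nat_lit 100, nat_lit 81, nat_lit 92, nat_lit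 246803865⟩]⟩
noncomputable def p128_l59 : Lf2 := ⟨nat_lit 0, nat_lit 20, [nat_lit 5, nat_lit 5, nat_lit 5, nat_lit 20], false, nat_lit 8, nat_lit 160, nat_lit 160, nat_lit 300, ⟨nat_lit 698, nat_lit 302, nat_lit 0, nat_lit 8, nat_lit 296, nat_lit 302, nat_lit 70, nat_lit 0, nat_lit 0, nat_lit 0, nat_lit 0, nat_lit 0, nat_lit 41514408, nat_lit 23090185, nat_lit 2395407, nat_lit 4085850, true, false⟩,
 nat_lit 0, nat_lit 0, nat_lit 6247, nat_lit 0, nat_lit 3977, nat_lit 4685, nat_lit 333, nat_lit 0, nat_lit 0, nat_lit 430, nat_lit 0, nat_lit 0, nat_lit 0, nat_lit 0, nat_lit 0, nat_lit 253400, nat_lit 0, nat_lit 0, [(nat_lit 25, [(nat_lit 1, nat_lit 81), (nat_lit 2, nat_lit 221)])],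
 ⟨p128_k19, nat_lit 0, nat_lit 0, nat_lit 146, nat_lit 0, nat_lit 0, [nat_lit 1047669201, nat_lit 2287822534, nat_lit 3574996400], [], [nat_lit 23958429316, nat_lit 24458059148, nat_lit 29382358163, nat_lit 29767996992, nat_lit 21787226209, nat_lit 22110067852, nat_lit 26533534551, nat_lit 26869768313], nat_lit 0, nat_lit 0, nat_lit 0, nat_lit 0, nat_lit 0, nat_lit 0, [], [nat_lit 20, nat_lit 40, nat_lit 40, nat_lit 80, nat_lit 16, nat_lit 249, nat_lit 40, nat_lit 9]⟩, ⟨p128_k16, nat_lit 0, nat_lit 0, nat_lit 577, nat_lit 0, nat_lit 1082608, [nat_lit 1418336000, nat_lit 3272224000, nat_lit 6869716000], [], [nat_lit 18861902884, nat_lit 19352341710, nat_lit 20272537902, nat_lit 20651573450, nat_lit 20032351683, nat_lit 20446400539, nat_lit 21288734797, nat_lit 21732311877], nat_lit 1271250, nat_lit 1271250, nat_lit 1271250, nat_lit 1271250, nat_lit 1100001, nat_lit 2298750, [nat_lit 490000, nat_lit 1100000, nat_lit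 2127500], [nat_lit 27, nat_lit 40, nat_lit 40, nat_lit 80, nat_lit 13, nat_lit 401, nat_lit 175, nat_lit 10]⟩,
 ⟨nat_lit 2738, nat_lit 2959, ⟨.ofNat (nat_lit 645647), .ofNat (nat_lit 813721), .ofNat (nat_lit 667920), .ofNat (nat_lit 835994), .ofNat (nat_lit 646297), .ofNat (nat_lit 811683), .ofNat (nat_lit 668711), .ofNat (nat_lit 834097)⟩, ⟨.ofNat (nat_lit 20000), .ofNat (nat_lit 306315), .ofNat (nat_lit 20000), .ofNat (nat_lit 350869), .ofNat (nat_lit 20000), .ofNat (nat_lit 306433), .ofNat (nat_lit 20000), .ofNat (nat_lit 351268)⟩⟩, [⟨nat_lit 0, nat_lit 73, nat_lit 54, nat_lit 100, nat_lit 57195066⟩, ⟨nat_lit 7, nat_lit 100, nat_lit 81, nat_lit 92, nat_lit 258073455⟩]⟩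
noncomputable def p128_l60 : Lf2 := ⟨nat_lit 0, nat_lit 20, [nat_lit 5, nat_lit 5, nat_lit 5, nat_lit 20], false, nat_lit 16, nat_lit 160, nat_lit 160, nat_lit 300, ⟨nat_lit 1000, nat_lit 0, nat_lit 0, nat_lit 0, nat_lit 0, nat_lit 0, nat_lit 0, nat_lit 0, nat_lit 0, nat_lit 0, nat_lit 0, nat_lit 0, nat_lit 0, nat_lit 0, nat_lit 0, nat_lit 0, false, false⟩,
 nat_lit 0, nat_lit 0, nat_lit 8264, nat_lit 0, nat_lit 4529, nat_lit 6198, nat_lit 442, nat_lit 0, nat_lit 0, nat_lit 570, nat_lit 0, nat_lit 0, nat_lit 0, nat_lit 0, nat_lit 0, nat_lit 0, nat_lit 0, nat_lit 0, [],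
 ⟨p128_k15, nat_lit 0, nat_lit 0, nat_lit 169, nat_lit 0, nat_lit 0, [nat_lit 938000000, nat_lit 3282000000, nat_lit 6250000000], [], [nat_lit 29896458155, nat_lit 30719880199, nat_lit 35540183204, nat_lit 36184066036, nat_lit 27798782682, nat_lit 28324360872, nat_lit 31766621072, nat_lit 32245103240], nat_lit 0, nat_lit 0, nat_lit 0, nat_lit 0, nat_lit 0, nat_lit 0, [], [nat_lit 20, nat_lit 40, nat_lit 40, nat_lit 80, nat_lit 16, nat_lit 249, nat_lit 40, nat_lit 8]⟩, ⟨p128_k16, nat_lit 0, nat_lit 0, nat_lit 561, nat_lit 0, nat_lit 1082608, [nat_lit 2032000000, nat_lit 4688000000, nat_lit 9842000000], [], [nat_lit 31798245826, nat_lit 32330646466, nat_lit 34071387018, nat_lit 34490692422, nat_lit 32846098362, nat_lit 33295706904, nat_lit 34958134546, nat_lit 35355734341], nat_lit 1271250, nat_lit 1271250, nat_lit 1271250, nat_lit 1271250, nat_lit 1100001, nat_lit 2298750, [nat_lit 490000, nat_lit 1100000, nat_lit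 2127500], [nat_lit 27, nat_lit 40, nat_lit 40, nat_lit 80, nat_lit 13, nat_lit 289, nat_lit 75, nat_lit 7]⟩,
 zbF0, [⟨nat_lit 7, nat_lit 100, nat_lit 81, nat_lit 92, nat_lit 336370055⟩]⟩
noncomputable def p128_l61 : Lf2 := ⟨nat_lit 0, nat_lit 20, [nat_lit 5, nat_lit 5, nat_lit 5, nat_lit 20], false, nat_lit 12, nat_lit 160, nat_lit 160, nat_lit 300, ⟨nat_lit 396, nat_lit 604, nat_lit 0, nat_lit 8, nat_lit 296, nat_lit 604, nat_lit 72, nat_lit 0, nat_lit 0, nat_lit 0, nat_lit 0, nat_lit 0, nat_lit 41464591, nat_lit 23034273, nat_lit 2501136, nat_lit 4110672, true, false⟩,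
 nat_lit 0, nat_lit 0, nat_lit 3570, nat_lit 0, nat_lit 2883, nat_lit 2677, nat_lit 402, nat_lit 0, nat_lit 0, nat_lit 242, nat_lit 0, nat_lit 0, nat_lit 0, nat_lit 0, nat_lit 0, nat_lit 151000, nat_lit 0, nat_lit 0, [(nat_lit 25, [(nat_lit 0, nat_lit 604)])],
 ⟨p128_k17, nat_lit 0, nat_lit 0, nat_lit 148, nat_lit 0, nat_lit 0, [nat_lit 832904000, nat_lit 2126427200, nat_lit 3754272000], [], [nat_lit 22740066592, nat_lit 23353119654, nat_lit 27058551357, nat_lit 27717704791, nat_lit 22948471988, nat_lit 23450467138, nat_lit 26288371009, nat_lit 26750282842], nat_lit 0, nat_lit 0, nat_lit 0, nat_lit 0, nat_lit 0, nat_lit 0, [], [nat_lit 20, nat_lit 40, nat_lit 40, nat_lit 80, nat_lit 16, nat_lit 249, nat_lit 40, nat_lit 8]⟩, ⟨p128_k16, nat_lit 0, nat_lit 0, nat_lit 589, nat_lit 0, nat_lit 1122083, [nat_lit 804672000, nat_lit 1856448000, nat_lit 3897432000], [], [nat_lit 10674902720, nat_lit 10812219573, nat_lit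 11435908538, nat_lit 11543625466, nat_lit 11316648744, nat_lit 11418670687, nat_lit 11993069919, nat_lit 12102712557], nat_lit 1271250, nat_lit 1271250, nat_lit 1271250, nat_lit 1271250, nat_lit 1100001, nat_lit 2298750, [nat_lit 490000, nat_lit 1100000, nat_lit 2127500], [nat_lit 27, nat_lit 40, nat_lit 40, nat_lit 80, nat_lit 13, nat_lit 401, nat_lit 175, nat_lit 10]⟩,
 ⟨nat_lit 2236, nat_lit 2739, ⟨.ofNat (nat_lit 658020), .ofNat (nat_lit 811671), .ofNat (nat_lit 669219), .ofNat (nat_lit 822869), .ofNat (nat_lit 659343), .ofNat (nat_lit 807675), .ofNat (nat_lit 670720), .ofNat (nat_lit 819051)⟩, ⟨.ofNat (nat_lit 30000), .ofNat (nat_lit 306433), .ofNat (nat_lit 30000), .ofNat (nat_lit 351268), .ofNat (nat_lit 30000), .ofNat (nat_lit 306337), .ofNat (nat_lit 30000), .ofNat (nat_lit 351886)⟩⟩, [⟨nat_lit 7, nat_lit 100, nat_lit 84, nat_lit 93, nat_lit 136769058⟩]⟩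
noncomputable def p128_l62 : Lf2 := ⟨nat_lit 0, nat_lit 20, [nat_lit 5, nat_lit 5, nat_lit 5, nat_lit 20], false, nat_lit 16, nat_lit 160, nat_lit 160, nat_lit 300, ⟨nat_lit 973, nat_lit 27, nat_lit 0, nat_lit 8, nat_lit 347, nat_lit 27, nat_lit 74, nat_lit 0, nat_lit 0, nat_lit 0, nat_lit 0, nat_lit 0, nat_lit 36750093, nat_lit 27840791, nat_lit 2409116, nat_lit 4245607, true, true⟩,
 nat_lit 0, nat_lit 0, nat_lit 7360, nat_lit 0, nat_lit 3611, nat_lit 5520, nat_lit 508, nat_lit 0, nat_lit 0, nat_lit 567, nat_lit 0, nat_lit 0, nat_lit 0, nat_lit 0, nat_lit 0, nat_lit 6750, nat_lit 0, nat_lit 0, [(nat_lit 25, [(nat_lit 0, nat_lit 27)])],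
 ⟨p128_k17, nat_lit 0, nat_lit 0, nat_lit 170, nat_lit 0, nat_lit 0, [nat_lit 933302000, nat_lit 3230343600, nat_lit 6138436000], [], [nat_lit 28623795010, nat_lit 29354807869, nat_lit 33022333171, nat_lit 33617250125, nat_lit 27008432640, nat_lit 27455564630, nat_lit 30400033790, nat_lit 30929801349], nat_lit 0, nat_lit 0, nat_lit 0, nat_lit 0, nat_lit 0, nat_lit 0, [], [nat_lit 20, nat_lit 40, nat_lit 40, nat_lit 80, nat_lit 16, nat_lit 249, nat_lit 40, nat_lit 8]⟩, ⟨p128_k16, nat_lit 0, nat_lit 0, nat_lit 575, nat_lit 0, nat_lit 1122083, [nat_lit 1977136000, nat_lit 4561424000, nat_lit 9576266000], [], [nat_lit 33183393859, nat_lit 33404730526, nat_lit 35024918608, nat_lit 35232514802, nat_lit 34227886077, nat_lit 34421965811, nat_lit 36023299320, nat_lit 36220853150], nat_lit 1271250, nat_lit 1271250, nat_lit 1271250, nat_lit 1271250, nat_lit 1100001, nat_lit 2298750, [nat_lit 490000, nat_lit 1100000, nat_lit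 2127500], [nat_lit 27, nat_lit 40, nat_lit 40, nat_lit 80, nat_lit 13, nat_lit 289, nat_lit 75, nat_lit 7]⟩,
 ⟨nat_lit 2236, nat_lit 2739, ⟨.ofNat (nat_lit 811671), .ofNat (nat_lit 917997), .ofNat (nat_lit 822869), .ofNat (nat_lit 929206), .ofNat (nat_lit 807675), .ofNat (nat_lit 910319), .ofNat (nat_lit 819051), .ofNat (nat_lit 921706)⟩, ⟨.ofNat (nat_lit 40000), .ofNat (nat_lit 306433), .ofNat (nat_lit 40000), .ofNat (nat_lit 351268), .ofNat (nat_lit 40000), .ofNat (nat_lit 306337), .ofNat (nat_lit 40000), .ofNat (nat_lit 351886)⟩⟩, [⟨nat_lit 7, nat_lit 100, nat_lit 84, nat_lit 93, nat_lit 318586068⟩]⟩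
noncomputable def p128_l63 : Lf2 := ⟨nat_lit 0, nat_lit 20, [nat_lit 5, nat_lit 5, nat_lit 5, nat_lit 20], false, nat_lit 12, nat_lit 160, nat_lit 160, nat_lit 288, ⟨nat_lit 1000, nat_lit 0, nat_lit 0, nat_lit 0, nat_lit 0, nat_lit 0, nat_lit 0, nat_lit 0, nat_lit 0, nat_lit 0, nat_lit 0, nat_lit 0, nat_lit 0, nat_lit 0, nat_lit 0, nat_lit 0, false, false⟩,
 nat_lit 0, nat_lit 0, nat_lit 6811, nat_lit 0, nat_lit 3989, nat_lit 5309, nat_lit 556, nat_lit 0, nat_lit 0, nat_lit 1027, nat_lit 0, nat_lit 0, nat_lit 0, nat_lit 0, nat_lit 0, nat_lit 0, nat_lit 0, nat_lit 0, [],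
 ⟨p128_k17, nat_lit 0, nat_lit 0, nat_lit 177, nat_lit 0, nat_lit 0, [nat_lit 938000000, nat_lit 3282000000, nat_lit 6250000000], [], [nat_lit 25079117600, nat_lit 26038139323, nat_lit 34521020376, nat_lit 35136471177, nat_lit 23030925309, nat_lit 23629073429, nat_lit 31188699524, nat_lit 31735065383], nat_lit 0, nat_lit 0, nat_lit 0, nat_lit 0, nat_lit 0, nat_lit 0, [], [nat_lit 20, nat_lit 40, nat_lit 40, nat_lit 80, nat_lit 16, nat_lit 249, nat_lit 40, nat_lit 8]⟩, ⟨p128_k18, nat_lit 0, nat_lit 0, nat_lit 588, nat_lit 0, nat_lit 1126843, [nat_lit 2032000000, nat_lit 4688000000, nat_lit 9842000000], [], [nat_lit 27601720766, nat_lit 27938881654, nat_lit 31733562405, nat_lit 31963459486, nat_lit 29402640251, nat_lit 29670264037, nat_lit 33250044444, nat_lit 33691123310], nat_lit 1271250, nat_lit 1271250, nat_lit 1271250, nat_lit 1271250, nat_lit 1100001, nat_lit 2196000, [nat_lit 490000, nat_lit 1100000, nat_lit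 2127500], [nat_lit 27, nat_lit 40, nat_lit 40, nat_lit 80, nat_lit 13, nat_lit 401, nat_lit 175, nat_lit 10]⟩,
 zbF0, [⟨nat_lit 0, nat_lit 75, nat_lit 46, nat_lit 100, nat_lit 79441187⟩, ⟨nat_lit 7, nat_lit 100, nat_lit 77, nat_lit 91, nat_lit 405779640⟩]⟩
noncomputable def b_V_900_800_20_4 : St := ⟨true, nat_lit 0, nat_lit 1, nat_lit 1, nat_lit 120, nat_lit 360, nat_lit 380, nat_lit 320, nat_lit 340, nat_lit 200, nat_lit 400, nat_lit 80, nat_lit 120, nat_lit 8, nat_lit 160, nat_lit 0, nat_lit 300, nat_lit 40, nat_lit 80, nat_lit 0, nat_lit 0, nat_lit 0, nat_lit 0⟩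
theorem d_V_900_800_20_4 (h : EB TB.env) : Dead b_V_900_800_20_4 := chkB_sound0 h (T :=
(.spl (nat_lit 5) (nat_lit 160)
(.spl (nat_lit 1) (nat_lit 330)
(.trX (nat_lit 13) (nat_lit 79) (nat_lit 29) (nat_lit 100) (nat_lit 396) (.spl (nat_lit 0) (nat_lit 370)
(.leaf p128_l55)
(.trZ (nat_lit 0) (nat_lit 80) (nat_lit 53) (nat_lit 100) (nat_lit 216) (.trX (nat_lit 13) (nat_lit 69) (nat_lit 40) (nat_lit 100) (nat_lit 392) (.trZ (nat_lit 3) (nat_lit 100) (nat_lit 66) (nat_lit 45) (nat_lit 12) (.leaf p128_l56))))))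
(.trZ (nat_lit 0) (nat_lit 76) (nat_lit 60) (nat_lit 100) (nat_lit 212) (.leaf p128_l57)))
(.spl (nat_lit 0) (nat_lit 370)
(.spl (nat_lit 2) (nat_lit 320)
(.spl (nat_lit 0) (nat_lit 365)
(.leaf p128_l58)
(.trZ (nat_lit 0) (nat_lit 80) (nat_lit 57) (nat_lit 100) (nat_lit 208) (.leaf p128_l59)))
(.trZ (nat_lit 22) (nat_lit 82) (nat_lit 100) (nat_lit 44) (nat_lit 16) (.leaf p128_l60)))
(.trZ (nat_lit 0) (nat_lit 80) (nat_lit 53) (nat_lit 100) (nat_lit 216) (.trX (nat_lit 13) (nat_lit 74) (nat_lit 33) (nat_lit 100) (nat_lit 396) (.trZ (nat_lit 3) (nat_lit 100) (nat_lit 66) (nat_lit 45) (nat_lit 12) (.spl (nat_lit 1) (nat_lit 330)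
(.trX (nat_lit 13) (nat_lit 69) (nat_lit 40) (nat_lit 100) (nat_lit 392) (.spl (nat_lit 2) (nat_lit 320)
(.leaf p128_l61)
(.trZ (nat_lit 22) (nat_lit 82) (nat_lit 100) (nat_lit 44) (nat_lit 16) (.leaf p128_l62))))
(.trZ (nat_lit 0) (nat_lit 77) (nat_lit 53) (nat_lit 100) (nat_lit 228) (.trX (nat_lit 19) (nat_lit 83) (nat_lit 98) (nat_lit 100) (nat_lit 288) (.leaf p128_l63)))))))))) (by decide +kernel)
noncomputable def p128_l64 : Lf2 := ⟨nat_lit 0, nat_lit 20, [nat_lit 5, nat_lit 5, nat_lit 5, nat_lit 20], false, nat_lit 20, nat_lit 160, nat_lit 0, nat_lit 160, ⟨nat_lit 629, nat_lit 371, nat_lit 0, nat_lit 8, nat_lit 319, nat_lit 371, nat_lit 76, nat_lit 0, nat_lit 0, nat_lit 0, nat_lit 0, nat_lit 0, nat_lit 39147522, nat_lit 25232551, nat_lit 2619927, nat_lit 4226970, true, false⟩,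
 nat_lit 0, nat_lit 0, nat_lit 5565, nat_lit 0, nat_lit 2791, nat_lit 4173, nat_lit 360, nat_lit 0, nat_lit 0, nat_lit 380, nat_lit 0, nat_lit 0, nat_lit 0, nat_lit 0, nat_lit 0, nat_lit 148400, nat_lit 0, nat_lit 0, [(nat_lit 28, [(nat_lit 1, nat_lit 371)])],
 ⟨p128_k20, nat_lit 0, nat_lit 0, nat_lit 163, nat_lit 0, nat_lit 0, [nat_lit 848811600, nat_lit 2184878800, nat_lit 3982448000], [], [nat_lit 23658301954, nat_lit 24047932748, nat_lit 30698349931, nat_lit 30971713531, nat_lit 23605430329, nat_lit 23867964024, nat_lit 29310075610, nat_lit 29529427581], nat_lit 0, nat_lit 0, nat_lit 0, nat_lit 0, nat_lit 0, nat_lit 0, [], [nat_lit 20, nat_lit 40, nat_lit 40, nat_lit 80, nat_lit 16, nat_lit 249, nat_lit 40, nat_lit 8]⟩, ⟨p128_k16, nat_lit 0, nat_lit 0, nat_lit 718, nat_lit 0, nat_lit 1179035, [nat_lit 1278128000, nat_lit 2948752000, nat_lit 6190618000], [], [nat_lit 21446140102, nat_lit 21618301426, nat_lit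 24004660294, nat_lit 24486499430, nat_lit 19524816903, nat_lit 19670852250, nat_lit 21405958434, nat_lit 21528568683], nat_lit 1271250, nat_lit 1271250, nat_lit 1271250, nat_lit 1271250, nat_lit 0, nat_lit 1100001, [nat_lit 490000, nat_lit 1100000, nat_lit 2127500], [nat_lit 27, nat_lit 40, nat_lit 40, nat_lit 80, nat_lit 13, nat_lit 373, nat_lit 150, nat_lit 10]⟩,
 ⟨nat_lit 1936, nat_lit 2237, ⟨.ofNat (nat_lit 687921), .ofNat (nat_lit 898916), .ofNat (nat_lit 699304), .ofNat (nat_lit 910303), .ofNat (nat_lit 688327), .ofNat (nat_lit 895154), .ofNat (nat_lit 699828), .ofNat (nat_lit 906659)⟩, ⟨.ofNat (nat_lit 50000), .ofNat (nat_lit 306337), .ofNat (nat_lit 50000), .ofNat (nat_lit 351886), .ofNat (nat_lit 50000), .ofNat (nat_lit 306044), .ofNat (nat_lit 50000), .ofNat (nat_lit 352066)⟩⟩, [⟨nat_lit 4, nat_lit 100, nat_lit 41, nat_lit 87, nat_lit 64801069⟩]⟩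
noncomputable def p128_l65 : Lf2 := ⟨nat_lit 0, nat_lit 20, [nat_lit 5, nat_lit 5, nat_lit 5, nat_lit 20], false, nat_lit 28, nat_lit 160, nat_lit 0, nat_lit 160, ⟨nat_lit 578, nat_lit 422, nat_lit 0, nat_lit 8, nat_lit 321, nat_lit 422, nat_lit 80, nat_lit 0, nat_lit 0, nat_lit 0, nat_lit 0, nat_lit 0, nat_lit 38869038, nat_lit 25313672, nat_lit 2817290, nat_lit 4277901, true, false⟩,
 nat_lit 0, nat_lit 0, nat_lit 5139, nat_lit 0, nat_lit 2683, nat_lit 3854, nat_lit 249, nat_lit 0, nat_lit 0, nat_lit 306, nat_lit 0, nat_lit 0, nat_lit 0, nat_lit 0, nat_lit 0, nat_lit 168800, nat_lit 0, nat_lit 0, [(nat_lit 28, [(nat_lit 1, nat_lit 422)])],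
 ⟨p128_k21, nat_lit 0, nat_lit 0, nat_lit 147, nat_lit 0, nat_lit 0, [nat_lit 836551200, nat_lit 2034061600, nat_lit 2793051200], [], [nat_lit 24107652127, nat_lit 24479257678, nat_lit 30264333765, nat_lit 30535616255, nat_lit 24273640671, nat_lit 24518191570, nat_lit 29196693891, nat_lit 29419729888], nat_lit 0, nat_lit 0, nat_lit 0, nat_lit 0, nat_lit 0, nat_lit 0, [], [nat_lit 35, nat_lit 40, nat_lit 40, nat_lit 80, nat_lit 22, nat_lit 249, nat_lit 40, nat_lit 10]⟩, ⟨p128_k16, nat_lit 0, nat_lit 0, nat_lit 736, nat_lit 0, nat_lit 1237046, [nat_lit 1174496000, nat_lit 2709664000, nat_lit 5688676000], [], [nat_lit 20122561311, nat_lit 20276911159, nat_lit 21866938948, nat_lit 22318265362, nat_lit 18319676676, nat_lit 18446435594, nat_lit 19526175630, nat_lit 19613160761], nat_lit 1271250, nat_lit 1271250, nat_lit 1271250, nat_lit 1271250, nat_lit 0, nat_lit 1100001, [nat_lit 490000, nat_lit 1100000, nat_lit 2127500],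 [nat_lit 27, nat_lit 40, nat_lit 40, nat_lit 80, nat_lit 13, nat_lit 373, nat_lit 150, nat_lit 10]⟩,
 ⟨nat_lit 1581, nat_lit 1937, ⟨.ofNat (nat_lit 705077), .ofNat (nat_lit 889565), .ofNat (nat_lit 716576), .ofNat (nat_lit 901070), .ofNat (nat_lit 705398), .ofNat (nat_lit 885750), .ofNat (nat_lit 717049), .ofNat (nat_lit 897407)⟩, ⟨.ofNat (nat_lit 70000), .ofNat (nat_lit 306044), .ofNat (nat_lit 70000), .ofNat (nat_lit 352066), .ofNat (nat_lit 70000), .ofNat (nat_lit 305473), .ofNat (nat_lit 70000), .ofNat (nat_lit 352103)⟩⟩, [⟨nat_lit 16, nat_lit 35, nat_lit 100, nat_lit 88, nat_lit 88400703⟩]⟩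
noncomputable def p128_l66 : Lf2 := ⟨nat_lit 0, nat_lit 20, [nat_lit 5, nat_lit 5, nat_lit 5, nat_lit 20], false, nat_lit 20, nat_lit 160, nat_lit 0, nat_lit 160, ⟨nat_lit 1000, nat_lit 0, nat_lit 0, nat_lit 0, nat_lit 0, nat_lit 0, nat_lit 0, nat_lit 0, nat_lit 0, nat_lit 0, nat_lit 0, nat_lit 0, nat_lit 0, nat_lit 0, nat_lit 0, nat_lit 0, false, false⟩,
 nat_lit 0, nat_lit 0, nat_lit 6891, nat_lit 0, nat_lit 3448, nat_lit 5371, nat_lit 485, nat_lit 0, nat_lit 0, nat_lit 1168, nat_lit 0, nat_lit 0, nat_lit 0, nat_lit 0, nat_lit 0, nat_lit 0, nat_lit 0, nat_lit 0, [],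
 ⟨p128_k20, nat_lit 0, nat_lit 0, nat_lit 171, nat_lit 0, nat_lit 0, [nat_lit 938000000, nat_lit 3282000000, nat_lit 6250000000], [], [nat_lit 25437071798, nat_lit 26282084944, nat_lit 33009179242, nat_lit 33591185268, nat_lit 24149927539, nat_lit 24649435220, nat_lit 30681378852, nat_lit 31201126377], nat_lit 0, nat_lit 0, nat_lit 0, nat_lit 0, nat_lit 0, nat_lit 0, [], [nat_lit 20, nat_lit 40, nat_lit 40, nat_lit 80, nat_lit 16, nat_lit 249, nat_lit 40, nat_lit 8]⟩, ⟨p128_k18, nat_lit 0, nat_lit 0, nat_lit 734, nat_lit 0, nat_lit 1232803, [nat_lit 2032000000, nat_lit 4688000000, nat_lit 9842000000], [], [nat_lit 31057560560, nat_lit 31351177549, nat_lit 36229687323, nat_lit 36891890285, nat_lit 29301435381, nat_lit 29547507430, nat_lit 32037702331, nat_lit 32212980041], nat_lit 1271250, nat_lit 1271250, nat_lit 1271250, nat_lit 1271250, nat_lit 0, nat_lit 1100001, [nat_lit 490000, nat_lit 1100000, nat_lit 2127500],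 [nat_lit 27, nat_lit 40, nat_lit 40, nat_lit 80, nat_lit 13, nat_lit 373, nat_lit 150, nat_lit 10]⟩,
 zbF0, [⟨nat_lit 0, nat_lit 80, nat_lit 35, nat_lit 100, nat_lit 218729828⟩, ⟨nat_lit 4, nat_lit 100, nat_lit 38, nat_lit 87, nat_lit 199642684⟩]⟩
noncomputable def p128_l67 : Lf2 := ⟨nat_lit 0, nat_lit 20, [nat_lit 5, nat_lit 5, nat_lit 5, nat_lit 20], false, nat_lit 36, nat_lit 160, nat_lit 0, nat_lit 160, ⟨nat_lit 274, nat_lit 726, nat_lit 0, nat_lit 8, nat_lit 319, nat_lit 726, nat_lit 83, nat_lit 0, nat_lit 0, nat_lit 0, nat_lit 0, nat_lit 0, nat_lit 38869556, nat_lit 25118359, nat_lit 3012085, nat_lit 4317639, true, false⟩,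
 nat_lit 0, nat_lit 0, nat_lit 2491, nat_lit 0, nat_lit 2259, nat_lit 1868, nat_lit 86, nat_lit 0, nat_lit 0, nat_lit 147, nat_lit 0, nat_lit 0, nat_lit 0, nat_lit 0, nat_lit 0, nat_lit 290400, nat_lit 0, nat_lit 0, [(nat_lit 28, [(nat_lit 1, nat_lit 726)])],
 ⟨p128_k22, nat_lit 0, nat_lit 0, nat_lit 139, nat_lit 0, nat_lit 0, [nat_lit 763469600, nat_lit 1135072801, nat_lit 1427969600], [], [nat_lit 24951715192, nat_lit 25454639646, nat_lit 28731271635, nat_lit 29171558254, nat_lit 25589460365, nat_lit 26036519528, nat_lit 28963457421, nat_lit 29381327889], nat_lit 0, nat_lit 0, nat_lit 0, nat_lit 0, nat_lit 0, nat_lit 0, [], [nat_lit 35, nat_lit 40, nat_lit 40, nat_lit 80, nat_lit 22, nat_lit 249, nat_lit 40, nat_lit 10]⟩, ⟨p128_k16, nat_lit 0, nat_lit 0, nat_lit 764, nat_lit 0, nat_lit 1327081, [nat_lit 556768000, nat_lit 1284512000, nat_lit 2696708000], [], [nat_lit 9363661292, nat_lit 9399132227, nat_lit 10122682420,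 nat_lit 10236313678, nat_lit 8461638444, nat_lit 8490669550, nat_lit 8915161792, nat_lit 8939731077], nat_lit 1271250, nat_lit 1271250, nat_lit 1271250, nat_lit 1271250, nat_lit 0, nat_lit 1100001, [nat_lit 490000, nat_lit 1100000, nat_lit 2127500], [nat_lit 27, nat_lit 40, nat_lit 40, nat_lit 80, nat_lit 13, nat_lit 373, nat_lit 150, nat_lit 10]⟩,
 ⟨nat_lit 0, nat_lit 1582, ⟨.ofNat (nat_lit 725463), .ofNat (nat_lit 869357), .ofNat (nat_lit 731128), .ofNat (nat_lit 875186), .ofNat (nat_lit 728156), .ofNat (nat_lit 859997), .ofNat (nat_lit 734242), .ofNat (nat_lit 866247)⟩, ⟨.ofNat (nat_lit 90000), .ofNat (nat_lit 305469), .ofNat (nat_lit 90000), .ofNat (nat_lit 352101), .ofNat (nat_lit 90000), .ofNat (nat_lit 299995), .ofNat (nat_lit 90000), .ofNat (nat_lit 349997)⟩⟩, [⟨nat_lit 13, nat_lit 28, nat_lit 80, nat_lit 100, nat_lit 272987212⟩, ⟨nat_lit 4, nat_lit 100, nat_lit 23, nat_lit 91, nat_lit 131980132⟩]⟩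
noncomputable def p128_l68 : Lf2 := ⟨nat_lit 0, nat_lit 20, [nat_lit 5, nat_lit 5, nat_lit 5, nat_lit 20], false, nat_lit 36, nat_lit 160, nat_lit 0, nat_lit 160, ⟨nat_lit 732, nat_lit 268, nat_lit 0, nat_lit 8, nat_lit 324, nat_lit 268, nat_lit 83, nat_lit 0, nat_lit 0, nat_lit 0, nat_lit 0, nat_lit 0, nat_lit 38467837, nat_lit 25540865, nat_lit 2991298, nat_lit 4326504, true, false⟩,
 nat_lit 0, nat_lit 0, nat_lit 6168, nat_lit 0, nat_lit 2458, nat_lit 4716, nat_lit 295, nat_lit 0, nat_lit 0, nat_lit 436, nat_lit 0, nat_lit 0, nat_lit 0, nat_lit 0, nat_lit 0, nat_lit 107200, nat_lit 0, nat_lit 0, [(nat_lit 28, [(nat_lit 1, nat_lit 268)])],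
 ⟨p128_k22, nat_lit 0, nat_lit 0, nat_lit 140, nat_lit 0, nat_lit 0, [nat_lit 873572801, nat_lit 2489470400, nat_lit 3484572800], [], [nat_lit 25095918080, nat_lit 25651872352, nat_lit 29394862848, nat_lit 29887089632, nat_lit 25554679066, nat_lit 26049936950, nat_lit 29472753724, nat_lit 29913532953], nat_lit 0, nat_lit 0, nat_lit 0, nat_lit 0, nat_lit 0, nat_lit 0, [], [nat_lit 35, nat_lit 40, nat_lit 40, nat_lit 80, nat_lit 22, nat_lit 249, nat_lit 40, nat_lit 10]⟩, ⟨p128_k23, nat_lit 0, nat_lit 0, nat_lit 760, nat_lit 0, nat_lit 1319852, [nat_lit 1487424000, nat_lit 3431616000, nat_lit 7204344000], [], [nat_lit 24394575974, nat_lit 24487220036, nat_lit 26954118260, nat_lit 27243344031, nat_lit 22177548054, nat_lit 22255106242, nat_lit 23741371627, nat_lit 23815321794], nat_lit 1271250, nat_lit 1271250, nat_lit 1271250, nat_lit 1271250, nat_lit 0, nat_lit 1100001, [nat_lit 490000, nat_lit 1100000, nat_lit 2127500],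 [nat_lit 27, nat_lit 40, nat_lit 40, nat_lit 80, nat_lit 13, nat_lit 373, nat_lit 150, nat_lit 10]⟩,
 ⟨nat_lit 0, nat_lit 1582, ⟨.ofNat (nat_lit 736723), .ofNat (nat_lit 880650), .ofNat (nat_lit 742388), .ofNat (nat_lit 886479), .ofNat (nat_lit 739373), .ofNat (nat_lit 871248), .ofNat (nat_lit 745459), .ofNat (nat_lit 877498)⟩, ⟨.ofNat (nat_lit 90000), .ofNat (nat_lit 305469), .ofNat (nat_lit 90000), .ofNat (nat_lit 352101), .ofNat (nat_lit 90000), .ofNat (nat_lit 299995), .ofNat (nat_lit 90000), .ofNat (nat_lit 349997)⟩⟩, [⟨nat_lit 16, nat_lit 23, nat_lit 100, nat_lit 91, nat_lit 578680548⟩]⟩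
noncomputable def p128_l69 : Lf2 := ⟨nat_lit 0, nat_lit 20, [nat_lit 5, nat_lit 5, nat_lit 5, nat_lit 20], false, nat_lit 36, nat_lit 160, nat_lit 0, nat_lit 160, ⟨nat_lit 1000, nat_lit 0, nat_lit 0, nat_lit 0, nat_lit 0, nat_lit 0, nat_lit 0, nat_lit 0, nat_lit 0, nat_lit 0, nat_lit 0, nat_lit 0, nat_lit 0, nat_lit 0, nat_lit 0, nat_lit 0, false, false⟩,
 nat_lit 0, nat_lit 0, nat_lit 6889, nat_lit 0, nat_lit 2580, nat_lit 5369, nat_lit 398, nat_lit 0, nat_lit 0, nat_lit 1303, nat_lit 0, nat_lit 0, nat_lit 0, nat_lit 0, nat_lit 0, nat_lit 0, nat_lit 0, nat_lit 0, [],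
 ⟨p128_k22, nat_lit 0, nat_lit 0, nat_lit 144, nat_lit 0, nat_lit 0, [nat_lit 938000000, nat_lit 3282000000, nat_lit 4688000000], [], [nat_lit 25631844270, nat_lit 26190350124, nat_lit 30083643863, nat_lit 30610029260, nat_lit 25975830255, nat_lit 26470715017, nat_lit 30021462380, nat_lit 30461517320], nat_lit 0, nat_lit 0, nat_lit 0, nat_lit 0, nat_lit 0, nat_lit 0, [], [nat_lit 35, nat_lit 40, nat_lit 40, nat_lit 80, nat_lit 22, nat_lit 249, nat_lit 40, nat_lit 10]⟩, ⟨p128_k18, nat_lit 0, nat_lit 0, nat_lit 767, nat_lit 0, nat_lit 1342968, [nat_lit 2032000000, nat_lit 4688000000, nat_lit 9842000000], [], [nat_lit 30885897456, nat_lit 31144705940, nat_lit 35156214689, nat_lit 35849920345, nat_lit 29091464972, nat_lit 29308044086, nat_lit 31002019389, nat_lit 31170801730], nat_lit 1271250, nat_lit 1271250, nat_lit 1271250, nat_lit 1271250, nat_lit 0, nat_lit 1100001, [nat_lit 490000, nat_lit 1100000, nat_lit 2127500],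 [nat_lit 27, nat_lit 40, nat_lit 40, nat_lit 80, nat_lit 13, nat_lit 373, nat_lit 150, nat_lit 10]⟩,
 zbF0, [⟨nat_lit 0, nat_lit 85, nat_lit 26, nat_lit 100, nat_lit 329260966⟩, ⟨nat_lit 4, nat_lit 100, nat_lit 23, nat_lit 91, nat_lit 795801803⟩]⟩
noncomputable def p128_l70 : Lf2 := ⟨nat_lit 0, nat_lit 20, [nat_lit 5, nat_lit 5, nat_lit 5, nat_lit 20], false, nat_lit 20, nat_lit 160, nat_lit 160, nat_lit 300, ⟨nat_lit 347, nat_lit 653, nat_lit 0, nat_lit 8, nat_lit 304, nat_lit 653, nat_lit 76, nat_lit 0, nat_lit 0, nat_lit 0, nat_lit 0, nat_lit 0, nat_lit 40599693, nat_lit 23718681, nat_lit 2681626, nat_lit 4185689, true, false⟩,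
 nat_lit 0, nat_lit 0, nat_lit 3182, nat_lit 0, nat_lit 2524, nat_lit 2386, nat_lit 239, nat_lit 0, nat_lit 0, nat_lit 196, nat_lit 0, nat_lit 0, nat_lit 0, nat_lit 0, nat_lit 0, nat_lit 261200, nat_lit 0, nat_lit 0, [(nat_lit 28, [(nat_lit 1, nat_lit 653)])],
 ⟨p128_k20, nat_lit 0, nat_lit 0, nat_lit 145, nat_lit 0, nat_lit 0, [nat_lit 781018800, nat_lit 1350948401, nat_lit 2258864000], [], [nat_lit 23132451782, nat_lit 23504337289, nat_lit 26683864456, nat_lit 26993995518, nat_lit 23509099660, nat_lit 23757716103, nat_lit 26332420224, nat_lit 26581014984], nat_lit 0, nat_lit 0, nat_lit 0, nat_lit 0, nat_lit 0, nat_lit 0, [], [nat_lit 20, nat_lit 40, nat_lit 40, nat_lit 80, nat_lit 16, nat_lit 249, nat_lit 40, nat_lit 8]⟩, ⟨p128_k16, nat_lit 0, nat_lit 0, nat_lit 628, nat_lit 0, nat_lit 1245403, [nat_lit 705104000, nat_lit 1626736000, nat_lit 3415174000], [], [nat_lit 9897796910, nat_lit 10089634625, nat_lit 10358149788,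 nat_lit 10514010108, nat_lit 10263275948, nat_lit 10411455174, nat_lit 10656565695, nat_lit 10852236752], nat_lit 1271250, nat_lit 1271250, nat_lit 1271250, nat_lit 1271250, nat_lit 1100001, nat_lit 2298750, [nat_lit 490000, nat_lit 1100000, nat_lit 2127500], [nat_lit 27, nat_lit 40, nat_lit 40, nat_lit 80, nat_lit 13, nat_lit 401, nat_lit 175, nat_lit 10]⟩,
 ⟨nat_lit 1936, nat_lit 2237, ⟨.ofNat (nat_lit 687921), .ofNat (nat_lit 807688), .ofNat (nat_lit 710687), .ofNat (nat_lit 830453), .ofNat (nat_lit 688327), .ofNat (nat_lit 805728), .ofNat (nat_lit 711329), .ofNat (nat_lit 828730)⟩, ⟨.ofNat (nat_lit 50000), .ofNat (nat_lit 306337), .ofNat (nat_lit 50000), .ofNat (nat_lit 351886), .ofNat (nat_lit 50000), .ofNat (nat_lit 306044), .ofNat (nat_lit 50000), .ofNat (nat_lit 352066)⟩⟩, [⟨nat_lit 7, nat_lit 100, nat_lit 81, nat_lit 92, nat_lit 117508290⟩]⟩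
noncomputable def p128_l71 : Lf2 := ⟨nat_lit 0, nat_lit 20, [nat_lit 5, nat_lit 5, nat_lit 5, nat_lit 20], false, nat_lit 20, nat_lit 160, nat_lit 160, nat_lit 300, ⟨nat_lit 739, nat_lit 261, nat_lit 0, nat_lit 8, nat_lit 342, nat_lit 261, nat_lit 76, nat_lit 0, nat_lit 0, nat_lit 0, nat_lit 0, nat_lit 0, nat_lit 37136246, nat_lit 27335630, nat_lit 2528124, nat_lit 4264116, true, true⟩,
 nat_lit 0, nat_lit 0, nat_lit 5609, nat_lit 0, nat_lit 2847, nat_lit 4206, nat_lit 356, nat_lit 0, nat_lit 0, nat_lit 432, nat_lit 0, nat_lit 0, nat_lit 0, nat_lit 0, nat_lit 0, nat_lit 104400, nat_lit 0, nat_lit 0, [(nat_lit 28, [(nat_lit 1, nat_lit 261)])],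
 ⟨p128_k20, nat_lit 0, nat_lit 0, nat_lit 163, nat_lit 0, nat_lit 0, [nat_lit 875255600, nat_lit 2510170800, nat_lit 4654768000], [], [nat_lit 27436904718, nat_lit 27763250542, nat_lit 30854156177, nat_lit 31129637106, nat_lit 26977227396, nat_lit 27185446964, nat_lit 29392276404, nat_lit 29613295889], nat_lit 0, nat_lit 0, nat_lit 0, nat_lit 0, nat_lit 0, nat_lit 0, [], [nat_lit 20, nat_lit 40, nat_lit 40, nat_lit 80, nat_lit 16, nat_lit 249, nat_lit 40, nat_lit 8]⟩, ⟨p128_k16, nat_lit 0, nat_lit 0, nat_lit 583, nat_lit 0, nat_lit 1147016, [nat_lit 1501648000, nat_lit 3464432000, nat_lit 7273238000], [], [nat_lit 25114890664, nat_lit 25198988244, nat_lit 26355028956, nat_lit 26435854798, nat_lit 25919357310, nat_lit 25992060582, nat_lit 27134110555, nat_lit 27211043404], nat_lit 1271250, nat_lit 1271250, nat_lit 1271250, nat_lit 1271250, nat_lit 1100001, nat_lit 2298750, [nat_lit 490000, nat_lit 1100000, nat_lit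 2127500], [nat_lit 27, nat_lit 40, nat_lit 40, nat_lit 80, nat_lit 13, nat_lit 289, nat_lit 75, nat_lit 7]⟩,
 ⟨nat_lit 1936, nat_lit 2237, ⟨.ofNat (nat_lit 807688), .ofNat (nat_lit 898916), .ofNat (nat_lit 813379), .ofNat (nat_lit 904609), .ofNat (nat_lit 805728), .ofNat (nat_lit 895154), .ofNat (nat_lit 811478), .ofNat (nat_lit 900906)⟩, ⟨.ofNat (nat_lit 50000), .ofNat (nat_lit 306337), .ofNat (nat_lit 50000), .ofNat (nat_lit 351886), .ofNat (nat_lit 50000), .ofNat (nat_lit 306044), .ofNat (nat_lit 50000), .ofNat (nat_lit 352066)⟩⟩, [⟨nat_lit 4, nat_lit 100, nat_lit 41, nat_lit 87, nat_lit 123928624⟩, ⟨nat_lit 7, nat_lit 100, nat_lit 85, nat_lit 94, nat_lit 238000722⟩]⟩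
noncomputable def p128_l72 : Lf2 := ⟨nat_lit 0, nat_lit 20, [nat_lit 5, nat_lit 5, nat_lit 5, nat_lit 20], false, nat_lit 20, nat_lit 160, nat_lit 160, nat_lit 296, ⟨nat_lit 1000, nat_lit 0, nat_lit 0, nat_lit 0, nat_lit 0, nat_lit 0, nat_lit 0, nat_lit 0, nat_lit 0, nat_lit 0, nat_lit 0, nat_lit 0, nat_lit 0, nat_lit 0, nat_lit 0, nat_lit 0, false, false⟩,
 nat_lit 0, nat_lit 0, nat_lit 7433, nat_lit 0, nat_lit 3104, nat_lit 5683, nat_lit 506, nat_lit 0, nat_lit 0, nat_lit 609, nat_lit 0, nat_lit 0, nat_lit 0, nat_lit 0, nat_lit 0, nat_lit 0, nat_lit 0, nat_lit 0, [],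
 ⟨p128_k20, nat_lit 0, nat_lit 0, nat_lit 163, nat_lit 0, nat_lit 0, [nat_lit 938000000, nat_lit 3282000000, nat_lit 6250000000], [], [nat_lit 28036072976, nat_lit 28375320328, nat_lit 31569195558, nat_lit 31854393516, nat_lit 26655316338, nat_lit 26888981770, nat_lit 29744963732, nat_lit 29999787626], nat_lit 0, nat_lit 0, nat_lit 0, nat_lit 0, nat_lit 0, nat_lit 0, [], [nat_lit 20, nat_lit 40, nat_lit 40, nat_lit 80, nat_lit 16, nat_lit 249, nat_lit 40, nat_lit 8]⟩, ⟨p128_k23, nat_lit 0, nat_lit 0, nat_lit 583, nat_lit 0, nat_lit 1147093, [nat_lit 2032000000, nat_lit 4688000000, nat_lit 9842000000], [], [nat_lit 32150382756, nat_lit 32264154190, nat_lit 33814545418, nat_lit 33948519819, nat_lit 33326629265, nat_lit 33436195544, nat_lit 34975893821, nat_lit 35080999844], nat_lit 1271250, nat_lit 1271250, nat_lit 1271250, nat_lit 1271250, nat_lit 1100001, nat_lit 2264500, [nat_lit 490000, nat_lit 1100000, nat_lit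 2127500], [nat_lit 27, nat_lit 40, nat_lit 40, nat_lit 80, nat_lit 13, nat_lit 289, nat_lit 75, nat_lit 7]⟩,
 zbF0, [⟨nat_lit 4, nat_lit 100, nat_lit 41, nat_lit 87, nat_lit 238600339⟩, ⟨nat_lit 7, nat_lit 100, nat_lit 82, nat_lit 92, nat_lit 347082333⟩]⟩
noncomputable def p128_l73 : Lf2 := ⟨nat_lit 0, nat_lit 20, [nat_lit 5, nat_lit 5, nat_lit 5, nat_lit 20], false, nat_lit 20, nat_lit 160, nat_lit 160, nat_lit 288, ⟨nat_lit 1000, nat_lit 0, nat_lit 0, nat_lit 0, nat_lit 0, nat_lit 0, nat_lit 0, nat_lit 0, nat_lit 0, nat_lit 0, nat_lit 0, nat_lit 0, nat_lit 0, nat_lit 0, nat_lit 0, nat_lit 0, false, false⟩,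
 nat_lit 0, nat_lit 0, nat_lit 6777, nat_lit 0, nat_lit 3103, nat_lit 5282, nat_lit 506, nat_lit 0, nat_lit 0, nat_lit 1090, nat_lit 0, nat_lit 0, nat_lit 0, nat_lit 0, nat_lit 0, nat_lit 0, nat_lit 0, nat_lit 0, [],
 ⟨p128_k20, nat_lit 0, nat_lit 0, nat_lit 168, nat_lit 0, nat_lit 0, [nat_lit 938000000, nat_lit 3282000000, nat_lit 6250000000], [], [nat_lit 28033741582, nat_lit 28372938734, nat_lit 32028008143, nat_lit 32306495039, nat_lit 26656897366, nat_lit 26891105765, nat_lit 30155576634, nat_lit 30404846373], nat_lit 0, nat_lit 0, nat_lit 0, nat_lit 0, nat_lit 0, nat_lit 0, [], [nat_lit 20, nat_lit 40, nat_lit 40, nat_lit 80, nat_lit 16, nat_lit 249, nat_lit 40, nat_lit 8]⟩, ⟨p128_k18, nat_lit 0, nat_lit 0, nat_lit 594, nat_lit 0, nat_lit 1179335, [nat_lit 2032000000, nat_lit 4688000000, nat_lit 9842000000], [], [nat_lit 30309983708, nat_lit 30561282660, nat_lit 32168875147, nat_lit 32377930990, nat_lit 31420968530,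 nat_lit 31619395341, nat_lit 32980154983, nat_lit 33426657892], nat_lit 1271250, nat_lit 1271250, nat_lit 1271250, nat_lit 1271250, nat_lit 1100001, nat_lit 2196000, [nat_lit 490000, nat_lit 1100000, nat_lit 2127500], [nat_lit 27, nat_lit 40, nat_lit 40, nat_lit 80, nat_lit 13, nat_lit 289, nat_lit 75, nat_lit 7]⟩,
 zbF0, [⟨nat_lit 4, nat_lit 100, nat_lit 41, nat_lit 87, nat_lit 233913268⟩, ⟨nat_lit 7, nat_lit 100, nat_lit 77, nat_lit 91, nat_lit 368237241⟩]⟩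
noncomputable def p128_l74 : Lf2 := ⟨nat_lit 0, nat_lit 20, [nat_lit 5, nat_lit 5, nat_lit 5, nat_lit 20], false, nat_lit 28, nat_lit 160, nat_lit 160, nat_lit 300, ⟨nat_lit 292, nat_lit 708, nat_lit 0, nat_lit 8, nat_lit 307, nat_lit 708, nat_lit 80, nat_lit 0, nat_lit 0, nat_lit 0, nat_lit 0, nat_lit 0, nat_lit 40167508, nat_lit 23954601, nat_lit 2877891, nat_lit 4243193, true, false⟩,
 nat_lit 0, nat_lit 0, nat_lit 2673, nat_lit 0, nat_lit 2449, nat_lit 2004, nat_lit 120, nat_lit 0, nat_lit 0, nat_lit 154, nat_lit 0, nat_lit 0, nat_lit 0, nat_lit 0, nat_lit 0, nat_lit 283200, nat_lit 0, nat_lit 0, [(nat_lit 28, [(nat_lit 1, nat_lit 708)])],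
 ⟨p128_k21, nat_lit 0, nat_lit 0, nat_lit 128, nat_lit 0, nat_lit 0, [nat_lit 767796800, nat_lit 1188302400, nat_lit 1508796800], [], [nat_lit 23815950184, nat_lit 24084032875, nat_lit 26662841677, nat_lit 26967897994, nat_lit 24356875792, nat_lit 24592942345, nat_lit 26630012185, nat_lit 26854969294], nat_lit 0, nat_lit 0, nat_lit 0, nat_lit 0, nat_lit 0, nat_lit 0, [], [nat_lit 35, nat_lit 40, nat_lit 40, nat_lit 80, nat_lit 22, nat_lit 249, nat_lit 40, nat_lit 10]⟩, ⟨p128_k16, nat_lit 0, nat_lit 0, nat_lit 651, nat_lit 0, nat_lit 1301920, [nat_lit 593344000, nat_lit 1368896000, nat_lit 2873864000], [], [nat_lit 8501162047, nat_lit 8658299420, nat_lit 8845936754, nat_lit 8977053490, nat_lit 8789820835, nat_lit 8904888223, nat_lit 9010319230, nat_lit 9128900668], nat_lit 1271250, nat_lit 1271250, nat_lit 1271250, nat_lit 1271250, nat_lit 1100001, nat_lit 2298750, [nat_lit 490000, nat_lit 1100000, nat_lit 2127500],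 [nat_lit 27, nat_lit 40, nat_lit 40, nat_lit 80, nat_lit 13, nat_lit 401, nat_lit 175, nat_lit 10]⟩,
 ⟨nat_lit 1581, nat_lit 1937, ⟨.ofNat (nat_lit 705077), .ofNat (nat_lit 805728), .ofNat (nat_lit 728074), .ofNat (nat_lit 828724), .ofNat (nat_lit 705398), .ofNat (nat_lit 803793), .ofNat (nat_lit 728699), .ofNat (nat_lit 827093)⟩, ⟨.ofNat (nat_lit 70000), .ofNat (nat_lit 306044), .ofNat (nat_lit 70000), .ofNat (nat_lit 352066), .ofNat (nat_lit 70000), .ofNat (nat_lit 305473), .ofNat (nat_lit 70000), .ofNat (nat_lit 352103)⟩⟩, [⟨nat_lit 7, nat_lit 100, nat_lit 81, nat_lit 92, nat_lit 92348574⟩]⟩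
noncomputable def p128_l75 : Lf2 := ⟨nat_lit 0, nat_lit 20, [nat_lit 5, nat_lit 5, nat_lit 5, nat_lit 20], false, nat_lit 28, nat_lit 160, nat_lit 160, nat_lit 300, ⟨nat_lit 296, nat_lit 704, nat_lit 0, nat_lit 8, nat_lit 335, nat_lit 704, nat_lit 80, nat_lit 0, nat_lit 0, nat_lit 0, nat_lit 0, nat_lit 0, nat_lit 37591404, nat_lit 26654161, nat_lit 2754435, nat_lit 4302463, true, true⟩,
 nat_lit 0, nat_lit 0, nat_lit 2631, nat_lit 0, nat_lit 2576, nat_lit 1972, nat_lit 102, nat_lit 0, nat_lit 0, nat_lit 152, nat_lit 0, nat_lit 0, nat_lit 0, nat_lit 0, nat_lit 0, nat_lit 281600, nat_lit 0, nat_lit 0, [(nat_lit 28, [(nat_lit 1, nat_lit 704)])],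
 ⟨p128_k21, nat_lit 0, nat_lit 0, nat_lit 138, nat_lit 0, nat_lit 0, [nat_lit 768758400, nat_lit 1200131200, nat_lit 1526758400], [], [nat_lit 26951913781, nat_lit 27263312212, nat_lit 28923125412, nat_lit 29204851549, nat_lit 26622769240, nat_lit 26850281464, nat_lit 28113643552, nat_lit 28323286696], nat_lit 0, nat_lit 0, nat_lit 0, nat_lit 0, nat_lit 0, nat_lit 0, [], [nat_lit 35, nat_lit 40, nat_lit 40, nat_lit 80, nat_lit 22, nat_lit 249, nat_lit 40, nat_lit 9]⟩, ⟨p128_k16, nat_lit 0, nat_lit 0, nat_lit 614, nat_lit 0, nat_lit 1237046, [nat_lit 601472000, nat_lit 1387648000, nat_lit 2913232000], [], [nat_lit 9323965192, nat_lit 9390113896, nat_lit 9588560008, nat_lit 9647292912, nat_lit 9505533720, nat_lit 9553418043, nat_lit 9697071012, nat_lit 9738966303], nat_lit 1271250, nat_lit 1271250, nat_lit 1271250, nat_lit 1271250, nat_lit 1100001, nat_lit 2298750, [nat_lit 490000, nat_lit 1100000, nat_lit 2127500],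 [nat_lit 27, nat_lit 40, nat_lit 40, nat_lit 80, nat_lit 13, nat_lit 289, nat_lit 75, nat_lit 7]⟩,
 ⟨nat_lit 1581, nat_lit 1937, ⟨.ofNat (nat_lit 805728), .ofNat (nat_lit 861620), .ofNat (nat_lit 817226), .ofNat (nat_lit 873126), .ofNat (nat_lit 803793), .ofNat (nat_lit 858432), .ofNat (nat_lit 815443), .ofNat (nat_lit 870089)⟩, ⟨.ofNat (nat_lit 70000), .ofNat (nat_lit 306044), .ofNat (nat_lit 70000), .ofNat (nat_lit 352066), .ofNat (nat_lit 70000), .ofNat (nat_lit 305473), .ofNat (nat_lit 70000), .ofNat (nat_lit 352103)⟩⟩, [⟨nat_lit 7, nat_lit 100, nat_lit 84, nat_lit 93, nat_lit 63197833⟩, ⟨nat_lit 10, nat_lit 100, nat_lit 66, nat_lit 86, nat_lit 33244382⟩]⟩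
noncomputable def p128_l76 : Lf2 := ⟨nat_lit 0, nat_lit 20, [nat_lit 5, nat_lit 5, nat_lit 5, nat_lit 20], false, nat_lit 48, nat_lit 160, nat_lit 160, nat_lit 288, ⟨nat_lit 285, nat_lit 715, nat_lit 0, nat_lit 9, nat_lit 352, nat_lit 715, nat_lit 90, nat_lit 0, nat_lit 0, nat_lit 0, nat_lit 0, nat_lit 0, nat_lit 35856833, nat_lit 27956064, nat_lit 3187103, nat_lit 4432312, true, true⟩,
 nat_lit 0, nat_lit 0, nat_lit 2497, nat_lit 0, nat_lit 2538, nat_lit 1872, nat_lit 90, nat_lit 0, nat_lit 0, nat_lit 149, nat_lit 0, nat_lit 0, nat_lit 0, nat_lit 0, nat_lit 0, nat_lit 286000, nat_lit 0, nat_lit 0, [(nat_lit 28, [(nat_lit 1, nat_lit 715)])],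
 ⟨p128_k21, nat_lit 0, nat_lit 0, nat_lit 133, nat_lit 0, nat_lit 0, [nat_lit 766114000, nat_lit 1167602000, nat_lit 1477364000], [], [nat_lit 28405309482, nat_lit 28682681181, nat_lit 29444154734, nat_lit 29707398124, nat_lit 28212196226, nat_lit 28420814548, nat_lit 29002830144, nat_lit 29202680592], nat_lit 0, nat_lit 0, nat_lit 0, nat_lit 0, nat_lit 0, nat_lit 0, [], [nat_lit 35, nat_lit 40, nat_lit 40, nat_lit 80, nat_lit 22, nat_lit 249, nat_lit 40, nat_lit 9]⟩, ⟨p128_k16, nat_lit 0, nat_lit 0, nat_lit 612, nat_lit 0, nat_lit 1237046, [nat_lit 579120000, nat_lit 1336080000, nat_lit 2804970000], [], [nat_lit 9347095097, nat_lit 9403587866, nat_lit 9493988675, nat_lit 9546898115, nat_lit 9432262376, nat_lit 9474176740, nat_lit 9562865936, nat_lit 9614557189], nat_lit 1271250, nat_lit 1271250, nat_lit 1271250, nat_lit 1271250, nat_lit 1100001, nat_lit 2196000, [nat_lit 490000, nat_lit 1100000, nat_lit 2127500],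 [nat_lit 27, nat_lit 40, nat_lit 40, nat_lit 80, nat_lit 13, nat_lit 289, nat_lit 75, nat_lit 7]⟩,
 ⟨nat_lit 1581, nat_lit 1937, ⟨.ofNat (nat_lit 861620), .ofNat (nat_lit 889565), .ofNat (nat_lit 873126), .ofNat (nat_lit 901070), .ofNat (nat_lit 858432), .ofNat (nat_lit 885750), .ofNat (nat_lit 870089), .ofNat (nat_lit 897407)⟩, ⟨.ofNat (nat_lit 120000), .ofNat (nat_lit 306044), .ofNat (nat_lit 120000), .ofNat (nat_lit 352066), .ofNat (nat_lit 120000), .ofNat (nat_lit 305473), .ofNat (nat_lit 120000), .ofNat (nat_lit 352103)⟩⟩, [⟨nat_lit 13, nat_lit 45, nat_lit 66, nat_lit 100, nat_lit 255044940⟩, ⟨nat_lit 19, nat_lit 84, nat_lit 100, nat_lit 93, nat_lit 71443077⟩, ⟨nat_lit 22, nat_lit 53, nat_lit 100, nat_lit 91, nat_lit 17542428⟩]⟩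
noncomputable def p128_l77 : Lf2 := ⟨nat_lit 0, nat_lit 20, [nat_lit 5, nat_lit 5, nat_lit 5, nat_lit 20], false, nat_lit 28, nat_lit 160, nat_lit 160, nat_lit 288, ⟨nat_lit 1000, nat_lit 0, nat_lit 0, nat_lit 0, nat_lit 0, nat_lit 0, nat_lit 0, nat_lit 0, nat_lit 0, nat_lit 0, nat_lit 0, nat_lit 0, nat_lit 0, nat_lit 0, nat_lit 0, nat_lit 0, false, false⟩,
 nat_lit 0, nat_lit 0, nat_lit 6685, nat_lit 0, nat_lit 3108, nat_lit 5211, nat_lit 391, nat_lit 0, nat_lit 0, nat_lit 1200, nat_lit 0, nat_lit 0, nat_lit 0, nat_lit 0, nat_lit 0, nat_lit 0, nat_lit 0, nat_lit 0, [],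
 ⟨p128_k21, nat_lit 0, nat_lit 0, nat_lit 149, nat_lit 0, nat_lit 0, [nat_lit 938000000, nat_lit 3282000000, nat_lit 4688000000], [], [nat_lit 28162829997, nat_lit 28500795390, nat_lit 31631328390, nat_lit 31915618288, nat_lit 26973653980, nat_lit 27200362252, nat_lit 30005803062, nat_lit 30260754941], nat_lit 0, nat_lit 0, nat_lit 0, nat_lit 0, nat_lit 0, nat_lit 0, [], [nat_lit 35, nat_lit 40, nat_lit 40, nat_lit 80, nat_lit 22, nat_lit 249, nat_lit 40, nat_lit 9]⟩, ⟨p128_k18, nat_lit 0, nat_lit 0, nat_lit 612, nat_lit 0, nat_lit 1232803, [nat_lit 2032000000, nat_lit 4688000000, nat_lit 9842000000], [], [nat_lit 29893894184, nat_lit 30144452180, nat_lit 31528339425, nat_lit 31741765106, nat_lit 31018781757, nat_lit 31216997429, nat_lit 32425356087, nat_lit 32881959345], nat_lit 1271250, nat_lit 1271250, nat_lit 1271250, nat_lit 1271250, nat_lit 1100001, nat_lit 2196000, [nat_lit 490000, nat_lit 1100000, nat_lit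 2127500], [nat_lit 27, nat_lit 40, nat_lit 40, nat_lit 80, nat_lit 13, nat_lit 289, nat_lit 75, nat_lit 7]⟩,
 zbF0, [⟨nat_lit 4, nat_lit 100, nat_lit 35, nat_lit 88, nat_lit 294146416⟩, ⟨nat_lit 7, nat_lit 100, nat_lit 77, nat_lit 91, nat_lit 369053231⟩]⟩
noncomputable def p128_l78 : Lf2 := ⟨nat_lit 0, nat_lit 20, [nat_lit 5, nat_lit 5, nat_lit 5, nat_lit 20], false, nat_lit 36, nat_lit 80, nat_lit 160, nat_lit 300, ⟨nat_lit 279, nat_lit 721, nat_lit 0, nat_lit 8, nat_lit 322, nat_lit 721, nat_lit 58, nat_lit 0, nat_lit 0, nat_lit 0, nat_lit 0, nat_lit 0, nat_lit 39503768, nat_lit 25747497, nat_lit 1748735, nat_lit 4011268, true, false⟩,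
 nat_lit 0, nat_lit 0, nat_lit 2450, nat_lit 0, nat_lit 2324, nat_lit 1837, nat_lit 86, nat_lit 0, nat_lit 0, nat_lit 156, nat_lit 0, nat_lit 0, nat_lit 0, nat_lit 0, nat_lit 0, nat_lit 288400, nat_lit 0, nat_lit 0, [(nat_lit 28, [(nat_lit 1, nat_lit 721)])],
 ⟨p128_k22, nat_lit 0, nat_lit 0, nat_lit 140, nat_lit 0, nat_lit 0, [nat_lit 764671601, nat_lit 1149858801, nat_lit 1450421600], [], [nat_lit 24902573353, nat_lit 25410796259, nat_lit 29008496668, nat_lit 29532375851, nat_lit 24674237462, nat_lit 25166510591, nat_lit 28523812249, nat_lit 28952323657], nat_lit 0, nat_lit 0, nat_lit 0, nat_lit 0, nat_lit 0, nat_lit 0, [], [nat_lit 35, nat_lit 40, nat_lit 40, nat_lit 80, nat_lit 22, nat_lit 226, nat_lit 20, nat_lit 8]⟩, ⟨p128_k16, nat_lit 0, nat_lit 0, nat_lit 687, nat_lit 0, nat_lit 1356689, [nat_lit 566928000, nat_lit 1307952000, nat_lit 2745918000], [], [nat_lit 8508422340, nat_lit 8580056096, nat_lit 9111976695,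 nat_lit 9165180826, nat_lit 8775238017, nat_lit 8827950807, nat_lit 9319323529, nat_lit 9369649334], nat_lit 1271250, nat_lit 1271250, nat_lit 1271250, nat_lit 1271250, nat_lit 1100001, nat_lit 2298750, [nat_lit 490000, nat_lit 1100000, nat_lit 2127500], [nat_lit 27, nat_lit 40, nat_lit 40, nat_lit 80, nat_lit 13, nat_lit 401, nat_lit 175, nat_lit 10]⟩,
 ⟨nat_lit 0, nat_lit 1582, ⟨.ofNat (nat_lit 725463), .ofNat (nat_lit 874821), .ofNat (nat_lit 736793), .ofNat (nat_lit 886479), .ofNat (nat_lit 728156), .ofNat (nat_lit 864997), .ofNat (nat_lit 740328), .ofNat (nat_lit 877498)⟩, ⟨.ofNat (nat_lit 90000), .ofNat (nat_lit 196201), .ofNat (nat_lit 90000), .ofNat (nat_lit 200000), .ofNat (nat_lit 90000), .ofNat (nat_lit 199999), .ofNat (nat_lit 90000), .ofNat (nat_lit 200000)⟩⟩, [⟨nat_lit 13, nat_lit 28, nat_lit 80, nat_lit 100, nat_lit 32394358⟩, ⟨nat_lit 22, nat_lit 82, nat_lit 100, nat_lit 71, nat_lit 117969394⟩]⟩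
noncomputable def p128_l79 : Lf2 := ⟨nat_lit 0, nat_lit 20, [nat_lit 5, nat_lit 5, nat_lit 5, nat_lit 20], false, nat_lit 80, nat_lit 160, nat_lit 160, nat_lit 300, ⟨nat_lit 253, nat_lit 747, nat_lit 0, nat_lit 8, nat_lit 308, nat_lit 747, nat_lit 105, nat_lit 0, nat_lit 0, nat_lit 0, nat_lit 0, nat_lit 0, nat_lit 39045554, nat_lit 23651837, nat_lit 4302609, nat_lit 4542822, true, false⟩,
 nat_lit 0, nat_lit 0, nat_lit 2330, nat_lit 0, nat_lit 2538, nat_lit 1747, nat_lit 160, nat_lit 0, nat_lit 0, nat_lit 133, nat_lit 0, nat_lit 0, nat_lit 0, nat_lit 0, nat_lit 0, nat_lit 186750, nat_lit 0, nat_lit 0, [(nat_lit 28, [(nat_lit 0, nat_lit 747)])],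
 ⟨p128_k22, nat_lit 0, nat_lit 0, nat_lit 102, nat_lit 0, nat_lit 0, [nat_lit 821169201, nat_lit 1611708000, nat_lit 2214234800], [], [nat_lit 24185970903, nat_lit 24748447222, nat_lit 26211295242, nat_lit 26715459608, nat_lit 24930585146, nat_lit 25444439894, nat_lit 26797709888, nat_lit 27262623532], nat_lit 0, nat_lit 0, nat_lit 0, nat_lit 0, nat_lit 0, nat_lit 0, [], [nat_lit 35, nat_lit 40, nat_lit 40, nat_lit 80, nat_lit 22, nat_lit 249, nat_lit 40, nat_lit 9]⟩, ⟨p128_k16, nat_lit 0, nat_lit 0, nat_lit 687, nat_lit 0, nat_lit 1356689, [nat_lit 514096000, nat_lit 1186064000, nat_lit 2490026000], [], [nat_lit 7369770105, nat_lit 7435480084, nat_lit 7612167173, nat_lit 7669024621, nat_lit 7594393319, nat_lit 7642290227, nat_lit 7751917304, nat_lit 7792719977], nat_lit 1271250, nat_lit 1271250, nat_lit 1271250, nat_lit 1271250, nat_lit 1100001, nat_lit 2298750, [nat_lit 490000, nat_lit 1100000, nat_lit 2127500],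 [nat_lit 27, nat_lit 40, nat_lit 40, nat_lit 80, nat_lit 13, nat_lit 401, nat_lit 175, nat_lit 10]⟩,
 ⟨nat_lit 0, nat_lit 1582, ⟨.ofNat (nat_lit 725463), .ofNat (nat_lit 803773), .ofNat (nat_lit 736793), .ofNat (nat_lit 815118), .ofNat (nat_lit 728156), .ofNat (nat_lit 799976), .ofNat (nat_lit 740328), .ofNat (nat_lit 812163)⟩, ⟨.ofNat (nat_lit 196201), .ofNat (nat_lit 305469), .ofNat (nat_lit 200000), .ofNat (nat_lit 352101), .ofNat (nat_lit 199999), .ofNat (nat_lit 299995), .ofNat (nat_lit 200000), .ofNat (nat_lit 349997)⟩⟩, [⟨nat_lit 4, nat_lit 100, nat_lit 23, nat_lit 91, nat_lit 209832265⟩, ⟨nat_lit 7, nat_lit 100, nat_lit 84, nat_lit 93, nat_lit 76601148⟩]⟩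
noncomputable def p128_l80 : Lf2 := ⟨nat_lit 0, nat_lit 20, [nat_lit 5, nat_lit 5, nat_lit 5, nat_lit 20], false, nat_lit 80, nat_lit 160, nat_lit 160, nat_lit 300, ⟨nat_lit 269, nat_lit 731, nat_lit 0, nat_lit 8, nat_lit 337, nat_lit 731, nat_lit 105, nat_lit 0, nat_lit 0, nat_lit 0, nat_lit 0, nat_lit 0, nat_lit 36603679, nat_lit 26280518, nat_lit 4115803, nat_lit 4590426, true, true⟩,
 nat_lit 0, nat_lit 0, nat_lit 2367, nat_lit 0, nat_lit 2523, nat_lit 1775, nat_lit 147, nat_lit 0, nat_lit 0, nat_lit 145, nat_lit 0, nat_lit 0, nat_lit 0, nat_lit 0, nat_lit 0, nat_lit 182750, nat_lit 0, nat_lit 0, [(nat_lit 28, [(nat_lit 0, nat_lit 731)])],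
 ⟨p128_k22, nat_lit 0, nat_lit 0, nat_lit 115, nat_lit 0, nat_lit 0, [nat_lit 823671601, nat_lit 1647484001, nat_lit 2267220400], [], [nat_lit 26408552567, nat_lit 26911565199, nat_lit 28580156738, nat_lit 29108519803, nat_lit 27000445708, nat_lit 27462022059, nat_lit 28969788352, nat_lit 29386643491], nat_lit 0, nat_lit 0, nat_lit 0, nat_lit 0, nat_lit 0, nat_lit 0, [], [nat_lit 35, nat_lit 40, nat_lit 40, nat_lit 80, nat_lit 22, nat_lit 249, nat_lit 40, nat_lit 9]⟩, ⟨p128_k16, nat_lit 0, nat_lit 0, nat_lit 670, nat_lit 0, nat_lit 1356689, [nat_lit 546608000, nat_lit 1261072000, nat_lit 2647498000], [], [nat_lit 8495779377, nat_lit 8555805625, nat_lit 8819169775, nat_lit 8870471668, nat_lit 8665086828, nat_lit 8714642081, nat_lit 8964988670, nat_lit 9028712869], nat_lit 1271250, nat_lit 1271250, nat_lit 1271250, nat_lit 1271250, nat_lit 1100001, nat_lit 2298750, [nat_lit 490000, nat_lit 1100000, nat_lit 2127500],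 [nat_lit 27, nat_lit 40, nat_lit 40, nat_lit 80, nat_lit 13, nat_lit 293, nat_lit 75, nat_lit 7]⟩,
 ⟨nat_lit 0, nat_lit 1582, ⟨.ofNat (nat_lit 803773), .ofNat (nat_lit 874821), .ofNat (nat_lit 815118), .ofNat (nat_lit 886479), .ofNat (nat_lit 799976), .ofNat (nat_lit 864997), .ofNat (nat_lit 812163), .ofNat (nat_lit 877498)⟩, ⟨.ofNat (nat_lit 196201), .ofNat (nat_lit 305469), .ofNat (nat_lit 200000), .ofNat (nat_lit 352101), .ofNat (nat_lit 199999), .ofNat (nat_lit 299995), .ofNat (nat_lit 200000), .ofNat (nat_lit 349997)⟩⟩, [⟨nat_lit 13, nat_lit 28, nat_lit 80, nat_lit 100, nat_lit 340038660⟩, ⟨nat_lit 4, nat_lit 100, nat_lit 23, nat_lit 91, nat_lit 173700887⟩, ⟨nat_lit 7, nat_lit 100, nat_lit 84, nat_lit 93, nat_lit 82046826⟩]⟩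
noncomputable def p128_l81 : Lf2 := ⟨nat_lit 0, nat_lit 20, [nat_lit 5, nat_lit 5, nat_lit 5, nat_lit 20], false, nat_lit 36, nat_lit 160, nat_lit 160, nat_lit 288, ⟨nat_lit 1000, nat_lit 0, nat_lit 0, nat_lit 0, nat_lit 0, nat_lit 0, nat_lit 0, nat_lit 0, nat_lit 0, nat_lit 0, nat_lit 0, nat_lit 0, nat_lit 0, nat_lit 0, nat_lit 0, nat_lit 0, false, false⟩,
 nat_lit 0, nat_lit 0, nat_lit 6711, nat_lit 0, nat_lit 2567, nat_lit 5231, nat_lit 392, nat_lit 0, nat_lit 0, nat_lit 1254, nat_lit 0, nat_lit 0, nat_lit 0, nat_lit 0, nat_lit 0, nat_lit 0, nat_lit 0, nat_lit 0, [],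
 ⟨p128_k22, nat_lit 0, nat_lit 0, nat_lit 144, nat_lit 0, nat_lit 0, [nat_lit 938000000, nat_lit 3282000000, nat_lit 4688000000], [], [nat_lit 25702551945, nat_lit 26259911782, nat_lit 30084737637, nat_lit 30575218089, nat_lit 26055981705, nat_lit 26549619023, nat_lit 30033388112, nat_lit 30472683618], nat_lit 0, nat_lit 0, nat_lit 0, nat_lit 0, nat_lit 0, nat_lit 0, [], [nat_lit 35, nat_lit 40, nat_lit 40, nat_lit 80, nat_lit 22, nat_lit 249, nat_lit 40, nat_lit 10]⟩, ⟨p128_k18, nat_lit 0, nat_lit 0, nat_lit 671, nat_lit 0, nat_lit 1342968, [nat_lit 2032000000, nat_lit 4688000000, nat_lit 9842000000], [], [nat_lit 29011897790, nat_lit 29269085546, nat_lit 31296855519, nat_lit 31498522351, nat_lit 30238552593, nat_lit 30442624306, nat_lit 32210108906, nat_lit 32673653404], nat_lit 1271250, nat_lit 1271250, nat_lit 1271250, nat_lit 1271250, nat_lit 1100001, nat_lit 2196000, [nat_lit 490000, nat_lit 1100000, nat_lit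 2127500], [nat_lit 27, nat_lit 40, nat_lit 40, nat_lit 80, nat_lit 13, nat_lit 401, nat_lit 175, nat_lit 10]⟩,
 zbF0, [⟨nat_lit 0, nat_lit 85, nat_lit 26, nat_lit 100, nat_lit 271487774⟩, ⟨nat_lit 4, nat_lit 100, nat_lit 23, nat_lit 91, nat_lit 797682351⟩, ⟨nat_lit 7, nat_lit 100, nat_lit 77, nat_lit 91, nat_lit 374682417⟩]⟩
noncomputable def b_V_900_800_20_5 : St := ⟨true, nat_lit 0, nat_lit 1, nat_lit 1, nat_lit 120, nat_lit 380, nat_lit 400, nat_lit 320, nat_lit 340, nat_lit 200, nat_lit 400, nat_lit 80, nat_lit 120, nat_lit 8, nat_lit 160, nat_lit 0, nat_lit 300, nat_lit 40, nat_lit 80, nat_lit 0, nat_lit 0, nat_lit 0, nat_lit 0⟩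
theorem d_V_900_800_20_5 (h : EB TB.env) : Dead b_V_900_800_20_5 := chkB_sound0 h (T :=
(.trZ (nat_lit 0) (nat_lit 82) (nat_lit 44) (nat_lit 100) (nat_lit 236) (.trX (nat_lit 13) (nat_lit 61) (nat_lit 47) (nat_lit 100) (nat_lit 392) (.trZ (nat_lit 3) (nat_lit 100) (nat_lit 54) (nat_lit 57) (nat_lit 20) (.spl (nat_lit 5) (nat_lit 160)
(.spl (nat_lit 0) (nat_lit 390)
(.spl (nat_lit 1) (nat_lit 330)
(.trX (nat_lit 13) (nat_lit 57) (nat_lit 53) (nat_lit 100) (nat_lit 384) (.spl (nat_lit 0) (nat_lit 385)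
(.leaf p128_l64)
(.trZ (nat_lit 0) (nat_lit 83) (nat_lit 39) (nat_lit 100) (nat_lit 248) (.trX (nat_lit 13) (nat_lit 50) (nat_lit 60) (nat_lit 100) (nat_lit 380) (.trZ (nat_lit 3) (nat_lit 100) (nat_lit 47) (nat_lit 64) (nat_lit 28) (.leaf p128_l65))))))
(.trZ (nat_lit 0) (nat_lit 79) (nat_lit 45) (nat_lit 100) (nat_lit 248) (.leaf p128_l66)))
(.trZ (nat_lit 0) (nat_lit 84) (nat_lit 33) (nat_lit 100) (nat_lit 264) (.trX (nat_lit 13) (nat_lit 44) (nat_lit 64) (nat_lit 100) (nat_lit 380) (.trZ (nat_lit 3) (nat_lit 100) (nat_lit 39) (nat_lit 72) (nat_lit 36) (.spl (nat_lit 1) (nat_lit 330)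
(.trX (nat_lit 13) (nat_lit 41) (nat_lit 68) (nat_lit 100) (nat_lit 372) (.spl (nat_lit 1) (nat_lit 325)
(.trX (nat_lit 13) (nat_lit 40) (nat_lit 70) (nat_lit 100) (nat_lit 368) (.leaf p128_l67))
(.trZ (nat_lit 0) (nat_lit 83) (nat_lit 33) (nat_lit 100) (nat_lit 268) (.leaf p128_l68))))
(.trZ (nat_lit 0) (nat_lit 82) (nat_lit 34) (nat_lit 100) (nat_lit 276) (.leaf p128_l69)))))))
(.spl (nat_lit 0) (nat_lit 390)
(.spl (nat_lit 0) (nat_lit 385)
(.spl (nat_lit 2) (nat_lit 320)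
(.leaf p128_l70)
(.spl (nat_lit 1) (nat_lit 330)
(.trX (nat_lit 13) (nat_lit 57) (nat_lit 53) (nat_lit 100) (nat_lit 384) (.spl (nat_lit 1) (nat_lit 325)
(.leaf p128_l71)
(.trX (nat_lit 19) (nat_lit 85) (nat_lit 97) (nat_lit 100) (nat_lit 296) (.leaf p128_l72))))
(.trX (nat_lit 19) (nat_lit 83) (nat_lit 98) (nat_lit 100) (nat_lit 288) (.leaf p128_l73))))
(.trZ (nat_lit 0) (nat_lit 83) (nat_lit 39) (nat_lit 100) (nat_lit 248) (.trX (nat_lit 13) (nat_lit 53) (nat_lit 55) (nat_lit 100) (nat_lit 384) (.trZ (nat_lit 3) (nat_lit 100) (nat_lit 47) (nat_lit 64) (nat_lit 28) (.spl (nat_lit 2) (nat_lit 320)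
(.leaf p128_l74)
(.spl (nat_lit 1) (nat_lit 330)
(.trX (nat_lit 13) (nat_lit 50) (nat_lit 60) (nat_lit 100) (nat_lit 380) (.spl (nat_lit 2) (nat_lit 360)
(.leaf p128_l75)
(.trZ (nat_lit 22) (nat_lit 61) (nat_lit 100) (nat_lit 68) (nat_lit 48) (.trX (nat_lit 22) (nat_lit 61) (nat_lit 92) (nat_lit 100) (nat_lit 288) (.leaf p128_l76)))))
(.trX (nat_lit 19) (nat_lit 83) (nat_lit 98) (nat_lit 100) (nat_lit 288) (.leaf p128_l77))))))))
(.trZ (nat_lit 0) (nat_lit 84) (nat_lit 33) (nat_lit 100) (nat_lit 264) (.trX (nat_lit 13) (nat_lit 44) (nat_lit 64) (nat_lit 100) (nat_lit 380) (.trZ (nat_lit 3) (nat_lit 100) (nat_lit 39) (nat_lit 72) (nat_lit 36) (.spl (nat_lit 1) (nat_lit 330)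
(.trX (nat_lit 13) (nat_lit 41) (nat_lit 68) (nat_lit 100) (nat_lit 372) (.spl (nat_lit 4) (nat_lit 80)
(.leaf p128_l78)
(.spl (nat_lit 2) (nat_lit 320)
(.leaf p128_l79)
(.leaf p128_l80))))
(.trZ (nat_lit 0) (nat_lit 82) (nat_lit 34) (nat_lit 100) (nat_lit 276) (.trX (nat_lit 19) (nat_lit 83) (nat_lit 98) (nat_lit 100) (nat_lit 288) (.leaf p128_l81))))))))))))) (by decide +kernel)
noncomputable def p128_l82 : Lf2 := ⟨nat_lit 0, nat_lit 20, [nat_lit 5, nat_lit 5, nat_lit 5, nat_lit 20], false, nat_lit 160, nat_lit 248, nat_lit 0, nat_lit 300, ⟨nat_lit 234, nat_lit 766, nat_lit 0, nat_lit 8, nat_lit 292, nat_lit 766, nat_lit 158, nat_lit 0, nat_lit 0, nat_lit 0, nat_lit 0, nat_lit 0, nat_lit 38012790, nat_lit 21103351, nat_lit 7883859, nat_lit 5028093, true, false⟩,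
 nat_lit 0, nat_lit 0, nat_lit 2156, nat_lit 0, nat_lit 3260, nat_lit 1617, nat_lit 0, nat_lit 0, nat_lit 0, nat_lit 136, nat_lit 0, nat_lit 0, nat_lit 0, nat_lit 0, nat_lit 0, nat_lit 191500, nat_lit 0, nat_lit 0, [(nat_lit 25, [(nat_lit 0, nat_lit 766)])],
 ⟨p128_k15, nat_lit 0, nat_lit 0, nat_lit 55, nat_lit 0, nat_lit 0, [nat_lit 804716000, nat_lit 1816488801, nat_lit 3084888000], [], [nat_lit 21079562961, nat_lit 21786128681, nat_lit 25654750721, nat_lit 26212800201, nat_lit 23548688602, nat_lit 24158705327, nat_lit 27469278641, nat_lit 27956248740], nat_lit 0, nat_lit 0, nat_lit 0, nat_lit 0, nat_lit 0, nat_lit 0, [], [nat_lit 20, nat_lit 40, nat_lit 40, nat_lit 80, nat_lit 16, nat_lit 289, nat_lit 75, nat_lit 9]⟩, ⟨p128_k16, nat_lit 0, nat_lit 0, nat_lit 634, nat_lit 0, nat_lit 1011715, [nat_lit 475488000, nat_lit 1096992000, nat_lit 2303028000], [], [nat_lit 7273174876, nat_lit 7357619809, nat_lit 7767735760,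 nat_lit 7872311251, nat_lit 7173057895, nat_lit 6861986002, nat_lit 7143798465, nat_lit 7193609250], nat_lit 1271250, nat_lit 1271250, nat_lit 1271250, nat_lit 1271250, nat_lit 0, nat_lit 2118750, [nat_lit 490000, nat_lit 1100000, nat_lit 2127500], [nat_lit 27, nat_lit 40, nat_lit 40, nat_lit 80, nat_lit 13, nat_lit 401, nat_lit 175, nat_lit 11]⟩,
 ⟨nat_lit 2738, nat_lit 3163, ⟨.ofNat (nat_lit 632856), .ofNat (nat_lit 815772), .ofNat (nat_lit 643928), .ofNat (nat_lit 826842), .ofNat (nat_lit 634431), .ofNat (nat_lit 811670), .ofNat (nat_lit 645634), .ofNat (nat_lit 822873)⟩, ⟨.ofNat (nat_lit 306116), .ofNat (nat_lit 440213), .ofNat (nat_lit 350426), .ofNat (nat_lit 484523), .ofNat (nat_lit 306433), .ofNat (nat_lit 436368), .ofNat (nat_lit 351268), .ofNat (nat_lit 481203)⟩⟩, [⟨nat_lit 16, nat_lit 62, nat_lit 100, nat_lit 94, nat_lit 195556817⟩, ⟨nat_lit 4, nat_lit 100, nat_lit 57, nat_lit 87, nat_lit 88775894⟩,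 ⟨nat_lit 19, nat_lit 87, nat_lit 95, nat_lit 100, nat_lit 35350007⟩]⟩
noncomputable def p128_l83 : Lf2 := ⟨nat_lit 0, nat_lit 20, [nat_lit 5, nat_lit 5, nat_lit 5, nat_lit 20], false, nat_lit 160, nat_lit 232, nat_lit 0, nat_lit 300, ⟨nat_lit 278, nat_lit 722, nat_lit 0, nat_lit 8, nat_lit 296, nat_lit 722, nat_lit 152, nat_lit 0, nat_lit 0, nat_lit 0, nat_lit 0, nat_lit 0, nat_lit 37941161, nat_lit 21594494, nat_lit 7464345, nat_lit 4991412, true, false⟩,
 nat_lit 0, nat_lit 0, nat_lit 2568, nat_lit 0, nat_lit 3314, nat_lit 1926, nat_lit 0, nat_lit 0, nat_lit 0, nat_lit 147, nat_lit 0, nat_lit 0, nat_lit 0, nat_lit 0, nat_lit 0, nat_lit 180500, nat_lit 0, nat_lit 0, [(nat_lit 25, [(nat_lit 0, nat_lit 722)])],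
 ⟨p128_k17, nat_lit 0, nat_lit 0, nat_lit 59, nat_lit 0, nat_lit 0, [nat_lit 812372001, nat_lit 1900669600, nat_lit 3266696000], [], [nat_lit 22348265077, nat_lit 23040972348, nat_lit 26291437360, nat_lit 26853490832, nat_lit 24153650234, nat_lit 24769668897, nat_lit 27646083439, nat_lit 28150053839], nat_lit 0, nat_lit 0, nat_lit 0, nat_lit 0, nat_lit 0, nat_lit 0, [], [nat_lit 20, nat_lit 40, nat_lit 40, nat_lit 80, nat_lit 16, nat_lit 272, nat_lit 60, nat_lit 9]⟩, ⟨p128_k16, nat_lit 0, nat_lit 0, nat_lit 703, nat_lit 0, nat_lit 1122083, [nat_lit 564896000, nat_lit 1303264000, nat_lit 2736076000], [], [nat_lit 8818372412, nat_lit 8915670595, nat_lit 9351930039, nat_lit 9501856781, nat_lit 8224983155, nat_lit 8283995767, nat_lit 8473900905, nat_lit 8533784649], nat_lit 1271250, nat_lit 1271250, nat_lit 1271250, nat_lit 1271250, nat_lit 0, nat_lit 2118750, [nat_lit 490000, nat_lit 1100000, nat_lit 2127500], [nat_lit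 27, nat_lit 40, nat_lit 40, nat_lit 80, nat_lit 13, nat_lit 401, nat_lit 175, nat_lit 11]⟩,
 ⟨nat_lit 2236, nat_lit 2739, ⟨.ofNat (nat_lit 658020), .ofNat (nat_lit 811671), .ofNat (nat_lit 669219), .ofNat (nat_lit 822869), .ofNat (nat_lit 659343), .ofNat (nat_lit 807675), .ofNat (nat_lit 670720), .ofNat (nat_lit 819051)⟩, ⟨.ofNat (nat_lit 306433), .ofNat (nat_lit 412743), .ofNat (nat_lit 351268), .ofNat (nat_lit 457578), .ofNat (nat_lit 306337), .ofNat (nat_lit 408965), .ofNat (nat_lit 351886), .ofNat (nat_lit 454514)⟩⟩, [⟨nat_lit 4, nat_lit 100, nat_lit 48, nat_lit 87, nat_lit 385986500⟩, ⟨nat_lit 19, nat_lit 87, nat_lit 95, nat_lit 100, nat_lit 39215878⟩]⟩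
noncomputable def p128_l84 : Lf2 := ⟨nat_lit 0, nat_lit 20, [nat_lit 5, nat_lit 5, nat_lit 5, nat_lit 20], false, nat_lit 160, nat_lit 208, nat_lit 0, nat_lit 300, ⟨nat_lit 298, nat_lit 702, nat_lit 0, nat_lit 8, nat_lit 301, nat_lit 702, nat_lit 144, nat_lit 0, nat_lit 0, nat_lit 0, nat_lit 0, nat_lit 0, nat_lit 37989482, nat_lit 22197303, nat_lit 6813215, nat_lit 4921246, true, false⟩,
 nat_lit 0, nat_lit 0, nat_lit 2858, nat_lit 0, nat_lit 2598, nat_lit 2143, nat_lit 281, nat_lit 0, nat_lit 0, nat_lit 146, nat_lit 0, nat_lit 0, nat_lit 0, nat_lit 0, nat_lit 0, nat_lit 175500, nat_lit 0, nat_lit 0, [(nat_lit 28, [(nat_lit 0, nat_lit 702)])],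
 ⟨p128_k20, nat_lit 0, nat_lit 0, nat_lit 78, nat_lit 0, nat_lit 0, [nat_lit 828207201, nat_lit 1738723201, nat_lit 3046228000], [], [nat_lit 23313857098, nat_lit 24366793988, nat_lit 26036496311, nat_lit 27148604912, nat_lit 24317450025, nat_lit 25300812216, nat_lit 26991544528, nat_lit 28013040762], nat_lit 0, nat_lit 0, nat_lit 0, nat_lit 0, nat_lit 0, nat_lit 0, [], [nat_lit 20, nat_lit 40, nat_lit 40, nat_lit 80, nat_lit 16, nat_lit 272, nat_lit 60, nat_lit 8]⟩, ⟨p128_k16, nat_lit 0, nat_lit 0, nat_lit 779, nat_lit 0, nat_lit 1356689, [nat_lit 605536000, nat_lit 1397024000, nat_lit 2932916000], [], [nat_lit 9624324930, nat_lit 9707754668, nat_lit 10158234146, nat_lit 10358238615, nat_lit 8765243135, nat_lit 8814002734, nat_lit 9088755174, nat_lit 9213129415], nat_lit 1271250, nat_lit 1271250, nat_lit 1271250, nat_lit 1271250, nat_lit 0, nat_lit 2118750, [nat_lit 490000, nat_lit 1100000, nat_lit 2127500], [nat_lit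 27, nat_lit 40, nat_lit 40, nat_lit 80, nat_lit 13, nat_lit 401, nat_lit 175, nat_lit 11]⟩,
 ⟨nat_lit 0, nat_lit 2237, ⟨.ofNat (nat_lit 684059), .ofNat (nat_lit 807594), .ofNat (nat_lit 694982), .ofNat (nat_lit 818584), .ofNat (nat_lit 691099), .ofNat (nat_lit 799902), .ofNat (nat_lit 703135), .ofNat (nat_lit 812004)⟩, ⟨.ofNat (nat_lit 306334), .ofNat (nat_lit 374750), .ofNat (nat_lit 351885), .ofNat (nat_lit 420300), .ofNat (nat_lit 299996), .ofNat (nat_lit 359993), .ofNat (nat_lit 349998), .ofNat (nat_lit 409994)⟩⟩, [⟨nat_lit 16, nat_lit 44, nat_lit 100, nat_lit 92, nat_lit 311187918⟩, ⟨nat_lit 4, nat_lit 100, nat_lit 32, nat_lit 88, nat_lit 183964394⟩, ⟨nat_lit 19, nat_lit 87, nat_lit 95, nat_lit 100, nat_lit 39910766⟩]⟩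
noncomputable def p128_l85 : Lf2 := ⟨nat_lit 0, nat_lit 20, [nat_lit 5, nat_lit 5, nat_lit 5, nat_lit 20], false, nat_lit 160, nat_lit 248, nat_lit 0, nat_lit 288, ⟨nat_lit 1000, nat_lit 0, nat_lit 0, nat_lit 0, nat_lit 0, nat_lit 0, nat_lit 0, nat_lit 0, nat_lit 0, nat_lit 0, nat_lit 0, nat_lit 0, nat_lit 0, nat_lit 0, nat_lit 0, nat_lit 0, false, false⟩,
 nat_lit 0, nat_lit 0, nat_lit 6682, nat_lit 0, nat_lit 4578, nat_lit 5208, nat_lit 0, nat_lit 0, nat_lit 0, nat_lit 1462, nat_lit 0, nat_lit 0, nat_lit 0, nat_lit 0, nat_lit 0, nat_lit 0, nat_lit 0, nat_lit 0, [],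
 ⟨p128_k15, nat_lit 0, nat_lit 0, nat_lit 59, nat_lit 0, nat_lit 0, [nat_lit 938000000, nat_lit 3282000000, nat_lit 6250000000], [], [nat_lit 22238446662, nat_lit 23894975011, nat_lit 26887228976, nat_lit 28198782064, nat_lit 24714651361, nat_lit 26129811262, nat_lit 28609934472, nat_lit 29784506977], nat_lit 0, nat_lit 0, nat_lit 0, nat_lit 0, nat_lit 0, nat_lit 0, [], [nat_lit 20, nat_lit 40, nat_lit 40, nat_lit 80, nat_lit 16, nat_lit 289, nat_lit 75, nat_lit 9]⟩, ⟨p128_k18, nat_lit 0, nat_lit 0, nat_lit 705, nat_lit 0, nat_lit 1126843, [nat_lit 2032000000, nat_lit 4688000000, nat_lit 9842000000], [], [nat_lit 27501565316, nat_lit 27870894947, nat_lit 29867171756, nat_lit 30566452544, nat_lit 27660503166, nat_lit 27907351873, nat_lit 29184629341, nat_lit 29398101564], nat_lit 1271250, nat_lit 1271250, nat_lit 1271250, nat_lit 1271250, nat_lit 0, nat_lit 2034000, [nat_lit 490000, nat_lit 1100000, nat_lit 2127500],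 [nat_lit 27, nat_lit 40, nat_lit 40, nat_lit 80, nat_lit 13, nat_lit 401, nat_lit 175, nat_lit 11]⟩,
 zbF0, [⟨nat_lit 0, nat_lit 75, nat_lit 46, nat_lit 100, nat_lit 478843749⟩, ⟨nat_lit 16, nat_lit 53, nat_lit 100, nat_lit 87, nat_lit 651436792⟩, ⟨nat_lit 19, nat_lit 83, nat_lit 98, nat_lit 100, nat_lit 189587351⟩]⟩
noncomputable def p128_l86 : Lf2 := ⟨nat_lit 0, nat_lit 20, [nat_lit 5, nat_lit 5, nat_lit 5, nat_lit 20], false, nat_lit 160, nat_lit 208, nat_lit 0, nat_lit 288, ⟨nat_lit 960, nat_lit 40, nat_lit 0, nat_lit 8, nat_lit 308, nat_lit 40, nat_lit 144, nat_lit 0, nat_lit 0, nat_lit 0, nat_lit 0, nat_lit 0, nat_lit 37356178, nat_lit 22910142, nat_lit 6733680, nat_lit 4938109, true, false⟩,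
 nat_lit 0, nat_lit 0, nat_lit 7064, nat_lit 0, nat_lit 2871, nat_lit 5506, nat_lit 546, nat_lit 0, nat_lit 0, nat_lit 1156, nat_lit 0, nat_lit 0, nat_lit 0, nat_lit 0, nat_lit 0, nat_lit 16000, nat_lit 0, nat_lit 0, [(nat_lit 28, [(nat_lit 1, nat_lit 40)])],
 ⟨p128_k20, nat_lit 0, nat_lit 0, nat_lit 78, nat_lit 0, nat_lit 0, [nat_lit 928384000, nat_lit 3163712000, nat_lit 6005520000], [], [nat_lit 23499477980, nat_lit 24781932546, nat_lit 26334379874, nat_lit 27492788024, nat_lit 24560480114, nat_lit 25810616779, nat_lit 27253935596, nat_lit 28332718084], nat_lit 0, nat_lit 0, nat_lit 0, nat_lit 0, nat_lit 0, nat_lit 0, [], [nat_lit 20, nat_lit 40, nat_lit 40, nat_lit 80, nat_lit 16, nat_lit 272, nat_lit 60, nat_lit 8]⟩, ⟨p128_k18, nat_lit 0, nat_lit 0, nat_lit 772, nat_lit 0, nat_lit 1342968, [nat_lit 1950720000, nat_lit 4500480000, nat_lit 9448320000], [], [nat_lit 27885472240, nat_lit 28152903965, nat_lit 29610021212,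 nat_lit 30461935328, nat_lit 26899656531, nat_lit 27073714460, nat_lit 28076750856, nat_lit 28636120819], nat_lit 1271250, nat_lit 1271250, nat_lit 1271250, nat_lit 1271250, nat_lit 0, nat_lit 2034000, [nat_lit 490000, nat_lit 1100000, nat_lit 2127500], [nat_lit 27, nat_lit 40, nat_lit 40, nat_lit 80, nat_lit 13, nat_lit 401, nat_lit 175, nat_lit 11]⟩,
 ⟨nat_lit 0, nat_lit 2237, ⟨.ofNat (nat_lit 712639), .ofNat (nat_lit 818584), .ofNat (nat_lit 723563), .ofNat (nat_lit 829507), .ofNat (nat_lit 718688), .ofNat (nat_lit 812004), .ofNat (nat_lit 730725), .ofNat (nat_lit 824041)⟩, ⟨.ofNat (nat_lit 306334), .ofNat (nat_lit 374750), .ofNat (nat_lit 351885), .ofNat (nat_lit 420300), .ofNat (nat_lit 299996), .ofNat (nat_lit 359993), .ofNat (nat_lit 349998), .ofNat (nat_lit 409994)⟩⟩, [⟨nat_lit 0, nat_lit 79, nat_lit 45, nat_lit 100, nat_lit 229686934⟩, ⟨nat_lit 16, nat_lit 32, nat_lit 100, nat_lit 88, nat_lit 1068668094⟩,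 ⟨nat_lit 7, nat_lit 100, nat_lit 77, nat_lit 91, nat_lit 198329856⟩]⟩
noncomputable def p128_l87 : Lf2 := ⟨nat_lit 0, nat_lit 20, [nat_lit 5, nat_lit 5, nat_lit 5, nat_lit 20], false, nat_lit 160, nat_lit 248, nat_lit 16, nat_lit 160, ⟨nat_lit 1000, nat_lit 0, nat_lit 0, nat_lit 0, nat_lit 0, nat_lit 0, nat_lit 0, nat_lit 0, nat_lit 0, nat_lit 0, nat_lit 0, nat_lit 0, nat_lit 0, nat_lit 0, nat_lit 0, nat_lit 0, false, false⟩,
 nat_lit 0, nat_lit 0, nat_lit 8493, nat_lit 0, nat_lit 3915, nat_lit 6369, nat_lit 415, nat_lit 0, nat_lit 0, nat_lit 591, nat_lit 0, nat_lit 0, nat_lit 0, nat_lit 0, nat_lit 0, nat_lit 0, nat_lit 0, nat_lit 0, [],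
 ⟨p128_k15, nat_lit 0, nat_lit 0, nat_lit 103, nat_lit 0, nat_lit 0, [nat_lit 938000000, nat_lit 3282000000, nat_lit 6250000000], [], [nat_lit 27497367275, nat_lit 28039971005, nat_lit 31294120335, nat_lit 31737692205, nat_lit 29042573553, nat_lit 29514354300, nat_lit 32447870539, nat_lit 32877914579], nat_lit 0, nat_lit 0, nat_lit 0, nat_lit 0, nat_lit 0, nat_lit 0, [], [nat_lit 20, nat_lit 40, nat_lit 40, nat_lit 80, nat_lit 16, nat_lit 289, nat_lit 75, nat_lit 9]⟩, ⟨p128_k16, nat_lit 0, nat_lit 0, nat_lit 632, nat_lit 0, nat_lit 1082608, [nat_lit 2032000000, nat_lit 4688000000, nat_lit 9842000000], [], [nat_lit 35030245067, nat_lit 35558851581, nat_lit 37947113052, nat_lit 39338251264, nat_lit 32282334223, nat_lit 32727265908, nat_lit 34565419524, nat_lit 35013345530], nat_lit 1271250, nat_lit 1271250, nat_lit 1271250, nat_lit 1271250, nat_lit 88400, nat_lit 1100001, [nat_lit 490000, nat_lit 1100000, nat_lit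 2127500], [nat_lit 27, nat_lit 40, nat_lit 40, nat_lit 80, nat_lit 13, nat_lit 271, nat_lit 40, nat_lit 7]⟩,
 zbF0, [⟨nat_lit 4, nat_lit 100, nat_lit 57, nat_lit 87, nat_lit 586243470⟩]⟩
noncomputable def p128_l88 : Lf2 := ⟨nat_lit 0, nat_lit 20, [nat_lit 5, nat_lit 5, nat_lit 5, nat_lit 20], false, nat_lit 160, nat_lit 248, nat_lit 160, nat_lit 300, ⟨nat_lit 1000, nat_lit 0, nat_lit 0, nat_lit 0, nat_lit 0, nat_lit 0, nat_lit 0, nat_lit 0, nat_lit 0, nat_lit 0, nat_lit 0, nat_lit 0, nat_lit 0, nat_lit 0, nat_lit 0, nat_lit 0, false, false⟩,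
 nat_lit 0, nat_lit 0, nat_lit 8264, nat_lit 0, nat_lit 4277, nat_lit 6198, nat_lit 413, nat_lit 0, nat_lit 0, nat_lit 570, nat_lit 0, nat_lit 0, nat_lit 0, nat_lit 0, nat_lit 0, nat_lit 0, nat_lit 0, nat_lit 0, [],
 ⟨p128_k15, nat_lit 0, nat_lit 0, nat_lit 103, nat_lit 0, nat_lit 0, [nat_lit 938000000, nat_lit 3282000000, nat_lit 6250000000], [], [nat_lit 27369777345, nat_lit 27934992319, nat_lit 31350260480, nat_lit 31861597284, nat_lit 28877470722, nat_lit 29367147699, nat_lit 32491751165, nat_lit 32936617441], nat_lit 0, nat_lit 0, nat_lit 0, nat_lit 0, nat_lit 0, nat_lit 0, [], [nat_lit 20, nat_lit 40, nat_lit 40, nat_lit 80, nat_lit 16, nat_lit 289, nat_lit 75, nat_lit 9]⟩, ⟨p128_k16, nat_lit 0, nat_lit 0, nat_lit 561, nat_lit 0, nat_lit 1082608, [nat_lit 2032000000, nat_lit 4688000000, nat_lit 9842000000], [], [nat_lit 31798245826, nat_lit 32330646466, nat_lit 34071387018, nat_lit 34490692422, nat_lit 32846098362,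 nat_lit 33295706904, nat_lit 34958134546, nat_lit 35355734341], nat_lit 1271250, nat_lit 1271250, nat_lit 1271250, nat_lit 1271250, nat_lit 1100001, nat_lit 2298750, [nat_lit 490000, nat_lit 1100000, nat_lit 2127500], [nat_lit 27, nat_lit 40, nat_lit 40, nat_lit 80, nat_lit 13, nat_lit 289, nat_lit 75, nat_lit 7]⟩,
 zbF0, [⟨nat_lit 4, nat_lit 100, nat_lit 57, nat_lit 87, nat_lit 581411307⟩, ⟨nat_lit 7, nat_lit 100, nat_lit 81, nat_lit 92, nat_lit 336370055⟩]⟩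
noncomputable def p128_l89 : Lf2 := ⟨nat_lit 0, nat_lit 20, [nat_lit 5, nat_lit 5, nat_lit 5, nat_lit 20], false, nat_lit 160, nat_lit 232, nat_lit 16, nat_lit 160, ⟨nat_lit 1000, nat_lit 0, nat_lit 0, nat_lit 0, nat_lit 0, nat_lit 0, nat_lit 0, nat_lit 0, nat_lit 0, nat_lit 0, nat_lit 0, nat_lit 0, nat_lit 0, nat_lit 0, nat_lit 0, nat_lit 0, false, false⟩,
 nat_lit 0, nat_lit 0, nat_lit 8670, nat_lit 0, nat_lit 3131, nat_lit 6502, nat_lit 532, nat_lit 0, nat_lit 0, nat_lit 594, nat_lit 0, nat_lit 0, nat_lit 0, nat_lit 0, nat_lit 0, nat_lit 0, nat_lit 0, nat_lit 0, [],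
 ⟨p128_k17, nat_lit 0, nat_lit 0, nat_lit 103, nat_lit 0, nat_lit 0, [nat_lit 938000000, nat_lit 3282000000, nat_lit 6250000000], [], [nat_lit 26586619682, nat_lit 27080253204, nat_lit 29913996046, nat_lit 30375095924, nat_lit 27916063635, nat_lit 28393829603, nat_lit 30943310415, nat_lit 31359787746], nat_lit 0, nat_lit 0, nat_lit 0, nat_lit 0, nat_lit 0, nat_lit 0, [], [nat_lit 20, nat_lit 40, nat_lit 40, nat_lit 80, nat_lit 16, nat_lit 272, nat_lit 60, nat_lit 8]⟩, ⟨p128_k16, nat_lit 0, nat_lit 0, nat_lit 650, nat_lit 0, nat_lit 1122083, [nat_lit 2032000000, nat_lit 4688000000, nat_lit 9842000000], [], [nat_lit 34392440186, nat_lit 34658067192, nat_lit 37473333955, nat_lit 38201019675, nat_lit 31545939634, nat_lit 31768585986, nat_lit 33643590863, nat_lit 33874248433], nat_lit 1271250, nat_lit 1271250, nat_lit 1271250, nat_lit 1271250, nat_lit 88400, nat_lit 1100001, [nat_lit 490000, nat_lit 1100000, nat_lit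 2127500], [nat_lit 27, nat_lit 40, nat_lit 40, nat_lit 80, nat_lit 13, nat_lit 273, nat_lit 40, nat_lit 7]⟩,
 zbF0, [⟨nat_lit 4, nat_lit 100, nat_lit 48, nat_lit 87, nat_lit 704762809⟩]⟩
noncomputable def p128_l90 : Lf2 := ⟨nat_lit 0, nat_lit 20, [nat_lit 5, nat_lit 5, nat_lit 5, nat_lit 20], false, nat_lit 160, nat_lit 232, nat_lit 160, nat_lit 300, ⟨nat_lit 922, nat_lit 78, nat_lit 0, nat_lit 8, nat_lit 347, nat_lit 78, nat_lit 152, nat_lit 0, nat_lit 0, nat_lit 0, nat_lit 0, nat_lit 0, nat_lit 34045811, nat_lit 26058613, nat_lit 6895576, nat_lit 5056396, true, true⟩,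
 nat_lit 0, nat_lit 0, nat_lit 7580, nat_lit 0, nat_lit 3088, nat_lit 5685, nat_lit 510, nat_lit 0, nat_lit 0, nat_lit 526, nat_lit 0, nat_lit 0, nat_lit 0, nat_lit 0, nat_lit 0, nat_lit 19500, nat_lit 0, nat_lit 0, [(nat_lit 25, [(nat_lit 0, nat_lit 78)])],
 ⟨p128_k17, nat_lit 0, nat_lit 0, nat_lit 103, nat_lit 0, nat_lit 0, [nat_lit 924428000, nat_lit 3132770401, nat_lit 5927704000], [], [nat_lit 26486868336, nat_lit 26980208037, nat_lit 29799933170, nat_lit 30258692575, nat_lit 27834644127, nat_lit 28305319337, nat_lit 30836061920, nat_lit 31250604688], nat_lit 0, nat_lit 0, nat_lit 0, nat_lit 0, nat_lit 0, nat_lit 0, [], [nat_lit 20, nat_lit 40, nat_lit 40, nat_lit 80, nat_lit 16, nat_lit 272, nat_lit 60, nat_lit 8]⟩, ⟨p128_k16, nat_lit 0, nat_lit 0, nat_lit 575, nat_lit 0, nat_lit 1122083, [nat_lit 1873504000, nat_lit 4322336000, nat_lit 9074324000], [], [nat_lit 29445295118, nat_lit 29690426204, nat_lit 31315614506,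 nat_lit 31514048511, nat_lit 30417978598, nat_lit 30600175170, nat_lit 32147558007, nat_lit 32335839797], nat_lit 1271250, nat_lit 1271250, nat_lit 1271250, nat_lit 1271250, nat_lit 1100001, nat_lit 2298750, [nat_lit 490000, nat_lit 1100000, nat_lit 2127500], [nat_lit 27, nat_lit 40, nat_lit 40, nat_lit 80, nat_lit 13, nat_lit 289, nat_lit 75, nat_lit 7]⟩,
 ⟨nat_lit 2236, nat_lit 2739, ⟨.ofNat (nat_lit 811671), .ofNat (nat_lit 917997), .ofNat (nat_lit 822869), .ofNat (nat_lit 929206), .ofNat (nat_lit 807675), .ofNat (nat_lit 910319), .ofNat (nat_lit 819051), .ofNat (nat_lit 921706)⟩, ⟨.ofNat (nat_lit 306433), .ofNat (nat_lit 412743), .ofNat (nat_lit 351268), .ofNat (nat_lit 457578), .ofNat (nat_lit 306337), .ofNat (nat_lit 408965), .ofNat (nat_lit 351886), .ofNat (nat_lit 454514)⟩⟩, [⟨nat_lit 4, nat_lit 100, nat_lit 48, nat_lit 87, nat_lit 671804337⟩, ⟨nat_lit 7, nat_lit 100, nat_lit 84, nat_lit 93, nat_lit 296937973⟩]⟩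
noncomputable def p128_l91 : Lf2 := ⟨nat_lit 0, nat_lit 20, [nat_lit 5, nat_lit 5, nat_lit 5, nat_lit 20], false, nat_lit 160, nat_lit 232, nat_lit 16, nat_lit 288, ⟨nat_lit 1000, nat_lit 0, nat_lit 0, nat_lit 0, nat_lit 0, nat_lit 0, nat_lit 0, nat_lit 0, nat_lit 0, nat_lit 0, nat_lit 0, nat_lit 0, nat_lit 0, nat_lit 0, nat_lit 0, nat_lit 0, false, false⟩,
 nat_lit 0, nat_lit 0, nat_lit 6920, nat_lit 0, nat_lit 3276, nat_lit 5394, nat_lit 527, nat_lit 0, nat_lit 0, nat_lit 1032, nat_lit 0, nat_lit 0, nat_lit 0, nat_lit 0, nat_lit 0, nat_lit 0, nat_lit 0, nat_lit 0, [],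
 ⟨p128_k17, nat_lit 0, nat_lit 0, nat_lit 104, nat_lit 0, nat_lit 0, [nat_lit 938000000, nat_lit 3282000000, nat_lit 6250000000], [], [nat_lit 26585476372, nat_lit 27088166884, nat_lit 30166687595, nat_lit 30630699956, nat_lit 27885065176, nat_lit 28386363802, nat_lit 31153200823, nat_lit 31571870008], nat_lit 0, nat_lit 0, nat_lit 0, nat_lit 0, nat_lit 0, nat_lit 0, [], [nat_lit 20, nat_lit 40, nat_lit 40, nat_lit 80, nat_lit 16, nat_lit 272, nat_lit 60, nat_lit 8]⟩, ⟨p128_k18, nat_lit 0, nat_lit 0, nat_lit 652, nat_lit 0, nat_lit 1126843, [nat_lit 2032000000, nat_lit 4688000000, nat_lit 9842000000], [], [nat_lit 32158829882, nat_lit 32435666425, nat_lit 35710966260, nat_lit 36359693191, nat_lit 31511236372, nat_lit 31696529628, nat_lit 33349233750, nat_lit 33793041047], nat_lit 1271250, nat_lit 1271250, nat_lit 1271250, nat_lit 1271250, nat_lit 88400, nat_lit 2050200, [nat_lit 490000, nat_lit 1100000, nat_lit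 2127500], [nat_lit 27, nat_lit 40, nat_lit 40, nat_lit 80, nat_lit 13, nat_lit 291, nat_lit 75, nat_lit 7]⟩,
 zbF0, [⟨nat_lit 4, nat_lit 100, nat_lit 48, nat_lit 87, nat_lit 702404113⟩, ⟨nat_lit 19, nat_lit 77, nat_lit 100, nat_lit 91, nat_lit 191818756⟩]⟩
noncomputable def p128_l92 : Lf2 := ⟨nat_lit 0, nat_lit 15, [nat_lit 30, nat_lit 5, nat_lit 5, nat_lit 20], false, nat_lit 160, nat_lit 208, nat_lit 16, nat_lit 160, ⟨nat_lit 1000, nat_lit 0, nat_lit 0, nat_lit 0, nat_lit 0, nat_lit 0, nat_lit 0, nat_lit 0, nat_lit 0, nat_lit 0, nat_lit 0, nat_lit 0, nat_lit 0, nat_lit 0, nat_lit 0, nat_lit 0, false, false⟩,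
 nat_lit 0, nat_lit 0, nat_lit 8998, nat_lit 0, nat_lit 3046, nat_lit 6748, nat_lit 440, nat_lit 0, nat_lit 0, nat_lit 505, nat_lit 0, nat_lit 0, nat_lit 0, nat_lit 0, nat_lit 0, nat_lit 0, nat_lit 0, nat_lit 0, [],
 ⟨p128_k24, nat_lit 0, nat_lit 0, nat_lit 94, nat_lit 0, nat_lit 0, [nat_lit 938000000, nat_lit 3282000000, nat_lit 4688000000], [], [nat_lit 26528919924, nat_lit 27713418224, nat_lit 29659595689, nat_lit 30671468172, nat_lit 27432553896, nat_lit 28537639444, nat_lit 30354218805, nat_lit 31299388647], nat_lit 0, nat_lit 0, nat_lit 0, nat_lit 0, nat_lit 0, nat_lit 0, [], [nat_lit 35, nat_lit 40, nat_lit 40, nat_lit 80, nat_lit 22, nat_lit 203, nat_lit 0, nat_lit 6]⟩, ⟨p128_k25, nat_lit 0, nat_lit 0, nat_lit 687, nat_lit 0, nat_lit 1335013, [nat_lit 2032000000, nat_lit 4688000000, nat_lit 7968000000], [], [nat_lit 34640112466, nat_lit 34882616867, nat_lit 37252073468, nat_lit 38020052974, nat_lit 31804247349,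 nat_lit 32006373532, nat_lit 33365836519, nat_lit 33561002398], nat_lit 1271250, nat_lit 1271250, nat_lit 1271250, nat_lit 1271250, nat_lit 88400, nat_lit 1100001, [nat_lit 490000, nat_lit 1100000, nat_lit 1785000], [nat_lit 34, nat_lit 40, nat_lit 40, nat_lit 80, nat_lit 7, nat_lit 281, nat_lit 40, nat_lit 8]⟩,
 zbF0, [⟨nat_lit 16, nat_lit 44, nat_lit 100, nat_lit 92, nat_lit 1580465358⟩]⟩
noncomputable def p128_l93 : Lf2 := ⟨nat_lit 0, nat_lit 15, [nat_lit 30, nat_lit 5, nat_lit 5, nat_lit 20], false, nat_lit 160, nat_lit 208, nat_lit 160, nat_lit 300, ⟨nat_lit 676, nat_lit 324, nat_lit 0, nat_lit 8, nat_lit 342, nat_lit 324, nat_lit 145, nat_lit 0, nat_lit 0, nat_lit 0, nat_lit 0, nat_lit 0, nat_lit 34672046, nat_lit 25860392, nat_lit 6467562, nat_lit 4988788, true, true⟩,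
 nat_lit 0, nat_lit 0, nat_lit 5873, nat_lit 0, nat_lit 2556, nat_lit 4404, nat_lit 297, nat_lit 0, nat_lit 0, nat_lit 307, nat_lit 0, nat_lit 0, nat_lit 0, nat_lit 0, nat_lit 0, nat_lit 129600, nat_lit 0, nat_lit 0, [(nat_lit 28, [(nat_lit 1, nat_lit 324)])],
 ⟨p128_k24, nat_lit 0, nat_lit 0, nat_lit 91, nat_lit 0, nat_lit 0, [nat_lit 860110401, nat_lit 2323867201, nat_lit 3233110400], [], [nat_lit 26437744415, nat_lit 26911169139, nat_lit 28998452643, nat_lit 29412962980, nat_lit 27314437055, nat_lit 27757884032, nat_lit 29741031003, nat_lit 30165234503], nat_lit 0, nat_lit 0, nat_lit 0, nat_lit 0, nat_lit 0, nat_lit 0, [], [nat_lit 35, nat_lit 40, nat_lit 40, nat_lit 80, nat_lit 22, nat_lit 203, nat_lit 0, nat_lit 6]⟩, ⟨p128_k25, nat_lit 0, nat_lit 0, nat_lit 552, nat_lit 0, nat_lit 1217819, [nat_lit 1373632000, nat_lit 3169088000, nat_lit 5386368000], [], [nat_lit 21638082151, nat_lit 21803230831, nat_lit 22751787118,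 nat_lit 22888315221, nat_lit 22215234619, nat_lit 22336506155, nat_lit 23044953067, nat_lit 23154165749], nat_lit 1271250, nat_lit 1271250, nat_lit 1271250, nat_lit 1271250, nat_lit 1100001, nat_lit 2298750, [nat_lit 490000, nat_lit 1100000, nat_lit 1785000], [nat_lit 34, nat_lit 40, nat_lit 40, nat_lit 80, nat_lit 7, nat_lit 289, nat_lit 75, nat_lit 8]⟩,
 ⟨nat_lit 1581, nat_lit 2237, ⟨.ofNat (nat_lit 807675), .ofNat (nat_lit 898916), .ofNat (nat_lit 819040), .ofNat (nat_lit 910303), .ofNat (nat_lit 803781), .ofNat (nat_lit 891213), .ofNat (nat_lit 815415), .ofNat (nat_lit 902871)⟩, ⟨.ofNat (nat_lit 306337), .ofNat (nat_lit 374756), .ofNat (nat_lit 351886), .ofNat (nat_lit 420305), .ofNat (nat_lit 305473), .ofNat (nat_lit 371036), .ofNat (nat_lit 352103), .ofNat (nat_lit 417666)⟩⟩, [⟨nat_lit 4, nat_lit 100, nat_lit 38, nat_lit 87, nat_lit 700701011⟩, ⟨nat_lit 19, nat_lit 87, nat_lit 95, nat_lit 100, nat_lit 12581173⟩,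 ⟨nat_lit 7, nat_lit 100, nat_lit 84, nat_lit 93, nat_lit 187795135⟩]⟩
noncomputable def p128_l94 : Lf2 := ⟨nat_lit 0, nat_lit 15, [nat_lit 30, nat_lit 5, nat_lit 5, nat_lit 20], false, nat_lit 160, nat_lit 184, nat_lit 160, nat_lit 300, ⟨nat_lit 567, nat_lit 433, nat_lit 0, nat_lit 8, nat_lit 337, nat_lit 433, nat_lit 137, nat_lit 0, nat_lit 0, nat_lit 0, nat_lit 0, nat_lit 0, nat_lit 35415428, nat_lit 25559996, nat_lit 6024576, nat_lit 4912498, true, true⟩,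
 nat_lit 0, nat_lit 0, nat_lit 4986, nat_lit 0, nat_lit 2577, nat_lit 3739, nat_lit 195, nat_lit 0, nat_lit 0, nat_lit 259, nat_lit 0, nat_lit 0, nat_lit 0, nat_lit 0, nat_lit 0, nat_lit 108250, nat_lit 0, nat_lit 0, [(nat_lit 28, [(nat_lit 0, nat_lit 433)])],
 ⟨p128_k26, nat_lit 0, nat_lit 0, nat_lit 75, nat_lit 0, nat_lit 0, [nat_lit 870278800, nat_lit 2313812000], [], [nat_lit 26835422889, nat_lit 27322614184, nat_lit 28907324298, nat_lit 29373690823, nat_lit 27276122335, nat_lit 27747780456, nat_lit 29298811677, nat_lit 29750649296], nat_lit 0, nat_lit 0, nat_lit 0, nat_lit 0, nat_lit 0, nat_lit 0, [], [nat_lit 66, nat_lit 40, nat_lit 40, nat_lit 80, nat_lit 67, nat_lit 203, nat_lit 0, nat_lit 8]⟩, ⟨p128_k25, nat_lit 0, nat_lit 0, nat_lit 614, nat_lit 0, nat_lit 1335013, [nat_lit 1152144000, nat_lit 2658096000, nat_lit 4517856000], [], [nat_lit 17900978571, nat_lit 18039849809, nat_lit 18647176039, nat_lit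 18766390257, nat_lit 18374800982, nat_lit 18476519564, nat_lit 18926458958, nat_lit 19028311341], nat_lit 1271250, nat_lit 1271250, nat_lit 1271250, nat_lit 1271250, nat_lit 1100001, nat_lit 2298750, [nat_lit 490000, nat_lit 1100000, nat_lit 1785000], [nat_lit 34, nat_lit 40, nat_lit 40, nat_lit 80, nat_lit 7, nat_lit 289, nat_lit 75, nat_lit 8]⟩,
 ⟨nat_lit 0, nat_lit 1582, ⟨.ofNat (nat_lit 803773), .ofNat (nat_lit 874821), .ofNat (nat_lit 815118), .ofNat (nat_lit 886479), .ofNat (nat_lit 799976), .ofNat (nat_lit 864997), .ofNat (nat_lit 812163), .ofNat (nat_lit 877498)⟩, ⟨.ofNat (nat_lit 305469), .ofNat (nat_lit 338250), .ofNat (nat_lit 352101), .ofNat (nat_lit 384882), .ofNat (nat_lit 299995), .ofNat (nat_lit 329995), .ofNat (nat_lit 349997), .ofNat (nat_lit 379997)⟩⟩, [⟨nat_lit 13, nat_lit 41, nat_lit 68, nat_lit 100, nat_lit 63994711⟩, ⟨nat_lit 16, nat_lit 31, nat_lit 100, nat_lit 92, nat_lit 570164820⟩, ⟨nat_lit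 4, nat_lit 100, nat_lit 23, nat_lit 91, nat_lit 241334305⟩, ⟨nat_lit 7, nat_lit 100, nat_lit 84, nat_lit 93, nat_lit 170825405⟩]⟩
noncomputable def p128_l95 : Lf2 := ⟨nat_lit 0, nat_lit 20, [nat_lit 5, nat_lit 5, nat_lit 5, nat_lit 20], false, nat_lit 160, nat_lit 208, nat_lit 16, nat_lit 300, ⟨nat_lit 783, nat_lit 217, nat_lit 0, nat_lit 8, nat_lit 341, nat_lit 217, nat_lit 144, nat_lit 0, nat_lit 0, nat_lit 0, nat_lit 0, nat_lit 0, nat_lit 34833645, nat_lit 25766712, nat_lit 6399643, nat_lit 4976253, true, true⟩,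
 nat_lit 0, nat_lit 0, nat_lit 6801, nat_lit 0, nat_lit 2710, nat_lit 5100, nat_lit 416, nat_lit 0, nat_lit 0, nat_lit 419, nat_lit 0, nat_lit 0, nat_lit 0, nat_lit 0, nat_lit 0, nat_lit 86800, nat_lit 0, nat_lit 0, [(nat_lit 28, [(nat_lit 1, nat_lit 217)])],
 ⟨p128_k20, nat_lit 0, nat_lit 0, nat_lit 106, nat_lit 0, nat_lit 0, [nat_lit 885833201, nat_lit 2640287601, nat_lit 4923696000], [], [nat_lit 26352395224, nat_lit 27397913564, nat_lit 29165054209, nat_lit 30133919513, nat_lit 27300944561, nat_lit 28278030404, nat_lit 29934619263, nat_lit 30806105541], nat_lit 0, nat_lit 0, nat_lit 0, nat_lit 0, nat_lit 0, nat_lit 0, [], [nat_lit 20, nat_lit 40, nat_lit 40, nat_lit 80, nat_lit 16, nat_lit 272, nat_lit 60, nat_lit 8]⟩, ⟨p128_k16, nat_lit 0, nat_lit 0, nat_lit 667, nat_lit 0, nat_lit 1146307, [nat_lit 1591056000, nat_lit 3670704000, nat_lit 7706286000], [], [nat_lit 27349327931, nat_lit 27557402797, nat_lit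 28750952907, nat_lit 29312468249, nat_lit 25623451046, nat_lit 25750355773, nat_lit 26678095596, nat_lit 26817895136], nat_lit 1271250, nat_lit 1271250, nat_lit 1271250, nat_lit 1271250, nat_lit 88400, nat_lit 2136750, [nat_lit 490000, nat_lit 1100000, nat_lit 2127500], [nat_lit 27, nat_lit 40, nat_lit 40, nat_lit 80, nat_lit 13, nat_lit 294, nat_lit 75, nat_lit 8]⟩,
 ⟨nat_lit 0, nat_lit 2237, ⟨.ofNat (nat_lit 807594), .ofNat (nat_lit 898913), .ofNat (nat_lit 818584), .ofNat (nat_lit 910301), .ofNat (nat_lit 799902), .ofNat (nat_lit 879996), .ofNat (nat_lit 812004), .ofNat (nat_lit 892497)⟩, ⟨.ofNat (nat_lit 306334), .ofNat (nat_lit 374750), .ofNat (nat_lit 351885), .ofNat (nat_lit 420300), .ofNat (nat_lit 299996), .ofNat (nat_lit 359993), .ofNat (nat_lit 349998), .ofNat (nat_lit 409994)⟩⟩, [⟨nat_lit 16, nat_lit 32, nat_lit 100, nat_lit 88, nat_lit 1255352362⟩, ⟨nat_lit 19, nat_lit 84, nat_lit 100, nat_lit 93,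 nat_lit 128788348⟩]⟩
noncomputable def p128_l96 : Lf2 := ⟨nat_lit 0, nat_lit 20, [nat_lit 5, nat_lit 5, nat_lit 5, nat_lit 20], false, nat_lit 160, nat_lit 208, nat_lit 16, nat_lit 288, ⟨nat_lit 1000, nat_lit 0, nat_lit 0, nat_lit 0, nat_lit 0, nat_lit 0, nat_lit 0, nat_lit 0, nat_lit 0, nat_lit 0, nat_lit 0, nat_lit 0, nat_lit 0, nat_lit 0, nat_lit 0, nat_lit 0, false, false⟩,
 nat_lit 0, nat_lit 0, nat_lit 7041, nat_lit 0, nat_lit 2770, nat_lit 5488, nat_lit 514, nat_lit 0, nat_lit 0, nat_lit 1116, nat_lit 0, nat_lit 0, nat_lit 0, nat_lit 0, nat_lit 0, nat_lit 0, nat_lit 0, nat_lit 0, [],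
 ⟨p128_k20, nat_lit 0, nat_lit 0, nat_lit 108, nat_lit 0, nat_lit 0, [nat_lit 938000000, nat_lit 3282000000, nat_lit 6250000000], [], [nat_lit 26581037350, nat_lit 27563546120, nat_lit 29710949944, nat_lit 30605402840, nat_lit 27477000642, nat_lit 28439729600, nat_lit 30451992895, nat_lit 31291069329], nat_lit 0, nat_lit 0, nat_lit 0, nat_lit 0, nat_lit 0, nat_lit 0, [], [nat_lit 20, nat_lit 40, nat_lit 40, nat_lit 80, nat_lit 16, nat_lit 272, nat_lit 60, nat_lit 8]⟩, ⟨p128_k18, nat_lit 0, nat_lit 0, nat_lit 751, nat_lit 0, nat_lit 1342968, [nat_lit 2032000000, nat_lit 4688000000, nat_lit 9842000000], [], [nat_lit 32316759787, nat_lit 32549663864, nat_lit 35598449554, nat_lit 36263409153, nat_lit 31302395568, nat_lit 31456245409, nat_lit 33215883634, nat_lit 33669194381], nat_lit 1271250, nat_lit 1271250, nat_lit 1271250, nat_lit 1271250, nat_lit 88400, nat_lit 2050200, [nat_lit 490000, nat_lit 1100000, nat_lit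 2127500], [nat_lit 27, nat_lit 40, nat_lit 40, nat_lit 80, nat_lit 13, nat_lit 316, nat_lit 75, nat_lit 8]⟩,
 zbF0, [⟨nat_lit 4, nat_lit 100, nat_lit 32, nat_lit 88, nat_lit 1200512453⟩, ⟨nat_lit 19, nat_lit 77, nat_lit 100, nat_lit 91, nat_lit 191098291⟩]⟩
noncomputable def b_V_900_800_20_6 : St := ⟨true, nat_lit 0, nat_lit 1, nat_lit 1, nat_lit 120, nat_lit 360, nat_lit 400, nat_lit 320, nat_lit 340, nat_lit 200, nat_lit 400, nat_lit 80, nat_lit 120, nat_lit 160, nat_lit 248, nat_lit 0, nat_lit 300, nat_lit 40, nat_lit 80, nat_lit 0, nat_lit 0, nat_lit 0, nat_lit 0⟩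
theorem d_V_900_800_20_6 (h : EB TB.env) : Dead b_V_900_800_20_6 := chkB_sound0 h (T :=
(.spl (nat_lit 2) (nat_lit 320)
(.spl (nat_lit 1) (nat_lit 330)
(.spl (nat_lit 0) (nat_lit 380)
(.spl (nat_lit 0) (nat_lit 370)
(.leaf p128_l82)
(.trZ (nat_lit 0) (nat_lit 80) (nat_lit 53) (nat_lit 100) (nat_lit 216) (.trX (nat_lit 16) (nat_lit 53) (nat_lit 100) (nat_lit 93) (nat_lit 232) (.leaf p128_l83))))
(.trZ (nat_lit 0) (nat_lit 82) (nat_lit 44) (nat_lit 100) (nat_lit 236) (.trX (nat_lit 16) (nat_lit 44) (nat_lit 100) (nat_lit 92) (nat_lit 208) (.leaf p128_l84))))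
(.trZ (nat_lit 0) (nat_lit 76) (nat_lit 60) (nat_lit 100) (nat_lit 212) (.trX (nat_lit 19) (nat_lit 83) (nat_lit 98) (nat_lit 100) (nat_lit 288) (.spl (nat_lit 0) (nat_lit 380)
(.leaf p128_l85)
(.trZ (nat_lit 0) (nat_lit 79) (nat_lit 45) (nat_lit 100) (nat_lit 248) (.trX (nat_lit 16) (nat_lit 44) (nat_lit 100) (nat_lit 92) (nat_lit 208) (.leaf p128_l86)))))))
(.trZ (nat_lit 9) (nat_lit 100) (nat_lit 82) (nat_lit 44) (nat_lit 16) (.spl (nat_lit 0) (nat_lit 380)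
(.spl (nat_lit 0) (nat_lit 370)
(.spl (nat_lit 5) (nat_lit 160)
(.leaf p128_l87)
(.leaf p128_l88))
(.trX (nat_lit 13) (nat_lit 74) (nat_lit 33) (nat_lit 100) (nat_lit 396) (.trX (nat_lit 16) (nat_lit 53) (nat_lit 100) (nat_lit 93) (nat_lit 232) (.spl (nat_lit 1) (nat_lit 330)
(.trX (nat_lit 13) (nat_lit 69) (nat_lit 40) (nat_lit 100) (nat_lit 392) (.spl (nat_lit 5) (nat_lit 160)
(.leaf p128_l89)
(.leaf p128_l90)))
(.trX (nat_lit 19) (nat_lit 83) (nat_lit 98) (nat_lit 100) (nat_lit 288) (.leaf p128_l91))))))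
(.trX (nat_lit 13) (nat_lit 61) (nat_lit 47) (nat_lit 100) (nat_lit 392) (.trX (nat_lit 16) (nat_lit 44) (nat_lit 100) (nat_lit 92) (nat_lit 208) (.spl (nat_lit 1) (nat_lit 330)
(.trX (nat_lit 13) (nat_lit 57) (nat_lit 53) (nat_lit 100) (nat_lit 384) (.spl (nat_lit 6) (nat_lit 60)
(.spl (nat_lit 5) (nat_lit 160)
(.leaf p128_l92)
(.spl (nat_lit 0) (nat_lit 390)
(.leaf p128_l93)
(.trX (nat_lit 13) (nat_lit 41) (nat_lit 68) (nat_lit 100) (nat_lit 372) (.trX (nat_lit 16) (nat_lit 31) (nat_lit 100) (nat_lit 92) (nat_lit 184) (.leaf p128_l94)))))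
(.leaf p128_l95)))
(.trX (nat_lit 19) (nat_lit 83) (nat_lit 98) (nat_lit 100) (nat_lit 288) (.leaf p128_l96))))))))) (by decide +kernel)
noncomputable def p128_l97 : Lf2 := ⟨nat_lit 0, nat_lit 20, [nat_lit 5, nat_lit 5, nat_lit 5, nat_lit 20], false, nat_lit 8, nat_lit 248, nat_lit 0, nat_lit 300, ⟨nat_lit 1000, nat_lit 0, nat_lit 0, nat_lit 0, nat_lit 0, nat_lit 0, nat_lit 0, nat_lit 0, nat_lit 0, nat_lit 0, nat_lit 0, nat_lit 0, nat_lit 0, nat_lit 0, nat_lit 0, nat_lit 0, false, false⟩,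
 nat_lit 0, nat_lit 0, nat_lit 0, nat_lit 0, nat_lit 6625, nat_lit 10679, nat_lit 0, nat_lit 0, nat_lit 0, nat_lit 0, nat_lit 0, nat_lit 0, nat_lit 0, nat_lit 0, nat_lit 0, nat_lit 0, nat_lit 0, nat_lit 0, [],
 ⟨p128_k27, nat_lit 0, nat_lit 0, nat_lit 196, nat_lit 0, nat_lit 0, [nat_lit 938000000, nat_lit 6250000000], [], [nat_lit 31329312450, nat_lit 34787119950, nat_lit 42060745250, nat_lit 45231690350, nat_lit 29324101350, nat_lit 31813822700, nat_lit 35694792001, nat_lit 37791888300], nat_lit 0, nat_lit 0, nat_lit 0, nat_lit 0, nat_lit 0, nat_lit 0, [], [nat_lit 88, nat_lit 40, nat_lit 40, nat_lit 80, nat_lit 89, nat_lit 289, nat_lit 75, nat_lit 10]⟩, ⟨p128_k28, nat_lit 0, nat_lit 0, nat_lit 225, nat_lit 0, nat_lit 0, [nat_lit 2032000000, nat_lit 9842000000], [], [nat_lit 38419343344, nat_lit 39910922876, nat_lit 51151164324, nat_lit 53061154296, nat_lit 31642002834, nat_lit 32504571314, nat_lit 39701509022,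 nat_lit 40859720880], nat_lit 0, nat_lit 0, nat_lit 0, nat_lit 0, nat_lit 0, nat_lit 0, [], [nat_lit 94, nat_lit 40, nat_lit 40, nat_lit 80, nat_lit 95, nat_lit 401, nat_lit 175, nat_lit 11]⟩,
 zbF0, [⟨nat_lit 16, nat_lit 44, nat_lit 100, nat_lit 87, nat_lit 38931465⟩]⟩
noncomputable def p128_l98 : Lf2 := ⟨nat_lit 0, nat_lit 20, [nat_lit 5, nat_lit 5, nat_lit 5, nat_lit 20], false, nat_lit 8, nat_lit 160, nat_lit 0, nat_lit 300, ⟨nat_lit 197, nat_lit 803, nat_lit 0, nat_lit 8, nat_lit 315, nat_lit 803, nat_lit 69, nat_lit 0, nat_lit 0, nat_lit 0, nat_lit 0, nat_lit 0, nat_lit 0, nat_lit 0, nat_lit 0, nat_lit 5000000, true, false⟩,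
 nat_lit 0, nat_lit 0, nat_lit 1780, nat_lit 0, nat_lit 3020, nat_lit 1334, nat_lit 74, nat_lit 0, nat_lit 0, nat_lit 69, nat_lit 0, nat_lit 0, nat_lit 0, nat_lit 0, nat_lit 0, nat_lit 342800, nat_lit 0, nat_lit 0, [(nat_lit 25, [(nat_lit 1, nat_lit 767), (nat_lit 2, nat_lit 36)]), (nat_lit 28, [(nat_lit 1, nat_lit 767), (nat_lit 2, nat_lit 36)])],
 ⟨p128_k15, nat_lit 0, nat_lit 0, nat_lit 195, nat_lit 0, nat_lit 0, [nat_lit 885610000, nat_lit 1401476667, nat_lit 1792851600], [], [nat_lit 24100393012, nat_lit 26330542692, nat_lit 31507985928, nat_lit 33670745192, nat_lit 24020104020, nat_lit 25950321540, nat_lit 30098958180, nat_lit 31441370317], nat_lit 0, nat_lit 0, nat_lit 0, nat_lit 0, nat_lit 0, nat_lit 0, [], [nat_lit 20, nat_lit 40, nat_lit 40, nat_lit 80, nat_lit 16, nat_lit 249, nat_lit 40, nat_lit 9]⟩, ⟨p128_k16, nat_lit 0, nat_lit 0, nat_lit 840, nat_lit 0, nat_lit 1418377, [nat_lit 400304000, nat_lit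 923536000, nat_lit 1938874000], [], [nat_lit 7331738525, nat_lit 7427631361, nat_lit 8008963485, nat_lit 8208400014, nat_lit 6837929749, nat_lit 6894284999, nat_lit 7099258000, nat_lit 7141834323], nat_lit 1271250, nat_lit 1271250, nat_lit 1271250, nat_lit 1271250, nat_lit 0, nat_lit 2118750, [nat_lit 490000, nat_lit 1100000, nat_lit 2127500], [nat_lit 27, nat_lit 40, nat_lit 40, nat_lit 80, nat_lit 13, nat_lit 401, nat_lit 175, nat_lit 11]⟩,
 ⟨nat_lit 0, nat_lit 3163, ⟨.ofNat (nat_lit 625100), .ofNat (nat_lit 937693), .ofNat (nat_lit 645949), .ofNat (nat_lit 959849), .ofNat (nat_lit 642170), .ofNat (nat_lit 899997), .ofNat (nat_lit 665865), .ofNat (nat_lit 924998)⟩, ⟨.ofNat (nat_lit 20000), .ofNat (nat_lit 306113), .ofNat (nat_lit 20000), .ofNat (nat_lit 350425), .ofNat (nat_lit 20000), .ofNat (nat_lit 299996), .ofNat (nat_lit 20000), .ofNat (nat_lit 349998)⟩⟩, [⟨nat_lit 13, nat_lit 57, nat_lit 53, nat_lit 100,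 nat_lit 167541762⟩, ⟨nat_lit 10, nat_lit 100, nat_lit 37, nat_lit 84, nat_lit 57905860⟩]⟩
noncomputable def p128_l99 : Lf2 := ⟨nat_lit 0, nat_lit 20, [nat_lit 5, nat_lit 5, nat_lit 5, nat_lit 20], false, nat_lit 160, nat_lit 248, nat_lit 0, nat_lit 300, ⟨nat_lit 444, nat_lit 556, nat_lit 0, nat_lit 8, nat_lit 314, nat_lit 556, nat_lit 157, nat_lit 0, nat_lit 0, nat_lit 0, nat_lit 0, nat_lit 0, nat_lit 0, nat_lit 0, nat_lit 0, nat_lit 5000000, true, false⟩,
 nat_lit 0, nat_lit 0, nat_lit 3810, nat_lit 0, nat_lit 3083, nat_lit 2857, nat_lit 189, nat_lit 0, nat_lit 0, nat_lit 224, nat_lit 0, nat_lit 0, nat_lit 0, nat_lit 0, nat_lit 0, nat_lit 265600, nat_lit 0, nat_lit 0, [(nat_lit 25, [(nat_lit 1, nat_lit 484), (nat_lit 2, nat_lit 72)])],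
 ⟨p128_k15, nat_lit 0, nat_lit 0, nat_lit 104, nat_lit 0, nat_lit 0, [nat_lit 931080001, nat_lit 1914813334, nat_lit 2937243200], [], [nat_lit 22343586758, nat_lit 23543727322, nat_lit 29613360116, nat_lit 30436287270, nat_lit 24519756364, nat_lit 25564681308, nat_lit 30846136730, nat_lit 31605751051], nat_lit 0, nat_lit 0, nat_lit 0, nat_lit 0, nat_lit 0, nat_lit 0, [], [nat_lit 20, nat_lit 40, nat_lit 40, nat_lit 80, nat_lit 16, nat_lit 289, nat_lit 75, nat_lit 9]⟩, ⟨p128_k16, nat_lit 0, nat_lit 0, nat_lit 707, nat_lit 0, nat_lit 1122083, [nat_lit 902208000, nat_lit 2081472000, nat_lit 4369848000], [], [nat_lit 15076806636, nat_lit 15232693949, nat_lit 17256829665, nat_lit 17574844435, nat_lit 14405013587, nat_lit 14501559115, nat_lit 15458899582, nat_lit 15516419770], nat_lit 1271250, nat_lit 1271250, nat_lit 1271250, nat_lit 1271250, nat_lit 0, nat_lit 2118750, [nat_lit 490000, nat_lit 1100000, nat_lit 2127500],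 [nat_lit 27, nat_lit 40, nat_lit 40, nat_lit 80, nat_lit 13, nat_lit 401, nat_lit 175, nat_lit 11]⟩,
 ⟨nat_lit 2236, nat_lit 3163, ⟨.ofNat (nat_lit 632548), .ofNat (nat_lit 931599), .ofNat (nat_lit 643594), .ofNat (nat_lit 942677), .ofNat (nat_lit 636264), .ofNat (nat_lit 916020), .ofNat (nat_lit 647620), .ofNat (nat_lit 927408)⟩, ⟨.ofNat (nat_lit 306116), .ofNat (nat_lit 440213), .ofNat (nat_lit 350426), .ofNat (nat_lit 484523), .ofNat (nat_lit 306337), .ofNat (nat_lit 431772), .ofNat (nat_lit 351886), .ofNat (nat_lit 477320)⟩⟩, [⟨nat_lit 13, nat_lit 67, nat_lit 43, nat_lit 100, nat_lit 85715211⟩, ⟨nat_lit 4, nat_lit 100, nat_lit 53, nat_lit 87, nat_lit 465183409⟩, ⟨nat_lit 19, nat_lit 87, nat_lit 95, nat_lit 100, nat_lit 52593416⟩]⟩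
noncomputable def p128_l100 : Lf2 := ⟨nat_lit 0, nat_lit 20, [nat_lit 5, nat_lit 5, nat_lit 5, nat_lit 20], false, nat_lit 160, nat_lit 248, nat_lit 0, nat_lit 288, ⟨nat_lit 627, nat_lit 373, nat_lit 0, nat_lit 8, nat_lit 323, nat_lit 373, nat_lit 157, nat_lit 0, nat_lit 0, nat_lit 0, nat_lit 0, nat_lit 0, nat_lit 0, nat_lit 0, nat_lit 0, nat_lit 5000000, true, false⟩,
 nat_lit 0, nat_lit 0, nat_lit 4476, nat_lit 0, nat_lit 3285, nat_lit 3488, nat_lit 212, nat_lit 0, nat_lit 0, nat_lit 472, nat_lit 0, nat_lit 0, nat_lit 0, nat_lit 0, nat_lit 0, nat_lit 266200, nat_lit 0, nat_lit 0, [(nat_lit 25, [(nat_lit 1, nat_lit 178), (nat_lit 2, nat_lit 195)])],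
 ⟨p128_k15, nat_lit 0, nat_lit 0, nat_lit 105, nat_lit 0, nat_lit 0, [nat_lit 1024838401, nat_lit 2161911734, nat_lit 3321389600], [], [nat_lit 22753691123, nat_lit 23964942050, nat_lit 29992073440, nat_lit 30857291774, nat_lit 24880905622, nat_lit 25934010216, nat_lit 31293199853, nat_lit 32061026536], nat_lit 0, nat_lit 0, nat_lit 0, nat_lit 0, nat_lit 0, nat_lit 0, [], [nat_lit 20, nat_lit 40, nat_lit 40, nat_lit 80, nat_lit 16, nat_lit 289, nat_lit 75, nat_lit 9]⟩, ⟨p128_k18, nat_lit 0, nat_lit 0, nat_lit 705, nat_lit 0, nat_lit 1126843, [nat_lit 1274064000, nat_lit 2939376000, nat_lit 6170934000], [], [nat_lit 19714675712, nat_lit 19935958799, nat_lit 23506421557, nat_lit 23915517330, nat_lit 19576288829, nat_lit 19722465208, nat_lit 21362185624, nat_lit 21464628045], nat_lit 1271250, nat_lit 1271250, nat_lit 1271250, nat_lit 1271250, nat_lit 0, nat_lit 2034000, [nat_lit 490000, nat_lit 1100000, nat_lit 2127500],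 [nat_lit 27, nat_lit 40, nat_lit 40, nat_lit 80, nat_lit 13, nat_lit 401, nat_lit 175, nat_lit 11]⟩,
 ⟨nat_lit 2236, nat_lit 3163, ⟨.ofNat (nat_lit 661911), .ofNat (nat_lit 948772), .ofNat (nat_lit 672956), .ofNat (nat_lit 959850), .ofNat (nat_lit 664755), .ofNat (nat_lit 933109), .ofNat (nat_lit 676111), .ofNat (nat_lit 944496)⟩, ⟨.ofNat (nat_lit 306116), .ofNat (nat_lit 440213), .ofNat (nat_lit 350426), .ofNat (nat_lit 484523), .ofNat (nat_lit 306337), .ofNat (nat_lit 431772), .ofNat (nat_lit 351886), .ofNat (nat_lit 477320)⟩⟩, [⟨nat_lit 4, nat_lit 100, nat_lit 53, nat_lit 87, nat_lit 512202409⟩, ⟨nat_lit 19, nat_lit 83, nat_lit 98, nat_lit 100, nat_lit 83068982⟩]⟩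
noncomputable def p128_l101 : Lf2 := ⟨nat_lit 0, nat_lit 20, [nat_lit 5, nat_lit 5, nat_lit 5, nat_lit 20], false, nat_lit 160, nat_lit 208, nat_lit 0, nat_lit 300, ⟨nat_lit 283, nat_lit 717, nat_lit 0, nat_lit 8, nat_lit 322, nat_lit 717, nat_lit 144, nat_lit 0, nat_lit 0, nat_lit 0, nat_lit 0, nat_lit 0, nat_lit 0, nat_lit 0, nat_lit 0, nat_lit 5000000, true, false⟩,
 nat_lit 0, nat_lit 0, nat_lit 2565, nat_lit 0, nat_lit 2471, nat_lit 1923, nat_lit 132, nat_lit 0, nat_lit 0, nat_lit 108, nat_lit 0, nat_lit 0, nat_lit 0, nat_lit 0, nat_lit 0, nat_lit 286800, nat_lit 0, nat_lit 0, [(nat_lit 28, [(nat_lit 1, nat_lit 717)])],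
 ⟨p128_k20, nat_lit 0, nat_lit 0, nat_lit 108, nat_lit 0, nat_lit 0, [nat_lit 765633200, nat_lit 1161687600, nat_lit 1867696000], [], [nat_lit 23863017703, nat_lit 24895673354, nat_lit 29256030463, nat_lit 30111745522, nat_lit 24871162742, nat_lit 25836427936, nat_lit 29932230106, nat_lit 30793413172], nat_lit 0, nat_lit 0, nat_lit 0, nat_lit 0, nat_lit 0, nat_lit 0, [], [nat_lit 20, nat_lit 40, nat_lit 40, nat_lit 80, nat_lit 16, nat_lit 272, nat_lit 60, nat_lit 8]⟩, ⟨p128_k16, nat_lit 0, nat_lit 0, nat_lit 822, nat_lit 0, nat_lit 1418377, [nat_lit 575056000, nat_lit 1326704000, nat_lit 2785286000], [], [nat_lit 10464825314, nat_lit 10592736506, nat_lit 11261996035, nat_lit 11585354447, nat_lit 9683737133, nat_lit 9757809884, nat_lit 10032034485, nat_lit 10073461688], nat_lit 1271250, nat_lit 1271250, nat_lit 1271250, nat_lit 1271250, nat_lit 0, nat_lit 2118750, [nat_lit 490000, nat_lit 1100000, nat_lit 2127500],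 [nat_lit 27, nat_lit 40, nat_lit 40, nat_lit 80, nat_lit 13, nat_lit 401, nat_lit 175, nat_lit 11]⟩,
 ⟨nat_lit 0, nat_lit 2237, ⟨.ofNat (nat_lit 684059), .ofNat (nat_lit 910316), .ofNat (nat_lit 705906), .ofNat (nat_lit 933091), .ofNat (nat_lit 691099), .ofNat (nat_lit 889996), .ofNat (nat_lit 715172), .ofNat (nat_lit 914997)⟩, ⟨.ofNat (nat_lit 306334), .ofNat (nat_lit 374750), .ofNat (nat_lit 351885), .ofNat (nat_lit 420300), .ofNat (nat_lit 299996), .ofNat (nat_lit 359993), .ofNat (nat_lit 349998), .ofNat (nat_lit 409994)⟩⟩, [⟨nat_lit 13, nat_lit 61, nat_lit 47, nat_lit 100, nat_lit 223129033⟩, ⟨nat_lit 16, nat_lit 44, nat_lit 100, nat_lit 92, nat_lit 480547322⟩, ⟨nat_lit 7, nat_lit 100, nat_lit 81, nat_lit 92, nat_lit 34616087⟩]⟩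
noncomputable def b_V_900_800_20_7 : St := ⟨true, nat_lit 0, nat_lit 2, nat_lit 2, nat_lit 120, nat_lit 360, nat_lit 400, nat_lit 320, nat_lit 340, nat_lit 200, nat_lit 400, nat_lit 80, nat_lit 120, nat_lit 8, nat_lit 248, nat_lit 0, nat_lit 300, nat_lit 40, nat_lit 80, nat_lit 0, nat_lit 0, nat_lit 0, nat_lit 0⟩
theorem d_V_900_800_20_7 (h : EB TB.env) : Dead b_V_900_800_20_7 := chkB_sound0 h (T :=
(.st (nat_lit 1)
(.leaf p128_l97)
(.spl (nat_lit 4) (nat_lit 160)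
(.leaf p128_l98)
(.spl (nat_lit 0) (nat_lit 380)
(.spl (nat_lit 1) (nat_lit 330)
(.trX (nat_lit 13) (nat_lit 79) (nat_lit 29) (nat_lit 100) (nat_lit 396) (.leaf p128_l99))
(.trZ (nat_lit 0) (nat_lit 76) (nat_lit 60) (nat_lit 100) (nat_lit 212) (.trX (nat_lit 19) (nat_lit 83) (nat_lit 98) (nat_lit 100) (nat_lit 288) (.leaf p128_l100))))
(.trZ (nat_lit 0) (nat_lit 82) (nat_lit 44) (nat_lit 100) (nat_lit 236) (.trX (nat_lit 13) (nat_lit 61) (nat_lit 47) (nat_lit 100) (nat_lit 392) (.trX (nat_lit 16) (nat_lit 44) (nat_lit 100) (nat_lit 92) (nat_lit 208) (.leaf p128_l101)))))))) (by decide +kernel)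
noncomputable def p128_l102 : Lf2 := ⟨nat_lit 0, nat_lit 20, [nat_lit 5, nat_lit 5, nat_lit 5, nat_lit 20], false, nat_lit 8, nat_lit 248, nat_lit 0, nat_lit 300, ⟨nat_lit 1000, nat_lit 0, nat_lit 0, nat_lit 0, nat_lit 0, nat_lit 0, nat_lit 0, nat_lit 0, nat_lit 0, nat_lit 0, nat_lit 0, nat_lit 0, nat_lit 0, nat_lit 0, nat_lit 0, nat_lit 0, false, false⟩,
 nat_lit 0, nat_lit 5904, nat_lit 0, nat_lit 0, nat_lit 5141, nat_lit 6539, nat_lit 410, nat_lit 0, nat_lit 0, nat_lit 734, nat_lit 0, nat_lit 0, nat_lit 0, nat_lit 0, nat_lit 0, nat_lit 0, nat_lit 0, nat_lit 0, [],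
 ⟨p128_k15, nat_lit 0, nat_lit 0, nat_lit 452, nat_lit 0, nat_lit 848145, [nat_lit 938000000, nat_lit 3282000000, nat_lit 6250000000], [], [nat_lit 30164309426, nat_lit 30638414326, nat_lit 37716696753, nat_lit 38405677981, nat_lit 29788129689, nat_lit 30139629938, nat_lit 34550172680, nat_lit 34842565185], nat_lit 1271250, nat_lit 1271250, nat_lit 1271250, nat_lit 1271250, nat_lit 43600, nat_lit 1756600, [nat_lit 230000, nat_lit 780000, nat_lit 1435000], [nat_lit 20, nat_lit 40, nat_lit 40, nat_lit 80, nat_lit 16, nat_lit 289, nat_lit 75, nat_lit 10]⟩, ⟨p128_k16, nat_lit 0, nat_lit 0, nat_lit 212, nat_lit 0, nat_lit 0, [nat_lit 2032000000, nat_lit 4688000000, nat_lit 9842000000], [], [nat_lit 25804034042, nat_lit 27404002746, nat_lit 39568454484, nat_lit 40988814936, nat_lit 25457251277, nat_lit 26362069123, nat_lit 34856806502, nat_lit 35772652410], nat_lit 0, nat_lit 0, nat_lit 0, nat_lit 0, nat_lit 0, nat_lit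 0, [], [nat_lit 27, nat_lit 40, nat_lit 40, nat_lit 80, nat_lit 13, nat_lit 401, nat_lit 175, nat_lit 11]⟩,
 zbF0, [⟨nat_lit 4, nat_lit 100, nat_lit 57, nat_lit 87, nat_lit 267018686⟩, ⟨nat_lit 7, nat_lit 100, nat_lit 81, nat_lit 92, nat_lit 125700532⟩]⟩
noncomputable def p128_l103 : Lf2 := ⟨nat_lit 0, nat_lit 20, [nat_lit 5, nat_lit 5, nat_lit 5, nat_lit 20], false, nat_lit 12, nat_lit 232, nat_lit 0, nat_lit 300, ⟨nat_lit 1000, nat_lit 0, nat_lit 0, nat_lit 0, nat_lit 0, nat_lit 0, nat_lit 0, nat_lit 0, nat_lit 0, nat_lit 0, nat_lit 0, nat_lit 0, nat_lit 0, nat_lit 0, nat_lit 0, nat_lit 0, false, false⟩,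
 nat_lit 0, nat_lit 4419, nat_lit 0, nat_lit 0, nat_lit 3987, nat_lit 10867, nat_lit 746, nat_lit 0, nat_lit 0, nat_lit 0, nat_lit 0, nat_lit 0, nat_lit 0, nat_lit 0, nat_lit 0, nat_lit 0, nat_lit 0, nat_lit 0, [],
 ⟨p128_k29, nat_lit 0, nat_lit 0, nat_lit 467, nat_lit 0, nat_lit 877740, [nat_lit 938000000, nat_lit 6250000000], [], [nat_lit 28563576965, nat_lit 29032561244, nat_lit 34598975229, nat_lit 35130506589, nat_lit 29452298376, nat_lit 29816809867, nat_lit 33554073988, nat_lit 33817395153], nat_lit 1271250, nat_lit 1271250, nat_lit 1271250, nat_lit 1271250, nat_lit 65850, nat_lit 1644350, [nat_lit 230000, nat_lit 1420000], [nat_lit 88, nat_lit 40, nat_lit 40, nat_lit 80, nat_lit 89, nat_lit 272, nat_lit 60, nat_lit 9]⟩, ⟨p128_k28, nat_lit 0, nat_lit 0, nat_lit 223, nat_lit 0, nat_lit 0, [nat_lit 2032000000, nat_lit 9842000000], [], [nat_lit 38580487949, nat_lit 40033756500, nat_lit 51086938837, nat_lit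 53057741614, nat_lit 31317050433, nat_lit 32152281257, nat_lit 39557622468, nat_lit 40749282911], nat_lit 0, nat_lit 0, nat_lit 0, nat_lit 0, nat_lit 0, nat_lit 0, [], [nat_lit 94, nat_lit 40, nat_lit 40, nat_lit 80, nat_lit 95, nat_lit 401, nat_lit 175, nat_lit 11]⟩,
 zbF0, [⟨nat_lit 4, nat_lit 100, nat_lit 48, nat_lit 87, nat_lit 328030461⟩]⟩
noncomputable def p128_l104 : Lf2 := ⟨nat_lit 0, nat_lit 20, [nat_lit 5, nat_lit 5, nat_lit 5, nat_lit 20], false, nat_lit 20, nat_lit 208, nat_lit 0, nat_lit 300, ⟨nat_lit 1000, nat_lit 0, nat_lit 0, nat_lit 0, nat_lit 0, nat_lit 0, nat_lit 0, nat_lit 0, nat_lit 0, nat_lit 0, nat_lit 0, nat_lit 0, nat_lit 0, nat_lit 0, nat_lit 0, nat_lit 0, false, false⟩,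
 nat_lit 0, nat_lit 3899, nat_lit 0, nat_lit 0, nat_lit 3643, nat_lit 10409, nat_lit 620, nat_lit 0, nat_lit 0, nat_lit 0, nat_lit 0, nat_lit 0, nat_lit 0, nat_lit 0, nat_lit 0, nat_lit 0, nat_lit 0, nat_lit 0, [],
 ⟨p128_k30, nat_lit 0, nat_lit 0, nat_lit 502, nat_lit 0, nat_lit 974985, [nat_lit 938000000, nat_lit 6250000000], [], [nat_lit 26954591932, nat_lit 27911681735, nat_lit 33563754211, nat_lit 34756063570, nat_lit 27996860761, nat_lit 28774246073, nat_lit 32053639682, nat_lit 32641560718], nat_lit 1271250, nat_lit 1271250, nat_lit 1271250, nat_lit 1271250, nat_lit 111251, nat_lit 1474250, [nat_lit 230000, nat_lit 1420000], [nat_lit 88, nat_lit 40, nat_lit 40, nat_lit 80, nat_lit 89, nat_lit 272, nat_lit 60, nat_lit 9]⟩, ⟨p128_k28, nat_lit 0, nat_lit 0, nat_lit 220, nat_lit 0, nat_lit 0, [nat_lit 2032000000, nat_lit 9842000000], [], [nat_lit 39305605910, nat_lit 40654614531, nat_lit 49252630984, nat_lit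 51204930908, nat_lit 32253824976, nat_lit 33031598885, nat_lit 38678436473, nat_lit 39864045499], nat_lit 0, nat_lit 0, nat_lit 0, nat_lit 0, nat_lit 0, nat_lit 0, [], [nat_lit 94, nat_lit 40, nat_lit 40, nat_lit 80, nat_lit 95, nat_lit 401, nat_lit 175, nat_lit 11]⟩,
 zbF0, [⟨nat_lit 0, nat_lit 82, nat_lit 34, nat_lit 100, nat_lit 75329832⟩, ⟨nat_lit 4, nat_lit 100, nat_lit 32, nat_lit 88, nat_lit 379392244⟩]⟩
noncomputable def p128_l105 : Lf2 := ⟨nat_lit 0, nat_lit 20, [nat_lit 5, nat_lit 5, nat_lit 5, nat_lit 20], false, nat_lit 8, nat_lit 248, nat_lit 0, nat_lit 300, ⟨nat_lit 1000, nat_lit 0, nat_lit 0, nat_lit 0, nat_lit 0, nat_lit 0, nat_lit 0, nat_lit 0, nat_lit 0, nat_lit 0, nat_lit 0, nat_lit 0, nat_lit 0, nat_lit 0, nat_lit 0, nat_lit 0, false, false⟩,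
 nat_lit 8084, nat_lit 0, nat_lit 0, nat_lit 0, nat_lit 5671, nat_lit 6062, nat_lit 388, nat_lit 0, nat_lit 0, nat_lit 525, nat_lit 0, nat_lit 0, nat_lit 0, nat_lit 0, nat_lit 0, nat_lit 0, nat_lit 0, nat_lit 0, [],
 ⟨p128_k15, nat_lit 0, nat_lit 0, nat_lit 386, nat_lit 0, nat_lit 627117, [nat_lit 938000000, nat_lit 3282000000, nat_lit 6250000000], [], [nat_lit 27344225025, nat_lit 31214418156, nat_lit 39268142645, nat_lit 42172289052, nat_lit 26579986810, nat_lit 28221016926, nat_lit 34213283054, nat_lit 36404476942], nat_lit 1271250, nat_lit 1271250, nat_lit 1271250, nat_lit 1271250, nat_lit 43600, nat_lit 1756600, [nat_lit 230000, nat_lit 780000, nat_lit 1435000], [nat_lit 20, nat_lit 40, nat_lit 40, nat_lit 80, nat_lit 16, nat_lit 289, nat_lit 75, nat_lit 10]⟩, ⟨p128_k16, nat_lit 0, nat_lit 0, nat_lit 529, nat_lit 0, nat_lit 755584, [nat_lit 2032000000, nat_lit 4688000000, nat_lit 9842000000], [], [nat_lit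 33318242705, nat_lit 34139713689, nat_lit 38641636049, nat_lit 39597871488, nat_lit 32651209107, nat_lit 33046142754, nat_lit 35645076935, nat_lit 35950895822], nat_lit 1271250, nat_lit 1271250, nat_lit 1271250, nat_lit 1271250, nat_lit 0, nat_lit 2118750, [nat_lit 490000, nat_lit 1100000, nat_lit 2127500], [nat_lit 27, nat_lit 40, nat_lit 40, nat_lit 80, nat_lit 13, nat_lit 401, nat_lit 175, nat_lit 11]⟩,
 zbF0, [⟨nat_lit 0, nat_lit 79, nat_lit 45, nat_lit 100, nat_lit 240803121⟩, ⟨nat_lit 4, nat_lit 100, nat_lit 44, nat_lit 87, nat_lit 191812089⟩, ⟨nat_lit 7, nat_lit 100, nat_lit 81, nat_lit 92, nat_lit 160645626⟩]⟩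
noncomputable def p128_l106 : Lf2 := ⟨nat_lit 0, nat_lit 20, [nat_lit 5, nat_lit 5, nat_lit 5, nat_lit 20], false, nat_lit 8, nat_lit 248, nat_lit 0, nat_lit 300, ⟨nat_lit 928, nat_lit 72, nat_lit 0, nat_lit 8, nat_lit 318, nat_lit 72, nat_lit 96, nat_lit 0, nat_lit 0, nat_lit 0, nat_lit 0, nat_lit 0, nat_lit 0, nat_lit 0, nat_lit 0, nat_lit 5000000, true, false⟩,
 nat_lit 0, nat_lit 5706, nat_lit 0, nat_lit 0, nat_lit 4969, nat_lit 6071, nat_lit 358, nat_lit 0, nat_lit 0, nat_lit 681, nat_lit 0, nat_lit 0, nat_lit 0, nat_lit 0, nat_lit 0, nat_lit 72000, nat_lit 0, nat_lit 0, [(nat_lit 25, [(nat_lit 2, nat_lit 72)])],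
 ⟨p128_k15, nat_lit 0, nat_lit 0, nat_lit 452, nat_lit 0, nat_lit 848145, [nat_lit 976188800, nat_lit 3018268800, nat_lit 5519286400], [], [nat_lit 29165347234, nat_lit 29631974038, nat_lit 37213208652, nat_lit 37890164362, nat_lit 28941060250, nat_lit 29295431748, nat_lit 33705029837, nat_lit 33994592753], nat_lit 1271250, nat_lit 1271250, nat_lit 1271250, nat_lit 1271250, nat_lit 43600, nat_lit 1756600, [nat_lit 230000, nat_lit 780000, nat_lit 1435000], [nat_lit 20, nat_lit 40, nat_lit 40, nat_lit 80, nat_lit 16, nat_lit 289, nat_lit 75, nat_lit 10]⟩, ⟨p128_k16, nat_lit 0, nat_lit 0, nat_lit 212, nat_lit 0, nat_lit 0, [nat_lit 1885696000, nat_lit 4350464000, nat_lit 9133376000], [], [nat_lit 23945435889, nat_lit 25433853697, nat_lit 36727381860, nat_lit 38045808456, nat_lit 23620902960, nat_lit 24462621263, nat_lit 32350402406, nat_lit 33200471796], nat_lit 0, nat_lit 0, nat_lit 0, nat_lit 0, nat_lit 0, nat_lit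 0, [], [nat_lit 27, nat_lit 40, nat_lit 40, nat_lit 80, nat_lit 13, nat_lit 401, nat_lit 175, nat_lit 11]⟩,
 ⟨nat_lit 2738, nat_lit 3163, ⟨.ofNat (nat_lit 632856), .ofNat (nat_lit 937695), .ofNat (nat_lit 654999), .ofNat (nat_lit 959850), .ofNat (nat_lit 634431), .ofNat (nat_lit 929809), .ofNat (nat_lit 656837), .ofNat (nat_lit 952227)⟩, ⟨.ofNat (nat_lit 20000), .ofNat (nat_lit 440213), .ofNat (nat_lit 20000), .ofNat (nat_lit 484523), .ofNat (nat_lit 20000), .ofNat (nat_lit 436368), .ofNat (nat_lit 20000), .ofNat (nat_lit 481203)⟩⟩, [⟨nat_lit 4, nat_lit 100, nat_lit 57, nat_lit 87, nat_lit 208396977⟩, ⟨nat_lit 19, nat_lit 81, nat_lit 100, nat_lit 92, nat_lit 116699914⟩]⟩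
noncomputable def p128_l107 : Lf2 := ⟨nat_lit 0, nat_lit 20, [nat_lit 5, nat_lit 5, nat_lit 5, nat_lit 20], false, nat_lit 12, nat_lit 232, nat_lit 0, nat_lit 300, ⟨nat_lit 1000, nat_lit 0, nat_lit 0, nat_lit 0, nat_lit 0, nat_lit 0, nat_lit 0, nat_lit 0, nat_lit 0, nat_lit 0, nat_lit 0, nat_lit 0, nat_lit 0, nat_lit 0, nat_lit 0, nat_lit 0, false, false⟩,
 nat_lit 0, nat_lit 4419, nat_lit 0, nat_lit 0, nat_lit 3987, nat_lit 10867, nat_lit 746, nat_lit 0, nat_lit 0, nat_lit 0, nat_lit 0, nat_lit 0, nat_lit 0, nat_lit 0, nat_lit 0, nat_lit 0, nat_lit 0, nat_lit 0, [],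
 ⟨p128_k29, nat_lit 0, nat_lit 0, nat_lit 467, nat_lit 0, nat_lit 877740, [nat_lit 938000000, nat_lit 6250000000], [], [nat_lit 28563576965, nat_lit 29032561244, nat_lit 34598975229, nat_lit 35130506589, nat_lit 29452298376, nat_lit 29816809867, nat_lit 33554073988, nat_lit 33817395153], nat_lit 1271250, nat_lit 1271250, nat_lit 1271250, nat_lit 1271250, nat_lit 65850, nat_lit 1644350, [nat_lit 230000, nat_lit 1420000], [nat_lit 88, nat_lit 40, nat_lit 40, nat_lit 80, nat_lit 89, nat_lit 272, nat_lit 60, nat_lit 9]⟩, ⟨p128_k28, nat_lit 0, nat_lit 0, nat_lit 223, nat_lit 0, nat_lit 0, [nat_lit 2032000000, nat_lit 9842000000], [], [nat_lit 38580487949, nat_lit 40033756500, nat_lit 51086938837, nat_lit 53057741614, nat_lit 31317050433, nat_lit 32152281257, nat_lit 39557622468, nat_lit 40749282911], nat_lit 0, nat_lit 0, nat_lit 0, nat_lit 0, nat_lit 0, nat_lit 0, [], [nat_lit 94, nat_lit 40, nat_lit 40, nat_lit 80,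 nat_lit 95, nat_lit 401, nat_lit 175, nat_lit 11]⟩,
 zbF0, [⟨nat_lit 4, nat_lit 100, nat_lit 48, nat_lit 87, nat_lit 328030461⟩]⟩
noncomputable def p128_l108 : Lf2 := ⟨nat_lit 0, nat_lit 20, [nat_lit 5, nat_lit 5, nat_lit 5, nat_lit 20], false, nat_lit 20, nat_lit 208, nat_lit 0, nat_lit 300, ⟨nat_lit 1000, nat_lit 0, nat_lit 0, nat_lit 0, nat_lit 0, nat_lit 0, nat_lit 0, nat_lit 0, nat_lit 0, nat_lit 0, nat_lit 0, nat_lit 0, nat_lit 0, nat_lit 0, nat_lit 0, nat_lit 0, false, false⟩,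
 nat_lit 0, nat_lit 3899, nat_lit 0, nat_lit 0, nat_lit 3643, nat_lit 10409, nat_lit 620, nat_lit 0, nat_lit 0, nat_lit 0, nat_lit 0, nat_lit 0, nat_lit 0, nat_lit 0, nat_lit 0, nat_lit 0, nat_lit 0, nat_lit 0, [],
 ⟨p128_k30, nat_lit 0, nat_lit 0, nat_lit 502, nat_lit 0, nat_lit 974985, [nat_lit 938000000, nat_lit 6250000000], [], [nat_lit 26954591932, nat_lit 27911681735, nat_lit 33563754211, nat_lit 34756063570, nat_lit 27996860761, nat_lit 28774246073, nat_lit 32053639682, nat_lit 32641560718], nat_lit 1271250, nat_lit 1271250, nat_lit 1271250, nat_lit 1271250, nat_lit 111251, nat_lit 1474250, [nat_lit 230000, nat_lit 1420000], [nat_lit 88, nat_lit 40, nat_lit 40, nat_lit 80, nat_lit 89, nat_lit 272, nat_lit 60, nat_lit 9]⟩, ⟨p128_k28, nat_lit 0, nat_lit 0, nat_lit 220, nat_lit 0, nat_lit 0, [nat_lit 2032000000, nat_lit 9842000000], [], [nat_lit 39305605910, nat_lit 40654614531, nat_lit 49252630984, nat_lit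 51204930908, nat_lit 32253824976, nat_lit 33031598885, nat_lit 38678436473, nat_lit 39864045499], nat_lit 0, nat_lit 0, nat_lit 0, nat_lit 0, nat_lit 0, nat_lit 0, [], [nat_lit 94, nat_lit 40, nat_lit 40, nat_lit 80, nat_lit 95, nat_lit 401, nat_lit 175, nat_lit 11]⟩,
 zbF0, [⟨nat_lit 0, nat_lit 82, nat_lit 34, nat_lit 100, nat_lit 75329832⟩, ⟨nat_lit 4, nat_lit 100, nat_lit 32, nat_lit 88, nat_lit 379392244⟩]⟩
noncomputable def p128_l109 : Lf2 := ⟨nat_lit 0, nat_lit 20, [nat_lit 5, nat_lit 5, nat_lit 5, nat_lit 20], false, nat_lit 8, nat_lit 248, nat_lit 0, nat_lit 300, ⟨nat_lit 665, nat_lit 335, nat_lit 0, nat_lit 8, nat_lit 315, nat_lit 335, nat_lit 94, nat_lit 0, nat_lit 0, nat_lit 0, nat_lit 0, nat_lit 0, nat_lit 0, nat_lit 0, nat_lit 0, nat_lit 5000000, true, false⟩,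
 nat_lit 5620, nat_lit 0, nat_lit 0, nat_lit 0, nat_lit 4707, nat_lit 4214, nat_lit 0, nat_lit 0, nat_lit 0, nat_lit 292, nat_lit 0, nat_lit 0, nat_lit 0, nat_lit 0, nat_lit 0, nat_lit 335000, nat_lit 0, nat_lit 0, [(nat_lit 25, [(nat_lit 2, nat_lit 335)]), (nat_lit 28, [(nat_lit 2, nat_lit 335)])],
 ⟨p128_k15, nat_lit 0, nat_lit 0, nat_lit 386, nat_lit 0, nat_lit 627117, [nat_lit 1115684001, nat_lit 2054917334, nat_lit 2850152000], [], [nat_lit 26399784745, nat_lit 28932491726, nat_lit 36446267475, nat_lit 39080818558, nat_lit 26585367910, nat_lit 28024203678, nat_lit 32990281318, nat_lit 35002522488], nat_lit 1271250, nat_lit 1271250, nat_lit 1271250, nat_lit 1271250, nat_lit 43600, nat_lit 1756600, [nat_lit 230000, nat_lit 780000, nat_lit 1435000], [nat_lit 20, nat_lit 40, nat_lit 40, nat_lit 80, nat_lit 16, nat_lit 289, nat_lit 75, nat_lit 10]⟩, ⟨p128_k16, nat_lit 0, nat_lit 0, nat_lit 529, nat_lit 0, nat_lit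 755584, [nat_lit 1351280000, nat_lit 3117520000, nat_lit 6544930000], [], [nat_lit 22069336100, nat_lit 22626129428, nat_lit 26119067800, nat_lit 26865546246, nat_lit 21974862434, nat_lit 21716236651, nat_lit 23424985290, nat_lit 23627016322], nat_lit 1271250, nat_lit 1271250, nat_lit 1271250, nat_lit 1271250, nat_lit 0, nat_lit 2118750, [nat_lit 490000, nat_lit 1100000, nat_lit 2127500], [nat_lit 27, nat_lit 40, nat_lit 40, nat_lit 80, nat_lit 13, nat_lit 401, nat_lit 175, nat_lit 11]⟩,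
 ⟨nat_lit 0, nat_lit 3163, ⟨.ofNat (nat_lit 625100), .ofNat (nat_lit 937693), .ofNat (nat_lit 645949), .ofNat (nat_lit 959849), .ofNat (nat_lit 642170), .ofNat (nat_lit 899997), .ofNat (nat_lit 665865), .ofNat (nat_lit 924998)⟩, ⟨.ofNat (nat_lit 20000), .ofNat (nat_lit 440207), .ofNat (nat_lit 20000), .ofNat (nat_lit 484518), .ofNat (nat_lit 20000), .ofNat (nat_lit 409993), .ofNat (nat_lit 20000), .ofNat (nat_lit 459993)⟩⟩, [⟨nat_lit 0, nat_lit 79, nat_lit 45, nat_lit 100, nat_lit 13077912⟩, ⟨nat_lit 4, nat_lit 100, nat_lit 44, nat_lit 87, nat_lit 123502841⟩, ⟨nat_lit 19, nat_lit 81, nat_lit 100, nat_lit 92, nat_lit 88694359⟩]⟩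
noncomputable def b_V_900_800_20_8 : St := ⟨true, nat_lit 1, nat_lit 2, nat_lit 0, nat_lit 120, nat_lit 360, nat_lit 400, nat_lit 320, nat_lit 340, nat_lit 200, nat_lit 400, nat_lit 80, nat_lit 120, nat_lit 8, nat_lit 248, nat_lit 0, nat_lit 300, nat_lit 40, nat_lit 80, nat_lit 0, nat_lit 0, nat_lit 0, nat_lit 0⟩
theorem d_V_900_800_20_8 (h : EB TB.env) : Dead b_V_900_800_20_8 := chkB_sound0 h (T :=
(.gv
(.st (nat_lit 1)
(.spl (nat_lit 0) (nat_lit 380)
(.spl (nat_lit 0) (nat_lit 370)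
(.leaf p128_l102)
(.trZ (nat_lit 0) (nat_lit 80) (nat_lit 53) (nat_lit 100) (nat_lit 216) (.trX (nat_lit 13) (nat_lit 74) (nat_lit 33) (nat_lit 100) (nat_lit 396) (.trZ (nat_lit 3) (nat_lit 100) (nat_lit 66) (nat_lit 45) (nat_lit 12) (.trX (nat_lit 16) (nat_lit 53) (nat_lit 100) (nat_lit 93) (nat_lit 232) (.leaf p128_l103))))))
(.trZ (nat_lit 0) (nat_lit 82) (nat_lit 44) (nat_lit 100) (nat_lit 236) (.trX (nat_lit 13) (nat_lit 61) (nat_lit 47) (nat_lit 100) (nat_lit 392) (.trZ (nat_lit 3) (nat_lit 100) (nat_lit 54) (nat_lit 57) (nat_lit 20) (.trX (nat_lit 16) (nat_lit 44) (nat_lit 100) (nat_lit 92) (nat_lit 208) (.leaf p128_l104))))))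
(.leaf p128_l105))
(.st (nat_lit 1)
(.spl (nat_lit 0) (nat_lit 380)
(.spl (nat_lit 0) (nat_lit 370)
(.leaf p128_l106)
(.trZ (nat_lit 0) (nat_lit 80) (nat_lit 53) (nat_lit 100) (nat_lit 216) (.trX (nat_lit 13) (nat_lit 74) (nat_lit 33) (nat_lit 100) (nat_lit 396) (.trZ (nat_lit 3) (nat_lit 100) (nat_lit 66) (nat_lit 45) (nat_lit 12) (.trX (nat_lit 16) (nat_lit 53) (nat_lit 100) (nat_lit 93) (nat_lit 232) (.leaf p128_l107))))))
(.trZ (nat_lit 0) (nat_lit 82) (nat_lit 44) (nat_lit 100) (nat_lit 236) (.trX (nat_lit 13) (nat_lit 61) (nat_lit 47) (nat_lit 100) (nat_lit 392) (.trZ (nat_lit 3) (nat_lit 100) (nat_lit 54) (nat_lit 57) (nat_lit 20) (.trX (nat_lit 16) (nat_lit 44) (nat_lit 100) (nat_lit 92) (nat_lit 208) (.leaf p128_l108))))))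
(.leaf p128_l109)))) (by decide +kernel)
noncomputable def p128_l110 : Lf2 := ⟨nat_lit 0, nat_lit 30, [nat_lit 15, nat_lit 5, nat_lit 5, nat_lit 20], false, nat_lit 8, nat_lit 248, nat_lit 0, nat_lit 300, ⟨nat_lit 1000, nat_lit 0, nat_lit 0, nat_lit 0, nat_lit 0, nat_lit 0, nat_lit 0, nat_lit 0, nat_lit 0, nat_lit 0, nat_lit 0, nat_lit 0, nat_lit 0, nat_lit 0, nat_lit 0, nat_lit 0, false, false⟩,
 nat_lit 0, nat_lit 0, nat_lit 0, nat_lit 0, nat_lit 6649, nat_lit 10015, nat_lit 417, nat_lit 0, nat_lit 0, nat_lit 110, nat_lit 0, nat_lit 0, nat_lit 0, nat_lit 0, nat_lit 0, nat_lit 0, nat_lit 0, nat_lit 0, [],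
 ⟨p128_k31, nat_lit 0, nat_lit 0, nat_lit 219, nat_lit 0, nat_lit 0, [nat_lit 938000000, nat_lit 4688000000, nat_lit 9842000000], [], [nat_lit 29657798240, nat_lit 33529484597, nat_lit 42130999404, nat_lit 45308656421, nat_lit 26480573081, nat_lit 29162061827, nat_lit 35454046226, nat_lit 37826791731], nat_lit 0, nat_lit 0, nat_lit 0, nat_lit 0, nat_lit 0, nat_lit 0, [], [nat_lit 81, nat_lit 40, nat_lit 40, nat_lit 80, nat_lit 13, nat_lit 401, nat_lit 175, nat_lit 11]⟩, ⟨p128_k32, nat_lit 0, nat_lit 0, nat_lit 244, nat_lit 0, nat_lit 0, [nat_lit 2032000000, nat_lit 6250000000, nat_lit 11872000000], [], [nat_lit 38199320110, nat_lit 40202131030, nat_lit 49910780430, nat_lit 51124914360, nat_lit 32711542745, nat_lit 33904431955, nat_lit 39134703440, nat_lit 40043823908], nat_lit 0, nat_lit 0, nat_lit 0, nat_lit 0, nat_lit 0, nat_lit 0, [], [nat_lit 72, nat_lit 40, nat_lit 40, nat_lit 80, nat_lit 12, nat_lit 401,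 nat_lit 175, nat_lit 10]⟩,
 zbF0, [⟨nat_lit 0, nat_lit 79, nat_lit 45, nat_lit 100, nat_lit 27138727⟩, ⟨nat_lit 16, nat_lit 44, nat_lit 100, nat_lit 87, nat_lit 36627372⟩]⟩
noncomputable def p128_l111 : Lf2 := ⟨nat_lit 0, nat_lit 30, [nat_lit 15, nat_lit 5, nat_lit 5, nat_lit 20], false, nat_lit 8, nat_lit 160, nat_lit 0, nat_lit 160, ⟨nat_lit 1000, nat_lit 0, nat_lit 0, nat_lit 0, nat_lit 0, nat_lit 0, nat_lit 0, nat_lit 0, nat_lit 0, nat_lit 0, nat_lit 0, nat_lit 0, nat_lit 0, nat_lit 0, nat_lit 0, nat_lit 0, false, false⟩,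
 nat_lit 0, nat_lit 0, nat_lit 8108, nat_lit 0, nat_lit 5169, nat_lit 6081, nat_lit 662, nat_lit 0, nat_lit 0, nat_lit 712, nat_lit 0, nat_lit 0, nat_lit 0, nat_lit 0, nat_lit 0, nat_lit 0, nat_lit 0, nat_lit 0, [],
 ⟨p128_k33, nat_lit 0, nat_lit 0, nat_lit 211, nat_lit 0, nat_lit 0, [nat_lit 938000000, nat_lit 3282000000, nat_lit 9842000000], [], [nat_lit 25262416421, nat_lit 26453340333, nat_lit 37798659932, nat_lit 38489598802, nat_lit 22322327488, nat_lit 22935776921, nat_lit 32605642840, nat_lit 33214934897], nat_lit 0, nat_lit 0, nat_lit 0, nat_lit 0, nat_lit 0, nat_lit 0, [], [nat_lit 93, nat_lit 40, nat_lit 40, nat_lit 80, nat_lit 63, nat_lit 373, nat_lit 150, nat_lit 10]⟩, ⟨p128_k34, nat_lit 0, nat_lit 0, nat_lit 579, nat_lit 0, nat_lit 750340, [nat_lit 2032000000, nat_lit 4688000000, nat_lit 11872000000], [], [nat_lit 32348761248, nat_lit 33095564206, nat_lit 38287082236, nat_lit 39653275944, nat_lit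 29505036920, nat_lit 30130102306, nat_lit 34434336748, nat_lit 34967605298], nat_lit 1271250, nat_lit 1271250, nat_lit 1271250, nat_lit 1271250, nat_lit 0, nat_lit 1100001, [nat_lit 490000, nat_lit 1100000, nat_lit 2470000], [nat_lit 75, nat_lit 40, nat_lit 40, nat_lit 80, nat_lit 65, nat_lit 373, nat_lit 150, nat_lit 9]⟩,
 zbF0, []⟩
noncomputable def p128_l112 : Lf2 := ⟨nat_lit 0, nat_lit 30, [nat_lit 15, nat_lit 5, nat_lit 5, nat_lit 20], false, nat_lit 12, nat_lit 160, nat_lit 0, nat_lit 160, ⟨nat_lit 1000, nat_lit 0, nat_lit 0, nat_lit 0, nat_lit 0, nat_lit 0, nat_lit 0, nat_lit 0, nat_lit 0, nat_lit 0, nat_lit 0, nat_lit 0, nat_lit 0, nat_lit 0, nat_lit 0, nat_lit 0, false, false⟩,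
 nat_lit 0, nat_lit 0, nat_lit 8152, nat_lit 0, nat_lit 4092, nat_lit 6114, nat_lit 594, nat_lit 0, nat_lit 0, nat_lit 744, nat_lit 0, nat_lit 0, nat_lit 0, nat_lit 0, nat_lit 0, nat_lit 0, nat_lit 0, nat_lit 0, [],
 ⟨p128_k35, nat_lit 0, nat_lit 0, nat_lit 190, nat_lit 0, nat_lit 0, [nat_lit 938000000, nat_lit 3282000000, nat_lit 7968000000], [], [nat_lit 24826732155, nat_lit 25823929669, nat_lit 34820850843, nat_lit 35443647457, nat_lit 22740690884, nat_lit 23315270463, nat_lit 31342164621, nat_lit 31894732399], nat_lit 0, nat_lit 0, nat_lit 0, nat_lit 0, nat_lit 0, nat_lit 0, [], [nat_lit 54, nat_lit 40, nat_lit 40, nat_lit 80, nat_lit 43, nat_lit 373, nat_lit 150, nat_lit 11]⟩, ⟨p128_k34, nat_lit 0, nat_lit 0, nat_lit 648, nat_lit 0, nat_lit 853182, [nat_lit 2032000000, nat_lit 4688000000, nat_lit 11872000000], [], [nat_lit 32026074620, nat_lit 32752121464, nat_lit 37982583226, nat_lit 39376135103, nat_lit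 29103919317, nat_lit 29711372152, nat_lit 34149018906, nat_lit 34689808566], nat_lit 1271250, nat_lit 1271250, nat_lit 1271250, nat_lit 1271250, nat_lit 0, nat_lit 1100001, [nat_lit 490000, nat_lit 1100000, nat_lit 2470000], [nat_lit 75, nat_lit 40, nat_lit 40, nat_lit 80, nat_lit 65, nat_lit 373, nat_lit 150, nat_lit 9]⟩,
 zbF0, [⟨nat_lit 0, nat_lit 75, nat_lit 46, nat_lit 100, nat_lit 40915857⟩]⟩
noncomputable def p128_l113 : Lf2 := ⟨nat_lit 0, nat_lit 30, [nat_lit 15, nat_lit 5, nat_lit 5, nat_lit 20], false, nat_lit 8, nat_lit 160, nat_lit 160, nat_lit 300, ⟨nat_lit 1000, nat_lit 0, nat_lit 0, nat_lit 0, nat_lit 0, nat_lit 0, nat_lit 0, nat_lit 0, nat_lit 0, nat_lit 0, nat_lit 0, nat_lit 0, nat_lit 0, nat_lit 0, nat_lit 0, nat_lit 0, false, false⟩,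
 nat_lit 0, nat_lit 0, nat_lit 7962, nat_lit 0, nat_lit 5193, nat_lit 5971, nat_lit 631, nat_lit 0, nat_lit 0, nat_lit 683, nat_lit 0, nat_lit 0, nat_lit 0, nat_lit 0, nat_lit 0, nat_lit 0, nat_lit 0, nat_lit 0, [],
 ⟨p128_k33, nat_lit 0, nat_lit 0, nat_lit 209, nat_lit 0, nat_lit 0, [nat_lit 938000000, nat_lit 3282000000, nat_lit 9842000000], [], [nat_lit 25624373045, nat_lit 26023240277, nat_lit 37868914086, nat_lit 38215222510, nat_lit 22759068686, nat_lit 23066540487, nat_lit 32640643480, nat_lit 32945996945], nat_lit 0, nat_lit 0, nat_lit 0, nat_lit 0, nat_lit 0, nat_lit 0, [], [nat_lit 93, nat_lit 40, nat_lit 40, nat_lit 80, nat_lit 63, nat_lit 373, nat_lit 150, nat_lit 10]⟩, ⟨p128_k34, nat_lit 0, nat_lit 0, nat_lit 443, nat_lit 0, nat_lit 700572, [nat_lit 2032000000, nat_lit 4688000000, nat_lit 11872000000], [], [nat_lit 26654965121, nat_lit 27537189805, nat_lit 32334633065, nat_lit 32868525894, nat_lit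 29081379370, nat_lit 29746356223, nat_lit 34192122678, nat_lit 35074716446], nat_lit 1271250, nat_lit 1271250, nat_lit 1271250, nat_lit 1271250, nat_lit 1100001, nat_lit 2298750, [nat_lit 490000, nat_lit 1100000, nat_lit 2470000], [nat_lit 75, nat_lit 40, nat_lit 40, nat_lit 80, nat_lit 65, nat_lit 401, nat_lit 175, nat_lit 9]⟩,
 zbF0, [⟨nat_lit 19, nat_lit 81, nat_lit 100, nat_lit 92, nat_lit 400591277⟩]⟩
noncomputable def p128_l114 : Lf2 := ⟨nat_lit 0, nat_lit 30, [nat_lit 15, nat_lit 5, nat_lit 5, nat_lit 20], false, nat_lit 8, nat_lit 160, nat_lit 160, nat_lit 300, ⟨nat_lit 1000, nat_lit 0, nat_lit 0, nat_lit 0, nat_lit 0, nat_lit 0, nat_lit 0, nat_lit 0, nat_lit 0, nat_lit 0, nat_lit 0, nat_lit 0, nat_lit 0, nat_lit 0, nat_lit 0, nat_lit 0, false, false⟩,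
 nat_lit 0, nat_lit 0, nat_lit 8155, nat_lit 0, nat_lit 4728, nat_lit 6116, nat_lit 606, nat_lit 0, nat_lit 0, nat_lit 708, nat_lit 0, nat_lit 0, nat_lit 0, nat_lit 0, nat_lit 0, nat_lit 0, nat_lit 0, nat_lit 0, [],
 ⟨p128_k36, nat_lit 0, nat_lit 0, nat_lit 193, nat_lit 0, nat_lit 0, [nat_lit 938000000, nat_lit 3282000000, nat_lit 7968000000], [], [nat_lit 25360755447, nat_lit 25914669114, nat_lit 36837792861, nat_lit 37167845862, nat_lit 22272871734, nat_lit 22585970260, nat_lit 32254152972, nat_lit 32545799864], nat_lit 0, nat_lit 0, nat_lit 0, nat_lit 0, nat_lit 0, nat_lit 0, [], [nat_lit 54, nat_lit 40, nat_lit 40, nat_lit 80, nat_lit 43, nat_lit 373, nat_lit 150, nat_lit 12]⟩, ⟨p128_k34, nat_lit 0, nat_lit 0, nat_lit 485, nat_lit 0, nat_lit 750340, [nat_lit 2032000000, nat_lit 4688000000, nat_lit 11872000000], [], [nat_lit 27700579027, nat_lit 28437880139, nat_lit 32917858112, nat_lit 33554055208, nat_lit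 29584635134, nat_lit 30139289420, nat_lit 34361804288, nat_lit 35252886718], nat_lit 1271250, nat_lit 1271250, nat_lit 1271250, nat_lit 1271250, nat_lit 1100001, nat_lit 2298750, [nat_lit 490000, nat_lit 1100000, nat_lit 2470000], [nat_lit 75, nat_lit 40, nat_lit 40, nat_lit 80, nat_lit 65, nat_lit 401, nat_lit 175, nat_lit 9]⟩,
 zbF0, [⟨nat_lit 7, nat_lit 100, nat_lit 81, nat_lit 92, nat_lit 376256697⟩]⟩
noncomputable def p128_l115 : Lf2 := ⟨nat_lit 0, nat_lit 30, [nat_lit 15, nat_lit 5, nat_lit 5, nat_lit 20], false, nat_lit 12, nat_lit 160, nat_lit 160, nat_lit 300, ⟨nat_lit 1000, nat_lit 0, nat_lit 0, nat_lit 0, nat_lit 0, nat_lit 0, nat_lit 0, nat_lit 0, nat_lit 0, nat_lit 0, nat_lit 0, nat_lit 0, nat_lit 0, nat_lit 0, nat_lit 0, nat_lit 0, false, false⟩,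
 nat_lit 0, nat_lit 0, nat_lit 8164, nat_lit 0, nat_lit 4109, nat_lit 6122, nat_lit 601, nat_lit 0, nat_lit 0, nat_lit 704, nat_lit 0, nat_lit 0, nat_lit 0, nat_lit 0, nat_lit 0, nat_lit 0, nat_lit 0, nat_lit 0, [],
 ⟨p128_k35, nat_lit 0, nat_lit 0, nat_lit 187, nat_lit 0, nat_lit 0, [nat_lit 938000000, nat_lit 3282000000, nat_lit 7968000000], [], [nat_lit 24859075086, nat_lit 25358873663, nat_lit 34870337425, nat_lit 35182341940, nat_lit 22609112643, nat_lit 22897374369, nat_lit 31367493812, nat_lit 31644289510], nat_lit 0, nat_lit 0, nat_lit 0, nat_lit 0, nat_lit 0, nat_lit 0, [], [nat_lit 54, nat_lit 40, nat_lit 40, nat_lit 80, nat_lit 43, nat_lit 373, nat_lit 150, nat_lit 11]⟩, ⟨p128_k34, nat_lit 0, nat_lit 0, nat_lit 500, nat_lit 0, nat_lit 801239, [nat_lit 2032000000, nat_lit 4688000000, nat_lit 11872000000], [], [nat_lit 27842803242, nat_lit 28569207254, nat_lit 32721924037, nat_lit 33366588784, nat_lit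 29676615823, nat_lit 30222722126, nat_lit 34120525823, nat_lit 35017132399], nat_lit 1271250, nat_lit 1271250, nat_lit 1271250, nat_lit 1271250, nat_lit 1100001, nat_lit 2298750, [nat_lit 490000, nat_lit 1100000, nat_lit 2470000], [nat_lit 75, nat_lit 40, nat_lit 40, nat_lit 80, nat_lit 65, nat_lit 401, nat_lit 175, nat_lit 9]⟩,
 zbF0, [⟨nat_lit 0, nat_lit 74, nat_lit 50, nat_lit 100, nat_lit 44671897⟩, ⟨nat_lit 19, nat_lit 81, nat_lit 100, nat_lit 92, nat_lit 373960499⟩]⟩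
noncomputable def p128_l116 : Lf2 := ⟨nat_lit 0, nat_lit 30, [nat_lit 15, nat_lit 5, nat_lit 5, nat_lit 20], false, nat_lit 16, nat_lit 160, nat_lit 160, nat_lit 300, ⟨nat_lit 1000, nat_lit 0, nat_lit 0, nat_lit 0, nat_lit 0, nat_lit 0, nat_lit 0, nat_lit 0, nat_lit 0, nat_lit 0, nat_lit 0, nat_lit 0, nat_lit 0, nat_lit 0, nat_lit 0, nat_lit 0, false, false⟩,
 nat_lit 0, nat_lit 0, nat_lit 8172, nat_lit 0, nat_lit 3552, nat_lit 6128, nat_lit 603, nat_lit 0, nat_lit 0, nat_lit 700, nat_lit 0, nat_lit 0, nat_lit 0, nat_lit 0, nat_lit 0, nat_lit 0, nat_lit 0, nat_lit 0, [],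
 ⟨p128_k37, nat_lit 0, nat_lit 0, nat_lit 182, nat_lit 0, nat_lit 0, [nat_lit 938000000, nat_lit 3282000000, nat_lit 7968000000], [], [nat_lit 24417079864, nat_lit 24869195398, nat_lit 33150976044, nat_lit 33446289597, nat_lit 22922415597, nat_lit 23169406365, nat_lit 30576811212, nat_lit 30839881549], nat_lit 0, nat_lit 0, nat_lit 0, nat_lit 0, nat_lit 0, nat_lit 0, [], [nat_lit 54, nat_lit 40, nat_lit 40, nat_lit 80, nat_lit 43, nat_lit 373, nat_lit 150, nat_lit 11]⟩, ⟨p128_k34, nat_lit 0, nat_lit 0, nat_lit 515, nat_lit 0, nat_lit 853182, [nat_lit 2032000000, nat_lit 4688000000, nat_lit 11872000000], [], [nat_lit 27984936526, nat_lit 28700426206, nat_lit 32525830631, nat_lit 33178976170, nat_lit 29768433067, nat_lit 30310137178, nat_lit 33963623874, nat_lit 34781129435], nat_lit 1271250, nat_lit 1271250, nat_lit 1271250, nat_lit 1271250, nat_lit 1100001, nat_lit 2298750, [nat_lit 490000, nat_lit 1100000, nat_lit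 2470000], [nat_lit 75, nat_lit 40, nat_lit 40, nat_lit 80, nat_lit 65, nat_lit 401, nat_lit 175, nat_lit 9]⟩,
 zbF0, [⟨nat_lit 0, nat_lit 75, nat_lit 46, nat_lit 100, nat_lit 81754361⟩, ⟨nat_lit 7, nat_lit 100, nat_lit 81, nat_lit 92, nat_lit 371660913⟩]⟩
noncomputable def p128_l117 : Lf2 := ⟨nat_lit 0, nat_lit 30, [nat_lit 15, nat_lit 5, nat_lit 5, nat_lit 20], false, nat_lit 160, nat_lit 248, nat_lit 0, nat_lit 300, ⟨nat_lit 562, nat_lit 438, nat_lit 0, nat_lit 8, nat_lit 294, nat_lit 438, nat_lit 157, nat_lit 0, nat_lit 0, nat_lit 0, nat_lit 0, nat_lit 0, nat_lit 37876241, nat_lit 21290376, nat_lit 7833383, nat_lit 5029796, true, false⟩,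
 nat_lit 0, nat_lit 0, nat_lit 5010, nat_lit 0, nat_lit 3854, nat_lit 3757, nat_lit 0, nat_lit 0, nat_lit 0, nat_lit 375, nat_lit 0, nat_lit 0, nat_lit 0, nat_lit 0, nat_lit 0, nat_lit 109500, nat_lit 0, nat_lit 0, [(nat_lit 26, [(nat_lit 0, nat_lit 438)])],
 ⟨p128_k33, nat_lit 0, nat_lit 0, nat_lit 59, nat_lit 0, nat_lit 0, [nat_lit 862488800, nat_lit 2471700001, nat_lit 6734828000], [], [nat_lit 21408737065, nat_lit 22948416641, nat_lit 26204937969, nat_lit 27409124753, nat_lit 23914996022, nat_lit 25236841192, nat_lit 27978083097, nat_lit 29071863786], nat_lit 0, nat_lit 0, nat_lit 0, nat_lit 0, nat_lit 0, nat_lit 0, [], [nat_lit 93, nat_lit 40, nat_lit 40, nat_lit 80, nat_lit 63, nat_lit 373, nat_lit 150, nat_lit 10]⟩, ⟨p128_k34, nat_lit 0, nat_lit 0, nat_lit 652, nat_lit 0, nat_lit 853182, [nat_lit 1141984000, nat_lit 2634656000, nat_lit 6672064000], [], [nat_lit 17315277869, nat_lit 17751112447, nat_lit 18981649597,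 nat_lit 19629171255, nat_lit 16414697455, nat_lit 16485956039, nat_lit 17208324293, nat_lit 17497769148], nat_lit 1271250, nat_lit 1271250, nat_lit 1271250, nat_lit 1271250, nat_lit 0, nat_lit 2118750, [nat_lit 490000, nat_lit 1100000, nat_lit 2470000], [nat_lit 75, nat_lit 40, nat_lit 40, nat_lit 80, nat_lit 65, nat_lit 401, nat_lit 175, nat_lit 10]⟩,
 ⟨nat_lit 2236, nat_lit 3163, ⟨.ofNat (nat_lit 632548), .ofNat (nat_lit 815720), .ofNat (nat_lit 654639), .ofNat (nat_lit 837812), .ofNat (nat_lit 636264), .ofNat (nat_lit 807623), .ofNat (nat_lit 658975), .ofNat (nat_lit 830334)⟩, ⟨.ofNat (nat_lit 306116), .ofNat (nat_lit 440213), .ofNat (nat_lit 350426), .ofNat (nat_lit 484523), .ofNat (nat_lit 306337), .ofNat (nat_lit 431772), .ofNat (nat_lit 351886), .ofNat (nat_lit 477320)⟩⟩, [⟨nat_lit 0, nat_lit 75, nat_lit 46, nat_lit 100, nat_lit 116508778⟩, ⟨nat_lit 4, nat_lit 100, nat_lit 53, nat_lit 87, nat_lit 544405577⟩,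 ⟨nat_lit 7, nat_lit 100, nat_lit 81, nat_lit 92, nat_lit 88240821⟩]⟩
noncomputable def p128_l118 : Lf2 := ⟨nat_lit 0, nat_lit 30, [nat_lit 15, nat_lit 5, nat_lit 5, nat_lit 20], false, nat_lit 160, nat_lit 248, nat_lit 16, nat_lit 160, ⟨nat_lit 1000, nat_lit 0, nat_lit 0, nat_lit 0, nat_lit 0, nat_lit 0, nat_lit 0, nat_lit 0, nat_lit 0, nat_lit 0, nat_lit 0, nat_lit 0, nat_lit 0, nat_lit 0, nat_lit 0, nat_lit 0, false, false⟩,
 nat_lit 0, nat_lit 0, nat_lit 8253, nat_lit 0, nat_lit 3217, nat_lit 6189, nat_lit 607, nat_lit 0, nat_lit 0, nat_lit 641, nat_lit 0, nat_lit 0, nat_lit 0, nat_lit 0, nat_lit 0, nat_lit 0, nat_lit 0, nat_lit 0, [],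
 ⟨p128_k33, nat_lit 0, nat_lit 0, nat_lit 137, nat_lit 0, nat_lit 0, [nat_lit 938000000, nat_lit 3282000000, nat_lit 9842000000], [], [nat_lit 27363607734, nat_lit 28238729308, nat_lit 31038366080, nat_lit 31950265448, nat_lit 29001845042, nat_lit 29914241407, nat_lit 32363260933, nat_lit 33166189237], nat_lit 0, nat_lit 0, nat_lit 0, nat_lit 0, nat_lit 0, nat_lit 0, [], [nat_lit 93, nat_lit 40, nat_lit 40, nat_lit 80, nat_lit 63, nat_lit 289, nat_lit 75, nat_lit 7]⟩, ⟨p128_k34, nat_lit 0, nat_lit 0, nat_lit 592, nat_lit 0, nat_lit 853182, [nat_lit 2032000000, nat_lit 4688000000, nat_lit 11872000000], [], [nat_lit 34702407801, nat_lit 35271320871, nat_lit 37507995008, nat_lit 38851753672, nat_lit 31826858851, nat_lit 32308261627, nat_lit 33988092412, nat_lit 34523580362], nat_lit 1271250, nat_lit 1271250, nat_lit 1271250, nat_lit 1271250, nat_lit 88400, nat_lit 1100001, [nat_lit 490000, nat_lit 1100000, nat_lit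 2470000], [nat_lit 75, nat_lit 40, nat_lit 40, nat_lit 80, nat_lit 65, nat_lit 261, nat_lit 40, nat_lit 6]⟩,
 zbF0, [⟨nat_lit 16, nat_lit 53, nat_lit 100, nat_lit 87, nat_lit 655410195⟩]⟩
noncomputable def p128_l119 : Lf2 := ⟨nat_lit 0, nat_lit 30, [nat_lit 15, nat_lit 5, nat_lit 5, nat_lit 20], false, nat_lit 160, nat_lit 248, nat_lit 160, nat_lit 300, ⟨nat_lit 1000, nat_lit 0, nat_lit 0, nat_lit 0, nat_lit 0, nat_lit 0, nat_lit 0, nat_lit 0, nat_lit 0, nat_lit 0, nat_lit 0, nat_lit 0, nat_lit 0, nat_lit 0, nat_lit 0, nat_lit 0, false, false⟩,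
 nat_lit 0, nat_lit 0, nat_lit 8011, nat_lit 0, nat_lit 3216, nat_lit 6008, nat_lit 600, nat_lit 0, nat_lit 0, nat_lit 637, nat_lit 0, nat_lit 0, nat_lit 0, nat_lit 0, nat_lit 0, nat_lit 0, nat_lit 0, nat_lit 0, [],
 ⟨p128_k33, nat_lit 0, nat_lit 0, nat_lit 137, nat_lit 0, nat_lit 0, [nat_lit 938000000, nat_lit 3282000000, nat_lit 9842000000], [], [nat_lit 27470610832, nat_lit 28343335008, nat_lit 31038071840, nat_lit 31949866704, nat_lit 29003405258, nat_lit 29915260322, nat_lit 32363139716, nat_lit 33165986129], nat_lit 0, nat_lit 0, nat_lit 0, nat_lit 0, nat_lit 0, nat_lit 0, [], [nat_lit 93, nat_lit 40, nat_lit 40, nat_lit 80, nat_lit 63, nat_lit 289, nat_lit 75, nat_lit 7]⟩, ⟨p128_k34, nat_lit 0, nat_lit 0, nat_lit 503, nat_lit 0, nat_lit 853182, [nat_lit 2032000000, nat_lit 4688000000, nat_lit 11872000000], [], [nat_lit 31222365047, nat_lit 31794115143, nat_lit 33660303799, nat_lit 34110541127, nat_lit 32384202343,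 nat_lit 32810623607, nat_lit 34646629552, nat_lit 35120860784], nat_lit 1271250, nat_lit 1271250, nat_lit 1271250, nat_lit 1271250, nat_lit 1100001, nat_lit 2298750, [nat_lit 490000, nat_lit 1100000, nat_lit 2470000], [nat_lit 75, nat_lit 40, nat_lit 40, nat_lit 80, nat_lit 65, nat_lit 289, nat_lit 75, nat_lit 6]⟩,
 zbF0, [⟨nat_lit 4, nat_lit 100, nat_lit 53, nat_lit 87, nat_lit 643060101⟩, ⟨nat_lit 7, nat_lit 100, nat_lit 81, nat_lit 92, nat_lit 343434784⟩]⟩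
noncomputable def p128_l120 : Lf2 := ⟨nat_lit 0, nat_lit 30, [nat_lit 15, nat_lit 5, nat_lit 5, nat_lit 20], false, nat_lit 20, nat_lit 80, nat_lit 0, nat_lit 160, ⟨nat_lit 1000, nat_lit 0, nat_lit 0, nat_lit 0, nat_lit 0, nat_lit 0, nat_lit 0, nat_lit 0, nat_lit 0, nat_lit 0, nat_lit 0, nat_lit 0, nat_lit 0, nat_lit 0, nat_lit 0, nat_lit 0, false, false⟩,
 nat_lit 0, nat_lit 0, nat_lit 8446, nat_lit 0, nat_lit 3040, nat_lit 6334, nat_lit 631, nat_lit 0, nat_lit 0, nat_lit 688, nat_lit 0, nat_lit 0, nat_lit 0, nat_lit 0, nat_lit 0, nat_lit 0, nat_lit 0, nat_lit 0, [],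
 ⟨p128_k38, nat_lit 0, nat_lit 0, nat_lit 182, nat_lit 0, nat_lit 0, [nat_lit 938000000, nat_lit 3282000000, nat_lit 7968000000], [], [nat_lit 24148701553, nat_lit 24961061092, nat_lit 31848837769, nat_lit 32401240456, nat_lit 22870228386, nat_lit 23408136594, nat_lit 30140905440, nat_lit 30678349456], nat_lit 0, nat_lit 0, nat_lit 0, nat_lit 0, nat_lit 0, nat_lit 0, [], [nat_lit 54, nat_lit 40, nat_lit 40, nat_lit 80, nat_lit 43, nat_lit 345, nat_lit 125, nat_lit 10]⟩, ⟨p128_k34, nat_lit 0, nat_lit 0, nat_lit 678, nat_lit 0, nat_lit 960659, [nat_lit 2032000000, nat_lit 4688000000, nat_lit 11872000000], [], [nat_lit 33775035857, nat_lit 34365173682, nat_lit 38183362924, nat_lit 39627789078, nat_lit 30719686632, nat_lit 31209522821, nat_lit 34486475221, nat_lit 34945796201], nat_lit 1271250, nat_lit 1271250, nat_lit 1271250, nat_lit 1271250, nat_lit 0, nat_lit 1100001, [nat_lit 490000, nat_lit 1100000, nat_lit 2470000],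 [nat_lit 75, nat_lit 40, nat_lit 40, nat_lit 80, nat_lit 65, nat_lit 373, nat_lit 150, nat_lit 9]⟩,
 zbF0, [⟨nat_lit 0, nat_lit 80, nat_lit 35, nat_lit 100, nat_lit 93244682⟩]⟩
noncomputable def p128_l121 : Lf2 := ⟨nat_lit 0, nat_lit 30, [nat_lit 15, nat_lit 5, nat_lit 5, nat_lit 20], false, nat_lit 36, nat_lit 80, nat_lit 0, nat_lit 160, ⟨nat_lit 1000, nat_lit 0, nat_lit 0, nat_lit 0, nat_lit 0, nat_lit 0, nat_lit 0, nat_lit 0, nat_lit 0, nat_lit 0, nat_lit 0, nat_lit 0, nat_lit 0, nat_lit 0, nat_lit 0, nat_lit 0, false, false⟩,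
 nat_lit 0, nat_lit 0, nat_lit 8581, nat_lit 0, nat_lit 2749, nat_lit 6435, nat_lit 428, nat_lit 0, nat_lit 0, nat_lit 611, nat_lit 0, nat_lit 0, nat_lit 0, nat_lit 0, nat_lit 0, nat_lit 0, nat_lit 0, nat_lit 0, [],
 ⟨p128_k39, nat_lit 0, nat_lit 0, nat_lit 156, nat_lit 0, nat_lit 0, [nat_lit 938000000, nat_lit 3282000000, nat_lit 6250000000], [], [nat_lit 25702455935, nat_lit 26256414735, nat_lit 30519137830, nat_lit 31064724099, nat_lit 25253372184, nat_lit 25789824932, nat_lit 29549906202, nat_lit 29975998158], nat_lit 0, nat_lit 0, nat_lit 0, nat_lit 0, nat_lit 0, nat_lit 0, [], [nat_lit 20, nat_lit 40, nat_lit 40, nat_lit 80, nat_lit 16, nat_lit 226, nat_lit 20, nat_lit 7]⟩, ⟨p128_k34, nat_lit 0, nat_lit 0, nat_lit 708, nat_lit 0, nat_lit 1072519, [nat_lit 2032000000, nat_lit 4688000000, nat_lit 11872000000], [], [nat_lit 34765586209, nat_lit 35323188449, nat_lit 37837537095, nat_lit 38765110170, nat_lit 31533160413,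 nat_lit 31994864650, nat_lit 33645603625, nat_lit 34074904630], nat_lit 1271250, nat_lit 1271250, nat_lit 1271250, nat_lit 1271250, nat_lit 0, nat_lit 1100001, [nat_lit 490000, nat_lit 1100000, nat_lit 2470000], [nat_lit 75, nat_lit 40, nat_lit 40, nat_lit 80, nat_lit 65, nat_lit 373, nat_lit 150, nat_lit 9]⟩,
 zbF0, [⟨nat_lit 0, nat_lit 86, nat_lit 25, nat_lit 100, nat_lit 496748918⟩]⟩
noncomputable def p128_l122 : Lf2 := ⟨nat_lit 0, nat_lit 30, [nat_lit 15, nat_lit 5, nat_lit 5, nat_lit 20], false, nat_lit 20, nat_lit 80, nat_lit 160, nat_lit 300, ⟨nat_lit 1000, nat_lit 0, nat_lit 0, nat_lit 0, nat_lit 0, nat_lit 0, nat_lit 0, nat_lit 0, nat_lit 0, nat_lit 0, nat_lit 0, nat_lit 0, nat_lit 0, nat_lit 0, nat_lit 0, nat_lit 0, false, false⟩,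
 nat_lit 0, nat_lit 0, nat_lit 7523, nat_lit 0, nat_lit 3058, nat_lit 5642, nat_lit 619, nat_lit 0, nat_lit 0, nat_lit 699, nat_lit 0, nat_lit 0, nat_lit 0, nat_lit 0, nat_lit 0, nat_lit 0, nat_lit 0, nat_lit 0, [],
 ⟨p128_k38, nat_lit 0, nat_lit 0, nat_lit 178, nat_lit 0, nat_lit 0, [nat_lit 938000000, nat_lit 3282000000, nat_lit 7968000000], [], [nat_lit 24184152126, nat_lit 24591528207, nat_lit 31441211856, nat_lit 31724670579, nat_lit 22763120582, nat_lit 23039453669, nat_lit 29731710544, nat_lit 30007286092], nat_lit 0, nat_lit 0, nat_lit 0, nat_lit 0, nat_lit 0, nat_lit 0, [], [nat_lit 54, nat_lit 40, nat_lit 40, nat_lit 80, nat_lit 43, nat_lit 345, nat_lit 125, nat_lit 10]⟩, ⟨p128_k34, nat_lit 0, nat_lit 0, nat_lit 530, nat_lit 0, nat_lit 906408, [nat_lit 2032000000, nat_lit 4688000000, nat_lit 11872000000], [], [nat_lit 29897728475, nat_lit 30576491627, nat_lit 33761963668, nat_lit 34413790393, nat_lit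 31681300790, nat_lit 32196664138, nat_lit 35368469603, nat_lit 35862530233], nat_lit 1271250, nat_lit 1271250, nat_lit 1271250, nat_lit 1271250, nat_lit 1100001, nat_lit 2298750, [nat_lit 490000, nat_lit 1100000, nat_lit 2470000], [nat_lit 75, nat_lit 40, nat_lit 40, nat_lit 80, nat_lit 65, nat_lit 401, nat_lit 175, nat_lit 9]⟩,
 zbF0, [⟨nat_lit 0, nat_lit 77, nat_lit 41, nat_lit 100, nat_lit 54301005⟩, ⟨nat_lit 7, nat_lit 100, nat_lit 81, nat_lit 92, nat_lit 372365651⟩]⟩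
noncomputable def p128_l123 : Lf2 := ⟨nat_lit 0, nat_lit 30, [nat_lit 15, nat_lit 5, nat_lit 5, nat_lit 20], false, nat_lit 28, nat_lit 80, nat_lit 160, nat_lit 300, ⟨nat_lit 1000, nat_lit 0, nat_lit 0, nat_lit 0, nat_lit 0, nat_lit 0, nat_lit 0, nat_lit 0, nat_lit 0, nat_lit 0, nat_lit 0, nat_lit 0, nat_lit 0, nat_lit 0, nat_lit 0, nat_lit 0, false, false⟩,
 nat_lit 0, nat_lit 0, nat_lit 8416, nat_lit 0, nat_lit 3090, nat_lit 6311, nat_lit 497, nat_lit 0, nat_lit 0, nat_lit 650, nat_lit 0, nat_lit 0, nat_lit 0, nat_lit 0, nat_lit 0, nat_lit 0, nat_lit 0, nat_lit 0, [],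
 ⟨p128_k40, nat_lit 0, nat_lit 0, nat_lit 158, nat_lit 0, nat_lit 0, [nat_lit 938000000, nat_lit 3282000000, nat_lit 6250000000], [], [nat_lit 24906896680, nat_lit 25304472457, nat_lit 31582497123, nat_lit 31866109405, nat_lit 23630036735, nat_lit 23920295819, nat_lit 30071796376, nat_lit 30348542433], nat_lit 0, nat_lit 0, nat_lit 0, nat_lit 0, nat_lit 0, nat_lit 0, [], [nat_lit 20, nat_lit 40, nat_lit 40, nat_lit 80, nat_lit 16, nat_lit 226, nat_lit 20, nat_lit 7]⟩, ⟨p128_k34, nat_lit 0, nat_lit 0, nat_lit 545, nat_lit 0, nat_lit 960659, [nat_lit 2032000000, nat_lit 4688000000, nat_lit 11872000000], [], [nat_lit 29861483339, nat_lit 30436200707, nat_lit 32880324894, nat_lit 33446402086, nat_lit 31070169384, nat_lit 31500918059, nat_lit 34000187771, nat_lit 34504322901], nat_lit 1271250, nat_lit 1271250, nat_lit 1271250, nat_lit 1271250, nat_lit 1100001, nat_lit 2298750, [nat_lit 490000, nat_lit 1100000, nat_lit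 2470000], [nat_lit 75, nat_lit 40, nat_lit 40, nat_lit 80, nat_lit 65, nat_lit 401, nat_lit 175, nat_lit 9]⟩,
 zbF0, [⟨nat_lit 0, nat_lit 80, nat_lit 35, nat_lit 100, nat_lit 111233082⟩, ⟨nat_lit 19, nat_lit 81, nat_lit 100, nat_lit 92, nat_lit 345582234⟩]⟩
noncomputable def p128_l124 : Lf2 := ⟨nat_lit 0, nat_lit 30, [nat_lit 15, nat_lit 5, nat_lit 5, nat_lit 20], false, nat_lit 36, nat_lit 80, nat_lit 160, nat_lit 300, ⟨nat_lit 1000, nat_lit 0, nat_lit 0, nat_lit 0, nat_lit 0, nat_lit 0, nat_lit 0, nat_lit 0, nat_lit 0, nat_lit 0, nat_lit 0, nat_lit 0, nat_lit 0, nat_lit 0, nat_lit 0, nat_lit 0, false, false⟩,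
 nat_lit 0, nat_lit 0, nat_lit 8427, nat_lit 0, nat_lit 2906, nat_lit 6320, nat_lit 478, nat_lit 0, nat_lit 0, nat_lit 642, nat_lit 0, nat_lit 0, nat_lit 0, nat_lit 0, nat_lit 0, nat_lit 0, nat_lit 0, nat_lit 0, [],
 ⟨p128_k39, nat_lit 0, nat_lit 0, nat_lit 154, nat_lit 0, nat_lit 0, [nat_lit 938000000, nat_lit 3282000000, nat_lit 6250000000], [], [nat_lit 25370425881, nat_lit 25741685943, nat_lit 30929540988, nat_lit 31208336950, nat_lit 24382665490, nat_lit 24657164187, nat_lit 29758466609, nat_lit 30031483277], nat_lit 0, nat_lit 0, nat_lit 0, nat_lit 0, nat_lit 0, nat_lit 0, [], [nat_lit 20, nat_lit 40, nat_lit 40, nat_lit 80, nat_lit 16, nat_lit 226, nat_lit 20, nat_lit 7]⟩, ⟨p128_k34, nat_lit 0, nat_lit 0, nat_lit 561, nat_lit 0, nat_lit 1016003, [nat_lit 2032000000, nat_lit 4688000000, nat_lit 11872000000], [], [nat_lit 30176701798, nat_lit 30731637878, nat_lit 32751463190, nat_lit 33265095640, nat_lit 31290526006,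 nat_lit 31707855832, nat_lit 33844449180, nat_lit 34270322680], nat_lit 1271250, nat_lit 1271250, nat_lit 1271250, nat_lit 1271250, nat_lit 1100001, nat_lit 2298750, [nat_lit 490000, nat_lit 1100000, nat_lit 2470000], [nat_lit 75, nat_lit 40, nat_lit 40, nat_lit 80, nat_lit 65, nat_lit 401, nat_lit 175, nat_lit 9]⟩,
 zbF0, [⟨nat_lit 0, nat_lit 84, nat_lit 26, nat_lit 100, nat_lit 167599801⟩, ⟨nat_lit 7, nat_lit 100, nat_lit 81, nat_lit 92, nat_lit 341227275⟩]⟩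
noncomputable def p128_l125 : Lf2 := ⟨nat_lit 0, nat_lit 30, [nat_lit 15, nat_lit 5, nat_lit 5, nat_lit 20], false, nat_lit 44, nat_lit 80, nat_lit 160, nat_lit 300, ⟨nat_lit 1000, nat_lit 0, nat_lit 0, nat_lit 0, nat_lit 0, nat_lit 0, nat_lit 0, nat_lit 0, nat_lit 0, nat_lit 0, nat_lit 0, nat_lit 0, nat_lit 0, nat_lit 0, nat_lit 0, nat_lit 0, false, false⟩,
 nat_lit 0, nat_lit 0, nat_lit 8494, nat_lit 0, nat_lit 2762, nat_lit 6370, nat_lit 375, nat_lit 0, nat_lit 0, nat_lit 624, nat_lit 0, nat_lit 0, nat_lit 0, nat_lit 0, nat_lit 0, nat_lit 0, nat_lit 0, nat_lit 0, [],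
 ⟨p128_k41, nat_lit 0, nat_lit 0, nat_lit 149, nat_lit 0, nat_lit 0, [nat_lit 938000000, nat_lit 3282000000, nat_lit 6250000000], [], [nat_lit 26356700427, nat_lit 26624517137, nat_lit 30210309876, nat_lit 30488582365, nat_lit 25968703868, nat_lit 26229662635, nat_lit 29388258333, nat_lit 29604004110], nat_lit 0, nat_lit 0, nat_lit 0, nat_lit 0, nat_lit 0, nat_lit 0, [], [nat_lit 20, nat_lit 40, nat_lit 40, nat_lit 80, nat_lit 16, nat_lit 226, nat_lit 20, nat_lit 7]⟩, ⟨p128_k34, nat_lit 0, nat_lit 0, nat_lit 601, nat_lit 0, nat_lit 1072519, [nat_lit 2032000000, nat_lit 4688000000, nat_lit 11872000000], [], [nat_lit 30442063440, nat_lit 30978021040, nat_lit 32548460420, nat_lit 32963083368, nat_lit 31451720280, nat_lit 31847670825, nat_lit 33391789036, nat_lit 33829223492], nat_lit 1271250, nat_lit 1271250, nat_lit 1271250, nat_lit 1271250, nat_lit 1100001, nat_lit 2298750, [nat_lit 490000, nat_lit 1100000, nat_lit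 2470000], [nat_lit 75, nat_lit 40, nat_lit 40, nat_lit 80, nat_lit 65, nat_lit 401, nat_lit 175, nat_lit 9]⟩,
 zbF0, [⟨nat_lit 0, nat_lit 89, nat_lit 18, nat_lit 100, nat_lit 525557892⟩, ⟨nat_lit 19, nat_lit 81, nat_lit 100, nat_lit 92, nat_lit 336393802⟩]⟩
noncomputable def p128_l126 : Lf2 := ⟨nat_lit 0, nat_lit 30, [nat_lit 15, nat_lit 5, nat_lit 5, nat_lit 20], false, nat_lit 80, nat_lit 208, nat_lit 0, nat_lit 160, ⟨nat_lit 1000, nat_lit 0, nat_lit 0, nat_lit 0, nat_lit 0, nat_lit 0, nat_lit 0, nat_lit 0, nat_lit 0, nat_lit 0, nat_lit 0, nat_lit 0, nat_lit 0, nat_lit 0, nat_lit 0, nat_lit 0, false, false⟩,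
 nat_lit 0, nat_lit 0, nat_lit 8197, nat_lit 0, nat_lit 2988, nat_lit 6147, nat_lit 606, nat_lit 0, nat_lit 0, nat_lit 731, nat_lit 0, nat_lit 0, nat_lit 0, nat_lit 0, nat_lit 0, nat_lit 0, nat_lit 0, nat_lit 0, [],
 ⟨p128_k38, nat_lit 0, nat_lit 0, nat_lit 146, nat_lit 0, nat_lit 0, [nat_lit 938000000, nat_lit 3282000000, nat_lit 7968000000], [], [nat_lit 22849740832, nat_lit 23129864728, nat_lit 30034875049, nat_lit 30301769896, nat_lit 24337651760, nat_lit 24583176361, nat_lit 30655002555, nat_lit 30884755007], nat_lit 0, nat_lit 0, nat_lit 0, nat_lit 0, nat_lit 0, nat_lit 0, [], [nat_lit 54, nat_lit 40, nat_lit 40, nat_lit 80, nat_lit 43, nat_lit 373, nat_lit 150, nat_lit 11]⟩, ⟨p128_k34, nat_lit 0, nat_lit 0, nat_lit 660, nat_lit 0, nat_lit 906408, [nat_lit 2032000000, nat_lit 4688000000, nat_lit 11872000000], [], [nat_lit 32357140419, nat_lit 33056636851, nat_lit 37675398966, nat_lit 39096519011, nat_lit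 29343648250, nat_lit 29928636730, nat_lit 33863046502, nat_lit 34411416764], nat_lit 1271250, nat_lit 1271250, nat_lit 1271250, nat_lit 1271250, nat_lit 0, nat_lit 1100001, [nat_lit 490000, nat_lit 1100000, nat_lit 2470000], [nat_lit 75, nat_lit 40, nat_lit 40, nat_lit 80, nat_lit 65, nat_lit 373, nat_lit 150, nat_lit 9]⟩,
 zbF0, [⟨nat_lit 0, nat_lit 77, nat_lit 41, nat_lit 100, nat_lit 38802183⟩, ⟨nat_lit 4, nat_lit 100, nat_lit 41, nat_lit 87, nat_lit 656536080⟩]⟩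
noncomputable def p128_l127 : Lf2 := ⟨nat_lit 0, nat_lit 30, [nat_lit 15, nat_lit 5, nat_lit 5, nat_lit 20], false, nat_lit 80, nat_lit 196, nat_lit 0, nat_lit 160, ⟨nat_lit 1000, nat_lit 0, nat_lit 0, nat_lit 0, nat_lit 0, nat_lit 0, nat_lit 0, nat_lit 0, nat_lit 0, nat_lit 0, nat_lit 0, nat_lit 0, nat_lit 0, nat_lit 0, nat_lit 0, nat_lit 0, false, false⟩,
 nat_lit 0, nat_lit 0, nat_lit 8536, nat_lit 0, nat_lit 3116, nat_lit 6401, nat_lit 480, nat_lit 0, nat_lit 0, nat_lit 681, nat_lit 0, nat_lit 0, nat_lit 0, nat_lit 0, nat_lit 0, nat_lit 0, nat_lit 0, nat_lit 0, [],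
 ⟨p128_k40, nat_lit 0, nat_lit 0, nat_lit 129, nat_lit 0, nat_lit 0, [nat_lit 938000000, nat_lit 3282000000, nat_lit 6250000000], [], [nat_lit 23651137799, nat_lit 23949619798, nat_lit 30124210983, nat_lit 30401908077, nat_lit 24918359641, nat_lit 25176187210, nat_lit 30519947224, nat_lit 30762458596], nat_lit 0, nat_lit 0, nat_lit 0, nat_lit 0, nat_lit 0, nat_lit 0, [], [nat_lit 20, nat_lit 40, nat_lit 40, nat_lit 80, nat_lit 16, nat_lit 260, nat_lit 50, nat_lit 8]⟩, ⟨p128_k34, nat_lit 0, nat_lit 0, nat_lit 675, nat_lit 0, nat_lit 960659, [nat_lit 2032000000, nat_lit 4688000000, nat_lit 11872000000], [], [nat_lit 33736148136, nat_lit 34313177424, nat_lit 37548357254, nat_lit 39049870729, nat_lit 30586529753, nat_lit 31064844772, nat_lit 33895326427, nat_lit 34367300993], nat_lit 1271250, nat_lit 1271250, nat_lit 1271250, nat_lit 1271250, nat_lit 0, nat_lit 1100001, [nat_lit 490000, nat_lit 1100000, nat_lit 2470000],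 [nat_lit 75, nat_lit 40, nat_lit 40, nat_lit 80, nat_lit 65, nat_lit 373, nat_lit 150, nat_lit 9]⟩,
 zbF0, [⟨nat_lit 0, nat_lit 80, nat_lit 35, nat_lit 100, nat_lit 86316884⟩, ⟨nat_lit 4, nat_lit 100, nat_lit 35, nat_lit 88, nat_lit 739072860⟩]⟩
noncomputable def p128_l128 : Lf2 := ⟨nat_lit 0, nat_lit 30, [nat_lit 15, nat_lit 5, nat_lit 5, nat_lit 20], false, nat_lit 80, nat_lit 184, nat_lit 0, nat_lit 160, ⟨nat_lit 1000, nat_lit 0, nat_lit 0, nat_lit 0, nat_lit 0, nat_lit 0, nat_lit 0, nat_lit 0, nat_lit 0, nat_lit 0, nat_lit 0, nat_lit 0, nat_lit 0, nat_lit 0, nat_lit 0, nat_lit 0, false, false⟩,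
 nat_lit 0, nat_lit 0, nat_lit 8581, nat_lit 0, nat_lit 2749, nat_lit 6435, nat_lit 415, nat_lit 0, nat_lit 0, nat_lit 628, nat_lit 0, nat_lit 0, nat_lit 0, nat_lit 0, nat_lit 0, nat_lit 0, nat_lit 0, nat_lit 0, [],
 ⟨p128_k39, nat_lit 0, nat_lit 0, nat_lit 131, nat_lit 0, nat_lit 0, [nat_lit 938000000, nat_lit 3282000000, nat_lit 6250000000], [], [nat_lit 25135120958, nat_lit 25684268294, nat_lit 29507664451, nat_lit 29975998158, nat_lit 26205258221, nat_lit 26690555324, nat_lit 30242053636, nat_lit 30678036072], nat_lit 0, nat_lit 0, nat_lit 0, nat_lit 0, nat_lit 0, nat_lit 0, [], [nat_lit 20, nat_lit 40, nat_lit 40, nat_lit 80, nat_lit 16, nat_lit 260, nat_lit 50, nat_lit 8]⟩, ⟨p128_k34, nat_lit 0, nat_lit 0, nat_lit 708, nat_lit 0, nat_lit 1072519, [nat_lit 2032000000, nat_lit 4688000000, nat_lit 11872000000], [], [nat_lit 34539008084, nat_lit 35096610324, nat_lit 37610958970, nat_lit 38758506675, nat_lit 31306582288,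 nat_lit 31768286525, nat_lit 33596521040, nat_lit 34074904630], nat_lit 1271250, nat_lit 1271250, nat_lit 1271250, nat_lit 1271250, nat_lit 0, nat_lit 1100001, [nat_lit 490000, nat_lit 1100000, nat_lit 2470000], [nat_lit 75, nat_lit 40, nat_lit 40, nat_lit 80, nat_lit 65, nat_lit 373, nat_lit 150, nat_lit 9]⟩,
 zbF0, [⟨nat_lit 0, nat_lit 86, nat_lit 25, nat_lit 100, nat_lit 432140987⟩, ⟨nat_lit 16, nat_lit 23, nat_lit 100, nat_lit 91, nat_lit 1066851582⟩]⟩
noncomputable def p128_l129 : Lf2 := ⟨nat_lit 0, nat_lit 25, [nat_lit 44, nat_lit 5, nat_lit 5, nat_lit 20], false, nat_lit 80, nat_lit 188, nat_lit 160, nat_lit 280, ⟨nat_lit 1000, nat_lit 0, nat_lit 0, nat_lit 0, nat_lit 0, nat_lit 0, nat_lit 0, nat_lit 0, nat_lit 0, nat_lit 0, nat_lit 0, nat_lit 0, nat_lit 0, nat_lit 0, nat_lit 0, nat_lit 0, false, false⟩,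
 nat_lit 0, nat_lit 0, nat_lit 7277, nat_lit 0, nat_lit 3227, nat_lit 5457, nat_lit 492, nat_lit 0, nat_lit 0, nat_lit 618, nat_lit 0, nat_lit 0, nat_lit 0, nat_lit 0, nat_lit 0, nat_lit 0, nat_lit 0, nat_lit 0, [],
 ⟨p128_k42, nat_lit 0, nat_lit 0, nat_lit 131, nat_lit 0, nat_lit 0, [nat_lit 938000000, nat_lit 3282000000, nat_lit 6250000000], [], [nat_lit 23233391743, nat_lit 23863863327, nat_lit 30522207042, nat_lit 31072792558, nat_lit 24347154721, nat_lit 24849045046, nat_lit 30720960624, nat_lit 31207501616], nat_lit 0, nat_lit 0, nat_lit 0, nat_lit 0, nat_lit 0, nat_lit 0, [], [nat_lit 20, nat_lit 40, nat_lit 40, nat_lit 80, nat_lit 16, nat_lit 260, nat_lit 50, nat_lit 8]⟩, ⟨p128_k43, nat_lit 0, nat_lit 0, nat_lit 484, nat_lit 0, nat_lit 934157, [nat_lit 2032000000, nat_lit 4688000000, nat_lit 9842000000], [], [nat_lit 31160697965, nat_lit 31677977827, nat_lit 34821616134, nat_lit 35332568653, nat_lit 32262748453,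 nat_lit 32779374322, nat_lit 35932341509, nat_lit 36434494951], nat_lit 1271250, nat_lit 1271250, nat_lit 1271250, nat_lit 1271250, nat_lit 1100001, nat_lit 2127500, [nat_lit 490000, nat_lit 1100000, nat_lit 2127500], [nat_lit 27, nat_lit 40, nat_lit 40, nat_lit 80, nat_lit 13, nat_lit 401, nat_lit 175, nat_lit 10]⟩,
 zbF0, [⟨nat_lit 0, nat_lit 80, nat_lit 35, nat_lit 100, nat_lit 127560311⟩, ⟨nat_lit 4, nat_lit 100, nat_lit 39, nat_lit 85, nat_lit 658792494⟩, ⟨nat_lit 7, nat_lit 100, nat_lit 79, nat_lit 87, nat_lit 379248150⟩]⟩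
noncomputable def p128_l130 : Lf2 := ⟨nat_lit 0, nat_lit 25, [nat_lit 44, nat_lit 5, nat_lit 5, nat_lit 20], false, nat_lit 80, nat_lit 160, nat_lit 160, nat_lit 280, ⟨nat_lit 1000, nat_lit 0, nat_lit 0, nat_lit 0, nat_lit 0, nat_lit 0, nat_lit 0, nat_lit 0, nat_lit 0, nat_lit 0, nat_lit 0, nat_lit 0, nat_lit 0, nat_lit 0, nat_lit 0, nat_lit 0, false, false⟩,
 nat_lit 0, nat_lit 0, nat_lit 8520, nat_lit 0, nat_lit 2749, nat_lit 6389, nat_lit 341, nat_lit 0, nat_lit 0, nat_lit 580, nat_lit 0, nat_lit 0, nat_lit 0, nat_lit 0, nat_lit 0, nat_lit 0, nat_lit 0, nat_lit 0, [],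
 ⟨p128_k44, nat_lit 0, nat_lit 0, nat_lit 118, nat_lit 0, nat_lit 0, [nat_lit 938000000, nat_lit 3282000000, nat_lit 4688000000], [], [nat_lit 25060777002, nat_lit 25598920549, nat_lit 29525776700, nat_lit 29980038705, nat_lit 25728613053, nat_lit 26220161451, nat_lit 29866427864, nat_lit 30316355446], nat_lit 0, nat_lit 0, nat_lit 0, nat_lit 0, nat_lit 0, nat_lit 0, [], [nat_lit 35, nat_lit 40, nat_lit 40, nat_lit 80, nat_lit 22, nat_lit 249, nat_lit 40, nat_lit 9]⟩, ⟨p128_k43, nat_lit 0, nat_lit 0, nat_lit 543, nat_lit 0, nat_lit 1043758, [nat_lit 2032000000, nat_lit 4688000000, nat_lit 9842000000], [], [nat_lit 29985567960, nat_lit 30467947033, nat_lit 32528661666, nat_lit 32978302453, nat_lit 30718308230, nat_lit 31199907691, nat_lit 33262711134, nat_lit 33711505151], nat_lit 1271250, nat_lit 1271250, nat_lit 1271250, nat_lit 1271250, nat_lit 1100001, nat_lit 2127500, [nat_lit 490000, nat_lit 1100000, nat_lit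 2127500], [nat_lit 27, nat_lit 40, nat_lit 40, nat_lit 80, nat_lit 13, nat_lit 401, nat_lit 175, nat_lit 10]⟩,
 zbF0, [⟨nat_lit 0, nat_lit 86, nat_lit 25, nat_lit 100, nat_lit 370852247⟩, ⟨nat_lit 4, nat_lit 100, nat_lit 24, nat_lit 89, nat_lit 958892791⟩, ⟨nat_lit 7, nat_lit 100, nat_lit 79, nat_lit 87, nat_lit 356891615⟩]⟩
noncomputable def p128_l131 : Lf2 := ⟨nat_lit 0, nat_lit 30, [nat_lit 15, nat_lit 5, nat_lit 5, nat_lit 20], false, nat_lit 80, nat_lit 208, nat_lit 160, nat_lit 300, ⟨nat_lit 1000, nat_lit 0, nat_lit 0, nat_lit 0, nat_lit 0, nat_lit 0, nat_lit 0, nat_lit 0, nat_lit 0, nat_lit 0, nat_lit 0, nat_lit 0, nat_lit 0, nat_lit 0, nat_lit 0, nat_lit 0, false, false⟩,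
 nat_lit 0, nat_lit 0, nat_lit 8555, nat_lit 0, nat_lit 2885, nat_lit 6416, nat_lit 561, nat_lit 0, nat_lit 0, nat_lit 643, nat_lit 0, nat_lit 0, nat_lit 0, nat_lit 0, nat_lit 0, nat_lit 0, nat_lit 0, nat_lit 0, [],
 ⟨p128_k38, nat_lit 0, nat_lit 0, nat_lit 134, nat_lit 0, nat_lit 0, [nat_lit 938000000, nat_lit 3282000000, nat_lit 7968000000], [], [nat_lit 23612790483, nat_lit 24716701190, nat_lit 26373653645, nat_lit 27317683660, nat_lit 25139502269, nat_lit 26080935785, nat_lit 27505486360, nat_lit 28349707600], nat_lit 0, nat_lit 0, nat_lit 0, nat_lit 0, nat_lit 0, nat_lit 0, [], [nat_lit 54, nat_lit 40, nat_lit 40, nat_lit 80, nat_lit 43, nat_lit 373, nat_lit 150, nat_lit 11]⟩, ⟨p128_k34, nat_lit 0, nat_lit 0, nat_lit 529, nat_lit 0, nat_lit 903797, [nat_lit 2032000000, nat_lit 4688000000, nat_lit 11872000000], [], [nat_lit 27882091286, nat_lit 28592631782, nat_lit 29692806569, nat_lit 30274761561, nat_lit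 29547318537, nat_lit 30077247791, nat_lit 30763113961, nat_lit 31252255984], nat_lit 1271250, nat_lit 1271250, nat_lit 1271250, nat_lit 1271250, nat_lit 1100001, nat_lit 2298750, [nat_lit 490000, nat_lit 1100000, nat_lit 2470000], [nat_lit 75, nat_lit 40, nat_lit 40, nat_lit 80, nat_lit 65, nat_lit 401, nat_lit 175, nat_lit 9]⟩,
 zbF0, [⟨nat_lit 0, nat_lit 82, nat_lit 34, nat_lit 100, nat_lit 682996953⟩, ⟨nat_lit 4, nat_lit 100, nat_lit 32, nat_lit 90, nat_lit 756886933⟩, ⟨nat_lit 7, nat_lit 100, nat_lit 82, nat_lit 97, nat_lit 319890102⟩]⟩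
noncomputable def p128_l132 : Lf2 := ⟨nat_lit 0, nat_lit 30, [nat_lit 15, nat_lit 5, nat_lit 5, nat_lit 20], false, nat_lit 80, nat_lit 208, nat_lit 160, nat_lit 300, ⟨nat_lit 1000, nat_lit 0, nat_lit 0, nat_lit 0, nat_lit 0, nat_lit 0, nat_lit 0, nat_lit 0, nat_lit 0, nat_lit 0, nat_lit 0, nat_lit 0, nat_lit 0, nat_lit 0, nat_lit 0, nat_lit 0, false, false⟩,
 nat_lit 0, nat_lit 0, nat_lit 7266, nat_lit 0, nat_lit 2828, nat_lit 5449, nat_lit 544, nat_lit 0, nat_lit 0, nat_lit 656, nat_lit 0, nat_lit 0, nat_lit 0, nat_lit 0, nat_lit 0, nat_lit 0, nat_lit 0, nat_lit 0, [],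
 ⟨p128_k38, nat_lit 0, nat_lit 0, nat_lit 150, nat_lit 0, nat_lit 0, [nat_lit 938000000, nat_lit 3282000000, nat_lit 7968000000], [], [nat_lit 26668978856, nat_lit 27604885632, nat_lit 29708627689, nat_lit 30753718951, nat_lit 27826873316, nat_lit 28635389757, nat_lit 30623288757, nat_lit 31451900667], nat_lit 0, nat_lit 0, nat_lit 0, nat_lit 0, nat_lit 0, nat_lit 0, [], [nat_lit 54, nat_lit 40, nat_lit 40, nat_lit 80, nat_lit 43, nat_lit 272, nat_lit 60, nat_lit 7]⟩, ⟨p128_k34, nat_lit 0, nat_lit 0, nat_lit 519, nat_lit 0, nat_lit 903797, [nat_lit 2032000000, nat_lit 4688000000, nat_lit 11872000000], [], [nat_lit 32955210716, nat_lit 33512979104, nat_lit 35073733236, nat_lit 35530307599, nat_lit 34242452954, nat_lit 34665292146, nat_lit 36296368299, nat_lit 36775664577], nat_lit 1271250, nat_lit 1271250, nat_lit 1271250, nat_lit 1271250, nat_lit 1100001, nat_lit 2298750, [nat_lit 490000, nat_lit 1100000, nat_lit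 2470000], [nat_lit 75, nat_lit 40, nat_lit 40, nat_lit 80, nat_lit 65, nat_lit 289, nat_lit 75, nat_lit 6]⟩,
 zbF0, [⟨nat_lit 16, nat_lit 32, nat_lit 100, nat_lit 90, nat_lit 756398126⟩, ⟨nat_lit 7, nat_lit 100, nat_lit 82, nat_lit 97, nat_lit 327854037⟩]⟩
noncomputable def b_V_900_800_20_9 : St := ⟨true, nat_lit 0, nat_lit 2, nat_lit 1, nat_lit 120, nat_lit 360, nat_lit 400, nat_lit 320, nat_lit 340, nat_lit 200, nat_lit 400, nat_lit 80, nat_lit 120, nat_lit 8, nat_lit 248, nat_lit 0, nat_lit 300, nat_lit 80, nat_lit 120, nat_lit 0, nat_lit 0, nat_lit 0, nat_lit 0⟩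
theorem d_V_900_800_20_9 (h : EB TB.env) : Dead b_V_900_800_20_9 := chkB_sound0 h (T :=
(.st (nat_lit 1)
(.leaf p128_l110)
(.spl (nat_lit 0) (nat_lit 380)
(.spl (nat_lit 4) (nat_lit 160)
(.spl (nat_lit 5) (nat_lit 160)
(.spl (nat_lit 0) (nat_lit 370)
(.leaf p128_l111)
(.trZ (nat_lit 0) (nat_lit 80) (nat_lit 53) (nat_lit 100) (nat_lit 216) (.trX (nat_lit 13) (nat_lit 74) (nat_lit 33) (nat_lit 100) (nat_lit 396) (.trZ (nat_lit 3) (nat_lit 100) (nat_lit 66) (nat_lit 45) (nat_lit 12) (.leaf p128_l112)))))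
(.spl (nat_lit 0) (nat_lit 370)
(.spl (nat_lit 0) (nat_lit 365)
(.leaf p128_l113)
(.trZ (nat_lit 0) (nat_lit 80) (nat_lit 57) (nat_lit 100) (nat_lit 208) (.leaf p128_l114)))
(.trZ (nat_lit 0) (nat_lit 80) (nat_lit 53) (nat_lit 100) (nat_lit 216) (.trX (nat_lit 13) (nat_lit 74) (nat_lit 33) (nat_lit 100) (nat_lit 396) (.trZ (nat_lit 3) (nat_lit 100) (nat_lit 66) (nat_lit 45) (nat_lit 12) (.spl (nat_lit 0) (nat_lit 375)
(.leaf p128_l115)
(.trZ (nat_lit 0) (nat_lit 81) (nat_lit 49) (nat_lit 100) (nat_lit 224) (.trX (nat_lit 13) (nat_lit 68) (nat_lit 40) (nat_lit 100) (nat_lit 392) (.trZ (nat_lit 3) (nat_lit 100) (nat_lit 61) (nat_lit 51) (nat_lit 16) (.leaf p128_l116))))))))))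
(.spl (nat_lit 2) (nat_lit 320)
(.leaf p128_l117)
(.trZ (nat_lit 9) (nat_lit 100) (nat_lit 82) (nat_lit 44) (nat_lit 16) (.spl (nat_lit 5) (nat_lit 160)
(.leaf p128_l118)
(.leaf p128_l119)))))
(.trZ (nat_lit 0) (nat_lit 82) (nat_lit 44) (nat_lit 100) (nat_lit 236) (.trX (nat_lit 13) (nat_lit 61) (nat_lit 47) (nat_lit 100) (nat_lit 392) (.trZ (nat_lit 3) (nat_lit 100) (nat_lit 54) (nat_lit 57) (nat_lit 20) (.trX (nat_lit 16) (nat_lit 44) (nat_lit 100) (nat_lit 92) (nat_lit 208) (.spl (nat_lit 4) (nat_lit 80)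
(.spl (nat_lit 5) (nat_lit 160)
(.spl (nat_lit 0) (nat_lit 390)
(.leaf p128_l120)
(.trZ (nat_lit 0) (nat_lit 84) (nat_lit 33) (nat_lit 100) (nat_lit 264) (.trX (nat_lit 13) (nat_lit 44) (nat_lit 64) (nat_lit 100) (nat_lit 380) (.trZ (nat_lit 3) (nat_lit 100) (nat_lit 39) (nat_lit 72) (nat_lit 36) (.leaf p128_l121)))))
(.trX (nat_lit 10) (nat_lit 100) (nat_lit 44) (nat_lit 82) (nat_lit 384) (.spl (nat_lit 0) (nat_lit 390)
(.spl (nat_lit 0) (nat_lit 385)
(.leaf p128_l122)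
(.trZ (nat_lit 0) (nat_lit 83) (nat_lit 39) (nat_lit 100) (nat_lit 248) (.trZ (nat_lit 3) (nat_lit 100) (nat_lit 47) (nat_lit 64) (nat_lit 28) (.leaf p128_l123))))
(.trZ (nat_lit 0) (nat_lit 84) (nat_lit 33) (nat_lit 100) (nat_lit 264) (.trX (nat_lit 13) (nat_lit 44) (nat_lit 64) (nat_lit 100) (nat_lit 380) (.trZ (nat_lit 3) (nat_lit 100) (nat_lit 39) (nat_lit 72) (nat_lit 36) (.spl (nat_lit 0) (nat_lit 395)
(.leaf p128_l124)
(.trZ (nat_lit 0) (nat_lit 88) (nat_lit 24) (nat_lit 100) (nat_lit 280) (.trX (nat_lit 13) (nat_lit 31) (nat_lit 76) (nat_lit 100) (nat_lit 372) (.trZ (nat_lit 3) (nat_lit 100) (nat_lit 28) (nat_lit 81) (nat_lit 44) (.leaf p128_l125)))))))))))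
(.spl (nat_lit 5) (nat_lit 160)
(.spl (nat_lit 0) (nat_lit 390)
(.spl (nat_lit 0) (nat_lit 385)
(.leaf p128_l126)
(.trZ (nat_lit 0) (nat_lit 83) (nat_lit 39) (nat_lit 100) (nat_lit 248) (.trX (nat_lit 13) (nat_lit 53) (nat_lit 55) (nat_lit 100) (nat_lit 384) (.trX (nat_lit 16) (nat_lit 38) (nat_lit 100) (nat_lit 92) (nat_lit 196) (.leaf p128_l127)))))
(.trZ (nat_lit 0) (nat_lit 84) (nat_lit 33) (nat_lit 100) (nat_lit 264) (.trX (nat_lit 13) (nat_lit 44) (nat_lit 64) (nat_lit 100) (nat_lit 380) (.trX (nat_lit 16) (nat_lit 31) (nat_lit 100) (nat_lit 92) (nat_lit 184) (.leaf p128_l128)))))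
(.spl (nat_lit 3) (nat_lit 100)
(.trX (nat_lit 16) (nat_lit 44) (nat_lit 100) (nat_lit 87) (nat_lit 188) (.trX (nat_lit 19) (nat_lit 87) (nat_lit 100) (nat_lit 94) (nat_lit 280) (.spl (nat_lit 0) (nat_lit 390)
(.leaf p128_l129)
(.trZ (nat_lit 0) (nat_lit 84) (nat_lit 33) (nat_lit 100) (nat_lit 264) (.trX (nat_lit 13) (nat_lit 44) (nat_lit 64) (nat_lit 100) (nat_lit 380) (.trX (nat_lit 16) (nat_lit 32) (nat_lit 100) (nat_lit 88) (nat_lit 160) (.leaf p128_l130)))))))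
(.spl (nat_lit 2) (nat_lit 320)
(.leaf p128_l131)
(.leaf p128_l132)))))))))))) (by decide +kernel)
noncomputable def p128_l133 : Lf2 := ⟨nat_lit 0, nat_lit 30, [nat_lit 15, nat_lit 5, nat_lit 5, nat_lit 20], false, nat_lit 8, nat_lit 248, nat_lit 0, nat_lit 300, ⟨nat_lit 1000, nat_lit 0, nat_lit 0, nat_lit 0, nat_lit 0, nat_lit 0, nat_lit 0, nat_lit 0, nat_lit 0, nat_lit 0, nat_lit 0, nat_lit 0, nat_lit 0, nat_lit 0, nat_lit 0, nat_lit 0, false, false⟩,
 nat_lit 0, nat_lit 0, nat_lit 0, nat_lit 0, nat_lit 6649, nat_lit 10015, nat_lit 417, nat_lit 0, nat_lit 0, nat_lit 110, nat_lit 0, nat_lit 0, nat_lit 0, nat_lit 0, nat_lit 0, nat_lit 0, nat_lit 0, nat_lit 0, [],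
 ⟨p128_k31, nat_lit 0, nat_lit 0, nat_lit 219, nat_lit 0, nat_lit 0, [nat_lit 938000000, nat_lit 4688000000, nat_lit 9842000000], [], [nat_lit 29657798240, nat_lit 33529484597, nat_lit 42130999404, nat_lit 45308656421, nat_lit 26480573081, nat_lit 29162061827, nat_lit 35454046226, nat_lit 37826791731], nat_lit 0, nat_lit 0, nat_lit 0, nat_lit 0, nat_lit 0, nat_lit 0, [], [nat_lit 81, nat_lit 40, nat_lit 40, nat_lit 80, nat_lit 13, nat_lit 401, nat_lit 175, nat_lit 11]⟩, ⟨p128_k32, nat_lit 0, nat_lit 0, nat_lit 244, nat_lit 0, nat_lit 0, [nat_lit 2032000000, nat_lit 6250000000, nat_lit 11872000000], [], [nat_lit 38199320110, nat_lit 40202131030, nat_lit 49910780430, nat_lit 51124914360, nat_lit 32711542745, nat_lit 33904431955, nat_lit 39134703440, nat_lit 40043823908], nat_lit 0, nat_lit 0, nat_lit 0, nat_lit 0, nat_lit 0, nat_lit 0, [], [nat_lit 72, nat_lit 40, nat_lit 40, nat_lit 80, nat_lit 12, nat_lit 401,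 nat_lit 175, nat_lit 10]⟩,
 zbF0, [⟨nat_lit 0, nat_lit 79, nat_lit 45, nat_lit 100, nat_lit 27138727⟩, ⟨nat_lit 4, nat_lit 100, nat_lit 44, nat_lit 87, nat_lit 36627372⟩]⟩
noncomputable def p128_l134 : Lf2 := ⟨nat_lit 0, nat_lit 30, [nat_lit 15, nat_lit 5, nat_lit 5, nat_lit 20], true, nat_lit 8, nat_lit 160, nat_lit 0, nat_lit 300, ⟨nat_lit 0, nat_lit 1000, nat_lit 0, nat_lit 8, nat_lit 293, nat_lit 1000, nat_lit 69, nat_lit 0, nat_lit 0, nat_lit 0, nat_lit 0, nat_lit 0, nat_lit 0, nat_lit 0, nat_lit 0, nat_lit 5000000, true, false⟩,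
 nat_lit 0, nat_lit 0, nat_lit 0, nat_lit 0, nat_lit 2916, nat_lit 0, nat_lit 131, nat_lit 0, nat_lit 0, nat_lit 0, nat_lit 0, nat_lit 0, nat_lit 0, nat_lit 0, nat_lit 0, nat_lit 400000, nat_lit 0, nat_lit 0, [(nat_lit 26, [(nat_lit 1, nat_lit 1000)]), (nat_lit 29, [(nat_lit 1, nat_lit 1000)])],
 ⟨p128_k33, nat_lit 0, nat_lit 0, nat_lit 196, nat_lit 0, nat_lit 0, [nat_lit 851200001, nat_lit 1023600001, nat_lit 751600000], [], [nat_lit 22829209463, nat_lit 25217635068, nat_lit 26662399985, nat_lit 29226114513, nat_lit 22798811789, nat_lit 24608309933, nat_lit 25881628829, nat_lit 27549521504], nat_lit 0, nat_lit 0, nat_lit 0, nat_lit 0, nat_lit 0, nat_lit 0, [], [nat_lit 93, nat_lit 40, nat_lit 40, nat_lit 80, nat_lit 63, nat_lit 345, nat_lit 125, nat_lit 9]⟩, C1.Rw.none,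
 ⟨nat_lit 0, nat_lit 3163, ⟨.ofNat (nat_lit 625100), .ofNat (nat_lit 815384), .ofNat (nat_lit 645949), .ofNat (nat_lit 836507), .ofNat (nat_lit 642170), .ofNat (nat_lit 799594), .ofNat (nat_lit 665865), .ofNat (nat_lit 823562)⟩, ⟨.ofNat (nat_lit 20000), .ofNat (nat_lit 306113), .ofNat (nat_lit 20000), .ofNat (nat_lit 350425), .ofNat (nat_lit 20000), .ofNat (nat_lit 299996), .ofNat (nat_lit 20000), .ofNat (nat_lit 349998)⟩⟩, []⟩
noncomputable def p128_l135 : Lf2 := ⟨nat_lit 0, nat_lit 30, [nat_lit 15, nat_lit 5, nat_lit 5, nat_lit 20], false, nat_lit 8, nat_lit 160, nat_lit 0, nat_lit 300, ⟨nat_lit 700, nat_lit 300, nat_lit 0, nat_lit 8, nat_lit 354, nat_lit 300, nat_lit 70, nat_lit 0, nat_lit 0, nat_lit 0, nat_lit 0, nat_lit 0, nat_lit 0, nat_lit 0, nat_lit 0, nat_lit 5000000, true, true⟩,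
 nat_lit 0, nat_lit 0, nat_lit 5789, nat_lit 0, nat_lit 3855, nat_lit 4341, nat_lit 290, nat_lit 0, nat_lit 0, nat_lit 399, nat_lit 0, nat_lit 0, nat_lit 0, nat_lit 0, nat_lit 0, nat_lit 244800, nat_lit 0, nat_lit 0, [(nat_lit 26, [(nat_lit 1, nat_lit 92), (nat_lit 2, nat_lit 208)])],
 ⟨p128_k33, nat_lit 0, nat_lit 0, nat_lit 211, nat_lit 0, nat_lit 0, [nat_lit 1039672000, nat_lit 2322071467, nat_lit 5450796800], [], [nat_lit 29688491232, nat_lit 30223005086, nat_lit 33952245022, nat_lit 34551314531, nat_lit 27890550347, nat_lit 28290455972, nat_lit 30856669687, nat_lit 31221185615], nat_lit 0, nat_lit 0, nat_lit 0, nat_lit 0, nat_lit 0, nat_lit 0, [], [nat_lit 93, nat_lit 40, nat_lit 40, nat_lit 80, nat_lit 63, nat_lit 249, nat_lit 40, nat_lit 6]⟩, ⟨p128_k34, nat_lit 0, nat_lit 0, nat_lit 551, nat_lit 0, nat_lit 750340, [nat_lit 1422400000, nat_lit 3281600000, nat_lit 8310400000], [], [nat_lit 25281279769, nat_lit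 25684891461, nat_lit 27551713717, nat_lit 28145091315, nat_lit 23465397959, nat_lit 23713713797, nat_lit 24551995761, nat_lit 24750500581], nat_lit 1271250, nat_lit 1271250, nat_lit 1271250, nat_lit 1271250, nat_lit 0, nat_lit 2118750, [nat_lit 490000, nat_lit 1100000, nat_lit 2470000], [nat_lit 75, nat_lit 40, nat_lit 40, nat_lit 80, nat_lit 65, nat_lit 289, nat_lit 75, nat_lit 7]⟩,
 ⟨nat_lit 2738, nat_lit 3163, ⟨.ofNat (nat_lit 815772), .ofNat (nat_lit 937695), .ofNat (nat_lit 837914), .ofNat (nat_lit 959850), .ofNat (nat_lit 811670), .ofNat (nat_lit 929809), .ofNat (nat_lit 834076), .ofNat (nat_lit 952227)⟩, ⟨.ofNat (nat_lit 20000), .ofNat (nat_lit 306116), .ofNat (nat_lit 20000), .ofNat (nat_lit 350426), .ofNat (nat_lit 20000), .ofNat (nat_lit 306433), .ofNat (nat_lit 20000), .ofNat (nat_lit 351268)⟩⟩, [⟨nat_lit 19, nat_lit 81, nat_lit 100, nat_lit 92, nat_lit 90477015⟩, ⟨nat_lit 10, nat_lit 100, nat_lit 37,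 nat_lit 84, nat_lit 8159360⟩]⟩
noncomputable def p128_l136 : Lf2 := ⟨nat_lit 0, nat_lit 30, [nat_lit 15, nat_lit 5, nat_lit 5, nat_lit 20], false, nat_lit 12, nat_lit 160, nat_lit 0, nat_lit 300, ⟨nat_lit 595, nat_lit 405, nat_lit 0, nat_lit 8, nat_lit 350, nat_lit 405, nat_lit 72, nat_lit 0, nat_lit 0, nat_lit 0, nat_lit 0, nat_lit 0, nat_lit 0, nat_lit 0, nat_lit 0, nat_lit 5000000, true, true⟩,
 nat_lit 0, nat_lit 0, nat_lit 4935, nat_lit 0, nat_lit 3293, nat_lit 3701, nat_lit 363, nat_lit 0, nat_lit 0, nat_lit 340, nat_lit 0, nat_lit 0, nat_lit 0, nat_lit 0, nat_lit 0, nat_lit 101250, nat_lit 0, nat_lit 0, [(nat_lit 26, [(nat_lit 0, nat_lit 405)])],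
 ⟨p128_k35, nat_lit 0, nat_lit 0, nat_lit 190, nat_lit 0, nat_lit 0, [nat_lit 868178000, nat_lit 2507154001, nat_lit 5758644000], [], [nat_lit 28503224217, nat_lit 29041384093, nat_lit 32494981491, nat_lit 33060794567, nat_lit 27655278108, nat_lit 28059352299, nat_lit 30320726411, nat_lit 30664773816], nat_lit 0, nat_lit 0, nat_lit 0, nat_lit 0, nat_lit 0, nat_lit 0, [], [nat_lit 54, nat_lit 40, nat_lit 40, nat_lit 80, nat_lit 43, nat_lit 249, nat_lit 40, nat_lit 7]⟩, ⟨p128_k34, nat_lit 0, nat_lit 0, nat_lit 616, nat_lit 0, nat_lit 853182, [nat_lit 1209040000, nat_lit 2789360000, nat_lit 7063840000], [], [nat_lit 21438143884, nat_lit 21781492706, nat_lit 23274392880, nat_lit 23787179104, nat_lit 19881743684, nat_lit 20092795065, nat_lit 20755335969, nat_lit 20918555682], nat_lit 1271250, nat_lit 1271250, nat_lit 1271250, nat_lit 1271250, nat_lit 0, nat_lit 2118750, [nat_lit 490000, nat_lit 1100000, nat_lit 2470000],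 [nat_lit 75, nat_lit 40, nat_lit 40, nat_lit 80, nat_lit 65, nat_lit 289, nat_lit 75, nat_lit 7]⟩,
 ⟨nat_lit 2236, nat_lit 2739, ⟨.ofNat (nat_lit 811671), .ofNat (nat_lit 923903), .ofNat (nat_lit 834068), .ofNat (nat_lit 946321), .ofNat (nat_lit 807675), .ofNat (nat_lit 916020), .ofNat (nat_lit 830429), .ofNat (nat_lit 938795)⟩, ⟨.ofNat (nat_lit 30000), .ofNat (nat_lit 306433), .ofNat (nat_lit 30000), .ofNat (nat_lit 351268), .ofNat (nat_lit 30000), .ofNat (nat_lit 306337), .ofNat (nat_lit 30000), .ofNat (nat_lit 351886)⟩⟩, [⟨nat_lit 13, nat_lit 64, nat_lit 46, nat_lit 100, nat_lit 59467416⟩, ⟨nat_lit 19, nat_lit 81, nat_lit 100, nat_lit 92, nat_lit 79846242⟩]⟩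
noncomputable def p128_l137 : Lf2 := ⟨nat_lit 0, nat_lit 30, [nat_lit 15, nat_lit 5, nat_lit 5, nat_lit 20], false, nat_lit 20, nat_lit 160, nat_lit 0, nat_lit 300, ⟨nat_lit 250, nat_lit 750, nat_lit 0, nat_lit 8, nat_lit 345, nat_lit 750, nat_lit 75, nat_lit 0, nat_lit 0, nat_lit 0, nat_lit 0, nat_lit 0, nat_lit 0, nat_lit 0, nat_lit 0, nat_lit 5000000, true, true⟩,
 nat_lit 0, nat_lit 0, nat_lit 2145, nat_lit 0, nat_lit 2814, nat_lit 1608, nat_lit 109, nat_lit 0, nat_lit 0, nat_lit 137, nat_lit 0, nat_lit 0, nat_lit 0, nat_lit 0, nat_lit 0, nat_lit 300000, nat_lit 0, nat_lit 0, [(nat_lit 29, [(nat_lit 1, nat_lit 750)])],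
 ⟨p128_k38, nat_lit 0, nat_lit 0, nat_lit 188, nat_lit 0, nat_lit 0, [nat_lit 758300000, nat_lit 1069500000, nat_lit 2033100000], [], [nat_lit 27907155969, nat_lit 28913286557, nat_lit 31206099599, nat_lit 32278109121, nat_lit 27394640495, nat_lit 28216677091, nat_lit 29917453805, nat_lit 30678230096], nat_lit 0, nat_lit 0, nat_lit 0, nat_lit 0, nat_lit 0, nat_lit 0, [], [nat_lit 54, nat_lit 40, nat_lit 40, nat_lit 80, nat_lit 43, nat_lit 249, nat_lit 40, nat_lit 7]⟩, ⟨p128_k34, nat_lit 0, nat_lit 0, nat_lit 700, nat_lit 0, nat_lit 1072519, [nat_lit 508000000, nat_lit 1172000000, nat_lit 2968000000], [], [nat_lit 9167769147, nat_lit 9288981519, nat_lit 9856470651, nat_lit 10078170090, nat_lit 8422689551, nat_lit 8494890876, nat_lit 8707926088, nat_lit 8785518664], nat_lit 1271250, nat_lit 1271250, nat_lit 1271250, nat_lit 1271250, nat_lit 0, nat_lit 2118750, [nat_lit 490000, nat_lit 1100000, nat_lit 2470000], [nat_lit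 75, nat_lit 40, nat_lit 40, nat_lit 80, nat_lit 65, nat_lit 304, nat_lit 75, nat_lit 7]⟩,
 ⟨nat_lit 0, nat_lit 2237, ⟨.ofNat (nat_lit 807594), .ofNat (nat_lit 910316), .ofNat (nat_lit 829507), .ofNat (nat_lit 933091), .ofNat (nat_lit 799902), .ofNat (nat_lit 889996), .ofNat (nat_lit 824041), .ofNat (nat_lit 914997)⟩, ⟨.ofNat (nat_lit 50000), .ofNat (nat_lit 306334), .ofNat (nat_lit 50000), .ofNat (nat_lit 351885), .ofNat (nat_lit 50000), .ofNat (nat_lit 299996), .ofNat (nat_lit 50000), .ofNat (nat_lit 349998)⟩⟩, [⟨nat_lit 13, nat_lit 41, nat_lit 68, nat_lit 100, nat_lit 370534781⟩, ⟨nat_lit 13, nat_lit 61, nat_lit 47, nat_lit 100, nat_lit 13573338⟩, ⟨nat_lit 4, nat_lit 100, nat_lit 32, nat_lit 88, nat_lit 21742872⟩, ⟨nat_lit 7, nat_lit 100, nat_lit 81, nat_lit 92, nat_lit 31554611⟩]⟩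
noncomputable def p128_l138 : Lf2 := ⟨nat_lit 0, nat_lit 30, [nat_lit 15, nat_lit 5, nat_lit 5, nat_lit 20], false, nat_lit 160, nat_lit 248, nat_lit 0, nat_lit 300, ⟨nat_lit 391, nat_lit 609, nat_lit 0, nat_lit 8, nat_lit 290, nat_lit 609, nat_lit 155, nat_lit 0, nat_lit 0, nat_lit 0, nat_lit 0, nat_lit 0, nat_lit 0, nat_lit 0, nat_lit 0, nat_lit 5000000, true, false⟩,
 nat_lit 0, nat_lit 0, nat_lit 3602, nat_lit 0, nat_lit 5163, nat_lit 2701, nat_lit 192, nat_lit 0, nat_lit 0, nat_lit 248, nat_lit 0, nat_lit 0, nat_lit 0, nat_lit 0, nat_lit 0, nat_lit 152250, nat_lit 0, nat_lit 0, [(nat_lit 26, [(nat_lit 0, nat_lit 609)]), (nat_lit 29, [(nat_lit 0, nat_lit 609)])],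
 ⟨p128_k33, nat_lit 0, nat_lit 0, nat_lit 92, nat_lit 0, nat_lit 0, [nat_lit 842752400, nat_lit 2155350001, nat_lit 5575250000], [], [nat_lit 24898294240, nat_lit 27626050432, nat_lit 28669885276, nat_lit 30797669912, nat_lit 26601284709, nat_lit 28940618140, nat_lit 29709264290, nat_lit 31680354017], nat_lit 0, nat_lit 0, nat_lit 0, nat_lit 0, nat_lit 0, nat_lit 0, [], [nat_lit 93, nat_lit 40, nat_lit 40, nat_lit 80, nat_lit 63, nat_lit 373, nat_lit 150, nat_lit 10]⟩, ⟨p128_k34, nat_lit 0, nat_lit 0, nat_lit 702, nat_lit 0, nat_lit 1010860, [nat_lit 794512000, nat_lit 1833008000, nat_lit 4641952000], [], [nat_lit 12354588308, nat_lit 12482108323, nat_lit 13448369696, nat_lit 13677405993, nat_lit 11468733590, nat_lit 11467826929, nat_lit 11941694292, nat_lit 12024921683], nat_lit 1271250, nat_lit 1271250, nat_lit 1271250, nat_lit 1271250, nat_lit 0, nat_lit 2118750, [nat_lit 490000, nat_lit 1100000, nat_lit 2470000],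 [nat_lit 75, nat_lit 40, nat_lit 40, nat_lit 80, nat_lit 65, nat_lit 401, nat_lit 175, nat_lit 10]⟩,
 ⟨nat_lit 0, nat_lit 3163, ⟨.ofNat (nat_lit 625100), .ofNat (nat_lit 815384), .ofNat (nat_lit 635524), .ofNat (nat_lit 825991), .ofNat (nat_lit 642170), .ofNat (nat_lit 799594), .ofNat (nat_lit 654017), .ofNat (nat_lit 811624)⟩, ⟨.ofNat (nat_lit 306113), .ofNat (nat_lit 440207), .ofNat (nat_lit 350425), .ofNat (nat_lit 484518), .ofNat (nat_lit 299996), .ofNat (nat_lit 409993), .ofNat (nat_lit 349998), .ofNat (nat_lit 459993)⟩⟩, [⟨nat_lit 4, nat_lit 100, nat_lit 44, nat_lit 87, nat_lit 517273929⟩, ⟨nat_lit 19, nat_lit 87, nat_lit 95, nat_lit 100, nat_lit 49233123⟩]⟩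
noncomputable def p128_l139 : Lf2 := ⟨nat_lit 0, nat_lit 30, [nat_lit 15, nat_lit 5, nat_lit 5, nat_lit 20], false, nat_lit 160, nat_lit 248, nat_lit 16, nat_lit 300, ⟨nat_lit 675, nat_lit 325, nat_lit 0, nat_lit 8, nat_lit 349, nat_lit 325, nat_lit 157, nat_lit 0, nat_lit 0, nat_lit 0, nat_lit 0, nat_lit 0, nat_lit 0, nat_lit 0, nat_lit 0, nat_lit 5000000, true, true⟩,
 nat_lit 0, nat_lit 0, nat_lit 5653, nat_lit 0, nat_lit 3035, nat_lit 4239, nat_lit 417, nat_lit 0, nat_lit 0, nat_lit 384, nat_lit 0, nat_lit 0, nat_lit 0, nat_lit 0, nat_lit 0, nat_lit 130000, nat_lit 0, nat_lit 0, [(nat_lit 26, [(nat_lit 1, nat_lit 325)])],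
 ⟨p128_k33, nat_lit 0, nat_lit 0, nat_lit 134, nat_lit 0, nat_lit 0, [nat_lit 909790000, nat_lit 2548020001, nat_lit 6887620000], [], [nat_lit 27373116570, nat_lit 28228069080, nat_lit 30242905476, nat_lit 30965527209, nat_lit 28744471244, nat_lit 29498841685, nat_lit 31474878060, nat_lit 32230744632], nat_lit 0, nat_lit 0, nat_lit 0, nat_lit 0, nat_lit 0, nat_lit 0, [], [nat_lit 93, nat_lit 40, nat_lit 40, nat_lit 80, nat_lit 63, nat_lit 289, nat_lit 75, nat_lit 7]⟩, ⟨p128_k34, nat_lit 0, nat_lit 0, nat_lit 553, nat_lit 0, nat_lit 785365, [nat_lit 1371600000, nat_lit 3164400000, nat_lit 8013600000], [], [nat_lit 23847567946, nat_lit 24040320271, nat_lit 25863461872, nat_lit 26153178184, nat_lit 22387549836, nat_lit 22507232919, nat_lit 23379075394, nat_lit 23471421836], nat_lit 1271250, nat_lit 1271250, nat_lit 1271250, nat_lit 1271250, nat_lit 88400, nat_lit 2136750, [nat_lit 490000, nat_lit 1100000, nat_lit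 2470000], [nat_lit 75, nat_lit 40, nat_lit 40, nat_lit 80, nat_lit 65, nat_lit 289, nat_lit 75, nat_lit 7]⟩,
 ⟨nat_lit 2236, nat_lit 3163, ⟨.ofNat (nat_lit 815720), .ofNat (nat_lit 931599), .ofNat (nat_lit 826765), .ofNat (nat_lit 942677), .ofNat (nat_lit 807623), .ofNat (nat_lit 916020), .ofNat (nat_lit 818978), .ofNat (nat_lit 927408)⟩, ⟨.ofNat (nat_lit 306116), .ofNat (nat_lit 440213), .ofNat (nat_lit 350426), .ofNat (nat_lit 484523), .ofNat (nat_lit 306337), .ofNat (nat_lit 431772), .ofNat (nat_lit 351886), .ofNat (nat_lit 477320)⟩⟩, [⟨nat_lit 13, nat_lit 54, nat_lit 57, nat_lit 100, nat_lit 42165909⟩, ⟨nat_lit 16, nat_lit 53, nat_lit 100, nat_lit 87, nat_lit 531759007⟩, ⟨nat_lit 19, nat_lit 84, nat_lit 100, nat_lit 93, nat_lit 98622779⟩]⟩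
noncomputable def p128_l140 : Lf2 := ⟨nat_lit 0, nat_lit 30, [nat_lit 15, nat_lit 5, nat_lit 5, nat_lit 20], false, nat_lit 160, nat_lit 208, nat_lit 16, nat_lit 300, ⟨nat_lit 580, nat_lit 420, nat_lit 0, nat_lit 8, nat_lit 341, nat_lit 420, nat_lit 144, nat_lit 0, nat_lit 0, nat_lit 0, nat_lit 0, nat_lit 0, nat_lit 0, nat_lit 0, nat_lit 0, nat_lit 5000000, true, true⟩,
 nat_lit 0, nat_lit 0, nat_lit 5024, nat_lit 0, nat_lit 2600, nat_lit 3768, nat_lit 321, nat_lit 0, nat_lit 0, nat_lit 323, nat_lit 0, nat_lit 0, nat_lit 0, nat_lit 0, nat_lit 0, nat_lit 168000, nat_lit 0, nat_lit 0, [(nat_lit 29, [(nat_lit 1, nat_lit 420)])],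
 ⟨p128_k38, nat_lit 0, nat_lit 0, nat_lit 122, nat_lit 0, nat_lit 0, [nat_lit 837368000, nat_lit 2043000000, nat_lit 4644456000], [], [nat_lit 26895690775, nat_lit 27747417175, nat_lit 29203671896, nat_lit 29957936321, nat_lit 27664623416, nat_lit 28464013015, nat_lit 29833624327, nat_lit 30645304161], nat_lit 0, nat_lit 0, nat_lit 0, nat_lit 0, nat_lit 0, nat_lit 0, [], [nat_lit 54, nat_lit 40, nat_lit 40, nat_lit 80, nat_lit 43, nat_lit 272, nat_lit 60, nat_lit 7]⟩, ⟨p128_k34, nat_lit 0, nat_lit 0, nat_lit 671, nat_lit 0, nat_lit 1010860, [nat_lit 1178560000, nat_lit 2719040000, nat_lit 6885760000], [], [nat_lit 20738721696, nat_lit 20877653920, nat_lit 22006589510, nat_lit 22270585004, nat_lit 19262235281, nat_lit 19345831336, nat_lit 19841695758, nat_lit 19921897384], nat_lit 1271250, nat_lit 1271250, nat_lit 1271250, nat_lit 1271250, nat_lit 88400, nat_lit 2136750, [nat_lit 490000, nat_lit 1100000, nat_lit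 2470000], [nat_lit 75, nat_lit 40, nat_lit 40, nat_lit 80, nat_lit 65, nat_lit 295, nat_lit 75, nat_lit 7]⟩,
 ⟨nat_lit 0, nat_lit 2237, ⟨.ofNat (nat_lit 807594), .ofNat (nat_lit 898913), .ofNat (nat_lit 818584), .ofNat (nat_lit 910301), .ofNat (nat_lit 799902), .ofNat (nat_lit 879996), .ofNat (nat_lit 812004), .ofNat (nat_lit 892497)⟩, ⟨.ofNat (nat_lit 306334), .ofNat (nat_lit 374750), .ofNat (nat_lit 351885), .ofNat (nat_lit 420300), .ofNat (nat_lit 299996), .ofNat (nat_lit 359993), .ofNat (nat_lit 349998), .ofNat (nat_lit 409994)⟩⟩, [⟨nat_lit 13, nat_lit 40, nat_lit 70, nat_lit 100, nat_lit 12468445⟩, ⟨nat_lit 13, nat_lit 57, nat_lit 53, nat_lit 100, nat_lit 64417867⟩, ⟨nat_lit 16, nat_lit 32, nat_lit 100, nat_lit 88, nat_lit 821896501⟩, ⟨nat_lit 19, nat_lit 84, nat_lit 100, nat_lit 93, nat_lit 84218546⟩]⟩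
noncomputable def p128_l141 : Lf2 := ⟨nat_lit 0, nat_lit 30, [nat_lit 15, nat_lit 5, nat_lit 5, nat_lit 20], false, nat_lit 160, nat_lit 248, nat_lit 0, nat_lit 288, ⟨nat_lit 726, nat_lit 274, nat_lit 0, nat_lit 8, nat_lit 323, nat_lit 274, nat_lit 157, nat_lit 0, nat_lit 0, nat_lit 0, nat_lit 0, nat_lit 0, nat_lit 0, nat_lit 0, nat_lit 0, nat_lit 5000000, true, false⟩,
 nat_lit 0, nat_lit 0, nat_lit 5752, nat_lit 0, nat_lit 3713, nat_lit 4483, nat_lit 419, nat_lit 0, nat_lit 0, nat_lit 391, nat_lit 0, nat_lit 0, nat_lit 0, nat_lit 0, nat_lit 0, nat_lit 109600, nat_lit 0, nat_lit 0, [(nat_lit 26, [(nat_lit 1, nat_lit 274)])],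
 ⟨p128_k33, nat_lit 0, nat_lit 0, nat_lit 137, nat_lit 0, nat_lit 0, [nat_lit 914216800, nat_lit 2663198401, nat_lit 7351230400], [], [nat_lit 24286948901, nat_lit 25419610978, nat_lit 30774762130, nat_lit 31535572522, nat_lit 26031414815, nat_lit 27015880777, nat_lit 31804583065, nat_lit 32648129206], nat_lit 0, nat_lit 0, nat_lit 0, nat_lit 0, nat_lit 0, nat_lit 0, [], [nat_lit 93, nat_lit 40, nat_lit 40, nat_lit 80, nat_lit 63, nat_lit 401, nat_lit 175, nat_lit 10]⟩, ⟨p128_k45, nat_lit 0, nat_lit 0, nat_lit 623, nat_lit 0, nat_lit 807695, [nat_lit 1475232000, nat_lit 3403488000, nat_lit 8619072000], [], [nat_lit 23047994050, nat_lit 23314578337, nat_lit 28833619968, nat_lit 29140825797, nat_lit 21703489114, nat_lit 21875574325, nat_lit 25199524244, nat_lit 25402808581], nat_lit 1271250, nat_lit 1271250, nat_lit 1271250, nat_lit 1271250, nat_lit 0, nat_lit 2034000, [nat_lit 490000, nat_lit 1100000, nat_lit 2470000],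 [nat_lit 75, nat_lit 40, nat_lit 40, nat_lit 80, nat_lit 65, nat_lit 401, nat_lit 175, nat_lit 10]⟩,
 ⟨nat_lit 2236, nat_lit 3163, ⟨.ofNat (nat_lit 661911), .ofNat (nat_lit 948772), .ofNat (nat_lit 672956), .ofNat (nat_lit 959850), .ofNat (nat_lit 664755), .ofNat (nat_lit 933109), .ofNat (nat_lit 676111), .ofNat (nat_lit 944496)⟩, ⟨.ofNat (nat_lit 306116), .ofNat (nat_lit 440213), .ofNat (nat_lit 350426), .ofNat (nat_lit 484523), .ofNat (nat_lit 306337), .ofNat (nat_lit 431772), .ofNat (nat_lit 351886), .ofNat (nat_lit 477320)⟩⟩, [⟨nat_lit 16, nat_lit 53, nat_lit 100, nat_lit 87, nat_lit 583175566⟩, ⟨nat_lit 19, nat_lit 77, nat_lit 100, nat_lit 91, nat_lit 91493310⟩]⟩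
noncomputable def p128_l142 : Lf2 := ⟨nat_lit 0, nat_lit 30, [nat_lit 15, nat_lit 5, nat_lit 5, nat_lit 20], false, nat_lit 160, nat_lit 208, nat_lit 0, nat_lit 288, ⟨nat_lit 739, nat_lit 261, nat_lit 0, nat_lit 8, nat_lit 328, nat_lit 261, nat_lit 144, nat_lit 0, nat_lit 0, nat_lit 0, nat_lit 0, nat_lit 0, nat_lit 0, nat_lit 0, nat_lit 0, nat_lit 5000000, true, false⟩,
 nat_lit 0, nat_lit 0, nat_lit 5631, nat_lit 0, nat_lit 2990, nat_lit 4389, nat_lit 360, nat_lit 0, nat_lit 0, nat_lit 444, nat_lit 0, nat_lit 0, nat_lit 0, nat_lit 0, nat_lit 0, nat_lit 104400, nat_lit 0, nat_lit 0, [(nat_lit 29, [(nat_lit 1, nat_lit 261)])],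
 ⟨p128_k38, nat_lit 0, nat_lit 0, nat_lit 124, nat_lit 0, nat_lit 0, [nat_lit 875464400, nat_lit 2512050000, nat_lit 5902654800], [], [nat_lit 25065443101, nat_lit 26110645192, nat_lit 30113153660, nat_lit 30966543505, nat_lit 25955428169, nat_lit 26930064832, nat_lit 30669157069, nat_lit 31577032090], nat_lit 0, nat_lit 0, nat_lit 0, nat_lit 0, nat_lit 0, nat_lit 0, [], [nat_lit 54, nat_lit 40, nat_lit 40, nat_lit 80, nat_lit 43, nat_lit 272, nat_lit 60, nat_lit 7]⟩, ⟨p128_k45, nat_lit 0, nat_lit 0, nat_lit 692, nat_lit 0, nat_lit 1015186, [nat_lit 1501648000, nat_lit 3464432000, nat_lit 8773408000], [], [nat_lit 24332397165, nat_lit 24541225329, nat_lit 28140232132, nat_lit 28457751436, nat_lit 22813392299, nat_lit 22947551367, nat_lit 24928015622, nat_lit 25274029330], nat_lit 1271250, nat_lit 1271250, nat_lit 1271250, nat_lit 1271250, nat_lit 0, nat_lit 2034000, [nat_lit 490000, nat_lit 1100000, nat_lit 2470000],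 [nat_lit 75, nat_lit 40, nat_lit 40, nat_lit 80, nat_lit 65, nat_lit 401, nat_lit 175, nat_lit 10]⟩,
 ⟨nat_lit 0, nat_lit 2237, ⟨.ofNat (nat_lit 712639), .ofNat (nat_lit 921704), .ofNat (nat_lit 723563), .ofNat (nat_lit 933091), .ofNat (nat_lit 718688), .ofNat (nat_lit 902497), .ofNat (nat_lit 730725), .ofNat (nat_lit 914997)⟩, ⟨.ofNat (nat_lit 306334), .ofNat (nat_lit 374750), .ofNat (nat_lit 351885), .ofNat (nat_lit 420300), .ofNat (nat_lit 299996), .ofNat (nat_lit 359993), .ofNat (nat_lit 349998), .ofNat (nat_lit 409994)⟩⟩, [⟨nat_lit 4, nat_lit 100, nat_lit 32, nat_lit 88, nat_lit 935562854⟩, ⟨nat_lit 19, nat_lit 77, nat_lit 100, nat_lit 91, nat_lit 108542982⟩]⟩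
noncomputable def b_V_900_800_20_10 : St := ⟨true, nat_lit 0, nat_lit 2, nat_lit 2, nat_lit 120, nat_lit 360, nat_lit 400, nat_lit 320, nat_lit 340, nat_lit 200, nat_lit 400, nat_lit 80, nat_lit 120, nat_lit 8, nat_lit 248, nat_lit 0, nat_lit 300, nat_lit 80, nat_lit 120, nat_lit 0, nat_lit 0, nat_lit 0, nat_lit 0⟩
theorem d_V_900_800_20_10 (h : EB TB.env) : Dead b_V_900_800_20_10 := chkB_sound0 h (T :=
(.st (nat_lit 1)
(.leaf p128_l133)
(.spl (nat_lit 4) (nat_lit 160)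
(.spl (nat_lit 2) (nat_lit 320)
(.leaf p128_l134)
(.spl (nat_lit 0) (nat_lit 380)
(.spl (nat_lit 0) (nat_lit 370)
(.leaf p128_l135)
(.trX (nat_lit 13) (nat_lit 74) (nat_lit 33) (nat_lit 100) (nat_lit 396) (.trZ (nat_lit 3) (nat_lit 100) (nat_lit 66) (nat_lit 45) (nat_lit 12) (.leaf p128_l136))))
(.trX (nat_lit 13) (nat_lit 61) (nat_lit 47) (nat_lit 100) (nat_lit 392) (.trZ (nat_lit 3) (nat_lit 100) (nat_lit 54) (nat_lit 57) (nat_lit 20) (.leaf p128_l137)))))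
(.spl (nat_lit 1) (nat_lit 330)
(.trX (nat_lit 13) (nat_lit 79) (nat_lit 29) (nat_lit 100) (nat_lit 396) (.spl (nat_lit 2) (nat_lit 320)
(.leaf p128_l138)
(.trZ (nat_lit 9) (nat_lit 100) (nat_lit 82) (nat_lit 44) (nat_lit 16) (.spl (nat_lit 0) (nat_lit 380)
(.leaf p128_l139)
(.trX (nat_lit 13) (nat_lit 57) (nat_lit 53) (nat_lit 100) (nat_lit 384) (.trX (nat_lit 16) (nat_lit 44) (nat_lit 100) (nat_lit 92) (nat_lit 208) (.leaf p128_l140)))))))
(.trZ (nat_lit 0) (nat_lit 76) (nat_lit 60) (nat_lit 100) (nat_lit 212) (.trX (nat_lit 19) (nat_lit 83) (nat_lit 98) (nat_lit 100) (nat_lit 288) (.spl (nat_lit 0) (nat_lit 380)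
(.leaf p128_l141)
(.trZ (nat_lit 0) (nat_lit 79) (nat_lit 45) (nat_lit 100) (nat_lit 248) (.trX (nat_lit 13) (nat_lit 61) (nat_lit 47) (nat_lit 100) (nat_lit 392) (.trX (nat_lit 16) (nat_lit 44) (nat_lit 100) (nat_lit 92) (nat_lit 208) (.leaf p128_l142))))))))))) (by decide +kernel)

end B2
end Pool.Agent.Lib.MP_6947cd_al
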